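import Pool.Agent.Lib.MP_5854e1_co.DtD

/-!
# Windows and cells of the rings
-/

set_option autoImplicit false
set_option maxRecDepth 100000
set_option deprecated.oldSectionVars true

namespace Pool.Agent.Lib.MP_5854e1_co.Cz

open Pool.Agent.Lib.MP_5854e1_co

noncomputable section

noncomputable def tv1453 : DT := (.nd (nat_lit 0) (.nd (nat_lit 1) (.nd (nat_lit 2) (.nd (nat_lit 3) (.nd (nat_lit 4) (.nd (nat_lit 5) (.nd (nat_lit 6) 
(.lf (nat_lit 107008) (.g (nat_lit 1742) (.e (nat_lit 5191) (nat_lit 294) (.e (nat_lit 57373) (nat_lit 2) (.e (nat_lit 98048) (nat_lit 8) (.e (nat_lit 131116) (nat_lit 9) (.e (nat_lit 336004) (nat_lit 2) (.e (nat_lit 90172) (nat_lit 14) (.e (nat_lit 188160) (nat_lit 0) .nil))))))) (.g (nat_lit 5) .nil .nil))) 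
(.lf (nat_lit 107072) (.g (nat_lit 2731) (.e (nat_lit 5193) (nat_lit 294) (.e (nat_lit 57411) (nat_lit 12) (.e (nat_lit 336019) (nat_lit 3) (.e (nat_lit 98374) (nat_lit 29) (.e (nat_lit 458496) (nat_lit 3) (.e (nat_lit 516106) (nat_lit 0) (.e (nat_lit 7936) (nat_lit 157) .nil))))))) (.g (nat_lit 4) .nil .nil)))) (.nd (nat_lit 6) 
(.lf (nat_lit 107040) (.g (nat_lit 5097) (.e (nat_lit 5193) (nat_lit 294) (.e (nat_lit 57377) (nat_lit 3) (.e (nat_lit 98317) (nat_lit 9) (.e (nat_lit 336078) (nat_lit 9) .nil)))) .nil)) 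
(.lf (nat_lit 107104) (.g (nat_lit 1671) (.e (nat_lit 5193) (nat_lit 294) (.e (nat_lit 57446) (nat_lit 19) (.e (nat_lit 401152) (nat_lit 12) (.e (nat_lit 360473) (nat_lit 8) (.e (nat_lit 557091) (nat_lit 12) (.e (nat_lit 171776) (nat_lit 0) .nil)))))) (.g (nat_lit 5) .nil .nil))))) (.nd (nat_lit 5) (.nd (nat_lit 6) 
(.lf (nat_lit 107024) (.g (nat_lit 1661) (.e (nat_lit 5192) (nat_lit 294) (.e (nat_lit 57448) (nat_lit 19) (.e (nat_lit 393234) (nat_lit 17) (.e (nat_lit 2413) (nat_lit 157) .nil)))) .nil)) 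
(.lf (nat_lit 107088) (.g (nat_lit 2558) (.e (nat_lit 5193) (nat_lit 294) (.e (nat_lit 57432) (nat_lit 16) (.e (nat_lit 368676) (nat_lit 21) (.e (nat_lit 516176) (nat_lit 14) (.e (nat_lit 466967) (nat_lit 20) (.e (nat_lit 7936) (nat_lit 195) (.e (nat_lit 516106) (nat_lit 0) (.e (nat_lit 7936) (nat_lit 157) .nil)))))))) (.g (nat_lit 5) .nil .nil)))) (.nd (nat_lit 6) 
(.lf (nat_lit 107056) (.g (nat_lit 1534) (.e (nat_lit 5193) (nat_lit 294) (.e (nat_lit 57388) (nat_lit 5) (.e (nat_lit 114698) (nat_lit 11) (.e (nat_lit 426199) (nat_lit 9) .nil)))) .nil)) 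
(.lf (nat_lit 107120) (.g (nat_lit 1796) (.e (nat_lit 5193) (nat_lit 294) (.e (nat_lit 57448) (nat_lit 19) (.e (nat_lit 393234) (nat_lit 17) (.e (nat_lit 2415) (nat_lit 157) (.e (nat_lit 5192) (nat_lit 294) .nil))))) .nil))))) (.nd (nat_lit 4) (.nd (nat_lit 5) (.nd (nat_lit 6) 
(.lf (nat_lit 107016) (.g (nat_lit 3857) (.e (nat_lit 5192) (nat_lit 294) (.e (nat_lit 57377) (nat_lit 3) (.e (nat_lit 98317) (nat_lit 9) (.e (nat_lit 336223) (nat_lit 13) .nil)))) .nil)) 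
(.lf (nat_lit 107080) (.g (nat_lit 2205) (.e (nat_lit 5193) (nat_lit 294) (.e (nat_lit 57430) (nat_lit 16) (.e (nat_lit 368676) (nat_lit 21) (.e (nat_lit 516150) (nat_lit 9) (.e (nat_lit 426294) (nat_lit 11) (.e (nat_lit 466688) (nat_lit 21) (.e (nat_lit 516106) (nat_lit 0) (.e (nat_lit 7936) (nat_lit 157) .nil)))))))) (.g (nat_lit 5) .nil .nil)))) (.nd (nat_lit 6) 
(.lf (nat_lit 107048) (.g (nat_lit 2827) (.e (nat_lit 5193) (nat_lit 294) (.e (nat_lit 57377) (nat_lit 3) (.e (nat_lit 98317) (nat_lit 9) (.e (nat_lit 336215) (nat_lit 13) .nil)))) .nil)) 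
(.lf (nat_lit 107112) (.g (nat_lit 1560) (.e (nat_lit 5193) (nat_lit 294) (.e (nat_lit 57448) (nat_lit 19) (.e (nat_lit 393234) (nat_lit 17) (.e (nat_lit 2411) (nat_lit 157) .nil)))) .nil)))) (.nd (nat_lit 5) (.nd (nat_lit 6) 
(.lf (nat_lit 107032) (.g (nat_lit 966) (.e (nat_lit 5193) (nat_lit 294) (.e (nat_lit 57372) (nat_lit 2) (.e (nat_lit 90158) (nat_lit 11) .nil))) .nil)) 
(.lf (nat_lit 107096) (.g (nat_lit 1707) (.e (nat_lit 5193) (nat_lit 294) (.e (nat_lit 57437) (nat_lit 17) (.e (nat_lit 376860) (nat_lit 21) (.e (nat_lit 57857) (nat_lit 254) (.e (nat_lit 163923) (nat_lit 15) (.e (nat_lit 458496) (nat_lit 0) .nil)))))) (.g (nat_lit 4) .nil .nil)))) (.nd (nat_lit 6) 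
(.lf (nat_lit 107064) (.g (nat_lit 1162) (.e (nat_lit 5193) (nat_lit 294) (.e (nat_lit 57407) (nat_lit 12) (.e (nat_lit 336367) (nat_lit 27) (.e (nat_lit 426546) (nat_lit 30) (.e (nat_lit 360473) (nat_lit 8) (.e (nat_lit 557094) (nat_lit 12) (.e (nat_lit 171776) (nat_lit 0) .nil))))))) (.g (nat_lit 4) .nil .nil))) 
(.lf (nat_lit 107128) (.g (nat_lit 4478) (.e (nat_lit 5194) (nat_lit 294) (.e (nat_lit 57365) (nat_lit 1) (.e (nat_lit 57830) (nat_lit 250) (.e (nat_lit 1201) (nat_lit 88) (.e (nat_lit 65586) (nat_lit 7) (.e (nat_lit 319531) (nat_lit 16) (.e (nat_lit 286756) (nat_lit 10) (.e (nat_lit 344097) (nat_lit 18) .nil)))))))) (.g (nat_lit 0) .nil .nil))))))) 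
(.nd (nat_lit 3) (.nd (nat_lit 4) (.nd (nat_lit 5) (.nd (nat_lit 6) 
(.lf (nat_lit 107012) (.g (nat_lit 4126) (.e (nat_lit 5192) (nat_lit 294) (.e (nat_lit 57377) (nat_lit 3) (.e (nat_lit 98317) (nat_lit 9) (.e (nat_lit 336213) (nat_lit 13) .nil)))) .nil)) 
(.lf (nat_lit 107076) (.g (nat_lit 2990) (.e (nat_lit 5193) (nat_lit 294) (.e (nat_lit 57411) (nat_lit 12) (.e (nat_lit 336182) (nat_lit 11) (.e (nat_lit 376576) (nat_lit 18) (.e (nat_lit 5224) (nat_lit 296) (.e (nat_lit 163907) (nat_lit 12) (.e (nat_lit 426294) (nat_lit 11) (.e (nat_lit 466688) (nat_lit 18) .nil)))))))) (.g (nat_lit 7) .nil .nil)))) (.nd (nat_lit 6) 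
(.lf (nat_lit 107044) (.g (nat_lit 3299) (.e (nat_lit 5193) (nat_lit 294) (.e (nat_lit 57377) (nat_lit 3) (.e (nat_lit 98317) (nat_lit 9) (.e (nat_lit 336088) (nat_lit 9) .nil)))) .nil)) 
(.lf (nat_lit 107108) (.g (nat_lit 1243) (.e (nat_lit 5193) (nat_lit 294) (.e (nat_lit 57447) (nat_lit 19) (.e (nat_lit 401152) (nat_lit 12) (.e (nat_lit 360473) (nat_lit 8) (.e (nat_lit 557094) (nat_lit 12) (.e (nat_lit 171776) (nat_lit 0) .nil)))))) (.g (nat_lit 4) .nil .nil))))) (.nd (nat_lit 5) (.nd (nat_lit 6) 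
(.lf (nat_lit 107028) (.g (nat_lit 1750) (.e (nat_lit 5192) (nat_lit 294) (.e (nat_lit 57448) (nat_lit 19) (.e (nat_lit 393234) (nat_lit 17) (.e (nat_lit 2528) (nat_lit 157) (.e (nat_lit 5192) (nat_lit 294) (.e (nat_lit 57448) (nat_lit 19) (.e (nat_lit 393234) (nat_lit 17) (.e (nat_lit 2528) (nat_lit 157) .nil)))))))) (.g (nat_lit 4) .nil .nil))) 
(.lf (nat_lit 107092) (.g (nat_lit 1631) (.e (nat_lit 5193) (nat_lit 294) (.e (nat_lit 57437) (nat_lit 17) (.e (nat_lit 376860) (nat_lit 21) (.e (nat_lit 57832) (nat_lit 250) (.e (nat_lit 92) (nat_lit 1) .nil))))) .nil))) (.nd (nat_lit 6) 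
(.lf (nat_lit 107060) (.g (nat_lit 1596) (.e (nat_lit 5193) (nat_lit 294) (.e (nat_lit 57390) (nat_lit 5) (.e (nat_lit 114723) (nat_lit 24) (.e (nat_lit 106536) (nat_lit 11) (.e (nat_lit 16479) (nat_lit 15) .nil))))) .nil)) 
(.lf (nat_lit 107124) (.g (nat_lit 1642) (.e (nat_lit 5193) (nat_lit 294) (.e (nat_lit 57448) (nat_lit 19) (.e (nat_lit 393234) (nat_lit 17) (.e (nat_lit 2528) (nat_lit 157) .nil)))) .nil))))) (.nd (nat_lit 4) (.nd (nat_lit 5) (.nd (nat_lit 6) 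
(.lf (nat_lit 107020) (.g (nat_lit 3878) (.e (nat_lit 5192) (nat_lit 294) (.e (nat_lit 57445) (nat_lit 19) (.e (nat_lit 393229) (nat_lit 9) (.e (nat_lit 336088) (nat_lit 9) .nil)))) .nil)) 
(.lf (nat_lit 107084) (.g (nat_lit 1994) (.e (nat_lit 5193) (nat_lit 294) (.e (nat_lit 57432) (nat_lit 16) (.e (nat_lit 368676) (nat_lit 21) (.e (nat_lit 516146) (nat_lit 9) (.e (nat_lit 426294) (nat_lit 11) .nil))))) .nil))) (.nd (nat_lit 6) 
(.lf (nat_lit 107052) (.g (nat_lit 812) (.e (nat_lit 5193) (nat_lit 294) (.e (nat_lit 57379) (nat_lit 3) (.e (nat_lit 98313) (nat_lit 9) .nil))) .nil)) 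
(.lf (nat_lit 107116) (.g (nat_lit 1650) (.e (nat_lit 5193) (nat_lit 294) (.e (nat_lit 57448) (nat_lit 19) (.e (nat_lit 393234) (nat_lit 17) (.e (nat_lit 2414) (nat_lit 157) .nil)))) .nil)))) (.nd (nat_lit 5) (.nd (nat_lit 6) 
(.lf (nat_lit 107036) (.g (nat_lit 2580) (.e (nat_lit 5193) (nat_lit 294) (.e (nat_lit 57373) (nat_lit 2) (.e (nat_lit 98048) (nat_lit 8) (.e (nat_lit 131116) (nat_lit 9) (.e (nat_lit 336004) (nat_lit 2) (.e (nat_lit 90172) (nat_lit 14) (.e (nat_lit 188160) (nat_lit 0) .nil))))))) (.g (nat_lit 6) .nil .nil))) 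
(.lf (nat_lit 107100) (.g (nat_lit 1277) (.e (nat_lit 5193) (nat_lit 294) (.e (nat_lit 57445) (nat_lit 19) (.e (nat_lit 401152) (nat_lit 12) (.e (nat_lit 360473) (nat_lit 8) (.e (nat_lit 557093) (nat_lit 12) (.e (nat_lit 171776) (nat_lit 0) .nil)))))) (.g (nat_lit 4) .nil .nil)))) (.nd (nat_lit 6) 
(.lf (nat_lit 107068) (.g (nat_lit 2377) (.e (nat_lit 5193) (nat_lit 294) (.e (nat_lit 57410) (nat_lit 12) (.e (nat_lit 336019) (nat_lit 3) (.e (nat_lit 98358) (nat_lit 26) (.e (nat_lit 426294) (nat_lit 11) (.e (nat_lit 466688) (nat_lit 21) (.e (nat_lit 516106) (nat_lit 0) (.e (nat_lit 7936) (nat_lit 157) .nil)))))))) (.g (nat_lit 5) .nil .nil))) 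
(.lf (nat_lit 107132) (.g (nat_lit 3462) (.e (nat_lit 5194) (nat_lit 294) (.e (nat_lit 57365) (nat_lit 1) (.e (nat_lit 57851) (nat_lit 252) (.e (nat_lit 57412) (nat_lit 12) (.e (nat_lit 336060) (nat_lit 7) (.e (nat_lit 319533) (nat_lit 16) (.e (nat_lit 286753) (nat_lit 10) (.e (nat_lit 344097) (nat_lit 18) .nil)))))))) (.g (nat_lit 0) .nil .nil)))))))) 
(.nd (nat_lit 2) (.nd (nat_lit 3) (.nd (nat_lit 4) (.nd (nat_lit 5) (.nd (nat_lit 6) 
(.lf (nat_lit 107010) (.g (nat_lit 496) (.e (nat_lit 5192) (nat_lit 294) (.e (nat_lit 57377) (nat_lit 3) (.e (nat_lit 98317) (nat_lit 9) .nil))) .nil)) 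
(.lf (nat_lit 107074) (.g (nat_lit 725) (.e (nat_lit 5193) (nat_lit 294) (.e (nat_lit 57411) (nat_lit 12) (.e (nat_lit 336115) (nat_lit 9) .nil))) .nil))) (.nd (nat_lit 6) 
(.lf (nat_lit 107042) (.g (nat_lit 4093) (.e (nat_lit 5193) (nat_lit 294) (.e (nat_lit 57377) (nat_lit 3) (.e (nat_lit 98317) (nat_lit 9) (.e (nat_lit 336086) (nat_lit 9) .nil)))) .nil)) 
(.lf (nat_lit 107106) (.g (nat_lit 1069) (.e (nat_lit 5193) (nat_lit 294) (.e (nat_lit 57446) (nat_lit 19) (.e (nat_lit 401152) (nat_lit 12) (.e (nat_lit 360473) (nat_lit 8) (.e (nat_lit 557094) (nat_lit 12) (.e (nat_lit 171776) (nat_lit 0) .nil)))))) (.g (nat_lit 5) .nil .nil))))) (.nd (nat_lit 5) (.nd (nat_lit 6) 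
(.lf (nat_lit 107026) (.g (nat_lit 1706) (.e (nat_lit 5192) (nat_lit 294) (.e (nat_lit 57448) (nat_lit 19) (.e (nat_lit 393234) (nat_lit 17) (.e (nat_lit 2522) (nat_lit 157) (.e (nat_lit 5192) (nat_lit 294) (.e (nat_lit 57448) (nat_lit 19) (.e (nat_lit 393234) (nat_lit 17) (.e (nat_lit 2522) (nat_lit 157) .nil)))))))) (.g (nat_lit 4) .nil .nil))) 
(.lf (nat_lit 107090) (.g (nat_lit 1675) (.e (nat_lit 5193) (nat_lit 294) (.e (nat_lit 57437) (nat_lit 17) (.e (nat_lit 376859) (nat_lit 21) (.e (nat_lit 57857) (nat_lit 254) (.e (nat_lit 163923) (nat_lit 15) .nil))))) .nil))) (.nd (nat_lit 6) 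
(.lf (nat_lit 107058) (.g (nat_lit 1215) (.e (nat_lit 5193) (nat_lit 294) (.e (nat_lit 57390) (nat_lit 5) (.e (nat_lit 114723) (nat_lit 24) (.e (nat_lit 106534) (nat_lit 11) (.e (nat_lit 16479) (nat_lit 15) .nil))))) .nil)) 
(.lf (nat_lit 107122) (.g (nat_lit 2678) (.e (nat_lit 5193) (nat_lit 294) (.e (nat_lit 57448) (nat_lit 19) (.e (nat_lit 393234) (nat_lit 17) (.e (nat_lit 2522) (nat_lit 157) (.e (nat_lit 5195) (nat_lit 294) (.e (nat_lit 57448) (nat_lit 19) (.e (nat_lit 393234) (nat_lit 17) (.e (nat_lit 2411) (nat_lit 157) .nil)))))))) (.g (nat_lit 6) .nil .nil)))))) 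
(.nd (nat_lit 4) (.nd (nat_lit 5) (.nd (nat_lit 6) 
(.lf (nat_lit 107018) (.g (nat_lit 612) (.e (nat_lit 5192) (nat_lit 294) (.e (nat_lit 57445) (nat_lit 19) (.e (nat_lit 393229) (nat_lit 9) .nil))) .nil)) 
(.lf (nat_lit 107082) (.g (nat_lit 4568) (.e (nat_lit 5193) (nat_lit 294) (.e (nat_lit 57430) (nat_lit 16) (.e (nat_lit 368676) (nat_lit 21) (.e (nat_lit 516151) (nat_lit 9) (.e (nat_lit 426211) (nat_lit 9) (.e (nat_lit 426125) (nat_lit 2) (.e (nat_lit 204544) (nat_lit 19) (.e (nat_lit 57584) (nat_lit 61) .nil)))))))) (.g (nat_lit 5) .nil .nil)))) (.nd (nat_lit 6) 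
(.lf (nat_lit 107050) (.g (nat_lit 3482) (.e (nat_lit 5193) (nat_lit 294) (.e (nat_lit 57377) (nat_lit 3) (.e (nat_lit 98317) (nat_lit 9) (.e (nat_lit 336222) (nat_lit 13) .nil)))) .nil)) 
(.lf (nat_lit 107114) (.g (nat_lit 1704) (.e (nat_lit 5193) (nat_lit 294) (.e (nat_lit 57448) (nat_lit 19) (.e (nat_lit 393234) (nat_lit 17) (.e (nat_lit 2411) (nat_lit 157) (.e (nat_lit 5205) (nat_lit 294) .nil))))) .nil)))) (.nd (nat_lit 5) (.nd (nat_lit 6) 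
(.lf (nat_lit 107034) (.g (nat_lit 2313) (.e (nat_lit 5193) (nat_lit 294) (.e (nat_lit 57372) (nat_lit 2) (.e (nat_lit 90160) (nat_lit 11) (.e (nat_lit 24657) (nat_lit 13) .nil)))) .nil)) 
(.lf (nat_lit 107098) (.g (nat_lit 3713) (.e (nat_lit 5193) (nat_lit 294) (.e (nat_lit 57445) (nat_lit 19) (.e (nat_lit 393229) (nat_lit 9) (.e (nat_lit 336088) (nat_lit 9) .nil)))) .nil))) (.nd (nat_lit 6) 
(.lf (nat_lit 107066) (.g (nat_lit 1884) (.e (nat_lit 5193) (nat_lit 294) (.e (nat_lit 57407) (nat_lit 12) (.e (nat_lit 336456) (nat_lit 34) (.e (nat_lit 483395) (nat_lit 24) (.e (nat_lit 344132) (nat_lit 26) (.e (nat_lit 557093) (nat_lit 12) (.e (nat_lit 171776) (nat_lit 0) .nil))))))) (.g (nat_lit 4) .nil .nil))) 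
(.lf (nat_lit 107130) (.g (nat_lit 3833) (.e (nat_lit 5194) (nat_lit 294) (.e (nat_lit 57365) (nat_lit 1) (.e (nat_lit 57851) (nat_lit 252) (.e (nat_lit 57412) (nat_lit 12) (.e (nat_lit 336054) (nat_lit 7) (.e (nat_lit 319534) (nat_lit 16) (.e (nat_lit 286756) (nat_lit 10) (.e (nat_lit 344097) (nat_lit 18) .nil)))))))) (.g (nat_lit 8) .nil .nil))))))) 
(.nd (nat_lit 3) (.nd (nat_lit 4) (.nd (nat_lit 5) (.nd (nat_lit 6) 
(.lf (nat_lit 107014) (.g (nat_lit 4014) (.e (nat_lit 5192) (nat_lit 294) (.e (nat_lit 57377) (nat_lit 3) (.e (nat_lit 98317) (nat_lit 9) (.e (nat_lit 336215) (nat_lit 13) .nil)))) .nil)) 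
(.lf (nat_lit 107078) (.g (nat_lit 516) (.e (nat_lit 5193) (nat_lit 294) (.e (nat_lit 57412) (nat_lit 12) (.e (nat_lit 336061) (nat_lit 7) .nil))) .nil))) (.nd (nat_lit 6) 
(.lf (nat_lit 107046) (.g (nat_lit 3073) (.e (nat_lit 5193) (nat_lit 294) (.e (nat_lit 57377) (nat_lit 3) (.e (nat_lit 98317) (nat_lit 9) (.e (nat_lit 336213) (nat_lit 13) .nil)))) .nil)) 
(.lf (nat_lit 107110) (.g (nat_lit 564) (.e (nat_lit 5193) (nat_lit 294) (.e (nat_lit 57448) (nat_lit 19) (.e (nat_lit 401152) (nat_lit 12) .nil))) .nil)))) (.nd (nat_lit 5) (.nd (nat_lit 6) 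
(.lf (nat_lit 107030) (.g (nat_lit 2114) (.e (nat_lit 5193) (nat_lit 294) (.e (nat_lit 57370) (nat_lit 2) (.e (nat_lit 98048) (nat_lit 8) (.e (nat_lit 131116) (nat_lit 9) (.e (nat_lit 336004) (nat_lit 2) (.e (nat_lit 90172) (nat_lit 14) (.e (nat_lit 188160) (nat_lit 0) .nil))))))) (.g (nat_lit 6) .nil .nil))) 
(.lf (nat_lit 107094) (.g (nat_lit 1943) (.e (nat_lit 5193) (nat_lit 294) (.e (nat_lit 57437) (nat_lit 17) (.e (nat_lit 376860) (nat_lit 21) (.e (nat_lit 57832) (nat_lit 250) (.e (nat_lit 92) (nat_lit 1) (.e (nat_lit 57816) (nat_lit 246) (.e (nat_lit 57814) (nat_lit 246) (.e (nat_lit 57584) (nat_lit 61) .nil)))))))) (.g (nat_lit 4) .nil .nil)))) (.nd (nat_lit 6) 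
(.lf (nat_lit 107062) (.g (nat_lit 430) (.e (nat_lit 5193) (nat_lit 294) (.e (nat_lit 57407) (nat_lit 12) (.e (nat_lit 336367) (nat_lit 27) .nil))) .nil)) 
(.lf (nat_lit 107126) (.g (nat_lit 2632) (.e (nat_lit 5193) (nat_lit 294) (.e (nat_lit 57448) (nat_lit 19) (.e (nat_lit 393234) (nat_lit 17) (.e (nat_lit 2528) (nat_lit 157) (.e (nat_lit 5195) (nat_lit 294) (.e (nat_lit 57448) (nat_lit 19) (.e (nat_lit 393234) (nat_lit 17) (.e (nat_lit 2522) (nat_lit 157) .nil)))))))) (.g (nat_lit 6) .nil .nil)))))) 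
(.nd (nat_lit 4) (.nd (nat_lit 5) (.nd (nat_lit 6) 
(.lf (nat_lit 107022) (.g (nat_lit 589) (.e (nat_lit 5192) (nat_lit 294) (.e (nat_lit 57448) (nat_lit 19) (.e (nat_lit 393234) (nat_lit 17) .nil))) .nil)) 
(.lf (nat_lit 107086) (.g (nat_lit 7231) (.e (nat_lit 5193) (nat_lit 294) (.e (nat_lit 57432) (nat_lit 16) (.e (nat_lit 368676) (nat_lit 21) (.e (nat_lit 516151) (nat_lit 9) (.e (nat_lit 426211) (nat_lit 9) (.e (nat_lit 426125) (nat_lit 2) (.e (nat_lit 196697) (nat_lit 19) (.e (nat_lit 57584) (nat_lit 61) .nil)))))))) (.g (nat_lit 8) .nil .nil)))) (.nd (nat_lit 6) 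
(.lf (nat_lit 107054) (.g (nat_lit 1864) (.e (nat_lit 5193) (nat_lit 294) (.e (nat_lit 57379) (nat_lit 3) (.e (nat_lit 98317) (nat_lit 9) (.e (nat_lit 336215) (nat_lit 13) .nil)))) .nil)) 
(.lf (nat_lit 107118) (.g (nat_lit 1685) (.e (nat_lit 5193) (nat_lit 294) (.e (nat_lit 57448) (nat_lit 19) (.e (nat_lit 393234) (nat_lit 17) (.e (nat_lit 2415) (nat_lit 157) .nil)))) .nil)))) (.nd (nat_lit 5) (.nd (nat_lit 6) 
(.lf (nat_lit 107038) (.g (nat_lit 1571) (.e (nat_lit 5193) (nat_lit 294) (.e (nat_lit 57375) (nat_lit 2) (.e (nat_lit 90160) (nat_lit 11) (.e (nat_lit 24657) (nat_lit 13) .nil)))) .nil)) 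
(.lf (nat_lit 107102) (.g (nat_lit 202) (.e (nat_lit 5193) (nat_lit 294) (.e (nat_lit 57446) (nat_lit 19) (.e (nat_lit 401152) (nat_lit 12) .nil))) .nil))) (.nd (nat_lit 6) 
(.lf (nat_lit 107070) (.g (nat_lit 3405) (.e (nat_lit 5193) (nat_lit 294) (.e (nat_lit 57411) (nat_lit 12) (.e (nat_lit 336019) (nat_lit 3) (.e (nat_lit 98358) (nat_lit 26) (.e (nat_lit 426294) (nat_lit 11) (.e (nat_lit 466688) (nat_lit 21) (.e (nat_lit 516106) (nat_lit 0) (.e (nat_lit 7936) (nat_lit 157) .nil)))))))) (.g (nat_lit 5) .nil .nil))) 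
(.lf (nat_lit 107134) (.g (nat_lit 4470) (.e (nat_lit 5194) (nat_lit 294) (.e (nat_lit 57365) (nat_lit 1) (.e (nat_lit 57851) (nat_lit 252) (.e (nat_lit 57412) (nat_lit 12) (.e (nat_lit 336061) (nat_lit 7) (.e (nat_lit 319533) (nat_lit 16) (.e (nat_lit 286753) (nat_lit 10) (.e (nat_lit 344097) (nat_lit 18) .nil)))))))) (.g (nat_lit 0) .nil .nil))))))))) 
(.nd (nat_lit 1) (.nd (nat_lit 2) (.nd (nat_lit 3) (.nd (nat_lit 4) (.nd (nat_lit 5) 
(.nd (nat_lit 6) 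
(.lf (nat_lit 107009) (.g (nat_lit 5265) (.e (nat_lit 5191) (nat_lit 294) (.e (nat_lit 57377) (nat_lit 3) (.e (nat_lit 98317) (nat_lit 9) (.e (nat_lit 336215) (nat_lit 13) .nil)))) .nil)) 
(.lf (nat_lit 107073) (.g (nat_lit 2003) (.e (nat_lit 5193) (nat_lit 294) (.e (nat_lit 57411) (nat_lit 12) (.e (nat_lit 336019) (nat_lit 3) (.e (nat_lit 98381) (nat_lit 31) (.e (nat_lit 466967) (nat_lit 20) .nil))))) .nil))) (.nd (nat_lit 6) 
(.lf (nat_lit 107041) (.g (nat_lit 4076) (.e (nat_lit 5193) (nat_lit 294) (.e (nat_lit 57377) (nat_lit 3) (.e (nat_lit 98317) (nat_lit 9) (.e (nat_lit 336085) (nat_lit 9) .nil)))) .nil)) 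
(.lf (nat_lit 107105) (.g (nat_lit 1331) (.e (nat_lit 5193) (nat_lit 294) (.e (nat_lit 57446) (nat_lit 19) (.e (nat_lit 401152) (nat_lit 12) (.e (nat_lit 360473) (nat_lit 8) (.e (nat_lit 557093) (nat_lit 12) (.e (nat_lit 171776) (nat_lit 0) .nil)))))) (.g (nat_lit 5) .nil .nil))))) (.nd (nat_lit 5) (.nd (nat_lit 6) 
(.lf (nat_lit 107025) (.g (nat_lit 1661) (.e (nat_lit 5192) (nat_lit 294) (.e (nat_lit 57448) (nat_lit 19) (.e (nat_lit 393234) (nat_lit 17) (.e (nat_lit 2415) (nat_lit 157) .nil)))) .nil)) 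
(.lf (nat_lit 107089) (.g (nat_lit 1510) (.e (nat_lit 5193) (nat_lit 294) (.e (nat_lit 57437) (nat_lit 17) (.e (nat_lit 376859) (nat_lit 21) (.e (nat_lit 57825) (nat_lit 250) .nil)))) .nil))) (.nd (nat_lit 6) 
(.lf (nat_lit 107057) (.g (nat_lit 1814) (.e (nat_lit 5193) (nat_lit 294) (.e (nat_lit 57390) (nat_lit 5) (.e (nat_lit 114722) (nat_lit 24) (.e (nat_lit 106536) (nat_lit 11) (.e (nat_lit 16479) (nat_lit 15) .nil))))) .nil)) 
(.lf (nat_lit 107121) (.g (nat_lit 1796) (.e (nat_lit 5193) (nat_lit 294) (.e (nat_lit 57448) (nat_lit 19) (.e (nat_lit 393234) (nat_lit 17) (.e (nat_lit 2415) (nat_lit 157) (.e (nat_lit 5201) (nat_lit 294) .nil))))) .nil))))) (.nd (nat_lit 4) (.nd (nat_lit 5) (.nd (nat_lit 6) 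
(.lf (nat_lit 107017) (.g (nat_lit 2017) (.e (nat_lit 5192) (nat_lit 294) (.e (nat_lit 57437) (nat_lit 17) (.e (nat_lit 376860) (nat_lit 21) (.e (nat_lit 57830) (nat_lit 250) (.e (nat_lit 7936) (nat_lit 166) .nil))))) .nil)) 
(.lf (nat_lit 107081) (.g (nat_lit 6845) (.e (nat_lit 5193) (nat_lit 294) (.e (nat_lit 57430) (nat_lit 16) (.e (nat_lit 368676) (nat_lit 21) (.e (nat_lit 516151) (nat_lit 9) (.e (nat_lit 426211) (nat_lit 9) (.e (nat_lit 426125) (nat_lit 2) (.e (nat_lit 196697) (nat_lit 19) (.e (nat_lit 57584) (nat_lit 61) .nil)))))))) (.g (nat_lit 7) .nil .nil)))) (.nd (nat_lit 6) 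
(.lf (nat_lit 107049) (.g (nat_lit 4047) (.e (nat_lit 5193) (nat_lit 294) (.e (nat_lit 57377) (nat_lit 3) (.e (nat_lit 98317) (nat_lit 9) (.e (nat_lit 336221) (nat_lit 13) .nil)))) .nil)) 
(.lf (nat_lit 107113) (.g (nat_lit 1748) (.e (nat_lit 5193) (nat_lit 294) (.e (nat_lit 57448) (nat_lit 19) (.e (nat_lit 393234) (nat_lit 17) (.e (nat_lit 2411) (nat_lit 157) (.e (nat_lit 5190) (nat_lit 294) (.e (nat_lit 57448) (nat_lit 19) (.e (nat_lit 393234) (nat_lit 17) (.e (nat_lit 2411) (nat_lit 157) .nil)))))))) (.g (nat_lit 4) .nil .nil))))) (.nd (nat_lit 5) (.nd (nat_lit 6) 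
(.lf (nat_lit 107033) (.g (nat_lit 609) (.e (nat_lit 5193) (nat_lit 294) (.e (nat_lit 57372) (nat_lit 2) (.e (nat_lit 90160) (nat_lit 11) .nil))) .nil)) 
(.lf (nat_lit 107097) (.g (nat_lit 3926) (.e (nat_lit 5193) (nat_lit 294) (.e (nat_lit 57445) (nat_lit 19) (.e (nat_lit 393229) (nat_lit 9) (.e (nat_lit 336076) (nat_lit 9) .nil)))) .nil))) (.nd (nat_lit 6) 
(.lf (nat_lit 107065) (.g (nat_lit 1751) (.e (nat_lit 5193) (nat_lit 294) (.e (nat_lit 57407) (nat_lit 12) (.e (nat_lit 336456) (nat_lit 34) (.e (nat_lit 483395) (nat_lit 24) (.e (nat_lit 344132) (nat_lit 26) .nil))))) .nil)) 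
(.lf (nat_lit 107129) (.g (nat_lit 3177) (.e (nat_lit 5194) (nat_lit 294) (.e (nat_lit 57365) (nat_lit 1) (.e (nat_lit 57851) (nat_lit 252) (.e (nat_lit 57412) (nat_lit 12) (.e (nat_lit 336054) (nat_lit 7) (.e (nat_lit 319533) (nat_lit 16) (.e (nat_lit 286753) (nat_lit 10) (.e (nat_lit 344097) (nat_lit 18) .nil)))))))) (.g (nat_lit 0) .nil .nil))))))) 
(.nd (nat_lit 3) (.nd (nat_lit 4) (.nd (nat_lit 5) (.nd (nat_lit 6) 
(.lf (nat_lit 107013) (.g (nat_lit 4428) (.e (nat_lit 5192) (nat_lit 294) (.e (nat_lit 57377) (nat_lit 3) (.e (nat_lit 98317) (nat_lit 9) (.e (nat_lit 336214) (nat_lit 13) .nil)))) .nil)) 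
(.lf (nat_lit 107077) (.g (nat_lit 1621) (.e (nat_lit 5193) (nat_lit 294) (.e (nat_lit 57411) (nat_lit 12) (.e (nat_lit 336211) (nat_lit 13) (.e (nat_lit 393291) (nat_lit 26) (.e (nat_lit 475214) (nat_lit 42) .nil))))) .nil))) (.nd (nat_lit 6) 
(.lf (nat_lit 107045) (.g (nat_lit 4102) (.e (nat_lit 5193) (nat_lit 294) (.e (nat_lit 57377) (nat_lit 3) (.e (nat_lit 98317) (nat_lit 9) (.e (nat_lit 336088) (nat_lit 9) (.e (nat_lit 336367) (nat_lit 27) (.e (nat_lit 426533) (nat_lit 28) (.e (nat_lit 344100) (nat_lit 18) .nil))))))) (.g (nat_lit 4) .nil .nil))) 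
(.lf (nat_lit 107109) (.g (nat_lit 2725) (.e (nat_lit 5193) (nat_lit 294) (.e (nat_lit 57447) (nat_lit 19) (.e (nat_lit 401152) (nat_lit 12) (.e (nat_lit 360475) (nat_lit 8) (.e (nat_lit 557090) (nat_lit 12) (.e (nat_lit 171776) (nat_lit 0) .nil)))))) (.g (nat_lit 5) .nil .nil))))) (.nd (nat_lit 5) (.nd (nat_lit 6) 
(.lf (nat_lit 107029) (.g (nat_lit 2073) (.e (nat_lit 5192) (nat_lit 294) (.e (nat_lit 57448) (nat_lit 19) (.e (nat_lit 393234) (nat_lit 17) (.e (nat_lit 2528) (nat_lit 157) (.e (nat_lit 5195) (nat_lit 294) (.e (nat_lit 57448) (nat_lit 19) (.e (nat_lit 393234) (nat_lit 17) (.e (nat_lit 2415) (nat_lit 157) .nil)))))))) (.g (nat_lit 5) .nil .nil))) 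
(.lf (nat_lit 107093) (.g (nat_lit 1943) (.e (nat_lit 5193) (nat_lit 294) (.e (nat_lit 57437) (nat_lit 17) (.e (nat_lit 376860) (nat_lit 21) (.e (nat_lit 57832) (nat_lit 250) (.e (nat_lit 92) (nat_lit 1) (.e (nat_lit 57811) (nat_lit 246) (.e (nat_lit 57809) (nat_lit 246) (.e (nat_lit 57584) (nat_lit 61) .nil)))))))) (.g (nat_lit 4) .nil .nil)))) (.nd (nat_lit 6) 
(.lf (nat_lit 107061) (.g (nat_lit 2054) (.e (nat_lit 5193) (nat_lit 294) (.e (nat_lit 57390) (nat_lit 5) (.e (nat_lit 114723) (nat_lit 24) (.e (nat_lit 106536) (nat_lit 11) (.e (nat_lit 16479) (nat_lit 15) (.e (nat_lit 6217) (nat_lit 333) (.e (nat_lit 57816) (nat_lit 246) (.e (nat_lit 57584) (nat_lit 61) .nil)))))))) (.g (nat_lit 6) .nil .nil))) 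
(.lf (nat_lit 107125) (.g (nat_lit 1863) (.e (nat_lit 5193) (nat_lit 294) (.e (nat_lit 57448) (nat_lit 19) (.e (nat_lit 393234) (nat_lit 17) (.e (nat_lit 2528) (nat_lit 157) (.e (nat_lit 5192) (nat_lit 294) (.e (nat_lit 57448) (nat_lit 19) (.e (nat_lit 393234) (nat_lit 17) (.e (nat_lit 2522) (nat_lit 157) .nil)))))))) (.g (nat_lit 4) .nil .nil)))))) 
(.nd (nat_lit 4) (.nd (nat_lit 5) (.nd (nat_lit 6) 
(.lf (nat_lit 107021) (.g (nat_lit 4235) (.e (nat_lit 5192) (nat_lit 294) (.e (nat_lit 57445) (nat_lit 19) (.e (nat_lit 393229) (nat_lit 9) (.e (nat_lit 336194) (nat_lit 12) .nil)))) .nil)) 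
(.lf (nat_lit 107085) (.g (nat_lit 2226) (.e (nat_lit 5193) (nat_lit 294) (.e (nat_lit 57432) (nat_lit 16) (.e (nat_lit 368676) (nat_lit 21) (.e (nat_lit 516150) (nat_lit 9) (.e (nat_lit 426294) (nat_lit 11) (.e (nat_lit 466688) (nat_lit 21) (.e (nat_lit 516106) (nat_lit 0) (.e (nat_lit 7936) (nat_lit 157) .nil)))))))) (.g (nat_lit 5) .nil .nil)))) (.nd (nat_lit 6) 
(.lf (nat_lit 107053) (.g (nat_lit 570) (.e (nat_lit 5193) (nat_lit 294) (.e (nat_lit 57379) (nat_lit 3) (.e (nat_lit 98317) (nat_lit 9) .nil))) .nil)) 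
(.lf (nat_lit 107117) (.g (nat_lit 1807) (.e (nat_lit 5193) (nat_lit 294) (.e (nat_lit 57448) (nat_lit 19) (.e (nat_lit 393234) (nat_lit 17) (.e (nat_lit 2414) (nat_lit 157) (.e (nat_lit 5195) (nat_lit 294) .nil))))) .nil)))) (.nd (nat_lit 5) (.nd (nat_lit 6) 
(.lf (nat_lit 107037) (.g (nat_lit 2840) (.e (nat_lit 5193) (nat_lit 294) (.e (nat_lit 57373) (nat_lit 2) (.e (nat_lit 98048) (nat_lit 8) (.e (nat_lit 131116) (nat_lit 9) (.e (nat_lit 336012) (nat_lit 2) (.e (nat_lit 90172) (nat_lit 14) (.e (nat_lit 188160) (nat_lit 0) .nil))))))) (.g (nat_lit 6) .nil .nil))) 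
(.lf (nat_lit 107101) (.g (nat_lit 1015) (.e (nat_lit 5193) (nat_lit 294) (.e (nat_lit 57445) (nat_lit 19) (.e (nat_lit 401152) (nat_lit 12) (.e (nat_lit 360473) (nat_lit 8) (.e (nat_lit 557094) (nat_lit 12) (.e (nat_lit 171776) (nat_lit 0) .nil)))))) (.g (nat_lit 4) .nil .nil)))) (.nd (nat_lit 6) 
(.lf (nat_lit 107069) (.g (nat_lit 1588) (.e (nat_lit 5193) (nat_lit 294) (.e (nat_lit 57410) (nat_lit 12) (.e (nat_lit 336019) (nat_lit 3) (.e (nat_lit 98374) (nat_lit 29) (.e (nat_lit 458496) (nat_lit 3) .nil))))) .nil)) 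
(.lf (nat_lit 107133) (.g (nat_lit 4410) (.e (nat_lit 5194) (nat_lit 294) (.e (nat_lit 57365) (nat_lit 1) (.e (nat_lit 57851) (nat_lit 252) (.e (nat_lit 57412) (nat_lit 12) (.e (nat_lit 336061) (nat_lit 7) (.e (nat_lit 319531) (nat_lit 16) (.e (nat_lit 286756) (nat_lit 10) (.e (nat_lit 344097) (nat_lit 18) .nil)))))))) (.g (nat_lit 0) .nil .nil)))))))) 
(.nd (nat_lit 2) (.nd (nat_lit 3) (.nd (nat_lit 4) (.nd (nat_lit 5) (.nd (nat_lit 6) 
(.lf (nat_lit 107011) (.g (nat_lit 4122) (.e (nat_lit 5192) (nat_lit 294) (.e (nat_lit 57377) (nat_lit 3) (.e (nat_lit 98317) (nat_lit 9) (.e (nat_lit 336076) (nat_lit 9) .nil)))) .nil)) 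
(.lf (nat_lit 107075) (.g (nat_lit 2622) (.e (nat_lit 5193) (nat_lit 294) (.e (nat_lit 57411) (nat_lit 12) (.e (nat_lit 336182) (nat_lit 11) (.e (nat_lit 376576) (nat_lit 18) (.e (nat_lit 5222) (nat_lit 296) (.e (nat_lit 163907) (nat_lit 12) (.e (nat_lit 426294) (nat_lit 11) (.e (nat_lit 466688) (nat_lit 18) .nil)))))))) (.g (nat_lit 7) .nil .nil)))) (.nd (nat_lit 6) 
(.lf (nat_lit 107043) (.g (nat_lit 3579) (.e (nat_lit 5193) (nat_lit 294) (.e (nat_lit 57377) (nat_lit 3) (.e (nat_lit 98317) (nat_lit 9) (.e (nat_lit 336087) (nat_lit 9) .nil)))) .nil)) 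
(.lf (nat_lit 107107) (.g (nat_lit 2244) (.e (nat_lit 5193) (nat_lit 294) (.e (nat_lit 57446) (nat_lit 19) (.e (nat_lit 401152) (nat_lit 12) (.e (nat_lit 360475) (nat_lit 8) (.e (nat_lit 557090) (nat_lit 12) (.e (nat_lit 171776) (nat_lit 0) .nil)))))) (.g (nat_lit 5) .nil .nil))))) (.nd (nat_lit 5) (.nd (nat_lit 6) 
(.lf (nat_lit 107027) (.g (nat_lit 1732) (.e (nat_lit 5192) (nat_lit 294) (.e (nat_lit 57448) (nat_lit 19) (.e (nat_lit 393234) (nat_lit 17) (.e (nat_lit 2528) (nat_lit 157) (.e (nat_lit 5192) (nat_lit 294) .nil))))) .nil)) 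
(.lf (nat_lit 107091) (.g (nat_lit 1879) (.e (nat_lit 5193) (nat_lit 294) (.e (nat_lit 57437) (nat_lit 17) (.e (nat_lit 376860) (nat_lit 21) (.e (nat_lit 57830) (nat_lit 250) (.e (nat_lit 7936) (nat_lit 166) .nil))))) .nil))) (.nd (nat_lit 6) 
(.lf (nat_lit 107059) (.g (nat_lit 1623) (.e (nat_lit 5193) (nat_lit 294) (.e (nat_lit 57390) (nat_lit 5) (.e (nat_lit 114723) (nat_lit 24) (.e (nat_lit 106534) (nat_lit 11) (.e (nat_lit 16479) (nat_lit 15) (.e (nat_lit 6217) (nat_lit 333) (.e (nat_lit 57816) (nat_lit 246) (.e (nat_lit 57584) (nat_lit 61) .nil)))))))) (.g (nat_lit 5) .nil .nil))) 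
(.lf (nat_lit 107123) (.g (nat_lit 2651) (.e (nat_lit 5193) (nat_lit 294) (.e (nat_lit 57448) (nat_lit 19) (.e (nat_lit 393234) (nat_lit 17) (.e (nat_lit 2522) (nat_lit 157) (.e (nat_lit 5195) (nat_lit 294) (.e (nat_lit 57448) (nat_lit 19) (.e (nat_lit 393234) (nat_lit 17) (.e (nat_lit 2415) (nat_lit 157) .nil)))))))) (.g (nat_lit 6) .nil .nil)))))) 
(.nd (nat_lit 4) (.nd (nat_lit 5) (.nd (nat_lit 6) 
(.lf (nat_lit 107019) (.g (nat_lit 4066) (.e (nat_lit 5192) (nat_lit 294) (.e (nat_lit 57445) (nat_lit 19) (.e (nat_lit 393229) (nat_lit 9) (.e (nat_lit 336076) (nat_lit 9) .nil)))) .nil)) 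
(.lf (nat_lit 107083) (.g (nat_lit 2610) (.e (nat_lit 5193) (nat_lit 294) (.e (nat_lit 57430) (nat_lit 16) (.e (nat_lit 368676) (nat_lit 21) (.e (nat_lit 516176) (nat_lit 14) (.e (nat_lit 466967) (nat_lit 20) (.e (nat_lit 7936) (nat_lit 195) (.e (nat_lit 516106) (nat_lit 0) (.e (nat_lit 7936) (nat_lit 157) .nil)))))))) (.g (nat_lit 5) .nil .nil)))) (.nd (nat_lit 6) 
(.lf (nat_lit 107051) (.g (nat_lit 3113) (.e (nat_lit 5193) (nat_lit 294) (.e (nat_lit 57377) (nat_lit 3) (.e (nat_lit 98317) (nat_lit 9) (.e (nat_lit 336223) (nat_lit 13) .nil)))) .nil)) 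
(.lf (nat_lit 107115) (.g (nat_lit 1679) (.e (nat_lit 5193) (nat_lit 294) (.e (nat_lit 57448) (nat_lit 19) (.e (nat_lit 393234) (nat_lit 17) (.e (nat_lit 2413) (nat_lit 157) .nil)))) .nil)))) (.nd (nat_lit 5) (.nd (nat_lit 6) 
(.lf (nat_lit 107035) (.g (nat_lit 1246) (.e (nat_lit 5193) (nat_lit 294) (.e (nat_lit 57373) (nat_lit 2) (.e (nat_lit 98048) (nat_lit 6) (.e (nat_lit 81951) (nat_lit 22) (.e (nat_lit 90172) (nat_lit 14) (.e (nat_lit 188160) (nat_lit 0) .nil)))))) (.g (nat_lit 4) .nil .nil))) 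
(.lf (nat_lit 107099) (.g (nat_lit 3640) (.e (nat_lit 5193) (nat_lit 294) (.e (nat_lit 57445) (nat_lit 19) (.e (nat_lit 393229) (nat_lit 9) (.e (nat_lit 336163) (nat_lit 10) .nil)))) .nil))) (.nd (nat_lit 6) 
(.lf (nat_lit 107067) (.g (nat_lit 1761) (.e (nat_lit 5193) (nat_lit 294) (.e (nat_lit 57407) (nat_lit 12) (.e (nat_lit 336456) (nat_lit 34) (.e (nat_lit 483396) (nat_lit 24) (.e (nat_lit 344132) (nat_lit 26) .nil))))) .nil)) 
(.lf (nat_lit 107131) (.g (nat_lit 3755) (.e (nat_lit 5194) (nat_lit 294) (.e (nat_lit 57365) (nat_lit 1) (.e (nat_lit 57851) (nat_lit 252) (.e (nat_lit 57412) (nat_lit 12) (.e (nat_lit 336058) (nat_lit 7) (.e (nat_lit 319533) (nat_lit 16) (.e (nat_lit 286753) (nat_lit 10) (.e (nat_lit 344097) (nat_lit 18) .nil)))))))) (.g (nat_lit 0) .nil .nil))))))) 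
(.nd (nat_lit 3) (.nd (nat_lit 4) (.nd (nat_lit 5) (.nd (nat_lit 6) 
(.lf (nat_lit 107015) (.g (nat_lit 4246) (.e (nat_lit 5192) (nat_lit 294) (.e (nat_lit 57377) (nat_lit 3) (.e (nat_lit 98317) (nat_lit 9) (.e (nat_lit 336222) (nat_lit 13) .nil)))) .nil)) 
(.lf (nat_lit 107079) (.g (nat_lit 531) (.e (nat_lit 5193) (nat_lit 294) (.e (nat_lit 57426) (nat_lit 15) (.e (nat_lit 360480) (nat_lit 14) .nil))) .nil))) (.nd (nat_lit 6) 
(.lf (nat_lit 107047) (.g (nat_lit 3282) (.e (nat_lit 5193) (nat_lit 294) (.e (nat_lit 57377) (nat_lit 3) (.e (nat_lit 98317) (nat_lit 9) (.e (nat_lit 336214) (nat_lit 13) .nil)))) .nil)) 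
(.lf (nat_lit 107111) (.g (nat_lit 609) (.e (nat_lit 5193) (nat_lit 294) (.e (nat_lit 57448) (nat_lit 19) (.e (nat_lit 393234) (nat_lit 17) .nil))) .nil)))) (.nd (nat_lit 5) (.nd (nat_lit 6) 
(.lf (nat_lit 107031) (.g (nat_lit 2374) (.e (nat_lit 5193) (nat_lit 294) (.e (nat_lit 57370) (nat_lit 2) (.e (nat_lit 98048) (nat_lit 8) (.e (nat_lit 131116) (nat_lit 9) (.e (nat_lit 336012) (nat_lit 2) (.e (nat_lit 90172) (nat_lit 14) (.e (nat_lit 188160) (nat_lit 0) .nil))))))) (.g (nat_lit 6) .nil .nil))) 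
(.lf (nat_lit 107095) (.g (nat_lit 1580) (.e (nat_lit 5193) (nat_lit 294) (.e (nat_lit 57437) (nat_lit 17) (.e (nat_lit 376860) (nat_lit 21) (.e (nat_lit 57832) (nat_lit 250) (.e (nat_lit 7936) (nat_lit 166) .nil))))) .nil))) (.nd (nat_lit 6) 
(.lf (nat_lit 107063) (.g (nat_lit 1336) (.e (nat_lit 5193) (nat_lit 294) (.e (nat_lit 57407) (nat_lit 12) (.e (nat_lit 336367) (nat_lit 27) (.e (nat_lit 426544) (nat_lit 30) (.e (nat_lit 360473) (nat_lit 8) (.e (nat_lit 557094) (nat_lit 12) (.e (nat_lit 171776) (nat_lit 0) .nil))))))) (.g (nat_lit 4) .nil .nil))) 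
(.lf (nat_lit 107127) (.g (nat_lit 2837) (.e (nat_lit 5194) (nat_lit 294) (.e (nat_lit 57365) (nat_lit 1) (.e (nat_lit 57830) (nat_lit 250) (.e (nat_lit 1201) (nat_lit 88) (.e (nat_lit 65585) (nat_lit 7) (.e (nat_lit 319533) (nat_lit 16) (.e (nat_lit 286753) (nat_lit 10) (.e (nat_lit 344097) (nat_lit 18) .nil)))))))) (.g (nat_lit 6) .nil .nil)))))) 
(.nd (nat_lit 4) (.nd (nat_lit 5) (.nd (nat_lit 6) 
(.lf (nat_lit 107023) (.g (nat_lit 1535) (.e (nat_lit 5192) (nat_lit 294) (.e (nat_lit 57448) (nat_lit 19) (.e (nat_lit 393234) (nat_lit 17) (.e (nat_lit 2411) (nat_lit 157) .nil)))) .nil)) 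
(.lf (nat_lit 107087) (.g (nat_lit 1964) (.e (nat_lit 5193) (nat_lit 294) (.e (nat_lit 57432) (nat_lit 16) (.e (nat_lit 368676) (nat_lit 21) (.e (nat_lit 516167) (nat_lit 12) (.e (nat_lit 458496) (nat_lit 3) .nil))))) .nil))) (.nd (nat_lit 6) 
(.lf (nat_lit 107055) (.g (nat_lit 930) (.e (nat_lit 5193) (nat_lit 294) (.e (nat_lit 57385) (nat_lit 4) (.e (nat_lit 106536) (nat_lit 11) (.e (nat_lit 16437) (nat_lit 9) (.e (nat_lit 426546) (nat_lit 30) (.e (nat_lit 360452) (nat_lit 0) .nil)))))) (.g (nat_lit 4) .nil .nil))) 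
(.lf (nat_lit 107119) (.g (nat_lit 1912) (.e (nat_lit 5193) (nat_lit 294) (.e (nat_lit 57448) (nat_lit 19) (.e (nat_lit 393234) (nat_lit 17) (.e (nat_lit 2415) (nat_lit 157) (.e (nat_lit 5190) (nat_lit 294) (.e (nat_lit 57448) (nat_lit 19) (.e (nat_lit 393234) (nat_lit 17) (.e (nat_lit 2411) (nat_lit 157) .nil)))))))) (.g (nat_lit 4) .nil .nil))))) (.nd (nat_lit 5) (.nd (nat_lit 6) 
(.lf (nat_lit 107039) (.g (nat_lit 3498) (.e (nat_lit 5193) (nat_lit 294) (.e (nat_lit 57377) (nat_lit 3) (.e (nat_lit 98317) (nat_lit 9) (.e (nat_lit 336076) (nat_lit 9) .nil)))) .nil)) 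
(.lf (nat_lit 107103) (.g (nat_lit 1706) (.e (nat_lit 5193) (nat_lit 294) (.e (nat_lit 57446) (nat_lit 19) (.e (nat_lit 401152) (nat_lit 12) (.e (nat_lit 360473) (nat_lit 8) (.e (nat_lit 557090) (nat_lit 12) (.e (nat_lit 171776) (nat_lit 0) .nil)))))) (.g (nat_lit 5) .nil .nil)))) (.nd (nat_lit 6) 
(.lf (nat_lit 107071) (.g (nat_lit 2645) (.e (nat_lit 5193) (nat_lit 294) (.e (nat_lit 57411) (nat_lit 12) (.e (nat_lit 336019) (nat_lit 3) (.e (nat_lit 98372) (nat_lit 29) (.e (nat_lit 458496) (nat_lit 3) .nil))))) .nil)) 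
(.lf (nat_lit 107135) (.g (nat_lit 4663) (.e (nat_lit 5194) (nat_lit 294) (.e (nat_lit 57365) (nat_lit 1) (.e (nat_lit 57851) (nat_lit 252) (.e (nat_lit 57412) (nat_lit 12) (.e (nat_lit 336061) (nat_lit 7) (.e (nat_lit 319534) (nat_lit 16) (.e (nat_lit 286756) (nat_lit 10) (.e (nat_lit 344097) (nat_lit 18) .nil)))))))) (.g (nat_lit 0) .nil .nil))))))))))

noncomputable def tv1454 : DT := (.nd (nat_lit 0) (.nd (nat_lit 1) (.nd (nat_lit 2) (.nd (nat_lit 3) (.nd (nat_lit 4) (.nd (nat_lit 5) 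
(.lf (nat_lit 107136) (.g (nat_lit 3118) (.e (nat_lit 5194) (nat_lit 294) (.e (nat_lit 57365) (nat_lit 1) (.e (nat_lit 57852) (nat_lit 252) (.e (nat_lit 57404) (nat_lit 12) (.e (nat_lit 336060) (nat_lit 7) (.e (nat_lit 319533) (nat_lit 16) (.e (nat_lit 286753) (nat_lit 10) (.e (nat_lit 344097) (nat_lit 18) .nil)))))))) (.g (nat_lit 7) .nil .nil))) 
(.lf (nat_lit 107168) (.g (nat_lit 3437) (.e (nat_lit 5194) (nat_lit 294) (.e (nat_lit 57368) (nat_lit 1) (.e (nat_lit 57853) (nat_lit 252) (.e (nat_lit 57412) (nat_lit 12) (.e (nat_lit 336060) (nat_lit 7) (.e (nat_lit 319533) (nat_lit 16) (.e (nat_lit 286753) (nat_lit 10) (.e (nat_lit 344097) (nat_lit 18) .nil)))))))) (.g (nat_lit 7) .nil .nil)))) (.nd (nat_lit 5) 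
(.lf (nat_lit 107152) (.g (nat_lit 3501) (.e (nat_lit 5194) (nat_lit 294) (.e (nat_lit 57368) (nat_lit 1) (.e (nat_lit 57851) (nat_lit 252) (.e (nat_lit 57412) (nat_lit 12) (.e (nat_lit 336058) (nat_lit 7) (.e (nat_lit 319533) (nat_lit 16) (.e (nat_lit 286753) (nat_lit 10) (.e (nat_lit 344097) (nat_lit 18) .nil)))))))) (.g (nat_lit 0) .nil .nil))) 
(.lf (nat_lit 107184) (.g (nat_lit 1908) (.e (nat_lit 5194) (nat_lit 294) (.e (nat_lit 57372) (nat_lit 2) (.e (nat_lit 90128) (nat_lit 9) (.e (nat_lit 297) (nat_lit 22) (.e (nat_lit 344120) (nat_lit 21) .nil))))) .nil)))) (.nd (nat_lit 4) (.nd (nat_lit 5) 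
(.lf (nat_lit 107144) (.g (nat_lit 2044) (.e (nat_lit 5194) (nat_lit 294) (.e (nat_lit 57365) (nat_lit 1) (.e (nat_lit 57854) (nat_lit 252) (.e (nat_lit 57412) (nat_lit 12) (.e (nat_lit 336058) (nat_lit 7) (.e (nat_lit 319534) (nat_lit 16) (.e (nat_lit 286756) (nat_lit 10) (.e (nat_lit 344097) (nat_lit 18) .nil)))))))) (.g (nat_lit 4) .nil .nil))) 
(.lf (nat_lit 107176) (.g (nat_lit 3541) (.e (nat_lit 5194) (nat_lit 294) (.e (nat_lit 57368) (nat_lit 1) (.e (nat_lit 57854) (nat_lit 252) (.e (nat_lit 57414) (nat_lit 12) (.e (nat_lit 336060) (nat_lit 7) (.e (nat_lit 319534) (nat_lit 16) (.e (nat_lit 286756) (nat_lit 10) (.e (nat_lit 344097) (nat_lit 18) .nil)))))))) (.g (nat_lit 7) .nil .nil)))) (.nd (nat_lit 5) 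
(.lf (nat_lit 107160) (.g (nat_lit 3661) (.e (nat_lit 5194) (nat_lit 294) (.e (nat_lit 57368) (nat_lit 1) (.e (nat_lit 57852) (nat_lit 252) (.e (nat_lit 57412) (nat_lit 12) (.e (nat_lit 336060) (nat_lit 7) (.e (nat_lit 319534) (nat_lit 16) (.e (nat_lit 286756) (nat_lit 10) (.e (nat_lit 344097) (nat_lit 18) .nil)))))))) (.g (nat_lit 7) .nil .nil))) 
(.lf (nat_lit 107192) (.g (nat_lit 1983) (.e (nat_lit 5194) (nat_lit 294) (.e (nat_lit 57372) (nat_lit 2) (.e (nat_lit 90158) (nat_lit 11) (.e (nat_lit 24625) (nat_lit 9) (.e (nat_lit 336367) (nat_lit 27) .nil))))) .nil))))) (.nd (nat_lit 3) (.nd (nat_lit 4) (.nd (nat_lit 5) 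
(.lf (nat_lit 107140) (.g (nat_lit 3312) (.e (nat_lit 5194) (nat_lit 294) (.e (nat_lit 57365) (nat_lit 1) (.e (nat_lit 57852) (nat_lit 252) (.e (nat_lit 57415) (nat_lit 12) (.e (nat_lit 336060) (nat_lit 7) (.e (nat_lit 319534) (nat_lit 16) (.e (nat_lit 286756) (nat_lit 10) (.e (nat_lit 344097) (nat_lit 18) .nil)))))))) (.g (nat_lit 7) .nil .nil))) 
(.lf (nat_lit 107172) (.g (nat_lit 2339) (.e (nat_lit 5194) (nat_lit 294) (.e (nat_lit 57368) (nat_lit 1) (.e (nat_lit 57854) (nat_lit 252) (.e (nat_lit 57412) (nat_lit 12) (.e (nat_lit 336054) (nat_lit 7) .nil))))) .nil))) (.nd (nat_lit 5) 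
(.lf (nat_lit 107156) (.g (nat_lit 4393) (.e (nat_lit 5194) (nat_lit 294) (.e (nat_lit 57368) (nat_lit 1) (.e (nat_lit 57851) (nat_lit 252) (.e (nat_lit 57412) (nat_lit 12) (.e (nat_lit 336061) (nat_lit 7) (.e (nat_lit 319534) (nat_lit 16) (.e (nat_lit 286756) (nat_lit 10) (.e (nat_lit 344097) (nat_lit 18) .nil)))))))) (.g (nat_lit 0) .nil .nil))) 
(.lf (nat_lit 107188) (.g (nat_lit 419) (.e (nat_lit 5194) (nat_lit 294) (.e (nat_lit 57372) (nat_lit 2) (.e (nat_lit 90158) (nat_lit 11) .nil))) .nil)))) (.nd (nat_lit 4) (.nd (nat_lit 5) 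
(.lf (nat_lit 107148) (.g (nat_lit 3729) (.e (nat_lit 5194) (nat_lit 294) (.e (nat_lit 57368) (nat_lit 1) (.e (nat_lit 57830) (nat_lit 250) (.e (nat_lit 1201) (nat_lit 88) (.e (nat_lit 65583) (nat_lit 7) (.e (nat_lit 319530) (nat_lit 16) (.e (nat_lit 286753) (nat_lit 10) (.e (nat_lit 344097) (nat_lit 18) .nil)))))))) (.g (nat_lit 7) .nil .nil))) 
(.lf (nat_lit 107180) (.g (nat_lit 2625) (.e (nat_lit 5194) (nat_lit 294) (.e (nat_lit 57372) (nat_lit 2) (.e (nat_lit 98048) (nat_lit 6) (.e (nat_lit 81951) (nat_lit 22) (.e (nat_lit 90172) (nat_lit 14) (.e (nat_lit 188160) (nat_lit 0) .nil)))))) (.g (nat_lit 5) .nil .nil)))) (.nd (nat_lit 5) 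
(.lf (nat_lit 107164) (.g (nat_lit 1433) (.e (nat_lit 5194) (nat_lit 294) (.e (nat_lit 57368) (nat_lit 1) (.e (nat_lit 57852) (nat_lit 252) (.e (nat_lit 57415) (nat_lit 12) (.e (nat_lit 336054) (nat_lit 7) (.e (nat_lit 319533) (nat_lit 16) (.e (nat_lit 286753) (nat_lit 10) (.e (nat_lit 344097) (nat_lit 18) .nil)))))))) (.g (nat_lit 4) .nil .nil))) 
(.lf (nat_lit 107196) (.g (nat_lit 1594) (.e (nat_lit 5194) (nat_lit 294) (.e (nat_lit 57372) (nat_lit 2) (.e (nat_lit 90159) (nat_lit 11) (.e (nat_lit 24657) (nat_lit 13) (.e (nat_lit 401152) (nat_lit 10) (.e (nat_lit 344100) (nat_lit 18) .nil)))))) (.g (nat_lit 4) .nil .nil))))))) (.nd (nat_lit 2) (.nd (nat_lit 3) (.nd (nat_lit 4) (.nd (nat_lit 5) 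
(.lf (nat_lit 107138) (.g (nat_lit 2151) (.e (nat_lit 5194) (nat_lit 294) (.e (nat_lit 57365) (nat_lit 1) (.e (nat_lit 57852) (nat_lit 252) (.e (nat_lit 57412) (nat_lit 12) (.e (nat_lit 336058) (nat_lit 7) (.e (nat_lit 319534) (nat_lit 16) (.e (nat_lit 286756) (nat_lit 10) (.e (nat_lit 344097) (nat_lit 18) .nil)))))))) (.g (nat_lit 4) .nil .nil))) 
(.lf (nat_lit 107170) (.g (nat_lit 3633) (.e (nat_lit 5194) (nat_lit 294) (.e (nat_lit 57368) (nat_lit 1) (.e (nat_lit 57854) (nat_lit 252) (.e (nat_lit 57404) (nat_lit 12) (.e (nat_lit 336060) (nat_lit 7) (.e (nat_lit 319534) (nat_lit 16) (.e (nat_lit 286756) (nat_lit 10) (.e (nat_lit 344097) (nat_lit 18) .nil)))))))) (.g (nat_lit 7) .nil .nil)))) (.nd (nat_lit 5) 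
(.lf (nat_lit 107154) (.g (nat_lit 4140) (.e (nat_lit 5194) (nat_lit 294) (.e (nat_lit 57368) (nat_lit 1) (.e (nat_lit 57851) (nat_lit 252) (.e (nat_lit 57412) (nat_lit 12) (.e (nat_lit 336061) (nat_lit 7) (.e (nat_lit 319531) (nat_lit 16) (.e (nat_lit 286756) (nat_lit 10) (.e (nat_lit 344097) (nat_lit 18) .nil)))))))) (.g (nat_lit 0) .nil .nil))) 
(.lf (nat_lit 107186) (.g (nat_lit 6309) (.e (nat_lit 5194) (nat_lit 294) (.e (nat_lit 57372) (nat_lit 2) (.e (nat_lit 90128) (nat_lit 9) (.e (nat_lit 297) (nat_lit 22) (.e (nat_lit 344131) (nat_lit 26) (.e (nat_lit 557105) (nat_lit 14) (.e (nat_lit 180252) (nat_lit 10) (.e (nat_lit 573474) (nat_lit 12) (.e (nat_lit 57354) (nat_lit 0) .nil))))))))) (.g (nat_lit 9) .nil .nil))))) 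
(.nd (nat_lit 4) (.nd (nat_lit 5) 
(.lf (nat_lit 107146) (.g (nat_lit 1870) (.e (nat_lit 5194) (nat_lit 294) (.e (nat_lit 57367) (nat_lit 1) (.e (nat_lit 57846) (nat_lit 252) (.e (nat_lit 57412) (nat_lit 12) (.e (nat_lit 336060) (nat_lit 7) (.e (nat_lit 319534) (nat_lit 16) (.e (nat_lit 286756) (nat_lit 10) (.e (nat_lit 344097) (nat_lit 18) .nil)))))))) (.g (nat_lit 4) .nil .nil))) 
(.lf (nat_lit 107178) (.g (nat_lit 1202) (.e (nat_lit 5194) (nat_lit 294) (.e (nat_lit 57372) (nat_lit 2) (.e (nat_lit 90115) (nat_lit 0) .nil))) .nil))) (.nd (nat_lit 5) 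
(.lf (nat_lit 107162) (.g (nat_lit 3193) (.e (nat_lit 5194) (nat_lit 294) (.e (nat_lit 57368) (nat_lit 1) (.e (nat_lit 57852) (nat_lit 252) (.e (nat_lit 57413) (nat_lit 12) (.e (nat_lit 336060) (nat_lit 7) (.e (nat_lit 319533) (nat_lit 16) (.e (nat_lit 286753) (nat_lit 10) (.e (nat_lit 344097) (nat_lit 18) .nil)))))))) (.g (nat_lit 7) .nil .nil))) 
(.lf (nat_lit 107194) (.g (nat_lit 1705) (.e (nat_lit 5194) (nat_lit 294) (.e (nat_lit 57372) (nat_lit 2) (.e (nat_lit 90159) (nat_lit 11) (.e (nat_lit 24657) (nat_lit 13) (.e (nat_lit 393227) (nat_lit 9) (.e (nat_lit 335958) (nat_lit 0) (.e (nat_lit 1037) (nat_lit 81) .nil))))))) (.g (nat_lit 4) .nil .nil)))))) (.nd (nat_lit 3) (.nd (nat_lit 4) (.nd (nat_lit 5) 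
(.lf (nat_lit 107142) (.g (nat_lit 2861) (.e (nat_lit 5194) (nat_lit 294) (.e (nat_lit 57365) (nat_lit 1) (.e (nat_lit 57854) (nat_lit 252) (.e (nat_lit 57404) (nat_lit 12) (.e (nat_lit 336060) (nat_lit 7) (.e (nat_lit 319534) (nat_lit 16) (.e (nat_lit 286756) (nat_lit 10) (.e (nat_lit 344097) (nat_lit 18) .nil)))))))) (.g (nat_lit 6) .nil .nil))) 
(.lf (nat_lit 107174) (.g (nat_lit 3729) (.e (nat_lit 5194) (nat_lit 294) (.e (nat_lit 57368) (nat_lit 1) (.e (nat_lit 57854) (nat_lit 252) (.e (nat_lit 57413) (nat_lit 12) (.e (nat_lit 336060) (nat_lit 7) (.e (nat_lit 319534) (nat_lit 16) (.e (nat_lit 286756) (nat_lit 10) (.e (nat_lit 344097) (nat_lit 18) .nil)))))))) (.g (nat_lit 7) .nil .nil)))) (.nd (nat_lit 5) 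
(.lf (nat_lit 107158) (.g (nat_lit 2169) (.e (nat_lit 5194) (nat_lit 294) (.e (nat_lit 57368) (nat_lit 1) (.e (nat_lit 57852) (nat_lit 252) (.e (nat_lit 57412) (nat_lit 12) (.e (nat_lit 336054) (nat_lit 7) (.e (nat_lit 319534) (nat_lit 16) (.e (nat_lit 286756) (nat_lit 10) (.e (nat_lit 344097) (nat_lit 18) .nil)))))))) (.g (nat_lit 4) .nil .nil))) 
(.lf (nat_lit 107190) (.g (nat_lit 2827) (.e (nat_lit 5194) (nat_lit 294) (.e (nat_lit 57372) (nat_lit 2) (.e (nat_lit 90158) (nat_lit 11) (.e (nat_lit 24608) (nat_lit 3) (.e (nat_lit 98342) (nat_lit 20) (.e (nat_lit 221210) (nat_lit 22) (.e (nat_lit 196660) (nat_lit 12) (.e (nat_lit 57354) (nat_lit 0) .nil)))))))) (.g (nat_lit 5) .nil .nil))))) (.nd (nat_lit 4) (.nd (nat_lit 5) 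
(.lf (nat_lit 107150) (.g (nat_lit 2919) (.e (nat_lit 5194) (nat_lit 294) (.e (nat_lit 57368) (nat_lit 1) (.e (nat_lit 57851) (nat_lit 252) (.e (nat_lit 57412) (nat_lit 12) (.e (nat_lit 336054) (nat_lit 7) (.e (nat_lit 319533) (nat_lit 16) (.e (nat_lit 286753) (nat_lit 10) (.e (nat_lit 344097) (nat_lit 18) .nil)))))))) (.g (nat_lit 0) .nil .nil))) 
(.lf (nat_lit 107182) (.g (nat_lit 1270) (.e (nat_lit 5194) (nat_lit 294) (.e (nat_lit 57372) (nat_lit 2) (.e (nat_lit 90128) (nat_lit 9) (.e (nat_lit 297) (nat_lit 22) .nil)))) .nil))) (.nd (nat_lit 5) 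
(.lf (nat_lit 107166) (.g (nat_lit 3742) (.e (nat_lit 5194) (nat_lit 294) (.e (nat_lit 57368) (nat_lit 1) (.e (nat_lit 57852) (nat_lit 252) (.e (nat_lit 57415) (nat_lit 12) (.e (nat_lit 336060) (nat_lit 7) (.e (nat_lit 319534) (nat_lit 16) (.e (nat_lit 286756) (nat_lit 10) (.e (nat_lit 344097) (nat_lit 18) .nil)))))))) (.g (nat_lit 8) .nil .nil))) 
(.lf (nat_lit 107198) (.g (nat_lit 2199) (.e (nat_lit 5194) (nat_lit 294) (.e (nat_lit 57372) (nat_lit 2) (.e (nat_lit 90160) (nat_lit 11) (.e (nat_lit 24576) (nat_lit 0) .nil)))) .nil))))))) (.nd (nat_lit 1) (.nd (nat_lit 2) (.nd (nat_lit 3) (.nd (nat_lit 4) (.nd (nat_lit 5) 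
(.lf (nat_lit 107137) (.g (nat_lit 3395) (.e (nat_lit 5194) (nat_lit 294) (.e (nat_lit 57365) (nat_lit 1) (.e (nat_lit 57852) (nat_lit 252) (.e (nat_lit 57404) (nat_lit 12) (.e (nat_lit 336060) (nat_lit 7) (.e (nat_lit 319534) (nat_lit 16) (.e (nat_lit 286756) (nat_lit 10) (.e (nat_lit 344097) (nat_lit 18) .nil)))))))) (.g (nat_lit 7) .nil .nil))) 
(.lf (nat_lit 107169) (.g (nat_lit 3378) (.e (nat_lit 5194) (nat_lit 294) (.e (nat_lit 57368) (nat_lit 1) (.e (nat_lit 57854) (nat_lit 252) (.e (nat_lit 57404) (nat_lit 12) (.e (nat_lit 336060) (nat_lit 7) (.e (nat_lit 319533) (nat_lit 16) (.e (nat_lit 286753) (nat_lit 10) (.e (nat_lit 344097) (nat_lit 18) .nil)))))))) (.g (nat_lit 7) .nil .nil)))) (.nd (nat_lit 5) 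
(.lf (nat_lit 107153) (.g (nat_lit 3196) (.e (nat_lit 5194) (nat_lit 294) (.e (nat_lit 57368) (nat_lit 1) (.e (nat_lit 57851) (nat_lit 252) (.e (nat_lit 57412) (nat_lit 12) (.e (nat_lit 336060) (nat_lit 7) (.e (nat_lit 319533) (nat_lit 16) (.e (nat_lit 286753) (nat_lit 10) (.e (nat_lit 344097) (nat_lit 18) .nil)))))))) (.g (nat_lit 0) .nil .nil))) 
(.lf (nat_lit 107185) (.g (nat_lit 2102) (.e (nat_lit 5194) (nat_lit 294) (.e (nat_lit 57372) (nat_lit 2) (.e (nat_lit 90128) (nat_lit 9) (.e (nat_lit 297) (nat_lit 22) (.e (nat_lit 344120) (nat_lit 21) (.e (nat_lit 516131) (nat_lit 3) (.e (nat_lit 221212) (nat_lit 22) (.e (nat_lit 196660) (nat_lit 12) (.e (nat_lit 57354) (nat_lit 0) .nil))))))))) (.g (nat_lit 4) .nil .nil))))) 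
(.nd (nat_lit 4) (.nd (nat_lit 5) 
(.lf (nat_lit 107145) (.g (nat_lit 2789) (.e (nat_lit 5194) (nat_lit 294) (.e (nat_lit 57365) (nat_lit 1) (.e (nat_lit 57854) (nat_lit 252) (.e (nat_lit 57414) (nat_lit 12) (.e (nat_lit 336060) (nat_lit 7) (.e (nat_lit 319534) (nat_lit 16) (.e (nat_lit 286756) (nat_lit 10) (.e (nat_lit 344097) (nat_lit 18) .nil)))))))) (.g (nat_lit 6) .nil .nil))) 
(.lf (nat_lit 107177) (.g (nat_lit 1202) (.e (nat_lit 5194) (nat_lit 294) (.e (nat_lit 57372) (nat_lit 2) (.e (nat_lit 90113) (nat_lit 0) .nil))) .nil))) (.nd (nat_lit 5) 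
(.lf (nat_lit 107161) (.g (nat_lit 1733) (.e (nat_lit 5194) (nat_lit 294) (.e (nat_lit 57368) (nat_lit 1) (.e (nat_lit 57852) (nat_lit 252) (.e (nat_lit 57413) (nat_lit 12) (.e (nat_lit 336054) (nat_lit 7) (.e (nat_lit 319533) (nat_lit 16) (.e (nat_lit 286753) (nat_lit 10) (.e (nat_lit 344097) (nat_lit 18) .nil)))))))) (.g (nat_lit 4) .nil .nil))) 
(.lf (nat_lit 107193) (.g (nat_lit 1521) (.e (nat_lit 5194) (nat_lit 294) (.e (nat_lit 57372) (nat_lit 2) (.e (nat_lit 90159) (nat_lit 11) (.e (nat_lit 24657) (nat_lit 13) (.e (nat_lit 393227) (nat_lit 9) .nil))))) .nil))))) (.nd (nat_lit 3) (.nd (nat_lit 4) (.nd (nat_lit 5) 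
(.lf (nat_lit 107141) (.g (nat_lit 2594) (.e (nat_lit 5194) (nat_lit 294) (.e (nat_lit 57365) (nat_lit 1) (.e (nat_lit 57854) (nat_lit 252) (.e (nat_lit 57404) (nat_lit 12) (.e (nat_lit 336060) (nat_lit 7) (.e (nat_lit 319533) (nat_lit 16) (.e (nat_lit 286753) (nat_lit 10) (.e (nat_lit 344097) (nat_lit 18) .nil)))))))) (.g (nat_lit 6) .nil .nil))) 
(.lf (nat_lit 107173) (.g (nat_lit 2230) (.e (nat_lit 5194) (nat_lit 294) (.e (nat_lit 57368) (nat_lit 1) (.e (nat_lit 57854) (nat_lit 252) (.e (nat_lit 57413) (nat_lit 12) (.e (nat_lit 336054) (nat_lit 7) (.e (nat_lit 319533) (nat_lit 16) (.e (nat_lit 286753) (nat_lit 10) (.e (nat_lit 344097) (nat_lit 18) .nil)))))))) (.g (nat_lit 5) .nil .nil)))) (.nd (nat_lit 5) 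
(.lf (nat_lit 107157) (.g (nat_lit 3906) (.e (nat_lit 5194) (nat_lit 294) (.e (nat_lit 57368) (nat_lit 1) (.e (nat_lit 57852) (nat_lit 252) (.e (nat_lit 57404) (nat_lit 12) (.e (nat_lit 336060) (nat_lit 7) (.e (nat_lit 319534) (nat_lit 16) (.e (nat_lit 286756) (nat_lit 10) (.e (nat_lit 344097) (nat_lit 18) .nil)))))))) (.g (nat_lit 8) .nil .nil))) 
(.lf (nat_lit 107189) (.g (nat_lit 3625) (.e (nat_lit 5194) (nat_lit 294) (.e (nat_lit 57372) (nat_lit 2) (.e (nat_lit 90158) (nat_lit 11) (.e (nat_lit 24608) (nat_lit 3) (.e (nat_lit 98341) (nat_lit 20) (.e (nat_lit 221210) (nat_lit 22) (.e (nat_lit 196660) (nat_lit 12) (.e (nat_lit 57354) (nat_lit 0) .nil)))))))) (.g (nat_lit 6) .nil .nil))))) (.nd (nat_lit 4) (.nd (nat_lit 5) 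
(.lf (nat_lit 107149) (.g (nat_lit 3719) (.e (nat_lit 5194) (nat_lit 294) (.e (nat_lit 57368) (nat_lit 1) (.e (nat_lit 57830) (nat_lit 250) (.e (nat_lit 1201) (nat_lit 88) (.e (nat_lit 65583) (nat_lit 7) (.e (nat_lit 319533) (nat_lit 16) (.e (nat_lit 286753) (nat_lit 10) (.e (nat_lit 344097) (nat_lit 18) .nil)))))))) (.g (nat_lit 7) .nil .nil))) 
(.lf (nat_lit 107181) (.g (nat_lit 2181) (.e (nat_lit 5194) (nat_lit 294) (.e (nat_lit 57372) (nat_lit 2) (.e (nat_lit 98048) (nat_lit 6) (.e (nat_lit 81953) (nat_lit 22) (.e (nat_lit 90172) (nat_lit 14) .nil))))) .nil))) (.nd (nat_lit 5) 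
(.lf (nat_lit 107165) (.g (nat_lit 3481) (.e (nat_lit 5194) (nat_lit 294) (.e (nat_lit 57368) (nat_lit 1) (.e (nat_lit 57852) (nat_lit 252) (.e (nat_lit 57415) (nat_lit 12) (.e (nat_lit 336060) (nat_lit 7) (.e (nat_lit 319533) (nat_lit 16) (.e (nat_lit 286753) (nat_lit 10) (.e (nat_lit 344097) (nat_lit 18) .nil)))))))) (.g (nat_lit 8) .nil .nil))) 
(.lf (nat_lit 107197) (.g (nat_lit 502) (.e (nat_lit 5194) (nat_lit 294) (.e (nat_lit 57372) (nat_lit 2) (.e (nat_lit 90160) (nat_lit 11) .nil))) .nil)))))) (.nd (nat_lit 2) (.nd (nat_lit 3) (.nd (nat_lit 4) (.nd (nat_lit 5) 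
(.lf (nat_lit 107139) (.g (nat_lit 3039) (.e (nat_lit 5194) (nat_lit 294) (.e (nat_lit 57365) (nat_lit 1) (.e (nat_lit 57852) (nat_lit 252) (.e (nat_lit 57415) (nat_lit 12) (.e (nat_lit 336060) (nat_lit 7) (.e (nat_lit 319533) (nat_lit 16) (.e (nat_lit 286753) (nat_lit 10) (.e (nat_lit 344097) (nat_lit 18) .nil)))))))) (.g (nat_lit 7) .nil .nil))) 
(.lf (nat_lit 107171) (.g (nat_lit 4374) (.e (nat_lit 5194) (nat_lit 294) (.e (nat_lit 57368) (nat_lit 1) (.e (nat_lit 57854) (nat_lit 252) (.e (nat_lit 57409) (nat_lit 12) (.e (nat_lit 336053) (nat_lit 7) (.e (nat_lit 319533) (nat_lit 16) (.e (nat_lit 286753) (nat_lit 10) (.e (nat_lit 344097) (nat_lit 18) .nil)))))))) (.g (nat_lit 7) .nil .nil)))) (.nd (nat_lit 5) 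
(.lf (nat_lit 107155) (.g (nat_lit 4212) (.e (nat_lit 5194) (nat_lit 294) (.e (nat_lit 57368) (nat_lit 1) (.e (nat_lit 57851) (nat_lit 252) (.e (nat_lit 57412) (nat_lit 12) (.e (nat_lit 336061) (nat_lit 7) (.e (nat_lit 319533) (nat_lit 16) (.e (nat_lit 286753) (nat_lit 10) (.e (nat_lit 344097) (nat_lit 18) .nil)))))))) (.g (nat_lit 0) .nil .nil))) 
(.lf (nat_lit 107187) (.g (nat_lit 6898) (.e (nat_lit 5194) (nat_lit 294) (.e (nat_lit 57372) (nat_lit 2) (.e (nat_lit 90128) (nat_lit 9) (.e (nat_lit 297) (nat_lit 22) (.e (nat_lit 344133) (nat_lit 26) (.e (nat_lit 557105) (nat_lit 14) (.e (nat_lit 180252) (nat_lit 10) (.e (nat_lit 573474) (nat_lit 12) (.e (nat_lit 57354) (nat_lit 0) .nil))))))))) (.g (nat_lit 9) .nil .nil))))) 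
(.nd (nat_lit 4) (.nd (nat_lit 5) 
(.lf (nat_lit 107147) (.g (nat_lit 2011) (.e (nat_lit 5194) (nat_lit 294) (.e (nat_lit 57367) (nat_lit 1) (.e (nat_lit 57849) (nat_lit 252) (.e (nat_lit 57413) (nat_lit 12) (.e (nat_lit 336060) (nat_lit 7) .nil))))) .nil)) 
(.lf (nat_lit 107179) (.g (nat_lit 1068) (.e (nat_lit 5194) (nat_lit 294) (.e (nat_lit 57372) (nat_lit 2) (.e (nat_lit 98048) (nat_lit 6) .nil))) .nil))) (.nd (nat_lit 5) 
(.lf (nat_lit 107163) (.g (nat_lit 3457) (.e (nat_lit 5194) (nat_lit 294) (.e (nat_lit 57368) (nat_lit 1) (.e (nat_lit 57852) (nat_lit 252) (.e (nat_lit 57413) (nat_lit 12) (.e (nat_lit 336060) (nat_lit 7) (.e (nat_lit 319534) (nat_lit 16) (.e (nat_lit 286756) (nat_lit 10) (.e (nat_lit 344097) (nat_lit 18) .nil)))))))) (.g (nat_lit 7) .nil .nil))) 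
(.lf (nat_lit 107195) (.g (nat_lit 1530) (.e (nat_lit 5194) (nat_lit 294) (.e (nat_lit 57372) (nat_lit 2) (.e (nat_lit 90159) (nat_lit 11) (.e (nat_lit 24657) (nat_lit 13) (.e (nat_lit 401152) (nat_lit 10) (.e (nat_lit 344087) (nat_lit 18) .nil)))))) (.g (nat_lit 4) .nil .nil)))))) (.nd (nat_lit 3) (.nd (nat_lit 4) (.nd (nat_lit 5) 
(.lf (nat_lit 107143) (.g (nat_lit 2337) (.e (nat_lit 5194) (nat_lit 294) (.e (nat_lit 57365) (nat_lit 1) (.e (nat_lit 57854) (nat_lit 252) (.e (nat_lit 57409) (nat_lit 12) (.e (nat_lit 336240) (nat_lit 15) (.e (nat_lit 3453) (nat_lit 216) (.e (nat_lit 688175) (nat_lit 16) (.e (nat_lit 65619) (nat_lit 10) (.e (nat_lit 344097) (nat_lit 18) .nil))))))))) (.g (nat_lit 4) .nil .nil))) 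
(.lf (nat_lit 107175) (.g (nat_lit 3299) (.e (nat_lit 5194) (nat_lit 294) (.e (nat_lit 57368) (nat_lit 1) (.e (nat_lit 57854) (nat_lit 252) (.e (nat_lit 57414) (nat_lit 12) (.e (nat_lit 336060) (nat_lit 7) (.e (nat_lit 319533) (nat_lit 16) (.e (nat_lit 286753) (nat_lit 10) (.e (nat_lit 344097) (nat_lit 18) .nil)))))))) (.g (nat_lit 7) .nil .nil)))) (.nd (nat_lit 5) 
(.lf (nat_lit 107159) (.g (nat_lit 3499) (.e (nat_lit 5194) (nat_lit 294) (.e (nat_lit 57368) (nat_lit 1) (.e (nat_lit 57852) (nat_lit 252) (.e (nat_lit 57412) (nat_lit 12) (.e (nat_lit 336060) (nat_lit 7) (.e (nat_lit 319533) (nat_lit 16) (.e (nat_lit 286753) (nat_lit 10) (.e (nat_lit 344097) (nat_lit 18) .nil)))))))) (.g (nat_lit 7) .nil .nil))) 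
(.lf (nat_lit 107191) (.g (nat_lit 2210) (.e (nat_lit 5194) (nat_lit 294) (.e (nat_lit 57372) (nat_lit 2) (.e (nat_lit 90158) (nat_lit 11) (.e (nat_lit 24608) (nat_lit 3) (.e (nat_lit 98342) (nat_lit 20) (.e (nat_lit 221212) (nat_lit 22) (.e (nat_lit 196659) (nat_lit 12) (.e (nat_lit 57354) (nat_lit 0) .nil)))))))) (.g (nat_lit 4) .nil .nil))))) (.nd (nat_lit 4) (.nd (nat_lit 5) 
(.lf (nat_lit 107151) (.g (nat_lit 3563) (.e (nat_lit 5194) (nat_lit 294) (.e (nat_lit 57368) (nat_lit 1) (.e (nat_lit 57851) (nat_lit 252) (.e (nat_lit 57412) (nat_lit 12) (.e (nat_lit 336054) (nat_lit 7) (.e (nat_lit 319534) (nat_lit 16) (.e (nat_lit 286756) (nat_lit 10) (.e (nat_lit 344097) (nat_lit 18) .nil)))))))) (.g (nat_lit 8) .nil .nil))) 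
(.lf (nat_lit 107183) (.g (nat_lit 1883) (.e (nat_lit 5194) (nat_lit 294) (.e (nat_lit 57372) (nat_lit 2) (.e (nat_lit 90128) (nat_lit 9) (.e (nat_lit 297) (nat_lit 22) (.e (nat_lit 344118) (nat_lit 21) .nil))))) .nil))) (.nd (nat_lit 5) 
(.lf (nat_lit 107167) (.g (nat_lit 1769) (.e (nat_lit 5194) (nat_lit 294) (.e (nat_lit 57368) (nat_lit 1) (.e (nat_lit 57853) (nat_lit 252) (.e (nat_lit 57412) (nat_lit 12) (.e (nat_lit 336054) (nat_lit 7) .nil))))) .nil)) 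
(.lf (nat_lit 107199) (.g (nat_lit 2199) (.e (nat_lit 5194) (nat_lit 294) (.e (nat_lit 57372) (nat_lit 2) (.e (nat_lit 90160) (nat_lit 11) (.e (nat_lit 24583) (nat_lit 0) .nil)))) .nil))))))))

noncomputable def tv1455 : DT := (.nd (nat_lit 0) (.nd (nat_lit 1) (.nd (nat_lit 2) (.nd (nat_lit 3) (.nd (nat_lit 4) (.nd (nat_lit 5) 
(.lf (nat_lit 107200) (.g (nat_lit 2199) (.e (nat_lit 5194) (nat_lit 294) (.e (nat_lit 57372) (nat_lit 2) (.e (nat_lit 90160) (nat_lit 11) (.e (nat_lit 24585) (nat_lit 0) .nil)))) .nil)) 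
(.lf (nat_lit 107232) (.g (nat_lit 3129) (.e (nat_lit 5194) (nat_lit 294) (.e (nat_lit 57375) (nat_lit 2) (.e (nat_lit 90158) (nat_lit 11) (.e (nat_lit 24608) (nat_lit 3) (.e (nat_lit 98341) (nat_lit 20) (.e (nat_lit 221210) (nat_lit 22) (.e (nat_lit 196660) (nat_lit 12) (.e (nat_lit 57354) (nat_lit 0) .nil)))))))) (.g (nat_lit 5) .nil .nil)))) (.nd (nat_lit 5) 
(.lf (nat_lit 107216) (.g (nat_lit 1554) (.e (nat_lit 5194) (nat_lit 294) (.e (nat_lit 57372) (nat_lit 2) (.e (nat_lit 90160) (nat_lit 11) (.e (nat_lit 24654) (nat_lit 13) .nil)))) .nil)) 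
(.lf (nat_lit 107248) (.g (nat_lit 1759) (.e (nat_lit 5194) (nat_lit 294) (.e (nat_lit 57375) (nat_lit 2) (.e (nat_lit 90160) (nat_lit 11) (.e (nat_lit 24608) (nat_lit 3) .nil)))) .nil)))) (.nd (nat_lit 4) (.nd (nat_lit 5) 
(.lf (nat_lit 107208) (.g (nat_lit 4648) (.e (nat_lit 5194) (nat_lit 294) (.e (nat_lit 57372) (nat_lit 2) (.e (nat_lit 90160) (nat_lit 11) (.e (nat_lit 24608) (nat_lit 3) (.e (nat_lit 98341) (nat_lit 20) (.e (nat_lit 221210) (nat_lit 22) (.e (nat_lit 196660) (nat_lit 12) (.e (nat_lit 57354) (nat_lit 0) .nil)))))))) (.g (nat_lit 6) .nil .nil))) 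
(.lf (nat_lit 107240) (.g (nat_lit 2313) (.e (nat_lit 5194) (nat_lit 294) (.e (nat_lit 57375) (nat_lit 2) (.e (nat_lit 90160) (nat_lit 11) (.e (nat_lit 24585) (nat_lit 0) .nil)))) .nil))) (.nd (nat_lit 5) 
(.lf (nat_lit 107224) (.g (nat_lit 818) (.e (nat_lit 5194) (nat_lit 294) (.e (nat_lit 57375) (nat_lit 2) (.e (nat_lit 98048) (nat_lit 6) .nil))) .nil)) 
(.lf (nat_lit 107256) (.g (nat_lit 2569) (.e (nat_lit 5194) (nat_lit 294) (.e (nat_lit 57375) (nat_lit 2) (.e (nat_lit 90160) (nat_lit 11) (.e (nat_lit 24625) (nat_lit 9) (.e (nat_lit 336367) (nat_lit 27) (.e (nat_lit 426537) (nat_lit 28) (.e (nat_lit 344097) (nat_lit 18) .nil))))))) (.g (nat_lit 4) .nil .nil)))))) (.nd (nat_lit 3) (.nd (nat_lit 4) (.nd (nat_lit 5) 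
(.lf (nat_lit 107204) (.g (nat_lit 2199) (.e (nat_lit 5194) (nat_lit 294) (.e (nat_lit 57372) (nat_lit 2) (.e (nat_lit 90160) (nat_lit 11) (.e (nat_lit 24592) (nat_lit 0) .nil)))) .nil)) 
(.lf (nat_lit 107236) (.g (nat_lit 1519) (.e (nat_lit 5194) (nat_lit 294) (.e (nat_lit 57375) (nat_lit 2) (.e (nat_lit 90159) (nat_lit 11) (.e (nat_lit 24657) (nat_lit 13) (.e (nat_lit 401152) (nat_lit 10) (.e (nat_lit 344100) (nat_lit 18) .nil)))))) (.g (nat_lit 4) .nil .nil)))) (.nd (nat_lit 5) 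
(.lf (nat_lit 107220) (.g (nat_lit 3082) (.e (nat_lit 5194) (nat_lit 294) (.e (nat_lit 57372) (nat_lit 2) (.e (nat_lit 90160) (nat_lit 11) (.e (nat_lit 24665) (nat_lit 14) (.e (nat_lit 401468) (nat_lit 27) .nil))))) .nil)) 
(.lf (nat_lit 107252) (.g (nat_lit 2734) (.e (nat_lit 5194) (nat_lit 294) (.e (nat_lit 57375) (nat_lit 2) (.e (nat_lit 90160) (nat_lit 11) (.e (nat_lit 24608) (nat_lit 3) (.e (nat_lit 98342) (nat_lit 20) .nil))))) .nil)))) (.nd (nat_lit 4) (.nd (nat_lit 5) 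
(.lf (nat_lit 107212) (.g (nat_lit 2862) (.e (nat_lit 5194) (nat_lit 294) (.e (nat_lit 57372) (nat_lit 2) (.e (nat_lit 90160) (nat_lit 11) (.e (nat_lit 24609) (nat_lit 3) (.e (nat_lit 98342) (nat_lit 20) (.e (nat_lit 221212) (nat_lit 22) (.e (nat_lit 196660) (nat_lit 12) (.e (nat_lit 57354) (nat_lit 0) .nil)))))))) (.g (nat_lit 4) .nil .nil))) 
(.lf (nat_lit 107244) (.g (nat_lit 2450) (.e (nat_lit 5194) (nat_lit 294) (.e (nat_lit 57375) (nat_lit 2) (.e (nat_lit 90160) (nat_lit 11) (.e (nat_lit 24591) (nat_lit 0) (.e (nat_lit 1802) (nat_lit 119) .nil))))) .nil))) (.nd (nat_lit 5) 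
(.lf (nat_lit 107228) (.g (nat_lit 1977) (.e (nat_lit 5194) (nat_lit 294) (.e (nat_lit 57375) (nat_lit 2) (.e (nat_lit 90128) (nat_lit 9) (.e (nat_lit 297) (nat_lit 22) (.e (nat_lit 344120) (nat_lit 21) (.e (nat_lit 516131) (nat_lit 3) (.e (nat_lit 221212) (nat_lit 22) (.e (nat_lit 196660) (nat_lit 12) (.e (nat_lit 57354) (nat_lit 0) .nil))))))))) (.g (nat_lit 4) .nil .nil))) 
(.lf (nat_lit 107260) (.g (nat_lit 2063) (.e (nat_lit 5194) (nat_lit 294) (.e (nat_lit 57375) (nat_lit 2) (.e (nat_lit 90160) (nat_lit 11) (.e (nat_lit 24655) (nat_lit 13) (.e (nat_lit 401152) (nat_lit 10) .nil))))) .nil)))))) (.nd (nat_lit 2) (.nd (nat_lit 3) (.nd (nat_lit 4) (.nd (nat_lit 5) 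
(.lf (nat_lit 107202) (.g (nat_lit 2199) (.e (nat_lit 5194) (nat_lit 294) (.e (nat_lit 57372) (nat_lit 2) (.e (nat_lit 90160) (nat_lit 11) (.e (nat_lit 24590) (nat_lit 0) .nil)))) .nil)) 
(.lf (nat_lit 107234) (.g (nat_lit 1603) (.e (nat_lit 5194) (nat_lit 294) (.e (nat_lit 57375) (nat_lit 2) (.e (nat_lit 90159) (nat_lit 11) (.e (nat_lit 24657) (nat_lit 13) (.e (nat_lit 393227) (nat_lit 9) (.e (nat_lit 335958) (nat_lit 0) (.e (nat_lit 1037) (nat_lit 81) .nil))))))) (.g (nat_lit 4) .nil .nil)))) (.nd (nat_lit 5) 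
(.lf (nat_lit 107218) (.g (nat_lit 1782) (.e (nat_lit 5194) (nat_lit 294) (.e (nat_lit 57372) (nat_lit 2) (.e (nat_lit 90160) (nat_lit 11) (.e (nat_lit 24660) (nat_lit 13) .nil)))) .nil)) 
(.lf (nat_lit 107250) (.g (nat_lit 2944) (.e (nat_lit 5194) (nat_lit 294) (.e (nat_lit 57375) (nat_lit 2) (.e (nat_lit 90160) (nat_lit 11) (.e (nat_lit 24608) (nat_lit 3) (.e (nat_lit 98341) (nat_lit 20) (.e (nat_lit 221210) (nat_lit 22) (.e (nat_lit 196658) (nat_lit 12) (.e (nat_lit 57354) (nat_lit 0) .nil)))))))) (.g (nat_lit 4) .nil .nil))))) (.nd (nat_lit 4) (.nd (nat_lit 5) 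
(.lf (nat_lit 107210) (.g (nat_lit 3485) (.e (nat_lit 5194) (nat_lit 294) (.e (nat_lit 57372) (nat_lit 2) (.e (nat_lit 90160) (nat_lit 11) (.e (nat_lit 24608) (nat_lit 3) (.e (nat_lit 98342) (nat_lit 20) (.e (nat_lit 221212) (nat_lit 22) (.e (nat_lit 196659) (nat_lit 12) (.e (nat_lit 57354) (nat_lit 0) .nil)))))))) (.g (nat_lit 5) .nil .nil))) 
(.lf (nat_lit 107242) (.g (nat_lit 2313) (.e (nat_lit 5194) (nat_lit 294) (.e (nat_lit 57375) (nat_lit 2) (.e (nat_lit 90160) (nat_lit 11) (.e (nat_lit 24587) (nat_lit 0) .nil)))) .nil))) (.nd (nat_lit 5) 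
(.lf (nat_lit 107226) (.g (nat_lit 1261) (.e (nat_lit 5194) (nat_lit 294) (.e (nat_lit 57375) (nat_lit 2) (.e (nat_lit 90128) (nat_lit 9) (.e (nat_lit 297) (nat_lit 22) .nil)))) .nil)) 
(.lf (nat_lit 107258) (.g (nat_lit 1768) (.e (nat_lit 5194) (nat_lit 294) (.e (nat_lit 57375) (nat_lit 2) (.e (nat_lit 90160) (nat_lit 11) (.e (nat_lit 24654) (nat_lit 13) .nil)))) .nil))))) (.nd (nat_lit 3) (.nd (nat_lit 4) (.nd (nat_lit 5) 
(.lf (nat_lit 107206) (.g (nat_lit 2632) (.e (nat_lit 5194) (nat_lit 294) (.e (nat_lit 57372) (nat_lit 2) (.e (nat_lit 90160) (nat_lit 11) (.e (nat_lit 24608) (nat_lit 3) (.e (nat_lit 98341) (nat_lit 20) .nil))))) .nil)) 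
(.lf (nat_lit 107238) (.g (nat_lit 2313) (.e (nat_lit 5194) (nat_lit 294) (.e (nat_lit 57375) (nat_lit 2) (.e (nat_lit 90160) (nat_lit 11) (.e (nat_lit 24576) (nat_lit 0) .nil)))) .nil))) (.nd (nat_lit 5) 
(.lf (nat_lit 107222) (.g (nat_lit 2514) (.e (nat_lit 5194) (nat_lit 294) (.e (nat_lit 57374) (nat_lit 2) (.e (nat_lit 98048) (nat_lit 8) (.e (nat_lit 131116) (nat_lit 9) (.e (nat_lit 336004) (nat_lit 2) (.e (nat_lit 90172) (nat_lit 14) (.e (nat_lit 188160) (nat_lit 0) .nil))))))) (.g (nat_lit 6) .nil .nil))) 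
(.lf (nat_lit 107254) (.g (nat_lit 4716) (.e (nat_lit 5194) (nat_lit 294) (.e (nat_lit 57375) (nat_lit 2) (.e (nat_lit 90160) (nat_lit 11) (.e (nat_lit 24608) (nat_lit 3) (.e (nat_lit 98342) (nat_lit 20) (.e (nat_lit 221212) (nat_lit 22) (.e (nat_lit 196660) (nat_lit 12) (.e (nat_lit 57354) (nat_lit 0) .nil)))))))) (.g (nat_lit 7) .nil .nil))))) (.nd (nat_lit 4) (.nd (nat_lit 5) 
(.lf (nat_lit 107214) (.g (nat_lit 1448) (.e (nat_lit 5194) (nat_lit 294) (.e (nat_lit 57372) (nat_lit 2) (.e (nat_lit 90160) (nat_lit 11) (.e (nat_lit 24628) (nat_lit 9) .nil)))) .nil)) 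
(.lf (nat_lit 107246) (.g (nat_lit 2289) (.e (nat_lit 5194) (nat_lit 294) (.e (nat_lit 57375) (nat_lit 2) (.e (nat_lit 90160) (nat_lit 11) (.e (nat_lit 24606) (nat_lit 3) (.e (nat_lit 98342) (nat_lit 20) (.e (nat_lit 221212) (nat_lit 22) (.e (nat_lit 196660) (nat_lit 12) (.e (nat_lit 57354) (nat_lit 0) .nil)))))))) (.g (nat_lit 4) .nil .nil)))) (.nd (nat_lit 5) 
(.lf (nat_lit 107230) (.g (nat_lit 6770) (.e (nat_lit 5194) (nat_lit 294) (.e (nat_lit 57375) (nat_lit 2) (.e (nat_lit 90128) (nat_lit 9) (.e (nat_lit 297) (nat_lit 22) (.e (nat_lit 344133) (nat_lit 26) (.e (nat_lit 557105) (nat_lit 14) (.e (nat_lit 180252) (nat_lit 10) (.e (nat_lit 573474) (nat_lit 12) (.e (nat_lit 57354) (nat_lit 0) .nil))))))))) (.g (nat_lit 9) .nil .nil))) 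
(.lf (nat_lit 107262) (.g (nat_lit 2140) (.e (nat_lit 5194) (nat_lit 294) (.e (nat_lit 57375) (nat_lit 2) (.e (nat_lit 90160) (nat_lit 11) (.e (nat_lit 24657) (nat_lit 13) (.e (nat_lit 401152) (nat_lit 10) .nil))))) .nil))))))) (.nd (nat_lit 1) (.nd (nat_lit 2) (.nd (nat_lit 3) (.nd (nat_lit 4) (.nd (nat_lit 5) 
(.lf (nat_lit 107201) (.g (nat_lit 2199) (.e (nat_lit 5194) (nat_lit 294) (.e (nat_lit 57372) (nat_lit 2) (.e (nat_lit 90160) (nat_lit 11) (.e (nat_lit 24586) (nat_lit 0) .nil)))) .nil)) 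
(.lf (nat_lit 107233) (.g (nat_lit 2331) (.e (nat_lit 5194) (nat_lit 294) (.e (nat_lit 57375) (nat_lit 2) (.e (nat_lit 90158) (nat_lit 11) (.e (nat_lit 24608) (nat_lit 3) (.e (nat_lit 98342) (nat_lit 20) (.e (nat_lit 221210) (nat_lit 22) (.e (nat_lit 196660) (nat_lit 12) (.e (nat_lit 57354) (nat_lit 0) .nil)))))))) (.g (nat_lit 4) .nil .nil)))) (.nd (nat_lit 5) 
(.lf (nat_lit 107217) (.g (nat_lit 2137) (.e (nat_lit 5194) (nat_lit 294) (.e (nat_lit 57372) (nat_lit 2) (.e (nat_lit 90160) (nat_lit 11) (.e (nat_lit 24657) (nat_lit 13) .nil)))) .nil)) 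
(.lf (nat_lit 107249) (.g (nat_lit 2661) (.e (nat_lit 5194) (nat_lit 294) (.e (nat_lit 57375) (nat_lit 2) (.e (nat_lit 90160) (nat_lit 11) (.e (nat_lit 24608) (nat_lit 3) (.e (nat_lit 98341) (nat_lit 20) .nil))))) .nil)))) (.nd (nat_lit 4) (.nd (nat_lit 5) 
(.lf (nat_lit 107209) (.g (nat_lit 2705) (.e (nat_lit 5194) (nat_lit 294) (.e (nat_lit 57372) (nat_lit 2) (.e (nat_lit 90160) (nat_lit 11) (.e (nat_lit 24608) (nat_lit 3) (.e (nat_lit 98342) (nat_lit 20) .nil))))) .nil)) 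
(.lf (nat_lit 107241) (.g (nat_lit 2313) (.e (nat_lit 5194) (nat_lit 294) (.e (nat_lit 57375) (nat_lit 2) (.e (nat_lit 90160) (nat_lit 11) (.e (nat_lit 24586) (nat_lit 0) .nil)))) .nil))) (.nd (nat_lit 5) 
(.lf (nat_lit 107225) (.g (nat_lit 2106) (.e (nat_lit 5194) (nat_lit 294) (.e (nat_lit 57375) (nat_lit 2) (.e (nat_lit 98048) (nat_lit 6) (.e (nat_lit 81951) (nat_lit 22) (.e (nat_lit 90172) (nat_lit 14) (.e (nat_lit 188160) (nat_lit 0) .nil)))))) (.g (nat_lit 5) .nil .nil))) 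
(.lf (nat_lit 107257) (.g (nat_lit 1564) (.e (nat_lit 5194) (nat_lit 294) (.e (nat_lit 57375) (nat_lit 2) (.e (nat_lit 90160) (nat_lit 11) (.e (nat_lit 24628) (nat_lit 9) .nil)))) .nil))))) (.nd (nat_lit 3) (.nd (nat_lit 4) (.nd (nat_lit 5) 
(.lf (nat_lit 107205) (.g (nat_lit 2389) (.e (nat_lit 5194) (nat_lit 294) (.e (nat_lit 57372) (nat_lit 2) (.e (nat_lit 90160) (nat_lit 11) (.e (nat_lit 24606) (nat_lit 3) (.e (nat_lit 98342) (nat_lit 20) (.e (nat_lit 221212) (nat_lit 22) (.e (nat_lit 196660) (nat_lit 12) (.e (nat_lit 57354) (nat_lit 0) .nil)))))))) (.g (nat_lit 4) .nil .nil))) 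
(.lf (nat_lit 107237) (.g (nat_lit 422) (.e (nat_lit 5194) (nat_lit 294) (.e (nat_lit 57375) (nat_lit 2) (.e (nat_lit 90160) (nat_lit 11) .nil))) .nil))) (.nd (nat_lit 5) 
(.lf (nat_lit 107221) (.g (nat_lit 1906) (.e (nat_lit 5194) (nat_lit 294) (.e (nat_lit 57374) (nat_lit 2) (.e (nat_lit 98048) (nat_lit 6) (.e (nat_lit 81951) (nat_lit 22) (.e (nat_lit 90172) (nat_lit 14) (.e (nat_lit 188160) (nat_lit 0) .nil)))))) (.g (nat_lit 5) .nil .nil))) 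
(.lf (nat_lit 107253) (.g (nat_lit 3602) (.e (nat_lit 5194) (nat_lit 294) (.e (nat_lit 57375) (nat_lit 2) (.e (nat_lit 90160) (nat_lit 11) (.e (nat_lit 24608) (nat_lit 3) (.e (nat_lit 98342) (nat_lit 20) (.e (nat_lit 221212) (nat_lit 22) (.e (nat_lit 196659) (nat_lit 12) (.e (nat_lit 57354) (nat_lit 0) .nil)))))))) (.g (nat_lit 5) .nil .nil))))) (.nd (nat_lit 4) (.nd (nat_lit 5) 
(.lf (nat_lit 107213) (.g (nat_lit 2109) (.e (nat_lit 5194) (nat_lit 294) (.e (nat_lit 57372) (nat_lit 2) (.e (nat_lit 90160) (nat_lit 11) (.e (nat_lit 24625) (nat_lit 9) (.e (nat_lit 336367) (nat_lit 27) .nil))))) .nil)) 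
(.lf (nat_lit 107245) (.g (nat_lit 2313) (.e (nat_lit 5194) (nat_lit 294) (.e (nat_lit 57375) (nat_lit 2) (.e (nat_lit 90160) (nat_lit 11) (.e (nat_lit 24592) (nat_lit 0) .nil)))) .nil))) (.nd (nat_lit 5) 
(.lf (nat_lit 107229) (.g (nat_lit 6665) (.e (nat_lit 5194) (nat_lit 294) (.e (nat_lit 57375) (nat_lit 2) (.e (nat_lit 90128) (nat_lit 9) (.e (nat_lit 297) (nat_lit 22) (.e (nat_lit 344132) (nat_lit 26) (.e (nat_lit 557105) (nat_lit 14) (.e (nat_lit 180252) (nat_lit 10) (.e (nat_lit 573474) (nat_lit 12) (.e (nat_lit 57354) (nat_lit 0) .nil))))))))) (.g (nat_lit 9) .nil .nil))) 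
(.lf (nat_lit 107261) (.g (nat_lit 2212) (.e (nat_lit 5194) (nat_lit 294) (.e (nat_lit 57375) (nat_lit 2) (.e (nat_lit 90160) (nat_lit 11) (.e (nat_lit 24657) (nat_lit 13) (.e (nat_lit 393227) (nat_lit 9) .nil))))) .nil)))))) (.nd (nat_lit 2) (.nd (nat_lit 3) (.nd (nat_lit 4) (.nd (nat_lit 5) 
(.lf (nat_lit 107203) (.g (nat_lit 2199) (.e (nat_lit 5194) (nat_lit 294) (.e (nat_lit 57372) (nat_lit 2) (.e (nat_lit 90160) (nat_lit 11) (.e (nat_lit 24591) (nat_lit 0) .nil)))) .nil)) 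
(.lf (nat_lit 107235) (.g (nat_lit 1455) (.e (nat_lit 5194) (nat_lit 294) (.e (nat_lit 57375) (nat_lit 2) (.e (nat_lit 90159) (nat_lit 11) (.e (nat_lit 24657) (nat_lit 13) (.e (nat_lit 401152) (nat_lit 10) (.e (nat_lit 344087) (nat_lit 18) .nil)))))) (.g (nat_lit 4) .nil .nil)))) (.nd (nat_lit 5) 
(.lf (nat_lit 107219) (.g (nat_lit 3204) (.e (nat_lit 5194) (nat_lit 294) (.e (nat_lit 57372) (nat_lit 2) (.e (nat_lit 90160) (nat_lit 11) (.e (nat_lit 24665) (nat_lit 14) (.e (nat_lit 401414) (nat_lit 0) .nil))))) .nil)) 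
(.lf (nat_lit 107251) (.g (nat_lit 4772) (.e (nat_lit 5194) (nat_lit 294) (.e (nat_lit 57375) (nat_lit 2) (.e (nat_lit 90160) (nat_lit 11) (.e (nat_lit 24608) (nat_lit 3) (.e (nat_lit 98341) (nat_lit 20) (.e (nat_lit 221210) (nat_lit 22) (.e (nat_lit 196660) (nat_lit 12) (.e (nat_lit 57354) (nat_lit 0) .nil)))))))) (.g (nat_lit 6) .nil .nil))))) (.nd (nat_lit 4) (.nd (nat_lit 5) 
(.lf (nat_lit 107211) (.g (nat_lit 4591) (.e (nat_lit 5194) (nat_lit 294) (.e (nat_lit 57372) (nat_lit 2) (.e (nat_lit 90160) (nat_lit 11) (.e (nat_lit 24608) (nat_lit 3) (.e (nat_lit 98342) (nat_lit 20) (.e (nat_lit 221212) (nat_lit 22) (.e (nat_lit 196660) (nat_lit 12) (.e (nat_lit 57354) (nat_lit 0) .nil)))))))) (.g (nat_lit 7) .nil .nil))) 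
(.lf (nat_lit 107243) (.g (nat_lit 2313) (.e (nat_lit 5194) (nat_lit 294) (.e (nat_lit 57375) (nat_lit 2) (.e (nat_lit 90160) (nat_lit 11) (.e (nat_lit 24590) (nat_lit 0) .nil)))) .nil))) (.nd (nat_lit 5) 
(.lf (nat_lit 107227) (.g (nat_lit 1862) (.e (nat_lit 5194) (nat_lit 294) (.e (nat_lit 57375) (nat_lit 2) (.e (nat_lit 90128) (nat_lit 9) (.e (nat_lit 297) (nat_lit 22) (.e (nat_lit 344120) (nat_lit 21) .nil))))) .nil)) 
(.lf (nat_lit 107259) (.g (nat_lit 1646) (.e (nat_lit 5194) (nat_lit 294) (.e (nat_lit 57375) (nat_lit 2) (.e (nat_lit 90160) (nat_lit 11) (.e (nat_lit 24655) (nat_lit 13) .nil)))) .nil))))) (.nd (nat_lit 3) (.nd (nat_lit 4) (.nd (nat_lit 5) 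
(.lf (nat_lit 107207) (.g (nat_lit 2828) (.e (nat_lit 5194) (nat_lit 294) (.e (nat_lit 57372) (nat_lit 2) (.e (nat_lit 90160) (nat_lit 11) (.e (nat_lit 24608) (nat_lit 3) (.e (nat_lit 98341) (nat_lit 20) (.e (nat_lit 221210) (nat_lit 22) (.e (nat_lit 196658) (nat_lit 12) (.e (nat_lit 57354) (nat_lit 0) .nil)))))))) (.g (nat_lit 4) .nil .nil))) 
(.lf (nat_lit 107239) (.g (nat_lit 2313) (.e (nat_lit 5194) (nat_lit 294) (.e (nat_lit 57375) (nat_lit 2) (.e (nat_lit 90160) (nat_lit 11) (.e (nat_lit 24583) (nat_lit 0) .nil)))) .nil))) (.nd (nat_lit 5) 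
(.lf (nat_lit 107223) (.g (nat_lit 2774) (.e (nat_lit 5194) (nat_lit 294) (.e (nat_lit 57374) (nat_lit 2) (.e (nat_lit 98048) (nat_lit 8) (.e (nat_lit 131116) (nat_lit 9) (.e (nat_lit 336012) (nat_lit 2) (.e (nat_lit 90172) (nat_lit 14) (.e (nat_lit 188160) (nat_lit 0) .nil))))))) (.g (nat_lit 6) .nil .nil))) 
(.lf (nat_lit 107255) (.g (nat_lit 1709) (.e (nat_lit 5194) (nat_lit 294) (.e (nat_lit 57375) (nat_lit 2) (.e (nat_lit 90160) (nat_lit 11) (.e (nat_lit 24625) (nat_lit 9) .nil)))) .nil)))) (.nd (nat_lit 4) (.nd (nat_lit 5) 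
(.lf (nat_lit 107215) (.g (nat_lit 2236) (.e (nat_lit 5194) (nat_lit 294) (.e (nat_lit 57372) (nat_lit 2) (.e (nat_lit 90160) (nat_lit 11) (.e (nat_lit 24628) (nat_lit 9) (.e (nat_lit 336367) (nat_lit 27) (.e (nat_lit 426537) (nat_lit 28) (.e (nat_lit 344097) (nat_lit 18) .nil))))))) (.g (nat_lit 4) .nil .nil))) 
(.lf (nat_lit 107247) (.g (nat_lit 2251) (.e (nat_lit 5194) (nat_lit 294) (.e (nat_lit 57375) (nat_lit 2) (.e (nat_lit 90160) (nat_lit 11) (.e (nat_lit 24607) (nat_lit 3) .nil)))) .nil))) (.nd (nat_lit 5) 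
(.lf (nat_lit 107231) (.g (nat_lit 1221) (.e (nat_lit 5194) (nat_lit 294) (.e (nat_lit 57375) (nat_lit 2) (.e (nat_lit 90157) (nat_lit 11) (.e (nat_lit 24657) (nat_lit 13) .nil)))) .nil)) 
(.lf (nat_lit 107263) (.g (nat_lit 1647) (.e (nat_lit 5194) (nat_lit 294) (.e (nat_lit 57375) (nat_lit 2) (.e (nat_lit 90160) (nat_lit 11) (.e (nat_lit 24658) (nat_lit 13) .nil)))) .nil))))))))

noncomputable def tv1456 : DT := (.nd (nat_lit 0) (.nd (nat_lit 1) (.nd (nat_lit 2) (.nd (nat_lit 3) (.nd (nat_lit 4) (.nd (nat_lit 5) 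
(.lf (nat_lit 107264) (.g (nat_lit 1963) (.e (nat_lit 5194) (nat_lit 294) (.e (nat_lit 57375) (nat_lit 2) (.e (nat_lit 90160) (nat_lit 11) (.e (nat_lit 24659) (nat_lit 13) .nil)))) .nil)) 
(.lf (nat_lit 107296) (.g (nat_lit 1937) (.e (nat_lit 5194) (nat_lit 294) (.e (nat_lit 57407) (nat_lit 12) (.e (nat_lit 336456) (nat_lit 34) (.e (nat_lit 483395) (nat_lit 24) (.e (nat_lit 344133) (nat_lit 26) .nil))))) .nil))) (.nd (nat_lit 5) 
(.lf (nat_lit 107280) (.g (nat_lit 2366) (.e (nat_lit 5194) (nat_lit 294) (.e (nat_lit 57383) (nat_lit 4) (.e (nat_lit 106534) (nat_lit 11) (.e (nat_lit 16468) (nat_lit 13) (.e (nat_lit 483394) (nat_lit 24) (.e (nat_lit 344097) (nat_lit 18) .nil)))))) (.g (nat_lit 0) .nil .nil))) 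
(.lf (nat_lit 107312) (.g (nat_lit 1951) (.e (nat_lit 5195) (nat_lit 294) (.e (nat_lit 57363) (nat_lit 1) (.e (nat_lit 57854) (nat_lit 252) (.e (nat_lit 57412) (nat_lit 12) (.e (nat_lit 336060) (nat_lit 7) .nil))))) .nil)))) (.nd (nat_lit 4) (.nd (nat_lit 5) 
(.lf (nat_lit 107272) (.g (nat_lit 1331) (.e (nat_lit 5194) (nat_lit 294) (.e (nat_lit 57377) (nat_lit 3) (.e (nat_lit 98317) (nat_lit 9) (.e (nat_lit 336215) (nat_lit 13) (.e (nat_lit 393227) (nat_lit 9) .nil))))) .nil)) 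
(.lf (nat_lit 107304) (.g (nat_lit 3709) (.e (nat_lit 5195) (nat_lit 294) (.e (nat_lit 57363) (nat_lit 1) (.e (nat_lit 57847) (nat_lit 252) (.e (nat_lit 57410) (nat_lit 12) (.e (nat_lit 336053) (nat_lit 7) (.e (nat_lit 319533) (nat_lit 16) (.e (nat_lit 286753) (nat_lit 10) (.e (nat_lit 344097) (nat_lit 18) .nil)))))))) (.g (nat_lit 0) .nil .nil)))) (.nd (nat_lit 5) 
(.lf (nat_lit 107288) (.g (nat_lit 1727) (.e (nat_lit 5194) (nat_lit 294) (.e (nat_lit 57386) (nat_lit 4) (.e (nat_lit 106536) (nat_lit 11) (.e (nat_lit 16438) (nat_lit 9) (.e (nat_lit 426546) (nat_lit 30) (.e (nat_lit 360452) (nat_lit 0) .nil)))))) (.g (nat_lit 5) .nil .nil))) 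
(.lf (nat_lit 107320) (.g (nat_lit 2083) (.e (nat_lit 5195) (nat_lit 294) (.e (nat_lit 57365) (nat_lit 1) (.e (nat_lit 57852) (nat_lit 252) (.e (nat_lit 57412) (nat_lit 12) (.e (nat_lit 336058) (nat_lit 7) (.e (nat_lit 319533) (nat_lit 16) (.e (nat_lit 286753) (nat_lit 10) (.e (nat_lit 344097) (nat_lit 18) .nil)))))))) (.g (nat_lit 4) .nil .nil)))))) 
(.nd (nat_lit 3) (.nd (nat_lit 4) (.nd (nat_lit 5) 
(.lf (nat_lit 107268) (.g (nat_lit 4090) (.e (nat_lit 5194) (nat_lit 294) (.e (nat_lit 57377) (nat_lit 3) (.e (nat_lit 98317) (nat_lit 9) (.e (nat_lit 336076) (nat_lit 9) .nil)))) .nil)) 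
(.lf (nat_lit 107300) (.g (nat_lit 3275) (.e (nat_lit 5194) (nat_lit 294) (.e (nat_lit 57445) (nat_lit 19) (.e (nat_lit 393229) (nat_lit 9) (.e (nat_lit 336088) (nat_lit 9) .nil)))) .nil))) (.nd (nat_lit 5) 
(.lf (nat_lit 107284) (.g (nat_lit 2216) (.e (nat_lit 5194) (nat_lit 294) (.e (nat_lit 57385) (nat_lit 4) (.e (nat_lit 106536) (nat_lit 11) (.e (nat_lit 16468) (nat_lit 13) (.e (nat_lit 483395) (nat_lit 24) (.e (nat_lit 344097) (nat_lit 18) .nil)))))) (.g (nat_lit 0) .nil .nil))) 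
(.lf (nat_lit 107316) (.g (nat_lit 2780) (.e (nat_lit 5195) (nat_lit 294) (.e (nat_lit 57365) (nat_lit 1) (.e (nat_lit 57851) (nat_lit 252) (.e (nat_lit 57412) (nat_lit 12) (.e (nat_lit 336061) (nat_lit 7) (.e (nat_lit 319531) (nat_lit 16) (.e (nat_lit 286748) (nat_lit 9) (.e (nat_lit 335925) (nat_lit 0) (.e (nat_lit 1023) (nat_lit 81) .nil))))))))) (.g (nat_lit 7) .nil .nil))))) 
(.nd (nat_lit 4) (.nd (nat_lit 5) 
(.lf (nat_lit 107276) (.g (nat_lit 4213) (.e (nat_lit 5194) (nat_lit 294) (.e (nat_lit 57377) (nat_lit 3) (.e (nat_lit 98317) (nat_lit 9) (.e (nat_lit 336222) (nat_lit 13) .nil)))) .nil)) 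
(.lf (nat_lit 107308) (.g (nat_lit 3757) (.e (nat_lit 5195) (nat_lit 294) (.e (nat_lit 57363) (nat_lit 1) (.e (nat_lit 57847) (nat_lit 252) (.e (nat_lit 57413) (nat_lit 12) (.e (nat_lit 336060) (nat_lit 7) (.e (nat_lit 319534) (nat_lit 16) (.e (nat_lit 286756) (nat_lit 10) (.e (nat_lit 344097) (nat_lit 18) .nil)))))))) (.g (nat_lit 0) .nil .nil)))) (.nd (nat_lit 5) 
(.lf (nat_lit 107292) (.g (nat_lit 735) (.e (nat_lit 5194) (nat_lit 294) (.e (nat_lit 57407) (nat_lit 12) (.e (nat_lit 336367) (nat_lit 27) .nil))) .nil)) 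
(.lf (nat_lit 107324) (.g (nat_lit 3317) (.e (nat_lit 5195) (nat_lit 294) (.e (nat_lit 57365) (nat_lit 1) (.e (nat_lit 57852) (nat_lit 252) (.e (nat_lit 57413) (nat_lit 12) (.e (nat_lit 336060) (nat_lit 7) (.e (nat_lit 319534) (nat_lit 16) (.e (nat_lit 286756) (nat_lit 10) (.e (nat_lit 344097) (nat_lit 18) .nil)))))))) (.g (nat_lit 6) .nil .nil))))))) 
(.nd (nat_lit 2) (.nd (nat_lit 3) (.nd (nat_lit 4) (.nd (nat_lit 5) 
(.lf (nat_lit 107266) (.g (nat_lit 3109) (.e (nat_lit 5194) (nat_lit 294) (.e (nat_lit 57375) (nat_lit 2) (.e (nat_lit 90160) (nat_lit 11) (.e (nat_lit 24665) (nat_lit 14) (.e (nat_lit 401468) (nat_lit 27) .nil))))) .nil)) 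
(.lf (nat_lit 107298) (.g (nat_lit 590) (.e (nat_lit 5194) (nat_lit 294) (.e (nat_lit 57445) (nat_lit 19) (.e (nat_lit 393229) (nat_lit 9) .nil))) .nil))) (.nd (nat_lit 5) 
(.lf (nat_lit 107282) (.g (nat_lit 1074) (.e (nat_lit 5194) (nat_lit 294) (.e (nat_lit 57385) (nat_lit 4) (.e (nat_lit 106534) (nat_lit 11) (.e (nat_lit 16437) (nat_lit 9) (.e (nat_lit 426546) (nat_lit 30) (.e (nat_lit 360452) (nat_lit 0) .nil)))))) (.g (nat_lit 4) .nil .nil))) 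
(.lf (nat_lit 107314) (.g (nat_lit 3019) (.e (nat_lit 5195) (nat_lit 294) (.e (nat_lit 57365) (nat_lit 1) (.e (nat_lit 57829) (nat_lit 250) (.e (nat_lit 1201) (nat_lit 88) (.e (nat_lit 65586) (nat_lit 7) (.e (nat_lit 319531) (nat_lit 16) (.e (nat_lit 286748) (nat_lit 9) (.e (nat_lit 335925) (nat_lit 0) (.e (nat_lit 1023) (nat_lit 81) .nil))))))))) (.g (nat_lit 7) .nil .nil))))) 
(.nd (nat_lit 4) (.nd (nat_lit 5) 
(.lf (nat_lit 107274) (.g (nat_lit 1580) (.e (nat_lit 5194) (nat_lit 294) (.e (nat_lit 57377) (nat_lit 3) (.e (nat_lit 98317) (nat_lit 9) (.e (nat_lit 336215) (nat_lit 13) (.e (nat_lit 401152) (nat_lit 10) (.e (nat_lit 344087) (nat_lit 18) .nil)))))) (.g (nat_lit 4) .nil .nil))) 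
(.lf (nat_lit 107306) (.g (nat_lit 3450) (.e (nat_lit 5195) (nat_lit 294) (.e (nat_lit 57363) (nat_lit 1) (.e (nat_lit 57847) (nat_lit 252) (.e (nat_lit 57412) (nat_lit 12) (.e (nat_lit 336061) (nat_lit 7) (.e (nat_lit 319531) (nat_lit 16) (.e (nat_lit 286751) (nat_lit 10) (.e (nat_lit 344097) (nat_lit 18) .nil)))))))) (.g (nat_lit 6) .nil .nil)))) (.nd (nat_lit 5) 
(.lf (nat_lit 107290) (.g (nat_lit 2534) (.e (nat_lit 5194) (nat_lit 294) (.e (nat_lit 57386) (nat_lit 4) (.e (nat_lit 106536) (nat_lit 11) (.e (nat_lit 16468) (nat_lit 13) (.e (nat_lit 483394) (nat_lit 24) (.e (nat_lit 344097) (nat_lit 18) .nil)))))) (.g (nat_lit 6) .nil .nil))) 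
(.lf (nat_lit 107322) (.g (nat_lit 2403) (.e (nat_lit 5195) (nat_lit 294) (.e (nat_lit 57365) (nat_lit 1) (.e (nat_lit 57852) (nat_lit 252) (.e (nat_lit 57412) (nat_lit 12) (.e (nat_lit 336061) (nat_lit 7) (.e (nat_lit 319531) (nat_lit 16) (.e (nat_lit 286751) (nat_lit 10) (.e (nat_lit 344097) (nat_lit 18) .nil)))))))) (.g (nat_lit 4) .nil .nil)))))) 
(.nd (nat_lit 3) (.nd (nat_lit 4) (.nd (nat_lit 5) 
(.lf (nat_lit 107270) (.g (nat_lit 4102) (.e (nat_lit 5194) (nat_lit 294) (.e (nat_lit 57377) (nat_lit 3) (.e (nat_lit 98317) (nat_lit 9) (.e (nat_lit 336213) (nat_lit 13) .nil)))) .nil)) 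
(.lf (nat_lit 107302) (.g (nat_lit 1606) (.e (nat_lit 5195) (nat_lit 294) (.e (nat_lit 57348) (nat_lit 0) (.e (nat_lit 2031) (nat_lit 140) (.e (nat_lit 688178) (nat_lit 16) (.e (nat_lit 65590) (nat_lit 9) (.e (nat_lit 336433) (nat_lit 30) (.e (nat_lit 458496) (nat_lit 0) .nil))))))) (.g (nat_lit 4) .nil .nil)))) (.nd (nat_lit 5) 
(.lf (nat_lit 107286) (.g (nat_lit 2356) (.e (nat_lit 5194) (nat_lit 294) (.e (nat_lit 57386) (nat_lit 4) (.e (nat_lit 106534) (nat_lit 11) (.e (nat_lit 16468) (nat_lit 13) (.e (nat_lit 483394) (nat_lit 24) (.e (nat_lit 344097) (nat_lit 18) .nil)))))) (.g (nat_lit 0) .nil .nil))) 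
(.lf (nat_lit 107318) (.g (nat_lit 2444) (.e (nat_lit 5195) (nat_lit 294) (.e (nat_lit 57365) (nat_lit 1) (.e (nat_lit 57851) (nat_lit 252) (.e (nat_lit 57412) (nat_lit 12) (.e (nat_lit 336061) (nat_lit 7) (.e (nat_lit 319531) (nat_lit 16) (.e (nat_lit 286748) (nat_lit 9) (.e (nat_lit 335938) (nat_lit 0) (.e (nat_lit 1023) (nat_lit 81) .nil))))))))) (.g (nat_lit 6) .nil .nil))))) 
(.nd (nat_lit 4) (.nd (nat_lit 5) 
(.lf (nat_lit 107278) (.g (nat_lit 845) (.e (nat_lit 5194) (nat_lit 294) (.e (nat_lit 57379) (nat_lit 3) (.e (nat_lit 98313) (nat_lit 9) .nil))) .nil)) 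
(.lf (nat_lit 107310) (.g (nat_lit 2104) (.e (nat_lit 5195) (nat_lit 294) (.e (nat_lit 57363) (nat_lit 1) (.e (nat_lit 57849) (nat_lit 252) (.e (nat_lit 57412) (nat_lit 12) (.e (nat_lit 336058) (nat_lit 7) .nil))))) .nil))) (.nd (nat_lit 5) 
(.lf (nat_lit 107294) (.g (nat_lit 1825) (.e (nat_lit 5194) (nat_lit 294) (.e (nat_lit 57407) (nat_lit 12) (.e (nat_lit 336454) (nat_lit 34) (.e (nat_lit 483383) (nat_lit 23) .nil)))) .nil)) 
(.lf (nat_lit 107326) (.g (nat_lit 3322) (.e (nat_lit 5195) (nat_lit 294) (.e (nat_lit 57365) (nat_lit 1) (.e (nat_lit 57852) (nat_lit 252) (.e (nat_lit 57419) (nat_lit 12) (.e (nat_lit 336059) (nat_lit 7) (.e (nat_lit 319533) (nat_lit 16) (.e (nat_lit 286753) (nat_lit 10) (.e (nat_lit 344097) (nat_lit 18) .nil)))))))) (.g (nat_lit 7) .nil .nil)))))))) 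
(.nd (nat_lit 1) (.nd (nat_lit 2) (.nd (nat_lit 3) (.nd (nat_lit 4) (.nd (nat_lit 5) 
(.lf (nat_lit 107265) (.g (nat_lit 1898) (.e (nat_lit 5194) (nat_lit 294) (.e (nat_lit 57375) (nat_lit 2) (.e (nat_lit 90160) (nat_lit 11) (.e (nat_lit 24660) (nat_lit 13) .nil)))) .nil)) 
(.lf (nat_lit 107297) (.g (nat_lit 1574) (.e (nat_lit 5194) (nat_lit 294) (.e (nat_lit 57407) (nat_lit 12) (.e (nat_lit 336456) (nat_lit 34) (.e (nat_lit 483396) (nat_lit 24) .nil)))) .nil))) (.nd (nat_lit 5) 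
(.lf (nat_lit 107281) (.g (nat_lit 2209) (.e (nat_lit 5194) (nat_lit 294) (.e (nat_lit 57383) (nat_lit 4) (.e (nat_lit 106534) (nat_lit 11) (.e (nat_lit 16468) (nat_lit 13) (.e (nat_lit 483395) (nat_lit 24) (.e (nat_lit 344097) (nat_lit 18) .nil)))))) (.g (nat_lit 0) .nil .nil))) 
(.lf (nat_lit 107313) (.g (nat_lit 1774) (.e (nat_lit 5195) (nat_lit 294) (.e (nat_lit 57363) (nat_lit 1) (.e (nat_lit 57854) (nat_lit 252) (.e (nat_lit 57413) (nat_lit 12) (.e (nat_lit 336060) (nat_lit 7) (.e (nat_lit 319533) (nat_lit 16) (.e (nat_lit 286753) (nat_lit 10) (.e (nat_lit 344097) (nat_lit 18) .nil)))))))) (.g (nat_lit 4) .nil .nil))))) (.nd (nat_lit 4) (.nd (nat_lit 5) 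
(.lf (nat_lit 107273) (.g (nat_lit 1230) (.e (nat_lit 5194) (nat_lit 294) (.e (nat_lit 57377) (nat_lit 3) (.e (nat_lit 98317) (nat_lit 9) (.e (nat_lit 336215) (nat_lit 13) (.e (nat_lit 401152) (nat_lit 10) .nil))))) .nil)) 
(.lf (nat_lit 107305) (.g (nat_lit 1821) (.e (nat_lit 5195) (nat_lit 294) (.e (nat_lit 57363) (nat_lit 1) (.e (nat_lit 57847) (nat_lit 252) (.e (nat_lit 57411) (nat_lit 12) (.e (nat_lit 343808) (nat_lit 7) (.e (nat_lit 319534) (nat_lit 16) (.e (nat_lit 286756) (nat_lit 10) (.e (nat_lit 344097) (nat_lit 18) .nil)))))))) (.g (nat_lit 4) .nil .nil)))) (.nd (nat_lit 5) 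
(.lf (nat_lit 107289) (.g (nat_lit 2478) (.e (nat_lit 5194) (nat_lit 294) (.e (nat_lit 57386) (nat_lit 4) (.e (nat_lit 106536) (nat_lit 11) (.e (nat_lit 16467) (nat_lit 13) (.e (nat_lit 483395) (nat_lit 24) (.e (nat_lit 344097) (nat_lit 18) .nil)))))) (.g (nat_lit 6) .nil .nil))) 
(.lf (nat_lit 107321) (.g (nat_lit 3225) (.e (nat_lit 5195) (nat_lit 294) (.e (nat_lit 57365) (nat_lit 1) (.e (nat_lit 57852) (nat_lit 252) (.e (nat_lit 57412) (nat_lit 12) (.e (nat_lit 336060) (nat_lit 7) (.e (nat_lit 319533) (nat_lit 16) (.e (nat_lit 286753) (nat_lit 10) (.e (nat_lit 344097) (nat_lit 18) .nil)))))))) (.g (nat_lit 6) .nil .nil)))))) 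
(.nd (nat_lit 3) (.nd (nat_lit 4) (.nd (nat_lit 5) 
(.lf (nat_lit 107269) (.g (nat_lit 3779) (.e (nat_lit 5194) (nat_lit 294) (.e (nat_lit 57377) (nat_lit 3) (.e (nat_lit 98317) (nat_lit 9) (.e (nat_lit 336088) (nat_lit 9) .nil)))) .nil)) 
(.lf (nat_lit 107301) (.g (nat_lit 1904) (.e (nat_lit 5195) (nat_lit 294) (.e (nat_lit 57348) (nat_lit 0) (.e (nat_lit 2031) (nat_lit 140) (.e (nat_lit 688178) (nat_lit 16) (.e (nat_lit 65590) (nat_lit 9) (.e (nat_lit 336432) (nat_lit 30) (.e (nat_lit 458496) (nat_lit 0) .nil))))))) (.g (nat_lit 4) .nil .nil)))) (.nd (nat_lit 5) 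
(.lf (nat_lit 107285) (.g (nat_lit 2356) (.e (nat_lit 5194) (nat_lit 294) (.e (nat_lit 57386) (nat_lit 4) (.e (nat_lit 106534) (nat_lit 11) (.e (nat_lit 16467) (nat_lit 13) (.e (nat_lit 483395) (nat_lit 24) (.e (nat_lit 344097) (nat_lit 18) .nil)))))) (.g (nat_lit 0) .nil .nil))) 
(.lf (nat_lit 107317) (.g (nat_lit 1513) (.e (nat_lit 5195) (nat_lit 294) (.e (nat_lit 57365) (nat_lit 1) (.e (nat_lit 57851) (nat_lit 252) (.e (nat_lit 57412) (nat_lit 12) (.e (nat_lit 336061) (nat_lit 7) (.e (nat_lit 319531) (nat_lit 16) (.e (nat_lit 286748) (nat_lit 9) (.e (nat_lit 335928) (nat_lit 0) (.e (nat_lit 1023) (nat_lit 81) .nil))))))))) (.g (nat_lit 4) .nil .nil))))) 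
(.nd (nat_lit 4) (.nd (nat_lit 5) 
(.lf (nat_lit 107277) (.g (nat_lit 3823) (.e (nat_lit 5194) (nat_lit 294) (.e (nat_lit 57377) (nat_lit 3) (.e (nat_lit 98317) (nat_lit 9) (.e (nat_lit 336223) (nat_lit 13) .nil)))) .nil)) 
(.lf (nat_lit 107309) (.g (nat_lit 1284) (.e (nat_lit 5195) (nat_lit 294) (.e (nat_lit 57363) (nat_lit 1) (.e (nat_lit 57847) (nat_lit 252) (.e (nat_lit 57416) (nat_lit 12) (.e (nat_lit 336054) (nat_lit 7) (.e (nat_lit 319533) (nat_lit 16) (.e (nat_lit 286753) (nat_lit 10) (.e (nat_lit 344097) (nat_lit 18) .nil)))))))) (.g (nat_lit 4) .nil .nil)))) (.nd (nat_lit 5) 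
(.lf (nat_lit 107293) (.g (nat_lit 1852) (.e (nat_lit 5194) (nat_lit 294) (.e (nat_lit 57407) (nat_lit 12) (.e (nat_lit 336454) (nat_lit 34) (.e (nat_lit 483380) (nat_lit 23) .nil)))) .nil)) 
(.lf (nat_lit 107325) (.g (nat_lit 1373) (.e (nat_lit 5195) (nat_lit 294) (.e (nat_lit 57365) (nat_lit 1) (.e (nat_lit 57852) (nat_lit 252) (.e (nat_lit 57415) (nat_lit 12) (.e (nat_lit 336054) (nat_lit 7) (.e (nat_lit 319533) (nat_lit 16) (.e (nat_lit 286753) (nat_lit 10) (.e (nat_lit 344097) (nat_lit 18) .nil)))))))) (.g (nat_lit 4) .nil .nil))))))) 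
(.nd (nat_lit 2) (.nd (nat_lit 3) (.nd (nat_lit 4) (.nd (nat_lit 5) 
(.lf (nat_lit 107267) (.g (nat_lit 3961) (.e (nat_lit 5194) (nat_lit 294) (.e (nat_lit 57377) (nat_lit 3) (.e (nat_lit 98317) (nat_lit 9) (.e (nat_lit 336027) (nat_lit 3) .nil)))) .nil)) 
(.lf (nat_lit 107299) (.g (nat_lit 3410) (.e (nat_lit 5194) (nat_lit 294) (.e (nat_lit 57445) (nat_lit 19) (.e (nat_lit 393229) (nat_lit 9) (.e (nat_lit 336076) (nat_lit 9) .nil)))) .nil))) (.nd (nat_lit 5) 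
(.lf (nat_lit 107283) (.g (nat_lit 2368) (.e (nat_lit 5194) (nat_lit 294) (.e (nat_lit 57385) (nat_lit 4) (.e (nat_lit 106536) (nat_lit 11) (.e (nat_lit 16468) (nat_lit 13) (.e (nat_lit 483394) (nat_lit 24) (.e (nat_lit 344097) (nat_lit 18) .nil)))))) (.g (nat_lit 0) .nil .nil))) 
(.lf (nat_lit 107315) (.g (nat_lit 3303) (.e (nat_lit 5195) (nat_lit 294) (.e (nat_lit 57365) (nat_lit 1) (.e (nat_lit 57830) (nat_lit 250) (.e (nat_lit 1201) (nat_lit 88) (.e (nat_lit 65586) (nat_lit 7) (.e (nat_lit 319531) (nat_lit 16) (.e (nat_lit 286748) (nat_lit 9) (.e (nat_lit 335925) (nat_lit 0) (.e (nat_lit 1023) (nat_lit 81) .nil))))))))) (.g (nat_lit 7) .nil .nil))))) 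
(.nd (nat_lit 4) (.nd (nat_lit 5) 
(.lf (nat_lit 107275) (.g (nat_lit 1481) (.e (nat_lit 5194) (nat_lit 294) (.e (nat_lit 57377) (nat_lit 3) (.e (nat_lit 98317) (nat_lit 9) (.e (nat_lit 336215) (nat_lit 13) (.e (nat_lit 401152) (nat_lit 10) (.e (nat_lit 352000) (nat_lit 18) .nil)))))) (.g (nat_lit 4) .nil .nil))) 
(.lf (nat_lit 107307) (.g (nat_lit 3385) (.e (nat_lit 5195) (nat_lit 294) (.e (nat_lit 57363) (nat_lit 1) (.e (nat_lit 57847) (nat_lit 252) (.e (nat_lit 57413) (nat_lit 12) (.e (nat_lit 336060) (nat_lit 7) (.e (nat_lit 319533) (nat_lit 16) (.e (nat_lit 286753) (nat_lit 10) (.e (nat_lit 344097) (nat_lit 18) .nil)))))))) (.g (nat_lit 0) .nil .nil)))) (.nd (nat_lit 5) 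
(.lf (nat_lit 107291) (.g (nat_lit 1886) (.e (nat_lit 5194) (nat_lit 294) (.e (nat_lit 57388) (nat_lit 5) (.e (nat_lit 114698) (nat_lit 11) (.e (nat_lit 426199) (nat_lit 9) (.e (nat_lit 426546) (nat_lit 30) (.e (nat_lit 360452) (nat_lit 0) .nil)))))) (.g (nat_lit 4) .nil .nil))) 
(.lf (nat_lit 107323) (.g (nat_lit 2919) (.e (nat_lit 5195) (nat_lit 294) (.e (nat_lit 57365) (nat_lit 1) (.e (nat_lit 57852) (nat_lit 252) (.e (nat_lit 57413) (nat_lit 12) (.e (nat_lit 336060) (nat_lit 7) (.e (nat_lit 319533) (nat_lit 16) (.e (nat_lit 286753) (nat_lit 10) (.e (nat_lit 344097) (nat_lit 18) .nil)))))))) (.g (nat_lit 6) .nil .nil)))))) 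
(.nd (nat_lit 3) (.nd (nat_lit 4) (.nd (nat_lit 5) 
(.lf (nat_lit 107271) (.g (nat_lit 3807) (.e (nat_lit 5194) (nat_lit 294) (.e (nat_lit 57377) (nat_lit 3) (.e (nat_lit 98317) (nat_lit 9) (.e (nat_lit 336214) (nat_lit 13) .nil)))) .nil)) 
(.lf (nat_lit 107303) (.g (nat_lit 1722) (.e (nat_lit 5195) (nat_lit 294) (.e (nat_lit 57348) (nat_lit 0) (.e (nat_lit 2031) (nat_lit 140) (.e (nat_lit 688178) (nat_lit 16) (.e (nat_lit 65590) (nat_lit 9) (.e (nat_lit 336434) (nat_lit 30) (.e (nat_lit 458496) (nat_lit 0) .nil))))))) (.g (nat_lit 4) .nil .nil)))) (.nd (nat_lit 5) 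
(.lf (nat_lit 107287) (.g (nat_lit 2199) (.e (nat_lit 5194) (nat_lit 294) (.e (nat_lit 57386) (nat_lit 4) (.e (nat_lit 106534) (nat_lit 11) (.e (nat_lit 16468) (nat_lit 13) (.e (nat_lit 483395) (nat_lit 24) (.e (nat_lit 344097) (nat_lit 18) .nil)))))) (.g (nat_lit 0) .nil .nil))) 
(.lf (nat_lit 107319) (.g (nat_lit 5105) (.e (nat_lit 5195) (nat_lit 294) (.e (nat_lit 57365) (nat_lit 1) (.e (nat_lit 57851) (nat_lit 252) (.e (nat_lit 57412) (nat_lit 12) (.e (nat_lit 336061) (nat_lit 7) (.e (nat_lit 319534) (nat_lit 16) (.e (nat_lit 286756) (nat_lit 10) (.e (nat_lit 344097) (nat_lit 18) .nil)))))))) (.g (nat_lit 0) .nil .nil))))) (.nd (nat_lit 4) (.nd (nat_lit 5) 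
(.lf (nat_lit 107279) (.g (nat_lit 2349) (.e (nat_lit 5194) (nat_lit 294) (.e (nat_lit 57383) (nat_lit 4) (.e (nat_lit 106534) (nat_lit 11) (.e (nat_lit 16467) (nat_lit 13) (.e (nat_lit 483395) (nat_lit 24) (.e (nat_lit 344097) (nat_lit 18) .nil)))))) (.g (nat_lit 0) .nil .nil))) 
(.lf (nat_lit 107311) (.g (nat_lit 3527) (.e (nat_lit 5195) (nat_lit 294) (.e (nat_lit 57363) (nat_lit 1) (.e (nat_lit 57849) (nat_lit 252) (.e (nat_lit 57413) (nat_lit 12) (.e (nat_lit 336060) (nat_lit 7) (.e (nat_lit 319533) (nat_lit 16) (.e (nat_lit 286753) (nat_lit 10) (.e (nat_lit 344097) (nat_lit 18) .nil)))))))) (.g (nat_lit 7) .nil .nil)))) (.nd (nat_lit 5) 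
(.lf (nat_lit 107295) (.g (nat_lit 1475) (.e (nat_lit 5194) (nat_lit 294) (.e (nat_lit 57407) (nat_lit 12) (.e (nat_lit 336456) (nat_lit 34) (.e (nat_lit 483395) (nat_lit 24) .nil)))) .nil)) 
(.lf (nat_lit 107327) (.g (nat_lit 3010) (.e (nat_lit 5195) (nat_lit 294) (.e (nat_lit 57365) (nat_lit 1) (.e (nat_lit 57854) (nat_lit 252) (.e (nat_lit 57404) (nat_lit 12) (.e (nat_lit 336060) (nat_lit 7) (.e (nat_lit 319533) (nat_lit 16) (.e (nat_lit 286753) (nat_lit 10) (.e (nat_lit 344097) (nat_lit 18) .nil)))))))) (.g (nat_lit 7) .nil .nil)))))))))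

noncomputable def tv1457 : DT := (.nd (nat_lit 0) (.nd (nat_lit 1) (.nd (nat_lit 2) (.nd (nat_lit 3) (.nd (nat_lit 4) (.nd (nat_lit 5) 
(.lf (nat_lit 107328) (.g (nat_lit 1979) (.e (nat_lit 5195) (nat_lit 294) (.e (nat_lit 57365) (nat_lit 1) (.e (nat_lit 57854) (nat_lit 252) (.e (nat_lit 57412) (nat_lit 12) (.e (nat_lit 336058) (nat_lit 7) (.e (nat_lit 319533) (nat_lit 16) (.e (nat_lit 286753) (nat_lit 10) (.e (nat_lit 344097) (nat_lit 18) .nil)))))))) (.g (nat_lit 4) .nil .nil))) 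
(.lf (nat_lit 107360) (.g (nat_lit 4088) (.e (nat_lit 5195) (nat_lit 294) (.e (nat_lit 57368) (nat_lit 1) (.e (nat_lit 57852) (nat_lit 252) (.e (nat_lit 57412) (nat_lit 12) (.e (nat_lit 336060) (nat_lit 7) (.e (nat_lit 319534) (nat_lit 16) (.e (nat_lit 286756) (nat_lit 10) (.e (nat_lit 344097) (nat_lit 18) .nil)))))))) (.g (nat_lit 8) .nil .nil)))) (.nd (nat_lit 5) 
(.lf (nat_lit 107344) (.g (nat_lit 3222) (.e (nat_lit 5195) (nat_lit 294) (.e (nat_lit 57367) (nat_lit 1) (.e (nat_lit 57848) (nat_lit 252) (.e (nat_lit 57415) (nat_lit 12) (.e (nat_lit 336060) (nat_lit 7) (.e (nat_lit 319534) (nat_lit 16) (.e (nat_lit 286756) (nat_lit 10) (.e (nat_lit 344097) (nat_lit 18) .nil)))))))) (.g (nat_lit 7) .nil .nil))) 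
(.lf (nat_lit 107376) (.g (nat_lit 274) (.e (nat_lit 5195) (nat_lit 294) (.e (nat_lit 57372) (nat_lit 2) (.e (nat_lit 90158) (nat_lit 11) .nil))) .nil)))) (.nd (nat_lit 4) (.nd (nat_lit 5) 
(.lf (nat_lit 107336) (.g (nat_lit 3391) (.e (nat_lit 5195) (nat_lit 294) (.e (nat_lit 57367) (nat_lit 1) (.e (nat_lit 57846) (nat_lit 252) (.e (nat_lit 57412) (nat_lit 12) (.e (nat_lit 336060) (nat_lit 7) (.e (nat_lit 319533) (nat_lit 16) (.e (nat_lit 286753) (nat_lit 10) (.e (nat_lit 344097) (nat_lit 18) .nil)))))))) (.g (nat_lit 7) .nil .nil))) 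
(.lf (nat_lit 107368) (.g (nat_lit 2437) (.e (nat_lit 5195) (nat_lit 294) (.e (nat_lit 57368) (nat_lit 1) (.e (nat_lit 57854) (nat_lit 252) (.e (nat_lit 57412) (nat_lit 12) (.e (nat_lit 336054) (nat_lit 7) (.e (nat_lit 319533) (nat_lit 16) (.e (nat_lit 286753) (nat_lit 10) (.e (nat_lit 344097) (nat_lit 18) .nil)))))))) (.g (nat_lit 5) .nil .nil)))) (.nd (nat_lit 5) 
(.lf (nat_lit 107352) (.g (nat_lit 3694) (.e (nat_lit 5195) (nat_lit 294) (.e (nat_lit 57368) (nat_lit 1) (.e (nat_lit 57851) (nat_lit 252) (.e (nat_lit 57412) (nat_lit 12) (.e (nat_lit 336058) (nat_lit 7) (.e (nat_lit 319533) (nat_lit 16) (.e (nat_lit 286753) (nat_lit 10) (.e (nat_lit 344097) (nat_lit 18) .nil)))))))) (.g (nat_lit 0) .nil .nil))) 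
(.lf (nat_lit 107384) (.g (nat_lit 2971) (.e (nat_lit 5195) (nat_lit 294) (.e (nat_lit 57372) (nat_lit 2) (.e (nat_lit 90158) (nat_lit 11) (.e (nat_lit 24628) (nat_lit 9) (.e (nat_lit 336367) (nat_lit 27) (.e (nat_lit 426533) (nat_lit 28) (.e (nat_lit 344100) (nat_lit 18) .nil))))))) (.g (nat_lit 7) .nil .nil)))))) (.nd (nat_lit 3) (.nd (nat_lit 4) (.nd (nat_lit 5) 
(.lf (nat_lit 107332) (.g (nat_lit 3415) (.e (nat_lit 5195) (nat_lit 294) (.e (nat_lit 57367) (nat_lit 1) (.e (nat_lit 57844) (nat_lit 252) (.e (nat_lit 57412) (nat_lit 12) (.e (nat_lit 336060) (nat_lit 7) (.e (nat_lit 319533) (nat_lit 16) (.e (nat_lit 286753) (nat_lit 10) (.e (nat_lit 344097) (nat_lit 18) .nil)))))))) (.g (nat_lit 0) .nil .nil))) 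
(.lf (nat_lit 107364) (.g (nat_lit 3846) (.e (nat_lit 5195) (nat_lit 294) (.e (nat_lit 57368) (nat_lit 1) (.e (nat_lit 57852) (nat_lit 252) (.e (nat_lit 57419) (nat_lit 12) (.e (nat_lit 336059) (nat_lit 7) (.e (nat_lit 319533) (nat_lit 16) (.e (nat_lit 286753) (nat_lit 10) (.e (nat_lit 344097) (nat_lit 18) .nil)))))))) (.g (nat_lit 0) .nil .nil)))) (.nd (nat_lit 5) 
(.lf (nat_lit 107348) (.g (nat_lit 3806) (.e (nat_lit 5195) (nat_lit 294) (.e (nat_lit 57368) (nat_lit 1) (.e (nat_lit 57830) (nat_lit 250) (.e (nat_lit 1201) (nat_lit 88) (.e (nat_lit 65583) (nat_lit 7) (.e (nat_lit 319533) (nat_lit 16) (.e (nat_lit 286753) (nat_lit 10) (.e (nat_lit 344097) (nat_lit 18) .nil)))))))) (.g (nat_lit 7) .nil .nil))) 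
(.lf (nat_lit 107380) (.g (nat_lit 1608) (.e (nat_lit 5195) (nat_lit 294) (.e (nat_lit 57372) (nat_lit 2) (.e (nat_lit 90158) (nat_lit 11) (.e (nat_lit 24608) (nat_lit 3) (.e (nat_lit 98342) (nat_lit 20) .nil))))) .nil)))) (.nd (nat_lit 4) (.nd (nat_lit 5) 
(.lf (nat_lit 107340) (.g (nat_lit 3414) (.e (nat_lit 5195) (nat_lit 294) (.e (nat_lit 57367) (nat_lit 1) (.e (nat_lit 57847) (nat_lit 252) (.e (nat_lit 57412) (nat_lit 12) (.e (nat_lit 336061) (nat_lit 7) (.e (nat_lit 319531) (nat_lit 16) (.e (nat_lit 286751) (nat_lit 10) (.e (nat_lit 344097) (nat_lit 18) .nil)))))))) (.g (nat_lit 6) .nil .nil))) 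
(.lf (nat_lit 107372) (.g (nat_lit 1233) (.e (nat_lit 5195) (nat_lit 294) (.e (nat_lit 57372) (nat_lit 2) (.e (nat_lit 90128) (nat_lit 9) (.e (nat_lit 297) (nat_lit 22) .nil)))) .nil))) (.nd (nat_lit 5) 
(.lf (nat_lit 107356) (.g (nat_lit 3165) (.e (nat_lit 5195) (nat_lit 294) (.e (nat_lit 57368) (nat_lit 1) (.e (nat_lit 57851) (nat_lit 252) (.e (nat_lit 57412) (nat_lit 12) (.e (nat_lit 336061) (nat_lit 7) (.e (nat_lit 319531) (nat_lit 16) (.e (nat_lit 286757) (nat_lit 11) (.e (nat_lit 368662) (nat_lit 18) .nil)))))))) (.g (nat_lit 6) .nil .nil))) 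
(.lf (nat_lit 107388) (.g (nat_lit 1616) (.e (nat_lit 5195) (nat_lit 294) (.e (nat_lit 57372) (nat_lit 2) (.e (nat_lit 90158) (nat_lit 11) (.e (nat_lit 24655) (nat_lit 13) (.e (nat_lit 393227) (nat_lit 9) .nil))))) .nil)))))) (.nd (nat_lit 2) (.nd (nat_lit 3) (.nd (nat_lit 4) (.nd (nat_lit 5) 
(.lf (nat_lit 107330) (.g (nat_lit 2945) (.e (nat_lit 5195) (nat_lit 294) (.e (nat_lit 57365) (nat_lit 1) (.e (nat_lit 57854) (nat_lit 252) (.e (nat_lit 57414) (nat_lit 12) (.e (nat_lit 336060) (nat_lit 7) (.e (nat_lit 319533) (nat_lit 16) (.e (nat_lit 286753) (nat_lit 10) (.e (nat_lit 344097) (nat_lit 18) .nil)))))))) (.g (nat_lit 7) .nil .nil))) 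
(.lf (nat_lit 107362) (.g (nat_lit 3884) (.e (nat_lit 5195) (nat_lit 294) (.e (nat_lit 57368) (nat_lit 1) (.e (nat_lit 57852) (nat_lit 252) (.e (nat_lit 57413) (nat_lit 12) (.e (nat_lit 336060) (nat_lit 7) (.e (nat_lit 319534) (nat_lit 16) (.e (nat_lit 286756) (nat_lit 10) (.e (nat_lit 344097) (nat_lit 18) .nil)))))))) (.g (nat_lit 8) .nil .nil)))) (.nd (nat_lit 5) 
(.lf (nat_lit 107346) (.g (nat_lit 1914) (.e (nat_lit 5195) (nat_lit 294) (.e (nat_lit 57367) (nat_lit 1) (.e (nat_lit 57849) (nat_lit 252) (.e (nat_lit 57413) (nat_lit 12) (.e (nat_lit 336054) (nat_lit 7) (.e (nat_lit 319533) (nat_lit 16) (.e (nat_lit 286753) (nat_lit 10) (.e (nat_lit 344097) (nat_lit 18) .nil)))))))) (.g (nat_lit 4) .nil .nil))) 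
(.lf (nat_lit 107378) (.g (nat_lit 1547) (.e (nat_lit 5195) (nat_lit 294) (.e (nat_lit 57372) (nat_lit 2) (.e (nat_lit 90158) (nat_lit 11) (.e (nat_lit 24608) (nat_lit 3) (.e (nat_lit 98341) (nat_lit 20) .nil))))) .nil)))) (.nd (nat_lit 4) (.nd (nat_lit 5) 
(.lf (nat_lit 107338) (.g (nat_lit 2340) (.e (nat_lit 5195) (nat_lit 294) (.e (nat_lit 57367) (nat_lit 1) (.e (nat_lit 57847) (nat_lit 252) (.e (nat_lit 57408) (nat_lit 12) (.e (nat_lit 336053) (nat_lit 7) (.e (nat_lit 319533) (nat_lit 16) (.e (nat_lit 286753) (nat_lit 10) (.e (nat_lit 344097) (nat_lit 18) .nil)))))))) (.g (nat_lit 4) .nil .nil))) 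
(.lf (nat_lit 107370) (.g (nat_lit 2687) (.e (nat_lit 5195) (nat_lit 294) (.e (nat_lit 57368) (nat_lit 1) (.e (nat_lit 57854) (nat_lit 252) (.e (nat_lit 57413) (nat_lit 12) (.e (nat_lit 336054) (nat_lit 7) (.e (nat_lit 319533) (nat_lit 16) (.e (nat_lit 286753) (nat_lit 10) (.e (nat_lit 344097) (nat_lit 18) .nil)))))))) (.g (nat_lit 6) .nil .nil)))) (.nd (nat_lit 5) 
(.lf (nat_lit 107354) (.g (nat_lit 3389) (.e (nat_lit 5195) (nat_lit 294) (.e (nat_lit 57368) (nat_lit 1) (.e (nat_lit 57851) (nat_lit 252) (.e (nat_lit 57412) (nat_lit 12) (.e (nat_lit 336060) (nat_lit 7) (.e (nat_lit 319533) (nat_lit 16) (.e (nat_lit 286753) (nat_lit 10) (.e (nat_lit 344097) (nat_lit 18) .nil)))))))) (.g (nat_lit 0) .nil .nil))) 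
(.lf (nat_lit 107386) (.g (nat_lit 1836) (.e (nat_lit 5195) (nat_lit 294) (.e (nat_lit 57372) (nat_lit 2) (.e (nat_lit 90158) (nat_lit 11) (.e (nat_lit 24630) (nat_lit 9) (.e (nat_lit 336367) (nat_lit 27) (.e (nat_lit 426533) (nat_lit 28) (.e (nat_lit 344100) (nat_lit 18) .nil))))))) (.g (nat_lit 4) .nil .nil)))))) (.nd (nat_lit 3) (.nd (nat_lit 4) (.nd (nat_lit 5) 
(.lf (nat_lit 107334) (.g (nat_lit 4367) (.e (nat_lit 5195) (nat_lit 294) (.e (nat_lit 57367) (nat_lit 1) (.e (nat_lit 57844) (nat_lit 252) (.e (nat_lit 57412) (nat_lit 12) (.e (nat_lit 336061) (nat_lit 7) (.e (nat_lit 319533) (nat_lit 16) (.e (nat_lit 286753) (nat_lit 10) (.e (nat_lit 344097) (nat_lit 18) .nil)))))))) (.g (nat_lit 0) .nil .nil))) 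
(.lf (nat_lit 107366) (.g (nat_lit 4211) (.e (nat_lit 5195) (nat_lit 294) (.e (nat_lit 57368) (nat_lit 1) (.e (nat_lit 57853) (nat_lit 252) (.e (nat_lit 57412) (nat_lit 12) (.e (nat_lit 336060) (nat_lit 7) (.e (nat_lit 319534) (nat_lit 16) (.e (nat_lit 286756) (nat_lit 10) (.e (nat_lit 344097) (nat_lit 18) .nil)))))))) (.g (nat_lit 0) .nil .nil)))) (.nd (nat_lit 5) 
(.lf (nat_lit 107350) (.g (nat_lit 3828) (.e (nat_lit 5195) (nat_lit 294) (.e (nat_lit 57368) (nat_lit 1) (.e (nat_lit 57830) (nat_lit 250) (.e (nat_lit 1201) (nat_lit 88) (.e (nat_lit 65586) (nat_lit 7) (.e (nat_lit 319531) (nat_lit 16) (.e (nat_lit 286757) (nat_lit 11) (.e (nat_lit 368662) (nat_lit 18) .nil)))))))) (.g (nat_lit 6) .nil .nil))) 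
(.lf (nat_lit 107382) (.g (nat_lit 2855) (.e (nat_lit 5195) (nat_lit 294) (.e (nat_lit 57372) (nat_lit 2) (.e (nat_lit 90158) (nat_lit 11) (.e (nat_lit 24608) (nat_lit 3) (.e (nat_lit 98342) (nat_lit 20) (.e (nat_lit 221211) (nat_lit 22) (.e (nat_lit 196661) (nat_lit 12) (.e (nat_lit 57357) (nat_lit 0) .nil)))))))) (.g (nat_lit 6) .nil .nil))))) (.nd (nat_lit 4) (.nd (nat_lit 5) 
(.lf (nat_lit 107342) (.g (nat_lit 3764) (.e (nat_lit 5195) (nat_lit 294) (.e (nat_lit 57367) (nat_lit 1) (.e (nat_lit 57848) (nat_lit 252) (.e (nat_lit 57404) (nat_lit 12) (.e (nat_lit 336060) (nat_lit 7) (.e (nat_lit 319534) (nat_lit 16) (.e (nat_lit 286756) (nat_lit 10) (.e (nat_lit 344097) (nat_lit 18) .nil)))))))) (.g (nat_lit 0) .nil .nil))) 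
(.lf (nat_lit 107374) (.g (nat_lit 1820) (.e (nat_lit 5195) (nat_lit 294) (.e (nat_lit 57372) (nat_lit 2) (.e (nat_lit 90128) (nat_lit 9) (.e (nat_lit 297) (nat_lit 22) (.e (nat_lit 344132) (nat_lit 26) .nil))))) .nil))) (.nd (nat_lit 5) 
(.lf (nat_lit 107358) (.g (nat_lit 3937) (.e (nat_lit 5195) (nat_lit 294) (.e (nat_lit 57368) (nat_lit 1) (.e (nat_lit 57852) (nat_lit 252) (.e (nat_lit 57404) (nat_lit 12) (.e (nat_lit 336060) (nat_lit 7) (.e (nat_lit 319533) (nat_lit 16) (.e (nat_lit 286753) (nat_lit 10) (.e (nat_lit 344097) (nat_lit 18) .nil)))))))) (.g (nat_lit 0) .nil .nil))) 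
(.lf (nat_lit 107390) (.g (nat_lit 1575) (.e (nat_lit 5195) (nat_lit 294) (.e (nat_lit 57372) (nat_lit 2) (.e (nat_lit 90158) (nat_lit 11) (.e (nat_lit 24655) (nat_lit 13) (.e (nat_lit 401152) (nat_lit 10) .nil))))) .nil))))))) (.nd (nat_lit 1) (.nd (nat_lit 2) (.nd (nat_lit 3) (.nd (nat_lit 4) (.nd (nat_lit 5) 
(.lf (nat_lit 107329) (.g (nat_lit 1799) (.e (nat_lit 5195) (nat_lit 294) (.e (nat_lit 57365) (nat_lit 1) (.e (nat_lit 57854) (nat_lit 252) (.e (nat_lit 57413) (nat_lit 12) (.e (nat_lit 336054) (nat_lit 7) (.e (nat_lit 319533) (nat_lit 16) (.e (nat_lit 286753) (nat_lit 10) (.e (nat_lit 344097) (nat_lit 18) .nil)))))))) (.g (nat_lit 4) .nil .nil))) 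
(.lf (nat_lit 107361) (.g (nat_lit 3498) (.e (nat_lit 5195) (nat_lit 294) (.e (nat_lit 57368) (nat_lit 1) (.e (nat_lit 57852) (nat_lit 252) (.e (nat_lit 57413) (nat_lit 12) (.e (nat_lit 336060) (nat_lit 7) (.e (nat_lit 319533) (nat_lit 16) (.e (nat_lit 286753) (nat_lit 10) (.e (nat_lit 344097) (nat_lit 18) .nil)))))))) (.g (nat_lit 8) .nil .nil)))) (.nd (nat_lit 5) 
(.lf (nat_lit 107345) (.g (nat_lit 1951) (.e (nat_lit 5195) (nat_lit 294) (.e (nat_lit 57367) (nat_lit 1) (.e (nat_lit 57849) (nat_lit 252) (.e (nat_lit 57404) (nat_lit 12) (.e (nat_lit 336060) (nat_lit 7) (.e (nat_lit 319533) (nat_lit 16) (.e (nat_lit 286753) (nat_lit 10) (.e (nat_lit 344097) (nat_lit 18) .nil)))))))) (.g (nat_lit 4) .nil .nil))) 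
(.lf (nat_lit 107377) (.g (nat_lit 2420) (.e (nat_lit 5195) (nat_lit 294) (.e (nat_lit 57372) (nat_lit 2) (.e (nat_lit 90158) (nat_lit 11) (.e (nat_lit 24608) (nat_lit 3) (.e (nat_lit 98321) (nat_lit 17) .nil))))) .nil)))) (.nd (nat_lit 4) (.nd (nat_lit 5) 
(.lf (nat_lit 107337) (.g (nat_lit 2590) (.e (nat_lit 5195) (nat_lit 294) (.e (nat_lit 57367) (nat_lit 1) (.e (nat_lit 57846) (nat_lit 252) (.e (nat_lit 57413) (nat_lit 12) (.e (nat_lit 336060) (nat_lit 7) (.e (nat_lit 319533) (nat_lit 16) (.e (nat_lit 286753) (nat_lit 10) (.e (nat_lit 344097) (nat_lit 18) .nil)))))))) (.g (nat_lit 6) .nil .nil))) 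
(.lf (nat_lit 107369) (.g (nat_lit 1918) (.e (nat_lit 5195) (nat_lit 294) (.e (nat_lit 57368) (nat_lit 1) (.e (nat_lit 57854) (nat_lit 252) (.e (nat_lit 57412) (nat_lit 12) (.e (nat_lit 336061) (nat_lit 7) .nil))))) .nil))) (.nd (nat_lit 5) 
(.lf (nat_lit 107353) (.g (nat_lit 4281) (.e (nat_lit 5195) (nat_lit 294) (.e (nat_lit 57368) (nat_lit 1) (.e (nat_lit 57851) (nat_lit 252) (.e (nat_lit 57412) (nat_lit 12) (.e (nat_lit 336058) (nat_lit 7) (.e (nat_lit 319534) (nat_lit 16) (.e (nat_lit 286756) (nat_lit 10) (.e (nat_lit 344097) (nat_lit 18) .nil)))))))) (.g (nat_lit 0) .nil .nil))) 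
(.lf (nat_lit 107385) (.g (nat_lit 1485) (.e (nat_lit 5195) (nat_lit 294) (.e (nat_lit 57372) (nat_lit 2) (.e (nat_lit 90158) (nat_lit 11) (.e (nat_lit 24628) (nat_lit 9) (.e (nat_lit 336374) (nat_lit 27) (.e (nat_lit 426535) (nat_lit 28) (.e (nat_lit 344097) (nat_lit 18) .nil))))))) (.g (nat_lit 4) .nil .nil)))))) (.nd (nat_lit 3) (.nd (nat_lit 4) (.nd (nat_lit 5) 
(.lf (nat_lit 107333) (.g (nat_lit 3737) (.e (nat_lit 5195) (nat_lit 294) (.e (nat_lit 57367) (nat_lit 1) (.e (nat_lit 57844) (nat_lit 252) (.e (nat_lit 57412) (nat_lit 12) (.e (nat_lit 336060) (nat_lit 7) (.e (nat_lit 319534) (nat_lit 16) (.e (nat_lit 286756) (nat_lit 10) (.e (nat_lit 344097) (nat_lit 18) .nil)))))))) (.g (nat_lit 0) .nil .nil))) 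
(.lf (nat_lit 107365) (.g (nat_lit 3895) (.e (nat_lit 5195) (nat_lit 294) (.e (nat_lit 57368) (nat_lit 1) (.e (nat_lit 57853) (nat_lit 252) (.e (nat_lit 57412) (nat_lit 12) (.e (nat_lit 336060) (nat_lit 7) (.e (nat_lit 319533) (nat_lit 16) (.e (nat_lit 286753) (nat_lit 10) (.e (nat_lit 344097) (nat_lit 18) .nil)))))))) (.g (nat_lit 0) .nil .nil)))) (.nd (nat_lit 5) 
(.lf (nat_lit 107349) (.g (nat_lit 1854) (.e (nat_lit 5195) (nat_lit 294) (.e (nat_lit 57368) (nat_lit 1) (.e (nat_lit 57830) (nat_lit 250) (.e (nat_lit 1201) (nat_lit 88) (.e (nat_lit 65586) (nat_lit 7) (.e (nat_lit 319531) (nat_lit 16) (.e (nat_lit 286748) (nat_lit 9) (.e (nat_lit 335928) (nat_lit 0) (.e (nat_lit 1023) (nat_lit 81) .nil))))))))) (.g (nat_lit 4) .nil .nil))) 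
(.lf (nat_lit 107381) (.g (nat_lit 3308) (.e (nat_lit 5195) (nat_lit 294) (.e (nat_lit 57372) (nat_lit 2) (.e (nat_lit 90158) (nat_lit 11) (.e (nat_lit 24608) (nat_lit 3) (.e (nat_lit 98342) (nat_lit 20) (.e (nat_lit 221210) (nat_lit 22) (.e (nat_lit 196660) (nat_lit 12) (.e (nat_lit 57354) (nat_lit 0) .nil)))))))) (.g (nat_lit 6) .nil .nil))))) (.nd (nat_lit 4) (.nd (nat_lit 5) 
(.lf (nat_lit 107341) (.g (nat_lit 3348) (.e (nat_lit 5195) (nat_lit 294) (.e (nat_lit 57367) (nat_lit 1) (.e (nat_lit 57848) (nat_lit 252) (.e (nat_lit 57404) (nat_lit 12) (.e (nat_lit 336060) (nat_lit 7) (.e (nat_lit 319533) (nat_lit 16) (.e (nat_lit 286753) (nat_lit 10) (.e (nat_lit 344097) (nat_lit 18) .nil)))))))) (.g (nat_lit 0) .nil .nil))) 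
(.lf (nat_lit 107373) (.g (nat_lit 1871) (.e (nat_lit 5195) (nat_lit 294) (.e (nat_lit 57372) (nat_lit 2) (.e (nat_lit 90128) (nat_lit 9) (.e (nat_lit 297) (nat_lit 22) (.e (nat_lit 344120) (nat_lit 21) .nil))))) .nil))) (.nd (nat_lit 5) 
(.lf (nat_lit 107357) (.g (nat_lit 4405) (.e (nat_lit 5195) (nat_lit 294) (.e (nat_lit 57368) (nat_lit 1) (.e (nat_lit 57851) (nat_lit 252) (.e (nat_lit 57412) (nat_lit 12) (.e (nat_lit 336061) (nat_lit 7) (.e (nat_lit 319533) (nat_lit 16) (.e (nat_lit 286753) (nat_lit 10) (.e (nat_lit 344097) (nat_lit 18) .nil)))))))) (.g (nat_lit 0) .nil .nil))) 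
(.lf (nat_lit 107389) (.g (nat_lit 3261) (.e (nat_lit 5195) (nat_lit 294) (.e (nat_lit 57372) (nat_lit 2) (.e (nat_lit 90158) (nat_lit 11) (.e (nat_lit 24655) (nat_lit 13) (.e (nat_lit 393229) (nat_lit 9) (.e (nat_lit 335933) (nat_lit 0) (.e (nat_lit 1040) (nat_lit 81) .nil))))))) (.g (nat_lit 5) .nil .nil))))))) (.nd (nat_lit 2) (.nd (nat_lit 3) (.nd (nat_lit 4) (.nd (nat_lit 5) 
(.lf (nat_lit 107331) (.g (nat_lit 1864) (.e (nat_lit 5195) (nat_lit 294) (.e (nat_lit 57367) (nat_lit 1) (.e (nat_lit 57830) (nat_lit 250) (.e (nat_lit 1201) (nat_lit 88) (.e (nat_lit 65581) (nat_lit 7) (.e (nat_lit 319533) (nat_lit 16) (.e (nat_lit 286753) (nat_lit 10) (.e (nat_lit 344097) (nat_lit 18) .nil)))))))) (.g (nat_lit 4) .nil .nil))) 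
(.lf (nat_lit 107363) (.g (nat_lit 3752) (.e (nat_lit 5195) (nat_lit 294) (.e (nat_lit 57368) (nat_lit 1) (.e (nat_lit 57852) (nat_lit 252) (.e (nat_lit 57415) (nat_lit 12) (.e (nat_lit 336060) (nat_lit 7) (.e (nat_lit 319533) (nat_lit 16) (.e (nat_lit 286753) (nat_lit 10) (.e (nat_lit 344097) (nat_lit 18) .nil)))))))) (.g (nat_lit 0) .nil .nil)))) (.nd (nat_lit 5) 
(.lf (nat_lit 107347) (.g (nat_lit 3806) (.e (nat_lit 5195) (nat_lit 294) (.e (nat_lit 57368) (nat_lit 1) (.e (nat_lit 57830) (nat_lit 250) (.e (nat_lit 1201) (nat_lit 88) (.e (nat_lit 65583) (nat_lit 7) (.e (nat_lit 319530) (nat_lit 16) (.e (nat_lit 286753) (nat_lit 10) (.e (nat_lit 344097) (nat_lit 18) .nil)))))))) (.g (nat_lit 7) .nil .nil))) 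
(.lf (nat_lit 107379) (.g (nat_lit 2585) (.e (nat_lit 5195) (nat_lit 294) (.e (nat_lit 57372) (nat_lit 2) (.e (nat_lit 90158) (nat_lit 11) (.e (nat_lit 24608) (nat_lit 3) (.e (nat_lit 98341) (nat_lit 20) (.e (nat_lit 221211) (nat_lit 22) (.e (nat_lit 196661) (nat_lit 12) (.e (nat_lit 57357) (nat_lit 0) .nil)))))))) (.g (nat_lit 5) .nil .nil))))) (.nd (nat_lit 4) (.nd (nat_lit 5) 
(.lf (nat_lit 107339) (.g (nat_lit 1720) (.e (nat_lit 5195) (nat_lit 294) (.e (nat_lit 57367) (nat_lit 1) (.e (nat_lit 57847) (nat_lit 252) (.e (nat_lit 57411) (nat_lit 12) (.e (nat_lit 343808) (nat_lit 7) (.e (nat_lit 319534) (nat_lit 16) (.e (nat_lit 286756) (nat_lit 10) (.e (nat_lit 344097) (nat_lit 18) .nil)))))))) (.g (nat_lit 4) .nil .nil))) 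
(.lf (nat_lit 107371) (.g (nat_lit 2066) (.e (nat_lit 5195) (nat_lit 294) (.e (nat_lit 57372) (nat_lit 2) (.e (nat_lit 98048) (nat_lit 6) (.e (nat_lit 81951) (nat_lit 22) (.e (nat_lit 90172) (nat_lit 14) (.e (nat_lit 188160) (nat_lit 0) .nil)))))) (.g (nat_lit 5) .nil .nil)))) (.nd (nat_lit 5) 
(.lf (nat_lit 107355) (.g (nat_lit 3649) (.e (nat_lit 5195) (nat_lit 294) (.e (nat_lit 57368) (nat_lit 1) (.e (nat_lit 57851) (nat_lit 252) (.e (nat_lit 57412) (nat_lit 12) (.e (nat_lit 336060) (nat_lit 7) (.e (nat_lit 319534) (nat_lit 16) (.e (nat_lit 286756) (nat_lit 10) (.e (nat_lit 344097) (nat_lit 18) .nil)))))))) (.g (nat_lit 0) .nil .nil))) 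
(.lf (nat_lit 107387) (.g (nat_lit 1391) (.e (nat_lit 5195) (nat_lit 294) (.e (nat_lit 57372) (nat_lit 2) (.e (nat_lit 90158) (nat_lit 11) (.e (nat_lit 24651) (nat_lit 12) (.e (nat_lit 392960) (nat_lit 8) .nil))))) .nil))))) (.nd (nat_lit 3) (.nd (nat_lit 4) (.nd (nat_lit 5) 
(.lf (nat_lit 107335) (.g (nat_lit 4681) (.e (nat_lit 5195) (nat_lit 294) (.e (nat_lit 57367) (nat_lit 1) (.e (nat_lit 57844) (nat_lit 252) (.e (nat_lit 57412) (nat_lit 12) (.e (nat_lit 336061) (nat_lit 7) (.e (nat_lit 319534) (nat_lit 16) (.e (nat_lit 286756) (nat_lit 10) (.e (nat_lit 344097) (nat_lit 18) .nil)))))))) (.g (nat_lit 0) .nil .nil))) 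
(.lf (nat_lit 107367) (.g (nat_lit 1710) (.e (nat_lit 5195) (nat_lit 294) (.e (nat_lit 57368) (nat_lit 1) (.e (nat_lit 57854) (nat_lit 252) (.e (nat_lit 57406) (nat_lit 12) (.e (nat_lit 336240) (nat_lit 15) .nil))))) .nil))) (.nd (nat_lit 5) 
(.lf (nat_lit 107351) (.g (nat_lit 3112) (.e (nat_lit 5195) (nat_lit 294) (.e (nat_lit 57368) (nat_lit 1) (.e (nat_lit 57851) (nat_lit 252) (.e (nat_lit 57412) (nat_lit 12) (.e (nat_lit 336054) (nat_lit 7) (.e (nat_lit 319533) (nat_lit 16) (.e (nat_lit 286753) (nat_lit 10) (.e (nat_lit 344097) (nat_lit 18) .nil)))))))) (.g (nat_lit 0) .nil .nil))) 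
(.lf (nat_lit 107383) (.g (nat_lit 3066) (.e (nat_lit 5195) (nat_lit 294) (.e (nat_lit 57372) (nat_lit 2) (.e (nat_lit 90158) (nat_lit 11) (.e (nat_lit 24625) (nat_lit 9) (.e (nat_lit 336367) (nat_lit 27) (.e (nat_lit 426533) (nat_lit 28) (.e (nat_lit 344100) (nat_lit 18) .nil))))))) (.g (nat_lit 0) .nil .nil))))) (.nd (nat_lit 4) (.nd (nat_lit 5) 
(.lf (nat_lit 107343) (.g (nat_lit 2789) (.e (nat_lit 5195) (nat_lit 294) (.e (nat_lit 57367) (nat_lit 1) (.e (nat_lit 57848) (nat_lit 252) (.e (nat_lit 57415) (nat_lit 12) (.e (nat_lit 336060) (nat_lit 7) (.e (nat_lit 319533) (nat_lit 16) (.e (nat_lit 286753) (nat_lit 10) (.e (nat_lit 344097) (nat_lit 18) .nil)))))))) (.g (nat_lit 7) .nil .nil))) 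
(.lf (nat_lit 107375) (.g (nat_lit 3293) (.e (nat_lit 5195) (nat_lit 294) (.e (nat_lit 57372) (nat_lit 2) (.e (nat_lit 90128) (nat_lit 9) (.e (nat_lit 297) (nat_lit 22) (.e (nat_lit 344132) (nat_lit 26) (.e (nat_lit 557105) (nat_lit 14) (.e (nat_lit 180252) (nat_lit 10) (.e (nat_lit 573475) (nat_lit 12) (.e (nat_lit 57356) (nat_lit 0) .nil))))))))) (.g (nat_lit 6) .nil .nil)))) (.nd (nat_lit 5) 
(.lf (nat_lit 107359) (.g (nat_lit 3804) (.e (nat_lit 5195) (nat_lit 294) (.e (nat_lit 57368) (nat_lit 1) (.e (nat_lit 57852) (nat_lit 252) (.e (nat_lit 57412) (nat_lit 12) (.e (nat_lit 336060) (nat_lit 7) (.e (nat_lit 319533) (nat_lit 16) (.e (nat_lit 286753) (nat_lit 10) (.e (nat_lit 344097) (nat_lit 18) .nil)))))))) (.g (nat_lit 8) .nil .nil))) 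
(.lf (nat_lit 107391) (.g (nat_lit 1954) (.e (nat_lit 5195) (nat_lit 294) (.e (nat_lit 57372) (nat_lit 2) (.e (nat_lit 90158) (nat_lit 11) (.e (nat_lit 24655) (nat_lit 13) (.e (nat_lit 401152) (nat_lit 10) (.e (nat_lit 344101) (nat_lit 18) .nil)))))) (.g (nat_lit 4) .nil .nil)))))))))

noncomputable def tv1458 : DT := (.nd (nat_lit 0) (.nd (nat_lit 1) (.nd (nat_lit 2) (.nd (nat_lit 3) (.nd (nat_lit 4) (.nd (nat_lit 5) (.nd (nat_lit 6) 
(.lf (nat_lit 107392) (.g (nat_lit 1043) (.e (nat_lit 5195) (nat_lit 294) (.e (nat_lit 57372) (nat_lit 2) (.e (nat_lit 90158) (nat_lit 11) (.e (nat_lit 24656) (nat_lit 13) .nil)))) .nil)) 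
(.lf (nat_lit 107456) (.g (nat_lit 1746) (.e (nat_lit 5195) (nat_lit 294) (.e (nat_lit 57375) (nat_lit 2) (.e (nat_lit 90158) (nat_lit 11) (.e (nat_lit 24630) (nat_lit 9) (.e (nat_lit 336367) (nat_lit 27) (.e (nat_lit 426533) (nat_lit 28) (.e (nat_lit 344100) (nat_lit 18) .nil))))))) (.g (nat_lit 4) .nil .nil)))) (.nd (nat_lit 6) 
(.lf (nat_lit 107424) (.g (nat_lit 2818) (.e (nat_lit 5195) (nat_lit 294) (.e (nat_lit 57372) (nat_lit 2) (.e (nat_lit 90160) (nat_lit 11) (.e (nat_lit 24657) (nat_lit 13) (.e (nat_lit 401152) (nat_lit 10) .nil))))) .nil)) 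
(.lf (nat_lit 107488) (.g (nat_lit 2313) (.e (nat_lit 5195) (nat_lit 294) (.e (nat_lit 57375) (nat_lit 2) (.e (nat_lit 90160) (nat_lit 11) (.e (nat_lit 24586) (nat_lit 0) .nil)))) .nil)))) (.nd (nat_lit 5) (.nd (nat_lit 6) 
(.lf (nat_lit 107408) (.g (nat_lit 2288) (.e (nat_lit 5195) (nat_lit 294) (.e (nat_lit 57372) (nat_lit 2) (.e (nat_lit 90159) (nat_lit 11) (.e (nat_lit 24657) (nat_lit 13) (.e (nat_lit 393227) (nat_lit 9) .nil))))) .nil)) 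
(.lf (nat_lit 107472) (.g (nat_lit 1451) (.e (nat_lit 5195) (nat_lit 294) (.e (nat_lit 57375) (nat_lit 2) (.e (nat_lit 90158) (nat_lit 11) (.e (nat_lit 24658) (nat_lit 13) (.e (nat_lit 401152) (nat_lit 10) (.e (nat_lit 344099) (nat_lit 18) .nil)))))) (.g (nat_lit 4) .nil .nil)))) (.nd (nat_lit 6) 
(.lf (nat_lit 107440) (.g (nat_lit 1901) (.e (nat_lit 5195) (nat_lit 294) (.e (nat_lit 57375) (nat_lit 2) (.e (nat_lit 90128) (nat_lit 9) (.e (nat_lit 297) (nat_lit 22) (.e (nat_lit 344119) (nat_lit 21) (.e (nat_lit 516131) (nat_lit 3) (.e (nat_lit 221211) (nat_lit 22) (.e (nat_lit 196661) (nat_lit 12) (.e (nat_lit 57357) (nat_lit 0) .nil))))))))) (.g (nat_lit 4) .nil .nil))) 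
(.lf (nat_lit 107504) (.g (nat_lit 4470) (.e (nat_lit 5195) (nat_lit 294) (.e (nat_lit 57375) (nat_lit 2) (.e (nat_lit 90160) (nat_lit 11) (.e (nat_lit 24608) (nat_lit 3) (.e (nat_lit 98342) (nat_lit 20) (.e (nat_lit 221212) (nat_lit 22) (.e (nat_lit 196660) (nat_lit 12) (.e (nat_lit 57354) (nat_lit 0) .nil)))))))) (.g (nat_lit 6) .nil .nil)))))) (.nd (nat_lit 4) (.nd (nat_lit 5) (.nd (nat_lit 6) 
(.lf (nat_lit 107400) (.g (nat_lit 1365) (.e (nat_lit 5195) (nat_lit 294) (.e (nat_lit 57372) (nat_lit 2) (.e (nat_lit 90158) (nat_lit 11) (.e (nat_lit 24658) (nat_lit 13) (.e (nat_lit 401152) (nat_lit 10) .nil))))) .nil)) 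
(.lf (nat_lit 107464) (.g (nat_lit 1408) (.e (nat_lit 5195) (nat_lit 294) (.e (nat_lit 57375) (nat_lit 2) (.e (nat_lit 90158) (nat_lit 11) (.e (nat_lit 24656) (nat_lit 13) (.e (nat_lit 401152) (nat_lit 10) .nil))))) .nil))) (.nd (nat_lit 6) 
(.lf (nat_lit 107432) (.g (nat_lit 2802) (.e (nat_lit 5195) (nat_lit 294) (.e (nat_lit 57374) (nat_lit 2) (.e (nat_lit 98048) (nat_lit 8) (.e (nat_lit 131116) (nat_lit 9) (.e (nat_lit 336012) (nat_lit 2) (.e (nat_lit 90172) (nat_lit 14) (.e (nat_lit 188160) (nat_lit 0) .nil))))))) (.g (nat_lit 6) .nil .nil))) 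
(.lf (nat_lit 107496) (.g (nat_lit 3216) (.e (nat_lit 5195) (nat_lit 294) (.e (nat_lit 57375) (nat_lit 2) (.e (nat_lit 90160) (nat_lit 11) (.e (nat_lit 24608) (nat_lit 3) (.e (nat_lit 98321) (nat_lit 17) .nil))))) .nil)))) (.nd (nat_lit 5) (.nd (nat_lit 6) 
(.lf (nat_lit 107416) (.g (nat_lit 2908) (.e (nat_lit 5195) (nat_lit 294) (.e (nat_lit 57372) (nat_lit 2) (.e (nat_lit 90160) (nat_lit 11) (.e (nat_lit 24608) (nat_lit 3) (.e (nat_lit 98342) (nat_lit 20) (.e (nat_lit 221211) (nat_lit 22) (.e (nat_lit 196661) (nat_lit 12) (.e (nat_lit 57357) (nat_lit 0) .nil)))))))) (.g (nat_lit 4) .nil .nil))) 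
(.lf (nat_lit 107480) (.g (nat_lit 1577) (.e (nat_lit 5195) (nat_lit 294) (.e (nat_lit 57375) (nat_lit 2) (.e (nat_lit 90159) (nat_lit 11) (.e (nat_lit 24657) (nat_lit 13) (.e (nat_lit 393227) (nat_lit 9) .nil))))) .nil))) (.nd (nat_lit 6) 
(.lf (nat_lit 107448) (.g (nat_lit 2538) (.e (nat_lit 5195) (nat_lit 294) (.e (nat_lit 57375) (nat_lit 2) (.e (nat_lit 90158) (nat_lit 11) (.e (nat_lit 24608) (nat_lit 3) (.e (nat_lit 98338) (nat_lit 19) (.e (nat_lit 213013) (nat_lit 9) (.e (nat_lit 2684) (nat_lit 168) (.e (nat_lit 204821) (nat_lit 17) (.e (nat_lit 1040) (nat_lit 81) .nil))))))))) (.g (nat_lit 4) .nil .nil))) 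
(.lf (nat_lit 107512) (.g (nat_lit 1564) (.e (nat_lit 5195) (nat_lit 294) (.e (nat_lit 57375) (nat_lit 2) (.e (nat_lit 90160) (nat_lit 11) (.e (nat_lit 24628) (nat_lit 9) .nil)))) .nil)))))) (.nd (nat_lit 3) (.nd (nat_lit 4) (.nd (nat_lit 5) (.nd (nat_lit 6) 
(.lf (nat_lit 107396) (.g (nat_lit 1740) (.e (nat_lit 5195) (nat_lit 294) (.e (nat_lit 57372) (nat_lit 2) (.e (nat_lit 90158) (nat_lit 11) (.e (nat_lit 24657) (nat_lit 13) (.e (nat_lit 401152) (nat_lit 10) (.e (nat_lit 344101) (nat_lit 18) .nil)))))) (.g (nat_lit 4) .nil .nil))) 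
(.lf (nat_lit 107460) (.g (nat_lit 3395) (.e (nat_lit 5195) (nat_lit 294) (.e (nat_lit 57375) (nat_lit 2) (.e (nat_lit 90158) (nat_lit 11) (.e (nat_lit 24655) (nat_lit 13) (.e (nat_lit 393229) (nat_lit 9) (.e (nat_lit 335933) (nat_lit 0) (.e (nat_lit 1040) (nat_lit 81) .nil))))))) (.g (nat_lit 5) .nil .nil)))) (.nd (nat_lit 6) 
(.lf (nat_lit 107428) (.g (nat_lit 2219) (.e (nat_lit 5195) (nat_lit 294) (.e (nat_lit 57372) (nat_lit 2) (.e (nat_lit 90160) (nat_lit 11) (.e (nat_lit 24665) (nat_lit 14) .nil)))) .nil)) 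
(.lf (nat_lit 107492) (.g (nat_lit 2313) (.e (nat_lit 5195) (nat_lit 294) (.e (nat_lit 57375) (nat_lit 2) (.e (nat_lit 90160) (nat_lit 11) (.e (nat_lit 24592) (nat_lit 0) .nil)))) .nil)))) (.nd (nat_lit 5) (.nd (nat_lit 6) 
(.lf (nat_lit 107412) (.g (nat_lit 3143) (.e (nat_lit 5195) (nat_lit 294) (.e (nat_lit 57372) (nat_lit 2) (.e (nat_lit 90160) (nat_lit 11) (.e (nat_lit 24607) (nat_lit 3) (.e (nat_lit 98342) (nat_lit 20) .nil))))) .nil)) 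
(.lf (nat_lit 107476) (.g (nat_lit 1511) (.e (nat_lit 5195) (nat_lit 294) (.e (nat_lit 57375) (nat_lit 2) (.e (nat_lit 90158) (nat_lit 11) (.e (nat_lit 24660) (nat_lit 13) (.e (nat_lit 393227) (nat_lit 9) .nil))))) .nil))) (.nd (nat_lit 6) 
(.lf (nat_lit 107444) (.g (nat_lit 323) (.e (nat_lit 5195) (nat_lit 294) (.e (nat_lit 57375) (nat_lit 2) (.e (nat_lit 90157) (nat_lit 11) .nil))) .nil)) 
(.lf (nat_lit 107508) (.g (nat_lit 1737) (.e (nat_lit 5195) (nat_lit 294) (.e (nat_lit 57375) (nat_lit 2) (.e (nat_lit 90160) (nat_lit 11) (.e (nat_lit 24617) (nat_lit 7) .nil)))) .nil))))) (.nd (nat_lit 4) (.nd (nat_lit 5) (.nd (nat_lit 6) 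
(.lf (nat_lit 107404) (.g (nat_lit 886) (.e (nat_lit 5195) (nat_lit 294) (.e (nat_lit 57372) (nat_lit 2) (.e (nat_lit 90158) (nat_lit 11) (.e (nat_lit 24660) (nat_lit 13) .nil)))) .nil)) 
(.lf (nat_lit 107468) (.g (nat_lit 1745) (.e (nat_lit 5195) (nat_lit 294) (.e (nat_lit 57375) (nat_lit 2) (.e (nat_lit 90158) (nat_lit 11) (.e (nat_lit 24657) (nat_lit 13) (.e (nat_lit 401152) (nat_lit 10) (.e (nat_lit 344101) (nat_lit 18) .nil)))))) (.g (nat_lit 4) .nil .nil)))) (.nd (nat_lit 6) 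
(.lf (nat_lit 107436) (.g (nat_lit 692) (.e (nat_lit 5195) (nat_lit 294) (.e (nat_lit 57375) (nat_lit 2) (.e (nat_lit 90127) (nat_lit 9) .nil))) .nil)) 
(.lf (nat_lit 107500) (.g (nat_lit 4537) (.e (nat_lit 5195) (nat_lit 294) (.e (nat_lit 57375) (nat_lit 2) (.e (nat_lit 90160) (nat_lit 11) (.e (nat_lit 24608) (nat_lit 3) (.e (nat_lit 98341) (nat_lit 20) (.e (nat_lit 221210) (nat_lit 22) (.e (nat_lit 196660) (nat_lit 12) (.e (nat_lit 57354) (nat_lit 0) .nil)))))))) (.g (nat_lit 6) .nil .nil))))) (.nd (nat_lit 5) (.nd (nat_lit 6) 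
(.lf (nat_lit 107420) (.g (nat_lit 2327) (.e (nat_lit 5195) (nat_lit 294) (.e (nat_lit 57372) (nat_lit 2) (.e (nat_lit 90160) (nat_lit 11) (.e (nat_lit 24628) (nat_lit 9) (.e (nat_lit 336367) (nat_lit 27) .nil))))) .nil)) 
(.lf (nat_lit 107484) (.g (nat_lit 400) (.e (nat_lit 5195) (nat_lit 294) (.e (nat_lit 57375) (nat_lit 2) (.e (nat_lit 90160) (nat_lit 11) .nil))) .nil))) (.nd (nat_lit 6) 
(.lf (nat_lit 107452) (.g (nat_lit 3674) (.e (nat_lit 5195) (nat_lit 294) (.e (nat_lit 57375) (nat_lit 2) (.e (nat_lit 90158) (nat_lit 11) (.e (nat_lit 24608) (nat_lit 3) (.e (nat_lit 98342) (nat_lit 20) (.e (nat_lit 221212) (nat_lit 22) (.e (nat_lit 196660) (nat_lit 12) (.e (nat_lit 57354) (nat_lit 0) .nil)))))))) (.g (nat_lit 7) .nil .nil))) 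
(.lf (nat_lit 107516) (.g (nat_lit 1590) (.e (nat_lit 5195) (nat_lit 294) (.e (nat_lit 57375) (nat_lit 2) (.e (nat_lit 90160) (nat_lit 11) (.e (nat_lit 24636) (nat_lit 9) .nil)))) .nil))))))) (.nd (nat_lit 2) (.nd (nat_lit 3) (.nd (nat_lit 4) (.nd (nat_lit 5) (.nd (nat_lit 6) 
(.lf (nat_lit 107394) (.g (nat_lit 1814) (.e (nat_lit 5195) (nat_lit 294) (.e (nat_lit 57372) (nat_lit 2) (.e (nat_lit 90158) (nat_lit 11) (.e (nat_lit 24657) (nat_lit 13) (.e (nat_lit 393227) (nat_lit 9) (.e (nat_lit 335958) (nat_lit 0) (.e (nat_lit 1037) (nat_lit 81) .nil))))))) (.g (nat_lit 4) .nil .nil))) 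
(.lf (nat_lit 107458) (.g (nat_lit 2232) (.e (nat_lit 5195) (nat_lit 294) (.e (nat_lit 57375) (nat_lit 2) (.e (nat_lit 90158) (nat_lit 11) (.e (nat_lit 24655) (nat_lit 13) (.e (nat_lit 393227) (nat_lit 9) (.e (nat_lit 335958) (nat_lit 0) (.e (nat_lit 1037) (nat_lit 81) .nil))))))) (.g (nat_lit 5) .nil .nil)))) (.nd (nat_lit 6) 
(.lf (nat_lit 107426) (.g (nat_lit 1950) (.e (nat_lit 5195) (nat_lit 294) (.e (nat_lit 57372) (nat_lit 2) (.e (nat_lit 90160) (nat_lit 11) (.e (nat_lit 24659) (nat_lit 13) .nil)))) .nil)) 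
(.lf (nat_lit 107490) (.g (nat_lit 2313) (.e (nat_lit 5195) (nat_lit 294) (.e (nat_lit 57375) (nat_lit 2) (.e (nat_lit 90160) (nat_lit 11) (.e (nat_lit 24590) (nat_lit 0) .nil)))) .nil)))) (.nd (nat_lit 5) (.nd (nat_lit 6) 
(.lf (nat_lit 107410) (.g (nat_lit 2204) (.e (nat_lit 5195) (nat_lit 294) (.e (nat_lit 57372) (nat_lit 2) (.e (nat_lit 90159) (nat_lit 11) (.e (nat_lit 24657) (nat_lit 13) (.e (nat_lit 401152) (nat_lit 13) .nil))))) .nil)) 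
(.lf (nat_lit 107474) (.g (nat_lit 1362) (.e (nat_lit 5195) (nat_lit 294) (.e (nat_lit 57375) (nat_lit 2) (.e (nat_lit 90158) (nat_lit 11) (.e (nat_lit 24659) (nat_lit 13) (.e (nat_lit 401152) (nat_lit 10) (.e (nat_lit 344100) (nat_lit 18) .nil)))))) (.g (nat_lit 4) .nil .nil)))) (.nd (nat_lit 6) 
(.lf (nat_lit 107442) (.g (nat_lit 662) (.e (nat_lit 5195) (nat_lit 294) (.e (nat_lit 57375) (nat_lit 2) (.e (nat_lit 90130) (nat_lit 9) .nil))) .nil)) 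
(.lf (nat_lit 107506) (.g (nat_lit 3957) (.e (nat_lit 5195) (nat_lit 294) (.e (nat_lit 57375) (nat_lit 2) (.e (nat_lit 90160) (nat_lit 11) (.e (nat_lit 24608) (nat_lit 3) (.e (nat_lit 98342) (nat_lit 20) (.e (nat_lit 221215) (nat_lit 23) (.e (nat_lit 204821) (nat_lit 17) (.e (nat_lit 1040) (nat_lit 81) .nil)))))))) (.g (nat_lit 5) .nil .nil)))))) (.nd (nat_lit 4) (.nd (nat_lit 5) (.nd (nat_lit 6) 
(.lf (nat_lit 107402) (.g (nat_lit 977) (.e (nat_lit 5195) (nat_lit 294) (.e (nat_lit 57372) (nat_lit 2) (.e (nat_lit 90158) (nat_lit 11) (.e (nat_lit 24659) (nat_lit 13) .nil)))) .nil)) 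
(.lf (nat_lit 107466) (.g (nat_lit 1828) (.e (nat_lit 5195) (nat_lit 294) (.e (nat_lit 57375) (nat_lit 2) (.e (nat_lit 90158) (nat_lit 11) (.e (nat_lit 24657) (nat_lit 13) (.e (nat_lit 393227) (nat_lit 9) (.e (nat_lit 335958) (nat_lit 0) (.e (nat_lit 1037) (nat_lit 81) .nil))))))) (.g (nat_lit 4) .nil .nil)))) (.nd (nat_lit 6) 
(.lf (nat_lit 107434) (.g (nat_lit 778) (.e (nat_lit 5195) (nat_lit 294) (.e (nat_lit 57375) (nat_lit 2) (.e (nat_lit 98048) (nat_lit 6) .nil))) .nil)) 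
(.lf (nat_lit 107498) (.g (nat_lit 2624) (.e (nat_lit 5195) (nat_lit 294) (.e (nat_lit 57375) (nat_lit 2) (.e (nat_lit 90160) (nat_lit 11) (.e (nat_lit 24608) (nat_lit 3) (.e (nat_lit 98341) (nat_lit 20) .nil))))) .nil)))) (.nd (nat_lit 5) (.nd (nat_lit 6) 
(.lf (nat_lit 107418) (.g (nat_lit 2258) (.e (nat_lit 5195) (nat_lit 294) (.e (nat_lit 57372) (nat_lit 2) (.e (nat_lit 90160) (nat_lit 11) (.e (nat_lit 24625) (nat_lit 9) (.e (nat_lit 336367) (nat_lit 27) .nil))))) .nil)) 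
(.lf (nat_lit 107482) (.g (nat_lit 1488) (.e (nat_lit 5195) (nat_lit 294) (.e (nat_lit 57375) (nat_lit 2) (.e (nat_lit 90159) (nat_lit 11) (.e (nat_lit 24657) (nat_lit 13) (.e (nat_lit 401152) (nat_lit 10) .nil))))) .nil))) (.nd (nat_lit 6) 
(.lf (nat_lit 107450) (.g (nat_lit 3994) (.e (nat_lit 5195) (nat_lit 294) (.e (nat_lit 57375) (nat_lit 2) (.e (nat_lit 90158) (nat_lit 11) (.e (nat_lit 24608) (nat_lit 3) (.e (nat_lit 98341) (nat_lit 20) (.e (nat_lit 221210) (nat_lit 22) (.e (nat_lit 196660) (nat_lit 12) (.e (nat_lit 57354) (nat_lit 0) .nil)))))))) (.g (nat_lit 7) .nil .nil))) 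
(.lf (nat_lit 107514) (.g (nat_lit 2562) (.e (nat_lit 5195) (nat_lit 294) (.e (nat_lit 57375) (nat_lit 2) (.e (nat_lit 90160) (nat_lit 11) (.e (nat_lit 24628) (nat_lit 9) (.e (nat_lit 336374) (nat_lit 27) .nil))))) .nil)))))) (.nd (nat_lit 3) (.nd (nat_lit 4) (.nd (nat_lit 5) (.nd (nat_lit 6) 
(.lf (nat_lit 107398) (.g (nat_lit 1409) (.e (nat_lit 5195) (nat_lit 294) (.e (nat_lit 57372) (nat_lit 2) (.e (nat_lit 90158) (nat_lit 11) (.e (nat_lit 24658) (nat_lit 13) (.e (nat_lit 393229) (nat_lit 9) .nil))))) .nil)) 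
(.lf (nat_lit 107462) (.g (nat_lit 2012) (.e (nat_lit 5195) (nat_lit 294) (.e (nat_lit 57375) (nat_lit 2) (.e (nat_lit 90158) (nat_lit 11) (.e (nat_lit 24655) (nat_lit 13) (.e (nat_lit 401152) (nat_lit 10) (.e (nat_lit 344101) (nat_lit 18) .nil)))))) (.g (nat_lit 4) .nil .nil)))) (.nd (nat_lit 6) 
(.lf (nat_lit 107430) (.g (nat_lit 1934) (.e (nat_lit 5195) (nat_lit 294) (.e (nat_lit 57374) (nat_lit 2) (.e (nat_lit 98048) (nat_lit 6) (.e (nat_lit 81951) (nat_lit 22) (.e (nat_lit 90172) (nat_lit 14) (.e (nat_lit 188160) (nat_lit 0) .nil)))))) (.g (nat_lit 5) .nil .nil))) 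
(.lf (nat_lit 107494) (.g (nat_lit 2251) (.e (nat_lit 5195) (nat_lit 294) (.e (nat_lit 57375) (nat_lit 2) (.e (nat_lit 90160) (nat_lit 11) (.e (nat_lit 24607) (nat_lit 3) .nil)))) .nil)))) (.nd (nat_lit 5) (.nd (nat_lit 6) 
(.lf (nat_lit 107414) (.g (nat_lit 3906) (.e (nat_lit 5195) (nat_lit 294) (.e (nat_lit 57372) (nat_lit 2) (.e (nat_lit 90160) (nat_lit 11) (.e (nat_lit 24608) (nat_lit 3) (.e (nat_lit 98341) (nat_lit 20) (.e (nat_lit 221210) (nat_lit 22) (.e (nat_lit 196660) (nat_lit 12) (.e (nat_lit 57354) (nat_lit 0) .nil)))))))) (.g (nat_lit 5) .nil .nil))) 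
(.lf (nat_lit 107478) (.g (nat_lit 1708) (.e (nat_lit 5195) (nat_lit 294) (.e (nat_lit 57375) (nat_lit 2) (.e (nat_lit 90158) (nat_lit 11) (.e (nat_lit 24660) (nat_lit 13) (.e (nat_lit 401152) (nat_lit 10) (.e (nat_lit 344101) (nat_lit 18) .nil)))))) (.g (nat_lit 4) .nil .nil)))) (.nd (nat_lit 6) 
(.lf (nat_lit 107446) (.g (nat_lit 271) (.e (nat_lit 5195) (nat_lit 294) (.e (nat_lit 57375) (nat_lit 2) (.e (nat_lit 90158) (nat_lit 11) .nil))) .nil)) 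
(.lf (nat_lit 107510) (.g (nat_lit 1630) (.e (nat_lit 5195) (nat_lit 294) (.e (nat_lit 57375) (nat_lit 2) (.e (nat_lit 90160) (nat_lit 11) (.e (nat_lit 24625) (nat_lit 9) .nil)))) .nil))))) (.nd (nat_lit 4) (.nd (nat_lit 5) (.nd (nat_lit 6) 
(.lf (nat_lit 107406) (.g (nat_lit 1389) (.e (nat_lit 5195) (nat_lit 294) (.e (nat_lit 57372) (nat_lit 2) (.e (nat_lit 90158) (nat_lit 11) (.e (nat_lit 24660) (nat_lit 13) (.e (nat_lit 401152) (nat_lit 10) .nil))))) .nil)) 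
(.lf (nat_lit 107470) (.g (nat_lit 2703) (.e (nat_lit 5195) (nat_lit 294) (.e (nat_lit 57375) (nat_lit 2) (.e (nat_lit 90158) (nat_lit 11) (.e (nat_lit 24658) (nat_lit 13) (.e (nat_lit 393229) (nat_lit 9) (.e (nat_lit 335933) (nat_lit 0) (.e (nat_lit 1040) (nat_lit 81) .nil))))))) (.g (nat_lit 5) .nil .nil)))) (.nd (nat_lit 6) 
(.lf (nat_lit 107438) (.g (nat_lit 1578) (.e (nat_lit 5195) (nat_lit 294) (.e (nat_lit 57375) (nat_lit 2) (.e (nat_lit 90128) (nat_lit 9) (.e (nat_lit 297) (nat_lit 22) (.e (nat_lit 344118) (nat_lit 21) .nil))))) .nil)) 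
(.lf (nat_lit 107502) (.g (nat_lit 2697) (.e (nat_lit 5195) (nat_lit 294) (.e (nat_lit 57375) (nat_lit 2) (.e (nat_lit 90160) (nat_lit 11) (.e (nat_lit 24608) (nat_lit 3) (.e (nat_lit 98342) (nat_lit 20) .nil))))) .nil)))) (.nd (nat_lit 5) (.nd (nat_lit 6) 
(.lf (nat_lit 107422) (.g (nat_lit 1699) (.e (nat_lit 5195) (nat_lit 294) (.e (nat_lit 57372) (nat_lit 2) (.e (nat_lit 90160) (nat_lit 11) (.e (nat_lit 24654) (nat_lit 13) .nil)))) .nil)) 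
(.lf (nat_lit 107486) (.g (nat_lit 2313) (.e (nat_lit 5195) (nat_lit 294) (.e (nat_lit 57375) (nat_lit 2) (.e (nat_lit 90160) (nat_lit 11) (.e (nat_lit 24583) (nat_lit 0) .nil)))) .nil))) (.nd (nat_lit 6) 
(.lf (nat_lit 107454) (.g (nat_lit 3000) (.e (nat_lit 5195) (nat_lit 294) (.e (nat_lit 57375) (nat_lit 2) (.e (nat_lit 90158) (nat_lit 11) (.e (nat_lit 24628) (nat_lit 9) (.e (nat_lit 336367) (nat_lit 27) (.e (nat_lit 426533) (nat_lit 28) (.e (nat_lit 344100) (nat_lit 18) .nil))))))) (.g (nat_lit 7) .nil .nil))) 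
(.lf (nat_lit 107518) (.g (nat_lit 2274) (.e (nat_lit 5195) (nat_lit 294) (.e (nat_lit 57375) (nat_lit 2) (.e (nat_lit 90160) (nat_lit 11) (.e (nat_lit 24650) (nat_lit 12) .nil)))) .nil)))))))) (.nd (nat_lit 1) (.nd (nat_lit 2) (.nd (nat_lit 3) (.nd (nat_lit 4) (.nd (nat_lit 5) (.nd (nat_lit 6) 
(.lf (nat_lit 107393) (.g (nat_lit 1463) (.e (nat_lit 5195) (nat_lit 294) (.e (nat_lit 57372) (nat_lit 2) (.e (nat_lit 90158) (nat_lit 11) (.e (nat_lit 24657) (nat_lit 13) (.e (nat_lit 393227) (nat_lit 9) .nil))))) .nil)) 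
(.lf (nat_lit 107457) (.g (nat_lit 1647) (.e (nat_lit 5195) (nat_lit 294) (.e (nat_lit 57375) (nat_lit 2) (.e (nat_lit 90158) (nat_lit 11) (.e (nat_lit 24655) (nat_lit 13) (.e (nat_lit 393227) (nat_lit 9) (.e (nat_lit 335957) (nat_lit 0) (.e (nat_lit 1037) (nat_lit 81) .nil))))))) (.g (nat_lit 4) .nil .nil)))) (.nd (nat_lit 6) 
(.lf (nat_lit 107425) (.g (nat_lit 1678) (.e (nat_lit 5195) (nat_lit 294) (.e (nat_lit 57372) (nat_lit 2) (.e (nat_lit 90160) (nat_lit 11) (.e (nat_lit 24658) (nat_lit 13) .nil)))) .nil)) 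
(.lf (nat_lit 107489) (.g (nat_lit 2313) (.e (nat_lit 5195) (nat_lit 294) (.e (nat_lit 57375) (nat_lit 2) (.e (nat_lit 90160) (nat_lit 11) (.e (nat_lit 24587) (nat_lit 0) .nil)))) .nil)))) (.nd (nat_lit 5) (.nd (nat_lit 6) 
(.lf (nat_lit 107409) (.g (nat_lit 2335) (.e (nat_lit 5195) (nat_lit 294) (.e (nat_lit 57372) (nat_lit 2) (.e (nat_lit 90159) (nat_lit 11) (.e (nat_lit 24657) (nat_lit 13) (.e (nat_lit 401152) (nat_lit 10) (.e (nat_lit 344097) (nat_lit 18) .nil)))))) (.g (nat_lit 4) .nil .nil))) 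
(.lf (nat_lit 107473) (.g (nat_lit 878) (.e (nat_lit 5195) (nat_lit 294) (.e (nat_lit 57375) (nat_lit 2) (.e (nat_lit 90158) (nat_lit 11) (.e (nat_lit 24659) (nat_lit 13) .nil)))) .nil))) (.nd (nat_lit 6) 
(.lf (nat_lit 107441) (.g (nat_lit 1180) (.e (nat_lit 5195) (nat_lit 294) (.e (nat_lit 57375) (nat_lit 2) (.e (nat_lit 90129) (nat_lit 9) (.e (nat_lit 249) (nat_lit 21) (.e (nat_lit 336215) (nat_lit 13) .nil))))) .nil)) 
(.lf (nat_lit 107505) (.g (nat_lit 2870) (.e (nat_lit 5195) (nat_lit 294) (.e (nat_lit 57375) (nat_lit 2) (.e (nat_lit 90160) (nat_lit 11) (.e (nat_lit 24608) (nat_lit 3) (.e (nat_lit 98342) (nat_lit 20) (.e (nat_lit 221215) (nat_lit 23) (.e (nat_lit 204821) (nat_lit 17) (.e (nat_lit 1023) (nat_lit 81) .nil)))))))) (.g (nat_lit 4) .nil .nil)))))) (.nd (nat_lit 4) (.nd (nat_lit 5) (.nd (nat_lit 6) 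
(.lf (nat_lit 107401) (.g (nat_lit 1384) (.e (nat_lit 5195) (nat_lit 294) (.e (nat_lit 57372) (nat_lit 2) (.e (nat_lit 90158) (nat_lit 11) (.e (nat_lit 24658) (nat_lit 13) (.e (nat_lit 401152) (nat_lit 10) (.e (nat_lit 344099) (nat_lit 18) .nil)))))) (.g (nat_lit 4) .nil .nil))) 
(.lf (nat_lit 107465) (.g (nat_lit 1424) (.e (nat_lit 5195) (nat_lit 294) (.e (nat_lit 57375) (nat_lit 2) (.e (nat_lit 90158) (nat_lit 11) (.e (nat_lit 24657) (nat_lit 13) (.e (nat_lit 393227) (nat_lit 9) .nil))))) .nil))) (.nd (nat_lit 6) 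
(.lf (nat_lit 107433) (.g (nat_lit 1332) (.e (nat_lit 5195) (nat_lit 294) (.e (nat_lit 57374) (nat_lit 2) (.e (nat_lit 90134) (nat_lit 9) (.e (nat_lit 290) (nat_lit 21) .nil)))) .nil)) 
(.lf (nat_lit 107497) (.g (nat_lit 2956) (.e (nat_lit 5195) (nat_lit 294) (.e (nat_lit 57375) (nat_lit 2) (.e (nat_lit 90160) (nat_lit 11) (.e (nat_lit 24608) (nat_lit 3) (.e (nat_lit 98338) (nat_lit 19) .nil))))) .nil)))) (.nd (nat_lit 5) (.nd (nat_lit 6) 
(.lf (nat_lit 107417) (.g (nat_lit 1611) (.e (nat_lit 5195) (nat_lit 294) (.e (nat_lit 57372) (nat_lit 2) (.e (nat_lit 90160) (nat_lit 11) (.e (nat_lit 24617) (nat_lit 7) .nil)))) .nil)) 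
(.lf (nat_lit 107481) (.g (nat_lit 2070) (.e (nat_lit 5195) (nat_lit 294) (.e (nat_lit 57375) (nat_lit 2) (.e (nat_lit 90159) (nat_lit 11) (.e (nat_lit 24657) (nat_lit 13) (.e (nat_lit 393227) (nat_lit 9) (.e (nat_lit 335958) (nat_lit 0) (.e (nat_lit 1037) (nat_lit 81) .nil))))))) (.g (nat_lit 4) .nil .nil)))) (.nd (nat_lit 6) 
(.lf (nat_lit 107449) (.g (nat_lit 1743) (.e (nat_lit 5195) (nat_lit 294) (.e (nat_lit 57375) (nat_lit 2) (.e (nat_lit 90158) (nat_lit 11) (.e (nat_lit 24608) (nat_lit 3) (.e (nat_lit 98341) (nat_lit 20) .nil))))) .nil)) 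
(.lf (nat_lit 107513) (.g (nat_lit 3078) (.e (nat_lit 5195) (nat_lit 294) (.e (nat_lit 57375) (nat_lit 2) (.e (nat_lit 90160) (nat_lit 11) (.e (nat_lit 24628) (nat_lit 9) (.e (nat_lit 336367) (nat_lit 27) (.e (nat_lit 426533) (nat_lit 28) (.e (nat_lit 344100) (nat_lit 18) .nil))))))) (.g (nat_lit 6) .nil .nil))))))) (.nd (nat_lit 3) (.nd (nat_lit 4) (.nd (nat_lit 5) (.nd (nat_lit 6) 
(.lf (nat_lit 107397) (.g (nat_lit 1476) (.e (nat_lit 5195) (nat_lit 294) (.e (nat_lit 57372) (nat_lit 2) (.e (nat_lit 90158) (nat_lit 11) (.e (nat_lit 24658) (nat_lit 13) (.e (nat_lit 393227) (nat_lit 9) (.e (nat_lit 335957) (nat_lit 0) (.e (nat_lit 1037) (nat_lit 81) .nil))))))) (.g (nat_lit 4) .nil .nil))) 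
(.lf (nat_lit 107461) (.g (nat_lit 1590) (.e (nat_lit 5195) (nat_lit 294) (.e (nat_lit 57375) (nat_lit 2) (.e (nat_lit 90158) (nat_lit 11) (.e (nat_lit 24655) (nat_lit 13) (.e (nat_lit 401152) (nat_lit 10) .nil))))) .nil))) (.nd (nat_lit 6) 
(.lf (nat_lit 107429) (.g (nat_lit 3354) (.e (nat_lit 5195) (nat_lit 294) (.e (nat_lit 57372) (nat_lit 2) (.e (nat_lit 90160) (nat_lit 11) (.e (nat_lit 24665) (nat_lit 14) (.e (nat_lit 401414) (nat_lit 0) .nil))))) .nil)) 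
(.lf (nat_lit 107493) (.g (nat_lit 1935) (.e (nat_lit 5195) (nat_lit 294) (.e (nat_lit 57375) (nat_lit 2) (.e (nat_lit 90160) (nat_lit 11) (.e (nat_lit 24606) (nat_lit 3) .nil)))) .nil)))) (.nd (nat_lit 5) (.nd (nat_lit 6) 
(.lf (nat_lit 107413) (.g (nat_lit 2782) (.e (nat_lit 5195) (nat_lit 294) (.e (nat_lit 57372) (nat_lit 2) (.e (nat_lit 90160) (nat_lit 11) (.e (nat_lit 24608) (nat_lit 3) (.e (nat_lit 98341) (nat_lit 20) .nil))))) .nil)) 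
(.lf (nat_lit 107477) (.g (nat_lit 1379) (.e (nat_lit 5195) (nat_lit 294) (.e (nat_lit 57375) (nat_lit 2) (.e (nat_lit 90158) (nat_lit 11) (.e (nat_lit 24660) (nat_lit 13) (.e (nat_lit 401152) (nat_lit 10) .nil))))) .nil))) (.nd (nat_lit 6) 
(.lf (nat_lit 107445) (.g (nat_lit 1766) (.e (nat_lit 5195) (nat_lit 294) (.e (nat_lit 57375) (nat_lit 2) (.e (nat_lit 90157) (nat_lit 11) (.e (nat_lit 24657) (nat_lit 13) (.e (nat_lit 401152) (nat_lit 10) (.e (nat_lit 344101) (nat_lit 18) .nil)))))) (.g (nat_lit 4) .nil .nil))) 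
(.lf (nat_lit 107509) (.g (nat_lit 1654) (.e (nat_lit 5195) (nat_lit 294) (.e (nat_lit 57375) (nat_lit 2) (.e (nat_lit 90160) (nat_lit 11) (.e (nat_lit 24624) (nat_lit 9) .nil)))) .nil))))) (.nd (nat_lit 4) (.nd (nat_lit 5) (.nd (nat_lit 6) 
(.lf (nat_lit 107405) (.g (nat_lit 1499) (.e (nat_lit 5195) (nat_lit 294) (.e (nat_lit 57372) (nat_lit 2) (.e (nat_lit 90158) (nat_lit 11) (.e (nat_lit 24660) (nat_lit 13) (.e (nat_lit 393227) (nat_lit 9) .nil))))) .nil)) 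
(.lf (nat_lit 107469) (.g (nat_lit 1515) (.e (nat_lit 5195) (nat_lit 294) (.e (nat_lit 57375) (nat_lit 2) (.e (nat_lit 90158) (nat_lit 11) (.e (nat_lit 24658) (nat_lit 13) (.e (nat_lit 393227) (nat_lit 9) (.e (nat_lit 335957) (nat_lit 0) (.e (nat_lit 1037) (nat_lit 81) .nil))))))) (.g (nat_lit 4) .nil .nil)))) (.nd (nat_lit 6) 
(.lf (nat_lit 107437) (.g (nat_lit 471) (.e (nat_lit 5195) (nat_lit 294) (.e (nat_lit 57375) (nat_lit 2) (.e (nat_lit 90128) (nat_lit 9) .nil))) .nil)) 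
(.lf (nat_lit 107501) (.g (nat_lit 3001) (.e (nat_lit 5195) (nat_lit 294) (.e (nat_lit 57375) (nat_lit 2) (.e (nat_lit 90160) (nat_lit 11) (.e (nat_lit 24608) (nat_lit 3) (.e (nat_lit 98341) (nat_lit 20) (.e (nat_lit 221211) (nat_lit 22) (.e (nat_lit 196661) (nat_lit 12) (.e (nat_lit 57357) (nat_lit 0) .nil)))))))) (.g (nat_lit 4) .nil .nil))))) (.nd (nat_lit 5) (.nd (nat_lit 6) 
(.lf (nat_lit 107421) (.g (nat_lit 2438) (.e (nat_lit 5195) (nat_lit 294) (.e (nat_lit 57372) (nat_lit 2) (.e (nat_lit 90160) (nat_lit 11) (.e (nat_lit 24628) (nat_lit 9) (.e (nat_lit 336367) (nat_lit 27) (.e (nat_lit 426537) (nat_lit 28) (.e (nat_lit 344097) (nat_lit 18) .nil))))))) (.g (nat_lit 4) .nil .nil))) 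
(.lf (nat_lit 107485) (.g (nat_lit 2313) (.e (nat_lit 5195) (nat_lit 294) (.e (nat_lit 57375) (nat_lit 2) (.e (nat_lit 90160) (nat_lit 11) (.e (nat_lit 24576) (nat_lit 0) .nil)))) .nil))) (.nd (nat_lit 6) 
(.lf (nat_lit 107453) (.g (nat_lit 3110) (.e (nat_lit 5195) (nat_lit 294) (.e (nat_lit 57375) (nat_lit 2) (.e (nat_lit 90158) (nat_lit 11) (.e (nat_lit 24625) (nat_lit 9) (.e (nat_lit 336367) (nat_lit 27) (.e (nat_lit 426533) (nat_lit 28) (.e (nat_lit 344100) (nat_lit 18) .nil))))))) (.g (nat_lit 0) .nil .nil))) 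
(.lf (nat_lit 107517) (.g (nat_lit 2667) (.e (nat_lit 5195) (nat_lit 294) (.e (nat_lit 57375) (nat_lit 2) (.e (nat_lit 90160) (nat_lit 11) (.e (nat_lit 24648) (nat_lit 12) (.e (nat_lit 392960) (nat_lit 8) .nil))))) .nil))))))) (.nd (nat_lit 2) (.nd (nat_lit 3) (.nd (nat_lit 4) (.nd (nat_lit 5) (.nd (nat_lit 6) 
(.lf (nat_lit 107395) (.g (nat_lit 1437) (.e (nat_lit 5195) (nat_lit 294) (.e (nat_lit 57372) (nat_lit 2) (.e (nat_lit 90158) (nat_lit 11) (.e (nat_lit 24657) (nat_lit 13) (.e (nat_lit 401152) (nat_lit 10) .nil))))) .nil)) 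
(.lf (nat_lit 107459) (.g (nat_lit 3148) (.e (nat_lit 5195) (nat_lit 294) (.e (nat_lit 57375) (nat_lit 2) (.e (nat_lit 90158) (nat_lit 11) (.e (nat_lit 24655) (nat_lit 13) (.e (nat_lit 393229) (nat_lit 9) (.e (nat_lit 335886) (nat_lit 0) (.e (nat_lit 1023) (nat_lit 81) .nil))))))) (.g (nat_lit 5) .nil .nil)))) (.nd (nat_lit 6) 
(.lf (nat_lit 107427) (.g (nat_lit 1893) (.e (nat_lit 5195) (nat_lit 294) (.e (nat_lit 57372) (nat_lit 2) (.e (nat_lit 90160) (nat_lit 11) (.e (nat_lit 24660) (nat_lit 13) .nil)))) .nil)) 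
(.lf (nat_lit 107491) (.g (nat_lit 2300) (.e (nat_lit 5195) (nat_lit 294) (.e (nat_lit 57375) (nat_lit 2) (.e (nat_lit 90160) (nat_lit 11) (.e (nat_lit 24591) (nat_lit 0) .nil)))) .nil)))) (.nd (nat_lit 5) (.nd (nat_lit 6) 
(.lf (nat_lit 107411) (.g (nat_lit 621) (.e (nat_lit 5195) (nat_lit 294) (.e (nat_lit 57372) (nat_lit 2) (.e (nat_lit 90160) (nat_lit 11) .nil))) .nil)) 
(.lf (nat_lit 107475) (.g (nat_lit 878) (.e (nat_lit 5195) (nat_lit 294) (.e (nat_lit 57375) (nat_lit 2) (.e (nat_lit 90158) (nat_lit 11) (.e (nat_lit 24660) (nat_lit 13) .nil)))) .nil))) (.nd (nat_lit 6) 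
(.lf (nat_lit 107443) (.g (nat_lit 1171) (.e (nat_lit 5195) (nat_lit 294) (.e (nat_lit 57375) (nat_lit 2) (.e (nat_lit 90134) (nat_lit 9) (.e (nat_lit 290) (nat_lit 21) .nil)))) .nil)) 
(.lf (nat_lit 107507) (.g (nat_lit 2982) (.e (nat_lit 5195) (nat_lit 294) (.e (nat_lit 57375) (nat_lit 2) (.e (nat_lit 90160) (nat_lit 11) (.e (nat_lit 24609) (nat_lit 3) (.e (nat_lit 98342) (nat_lit 20) (.e (nat_lit 221212) (nat_lit 22) (.e (nat_lit 196660) (nat_lit 12) (.e (nat_lit 57354) (nat_lit 0) .nil)))))))) (.g (nat_lit 4) .nil .nil)))))) (.nd (nat_lit 4) (.nd (nat_lit 5) (.nd (nat_lit 6) 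
(.lf (nat_lit 107403) (.g (nat_lit 1411) (.e (nat_lit 5195) (nat_lit 294) (.e (nat_lit 57372) (nat_lit 2) (.e (nat_lit 90158) (nat_lit 11) (.e (nat_lit 24659) (nat_lit 13) (.e (nat_lit 401152) (nat_lit 10) (.e (nat_lit 344100) (nat_lit 18) .nil)))))) (.g (nat_lit 4) .nil .nil))) 
(.lf (nat_lit 107467) (.g (nat_lit 1399) (.e (nat_lit 5195) (nat_lit 294) (.e (nat_lit 57375) (nat_lit 2) (.e (nat_lit 90158) (nat_lit 11) (.e (nat_lit 24657) (nat_lit 13) (.e (nat_lit 401152) (nat_lit 10) .nil))))) .nil))) (.nd (nat_lit 6) 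
(.lf (nat_lit 107435) (.g (nat_lit 2326) (.e (nat_lit 5195) (nat_lit 294) (.e (nat_lit 57375) (nat_lit 2) (.e (nat_lit 98048) (nat_lit 6) (.e (nat_lit 81951) (nat_lit 22) (.e (nat_lit 90172) (nat_lit 14) (.e (nat_lit 188160) (nat_lit 0) .nil)))))) (.g (nat_lit 5) .nil .nil))) 
(.lf (nat_lit 107499) (.g (nat_lit 2770) (.e (nat_lit 5195) (nat_lit 294) (.e (nat_lit 57375) (nat_lit 2) (.e (nat_lit 90160) (nat_lit 11) (.e (nat_lit 24608) (nat_lit 3) (.e (nat_lit 98341) (nat_lit 20) (.e (nat_lit 221210) (nat_lit 22) (.e (nat_lit 196658) (nat_lit 12) (.e (nat_lit 57354) (nat_lit 0) .nil)))))))) (.g (nat_lit 4) .nil .nil))))) (.nd (nat_lit 5) (.nd (nat_lit 6) 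
(.lf (nat_lit 107419) (.g (nat_lit 2282) (.e (nat_lit 5195) (nat_lit 294) (.e (nat_lit 57372) (nat_lit 2) (.e (nat_lit 90160) (nat_lit 11) (.e (nat_lit 24625) (nat_lit 9) (.e (nat_lit 336367) (nat_lit 27) (.e (nat_lit 426537) (nat_lit 28) (.e (nat_lit 344097) (nat_lit 18) .nil))))))) (.g (nat_lit 4) .nil .nil))) 
(.lf (nat_lit 107483) (.g (nat_lit 1907) (.e (nat_lit 5195) (nat_lit 294) (.e (nat_lit 57375) (nat_lit 2) (.e (nat_lit 90159) (nat_lit 11) (.e (nat_lit 24657) (nat_lit 13) (.e (nat_lit 401152) (nat_lit 10) (.e (nat_lit 344101) (nat_lit 18) .nil)))))) (.g (nat_lit 4) .nil .nil)))) (.nd (nat_lit 6) 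
(.lf (nat_lit 107451) (.g (nat_lit 2727) (.e (nat_lit 5195) (nat_lit 294) (.e (nat_lit 57375) (nat_lit 2) (.e (nat_lit 90158) (nat_lit 11) (.e (nat_lit 24608) (nat_lit 3) (.e (nat_lit 98342) (nat_lit 20) (.e (nat_lit 221211) (nat_lit 22) (.e (nat_lit 196661) (nat_lit 12) (.e (nat_lit 57357) (nat_lit 0) .nil)))))))) (.g (nat_lit 5) .nil .nil))) 
(.lf (nat_lit 107515) (.g (nat_lit 1959) (.e (nat_lit 5195) (nat_lit 294) (.e (nat_lit 57375) (nat_lit 2) (.e (nat_lit 90160) (nat_lit 11) (.e (nat_lit 24630) (nat_lit 9) .nil)))) .nil)))))) (.nd (nat_lit 3) (.nd (nat_lit 4) (.nd (nat_lit 5) (.nd (nat_lit 6) 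
(.lf (nat_lit 107399) (.g (nat_lit 2578) (.e (nat_lit 5195) (nat_lit 294) (.e (nat_lit 57372) (nat_lit 2) (.e (nat_lit 90158) (nat_lit 11) (.e (nat_lit 24658) (nat_lit 13) (.e (nat_lit 393229) (nat_lit 9) (.e (nat_lit 335933) (nat_lit 0) (.e (nat_lit 1040) (nat_lit 81) .nil))))))) (.g (nat_lit 5) .nil .nil))) 
(.lf (nat_lit 107463) (.g (nat_lit 996) (.e (nat_lit 5195) (nat_lit 294) (.e (nat_lit 57375) (nat_lit 2) (.e (nat_lit 90158) (nat_lit 11) (.e (nat_lit 24656) (nat_lit 13) .nil)))) .nil))) (.nd (nat_lit 6) 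
(.lf (nat_lit 107431) (.g (nat_lit 2542) (.e (nat_lit 5195) (nat_lit 294) (.e (nat_lit 57374) (nat_lit 2) (.e (nat_lit 98048) (nat_lit 8) (.e (nat_lit 131116) (nat_lit 9) (.e (nat_lit 336004) (nat_lit 2) (.e (nat_lit 90172) (nat_lit 14) (.e (nat_lit 188160) (nat_lit 0) .nil))))))) (.g (nat_lit 6) .nil .nil))) 
(.lf (nat_lit 107495) (.g (nat_lit 3095) (.e (nat_lit 5195) (nat_lit 294) (.e (nat_lit 57375) (nat_lit 2) (.e (nat_lit 90160) (nat_lit 11) (.e (nat_lit 24607) (nat_lit 3) (.e (nat_lit 98342) (nat_lit 20) .nil))))) .nil)))) (.nd (nat_lit 5) (.nd (nat_lit 6) 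
(.lf (nat_lit 107415) (.g (nat_lit 2855) (.e (nat_lit 5195) (nat_lit 294) (.e (nat_lit 57372) (nat_lit 2) (.e (nat_lit 90160) (nat_lit 11) (.e (nat_lit 24608) (nat_lit 3) (.e (nat_lit 98342) (nat_lit 20) .nil))))) .nil)) 
(.lf (nat_lit 107479) (.g (nat_lit 434) (.e (nat_lit 5195) (nat_lit 294) (.e (nat_lit 57375) (nat_lit 2) (.e (nat_lit 90159) (nat_lit 11) .nil))) .nil))) (.nd (nat_lit 6) 
(.lf (nat_lit 107447) (.g (nat_lit 2593) (.e (nat_lit 5195) (nat_lit 294) (.e (nat_lit 57375) (nat_lit 2) (.e (nat_lit 90158) (nat_lit 11) (.e (nat_lit 24608) (nat_lit 3) (.e (nat_lit 98321) (nat_lit 17) .nil))))) .nil)) 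
(.lf (nat_lit 107511) (.g (nat_lit 2913) (.e (nat_lit 5195) (nat_lit 294) (.e (nat_lit 57375) (nat_lit 2) (.e (nat_lit 90160) (nat_lit 11) (.e (nat_lit 24625) (nat_lit 9) (.e (nat_lit 336367) (nat_lit 27) (.e (nat_lit 426533) (nat_lit 28) (.e (nat_lit 344100) (nat_lit 18) .nil))))))) (.g (nat_lit 5) .nil .nil)))))) (.nd (nat_lit 4) (.nd (nat_lit 5) (.nd (nat_lit 6) 
(.lf (nat_lit 107407) (.g (nat_lit 1668) (.e (nat_lit 5195) (nat_lit 294) (.e (nat_lit 57372) (nat_lit 2) (.e (nat_lit 90158) (nat_lit 11) (.e (nat_lit 24660) (nat_lit 13) (.e (nat_lit 401152) (nat_lit 10) (.e (nat_lit 344101) (nat_lit 18) .nil)))))) (.g (nat_lit 4) .nil .nil))) 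
(.lf (nat_lit 107471) (.g (nat_lit 1374) (.e (nat_lit 5195) (nat_lit 294) (.e (nat_lit 57375) (nat_lit 2) (.e (nat_lit 90158) (nat_lit 11) (.e (nat_lit 24658) (nat_lit 13) (.e (nat_lit 401152) (nat_lit 10) .nil))))) .nil))) (.nd (nat_lit 6) 
(.lf (nat_lit 107439) (.g (nat_lit 1386) (.e (nat_lit 5195) (nat_lit 294) (.e (nat_lit 57375) (nat_lit 2) (.e (nat_lit 90128) (nat_lit 9) (.e (nat_lit 297) (nat_lit 22) (.e (nat_lit 344119) (nat_lit 21) .nil))))) .nil)) 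
(.lf (nat_lit 107503) (.g (nat_lit 3391) (.e (nat_lit 5195) (nat_lit 294) (.e (nat_lit 57375) (nat_lit 2) (.e (nat_lit 90160) (nat_lit 11) (.e (nat_lit 24608) (nat_lit 3) (.e (nat_lit 98342) (nat_lit 20) (.e (nat_lit 221212) (nat_lit 22) (.e (nat_lit 196659) (nat_lit 12) (.e (nat_lit 57354) (nat_lit 0) .nil)))))))) (.g (nat_lit 5) .nil .nil))))) (.nd (nat_lit 5) (.nd (nat_lit 6) 
(.lf (nat_lit 107423) (.g (nat_lit 2878) (.e (nat_lit 5195) (nat_lit 294) (.e (nat_lit 57372) (nat_lit 2) (.e (nat_lit 90160) (nat_lit 11) (.e (nat_lit 24657) (nat_lit 13) (.e (nat_lit 393227) (nat_lit 9) .nil))))) .nil)) 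
(.lf (nat_lit 107487) (.g (nat_lit 2313) (.e (nat_lit 5195) (nat_lit 294) (.e (nat_lit 57375) (nat_lit 2) (.e (nat_lit 90160) (nat_lit 11) (.e (nat_lit 24585) (nat_lit 0) .nil)))) .nil))) (.nd (nat_lit 6) 
(.lf (nat_lit 107455) (.g (nat_lit 1496) (.e (nat_lit 5195) (nat_lit 294) (.e (nat_lit 57375) (nat_lit 2) (.e (nat_lit 90158) (nat_lit 11) (.e (nat_lit 24628) (nat_lit 9) (.e (nat_lit 336374) (nat_lit 27) (.e (nat_lit 426535) (nat_lit 28) (.e (nat_lit 344097) (nat_lit 18) .nil))))))) (.g (nat_lit 4) .nil .nil))) 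
(.lf (nat_lit 107519) (.g (nat_lit 2313) (.e (nat_lit 5195) (nat_lit 294) (.e (nat_lit 57375) (nat_lit 2) (.e (nat_lit 90160) (nat_lit 11) (.e (nat_lit 24651) (nat_lit 12) .nil)))) .nil)))))))))

noncomputable def tv1459 : DT := (.nd (nat_lit 0) (.nd (nat_lit 1) (.nd (nat_lit 2) (.nd (nat_lit 3) (.nd (nat_lit 4) (.nd (nat_lit 5) (.nd (nat_lit 6) 
(.lf (nat_lit 107520) (.g (nat_lit 2313) (.e (nat_lit 5195) (nat_lit 294) (.e (nat_lit 57375) (nat_lit 2) (.e (nat_lit 90160) (nat_lit 11) (.e (nat_lit 24652) (nat_lit 12) .nil)))) .nil)) 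
(.lf (nat_lit 107584) (.g (nat_lit 4043) (.e (nat_lit 5195) (nat_lit 294) (.e (nat_lit 57377) (nat_lit 3) (.e (nat_lit 98317) (nat_lit 9) (.e (nat_lit 335913) (nat_lit 0) .nil)))) .nil))) (.nd (nat_lit 6) 
(.lf (nat_lit 107552) (.g (nat_lit 3269) (.e (nat_lit 5195) (nat_lit 294) (.e (nat_lit 57377) (nat_lit 3) (.e (nat_lit 98313) (nat_lit 9) (.e (nat_lit 336027) (nat_lit 3) (.e (nat_lit 98341) (nat_lit 20) (.e (nat_lit 221215) (nat_lit 23) (.e (nat_lit 204821) (nat_lit 17) (.e (nat_lit 1040) (nat_lit 81) .nil)))))))) (.g (nat_lit 6) .nil .nil))) 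
(.lf (nat_lit 107616) (.g (nat_lit 3057) (.e (nat_lit 5195) (nat_lit 294) (.e (nat_lit 57377) (nat_lit 3) (.e (nat_lit 98317) (nat_lit 9) (.e (nat_lit 336076) (nat_lit 9) (.e (nat_lit 336367) (nat_lit 27) (.e (nat_lit 426533) (nat_lit 28) (.e (nat_lit 344100) (nat_lit 18) .nil))))))) (.g (nat_lit 6) .nil .nil))))) (.nd (nat_lit 5) (.nd (nat_lit 6) 
(.lf (nat_lit 107536) (.g (nat_lit 1623) (.e (nat_lit 5195) (nat_lit 294) (.e (nat_lit 57375) (nat_lit 2) (.e (nat_lit 90160) (nat_lit 11) (.e (nat_lit 24660) (nat_lit 13) .nil)))) .nil)) 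
(.lf (nat_lit 107600) (.g (nat_lit 3212) (.e (nat_lit 5195) (nat_lit 294) (.e (nat_lit 57377) (nat_lit 3) (.e (nat_lit 98317) (nat_lit 9) (.e (nat_lit 336027) (nat_lit 3) (.e (nat_lit 98321) (nat_lit 17) (.e (nat_lit 3771) (nat_lit 229) (.e (nat_lit 794673) (nat_lit 23) (.e (nat_lit 204821) (nat_lit 17) (.e (nat_lit 1040) (nat_lit 81) .nil))))))))) (.g (nat_lit 4) .nil .nil)))) (.nd (nat_lit 6) 
(.lf (nat_lit 107568) (.g (nat_lit 1681) (.e (nat_lit 5195) (nat_lit 294) (.e (nat_lit 57377) (nat_lit 3) (.e (nat_lit 98313) (nat_lit 9) (.e (nat_lit 336223) (nat_lit 13) (.e (nat_lit 393227) (nat_lit 9) .nil))))) .nil)) 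
(.lf (nat_lit 107632) (.g (nat_lit 3057) (.e (nat_lit 5195) (nat_lit 294) (.e (nat_lit 57377) (nat_lit 3) (.e (nat_lit 98317) (nat_lit 9) (.e (nat_lit 336087) (nat_lit 9) .nil)))) .nil))))) (.nd (nat_lit 4) (.nd (nat_lit 5) (.nd (nat_lit 6) 
(.lf (nat_lit 107528) (.g (nat_lit 2018) (.e (nat_lit 5195) (nat_lit 294) (.e (nat_lit 57375) (nat_lit 2) (.e (nat_lit 90160) (nat_lit 11) (.e (nat_lit 24657) (nat_lit 13) (.e (nat_lit 393227) (nat_lit 9) .nil))))) .nil)) 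
(.lf (nat_lit 107592) (.g (nat_lit 4062) (.e (nat_lit 5195) (nat_lit 294) (.e (nat_lit 57377) (nat_lit 3) (.e (nat_lit 98317) (nat_lit 9) (.e (nat_lit 336020) (nat_lit 3) (.e (nat_lit 98342) (nat_lit 20) .nil))))) .nil))) (.nd (nat_lit 6) 
(.lf (nat_lit 107560) (.g (nat_lit 1632) (.e (nat_lit 5195) (nat_lit 294) (.e (nat_lit 57377) (nat_lit 3) (.e (nat_lit 98313) (nat_lit 9) (.e (nat_lit 336088) (nat_lit 9) (.e (nat_lit 336367) (nat_lit 27) .nil))))) .nil)) 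
(.lf (nat_lit 107624) (.g (nat_lit 3893) (.e (nat_lit 5195) (nat_lit 294) (.e (nat_lit 57377) (nat_lit 3) (.e (nat_lit 98317) (nat_lit 9) (.e (nat_lit 336085) (nat_lit 9) (.e (nat_lit 336367) (nat_lit 27) (.e (nat_lit 426537) (nat_lit 28) (.e (nat_lit 344097) (nat_lit 18) .nil))))))) (.g (nat_lit 4) .nil .nil))))) (.nd (nat_lit 5) (.nd (nat_lit 6) 
(.lf (nat_lit 107544) (.g (nat_lit 1989) (.e (nat_lit 5195) (nat_lit 294) (.e (nat_lit 57377) (nat_lit 3) (.e (nat_lit 98313) (nat_lit 9) (.e (nat_lit 336027) (nat_lit 3) (.e (nat_lit 98321) (nat_lit 17) (.e (nat_lit 3771) (nat_lit 229) (.e (nat_lit 794673) (nat_lit 23) (.e (nat_lit 204821) (nat_lit 17) (.e (nat_lit 1023) (nat_lit 81) .nil))))))))) (.g (nat_lit 4) .nil .nil))) 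
(.lf (nat_lit 107608) (.g (nat_lit 3012) (.e (nat_lit 5195) (nat_lit 294) (.e (nat_lit 57377) (nat_lit 3) (.e (nat_lit 98317) (nat_lit 9) (.e (nat_lit 336027) (nat_lit 3) (.e (nat_lit 98342) (nat_lit 20) (.e (nat_lit 221215) (nat_lit 23) (.e (nat_lit 204821) (nat_lit 17) (.e (nat_lit 1023) (nat_lit 81) .nil)))))))) (.g (nat_lit 4) .nil .nil)))) (.nd (nat_lit 6) 
(.lf (nat_lit 107576) (.g (nat_lit 4043) (.e (nat_lit 5195) (nat_lit 294) (.e (nat_lit 57377) (nat_lit 3) (.e (nat_lit 98317) (nat_lit 9) (.e (nat_lit 335886) (nat_lit 0) .nil)))) .nil)) 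
(.lf (nat_lit 107640) (.g (nat_lit 2322) (.e (nat_lit 5195) (nat_lit 294) (.e (nat_lit 57377) (nat_lit 3) (.e (nat_lit 98317) (nat_lit 9) (.e (nat_lit 336088) (nat_lit 9) (.e (nat_lit 336366) (nat_lit 27) (.e (nat_lit 426537) (nat_lit 28) (.e (nat_lit 344097) (nat_lit 18) .nil))))))) (.g (nat_lit 4) .nil .nil))))))) (.nd (nat_lit 3) (.nd (nat_lit 4) (.nd (nat_lit 5) (.nd (nat_lit 6) 
(.lf (nat_lit 107524) (.g (nat_lit 1928) (.e (nat_lit 5195) (nat_lit 294) (.e (nat_lit 57375) (nat_lit 2) (.e (nat_lit 90160) (nat_lit 11) (.e (nat_lit 24655) (nat_lit 13) (.e (nat_lit 401152) (nat_lit 10) .nil))))) .nil)) 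
(.lf (nat_lit 107588) (.g (nat_lit 4043) (.e (nat_lit 5195) (nat_lit 294) (.e (nat_lit 57377) (nat_lit 3) (.e (nat_lit 98317) (nat_lit 9) (.e (nat_lit 335931) (nat_lit 0) .nil)))) .nil))) (.nd (nat_lit 6) 
(.lf (nat_lit 107556) (.g (nat_lit 3349) (.e (nat_lit 5195) (nat_lit 294) (.e (nat_lit 57377) (nat_lit 3) (.e (nat_lit 98313) (nat_lit 9) (.e (nat_lit 336027) (nat_lit 3) (.e (nat_lit 98342) (nat_lit 20) (.e (nat_lit 221212) (nat_lit 22) (.e (nat_lit 196659) (nat_lit 12) (.e (nat_lit 57354) (nat_lit 0) .nil)))))))) (.g (nat_lit 6) .nil .nil))) 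
(.lf (nat_lit 107620) (.g (nat_lit 3412) (.e (nat_lit 5195) (nat_lit 294) (.e (nat_lit 57377) (nat_lit 3) (.e (nat_lit 98317) (nat_lit 9) (.e (nat_lit 336078) (nat_lit 9) .nil)))) .nil)))) (.nd (nat_lit 5) (.nd (nat_lit 6) 
(.lf (nat_lit 107540) (.g (nat_lit 3480) (.e (nat_lit 5195) (nat_lit 294) (.e (nat_lit 57375) (nat_lit 2) (.e (nat_lit 90160) (nat_lit 11) (.e (nat_lit 24665) (nat_lit 14) (.e (nat_lit 401414) (nat_lit 0) (.e (nat_lit 3578) (nat_lit 223) (.e (nat_lit 745476) (nat_lit 0) (.e (nat_lit 1535) (nat_lit 109) (.e (nat_lit 344097) (nat_lit 18) .nil))))))))) (.g (nat_lit 4) .nil .nil))) 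
(.lf (nat_lit 107604) (.g (nat_lit 3055) (.e (nat_lit 5195) (nat_lit 294) (.e (nat_lit 57377) (nat_lit 3) (.e (nat_lit 98317) (nat_lit 9) (.e (nat_lit 336027) (nat_lit 3) (.e (nat_lit 98341) (nat_lit 20) (.e (nat_lit 221214) (nat_lit 23) (.e (nat_lit 204821) (nat_lit 17) (.e (nat_lit 1023) (nat_lit 81) .nil)))))))) (.g (nat_lit 4) .nil .nil)))) (.nd (nat_lit 6) 
(.lf (nat_lit 107572) (.g (nat_lit 1651) (.e (nat_lit 5195) (nat_lit 294) (.e (nat_lit 57377) (nat_lit 3) (.e (nat_lit 98313) (nat_lit 9) (.e (nat_lit 336223) (nat_lit 13) (.e (nat_lit 401152) (nat_lit 10) (.e (nat_lit 344101) (nat_lit 18) .nil)))))) (.g (nat_lit 4) .nil .nil))) 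
(.lf (nat_lit 107636) (.g (nat_lit 3643) (.e (nat_lit 5195) (nat_lit 294) (.e (nat_lit 57377) (nat_lit 3) (.e (nat_lit 98317) (nat_lit 9) (.e (nat_lit 336087) (nat_lit 9) (.e (nat_lit 336372) (nat_lit 27) .nil))))) .nil))))) (.nd (nat_lit 4) (.nd (nat_lit 5) (.nd (nat_lit 6) 
(.lf (nat_lit 107532) (.g (nat_lit 2337) (.e (nat_lit 5195) (nat_lit 294) (.e (nat_lit 57375) (nat_lit 2) (.e (nat_lit 90160) (nat_lit 11) (.e (nat_lit 24658) (nat_lit 13) (.e (nat_lit 393227) (nat_lit 9) .nil))))) .nil)) 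
(.lf (nat_lit 107596) (.g (nat_lit 3491) (.e (nat_lit 5195) (nat_lit 294) (.e (nat_lit 57377) (nat_lit 3) (.e (nat_lit 98317) (nat_lit 9) (.e (nat_lit 336026) (nat_lit 3) .nil)))) .nil))) (.nd (nat_lit 6) 
(.lf (nat_lit 107564) (.g (nat_lit 2145) (.e (nat_lit 5195) (nat_lit 294) (.e (nat_lit 57377) (nat_lit 3) (.e (nat_lit 98313) (nat_lit 9) (.e (nat_lit 336215) (nat_lit 13) (.e (nat_lit 401152) (nat_lit 10) (.e (nat_lit 344097) (nat_lit 18) .nil)))))) (.g (nat_lit 4) .nil .nil))) 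
(.lf (nat_lit 107628) (.g (nat_lit 3587) (.e (nat_lit 5195) (nat_lit 294) (.e (nat_lit 57377) (nat_lit 3) (.e (nat_lit 98317) (nat_lit 9) (.e (nat_lit 336086) (nat_lit 9) (.e (nat_lit 336374) (nat_lit 27) (.e (nat_lit 426537) (nat_lit 28) (.e (nat_lit 344097) (nat_lit 18) .nil))))))) (.g (nat_lit 4) .nil .nil))))) (.nd (nat_lit 5) (.nd (nat_lit 6) 
(.lf (nat_lit 107548) (.g (nat_lit 2268) (.e (nat_lit 5195) (nat_lit 294) (.e (nat_lit 57377) (nat_lit 3) (.e (nat_lit 98313) (nat_lit 9) (.e (nat_lit 336027) (nat_lit 3) (.e (nat_lit 98338) (nat_lit 19) (.e (nat_lit 213013) (nat_lit 9) (.e (nat_lit 2684) (nat_lit 168) (.e (nat_lit 204822) (nat_lit 17) (.e (nat_lit 1023) (nat_lit 81) .nil))))))))) (.g (nat_lit 4) .nil .nil))) 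
(.lf (nat_lit 107612) (.g (nat_lit 4043) (.e (nat_lit 5195) (nat_lit 294) (.e (nat_lit 57377) (nat_lit 3) (.e (nat_lit 98317) (nat_lit 9) (.e (nat_lit 336070) (nat_lit 8) .nil)))) .nil))) (.nd (nat_lit 6) 
(.lf (nat_lit 107580) (.g (nat_lit 3816) (.e (nat_lit 5195) (nat_lit 294) (.e (nat_lit 57377) (nat_lit 3) (.e (nat_lit 98317) (nat_lit 9) (.e (nat_lit 335899) (nat_lit 0) .nil)))) .nil)) 
(.lf (nat_lit 107644) (.g (nat_lit 3621) (.e (nat_lit 5195) (nat_lit 294) (.e (nat_lit 57377) (nat_lit 3) (.e (nat_lit 98317) (nat_lit 9) (.e (nat_lit 336194) (nat_lit 12) .nil)))) .nil))))))) (.nd (nat_lit 2) (.nd (nat_lit 3) (.nd (nat_lit 4) (.nd (nat_lit 5) (.nd (nat_lit 6) 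
(.lf (nat_lit 107522) (.g (nat_lit 1494) (.e (nat_lit 5195) (nat_lit 294) (.e (nat_lit 57375) (nat_lit 2) (.e (nat_lit 90160) (nat_lit 11) (.e (nat_lit 24654) (nat_lit 13) .nil)))) .nil)) 
(.lf (nat_lit 107586) (.g (nat_lit 4043) (.e (nat_lit 5195) (nat_lit 294) (.e (nat_lit 57377) (nat_lit 3) (.e (nat_lit 98317) (nat_lit 9) (.e (nat_lit 335917) (nat_lit 0) .nil)))) .nil))) (.nd (nat_lit 6) 
(.lf (nat_lit 107554) (.g (nat_lit 1887) (.e (nat_lit 5195) (nat_lit 294) (.e (nat_lit 57377) (nat_lit 3) (.e (nat_lit 98313) (nat_lit 9) (.e (nat_lit 336027) (nat_lit 3) (.e (nat_lit 98342) (nat_lit 20) (.e (nat_lit 221211) (nat_lit 22) (.e (nat_lit 196660) (nat_lit 12) (.e (nat_lit 57354) (nat_lit 0) .nil)))))))) (.g (nat_lit 4) .nil .nil))) 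
(.lf (nat_lit 107618) (.g (nat_lit 2272) (.e (nat_lit 5195) (nat_lit 294) (.e (nat_lit 57377) (nat_lit 3) (.e (nat_lit 98317) (nat_lit 9) (.e (nat_lit 336076) (nat_lit 9) (.e (nat_lit 336456) (nat_lit 34) .nil))))) .nil)))) (.nd (nat_lit 5) (.nd (nat_lit 6) 
(.lf (nat_lit 107538) (.g (nat_lit 2188) (.e (nat_lit 5195) (nat_lit 294) (.e (nat_lit 57375) (nat_lit 2) (.e (nat_lit 90160) (nat_lit 11) (.e (nat_lit 24660) (nat_lit 13) (.e (nat_lit 401152) (nat_lit 13) (.e (nat_lit 368662) (nat_lit 18) .nil)))))) (.g (nat_lit 4) .nil .nil))) 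
(.lf (nat_lit 107602) (.g (nat_lit 2856) (.e (nat_lit 5195) (nat_lit 294) (.e (nat_lit 57377) (nat_lit 3) (.e (nat_lit 98317) (nat_lit 9) (.e (nat_lit 336027) (nat_lit 3) (.e (nat_lit 98341) (nat_lit 20) .nil))))) .nil))) (.nd (nat_lit 6) 
(.lf (nat_lit 107570) (.g (nat_lit 1621) (.e (nat_lit 5195) (nat_lit 294) (.e (nat_lit 57377) (nat_lit 3) (.e (nat_lit 98313) (nat_lit 9) (.e (nat_lit 336223) (nat_lit 13) (.e (nat_lit 401152) (nat_lit 10) .nil))))) .nil)) 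
(.lf (nat_lit 107634) (.g (nat_lit 3633) (.e (nat_lit 5195) (nat_lit 294) (.e (nat_lit 57377) (nat_lit 3) (.e (nat_lit 98317) (nat_lit 9) (.e (nat_lit 336087) (nat_lit 9) (.e (nat_lit 336367) (nat_lit 27) (.e (nat_lit 426533) (nat_lit 28) (.e (nat_lit 344100) (nat_lit 18) .nil))))))) (.g (nat_lit 4) .nil .nil)))))) (.nd (nat_lit 4) (.nd (nat_lit 5) (.nd (nat_lit 6) 
(.lf (nat_lit 107530) (.g (nat_lit 2394) (.e (nat_lit 5195) (nat_lit 294) (.e (nat_lit 57375) (nat_lit 2) (.e (nat_lit 90160) (nat_lit 11) (.e (nat_lit 24657) (nat_lit 13) (.e (nat_lit 401152) (nat_lit 10) (.e (nat_lit 344101) (nat_lit 18) .nil)))))) (.g (nat_lit 4) .nil .nil))) 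
(.lf (nat_lit 107594) (.g (nat_lit 5117) (.e (nat_lit 5195) (nat_lit 294) (.e (nat_lit 57377) (nat_lit 3) (.e (nat_lit 98317) (nat_lit 9) (.e (nat_lit 336021) (nat_lit 3) (.e (nat_lit 98342) (nat_lit 20) .nil))))) .nil))) (.nd (nat_lit 6) 
(.lf (nat_lit 107562) (.g (nat_lit 945) (.e (nat_lit 5195) (nat_lit 294) (.e (nat_lit 57377) (nat_lit 3) (.e (nat_lit 98313) (nat_lit 9) (.e (nat_lit 336215) (nat_lit 13) .nil)))) .nil)) 
(.lf (nat_lit 107626) (.g (nat_lit 3430) (.e (nat_lit 5195) (nat_lit 294) (.e (nat_lit 57377) (nat_lit 3) (.e (nat_lit 98317) (nat_lit 9) (.e (nat_lit 336086) (nat_lit 9) (.e (nat_lit 336366) (nat_lit 27) .nil))))) .nil)))) (.nd (nat_lit 5) (.nd (nat_lit 6) 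
(.lf (nat_lit 107546) (.g (nat_lit 2750) (.e (nat_lit 5195) (nat_lit 294) (.e (nat_lit 57377) (nat_lit 3) (.e (nat_lit 98313) (nat_lit 9) (.e (nat_lit 336027) (nat_lit 3) (.e (nat_lit 98338) (nat_lit 19) (.e (nat_lit 213013) (nat_lit 9) (.e (nat_lit 2666) (nat_lit 167) (.e (nat_lit 196661) (nat_lit 12) (.e (nat_lit 57357) (nat_lit 0) .nil))))))))) (.g (nat_lit 5) .nil .nil))) 
(.lf (nat_lit 107610) (.g (nat_lit 4043) (.e (nat_lit 5195) (nat_lit 294) (.e (nat_lit 57377) (nat_lit 3) (.e (nat_lit 98317) (nat_lit 9) (.e (nat_lit 336068) (nat_lit 8) .nil)))) .nil))) (.nd (nat_lit 6) 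
(.lf (nat_lit 107578) (.g (nat_lit 4220) (.e (nat_lit 5195) (nat_lit 294) (.e (nat_lit 57377) (nat_lit 3) (.e (nat_lit 98317) (nat_lit 9) (.e (nat_lit 335892) (nat_lit 0) (.e (nat_lit 1803) (nat_lit 119) .nil))))) .nil)) 
(.lf (nat_lit 107642) (.g (nat_lit 4015) (.e (nat_lit 5195) (nat_lit 294) (.e (nat_lit 57377) (nat_lit 3) (.e (nat_lit 98317) (nat_lit 9) (.e (nat_lit 336150) (nat_lit 9) .nil)))) .nil)))))) (.nd (nat_lit 3) (.nd (nat_lit 4) (.nd (nat_lit 5) (.nd (nat_lit 6) 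
(.lf (nat_lit 107526) (.g (nat_lit 2081) (.e (nat_lit 5195) (nat_lit 294) (.e (nat_lit 57375) (nat_lit 2) (.e (nat_lit 90160) (nat_lit 11) (.e (nat_lit 24655) (nat_lit 13) (.e (nat_lit 401152) (nat_lit 10) (.e (nat_lit 344101) (nat_lit 18) .nil)))))) (.g (nat_lit 4) .nil .nil))) 
(.lf (nat_lit 107590) (.g (nat_lit 4040) (.e (nat_lit 5195) (nat_lit 294) (.e (nat_lit 57377) (nat_lit 3) (.e (nat_lit 98317) (nat_lit 9) (.e (nat_lit 335934) (nat_lit 0) .nil)))) .nil))) (.nd (nat_lit 6) 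
(.lf (nat_lit 107558) (.g (nat_lit 3301) (.e (nat_lit 5195) (nat_lit 294) (.e (nat_lit 57377) (nat_lit 3) (.e (nat_lit 98313) (nat_lit 9) (.e (nat_lit 336027) (nat_lit 3) (.e (nat_lit 98342) (nat_lit 20) (.e (nat_lit 221214) (nat_lit 23) (.e (nat_lit 204821) (nat_lit 17) (.e (nat_lit 1040) (nat_lit 81) .nil)))))))) (.g (nat_lit 6) .nil .nil))) 
(.lf (nat_lit 107622) (.g (nat_lit 3615) (.e (nat_lit 5195) (nat_lit 294) (.e (nat_lit 57377) (nat_lit 3) (.e (nat_lit 98317) (nat_lit 9) (.e (nat_lit 336085) (nat_lit 9) .nil)))) .nil)))) (.nd (nat_lit 5) (.nd (nat_lit 6) 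
(.lf (nat_lit 107542) (.g (nat_lit 3109) (.e (nat_lit 5195) (nat_lit 294) (.e (nat_lit 57375) (nat_lit 2) (.e (nat_lit 90160) (nat_lit 11) (.e (nat_lit 24665) (nat_lit 14) (.e (nat_lit 401468) (nat_lit 27) .nil))))) .nil)) 
(.lf (nat_lit 107606) (.g (nat_lit 3004) (.e (nat_lit 5195) (nat_lit 294) (.e (nat_lit 57377) (nat_lit 3) (.e (nat_lit 98317) (nat_lit 9) (.e (nat_lit 336027) (nat_lit 3) (.e (nat_lit 98342) (nat_lit 20) .nil))))) .nil))) (.nd (nat_lit 6) 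
(.lf (nat_lit 107574) (.g (nat_lit 432) (.e (nat_lit 5195) (nat_lit 294) (.e (nat_lit 57377) (nat_lit 3) (.e (nat_lit 98315) (nat_lit 9) .nil))) .nil)) 
(.lf (nat_lit 107638) (.g (nat_lit 1362) (.e (nat_lit 5195) (nat_lit 294) (.e (nat_lit 57377) (nat_lit 3) (.e (nat_lit 98317) (nat_lit 9) (.e (nat_lit 336088) (nat_lit 9) .nil)))) .nil))))) (.nd (nat_lit 4) (.nd (nat_lit 5) (.nd (nat_lit 6) 
(.lf (nat_lit 107534) (.g (nat_lit 2321) (.e (nat_lit 5195) (nat_lit 294) (.e (nat_lit 57375) (nat_lit 2) (.e (nat_lit 90160) (nat_lit 11) (.e (nat_lit 24658) (nat_lit 13) (.e (nat_lit 401152) (nat_lit 13) .nil))))) .nil)) 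
(.lf (nat_lit 107598) (.g (nat_lit 2200) (.e (nat_lit 5195) (nat_lit 294) (.e (nat_lit 57377) (nat_lit 3) (.e (nat_lit 98317) (nat_lit 9) (.e (nat_lit 336027) (nat_lit 3) .nil)))) .nil))) (.nd (nat_lit 6) 
(.lf (nat_lit 107566) (.g (nat_lit 1921) (.e (nat_lit 5195) (nat_lit 294) (.e (nat_lit 57377) (nat_lit 3) (.e (nat_lit 98313) (nat_lit 9) (.e (nat_lit 336215) (nat_lit 13) (.e (nat_lit 401152) (nat_lit 13) (.e (nat_lit 368662) (nat_lit 18) .nil)))))) (.g (nat_lit 4) .nil .nil))) 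
(.lf (nat_lit 107630) (.g (nat_lit 3200) (.e (nat_lit 5195) (nat_lit 294) (.e (nat_lit 57377) (nat_lit 3) (.e (nat_lit 98317) (nat_lit 9) (.e (nat_lit 336086) (nat_lit 9) (.e (nat_lit 336454) (nat_lit 34) .nil))))) .nil)))) (.nd (nat_lit 5) (.nd (nat_lit 6) 
(.lf (nat_lit 107550) (.g (nat_lit 2922) (.e (nat_lit 5195) (nat_lit 294) (.e (nat_lit 57377) (nat_lit 3) (.e (nat_lit 98313) (nat_lit 9) (.e (nat_lit 336027) (nat_lit 3) (.e (nat_lit 98341) (nat_lit 20) (.e (nat_lit 221211) (nat_lit 22) (.e (nat_lit 196661) (nat_lit 12) (.e (nat_lit 57357) (nat_lit 0) .nil)))))))) (.g (nat_lit 6) .nil .nil))) 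
(.lf (nat_lit 107614) (.g (nat_lit 3708) (.e (nat_lit 5195) (nat_lit 294) (.e (nat_lit 57377) (nat_lit 3) (.e (nat_lit 98317) (nat_lit 9) (.e (nat_lit 336075) (nat_lit 9) .nil)))) .nil))) (.nd (nat_lit 6) 
(.lf (nat_lit 107582) (.g (nat_lit 4033) (.e (nat_lit 5195) (nat_lit 294) (.e (nat_lit 57377) (nat_lit 3) (.e (nat_lit 98317) (nat_lit 9) (.e (nat_lit 335911) (nat_lit 0) .nil)))) .nil)) 
(.lf (nat_lit 107646) (.g (nat_lit 4043) (.e (nat_lit 5195) (nat_lit 294) (.e (nat_lit 57377) (nat_lit 3) (.e (nat_lit 98317) (nat_lit 9) (.e (nat_lit 336195) (nat_lit 12) .nil)))) .nil)))))))) (.nd (nat_lit 1) (.nd (nat_lit 2) (.nd (nat_lit 3) (.nd (nat_lit 4) (.nd (nat_lit 5) (.nd (nat_lit 6) 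
(.lf (nat_lit 107521) (.g (nat_lit 2322) (.e (nat_lit 5195) (nat_lit 294) (.e (nat_lit 57375) (nat_lit 2) (.e (nat_lit 90160) (nat_lit 11) (.e (nat_lit 24653) (nat_lit 12) .nil)))) .nil)) 
(.lf (nat_lit 107585) (.g (nat_lit 3845) (.e (nat_lit 5195) (nat_lit 294) (.e (nat_lit 57377) (nat_lit 3) (.e (nat_lit 98317) (nat_lit 9) (.e (nat_lit 335914) (nat_lit 0) .nil)))) .nil))) (.nd (nat_lit 6) 
(.lf (nat_lit 107553) (.g (nat_lit 2306) (.e (nat_lit 5195) (nat_lit 294) (.e (nat_lit 57377) (nat_lit 3) (.e (nat_lit 98313) (nat_lit 9) (.e (nat_lit 336027) (nat_lit 3) (.e (nat_lit 98342) (nat_lit 20) (.e (nat_lit 221211) (nat_lit 22) (.e (nat_lit 196657) (nat_lit 12) (.e (nat_lit 57354) (nat_lit 0) .nil)))))))) (.g (nat_lit 5) .nil .nil))) 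
(.lf (nat_lit 107617) (.g (nat_lit 2824) (.e (nat_lit 5195) (nat_lit 294) (.e (nat_lit 57377) (nat_lit 3) (.e (nat_lit 98317) (nat_lit 9) (.e (nat_lit 336076) (nat_lit 9) (.e (nat_lit 336374) (nat_lit 27) .nil))))) .nil)))) (.nd (nat_lit 5) (.nd (nat_lit 6) 
(.lf (nat_lit 107537) (.g (nat_lit 2115) (.e (nat_lit 5195) (nat_lit 294) (.e (nat_lit 57375) (nat_lit 2) (.e (nat_lit 90160) (nat_lit 11) (.e (nat_lit 24660) (nat_lit 13) (.e (nat_lit 401152) (nat_lit 10) (.e (nat_lit 344097) (nat_lit 18) .nil)))))) (.g (nat_lit 4) .nil .nil))) 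
(.lf (nat_lit 107601) (.g (nat_lit 2982) (.e (nat_lit 5195) (nat_lit 294) (.e (nat_lit 57377) (nat_lit 3) (.e (nat_lit 98317) (nat_lit 9) (.e (nat_lit 336027) (nat_lit 3) (.e (nat_lit 98338) (nat_lit 19) .nil))))) .nil))) (.nd (nat_lit 6) 
(.lf (nat_lit 107569) (.g (nat_lit 2224) (.e (nat_lit 5195) (nat_lit 294) (.e (nat_lit 57377) (nat_lit 3) (.e (nat_lit 98313) (nat_lit 9) (.e (nat_lit 336223) (nat_lit 13) (.e (nat_lit 393227) (nat_lit 9) (.e (nat_lit 335958) (nat_lit 0) (.e (nat_lit 1037) (nat_lit 81) .nil))))))) (.g (nat_lit 4) .nil .nil))) 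
(.lf (nat_lit 107633) (.g (nat_lit 3619) (.e (nat_lit 5195) (nat_lit 294) (.e (nat_lit 57377) (nat_lit 3) (.e (nat_lit 98317) (nat_lit 9) (.e (nat_lit 336087) (nat_lit 9) (.e (nat_lit 336366) (nat_lit 27) .nil))))) .nil))))) (.nd (nat_lit 4) (.nd (nat_lit 5) (.nd (nat_lit 6) 
(.lf (nat_lit 107529) (.g (nat_lit 1946) (.e (nat_lit 5195) (nat_lit 294) (.e (nat_lit 57375) (nat_lit 2) (.e (nat_lit 90160) (nat_lit 11) (.e (nat_lit 24657) (nat_lit 13) (.e (nat_lit 401152) (nat_lit 10) .nil))))) .nil)) 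
(.lf (nat_lit 107593) (.g (nat_lit 4317) (.e (nat_lit 5195) (nat_lit 294) (.e (nat_lit 57377) (nat_lit 3) (.e (nat_lit 98317) (nat_lit 9) (.e (nat_lit 336021) (nat_lit 3) .nil)))) .nil))) (.nd (nat_lit 6) 
(.lf (nat_lit 107561) (.g (nat_lit 878) (.e (nat_lit 5195) (nat_lit 294) (.e (nat_lit 57377) (nat_lit 3) (.e (nat_lit 98313) (nat_lit 9) (.e (nat_lit 336213) (nat_lit 13) .nil)))) .nil)) 
(.lf (nat_lit 107625) (.g (nat_lit 2750) (.e (nat_lit 5195) (nat_lit 294) (.e (nat_lit 57377) (nat_lit 3) (.e (nat_lit 98317) (nat_lit 9) (.e (nat_lit 336086) (nat_lit 9) .nil)))) .nil)))) (.nd (nat_lit 5) (.nd (nat_lit 6) 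
(.lf (nat_lit 107545) (.g (nat_lit 2066) (.e (nat_lit 5195) (nat_lit 294) (.e (nat_lit 57377) (nat_lit 3) (.e (nat_lit 98313) (nat_lit 9) (.e (nat_lit 336027) (nat_lit 3) (.e (nat_lit 98338) (nat_lit 19) .nil))))) .nil)) 
(.lf (nat_lit 107609) (.g (nat_lit 3872) (.e (nat_lit 5195) (nat_lit 294) (.e (nat_lit 57377) (nat_lit 3) (.e (nat_lit 98317) (nat_lit 9) (.e (nat_lit 336067) (nat_lit 8) .nil)))) .nil))) (.nd (nat_lit 6) 
(.lf (nat_lit 107577) (.g (nat_lit 3966) (.e (nat_lit 5195) (nat_lit 294) (.e (nat_lit 57377) (nat_lit 3) (.e (nat_lit 98317) (nat_lit 9) (.e (nat_lit 335892) (nat_lit 0) .nil)))) .nil)) 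
(.lf (nat_lit 107641) (.g (nat_lit 2030) (.e (nat_lit 5195) (nat_lit 294) (.e (nat_lit 57377) (nat_lit 3) (.e (nat_lit 98317) (nat_lit 9) (.e (nat_lit 336088) (nat_lit 9) (.e (nat_lit 336367) (nat_lit 27) .nil))))) .nil)))))) (.nd (nat_lit 3) (.nd (nat_lit 4) (.nd (nat_lit 5) (.nd (nat_lit 6) 
(.lf (nat_lit 107525) (.g (nat_lit 2272) (.e (nat_lit 5195) (nat_lit 294) (.e (nat_lit 57375) (nat_lit 2) (.e (nat_lit 90160) (nat_lit 11) (.e (nat_lit 24655) (nat_lit 13) (.e (nat_lit 401152) (nat_lit 10) (.e (nat_lit 344100) (nat_lit 18) .nil)))))) (.g (nat_lit 4) .nil .nil))) 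
(.lf (nat_lit 107589) (.g (nat_lit 4040) (.e (nat_lit 5195) (nat_lit 294) (.e (nat_lit 57377) (nat_lit 3) (.e (nat_lit 98317) (nat_lit 9) (.e (nat_lit 335933) (nat_lit 0) .nil)))) .nil))) (.nd (nat_lit 6) 
(.lf (nat_lit 107557) (.g (nat_lit 4264) (.e (nat_lit 5195) (nat_lit 294) (.e (nat_lit 57377) (nat_lit 3) (.e (nat_lit 98313) (nat_lit 9) (.e (nat_lit 336027) (nat_lit 3) (.e (nat_lit 98342) (nat_lit 20) (.e (nat_lit 221212) (nat_lit 22) (.e (nat_lit 196660) (nat_lit 12) (.e (nat_lit 57354) (nat_lit 0) .nil)))))))) (.g (nat_lit 0) .nil .nil))) 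
(.lf (nat_lit 107621) (.g (nat_lit 3620) (.e (nat_lit 5195) (nat_lit 294) (.e (nat_lit 57377) (nat_lit 3) (.e (nat_lit 98317) (nat_lit 9) (.e (nat_lit 336084) (nat_lit 9) .nil)))) .nil)))) (.nd (nat_lit 5) (.nd (nat_lit 6) 
(.lf (nat_lit 107541) (.g (nat_lit 4914) (.e (nat_lit 5195) (nat_lit 294) (.e (nat_lit 57375) (nat_lit 2) (.e (nat_lit 90160) (nat_lit 11) (.e (nat_lit 24665) (nat_lit 14) (.e (nat_lit 401414) (nat_lit 0) (.e (nat_lit 3579) (nat_lit 223) (.e (nat_lit 745476) (nat_lit 0) (.e (nat_lit 1535) (nat_lit 109) (.e (nat_lit 344097) (nat_lit 18) .nil))))))))) (.g (nat_lit 5) .nil .nil))) 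
(.lf (nat_lit 107605) (.g (nat_lit 3018) (.e (nat_lit 5195) (nat_lit 294) (.e (nat_lit 57377) (nat_lit 3) (.e (nat_lit 98317) (nat_lit 9) (.e (nat_lit 336027) (nat_lit 3) (.e (nat_lit 98341) (nat_lit 20) (.e (nat_lit 221215) (nat_lit 23) (.e (nat_lit 204821) (nat_lit 17) (.e (nat_lit 1023) (nat_lit 81) .nil)))))))) (.g (nat_lit 4) .nil .nil)))) (.nd (nat_lit 6) 
(.lf (nat_lit 107573) (.g (nat_lit 1942) (.e (nat_lit 5195) (nat_lit 294) (.e (nat_lit 57377) (nat_lit 3) (.e (nat_lit 98313) (nat_lit 9) (.e (nat_lit 336223) (nat_lit 13) (.e (nat_lit 401152) (nat_lit 13) (.e (nat_lit 368662) (nat_lit 18) .nil)))))) (.g (nat_lit 4) .nil .nil))) 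
(.lf (nat_lit 107637) (.g (nat_lit 3721) (.e (nat_lit 5195) (nat_lit 294) (.e (nat_lit 57377) (nat_lit 3) (.e (nat_lit 98317) (nat_lit 9) (.e (nat_lit 336087) (nat_lit 9) (.e (nat_lit 336374) (nat_lit 27) (.e (nat_lit 426537) (nat_lit 28) (.e (nat_lit 344097) (nat_lit 18) .nil))))))) (.g (nat_lit 4) .nil .nil)))))) (.nd (nat_lit 4) (.nd (nat_lit 5) (.nd (nat_lit 6) 
(.lf (nat_lit 107533) (.g (nat_lit 2321) (.e (nat_lit 5195) (nat_lit 294) (.e (nat_lit 57375) (nat_lit 2) (.e (nat_lit 90160) (nat_lit 11) (.e (nat_lit 24658) (nat_lit 13) (.e (nat_lit 401152) (nat_lit 10) .nil))))) .nil)) 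
(.lf (nat_lit 107597) (.g (nat_lit 3820) (.e (nat_lit 5195) (nat_lit 294) (.e (nat_lit 57377) (nat_lit 3) (.e (nat_lit 98317) (nat_lit 9) (.e (nat_lit 336026) (nat_lit 3) (.e (nat_lit 98342) (nat_lit 20) (.e (nat_lit 221212) (nat_lit 22) (.e (nat_lit 196659) (nat_lit 12) (.e (nat_lit 57354) (nat_lit 0) .nil)))))))) (.g (nat_lit 4) .nil .nil)))) (.nd (nat_lit 6) 
(.lf (nat_lit 107565) (.g (nat_lit 1762) (.e (nat_lit 5195) (nat_lit 294) (.e (nat_lit 57377) (nat_lit 3) (.e (nat_lit 98313) (nat_lit 9) (.e (nat_lit 336215) (nat_lit 13) (.e (nat_lit 401152) (nat_lit 10) (.e (nat_lit 344100) (nat_lit 18) .nil)))))) (.g (nat_lit 4) .nil .nil))) 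
(.lf (nat_lit 107629) (.g (nat_lit 3430) (.e (nat_lit 5195) (nat_lit 294) (.e (nat_lit 57377) (nat_lit 3) (.e (nat_lit 98317) (nat_lit 9) (.e (nat_lit 336086) (nat_lit 9) (.e (nat_lit 336414) (nat_lit 27) (.e (nat_lit 426532) (nat_lit 28) (.e (nat_lit 344100) (nat_lit 18) .nil))))))) (.g (nat_lit 4) .nil .nil))))) (.nd (nat_lit 5) (.nd (nat_lit 6) 
(.lf (nat_lit 107549) (.g (nat_lit 1820) (.e (nat_lit 5195) (nat_lit 294) (.e (nat_lit 57377) (nat_lit 3) (.e (nat_lit 98313) (nat_lit 9) (.e (nat_lit 336027) (nat_lit 3) (.e (nat_lit 98341) (nat_lit 20) (.e (nat_lit 221211) (nat_lit 22) (.e (nat_lit 196657) (nat_lit 12) (.e (nat_lit 57354) (nat_lit 0) .nil)))))))) (.g (nat_lit 4) .nil .nil))) 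
(.lf (nat_lit 107613) (.g (nat_lit 3741) (.e (nat_lit 5195) (nat_lit 294) (.e (nat_lit 57377) (nat_lit 3) (.e (nat_lit 98317) (nat_lit 9) (.e (nat_lit 336074) (nat_lit 9) .nil)))) .nil))) (.nd (nat_lit 6) 
(.lf (nat_lit 107581) (.g (nat_lit 4043) (.e (nat_lit 5195) (nat_lit 294) (.e (nat_lit 57377) (nat_lit 3) (.e (nat_lit 98317) (nat_lit 9) (.e (nat_lit 335910) (nat_lit 0) .nil)))) .nil)) 
(.lf (nat_lit 107645) (.g (nat_lit 4461) (.e (nat_lit 5195) (nat_lit 294) (.e (nat_lit 57377) (nat_lit 3) (.e (nat_lit 98317) (nat_lit 9) (.e (nat_lit 336194) (nat_lit 12) (.e (nat_lit 392960) (nat_lit 8) .nil))))) .nil))))))) (.nd (nat_lit 2) (.nd (nat_lit 3) (.nd (nat_lit 4) (.nd (nat_lit 5) (.nd (nat_lit 6) 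
(.lf (nat_lit 107523) (.g (nat_lit 2392) (.e (nat_lit 5195) (nat_lit 294) (.e (nat_lit 57375) (nat_lit 2) (.e (nat_lit 90160) (nat_lit 11) (.e (nat_lit 24655) (nat_lit 13) (.e (nat_lit 393227) (nat_lit 9) .nil))))) .nil)) 
(.lf (nat_lit 107587) (.g (nat_lit 4039) (.e (nat_lit 5195) (nat_lit 294) (.e (nat_lit 57377) (nat_lit 3) (.e (nat_lit 98317) (nat_lit 9) (.e (nat_lit 335926) (nat_lit 0) .nil)))) .nil))) (.nd (nat_lit 6) 
(.lf (nat_lit 107555) (.g (nat_lit 3326) (.e (nat_lit 5195) (nat_lit 294) (.e (nat_lit 57377) (nat_lit 3) (.e (nat_lit 98313) (nat_lit 9) (.e (nat_lit 336027) (nat_lit 3) (.e (nat_lit 98342) (nat_lit 20) (.e (nat_lit 221211) (nat_lit 22) (.e (nat_lit 196661) (nat_lit 12) (.e (nat_lit 57357) (nat_lit 0) .nil)))))))) (.g (nat_lit 7) .nil .nil))) 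
(.lf (nat_lit 107619) (.g (nat_lit 3565) (.e (nat_lit 5195) (nat_lit 294) (.e (nat_lit 57377) (nat_lit 3) (.e (nat_lit 98317) (nat_lit 9) (.e (nat_lit 336077) (nat_lit 9) .nil)))) .nil)))) (.nd (nat_lit 5) (.nd (nat_lit 6) 
(.lf (nat_lit 107539) (.g (nat_lit 3264) (.e (nat_lit 5195) (nat_lit 294) (.e (nat_lit 57375) (nat_lit 2) (.e (nat_lit 90160) (nat_lit 11) (.e (nat_lit 24665) (nat_lit 14) (.e (nat_lit 401414) (nat_lit 0) .nil))))) .nil)) 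
(.lf (nat_lit 107603) (.g (nat_lit 3597) (.e (nat_lit 5195) (nat_lit 294) (.e (nat_lit 57377) (nat_lit 3) (.e (nat_lit 98317) (nat_lit 9) (.e (nat_lit 336027) (nat_lit 3) (.e (nat_lit 98341) (nat_lit 20) (.e (nat_lit 221211) (nat_lit 22) (.e (nat_lit 196661) (nat_lit 12) (.e (nat_lit 57357) (nat_lit 0) .nil)))))))) (.g (nat_lit 5) .nil .nil)))) (.nd (nat_lit 6) 
(.lf (nat_lit 107571) (.g (nat_lit 1773) (.e (nat_lit 5195) (nat_lit 294) (.e (nat_lit 57377) (nat_lit 3) (.e (nat_lit 98313) (nat_lit 9) (.e (nat_lit 336223) (nat_lit 13) (.e (nat_lit 401152) (nat_lit 10) (.e (nat_lit 344100) (nat_lit 18) .nil)))))) (.g (nat_lit 4) .nil .nil))) 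
(.lf (nat_lit 107635) (.g (nat_lit 3852) (.e (nat_lit 5195) (nat_lit 294) (.e (nat_lit 57377) (nat_lit 3) (.e (nat_lit 98317) (nat_lit 9) (.e (nat_lit 336087) (nat_lit 9) (.e (nat_lit 336367) (nat_lit 27) (.e (nat_lit 426537) (nat_lit 28) (.e (nat_lit 344097) (nat_lit 18) .nil))))))) (.g (nat_lit 4) .nil .nil)))))) (.nd (nat_lit 4) (.nd (nat_lit 5) (.nd (nat_lit 6) 
(.lf (nat_lit 107531) (.g (nat_lit 1520) (.e (nat_lit 5195) (nat_lit 294) (.e (nat_lit 57375) (nat_lit 2) (.e (nat_lit 90160) (nat_lit 11) (.e (nat_lit 24658) (nat_lit 13) .nil)))) .nil)) 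
(.lf (nat_lit 107595) (.g (nat_lit 3749) (.e (nat_lit 5195) (nat_lit 294) (.e (nat_lit 57377) (nat_lit 3) (.e (nat_lit 98317) (nat_lit 9) (.e (nat_lit 336025) (nat_lit 3) .nil)))) .nil))) (.nd (nat_lit 6) 
(.lf (nat_lit 107563) (.g (nat_lit 1868) (.e (nat_lit 5195) (nat_lit 294) (.e (nat_lit 57377) (nat_lit 3) (.e (nat_lit 98313) (nat_lit 9) (.e (nat_lit 336215) (nat_lit 13) (.e (nat_lit 393227) (nat_lit 9) .nil))))) .nil)) 
(.lf (nat_lit 107627) (.g (nat_lit 3482) (.e (nat_lit 5195) (nat_lit 294) (.e (nat_lit 57377) (nat_lit 3) (.e (nat_lit 98317) (nat_lit 9) (.e (nat_lit 336086) (nat_lit 9) (.e (nat_lit 336367) (nat_lit 27) .nil))))) .nil)))) (.nd (nat_lit 5) (.nd (nat_lit 6) 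
(.lf (nat_lit 107547) (.g (nat_lit 2144) (.e (nat_lit 5195) (nat_lit 294) (.e (nat_lit 57377) (nat_lit 3) (.e (nat_lit 98313) (nat_lit 9) (.e (nat_lit 336027) (nat_lit 3) (.e (nat_lit 98338) (nat_lit 19) (.e (nat_lit 213013) (nat_lit 9) (.e (nat_lit 2667) (nat_lit 167) (.e (nat_lit 196661) (nat_lit 12) (.e (nat_lit 57357) (nat_lit 0) .nil))))))))) (.g (nat_lit 4) .nil .nil))) 
(.lf (nat_lit 107611) (.g (nat_lit 3516) (.e (nat_lit 5195) (nat_lit 294) (.e (nat_lit 57377) (nat_lit 3) (.e (nat_lit 98317) (nat_lit 9) (.e (nat_lit 336069) (nat_lit 8) .nil)))) .nil))) (.nd (nat_lit 6) 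
(.lf (nat_lit 107579) (.g (nat_lit 3996) (.e (nat_lit 5195) (nat_lit 294) (.e (nat_lit 57377) (nat_lit 3) (.e (nat_lit 98317) (nat_lit 9) (.e (nat_lit 335898) (nat_lit 0) .nil)))) .nil)) 
(.lf (nat_lit 107643) (.g (nat_lit 4000) (.e (nat_lit 5195) (nat_lit 294) (.e (nat_lit 57377) (nat_lit 3) (.e (nat_lit 98317) (nat_lit 9) (.e (nat_lit 343808) (nat_lit 9) .nil)))) .nil)))))) (.nd (nat_lit 3) (.nd (nat_lit 4) (.nd (nat_lit 5) (.nd (nat_lit 6) 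
(.lf (nat_lit 107527) (.g (nat_lit 1913) (.e (nat_lit 5195) (nat_lit 294) (.e (nat_lit 57375) (nat_lit 2) (.e (nat_lit 90160) (nat_lit 11) (.e (nat_lit 24656) (nat_lit 13) .nil)))) .nil)) 
(.lf (nat_lit 107591) (.g (nat_lit 3795) (.e (nat_lit 5195) (nat_lit 294) (.e (nat_lit 57377) (nat_lit 3) (.e (nat_lit 98317) (nat_lit 9) (.e (nat_lit 336020) (nat_lit 3) .nil)))) .nil))) (.nd (nat_lit 6) 
(.lf (nat_lit 107559) (.g (nat_lit 3464) (.e (nat_lit 5195) (nat_lit 294) (.e (nat_lit 57377) (nat_lit 3) (.e (nat_lit 98313) (nat_lit 9) (.e (nat_lit 336027) (nat_lit 3) (.e (nat_lit 98342) (nat_lit 20) (.e (nat_lit 221215) (nat_lit 23) (.e (nat_lit 204821) (nat_lit 17) (.e (nat_lit 1040) (nat_lit 81) .nil)))))))) (.g (nat_lit 6) .nil .nil))) 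
(.lf (nat_lit 107623) (.g (nat_lit 3828) (.e (nat_lit 5195) (nat_lit 294) (.e (nat_lit 57377) (nat_lit 3) (.e (nat_lit 98317) (nat_lit 9) (.e (nat_lit 336085) (nat_lit 9) (.e (nat_lit 336367) (nat_lit 27) .nil))))) .nil)))) (.nd (nat_lit 5) (.nd (nat_lit 6) 
(.lf (nat_lit 107543) (.g (nat_lit 418) (.e (nat_lit 5195) (nat_lit 294) (.e (nat_lit 57377) (nat_lit 3) (.e (nat_lit 98313) (nat_lit 9) .nil))) .nil)) 
(.lf (nat_lit 107607) (.g (nat_lit 3851) (.e (nat_lit 5195) (nat_lit 294) (.e (nat_lit 57377) (nat_lit 3) (.e (nat_lit 98317) (nat_lit 9) (.e (nat_lit 336027) (nat_lit 3) (.e (nat_lit 98342) (nat_lit 20) (.e (nat_lit 221211) (nat_lit 22) (.e (nat_lit 196661) (nat_lit 12) (.e (nat_lit 57357) (nat_lit 0) .nil)))))))) (.g (nat_lit 5) .nil .nil)))) (.nd (nat_lit 6) 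
(.lf (nat_lit 107575) (.g (nat_lit 216) (.e (nat_lit 5195) (nat_lit 294) (.e (nat_lit 57377) (nat_lit 3) (.e (nat_lit 98317) (nat_lit 9) .nil))) .nil)) 
(.lf (nat_lit 107639) (.g (nat_lit 2164) (.e (nat_lit 5195) (nat_lit 294) (.e (nat_lit 57377) (nat_lit 3) (.e (nat_lit 98317) (nat_lit 9) (.e (nat_lit 336088) (nat_lit 9) (.e (nat_lit 336366) (nat_lit 27) .nil))))) .nil))))) (.nd (nat_lit 4) (.nd (nat_lit 5) (.nd (nat_lit 6) 
(.lf (nat_lit 107535) (.g (nat_lit 1927) (.e (nat_lit 5195) (nat_lit 294) (.e (nat_lit 57375) (nat_lit 2) (.e (nat_lit 90160) (nat_lit 11) (.e (nat_lit 24659) (nat_lit 13) .nil)))) .nil)) 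
(.lf (nat_lit 107599) (.g (nat_lit 3118) (.e (nat_lit 5195) (nat_lit 294) (.e (nat_lit 57377) (nat_lit 3) (.e (nat_lit 98317) (nat_lit 9) (.e (nat_lit 336027) (nat_lit 3) (.e (nat_lit 98321) (nat_lit 17) .nil))))) .nil))) (.nd (nat_lit 6) 
(.lf (nat_lit 107567) (.g (nat_lit 938) (.e (nat_lit 5195) (nat_lit 294) (.e (nat_lit 57377) (nat_lit 3) (.e (nat_lit 98313) (nat_lit 9) (.e (nat_lit 336222) (nat_lit 13) .nil)))) .nil)) 
(.lf (nat_lit 107631) (.g (nat_lit 3410) (.e (nat_lit 5195) (nat_lit 294) (.e (nat_lit 57377) (nat_lit 3) (.e (nat_lit 98317) (nat_lit 9) (.e (nat_lit 336086) (nat_lit 9) (.e (nat_lit 336456) (nat_lit 34) (.e (nat_lit 483354) (nat_lit 17) (.e (nat_lit 1040) (nat_lit 81) .nil))))))) (.g (nat_lit 4) .nil .nil))))) (.nd (nat_lit 5) (.nd (nat_lit 6) 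
(.lf (nat_lit 107551) (.g (nat_lit 3308) (.e (nat_lit 5195) (nat_lit 294) (.e (nat_lit 57377) (nat_lit 3) (.e (nat_lit 98313) (nat_lit 9) (.e (nat_lit 336027) (nat_lit 3) (.e (nat_lit 98341) (nat_lit 20) (.e (nat_lit 221214) (nat_lit 23) (.e (nat_lit 204821) (nat_lit 17) (.e (nat_lit 1040) (nat_lit 81) .nil)))))))) (.g (nat_lit 6) .nil .nil))) 
(.lf (nat_lit 107615) (.g (nat_lit 1556) (.e (nat_lit 5195) (nat_lit 294) (.e (nat_lit 57377) (nat_lit 3) (.e (nat_lit 98317) (nat_lit 9) (.e (nat_lit 336076) (nat_lit 9) .nil)))) .nil))) (.nd (nat_lit 6) 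
(.lf (nat_lit 107583) (.g (nat_lit 4043) (.e (nat_lit 5195) (nat_lit 294) (.e (nat_lit 57377) (nat_lit 3) (.e (nat_lit 98317) (nat_lit 9) (.e (nat_lit 335912) (nat_lit 0) .nil)))) .nil)) 
(.lf (nat_lit 107647) (.g (nat_lit 4028) (.e (nat_lit 5195) (nat_lit 294) (.e (nat_lit 57377) (nat_lit 3) (.e (nat_lit 98317) (nat_lit 9) (.e (nat_lit 336196) (nat_lit 12) .nil)))) .nil)))))))))

noncomputable def tv1460 : DT := (.nd (nat_lit 0) (.nd (nat_lit 1) (.nd (nat_lit 2) (.nd (nat_lit 3) (.nd (nat_lit 4) (.nd (nat_lit 5) (.nd (nat_lit 6) 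
(.lf (nat_lit 107648) (.g (nat_lit 4043) (.e (nat_lit 5195) (nat_lit 294) (.e (nat_lit 57377) (nat_lit 3) (.e (nat_lit 98317) (nat_lit 9) (.e (nat_lit 336201) (nat_lit 12) .nil)))) .nil)) 
(.lf (nat_lit 107712) (.g (nat_lit 1947) (.e (nat_lit 5195) (nat_lit 294) (.e (nat_lit 57379) (nat_lit 3) (.e (nat_lit 98313) (nat_lit 9) (.e (nat_lit 336215) (nat_lit 13) (.e (nat_lit 401152) (nat_lit 10) .nil))))) .nil))) (.nd (nat_lit 6) 
(.lf (nat_lit 107680) (.g (nat_lit 3087) (.e (nat_lit 5195) (nat_lit 294) (.e (nat_lit 57377) (nat_lit 3) (.e (nat_lit 106240) (nat_lit 10) (.e (nat_lit 344131) (nat_lit 26) (.e (nat_lit 557105) (nat_lit 14) (.e (nat_lit 180252) (nat_lit 10) (.e (nat_lit 573475) (nat_lit 12) (.e (nat_lit 57356) (nat_lit 0) .nil)))))))) (.g (nat_lit 6) .nil .nil))) 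
(.lf (nat_lit 107744) (.g (nat_lit 1171) (.e (nat_lit 5195) (nat_lit 294) (.e (nat_lit 57379) (nat_lit 3) (.e (nat_lit 98317) (nat_lit 9) (.e (nat_lit 336214) (nat_lit 13) .nil)))) .nil)))) (.nd (nat_lit 5) (.nd (nat_lit 6) 
(.lf (nat_lit 107664) (.g (nat_lit 2258) (.e (nat_lit 5195) (nat_lit 294) (.e (nat_lit 57377) (nat_lit 3) (.e (nat_lit 98317) (nat_lit 9) (.e (nat_lit 336215) (nat_lit 13) (.e (nat_lit 393227) (nat_lit 9) (.e (nat_lit 335958) (nat_lit 0) (.e (nat_lit 1037) (nat_lit 81) .nil))))))) (.g (nat_lit 4) .nil .nil))) 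
(.lf (nat_lit 107728) (.g (nat_lit 1916) (.e (nat_lit 5195) (nat_lit 294) (.e (nat_lit 57379) (nat_lit 3) (.e (nat_lit 98317) (nat_lit 9) (.e (nat_lit 336027) (nat_lit 3) (.e (nat_lit 98321) (nat_lit 17) .nil))))) .nil))) (.nd (nat_lit 6) 
(.lf (nat_lit 107696) (.g (nat_lit 3141) (.e (nat_lit 5195) (nat_lit 294) (.e (nat_lit 57379) (nat_lit 3) (.e (nat_lit 98313) (nat_lit 9) (.e (nat_lit 336027) (nat_lit 3) (.e (nat_lit 98341) (nat_lit 20) (.e (nat_lit 221211) (nat_lit 22) (.e (nat_lit 196661) (nat_lit 12) (.e (nat_lit 57357) (nat_lit 0) .nil)))))))) (.g (nat_lit 6) .nil .nil))) 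
(.lf (nat_lit 107760) (.g (nat_lit 1121) (.e (nat_lit 5195) (nat_lit 294) (.e (nat_lit 57379) (nat_lit 3) (.e (nat_lit 106240) (nat_lit 10) (.e (nat_lit 344119) (nat_lit 21) (.e (nat_lit 516131) (nat_lit 3) (.e (nat_lit 221211) (nat_lit 22) (.e (nat_lit 196661) (nat_lit 12) (.e (nat_lit 57357) (nat_lit 0) .nil)))))))) (.g (nat_lit 4) .nil .nil)))))) 
(.nd (nat_lit 4) (.nd (nat_lit 5) (.nd (nat_lit 6) 
(.lf (nat_lit 107656) (.g (nat_lit 3037) (.e (nat_lit 5195) (nat_lit 294) (.e (nat_lit 57377) (nat_lit 3) (.e (nat_lit 98317) (nat_lit 9) (.e (nat_lit 336213) (nat_lit 13) (.e (nat_lit 393229) (nat_lit 9) (.e (nat_lit 335933) (nat_lit 0) (.e (nat_lit 1040) (nat_lit 81) .nil))))))) (.g (nat_lit 5) .nil .nil))) 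
(.lf (nat_lit 107720) (.g (nat_lit 2287) (.e (nat_lit 5195) (nat_lit 294) (.e (nat_lit 57379) (nat_lit 3) (.e (nat_lit 98313) (nat_lit 9) (.e (nat_lit 336223) (nat_lit 13) (.e (nat_lit 401152) (nat_lit 13) (.e (nat_lit 368662) (nat_lit 18) .nil)))))) (.g (nat_lit 4) .nil .nil)))) (.nd (nat_lit 6) 
(.lf (nat_lit 107688) (.g (nat_lit 573) (.e (nat_lit 5195) (nat_lit 294) (.e (nat_lit 57379) (nat_lit 3) (.e (nat_lit 98313) (nat_lit 9) .nil))) .nil)) 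
(.lf (nat_lit 107752) (.g (nat_lit 1665) (.e (nat_lit 5195) (nat_lit 294) (.e (nat_lit 57379) (nat_lit 3) (.e (nat_lit 98317) (nat_lit 9) (.e (nat_lit 336222) (nat_lit 13) (.e (nat_lit 393227) (nat_lit 9) (.e (nat_lit 335958) (nat_lit 0) (.e (nat_lit 1037) (nat_lit 81) .nil))))))) (.g (nat_lit 4) .nil .nil))))) (.nd (nat_lit 5) (.nd (nat_lit 6) 
(.lf (nat_lit 107672) (.g (nat_lit 1651) (.e (nat_lit 5195) (nat_lit 294) (.e (nat_lit 57377) (nat_lit 3) (.e (nat_lit 98317) (nat_lit 9) (.e (nat_lit 336223) (nat_lit 13) (.e (nat_lit 393227) (nat_lit 9) (.e (nat_lit 335957) (nat_lit 0) (.e (nat_lit 1037) (nat_lit 81) .nil))))))) (.g (nat_lit 4) .nil .nil))) 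
(.lf (nat_lit 107736) (.g (nat_lit 1623) (.e (nat_lit 5195) (nat_lit 294) (.e (nat_lit 57379) (nat_lit 3) (.e (nat_lit 98317) (nat_lit 9) (.e (nat_lit 336088) (nat_lit 9) (.e (nat_lit 336366) (nat_lit 27) .nil))))) .nil))) (.nd (nat_lit 6) 
(.lf (nat_lit 107704) (.g (nat_lit 3431) (.e (nat_lit 5195) (nat_lit 294) (.e (nat_lit 57379) (nat_lit 3) (.e (nat_lit 98313) (nat_lit 9) (.e (nat_lit 336027) (nat_lit 3) (.e (nat_lit 98342) (nat_lit 20) (.e (nat_lit 221214) (nat_lit 23) (.e (nat_lit 204821) (nat_lit 17) (.e (nat_lit 1040) (nat_lit 81) .nil)))))))) (.g (nat_lit 6) .nil .nil))) 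
(.lf (nat_lit 107768) (.g (nat_lit 2760) (.e (nat_lit 5195) (nat_lit 294) (.e (nat_lit 57379) (nat_lit 3) (.e (nat_lit 98334) (nat_lit 18) (.e (nat_lit 164399) (nat_lit 256) (.e (nat_lit 57588) (nat_lit 73) (.e (nat_lit 426139) (nat_lit 3) (.e (nat_lit 204873) (nat_lit 30) (.e (nat_lit 368662) (nat_lit 18) .nil)))))))) (.g (nat_lit 4) .nil .nil))))))) 
(.nd (nat_lit 3) (.nd (nat_lit 4) (.nd (nat_lit 5) (.nd (nat_lit 6) 
(.lf (nat_lit 107652) (.g (nat_lit 3754) (.e (nat_lit 5195) (nat_lit 294) (.e (nat_lit 57377) (nat_lit 3) (.e (nat_lit 98317) (nat_lit 9) (.e (nat_lit 336212) (nat_lit 13) .nil)))) .nil)) 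
(.lf (nat_lit 107716) (.g (nat_lit 1891) (.e (nat_lit 5195) (nat_lit 294) (.e (nat_lit 57379) (nat_lit 3) (.e (nat_lit 98313) (nat_lit 9) (.e (nat_lit 336223) (nat_lit 13) (.e (nat_lit 393227) (nat_lit 9) .nil))))) .nil))) (.nd (nat_lit 6) 
(.lf (nat_lit 107684) (.g (nat_lit 2153) (.e (nat_lit 5195) (nat_lit 294) (.e (nat_lit 57377) (nat_lit 3) (.e (nat_lit 98333) (nat_lit 18) (.e (nat_lit 164399) (nat_lit 256) (.e (nat_lit 57588) (nat_lit 73) (.e (nat_lit 426139) (nat_lit 3) (.e (nat_lit 204872) (nat_lit 30) (.e (nat_lit 368662) (nat_lit 18) .nil)))))))) (.g (nat_lit 4) .nil .nil))) 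
(.lf (nat_lit 107748) (.g (nat_lit 1710) (.e (nat_lit 5195) (nat_lit 294) (.e (nat_lit 57379) (nat_lit 3) (.e (nat_lit 98317) (nat_lit 9) (.e (nat_lit 336215) (nat_lit 13) (.e (nat_lit 393227) (nat_lit 9) .nil))))) .nil)))) (.nd (nat_lit 5) (.nd (nat_lit 6) 
(.lf (nat_lit 107668) (.g (nat_lit 1688) (.e (nat_lit 5195) (nat_lit 294) (.e (nat_lit 57377) (nat_lit 3) (.e (nat_lit 98317) (nat_lit 9) (.e (nat_lit 336222) (nat_lit 13) (.e (nat_lit 393227) (nat_lit 9) .nil))))) .nil)) 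
(.lf (nat_lit 107732) (.g (nat_lit 2018) (.e (nat_lit 5195) (nat_lit 294) (.e (nat_lit 57379) (nat_lit 3) (.e (nat_lit 98317) (nat_lit 9) (.e (nat_lit 336027) (nat_lit 3) (.e (nat_lit 98342) (nat_lit 20) (.e (nat_lit 221214) (nat_lit 23) (.e (nat_lit 204821) (nat_lit 17) (.e (nat_lit 1040) (nat_lit 81) .nil)))))))) (.g (nat_lit 4) .nil .nil)))) (.nd (nat_lit 6) 
(.lf (nat_lit 107700) (.g (nat_lit 2476) (.e (nat_lit 5195) (nat_lit 294) (.e (nat_lit 57379) (nat_lit 3) (.e (nat_lit 98313) (nat_lit 9) (.e (nat_lit 336027) (nat_lit 3) (.e (nat_lit 98342) (nat_lit 20) (.e (nat_lit 221211) (nat_lit 22) (.e (nat_lit 196657) (nat_lit 12) (.e (nat_lit 57354) (nat_lit 0) .nil)))))))) (.g (nat_lit 5) .nil .nil))) 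
(.lf (nat_lit 107764) (.g (nat_lit 2610) (.e (nat_lit 5195) (nat_lit 294) (.e (nat_lit 57379) (nat_lit 3) (.e (nat_lit 98333) (nat_lit 18) (.e (nat_lit 164399) (nat_lit 256) (.e (nat_lit 57588) (nat_lit 73) (.e (nat_lit 426139) (nat_lit 3) (.e (nat_lit 204873) (nat_lit 30) (.e (nat_lit 368662) (nat_lit 18) .nil)))))))) (.g (nat_lit 4) .nil .nil)))))) 
(.nd (nat_lit 4) (.nd (nat_lit 5) (.nd (nat_lit 6) 
(.lf (nat_lit 107660) (.g (nat_lit 1776) (.e (nat_lit 5195) (nat_lit 294) (.e (nat_lit 57377) (nat_lit 3) (.e (nat_lit 98317) (nat_lit 9) (.e (nat_lit 336214) (nat_lit 13) (.e (nat_lit 393227) (nat_lit 9) .nil))))) .nil)) 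
(.lf (nat_lit 107724) (.g (nat_lit 1510) (.e (nat_lit 5195) (nat_lit 294) (.e (nat_lit 57379) (nat_lit 3) (.e (nat_lit 98316) (nat_lit 9) (.e (nat_lit 336215) (nat_lit 13) (.e (nat_lit 401152) (nat_lit 10) .nil))))) .nil))) (.nd (nat_lit 6) 
(.lf (nat_lit 107692) (.g (nat_lit 2964) (.e (nat_lit 5195) (nat_lit 294) (.e (nat_lit 57379) (nat_lit 3) (.e (nat_lit 98313) (nat_lit 9) (.e (nat_lit 336027) (nat_lit 3) (.e (nat_lit 98338) (nat_lit 19) (.e (nat_lit 213013) (nat_lit 9) (.e (nat_lit 2666) (nat_lit 167) (.e (nat_lit 196661) (nat_lit 12) (.e (nat_lit 57357) (nat_lit 0) .nil))))))))) (.g (nat_lit 5) .nil .nil))) 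
(.lf (nat_lit 107756) (.g (nat_lit 1457) (.e (nat_lit 5195) (nat_lit 294) (.e (nat_lit 57379) (nat_lit 3) (.e (nat_lit 98317) (nat_lit 9) (.e (nat_lit 336223) (nat_lit 13) (.e (nat_lit 393229) (nat_lit 9) .nil))))) .nil)))) (.nd (nat_lit 5) (.nd (nat_lit 6) 
(.lf (nat_lit 107676) (.g (nat_lit 1613) (.e (nat_lit 5195) (nat_lit 294) (.e (nat_lit 57377) (nat_lit 3) (.e (nat_lit 98317) (nat_lit 9) (.e (nat_lit 336223) (nat_lit 13) (.e (nat_lit 401152) (nat_lit 10) (.e (nat_lit 344087) (nat_lit 18) .nil)))))) (.g (nat_lit 4) .nil .nil))) 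
(.lf (nat_lit 107740) (.g (nat_lit 3187) (.e (nat_lit 5195) (nat_lit 294) (.e (nat_lit 57379) (nat_lit 3) (.e (nat_lit 98317) (nat_lit 9) (.e (nat_lit 336213) (nat_lit 13) (.e (nat_lit 393229) (nat_lit 9) (.e (nat_lit 335886) (nat_lit 0) (.e (nat_lit 1023) (nat_lit 81) .nil))))))) (.g (nat_lit 5) .nil .nil)))) (.nd (nat_lit 6) 
(.lf (nat_lit 107708) (.g (nat_lit 1064) (.e (nat_lit 5195) (nat_lit 294) (.e (nat_lit 57379) (nat_lit 3) (.e (nat_lit 98313) (nat_lit 9) (.e (nat_lit 336213) (nat_lit 13) .nil)))) .nil)) 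
(.lf (nat_lit 107772) (.g (nat_lit 865) (.e (nat_lit 5195) (nat_lit 294) (.e (nat_lit 57379) (nat_lit 3) (.e (nat_lit 98342) (nat_lit 20) .nil))) .nil))))))) (.nd (nat_lit 2) (.nd (nat_lit 3) (.nd (nat_lit 4) (.nd (nat_lit 5) (.nd (nat_lit 6) 
(.lf (nat_lit 107650) (.g (nat_lit 4052) (.e (nat_lit 5195) (nat_lit 294) (.e (nat_lit 57377) (nat_lit 3) (.e (nat_lit 98317) (nat_lit 9) (.e (nat_lit 336203) (nat_lit 12) .nil)))) .nil)) 
(.lf (nat_lit 107714) (.g (nat_lit 1947) (.e (nat_lit 5195) (nat_lit 294) (.e (nat_lit 57379) (nat_lit 3) (.e (nat_lit 98313) (nat_lit 9) (.e (nat_lit 336215) (nat_lit 13) (.e (nat_lit 401152) (nat_lit 13) .nil))))) .nil))) (.nd (nat_lit 6) 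
(.lf (nat_lit 107682) (.g (nat_lit 3033) (.e (nat_lit 5195) (nat_lit 294) (.e (nat_lit 57377) (nat_lit 3) (.e (nat_lit 106240) (nat_lit 10) (.e (nat_lit 344133) (nat_lit 26) (.e (nat_lit 557105) (nat_lit 14) (.e (nat_lit 180251) (nat_lit 10) (.e (nat_lit 573478) (nat_lit 12) (.e (nat_lit 57356) (nat_lit 0) .nil)))))))) (.g (nat_lit 6) .nil .nil))) 
(.lf (nat_lit 107746) (.g (nat_lit 1550) (.e (nat_lit 5195) (nat_lit 294) (.e (nat_lit 57379) (nat_lit 3) (.e (nat_lit 98317) (nat_lit 9) (.e (nat_lit 336214) (nat_lit 13) (.e (nat_lit 401152) (nat_lit 10) (.e (nat_lit 344100) (nat_lit 18) .nil)))))) (.g (nat_lit 4) .nil .nil))))) (.nd (nat_lit 5) (.nd (nat_lit 6) 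
(.lf (nat_lit 107666) (.g (nat_lit 3113) (.e (nat_lit 5195) (nat_lit 294) (.e (nat_lit 57377) (nat_lit 3) (.e (nat_lit 98317) (nat_lit 9) (.e (nat_lit 336220) (nat_lit 13) .nil)))) .nil)) 
(.lf (nat_lit 107730) (.g (nat_lit 1784) (.e (nat_lit 5195) (nat_lit 294) (.e (nat_lit 57379) (nat_lit 3) (.e (nat_lit 98317) (nat_lit 9) (.e (nat_lit 336027) (nat_lit 3) (.e (nat_lit 98341) (nat_lit 20) (.e (nat_lit 221211) (nat_lit 22) (.e (nat_lit 196661) (nat_lit 12) (.e (nat_lit 57357) (nat_lit 0) .nil)))))))) (.g (nat_lit 4) .nil .nil)))) (.nd (nat_lit 6) 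
(.lf (nat_lit 107698) (.g (nat_lit 3417) (.e (nat_lit 5195) (nat_lit 294) (.e (nat_lit 57379) (nat_lit 3) (.e (nat_lit 98313) (nat_lit 9) (.e (nat_lit 336027) (nat_lit 3) (.e (nat_lit 98341) (nat_lit 20) (.e (nat_lit 221215) (nat_lit 23) (.e (nat_lit 204821) (nat_lit 17) (.e (nat_lit 1040) (nat_lit 81) .nil)))))))) (.g (nat_lit 6) .nil .nil))) 
(.lf (nat_lit 107762) (.g (nat_lit 1857) (.e (nat_lit 5195) (nat_lit 294) (.e (nat_lit 57379) (nat_lit 3) (.e (nat_lit 106240) (nat_lit 10) (.e (nat_lit 344132) (nat_lit 26) (.e (nat_lit 557105) (nat_lit 14) (.e (nat_lit 180251) (nat_lit 10) (.e (nat_lit 573478) (nat_lit 12) (.e (nat_lit 57356) (nat_lit 0) .nil)))))))) (.g (nat_lit 6) .nil .nil)))))) 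
(.nd (nat_lit 4) (.nd (nat_lit 5) (.nd (nat_lit 6) 
(.lf (nat_lit 107658) (.g (nat_lit 2014) (.e (nat_lit 5195) (nat_lit 294) (.e (nat_lit 57377) (nat_lit 3) (.e (nat_lit 98317) (nat_lit 9) (.e (nat_lit 336213) (nat_lit 13) (.e (nat_lit 401152) (nat_lit 10) (.e (nat_lit 344101) (nat_lit 18) .nil)))))) (.g (nat_lit 4) .nil .nil))) 
(.lf (nat_lit 107722) (.g (nat_lit 750) (.e (nat_lit 5195) (nat_lit 294) (.e (nat_lit 57379) (nat_lit 3) (.e (nat_lit 98316) (nat_lit 9) .nil))) .nil))) (.nd (nat_lit 6) 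
(.lf (nat_lit 107690) (.g (nat_lit 2322) (.e (nat_lit 5195) (nat_lit 294) (.e (nat_lit 57379) (nat_lit 3) (.e (nat_lit 98313) (nat_lit 9) (.e (nat_lit 336027) (nat_lit 3) (.e (nat_lit 98321) (nat_lit 17) (.e (nat_lit 3771) (nat_lit 229) (.e (nat_lit 794673) (nat_lit 23) (.e (nat_lit 204821) (nat_lit 17) (.e (nat_lit 1023) (nat_lit 81) .nil))))))))) (.g (nat_lit 4) .nil .nil))) 
(.lf (nat_lit 107754) (.g (nat_lit 1841) (.e (nat_lit 5195) (nat_lit 294) (.e (nat_lit 57379) (nat_lit 3) (.e (nat_lit 98317) (nat_lit 9) (.e (nat_lit 336222) (nat_lit 13) (.e (nat_lit 401152) (nat_lit 10) (.e (nat_lit 344101) (nat_lit 18) .nil)))))) (.g (nat_lit 4) .nil .nil))))) (.nd (nat_lit 5) (.nd (nat_lit 6) 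
(.lf (nat_lit 107674) (.g (nat_lit 1430) (.e (nat_lit 5195) (nat_lit 294) (.e (nat_lit 57377) (nat_lit 3) (.e (nat_lit 98317) (nat_lit 9) (.e (nat_lit 336223) (nat_lit 13) (.e (nat_lit 393229) (nat_lit 9) .nil))))) .nil)) 
(.lf (nat_lit 107738) (.g (nat_lit 821) (.e (nat_lit 5195) (nat_lit 294) (.e (nat_lit 57379) (nat_lit 3) (.e (nat_lit 98317) (nat_lit 9) (.e (nat_lit 336213) (nat_lit 13) .nil)))) .nil))) (.nd (nat_lit 6) 
(.lf (nat_lit 107706) (.g (nat_lit 3594) (.e (nat_lit 5195) (nat_lit 294) (.e (nat_lit 57379) (nat_lit 3) (.e (nat_lit 98313) (nat_lit 9) (.e (nat_lit 336027) (nat_lit 3) (.e (nat_lit 98342) (nat_lit 20) (.e (nat_lit 221215) (nat_lit 23) (.e (nat_lit 204821) (nat_lit 17) (.e (nat_lit 1040) (nat_lit 81) .nil)))))))) (.g (nat_lit 6) .nil .nil))) 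
(.lf (nat_lit 107770) (.g (nat_lit 827) (.e (nat_lit 5195) (nat_lit 294) (.e (nat_lit 57379) (nat_lit 3) (.e (nat_lit 98341) (nat_lit 20) .nil))) .nil)))))) (.nd (nat_lit 3) (.nd (nat_lit 4) (.nd (nat_lit 5) (.nd (nat_lit 6) 
(.lf (nat_lit 107654) (.g (nat_lit 1915) (.e (nat_lit 5195) (nat_lit 294) (.e (nat_lit 57377) (nat_lit 3) (.e (nat_lit 98317) (nat_lit 9) (.e (nat_lit 336213) (nat_lit 13) (.e (nat_lit 393227) (nat_lit 9) (.e (nat_lit 335957) (nat_lit 0) (.e (nat_lit 1037) (nat_lit 81) .nil))))))) (.g (nat_lit 4) .nil .nil))) 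
(.lf (nat_lit 107718) (.g (nat_lit 1995) (.e (nat_lit 5195) (nat_lit 294) (.e (nat_lit 57379) (nat_lit 3) (.e (nat_lit 98313) (nat_lit 9) (.e (nat_lit 336223) (nat_lit 13) (.e (nat_lit 401152) (nat_lit 10) .nil))))) .nil))) (.nd (nat_lit 6) 
(.lf (nat_lit 107686) (.g (nat_lit 1139) (.e (nat_lit 5195) (nat_lit 294) (.e (nat_lit 57379) (nat_lit 3) (.e (nat_lit 98312) (nat_lit 9) (.e (nat_lit 336215) (nat_lit 13) (.e (nat_lit 401152) (nat_lit 10) .nil))))) .nil)) 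
(.lf (nat_lit 107750) (.g (nat_lit 1683) (.e (nat_lit 5195) (nat_lit 294) (.e (nat_lit 57379) (nat_lit 3) (.e (nat_lit 98317) (nat_lit 9) (.e (nat_lit 336215) (nat_lit 13) (.e (nat_lit 401152) (nat_lit 10) .nil))))) .nil)))) (.nd (nat_lit 5) (.nd (nat_lit 6) 
(.lf (nat_lit 107670) (.g (nat_lit 2000) (.e (nat_lit 5195) (nat_lit 294) (.e (nat_lit 57377) (nat_lit 3) (.e (nat_lit 98317) (nat_lit 9) (.e (nat_lit 336222) (nat_lit 13) (.e (nat_lit 401152) (nat_lit 10) (.e (nat_lit 344101) (nat_lit 18) .nil)))))) (.g (nat_lit 4) .nil .nil))) 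
(.lf (nat_lit 107734) (.g (nat_lit 2407) (.e (nat_lit 5195) (nat_lit 294) (.e (nat_lit 57379) (nat_lit 3) (.e (nat_lit 98317) (nat_lit 9) (.e (nat_lit 336076) (nat_lit 9) (.e (nat_lit 336367) (nat_lit 27) (.e (nat_lit 426533) (nat_lit 28) (.e (nat_lit 344100) (nat_lit 18) .nil))))))) (.g (nat_lit 6) .nil .nil)))) (.nd (nat_lit 6) 
(.lf (nat_lit 107702) (.g (nat_lit 3527) (.e (nat_lit 5195) (nat_lit 294) (.e (nat_lit 57379) (nat_lit 3) (.e (nat_lit 98313) (nat_lit 9) (.e (nat_lit 336027) (nat_lit 3) (.e (nat_lit 98342) (nat_lit 20) (.e (nat_lit 221211) (nat_lit 22) (.e (nat_lit 196661) (nat_lit 12) (.e (nat_lit 57357) (nat_lit 0) .nil)))))))) (.g (nat_lit 7) .nil .nil))) 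
(.lf (nat_lit 107766) (.g (nat_lit 2132) (.e (nat_lit 5195) (nat_lit 294) (.e (nat_lit 57379) (nat_lit 3) (.e (nat_lit 98334) (nat_lit 18) (.e (nat_lit 164383) (nat_lit 254) (.e (nat_lit 1124) (nat_lit 83) .nil))))) .nil))))) (.nd (nat_lit 4) (.nd (nat_lit 5) (.nd (nat_lit 6) 
(.lf (nat_lit 107662) (.g (nat_lit 1288) (.e (nat_lit 5195) (nat_lit 294) (.e (nat_lit 57377) (nat_lit 3) (.e (nat_lit 98317) (nat_lit 9) (.e (nat_lit 336215) (nat_lit 13) .nil)))) .nil)) 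
(.lf (nat_lit 107726) (.g (nat_lit 1206) (.e (nat_lit 5195) (nat_lit 294) (.e (nat_lit 57379) (nat_lit 3) (.e (nat_lit 98317) (nat_lit 9) (.e (nat_lit 336026) (nat_lit 3) .nil)))) .nil))) (.nd (nat_lit 6) 
(.lf (nat_lit 107694) (.g (nat_lit 2395) (.e (nat_lit 5195) (nat_lit 294) (.e (nat_lit 57379) (nat_lit 3) (.e (nat_lit 98313) (nat_lit 9) (.e (nat_lit 336027) (nat_lit 3) (.e (nat_lit 98338) (nat_lit 19) (.e (nat_lit 213013) (nat_lit 9) (.e (nat_lit 2684) (nat_lit 168) (.e (nat_lit 204822) (nat_lit 17) (.e (nat_lit 1023) (nat_lit 81) .nil))))))))) (.g (nat_lit 4) .nil .nil))) 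
(.lf (nat_lit 107758) (.g (nat_lit 1574) (.e (nat_lit 5195) (nat_lit 294) (.e (nat_lit 57379) (nat_lit 3) (.e (nat_lit 98317) (nat_lit 9) (.e (nat_lit 336223) (nat_lit 13) (.e (nat_lit 401152) (nat_lit 10) (.e (nat_lit 344099) (nat_lit 18) .nil)))))) (.g (nat_lit 4) .nil .nil))))) (.nd (nat_lit 5) (.nd (nat_lit 6) 
(.lf (nat_lit 107678) (.g (nat_lit 4058) (.e (nat_lit 5195) (nat_lit 294) (.e (nat_lit 57377) (nat_lit 3) (.e (nat_lit 98317) (nat_lit 9) (.e (nat_lit 336231) (nat_lit 14) .nil)))) .nil)) 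
(.lf (nat_lit 107742) (.g (nat_lit 1567) (.e (nat_lit 5195) (nat_lit 294) (.e (nat_lit 57379) (nat_lit 3) (.e (nat_lit 98317) (nat_lit 9) (.e (nat_lit 336213) (nat_lit 13) (.e (nat_lit 401152) (nat_lit 10) .nil))))) .nil))) (.nd (nat_lit 6) 
(.lf (nat_lit 107710) (.g (nat_lit 1323) (.e (nat_lit 5195) (nat_lit 294) (.e (nat_lit 57379) (nat_lit 3) (.e (nat_lit 98313) (nat_lit 9) (.e (nat_lit 336214) (nat_lit 13) .nil)))) .nil)) 
(.lf (nat_lit 107774) (.g (nat_lit 1891) (.e (nat_lit 5195) (nat_lit 294) (.e (nat_lit 57381) (nat_lit 4) (.e (nat_lit 106536) (nat_lit 11) (.e (nat_lit 16437) (nat_lit 9) (.e (nat_lit 426544) (nat_lit 30) (.e (nat_lit 360453) (nat_lit 0) .nil)))))) (.g (nat_lit 4) .nil .nil))))))))) (.nd (nat_lit 1) (.nd (nat_lit 2) (.nd (nat_lit 3) (.nd (nat_lit 4) (.nd (nat_lit 5) (.nd (nat_lit 6) 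
(.lf (nat_lit 107649) (.g (nat_lit 4042) (.e (nat_lit 5195) (nat_lit 294) (.e (nat_lit 57377) (nat_lit 3) (.e (nat_lit 98317) (nat_lit 9) (.e (nat_lit 336202) (nat_lit 12) .nil)))) .nil)) 
(.lf (nat_lit 107713) (.g (nat_lit 2154) (.e (nat_lit 5195) (nat_lit 294) (.e (nat_lit 57379) (nat_lit 3) (.e (nat_lit 98313) (nat_lit 9) (.e (nat_lit 336215) (nat_lit 13) (.e (nat_lit 401152) (nat_lit 10) (.e (nat_lit 344097) (nat_lit 18) .nil)))))) (.g (nat_lit 4) .nil .nil)))) (.nd (nat_lit 6) 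
(.lf (nat_lit 107681) (.g (nat_lit 2145) (.e (nat_lit 5195) (nat_lit 294) (.e (nat_lit 57377) (nat_lit 3) (.e (nat_lit 106240) (nat_lit 10) (.e (nat_lit 344132) (nat_lit 26) (.e (nat_lit 557105) (nat_lit 14) (.e (nat_lit 180251) (nat_lit 10) (.e (nat_lit 573478) (nat_lit 12) (.e (nat_lit 57356) (nat_lit 0) .nil)))))))) (.g (nat_lit 6) .nil .nil))) 
(.lf (nat_lit 107745) (.g (nat_lit 1591) (.e (nat_lit 5195) (nat_lit 294) (.e (nat_lit 57379) (nat_lit 3) (.e (nat_lit 98317) (nat_lit 9) (.e (nat_lit 336214) (nat_lit 13) (.e (nat_lit 393227) (nat_lit 9) .nil))))) .nil)))) (.nd (nat_lit 5) (.nd (nat_lit 6) 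
(.lf (nat_lit 107665) (.g (nat_lit 2183) (.e (nat_lit 5195) (nat_lit 294) (.e (nat_lit 57377) (nat_lit 3) (.e (nat_lit 98317) (nat_lit 9) (.e (nat_lit 336215) (nat_lit 13) (.e (nat_lit 401152) (nat_lit 10) (.e (nat_lit 344101) (nat_lit 18) .nil)))))) (.g (nat_lit 4) .nil .nil))) 
(.lf (nat_lit 107729) (.g (nat_lit 1664) (.e (nat_lit 5195) (nat_lit 294) (.e (nat_lit 57379) (nat_lit 3) (.e (nat_lit 98317) (nat_lit 9) (.e (nat_lit 336027) (nat_lit 3) (.e (nat_lit 98341) (nat_lit 20) .nil))))) .nil))) (.nd (nat_lit 6) 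
(.lf (nat_lit 107697) (.g (nat_lit 3456) (.e (nat_lit 5195) (nat_lit 294) (.e (nat_lit 57379) (nat_lit 3) (.e (nat_lit 98313) (nat_lit 9) (.e (nat_lit 336027) (nat_lit 3) (.e (nat_lit 98341) (nat_lit 20) (.e (nat_lit 221214) (nat_lit 23) (.e (nat_lit 204821) (nat_lit 17) (.e (nat_lit 1040) (nat_lit 81) .nil)))))))) (.g (nat_lit 6) .nil .nil))) 
(.lf (nat_lit 107761) (.g (nat_lit 2892) (.e (nat_lit 5195) (nat_lit 294) (.e (nat_lit 57379) (nat_lit 3) (.e (nat_lit 106240) (nat_lit 10) (.e (nat_lit 344131) (nat_lit 26) (.e (nat_lit 557105) (nat_lit 14) (.e (nat_lit 180252) (nat_lit 10) (.e (nat_lit 573475) (nat_lit 12) (.e (nat_lit 57356) (nat_lit 0) .nil)))))))) (.g (nat_lit 6) .nil .nil)))))) 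
(.nd (nat_lit 4) (.nd (nat_lit 5) (.nd (nat_lit 6) 
(.lf (nat_lit 107657) (.g (nat_lit 1518) (.e (nat_lit 5195) (nat_lit 294) (.e (nat_lit 57377) (nat_lit 3) (.e (nat_lit 98317) (nat_lit 9) (.e (nat_lit 336213) (nat_lit 13) (.e (nat_lit 401152) (nat_lit 10) .nil))))) .nil)) 
(.lf (nat_lit 107721) (.g (nat_lit 534) (.e (nat_lit 5195) (nat_lit 294) (.e (nat_lit 57379) (nat_lit 3) (.e (nat_lit 98315) (nat_lit 9) .nil))) .nil))) (.nd (nat_lit 6) 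
(.lf (nat_lit 107689) (.g (nat_lit 1031) (.e (nat_lit 5195) (nat_lit 294) (.e (nat_lit 57379) (nat_lit 3) (.e (nat_lit 98313) (nat_lit 9) (.e (nat_lit 336027) (nat_lit 3) .nil)))) .nil)) 
(.lf (nat_lit 107753) (.g (nat_lit 1443) (.e (nat_lit 5195) (nat_lit 294) (.e (nat_lit 57379) (nat_lit 3) (.e (nat_lit 98317) (nat_lit 9) (.e (nat_lit 336222) (nat_lit 13) (.e (nat_lit 401152) (nat_lit 10) .nil))))) .nil)))) (.nd (nat_lit 5) (.nd (nat_lit 6) 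
(.lf (nat_lit 107673) (.g (nat_lit 2236) (.e (nat_lit 5195) (nat_lit 294) (.e (nat_lit 57377) (nat_lit 3) (.e (nat_lit 98317) (nat_lit 9) (.e (nat_lit 336223) (nat_lit 13) (.e (nat_lit 393227) (nat_lit 9) (.e (nat_lit 335958) (nat_lit 0) (.e (nat_lit 1037) (nat_lit 81) .nil))))))) (.g (nat_lit 5) .nil .nil))) 
(.lf (nat_lit 107737) (.g (nat_lit 1685) (.e (nat_lit 5195) (nat_lit 294) (.e (nat_lit 57379) (nat_lit 3) (.e (nat_lit 98317) (nat_lit 9) (.e (nat_lit 336088) (nat_lit 9) (.e (nat_lit 336366) (nat_lit 27) (.e (nat_lit 426537) (nat_lit 28) (.e (nat_lit 344097) (nat_lit 18) .nil))))))) (.g (nat_lit 4) .nil .nil)))) (.nd (nat_lit 6) 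
(.lf (nat_lit 107705) (.g (nat_lit 2507) (.e (nat_lit 5195) (nat_lit 294) (.e (nat_lit 57379) (nat_lit 3) (.e (nat_lit 98313) (nat_lit 9) (.e (nat_lit 336027) (nat_lit 3) (.e (nat_lit 98342) (nat_lit 20) (.e (nat_lit 221215) (nat_lit 23) (.e (nat_lit 204821) (nat_lit 17) (.e (nat_lit 1023) (nat_lit 81) .nil)))))))) (.g (nat_lit 5) .nil .nil))) 
(.lf (nat_lit 107769) (.g (nat_lit 2343) (.e (nat_lit 5195) (nat_lit 294) (.e (nat_lit 57379) (nat_lit 3) (.e (nat_lit 98334) (nat_lit 18) (.e (nat_lit 164401) (nat_lit 256) (.e (nat_lit 57588) (nat_lit 73) (.e (nat_lit 426139) (nat_lit 3) (.e (nat_lit 204872) (nat_lit 30) (.e (nat_lit 368662) (nat_lit 18) .nil)))))))) (.g (nat_lit 4) .nil .nil))))))) 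
(.nd (nat_lit 3) (.nd (nat_lit 4) (.nd (nat_lit 5) (.nd (nat_lit 6) 
(.lf (nat_lit 107653) (.g (nat_lit 1822) (.e (nat_lit 5195) (nat_lit 294) (.e (nat_lit 57377) (nat_lit 3) (.e (nat_lit 98317) (nat_lit 9) (.e (nat_lit 336213) (nat_lit 13) (.e (nat_lit 393227) (nat_lit 9) .nil))))) .nil)) 
(.lf (nat_lit 107717) (.g (nat_lit 2276) (.e (nat_lit 5195) (nat_lit 294) (.e (nat_lit 57379) (nat_lit 3) (.e (nat_lit 98313) (nat_lit 9) (.e (nat_lit 336223) (nat_lit 13) (.e (nat_lit 393227) (nat_lit 9) (.e (nat_lit 335958) (nat_lit 0) (.e (nat_lit 1037) (nat_lit 81) .nil))))))) (.g (nat_lit 4) .nil .nil)))) (.nd (nat_lit 6) 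
(.lf (nat_lit 107685) (.g (nat_lit 1250) (.e (nat_lit 5195) (nat_lit 294) (.e (nat_lit 57379) (nat_lit 3) (.e (nat_lit 98312) (nat_lit 9) (.e (nat_lit 336215) (nat_lit 13) (.e (nat_lit 393227) (nat_lit 9) .nil))))) .nil)) 
(.lf (nat_lit 107749) (.g (nat_lit 2129) (.e (nat_lit 5195) (nat_lit 294) (.e (nat_lit 57379) (nat_lit 3) (.e (nat_lit 98317) (nat_lit 9) (.e (nat_lit 336215) (nat_lit 13) (.e (nat_lit 393227) (nat_lit 9) (.e (nat_lit 335958) (nat_lit 0) (.e (nat_lit 1037) (nat_lit 81) .nil))))))) (.g (nat_lit 4) .nil .nil))))) (.nd (nat_lit 5) (.nd (nat_lit 6) 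
(.lf (nat_lit 107669) (.g (nat_lit 1756) (.e (nat_lit 5195) (nat_lit 294) (.e (nat_lit 57377) (nat_lit 3) (.e (nat_lit 98317) (nat_lit 9) (.e (nat_lit 336222) (nat_lit 13) (.e (nat_lit 393227) (nat_lit 9) (.e (nat_lit 335958) (nat_lit 0) (.e (nat_lit 1037) (nat_lit 81) .nil))))))) (.g (nat_lit 4) .nil .nil))) 
(.lf (nat_lit 107733) (.g (nat_lit 1055) (.e (nat_lit 5195) (nat_lit 294) (.e (nat_lit 57379) (nat_lit 3) (.e (nat_lit 98317) (nat_lit 9) (.e (nat_lit 336076) (nat_lit 9) .nil)))) .nil))) (.nd (nat_lit 6) 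
(.lf (nat_lit 107701) (.g (nat_lit 2068) (.e (nat_lit 5195) (nat_lit 294) (.e (nat_lit 57379) (nat_lit 3) (.e (nat_lit 98313) (nat_lit 9) (.e (nat_lit 336027) (nat_lit 3) (.e (nat_lit 98342) (nat_lit 20) (.e (nat_lit 221211) (nat_lit 22) (.e (nat_lit 196660) (nat_lit 12) (.e (nat_lit 57354) (nat_lit 0) .nil)))))))) (.g (nat_lit 4) .nil .nil))) 
(.lf (nat_lit 107765) (.g (nat_lit 1945) (.e (nat_lit 5195) (nat_lit 294) (.e (nat_lit 57379) (nat_lit 3) (.e (nat_lit 98334) (nat_lit 18) (.e (nat_lit 164383) (nat_lit 254) .nil)))) .nil))))) (.nd (nat_lit 4) (.nd (nat_lit 5) (.nd (nat_lit 6) 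
(.lf (nat_lit 107661) (.g (nat_lit 1835) (.e (nat_lit 5195) (nat_lit 294) (.e (nat_lit 57377) (nat_lit 3) (.e (nat_lit 98317) (nat_lit 9) (.e (nat_lit 336214) (nat_lit 13) (.e (nat_lit 401152) (nat_lit 10) (.e (nat_lit 344100) (nat_lit 18) .nil)))))) (.g (nat_lit 4) .nil .nil))) 
(.lf (nat_lit 107725) (.g (nat_lit 309) (.e (nat_lit 5195) (nat_lit 294) (.e (nat_lit 57379) (nat_lit 3) (.e (nat_lit 98317) (nat_lit 9) .nil))) .nil))) (.nd (nat_lit 6) 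
(.lf (nat_lit 107693) (.g (nat_lit 2358) (.e (nat_lit 5195) (nat_lit 294) (.e (nat_lit 57379) (nat_lit 3) (.e (nat_lit 98313) (nat_lit 9) (.e (nat_lit 336027) (nat_lit 3) (.e (nat_lit 98338) (nat_lit 19) (.e (nat_lit 213013) (nat_lit 9) (.e (nat_lit 2667) (nat_lit 167) (.e (nat_lit 196661) (nat_lit 12) (.e (nat_lit 57357) (nat_lit 0) .nil))))))))) (.g (nat_lit 4) .nil .nil))) 
(.lf (nat_lit 107757) (.g (nat_lit 1520) (.e (nat_lit 5195) (nat_lit 294) (.e (nat_lit 57379) (nat_lit 3) (.e (nat_lit 98317) (nat_lit 9) (.e (nat_lit 336223) (nat_lit 13) (.e (nat_lit 401152) (nat_lit 10) .nil))))) .nil)))) (.nd (nat_lit 5) (.nd (nat_lit 6) 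
(.lf (nat_lit 107677) (.g (nat_lit 1693) (.e (nat_lit 5195) (nat_lit 294) (.e (nat_lit 57377) (nat_lit 3) (.e (nat_lit 98317) (nat_lit 9) (.e (nat_lit 336223) (nat_lit 13) (.e (nat_lit 401152) (nat_lit 10) (.e (nat_lit 344099) (nat_lit 18) .nil)))))) (.g (nat_lit 4) .nil .nil))) 
(.lf (nat_lit 107741) (.g (nat_lit 3144) (.e (nat_lit 5195) (nat_lit 294) (.e (nat_lit 57379) (nat_lit 3) (.e (nat_lit 98317) (nat_lit 9) (.e (nat_lit 336213) (nat_lit 13) (.e (nat_lit 393229) (nat_lit 9) (.e (nat_lit 335933) (nat_lit 0) (.e (nat_lit 1040) (nat_lit 81) .nil))))))) (.g (nat_lit 5) .nil .nil)))) (.nd (nat_lit 6) 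
(.lf (nat_lit 107709) (.g (nat_lit 1649) (.e (nat_lit 5195) (nat_lit 294) (.e (nat_lit 57379) (nat_lit 3) (.e (nat_lit 98313) (nat_lit 9) (.e (nat_lit 336213) (nat_lit 13) (.e (nat_lit 393227) (nat_lit 9) .nil))))) .nil)) 
(.lf (nat_lit 107773) (.g (nat_lit 1717) (.e (nat_lit 5195) (nat_lit 294) (.e (nat_lit 57379) (nat_lit 3) (.e (nat_lit 98342) (nat_lit 20) (.e (nat_lit 221215) (nat_lit 23) .nil)))) .nil))))))) (.nd (nat_lit 2) (.nd (nat_lit 3) (.nd (nat_lit 4) (.nd (nat_lit 5) (.nd (nat_lit 6) 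
(.lf (nat_lit 107651) (.g (nat_lit 3834) (.e (nat_lit 5195) (nat_lit 294) (.e (nat_lit 57377) (nat_lit 3) (.e (nat_lit 98317) (nat_lit 9) (.e (nat_lit 336204) (nat_lit 12) .nil)))) .nil)) 
(.lf (nat_lit 107715) (.g (nat_lit 1680) (.e (nat_lit 5195) (nat_lit 294) (.e (nat_lit 57379) (nat_lit 3) (.e (nat_lit 98313) (nat_lit 9) (.e (nat_lit 336222) (nat_lit 13) (.e (nat_lit 401152) (nat_lit 10) .nil))))) .nil))) (.nd (nat_lit 6) 
(.lf (nat_lit 107683) (.g (nat_lit 3715) (.e (nat_lit 5195) (nat_lit 294) (.e (nat_lit 57377) (nat_lit 3) (.e (nat_lit 106240) (nat_lit 10) (.e (nat_lit 344133) (nat_lit 26) (.e (nat_lit 557105) (nat_lit 14) (.e (nat_lit 180252) (nat_lit 10) (.e (nat_lit 573475) (nat_lit 12) (.e (nat_lit 57356) (nat_lit 0) .nil)))))))) (.g (nat_lit 6) .nil .nil))) 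
(.lf (nat_lit 107747) (.g (nat_lit 1078) (.e (nat_lit 5195) (nat_lit 294) (.e (nat_lit 57379) (nat_lit 3) (.e (nat_lit 98317) (nat_lit 9) (.e (nat_lit 336215) (nat_lit 13) .nil)))) .nil)))) (.nd (nat_lit 5) (.nd (nat_lit 6) 
(.lf (nat_lit 107667) (.g (nat_lit 1925) (.e (nat_lit 5195) (nat_lit 294) (.e (nat_lit 57377) (nat_lit 3) (.e (nat_lit 98317) (nat_lit 9) (.e (nat_lit 336221) (nat_lit 13) .nil)))) .nil)) 
(.lf (nat_lit 107731) (.g (nat_lit 2048) (.e (nat_lit 5195) (nat_lit 294) (.e (nat_lit 57379) (nat_lit 3) (.e (nat_lit 98317) (nat_lit 9) (.e (nat_lit 336027) (nat_lit 3) (.e (nat_lit 98342) (nat_lit 20) (.e (nat_lit 221211) (nat_lit 22) (.e (nat_lit 196661) (nat_lit 12) (.e (nat_lit 57357) (nat_lit 0) .nil)))))))) (.g (nat_lit 4) .nil .nil)))) (.nd (nat_lit 6) 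
(.lf (nat_lit 107699) (.g (nat_lit 1727) (.e (nat_lit 5195) (nat_lit 294) (.e (nat_lit 57379) (nat_lit 3) (.e (nat_lit 98313) (nat_lit 9) (.e (nat_lit 336027) (nat_lit 3) (.e (nat_lit 98342) (nat_lit 20) .nil))))) .nil)) 
(.lf (nat_lit 107763) (.g (nat_lit 505) (.e (nat_lit 5195) (nat_lit 294) (.e (nat_lit 57379) (nat_lit 3) (.e (nat_lit 106240) (nat_lit 11) .nil))) .nil))))) (.nd (nat_lit 4) (.nd (nat_lit 5) (.nd (nat_lit 6) 
(.lf (nat_lit 107659) (.g (nat_lit 1353) (.e (nat_lit 5195) (nat_lit 294) (.e (nat_lit 57377) (nat_lit 3) (.e (nat_lit 98317) (nat_lit 9) (.e (nat_lit 336214) (nat_lit 13) .nil)))) .nil)) 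
(.lf (nat_lit 107723) (.g (nat_lit 1807) (.e (nat_lit 5195) (nat_lit 294) (.e (nat_lit 57379) (nat_lit 3) (.e (nat_lit 98316) (nat_lit 9) (.e (nat_lit 336215) (nat_lit 13) (.e (nat_lit 393227) (nat_lit 9) .nil))))) .nil))) (.nd (nat_lit 6) 
(.lf (nat_lit 107691) (.g (nat_lit 2287) (.e (nat_lit 5195) (nat_lit 294) (.e (nat_lit 57379) (nat_lit 3) (.e (nat_lit 98313) (nat_lit 9) (.e (nat_lit 336027) (nat_lit 3) (.e (nat_lit 98338) (nat_lit 19) .nil))))) .nil)) 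
(.lf (nat_lit 107755) (.g (nat_lit 1659) (.e (nat_lit 5195) (nat_lit 294) (.e (nat_lit 57379) (nat_lit 3) (.e (nat_lit 98317) (nat_lit 9) (.e (nat_lit 336223) (nat_lit 13) (.e (nat_lit 393227) (nat_lit 9) (.e (nat_lit 335957) (nat_lit 0) (.e (nat_lit 1037) (nat_lit 81) .nil))))))) (.g (nat_lit 4) .nil .nil))))) (.nd (nat_lit 5) (.nd (nat_lit 6) 
(.lf (nat_lit 107675) (.g (nat_lit 2658) (.e (nat_lit 5195) (nat_lit 294) (.e (nat_lit 57377) (nat_lit 3) (.e (nat_lit 98317) (nat_lit 9) (.e (nat_lit 336223) (nat_lit 13) (.e (nat_lit 393229) (nat_lit 9) (.e (nat_lit 335933) (nat_lit 0) (.e (nat_lit 1040) (nat_lit 81) .nil))))))) (.g (nat_lit 5) .nil .nil))) 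
(.lf (nat_lit 107739) (.g (nat_lit 1972) (.e (nat_lit 5195) (nat_lit 294) (.e (nat_lit 57379) (nat_lit 3) (.e (nat_lit 98317) (nat_lit 9) (.e (nat_lit 336213) (nat_lit 13) (.e (nat_lit 393227) (nat_lit 9) (.e (nat_lit 335957) (nat_lit 0) (.e (nat_lit 1037) (nat_lit 81) .nil))))))) (.g (nat_lit 4) .nil .nil)))) (.nd (nat_lit 6) 
(.lf (nat_lit 107707) (.g (nat_lit 1838) (.e (nat_lit 5195) (nat_lit 294) (.e (nat_lit 57379) (nat_lit 3) (.e (nat_lit 98313) (nat_lit 9) (.e (nat_lit 336088) (nat_lit 9) (.e (nat_lit 336367) (nat_lit 27) .nil))))) .nil)) 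
(.lf (nat_lit 107771) (.g (nat_lit 1699) (.e (nat_lit 5195) (nat_lit 294) (.e (nat_lit 57379) (nat_lit 3) (.e (nat_lit 98341) (nat_lit 20) (.e (nat_lit 221214) (nat_lit 23) .nil)))) .nil)))))) (.nd (nat_lit 3) (.nd (nat_lit 4) (.nd (nat_lit 5) (.nd (nat_lit 6) 
(.lf (nat_lit 107655) (.g (nat_lit 3115) (.e (nat_lit 5195) (nat_lit 294) (.e (nat_lit 57377) (nat_lit 3) (.e (nat_lit 98317) (nat_lit 9) (.e (nat_lit 336213) (nat_lit 13) (.e (nat_lit 393229) (nat_lit 9) (.e (nat_lit 335886) (nat_lit 0) (.e (nat_lit 1023) (nat_lit 81) .nil))))))) (.g (nat_lit 5) .nil .nil))) 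
(.lf (nat_lit 107719) (.g (nat_lit 2100) (.e (nat_lit 5195) (nat_lit 294) (.e (nat_lit 57379) (nat_lit 3) (.e (nat_lit 98313) (nat_lit 9) (.e (nat_lit 336223) (nat_lit 13) (.e (nat_lit 401152) (nat_lit 10) (.e (nat_lit 344100) (nat_lit 18) .nil)))))) (.g (nat_lit 4) .nil .nil)))) (.nd (nat_lit 6) 
(.lf (nat_lit 107687) (.g (nat_lit 1453) (.e (nat_lit 5195) (nat_lit 294) (.e (nat_lit 57379) (nat_lit 3) (.e (nat_lit 98312) (nat_lit 9) (.e (nat_lit 336215) (nat_lit 13) (.e (nat_lit 401152) (nat_lit 10) (.e (nat_lit 344101) (nat_lit 18) .nil)))))) (.g (nat_lit 4) .nil .nil))) 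
(.lf (nat_lit 107751) (.g (nat_lit 1975) (.e (nat_lit 5195) (nat_lit 294) (.e (nat_lit 57379) (nat_lit 3) (.e (nat_lit 98317) (nat_lit 9) (.e (nat_lit 336215) (nat_lit 13) (.e (nat_lit 401152) (nat_lit 10) (.e (nat_lit 344101) (nat_lit 18) .nil)))))) (.g (nat_lit 4) .nil .nil))))) (.nd (nat_lit 5) (.nd (nat_lit 6) 
(.lf (nat_lit 107671) (.g (nat_lit 1594) (.e (nat_lit 5195) (nat_lit 294) (.e (nat_lit 57377) (nat_lit 3) (.e (nat_lit 98317) (nat_lit 9) (.e (nat_lit 336223) (nat_lit 13) (.e (nat_lit 393227) (nat_lit 9) .nil))))) .nil)) 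
(.lf (nat_lit 107735) (.g (nat_lit 863) (.e (nat_lit 5195) (nat_lit 294) (.e (nat_lit 57379) (nat_lit 3) (.e (nat_lit 98317) (nat_lit 9) (.e (nat_lit 336088) (nat_lit 9) .nil)))) .nil))) (.nd (nat_lit 6) 
(.lf (nat_lit 107703) (.g (nat_lit 3519) (.e (nat_lit 5195) (nat_lit 294) (.e (nat_lit 57379) (nat_lit 3) (.e (nat_lit 98313) (nat_lit 9) (.e (nat_lit 336027) (nat_lit 3) (.e (nat_lit 98342) (nat_lit 20) (.e (nat_lit 221212) (nat_lit 22) (.e (nat_lit 196659) (nat_lit 12) (.e (nat_lit 57354) (nat_lit 0) .nil)))))))) (.g (nat_lit 6) .nil .nil))) 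
(.lf (nat_lit 107767) (.g (nat_lit 2802) (.e (nat_lit 5195) (nat_lit 294) (.e (nat_lit 57379) (nat_lit 3) (.e (nat_lit 98334) (nat_lit 18) (.e (nat_lit 164398) (nat_lit 256) (.e (nat_lit 57588) (nat_lit 73) .nil))))) .nil))))) (.nd (nat_lit 4) (.nd (nat_lit 5) (.nd (nat_lit 6) 
(.lf (nat_lit 107663) (.g (nat_lit 1768) (.e (nat_lit 5195) (nat_lit 294) (.e (nat_lit 57377) (nat_lit 3) (.e (nat_lit 98317) (nat_lit 9) (.e (nat_lit 336215) (nat_lit 13) (.e (nat_lit 393227) (nat_lit 9) .nil))))) .nil)) 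
(.lf (nat_lit 107727) (.g (nat_lit 1074) (.e (nat_lit 5195) (nat_lit 294) (.e (nat_lit 57379) (nat_lit 3) (.e (nat_lit 98317) (nat_lit 9) (.e (nat_lit 336027) (nat_lit 3) .nil)))) .nil))) (.nd (nat_lit 6) 
(.lf (nat_lit 107695) (.g (nat_lit 2008) (.e (nat_lit 5195) (nat_lit 294) (.e (nat_lit 57379) (nat_lit 3) (.e (nat_lit 98313) (nat_lit 9) (.e (nat_lit 336027) (nat_lit 3) (.e (nat_lit 98341) (nat_lit 20) (.e (nat_lit 221211) (nat_lit 22) (.e (nat_lit 196657) (nat_lit 12) (.e (nat_lit 57354) (nat_lit 0) .nil)))))))) (.g (nat_lit 4) .nil .nil))) 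
(.lf (nat_lit 107759) (.g (nat_lit 505) (.e (nat_lit 5195) (nat_lit 294) (.e (nat_lit 57379) (nat_lit 3) (.e (nat_lit 106240) (nat_lit 10) .nil))) .nil)))) (.nd (nat_lit 5) (.nd (nat_lit 6) 
(.lf (nat_lit 107679) (.g (nat_lit 555) (.e (nat_lit 5195) (nat_lit 294) (.e (nat_lit 57377) (nat_lit 3) (.e (nat_lit 106240) (nat_lit 10) .nil))) .nil)) 
(.lf (nat_lit 107743) (.g (nat_lit 1893) (.e (nat_lit 5195) (nat_lit 294) (.e (nat_lit 57379) (nat_lit 3) (.e (nat_lit 98317) (nat_lit 9) (.e (nat_lit 336213) (nat_lit 13) (.e (nat_lit 401152) (nat_lit 10) (.e (nat_lit 344101) (nat_lit 18) .nil)))))) (.g (nat_lit 4) .nil .nil)))) (.nd (nat_lit 6) 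
(.lf (nat_lit 107711) (.g (nat_lit 2111) (.e (nat_lit 5195) (nat_lit 294) (.e (nat_lit 57379) (nat_lit 3) (.e (nat_lit 98313) (nat_lit 9) (.e (nat_lit 336215) (nat_lit 13) (.e (nat_lit 393227) (nat_lit 9) .nil))))) .nil)) 
(.lf (nat_lit 107775) (.g (nat_lit 2079) (.e (nat_lit 5195) (nat_lit 294) (.e (nat_lit 57381) (nat_lit 4) (.e (nat_lit 106536) (nat_lit 11) (.e (nat_lit 16438) (nat_lit 9) (.e (nat_lit 426544) (nat_lit 30) (.e (nat_lit 360453) (nat_lit 0) .nil)))))) (.g (nat_lit 4) .nil .nil))))))))))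

noncomputable def tv1461 : DT := (.nd (nat_lit 0) (.nd (nat_lit 1) (.nd (nat_lit 2) (.nd (nat_lit 3) (.nd (nat_lit 4) (.nd (nat_lit 5) (.nd (nat_lit 6) 
(.lf (nat_lit 107776) (.g (nat_lit 2046) (.e (nat_lit 5195) (nat_lit 294) (.e (nat_lit 57381) (nat_lit 4) (.e (nat_lit 106536) (nat_lit 11) (.e (nat_lit 16438) (nat_lit 9) (.e (nat_lit 426546) (nat_lit 30) (.e (nat_lit 360452) (nat_lit 0) .nil)))))) (.g (nat_lit 4) .nil .nil))) 
(.lf (nat_lit 107840) (.g (nat_lit 1371) (.e (nat_lit 5195) (nat_lit 294) (.e (nat_lit 57411) (nat_lit 12) (.e (nat_lit 336211) (nat_lit 13) (.e (nat_lit 393291) (nat_lit 26) (.e (nat_lit 475201) (nat_lit 40) .nil))))) .nil))) (.nd (nat_lit 6) 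
(.lf (nat_lit 107808) (.g (nat_lit 2255) (.e (nat_lit 5195) (nat_lit 294) (.e (nat_lit 57407) (nat_lit 12) (.e (nat_lit 336454) (nat_lit 34) (.e (nat_lit 483385) (nat_lit 23) (.e (nat_lit 336260) (nat_lit 15) (.e (nat_lit 3238) (nat_lit 197) (.e (nat_lit 532490) (nat_lit 0) (.e (nat_lit 1040) (nat_lit 81) .nil)))))))) (.g (nat_lit 4) .nil .nil))) 
(.lf (nat_lit 107872) (.g (nat_lit 1767) (.e (nat_lit 5195) (nat_lit 294) (.e (nat_lit 57435) (nat_lit 17) (.e (nat_lit 376842) (nat_lit 11) (.e (nat_lit 426188) (nat_lit 9) (.e (nat_lit 426448) (nat_lit 20) .nil))))) .nil)))) (.nd (nat_lit 5) (.nd (nat_lit 6) 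
(.lf (nat_lit 107792) (.g (nat_lit 2274) (.e (nat_lit 5195) (nat_lit 294) (.e (nat_lit 57390) (nat_lit 5) (.e (nat_lit 114698) (nat_lit 11) (.e (nat_lit 426199) (nat_lit 9) (.e (nat_lit 426544) (nat_lit 30) (.e (nat_lit 360453) (nat_lit 0) .nil)))))) (.g (nat_lit 5) .nil .nil))) 
(.lf (nat_lit 107856) (.g (nat_lit 1568) (.e (nat_lit 5195) (nat_lit 294) (.e (nat_lit 57430) (nat_lit 16) (.e (nat_lit 368676) (nat_lit 21) (.e (nat_lit 516174) (nat_lit 14) (.e (nat_lit 466967) (nat_lit 20) (.e (nat_lit 7936) (nat_lit 195) (.e (nat_lit 516106) (nat_lit 0) (.e (nat_lit 7936) (nat_lit 157) .nil)))))))) (.g (nat_lit 4) .nil .nil)))) (.nd (nat_lit 6) 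
(.lf (nat_lit 107824) (.g (nat_lit 2235) (.e (nat_lit 5195) (nat_lit 294) (.e (nat_lit 57410) (nat_lit 12) (.e (nat_lit 336019) (nat_lit 3) (.e (nat_lit 98358) (nat_lit 26) (.e (nat_lit 426294) (nat_lit 11) (.e (nat_lit 466688) (nat_lit 21) (.e (nat_lit 516106) (nat_lit 0) (.e (nat_lit 7936) (nat_lit 157) .nil)))))))) (.g (nat_lit 4) .nil .nil))) 
(.lf (nat_lit 107888) (.g (nat_lit 2359) (.e (nat_lit 5195) (nat_lit 294) (.e (nat_lit 57437) (nat_lit 17) (.e (nat_lit 376842) (nat_lit 11) (.e (nat_lit 426306) (nat_lit 12) (.e (nat_lit 475214) (nat_lit 42) (.e (nat_lit 728832) (nat_lit 20) (.e (nat_lit 1023) (nat_lit 81) .nil))))))) (.g (nat_lit 4) .nil .nil)))))) (.nd (nat_lit 4) (.nd (nat_lit 5) (.nd (nat_lit 6) 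
(.lf (nat_lit 107784) (.g (nat_lit 2459) (.e (nat_lit 5195) (nat_lit 294) (.e (nat_lit 57385) (nat_lit 4) (.e (nat_lit 106534) (nat_lit 11) (.e (nat_lit 16467) (nat_lit 13) (.e (nat_lit 483395) (nat_lit 24) (.e (nat_lit 344097) (nat_lit 18) .nil)))))) (.g (nat_lit 0) .nil .nil))) 
(.lf (nat_lit 107848) (.g (nat_lit 1911) (.e (nat_lit 5195) (nat_lit 294) (.e (nat_lit 57411) (nat_lit 12) (.e (nat_lit 336454) (nat_lit 34) (.e (nat_lit 483380) (nat_lit 23) (.e (nat_lit 336316) (nat_lit 17) .nil))))) .nil))) (.nd (nat_lit 6) 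
(.lf (nat_lit 107816) (.g (nat_lit 797) (.e (nat_lit 5195) (nat_lit 294) (.e (nat_lit 57407) (nat_lit 12) (.e (nat_lit 336456) (nat_lit 34) .nil))) .nil)) 
(.lf (nat_lit 107880) (.g (nat_lit 488) (.e (nat_lit 5195) (nat_lit 294) (.e (nat_lit 57437) (nat_lit 17) (.e (nat_lit 376842) (nat_lit 11) .nil))) .nil)))) (.nd (nat_lit 5) (.nd (nat_lit 6) 
(.lf (nat_lit 107800) (.g (nat_lit 2134) (.e (nat_lit 5195) (nat_lit 294) (.e (nat_lit 57407) (nat_lit 12) (.e (nat_lit 336367) (nat_lit 27) (.e (nat_lit 426544) (nat_lit 30) (.e (nat_lit 360473) (nat_lit 8) (.e (nat_lit 557089) (nat_lit 12) (.e (nat_lit 171776) (nat_lit 0) .nil))))))) (.g (nat_lit 4) .nil .nil))) 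
(.lf (nat_lit 107864) (.g (nat_lit 1942) (.e (nat_lit 5195) (nat_lit 294) (.e (nat_lit 57432) (nat_lit 16) (.e (nat_lit 368676) (nat_lit 21) (.e (nat_lit 516167) (nat_lit 12) (.e (nat_lit 458496) (nat_lit 3) .nil))))) .nil))) (.nd (nat_lit 6) 
(.lf (nat_lit 107832) (.g (nat_lit 3030) (.e (nat_lit 5195) (nat_lit 294) (.e (nat_lit 57411) (nat_lit 12) (.e (nat_lit 336019) (nat_lit 3) (.e (nat_lit 98373) (nat_lit 29) (.e (nat_lit 458496) (nat_lit 3) .nil))))) .nil)) 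
(.lf (nat_lit 107896) (.g (nat_lit 3389) (.e (nat_lit 5195) (nat_lit 294) (.e (nat_lit 57445) (nat_lit 19) (.e (nat_lit 393229) (nat_lit 9) (.e (nat_lit 336077) (nat_lit 9) .nil)))) .nil)))))) (.nd (nat_lit 3) (.nd (nat_lit 4) (.nd (nat_lit 5) (.nd (nat_lit 6) 
(.lf (nat_lit 107780) (.g (nat_lit 1883) (.e (nat_lit 5195) (nat_lit 294) (.e (nat_lit 57383) (nat_lit 4) (.e (nat_lit 106536) (nat_lit 11) (.e (nat_lit 16438) (nat_lit 9) (.e (nat_lit 426544) (nat_lit 30) (.e (nat_lit 360453) (nat_lit 0) .nil)))))) (.g (nat_lit 4) .nil .nil))) 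
(.lf (nat_lit 107844) (.g (nat_lit 2125) (.e (nat_lit 5195) (nat_lit 294) (.e (nat_lit 57411) (nat_lit 12) (.e (nat_lit 336211) (nat_lit 13) (.e (nat_lit 393291) (nat_lit 26) (.e (nat_lit 483072) (nat_lit 40) (.e (nat_lit 704745) (nat_lit 12) (.e (nat_lit 57354) (nat_lit 0) .nil))))))) (.g (nat_lit 4) .nil .nil)))) (.nd (nat_lit 6) 
(.lf (nat_lit 107812) (.g (nat_lit 2239) (.e (nat_lit 5195) (nat_lit 294) (.e (nat_lit 57407) (nat_lit 12) (.e (nat_lit 336454) (nat_lit 34) (.e (nat_lit 483385) (nat_lit 23) (.e (nat_lit 336316) (nat_lit 17) .nil))))) .nil)) 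
(.lf (nat_lit 107876) (.g (nat_lit 1963) (.e (nat_lit 5195) (nat_lit 294) (.e (nat_lit 57435) (nat_lit 17) (.e (nat_lit 376842) (nat_lit 11) (.e (nat_lit 426306) (nat_lit 12) (.e (nat_lit 475201) (nat_lit 40) (.e (nat_lit 704747) (nat_lit 12) (.e (nat_lit 57354) (nat_lit 0) .nil))))))) (.g (nat_lit 4) .nil .nil))))) (.nd (nat_lit 5) (.nd (nat_lit 6) 
(.lf (nat_lit 107796) (.g (nat_lit 2071) (.e (nat_lit 5195) (nat_lit 294) (.e (nat_lit 57390) (nat_lit 5) (.e (nat_lit 114712) (nat_lit 21) (.e (nat_lit 57852) (nat_lit 252) (.e (nat_lit 57421) (nat_lit 13) (.e (nat_lit 344129) (nat_lit 26) (.e (nat_lit 557103) (nat_lit 14) (.e (nat_lit 188160) (nat_lit 0) .nil)))))))) (.g (nat_lit 4) .nil .nil))) 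
(.lf (nat_lit 107860) (.g (nat_lit 2317) (.e (nat_lit 5195) (nat_lit 294) (.e (nat_lit 57432) (nat_lit 16) (.e (nat_lit 368676) (nat_lit 21) (.e (nat_lit 516146) (nat_lit 9) (.e (nat_lit 426294) (nat_lit 11) (.e (nat_lit 466688) (nat_lit 21) (.e (nat_lit 516106) (nat_lit 0) (.e (nat_lit 7936) (nat_lit 157) .nil)))))))) (.g (nat_lit 4) .nil .nil)))) (.nd (nat_lit 6) 
(.lf (nat_lit 107828) (.g (nat_lit 1629) (.e (nat_lit 5195) (nat_lit 294) (.e (nat_lit 57410) (nat_lit 12) (.e (nat_lit 336211) (nat_lit 13) (.e (nat_lit 393291) (nat_lit 26) (.e (nat_lit 483072) (nat_lit 40) (.e (nat_lit 704745) (nat_lit 12) (.e (nat_lit 57354) (nat_lit 0) .nil))))))) (.g (nat_lit 4) .nil .nil))) 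
(.lf (nat_lit 107892) (.g (nat_lit 2065) (.e (nat_lit 5195) (nat_lit 294) (.e (nat_lit 57437) (nat_lit 17) (.e (nat_lit 376860) (nat_lit 21) (.e (nat_lit 57857) (nat_lit 254) (.e (nat_lit 163923) (nat_lit 15) (.e (nat_lit 458496) (nat_lit 0) .nil)))))) (.g (nat_lit 4) .nil .nil)))))) (.nd (nat_lit 4) (.nd (nat_lit 5) (.nd (nat_lit 6) 
(.lf (nat_lit 107788) (.g (nat_lit 2455) (.e (nat_lit 5195) (nat_lit 294) (.e (nat_lit 57388) (nat_lit 5) (.e (nat_lit 114697) (nat_lit 11) (.e (nat_lit 426199) (nat_lit 9) (.e (nat_lit 426544) (nat_lit 30) (.e (nat_lit 360453) (nat_lit 0) .nil)))))) (.g (nat_lit 6) .nil .nil))) 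
(.lf (nat_lit 107852) (.g (nat_lit 682) (.e (nat_lit 5195) (nat_lit 294) (.e (nat_lit 57427) (nat_lit 15) (.e (nat_lit 360484) (nat_lit 15) .nil))) .nil))) (.nd (nat_lit 6) 
(.lf (nat_lit 107820) (.g (nat_lit 2939) (.e (nat_lit 5195) (nat_lit 294) (.e (nat_lit 57407) (nat_lit 12) (.e (nat_lit 336456) (nat_lit 34) (.e (nat_lit 483395) (nat_lit 24) (.e (nat_lit 344133) (nat_lit 26) (.e (nat_lit 557091) (nat_lit 12) (.e (nat_lit 171776) (nat_lit 0) .nil))))))) (.g (nat_lit 5) .nil .nil))) 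
(.lf (nat_lit 107884) (.g (nat_lit 2828) (.e (nat_lit 5195) (nat_lit 294) (.e (nat_lit 57437) (nat_lit 17) (.e (nat_lit 376842) (nat_lit 11) (.e (nat_lit 426306) (nat_lit 12) (.e (nat_lit 475201) (nat_lit 40) (.e (nat_lit 704743) (nat_lit 12) (.e (nat_lit 57354) (nat_lit 0) .nil))))))) (.g (nat_lit 5) .nil .nil))))) (.nd (nat_lit 5) (.nd (nat_lit 6) 
(.lf (nat_lit 107804) (.g (nat_lit 2059) (.e (nat_lit 5195) (nat_lit 294) (.e (nat_lit 57407) (nat_lit 12) (.e (nat_lit 336367) (nat_lit 27) (.e (nat_lit 426546) (nat_lit 30) (.e (nat_lit 360473) (nat_lit 8) (.e (nat_lit 557089) (nat_lit 12) (.e (nat_lit 171776) (nat_lit 0) .nil))))))) (.g (nat_lit 4) .nil .nil))) 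
(.lf (nat_lit 107868) (.g (nat_lit 1671) (.e (nat_lit 5195) (nat_lit 294) (.e (nat_lit 57432) (nat_lit 16) (.e (nat_lit 368676) (nat_lit 21) (.e (nat_lit 516176) (nat_lit 14) (.e (nat_lit 474880) (nat_lit 3) (.e (nat_lit 98311) (nat_lit 0) (.e (nat_lit 1019) (nat_lit 81) .nil))))))) (.g (nat_lit 4) .nil .nil)))) (.nd (nat_lit 6) 
(.lf (nat_lit 107836) (.g (nat_lit 2297) (.e (nat_lit 5195) (nat_lit 294) (.e (nat_lit 57411) (nat_lit 12) (.e (nat_lit 336019) (nat_lit 3) (.e (nat_lit 98381) (nat_lit 31) (.e (nat_lit 466967) (nat_lit 20) (.e (nat_lit 7936) (nat_lit 195) (.e (nat_lit 516106) (nat_lit 0) (.e (nat_lit 7936) (nat_lit 157) .nil)))))))) (.g (nat_lit 4) .nil .nil))) 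
(.lf (nat_lit 107900) (.g (nat_lit 3030) (.e (nat_lit 5195) (nat_lit 294) (.e (nat_lit 57445) (nat_lit 19) (.e (nat_lit 393229) (nat_lit 9) (.e (nat_lit 336087) (nat_lit 9) .nil)))) .nil))))))) (.nd (nat_lit 2) (.nd (nat_lit 3) (.nd (nat_lit 4) (.nd (nat_lit 5) (.nd (nat_lit 6) 
(.lf (nat_lit 107778) (.g (nat_lit 1645) (.e (nat_lit 5195) (nat_lit 294) (.e (nat_lit 57381) (nat_lit 4) (.e (nat_lit 106536) (nat_lit 11) (.e (nat_lit 16468) (nat_lit 13) (.e (nat_lit 483395) (nat_lit 24) (.e (nat_lit 344097) (nat_lit 18) .nil)))))) (.g (nat_lit 4) .nil .nil))) 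
(.lf (nat_lit 107842) (.g (nat_lit 2517) (.e (nat_lit 5195) (nat_lit 294) (.e (nat_lit 57411) (nat_lit 12) (.e (nat_lit 336211) (nat_lit 13) (.e (nat_lit 393291) (nat_lit 26) (.e (nat_lit 475205) (nat_lit 40) (.e (nat_lit 704756) (nat_lit 12) (.e (nat_lit 57354) (nat_lit 0) .nil))))))) (.g (nat_lit 5) .nil .nil)))) (.nd (nat_lit 6) 
(.lf (nat_lit 107810) (.g (nat_lit 2345) (.e (nat_lit 5195) (nat_lit 294) (.e (nat_lit 57407) (nat_lit 12) (.e (nat_lit 336454) (nat_lit 34) (.e (nat_lit 483385) (nat_lit 23) (.e (nat_lit 336306) (nat_lit 15) (.e (nat_lit 3238) (nat_lit 197) (.e (nat_lit 532490) (nat_lit 0) (.e (nat_lit 1023) (nat_lit 81) .nil)))))))) (.g (nat_lit 4) .nil .nil))) 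
(.lf (nat_lit 107874) (.g (nat_lit 1143) (.e (nat_lit 5195) (nat_lit 294) (.e (nat_lit 57435) (nat_lit 17) (.e (nat_lit 376842) (nat_lit 11) (.e (nat_lit 426306) (nat_lit 12) .nil)))) .nil)))) (.nd (nat_lit 5) (.nd (nat_lit 6) 
(.lf (nat_lit 107794) (.g (nat_lit 1742) (.e (nat_lit 5195) (nat_lit 294) (.e (nat_lit 57390) (nat_lit 5) (.e (nat_lit 114711) (nat_lit 21) (.e (nat_lit 57847) (nat_lit 252) (.e (nat_lit 57420) (nat_lit 13) .nil))))) .nil)) 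
(.lf (nat_lit 107858) (.g (nat_lit 1625) (.e (nat_lit 5195) (nat_lit 294) (.e (nat_lit 57430) (nat_lit 16) (.e (nat_lit 368676) (nat_lit 21) (.e (nat_lit 516176) (nat_lit 14) (.e (nat_lit 474880) (nat_lit 3) (.e (nat_lit 98311) (nat_lit 0) (.e (nat_lit 1019) (nat_lit 81) .nil))))))) (.g (nat_lit 4) .nil .nil)))) (.nd (nat_lit 6) 
(.lf (nat_lit 107826) (.g (nat_lit 2079) (.e (nat_lit 5195) (nat_lit 294) (.e (nat_lit 57410) (nat_lit 12) (.e (nat_lit 336211) (nat_lit 13) (.e (nat_lit 393291) (nat_lit 26) (.e (nat_lit 475205) (nat_lit 40) (.e (nat_lit 704756) (nat_lit 12) (.e (nat_lit 57354) (nat_lit 0) .nil))))))) (.g (nat_lit 5) .nil .nil))) 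
(.lf (nat_lit 107890) (.g (nat_lit 562) (.e (nat_lit 5195) (nat_lit 294) (.e (nat_lit 57437) (nat_lit 17) (.e (nat_lit 384768) (nat_lit 14) .nil))) .nil))))) (.nd (nat_lit 4) (.nd (nat_lit 5) (.nd (nat_lit 6) 
(.lf (nat_lit 107786) (.g (nat_lit 2508) (.e (nat_lit 5195) (nat_lit 294) (.e (nat_lit 57386) (nat_lit 4) (.e (nat_lit 106534) (nat_lit 11) (.e (nat_lit 16467) (nat_lit 13) (.e (nat_lit 483395) (nat_lit 24) (.e (nat_lit 344097) (nat_lit 18) .nil)))))) (.g (nat_lit 0) .nil .nil))) 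
(.lf (nat_lit 107850) (.g (nat_lit 1900) (.e (nat_lit 5195) (nat_lit 294) (.e (nat_lit 57411) (nat_lit 12) (.e (nat_lit 336454) (nat_lit 34) (.e (nat_lit 483385) (nat_lit 23) (.e (nat_lit 336325) (nat_lit 18) (.e (nat_lit 204821) (nat_lit 17) (.e (nat_lit 1040) (nat_lit 81) .nil))))))) (.g (nat_lit 4) .nil .nil)))) (.nd (nat_lit 6) 
(.lf (nat_lit 107818) (.g (nat_lit 2632) (.e (nat_lit 5195) (nat_lit 294) (.e (nat_lit 57407) (nat_lit 12) (.e (nat_lit 336456) (nat_lit 34) (.e (nat_lit 483395) (nat_lit 24) (.e (nat_lit 344132) (nat_lit 26) (.e (nat_lit 557093) (nat_lit 12) (.e (nat_lit 171776) (nat_lit 0) .nil))))))) (.g (nat_lit 4) .nil .nil))) 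
(.lf (nat_lit 107882) (.g (nat_lit 2435) (.e (nat_lit 5195) (nat_lit 294) (.e (nat_lit 57437) (nat_lit 17) (.e (nat_lit 376842) (nat_lit 11) (.e (nat_lit 426188) (nat_lit 9) (.e (nat_lit 426444) (nat_lit 19) .nil))))) .nil)))) (.nd (nat_lit 5) (.nd (nat_lit 6) 
(.lf (nat_lit 107802) (.g (nat_lit 3372) (.e (nat_lit 5195) (nat_lit 294) (.e (nat_lit 57407) (nat_lit 12) (.e (nat_lit 336367) (nat_lit 27) (.e (nat_lit 426544) (nat_lit 30) (.e (nat_lit 360475) (nat_lit 8) (.e (nat_lit 557089) (nat_lit 12) (.e (nat_lit 171776) (nat_lit 0) .nil))))))) (.g (nat_lit 5) .nil .nil))) 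
(.lf (nat_lit 107866) (.g (nat_lit 1622) (.e (nat_lit 5195) (nat_lit 294) (.e (nat_lit 57432) (nat_lit 16) (.e (nat_lit 368676) (nat_lit 21) (.e (nat_lit 516174) (nat_lit 14) (.e (nat_lit 466967) (nat_lit 20) (.e (nat_lit 7936) (nat_lit 195) (.e (nat_lit 516106) (nat_lit 0) (.e (nat_lit 7936) (nat_lit 157) .nil)))))))) (.g (nat_lit 4) .nil .nil)))) (.nd (nat_lit 6) 
(.lf (nat_lit 107834) (.g (nat_lit 1875) (.e (nat_lit 5195) (nat_lit 294) (.e (nat_lit 57411) (nat_lit 12) (.e (nat_lit 336019) (nat_lit 3) (.e (nat_lit 98377) (nat_lit 30) .nil)))) .nil)) 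
(.lf (nat_lit 107898) (.g (nat_lit 2107) (.e (nat_lit 5195) (nat_lit 294) (.e (nat_lit 57445) (nat_lit 19) (.e (nat_lit 393229) (nat_lit 9) (.e (nat_lit 336085) (nat_lit 9) .nil)))) .nil)))))) (.nd (nat_lit 3) (.nd (nat_lit 4) (.nd (nat_lit 5) (.nd (nat_lit 6) 
(.lf (nat_lit 107782) (.g (nat_lit 683) (.e (nat_lit 5195) (nat_lit 294) (.e (nat_lit 57384) (nat_lit 4) (.e (nat_lit 106534) (nat_lit 11) (.e (nat_lit 16438) (nat_lit 9) .nil)))) .nil)) 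
(.lf (nat_lit 107846) (.g (nat_lit 2054) (.e (nat_lit 5195) (nat_lit 294) (.e (nat_lit 57411) (nat_lit 12) (.e (nat_lit 336211) (nat_lit 13) (.e (nat_lit 393296) (nat_lit 26) (.e (nat_lit 475196) (nat_lit 40) .nil))))) .nil))) (.nd (nat_lit 6) 
(.lf (nat_lit 107814) (.g (nat_lit 2274) (.e (nat_lit 5195) (nat_lit 294) (.e (nat_lit 57407) (nat_lit 12) (.e (nat_lit 336454) (nat_lit 34) (.e (nat_lit 483408) (nat_lit 26) (.e (nat_lit 385059) (nat_lit 22) .nil))))) .nil)) 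
(.lf (nat_lit 107878) (.g (nat_lit 2424) (.e (nat_lit 5195) (nat_lit 294) (.e (nat_lit 57435) (nat_lit 17) (.e (nat_lit 376842) (nat_lit 11) (.e (nat_lit 426306) (nat_lit 12) (.e (nat_lit 475203) (nat_lit 40) .nil))))) .nil)))) (.nd (nat_lit 5) (.nd (nat_lit 6) 
(.lf (nat_lit 107798) (.g (nat_lit 1008) (.e (nat_lit 5195) (nat_lit 294) (.e (nat_lit 57407) (nat_lit 12) (.e (nat_lit 336366) (nat_lit 27) .nil))) .nil)) 
(.lf (nat_lit 107862) (.g (nat_lit 2564) (.e (nat_lit 5195) (nat_lit 294) (.e (nat_lit 57432) (nat_lit 16) (.e (nat_lit 368676) (nat_lit 21) (.e (nat_lit 516150) (nat_lit 9) (.e (nat_lit 426294) (nat_lit 11) (.e (nat_lit 466688) (nat_lit 21) (.e (nat_lit 516106) (nat_lit 0) (.e (nat_lit 7936) (nat_lit 157) .nil)))))))) (.g (nat_lit 5) .nil .nil)))) (.nd (nat_lit 6) 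
(.lf (nat_lit 107830) (.g (nat_lit 3867) (.e (nat_lit 5195) (nat_lit 294) (.e (nat_lit 57411) (nat_lit 12) (.e (nat_lit 336019) (nat_lit 3) (.e (nat_lit 98358) (nat_lit 26) (.e (nat_lit 426294) (nat_lit 11) (.e (nat_lit 466688) (nat_lit 21) (.e (nat_lit 516106) (nat_lit 0) (.e (nat_lit 7936) (nat_lit 157) .nil)))))))) (.g (nat_lit 5) .nil .nil))) 
(.lf (nat_lit 107894) (.g (nat_lit 2175) (.e (nat_lit 5195) (nat_lit 294) (.e (nat_lit 57445) (nat_lit 19) (.e (nat_lit 393229) (nat_lit 9) (.e (nat_lit 336076) (nat_lit 9) .nil)))) .nil))))) (.nd (nat_lit 4) (.nd (nat_lit 5) (.nd (nat_lit 6) 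
(.lf (nat_lit 107790) (.g (nat_lit 2225) (.e (nat_lit 5195) (nat_lit 294) (.e (nat_lit 57388) (nat_lit 5) (.e (nat_lit 114698) (nat_lit 11) (.e (nat_lit 426187) (nat_lit 9) (.e (nat_lit 426544) (nat_lit 30) (.e (nat_lit 360453) (nat_lit 0) .nil)))))) (.g (nat_lit 4) .nil .nil))) 
(.lf (nat_lit 107854) (.g (nat_lit 2473) (.e (nat_lit 5195) (nat_lit 294) (.e (nat_lit 57430) (nat_lit 16) (.e (nat_lit 368676) (nat_lit 21) (.e (nat_lit 516150) (nat_lit 9) (.e (nat_lit 426294) (nat_lit 11) (.e (nat_lit 466688) (nat_lit 21) (.e (nat_lit 516106) (nat_lit 0) (.e (nat_lit 7936) (nat_lit 157) .nil)))))))) (.g (nat_lit 5) .nil .nil)))) (.nd (nat_lit 6) 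
(.lf (nat_lit 107822) (.g (nat_lit 2469) (.e (nat_lit 5195) (nat_lit 294) (.e (nat_lit 57407) (nat_lit 12) (.e (nat_lit 336456) (nat_lit 34) (.e (nat_lit 483396) (nat_lit 24) (.e (nat_lit 344132) (nat_lit 26) (.e (nat_lit 557093) (nat_lit 12) (.e (nat_lit 171776) (nat_lit 0) .nil))))))) (.g (nat_lit 4) .nil .nil))) 
(.lf (nat_lit 107886) (.g (nat_lit 2720) (.e (nat_lit 5195) (nat_lit 294) (.e (nat_lit 57437) (nat_lit 17) (.e (nat_lit 376842) (nat_lit 11) (.e (nat_lit 426306) (nat_lit 12) (.e (nat_lit 475201) (nat_lit 40) (.e (nat_lit 704749) (nat_lit 12) (.e (nat_lit 57354) (nat_lit 0) .nil))))))) (.g (nat_lit 5) .nil .nil))))) (.nd (nat_lit 5) (.nd (nat_lit 6) 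
(.lf (nat_lit 107806) (.g (nat_lit 2206) (.e (nat_lit 5195) (nat_lit 294) (.e (nat_lit 57407) (nat_lit 12) (.e (nat_lit 336454) (nat_lit 34) (.e (nat_lit 483380) (nat_lit 23) (.e (nat_lit 336316) (nat_lit 17) (.e (nat_lit 196660) (nat_lit 12) (.e (nat_lit 57354) (nat_lit 0) .nil))))))) (.g (nat_lit 4) .nil .nil))) 
(.lf (nat_lit 107870) (.g (nat_lit 2893) (.e (nat_lit 5195) (nat_lit 294) (.e (nat_lit 57432) (nat_lit 16) (.e (nat_lit 368676) (nat_lit 21) (.e (nat_lit 516176) (nat_lit 14) (.e (nat_lit 466967) (nat_lit 20) (.e (nat_lit 7936) (nat_lit 195) (.e (nat_lit 516106) (nat_lit 0) (.e (nat_lit 7936) (nat_lit 157) .nil)))))))) (.g (nat_lit 5) .nil .nil)))) (.nd (nat_lit 6) 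
(.lf (nat_lit 107838) (.g (nat_lit 491) (.e (nat_lit 5195) (nat_lit 294) (.e (nat_lit 57411) (nat_lit 12) (.e (nat_lit 336211) (nat_lit 13) .nil))) .nil)) 
(.lf (nat_lit 107902) (.g (nat_lit 3059) (.e (nat_lit 5195) (nat_lit 294) (.e (nat_lit 57445) (nat_lit 19) (.e (nat_lit 393229) (nat_lit 9) (.e (nat_lit 336088) (nat_lit 9) (.e (nat_lit 336316) (nat_lit 17) (.e (nat_lit 196661) (nat_lit 12) (.e (nat_lit 57357) (nat_lit 0) .nil))))))) (.g (nat_lit 4) .nil .nil))))))))) 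
(.nd (nat_lit 1) (.nd (nat_lit 2) (.nd (nat_lit 3) (.nd (nat_lit 4) (.nd (nat_lit 5) 
(.nd (nat_lit 6) 
(.lf (nat_lit 107777) (.g (nat_lit 1811) (.e (nat_lit 5195) (nat_lit 294) (.e (nat_lit 57381) (nat_lit 4) (.e (nat_lit 106536) (nat_lit 11) (.e (nat_lit 16468) (nat_lit 13) (.e (nat_lit 483394) (nat_lit 24) (.e (nat_lit 344097) (nat_lit 18) .nil)))))) (.g (nat_lit 4) .nil .nil))) 
(.lf (nat_lit 107841) (.g (nat_lit 2082) (.e (nat_lit 5195) (nat_lit 294) (.e (nat_lit 57411) (nat_lit 12) (.e (nat_lit 336211) (nat_lit 13) (.e (nat_lit 393291) (nat_lit 26) (.e (nat_lit 475203) (nat_lit 40) .nil))))) .nil))) (.nd (nat_lit 6) 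
(.lf (nat_lit 107809) (.g (nat_lit 2438) (.e (nat_lit 5195) (nat_lit 294) (.e (nat_lit 57407) (nat_lit 12) (.e (nat_lit 336454) (nat_lit 34) (.e (nat_lit 483385) (nat_lit 23) (.e (nat_lit 336284) (nat_lit 15) (.e (nat_lit 3249) (nat_lit 197) (.e (nat_lit 532490) (nat_lit 0) (.e (nat_lit 1040) (nat_lit 81) .nil)))))))) (.g (nat_lit 4) .nil .nil))) 
(.lf (nat_lit 107873) (.g (nat_lit 2047) (.e (nat_lit 5195) (nat_lit 294) (.e (nat_lit 57435) (nat_lit 17) (.e (nat_lit 376842) (nat_lit 11) (.e (nat_lit 426298) (nat_lit 11) (.e (nat_lit 458804) (nat_lit 38) (.e (nat_lit 655396) (nat_lit 12) (.e (nat_lit 57354) (nat_lit 0) .nil))))))) (.g (nat_lit 4) .nil .nil))))) (.nd (nat_lit 5) (.nd (nat_lit 6) 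
(.lf (nat_lit 107793) (.g (nat_lit 1748) (.e (nat_lit 5195) (nat_lit 294) (.e (nat_lit 57390) (nat_lit 5) (.e (nat_lit 114711) (nat_lit 21) (.e (nat_lit 57844) (nat_lit 252) (.e (nat_lit 57421) (nat_lit 13) .nil))))) .nil)) 
(.lf (nat_lit 107857) (.g (nat_lit 1586) (.e (nat_lit 5195) (nat_lit 294) (.e (nat_lit 57430) (nat_lit 16) (.e (nat_lit 368676) (nat_lit 21) (.e (nat_lit 516176) (nat_lit 14) (.e (nat_lit 474880) (nat_lit 3) (.e (nat_lit 98305) (nat_lit 0) (.e (nat_lit 1021) (nat_lit 81) .nil))))))) (.g (nat_lit 4) .nil .nil)))) (.nd (nat_lit 6) 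
(.lf (nat_lit 107825) (.g (nat_lit 825) (.e (nat_lit 5195) (nat_lit 294) (.e (nat_lit 57410) (nat_lit 12) (.e (nat_lit 336211) (nat_lit 13) (.e (nat_lit 393291) (nat_lit 26) (.e (nat_lit 475201) (nat_lit 40) .nil))))) .nil)) 
(.lf (nat_lit 107889) (.g (nat_lit 1365) (.e (nat_lit 5195) (nat_lit 294) (.e (nat_lit 57437) (nat_lit 17) (.e (nat_lit 376842) (nat_lit 11) (.e (nat_lit 426315) (nat_lit 12) .nil)))) .nil))))) (.nd (nat_lit 4) (.nd (nat_lit 5) (.nd (nat_lit 6) 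
(.lf (nat_lit 107785) (.g (nat_lit 2459) (.e (nat_lit 5195) (nat_lit 294) (.e (nat_lit 57385) (nat_lit 4) (.e (nat_lit 106536) (nat_lit 11) (.e (nat_lit 16467) (nat_lit 13) (.e (nat_lit 483395) (nat_lit 24) (.e (nat_lit 344097) (nat_lit 18) .nil)))))) (.g (nat_lit 0) .nil .nil))) 
(.lf (nat_lit 107849) (.g (nat_lit 3151) (.e (nat_lit 5195) (nat_lit 294) (.e (nat_lit 57411) (nat_lit 12) (.e (nat_lit 336454) (nat_lit 34) (.e (nat_lit 483385) (nat_lit 23) (.e (nat_lit 336306) (nat_lit 15) (.e (nat_lit 3238) (nat_lit 197) (.e (nat_lit 532490) (nat_lit 0) (.e (nat_lit 1040) (nat_lit 81) .nil)))))))) (.g (nat_lit 6) .nil .nil)))) (.nd (nat_lit 6) 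
(.lf (nat_lit 107817) (.g (nat_lit 2453) (.e (nat_lit 5195) (nat_lit 294) (.e (nat_lit 57407) (nat_lit 12) (.e (nat_lit 336456) (nat_lit 34) (.e (nat_lit 483380) (nat_lit 23) (.e (nat_lit 336316) (nat_lit 17) .nil))))) .nil)) 
(.lf (nat_lit 107881) (.g (nat_lit 1323) (.e (nat_lit 5195) (nat_lit 294) (.e (nat_lit 57437) (nat_lit 17) (.e (nat_lit 376842) (nat_lit 11) (.e (nat_lit 426188) (nat_lit 9) .nil)))) .nil)))) (.nd (nat_lit 5) (.nd (nat_lit 6) 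
(.lf (nat_lit 107801) (.g (nat_lit 2452) (.e (nat_lit 5195) (nat_lit 294) (.e (nat_lit 57407) (nat_lit 12) (.e (nat_lit 336367) (nat_lit 27) (.e (nat_lit 426544) (nat_lit 30) (.e (nat_lit 360473) (nat_lit 8) (.e (nat_lit 557091) (nat_lit 12) (.e (nat_lit 171776) (nat_lit 0) .nil))))))) (.g (nat_lit 5) .nil .nil))) 
(.lf (nat_lit 107865) (.g (nat_lit 1297) (.e (nat_lit 5195) (nat_lit 294) (.e (nat_lit 57432) (nat_lit 16) (.e (nat_lit 368676) (nat_lit 21) (.e (nat_lit 516174) (nat_lit 14) (.e (nat_lit 474880) (nat_lit 3) (.e (nat_lit 98305) (nat_lit 0) (.e (nat_lit 1021) (nat_lit 81) .nil))))))) (.g (nat_lit 4) .nil .nil)))) (.nd (nat_lit 6) 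
(.lf (nat_lit 107833) (.g (nat_lit 3194) (.e (nat_lit 5195) (nat_lit 294) (.e (nat_lit 57411) (nat_lit 12) (.e (nat_lit 336019) (nat_lit 3) (.e (nat_lit 98374) (nat_lit 29) (.e (nat_lit 458496) (nat_lit 3) (.e (nat_lit 516106) (nat_lit 0) (.e (nat_lit 7936) (nat_lit 157) .nil))))))) (.g (nat_lit 4) .nil .nil))) 
(.lf (nat_lit 107897) (.g (nat_lit 2960) (.e (nat_lit 5195) (nat_lit 294) (.e (nat_lit 57445) (nat_lit 19) (.e (nat_lit 393229) (nat_lit 9) (.e (nat_lit 336078) (nat_lit 9) .nil)))) .nil)))))) (.nd (nat_lit 3) (.nd (nat_lit 4) (.nd (nat_lit 5) (.nd (nat_lit 6) 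
(.lf (nat_lit 107781) (.g (nat_lit 1815) (.e (nat_lit 5195) (nat_lit 294) (.e (nat_lit 57383) (nat_lit 4) (.e (nat_lit 106536) (nat_lit 11) (.e (nat_lit 16438) (nat_lit 9) (.e (nat_lit 426546) (nat_lit 30) (.e (nat_lit 360452) (nat_lit 0) .nil)))))) (.g (nat_lit 4) .nil .nil))) 
(.lf (nat_lit 107845) (.g (nat_lit 1658) (.e (nat_lit 5195) (nat_lit 294) (.e (nat_lit 57411) (nat_lit 12) (.e (nat_lit 336211) (nat_lit 13) (.e (nat_lit 393291) (nat_lit 26) (.e (nat_lit 475214) (nat_lit 42) .nil))))) .nil))) (.nd (nat_lit 6) 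
(.lf (nat_lit 107813) (.g (nat_lit 2527) (.e (nat_lit 5195) (nat_lit 294) (.e (nat_lit 57407) (nat_lit 12) (.e (nat_lit 336454) (nat_lit 34) (.e (nat_lit 483385) (nat_lit 23) (.e (nat_lit 336316) (nat_lit 17) (.e (nat_lit 196661) (nat_lit 12) (.e (nat_lit 57357) (nat_lit 0) .nil))))))) (.g (nat_lit 4) .nil .nil))) 
(.lf (nat_lit 107877) (.g (nat_lit 1943) (.e (nat_lit 5195) (nat_lit 294) (.e (nat_lit 57435) (nat_lit 17) (.e (nat_lit 376842) (nat_lit 11) (.e (nat_lit 426306) (nat_lit 12) (.e (nat_lit 475201) (nat_lit 40) (.e (nat_lit 704760) (nat_lit 13) (.e (nat_lit 122883) (nat_lit 0) .nil))))))) (.g (nat_lit 4) .nil .nil))))) (.nd (nat_lit 5) (.nd (nat_lit 6) 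
(.lf (nat_lit 107797) (.g (nat_lit 2240) (.e (nat_lit 5195) (nat_lit 294) (.e (nat_lit 57390) (nat_lit 5) (.e (nat_lit 114712) (nat_lit 21) (.e (nat_lit 57852) (nat_lit 252) (.e (nat_lit 57421) (nat_lit 13) (.e (nat_lit 344130) (nat_lit 26) (.e (nat_lit 557103) (nat_lit 14) (.e (nat_lit 188160) (nat_lit 0) .nil)))))))) (.g (nat_lit 4) .nil .nil))) 
(.lf (nat_lit 107861) (.g (nat_lit 1455) (.e (nat_lit 5195) (nat_lit 294) (.e (nat_lit 57432) (nat_lit 16) (.e (nat_lit 368676) (nat_lit 21) (.e (nat_lit 516149) (nat_lit 9) (.e (nat_lit 426294) (nat_lit 11) .nil))))) .nil))) (.nd (nat_lit 6) 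
(.lf (nat_lit 107829) (.g (nat_lit 916) (.e (nat_lit 5195) (nat_lit 294) (.e (nat_lit 57411) (nat_lit 12) (.e (nat_lit 336019) (nat_lit 3) .nil))) .nil)) 
(.lf (nat_lit 107893) (.g (nat_lit 370) (.e (nat_lit 5195) (nat_lit 294) (.e (nat_lit 57445) (nat_lit 19) (.e (nat_lit 393229) (nat_lit 9) .nil))) .nil))))) (.nd (nat_lit 4) (.nd (nat_lit 5) (.nd (nat_lit 6) 
(.lf (nat_lit 107789) (.g (nat_lit 1509) (.e (nat_lit 5195) (nat_lit 294) (.e (nat_lit 57388) (nat_lit 5) (.e (nat_lit 114698) (nat_lit 11) (.e (nat_lit 426187) (nat_lit 9) .nil)))) .nil)) 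
(.lf (nat_lit 107853) (.g (nat_lit 1812) (.e (nat_lit 5195) (nat_lit 294) (.e (nat_lit 57427) (nat_lit 15) (.e (nat_lit 360484) (nat_lit 15) (.e (nat_lit 647195) (nat_lit 9) (.e (nat_lit 7936) (nat_lit 35) .nil))))) .nil))) (.nd (nat_lit 6) 
(.lf (nat_lit 107821) (.g (nat_lit 2229) (.e (nat_lit 5195) (nat_lit 294) (.e (nat_lit 57407) (nat_lit 12) (.e (nat_lit 336456) (nat_lit 34) (.e (nat_lit 483396) (nat_lit 24) (.e (nat_lit 344132) (nat_lit 26) .nil))))) .nil)) 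
(.lf (nat_lit 107885) (.g (nat_lit 2109) (.e (nat_lit 5195) (nat_lit 294) (.e (nat_lit 57437) (nat_lit 17) (.e (nat_lit 376842) (nat_lit 11) (.e (nat_lit 426306) (nat_lit 12) (.e (nat_lit 475201) (nat_lit 40) (.e (nat_lit 704748) (nat_lit 12) (.e (nat_lit 57354) (nat_lit 0) .nil))))))) (.g (nat_lit 4) .nil .nil))))) (.nd (nat_lit 5) (.nd (nat_lit 6) 
(.lf (nat_lit 107805) (.g (nat_lit 2493) (.e (nat_lit 5195) (nat_lit 294) (.e (nat_lit 57407) (nat_lit 12) (.e (nat_lit 336367) (nat_lit 27) (.e (nat_lit 426546) (nat_lit 30) (.e (nat_lit 360473) (nat_lit 8) (.e (nat_lit 557091) (nat_lit 12) (.e (nat_lit 171776) (nat_lit 0) .nil))))))) (.g (nat_lit 5) .nil .nil))) 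
(.lf (nat_lit 107869) (.g (nat_lit 2057) (.e (nat_lit 5195) (nat_lit 294) (.e (nat_lit 57432) (nat_lit 16) (.e (nat_lit 368676) (nat_lit 21) (.e (nat_lit 516176) (nat_lit 14) (.e (nat_lit 466967) (nat_lit 20) (.e (nat_lit 7936) (nat_lit 193) (.e (nat_lit 499910) (nat_lit 8) (.e (nat_lit 171776) (nat_lit 0) .nil)))))))) (.g (nat_lit 4) .nil .nil)))) (.nd (nat_lit 6) 
(.lf (nat_lit 107837) (.g (nat_lit 3358) (.e (nat_lit 5195) (nat_lit 294) (.e (nat_lit 57411) (nat_lit 12) (.e (nat_lit 336182) (nat_lit 11) (.e (nat_lit 376576) (nat_lit 18) (.e (nat_lit 5224) (nat_lit 296) (.e (nat_lit 163907) (nat_lit 12) (.e (nat_lit 426294) (nat_lit 11) (.e (nat_lit 466688) (nat_lit 18) .nil)))))))) (.g (nat_lit 7) .nil .nil))) 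
(.lf (nat_lit 107901) (.g (nat_lit 2034) (.e (nat_lit 5195) (nat_lit 294) (.e (nat_lit 57445) (nat_lit 19) (.e (nat_lit 393229) (nat_lit 9) (.e (nat_lit 336088) (nat_lit 9) .nil)))) .nil))))))) (.nd (nat_lit 2) (.nd (nat_lit 3) (.nd (nat_lit 4) (.nd (nat_lit 5) (.nd (nat_lit 6) 
(.lf (nat_lit 107779) (.g (nat_lit 1469) (.e (nat_lit 5195) (nat_lit 294) (.e (nat_lit 57381) (nat_lit 4) (.e (nat_lit 106536) (nat_lit 11) (.e (nat_lit 16468) (nat_lit 13) (.e (nat_lit 483399) (nat_lit 25) (.e (nat_lit 368662) (nat_lit 18) .nil)))))) (.g (nat_lit 4) .nil .nil))) 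
(.lf (nat_lit 107843) (.g (nat_lit 2143) (.e (nat_lit 5195) (nat_lit 294) (.e (nat_lit 57411) (nat_lit 12) (.e (nat_lit 336211) (nat_lit 13) (.e (nat_lit 393291) (nat_lit 26) (.e (nat_lit 483072) (nat_lit 40) (.e (nat_lit 704744) (nat_lit 12) (.e (nat_lit 57354) (nat_lit 0) .nil))))))) (.g (nat_lit 4) .nil .nil)))) (.nd (nat_lit 6) 
(.lf (nat_lit 107811) (.g (nat_lit 4128) (.e (nat_lit 5195) (nat_lit 294) (.e (nat_lit 57407) (nat_lit 12) (.e (nat_lit 336454) (nat_lit 34) (.e (nat_lit 483385) (nat_lit 23) (.e (nat_lit 336306) (nat_lit 15) (.e (nat_lit 3238) (nat_lit 197) (.e (nat_lit 532490) (nat_lit 0) (.e (nat_lit 1040) (nat_lit 81) .nil)))))))) (.g (nat_lit 7) .nil .nil))) 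
(.lf (nat_lit 107875) (.g (nat_lit 2477) (.e (nat_lit 5195) (nat_lit 294) (.e (nat_lit 57435) (nat_lit 17) (.e (nat_lit 376842) (nat_lit 11) (.e (nat_lit 426306) (nat_lit 12) (.e (nat_lit 475195) (nat_lit 40) .nil))))) .nil)))) (.nd (nat_lit 5) (.nd (nat_lit 6) 
(.lf (nat_lit 107795) (.g (nat_lit 1742) (.e (nat_lit 5195) (nat_lit 294) (.e (nat_lit 57390) (nat_lit 5) (.e (nat_lit 114711) (nat_lit 21) (.e (nat_lit 57847) (nat_lit 252) (.e (nat_lit 57422) (nat_lit 13) .nil))))) .nil)) 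
(.lf (nat_lit 107859) (.g (nat_lit 2877) (.e (nat_lit 5195) (nat_lit 294) (.e (nat_lit 57430) (nat_lit 16) (.e (nat_lit 368676) (nat_lit 21) (.e (nat_lit 516176) (nat_lit 14) (.e (nat_lit 466967) (nat_lit 20) (.e (nat_lit 7936) (nat_lit 195) (.e (nat_lit 516106) (nat_lit 0) (.e (nat_lit 7936) (nat_lit 157) .nil)))))))) (.g (nat_lit 5) .nil .nil)))) (.nd (nat_lit 6) 
(.lf (nat_lit 107827) (.g (nat_lit 1647) (.e (nat_lit 5195) (nat_lit 294) (.e (nat_lit 57410) (nat_lit 12) (.e (nat_lit 336211) (nat_lit 13) (.e (nat_lit 393291) (nat_lit 26) (.e (nat_lit 483072) (nat_lit 40) (.e (nat_lit 704744) (nat_lit 12) (.e (nat_lit 57354) (nat_lit 0) .nil))))))) (.g (nat_lit 4) .nil .nil))) 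
(.lf (nat_lit 107891) (.g (nat_lit 2156) (.e (nat_lit 5195) (nat_lit 294) (.e (nat_lit 57437) (nat_lit 17) (.e (nat_lit 376859) (nat_lit 21) (.e (nat_lit 57857) (nat_lit 254) (.e (nat_lit 163923) (nat_lit 15) (.e (nat_lit 458496) (nat_lit 0) .nil)))))) (.g (nat_lit 5) .nil .nil)))))) (.nd (nat_lit 4) (.nd (nat_lit 5) (.nd (nat_lit 6) 
(.lf (nat_lit 107787) (.g (nat_lit 2703) (.e (nat_lit 5195) (nat_lit 294) (.e (nat_lit 57386) (nat_lit 4) (.e (nat_lit 106536) (nat_lit 11) (.e (nat_lit 16467) (nat_lit 13) (.e (nat_lit 483395) (nat_lit 24) (.e (nat_lit 344097) (nat_lit 18) .nil)))))) (.g (nat_lit 0) .nil .nil))) 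
(.lf (nat_lit 107851) (.g (nat_lit 1080) (.e (nat_lit 5195) (nat_lit 294) (.e (nat_lit 57427) (nat_lit 15) (.e (nat_lit 360483) (nat_lit 15) (.e (nat_lit 647192) (nat_lit 9) .nil)))) .nil))) (.nd (nat_lit 6) 
(.lf (nat_lit 107819) (.g (nat_lit 2297) (.e (nat_lit 5195) (nat_lit 294) (.e (nat_lit 57407) (nat_lit 12) (.e (nat_lit 336456) (nat_lit 34) (.e (nat_lit 483395) (nat_lit 24) (.e (nat_lit 344132) (nat_lit 26) (.e (nat_lit 557094) (nat_lit 12) (.e (nat_lit 171776) (nat_lit 0) .nil))))))) (.g (nat_lit 4) .nil .nil))) 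
(.lf (nat_lit 107883) (.g (nat_lit 1853) (.e (nat_lit 5195) (nat_lit 294) (.e (nat_lit 57437) (nat_lit 17) (.e (nat_lit 376842) (nat_lit 11) (.e (nat_lit 426306) (nat_lit 12) (.e (nat_lit 475201) (nat_lit 40) .nil))))) .nil)))) (.nd (nat_lit 5) (.nd (nat_lit 6) 
(.lf (nat_lit 107803) (.g (nat_lit 2973) (.e (nat_lit 5195) (nat_lit 294) (.e (nat_lit 57407) (nat_lit 12) (.e (nat_lit 336367) (nat_lit 27) (.e (nat_lit 426545) (nat_lit 30) (.e (nat_lit 360475) (nat_lit 8) (.e (nat_lit 557091) (nat_lit 12) (.e (nat_lit 171776) (nat_lit 0) .nil))))))) (.g (nat_lit 5) .nil .nil))) 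
(.lf (nat_lit 107867) (.g (nat_lit 1632) (.e (nat_lit 5195) (nat_lit 294) (.e (nat_lit 57432) (nat_lit 16) (.e (nat_lit 368676) (nat_lit 21) (.e (nat_lit 516176) (nat_lit 14) (.e (nat_lit 474880) (nat_lit 3) (.e (nat_lit 98305) (nat_lit 0) (.e (nat_lit 1021) (nat_lit 81) .nil))))))) (.g (nat_lit 4) .nil .nil)))) (.nd (nat_lit 6) 
(.lf (nat_lit 107835) (.g (nat_lit 1621) (.e (nat_lit 5195) (nat_lit 294) (.e (nat_lit 57411) (nat_lit 12) (.e (nat_lit 336019) (nat_lit 3) (.e (nat_lit 98381) (nat_lit 31) .nil)))) .nil)) 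
(.lf (nat_lit 107899) (.g (nat_lit 1543) (.e (nat_lit 5195) (nat_lit 294) (.e (nat_lit 57445) (nat_lit 19) (.e (nat_lit 393229) (nat_lit 9) (.e (nat_lit 336086) (nat_lit 9) .nil)))) .nil)))))) (.nd (nat_lit 3) (.nd (nat_lit 4) (.nd (nat_lit 5) (.nd (nat_lit 6) 
(.lf (nat_lit 107783) (.g (nat_lit 705) (.e (nat_lit 5195) (nat_lit 294) (.e (nat_lit 57384) (nat_lit 4) (.e (nat_lit 106536) (nat_lit 11) (.e (nat_lit 16438) (nat_lit 9) .nil)))) .nil)) 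
(.lf (nat_lit 107847) (.g (nat_lit 1129) (.e (nat_lit 5195) (nat_lit 294) (.e (nat_lit 57411) (nat_lit 12) (.e (nat_lit 336367) (nat_lit 27) .nil))) .nil))) (.nd (nat_lit 6) 
(.lf (nat_lit 107815) (.g (nat_lit 3041) (.e (nat_lit 5195) (nat_lit 294) (.e (nat_lit 57407) (nat_lit 12) (.e (nat_lit 336455) (nat_lit 34) (.e (nat_lit 483380) (nat_lit 23) (.e (nat_lit 336316) (nat_lit 17) .nil))))) .nil)) 
(.lf (nat_lit 107879) (.g (nat_lit 2172) (.e (nat_lit 5195) (nat_lit 294) (.e (nat_lit 57435) (nat_lit 17) (.e (nat_lit 376842) (nat_lit 11) (.e (nat_lit 426315) (nat_lit 12) (.e (nat_lit 475195) (nat_lit 40) .nil))))) .nil)))) (.nd (nat_lit 5) (.nd (nat_lit 6) 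
(.lf (nat_lit 107799) (.g (nat_lit 827) (.e (nat_lit 5195) (nat_lit 294) (.e (nat_lit 57407) (nat_lit 12) (.e (nat_lit 336367) (nat_lit 27) .nil))) .nil)) 
(.lf (nat_lit 107863) (.g (nat_lit 1888) (.e (nat_lit 5195) (nat_lit 294) (.e (nat_lit 57432) (nat_lit 16) (.e (nat_lit 368676) (nat_lit 21) (.e (nat_lit 516165) (nat_lit 12) (.e (nat_lit 458496) (nat_lit 3) .nil))))) .nil))) (.nd (nat_lit 6) 
(.lf (nat_lit 107831) (.g (nat_lit 2815) (.e (nat_lit 5195) (nat_lit 294) (.e (nat_lit 57411) (nat_lit 12) (.e (nat_lit 336019) (nat_lit 3) (.e (nat_lit 98372) (nat_lit 29) (.e (nat_lit 458496) (nat_lit 3) .nil))))) .nil)) 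
(.lf (nat_lit 107895) (.g (nat_lit 2963) (.e (nat_lit 5195) (nat_lit 294) (.e (nat_lit 57445) (nat_lit 19) (.e (nat_lit 393229) (nat_lit 9) (.e (nat_lit 336076) (nat_lit 9) (.e (nat_lit 336316) (nat_lit 17) (.e (nat_lit 196661) (nat_lit 12) (.e (nat_lit 57357) (nat_lit 0) .nil))))))) (.g (nat_lit 4) .nil .nil)))))) (.nd (nat_lit 4) (.nd (nat_lit 5) (.nd (nat_lit 6) 
(.lf (nat_lit 107791) (.g (nat_lit 2891) (.e (nat_lit 5195) (nat_lit 294) (.e (nat_lit 57388) (nat_lit 5) (.e (nat_lit 114698) (nat_lit 11) (.e (nat_lit 426199) (nat_lit 9) (.e (nat_lit 426544) (nat_lit 30) (.e (nat_lit 360453) (nat_lit 0) .nil)))))) (.g (nat_lit 6) .nil .nil))) 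
(.lf (nat_lit 107855) (.g (nat_lit 1195) (.e (nat_lit 5195) (nat_lit 294) (.e (nat_lit 57430) (nat_lit 16) (.e (nat_lit 368676) (nat_lit 21) (.e (nat_lit 516174) (nat_lit 14) (.e (nat_lit 474880) (nat_lit 3) (.e (nat_lit 98305) (nat_lit 0) (.e (nat_lit 1021) (nat_lit 81) .nil))))))) (.g (nat_lit 4) .nil .nil)))) (.nd (nat_lit 6) 
(.lf (nat_lit 107823) (.g (nat_lit 2582) (.e (nat_lit 5195) (nat_lit 294) (.e (nat_lit 57407) (nat_lit 12) (.e (nat_lit 336456) (nat_lit 34) (.e (nat_lit 483396) (nat_lit 24) (.e (nat_lit 344133) (nat_lit 26) (.e (nat_lit 557091) (nat_lit 12) (.e (nat_lit 171776) (nat_lit 0) .nil))))))) (.g (nat_lit 4) .nil .nil))) 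
(.lf (nat_lit 107887) (.g (nat_lit 3065) (.e (nat_lit 5195) (nat_lit 294) (.e (nat_lit 57437) (nat_lit 17) (.e (nat_lit 376842) (nat_lit 11) (.e (nat_lit 426306) (nat_lit 12) (.e (nat_lit 475205) (nat_lit 40) (.e (nat_lit 704756) (nat_lit 12) (.e (nat_lit 57354) (nat_lit 0) .nil))))))) (.g (nat_lit 4) .nil .nil))))) (.nd (nat_lit 5) (.nd (nat_lit 6) 
(.lf (nat_lit 107807) (.g (nat_lit 2637) (.e (nat_lit 5195) (nat_lit 294) (.e (nat_lit 57407) (nat_lit 12) (.e (nat_lit 336454) (nat_lit 34) (.e (nat_lit 483383) (nat_lit 23) (.e (nat_lit 336316) (nat_lit 17) (.e (nat_lit 196661) (nat_lit 12) (.e (nat_lit 57357) (nat_lit 0) .nil))))))) (.g (nat_lit 4) .nil .nil))) 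
(.lf (nat_lit 107871) (.g (nat_lit 2734) (.e (nat_lit 5195) (nat_lit 294) (.e (nat_lit 57435) (nat_lit 17) (.e (nat_lit 376842) (nat_lit 11) (.e (nat_lit 426188) (nat_lit 9) (.e (nat_lit 426444) (nat_lit 19) (.e (nat_lit 106537) (nat_lit 12) (.e (nat_lit 57354) (nat_lit 0) .nil))))))) (.g (nat_lit 4) .nil .nil)))) (.nd (nat_lit 6) 
(.lf (nat_lit 107839) (.g (nat_lit 2162) (.e (nat_lit 5195) (nat_lit 294) (.e (nat_lit 57411) (nat_lit 12) (.e (nat_lit 336211) (nat_lit 13) (.e (nat_lit 393291) (nat_lit 26) (.e (nat_lit 475195) (nat_lit 40) .nil))))) .nil)) 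
(.lf (nat_lit 107903) (.g (nat_lit 3184) (.e (nat_lit 5195) (nat_lit 294) (.e (nat_lit 57445) (nat_lit 19) (.e (nat_lit 393229) (nat_lit 9) (.e (nat_lit 336194) (nat_lit 12) .nil)))) .nil)))))))))

noncomputable def tv1462 : DT := (.nd (nat_lit 0) (.nd (nat_lit 1) (.nd (nat_lit 2) (.nd (nat_lit 3) (.nd (nat_lit 4) (.nd (nat_lit 5) (.nd (nat_lit 6) 
(.lf (nat_lit 107904) (.g (nat_lit 3096) (.e (nat_lit 5195) (nat_lit 294) (.e (nat_lit 57445) (nat_lit 19) (.e (nat_lit 393229) (nat_lit 9) (.e (nat_lit 336196) (nat_lit 12) .nil)))) .nil)) 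
(.lf (nat_lit 107968) (.g (nat_lit 4249) (.e (nat_lit 5200) (nat_lit 294) (.e (nat_lit 57377) (nat_lit 3) (.e (nat_lit 98317) (nat_lit 9) (.e (nat_lit 336215) (nat_lit 13) .nil)))) .nil))) (.nd (nat_lit 6) 
(.lf (nat_lit 107936) (.g (nat_lit 950) (.e (nat_lit 5199) (nat_lit 294) (.e (nat_lit 57372) (nat_lit 2) (.e (nat_lit 98048) (nat_lit 0) .nil))) .nil)) 
(.lf (nat_lit 108000) (.g (nat_lit 1716) (.e (nat_lit 5201) (nat_lit 294) (.e (nat_lit 57447) (nat_lit 19) (.e (nat_lit 393234) (nat_lit 17) (.e (nat_lit 2528) (nat_lit 157) .nil)))) .nil)))) (.nd (nat_lit 5) (.nd (nat_lit 6) 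
(.lf (nat_lit 107920) (.g (nat_lit 1375) (.e (nat_lit 5195) (nat_lit 294) (.e (nat_lit 57448) (nat_lit 19) (.e (nat_lit 393234) (nat_lit 17) (.e (nat_lit 2411) (nat_lit 157) .nil)))) .nil)) 
(.lf (nat_lit 107984) (.g (nat_lit 709) (.e (nat_lit 5201) (nat_lit 294) (.e (nat_lit 57373) (nat_lit 2) (.e (nat_lit 98048) (nat_lit 8) .nil))) .nil))) (.nd (nat_lit 6) 
(.lf (nat_lit 107952) (.g (nat_lit 604) (.e (nat_lit 5199) (nat_lit 294) (.e (nat_lit 57375) (nat_lit 2) (.e (nat_lit 90160) (nat_lit 11) .nil))) .nil)) 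
(.lf (nat_lit 108016) (.g (nat_lit 3570) (.e (nat_lit 5203) (nat_lit 294) (.e (nat_lit 57377) (nat_lit 3) (.e (nat_lit 98317) (nat_lit 9) (.e (nat_lit 336215) (nat_lit 13) .nil)))) .nil))))) (.nd (nat_lit 4) (.nd (nat_lit 5) (.nd (nat_lit 6) 
(.lf (nat_lit 107912) (.g (nat_lit 449) (.e (nat_lit 5195) (nat_lit 294) (.e (nat_lit 57448) (nat_lit 19) (.e (nat_lit 393229) (nat_lit 9) .nil))) .nil)) 
(.lf (nat_lit 107976) (.g (nat_lit 1198) (.e (nat_lit 5200) (nat_lit 294) (.e (nat_lit 57412) (nat_lit 12) (.e (nat_lit 336061) (nat_lit 7) (.e (nat_lit 319527) (nat_lit 15) .nil)))) .nil))) (.nd (nat_lit 6) 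
(.lf (nat_lit 107944) (.g (nat_lit 409) (.e (nat_lit 5199) (nat_lit 294) (.e (nat_lit 57374) (nat_lit 2) (.e (nat_lit 98048) (nat_lit 6) .nil))) .nil)) 
(.lf (nat_lit 108008) (.g (nat_lit 1163) (.e (nat_lit 5202) (nat_lit 294) (.e (nat_lit 57427) (nat_lit 15) (.e (nat_lit 360484) (nat_lit 15) (.e (nat_lit 647190) (nat_lit 9) .nil)))) .nil)))) (.nd (nat_lit 5) (.nd (nat_lit 6) 
(.lf (nat_lit 107928) (.g (nat_lit 1459) (.e (nat_lit 5195) (nat_lit 294) (.e (nat_lit 57448) (nat_lit 19) (.e (nat_lit 393234) (nat_lit 17) (.e (nat_lit 2528) (nat_lit 157) .nil)))) .nil)) 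
(.lf (nat_lit 107992) (.g (nat_lit 777) (.e (nat_lit 5201) (nat_lit 294) (.e (nat_lit 57406) (nat_lit 12) (.e (nat_lit 336456) (nat_lit 34) .nil))) .nil))) (.nd (nat_lit 6) 
(.lf (nat_lit 107960) (.g (nat_lit 1670) (.e (nat_lit 5199) (nat_lit 294) (.e (nat_lit 57377) (nat_lit 3) (.e (nat_lit 98317) (nat_lit 9) (.e (nat_lit 336215) (nat_lit 13) (.e (nat_lit 401152) (nat_lit 10) (.e (nat_lit 352000) (nat_lit 18) .nil)))))) (.g (nat_lit 4) .nil .nil))) 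
(.lf (nat_lit 108024) (.g (nat_lit 3806) (.e (nat_lit 5204) (nat_lit 294) (.e (nat_lit 57377) (nat_lit 3) (.e (nat_lit 98317) (nat_lit 9) (.e (nat_lit 336088) (nat_lit 9) .nil)))) .nil)))))) (.nd (nat_lit 3) (.nd (nat_lit 4) (.nd (nat_lit 5) (.nd (nat_lit 6) 
(.lf (nat_lit 107908) (.g (nat_lit 2198) (.e (nat_lit 5195) (nat_lit 294) (.e (nat_lit 57445) (nat_lit 19) (.e (nat_lit 401152) (nat_lit 12) (.e (nat_lit 360473) (nat_lit 8) (.e (nat_lit 557090) (nat_lit 12) (.e (nat_lit 171776) (nat_lit 0) .nil)))))) (.g (nat_lit 5) .nil .nil))) 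
(.lf (nat_lit 107972) (.g (nat_lit 1782) (.e (nat_lit 5200) (nat_lit 294) (.e (nat_lit 57406) (nat_lit 12) (.e (nat_lit 336456) (nat_lit 34) (.e (nat_lit 483395) (nat_lit 24) .nil)))) .nil))) (.nd (nat_lit 6) 
(.lf (nat_lit 107940) (.g (nat_lit 2428) (.e (nat_lit 5199) (nat_lit 294) (.e (nat_lit 57372) (nat_lit 2) (.e (nat_lit 90158) (nat_lit 11) (.e (nat_lit 24625) (nat_lit 9) (.e (nat_lit 336367) (nat_lit 27) .nil))))) .nil)) 
(.lf (nat_lit 108004) (.g (nat_lit 2201) (.e (nat_lit 5201) (nat_lit 294) (.e (nat_lit 57447) (nat_lit 19) (.e (nat_lit 393253) (nat_lit 18) (.e (nat_lit 164319) (nat_lit 228) .nil)))) .nil)))) (.nd (nat_lit 5) (.nd (nat_lit 6) 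
(.lf (nat_lit 107924) (.g (nat_lit 1465) (.e (nat_lit 5195) (nat_lit 294) (.e (nat_lit 57448) (nat_lit 19) (.e (nat_lit 393234) (nat_lit 17) (.e (nat_lit 2414) (nat_lit 157) .nil)))) .nil)) 
(.lf (nat_lit 107988) (.g (nat_lit 4343) (.e (nat_lit 5201) (nat_lit 294) (.e (nat_lit 57377) (nat_lit 3) (.e (nat_lit 98317) (nat_lit 9) (.e (nat_lit 336214) (nat_lit 13) .nil)))) .nil))) (.nd (nat_lit 6) 
(.lf (nat_lit 107956) (.g (nat_lit 1824) (.e (nat_lit 5199) (nat_lit 294) (.e (nat_lit 57375) (nat_lit 2) (.e (nat_lit 90160) (nat_lit 11) (.e (nat_lit 24655) (nat_lit 13) .nil)))) .nil)) 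
(.lf (nat_lit 108020) (.g (nat_lit 744) (.e (nat_lit 5203) (nat_lit 294) (.e (nat_lit 57427) (nat_lit 15) (.e (nat_lit 360483) (nat_lit 15) .nil))) .nil))))) (.nd (nat_lit 4) (.nd (nat_lit 5) (.nd (nat_lit 6) 
(.lf (nat_lit 107916) (.g (nat_lit 3446) (.e (nat_lit 5195) (nat_lit 294) (.e (nat_lit 57448) (nat_lit 19) (.e (nat_lit 393229) (nat_lit 9) (.e (nat_lit 336203) (nat_lit 12) (.e (nat_lit 385068) (nat_lit 26) (.e (nat_lit 532490) (nat_lit 0) (.e (nat_lit 1040) (nat_lit 81) .nil))))))) (.g (nat_lit 5) .nil .nil))) 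
(.lf (nat_lit 107980) (.g (nat_lit 644) (.e (nat_lit 5200) (nat_lit 294) (.e (nat_lit 57427) (nat_lit 15) (.e (nat_lit 360483) (nat_lit 15) .nil))) .nil))) (.nd (nat_lit 6) 
(.lf (nat_lit 107948) (.g (nat_lit 640) (.e (nat_lit 5199) (nat_lit 294) (.e (nat_lit 57375) (nat_lit 2) (.e (nat_lit 98048) (nat_lit 6) .nil))) .nil)) 
(.lf (nat_lit 108012) (.g (nat_lit 4258) (.e (nat_lit 5203) (nat_lit 294) (.e (nat_lit 57377) (nat_lit 3) (.e (nat_lit 98317) (nat_lit 9) (.e (nat_lit 336086) (nat_lit 9) .nil)))) .nil)))) (.nd (nat_lit 5) (.nd (nat_lit 6) 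
(.lf (nat_lit 107932) (.g (nat_lit 5248) (.e (nat_lit 5197) (nat_lit 294) (.e (nat_lit 57377) (nat_lit 3) (.e (nat_lit 98317) (nat_lit 9) (.e (nat_lit 336215) (nat_lit 13) .nil)))) .nil)) 
(.lf (nat_lit 107996) (.g (nat_lit 1407) (.e (nat_lit 5201) (nat_lit 294) (.e (nat_lit 57409) (nat_lit 12) (.e (nat_lit 336019) (nat_lit 3) (.e (nat_lit 98381) (nat_lit 31) .nil)))) .nil))) (.nd (nat_lit 6) 
(.lf (nat_lit 107964) (.g (nat_lit 1935) (.e (nat_lit 5199) (nat_lit 294) (.e (nat_lit 57407) (nat_lit 12) (.e (nat_lit 336456) (nat_lit 34) (.e (nat_lit 483395) (nat_lit 24) (.e (nat_lit 344132) (nat_lit 26) .nil))))) .nil)) 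
(.lf (nat_lit 108028) (.g (nat_lit 4239) (.e (nat_lit 5204) (nat_lit 294) (.e (nat_lit 57377) (nat_lit 3) (.e (nat_lit 98317) (nat_lit 9) (.e (nat_lit 336222) (nat_lit 13) .nil)))) .nil))))))) (.nd (nat_lit 2) (.nd (nat_lit 3) (.nd (nat_lit 4) (.nd (nat_lit 5) (.nd (nat_lit 6) 
(.lf (nat_lit 107906) (.g (nat_lit 2705) (.e (nat_lit 5195) (nat_lit 294) (.e (nat_lit 57445) (nat_lit 19) (.e (nat_lit 393229) (nat_lit 9) (.e (nat_lit 336203) (nat_lit 12) (.e (nat_lit 385059) (nat_lit 22) .nil))))) .nil)) 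
(.lf (nat_lit 107970) (.g (nat_lit 771) (.e (nat_lit 5200) (nat_lit 294) (.e (nat_lit 57406) (nat_lit 12) (.e (nat_lit 336367) (nat_lit 27) .nil))) .nil))) (.nd (nat_lit 6) 
(.lf (nat_lit 107938) (.g (nat_lit 2319) (.e (nat_lit 5199) (nat_lit 294) (.e (nat_lit 57372) (nat_lit 2) (.e (nat_lit 98048) (nat_lit 6) (.e (nat_lit 81951) (nat_lit 22) (.e (nat_lit 90172) (nat_lit 14) (.e (nat_lit 188160) (nat_lit 0) .nil)))))) (.g (nat_lit 5) .nil .nil))) 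
(.lf (nat_lit 108002) (.g (nat_lit 2067) (.e (nat_lit 5201) (nat_lit 294) (.e (nat_lit 57447) (nat_lit 19) (.e (nat_lit 393238) (nat_lit 17) (.e (nat_lit 2527) (nat_lit 157) .nil)))) .nil)))) (.nd (nat_lit 5) (.nd (nat_lit 6) 
(.lf (nat_lit 107922) (.g (nat_lit 2283) (.e (nat_lit 5195) (nat_lit 294) (.e (nat_lit 57448) (nat_lit 19) (.e (nat_lit 393234) (nat_lit 17) (.e (nat_lit 2413) (nat_lit 157) (.e (nat_lit 5195) (nat_lit 294) (.e (nat_lit 57448) (nat_lit 19) (.e (nat_lit 393234) (nat_lit 17) (.e (nat_lit 2411) (nat_lit 157) .nil)))))))) (.g (nat_lit 5) .nil .nil))) 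
(.lf (nat_lit 107986) (.g (nat_lit 4038) (.e (nat_lit 5201) (nat_lit 294) (.e (nat_lit 57377) (nat_lit 3) (.e (nat_lit 98317) (nat_lit 9) (.e (nat_lit 336076) (nat_lit 9) .nil)))) .nil))) (.nd (nat_lit 6) 
(.lf (nat_lit 107954) (.g (nat_lit 2517) (.e (nat_lit 5199) (nat_lit 294) (.e (nat_lit 57375) (nat_lit 2) (.e (nat_lit 90160) (nat_lit 11) (.e (nat_lit 24625) (nat_lit 9) (.e (nat_lit 336367) (nat_lit 27) .nil))))) .nil)) 
(.lf (nat_lit 108018) (.g (nat_lit 4251) (.e (nat_lit 5203) (nat_lit 294) (.e (nat_lit 57377) (nat_lit 3) (.e (nat_lit 98317) (nat_lit 9) (.e (nat_lit 336222) (nat_lit 13) .nil)))) .nil))))) (.nd (nat_lit 4) (.nd (nat_lit 5) (.nd (nat_lit 6) 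
(.lf (nat_lit 107914) (.g (nat_lit 1833) (.e (nat_lit 5195) (nat_lit 294) (.e (nat_lit 57448) (nat_lit 19) (.e (nat_lit 393229) (nat_lit 9) (.e (nat_lit 336203) (nat_lit 12) (.e (nat_lit 385059) (nat_lit 22) .nil))))) .nil)) 
(.lf (nat_lit 107978) (.g (nat_lit 2052) (.e (nat_lit 5200) (nat_lit 294) (.e (nat_lit 57424) (nat_lit 14) (.e (nat_lit 352318) (nat_lit 24) (.e (nat_lit 123159) (nat_lit 254) .nil)))) .nil))) (.nd (nat_lit 6) 
(.lf (nat_lit 107946) (.g (nat_lit 2325) (.e (nat_lit 5199) (nat_lit 294) (.e (nat_lit 57374) (nat_lit 2) (.e (nat_lit 98048) (nat_lit 8) (.e (nat_lit 131116) (nat_lit 9) (.e (nat_lit 336004) (nat_lit 2) (.e (nat_lit 90172) (nat_lit 14) (.e (nat_lit 188160) (nat_lit 0) .nil))))))) (.g (nat_lit 6) .nil .nil))) 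
(.lf (nat_lit 108010) (.g (nat_lit 1288) (.e (nat_lit 5203) (nat_lit 294) (.e (nat_lit 57373) (nat_lit 2) (.e (nat_lit 90158) (nat_lit 11) .nil))) .nil)))) (.nd (nat_lit 5) (.nd (nat_lit 6) 
(.lf (nat_lit 107930) (.g (nat_lit 2218) (.e (nat_lit 5195) (nat_lit 294) (.e (nat_lit 57448) (nat_lit 19) (.e (nat_lit 393234) (nat_lit 17) (.e (nat_lit 2528) (nat_lit 157) (.e (nat_lit 5195) (nat_lit 294) (.e (nat_lit 57448) (nat_lit 19) (.e (nat_lit 393234) (nat_lit 17) (.e (nat_lit 2414) (nat_lit 157) .nil)))))))) (.g (nat_lit 5) .nil .nil))) 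
(.lf (nat_lit 107994) (.g (nat_lit 2619) (.e (nat_lit 5201) (nat_lit 294) (.e (nat_lit 57409) (nat_lit 12) (.e (nat_lit 336019) (nat_lit 3) (.e (nat_lit 98372) (nat_lit 29) (.e (nat_lit 458496) (nat_lit 3) .nil))))) .nil))) (.nd (nat_lit 6) 
(.lf (nat_lit 107962) (.g (nat_lit 1216) (.e (nat_lit 5199) (nat_lit 294) (.e (nat_lit 57407) (nat_lit 12) (.e (nat_lit 336367) (nat_lit 27) (.e (nat_lit 426544) (nat_lit 30) .nil)))) .nil)) 
(.lf (nat_lit 108026) (.g (nat_lit 4421) (.e (nat_lit 5204) (nat_lit 294) (.e (nat_lit 57377) (nat_lit 3) (.e (nat_lit 98317) (nat_lit 9) (.e (nat_lit 336214) (nat_lit 13) .nil)))) .nil)))))) (.nd (nat_lit 3) (.nd (nat_lit 4) (.nd (nat_lit 5) (.nd (nat_lit 6) 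
(.lf (nat_lit 107910) (.g (nat_lit 2625) (.e (nat_lit 5195) (nat_lit 294) (.e (nat_lit 57445) (nat_lit 19) (.e (nat_lit 401152) (nat_lit 12) (.e (nat_lit 360475) (nat_lit 8) (.e (nat_lit 557090) (nat_lit 12) (.e (nat_lit 171776) (nat_lit 0) .nil)))))) (.g (nat_lit 5) .nil .nil))) 
(.lf (nat_lit 107974) (.g (nat_lit 1891) (.e (nat_lit 5200) (nat_lit 294) (.e (nat_lit 57406) (nat_lit 12) (.e (nat_lit 336456) (nat_lit 34) (.e (nat_lit 483396) (nat_lit 24) .nil)))) .nil))) (.nd (nat_lit 6) 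
(.lf (nat_lit 107942) (.g (nat_lit 2416) (.e (nat_lit 5199) (nat_lit 294) (.e (nat_lit 57372) (nat_lit 2) (.e (nat_lit 90160) (nat_lit 11) (.e (nat_lit 24628) (nat_lit 9) (.e (nat_lit 336367) (nat_lit 27) .nil))))) .nil)) 
(.lf (nat_lit 108006) (.g (nat_lit 4684) (.e (nat_lit 5202) (nat_lit 294) (.e (nat_lit 57377) (nat_lit 3) (.e (nat_lit 98317) (nat_lit 9) (.e (nat_lit 336215) (nat_lit 13) .nil)))) .nil)))) (.nd (nat_lit 5) (.nd (nat_lit 6) 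
(.lf (nat_lit 107926) (.g (nat_lit 1456) (.e (nat_lit 5195) (nat_lit 294) (.e (nat_lit 57448) (nat_lit 19) (.e (nat_lit 393234) (nat_lit 17) (.e (nat_lit 2522) (nat_lit 157) .nil)))) .nil)) 
(.lf (nat_lit 107990) (.g (nat_lit 4239) (.e (nat_lit 5201) (nat_lit 294) (.e (nat_lit 57377) (nat_lit 3) (.e (nat_lit 98317) (nat_lit 9) (.e (nat_lit 336222) (nat_lit 13) .nil)))) .nil))) (.nd (nat_lit 6) 
(.lf (nat_lit 107958) (.g (nat_lit 2078) (.e (nat_lit 5199) (nat_lit 294) (.e (nat_lit 57375) (nat_lit 2) (.e (nat_lit 90160) (nat_lit 11) (.e (nat_lit 24660) (nat_lit 13) .nil)))) .nil)) 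
(.lf (nat_lit 108022) (.g (nat_lit 3719) (.e (nat_lit 5203) (nat_lit 294) (.e (nat_lit 57445) (nat_lit 19) (.e (nat_lit 393229) (nat_lit 9) (.e (nat_lit 336088) (nat_lit 9) .nil)))) .nil))))) (.nd (nat_lit 4) (.nd (nat_lit 5) (.nd (nat_lit 6) 
(.lf (nat_lit 107918) (.g (nat_lit 3017) (.e (nat_lit 5195) (nat_lit 294) (.e (nat_lit 57448) (nat_lit 19) (.e (nat_lit 401152) (nat_lit 12) (.e (nat_lit 360475) (nat_lit 8) (.e (nat_lit 557090) (nat_lit 12) (.e (nat_lit 171776) (nat_lit 0) .nil)))))) (.g (nat_lit 5) .nil .nil))) 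
(.lf (nat_lit 107982) (.g (nat_lit 1609) (.e (nat_lit 5200) (nat_lit 294) (.e (nat_lit 57427) (nat_lit 15) (.e (nat_lit 360484) (nat_lit 15) (.e (nat_lit 647190) (nat_lit 9) (.e (nat_lit 7936) (nat_lit 35) .nil))))) .nil))) (.nd (nat_lit 6) 
(.lf (nat_lit 107950) (.g (nat_lit 1443) (.e (nat_lit 5199) (nat_lit 294) (.e (nat_lit 57375) (nat_lit 2) (.e (nat_lit 90158) (nat_lit 11) (.e (nat_lit 24625) (nat_lit 9) .nil)))) .nil)) 
(.lf (nat_lit 108014) (.g (nat_lit 3918) (.e (nat_lit 5203) (nat_lit 294) (.e (nat_lit 57377) (nat_lit 3) (.e (nat_lit 98317) (nat_lit 9) (.e (nat_lit 336213) (nat_lit 13) .nil)))) .nil)))) (.nd (nat_lit 5) (.nd (nat_lit 6) 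
(.lf (nat_lit 107934) (.g (nat_lit 837) (.e (nat_lit 5198) (nat_lit 294) (.e (nat_lit 57373) (nat_lit 2) (.e (nat_lit 98048) (nat_lit 6) .nil))) .nil)) 
(.lf (nat_lit 107998) (.g (nat_lit 4271) (.e (nat_lit 5201) (nat_lit 294) (.e (nat_lit 57445) (nat_lit 19) (.e (nat_lit 393229) (nat_lit 9) (.e (nat_lit 336076) (nat_lit 9) .nil)))) .nil))) (.nd (nat_lit 6) 
(.lf (nat_lit 107966) (.g (nat_lit 949) (.e (nat_lit 5199) (nat_lit 294) (.e (nat_lit 57411) (nat_lit 12) (.e (nat_lit 336019) (nat_lit 3) .nil))) .nil)) 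
(.lf (nat_lit 108030) (.g (nat_lit 2948) (.e (nat_lit 5204) (nat_lit 294) (.e (nat_lit 57406) (nat_lit 12) (.e (nat_lit 336454) (nat_lit 34) (.e (nat_lit 483406) (nat_lit 26) .nil)))) .nil)))))))) (.nd (nat_lit 1) (.nd (nat_lit 2) (.nd (nat_lit 3) (.nd (nat_lit 4) (.nd (nat_lit 5) (.nd (nat_lit 6) 
(.lf (nat_lit 107905) (.g (nat_lit 2041) (.e (nat_lit 5195) (nat_lit 294) (.e (nat_lit 57445) (nat_lit 19) (.e (nat_lit 393229) (nat_lit 9) (.e (nat_lit 336202) (nat_lit 12) .nil)))) .nil)) 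
(.lf (nat_lit 107969) (.g (nat_lit 3935) (.e (nat_lit 5200) (nat_lit 294) (.e (nat_lit 57377) (nat_lit 3) (.e (nat_lit 98317) (nat_lit 9) (.e (nat_lit 336223) (nat_lit 13) .nil)))) .nil))) (.nd (nat_lit 6) 
(.lf (nat_lit 107937) (.g (nat_lit 950) (.e (nat_lit 5199) (nat_lit 294) (.e (nat_lit 57372) (nat_lit 2) (.e (nat_lit 98048) (nat_lit 6) .nil))) .nil)) 
(.lf (nat_lit 108001) (.g (nat_lit 2289) (.e (nat_lit 5201) (nat_lit 294) (.e (nat_lit 57447) (nat_lit 19) (.e (nat_lit 393234) (nat_lit 17) (.e (nat_lit 2528) (nat_lit 157) (.e (nat_lit 5195) (nat_lit 294) (.e (nat_lit 57448) (nat_lit 19) (.e (nat_lit 393234) (nat_lit 17) (.e (nat_lit 2415) (nat_lit 157) .nil)))))))) (.g (nat_lit 5) .nil .nil))))) (.nd (nat_lit 5) (.nd (nat_lit 6) 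
(.lf (nat_lit 107921) (.g (nat_lit 1472) (.e (nat_lit 5195) (nat_lit 294) (.e (nat_lit 57448) (nat_lit 19) (.e (nat_lit 393234) (nat_lit 17) (.e (nat_lit 2413) (nat_lit 157) .nil)))) .nil)) 
(.lf (nat_lit 107985) (.g (nat_lit 1196) (.e (nat_lit 5201) (nat_lit 294) (.e (nat_lit 57373) (nat_lit 2) (.e (nat_lit 90158) (nat_lit 11) .nil))) .nil))) (.nd (nat_lit 6) 
(.lf (nat_lit 107953) (.g (nat_lit 1937) (.e (nat_lit 5199) (nat_lit 294) (.e (nat_lit 57375) (nat_lit 2) (.e (nat_lit 90160) (nat_lit 11) (.e (nat_lit 24608) (nat_lit 3) .nil)))) .nil)) 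
(.lf (nat_lit 108017) (.g (nat_lit 4339) (.e (nat_lit 5203) (nat_lit 294) (.e (nat_lit 57377) (nat_lit 3) (.e (nat_lit 98317) (nat_lit 9) (.e (nat_lit 336221) (nat_lit 13) .nil)))) .nil))))) (.nd (nat_lit 4) (.nd (nat_lit 5) (.nd (nat_lit 6) 
(.lf (nat_lit 107913) (.g (nat_lit 978) (.e (nat_lit 5195) (nat_lit 294) (.e (nat_lit 57448) (nat_lit 19) (.e (nat_lit 393229) (nat_lit 9) (.e (nat_lit 336085) (nat_lit 9) .nil)))) .nil)) 
(.lf (nat_lit 107977) (.g (nat_lit 1959) (.e (nat_lit 5200) (nat_lit 294) (.e (nat_lit 57421) (nat_lit 13) (.e (nat_lit 344117) (nat_lit 21) (.e (nat_lit 516165) (nat_lit 12) (.e (nat_lit 458496) (nat_lit 3) .nil))))) .nil))) (.nd (nat_lit 6) 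
(.lf (nat_lit 107945) (.g (nat_lit 1717) (.e (nat_lit 5199) (nat_lit 294) (.e (nat_lit 57374) (nat_lit 2) (.e (nat_lit 98048) (nat_lit 6) (.e (nat_lit 81951) (nat_lit 22) (.e (nat_lit 90172) (nat_lit 14) (.e (nat_lit 188160) (nat_lit 0) .nil)))))) (.g (nat_lit 5) .nil .nil))) 
(.lf (nat_lit 108009) (.g (nat_lit 1150) (.e (nat_lit 5202) (nat_lit 294) (.e (nat_lit 57427) (nat_lit 15) (.e (nat_lit 360484) (nat_lit 15) (.e (nat_lit 647196) (nat_lit 9) .nil)))) .nil)))) (.nd (nat_lit 5) (.nd (nat_lit 6) 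
(.lf (nat_lit 107929) (.g (nat_lit 2645) (.e (nat_lit 5195) (nat_lit 294) (.e (nat_lit 57448) (nat_lit 19) (.e (nat_lit 393234) (nat_lit 17) (.e (nat_lit 2528) (nat_lit 157) (.e (nat_lit 5195) (nat_lit 294) (.e (nat_lit 57448) (nat_lit 19) (.e (nat_lit 393234) (nat_lit 17) (.e (nat_lit 2413) (nat_lit 157) .nil)))))))) (.g (nat_lit 6) .nil .nil))) 
(.lf (nat_lit 107993) (.g (nat_lit 1838) (.e (nat_lit 5201) (nat_lit 294) (.e (nat_lit 57406) (nat_lit 12) (.e (nat_lit 336456) (nat_lit 34) (.e (nat_lit 483395) (nat_lit 24) .nil)))) .nil))) (.nd (nat_lit 6) 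
(.lf (nat_lit 107961) (.g (nat_lit 1461) (.e (nat_lit 5199) (nat_lit 294) (.e (nat_lit 57388) (nat_lit 5) (.e (nat_lit 114698) (nat_lit 11) (.e (nat_lit 426199) (nat_lit 9) .nil)))) .nil)) 
(.lf (nat_lit 108025) (.g (nat_lit 4121) (.e (nat_lit 5204) (nat_lit 294) (.e (nat_lit 57377) (nat_lit 3) (.e (nat_lit 98317) (nat_lit 9) (.e (nat_lit 336213) (nat_lit 13) .nil)))) .nil)))))) (.nd (nat_lit 3) (.nd (nat_lit 4) (.nd (nat_lit 5) (.nd (nat_lit 6) 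
(.lf (nat_lit 107909) (.g (nat_lit 1364) (.e (nat_lit 5195) (nat_lit 294) (.e (nat_lit 57445) (nat_lit 19) (.e (nat_lit 401152) (nat_lit 12) (.e (nat_lit 360473) (nat_lit 8) (.e (nat_lit 557093) (nat_lit 12) (.e (nat_lit 171776) (nat_lit 0) .nil)))))) (.g (nat_lit 4) .nil .nil))) 
(.lf (nat_lit 107973) (.g (nat_lit 2220) (.e (nat_lit 5200) (nat_lit 294) (.e (nat_lit 57406) (nat_lit 12) (.e (nat_lit 336456) (nat_lit 34) (.e (nat_lit 483395) (nat_lit 24) (.e (nat_lit 344133) (nat_lit 26) .nil))))) .nil))) (.nd (nat_lit 6) 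
(.lf (nat_lit 107941) (.g (nat_lit 749) (.e (nat_lit 5199) (nat_lit 294) (.e (nat_lit 57372) (nat_lit 2) (.e (nat_lit 90160) (nat_lit 11) .nil))) .nil)) 
(.lf (nat_lit 108005) (.g (nat_lit 1250) (.e (nat_lit 5201) (nat_lit 294) (.e (nat_lit 57447) (nat_lit 19) (.e (nat_lit 393256) (nat_lit 19) .nil))) .nil)))) (.nd (nat_lit 5) (.nd (nat_lit 6) 
(.lf (nat_lit 107925) (.g (nat_lit 1472) (.e (nat_lit 5195) (nat_lit 294) (.e (nat_lit 57448) (nat_lit 19) (.e (nat_lit 393234) (nat_lit 17) (.e (nat_lit 2415) (nat_lit 157) .nil)))) .nil)) 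
(.lf (nat_lit 107989) (.g (nat_lit 3932) (.e (nat_lit 5201) (nat_lit 294) (.e (nat_lit 57377) (nat_lit 3) (.e (nat_lit 98317) (nat_lit 9) (.e (nat_lit 336215) (nat_lit 13) .nil)))) .nil))) (.nd (nat_lit 6) 
(.lf (nat_lit 107957) (.g (nat_lit 1617) (.e (nat_lit 5199) (nat_lit 294) (.e (nat_lit 57375) (nat_lit 2) (.e (nat_lit 90160) (nat_lit 11) (.e (nat_lit 24657) (nat_lit 13) .nil)))) .nil)) 
(.lf (nat_lit 108021) (.g (nat_lit 4050) (.e (nat_lit 5203) (nat_lit 294) (.e (nat_lit 57445) (nat_lit 19) (.e (nat_lit 393229) (nat_lit 9) (.e (nat_lit 336076) (nat_lit 9) .nil)))) .nil))))) (.nd (nat_lit 4) (.nd (nat_lit 5) (.nd (nat_lit 6) 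
(.lf (nat_lit 107917) (.g (nat_lit 540) (.e (nat_lit 5195) (nat_lit 294) (.e (nat_lit 57448) (nat_lit 19) (.e (nat_lit 401152) (nat_lit 11) .nil))) .nil)) 
(.lf (nat_lit 107981) (.g (nat_lit 971) (.e (nat_lit 5200) (nat_lit 294) (.e (nat_lit 57427) (nat_lit 15) (.e (nat_lit 360483) (nat_lit 15) (.e (nat_lit 647190) (nat_lit 9) .nil)))) .nil))) (.nd (nat_lit 6) 
(.lf (nat_lit 107949) (.g (nat_lit 1745) (.e (nat_lit 5199) (nat_lit 294) (.e (nat_lit 57375) (nat_lit 2) (.e (nat_lit 98048) (nat_lit 6) (.e (nat_lit 81951) (nat_lit 22) (.e (nat_lit 90172) (nat_lit 14) (.e (nat_lit 188160) (nat_lit 0) .nil)))))) (.g (nat_lit 5) .nil .nil))) 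
(.lf (nat_lit 108013) (.g (nat_lit 3840) (.e (nat_lit 5203) (nat_lit 294) (.e (nat_lit 57377) (nat_lit 3) (.e (nat_lit 98317) (nat_lit 9) (.e (nat_lit 336088) (nat_lit 9) .nil)))) .nil)))) (.nd (nat_lit 5) (.nd (nat_lit 6) 
(.lf (nat_lit 107933) (.g (nat_lit 708) (.e (nat_lit 5197) (nat_lit 294) (.e (nat_lit 57437) (nat_lit 17) (.e (nat_lit 376860) (nat_lit 21) .nil))) .nil)) 
(.lf (nat_lit 107997) (.g (nat_lit 744) (.e (nat_lit 5201) (nat_lit 294) (.e (nat_lit 57427) (nat_lit 15) (.e (nat_lit 360483) (nat_lit 15) .nil))) .nil))) (.nd (nat_lit 6) 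
(.lf (nat_lit 107965) (.g (nat_lit 2000) (.e (nat_lit 5199) (nat_lit 294) (.e (nat_lit 57407) (nat_lit 12) (.e (nat_lit 336456) (nat_lit 34) (.e (nat_lit 483395) (nat_lit 24) (.e (nat_lit 344133) (nat_lit 26) (.e (nat_lit 557091) (nat_lit 12) (.e (nat_lit 171776) (nat_lit 0) .nil))))))) (.g (nat_lit 4) .nil .nil))) 
(.lf (nat_lit 108029) (.g (nat_lit 3850) (.e (nat_lit 5204) (nat_lit 294) (.e (nat_lit 57377) (nat_lit 3) (.e (nat_lit 98317) (nat_lit 9) (.e (nat_lit 336223) (nat_lit 13) .nil)))) .nil))))))) (.nd (nat_lit 2) (.nd (nat_lit 3) (.nd (nat_lit 4) (.nd (nat_lit 5) (.nd (nat_lit 6) 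
(.lf (nat_lit 107907) (.g (nat_lit 2903) (.e (nat_lit 5195) (nat_lit 294) (.e (nat_lit 57445) (nat_lit 19) (.e (nat_lit 393229) (nat_lit 9) (.e (nat_lit 336204) (nat_lit 12) .nil)))) .nil)) 
(.lf (nat_lit 107971) (.g (nat_lit 755) (.e (nat_lit 5200) (nat_lit 294) (.e (nat_lit 57406) (nat_lit 12) (.e (nat_lit 336456) (nat_lit 34) .nil))) .nil))) (.nd (nat_lit 6) 
(.lf (nat_lit 107939) (.g (nat_lit 907) (.e (nat_lit 5199) (nat_lit 294) (.e (nat_lit 57372) (nat_lit 2) (.e (nat_lit 90158) (nat_lit 11) .nil))) .nil)) 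
(.lf (nat_lit 108003) (.g (nat_lit 1250) (.e (nat_lit 5201) (nat_lit 294) (.e (nat_lit 57447) (nat_lit 19) (.e (nat_lit 393252) (nat_lit 18) .nil))) .nil)))) (.nd (nat_lit 5) (.nd (nat_lit 6) 
(.lf (nat_lit 107923) (.g (nat_lit 2068) (.e (nat_lit 5195) (nat_lit 294) (.e (nat_lit 57448) (nat_lit 19) (.e (nat_lit 393234) (nat_lit 17) (.e (nat_lit 2413) (nat_lit 157) (.e (nat_lit 5195) (nat_lit 294) (.e (nat_lit 57448) (nat_lit 19) (.e (nat_lit 393234) (nat_lit 17) (.e (nat_lit 2413) (nat_lit 157) .nil)))))))) (.g (nat_lit 5) .nil .nil))) 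
(.lf (nat_lit 107987) (.g (nat_lit 4050) (.e (nat_lit 5201) (nat_lit 294) (.e (nat_lit 57377) (nat_lit 3) (.e (nat_lit 98317) (nat_lit 9) (.e (nat_lit 336213) (nat_lit 13) .nil)))) .nil))) (.nd (nat_lit 6) 
(.lf (nat_lit 107955) (.g (nat_lit 2459) (.e (nat_lit 5199) (nat_lit 294) (.e (nat_lit 57375) (nat_lit 2) (.e (nat_lit 90160) (nat_lit 11) (.e (nat_lit 24628) (nat_lit 9) (.e (nat_lit 336367) (nat_lit 27) .nil))))) .nil)) 
(.lf (nat_lit 108019) (.g (nat_lit 3883) (.e (nat_lit 5203) (nat_lit 294) (.e (nat_lit 57377) (nat_lit 3) (.e (nat_lit 98317) (nat_lit 9) (.e (nat_lit 336223) (nat_lit 13) .nil)))) .nil))))) (.nd (nat_lit 4) (.nd (nat_lit 5) (.nd (nat_lit 6) 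
(.lf (nat_lit 107915) (.g (nat_lit 1703) (.e (nat_lit 5195) (nat_lit 294) (.e (nat_lit 57448) (nat_lit 19) (.e (nat_lit 393229) (nat_lit 9) (.e (nat_lit 336203) (nat_lit 12) (.e (nat_lit 385065) (nat_lit 26) .nil))))) .nil)) 
(.lf (nat_lit 107979) (.g (nat_lit 1999) (.e (nat_lit 5200) (nat_lit 294) (.e (nat_lit 57424) (nat_lit 14) (.e (nat_lit 352318) (nat_lit 24) (.e (nat_lit 123160) (nat_lit 254) .nil)))) .nil))) (.nd (nat_lit 6) 
(.lf (nat_lit 107947) (.g (nat_lit 2585) (.e (nat_lit 5199) (nat_lit 294) (.e (nat_lit 57374) (nat_lit 2) (.e (nat_lit 98048) (nat_lit 8) (.e (nat_lit 131116) (nat_lit 9) (.e (nat_lit 336012) (nat_lit 2) (.e (nat_lit 90172) (nat_lit 14) (.e (nat_lit 188160) (nat_lit 0) .nil))))))) (.g (nat_lit 6) .nil .nil))) 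
(.lf (nat_lit 108011) (.g (nat_lit 4148) (.e (nat_lit 5203) (nat_lit 294) (.e (nat_lit 57377) (nat_lit 3) (.e (nat_lit 98317) (nat_lit 9) (.e (nat_lit 336076) (nat_lit 9) .nil)))) .nil)))) (.nd (nat_lit 5) (.nd (nat_lit 6) 
(.lf (nat_lit 107931) (.g (nat_lit 5246) (.e (nat_lit 5196) (nat_lit 294) (.e (nat_lit 57377) (nat_lit 3) (.e (nat_lit 98317) (nat_lit 9) (.e (nat_lit 336215) (nat_lit 13) .nil)))) .nil)) 
(.lf (nat_lit 107995) (.g (nat_lit 1861) (.e (nat_lit 5201) (nat_lit 294) (.e (nat_lit 57409) (nat_lit 12) (.e (nat_lit 336019) (nat_lit 3) (.e (nat_lit 98374) (nat_lit 29) .nil)))) .nil))) (.nd (nat_lit 6) 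
(.lf (nat_lit 107963) (.g (nat_lit 1673) (.e (nat_lit 5199) (nat_lit 294) (.e (nat_lit 57407) (nat_lit 12) (.e (nat_lit 336367) (nat_lit 27) (.e (nat_lit 426546) (nat_lit 30) (.e (nat_lit 360473) (nat_lit 8) (.e (nat_lit 557091) (nat_lit 12) (.e (nat_lit 171776) (nat_lit 0) .nil))))))) (.g (nat_lit 4) .nil .nil))) 
(.lf (nat_lit 108027) (.g (nat_lit 4048) (.e (nat_lit 5204) (nat_lit 294) (.e (nat_lit 57377) (nat_lit 3) (.e (nat_lit 98317) (nat_lit 9) (.e (nat_lit 336215) (nat_lit 13) .nil)))) .nil)))))) (.nd (nat_lit 3) (.nd (nat_lit 4) (.nd (nat_lit 5) (.nd (nat_lit 6) 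
(.lf (nat_lit 107911) (.g (nat_lit 283) (.e (nat_lit 5195) (nat_lit 294) (.e (nat_lit 57446) (nat_lit 19) (.e (nat_lit 401152) (nat_lit 11) .nil))) .nil)) 
(.lf (nat_lit 107975) (.g (nat_lit 365) (.e (nat_lit 5200) (nat_lit 294) (.e (nat_lit 57412) (nat_lit 12) (.e (nat_lit 336061) (nat_lit 7) .nil))) .nil))) (.nd (nat_lit 6) 
(.lf (nat_lit 107943) (.g (nat_lit 2595) (.e (nat_lit 5199) (nat_lit 294) (.e (nat_lit 57372) (nat_lit 2) (.e (nat_lit 90160) (nat_lit 11) (.e (nat_lit 24657) (nat_lit 13) .nil)))) .nil)) 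
(.lf (nat_lit 108007) (.g (nat_lit 744) (.e (nat_lit 5202) (nat_lit 294) (.e (nat_lit 57427) (nat_lit 15) (.e (nat_lit 360483) (nat_lit 15) .nil))) .nil)))) (.nd (nat_lit 5) (.nd (nat_lit 6) 
(.lf (nat_lit 107927) (.g (nat_lit 2717) (.e (nat_lit 5195) (nat_lit 294) (.e (nat_lit 57448) (nat_lit 19) (.e (nat_lit 393234) (nat_lit 17) (.e (nat_lit 2522) (nat_lit 157) (.e (nat_lit 5195) (nat_lit 294) (.e (nat_lit 57448) (nat_lit 19) (.e (nat_lit 393234) (nat_lit 17) (.e (nat_lit 2411) (nat_lit 157) .nil)))))))) (.g (nat_lit 6) .nil .nil))) 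
(.lf (nat_lit 107991) (.g (nat_lit 3772) (.e (nat_lit 5201) (nat_lit 294) (.e (nat_lit 57377) (nat_lit 3) (.e (nat_lit 98317) (nat_lit 9) (.e (nat_lit 336223) (nat_lit 13) .nil)))) .nil))) (.nd (nat_lit 6) 
(.lf (nat_lit 107959) (.g (nat_lit 1274) (.e (nat_lit 5199) (nat_lit 294) (.e (nat_lit 57377) (nat_lit 3) (.e (nat_lit 98317) (nat_lit 9) (.e (nat_lit 336215) (nat_lit 13) .nil)))) .nil)) 
(.lf (nat_lit 108023) (.g (nat_lit 4116) (.e (nat_lit 5204) (nat_lit 294) (.e (nat_lit 57377) (nat_lit 3) (.e (nat_lit 98317) (nat_lit 9) (.e (nat_lit 336076) (nat_lit 9) .nil)))) .nil))))) (.nd (nat_lit 4) (.nd (nat_lit 5) (.nd (nat_lit 6) 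
(.lf (nat_lit 107919) (.g (nat_lit 428) (.e (nat_lit 5195) (nat_lit 294) (.e (nat_lit 57448) (nat_lit 19) (.e (nat_lit 393234) (nat_lit 17) .nil))) .nil)) 
(.lf (nat_lit 107983) (.g (nat_lit 1074) (.e (nat_lit 5200) (nat_lit 294) (.e (nat_lit 57427) (nat_lit 15) (.e (nat_lit 360484) (nat_lit 15) (.e (nat_lit 647196) (nat_lit 9) .nil)))) .nil))) (.nd (nat_lit 6) 
(.lf (nat_lit 107951) (.g (nat_lit 1461) (.e (nat_lit 5199) (nat_lit 294) (.e (nat_lit 57375) (nat_lit 2) (.e (nat_lit 90158) (nat_lit 11) (.e (nat_lit 24628) (nat_lit 9) .nil)))) .nil)) 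
(.lf (nat_lit 108015) (.g (nat_lit 4262) (.e (nat_lit 5203) (nat_lit 294) (.e (nat_lit 57377) (nat_lit 3) (.e (nat_lit 98317) (nat_lit 9) (.e (nat_lit 336214) (nat_lit 13) .nil)))) .nil)))) (.nd (nat_lit 5) (.nd (nat_lit 6) 
(.lf (nat_lit 107935) (.g (nat_lit 1206) (.e (nat_lit 5199) (nat_lit 294) (.e (nat_lit 57372) (nat_lit 2) (.e (nat_lit 90115) (nat_lit 0) .nil))) .nil)) 
(.lf (nat_lit 107999) (.g (nat_lit 1716) (.e (nat_lit 5201) (nat_lit 294) (.e (nat_lit 57447) (nat_lit 19) (.e (nat_lit 393234) (nat_lit 17) (.e (nat_lit 2415) (nat_lit 157) .nil)))) .nil))) (.nd (nat_lit 6) 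
(.lf (nat_lit 107967) (.g (nat_lit 4210) (.e (nat_lit 5200) (nat_lit 294) (.e (nat_lit 57377) (nat_lit 3) (.e (nat_lit 98317) (nat_lit 9) (.e (nat_lit 336213) (nat_lit 13) .nil)))) .nil)) 
(.lf (nat_lit 108031) (.g (nat_lit 713) (.e (nat_lit 5204) (nat_lit 294) (.e (nat_lit 57427) (nat_lit 15) (.e (nat_lit 360483) (nat_lit 15) .nil))) .nil)))))))))

noncomputable def tv1463 : DT := (.nd (nat_lit 0) (.nd (nat_lit 1) (.nd (nat_lit 2) (.nd (nat_lit 3) (.nd (nat_lit 4) (.nd (nat_lit 5) (.nd (nat_lit 6) 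
(.lf (nat_lit 108032) (.g (nat_lit 661) (.e (nat_lit 5204) (nat_lit 294) (.e (nat_lit 57427) (nat_lit 15) (.e (nat_lit 360484) (nat_lit 15) .nil))) .nil)) 
(.lf (nat_lit 108096) (.g (nat_lit 2711) (.e (nat_lit 5205) (nat_lit 294) (.e (nat_lit 57447) (nat_lit 19) (.e (nat_lit 393253) (nat_lit 18) (.e (nat_lit 164319) (nat_lit 228) (.e (nat_lit 57448) (nat_lit 19) .nil))))) .nil))) (.nd (nat_lit 6) 
(.lf (nat_lit 108064) (.g (nat_lit 3724) (.e (nat_lit 5205) (nat_lit 294) (.e (nat_lit 57377) (nat_lit 3) (.e (nat_lit 98317) (nat_lit 9) (.e (nat_lit 336223) (nat_lit 13) .nil)))) .nil)) 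
(.lf (nat_lit 108128) (.g (nat_lit 1570) (.e (nat_lit 5211) (nat_lit 295) (.e (nat_lit 122919) (nat_lit 15) (.e (nat_lit 360484) (nat_lit 15) (.e (nat_lit 647195) (nat_lit 9) (.e (nat_lit 7936) (nat_lit 35) .nil))))) .nil)))) (.nd (nat_lit 5) (.nd (nat_lit 6) 
(.lf (nat_lit 108048) (.g (nat_lit 3170) (.e (nat_lit 5205) (nat_lit 294) (.e (nat_lit 57373) (nat_lit 2) (.e (nat_lit 90158) (nat_lit 11) (.e (nat_lit 24628) (nat_lit 9) (.e (nat_lit 336367) (nat_lit 27) .nil))))) .nil)) 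
(.lf (nat_lit 108112) (.g (nat_lit 2610) (.e (nat_lit 5206) (nat_lit 294) (.e (nat_lit 57445) (nat_lit 19) (.e (nat_lit 401152) (nat_lit 12) (.e (nat_lit 360475) (nat_lit 8) (.e (nat_lit 557090) (nat_lit 12) (.e (nat_lit 163840) (nat_lit 0) .nil)))))) (.g (nat_lit 5) .nil .nil)))) (.nd (nat_lit 6) 
(.lf (nat_lit 108080) (.g (nat_lit 3982) (.e (nat_lit 5205) (nat_lit 294) (.e (nat_lit 57445) (nat_lit 19) (.e (nat_lit 393229) (nat_lit 9) (.e (nat_lit 336196) (nat_lit 12) .nil)))) .nil)) 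
(.lf (nat_lit 108144) (.g (nat_lit 739) (.e (nat_lit 5214) (nat_lit 295) (.e (nat_lit 122919) (nat_lit 15) (.e (nat_lit 360480) (nat_lit 14) .nil))) .nil))))) (.nd (nat_lit 4) (.nd (nat_lit 5) (.nd (nat_lit 6) 
(.lf (nat_lit 108040) (.g (nat_lit 3029) (.e (nat_lit 5205) (nat_lit 294) (.e (nat_lit 57366) (nat_lit 1) (.e (nat_lit 57830) (nat_lit 250) (.e (nat_lit 1201) (nat_lit 88) (.e (nat_lit 65586) (nat_lit 7) (.e (nat_lit 319531) (nat_lit 16) (.e (nat_lit 286748) (nat_lit 9) (.e (nat_lit 335925) (nat_lit 0) (.e (nat_lit 1042) (nat_lit 81) .nil))))))))) (.g (nat_lit 7) .nil .nil))) 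
(.lf (nat_lit 108104) (.g (nat_lit 1861) (.e (nat_lit 5206) (nat_lit 294) (.e (nat_lit 57406) (nat_lit 12) (.e (nat_lit 336456) (nat_lit 34) (.e (nat_lit 483394) (nat_lit 24) .nil)))) .nil))) (.nd (nat_lit 6) 
(.lf (nat_lit 108072) (.g (nat_lit 1746) (.e (nat_lit 5205) (nat_lit 294) (.e (nat_lit 57406) (nat_lit 12) (.e (nat_lit 336456) (nat_lit 34) (.e (nat_lit 483396) (nat_lit 24) .nil)))) .nil)) 
(.lf (nat_lit 108136) (.g (nat_lit 1940) (.e (nat_lit 5212) (nat_lit 295) (.e (nat_lit 122919) (nat_lit 15) (.e (nat_lit 360451) (nat_lit 0) (.e (nat_lit 5128) (nat_lit 292) .nil)))) .nil)))) (.nd (nat_lit 5) (.nd (nat_lit 6) 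
(.lf (nat_lit 108056) (.g (nat_lit 750) (.e (nat_lit 5205) (nat_lit 294) (.e (nat_lit 57373) (nat_lit 2) (.e (nat_lit 90160) (nat_lit 11) .nil))) .nil)) 
(.lf (nat_lit 108120) (.g (nat_lit 1722) (.e (nat_lit 5207) (nat_lit 295) (.e (nat_lit 122919) (nat_lit 15) (.e (nat_lit 360484) (nat_lit 15) (.e (nat_lit 647195) (nat_lit 9) (.e (nat_lit 7936) (nat_lit 35) .nil))))) .nil))) (.nd (nat_lit 6) 
(.lf (nat_lit 108088) (.g (nat_lit 2708) (.e (nat_lit 5205) (nat_lit 294) (.e (nat_lit 57447) (nat_lit 19) (.e (nat_lit 393234) (nat_lit 17) (.e (nat_lit 2522) (nat_lit 157) (.e (nat_lit 5195) (nat_lit 294) (.e (nat_lit 57448) (nat_lit 19) (.e (nat_lit 393234) (nat_lit 17) (.e (nat_lit 2415) (nat_lit 157) .nil)))))))) (.g (nat_lit 6) .nil .nil))) 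
(.lf (nat_lit 108152) (.g (nat_lit 1096) (.e (nat_lit 5219) (nat_lit 296) (.e (nat_lit 163908) (nat_lit 12) (.e (nat_lit 426286) (nat_lit 10) (.e (nat_lit 434269) (nat_lit 36) .nil)))) .nil)))))) (.nd (nat_lit 3) (.nd (nat_lit 4) (.nd (nat_lit 5) (.nd (nat_lit 6) 
(.lf (nat_lit 108036) (.g (nat_lit 4125) (.e (nat_lit 5204) (nat_lit 294) (.e (nat_lit 57445) (nat_lit 19) (.e (nat_lit 393229) (nat_lit 9) (.e (nat_lit 336194) (nat_lit 12) .nil)))) .nil)) 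
(.lf (nat_lit 108100) (.g (nat_lit 4161) (.e (nat_lit 5206) (nat_lit 294) (.e (nat_lit 57377) (nat_lit 3) (.e (nat_lit 98317) (nat_lit 9) (.e (nat_lit 336213) (nat_lit 13) .nil)))) .nil))) (.nd (nat_lit 6) 
(.lf (nat_lit 108068) (.g (nat_lit 510) (.e (nat_lit 5205) (nat_lit 294) (.e (nat_lit 57406) (nat_lit 12) (.e (nat_lit 336454) (nat_lit 34) .nil))) .nil)) 
(.lf (nat_lit 108132) (.g (nat_lit 1229) (.e (nat_lit 5212) (nat_lit 295) (.e (nat_lit 122916) (nat_lit 14) (.e (nat_lit 352309) (nat_lit 21) (.e (nat_lit 57857) (nat_lit 254) .nil)))) .nil)))) (.nd (nat_lit 5) (.nd (nat_lit 6) 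
(.lf (nat_lit 108052) (.g (nat_lit 2191) (.e (nat_lit 5205) (nat_lit 294) (.e (nat_lit 57373) (nat_lit 2) (.e (nat_lit 90158) (nat_lit 11) (.e (nat_lit 24658) (nat_lit 13) .nil)))) .nil)) 
(.lf (nat_lit 108116) (.g (nat_lit 3376) (.e (nat_lit 5207) (nat_lit 295) (.e (nat_lit 122919) (nat_lit 15) (.e (nat_lit 360451) (nat_lit 0) (.e (nat_lit 5236) (nat_lit 297) (.e (nat_lit 229415) (nat_lit 15) (.e (nat_lit 450563) (nat_lit 0) .nil)))))) (.g (nat_lit 0) .nil .nil)))) (.nd (nat_lit 6) 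
(.lf (nat_lit 108084) (.g (nat_lit 1559) (.e (nat_lit 5205) (nat_lit 294) (.e (nat_lit 57447) (nat_lit 19) (.e (nat_lit 393234) (nat_lit 17) (.e (nat_lit 2411) (nat_lit 157) .nil)))) .nil)) 
(.lf (nat_lit 108148) (.g (nat_lit 1344) (.e (nat_lit 5219) (nat_lit 296) (.e (nat_lit 163903) (nat_lit 12) (.e (nat_lit 426428) (nat_lit 17) (.e (nat_lit 90178) (nat_lit 15) .nil)))) .nil))))) (.nd (nat_lit 4) (.nd (nat_lit 5) (.nd (nat_lit 6) 
(.lf (nat_lit 108044) (.g (nat_lit 2917) (.e (nat_lit 5205) (nat_lit 294) (.e (nat_lit 57373) (nat_lit 2) (.e (nat_lit 98048) (nat_lit 8) (.e (nat_lit 131116) (nat_lit 9) (.e (nat_lit 336012) (nat_lit 2) (.e (nat_lit 90172) (nat_lit 14) (.e (nat_lit 188160) (nat_lit 0) .nil))))))) (.g (nat_lit 6) .nil .nil))) 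
(.lf (nat_lit 108108) (.g (nat_lit 2466) (.e (nat_lit 5206) (nat_lit 294) (.e (nat_lit 57406) (nat_lit 12) (.e (nat_lit 336456) (nat_lit 34) (.e (nat_lit 483396) (nat_lit 24) (.e (nat_lit 344133) (nat_lit 26) .nil))))) .nil))) (.nd (nat_lit 6) 
(.lf (nat_lit 108076) (.g (nat_lit 1510) (.e (nat_lit 5205) (nat_lit 294) (.e (nat_lit 57436) (nat_lit 17) (.e (nat_lit 376860) (nat_lit 21) (.e (nat_lit 57832) (nat_lit 250) .nil)))) .nil)) 
(.lf (nat_lit 108140) (.g (nat_lit 1087) (.e (nat_lit 5212) (nat_lit 295) (.e (nat_lit 122919) (nat_lit 15) (.e (nat_lit 360484) (nat_lit 15) (.e (nat_lit 647196) (nat_lit 9) (.e (nat_lit 7936) (nat_lit 35) .nil))))) .nil)))) (.nd (nat_lit 5) (.nd (nat_lit 6) 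
(.lf (nat_lit 108060) (.g (nat_lit 4295) (.e (nat_lit 5205) (nat_lit 294) (.e (nat_lit 57377) (nat_lit 3) (.e (nat_lit 98317) (nat_lit 9) (.e (nat_lit 336214) (nat_lit 13) .nil)))) .nil)) 
(.lf (nat_lit 108124) (.g (nat_lit 578) (.e (nat_lit 5211) (nat_lit 295) (.e (nat_lit 122919) (nat_lit 15) (.e (nat_lit 360480) (nat_lit 14) .nil))) .nil))) (.nd (nat_lit 6) 
(.lf (nat_lit 108092) (.g (nat_lit 1231) (.e (nat_lit 5205) (nat_lit 294) (.e (nat_lit 57447) (nat_lit 19) (.e (nat_lit 393250) (nat_lit 18) .nil))) .nil)) 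
(.lf (nat_lit 108156) (.g (nat_lit 652) (.e (nat_lit 5219) (nat_lit 296) (.e (nat_lit 163923) (nat_lit 15) (.e (nat_lit 450592) (nat_lit 14) .nil))) .nil))))))) (.nd (nat_lit 2) (.nd (nat_lit 3) (.nd (nat_lit 4) (.nd (nat_lit 5) (.nd (nat_lit 6) 
(.lf (nat_lit 108034) (.g (nat_lit 4111) (.e (nat_lit 5204) (nat_lit 294) (.e (nat_lit 57445) (nat_lit 19) (.e (nat_lit 393229) (nat_lit 9) (.e (nat_lit 336076) (nat_lit 9) .nil)))) .nil)) 
(.lf (nat_lit 108098) (.g (nat_lit 1231) (.e (nat_lit 5205) (nat_lit 294) (.e (nat_lit 57447) (nat_lit 19) (.e (nat_lit 393256) (nat_lit 19) .nil))) .nil))) (.nd (nat_lit 6) 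
(.lf (nat_lit 108066) (.g (nat_lit 1899) (.e (nat_lit 5205) (nat_lit 294) (.e (nat_lit 57378) (nat_lit 3) (.e (nat_lit 98317) (nat_lit 9) (.e (nat_lit 336215) (nat_lit 13) .nil)))) .nil)) 
(.lf (nat_lit 108130) (.g (nat_lit 1571) (.e (nat_lit 5211) (nat_lit 295) (.e (nat_lit 122919) (nat_lit 15) (.e (nat_lit 360484) (nat_lit 15) (.e (nat_lit 647195) (nat_lit 9) (.e (nat_lit 7936) (nat_lit 35) (.e (nat_lit 450569) (nat_lit 0) .nil)))))) (.g (nat_lit 4) .nil .nil))))) (.nd (nat_lit 5) (.nd (nat_lit 6) 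
(.lf (nat_lit 108050) (.g (nat_lit 3157) (.e (nat_lit 5205) (nat_lit 294) (.e (nat_lit 57373) (nat_lit 2) (.e (nat_lit 90158) (nat_lit 11) (.e (nat_lit 24655) (nat_lit 13) (.e (nat_lit 401152) (nat_lit 10) .nil))))) .nil)) 
(.lf (nat_lit 108114) (.g (nat_lit 713) (.e (nat_lit 5207) (nat_lit 295) (.e (nat_lit 122916) (nat_lit 14) (.e (nat_lit 352309) (nat_lit 21) .nil))) .nil))) (.nd (nat_lit 6) 
(.lf (nat_lit 108082) (.g (nat_lit 1252) (.e (nat_lit 5205) (nat_lit 294) (.e (nat_lit 57447) (nat_lit 19) (.e (nat_lit 401152) (nat_lit 12) (.e (nat_lit 360473) (nat_lit 8) (.e (nat_lit 557093) (nat_lit 12) .nil))))) .nil)) 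
(.lf (nat_lit 108146) (.g (nat_lit 1128) (.e (nat_lit 5214) (nat_lit 295) (.e (nat_lit 122919) (nat_lit 15) (.e (nat_lit 360484) (nat_lit 15) (.e (nat_lit 647196) (nat_lit 9) .nil)))) .nil))))) (.nd (nat_lit 4) (.nd (nat_lit 5) (.nd (nat_lit 6) 
(.lf (nat_lit 108042) (.g (nat_lit 1323) (.e (nat_lit 5205) (nat_lit 294) (.e (nat_lit 57373) (nat_lit 2) (.e (nat_lit 98048) (nat_lit 6) (.e (nat_lit 81951) (nat_lit 22) (.e (nat_lit 90172) (nat_lit 14) (.e (nat_lit 188160) (nat_lit 0) .nil)))))) (.g (nat_lit 4) .nil .nil))) 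
(.lf (nat_lit 108106) (.g (nat_lit 2276) (.e (nat_lit 5206) (nat_lit 294) (.e (nat_lit 57406) (nat_lit 12) (.e (nat_lit 336456) (nat_lit 34) (.e (nat_lit 483395) (nat_lit 24) (.e (nat_lit 344133) (nat_lit 26) .nil))))) .nil))) (.nd (nat_lit 6) 
(.lf (nat_lit 108074) (.g (nat_lit 2012) (.e (nat_lit 5205) (nat_lit 294) (.e (nat_lit 57409) (nat_lit 12) (.e (nat_lit 336454) (nat_lit 34) (.e (nat_lit 483385) (nat_lit 23) .nil)))) .nil)) 
(.lf (nat_lit 108138) (.g (nat_lit 1366) (.e (nat_lit 5212) (nat_lit 295) (.e (nat_lit 122919) (nat_lit 15) (.e (nat_lit 360484) (nat_lit 15) (.e (nat_lit 647190) (nat_lit 9) (.e (nat_lit 7936) (nat_lit 35) .nil))))) .nil)))) (.nd (nat_lit 5) (.nd (nat_lit 6) 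
(.lf (nat_lit 108058) (.g (nat_lit 3680) (.e (nat_lit 5205) (nat_lit 294) (.e (nat_lit 57377) (nat_lit 3) (.e (nat_lit 98317) (nat_lit 9) (.e (nat_lit 336088) (nat_lit 9) .nil)))) .nil)) 
(.lf (nat_lit 108122) (.g (nat_lit 1137) (.e (nat_lit 5207) (nat_lit 295) (.e (nat_lit 122919) (nat_lit 15) (.e (nat_lit 360484) (nat_lit 15) (.e (nat_lit 647199) (nat_lit 11) .nil)))) .nil))) (.nd (nat_lit 6) 
(.lf (nat_lit 108090) (.g (nat_lit 2310) (.e (nat_lit 5205) (nat_lit 294) (.e (nat_lit 57447) (nat_lit 19) (.e (nat_lit 393234) (nat_lit 17) (.e (nat_lit 2528) (nat_lit 157) (.e (nat_lit 5195) (nat_lit 294) (.e (nat_lit 57448) (nat_lit 19) (.e (nat_lit 393234) (nat_lit 17) (.e (nat_lit 2411) (nat_lit 157) .nil)))))))) (.g (nat_lit 5) .nil .nil))) 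
(.lf (nat_lit 108154) (.g (nat_lit 1255) (.e (nat_lit 5219) (nat_lit 296) (.e (nat_lit 163908) (nat_lit 12) (.e (nat_lit 426286) (nat_lit 10) (.e (nat_lit 434269) (nat_lit 36) (.e (nat_lit 639008) (nat_lit 13) .nil))))) .nil)))))) (.nd (nat_lit 3) (.nd (nat_lit 4) (.nd (nat_lit 5) (.nd (nat_lit 6) 
(.lf (nat_lit 108038) (.g (nat_lit 3817) (.e (nat_lit 5204) (nat_lit 294) (.e (nat_lit 57445) (nat_lit 19) (.e (nat_lit 393229) (nat_lit 9) (.e (nat_lit 336204) (nat_lit 12) .nil)))) .nil)) 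
(.lf (nat_lit 108102) (.g (nat_lit 2155) (.e (nat_lit 5206) (nat_lit 294) (.e (nat_lit 57389) (nat_lit 5) (.e (nat_lit 114712) (nat_lit 21) (.e (nat_lit 57852) (nat_lit 252) (.e (nat_lit 57421) (nat_lit 13) .nil))))) .nil))) (.nd (nat_lit 6) 
(.lf (nat_lit 108070) (.g (nat_lit 2204) (.e (nat_lit 5205) (nat_lit 294) (.e (nat_lit 57406) (nat_lit 12) (.e (nat_lit 336456) (nat_lit 34) (.e (nat_lit 483395) (nat_lit 24) (.e (nat_lit 344132) (nat_lit 26) .nil))))) .nil)) 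
(.lf (nat_lit 108134) (.g (nat_lit 660) (.e (nat_lit 5212) (nat_lit 295) (.e (nat_lit 122919) (nat_lit 15) (.e (nat_lit 360451) (nat_lit 0) .nil))) .nil)))) (.nd (nat_lit 5) (.nd (nat_lit 6) 
(.lf (nat_lit 108054) (.g (nat_lit 2318) (.e (nat_lit 5205) (nat_lit 294) (.e (nat_lit 57373) (nat_lit 2) (.e (nat_lit 90158) (nat_lit 11) (.e (nat_lit 24660) (nat_lit 13) .nil)))) .nil)) 
(.lf (nat_lit 108118) (.g (nat_lit 1581) (.e (nat_lit 5207) (nat_lit 295) (.e (nat_lit 122919) (nat_lit 15) (.e (nat_lit 360484) (nat_lit 15) (.e (nat_lit 647190) (nat_lit 9) (.e (nat_lit 7936) (nat_lit 35) .nil))))) .nil))) (.nd (nat_lit 6) 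
(.lf (nat_lit 108086) (.g (nat_lit 1791) (.e (nat_lit 5205) (nat_lit 294) (.e (nat_lit 57447) (nat_lit 19) (.e (nat_lit 393234) (nat_lit 17) (.e (nat_lit 2414) (nat_lit 157) (.e (nat_lit 5195) (nat_lit 294) .nil))))) .nil)) 
(.lf (nat_lit 108150) (.g (nat_lit 1699) (.e (nat_lit 5219) (nat_lit 296) (.e (nat_lit 163907) (nat_lit 12) (.e (nat_lit 426320) (nat_lit 12) (.e (nat_lit 475193) (nat_lit 38) .nil)))) .nil))))) (.nd (nat_lit 4) (.nd (nat_lit 5) (.nd (nat_lit 6) 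
(.lf (nat_lit 108046) (.g (nat_lit 3207) (.e (nat_lit 5205) (nat_lit 294) (.e (nat_lit 57373) (nat_lit 2) (.e (nat_lit 90158) (nat_lit 11) (.e (nat_lit 24625) (nat_lit 9) (.e (nat_lit 336367) (nat_lit 27) .nil))))) .nil)) 
(.lf (nat_lit 108110) (.g (nat_lit 1532) (.e (nat_lit 5206) (nat_lit 294) (.e (nat_lit 57436) (nat_lit 17) (.e (nat_lit 376860) (nat_lit 21) (.e (nat_lit 57857) (nat_lit 254) .nil)))) .nil))) (.nd (nat_lit 6) 
(.lf (nat_lit 108078) (.g (nat_lit 3798) (.e (nat_lit 5205) (nat_lit 294) (.e (nat_lit 57445) (nat_lit 19) (.e (nat_lit 393229) (nat_lit 9) (.e (nat_lit 336088) (nat_lit 9) .nil)))) .nil)) 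
(.lf (nat_lit 108142) (.g (nat_lit 1279) (.e (nat_lit 5214) (nat_lit 295) (.e (nat_lit 122916) (nat_lit 14) (.e (nat_lit 352309) (nat_lit 21) (.e (nat_lit 57857) (nat_lit 254) .nil)))) .nil)))) (.nd (nat_lit 5) (.nd (nat_lit 6) 
(.lf (nat_lit 108062) (.g (nat_lit 4208) (.e (nat_lit 5205) (nat_lit 294) (.e (nat_lit 57377) (nat_lit 3) (.e (nat_lit 98317) (nat_lit 9) (.e (nat_lit 336221) (nat_lit 13) .nil)))) .nil)) 
(.lf (nat_lit 108126) (.g (nat_lit 1430) (.e (nat_lit 5211) (nat_lit 295) (.e (nat_lit 122919) (nat_lit 15) (.e (nat_lit 360484) (nat_lit 15) (.e (nat_lit 647190) (nat_lit 9) (.e (nat_lit 7936) (nat_lit 35) .nil))))) .nil))) (.nd (nat_lit 6) 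
(.lf (nat_lit 108094) (.g (nat_lit 2165) (.e (nat_lit 5205) (nat_lit 294) (.e (nat_lit 57447) (nat_lit 19) (.e (nat_lit 393252) (nat_lit 18) (.e (nat_lit 164319) (nat_lit 228) .nil)))) .nil)) 
(.lf (nat_lit 108158) (.g (nat_lit 1718) (.e (nat_lit 5221) (nat_lit 296) (.e (nat_lit 163933) (nat_lit 17) (.e (nat_lit 466972) (nat_lit 21) (.e (nat_lit 164307) (nat_lit 226) (.e (nat_lit 7936) (nat_lit 90) .nil))))) .nil)))))))) (.nd (nat_lit 1) (.nd (nat_lit 2) (.nd (nat_lit 3) (.nd (nat_lit 4) (.nd (nat_lit 5) (.nd (nat_lit 6) 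
(.lf (nat_lit 108033) (.g (nat_lit 1144) (.e (nat_lit 5204) (nat_lit 294) (.e (nat_lit 57427) (nat_lit 15) (.e (nat_lit 360484) (nat_lit 15) (.e (nat_lit 647190) (nat_lit 9) .nil)))) .nil)) 
(.lf (nat_lit 108097) (.g (nat_lit 1231) (.e (nat_lit 5205) (nat_lit 294) (.e (nat_lit 57447) (nat_lit 19) (.e (nat_lit 393255) (nat_lit 19) .nil))) .nil))) (.nd (nat_lit 6) 
(.lf (nat_lit 108065) (.g (nat_lit 721) (.e (nat_lit 5205) (nat_lit 294) (.e (nat_lit 57378) (nat_lit 3) (.e (nat_lit 98317) (nat_lit 9) .nil))) .nil)) 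
(.lf (nat_lit 108129) (.g (nat_lit 1755) (.e (nat_lit 5211) (nat_lit 295) (.e (nat_lit 122919) (nat_lit 15) (.e (nat_lit 360484) (nat_lit 15) (.e (nat_lit 647195) (nat_lit 9) (.e (nat_lit 7936) (nat_lit 35) (.e (nat_lit 450568) (nat_lit 0) .nil)))))) (.g (nat_lit 4) .nil .nil))))) (.nd (nat_lit 5) (.nd (nat_lit 6) 
(.lf (nat_lit 108049) (.g (nat_lit 2897) (.e (nat_lit 5205) (nat_lit 294) (.e (nat_lit 57373) (nat_lit 2) (.e (nat_lit 90158) (nat_lit 11) (.e (nat_lit 24655) (nat_lit 13) (.e (nat_lit 393229) (nat_lit 9) .nil))))) .nil)) 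
(.lf (nat_lit 108113) (.g (nat_lit 4274) (.e (nat_lit 7936) (nat_lit 294) (.e (nat_lit 57377) (nat_lit 3) (.e (nat_lit 98317) (nat_lit 9) (.e (nat_lit 336215) (nat_lit 13) .nil)))) .nil))) (.nd (nat_lit 6) 
(.lf (nat_lit 108081) (.g (nat_lit 3852) (.e (nat_lit 5205) (nat_lit 294) (.e (nat_lit 57445) (nat_lit 19) (.e (nat_lit 393229) (nat_lit 9) (.e (nat_lit 336204) (nat_lit 12) .nil)))) .nil)) 
(.lf (nat_lit 108145) (.g (nat_lit 1141) (.e (nat_lit 5214) (nat_lit 295) (.e (nat_lit 122919) (nat_lit 15) (.e (nat_lit 360484) (nat_lit 15) (.e (nat_lit 647190) (nat_lit 9) .nil)))) .nil))))) (.nd (nat_lit 4) (.nd (nat_lit 5) (.nd (nat_lit 6) 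
(.lf (nat_lit 108041) (.g (nat_lit 573) (.e (nat_lit 5205) (nat_lit 294) (.e (nat_lit 57373) (nat_lit 2) (.e (nat_lit 98048) (nat_lit 6) .nil))) .nil)) 
(.lf (nat_lit 108105) (.g (nat_lit 1838) (.e (nat_lit 5206) (nat_lit 294) (.e (nat_lit 57406) (nat_lit 12) (.e (nat_lit 336456) (nat_lit 34) (.e (nat_lit 483395) (nat_lit 24) .nil)))) .nil))) (.nd (nat_lit 6) 
(.lf (nat_lit 108073) (.g (nat_lit 2330) (.e (nat_lit 5205) (nat_lit 294) (.e (nat_lit 57409) (nat_lit 12) (.e (nat_lit 336369) (nat_lit 27) (.e (nat_lit 426109) (nat_lit 1) (.e (nat_lit 164319) (nat_lit 228) .nil))))) .nil)) 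
(.lf (nat_lit 108137) (.g (nat_lit 758) (.e (nat_lit 5212) (nat_lit 295) (.e (nat_lit 122919) (nat_lit 15) (.e (nat_lit 360483) (nat_lit 15) .nil))) .nil)))) (.nd (nat_lit 5) (.nd (nat_lit 6) 
(.lf (nat_lit 108057) (.g (nat_lit 3990) (.e (nat_lit 5205) (nat_lit 294) (.e (nat_lit 57377) (nat_lit 3) (.e (nat_lit 98317) (nat_lit 9) (.e (nat_lit 336076) (nat_lit 9) .nil)))) .nil)) 
(.lf (nat_lit 108121) (.g (nat_lit 1722) (.e (nat_lit 5207) (nat_lit 295) (.e (nat_lit 122919) (nat_lit 15) (.e (nat_lit 360484) (nat_lit 15) (.e (nat_lit 647195) (nat_lit 9) (.e (nat_lit 7936) (nat_lit 37) .nil))))) .nil))) (.nd (nat_lit 6) 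
(.lf (nat_lit 108089) (.g (nat_lit 1702) (.e (nat_lit 5205) (nat_lit 294) (.e (nat_lit 57447) (nat_lit 19) (.e (nat_lit 393234) (nat_lit 17) (.e (nat_lit 2528) (nat_lit 157) .nil)))) .nil)) 
(.lf (nat_lit 108153) (.g (nat_lit 1744) (.e (nat_lit 5219) (nat_lit 296) (.e (nat_lit 163908) (nat_lit 12) (.e (nat_lit 426286) (nat_lit 10) (.e (nat_lit 434269) (nat_lit 36) (.e (nat_lit 639007) (nat_lit 13) (.e (nat_lit 1598) (nat_lit 111) (.e (nat_lit 368384) (nat_lit 0) .nil))))))) (.g (nat_lit 6) .nil .nil))))))) (.nd (nat_lit 3) (.nd (nat_lit 4) (.nd (nat_lit 5) (.nd (nat_lit 6) 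
(.lf (nat_lit 108037) (.g (nat_lit 4049) (.e (nat_lit 5204) (nat_lit 294) (.e (nat_lit 57445) (nat_lit 19) (.e (nat_lit 393229) (nat_lit 9) (.e (nat_lit 336196) (nat_lit 12) .nil)))) .nil)) 
(.lf (nat_lit 108101) (.g (nat_lit 5128) (.e (nat_lit 5206) (nat_lit 294) (.e (nat_lit 57377) (nat_lit 3) (.e (nat_lit 98317) (nat_lit 9) (.e (nat_lit 336215) (nat_lit 13) .nil)))) .nil))) (.nd (nat_lit 6) 
(.lf (nat_lit 108069) (.g (nat_lit 2935) (.e (nat_lit 5205) (nat_lit 294) (.e (nat_lit 57406) (nat_lit 12) (.e (nat_lit 336454) (nat_lit 34) (.e (nat_lit 483406) (nat_lit 26) .nil)))) .nil)) 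
(.lf (nat_lit 108133) (.g (nat_lit 2672) (.e (nat_lit 5212) (nat_lit 295) (.e (nat_lit 122916) (nat_lit 14) (.e (nat_lit 352309) (nat_lit 21) (.e (nat_lit 57857) (nat_lit 254) (.e (nat_lit 163923) (nat_lit 15) (.e (nat_lit 450566) (nat_lit 0) .nil)))))) (.g (nat_lit 6) .nil .nil))))) (.nd (nat_lit 5) (.nd (nat_lit 6) 
(.lf (nat_lit 108053) (.g (nat_lit 2972) (.e (nat_lit 5205) (nat_lit 294) (.e (nat_lit 57373) (nat_lit 2) (.e (nat_lit 90158) (nat_lit 11) (.e (nat_lit 24658) (nat_lit 13) (.e (nat_lit 401152) (nat_lit 10) .nil))))) .nil)) 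
(.lf (nat_lit 108117) (.g (nat_lit 712) (.e (nat_lit 5207) (nat_lit 295) (.e (nat_lit 122919) (nat_lit 15) (.e (nat_lit 360484) (nat_lit 15) .nil))) .nil))) (.nd (nat_lit 6) 
(.lf (nat_lit 108085) (.g (nat_lit 1706) (.e (nat_lit 5205) (nat_lit 294) (.e (nat_lit 57447) (nat_lit 19) (.e (nat_lit 393234) (nat_lit 17) (.e (nat_lit 2413) (nat_lit 157) .nil)))) .nil)) 
(.lf (nat_lit 108149) (.g (nat_lit 1088) (.e (nat_lit 5219) (nat_lit 296) (.e (nat_lit 163903) (nat_lit 12) (.e (nat_lit 426479) (nat_lit 27) (.e (nat_lit 336434) (nat_lit 30) .nil)))) .nil))))) (.nd (nat_lit 4) (.nd (nat_lit 5) (.nd (nat_lit 6) 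
(.lf (nat_lit 108045) (.g (nat_lit 1284) (.e (nat_lit 5205) (nat_lit 294) (.e (nat_lit 57373) (nat_lit 2) (.e (nat_lit 90158) (nat_lit 11) .nil))) .nil)) 
(.lf (nat_lit 108109) (.g (nat_lit 1457) (.e (nat_lit 5206) (nat_lit 294) (.e (nat_lit 57436) (nat_lit 17) (.e (nat_lit 376860) (nat_lit 21) (.e (nat_lit 57830) (nat_lit 250) .nil)))) .nil))) (.nd (nat_lit 6) 
(.lf (nat_lit 108077) (.g (nat_lit 4131) (.e (nat_lit 5205) (nat_lit 294) (.e (nat_lit 57445) (nat_lit 19) (.e (nat_lit 393229) (nat_lit 9) (.e (nat_lit 336076) (nat_lit 9) .nil)))) .nil)) 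
(.lf (nat_lit 108141) (.g (nat_lit 777) (.e (nat_lit 5213) (nat_lit 295) (.e (nat_lit 122919) (nat_lit 15) (.e (nat_lit 360484) (nat_lit 15) .nil))) .nil)))) (.nd (nat_lit 5) (.nd (nat_lit 6) 
(.lf (nat_lit 108061) (.g (nat_lit 3719) (.e (nat_lit 5205) (nat_lit 294) (.e (nat_lit 57377) (nat_lit 3) (.e (nat_lit 98317) (nat_lit 9) (.e (nat_lit 336215) (nat_lit 13) .nil)))) .nil)) 
(.lf (nat_lit 108125) (.g (nat_lit 950) (.e (nat_lit 5211) (nat_lit 295) (.e (nat_lit 122919) (nat_lit 15) (.e (nat_lit 360484) (nat_lit 15) (.e (nat_lit 647190) (nat_lit 9) .nil)))) .nil))) (.nd (nat_lit 6) 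
(.lf (nat_lit 108093) (.g (nat_lit 2715) (.e (nat_lit 5205) (nat_lit 294) (.e (nat_lit 57447) (nat_lit 19) (.e (nat_lit 393251) (nat_lit 18) (.e (nat_lit 164319) (nat_lit 228) .nil)))) .nil)) 
(.lf (nat_lit 108157) (.g (nat_lit 1332) (.e (nat_lit 5221) (nat_lit 296) (.e (nat_lit 163884) (nat_lit 5) (.e (nat_lit 221194) (nat_lit 11) (.e (nat_lit 336222) (nat_lit 13) .nil)))) .nil))))))) (.nd (nat_lit 2) (.nd (nat_lit 3) (.nd (nat_lit 4) (.nd (nat_lit 5) (.nd (nat_lit 6) 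
(.lf (nat_lit 108035) (.g (nat_lit 3762) (.e (nat_lit 5204) (nat_lit 294) (.e (nat_lit 57445) (nat_lit 19) (.e (nat_lit 393229) (nat_lit 9) (.e (nat_lit 336088) (nat_lit 9) .nil)))) .nil)) 
(.lf (nat_lit 108099) (.g (nat_lit 854) (.e (nat_lit 5206) (nat_lit 294) (.e (nat_lit 57373) (nat_lit 2) (.e (nat_lit 98048) (nat_lit 8) .nil))) .nil))) (.nd (nat_lit 6) 
(.lf (nat_lit 108067) (.g (nat_lit 600) (.e (nat_lit 5205) (nat_lit 294) (.e (nat_lit 57406) (nat_lit 12) (.e (nat_lit 336367) (nat_lit 27) .nil))) .nil)) 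
(.lf (nat_lit 108131) (.g (nat_lit 932) (.e (nat_lit 5211) (nat_lit 295) (.e (nat_lit 122919) (nat_lit 15) (.e (nat_lit 360484) (nat_lit 15) (.e (nat_lit 647196) (nat_lit 9) .nil)))) .nil)))) (.nd (nat_lit 5) (.nd (nat_lit 6) 
(.lf (nat_lit 108051) (.g (nat_lit 2269) (.e (nat_lit 5205) (nat_lit 294) (.e (nat_lit 57373) (nat_lit 2) (.e (nat_lit 90158) (nat_lit 11) (.e (nat_lit 24657) (nat_lit 13) .nil)))) .nil)) 
(.lf (nat_lit 108115) (.g (nat_lit 698) (.e (nat_lit 5207) (nat_lit 295) (.e (nat_lit 122919) (nat_lit 15) (.e (nat_lit 360450) (nat_lit 0) .nil))) .nil))) (.nd (nat_lit 6) 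
(.lf (nat_lit 108083) (.g (nat_lit 2752) (.e (nat_lit 5205) (nat_lit 294) (.e (nat_lit 57447) (nat_lit 19) (.e (nat_lit 401152) (nat_lit 12) (.e (nat_lit 360475) (nat_lit 8) (.e (nat_lit 557090) (nat_lit 12) (.e (nat_lit 171776) (nat_lit 0) .nil)))))) (.g (nat_lit 5) .nil .nil))) 
(.lf (nat_lit 108147) (.g (nat_lit 527) (.e (nat_lit 5219) (nat_lit 296) (.e (nat_lit 163843) (nat_lit 0) (.e (nat_lit 3223) (nat_lit 196) .nil))) .nil))))) (.nd (nat_lit 4) (.nd (nat_lit 5) (.nd (nat_lit 6) 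
(.lf (nat_lit 108043) (.g (nat_lit 2657) (.e (nat_lit 5205) (nat_lit 294) (.e (nat_lit 57373) (nat_lit 2) (.e (nat_lit 98048) (nat_lit 8) (.e (nat_lit 131116) (nat_lit 9) (.e (nat_lit 336004) (nat_lit 2) (.e (nat_lit 90172) (nat_lit 14) (.e (nat_lit 188160) (nat_lit 0) .nil))))))) (.g (nat_lit 6) .nil .nil))) 
(.lf (nat_lit 108107) (.g (nat_lit 1947) (.e (nat_lit 5206) (nat_lit 294) (.e (nat_lit 57406) (nat_lit 12) (.e (nat_lit 336456) (nat_lit 34) (.e (nat_lit 483396) (nat_lit 24) .nil)))) .nil))) (.nd (nat_lit 6) 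
(.lf (nat_lit 108075) (.g (nat_lit 1940) (.e (nat_lit 5205) (nat_lit 294) (.e (nat_lit 57436) (nat_lit 17) (.e (nat_lit 376860) (nat_lit 21) (.e (nat_lit 57830) (nat_lit 250) (.e (nat_lit 7936) (nat_lit 166) .nil))))) .nil)) 
(.lf (nat_lit 108139) (.g (nat_lit 1503) (.e (nat_lit 5212) (nat_lit 295) (.e (nat_lit 122919) (nat_lit 15) (.e (nat_lit 360484) (nat_lit 15) (.e (nat_lit 647195) (nat_lit 9) (.e (nat_lit 7936) (nat_lit 35) .nil))))) .nil)))) (.nd (nat_lit 5) (.nd (nat_lit 6) 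
(.lf (nat_lit 108059) (.g (nat_lit 3954) (.e (nat_lit 5205) (nat_lit 294) (.e (nat_lit 57377) (nat_lit 3) (.e (nat_lit 98317) (nat_lit 9) (.e (nat_lit 336213) (nat_lit 13) .nil)))) .nil)) 
(.lf (nat_lit 108123) (.g (nat_lit 682) (.e (nat_lit 5211) (nat_lit 295) (.e (nat_lit 122916) (nat_lit 14) (.e (nat_lit 352309) (nat_lit 21) .nil))) .nil))) (.nd (nat_lit 6) 
(.lf (nat_lit 108091) (.g (nat_lit 2065) (.e (nat_lit 5205) (nat_lit 294) (.e (nat_lit 57447) (nat_lit 19) (.e (nat_lit 393238) (nat_lit 17) (.e (nat_lit 2527) (nat_lit 157) .nil)))) .nil)) 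
(.lf (nat_lit 108155) (.g (nat_lit 1739) (.e (nat_lit 5219) (nat_lit 296) (.e (nat_lit 163908) (nat_lit 12) (.e (nat_lit 426286) (nat_lit 10) (.e (nat_lit 434269) (nat_lit 36) (.e (nat_lit 639008) (nat_lit 13) (.e (nat_lit 1598) (nat_lit 111) (.e (nat_lit 368384) (nat_lit 0) .nil))))))) (.g (nat_lit 6) .nil .nil))))))) (.nd (nat_lit 3) (.nd (nat_lit 4) (.nd (nat_lit 5) (.nd (nat_lit 6) 
(.lf (nat_lit 108039) (.g (nat_lit 3060) (.e (nat_lit 5205) (nat_lit 294) (.e (nat_lit 57366) (nat_lit 1) (.e (nat_lit 57830) (nat_lit 250) (.e (nat_lit 1201) (nat_lit 88) (.e (nat_lit 65586) (nat_lit 7) (.e (nat_lit 319531) (nat_lit 16) (.e (nat_lit 286748) (nat_lit 9) (.e (nat_lit 335925) (nat_lit 0) (.e (nat_lit 1039) (nat_lit 81) .nil))))))))) (.g (nat_lit 7) .nil .nil))) 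
(.lf (nat_lit 108103) (.g (nat_lit 785) (.e (nat_lit 5206) (nat_lit 294) (.e (nat_lit 57406) (nat_lit 12) (.e (nat_lit 336367) (nat_lit 27) .nil))) .nil))) (.nd (nat_lit 6) 
(.lf (nat_lit 108071) (.g (nat_lit 2113) (.e (nat_lit 5205) (nat_lit 294) (.e (nat_lit 57406) (nat_lit 12) (.e (nat_lit 336456) (nat_lit 34) (.e (nat_lit 483395) (nat_lit 24) (.e (nat_lit 344133) (nat_lit 26) .nil))))) .nil)) 
(.lf (nat_lit 108135) (.g (nat_lit 1634) (.e (nat_lit 5212) (nat_lit 295) (.e (nat_lit 122919) (nat_lit 15) (.e (nat_lit 360451) (nat_lit 0) (.e (nat_lit 5107) (nat_lit 292) .nil)))) .nil)))) (.nd (nat_lit 5) (.nd (nat_lit 6) 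
(.lf (nat_lit 108055) (.g (nat_lit 675) (.e (nat_lit 5205) (nat_lit 294) (.e (nat_lit 57373) (nat_lit 2) (.e (nat_lit 90159) (nat_lit 11) .nil))) .nil)) 
(.lf (nat_lit 108119) (.g (nat_lit 1581) (.e (nat_lit 5207) (nat_lit 295) (.e (nat_lit 122919) (nat_lit 15) (.e (nat_lit 360484) (nat_lit 15) (.e (nat_lit 647190) (nat_lit 9) (.e (nat_lit 7936) (nat_lit 37) .nil))))) .nil))) (.nd (nat_lit 6) 
(.lf (nat_lit 108087) (.g (nat_lit 1706) (.e (nat_lit 5205) (nat_lit 294) (.e (nat_lit 57447) (nat_lit 19) (.e (nat_lit 393234) (nat_lit 17) (.e (nat_lit 2415) (nat_lit 157) .nil)))) .nil)) 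
(.lf (nat_lit 108151) (.g (nat_lit 1125) (.e (nat_lit 5219) (nat_lit 296) (.e (nat_lit 163908) (nat_lit 12) (.e (nat_lit 426285) (nat_lit 10) (.e (nat_lit 434269) (nat_lit 36) .nil)))) .nil))))) (.nd (nat_lit 4) (.nd (nat_lit 5) (.nd (nat_lit 6) 
(.lf (nat_lit 108047) (.g (nat_lit 2174) (.e (nat_lit 5205) (nat_lit 294) (.e (nat_lit 57373) (nat_lit 2) (.e (nat_lit 90158) (nat_lit 11) (.e (nat_lit 24628) (nat_lit 9) .nil)))) .nil)) 
(.lf (nat_lit 108111) (.g (nat_lit 4121) (.e (nat_lit 5206) (nat_lit 294) (.e (nat_lit 57445) (nat_lit 19) (.e (nat_lit 393229) (nat_lit 9) (.e (nat_lit 336163) (nat_lit 10) .nil)))) .nil))) (.nd (nat_lit 6) 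
(.lf (nat_lit 108079) (.g (nat_lit 4160) (.e (nat_lit 5205) (nat_lit 294) (.e (nat_lit 57445) (nat_lit 19) (.e (nat_lit 393229) (nat_lit 9) (.e (nat_lit 336194) (nat_lit 12) .nil)))) .nil)) 
(.lf (nat_lit 108143) (.g (nat_lit 1727) (.e (nat_lit 5214) (nat_lit 295) (.e (nat_lit 122919) (nat_lit 15) (.e (nat_lit 360451) (nat_lit 0) (.e (nat_lit 5116) (nat_lit 292) .nil)))) .nil)))) (.nd (nat_lit 5) (.nd (nat_lit 6) 
(.lf (nat_lit 108063) (.g (nat_lit 4191) (.e (nat_lit 5205) (nat_lit 294) (.e (nat_lit 57377) (nat_lit 3) (.e (nat_lit 98317) (nat_lit 9) (.e (nat_lit 336222) (nat_lit 13) .nil)))) .nil)) 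
(.lf (nat_lit 108127) (.g (nat_lit 1602) (.e (nat_lit 5211) (nat_lit 295) (.e (nat_lit 122919) (nat_lit 15) (.e (nat_lit 360484) (nat_lit 15) (.e (nat_lit 647190) (nat_lit 9) (.e (nat_lit 7936) (nat_lit 35) (.e (nat_lit 450568) (nat_lit 0) .nil)))))) (.g (nat_lit 4) .nil .nil)))) (.nd (nat_lit 6) 
(.lf (nat_lit 108095) (.g (nat_lit 2200) (.e (nat_lit 5205) (nat_lit 294) (.e (nat_lit 57447) (nat_lit 19) (.e (nat_lit 393253) (nat_lit 18) (.e (nat_lit 164319) (nat_lit 228) .nil)))) .nil)) 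
(.lf (nat_lit 108159) (.g (nat_lit 1243) (.e (nat_lit 5222) (nat_lit 296) (.e (nat_lit 163884) (nat_lit 5) (.e (nat_lit 221194) (nat_lit 11) (.e (nat_lit 336086) (nat_lit 9) .nil)))) .nil)))))))))

noncomputable def tv1464 : DT := (.nd (nat_lit 0) (.nd (nat_lit 1) (.nd (nat_lit 2) (.nd (nat_lit 3) (.nd (nat_lit 4) (.nd (nat_lit 5) 
(.lf (nat_lit 108160) (.g (nat_lit 1693) (.e (nat_lit 5222) (nat_lit 296) (.e (nat_lit 163884) (nat_lit 5) (.e (nat_lit 221194) (nat_lit 11) (.e (nat_lit 336086) (nat_lit 9) (.e (nat_lit 336434) (nat_lit 30) .nil))))) .nil)) 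
(.lf (nat_lit 108192) (.g (nat_lit 848) (.e (nat_lit 5223) (nat_lit 296) (.e (nat_lit 163868) (nat_lit 2) (.e (nat_lit 196655) (nat_lit 11) (.e (nat_lit 16465) (nat_lit 13) .nil)))) .nil))) (.nd (nat_lit 5) 
(.lf (nat_lit 108176) (.g (nat_lit 1361) (.e (nat_lit 5222) (nat_lit 296) (.e (nat_lit 163933) (nat_lit 17) (.e (nat_lit 466967) (nat_lit 20) (.e (nat_lit 2444) (nat_lit 157) (.e (nat_lit 5170) (nat_lit 292) (.e (nat_lit 1079) (nat_lit 81) (.e (nat_lit 1582) (nat_lit 111) (.e (nat_lit 368384) (nat_lit 0) .nil)))))))) (.g (nat_lit 5) .nil .nil))) 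
(.lf (nat_lit 108208) (.g (nat_lit 1684) (.e (nat_lit 5223) (nat_lit 296) (.e (nat_lit 163884) (nat_lit 5) (.e (nat_lit 221194) (nat_lit 11) (.e (nat_lit 336222) (nat_lit 13) (.e (nat_lit 393284) (nat_lit 24) (.e (nat_lit 434209) (nat_lit 18) .nil)))))) (.g (nat_lit 4) .nil .nil))))) (.nd (nat_lit 4) (.nd (nat_lit 5) 
(.lf (nat_lit 108168) (.g (nat_lit 2100) (.e (nat_lit 5222) (nat_lit 296) (.e (nat_lit 163907) (nat_lit 12) (.e (nat_lit 426294) (nat_lit 11) (.e (nat_lit 458803) (nat_lit 36) (.e (nat_lit 639008) (nat_lit 13) (.e (nat_lit 1586) (nat_lit 111) (.e (nat_lit 368384) (nat_lit 0) .nil))))))) (.g (nat_lit 6) .nil .nil))) 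
(.lf (nat_lit 108200) (.g (nat_lit 1451) (.e (nat_lit 5223) (nat_lit 296) (.e (nat_lit 163884) (nat_lit 5) (.e (nat_lit 221193) (nat_lit 11) (.e (nat_lit 336220) (nat_lit 13) (.e (nat_lit 393283) (nat_lit 24) (.e (nat_lit 434209) (nat_lit 18) .nil)))))) (.g (nat_lit 4) .nil .nil)))) (.nd (nat_lit 5) 
(.lf (nat_lit 108184) (.g (nat_lit 604) (.e (nat_lit 5222) (nat_lit 296) (.e (nat_lit 163933) (nat_lit 17) (.e (nat_lit 466972) (nat_lit 21) .nil))) .nil)) 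
(.lf (nat_lit 108216) (.g (nat_lit 641) (.e (nat_lit 5224) (nat_lit 296) (.e (nat_lit 163868) (nat_lit 2) (.e (nat_lit 196690) (nat_lit 18) .nil))) .nil))))) (.nd (nat_lit 3) (.nd (nat_lit 4) (.nd (nat_lit 5) 
(.lf (nat_lit 108164) (.g (nat_lit 1083) (.e (nat_lit 5222) (nat_lit 296) (.e (nat_lit 163907) (nat_lit 12) (.e (nat_lit 426227) (nat_lit 9) (.e (nat_lit 433920) (nat_lit 15) .nil)))) .nil)) 
(.lf (nat_lit 108196) (.g (nat_lit 1340) (.e (nat_lit 5223) (nat_lit 296) (.e (nat_lit 163871) (nat_lit 2) (.e (nat_lit 196655) (nat_lit 11) (.e (nat_lit 16465) (nat_lit 13) (.e (nat_lit 491264) (nat_lit 10) .nil))))) .nil))) (.nd (nat_lit 5) 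
(.lf (nat_lit 108180) (.g (nat_lit 533) (.e (nat_lit 5222) (nat_lit 296) (.e (nat_lit 163933) (nat_lit 17) (.e (nat_lit 466971) (nat_lit 21) .nil))) .nil)) 
(.lf (nat_lit 108212) (.g (nat_lit 701) (.e (nat_lit 5223) (nat_lit 296) (.e (nat_lit 163933) (nat_lit 17) (.e (nat_lit 466972) (nat_lit 21) .nil))) .nil)))) (.nd (nat_lit 4) (.nd (nat_lit 5) 
(.lf (nat_lit 108172) (.g (nat_lit 1718) (.e (nat_lit 5222) (nat_lit 296) (.e (nat_lit 163907) (nat_lit 12) (.e (nat_lit 426320) (nat_lit 12) (.e (nat_lit 475193) (nat_lit 38) .nil)))) .nil)) 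
(.lf (nat_lit 108204) (.g (nat_lit 2087) (.e (nat_lit 5223) (nat_lit 296) (.e (nat_lit 163884) (nat_lit 5) (.e (nat_lit 221194) (nat_lit 11) (.e (nat_lit 336086) (nat_lit 9) (.e (nat_lit 336434) (nat_lit 30) (.e (nat_lit 450564) (nat_lit 0) .nil)))))) (.g (nat_lit 6) .nil .nil)))) (.nd (nat_lit 5) 
(.lf (nat_lit 108188) (.g (nat_lit 1290) (.e (nat_lit 5222) (nat_lit 296) (.e (nat_lit 163933) (nat_lit 17) (.e (nat_lit 466972) (nat_lit 21) (.e (nat_lit 164307) (nat_lit 226) .nil)))) .nil)) 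
(.lf (nat_lit 108220) (.g (nat_lit 1422) (.e (nat_lit 5224) (nat_lit 296) (.e (nat_lit 163871) (nat_lit 2) (.e (nat_lit 196654) (nat_lit 11) (.e (nat_lit 16466) (nat_lit 13) (.e (nat_lit 483341) (nat_lit 9) .nil))))) .nil)))))) (.nd (nat_lit 2) (.nd (nat_lit 3) (.nd (nat_lit 4) (.nd (nat_lit 5) 
(.lf (nat_lit 108162) (.g (nat_lit 1118) (.e (nat_lit 5222) (nat_lit 296) (.e (nat_lit 163903) (nat_lit 12) (.e (nat_lit 426479) (nat_lit 27) (.e (nat_lit 336434) (nat_lit 30) (.e (nat_lit 450586) (nat_lit 10) .nil))))) .nil)) 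
(.lf (nat_lit 108194) (.g (nat_lit 1513) (.e (nat_lit 5223) (nat_lit 296) (.e (nat_lit 163868) (nat_lit 2) (.e (nat_lit 196656) (nat_lit 11) (.e (nat_lit 16463) (nat_lit 13) .nil)))) .nil))) (.nd (nat_lit 5) 
(.lf (nat_lit 108178) (.g (nat_lit 1846) (.e (nat_lit 5222) (nat_lit 296) (.e (nat_lit 163933) (nat_lit 17) (.e (nat_lit 466967) (nat_lit 20) (.e (nat_lit 3386) (nat_lit 210) (.e (nat_lit 639007) (nat_lit 13) (.e (nat_lit 1595) (nat_lit 111) (.e (nat_lit 368384) (nat_lit 0) .nil))))))) (.g (nat_lit 6) .nil .nil))) 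
(.lf (nat_lit 108210) (.g (nat_lit 531) (.e (nat_lit 5223) (nat_lit 296) (.e (nat_lit 163922) (nat_lit 15) (.e (nat_lit 450592) (nat_lit 14) .nil))) .nil)))) (.nd (nat_lit 4) (.nd (nat_lit 5) 
(.lf (nat_lit 108170) (.g (nat_lit 1792) (.e (nat_lit 5222) (nat_lit 296) (.e (nat_lit 163907) (nat_lit 12) (.e (nat_lit 426294) (nat_lit 11) (.e (nat_lit 458803) (nat_lit 36) (.e (nat_lit 639008) (nat_lit 13) (.e (nat_lit 1598) (nat_lit 111) (.e (nat_lit 368384) (nat_lit 0) .nil))))))) (.g (nat_lit 6) .nil .nil))) 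
(.lf (nat_lit 108202) (.g (nat_lit 1085) (.e (nat_lit 5223) (nat_lit 296) (.e (nat_lit 163884) (nat_lit 5) (.e (nat_lit 221194) (nat_lit 11) (.e (nat_lit 336085) (nat_lit 9) .nil)))) .nil))) (.nd (nat_lit 5) 
(.lf (nat_lit 108186) (.g (nat_lit 1934) (.e (nat_lit 5222) (nat_lit 296) (.e (nat_lit 163933) (nat_lit 17) (.e (nat_lit 466972) (nat_lit 21) (.e (nat_lit 164305) (nat_lit 226) (.e (nat_lit 1070) (nat_lit 81) .nil))))) .nil)) 
(.lf (nat_lit 108218) (.g (nat_lit 641) (.e (nat_lit 5224) (nat_lit 296) (.e (nat_lit 163868) (nat_lit 2) (.e (nat_lit 196695) (nat_lit 18) .nil))) .nil))))) (.nd (nat_lit 3) (.nd (nat_lit 4) (.nd (nat_lit 5) 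
(.lf (nat_lit 108166) (.g (nat_lit 2036) (.e (nat_lit 5222) (nat_lit 296) (.e (nat_lit 163907) (nat_lit 12) (.e (nat_lit 426294) (nat_lit 11) (.e (nat_lit 458803) (nat_lit 36) (.e (nat_lit 639007) (nat_lit 13) (.e (nat_lit 1595) (nat_lit 111) (.e (nat_lit 368384) (nat_lit 0) .nil))))))) (.g (nat_lit 6) .nil .nil))) 
(.lf (nat_lit 108198) (.g (nat_lit 931) (.e (nat_lit 5223) (nat_lit 296) (.e (nat_lit 163884) (nat_lit 5) (.e (nat_lit 221193) (nat_lit 11) (.e (nat_lit 336085) (nat_lit 9) .nil)))) .nil))) (.nd (nat_lit 5) 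
(.lf (nat_lit 108182) (.g (nat_lit 1500) (.e (nat_lit 5222) (nat_lit 296) (.e (nat_lit 163933) (nat_lit 17) (.e (nat_lit 466971) (nat_lit 21) (.e (nat_lit 164321) (nat_lit 229) .nil)))) .nil)) 
(.lf (nat_lit 108214) (.g (nat_lit 2204) (.e (nat_lit 5224) (nat_lit 296) (.e (nat_lit 163868) (nat_lit 2) (.e (nat_lit 196655) (nat_lit 11) (.e (nat_lit 16465) (nat_lit 13) (.e (nat_lit 491264) (nat_lit 10) .nil))))) .nil)))) (.nd (nat_lit 4) (.nd (nat_lit 5) 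
(.lf (nat_lit 108174) (.g (nat_lit 1613) (.e (nat_lit 5222) (nat_lit 296) (.e (nat_lit 163933) (nat_lit 17) (.e (nat_lit 466967) (nat_lit 20) (.e (nat_lit 2443) (nat_lit 157) (.e (nat_lit 5120) (nat_lit 292) (.e (nat_lit 1079) (nat_lit 81) (.e (nat_lit 1582) (nat_lit 111) (.e (nat_lit 368384) (nat_lit 0) .nil)))))))) (.g (nat_lit 6) .nil .nil))) 
(.lf (nat_lit 108206) (.g (nat_lit 2683) (.e (nat_lit 5223) (nat_lit 296) (.e (nat_lit 163884) (nat_lit 5) (.e (nat_lit 221194) (nat_lit 11) (.e (nat_lit 336221) (nat_lit 13) (.e (nat_lit 393283) (nat_lit 24) (.e (nat_lit 434209) (nat_lit 18) .nil)))))) (.g (nat_lit 0) .nil .nil)))) (.nd (nat_lit 5) 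
(.lf (nat_lit 108190) (.g (nat_lit 1301) (.e (nat_lit 5222) (nat_lit 296) (.e (nat_lit 163933) (nat_lit 17) (.e (nat_lit 466972) (nat_lit 21) (.e (nat_lit 164320) (nat_lit 229) .nil)))) .nil)) 
(.lf (nat_lit 108222) (.g (nat_lit 439) (.e (nat_lit 5224) (nat_lit 296) (.e (nat_lit 163871) (nat_lit 2) (.e (nat_lit 196691) (nat_lit 18) .nil))) .nil))))))) (.nd (nat_lit 1) (.nd (nat_lit 2) (.nd (nat_lit 3) (.nd (nat_lit 4) (.nd (nat_lit 5) 
(.lf (nat_lit 108161) (.g (nat_lit 453) (.e (nat_lit 5222) (nat_lit 296) (.e (nat_lit 163884) (nat_lit 5) (.e (nat_lit 229120) (nat_lit 16) .nil))) .nil)) 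
(.lf (nat_lit 108193) (.g (nat_lit 1438) (.e (nat_lit 5223) (nat_lit 296) (.e (nat_lit 163868) (nat_lit 2) (.e (nat_lit 196655) (nat_lit 11) (.e (nat_lit 16465) (nat_lit 13) (.e (nat_lit 491264) (nat_lit 10) .nil))))) .nil))) (.nd (nat_lit 5) 
(.lf (nat_lit 108177) (.g (nat_lit 1927) (.e (nat_lit 5222) (nat_lit 296) (.e (nat_lit 163933) (nat_lit 17) (.e (nat_lit 466967) (nat_lit 20) (.e (nat_lit 3386) (nat_lit 210) (.e (nat_lit 639007) (nat_lit 13) (.e (nat_lit 1586) (nat_lit 111) (.e (nat_lit 368384) (nat_lit 0) .nil))))))) (.g (nat_lit 6) .nil .nil))) 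
(.lf (nat_lit 108209) (.g (nat_lit 1160) (.e (nat_lit 5223) (nat_lit 296) (.e (nat_lit 163908) (nat_lit 12) (.e (nat_lit 426286) (nat_lit 10) (.e (nat_lit 434269) (nat_lit 36) .nil)))) .nil)))) (.nd (nat_lit 4) (.nd (nat_lit 5) 
(.lf (nat_lit 108169) (.g (nat_lit 2032) (.e (nat_lit 5222) (nat_lit 296) (.e (nat_lit 163907) (nat_lit 12) (.e (nat_lit 426294) (nat_lit 11) (.e (nat_lit 458803) (nat_lit 36) (.e (nat_lit 639008) (nat_lit 13) (.e (nat_lit 1595) (nat_lit 111) (.e (nat_lit 368384) (nat_lit 0) .nil))))))) (.g (nat_lit 6) .nil .nil))) 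
(.lf (nat_lit 108201) (.g (nat_lit 1399) (.e (nat_lit 5223) (nat_lit 296) (.e (nat_lit 163884) (nat_lit 5) (.e (nat_lit 221194) (nat_lit 11) (.e (nat_lit 336084) (nat_lit 9) .nil)))) .nil))) (.nd (nat_lit 5) 
(.lf (nat_lit 108185) (.g (nat_lit 2328) (.e (nat_lit 5222) (nat_lit 296) (.e (nat_lit 163933) (nat_lit 17) (.e (nat_lit 466972) (nat_lit 21) (.e (nat_lit 164305) (nat_lit 226) (.e (nat_lit 1065) (nat_lit 81) (.e (nat_lit 1583) (nat_lit 111) (.e (nat_lit 368384) (nat_lit 0) .nil))))))) (.g (nat_lit 5) .nil .nil))) 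
(.lf (nat_lit 108217) (.g (nat_lit 649) (.e (nat_lit 5224) (nat_lit 296) (.e (nat_lit 163868) (nat_lit 2) (.e (nat_lit 196691) (nat_lit 18) .nil))) .nil))))) (.nd (nat_lit 3) (.nd (nat_lit 4) (.nd (nat_lit 5) 
(.lf (nat_lit 108165) (.g (nat_lit 2115) (.e (nat_lit 5222) (nat_lit 296) (.e (nat_lit 163907) (nat_lit 12) (.e (nat_lit 426294) (nat_lit 11) (.e (nat_lit 458803) (nat_lit 36) (.e (nat_lit 639007) (nat_lit 13) (.e (nat_lit 1586) (nat_lit 111) (.e (nat_lit 368384) (nat_lit 0) .nil))))))) (.g (nat_lit 6) .nil .nil))) 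
(.lf (nat_lit 108197) (.g (nat_lit 977) (.e (nat_lit 5223) (nat_lit 296) (.e (nat_lit 163875) (nat_lit 3) (.e (nat_lit 204829) (nat_lit 18) .nil))) .nil))) (.nd (nat_lit 5) 
(.lf (nat_lit 108181) (.g (nat_lit 1512) (.e (nat_lit 5222) (nat_lit 296) (.e (nat_lit 163933) (nat_lit 17) (.e (nat_lit 466971) (nat_lit 21) (.e (nat_lit 164320) (nat_lit 229) .nil)))) .nil)) 
(.lf (nat_lit 108213) (.g (nat_lit 694) (.e (nat_lit 5224) (nat_lit 296) (.e (nat_lit 163844) (nat_lit 0) (.e (nat_lit 3605) (nat_lit 225) (.e (nat_lit 769792) (nat_lit 10) .nil)))) .nil)))) (.nd (nat_lit 4) (.nd (nat_lit 5) 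
(.lf (nat_lit 108173) (.g (nat_lit 517) (.e (nat_lit 5222) (nat_lit 296) (.e (nat_lit 163908) (nat_lit 12) (.e (nat_lit 426286) (nat_lit 10) .nil))) .nil)) 
(.lf (nat_lit 108205) (.g (nat_lit 1054) (.e (nat_lit 5223) (nat_lit 296) (.e (nat_lit 163884) (nat_lit 5) (.e (nat_lit 221194) (nat_lit 11) (.e (nat_lit 336221) (nat_lit 13) .nil)))) .nil))) (.nd (nat_lit 5) 
(.lf (nat_lit 108189) (.g (nat_lit 1628) (.e (nat_lit 5222) (nat_lit 296) (.e (nat_lit 163933) (nat_lit 17) (.e (nat_lit 466972) (nat_lit 21) (.e (nat_lit 164307) (nat_lit 226) (.e (nat_lit 1065) (nat_lit 81) .nil))))) .nil)) 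
(.lf (nat_lit 108221) (.g (nat_lit 1512) (.e (nat_lit 5224) (nat_lit 296) (.e (nat_lit 163871) (nat_lit 2) (.e (nat_lit 196656) (nat_lit 11) (.e (nat_lit 16463) (nat_lit 13) .nil)))) .nil)))))) (.nd (nat_lit 2) (.nd (nat_lit 3) (.nd (nat_lit 4) (.nd (nat_lit 5) 
(.lf (nat_lit 108163) (.g (nat_lit 632) (.e (nat_lit 5222) (nat_lit 296) (.e (nat_lit 163905) (nat_lit 12) (.e (nat_lit 426294) (nat_lit 11) .nil))) .nil)) 
(.lf (nat_lit 108195) (.g (nat_lit 607) (.e (nat_lit 5223) (nat_lit 296) (.e (nat_lit 163868) (nat_lit 2) (.e (nat_lit 196691) (nat_lit 18) .nil))) .nil))) (.nd (nat_lit 5) 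
(.lf (nat_lit 108179) (.g (nat_lit 1683) (.e (nat_lit 5222) (nat_lit 296) (.e (nat_lit 163933) (nat_lit 17) (.e (nat_lit 466967) (nat_lit 20) (.e (nat_lit 3386) (nat_lit 210) (.e (nat_lit 639007) (nat_lit 13) (.e (nat_lit 1598) (nat_lit 111) (.e (nat_lit 368384) (nat_lit 0) .nil))))))) (.g (nat_lit 6) .nil .nil))) 
(.lf (nat_lit 108211) (.g (nat_lit 664) (.e (nat_lit 5223) (nat_lit 296) (.e (nat_lit 163923) (nat_lit 15) (.e (nat_lit 450592) (nat_lit 14) .nil))) .nil)))) (.nd (nat_lit 4) (.nd (nat_lit 5) 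
(.lf (nat_lit 108171) (.g (nat_lit 941) (.e (nat_lit 5222) (nat_lit 296) (.e (nat_lit 163907) (nat_lit 12) (.e (nat_lit 426294) (nat_lit 11) (.e (nat_lit 466688) (nat_lit 36) .nil)))) .nil)) 
(.lf (nat_lit 108203) (.g (nat_lit 1324) (.e (nat_lit 5223) (nat_lit 296) (.e (nat_lit 163884) (nat_lit 5) (.e (nat_lit 221194) (nat_lit 11) (.e (nat_lit 336086) (nat_lit 9) (.e (nat_lit 336432) (nat_lit 30) .nil))))) .nil))) (.nd (nat_lit 5) 
(.lf (nat_lit 108187) (.g (nat_lit 1645) (.e (nat_lit 5222) (nat_lit 296) (.e (nat_lit 163933) (nat_lit 17) (.e (nat_lit 466972) (nat_lit 21) (.e (nat_lit 164306) (nat_lit 226) (.e (nat_lit 1065) (nat_lit 81) .nil))))) .nil)) 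
(.lf (nat_lit 108219) (.g (nat_lit 1409) (.e (nat_lit 5224) (nat_lit 296) (.e (nat_lit 163871) (nat_lit 2) (.e (nat_lit 196653) (nat_lit 11) (.e (nat_lit 16465) (nat_lit 13) (.e (nat_lit 491264) (nat_lit 10) .nil))))) .nil))))) (.nd (nat_lit 3) (.nd (nat_lit 4) (.nd (nat_lit 5) 
(.lf (nat_lit 108167) (.g (nat_lit 1812) (.e (nat_lit 5222) (nat_lit 296) (.e (nat_lit 163907) (nat_lit 12) (.e (nat_lit 426294) (nat_lit 11) (.e (nat_lit 458803) (nat_lit 36) (.e (nat_lit 639007) (nat_lit 13) (.e (nat_lit 1598) (nat_lit 111) (.e (nat_lit 368384) (nat_lit 0) .nil))))))) (.g (nat_lit 6) .nil .nil))) 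
(.lf (nat_lit 108199) (.g (nat_lit 1538) (.e (nat_lit 5223) (nat_lit 296) (.e (nat_lit 163884) (nat_lit 5) (.e (nat_lit 221193) (nat_lit 11) (.e (nat_lit 336086) (nat_lit 9) (.e (nat_lit 336434) (nat_lit 30) (.e (nat_lit 450564) (nat_lit 0) .nil)))))) (.g (nat_lit 4) .nil .nil)))) (.nd (nat_lit 5) 
(.lf (nat_lit 108183) (.g (nat_lit 2502) (.e (nat_lit 5222) (nat_lit 296) (.e (nat_lit 163933) (nat_lit 17) (.e (nat_lit 466971) (nat_lit 21) (.e (nat_lit 164321) (nat_lit 229) (.e (nat_lit 122917) (nat_lit 15) (.e (nat_lit 368384) (nat_lit 0) .nil)))))) (.g (nat_lit 5) .nil .nil))) 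
(.lf (nat_lit 108215) (.g (nat_lit 1662) (.e (nat_lit 5224) (nat_lit 296) (.e (nat_lit 163868) (nat_lit 2) (.e (nat_lit 196656) (nat_lit 11) (.e (nat_lit 16463) (nat_lit 13) .nil)))) .nil)))) (.nd (nat_lit 4) (.nd (nat_lit 5) 
(.lf (nat_lit 108175) (.g (nat_lit 1175) (.e (nat_lit 5222) (nat_lit 296) (.e (nat_lit 163933) (nat_lit 17) (.e (nat_lit 466967) (nat_lit 20) (.e (nat_lit 2443) (nat_lit 157) (.e (nat_lit 5170) (nat_lit 292) (.e (nat_lit 1079) (nat_lit 81) (.e (nat_lit 1582) (nat_lit 111) (.e (nat_lit 368384) (nat_lit 0) .nil)))))))) (.g (nat_lit 4) .nil .nil))) 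
(.lf (nat_lit 108207) (.g (nat_lit 2619) (.e (nat_lit 5223) (nat_lit 296) (.e (nat_lit 163884) (nat_lit 5) (.e (nat_lit 221194) (nat_lit 11) (.e (nat_lit 336222) (nat_lit 13) (.e (nat_lit 393283) (nat_lit 24) (.e (nat_lit 434209) (nat_lit 18) .nil)))))) (.g (nat_lit 0) .nil .nil)))) (.nd (nat_lit 5) 
(.lf (nat_lit 108191) (.g (nat_lit 1319) (.e (nat_lit 5222) (nat_lit 296) (.e (nat_lit 163933) (nat_lit 17) (.e (nat_lit 466972) (nat_lit 21) (.e (nat_lit 171776) (nat_lit 229) .nil)))) .nil)) 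
(.lf (nat_lit 108223) (.g (nat_lit 4771) (.e (nat_lit 5224) (nat_lit 296) (.e (nat_lit 163873) (nat_lit 3) (.e (nat_lit 204829) (nat_lit 18) (.e (nat_lit 57927) (nat_lit 282) (.e (nat_lit 164084) (nat_lit 73) (.e (nat_lit 336012) (nat_lit 2) (.e (nat_lit 90172) (nat_lit 14) (.e (nat_lit 180229) (nat_lit 0) .nil)))))))) (.g (nat_lit 7) .nil .nil)))))))))

noncomputable def tv1465 : DT := (.nd (nat_lit 0) (.nd (nat_lit 1) (.nd (nat_lit 2) (.nd (nat_lit 3) (.nd (nat_lit 4) (.nd (nat_lit 5) 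
(.lf (nat_lit 108224) (.g (nat_lit 3620) (.e (nat_lit 5224) (nat_lit 296) (.e (nat_lit 163873) (nat_lit 3) (.e (nat_lit 204829) (nat_lit 18) (.e (nat_lit 57931) (nat_lit 282) (.e (nat_lit 164084) (nat_lit 73) (.e (nat_lit 336012) (nat_lit 2) (.e (nat_lit 90172) (nat_lit 14) (.e (nat_lit 180229) (nat_lit 0) .nil)))))))) (.g (nat_lit 5) .nil .nil))) 
(.lf (nat_lit 108256) (.g (nat_lit 1531) (.e (nat_lit 5224) (nat_lit 296) (.e (nat_lit 163884) (nat_lit 5) (.e (nat_lit 221194) (nat_lit 11) (.e (nat_lit 336220) (nat_lit 13) .nil)))) .nil))) (.nd (nat_lit 5) 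
(.lf (nat_lit 108240) (.g (nat_lit 2931) (.e (nat_lit 5224) (nat_lit 296) (.e (nat_lit 163875) (nat_lit 3) (.e (nat_lit 204830) (nat_lit 18) (.e (nat_lit 57931) (nat_lit 282) (.e (nat_lit 164084) (nat_lit 73) .nil))))) .nil)) 
(.lf (nat_lit 108272) (.g (nat_lit 2327) (.e (nat_lit 5224) (nat_lit 296) (.e (nat_lit 163886) (nat_lit 5) (.e (nat_lit 221208) (nat_lit 21) (.e (nat_lit 164330) (nat_lit 230) (.e (nat_lit 171776) (nat_lit 66) (.e (nat_lit 114714) (nat_lit 22) (.e (nat_lit 90174) (nat_lit 14) (.e (nat_lit 180228) (nat_lit 0) .nil)))))))) (.g (nat_lit 4) .nil .nil))))) (.nd (nat_lit 4) (.nd (nat_lit 5) 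
(.lf (nat_lit 108232) (.g (nat_lit 3374) (.e (nat_lit 5224) (nat_lit 296) (.e (nat_lit 163875) (nat_lit 3) (.e (nat_lit 204829) (nat_lit 18) (.e (nat_lit 57931) (nat_lit 282) (.e (nat_lit 164084) (nat_lit 73) (.e (nat_lit 336027) (nat_lit 3) (.e (nat_lit 98367) (nat_lit 27) (.e (nat_lit 434209) (nat_lit 18) .nil)))))))) (.g (nat_lit 4) .nil .nil))) 
(.lf (nat_lit 108264) (.g (nat_lit 2464) (.e (nat_lit 5224) (nat_lit 296) (.e (nat_lit 163886) (nat_lit 5) (.e (nat_lit 221193) (nat_lit 11) (.e (nat_lit 336221) (nat_lit 13) (.e (nat_lit 393283) (nat_lit 24) (.e (nat_lit 434209) (nat_lit 18) .nil)))))) (.g (nat_lit 0) .nil .nil)))) (.nd (nat_lit 5) 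
(.lf (nat_lit 108248) (.g (nat_lit 2773) (.e (nat_lit 5224) (nat_lit 296) (.e (nat_lit 163884) (nat_lit 5) (.e (nat_lit 221193) (nat_lit 11) (.e (nat_lit 336222) (nat_lit 13) (.e (nat_lit 393283) (nat_lit 24) (.e (nat_lit 434209) (nat_lit 18) .nil)))))) (.g (nat_lit 0) .nil .nil))) 
(.lf (nat_lit 108280) (.g (nat_lit 2387) (.e (nat_lit 5224) (nat_lit 296) (.e (nat_lit 163907) (nat_lit 12) (.e (nat_lit 426294) (nat_lit 11) (.e (nat_lit 458803) (nat_lit 36) (.e (nat_lit 639008) (nat_lit 13) (.e (nat_lit 1595) (nat_lit 111) (.e (nat_lit 368384) (nat_lit 0) .nil))))))) (.g (nat_lit 6) .nil .nil)))))) (.nd (nat_lit 3) (.nd (nat_lit 4) (.nd (nat_lit 5) 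
(.lf (nat_lit 108228) (.g (nat_lit 2630) (.e (nat_lit 5224) (nat_lit 296) (.e (nat_lit 163875) (nat_lit 3) (.e (nat_lit 204829) (nat_lit 18) (.e (nat_lit 57926) (nat_lit 282) (.e (nat_lit 164084) (nat_lit 73) .nil))))) .nil)) 
(.lf (nat_lit 108260) (.g (nat_lit 2895) (.e (nat_lit 5224) (nat_lit 296) (.e (nat_lit 163884) (nat_lit 5) (.e (nat_lit 221207) (nat_lit 21) (.e (nat_lit 164325) (nat_lit 230) (.e (nat_lit 171776) (nat_lit 66) (.e (nat_lit 114714) (nat_lit 22) (.e (nat_lit 90172) (nat_lit 14) (.e (nat_lit 180229) (nat_lit 0) .nil)))))))) (.g (nat_lit 4) .nil .nil)))) (.nd (nat_lit 5) 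
(.lf (nat_lit 108244) (.g (nat_lit 1989) (.e (nat_lit 5224) (nat_lit 296) (.e (nat_lit 163877) (nat_lit 4) (.e (nat_lit 213032) (nat_lit 11) (.e (nat_lit 24629) (nat_lit 9) (.e (nat_lit 336434) (nat_lit 30) (.e (nat_lit 450564) (nat_lit 0) .nil)))))) (.g (nat_lit 4) .nil .nil))) 
(.lf (nat_lit 108276) (.g (nat_lit 2448) (.e (nat_lit 5224) (nat_lit 296) (.e (nat_lit 163907) (nat_lit 12) (.e (nat_lit 426294) (nat_lit 11) (.e (nat_lit 458803) (nat_lit 36) (.e (nat_lit 639007) (nat_lit 13) (.e (nat_lit 1586) (nat_lit 111) (.e (nat_lit 368384) (nat_lit 0) .nil))))))) (.g (nat_lit 6) .nil .nil))))) (.nd (nat_lit 4) (.nd (nat_lit 5) 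
(.lf (nat_lit 108236) (.g (nat_lit 1804) (.e (nat_lit 5224) (nat_lit 296) (.e (nat_lit 163875) (nat_lit 3) (.e (nat_lit 204830) (nat_lit 18) (.e (nat_lit 57929) (nat_lit 282) .nil)))) .nil)) 
(.lf (nat_lit 108268) (.g (nat_lit 1978) (.e (nat_lit 5224) (nat_lit 296) (.e (nat_lit 163886) (nat_lit 5) (.e (nat_lit 221206) (nat_lit 21) (.e (nat_lit 164325) (nat_lit 230) (.e (nat_lit 171776) (nat_lit 66) (.e (nat_lit 114714) (nat_lit 22) (.e (nat_lit 90172) (nat_lit 14) (.e (nat_lit 180229) (nat_lit 0) .nil)))))))) (.g (nat_lit 4) .nil .nil)))) (.nd (nat_lit 5) 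
(.lf (nat_lit 108252) (.g (nat_lit 1317) (.e (nat_lit 5224) (nat_lit 296) (.e (nat_lit 163884) (nat_lit 5) (.e (nat_lit 221194) (nat_lit 11) (.e (nat_lit 336087) (nat_lit 9) .nil)))) .nil)) 
(.lf (nat_lit 108284) (.g (nat_lit 1272) (.e (nat_lit 5224) (nat_lit 296) (.e (nat_lit 163922) (nat_lit 15) (.e (nat_lit 450592) (nat_lit 14) (.e (nat_lit 639008) (nat_lit 13) (.e (nat_lit 1598) (nat_lit 111) (.e (nat_lit 368384) (nat_lit 0) .nil)))))) (.g (nat_lit 4) .nil .nil))))))) (.nd (nat_lit 2) (.nd (nat_lit 3) (.nd (nat_lit 4) (.nd (nat_lit 5) 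
(.lf (nat_lit 108226) (.g (nat_lit 814) (.e (nat_lit 5224) (nat_lit 296) (.e (nat_lit 163875) (nat_lit 3) (.e (nat_lit 204817) (nat_lit 17) .nil))) .nil)) 
(.lf (nat_lit 108258) (.g (nat_lit 1726) (.e (nat_lit 5224) (nat_lit 296) (.e (nat_lit 163884) (nat_lit 5) (.e (nat_lit 221194) (nat_lit 11) (.e (nat_lit 336222) (nat_lit 13) (.e (nat_lit 393284) (nat_lit 24) (.e (nat_lit 434209) (nat_lit 18) .nil)))))) (.g (nat_lit 4) .nil .nil)))) (.nd (nat_lit 5) 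
(.lf (nat_lit 108242) (.g (nat_lit 3203) (.e (nat_lit 5224) (nat_lit 296) (.e (nat_lit 163875) (nat_lit 3) (.e (nat_lit 204830) (nat_lit 18) (.e (nat_lit 57931) (nat_lit 282) (.e (nat_lit 164084) (nat_lit 73) (.e (nat_lit 336012) (nat_lit 2) (.e (nat_lit 90174) (nat_lit 14) (.e (nat_lit 180228) (nat_lit 0) .nil)))))))) (.g (nat_lit 4) .nil .nil))) 
(.lf (nat_lit 108274) (.g (nat_lit 1852) (.e (nat_lit 5224) (nat_lit 296) (.e (nat_lit 163886) (nat_lit 5) (.e (nat_lit 221208) (nat_lit 21) (.e (nat_lit 164331) (nat_lit 230) (.e (nat_lit 171776) (nat_lit 66) (.e (nat_lit 114714) (nat_lit 22) (.e (nat_lit 90172) (nat_lit 14) (.e (nat_lit 180229) (nat_lit 0) .nil)))))))) (.g (nat_lit 4) .nil .nil))))) (.nd (nat_lit 4) (.nd (nat_lit 5) 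
(.lf (nat_lit 108234) (.g (nat_lit 5002) (.e (nat_lit 5224) (nat_lit 296) (.e (nat_lit 163875) (nat_lit 3) (.e (nat_lit 204830) (nat_lit 18) (.e (nat_lit 57926) (nat_lit 282) (.e (nat_lit 164084) (nat_lit 73) (.e (nat_lit 336012) (nat_lit 2) (.e (nat_lit 90172) (nat_lit 14) (.e (nat_lit 180229) (nat_lit 0) .nil)))))))) (.g (nat_lit 7) .nil .nil))) 
(.lf (nat_lit 108266) (.g (nat_lit 2647) (.e (nat_lit 5224) (nat_lit 296) (.e (nat_lit 163886) (nat_lit 5) (.e (nat_lit 221194) (nat_lit 11) (.e (nat_lit 336213) (nat_lit 13) (.e (nat_lit 393289) (nat_lit 25) (.e (nat_lit 458774) (nat_lit 18) .nil)))))) (.g (nat_lit 4) .nil .nil)))) (.nd (nat_lit 5) 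
(.lf (nat_lit 108250) (.g (nat_lit 2568) (.e (nat_lit 5224) (nat_lit 296) (.e (nat_lit 163884) (nat_lit 5) (.e (nat_lit 221194) (nat_lit 11) (.e (nat_lit 336076) (nat_lit 9) (.e (nat_lit 336432) (nat_lit 30) (.e (nat_lit 450565) (nat_lit 0) .nil)))))) (.g (nat_lit 4) .nil .nil))) 
(.lf (nat_lit 108282) (.g (nat_lit 1787) (.e (nat_lit 5224) (nat_lit 296) (.e (nat_lit 163907) (nat_lit 12) (.e (nat_lit 426294) (nat_lit 11) (.e (nat_lit 458803) (nat_lit 36) (.e (nat_lit 639008) (nat_lit 13) (.e (nat_lit 1599) (nat_lit 111) (.e (nat_lit 368384) (nat_lit 0) .nil))))))) (.g (nat_lit 4) .nil .nil)))))) (.nd (nat_lit 3) (.nd (nat_lit 4) (.nd (nat_lit 5) 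
(.lf (nat_lit 108230) (.g (nat_lit 4732) (.e (nat_lit 5224) (nat_lit 296) (.e (nat_lit 163875) (nat_lit 3) (.e (nat_lit 204829) (nat_lit 18) (.e (nat_lit 57931) (nat_lit 282) (.e (nat_lit 164084) (nat_lit 73) (.e (nat_lit 336012) (nat_lit 2) (.e (nat_lit 90172) (nat_lit 14) (.e (nat_lit 180229) (nat_lit 0) .nil)))))))) (.g (nat_lit 6) .nil .nil))) 
(.lf (nat_lit 108262) (.g (nat_lit 1738) (.e (nat_lit 5224) (nat_lit 296) (.e (nat_lit 163886) (nat_lit 5) (.e (nat_lit 221193) (nat_lit 11) (.e (nat_lit 336085) (nat_lit 9) (.e (nat_lit 336432) (nat_lit 30) (.e (nat_lit 450565) (nat_lit 0) .nil)))))) (.g (nat_lit 5) .nil .nil)))) (.nd (nat_lit 5) 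
(.lf (nat_lit 108246) (.g (nat_lit 2025) (.e (nat_lit 5224) (nat_lit 296) (.e (nat_lit 163884) (nat_lit 5) (.e (nat_lit 221193) (nat_lit 11) (.e (nat_lit 336220) (nat_lit 13) (.e (nat_lit 393283) (nat_lit 24) (.e (nat_lit 434209) (nat_lit 18) .nil)))))) (.g (nat_lit 5) .nil .nil))) 
(.lf (nat_lit 108278) (.g (nat_lit 2178) (.e (nat_lit 5224) (nat_lit 296) (.e (nat_lit 163907) (nat_lit 12) (.e (nat_lit 426294) (nat_lit 11) (.e (nat_lit 458803) (nat_lit 36) (.e (nat_lit 639007) (nat_lit 13) (.e (nat_lit 1598) (nat_lit 111) (.e (nat_lit 368384) (nat_lit 0) .nil))))))) (.g (nat_lit 6) .nil .nil))))) (.nd (nat_lit 4) (.nd (nat_lit 5) 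
(.lf (nat_lit 108238) (.g (nat_lit 2117) (.e (nat_lit 5224) (nat_lit 296) (.e (nat_lit 163875) (nat_lit 3) (.e (nat_lit 204830) (nat_lit 18) (.e (nat_lit 57929) (nat_lit 282) (.e (nat_lit 164088) (nat_lit 73) .nil))))) .nil)) 
(.lf (nat_lit 108270) (.g (nat_lit 2429) (.e (nat_lit 5224) (nat_lit 296) (.e (nat_lit 163886) (nat_lit 5) (.e (nat_lit 221207) (nat_lit 21) (.e (nat_lit 164325) (nat_lit 230) (.e (nat_lit 171776) (nat_lit 66) (.e (nat_lit 114716) (nat_lit 22) (.e (nat_lit 90172) (nat_lit 14) (.e (nat_lit 180229) (nat_lit 0) .nil)))))))) (.g (nat_lit 4) .nil .nil)))) (.nd (nat_lit 5) 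
(.lf (nat_lit 108254) (.g (nat_lit 1361) (.e (nat_lit 5224) (nat_lit 296) (.e (nat_lit 163884) (nat_lit 5) (.e (nat_lit 221194) (nat_lit 11) (.e (nat_lit 336214) (nat_lit 13) .nil)))) .nil)) 
(.lf (nat_lit 108286) (.g (nat_lit 1960) (.e (nat_lit 5224) (nat_lit 296) (.e (nat_lit 163923) (nat_lit 15) (.e (nat_lit 450592) (nat_lit 14) (.e (nat_lit 639008) (nat_lit 13) (.e (nat_lit 1586) (nat_lit 111) (.e (nat_lit 368384) (nat_lit 0) .nil)))))) (.g (nat_lit 5) .nil .nil)))))))) (.nd (nat_lit 1) (.nd (nat_lit 2) (.nd (nat_lit 3) (.nd (nat_lit 4) (.nd (nat_lit 5) 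
(.lf (nat_lit 108225) (.g (nat_lit 2813) (.e (nat_lit 5224) (nat_lit 296) (.e (nat_lit 163873) (nat_lit 3) (.e (nat_lit 204829) (nat_lit 18) (.e (nat_lit 57931) (nat_lit 282) (.e (nat_lit 164084) (nat_lit 73) (.e (nat_lit 336027) (nat_lit 3) (.e (nat_lit 98366) (nat_lit 27) (.e (nat_lit 434209) (nat_lit 18) .nil)))))))) (.g (nat_lit 4) .nil .nil))) 
(.lf (nat_lit 108257) (.g (nat_lit 3025) (.e (nat_lit 5224) (nat_lit 296) (.e (nat_lit 163884) (nat_lit 5) (.e (nat_lit 221194) (nat_lit 11) (.e (nat_lit 336221) (nat_lit 13) (.e (nat_lit 393283) (nat_lit 24) (.e (nat_lit 434209) (nat_lit 18) .nil)))))) (.g (nat_lit 0) .nil .nil)))) (.nd (nat_lit 5) 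
(.lf (nat_lit 108241) (.g (nat_lit 4219) (.e (nat_lit 5224) (nat_lit 296) (.e (nat_lit 163875) (nat_lit 3) (.e (nat_lit 204830) (nat_lit 18) (.e (nat_lit 57931) (nat_lit 282) (.e (nat_lit 164084) (nat_lit 73) (.e (nat_lit 336012) (nat_lit 2) (.e (nat_lit 90172) (nat_lit 14) (.e (nat_lit 180229) (nat_lit 0) .nil)))))))) (.g (nat_lit 6) .nil .nil))) 
(.lf (nat_lit 108273) (.g (nat_lit 2160) (.e (nat_lit 5224) (nat_lit 296) (.e (nat_lit 163886) (nat_lit 5) (.e (nat_lit 221208) (nat_lit 21) (.e (nat_lit 164330) (nat_lit 230) (.e (nat_lit 171776) (nat_lit 66) (.e (nat_lit 114716) (nat_lit 22) (.e (nat_lit 90172) (nat_lit 14) (.e (nat_lit 180229) (nat_lit 0) .nil)))))))) (.g (nat_lit 4) .nil .nil))))) (.nd (nat_lit 4) (.nd (nat_lit 5) 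
(.lf (nat_lit 108233) (.g (nat_lit 747) (.e (nat_lit 5224) (nat_lit 296) (.e (nat_lit 163875) (nat_lit 3) (.e (nat_lit 204830) (nat_lit 18) .nil))) .nil)) 
(.lf (nat_lit 108265) (.g (nat_lit 2467) (.e (nat_lit 5224) (nat_lit 296) (.e (nat_lit 163886) (nat_lit 5) (.e (nat_lit 221193) (nat_lit 11) (.e (nat_lit 336222) (nat_lit 13) (.e (nat_lit 393283) (nat_lit 24) (.e (nat_lit 434209) (nat_lit 18) .nil)))))) (.g (nat_lit 0) .nil .nil)))) (.nd (nat_lit 5) 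
(.lf (nat_lit 108249) (.g (nat_lit 1533) (.e (nat_lit 5224) (nat_lit 296) (.e (nat_lit 163884) (nat_lit 5) (.e (nat_lit 221194) (nat_lit 11) (.e (nat_lit 336074) (nat_lit 9) .nil)))) .nil)) 
(.lf (nat_lit 108281) (.g (nat_lit 2158) (.e (nat_lit 5224) (nat_lit 296) (.e (nat_lit 163907) (nat_lit 12) (.e (nat_lit 426294) (nat_lit 11) (.e (nat_lit 458803) (nat_lit 36) (.e (nat_lit 639008) (nat_lit 13) (.e (nat_lit 1598) (nat_lit 111) (.e (nat_lit 368384) (nat_lit 0) .nil))))))) (.g (nat_lit 6) .nil .nil)))))) (.nd (nat_lit 3) (.nd (nat_lit 4) (.nd (nat_lit 5) 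
(.lf (nat_lit 108229) (.g (nat_lit 2780) (.e (nat_lit 5224) (nat_lit 296) (.e (nat_lit 163875) (nat_lit 3) (.e (nat_lit 204829) (nat_lit 18) (.e (nat_lit 57930) (nat_lit 282) (.e (nat_lit 164084) (nat_lit 73) (.e (nat_lit 336012) (nat_lit 2) (.e (nat_lit 90172) (nat_lit 14) (.e (nat_lit 180229) (nat_lit 0) .nil)))))))) (.g (nat_lit 4) .nil .nil))) 
(.lf (nat_lit 108261) (.g (nat_lit 2695) (.e (nat_lit 5224) (nat_lit 296) (.e (nat_lit 163884) (nat_lit 5) (.e (nat_lit 221208) (nat_lit 21) (.e (nat_lit 164330) (nat_lit 230) (.e (nat_lit 171776) (nat_lit 66) (.e (nat_lit 114714) (nat_lit 22) (.e (nat_lit 90172) (nat_lit 14) (.e (nat_lit 180229) (nat_lit 0) .nil)))))))) (.g (nat_lit 4) .nil .nil)))) (.nd (nat_lit 5) 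
(.lf (nat_lit 108245) (.g (nat_lit 1970) (.e (nat_lit 5224) (nat_lit 296) (.e (nat_lit 163884) (nat_lit 5) (.e (nat_lit 221193) (nat_lit 11) (.e (nat_lit 336085) (nat_lit 9) (.e (nat_lit 336432) (nat_lit 30) (.e (nat_lit 450565) (nat_lit 0) .nil)))))) (.g (nat_lit 5) .nil .nil))) 
(.lf (nat_lit 108277) (.g (nat_lit 2391) (.e (nat_lit 5224) (nat_lit 296) (.e (nat_lit 163907) (nat_lit 12) (.e (nat_lit 426294) (nat_lit 11) (.e (nat_lit 458803) (nat_lit 36) (.e (nat_lit 639007) (nat_lit 13) (.e (nat_lit 1595) (nat_lit 111) (.e (nat_lit 368384) (nat_lit 0) .nil))))))) (.g (nat_lit 6) .nil .nil))))) (.nd (nat_lit 4) (.nd (nat_lit 5) 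
(.lf (nat_lit 108237) (.g (nat_lit 3780) (.e (nat_lit 5224) (nat_lit 296) (.e (nat_lit 163875) (nat_lit 3) (.e (nat_lit 204830) (nat_lit 18) (.e (nat_lit 57929) (nat_lit 282) (.e (nat_lit 164084) (nat_lit 73) (.e (nat_lit 336012) (nat_lit 2) (.e (nat_lit 90174) (nat_lit 14) (.e (nat_lit 180228) (nat_lit 0) .nil)))))))) (.g (nat_lit 6) .nil .nil))) 
(.lf (nat_lit 108269) (.g (nat_lit 2740) (.e (nat_lit 5224) (nat_lit 296) (.e (nat_lit 163886) (nat_lit 5) (.e (nat_lit 221207) (nat_lit 21) (.e (nat_lit 164325) (nat_lit 230) (.e (nat_lit 171776) (nat_lit 66) (.e (nat_lit 114714) (nat_lit 22) (.e (nat_lit 90174) (nat_lit 14) (.e (nat_lit 180228) (nat_lit 0) .nil)))))))) (.g (nat_lit 4) .nil .nil)))) (.nd (nat_lit 5) 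
(.lf (nat_lit 108253) (.g (nat_lit 3317) (.e (nat_lit 5224) (nat_lit 296) (.e (nat_lit 163884) (nat_lit 5) (.e (nat_lit 221194) (nat_lit 11) (.e (nat_lit 336213) (nat_lit 13) (.e (nat_lit 393289) (nat_lit 25) (.e (nat_lit 458774) (nat_lit 18) .nil)))))) (.g (nat_lit 5) .nil .nil))) 
(.lf (nat_lit 108285) (.g (nat_lit 635) (.e (nat_lit 5224) (nat_lit 296) (.e (nat_lit 163923) (nat_lit 15) (.e (nat_lit 450563) (nat_lit 0) .nil))) .nil)))))) (.nd (nat_lit 2) (.nd (nat_lit 3) (.nd (nat_lit 4) (.nd (nat_lit 5) 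
(.lf (nat_lit 108227) (.g (nat_lit 699) (.e (nat_lit 5224) (nat_lit 296) (.e (nat_lit 163875) (nat_lit 3) (.e (nat_lit 204829) (nat_lit 18) .nil))) .nil)) 
(.lf (nat_lit 108259) (.g (nat_lit 2457) (.e (nat_lit 5224) (nat_lit 296) (.e (nat_lit 163884) (nat_lit 5) (.e (nat_lit 221206) (nat_lit 21) (.e (nat_lit 164330) (nat_lit 230) (.e (nat_lit 171776) (nat_lit 66) (.e (nat_lit 114714) (nat_lit 22) (.e (nat_lit 90172) (nat_lit 14) (.e (nat_lit 180229) (nat_lit 0) .nil)))))))) (.g (nat_lit 4) .nil .nil)))) (.nd (nat_lit 5) 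
(.lf (nat_lit 108243) (.g (nat_lit 2595) (.e (nat_lit 5224) (nat_lit 296) (.e (nat_lit 163875) (nat_lit 3) (.e (nat_lit 204831) (nat_lit 18) (.e (nat_lit 57931) (nat_lit 282) (.e (nat_lit 164084) (nat_lit 73) (.e (nat_lit 336012) (nat_lit 2) (.e (nat_lit 90174) (nat_lit 14) (.e (nat_lit 180228) (nat_lit 0) .nil)))))))) (.g (nat_lit 4) .nil .nil))) 
(.lf (nat_lit 108275) (.g (nat_lit 1845) (.e (nat_lit 5224) (nat_lit 296) (.e (nat_lit 163903) (nat_lit 12) (.e (nat_lit 426428) (nat_lit 17) (.e (nat_lit 90170) (nat_lit 13) .nil)))) .nil)))) (.nd (nat_lit 4) (.nd (nat_lit 5) 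
(.lf (nat_lit 108235) (.g (nat_lit 5652) (.e (nat_lit 5224) (nat_lit 296) (.e (nat_lit 163875) (nat_lit 3) (.e (nat_lit 204830) (nat_lit 18) (.e (nat_lit 57927) (nat_lit 282) (.e (nat_lit 164084) (nat_lit 73) (.e (nat_lit 336012) (nat_lit 2) (.e (nat_lit 90172) (nat_lit 14) (.e (nat_lit 180229) (nat_lit 0) .nil)))))))) (.g (nat_lit 0) .nil .nil))) 
(.lf (nat_lit 108267) (.g (nat_lit 2496) (.e (nat_lit 5224) (nat_lit 296) (.e (nat_lit 163886) (nat_lit 5) (.e (nat_lit 221194) (nat_lit 11) (.e (nat_lit 336221) (nat_lit 13) (.e (nat_lit 393283) (nat_lit 24) (.e (nat_lit 434209) (nat_lit 18) .nil)))))) (.g (nat_lit 0) .nil .nil)))) (.nd (nat_lit 5) 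
(.lf (nat_lit 108251) (.g (nat_lit 2299) (.e (nat_lit 5224) (nat_lit 296) (.e (nat_lit 163884) (nat_lit 5) (.e (nat_lit 221194) (nat_lit 11) (.e (nat_lit 336076) (nat_lit 9) (.e (nat_lit 336434) (nat_lit 30) .nil))))) .nil)) 
(.lf (nat_lit 108283) (.g (nat_lit 1705) (.e (nat_lit 5224) (nat_lit 296) (.e (nat_lit 163907) (nat_lit 12) (.e (nat_lit 426320) (nat_lit 12) (.e (nat_lit 475193) (nat_lit 38) .nil)))) .nil))))) (.nd (nat_lit 3) (.nd (nat_lit 4) (.nd (nat_lit 5) 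
(.lf (nat_lit 108231) (.g (nat_lit 3728) (.e (nat_lit 5224) (nat_lit 296) (.e (nat_lit 163875) (nat_lit 3) (.e (nat_lit 204829) (nat_lit 18) (.e (nat_lit 57931) (nat_lit 282) (.e (nat_lit 164084) (nat_lit 73) (.e (nat_lit 336012) (nat_lit 2) (.e (nat_lit 90174) (nat_lit 14) (.e (nat_lit 180228) (nat_lit 0) .nil)))))))) (.g (nat_lit 5) .nil .nil))) 
(.lf (nat_lit 108263) (.g (nat_lit 2226) (.e (nat_lit 5224) (nat_lit 296) (.e (nat_lit 163886) (nat_lit 5) (.e (nat_lit 221193) (nat_lit 11) (.e (nat_lit 336220) (nat_lit 13) (.e (nat_lit 393289) (nat_lit 25) (.e (nat_lit 458774) (nat_lit 18) .nil)))))) (.g (nat_lit 0) .nil .nil)))) (.nd (nat_lit 5) 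
(.lf (nat_lit 108247) (.g (nat_lit 2692) (.e (nat_lit 5224) (nat_lit 296) (.e (nat_lit 163884) (nat_lit 5) (.e (nat_lit 221193) (nat_lit 11) (.e (nat_lit 336221) (nat_lit 13) (.e (nat_lit 393283) (nat_lit 24) (.e (nat_lit 434209) (nat_lit 18) .nil)))))) (.g (nat_lit 0) .nil .nil))) 
(.lf (nat_lit 108279) (.g (nat_lit 2433) (.e (nat_lit 5224) (nat_lit 296) (.e (nat_lit 163907) (nat_lit 12) (.e (nat_lit 426294) (nat_lit 11) (.e (nat_lit 458803) (nat_lit 36) (.e (nat_lit 639008) (nat_lit 13) (.e (nat_lit 1586) (nat_lit 111) (.e (nat_lit 368384) (nat_lit 0) .nil))))))) (.g (nat_lit 6) .nil .nil))))) (.nd (nat_lit 4) (.nd (nat_lit 5) 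
(.lf (nat_lit 108239) (.g (nat_lit 2583) (.e (nat_lit 5224) (nat_lit 296) (.e (nat_lit 163875) (nat_lit 3) (.e (nat_lit 204830) (nat_lit 18) (.e (nat_lit 57930) (nat_lit 282) (.e (nat_lit 164084) (nat_lit 73) (.e (nat_lit 336027) (nat_lit 3) (.e (nat_lit 98366) (nat_lit 27) (.e (nat_lit 434209) (nat_lit 18) .nil)))))))) (.g (nat_lit 4) .nil .nil))) 
(.lf (nat_lit 108271) (.g (nat_lit 2080) (.e (nat_lit 5224) (nat_lit 296) (.e (nat_lit 163886) (nat_lit 5) (.e (nat_lit 221207) (nat_lit 21) (.e (nat_lit 164326) (nat_lit 230) (.e (nat_lit 171776) (nat_lit 66) (.e (nat_lit 114714) (nat_lit 22) (.e (nat_lit 90172) (nat_lit 14) (.e (nat_lit 180229) (nat_lit 0) .nil)))))))) (.g (nat_lit 4) .nil .nil)))) (.nd (nat_lit 5) 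
(.lf (nat_lit 108255) (.g (nat_lit 1124) (.e (nat_lit 5224) (nat_lit 296) (.e (nat_lit 163884) (nat_lit 5) (.e (nat_lit 221194) (nat_lit 11) (.e (nat_lit 336215) (nat_lit 13) .nil)))) .nil)) 
(.lf (nat_lit 108287) (.g (nat_lit 1942) (.e (nat_lit 5224) (nat_lit 296) (.e (nat_lit 163923) (nat_lit 15) (.e (nat_lit 450592) (nat_lit 14) (.e (nat_lit 639008) (nat_lit 13) (.e (nat_lit 1595) (nat_lit 111) (.e (nat_lit 368384) (nat_lit 0) .nil)))))) (.g (nat_lit 5) .nil .nil)))))))))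

noncomputable def tv1466 : DT := (.nd (nat_lit 0) (.nd (nat_lit 1) (.nd (nat_lit 2) (.nd (nat_lit 3) (.nd (nat_lit 4) (.nd (nat_lit 5) (.nd (nat_lit 6) 
(.lf (nat_lit 108288) (.g (nat_lit 1721) (.e (nat_lit 5224) (nat_lit 296) (.e (nat_lit 163923) (nat_lit 15) (.e (nat_lit 450592) (nat_lit 14) (.e (nat_lit 639008) (nat_lit 13) (.e (nat_lit 1598) (nat_lit 111) (.e (nat_lit 368384) (nat_lit 0) .nil)))))) (.g (nat_lit 5) .nil .nil))) 
(.lf (nat_lit 108352) (.g (nat_lit 2157) (.e (nat_lit 5245) (nat_lit 298) (.e (nat_lit 1239) (nat_lit 91) (.e (nat_lit 90170) (nat_lit 13) (.e (nat_lit 172106) (nat_lit 10) (.e (nat_lit 434231) (nat_lit 23) (.e (nat_lit 532490) (nat_lit 0) (.e (nat_lit 6114) (nat_lit 332) (.e (nat_lit 1076) (nat_lit 81) .nil)))))))) (.g (nat_lit 4) .nil .nil)))) (.nd (nat_lit 6) 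
(.lf (nat_lit 108320) (.g (nat_lit 678) (.e (nat_lit 5229) (nat_lit 296) (.e (nat_lit 163923) (nat_lit 15) (.e (nat_lit 450592) (nat_lit 14) (.e (nat_lit 639008) (nat_lit 13) .nil)))) .nil)) 
(.lf (nat_lit 108384) (.g (nat_lit 3412) (.e (nat_lit 5245) (nat_lit 298) (.e (nat_lit 1633) (nat_lit 114) (.e (nat_lit 385074) (nat_lit 31) (.e (nat_lit 573484) (nat_lit 13) (.e (nat_lit 65610) (nat_lit 10) (.e (nat_lit 344115) (nat_lit 20) (.e (nat_lit 507908) (nat_lit 0) .nil))))))) (.g (nat_lit 7) .nil .nil))))) (.nd (nat_lit 5) (.nd (nat_lit 6) 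
(.lf (nat_lit 108304) (.g (nat_lit 2570) (.e (nat_lit 5224) (nat_lit 296) (.e (nat_lit 163933) (nat_lit 17) (.e (nat_lit 466972) (nat_lit 21) (.e (nat_lit 164305) (nat_lit 226) (.e (nat_lit 1065) (nat_lit 81) (.e (nat_lit 1583) (nat_lit 111) (.e (nat_lit 368384) (nat_lit 0) .nil))))))) (.g (nat_lit 5) .nil .nil))) 
(.lf (nat_lit 108368) (.g (nat_lit 3483) (.e (nat_lit 5245) (nat_lit 298) (.e (nat_lit 1256) (nat_lit 92) (.e (nat_lit 98370) (nat_lit 28) (.e (nat_lit 442427) (nat_lit 23) (.e (nat_lit 204846) (nat_lit 24) (.e (nat_lit 319505) (nat_lit 10) .nil)))))) (.g (nat_lit 6) .nil .nil)))) (.nd (nat_lit 6) 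
(.lf (nat_lit 108336) (.g (nat_lit 1013) (.e (nat_lit 5234) (nat_lit 296) (.e (nat_lit 163905) (nat_lit 12) (.e (nat_lit 426566) (nat_lit 34) .nil))) .nil)) 
(.lf (nat_lit 108400) (.g (nat_lit 3358) (.e (nat_lit 5255) (nat_lit 298) (.e (nat_lit 1239) (nat_lit 91) (.e (nat_lit 90170) (nat_lit 13) (.e (nat_lit 172106) (nat_lit 10) (.e (nat_lit 434230) (nat_lit 23) .nil))))) .nil))))) (.nd (nat_lit 4) (.nd (nat_lit 5) (.nd (nat_lit 6) 
(.lf (nat_lit 108296) (.g (nat_lit 1689) (.e (nat_lit 5224) (nat_lit 296) (.e (nat_lit 163933) (nat_lit 17) (.e (nat_lit 466967) (nat_lit 20) (.e (nat_lit 2443) (nat_lit 157) (.e (nat_lit 5120) (nat_lit 292) (.e (nat_lit 1079) (nat_lit 81) (.e (nat_lit 1582) (nat_lit 111) (.e (nat_lit 368384) (nat_lit 0) .nil)))))))) (.g (nat_lit 5) .nil .nil))) 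
(.lf (nat_lit 108360) (.g (nat_lit 4187) (.e (nat_lit 5245) (nat_lit 298) (.e (nat_lit 1239) (nat_lit 91) (.e (nat_lit 90170) (nat_lit 13) (.e (nat_lit 172106) (nat_lit 10) (.e (nat_lit 434231) (nat_lit 23) (.e (nat_lit 532525) (nat_lit 8) (.e (nat_lit 327704) (nat_lit 10) .nil))))))) (.g (nat_lit 6) .nil .nil)))) (.nd (nat_lit 6) 
(.lf (nat_lit 108328) (.g (nat_lit 1355) (.e (nat_lit 5234) (nat_lit 296) (.e (nat_lit 163884) (nat_lit 5) (.e (nat_lit 221194) (nat_lit 11) (.e (nat_lit 336086) (nat_lit 9) .nil)))) .nil)) 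
(.lf (nat_lit 108392) (.g (nat_lit 2054) (.e (nat_lit 5245) (nat_lit 298) (.e (nat_lit 1665) (nat_lit 115) (.e (nat_lit 393301) (nat_lit 27) (.e (nat_lit 491546) (nat_lit 9) (.e (nat_lit 336358) (nat_lit 25) .nil))))) .nil)))) (.nd (nat_lit 5) (.nd (nat_lit 6) 
(.lf (nat_lit 108312) (.g (nat_lit 1469) (.e (nat_lit 5229) (nat_lit 296) (.e (nat_lit 163908) (nat_lit 12) (.e (nat_lit 426285) (nat_lit 10) (.e (nat_lit 434269) (nat_lit 36) (.e (nat_lit 639008) (nat_lit 13) .nil))))) .nil)) 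
(.lf (nat_lit 108376) (.g (nat_lit 1621) (.e (nat_lit 5245) (nat_lit 298) (.e (nat_lit 1256) (nat_lit 92) (.e (nat_lit 98373) (nat_lit 29) (.e (nat_lit 450587) (nat_lit 10) (.e (nat_lit 573457) (nat_lit 9) .nil))))) .nil))) (.nd (nat_lit 6) 
(.lf (nat_lit 108344) (.g (nat_lit 788) (.e (nat_lit 7936) (nat_lit 297) (.e (nat_lit 229415) (nat_lit 15) (.e (nat_lit 450597) (nat_lit 17) (.e (nat_lit 663579) (nat_lit 9) .nil)))) .nil)) 
(.lf (nat_lit 108408) (.g (nat_lit 2991) (.e (nat_lit 5256) (nat_lit 298) (.e (nat_lit 1400) (nat_lit 106) (.e (nat_lit 319534) (nat_lit 16) (.e (nat_lit 286756) (nat_lit 10) (.e (nat_lit 344157) (nat_lit 36) (.e (nat_lit 638986) (nat_lit 5) (.e (nat_lit 2828) (nat_lit 182) (.e (nat_lit 417536) (nat_lit 0) .nil)))))))) (.g (nat_lit 7) .nil .nil))))))) 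
(.nd (nat_lit 3) (.nd (nat_lit 4) (.nd (nat_lit 5) (.nd (nat_lit 6) 
(.lf (nat_lit 108292) (.g (nat_lit 1971) (.e (nat_lit 5224) (nat_lit 296) (.e (nat_lit 163923) (nat_lit 15) (.e (nat_lit 450597) (nat_lit 17) (.e (nat_lit 663579) (nat_lit 9) (.e (nat_lit 7936) (nat_lit 24) (.e (nat_lit 368384) (nat_lit 0) .nil)))))) (.g (nat_lit 4) .nil .nil))) 
(.lf (nat_lit 108356) (.g (nat_lit 2709) (.e (nat_lit 5245) (nat_lit 298) (.e (nat_lit 1239) (nat_lit 91) (.e (nat_lit 90170) (nat_lit 13) (.e (nat_lit 172106) (nat_lit 10) (.e (nat_lit 434231) (nat_lit 23) (.e (nat_lit 532490) (nat_lit 0) (.e (nat_lit 6136) (nat_lit 332) (.e (nat_lit 995) (nat_lit 81) .nil)))))))) (.g (nat_lit 5) .nil .nil)))) (.nd (nat_lit 6) 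
(.lf (nat_lit 108324) (.g (nat_lit 507) (.e (nat_lit 5231) (nat_lit 296) (.e (nat_lit 163908) (nat_lit 12) (.e (nat_lit 426285) (nat_lit 10) .nil))) .nil)) 
(.lf (nat_lit 108388) (.g (nat_lit 1518) (.e (nat_lit 5245) (nat_lit 298) (.e (nat_lit 1656) (nat_lit 115) (.e (nat_lit 393234) (nat_lit 17) (.e (nat_lit 7589) (nat_lit 406) .nil)))) .nil)))) (.nd (nat_lit 5) (.nd (nat_lit 6) 
(.lf (nat_lit 108308) (.g (nat_lit 1618) (.e (nat_lit 5228) (nat_lit 296) (.e (nat_lit 163884) (nat_lit 5) (.e (nat_lit 221194) (nat_lit 11) (.e (nat_lit 336086) (nat_lit 9) (.e (nat_lit 336434) (nat_lit 30) .nil))))) .nil)) 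
(.lf (nat_lit 108372) (.g (nat_lit 1578) (.e (nat_lit 5245) (nat_lit 298) (.e (nat_lit 1256) (nat_lit 92) (.e (nat_lit 98372) (nat_lit 29) (.e (nat_lit 450586) (nat_lit 10) (.e (nat_lit 573457) (nat_lit 9) .nil))))) .nil))) (.nd (nat_lit 6) 
(.lf (nat_lit 108340) (.g (nat_lit 1119) (.e (nat_lit 7936) (nat_lit 297) (.e (nat_lit 229415) (nat_lit 15) (.e (nat_lit 450563) (nat_lit 0) (.e (nat_lit 5125) (nat_lit 292) .nil)))) .nil)) 
(.lf (nat_lit 108404) (.g (nat_lit 1769) (.e (nat_lit 5255) (nat_lit 298) (.e (nat_lit 1665) (nat_lit 115) (.e (nat_lit 393301) (nat_lit 27) (.e (nat_lit 491552) (nat_lit 9) (.e (nat_lit 336363) (nat_lit 26) .nil))))) .nil))))) (.nd (nat_lit 4) (.nd (nat_lit 5) (.nd (nat_lit 6) 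
(.lf (nat_lit 108300) (.g (nat_lit 1457) (.e (nat_lit 5224) (nat_lit 296) (.e (nat_lit 163933) (nat_lit 17) (.e (nat_lit 466971) (nat_lit 21) (.e (nat_lit 164308) (nat_lit 226) .nil)))) .nil)) 
(.lf (nat_lit 108364) (.g (nat_lit 2669) (.e (nat_lit 5245) (nat_lit 298) (.e (nat_lit 1256) (nat_lit 92) (.e (nat_lit 98350) (nat_lit 24) (.e (nat_lit 409645) (nat_lit 18) (.e (nat_lit 303119) (nat_lit 3) .nil))))) .nil))) (.nd (nat_lit 6) 
(.lf (nat_lit 108332) (.g (nat_lit 2511) (.e (nat_lit 5234) (nat_lit 296) (.e (nat_lit 163885) (nat_lit 5) (.e (nat_lit 221208) (nat_lit 21) (.e (nat_lit 164330) (nat_lit 230) (.e (nat_lit 171776) (nat_lit 66) .nil))))) .nil)) 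
(.lf (nat_lit 108396) (.g (nat_lit 637) (.e (nat_lit 5251) (nat_lit 298) (.e (nat_lit 375) (nat_lit 32) (.e (nat_lit 426025) (nat_lit 0) .nil))) .nil)))) (.nd (nat_lit 5) (.nd (nat_lit 6) 
(.lf (nat_lit 108316) (.g (nat_lit 1259) (.e (nat_lit 5229) (nat_lit 296) (.e (nat_lit 163908) (nat_lit 12) (.e (nat_lit 426286) (nat_lit 10) (.e (nat_lit 434269) (nat_lit 36) (.e (nat_lit 639008) (nat_lit 13) (.e (nat_lit 1589) (nat_lit 111) (.e (nat_lit 368384) (nat_lit 0) .nil))))))) (.g (nat_lit 4) .nil .nil))) 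
(.lf (nat_lit 108380) (.g (nat_lit 2519) (.e (nat_lit 5245) (nat_lit 298) (.e (nat_lit 1400) (nat_lit 106) (.e (nat_lit 319533) (nat_lit 16) (.e (nat_lit 286753) (nat_lit 10) (.e (nat_lit 344157) (nat_lit 36) (.e (nat_lit 638985) (nat_lit 5) (.e (nat_lit 2828) (nat_lit 182) (.e (nat_lit 409603) (nat_lit 0) .nil)))))))) (.g (nat_lit 5) .nil .nil)))) (.nd (nat_lit 6) 
(.lf (nat_lit 108348) (.g (nat_lit 1547) (.e (nat_lit 5245) (nat_lit 298) (.e (nat_lit 433) (nat_lit 32) (.e (nat_lit 426347) (nat_lit 14) (.e (nat_lit 491571) (nat_lit 13) (.e (nat_lit 393260) (nat_lit 21) .nil))))) .nil)) 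
(.lf (nat_lit 108412) (.g (nat_lit 1868) (.e (nat_lit 5257) (nat_lit 298) (.e (nat_lit 1256) (nat_lit 92) (.e (nat_lit 98373) (nat_lit 29) (.e (nat_lit 450580) (nat_lit 5) (.e (nat_lit 532523) (nat_lit 7) .nil))))) .nil))))))) (.nd (nat_lit 2) (.nd (nat_lit 3) (.nd (nat_lit 4) (.nd (nat_lit 5) (.nd (nat_lit 6) 
(.lf (nat_lit 108290) (.g (nat_lit 1449) (.e (nat_lit 5224) (nat_lit 296) (.e (nat_lit 163923) (nat_lit 15) (.e (nat_lit 450596) (nat_lit 17) (.e (nat_lit 663577) (nat_lit 9) (.e (nat_lit 7936) (nat_lit 24) (.e (nat_lit 368384) (nat_lit 0) .nil)))))) (.g (nat_lit 4) .nil .nil))) 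
(.lf (nat_lit 108354) (.g (nat_lit 3376) (.e (nat_lit 5245) (nat_lit 298) (.e (nat_lit 1239) (nat_lit 91) (.e (nat_lit 90170) (nat_lit 13) (.e (nat_lit 172106) (nat_lit 10) (.e (nat_lit 434231) (nat_lit 23) (.e (nat_lit 532490) (nat_lit 0) (.e (nat_lit 6114) (nat_lit 332) (.e (nat_lit 1085) (nat_lit 81) .nil)))))))) (.g (nat_lit 6) .nil .nil)))) (.nd (nat_lit 6) 
(.lf (nat_lit 108322) (.g (nat_lit 1160) (.e (nat_lit 5230) (nat_lit 296) (.e (nat_lit 163908) (nat_lit 12) (.e (nat_lit 426286) (nat_lit 10) (.e (nat_lit 434269) (nat_lit 36) .nil)))) .nil)) 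
(.lf (nat_lit 108386) (.g (nat_lit 434) (.e (nat_lit 5245) (nat_lit 298) (.e (nat_lit 1656) (nat_lit 115) (.e (nat_lit 393234) (nat_lit 17) .nil))) .nil)))) (.nd (nat_lit 5) (.nd (nat_lit 6) 
(.lf (nat_lit 108306) (.g (nat_lit 1325) (.e (nat_lit 5228) (nat_lit 296) (.e (nat_lit 163884) (nat_lit 5) (.e (nat_lit 221194) (nat_lit 11) (.e (nat_lit 336085) (nat_lit 9) .nil)))) .nil)) 
(.lf (nat_lit 108370) (.g (nat_lit 2369) (.e (nat_lit 5245) (nat_lit 298) (.e (nat_lit 1256) (nat_lit 92) (.e (nat_lit 98372) (nat_lit 29) (.e (nat_lit 450579) (nat_lit 5) (.e (nat_lit 532526) (nat_lit 8) (.e (nat_lit 327704) (nat_lit 10) .nil)))))) (.g (nat_lit 5) .nil .nil)))) (.nd (nat_lit 6) 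
(.lf (nat_lit 108338) (.g (nat_lit 1497) (.e (nat_lit 5236) (nat_lit 297) (.e (nat_lit 229415) (nat_lit 15) (.e (nat_lit 450563) (nat_lit 0) (.e (nat_lit 5125) (nat_lit 292) .nil)))) .nil)) 
(.lf (nat_lit 108402) (.g (nat_lit 3020) (.e (nat_lit 5255) (nat_lit 298) (.e (nat_lit 1239) (nat_lit 91) (.e (nat_lit 90170) (nat_lit 13) (.e (nat_lit 172113) (nat_lit 10) (.e (nat_lit 434233) (nat_lit 23) .nil))))) .nil))))) (.nd (nat_lit 4) (.nd (nat_lit 5) (.nd (nat_lit 6) 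
(.lf (nat_lit 108298) (.g (nat_lit 1881) (.e (nat_lit 5224) (nat_lit 296) (.e (nat_lit 163933) (nat_lit 17) (.e (nat_lit 466967) (nat_lit 20) (.e (nat_lit 3386) (nat_lit 210) (.e (nat_lit 639007) (nat_lit 13) (.e (nat_lit 1598) (nat_lit 111) (.e (nat_lit 368384) (nat_lit 0) .nil))))))) (.g (nat_lit 6) .nil .nil))) 
(.lf (nat_lit 108362) (.g (nat_lit 2411) (.e (nat_lit 5245) (nat_lit 298) (.e (nat_lit 1239) (nat_lit 91) (.e (nat_lit 90170) (nat_lit 13) (.e (nat_lit 172115) (nat_lit 10) (.e (nat_lit 434231) (nat_lit 23) .nil))))) .nil))) (.nd (nat_lit 6) 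
(.lf (nat_lit 108330) (.g (nat_lit 1297) (.e (nat_lit 5234) (nat_lit 296) (.e (nat_lit 163885) (nat_lit 5) (.e (nat_lit 221194) (nat_lit 11) (.e (nat_lit 336086) (nat_lit 9) .nil)))) .nil)) 
(.lf (nat_lit 108394) (.g (nat_lit 1025) (.e (nat_lit 5245) (nat_lit 298) (.e (nat_lit 1665) (nat_lit 115) (.e (nat_lit 393301) (nat_lit 27) (.e (nat_lit 491552) (nat_lit 9) .nil)))) .nil)))) (.nd (nat_lit 5) (.nd (nat_lit 6) 
(.lf (nat_lit 108314) (.g (nat_lit 1243) (.e (nat_lit 5229) (nat_lit 296) (.e (nat_lit 163908) (nat_lit 12) (.e (nat_lit 426286) (nat_lit 10) (.e (nat_lit 434269) (nat_lit 36) (.e (nat_lit 639008) (nat_lit 13) .nil))))) .nil)) 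
(.lf (nat_lit 108378) (.g (nat_lit 1422) (.e (nat_lit 5245) (nat_lit 298) (.e (nat_lit 1400) (nat_lit 106) (.e (nat_lit 319533) (nat_lit 16) (.e (nat_lit 286753) (nat_lit 10) .nil)))) .nil))) (.nd (nat_lit 6) 
(.lf (nat_lit 108346) (.g (nat_lit 1826) (.e (nat_lit 5245) (nat_lit 298) (.e (nat_lit 375) (nat_lit 32) (.e (nat_lit 426025) (nat_lit 0) (.e (nat_lit 7537) (nat_lit 402) .nil)))) .nil)) 
(.lf (nat_lit 108410) (.g (nat_lit 1974) (.e (nat_lit 5257) (nat_lit 298) (.e (nat_lit 1239) (nat_lit 91) (.e (nat_lit 90170) (nat_lit 13) (.e (nat_lit 172113) (nat_lit 10) .nil)))) .nil)))))) (.nd (nat_lit 3) (.nd (nat_lit 4) (.nd (nat_lit 5) (.nd (nat_lit 6) 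
(.lf (nat_lit 108294) (.g (nat_lit 1756) (.e (nat_lit 5224) (nat_lit 296) (.e (nat_lit 163924) (nat_lit 15) (.e (nat_lit 450592) (nat_lit 14) (.e (nat_lit 639008) (nat_lit 13) (.e (nat_lit 1595) (nat_lit 111) (.e (nat_lit 368384) (nat_lit 0) .nil)))))) (.g (nat_lit 5) .nil .nil))) 
(.lf (nat_lit 108358) (.g (nat_lit 2046) (.e (nat_lit 5245) (nat_lit 298) (.e (nat_lit 1239) (nat_lit 91) (.e (nat_lit 90170) (nat_lit 13) (.e (nat_lit 172106) (nat_lit 10) (.e (nat_lit 434231) (nat_lit 23) (.e (nat_lit 532490) (nat_lit 0) (.e (nat_lit 6136) (nat_lit 332) (.e (nat_lit 1039) (nat_lit 81) .nil)))))))) (.g (nat_lit 4) .nil .nil)))) (.nd (nat_lit 6) 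
(.lf (nat_lit 108326) (.g (nat_lit 839) (.e (nat_lit 5231) (nat_lit 296) (.e (nat_lit 163923) (nat_lit 15) (.e (nat_lit 450592) (nat_lit 14) (.e (nat_lit 639008) (nat_lit 13) .nil)))) .nil)) 
(.lf (nat_lit 108390) (.g (nat_lit 2122) (.e (nat_lit 5245) (nat_lit 298) (.e (nat_lit 1656) (nat_lit 115) (.e (nat_lit 393301) (nat_lit 27) (.e (nat_lit 491552) (nat_lit 9) .nil)))) .nil)))) (.nd (nat_lit 5) (.nd (nat_lit 6) 
(.lf (nat_lit 108310) (.g (nat_lit 1160) (.e (nat_lit 5228) (nat_lit 296) (.e (nat_lit 163908) (nat_lit 12) (.e (nat_lit 426286) (nat_lit 10) (.e (nat_lit 434269) (nat_lit 36) .nil)))) .nil)) 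
(.lf (nat_lit 108374) (.g (nat_lit 3157) (.e (nat_lit 5245) (nat_lit 298) (.e (nat_lit 1256) (nat_lit 92) (.e (nat_lit 98373) (nat_lit 29) (.e (nat_lit 450581) (nat_lit 5) (.e (nat_lit 532523) (nat_lit 7) (.e (nat_lit 319511) (nat_lit 10) .nil)))))) (.g (nat_lit 6) .nil .nil)))) (.nd (nat_lit 6) 
(.lf (nat_lit 108342) (.g (nat_lit 968) (.e (nat_lit 7936) (nat_lit 297) (.e (nat_lit 229415) (nat_lit 15) (.e (nat_lit 450592) (nat_lit 14) (.e (nat_lit 639008) (nat_lit 13) .nil)))) .nil)) 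
(.lf (nat_lit 108406) (.g (nat_lit 2883) (.e (nat_lit 5256) (nat_lit 298) (.e (nat_lit 1400) (nat_lit 106) (.e (nat_lit 319533) (nat_lit 16) (.e (nat_lit 286753) (nat_lit 10) (.e (nat_lit 344157) (nat_lit 36) (.e (nat_lit 638985) (nat_lit 5) (.e (nat_lit 2828) (nat_lit 182) (.e (nat_lit 417536) (nat_lit 0) .nil)))))))) (.g (nat_lit 7) .nil .nil)))))) 
(.nd (nat_lit 4) (.nd (nat_lit 5) (.nd (nat_lit 6) 
(.lf (nat_lit 108302) (.g (nat_lit 2794) (.e (nat_lit 5224) (nat_lit 296) (.e (nat_lit 163933) (nat_lit 17) (.e (nat_lit 466971) (nat_lit 21) (.e (nat_lit 164321) (nat_lit 229) (.e (nat_lit 122917) (nat_lit 15) (.e (nat_lit 368384) (nat_lit 0) .nil)))))) (.g (nat_lit 5) .nil .nil))) 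
(.lf (nat_lit 108366) (.g (nat_lit 1806) (.e (nat_lit 5245) (nat_lit 298) (.e (nat_lit 1256) (nat_lit 92) (.e (nat_lit 98370) (nat_lit 28) (.e (nat_lit 442424) (nat_lit 22) (.e (nat_lit 196661) (nat_lit 12) (.e (nat_lit 57714) (nat_lit 176) (.e (nat_lit 988) (nat_lit 81) .nil))))))) (.g (nat_lit 5) .nil .nil)))) (.nd (nat_lit 6) 
(.lf (nat_lit 108334) (.g (nat_lit 641) (.e (nat_lit 5234) (nat_lit 296) (.e (nat_lit 163905) (nat_lit 12) (.e (nat_lit 426294) (nat_lit 11) .nil))) .nil)) 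
(.lf (nat_lit 108398) (.g (nat_lit 2820) (.e (nat_lit 5255) (nat_lit 298) (.e (nat_lit 1239) (nat_lit 91) (.e (nat_lit 90170) (nat_lit 13) (.e (nat_lit 172088) (nat_lit 9) .nil)))) .nil)))) (.nd (nat_lit 5) (.nd (nat_lit 6) 
(.lf (nat_lit 108318) (.g (nat_lit 826) (.e (nat_lit 5229) (nat_lit 296) (.e (nat_lit 163920) (nat_lit 14) (.e (nat_lit 442412) (nat_lit 20) .nil))) .nil)) 
(.lf (nat_lit 108382) (.g (nat_lit 784) (.e (nat_lit 5245) (nat_lit 298) (.e (nat_lit 1633) (nat_lit 114) (.e (nat_lit 385074) (nat_lit 31) .nil))) .nil))) (.nd (nat_lit 6) 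
(.lf (nat_lit 108350) (.g (nat_lit 2631) (.e (nat_lit 5245) (nat_lit 298) (.e (nat_lit 1239) (nat_lit 91) (.e (nat_lit 90170) (nat_lit 13) (.e (nat_lit 172106) (nat_lit 10) (.e (nat_lit 434231) (nat_lit 23) (.e (nat_lit 532490) (nat_lit 0) (.e (nat_lit 6114) (nat_lit 332) (.e (nat_lit 968) (nat_lit 81) .nil)))))))) (.g (nat_lit 5) .nil .nil))) 
(.lf (nat_lit 108414) (.g (nat_lit 1174) (.e (nat_lit 5257) (nat_lit 298) (.e (nat_lit 1535) (nat_lit 109) (.e (nat_lit 344117) (nat_lit 21) (.e (nat_lit 516185) (nat_lit 16) .nil)))) .nil)))))))) (.nd (nat_lit 1) (.nd (nat_lit 2) (.nd (nat_lit 3) (.nd (nat_lit 4) (.nd (nat_lit 5) (.nd (nat_lit 6) 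
(.lf (nat_lit 108289) (.g (nat_lit 1615) (.e (nat_lit 5224) (nat_lit 296) (.e (nat_lit 163923) (nat_lit 15) (.e (nat_lit 450596) (nat_lit 17) (.e (nat_lit 663574) (nat_lit 9) (.e (nat_lit 7936) (nat_lit 24) (.e (nat_lit 368384) (nat_lit 0) .nil)))))) (.g (nat_lit 4) .nil .nil))) 
(.lf (nat_lit 108353) (.g (nat_lit 2918) (.e (nat_lit 5245) (nat_lit 298) (.e (nat_lit 1239) (nat_lit 91) (.e (nat_lit 90170) (nat_lit 13) (.e (nat_lit 172106) (nat_lit 10) (.e (nat_lit 434231) (nat_lit 23) (.e (nat_lit 532490) (nat_lit 0) (.e (nat_lit 6114) (nat_lit 332) (.e (nat_lit 1082) (nat_lit 81) .nil)))))))) (.g (nat_lit 5) .nil .nil)))) (.nd (nat_lit 6) 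
(.lf (nat_lit 108321) (.g (nat_lit 956) (.e (nat_lit 5230) (nat_lit 296) (.e (nat_lit 163905) (nat_lit 12) (.e (nat_lit 426566) (nat_lit 34) .nil))) .nil)) 
(.lf (nat_lit 108385) (.g (nat_lit 2882) (.e (nat_lit 5245) (nat_lit 298) (.e (nat_lit 1633) (nat_lit 114) (.e (nat_lit 385074) (nat_lit 31) (.e (nat_lit 573484) (nat_lit 13) (.e (nat_lit 65617) (nat_lit 10) .nil))))) .nil)))) (.nd (nat_lit 5) (.nd (nat_lit 6) 
(.lf (nat_lit 108305) (.g (nat_lit 1937) (.e (nat_lit 5224) (nat_lit 296) (.e (nat_lit 163933) (nat_lit 17) (.e (nat_lit 466972) (nat_lit 21) (.e (nat_lit 164305) (nat_lit 226) (.e (nat_lit 1070) (nat_lit 81) .nil))))) .nil)) 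
(.lf (nat_lit 108369) (.g (nat_lit 2486) (.e (nat_lit 5245) (nat_lit 298) (.e (nat_lit 1256) (nat_lit 92) (.e (nat_lit 98370) (nat_lit 28) (.e (nat_lit 442427) (nat_lit 23) (.e (nat_lit 204848) (nat_lit 25) (.e (nat_lit 327704) (nat_lit 10) .nil)))))) (.g (nat_lit 6) .nil .nil)))) (.nd (nat_lit 6) 
(.lf (nat_lit 108337) (.g (nat_lit 1771) (.e (nat_lit 5236) (nat_lit 297) (.e (nat_lit 229415) (nat_lit 15) (.e (nat_lit 450563) (nat_lit 0) (.e (nat_lit 5120) (nat_lit 292) .nil)))) .nil)) 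
(.lf (nat_lit 108401) (.g (nat_lit 4468) (.e (nat_lit 5255) (nat_lit 298) (.e (nat_lit 1239) (nat_lit 91) (.e (nat_lit 90170) (nat_lit 13) (.e (nat_lit 172106) (nat_lit 10) (.e (nat_lit 434231) (nat_lit 23) (.e (nat_lit 532522) (nat_lit 7) (.e (nat_lit 319500) (nat_lit 10) .nil))))))) (.g (nat_lit 7) .nil .nil)))))) (.nd (nat_lit 4) (.nd (nat_lit 5) (.nd (nat_lit 6) 
(.lf (nat_lit 108297) (.g (nat_lit 2092) (.e (nat_lit 5224) (nat_lit 296) (.e (nat_lit 163933) (nat_lit 17) (.e (nat_lit 466967) (nat_lit 20) (.e (nat_lit 3386) (nat_lit 210) (.e (nat_lit 639007) (nat_lit 13) (.e (nat_lit 1586) (nat_lit 111) (.e (nat_lit 368384) (nat_lit 0) .nil))))))) (.g (nat_lit 6) .nil .nil))) 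
(.lf (nat_lit 108361) (.g (nat_lit 1967) (.e (nat_lit 5245) (nat_lit 298) (.e (nat_lit 1239) (nat_lit 91) (.e (nat_lit 90170) (nat_lit 13) (.e (nat_lit 172113) (nat_lit 10) (.e (nat_lit 434231) (nat_lit 23) .nil))))) .nil))) (.nd (nat_lit 6) 
(.lf (nat_lit 108329) (.g (nat_lit 608) (.e (nat_lit 5234) (nat_lit 296) (.e (nat_lit 163885) (nat_lit 5) (.e (nat_lit 221194) (nat_lit 11) .nil))) .nil)) 
(.lf (nat_lit 108393) (.g (nat_lit 1453) (.e (nat_lit 5245) (nat_lit 298) (.e (nat_lit 1665) (nat_lit 115) (.e (nat_lit 393301) (nat_lit 27) (.e (nat_lit 491551) (nat_lit 9) (.e (nat_lit 336358) (nat_lit 25) .nil))))) .nil)))) (.nd (nat_lit 5) (.nd (nat_lit 6) 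
(.lf (nat_lit 108313) (.g (nat_lit 1261) (.e (nat_lit 5229) (nat_lit 296) (.e (nat_lit 163908) (nat_lit 12) (.e (nat_lit 426286) (nat_lit 10) (.e (nat_lit 434269) (nat_lit 36) (.e (nat_lit 639007) (nat_lit 13) .nil))))) .nil)) 
(.lf (nat_lit 108377) (.g (nat_lit 2090) (.e (nat_lit 5245) (nat_lit 298) (.e (nat_lit 1256) (nat_lit 92) (.e (nat_lit 98373) (nat_lit 29) (.e (nat_lit 450588) (nat_lit 10) (.e (nat_lit 573452) (nat_lit 9) (.e (nat_lit 365) (nat_lit 31) (.e (nat_lit 417796) (nat_lit 0) .nil))))))) (.g (nat_lit 4) .nil .nil)))) (.nd (nat_lit 6) 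
(.lf (nat_lit 108345) (.g (nat_lit 1426) (.e (nat_lit 7936) (nat_lit 297) (.e (nat_lit 229415) (nat_lit 15) (.e (nat_lit 450597) (nat_lit 17) (.e (nat_lit 663580) (nat_lit 9) (.e (nat_lit 7936) (nat_lit 24) .nil))))) .nil)) 
(.lf (nat_lit 108409) (.g (nat_lit 2212) (.e (nat_lit 5256) (nat_lit 298) (.e (nat_lit 1400) (nat_lit 106) (.e (nat_lit 319534) (nat_lit 16) (.e (nat_lit 286756) (nat_lit 10) (.e (nat_lit 344160) (nat_lit 37) .nil))))) .nil)))))) (.nd (nat_lit 3) (.nd (nat_lit 4) (.nd (nat_lit 5) (.nd (nat_lit 6) 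
(.lf (nat_lit 108293) (.g (nat_lit 1774) (.e (nat_lit 5224) (nat_lit 296) (.e (nat_lit 163924) (nat_lit 15) (.e (nat_lit 450592) (nat_lit 14) (.e (nat_lit 639008) (nat_lit 13) (.e (nat_lit 1586) (nat_lit 111) (.e (nat_lit 368384) (nat_lit 0) .nil)))))) (.g (nat_lit 5) .nil .nil))) 
(.lf (nat_lit 108357) (.g (nat_lit 2032) (.e (nat_lit 5245) (nat_lit 298) (.e (nat_lit 1239) (nat_lit 91) (.e (nat_lit 90170) (nat_lit 13) (.e (nat_lit 172106) (nat_lit 10) (.e (nat_lit 434231) (nat_lit 23) (.e (nat_lit 532490) (nat_lit 0) (.e (nat_lit 6136) (nat_lit 332) (.e (nat_lit 1023) (nat_lit 81) .nil)))))))) (.g (nat_lit 4) .nil .nil)))) (.nd (nat_lit 6) 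
(.lf (nat_lit 108325) (.g (nat_lit 1160) (.e (nat_lit 5231) (nat_lit 296) (.e (nat_lit 163908) (nat_lit 12) (.e (nat_lit 426286) (nat_lit 10) (.e (nat_lit 434269) (nat_lit 36) .nil)))) .nil)) 
(.lf (nat_lit 108389) (.g (nat_lit 2272) (.e (nat_lit 5245) (nat_lit 298) (.e (nat_lit 1656) (nat_lit 115) (.e (nat_lit 393234) (nat_lit 17) (.e (nat_lit 7589) (nat_lit 406) (.e (nat_lit 65647) (nat_lit 25) .nil))))) .nil)))) (.nd (nat_lit 5) (.nd (nat_lit 6) 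
(.lf (nat_lit 108309) (.g (nat_lit 351) (.e (nat_lit 5228) (nat_lit 296) (.e (nat_lit 163884) (nat_lit 5) (.e (nat_lit 229120) (nat_lit 16) .nil))) .nil)) 
(.lf (nat_lit 108373) (.g (nat_lit 1807) (.e (nat_lit 5245) (nat_lit 298) (.e (nat_lit 1256) (nat_lit 92) (.e (nat_lit 98373) (nat_lit 29) (.e (nat_lit 450581) (nat_lit 5) (.e (nat_lit 532523) (nat_lit 7) .nil))))) .nil))) (.nd (nat_lit 6) 
(.lf (nat_lit 108341) (.g (nat_lit 836) (.e (nat_lit 7936) (nat_lit 297) (.e (nat_lit 229415) (nat_lit 15) (.e (nat_lit 450563) (nat_lit 0) (.e (nat_lit 7936) (nat_lit 295) .nil)))) .nil)) 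
(.lf (nat_lit 108405) (.g (nat_lit 1218) (.e (nat_lit 5256) (nat_lit 298) (.e (nat_lit 1400) (nat_lit 106) (.e (nat_lit 319533) (nat_lit 16) (.e (nat_lit 286753) (nat_lit 10) .nil)))) .nil))))) (.nd (nat_lit 4) (.nd (nat_lit 5) (.nd (nat_lit 6) 
(.lf (nat_lit 108301) (.g (nat_lit 1442) (.e (nat_lit 5224) (nat_lit 296) (.e (nat_lit 163933) (nat_lit 17) (.e (nat_lit 466971) (nat_lit 21) (.e (nat_lit 164321) (nat_lit 229) .nil)))) .nil)) 
(.lf (nat_lit 108365) (.g (nat_lit 203) (.e (nat_lit 5245) (nat_lit 298) (.e (nat_lit 1256) (nat_lit 92) (.e (nat_lit 98369) (nat_lit 28) .nil))) .nil))) (.nd (nat_lit 6) 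
(.lf (nat_lit 108333) (.g (nat_lit 2886) (.e (nat_lit 5234) (nat_lit 296) (.e (nat_lit 163902) (nat_lit 12) (.e (nat_lit 426566) (nat_lit 34) (.e (nat_lit 393271) (nat_lit 23) .nil)))) .nil)) 
(.lf (nat_lit 108397) (.g (nat_lit 1871) (.e (nat_lit 5255) (nat_lit 298) (.e (nat_lit 175) (nat_lit 12) (.e (nat_lit 204863) (nat_lit 27) (.e (nat_lit 344132) (nat_lit 26) (.e (nat_lit 557105) (nat_lit 14) .nil))))) .nil)))) (.nd (nat_lit 5) (.nd (nat_lit 6) 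
(.lf (nat_lit 108317) (.g (nat_lit 940) (.e (nat_lit 5229) (nat_lit 296) (.e (nat_lit 163920) (nat_lit 14) (.e (nat_lit 442411) (nat_lit 20) .nil))) .nil)) 
(.lf (nat_lit 108381) (.g (nat_lit 2216) (.e (nat_lit 5245) (nat_lit 298) (.e (nat_lit 1400) (nat_lit 106) (.e (nat_lit 319534) (nat_lit 16) (.e (nat_lit 286756) (nat_lit 10) (.e (nat_lit 344157) (nat_lit 36) .nil))))) .nil))) (.nd (nat_lit 6) 
(.lf (nat_lit 108349) (.g (nat_lit 2965) (.e (nat_lit 5245) (nat_lit 298) (.e (nat_lit 1239) (nat_lit 91) (.e (nat_lit 90170) (nat_lit 13) (.e (nat_lit 172106) (nat_lit 10) (.e (nat_lit 434231) (nat_lit 23) (.e (nat_lit 532486) (nat_lit 0) (.e (nat_lit 6113) (nat_lit 332) (.e (nat_lit 975) (nat_lit 81) .nil)))))))) (.g (nat_lit 5) .nil .nil))) 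
(.lf (nat_lit 108413) (.g (nat_lit 2155) (.e (nat_lit 5257) (nat_lit 298) (.e (nat_lit 1256) (nat_lit 92) (.e (nat_lit 98373) (nat_lit 29) (.e (nat_lit 450581) (nat_lit 5) (.e (nat_lit 532523) (nat_lit 7) .nil))))) .nil))))))) (.nd (nat_lit 2) (.nd (nat_lit 3) (.nd (nat_lit 4) (.nd (nat_lit 5) (.nd (nat_lit 6) 
(.lf (nat_lit 108291) (.g (nat_lit 2254) (.e (nat_lit 5224) (nat_lit 296) (.e (nat_lit 163923) (nat_lit 15) (.e (nat_lit 450597) (nat_lit 17) (.e (nat_lit 663574) (nat_lit 9) (.e (nat_lit 7936) (nat_lit 24) (.e (nat_lit 368384) (nat_lit 0) .nil)))))) (.g (nat_lit 4) .nil .nil))) 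
(.lf (nat_lit 108355) (.g (nat_lit 2894) (.e (nat_lit 5245) (nat_lit 298) (.e (nat_lit 1239) (nat_lit 91) (.e (nat_lit 90170) (nat_lit 13) (.e (nat_lit 172106) (nat_lit 10) (.e (nat_lit 434231) (nat_lit 23) (.e (nat_lit 532490) (nat_lit 0) (.e (nat_lit 6136) (nat_lit 332) (.e (nat_lit 988) (nat_lit 81) .nil)))))))) (.g (nat_lit 5) .nil .nil)))) (.nd (nat_lit 6) 
(.lf (nat_lit 108323) (.g (nat_lit 664) (.e (nat_lit 5230) (nat_lit 296) (.e (nat_lit 163923) (nat_lit 15) (.e (nat_lit 450592) (nat_lit 14) .nil))) .nil)) 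
(.lf (nat_lit 108387) (.g (nat_lit 1549) (.e (nat_lit 5245) (nat_lit 298) (.e (nat_lit 1656) (nat_lit 115) (.e (nat_lit 393234) (nat_lit 17) (.e (nat_lit 7587) (nat_lit 406) .nil)))) .nil)))) (.nd (nat_lit 5) (.nd (nat_lit 6) 
(.lf (nat_lit 108307) (.g (nat_lit 1605) (.e (nat_lit 5228) (nat_lit 296) (.e (nat_lit 163884) (nat_lit 5) (.e (nat_lit 221194) (nat_lit 11) (.e (nat_lit 336086) (nat_lit 9) (.e (nat_lit 336432) (nat_lit 30) .nil))))) .nil)) 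
(.lf (nat_lit 108371) (.g (nat_lit 2573) (.e (nat_lit 5245) (nat_lit 298) (.e (nat_lit 1256) (nat_lit 92) (.e (nat_lit 98372) (nat_lit 29) (.e (nat_lit 450579) (nat_lit 5) (.e (nat_lit 532526) (nat_lit 8) (.e (nat_lit 327707) (nat_lit 10) .nil)))))) (.g (nat_lit 6) .nil .nil)))) (.nd (nat_lit 6) 
(.lf (nat_lit 108339) (.g (nat_lit 761) (.e (nat_lit 5236) (nat_lit 297) (.e (nat_lit 229415) (nat_lit 15) (.e (nat_lit 450592) (nat_lit 14) .nil))) .nil)) 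
(.lf (nat_lit 108403) (.g (nat_lit 2617) (.e (nat_lit 5255) (nat_lit 298) (.e (nat_lit 1239) (nat_lit 91) (.e (nat_lit 90170) (nat_lit 13) (.e (nat_lit 172113) (nat_lit 10) (.e (nat_lit 434234) (nat_lit 23) .nil))))) .nil))))) (.nd (nat_lit 4) (.nd (nat_lit 5) (.nd (nat_lit 6) 
(.lf (nat_lit 108299) (.g (nat_lit 463) (.e (nat_lit 5224) (nat_lit 296) (.e (nat_lit 163933) (nat_lit 17) (.e (nat_lit 466971) (nat_lit 21) .nil))) .nil)) 
(.lf (nat_lit 108363) (.g (nat_lit 1858) (.e (nat_lit 5245) (nat_lit 298) (.e (nat_lit 1239) (nat_lit 91) (.e (nat_lit 90170) (nat_lit 13) (.e (nat_lit 172126) (nat_lit 14) .nil)))) .nil))) (.nd (nat_lit 6) 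
(.lf (nat_lit 108331) (.g (nat_lit 2922) (.e (nat_lit 5234) (nat_lit 296) (.e (nat_lit 163885) (nat_lit 5) (.e (nat_lit 221207) (nat_lit 21) (.e (nat_lit 164325) (nat_lit 230) (.e (nat_lit 171776) (nat_lit 66) .nil))))) .nil)) 
(.lf (nat_lit 108395) (.g (nat_lit 2520) (.e (nat_lit 5245) (nat_lit 298) (.e (nat_lit 1669) (nat_lit 116) (.e (nat_lit 401425) (nat_lit 2) (.e (nat_lit 196666) (nat_lit 13) (.e (nat_lit 65610) (nat_lit 10) .nil))))) .nil)))) (.nd (nat_lit 5) (.nd (nat_lit 6) 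
(.lf (nat_lit 108315) (.g (nat_lit 1878) (.e (nat_lit 5229) (nat_lit 296) (.e (nat_lit 163908) (nat_lit 12) (.e (nat_lit 426286) (nat_lit 10) (.e (nat_lit 434269) (nat_lit 36) (.e (nat_lit 639008) (nat_lit 13) (.e (nat_lit 1586) (nat_lit 111) (.e (nat_lit 368384) (nat_lit 0) .nil))))))) (.g (nat_lit 6) .nil .nil))) 
(.lf (nat_lit 108379) (.g (nat_lit 1999) (.e (nat_lit 5245) (nat_lit 298) (.e (nat_lit 1400) (nat_lit 106) (.e (nat_lit 319533) (nat_lit 16) (.e (nat_lit 286753) (nat_lit 10) (.e (nat_lit 344157) (nat_lit 36) .nil))))) .nil))) (.nd (nat_lit 6) 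
(.lf (nat_lit 108347) (.g (nat_lit 2885) (.e (nat_lit 5245) (nat_lit 298) (.e (nat_lit 430) (nat_lit 32) (.e (nat_lit 426343) (nat_lit 14) (.e (nat_lit 491570) (nat_lit 13) (.e (nat_lit 393260) (nat_lit 21) .nil))))) .nil)) 
(.lf (nat_lit 108411) (.g (nat_lit 1149) (.e (nat_lit 5257) (nat_lit 298) (.e (nat_lit 1256) (nat_lit 92) (.e (nat_lit 98373) (nat_lit 29) (.e (nat_lit 450579) (nat_lit 5) .nil)))) .nil)))))) (.nd (nat_lit 3) (.nd (nat_lit 4) (.nd (nat_lit 5) (.nd (nat_lit 6) 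
(.lf (nat_lit 108295) (.g (nat_lit 1538) (.e (nat_lit 5224) (nat_lit 296) (.e (nat_lit 163924) (nat_lit 15) (.e (nat_lit 450592) (nat_lit 14) (.e (nat_lit 639008) (nat_lit 13) (.e (nat_lit 1598) (nat_lit 111) (.e (nat_lit 368384) (nat_lit 0) .nil)))))) (.g (nat_lit 5) .nil .nil))) 
(.lf (nat_lit 108359) (.g (nat_lit 4128) (.e (nat_lit 5245) (nat_lit 298) (.e (nat_lit 1239) (nat_lit 91) (.e (nat_lit 90170) (nat_lit 13) (.e (nat_lit 172106) (nat_lit 10) (.e (nat_lit 434231) (nat_lit 23) (.e (nat_lit 532522) (nat_lit 7) (.e (nat_lit 319500) (nat_lit 10) .nil))))))) (.g (nat_lit 7) .nil .nil)))) (.nd (nat_lit 6) 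
(.lf (nat_lit 108327) (.g (nat_lit 564) (.e (nat_lit 5233) (nat_lit 296) (.e (nat_lit 163923) (nat_lit 15) (.e (nat_lit 450592) (nat_lit 14) .nil))) .nil)) 
(.lf (nat_lit 108391) (.g (nat_lit 1203) (.e (nat_lit 5245) (nat_lit 298) (.e (nat_lit 1665) (nat_lit 115) (.e (nat_lit 393234) (nat_lit 17) (.e (nat_lit 7589) (nat_lit 406) (.e (nat_lit 65647) (nat_lit 25) (.e (nat_lit 409603) (nat_lit 0) .nil)))))) (.g (nat_lit 4) .nil .nil))))) (.nd (nat_lit 5) (.nd (nat_lit 6) 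
(.lf (nat_lit 108311) (.g (nat_lit 1457) (.e (nat_lit 5229) (nat_lit 296) (.e (nat_lit 163908) (nat_lit 12) (.e (nat_lit 426285) (nat_lit 10) (.e (nat_lit 434269) (nat_lit 36) (.e (nat_lit 639007) (nat_lit 13) .nil))))) .nil)) 
(.lf (nat_lit 108375) (.g (nat_lit 809) (.e (nat_lit 5245) (nat_lit 298) (.e (nat_lit 1256) (nat_lit 92) (.e (nat_lit 98373) (nat_lit 29) (.e (nat_lit 458496) (nat_lit 5) .nil)))) .nil))) (.nd (nat_lit 6) 
(.lf (nat_lit 108343) (.g (nat_lit 1292) (.e (nat_lit 7936) (nat_lit 297) (.e (nat_lit 229415) (nat_lit 15) (.e (nat_lit 450597) (nat_lit 17) (.e (nat_lit 663574) (nat_lit 9) (.e (nat_lit 7936) (nat_lit 24) .nil))))) .nil)) 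
(.lf (nat_lit 108407) (.g (nat_lit 3271) (.e (nat_lit 5256) (nat_lit 298) (.e (nat_lit 1400) (nat_lit 106) (.e (nat_lit 319534) (nat_lit 16) (.e (nat_lit 286756) (nat_lit 10) (.e (nat_lit 344157) (nat_lit 36) (.e (nat_lit 638985) (nat_lit 5) (.e (nat_lit 2828) (nat_lit 182) (.e (nat_lit 417536) (nat_lit 0) .nil)))))))) (.g (nat_lit 7) .nil .nil)))))) 
(.nd (nat_lit 4) (.nd (nat_lit 5) (.nd (nat_lit 6) 
(.lf (nat_lit 108303) (.g (nat_lit 2582) (.e (nat_lit 5224) (nat_lit 296) (.e (nat_lit 163933) (nat_lit 17) (.e (nat_lit 466971) (nat_lit 21) (.e (nat_lit 164321) (nat_lit 229) (.e (nat_lit 122919) (nat_lit 15) (.e (nat_lit 368384) (nat_lit 0) .nil)))))) (.g (nat_lit 5) .nil .nil))) 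
(.lf (nat_lit 108367) (.g (nat_lit 3138) (.e (nat_lit 5245) (nat_lit 298) (.e (nat_lit 1256) (nat_lit 92) (.e (nat_lit 98370) (nat_lit 28) (.e (nat_lit 442426) (nat_lit 23) (.e (nat_lit 204846) (nat_lit 24) (.e (nat_lit 319504) (nat_lit 10) .nil)))))) (.g (nat_lit 6) .nil .nil)))) (.nd (nat_lit 6) 
(.lf (nat_lit 108335) (.g (nat_lit 539) (.e (nat_lit 5234) (nat_lit 296) (.e (nat_lit 163905) (nat_lit 12) (.e (nat_lit 426320) (nat_lit 12) .nil))) .nil)) 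
(.lf (nat_lit 108399) (.g (nat_lit 2454) (.e (nat_lit 5255) (nat_lit 298) (.e (nat_lit 1239) (nat_lit 91) (.e (nat_lit 90170) (nat_lit 13) (.e (nat_lit 172095) (nat_lit 9) (.e (nat_lit 426140) (nat_lit 3) .nil))))) .nil)))) (.nd (nat_lit 5) (.nd (nat_lit 6) 
(.lf (nat_lit 108319) (.g (nat_lit 631) (.e (nat_lit 5229) (nat_lit 296) (.e (nat_lit 163923) (nat_lit 15) (.e (nat_lit 450562) (nat_lit 0) .nil))) .nil)) 
(.lf (nat_lit 108383) (.g (nat_lit 3197) (.e (nat_lit 5245) (nat_lit 298) (.e (nat_lit 1633) (nat_lit 114) (.e (nat_lit 385074) (nat_lit 31) (.e (nat_lit 573484) (nat_lit 13) (.e (nat_lit 65610) (nat_lit 10) (.e (nat_lit 344115) (nat_lit 20) (.e (nat_lit 507907) (nat_lit 0) .nil))))))) (.g (nat_lit 6) .nil .nil)))) (.nd (nat_lit 6) 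
(.lf (nat_lit 108351) (.g (nat_lit 2081) (.e (nat_lit 5245) (nat_lit 298) (.e (nat_lit 1239) (nat_lit 91) (.e (nat_lit 90170) (nat_lit 13) (.e (nat_lit 172106) (nat_lit 10) (.e (nat_lit 434231) (nat_lit 23) (.e (nat_lit 532490) (nat_lit 0) (.e (nat_lit 6114) (nat_lit 332) (.e (nat_lit 980) (nat_lit 81) .nil)))))))) (.g (nat_lit 4) .nil .nil))) 
(.lf (nat_lit 108415) (.g (nat_lit 1804) (.e (nat_lit 5257) (nat_lit 298) (.e (nat_lit 1665) (nat_lit 115) (.e (nat_lit 393301) (nat_lit 27) (.e (nat_lit 491552) (nat_lit 9) (.e (nat_lit 336363) (nat_lit 26) .nil))))) .nil)))))))))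

noncomputable def tv1467 : DT := (.nd (nat_lit 0) (.nd (nat_lit 1) (.nd (nat_lit 2) (.nd (nat_lit 3) (.nd (nat_lit 4) (.nd (nat_lit 5) 
(.lf (nat_lit 108416) (.g (nat_lit 2753) (.e (nat_lit 5258) (nat_lit 298) (.e (nat_lit 1239) (nat_lit 91) (.e (nat_lit 90170) (nat_lit 13) (.e (nat_lit 172088) (nat_lit 9) .nil)))) .nil)) 
(.lf (nat_lit 108448) (.g (nat_lit 1740) (.e (nat_lit 5259) (nat_lit 298) (.e (nat_lit 496) (nat_lit 39) (.e (nat_lit 483364) (nat_lit 18) (.e (nat_lit 57852) (nat_lit 252) (.e (nat_lit 57378) (nat_lit 3) .nil))))) .nil))) (.nd (nat_lit 5) 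
(.lf (nat_lit 108432) (.g (nat_lit 1529) (.e (nat_lit 5258) (nat_lit 298) (.e (nat_lit 1256) (nat_lit 92) (.e (nat_lit 98372) (nat_lit 29) (.e (nat_lit 450586) (nat_lit 10) (.e (nat_lit 573457) (nat_lit 9) .nil))))) .nil)) 
(.lf (nat_lit 108464) (.g (nat_lit 2757) (.e (nat_lit 5270) (nat_lit 298) (.e (nat_lit 1239) (nat_lit 91) (.e (nat_lit 90170) (nat_lit 13) (.e (nat_lit 172106) (nat_lit 10) (.e (nat_lit 434227) (nat_lit 20) (.e (nat_lit 507928) (nat_lit 10) (.e (nat_lit 4931) (nat_lit 287) (.e (nat_lit 1079) (nat_lit 81) .nil)))))))) (.g (nat_lit 4) .nil .nil))))) (.nd (nat_lit 4) (.nd (nat_lit 5) 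
(.lf (nat_lit 108424) (.g (nat_lit 4613) (.e (nat_lit 5258) (nat_lit 298) (.e (nat_lit 1239) (nat_lit 91) (.e (nat_lit 90170) (nat_lit 13) (.e (nat_lit 172106) (nat_lit 10) (.e (nat_lit 434231) (nat_lit 23) (.e (nat_lit 532526) (nat_lit 8) (.e (nat_lit 327703) (nat_lit 10) .nil))))))) (.g (nat_lit 7) .nil .nil))) 
(.lf (nat_lit 108456) (.g (nat_lit 287) (.e (nat_lit 5270) (nat_lit 298) (.e (nat_lit 1239) (nat_lit 91) (.e (nat_lit 90170) (nat_lit 13) .nil))) .nil))) (.nd (nat_lit 5) 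
(.lf (nat_lit 108440) (.g (nat_lit 1605) (.e (nat_lit 5259) (nat_lit 298) (.e (nat_lit 172) (nat_lit 12) (.e (nat_lit 204830) (nat_lit 18) (.e (nat_lit 57854) (nat_lit 252) (.e (nat_lit 57447) (nat_lit 19) .nil))))) .nil)) 
(.lf (nat_lit 108472) (.g (nat_lit 3609) (.e (nat_lit 5270) (nat_lit 298) (.e (nat_lit 1239) (nat_lit 91) (.e (nat_lit 90170) (nat_lit 13) (.e (nat_lit 172106) (nat_lit 10) (.e (nat_lit 434231) (nat_lit 23) (.e (nat_lit 532482) (nat_lit 0) (.e (nat_lit 6152) (nat_lit 332) (.e (nat_lit 1079) (nat_lit 81) .nil)))))))) (.g (nat_lit 5) .nil .nil)))))) 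
(.nd (nat_lit 3) (.nd (nat_lit 4) (.nd (nat_lit 5) 
(.lf (nat_lit 108420) (.g (nat_lit 2712) (.e (nat_lit 5258) (nat_lit 298) (.e (nat_lit 1239) (nat_lit 91) (.e (nat_lit 90170) (nat_lit 13) (.e (nat_lit 172106) (nat_lit 10) (.e (nat_lit 434231) (nat_lit 23) (.e (nat_lit 532490) (nat_lit 0) (.e (nat_lit 6136) (nat_lit 332) (.e (nat_lit 994) (nat_lit 81) .nil)))))))) (.g (nat_lit 5) .nil .nil))) 
(.lf (nat_lit 108452) (.g (nat_lit 1823) (.e (nat_lit 5261) (nat_lit 298) (.e (nat_lit 371) (nat_lit 32) (.e (nat_lit 426544) (nat_lit 30) (.e (nat_lit 360467) (nat_lit 3) (.e (nat_lit 524032) (nat_lit 24) .nil))))) .nil))) (.nd (nat_lit 5) 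
(.lf (nat_lit 108436) (.g (nat_lit 2492) (.e (nat_lit 5258) (nat_lit 298) (.e (nat_lit 1400) (nat_lit 106) (.e (nat_lit 319533) (nat_lit 16) (.e (nat_lit 286753) (nat_lit 10) (.e (nat_lit 344157) (nat_lit 36) (.e (nat_lit 638986) (nat_lit 5) (.e (nat_lit 2828) (nat_lit 182) (.e (nat_lit 417536) (nat_lit 0) .nil)))))))) (.g (nat_lit 4) .nil .nil))) 
(.lf (nat_lit 108468) (.g (nat_lit 4951) (.e (nat_lit 5270) (nat_lit 298) (.e (nat_lit 1239) (nat_lit 91) (.e (nat_lit 90170) (nat_lit 13) (.e (nat_lit 172106) (nat_lit 10) (.e (nat_lit 434231) (nat_lit 23) (.e (nat_lit 532481) (nat_lit 0) (.e (nat_lit 6157) (nat_lit 332) (.e (nat_lit 1074) (nat_lit 81) .nil)))))))) (.g (nat_lit 6) .nil .nil))))) (.nd (nat_lit 4) (.nd (nat_lit 5) 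
(.lf (nat_lit 108428) (.g (nat_lit 2091) (.e (nat_lit 5258) (nat_lit 298) (.e (nat_lit 1256) (nat_lit 92) (.e (nat_lit 98359) (nat_lit 26) (.e (nat_lit 426286) (nat_lit 10) (.e (nat_lit 434247) (nat_lit 28) (.e (nat_lit 573457) (nat_lit 9) (.e (nat_lit 365) (nat_lit 31) (.e (nat_lit 417796) (nat_lit 0) .nil)))))))) (.g (nat_lit 5) .nil .nil))) 
(.lf (nat_lit 108460) (.g (nat_lit 2016) (.e (nat_lit 5270) (nat_lit 298) (.e (nat_lit 1239) (nat_lit 91) (.e (nat_lit 90170) (nat_lit 13) (.e (nat_lit 172097) (nat_lit 9) .nil)))) .nil))) (.nd (nat_lit 5) 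
(.lf (nat_lit 108444) (.g (nat_lit 1447) (.e (nat_lit 5259) (nat_lit 298) (.e (nat_lit 371) (nat_lit 32) (.e (nat_lit 426542) (nat_lit 29) (.e (nat_lit 352315) (nat_lit 23) .nil)))) .nil)) 
(.lf (nat_lit 108476) (.g (nat_lit 5053) (.e (nat_lit 5270) (nat_lit 298) (.e (nat_lit 1239) (nat_lit 91) (.e (nat_lit 90170) (nat_lit 13) (.e (nat_lit 172106) (nat_lit 10) (.e (nat_lit 434231) (nat_lit 23) (.e (nat_lit 532483) (nat_lit 0) (.e (nat_lit 6198) (nat_lit 332) (.e (nat_lit 1078) (nat_lit 81) .nil)))))))) (.g (nat_lit 0) .nil .nil))))))) 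
(.nd (nat_lit 2) (.nd (nat_lit 3) (.nd (nat_lit 4) (.nd (nat_lit 5) 
(.lf (nat_lit 108418) (.g (nat_lit 3659) (.e (nat_lit 5258) (nat_lit 298) (.e (nat_lit 1239) (nat_lit 91) (.e (nat_lit 90170) (nat_lit 13) (.e (nat_lit 172106) (nat_lit 10) (.e (nat_lit 434231) (nat_lit 23) (.e (nat_lit 532490) (nat_lit 0) (.e (nat_lit 6136) (nat_lit 332) (.e (nat_lit 988) (nat_lit 81) .nil)))))))) (.g (nat_lit 6) .nil .nil))) 
(.lf (nat_lit 108450) (.g (nat_lit 1957) (.e (nat_lit 5259) (nat_lit 298) (.e (nat_lit 496) (nat_lit 39) (.e (nat_lit 483413) (nat_lit 27) (.e (nat_lit 401463) (nat_lit 15) .nil)))) .nil))) (.nd (nat_lit 5) 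
(.lf (nat_lit 108434) (.g (nat_lit 2802) (.e (nat_lit 5258) (nat_lit 298) (.e (nat_lit 1256) (nat_lit 92) (.e (nat_lit 98373) (nat_lit 29) (.e (nat_lit 450588) (nat_lit 10) (.e (nat_lit 573457) (nat_lit 9) .nil))))) .nil)) 
(.lf (nat_lit 108466) (.g (nat_lit 3428) (.e (nat_lit 5270) (nat_lit 298) (.e (nat_lit 1239) (nat_lit 91) (.e (nat_lit 90170) (nat_lit 13) (.e (nat_lit 172106) (nat_lit 10) (.e (nat_lit 434227) (nat_lit 20) (.e (nat_lit 507929) (nat_lit 10) (.e (nat_lit 4979) (nat_lit 287) (.e (nat_lit 1079) (nat_lit 81) .nil)))))))) (.g (nat_lit 5) .nil .nil))))) (.nd (nat_lit 4) (.nd (nat_lit 5) 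
(.lf (nat_lit 108426) (.g (nat_lit 2816) (.e (nat_lit 5258) (nat_lit 298) (.e (nat_lit 1239) (nat_lit 91) (.e (nat_lit 90170) (nat_lit 13) (.e (nat_lit 172115) (nat_lit 10) (.e (nat_lit 434231) (nat_lit 23) .nil))))) .nil)) 
(.lf (nat_lit 108458) (.g (nat_lit 1838) (.e (nat_lit 5270) (nat_lit 298) (.e (nat_lit 1239) (nat_lit 91) (.e (nat_lit 90170) (nat_lit 13) (.e (nat_lit 172082) (nat_lit 7) .nil)))) .nil))) (.nd (nat_lit 5) 
(.lf (nat_lit 108442) (.g (nat_lit 2612) (.e (nat_lit 5259) (nat_lit 298) (.e (nat_lit 361) (nat_lit 30) (.e (nat_lit 409602) (nat_lit 0) (.e (nat_lit 5293) (nat_lit 298) (.e (nat_lit 1656) (nat_lit 115) (.e (nat_lit 393265) (nat_lit 22) (.e (nat_lit 425728) (nat_lit 10) .nil))))))) (.g (nat_lit 6) .nil .nil))) 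
(.lf (nat_lit 108474) (.g (nat_lit 3330) (.e (nat_lit 5270) (nat_lit 298) (.e (nat_lit 1239) (nat_lit 91) (.e (nat_lit 90170) (nat_lit 13) (.e (nat_lit 172106) (nat_lit 10) (.e (nat_lit 434231) (nat_lit 23) (.e (nat_lit 532482) (nat_lit 0) (.e (nat_lit 6155) (nat_lit 332) (.e (nat_lit 1078) (nat_lit 81) .nil)))))))) (.g (nat_lit 5) .nil .nil)))))) 
(.nd (nat_lit 3) (.nd (nat_lit 4) (.nd (nat_lit 5) 
(.lf (nat_lit 108422) (.g (nat_lit 3997) (.e (nat_lit 5258) (nat_lit 298) (.e (nat_lit 1239) (nat_lit 91) (.e (nat_lit 90170) (nat_lit 13) (.e (nat_lit 172106) (nat_lit 10) (.e (nat_lit 434231) (nat_lit 23) (.e (nat_lit 532523) (nat_lit 7) (.e (nat_lit 319497) (nat_lit 10) .nil))))))) (.g (nat_lit 7) .nil .nil))) 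
(.lf (nat_lit 108454) (.g (nat_lit 1894) (.e (nat_lit 5268) (nat_lit 298) (.e (nat_lit 371) (nat_lit 32) (.e (nat_lit 426542) (nat_lit 29) (.e (nat_lit 352315) (nat_lit 23) (.e (nat_lit 106240) (nat_lit 7) .nil))))) .nil))) (.nd (nat_lit 5) 
(.lf (nat_lit 108438) (.g (nat_lit 920) (.e (nat_lit 5258) (nat_lit 298) (.e (nat_lit 1657) (nat_lit 115) (.e (nat_lit 393234) (nat_lit 17) (.e (nat_lit 7587) (nat_lit 406) .nil)))) .nil)) 
(.lf (nat_lit 108470) (.g (nat_lit 2681) (.e (nat_lit 5270) (nat_lit 298) (.e (nat_lit 1239) (nat_lit 91) (.e (nat_lit 90170) (nat_lit 13) (.e (nat_lit 172106) (nat_lit 10) (.e (nat_lit 434231) (nat_lit 23) (.e (nat_lit 532482) (nat_lit 0) (.e (nat_lit 6152) (nat_lit 332) (.e (nat_lit 1070) (nat_lit 81) .nil)))))))) (.g (nat_lit 4) .nil .nil))))) (.nd (nat_lit 4) (.nd (nat_lit 5) 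
(.lf (nat_lit 108430) (.g (nat_lit 1522) (.e (nat_lit 5258) (nat_lit 298) (.e (nat_lit 1256) (nat_lit 92) (.e (nat_lit 98372) (nat_lit 29) (.e (nat_lit 450586) (nat_lit 10) (.e (nat_lit 573452) (nat_lit 9) .nil))))) .nil)) 
(.lf (nat_lit 108462) (.g (nat_lit 2204) (.e (nat_lit 5270) (nat_lit 298) (.e (nat_lit 1239) (nat_lit 91) (.e (nat_lit 90170) (nat_lit 13) (.e (nat_lit 172106) (nat_lit 10) (.e (nat_lit 434227) (nat_lit 20) .nil))))) .nil))) (.nd (nat_lit 5) 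
(.lf (nat_lit 108446) (.g (nat_lit 1289) (.e (nat_lit 5259) (nat_lit 298) (.e (nat_lit 371) (nat_lit 32) (.e (nat_lit 426546) (nat_lit 30) (.e (nat_lit 360466) (nat_lit 3) (.e (nat_lit 516191) (nat_lit 17) .nil))))) .nil)) 
(.lf (nat_lit 108478) (.g (nat_lit 4018) (.e (nat_lit 5270) (nat_lit 298) (.e (nat_lit 1239) (nat_lit 91) (.e (nat_lit 90170) (nat_lit 13) (.e (nat_lit 172106) (nat_lit 10) (.e (nat_lit 434231) (nat_lit 23) (.e (nat_lit 532483) (nat_lit 0) (.e (nat_lit 7936) (nat_lit 332) (.e (nat_lit 1077) (nat_lit 81) .nil)))))))) (.g (nat_lit 5) .nil .nil)))))))) 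
(.nd (nat_lit 1) (.nd (nat_lit 2) (.nd (nat_lit 3) (.nd (nat_lit 4) (.nd (nat_lit 5) 
(.lf (nat_lit 108417) (.g (nat_lit 1900) (.e (nat_lit 5258) (nat_lit 298) (.e (nat_lit 1239) (nat_lit 91) (.e (nat_lit 90170) (nat_lit 13) (.e (nat_lit 172106) (nat_lit 10) (.e (nat_lit 434231) (nat_lit 23) (.e (nat_lit 532490) (nat_lit 0) (.e (nat_lit 6136) (nat_lit 332) (.e (nat_lit 982) (nat_lit 81) .nil)))))))) (.g (nat_lit 4) .nil .nil))) 
(.lf (nat_lit 108449) (.g (nat_lit 1045) (.e (nat_lit 5259) (nat_lit 298) (.e (nat_lit 496) (nat_lit 39) (.e (nat_lit 483365) (nat_lit 18) (.e (nat_lit 57853) (nat_lit 252) .nil)))) .nil))) (.nd (nat_lit 5) 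
(.lf (nat_lit 108433) (.g (nat_lit 2736) (.e (nat_lit 5258) (nat_lit 298) (.e (nat_lit 1256) (nat_lit 92) (.e (nat_lit 98373) (nat_lit 29) (.e (nat_lit 450588) (nat_lit 10) (.e (nat_lit 573452) (nat_lit 9) (.e (nat_lit 365) (nat_lit 31) (.e (nat_lit 417796) (nat_lit 0) .nil))))))) (.g (nat_lit 5) .nil .nil))) 
(.lf (nat_lit 108465) (.g (nat_lit 3027) (.e (nat_lit 5270) (nat_lit 298) (.e (nat_lit 1239) (nat_lit 91) (.e (nat_lit 90170) (nat_lit 13) (.e (nat_lit 172106) (nat_lit 10) (.e (nat_lit 434227) (nat_lit 20) (.e (nat_lit 507928) (nat_lit 10) (.e (nat_lit 4979) (nat_lit 287) (.e (nat_lit 1079) (nat_lit 81) .nil)))))))) (.g (nat_lit 4) .nil .nil))))) (.nd (nat_lit 4) (.nd (nat_lit 5) 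
(.lf (nat_lit 108425) (.g (nat_lit 1960) (.e (nat_lit 5258) (nat_lit 298) (.e (nat_lit 1239) (nat_lit 91) (.e (nat_lit 90170) (nat_lit 13) (.e (nat_lit 172113) (nat_lit 10) .nil)))) .nil)) 
(.lf (nat_lit 108457) (.g (nat_lit 1916) (.e (nat_lit 5270) (nat_lit 298) (.e (nat_lit 1239) (nat_lit 91) (.e (nat_lit 90170) (nat_lit 13) (.e (nat_lit 172079) (nat_lit 7) .nil)))) .nil))) (.nd (nat_lit 5) 
(.lf (nat_lit 108441) (.g (nat_lit 779) (.e (nat_lit 5259) (nat_lit 298) (.e (nat_lit 174) (nat_lit 12) (.e (nat_lit 204831) (nat_lit 18) (.e (nat_lit 57846) (nat_lit 252) .nil)))) .nil)) 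
(.lf (nat_lit 108473) (.g (nat_lit 3093) (.e (nat_lit 5270) (nat_lit 298) (.e (nat_lit 1239) (nat_lit 91) (.e (nat_lit 90170) (nat_lit 13) (.e (nat_lit 172106) (nat_lit 10) (.e (nat_lit 434231) (nat_lit 23) (.e (nat_lit 532482) (nat_lit 0) (.e (nat_lit 6154) (nat_lit 332) (.e (nat_lit 1079) (nat_lit 81) .nil)))))))) (.g (nat_lit 5) .nil .nil)))))) 
(.nd (nat_lit 3) (.nd (nat_lit 4) (.nd (nat_lit 5) 
(.lf (nat_lit 108421) (.g (nat_lit 4053) (.e (nat_lit 5258) (nat_lit 298) (.e (nat_lit 1239) (nat_lit 91) (.e (nat_lit 90170) (nat_lit 13) (.e (nat_lit 172106) (nat_lit 10) (.e (nat_lit 434231) (nat_lit 23) (.e (nat_lit 532490) (nat_lit 0) (.e (nat_lit 6136) (nat_lit 332) (.e (nat_lit 995) (nat_lit 81) .nil)))))))) (.g (nat_lit 8) .nil .nil))) 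
(.lf (nat_lit 108453) (.g (nat_lit 1319) (.e (nat_lit 5268) (nat_lit 298) (.e (nat_lit 371) (nat_lit 32) (.e (nat_lit 426542) (nat_lit 29) (.e (nat_lit 352313) (nat_lit 23) .nil)))) .nil))) (.nd (nat_lit 5) 
(.lf (nat_lit 108437) (.g (nat_lit 2615) (.e (nat_lit 5258) (nat_lit 298) (.e (nat_lit 1400) (nat_lit 106) (.e (nat_lit 319534) (nat_lit 16) (.e (nat_lit 286756) (nat_lit 10) (.e (nat_lit 344160) (nat_lit 37) .nil))))) .nil)) 
(.lf (nat_lit 108469) (.g (nat_lit 2573) (.e (nat_lit 5270) (nat_lit 298) (.e (nat_lit 1239) (nat_lit 91) (.e (nat_lit 90170) (nat_lit 13) (.e (nat_lit 172106) (nat_lit 10) (.e (nat_lit 434231) (nat_lit 23) (.e (nat_lit 532482) (nat_lit 0) (.e (nat_lit 6152) (nat_lit 332) (.e (nat_lit 979) (nat_lit 81) .nil)))))))) (.g (nat_lit 4) .nil .nil))))) (.nd (nat_lit 4) (.nd (nat_lit 5) 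
(.lf (nat_lit 108429) (.g (nat_lit 1380) (.e (nat_lit 5258) (nat_lit 298) (.e (nat_lit 1256) (nat_lit 92) (.e (nat_lit 98370) (nat_lit 28) (.e (nat_lit 442427) (nat_lit 23) (.e (nat_lit 204821) (nat_lit 17) (.e (nat_lit 6136) (nat_lit 332) (.e (nat_lit 995) (nat_lit 81) .nil))))))) (.g (nat_lit 4) .nil .nil))) 
(.lf (nat_lit 108461) (.g (nat_lit 2503) (.e (nat_lit 5270) (nat_lit 298) (.e (nat_lit 1239) (nat_lit 91) (.e (nat_lit 90170) (nat_lit 13) (.e (nat_lit 172097) (nat_lit 9) (.e (nat_lit 426140) (nat_lit 3) .nil))))) .nil))) (.nd (nat_lit 5) 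
(.lf (nat_lit 108445) (.g (nat_lit 1830) (.e (nat_lit 5259) (nat_lit 298) (.e (nat_lit 371) (nat_lit 32) (.e (nat_lit 426544) (nat_lit 30) (.e (nat_lit 360467) (nat_lit 3) (.e (nat_lit 516191) (nat_lit 17) .nil))))) .nil)) 
(.lf (nat_lit 108477) (.g (nat_lit 4116) (.e (nat_lit 5270) (nat_lit 298) (.e (nat_lit 1239) (nat_lit 91) (.e (nat_lit 90170) (nat_lit 13) (.e (nat_lit 172106) (nat_lit 10) (.e (nat_lit 434231) (nat_lit 23) (.e (nat_lit 532483) (nat_lit 0) (.e (nat_lit 6200) (nat_lit 332) (.e (nat_lit 1074) (nat_lit 81) .nil)))))))) (.g (nat_lit 5) .nil .nil))))))) 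
(.nd (nat_lit 2) (.nd (nat_lit 3) (.nd (nat_lit 4) (.nd (nat_lit 5) 
(.lf (nat_lit 108419) (.g (nat_lit 2600) (.e (nat_lit 5258) (nat_lit 298) (.e (nat_lit 1239) (nat_lit 91) (.e (nat_lit 90170) (nat_lit 13) (.e (nat_lit 172106) (nat_lit 10) (.e (nat_lit 434231) (nat_lit 23) (.e (nat_lit 532490) (nat_lit 0) (.e (nat_lit 6136) (nat_lit 332) (.e (nat_lit 993) (nat_lit 81) .nil)))))))) (.g (nat_lit 5) .nil .nil))) 
(.lf (nat_lit 108451) (.g (nat_lit 1161) (.e (nat_lit 5261) (nat_lit 298) (.e (nat_lit 371) (nat_lit 32) (.e (nat_lit 426542) (nat_lit 29) (.e (nat_lit 352315) (nat_lit 23) .nil)))) .nil))) (.nd (nat_lit 5) 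
(.lf (nat_lit 108435) (.g (nat_lit 1889) (.e (nat_lit 5258) (nat_lit 298) (.e (nat_lit 1400) (nat_lit 106) (.e (nat_lit 319533) (nat_lit 16) (.e (nat_lit 286753) (nat_lit 10) .nil)))) .nil)) 
(.lf (nat_lit 108467) (.g (nat_lit 3518) (.e (nat_lit 5270) (nat_lit 298) (.e (nat_lit 1239) (nat_lit 91) (.e (nat_lit 90170) (nat_lit 13) (.e (nat_lit 172106) (nat_lit 10) (.e (nat_lit 434227) (nat_lit 20) (.e (nat_lit 507930) (nat_lit 10) (.e (nat_lit 4979) (nat_lit 287) (.e (nat_lit 1079) (nat_lit 81) .nil)))))))) (.g (nat_lit 5) .nil .nil))))) (.nd (nat_lit 4) (.nd (nat_lit 5) 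
(.lf (nat_lit 108427) (.g (nat_lit 1329) (.e (nat_lit 5258) (nat_lit 298) (.e (nat_lit 1239) (nat_lit 91) (.e (nat_lit 90178) (nat_lit 15) (.e (nat_lit 188451) (nat_lit 23) .nil)))) .nil)) 
(.lf (nat_lit 108459) (.g (nat_lit 2470) (.e (nat_lit 5270) (nat_lit 298) (.e (nat_lit 1239) (nat_lit 91) (.e (nat_lit 90170) (nat_lit 13) (.e (nat_lit 172088) (nat_lit 9) .nil)))) .nil))) (.nd (nat_lit 5) 
(.lf (nat_lit 108443) (.g (nat_lit 1528) (.e (nat_lit 5259) (nat_lit 298) (.e (nat_lit 371) (nat_lit 32) (.e (nat_lit 426542) (nat_lit 29) (.e (nat_lit 352313) (nat_lit 23) .nil)))) .nil)) 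
(.lf (nat_lit 108475) (.g (nat_lit 3222) (.e (nat_lit 5270) (nat_lit 298) (.e (nat_lit 1239) (nat_lit 91) (.e (nat_lit 90170) (nat_lit 13) (.e (nat_lit 172106) (nat_lit 10) (.e (nat_lit 434231) (nat_lit 23) (.e (nat_lit 532482) (nat_lit 0) (.e (nat_lit 6156) (nat_lit 332) (.e (nat_lit 1079) (nat_lit 81) .nil)))))))) (.g (nat_lit 5) .nil .nil)))))) 
(.nd (nat_lit 3) (.nd (nat_lit 4) (.nd (nat_lit 5) 
(.lf (nat_lit 108423) (.g (nat_lit 3999) (.e (nat_lit 5258) (nat_lit 298) (.e (nat_lit 1239) (nat_lit 91) (.e (nat_lit 90170) (nat_lit 13) (.e (nat_lit 172106) (nat_lit 10) (.e (nat_lit 434231) (nat_lit 23) (.e (nat_lit 532526) (nat_lit 8) (.e (nat_lit 327702) (nat_lit 10) .nil))))))) (.g (nat_lit 7) .nil .nil))) 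
(.lf (nat_lit 108455) (.g (nat_lit 2688) (.e (nat_lit 5270) (nat_lit 298) (.e (nat_lit 430) (nat_lit 32) (.e (nat_lit 426343) (nat_lit 14) (.e (nat_lit 491570) (nat_lit 13) (.e (nat_lit 393238) (nat_lit 17) .nil))))) .nil))) (.nd (nat_lit 5) 
(.lf (nat_lit 108439) (.g (nat_lit 2356) (.e (nat_lit 5259) (nat_lit 298) (.e (nat_lit 20) (nat_lit 0) (.e (nat_lit 6989) (nat_lit 377) (.e (nat_lit 1361) (nat_lit 102) (.e (nat_lit 286761) (nat_lit 13) (.e (nat_lit 393265) (nat_lit 22) (.e (nat_lit 425728) (nat_lit 10) .nil))))))) (.g (nat_lit 6) .nil .nil))) 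
(.lf (nat_lit 108471) (.g (nat_lit 3143) (.e (nat_lit 5270) (nat_lit 298) (.e (nat_lit 1239) (nat_lit 91) (.e (nat_lit 90170) (nat_lit 13) (.e (nat_lit 172106) (nat_lit 10) (.e (nat_lit 434231) (nat_lit 23) (.e (nat_lit 532482) (nat_lit 0) (.e (nat_lit 6152) (nat_lit 332) (.e (nat_lit 1078) (nat_lit 81) .nil)))))))) (.g (nat_lit 5) .nil .nil))))) (.nd (nat_lit 4) (.nd (nat_lit 5) 
(.lf (nat_lit 108431) (.g (nat_lit 1555) (.e (nat_lit 5258) (nat_lit 298) (.e (nat_lit 1256) (nat_lit 92) (.e (nat_lit 98372) (nat_lit 29) (.e (nat_lit 450586) (nat_lit 10) (.e (nat_lit 573456) (nat_lit 9) .nil))))) .nil)) 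
(.lf (nat_lit 108463) (.g (nat_lit 3525) (.e (nat_lit 5270) (nat_lit 298) (.e (nat_lit 1239) (nat_lit 91) (.e (nat_lit 90170) (nat_lit 13) (.e (nat_lit 172106) (nat_lit 10) (.e (nat_lit 434227) (nat_lit 20) (.e (nat_lit 507928) (nat_lit 10) (.e (nat_lit 4929) (nat_lit 287) (.e (nat_lit 1079) (nat_lit 81) .nil)))))))) (.g (nat_lit 5) .nil .nil)))) (.nd (nat_lit 5) 
(.lf (nat_lit 108447) (.g (nat_lit 1831) (.e (nat_lit 5259) (nat_lit 298) (.e (nat_lit 496) (nat_lit 39) (.e (nat_lit 483363) (nat_lit 18) (.e (nat_lit 57847) (nat_lit 252) (.e (nat_lit 57379) (nat_lit 3) .nil))))) .nil)) 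
(.lf (nat_lit 108479) (.g (nat_lit 3973) (.e (nat_lit 5270) (nat_lit 298) (.e (nat_lit 1239) (nat_lit 91) (.e (nat_lit 90170) (nat_lit 13) (.e (nat_lit 172106) (nat_lit 10) (.e (nat_lit 434231) (nat_lit 23) (.e (nat_lit 532483) (nat_lit 0) (.e (nat_lit 7936) (nat_lit 332) (.e (nat_lit 1079) (nat_lit 81) .nil)))))))) (.g (nat_lit 5) .nil .nil)))))))))

noncomputable def tv1468 : DT := (.nd (nat_lit 0) (.nd (nat_lit 1) (.nd (nat_lit 2) (.nd (nat_lit 3) (.nd (nat_lit 4) (.nd (nat_lit 5) 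
(.lf (nat_lit 108480) (.g (nat_lit 2754) (.e (nat_lit 5270) (nat_lit 298) (.e (nat_lit 1239) (nat_lit 91) (.e (nat_lit 90170) (nat_lit 13) (.e (nat_lit 172106) (nat_lit 10) (.e (nat_lit 434231) (nat_lit 23) (.e (nat_lit 532486) (nat_lit 0) (.e (nat_lit 6097) (nat_lit 332) (.e (nat_lit 7936) (nat_lit 81) .nil)))))))) (.g (nat_lit 5) .nil .nil))) 
(.lf (nat_lit 108512) (.g (nat_lit 4232) (.e (nat_lit 5270) (nat_lit 298) (.e (nat_lit 1239) (nat_lit 91) (.e (nat_lit 90170) (nat_lit 13) (.e (nat_lit 172106) (nat_lit 10) (.e (nat_lit 434231) (nat_lit 23) (.e (nat_lit 532526) (nat_lit 8) (.e (nat_lit 335616) (nat_lit 10) .nil))))))) (.g (nat_lit 6) .nil .nil)))) (.nd (nat_lit 5) 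
(.lf (nat_lit 108496) (.g (nat_lit 4331) (.e (nat_lit 5270) (nat_lit 298) (.e (nat_lit 1239) (nat_lit 91) (.e (nat_lit 90170) (nat_lit 13) (.e (nat_lit 172106) (nat_lit 10) (.e (nat_lit 434231) (nat_lit 23) (.e (nat_lit 532490) (nat_lit 0) (.e (nat_lit 6114) (nat_lit 332) (.e (nat_lit 978) (nat_lit 81) .nil)))))))) (.g (nat_lit 7) .nil .nil))) 
(.lf (nat_lit 108528) (.g (nat_lit 2472) (.e (nat_lit 5270) (nat_lit 298) (.e (nat_lit 1239) (nat_lit 91) (.e (nat_lit 90170) (nat_lit 13) (.e (nat_lit 172113) (nat_lit 10) (.e (nat_lit 434227) (nat_lit 20) (.e (nat_lit 507928) (nat_lit 10) (.e (nat_lit 4931) (nat_lit 287) (.e (nat_lit 1079) (nat_lit 81) .nil)))))))) (.g (nat_lit 4) .nil .nil))))) (.nd (nat_lit 4) (.nd (nat_lit 5) 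
(.lf (nat_lit 108488) (.g (nat_lit 2918) (.e (nat_lit 5270) (nat_lit 298) (.e (nat_lit 1239) (nat_lit 91) (.e (nat_lit 90170) (nat_lit 13) (.e (nat_lit 172106) (nat_lit 10) (.e (nat_lit 434231) (nat_lit 23) (.e (nat_lit 532490) (nat_lit 0) (.e (nat_lit 6092) (nat_lit 332) (.e (nat_lit 969) (nat_lit 81) .nil)))))))) (.g (nat_lit 5) .nil .nil))) 
(.lf (nat_lit 108520) (.g (nat_lit 3510) (.e (nat_lit 5270) (nat_lit 298) (.e (nat_lit 1239) (nat_lit 91) (.e (nat_lit 90170) (nat_lit 13) (.e (nat_lit 172106) (nat_lit 10) (.e (nat_lit 434244) (nat_lit 28) (.e (nat_lit 573468) (nat_lit 10) (.e (nat_lit 8490) (nat_lit 180) (.e (nat_lit 1088) (nat_lit 81) .nil)))))))) (.g (nat_lit 5) .nil .nil)))) (.nd (nat_lit 5) 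
(.lf (nat_lit 108504) (.g (nat_lit 3920) (.e (nat_lit 5270) (nat_lit 298) (.e (nat_lit 1239) (nat_lit 91) (.e (nat_lit 90170) (nat_lit 13) (.e (nat_lit 172106) (nat_lit 10) (.e (nat_lit 434231) (nat_lit 23) (.e (nat_lit 532490) (nat_lit 0) (.e (nat_lit 7936) (nat_lit 332) (.e (nat_lit 977) (nat_lit 81) .nil)))))))) (.g (nat_lit 6) .nil .nil))) 
(.lf (nat_lit 108536) (.g (nat_lit 2651) (.e (nat_lit 5270) (nat_lit 298) (.e (nat_lit 1239) (nat_lit 91) (.e (nat_lit 90170) (nat_lit 13) (.e (nat_lit 172113) (nat_lit 10) (.e (nat_lit 434245) (nat_lit 28) (.e (nat_lit 573451) (nat_lit 9) (.e (nat_lit 59) (nat_lit 0) (.e (nat_lit 6988) (nat_lit 377) (.e (nat_lit 977) (nat_lit 81) .nil))))))))) (.g (nat_lit 4) .nil .nil)))))) 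
(.nd (nat_lit 3) (.nd (nat_lit 4) (.nd (nat_lit 5) 
(.lf (nat_lit 108484) (.g (nat_lit 3064) (.e (nat_lit 5270) (nat_lit 298) (.e (nat_lit 1239) (nat_lit 91) (.e (nat_lit 90170) (nat_lit 13) (.e (nat_lit 172106) (nat_lit 10) (.e (nat_lit 434231) (nat_lit 23) (.e (nat_lit 532486) (nat_lit 0) (.e (nat_lit 6113) (nat_lit 332) (.e (nat_lit 1074) (nat_lit 81) .nil)))))))) (.g (nat_lit 5) .nil .nil))) 
(.lf (nat_lit 108516) (.g (nat_lit 3414) (.e (nat_lit 5270) (nat_lit 298) (.e (nat_lit 1239) (nat_lit 91) (.e (nat_lit 90170) (nat_lit 13) (.e (nat_lit 172106) (nat_lit 10) (.e (nat_lit 434244) (nat_lit 28) (.e (nat_lit 573468) (nat_lit 10) (.e (nat_lit 8490) (nat_lit 180) (.e (nat_lit 979) (nat_lit 81) .nil)))))))) (.g (nat_lit 5) .nil .nil)))) (.nd (nat_lit 5) 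
(.lf (nat_lit 108500) (.g (nat_lit 3597) (.e (nat_lit 5270) (nat_lit 298) (.e (nat_lit 1239) (nat_lit 91) (.e (nat_lit 90170) (nat_lit 13) (.e (nat_lit 172106) (nat_lit 10) (.e (nat_lit 434231) (nat_lit 23) (.e (nat_lit 532490) (nat_lit 0) (.e (nat_lit 6136) (nat_lit 332) (.e (nat_lit 1074) (nat_lit 81) .nil)))))))) (.g (nat_lit 6) .nil .nil))) 
(.lf (nat_lit 108532) (.g (nat_lit 2487) (.e (nat_lit 5270) (nat_lit 298) (.e (nat_lit 1239) (nat_lit 91) (.e (nat_lit 90170) (nat_lit 13) (.e (nat_lit 172113) (nat_lit 10) (.e (nat_lit 434238) (nat_lit 25) .nil))))) .nil)))) (.nd (nat_lit 4) (.nd (nat_lit 5) 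
(.lf (nat_lit 108492) (.g (nat_lit 2521) (.e (nat_lit 5270) (nat_lit 298) (.e (nat_lit 1239) (nat_lit 91) (.e (nat_lit 90170) (nat_lit 13) (.e (nat_lit 172106) (nat_lit 10) (.e (nat_lit 434231) (nat_lit 23) (.e (nat_lit 532490) (nat_lit 0) (.e (nat_lit 6092) (nat_lit 332) (.e (nat_lit 1080) (nat_lit 81) .nil)))))))) (.g (nat_lit 4) .nil .nil))) 
(.lf (nat_lit 108524) (.g (nat_lit 2435) (.e (nat_lit 5270) (nat_lit 298) (.e (nat_lit 1239) (nat_lit 91) (.e (nat_lit 90170) (nat_lit 13) (.e (nat_lit 172106) (nat_lit 10) (.e (nat_lit 434244) (nat_lit 28) (.e (nat_lit 573468) (nat_lit 10) (.e (nat_lit 8493) (nat_lit 180) (.e (nat_lit 1077) (nat_lit 81) .nil)))))))) (.g (nat_lit 4) .nil .nil)))) (.nd (nat_lit 5) 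
(.lf (nat_lit 108508) (.g (nat_lit 4330) (.e (nat_lit 5270) (nat_lit 298) (.e (nat_lit 1239) (nat_lit 91) (.e (nat_lit 90170) (nat_lit 13) (.e (nat_lit 172106) (nat_lit 10) (.e (nat_lit 434231) (nat_lit 23) (.e (nat_lit 532490) (nat_lit 0) (.e (nat_lit 7936) (nat_lit 332) (.e (nat_lit 1077) (nat_lit 81) .nil)))))))) (.g (nat_lit 6) .nil .nil))) 
(.lf (nat_lit 108540) (.g (nat_lit 2767) (.e (nat_lit 5270) (nat_lit 298) (.e (nat_lit 1239) (nat_lit 91) (.e (nat_lit 90170) (nat_lit 13) (.e (nat_lit 172113) (nat_lit 10) (.e (nat_lit 434245) (nat_lit 28) (.e (nat_lit 573468) (nat_lit 10) (.e (nat_lit 8490) (nat_lit 180) (.e (nat_lit 1074) (nat_lit 81) .nil)))))))) (.g (nat_lit 4) .nil .nil))))))) 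
(.nd (nat_lit 2) (.nd (nat_lit 3) (.nd (nat_lit 4) (.nd (nat_lit 5) 
(.lf (nat_lit 108482) (.g (nat_lit 3260) (.e (nat_lit 5270) (nat_lit 298) (.e (nat_lit 1239) (nat_lit 91) (.e (nat_lit 90170) (nat_lit 13) (.e (nat_lit 172106) (nat_lit 10) (.e (nat_lit 434231) (nat_lit 23) (.e (nat_lit 532486) (nat_lit 0) (.e (nat_lit 6113) (nat_lit 332) (.e (nat_lit 977) (nat_lit 81) .nil)))))))) (.g (nat_lit 5) .nil .nil))) 
(.lf (nat_lit 108514) (.g (nat_lit 4486) (.e (nat_lit 5270) (nat_lit 298) (.e (nat_lit 1239) (nat_lit 91) (.e (nat_lit 90170) (nat_lit 13) (.e (nat_lit 172106) (nat_lit 10) (.e (nat_lit 434238) (nat_lit 25) (.e (nat_lit 548898) (nat_lit 14) (.e (nat_lit 2825) (nat_lit 182) (.e (nat_lit 409605) (nat_lit 0) .nil)))))))) (.g (nat_lit 6) .nil .nil)))) (.nd (nat_lit 5) 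
(.lf (nat_lit 108498) (.g (nat_lit 4331) (.e (nat_lit 5270) (nat_lit 298) (.e (nat_lit 1239) (nat_lit 91) (.e (nat_lit 90170) (nat_lit 13) (.e (nat_lit 172106) (nat_lit 10) (.e (nat_lit 434231) (nat_lit 23) (.e (nat_lit 532490) (nat_lit 0) (.e (nat_lit 6114) (nat_lit 332) (.e (nat_lit 1080) (nat_lit 81) .nil)))))))) (.g (nat_lit 7) .nil .nil))) 
(.lf (nat_lit 108530) (.g (nat_lit 3343) (.e (nat_lit 5270) (nat_lit 298) (.e (nat_lit 1239) (nat_lit 91) (.e (nat_lit 90170) (nat_lit 13) (.e (nat_lit 172113) (nat_lit 10) (.e (nat_lit 434227) (nat_lit 20) (.e (nat_lit 507929) (nat_lit 10) (.e (nat_lit 4979) (nat_lit 287) (.e (nat_lit 1079) (nat_lit 81) .nil)))))))) (.g (nat_lit 5) .nil .nil))))) (.nd (nat_lit 4) (.nd (nat_lit 5) 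
(.lf (nat_lit 108490) (.g (nat_lit 2157) (.e (nat_lit 5270) (nat_lit 298) (.e (nat_lit 1239) (nat_lit 91) (.e (nat_lit 90170) (nat_lit 13) (.e (nat_lit 172106) (nat_lit 10) (.e (nat_lit 434231) (nat_lit 23) (.e (nat_lit 532490) (nat_lit 0) (.e (nat_lit 6092) (nat_lit 332) (.e (nat_lit 977) (nat_lit 81) .nil)))))))) (.g (nat_lit 4) .nil .nil))) 
(.lf (nat_lit 108522) (.g (nat_lit 3244) (.e (nat_lit 5270) (nat_lit 298) (.e (nat_lit 1239) (nat_lit 91) (.e (nat_lit 90170) (nat_lit 13) (.e (nat_lit 172106) (nat_lit 10) (.e (nat_lit 434244) (nat_lit 28) (.e (nat_lit 573468) (nat_lit 10) (.e (nat_lit 8492) (nat_lit 180) (.e (nat_lit 1077) (nat_lit 81) .nil)))))))) (.g (nat_lit 5) .nil .nil)))) (.nd (nat_lit 5) 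
(.lf (nat_lit 108506) (.g (nat_lit 2847) (.e (nat_lit 5270) (nat_lit 298) (.e (nat_lit 1239) (nat_lit 91) (.e (nat_lit 90170) (nat_lit 13) (.e (nat_lit 172106) (nat_lit 10) (.e (nat_lit 434231) (nat_lit 23) (.e (nat_lit 532490) (nat_lit 0) (.e (nat_lit 7936) (nat_lit 332) (.e (nat_lit 1074) (nat_lit 81) .nil)))))))) (.g (nat_lit 5) .nil .nil))) 
(.lf (nat_lit 108538) (.g (nat_lit 3675) (.e (nat_lit 5270) (nat_lit 298) (.e (nat_lit 1239) (nat_lit 91) (.e (nat_lit 90170) (nat_lit 13) (.e (nat_lit 172113) (nat_lit 10) (.e (nat_lit 434245) (nat_lit 28) (.e (nat_lit 573468) (nat_lit 10) (.e (nat_lit 8490) (nat_lit 180) (.e (nat_lit 979) (nat_lit 81) .nil)))))))) (.g (nat_lit 5) .nil .nil)))))) 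
(.nd (nat_lit 3) (.nd (nat_lit 4) (.nd (nat_lit 5) 
(.lf (nat_lit 108486) (.g (nat_lit 3466) (.e (nat_lit 5270) (nat_lit 298) (.e (nat_lit 1239) (nat_lit 91) (.e (nat_lit 90170) (nat_lit 13) (.e (nat_lit 172106) (nat_lit 10) (.e (nat_lit 434231) (nat_lit 23) (.e (nat_lit 532486) (nat_lit 0) (.e (nat_lit 6113) (nat_lit 332) (.e (nat_lit 7936) (nat_lit 81) .nil)))))))) (.g (nat_lit 6) .nil .nil))) 
(.lf (nat_lit 108518) (.g (nat_lit 3345) (.e (nat_lit 5270) (nat_lit 298) (.e (nat_lit 1239) (nat_lit 91) (.e (nat_lit 90170) (nat_lit 13) (.e (nat_lit 172106) (nat_lit 10) (.e (nat_lit 434244) (nat_lit 28) (.e (nat_lit 573468) (nat_lit 10) (.e (nat_lit 8490) (nat_lit 180) (.e (nat_lit 1078) (nat_lit 81) .nil)))))))) (.g (nat_lit 5) .nil .nil)))) (.nd (nat_lit 5) 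
(.lf (nat_lit 108502) (.g (nat_lit 3555) (.e (nat_lit 5270) (nat_lit 298) (.e (nat_lit 1239) (nat_lit 91) (.e (nat_lit 90170) (nat_lit 13) (.e (nat_lit 172106) (nat_lit 10) (.e (nat_lit 434231) (nat_lit 23) (.e (nat_lit 532490) (nat_lit 0) (.e (nat_lit 6149) (nat_lit 332) (.e (nat_lit 1074) (nat_lit 81) .nil)))))))) (.g (nat_lit 6) .nil .nil))) 
(.lf (nat_lit 108534) (.g (nat_lit 2065) (.e (nat_lit 5270) (nat_lit 298) (.e (nat_lit 1239) (nat_lit 91) (.e (nat_lit 90170) (nat_lit 13) (.e (nat_lit 172113) (nat_lit 10) (.e (nat_lit 434242) (nat_lit 28) .nil))))) .nil)))) (.nd (nat_lit 4) (.nd (nat_lit 5) 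
(.lf (nat_lit 108494) (.g (nat_lit 3246) (.e (nat_lit 5270) (nat_lit 298) (.e (nat_lit 1239) (nat_lit 91) (.e (nat_lit 90170) (nat_lit 13) (.e (nat_lit 172106) (nat_lit 10) (.e (nat_lit 434231) (nat_lit 23) (.e (nat_lit 532490) (nat_lit 0) (.e (nat_lit 6092) (nat_lit 332) (.e (nat_lit 1088) (nat_lit 81) .nil)))))))) (.g (nat_lit 5) .nil .nil))) 
(.lf (nat_lit 108526) (.g (nat_lit 1471) (.e (nat_lit 5270) (nat_lit 298) (.e (nat_lit 1239) (nat_lit 91) (.e (nat_lit 90170) (nat_lit 13) (.e (nat_lit 172113) (nat_lit 10) .nil)))) .nil))) (.nd (nat_lit 5) 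
(.lf (nat_lit 108510) (.g (nat_lit 4008) (.e (nat_lit 5270) (nat_lit 298) (.e (nat_lit 1239) (nat_lit 91) (.e (nat_lit 90170) (nat_lit 13) (.e (nat_lit 172106) (nat_lit 10) (.e (nat_lit 434231) (nat_lit 23) (.e (nat_lit 532522) (nat_lit 7) (.e (nat_lit 327424) (nat_lit 10) .nil))))))) (.g (nat_lit 6) .nil .nil))) 
(.lf (nat_lit 108542) (.g (nat_lit 4142) (.e (nat_lit 5270) (nat_lit 298) (.e (nat_lit 1239) (nat_lit 91) (.e (nat_lit 90170) (nat_lit 13) (.e (nat_lit 172113) (nat_lit 10) (.e (nat_lit 434245) (nat_lit 28) (.e (nat_lit 573468) (nat_lit 10) (.e (nat_lit 8490) (nat_lit 180) (.e (nat_lit 1079) (nat_lit 81) .nil)))))))) (.g (nat_lit 6) .nil .nil)))))))) 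
(.nd (nat_lit 1) (.nd (nat_lit 2) (.nd (nat_lit 3) (.nd (nat_lit 4) (.nd (nat_lit 5) 
(.lf (nat_lit 108481) (.g (nat_lit 4784) (.e (nat_lit 5270) (nat_lit 298) (.e (nat_lit 1239) (nat_lit 91) (.e (nat_lit 90170) (nat_lit 13) (.e (nat_lit 172106) (nat_lit 10) (.e (nat_lit 434231) (nat_lit 23) (.e (nat_lit 532486) (nat_lit 0) (.e (nat_lit 6113) (nat_lit 332) (.e (nat_lit 975) (nat_lit 81) .nil)))))))) (.g (nat_lit 8) .nil .nil))) 
(.lf (nat_lit 108513) (.g (nat_lit 2248) (.e (nat_lit 5270) (nat_lit 298) (.e (nat_lit 1239) (nat_lit 91) (.e (nat_lit 90170) (nat_lit 13) (.e (nat_lit 172106) (nat_lit 10) (.e (nat_lit 434238) (nat_lit 25) .nil))))) .nil))) (.nd (nat_lit 5) 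
(.lf (nat_lit 108497) (.g (nat_lit 4667) (.e (nat_lit 5270) (nat_lit 298) (.e (nat_lit 1239) (nat_lit 91) (.e (nat_lit 90170) (nat_lit 13) (.e (nat_lit 172106) (nat_lit 10) (.e (nat_lit 434231) (nat_lit 23) (.e (nat_lit 532490) (nat_lit 0) (.e (nat_lit 6114) (nat_lit 332) (.e (nat_lit 1076) (nat_lit 81) .nil)))))))) (.g (nat_lit 7) .nil .nil))) 
(.lf (nat_lit 108529) (.g (nat_lit 2742) (.e (nat_lit 5270) (nat_lit 298) (.e (nat_lit 1239) (nat_lit 91) (.e (nat_lit 90170) (nat_lit 13) (.e (nat_lit 172113) (nat_lit 10) (.e (nat_lit 434227) (nat_lit 20) (.e (nat_lit 507928) (nat_lit 10) (.e (nat_lit 4979) (nat_lit 287) (.e (nat_lit 1079) (nat_lit 81) .nil)))))))) (.g (nat_lit 4) .nil .nil))))) (.nd (nat_lit 4) (.nd (nat_lit 5) 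
(.lf (nat_lit 108489) (.g (nat_lit 3299) (.e (nat_lit 5270) (nat_lit 298) (.e (nat_lit 1239) (nat_lit 91) (.e (nat_lit 90170) (nat_lit 13) (.e (nat_lit 172106) (nat_lit 10) (.e (nat_lit 434231) (nat_lit 23) (.e (nat_lit 532490) (nat_lit 0) (.e (nat_lit 6092) (nat_lit 332) (.e (nat_lit 976) (nat_lit 81) .nil)))))))) (.g (nat_lit 5) .nil .nil))) 
(.lf (nat_lit 108521) (.g (nat_lit 3462) (.e (nat_lit 5270) (nat_lit 298) (.e (nat_lit 1239) (nat_lit 91) (.e (nat_lit 90170) (nat_lit 13) (.e (nat_lit 172106) (nat_lit 10) (.e (nat_lit 434244) (nat_lit 28) (.e (nat_lit 573468) (nat_lit 10) (.e (nat_lit 8492) (nat_lit 180) (.e (nat_lit 1074) (nat_lit 81) .nil)))))))) (.g (nat_lit 5) .nil .nil)))) (.nd (nat_lit 5) 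
(.lf (nat_lit 108505) (.g (nat_lit 2810) (.e (nat_lit 5270) (nat_lit 298) (.e (nat_lit 1239) (nat_lit 91) (.e (nat_lit 90170) (nat_lit 13) (.e (nat_lit 172106) (nat_lit 10) (.e (nat_lit 434231) (nat_lit 23) (.e (nat_lit 532490) (nat_lit 0) (.e (nat_lit 7936) (nat_lit 332) (.e (nat_lit 1070) (nat_lit 81) .nil)))))))) (.g (nat_lit 5) .nil .nil))) 
(.lf (nat_lit 108537) (.g (nat_lit 4215) (.e (nat_lit 5270) (nat_lit 298) (.e (nat_lit 1239) (nat_lit 91) (.e (nat_lit 90170) (nat_lit 13) (.e (nat_lit 172113) (nat_lit 10) (.e (nat_lit 434245) (nat_lit 28) (.e (nat_lit 573468) (nat_lit 10) (.e (nat_lit 8490) (nat_lit 180) (.e (nat_lit 969) (nat_lit 81) .nil)))))))) (.g (nat_lit 6) .nil .nil)))))) 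
(.nd (nat_lit 3) (.nd (nat_lit 4) (.nd (nat_lit 5) 
(.lf (nat_lit 108485) (.g (nat_lit 2841) (.e (nat_lit 5270) (nat_lit 298) (.e (nat_lit 1239) (nat_lit 91) (.e (nat_lit 90170) (nat_lit 13) (.e (nat_lit 172106) (nat_lit 10) (.e (nat_lit 434231) (nat_lit 23) (.e (nat_lit 532486) (nat_lit 0) (.e (nat_lit 6113) (nat_lit 332) (.e (nat_lit 1081) (nat_lit 81) .nil)))))))) (.g (nat_lit 5) .nil .nil))) 
(.lf (nat_lit 108517) (.g (nat_lit 3077) (.e (nat_lit 5270) (nat_lit 298) (.e (nat_lit 1239) (nat_lit 91) (.e (nat_lit 90170) (nat_lit 13) (.e (nat_lit 172106) (nat_lit 10) (.e (nat_lit 434244) (nat_lit 28) (.e (nat_lit 573468) (nat_lit 10) (.e (nat_lit 8490) (nat_lit 180) (.e (nat_lit 1077) (nat_lit 81) .nil)))))))) (.g (nat_lit 5) .nil .nil)))) (.nd (nat_lit 5) 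
(.lf (nat_lit 108501) (.g (nat_lit 3030) (.e (nat_lit 5270) (nat_lit 298) (.e (nat_lit 1239) (nat_lit 91) (.e (nat_lit 90170) (nat_lit 13) (.e (nat_lit 172106) (nat_lit 10) (.e (nat_lit 434231) (nat_lit 23) (.e (nat_lit 532490) (nat_lit 0) (.e (nat_lit 6136) (nat_lit 332) (.e (nat_lit 7936) (nat_lit 81) .nil)))))))) (.g (nat_lit 5) .nil .nil))) 
(.lf (nat_lit 108533) (.g (nat_lit 4614) (.e (nat_lit 5270) (nat_lit 298) (.e (nat_lit 1239) (nat_lit 91) (.e (nat_lit 90170) (nat_lit 13) (.e (nat_lit 172113) (nat_lit 10) (.e (nat_lit 434238) (nat_lit 25) (.e (nat_lit 548898) (nat_lit 14) (.e (nat_lit 2825) (nat_lit 182) (.e (nat_lit 409605) (nat_lit 0) .nil)))))))) (.g (nat_lit 6) .nil .nil))))) (.nd (nat_lit 4) (.nd (nat_lit 5) 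
(.lf (nat_lit 108493) (.g (nat_lit 2081) (.e (nat_lit 5270) (nat_lit 298) (.e (nat_lit 1239) (nat_lit 91) (.e (nat_lit 90170) (nat_lit 13) (.e (nat_lit 172106) (nat_lit 10) (.e (nat_lit 434231) (nat_lit 23) (.e (nat_lit 532490) (nat_lit 0) (.e (nat_lit 6092) (nat_lit 332) (.e (nat_lit 1081) (nat_lit 81) .nil)))))))) (.g (nat_lit 4) .nil .nil))) 
(.lf (nat_lit 108525) (.g (nat_lit 2155) (.e (nat_lit 5270) (nat_lit 298) (.e (nat_lit 1239) (nat_lit 91) (.e (nat_lit 90170) (nat_lit 13) (.e (nat_lit 172106) (nat_lit 10) (.e (nat_lit 434244) (nat_lit 28) (.e (nat_lit 573468) (nat_lit 10) (.e (nat_lit 16128) (nat_lit 180) (.e (nat_lit 1079) (nat_lit 81) .nil)))))))) (.g (nat_lit 4) .nil .nil)))) (.nd (nat_lit 5) 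
(.lf (nat_lit 108509) (.g (nat_lit 3337) (.e (nat_lit 5270) (nat_lit 298) (.e (nat_lit 1239) (nat_lit 91) (.e (nat_lit 90170) (nat_lit 13) (.e (nat_lit 172106) (nat_lit 10) (.e (nat_lit 434231) (nat_lit 23) (.e (nat_lit 532522) (nat_lit 7) (.e (nat_lit 319511) (nat_lit 10) .nil))))))) (.g (nat_lit 5) .nil .nil))) 
(.lf (nat_lit 108541) (.g (nat_lit 3606) (.e (nat_lit 5270) (nat_lit 298) (.e (nat_lit 1239) (nat_lit 91) (.e (nat_lit 90170) (nat_lit 13) (.e (nat_lit 172113) (nat_lit 10) (.e (nat_lit 434245) (nat_lit 28) (.e (nat_lit 573468) (nat_lit 10) (.e (nat_lit 8490) (nat_lit 180) (.e (nat_lit 1078) (nat_lit 81) .nil)))))))) (.g (nat_lit 5) .nil .nil))))))) 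
(.nd (nat_lit 2) (.nd (nat_lit 3) (.nd (nat_lit 4) (.nd (nat_lit 5) 
(.lf (nat_lit 108483) (.g (nat_lit 3017) (.e (nat_lit 5270) (nat_lit 298) (.e (nat_lit 1239) (nat_lit 91) (.e (nat_lit 90170) (nat_lit 13) (.e (nat_lit 172106) (nat_lit 10) (.e (nat_lit 434231) (nat_lit 23) (.e (nat_lit 532486) (nat_lit 0) (.e (nat_lit 6113) (nat_lit 332) (.e (nat_lit 978) (nat_lit 81) .nil)))))))) (.g (nat_lit 5) .nil .nil))) 
(.lf (nat_lit 108515) (.g (nat_lit 3593) (.e (nat_lit 5270) (nat_lit 298) (.e (nat_lit 1239) (nat_lit 91) (.e (nat_lit 90170) (nat_lit 13) (.e (nat_lit 172106) (nat_lit 10) (.e (nat_lit 434244) (nat_lit 28) (.e (nat_lit 573468) (nat_lit 10) (.e (nat_lit 8490) (nat_lit 180) (.e (nat_lit 976) (nat_lit 81) .nil)))))))) (.g (nat_lit 5) .nil .nil)))) (.nd (nat_lit 5) 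
(.lf (nat_lit 108499) (.g (nat_lit 4604) (.e (nat_lit 5270) (nat_lit 298) (.e (nat_lit 1239) (nat_lit 91) (.e (nat_lit 90170) (nat_lit 13) (.e (nat_lit 172106) (nat_lit 10) (.e (nat_lit 434231) (nat_lit 23) (.e (nat_lit 532490) (nat_lit 0) (.e (nat_lit 6114) (nat_lit 332) (.e (nat_lit 7936) (nat_lit 81) .nil)))))))) (.g (nat_lit 7) .nil .nil))) 
(.lf (nat_lit 108531) (.g (nat_lit 3389) (.e (nat_lit 5270) (nat_lit 298) (.e (nat_lit 1239) (nat_lit 91) (.e (nat_lit 90170) (nat_lit 13) (.e (nat_lit 172113) (nat_lit 10) (.e (nat_lit 434227) (nat_lit 20) (.e (nat_lit 507930) (nat_lit 10) (.e (nat_lit 4979) (nat_lit 287) (.e (nat_lit 1079) (nat_lit 81) .nil)))))))) (.g (nat_lit 5) .nil .nil))))) (.nd (nat_lit 4) (.nd (nat_lit 5) 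
(.lf (nat_lit 108491) (.g (nat_lit 2933) (.e (nat_lit 5270) (nat_lit 298) (.e (nat_lit 1239) (nat_lit 91) (.e (nat_lit 90170) (nat_lit 13) (.e (nat_lit 172106) (nat_lit 10) (.e (nat_lit 434231) (nat_lit 23) (.e (nat_lit 532490) (nat_lit 0) (.e (nat_lit 6092) (nat_lit 332) (.e (nat_lit 1071) (nat_lit 81) .nil)))))))) (.g (nat_lit 5) .nil .nil))) 
(.lf (nat_lit 108523) (.g (nat_lit 4056) (.e (nat_lit 5270) (nat_lit 298) (.e (nat_lit 1239) (nat_lit 91) (.e (nat_lit 90170) (nat_lit 13) (.e (nat_lit 172106) (nat_lit 10) (.e (nat_lit 434244) (nat_lit 28) (.e (nat_lit 573468) (nat_lit 10) (.e (nat_lit 8492) (nat_lit 180) (.e (nat_lit 1078) (nat_lit 81) .nil)))))))) (.g (nat_lit 6) .nil .nil)))) (.nd (nat_lit 5) 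
(.lf (nat_lit 108507) (.g (nat_lit 2286) (.e (nat_lit 5270) (nat_lit 298) (.e (nat_lit 1239) (nat_lit 91) (.e (nat_lit 90170) (nat_lit 13) (.e (nat_lit 172106) (nat_lit 10) (.e (nat_lit 434231) (nat_lit 23) (.e (nat_lit 532490) (nat_lit 0) (.e (nat_lit 7936) (nat_lit 332) (.e (nat_lit 1076) (nat_lit 81) .nil)))))))) (.g (nat_lit 4) .nil .nil))) 
(.lf (nat_lit 108539) (.g (nat_lit 2981) (.e (nat_lit 5270) (nat_lit 298) (.e (nat_lit 1239) (nat_lit 91) (.e (nat_lit 90170) (nat_lit 13) (.e (nat_lit 172113) (nat_lit 10) (.e (nat_lit 434245) (nat_lit 28) (.e (nat_lit 573468) (nat_lit 10) (.e (nat_lit 8490) (nat_lit 180) (.e (nat_lit 1071) (nat_lit 81) .nil)))))))) (.g (nat_lit 4) .nil .nil)))))) 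
(.nd (nat_lit 3) (.nd (nat_lit 4) (.nd (nat_lit 5) 
(.lf (nat_lit 108487) (.g (nat_lit 2327) (.e (nat_lit 5270) (nat_lit 298) (.e (nat_lit 1239) (nat_lit 91) (.e (nat_lit 90170) (nat_lit 13) (.e (nat_lit 172106) (nat_lit 10) (.e (nat_lit 434231) (nat_lit 23) (.e (nat_lit 532490) (nat_lit 0) (.e (nat_lit 6092) (nat_lit 332) (.e (nat_lit 968) (nat_lit 81) .nil)))))))) (.g (nat_lit 4) .nil .nil))) 
(.lf (nat_lit 108519) (.g (nat_lit 2482) (.e (nat_lit 5270) (nat_lit 298) (.e (nat_lit 1239) (nat_lit 91) (.e (nat_lit 90170) (nat_lit 13) (.e (nat_lit 172106) (nat_lit 10) (.e (nat_lit 434244) (nat_lit 28) (.e (nat_lit 573468) (nat_lit 10) (.e (nat_lit 8490) (nat_lit 180) (.e (nat_lit 1080) (nat_lit 81) .nil)))))))) (.g (nat_lit 4) .nil .nil)))) (.nd (nat_lit 5) 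
(.lf (nat_lit 108503) (.g (nat_lit 3186) (.e (nat_lit 5270) (nat_lit 298) (.e (nat_lit 1239) (nat_lit 91) (.e (nat_lit 90170) (nat_lit 13) (.e (nat_lit 172106) (nat_lit 10) (.e (nat_lit 434231) (nat_lit 23) (.e (nat_lit 532490) (nat_lit 0) (.e (nat_lit 7936) (nat_lit 332) (.e (nat_lit 969) (nat_lit 81) .nil)))))))) (.g (nat_lit 5) .nil .nil))) 
(.lf (nat_lit 108535) (.g (nat_lit 2218) (.e (nat_lit 5270) (nat_lit 298) (.e (nat_lit 1239) (nat_lit 91) (.e (nat_lit 90170) (nat_lit 13) (.e (nat_lit 172113) (nat_lit 10) (.e (nat_lit 434245) (nat_lit 28) .nil))))) .nil)))) (.nd (nat_lit 4) (.nd (nat_lit 5) 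
(.lf (nat_lit 108495) (.g (nat_lit 4667) (.e (nat_lit 5270) (nat_lit 298) (.e (nat_lit 1239) (nat_lit 91) (.e (nat_lit 90170) (nat_lit 13) (.e (nat_lit 172106) (nat_lit 10) (.e (nat_lit 434231) (nat_lit 23) (.e (nat_lit 532490) (nat_lit 0) (.e (nat_lit 6114) (nat_lit 332) (.e (nat_lit 977) (nat_lit 81) .nil)))))))) (.g (nat_lit 7) .nil .nil))) 
(.lf (nat_lit 108527) (.g (nat_lit 2437) (.e (nat_lit 5270) (nat_lit 298) (.e (nat_lit 1239) (nat_lit 91) (.e (nat_lit 90170) (nat_lit 13) (.e (nat_lit 172113) (nat_lit 10) (.e (nat_lit 434227) (nat_lit 20) .nil))))) .nil))) (.nd (nat_lit 5) 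
(.lf (nat_lit 108511) (.g (nat_lit 4178) (.e (nat_lit 5270) (nat_lit 298) (.e (nat_lit 1239) (nat_lit 91) (.e (nat_lit 90170) (nat_lit 13) (.e (nat_lit 172106) (nat_lit 10) (.e (nat_lit 434231) (nat_lit 23) (.e (nat_lit 532523) (nat_lit 7) (.e (nat_lit 327424) (nat_lit 10) .nil))))))) (.g (nat_lit 6) .nil .nil))) 
(.lf (nat_lit 108543) (.g (nat_lit 2743) (.e (nat_lit 5270) (nat_lit 298) (.e (nat_lit 1239) (nat_lit 91) (.e (nat_lit 90170) (nat_lit 13) (.e (nat_lit 172113) (nat_lit 10) (.e (nat_lit 434245) (nat_lit 28) (.e (nat_lit 573468) (nat_lit 10) (.e (nat_lit 8490) (nat_lit 180) (.e (nat_lit 1080) (nat_lit 81) .nil)))))))) (.g (nat_lit 4) .nil .nil)))))))))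

noncomputable def tv1469 : DT := (.nd (nat_lit 0) (.nd (nat_lit 1) (.nd (nat_lit 2) (.nd (nat_lit 3) (.nd (nat_lit 4) (.nd (nat_lit 5) 
(.lf (nat_lit 108544) (.g (nat_lit 3771) (.e (nat_lit 5270) (nat_lit 298) (.e (nat_lit 1239) (nat_lit 91) (.e (nat_lit 90170) (nat_lit 13) (.e (nat_lit 172113) (nat_lit 10) (.e (nat_lit 434245) (nat_lit 28) (.e (nat_lit 573468) (nat_lit 10) (.e (nat_lit 8490) (nat_lit 180) (.e (nat_lit 1088) (nat_lit 81) .nil)))))))) (.g (nat_lit 5) .nil .nil))) 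
(.lf (nat_lit 108576) (.g (nat_lit 2629) (.e (nat_lit 5270) (nat_lit 298) (.e (nat_lit 1256) (nat_lit 92) (.e (nat_lit 98350) (nat_lit 24) (.e (nat_lit 409647) (nat_lit 18) (.e (nat_lit 303119) (nat_lit 3) (.e (nat_lit 204819) (nat_lit 17) (.e (nat_lit 6113) (nat_lit 332) (.e (nat_lit 2406) (nat_lit 157) .nil)))))))) (.g (nat_lit 4) .nil .nil)))) (.nd (nat_lit 5) 
(.lf (nat_lit 108560) (.g (nat_lit 3294) (.e (nat_lit 5270) (nat_lit 298) (.e (nat_lit 1239) (nat_lit 91) (.e (nat_lit 90170) (nat_lit 13) (.e (nat_lit 172115) (nat_lit 10) (.e (nat_lit 434231) (nat_lit 23) (.e (nat_lit 532490) (nat_lit 0) (.e (nat_lit 6114) (nat_lit 332) (.e (nat_lit 1081) (nat_lit 81) .nil)))))))) (.g (nat_lit 4) .nil .nil))) 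
(.lf (nat_lit 108592) (.g (nat_lit 2698) (.e (nat_lit 5270) (nat_lit 298) (.e (nat_lit 1256) (nat_lit 92) (.e (nat_lit 98359) (nat_lit 26) (.e (nat_lit 426286) (nat_lit 10) (.e (nat_lit 434227) (nat_lit 20) (.e (nat_lit 507929) (nat_lit 10) (.e (nat_lit 4979) (nat_lit 287) (.e (nat_lit 1079) (nat_lit 81) .nil)))))))) (.g (nat_lit 6) .nil .nil))))) (.nd (nat_lit 4) (.nd (nat_lit 5) 
(.lf (nat_lit 108552) (.g (nat_lit 2212) (.e (nat_lit 5270) (nat_lit 298) (.e (nat_lit 1239) (nat_lit 91) (.e (nat_lit 90170) (nat_lit 13) (.e (nat_lit 172113) (nat_lit 10) (.e (nat_lit 434248) (nat_lit 28) .nil))))) .nil)) 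
(.lf (nat_lit 108584) (.g (nat_lit 2097) (.e (nat_lit 5270) (nat_lit 298) (.e (nat_lit 1256) (nat_lit 92) (.e (nat_lit 98359) (nat_lit 26) (.e (nat_lit 426285) (nat_lit 10) (.e (nat_lit 434227) (nat_lit 20) (.e (nat_lit 507928) (nat_lit 10) (.e (nat_lit 4931) (nat_lit 287) (.e (nat_lit 1079) (nat_lit 81) .nil)))))))) (.g (nat_lit 4) .nil .nil)))) (.nd (nat_lit 5) 
(.lf (nat_lit 108568) (.g (nat_lit 1528) (.e (nat_lit 5270) (nat_lit 298) (.e (nat_lit 1256) (nat_lit 92) (.e (nat_lit 98350) (nat_lit 24) (.e (nat_lit 417536) (nat_lit 6) .nil)))) .nil)) 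
(.lf (nat_lit 108600) (.g (nat_lit 3166) (.e (nat_lit 5270) (nat_lit 298) (.e (nat_lit 1256) (nat_lit 92) (.e (nat_lit 98359) (nat_lit 26) (.e (nat_lit 426286) (nat_lit 10) (.e (nat_lit 434245) (nat_lit 28) (.e (nat_lit 573468) (nat_lit 10) (.e (nat_lit 8490) (nat_lit 180) (.e (nat_lit 1079) (nat_lit 81) .nil)))))))) (.g (nat_lit 6) .nil .nil)))))) 
(.nd (nat_lit 3) (.nd (nat_lit 4) (.nd (nat_lit 5) 
(.lf (nat_lit 108548) (.g (nat_lit 3248) (.e (nat_lit 5270) (nat_lit 298) (.e (nat_lit 1239) (nat_lit 91) (.e (nat_lit 90170) (nat_lit 13) (.e (nat_lit 172113) (nat_lit 10) (.e (nat_lit 434245) (nat_lit 28) (.e (nat_lit 573468) (nat_lit 10) (.e (nat_lit 8493) (nat_lit 180) (.e (nat_lit 1078) (nat_lit 81) .nil)))))))) (.g (nat_lit 5) .nil .nil))) 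
(.lf (nat_lit 108580) (.g (nat_lit 2632) (.e (nat_lit 5270) (nat_lit 298) (.e (nat_lit 1256) (nat_lit 92) (.e (nat_lit 98350) (nat_lit 24) (.e (nat_lit 417536) (nat_lit 18) (.e (nat_lit 303119) (nat_lit 3) (.e (nat_lit 204819) (nat_lit 17) (.e (nat_lit 6113) (nat_lit 332) (.e (nat_lit 2406) (nat_lit 157) .nil)))))))) (.g (nat_lit 5) .nil .nil)))) (.nd (nat_lit 5) 
(.lf (nat_lit 108564) (.g (nat_lit 752) (.e (nat_lit 5270) (nat_lit 298) (.e (nat_lit 1239) (nat_lit 91) (.e (nat_lit 90178) (nat_lit 15) .nil))) .nil)) 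
(.lf (nat_lit 108596) (.g (nat_lit 3227) (.e (nat_lit 5270) (nat_lit 298) (.e (nat_lit 1256) (nat_lit 92) (.e (nat_lit 98359) (nat_lit 26) (.e (nat_lit 426286) (nat_lit 10) (.e (nat_lit 434245) (nat_lit 28) (.e (nat_lit 573468) (nat_lit 10) (.e (nat_lit 8490) (nat_lit 180) (.e (nat_lit 969) (nat_lit 81) .nil)))))))) (.g (nat_lit 6) .nil .nil))))) (.nd (nat_lit 4) (.nd (nat_lit 5) 
(.lf (nat_lit 108556) (.g (nat_lit 4227) (.e (nat_lit 5270) (nat_lit 298) (.e (nat_lit 1239) (nat_lit 91) (.e (nat_lit 90170) (nat_lit 13) (.e (nat_lit 172113) (nat_lit 10) (.e (nat_lit 434248) (nat_lit 28) (.e (nat_lit 573468) (nat_lit 10) (.e (nat_lit 8492) (nat_lit 180) (.e (nat_lit 1078) (nat_lit 81) .nil)))))))) (.g (nat_lit 5) .nil .nil))) 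
(.lf (nat_lit 108588) (.g (nat_lit 3450) (.e (nat_lit 5270) (nat_lit 298) (.e (nat_lit 1256) (nat_lit 92) (.e (nat_lit 98359) (nat_lit 26) (.e (nat_lit 426285) (nat_lit 10) (.e (nat_lit 434238) (nat_lit 25) (.e (nat_lit 548898) (nat_lit 14) (.e (nat_lit 2825) (nat_lit 182) (.e (nat_lit 409605) (nat_lit 0) .nil)))))))) (.g (nat_lit 6) .nil .nil)))) (.nd (nat_lit 5) 
(.lf (nat_lit 108572) (.g (nat_lit 4232) (.e (nat_lit 5270) (nat_lit 298) (.e (nat_lit 1256) (nat_lit 92) (.e (nat_lit 98350) (nat_lit 24) (.e (nat_lit 409645) (nat_lit 18) (.e (nat_lit 303119) (nat_lit 3) (.e (nat_lit 204819) (nat_lit 17) (.e (nat_lit 6113) (nat_lit 332) (.e (nat_lit 2406) (nat_lit 157) .nil)))))))) (.g (nat_lit 5) .nil .nil))) 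
(.lf (nat_lit 108604) (.g (nat_lit 2301) (.e (nat_lit 5270) (nat_lit 298) (.e (nat_lit 1256) (nat_lit 92) (.e (nat_lit 98359) (nat_lit 26) (.e (nat_lit 426286) (nat_lit 10) (.e (nat_lit 434247) (nat_lit 28) (.e (nat_lit 573456) (nat_lit 9) (.e (nat_lit 7936) (nat_lit 30) (.e (nat_lit 409603) (nat_lit 0) .nil)))))))) (.g (nat_lit 5) .nil .nil))))))) 
(.nd (nat_lit 2) (.nd (nat_lit 3) (.nd (nat_lit 4) (.nd (nat_lit 5) 
(.lf (nat_lit 108546) (.g (nat_lit 4469) (.e (nat_lit 5270) (nat_lit 298) (.e (nat_lit 1239) (nat_lit 91) (.e (nat_lit 90170) (nat_lit 13) (.e (nat_lit 172113) (nat_lit 10) (.e (nat_lit 434245) (nat_lit 28) (.e (nat_lit 573468) (nat_lit 10) (.e (nat_lit 8492) (nat_lit 180) (.e (nat_lit 1078) (nat_lit 81) .nil)))))))) (.g (nat_lit 6) .nil .nil))) 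
(.lf (nat_lit 108578) (.g (nat_lit 2900) (.e (nat_lit 5270) (nat_lit 298) (.e (nat_lit 1256) (nat_lit 92) (.e (nat_lit 98350) (nat_lit 24) (.e (nat_lit 409648) (nat_lit 18) (.e (nat_lit 303119) (nat_lit 3) (.e (nat_lit 204819) (nat_lit 17) (.e (nat_lit 6113) (nat_lit 332) (.e (nat_lit 2406) (nat_lit 157) .nil)))))))) (.g (nat_lit 5) .nil .nil)))) (.nd (nat_lit 5) 
(.lf (nat_lit 108562) (.g (nat_lit 1993) (.e (nat_lit 5270) (nat_lit 298) (.e (nat_lit 1239) (nat_lit 91) (.e (nat_lit 90174) (nat_lit 14) (.e (nat_lit 188160) (nat_lit 35) .nil)))) .nil)) 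
(.lf (nat_lit 108594) (.g (nat_lit 4243) (.e (nat_lit 5270) (nat_lit 298) (.e (nat_lit 1256) (nat_lit 92) (.e (nat_lit 98359) (nat_lit 26) (.e (nat_lit 426286) (nat_lit 10) (.e (nat_lit 434245) (nat_lit 28) (.e (nat_lit 573451) (nat_lit 9) (.e (nat_lit 359) (nat_lit 30) (.e (nat_lit 409605) (nat_lit 0) .nil)))))))) (.g (nat_lit 0) .nil .nil))))) (.nd (nat_lit 4) (.nd (nat_lit 5) 
(.lf (nat_lit 108554) (.g (nat_lit 3118) (.e (nat_lit 5270) (nat_lit 298) (.e (nat_lit 1239) (nat_lit 91) (.e (nat_lit 90170) (nat_lit 13) (.e (nat_lit 172113) (nat_lit 10) (.e (nat_lit 434248) (nat_lit 28) (.e (nat_lit 573468) (nat_lit 10) (.e (nat_lit 8490) (nat_lit 180) (.e (nat_lit 977) (nat_lit 81) .nil)))))))) (.g (nat_lit 4) .nil .nil))) 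
(.lf (nat_lit 108586) (.g (nat_lit 2866) (.e (nat_lit 5270) (nat_lit 298) (.e (nat_lit 1256) (nat_lit 92) (.e (nat_lit 98359) (nat_lit 26) (.e (nat_lit 426285) (nat_lit 10) (.e (nat_lit 434227) (nat_lit 20) (.e (nat_lit 507929) (nat_lit 10) (.e (nat_lit 4979) (nat_lit 287) (.e (nat_lit 1079) (nat_lit 81) .nil)))))))) (.g (nat_lit 6) .nil .nil)))) (.nd (nat_lit 5) 
(.lf (nat_lit 108570) (.g (nat_lit 3565) (.e (nat_lit 5270) (nat_lit 298) (.e (nat_lit 1256) (nat_lit 92) (.e (nat_lit 98350) (nat_lit 24) (.e (nat_lit 409644) (nat_lit 18) (.e (nat_lit 303119) (nat_lit 3) (.e (nat_lit 204819) (nat_lit 17) (.e (nat_lit 6113) (nat_lit 332) (.e (nat_lit 2406) (nat_lit 157) .nil)))))))) (.g (nat_lit 6) .nil .nil))) 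
(.lf (nat_lit 108602) (.g (nat_lit 3255) (.e (nat_lit 5270) (nat_lit 298) (.e (nat_lit 1256) (nat_lit 92) (.e (nat_lit 98359) (nat_lit 26) (.e (nat_lit 426286) (nat_lit 10) (.e (nat_lit 434245) (nat_lit 28) (.e (nat_lit 573468) (nat_lit 10) (.e (nat_lit 8492) (nat_lit 180) (.e (nat_lit 1078) (nat_lit 81) .nil)))))))) (.g (nat_lit 6) .nil .nil)))))) 
(.nd (nat_lit 3) (.nd (nat_lit 4) (.nd (nat_lit 5) 
(.lf (nat_lit 108550) (.g (nat_lit 2608) (.e (nat_lit 5270) (nat_lit 298) (.e (nat_lit 1239) (nat_lit 91) (.e (nat_lit 90170) (nat_lit 13) (.e (nat_lit 172113) (nat_lit 10) (.e (nat_lit 434245) (nat_lit 28) (.e (nat_lit 573468) (nat_lit 10) (.e (nat_lit 16128) (nat_lit 180) (.e (nat_lit 1079) (nat_lit 81) .nil)))))))) (.g (nat_lit 4) .nil .nil))) 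
(.lf (nat_lit 108582) (.g (nat_lit 1667) (.e (nat_lit 5270) (nat_lit 298) (.e (nat_lit 1256) (nat_lit 92) (.e (nat_lit 98359) (nat_lit 26) (.e (nat_lit 426171) (nat_lit 7) (.e (nat_lit 409631) (nat_lit 12) (.e (nat_lit 32805) (nat_lit 17) (.e (nat_lit 164209) (nat_lit 176) (.e (nat_lit 1079) (nat_lit 81) .nil)))))))) (.g (nat_lit 4) .nil .nil)))) (.nd (nat_lit 5) 
(.lf (nat_lit 108566) (.g (nat_lit 1855) (.e (nat_lit 5270) (nat_lit 298) (.e (nat_lit 1239) (nat_lit 91) (.e (nat_lit 90185) (nat_lit 17) (.e (nat_lit 237605) (nat_lit 9) .nil)))) .nil)) 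
(.lf (nat_lit 108598) (.g (nat_lit 2135) (.e (nat_lit 5270) (nat_lit 298) (.e (nat_lit 1256) (nat_lit 92) (.e (nat_lit 98359) (nat_lit 26) (.e (nat_lit 426286) (nat_lit 10) (.e (nat_lit 434245) (nat_lit 28) (.e (nat_lit 573468) (nat_lit 10) (.e (nat_lit 8490) (nat_lit 180) (.e (nat_lit 1071) (nat_lit 81) .nil)))))))) (.g (nat_lit 4) .nil .nil))))) (.nd (nat_lit 4) (.nd (nat_lit 5) 
(.lf (nat_lit 108558) (.g (nat_lit 4062) (.e (nat_lit 5270) (nat_lit 298) (.e (nat_lit 1239) (nat_lit 91) (.e (nat_lit 90170) (nat_lit 13) (.e (nat_lit 172113) (nat_lit 10) (.e (nat_lit 434248) (nat_lit 28) (.e (nat_lit 573468) (nat_lit 10) (.e (nat_lit 8493) (nat_lit 180) (.e (nat_lit 1079) (nat_lit 81) .nil)))))))) (.g (nat_lit 5) .nil .nil))) 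
(.lf (nat_lit 108590) (.g (nat_lit 2062) (.e (nat_lit 5270) (nat_lit 298) (.e (nat_lit 1256) (nat_lit 92) (.e (nat_lit 98359) (nat_lit 26) (.e (nat_lit 426286) (nat_lit 10) (.e (nat_lit 434227) (nat_lit 20) (.e (nat_lit 507928) (nat_lit 10) (.e (nat_lit 4931) (nat_lit 287) (.e (nat_lit 1079) (nat_lit 81) .nil)))))))) (.g (nat_lit 4) .nil .nil)))) (.nd (nat_lit 5) 
(.lf (nat_lit 108574) (.g (nat_lit 4033) (.e (nat_lit 5270) (nat_lit 298) (.e (nat_lit 1256) (nat_lit 92) (.e (nat_lit 98350) (nat_lit 24) (.e (nat_lit 409646) (nat_lit 18) (.e (nat_lit 303119) (nat_lit 3) (.e (nat_lit 204819) (nat_lit 17) (.e (nat_lit 6113) (nat_lit 332) (.e (nat_lit 2406) (nat_lit 157) .nil)))))))) (.g (nat_lit 7) .nil .nil))) 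
(.lf (nat_lit 108606) (.g (nat_lit 3401) (.e (nat_lit 5270) (nat_lit 298) (.e (nat_lit 1256) (nat_lit 92) (.e (nat_lit 98359) (nat_lit 26) (.e (nat_lit 426286) (nat_lit 10) (.e (nat_lit 434247) (nat_lit 28) (.e (nat_lit 573457) (nat_lit 9) (.e (nat_lit 359) (nat_lit 30) (.e (nat_lit 409605) (nat_lit 0) .nil)))))))) (.g (nat_lit 0) .nil .nil)))))))) 
(.nd (nat_lit 1) (.nd (nat_lit 2) (.nd (nat_lit 3) (.nd (nat_lit 4) (.nd (nat_lit 5) 
(.lf (nat_lit 108545) (.g (nat_lit 3657) (.e (nat_lit 5270) (nat_lit 298) (.e (nat_lit 1239) (nat_lit 91) (.e (nat_lit 90170) (nat_lit 13) (.e (nat_lit 172113) (nat_lit 10) (.e (nat_lit 434245) (nat_lit 28) (.e (nat_lit 573468) (nat_lit 10) (.e (nat_lit 8492) (nat_lit 180) (.e (nat_lit 1077) (nat_lit 81) .nil)))))))) (.g (nat_lit 5) .nil .nil))) 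
(.lf (nat_lit 108577) (.g (nat_lit 2549) (.e (nat_lit 5270) (nat_lit 298) (.e (nat_lit 1256) (nat_lit 92) (.e (nat_lit 98350) (nat_lit 24) (.e (nat_lit 409648) (nat_lit 18) (.e (nat_lit 303118) (nat_lit 3) (.e (nat_lit 204819) (nat_lit 17) (.e (nat_lit 6113) (nat_lit 332) (.e (nat_lit 2406) (nat_lit 157) .nil)))))))) (.g (nat_lit 4) .nil .nil)))) (.nd (nat_lit 5) 
(.lf (nat_lit 108561) (.g (nat_lit 2659) (.e (nat_lit 5270) (nat_lit 298) (.e (nat_lit 1239) (nat_lit 91) (.e (nat_lit 90170) (nat_lit 13) (.e (nat_lit 172126) (nat_lit 14) (.e (nat_lit 491540) (nat_lit 3) .nil))))) .nil)) 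
(.lf (nat_lit 108593) (.g (nat_lit 2797) (.e (nat_lit 5270) (nat_lit 298) (.e (nat_lit 1256) (nat_lit 92) (.e (nat_lit 98359) (nat_lit 26) (.e (nat_lit 426286) (nat_lit 10) (.e (nat_lit 434227) (nat_lit 20) (.e (nat_lit 507930) (nat_lit 10) (.e (nat_lit 4979) (nat_lit 287) (.e (nat_lit 1079) (nat_lit 81) .nil)))))))) (.g (nat_lit 6) .nil .nil))))) (.nd (nat_lit 4) (.nd (nat_lit 5) 
(.lf (nat_lit 108553) (.g (nat_lit 4125) (.e (nat_lit 5270) (nat_lit 298) (.e (nat_lit 1239) (nat_lit 91) (.e (nat_lit 90170) (nat_lit 13) (.e (nat_lit 172113) (nat_lit 10) (.e (nat_lit 434248) (nat_lit 28) (.e (nat_lit 573468) (nat_lit 10) (.e (nat_lit 8490) (nat_lit 180) (.e (nat_lit 969) (nat_lit 81) .nil)))))))) (.g (nat_lit 5) .nil .nil))) 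
(.lf (nat_lit 108585) (.g (nat_lit 2367) (.e (nat_lit 5270) (nat_lit 298) (.e (nat_lit 1256) (nat_lit 92) (.e (nat_lit 98359) (nat_lit 26) (.e (nat_lit 426285) (nat_lit 10) (.e (nat_lit 434227) (nat_lit 20) (.e (nat_lit 507928) (nat_lit 10) (.e (nat_lit 4979) (nat_lit 287) (.e (nat_lit 1079) (nat_lit 81) .nil)))))))) (.g (nat_lit 5) .nil .nil)))) (.nd (nat_lit 5) 
(.lf (nat_lit 108569) (.g (nat_lit 2839) (.e (nat_lit 5270) (nat_lit 298) (.e (nat_lit 1256) (nat_lit 92) (.e (nat_lit 98350) (nat_lit 24) (.e (nat_lit 409643) (nat_lit 18) (.e (nat_lit 303119) (nat_lit 3) (.e (nat_lit 204819) (nat_lit 17) (.e (nat_lit 6113) (nat_lit 332) (.e (nat_lit 2406) (nat_lit 157) .nil)))))))) (.g (nat_lit 5) .nil .nil))) 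
(.lf (nat_lit 108601) (.g (nat_lit 2925) (.e (nat_lit 5270) (nat_lit 298) (.e (nat_lit 1256) (nat_lit 92) (.e (nat_lit 98359) (nat_lit 26) (.e (nat_lit 426286) (nat_lit 10) (.e (nat_lit 434245) (nat_lit 28) (.e (nat_lit 573468) (nat_lit 10) (.e (nat_lit 8490) (nat_lit 180) (.e (nat_lit 1088) (nat_lit 81) .nil)))))))) (.g (nat_lit 6) .nil .nil)))))) 
(.nd (nat_lit 3) (.nd (nat_lit 4) (.nd (nat_lit 5) 
(.lf (nat_lit 108549) (.g (nat_lit 4304) (.e (nat_lit 5270) (nat_lit 298) (.e (nat_lit 1239) (nat_lit 91) (.e (nat_lit 90170) (nat_lit 13) (.e (nat_lit 172113) (nat_lit 10) (.e (nat_lit 434245) (nat_lit 28) (.e (nat_lit 573468) (nat_lit 10) (.e (nat_lit 8493) (nat_lit 180) (.e (nat_lit 1079) (nat_lit 81) .nil)))))))) (.g (nat_lit 6) .nil .nil))) 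
(.lf (nat_lit 108581) (.g (nat_lit 1219) (.e (nat_lit 5270) (nat_lit 298) (.e (nat_lit 1256) (nat_lit 92) (.e (nat_lit 98359) (nat_lit 26) (.e (nat_lit 426170) (nat_lit 7) (.e (nat_lit 409631) (nat_lit 12) .nil))))) .nil))) (.nd (nat_lit 5) 
(.lf (nat_lit 108565) (.g (nat_lit 2214) (.e (nat_lit 5270) (nat_lit 298) (.e (nat_lit 1239) (nat_lit 91) (.e (nat_lit 90178) (nat_lit 15) (.e (nat_lit 188451) (nat_lit 23) (.e (nat_lit 204849) (nat_lit 25) .nil))))) .nil)) 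
(.lf (nat_lit 108597) (.g (nat_lit 2967) (.e (nat_lit 5270) (nat_lit 298) (.e (nat_lit 1256) (nat_lit 92) (.e (nat_lit 98359) (nat_lit 26) (.e (nat_lit 426286) (nat_lit 10) (.e (nat_lit 434245) (nat_lit 28) (.e (nat_lit 573468) (nat_lit 10) (.e (nat_lit 8490) (nat_lit 180) (.e (nat_lit 976) (nat_lit 81) .nil)))))))) (.g (nat_lit 6) .nil .nil))))) (.nd (nat_lit 4) (.nd (nat_lit 5) 
(.lf (nat_lit 108557) (.g (nat_lit 3006) (.e (nat_lit 5270) (nat_lit 298) (.e (nat_lit 1239) (nat_lit 91) (.e (nat_lit 90170) (nat_lit 13) (.e (nat_lit 172113) (nat_lit 10) (.e (nat_lit 434248) (nat_lit 28) (.e (nat_lit 573468) (nat_lit 10) (.e (nat_lit 8493) (nat_lit 180) (.e (nat_lit 1078) (nat_lit 81) .nil)))))))) (.g (nat_lit 4) .nil .nil))) 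
(.lf (nat_lit 108589) (.g (nat_lit 2830) (.e (nat_lit 5270) (nat_lit 298) (.e (nat_lit 1256) (nat_lit 92) (.e (nat_lit 98359) (nat_lit 26) (.e (nat_lit 426286) (nat_lit 10) (.e (nat_lit 434227) (nat_lit 20) (.e (nat_lit 507928) (nat_lit 10) (.e (nat_lit 4929) (nat_lit 287) (.e (nat_lit 1079) (nat_lit 81) .nil)))))))) (.g (nat_lit 6) .nil .nil)))) (.nd (nat_lit 5) 
(.lf (nat_lit 108573) (.g (nat_lit 3225) (.e (nat_lit 5270) (nat_lit 298) (.e (nat_lit 1256) (nat_lit 92) (.e (nat_lit 98350) (nat_lit 24) (.e (nat_lit 409645) (nat_lit 18) (.e (nat_lit 303119) (nat_lit 3) (.e (nat_lit 204819) (nat_lit 17) (.e (nat_lit 6113) (nat_lit 332) (.e (nat_lit 2507) (nat_lit 157) .nil)))))))) (.g (nat_lit 4) .nil .nil))) 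
(.lf (nat_lit 108605) (.g (nat_lit 2974) (.e (nat_lit 5270) (nat_lit 298) (.e (nat_lit 1256) (nat_lit 92) (.e (nat_lit 98359) (nat_lit 26) (.e (nat_lit 426286) (nat_lit 10) (.e (nat_lit 434247) (nat_lit 28) (.e (nat_lit 573456) (nat_lit 9) (.e (nat_lit 7936) (nat_lit 30) (.e (nat_lit 409604) (nat_lit 0) .nil)))))))) (.g (nat_lit 6) .nil .nil))))))) 
(.nd (nat_lit 2) (.nd (nat_lit 3) (.nd (nat_lit 4) (.nd (nat_lit 5) 
(.lf (nat_lit 108547) (.g (nat_lit 2848) (.e (nat_lit 5270) (nat_lit 298) (.e (nat_lit 1239) (nat_lit 91) (.e (nat_lit 90170) (nat_lit 13) (.e (nat_lit 172113) (nat_lit 10) (.e (nat_lit 434245) (nat_lit 28) (.e (nat_lit 573468) (nat_lit 10) (.e (nat_lit 8493) (nat_lit 180) (.e (nat_lit 1077) (nat_lit 81) .nil)))))))) (.g (nat_lit 4) .nil .nil))) 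
(.lf (nat_lit 108579) (.g (nat_lit 3053) (.e (nat_lit 5270) (nat_lit 298) (.e (nat_lit 1256) (nat_lit 92) (.e (nat_lit 98350) (nat_lit 24) (.e (nat_lit 409649) (nat_lit 18) (.e (nat_lit 303119) (nat_lit 3) (.e (nat_lit 204819) (nat_lit 17) (.e (nat_lit 6113) (nat_lit 332) (.e (nat_lit 2406) (nat_lit 157) .nil)))))))) (.g (nat_lit 5) .nil .nil)))) (.nd (nat_lit 5) 
(.lf (nat_lit 108563) (.g (nat_lit 2972) (.e (nat_lit 5270) (nat_lit 298) (.e (nat_lit 1239) (nat_lit 91) (.e (nat_lit 90176) (nat_lit 15) (.e (nat_lit 188450) (nat_lit 23) (.e (nat_lit 204846) (nat_lit 24) .nil))))) .nil)) 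
(.lf (nat_lit 108595) (.g (nat_lit 2726) (.e (nat_lit 5270) (nat_lit 298) (.e (nat_lit 1256) (nat_lit 92) (.e (nat_lit 98359) (nat_lit 26) (.e (nat_lit 426286) (nat_lit 10) (.e (nat_lit 434245) (nat_lit 28) (.e (nat_lit 573451) (nat_lit 9) (.e (nat_lit 7936) (nat_lit 30) (.e (nat_lit 409603) (nat_lit 0) .nil)))))))) (.g (nat_lit 5) .nil .nil))))) (.nd (nat_lit 4) (.nd (nat_lit 5) 
(.lf (nat_lit 108555) (.g (nat_lit 4052) (.e (nat_lit 5270) (nat_lit 298) (.e (nat_lit 1239) (nat_lit 91) (.e (nat_lit 90170) (nat_lit 13) (.e (nat_lit 172113) (nat_lit 10) (.e (nat_lit 434248) (nat_lit 28) (.e (nat_lit 573468) (nat_lit 10) (.e (nat_lit 8490) (nat_lit 180) (.e (nat_lit 1079) (nat_lit 81) .nil)))))))) (.g (nat_lit 5) .nil .nil))) 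
(.lf (nat_lit 108587) (.g (nat_lit 2901) (.e (nat_lit 5270) (nat_lit 298) (.e (nat_lit 1256) (nat_lit 92) (.e (nat_lit 98359) (nat_lit 26) (.e (nat_lit 426285) (nat_lit 10) (.e (nat_lit 434227) (nat_lit 20) (.e (nat_lit 507930) (nat_lit 10) (.e (nat_lit 4979) (nat_lit 287) (.e (nat_lit 1079) (nat_lit 81) .nil)))))))) (.g (nat_lit 6) .nil .nil)))) (.nd (nat_lit 5) 
(.lf (nat_lit 108571) (.g (nat_lit 2558) (.e (nat_lit 5270) (nat_lit 298) (.e (nat_lit 1256) (nat_lit 92) (.e (nat_lit 98350) (nat_lit 24) (.e (nat_lit 409644) (nat_lit 18) (.e (nat_lit 303119) (nat_lit 3) (.e (nat_lit 204819) (nat_lit 17) (.e (nat_lit 6113) (nat_lit 332) (.e (nat_lit 2507) (nat_lit 157) .nil)))))))) (.g (nat_lit 4) .nil .nil))) 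
(.lf (nat_lit 108603) (.g (nat_lit 3173) (.e (nat_lit 5270) (nat_lit 298) (.e (nat_lit 1256) (nat_lit 92) (.e (nat_lit 98359) (nat_lit 26) (.e (nat_lit 426286) (nat_lit 10) (.e (nat_lit 434245) (nat_lit 28) (.e (nat_lit 573468) (nat_lit 10) (.e (nat_lit 8493) (nat_lit 180) (.e (nat_lit 1079) (nat_lit 81) .nil)))))))) (.g (nat_lit 6) .nil .nil)))))) 
(.nd (nat_lit 3) (.nd (nat_lit 4) (.nd (nat_lit 5) 
(.lf (nat_lit 108551) (.g (nat_lit 2295) (.e (nat_lit 5270) (nat_lit 298) (.e (nat_lit 1239) (nat_lit 91) (.e (nat_lit 90170) (nat_lit 13) (.e (nat_lit 172113) (nat_lit 10) (.e (nat_lit 434247) (nat_lit 28) .nil))))) .nil)) 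
(.lf (nat_lit 108583) (.g (nat_lit 2865) (.e (nat_lit 5270) (nat_lit 298) (.e (nat_lit 1256) (nat_lit 92) (.e (nat_lit 98359) (nat_lit 26) (.e (nat_lit 426285) (nat_lit 10) (.e (nat_lit 434227) (nat_lit 20) (.e (nat_lit 507928) (nat_lit 10) (.e (nat_lit 4929) (nat_lit 287) (.e (nat_lit 1079) (nat_lit 81) .nil)))))))) (.g (nat_lit 6) .nil .nil)))) (.nd (nat_lit 5) 
(.lf (nat_lit 108567) (.g (nat_lit 1423) (.e (nat_lit 5270) (nat_lit 298) (.e (nat_lit 1256) (nat_lit 92) (.e (nat_lit 98350) (nat_lit 24) (.e (nat_lit 409602) (nat_lit 0) .nil)))) .nil)) 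
(.lf (nat_lit 108599) (.g (nat_lit 1778) (.e (nat_lit 5270) (nat_lit 298) (.e (nat_lit 1256) (nat_lit 92) (.e (nat_lit 98359) (nat_lit 26) (.e (nat_lit 426286) (nat_lit 10) (.e (nat_lit 434245) (nat_lit 28) (.e (nat_lit 573468) (nat_lit 10) (.e (nat_lit 8490) (nat_lit 180) (.e (nat_lit 1074) (nat_lit 81) .nil)))))))) (.g (nat_lit 4) .nil .nil))))) (.nd (nat_lit 4) (.nd (nat_lit 5) 
(.lf (nat_lit 108559) (.g (nat_lit 2225) (.e (nat_lit 5270) (nat_lit 298) (.e (nat_lit 1239) (nat_lit 91) (.e (nat_lit 90170) (nat_lit 13) (.e (nat_lit 172115) (nat_lit 10) .nil)))) .nil)) 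
(.lf (nat_lit 108591) (.g (nat_lit 2332) (.e (nat_lit 5270) (nat_lit 298) (.e (nat_lit 1256) (nat_lit 92) (.e (nat_lit 98359) (nat_lit 26) (.e (nat_lit 426286) (nat_lit 10) (.e (nat_lit 434227) (nat_lit 20) (.e (nat_lit 507928) (nat_lit 10) (.e (nat_lit 4979) (nat_lit 287) (.e (nat_lit 1079) (nat_lit 81) .nil)))))))) (.g (nat_lit 5) .nil .nil)))) (.nd (nat_lit 5) 
(.lf (nat_lit 108575) (.g (nat_lit 3026) (.e (nat_lit 5270) (nat_lit 298) (.e (nat_lit 1256) (nat_lit 92) (.e (nat_lit 98350) (nat_lit 24) (.e (nat_lit 409646) (nat_lit 18) (.e (nat_lit 303119) (nat_lit 3) (.e (nat_lit 204819) (nat_lit 17) (.e (nat_lit 6113) (nat_lit 332) (.e (nat_lit 2507) (nat_lit 157) .nil)))))))) (.g (nat_lit 5) .nil .nil))) 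
(.lf (nat_lit 108607) (.g (nat_lit 2266) (.e (nat_lit 5270) (nat_lit 298) (.e (nat_lit 1256) (nat_lit 92) (.e (nat_lit 98359) (nat_lit 26) (.e (nat_lit 426286) (nat_lit 10) (.e (nat_lit 434247) (nat_lit 28) (.e (nat_lit 573457) (nat_lit 9) (.e (nat_lit 7936) (nat_lit 30) (.e (nat_lit 409603) (nat_lit 0) .nil)))))))) (.g (nat_lit 5) .nil .nil)))))))))

noncomputable def tv1470 : DT := (.nd (nat_lit 0) (.nd (nat_lit 1) (.nd (nat_lit 2) (.nd (nat_lit 3) (.nd (nat_lit 4) (.nd (nat_lit 5) 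
(.lf (nat_lit 108608) (.g (nat_lit 4155) (.e (nat_lit 5270) (nat_lit 298) (.e (nat_lit 1256) (nat_lit 92) (.e (nat_lit 98359) (nat_lit 26) (.e (nat_lit 426286) (nat_lit 10) (.e (nat_lit 434248) (nat_lit 28) (.e (nat_lit 573452) (nat_lit 9) (.e (nat_lit 359) (nat_lit 30) (.e (nat_lit 409604) (nat_lit 0) .nil)))))))) (.g (nat_lit 0) .nil .nil))) 
(.lf (nat_lit 108640) (.g (nat_lit 1656) (.e (nat_lit 5270) (nat_lit 298) (.e (nat_lit 1256) (nat_lit 92) (.e (nat_lit 98372) (nat_lit 29) (.e (nat_lit 450586) (nat_lit 10) (.e (nat_lit 573452) (nat_lit 9) (.e (nat_lit 7936) (nat_lit 30) (.e (nat_lit 409603) (nat_lit 0) .nil))))))) (.g (nat_lit 4) .nil .nil)))) (.nd (nat_lit 5) 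
(.lf (nat_lit 108624) (.g (nat_lit 1473) (.e (nat_lit 5270) (nat_lit 298) (.e (nat_lit 1256) (nat_lit 92) (.e (nat_lit 98370) (nat_lit 28) (.e (nat_lit 442427) (nat_lit 23) (.e (nat_lit 204821) (nat_lit 17) (.e (nat_lit 6114) (nat_lit 332) (.e (nat_lit 1074) (nat_lit 81) .nil))))))) (.g (nat_lit 4) .nil .nil))) 
(.lf (nat_lit 108656) (.g (nat_lit 2810) (.e (nat_lit 5270) (nat_lit 298) (.e (nat_lit 1256) (nat_lit 92) (.e (nat_lit 98373) (nat_lit 29) (.e (nat_lit 450587) (nat_lit 10) (.e (nat_lit 573456) (nat_lit 9) (.e (nat_lit 7936) (nat_lit 30) (.e (nat_lit 409604) (nat_lit 0) .nil))))))) (.g (nat_lit 5) .nil .nil))))) (.nd (nat_lit 4) (.nd (nat_lit 5) 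
(.lf (nat_lit 108616) (.g (nat_lit 2560) (.e (nat_lit 5270) (nat_lit 298) (.e (nat_lit 1256) (nat_lit 92) (.e (nat_lit 98370) (nat_lit 28) (.e (nat_lit 442424) (nat_lit 22) (.e (nat_lit 196628) (nat_lit 9) (.e (nat_lit 970) (nat_lit 81) (.e (nat_lit 6202) (nat_lit 332) (.e (nat_lit 1078) (nat_lit 81) .nil)))))))) (.g (nat_lit 5) .nil .nil))) 
(.lf (nat_lit 108648) (.g (nat_lit 1297) (.e (nat_lit 5270) (nat_lit 298) (.e (nat_lit 1256) (nat_lit 92) (.e (nat_lit 98373) (nat_lit 29) (.e (nat_lit 450574) (nat_lit 1) .nil)))) .nil))) (.nd (nat_lit 5) 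
(.lf (nat_lit 108632) (.g (nat_lit 1792) (.e (nat_lit 5270) (nat_lit 298) (.e (nat_lit 1256) (nat_lit 92) (.e (nat_lit 98372) (nat_lit 29) (.e (nat_lit 450579) (nat_lit 5) (.e (nat_lit 532488) (nat_lit 0) (.e (nat_lit 7936) (nat_lit 332) (.e (nat_lit 1077) (nat_lit 81) .nil))))))) (.g (nat_lit 4) .nil .nil))) 
(.lf (nat_lit 108664) (.g (nat_lit 2791) (.e (nat_lit 5270) (nat_lit 298) (.e (nat_lit 1256) (nat_lit 92) (.e (nat_lit 98373) (nat_lit 29) (.e (nat_lit 450588) (nat_lit 10) (.e (nat_lit 573457) (nat_lit 9) .nil))))) .nil))))) (.nd (nat_lit 3) (.nd (nat_lit 4) (.nd (nat_lit 5) 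
(.lf (nat_lit 108612) (.g (nat_lit 3894) (.e (nat_lit 5270) (nat_lit 298) (.e (nat_lit 1256) (nat_lit 92) (.e (nat_lit 98359) (nat_lit 26) (.e (nat_lit 426338) (nat_lit 14) (.e (nat_lit 491540) (nat_lit 3) (.e (nat_lit 98350) (nat_lit 24) (.e (nat_lit 409603) (nat_lit 0) .nil))))))) (.g (nat_lit 6) .nil .nil))) 
(.lf (nat_lit 108644) (.g (nat_lit 3856) (.e (nat_lit 5270) (nat_lit 298) (.e (nat_lit 1256) (nat_lit 92) (.e (nat_lit 98372) (nat_lit 29) (.e (nat_lit 450588) (nat_lit 10) (.e (nat_lit 573452) (nat_lit 9) (.e (nat_lit 359) (nat_lit 30) (.e (nat_lit 409603) (nat_lit 0) .nil))))))) (.g (nat_lit 5) .nil .nil)))) (.nd (nat_lit 5) 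
(.lf (nat_lit 108628) (.g (nat_lit 1686) (.e (nat_lit 5270) (nat_lit 298) (.e (nat_lit 1256) (nat_lit 92) (.e (nat_lit 98372) (nat_lit 29) (.e (nat_lit 450579) (nat_lit 5) (.e (nat_lit 532484) (nat_lit 0) (.e (nat_lit 6200) (nat_lit 332) (.e (nat_lit 1074) (nat_lit 81) .nil))))))) (.g (nat_lit 4) .nil .nil))) 
(.lf (nat_lit 108660) (.g (nat_lit 3770) (.e (nat_lit 5270) (nat_lit 298) (.e (nat_lit 1256) (nat_lit 92) (.e (nat_lit 98373) (nat_lit 29) (.e (nat_lit 450588) (nat_lit 10) (.e (nat_lit 573449) (nat_lit 9) (.e (nat_lit 359) (nat_lit 30) (.e (nat_lit 409602) (nat_lit 0) .nil))))))) (.g (nat_lit 5) .nil .nil))))) (.nd (nat_lit 4) (.nd (nat_lit 5) 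
(.lf (nat_lit 108620) (.g (nat_lit 1817) (.e (nat_lit 5270) (nat_lit 298) (.e (nat_lit 1256) (nat_lit 92) (.e (nat_lit 98370) (nat_lit 28) (.e (nat_lit 442424) (nat_lit 22) (.e (nat_lit 196661) (nat_lit 12) (.e (nat_lit 57712) (nat_lit 176) (.e (nat_lit 968) (nat_lit 81) .nil))))))) (.g (nat_lit 4) .nil .nil))) 
(.lf (nat_lit 108652) (.g (nat_lit 2881) (.e (nat_lit 5270) (nat_lit 298) (.e (nat_lit 1256) (nat_lit 92) (.e (nat_lit 98373) (nat_lit 29) (.e (nat_lit 450587) (nat_lit 10) (.e (nat_lit 573448) (nat_lit 9) .nil))))) .nil))) (.nd (nat_lit 5) 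
(.lf (nat_lit 108636) (.g (nat_lit 2208) (.e (nat_lit 5270) (nat_lit 298) (.e (nat_lit 1256) (nat_lit 92) (.e (nat_lit 98372) (nat_lit 29) (.e (nat_lit 450579) (nat_lit 5) (.e (nat_lit 532526) (nat_lit 8) (.e (nat_lit 335616) (nat_lit 10) .nil)))))) (.g (nat_lit 5) .nil .nil))) 
(.lf (nat_lit 108668) (.g (nat_lit 1255) (.e (nat_lit 5270) (nat_lit 298) (.e (nat_lit 1400) (nat_lit 106) (.e (nat_lit 319533) (nat_lit 16) (.e (nat_lit 286753) (nat_lit 10) .nil)))) .nil)))))) (.nd (nat_lit 2) (.nd (nat_lit 3) (.nd (nat_lit 4) (.nd (nat_lit 5) 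
(.lf (nat_lit 108610) (.g (nat_lit 2701) (.e (nat_lit 5270) (nat_lit 298) (.e (nat_lit 1256) (nat_lit 92) (.e (nat_lit 98359) (nat_lit 26) (.e (nat_lit 426286) (nat_lit 10) (.e (nat_lit 434248) (nat_lit 28) (.e (nat_lit 573452) (nat_lit 9) (.e (nat_lit 7936) (nat_lit 30) (.e (nat_lit 409603) (nat_lit 0) .nil)))))))) (.g (nat_lit 5) .nil .nil))) 
(.lf (nat_lit 108642) (.g (nat_lit 2694) (.e (nat_lit 5270) (nat_lit 298) (.e (nat_lit 1256) (nat_lit 92) (.e (nat_lit 98372) (nat_lit 29) (.e (nat_lit 450586) (nat_lit 10) (.e (nat_lit 573457) (nat_lit 9) (.e (nat_lit 359) (nat_lit 30) (.e (nat_lit 409605) (nat_lit 0) .nil))))))) (.g (nat_lit 0) .nil .nil)))) (.nd (nat_lit 5) 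
(.lf (nat_lit 108626) (.g (nat_lit 994) (.e (nat_lit 5270) (nat_lit 298) (.e (nat_lit 1256) (nat_lit 92) (.e (nat_lit 98372) (nat_lit 29) (.e (nat_lit 450576) (nat_lit 2) .nil)))) .nil)) 
(.lf (nat_lit 108658) (.g (nat_lit 2108) (.e (nat_lit 5270) (nat_lit 298) (.e (nat_lit 1256) (nat_lit 92) (.e (nat_lit 98373) (nat_lit 29) (.e (nat_lit 450587) (nat_lit 10) (.e (nat_lit 573457) (nat_lit 9) (.e (nat_lit 7936) (nat_lit 30) (.e (nat_lit 409603) (nat_lit 0) .nil))))))) (.g (nat_lit 4) .nil .nil))))) (.nd (nat_lit 4) (.nd (nat_lit 5) 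
(.lf (nat_lit 108618) (.g (nat_lit 1859) (.e (nat_lit 5270) (nat_lit 298) (.e (nat_lit 1256) (nat_lit 92) (.e (nat_lit 98370) (nat_lit 28) (.e (nat_lit 442424) (nat_lit 22) (.e (nat_lit 196661) (nat_lit 12) (.e (nat_lit 57711) (nat_lit 176) (.e (nat_lit 976) (nat_lit 81) .nil))))))) (.g (nat_lit 4) .nil .nil))) 
(.lf (nat_lit 108650) (.g (nat_lit 1317) (.e (nat_lit 5270) (nat_lit 298) (.e (nat_lit 1256) (nat_lit 92) (.e (nat_lit 98373) (nat_lit 29) (.e (nat_lit 450586) (nat_lit 10) .nil)))) .nil))) (.nd (nat_lit 5) 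
(.lf (nat_lit 108634) (.g (nat_lit 1997) (.e (nat_lit 5270) (nat_lit 298) (.e (nat_lit 1256) (nat_lit 92) (.e (nat_lit 98372) (nat_lit 29) (.e (nat_lit 450579) (nat_lit 5) (.e (nat_lit 532489) (nat_lit 0) (.e (nat_lit 6198) (nat_lit 332) (.e (nat_lit 1074) (nat_lit 81) .nil))))))) (.g (nat_lit 4) .nil .nil))) 
(.lf (nat_lit 108666) (.g (nat_lit 4207) (.e (nat_lit 5270) (nat_lit 298) (.e (nat_lit 1256) (nat_lit 92) (.e (nat_lit 98373) (nat_lit 29) (.e (nat_lit 450588) (nat_lit 10) (.e (nat_lit 573457) (nat_lit 9) (.e (nat_lit 359) (nat_lit 30) (.e (nat_lit 409604) (nat_lit 0) .nil))))))) (.g (nat_lit 6) .nil .nil)))))) (.nd (nat_lit 3) (.nd (nat_lit 4) (.nd (nat_lit 5) 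
(.lf (nat_lit 108614) (.g (nat_lit 720) (.e (nat_lit 5270) (nat_lit 298) (.e (nat_lit 1256) (nat_lit 92) (.e (nat_lit 98370) (nat_lit 28) (.e (nat_lit 442412) (nat_lit 20) .nil)))) .nil)) 
(.lf (nat_lit 108646) (.g (nat_lit 3648) (.e (nat_lit 5270) (nat_lit 298) (.e (nat_lit 1256) (nat_lit 92) (.e (nat_lit 98372) (nat_lit 29) (.e (nat_lit 450588) (nat_lit 10) (.e (nat_lit 573452) (nat_lit 9) (.e (nat_lit 359) (nat_lit 30) (.e (nat_lit 409605) (nat_lit 0) .nil))))))) (.g (nat_lit 5) .nil .nil)))) (.nd (nat_lit 5) 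
(.lf (nat_lit 108630) (.g (nat_lit 1424) (.e (nat_lit 5270) (nat_lit 298) (.e (nat_lit 1256) (nat_lit 92) (.e (nat_lit 98372) (nat_lit 29) (.e (nat_lit 450579) (nat_lit 5) (.e (nat_lit 532484) (nat_lit 0) (.e (nat_lit 7936) (nat_lit 332) (.e (nat_lit 1078) (nat_lit 81) .nil))))))) (.g (nat_lit 4) .nil .nil))) 
(.lf (nat_lit 108662) (.g (nat_lit 4126) (.e (nat_lit 5270) (nat_lit 298) (.e (nat_lit 1256) (nat_lit 92) (.e (nat_lit 98373) (nat_lit 29) (.e (nat_lit 450588) (nat_lit 10) (.e (nat_lit 573452) (nat_lit 9) (.e (nat_lit 359) (nat_lit 30) (.e (nat_lit 409604) (nat_lit 0) .nil))))))) (.g (nat_lit 0) .nil .nil))))) (.nd (nat_lit 4) (.nd (nat_lit 5) 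
(.lf (nat_lit 108622) (.g (nat_lit 1362) (.e (nat_lit 5270) (nat_lit 298) (.e (nat_lit 1256) (nat_lit 92) (.e (nat_lit 98370) (nat_lit 28) (.e (nat_lit 442427) (nat_lit 23) (.e (nat_lit 204821) (nat_lit 17) .nil))))) .nil)) 
(.lf (nat_lit 108654) (.g (nat_lit 2360) (.e (nat_lit 5270) (nat_lit 298) (.e (nat_lit 1256) (nat_lit 92) (.e (nat_lit 98373) (nat_lit 29) (.e (nat_lit 450587) (nat_lit 10) (.e (nat_lit 573456) (nat_lit 9) (.e (nat_lit 359) (nat_lit 30) (.e (nat_lit 409604) (nat_lit 0) .nil))))))) (.g (nat_lit 4) .nil .nil)))) (.nd (nat_lit 5) 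
(.lf (nat_lit 108638) (.g (nat_lit 3008) (.e (nat_lit 5270) (nat_lit 298) (.e (nat_lit 1256) (nat_lit 92) (.e (nat_lit 98372) (nat_lit 29) (.e (nat_lit 450586) (nat_lit 10) (.e (nat_lit 573452) (nat_lit 9) (.e (nat_lit 359) (nat_lit 30) (.e (nat_lit 409604) (nat_lit 0) .nil))))))) (.g (nat_lit 0) .nil .nil))) 
(.lf (nat_lit 108670) (.g (nat_lit 2680) (.e (nat_lit 5270) (nat_lit 298) (.e (nat_lit 1400) (nat_lit 106) (.e (nat_lit 319534) (nat_lit 16) (.e (nat_lit 286756) (nat_lit 10) (.e (nat_lit 344157) (nat_lit 36) (.e (nat_lit 638986) (nat_lit 5) (.e (nat_lit 2828) (nat_lit 182) (.e (nat_lit 409604) (nat_lit 0) .nil)))))))) (.g (nat_lit 4) .nil .nil)))))))) 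
(.nd (nat_lit 1) (.nd (nat_lit 2) (.nd (nat_lit 3) (.nd (nat_lit 4) (.nd (nat_lit 5) 
(.lf (nat_lit 108609) (.g (nat_lit 3995) (.e (nat_lit 5270) (nat_lit 298) (.e (nat_lit 1256) (nat_lit 92) (.e (nat_lit 98359) (nat_lit 26) (.e (nat_lit 426286) (nat_lit 10) (.e (nat_lit 434248) (nat_lit 28) (.e (nat_lit 573452) (nat_lit 9) (.e (nat_lit 359) (nat_lit 30) (.e (nat_lit 409605) (nat_lit 0) .nil)))))))) (.g (nat_lit 0) .nil .nil))) 
(.lf (nat_lit 108641) (.g (nat_lit 1477) (.e (nat_lit 5270) (nat_lit 298) (.e (nat_lit 1256) (nat_lit 92) (.e (nat_lit 98372) (nat_lit 29) (.e (nat_lit 450586) (nat_lit 10) (.e (nat_lit 573456) (nat_lit 9) (.e (nat_lit 7936) (nat_lit 30) (.e (nat_lit 409603) (nat_lit 0) .nil))))))) (.g (nat_lit 4) .nil .nil)))) (.nd (nat_lit 5) 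
(.lf (nat_lit 108625) (.g (nat_lit 2790) (.e (nat_lit 5270) (nat_lit 298) (.e (nat_lit 1256) (nat_lit 92) (.e (nat_lit 98370) (nat_lit 28) (.e (nat_lit 442427) (nat_lit 23) (.e (nat_lit 204845) (nat_lit 24) (.e (nat_lit 327424) (nat_lit 10) .nil)))))) (.g (nat_lit 5) .nil .nil))) 
(.lf (nat_lit 108657) (.g (nat_lit 3391) (.e (nat_lit 5270) (nat_lit 298) (.e (nat_lit 1256) (nat_lit 92) (.e (nat_lit 98373) (nat_lit 29) (.e (nat_lit 450587) (nat_lit 10) (.e (nat_lit 573457) (nat_lit 9) (.e (nat_lit 359) (nat_lit 30) (.e (nat_lit 409605) (nat_lit 0) .nil))))))) (.g (nat_lit 0) .nil .nil))))) (.nd (nat_lit 4) (.nd (nat_lit 5) 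
(.lf (nat_lit 108617) (.g (nat_lit 1945) (.e (nat_lit 5270) (nat_lit 298) (.e (nat_lit 1256) (nat_lit 92) (.e (nat_lit 98370) (nat_lit 28) (.e (nat_lit 442424) (nat_lit 22) (.e (nat_lit 196661) (nat_lit 12) (.e (nat_lit 57711) (nat_lit 176) (.e (nat_lit 969) (nat_lit 81) .nil))))))) (.g (nat_lit 4) .nil .nil))) 
(.lf (nat_lit 108649) (.g (nat_lit 1625) (.e (nat_lit 5270) (nat_lit 298) (.e (nat_lit 1256) (nat_lit 92) (.e (nat_lit 98373) (nat_lit 29) (.e (nat_lit 450579) (nat_lit 5) (.e (nat_lit 532523) (nat_lit 7) .nil))))) .nil))) (.nd (nat_lit 5) 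
(.lf (nat_lit 108633) (.g (nat_lit 1366) (.e (nat_lit 5270) (nat_lit 298) (.e (nat_lit 1256) (nat_lit 92) (.e (nat_lit 98372) (nat_lit 29) (.e (nat_lit 450579) (nat_lit 5) (.e (nat_lit 532489) (nat_lit 0) .nil))))) .nil)) 
(.lf (nat_lit 108665) (.g (nat_lit 4271) (.e (nat_lit 5270) (nat_lit 298) (.e (nat_lit 1256) (nat_lit 92) (.e (nat_lit 98373) (nat_lit 29) (.e (nat_lit 450588) (nat_lit 10) (.e (nat_lit 573457) (nat_lit 9) (.e (nat_lit 359) (nat_lit 30) (.e (nat_lit 409603) (nat_lit 0) .nil))))))) (.g (nat_lit 6) .nil .nil)))))) (.nd (nat_lit 3) (.nd (nat_lit 4) (.nd (nat_lit 5) 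
(.lf (nat_lit 108613) (.g (nat_lit 1553) (.e (nat_lit 5270) (nat_lit 298) (.e (nat_lit 1256) (nat_lit 92) (.e (nat_lit 98369) (nat_lit 28) (.e (nat_lit 442427) (nat_lit 23) (.e (nat_lit 204849) (nat_lit 25) .nil))))) .nil)) 
(.lf (nat_lit 108645) (.g (nat_lit 3806) (.e (nat_lit 5270) (nat_lit 298) (.e (nat_lit 1256) (nat_lit 92) (.e (nat_lit 98372) (nat_lit 29) (.e (nat_lit 450588) (nat_lit 10) (.e (nat_lit 573452) (nat_lit 9) (.e (nat_lit 359) (nat_lit 30) (.e (nat_lit 409604) (nat_lit 0) .nil))))))) (.g (nat_lit 5) .nil .nil)))) (.nd (nat_lit 5) 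
(.lf (nat_lit 108629) (.g (nat_lit 1973) (.e (nat_lit 5270) (nat_lit 298) (.e (nat_lit 1256) (nat_lit 92) (.e (nat_lit 98372) (nat_lit 29) (.e (nat_lit 450579) (nat_lit 5) (.e (nat_lit 532484) (nat_lit 0) (.e (nat_lit 7936) (nat_lit 332) (.e (nat_lit 1077) (nat_lit 81) .nil))))))) (.g (nat_lit 4) .nil .nil))) 
(.lf (nat_lit 108661) (.g (nat_lit 5071) (.e (nat_lit 5270) (nat_lit 298) (.e (nat_lit 1256) (nat_lit 92) (.e (nat_lit 98373) (nat_lit 29) (.e (nat_lit 450588) (nat_lit 10) (.e (nat_lit 573451) (nat_lit 9) (.e (nat_lit 359) (nat_lit 30) (.e (nat_lit 409602) (nat_lit 0) .nil))))))) (.g (nat_lit 5) .nil .nil))))) (.nd (nat_lit 4) (.nd (nat_lit 5) 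
(.lf (nat_lit 108621) (.g (nat_lit 1814) (.e (nat_lit 5270) (nat_lit 298) (.e (nat_lit 1256) (nat_lit 92) (.e (nat_lit 98370) (nat_lit 28) (.e (nat_lit 442424) (nat_lit 22) (.e (nat_lit 196661) (nat_lit 12) (.e (nat_lit 57712) (nat_lit 176) (.e (nat_lit 1081) (nat_lit 81) .nil))))))) (.g (nat_lit 4) .nil .nil))) 
(.lf (nat_lit 108653) (.g (nat_lit 2940) (.e (nat_lit 5270) (nat_lit 298) (.e (nat_lit 1256) (nat_lit 92) (.e (nat_lit 98373) (nat_lit 29) (.e (nat_lit 450587) (nat_lit 10) (.e (nat_lit 573448) (nat_lit 9) (.e (nat_lit 359) (nat_lit 30) (.e (nat_lit 409604) (nat_lit 0) .nil))))))) (.g (nat_lit 4) .nil .nil)))) (.nd (nat_lit 5) 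
(.lf (nat_lit 108637) (.g (nat_lit 1732) (.e (nat_lit 5270) (nat_lit 298) (.e (nat_lit 1256) (nat_lit 92) (.e (nat_lit 98372) (nat_lit 29) (.e (nat_lit 450583) (nat_lit 7) (.e (nat_lit 548898) (nat_lit 14) .nil))))) .nil)) 
(.lf (nat_lit 108669) (.g (nat_lit 2485) (.e (nat_lit 5270) (nat_lit 298) (.e (nat_lit 1400) (nat_lit 106) (.e (nat_lit 319534) (nat_lit 16) (.e (nat_lit 286756) (nat_lit 10) (.e (nat_lit 344157) (nat_lit 36) (.e (nat_lit 638986) (nat_lit 5) (.e (nat_lit 2828) (nat_lit 182) (.e (nat_lit 409603) (nat_lit 0) .nil)))))))) (.g (nat_lit 4) .nil .nil))))))) 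
(.nd (nat_lit 2) (.nd (nat_lit 3) (.nd (nat_lit 4) (.nd (nat_lit 5) 
(.lf (nat_lit 108611) (.g (nat_lit 2458) (.e (nat_lit 5270) (nat_lit 298) (.e (nat_lit 1256) (nat_lit 92) (.e (nat_lit 98359) (nat_lit 26) (.e (nat_lit 426286) (nat_lit 10) (.e (nat_lit 434248) (nat_lit 28) (.e (nat_lit 573455) (nat_lit 9) (.e (nat_lit 359) (nat_lit 30) (.e (nat_lit 409605) (nat_lit 0) .nil)))))))) (.g (nat_lit 5) .nil .nil))) 
(.lf (nat_lit 108643) (.g (nat_lit 1530) (.e (nat_lit 5270) (nat_lit 298) (.e (nat_lit 1256) (nat_lit 92) (.e (nat_lit 98372) (nat_lit 29) (.e (nat_lit 450586) (nat_lit 10) (.e (nat_lit 573457) (nat_lit 9) (.e (nat_lit 7936) (nat_lit 30) (.e (nat_lit 409603) (nat_lit 0) .nil))))))) (.g (nat_lit 4) .nil .nil)))) (.nd (nat_lit 5) 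
(.lf (nat_lit 108627) (.g (nat_lit 673) (.e (nat_lit 5270) (nat_lit 298) (.e (nat_lit 1256) (nat_lit 92) (.e (nat_lit 98372) (nat_lit 29) (.e (nat_lit 450579) (nat_lit 5) .nil)))) .nil)) 
(.lf (nat_lit 108659) (.g (nat_lit 3295) (.e (nat_lit 5270) (nat_lit 298) (.e (nat_lit 1256) (nat_lit 92) (.e (nat_lit 98373) (nat_lit 29) (.e (nat_lit 450588) (nat_lit 10) (.e (nat_lit 573448) (nat_lit 9) .nil))))) .nil)))) (.nd (nat_lit 4) (.nd (nat_lit 5) 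
(.lf (nat_lit 108619) (.g (nat_lit 1600) (.e (nat_lit 5270) (nat_lit 298) (.e (nat_lit 1256) (nat_lit 92) (.e (nat_lit 98370) (nat_lit 28) (.e (nat_lit 442424) (nat_lit 22) (.e (nat_lit 196661) (nat_lit 12) (.e (nat_lit 57711) (nat_lit 176) (.e (nat_lit 979) (nat_lit 81) .nil))))))) (.g (nat_lit 4) .nil .nil))) 
(.lf (nat_lit 108651) (.g (nat_lit 2005) (.e (nat_lit 5270) (nat_lit 298) (.e (nat_lit 1256) (nat_lit 92) (.e (nat_lit 98373) (nat_lit 29) (.e (nat_lit 450586) (nat_lit 10) (.e (nat_lit 573452) (nat_lit 9) .nil))))) .nil))) (.nd (nat_lit 5) 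
(.lf (nat_lit 108635) (.g (nat_lit 1932) (.e (nat_lit 5270) (nat_lit 298) (.e (nat_lit 1256) (nat_lit 92) (.e (nat_lit 98372) (nat_lit 29) (.e (nat_lit 450579) (nat_lit 5) (.e (nat_lit 532489) (nat_lit 0) (.e (nat_lit 7936) (nat_lit 332) (.e (nat_lit 1077) (nat_lit 81) .nil))))))) (.g (nat_lit 4) .nil .nil))) 
(.lf (nat_lit 108667) (.g (nat_lit 4035) (.e (nat_lit 5270) (nat_lit 298) (.e (nat_lit 1256) (nat_lit 92) (.e (nat_lit 98373) (nat_lit 29) (.e (nat_lit 450588) (nat_lit 10) (.e (nat_lit 573457) (nat_lit 9) (.e (nat_lit 359) (nat_lit 30) (.e (nat_lit 409605) (nat_lit 0) .nil))))))) (.g (nat_lit 6) .nil .nil)))))) (.nd (nat_lit 3) (.nd (nat_lit 4) (.nd (nat_lit 5) 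
(.lf (nat_lit 108615) (.g (nat_lit 1709) (.e (nat_lit 5270) (nat_lit 298) (.e (nat_lit 1256) (nat_lit 92) (.e (nat_lit 98370) (nat_lit 28) (.e (nat_lit 442424) (nat_lit 22) (.e (nat_lit 196628) (nat_lit 9) (.e (nat_lit 968) (nat_lit 81) (.e (nat_lit 6202) (nat_lit 332) (.e (nat_lit 1078) (nat_lit 81) .nil)))))))) (.g (nat_lit 4) .nil .nil))) 
(.lf (nat_lit 108647) (.g (nat_lit 3162) (.e (nat_lit 5270) (nat_lit 298) (.e (nat_lit 1256) (nat_lit 92) (.e (nat_lit 98372) (nat_lit 29) (.e (nat_lit 450588) (nat_lit 10) (.e (nat_lit 573452) (nat_lit 9) (.e (nat_lit 7936) (nat_lit 30) (.e (nat_lit 409604) (nat_lit 0) .nil))))))) (.g (nat_lit 4) .nil .nil)))) (.nd (nat_lit 5) 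
(.lf (nat_lit 108631) (.g (nat_lit 1292) (.e (nat_lit 5270) (nat_lit 298) (.e (nat_lit 1256) (nat_lit 92) (.e (nat_lit 98372) (nat_lit 29) (.e (nat_lit 450579) (nat_lit 5) (.e (nat_lit 532488) (nat_lit 0) .nil))))) .nil)) 
(.lf (nat_lit 108663) (.g (nat_lit 3974) (.e (nat_lit 5270) (nat_lit 298) (.e (nat_lit 1256) (nat_lit 92) (.e (nat_lit 98373) (nat_lit 29) (.e (nat_lit 450588) (nat_lit 10) (.e (nat_lit 573452) (nat_lit 9) (.e (nat_lit 359) (nat_lit 30) (.e (nat_lit 409605) (nat_lit 0) .nil))))))) (.g (nat_lit 0) .nil .nil))))) (.nd (nat_lit 4) (.nd (nat_lit 5) 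
(.lf (nat_lit 108623) (.g (nat_lit 1473) (.e (nat_lit 5270) (nat_lit 298) (.e (nat_lit 1256) (nat_lit 92) (.e (nat_lit 98370) (nat_lit 28) (.e (nat_lit 442427) (nat_lit 23) (.e (nat_lit 204821) (nat_lit 17) (.e (nat_lit 6114) (nat_lit 332) (.e (nat_lit 968) (nat_lit 81) .nil))))))) (.g (nat_lit 4) .nil .nil))) 
(.lf (nat_lit 108655) (.g (nat_lit 2141) (.e (nat_lit 5270) (nat_lit 298) (.e (nat_lit 1256) (nat_lit 92) (.e (nat_lit 98373) (nat_lit 29) (.e (nat_lit 450587) (nat_lit 10) (.e (nat_lit 573456) (nat_lit 9) (.e (nat_lit 7936) (nat_lit 30) (.e (nat_lit 409603) (nat_lit 0) .nil))))))) (.g (nat_lit 4) .nil .nil)))) (.nd (nat_lit 5) 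
(.lf (nat_lit 108639) (.g (nat_lit 2850) (.e (nat_lit 5270) (nat_lit 298) (.e (nat_lit 1256) (nat_lit 92) (.e (nat_lit 98372) (nat_lit 29) (.e (nat_lit 450586) (nat_lit 10) (.e (nat_lit 573452) (nat_lit 9) (.e (nat_lit 359) (nat_lit 30) (.e (nat_lit 409605) (nat_lit 0) .nil))))))) (.g (nat_lit 0) .nil .nil))) 
(.lf (nat_lit 108671) (.g (nat_lit 3134) (.e (nat_lit 5270) (nat_lit 298) (.e (nat_lit 1401) (nat_lit 106) (.e (nat_lit 319534) (nat_lit 16) (.e (nat_lit 286756) (nat_lit 10) (.e (nat_lit 344157) (nat_lit 36) (.e (nat_lit 638986) (nat_lit 5) (.e (nat_lit 2825) (nat_lit 182) (.e (nat_lit 409605) (nat_lit 0) .nil)))))))) (.g (nat_lit 4) .nil .nil)))))))))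

noncomputable def tv1471 : DT := (.nd (nat_lit 0) (.nd (nat_lit 1) (.nd (nat_lit 2) (.nd (nat_lit 3) (.nd (nat_lit 4) (.nd (nat_lit 5) (.nd (nat_lit 6) 
(.lf (nat_lit 108672) (.g (nat_lit 2370) (.e (nat_lit 5270) (nat_lit 298) (.e (nat_lit 1401) (nat_lit 106) (.e (nat_lit 319534) (nat_lit 16) (.e (nat_lit 286756) (nat_lit 10) (.e (nat_lit 344160) (nat_lit 37) .nil))))) .nil)) 
(.lf (nat_lit 108736) (.g (nat_lit 2713) (.e (nat_lit 5272) (nat_lit 298) (.e (nat_lit 1239) (nat_lit 91) (.e (nat_lit 90170) (nat_lit 13) (.e (nat_lit 172106) (nat_lit 10) (.e (nat_lit 434230) (nat_lit 23) .nil))))) .nil))) (.nd (nat_lit 6) 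
(.lf (nat_lit 108704) (.g (nat_lit 1545) (.e (nat_lit 5271) (nat_lit 298) (.e (nat_lit 1256) (nat_lit 92) (.e (nat_lit 98359) (nat_lit 26) (.e (nat_lit 426285) (nat_lit 10) (.e (nat_lit 434227) (nat_lit 20) .nil))))) .nil)) 
(.lf (nat_lit 108768) (.g (nat_lit 1453) (.e (nat_lit 5277) (nat_lit 298) (.e (nat_lit 1633) (nat_lit 114) (.e (nat_lit 385106) (nat_lit 50) (.e (nat_lit 786473) (nat_lit 27) .nil)))) .nil)))) (.nd (nat_lit 5) (.nd (nat_lit 6) 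
(.lf (nat_lit 108688) (.g (nat_lit 2046) (.e (nat_lit 5271) (nat_lit 298) (.e (nat_lit 1239) (nat_lit 91) (.e (nat_lit 90170) (nat_lit 13) (.e (nat_lit 172106) (nat_lit 10) (.e (nat_lit 434231) (nat_lit 23) (.e (nat_lit 532490) (nat_lit 0) (.e (nat_lit 6092) (nat_lit 332) (.e (nat_lit 996) (nat_lit 81) .nil)))))))) (.g (nat_lit 4) .nil .nil))) 
(.lf (nat_lit 108752) (.g (nat_lit 1589) (.e (nat_lit 5274) (nat_lit 298) (.e (nat_lit 1656) (nat_lit 115) (.e (nat_lit 393234) (nat_lit 17) (.e (nat_lit 7589) (nat_lit 406) .nil)))) .nil))) (.nd (nat_lit 6) 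
(.lf (nat_lit 108720) (.g (nat_lit 1604) (.e (nat_lit 5271) (nat_lit 298) (.e (nat_lit 1256) (nat_lit 92) (.e (nat_lit 98372) (nat_lit 29) (.e (nat_lit 450579) (nat_lit 5) (.e (nat_lit 532484) (nat_lit 0) (.e (nat_lit 6200) (nat_lit 332) (.e (nat_lit 1010) (nat_lit 81) .nil))))))) (.g (nat_lit 4) .nil .nil))) 
(.lf (nat_lit 108784) (.g (nat_lit 1730) (.e (nat_lit 5277) (nat_lit 298) (.e (nat_lit 1656) (nat_lit 115) (.e (nat_lit 393234) (nat_lit 17) (.e (nat_lit 7604) (nat_lit 409) .nil)))) .nil))))) (.nd (nat_lit 4) (.nd (nat_lit 5) (.nd (nat_lit 6) 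
(.lf (nat_lit 108680) (.g (nat_lit 3865) (.e (nat_lit 5270) (nat_lit 298) (.e (nat_lit 1669) (nat_lit 116) (.e (nat_lit 401459) (nat_lit 13) (.e (nat_lit 483403) (nat_lit 26) (.e (nat_lit 385114) (nat_lit 53) .nil))))) .nil)) 
(.lf (nat_lit 108744) (.g (nat_lit 1679) (.e (nat_lit 5273) (nat_lit 298) (.e (nat_lit 1250) (nat_lit 92) (.e (nat_lit 98372) (nat_lit 29) (.e (nat_lit 450579) (nat_lit 5) (.e (nat_lit 532526) (nat_lit 8) .nil))))) .nil))) (.nd (nat_lit 6) 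
(.lf (nat_lit 108712) (.g (nat_lit 1380) (.e (nat_lit 5271) (nat_lit 298) (.e (nat_lit 1256) (nat_lit 92) (.e (nat_lit 98370) (nat_lit 28) (.e (nat_lit 442427) (nat_lit 23) (.e (nat_lit 204821) (nat_lit 17) (.e (nat_lit 6149) (nat_lit 332) (.e (nat_lit 1013) (nat_lit 81) .nil))))))) (.g (nat_lit 4) .nil .nil))) 
(.lf (nat_lit 108776) (.g (nat_lit 1774) (.e (nat_lit 5277) (nat_lit 298) (.e (nat_lit 1656) (nat_lit 115) (.e (nat_lit 393234) (nat_lit 17) (.e (nat_lit 7587) (nat_lit 406) (.e (nat_lit 73472) (nat_lit 25) .nil))))) .nil)))) (.nd (nat_lit 5) (.nd (nat_lit 6) 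
(.lf (nat_lit 108696) (.g (nat_lit 3659) (.e (nat_lit 5271) (nat_lit 298) (.e (nat_lit 1239) (nat_lit 91) (.e (nat_lit 90170) (nat_lit 13) (.e (nat_lit 172106) (nat_lit 10) (.e (nat_lit 434231) (nat_lit 23) (.e (nat_lit 532490) (nat_lit 0) (.e (nat_lit 6149) (nat_lit 332) (.e (nat_lit 1008) (nat_lit 81) .nil)))))))) (.g (nat_lit 6) .nil .nil))) 
(.lf (nat_lit 108760) (.g (nat_lit 787) (.e (nat_lit 5277) (nat_lit 298) (.e (nat_lit 1633) (nat_lit 114) (.e (nat_lit 385093) (nat_lit 49) .nil))) .nil))) (.nd (nat_lit 6) 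
(.lf (nat_lit 108728) (.g (nat_lit 3057) (.e (nat_lit 5271) (nat_lit 298) (.e (nat_lit 1400) (nat_lit 106) (.e (nat_lit 319505) (nat_lit 10) (.e (nat_lit 618) (nat_lit 48) (.e (nat_lit 557109) (nat_lit 15) (.e (nat_lit 188428) (nat_lit 20) (.e (nat_lit 3572) (nat_lit 222) (.e (nat_lit 737284) (nat_lit 0) .nil)))))))) (.g (nat_lit 5) .nil .nil))) 
(.lf (nat_lit 108792) (.g (nat_lit 1318) (.e (nat_lit 5277) (nat_lit 298) (.e (nat_lit 1656) (nat_lit 115) (.e (nat_lit 393300) (nat_lit 27) (.e (nat_lit 499456) (nat_lit 9) .nil)))) .nil)))))) (.nd (nat_lit 3) (.nd (nat_lit 4) (.nd (nat_lit 5) (.nd (nat_lit 6) 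
(.lf (nat_lit 108676) (.g (nat_lit 1951) (.e (nat_lit 5270) (nat_lit 298) (.e (nat_lit 1665) (nat_lit 115) (.e (nat_lit 393301) (nat_lit 27) (.e (nat_lit 491546) (nat_lit 9) (.e (nat_lit 343808) (nat_lit 25) .nil))))) .nil)) 
(.lf (nat_lit 108740) (.g (nat_lit 1501) (.e (nat_lit 5272) (nat_lit 298) (.e (nat_lit 1642) (nat_lit 114) (.e (nat_lit 385074) (nat_lit 31) (.e (nat_lit 573484) (nat_lit 13) (.e (nat_lit 65610) (nat_lit 10) .nil))))) .nil))) (.nd (nat_lit 6) 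
(.lf (nat_lit 108708) (.g (nat_lit 1498) (.e (nat_lit 5271) (nat_lit 298) (.e (nat_lit 1256) (nat_lit 92) (.e (nat_lit 98370) (nat_lit 28) (.e (nat_lit 442424) (nat_lit 22) (.e (nat_lit 196661) (nat_lit 12) (.e (nat_lit 57714) (nat_lit 176) (.e (nat_lit 988) (nat_lit 81) .nil))))))) (.g (nat_lit 4) .nil .nil))) 
(.lf (nat_lit 108772) (.g (nat_lit 1025) (.e (nat_lit 5277) (nat_lit 298) (.e (nat_lit 1633) (nat_lit 114) (.e (nat_lit 385106) (nat_lit 50) (.e (nat_lit 786483) (nat_lit 30) .nil)))) .nil)))) (.nd (nat_lit 5) (.nd (nat_lit 6) 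
(.lf (nat_lit 108692) (.g (nat_lit 2097) (.e (nat_lit 5271) (nat_lit 298) (.e (nat_lit 1239) (nat_lit 91) (.e (nat_lit 90170) (nat_lit 13) (.e (nat_lit 172106) (nat_lit 10) (.e (nat_lit 434231) (nat_lit 23) (.e (nat_lit 532490) (nat_lit 0) (.e (nat_lit 6126) (nat_lit 332) (.e (nat_lit 1013) (nat_lit 81) .nil)))))))) (.g (nat_lit 4) .nil .nil))) 
(.lf (nat_lit 108756) (.g (nat_lit 1891) (.e (nat_lit 5277) (nat_lit 298) (.e (nat_lit 1250) (nat_lit 92) (.e (nat_lit 98350) (nat_lit 24) (.e (nat_lit 409648) (nat_lit 18) (.e (nat_lit 303118) (nat_lit 3) .nil))))) .nil))) (.nd (nat_lit 6) 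
(.lf (nat_lit 108724) (.g (nat_lit 3560) (.e (nat_lit 5271) (nat_lit 298) (.e (nat_lit 1256) (nat_lit 92) (.e (nat_lit 98373) (nat_lit 29) (.e (nat_lit 450588) (nat_lit 10) (.e (nat_lit 573452) (nat_lit 9) (.e (nat_lit 365) (nat_lit 31) (.e (nat_lit 417795) (nat_lit 0) .nil))))))) (.g (nat_lit 0) .nil .nil))) 
(.lf (nat_lit 108788) (.g (nat_lit 1099) (.e (nat_lit 5277) (nat_lit 298) (.e (nat_lit 1656) (nat_lit 115) (.e (nat_lit 393300) (nat_lit 27) (.e (nat_lit 491549) (nat_lit 9) .nil)))) .nil))))) (.nd (nat_lit 4) (.nd (nat_lit 5) (.nd (nat_lit 6) 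
(.lf (nat_lit 108684) (.g (nat_lit 4423) (.e (nat_lit 5271) (nat_lit 298) (.e (nat_lit 1239) (nat_lit 91) (.e (nat_lit 90170) (nat_lit 13) (.e (nat_lit 172106) (nat_lit 10) (.e (nat_lit 434231) (nat_lit 23) (.e (nat_lit 532482) (nat_lit 0) (.e (nat_lit 6192) (nat_lit 332) (.e (nat_lit 1008) (nat_lit 81) .nil)))))))) (.g (nat_lit 8) .nil .nil))) 
(.lf (nat_lit 108748) (.g (nat_lit 1174) (.e (nat_lit 5273) (nat_lit 298) (.e (nat_lit 1656) (nat_lit 115) (.e (nat_lit 393234) (nat_lit 17) (.e (nat_lit 7591) (nat_lit 407) .nil)))) .nil))) (.nd (nat_lit 6) 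
(.lf (nat_lit 108716) (.g (nat_lit 1338) (.e (nat_lit 5271) (nat_lit 298) (.e (nat_lit 1256) (nat_lit 92) (.e (nat_lit 98372) (nat_lit 29) (.e (nat_lit 450579) (nat_lit 5) (.e (nat_lit 532484) (nat_lit 0) .nil))))) .nil)) 
(.lf (nat_lit 108780) (.g (nat_lit 1719) (.e (nat_lit 5277) (nat_lit 298) (.e (nat_lit 1656) (nat_lit 115) (.e (nat_lit 393234) (nat_lit 17) (.e (nat_lit 7591) (nat_lit 407) (.e (nat_lit 73729) (nat_lit 0) .nil))))) .nil)))) (.nd (nat_lit 5) (.nd (nat_lit 6) 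
(.lf (nat_lit 108700) (.g (nat_lit 3758) (.e (nat_lit 5271) (nat_lit 298) (.e (nat_lit 1239) (nat_lit 91) (.e (nat_lit 90170) (nat_lit 13) (.e (nat_lit 172106) (nat_lit 10) (.e (nat_lit 434231) (nat_lit 23) (.e (nat_lit 532523) (nat_lit 7) (.e (nat_lit 327424) (nat_lit 10) .nil))))))) (.g (nat_lit 6) .nil .nil))) 
(.lf (nat_lit 108764) (.g (nat_lit 1817) (.e (nat_lit 5277) (nat_lit 298) (.e (nat_lit 1633) (nat_lit 114) (.e (nat_lit 385094) (nat_lit 49) (.e (nat_lit 778326) (nat_lit 6) (.e (nat_lit 81922) (nat_lit 0) .nil))))) .nil))) (.nd (nat_lit 6) 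
(.lf (nat_lit 108732) (.g (nat_lit 970) (.e (nat_lit 5271) (nat_lit 298) (.e (nat_lit 1665) (nat_lit 115) (.e (nat_lit 393301) (nat_lit 27) (.e (nat_lit 491551) (nat_lit 9) .nil)))) .nil)) 
(.lf (nat_lit 108796) (.g (nat_lit 2794) (.e (nat_lit 5277) (nat_lit 298) (.e (nat_lit 1656) (nat_lit 115) (.e (nat_lit 393301) (nat_lit 27) (.e (nat_lit 491546) (nat_lit 9) (.e (nat_lit 335997) (nat_lit 1) .nil))))) .nil))))))) (.nd (nat_lit 2) (.nd (nat_lit 3) (.nd (nat_lit 4) (.nd (nat_lit 5) (.nd (nat_lit 6) 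
(.lf (nat_lit 108674) (.g (nat_lit 388) (.e (nat_lit 5270) (nat_lit 298) (.e (nat_lit 1642) (nat_lit 114) (.e (nat_lit 385063) (nat_lit 25) .nil))) .nil)) 
(.lf (nat_lit 108738) (.g (nat_lit 2041) (.e (nat_lit 5272) (nat_lit 298) (.e (nat_lit 1400) (nat_lit 106) (.e (nat_lit 319505) (nat_lit 10) (.e (nat_lit 618) (nat_lit 48) (.e (nat_lit 557109) (nat_lit 15) .nil))))) .nil))) (.nd (nat_lit 6) 
(.lf (nat_lit 108706) (.g (nat_lit 506) (.e (nat_lit 5271) (nat_lit 298) (.e (nat_lit 1256) (nat_lit 92) (.e (nat_lit 98370) (nat_lit 28) (.e (nat_lit 442424) (nat_lit 22) .nil)))) .nil)) 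
(.lf (nat_lit 108770) (.g (nat_lit 3206) (.e (nat_lit 5277) (nat_lit 298) (.e (nat_lit 1633) (nat_lit 114) (.e (nat_lit 385106) (nat_lit 50) (.e (nat_lit 786480) (nat_lit 29) (.e (nat_lit 352262) (nat_lit 0) (.e (nat_lit 3806) (nat_lit 231) (.e (nat_lit 811018) (nat_lit 0) .nil))))))) (.g (nat_lit 7) .nil .nil))))) (.nd (nat_lit 5) (.nd (nat_lit 6) 
(.lf (nat_lit 108690) (.g (nat_lit 2032) (.e (nat_lit 5271) (nat_lit 298) (.e (nat_lit 1239) (nat_lit 91) (.e (nat_lit 90170) (nat_lit 13) (.e (nat_lit 172106) (nat_lit 10) (.e (nat_lit 434231) (nat_lit 23) (.e (nat_lit 532490) (nat_lit 0) (.e (nat_lit 6092) (nat_lit 332) (.e (nat_lit 1016) (nat_lit 81) .nil)))))))) (.g (nat_lit 4) .nil .nil))) 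
(.lf (nat_lit 108754) (.g (nat_lit 3482) (.e (nat_lit 5277) (nat_lit 298) (.e (nat_lit 1232) (nat_lit 91) (.e (nat_lit 90170) (nat_lit 13) (.e (nat_lit 172106) (nat_lit 10) (.e (nat_lit 434231) (nat_lit 23) (.e (nat_lit 532523) (nat_lit 7) (.e (nat_lit 327424) (nat_lit 10) .nil))))))) (.g (nat_lit 6) .nil .nil)))) (.nd (nat_lit 6) 
(.lf (nat_lit 108722) (.g (nat_lit 3436) (.e (nat_lit 5271) (nat_lit 298) (.e (nat_lit 1256) (nat_lit 92) (.e (nat_lit 98372) (nat_lit 29) (.e (nat_lit 450588) (nat_lit 10) (.e (nat_lit 573451) (nat_lit 9) .nil))))) .nil)) 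
(.lf (nat_lit 108786) (.g (nat_lit 495) (.e (nat_lit 5277) (nat_lit 298) (.e (nat_lit 1656) (nat_lit 115) (.e (nat_lit 393300) (nat_lit 27) .nil))) .nil))))) (.nd (nat_lit 4) (.nd (nat_lit 5) (.nd (nat_lit 6) 
(.lf (nat_lit 108682) (.g (nat_lit 2427) (.e (nat_lit 5271) (nat_lit 298) (.e (nat_lit 1239) (nat_lit 91) (.e (nat_lit 90170) (nat_lit 13) (.e (nat_lit 172106) (nat_lit 10) (.e (nat_lit 434227) (nat_lit 20) .nil))))) .nil)) 
(.lf (nat_lit 108746) (.g (nat_lit 1588) (.e (nat_lit 5273) (nat_lit 298) (.e (nat_lit 1656) (nat_lit 115) (.e (nat_lit 393234) (nat_lit 17) (.e (nat_lit 7587) (nat_lit 406) .nil)))) .nil))) (.nd (nat_lit 6) 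
(.lf (nat_lit 108714) (.g (nat_lit 1580) (.e (nat_lit 5271) (nat_lit 298) (.e (nat_lit 1256) (nat_lit 92) (.e (nat_lit 98370) (nat_lit 28) (.e (nat_lit 442427) (nat_lit 23) (.e (nat_lit 204849) (nat_lit 25) .nil))))) .nil)) 
(.lf (nat_lit 108778) (.g (nat_lit 1532) (.e (nat_lit 5277) (nat_lit 298) (.e (nat_lit 1656) (nat_lit 115) (.e (nat_lit 393234) (nat_lit 17) (.e (nat_lit 7936) (nat_lit 406) .nil)))) .nil)))) (.nd (nat_lit 5) (.nd (nat_lit 6) 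
(.lf (nat_lit 108698) (.g (nat_lit 2600) (.e (nat_lit 5271) (nat_lit 298) (.e (nat_lit 1239) (nat_lit 91) (.e (nat_lit 90170) (nat_lit 13) (.e (nat_lit 172106) (nat_lit 10) (.e (nat_lit 434231) (nat_lit 23) (.e (nat_lit 532490) (nat_lit 0) (.e (nat_lit 6149) (nat_lit 332) (.e (nat_lit 1015) (nat_lit 81) .nil)))))))) (.g (nat_lit 5) .nil .nil))) 
(.lf (nat_lit 108762) (.g (nat_lit 1857) (.e (nat_lit 5277) (nat_lit 298) (.e (nat_lit 1633) (nat_lit 114) (.e (nat_lit 385094) (nat_lit 49) (.e (nat_lit 778321) (nat_lit 4) (.e (nat_lit 65623) (nat_lit 12) .nil))))) .nil))) (.nd (nat_lit 6) 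
(.lf (nat_lit 108730) (.g (nat_lit 2253) (.e (nat_lit 5271) (nat_lit 298) (.e (nat_lit 1400) (nat_lit 106) (.e (nat_lit 319533) (nat_lit 16) (.e (nat_lit 286753) (nat_lit 10) (.e (nat_lit 344157) (nat_lit 36) (.e (nat_lit 638985) (nat_lit 5) (.e (nat_lit 2828) (nat_lit 182) (.e (nat_lit 417536) (nat_lit 0) .nil)))))))) (.g (nat_lit 5) .nil .nil))) 
(.lf (nat_lit 108794) (.g (nat_lit 449) (.e (nat_lit 5277) (nat_lit 298) (.e (nat_lit 1656) (nat_lit 115) (.e (nat_lit 393301) (nat_lit 27) .nil))) .nil)))))) (.nd (nat_lit 3) (.nd (nat_lit 4) (.nd (nat_lit 5) (.nd (nat_lit 6) 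
(.lf (nat_lit 108678) (.g (nat_lit 1627) (.e (nat_lit 5270) (nat_lit 298) (.e (nat_lit 1665) (nat_lit 115) (.e (nat_lit 393301) (nat_lit 27) (.e (nat_lit 491552) (nat_lit 9) (.e (nat_lit 343808) (nat_lit 25) (.e (nat_lit 409604) (nat_lit 0) .nil)))))) (.g (nat_lit 4) .nil .nil))) 
(.lf (nat_lit 108742) (.g (nat_lit 1804) (.e (nat_lit 5272) (nat_lit 298) (.e (nat_lit 1665) (nat_lit 115) (.e (nat_lit 393301) (nat_lit 27) (.e (nat_lit 491552) (nat_lit 9) (.e (nat_lit 336363) (nat_lit 26) .nil))))) .nil))) (.nd (nat_lit 6) 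
(.lf (nat_lit 108710) (.g (nat_lit 1263) (.e (nat_lit 5271) (nat_lit 298) (.e (nat_lit 1256) (nat_lit 92) (.e (nat_lit 98370) (nat_lit 28) (.e (nat_lit 442427) (nat_lit 23) (.e (nat_lit 204821) (nat_lit 17) .nil))))) .nil)) 
(.lf (nat_lit 108774) (.g (nat_lit 1424) (.e (nat_lit 5277) (nat_lit 298) (.e (nat_lit 1656) (nat_lit 115) (.e (nat_lit 393234) (nat_lit 17) (.e (nat_lit 7587) (nat_lit 406) .nil)))) .nil)))) (.nd (nat_lit 5) (.nd (nat_lit 6) 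
(.lf (nat_lit 108694) (.g (nat_lit 2735) (.e (nat_lit 5271) (nat_lit 298) (.e (nat_lit 1239) (nat_lit 91) (.e (nat_lit 90170) (nat_lit 13) (.e (nat_lit 172106) (nat_lit 10) (.e (nat_lit 434231) (nat_lit 23) (.e (nat_lit 532490) (nat_lit 0) (.e (nat_lit 6136) (nat_lit 332) (.e (nat_lit 1013) (nat_lit 81) .nil)))))))) (.g (nat_lit 5) .nil .nil))) 
(.lf (nat_lit 108758) (.g (nat_lit 1708) (.e (nat_lit 5277) (nat_lit 298) (.e (nat_lit 1250) (nat_lit 92) (.e (nat_lit 98372) (nat_lit 29) (.e (nat_lit 450579) (nat_lit 5) (.e (nat_lit 532526) (nat_lit 8) .nil))))) .nil))) (.nd (nat_lit 6) 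
(.lf (nat_lit 108726) (.g (nat_lit 3346) (.e (nat_lit 5271) (nat_lit 298) (.e (nat_lit 1256) (nat_lit 92) (.e (nat_lit 98373) (nat_lit 29) (.e (nat_lit 450588) (nat_lit 10) (.e (nat_lit 573457) (nat_lit 9) (.e (nat_lit 365) (nat_lit 31) (.e (nat_lit 417794) (nat_lit 0) .nil))))))) (.g (nat_lit 5) .nil .nil))) 
(.lf (nat_lit 108790) (.g (nat_lit 1490) (.e (nat_lit 5277) (nat_lit 298) (.e (nat_lit 1656) (nat_lit 115) (.e (nat_lit 393300) (nat_lit 27) (.e (nat_lit 491555) (nat_lit 9) .nil)))) .nil))))) (.nd (nat_lit 4) (.nd (nat_lit 5) (.nd (nat_lit 6) 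
(.lf (nat_lit 108686) (.g (nat_lit 3834) (.e (nat_lit 5271) (nat_lit 298) (.e (nat_lit 1239) (nat_lit 91) (.e (nat_lit 90170) (nat_lit 13) (.e (nat_lit 172106) (nat_lit 10) (.e (nat_lit 434231) (nat_lit 23) (.e (nat_lit 532483) (nat_lit 0) (.e (nat_lit 6200) (nat_lit 332) (.e (nat_lit 1009) (nat_lit 81) .nil)))))))) (.g (nat_lit 5) .nil .nil))) 
(.lf (nat_lit 108750) (.g (nat_lit 2892) (.e (nat_lit 5273) (nat_lit 298) (.e (nat_lit 1656) (nat_lit 115) (.e (nat_lit 393301) (nat_lit 27) (.e (nat_lit 491560) (nat_lit 10) (.e (nat_lit 344097) (nat_lit 18) .nil))))) .nil))) (.nd (nat_lit 6) 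
(.lf (nat_lit 108718) (.g (nat_lit 1352) (.e (nat_lit 5271) (nat_lit 298) (.e (nat_lit 1256) (nat_lit 92) (.e (nat_lit 98372) (nat_lit 29) (.e (nat_lit 450579) (nat_lit 5) (.e (nat_lit 532484) (nat_lit 0) (.e (nat_lit 6168) (nat_lit 332) (.e (nat_lit 1010) (nat_lit 81) .nil))))))) (.g (nat_lit 4) .nil .nil))) 
(.lf (nat_lit 108782) (.g (nat_lit 1735) (.e (nat_lit 5277) (nat_lit 298) (.e (nat_lit 1656) (nat_lit 115) (.e (nat_lit 393234) (nat_lit 17) (.e (nat_lit 7591) (nat_lit 407) (.e (nat_lit 73733) (nat_lit 0) .nil))))) .nil)))) (.nd (nat_lit 5) (.nd (nat_lit 6) 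
(.lf (nat_lit 108702) (.g (nat_lit 1919) (.e (nat_lit 5271) (nat_lit 298) (.e (nat_lit 1239) (nat_lit 91) (.e (nat_lit 90170) (nat_lit 13) (.e (nat_lit 172126) (nat_lit 14) .nil)))) .nil)) 
(.lf (nat_lit 108766) (.g (nat_lit 1323) (.e (nat_lit 5277) (nat_lit 298) (.e (nat_lit 1633) (nat_lit 114) (.e (nat_lit 385105) (nat_lit 50) (.e (nat_lit 786478) (nat_lit 29) .nil)))) .nil))) (.nd (nat_lit 6) 
(.lf (nat_lit 108734) (.g (nat_lit 1519) (.e (nat_lit 5272) (nat_lit 298) (.e (nat_lit 1239) (nat_lit 91) (.e (nat_lit 90170) (nat_lit 13) (.e (nat_lit 172092) (nat_lit 9) .nil)))) .nil)) 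
(.lf (nat_lit 108798) (.g (nat_lit 1886) (.e (nat_lit 5277) (nat_lit 298) (.e (nat_lit 1656) (nat_lit 115) (.e (nat_lit 393301) (nat_lit 27) (.e (nat_lit 491552) (nat_lit 9) .nil)))) .nil)))))))) (.nd (nat_lit 1) (.nd (nat_lit 2) (.nd (nat_lit 3) (.nd (nat_lit 4) (.nd (nat_lit 5) (.nd (nat_lit 6) 
(.lf (nat_lit 108673) (.g (nat_lit 3322) (.e (nat_lit 5270) (nat_lit 298) (.e (nat_lit 1401) (nat_lit 106) (.e (nat_lit 319534) (nat_lit 16) (.e (nat_lit 286756) (nat_lit 10) (.e (nat_lit 344160) (nat_lit 37) (.e (nat_lit 647190) (nat_lit 9) (.e (nat_lit 359) (nat_lit 30) (.e (nat_lit 409604) (nat_lit 0) .nil)))))))) (.g (nat_lit 4) .nil .nil))) 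
(.lf (nat_lit 108737) (.g (nat_lit 2511) (.e (nat_lit 5272) (nat_lit 298) (.e (nat_lit 1239) (nat_lit 91) (.e (nat_lit 90170) (nat_lit 13) (.e (nat_lit 172113) (nat_lit 10) (.e (nat_lit 434233) (nat_lit 23) .nil))))) .nil))) (.nd (nat_lit 6) 
(.lf (nat_lit 108705) (.g (nat_lit 1514) (.e (nat_lit 5271) (nat_lit 298) (.e (nat_lit 1256) (nat_lit 92) (.e (nat_lit 98359) (nat_lit 26) (.e (nat_lit 426286) (nat_lit 10) (.e (nat_lit 434227) (nat_lit 20) .nil))))) .nil)) 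
(.lf (nat_lit 108769) (.g (nat_lit 1608) (.e (nat_lit 5277) (nat_lit 298) (.e (nat_lit 1633) (nat_lit 114) (.e (nat_lit 385106) (nat_lit 50) (.e (nat_lit 786479) (nat_lit 29) .nil)))) .nil)))) (.nd (nat_lit 5) (.nd (nat_lit 6) 
(.lf (nat_lit 108689) (.g (nat_lit 2709) (.e (nat_lit 5271) (nat_lit 298) (.e (nat_lit 1239) (nat_lit 91) (.e (nat_lit 90170) (nat_lit 13) (.e (nat_lit 172106) (nat_lit 10) (.e (nat_lit 434231) (nat_lit 23) (.e (nat_lit 532490) (nat_lit 0) (.e (nat_lit 6092) (nat_lit 332) (.e (nat_lit 1013) (nat_lit 81) .nil)))))))) (.g (nat_lit 5) .nil .nil))) 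
(.lf (nat_lit 108753) (.g (nat_lit 2989) (.e (nat_lit 5275) (nat_lit 298) (.e (nat_lit 1656) (nat_lit 115) (.e (nat_lit 393301) (nat_lit 27) (.e (nat_lit 491560) (nat_lit 10) (.e (nat_lit 344097) (nat_lit 18) .nil))))) .nil))) (.nd (nat_lit 6) 
(.lf (nat_lit 108721) (.g (nat_lit 1269) (.e (nat_lit 5271) (nat_lit 298) (.e (nat_lit 1256) (nat_lit 92) (.e (nat_lit 98372) (nat_lit 29) (.e (nat_lit 450579) (nat_lit 5) (.e (nat_lit 532488) (nat_lit 0) .nil))))) .nil)) 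
(.lf (nat_lit 108785) (.g (nat_lit 447) (.e (nat_lit 5277) (nat_lit 298) (.e (nat_lit 1656) (nat_lit 115) (.e (nat_lit 393265) (nat_lit 22) .nil))) .nil))))) (.nd (nat_lit 4) (.nd (nat_lit 5) (.nd (nat_lit 6) 
(.lf (nat_lit 108681) (.g (nat_lit 2201) (.e (nat_lit 5271) (nat_lit 298) (.e (nat_lit 1239) (nat_lit 91) (.e (nat_lit 90170) (nat_lit 13) (.e (nat_lit 172088) (nat_lit 9) .nil)))) .nil)) 
(.lf (nat_lit 108745) (.g (nat_lit 795) (.e (nat_lit 5273) (nat_lit 298) (.e (nat_lit 1633) (nat_lit 114) (.e (nat_lit 385094) (nat_lit 49) .nil))) .nil))) (.nd (nat_lit 6) 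
(.lf (nat_lit 108713) (.g (nat_lit 2344) (.e (nat_lit 5271) (nat_lit 298) (.e (nat_lit 1256) (nat_lit 92) (.e (nat_lit 98370) (nat_lit 28) (.e (nat_lit 442427) (nat_lit 23) (.e (nat_lit 204845) (nat_lit 24) (.e (nat_lit 327424) (nat_lit 10) .nil)))))) (.g (nat_lit 5) .nil .nil))) 
(.lf (nat_lit 108777) (.g (nat_lit 2181) (.e (nat_lit 5277) (nat_lit 298) (.e (nat_lit 1656) (nat_lit 115) (.e (nat_lit 393234) (nat_lit 17) (.e (nat_lit 7589) (nat_lit 406) (.e (nat_lit 65647) (nat_lit 25) .nil))))) .nil)))) (.nd (nat_lit 5) (.nd (nat_lit 6) 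
(.lf (nat_lit 108697) (.g (nat_lit 2712) (.e (nat_lit 5271) (nat_lit 298) (.e (nat_lit 1239) (nat_lit 91) (.e (nat_lit 90170) (nat_lit 13) (.e (nat_lit 172106) (nat_lit 10) (.e (nat_lit 434231) (nat_lit 23) (.e (nat_lit 532490) (nat_lit 0) (.e (nat_lit 6149) (nat_lit 332) (.e (nat_lit 1012) (nat_lit 81) .nil)))))))) (.g (nat_lit 5) .nil .nil))) 
(.lf (nat_lit 108761) (.g (nat_lit 1502) (.e (nat_lit 5277) (nat_lit 298) (.e (nat_lit 1633) (nat_lit 114) (.e (nat_lit 385093) (nat_lit 49) (.e (nat_lit 778320) (nat_lit 4) .nil)))) .nil))) (.nd (nat_lit 6) 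
(.lf (nat_lit 108729) (.g (nat_lit 1163) (.e (nat_lit 5271) (nat_lit 298) (.e (nat_lit 1400) (nat_lit 106) (.e (nat_lit 319533) (nat_lit 16) (.e (nat_lit 286753) (nat_lit 10) .nil)))) .nil)) 
(.lf (nat_lit 108793) (.g (nat_lit 1558) (.e (nat_lit 5277) (nat_lit 298) (.e (nat_lit 1656) (nat_lit 115) (.e (nat_lit 393300) (nat_lit 27) (.e (nat_lit 491560) (nat_lit 10) .nil)))) .nil)))))) (.nd (nat_lit 3) (.nd (nat_lit 4) (.nd (nat_lit 5) (.nd (nat_lit 6) 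
(.lf (nat_lit 108677) (.g (nat_lit 2131) (.e (nat_lit 5270) (nat_lit 298) (.e (nat_lit 1665) (nat_lit 115) (.e (nat_lit 393301) (nat_lit 27) (.e (nat_lit 491552) (nat_lit 9) (.e (nat_lit 336358) (nat_lit 25) (.e (nat_lit 409605) (nat_lit 0) .nil)))))) (.g (nat_lit 0) .nil .nil))) 
(.lf (nat_lit 108741) (.g (nat_lit 1752) (.e (nat_lit 5272) (nat_lit 298) (.e (nat_lit 1642) (nat_lit 114) (.e (nat_lit 385074) (nat_lit 31) (.e (nat_lit 573485) (nat_lit 13) (.e (nat_lit 65619) (nat_lit 10) .nil))))) .nil))) (.nd (nat_lit 6) 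
(.lf (nat_lit 108709) (.g (nat_lit 3220) (.e (nat_lit 5271) (nat_lit 298) (.e (nat_lit 1256) (nat_lit 92) (.e (nat_lit 98370) (nat_lit 28) (.e (nat_lit 442426) (nat_lit 23) (.e (nat_lit 204846) (nat_lit 24) (.e (nat_lit 319504) (nat_lit 10) .nil)))))) (.g (nat_lit 6) .nil .nil))) 
(.lf (nat_lit 108773) (.g (nat_lit 383) (.e (nat_lit 5277) (nat_lit 298) (.e (nat_lit 1656) (nat_lit 115) (.e (nat_lit 393234) (nat_lit 17) .nil))) .nil)))) (.nd (nat_lit 5) (.nd (nat_lit 6) 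
(.lf (nat_lit 108693) (.g (nat_lit 2735) (.e (nat_lit 5271) (nat_lit 298) (.e (nat_lit 1239) (nat_lit 91) (.e (nat_lit 90170) (nat_lit 13) (.e (nat_lit 172106) (nat_lit 10) (.e (nat_lit 434231) (nat_lit 23) (.e (nat_lit 532490) (nat_lit 0) (.e (nat_lit 6136) (nat_lit 332) (.e (nat_lit 995) (nat_lit 81) .nil)))))))) (.g (nat_lit 5) .nil .nil))) 
(.lf (nat_lit 108757) (.g (nat_lit 1476) (.e (nat_lit 5277) (nat_lit 298) (.e (nat_lit 1250) (nat_lit 92) (.e (nat_lit 98372) (nat_lit 29) (.e (nat_lit 450579) (nat_lit 5) (.e (nat_lit 532522) (nat_lit 7) .nil))))) .nil))) (.nd (nat_lit 6) 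
(.lf (nat_lit 108725) (.g (nat_lit 3299) (.e (nat_lit 5271) (nat_lit 298) (.e (nat_lit 1256) (nat_lit 92) (.e (nat_lit 98373) (nat_lit 29) (.e (nat_lit 450588) (nat_lit 10) (.e (nat_lit 573457) (nat_lit 9) (.e (nat_lit 365) (nat_lit 31) (.e (nat_lit 417793) (nat_lit 0) .nil))))))) (.g (nat_lit 5) .nil .nil))) 
(.lf (nat_lit 108789) (.g (nat_lit 1642) (.e (nat_lit 5277) (nat_lit 298) (.e (nat_lit 1656) (nat_lit 115) (.e (nat_lit 393300) (nat_lit 27) (.e (nat_lit 491552) (nat_lit 9) .nil)))) .nil))))) (.nd (nat_lit 4) (.nd (nat_lit 5) (.nd (nat_lit 6) 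
(.lf (nat_lit 108685) (.g (nat_lit 3894) (.e (nat_lit 5271) (nat_lit 298) (.e (nat_lit 1239) (nat_lit 91) (.e (nat_lit 90170) (nat_lit 13) (.e (nat_lit 172106) (nat_lit 10) (.e (nat_lit 434231) (nat_lit 23) (.e (nat_lit 532483) (nat_lit 0) (.e (nat_lit 6200) (nat_lit 332) (.e (nat_lit 1008) (nat_lit 81) .nil)))))))) (.g (nat_lit 5) .nil .nil))) 
(.lf (nat_lit 108749) (.g (nat_lit 2136) (.e (nat_lit 5273) (nat_lit 298) (.e (nat_lit 1656) (nat_lit 115) (.e (nat_lit 393301) (nat_lit 27) (.e (nat_lit 491552) (nat_lit 9) .nil)))) .nil))) (.nd (nat_lit 6) 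
(.lf (nat_lit 108717) (.g (nat_lit 1436) (.e (nat_lit 5271) (nat_lit 298) (.e (nat_lit 1256) (nat_lit 92) (.e (nat_lit 98372) (nat_lit 29) (.e (nat_lit 450579) (nat_lit 5) (.e (nat_lit 532484) (nat_lit 0) (.e (nat_lit 6168) (nat_lit 332) (.e (nat_lit 1009) (nat_lit 81) .nil))))))) (.g (nat_lit 4) .nil .nil))) 
(.lf (nat_lit 108781) (.g (nat_lit 1674) (.e (nat_lit 5277) (nat_lit 298) (.e (nat_lit 1656) (nat_lit 115) (.e (nat_lit 393234) (nat_lit 17) (.e (nat_lit 7591) (nat_lit 407) (.e (nat_lit 73731) (nat_lit 0) .nil))))) .nil)))) (.nd (nat_lit 5) (.nd (nat_lit 6) 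
(.lf (nat_lit 108701) (.g (nat_lit 2478) (.e (nat_lit 5271) (nat_lit 298) (.e (nat_lit 1239) (nat_lit 91) (.e (nat_lit 90170) (nat_lit 13) (.e (nat_lit 172115) (nat_lit 10) (.e (nat_lit 434231) (nat_lit 23) .nil))))) .nil)) 
(.lf (nat_lit 108765) (.g (nat_lit 1152) (.e (nat_lit 5277) (nat_lit 298) (.e (nat_lit 1633) (nat_lit 114) (.e (nat_lit 385094) (nat_lit 49) (.e (nat_lit 778327) (nat_lit 6) .nil)))) .nil))) (.nd (nat_lit 6) 
(.lf (nat_lit 108733) (.g (nat_lit 2411) (.e (nat_lit 5272) (nat_lit 298) (.e (nat_lit 1239) (nat_lit 91) (.e (nat_lit 90170) (nat_lit 13) (.e (nat_lit 172088) (nat_lit 9) .nil)))) .nil)) 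
(.lf (nat_lit 108797) (.g (nat_lit 1811) (.e (nat_lit 5277) (nat_lit 298) (.e (nat_lit 1656) (nat_lit 115) (.e (nat_lit 393301) (nat_lit 27) (.e (nat_lit 491551) (nat_lit 9) .nil)))) .nil))))))) (.nd (nat_lit 2) (.nd (nat_lit 3) (.nd (nat_lit 4) (.nd (nat_lit 5) (.nd (nat_lit 6) 
(.lf (nat_lit 108675) (.g (nat_lit 2032) (.e (nat_lit 5270) (nat_lit 298) (.e (nat_lit 1665) (nat_lit 115) (.e (nat_lit 393301) (nat_lit 27) (.e (nat_lit 491546) (nat_lit 9) (.e (nat_lit 336358) (nat_lit 25) .nil))))) .nil)) 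
(.lf (nat_lit 108739) (.g (nat_lit 605) (.e (nat_lit 5272) (nat_lit 298) (.e (nat_lit 1538) (nat_lit 109) (.e (nat_lit 344126) (nat_lit 25) (.e (nat_lit 548889) (nat_lit 9) .nil)))) .nil))) (.nd (nat_lit 6) 
(.lf (nat_lit 108707) (.g (nat_lit 1824) (.e (nat_lit 5271) (nat_lit 298) (.e (nat_lit 1256) (nat_lit 92) (.e (nat_lit 98370) (nat_lit 28) (.e (nat_lit 442424) (nat_lit 22) (.e (nat_lit 196661) (nat_lit 12) (.e (nat_lit 57711) (nat_lit 176) (.e (nat_lit 1013) (nat_lit 81) .nil))))))) (.g (nat_lit 5) .nil .nil))) 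
(.lf (nat_lit 108771) (.g (nat_lit 2201) (.e (nat_lit 5277) (nat_lit 298) (.e (nat_lit 1633) (nat_lit 114) (.e (nat_lit 385106) (nat_lit 50) (.e (nat_lit 786480) (nat_lit 29) (.e (nat_lit 352265) (nat_lit 0) .nil))))) .nil)))) (.nd (nat_lit 5) (.nd (nat_lit 6) 
(.lf (nat_lit 108691) (.g (nat_lit 3528) (.e (nat_lit 5271) (nat_lit 298) (.e (nat_lit 1239) (nat_lit 91) (.e (nat_lit 90170) (nat_lit 13) (.e (nat_lit 172106) (nat_lit 10) (.e (nat_lit 434231) (nat_lit 23) (.e (nat_lit 532490) (nat_lit 0) (.e (nat_lit 6126) (nat_lit 332) (.e (nat_lit 1008) (nat_lit 81) .nil)))))))) (.g (nat_lit 6) .nil .nil))) 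
(.lf (nat_lit 108755) (.g (nat_lit 134) (.e (nat_lit 5277) (nat_lit 298) (.e (nat_lit 1232) (nat_lit 91) (.e (nat_lit 90176) (nat_lit 15) .nil))) .nil))) (.nd (nat_lit 6) 
(.lf (nat_lit 108723) (.g (nat_lit 2059) (.e (nat_lit 5271) (nat_lit 298) (.e (nat_lit 1256) (nat_lit 92) (.e (nat_lit 98373) (nat_lit 29) (.e (nat_lit 450581) (nat_lit 5) (.e (nat_lit 532523) (nat_lit 7) .nil))))) .nil)) 
(.lf (nat_lit 108787) (.g (nat_lit 2239) (.e (nat_lit 5277) (nat_lit 298) (.e (nat_lit 1656) (nat_lit 115) (.e (nat_lit 393300) (nat_lit 27) (.e (nat_lit 491546) (nat_lit 9) (.e (nat_lit 335997) (nat_lit 1) .nil))))) .nil))))) (.nd (nat_lit 4) (.nd (nat_lit 5) (.nd (nat_lit 6) 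
(.lf (nat_lit 108683) (.g (nat_lit 5184) (.e (nat_lit 5271) (nat_lit 298) (.e (nat_lit 1239) (nat_lit 91) (.e (nat_lit 90170) (nat_lit 13) (.e (nat_lit 172106) (nat_lit 10) (.e (nat_lit 434231) (nat_lit 23) (.e (nat_lit 532481) (nat_lit 0) (.e (nat_lit 6157) (nat_lit 332) (.e (nat_lit 1010) (nat_lit 81) .nil)))))))) (.g (nat_lit 6) .nil .nil))) 
(.lf (nat_lit 108747) (.g (nat_lit 2375) (.e (nat_lit 5273) (nat_lit 298) (.e (nat_lit 1656) (nat_lit 115) (.e (nat_lit 393234) (nat_lit 17) (.e (nat_lit 7589) (nat_lit 406) (.e (nat_lit 65647) (nat_lit 25) .nil))))) .nil))) (.nd (nat_lit 6) 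
(.lf (nat_lit 108715) (.g (nat_lit 968) (.e (nat_lit 5271) (nat_lit 298) (.e (nat_lit 1256) (nat_lit 92) (.e (nat_lit 98372) (nat_lit 29) (.e (nat_lit 450576) (nat_lit 2) .nil)))) .nil)) 
(.lf (nat_lit 108779) (.g (nat_lit 1051) (.e (nat_lit 5277) (nat_lit 298) (.e (nat_lit 1656) (nat_lit 115) (.e (nat_lit 393234) (nat_lit 17) (.e (nat_lit 7591) (nat_lit 407) .nil)))) .nil)))) (.nd (nat_lit 5) (.nd (nat_lit 6) 
(.lf (nat_lit 108699) (.g (nat_lit 4374) (.e (nat_lit 5271) (nat_lit 298) (.e (nat_lit 1239) (nat_lit 91) (.e (nat_lit 90170) (nat_lit 13) (.e (nat_lit 172106) (nat_lit 10) (.e (nat_lit 434231) (nat_lit 23) (.e (nat_lit 532490) (nat_lit 0) (.e (nat_lit 6167) (nat_lit 332) (.e (nat_lit 1009) (nat_lit 81) .nil)))))))) (.g (nat_lit 6) .nil .nil))) 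
(.lf (nat_lit 108763) (.g (nat_lit 1230) (.e (nat_lit 5277) (nat_lit 298) (.e (nat_lit 1633) (nat_lit 114) (.e (nat_lit 385094) (nat_lit 49) (.e (nat_lit 778326) (nat_lit 6) .nil)))) .nil))) (.nd (nat_lit 6) 
(.lf (nat_lit 108731) (.g (nat_lit 1831) (.e (nat_lit 5271) (nat_lit 298) (.e (nat_lit 1400) (nat_lit 106) (.e (nat_lit 319533) (nat_lit 16) (.e (nat_lit 286753) (nat_lit 10) (.e (nat_lit 344157) (nat_lit 36) (.e (nat_lit 638986) (nat_lit 5) (.e (nat_lit 2828) (nat_lit 182) (.e (nat_lit 417536) (nat_lit 0) .nil)))))))) (.g (nat_lit 4) .nil .nil))) 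
(.lf (nat_lit 108795) (.g (nat_lit 1803) (.e (nat_lit 5277) (nat_lit 298) (.e (nat_lit 1656) (nat_lit 115) (.e (nat_lit 393301) (nat_lit 27) (.e (nat_lit 491546) (nat_lit 9) .nil)))) .nil)))))) (.nd (nat_lit 3) (.nd (nat_lit 4) (.nd (nat_lit 5) (.nd (nat_lit 6) 
(.lf (nat_lit 108679) (.g (nat_lit 1433) (.e (nat_lit 5270) (nat_lit 298) (.e (nat_lit 1665) (nat_lit 115) (.e (nat_lit 393301) (nat_lit 27) (.e (nat_lit 491555) (nat_lit 9) (.e (nat_lit 343808) (nat_lit 25) .nil))))) .nil)) 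
(.lf (nat_lit 108743) (.g (nat_lit 1862) (.e (nat_lit 5273) (nat_lit 298) (.e (nat_lit 75) (nat_lit 0) (.e (nat_lit 6986) (nat_lit 377) (.e (nat_lit 1361) (nat_lit 102) (.e (nat_lit 286761) (nat_lit 13) .nil))))) .nil))) (.nd (nat_lit 6) 
(.lf (nat_lit 108711) (.g (nat_lit 1417) (.e (nat_lit 5271) (nat_lit 298) (.e (nat_lit 1256) (nat_lit 92) (.e (nat_lit 98370) (nat_lit 28) (.e (nat_lit 442427) (nat_lit 23) (.e (nat_lit 204821) (nat_lit 17) (.e (nat_lit 6092) (nat_lit 332) (.e (nat_lit 1008) (nat_lit 81) .nil))))))) (.g (nat_lit 4) .nil .nil))) 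
(.lf (nat_lit 108775) (.g (nat_lit 2071) (.e (nat_lit 5277) (nat_lit 298) (.e (nat_lit 1656) (nat_lit 115) (.e (nat_lit 393234) (nat_lit 17) (.e (nat_lit 7587) (nat_lit 406) (.e (nat_lit 65647) (nat_lit 25) .nil))))) .nil)))) (.nd (nat_lit 5) (.nd (nat_lit 6) 
(.lf (nat_lit 108695) (.g (nat_lit 1900) (.e (nat_lit 5271) (nat_lit 298) (.e (nat_lit 1239) (nat_lit 91) (.e (nat_lit 90170) (nat_lit 13) (.e (nat_lit 172106) (nat_lit 10) (.e (nat_lit 434231) (nat_lit 23) (.e (nat_lit 532490) (nat_lit 0) (.e (nat_lit 6149) (nat_lit 332) (.e (nat_lit 982) (nat_lit 81) .nil)))))))) (.g (nat_lit 4) .nil .nil))) 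
(.lf (nat_lit 108759) (.g (nat_lit 2135) (.e (nat_lit 5277) (nat_lit 298) (.e (nat_lit 1397) (nat_lit 106) (.e (nat_lit 319534) (nat_lit 16) (.e (nat_lit 286756) (nat_lit 10) (.e (nat_lit 344157) (nat_lit 36) .nil))))) .nil))) (.nd (nat_lit 6) 
(.lf (nat_lit 108727) (.g (nat_lit 3010) (.e (nat_lit 5271) (nat_lit 298) (.e (nat_lit 1400) (nat_lit 106) (.e (nat_lit 319505) (nat_lit 10) (.e (nat_lit 618) (nat_lit 48) (.e (nat_lit 557109) (nat_lit 15) (.e (nat_lit 188428) (nat_lit 20) (.e (nat_lit 3571) (nat_lit 222) (.e (nat_lit 737284) (nat_lit 0) .nil)))))))) (.g (nat_lit 5) .nil .nil))) 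
(.lf (nat_lit 108791) (.g (nat_lit 1554) (.e (nat_lit 5277) (nat_lit 298) (.e (nat_lit 1656) (nat_lit 115) (.e (nat_lit 393300) (nat_lit 27) (.e (nat_lit 491556) (nat_lit 9) .nil)))) .nil))))) (.nd (nat_lit 4) (.nd (nat_lit 5) (.nd (nat_lit 6) 
(.lf (nat_lit 108687) (.g (nat_lit 1892) (.e (nat_lit 5271) (nat_lit 298) (.e (nat_lit 1239) (nat_lit 91) (.e (nat_lit 90170) (nat_lit 13) (.e (nat_lit 172106) (nat_lit 10) (.e (nat_lit 434231) (nat_lit 23) (.e (nat_lit 532486) (nat_lit 0) (.e (nat_lit 6113) (nat_lit 332) (.e (nat_lit 7936) (nat_lit 81) .nil)))))))) (.g (nat_lit 4) .nil .nil))) 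
(.lf (nat_lit 108751) (.g (nat_lit 1549) (.e (nat_lit 5274) (nat_lit 298) (.e (nat_lit 1656) (nat_lit 115) (.e (nat_lit 393234) (nat_lit 17) (.e (nat_lit 7587) (nat_lit 406) .nil)))) .nil))) (.nd (nat_lit 6) 
(.lf (nat_lit 108719) (.g (nat_lit 1879) (.e (nat_lit 5271) (nat_lit 298) (.e (nat_lit 1256) (nat_lit 92) (.e (nat_lit 98372) (nat_lit 29) (.e (nat_lit 450579) (nat_lit 5) (.e (nat_lit 532484) (nat_lit 0) (.e (nat_lit 6200) (nat_lit 332) (.e (nat_lit 1008) (nat_lit 81) .nil))))))) (.g (nat_lit 5) .nil .nil))) 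
(.lf (nat_lit 108783) (.g (nat_lit 1698) (.e (nat_lit 5277) (nat_lit 298) (.e (nat_lit 1656) (nat_lit 115) (.e (nat_lit 393234) (nat_lit 17) (.e (nat_lit 7593) (nat_lit 407) (.e (nat_lit 73732) (nat_lit 0) .nil))))) .nil)))) (.nd (nat_lit 5) (.nd (nat_lit 6) 
(.lf (nat_lit 108703) (.g (nat_lit 1812) (.e (nat_lit 5271) (nat_lit 298) (.e (nat_lit 1256) (nat_lit 92) (.e (nat_lit 98359) (nat_lit 26) (.e (nat_lit 426211) (nat_lit 9) (.e (nat_lit 426125) (nat_lit 2) (.e (nat_lit 204544) (nat_lit 12) (.e (nat_lit 57713) (nat_lit 176) (.e (nat_lit 1013) (nat_lit 81) .nil)))))))) (.g (nat_lit 4) .nil .nil))) 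
(.lf (nat_lit 108767) (.g (nat_lit 1366) (.e (nat_lit 5277) (nat_lit 298) (.e (nat_lit 1633) (nat_lit 114) (.e (nat_lit 385106) (nat_lit 50) (.e (nat_lit 786467) (nat_lit 27) .nil)))) .nil))) (.nd (nat_lit 6) 
(.lf (nat_lit 108735) (.g (nat_lit 1518) (.e (nat_lit 5272) (nat_lit 298) (.e (nat_lit 1239) (nat_lit 91) (.e (nat_lit 90170) (nat_lit 13) (.e (nat_lit 172095) (nat_lit 9) .nil)))) .nil)) 
(.lf (nat_lit 108799) (.g (nat_lit 2531) (.e (nat_lit 5277) (nat_lit 298) (.e (nat_lit 1656) (nat_lit 115) (.e (nat_lit 393301) (nat_lit 27) (.e (nat_lit 491552) (nat_lit 9) (.e (nat_lit 336253) (nat_lit 15) .nil))))) .nil)))))))))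

noncomputable def tv1472 : DT := (.nd (nat_lit 0) (.nd (nat_lit 1) (.nd (nat_lit 2) (.nd (nat_lit 3) (.nd (nat_lit 4) (.nd (nat_lit 5) (.nd (nat_lit 6) 
(.lf (nat_lit 108800) (.g (nat_lit 2943) (.e (nat_lit 5277) (nat_lit 298) (.e (nat_lit 1656) (nat_lit 115) (.e (nat_lit 393301) (nat_lit 27) (.e (nat_lit 491558) (nat_lit 10) (.e (nat_lit 344090) (nat_lit 18) .nil))))) .nil)) 
(.lf (nat_lit 108864) (.g (nat_lit 1116) (.e (nat_lit 5293) (nat_lit 298) (.e (nat_lit 1250) (nat_lit 92) (.e (nat_lit 98350) (nat_lit 24) (.e (nat_lit 409616) (nat_lit 10) .nil)))) .nil))) (.nd (nat_lit 6) 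
(.lf (nat_lit 108832) (.g (nat_lit 1524) (.e (nat_lit 5291) (nat_lit 298) (.e (nat_lit 1656) (nat_lit 115) (.e (nat_lit 393234) (nat_lit 17) (.e (nat_lit 7587) (nat_lit 406) .nil)))) .nil)) 
(.lf (nat_lit 108896) (.g (nat_lit 870) (.e (nat_lit 5293) (nat_lit 298) (.e (nat_lit 1423) (nat_lit 108) (.e (nat_lit 336432) (nat_lit 30) (.e (nat_lit 450568) (nat_lit 0) (.e (nat_lit 5949) (nat_lit 322) .nil))))) .nil)))) (.nd (nat_lit 5) (.nd (nat_lit 6) 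
(.lf (nat_lit 108816) (.g (nat_lit 1796) (.e (nat_lit 5279) (nat_lit 298) (.e (nat_lit 1232) (nat_lit 91) (.e (nat_lit 90177) (nat_lit 15) (.e (nat_lit 188452) (nat_lit 23) (.e (nat_lit 204849) (nat_lit 25) .nil))))) .nil)) 
(.lf (nat_lit 108880) (.g (nat_lit 1724) (.e (nat_lit 5293) (nat_lit 298) (.e (nat_lit 1250) (nat_lit 92) (.e (nat_lit 98372) (nat_lit 29) (.e (nat_lit 450579) (nat_lit 5) (.e (nat_lit 532489) (nat_lit 0) .nil))))) .nil))) (.nd (nat_lit 6) 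
(.lf (nat_lit 108848) (.g (nat_lit 3901) (.e (nat_lit 5293) (nat_lit 298) (.e (nat_lit 1232) (nat_lit 91) (.e (nat_lit 90170) (nat_lit 13) (.e (nat_lit 172106) (nat_lit 10) (.e (nat_lit 434231) (nat_lit 23) (.e (nat_lit 532526) (nat_lit 8) (.e (nat_lit 335616) (nat_lit 10) .nil))))))) (.g (nat_lit 6) .nil .nil))) 
(.lf (nat_lit 108912) (.g (nat_lit 2164) (.e (nat_lit 5293) (nat_lit 298) (.e (nat_lit 1633) (nat_lit 114) (.e (nat_lit 385094) (nat_lit 49) (.e (nat_lit 778326) (nat_lit 6) (.e (nat_lit 89856) (nat_lit 8) (.e (nat_lit 262175) (nat_lit 14) (.e (nat_lit 2505) (nat_lit 157) .nil))))))) (.g (nat_lit 4) .nil .nil)))))) (.nd (nat_lit 4) (.nd (nat_lit 5) (.nd (nat_lit 6) 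
(.lf (nat_lit 108808) (.g (nat_lit 3240) (.e (nat_lit 5277) (nat_lit 298) (.e (nat_lit 1656) (nat_lit 115) (.e (nat_lit 393301) (nat_lit 27) (.e (nat_lit 491560) (nat_lit 10) (.e (nat_lit 344094) (nat_lit 18) .nil))))) .nil)) 
(.lf (nat_lit 108872) (.g (nat_lit 3708) (.e (nat_lit 5293) (nat_lit 298) (.e (nat_lit 1250) (nat_lit 92) (.e (nat_lit 98350) (nat_lit 24) (.e (nat_lit 409649) (nat_lit 18) (.e (nat_lit 303119) (nat_lit 3) (.e (nat_lit 204819) (nat_lit 17) (.e (nat_lit 6113) (nat_lit 332) (.e (nat_lit 2406) (nat_lit 157) .nil)))))))) (.g (nat_lit 6) .nil .nil)))) (.nd (nat_lit 6) 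
(.lf (nat_lit 108840) (.g (nat_lit 2963) (.e (nat_lit 5293) (nat_lit 298) (.e (nat_lit 1232) (nat_lit 91) (.e (nat_lit 90170) (nat_lit 13) (.e (nat_lit 172106) (nat_lit 10) (.e (nat_lit 434231) (nat_lit 23) (.e (nat_lit 532486) (nat_lit 0) (.e (nat_lit 6113) (nat_lit 332) (.e (nat_lit 1075) (nat_lit 81) .nil)))))))) (.g (nat_lit 5) .nil .nil))) 
(.lf (nat_lit 108904) (.g (nat_lit 3112) (.e (nat_lit 5293) (nat_lit 298) (.e (nat_lit 1633) (nat_lit 114) (.e (nat_lit 385074) (nat_lit 31) (.e (nat_lit 573485) (nat_lit 13) (.e (nat_lit 65619) (nat_lit 10) (.e (nat_lit 344115) (nat_lit 20) (.e (nat_lit 515840) (nat_lit 0) .nil))))))) (.g (nat_lit 6) .nil .nil))))) (.nd (nat_lit 5) (.nd (nat_lit 6) 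
(.lf (nat_lit 108824) (.g (nat_lit 1558) (.e (nat_lit 5284) (nat_lit 298) (.e (nat_lit 1656) (nat_lit 115) (.e (nat_lit 393234) (nat_lit 17) (.e (nat_lit 7587) (nat_lit 406) .nil)))) .nil)) 
(.lf (nat_lit 108888) (.g (nat_lit 2218) (.e (nat_lit 5293) (nat_lit 298) (.e (nat_lit 1250) (nat_lit 92) (.e (nat_lit 98389) (nat_lit 33) (.e (nat_lit 491560) (nat_lit 10) (.e (nat_lit 344120) (nat_lit 21) .nil))))) .nil))) (.nd (nat_lit 6) 
(.lf (nat_lit 108856) (.g (nat_lit 1424) (.e (nat_lit 5293) (nat_lit 298) (.e (nat_lit 1250) (nat_lit 92) (.e (nat_lit 98320) (nat_lit 17) (.e (nat_lit 7593) (nat_lit 407) (.e (nat_lit 73748) (nat_lit 3) .nil))))) .nil)) 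
(.lf (nat_lit 108920) (.g (nat_lit 2056) (.e (nat_lit 5293) (nat_lit 298) (.e (nat_lit 1633) (nat_lit 114) (.e (nat_lit 385106) (nat_lit 50) (.e (nat_lit 786480) (nat_lit 29) (.e (nat_lit 352262) (nat_lit 0) .nil))))) .nil)))))) (.nd (nat_lit 3) (.nd (nat_lit 4) (.nd (nat_lit 5) (.nd (nat_lit 6) 
(.lf (nat_lit 108804) (.g (nat_lit 3407) (.e (nat_lit 5277) (nat_lit 298) (.e (nat_lit 1656) (nat_lit 115) (.e (nat_lit 393301) (nat_lit 27) (.e (nat_lit 491558) (nat_lit 10) (.e (nat_lit 344100) (nat_lit 18) .nil))))) .nil)) 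
(.lf (nat_lit 108868) (.g (nat_lit 3053) (.e (nat_lit 5293) (nat_lit 298) (.e (nat_lit 1250) (nat_lit 92) (.e (nat_lit 98350) (nat_lit 24) (.e (nat_lit 409646) (nat_lit 18) (.e (nat_lit 303119) (nat_lit 3) (.e (nat_lit 204821) (nat_lit 17) (.e (nat_lit 6114) (nat_lit 332) (.e (nat_lit 2507) (nat_lit 157) .nil)))))))) (.g (nat_lit 5) .nil .nil)))) (.nd (nat_lit 6) 
(.lf (nat_lit 108836) (.g (nat_lit 722) (.e (nat_lit 5293) (nat_lit 298) (.e (nat_lit 1017) (nat_lit 81) (.e (nat_lit 2270) (nat_lit 149) (.e (nat_lit 769792) (nat_lit 10) .nil)))) .nil)) 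
(.lf (nat_lit 108900) (.g (nat_lit 1745) (.e (nat_lit 5293) (nat_lit 298) (.e (nat_lit 1544) (nat_lit 109) (.e (nat_lit 344177) (nat_lit 43) (.e (nat_lit 770074) (nat_lit 10) (.e (nat_lit 89856) (nat_lit 9) (.e (nat_lit 409603) (nat_lit 0) .nil)))))) (.g (nat_lit 4) .nil .nil))))) (.nd (nat_lit 5) (.nd (nat_lit 6) 
(.lf (nat_lit 108820) (.g (nat_lit 1551) (.e (nat_lit 5281) (nat_lit 298) (.e (nat_lit 1656) (nat_lit 115) (.e (nat_lit 393234) (nat_lit 17) (.e (nat_lit 7587) (nat_lit 406) .nil)))) .nil)) 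
(.lf (nat_lit 108884) (.g (nat_lit 2339) (.e (nat_lit 5293) (nat_lit 298) (.e (nat_lit 1250) (nat_lit 92) (.e (nat_lit 98373) (nat_lit 29) (.e (nat_lit 450574) (nat_lit 1) (.e (nat_lit 499991) (nat_lit 14) .nil))))) .nil))) (.nd (nat_lit 6) 
(.lf (nat_lit 108852) (.g (nat_lit 964) (.e (nat_lit 5293) (nat_lit 298) (.e (nat_lit 1232) (nat_lit 91) (.e (nat_lit 90178) (nat_lit 15) (.e (nat_lit 188458) (nat_lit 25) .nil)))) .nil)) 
(.lf (nat_lit 108916) (.g (nat_lit 1218) (.e (nat_lit 5293) (nat_lit 298) (.e (nat_lit 1633) (nat_lit 114) (.e (nat_lit 385105) (nat_lit 50) (.e (nat_lit 786483) (nat_lit 30) .nil)))) .nil))))) (.nd (nat_lit 4) (.nd (nat_lit 5) (.nd (nat_lit 6) 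
(.lf (nat_lit 108812) (.g (nat_lit 2187) (.e (nat_lit 5277) (nat_lit 298) (.e (nat_lit 1656) (nat_lit 115) (.e (nat_lit 393301) (nat_lit 27) (.e (nat_lit 491563) (nat_lit 12) (.e (nat_lit 392960) (nat_lit 16) (.e (nat_lit 977) (nat_lit 81) .nil)))))) (.g (nat_lit 4) .nil .nil))) 
(.lf (nat_lit 108876) (.g (nat_lit 3434) (.e (nat_lit 5293) (nat_lit 298) (.e (nat_lit 1250) (nat_lit 92) (.e (nat_lit 98369) (nat_lit 28) (.e (nat_lit 442427) (nat_lit 23) (.e (nat_lit 204846) (nat_lit 24) (.e (nat_lit 319511) (nat_lit 10) .nil)))))) (.g (nat_lit 5) .nil .nil)))) (.nd (nat_lit 6) 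
(.lf (nat_lit 108844) (.g (nat_lit 1892) (.e (nat_lit 5293) (nat_lit 298) (.e (nat_lit 1232) (nat_lit 91) (.e (nat_lit 90170) (nat_lit 13) (.e (nat_lit 172106) (nat_lit 10) (.e (nat_lit 434231) (nat_lit 23) (.e (nat_lit 532490) (nat_lit 0) (.e (nat_lit 6136) (nat_lit 332) (.e (nat_lit 7936) (nat_lit 81) .nil)))))))) (.g (nat_lit 4) .nil .nil))) 
(.lf (nat_lit 108908) (.g (nat_lit 1513) (.e (nat_lit 5293) (nat_lit 298) (.e (nat_lit 1633) (nat_lit 114) (.e (nat_lit 385093) (nat_lit 49) (.e (nat_lit 778548) (nat_lit 14) .nil)))) .nil)))) (.nd (nat_lit 5) (.nd (nat_lit 6) 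
(.lf (nat_lit 108828) (.g (nat_lit 2213) (.e (nat_lit 5286) (nat_lit 298) (.e (nat_lit 1633) (nat_lit 114) (.e (nat_lit 385074) (nat_lit 31) (.e (nat_lit 573485) (nat_lit 13) (.e (nat_lit 65619) (nat_lit 10) .nil))))) .nil)) 
(.lf (nat_lit 108892) (.g (nat_lit 2381) (.e (nat_lit 5293) (nat_lit 298) (.e (nat_lit 1397) (nat_lit 106) (.e (nat_lit 319534) (nat_lit 16) (.e (nat_lit 286756) (nat_lit 10) (.e (nat_lit 344157) (nat_lit 36) (.e (nat_lit 638986) (nat_lit 5) (.e (nat_lit 2825) (nat_lit 182) (.e (nat_lit 409603) (nat_lit 0) .nil)))))))) (.g (nat_lit 4) .nil .nil)))) (.nd (nat_lit 6) 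
(.lf (nat_lit 108860) (.g (nat_lit 3379) (.e (nat_lit 5293) (nat_lit 298) (.e (nat_lit 1250) (nat_lit 92) (.e (nat_lit 98349) (nat_lit 24) (.e (nat_lit 409646) (nat_lit 18) (.e (nat_lit 303119) (nat_lit 3) (.e (nat_lit 204819) (nat_lit 17) (.e (nat_lit 6113) (nat_lit 332) (.e (nat_lit 2406) (nat_lit 157) .nil)))))))) (.g (nat_lit 5) .nil .nil))) 
(.lf (nat_lit 108924) (.g (nat_lit 966) (.e (nat_lit 5293) (nat_lit 298) (.e (nat_lit 1633) (nat_lit 114) (.e (nat_lit 385106) (nat_lit 50) (.e (nat_lit 786483) (nat_lit 30) .nil)))) .nil))))))) (.nd (nat_lit 2) (.nd (nat_lit 3) (.nd (nat_lit 4) (.nd (nat_lit 5) (.nd (nat_lit 6) 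
(.lf (nat_lit 108802) (.g (nat_lit 2830) (.e (nat_lit 5277) (nat_lit 298) (.e (nat_lit 1656) (nat_lit 115) (.e (nat_lit 393301) (nat_lit 27) (.e (nat_lit 491558) (nat_lit 10) (.e (nat_lit 344096) (nat_lit 18) .nil))))) .nil)) 
(.lf (nat_lit 108866) (.g (nat_lit 1793) (.e (nat_lit 5293) (nat_lit 298) (.e (nat_lit 1250) (nat_lit 92) (.e (nat_lit 98350) (nat_lit 24) (.e (nat_lit 409617) (nat_lit 10) (.e (nat_lit 5353) (nat_lit 298) .nil))))) .nil))) (.nd (nat_lit 6) 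
(.lf (nat_lit 108834) (.g (nat_lit 2213) (.e (nat_lit 5292) (nat_lit 298) (.e (nat_lit 1633) (nat_lit 114) (.e (nat_lit 385074) (nat_lit 31) (.e (nat_lit 573485) (nat_lit 13) (.e (nat_lit 65619) (nat_lit 10) .nil))))) .nil)) 
(.lf (nat_lit 108898) (.g (nat_lit 893) (.e (nat_lit 5293) (nat_lit 298) (.e (nat_lit 1454) (nat_lit 108) (.e (nat_lit 335928) (nat_lit 0) (.e (nat_lit 2281) (nat_lit 150) .nil)))) .nil)))) (.nd (nat_lit 5) (.nd (nat_lit 6) 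
(.lf (nat_lit 108818) (.g (nat_lit 1672) (.e (nat_lit 5281) (nat_lit 298) (.e (nat_lit 1633) (nat_lit 114) (.e (nat_lit 385074) (nat_lit 31) (.e (nat_lit 573484) (nat_lit 13) (.e (nat_lit 65610) (nat_lit 10) .nil))))) .nil)) 
(.lf (nat_lit 108882) (.g (nat_lit 3638) (.e (nat_lit 5293) (nat_lit 298) (.e (nat_lit 1250) (nat_lit 92) (.e (nat_lit 98372) (nat_lit 29) (.e (nat_lit 450580) (nat_lit 5) (.e (nat_lit 532523) (nat_lit 7) (.e (nat_lit 319511) (nat_lit 10) .nil)))))) (.g (nat_lit 6) .nil .nil)))) (.nd (nat_lit 6) 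
(.lf (nat_lit 108850) (.g (nat_lit 2122) (.e (nat_lit 5293) (nat_lit 298) (.e (nat_lit 1232) (nat_lit 91) (.e (nat_lit 90176) (nat_lit 15) (.e (nat_lit 188452) (nat_lit 23) (.e (nat_lit 204849) (nat_lit 25) .nil))))) .nil)) 
(.lf (nat_lit 108914) (.g (nat_lit 821) (.e (nat_lit 5293) (nat_lit 298) (.e (nat_lit 1633) (nat_lit 114) (.e (nat_lit 385102) (nat_lit 50) .nil))) .nil))))) (.nd (nat_lit 4) (.nd (nat_lit 5) (.nd (nat_lit 6) 
(.lf (nat_lit 108810) (.g (nat_lit 3171) (.e (nat_lit 5277) (nat_lit 298) (.e (nat_lit 1656) (nat_lit 115) (.e (nat_lit 393301) (nat_lit 27) (.e (nat_lit 491560) (nat_lit 10) (.e (nat_lit 344099) (nat_lit 18) .nil))))) .nil)) 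
(.lf (nat_lit 108874) (.g (nat_lit 2027) (.e (nat_lit 5293) (nat_lit 298) (.e (nat_lit 1250) (nat_lit 92) (.e (nat_lit 98358) (nat_lit 26) (.e (nat_lit 426227) (nat_lit 9) (.e (nat_lit 433920) (nat_lit 3) .nil))))) .nil))) (.nd (nat_lit 6) 
(.lf (nat_lit 108842) (.g (nat_lit 2009) (.e (nat_lit 5293) (nat_lit 298) (.e (nat_lit 1232) (nat_lit 91) (.e (nat_lit 90170) (nat_lit 13) (.e (nat_lit 172106) (nat_lit 10) (.e (nat_lit 434231) (nat_lit 23) (.e (nat_lit 532490) (nat_lit 0) (.e (nat_lit 6114) (nat_lit 332) (.e (nat_lit 978) (nat_lit 81) .nil)))))))) (.g (nat_lit 4) .nil .nil))) 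
(.lf (nat_lit 108906) (.g (nat_lit 741) (.e (nat_lit 5293) (nat_lit 298) (.e (nat_lit 1633) (nat_lit 114) (.e (nat_lit 385093) (nat_lit 49) .nil))) .nil)))) (.nd (nat_lit 5) (.nd (nat_lit 6) 
(.lf (nat_lit 108826) (.g (nat_lit 1926) (.e (nat_lit 5285) (nat_lit 298) (.e (nat_lit 1656) (nat_lit 115) (.e (nat_lit 393234) (nat_lit 17) (.e (nat_lit 7587) (nat_lit 406) (.e (nat_lit 65648) (nat_lit 26) .nil))))) .nil)) 
(.lf (nat_lit 108890) (.g (nat_lit 1501) (.e (nat_lit 5293) (nat_lit 298) (.e (nat_lit 1397) (nat_lit 106) (.e (nat_lit 319533) (nat_lit 16) (.e (nat_lit 286753) (nat_lit 10) (.e (nat_lit 344157) (nat_lit 36) (.e (nat_lit 638986) (nat_lit 5) (.e (nat_lit 2828) (nat_lit 182) (.e (nat_lit 417536) (nat_lit 0) .nil)))))))) (.g (nat_lit 4) .nil .nil)))) (.nd (nat_lit 6) 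
(.lf (nat_lit 108858) (.g (nat_lit 2936) (.e (nat_lit 5293) (nat_lit 298) (.e (nat_lit 1250) (nat_lit 92) (.e (nat_lit 98349) (nat_lit 24) (.e (nat_lit 409644) (nat_lit 18) (.e (nat_lit 303119) (nat_lit 3) (.e (nat_lit 204819) (nat_lit 17) (.e (nat_lit 6113) (nat_lit 332) (.e (nat_lit 2406) (nat_lit 157) .nil)))))))) (.g (nat_lit 5) .nil .nil))) 
(.lf (nat_lit 108922) (.g (nat_lit 1078) (.e (nat_lit 5293) (nat_lit 298) (.e (nat_lit 1633) (nat_lit 114) (.e (nat_lit 385106) (nat_lit 50) (.e (nat_lit 786481) (nat_lit 30) .nil)))) .nil)))))) (.nd (nat_lit 3) (.nd (nat_lit 4) (.nd (nat_lit 5) (.nd (nat_lit 6) 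
(.lf (nat_lit 108806) (.g (nat_lit 4395) (.e (nat_lit 5277) (nat_lit 298) (.e (nat_lit 1656) (nat_lit 115) (.e (nat_lit 393301) (nat_lit 27) (.e (nat_lit 491559) (nat_lit 10) (.e (nat_lit 344097) (nat_lit 18) .nil))))) .nil)) 
(.lf (nat_lit 108870) (.g (nat_lit 3278) (.e (nat_lit 5293) (nat_lit 298) (.e (nat_lit 1250) (nat_lit 92) (.e (nat_lit 98350) (nat_lit 24) (.e (nat_lit 409648) (nat_lit 18) (.e (nat_lit 303118) (nat_lit 3) (.e (nat_lit 204819) (nat_lit 17) (.e (nat_lit 6113) (nat_lit 332) (.e (nat_lit 2406) (nat_lit 157) .nil)))))))) (.g (nat_lit 5) .nil .nil)))) (.nd (nat_lit 6) 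
(.lf (nat_lit 108838) (.g (nat_lit 3631) (.e (nat_lit 5293) (nat_lit 298) (.e (nat_lit 1232) (nat_lit 91) (.e (nat_lit 90170) (nat_lit 13) (.e (nat_lit 172106) (nat_lit 10) (.e (nat_lit 434231) (nat_lit 23) (.e (nat_lit 532483) (nat_lit 0) (.e (nat_lit 6198) (nat_lit 332) (.e (nat_lit 1074) (nat_lit 81) .nil)))))))) (.g (nat_lit 5) .nil .nil))) 
(.lf (nat_lit 108902) (.g (nat_lit 796) (.e (nat_lit 5293) (nat_lit 298) (.e (nat_lit 1633) (nat_lit 114) (.e (nat_lit 385037) (nat_lit 16) .nil))) .nil)))) (.nd (nat_lit 5) (.nd (nat_lit 6) 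
(.lf (nat_lit 108822) (.g (nat_lit 1551) (.e (nat_lit 5283) (nat_lit 298) (.e (nat_lit 1656) (nat_lit 115) (.e (nat_lit 393234) (nat_lit 17) (.e (nat_lit 7587) (nat_lit 406) .nil)))) .nil)) 
(.lf (nat_lit 108886) (.g (nat_lit 2592) (.e (nat_lit 5293) (nat_lit 298) (.e (nat_lit 1250) (nat_lit 92) (.e (nat_lit 98373) (nat_lit 29) (.e (nat_lit 450578) (nat_lit 5) (.e (nat_lit 532523) (nat_lit 7) .nil))))) .nil))) (.nd (nat_lit 6) 
(.lf (nat_lit 108854) (.g (nat_lit 834) (.e (nat_lit 5293) (nat_lit 298) (.e (nat_lit 1246) (nat_lit 92) (.e (nat_lit 98365) (nat_lit 26) (.e (nat_lit 426298) (nat_lit 11) .nil)))) .nil)) 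
(.lf (nat_lit 108918) (.g (nat_lit 1962) (.e (nat_lit 5293) (nat_lit 298) (.e (nat_lit 1633) (nat_lit 114) (.e (nat_lit 385106) (nat_lit 50) (.e (nat_lit 786478) (nat_lit 29) (.e (nat_lit 352262) (nat_lit 0) .nil))))) .nil))))) (.nd (nat_lit 4) (.nd (nat_lit 5) (.nd (nat_lit 6) 
(.lf (nat_lit 108814) (.g (nat_lit 2213) (.e (nat_lit 5278) (nat_lit 298) (.e (nat_lit 1633) (nat_lit 114) (.e (nat_lit 385074) (nat_lit 31) (.e (nat_lit 573485) (nat_lit 13) (.e (nat_lit 65619) (nat_lit 10) .nil))))) .nil)) 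
(.lf (nat_lit 108878) (.g (nat_lit 1799) (.e (nat_lit 5293) (nat_lit 298) (.e (nat_lit 1250) (nat_lit 92) (.e (nat_lit 98372) (nat_lit 29) (.e (nat_lit 450578) (nat_lit 5) (.e (nat_lit 532523) (nat_lit 7) .nil))))) .nil))) (.nd (nat_lit 6) 
(.lf (nat_lit 108846) (.g (nat_lit 3970) (.e (nat_lit 5293) (nat_lit 298) (.e (nat_lit 1232) (nat_lit 91) (.e (nat_lit 90170) (nat_lit 13) (.e (nat_lit 172106) (nat_lit 10) (.e (nat_lit 434231) (nat_lit 23) (.e (nat_lit 532523) (nat_lit 7) (.e (nat_lit 327424) (nat_lit 10) .nil))))))) (.g (nat_lit 6) .nil .nil))) 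
(.lf (nat_lit 108910) (.g (nat_lit 1265) (.e (nat_lit 5293) (nat_lit 298) (.e (nat_lit 1633) (nat_lit 114) (.e (nat_lit 385094) (nat_lit 49) (.e (nat_lit 778326) (nat_lit 6) .nil)))) .nil)))) (.nd (nat_lit 5) (.nd (nat_lit 6) 
(.lf (nat_lit 108830) (.g (nat_lit 1076) (.e (nat_lit 5291) (nat_lit 298) (.e (nat_lit 1550) (nat_lit 109) (.e (nat_lit 344117) (nat_lit 21) (.e (nat_lit 516098) (nat_lit 0) (.e (nat_lit 7593) (nat_lit 407) .nil))))) .nil)) 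
(.lf (nat_lit 108894) (.g (nat_lit 2428) (.e (nat_lit 5293) (nat_lit 298) (.e (nat_lit 1397) (nat_lit 106) (.e (nat_lit 319534) (nat_lit 16) (.e (nat_lit 286756) (nat_lit 10) (.e (nat_lit 344160) (nat_lit 37) (.e (nat_lit 647195) (nat_lit 9) (.e (nat_lit 7936) (nat_lit 30) (.e (nat_lit 409603) (nat_lit 0) .nil)))))))) (.g (nat_lit 4) .nil .nil)))) (.nd (nat_lit 6) 
(.lf (nat_lit 108862) (.g (nat_lit 2566) (.e (nat_lit 5293) (nat_lit 298) (.e (nat_lit 1250) (nat_lit 92) (.e (nat_lit 98349) (nat_lit 24) (.e (nat_lit 409646) (nat_lit 18) (.e (nat_lit 303119) (nat_lit 3) (.e (nat_lit 204821) (nat_lit 17) (.e (nat_lit 6114) (nat_lit 332) (.e (nat_lit 2507) (nat_lit 157) .nil)))))))) (.g (nat_lit 4) .nil .nil))) 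
(.lf (nat_lit 108926) (.g (nat_lit 2453) (.e (nat_lit 5293) (nat_lit 298) (.e (nat_lit 1633) (nat_lit 114) (.e (nat_lit 385106) (nat_lit 50) (.e (nat_lit 786483) (nat_lit 30) (.e (nat_lit 360455) (nat_lit 0) (.e (nat_lit 5813) (nat_lit 320) (.e (nat_lit 11) (nat_lit 0) (.e (nat_lit 2406) (nat_lit 157) .nil)))))))) (.g (nat_lit 4) .nil .nil))))))))) 
(.nd (nat_lit 1) (.nd (nat_lit 2) (.nd (nat_lit 3) (.nd (nat_lit 4) (.nd (nat_lit 5) 
(.nd (nat_lit 6) 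
(.lf (nat_lit 108801) (.g (nat_lit 2782) (.e (nat_lit 5277) (nat_lit 298) (.e (nat_lit 1656) (nat_lit 115) (.e (nat_lit 393301) (nat_lit 27) (.e (nat_lit 491558) (nat_lit 10) (.e (nat_lit 344091) (nat_lit 18) .nil))))) .nil)) 
(.lf (nat_lit 108865) (.g (nat_lit 2271) (.e (nat_lit 5293) (nat_lit 298) (.e (nat_lit 1250) (nat_lit 92) (.e (nat_lit 98350) (nat_lit 24) (.e (nat_lit 409616) (nat_lit 10) (.e (nat_lit 7936) (nat_lit 298) .nil))))) .nil))) (.nd (nat_lit 6) 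
(.lf (nat_lit 108833) (.g (nat_lit 1576) (.e (nat_lit 5291) (nat_lit 298) (.e (nat_lit 1656) (nat_lit 115) (.e (nat_lit 393234) (nat_lit 17) (.e (nat_lit 7589) (nat_lit 406) .nil)))) .nil)) 
(.lf (nat_lit 108897) (.g (nat_lit 767) (.e (nat_lit 5293) (nat_lit 298) (.e (nat_lit 1423) (nat_lit 108) (.e (nat_lit 336433) (nat_lit 30) (.e (nat_lit 450563) (nat_lit 0) (.e (nat_lit 5945) (nat_lit 322) .nil))))) .nil)))) (.nd (nat_lit 5) (.nd (nat_lit 6) 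
(.lf (nat_lit 108817) (.g (nat_lit 788) (.e (nat_lit 5279) (nat_lit 298) (.e (nat_lit 1633) (nat_lit 114) (.e (nat_lit 392960) (nat_lit 24) .nil))) .nil)) 
(.lf (nat_lit 108881) (.g (nat_lit 3360) (.e (nat_lit 5293) (nat_lit 298) (.e (nat_lit 1250) (nat_lit 92) (.e (nat_lit 98372) (nat_lit 29) (.e (nat_lit 450579) (nat_lit 5) (.e (nat_lit 532526) (nat_lit 8) (.e (nat_lit 335616) (nat_lit 10) .nil)))))) (.g (nat_lit 5) .nil .nil)))) (.nd (nat_lit 6) 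
(.lf (nat_lit 108849) (.g (nat_lit 1679) (.e (nat_lit 5293) (nat_lit 298) (.e (nat_lit 1232) (nat_lit 91) (.e (nat_lit 90170) (nat_lit 13) (.e (nat_lit 172115) (nat_lit 10) (.e (nat_lit 434231) (nat_lit 23) .nil))))) .nil)) 
(.lf (nat_lit 108913) (.g (nat_lit 1537) (.e (nat_lit 5293) (nat_lit 298) (.e (nat_lit 1633) (nat_lit 114) (.e (nat_lit 385094) (nat_lit 49) (.e (nat_lit 778327) (nat_lit 6) (.e (nat_lit 81922) (nat_lit 0) .nil))))) .nil))))) (.nd (nat_lit 4) (.nd (nat_lit 5) (.nd (nat_lit 6) 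
(.lf (nat_lit 108809) (.g (nat_lit 3438) (.e (nat_lit 5277) (nat_lit 298) (.e (nat_lit 1656) (nat_lit 115) (.e (nat_lit 393301) (nat_lit 27) (.e (nat_lit 491560) (nat_lit 10) (.e (nat_lit 344096) (nat_lit 18) .nil))))) .nil)) 
(.lf (nat_lit 108873) (.g (nat_lit 3026) (.e (nat_lit 5293) (nat_lit 298) (.e (nat_lit 1250) (nat_lit 92) (.e (nat_lit 98350) (nat_lit 24) (.e (nat_lit 409649) (nat_lit 18) (.e (nat_lit 303119) (nat_lit 3) (.e (nat_lit 204821) (nat_lit 17) (.e (nat_lit 6114) (nat_lit 332) (.e (nat_lit 2406) (nat_lit 157) .nil)))))))) (.g (nat_lit 5) .nil .nil)))) (.nd (nat_lit 6) 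
(.lf (nat_lit 108841) (.g (nat_lit 2328) (.e (nat_lit 5293) (nat_lit 298) (.e (nat_lit 1232) (nat_lit 91) (.e (nat_lit 90170) (nat_lit 13) (.e (nat_lit 172106) (nat_lit 10) (.e (nat_lit 434231) (nat_lit 23) (.e (nat_lit 532486) (nat_lit 0) (.e (nat_lit 6113) (nat_lit 332) (.e (nat_lit 7936) (nat_lit 81) .nil)))))))) (.g (nat_lit 5) .nil .nil))) 
(.lf (nat_lit 108905) (.g (nat_lit 3526) (.e (nat_lit 5293) (nat_lit 298) (.e (nat_lit 1633) (nat_lit 114) (.e (nat_lit 385074) (nat_lit 31) (.e (nat_lit 573493) (nat_lit 15) (.e (nat_lit 81962) (nat_lit 25) .nil))))) .nil)))) (.nd (nat_lit 5) (.nd (nat_lit 6) 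
(.lf (nat_lit 108825) (.g (nat_lit 1602) (.e (nat_lit 5284) (nat_lit 298) (.e (nat_lit 1656) (nat_lit 115) (.e (nat_lit 393234) (nat_lit 17) (.e (nat_lit 7589) (nat_lit 406) .nil)))) .nil)) 
(.lf (nat_lit 108889) (.g (nat_lit 1923) (.e (nat_lit 5293) (nat_lit 298) (.e (nat_lit 1397) (nat_lit 106) (.e (nat_lit 319533) (nat_lit 16) (.e (nat_lit 286753) (nat_lit 10) (.e (nat_lit 344157) (nat_lit 36) (.e (nat_lit 638985) (nat_lit 5) (.e (nat_lit 2828) (nat_lit 182) (.e (nat_lit 417536) (nat_lit 0) .nil)))))))) (.g (nat_lit 4) .nil .nil)))) (.nd (nat_lit 6) 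
(.lf (nat_lit 108857) (.g (nat_lit 3274) (.e (nat_lit 5293) (nat_lit 298) (.e (nat_lit 1250) (nat_lit 92) (.e (nat_lit 98323) (nat_lit 17) (.e (nat_lit 6989) (nat_lit 377) (.e (nat_lit 2810) (nat_lit 180) (.e (nat_lit 303119) (nat_lit 3) (.e (nat_lit 204819) (nat_lit 17) (.e (nat_lit 6113) (nat_lit 332) (.e (nat_lit 2406) (nat_lit 157) .nil))))))))) (.g (nat_lit 6) .nil .nil))) 
(.lf (nat_lit 108921) (.g (nat_lit 2170) (.e (nat_lit 5293) (nat_lit 298) (.e (nat_lit 1633) (nat_lit 114) (.e (nat_lit 385106) (nat_lit 50) (.e (nat_lit 786480) (nat_lit 29) (.e (nat_lit 352265) (nat_lit 0) .nil))))) .nil)))))) (.nd (nat_lit 3) (.nd (nat_lit 4) (.nd (nat_lit 5) (.nd (nat_lit 6) 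
(.lf (nat_lit 108805) (.g (nat_lit 4339) (.e (nat_lit 5277) (nat_lit 298) (.e (nat_lit 1656) (nat_lit 115) (.e (nat_lit 393301) (nat_lit 27) (.e (nat_lit 491559) (nat_lit 10) (.e (nat_lit 344091) (nat_lit 18) .nil))))) .nil)) 
(.lf (nat_lit 108869) (.g (nat_lit 2886) (.e (nat_lit 5293) (nat_lit 298) (.e (nat_lit 1250) (nat_lit 92) (.e (nat_lit 98350) (nat_lit 24) (.e (nat_lit 409647) (nat_lit 18) (.e (nat_lit 303118) (nat_lit 3) (.e (nat_lit 204819) (nat_lit 17) (.e (nat_lit 6113) (nat_lit 332) (.e (nat_lit 2406) (nat_lit 157) .nil)))))))) (.g (nat_lit 5) .nil .nil)))) (.nd (nat_lit 6) 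
(.lf (nat_lit 108837) (.g (nat_lit 2201) (.e (nat_lit 5293) (nat_lit 298) (.e (nat_lit 1176) (nat_lit 87) (.e (nat_lit 57655) (nat_lit 152) (.e (nat_lit 1217) (nat_lit 90) (.e (nat_lit 81925) (nat_lit 11) (.e (nat_lit 426172) (nat_lit 7) (.e (nat_lit 409623) (nat_lit 10) .nil))))))) (.g (nat_lit 0) .nil .nil))) 
(.lf (nat_lit 108901) (.g (nat_lit 796) (.e (nat_lit 5293) (nat_lit 298) (.e (nat_lit 1633) (nat_lit 114) (.e (nat_lit 385033) (nat_lit 16) .nil))) .nil)))) (.nd (nat_lit 5) (.nd (nat_lit 6) 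
(.lf (nat_lit 108821) (.g (nat_lit 1595) (.e (nat_lit 5281) (nat_lit 298) (.e (nat_lit 1656) (nat_lit 115) (.e (nat_lit 393234) (nat_lit 17) (.e (nat_lit 7589) (nat_lit 406) .nil)))) .nil)) 
(.lf (nat_lit 108885) (.g (nat_lit 2909) (.e (nat_lit 5293) (nat_lit 298) (.e (nat_lit 1250) (nat_lit 92) (.e (nat_lit 98373) (nat_lit 29) (.e (nat_lit 450575) (nat_lit 1) (.e (nat_lit 499991) (nat_lit 14) .nil))))) .nil))) (.nd (nat_lit 6) 
(.lf (nat_lit 108853) (.g (nat_lit 1555) (.e (nat_lit 5293) (nat_lit 298) (.e (nat_lit 1232) (nat_lit 91) (.e (nat_lit 90185) (nat_lit 17) (.e (nat_lit 237605) (nat_lit 9) (.e (nat_lit 426130) (nat_lit 3) .nil))))) .nil)) 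
(.lf (nat_lit 108917) (.g (nat_lit 2018) (.e (nat_lit 5293) (nat_lit 298) (.e (nat_lit 1633) (nat_lit 114) (.e (nat_lit 385106) (nat_lit 50) (.e (nat_lit 786478) (nat_lit 29) (.e (nat_lit 352261) (nat_lit 0) .nil))))) .nil))))) (.nd (nat_lit 4) (.nd (nat_lit 5) (.nd (nat_lit 6) 
(.lf (nat_lit 108813) (.g (nat_lit 2208) (.e (nat_lit 5277) (nat_lit 298) (.e (nat_lit 1656) (nat_lit 115) (.e (nat_lit 393301) (nat_lit 27) (.e (nat_lit 491563) (nat_lit 12) (.e (nat_lit 392960) (nat_lit 16) (.e (nat_lit 1070) (nat_lit 81) .nil)))))) (.g (nat_lit 4) .nil .nil))) 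
(.lf (nat_lit 108877) (.g (nat_lit 3127) (.e (nat_lit 5293) (nat_lit 298) (.e (nat_lit 1250) (nat_lit 92) (.e (nat_lit 98370) (nat_lit 28) (.e (nat_lit 442426) (nat_lit 23) (.e (nat_lit 204846) (nat_lit 24) (.e (nat_lit 319511) (nat_lit 10) .nil)))))) (.g (nat_lit 5) .nil .nil)))) (.nd (nat_lit 6) 
(.lf (nat_lit 108845) (.g (nat_lit 3304) (.e (nat_lit 5293) (nat_lit 298) (.e (nat_lit 1232) (nat_lit 91) (.e (nat_lit 90170) (nat_lit 13) (.e (nat_lit 172106) (nat_lit 10) (.e (nat_lit 434231) (nat_lit 23) (.e (nat_lit 532522) (nat_lit 7) (.e (nat_lit 327424) (nat_lit 10) .nil))))))) (.g (nat_lit 6) .nil .nil))) 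
(.lf (nat_lit 108909) (.g (nat_lit 1668) (.e (nat_lit 5293) (nat_lit 298) (.e (nat_lit 1633) (nat_lit 114) (.e (nat_lit 385094) (nat_lit 49) (.e (nat_lit 778321) (nat_lit 4) .nil)))) .nil)))) (.nd (nat_lit 5) (.nd (nat_lit 6) 
(.lf (nat_lit 108829) (.g (nat_lit 1595) (.e (nat_lit 5287) (nat_lit 298) (.e (nat_lit 1656) (nat_lit 115) (.e (nat_lit 393234) (nat_lit 17) (.e (nat_lit 7589) (nat_lit 406) .nil)))) .nil)) 
(.lf (nat_lit 108893) (.g (nat_lit 3333) (.e (nat_lit 5293) (nat_lit 298) (.e (nat_lit 1397) (nat_lit 106) (.e (nat_lit 319534) (nat_lit 16) (.e (nat_lit 286756) (nat_lit 10) (.e (nat_lit 344157) (nat_lit 36) (.e (nat_lit 638986) (nat_lit 5) (.e (nat_lit 2828) (nat_lit 182) (.e (nat_lit 417536) (nat_lit 0) .nil)))))))) (.g (nat_lit 7) .nil .nil)))) (.nd (nat_lit 6) 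
(.lf (nat_lit 108861) (.g (nat_lit 3329) (.e (nat_lit 5293) (nat_lit 298) (.e (nat_lit 1250) (nat_lit 92) (.e (nat_lit 98349) (nat_lit 24) (.e (nat_lit 409646) (nat_lit 18) (.e (nat_lit 303119) (nat_lit 3) (.e (nat_lit 204819) (nat_lit 17) (.e (nat_lit 6113) (nat_lit 332) (.e (nat_lit 2507) (nat_lit 157) .nil)))))))) (.g (nat_lit 5) .nil .nil))) 
(.lf (nat_lit 108925) (.g (nat_lit 2651) (.e (nat_lit 5293) (nat_lit 298) (.e (nat_lit 1633) (nat_lit 114) (.e (nat_lit 385106) (nat_lit 50) (.e (nat_lit 786483) (nat_lit 30) (.e (nat_lit 360451) (nat_lit 0) (.e (nat_lit 5557) (nat_lit 307) (.e (nat_lit 8295) (nat_lit 51) .nil))))))) (.g (nat_lit 5) .nil .nil)))))))) 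
(.nd (nat_lit 2) (.nd (nat_lit 3) (.nd (nat_lit 4) (.nd (nat_lit 5) (.nd (nat_lit 6) 
(.lf (nat_lit 108803) (.g (nat_lit 2835) (.e (nat_lit 5277) (nat_lit 298) (.e (nat_lit 1656) (nat_lit 115) (.e (nat_lit 393301) (nat_lit 27) (.e (nat_lit 491558) (nat_lit 10) (.e (nat_lit 344097) (nat_lit 18) .nil))))) .nil)) 
(.lf (nat_lit 108867) (.g (nat_lit 2923) (.e (nat_lit 5293) (nat_lit 298) (.e (nat_lit 1250) (nat_lit 92) (.e (nat_lit 98350) (nat_lit 24) (.e (nat_lit 409642) (nat_lit 17) (.e (nat_lit 294931) (nat_lit 3) .nil))))) .nil))) (.nd (nat_lit 6) 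
(.lf (nat_lit 108835) (.g (nat_lit 2933) (.e (nat_lit 5293) (nat_lit 298) (.e (nat_lit 59) (nat_lit 0) (.e (nat_lit 6988) (nat_lit 377) (.e (nat_lit 1361) (nat_lit 102) (.e (nat_lit 286761) (nat_lit 13) (.e (nat_lit 393265) (nat_lit 22) (.e (nat_lit 417820) (nat_lit 10) .nil))))))) (.g (nat_lit 0) .nil .nil))) 
(.lf (nat_lit 108899) (.g (nat_lit 1870) (.e (nat_lit 5293) (nat_lit 298) (.e (nat_lit 1531) (nat_lit 109) (.e (nat_lit 344177) (nat_lit 43) (.e (nat_lit 770074) (nat_lit 10) (.e (nat_lit 89856) (nat_lit 9) .nil))))) .nil)))) (.nd (nat_lit 5) (.nd (nat_lit 6) 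
(.lf (nat_lit 108819) (.g (nat_lit 2213) (.e (nat_lit 5281) (nat_lit 298) (.e (nat_lit 1633) (nat_lit 114) (.e (nat_lit 385074) (nat_lit 31) (.e (nat_lit 573485) (nat_lit 13) (.e (nat_lit 65619) (nat_lit 10) .nil))))) .nil)) 
(.lf (nat_lit 108883) (.g (nat_lit 1088) (.e (nat_lit 5293) (nat_lit 298) (.e (nat_lit 1250) (nat_lit 92) (.e (nat_lit 98372) (nat_lit 29) (.e (nat_lit 450586) (nat_lit 10) .nil)))) .nil))) (.nd (nat_lit 6) 
(.lf (nat_lit 108851) (.g (nat_lit 3068) (.e (nat_lit 5293) (nat_lit 298) (.e (nat_lit 1232) (nat_lit 91) (.e (nat_lit 90178) (nat_lit 15) (.e (nat_lit 188449) (nat_lit 22) (.e (nat_lit 196626) (nat_lit 9) .nil))))) .nil)) 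
(.lf (nat_lit 108915) (.g (nat_lit 673) (.e (nat_lit 5293) (nat_lit 298) (.e (nat_lit 1633) (nat_lit 114) (.e (nat_lit 385105) (nat_lit 50) .nil))) .nil))))) (.nd (nat_lit 4) (.nd (nat_lit 5) (.nd (nat_lit 6) 
(.lf (nat_lit 108811) (.g (nat_lit 3130) (.e (nat_lit 5277) (nat_lit 298) (.e (nat_lit 1656) (nat_lit 115) (.e (nat_lit 393301) (nat_lit 27) (.e (nat_lit 491563) (nat_lit 12) (.e (nat_lit 385032) (nat_lit 16) .nil))))) .nil)) 
(.lf (nat_lit 108875) (.g (nat_lit 1928) (.e (nat_lit 5293) (nat_lit 298) (.e (nat_lit 1250) (nat_lit 92) (.e (nat_lit 98358) (nat_lit 26) (.e (nat_lit 426272) (nat_lit 10) (.e (nat_lit 434233) (nat_lit 23) .nil))))) .nil))) (.nd (nat_lit 6) 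
(.lf (nat_lit 108843) (.g (nat_lit 3466) (.e (nat_lit 5293) (nat_lit 298) (.e (nat_lit 1232) (nat_lit 91) (.e (nat_lit 90170) (nat_lit 13) (.e (nat_lit 172106) (nat_lit 10) (.e (nat_lit 434231) (nat_lit 23) (.e (nat_lit 532490) (nat_lit 0) (.e (nat_lit 6114) (nat_lit 332) (.e (nat_lit 7936) (nat_lit 81) .nil)))))))) (.g (nat_lit 6) .nil .nil))) 
(.lf (nat_lit 108907) (.g (nat_lit 1513) (.e (nat_lit 5293) (nat_lit 298) (.e (nat_lit 1633) (nat_lit 114) (.e (nat_lit 385093) (nat_lit 49) (.e (nat_lit 778500) (nat_lit 14) .nil)))) .nil)))) (.nd (nat_lit 5) (.nd (nat_lit 6) 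
(.lf (nat_lit 108827) (.g (nat_lit 1595) (.e (nat_lit 5285) (nat_lit 298) (.e (nat_lit 1656) (nat_lit 115) (.e (nat_lit 393234) (nat_lit 17) (.e (nat_lit 7589) (nat_lit 406) .nil)))) .nil)) 
(.lf (nat_lit 108891) (.g (nat_lit 3613) (.e (nat_lit 5293) (nat_lit 298) (.e (nat_lit 1397) (nat_lit 106) (.e (nat_lit 319534) (nat_lit 16) (.e (nat_lit 286756) (nat_lit 10) (.e (nat_lit 344157) (nat_lit 36) (.e (nat_lit 638985) (nat_lit 5) (.e (nat_lit 2828) (nat_lit 182) (.e (nat_lit 417536) (nat_lit 0) .nil)))))))) (.g (nat_lit 7) .nil .nil)))) (.nd (nat_lit 6) 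
(.lf (nat_lit 108859) (.g (nat_lit 3328) (.e (nat_lit 5293) (nat_lit 298) (.e (nat_lit 1250) (nat_lit 92) (.e (nat_lit 98349) (nat_lit 24) (.e (nat_lit 409645) (nat_lit 18) (.e (nat_lit 303119) (nat_lit 3) (.e (nat_lit 204819) (nat_lit 17) (.e (nat_lit 6113) (nat_lit 332) (.e (nat_lit 2406) (nat_lit 157) .nil)))))))) (.g (nat_lit 5) .nil .nil))) 
(.lf (nat_lit 108923) (.g (nat_lit 1757) (.e (nat_lit 5293) (nat_lit 298) (.e (nat_lit 1633) (nat_lit 114) (.e (nat_lit 385106) (nat_lit 50) (.e (nat_lit 786481) (nat_lit 30) (.e (nat_lit 368384) (nat_lit 17) .nil))))) .nil)))))) (.nd (nat_lit 3) (.nd (nat_lit 4) (.nd (nat_lit 5) (.nd (nat_lit 6) 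
(.lf (nat_lit 108807) (.g (nat_lit 4568) (.e (nat_lit 5277) (nat_lit 298) (.e (nat_lit 1656) (nat_lit 115) (.e (nat_lit 393301) (nat_lit 27) (.e (nat_lit 491559) (nat_lit 10) (.e (nat_lit 344177) (nat_lit 43) .nil))))) .nil)) 
(.lf (nat_lit 108871) (.g (nat_lit 3329) (.e (nat_lit 5293) (nat_lit 298) (.e (nat_lit 1250) (nat_lit 92) (.e (nat_lit 98350) (nat_lit 24) (.e (nat_lit 409649) (nat_lit 18) (.e (nat_lit 303118) (nat_lit 3) (.e (nat_lit 204819) (nat_lit 17) (.e (nat_lit 6113) (nat_lit 332) (.e (nat_lit 2406) (nat_lit 157) .nil)))))))) (.g (nat_lit 5) .nil .nil)))) (.nd (nat_lit 6) 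
(.lf (nat_lit 108839) (.g (nat_lit 2963) (.e (nat_lit 5293) (nat_lit 298) (.e (nat_lit 1232) (nat_lit 91) (.e (nat_lit 90170) (nat_lit 13) (.e (nat_lit 172106) (nat_lit 10) (.e (nat_lit 434231) (nat_lit 23) (.e (nat_lit 532486) (nat_lit 0) (.e (nat_lit 6113) (nat_lit 332) (.e (nat_lit 975) (nat_lit 81) .nil)))))))) (.g (nat_lit 5) .nil .nil))) 
(.lf (nat_lit 108903) (.g (nat_lit 2862) (.e (nat_lit 5293) (nat_lit 298) (.e (nat_lit 1633) (nat_lit 114) (.e (nat_lit 385074) (nat_lit 31) (.e (nat_lit 573484) (nat_lit 13) (.e (nat_lit 65610) (nat_lit 10) (.e (nat_lit 344115) (nat_lit 20) (.e (nat_lit 515840) (nat_lit 0) .nil))))))) (.g (nat_lit 6) .nil .nil))))) (.nd (nat_lit 5) (.nd (nat_lit 6) 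
(.lf (nat_lit 108823) (.g (nat_lit 1595) (.e (nat_lit 5283) (nat_lit 298) (.e (nat_lit 1656) (nat_lit 115) (.e (nat_lit 393234) (nat_lit 17) (.e (nat_lit 7589) (nat_lit 406) .nil)))) .nil)) 
(.lf (nat_lit 108887) (.g (nat_lit 1638) (.e (nat_lit 5293) (nat_lit 298) (.e (nat_lit 1250) (nat_lit 92) (.e (nat_lit 98373) (nat_lit 29) (.e (nat_lit 458496) (nat_lit 5) .nil)))) .nil))) (.nd (nat_lit 6) 
(.lf (nat_lit 108855) (.g (nat_lit 1511) (.e (nat_lit 5293) (nat_lit 298) (.e (nat_lit 1246) (nat_lit 92) (.e (nat_lit 98370) (nat_lit 28) (.e (nat_lit 442426) (nat_lit 23) (.e (nat_lit 204846) (nat_lit 24) .nil))))) .nil)) 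
(.lf (nat_lit 108919) (.g (nat_lit 1249) (.e (nat_lit 5293) (nat_lit 298) (.e (nat_lit 1633) (nat_lit 114) (.e (nat_lit 385106) (nat_lit 50) (.e (nat_lit 786480) (nat_lit 29) .nil)))) .nil))))) (.nd (nat_lit 4) (.nd (nat_lit 5) (.nd (nat_lit 6) 
(.lf (nat_lit 108815) (.g (nat_lit 1121) (.e (nat_lit 5279) (nat_lit 298) (.e (nat_lit 392) (nat_lit 32) (.e (nat_lit 426343) (nat_lit 14) (.e (nat_lit 491568) (nat_lit 13) .nil)))) .nil)) 
(.lf (nat_lit 108879) (.g (nat_lit 921) (.e (nat_lit 5293) (nat_lit 298) (.e (nat_lit 1250) (nat_lit 92) (.e (nat_lit 98372) (nat_lit 29) (.e (nat_lit 450579) (nat_lit 5) .nil)))) .nil))) (.nd (nat_lit 6) 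
(.lf (nat_lit 108847) (.g (nat_lit 3489) (.e (nat_lit 5293) (nat_lit 298) (.e (nat_lit 1232) (nat_lit 91) (.e (nat_lit 90170) (nat_lit 13) (.e (nat_lit 172106) (nat_lit 10) (.e (nat_lit 434231) (nat_lit 23) (.e (nat_lit 532525) (nat_lit 8) (.e (nat_lit 335616) (nat_lit 10) .nil))))))) (.g (nat_lit 5) .nil .nil))) 
(.lf (nat_lit 108911) (.g (nat_lit 1731) (.e (nat_lit 5293) (nat_lit 298) (.e (nat_lit 1633) (nat_lit 114) (.e (nat_lit 385094) (nat_lit 49) (.e (nat_lit 778326) (nat_lit 6) (.e (nat_lit 81924) (nat_lit 0) .nil))))) .nil)))) (.nd (nat_lit 5) (.nd (nat_lit 6) 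
(.lf (nat_lit 108831) (.g (nat_lit 2182) (.e (nat_lit 5291) (nat_lit 298) (.e (nat_lit 1550) (nat_lit 109) (.e (nat_lit 344129) (nat_lit 26) (.e (nat_lit 557087) (nat_lit 11) (.e (nat_lit 24641) (nat_lit 10) .nil))))) .nil)) 
(.lf (nat_lit 108895) (.g (nat_lit 1867) (.e (nat_lit 5293) (nat_lit 298) (.e (nat_lit 1413) (nat_lit 108) (.e (nat_lit 336443) (nat_lit 32) (.e (nat_lit 466972) (nat_lit 21) (.e (nat_lit 164403) (nat_lit 256) .nil))))) .nil))) (.nd (nat_lit 6) 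
(.lf (nat_lit 108863) (.g (nat_lit 197) (.e (nat_lit 5293) (nat_lit 298) (.e (nat_lit 1250) (nat_lit 92) (.e (nat_lit 98350) (nat_lit 24) .nil))) .nil)) 
(.lf (nat_lit 108927) (.g (nat_lit 1726) (.e (nat_lit 5293) (nat_lit 298) (.e (nat_lit 1633) (nat_lit 114) (.e (nat_lit 385106) (nat_lit 50) (.e (nat_lit 786483) (nat_lit 30) (.e (nat_lit 360484) (nat_lit 15) .nil))))) .nil)))))))))

noncomputable def tv1473 : DT := (.nd (nat_lit 0) (.nd (nat_lit 1) (.nd (nat_lit 2) (.nd (nat_lit 3) (.nd (nat_lit 4) (.nd (nat_lit 5) (.nd (nat_lit 6) 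
(.lf (nat_lit 108928) (.g (nat_lit 3547) (.e (nat_lit 5293) (nat_lit 298) (.e (nat_lit 1633) (nat_lit 114) (.e (nat_lit 385106) (nat_lit 50) (.e (nat_lit 786483) (nat_lit 30) (.e (nat_lit 360484) (nat_lit 15) (.e (nat_lit 647203) (nat_lit 14) (.e (nat_lit 1074) (nat_lit 81) .nil))))))) (.g (nat_lit 0) .nil .nil))) 
(.lf (nat_lit 108992) (.g (nat_lit 3598) (.e (nat_lit 5293) (nat_lit 298) (.e (nat_lit 1656) (nat_lit 115) (.e (nat_lit 393298) (nat_lit 27) (.e (nat_lit 491566) (nat_lit 12) (.e (nat_lit 385034) (nat_lit 16) .nil))))) .nil))) (.nd (nat_lit 6) 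
(.lf (nat_lit 108960) (.g (nat_lit 1638) (.e (nat_lit 5293) (nat_lit 298) (.e (nat_lit 1656) (nat_lit 115) (.e (nat_lit 393259) (nat_lit 21) (.e (nat_lit 409648) (nat_lit 18) (.e (nat_lit 311040) (nat_lit 25) .nil))))) .nil)) 
(.lf (nat_lit 109024) (.g (nat_lit 2845) (.e (nat_lit 5293) (nat_lit 298) (.e (nat_lit 1656) (nat_lit 115) (.e (nat_lit 393301) (nat_lit 27) (.e (nat_lit 491546) (nat_lit 9) (.e (nat_lit 336364) (nat_lit 26) (.e (nat_lit 417802) (nat_lit 0) .nil)))))) (.g (nat_lit 4) .nil .nil))))) (.nd (nat_lit 5) (.nd (nat_lit 6) 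
(.lf (nat_lit 108944) (.g (nat_lit 2456) (.e (nat_lit 5293) (nat_lit 298) (.e (nat_lit 1656) (nat_lit 115) (.e (nat_lit 393234) (nat_lit 17) (.e (nat_lit 7587) (nat_lit 406) (.e (nat_lit 65647) (nat_lit 25) (.e (nat_lit 409603) (nat_lit 0) .nil)))))) (.g (nat_lit 4) .nil .nil))) 
(.lf (nat_lit 109008) (.g (nat_lit 1637) (.e (nat_lit 5293) (nat_lit 298) (.e (nat_lit 1656) (nat_lit 115) (.e (nat_lit 393300) (nat_lit 27) (.e (nat_lit 491552) (nat_lit 9) (.e (nat_lit 336358) (nat_lit 25) .nil))))) .nil))) (.nd (nat_lit 6) 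
(.lf (nat_lit 108976) (.g (nat_lit 859) (.e (nat_lit 5293) (nat_lit 298) (.e (nat_lit 1656) (nat_lit 115) (.e (nat_lit 393265) (nat_lit 22) (.e (nat_lit 417827) (nat_lit 17) .nil)))) .nil)) 
(.lf (nat_lit 109040) (.g (nat_lit 3167) (.e (nat_lit 5293) (nat_lit 298) (.e (nat_lit 1656) (nat_lit 115) (.e (nat_lit 393301) (nat_lit 27) (.e (nat_lit 491555) (nat_lit 9) (.e (nat_lit 343808) (nat_lit 25) (.e (nat_lit 409603) (nat_lit 0) .nil)))))) (.g (nat_lit 4) .nil .nil)))))) (.nd (nat_lit 4) (.nd (nat_lit 5) (.nd (nat_lit 6) 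
(.lf (nat_lit 108936) (.g (nat_lit 1712) (.e (nat_lit 5293) (nat_lit 298) (.e (nat_lit 1649) (nat_lit 115) (.e (nat_lit 393301) (nat_lit 27) (.e (nat_lit 491551) (nat_lit 9) (.e (nat_lit 336358) (nat_lit 25) (.e (nat_lit 409603) (nat_lit 0) .nil)))))) (.g (nat_lit 4) .nil .nil))) 
(.lf (nat_lit 109000) (.g (nat_lit 1928) (.e (nat_lit 5293) (nat_lit 298) (.e (nat_lit 1656) (nat_lit 115) (.e (nat_lit 393300) (nat_lit 27) (.e (nat_lit 491547) (nat_lit 9) (.e (nat_lit 336360) (nat_lit 25) .nil))))) .nil))) (.nd (nat_lit 6) 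
(.lf (nat_lit 108968) (.g (nat_lit 359) (.e (nat_lit 5293) (nat_lit 298) (.e (nat_lit 1656) (nat_lit 115) (.e (nat_lit 393265) (nat_lit 22) .nil))) .nil)) 
(.lf (nat_lit 109032) (.g (nat_lit 1213) (.e (nat_lit 5293) (nat_lit 298) (.e (nat_lit 1656) (nat_lit 115) (.e (nat_lit 393301) (nat_lit 27) (.e (nat_lit 491552) (nat_lit 9) .nil)))) .nil)))) (.nd (nat_lit 5) (.nd (nat_lit 6) 
(.lf (nat_lit 108952) (.g (nat_lit 1756) (.e (nat_lit 5293) (nat_lit 298) (.e (nat_lit 1656) (nat_lit 115) (.e (nat_lit 393234) (nat_lit 17) (.e (nat_lit 7591) (nat_lit 407) (.e (nat_lit 73729) (nat_lit 0) .nil))))) .nil)) 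
(.lf (nat_lit 109016) (.g (nat_lit 2152) (.e (nat_lit 5293) (nat_lit 298) (.e (nat_lit 1656) (nat_lit 115) (.e (nat_lit 393300) (nat_lit 27) (.e (nat_lit 491560) (nat_lit 10) (.e (nat_lit 344097) (nat_lit 18) .nil))))) .nil))) (.nd (nat_lit 6) 
(.lf (nat_lit 108984) (.g (nat_lit 512) (.e (nat_lit 5293) (nat_lit 298) (.e (nat_lit 1656) (nat_lit 115) (.e (nat_lit 393297) (nat_lit 27) .nil))) .nil)) 
(.lf (nat_lit 109048) (.g (nat_lit 3582) (.e (nat_lit 5293) (nat_lit 298) (.e (nat_lit 1656) (nat_lit 115) (.e (nat_lit 393301) (nat_lit 27) (.e (nat_lit 491558) (nat_lit 10) (.e (nat_lit 344097) (nat_lit 18) (.e (nat_lit 7253) (nat_lit 383) (.e (nat_lit 8202) (nat_lit 0) .nil))))))) (.g (nat_lit 5) .nil .nil))))))) (.nd (nat_lit 3) (.nd (nat_lit 4) (.nd (nat_lit 5) (.nd (nat_lit 6) 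
(.lf (nat_lit 108932) (.g (nat_lit 1864) (.e (nat_lit 5293) (nat_lit 298) (.e (nat_lit 1633) (nat_lit 114) (.e (nat_lit 385109) (nat_lit 51) (.e (nat_lit 794684) (nat_lit 25) .nil)))) .nil)) 
(.lf (nat_lit 108996) (.g (nat_lit 264) (.e (nat_lit 5293) (nat_lit 298) (.e (nat_lit 1656) (nat_lit 115) (.e (nat_lit 393300) (nat_lit 27) .nil))) .nil))) (.nd (nat_lit 6) 
(.lf (nat_lit 108964) (.g (nat_lit 2501) (.e (nat_lit 5293) (nat_lit 298) (.e (nat_lit 1656) (nat_lit 115) (.e (nat_lit 393260) (nat_lit 21) (.e (nat_lit 409650) (nat_lit 19) (.e (nat_lit 319232) (nat_lit 25) .nil))))) .nil)) 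
(.lf (nat_lit 109028) (.g (nat_lit 1435) (.e (nat_lit 5293) (nat_lit 298) (.e (nat_lit 1656) (nat_lit 115) (.e (nat_lit 393301) (nat_lit 27) (.e (nat_lit 491551) (nat_lit 9) .nil)))) .nil)))) (.nd (nat_lit 5) (.nd (nat_lit 6) 
(.lf (nat_lit 108948) (.g (nat_lit 2395) (.e (nat_lit 5293) (nat_lit 298) (.e (nat_lit 1656) (nat_lit 115) (.e (nat_lit 393234) (nat_lit 17) (.e (nat_lit 7589) (nat_lit 406) (.e (nat_lit 65648) (nat_lit 26) (.e (nat_lit 417802) (nat_lit 0) .nil)))))) (.g (nat_lit 5) .nil .nil))) 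
(.lf (nat_lit 109012) (.g (nat_lit 2208) (.e (nat_lit 5293) (nat_lit 298) (.e (nat_lit 1656) (nat_lit 115) (.e (nat_lit 393300) (nat_lit 27) (.e (nat_lit 491556) (nat_lit 9) (.e (nat_lit 343808) (nat_lit 25) .nil))))) .nil))) (.nd (nat_lit 6) 
(.lf (nat_lit 108980) (.g (nat_lit 500) (.e (nat_lit 5293) (nat_lit 298) (.e (nat_lit 1656) (nat_lit 115) (.e (nat_lit 393282) (nat_lit 24) .nil))) .nil)) 
(.lf (nat_lit 109044) (.g (nat_lit 1458) (.e (nat_lit 5293) (nat_lit 298) (.e (nat_lit 1656) (nat_lit 115) (.e (nat_lit 393301) (nat_lit 27) (.e (nat_lit 499456) (nat_lit 9) .nil)))) .nil))))) (.nd (nat_lit 4) (.nd (nat_lit 5) (.nd (nat_lit 6) 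
(.lf (nat_lit 108940) (.g (nat_lit 809) (.e (nat_lit 5293) (nat_lit 298) (.e (nat_lit 1656) (nat_lit 115) (.e (nat_lit 393233) (nat_lit 17) (.e (nat_lit 7589) (nat_lit 406) .nil)))) .nil)) 
(.lf (nat_lit 109004) (.g (nat_lit 2119) (.e (nat_lit 5293) (nat_lit 298) (.e (nat_lit 1656) (nat_lit 115) (.e (nat_lit 393300) (nat_lit 27) (.e (nat_lit 491549) (nat_lit 9) (.e (nat_lit 336360) (nat_lit 25) (.e (nat_lit 417536) (nat_lit 0) .nil)))))) (.g (nat_lit 5) .nil .nil)))) (.nd (nat_lit 6) 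
(.lf (nat_lit 108972) (.g (nat_lit 2675) (.e (nat_lit 5293) (nat_lit 298) (.e (nat_lit 1656) (nat_lit 115) (.e (nat_lit 393265) (nat_lit 22) (.e (nat_lit 417820) (nat_lit 10) (.e (nat_lit 5612) (nat_lit 312) (.e (nat_lit 214) (nat_lit 19) (.e (nat_lit 319511) (nat_lit 10) .nil))))))) (.g (nat_lit 6) .nil .nil))) 
(.lf (nat_lit 109036) (.g (nat_lit 1884) (.e (nat_lit 5293) (nat_lit 298) (.e (nat_lit 1656) (nat_lit 115) (.e (nat_lit 393301) (nat_lit 27) (.e (nat_lit 491552) (nat_lit 9) (.e (nat_lit 336363) (nat_lit 26) (.e (nat_lit 425728) (nat_lit 0) .nil)))))) (.g (nat_lit 4) .nil .nil))))) (.nd (nat_lit 5) (.nd (nat_lit 6) 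
(.lf (nat_lit 108956) (.g (nat_lit 1610) (.e (nat_lit 5293) (nat_lit 298) (.e (nat_lit 1656) (nat_lit 115) (.e (nat_lit 393234) (nat_lit 17) (.e (nat_lit 7601) (nat_lit 409) .nil)))) .nil)) 
(.lf (nat_lit 109020) (.g (nat_lit 2345) (.e (nat_lit 5293) (nat_lit 298) (.e (nat_lit 1656) (nat_lit 115) (.e (nat_lit 393301) (nat_lit 27) (.e (nat_lit 491546) (nat_lit 9) (.e (nat_lit 336358) (nat_lit 25) .nil))))) .nil))) (.nd (nat_lit 6) 
(.lf (nat_lit 108988) (.g (nat_lit 3133) (.e (nat_lit 5293) (nat_lit 298) (.e (nat_lit 1656) (nat_lit 115) (.e (nat_lit 393297) (nat_lit 27) (.e (nat_lit 491566) (nat_lit 12) (.e (nat_lit 385034) (nat_lit 16) (.e (nat_lit 1078) (nat_lit 81) .nil)))))) (.g (nat_lit 4) .nil .nil))) 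
(.lf (nat_lit 109052) (.g (nat_lit 2717) (.e (nat_lit 5293) (nat_lit 298) (.e (nat_lit 1656) (nat_lit 115) (.e (nat_lit 393301) (nat_lit 27) (.e (nat_lit 491558) (nat_lit 10) (.e (nat_lit 344174) (nat_lit 42) .nil))))) .nil))))))) (.nd (nat_lit 2) (.nd (nat_lit 3) (.nd (nat_lit 4) (.nd (nat_lit 5) (.nd (nat_lit 6) 
(.lf (nat_lit 108930) (.g (nat_lit 796) (.e (nat_lit 5293) (nat_lit 298) (.e (nat_lit 1633) (nat_lit 114) (.e (nat_lit 385108) (nat_lit 51) .nil))) .nil)) 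
(.lf (nat_lit 108994) (.g (nat_lit 1491) (.e (nat_lit 5293) (nat_lit 298) (.e (nat_lit 1656) (nat_lit 115) (.e (nat_lit 393299) (nat_lit 27) (.e (nat_lit 491552) (nat_lit 9) .nil)))) .nil))) (.nd (nat_lit 6) 
(.lf (nat_lit 108962) (.g (nat_lit 1410) (.e (nat_lit 5293) (nat_lit 298) (.e (nat_lit 1656) (nat_lit 115) (.e (nat_lit 393260) (nat_lit 21) (.e (nat_lit 409645) (nat_lit 18) .nil)))) .nil)) 
(.lf (nat_lit 109026) (.g (nat_lit 2763) (.e (nat_lit 5293) (nat_lit 298) (.e (nat_lit 1656) (nat_lit 115) (.e (nat_lit 393301) (nat_lit 27) (.e (nat_lit 491546) (nat_lit 9) (.e (nat_lit 336365) (nat_lit 26) (.e (nat_lit 417802) (nat_lit 0) .nil)))))) (.g (nat_lit 4) .nil .nil))))) (.nd (nat_lit 5) (.nd (nat_lit 6) 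
(.lf (nat_lit 108946) (.g (nat_lit 1981) (.e (nat_lit 5293) (nat_lit 298) (.e (nat_lit 1656) (nat_lit 115) (.e (nat_lit 393234) (nat_lit 17) (.e (nat_lit 7589) (nat_lit 406) (.e (nat_lit 65647) (nat_lit 25) .nil))))) .nil)) 
(.lf (nat_lit 109010) (.g (nat_lit 1175) (.e (nat_lit 5293) (nat_lit 298) (.e (nat_lit 1656) (nat_lit 115) (.e (nat_lit 393300) (nat_lit 27) (.e (nat_lit 491555) (nat_lit 9) .nil)))) .nil))) (.nd (nat_lit 6) 
(.lf (nat_lit 108978) (.g (nat_lit 1948) (.e (nat_lit 5293) (nat_lit 298) (.e (nat_lit 1656) (nat_lit 115) (.e (nat_lit 393271) (nat_lit 23) (.e (nat_lit 426148) (nat_lit 4) .nil)))) .nil)) 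
(.lf (nat_lit 109042) (.g (nat_lit 2418) (.e (nat_lit 5293) (nat_lit 298) (.e (nat_lit 1656) (nat_lit 115) (.e (nat_lit 393301) (nat_lit 27) (.e (nat_lit 491556) (nat_lit 9) (.e (nat_lit 343808) (nat_lit 25) (.e (nat_lit 409604) (nat_lit 0) .nil)))))) (.g (nat_lit 4) .nil .nil)))))) (.nd (nat_lit 4) (.nd (nat_lit 5) (.nd (nat_lit 6) 
(.lf (nat_lit 108938) (.g (nat_lit 2388) (.e (nat_lit 5293) (nat_lit 298) (.e (nat_lit 1649) (nat_lit 115) (.e (nat_lit 393301) (nat_lit 27) (.e (nat_lit 491556) (nat_lit 9) (.e (nat_lit 343808) (nat_lit 25) (.e (nat_lit 409603) (nat_lit 0) .nil)))))) (.g (nat_lit 4) .nil .nil))) 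
(.lf (nat_lit 109002) (.g (nat_lit 3032) (.e (nat_lit 5293) (nat_lit 298) (.e (nat_lit 1656) (nat_lit 115) (.e (nat_lit 393300) (nat_lit 27) (.e (nat_lit 491549) (nat_lit 9) (.e (nat_lit 336306) (nat_lit 15) (.e (nat_lit 6986) (nat_lit 377) (.e (nat_lit 1075) (nat_lit 81) .nil))))))) (.g (nat_lit 4) .nil .nil)))) (.nd (nat_lit 6) 
(.lf (nat_lit 108970) (.g (nat_lit 2610) (.e (nat_lit 5293) (nat_lit 298) (.e (nat_lit 1656) (nat_lit 115) (.e (nat_lit 393265) (nat_lit 22) (.e (nat_lit 417820) (nat_lit 10) (.e (nat_lit 5270) (nat_lit 298) (.e (nat_lit 359) (nat_lit 30) (.e (nat_lit 409604) (nat_lit 0) .nil))))))) (.g (nat_lit 5) .nil .nil))) 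
(.lf (nat_lit 109034) (.g (nat_lit 1846) (.e (nat_lit 5293) (nat_lit 298) (.e (nat_lit 1656) (nat_lit 115) (.e (nat_lit 393301) (nat_lit 27) (.e (nat_lit 491552) (nat_lit 9) (.e (nat_lit 336358) (nat_lit 25) .nil))))) .nil)))) (.nd (nat_lit 5) (.nd (nat_lit 6) 
(.lf (nat_lit 108954) (.g (nat_lit 1152) (.e (nat_lit 5293) (nat_lit 298) (.e (nat_lit 1656) (nat_lit 115) (.e (nat_lit 393234) (nat_lit 17) (.e (nat_lit 7593) (nat_lit 407) .nil)))) .nil)) 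
(.lf (nat_lit 109018) (.g (nat_lit 1501) (.e (nat_lit 5293) (nat_lit 298) (.e (nat_lit 1656) (nat_lit 115) (.e (nat_lit 393301) (nat_lit 27) (.e (nat_lit 491546) (nat_lit 9) .nil)))) .nil))) (.nd (nat_lit 6) 
(.lf (nat_lit 108986) (.g (nat_lit 3329) (.e (nat_lit 5293) (nat_lit 298) (.e (nat_lit 1656) (nat_lit 115) (.e (nat_lit 393297) (nat_lit 27) (.e (nat_lit 491566) (nat_lit 12) (.e (nat_lit 385034) (nat_lit 16) (.e (nat_lit 1074) (nat_lit 81) .nil)))))) (.g (nat_lit 4) .nil .nil))) 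
(.lf (nat_lit 109050) (.g (nat_lit 2993) (.e (nat_lit 5293) (nat_lit 298) (.e (nat_lit 1656) (nat_lit 115) (.e (nat_lit 393301) (nat_lit 27) (.e (nat_lit 491558) (nat_lit 10) (.e (nat_lit 344100) (nat_lit 18) .nil))))) .nil)))))) (.nd (nat_lit 3) (.nd (nat_lit 4) (.nd (nat_lit 5) (.nd (nat_lit 6) 
(.lf (nat_lit 108934) (.g (nat_lit 1951) (.e (nat_lit 5293) (nat_lit 298) (.e (nat_lit 1649) (nat_lit 115) (.e (nat_lit 393301) (nat_lit 27) (.e (nat_lit 491546) (nat_lit 9) (.e (nat_lit 336358) (nat_lit 25) .nil))))) .nil)) 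
(.lf (nat_lit 108998) (.g (nat_lit 1978) (.e (nat_lit 5293) (nat_lit 298) (.e (nat_lit 1656) (nat_lit 115) (.e (nat_lit 393300) (nat_lit 27) (.e (nat_lit 491546) (nat_lit 9) (.e (nat_lit 336364) (nat_lit 26) .nil))))) .nil))) (.nd (nat_lit 6) 
(.lf (nat_lit 108966) (.g (nat_lit 509) (.e (nat_lit 5293) (nat_lit 298) (.e (nat_lit 1656) (nat_lit 115) (.e (nat_lit 393263) (nat_lit 22) .nil))) .nil)) 
(.lf (nat_lit 109030) (.g (nat_lit 2342) (.e (nat_lit 5293) (nat_lit 298) (.e (nat_lit 1656) (nat_lit 115) (.e (nat_lit 393301) (nat_lit 27) (.e (nat_lit 491551) (nat_lit 9) (.e (nat_lit 343808) (nat_lit 25) .nil))))) .nil)))) (.nd (nat_lit 5) (.nd (nat_lit 6) 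
(.lf (nat_lit 108950) (.g (nat_lit 1100) (.e (nat_lit 5293) (nat_lit 298) (.e (nat_lit 1656) (nat_lit 115) (.e (nat_lit 393234) (nat_lit 17) (.e (nat_lit 7936) (nat_lit 406) .nil)))) .nil)) 
(.lf (nat_lit 109014) (.g (nat_lit 1450) (.e (nat_lit 5293) (nat_lit 298) (.e (nat_lit 1656) (nat_lit 115) (.e (nat_lit 393300) (nat_lit 27) (.e (nat_lit 491558) (nat_lit 10) .nil)))) .nil))) (.nd (nat_lit 6) 
(.lf (nat_lit 108982) (.g (nat_lit 1717) (.e (nat_lit 5293) (nat_lit 298) (.e (nat_lit 1656) (nat_lit 115) (.e (nat_lit 393284) (nat_lit 24) (.e (nat_lit 434279) (nat_lit 39) (.e (nat_lit 663555) (nat_lit 0) (.e (nat_lit 1399) (nat_lit 106) (.e (nat_lit 319511) (nat_lit 10) .nil))))))) (.g (nat_lit 4) .nil .nil))) 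
(.lf (nat_lit 109046) (.g (nat_lit 3005) (.e (nat_lit 5293) (nat_lit 298) (.e (nat_lit 1656) (nat_lit 115) (.e (nat_lit 393301) (nat_lit 27) (.e (nat_lit 491558) (nat_lit 10) (.e (nat_lit 344088) (nat_lit 18) .nil))))) .nil))))) (.nd (nat_lit 4) (.nd (nat_lit 5) (.nd (nat_lit 6) 
(.lf (nat_lit 108942) (.g (nat_lit 1536) (.e (nat_lit 5293) (nat_lit 298) (.e (nat_lit 1656) (nat_lit 115) (.e (nat_lit 393234) (nat_lit 17) (.e (nat_lit 7486) (nat_lit 402) .nil)))) .nil)) 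
(.lf (nat_lit 109006) (.g (nat_lit 1565) (.e (nat_lit 5293) (nat_lit 298) (.e (nat_lit 1656) (nat_lit 115) (.e (nat_lit 393300) (nat_lit 27) (.e (nat_lit 491551) (nat_lit 9) (.e (nat_lit 336358) (nat_lit 25) .nil))))) .nil))) (.nd (nat_lit 6) 
(.lf (nat_lit 108974) (.g (nat_lit 2531) (.e (nat_lit 5293) (nat_lit 298) (.e (nat_lit 1656) (nat_lit 115) (.e (nat_lit 393265) (nat_lit 22) (.e (nat_lit 417820) (nat_lit 10) (.e (nat_lit 5629) (nat_lit 312) (.e (nat_lit 216) (nat_lit 19) (.e (nat_lit 319511) (nat_lit 10) .nil))))))) (.g (nat_lit 0) .nil .nil))) 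
(.lf (nat_lit 109038) (.g (nat_lit 2018) (.e (nat_lit 5293) (nat_lit 298) (.e (nat_lit 1656) (nat_lit 115) (.e (nat_lit 393301) (nat_lit 27) (.e (nat_lit 491555) (nat_lit 9) .nil)))) .nil)))) (.nd (nat_lit 5) (.nd (nat_lit 6) 
(.lf (nat_lit 108958) (.g (nat_lit 447) (.e (nat_lit 5293) (nat_lit 298) (.e (nat_lit 1656) (nat_lit 115) (.e (nat_lit 393259) (nat_lit 21) .nil))) .nil)) 
(.lf (nat_lit 109022) (.g (nat_lit 2593) (.e (nat_lit 5293) (nat_lit 298) (.e (nat_lit 1656) (nat_lit 115) (.e (nat_lit 393301) (nat_lit 27) (.e (nat_lit 491546) (nat_lit 9) (.e (nat_lit 336360) (nat_lit 25) .nil))))) .nil))) (.nd (nat_lit 6) 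
(.lf (nat_lit 108990) (.g (nat_lit 1360) (.e (nat_lit 5293) (nat_lit 298) (.e (nat_lit 1656) (nat_lit 115) (.e (nat_lit 393298) (nat_lit 27) (.e (nat_lit 491550) (nat_lit 9) .nil)))) .nil)) 
(.lf (nat_lit 109054) (.g (nat_lit 2002) (.e (nat_lit 5293) (nat_lit 298) (.e (nat_lit 1656) (nat_lit 115) (.e (nat_lit 393301) (nat_lit 27) (.e (nat_lit 491559) (nat_lit 10) .nil)))) .nil)))))))) (.nd (nat_lit 1) (.nd (nat_lit 2) (.nd (nat_lit 3) (.nd (nat_lit 4) (.nd (nat_lit 5) (.nd (nat_lit 6) 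
(.lf (nat_lit 108929) (.g (nat_lit 1600) (.e (nat_lit 5293) (nat_lit 298) (.e (nat_lit 1633) (nat_lit 114) (.e (nat_lit 385106) (nat_lit 50) (.e (nat_lit 786485) (nat_lit 32) .nil)))) .nil)) 
(.lf (nat_lit 108993) (.g (nat_lit 3884) (.e (nat_lit 5293) (nat_lit 298) (.e (nat_lit 1656) (nat_lit 115) (.e (nat_lit 393298) (nat_lit 27) (.e (nat_lit 491566) (nat_lit 12) (.e (nat_lit 385034) (nat_lit 16) (.e (nat_lit 1077) (nat_lit 81) .nil)))))) (.g (nat_lit 4) .nil .nil)))) (.nd (nat_lit 6) 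
(.lf (nat_lit 108961) (.g (nat_lit 3350) (.e (nat_lit 5293) (nat_lit 298) (.e (nat_lit 1656) (nat_lit 115) (.e (nat_lit 393260) (nat_lit 21) (.e (nat_lit 409616) (nat_lit 10) (.e (nat_lit 5630) (nat_lit 312) .nil))))) .nil)) 
(.lf (nat_lit 109025) (.g (nat_lit 2579) (.e (nat_lit 5293) (nat_lit 298) (.e (nat_lit 1656) (nat_lit 115) (.e (nat_lit 393301) (nat_lit 27) (.e (nat_lit 491546) (nat_lit 9) (.e (nat_lit 336365) (nat_lit 26) .nil))))) .nil)))) (.nd (nat_lit 5) (.nd (nat_lit 6) 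
(.lf (nat_lit 108945) (.g (nat_lit 2102) (.e (nat_lit 5293) (nat_lit 298) (.e (nat_lit 1656) (nat_lit 115) (.e (nat_lit 393234) (nat_lit 17) (.e (nat_lit 7587) (nat_lit 406) (.e (nat_lit 65648) (nat_lit 26) (.e (nat_lit 425728) (nat_lit 0) .nil)))))) (.g (nat_lit 5) .nil .nil))) 
(.lf (nat_lit 109009) (.g (nat_lit 1598) (.e (nat_lit 5293) (nat_lit 298) (.e (nat_lit 1656) (nat_lit 115) (.e (nat_lit 393300) (nat_lit 27) (.e (nat_lit 491552) (nat_lit 9) (.e (nat_lit 343808) (nat_lit 25) .nil))))) .nil))) (.nd (nat_lit 6) 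
(.lf (nat_lit 108977) (.g (nat_lit 399) (.e (nat_lit 5293) (nat_lit 298) (.e (nat_lit 1656) (nat_lit 115) (.e (nat_lit 393270) (nat_lit 23) .nil))) .nil)) 
(.lf (nat_lit 109041) (.g (nat_lit 2307) (.e (nat_lit 5293) (nat_lit 298) (.e (nat_lit 1656) (nat_lit 115) (.e (nat_lit 393301) (nat_lit 27) (.e (nat_lit 491556) (nat_lit 9) (.e (nat_lit 343808) (nat_lit 25) .nil))))) .nil))))) (.nd (nat_lit 4) (.nd (nat_lit 5) (.nd (nat_lit 6) 
(.lf (nat_lit 108937) (.g (nat_lit 1827) (.e (nat_lit 5293) (nat_lit 298) (.e (nat_lit 1649) (nat_lit 115) (.e (nat_lit 393301) (nat_lit 27) (.e (nat_lit 491552) (nat_lit 9) (.e (nat_lit 343808) (nat_lit 25) .nil))))) .nil)) 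
(.lf (nat_lit 109001) (.g (nat_lit 1147) (.e (nat_lit 5293) (nat_lit 298) (.e (nat_lit 1656) (nat_lit 115) (.e (nat_lit 393300) (nat_lit 27) (.e (nat_lit 491548) (nat_lit 9) .nil)))) .nil))) (.nd (nat_lit 6) 
(.lf (nat_lit 108969) (.g (nat_lit 728) (.e (nat_lit 5293) (nat_lit 298) (.e (nat_lit 1656) (nat_lit 115) (.e (nat_lit 393265) (nat_lit 22) (.e (nat_lit 417820) (nat_lit 10) .nil)))) .nil)) 
(.lf (nat_lit 109033) (.g (nat_lit 2501) (.e (nat_lit 5293) (nat_lit 298) (.e (nat_lit 1656) (nat_lit 115) (.e (nat_lit 393301) (nat_lit 27) (.e (nat_lit 491552) (nat_lit 9) (.e (nat_lit 336287) (nat_lit 15) .nil))))) .nil)))) (.nd (nat_lit 5) (.nd (nat_lit 6) 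
(.lf (nat_lit 108953) (.g (nat_lit 1771) (.e (nat_lit 5293) (nat_lit 298) (.e (nat_lit 1656) (nat_lit 115) (.e (nat_lit 393234) (nat_lit 17) (.e (nat_lit 7591) (nat_lit 407) (.e (nat_lit 73733) (nat_lit 0) .nil))))) .nil)) 
(.lf (nat_lit 109017) (.g (nat_lit 1453) (.e (nat_lit 5293) (nat_lit 298) (.e (nat_lit 1656) (nat_lit 115) (.e (nat_lit 393300) (nat_lit 27) (.e (nat_lit 491563) (nat_lit 12) .nil)))) .nil))) (.nd (nat_lit 6) 
(.lf (nat_lit 108985) (.g (nat_lit 2645) (.e (nat_lit 5293) (nat_lit 298) (.e (nat_lit 1656) (nat_lit 115) (.e (nat_lit 393297) (nat_lit 27) (.e (nat_lit 491566) (nat_lit 12) (.e (nat_lit 385032) (nat_lit 16) .nil))))) .nil)) 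
(.lf (nat_lit 109049) (.g (nat_lit 3758) (.e (nat_lit 5293) (nat_lit 298) (.e (nat_lit 1656) (nat_lit 115) (.e (nat_lit 393301) (nat_lit 27) (.e (nat_lit 491558) (nat_lit 10) (.e (nat_lit 344097) (nat_lit 18) (.e (nat_lit 7255) (nat_lit 383) (.e (nat_lit 8202) (nat_lit 0) .nil))))))) (.g (nat_lit 5) .nil .nil))))))) (.nd (nat_lit 3) (.nd (nat_lit 4) (.nd (nat_lit 5) (.nd (nat_lit 6) 
(.lf (nat_lit 108933) (.g (nat_lit 2060) (.e (nat_lit 5293) (nat_lit 298) (.e (nat_lit 1649) (nat_lit 115) (.e (nat_lit 393300) (nat_lit 27) (.e (nat_lit 491556) (nat_lit 9) (.e (nat_lit 343808) (nat_lit 25) (.e (nat_lit 409603) (nat_lit 0) .nil)))))) (.g (nat_lit 4) .nil .nil))) 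
(.lf (nat_lit 108997) (.g (nat_lit 2306) (.e (nat_lit 5293) (nat_lit 298) (.e (nat_lit 1656) (nat_lit 115) (.e (nat_lit 393300) (nat_lit 27) (.e (nat_lit 491546) (nat_lit 9) (.e (nat_lit 343808) (nat_lit 25) (.e (nat_lit 409603) (nat_lit 0) .nil)))))) (.g (nat_lit 4) .nil .nil)))) (.nd (nat_lit 6) 
(.lf (nat_lit 108965) (.g (nat_lit 1938) (.e (nat_lit 5293) (nat_lit 298) (.e (nat_lit 1656) (nat_lit 115) (.e (nat_lit 393260) (nat_lit 21) (.e (nat_lit 409651) (nat_lit 19) .nil)))) .nil)) 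
(.lf (nat_lit 109029) (.g (nat_lit 2120) (.e (nat_lit 5293) (nat_lit 298) (.e (nat_lit 1656) (nat_lit 115) (.e (nat_lit 393301) (nat_lit 27) (.e (nat_lit 491551) (nat_lit 9) (.e (nat_lit 336358) (nat_lit 25) .nil))))) .nil)))) (.nd (nat_lit 5) (.nd (nat_lit 6) 
(.lf (nat_lit 108949) (.g (nat_lit 1879) (.e (nat_lit 5293) (nat_lit 298) (.e (nat_lit 1656) (nat_lit 115) (.e (nat_lit 393234) (nat_lit 17) (.e (nat_lit 7589) (nat_lit 406) (.e (nat_lit 65648) (nat_lit 26) (.e (nat_lit 425728) (nat_lit 0) .nil)))))) (.g (nat_lit 4) .nil .nil))) 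
(.lf (nat_lit 109013) (.g (nat_lit 1066) (.e (nat_lit 5293) (nat_lit 298) (.e (nat_lit 1656) (nat_lit 115) (.e (nat_lit 393300) (nat_lit 27) (.e (nat_lit 499456) (nat_lit 9) .nil)))) .nil))) (.nd (nat_lit 6) 
(.lf (nat_lit 108981) (.g (nat_lit 1086) (.e (nat_lit 5293) (nat_lit 298) (.e (nat_lit 1656) (nat_lit 115) (.e (nat_lit 393282) (nat_lit 24) (.e (nat_lit 434215) (nat_lit 18) .nil)))) .nil)) 
(.lf (nat_lit 109045) (.g (nat_lit 1484) (.e (nat_lit 5293) (nat_lit 298) (.e (nat_lit 1656) (nat_lit 115) (.e (nat_lit 393301) (nat_lit 27) (.e (nat_lit 491558) (nat_lit 10) .nil)))) .nil))))) (.nd (nat_lit 4) (.nd (nat_lit 5) (.nd (nat_lit 6) 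
(.lf (nat_lit 108941) (.g (nat_lit 1539) (.e (nat_lit 5293) (nat_lit 298) (.e (nat_lit 1656) (nat_lit 115) (.e (nat_lit 393234) (nat_lit 17) (.e (nat_lit 6949) (nat_lit 377) .nil)))) .nil)) 
(.lf (nat_lit 109005) (.g (nat_lit 2532) (.e (nat_lit 5293) (nat_lit 298) (.e (nat_lit 1656) (nat_lit 115) (.e (nat_lit 393300) (nat_lit 27) (.e (nat_lit 491549) (nat_lit 9) (.e (nat_lit 336362) (nat_lit 26) (.e (nat_lit 417802) (nat_lit 0) .nil)))))) (.g (nat_lit 4) .nil .nil)))) (.nd (nat_lit 6) 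
(.lf (nat_lit 108973) (.g (nat_lit 2443) (.e (nat_lit 5293) (nat_lit 298) (.e (nat_lit 1656) (nat_lit 115) (.e (nat_lit 393265) (nat_lit 22) (.e (nat_lit 417820) (nat_lit 10) (.e (nat_lit 5612) (nat_lit 312) (.e (nat_lit 216) (nat_lit 19) (.e (nat_lit 319511) (nat_lit 10) .nil))))))) (.g (nat_lit 0) .nil .nil))) 
(.lf (nat_lit 109037) (.g (nat_lit 2427) (.e (nat_lit 5293) (nat_lit 298) (.e (nat_lit 1656) (nat_lit 115) (.e (nat_lit 393301) (nat_lit 27) (.e (nat_lit 491553) (nat_lit 9) (.e (nat_lit 343808) (nat_lit 25) .nil))))) .nil)))) (.nd (nat_lit 5) (.nd (nat_lit 6) 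
(.lf (nat_lit 108957) (.g (nat_lit 1790) (.e (nat_lit 5293) (nat_lit 298) (.e (nat_lit 1656) (nat_lit 115) (.e (nat_lit 393234) (nat_lit 17) (.e (nat_lit 7604) (nat_lit 409) (.e (nat_lit 139008) (nat_lit 25) .nil))))) .nil)) 
(.lf (nat_lit 109021) (.g (nat_lit 2650) (.e (nat_lit 5293) (nat_lit 298) (.e (nat_lit 1656) (nat_lit 115) (.e (nat_lit 393301) (nat_lit 27) (.e (nat_lit 491546) (nat_lit 9) (.e (nat_lit 336358) (nat_lit 25) (.e (nat_lit 409604) (nat_lit 0) .nil)))))) (.g (nat_lit 4) .nil .nil)))) (.nd (nat_lit 6) 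
(.lf (nat_lit 108989) (.g (nat_lit 2654) (.e (nat_lit 5293) (nat_lit 298) (.e (nat_lit 1656) (nat_lit 115) (.e (nat_lit 393297) (nat_lit 27) (.e (nat_lit 491566) (nat_lit 12) (.e (nat_lit 385036) (nat_lit 16) .nil))))) .nil)) 
(.lf (nat_lit 109053) (.g (nat_lit 3063) (.e (nat_lit 5293) (nat_lit 298) (.e (nat_lit 1656) (nat_lit 115) (.e (nat_lit 393301) (nat_lit 27) (.e (nat_lit 491558) (nat_lit 10) (.e (nat_lit 344174) (nat_lit 42) (.e (nat_lit 761859) (nat_lit 0) (.e (nat_lit 2505) (nat_lit 157) .nil))))))) (.g (nat_lit 4) .nil .nil)))))))) 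
(.nd (nat_lit 2) (.nd (nat_lit 3) (.nd (nat_lit 4) (.nd (nat_lit 5) (.nd (nat_lit 6) 
(.lf (nat_lit 108931) (.g (nat_lit 2202) (.e (nat_lit 5293) (nat_lit 298) (.e (nat_lit 1633) (nat_lit 114) (.e (nat_lit 385109) (nat_lit 51) (.e (nat_lit 794683) (nat_lit 25) .nil)))) .nil)) 
(.lf (nat_lit 108995) (.g (nat_lit 1306) (.e (nat_lit 5293) (nat_lit 298) (.e (nat_lit 1656) (nat_lit 115) (.e (nat_lit 393299) (nat_lit 27) (.e (nat_lit 491563) (nat_lit 12) .nil)))) .nil))) (.nd (nat_lit 6) 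
(.lf (nat_lit 108963) (.g (nat_lit 2266) (.e (nat_lit 5293) (nat_lit 298) (.e (nat_lit 1656) (nat_lit 115) (.e (nat_lit 393260) (nat_lit 21) (.e (nat_lit 409647) (nat_lit 18) (.e (nat_lit 311040) (nat_lit 25) (.e (nat_lit 319511) (nat_lit 10) .nil)))))) (.g (nat_lit 4) .nil .nil))) 
(.lf (nat_lit 109027) (.g (nat_lit 2289) (.e (nat_lit 5293) (nat_lit 298) (.e (nat_lit 1656) (nat_lit 115) (.e (nat_lit 393301) (nat_lit 27) (.e (nat_lit 491547) (nat_lit 9) (.e (nat_lit 336360) (nat_lit 25) .nil))))) .nil)))) (.nd (nat_lit 5) (.nd (nat_lit 6) 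
(.lf (nat_lit 108947) (.g (nat_lit 2453) (.e (nat_lit 5293) (nat_lit 298) (.e (nat_lit 1656) (nat_lit 115) (.e (nat_lit 393234) (nat_lit 17) (.e (nat_lit 7589) (nat_lit 406) (.e (nat_lit 65647) (nat_lit 25) (.e (nat_lit 409604) (nat_lit 0) .nil)))))) (.g (nat_lit 4) .nil .nil))) 
(.lf (nat_lit 109011) (.g (nat_lit 2198) (.e (nat_lit 5293) (nat_lit 298) (.e (nat_lit 1656) (nat_lit 115) (.e (nat_lit 393300) (nat_lit 27) (.e (nat_lit 491555) (nat_lit 9) (.e (nat_lit 343808) (nat_lit 25) (.e (nat_lit 409604) (nat_lit 0) .nil)))))) (.g (nat_lit 4) .nil .nil)))) (.nd (nat_lit 6) 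
(.lf (nat_lit 108979) (.g (nat_lit 1032) (.e (nat_lit 5293) (nat_lit 298) (.e (nat_lit 1656) (nat_lit 115) (.e (nat_lit 393281) (nat_lit 23) (.e (nat_lit 426098) (nat_lit 1) .nil)))) .nil)) 
(.lf (nat_lit 109043) (.g (nat_lit 2213) (.e (nat_lit 5293) (nat_lit 298) (.e (nat_lit 1656) (nat_lit 115) (.e (nat_lit 393301) (nat_lit 27) (.e (nat_lit 491557) (nat_lit 9) .nil)))) .nil))))) (.nd (nat_lit 4) (.nd (nat_lit 5) (.nd (nat_lit 6) 
(.lf (nat_lit 108939) (.g (nat_lit 399) (.e (nat_lit 5293) (nat_lit 298) (.e (nat_lit 1656) (nat_lit 115) (.e (nat_lit 393233) (nat_lit 17) .nil))) .nil)) 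
(.lf (nat_lit 109003) (.g (nat_lit 1691) (.e (nat_lit 5293) (nat_lit 298) (.e (nat_lit 1656) (nat_lit 115) (.e (nat_lit 393300) (nat_lit 27) (.e (nat_lit 491549) (nat_lit 9) (.e (nat_lit 336360) (nat_lit 25) .nil))))) .nil))) (.nd (nat_lit 6) 
(.lf (nat_lit 108971) (.g (nat_lit 2069) (.e (nat_lit 5293) (nat_lit 298) (.e (nat_lit 1656) (nat_lit 115) (.e (nat_lit 393265) (nat_lit 22) (.e (nat_lit 417820) (nat_lit 10) (.e (nat_lit 5270) (nat_lit 298) (.e (nat_lit 359) (nat_lit 30) (.e (nat_lit 417536) (nat_lit 0) .nil))))))) (.g (nat_lit 5) .nil .nil))) 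
(.lf (nat_lit 109035) (.g (nat_lit 2425) (.e (nat_lit 5293) (nat_lit 298) (.e (nat_lit 1656) (nat_lit 115) (.e (nat_lit 393301) (nat_lit 27) (.e (nat_lit 491552) (nat_lit 9) (.e (nat_lit 336363) (nat_lit 26) (.e (nat_lit 417802) (nat_lit 0) .nil)))))) (.g (nat_lit 4) .nil .nil))))) (.nd (nat_lit 5) (.nd (nat_lit 6) 
(.lf (nat_lit 108955) (.g (nat_lit 1735) (.e (nat_lit 5293) (nat_lit 298) (.e (nat_lit 1656) (nat_lit 115) (.e (nat_lit 393234) (nat_lit 17) (.e (nat_lit 7593) (nat_lit 407) (.e (nat_lit 73732) (nat_lit 0) .nil))))) .nil)) 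
(.lf (nat_lit 109019) (.g (nat_lit 2536) (.e (nat_lit 5293) (nat_lit 298) (.e (nat_lit 1656) (nat_lit 115) (.e (nat_lit 393301) (nat_lit 27) (.e (nat_lit 491546) (nat_lit 9) (.e (nat_lit 336289) (nat_lit 15) .nil))))) .nil))) (.nd (nat_lit 6) 
(.lf (nat_lit 108987) (.g (nat_lit 3755) (.e (nat_lit 5293) (nat_lit 298) (.e (nat_lit 1656) (nat_lit 115) (.e (nat_lit 393297) (nat_lit 27) (.e (nat_lit 491566) (nat_lit 12) (.e (nat_lit 385034) (nat_lit 16) (.e (nat_lit 1077) (nat_lit 81) .nil)))))) (.g (nat_lit 4) .nil .nil))) 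
(.lf (nat_lit 109051) (.g (nat_lit 3546) (.e (nat_lit 5293) (nat_lit 298) (.e (nat_lit 1656) (nat_lit 115) (.e (nat_lit 393301) (nat_lit 27) (.e (nat_lit 491558) (nat_lit 10) (.e (nat_lit 344100) (nat_lit 18) (.e (nat_lit 7255) (nat_lit 383) (.e (nat_lit 8202) (nat_lit 0) .nil))))))) (.g (nat_lit 4) .nil .nil))))))) (.nd (nat_lit 3) (.nd (nat_lit 4) (.nd (nat_lit 5) (.nd (nat_lit 6) 
(.lf (nat_lit 108935) (.g (nat_lit 2342) (.e (nat_lit 5293) (nat_lit 298) (.e (nat_lit 1649) (nat_lit 115) (.e (nat_lit 393301) (nat_lit 27) (.e (nat_lit 491546) (nat_lit 9) (.e (nat_lit 336358) (nat_lit 25) (.e (nat_lit 409602) (nat_lit 0) .nil)))))) (.g (nat_lit 4) .nil .nil))) 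
(.lf (nat_lit 108999) (.g (nat_lit 1972) (.e (nat_lit 5293) (nat_lit 298) (.e (nat_lit 1656) (nat_lit 115) (.e (nat_lit 393300) (nat_lit 27) (.e (nat_lit 491546) (nat_lit 9) (.e (nat_lit 336365) (nat_lit 26) .nil))))) .nil))) (.nd (nat_lit 6) 
(.lf (nat_lit 108967) (.g (nat_lit 466) (.e (nat_lit 5293) (nat_lit 298) (.e (nat_lit 1656) (nat_lit 115) (.e (nat_lit 393264) (nat_lit 22) .nil))) .nil)) 
(.lf (nat_lit 109031) (.g (nat_lit 2568) (.e (nat_lit 5293) (nat_lit 298) (.e (nat_lit 1656) (nat_lit 115) (.e (nat_lit 393301) (nat_lit 27) (.e (nat_lit 491551) (nat_lit 9) (.e (nat_lit 336363) (nat_lit 26) .nil))))) .nil)))) (.nd (nat_lit 5) (.nd (nat_lit 6) 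
(.lf (nat_lit 108951) (.g (nat_lit 1088) (.e (nat_lit 5293) (nat_lit 298) (.e (nat_lit 1656) (nat_lit 115) (.e (nat_lit 393234) (nat_lit 17) (.e (nat_lit 7591) (nat_lit 407) .nil)))) .nil)) 
(.lf (nat_lit 109015) (.g (nat_lit 1196) (.e (nat_lit 5293) (nat_lit 298) (.e (nat_lit 1656) (nat_lit 115) (.e (nat_lit 393300) (nat_lit 27) (.e (nat_lit 491560) (nat_lit 10) .nil)))) .nil))) (.nd (nat_lit 6) 
(.lf (nat_lit 108983) (.g (nat_lit 399) (.e (nat_lit 5293) (nat_lit 298) (.e (nat_lit 1656) (nat_lit 115) (.e (nat_lit 393293) (nat_lit 26) .nil))) .nil)) 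
(.lf (nat_lit 109047) (.g (nat_lit 2420) (.e (nat_lit 5293) (nat_lit 298) (.e (nat_lit 1656) (nat_lit 115) (.e (nat_lit 393301) (nat_lit 27) (.e (nat_lit 491558) (nat_lit 10) (.e (nat_lit 344097) (nat_lit 18) .nil))))) .nil))))) (.nd (nat_lit 4) (.nd (nat_lit 5) (.nd (nat_lit 6) 
(.lf (nat_lit 108943) (.g (nat_lit 1237) (.e (nat_lit 5293) (nat_lit 298) (.e (nat_lit 1656) (nat_lit 115) (.e (nat_lit 393234) (nat_lit 17) (.e (nat_lit 7587) (nat_lit 406) .nil)))) .nil)) 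
(.lf (nat_lit 109007) (.g (nat_lit 1259) (.e (nat_lit 5293) (nat_lit 298) (.e (nat_lit 1656) (nat_lit 115) (.e (nat_lit 393300) (nat_lit 27) (.e (nat_lit 491552) (nat_lit 9) .nil)))) .nil))) (.nd (nat_lit 6) 
(.lf (nat_lit 108975) (.g (nat_lit 2269) (.e (nat_lit 5293) (nat_lit 298) (.e (nat_lit 1656) (nat_lit 115) (.e (nat_lit 393265) (nat_lit 22) (.e (nat_lit 417820) (nat_lit 10) (.e (nat_lit 5664) (nat_lit 312) (.e (nat_lit 7936) (nat_lit 19) (.e (nat_lit 319511) (nat_lit 10) .nil))))))) (.g (nat_lit 5) .nil .nil))) 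
(.lf (nat_lit 109039) (.g (nat_lit 2789) (.e (nat_lit 5293) (nat_lit 298) (.e (nat_lit 1656) (nat_lit 115) (.e (nat_lit 393301) (nat_lit 27) (.e (nat_lit 491555) (nat_lit 9) (.e (nat_lit 336288) (nat_lit 15) .nil))))) .nil)))) (.nd (nat_lit 5) (.nd (nat_lit 6) 
(.lf (nat_lit 108959) (.g (nat_lit 1848) (.e (nat_lit 5293) (nat_lit 298) (.e (nat_lit 1656) (nat_lit 115) (.e (nat_lit 393259) (nat_lit 21) (.e (nat_lit 409646) (nat_lit 18) (.e (nat_lit 311040) (nat_lit 25) .nil))))) .nil)) 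
(.lf (nat_lit 109023) (.g (nat_lit 2317) (.e (nat_lit 5293) (nat_lit 298) (.e (nat_lit 1656) (nat_lit 115) (.e (nat_lit 393301) (nat_lit 27) (.e (nat_lit 491546) (nat_lit 9) (.e (nat_lit 343808) (nat_lit 25) .nil))))) .nil))) (.nd (nat_lit 6) 
(.lf (nat_lit 108991) (.g (nat_lit 1597) (.e (nat_lit 5293) (nat_lit 298) (.e (nat_lit 1656) (nat_lit 115) (.e (nat_lit 393298) (nat_lit 27) (.e (nat_lit 491552) (nat_lit 9) .nil)))) .nil)) 
(.lf (nat_lit 109055) (.g (nat_lit 4115) (.e (nat_lit 5293) (nat_lit 298) (.e (nat_lit 1656) (nat_lit 115) (.e (nat_lit 393301) (nat_lit 27) (.e (nat_lit 491559) (nat_lit 10) (.e (nat_lit 344090) (nat_lit 18) .nil))))) .nil)))))))))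

noncomputable def tv1474 : DT := (.nd (nat_lit 0) (.nd (nat_lit 1) (.nd (nat_lit 2) (.nd (nat_lit 3) (.nd (nat_lit 4) (.nd (nat_lit 5) (.nd (nat_lit 6) 
(.lf (nat_lit 109056) (.g (nat_lit 4104) (.e (nat_lit 5293) (nat_lit 298) (.e (nat_lit 1656) (nat_lit 115) (.e (nat_lit 393301) (nat_lit 27) (.e (nat_lit 491559) (nat_lit 10) (.e (nat_lit 344097) (nat_lit 18) .nil))))) .nil)) 
(.lf (nat_lit 109120) (.g (nat_lit 743) (.e (nat_lit 5310) (nat_lit 298) (.e (nat_lit 502) (nat_lit 40) (.e (nat_lit 491572) (nat_lit 14) (.e (nat_lit 401459) (nat_lit 13) .nil)))) .nil))) (.nd (nat_lit 6) 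
(.lf (nat_lit 109088) (.g (nat_lit 2656) (.e (nat_lit 5293) (nat_lit 298) (.e (nat_lit 1656) (nat_lit 115) (.e (nat_lit 393301) (nat_lit 27) (.e (nat_lit 491563) (nat_lit 12) (.e (nat_lit 392960) (nat_lit 16) (.e (nat_lit 977) (nat_lit 81) .nil)))))) (.g (nat_lit 4) .nil .nil))) 
(.lf (nat_lit 109152) (.g (nat_lit 2963) (.e (nat_lit 5322) (nat_lit 298) (.e (nat_lit 1659) (nat_lit 115) (.e (nat_lit 393301) (nat_lit 27) (.e (nat_lit 491560) (nat_lit 10) (.e (nat_lit 344087) (nat_lit 18) .nil))))) .nil)))) (.nd (nat_lit 5) (.nd (nat_lit 6) 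
(.lf (nat_lit 109072) (.g (nat_lit 4137) (.e (nat_lit 5293) (nat_lit 298) (.e (nat_lit 1656) (nat_lit 115) (.e (nat_lit 393301) (nat_lit 27) (.e (nat_lit 491560) (nat_lit 10) (.e (nat_lit 344097) (nat_lit 18) (.e (nat_lit 7254) (nat_lit 383) (.e (nat_lit 8202) (nat_lit 0) .nil))))))) (.g (nat_lit 5) .nil .nil))) 
(.lf (nat_lit 109136) (.g (nat_lit 2664) (.e (nat_lit 5321) (nat_lit 298) (.e (nat_lit 1659) (nat_lit 115) (.e (nat_lit 393301) (nat_lit 27) (.e (nat_lit 491560) (nat_lit 10) (.e (nat_lit 344094) (nat_lit 18) .nil))))) .nil))) (.nd (nat_lit 6) 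
(.lf (nat_lit 109104) (.g (nat_lit 1922) (.e (nat_lit 5296) (nat_lit 298) (.e (nat_lit 1656) (nat_lit 115) (.e (nat_lit 393234) (nat_lit 17) (.e (nat_lit 7589) (nat_lit 406) (.e (nat_lit 65648) (nat_lit 26) (.e (nat_lit 417800) (nat_lit 0) .nil)))))) (.g (nat_lit 4) .nil .nil))) 
(.lf (nat_lit 109168) (.g (nat_lit 4172) (.e (nat_lit 5323) (nat_lit 298) (.e (nat_lit 1659) (nat_lit 115) (.e (nat_lit 393301) (nat_lit 27) (.e (nat_lit 491560) (nat_lit 10) (.e (nat_lit 344090) (nat_lit 18) (.e (nat_lit 7247) (nat_lit 383) (.e (nat_lit 8194) (nat_lit 0) .nil))))))) (.g (nat_lit 7) .nil .nil)))))) (.nd (nat_lit 4) (.nd (nat_lit 5) (.nd (nat_lit 6) 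
(.lf (nat_lit 109064) (.g (nat_lit 2812) (.e (nat_lit 5293) (nat_lit 298) (.e (nat_lit 1656) (nat_lit 115) (.e (nat_lit 393301) (nat_lit 27) (.e (nat_lit 491560) (nat_lit 10) (.e (nat_lit 344088) (nat_lit 18) .nil))))) .nil)) 
(.lf (nat_lit 109128) (.g (nat_lit 1954) (.e (nat_lit 5321) (nat_lit 298) (.e (nat_lit 1638) (nat_lit 114) (.e (nat_lit 385105) (nat_lit 50) (.e (nat_lit 786478) (nat_lit 29) (.e (nat_lit 352256) (nat_lit 0) .nil))))) .nil))) (.nd (nat_lit 6) 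
(.lf (nat_lit 109096) (.g (nat_lit 1947) (.e (nat_lit 5296) (nat_lit 298) (.e (nat_lit 1250) (nat_lit 92) (.e (nat_lit 98372) (nat_lit 29) (.e (nat_lit 450579) (nat_lit 5) (.e (nat_lit 532488) (nat_lit 0) (.e (nat_lit 7936) (nat_lit 332) (.e (nat_lit 1037) (nat_lit 81) .nil))))))) (.g (nat_lit 4) .nil .nil))) 
(.lf (nat_lit 109160) (.g (nat_lit 2600) (.e (nat_lit 5322) (nat_lit 298) (.e (nat_lit 1661) (nat_lit 115) (.e (nat_lit 393299) (nat_lit 27) (.e (nat_lit 491560) (nat_lit 10) (.e (nat_lit 344091) (nat_lit 18) .nil))))) .nil)))) (.nd (nat_lit 5) (.nd (nat_lit 6) 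
(.lf (nat_lit 109080) (.g (nat_lit 2825) (.e (nat_lit 5293) (nat_lit 298) (.e (nat_lit 1656) (nat_lit 115) (.e (nat_lit 393301) (nat_lit 27) (.e (nat_lit 491563) (nat_lit 12) (.e (nat_lit 385032) (nat_lit 16) .nil))))) .nil)) 
(.lf (nat_lit 109144) (.g (nat_lit 1739) (.e (nat_lit 5321) (nat_lit 298) (.e (nat_lit 1661) (nat_lit 115) (.e (nat_lit 393260) (nat_lit 21) (.e (nat_lit 409649) (nat_lit 18) .nil)))) .nil))) (.nd (nat_lit 6) 
(.lf (nat_lit 109112) (.g (nat_lit 924) (.e (nat_lit 5297) (nat_lit 298) (.e (nat_lit 1413) (nat_lit 108) (.e (nat_lit 336369) (nat_lit 27) (.e (nat_lit 426173) (nat_lit 7) .nil)))) .nil)) 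
(.lf (nat_lit 109176) (.g (nat_lit 2502) (.e (nat_lit 5323) (nat_lit 298) (.e (nat_lit 1661) (nat_lit 115) (.e (nat_lit 393260) (nat_lit 21) (.e (nat_lit 409649) (nat_lit 18) (.e (nat_lit 311040) (nat_lit 25) .nil))))) .nil)))))) (.nd (nat_lit 3) (.nd (nat_lit 4) (.nd (nat_lit 5) (.nd (nat_lit 6) 
(.lf (nat_lit 109060) (.g (nat_lit 4420) (.e (nat_lit 5293) (nat_lit 298) (.e (nat_lit 1656) (nat_lit 115) (.e (nat_lit 393301) (nat_lit 27) (.e (nat_lit 491559) (nat_lit 10) (.e (nat_lit 344177) (nat_lit 43) (.e (nat_lit 770049) (nat_lit 0) (.e (nat_lit 2505) (nat_lit 157) .nil))))))) (.g (nat_lit 4) .nil .nil))) 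
(.lf (nat_lit 109124) (.g (nat_lit 2012) (.e (nat_lit 5320) (nat_lit 298) (.e (nat_lit 1661) (nat_lit 115) (.e (nat_lit 393260) (nat_lit 21) (.e (nat_lit 409649) (nat_lit 18) .nil)))) .nil))) (.nd (nat_lit 6) 
(.lf (nat_lit 109092) (.g (nat_lit 1867) (.e (nat_lit 5294) (nat_lit 298) (.e (nat_lit 1656) (nat_lit 115) (.e (nat_lit 393234) (nat_lit 17) (.e (nat_lit 7587) (nat_lit 406) (.e (nat_lit 65648) (nat_lit 26) .nil))))) .nil)) 
(.lf (nat_lit 109156) (.g (nat_lit 2623) (.e (nat_lit 5322) (nat_lit 298) (.e (nat_lit 1661) (nat_lit 115) (.e (nat_lit 393260) (nat_lit 21) (.e (nat_lit 409616) (nat_lit 10) .nil)))) .nil)))) (.nd (nat_lit 5) (.nd (nat_lit 6) 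
(.lf (nat_lit 109076) (.g (nat_lit 2838) (.e (nat_lit 5293) (nat_lit 298) (.e (nat_lit 1656) (nat_lit 115) (.e (nat_lit 393301) (nat_lit 27) (.e (nat_lit 491560) (nat_lit 10) (.e (nat_lit 344173) (nat_lit 42) .nil))))) .nil)) 
(.lf (nat_lit 109140) (.g (nat_lit 2646) (.e (nat_lit 5321) (nat_lit 298) (.e (nat_lit 1659) (nat_lit 115) (.e (nat_lit 393301) (nat_lit 27) (.e (nat_lit 491560) (nat_lit 10) (.e (nat_lit 344173) (nat_lit 42) .nil))))) .nil))) (.nd (nat_lit 6) 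
(.lf (nat_lit 109108) (.g (nat_lit 634) (.e (nat_lit 5296) (nat_lit 298) (.e (nat_lit 1656) (nat_lit 115) (.e (nat_lit 393297) (nat_lit 27) .nil))) .nil)) 
(.lf (nat_lit 109172) (.g (nat_lit 2059) (.e (nat_lit 5323) (nat_lit 298) (.e (nat_lit 1661) (nat_lit 115) (.e (nat_lit 393260) (nat_lit 21) (.e (nat_lit 409643) (nat_lit 18) .nil)))) .nil))))) (.nd (nat_lit 4) (.nd (nat_lit 5) (.nd (nat_lit 6) 
(.lf (nat_lit 109068) (.g (nat_lit 3696) (.e (nat_lit 5293) (nat_lit 298) (.e (nat_lit 1656) (nat_lit 115) (.e (nat_lit 393301) (nat_lit 27) (.e (nat_lit 491560) (nat_lit 10) (.e (nat_lit 344090) (nat_lit 18) (.e (nat_lit 7247) (nat_lit 383) (.e (nat_lit 16128) (nat_lit 0) .nil))))))) (.g (nat_lit 5) .nil .nil))) 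
(.lf (nat_lit 109132) (.g (nat_lit 2012) (.e (nat_lit 5321) (nat_lit 298) (.e (nat_lit 1659) (nat_lit 115) (.e (nat_lit 393301) (nat_lit 27) (.e (nat_lit 491558) (nat_lit 10) (.e (nat_lit 344097) (nat_lit 18) .nil))))) .nil))) (.nd (nat_lit 6) 
(.lf (nat_lit 109100) (.g (nat_lit 2007) (.e (nat_lit 5296) (nat_lit 298) (.e (nat_lit 1633) (nat_lit 114) (.e (nat_lit 385106) (nat_lit 50) (.e (nat_lit 786483) (nat_lit 30) (.e (nat_lit 360484) (nat_lit 15) (.e (nat_lit 647203) (nat_lit 14) (.e (nat_lit 1043) (nat_lit 81) .nil))))))) (.g (nat_lit 4) .nil .nil))) 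
(.lf (nat_lit 109164) (.g (nat_lit 2439) (.e (nat_lit 5323) (nat_lit 298) (.e (nat_lit 1659) (nat_lit 115) (.e (nat_lit 393301) (nat_lit 27) (.e (nat_lit 491558) (nat_lit 10) (.e (nat_lit 344093) (nat_lit 18) .nil))))) .nil)))) (.nd (nat_lit 5) (.nd (nat_lit 6) 
(.lf (nat_lit 109084) (.g (nat_lit 2991) (.e (nat_lit 5293) (nat_lit 298) (.e (nat_lit 1656) (nat_lit 115) (.e (nat_lit 393301) (nat_lit 27) (.e (nat_lit 491563) (nat_lit 12) (.e (nat_lit 385034) (nat_lit 16) (.e (nat_lit 1074) (nat_lit 81) .nil)))))) (.g (nat_lit 4) .nil .nil))) 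
(.lf (nat_lit 109148) (.g (nat_lit 2043) (.e (nat_lit 5322) (nat_lit 298) (.e (nat_lit 1659) (nat_lit 115) (.e (nat_lit 393301) (nat_lit 27) (.e (nat_lit 491558) (nat_lit 10) (.e (nat_lit 344090) (nat_lit 18) .nil))))) .nil))) (.nd (nat_lit 6) 
(.lf (nat_lit 109116) (.g (nat_lit 2244) (.e (nat_lit 5299) (nat_lit 298) (.e (nat_lit 1633) (nat_lit 114) (.e (nat_lit 385106) (nat_lit 50) (.e (nat_lit 786483) (nat_lit 30) (.e (nat_lit 360484) (nat_lit 15) .nil))))) .nil)) 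
(.lf (nat_lit 109180) (.g (nat_lit 3022) (.e (nat_lit 5324) (nat_lit 298) (.e (nat_lit 1659) (nat_lit 115) (.e (nat_lit 393301) (nat_lit 27) (.e (nat_lit 491560) (nat_lit 10) (.e (nat_lit 344099) (nat_lit 18) (.e (nat_lit 7254) (nat_lit 383) (.e (nat_lit 8198) (nat_lit 0) .nil))))))) (.g (nat_lit 4) .nil .nil)))))))) 
(.nd (nat_lit 2) (.nd (nat_lit 3) (.nd (nat_lit 4) (.nd (nat_lit 5) (.nd (nat_lit 6) 
(.lf (nat_lit 109058) (.g (nat_lit 4087) (.e (nat_lit 5293) (nat_lit 298) (.e (nat_lit 1656) (nat_lit 115) (.e (nat_lit 393301) (nat_lit 27) (.e (nat_lit 491559) (nat_lit 10) (.e (nat_lit 344101) (nat_lit 18) .nil))))) .nil)) 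
(.lf (nat_lit 109122) (.g (nat_lit 2771) (.e (nat_lit 5320) (nat_lit 298) (.e (nat_lit 1661) (nat_lit 115) (.e (nat_lit 393260) (nat_lit 21) (.e (nat_lit 409648) (nat_lit 18) (.e (nat_lit 303147) (nat_lit 15) .nil))))) .nil))) (.nd (nat_lit 6) 
(.lf (nat_lit 109090) (.g (nat_lit 2007) (.e (nat_lit 5293) (nat_lit 298) (.e (nat_lit 1656) (nat_lit 115) (.e (nat_lit 393301) (nat_lit 27) (.e (nat_lit 491572) (nat_lit 14) .nil)))) .nil)) 
(.lf (nat_lit 109154) (.g (nat_lit 2689) (.e (nat_lit 5322) (nat_lit 298) (.e (nat_lit 1659) (nat_lit 115) (.e (nat_lit 393301) (nat_lit 27) (.e (nat_lit 491560) (nat_lit 10) (.e (nat_lit 344094) (nat_lit 18) .nil))))) .nil)))) (.nd (nat_lit 5) (.nd (nat_lit 6) 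
(.lf (nat_lit 109074) (.g (nat_lit 2760) (.e (nat_lit 5293) (nat_lit 298) (.e (nat_lit 1656) (nat_lit 115) (.e (nat_lit 393301) (nat_lit 27) (.e (nat_lit 491560) (nat_lit 10) (.e (nat_lit 344099) (nat_lit 18) (.e (nat_lit 7253) (nat_lit 383) (.e (nat_lit 8202) (nat_lit 0) .nil))))))) (.g (nat_lit 4) .nil .nil))) 
(.lf (nat_lit 109138) (.g (nat_lit 2700) (.e (nat_lit 5321) (nat_lit 298) (.e (nat_lit 1659) (nat_lit 115) (.e (nat_lit 393301) (nat_lit 27) (.e (nat_lit 491560) (nat_lit 10) (.e (nat_lit 344099) (nat_lit 18) .nil))))) .nil))) (.nd (nat_lit 6) 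
(.lf (nat_lit 109106) (.g (nat_lit 2230) (.e (nat_lit 5296) (nat_lit 298) (.e (nat_lit 1656) (nat_lit 115) (.e (nat_lit 393291) (nat_lit 26) (.e (nat_lit 475219) (nat_lit 44) (.e (nat_lit 737296) (nat_lit 5) (.e (nat_lit 270363) (nat_lit 10) .nil)))))) (.g (nat_lit 4) .nil .nil))) 
(.lf (nat_lit 109170) (.g (nat_lit 2630) (.e (nat_lit 5323) (nat_lit 298) (.e (nat_lit 1659) (nat_lit 115) (.e (nat_lit 393301) (nat_lit 27) (.e (nat_lit 491560) (nat_lit 10) (.e (nat_lit 344094) (nat_lit 18) .nil))))) .nil))))) (.nd (nat_lit 4) (.nd (nat_lit 5) (.nd (nat_lit 6) 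
(.lf (nat_lit 109066) (.g (nat_lit 2825) (.e (nat_lit 5293) (nat_lit 298) (.e (nat_lit 1656) (nat_lit 115) (.e (nat_lit 393301) (nat_lit 27) (.e (nat_lit 491560) (nat_lit 10) (.e (nat_lit 344089) (nat_lit 18) .nil))))) .nil)) 
(.lf (nat_lit 109130) (.g (nat_lit 2070) (.e (nat_lit 5321) (nat_lit 298) (.e (nat_lit 1659) (nat_lit 115) (.e (nat_lit 393301) (nat_lit 27) (.e (nat_lit 491558) (nat_lit 10) (.e (nat_lit 344090) (nat_lit 18) .nil))))) .nil))) (.nd (nat_lit 6) 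
(.lf (nat_lit 109098) (.g (nat_lit 1839) (.e (nat_lit 5296) (nat_lit 298) (.e (nat_lit 1633) (nat_lit 114) (.e (nat_lit 385106) (nat_lit 50) (.e (nat_lit 786483) (nat_lit 30) (.e (nat_lit 360484) (nat_lit 15) .nil))))) .nil)) 
(.lf (nat_lit 109162) (.g (nat_lit 1850) (.e (nat_lit 5323) (nat_lit 298) (.e (nat_lit 1638) (nat_lit 114) (.e (nat_lit 385104) (nat_lit 50) (.e (nat_lit 786480) (nat_lit 29) (.e (nat_lit 352256) (nat_lit 0) .nil))))) .nil)))) (.nd (nat_lit 5) (.nd (nat_lit 6) 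
(.lf (nat_lit 109082) (.g (nat_lit 2887) (.e (nat_lit 5293) (nat_lit 298) (.e (nat_lit 1656) (nat_lit 115) (.e (nat_lit 393301) (nat_lit 27) (.e (nat_lit 491563) (nat_lit 12) (.e (nat_lit 385032) (nat_lit 16) (.e (nat_lit 1076) (nat_lit 81) .nil)))))) (.g (nat_lit 4) .nil .nil))) 
(.lf (nat_lit 109146) (.g (nat_lit 3093) (.e (nat_lit 5322) (nat_lit 298) (.e (nat_lit 1235) (nat_lit 91) (.e (nat_lit 90170) (nat_lit 13) (.e (nat_lit 172106) (nat_lit 10) (.e (nat_lit 434231) (nat_lit 23) (.e (nat_lit 532490) (nat_lit 0) (.e (nat_lit 6114) (nat_lit 332) (.e (nat_lit 973) (nat_lit 81) .nil)))))))) (.g (nat_lit 5) .nil .nil)))) (.nd (nat_lit 6) 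
(.lf (nat_lit 109114) (.g (nat_lit 1597) (.e (nat_lit 5298) (nat_lit 298) (.e (nat_lit 1225) (nat_lit 91) (.e (nat_lit 90176) (nat_lit 15) (.e (nat_lit 188450) (nat_lit 23) (.e (nat_lit 204846) (nat_lit 24) .nil))))) .nil)) 
(.lf (nat_lit 109178) (.g (nat_lit 4288) (.e (nat_lit 5324) (nat_lit 298) (.e (nat_lit 1659) (nat_lit 115) (.e (nat_lit 393301) (nat_lit 27) (.e (nat_lit 491560) (nat_lit 10) (.e (nat_lit 344097) (nat_lit 18) (.e (nat_lit 7254) (nat_lit 383) (.e (nat_lit 8198) (nat_lit 0) .nil))))))) (.g (nat_lit 7) .nil .nil))))))) (.nd (nat_lit 3) (.nd (nat_lit 4) (.nd (nat_lit 5) (.nd (nat_lit 6) 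
(.lf (nat_lit 109062) (.g (nat_lit 1153) (.e (nat_lit 5293) (nat_lit 298) (.e (nat_lit 1656) (nat_lit 115) (.e (nat_lit 393301) (nat_lit 27) (.e (nat_lit 491560) (nat_lit 10) .nil)))) .nil)) 
(.lf (nat_lit 109126) (.g (nat_lit 3143) (.e (nat_lit 5321) (nat_lit 298) (.e (nat_lit 1235) (nat_lit 91) (.e (nat_lit 90170) (nat_lit 13) (.e (nat_lit 172106) (nat_lit 10) (.e (nat_lit 434231) (nat_lit 23) (.e (nat_lit 532490) (nat_lit 0) (.e (nat_lit 6114) (nat_lit 332) (.e (nat_lit 972) (nat_lit 81) .nil)))))))) (.g (nat_lit 5) .nil .nil)))) (.nd (nat_lit 6) 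
(.lf (nat_lit 109094) (.g (nat_lit 2244) (.e (nat_lit 5295) (nat_lit 298) (.e (nat_lit 1633) (nat_lit 114) (.e (nat_lit 385106) (nat_lit 50) (.e (nat_lit 786483) (nat_lit 30) (.e (nat_lit 360484) (nat_lit 15) .nil))))) .nil)) 
(.lf (nat_lit 109158) (.g (nat_lit 1991) (.e (nat_lit 5322) (nat_lit 298) (.e (nat_lit 1661) (nat_lit 115) (.e (nat_lit 393260) (nat_lit 21) (.e (nat_lit 409648) (nat_lit 18) .nil)))) .nil)))) (.nd (nat_lit 5) (.nd (nat_lit 6) 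
(.lf (nat_lit 109078) (.g (nat_lit 2809) (.e (nat_lit 5293) (nat_lit 298) (.e (nat_lit 1656) (nat_lit 115) (.e (nat_lit 393301) (nat_lit 27) (.e (nat_lit 491560) (nat_lit 10) (.e (nat_lit 344174) (nat_lit 42) (.e (nat_lit 761859) (nat_lit 0) (.e (nat_lit 2505) (nat_lit 157) .nil))))))) (.g (nat_lit 4) .nil .nil))) 
(.lf (nat_lit 109142) (.g (nat_lit 2083) (.e (nat_lit 5321) (nat_lit 298) (.e (nat_lit 1661) (nat_lit 115) (.e (nat_lit 393260) (nat_lit 21) (.e (nat_lit 409643) (nat_lit 18) .nil)))) .nil))) (.nd (nat_lit 6) 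
(.lf (nat_lit 109110) (.g (nat_lit 2173) (.e (nat_lit 5296) (nat_lit 298) (.e (nat_lit 1656) (nat_lit 115) (.e (nat_lit 393301) (nat_lit 27) (.e (nat_lit 491552) (nat_lit 9) .nil)))) .nil)) 
(.lf (nat_lit 109174) (.g (nat_lit 2836) (.e (nat_lit 5323) (nat_lit 298) (.e (nat_lit 1661) (nat_lit 115) (.e (nat_lit 393260) (nat_lit 21) (.e (nat_lit 409648) (nat_lit 18) (.e (nat_lit 311040) (nat_lit 25) .nil))))) .nil))))) (.nd (nat_lit 4) (.nd (nat_lit 5) (.nd (nat_lit 6) 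
(.lf (nat_lit 109070) (.g (nat_lit 2390) (.e (nat_lit 5293) (nat_lit 298) (.e (nat_lit 1656) (nat_lit 115) (.e (nat_lit 393301) (nat_lit 27) (.e (nat_lit 491560) (nat_lit 10) (.e (nat_lit 344097) (nat_lit 18) .nil))))) .nil)) 
(.lf (nat_lit 109134) (.g (nat_lit 2802) (.e (nat_lit 5321) (nat_lit 298) (.e (nat_lit 1659) (nat_lit 115) (.e (nat_lit 393301) (nat_lit 27) (.e (nat_lit 491559) (nat_lit 10) (.e (nat_lit 344093) (nat_lit 18) .nil))))) .nil))) (.nd (nat_lit 6) 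
(.lf (nat_lit 109102) (.g (nat_lit 2075) (.e (nat_lit 5296) (nat_lit 298) (.e (nat_lit 1656) (nat_lit 115) (.e (nat_lit 393234) (nat_lit 17) (.e (nat_lit 7587) (nat_lit 406) (.e (nat_lit 65648) (nat_lit 26) (.e (nat_lit 417800) (nat_lit 0) .nil)))))) (.g (nat_lit 4) .nil .nil))) 
(.lf (nat_lit 109166) (.g (nat_lit 2811) (.e (nat_lit 5323) (nat_lit 298) (.e (nat_lit 1659) (nat_lit 115) (.e (nat_lit 393301) (nat_lit 27) (.e (nat_lit 491559) (nat_lit 10) (.e (nat_lit 344093) (nat_lit 18) .nil))))) .nil)))) (.nd (nat_lit 5) (.nd (nat_lit 6) 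
(.lf (nat_lit 109086) (.g (nat_lit 3289) (.e (nat_lit 5293) (nat_lit 298) (.e (nat_lit 1656) (nat_lit 115) (.e (nat_lit 393301) (nat_lit 27) (.e (nat_lit 491563) (nat_lit 12) (.e (nat_lit 385035) (nat_lit 16) .nil))))) .nil)) 
(.lf (nat_lit 109150) (.g (nat_lit 2787) (.e (nat_lit 5322) (nat_lit 298) (.e (nat_lit 1659) (nat_lit 115) (.e (nat_lit 393301) (nat_lit 27) (.e (nat_lit 491559) (nat_lit 10) (.e (nat_lit 344090) (nat_lit 18) .nil))))) .nil))) (.nd (nat_lit 6) 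
(.lf (nat_lit 109118) (.g (nat_lit 11) (.e (nat_lit 5301) (nat_lit 298) (.e (nat_lit 1246) (nat_lit 92) (.e (nat_lit 98370) (nat_lit 28) .nil))) .nil)) 
(.lf (nat_lit 109182) (.g (nat_lit 2896) (.e (nat_lit 5324) (nat_lit 298) (.e (nat_lit 1659) (nat_lit 115) (.e (nat_lit 393301) (nat_lit 27) (.e (nat_lit 491560) (nat_lit 10) (.e (nat_lit 344174) (nat_lit 42) .nil))))) .nil)))))))) (.nd (nat_lit 1) (.nd (nat_lit 2) (.nd (nat_lit 3) (.nd (nat_lit 4) (.nd (nat_lit 5) (.nd (nat_lit 6) 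
(.lf (nat_lit 109057) (.g (nat_lit 4106) (.e (nat_lit 5293) (nat_lit 298) (.e (nat_lit 1656) (nat_lit 115) (.e (nat_lit 393301) (nat_lit 27) (.e (nat_lit 491559) (nat_lit 10) (.e (nat_lit 344098) (nat_lit 18) .nil))))) .nil)) 
(.lf (nat_lit 109121) (.g (nat_lit 3396) (.e (nat_lit 5320) (nat_lit 298) (.e (nat_lit 1234) (nat_lit 91) (.e (nat_lit 90170) (nat_lit 13) (.e (nat_lit 172106) (nat_lit 10) (.e (nat_lit 434231) (nat_lit 23) (.e (nat_lit 532490) (nat_lit 0) (.e (nat_lit 6136) (nat_lit 332) (.e (nat_lit 989) (nat_lit 81) .nil)))))))) (.g (nat_lit 4) .nil .nil)))) (.nd (nat_lit 6) 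
(.lf (nat_lit 109089) (.g (nat_lit 2401) (.e (nat_lit 5293) (nat_lit 298) (.e (nat_lit 1656) (nat_lit 115) (.e (nat_lit 393301) (nat_lit 27) (.e (nat_lit 491563) (nat_lit 12) (.e (nat_lit 392960) (nat_lit 16) (.e (nat_lit 1076) (nat_lit 81) .nil)))))) (.g (nat_lit 4) .nil .nil))) 
(.lf (nat_lit 109153) (.g (nat_lit 3473) (.e (nat_lit 5322) (nat_lit 298) (.e (nat_lit 1659) (nat_lit 115) (.e (nat_lit 393301) (nat_lit 27) (.e (nat_lit 491560) (nat_lit 10) (.e (nat_lit 344087) (nat_lit 18) (.e (nat_lit 7251) (nat_lit 383) (.e (nat_lit 8195) (nat_lit 0) .nil))))))) (.g (nat_lit 5) .nil .nil))))) (.nd (nat_lit 5) (.nd (nat_lit 6) 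
(.lf (nat_lit 109073) (.g (nat_lit 2657) (.e (nat_lit 5293) (nat_lit 298) (.e (nat_lit 1656) (nat_lit 115) (.e (nat_lit 393301) (nat_lit 27) (.e (nat_lit 491560) (nat_lit 10) (.e (nat_lit 344099) (nat_lit 18) .nil))))) .nil)) 
(.lf (nat_lit 109137) (.g (nat_lit 4046) (.e (nat_lit 5321) (nat_lit 298) (.e (nat_lit 1659) (nat_lit 115) (.e (nat_lit 393301) (nat_lit 27) (.e (nat_lit 491560) (nat_lit 10) (.e (nat_lit 344097) (nat_lit 18) (.e (nat_lit 7254) (nat_lit 383) (.e (nat_lit 8198) (nat_lit 0) .nil))))))) (.g (nat_lit 6) .nil .nil)))) (.nd (nat_lit 6) 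
(.lf (nat_lit 109105) (.g (nat_lit 1552) (.e (nat_lit 5296) (nat_lit 298) (.e (nat_lit 1656) (nat_lit 115) (.e (nat_lit 393291) (nat_lit 26) (.e (nat_lit 475219) (nat_lit 44) .nil)))) .nil)) 
(.lf (nat_lit 109169) (.g (nat_lit 2636) (.e (nat_lit 5323) (nat_lit 298) (.e (nat_lit 1659) (nat_lit 115) (.e (nat_lit 393301) (nat_lit 27) (.e (nat_lit 491560) (nat_lit 10) (.e (nat_lit 344091) (nat_lit 18) .nil))))) .nil))))) (.nd (nat_lit 4) (.nd (nat_lit 5) (.nd (nat_lit 6) 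
(.lf (nat_lit 109065) (.g (nat_lit 3314) (.e (nat_lit 5293) (nat_lit 298) (.e (nat_lit 1656) (nat_lit 115) (.e (nat_lit 393301) (nat_lit 27) (.e (nat_lit 491560) (nat_lit 10) (.e (nat_lit 344088) (nat_lit 18) (.e (nat_lit 6927) (nat_lit 372) (.e (nat_lit 8295) (nat_lit 51) .nil))))))) (.g (nat_lit 4) .nil .nil))) 
(.lf (nat_lit 109129) (.g (nat_lit 1856) (.e (nat_lit 5321) (nat_lit 298) (.e (nat_lit 1638) (nat_lit 114) (.e (nat_lit 385105) (nat_lit 50) (.e (nat_lit 786483) (nat_lit 30) (.e (nat_lit 360484) (nat_lit 15) .nil))))) .nil))) (.nd (nat_lit 6) 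
(.lf (nat_lit 109097) (.g (nat_lit 811) (.e (nat_lit 5296) (nat_lit 298) (.e (nat_lit 1633) (nat_lit 114) (.e (nat_lit 385102) (nat_lit 50) .nil))) .nil)) 
(.lf (nat_lit 109161) (.g (nat_lit 2673) (.e (nat_lit 5323) (nat_lit 298) (.e (nat_lit 1253) (nat_lit 92) (.e (nat_lit 98373) (nat_lit 29) (.e (nat_lit 450581) (nat_lit 5) (.e (nat_lit 532523) (nat_lit 7) (.e (nat_lit 327424) (nat_lit 10) .nil)))))) (.g (nat_lit 5) .nil .nil))))) (.nd (nat_lit 5) (.nd (nat_lit 6) 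
(.lf (nat_lit 109081) (.g (nat_lit 2885) (.e (nat_lit 5293) (nat_lit 298) (.e (nat_lit 1656) (nat_lit 115) (.e (nat_lit 393301) (nat_lit 27) (.e (nat_lit 491563) (nat_lit 12) (.e (nat_lit 385032) (nat_lit 16) (.e (nat_lit 977) (nat_lit 81) .nil)))))) (.g (nat_lit 4) .nil .nil))) 
(.lf (nat_lit 109145) (.g (nat_lit 2558) (.e (nat_lit 5322) (nat_lit 298) (.e (nat_lit 1235) (nat_lit 91) (.e (nat_lit 90170) (nat_lit 13) (.e (nat_lit 172106) (nat_lit 10) (.e (nat_lit 434231) (nat_lit 23) (.e (nat_lit 532490) (nat_lit 0) (.e (nat_lit 6114) (nat_lit 332) (.e (nat_lit 972) (nat_lit 81) .nil)))))))) (.g (nat_lit 4) .nil .nil)))) (.nd (nat_lit 6) 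
(.lf (nat_lit 109113) (.g (nat_lit 2244) (.e (nat_lit 5297) (nat_lit 298) (.e (nat_lit 1633) (nat_lit 114) (.e (nat_lit 385106) (nat_lit 50) (.e (nat_lit 786483) (nat_lit 30) (.e (nat_lit 360484) (nat_lit 15) .nil))))) .nil)) 
(.lf (nat_lit 109177) (.g (nat_lit 2557) (.e (nat_lit 5324) (nat_lit 298) (.e (nat_lit 1659) (nat_lit 115) (.e (nat_lit 393301) (nat_lit 27) (.e (nat_lit 491560) (nat_lit 10) (.e (nat_lit 344090) (nat_lit 18) .nil))))) .nil)))))) (.nd (nat_lit 3) (.nd (nat_lit 4) (.nd (nat_lit 5) (.nd (nat_lit 6) 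
(.lf (nat_lit 109061) (.g (nat_lit 5651) (.e (nat_lit 5293) (nat_lit 298) (.e (nat_lit 1656) (nat_lit 115) (.e (nat_lit 393301) (nat_lit 27) (.e (nat_lit 491559) (nat_lit 10) (.e (nat_lit 344177) (nat_lit 43) (.e (nat_lit 770050) (nat_lit 0) (.e (nat_lit 2505) (nat_lit 157) .nil))))))) (.g (nat_lit 5) .nil .nil))) 
(.lf (nat_lit 109125) (.g (nat_lit 2472) (.e (nat_lit 5320) (nat_lit 298) (.e (nat_lit 1661) (nat_lit 115) (.e (nat_lit 393260) (nat_lit 21) (.e (nat_lit 409649) (nat_lit 18) (.e (nat_lit 311040) (nat_lit 25) .nil))))) .nil))) (.nd (nat_lit 6) 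
(.lf (nat_lit 109093) (.g (nat_lit 1758) (.e (nat_lit 5294) (nat_lit 298) (.e (nat_lit 1656) (nat_lit 115) (.e (nat_lit 393234) (nat_lit 17) (.e (nat_lit 7589) (nat_lit 406) (.e (nat_lit 65648) (nat_lit 26) .nil))))) .nil)) 
(.lf (nat_lit 109157) (.g (nat_lit 2089) (.e (nat_lit 5322) (nat_lit 298) (.e (nat_lit 1661) (nat_lit 115) (.e (nat_lit 393260) (nat_lit 21) (.e (nat_lit 409643) (nat_lit 18) .nil)))) .nil)))) (.nd (nat_lit 5) (.nd (nat_lit 6) 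
(.lf (nat_lit 109077) (.g (nat_lit 2792) (.e (nat_lit 5293) (nat_lit 298) (.e (nat_lit 1656) (nat_lit 115) (.e (nat_lit 393301) (nat_lit 27) (.e (nat_lit 491560) (nat_lit 10) (.e (nat_lit 344174) (nat_lit 42) .nil))))) .nil)) 
(.lf (nat_lit 109141) (.g (nat_lit 3018) (.e (nat_lit 5321) (nat_lit 298) (.e (nat_lit 1659) (nat_lit 115) (.e (nat_lit 393301) (nat_lit 27) (.e (nat_lit 491560) (nat_lit 10) (.e (nat_lit 344174) (nat_lit 42) .nil))))) .nil))) (.nd (nat_lit 6) 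
(.lf (nat_lit 109109) (.g (nat_lit 1502) (.e (nat_lit 5296) (nat_lit 298) (.e (nat_lit 1656) (nat_lit 115) (.e (nat_lit 393299) (nat_lit 27) (.e (nat_lit 491563) (nat_lit 12) .nil)))) .nil)) 
(.lf (nat_lit 109173) (.g (nat_lit 1961) (.e (nat_lit 5323) (nat_lit 298) (.e (nat_lit 1661) (nat_lit 115) (.e (nat_lit 393260) (nat_lit 21) (.e (nat_lit 409648) (nat_lit 18) .nil)))) .nil))))) (.nd (nat_lit 4) (.nd (nat_lit 5) (.nd (nat_lit 6) 
(.lf (nat_lit 109069) (.g (nat_lit 2726) (.e (nat_lit 5293) (nat_lit 298) (.e (nat_lit 1656) (nat_lit 115) (.e (nat_lit 393301) (nat_lit 27) (.e (nat_lit 491560) (nat_lit 10) (.e (nat_lit 344094) (nat_lit 18) .nil))))) .nil)) 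
(.lf (nat_lit 109133) (.g (nat_lit 2804) (.e (nat_lit 5321) (nat_lit 298) (.e (nat_lit 1659) (nat_lit 115) (.e (nat_lit 393301) (nat_lit 27) (.e (nat_lit 491559) (nat_lit 10) (.e (nat_lit 344090) (nat_lit 18) .nil))))) .nil))) (.nd (nat_lit 6) 
(.lf (nat_lit 109101) (.g (nat_lit 1346) (.e (nat_lit 5296) (nat_lit 298) (.e (nat_lit 1656) (nat_lit 115) (.e (nat_lit 393234) (nat_lit 17) (.e (nat_lit 7587) (nat_lit 406) .nil)))) .nil)) 
(.lf (nat_lit 109165) (.g (nat_lit 2814) (.e (nat_lit 5323) (nat_lit 298) (.e (nat_lit 1659) (nat_lit 115) (.e (nat_lit 393301) (nat_lit 27) (.e (nat_lit 491559) (nat_lit 10) (.e (nat_lit 344090) (nat_lit 18) .nil))))) .nil)))) (.nd (nat_lit 5) (.nd (nat_lit 6) 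
(.lf (nat_lit 109085) (.g (nat_lit 3365) (.e (nat_lit 5293) (nat_lit 298) (.e (nat_lit 1656) (nat_lit 115) (.e (nat_lit 393301) (nat_lit 27) (.e (nat_lit 491563) (nat_lit 12) (.e (nat_lit 385034) (nat_lit 16) (.e (nat_lit 1077) (nat_lit 81) .nil)))))) (.g (nat_lit 4) .nil .nil))) 
(.lf (nat_lit 109149) (.g (nat_lit 2412) (.e (nat_lit 5322) (nat_lit 298) (.e (nat_lit 1659) (nat_lit 115) (.e (nat_lit 393301) (nat_lit 27) (.e (nat_lit 491558) (nat_lit 10) (.e (nat_lit 344093) (nat_lit 18) .nil))))) .nil))) (.nd (nat_lit 6) 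
(.lf (nat_lit 109117) (.g (nat_lit 440) (.e (nat_lit 5299) (nat_lit 298) (.e (nat_lit 1656) (nat_lit 115) (.e (nat_lit 393234) (nat_lit 17) .nil))) .nil)) 
(.lf (nat_lit 109181) (.g (nat_lit 2907) (.e (nat_lit 5324) (nat_lit 298) (.e (nat_lit 1659) (nat_lit 115) (.e (nat_lit 393301) (nat_lit 27) (.e (nat_lit 491560) (nat_lit 10) (.e (nat_lit 344099) (nat_lit 18) (.e (nat_lit 7255) (nat_lit 383) (.e (nat_lit 8198) (nat_lit 0) .nil))))))) (.g (nat_lit 4) .nil .nil)))))))) 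
(.nd (nat_lit 2) (.nd (nat_lit 3) (.nd (nat_lit 4) (.nd (nat_lit 5) (.nd (nat_lit 6) 
(.lf (nat_lit 109059) (.g (nat_lit 4277) (.e (nat_lit 5293) (nat_lit 298) (.e (nat_lit 1656) (nat_lit 115) (.e (nat_lit 393301) (nat_lit 27) (.e (nat_lit 491559) (nat_lit 10) (.e (nat_lit 344177) (nat_lit 43) .nil))))) .nil)) 
(.lf (nat_lit 109123) (.g (nat_lit 2840) (.e (nat_lit 5320) (nat_lit 298) (.e (nat_lit 1661) (nat_lit 115) (.e (nat_lit 393260) (nat_lit 21) (.e (nat_lit 409648) (nat_lit 18) (.e (nat_lit 311040) (nat_lit 25) .nil))))) .nil))) (.nd (nat_lit 6) 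
(.lf (nat_lit 109091) (.g (nat_lit 1189) (.e (nat_lit 5294) (nat_lit 298) (.e (nat_lit 1250) (nat_lit 92) (.e (nat_lit 98372) (nat_lit 29) (.e (nat_lit 450580) (nat_lit 5) .nil)))) .nil)) 
(.lf (nat_lit 109155) (.g (nat_lit 2719) (.e (nat_lit 5322) (nat_lit 298) (.e (nat_lit 1659) (nat_lit 115) (.e (nat_lit 393301) (nat_lit 27) (.e (nat_lit 491560) (nat_lit 10) (.e (nat_lit 344099) (nat_lit 18) .nil))))) .nil)))) (.nd (nat_lit 5) (.nd (nat_lit 6) 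
(.lf (nat_lit 109075) (.g (nat_lit 3368) (.e (nat_lit 5293) (nat_lit 298) (.e (nat_lit 1656) (nat_lit 115) (.e (nat_lit 393301) (nat_lit 27) (.e (nat_lit 491560) (nat_lit 10) (.e (nat_lit 344099) (nat_lit 18) (.e (nat_lit 7255) (nat_lit 383) (.e (nat_lit 8202) (nat_lit 0) .nil))))))) (.g (nat_lit 4) .nil .nil))) 
(.lf (nat_lit 109139) (.g (nat_lit 2776) (.e (nat_lit 5321) (nat_lit 298) (.e (nat_lit 1659) (nat_lit 115) (.e (nat_lit 393301) (nat_lit 27) (.e (nat_lit 491560) (nat_lit 10) (.e (nat_lit 344099) (nat_lit 18) (.e (nat_lit 7254) (nat_lit 383) (.e (nat_lit 8198) (nat_lit 0) .nil))))))) (.g (nat_lit 4) .nil .nil)))) (.nd (nat_lit 6) 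
(.lf (nat_lit 109107) (.g (nat_lit 1714) (.e (nat_lit 5296) (nat_lit 298) (.e (nat_lit 1656) (nat_lit 115) (.e (nat_lit 393291) (nat_lit 26) (.e (nat_lit 475220) (nat_lit 44) .nil)))) .nil)) 
(.lf (nat_lit 109171) (.g (nat_lit 2661) (.e (nat_lit 5323) (nat_lit 298) (.e (nat_lit 1659) (nat_lit 115) (.e (nat_lit 393301) (nat_lit 27) (.e (nat_lit 491560) (nat_lit 10) (.e (nat_lit 344099) (nat_lit 18) .nil))))) .nil))))) (.nd (nat_lit 4) (.nd (nat_lit 5) (.nd (nat_lit 6) 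
(.lf (nat_lit 109067) (.g (nat_lit 2668) (.e (nat_lit 5293) (nat_lit 298) (.e (nat_lit 1656) (nat_lit 115) (.e (nat_lit 393301) (nat_lit 27) (.e (nat_lit 491560) (nat_lit 10) (.e (nat_lit 344090) (nat_lit 18) .nil))))) .nil)) 
(.lf (nat_lit 109131) (.g (nat_lit 2177) (.e (nat_lit 5321) (nat_lit 298) (.e (nat_lit 1659) (nat_lit 115) (.e (nat_lit 393301) (nat_lit 27) (.e (nat_lit 491558) (nat_lit 10) (.e (nat_lit 344096) (nat_lit 18) .nil))))) .nil))) (.nd (nat_lit 6) 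
(.lf (nat_lit 109099) (.g (nat_lit 3135) (.e (nat_lit 5296) (nat_lit 298) (.e (nat_lit 1633) (nat_lit 114) (.e (nat_lit 385106) (nat_lit 50) (.e (nat_lit 786483) (nat_lit 30) (.e (nat_lit 360484) (nat_lit 15) (.e (nat_lit 647203) (nat_lit 14) (.e (nat_lit 1040) (nat_lit 81) .nil))))))) (.g (nat_lit 6) .nil .nil))) 
(.lf (nat_lit 109163) (.g (nat_lit 1956) (.e (nat_lit 5323) (nat_lit 298) (.e (nat_lit 1638) (nat_lit 114) (.e (nat_lit 385105) (nat_lit 50) (.e (nat_lit 786478) (nat_lit 29) (.e (nat_lit 352256) (nat_lit 0) .nil))))) .nil)))) (.nd (nat_lit 5) (.nd (nat_lit 6) 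
(.lf (nat_lit 109083) (.g (nat_lit 2939) (.e (nat_lit 5293) (nat_lit 298) (.e (nat_lit 1656) (nat_lit 115) (.e (nat_lit 393301) (nat_lit 27) (.e (nat_lit 491563) (nat_lit 12) (.e (nat_lit 385034) (nat_lit 16) .nil))))) .nil)) 
(.lf (nat_lit 109147) (.g (nat_lit 1935) (.e (nat_lit 5322) (nat_lit 298) (.e (nat_lit 1638) (nat_lit 114) (.e (nat_lit 385105) (nat_lit 50) (.e (nat_lit 786478) (nat_lit 29) (.e (nat_lit 352256) (nat_lit 0) .nil))))) .nil))) (.nd (nat_lit 6) 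
(.lf (nat_lit 109115) (.g (nat_lit 2244) (.e (nat_lit 5298) (nat_lit 298) (.e (nat_lit 1633) (nat_lit 114) (.e (nat_lit 385106) (nat_lit 50) (.e (nat_lit 786483) (nat_lit 30) (.e (nat_lit 360484) (nat_lit 15) .nil))))) .nil)) 
(.lf (nat_lit 109179) (.g (nat_lit 2578) (.e (nat_lit 5324) (nat_lit 298) (.e (nat_lit 1659) (nat_lit 115) (.e (nat_lit 393301) (nat_lit 27) (.e (nat_lit 491560) (nat_lit 10) (.e (nat_lit 344099) (nat_lit 18) .nil))))) .nil)))))) (.nd (nat_lit 3) (.nd (nat_lit 4) (.nd (nat_lit 5) (.nd (nat_lit 6) 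
(.lf (nat_lit 109063) (.g (nat_lit 3323) (.e (nat_lit 5293) (nat_lit 298) (.e (nat_lit 1656) (nat_lit 115) (.e (nat_lit 393301) (nat_lit 27) (.e (nat_lit 491560) (nat_lit 10) (.e (nat_lit 344087) (nat_lit 18) .nil))))) .nil)) 
(.lf (nat_lit 109127) (.g (nat_lit 1850) (.e (nat_lit 5321) (nat_lit 298) (.e (nat_lit 1638) (nat_lit 114) (.e (nat_lit 385104) (nat_lit 50) (.e (nat_lit 786480) (nat_lit 29) (.e (nat_lit 352256) (nat_lit 0) .nil))))) .nil))) (.nd (nat_lit 6) 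
(.lf (nat_lit 109095) (.g (nat_lit 909) (.e (nat_lit 5296) (nat_lit 298) (.e (nat_lit 1232) (nat_lit 91) (.e (nat_lit 90178) (nat_lit 15) (.e (nat_lit 188450) (nat_lit 23) .nil)))) .nil)) 
(.lf (nat_lit 109159) (.g (nat_lit 2057) (.e (nat_lit 5322) (nat_lit 298) (.e (nat_lit 1661) (nat_lit 115) (.e (nat_lit 393260) (nat_lit 21) (.e (nat_lit 409649) (nat_lit 18) .nil)))) .nil)))) (.nd (nat_lit 5) (.nd (nat_lit 6) 
(.lf (nat_lit 109079) (.g (nat_lit 2613) (.e (nat_lit 5293) (nat_lit 298) (.e (nat_lit 1656) (nat_lit 115) (.e (nat_lit 393301) (nat_lit 27) (.e (nat_lit 491560) (nat_lit 10) (.e (nat_lit 344177) (nat_lit 43) .nil))))) .nil)) 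
(.lf (nat_lit 109143) (.g (nat_lit 1770) (.e (nat_lit 5321) (nat_lit 298) (.e (nat_lit 1661) (nat_lit 115) (.e (nat_lit 393260) (nat_lit 21) (.e (nat_lit 409648) (nat_lit 18) .nil)))) .nil))) (.nd (nat_lit 6) 
(.lf (nat_lit 109111) (.g (nat_lit 2622) (.e (nat_lit 5296) (nat_lit 298) (.e (nat_lit 1656) (nat_lit 115) (.e (nat_lit 393301) (nat_lit 27) (.e (nat_lit 491563) (nat_lit 12) (.e (nat_lit 392960) (nat_lit 16) (.e (nat_lit 1023) (nat_lit 81) .nil)))))) (.g (nat_lit 4) .nil .nil))) 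
(.lf (nat_lit 109175) (.g (nat_lit 2043) (.e (nat_lit 5323) (nat_lit 298) (.e (nat_lit 1661) (nat_lit 115) (.e (nat_lit 393260) (nat_lit 21) (.e (nat_lit 409649) (nat_lit 18) .nil)))) .nil))))) (.nd (nat_lit 4) (.nd (nat_lit 5) (.nd (nat_lit 6) 
(.lf (nat_lit 109071) (.g (nat_lit 4143) (.e (nat_lit 5293) (nat_lit 298) (.e (nat_lit 1656) (nat_lit 115) (.e (nat_lit 393301) (nat_lit 27) (.e (nat_lit 491560) (nat_lit 10) (.e (nat_lit 344097) (nat_lit 18) (.e (nat_lit 7252) (nat_lit 383) (.e (nat_lit 8202) (nat_lit 0) .nil))))))) (.g (nat_lit 5) .nil .nil))) 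
(.lf (nat_lit 109135) (.g (nat_lit 2945) (.e (nat_lit 5321) (nat_lit 298) (.e (nat_lit 1659) (nat_lit 115) (.e (nat_lit 393301) (nat_lit 27) (.e (nat_lit 491560) (nat_lit 10) (.e (nat_lit 344087) (nat_lit 18) .nil))))) .nil))) (.nd (nat_lit 6) 
(.lf (nat_lit 109103) (.g (nat_lit 1390) (.e (nat_lit 5296) (nat_lit 298) (.e (nat_lit 1656) (nat_lit 115) (.e (nat_lit 393234) (nat_lit 17) (.e (nat_lit 7589) (nat_lit 406) .nil)))) .nil)) 
(.lf (nat_lit 109167) (.g (nat_lit 2905) (.e (nat_lit 5323) (nat_lit 298) (.e (nat_lit 1659) (nat_lit 115) (.e (nat_lit 393301) (nat_lit 27) (.e (nat_lit 491560) (nat_lit 10) (.e (nat_lit 344087) (nat_lit 18) .nil))))) .nil)))) (.nd (nat_lit 5) (.nd (nat_lit 6) 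
(.lf (nat_lit 109087) (.g (nat_lit 3164) (.e (nat_lit 5293) (nat_lit 298) (.e (nat_lit 1656) (nat_lit 115) (.e (nat_lit 393301) (nat_lit 27) (.e (nat_lit 491563) (nat_lit 12) (.e (nat_lit 385036) (nat_lit 16) .nil))))) .nil)) 
(.lf (nat_lit 109151) (.g (nat_lit 2784) (.e (nat_lit 5322) (nat_lit 298) (.e (nat_lit 1659) (nat_lit 115) (.e (nat_lit 393301) (nat_lit 27) (.e (nat_lit 491559) (nat_lit 10) (.e (nat_lit 344093) (nat_lit 18) .nil))))) .nil))) (.nd (nat_lit 6) 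
(.lf (nat_lit 109119) (.g (nat_lit 2544) (.e (nat_lit 5306) (nat_lit 298) (.e (nat_lit 1239) (nat_lit 91) (.e (nat_lit 90170) (nat_lit 13) (.e (nat_lit 172106) (nat_lit 10) (.e (nat_lit 434231) (nat_lit 23) .nil))))) .nil)) 
(.lf (nat_lit 109183) (.g (nat_lit 2140) (.e (nat_lit 5324) (nat_lit 298) (.e (nat_lit 1661) (nat_lit 115) (.e (nat_lit 393260) (nat_lit 21) (.e (nat_lit 409643) (nat_lit 18) .nil)))) .nil)))))))))

noncomputable def tv1475 : DT := (.nd (nat_lit 0) (.nd (nat_lit 1) (.nd (nat_lit 2) (.nd (nat_lit 3) (.nd (nat_lit 4) (.nd (nat_lit 5) (.nd (nat_lit 6) 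
(.lf (nat_lit 109184) (.g (nat_lit 2043) (.e (nat_lit 5324) (nat_lit 298) (.e (nat_lit 1661) (nat_lit 115) (.e (nat_lit 393260) (nat_lit 21) (.e (nat_lit 409648) (nat_lit 18) .nil)))) .nil)) 
(.lf (nat_lit 109248) (.g (nat_lit 2109) (.e (nat_lit 5351) (nat_lit 298) (.e (nat_lit 1252) (nat_lit 92) (.e (nat_lit 98373) (nat_lit 29) (.e (nat_lit 450581) (nat_lit 5) (.e (nat_lit 532523) (nat_lit 7) .nil))))) .nil))) (.nd (nat_lit 6) 
(.lf (nat_lit 109216) (.g (nat_lit 1909) (.e (nat_lit 5349) (nat_lit 298) (.e (nat_lit 1234) (nat_lit 91) (.e (nat_lit 90170) (nat_lit 13) (.e (nat_lit 172115) (nat_lit 10) .nil)))) .nil)) 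
(.lf (nat_lit 109280) (.g (nat_lit 2315) (.e (nat_lit 5355) (nat_lit 298) (.e (nat_lit 1253) (nat_lit 92) (.e (nat_lit 98350) (nat_lit 24) (.e (nat_lit 409616) (nat_lit 10) (.e (nat_lit 7936) (nat_lit 301) (.e (nat_lit 57464) (nat_lit 23) (.e (nat_lit 516139) (nat_lit 7) (.e (nat_lit 409617) (nat_lit 10) .nil)))))))) (.g (nat_lit 4) .nil .nil))))) (.nd (nat_lit 5) (.nd (nat_lit 6) 
(.lf (nat_lit 109200) (.g (nat_lit 663) (.e (nat_lit 5345) (nat_lit 298) (.e (nat_lit 1255) (nat_lit 92) (.e (nat_lit 98321) (nat_lit 17) (.e (nat_lit 7936) (nat_lit 406) .nil)))) .nil)) 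
(.lf (nat_lit 109264) (.g (nat_lit 1717) (.e (nat_lit 5351) (nat_lit 298) (.e (nat_lit 1661) (nat_lit 115) (.e (nat_lit 393260) (nat_lit 21) (.e (nat_lit 409649) (nat_lit 18) .nil)))) .nil))) (.nd (nat_lit 6) 
(.lf (nat_lit 109232) (.g (nat_lit 3356) (.e (nat_lit 5351) (nat_lit 298) (.e (nat_lit 1234) (nat_lit 91) (.e (nat_lit 90170) (nat_lit 13) (.e (nat_lit 172106) (nat_lit 10) (.e (nat_lit 434231) (nat_lit 23) (.e (nat_lit 532490) (nat_lit 0) (.e (nat_lit 6136) (nat_lit 332) (.e (nat_lit 992) (nat_lit 81) .nil)))))))) (.g (nat_lit 4) .nil .nil))) 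
(.lf (nat_lit 109296) (.g (nat_lit 3238) (.e (nat_lit 5355) (nat_lit 298) (.e (nat_lit 1659) (nat_lit 115) (.e (nat_lit 393301) (nat_lit 27) (.e (nat_lit 491558) (nat_lit 10) (.e (nat_lit 344090) (nat_lit 18) (.e (nat_lit 7247) (nat_lit 383) (.e (nat_lit 8194) (nat_lit 0) .nil))))))) (.g (nat_lit 5) .nil .nil)))))) (.nd (nat_lit 4) (.nd (nat_lit 5) (.nd (nat_lit 6) 
(.lf (nat_lit 109192) (.g (nat_lit 2010) (.e (nat_lit 5328) (nat_lit 298) (.e (nat_lit 1661) (nat_lit 115) (.e (nat_lit 393260) (nat_lit 21) (.e (nat_lit 409648) (nat_lit 18) .nil)))) .nil)) 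
(.lf (nat_lit 109256) (.g (nat_lit 2587) (.e (nat_lit 5351) (nat_lit 298) (.e (nat_lit 1660) (nat_lit 115) (.e (nat_lit 393260) (nat_lit 21) (.e (nat_lit 409616) (nat_lit 10) (.e (nat_lit 5630) (nat_lit 312) .nil))))) .nil))) (.nd (nat_lit 6) 
(.lf (nat_lit 109224) (.g (nat_lit 2159) (.e (nat_lit 5349) (nat_lit 298) (.e (nat_lit 1234) (nat_lit 91) (.e (nat_lit 90176) (nat_lit 15) (.e (nat_lit 188450) (nat_lit 23) (.e (nat_lit 204848) (nat_lit 25) .nil))))) .nil)) 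
(.lf (nat_lit 109288) (.g (nat_lit 896) (.e (nat_lit 5355) (nat_lit 298) (.e (nat_lit 1638) (nat_lit 114) (.e (nat_lit 385104) (nat_lit 50) (.e (nat_lit 786480) (nat_lit 29) .nil)))) .nil)))) (.nd (nat_lit 5) (.nd (nat_lit 6) 
(.lf (nat_lit 109208) (.g (nat_lit 2207) (.e (nat_lit 5349) (nat_lit 298) (.e (nat_lit 1228) (nat_lit 91) (.e (nat_lit 90176) (nat_lit 15) (.e (nat_lit 188450) (nat_lit 23) (.e (nat_lit 204821) (nat_lit 17) (.e (nat_lit 6136) (nat_lit 332) (.e (nat_lit 989) (nat_lit 81) .nil))))))) (.g (nat_lit 7) .nil .nil))) 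
(.lf (nat_lit 109272) (.g (nat_lit 2333) (.e (nat_lit 5355) (nat_lit 298) (.e (nat_lit 392) (nat_lit 32) (.e (nat_lit 426338) (nat_lit 14) (.e (nat_lit 491549) (nat_lit 9) (.e (nat_lit 336369) (nat_lit 27) .nil))))) .nil))) (.nd (nat_lit 6) 
(.lf (nat_lit 109240) (.g (nat_lit 4396) (.e (nat_lit 5351) (nat_lit 298) (.e (nat_lit 1234) (nat_lit 91) (.e (nat_lit 90185) (nat_lit 17) (.e (nat_lit 237605) (nat_lit 9) (.e (nat_lit 426131) (nat_lit 3) (.e (nat_lit 204846) (nat_lit 24) (.e (nat_lit 319505) (nat_lit 10) .nil))))))) (.g (nat_lit 7) .nil .nil))) 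
(.lf (nat_lit 109304) (.g (nat_lit 3143) (.e (nat_lit 5355) (nat_lit 298) (.e (nat_lit 1659) (nat_lit 115) (.e (nat_lit 393301) (nat_lit 27) (.e (nat_lit 491560) (nat_lit 10) (.e (nat_lit 344099) (nat_lit 18) (.e (nat_lit 7255) (nat_lit 383) (.e (nat_lit 8192) (nat_lit 0) .nil))))))) (.g (nat_lit 4) .nil .nil))))))) (.nd (nat_lit 3) (.nd (nat_lit 4) (.nd (nat_lit 5) (.nd (nat_lit 6) 
(.lf (nat_lit 109188) (.g (nat_lit 1169) (.e (nat_lit 5327) (nat_lit 298) (.e (nat_lit 1660) (nat_lit 115) (.e (nat_lit 393260) (nat_lit 21) (.e (nat_lit 409649) (nat_lit 18) .nil)))) .nil)) 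
(.lf (nat_lit 109252) (.g (nat_lit 797) (.e (nat_lit 5351) (nat_lit 298) (.e (nat_lit 1427) (nat_lit 108) (.e (nat_lit 336421) (nat_lit 28) .nil))) .nil))) (.nd (nat_lit 6) 
(.lf (nat_lit 109220) (.g (nat_lit 2070) (.e (nat_lit 5349) (nat_lit 298) (.e (nat_lit 1234) (nat_lit 91) (.e (nat_lit 90176) (nat_lit 15) (.e (nat_lit 188450) (nat_lit 23) (.e (nat_lit 204821) (nat_lit 17) .nil))))) .nil)) 
(.lf (nat_lit 109284) (.g (nat_lit 1874) (.e (nat_lit 5355) (nat_lit 298) (.e (nat_lit 1638) (nat_lit 114) (.e (nat_lit 385067) (nat_lit 26) (.e (nat_lit 532513) (nat_lit 3) (.e (nat_lit 122624) (nat_lit 12) .nil))))) .nil)))) (.nd (nat_lit 5) (.nd (nat_lit 6) 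
(.lf (nat_lit 109204) (.g (nat_lit 1563) (.e (nat_lit 5346) (nat_lit 298) (.e (nat_lit 1238) (nat_lit 91) (.e (nat_lit 90176) (nat_lit 15) (.e (nat_lit 188447) (nat_lit 22) (.e (nat_lit 196661) (nat_lit 12) .nil))))) .nil)) 
(.lf (nat_lit 109268) (.g (nat_lit 2556) (.e (nat_lit 5353) (nat_lit 298) (.e (nat_lit 1077) (nat_lit 81) (.e (nat_lit 1796) (nat_lit 119) (.e (nat_lit 516163) (nat_lit 11) (.e (nat_lit 442424) (nat_lit 22) (.e (nat_lit 196661) (nat_lit 12) (.e (nat_lit 57712) (nat_lit 176) (.e (nat_lit 970) (nat_lit 81) .nil)))))))) (.g (nat_lit 5) .nil .nil)))) (.nd (nat_lit 6) 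
(.lf (nat_lit 109236) (.g (nat_lit 2433) (.e (nat_lit 5351) (nat_lit 298) (.e (nat_lit 1234) (nat_lit 91) (.e (nat_lit 90176) (nat_lit 15) (.e (nat_lit 188447) (nat_lit 22) (.e (nat_lit 196661) (nat_lit 12) (.e (nat_lit 57714) (nat_lit 176) (.e (nat_lit 988) (nat_lit 81) .nil))))))) (.g (nat_lit 4) .nil .nil))) 
(.lf (nat_lit 109300) (.g (nat_lit 2819) (.e (nat_lit 5355) (nat_lit 298) (.e (nat_lit 1659) (nat_lit 115) (.e (nat_lit 393301) (nat_lit 27) (.e (nat_lit 491559) (nat_lit 10) (.e (nat_lit 344096) (nat_lit 18) .nil))))) .nil))))) (.nd (nat_lit 4) (.nd (nat_lit 5) (.nd (nat_lit 6) 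
(.lf (nat_lit 109196) (.g (nat_lit 1918) (.e (nat_lit 5342) (nat_lit 298) (.e (nat_lit 1661) (nat_lit 115) (.e (nat_lit 393260) (nat_lit 21) (.e (nat_lit 409649) (nat_lit 18) .nil)))) .nil)) 
(.lf (nat_lit 109260) (.g (nat_lit 3024) (.e (nat_lit 5351) (nat_lit 298) (.e (nat_lit 1661) (nat_lit 115) (.e (nat_lit 393260) (nat_lit 21) (.e (nat_lit 409617) (nat_lit 10) (.e (nat_lit 5630) (nat_lit 312) .nil))))) .nil))) (.nd (nat_lit 6) 
(.lf (nat_lit 109228) (.g (nat_lit 1457) (.e (nat_lit 5349) (nat_lit 298) (.e (nat_lit 1238) (nat_lit 91) (.e (nat_lit 90176) (nat_lit 15) (.e (nat_lit 188450) (nat_lit 23) (.e (nat_lit 204821) (nat_lit 17) (.e (nat_lit 6114) (nat_lit 332) (.e (nat_lit 968) (nat_lit 81) .nil))))))) (.g (nat_lit 4) .nil .nil))) 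
(.lf (nat_lit 109292) (.g (nat_lit 2560) (.e (nat_lit 5355) (nat_lit 298) (.e (nat_lit 1638) (nat_lit 114) (.e (nat_lit 385105) (nat_lit 50) (.e (nat_lit 786478) (nat_lit 29) (.e (nat_lit 352256) (nat_lit 0) (.e (nat_lit 3813) (nat_lit 231) (.e (nat_lit 811010) (nat_lit 0) .nil))))))) (.g (nat_lit 4) .nil .nil))))) (.nd (nat_lit 5) (.nd (nat_lit 6) 
(.lf (nat_lit 109212) (.g (nat_lit 4951) (.e (nat_lit 5349) (nat_lit 298) (.e (nat_lit 1234) (nat_lit 91) (.e (nat_lit 90170) (nat_lit 13) (.e (nat_lit 172106) (nat_lit 10) (.e (nat_lit 434231) (nat_lit 23) (.e (nat_lit 532490) (nat_lit 0) (.e (nat_lit 6114) (nat_lit 332) (.e (nat_lit 968) (nat_lit 81) .nil)))))))) (.g (nat_lit 6) .nil .nil))) 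
(.lf (nat_lit 109276) (.g (nat_lit 335) (.e (nat_lit 5355) (nat_lit 298) (.e (nat_lit 1253) (nat_lit 92) (.e (nat_lit 98349) (nat_lit 24) .nil))) .nil))) (.nd (nat_lit 6) 
(.lf (nat_lit 109244) (.g (nat_lit 1782) (.e (nat_lit 5351) (nat_lit 298) (.e (nat_lit 1235) (nat_lit 91) (.e (nat_lit 90176) (nat_lit 15) (.e (nat_lit 188450) (nat_lit 23) (.e (nat_lit 204849) (nat_lit 25) .nil))))) .nil)) 
(.lf (nat_lit 109308) (.g (nat_lit 992) (.e (nat_lit 5355) (nat_lit 298) (.e (nat_lit 1661) (nat_lit 115) (.e (nat_lit 393242) (nat_lit 17) (.e (nat_lit 7936) (nat_lit 407) .nil)))) .nil))))))) (.nd (nat_lit 2) (.nd (nat_lit 3) (.nd (nat_lit 4) (.nd (nat_lit 5) (.nd (nat_lit 6) 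
(.lf (nat_lit 109186) (.g (nat_lit 2595) (.e (nat_lit 5325) (nat_lit 298) (.e (nat_lit 1659) (nat_lit 115) (.e (nat_lit 393301) (nat_lit 27) (.e (nat_lit 491560) (nat_lit 10) (.e (nat_lit 344099) (nat_lit 18) .nil))))) .nil)) 
(.lf (nat_lit 109250) (.g (nat_lit 2519) (.e (nat_lit 5351) (nat_lit 298) (.e (nat_lit 1253) (nat_lit 92) (.e (nat_lit 98370) (nat_lit 28) (.e (nat_lit 442427) (nat_lit 23) (.e (nat_lit 204846) (nat_lit 24) .nil))))) .nil))) (.nd (nat_lit 6) 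
(.lf (nat_lit 109218) (.g (nat_lit 3307) (.e (nat_lit 5349) (nat_lit 298) (.e (nat_lit 1234) (nat_lit 91) (.e (nat_lit 90176) (nat_lit 15) (.e (nat_lit 188447) (nat_lit 22) (.e (nat_lit 196661) (nat_lit 12) (.e (nat_lit 57714) (nat_lit 176) (.e (nat_lit 989) (nat_lit 81) .nil))))))) (.g (nat_lit 7) .nil .nil))) 
(.lf (nat_lit 109282) (.g (nat_lit 2064) (.e (nat_lit 5355) (nat_lit 298) (.e (nat_lit 1253) (nat_lit 92) (.e (nat_lit 98350) (nat_lit 24) (.e (nat_lit 409648) (nat_lit 18) (.e (nat_lit 303108) (nat_lit 0) .nil))))) .nil)))) (.nd (nat_lit 5) (.nd (nat_lit 6) 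
(.lf (nat_lit 109202) (.g (nat_lit 969) (.e (nat_lit 5345) (nat_lit 298) (.e (nat_lit 1664) (nat_lit 115) (.e (nat_lit 393301) (nat_lit 27) (.e (nat_lit 491559) (nat_lit 10) .nil)))) .nil)) 
(.lf (nat_lit 109266) (.g (nat_lit 3069) (.e (nat_lit 5353) (nat_lit 298) (.e (nat_lit 1074) (nat_lit 81) (.e (nat_lit 1796) (nat_lit 119) (.e (nat_lit 516163) (nat_lit 11) (.e (nat_lit 442424) (nat_lit 22) (.e (nat_lit 196661) (nat_lit 12) (.e (nat_lit 57712) (nat_lit 176) (.e (nat_lit 973) (nat_lit 81) .nil)))))))) (.g (nat_lit 6) .nil .nil)))) (.nd (nat_lit 6) 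
(.lf (nat_lit 109234) (.g (nat_lit 1900) (.e (nat_lit 5351) (nat_lit 298) (.e (nat_lit 1234) (nat_lit 91) (.e (nat_lit 90170) (nat_lit 13) (.e (nat_lit 172115) (nat_lit 10) .nil)))) .nil)) 
(.lf (nat_lit 109298) (.g (nat_lit 3354) (.e (nat_lit 5355) (nat_lit 298) (.e (nat_lit 1659) (nat_lit 115) (.e (nat_lit 393301) (nat_lit 27) (.e (nat_lit 491558) (nat_lit 10) (.e (nat_lit 344096) (nat_lit 18) (.e (nat_lit 7247) (nat_lit 383) (.e (nat_lit 8194) (nat_lit 0) .nil))))))) (.g (nat_lit 5) .nil .nil)))))) (.nd (nat_lit 4) (.nd (nat_lit 5) (.nd (nat_lit 6) 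
(.lf (nat_lit 109194) (.g (nat_lit 2565) (.e (nat_lit 5331) (nat_lit 298) (.e (nat_lit 1659) (nat_lit 115) (.e (nat_lit 393301) (nat_lit 27) (.e (nat_lit 491560) (nat_lit 10) (.e (nat_lit 344094) (nat_lit 18) .nil))))) .nil)) 
(.lf (nat_lit 109258) (.g (nat_lit 2041) (.e (nat_lit 5351) (nat_lit 298) (.e (nat_lit 1660) (nat_lit 115) (.e (nat_lit 393260) (nat_lit 21) (.e (nat_lit 409649) (nat_lit 18) (.e (nat_lit 311040) (nat_lit 25) .nil))))) .nil))) (.nd (nat_lit 6) 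
(.lf (nat_lit 109226) (.g (nat_lit 1385) (.e (nat_lit 5349) (nat_lit 298) (.e (nat_lit 1234) (nat_lit 91) (.e (nat_lit 90176) (nat_lit 15) (.e (nat_lit 188452) (nat_lit 23) .nil)))) .nil)) 
(.lf (nat_lit 109290) (.g (nat_lit 533) (.e (nat_lit 5355) (nat_lit 298) (.e (nat_lit 1638) (nat_lit 114) (.e (nat_lit 385105) (nat_lit 50) .nil))) .nil)))) (.nd (nat_lit 5) (.nd (nat_lit 6) 
(.lf (nat_lit 109210) (.g (nat_lit 1936) (.e (nat_lit 5349) (nat_lit 298) (.e (nat_lit 1234) (nat_lit 91) (.e (nat_lit 90170) (nat_lit 13) (.e (nat_lit 172097) (nat_lit 9) .nil)))) .nil)) 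
(.lf (nat_lit 109274) (.g (nat_lit 2819) (.e (nat_lit 5355) (nat_lit 298) (.e (nat_lit 1252) (nat_lit 92) (.e (nat_lit 98350) (nat_lit 24) (.e (nat_lit 409616) (nat_lit 10) (.e (nat_lit 5355) (nat_lit 298) .nil))))) .nil))) (.nd (nat_lit 6) 
(.lf (nat_lit 109242) (.g (nat_lit 2366) (.e (nat_lit 5351) (nat_lit 298) (.e (nat_lit 1235) (nat_lit 91) (.e (nat_lit 90170) (nat_lit 13) (.e (nat_lit 172106) (nat_lit 10) (.e (nat_lit 434231) (nat_lit 23) (.e (nat_lit 532490) (nat_lit 0) (.e (nat_lit 6149) (nat_lit 332) (.e (nat_lit 982) (nat_lit 81) .nil)))))))) (.g (nat_lit 4) .nil .nil))) 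
(.lf (nat_lit 109306) (.g (nat_lit 1651) (.e (nat_lit 5355) (nat_lit 298) (.e (nat_lit 1661) (nat_lit 115) (.e (nat_lit 393232) (nat_lit 17) (.e (nat_lit 7593) (nat_lit 407) (.e (nat_lit 73729) (nat_lit 0) .nil))))) .nil)))))) (.nd (nat_lit 3) (.nd (nat_lit 4) (.nd (nat_lit 5) (.nd (nat_lit 6) 
(.lf (nat_lit 109190) (.g (nat_lit 1874) (.e (nat_lit 5327) (nat_lit 298) (.e (nat_lit 1661) (nat_lit 115) (.e (nat_lit 393260) (nat_lit 21) (.e (nat_lit 409649) (nat_lit 18) .nil)))) .nil)) 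
(.lf (nat_lit 109254) (.g (nat_lit 1446) (.e (nat_lit 5351) (nat_lit 298) (.e (nat_lit 1638) (nat_lit 114) (.e (nat_lit 385102) (nat_lit 50) (.e (nat_lit 786483) (nat_lit 30) (.e (nat_lit 360484) (nat_lit 15) (.e (nat_lit 647203) (nat_lit 14) (.e (nat_lit 1014) (nat_lit 81) .nil))))))) (.g (nat_lit 4) .nil .nil)))) (.nd (nat_lit 6) 
(.lf (nat_lit 109222) (.g (nat_lit 2290) (.e (nat_lit 5349) (nat_lit 298) (.e (nat_lit 1234) (nat_lit 91) (.e (nat_lit 90176) (nat_lit 15) (.e (nat_lit 188450) (nat_lit 23) (.e (nat_lit 204845) (nat_lit 24) .nil))))) .nil)) 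
(.lf (nat_lit 109286) (.g (nat_lit 1796) (.e (nat_lit 5355) (nat_lit 298) (.e (nat_lit 1638) (nat_lit 114) (.e (nat_lit 385102) (nat_lit 50) (.e (nat_lit 786483) (nat_lit 30) (.e (nat_lit 360486) (nat_lit 18) (.e (nat_lit 671788) (nat_lit 14) (.e (nat_lit 2449) (nat_lit 157) .nil))))))) (.g (nat_lit 4) .nil .nil))))) (.nd (nat_lit 5) (.nd (nat_lit 6) 
(.lf (nat_lit 109206) (.g (nat_lit 1104) (.e (nat_lit 5347) (nat_lit 298) (.e (nat_lit 444) (nat_lit 33) (.e (nat_lit 434181) (nat_lit 0) (.e (nat_lit 1661) (nat_lit 115) (.e (nat_lit 393260) (nat_lit 21) .nil))))) .nil)) 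
(.lf (nat_lit 109270) (.g (nat_lit 2030) (.e (nat_lit 5353) (nat_lit 298) (.e (nat_lit 1077) (nat_lit 81) (.e (nat_lit 1853) (nat_lit 124) (.e (nat_lit 557087) (nat_lit 11) (.e (nat_lit 24631) (nat_lit 9) .nil))))) .nil))) (.nd (nat_lit 6) 
(.lf (nat_lit 109238) (.g (nat_lit 2140) (.e (nat_lit 5351) (nat_lit 298) (.e (nat_lit 1234) (nat_lit 91) (.e (nat_lit 90176) (nat_lit 15) (.e (nat_lit 188450) (nat_lit 23) (.e (nat_lit 204848) (nat_lit 25) .nil))))) .nil)) 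
(.lf (nat_lit 109302) (.g (nat_lit 3933) (.e (nat_lit 5355) (nat_lit 298) (.e (nat_lit 1659) (nat_lit 115) (.e (nat_lit 393301) (nat_lit 27) (.e (nat_lit 491560) (nat_lit 10) (.e (nat_lit 344097) (nat_lit 18) (.e (nat_lit 7254) (nat_lit 383) (.e (nat_lit 8192) (nat_lit 0) .nil))))))) (.g (nat_lit 5) .nil .nil)))))) (.nd (nat_lit 4) (.nd (nat_lit 5) (.nd (nat_lit 6) 
(.lf (nat_lit 109198) (.g (nat_lit 1592) (.e (nat_lit 5345) (nat_lit 298) (.e (nat_lit 1238) (nat_lit 91) (.e (nat_lit 90176) (nat_lit 15) (.e (nat_lit 188447) (nat_lit 22) (.e (nat_lit 196661) (nat_lit 12) (.e (nat_lit 57712) (nat_lit 176) (.e (nat_lit 973) (nat_lit 81) .nil))))))) (.g (nat_lit 4) .nil .nil))) 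
(.lf (nat_lit 109262) (.g (nat_lit 2690) (.e (nat_lit 5351) (nat_lit 298) (.e (nat_lit 1661) (nat_lit 115) (.e (nat_lit 393260) (nat_lit 21) (.e (nat_lit 409648) (nat_lit 18) (.e (nat_lit 311040) (nat_lit 25) (.e (nat_lit 319504) (nat_lit 10) .nil)))))) (.g (nat_lit 4) .nil .nil)))) (.nd (nat_lit 6) 
(.lf (nat_lit 109230) (.g (nat_lit 2098) (.e (nat_lit 5351) (nat_lit 298) (.e (nat_lit 1234) (nat_lit 91) (.e (nat_lit 90170) (nat_lit 13) (.e (nat_lit 172088) (nat_lit 9) .nil)))) .nil)) 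
(.lf (nat_lit 109294) (.g (nat_lit 2277) (.e (nat_lit 5355) (nat_lit 298) (.e (nat_lit 1638) (nat_lit 114) (.e (nat_lit 385105) (nat_lit 50) (.e (nat_lit 786480) (nat_lit 29) (.e (nat_lit 352256) (nat_lit 0) .nil))))) .nil)))) (.nd (nat_lit 5) (.nd (nat_lit 6) 
(.lf (nat_lit 109214) (.g (nat_lit 5184) (.e (nat_lit 5349) (nat_lit 298) (.e (nat_lit 1234) (nat_lit 91) (.e (nat_lit 90170) (nat_lit 13) (.e (nat_lit 172106) (nat_lit 10) (.e (nat_lit 434231) (nat_lit 23) (.e (nat_lit 532490) (nat_lit 0) (.e (nat_lit 6136) (nat_lit 332) (.e (nat_lit 990) (nat_lit 81) .nil)))))))) (.g (nat_lit 6) .nil .nil))) 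
(.lf (nat_lit 109278) (.g (nat_lit 2566) (.e (nat_lit 5355) (nat_lit 298) (.e (nat_lit 1253) (nat_lit 92) (.e (nat_lit 98350) (nat_lit 24) (.e (nat_lit 409616) (nat_lit 10) (.e (nat_lit 5345) (nat_lit 298) .nil))))) .nil))) (.nd (nat_lit 6) 
(.lf (nat_lit 109246) (.g (nat_lit 1549) (.e (nat_lit 5351) (nat_lit 298) (.e (nat_lit 1252) (nat_lit 92) (.e (nat_lit 98372) (nat_lit 29) (.e (nat_lit 450579) (nat_lit 5) (.e (nat_lit 532526) (nat_lit 8) .nil))))) .nil)) 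
(.lf (nat_lit 109310) (.g (nat_lit 2410) (.e (nat_lit 5355) (nat_lit 298) (.e (nat_lit 1661) (nat_lit 115) (.e (nat_lit 393260) (nat_lit 21) (.e (nat_lit 409616) (nat_lit 10) (.e (nat_lit 7936) (nat_lit 299) .nil))))) .nil)))))))) (.nd (nat_lit 1) (.nd (nat_lit 2) (.nd (nat_lit 3) (.nd (nat_lit 4) (.nd (nat_lit 5) (.nd (nat_lit 6) 
(.lf (nat_lit 109185) (.g (nat_lit 2124) (.e (nat_lit 5324) (nat_lit 298) (.e (nat_lit 1661) (nat_lit 115) (.e (nat_lit 393260) (nat_lit 21) (.e (nat_lit 409649) (nat_lit 18) .nil)))) .nil)) 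
(.lf (nat_lit 109249) (.g (nat_lit 1015) (.e (nat_lit 5351) (nat_lit 298) (.e (nat_lit 1253) (nat_lit 92) (.e (nat_lit 98370) (nat_lit 28) (.e (nat_lit 442425) (nat_lit 23) .nil)))) .nil))) (.nd (nat_lit 6) 
(.lf (nat_lit 109217) (.g (nat_lit 2255) (.e (nat_lit 5349) (nat_lit 298) (.e (nat_lit 1234) (nat_lit 91) (.e (nat_lit 90176) (nat_lit 15) (.e (nat_lit 188447) (nat_lit 22) (.e (nat_lit 196661) (nat_lit 12) .nil))))) .nil)) 
(.lf (nat_lit 109281) (.g (nat_lit 2407) (.e (nat_lit 5355) (nat_lit 298) (.e (nat_lit 1253) (nat_lit 92) (.e (nat_lit 98350) (nat_lit 24) (.e (nat_lit 409641) (nat_lit 17) (.e (nat_lit 294930) (nat_lit 3) .nil))))) .nil)))) (.nd (nat_lit 5) (.nd (nat_lit 6) 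
(.lf (nat_lit 109201) (.g (nat_lit 1026) (.e (nat_lit 5345) (nat_lit 298) (.e (nat_lit 1664) (nat_lit 115) (.e (nat_lit 393301) (nat_lit 27) (.e (nat_lit 491558) (nat_lit 10) .nil)))) .nil)) 
(.lf (nat_lit 109265) (.g (nat_lit 2177) (.e (nat_lit 5351) (nat_lit 298) (.e (nat_lit 1661) (nat_lit 115) (.e (nat_lit 393260) (nat_lit 21) (.e (nat_lit 409649) (nat_lit 18) (.e (nat_lit 311040) (nat_lit 25) .nil))))) .nil))) (.nd (nat_lit 6) 
(.lf (nat_lit 109233) (.g (nat_lit 1954) (.e (nat_lit 5351) (nat_lit 298) (.e (nat_lit 1234) (nat_lit 91) (.e (nat_lit 90170) (nat_lit 13) (.e (nat_lit 172113) (nat_lit 10) (.e (nat_lit 434234) (nat_lit 23) .nil))))) .nil)) 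
(.lf (nat_lit 109297) (.g (nat_lit 2198) (.e (nat_lit 5355) (nat_lit 298) (.e (nat_lit 1659) (nat_lit 115) (.e (nat_lit 393301) (nat_lit 27) (.e (nat_lit 491558) (nat_lit 10) (.e (nat_lit 344095) (nat_lit 18) .nil))))) .nil))))) (.nd (nat_lit 4) (.nd (nat_lit 5) (.nd (nat_lit 6) 
(.lf (nat_lit 109193) (.g (nat_lit 2039) (.e (nat_lit 5328) (nat_lit 298) (.e (nat_lit 1661) (nat_lit 115) (.e (nat_lit 393260) (nat_lit 21) (.e (nat_lit 409649) (nat_lit 18) .nil)))) .nil)) 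
(.lf (nat_lit 109257) (.g (nat_lit 2104) (.e (nat_lit 5351) (nat_lit 298) (.e (nat_lit 1660) (nat_lit 115) (.e (nat_lit 393260) (nat_lit 21) (.e (nat_lit 409648) (nat_lit 18) (.e (nat_lit 311040) (nat_lit 25) .nil))))) .nil))) (.nd (nat_lit 6) 
(.lf (nat_lit 109225) (.g (nat_lit 2166) (.e (nat_lit 5349) (nat_lit 298) (.e (nat_lit 1234) (nat_lit 91) (.e (nat_lit 90176) (nat_lit 15) (.e (nat_lit 188450) (nat_lit 23) (.e (nat_lit 204849) (nat_lit 25) .nil))))) .nil)) 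
(.lf (nat_lit 109289) (.g (nat_lit 2252) (.e (nat_lit 5355) (nat_lit 298) (.e (nat_lit 1638) (nat_lit 114) (.e (nat_lit 385104) (nat_lit 50) (.e (nat_lit 786480) (nat_lit 29) (.e (nat_lit 352256) (nat_lit 0) (.e (nat_lit 3813) (nat_lit 231) (.e (nat_lit 811010) (nat_lit 0) .nil))))))) (.g (nat_lit 4) .nil .nil))))) (.nd (nat_lit 5) (.nd (nat_lit 6) 
(.lf (nat_lit 109209) (.g (nat_lit 1651) (.e (nat_lit 5349) (nat_lit 298) (.e (nat_lit 1228) (nat_lit 91) (.e (nat_lit 90176) (nat_lit 15) (.e (nat_lit 188450) (nat_lit 23) (.e (nat_lit 204821) (nat_lit 17) (.e (nat_lit 6136) (nat_lit 332) (.e (nat_lit 990) (nat_lit 81) .nil))))))) (.g (nat_lit 5) .nil .nil))) 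
(.lf (nat_lit 109273) (.g (nat_lit 3349) (.e (nat_lit 5355) (nat_lit 298) (.e (nat_lit 1179) (nat_lit 87) (.e (nat_lit 57681) (nat_lit 155) (.e (nat_lit 122919) (nat_lit 15) (.e (nat_lit 360451) (nat_lit 0) (.e (nat_lit 6940) (nat_lit 375) (.e (nat_lit 163896) (nat_lit 10) (.e (nat_lit 409617) (nat_lit 10) .nil)))))))) (.g (nat_lit 5) .nil .nil)))) (.nd (nat_lit 6) 
(.lf (nat_lit 109241) (.g (nat_lit 2368) (.e (nat_lit 5351) (nat_lit 298) (.e (nat_lit 1234) (nat_lit 91) (.e (nat_lit 90185) (nat_lit 17) (.e (nat_lit 237609) (nat_lit 9) .nil)))) .nil)) 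
(.lf (nat_lit 109305) (.g (nat_lit 3044) (.e (nat_lit 5355) (nat_lit 298) (.e (nat_lit 1659) (nat_lit 115) (.e (nat_lit 393301) (nat_lit 27) (.e (nat_lit 491560) (nat_lit 10) (.e (nat_lit 344174) (nat_lit 42) .nil))))) .nil)))))) (.nd (nat_lit 3) (.nd (nat_lit 4) (.nd (nat_lit 5) (.nd (nat_lit 6) 
(.lf (nat_lit 109189) (.g (nat_lit 2099) (.e (nat_lit 5327) (nat_lit 298) (.e (nat_lit 1661) (nat_lit 115) (.e (nat_lit 393260) (nat_lit 21) (.e (nat_lit 409643) (nat_lit 18) .nil)))) .nil)) 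
(.lf (nat_lit 109253) (.g (nat_lit 1569) (.e (nat_lit 5351) (nat_lit 298) (.e (nat_lit 1427) (nat_lit 108) (.e (nat_lit 336443) (nat_lit 32) (.e (nat_lit 466972) (nat_lit 21) .nil)))) .nil))) (.nd (nat_lit 6) 
(.lf (nat_lit 109221) (.g (nat_lit 2337) (.e (nat_lit 5349) (nat_lit 298) (.e (nat_lit 1234) (nat_lit 91) (.e (nat_lit 90176) (nat_lit 15) (.e (nat_lit 188450) (nat_lit 23) (.e (nat_lit 204821) (nat_lit 17) (.e (nat_lit 6136) (nat_lit 332) (.e (nat_lit 990) (nat_lit 81) .nil))))))) (.g (nat_lit 4) .nil .nil))) 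
(.lf (nat_lit 109285) (.g (nat_lit 1719) (.e (nat_lit 5355) (nat_lit 298) (.e (nat_lit 1638) (nat_lit 114) (.e (nat_lit 385102) (nat_lit 50) (.e (nat_lit 786480) (nat_lit 29) (.e (nat_lit 352256) (nat_lit 0) .nil))))) .nil)))) (.nd (nat_lit 5) (.nd (nat_lit 6) 
(.lf (nat_lit 109205) (.g (nat_lit 1564) (.e (nat_lit 5346) (nat_lit 298) (.e (nat_lit 1238) (nat_lit 91) (.e (nat_lit 90176) (nat_lit 15) (.e (nat_lit 188447) (nat_lit 22) (.e (nat_lit 196661) (nat_lit 12) (.e (nat_lit 57714) (nat_lit 176) (.e (nat_lit 991) (nat_lit 81) .nil))))))) (.g (nat_lit 4) .nil .nil))) 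
(.lf (nat_lit 109269) (.g (nat_lit 3058) (.e (nat_lit 5353) (nat_lit 298) (.e (nat_lit 1077) (nat_lit 81) (.e (nat_lit 1796) (nat_lit 119) (.e (nat_lit 516163) (nat_lit 11) (.e (nat_lit 442424) (nat_lit 22) (.e (nat_lit 196661) (nat_lit 12) (.e (nat_lit 57712) (nat_lit 176) (.e (nat_lit 972) (nat_lit 81) .nil)))))))) (.g (nat_lit 6) .nil .nil)))) (.nd (nat_lit 6) 
(.lf (nat_lit 109237) (.g (nat_lit 2089) (.e (nat_lit 5351) (nat_lit 298) (.e (nat_lit 1234) (nat_lit 91) (.e (nat_lit 90176) (nat_lit 15) (.e (nat_lit 188450) (nat_lit 23) (.e (nat_lit 204821) (nat_lit 17) (.e (nat_lit 6136) (nat_lit 332) (.e (nat_lit 988) (nat_lit 81) .nil))))))) (.g (nat_lit 4) .nil .nil))) 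
(.lf (nat_lit 109301) (.g (nat_lit 3115) (.e (nat_lit 5355) (nat_lit 298) (.e (nat_lit 1659) (nat_lit 115) (.e (nat_lit 393301) (nat_lit 27) (.e (nat_lit 491560) (nat_lit 10) (.e (nat_lit 344088) (nat_lit 18) .nil))))) .nil))))) (.nd (nat_lit 4) (.nd (nat_lit 5) (.nd (nat_lit 6) 
(.lf (nat_lit 109197) (.g (nat_lit 3544) (.e (nat_lit 5343) (nat_lit 298) (.e (nat_lit 1234) (nat_lit 91) (.e (nat_lit 90170) (nat_lit 13) (.e (nat_lit 172106) (nat_lit 10) (.e (nat_lit 434231) (nat_lit 23) (.e (nat_lit 532490) (nat_lit 0) (.e (nat_lit 6136) (nat_lit 332) (.e (nat_lit 988) (nat_lit 81) .nil)))))))) (.g (nat_lit 4) .nil .nil))) 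
(.lf (nat_lit 109261) (.g (nat_lit 1753) (.e (nat_lit 5351) (nat_lit 298) (.e (nat_lit 1661) (nat_lit 115) (.e (nat_lit 393260) (nat_lit 21) (.e (nat_lit 409648) (nat_lit 18) .nil)))) .nil))) (.nd (nat_lit 6) 
(.lf (nat_lit 109229) (.g (nat_lit 2078) (.e (nat_lit 5349) (nat_lit 298) (.e (nat_lit 1238) (nat_lit 91) (.e (nat_lit 90176) (nat_lit 15) (.e (nat_lit 188450) (nat_lit 23) (.e (nat_lit 204821) (nat_lit 17) (.e (nat_lit 6136) (nat_lit 332) (.e (nat_lit 990) (nat_lit 81) .nil))))))) (.g (nat_lit 6) .nil .nil))) 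
(.lf (nat_lit 109293) (.g (nat_lit 1879) (.e (nat_lit 5355) (nat_lit 298) (.e (nat_lit 1638) (nat_lit 114) (.e (nat_lit 385105) (nat_lit 50) (.e (nat_lit 786478) (nat_lit 29) (.e (nat_lit 352270) (nat_lit 8) .nil))))) .nil)))) (.nd (nat_lit 5) (.nd (nat_lit 6) 
(.lf (nat_lit 109213) (.g (nat_lit 5786) (.e (nat_lit 5349) (nat_lit 298) (.e (nat_lit 1234) (nat_lit 91) (.e (nat_lit 90170) (nat_lit 13) (.e (nat_lit 172106) (nat_lit 10) (.e (nat_lit 434231) (nat_lit 23) (.e (nat_lit 532490) (nat_lit 0) (.e (nat_lit 6136) (nat_lit 332) (.e (nat_lit 989) (nat_lit 81) .nil)))))))) (.g (nat_lit 8) .nil .nil))) 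
(.lf (nat_lit 109277) (.g (nat_lit 1647) (.e (nat_lit 5355) (nat_lit 298) (.e (nat_lit 1253) (nat_lit 92) (.e (nat_lit 98349) (nat_lit 24) (.e (nat_lit 409641) (nat_lit 17) (.e (nat_lit 294930) (nat_lit 3) .nil))))) .nil))) (.nd (nat_lit 6) 
(.lf (nat_lit 109245) (.g (nat_lit 1170) (.e (nat_lit 5351) (nat_lit 298) (.e (nat_lit 1235) (nat_lit 91) (.e (nat_lit 90185) (nat_lit 17) (.e (nat_lit 237605) (nat_lit 9) .nil)))) .nil)) 
(.lf (nat_lit 109309) (.g (nat_lit 1659) (.e (nat_lit 5355) (nat_lit 298) (.e (nat_lit 1661) (nat_lit 115) (.e (nat_lit 393260) (nat_lit 21) (.e (nat_lit 409616) (nat_lit 10) .nil)))) .nil))))))) (.nd (nat_lit 2) (.nd (nat_lit 3) (.nd (nat_lit 4) (.nd (nat_lit 5) (.nd (nat_lit 6) 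
(.lf (nat_lit 109187) (.g (nat_lit 2102) (.e (nat_lit 5327) (nat_lit 298) (.e (nat_lit 1660) (nat_lit 115) (.e (nat_lit 393260) (nat_lit 21) (.e (nat_lit 409648) (nat_lit 18) (.e (nat_lit 311040) (nat_lit 25) .nil))))) .nil)) 
(.lf (nat_lit 109251) (.g (nat_lit 1780) (.e (nat_lit 5351) (nat_lit 298) (.e (nat_lit 1427) (nat_lit 108) (.e (nat_lit 336369) (nat_lit 27) (.e (nat_lit 426173) (nat_lit 7) (.e (nat_lit 409649) (nat_lit 18) .nil))))) .nil))) (.nd (nat_lit 6) 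
(.lf (nat_lit 109219) (.g (nat_lit 3030) (.e (nat_lit 5349) (nat_lit 298) (.e (nat_lit 1234) (nat_lit 91) (.e (nat_lit 90176) (nat_lit 15) (.e (nat_lit 188447) (nat_lit 22) (.e (nat_lit 196661) (nat_lit 12) (.e (nat_lit 57714) (nat_lit 176) (.e (nat_lit 990) (nat_lit 81) .nil))))))) (.g (nat_lit 6) .nil .nil))) 
(.lf (nat_lit 109283) (.g (nat_lit 2306) (.e (nat_lit 5355) (nat_lit 298) (.e (nat_lit 1253) (nat_lit 92) (.e (nat_lit 98389) (nat_lit 33) (.e (nat_lit 491560) (nat_lit 10) (.e (nat_lit 344120) (nat_lit 21) .nil))))) .nil)))) (.nd (nat_lit 5) (.nd (nat_lit 6) 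
(.lf (nat_lit 109203) (.g (nat_lit 2538) (.e (nat_lit 5345) (nat_lit 298) (.e (nat_lit 1664) (nat_lit 115) (.e (nat_lit 393301) (nat_lit 27) (.e (nat_lit 491560) (nat_lit 10) (.e (nat_lit 344090) (nat_lit 18) .nil))))) .nil)) 
(.lf (nat_lit 109267) (.g (nat_lit 1661) (.e (nat_lit 5353) (nat_lit 298) (.e (nat_lit 1074) (nat_lit 81) (.e (nat_lit 1796) (nat_lit 119) (.e (nat_lit 516185) (nat_lit 16) (.e (nat_lit 491552) (nat_lit 9) .nil))))) .nil))) (.nd (nat_lit 6) 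
(.lf (nat_lit 109235) (.g (nat_lit 506) (.e (nat_lit 5351) (nat_lit 298) (.e (nat_lit 1234) (nat_lit 91) (.e (nat_lit 90176) (nat_lit 15) .nil))) .nil)) 
(.lf (nat_lit 109299) (.g (nat_lit 2064) (.e (nat_lit 5355) (nat_lit 298) (.e (nat_lit 1659) (nat_lit 115) (.e (nat_lit 393301) (nat_lit 27) (.e (nat_lit 491558) (nat_lit 10) (.e (nat_lit 344097) (nat_lit 18) .nil))))) .nil))))) (.nd (nat_lit 4) (.nd (nat_lit 5) (.nd (nat_lit 6) 
(.lf (nat_lit 109195) (.g (nat_lit 1913) (.e (nat_lit 5342) (nat_lit 298) (.e (nat_lit 1661) (nat_lit 115) (.e (nat_lit 393260) (nat_lit 21) (.e (nat_lit 409648) (nat_lit 18) .nil)))) .nil)) 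
(.lf (nat_lit 109259) (.g (nat_lit 3395) (.e (nat_lit 5351) (nat_lit 298) (.e (nat_lit 1661) (nat_lit 115) (.e (nat_lit 393260) (nat_lit 21) (.e (nat_lit 409616) (nat_lit 10) (.e (nat_lit 5630) (nat_lit 312) .nil))))) .nil))) (.nd (nat_lit 6) 
(.lf (nat_lit 109227) (.g (nat_lit 1663) (.e (nat_lit 5349) (nat_lit 298) (.e (nat_lit 1234) (nat_lit 91) (.e (nat_lit 90185) (nat_lit 17) (.e (nat_lit 237605) (nat_lit 9) (.e (nat_lit 426131) (nat_lit 3) .nil))))) .nil)) 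
(.lf (nat_lit 109291) (.g (nat_lit 1890) (.e (nat_lit 5355) (nat_lit 298) (.e (nat_lit 1638) (nat_lit 114) (.e (nat_lit 385105) (nat_lit 50) (.e (nat_lit 786478) (nat_lit 29) (.e (nat_lit 352256) (nat_lit 0) .nil))))) .nil)))) (.nd (nat_lit 5) (.nd (nat_lit 6) 
(.lf (nat_lit 109211) (.g (nat_lit 3498) (.e (nat_lit 5349) (nat_lit 298) (.e (nat_lit 1234) (nat_lit 91) (.e (nat_lit 90170) (nat_lit 13) (.e (nat_lit 172106) (nat_lit 10) (.e (nat_lit 434231) (nat_lit 23) (.e (nat_lit 532486) (nat_lit 0) (.e (nat_lit 6113) (nat_lit 332) (.e (nat_lit 968) (nat_lit 81) .nil)))))))) (.g (nat_lit 4) .nil .nil))) 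
(.lf (nat_lit 109275) (.g (nat_lit 1615) (.e (nat_lit 5355) (nat_lit 298) (.e (nat_lit 1252) (nat_lit 92) (.e (nat_lit 98389) (nat_lit 33) (.e (nat_lit 491560) (nat_lit 10) (.e (nat_lit 344118) (nat_lit 21) .nil))))) .nil))) (.nd (nat_lit 6) 
(.lf (nat_lit 109243) (.g (nat_lit 4230) (.e (nat_lit 5351) (nat_lit 298) (.e (nat_lit 1235) (nat_lit 91) (.e (nat_lit 90170) (nat_lit 13) (.e (nat_lit 172106) (nat_lit 10) (.e (nat_lit 434231) (nat_lit 23) (.e (nat_lit 532522) (nat_lit 7) (.e (nat_lit 319500) (nat_lit 10) .nil))))))) (.g (nat_lit 7) .nil .nil))) 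
(.lf (nat_lit 109307) (.g (nat_lit 1318) (.e (nat_lit 5355) (nat_lit 298) (.e (nat_lit 1661) (nat_lit 115) (.e (nat_lit 393238) (nat_lit 17) (.e (nat_lit 7936) (nat_lit 407) .nil)))) .nil)))))) (.nd (nat_lit 3) (.nd (nat_lit 4) (.nd (nat_lit 5) (.nd (nat_lit 6) 
(.lf (nat_lit 109191) (.g (nat_lit 2333) (.e (nat_lit 5327) (nat_lit 298) (.e (nat_lit 1661) (nat_lit 115) (.e (nat_lit 393260) (nat_lit 21) (.e (nat_lit 409649) (nat_lit 18) (.e (nat_lit 311040) (nat_lit 25) .nil))))) .nil)) 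
(.lf (nat_lit 109255) (.g (nat_lit 2536) (.e (nat_lit 5351) (nat_lit 298) (.e (nat_lit 1659) (nat_lit 115) (.e (nat_lit 393301) (nat_lit 27) (.e (nat_lit 491563) (nat_lit 12) (.e (nat_lit 392960) (nat_lit 16) .nil))))) .nil))) (.nd (nat_lit 6) 
(.lf (nat_lit 109223) (.g (nat_lit 2543) (.e (nat_lit 5349) (nat_lit 298) (.e (nat_lit 1234) (nat_lit 91) (.e (nat_lit 90176) (nat_lit 15) (.e (nat_lit 188450) (nat_lit 23) (.e (nat_lit 204846) (nat_lit 24) .nil))))) .nil)) 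
(.lf (nat_lit 109287) (.g (nat_lit 539) (.e (nat_lit 5355) (nat_lit 298) (.e (nat_lit 1638) (nat_lit 114) (.e (nat_lit 385104) (nat_lit 50) .nil))) .nil)))) (.nd (nat_lit 5) (.nd (nat_lit 6) 
(.lf (nat_lit 109207) (.g (nat_lit 1727) (.e (nat_lit 5349) (nat_lit 298) (.e (nat_lit 1228) (nat_lit 91) (.e (nat_lit 90176) (nat_lit 15) (.e (nat_lit 188447) (nat_lit 22) (.e (nat_lit 196661) (nat_lit 12) (.e (nat_lit 57714) (nat_lit 176) (.e (nat_lit 990) (nat_lit 81) .nil))))))) (.g (nat_lit 5) .nil .nil))) 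
(.lf (nat_lit 109271) (.g (nat_lit 777) (.e (nat_lit 5353) (nat_lit 298) (.e (nat_lit 1515) (nat_lit 108) (.e (nat_lit 336390) (nat_lit 27) (.e (nat_lit 426011) (nat_lit 0) (.e (nat_lit 7591) (nat_lit 407) .nil))))) .nil))) (.nd (nat_lit 6) 
(.lf (nat_lit 109239) (.g (nat_lit 2148) (.e (nat_lit 5351) (nat_lit 298) (.e (nat_lit 1234) (nat_lit 91) (.e (nat_lit 90176) (nat_lit 15) (.e (nat_lit 188450) (nat_lit 23) (.e (nat_lit 204849) (nat_lit 25) .nil))))) .nil)) 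
(.lf (nat_lit 109303) (.g (nat_lit 2726) (.e (nat_lit 5355) (nat_lit 298) (.e (nat_lit 1659) (nat_lit 115) (.e (nat_lit 393301) (nat_lit 27) (.e (nat_lit 491560) (nat_lit 10) (.e (nat_lit 344099) (nat_lit 18) .nil))))) .nil))))) (.nd (nat_lit 4) (.nd (nat_lit 5) (.nd (nat_lit 6) 
(.lf (nat_lit 109199) (.g (nat_lit 1930) (.e (nat_lit 5345) (nat_lit 298) (.e (nat_lit 1238) (nat_lit 91) (.e (nat_lit 90176) (nat_lit 15) (.e (nat_lit 188450) (nat_lit 23) (.e (nat_lit 204821) (nat_lit 17) (.e (nat_lit 6114) (nat_lit 332) (.e (nat_lit 973) (nat_lit 81) .nil))))))) (.g (nat_lit 5) .nil .nil))) 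
(.lf (nat_lit 109263) (.g (nat_lit 2835) (.e (nat_lit 5351) (nat_lit 298) (.e (nat_lit 1661) (nat_lit 115) (.e (nat_lit 393260) (nat_lit 21) (.e (nat_lit 409648) (nat_lit 18) (.e (nat_lit 311040) (nat_lit 25) (.e (nat_lit 319505) (nat_lit 10) .nil)))))) (.g (nat_lit 4) .nil .nil)))) (.nd (nat_lit 6) 
(.lf (nat_lit 109231) (.g (nat_lit 3631) (.e (nat_lit 5351) (nat_lit 298) (.e (nat_lit 1234) (nat_lit 91) (.e (nat_lit 90170) (nat_lit 13) (.e (nat_lit 172106) (nat_lit 10) (.e (nat_lit 434231) (nat_lit 23) (.e (nat_lit 532482) (nat_lit 0) (.e (nat_lit 6192) (nat_lit 332) (.e (nat_lit 982) (nat_lit 81) .nil)))))))) (.g (nat_lit 4) .nil .nil))) 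
(.lf (nat_lit 109295) (.g (nat_lit 1558) (.e (nat_lit 5355) (nat_lit 298) (.e (nat_lit 1638) (nat_lit 114) (.e (nat_lit 385105) (nat_lit 50) (.e (nat_lit 786480) (nat_lit 29) (.e (nat_lit 352270) (nat_lit 8) .nil))))) .nil)))) (.nd (nat_lit 5) (.nd (nat_lit 6) 
(.lf (nat_lit 109215) (.g (nat_lit 4195) (.e (nat_lit 5349) (nat_lit 298) (.e (nat_lit 1234) (nat_lit 91) (.e (nat_lit 90170) (nat_lit 13) (.e (nat_lit 172106) (nat_lit 10) (.e (nat_lit 434231) (nat_lit 23) (.e (nat_lit 532490) (nat_lit 0) (.e (nat_lit 6136) (nat_lit 332) (.e (nat_lit 991) (nat_lit 81) .nil)))))))) (.g (nat_lit 5) .nil .nil))) 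
(.lf (nat_lit 109279) (.g (nat_lit 2169) (.e (nat_lit 5355) (nat_lit 298) (.e (nat_lit 1253) (nat_lit 92) (.e (nat_lit 98350) (nat_lit 24) (.e (nat_lit 409616) (nat_lit 10) (.e (nat_lit 7936) (nat_lit 301) .nil))))) .nil))) (.nd (nat_lit 6) 
(.lf (nat_lit 109247) (.g (nat_lit 1375) (.e (nat_lit 5351) (nat_lit 298) (.e (nat_lit 1252) (nat_lit 92) (.e (nat_lit 98373) (nat_lit 29) (.e (nat_lit 450579) (nat_lit 5) .nil)))) .nil)) 
(.lf (nat_lit 109311) (.g (nat_lit 2410) (.e (nat_lit 5355) (nat_lit 298) (.e (nat_lit 1661) (nat_lit 115) (.e (nat_lit 393260) (nat_lit 21) (.e (nat_lit 409616) (nat_lit 10) (.e (nat_lit 7936) (nat_lit 313) .nil))))) .nil)))))))))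

noncomputable def tv1476 : DT := (.nd (nat_lit 0) (.nd (nat_lit 1) (.nd (nat_lit 2) (.nd (nat_lit 3) (.nd (nat_lit 4) (.nd (nat_lit 5) 
(.lf (nat_lit 109312) (.g (nat_lit 1238) (.e (nat_lit 5355) (nat_lit 298) (.e (nat_lit 1661) (nat_lit 115) (.e (nat_lit 393260) (nat_lit 21) (.e (nat_lit 409617) (nat_lit 10) .nil)))) .nil)) 
(.lf (nat_lit 109344) (.g (nat_lit 3388) (.e (nat_lit 5355) (nat_lit 298) (.e (nat_lit 1661) (nat_lit 115) (.e (nat_lit 393260) (nat_lit 21) (.e (nat_lit 409648) (nat_lit 18) (.e (nat_lit 303108) (nat_lit 0) (.e (nat_lit 3469) (nat_lit 217) (.e (nat_lit 696324) (nat_lit 0) (.e (nat_lit 2416) (nat_lit 157) .nil)))))))) (.g (nat_lit 6) .nil .nil)))) (.nd (nat_lit 5) 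
(.lf (nat_lit 109328) (.g (nat_lit 1654) (.e (nat_lit 5355) (nat_lit 298) (.e (nat_lit 1661) (nat_lit 115) (.e (nat_lit 393260) (nat_lit 21) (.e (nat_lit 409646) (nat_lit 18) .nil)))) .nil)) 
(.lf (nat_lit 109360) (.g (nat_lit 3017) (.e (nat_lit 5355) (nat_lit 298) (.e (nat_lit 1661) (nat_lit 115) (.e (nat_lit 393260) (nat_lit 21) (.e (nat_lit 409648) (nat_lit 18) (.e (nat_lit 303112) (nat_lit 0) (.e (nat_lit 2478) (nat_lit 157) (.e (nat_lit 6387) (nat_lit 338) (.e (nat_lit 8193) (nat_lit 0) .nil)))))))) (.g (nat_lit 5) .nil .nil))))) (.nd (nat_lit 4) (.nd (nat_lit 5) 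
(.lf (nat_lit 109320) (.g (nat_lit 2483) (.e (nat_lit 5355) (nat_lit 298) (.e (nat_lit 1661) (nat_lit 115) (.e (nat_lit 393260) (nat_lit 21) (.e (nat_lit 409643) (nat_lit 18) (.e (nat_lit 303115) (nat_lit 1) (.e (nat_lit 164172) (nat_lit 153) (.e (nat_lit 8193) (nat_lit 0) .nil))))))) (.g (nat_lit 5) .nil .nil))) 
(.lf (nat_lit 109352) (.g (nat_lit 2627) (.e (nat_lit 5355) (nat_lit 298) (.e (nat_lit 1661) (nat_lit 115) (.e (nat_lit 393260) (nat_lit 21) (.e (nat_lit 409648) (nat_lit 18) (.e (nat_lit 303109) (nat_lit 0) (.e (nat_lit 2438) (nat_lit 157) (.e (nat_lit 6383) (nat_lit 338) (.e (nat_lit 8193) (nat_lit 0) .nil)))))))) (.g (nat_lit 4) .nil .nil)))) (.nd (nat_lit 5) 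
(.lf (nat_lit 109336) (.g (nat_lit 2907) (.e (nat_lit 5355) (nat_lit 298) (.e (nat_lit 1661) (nat_lit 115) (.e (nat_lit 393260) (nat_lit 21) (.e (nat_lit 409648) (nat_lit 18) (.e (nat_lit 303104) (nat_lit 0) (.e (nat_lit 3459) (nat_lit 216) (.e (nat_lit 688129) (nat_lit 0) (.e (nat_lit 2440) (nat_lit 157) .nil)))))))) (.g (nat_lit 6) .nil .nil))) 
(.lf (nat_lit 109368) (.g (nat_lit 2456) (.e (nat_lit 5355) (nat_lit 298) (.e (nat_lit 1661) (nat_lit 115) (.e (nat_lit 393260) (nat_lit 21) (.e (nat_lit 409648) (nat_lit 18) (.e (nat_lit 303115) (nat_lit 1) (.e (nat_lit 164148) (nat_lit 152) (.e (nat_lit 23) (nat_lit 0) (.e (nat_lit 2441) (nat_lit 157) .nil)))))))) (.g (nat_lit 5) .nil .nil)))))) 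
(.nd (nat_lit 3) (.nd (nat_lit 4) (.nd (nat_lit 5) 
(.lf (nat_lit 109316) (.g (nat_lit 2297) (.e (nat_lit 5355) (nat_lit 298) (.e (nat_lit 1661) (nat_lit 115) (.e (nat_lit 393260) (nat_lit 21) (.e (nat_lit 409643) (nat_lit 18) (.e (nat_lit 303115) (nat_lit 1) (.e (nat_lit 164148) (nat_lit 152) (.e (nat_lit 23) (nat_lit 0) (.e (nat_lit 2450) (nat_lit 157) .nil)))))))) (.g (nat_lit 5) .nil .nil))) 
(.lf (nat_lit 109348) (.g (nat_lit 3636) (.e (nat_lit 5355) (nat_lit 298) (.e (nat_lit 1661) (nat_lit 115) (.e (nat_lit 393260) (nat_lit 21) (.e (nat_lit 409648) (nat_lit 18) (.e (nat_lit 303108) (nat_lit 0) (.e (nat_lit 3469) (nat_lit 217) (.e (nat_lit 696324) (nat_lit 0) (.e (nat_lit 2442) (nat_lit 157) .nil)))))))) (.g (nat_lit 6) .nil .nil)))) (.nd (nat_lit 5) 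
(.lf (nat_lit 109332) (.g (nat_lit 1898) (.e (nat_lit 5355) (nat_lit 298) (.e (nat_lit 1661) (nat_lit 115) (.e (nat_lit 393260) (nat_lit 21) (.e (nat_lit 409647) (nat_lit 18) .nil)))) .nil)) 
(.lf (nat_lit 109364) (.g (nat_lit 1901) (.e (nat_lit 5355) (nat_lit 298) (.e (nat_lit 1661) (nat_lit 115) (.e (nat_lit 393260) (nat_lit 21) (.e (nat_lit 409648) (nat_lit 18) (.e (nat_lit 303114) (nat_lit 1) (.e (nat_lit 164151) (nat_lit 152) (.e (nat_lit 87) (nat_lit 0) (.e (nat_lit 2422) (nat_lit 157) .nil)))))))) (.g (nat_lit 4) .nil .nil))))) (.nd (nat_lit 4) (.nd (nat_lit 5) 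
(.lf (nat_lit 109324) (.g (nat_lit 3913) (.e (nat_lit 5355) (nat_lit 298) (.e (nat_lit 1661) (nat_lit 115) (.e (nat_lit 393260) (nat_lit 21) (.e (nat_lit 409645) (nat_lit 18) (.e (nat_lit 303112) (nat_lit 0) (.e (nat_lit 2478) (nat_lit 157) (.e (nat_lit 6387) (nat_lit 338) (.e (nat_lit 8192) (nat_lit 0) .nil)))))))) (.g (nat_lit 5) .nil .nil))) 
(.lf (nat_lit 109356) (.g (nat_lit 2200) (.e (nat_lit 5355) (nat_lit 298) (.e (nat_lit 1661) (nat_lit 115) (.e (nat_lit 393260) (nat_lit 21) (.e (nat_lit 409648) (nat_lit 18) (.e (nat_lit 303109) (nat_lit 0) (.e (nat_lit 3469) (nat_lit 217) (.e (nat_lit 696324) (nat_lit 0) (.e (nat_lit 2449) (nat_lit 157) .nil)))))))) (.g (nat_lit 4) .nil .nil)))) (.nd (nat_lit 5) 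
(.lf (nat_lit 109340) (.g (nat_lit 2830) (.e (nat_lit 5355) (nat_lit 298) (.e (nat_lit 1661) (nat_lit 115) (.e (nat_lit 393260) (nat_lit 21) (.e (nat_lit 409648) (nat_lit 18) (.e (nat_lit 303107) (nat_lit 0) (.e (nat_lit 3459) (nat_lit 216) (.e (nat_lit 688131) (nat_lit 0) (.e (nat_lit 2443) (nat_lit 157) .nil)))))))) (.g (nat_lit 6) .nil .nil))) 
(.lf (nat_lit 109372) (.g (nat_lit 2117) (.e (nat_lit 5355) (nat_lit 298) (.e (nat_lit 1661) (nat_lit 115) (.e (nat_lit 393260) (nat_lit 21) (.e (nat_lit 409648) (nat_lit 18) (.e (nat_lit 303115) (nat_lit 1) (.e (nat_lit 164151) (nat_lit 152) (.e (nat_lit 87) (nat_lit 0) (.e (nat_lit 2422) (nat_lit 157) .nil)))))))) (.g (nat_lit 4) .nil .nil))))))) 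
(.nd (nat_lit 2) (.nd (nat_lit 3) (.nd (nat_lit 4) (.nd (nat_lit 5) 
(.lf (nat_lit 109314) (.g (nat_lit 2854) (.e (nat_lit 5355) (nat_lit 298) (.e (nat_lit 1661) (nat_lit 115) (.e (nat_lit 393260) (nat_lit 21) (.e (nat_lit 409643) (nat_lit 18) (.e (nat_lit 303112) (nat_lit 0) (.e (nat_lit 2478) (nat_lit 157) (.e (nat_lit 6387) (nat_lit 338) (.e (nat_lit 8192) (nat_lit 0) .nil)))))))) (.g (nat_lit 5) .nil .nil))) 
(.lf (nat_lit 109346) (.g (nat_lit 2902) (.e (nat_lit 5355) (nat_lit 298) (.e (nat_lit 1661) (nat_lit 115) (.e (nat_lit 393260) (nat_lit 21) (.e (nat_lit 409648) (nat_lit 18) (.e (nat_lit 303108) (nat_lit 0) (.e (nat_lit 3469) (nat_lit 217) (.e (nat_lit 696324) (nat_lit 0) (.e (nat_lit 2426) (nat_lit 157) .nil)))))))) (.g (nat_lit 5) .nil .nil)))) (.nd (nat_lit 5) 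
(.lf (nat_lit 109330) (.g (nat_lit 3154) (.e (nat_lit 5355) (nat_lit 298) (.e (nat_lit 1661) (nat_lit 115) (.e (nat_lit 393260) (nat_lit 21) (.e (nat_lit 409646) (nat_lit 18) (.e (nat_lit 303112) (nat_lit 0) (.e (nat_lit 2478) (nat_lit 157) (.e (nat_lit 6387) (nat_lit 338) (.e (nat_lit 8193) (nat_lit 0) .nil)))))))) (.g (nat_lit 4) .nil .nil))) 
(.lf (nat_lit 109362) (.g (nat_lit 2110) (.e (nat_lit 5355) (nat_lit 298) (.e (nat_lit 1661) (nat_lit 115) (.e (nat_lit 393260) (nat_lit 21) (.e (nat_lit 409648) (nat_lit 18) (.e (nat_lit 303114) (nat_lit 1) (.e (nat_lit 164150) (nat_lit 152) (.e (nat_lit 23) (nat_lit 0) (.e (nat_lit 2441) (nat_lit 157) .nil)))))))) (.g (nat_lit 4) .nil .nil))))) (.nd (nat_lit 4) (.nd (nat_lit 5) 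
(.lf (nat_lit 109322) (.g (nat_lit 2145) (.e (nat_lit 5355) (nat_lit 298) (.e (nat_lit 1661) (nat_lit 115) (.e (nat_lit 393260) (nat_lit 21) (.e (nat_lit 409644) (nat_lit 18) .nil)))) .nil)) 
(.lf (nat_lit 109354) (.g (nat_lit 2119) (.e (nat_lit 5355) (nat_lit 298) (.e (nat_lit 1661) (nat_lit 115) (.e (nat_lit 393260) (nat_lit 21) (.e (nat_lit 409648) (nat_lit 18) (.e (nat_lit 303109) (nat_lit 0) (.e (nat_lit 3469) (nat_lit 217) (.e (nat_lit 696324) (nat_lit 0) (.e (nat_lit 2442) (nat_lit 157) .nil)))))))) (.g (nat_lit 4) .nil .nil)))) (.nd (nat_lit 5) 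
(.lf (nat_lit 109338) (.g (nat_lit 2541) (.e (nat_lit 5355) (nat_lit 298) (.e (nat_lit 1661) (nat_lit 115) (.e (nat_lit 393260) (nat_lit 21) (.e (nat_lit 409648) (nat_lit 18) (.e (nat_lit 303107) (nat_lit 0) (.e (nat_lit 3459) (nat_lit 216) (.e (nat_lit 688129) (nat_lit 0) (.e (nat_lit 2416) (nat_lit 157) .nil)))))))) (.g (nat_lit 6) .nil .nil))) 
(.lf (nat_lit 109370) (.g (nat_lit 2194) (.e (nat_lit 5355) (nat_lit 298) (.e (nat_lit 1661) (nat_lit 115) (.e (nat_lit 393260) (nat_lit 21) (.e (nat_lit 409648) (nat_lit 18) (.e (nat_lit 303115) (nat_lit 1) (.e (nat_lit 164151) (nat_lit 152) (.e (nat_lit 3) (nat_lit 0) (.e (nat_lit 2450) (nat_lit 157) .nil)))))))) (.g (nat_lit 4) .nil .nil)))))) (.nd (nat_lit 3) (.nd (nat_lit 4) (.nd (nat_lit 5) 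
(.lf (nat_lit 109318) (.g (nat_lit 2973) (.e (nat_lit 5355) (nat_lit 298) (.e (nat_lit 1661) (nat_lit 115) (.e (nat_lit 393260) (nat_lit 21) (.e (nat_lit 409643) (nat_lit 18) (.e (nat_lit 303115) (nat_lit 1) (.e (nat_lit 164151) (nat_lit 152) (.e (nat_lit 87) (nat_lit 0) (.e (nat_lit 2427) (nat_lit 157) .nil)))))))) (.g (nat_lit 6) .nil .nil))) 
(.lf (nat_lit 109350) (.g (nat_lit 3710) (.e (nat_lit 5355) (nat_lit 298) (.e (nat_lit 1661) (nat_lit 115) (.e (nat_lit 393260) (nat_lit 21) (.e (nat_lit 409648) (nat_lit 18) (.e (nat_lit 303108) (nat_lit 0) (.e (nat_lit 3469) (nat_lit 217) (.e (nat_lit 696324) (nat_lit 0) (.e (nat_lit 2449) (nat_lit 157) .nil)))))))) (.g (nat_lit 6) .nil .nil)))) (.nd (nat_lit 5) 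
(.lf (nat_lit 109334) (.g (nat_lit 2163) (.e (nat_lit 5355) (nat_lit 298) (.e (nat_lit 1661) (nat_lit 115) (.e (nat_lit 393260) (nat_lit 21) (.e (nat_lit 409648) (nat_lit 18) (.e (nat_lit 303104) (nat_lit 0) (.e (nat_lit 2438) (nat_lit 157) (.e (nat_lit 6383) (nat_lit 338) (.e (nat_lit 8193) (nat_lit 0) .nil)))))))) (.g (nat_lit 4) .nil .nil))) 
(.lf (nat_lit 109366) (.g (nat_lit 2103) (.e (nat_lit 5355) (nat_lit 298) (.e (nat_lit 1661) (nat_lit 115) (.e (nat_lit 393260) (nat_lit 21) (.e (nat_lit 409648) (nat_lit 18) (.e (nat_lit 303114) (nat_lit 1) (.e (nat_lit 164173) (nat_lit 153) (.e (nat_lit 8194) (nat_lit 0) .nil))))))) (.g (nat_lit 4) .nil .nil))))) (.nd (nat_lit 4) (.nd (nat_lit 5) 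
(.lf (nat_lit 109326) (.g (nat_lit 2470) (.e (nat_lit 5355) (nat_lit 298) (.e (nat_lit 1661) (nat_lit 115) (.e (nat_lit 393260) (nat_lit 21) (.e (nat_lit 409645) (nat_lit 18) (.e (nat_lit 303115) (nat_lit 1) .nil))))) .nil)) 
(.lf (nat_lit 109358) (.g (nat_lit 2162) (.e (nat_lit 5355) (nat_lit 298) (.e (nat_lit 1661) (nat_lit 115) (.e (nat_lit 393260) (nat_lit 21) (.e (nat_lit 409648) (nat_lit 18) (.e (nat_lit 303111) (nat_lit 0) .nil))))) .nil))) (.nd (nat_lit 5) 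
(.lf (nat_lit 109342) (.g (nat_lit 2394) (.e (nat_lit 5355) (nat_lit 298) (.e (nat_lit 1661) (nat_lit 115) (.e (nat_lit 393260) (nat_lit 21) (.e (nat_lit 409648) (nat_lit 18) (.e (nat_lit 303108) (nat_lit 0) (.e (nat_lit 3469) (nat_lit 217) (.e (nat_lit 696320) (nat_lit 0) (.e (nat_lit 2416) (nat_lit 157) .nil)))))))) (.g (nat_lit 4) .nil .nil))) 
(.lf (nat_lit 109374) (.g (nat_lit 1924) (.e (nat_lit 5355) (nat_lit 298) (.e (nat_lit 1661) (nat_lit 115) (.e (nat_lit 393260) (nat_lit 21) (.e (nat_lit 409648) (nat_lit 18) (.e (nat_lit 303115) (nat_lit 1) (.e (nat_lit 164151) (nat_lit 152) (.e (nat_lit 87) (nat_lit 0) (.e (nat_lit 2449) (nat_lit 157) .nil)))))))) (.g (nat_lit 4) .nil .nil)))))))) 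
(.nd (nat_lit 1) (.nd (nat_lit 2) (.nd (nat_lit 3) (.nd (nat_lit 4) (.nd (nat_lit 5) 
(.lf (nat_lit 109313) (.g (nat_lit 1112) (.e (nat_lit 5355) (nat_lit 298) (.e (nat_lit 1661) (nat_lit 115) (.e (nat_lit 393260) (nat_lit 21) (.e (nat_lit 409643) (nat_lit 18) .nil)))) .nil)) 
(.lf (nat_lit 109345) (.g (nat_lit 2678) (.e (nat_lit 5355) (nat_lit 298) (.e (nat_lit 1661) (nat_lit 115) (.e (nat_lit 393260) (nat_lit 21) (.e (nat_lit 409648) (nat_lit 18) (.e (nat_lit 303108) (nat_lit 0) (.e (nat_lit 3469) (nat_lit 217) (.e (nat_lit 696324) (nat_lit 0) (.e (nat_lit 2422) (nat_lit 157) .nil)))))))) (.g (nat_lit 4) .nil .nil)))) (.nd (nat_lit 5) 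
(.lf (nat_lit 109329) (.g (nat_lit 3021) (.e (nat_lit 5355) (nat_lit 298) (.e (nat_lit 1661) (nat_lit 115) (.e (nat_lit 393260) (nat_lit 21) (.e (nat_lit 409646) (nat_lit 18) (.e (nat_lit 303112) (nat_lit 0) (.e (nat_lit 2478) (nat_lit 157) (.e (nat_lit 6387) (nat_lit 338) (.e (nat_lit 8192) (nat_lit 0) .nil)))))))) (.g (nat_lit 4) .nil .nil))) 
(.lf (nat_lit 109361) (.g (nat_lit 1720) (.e (nat_lit 5355) (nat_lit 298) (.e (nat_lit 1661) (nat_lit 115) (.e (nat_lit 393260) (nat_lit 21) (.e (nat_lit 409648) (nat_lit 18) (.e (nat_lit 303114) (nat_lit 1) .nil))))) .nil)))) (.nd (nat_lit 4) (.nd (nat_lit 5) 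
(.lf (nat_lit 109321) (.g (nat_lit 2460) (.e (nat_lit 5355) (nat_lit 298) (.e (nat_lit 1661) (nat_lit 115) (.e (nat_lit 393260) (nat_lit 21) (.e (nat_lit 409643) (nat_lit 18) (.e (nat_lit 303115) (nat_lit 1) (.e (nat_lit 164175) (nat_lit 153) (.e (nat_lit 8193) (nat_lit 0) .nil))))))) (.g (nat_lit 5) .nil .nil))) 
(.lf (nat_lit 109353) (.g (nat_lit 2877) (.e (nat_lit 5355) (nat_lit 298) (.e (nat_lit 1661) (nat_lit 115) (.e (nat_lit 393260) (nat_lit 21) (.e (nat_lit 409648) (nat_lit 18) (.e (nat_lit 303109) (nat_lit 0) (.e (nat_lit 2478) (nat_lit 157) (.e (nat_lit 6387) (nat_lit 338) (.e (nat_lit 8193) (nat_lit 0) .nil)))))))) (.g (nat_lit 5) .nil .nil)))) (.nd (nat_lit 5) 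
(.lf (nat_lit 109337) (.g (nat_lit 1988) (.e (nat_lit 5355) (nat_lit 298) (.e (nat_lit 1661) (nat_lit 115) (.e (nat_lit 393260) (nat_lit 21) (.e (nat_lit 409648) (nat_lit 18) (.e (nat_lit 303104) (nat_lit 0) (.e (nat_lit 3459) (nat_lit 216) (.e (nat_lit 688131) (nat_lit 0) (.e (nat_lit 2442) (nat_lit 157) .nil)))))))) (.g (nat_lit 4) .nil .nil))) 
(.lf (nat_lit 109369) (.g (nat_lit 2406) (.e (nat_lit 5355) (nat_lit 298) (.e (nat_lit 1661) (nat_lit 115) (.e (nat_lit 393260) (nat_lit 21) (.e (nat_lit 409648) (nat_lit 18) (.e (nat_lit 303115) (nat_lit 1) (.e (nat_lit 164150) (nat_lit 152) (.e (nat_lit 23) (nat_lit 0) (.e (nat_lit 2441) (nat_lit 157) .nil)))))))) (.g (nat_lit 5) .nil .nil)))))) 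
(.nd (nat_lit 3) (.nd (nat_lit 4) (.nd (nat_lit 5) 
(.lf (nat_lit 109317) (.g (nat_lit 1818) (.e (nat_lit 5355) (nat_lit 298) (.e (nat_lit 1661) (nat_lit 115) (.e (nat_lit 393260) (nat_lit 21) (.e (nat_lit 409643) (nat_lit 18) (.e (nat_lit 303115) (nat_lit 1) (.e (nat_lit 164150) (nat_lit 152) (.e (nat_lit 23) (nat_lit 0) (.e (nat_lit 2441) (nat_lit 157) .nil)))))))) (.g (nat_lit 4) .nil .nil))) 
(.lf (nat_lit 109349) (.g (nat_lit 3608) (.e (nat_lit 5355) (nat_lit 298) (.e (nat_lit 1661) (nat_lit 115) (.e (nat_lit 393260) (nat_lit 21) (.e (nat_lit 409648) (nat_lit 18) (.e (nat_lit 303108) (nat_lit 0) (.e (nat_lit 3469) (nat_lit 217) (.e (nat_lit 696324) (nat_lit 0) (.e (nat_lit 2448) (nat_lit 157) .nil)))))))) (.g (nat_lit 6) .nil .nil)))) (.nd (nat_lit 5) 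
(.lf (nat_lit 109333) (.g (nat_lit 1028) (.e (nat_lit 5355) (nat_lit 298) (.e (nat_lit 1661) (nat_lit 115) (.e (nat_lit 393260) (nat_lit 21) (.e (nat_lit 409648) (nat_lit 18) .nil)))) .nil)) 
(.lf (nat_lit 109365) (.g (nat_lit 2345) (.e (nat_lit 5355) (nat_lit 298) (.e (nat_lit 1661) (nat_lit 115) (.e (nat_lit 393260) (nat_lit 21) (.e (nat_lit 409648) (nat_lit 18) (.e (nat_lit 303114) (nat_lit 1) (.e (nat_lit 164171) (nat_lit 153) (.e (nat_lit 8192) (nat_lit 0) .nil))))))) (.g (nat_lit 4) .nil .nil))))) (.nd (nat_lit 4) (.nd (nat_lit 5) 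
(.lf (nat_lit 109325) (.g (nat_lit 4046) (.e (nat_lit 5355) (nat_lit 298) (.e (nat_lit 1661) (nat_lit 115) (.e (nat_lit 393260) (nat_lit 21) (.e (nat_lit 409645) (nat_lit 18) (.e (nat_lit 303112) (nat_lit 0) (.e (nat_lit 2478) (nat_lit 157) (.e (nat_lit 6387) (nat_lit 338) (.e (nat_lit 8193) (nat_lit 0) .nil)))))))) (.g (nat_lit 5) .nil .nil))) 
(.lf (nat_lit 109357) (.g (nat_lit 2167) (.e (nat_lit 5355) (nat_lit 298) (.e (nat_lit 1661) (nat_lit 115) (.e (nat_lit 393260) (nat_lit 21) (.e (nat_lit 409648) (nat_lit 18) (.e (nat_lit 303110) (nat_lit 0) .nil))))) .nil))) (.nd (nat_lit 5) 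
(.lf (nat_lit 109341) (.g (nat_lit 2037) (.e (nat_lit 5355) (nat_lit 298) (.e (nat_lit 1661) (nat_lit 115) (.e (nat_lit 393260) (nat_lit 21) (.e (nat_lit 409648) (nat_lit 18) (.e (nat_lit 303108) (nat_lit 0) .nil))))) .nil)) 
(.lf (nat_lit 109373) (.g (nat_lit 3157) (.e (nat_lit 5355) (nat_lit 298) (.e (nat_lit 1661) (nat_lit 115) (.e (nat_lit 393260) (nat_lit 21) (.e (nat_lit 409648) (nat_lit 18) (.e (nat_lit 303115) (nat_lit 1) (.e (nat_lit 164151) (nat_lit 152) (.e (nat_lit 87) (nat_lit 0) (.e (nat_lit 2426) (nat_lit 157) .nil)))))))) (.g (nat_lit 7) .nil .nil))))))) 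
(.nd (nat_lit 2) (.nd (nat_lit 3) (.nd (nat_lit 4) (.nd (nat_lit 5) 
(.lf (nat_lit 109315) (.g (nat_lit 1961) (.e (nat_lit 5355) (nat_lit 298) (.e (nat_lit 1661) (nat_lit 115) (.e (nat_lit 393260) (nat_lit 21) (.e (nat_lit 409643) (nat_lit 18) (.e (nat_lit 303115) (nat_lit 1) (.e (nat_lit 164148) (nat_lit 152) (.e (nat_lit 23) (nat_lit 0) (.e (nat_lit 2441) (nat_lit 157) .nil)))))))) (.g (nat_lit 4) .nil .nil))) 
(.lf (nat_lit 109347) (.g (nat_lit 2185) (.e (nat_lit 5355) (nat_lit 298) (.e (nat_lit 1661) (nat_lit 115) (.e (nat_lit 393260) (nat_lit 21) (.e (nat_lit 409648) (nat_lit 18) (.e (nat_lit 303108) (nat_lit 0) (.e (nat_lit 3469) (nat_lit 217) (.e (nat_lit 696324) (nat_lit 0) (.e (nat_lit 2427) (nat_lit 157) .nil)))))))) (.g (nat_lit 4) .nil .nil)))) (.nd (nat_lit 5) 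
(.lf (nat_lit 109331) (.g (nat_lit 2484) (.e (nat_lit 5355) (nat_lit 298) (.e (nat_lit 1661) (nat_lit 115) (.e (nat_lit 393260) (nat_lit 21) (.e (nat_lit 409646) (nat_lit 18) (.e (nat_lit 303115) (nat_lit 1) .nil))))) .nil)) 
(.lf (nat_lit 109363) (.g (nat_lit 1975) (.e (nat_lit 5355) (nat_lit 298) (.e (nat_lit 1661) (nat_lit 115) (.e (nat_lit 393260) (nat_lit 21) (.e (nat_lit 409648) (nat_lit 18) (.e (nat_lit 303114) (nat_lit 1) (.e (nat_lit 164151) (nat_lit 152) (.e (nat_lit 3) (nat_lit 0) (.e (nat_lit 2450) (nat_lit 157) .nil)))))))) (.g (nat_lit 4) .nil .nil))))) (.nd (nat_lit 4) (.nd (nat_lit 5) 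
(.lf (nat_lit 109323) (.g (nat_lit 1755) (.e (nat_lit 5355) (nat_lit 298) (.e (nat_lit 1661) (nat_lit 115) (.e (nat_lit 393260) (nat_lit 21) (.e (nat_lit 409645) (nat_lit 18) .nil)))) .nil)) 
(.lf (nat_lit 109355) (.g (nat_lit 2091) (.e (nat_lit 5355) (nat_lit 298) (.e (nat_lit 1661) (nat_lit 115) (.e (nat_lit 393260) (nat_lit 21) (.e (nat_lit 409648) (nat_lit 18) (.e (nat_lit 303109) (nat_lit 0) (.e (nat_lit 3469) (nat_lit 217) (.e (nat_lit 696324) (nat_lit 0) (.e (nat_lit 2448) (nat_lit 157) .nil)))))))) (.g (nat_lit 4) .nil .nil)))) (.nd (nat_lit 5) 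
(.lf (nat_lit 109339) (.g (nat_lit 2316) (.e (nat_lit 5355) (nat_lit 298) (.e (nat_lit 1661) (nat_lit 115) (.e (nat_lit 393260) (nat_lit 21) (.e (nat_lit 409648) (nat_lit 18) (.e (nat_lit 303107) (nat_lit 0) (.e (nat_lit 3459) (nat_lit 216) (.e (nat_lit 688131) (nat_lit 0) (.e (nat_lit 2442) (nat_lit 157) .nil)))))))) (.g (nat_lit 4) .nil .nil))) 
(.lf (nat_lit 109371) (.g (nat_lit 1914) (.e (nat_lit 5355) (nat_lit 298) (.e (nat_lit 1661) (nat_lit 115) (.e (nat_lit 393260) (nat_lit 21) (.e (nat_lit 409648) (nat_lit 18) (.e (nat_lit 303115) (nat_lit 1) (.e (nat_lit 164151) (nat_lit 152) (.e (nat_lit 23) (nat_lit 0) (.e (nat_lit 2450) (nat_lit 157) .nil)))))))) (.g (nat_lit 4) .nil .nil)))))) 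
(.nd (nat_lit 3) (.nd (nat_lit 4) (.nd (nat_lit 5) 
(.lf (nat_lit 109319) (.g (nat_lit 2432) (.e (nat_lit 5355) (nat_lit 298) (.e (nat_lit 1661) (nat_lit 115) (.e (nat_lit 393260) (nat_lit 21) (.e (nat_lit 409643) (nat_lit 18) (.e (nat_lit 303115) (nat_lit 1) (.e (nat_lit 164172) (nat_lit 153) (.e (nat_lit 8192) (nat_lit 0) .nil))))))) (.g (nat_lit 5) .nil .nil))) 
(.lf (nat_lit 109351) (.g (nat_lit 1963) (.e (nat_lit 5355) (nat_lit 298) (.e (nat_lit 1661) (nat_lit 115) (.e (nat_lit 393260) (nat_lit 21) (.e (nat_lit 409648) (nat_lit 18) (.e (nat_lit 303109) (nat_lit 0) .nil))))) .nil))) (.nd (nat_lit 5) 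
(.lf (nat_lit 109335) (.g (nat_lit 2258) (.e (nat_lit 5355) (nat_lit 298) (.e (nat_lit 1661) (nat_lit 115) (.e (nat_lit 393260) (nat_lit 21) (.e (nat_lit 409648) (nat_lit 18) (.e (nat_lit 303104) (nat_lit 0) (.e (nat_lit 2449) (nat_lit 157) (.e (nat_lit 6378) (nat_lit 338) (.e (nat_lit 8193) (nat_lit 0) .nil)))))))) (.g (nat_lit 4) .nil .nil))) 
(.lf (nat_lit 109367) (.g (nat_lit 2264) (.e (nat_lit 5355) (nat_lit 298) (.e (nat_lit 1661) (nat_lit 115) (.e (nat_lit 393260) (nat_lit 21) (.e (nat_lit 409648) (nat_lit 18) (.e (nat_lit 303114) (nat_lit 1) (.e (nat_lit 164174) (nat_lit 153) (.e (nat_lit 8194) (nat_lit 0) .nil))))))) (.g (nat_lit 4) .nil .nil))))) (.nd (nat_lit 4) (.nd (nat_lit 5) 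
(.lf (nat_lit 109327) (.g (nat_lit 2803) (.e (nat_lit 5355) (nat_lit 298) (.e (nat_lit 1661) (nat_lit 115) (.e (nat_lit 393260) (nat_lit 21) (.e (nat_lit 409645) (nat_lit 18) (.e (nat_lit 303115) (nat_lit 1) (.e (nat_lit 164151) (nat_lit 152) (.e (nat_lit 87) (nat_lit 0) (.e (nat_lit 2427) (nat_lit 157) .nil)))))))) (.g (nat_lit 4) .nil .nil))) 
(.lf (nat_lit 109359) (.g (nat_lit 2884) (.e (nat_lit 5355) (nat_lit 298) (.e (nat_lit 1661) (nat_lit 115) (.e (nat_lit 393260) (nat_lit 21) (.e (nat_lit 409648) (nat_lit 18) (.e (nat_lit 303112) (nat_lit 0) (.e (nat_lit 2478) (nat_lit 157) (.e (nat_lit 6387) (nat_lit 338) (.e (nat_lit 8192) (nat_lit 0) .nil)))))))) (.g (nat_lit 5) .nil .nil)))) (.nd (nat_lit 5) 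
(.lf (nat_lit 109343) (.g (nat_lit 2571) (.e (nat_lit 5355) (nat_lit 298) (.e (nat_lit 1661) (nat_lit 115) (.e (nat_lit 393260) (nat_lit 21) (.e (nat_lit 409648) (nat_lit 18) (.e (nat_lit 303108) (nat_lit 0) (.e (nat_lit 3469) (nat_lit 217) (.e (nat_lit 696320) (nat_lit 0) (.e (nat_lit 2440) (nat_lit 157) .nil)))))))) (.g (nat_lit 4) .nil .nil))) 
(.lf (nat_lit 109375) (.g (nat_lit 2461) (.e (nat_lit 5355) (nat_lit 298) (.e (nat_lit 1661) (nat_lit 115) (.e (nat_lit 393260) (nat_lit 21) (.e (nat_lit 409648) (nat_lit 18) (.e (nat_lit 303115) (nat_lit 1) (.e (nat_lit 164172) (nat_lit 153) (.e (nat_lit 8194) (nat_lit 0) .nil))))))) (.g (nat_lit 5) .nil .nil)))))))))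

noncomputable def tv1477 : DT := (.nd (nat_lit 0) (.nd (nat_lit 1) (.nd (nat_lit 2) (.nd (nat_lit 3) (.nd (nat_lit 4) (.nd (nat_lit 5) 
(.lf (nat_lit 109376) (.g (nat_lit 2244) (.e (nat_lit 5355) (nat_lit 298) (.e (nat_lit 1661) (nat_lit 115) (.e (nat_lit 393260) (nat_lit 21) (.e (nat_lit 409648) (nat_lit 18) (.e (nat_lit 303115) (nat_lit 1) (.e (nat_lit 164174) (nat_lit 153) (.e (nat_lit 8192) (nat_lit 0) .nil))))))) (.g (nat_lit 4) .nil .nil))) 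
(.lf (nat_lit 109408) (.g (nat_lit 2352) (.e (nat_lit 5355) (nat_lit 298) (.e (nat_lit 1661) (nat_lit 115) (.e (nat_lit 393260) (nat_lit 21) (.e (nat_lit 409649) (nat_lit 18) (.e (nat_lit 303111) (nat_lit 0) (.e (nat_lit 3468) (nat_lit 217) (.e (nat_lit 696324) (nat_lit 0) (.e (nat_lit 2449) (nat_lit 157) .nil)))))))) (.g (nat_lit 4) .nil .nil)))) (.nd (nat_lit 5) 
(.lf (nat_lit 109392) (.g (nat_lit 1845) (.e (nat_lit 5355) (nat_lit 298) (.e (nat_lit 1661) (nat_lit 115) (.e (nat_lit 393260) (nat_lit 21) (.e (nat_lit 409649) (nat_lit 18) (.e (nat_lit 303111) (nat_lit 0) .nil))))) .nil)) 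
(.lf (nat_lit 109424) (.g (nat_lit 2453) (.e (nat_lit 5355) (nat_lit 298) (.e (nat_lit 1661) (nat_lit 115) (.e (nat_lit 393260) (nat_lit 21) (.e (nat_lit 409649) (nat_lit 18) (.e (nat_lit 303114) (nat_lit 1) (.e (nat_lit 164175) (nat_lit 153) (.e (nat_lit 8193) (nat_lit 0) .nil))))))) (.g (nat_lit 4) .nil .nil))))) (.nd (nat_lit 4) (.nd (nat_lit 5) 
(.lf (nat_lit 109384) (.g (nat_lit 2661) (.e (nat_lit 5355) (nat_lit 298) (.e (nat_lit 1661) (nat_lit 115) (.e (nat_lit 393260) (nat_lit 21) (.e (nat_lit 409648) (nat_lit 18) (.e (nat_lit 303149) (nat_lit 15) (.e (nat_lit 6112) (nat_lit 332) (.e (nat_lit 970) (nat_lit 81) .nil))))))) (.g (nat_lit 5) .nil .nil))) 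
(.lf (nat_lit 109416) (.g (nat_lit 3961) (.e (nat_lit 5355) (nat_lit 298) (.e (nat_lit 1661) (nat_lit 115) (.e (nat_lit 393260) (nat_lit 21) (.e (nat_lit 409649) (nat_lit 18) (.e (nat_lit 303111) (nat_lit 0) (.e (nat_lit 3469) (nat_lit 217) (.e (nat_lit 696324) (nat_lit 0) (.e (nat_lit 2442) (nat_lit 157) .nil)))))))) (.g (nat_lit 8) .nil .nil)))) (.nd (nat_lit 5) 
(.lf (nat_lit 109400) (.g (nat_lit 3869) (.e (nat_lit 5355) (nat_lit 298) (.e (nat_lit 1661) (nat_lit 115) (.e (nat_lit 393260) (nat_lit 21) (.e (nat_lit 409649) (nat_lit 18) (.e (nat_lit 303111) (nat_lit 0) (.e (nat_lit 3459) (nat_lit 216) (.e (nat_lit 688129) (nat_lit 0) (.e (nat_lit 2440) (nat_lit 157) .nil)))))))) (.g (nat_lit 6) .nil .nil))) 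
(.lf (nat_lit 109432) (.g (nat_lit 2898) (.e (nat_lit 5355) (nat_lit 298) (.e (nat_lit 1661) (nat_lit 115) (.e (nat_lit 393260) (nat_lit 21) (.e (nat_lit 409649) (nat_lit 18) (.e (nat_lit 303115) (nat_lit 1) (.e (nat_lit 164172) (nat_lit 153) (.e (nat_lit 8194) (nat_lit 0) .nil))))))) (.g (nat_lit 5) .nil .nil)))))) (.nd (nat_lit 3) (.nd (nat_lit 4) (.nd (nat_lit 5) 
(.lf (nat_lit 109380) (.g (nat_lit 1668) (.e (nat_lit 5355) (nat_lit 298) (.e (nat_lit 1661) (nat_lit 115) (.e (nat_lit 393260) (nat_lit 21) (.e (nat_lit 409648) (nat_lit 18) (.e (nat_lit 303149) (nat_lit 15) .nil))))) .nil)) 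
(.lf (nat_lit 109412) (.g (nat_lit 3713) (.e (nat_lit 5355) (nat_lit 298) (.e (nat_lit 1661) (nat_lit 115) (.e (nat_lit 393260) (nat_lit 21) (.e (nat_lit 409649) (nat_lit 18) (.e (nat_lit 303111) (nat_lit 0) (.e (nat_lit 3469) (nat_lit 217) (.e (nat_lit 696324) (nat_lit 0) (.e (nat_lit 2416) (nat_lit 157) .nil)))))))) (.g (nat_lit 7) .nil .nil)))) (.nd (nat_lit 5) 
(.lf (nat_lit 109396) (.g (nat_lit 3331) (.e (nat_lit 5355) (nat_lit 298) (.e (nat_lit 1661) (nat_lit 115) (.e (nat_lit 393260) (nat_lit 21) (.e (nat_lit 409649) (nat_lit 18) (.e (nat_lit 303111) (nat_lit 0) (.e (nat_lit 2438) (nat_lit 157) (.e (nat_lit 6383) (nat_lit 338) (.e (nat_lit 8193) (nat_lit 0) .nil)))))))) (.g (nat_lit 5) .nil .nil))) 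
(.lf (nat_lit 109428) (.g (nat_lit 2992) (.e (nat_lit 5355) (nat_lit 298) (.e (nat_lit 1661) (nat_lit 115) (.e (nat_lit 393260) (nat_lit 21) (.e (nat_lit 409649) (nat_lit 18) (.e (nat_lit 303115) (nat_lit 1) (.e (nat_lit 164150) (nat_lit 152) (.e (nat_lit 23) (nat_lit 0) (.e (nat_lit 2450) (nat_lit 157) .nil)))))))) (.g (nat_lit 6) .nil .nil))))) (.nd (nat_lit 4) (.nd (nat_lit 5) 
(.lf (nat_lit 109388) (.g (nat_lit 3137) (.e (nat_lit 5355) (nat_lit 298) (.e (nat_lit 1661) (nat_lit 115) (.e (nat_lit 393260) (nat_lit 21) (.e (nat_lit 409649) (nat_lit 18) (.e (nat_lit 303107) (nat_lit 0) (.e (nat_lit 3459) (nat_lit 216) (.e (nat_lit 688129) (nat_lit 0) (.e (nat_lit 2440) (nat_lit 157) .nil)))))))) (.g (nat_lit 6) .nil .nil))) 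
(.lf (nat_lit 109420) (.g (nat_lit 1968) (.e (nat_lit 5355) (nat_lit 298) (.e (nat_lit 1661) (nat_lit 115) (.e (nat_lit 393260) (nat_lit 21) (.e (nat_lit 409649) (nat_lit 18) (.e (nat_lit 303114) (nat_lit 1) .nil))))) .nil))) (.nd (nat_lit 5) 
(.lf (nat_lit 109404) (.g (nat_lit 3011) (.e (nat_lit 5355) (nat_lit 298) (.e (nat_lit 1661) (nat_lit 115) (.e (nat_lit 393260) (nat_lit 21) (.e (nat_lit 409649) (nat_lit 18) (.e (nat_lit 303111) (nat_lit 0) (.e (nat_lit 3468) (nat_lit 217) (.e (nat_lit 696320) (nat_lit 0) (.e (nat_lit 2440) (nat_lit 157) .nil)))))))) (.g (nat_lit 5) .nil .nil))) 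
(.lf (nat_lit 109436) (.g (nat_lit 1872) (.e (nat_lit 5355) (nat_lit 298) (.e (nat_lit 1661) (nat_lit 115) (.e (nat_lit 393260) (nat_lit 21) (.e (nat_lit 409649) (nat_lit 18) (.e (nat_lit 303147) (nat_lit 15) .nil))))) .nil)))))) (.nd (nat_lit 2) (.nd (nat_lit 3) (.nd (nat_lit 4) (.nd (nat_lit 5) 
(.lf (nat_lit 109378) (.g (nat_lit 2221) (.e (nat_lit 5355) (nat_lit 298) (.e (nat_lit 1661) (nat_lit 115) (.e (nat_lit 393260) (nat_lit 21) (.e (nat_lit 409648) (nat_lit 18) (.e (nat_lit 303120) (nat_lit 4) .nil))))) .nil)) 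
(.lf (nat_lit 109410) (.g (nat_lit 2915) (.e (nat_lit 5355) (nat_lit 298) (.e (nat_lit 1661) (nat_lit 115) (.e (nat_lit 393260) (nat_lit 21) (.e (nat_lit 409649) (nat_lit 18) (.e (nat_lit 303111) (nat_lit 0) (.e (nat_lit 3469) (nat_lit 217) (.e (nat_lit 696320) (nat_lit 0) (.e (nat_lit 2440) (nat_lit 157) .nil)))))))) (.g (nat_lit 5) .nil .nil)))) (.nd (nat_lit 5) 
(.lf (nat_lit 109394) (.g (nat_lit 2514) (.e (nat_lit 5355) (nat_lit 298) (.e (nat_lit 1661) (nat_lit 115) (.e (nat_lit 393260) (nat_lit 21) (.e (nat_lit 409649) (nat_lit 18) (.e (nat_lit 303111) (nat_lit 0) (.e (nat_lit 2425) (nat_lit 157) (.e (nat_lit 6380) (nat_lit 338) (.e (nat_lit 8193) (nat_lit 0) .nil)))))))) (.g (nat_lit 4) .nil .nil))) 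
(.lf (nat_lit 109426) (.g (nat_lit 3222) (.e (nat_lit 5355) (nat_lit 298) (.e (nat_lit 1661) (nat_lit 115) (.e (nat_lit 393260) (nat_lit 21) (.e (nat_lit 409649) (nat_lit 18) (.e (nat_lit 303115) (nat_lit 1) (.e (nat_lit 164148) (nat_lit 152) (.e (nat_lit 23) (nat_lit 0) (.e (nat_lit 2450) (nat_lit 157) .nil)))))))) (.g (nat_lit 6) .nil .nil))))) (.nd (nat_lit 4) (.nd (nat_lit 5) 
(.lf (nat_lit 109386) (.g (nat_lit 1154) (.e (nat_lit 5355) (nat_lit 298) (.e (nat_lit 1661) (nat_lit 115) (.e (nat_lit 393260) (nat_lit 21) (.e (nat_lit 409649) (nat_lit 18) .nil)))) .nil)) 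
(.lf (nat_lit 109418) (.g (nat_lit 1882) (.e (nat_lit 5355) (nat_lit 298) (.e (nat_lit 1661) (nat_lit 115) (.e (nat_lit 393260) (nat_lit 21) (.e (nat_lit 409649) (nat_lit 18) (.e (nat_lit 303112) (nat_lit 0) .nil))))) .nil))) (.nd (nat_lit 5) 
(.lf (nat_lit 109402) (.g (nat_lit 3503) (.e (nat_lit 5355) (nat_lit 298) (.e (nat_lit 1661) (nat_lit 115) (.e (nat_lit 393260) (nat_lit 21) (.e (nat_lit 409649) (nat_lit 18) (.e (nat_lit 303111) (nat_lit 0) (.e (nat_lit 3459) (nat_lit 216) (.e (nat_lit 688131) (nat_lit 0) (.e (nat_lit 2443) (nat_lit 157) .nil)))))))) (.g (nat_lit 6) .nil .nil))) 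
(.lf (nat_lit 109434) (.g (nat_lit 2720) (.e (nat_lit 5355) (nat_lit 298) (.e (nat_lit 1661) (nat_lit 115) (.e (nat_lit 393260) (nat_lit 21) (.e (nat_lit 409649) (nat_lit 18) (.e (nat_lit 303115) (nat_lit 1) (.e (nat_lit 164173) (nat_lit 153) (.e (nat_lit 8193) (nat_lit 0) .nil))))))) (.g (nat_lit 5) .nil .nil)))))) (.nd (nat_lit 3) (.nd (nat_lit 4) (.nd (nat_lit 5) 
(.lf (nat_lit 109382) (.g (nat_lit 1775) (.e (nat_lit 5355) (nat_lit 298) (.e (nat_lit 1661) (nat_lit 115) (.e (nat_lit 393260) (nat_lit 21) (.e (nat_lit 409648) (nat_lit 18) (.e (nat_lit 303149) (nat_lit 15) (.e (nat_lit 6098) (nat_lit 332) (.e (nat_lit 1050) (nat_lit 81) .nil))))))) (.g (nat_lit 4) .nil .nil))) 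
(.lf (nat_lit 109414) (.g (nat_lit 3227) (.e (nat_lit 5355) (nat_lit 298) (.e (nat_lit 1661) (nat_lit 115) (.e (nat_lit 393260) (nat_lit 21) (.e (nat_lit 409649) (nat_lit 18) (.e (nat_lit 303111) (nat_lit 0) (.e (nat_lit 3469) (nat_lit 217) (.e (nat_lit 696324) (nat_lit 0) (.e (nat_lit 2426) (nat_lit 157) .nil)))))))) (.g (nat_lit 6) .nil .nil)))) (.nd (nat_lit 5) 
(.lf (nat_lit 109398) (.g (nat_lit 3212) (.e (nat_lit 5355) (nat_lit 298) (.e (nat_lit 1661) (nat_lit 115) (.e (nat_lit 393260) (nat_lit 21) (.e (nat_lit 409649) (nat_lit 18) (.e (nat_lit 303111) (nat_lit 0) (.e (nat_lit 2449) (nat_lit 157) (.e (nat_lit 6378) (nat_lit 338) (.e (nat_lit 8193) (nat_lit 0) .nil)))))))) (.g (nat_lit 5) .nil .nil))) 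
(.lf (nat_lit 109430) (.g (nat_lit 2247) (.e (nat_lit 5355) (nat_lit 298) (.e (nat_lit 1661) (nat_lit 115) (.e (nat_lit 393260) (nat_lit 21) (.e (nat_lit 409649) (nat_lit 18) (.e (nat_lit 303115) (nat_lit 1) (.e (nat_lit 164151) (nat_lit 152) (.e (nat_lit 23) (nat_lit 0) (.e (nat_lit 2450) (nat_lit 157) .nil)))))))) (.g (nat_lit 4) .nil .nil))))) (.nd (nat_lit 4) (.nd (nat_lit 5) 
(.lf (nat_lit 109390) (.g (nat_lit 2788) (.e (nat_lit 5355) (nat_lit 298) (.e (nat_lit 1661) (nat_lit 115) (.e (nat_lit 393260) (nat_lit 21) (.e (nat_lit 409649) (nat_lit 18) (.e (nat_lit 303107) (nat_lit 0) (.e (nat_lit 3459) (nat_lit 216) (.e (nat_lit 688131) (nat_lit 0) (.e (nat_lit 2443) (nat_lit 157) .nil)))))))) (.g (nat_lit 4) .nil .nil))) 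
(.lf (nat_lit 109422) (.g (nat_lit 2351) (.e (nat_lit 5355) (nat_lit 298) (.e (nat_lit 1661) (nat_lit 115) (.e (nat_lit 393260) (nat_lit 21) (.e (nat_lit 409649) (nat_lit 18) (.e (nat_lit 303114) (nat_lit 1) (.e (nat_lit 164171) (nat_lit 153) (.e (nat_lit 8193) (nat_lit 0) .nil))))))) (.g (nat_lit 4) .nil .nil)))) (.nd (nat_lit 5) 
(.lf (nat_lit 109406) (.g (nat_lit 2206) (.e (nat_lit 5355) (nat_lit 298) (.e (nat_lit 1661) (nat_lit 115) (.e (nat_lit 393260) (nat_lit 21) (.e (nat_lit 409649) (nat_lit 18) (.e (nat_lit 303111) (nat_lit 0) (.e (nat_lit 3468) (nat_lit 217) (.e (nat_lit 696324) (nat_lit 0) (.e (nat_lit 2442) (nat_lit 157) .nil)))))))) (.g (nat_lit 4) .nil .nil))) 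
(.lf (nat_lit 109438) (.g (nat_lit 2111) (.e (nat_lit 5355) (nat_lit 298) (.e (nat_lit 1661) (nat_lit 115) (.e (nat_lit 393260) (nat_lit 21) (.e (nat_lit 409649) (nat_lit 18) (.e (nat_lit 303149) (nat_lit 15) (.e (nat_lit 6098) (nat_lit 332) (.e (nat_lit 969) (nat_lit 81) .nil))))))) (.g (nat_lit 4) .nil .nil)))))))) 
(.nd (nat_lit 1) (.nd (nat_lit 2) (.nd (nat_lit 3) (.nd (nat_lit 4) (.nd (nat_lit 5) 
(.lf (nat_lit 109377) (.g (nat_lit 2145) (.e (nat_lit 5355) (nat_lit 298) (.e (nat_lit 1661) (nat_lit 115) (.e (nat_lit 393260) (nat_lit 21) (.e (nat_lit 409648) (nat_lit 18) (.e (nat_lit 303115) (nat_lit 1) (.e (nat_lit 164174) (nat_lit 153) (.e (nat_lit 8193) (nat_lit 0) .nil))))))) (.g (nat_lit 4) .nil .nil))) 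
(.lf (nat_lit 109409) (.g (nat_lit 2738) (.e (nat_lit 5355) (nat_lit 298) (.e (nat_lit 1661) (nat_lit 115) (.e (nat_lit 393260) (nat_lit 21) (.e (nat_lit 409649) (nat_lit 18) (.e (nat_lit 303111) (nat_lit 0) (.e (nat_lit 3469) (nat_lit 217) (.e (nat_lit 696320) (nat_lit 0) (.e (nat_lit 2416) (nat_lit 157) .nil)))))))) (.g (nat_lit 5) .nil .nil)))) (.nd (nat_lit 5) 
(.lf (nat_lit 109393) (.g (nat_lit 2182) (.e (nat_lit 5355) (nat_lit 298) (.e (nat_lit 1661) (nat_lit 115) (.e (nat_lit 393260) (nat_lit 21) (.e (nat_lit 409649) (nat_lit 18) (.e (nat_lit 303111) (nat_lit 0) (.e (nat_lit 2425) (nat_lit 157) (.e (nat_lit 6380) (nat_lit 338) (.e (nat_lit 8192) (nat_lit 0) .nil)))))))) (.g (nat_lit 4) .nil .nil))) 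
(.lf (nat_lit 109425) (.g (nat_lit 2886) (.e (nat_lit 5355) (nat_lit 298) (.e (nat_lit 1661) (nat_lit 115) (.e (nat_lit 393260) (nat_lit 21) (.e (nat_lit 409649) (nat_lit 18) (.e (nat_lit 303115) (nat_lit 1) (.e (nat_lit 164148) (nat_lit 152) (.e (nat_lit 23) (nat_lit 0) (.e (nat_lit 2441) (nat_lit 157) .nil)))))))) (.g (nat_lit 5) .nil .nil))))) (.nd (nat_lit 4) (.nd (nat_lit 5) 
(.lf (nat_lit 109385) (.g (nat_lit 2555) (.e (nat_lit 5355) (nat_lit 298) (.e (nat_lit 1661) (nat_lit 115) (.e (nat_lit 393260) (nat_lit 21) (.e (nat_lit 409648) (nat_lit 18) (.e (nat_lit 311040) (nat_lit 25) (.e (nat_lit 327424) (nat_lit 10) .nil)))))) (.g (nat_lit 4) .nil .nil))) 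
(.lf (nat_lit 109417) (.g (nat_lit 3933) (.e (nat_lit 5355) (nat_lit 298) (.e (nat_lit 1661) (nat_lit 115) (.e (nat_lit 393260) (nat_lit 21) (.e (nat_lit 409649) (nat_lit 18) (.e (nat_lit 303111) (nat_lit 0) (.e (nat_lit 3469) (nat_lit 217) (.e (nat_lit 696324) (nat_lit 0) (.e (nat_lit 2448) (nat_lit 157) .nil)))))))) (.g (nat_lit 8) .nil .nil)))) (.nd (nat_lit 5) 
(.lf (nat_lit 109401) (.g (nat_lit 2989) (.e (nat_lit 5355) (nat_lit 298) (.e (nat_lit 1661) (nat_lit 115) (.e (nat_lit 393260) (nat_lit 21) (.e (nat_lit 409649) (nat_lit 18) (.e (nat_lit 303111) (nat_lit 0) (.e (nat_lit 3459) (nat_lit 216) (.e (nat_lit 688131) (nat_lit 0) (.e (nat_lit 2442) (nat_lit 157) .nil)))))))) (.g (nat_lit 5) .nil .nil))) 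
(.lf (nat_lit 109433) (.g (nat_lit 2891) (.e (nat_lit 5355) (nat_lit 298) (.e (nat_lit 1661) (nat_lit 115) (.e (nat_lit 393260) (nat_lit 21) (.e (nat_lit 409649) (nat_lit 18) (.e (nat_lit 303115) (nat_lit 1) (.e (nat_lit 164173) (nat_lit 153) (.e (nat_lit 8192) (nat_lit 0) .nil))))))) (.g (nat_lit 5) .nil .nil)))))) (.nd (nat_lit 3) (.nd (nat_lit 4) (.nd (nat_lit 5) 
(.lf (nat_lit 109381) (.g (nat_lit 1747) (.e (nat_lit 5355) (nat_lit 298) (.e (nat_lit 1661) (nat_lit 115) (.e (nat_lit 393260) (nat_lit 21) (.e (nat_lit 409648) (nat_lit 18) (.e (nat_lit 303149) (nat_lit 15) (.e (nat_lit 6098) (nat_lit 332) (.e (nat_lit 971) (nat_lit 81) .nil))))))) (.g (nat_lit 4) .nil .nil))) 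
(.lf (nat_lit 109413) (.g (nat_lit 3003) (.e (nat_lit 5355) (nat_lit 298) (.e (nat_lit 1661) (nat_lit 115) (.e (nat_lit 393260) (nat_lit 21) (.e (nat_lit 409649) (nat_lit 18) (.e (nat_lit 303111) (nat_lit 0) (.e (nat_lit 3469) (nat_lit 217) (.e (nat_lit 696324) (nat_lit 0) (.e (nat_lit 2422) (nat_lit 157) .nil)))))))) (.g (nat_lit 5) .nil .nil)))) (.nd (nat_lit 5) 
(.lf (nat_lit 109397) (.g (nat_lit 2102) (.e (nat_lit 5355) (nat_lit 298) (.e (nat_lit 1661) (nat_lit 115) (.e (nat_lit 393260) (nat_lit 21) (.e (nat_lit 409649) (nat_lit 18) (.e (nat_lit 303111) (nat_lit 0) (.e (nat_lit 2438) (nat_lit 157) (.e (nat_lit 6383) (nat_lit 338) (.e (nat_lit 8194) (nat_lit 0) .nil)))))))) (.g (nat_lit 4) .nil .nil))) 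
(.lf (nat_lit 109429) (.g (nat_lit 1911) (.e (nat_lit 5355) (nat_lit 298) (.e (nat_lit 1661) (nat_lit 115) (.e (nat_lit 393260) (nat_lit 21) (.e (nat_lit 409649) (nat_lit 18) (.e (nat_lit 303115) (nat_lit 1) (.e (nat_lit 164151) (nat_lit 152) (.e (nat_lit 23) (nat_lit 0) (.e (nat_lit 2441) (nat_lit 157) .nil)))))))) (.g (nat_lit 4) .nil .nil))))) (.nd (nat_lit 4) (.nd (nat_lit 5) 
(.lf (nat_lit 109389) (.g (nat_lit 2274) (.e (nat_lit 5355) (nat_lit 298) (.e (nat_lit 1661) (nat_lit 115) (.e (nat_lit 393260) (nat_lit 21) (.e (nat_lit 409649) (nat_lit 18) (.e (nat_lit 303107) (nat_lit 0) (.e (nat_lit 3459) (nat_lit 216) (.e (nat_lit 688131) (nat_lit 0) (.e (nat_lit 2442) (nat_lit 157) .nil)))))))) (.g (nat_lit 4) .nil .nil))) 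
(.lf (nat_lit 109421) (.g (nat_lit 2216) (.e (nat_lit 5355) (nat_lit 298) (.e (nat_lit 1661) (nat_lit 115) (.e (nat_lit 393260) (nat_lit 21) (.e (nat_lit 409649) (nat_lit 18) (.e (nat_lit 303114) (nat_lit 1) (.e (nat_lit 164150) (nat_lit 152) (.e (nat_lit 23) (nat_lit 0) (.e (nat_lit 2450) (nat_lit 157) .nil)))))))) (.g (nat_lit 4) .nil .nil)))) (.nd (nat_lit 5) 
(.lf (nat_lit 109405) (.g (nat_lit 1958) (.e (nat_lit 5355) (nat_lit 298) (.e (nat_lit 1661) (nat_lit 115) (.e (nat_lit 393260) (nat_lit 21) (.e (nat_lit 409649) (nat_lit 18) (.e (nat_lit 303111) (nat_lit 0) (.e (nat_lit 3468) (nat_lit 217) (.e (nat_lit 696324) (nat_lit 0) (.e (nat_lit 2416) (nat_lit 157) .nil)))))))) (.g (nat_lit 4) .nil .nil))) 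
(.lf (nat_lit 109437) (.g (nat_lit 1635) (.e (nat_lit 5355) (nat_lit 298) (.e (nat_lit 1661) (nat_lit 115) (.e (nat_lit 393260) (nat_lit 21) (.e (nat_lit 409649) (nat_lit 18) (.e (nat_lit 303149) (nat_lit 15) .nil))))) .nil)))))) (.nd (nat_lit 2) (.nd (nat_lit 3) (.nd (nat_lit 4) (.nd (nat_lit 5) 
(.lf (nat_lit 109379) (.g (nat_lit 1835) (.e (nat_lit 5355) (nat_lit 298) (.e (nat_lit 1661) (nat_lit 115) (.e (nat_lit 393260) (nat_lit 21) (.e (nat_lit 409648) (nat_lit 18) (.e (nat_lit 303147) (nat_lit 15) .nil))))) .nil)) 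
(.lf (nat_lit 109411) (.g (nat_lit 2024) (.e (nat_lit 5355) (nat_lit 298) (.e (nat_lit 1661) (nat_lit 115) (.e (nat_lit 393260) (nat_lit 21) (.e (nat_lit 409649) (nat_lit 18) (.e (nat_lit 303111) (nat_lit 0) (.e (nat_lit 3469) (nat_lit 217) (.e (nat_lit 696321) (nat_lit 0) (.e (nat_lit 2442) (nat_lit 157) .nil)))))))) (.g (nat_lit 4) .nil .nil)))) (.nd (nat_lit 5) 
(.lf (nat_lit 109395) (.g (nat_lit 2285) (.e (nat_lit 5355) (nat_lit 298) (.e (nat_lit 1661) (nat_lit 115) (.e (nat_lit 393260) (nat_lit 21) (.e (nat_lit 409649) (nat_lit 18) (.e (nat_lit 303111) (nat_lit 0) (.e (nat_lit 2438) (nat_lit 157) (.e (nat_lit 6383) (nat_lit 338) (.e (nat_lit 8192) (nat_lit 0) .nil)))))))) (.g (nat_lit 4) .nil .nil))) 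
(.lf (nat_lit 109427) (.g (nat_lit 2656) (.e (nat_lit 5355) (nat_lit 298) (.e (nat_lit 1661) (nat_lit 115) (.e (nat_lit 393260) (nat_lit 21) (.e (nat_lit 409649) (nat_lit 18) (.e (nat_lit 303115) (nat_lit 1) (.e (nat_lit 164150) (nat_lit 152) (.e (nat_lit 23) (nat_lit 0) (.e (nat_lit 2441) (nat_lit 157) .nil)))))))) (.g (nat_lit 5) .nil .nil))))) (.nd (nat_lit 4) (.nd (nat_lit 5) 
(.lf (nat_lit 109387) (.g (nat_lit 2499) (.e (nat_lit 5355) (nat_lit 298) (.e (nat_lit 1661) (nat_lit 115) (.e (nat_lit 393260) (nat_lit 21) (.e (nat_lit 409649) (nat_lit 18) (.e (nat_lit 303107) (nat_lit 0) (.e (nat_lit 3459) (nat_lit 216) (.e (nat_lit 688129) (nat_lit 0) (.e (nat_lit 2416) (nat_lit 157) .nil)))))))) (.g (nat_lit 4) .nil .nil))) 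
(.lf (nat_lit 109419) (.g (nat_lit 2122) (.e (nat_lit 5355) (nat_lit 298) (.e (nat_lit 1661) (nat_lit 115) (.e (nat_lit 393260) (nat_lit 21) (.e (nat_lit 409649) (nat_lit 18) (.e (nat_lit 303112) (nat_lit 0) (.e (nat_lit 2478) (nat_lit 157) (.e (nat_lit 6385) (nat_lit 338) (.e (nat_lit 8193) (nat_lit 0) .nil)))))))) (.g (nat_lit 4) .nil .nil)))) (.nd (nat_lit 5) 
(.lf (nat_lit 109403) (.g (nat_lit 2834) (.e (nat_lit 5355) (nat_lit 298) (.e (nat_lit 1661) (nat_lit 115) (.e (nat_lit 393260) (nat_lit 21) (.e (nat_lit 409649) (nat_lit 18) (.e (nat_lit 303111) (nat_lit 0) (.e (nat_lit 3468) (nat_lit 217) (.e (nat_lit 696320) (nat_lit 0) (.e (nat_lit 2416) (nat_lit 157) .nil)))))))) (.g (nat_lit 5) .nil .nil))) 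
(.lf (nat_lit 109435) (.g (nat_lit 2305) (.e (nat_lit 5355) (nat_lit 298) (.e (nat_lit 1661) (nat_lit 115) (.e (nat_lit 393260) (nat_lit 21) (.e (nat_lit 409649) (nat_lit 18) (.e (nat_lit 303120) (nat_lit 4) .nil))))) .nil))))) (.nd (nat_lit 3) (.nd (nat_lit 4) (.nd (nat_lit 5) 
(.lf (nat_lit 109383) (.g (nat_lit 1989) (.e (nat_lit 5355) (nat_lit 298) (.e (nat_lit 1661) (nat_lit 115) (.e (nat_lit 393260) (nat_lit 21) (.e (nat_lit 409648) (nat_lit 18) (.e (nat_lit 303149) (nat_lit 15) (.e (nat_lit 6099) (nat_lit 332) (.e (nat_lit 1049) (nat_lit 81) .nil))))))) (.g (nat_lit 4) .nil .nil))) 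
(.lf (nat_lit 109415) (.g (nat_lit 2510) (.e (nat_lit 5355) (nat_lit 298) (.e (nat_lit 1661) (nat_lit 115) (.e (nat_lit 393260) (nat_lit 21) (.e (nat_lit 409649) (nat_lit 18) (.e (nat_lit 303111) (nat_lit 0) (.e (nat_lit 3469) (nat_lit 217) (.e (nat_lit 696324) (nat_lit 0) (.e (nat_lit 2427) (nat_lit 157) .nil)))))))) (.g (nat_lit 4) .nil .nil)))) (.nd (nat_lit 5) 
(.lf (nat_lit 109399) (.g (nat_lit 2442) (.e (nat_lit 5355) (nat_lit 298) (.e (nat_lit 1661) (nat_lit 115) (.e (nat_lit 393260) (nat_lit 21) (.e (nat_lit 409649) (nat_lit 18) (.e (nat_lit 303111) (nat_lit 0) (.e (nat_lit 2449) (nat_lit 157) (.e (nat_lit 6378) (nat_lit 338) (.e (nat_lit 8194) (nat_lit 0) .nil)))))))) (.g (nat_lit 4) .nil .nil))) 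
(.lf (nat_lit 109431) (.g (nat_lit 2256) (.e (nat_lit 5355) (nat_lit 298) (.e (nat_lit 1661) (nat_lit 115) (.e (nat_lit 393260) (nat_lit 21) (.e (nat_lit 409649) (nat_lit 18) (.e (nat_lit 303115) (nat_lit 1) (.e (nat_lit 164151) (nat_lit 152) (.e (nat_lit 87) (nat_lit 0) (.e (nat_lit 2449) (nat_lit 157) .nil)))))))) (.g (nat_lit 4) .nil .nil))))) (.nd (nat_lit 4) (.nd (nat_lit 5) 
(.lf (nat_lit 109391) (.g (nat_lit 2379) (.e (nat_lit 5355) (nat_lit 298) (.e (nat_lit 1661) (nat_lit 115) (.e (nat_lit 393260) (nat_lit 21) (.e (nat_lit 409649) (nat_lit 18) (.e (nat_lit 303108) (nat_lit 0) .nil))))) .nil)) 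
(.lf (nat_lit 109423) (.g (nat_lit 2260) (.e (nat_lit 5355) (nat_lit 298) (.e (nat_lit 1661) (nat_lit 115) (.e (nat_lit 393260) (nat_lit 21) (.e (nat_lit 409649) (nat_lit 18) (.e (nat_lit 303114) (nat_lit 1) (.e (nat_lit 164172) (nat_lit 153) (.e (nat_lit 8194) (nat_lit 0) .nil))))))) (.g (nat_lit 4) .nil .nil)))) (.nd (nat_lit 5) 
(.lf (nat_lit 109407) (.g (nat_lit 2178) (.e (nat_lit 5355) (nat_lit 298) (.e (nat_lit 1661) (nat_lit 115) (.e (nat_lit 393260) (nat_lit 21) (.e (nat_lit 409649) (nat_lit 18) (.e (nat_lit 303111) (nat_lit 0) (.e (nat_lit 3468) (nat_lit 217) (.e (nat_lit 696324) (nat_lit 0) (.e (nat_lit 2448) (nat_lit 157) .nil)))))))) (.g (nat_lit 4) .nil .nil))) 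
(.lf (nat_lit 109439) (.g (nat_lit 2163) (.e (nat_lit 5355) (nat_lit 298) (.e (nat_lit 1661) (nat_lit 115) (.e (nat_lit 393260) (nat_lit 21) (.e (nat_lit 409649) (nat_lit 18) (.e (nat_lit 303149) (nat_lit 15) (.e (nat_lit 6098) (nat_lit 332) (.e (nat_lit 971) (nat_lit 81) .nil))))))) (.g (nat_lit 4) .nil .nil)))))))))

noncomputable def tv1478 : DT := (.nd (nat_lit 0) (.nd (nat_lit 1) (.nd (nat_lit 2) (.nd (nat_lit 3) (.nd (nat_lit 4) (.nd (nat_lit 5) (.nd (nat_lit 6) 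
(.lf (nat_lit 109440) (.g (nat_lit 2191) (.e (nat_lit 5355) (nat_lit 298) (.e (nat_lit 1661) (nat_lit 115) (.e (nat_lit 393260) (nat_lit 21) (.e (nat_lit 409649) (nat_lit 18) (.e (nat_lit 303149) (nat_lit 15) (.e (nat_lit 6098) (nat_lit 332) (.e (nat_lit 1050) (nat_lit 81) .nil))))))) (.g (nat_lit 4) .nil .nil))) 
(.lf (nat_lit 109504) (.g (nat_lit 1983) (.e (nat_lit 5372) (nat_lit 298) (.e (nat_lit 1661) (nat_lit 115) (.e (nat_lit 393260) (nat_lit 21) (.e (nat_lit 409649) (nat_lit 18) .nil)))) .nil))) (.nd (nat_lit 6) 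
(.lf (nat_lit 109472) (.g (nat_lit 2412) (.e (nat_lit 5369) (nat_lit 298) (.e (nat_lit 1658) (nat_lit 115) (.e (nat_lit 393301) (nat_lit 27) (.e (nat_lit 491560) (nat_lit 10) (.e (nat_lit 344097) (nat_lit 18) .nil))))) .nil)) 
(.lf (nat_lit 109536) (.g (nat_lit 2495) (.e (nat_lit 7936) (nat_lit 298) (.e (nat_lit 1239) (nat_lit 91) (.e (nat_lit 90170) (nat_lit 13) (.e (nat_lit 172112) (nat_lit 10) .nil)))) .nil)))) (.nd (nat_lit 5) (.nd (nat_lit 6) 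
(.lf (nat_lit 109456) (.g (nat_lit 1784) (.e (nat_lit 5367) (nat_lit 298) (.e (nat_lit 1235) (nat_lit 91) (.e (nat_lit 90176) (nat_lit 15) (.e (nat_lit 188450) (nat_lit 23) (.e (nat_lit 204848) (nat_lit 25) .nil))))) .nil)) 
(.lf (nat_lit 109520) (.g (nat_lit 3711) (.e (nat_lit 7936) (nat_lit 298) (.e (nat_lit 1237) (nat_lit 91) (.e (nat_lit 90170) (nat_lit 13) (.e (nat_lit 172095) (nat_lit 9) (.e (nat_lit 426140) (nat_lit 3) .nil))))) .nil))) (.nd (nat_lit 6) 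
(.lf (nat_lit 109488) (.g (nat_lit 3840) (.e (nat_lit 5371) (nat_lit 298) (.e (nat_lit 1253) (nat_lit 92) (.e (nat_lit 98373) (nat_lit 29) (.e (nat_lit 450579) (nat_lit 5) (.e (nat_lit 532526) (nat_lit 8) .nil))))) .nil)) 
(.lf (nat_lit 109552) (.g (nat_lit 471) (.e (nat_lit 5374) (nat_lit 299) (.e (nat_lit 8234) (nat_lit 20) (.e (nat_lit 573493) (nat_lit 15) .nil))) .nil))))) (.nd (nat_lit 4) (.nd (nat_lit 5) (.nd (nat_lit 6) 
(.lf (nat_lit 109448) (.g (nat_lit 2569) (.e (nat_lit 5355) (nat_lit 298) (.e (nat_lit 1661) (nat_lit 115) (.e (nat_lit 393299) (nat_lit 27) (.e (nat_lit 491560) (nat_lit 10) (.e (nat_lit 344090) (nat_lit 18) .nil))))) .nil)) 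
(.lf (nat_lit 109512) (.g (nat_lit 1291) (.e (nat_lit 7936) (nat_lit 298) (.e (nat_lit 1234) (nat_lit 91) (.e (nat_lit 90176) (nat_lit 15) (.e (nat_lit 188424) (nat_lit 20) .nil)))) .nil))) (.nd (nat_lit 6) 
(.lf (nat_lit 109480) (.g (nat_lit 3060) (.e (nat_lit 5369) (nat_lit 298) (.e (nat_lit 1659) (nat_lit 115) (.e (nat_lit 393301) (nat_lit 27) (.e (nat_lit 491560) (nat_lit 10) (.e (nat_lit 344174) (nat_lit 42) .nil))))) .nil)) 
(.lf (nat_lit 109544) (.g (nat_lit 2023) (.e (nat_lit 7936) (nat_lit 298) (.e (nat_lit 1255) (nat_lit 92) (.e (nat_lit 98373) (nat_lit 29) (.e (nat_lit 450579) (nat_lit 5) (.e (nat_lit 532523) (nat_lit 7) .nil))))) .nil)))) (.nd (nat_lit 5) (.nd (nat_lit 6) 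
(.lf (nat_lit 109464) (.g (nat_lit 2064) (.e (nat_lit 5367) (nat_lit 298) (.e (nat_lit 1661) (nat_lit 115) (.e (nat_lit 393260) (nat_lit 21) (.e (nat_lit 409643) (nat_lit 18) .nil)))) .nil)) 
(.lf (nat_lit 109528) (.g (nat_lit 1794) (.e (nat_lit 7936) (nat_lit 298) (.e (nat_lit 1239) (nat_lit 91) (.e (nat_lit 90170) (nat_lit 13) (.e (nat_lit 172092) (nat_lit 9) (.e (nat_lit 426037) (nat_lit 0) .nil))))) .nil))) (.nd (nat_lit 6) 
(.lf (nat_lit 109496) (.g (nat_lit 2539) (.e (nat_lit 5371) (nat_lit 298) (.e (nat_lit 1661) (nat_lit 115) (.e (nat_lit 393260) (nat_lit 21) (.e (nat_lit 409644) (nat_lit 18) .nil)))) .nil)) 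
(.lf (nat_lit 109560) (.g (nat_lit 2663) (.e (nat_lit 5380) (nat_lit 300) (.e (nat_lit 16470) (nat_lit 14) (.e (nat_lit 491571) (nat_lit 13) (.e (nat_lit 393259) (nat_lit 21) .nil)))) .nil)))))) (.nd (nat_lit 3) (.nd (nat_lit 4) (.nd (nat_lit 5) (.nd (nat_lit 6) 
(.lf (nat_lit 109444) (.g (nat_lit 2358) (.e (nat_lit 5355) (nat_lit 298) (.e (nat_lit 1661) (nat_lit 115) (.e (nat_lit 393260) (nat_lit 21) (.e (nat_lit 409649) (nat_lit 18) (.e (nat_lit 311040) (nat_lit 25) (.e (nat_lit 327424) (nat_lit 10) .nil)))))) (.g (nat_lit 4) .nil .nil))) 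
(.lf (nat_lit 109508) (.g (nat_lit 1752) (.e (nat_lit 7936) (nat_lit 298) (.e (nat_lit 394) (nat_lit 32) (.e (nat_lit 426344) (nat_lit 14) (.e (nat_lit 491568) (nat_lit 13) (.e (nat_lit 393260) (nat_lit 21) .nil))))) .nil))) (.nd (nat_lit 6) 
(.lf (nat_lit 109476) (.g (nat_lit 4401) (.e (nat_lit 5369) (nat_lit 298) (.e (nat_lit 1659) (nat_lit 115) (.e (nat_lit 393301) (nat_lit 27) (.e (nat_lit 491560) (nat_lit 10) (.e (nat_lit 344097) (nat_lit 18) (.e (nat_lit 7254) (nat_lit 383) (.e (nat_lit 8198) (nat_lit 0) .nil))))))) (.g (nat_lit 7) .nil .nil))) 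
(.lf (nat_lit 109540) (.g (nat_lit 2004) (.e (nat_lit 7936) (nat_lit 298) (.e (nat_lit 1252) (nat_lit 92) (.e (nat_lit 98373) (nat_lit 29) (.e (nat_lit 450579) (nat_lit 5) (.e (nat_lit 532523) (nat_lit 7) .nil))))) .nil)))) (.nd (nat_lit 5) (.nd (nat_lit 6) 
(.lf (nat_lit 109460) (.g (nat_lit 4247) (.e (nat_lit 5367) (nat_lit 298) (.e (nat_lit 1659) (nat_lit 115) (.e (nat_lit 393301) (nat_lit 27) (.e (nat_lit 491560) (nat_lit 10) (.e (nat_lit 344097) (nat_lit 18) (.e (nat_lit 7254) (nat_lit 383) (.e (nat_lit 8198) (nat_lit 0) .nil))))))) (.g (nat_lit 7) .nil .nil))) 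
(.lf (nat_lit 109524) (.g (nat_lit 1727) (.e (nat_lit 7936) (nat_lit 298) (.e (nat_lit 1239) (nat_lit 91) (.e (nat_lit 90170) (nat_lit 13) (.e (nat_lit 172085) (nat_lit 9) .nil)))) .nil))) (.nd (nat_lit 6) 
(.lf (nat_lit 109492) (.g (nat_lit 1858) (.e (nat_lit 5371) (nat_lit 298) (.e (nat_lit 1638) (nat_lit 114) (.e (nat_lit 385105) (nat_lit 50) (.e (nat_lit 786483) (nat_lit 30) (.e (nat_lit 360484) (nat_lit 15) .nil))))) .nil)) 
(.lf (nat_lit 109556) (.g (nat_lit 1420) (.e (nat_lit 5380) (nat_lit 300) (.e (nat_lit 16456) (nat_lit 12) (.e (nat_lit 475199) (nat_lit 40) (.e (nat_lit 704595) (nat_lit 5) .nil)))) .nil))))) (.nd (nat_lit 4) (.nd (nat_lit 5) (.nd (nat_lit 6) 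
(.lf (nat_lit 109452) (.g (nat_lit 2062) (.e (nat_lit 5358) (nat_lit 298) (.e (nat_lit 1661) (nat_lit 115) (.e (nat_lit 393260) (nat_lit 21) (.e (nat_lit 409649) (nat_lit 18) .nil)))) .nil)) 
(.lf (nat_lit 109516) (.g (nat_lit 2500) (.e (nat_lit 7936) (nat_lit 298) (.e (nat_lit 1237) (nat_lit 91) (.e (nat_lit 90170) (nat_lit 13) (.e (nat_lit 172088) (nat_lit 9) (.e (nat_lit 426039) (nat_lit 0) .nil))))) .nil))) (.nd (nat_lit 6) 
(.lf (nat_lit 109484) (.g (nat_lit 2124) (.e (nat_lit 5370) (nat_lit 298) (.e (nat_lit 1661) (nat_lit 115) (.e (nat_lit 393260) (nat_lit 21) (.e (nat_lit 409649) (nat_lit 18) .nil)))) .nil)) 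
(.lf (nat_lit 109548) (.g (nat_lit 1332) (.e (nat_lit 7936) (nat_lit 298) (.e (nat_lit 1256) (nat_lit 92) (.e (nat_lit 98372) (nat_lit 29) (.e (nat_lit 450579) (nat_lit 5) (.e (nat_lit 532526) (nat_lit 8) .nil))))) .nil)))) (.nd (nat_lit 5) (.nd (nat_lit 6) 
(.lf (nat_lit 109468) (.g (nat_lit 2500) (.e (nat_lit 5367) (nat_lit 298) (.e (nat_lit 1661) (nat_lit 115) (.e (nat_lit 393260) (nat_lit 21) (.e (nat_lit 409649) (nat_lit 18) (.e (nat_lit 311040) (nat_lit 25) (.e (nat_lit 319509) (nat_lit 10) .nil)))))) (.g (nat_lit 4) .nil .nil))) 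
(.lf (nat_lit 109532) (.g (nat_lit 2868) (.e (nat_lit 7936) (nat_lit 298) (.e (nat_lit 1239) (nat_lit 91) (.e (nat_lit 90170) (nat_lit 13) (.e (nat_lit 172106) (nat_lit 10) (.e (nat_lit 434230) (nat_lit 23) .nil))))) .nil))) (.nd (nat_lit 6) 
(.lf (nat_lit 109500) (.g (nat_lit 2595) (.e (nat_lit 5372) (nat_lit 298) (.e (nat_lit 1659) (nat_lit 115) (.e (nat_lit 393301) (nat_lit 27) (.e (nat_lit 491560) (nat_lit 10) (.e (nat_lit 344099) (nat_lit 18) .nil))))) .nil)) 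
(.lf (nat_lit 109564) (.g (nat_lit 2784) (.e (nat_lit 5380) (nat_lit 300) (.e (nat_lit 16472) (nat_lit 14) (.e (nat_lit 491570) (nat_lit 13) (.e (nat_lit 393260) (nat_lit 21) (.e (nat_lit 409614) (nat_lit 10) .nil))))) .nil))))))) (.nd (nat_lit 2) (.nd (nat_lit 3) (.nd (nat_lit 4) (.nd (nat_lit 5) (.nd (nat_lit 6) 
(.lf (nat_lit 109442) (.g (nat_lit 2123) (.e (nat_lit 5355) (nat_lit 298) (.e (nat_lit 1661) (nat_lit 115) (.e (nat_lit 393260) (nat_lit 21) (.e (nat_lit 409649) (nat_lit 18) (.e (nat_lit 303149) (nat_lit 15) (.e (nat_lit 6112) (nat_lit 332) (.e (nat_lit 968) (nat_lit 81) .nil))))))) (.g (nat_lit 4) .nil .nil))) 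
(.lf (nat_lit 109506) (.g (nat_lit 1823) (.e (nat_lit 7936) (nat_lit 298) (.e (nat_lit 375) (nat_lit 32) (.e (nat_lit 426025) (nat_lit 0) (.e (nat_lit 7537) (nat_lit 402) .nil)))) .nil))) (.nd (nat_lit 6) 
(.lf (nat_lit 109474) (.g (nat_lit 2868) (.e (nat_lit 5369) (nat_lit 298) (.e (nat_lit 1659) (nat_lit 115) (.e (nat_lit 393301) (nat_lit 27) (.e (nat_lit 491559) (nat_lit 10) (.e (nat_lit 344097) (nat_lit 18) .nil))))) .nil)) 
(.lf (nat_lit 109538) (.g (nat_lit 1389) (.e (nat_lit 7936) (nat_lit 298) (.e (nat_lit 1243) (nat_lit 92) (.e (nat_lit 98373) (nat_lit 29) (.e (nat_lit 450581) (nat_lit 5) .nil)))) .nil)))) (.nd (nat_lit 5) (.nd (nat_lit 6) 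
(.lf (nat_lit 109458) (.g (nat_lit 528) (.e (nat_lit 5367) (nat_lit 298) (.e (nat_lit 1638) (nat_lit 114) (.e (nat_lit 385105) (nat_lit 50) .nil))) .nil)) 
(.lf (nat_lit 109522) (.g (nat_lit 2553) (.e (nat_lit 7936) (nat_lit 298) (.e (nat_lit 1238) (nat_lit 91) (.e (nat_lit 90178) (nat_lit 15) (.e (nat_lit 188452) (nat_lit 23) (.e (nat_lit 204846) (nat_lit 24) .nil))))) .nil))) (.nd (nat_lit 6) 
(.lf (nat_lit 109490) (.g (nat_lit 1331) (.e (nat_lit 5371) (nat_lit 298) (.e (nat_lit 1428) (nat_lit 108) (.e (nat_lit 336369) (nat_lit 27) (.e (nat_lit 426173) (nat_lit 7) (.e (nat_lit 409648) (nat_lit 18) .nil))))) .nil)) 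
(.lf (nat_lit 109554) (.g (nat_lit 1983) (.e (nat_lit 7936) (nat_lit 299) (.e (nat_lit 8234) (nat_lit 20) (.e (nat_lit 573482) (nat_lit 13) (.e (nat_lit 65613) (nat_lit 10) .nil)))) .nil))))) (.nd (nat_lit 4) (.nd (nat_lit 5) (.nd (nat_lit 6) 
(.lf (nat_lit 109450) (.g (nat_lit 2866) (.e (nat_lit 5355) (nat_lit 298) (.e (nat_lit 1661) (nat_lit 115) (.e (nat_lit 393299) (nat_lit 27) (.e (nat_lit 491560) (nat_lit 10) (.e (nat_lit 344097) (nat_lit 18) .nil))))) .nil)) 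
(.lf (nat_lit 109514) (.g (nat_lit 2094) (.e (nat_lit 7936) (nat_lit 298) (.e (nat_lit 1234) (nat_lit 91) (.e (nat_lit 90185) (nat_lit 17) (.e (nat_lit 237610) (nat_lit 9) .nil)))) .nil))) (.nd (nat_lit 6) 
(.lf (nat_lit 109482) (.g (nat_lit 2525) (.e (nat_lit 5369) (nat_lit 298) (.e (nat_lit 1661) (nat_lit 115) (.e (nat_lit 393260) (nat_lit 21) (.e (nat_lit 409645) (nat_lit 18) .nil)))) .nil)) 
(.lf (nat_lit 109546) (.g (nat_lit 993) (.e (nat_lit 7936) (nat_lit 298) (.e (nat_lit 1256) (nat_lit 92) (.e (nat_lit 98359) (nat_lit 26) (.e (nat_lit 426282) (nat_lit 10) (.e (nat_lit 434233) (nat_lit 23) .nil))))) .nil)))) (.nd (nat_lit 5) (.nd (nat_lit 6) 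
(.lf (nat_lit 109466) (.g (nat_lit 2623) (.e (nat_lit 5367) (nat_lit 298) (.e (nat_lit 1661) (nat_lit 115) (.e (nat_lit 393260) (nat_lit 21) (.e (nat_lit 409648) (nat_lit 18) (.e (nat_lit 311040) (nat_lit 25) (.e (nat_lit 319509) (nat_lit 10) .nil)))))) (.g (nat_lit 4) .nil .nil))) 
(.lf (nat_lit 109530) (.g (nat_lit 2395) (.e (nat_lit 7936) (nat_lit 298) (.e (nat_lit 1239) (nat_lit 91) (.e (nat_lit 90170) (nat_lit 13) (.e (nat_lit 172095) (nat_lit 9) (.e (nat_lit 426132) (nat_lit 3) .nil))))) .nil))) (.nd (nat_lit 6) 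
(.lf (nat_lit 109498) (.g (nat_lit 2516) (.e (nat_lit 5371) (nat_lit 298) (.e (nat_lit 1661) (nat_lit 115) (.e (nat_lit 393260) (nat_lit 21) (.e (nat_lit 409647) (nat_lit 18) .nil)))) .nil)) 
(.lf (nat_lit 109562) (.g (nat_lit 2933) (.e (nat_lit 5380) (nat_lit 300) (.e (nat_lit 16471) (nat_lit 14) (.e (nat_lit 491570) (nat_lit 13) (.e (nat_lit 393260) (nat_lit 21) (.e (nat_lit 409614) (nat_lit 10) .nil))))) (.g (nat_lit 5) .nil .nil))))))) (.nd (nat_lit 3) (.nd (nat_lit 4) (.nd (nat_lit 5) (.nd (nat_lit 6) 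
(.lf (nat_lit 109446) (.g (nat_lit 1495) (.e (nat_lit 5355) (nat_lit 298) (.e (nat_lit 1661) (nat_lit 115) (.e (nat_lit 393299) (nat_lit 27) (.e (nat_lit 491560) (nat_lit 10) .nil)))) .nil)) 
(.lf (nat_lit 109510) (.g (nat_lit 1600) (.e (nat_lit 7936) (nat_lit 298) (.e (nat_lit 430) (nat_lit 32) (.e (nat_lit 426343) (nat_lit 14) (.e (nat_lit 491549) (nat_lit 9) .nil)))) .nil))) (.nd (nat_lit 6) 
(.lf (nat_lit 109478) (.g (nat_lit 3011) (.e (nat_lit 5369) (nat_lit 298) (.e (nat_lit 1659) (nat_lit 115) (.e (nat_lit 393301) (nat_lit 27) (.e (nat_lit 491560) (nat_lit 10) (.e (nat_lit 344099) (nat_lit 18) (.e (nat_lit 7255) (nat_lit 383) (.e (nat_lit 8198) (nat_lit 0) .nil))))))) (.g (nat_lit 4) .nil .nil))) 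
(.lf (nat_lit 109542) (.g (nat_lit 2771) (.e (nat_lit 7936) (nat_lit 298) (.e (nat_lit 1254) (nat_lit 92) (.e (nat_lit 98373) (nat_lit 29) (.e (nat_lit 450581) (nat_lit 5) (.e (nat_lit 532523) (nat_lit 7) .nil))))) .nil)))) (.nd (nat_lit 5) (.nd (nat_lit 6) 
(.lf (nat_lit 109462) (.g (nat_lit 2978) (.e (nat_lit 5367) (nat_lit 298) (.e (nat_lit 1659) (nat_lit 115) (.e (nat_lit 393301) (nat_lit 27) (.e (nat_lit 491560) (nat_lit 10) (.e (nat_lit 344099) (nat_lit 18) (.e (nat_lit 7254) (nat_lit 383) (.e (nat_lit 8198) (nat_lit 0) .nil))))))) (.g (nat_lit 4) .nil .nil))) 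
(.lf (nat_lit 109526) (.g (nat_lit 2585) (.e (nat_lit 7936) (nat_lit 298) (.e (nat_lit 1239) (nat_lit 91) (.e (nat_lit 90170) (nat_lit 13) (.e (nat_lit 172088) (nat_lit 9) .nil)))) .nil))) (.nd (nat_lit 6) 
(.lf (nat_lit 109494) (.g (nat_lit 2542) (.e (nat_lit 5371) (nat_lit 298) (.e (nat_lit 1659) (nat_lit 115) (.e (nat_lit 393301) (nat_lit 27) (.e (nat_lit 491563) (nat_lit 12) (.e (nat_lit 392960) (nat_lit 16) .nil))))) .nil)) 
(.lf (nat_lit 109558) (.g (nat_lit 4211) (.e (nat_lit 5380) (nat_lit 300) (.e (nat_lit 16470) (nat_lit 14) (.e (nat_lit 491570) (nat_lit 13) (.e (nat_lit 393260) (nat_lit 21) (.e (nat_lit 409614) (nat_lit 10) .nil))))) .nil))))) (.nd (nat_lit 4) (.nd (nat_lit 5) (.nd (nat_lit 6) 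
(.lf (nat_lit 109454) (.g (nat_lit 2322) (.e (nat_lit 5362) (nat_lit 298) (.e (nat_lit 446) (nat_lit 33) (.e (nat_lit 434181) (nat_lit 0) (.e (nat_lit 1661) (nat_lit 115) (.e (nat_lit 393260) (nat_lit 21) (.e (nat_lit 417536) (nat_lit 10) .nil)))))) (.g (nat_lit 5) .nil .nil))) 
(.lf (nat_lit 109518) (.g (nat_lit 3308) (.e (nat_lit 7936) (nat_lit 298) (.e (nat_lit 1237) (nat_lit 91) (.e (nat_lit 90170) (nat_lit 13) (.e (nat_lit 172094) (nat_lit 9) (.e (nat_lit 426140) (nat_lit 3) .nil))))) .nil))) (.nd (nat_lit 6) 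
(.lf (nat_lit 109486) (.g (nat_lit 1591) (.e (nat_lit 5371) (nat_lit 298) (.e (nat_lit 1235) (nat_lit 91) (.e (nat_lit 90185) (nat_lit 17) (.e (nat_lit 237605) (nat_lit 9) (.e (nat_lit 426131) (nat_lit 3) .nil))))) .nil)) 
(.lf (nat_lit 109550) (.g (nat_lit 1978) (.e (nat_lit 7936) (nat_lit 298) (.e (nat_lit 1661) (nat_lit 115) (.e (nat_lit 393260) (nat_lit 21) (.e (nat_lit 409648) (nat_lit 18) .nil)))) .nil)))) (.nd (nat_lit 5) (.nd (nat_lit 6) 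
(.lf (nat_lit 109470) (.g (nat_lit 2850) (.e (nat_lit 5368) (nat_lit 298) (.e (nat_lit 1661) (nat_lit 115) (.e (nat_lit 393260) (nat_lit 21) (.e (nat_lit 409648) (nat_lit 18) (.e (nat_lit 311040) (nat_lit 25) .nil))))) .nil)) 
(.lf (nat_lit 109534) (.g (nat_lit 2436) (.e (nat_lit 7936) (nat_lit 298) (.e (nat_lit 1239) (nat_lit 91) (.e (nat_lit 90170) (nat_lit 13) (.e (nat_lit 172109) (nat_lit 10) .nil)))) .nil))) (.nd (nat_lit 6) 
(.lf (nat_lit 109502) (.g (nat_lit 2178) (.e (nat_lit 5372) (nat_lit 298) (.e (nat_lit 1661) (nat_lit 115) (.e (nat_lit 393260) (nat_lit 21) (.e (nat_lit 409617) (nat_lit 10) .nil)))) .nil)) 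
(.lf (nat_lit 109566) (.g (nat_lit 2062) (.e (nat_lit 5380) (nat_lit 300) (.e (nat_lit 16473) (nat_lit 14) (.e (nat_lit 491552) (nat_lit 9) (.e (nat_lit 336412) (nat_lit 27) .nil)))) .nil)))))))) (.nd (nat_lit 1) (.nd (nat_lit 2) (.nd (nat_lit 3) (.nd (nat_lit 4) (.nd (nat_lit 5) (.nd (nat_lit 6) 
(.lf (nat_lit 109441) (.g (nat_lit 2405) (.e (nat_lit 5355) (nat_lit 298) (.e (nat_lit 1661) (nat_lit 115) (.e (nat_lit 393260) (nat_lit 21) (.e (nat_lit 409649) (nat_lit 18) (.e (nat_lit 303149) (nat_lit 15) (.e (nat_lit 6099) (nat_lit 332) (.e (nat_lit 1049) (nat_lit 81) .nil))))))) (.g (nat_lit 5) .nil .nil))) 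
(.lf (nat_lit 109505) (.g (nat_lit 925) (.e (nat_lit 7936) (nat_lit 298) (.e (nat_lit 375) (nat_lit 32) (.e (nat_lit 426008) (nat_lit 0) (.e (nat_lit 7557) (nat_lit 402) .nil)))) .nil))) (.nd (nat_lit 6) 
(.lf (nat_lit 109473) (.g (nat_lit 2085) (.e (nat_lit 5369) (nat_lit 298) (.e (nat_lit 1659) (nat_lit 115) (.e (nat_lit 393301) (nat_lit 27) (.e (nat_lit 491558) (nat_lit 10) (.e (nat_lit 344097) (nat_lit 18) .nil))))) .nil)) 
(.lf (nat_lit 109537) (.g (nat_lit 728) (.e (nat_lit 7936) (nat_lit 298) (.e (nat_lit 1239) (nat_lit 91) (.e (nat_lit 90171) (nat_lit 14) .nil))) .nil)))) (.nd (nat_lit 5) (.nd (nat_lit 6) 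
(.lf (nat_lit 109457) (.g (nat_lit 1564) (.e (nat_lit 5367) (nat_lit 298) (.e (nat_lit 1638) (nat_lit 114) (.e (nat_lit 385102) (nat_lit 50) (.e (nat_lit 786483) (nat_lit 30) (.e (nat_lit 360484) (nat_lit 15) (.e (nat_lit 647203) (nat_lit 14) (.e (nat_lit 1086) (nat_lit 81) .nil))))))) (.g (nat_lit 4) .nil .nil))) 
(.lf (nat_lit 109521) (.g (nat_lit 1346) (.e (nat_lit 7936) (nat_lit 298) (.e (nat_lit 1238) (nat_lit 91) (.e (nat_lit 90176) (nat_lit 15) (.e (nat_lit 188450) (nat_lit 23) (.e (nat_lit 204848) (nat_lit 25) .nil))))) .nil))) (.nd (nat_lit 6) 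
(.lf (nat_lit 109489) (.g (nat_lit 3850) (.e (nat_lit 5371) (nat_lit 298) (.e (nat_lit 1253) (nat_lit 92) (.e (nat_lit 98373) (nat_lit 29) (.e (nat_lit 450580) (nat_lit 5) (.e (nat_lit 532526) (nat_lit 8) .nil))))) .nil)) 
(.lf (nat_lit 109553) (.g (nat_lit 2000) (.e (nat_lit 5376) (nat_lit 299) (.e (nat_lit 8234) (nat_lit 20) (.e (nat_lit 573493) (nat_lit 15) (.e (nat_lit 81956) (nat_lit 23) (.e (nat_lit 98349) (nat_lit 24) .nil))))) .nil))))) (.nd (nat_lit 4) (.nd (nat_lit 5) (.nd (nat_lit 6) 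
(.lf (nat_lit 109449) (.g (nat_lit 2777) (.e (nat_lit 5355) (nat_lit 298) (.e (nat_lit 1661) (nat_lit 115) (.e (nat_lit 393299) (nat_lit 27) (.e (nat_lit 491560) (nat_lit 10) (.e (nat_lit 344094) (nat_lit 18) (.e (nat_lit 7247) (nat_lit 383) (.e (nat_lit 8194) (nat_lit 0) .nil))))))) (.g (nat_lit 4) .nil .nil))) 
(.lf (nat_lit 109513) (.g (nat_lit 1267) (.e (nat_lit 7936) (nat_lit 298) (.e (nat_lit 1234) (nat_lit 91) (.e (nat_lit 90185) (nat_lit 17) (.e (nat_lit 237601) (nat_lit 9) .nil)))) .nil))) (.nd (nat_lit 6) 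
(.lf (nat_lit 109481) (.g (nat_lit 2001) (.e (nat_lit 5369) (nat_lit 298) (.e (nat_lit 1661) (nat_lit 115) (.e (nat_lit 393260) (nat_lit 21) (.e (nat_lit 409643) (nat_lit 18) .nil)))) .nil)) 
(.lf (nat_lit 109545) (.g (nat_lit 1325) (.e (nat_lit 7936) (nat_lit 298) (.e (nat_lit 1256) (nat_lit 92) (.e (nat_lit 98350) (nat_lit 24) (.e (nat_lit 409616) (nat_lit 10) (.e (nat_lit 7936) (nat_lit 298) .nil))))) .nil)))) (.nd (nat_lit 5) (.nd (nat_lit 6) 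
(.lf (nat_lit 109465) (.g (nat_lit 1641) (.e (nat_lit 5367) (nat_lit 298) (.e (nat_lit 1661) (nat_lit 115) (.e (nat_lit 393260) (nat_lit 21) (.e (nat_lit 409648) (nat_lit 18) .nil)))) .nil)) 
(.lf (nat_lit 109529) (.g (nat_lit 1923) (.e (nat_lit 7936) (nat_lit 298) (.e (nat_lit 1239) (nat_lit 91) (.e (nat_lit 90170) (nat_lit 13) (.e (nat_lit 172095) (nat_lit 9) .nil)))) .nil))) (.nd (nat_lit 6) 
(.lf (nat_lit 109497) (.g (nat_lit 2255) (.e (nat_lit 5371) (nat_lit 298) (.e (nat_lit 1661) (nat_lit 115) (.e (nat_lit 393260) (nat_lit 21) (.e (nat_lit 409646) (nat_lit 18) .nil)))) .nil)) 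
(.lf (nat_lit 109561) (.g (nat_lit 4942) (.e (nat_lit 5380) (nat_lit 300) (.e (nat_lit 16470) (nat_lit 14) (.e (nat_lit 491571) (nat_lit 13) (.e (nat_lit 393260) (nat_lit 21) (.e (nat_lit 409614) (nat_lit 10) .nil))))) .nil)))))) (.nd (nat_lit 3) (.nd (nat_lit 4) (.nd (nat_lit 5) (.nd (nat_lit 6) 
(.lf (nat_lit 109445) (.g (nat_lit 1580) (.e (nat_lit 5355) (nat_lit 298) (.e (nat_lit 1661) (nat_lit 115) (.e (nat_lit 393299) (nat_lit 27) (.e (nat_lit 491558) (nat_lit 10) .nil)))) .nil)) 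
(.lf (nat_lit 109509) (.g (nat_lit 2329) (.e (nat_lit 7936) (nat_lit 298) (.e (nat_lit 395) (nat_lit 32) (.e (nat_lit 426343) (nat_lit 14) (.e (nat_lit 491570) (nat_lit 13) (.e (nat_lit 393260) (nat_lit 21) .nil))))) .nil))) (.nd (nat_lit 6) 
(.lf (nat_lit 109477) (.g (nat_lit 3131) (.e (nat_lit 5369) (nat_lit 298) (.e (nat_lit 1659) (nat_lit 115) (.e (nat_lit 393301) (nat_lit 27) (.e (nat_lit 491560) (nat_lit 10) (.e (nat_lit 344099) (nat_lit 18) (.e (nat_lit 7254) (nat_lit 383) (.e (nat_lit 8198) (nat_lit 0) .nil))))))) (.g (nat_lit 4) .nil .nil))) 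
(.lf (nat_lit 109541) (.g (nat_lit 377) (.e (nat_lit 7936) (nat_lit 298) (.e (nat_lit 1253) (nat_lit 92) (.e (nat_lit 98372) (nat_lit 29) .nil))) .nil)))) (.nd (nat_lit 5) (.nd (nat_lit 6) 
(.lf (nat_lit 109461) (.g (nat_lit 2588) (.e (nat_lit 5367) (nat_lit 298) (.e (nat_lit 1659) (nat_lit 115) (.e (nat_lit 393301) (nat_lit 27) (.e (nat_lit 491560) (nat_lit 10) (.e (nat_lit 344099) (nat_lit 18) .nil))))) .nil)) 
(.lf (nat_lit 109525) (.g (nat_lit 2155) (.e (nat_lit 7936) (nat_lit 298) (.e (nat_lit 1239) (nat_lit 91) (.e (nat_lit 90170) (nat_lit 13) (.e (nat_lit 172085) (nat_lit 9) (.e (nat_lit 426135) (nat_lit 3) .nil))))) .nil))) (.nd (nat_lit 6) 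
(.lf (nat_lit 109493) (.g (nat_lit 1768) (.e (nat_lit 5371) (nat_lit 298) (.e (nat_lit 1658) (nat_lit 115) (.e (nat_lit 393301) (nat_lit 27) (.e (nat_lit 491563) (nat_lit 12) (.e (nat_lit 392960) (nat_lit 16) .nil))))) .nil)) 
(.lf (nat_lit 109557) (.g (nat_lit 1277) (.e (nat_lit 5380) (nat_lit 300) (.e (nat_lit 16470) (nat_lit 14) (.e (nat_lit 491570) (nat_lit 13) .nil))) .nil))))) (.nd (nat_lit 4) (.nd (nat_lit 5) (.nd (nat_lit 6) 
(.lf (nat_lit 109453) (.g (nat_lit 1725) (.e (nat_lit 5362) (nat_lit 298) (.e (nat_lit 446) (nat_lit 33) (.e (nat_lit 434181) (nat_lit 0) (.e (nat_lit 1660) (nat_lit 115) (.e (nat_lit 393260) (nat_lit 21) (.e (nat_lit 417536) (nat_lit 10) .nil)))))) (.g (nat_lit 5) .nil .nil))) 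
(.lf (nat_lit 109517) (.g (nat_lit 1723) (.e (nat_lit 7936) (nat_lit 298) (.e (nat_lit 1237) (nat_lit 91) (.e (nat_lit 90170) (nat_lit 13) (.e (nat_lit 172092) (nat_lit 9) .nil)))) .nil))) (.nd (nat_lit 6) 
(.lf (nat_lit 109485) (.g (nat_lit 2464) (.e (nat_lit 5371) (nat_lit 298) (.e (nat_lit 1234) (nat_lit 91) (.e (nat_lit 90170) (nat_lit 13) (.e (nat_lit 172115) (nat_lit 10) (.e (nat_lit 434231) (nat_lit 23) .nil))))) .nil)) 
(.lf (nat_lit 109549) (.g (nat_lit 1781) (.e (nat_lit 7936) (nat_lit 298) (.e (nat_lit 1315) (nat_lit 98) (.e (nat_lit 147495) (nat_lit 11) (.e (nat_lit 24660) (nat_lit 13) .nil)))) .nil)))) (.nd (nat_lit 5) (.nd (nat_lit 6) 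
(.lf (nat_lit 109469) (.g (nat_lit 2664) (.e (nat_lit 5367) (nat_lit 298) (.e (nat_lit 1661) (nat_lit 115) (.e (nat_lit 393260) (nat_lit 21) (.e (nat_lit 409649) (nat_lit 18) (.e (nat_lit 311040) (nat_lit 25) (.e (nat_lit 319513) (nat_lit 10) .nil)))))) (.g (nat_lit 4) .nil .nil))) 
(.lf (nat_lit 109533) (.g (nat_lit 2958) (.e (nat_lit 7936) (nat_lit 298) (.e (nat_lit 1239) (nat_lit 91) (.e (nat_lit 90170) (nat_lit 13) (.e (nat_lit 172106) (nat_lit 10) (.e (nat_lit 434232) (nat_lit 23) .nil))))) .nil))) (.nd (nat_lit 6) 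
(.lf (nat_lit 109501) (.g (nat_lit 2600) (.e (nat_lit 5372) (nat_lit 298) (.e (nat_lit 1661) (nat_lit 115) (.e (nat_lit 393260) (nat_lit 21) (.e (nat_lit 409616) (nat_lit 10) .nil)))) .nil)) 
(.lf (nat_lit 109565) (.g (nat_lit 1424) (.e (nat_lit 5380) (nat_lit 300) (.e (nat_lit 16473) (nat_lit 14) (.e (nat_lit 491547) (nat_lit 9) .nil))) .nil))))))) (.nd (nat_lit 2) (.nd (nat_lit 3) (.nd (nat_lit 4) (.nd (nat_lit 5) (.nd (nat_lit 6) 
(.lf (nat_lit 109443) (.g (nat_lit 3100) (.e (nat_lit 5355) (nat_lit 298) (.e (nat_lit 1661) (nat_lit 115) (.e (nat_lit 393260) (nat_lit 21) (.e (nat_lit 409649) (nat_lit 18) (.e (nat_lit 303149) (nat_lit 15) (.e (nat_lit 6112) (nat_lit 332) (.e (nat_lit 970) (nat_lit 81) .nil))))))) (.g (nat_lit 6) .nil .nil))) 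
(.lf (nat_lit 109507) (.g (nat_lit 2183) (.e (nat_lit 7936) (nat_lit 298) (.e (nat_lit 390) (nat_lit 32) (.e (nat_lit 426338) (nat_lit 14) (.e (nat_lit 491549) (nat_lit 9) (.e (nat_lit 336369) (nat_lit 27) .nil))))) .nil))) (.nd (nat_lit 6) 
(.lf (nat_lit 109475) (.g (nat_lit 2721) (.e (nat_lit 5369) (nat_lit 298) (.e (nat_lit 1659) (nat_lit 115) (.e (nat_lit 393301) (nat_lit 27) (.e (nat_lit 491560) (nat_lit 10) (.e (nat_lit 344090) (nat_lit 18) .nil))))) .nil)) 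
(.lf (nat_lit 109539) (.g (nat_lit 1263) (.e (nat_lit 7936) (nat_lit 298) (.e (nat_lit 1245) (nat_lit 92) (.e (nat_lit 98358) (nat_lit 26) (.e (nat_lit 426294) (nat_lit 11) .nil)))) .nil)))) (.nd (nat_lit 5) (.nd (nat_lit 6) 
(.lf (nat_lit 109459) (.g (nat_lit 1898) (.e (nat_lit 5367) (nat_lit 298) (.e (nat_lit 1638) (nat_lit 114) (.e (nat_lit 385105) (nat_lit 50) (.e (nat_lit 786483) (nat_lit 30) (.e (nat_lit 360484) (nat_lit 15) (.e (nat_lit 647203) (nat_lit 14) (.e (nat_lit 1040) (nat_lit 81) .nil))))))) (.g (nat_lit 4) .nil .nil))) 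
(.lf (nat_lit 109523) (.g (nat_lit 892) (.e (nat_lit 7936) (nat_lit 298) (.e (nat_lit 1239) (nat_lit 91) (.e (nat_lit 90165) (nat_lit 12) (.e (nat_lit 171776) (nat_lit 194) .nil)))) .nil))) (.nd (nat_lit 6) 
(.lf (nat_lit 109491) (.g (nat_lit 540) (.e (nat_lit 5371) (nat_lit 298) (.e (nat_lit 1638) (nat_lit 114) (.e (nat_lit 385102) (nat_lit 50) .nil))) .nil)) 
(.lf (nat_lit 109555) (.g (nat_lit 2426) (.e (nat_lit 7936) (nat_lit 299) (.e (nat_lit 8234) (nat_lit 20) (.e (nat_lit 573484) (nat_lit 13) (.e (nat_lit 65617) (nat_lit 10) (.e (nat_lit 344120) (nat_lit 21) .nil))))) .nil))))) (.nd (nat_lit 4) (.nd (nat_lit 5) (.nd (nat_lit 6) 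
(.lf (nat_lit 109451) (.g (nat_lit 2018) (.e (nat_lit 5358) (nat_lit 298) (.e (nat_lit 1661) (nat_lit 115) (.e (nat_lit 393260) (nat_lit 21) (.e (nat_lit 409648) (nat_lit 18) .nil)))) .nil)) 
(.lf (nat_lit 109515) (.g (nat_lit 1185) (.e (nat_lit 7936) (nat_lit 298) (.e (nat_lit 1237) (nat_lit 91) (.e (nat_lit 90170) (nat_lit 13) (.e (nat_lit 172088) (nat_lit 9) .nil)))) .nil))) (.nd (nat_lit 6) 
(.lf (nat_lit 109483) (.g (nat_lit 2918) (.e (nat_lit 5370) (nat_lit 298) (.e (nat_lit 1661) (nat_lit 115) (.e (nat_lit 393260) (nat_lit 21) (.e (nat_lit 409648) (nat_lit 18) (.e (nat_lit 311040) (nat_lit 25) .nil))))) .nil)) 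
(.lf (nat_lit 109547) (.g (nat_lit 1014) (.e (nat_lit 7936) (nat_lit 298) (.e (nat_lit 1256) (nat_lit 92) (.e (nat_lit 98370) (nat_lit 28) (.e (nat_lit 442414) (nat_lit 20) (.e (nat_lit 3254) (nat_lit 197) .nil))))) .nil)))) (.nd (nat_lit 5) (.nd (nat_lit 6) 
(.lf (nat_lit 109467) (.g (nat_lit 2805) (.e (nat_lit 5367) (nat_lit 298) (.e (nat_lit 1661) (nat_lit 115) (.e (nat_lit 393260) (nat_lit 21) (.e (nat_lit 409648) (nat_lit 18) (.e (nat_lit 311040) (nat_lit 25) (.e (nat_lit 319513) (nat_lit 10) .nil)))))) (.g (nat_lit 4) .nil .nil))) 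
(.lf (nat_lit 109531) (.g (nat_lit 1756) (.e (nat_lit 7936) (nat_lit 298) (.e (nat_lit 1239) (nat_lit 91) (.e (nat_lit 90170) (nat_lit 13) (.e (nat_lit 172105) (nat_lit 10) .nil)))) .nil))) (.nd (nat_lit 6) 
(.lf (nat_lit 109499) (.g (nat_lit 1368) (.e (nat_lit 5371) (nat_lit 298) (.e (nat_lit 1661) (nat_lit 115) (.e (nat_lit 393260) (nat_lit 21) (.e (nat_lit 409649) (nat_lit 18) .nil)))) .nil)) 
(.lf (nat_lit 109563) (.g (nat_lit 1714) (.e (nat_lit 5380) (nat_lit 300) (.e (nat_lit 16472) (nat_lit 14) (.e (nat_lit 491569) (nat_lit 13) (.e (nat_lit 393260) (nat_lit 21) .nil)))) .nil)))))) (.nd (nat_lit 3) (.nd (nat_lit 4) (.nd (nat_lit 5) (.nd (nat_lit 6) 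
(.lf (nat_lit 109447) (.g (nat_lit 2695) (.e (nat_lit 5355) (nat_lit 298) (.e (nat_lit 1661) (nat_lit 115) (.e (nat_lit 393299) (nat_lit 27) (.e (nat_lit 491560) (nat_lit 10) (.e (nat_lit 344088) (nat_lit 18) .nil))))) .nil)) 
(.lf (nat_lit 109511) (.g (nat_lit 1505) (.e (nat_lit 7936) (nat_lit 298) (.e (nat_lit 1234) (nat_lit 91) (.e (nat_lit 90170) (nat_lit 13) (.e (nat_lit 172113) (nat_lit 10) .nil)))) .nil))) (.nd (nat_lit 6) 
(.lf (nat_lit 109479) (.g (nat_lit 2687) (.e (nat_lit 5369) (nat_lit 298) (.e (nat_lit 1659) (nat_lit 115) (.e (nat_lit 393301) (nat_lit 27) (.e (nat_lit 491560) (nat_lit 10) (.e (nat_lit 344173) (nat_lit 42) .nil))))) .nil)) 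
(.lf (nat_lit 109543) (.g (nat_lit 2363) (.e (nat_lit 7936) (nat_lit 298) (.e (nat_lit 1255) (nat_lit 92) (.e (nat_lit 98370) (nat_lit 28) (.e (nat_lit 442427) (nat_lit 23) (.e (nat_lit 204846) (nat_lit 24) .nil))))) .nil)))) (.nd (nat_lit 5) (.nd (nat_lit 6) 
(.lf (nat_lit 109463) (.g (nat_lit 2864) (.e (nat_lit 5367) (nat_lit 298) (.e (nat_lit 1659) (nat_lit 115) (.e (nat_lit 393301) (nat_lit 27) (.e (nat_lit 491560) (nat_lit 10) (.e (nat_lit 344099) (nat_lit 18) (.e (nat_lit 7255) (nat_lit 383) (.e (nat_lit 8198) (nat_lit 0) .nil))))))) (.g (nat_lit 4) .nil .nil))) 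
(.lf (nat_lit 109527) (.g (nat_lit 1693) (.e (nat_lit 7936) (nat_lit 298) (.e (nat_lit 1239) (nat_lit 91) (.e (nat_lit 90170) (nat_lit 13) (.e (nat_lit 172092) (nat_lit 9) .nil)))) .nil))) (.nd (nat_lit 6) 
(.lf (nat_lit 109495) (.g (nat_lit 1727) (.e (nat_lit 5371) (nat_lit 298) (.e (nat_lit 1661) (nat_lit 115) (.e (nat_lit 393260) (nat_lit 21) (.e (nat_lit 409643) (nat_lit 18) .nil)))) .nil)) 
(.lf (nat_lit 109559) (.g (nat_lit 2815) (.e (nat_lit 5380) (nat_lit 300) (.e (nat_lit 16470) (nat_lit 14) (.e (nat_lit 491571) (nat_lit 13) (.e (nat_lit 393238) (nat_lit 17) .nil)))) .nil))))) (.nd (nat_lit 4) (.nd (nat_lit 5) (.nd (nat_lit 6) 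
(.lf (nat_lit 109455) (.g (nat_lit 2532) (.e (nat_lit 5367) (nat_lit 298) (.e (nat_lit 1234) (nat_lit 91) (.e (nat_lit 90176) (nat_lit 15) (.e (nat_lit 188450) (nat_lit 23) (.e (nat_lit 204846) (nat_lit 24) .nil))))) .nil)) 
(.lf (nat_lit 109519) (.g (nat_lit 1674) (.e (nat_lit 7936) (nat_lit 298) (.e (nat_lit 1237) (nat_lit 91) (.e (nat_lit 90170) (nat_lit 13) (.e (nat_lit 172095) (nat_lit 9) .nil)))) .nil))) (.nd (nat_lit 6) 
(.lf (nat_lit 109487) (.g (nat_lit 1207) (.e (nat_lit 5371) (nat_lit 298) (.e (nat_lit 1253) (nat_lit 92) (.e (nat_lit 98365) (nat_lit 26) (.e (nat_lit 426298) (nat_lit 11) (.e (nat_lit 458789) (nat_lit 23) .nil))))) .nil)) 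
(.lf (nat_lit 109551) (.g (nat_lit 2037) (.e (nat_lit 7936) (nat_lit 298) (.e (nat_lit 1661) (nat_lit 115) (.e (nat_lit 393260) (nat_lit 21) (.e (nat_lit 409649) (nat_lit 18) .nil)))) .nil)))) (.nd (nat_lit 5) (.nd (nat_lit 6) 
(.lf (nat_lit 109471) (.g (nat_lit 2063) (.e (nat_lit 5368) (nat_lit 298) (.e (nat_lit 1661) (nat_lit 115) (.e (nat_lit 393260) (nat_lit 21) (.e (nat_lit 409649) (nat_lit 18) .nil)))) .nil)) 
(.lf (nat_lit 109535) (.g (nat_lit 1709) (.e (nat_lit 7936) (nat_lit 298) (.e (nat_lit 1239) (nat_lit 91) (.e (nat_lit 90170) (nat_lit 13) (.e (nat_lit 172110) (nat_lit 10) .nil)))) .nil))) (.nd (nat_lit 6) 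
(.lf (nat_lit 109503) (.g (nat_lit 1968) (.e (nat_lit 5372) (nat_lit 298) (.e (nat_lit 1661) (nat_lit 115) (.e (nat_lit 393260) (nat_lit 21) (.e (nat_lit 409648) (nat_lit 18) .nil)))) .nil)) 
(.lf (nat_lit 109567) (.g (nat_lit 2319) (.e (nat_lit 5380) (nat_lit 300) (.e (nat_lit 16473) (nat_lit 14) (.e (nat_lit 491552) (nat_lit 9) (.e (nat_lit 336412) (nat_lit 27) (.e (nat_lit 426182) (nat_lit 8) .nil))))) .nil)))))))))

noncomputable def tv1479 : DT := (.nd (nat_lit 0) (.nd (nat_lit 1) (.nd (nat_lit 2) (.nd (nat_lit 3) (.nd (nat_lit 4) (.nd (nat_lit 5) (.nd (nat_lit 6) 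
(.lf (nat_lit 109568) (.g (nat_lit 1392) (.e (nat_lit 5380) (nat_lit 300) (.e (nat_lit 16473) (nat_lit 14) (.e (nat_lit 491567) (nat_lit 13) .nil))) .nil)) 
(.lf (nat_lit 109632) (.g (nat_lit 2851) (.e (nat_lit 5383) (nat_lit 300) (.e (nat_lit 16473) (nat_lit 14) (.e (nat_lit 491560) (nat_lit 10) (.e (nat_lit 344090) (nat_lit 18) .nil)))) .nil))) (.nd (nat_lit 6) 
(.lf (nat_lit 109600) (.g (nat_lit 3929) (.e (nat_lit 5382) (nat_lit 300) (.e (nat_lit 16473) (nat_lit 14) (.e (nat_lit 491568) (nat_lit 13) (.e (nat_lit 393260) (nat_lit 21) (.e (nat_lit 409608) (nat_lit 10) .nil))))) .nil)) 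
(.lf (nat_lit 109664) (.g (nat_lit 2677) (.e (nat_lit 5384) (nat_lit 300) (.e (nat_lit 16473) (nat_lit 14) (.e (nat_lit 491552) (nat_lit 9) (.e (nat_lit 336412) (nat_lit 27) (.e (nat_lit 426181) (nat_lit 8) (.e (nat_lit 425728) (nat_lit 10) .nil)))))) (.g (nat_lit 5) .nil .nil))))) (.nd (nat_lit 5) (.nd (nat_lit 6) 
(.lf (nat_lit 109584) (.g (nat_lit 967) (.e (nat_lit 5381) (nat_lit 300) (.e (nat_lit 16473) (nat_lit 14) (.e (nat_lit 491568) (nat_lit 13) .nil))) .nil)) 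
(.lf (nat_lit 109648) (.g (nat_lit 3203) (.e (nat_lit 5383) (nat_lit 300) (.e (nat_lit 16473) (nat_lit 14) (.e (nat_lit 491568) (nat_lit 13) (.e (nat_lit 393260) (nat_lit 21) (.e (nat_lit 417536) (nat_lit 10) .nil))))) .nil))) (.nd (nat_lit 6) 
(.lf (nat_lit 109616) (.g (nat_lit 2324) (.e (nat_lit 5383) (nat_lit 300) (.e (nat_lit 16470) (nat_lit 14) (.e (nat_lit 491571) (nat_lit 13) (.e (nat_lit 393242) (nat_lit 17) .nil)))) .nil)) 
(.lf (nat_lit 109680) (.g (nat_lit 689) (.e (nat_lit 5385) (nat_lit 300) (.e (nat_lit 16470) (nat_lit 14) (.e (nat_lit 491571) (nat_lit 13) .nil))) .nil))))) (.nd (nat_lit 4) (.nd (nat_lit 5) (.nd (nat_lit 6) 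
(.lf (nat_lit 109576) (.g (nat_lit 2792) (.e (nat_lit 5381) (nat_lit 300) (.e (nat_lit 16470) (nat_lit 14) (.e (nat_lit 491550) (nat_lit 9) (.e (nat_lit 336421) (nat_lit 28) .nil)))) .nil)) 
(.lf (nat_lit 109640) (.g (nat_lit 871) (.e (nat_lit 5383) (nat_lit 300) (.e (nat_lit 16473) (nat_lit 14) (.e (nat_lit 491567) (nat_lit 13) .nil))) .nil))) (.nd (nat_lit 6) 
(.lf (nat_lit 109608) (.g (nat_lit 1009) (.e (nat_lit 5383) (nat_lit 300) (.e (nat_lit 16470) (nat_lit 14) (.e (nat_lit 491569) (nat_lit 13) .nil))) .nil)) 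
(.lf (nat_lit 109672) (.g (nat_lit 2790) (.e (nat_lit 5384) (nat_lit 300) (.e (nat_lit 16473) (nat_lit 14) (.e (nat_lit 491568) (nat_lit 13) (.e (nat_lit 393259) (nat_lit 21) .nil)))) .nil)))) (.nd (nat_lit 5) (.nd (nat_lit 6) 
(.lf (nat_lit 109592) (.g (nat_lit 1226) (.e (nat_lit 5382) (nat_lit 300) (.e (nat_lit 16473) (nat_lit 14) (.e (nat_lit 491547) (nat_lit 9) .nil))) .nil)) 
(.lf (nat_lit 109656) (.g (nat_lit 2584) (.e (nat_lit 5384) (nat_lit 300) (.e (nat_lit 16470) (nat_lit 14) (.e (nat_lit 491571) (nat_lit 13) (.e (nat_lit 393259) (nat_lit 21) .nil)))) .nil))) (.nd (nat_lit 6) 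
(.lf (nat_lit 109624) (.g (nat_lit 1648) (.e (nat_lit 5383) (nat_lit 300) (.e (nat_lit 16473) (nat_lit 14) (.e (nat_lit 491552) (nat_lit 9) (.e (nat_lit 336412) (nat_lit 27) .nil)))) .nil)) 
(.lf (nat_lit 109688) (.g (nat_lit 1363) (.e (nat_lit 5386) (nat_lit 300) (.e (nat_lit 16470) (nat_lit 14) (.e (nat_lit 491569) (nat_lit 13) .nil))) .nil)))))) (.nd (nat_lit 3) (.nd (nat_lit 4) (.nd (nat_lit 5) (.nd (nat_lit 6) 
(.lf (nat_lit 109572) (.g (nat_lit 2486) (.e (nat_lit 5380) (nat_lit 300) (.e (nat_lit 16473) (nat_lit 14) (.e (nat_lit 491567) (nat_lit 13) (.e (nat_lit 393264) (nat_lit 22) .nil)))) .nil)) 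
(.lf (nat_lit 109636) (.g (nat_lit 2507) (.e (nat_lit 5383) (nat_lit 300) (.e (nat_lit 16473) (nat_lit 14) (.e (nat_lit 491560) (nat_lit 10) (.e (nat_lit 344094) (nat_lit 18) .nil)))) .nil))) (.nd (nat_lit 6) 
(.lf (nat_lit 109604) (.g (nat_lit 1813) (.e (nat_lit 5383) (nat_lit 300) (.e (nat_lit 16431) (nat_lit 9) (.e (nat_lit 426140) (nat_lit 3) (.e (nat_lit 212736) (nat_lit 15) .nil)))) .nil)) 
(.lf (nat_lit 109668) (.g (nat_lit 2471) (.e (nat_lit 5384) (nat_lit 300) (.e (nat_lit 16473) (nat_lit 14) (.e (nat_lit 491567) (nat_lit 13) (.e (nat_lit 393262) (nat_lit 22) .nil)))) .nil)))) (.nd (nat_lit 5) (.nd (nat_lit 6) 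
(.lf (nat_lit 109588) (.g (nat_lit 3914) (.e (nat_lit 5381) (nat_lit 300) (.e (nat_lit 16473) (nat_lit 14) (.e (nat_lit 491568) (nat_lit 13) (.e (nat_lit 393260) (nat_lit 21) (.e (nat_lit 417536) (nat_lit 10) .nil))))) .nil)) 
(.lf (nat_lit 109652) (.g (nat_lit 2359) (.e (nat_lit 5384) (nat_lit 300) (.e (nat_lit 16448) (nat_lit 10) (.e (nat_lit 434231) (nat_lit 23) (.e (nat_lit 540416) (nat_lit 32) .nil)))) .nil))) (.nd (nat_lit 6) 
(.lf (nat_lit 109620) (.g (nat_lit 1716) (.e (nat_lit 5383) (nat_lit 300) (.e (nat_lit 16472) (nat_lit 14) (.e (nat_lit 491569) (nat_lit 13) (.e (nat_lit 393260) (nat_lit 21) .nil)))) .nil)) 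
(.lf (nat_lit 109684) (.g (nat_lit 3051) (.e (nat_lit 5385) (nat_lit 300) (.e (nat_lit 16473) (nat_lit 14) (.e (nat_lit 491568) (nat_lit 13) (.e (nat_lit 393238) (nat_lit 17) .nil)))) .nil))))) (.nd (nat_lit 4) (.nd (nat_lit 5) (.nd (nat_lit 6) 
(.lf (nat_lit 109580) (.g (nat_lit 1446) (.e (nat_lit 5381) (nat_lit 300) (.e (nat_lit 16473) (nat_lit 14) (.e (nat_lit 491547) (nat_lit 9) .nil))) .nil)) 
(.lf (nat_lit 109644) (.g (nat_lit 2304) (.e (nat_lit 5383) (nat_lit 300) (.e (nat_lit 16473) (nat_lit 14) (.e (nat_lit 491567) (nat_lit 13) (.e (nat_lit 393265) (nat_lit 22) (.e (nat_lit 417821) (nat_lit 10) .nil))))) .nil))) (.nd (nat_lit 6) 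
(.lf (nat_lit 109612) (.g (nat_lit 520) (.e (nat_lit 5383) (nat_lit 300) (.e (nat_lit 16470) (nat_lit 14) (.e (nat_lit 491571) (nat_lit 13) .nil))) .nil)) 
(.lf (nat_lit 109676) (.g (nat_lit 636) (.e (nat_lit 5384) (nat_lit 300) (.e (nat_lit 16487) (nat_lit 27) (.e (nat_lit 336229) (nat_lit 14) .nil))) .nil)))) (.nd (nat_lit 5) (.nd (nat_lit 6) 
(.lf (nat_lit 109596) (.g (nat_lit 1949) (.e (nat_lit 5382) (nat_lit 300) (.e (nat_lit 16473) (nat_lit 14) (.e (nat_lit 491567) (nat_lit 13) (.e (nat_lit 393263) (nat_lit 22) .nil)))) .nil)) 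
(.lf (nat_lit 109660) (.g (nat_lit 2471) (.e (nat_lit 5384) (nat_lit 300) (.e (nat_lit 16472) (nat_lit 14) (.e (nat_lit 491568) (nat_lit 13) (.e (nat_lit 393260) (nat_lit 21) (.e (nat_lit 417536) (nat_lit 10) .nil))))) .nil))) (.nd (nat_lit 6) 
(.lf (nat_lit 109628) (.g (nat_lit 2565) (.e (nat_lit 5383) (nat_lit 300) (.e (nat_lit 16473) (nat_lit 14) (.e (nat_lit 491558) (nat_lit 10) (.e (nat_lit 344091) (nat_lit 18) .nil)))) .nil)) 
(.lf (nat_lit 109692) (.g (nat_lit 515) (.e (nat_lit 5386) (nat_lit 300) (.e (nat_lit 16472) (nat_lit 14) (.e (nat_lit 491570) (nat_lit 13) .nil))) .nil))))))) (.nd (nat_lit 2) (.nd (nat_lit 3) (.nd (nat_lit 4) (.nd (nat_lit 5) (.nd (nat_lit 6) 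
(.lf (nat_lit 109570) (.g (nat_lit 2454) (.e (nat_lit 5380) (nat_lit 300) (.e (nat_lit 16473) (nat_lit 14) (.e (nat_lit 491567) (nat_lit 13) (.e (nat_lit 393259) (nat_lit 21) .nil)))) .nil)) 
(.lf (nat_lit 109634) (.g (nat_lit 2902) (.e (nat_lit 5383) (nat_lit 300) (.e (nat_lit 16473) (nat_lit 14) (.e (nat_lit 491560) (nat_lit 10) (.e (nat_lit 344091) (nat_lit 18) .nil)))) .nil))) (.nd (nat_lit 6) 
(.lf (nat_lit 109602) (.g (nat_lit 1090) (.e (nat_lit 5383) (nat_lit 300) (.e (nat_lit 16388) (nat_lit 0) (.e (nat_lit 7587) (nat_lit 406) (.e (nat_lit 65653) (nat_lit 27) .nil)))) .nil)) 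
(.lf (nat_lit 109666) (.g (nat_lit 1433) (.e (nat_lit 5384) (nat_lit 300) (.e (nat_lit 16473) (nat_lit 14) (.e (nat_lit 491567) (nat_lit 13) .nil))) .nil)))) (.nd (nat_lit 5) (.nd (nat_lit 6) 
(.lf (nat_lit 109586) (.g (nat_lit 3397) (.e (nat_lit 5381) (nat_lit 300) (.e (nat_lit 16473) (nat_lit 14) (.e (nat_lit 491568) (nat_lit 13) (.e (nat_lit 393259) (nat_lit 21) (.e (nat_lit 417536) (nat_lit 10) .nil))))) .nil)) 
(.lf (nat_lit 109650) (.g (nat_lit 1031) (.e (nat_lit 5384) (nat_lit 300) (.e (nat_lit 16388) (nat_lit 0) (.e (nat_lit 7589) (nat_lit 406) (.e (nat_lit 65653) (nat_lit 27) .nil)))) .nil))) (.nd (nat_lit 6) 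
(.lf (nat_lit 109618) (.g (nat_lit 2650) (.e (nat_lit 5383) (nat_lit 300) (.e (nat_lit 16470) (nat_lit 14) (.e (nat_lit 491571) (nat_lit 13) (.e (nat_lit 393263) (nat_lit 22) .nil)))) .nil)) 
(.lf (nat_lit 109682) (.g (nat_lit 2205) (.e (nat_lit 5385) (nat_lit 300) (.e (nat_lit 16470) (nat_lit 14) (.e (nat_lit 491571) (nat_lit 13) (.e (nat_lit 393242) (nat_lit 17) .nil)))) .nil))))) (.nd (nat_lit 4) (.nd (nat_lit 5) (.nd (nat_lit 6) 
(.lf (nat_lit 109578) (.g (nat_lit 610) (.e (nat_lit 5381) (nat_lit 300) (.e (nat_lit 16470) (nat_lit 14) (.e (nat_lit 491571) (nat_lit 13) .nil))) .nil)) 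
(.lf (nat_lit 109642) (.g (nat_lit 2645) (.e (nat_lit 5383) (nat_lit 300) (.e (nat_lit 16473) (nat_lit 14) (.e (nat_lit 491567) (nat_lit 13) (.e (nat_lit 393238) (nat_lit 17) (.e (nat_lit 6989) (nat_lit 377) .nil))))) .nil))) (.nd (nat_lit 6) 
(.lf (nat_lit 109610) (.g (nat_lit 3304) (.e (nat_lit 5383) (nat_lit 300) (.e (nat_lit 16470) (nat_lit 14) (.e (nat_lit 491570) (nat_lit 13) (.e (nat_lit 393238) (nat_lit 17) .nil)))) .nil)) 
(.lf (nat_lit 109674) (.g (nat_lit 1336) (.e (nat_lit 5384) (nat_lit 300) (.e (nat_lit 16487) (nat_lit 27) (.e (nat_lit 336196) (nat_lit 12) (.e (nat_lit 392960) (nat_lit 24) .nil)))) .nil)))) (.nd (nat_lit 5) (.nd (nat_lit 6) 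
(.lf (nat_lit 109594) (.g (nat_lit 2654) (.e (nat_lit 5382) (nat_lit 300) (.e (nat_lit 16473) (nat_lit 14) (.e (nat_lit 491567) (nat_lit 13) (.e (nat_lit 393238) (nat_lit 17) (.e (nat_lit 6989) (nat_lit 377) .nil))))) .nil)) 
(.lf (nat_lit 109658) (.g (nat_lit 860) (.e (nat_lit 5384) (nat_lit 300) (.e (nat_lit 16472) (nat_lit 14) (.e (nat_lit 491547) (nat_lit 9) .nil))) .nil))) (.nd (nat_lit 6) 
(.lf (nat_lit 109626) (.g (nat_lit 2643) (.e (nat_lit 5383) (nat_lit 300) (.e (nat_lit 16473) (nat_lit 14) (.e (nat_lit 491556) (nat_lit 9) (.e (nat_lit 336390) (nat_lit 27) .nil)))) .nil)) 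
(.lf (nat_lit 109690) (.g (nat_lit 2637) (.e (nat_lit 5386) (nat_lit 300) (.e (nat_lit 16470) (nat_lit 14) (.e (nat_lit 491571) (nat_lit 13) (.e (nat_lit 401152) (nat_lit 1) .nil)))) .nil)))))) (.nd (nat_lit 3) (.nd (nat_lit 4) (.nd (nat_lit 5) (.nd (nat_lit 6) 
(.lf (nat_lit 109574) (.g (nat_lit 2517) (.e (nat_lit 5381) (nat_lit 300) (.e (nat_lit 16456) (nat_lit 12) (.e (nat_lit 475199) (nat_lit 40) (.e (nat_lit 704595) (nat_lit 5) (.e (nat_lit 180284) (nat_lit 45) .nil))))) .nil)) 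
(.lf (nat_lit 109638) (.g (nat_lit 2767) (.e (nat_lit 5383) (nat_lit 300) (.e (nat_lit 16473) (nat_lit 14) (.e (nat_lit 491560) (nat_lit 10) (.e (nat_lit 344096) (nat_lit 18) .nil)))) .nil))) (.nd (nat_lit 6) 
(.lf (nat_lit 109606) (.g (nat_lit 4384) (.e (nat_lit 5383) (nat_lit 300) (.e (nat_lit 16469) (nat_lit 14) (.e (nat_lit 491571) (nat_lit 13) (.e (nat_lit 393260) (nat_lit 21) (.e (nat_lit 409623) (nat_lit 10) .nil))))) .nil)) 
(.lf (nat_lit 109670) (.g (nat_lit 2684) (.e (nat_lit 5384) (nat_lit 300) (.e (nat_lit 16473) (nat_lit 14) (.e (nat_lit 491567) (nat_lit 13) (.e (nat_lit 393264) (nat_lit 22) (.e (nat_lit 425728) (nat_lit 10) .nil))))) .nil)))) (.nd (nat_lit 5) (.nd (nat_lit 6) 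
(.lf (nat_lit 109590) (.g (nat_lit 875) (.e (nat_lit 5382) (nat_lit 300) (.e (nat_lit 16470) (nat_lit 14) (.e (nat_lit 491571) (nat_lit 13) .nil))) .nil)) 
(.lf (nat_lit 109654) (.g (nat_lit 3331) (.e (nat_lit 5384) (nat_lit 300) (.e (nat_lit 16470) (nat_lit 14) (.e (nat_lit 491570) (nat_lit 13) (.e (nat_lit 393238) (nat_lit 17) .nil)))) .nil))) (.nd (nat_lit 6) 
(.lf (nat_lit 109622) (.g (nat_lit 1294) (.e (nat_lit 5383) (nat_lit 300) (.e (nat_lit 16473) (nat_lit 14) (.e (nat_lit 491546) (nat_lit 9) .nil))) .nil)) 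
(.lf (nat_lit 109686) (.g (nat_lit 4470) (.e (nat_lit 5385) (nat_lit 300) (.e (nat_lit 16473) (nat_lit 14) (.e (nat_lit 491568) (nat_lit 13) (.e (nat_lit 393260) (nat_lit 21) (.e (nat_lit 417536) (nat_lit 10) .nil))))) .nil))))) (.nd (nat_lit 4) (.nd (nat_lit 5) (.nd (nat_lit 6) 
(.lf (nat_lit 109582) (.g (nat_lit 2025) (.e (nat_lit 5381) (nat_lit 300) (.e (nat_lit 16473) (nat_lit 14) (.e (nat_lit 491552) (nat_lit 9) (.e (nat_lit 336412) (nat_lit 27) .nil)))) .nil)) 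
(.lf (nat_lit 109646) (.g (nat_lit 2672) (.e (nat_lit 5383) (nat_lit 300) (.e (nat_lit 16473) (nat_lit 14) (.e (nat_lit 491568) (nat_lit 13) (.e (nat_lit 393259) (nat_lit 21) (.e (nat_lit 417536) (nat_lit 10) .nil))))) .nil))) (.nd (nat_lit 6) 
(.lf (nat_lit 109614) (.g (nat_lit 3130) (.e (nat_lit 5383) (nat_lit 300) (.e (nat_lit 16470) (nat_lit 14) (.e (nat_lit 491571) (nat_lit 13) (.e (nat_lit 393238) (nat_lit 17) (.e (nat_lit 6970) (nat_lit 377) .nil))))) .nil)) 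
(.lf (nat_lit 109678) (.g (nat_lit 1359) (.e (nat_lit 5385) (nat_lit 300) (.e (nat_lit 16470) (nat_lit 14) (.e (nat_lit 491570) (nat_lit 13) .nil))) .nil)))) (.nd (nat_lit 5) (.nd (nat_lit 6) 
(.lf (nat_lit 109598) (.g (nat_lit 2207) (.e (nat_lit 5382) (nat_lit 300) (.e (nat_lit 16473) (nat_lit 14) (.e (nat_lit 491568) (nat_lit 13) (.e (nat_lit 393238) (nat_lit 17) .nil)))) .nil)) 
(.lf (nat_lit 109662) (.g (nat_lit 1986) (.e (nat_lit 5384) (nat_lit 300) (.e (nat_lit 16472) (nat_lit 14) (.e (nat_lit 491570) (nat_lit 13) (.e (nat_lit 393260) (nat_lit 21) (.e (nat_lit 417536) (nat_lit 10) .nil))))) .nil))) (.nd (nat_lit 6) 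
(.lf (nat_lit 109630) (.g (nat_lit 1277) (.e (nat_lit 5383) (nat_lit 300) (.e (nat_lit 16473) (nat_lit 14) (.e (nat_lit 491559) (nat_lit 10) .nil))) .nil)) 
(.lf (nat_lit 109694) (.g (nat_lit 1064) (.e (nat_lit 5386) (nat_lit 300) (.e (nat_lit 16473) (nat_lit 14) (.e (nat_lit 491552) (nat_lit 9) .nil))) .nil)))))))) (.nd (nat_lit 1) (.nd (nat_lit 2) (.nd (nat_lit 3) (.nd (nat_lit 4) (.nd (nat_lit 5) (.nd (nat_lit 6) 
(.lf (nat_lit 109569) (.g (nat_lit 2485) (.e (nat_lit 5380) (nat_lit 300) (.e (nat_lit 16473) (nat_lit 14) (.e (nat_lit 491567) (nat_lit 13) (.e (nat_lit 393238) (nat_lit 17) .nil)))) .nil)) 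
(.lf (nat_lit 109633) (.g (nat_lit 3597) (.e (nat_lit 5383) (nat_lit 300) (.e (nat_lit 16473) (nat_lit 14) (.e (nat_lit 491560) (nat_lit 10) (.e (nat_lit 344090) (nat_lit 18) (.e (nat_lit 7263) (nat_lit 384) .nil))))) .nil))) (.nd (nat_lit 6) 
(.lf (nat_lit 109601) (.g (nat_lit 3366) (.e (nat_lit 5382) (nat_lit 300) (.e (nat_lit 16473) (nat_lit 14) (.e (nat_lit 491568) (nat_lit 13) (.e (nat_lit 393260) (nat_lit 21) (.e (nat_lit 417536) (nat_lit 10) .nil))))) .nil)) 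
(.lf (nat_lit 109665) (.g (nat_lit 1420) (.e (nat_lit 5384) (nat_lit 300) (.e (nat_lit 16473) (nat_lit 14) (.e (nat_lit 491556) (nat_lit 9) .nil))) .nil)))) (.nd (nat_lit 5) (.nd (nat_lit 6) 
(.lf (nat_lit 109585) (.g (nat_lit 2975) (.e (nat_lit 5381) (nat_lit 300) (.e (nat_lit 16473) (nat_lit 14) (.e (nat_lit 491568) (nat_lit 13) (.e (nat_lit 393259) (nat_lit 21) .nil)))) .nil)) 
(.lf (nat_lit 109649) (.g (nat_lit 2229) (.e (nat_lit 5383) (nat_lit 300) (.e (nat_lit 16473) (nat_lit 14) (.e (nat_lit 491568) (nat_lit 13) (.e (nat_lit 393265) (nat_lit 22) .nil)))) .nil))) (.nd (nat_lit 6) 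
(.lf (nat_lit 109617) (.g (nat_lit 2487) (.e (nat_lit 5383) (nat_lit 300) (.e (nat_lit 16470) (nat_lit 14) (.e (nat_lit 491571) (nat_lit 13) (.e (nat_lit 393259) (nat_lit 21) .nil)))) .nil)) 
(.lf (nat_lit 109681) (.g (nat_lit 3289) (.e (nat_lit 5385) (nat_lit 300) (.e (nat_lit 16470) (nat_lit 14) (.e (nat_lit 491571) (nat_lit 13) (.e (nat_lit 393238) (nat_lit 17) (.e (nat_lit 6989) (nat_lit 377) .nil))))) .nil))))) (.nd (nat_lit 4) (.nd (nat_lit 5) (.nd (nat_lit 6) 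
(.lf (nat_lit 109577) (.g (nat_lit 1123) (.e (nat_lit 5381) (nat_lit 300) (.e (nat_lit 16470) (nat_lit 14) (.e (nat_lit 491570) (nat_lit 13) .nil))) .nil)) 
(.lf (nat_lit 109641) (.g (nat_lit 1971) (.e (nat_lit 5383) (nat_lit 300) (.e (nat_lit 16473) (nat_lit 14) (.e (nat_lit 491567) (nat_lit 13) (.e (nat_lit 393238) (nat_lit 17) .nil)))) .nil))) (.nd (nat_lit 6) 
(.lf (nat_lit 109609) (.g (nat_lit 2595) (.e (nat_lit 5383) (nat_lit 300) (.e (nat_lit 16470) (nat_lit 14) (.e (nat_lit 491569) (nat_lit 13) (.e (nat_lit 393265) (nat_lit 22) .nil)))) .nil)) 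
(.lf (nat_lit 109673) (.g (nat_lit 2301) (.e (nat_lit 5384) (nat_lit 300) (.e (nat_lit 16473) (nat_lit 14) (.e (nat_lit 491568) (nat_lit 13) (.e (nat_lit 393260) (nat_lit 21) .nil)))) .nil)))) (.nd (nat_lit 5) (.nd (nat_lit 6) 
(.lf (nat_lit 109593) (.g (nat_lit 1062) (.e (nat_lit 5382) (nat_lit 300) (.e (nat_lit 16473) (nat_lit 14) (.e (nat_lit 491567) (nat_lit 13) .nil))) .nil)) 
(.lf (nat_lit 109657) (.g (nat_lit 1713) (.e (nat_lit 5384) (nat_lit 300) (.e (nat_lit 16471) (nat_lit 14) (.e (nat_lit 491570) (nat_lit 13) (.e (nat_lit 393260) (nat_lit 21) (.e (nat_lit 417536) (nat_lit 10) .nil))))) .nil))) (.nd (nat_lit 6) 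
(.lf (nat_lit 109625) (.g (nat_lit 1434) (.e (nat_lit 5383) (nat_lit 300) (.e (nat_lit 16473) (nat_lit 14) (.e (nat_lit 491556) (nat_lit 9) .nil))) .nil)) 
(.lf (nat_lit 109689) (.g (nat_lit 622) (.e (nat_lit 5386) (nat_lit 300) (.e (nat_lit 16470) (nat_lit 14) (.e (nat_lit 491571) (nat_lit 13) .nil))) .nil)))))) (.nd (nat_lit 3) (.nd (nat_lit 4) (.nd (nat_lit 5) (.nd (nat_lit 6) 
(.lf (nat_lit 109573) (.g (nat_lit 4021) (.e (nat_lit 5380) (nat_lit 300) (.e (nat_lit 16473) (nat_lit 14) (.e (nat_lit 491568) (nat_lit 13) (.e (nat_lit 393260) (nat_lit 21) (.e (nat_lit 409614) (nat_lit 10) .nil))))) .nil)) 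
(.lf (nat_lit 109637) (.g (nat_lit 3063) (.e (nat_lit 5383) (nat_lit 300) (.e (nat_lit 16473) (nat_lit 14) (.e (nat_lit 491560) (nat_lit 10) (.e (nat_lit 344095) (nat_lit 18) .nil)))) .nil))) (.nd (nat_lit 6) 
(.lf (nat_lit 109605) (.g (nat_lit 1382) (.e (nat_lit 5383) (nat_lit 300) (.e (nat_lit 16436) (nat_lit 9) (.e (nat_lit 426131) (nat_lit 3) (.e (nat_lit 212736) (nat_lit 15) .nil)))) .nil)) 
(.lf (nat_lit 109669) (.g (nat_lit 2910) (.e (nat_lit 5384) (nat_lit 300) (.e (nat_lit 16473) (nat_lit 14) (.e (nat_lit 491567) (nat_lit 13) (.e (nat_lit 393263) (nat_lit 22) (.e (nat_lit 425728) (nat_lit 10) .nil))))) .nil)))) (.nd (nat_lit 5) (.nd (nat_lit 6) 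
(.lf (nat_lit 109589) (.g (nat_lit 2691) (.e (nat_lit 5382) (nat_lit 300) (.e (nat_lit 16470) (nat_lit 14) (.e (nat_lit 491570) (nat_lit 13) (.e (nat_lit 393260) (nat_lit 21) .nil)))) .nil)) 
(.lf (nat_lit 109653) (.g (nat_lit 1077) (.e (nat_lit 5384) (nat_lit 300) (.e (nat_lit 16470) (nat_lit 14) (.e (nat_lit 491550) (nat_lit 9) .nil))) .nil))) (.nd (nat_lit 6) 
(.lf (nat_lit 109621) (.g (nat_lit 1326) (.e (nat_lit 5383) (nat_lit 300) (.e (nat_lit 16472) (nat_lit 14) (.e (nat_lit 491570) (nat_lit 13) (.e (nat_lit 393260) (nat_lit 21) .nil)))) .nil)) 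
(.lf (nat_lit 109685) (.g (nat_lit 3582) (.e (nat_lit 5385) (nat_lit 300) (.e (nat_lit 16473) (nat_lit 14) (.e (nat_lit 491568) (nat_lit 13) (.e (nat_lit 393259) (nat_lit 21) (.e (nat_lit 417536) (nat_lit 10) .nil))))) .nil))))) (.nd (nat_lit 4) (.nd (nat_lit 5) (.nd (nat_lit 6) 
(.lf (nat_lit 109581) (.g (nat_lit 1204) (.e (nat_lit 5381) (nat_lit 300) (.e (nat_lit 16473) (nat_lit 14) (.e (nat_lit 491552) (nat_lit 9) .nil))) .nil)) 
(.lf (nat_lit 109645) (.g (nat_lit 2145) (.e (nat_lit 5383) (nat_lit 300) (.e (nat_lit 16473) (nat_lit 14) (.e (nat_lit 491568) (nat_lit 13) (.e (nat_lit 393238) (nat_lit 17) .nil)))) .nil))) (.nd (nat_lit 6) 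
(.lf (nat_lit 109613) (.g (nat_lit 2076) (.e (nat_lit 5383) (nat_lit 300) (.e (nat_lit 16470) (nat_lit 14) (.e (nat_lit 491571) (nat_lit 13) (.e (nat_lit 393238) (nat_lit 17) .nil)))) .nil)) 
(.lf (nat_lit 109677) (.g (nat_lit 2203) (.e (nat_lit 5385) (nat_lit 300) (.e (nat_lit 16470) (nat_lit 14) (.e (nat_lit 491550) (nat_lit 9) (.e (nat_lit 336421) (nat_lit 28) .nil)))) .nil)))) (.nd (nat_lit 5) (.nd (nat_lit 6) 
(.lf (nat_lit 109597) (.g (nat_lit 1857) (.e (nat_lit 5382) (nat_lit 300) (.e (nat_lit 16473) (nat_lit 14) (.e (nat_lit 491567) (nat_lit 13) (.e (nat_lit 393265) (nat_lit 22) .nil)))) .nil)) 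
(.lf (nat_lit 109661) (.g (nat_lit 1697) (.e (nat_lit 5384) (nat_lit 300) (.e (nat_lit 16472) (nat_lit 14) (.e (nat_lit 491569) (nat_lit 13) (.e (nat_lit 393260) (nat_lit 21) .nil)))) .nil))) (.nd (nat_lit 6) 
(.lf (nat_lit 109629) (.g (nat_lit 2614) (.e (nat_lit 5383) (nat_lit 300) (.e (nat_lit 16473) (nat_lit 14) (.e (nat_lit 491558) (nat_lit 10) (.e (nat_lit 352000) (nat_lit 47) .nil)))) .nil)) 
(.lf (nat_lit 109693) (.g (nat_lit 1412) (.e (nat_lit 5386) (nat_lit 300) (.e (nat_lit 16473) (nat_lit 14) (.e (nat_lit 491547) (nat_lit 9) .nil))) .nil))))))) (.nd (nat_lit 2) (.nd (nat_lit 3) (.nd (nat_lit 4) (.nd (nat_lit 5) (.nd (nat_lit 6) 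
(.lf (nat_lit 109571) (.g (nat_lit 3585) (.e (nat_lit 5380) (nat_lit 300) (.e (nat_lit 16473) (nat_lit 14) (.e (nat_lit 491567) (nat_lit 13) (.e (nat_lit 393260) (nat_lit 21) (.e (nat_lit 409614) (nat_lit 10) .nil))))) .nil)) 
(.lf (nat_lit 109635) (.g (nat_lit 3569) (.e (nat_lit 5383) (nat_lit 300) (.e (nat_lit 16473) (nat_lit 14) (.e (nat_lit 491560) (nat_lit 10) (.e (nat_lit 344091) (nat_lit 18) (.e (nat_lit 7263) (nat_lit 384) .nil))))) .nil))) (.nd (nat_lit 6) 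
(.lf (nat_lit 109603) (.g (nat_lit 1432) (.e (nat_lit 5383) (nat_lit 300) (.e (nat_lit 16388) (nat_lit 0) (.e (nat_lit 7589) (nat_lit 406) (.e (nat_lit 65653) (nat_lit 27) (.e (nat_lit 426182) (nat_lit 8) .nil))))) .nil)) 
(.lf (nat_lit 109667) (.g (nat_lit 2503) (.e (nat_lit 5384) (nat_lit 300) (.e (nat_lit 16473) (nat_lit 14) (.e (nat_lit 491567) (nat_lit 13) (.e (nat_lit 393238) (nat_lit 17) .nil)))) .nil)))) (.nd (nat_lit 5) (.nd (nat_lit 6) 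
(.lf (nat_lit 109587) (.g (nat_lit 2071) (.e (nat_lit 5381) (nat_lit 300) (.e (nat_lit 16473) (nat_lit 14) (.e (nat_lit 491568) (nat_lit 13) (.e (nat_lit 393260) (nat_lit 21) .nil)))) .nil)) 
(.lf (nat_lit 109651) (.g (nat_lit 1421) (.e (nat_lit 5384) (nat_lit 300) (.e (nat_lit 16446) (nat_lit 9) (.e (nat_lit 426133) (nat_lit 3) (.e (nat_lit 212736) (nat_lit 15) .nil)))) .nil))) (.nd (nat_lit 6) 
(.lf (nat_lit 109619) (.g (nat_lit 2367) (.e (nat_lit 5383) (nat_lit 300) (.e (nat_lit 16471) (nat_lit 14) (.e (nat_lit 491568) (nat_lit 13) (.e (nat_lit 393260) (nat_lit 21) (.e (nat_lit 409623) (nat_lit 10) .nil))))) .nil)) 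
(.lf (nat_lit 109683) (.g (nat_lit 2459) (.e (nat_lit 5385) (nat_lit 300) (.e (nat_lit 16473) (nat_lit 14) (.e (nat_lit 491567) (nat_lit 13) (.e (nat_lit 393238) (nat_lit 17) .nil)))) .nil))))) (.nd (nat_lit 4) (.nd (nat_lit 5) (.nd (nat_lit 6) 
(.lf (nat_lit 109579) (.g (nat_lit 2458) (.e (nat_lit 5381) (nat_lit 300) (.e (nat_lit 16470) (nat_lit 14) (.e (nat_lit 491571) (nat_lit 13) (.e (nat_lit 393238) (nat_lit 17) .nil)))) .nil)) 
(.lf (nat_lit 109643) (.g (nat_lit 1917) (.e (nat_lit 5383) (nat_lit 300) (.e (nat_lit 16473) (nat_lit 14) (.e (nat_lit 491567) (nat_lit 13) (.e (nat_lit 393260) (nat_lit 21) .nil)))) .nil))) (.nd (nat_lit 6) 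
(.lf (nat_lit 109611) (.g (nat_lit 2794) (.e (nat_lit 5383) (nat_lit 300) (.e (nat_lit 16470) (nat_lit 14) (.e (nat_lit 491570) (nat_lit 13) (.e (nat_lit 393260) (nat_lit 21) .nil)))) .nil)) 
(.lf (nat_lit 109675) (.g (nat_lit 1366) (.e (nat_lit 5384) (nat_lit 300) (.e (nat_lit 16487) (nat_lit 27) (.e (nat_lit 336203) (nat_lit 12) (.e (nat_lit 392960) (nat_lit 24) .nil)))) .nil)))) (.nd (nat_lit 5) (.nd (nat_lit 6) 
(.lf (nat_lit 109595) (.g (nat_lit 1949) (.e (nat_lit 5382) (nat_lit 300) (.e (nat_lit 16473) (nat_lit 14) (.e (nat_lit 491567) (nat_lit 13) (.e (nat_lit 393262) (nat_lit 22) .nil)))) .nil)) 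
(.lf (nat_lit 109659) (.g (nat_lit 1991) (.e (nat_lit 5384) (nat_lit 300) (.e (nat_lit 16472) (nat_lit 14) (.e (nat_lit 491549) (nat_lit 9) (.e (nat_lit 336369) (nat_lit 27) .nil)))) .nil))) (.nd (nat_lit 6) 
(.lf (nat_lit 109627) (.g (nat_lit 1105) (.e (nat_lit 5383) (nat_lit 300) (.e (nat_lit 16473) (nat_lit 14) (.e (nat_lit 491558) (nat_lit 10) .nil))) .nil)) 
(.lf (nat_lit 109691) (.g (nat_lit 2190) (.e (nat_lit 5386) (nat_lit 300) (.e (nat_lit 16470) (nat_lit 14) (.e (nat_lit 491571) (nat_lit 13) (.e (nat_lit 393238) (nat_lit 17) .nil)))) .nil)))))) (.nd (nat_lit 3) (.nd (nat_lit 4) (.nd (nat_lit 5) (.nd (nat_lit 6) 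
(.lf (nat_lit 109575) (.g (nat_lit 2357) (.e (nat_lit 5381) (nat_lit 300) (.e (nat_lit 16459) (nat_lit 12) (.e (nat_lit 475199) (nat_lit 40) (.e (nat_lit 704595) (nat_lit 5) (.e (nat_lit 180284) (nat_lit 45) .nil))))) .nil)) 
(.lf (nat_lit 109639) (.g (nat_lit 2680) (.e (nat_lit 5383) (nat_lit 300) (.e (nat_lit 16473) (nat_lit 14) (.e (nat_lit 491560) (nat_lit 10) (.e (nat_lit 352000) (nat_lit 47) .nil)))) .nil))) (.nd (nat_lit 6) 
(.lf (nat_lit 109607) (.g (nat_lit 2031) (.e (nat_lit 5383) (nat_lit 300) (.e (nat_lit 16470) (nat_lit 14) (.e (nat_lit 491550) (nat_lit 9) (.e (nat_lit 336421) (nat_lit 28) .nil)))) .nil)) 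
(.lf (nat_lit 109671) (.g (nat_lit 2723) (.e (nat_lit 5384) (nat_lit 300) (.e (nat_lit 16473) (nat_lit 14) (.e (nat_lit 491567) (nat_lit 13) (.e (nat_lit 393265) (nat_lit 22) (.e (nat_lit 425728) (nat_lit 10) .nil))))) (.g (nat_lit 4) .nil .nil))))) (.nd (nat_lit 5) (.nd (nat_lit 6) 
(.lf (nat_lit 109591) (.g (nat_lit 3164) (.e (nat_lit 5382) (nat_lit 300) (.e (nat_lit 16470) (nat_lit 14) (.e (nat_lit 491571) (nat_lit 13) (.e (nat_lit 393238) (nat_lit 17) (.e (nat_lit 6989) (nat_lit 377) .nil))))) .nil)) 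
(.lf (nat_lit 109655) (.g (nat_lit 2866) (.e (nat_lit 5384) (nat_lit 300) (.e (nat_lit 16470) (nat_lit 14) (.e (nat_lit 491570) (nat_lit 13) (.e (nat_lit 393260) (nat_lit 21) .nil)))) .nil))) (.nd (nat_lit 6) 
(.lf (nat_lit 109623) (.g (nat_lit 2836) (.e (nat_lit 5383) (nat_lit 300) (.e (nat_lit 16473) (nat_lit 14) (.e (nat_lit 491547) (nat_lit 9) (.e (nat_lit 336369) (nat_lit 27) .nil)))) .nil)) 
(.lf (nat_lit 109687) (.g (nat_lit 2235) (.e (nat_lit 5386) (nat_lit 300) (.e (nat_lit 16470) (nat_lit 14) (.e (nat_lit 491550) (nat_lit 9) (.e (nat_lit 336421) (nat_lit 28) .nil)))) .nil))))) (.nd (nat_lit 4) (.nd (nat_lit 5) (.nd (nat_lit 6) 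
(.lf (nat_lit 109583) (.g (nat_lit 1389) (.e (nat_lit 5381) (nat_lit 300) (.e (nat_lit 16473) (nat_lit 14) (.e (nat_lit 491567) (nat_lit 13) .nil))) .nil)) 
(.lf (nat_lit 109647) (.g (nat_lit 1652) (.e (nat_lit 5383) (nat_lit 300) (.e (nat_lit 16473) (nat_lit 14) (.e (nat_lit 491568) (nat_lit 13) (.e (nat_lit 393260) (nat_lit 21) .nil)))) .nil))) (.nd (nat_lit 6) 
(.lf (nat_lit 109615) (.g (nat_lit 2825) (.e (nat_lit 5383) (nat_lit 300) (.e (nat_lit 16470) (nat_lit 14) (.e (nat_lit 491571) (nat_lit 13) (.e (nat_lit 393238) (nat_lit 17) (.e (nat_lit 6989) (nat_lit 377) .nil))))) .nil)) 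
(.lf (nat_lit 109679) (.g (nat_lit 3319) (.e (nat_lit 5385) (nat_lit 300) (.e (nat_lit 16470) (nat_lit 14) (.e (nat_lit 491570) (nat_lit 13) (.e (nat_lit 393238) (nat_lit 17) .nil)))) .nil)))) (.nd (nat_lit 5) (.nd (nat_lit 6) 
(.lf (nat_lit 109599) (.g (nat_lit 2738) (.e (nat_lit 5382) (nat_lit 300) (.e (nat_lit 16473) (nat_lit 14) (.e (nat_lit 491568) (nat_lit 13) (.e (nat_lit 393259) (nat_lit 21) (.e (nat_lit 417536) (nat_lit 10) .nil))))) .nil)) 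
(.lf (nat_lit 109663) (.g (nat_lit 2104) (.e (nat_lit 5384) (nat_lit 300) (.e (nat_lit 16473) (nat_lit 14) (.e (nat_lit 491552) (nat_lit 9) (.e (nat_lit 336412) (nat_lit 27) .nil)))) .nil))) (.nd (nat_lit 6) 
(.lf (nat_lit 109631) (.g (nat_lit 1065) (.e (nat_lit 5383) (nat_lit 300) (.e (nat_lit 16473) (nat_lit 14) (.e (nat_lit 491560) (nat_lit 10) .nil))) .nil)) 
(.lf (nat_lit 109695) (.g (nat_lit 1404) (.e (nat_lit 5386) (nat_lit 300) (.e (nat_lit 16473) (nat_lit 14) (.e (nat_lit 491556) (nat_lit 9) .nil))) .nil)))))))))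

noncomputable def tv1480 : DT := (.nd (nat_lit 0) (.nd (nat_lit 1) (.nd (nat_lit 2) (.nd (nat_lit 3) (.nd (nat_lit 4) (.nd (nat_lit 5) (.nd (nat_lit 6) 
(.lf (nat_lit 109696) (.g (nat_lit 1249) (.e (nat_lit 5386) (nat_lit 300) (.e (nat_lit 16473) (nat_lit 14) (.e (nat_lit 491567) (nat_lit 13) .nil))) .nil)) 
(.lf (nat_lit 109760) (.g (nat_lit 3805) (.e (nat_lit 5389) (nat_lit 301) (.e (nat_lit 57464) (nat_lit 23) (.e (nat_lit 516151) (nat_lit 9) (.e (nat_lit 426211) (nat_lit 9) (.e (nat_lit 426140) (nat_lit 3) (.e (nat_lit 204845) (nat_lit 24) (.e (nat_lit 319506) (nat_lit 10) .nil))))))) (.g (nat_lit 5) .nil .nil)))) (.nd (nat_lit 6) 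
(.lf (nat_lit 109728) (.g (nat_lit 3450) (.e (nat_lit 7936) (nat_lit 300) (.e (nat_lit 16470) (nat_lit 14) (.e (nat_lit 491571) (nat_lit 13) (.e (nat_lit 393260) (nat_lit 21) (.e (nat_lit 409615) (nat_lit 10) .nil))))) .nil)) 
(.lf (nat_lit 109792) (.g (nat_lit 2431) (.e (nat_lit 5389) (nat_lit 301) (.e (nat_lit 57464) (nat_lit 23) (.e (nat_lit 516151) (nat_lit 9) (.e (nat_lit 426290) (nat_lit 10) (.e (nat_lit 434231) (nat_lit 23) .nil))))) .nil)))) (.nd (nat_lit 5) (.nd (nat_lit 6) 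
(.lf (nat_lit 109712) (.g (nat_lit 1491) (.e (nat_lit 7936) (nat_lit 300) (.e (nat_lit 16459) (nat_lit 12) (.e (nat_lit 475211) (nat_lit 41) (.e (nat_lit 712739) (nat_lit 27) (.e (nat_lit 426173) (nat_lit 7) .nil))))) .nil)) 
(.lf (nat_lit 109776) (.g (nat_lit 2041) (.e (nat_lit 5389) (nat_lit 301) (.e (nat_lit 57464) (nat_lit 23) (.e (nat_lit 516151) (nat_lit 9) (.e (nat_lit 426282) (nat_lit 10) .nil)))) .nil))) (.nd (nat_lit 6) 
(.lf (nat_lit 109744) (.g (nat_lit 1634) (.e (nat_lit 5389) (nat_lit 301) (.e (nat_lit 57354) (nat_lit 0) (.e (nat_lit 7270) (nat_lit 385) (.e (nat_lit 122906) (nat_lit 12) .nil)))) .nil)) 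
(.lf (nat_lit 109808) (.g (nat_lit 2427) (.e (nat_lit 5389) (nat_lit 301) (.e (nat_lit 57464) (nat_lit 23) (.e (nat_lit 516163) (nat_lit 11) (.e (nat_lit 442424) (nat_lit 22) (.e (nat_lit 196661) (nat_lit 12) (.e (nat_lit 57712) (nat_lit 176) (.e (nat_lit 968) (nat_lit 81) .nil))))))) (.g (nat_lit 5) .nil .nil)))))) (.nd (nat_lit 4) (.nd (nat_lit 5) (.nd (nat_lit 6) 
(.lf (nat_lit 109704) (.g (nat_lit 550) (.e (nat_lit 7936) (nat_lit 300) (.e (nat_lit 16388) (nat_lit 0) (.e (nat_lit 7589) (nat_lit 406) .nil))) .nil)) 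
(.lf (nat_lit 109768) (.g (nat_lit 3191) (.e (nat_lit 5389) (nat_lit 301) (.e (nat_lit 57464) (nat_lit 23) (.e (nat_lit 516151) (nat_lit 9) (.e (nat_lit 426216) (nat_lit 9) (.e (nat_lit 426140) (nat_lit 3) (.e (nat_lit 204845) (nat_lit 24) (.e (nat_lit 319500) (nat_lit 10) .nil))))))) (.g (nat_lit 5) .nil .nil)))) (.nd (nat_lit 6) 
(.lf (nat_lit 109736) (.g (nat_lit 840) (.e (nat_lit 7936) (nat_lit 300) (.e (nat_lit 16473) (nat_lit 14) (.e (nat_lit 491552) (nat_lit 9) (.e (nat_lit 336412) (nat_lit 27) (.e (nat_lit 426179) (nat_lit 8) .nil))))) .nil)) 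
(.lf (nat_lit 109800) (.g (nat_lit 2049) (.e (nat_lit 5389) (nat_lit 301) (.e (nat_lit 57464) (nat_lit 23) (.e (nat_lit 516163) (nat_lit 11) (.e (nat_lit 442424) (nat_lit 22) (.e (nat_lit 196626) (nat_lit 9) (.e (nat_lit 1400) (nat_lit 106) (.e (nat_lit 319505) (nat_lit 10) .nil))))))) (.g (nat_lit 4) .nil .nil))))) (.nd (nat_lit 5) (.nd (nat_lit 6) 
(.lf (nat_lit 109720) (.g (nat_lit 1236) (.e (nat_lit 7936) (nat_lit 300) (.e (nat_lit 16470) (nat_lit 14) (.e (nat_lit 491569) (nat_lit 13) (.e (nat_lit 393265) (nat_lit 22) .nil)))) .nil)) 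
(.lf (nat_lit 109784) (.g (nat_lit 2658) (.e (nat_lit 5389) (nat_lit 301) (.e (nat_lit 57464) (nat_lit 23) (.e (nat_lit 516151) (nat_lit 9) (.e (nat_lit 426286) (nat_lit 10) (.e (nat_lit 434233) (nat_lit 23) (.e (nat_lit 532523) (nat_lit 7) (.e (nat_lit 319504) (nat_lit 10) .nil))))))) (.g (nat_lit 5) .nil .nil)))) (.nd (nat_lit 6) 
(.lf (nat_lit 109752) (.g (nat_lit 4092) (.e (nat_lit 5389) (nat_lit 301) (.e (nat_lit 57464) (nat_lit 23) (.e (nat_lit 516151) (nat_lit 9) (.e (nat_lit 426185) (nat_lit 9) (.e (nat_lit 426140) (nat_lit 3) (.e (nat_lit 204846) (nat_lit 24) (.e (nat_lit 319505) (nat_lit 10) .nil))))))) (.g (nat_lit 6) .nil .nil))) 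
(.lf (nat_lit 109816) (.g (nat_lit 1824) (.e (nat_lit 5389) (nat_lit 301) (.e (nat_lit 57464) (nat_lit 23) (.e (nat_lit 516163) (nat_lit 11) (.e (nat_lit 442427) (nat_lit 23) (.e (nat_lit 204821) (nat_lit 17) (.e (nat_lit 6136) (nat_lit 332) (.e (nat_lit 995) (nat_lit 81) .nil))))))) (.g (nat_lit 5) .nil .nil))))))) (.nd (nat_lit 3) (.nd (nat_lit 4) (.nd (nat_lit 5) (.nd (nat_lit 6) 
(.lf (nat_lit 109700) (.g (nat_lit 4314) (.e (nat_lit 5386) (nat_lit 300) (.e (nat_lit 16473) (nat_lit 14) (.e (nat_lit 491568) (nat_lit 13) (.e (nat_lit 393260) (nat_lit 21) (.e (nat_lit 417536) (nat_lit 10) .nil))))) .nil)) 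
(.lf (nat_lit 109764) (.g (nat_lit 2049) (.e (nat_lit 5389) (nat_lit 301) (.e (nat_lit 57464) (nat_lit 23) (.e (nat_lit 516151) (nat_lit 9) (.e (nat_lit 426214) (nat_lit 9) .nil)))) .nil))) (.nd (nat_lit 6) 
(.lf (nat_lit 109732) (.g (nat_lit 1532) (.e (nat_lit 7936) (nat_lit 300) (.e (nat_lit 16470) (nat_lit 14) (.e (nat_lit 491571) (nat_lit 13) (.e (nat_lit 393263) (nat_lit 22) .nil)))) .nil)) 
(.lf (nat_lit 109796) (.g (nat_lit 2799) (.e (nat_lit 5389) (nat_lit 301) (.e (nat_lit 57464) (nat_lit 23) (.e (nat_lit 516151) (nat_lit 9) (.e (nat_lit 426338) (nat_lit 14) (.e (nat_lit 491538) (nat_lit 3) .nil))))) .nil)))) (.nd (nat_lit 5) (.nd (nat_lit 6) 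
(.lf (nat_lit 109716) (.g (nat_lit 1330) (.e (nat_lit 7936) (nat_lit 300) (.e (nat_lit 16470) (nat_lit 14) (.e (nat_lit 491550) (nat_lit 9) (.e (nat_lit 336421) (nat_lit 28) (.e (nat_lit 434186) (nat_lit 13) .nil))))) .nil)) 
(.lf (nat_lit 109780) (.g (nat_lit 3549) (.e (nat_lit 5389) (nat_lit 301) (.e (nat_lit 57464) (nat_lit 23) (.e (nat_lit 516151) (nat_lit 9) (.e (nat_lit 426285) (nat_lit 10) (.e (nat_lit 434233) (nat_lit 23) (.e (nat_lit 532523) (nat_lit 7) (.e (nat_lit 319504) (nat_lit 10) .nil))))))) (.g (nat_lit 5) .nil .nil)))) (.nd (nat_lit 6) 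
(.lf (nat_lit 109748) (.g (nat_lit 3233) (.e (nat_lit 5389) (nat_lit 301) (.e (nat_lit 57464) (nat_lit 23) (.e (nat_lit 516139) (nat_lit 7) (.e (nat_lit 409646) (nat_lit 18) (.e (nat_lit 303119) (nat_lit 3) (.e (nat_lit 204846) (nat_lit 24) (.e (nat_lit 319490) (nat_lit 0) .nil))))))) (.g (nat_lit 5) .nil .nil))) 
(.lf (nat_lit 109812) (.g (nat_lit 3033) (.e (nat_lit 5389) (nat_lit 301) (.e (nat_lit 57464) (nat_lit 23) (.e (nat_lit 516163) (nat_lit 11) (.e (nat_lit 442424) (nat_lit 22) (.e (nat_lit 196661) (nat_lit 12) (.e (nat_lit 57714) (nat_lit 176) (.e (nat_lit 995) (nat_lit 81) .nil))))))) (.g (nat_lit 7) .nil .nil)))))) (.nd (nat_lit 4) (.nd (nat_lit 5) (.nd (nat_lit 6) 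
(.lf (nat_lit 109708) (.g (nat_lit 1433) (.e (nat_lit 7936) (nat_lit 300) (.e (nat_lit 16425) (nat_lit 7) (.e (nat_lit 409616) (nat_lit 10) (.e (nat_lit 7936) (nat_lit 300) .nil)))) .nil)) 
(.lf (nat_lit 109772) (.g (nat_lit 2720) (.e (nat_lit 5389) (nat_lit 301) (.e (nat_lit 57464) (nat_lit 23) (.e (nat_lit 516151) (nat_lit 9) (.e (nat_lit 426275) (nat_lit 10) (.e (nat_lit 434231) (nat_lit 23) .nil))))) .nil))) (.nd (nat_lit 6) 
(.lf (nat_lit 109740) (.g (nat_lit 1834) (.e (nat_lit 7936) (nat_lit 300) (.e (nat_lit 16473) (nat_lit 14) (.e (nat_lit 491560) (nat_lit 10) (.e (nat_lit 344088) (nat_lit 18) .nil)))) .nil)) 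
(.lf (nat_lit 109804) (.g (nat_lit 1807) (.e (nat_lit 5389) (nat_lit 301) (.e (nat_lit 57464) (nat_lit 23) (.e (nat_lit 516163) (nat_lit 11) (.e (nat_lit 442424) (nat_lit 22) (.e (nat_lit 196661) (nat_lit 12) (.e (nat_lit 57711) (nat_lit 176) (.e (nat_lit 1047) (nat_lit 81) .nil))))))) (.g (nat_lit 4) .nil .nil))))) (.nd (nat_lit 5) (.nd (nat_lit 6) 
(.lf (nat_lit 109724) (.g (nat_lit 689) (.e (nat_lit 7936) (nat_lit 300) (.e (nat_lit 16470) (nat_lit 14) (.e (nat_lit 491571) (nat_lit 13) (.e (nat_lit 393238) (nat_lit 17) .nil)))) .nil)) 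
(.lf (nat_lit 109788) (.g (nat_lit 1799) (.e (nat_lit 5389) (nat_lit 301) (.e (nat_lit 57464) (nat_lit 23) (.e (nat_lit 516151) (nat_lit 9) (.e (nat_lit 426286) (nat_lit 10) (.e (nat_lit 434245) (nat_lit 28) (.e (nat_lit 573468) (nat_lit 10) (.e (nat_lit 8491) (nat_lit 180) (.e (nat_lit 1072) (nat_lit 81) .nil)))))))) (.g (nat_lit 4) .nil .nil)))) (.nd (nat_lit 6) 
(.lf (nat_lit 109756) (.g (nat_lit 1755) (.e (nat_lit 5389) (nat_lit 301) (.e (nat_lit 57464) (nat_lit 23) (.e (nat_lit 516151) (nat_lit 9) (.e (nat_lit 426211) (nat_lit 9) .nil)))) .nil)) 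
(.lf (nat_lit 109820) (.g (nat_lit 1643) (.e (nat_lit 5389) (nat_lit 301) (.e (nat_lit 57464) (nat_lit 23) (.e (nat_lit 516163) (nat_lit 11) (.e (nat_lit 442427) (nat_lit 23) (.e (nat_lit 204846) (nat_lit 24) .nil))))) .nil))))))) (.nd (nat_lit 2) (.nd (nat_lit 3) (.nd (nat_lit 4) (.nd (nat_lit 5) (.nd (nat_lit 6) 
(.lf (nat_lit 109698) (.g (nat_lit 3598) (.e (nat_lit 5386) (nat_lit 300) (.e (nat_lit 16473) (nat_lit 14) (.e (nat_lit 491568) (nat_lit 13) (.e (nat_lit 393238) (nat_lit 17) (.e (nat_lit 6989) (nat_lit 377) .nil))))) .nil)) 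
(.lf (nat_lit 109762) (.g (nat_lit 3289) (.e (nat_lit 5389) (nat_lit 301) (.e (nat_lit 57464) (nat_lit 23) (.e (nat_lit 516151) (nat_lit 9) (.e (nat_lit 426211) (nat_lit 9) (.e (nat_lit 433920) (nat_lit 3) .nil))))) .nil))) (.nd (nat_lit 6) 
(.lf (nat_lit 109730) (.g (nat_lit 1976) (.e (nat_lit 7936) (nat_lit 300) (.e (nat_lit 16470) (nat_lit 14) (.e (nat_lit 491571) (nat_lit 13) (.e (nat_lit 393262) (nat_lit 22) (.e (nat_lit 417816) (nat_lit 10) .nil))))) .nil)) 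
(.lf (nat_lit 109794) (.g (nat_lit 2050) (.e (nat_lit 5389) (nat_lit 301) (.e (nat_lit 57464) (nat_lit 23) (.e (nat_lit 516151) (nat_lit 9) (.e (nat_lit 426295) (nat_lit 11) .nil)))) .nil)))) (.nd (nat_lit 5) (.nd (nat_lit 6) 
(.lf (nat_lit 109714) (.g (nat_lit 1670) (.e (nat_lit 7936) (nat_lit 300) (.e (nat_lit 16469) (nat_lit 14) (.e (nat_lit 491547) (nat_lit 9) (.e (nat_lit 336369) (nat_lit 27) (.e (nat_lit 426173) (nat_lit 7) .nil))))) .nil)) 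
(.lf (nat_lit 109778) (.g (nat_lit 3220) (.e (nat_lit 5389) (nat_lit 301) (.e (nat_lit 57464) (nat_lit 23) (.e (nat_lit 516151) (nat_lit 9) (.e (nat_lit 426285) (nat_lit 10) (.e (nat_lit 434231) (nat_lit 23) .nil))))) .nil))) (.nd (nat_lit 6) 
(.lf (nat_lit 109746) (.g (nat_lit 3940) (.e (nat_lit 5389) (nat_lit 301) (.e (nat_lit 57464) (nat_lit 23) (.e (nat_lit 516139) (nat_lit 7) (.e (nat_lit 409602) (nat_lit 0) (.e (nat_lit 5293) (nat_lit 298) (.e (nat_lit 1250) (nat_lit 92) (.e (nat_lit 98350) (nat_lit 24) (.e (nat_lit 409602) (nat_lit 0) .nil)))))))) (.g (nat_lit 5) .nil .nil))) 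
(.lf (nat_lit 109810) (.g (nat_lit 2403) (.e (nat_lit 5389) (nat_lit 301) (.e (nat_lit 57464) (nat_lit 23) (.e (nat_lit 516163) (nat_lit 11) (.e (nat_lit 442424) (nat_lit 22) (.e (nat_lit 196661) (nat_lit 12) (.e (nat_lit 57712) (nat_lit 176) (.e (nat_lit 980) (nat_lit 81) .nil))))))) (.g (nat_lit 5) .nil .nil)))))) (.nd (nat_lit 4) (.nd (nat_lit 5) (.nd (nat_lit 6) 
(.lf (nat_lit 109706) (.g (nat_lit 1297) (.e (nat_lit 7936) (nat_lit 300) (.e (nat_lit 16388) (nat_lit 0) (.e (nat_lit 7589) (nat_lit 406) (.e (nat_lit 65653) (nat_lit 27) (.e (nat_lit 426182) (nat_lit 8) .nil))))) .nil)) 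
(.lf (nat_lit 109770) (.g (nat_lit 2052) (.e (nat_lit 5389) (nat_lit 301) (.e (nat_lit 57464) (nat_lit 23) (.e (nat_lit 516151) (nat_lit 9) (.e (nat_lit 426218) (nat_lit 9) .nil)))) .nil))) (.nd (nat_lit 6) 
(.lf (nat_lit 109738) (.g (nat_lit 1613) (.e (nat_lit 7936) (nat_lit 300) (.e (nat_lit 16473) (nat_lit 14) (.e (nat_lit 491555) (nat_lit 9) (.e (nat_lit 336387) (nat_lit 27) .nil)))) .nil)) 
(.lf (nat_lit 109802) (.g (nat_lit 2064) (.e (nat_lit 5389) (nat_lit 301) (.e (nat_lit 57464) (nat_lit 23) (.e (nat_lit 516163) (nat_lit 11) (.e (nat_lit 442424) (nat_lit 22) (.e (nat_lit 196661) (nat_lit 12) (.e (nat_lit 57711) (nat_lit 176) (.e (nat_lit 974) (nat_lit 81) .nil))))))) (.g (nat_lit 4) .nil .nil))))) (.nd (nat_lit 5) (.nd (nat_lit 6) 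
(.lf (nat_lit 109722) (.g (nat_lit 1768) (.e (nat_lit 7936) (nat_lit 300) (.e (nat_lit 16470) (nat_lit 14) (.e (nat_lit 491571) (nat_lit 13) (.e (nat_lit 393231) (nat_lit 17) (.e (nat_lit 6949) (nat_lit 377) .nil))))) .nil)) 
(.lf (nat_lit 109786) (.g (nat_lit 2354) (.e (nat_lit 5389) (nat_lit 301) (.e (nat_lit 57464) (nat_lit 23) (.e (nat_lit 516151) (nat_lit 9) (.e (nat_lit 426286) (nat_lit 10) (.e (nat_lit 434234) (nat_lit 23) (.e (nat_lit 532523) (nat_lit 7) (.e (nat_lit 319504) (nat_lit 10) .nil))))))) (.g (nat_lit 4) .nil .nil)))) (.nd (nat_lit 6) 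
(.lf (nat_lit 109754) (.g (nat_lit 2054) (.e (nat_lit 5389) (nat_lit 301) (.e (nat_lit 57464) (nat_lit 23) (.e (nat_lit 516151) (nat_lit 9) (.e (nat_lit 426208) (nat_lit 9) .nil)))) .nil)) 
(.lf (nat_lit 109818) (.g (nat_lit 2646) (.e (nat_lit 5389) (nat_lit 301) (.e (nat_lit 57464) (nat_lit 23) (.e (nat_lit 516163) (nat_lit 11) (.e (nat_lit 442427) (nat_lit 23) (.e (nat_lit 204845) (nat_lit 24) (.e (nat_lit 319499) (nat_lit 10) .nil)))))) (.g (nat_lit 5) .nil .nil))))))) (.nd (nat_lit 3) (.nd (nat_lit 4) (.nd (nat_lit 5) (.nd (nat_lit 6) 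
(.lf (nat_lit 109702) (.g (nat_lit 1883) (.e (nat_lit 7936) (nat_lit 300) (.e (nat_lit 16388) (nat_lit 0) (.e (nat_lit 7538) (nat_lit 402) (.e (nat_lit 1428) (nat_lit 108) (.e (nat_lit 336369) (nat_lit 27) .nil))))) .nil)) 
(.lf (nat_lit 109766) (.g (nat_lit 2176) (.e (nat_lit 5389) (nat_lit 301) (.e (nat_lit 57464) (nat_lit 23) (.e (nat_lit 516151) (nat_lit 9) (.e (nat_lit 426216) (nat_lit 9) (.e (nat_lit 426140) (nat_lit 3) .nil))))) .nil))) (.nd (nat_lit 6) 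
(.lf (nat_lit 109734) (.g (nat_lit 1095) (.e (nat_lit 7936) (nat_lit 300) (.e (nat_lit 16472) (nat_lit 14) (.e (nat_lit 491569) (nat_lit 13) (.e (nat_lit 393260) (nat_lit 21) .nil)))) .nil)) 
(.lf (nat_lit 109798) (.g (nat_lit 4519) (.e (nat_lit 5389) (nat_lit 301) (.e (nat_lit 57464) (nat_lit 23) (.e (nat_lit 516151) (nat_lit 9) (.e (nat_lit 426338) (nat_lit 14) (.e (nat_lit 491540) (nat_lit 3) (.e (nat_lit 98350) (nat_lit 24) (.e (nat_lit 409602) (nat_lit 0) .nil))))))) (.g (nat_lit 7) .nil .nil))))) (.nd (nat_lit 5) (.nd (nat_lit 6) 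
(.lf (nat_lit 109718) (.g (nat_lit 1652) (.e (nat_lit 7936) (nat_lit 300) (.e (nat_lit 16470) (nat_lit 14) (.e (nat_lit 491569) (nat_lit 13) (.e (nat_lit 393259) (nat_lit 21) .nil)))) .nil)) 
(.lf (nat_lit 109782) (.g (nat_lit 3420) (.e (nat_lit 5389) (nat_lit 301) (.e (nat_lit 57464) (nat_lit 23) (.e (nat_lit 516151) (nat_lit 9) (.e (nat_lit 426286) (nat_lit 10) (.e (nat_lit 434231) (nat_lit 23) (.e (nat_lit 532525) (nat_lit 8) (.e (nat_lit 327705) (nat_lit 10) .nil))))))) (.g (nat_lit 6) .nil .nil)))) (.nd (nat_lit 6) 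
(.lf (nat_lit 109750) (.g (nat_lit 1867) (.e (nat_lit 5389) (nat_lit 301) (.e (nat_lit 57464) (nat_lit 23) (.e (nat_lit 516151) (nat_lit 9) (.e (nat_lit 426185) (nat_lit 9) .nil)))) .nil)) 
(.lf (nat_lit 109814) (.g (nat_lit 1443) (.e (nat_lit 5389) (nat_lit 301) (.e (nat_lit 57464) (nat_lit 23) (.e (nat_lit 516163) (nat_lit 11) (.e (nat_lit 442427) (nat_lit 23) (.e (nat_lit 204821) (nat_lit 17) .nil))))) .nil))))) (.nd (nat_lit 4) (.nd (nat_lit 5) (.nd (nat_lit 6) 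
(.lf (nat_lit 109710) (.g (nat_lit 1050) (.e (nat_lit 7936) (nat_lit 300) (.e (nat_lit 16459) (nat_lit 12) (.e (nat_lit 475199) (nat_lit 40) (.e (nat_lit 704595) (nat_lit 5) .nil)))) .nil)) 
(.lf (nat_lit 109774) (.g (nat_lit 2054) (.e (nat_lit 5389) (nat_lit 301) (.e (nat_lit 57464) (nat_lit 23) (.e (nat_lit 516151) (nat_lit 9) (.e (nat_lit 426281) (nat_lit 10) .nil)))) .nil))) (.nd (nat_lit 6) 
(.lf (nat_lit 109742) (.g (nat_lit 2048) (.e (nat_lit 7936) (nat_lit 300) (.e (nat_lit 16473) (nat_lit 14) (.e (nat_lit 491568) (nat_lit 13) (.e (nat_lit 393259) (nat_lit 21) .nil)))) .nil)) 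
(.lf (nat_lit 109806) (.g (nat_lit 2064) (.e (nat_lit 5389) (nat_lit 301) (.e (nat_lit 57464) (nat_lit 23) (.e (nat_lit 516163) (nat_lit 11) (.e (nat_lit 442424) (nat_lit 22) (.e (nat_lit 196661) (nat_lit 12) (.e (nat_lit 57711) (nat_lit 176) (.e (nat_lit 1086) (nat_lit 81) .nil))))))) (.g (nat_lit 4) .nil .nil))))) (.nd (nat_lit 5) (.nd (nat_lit 6) 
(.lf (nat_lit 109726) (.g (nat_lit 2121) (.e (nat_lit 7936) (nat_lit 300) (.e (nat_lit 16470) (nat_lit 14) (.e (nat_lit 491571) (nat_lit 13) (.e (nat_lit 393259) (nat_lit 21) (.e (nat_lit 409612) (nat_lit 10) .nil))))) .nil)) 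
(.lf (nat_lit 109790) (.g (nat_lit 1961) (.e (nat_lit 5389) (nat_lit 301) (.e (nat_lit 57464) (nat_lit 23) (.e (nat_lit 516151) (nat_lit 9) (.e (nat_lit 426286) (nat_lit 10) (.e (nat_lit 434248) (nat_lit 28) (.e (nat_lit 573452) (nat_lit 9) (.e (nat_lit 365) (nat_lit 31) (.e (nat_lit 417795) (nat_lit 0) .nil)))))))) (.g (nat_lit 4) .nil .nil)))) (.nd (nat_lit 6) 
(.lf (nat_lit 109758) (.g (nat_lit 2978) (.e (nat_lit 5389) (nat_lit 301) (.e (nat_lit 57464) (nat_lit 23) (.e (nat_lit 516151) (nat_lit 9) (.e (nat_lit 426211) (nat_lit 9) (.e (nat_lit 426140) (nat_lit 3) .nil))))) .nil)) 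
(.lf (nat_lit 109822) (.g (nat_lit 2656) (.e (nat_lit 5389) (nat_lit 301) (.e (nat_lit 57464) (nat_lit 23) (.e (nat_lit 516163) (nat_lit 11) (.e (nat_lit 442427) (nat_lit 23) (.e (nat_lit 204848) (nat_lit 25) (.e (nat_lit 327704) (nat_lit 10) .nil)))))) (.g (nat_lit 0) .nil .nil))))))))) (.nd (nat_lit 1) (.nd (nat_lit 2) (.nd (nat_lit 3) (.nd (nat_lit 4) (.nd (nat_lit 5) (.nd (nat_lit 6) 
(.lf (nat_lit 109697) (.g (nat_lit 1119) (.e (nat_lit 5386) (nat_lit 300) (.e (nat_lit 16473) (nat_lit 14) (.e (nat_lit 491568) (nat_lit 13) .nil))) .nil)) 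
(.lf (nat_lit 109761) (.g (nat_lit 3121) (.e (nat_lit 5389) (nat_lit 301) (.e (nat_lit 57464) (nat_lit 23) (.e (nat_lit 516151) (nat_lit 9) (.e (nat_lit 426211) (nat_lit 9) (.e (nat_lit 426140) (nat_lit 3) (.e (nat_lit 204846) (nat_lit 24) (.e (nat_lit 319505) (nat_lit 10) .nil))))))) (.g (nat_lit 4) .nil .nil)))) (.nd (nat_lit 6) 
(.lf (nat_lit 109729) (.g (nat_lit 1968) (.e (nat_lit 7936) (nat_lit 300) (.e (nat_lit 16470) (nat_lit 14) (.e (nat_lit 491571) (nat_lit 13) (.e (nat_lit 393262) (nat_lit 22) (.e (nat_lit 417814) (nat_lit 10) .nil))))) .nil)) 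
(.lf (nat_lit 109793) (.g (nat_lit 2883) (.e (nat_lit 5389) (nat_lit 301) (.e (nat_lit 57464) (nat_lit 23) (.e (nat_lit 516151) (nat_lit 9) (.e (nat_lit 426290) (nat_lit 10) (.e (nat_lit 434231) (nat_lit 23) (.e (nat_lit 532525) (nat_lit 8) (.e (nat_lit 327704) (nat_lit 10) .nil))))))) (.g (nat_lit 5) .nil .nil))))) (.nd (nat_lit 5) (.nd (nat_lit 6) 
(.lf (nat_lit 109713) (.g (nat_lit 1696) (.e (nat_lit 7936) (nat_lit 300) (.e (nat_lit 16459) (nat_lit 12) (.e (nat_lit 475211) (nat_lit 41) (.e (nat_lit 712742) (nat_lit 27) (.e (nat_lit 426173) (nat_lit 7) .nil))))) .nil)) 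
(.lf (nat_lit 109777) (.g (nat_lit 1945) (.e (nat_lit 5389) (nat_lit 301) (.e (nat_lit 57464) (nat_lit 23) (.e (nat_lit 516151) (nat_lit 9) (.e (nat_lit 426285) (nat_lit 10) .nil)))) .nil))) (.nd (nat_lit 6) 
(.lf (nat_lit 109745) (.g (nat_lit 3146) (.e (nat_lit 5389) (nat_lit 301) (.e (nat_lit 57464) (nat_lit 23) (.e (nat_lit 516139) (nat_lit 7) (.e (nat_lit 409602) (nat_lit 0) (.e (nat_lit 5270) (nat_lit 298) (.e (nat_lit 1256) (nat_lit 92) (.e (nat_lit 98350) (nat_lit 24) (.e (nat_lit 409602) (nat_lit 0) .nil)))))))) (.g (nat_lit 4) .nil .nil))) 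
(.lf (nat_lit 109809) (.g (nat_lit 2097) (.e (nat_lit 5389) (nat_lit 301) (.e (nat_lit 57464) (nat_lit 23) (.e (nat_lit 516163) (nat_lit 11) (.e (nat_lit 442424) (nat_lit 22) (.e (nat_lit 196661) (nat_lit 12) (.e (nat_lit 57712) (nat_lit 176) (.e (nat_lit 977) (nat_lit 81) .nil))))))) (.g (nat_lit 4) .nil .nil)))))) (.nd (nat_lit 4) (.nd (nat_lit 5) (.nd (nat_lit 6) 
(.lf (nat_lit 109705) (.g (nat_lit 984) (.e (nat_lit 7936) (nat_lit 300) (.e (nat_lit 16388) (nat_lit 0) (.e (nat_lit 7589) (nat_lit 406) (.e (nat_lit 65651) (nat_lit 27) .nil)))) .nil)) 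
(.lf (nat_lit 109769) (.g (nat_lit 4482) (.e (nat_lit 5389) (nat_lit 301) (.e (nat_lit 57464) (nat_lit 23) (.e (nat_lit 516151) (nat_lit 9) (.e (nat_lit 426216) (nat_lit 9) (.e (nat_lit 426140) (nat_lit 3) (.e (nat_lit 204846) (nat_lit 24) (.e (nat_lit 319504) (nat_lit 10) .nil))))))) (.g (nat_lit 6) .nil .nil)))) (.nd (nat_lit 6) 
(.lf (nat_lit 109737) (.g (nat_lit 841) (.e (nat_lit 7936) (nat_lit 300) (.e (nat_lit 16473) (nat_lit 14) (.e (nat_lit 491552) (nat_lit 9) (.e (nat_lit 336412) (nat_lit 27) (.e (nat_lit 426182) (nat_lit 8) .nil))))) .nil)) 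
(.lf (nat_lit 109801) (.g (nat_lit 1769) (.e (nat_lit 5389) (nat_lit 301) (.e (nat_lit 57464) (nat_lit 23) (.e (nat_lit 516163) (nat_lit 11) (.e (nat_lit 442424) (nat_lit 22) (.e (nat_lit 196661) (nat_lit 12) .nil))))) .nil)))) (.nd (nat_lit 5) (.nd (nat_lit 6) 
(.lf (nat_lit 109721) (.g (nat_lit 419) (.e (nat_lit 7936) (nat_lit 300) (.e (nat_lit 16470) (nat_lit 14) (.e (nat_lit 491571) (nat_lit 13) .nil))) .nil)) 
(.lf (nat_lit 109785) (.g (nat_lit 2202) (.e (nat_lit 5389) (nat_lit 301) (.e (nat_lit 57464) (nat_lit 23) (.e (nat_lit 516151) (nat_lit 9) (.e (nat_lit 426286) (nat_lit 10) (.e (nat_lit 434234) (nat_lit 23) .nil))))) .nil))) (.nd (nat_lit 6) 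
(.lf (nat_lit 109753) (.g (nat_lit 2075) (.e (nat_lit 5389) (nat_lit 301) (.e (nat_lit 57464) (nat_lit 23) (.e (nat_lit 516151) (nat_lit 9) (.e (nat_lit 426195) (nat_lit 9) .nil)))) .nil)) 
(.lf (nat_lit 109817) (.g (nat_lit 2777) (.e (nat_lit 5389) (nat_lit 301) (.e (nat_lit 57464) (nat_lit 23) (.e (nat_lit 516163) (nat_lit 11) (.e (nat_lit 442427) (nat_lit 23) (.e (nat_lit 204845) (nat_lit 24) (.e (nat_lit 319497) (nat_lit 10) .nil)))))) (.g (nat_lit 5) .nil .nil))))))) (.nd (nat_lit 3) (.nd (nat_lit 4) (.nd (nat_lit 5) (.nd (nat_lit 6) 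
(.lf (nat_lit 109701) (.g (nat_lit 1790) (.e (nat_lit 7936) (nat_lit 300) (.e (nat_lit 16388) (nat_lit 0) (.e (nat_lit 7536) (nat_lit 402) (.e (nat_lit 1656) (nat_lit 115) (.e (nat_lit 393265) (nat_lit 22) .nil))))) .nil)) 
(.lf (nat_lit 109765) (.g (nat_lit 2024) (.e (nat_lit 5389) (nat_lit 301) (.e (nat_lit 57464) (nat_lit 23) (.e (nat_lit 516151) (nat_lit 9) (.e (nat_lit 426215) (nat_lit 9) .nil)))) .nil))) (.nd (nat_lit 6) 
(.lf (nat_lit 109733) (.g (nat_lit 2495) (.e (nat_lit 7936) (nat_lit 300) (.e (nat_lit 16470) (nat_lit 14) (.e (nat_lit 491571) (nat_lit 13) (.e (nat_lit 393263) (nat_lit 22) (.e (nat_lit 417814) (nat_lit 10) .nil))))) .nil)) 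
(.lf (nat_lit 109797) (.g (nat_lit 2458) (.e (nat_lit 5389) (nat_lit 301) (.e (nat_lit 57464) (nat_lit 23) (.e (nat_lit 516151) (nat_lit 9) (.e (nat_lit 426338) (nat_lit 14) (.e (nat_lit 491540) (nat_lit 3) .nil))))) .nil)))) (.nd (nat_lit 5) (.nd (nat_lit 6) 
(.lf (nat_lit 109717) (.g (nat_lit 1679) (.e (nat_lit 7936) (nat_lit 300) (.e (nat_lit 16470) (nat_lit 14) (.e (nat_lit 491569) (nat_lit 13) (.e (nat_lit 393238) (nat_lit 17) .nil)))) .nil)) 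
(.lf (nat_lit 109781) (.g (nat_lit 3551) (.e (nat_lit 5389) (nat_lit 301) (.e (nat_lit 57464) (nat_lit 23) (.e (nat_lit 516151) (nat_lit 9) (.e (nat_lit 426286) (nat_lit 10) (.e (nat_lit 434231) (nat_lit 23) (.e (nat_lit 532525) (nat_lit 8) (.e (nat_lit 327704) (nat_lit 10) .nil))))))) (.g (nat_lit 6) .nil .nil)))) (.nd (nat_lit 6) 
(.lf (nat_lit 109749) (.g (nat_lit 1874) (.e (nat_lit 5389) (nat_lit 301) (.e (nat_lit 57464) (nat_lit 23) (.e (nat_lit 516151) (nat_lit 9) (.e (nat_lit 426170) (nat_lit 7) .nil)))) .nil)) 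
(.lf (nat_lit 109813) (.g (nat_lit 3263) (.e (nat_lit 5389) (nat_lit 301) (.e (nat_lit 57464) (nat_lit 23) (.e (nat_lit 516163) (nat_lit 11) (.e (nat_lit 442426) (nat_lit 23) (.e (nat_lit 204846) (nat_lit 24) (.e (nat_lit 319504) (nat_lit 10) .nil)))))) (.g (nat_lit 6) .nil .nil)))))) (.nd (nat_lit 4) (.nd (nat_lit 5) (.nd (nat_lit 6) 
(.lf (nat_lit 109709) (.g (nat_lit 1420) (.e (nat_lit 7936) (nat_lit 300) (.e (nat_lit 16425) (nat_lit 7) (.e (nat_lit 409617) (nat_lit 10) (.e (nat_lit 7936) (nat_lit 300) .nil)))) .nil)) 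
(.lf (nat_lit 109773) (.g (nat_lit 2734) (.e (nat_lit 5389) (nat_lit 301) (.e (nat_lit 57464) (nat_lit 23) (.e (nat_lit 516151) (nat_lit 9) (.e (nat_lit 426275) (nat_lit 10) (.e (nat_lit 434233) (nat_lit 23) .nil))))) .nil))) (.nd (nat_lit 6) 
(.lf (nat_lit 109741) (.g (nat_lit 57) (.e (nat_lit 7936) (nat_lit 300) (.e (nat_lit 16473) (nat_lit 14) (.e (nat_lit 491567) (nat_lit 13) .nil))) .nil)) 
(.lf (nat_lit 109805) (.g (nat_lit 1790) (.e (nat_lit 5389) (nat_lit 301) (.e (nat_lit 57464) (nat_lit 23) (.e (nat_lit 516163) (nat_lit 11) (.e (nat_lit 442424) (nat_lit 22) (.e (nat_lit 196661) (nat_lit 12) (.e (nat_lit 57711) (nat_lit 176) (.e (nat_lit 1073) (nat_lit 81) .nil))))))) (.g (nat_lit 4) .nil .nil))))) (.nd (nat_lit 5) (.nd (nat_lit 6) 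
(.lf (nat_lit 109725) (.g (nat_lit 1100) (.e (nat_lit 7936) (nat_lit 300) (.e (nat_lit 16470) (nat_lit 14) (.e (nat_lit 491571) (nat_lit 13) (.e (nat_lit 393259) (nat_lit 21) .nil)))) .nil)) 
(.lf (nat_lit 109789) (.g (nat_lit 1764) (.e (nat_lit 5389) (nat_lit 301) (.e (nat_lit 57464) (nat_lit 23) (.e (nat_lit 516151) (nat_lit 9) (.e (nat_lit 426286) (nat_lit 10) (.e (nat_lit 434247) (nat_lit 28) .nil))))) .nil))) (.nd (nat_lit 6) 
(.lf (nat_lit 109757) (.g (nat_lit 3032) (.e (nat_lit 5389) (nat_lit 301) (.e (nat_lit 57464) (nat_lit 23) (.e (nat_lit 516151) (nat_lit 9) (.e (nat_lit 426211) (nat_lit 9) (.e (nat_lit 426125) (nat_lit 2) (.e (nat_lit 204544) (nat_lit 18) (.e (nat_lit 2769) (nat_lit 177) (.e (nat_lit 278553) (nat_lit 10) .nil)))))))) (.g (nat_lit 4) .nil .nil))) 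
(.lf (nat_lit 109821) (.g (nat_lit 4498) (.e (nat_lit 5389) (nat_lit 301) (.e (nat_lit 57464) (nat_lit 23) (.e (nat_lit 516163) (nat_lit 11) (.e (nat_lit 442427) (nat_lit 23) (.e (nat_lit 204846) (nat_lit 24) (.e (nat_lit 319504) (nat_lit 10) .nil)))))) (.g (nat_lit 6) .nil .nil)))))))) (.nd (nat_lit 2) (.nd (nat_lit 3) (.nd (nat_lit 4) (.nd (nat_lit 5) (.nd (nat_lit 6) 
(.lf (nat_lit 109699) (.g (nat_lit 3400) (.e (nat_lit 5386) (nat_lit 300) (.e (nat_lit 16473) (nat_lit 14) (.e (nat_lit 491568) (nat_lit 13) (.e (nat_lit 393259) (nat_lit 21) (.e (nat_lit 417536) (nat_lit 10) .nil))))) (.g (nat_lit 4) .nil .nil))) 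
(.lf (nat_lit 109763) (.g (nat_lit 2001) (.e (nat_lit 5389) (nat_lit 301) (.e (nat_lit 57464) (nat_lit 23) (.e (nat_lit 516151) (nat_lit 9) (.e (nat_lit 426212) (nat_lit 9) .nil)))) .nil))) (.nd (nat_lit 6) 
(.lf (nat_lit 109731) (.g (nat_lit 1619) (.e (nat_lit 7936) (nat_lit 300) (.e (nat_lit 16470) (nat_lit 14) (.e (nat_lit 491571) (nat_lit 13) (.e (nat_lit 393262) (nat_lit 22) (.e (nat_lit 417817) (nat_lit 10) .nil))))) .nil)) 
(.lf (nat_lit 109795) (.g (nat_lit 2054) (.e (nat_lit 5389) (nat_lit 301) (.e (nat_lit 57464) (nat_lit 23) (.e (nat_lit 516151) (nat_lit 9) (.e (nat_lit 426301) (nat_lit 11) .nil)))) .nil)))) (.nd (nat_lit 5) (.nd (nat_lit 6) 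
(.lf (nat_lit 109715) (.g (nat_lit 2675) (.e (nat_lit 7936) (nat_lit 300) (.e (nat_lit 16470) (nat_lit 14) (.e (nat_lit 491547) (nat_lit 9) (.e (nat_lit 336369) (nat_lit 27) (.e (nat_lit 426173) (nat_lit 7) .nil))))) .nil)) 
(.lf (nat_lit 109779) (.g (nat_lit 2958) (.e (nat_lit 5389) (nat_lit 301) (.e (nat_lit 57464) (nat_lit 23) (.e (nat_lit 516151) (nat_lit 9) (.e (nat_lit 426285) (nat_lit 10) (.e (nat_lit 434233) (nat_lit 23) .nil))))) .nil))) (.nd (nat_lit 6) 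
(.lf (nat_lit 109747) (.g (nat_lit 2959) (.e (nat_lit 5389) (nat_lit 301) (.e (nat_lit 57464) (nat_lit 23) (.e (nat_lit 516139) (nat_lit 7) (.e (nat_lit 409602) (nat_lit 0) (.e (nat_lit 5389) (nat_lit 301) .nil))))) .nil)) 
(.lf (nat_lit 109811) (.g (nat_lit 1930) (.e (nat_lit 5389) (nat_lit 301) (.e (nat_lit 57464) (nat_lit 23) (.e (nat_lit 516163) (nat_lit 11) (.e (nat_lit 442424) (nat_lit 22) (.e (nat_lit 196661) (nat_lit 12) (.e (nat_lit 57712) (nat_lit 176) (.e (nat_lit 1083) (nat_lit 81) .nil))))))) (.g (nat_lit 4) .nil .nil)))))) (.nd (nat_lit 4) (.nd (nat_lit 5) (.nd (nat_lit 6) 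
(.lf (nat_lit 109707) (.g (nat_lit 1219) (.e (nat_lit 7936) (nat_lit 300) (.e (nat_lit 16392) (nat_lit 0) (.e (nat_lit 7537) (nat_lit 402) (.e (nat_lit 1428) (nat_lit 108) .nil)))) .nil)) 
(.lf (nat_lit 109771) (.g (nat_lit 2054) (.e (nat_lit 5389) (nat_lit 301) (.e (nat_lit 57464) (nat_lit 23) (.e (nat_lit 516151) (nat_lit 9) (.e (nat_lit 426219) (nat_lit 9) .nil)))) .nil))) (.nd (nat_lit 6) 
(.lf (nat_lit 109739) (.g (nat_lit 835) (.e (nat_lit 7936) (nat_lit 300) (.e (nat_lit 16473) (nat_lit 14) (.e (nat_lit 491556) (nat_lit 9) .nil))) .nil)) 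
(.lf (nat_lit 109803) (.g (nat_lit 1807) (.e (nat_lit 5389) (nat_lit 301) (.e (nat_lit 57464) (nat_lit 23) (.e (nat_lit 516163) (nat_lit 11) (.e (nat_lit 442424) (nat_lit 22) (.e (nat_lit 196661) (nat_lit 12) (.e (nat_lit 57711) (nat_lit 176) (.e (nat_lit 1035) (nat_lit 81) .nil))))))) (.g (nat_lit 4) .nil .nil))))) (.nd (nat_lit 5) (.nd (nat_lit 6) 
(.lf (nat_lit 109723) (.g (nat_lit 2536) (.e (nat_lit 7936) (nat_lit 300) (.e (nat_lit 16470) (nat_lit 14) (.e (nat_lit 491571) (nat_lit 13) (.e (nat_lit 393232) (nat_lit 17) (.e (nat_lit 7073) (nat_lit 377) .nil))))) .nil)) 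
(.lf (nat_lit 109787) (.g (nat_lit 2481) (.e (nat_lit 5389) (nat_lit 301) (.e (nat_lit 57464) (nat_lit 23) (.e (nat_lit 516151) (nat_lit 9) (.e (nat_lit 426286) (nat_lit 10) (.e (nat_lit 434245) (nat_lit 28) (.e (nat_lit 573451) (nat_lit 9) (.e (nat_lit 359) (nat_lit 30) (.e (nat_lit 409603) (nat_lit 0) .nil)))))))) (.g (nat_lit 5) .nil .nil)))) (.nd (nat_lit 6) 
(.lf (nat_lit 109755) (.g (nat_lit 2046) (.e (nat_lit 5389) (nat_lit 301) (.e (nat_lit 57464) (nat_lit 23) (.e (nat_lit 516151) (nat_lit 9) (.e (nat_lit 426210) (nat_lit 9) .nil)))) .nil)) 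
(.lf (nat_lit 109819) (.g (nat_lit 3212) (.e (nat_lit 5389) (nat_lit 301) (.e (nat_lit 57464) (nat_lit 23) (.e (nat_lit 516163) (nat_lit 11) (.e (nat_lit 442427) (nat_lit 23) (.e (nat_lit 204845) (nat_lit 24) (.e (nat_lit 319500) (nat_lit 10) .nil)))))) (.g (nat_lit 0) .nil .nil))))))) (.nd (nat_lit 3) (.nd (nat_lit 4) (.nd (nat_lit 5) (.nd (nat_lit 6) 
(.lf (nat_lit 109703) (.g (nat_lit 973) (.e (nat_lit 7936) (nat_lit 300) (.e (nat_lit 16388) (nat_lit 0) (.e (nat_lit 7587) (nat_lit 406) (.e (nat_lit 65653) (nat_lit 27) .nil)))) .nil)) 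
(.lf (nat_lit 109767) (.g (nat_lit 2436) (.e (nat_lit 5389) (nat_lit 301) (.e (nat_lit 57464) (nat_lit 23) (.e (nat_lit 516151) (nat_lit 9) (.e (nat_lit 426216) (nat_lit 9) (.e (nat_lit 426140) (nat_lit 3) (.e (nat_lit 204845) (nat_lit 24) (.e (nat_lit 319499) (nat_lit 10) .nil))))))) (.g (nat_lit 4) .nil .nil)))) (.nd (nat_lit 6) 
(.lf (nat_lit 109735) (.g (nat_lit 970) (.e (nat_lit 7936) (nat_lit 300) (.e (nat_lit 16473) (nat_lit 14) (.e (nat_lit 491551) (nat_lit 9) .nil))) .nil)) 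
(.lf (nat_lit 109799) (.g (nat_lit 2635) (.e (nat_lit 5389) (nat_lit 301) (.e (nat_lit 57464) (nat_lit 23) (.e (nat_lit 516151) (nat_lit 9) (.e (nat_lit 426338) (nat_lit 14) (.e (nat_lit 491540) (nat_lit 3) (.e (nat_lit 98350) (nat_lit 24) (.e (nat_lit 409603) (nat_lit 0) .nil))))))) (.g (nat_lit 4) .nil .nil))))) (.nd (nat_lit 5) (.nd (nat_lit 6) 
(.lf (nat_lit 109719) (.g (nat_lit 2187) (.e (nat_lit 7936) (nat_lit 300) (.e (nat_lit 16470) (nat_lit 14) (.e (nat_lit 491569) (nat_lit 13) (.e (nat_lit 393259) (nat_lit 21) (.e (nat_lit 409617) (nat_lit 10) .nil))))) .nil)) 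
(.lf (nat_lit 109783) (.g (nat_lit 2799) (.e (nat_lit 5389) (nat_lit 301) (.e (nat_lit 57464) (nat_lit 23) (.e (nat_lit 516151) (nat_lit 9) (.e (nat_lit 426286) (nat_lit 10) (.e (nat_lit 434231) (nat_lit 23) (.e (nat_lit 532526) (nat_lit 8) (.e (nat_lit 327705) (nat_lit 10) .nil))))))) (.g (nat_lit 5) .nil .nil)))) (.nd (nat_lit 6) 
(.lf (nat_lit 109751) (.g (nat_lit 2290) (.e (nat_lit 5389) (nat_lit 301) (.e (nat_lit 57464) (nat_lit 23) (.e (nat_lit 516151) (nat_lit 9) (.e (nat_lit 426185) (nat_lit 9) (.e (nat_lit 426125) (nat_lit 2) (.e (nat_lit 196661) (nat_lit 12) (.e (nat_lit 57714) (nat_lit 176) (.e (nat_lit 995) (nat_lit 81) .nil)))))))) (.g (nat_lit 4) .nil .nil))) 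
(.lf (nat_lit 109815) (.g (nat_lit 1600) (.e (nat_lit 5389) (nat_lit 301) (.e (nat_lit 57464) (nat_lit 23) (.e (nat_lit 516163) (nat_lit 11) (.e (nat_lit 442427) (nat_lit 23) (.e (nat_lit 204821) (nat_lit 17) (.e (nat_lit 6114) (nat_lit 332) (.e (nat_lit 1085) (nat_lit 81) .nil))))))) (.g (nat_lit 4) .nil .nil)))))) (.nd (nat_lit 4) (.nd (nat_lit 5) (.nd (nat_lit 6) 
(.lf (nat_lit 109711) (.g (nat_lit 1686) (.e (nat_lit 7936) (nat_lit 300) (.e (nat_lit 16459) (nat_lit 12) (.e (nat_lit 475199) (nat_lit 40) (.e (nat_lit 704596) (nat_lit 5) (.e (nat_lit 180287) (nat_lit 45) .nil))))) .nil)) 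
(.lf (nat_lit 109775) (.g (nat_lit 2497) (.e (nat_lit 5389) (nat_lit 301) (.e (nat_lit 57464) (nat_lit 23) (.e (nat_lit 516151) (nat_lit 9) (.e (nat_lit 426281) (nat_lit 10) (.e (nat_lit 434233) (nat_lit 23) (.e (nat_lit 532523) (nat_lit 7) (.e (nat_lit 319504) (nat_lit 10) .nil))))))) (.g (nat_lit 4) .nil .nil)))) (.nd (nat_lit 6) 
(.lf (nat_lit 109743) (.g (nat_lit 1686) (.e (nat_lit 7936) (nat_lit 300) (.e (nat_lit 16473) (nat_lit 14) (.e (nat_lit 491568) (nat_lit 13) (.e (nat_lit 393260) (nat_lit 21) .nil)))) .nil)) 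
(.lf (nat_lit 109807) (.g (nat_lit 1790) (.e (nat_lit 5389) (nat_lit 301) (.e (nat_lit 57464) (nat_lit 23) (.e (nat_lit 516163) (nat_lit 11) (.e (nat_lit 442424) (nat_lit 22) (.e (nat_lit 196661) (nat_lit 12) (.e (nat_lit 57711) (nat_lit 176) (.e (nat_lit 1108) (nat_lit 81) .nil))))))) (.g (nat_lit 4) .nil .nil))))) (.nd (nat_lit 5) (.nd (nat_lit 6) 
(.lf (nat_lit 109727) (.g (nat_lit 2106) (.e (nat_lit 7936) (nat_lit 300) (.e (nat_lit 16470) (nat_lit 14) (.e (nat_lit 491571) (nat_lit 13) (.e (nat_lit 393259) (nat_lit 21) (.e (nat_lit 409614) (nat_lit 10) .nil))))) .nil)) 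
(.lf (nat_lit 109791) (.g (nat_lit 2054) (.e (nat_lit 5389) (nat_lit 301) (.e (nat_lit 57464) (nat_lit 23) (.e (nat_lit 516151) (nat_lit 9) (.e (nat_lit 426289) (nat_lit 10) .nil)))) .nil))) (.nd (nat_lit 6) 
(.lf (nat_lit 109759) (.g (nat_lit 3014) (.e (nat_lit 5389) (nat_lit 301) (.e (nat_lit 57464) (nat_lit 23) (.e (nat_lit 516151) (nat_lit 9) (.e (nat_lit 426211) (nat_lit 9) (.e (nat_lit 426140) (nat_lit 3) (.e (nat_lit 204845) (nat_lit 24) (.e (nat_lit 319505) (nat_lit 10) .nil))))))) (.g (nat_lit 4) .nil .nil))) 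
(.lf (nat_lit 109823) (.g (nat_lit 273) (.e (nat_lit 5389) (nat_lit 301) (.e (nat_lit 57464) (nat_lit 23) (.e (nat_lit 516164) (nat_lit 11) .nil))) .nil)))))))))

noncomputable def tv1481 : DT := (.nd (nat_lit 0) (.nd (nat_lit 1) (.nd (nat_lit 2) (.nd (nat_lit 3) (.nd (nat_lit 4) (.nd (nat_lit 5) (.nd (nat_lit 6) 
(.lf (nat_lit 109824) (.g (nat_lit 868) (.e (nat_lit 5389) (nat_lit 301) (.e (nat_lit 57464) (nat_lit 23) (.e (nat_lit 516165) (nat_lit 12) (.e (nat_lit 458496) (nat_lit 1) .nil)))) .nil)) 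
(.lf (nat_lit 109888) (.g (nat_lit 2086) (.e (nat_lit 5393) (nat_lit 301) (.e (nat_lit 57479) (nat_lit 28) (.e (nat_lit 557105) (nat_lit 14) (.e (nat_lit 180264) (nat_lit 21) .nil)))) .nil))) (.nd (nat_lit 6) 
(.lf (nat_lit 109856) (.g (nat_lit 2068) (.e (nat_lit 5390) (nat_lit 301) (.e (nat_lit 57464) (nat_lit 23) (.e (nat_lit 516151) (nat_lit 9) (.e (nat_lit 426211) (nat_lit 9) .nil)))) .nil)) 
(.lf (nat_lit 109920) (.g (nat_lit 2053) (.e (nat_lit 5394) (nat_lit 301) (.e (nat_lit 57464) (nat_lit 23) (.e (nat_lit 516139) (nat_lit 7) (.e (nat_lit 409604) (nat_lit 0) (.e (nat_lit 5394) (nat_lit 301) .nil))))) .nil)))) (.nd (nat_lit 5) (.nd (nat_lit 6) 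
(.lf (nat_lit 109840) (.g (nat_lit 1669) (.e (nat_lit 5389) (nat_lit 301) (.e (nat_lit 57464) (nat_lit 23) (.e (nat_lit 516166) (nat_lit 12) (.e (nat_lit 450579) (nat_lit 5) (.e (nat_lit 532523) (nat_lit 7) .nil))))) .nil)) 
(.lf (nat_lit 109904) (.g (nat_lit 2046) (.e (nat_lit 5393) (nat_lit 301) (.e (nat_lit 57480) (nat_lit 28) (.e (nat_lit 557105) (nat_lit 14) (.e (nat_lit 180227) (nat_lit 0) (.e (nat_lit 5814) (nat_lit 320) .nil))))) .nil))) (.nd (nat_lit 6) 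
(.lf (nat_lit 109872) (.g (nat_lit 1410) (.e (nat_lit 5393) (nat_lit 301) (.e (nat_lit 57477) (nat_lit 28) (.e (nat_lit 557103) (nat_lit 14) (.e (nat_lit 180263) (nat_lit 21) (.e (nat_lit 663566) (nat_lit 4) .nil))))) .nil)) 
(.lf (nat_lit 109936) (.g (nat_lit 3066) (.e (nat_lit 5394) (nat_lit 301) (.e (nat_lit 57464) (nat_lit 23) (.e (nat_lit 516151) (nat_lit 9) (.e (nat_lit 426171) (nat_lit 7) (.e (nat_lit 409631) (nat_lit 12) (.e (nat_lit 32805) (nat_lit 17) (.e (nat_lit 164209) (nat_lit 176) (.e (nat_lit 1079) (nat_lit 81) .nil)))))))) (.g (nat_lit 5) .nil .nil)))))) 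
(.nd (nat_lit 4) (.nd (nat_lit 5) (.nd (nat_lit 6) 
(.lf (nat_lit 109832) (.g (nat_lit 2734) (.e (nat_lit 5389) (nat_lit 301) (.e (nat_lit 57464) (nat_lit 23) (.e (nat_lit 516165) (nat_lit 12) (.e (nat_lit 450579) (nat_lit 5) (.e (nat_lit 532526) (nat_lit 8) (.e (nat_lit 327704) (nat_lit 10) .nil)))))) (.g (nat_lit 0) .nil .nil))) 
(.lf (nat_lit 109896) (.g (nat_lit 1512) (.e (nat_lit 5393) (nat_lit 301) (.e (nat_lit 57480) (nat_lit 28) (.e (nat_lit 557103) (nat_lit 14) (.e (nat_lit 180233) (nat_lit 0) .nil)))) .nil))) (.nd (nat_lit 6) 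
(.lf (nat_lit 109864) (.g (nat_lit 2175) (.e (nat_lit 5391) (nat_lit 301) (.e (nat_lit 57464) (nat_lit 23) (.e (nat_lit 516151) (nat_lit 9) (.e (nat_lit 426170) (nat_lit 7) .nil)))) .nil)) 
(.lf (nat_lit 109928) (.g (nat_lit 2507) (.e (nat_lit 5394) (nat_lit 301) (.e (nat_lit 57464) (nat_lit 23) (.e (nat_lit 516151) (nat_lit 9) (.e (nat_lit 426170) (nat_lit 7) (.e (nat_lit 409631) (nat_lit 12) .nil))))) .nil)))) (.nd (nat_lit 5) (.nd (nat_lit 6) 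
(.lf (nat_lit 109848) (.g (nat_lit 3071) (.e (nat_lit 5389) (nat_lit 301) (.e (nat_lit 57464) (nat_lit 23) (.e (nat_lit 516167) (nat_lit 12) (.e (nat_lit 450580) (nat_lit 5) (.e (nat_lit 532523) (nat_lit 7) (.e (nat_lit 319504) (nat_lit 10) .nil)))))) (.g (nat_lit 6) .nil .nil))) 
(.lf (nat_lit 109912) (.g (nat_lit 2021) (.e (nat_lit 5394) (nat_lit 301) (.e (nat_lit 57354) (nat_lit 0) (.e (nat_lit 7270) (nat_lit 385) (.e (nat_lit 122906) (nat_lit 12) (.e (nat_lit 336219) (nat_lit 13) .nil))))) .nil))) (.nd (nat_lit 6) 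
(.lf (nat_lit 109880) (.g (nat_lit 849) (.e (nat_lit 5393) (nat_lit 301) (.e (nat_lit 57477) (nat_lit 28) (.e (nat_lit 557104) (nat_lit 14) (.e (nat_lit 180265) (nat_lit 21) .nil)))) .nil)) 
(.lf (nat_lit 109944) (.g (nat_lit 2766) (.e (nat_lit 5394) (nat_lit 301) (.e (nat_lit 57464) (nat_lit 23) (.e (nat_lit 516151) (nat_lit 9) (.e (nat_lit 426211) (nat_lit 9) (.e (nat_lit 426140) (nat_lit 3) .nil))))) .nil)))))) (.nd (nat_lit 3) (.nd (nat_lit 4) (.nd (nat_lit 5) (.nd (nat_lit 6) 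
(.lf (nat_lit 109828) (.g (nat_lit 2431) (.e (nat_lit 5389) (nat_lit 301) (.e (nat_lit 57464) (nat_lit 23) (.e (nat_lit 516165) (nat_lit 12) (.e (nat_lit 450579) (nat_lit 5) (.e (nat_lit 532525) (nat_lit 8) (.e (nat_lit 327704) (nat_lit 10) .nil)))))) (.g (nat_lit 5) .nil .nil))) 
(.lf (nat_lit 109892) (.g (nat_lit 1568) (.e (nat_lit 5393) (nat_lit 301) (.e (nat_lit 57480) (nat_lit 28) (.e (nat_lit 557103) (nat_lit 14) (.e (nat_lit 180225) (nat_lit 0) .nil)))) .nil))) (.nd (nat_lit 6) 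
(.lf (nat_lit 109860) (.g (nat_lit 2274) (.e (nat_lit 5390) (nat_lit 301) (.e (nat_lit 57464) (nat_lit 23) (.e (nat_lit 516151) (nat_lit 9) (.e (nat_lit 426239) (nat_lit 9) .nil)))) .nil)) 
(.lf (nat_lit 109924) (.g (nat_lit 1376) (.e (nat_lit 5394) (nat_lit 301) (.e (nat_lit 57464) (nat_lit 23) (.e (nat_lit 516139) (nat_lit 7) (.e (nat_lit 417536) (nat_lit 18) .nil)))) .nil)))) (.nd (nat_lit 5) (.nd (nat_lit 6) 
(.lf (nat_lit 109844) (.g (nat_lit 4033) (.e (nat_lit 5389) (nat_lit 301) (.e (nat_lit 57464) (nat_lit 23) (.e (nat_lit 516166) (nat_lit 12) (.e (nat_lit 450580) (nat_lit 5) (.e (nat_lit 532523) (nat_lit 7) (.e (nat_lit 319504) (nat_lit 10) .nil)))))) (.g (nat_lit 0) .nil .nil))) 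
(.lf (nat_lit 109908) (.g (nat_lit 1758) (.e (nat_lit 5393) (nat_lit 301) (.e (nat_lit 57480) (nat_lit 28) (.e (nat_lit 557105) (nat_lit 14) (.e (nat_lit 180264) (nat_lit 21) (.e (nat_lit 663566) (nat_lit 4) (.e (nat_lit 65648) (nat_lit 26) (.e (nat_lit 417795) (nat_lit 0) .nil))))))) (.g (nat_lit 4) .nil .nil)))) (.nd (nat_lit 6) 
(.lf (nat_lit 109876) (.g (nat_lit 1346) (.e (nat_lit 5393) (nat_lit 301) (.e (nat_lit 57477) (nat_lit 28) (.e (nat_lit 557104) (nat_lit 14) (.e (nat_lit 180233) (nat_lit 0) (.e (nat_lit 5816) (nat_lit 320) .nil))))) .nil)) 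
(.lf (nat_lit 109940) (.g (nat_lit 2219) (.e (nat_lit 5394) (nat_lit 301) (.e (nat_lit 57464) (nat_lit 23) (.e (nat_lit 516151) (nat_lit 9) (.e (nat_lit 426208) (nat_lit 9) .nil)))) .nil))))) (.nd (nat_lit 4) (.nd (nat_lit 5) (.nd (nat_lit 6) 
(.lf (nat_lit 109836) (.g (nat_lit 1573) (.e (nat_lit 5389) (nat_lit 301) (.e (nat_lit 57464) (nat_lit 23) (.e (nat_lit 516165) (nat_lit 12) (.e (nat_lit 450586) (nat_lit 10) (.e (nat_lit 573452) (nat_lit 9) (.e (nat_lit 365) (nat_lit 31) (.e (nat_lit 417796) (nat_lit 0) .nil))))))) (.g (nat_lit 4) .nil .nil))) 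
(.lf (nat_lit 109900) (.g (nat_lit 1697) (.e (nat_lit 5393) (nat_lit 301) (.e (nat_lit 57480) (nat_lit 28) (.e (nat_lit 557104) (nat_lit 14) (.e (nat_lit 180233) (nat_lit 0) .nil)))) .nil))) (.nd (nat_lit 6) 
(.lf (nat_lit 109868) (.g (nat_lit 2911) (.e (nat_lit 5391) (nat_lit 301) (.e (nat_lit 57464) (nat_lit 23) (.e (nat_lit 516151) (nat_lit 9) (.e (nat_lit 426286) (nat_lit 10) (.e (nat_lit 434248) (nat_lit 28) (.e (nat_lit 573452) (nat_lit 9) (.e (nat_lit 365) (nat_lit 31) (.e (nat_lit 417795) (nat_lit 0) .nil)))))))) (.g (nat_lit 5) .nil .nil))) 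
(.lf (nat_lit 109932) (.g (nat_lit 1760) (.e (nat_lit 5394) (nat_lit 301) (.e (nat_lit 57464) (nat_lit 23) (.e (nat_lit 516151) (nat_lit 9) (.e (nat_lit 426171) (nat_lit 7) .nil)))) .nil)))) (.nd (nat_lit 5) (.nd (nat_lit 6) 
(.lf (nat_lit 109852) (.g (nat_lit 2130) (.e (nat_lit 5390) (nat_lit 301) (.e (nat_lit 57464) (nat_lit 23) (.e (nat_lit 516151) (nat_lit 9) (.e (nat_lit 426185) (nat_lit 9) .nil)))) .nil)) 
(.lf (nat_lit 109916) (.g (nat_lit 2543) (.e (nat_lit 5394) (nat_lit 301) (.e (nat_lit 57464) (nat_lit 23) (.e (nat_lit 516139) (nat_lit 7) (.e (nat_lit 409602) (nat_lit 0) (.e (nat_lit 5394) (nat_lit 301) .nil))))) .nil))) (.nd (nat_lit 6) 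
(.lf (nat_lit 109884) (.g (nat_lit 2891) (.e (nat_lit 5393) (nat_lit 301) (.e (nat_lit 57479) (nat_lit 28) (.e (nat_lit 557105) (nat_lit 14) (.e (nat_lit 180227) (nat_lit 0) (.e (nat_lit 5814) (nat_lit 320) .nil))))) .nil)) 
(.lf (nat_lit 109948) (.g (nat_lit 1836) (.e (nat_lit 5394) (nat_lit 301) (.e (nat_lit 57464) (nat_lit 23) (.e (nat_lit 516151) (nat_lit 9) (.e (nat_lit 426216) (nat_lit 9) .nil)))) .nil))))))) (.nd (nat_lit 2) (.nd (nat_lit 3) (.nd (nat_lit 4) (.nd (nat_lit 5) (.nd (nat_lit 6) 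
(.lf (nat_lit 109826) (.g (nat_lit 1428) (.e (nat_lit 5389) (nat_lit 301) (.e (nat_lit 57464) (nat_lit 23) (.e (nat_lit 516165) (nat_lit 12) (.e (nat_lit 450579) (nat_lit 5) (.e (nat_lit 532523) (nat_lit 7) .nil))))) .nil)) 
(.lf (nat_lit 109890) (.g (nat_lit 2694) (.e (nat_lit 5393) (nat_lit 301) (.e (nat_lit 57479) (nat_lit 28) (.e (nat_lit 557105) (nat_lit 14) (.e (nat_lit 180265) (nat_lit 21) (.e (nat_lit 663566) (nat_lit 4) .nil))))) .nil))) (.nd (nat_lit 6) 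
(.lf (nat_lit 109858) (.g (nat_lit 2288) (.e (nat_lit 5390) (nat_lit 301) (.e (nat_lit 57464) (nat_lit 23) (.e (nat_lit 516151) (nat_lit 9) (.e (nat_lit 426214) (nat_lit 9) .nil)))) .nil)) 
(.lf (nat_lit 109922) (.g (nat_lit 1882) (.e (nat_lit 5394) (nat_lit 301) (.e (nat_lit 57464) (nat_lit 23) (.e (nat_lit 516139) (nat_lit 7) (.e (nat_lit 409643) (nat_lit 18) (.e (nat_lit 303119) (nat_lit 3) (.e (nat_lit 204846) (nat_lit 24) (.e (nat_lit 319490) (nat_lit 0) .nil))))))) (.g (nat_lit 4) .nil .nil))))) (.nd (nat_lit 5) (.nd (nat_lit 6) 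
(.lf (nat_lit 109842) (.g (nat_lit 1042) (.e (nat_lit 5389) (nat_lit 301) (.e (nat_lit 57464) (nat_lit 23) (.e (nat_lit 516166) (nat_lit 12) (.e (nat_lit 450580) (nat_lit 5) .nil)))) .nil)) 
(.lf (nat_lit 109906) (.g (nat_lit 1757) (.e (nat_lit 5393) (nat_lit 301) (.e (nat_lit 57480) (nat_lit 28) (.e (nat_lit 557105) (nat_lit 14) (.e (nat_lit 180233) (nat_lit 0) (.e (nat_lit 5818) (nat_lit 320) .nil))))) .nil))) (.nd (nat_lit 6) 
(.lf (nat_lit 109874) (.g (nat_lit 1883) (.e (nat_lit 5393) (nat_lit 301) (.e (nat_lit 57477) (nat_lit 28) (.e (nat_lit 557104) (nat_lit 14) (.e (nat_lit 180229) (nat_lit 0) (.e (nat_lit 5821) (nat_lit 320) .nil))))) .nil)) 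
(.lf (nat_lit 109938) (.g (nat_lit 2190) (.e (nat_lit 5394) (nat_lit 301) (.e (nat_lit 57464) (nat_lit 23) (.e (nat_lit 516151) (nat_lit 9) (.e (nat_lit 426185) (nat_lit 9) (.e (nat_lit 426140) (nat_lit 3) .nil))))) .nil))))) (.nd (nat_lit 4) (.nd (nat_lit 5) (.nd (nat_lit 6) 
(.lf (nat_lit 109834) (.g (nat_lit 2827) (.e (nat_lit 5389) (nat_lit 301) (.e (nat_lit 57464) (nat_lit 23) (.e (nat_lit 516165) (nat_lit 12) (.e (nat_lit 450579) (nat_lit 5) (.e (nat_lit 532526) (nat_lit 8) (.e (nat_lit 327707) (nat_lit 10) .nil)))))) (.g (nat_lit 0) .nil .nil))) 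
(.lf (nat_lit 109898) (.g (nat_lit 838) (.e (nat_lit 5393) (nat_lit 301) (.e (nat_lit 57480) (nat_lit 28) (.e (nat_lit 557104) (nat_lit 14) .nil))) .nil))) (.nd (nat_lit 6) 
(.lf (nat_lit 109866) (.g (nat_lit 2356) (.e (nat_lit 5391) (nat_lit 301) (.e (nat_lit 57464) (nat_lit 23) (.e (nat_lit 516151) (nat_lit 9) (.e (nat_lit 426281) (nat_lit 10) .nil)))) .nil)) 
(.lf (nat_lit 109930) (.g (nat_lit 3256) (.e (nat_lit 5394) (nat_lit 301) (.e (nat_lit 57464) (nat_lit 23) (.e (nat_lit 516151) (nat_lit 9) (.e (nat_lit 426170) (nat_lit 7) (.e (nat_lit 409631) (nat_lit 12) (.e (nat_lit 32794) (nat_lit 14) (.e (nat_lit 2825) (nat_lit 182) (.e (nat_lit 409605) (nat_lit 0) .nil)))))))) (.g (nat_lit 6) .nil .nil))))) (.nd (nat_lit 5) (.nd (nat_lit 6) 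
(.lf (nat_lit 109850) (.g (nat_lit 2128) (.e (nat_lit 5389) (nat_lit 301) (.e (nat_lit 57479) (nat_lit 28) (.e (nat_lit 557105) (nat_lit 14) (.e (nat_lit 180264) (nat_lit 21) .nil)))) .nil)) 
(.lf (nat_lit 109914) (.g (nat_lit 4286) (.e (nat_lit 5394) (nat_lit 301) (.e (nat_lit 57464) (nat_lit 23) (.e (nat_lit 516098) (nat_lit 0) (.e (nat_lit 7065) (nat_lit 377) (.e (nat_lit 1348) (nat_lit 102) (.e (nat_lit 286735) (nat_lit 3) (.e (nat_lit 98350) (nat_lit 24) (.e (nat_lit 409604) (nat_lit 0) .nil)))))))) (.g (nat_lit 7) .nil .nil)))) (.nd (nat_lit 6) 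
(.lf (nat_lit 109882) (.g (nat_lit 808) (.e (nat_lit 5393) (nat_lit 301) (.e (nat_lit 57479) (nat_lit 28) (.e (nat_lit 557105) (nat_lit 14) .nil))) .nil)) 
(.lf (nat_lit 109946) (.g (nat_lit 2162) (.e (nat_lit 5394) (nat_lit 301) (.e (nat_lit 57464) (nat_lit 23) (.e (nat_lit 516151) (nat_lit 9) (.e (nat_lit 426212) (nat_lit 9) .nil)))) .nil)))))) (.nd (nat_lit 3) (.nd (nat_lit 4) (.nd (nat_lit 5) (.nd (nat_lit 6) 
(.lf (nat_lit 109830) (.g (nat_lit 2480) (.e (nat_lit 5389) (nat_lit 301) (.e (nat_lit 57464) (nat_lit 23) (.e (nat_lit 516165) (nat_lit 12) (.e (nat_lit 450579) (nat_lit 5) (.e (nat_lit 532526) (nat_lit 8) (.e (nat_lit 327702) (nat_lit 10) .nil)))))) (.g (nat_lit 5) .nil .nil))) 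
(.lf (nat_lit 109894) (.g (nat_lit 1540) (.e (nat_lit 5393) (nat_lit 301) (.e (nat_lit 57480) (nat_lit 28) (.e (nat_lit 557103) (nat_lit 14) (.e (nat_lit 180229) (nat_lit 0) .nil)))) .nil))) (.nd (nat_lit 6) 
(.lf (nat_lit 109862) (.g (nat_lit 2167) (.e (nat_lit 5390) (nat_lit 301) (.e (nat_lit 57464) (nat_lit 23) (.e (nat_lit 516151) (nat_lit 9) (.e (nat_lit 426290) (nat_lit 10) .nil)))) .nil)) 
(.lf (nat_lit 109926) (.g (nat_lit 2307) (.e (nat_lit 5394) (nat_lit 301) (.e (nat_lit 57464) (nat_lit 23) (.e (nat_lit 516151) (nat_lit 9) (.e (nat_lit 426042) (nat_lit 0) .nil)))) .nil)))) (.nd (nat_lit 5) (.nd (nat_lit 6) 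
(.lf (nat_lit 109846) (.g (nat_lit 985) (.e (nat_lit 5389) (nat_lit 301) (.e (nat_lit 57464) (nat_lit 23) (.e (nat_lit 516166) (nat_lit 12) (.e (nat_lit 450581) (nat_lit 5) .nil)))) .nil)) 
(.lf (nat_lit 109910) (.g (nat_lit 1416) (.e (nat_lit 5393) (nat_lit 301) (.e (nat_lit 57480) (nat_lit 28) (.e (nat_lit 557105) (nat_lit 14) (.e (nat_lit 180266) (nat_lit 22) .nil)))) .nil))) (.nd (nat_lit 6) 
(.lf (nat_lit 109878) (.g (nat_lit 1357) (.e (nat_lit 5393) (nat_lit 301) (.e (nat_lit 57477) (nat_lit 28) (.e (nat_lit 557104) (nat_lit 14) (.e (nat_lit 180233) (nat_lit 0) (.e (nat_lit 5818) (nat_lit 320) (.e (nat_lit 1193) (nat_lit 88) (.e (nat_lit 65648) (nat_lit 26) (.e (nat_lit 417795) (nat_lit 0) .nil)))))))) (.g (nat_lit 4) .nil .nil))) 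
(.lf (nat_lit 109942) (.g (nat_lit 1571) (.e (nat_lit 5394) (nat_lit 301) (.e (nat_lit 57464) (nat_lit 23) (.e (nat_lit 516151) (nat_lit 9) (.e (nat_lit 426211) (nat_lit 9) .nil)))) .nil))))) (.nd (nat_lit 4) (.nd (nat_lit 5) (.nd (nat_lit 6) 
(.lf (nat_lit 109838) (.g (nat_lit 1051) (.e (nat_lit 5389) (nat_lit 301) (.e (nat_lit 57464) (nat_lit 23) (.e (nat_lit 516166) (nat_lit 12) (.e (nat_lit 458496) (nat_lit 1) .nil)))) .nil)) 
(.lf (nat_lit 109902) (.g (nat_lit 1298) (.e (nat_lit 5393) (nat_lit 301) (.e (nat_lit 57480) (nat_lit 28) (.e (nat_lit 557105) (nat_lit 14) (.e (nat_lit 180227) (nat_lit 0) .nil)))) .nil))) (.nd (nat_lit 6) 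
(.lf (nat_lit 109870) (.g (nat_lit 1911) (.e (nat_lit 5391) (nat_lit 301) (.e (nat_lit 57464) (nat_lit 23) (.e (nat_lit 516166) (nat_lit 12) (.e (nat_lit 450587) (nat_lit 10) (.e (nat_lit 573457) (nat_lit 9) .nil))))) .nil)) 
(.lf (nat_lit 109934) (.g (nat_lit 2450) (.e (nat_lit 5394) (nat_lit 301) (.e (nat_lit 57464) (nat_lit 23) (.e (nat_lit 516151) (nat_lit 9) (.e (nat_lit 426171) (nat_lit 7) (.e (nat_lit 409631) (nat_lit 12) .nil))))) .nil)))) (.nd (nat_lit 5) (.nd (nat_lit 6) 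
(.lf (nat_lit 109854) (.g (nat_lit 2293) (.e (nat_lit 5390) (nat_lit 301) (.e (nat_lit 57464) (nat_lit 23) (.e (nat_lit 516151) (nat_lit 9) (.e (nat_lit 426208) (nat_lit 9) .nil)))) .nil)) 
(.lf (nat_lit 109918) (.g (nat_lit 1863) (.e (nat_lit 5394) (nat_lit 301) (.e (nat_lit 57464) (nat_lit 23) (.e (nat_lit 516139) (nat_lit 7) (.e (nat_lit 409603) (nat_lit 0) .nil)))) .nil))) (.nd (nat_lit 6) 
(.lf (nat_lit 109886) (.g (nat_lit 3031) (.e (nat_lit 5393) (nat_lit 301) (.e (nat_lit 57479) (nat_lit 28) (.e (nat_lit 557105) (nat_lit 14) (.e (nat_lit 180252) (nat_lit 10) (.e (nat_lit 573473) (nat_lit 12) .nil))))) .nil)) 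
(.lf (nat_lit 109950) (.g (nat_lit 2216) (.e (nat_lit 5394) (nat_lit 301) (.e (nat_lit 57464) (nat_lit 23) (.e (nat_lit 516151) (nat_lit 9) (.e (nat_lit 426218) (nat_lit 9) .nil)))) .nil)))))))) (.nd (nat_lit 1) (.nd (nat_lit 2) (.nd (nat_lit 3) (.nd (nat_lit 4) (.nd (nat_lit 5) (.nd (nat_lit 6) 
(.lf (nat_lit 109825) (.g (nat_lit 3210) (.e (nat_lit 5389) (nat_lit 301) (.e (nat_lit 57464) (nat_lit 23) (.e (nat_lit 516165) (nat_lit 12) (.e (nat_lit 450579) (nat_lit 5) (.e (nat_lit 532522) (nat_lit 7) (.e (nat_lit 319500) (nat_lit 10) .nil)))))) (.g (nat_lit 0) .nil .nil))) 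
(.lf (nat_lit 109889) (.g (nat_lit 2587) (.e (nat_lit 5393) (nat_lit 301) (.e (nat_lit 57479) (nat_lit 28) (.e (nat_lit 557105) (nat_lit 14) (.e (nat_lit 180264) (nat_lit 21) (.e (nat_lit 663566) (nat_lit 4) (.e (nat_lit 65648) (nat_lit 26) (.e (nat_lit 417796) (nat_lit 0) .nil))))))) (.g (nat_lit 4) .nil .nil)))) (.nd (nat_lit 6) 
(.lf (nat_lit 109857) (.g (nat_lit 3356) (.e (nat_lit 5390) (nat_lit 301) (.e (nat_lit 57464) (nat_lit 23) (.e (nat_lit 516151) (nat_lit 9) (.e (nat_lit 426211) (nat_lit 9) (.e (nat_lit 426140) (nat_lit 3) .nil))))) .nil)) 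
(.lf (nat_lit 109921) (.g (nat_lit 1565) (.e (nat_lit 5394) (nat_lit 301) (.e (nat_lit 57464) (nat_lit 23) (.e (nat_lit 516139) (nat_lit 7) (.e (nat_lit 409640) (nat_lit 17) .nil)))) .nil)))) (.nd (nat_lit 5) (.nd (nat_lit 6) 
(.lf (nat_lit 109841) (.g (nat_lit 1900) (.e (nat_lit 5389) (nat_lit 301) (.e (nat_lit 57464) (nat_lit 23) (.e (nat_lit 516166) (nat_lit 12) (.e (nat_lit 450579) (nat_lit 5) (.e (nat_lit 532526) (nat_lit 8) .nil))))) .nil)) 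
(.lf (nat_lit 109905) (.g (nat_lit 1215) (.e (nat_lit 5393) (nat_lit 301) (.e (nat_lit 57480) (nat_lit 28) (.e (nat_lit 557105) (nat_lit 14) (.e (nat_lit 180233) (nat_lit 0) .nil)))) .nil))) (.nd (nat_lit 6) 
(.lf (nat_lit 109873) (.g (nat_lit 1063) (.e (nat_lit 5393) (nat_lit 301) (.e (nat_lit 57477) (nat_lit 28) (.e (nat_lit 557104) (nat_lit 14) (.e (nat_lit 180229) (nat_lit 0) .nil)))) .nil)) 
(.lf (nat_lit 109937) (.g (nat_lit 1856) (.e (nat_lit 5394) (nat_lit 301) (.e (nat_lit 57464) (nat_lit 23) (.e (nat_lit 516151) (nat_lit 9) (.e (nat_lit 426185) (nat_lit 9) .nil)))) .nil))))) (.nd (nat_lit 4) (.nd (nat_lit 5) (.nd (nat_lit 6) 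
(.lf (nat_lit 109833) (.g (nat_lit 2754) (.e (nat_lit 5389) (nat_lit 301) (.e (nat_lit 57464) (nat_lit 23) (.e (nat_lit 516165) (nat_lit 12) (.e (nat_lit 450579) (nat_lit 5) (.e (nat_lit 532526) (nat_lit 8) (.e (nat_lit 327706) (nat_lit 10) .nil)))))) (.g (nat_lit 0) .nil .nil))) 
(.lf (nat_lit 109897) (.g (nat_lit 1617) (.e (nat_lit 5393) (nat_lit 301) (.e (nat_lit 57480) (nat_lit 28) (.e (nat_lit 557103) (nat_lit 14) (.e (nat_lit 180263) (nat_lit 21) (.e (nat_lit 663566) (nat_lit 4) .nil))))) .nil))) (.nd (nat_lit 6) 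
(.lf (nat_lit 109865) (.g (nat_lit 3418) (.e (nat_lit 5391) (nat_lit 301) (.e (nat_lit 57464) (nat_lit 23) (.e (nat_lit 516151) (nat_lit 9) (.e (nat_lit 426211) (nat_lit 9) (.e (nat_lit 426140) (nat_lit 3) .nil))))) .nil)) 
(.lf (nat_lit 109929) (.g (nat_lit 2914) (.e (nat_lit 5394) (nat_lit 301) (.e (nat_lit 57464) (nat_lit 23) (.e (nat_lit 516151) (nat_lit 9) (.e (nat_lit 426170) (nat_lit 7) (.e (nat_lit 409631) (nat_lit 12) (.e (nat_lit 32794) (nat_lit 14) (.e (nat_lit 2823) (nat_lit 182) (.e (nat_lit 409604) (nat_lit 0) .nil)))))))) (.g (nat_lit 5) .nil .nil))))) (.nd (nat_lit 5) (.nd (nat_lit 6) 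
(.lf (nat_lit 109849) (.g (nat_lit 1262) (.e (nat_lit 5389) (nat_lit 301) (.e (nat_lit 57464) (nat_lit 23) (.e (nat_lit 516175) (nat_lit 14) (.e (nat_lit 466981) (nat_lit 23) (.e (nat_lit 204848) (nat_lit 25) (.e (nat_lit 327704) (nat_lit 10) .nil)))))) (.g (nat_lit 5) .nil .nil))) 
(.lf (nat_lit 109913) (.g (nat_lit 1482) (.e (nat_lit 5394) (nat_lit 301) (.e (nat_lit 57354) (nat_lit 0) (.e (nat_lit 7270) (nat_lit 385) (.e (nat_lit 122911) (nat_lit 13) .nil)))) .nil))) (.nd (nat_lit 6) 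
(.lf (nat_lit 109881) (.g (nat_lit 1091) (.e (nat_lit 5393) (nat_lit 301) (.e (nat_lit 57477) (nat_lit 28) (.e (nat_lit 557104) (nat_lit 14) (.e (nat_lit 180266) (nat_lit 22) .nil)))) .nil)) 
(.lf (nat_lit 109945) (.g (nat_lit 2831) (.e (nat_lit 5394) (nat_lit 301) (.e (nat_lit 57464) (nat_lit 23) (.e (nat_lit 516151) (nat_lit 9) (.e (nat_lit 426211) (nat_lit 9) (.e (nat_lit 426140) (nat_lit 3) (.e (nat_lit 204845) (nat_lit 24) (.e (nat_lit 327424) (nat_lit 10) .nil))))))) (.g (nat_lit 4) .nil .nil))))))) (.nd (nat_lit 3) (.nd (nat_lit 4) (.nd (nat_lit 5) (.nd (nat_lit 6) 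
(.lf (nat_lit 109829) (.g (nat_lit 2364) (.e (nat_lit 5389) (nat_lit 301) (.e (nat_lit 57464) (nat_lit 23) (.e (nat_lit 516165) (nat_lit 12) (.e (nat_lit 450579) (nat_lit 5) (.e (nat_lit 532525) (nat_lit 8) (.e (nat_lit 327705) (nat_lit 10) .nil)))))) (.g (nat_lit 5) .nil .nil))) 
(.lf (nat_lit 109893) (.g (nat_lit 2436) (.e (nat_lit 5393) (nat_lit 301) (.e (nat_lit 57480) (nat_lit 28) (.e (nat_lit 557103) (nat_lit 14) (.e (nat_lit 180225) (nat_lit 0) (.e (nat_lit 5814) (nat_lit 320) .nil))))) .nil))) (.nd (nat_lit 6) 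
(.lf (nat_lit 109861) (.g (nat_lit 2973) (.e (nat_lit 5390) (nat_lit 301) (.e (nat_lit 57464) (nat_lit 23) (.e (nat_lit 516151) (nat_lit 9) (.e (nat_lit 426275) (nat_lit 10) (.e (nat_lit 434233) (nat_lit 23) .nil))))) .nil)) 
(.lf (nat_lit 109925) (.g (nat_lit 3188) (.e (nat_lit 5394) (nat_lit 301) (.e (nat_lit 57464) (nat_lit 23) (.e (nat_lit 516151) (nat_lit 9) (.e (nat_lit 426022) (nat_lit 0) (.e (nat_lit 7936) (nat_lit 405) .nil))))) .nil)))) (.nd (nat_lit 5) (.nd (nat_lit 6) 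
(.lf (nat_lit 109845) (.g (nat_lit 2350) (.e (nat_lit 5389) (nat_lit 301) (.e (nat_lit 57464) (nat_lit 23) (.e (nat_lit 516166) (nat_lit 12) (.e (nat_lit 450580) (nat_lit 5) (.e (nat_lit 532526) (nat_lit 8) (.e (nat_lit 327708) (nat_lit 10) .nil)))))) (.g (nat_lit 4) .nil .nil))) 
(.lf (nat_lit 109909) (.g (nat_lit 2154) (.e (nat_lit 5393) (nat_lit 301) (.e (nat_lit 57480) (nat_lit 28) (.e (nat_lit 557105) (nat_lit 14) (.e (nat_lit 180265) (nat_lit 21) (.e (nat_lit 663566) (nat_lit 4) .nil))))) .nil))) (.nd (nat_lit 6) 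
(.lf (nat_lit 109877) (.g (nat_lit 1347) (.e (nat_lit 5393) (nat_lit 301) (.e (nat_lit 57477) (nat_lit 28) (.e (nat_lit 557104) (nat_lit 14) (.e (nat_lit 180233) (nat_lit 0) (.e (nat_lit 5817) (nat_lit 320) .nil))))) .nil)) 
(.lf (nat_lit 109941) (.g (nat_lit 2210) (.e (nat_lit 5394) (nat_lit 301) (.e (nat_lit 57464) (nat_lit 23) (.e (nat_lit 516151) (nat_lit 9) (.e (nat_lit 426210) (nat_lit 9) .nil)))) .nil))))) (.nd (nat_lit 4) (.nd (nat_lit 5) (.nd (nat_lit 6) 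
(.lf (nat_lit 109837) (.g (nat_lit 1445) (.e (nat_lit 5389) (nat_lit 301) (.e (nat_lit 57464) (nat_lit 23) (.e (nat_lit 516165) (nat_lit 12) (.e (nat_lit 450586) (nat_lit 10) (.e (nat_lit 573457) (nat_lit 9) .nil))))) .nil)) 
(.lf (nat_lit 109901) (.g (nat_lit 1385) (.e (nat_lit 5393) (nat_lit 301) (.e (nat_lit 57480) (nat_lit 28) (.e (nat_lit 557105) (nat_lit 14) (.e (nat_lit 180226) (nat_lit 0) .nil)))) .nil))) (.nd (nat_lit 6) 
(.lf (nat_lit 109869) (.g (nat_lit 1920) (.e (nat_lit 5391) (nat_lit 301) (.e (nat_lit 57464) (nat_lit 23) (.e (nat_lit 516166) (nat_lit 12) (.e (nat_lit 450587) (nat_lit 10) (.e (nat_lit 573456) (nat_lit 9) .nil))))) .nil)) 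
(.lf (nat_lit 109933) (.g (nat_lit 2448) (.e (nat_lit 5394) (nat_lit 301) (.e (nat_lit 57464) (nat_lit 23) (.e (nat_lit 516151) (nat_lit 9) (.e (nat_lit 426171) (nat_lit 7) (.e (nat_lit 409630) (nat_lit 12) .nil))))) .nil)))) (.nd (nat_lit 5) (.nd (nat_lit 6) 
(.lf (nat_lit 109853) (.g (nat_lit 2314) (.e (nat_lit 5390) (nat_lit 301) (.e (nat_lit 57464) (nat_lit 23) (.e (nat_lit 516151) (nat_lit 9) (.e (nat_lit 426195) (nat_lit 9) .nil)))) .nil)) 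
(.lf (nat_lit 109917) (.g (nat_lit 4736) (.e (nat_lit 5394) (nat_lit 301) (.e (nat_lit 57464) (nat_lit 23) (.e (nat_lit 516139) (nat_lit 7) (.e (nat_lit 409602) (nat_lit 0) (.e (nat_lit 5394) (nat_lit 301) (.e (nat_lit 57464) (nat_lit 23) (.e (nat_lit 516139) (nat_lit 7) (.e (nat_lit 409602) (nat_lit 0) .nil)))))))) (.g (nat_lit 7) .nil .nil)))) (.nd (nat_lit 6) 
(.lf (nat_lit 109885) (.g (nat_lit 1894) (.e (nat_lit 5393) (nat_lit 301) (.e (nat_lit 57479) (nat_lit 28) (.e (nat_lit 557105) (nat_lit 14) (.e (nat_lit 180252) (nat_lit 10) .nil)))) .nil)) 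
(.lf (nat_lit 109949) (.g (nat_lit 2154) (.e (nat_lit 5394) (nat_lit 301) (.e (nat_lit 57464) (nat_lit 23) (.e (nat_lit 516151) (nat_lit 9) (.e (nat_lit 426216) (nat_lit 9) (.e (nat_lit 426140) (nat_lit 3) .nil))))) .nil))))))) (.nd (nat_lit 2) (.nd (nat_lit 3) (.nd (nat_lit 4) (.nd (nat_lit 5) (.nd (nat_lit 6) 
(.lf (nat_lit 109827) (.g (nat_lit 3890) (.e (nat_lit 5389) (nat_lit 301) (.e (nat_lit 57464) (nat_lit 23) (.e (nat_lit 516165) (nat_lit 12) (.e (nat_lit 450579) (nat_lit 5) (.e (nat_lit 532523) (nat_lit 7) (.e (nat_lit 319504) (nat_lit 10) .nil)))))) (.g (nat_lit 6) .nil .nil))) 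
(.lf (nat_lit 109891) (.g (nat_lit 2029) (.e (nat_lit 5393) (nat_lit 301) (.e (nat_lit 57480) (nat_lit 28) (.e (nat_lit 557091) (nat_lit 12) (.e (nat_lit 164213) (nat_lit 176) .nil)))) .nil))) (.nd (nat_lit 6) 
(.lf (nat_lit 109859) (.g (nat_lit 2290) (.e (nat_lit 5390) (nat_lit 301) (.e (nat_lit 57464) (nat_lit 23) (.e (nat_lit 516151) (nat_lit 9) (.e (nat_lit 426218) (nat_lit 9) .nil)))) .nil)) 
(.lf (nat_lit 109923) (.g (nat_lit 3999) (.e (nat_lit 5394) (nat_lit 301) (.e (nat_lit 57464) (nat_lit 23) (.e (nat_lit 516139) (nat_lit 7) (.e (nat_lit 409645) (nat_lit 18) (.e (nat_lit 303119) (nat_lit 3) (.e (nat_lit 204846) (nat_lit 24) (.e (nat_lit 319490) (nat_lit 0) .nil))))))) (.g (nat_lit 6) .nil .nil))))) (.nd (nat_lit 5) (.nd (nat_lit 6) 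
(.lf (nat_lit 109843) (.g (nat_lit 1677) (.e (nat_lit 5389) (nat_lit 301) (.e (nat_lit 57464) (nat_lit 23) (.e (nat_lit 516166) (nat_lit 12) (.e (nat_lit 450580) (nat_lit 5) (.e (nat_lit 532523) (nat_lit 7) .nil))))) .nil)) 
(.lf (nat_lit 109907) (.g (nat_lit 1416) (.e (nat_lit 5393) (nat_lit 301) (.e (nat_lit 57480) (nat_lit 28) (.e (nat_lit 557105) (nat_lit 14) (.e (nat_lit 180258) (nat_lit 16) .nil)))) .nil))) (.nd (nat_lit 6) 
(.lf (nat_lit 109875) (.g (nat_lit 852) (.e (nat_lit 5393) (nat_lit 301) (.e (nat_lit 57477) (nat_lit 28) (.e (nat_lit 557104) (nat_lit 14) (.e (nat_lit 180233) (nat_lit 0) .nil)))) .nil)) 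
(.lf (nat_lit 109939) (.g (nat_lit 2240) (.e (nat_lit 5394) (nat_lit 301) (.e (nat_lit 57464) (nat_lit 23) (.e (nat_lit 516151) (nat_lit 9) (.e (nat_lit 426195) (nat_lit 9) .nil)))) .nil))))) (.nd (nat_lit 4) (.nd (nat_lit 5) (.nd (nat_lit 6) 
(.lf (nat_lit 109835) (.g (nat_lit 3537) (.e (nat_lit 5389) (nat_lit 301) (.e (nat_lit 57464) (nat_lit 23) (.e (nat_lit 516165) (nat_lit 12) (.e (nat_lit 450579) (nat_lit 5) (.e (nat_lit 532526) (nat_lit 8) (.e (nat_lit 327708) (nat_lit 10) .nil)))))) (.g (nat_lit 0) .nil .nil))) 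
(.lf (nat_lit 109899) (.g (nat_lit 2105) (.e (nat_lit 5393) (nat_lit 301) (.e (nat_lit 57480) (nat_lit 28) (.e (nat_lit 557104) (nat_lit 14) (.e (nat_lit 180229) (nat_lit 0) .nil)))) .nil))) (.nd (nat_lit 6) 
(.lf (nat_lit 109867) (.g (nat_lit 2246) (.e (nat_lit 5391) (nat_lit 301) (.e (nat_lit 57464) (nat_lit 23) (.e (nat_lit 516151) (nat_lit 9) (.e (nat_lit 426285) (nat_lit 10) .nil)))) .nil)) 
(.lf (nat_lit 109931) (.g (nat_lit 2940) (.e (nat_lit 5394) (nat_lit 301) (.e (nat_lit 57464) (nat_lit 23) (.e (nat_lit 516151) (nat_lit 9) (.e (nat_lit 426170) (nat_lit 7) (.e (nat_lit 409631) (nat_lit 12) (.e (nat_lit 32794) (nat_lit 14) (.e (nat_lit 2835) (nat_lit 183) (.e (nat_lit 417802) (nat_lit 0) .nil)))))))) (.g (nat_lit 5) .nil .nil))))) (.nd (nat_lit 5) (.nd (nat_lit 6) 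
(.lf (nat_lit 109851) (.g (nat_lit 2774) (.e (nat_lit 5389) (nat_lit 301) (.e (nat_lit 57479) (nat_lit 28) (.e (nat_lit 557105) (nat_lit 14) (.e (nat_lit 180265) (nat_lit 21) (.e (nat_lit 663566) (nat_lit 4) .nil))))) .nil)) 
(.lf (nat_lit 109915) (.g (nat_lit 2658) (.e (nat_lit 5394) (nat_lit 301) (.e (nat_lit 57464) (nat_lit 23) (.e (nat_lit 516138) (nat_lit 7) (.e (nat_lit 409646) (nat_lit 18) (.e (nat_lit 303119) (nat_lit 3) (.e (nat_lit 204846) (nat_lit 24) (.e (nat_lit 319490) (nat_lit 0) .nil))))))) (.g (nat_lit 5) .nil .nil)))) (.nd (nat_lit 6) 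
(.lf (nat_lit 109883) (.g (nat_lit 2061) (.e (nat_lit 5393) (nat_lit 301) (.e (nat_lit 57479) (nat_lit 28) (.e (nat_lit 557105) (nat_lit 14) (.e (nat_lit 180227) (nat_lit 0) .nil)))) .nil)) 
(.lf (nat_lit 109947) (.g (nat_lit 2189) (.e (nat_lit 5394) (nat_lit 301) (.e (nat_lit 57464) (nat_lit 23) (.e (nat_lit 516151) (nat_lit 9) (.e (nat_lit 426215) (nat_lit 9) .nil)))) .nil)))))) (.nd (nat_lit 3) (.nd (nat_lit 4) (.nd (nat_lit 5) (.nd (nat_lit 6) 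
(.lf (nat_lit 109831) (.g (nat_lit 2932) (.e (nat_lit 5389) (nat_lit 301) (.e (nat_lit 57464) (nat_lit 23) (.e (nat_lit 516165) (nat_lit 12) (.e (nat_lit 450579) (nat_lit 5) (.e (nat_lit 532526) (nat_lit 8) (.e (nat_lit 327703) (nat_lit 10) .nil)))))) (.g (nat_lit 0) .nil .nil))) 
(.lf (nat_lit 109895) (.g (nat_lit 1540) (.e (nat_lit 5393) (nat_lit 301) (.e (nat_lit 57480) (nat_lit 28) (.e (nat_lit 557103) (nat_lit 14) (.e (nat_lit 180232) (nat_lit 0) .nil)))) .nil))) (.nd (nat_lit 6) 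
(.lf (nat_lit 109863) (.g (nat_lit 2736) (.e (nat_lit 5390) (nat_lit 301) (.e (nat_lit 57464) (nat_lit 23) (.e (nat_lit 516165) (nat_lit 12) (.e (nat_lit 450579) (nat_lit 5) (.e (nat_lit 532526) (nat_lit 8) (.e (nat_lit 327703) (nat_lit 10) .nil)))))) (.g (nat_lit 6) .nil .nil))) 
(.lf (nat_lit 109927) (.g (nat_lit 2209) (.e (nat_lit 5394) (nat_lit 301) (.e (nat_lit 57464) (nat_lit 23) (.e (nat_lit 516151) (nat_lit 9) (.e (nat_lit 426166) (nat_lit 7) .nil)))) .nil)))) (.nd (nat_lit 5) (.nd (nat_lit 6) 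
(.lf (nat_lit 109847) (.g (nat_lit 1917) (.e (nat_lit 5389) (nat_lit 301) (.e (nat_lit 57464) (nat_lit 23) (.e (nat_lit 516166) (nat_lit 12) (.e (nat_lit 450588) (nat_lit 10) (.e (nat_lit 573452) (nat_lit 9) .nil))))) .nil)) 
(.lf (nat_lit 109911) (.g (nat_lit 2071) (.e (nat_lit 5394) (nat_lit 301) (.e (nat_lit 57354) (nat_lit 0) (.e (nat_lit 7270) (nat_lit 385) (.e (nat_lit 122906) (nat_lit 12) (.e (nat_lit 336212) (nat_lit 13) .nil))))) .nil))) (.nd (nat_lit 6) 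
(.lf (nat_lit 109879) (.g (nat_lit 1068) (.e (nat_lit 5393) (nat_lit 301) (.e (nat_lit 57477) (nat_lit 28) (.e (nat_lit 557104) (nat_lit 14) (.e (nat_lit 180258) (nat_lit 16) .nil)))) .nil)) 
(.lf (nat_lit 109943) (.g (nat_lit 2722) (.e (nat_lit 5394) (nat_lit 301) (.e (nat_lit 57464) (nat_lit 23) (.e (nat_lit 516151) (nat_lit 9) (.e (nat_lit 426211) (nat_lit 9) (.e (nat_lit 426125) (nat_lit 2) .nil))))) .nil))))) (.nd (nat_lit 4) (.nd (nat_lit 5) (.nd (nat_lit 6) 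
(.lf (nat_lit 109839) (.g (nat_lit 1131) (.e (nat_lit 5389) (nat_lit 301) (.e (nat_lit 57464) (nat_lit 23) (.e (nat_lit 516166) (nat_lit 12) (.e (nat_lit 450579) (nat_lit 5) .nil)))) .nil)) 
(.lf (nat_lit 109903) (.g (nat_lit 2078) (.e (nat_lit 5393) (nat_lit 301) (.e (nat_lit 57480) (nat_lit 28) (.e (nat_lit 557105) (nat_lit 14) (.e (nat_lit 180227) (nat_lit 0) (.e (nat_lit 5796) (nat_lit 320) .nil))))) .nil))) (.nd (nat_lit 6) 
(.lf (nat_lit 109871) (.g (nat_lit 2070) (.e (nat_lit 5391) (nat_lit 301) (.e (nat_lit 57464) (nat_lit 23) (.e (nat_lit 516166) (nat_lit 12) (.e (nat_lit 450588) (nat_lit 10) (.e (nat_lit 573452) (nat_lit 9) .nil))))) .nil)) 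
(.lf (nat_lit 109935) (.g (nat_lit 2579) (.e (nat_lit 5394) (nat_lit 301) (.e (nat_lit 57464) (nat_lit 23) (.e (nat_lit 516151) (nat_lit 9) (.e (nat_lit 426171) (nat_lit 7) (.e (nat_lit 409631) (nat_lit 12) (.e (nat_lit 32794) (nat_lit 14) (.e (nat_lit 2823) (nat_lit 182) (.e (nat_lit 409604) (nat_lit 0) .nil)))))))) (.g (nat_lit 4) .nil .nil))))) (.nd (nat_lit 5) (.nd (nat_lit 6) 
(.lf (nat_lit 109855) (.g (nat_lit 2284) (.e (nat_lit 5390) (nat_lit 301) (.e (nat_lit 57464) (nat_lit 23) (.e (nat_lit 516151) (nat_lit 9) (.e (nat_lit 426210) (nat_lit 9) .nil)))) .nil)) 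
(.lf (nat_lit 109919) (.g (nat_lit 1920) (.e (nat_lit 5394) (nat_lit 301) (.e (nat_lit 57464) (nat_lit 23) (.e (nat_lit 516139) (nat_lit 7) (.e (nat_lit 409604) (nat_lit 0) .nil)))) .nil))) (.nd (nat_lit 6) 
(.lf (nat_lit 109887) (.g (nat_lit 3457) (.e (nat_lit 5393) (nat_lit 301) (.e (nat_lit 57479) (nat_lit 28) (.e (nat_lit 557105) (nat_lit 14) (.e (nat_lit 180252) (nat_lit 10) (.e (nat_lit 573474) (nat_lit 12) .nil))))) .nil)) 
(.lf (nat_lit 109951) (.g (nat_lit 2219) (.e (nat_lit 5394) (nat_lit 301) (.e (nat_lit 57464) (nat_lit 23) (.e (nat_lit 516151) (nat_lit 9) (.e (nat_lit 426219) (nat_lit 9) .nil)))) .nil)))))))))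

noncomputable def tv1482 : DT := (.nd (nat_lit 0) (.nd (nat_lit 1) (.nd (nat_lit 2) (.nd (nat_lit 3) (.nd (nat_lit 4) (.nd (nat_lit 5) 
(.lf (nat_lit 109952) (.g (nat_lit 2197) (.e (nat_lit 5394) (nat_lit 301) (.e (nat_lit 57464) (nat_lit 23) (.e (nat_lit 516151) (nat_lit 9) (.e (nat_lit 426268) (nat_lit 9) .nil)))) .nil)) 
(.lf (nat_lit 109984) (.g (nat_lit 2306) (.e (nat_lit 5394) (nat_lit 301) (.e (nat_lit 57464) (nat_lit 23) (.e (nat_lit 516161) (nat_lit 10) (.e (nat_lit 442112) (nat_lit 3) (.e (nat_lit 57464) (nat_lit 23) (.e (nat_lit 516139) (nat_lit 7) (.e (nat_lit 409604) (nat_lit 0) .nil))))))) (.g (nat_lit 6) .nil .nil)))) (.nd (nat_lit 5) 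
(.lf (nat_lit 109968) (.g (nat_lit 4072) (.e (nat_lit 5394) (nat_lit 301) (.e (nat_lit 57464) (nat_lit 23) (.e (nat_lit 516151) (nat_lit 9) (.e (nat_lit 426286) (nat_lit 10) (.e (nat_lit 434245) (nat_lit 28) (.e (nat_lit 573451) (nat_lit 9) (.e (nat_lit 359) (nat_lit 30) (.e (nat_lit 409605) (nat_lit 0) .nil)))))))) (.g (nat_lit 0) .nil .nil))) 
(.lf (nat_lit 110000) (.g (nat_lit 3445) (.e (nat_lit 5394) (nat_lit 301) (.e (nat_lit 57464) (nat_lit 23) (.e (nat_lit 516163) (nat_lit 11) (.e (nat_lit 442427) (nat_lit 23) (.e (nat_lit 204849) (nat_lit 25) (.e (nat_lit 327708) (nat_lit 10) .nil)))))) (.g (nat_lit 0) .nil .nil))))) (.nd (nat_lit 4) (.nd (nat_lit 5) 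
(.lf (nat_lit 109960) (.g (nat_lit 2420) (.e (nat_lit 5394) (nat_lit 301) (.e (nat_lit 57464) (nat_lit 23) (.e (nat_lit 516151) (nat_lit 9) (.e (nat_lit 426285) (nat_lit 10) (.e (nat_lit 434233) (nat_lit 23) .nil))))) .nil)) 
(.lf (nat_lit 109992) (.g (nat_lit 2403) (.e (nat_lit 5394) (nat_lit 301) (.e (nat_lit 57464) (nat_lit 23) (.e (nat_lit 516163) (nat_lit 11) (.e (nat_lit 442424) (nat_lit 22) (.e (nat_lit 196661) (nat_lit 12) (.e (nat_lit 57711) (nat_lit 176) (.e (nat_lit 1081) (nat_lit 81) .nil))))))) (.g (nat_lit 5) .nil .nil)))) (.nd (nat_lit 5) 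
(.lf (nat_lit 109976) (.g (nat_lit 3106) (.e (nat_lit 5394) (nat_lit 301) (.e (nat_lit 57464) (nat_lit 23) (.e (nat_lit 516151) (nat_lit 9) (.e (nat_lit 426286) (nat_lit 10) (.e (nat_lit 434248) (nat_lit 28) (.e (nat_lit 573452) (nat_lit 9) (.e (nat_lit 7936) (nat_lit 30) (.e (nat_lit 409604) (nat_lit 0) .nil)))))))) (.g (nat_lit 6) .nil .nil))) 
(.lf (nat_lit 110008) (.g (nat_lit 1915) (.e (nat_lit 5394) (nat_lit 301) (.e (nat_lit 57464) (nat_lit 23) (.e (nat_lit 516165) (nat_lit 12) (.e (nat_lit 450586) (nat_lit 10) (.e (nat_lit 573452) (nat_lit 9) (.e (nat_lit 7936) (nat_lit 30) (.e (nat_lit 409604) (nat_lit 0) .nil))))))) (.g (nat_lit 5) .nil .nil)))))) (.nd (nat_lit 3) (.nd (nat_lit 4) (.nd (nat_lit 5) 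
(.lf (nat_lit 109956) (.g (nat_lit 2206) (.e (nat_lit 5394) (nat_lit 301) (.e (nat_lit 57464) (nat_lit 23) (.e (nat_lit 516151) (nat_lit 9) (.e (nat_lit 426282) (nat_lit 10) .nil)))) .nil)) 
(.lf (nat_lit 109988) (.g (nat_lit 2088) (.e (nat_lit 5394) (nat_lit 301) (.e (nat_lit 57464) (nat_lit 23) (.e (nat_lit 516163) (nat_lit 11) (.e (nat_lit 442424) (nat_lit 22) (.e (nat_lit 196637) (nat_lit 9) (.e (nat_lit 1410) (nat_lit 107) (.e (nat_lit 327708) (nat_lit 10) .nil))))))) (.g (nat_lit 4) .nil .nil)))) (.nd (nat_lit 5) 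
(.lf (nat_lit 109972) (.g (nat_lit 3230) (.e (nat_lit 5394) (nat_lit 301) (.e (nat_lit 57464) (nat_lit 23) (.e (nat_lit 516151) (nat_lit 9) (.e (nat_lit 426286) (nat_lit 10) (.e (nat_lit 434247) (nat_lit 28) (.e (nat_lit 573457) (nat_lit 9) (.e (nat_lit 359) (nat_lit 30) (.e (nat_lit 409605) (nat_lit 0) .nil)))))))) (.g (nat_lit 0) .nil .nil))) 
(.lf (nat_lit 110004) (.g (nat_lit 2798) (.e (nat_lit 5394) (nat_lit 301) (.e (nat_lit 57464) (nat_lit 23) (.e (nat_lit 516165) (nat_lit 12) (.e (nat_lit 450579) (nat_lit 5) (.e (nat_lit 532524) (nat_lit 8) (.e (nat_lit 327708) (nat_lit 10) .nil)))))) (.g (nat_lit 0) .nil .nil))))) (.nd (nat_lit 4) (.nd (nat_lit 5) 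
(.lf (nat_lit 109964) (.g (nat_lit 2619) (.e (nat_lit 5394) (nat_lit 301) (.e (nat_lit 57464) (nat_lit 23) (.e (nat_lit 516151) (nat_lit 9) (.e (nat_lit 426286) (nat_lit 10) (.e (nat_lit 434227) (nat_lit 20) (.e (nat_lit 507930) (nat_lit 10) (.e (nat_lit 4979) (nat_lit 287) (.e (nat_lit 1079) (nat_lit 81) .nil)))))))) (.g (nat_lit 6) .nil .nil))) 
(.lf (nat_lit 109996) (.g (nat_lit 2473) (.e (nat_lit 5394) (nat_lit 301) (.e (nat_lit 57464) (nat_lit 23) (.e (nat_lit 516163) (nat_lit 11) (.e (nat_lit 442426) (nat_lit 23) (.e (nat_lit 204846) (nat_lit 24) (.e (nat_lit 319511) (nat_lit 10) .nil)))))) (.g (nat_lit 0) .nil .nil)))) (.nd (nat_lit 5) 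
(.lf (nat_lit 109980) (.g (nat_lit 2109) (.e (nat_lit 5394) (nat_lit 301) (.e (nat_lit 57464) (nat_lit 23) (.e (nat_lit 516151) (nat_lit 9) (.e (nat_lit 426338) (nat_lit 14) (.e (nat_lit 491540) (nat_lit 3) .nil))))) .nil)) 
(.lf (nat_lit 110012) (.g (nat_lit 1441) (.e (nat_lit 5394) (nat_lit 301) (.e (nat_lit 57464) (nat_lit 23) (.e (nat_lit 516166) (nat_lit 12) (.e (nat_lit 450576) (nat_lit 2) (.e (nat_lit 507930) (nat_lit 10) .nil))))) .nil)))))) (.nd (nat_lit 2) (.nd (nat_lit 3) (.nd (nat_lit 4) (.nd (nat_lit 5) 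
(.lf (nat_lit 109954) (.g (nat_lit 2899) (.e (nat_lit 5394) (nat_lit 301) (.e (nat_lit 57464) (nat_lit 23) (.e (nat_lit 516151) (nat_lit 9) (.e (nat_lit 426275) (nat_lit 10) (.e (nat_lit 434233) (nat_lit 23) .nil))))) .nil)) 
(.lf (nat_lit 109986) (.g (nat_lit 2556) (.e (nat_lit 5394) (nat_lit 301) (.e (nat_lit 57464) (nat_lit 23) (.e (nat_lit 516163) (nat_lit 11) (.e (nat_lit 442424) (nat_lit 22) (.e (nat_lit 196628) (nat_lit 9) (.e (nat_lit 970) (nat_lit 81) (.e (nat_lit 6202) (nat_lit 332) (.e (nat_lit 1077) (nat_lit 81) .nil)))))))) (.g (nat_lit 5) .nil .nil)))) (.nd (nat_lit 5) 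
(.lf (nat_lit 109970) (.g (nat_lit 3123) (.e (nat_lit 5394) (nat_lit 301) (.e (nat_lit 57464) (nat_lit 23) (.e (nat_lit 516151) (nat_lit 9) (.e (nat_lit 426286) (nat_lit 10) (.e (nat_lit 434245) (nat_lit 28) (.e (nat_lit 573451) (nat_lit 9) (.e (nat_lit 7936) (nat_lit 30) (.e (nat_lit 409604) (nat_lit 0) .nil)))))))) (.g (nat_lit 6) .nil .nil))) 
(.lf (nat_lit 110002) (.g (nat_lit 1529) (.e (nat_lit 5394) (nat_lit 301) (.e (nat_lit 57464) (nat_lit 23) (.e (nat_lit 516165) (nat_lit 12) (.e (nat_lit 450579) (nat_lit 5) (.e (nat_lit 532484) (nat_lit 0) .nil))))) .nil)))) (.nd (nat_lit 4) (.nd (nat_lit 5) 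
(.lf (nat_lit 109962) (.g (nat_lit 4323) (.e (nat_lit 5394) (nat_lit 301) (.e (nat_lit 57464) (nat_lit 23) (.e (nat_lit 516151) (nat_lit 9) (.e (nat_lit 426285) (nat_lit 10) (.e (nat_lit 434238) (nat_lit 25) (.e (nat_lit 548898) (nat_lit 14) (.e (nat_lit 2825) (nat_lit 182) (.e (nat_lit 409605) (nat_lit 0) .nil)))))))) (.g (nat_lit 6) .nil .nil))) 
(.lf (nat_lit 109994) (.g (nat_lit 2404) (.e (nat_lit 5394) (nat_lit 301) (.e (nat_lit 57464) (nat_lit 23) (.e (nat_lit 516163) (nat_lit 11) (.e (nat_lit 442424) (nat_lit 22) (.e (nat_lit 196661) (nat_lit 12) (.e (nat_lit 57712) (nat_lit 176) (.e (nat_lit 1076) (nat_lit 81) .nil))))))) (.g (nat_lit 5) .nil .nil)))) (.nd (nat_lit 5) 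
(.lf (nat_lit 109978) (.g (nat_lit 1914) (.e (nat_lit 5394) (nat_lit 301) (.e (nat_lit 57464) (nat_lit 23) (.e (nat_lit 516151) (nat_lit 9) (.e (nat_lit 426290) (nat_lit 10) .nil)))) .nil)) 
(.lf (nat_lit 110010) (.g (nat_lit 1012) (.e (nat_lit 5394) (nat_lit 301) (.e (nat_lit 57464) (nat_lit 23) (.e (nat_lit 516166) (nat_lit 12) (.e (nat_lit 458496) (nat_lit 1) .nil)))) .nil))))) (.nd (nat_lit 3) (.nd (nat_lit 4) (.nd (nat_lit 5) 
(.lf (nat_lit 109958) (.g (nat_lit 2784) (.e (nat_lit 5394) (nat_lit 301) (.e (nat_lit 57464) (nat_lit 23) (.e (nat_lit 516151) (nat_lit 9) (.e (nat_lit 426285) (nat_lit 10) (.e (nat_lit 434227) (nat_lit 20) (.e (nat_lit 507928) (nat_lit 10) (.e (nat_lit 4931) (nat_lit 287) (.e (nat_lit 1079) (nat_lit 81) .nil)))))))) (.g (nat_lit 5) .nil .nil))) 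
(.lf (nat_lit 109990) (.g (nat_lit 1739) (.e (nat_lit 5394) (nat_lit 301) (.e (nat_lit 57464) (nat_lit 23) (.e (nat_lit 516163) (nat_lit 11) (.e (nat_lit 442424) (nat_lit 22) (.e (nat_lit 196661) (nat_lit 12) .nil))))) .nil))) (.nd (nat_lit 5) 
(.lf (nat_lit 109974) (.g (nat_lit 3877) (.e (nat_lit 5394) (nat_lit 301) (.e (nat_lit 57464) (nat_lit 23) (.e (nat_lit 516151) (nat_lit 9) (.e (nat_lit 426286) (nat_lit 10) (.e (nat_lit 434248) (nat_lit 28) (.e (nat_lit 573452) (nat_lit 9) (.e (nat_lit 359) (nat_lit 30) (.e (nat_lit 409604) (nat_lit 0) .nil)))))))) (.g (nat_lit 0) .nil .nil))) 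
(.lf (nat_lit 110006) (.g (nat_lit 3302) (.e (nat_lit 5394) (nat_lit 301) (.e (nat_lit 57464) (nat_lit 23) (.e (nat_lit 516165) (nat_lit 12) (.e (nat_lit 450579) (nat_lit 5) (.e (nat_lit 532526) (nat_lit 8) (.e (nat_lit 327708) (nat_lit 10) .nil)))))) (.g (nat_lit 0) .nil .nil))))) (.nd (nat_lit 4) (.nd (nat_lit 5) 
(.lf (nat_lit 109966) (.g (nat_lit 1729) (.e (nat_lit 5394) (nat_lit 301) (.e (nat_lit 57464) (nat_lit 23) (.e (nat_lit 516151) (nat_lit 9) (.e (nat_lit 426286) (nat_lit 10) (.e (nat_lit 434238) (nat_lit 25) .nil))))) .nil)) 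
(.lf (nat_lit 109998) (.g (nat_lit 2389) (.e (nat_lit 5394) (nat_lit 301) (.e (nat_lit 57464) (nat_lit 23) (.e (nat_lit 516163) (nat_lit 11) (.e (nat_lit 442427) (nat_lit 23) (.e (nat_lit 204821) (nat_lit 17) (.e (nat_lit 6114) (nat_lit 332) (.e (nat_lit 1081) (nat_lit 81) .nil))))))) (.g (nat_lit 6) .nil .nil)))) (.nd (nat_lit 5) 
(.lf (nat_lit 109982) (.g (nat_lit 3858) (.e (nat_lit 5394) (nat_lit 301) (.e (nat_lit 57464) (nat_lit 23) (.e (nat_lit 516151) (nat_lit 9) (.e (nat_lit 426338) (nat_lit 14) (.e (nat_lit 491540) (nat_lit 3) (.e (nat_lit 98350) (nat_lit 24) (.e (nat_lit 409603) (nat_lit 0) .nil))))))) (.g (nat_lit 7) .nil .nil))) 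
(.lf (nat_lit 110014) (.g (nat_lit 1878) (.e (nat_lit 5394) (nat_lit 301) (.e (nat_lit 57464) (nat_lit 23) (.e (nat_lit 516166) (nat_lit 12) (.e (nat_lit 450587) (nat_lit 10) (.e (nat_lit 573457) (nat_lit 9) (.e (nat_lit 7936) (nat_lit 30) (.e (nat_lit 409604) (nat_lit 0) .nil))))))) (.g (nat_lit 5) .nil .nil)))))))) 
(.nd (nat_lit 1) (.nd (nat_lit 2) (.nd (nat_lit 3) (.nd (nat_lit 4) (.nd (nat_lit 5) 
(.lf (nat_lit 109953) (.g (nat_lit 2221) (.e (nat_lit 5394) (nat_lit 301) (.e (nat_lit 57464) (nat_lit 23) (.e (nat_lit 516151) (nat_lit 9) (.e (nat_lit 426275) (nat_lit 10) .nil)))) .nil)) 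
(.lf (nat_lit 109985) (.g (nat_lit 2294) (.e (nat_lit 5394) (nat_lit 301) (.e (nat_lit 57464) (nat_lit 23) (.e (nat_lit 516162) (nat_lit 11) (.e (nat_lit 442425) (nat_lit 23) (.e (nat_lit 204846) (nat_lit 24) (.e (nat_lit 319511) (nat_lit 10) .nil)))))) (.g (nat_lit 6) .nil .nil)))) (.nd (nat_lit 5) 
(.lf (nat_lit 109969) (.g (nat_lit 2436) (.e (nat_lit 5394) (nat_lit 301) (.e (nat_lit 57464) (nat_lit 23) (.e (nat_lit 516151) (nat_lit 9) (.e (nat_lit 426286) (nat_lit 10) (.e (nat_lit 434245) (nat_lit 28) (.e (nat_lit 573451) (nat_lit 9) (.e (nat_lit 7936) (nat_lit 30) (.e (nat_lit 409603) (nat_lit 0) .nil)))))))) (.g (nat_lit 5) .nil .nil))) 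
(.lf (nat_lit 110001) (.g (nat_lit 899) (.e (nat_lit 5394) (nat_lit 301) (.e (nat_lit 57464) (nat_lit 23) (.e (nat_lit 516165) (nat_lit 12) (.e (nat_lit 458496) (nat_lit 1) .nil)))) .nil)))) (.nd (nat_lit 4) (.nd (nat_lit 5) 
(.lf (nat_lit 109961) (.g (nat_lit 2582) (.e (nat_lit 5394) (nat_lit 301) (.e (nat_lit 57464) (nat_lit 23) (.e (nat_lit 516151) (nat_lit 9) (.e (nat_lit 426285) (nat_lit 10) (.e (nat_lit 434238) (nat_lit 25) .nil))))) .nil)) 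
(.lf (nat_lit 109993) (.g (nat_lit 2404) (.e (nat_lit 5394) (nat_lit 301) (.e (nat_lit 57464) (nat_lit 23) (.e (nat_lit 516163) (nat_lit 11) (.e (nat_lit 442424) (nat_lit 22) (.e (nat_lit 196661) (nat_lit 12) (.e (nat_lit 57712) (nat_lit 176) (.e (nat_lit 977) (nat_lit 81) .nil))))))) (.g (nat_lit 5) .nil .nil)))) (.nd (nat_lit 5) 
(.lf (nat_lit 109977) (.g (nat_lit 2219) (.e (nat_lit 5394) (nat_lit 301) (.e (nat_lit 57464) (nat_lit 23) (.e (nat_lit 516151) (nat_lit 9) (.e (nat_lit 426289) (nat_lit 10) .nil)))) .nil)) 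
(.lf (nat_lit 110009) (.g (nat_lit 1791) (.e (nat_lit 5394) (nat_lit 301) (.e (nat_lit 57464) (nat_lit 23) (.e (nat_lit 516165) (nat_lit 12) (.e (nat_lit 450586) (nat_lit 10) (.e (nat_lit 573457) (nat_lit 9) (.e (nat_lit 7936) (nat_lit 30) (.e (nat_lit 409604) (nat_lit 0) .nil))))))) (.g (nat_lit 5) .nil .nil)))))) (.nd (nat_lit 3) (.nd (nat_lit 4) (.nd (nat_lit 5) 
(.lf (nat_lit 109957) (.g (nat_lit 2410) (.e (nat_lit 5394) (nat_lit 301) (.e (nat_lit 57464) (nat_lit 23) (.e (nat_lit 516151) (nat_lit 9) (.e (nat_lit 426285) (nat_lit 10) (.e (nat_lit 434227) (nat_lit 20) .nil))))) .nil)) 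
(.lf (nat_lit 109989) (.g (nat_lit 2091) (.e (nat_lit 5394) (nat_lit 301) (.e (nat_lit 57464) (nat_lit 23) (.e (nat_lit 516163) (nat_lit 11) (.e (nat_lit 442424) (nat_lit 22) (.e (nat_lit 196643) (nat_lit 9) (.e (nat_lit 1410) (nat_lit 107) (.e (nat_lit 327708) (nat_lit 10) .nil))))))) (.g (nat_lit 4) .nil .nil)))) (.nd (nat_lit 5) 
(.lf (nat_lit 109973) (.g (nat_lit 2663) (.e (nat_lit 5394) (nat_lit 301) (.e (nat_lit 57464) (nat_lit 23) (.e (nat_lit 516151) (nat_lit 9) (.e (nat_lit 426286) (nat_lit 10) (.e (nat_lit 434247) (nat_lit 28) (.e (nat_lit 573457) (nat_lit 9) (.e (nat_lit 7936) (nat_lit 30) (.e (nat_lit 409604) (nat_lit 0) .nil)))))))) (.g (nat_lit 6) .nil .nil))) 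
(.lf (nat_lit 110005) (.g (nat_lit 2788) (.e (nat_lit 5394) (nat_lit 301) (.e (nat_lit 57464) (nat_lit 23) (.e (nat_lit 516165) (nat_lit 12) (.e (nat_lit 450579) (nat_lit 5) (.e (nat_lit 532525) (nat_lit 8) (.e (nat_lit 327708) (nat_lit 10) .nil)))))) (.g (nat_lit 0) .nil .nil))))) (.nd (nat_lit 4) (.nd (nat_lit 5) 
(.lf (nat_lit 109965) (.g (nat_lit 2123) (.e (nat_lit 5394) (nat_lit 301) (.e (nat_lit 57464) (nat_lit 23) (.e (nat_lit 516151) (nat_lit 9) (.e (nat_lit 426286) (nat_lit 10) (.e (nat_lit 434234) (nat_lit 23) .nil))))) .nil)) 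
(.lf (nat_lit 109997) (.g (nat_lit 1469) (.e (nat_lit 5394) (nat_lit 301) (.e (nat_lit 57464) (nat_lit 23) (.e (nat_lit 516163) (nat_lit 11) (.e (nat_lit 442427) (nat_lit 23) (.e (nat_lit 204821) (nat_lit 17) .nil))))) .nil))) (.nd (nat_lit 5) 
(.lf (nat_lit 109981) (.g (nat_lit 3760) (.e (nat_lit 5394) (nat_lit 301) (.e (nat_lit 57464) (nat_lit 23) (.e (nat_lit 516151) (nat_lit 9) (.e (nat_lit 426338) (nat_lit 14) (.e (nat_lit 491540) (nat_lit 3) (.e (nat_lit 98349) (nat_lit 24) (.e (nat_lit 409605) (nat_lit 0) .nil))))))) (.g (nat_lit 7) .nil .nil))) 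
(.lf (nat_lit 110013) (.g (nat_lit 1522) (.e (nat_lit 5394) (nat_lit 301) (.e (nat_lit 57464) (nat_lit 23) (.e (nat_lit 516166) (nat_lit 12) (.e (nat_lit 450587) (nat_lit 10) (.e (nat_lit 573456) (nat_lit 9) .nil))))) .nil)))))) (.nd (nat_lit 2) (.nd (nat_lit 3) (.nd (nat_lit 4) (.nd (nat_lit 5) 
(.lf (nat_lit 109955) (.g (nat_lit 2219) (.e (nat_lit 5394) (nat_lit 301) (.e (nat_lit 57464) (nat_lit 23) (.e (nat_lit 516151) (nat_lit 9) (.e (nat_lit 426281) (nat_lit 10) .nil)))) .nil)) 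
(.lf (nat_lit 109987) (.g (nat_lit 2083) (.e (nat_lit 5394) (nat_lit 301) (.e (nat_lit 57464) (nat_lit 23) (.e (nat_lit 516163) (nat_lit 11) (.e (nat_lit 442424) (nat_lit 22) (.e (nat_lit 196631) (nat_lit 9) .nil))))) .nil))) (.nd (nat_lit 5) 
(.lf (nat_lit 109971) (.g (nat_lit 2988) (.e (nat_lit 5394) (nat_lit 301) (.e (nat_lit 57464) (nat_lit 23) (.e (nat_lit 516151) (nat_lit 9) (.e (nat_lit 426286) (nat_lit 10) (.e (nat_lit 434245) (nat_lit 28) (.e (nat_lit 573468) (nat_lit 10) (.e (nat_lit 8492) (nat_lit 180) (.e (nat_lit 1078) (nat_lit 81) .nil)))))))) (.g (nat_lit 6) .nil .nil))) 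
(.lf (nat_lit 110003) (.g (nat_lit 1592) (.e (nat_lit 5394) (nat_lit 301) (.e (nat_lit 57464) (nat_lit 23) (.e (nat_lit 516165) (nat_lit 12) (.e (nat_lit 450579) (nat_lit 5) (.e (nat_lit 532484) (nat_lit 0) (.e (nat_lit 6198) (nat_lit 332) (.e (nat_lit 1079) (nat_lit 81) .nil))))))) (.g (nat_lit 4) .nil .nil))))) (.nd (nat_lit 4) (.nd (nat_lit 5) 
(.lf (nat_lit 109963) (.g (nat_lit 2549) (.e (nat_lit 5394) (nat_lit 301) (.e (nat_lit 57464) (nat_lit 23) (.e (nat_lit 516151) (nat_lit 9) (.e (nat_lit 426286) (nat_lit 10) (.e (nat_lit 434227) (nat_lit 20) (.e (nat_lit 507929) (nat_lit 10) (.e (nat_lit 4979) (nat_lit 287) (.e (nat_lit 1079) (nat_lit 81) .nil)))))))) (.g (nat_lit 6) .nil .nil))) 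
(.lf (nat_lit 109995) (.g (nat_lit 2683) (.e (nat_lit 5394) (nat_lit 301) (.e (nat_lit 57464) (nat_lit 23) (.e (nat_lit 516163) (nat_lit 11) (.e (nat_lit 442425) (nat_lit 23) (.e (nat_lit 204846) (nat_lit 24) (.e (nat_lit 319511) (nat_lit 10) .nil)))))) (.g (nat_lit 6) .nil .nil)))) (.nd (nat_lit 5) 
(.lf (nat_lit 109979) (.g (nat_lit 2581) (.e (nat_lit 5394) (nat_lit 301) (.e (nat_lit 57464) (nat_lit 23) (.e (nat_lit 516151) (nat_lit 9) (.e (nat_lit 426290) (nat_lit 10) (.e (nat_lit 434231) (nat_lit 23) (.e (nat_lit 532525) (nat_lit 8) (.e (nat_lit 327708) (nat_lit 10) .nil))))))) (.g (nat_lit 4) .nil .nil))) 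
(.lf (nat_lit 110011) (.g (nat_lit 1063) (.e (nat_lit 5394) (nat_lit 301) (.e (nat_lit 57464) (nat_lit 23) (.e (nat_lit 516166) (nat_lit 12) (.e (nat_lit 450576) (nat_lit 2) .nil)))) .nil))))) (.nd (nat_lit 3) (.nd (nat_lit 4) (.nd (nat_lit 5) 
(.lf (nat_lit 109959) (.g (nat_lit 3435) (.e (nat_lit 5394) (nat_lit 301) (.e (nat_lit 57464) (nat_lit 23) (.e (nat_lit 516151) (nat_lit 9) (.e (nat_lit 426285) (nat_lit 10) (.e (nat_lit 434227) (nat_lit 20) (.e (nat_lit 507930) (nat_lit 10) (.e (nat_lit 4979) (nat_lit 287) (.e (nat_lit 1079) (nat_lit 81) .nil)))))))) (.g (nat_lit 8) .nil .nil))) 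
(.lf (nat_lit 109991) (.g (nat_lit 2427) (.e (nat_lit 5394) (nat_lit 301) (.e (nat_lit 57464) (nat_lit 23) (.e (nat_lit 516163) (nat_lit 11) (.e (nat_lit 442424) (nat_lit 22) (.e (nat_lit 196661) (nat_lit 12) (.e (nat_lit 57711) (nat_lit 176) (.e (nat_lit 1074) (nat_lit 81) .nil))))))) (.g (nat_lit 5) .nil .nil)))) (.nd (nat_lit 5) 
(.lf (nat_lit 109975) (.g (nat_lit 3833) (.e (nat_lit 5394) (nat_lit 301) (.e (nat_lit 57464) (nat_lit 23) (.e (nat_lit 516151) (nat_lit 9) (.e (nat_lit 426286) (nat_lit 10) (.e (nat_lit 434248) (nat_lit 28) (.e (nat_lit 573452) (nat_lit 9) (.e (nat_lit 359) (nat_lit 30) (.e (nat_lit 409605) (nat_lit 0) .nil)))))))) (.g (nat_lit 0) .nil .nil))) 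
(.lf (nat_lit 110007) (.g (nat_lit 2698) (.e (nat_lit 5394) (nat_lit 301) (.e (nat_lit 57464) (nat_lit 23) (.e (nat_lit 516165) (nat_lit 12) (.e (nat_lit 450581) (nat_lit 5) (.e (nat_lit 532523) (nat_lit 7) (.e (nat_lit 319511) (nat_lit 10) .nil)))))) (.g (nat_lit 0) .nil .nil))))) (.nd (nat_lit 4) (.nd (nat_lit 5) 
(.lf (nat_lit 109967) (.g (nat_lit 1576) (.e (nat_lit 5394) (nat_lit 301) (.e (nat_lit 57464) (nat_lit 23) (.e (nat_lit 516151) (nat_lit 9) (.e (nat_lit 426286) (nat_lit 10) (.e (nat_lit 434245) (nat_lit 28) .nil))))) .nil)) 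
(.lf (nat_lit 109999) (.g (nat_lit 2581) (.e (nat_lit 5394) (nat_lit 301) (.e (nat_lit 57464) (nat_lit 23) (.e (nat_lit 516163) (nat_lit 11) (.e (nat_lit 442427) (nat_lit 23) (.e (nat_lit 204845) (nat_lit 24) (.e (nat_lit 327424) (nat_lit 10) .nil)))))) (.g (nat_lit 5) .nil .nil)))) (.nd (nat_lit 5) 
(.lf (nat_lit 109983) (.g (nat_lit 3848) (.e (nat_lit 5394) (nat_lit 301) (.e (nat_lit 57464) (nat_lit 23) (.e (nat_lit 516151) (nat_lit 9) (.e (nat_lit 426338) (nat_lit 14) (.e (nat_lit 491540) (nat_lit 3) (.e (nat_lit 98350) (nat_lit 24) (.e (nat_lit 409604) (nat_lit 0) .nil))))))) (.g (nat_lit 0) .nil .nil))) 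
(.lf (nat_lit 110015) (.g (nat_lit 2653) (.e (nat_lit 5394) (nat_lit 301) (.e (nat_lit 57464) (nat_lit 23) (.e (nat_lit 516166) (nat_lit 12) (.e (nat_lit 450588) (nat_lit 10) (.e (nat_lit 573452) (nat_lit 9) (.e (nat_lit 7936) (nat_lit 30) (.e (nat_lit 409604) (nat_lit 0) .nil))))))) (.g (nat_lit 5) .nil .nil)))))))))

noncomputable def tv1483 : DT := (.nd (nat_lit 0) (.nd (nat_lit 1) (.nd (nat_lit 2) (.nd (nat_lit 3) (.nd (nat_lit 4) (.nd (nat_lit 5) 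
(.lf (nat_lit 110016) (.g (nat_lit 2119) (.e (nat_lit 5394) (nat_lit 301) (.e (nat_lit 57464) (nat_lit 23) (.e (nat_lit 516166) (nat_lit 12) (.e (nat_lit 450588) (nat_lit 10) (.e (nat_lit 573468) (nat_lit 10) .nil))))) .nil)) 
(.lf (nat_lit 110048) (.g (nat_lit 1699) (.e (nat_lit 5395) (nat_lit 301) (.e (nat_lit 57464) (nat_lit 23) (.e (nat_lit 516151) (nat_lit 9) (.e (nat_lit 426216) (nat_lit 9) .nil)))) .nil))) (.nd (nat_lit 5) 
(.lf (nat_lit 110032) (.g (nat_lit 2545) (.e (nat_lit 5395) (nat_lit 301) (.e (nat_lit 57464) (nat_lit 23) (.e (nat_lit 516151) (nat_lit 9) (.e (nat_lit 426171) (nat_lit 7) (.e (nat_lit 409631) (nat_lit 12) .nil))))) .nil)) 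
(.lf (nat_lit 110064) (.g (nat_lit 1035) (.e (nat_lit 5395) (nat_lit 301) (.e (nat_lit 57464) (nat_lit 23) (.e (nat_lit 516163) (nat_lit 11) (.e (nat_lit 442423) (nat_lit 22) .nil)))) .nil)))) (.nd (nat_lit 4) (.nd (nat_lit 5) 
(.lf (nat_lit 110024) (.g (nat_lit 1862) (.e (nat_lit 5395) (nat_lit 301) (.e (nat_lit 57464) (nat_lit 23) (.e (nat_lit 516139) (nat_lit 7) (.e (nat_lit 417536) (nat_lit 6) (.e (nat_lit 286735) (nat_lit 3) (.e (nat_lit 98353) (nat_lit 25) (.e (nat_lit 417793) (nat_lit 0) .nil))))))) (.g (nat_lit 5) .nil .nil))) 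
(.lf (nat_lit 110056) (.g (nat_lit 1618) (.e (nat_lit 5395) (nat_lit 301) (.e (nat_lit 57464) (nat_lit 23) (.e (nat_lit 516151) (nat_lit 9) (.e (nat_lit 426285) (nat_lit 10) .nil)))) .nil))) (.nd (nat_lit 5) 
(.lf (nat_lit 110040) (.g (nat_lit 2249) (.e (nat_lit 5395) (nat_lit 301) (.e (nat_lit 57464) (nat_lit 23) (.e (nat_lit 516151) (nat_lit 9) (.e (nat_lit 426205) (nat_lit 9) .nil)))) .nil)) 
(.lf (nat_lit 110072) (.g (nat_lit 1498) (.e (nat_lit 5395) (nat_lit 301) (.e (nat_lit 57464) (nat_lit 23) (.e (nat_lit 516163) (nat_lit 11) (.e (nat_lit 442427) (nat_lit 23) (.e (nat_lit 204821) (nat_lit 17) (.e (nat_lit 6136) (nat_lit 332) (.e (nat_lit 1008) (nat_lit 81) .nil))))))) (.g (nat_lit 4) .nil .nil)))))) (.nd (nat_lit 3) (.nd (nat_lit 4) (.nd (nat_lit 5) 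
(.lf (nat_lit 110020) (.g (nat_lit 2517) (.e (nat_lit 5395) (nat_lit 301) (.e (nat_lit 57464) (nat_lit 23) (.e (nat_lit 516139) (nat_lit 7) (.e (nat_lit 409602) (nat_lit 0) (.e (nat_lit 5394) (nat_lit 301) .nil))))) .nil)) 
(.lf (nat_lit 110052) (.g (nat_lit 3023) (.e (nat_lit 5395) (nat_lit 301) (.e (nat_lit 57464) (nat_lit 23) (.e (nat_lit 516151) (nat_lit 9) (.e (nat_lit 426275) (nat_lit 10) (.e (nat_lit 434231) (nat_lit 23) (.e (nat_lit 532523) (nat_lit 7) (.e (nat_lit 319503) (nat_lit 10) .nil))))))) (.g (nat_lit 4) .nil .nil)))) (.nd (nat_lit 5) 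
(.lf (nat_lit 110036) (.g (nat_lit 2265) (.e (nat_lit 5395) (nat_lit 301) (.e (nat_lit 57464) (nat_lit 23) (.e (nat_lit 516151) (nat_lit 9) (.e (nat_lit 426185) (nat_lit 9) (.e (nat_lit 426131) (nat_lit 3) .nil))))) .nil)) 
(.lf (nat_lit 110068) (.g (nat_lit 2847) (.e (nat_lit 5395) (nat_lit 301) (.e (nat_lit 57464) (nat_lit 23) (.e (nat_lit 516163) (nat_lit 11) (.e (nat_lit 442424) (nat_lit 22) (.e (nat_lit 196661) (nat_lit 12) (.e (nat_lit 57711) (nat_lit 176) (.e (nat_lit 1008) (nat_lit 81) .nil))))))) (.g (nat_lit 6) .nil .nil))))) (.nd (nat_lit 4) (.nd (nat_lit 5) 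
(.lf (nat_lit 110028) (.g (nat_lit 1193) (.e (nat_lit 5395) (nat_lit 301) (.e (nat_lit 57464) (nat_lit 23) (.e (nat_lit 516142) (nat_lit 8) (.e (nat_lit 417795) (nat_lit 0) (.e (nat_lit 5395) (nat_lit 301) (.e (nat_lit 57464) (nat_lit 23) (.e (nat_lit 516142) (nat_lit 8) (.e (nat_lit 417793) (nat_lit 0) .nil)))))))) (.g (nat_lit 4) .nil .nil))) 
(.lf (nat_lit 110060) (.g (nat_lit 2245) (.e (nat_lit 5395) (nat_lit 301) (.e (nat_lit 57464) (nat_lit 23) (.e (nat_lit 516151) (nat_lit 9) (.e (nat_lit 426295) (nat_lit 11) .nil)))) .nil))) (.nd (nat_lit 5) 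
(.lf (nat_lit 110044) (.g (nat_lit 2682) (.e (nat_lit 5395) (nat_lit 301) (.e (nat_lit 57464) (nat_lit 23) (.e (nat_lit 516151) (nat_lit 9) (.e (nat_lit 426211) (nat_lit 9) (.e (nat_lit 426125) (nat_lit 2) .nil))))) .nil)) 
(.lf (nat_lit 110076) (.g (nat_lit 3977) (.e (nat_lit 5395) (nat_lit 301) (.e (nat_lit 57464) (nat_lit 23) (.e (nat_lit 516163) (nat_lit 11) (.e (nat_lit 442427) (nat_lit 23) (.e (nat_lit 204846) (nat_lit 24) (.e (nat_lit 319505) (nat_lit 10) .nil)))))) (.g (nat_lit 6) .nil .nil))))))) (.nd (nat_lit 2) (.nd (nat_lit 3) (.nd (nat_lit 4) (.nd (nat_lit 5) 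
(.lf (nat_lit 110018) (.g (nat_lit 1952) (.e (nat_lit 5395) (nat_lit 301) (.e (nat_lit 57354) (nat_lit 0) (.e (nat_lit 5906) (nat_lit 320) (.e (nat_lit 1221) (nat_lit 90) (.e (nat_lit 81959) (nat_lit 24) .nil))))) .nil)) 
(.lf (nat_lit 110050) (.g (nat_lit 2249) (.e (nat_lit 5395) (nat_lit 301) (.e (nat_lit 57464) (nat_lit 23) (.e (nat_lit 516151) (nat_lit 9) (.e (nat_lit 426219) (nat_lit 9) .nil)))) .nil))) (.nd (nat_lit 5) 
(.lf (nat_lit 110034) (.g (nat_lit 1861) (.e (nat_lit 5395) (nat_lit 301) (.e (nat_lit 57464) (nat_lit 23) (.e (nat_lit 516151) (nat_lit 9) (.e (nat_lit 426185) (nat_lit 9) .nil)))) .nil)) 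
(.lf (nat_lit 110066) (.g (nat_lit 2041) (.e (nat_lit 5395) (nat_lit 301) (.e (nat_lit 57464) (nat_lit 23) (.e (nat_lit 516163) (nat_lit 11) (.e (nat_lit 442424) (nat_lit 22) (.e (nat_lit 196628) (nat_lit 9) (.e (nat_lit 968) (nat_lit 81) (.e (nat_lit 6190) (nat_lit 332) (.e (nat_lit 1008) (nat_lit 81) .nil)))))))) (.g (nat_lit 4) .nil .nil))))) (.nd (nat_lit 4) (.nd (nat_lit 5) 
(.lf (nat_lit 110026) (.g (nat_lit 2262) (.e (nat_lit 5395) (nat_lit 301) (.e (nat_lit 57464) (nat_lit 23) (.e (nat_lit 516142) (nat_lit 8) (.e (nat_lit 417793) (nat_lit 0) (.e (nat_lit 5395) (nat_lit 301) (.e (nat_lit 57464) (nat_lit 23) (.e (nat_lit 516142) (nat_lit 8) (.e (nat_lit 417793) (nat_lit 0) .nil)))))))) (.g (nat_lit 7) .nil .nil))) 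
(.lf (nat_lit 110058) (.g (nat_lit 2249) (.e (nat_lit 5395) (nat_lit 301) (.e (nat_lit 57464) (nat_lit 23) (.e (nat_lit 516151) (nat_lit 9) (.e (nat_lit 426289) (nat_lit 10) .nil)))) .nil))) (.nd (nat_lit 5) 
(.lf (nat_lit 110042) (.g (nat_lit 2214) (.e (nat_lit 5395) (nat_lit 301) (.e (nat_lit 57464) (nat_lit 23) (.e (nat_lit 516151) (nat_lit 9) (.e (nat_lit 426210) (nat_lit 9) .nil)))) .nil)) 
(.lf (nat_lit 110074) (.g (nat_lit 2612) (.e (nat_lit 5395) (nat_lit 301) (.e (nat_lit 57464) (nat_lit 23) (.e (nat_lit 516163) (nat_lit 11) (.e (nat_lit 442427) (nat_lit 23) (.e (nat_lit 204845) (nat_lit 24) (.e (nat_lit 327424) (nat_lit 10) .nil)))))) (.g (nat_lit 5) .nil .nil)))))) (.nd (nat_lit 3) (.nd (nat_lit 4) (.nd (nat_lit 5) 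
(.lf (nat_lit 110022) (.g (nat_lit 1921) (.e (nat_lit 5395) (nat_lit 301) (.e (nat_lit 57464) (nat_lit 23) (.e (nat_lit 516139) (nat_lit 7) (.e (nat_lit 409603) (nat_lit 0) (.e (nat_lit 5394) (nat_lit 301) .nil))))) .nil)) 
(.lf (nat_lit 110054) (.g (nat_lit 2474) (.e (nat_lit 5395) (nat_lit 301) (.e (nat_lit 57464) (nat_lit 23) (.e (nat_lit 516151) (nat_lit 9) (.e (nat_lit 426281) (nat_lit 10) (.e (nat_lit 434233) (nat_lit 23) .nil))))) .nil))) (.nd (nat_lit 5) 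
(.lf (nat_lit 110038) (.g (nat_lit 2616) (.e (nat_lit 5395) (nat_lit 301) (.e (nat_lit 57464) (nat_lit 23) (.e (nat_lit 516151) (nat_lit 9) (.e (nat_lit 426195) (nat_lit 9) (.e (nat_lit 426131) (nat_lit 3) .nil))))) .nil)) 
(.lf (nat_lit 110070) (.g (nat_lit 3163) (.e (nat_lit 5395) (nat_lit 301) (.e (nat_lit 57464) (nat_lit 23) (.e (nat_lit 516163) (nat_lit 11) (.e (nat_lit 442426) (nat_lit 23) (.e (nat_lit 204846) (nat_lit 24) (.e (nat_lit 319505) (nat_lit 10) .nil)))))) (.g (nat_lit 0) .nil .nil))))) (.nd (nat_lit 4) (.nd (nat_lit 5) 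
(.lf (nat_lit 110030) (.g (nat_lit 2597) (.e (nat_lit 5395) (nat_lit 301) (.e (nat_lit 57464) (nat_lit 23) (.e (nat_lit 516151) (nat_lit 9) (.e (nat_lit 426170) (nat_lit 7) (.e (nat_lit 409631) (nat_lit 12) .nil))))) .nil)) 
(.lf (nat_lit 110062) (.g (nat_lit 3064) (.e (nat_lit 5395) (nat_lit 301) (.e (nat_lit 57464) (nat_lit 23) (.e (nat_lit 516162) (nat_lit 11) (.e (nat_lit 442425) (nat_lit 23) (.e (nat_lit 204846) (nat_lit 24) (.e (nat_lit 319505) (nat_lit 10) .nil)))))) (.g (nat_lit 0) .nil .nil)))) (.nd (nat_lit 5) 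
(.lf (nat_lit 110046) (.g (nat_lit 2196) (.e (nat_lit 5395) (nat_lit 301) (.e (nat_lit 57464) (nat_lit 23) (.e (nat_lit 516151) (nat_lit 9) (.e (nat_lit 426212) (nat_lit 9) .nil)))) .nil)) 
(.lf (nat_lit 110078) (.g (nat_lit 1530) (.e (nat_lit 5395) (nat_lit 301) (.e (nat_lit 57464) (nat_lit 23) (.e (nat_lit 516165) (nat_lit 12) (.e (nat_lit 450576) (nat_lit 2) (.e (nat_lit 507942) (nat_lit 15) (.e (nat_lit 278550) (nat_lit 10) .nil)))))) (.g (nat_lit 6) .nil .nil)))))))) (.nd (nat_lit 1) (.nd (nat_lit 2) (.nd (nat_lit 3) (.nd (nat_lit 4) (.nd (nat_lit 5) 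
(.lf (nat_lit 110017) (.g (nat_lit 2884) (.e (nat_lit 5394) (nat_lit 301) (.e (nat_lit 57464) (nat_lit 23) (.e (nat_lit 516167) (nat_lit 12) (.e (nat_lit 450580) (nat_lit 5) (.e (nat_lit 532523) (nat_lit 7) (.e (nat_lit 319511) (nat_lit 10) .nil)))))) (.g (nat_lit 6) .nil .nil))) 
(.lf (nat_lit 110049) (.g (nat_lit 2234) (.e (nat_lit 5395) (nat_lit 301) (.e (nat_lit 57464) (nat_lit 23) (.e (nat_lit 516151) (nat_lit 9) (.e (nat_lit 426218) (nat_lit 9) .nil)))) .nil))) (.nd (nat_lit 5) 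
(.lf (nat_lit 110033) (.g (nat_lit 2589) (.e (nat_lit 5395) (nat_lit 301) (.e (nat_lit 57464) (nat_lit 23) (.e (nat_lit 516151) (nat_lit 9) (.e (nat_lit 426171) (nat_lit 7) (.e (nat_lit 409631) (nat_lit 12) (.e (nat_lit 32794) (nat_lit 14) (.e (nat_lit 2835) (nat_lit 183) (.e (nat_lit 417795) (nat_lit 0) .nil)))))))) (.g (nat_lit 4) .nil .nil))) 
(.lf (nat_lit 110065) (.g (nat_lit 777) (.e (nat_lit 5395) (nat_lit 301) (.e (nat_lit 57464) (nat_lit 23) (.e (nat_lit 516163) (nat_lit 11) (.e (nat_lit 442424) (nat_lit 22) .nil)))) .nil)))) (.nd (nat_lit 4) (.nd (nat_lit 5) 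
(.lf (nat_lit 110025) (.g (nat_lit 936) (.e (nat_lit 5395) (nat_lit 301) (.e (nat_lit 57464) (nat_lit 23) (.e (nat_lit 516141) (nat_lit 8) (.e (nat_lit 417793) (nat_lit 0) (.e (nat_lit 5395) (nat_lit 301) (.e (nat_lit 57464) (nat_lit 23) (.e (nat_lit 516141) (nat_lit 8) (.e (nat_lit 417793) (nat_lit 0) .nil)))))))) (.g (nat_lit 4) .nil .nil))) 
(.lf (nat_lit 110057) (.g (nat_lit 2609) (.e (nat_lit 5395) (nat_lit 301) (.e (nat_lit 57464) (nat_lit 23) (.e (nat_lit 516151) (nat_lit 9) (.e (nat_lit 426285) (nat_lit 10) (.e (nat_lit 434227) (nat_lit 20) .nil))))) .nil))) (.nd (nat_lit 5) 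
(.lf (nat_lit 110041) (.g (nat_lit 2249) (.e (nat_lit 5395) (nat_lit 301) (.e (nat_lit 57464) (nat_lit 23) (.e (nat_lit 516151) (nat_lit 9) (.e (nat_lit 426208) (nat_lit 9) .nil)))) .nil)) 
(.lf (nat_lit 110073) (.g (nat_lit 1588) (.e (nat_lit 5395) (nat_lit 301) (.e (nat_lit 57464) (nat_lit 23) (.e (nat_lit 516163) (nat_lit 11) (.e (nat_lit 442427) (nat_lit 23) (.e (nat_lit 204821) (nat_lit 17) (.e (nat_lit 6149) (nat_lit 332) (.e (nat_lit 1013) (nat_lit 81) .nil))))))) (.g (nat_lit 4) .nil .nil)))))) (.nd (nat_lit 3) (.nd (nat_lit 4) (.nd (nat_lit 5) 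
(.lf (nat_lit 110021) (.g (nat_lit 1856) (.e (nat_lit 5395) (nat_lit 301) (.e (nat_lit 57464) (nat_lit 23) (.e (nat_lit 516139) (nat_lit 7) (.e (nat_lit 409603) (nat_lit 0) .nil)))) .nil)) 
(.lf (nat_lit 110053) (.g (nat_lit 2973) (.e (nat_lit 5395) (nat_lit 301) (.e (nat_lit 57464) (nat_lit 23) (.e (nat_lit 516151) (nat_lit 9) (.e (nat_lit 426275) (nat_lit 10) (.e (nat_lit 434231) (nat_lit 23) (.e (nat_lit 532523) (nat_lit 7) (.e (nat_lit 327424) (nat_lit 10) .nil))))))) (.g (nat_lit 4) .nil .nil)))) (.nd (nat_lit 5) 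
(.lf (nat_lit 110037) (.g (nat_lit 3914) (.e (nat_lit 5395) (nat_lit 301) (.e (nat_lit 57464) (nat_lit 23) (.e (nat_lit 516151) (nat_lit 9) (.e (nat_lit 426185) (nat_lit 9) (.e (nat_lit 426140) (nat_lit 3) (.e (nat_lit 204846) (nat_lit 24) (.e (nat_lit 319504) (nat_lit 10) .nil))))))) (.g (nat_lit 6) .nil .nil))) 
(.lf (nat_lit 110069) (.g (nat_lit 3444) (.e (nat_lit 5395) (nat_lit 301) (.e (nat_lit 57464) (nat_lit 23) (.e (nat_lit 516163) (nat_lit 11) (.e (nat_lit 442425) (nat_lit 23) (.e (nat_lit 204846) (nat_lit 24) (.e (nat_lit 319505) (nat_lit 10) .nil)))))) (.g (nat_lit 6) .nil .nil))))) (.nd (nat_lit 4) (.nd (nat_lit 5) 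
(.lf (nat_lit 110029) (.g (nat_lit 2433) (.e (nat_lit 5395) (nat_lit 301) (.e (nat_lit 57464) (nat_lit 23) (.e (nat_lit 516151) (nat_lit 9) (.e (nat_lit 426022) (nat_lit 0) .nil)))) .nil)) 
(.lf (nat_lit 110061) (.g (nat_lit 1508) (.e (nat_lit 5395) (nat_lit 301) (.e (nat_lit 57464) (nat_lit 23) (.e (nat_lit 516151) (nat_lit 9) (.e (nat_lit 426338) (nat_lit 14) .nil)))) .nil))) (.nd (nat_lit 5) 
(.lf (nat_lit 110045) (.g (nat_lit 2726) (.e (nat_lit 5395) (nat_lit 301) (.e (nat_lit 57464) (nat_lit 23) (.e (nat_lit 516151) (nat_lit 9) (.e (nat_lit 426211) (nat_lit 9) (.e (nat_lit 426140) (nat_lit 3) .nil))))) .nil)) 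
(.lf (nat_lit 110077) (.g (nat_lit 878) (.e (nat_lit 5395) (nat_lit 301) (.e (nat_lit 57464) (nat_lit 23) (.e (nat_lit 516165) (nat_lit 12) (.e (nat_lit 458496) (nat_lit 1) .nil)))) .nil)))))) (.nd (nat_lit 2) (.nd (nat_lit 3) (.nd (nat_lit 4) (.nd (nat_lit 5) 
(.lf (nat_lit 110019) (.g (nat_lit 2920) (.e (nat_lit 5395) (nat_lit 301) (.e (nat_lit 57464) (nat_lit 23) (.e (nat_lit 516139) (nat_lit 7) (.e (nat_lit 409602) (nat_lit 0) (.e (nat_lit 5389) (nat_lit 301) .nil))))) .nil)) 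
(.lf (nat_lit 110051) (.g (nat_lit 2251) (.e (nat_lit 5395) (nat_lit 301) (.e (nat_lit 57464) (nat_lit 23) (.e (nat_lit 516151) (nat_lit 9) (.e (nat_lit 426275) (nat_lit 10) .nil)))) .nil))) (.nd (nat_lit 5) 
(.lf (nat_lit 110035) (.g (nat_lit 2290) (.e (nat_lit 5395) (nat_lit 301) (.e (nat_lit 57464) (nat_lit 23) (.e (nat_lit 516151) (nat_lit 9) (.e (nat_lit 426185) (nat_lit 9) (.e (nat_lit 426125) (nat_lit 2) (.e (nat_lit 196661) (nat_lit 12) (.e (nat_lit 57711) (nat_lit 176) (.e (nat_lit 1013) (nat_lit 81) .nil)))))))) (.g (nat_lit 4) .nil .nil))) 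
(.lf (nat_lit 110067) (.g (nat_lit 1804) (.e (nat_lit 5395) (nat_lit 301) (.e (nat_lit 57464) (nat_lit 23) (.e (nat_lit 516163) (nat_lit 11) (.e (nat_lit 442424) (nat_lit 22) (.e (nat_lit 196661) (nat_lit 12) .nil))))) .nil)))) (.nd (nat_lit 4) (.nd (nat_lit 5) 
(.lf (nat_lit 110027) (.g (nat_lit 1029) (.e (nat_lit 5395) (nat_lit 301) (.e (nat_lit 57464) (nat_lit 23) (.e (nat_lit 516142) (nat_lit 8) (.e (nat_lit 417794) (nat_lit 0) (.e (nat_lit 5395) (nat_lit 301) .nil))))) .nil)) 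
(.lf (nat_lit 110059) (.g (nat_lit 1947) (.e (nat_lit 5395) (nat_lit 301) (.e (nat_lit 57464) (nat_lit 23) (.e (nat_lit 516151) (nat_lit 9) (.e (nat_lit 426290) (nat_lit 10) .nil)))) .nil))) (.nd (nat_lit 5) 
(.lf (nat_lit 110043) (.g (nat_lit 1623) (.e (nat_lit 5395) (nat_lit 301) (.e (nat_lit 57464) (nat_lit 23) (.e (nat_lit 516151) (nat_lit 9) (.e (nat_lit 426211) (nat_lit 9) .nil)))) .nil)) 
(.lf (nat_lit 110075) (.g (nat_lit 4383) (.e (nat_lit 5395) (nat_lit 301) (.e (nat_lit 57464) (nat_lit 23) (.e (nat_lit 516163) (nat_lit 11) (.e (nat_lit 442427) (nat_lit 23) (.e (nat_lit 204846) (nat_lit 24) (.e (nat_lit 319504) (nat_lit 10) .nil)))))) (.g (nat_lit 0) .nil .nil)))))) (.nd (nat_lit 3) (.nd (nat_lit 4) (.nd (nat_lit 5) 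
(.lf (nat_lit 110023) (.g (nat_lit 1892) (.e (nat_lit 5395) (nat_lit 301) (.e (nat_lit 57464) (nat_lit 23) (.e (nat_lit 516139) (nat_lit 7) (.e (nat_lit 409604) (nat_lit 0) .nil)))) .nil)) 
(.lf (nat_lit 110055) (.g (nat_lit 2235) (.e (nat_lit 5395) (nat_lit 301) (.e (nat_lit 57464) (nat_lit 23) (.e (nat_lit 516151) (nat_lit 9) (.e (nat_lit 426282) (nat_lit 10) .nil)))) .nil))) (.nd (nat_lit 5) 
(.lf (nat_lit 110039) (.g (nat_lit 2249) (.e (nat_lit 5395) (nat_lit 301) (.e (nat_lit 57464) (nat_lit 23) (.e (nat_lit 516151) (nat_lit 9) (.e (nat_lit 426203) (nat_lit 9) .nil)))) .nil)) 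
(.lf (nat_lit 110071) (.g (nat_lit 1497) (.e (nat_lit 5395) (nat_lit 301) (.e (nat_lit 57464) (nat_lit 23) (.e (nat_lit 516163) (nat_lit 11) (.e (nat_lit 442427) (nat_lit 23) (.e (nat_lit 204821) (nat_lit 17) .nil))))) .nil)))) (.nd (nat_lit 4) (.nd (nat_lit 5) 
(.lf (nat_lit 110031) (.g (nat_lit 1855) (.e (nat_lit 5395) (nat_lit 301) (.e (nat_lit 57464) (nat_lit 23) (.e (nat_lit 516151) (nat_lit 9) (.e (nat_lit 426171) (nat_lit 7) .nil)))) .nil)) 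
(.lf (nat_lit 110063) (.g (nat_lit 1141) (.e (nat_lit 5395) (nat_lit 301) (.e (nat_lit 57464) (nat_lit 23) (.e (nat_lit 516163) (nat_lit 11) (.e (nat_lit 442414) (nat_lit 20) .nil)))) .nil))) (.nd (nat_lit 5) 
(.lf (nat_lit 110047) (.g (nat_lit 2183) (.e (nat_lit 5395) (nat_lit 301) (.e (nat_lit 57464) (nat_lit 23) (.e (nat_lit 516151) (nat_lit 9) (.e (nat_lit 426215) (nat_lit 9) .nil)))) .nil)) 
(.lf (nat_lit 110079) (.g (nat_lit 3030) (.e (nat_lit 5395) (nat_lit 301) (.e (nat_lit 57464) (nat_lit 23) (.e (nat_lit 516165) (nat_lit 12) (.e (nat_lit 450579) (nat_lit 5) (.e (nat_lit 532481) (nat_lit 0) (.e (nat_lit 6157) (nat_lit 332) (.e (nat_lit 1010) (nat_lit 81) .nil))))))) (.g (nat_lit 6) .nil .nil)))))))))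

noncomputable def tv1484 : DT := (.nd (nat_lit 0) (.nd (nat_lit 1) (.nd (nat_lit 2) (.nd (nat_lit 3) (.nd (nat_lit 4) (.nd (nat_lit 5) (.nd (nat_lit 6) 
(.lf (nat_lit 110080) (.g (nat_lit 1495) (.e (nat_lit 5395) (nat_lit 301) (.e (nat_lit 57464) (nat_lit 23) (.e (nat_lit 516165) (nat_lit 12) (.e (nat_lit 450579) (nat_lit 5) (.e (nat_lit 532484) (nat_lit 0) .nil))))) .nil)) 
(.lf (nat_lit 110144) (.g (nat_lit 3841) (.e (nat_lit 5399) (nat_lit 302) (.e (nat_lit 65571) (nat_lit 3) (.e (nat_lit 98389) (nat_lit 33) (.e (nat_lit 491558) (nat_lit 10) (.e (nat_lit 344115) (nat_lit 20) (.e (nat_lit 507906) (nat_lit 0) .nil)))))) (.g (nat_lit 6) .nil .nil)))) (.nd (nat_lit 6) 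
(.lf (nat_lit 110112) (.g (nat_lit 2345) (.e (nat_lit 5396) (nat_lit 301) (.e (nat_lit 57575) (nat_lit 55) (.e (nat_lit 778463) (nat_lit 11) (.e (nat_lit 24660) (nat_lit 13) (.e (nat_lit 393260) (nat_lit 21) (.e (nat_lit 417536) (nat_lit 10) .nil)))))) (.g (nat_lit 5) .nil .nil))) 
(.lf (nat_lit 110176) (.g (nat_lit 1503) (.e (nat_lit 5399) (nat_lit 302) (.e (nat_lit 65653) (nat_lit 27) (.e (nat_lit 426343) (nat_lit 14) (.e (nat_lit 491552) (nat_lit 9) (.e (nat_lit 336363) (nat_lit 26) .nil))))) .nil)))) (.nd (nat_lit 5) (.nd (nat_lit 6) 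
(.lf (nat_lit 110096) (.g (nat_lit 3372) (.e (nat_lit 5396) (nat_lit 301) (.e (nat_lit 57464) (nat_lit 23) (.e (nat_lit 516151) (nat_lit 9) (.e (nat_lit 426211) (nat_lit 9) (.e (nat_lit 426140) (nat_lit 3) .nil))))) .nil)) 
(.lf (nat_lit 110160) (.g (nat_lit 2344) (.e (nat_lit 5399) (nat_lit 302) (.e (nat_lit 65653) (nat_lit 27) (.e (nat_lit 426011) (nat_lit 0) (.e (nat_lit 7589) (nat_lit 406) (.e (nat_lit 65647) (nat_lit 25) (.e (nat_lit 409602) (nat_lit 0) .nil)))))) (.g (nat_lit 6) .nil .nil)))) (.nd (nat_lit 6) 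
(.lf (nat_lit 110128) (.g (nat_lit 918) (.e (nat_lit 5399) (nat_lit 302) (.e (nat_lit 65565) (nat_lit 1) (.e (nat_lit 57655) (nat_lit 152) (.e (nat_lit 1217) (nat_lit 90) (.e (nat_lit 89856) (nat_lit 9) .nil))))) .nil)) 
(.lf (nat_lit 110192) (.g (nat_lit 1515) (.e (nat_lit 5401) (nat_lit 302) (.e (nat_lit 65565) (nat_lit 1) (.e (nat_lit 57684) (nat_lit 155) (.e (nat_lit 122916) (nat_lit 14) (.e (nat_lit 352272) (nat_lit 10) (.e (nat_lit 417795) (nat_lit 0) .nil)))))) (.g (nat_lit 0) .nil .nil)))))) (.nd (nat_lit 4) (.nd (nat_lit 5) (.nd (nat_lit 6) 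
(.lf (nat_lit 110088) (.g (nat_lit 2751) (.e (nat_lit 5395) (nat_lit 301) (.e (nat_lit 57464) (nat_lit 23) (.e (nat_lit 516166) (nat_lit 12) (.e (nat_lit 450588) (nat_lit 10) (.e (nat_lit 573457) (nat_lit 9) (.e (nat_lit 365) (nat_lit 31) (.e (nat_lit 417793) (nat_lit 0) .nil))))))) (.g (nat_lit 5) .nil .nil))) 
(.lf (nat_lit 110152) (.g (nat_lit 830) (.e (nat_lit 5399) (nat_lit 302) (.e (nat_lit 65653) (nat_lit 27) (.e (nat_lit 426009) (nat_lit 0) (.e (nat_lit 7587) (nat_lit 406) (.e (nat_lit 65648) (nat_lit 26) (.e (nat_lit 417795) (nat_lit 0) .nil)))))) (.g (nat_lit 4) .nil .nil)))) (.nd (nat_lit 6) 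
(.lf (nat_lit 110120) (.g (nat_lit 2813) (.e (nat_lit 7936) (nat_lit 301) (.e (nat_lit 57464) (nat_lit 23) (.e (nat_lit 516151) (nat_lit 9) (.e (nat_lit 426275) (nat_lit 10) (.e (nat_lit 434233) (nat_lit 23) .nil))))) .nil)) 
(.lf (nat_lit 110184) (.g (nat_lit 3122) (.e (nat_lit 5400) (nat_lit 302) (.e (nat_lit 65571) (nat_lit 3) (.e (nat_lit 98389) (nat_lit 33) (.e (nat_lit 491560) (nat_lit 10) (.e (nat_lit 344115) (nat_lit 20) .nil))))) .nil)))) (.nd (nat_lit 5) (.nd (nat_lit 6) 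
(.lf (nat_lit 110104) (.g (nat_lit 2010) (.e (nat_lit 5396) (nat_lit 301) (.e (nat_lit 57464) (nat_lit 23) (.e (nat_lit 516151) (nat_lit 9) (.e (nat_lit 426286) (nat_lit 10) (.e (nat_lit 434247) (nat_lit 28) .nil))))) .nil)) 
(.lf (nat_lit 110168) (.g (nat_lit 2244) (.e (nat_lit 5399) (nat_lit 302) (.e (nat_lit 65653) (nat_lit 27) (.e (nat_lit 426012) (nat_lit 0) (.e (nat_lit 7589) (nat_lit 406) (.e (nat_lit 65647) (nat_lit 25) (.e (nat_lit 409602) (nat_lit 0) .nil)))))) (.g (nat_lit 0) .nil .nil)))) (.nd (nat_lit 6) 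
(.lf (nat_lit 110136) (.g (nat_lit 2130) (.e (nat_lit 5399) (nat_lit 302) (.e (nat_lit 65571) (nat_lit 3) (.e (nat_lit 98320) (nat_lit 17) (.e (nat_lit 7591) (nat_lit 407) (.e (nat_lit 73744) (nat_lit 2) (.e (nat_lit 507908) (nat_lit 0) .nil)))))) (.g (nat_lit 4) .nil .nil))) 
(.lf (nat_lit 110200) (.g (nat_lit 1734) (.e (nat_lit 5401) (nat_lit 302) (.e (nat_lit 65571) (nat_lit 3) (.e (nat_lit 98319) (nat_lit 17) (.e (nat_lit 7591) (nat_lit 407) (.e (nat_lit 73744) (nat_lit 2) (.e (nat_lit 507908) (nat_lit 0) .nil)))))) (.g (nat_lit 4) .nil .nil))))))) (.nd (nat_lit 3) (.nd (nat_lit 4) (.nd (nat_lit 5) (.nd (nat_lit 6) 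
(.lf (nat_lit 110084) (.g (nat_lit 3040) (.e (nat_lit 5395) (nat_lit 301) (.e (nat_lit 57464) (nat_lit 23) (.e (nat_lit 516165) (nat_lit 12) (.e (nat_lit 450579) (nat_lit 5) (.e (nat_lit 532522) (nat_lit 7) (.e (nat_lit 319500) (nat_lit 10) .nil)))))) (.g (nat_lit 0) .nil .nil))) 
(.lf (nat_lit 110148) (.g (nat_lit 3627) (.e (nat_lit 5399) (nat_lit 302) (.e (nat_lit 65571) (nat_lit 3) (.e (nat_lit 98389) (nat_lit 33) (.e (nat_lit 491560) (nat_lit 10) (.e (nat_lit 344115) (nat_lit 20) (.e (nat_lit 507906) (nat_lit 0) .nil)))))) (.g (nat_lit 5) .nil .nil)))) (.nd (nat_lit 6) 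
(.lf (nat_lit 110116) (.g (nat_lit 1948) (.e (nat_lit 7936) (nat_lit 301) (.e (nat_lit 57464) (nat_lit 23) (.e (nat_lit 516151) (nat_lit 9) (.e (nat_lit 426211) (nat_lit 9) .nil)))) .nil)) 
(.lf (nat_lit 110180) (.g (nat_lit 1484) (.e (nat_lit 5399) (nat_lit 302) (.e (nat_lit 65653) (nat_lit 27) (.e (nat_lit 426344) (nat_lit 14) (.e (nat_lit 491552) (nat_lit 9) (.e (nat_lit 336363) (nat_lit 26) (.e (nat_lit 417795) (nat_lit 0) .nil)))))) (.g (nat_lit 4) .nil .nil))))) (.nd (nat_lit 5) (.nd (nat_lit 6) 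
(.lf (nat_lit 110100) (.g (nat_lit 2312) (.e (nat_lit 5396) (nat_lit 301) (.e (nat_lit 57464) (nat_lit 23) (.e (nat_lit 516151) (nat_lit 9) (.e (nat_lit 426275) (nat_lit 10) .nil)))) .nil)) 
(.lf (nat_lit 110164) (.g (nat_lit 1692) (.e (nat_lit 5399) (nat_lit 302) (.e (nat_lit 65653) (nat_lit 27) (.e (nat_lit 426012) (nat_lit 0) (.e (nat_lit 7587) (nat_lit 406) (.e (nat_lit 65647) (nat_lit 25) .nil))))) .nil))) (.nd (nat_lit 6) 
(.lf (nat_lit 110132) (.g (nat_lit 1656) (.e (nat_lit 5399) (nat_lit 302) (.e (nat_lit 65569) (nat_lit 3) (.e (nat_lit 98389) (nat_lit 33) (.e (nat_lit 491558) (nat_lit 10) (.e (nat_lit 344115) (nat_lit 20) .nil))))) .nil)) 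
(.lf (nat_lit 110196) (.g (nat_lit 630) (.e (nat_lit 5401) (nat_lit 302) (.e (nat_lit 65568) (nat_lit 2) (.e (nat_lit 90133) (nat_lit 9) (.e (nat_lit 2400) (nat_lit 157) .nil)))) .nil))))) (.nd (nat_lit 4) (.nd (nat_lit 5) (.nd (nat_lit 6) 
(.lf (nat_lit 110092) (.g (nat_lit 1514) (.e (nat_lit 5395) (nat_lit 301) (.e (nat_lit 57464) (nat_lit 23) (.e (nat_lit 516176) (nat_lit 14) (.e (nat_lit 466975) (nat_lit 22) (.e (nat_lit 196626) (nat_lit 9) (.e (nat_lit 1400) (nat_lit 106) (.e (nat_lit 327424) (nat_lit 10) .nil))))))) (.g (nat_lit 4) .nil .nil))) 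
(.lf (nat_lit 110156) (.g (nat_lit 935) (.e (nat_lit 5399) (nat_lit 302) (.e (nat_lit 65653) (nat_lit 27) (.e (nat_lit 426010) (nat_lit 0) (.e (nat_lit 7589) (nat_lit 406) (.e (nat_lit 65647) (nat_lit 25) (.e (nat_lit 409603) (nat_lit 0) .nil)))))) (.g (nat_lit 4) .nil .nil)))) (.nd (nat_lit 6) 
(.lf (nat_lit 110124) (.g (nat_lit 1006) (.e (nat_lit 7936) (nat_lit 301) (.e (nat_lit 57465) (nat_lit 23) (.e (nat_lit 516176) (nat_lit 14) (.e (nat_lit 466967) (nat_lit 20) (.e (nat_lit 3253) (nat_lit 197) .nil))))) .nil)) 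
(.lf (nat_lit 110188) (.g (nat_lit 1219) (.e (nat_lit 5400) (nat_lit 302) (.e (nat_lit 65653) (nat_lit 27) (.e (nat_lit 426012) (nat_lit 0) (.e (nat_lit 7589) (nat_lit 406) .nil)))) .nil)))) (.nd (nat_lit 5) (.nd (nat_lit 6) 
(.lf (nat_lit 110108) (.g (nat_lit 4445) (.e (nat_lit 5396) (nat_lit 301) (.e (nat_lit 57464) (nat_lit 23) (.e (nat_lit 516163) (nat_lit 11) (.e (nat_lit 442427) (nat_lit 23) (.e (nat_lit 204846) (nat_lit 24) (.e (nat_lit 319504) (nat_lit 10) .nil)))))) (.g (nat_lit 6) .nil .nil))) 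
(.lf (nat_lit 110172) (.g (nat_lit 2132) (.e (nat_lit 5399) (nat_lit 302) (.e (nat_lit 65653) (nat_lit 27) (.e (nat_lit 426343) (nat_lit 14) (.e (nat_lit 491546) (nat_lit 9) (.e (nat_lit 336358) (nat_lit 25) (.e (nat_lit 409603) (nat_lit 0) .nil)))))) (.g (nat_lit 5) .nil .nil)))) (.nd (nat_lit 6) 
(.lf (nat_lit 110140) (.g (nat_lit 865) (.e (nat_lit 5399) (nat_lit 302) (.e (nat_lit 65571) (nat_lit 3) (.e (nat_lit 98350) (nat_lit 24) .nil))) .nil)) 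
(.lf (nat_lit 110204) (.g (nat_lit 3454) (.e (nat_lit 5401) (nat_lit 302) (.e (nat_lit 65571) (nat_lit 3) (.e (nat_lit 98388) (nat_lit 33) (.e (nat_lit 491560) (nat_lit 10) (.e (nat_lit 344115) (nat_lit 20) (.e (nat_lit 507908) (nat_lit 0) .nil)))))) (.g (nat_lit 0) .nil .nil)))))))) (.nd (nat_lit 2) (.nd (nat_lit 3) (.nd (nat_lit 4) (.nd (nat_lit 5) (.nd (nat_lit 6) 
(.lf (nat_lit 110082) (.g (nat_lit 1426) (.e (nat_lit 5395) (nat_lit 301) (.e (nat_lit 57464) (nat_lit 23) (.e (nat_lit 516165) (nat_lit 12) (.e (nat_lit 450579) (nat_lit 5) (.e (nat_lit 532488) (nat_lit 0) .nil))))) .nil)) 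
(.lf (nat_lit 110146) (.g (nat_lit 4042) (.e (nat_lit 5399) (nat_lit 302) (.e (nat_lit 65571) (nat_lit 3) (.e (nat_lit 98389) (nat_lit 33) (.e (nat_lit 491558) (nat_lit 10) (.e (nat_lit 344115) (nat_lit 20) (.e (nat_lit 507908) (nat_lit 0) .nil)))))) (.g (nat_lit 0) .nil .nil)))) (.nd (nat_lit 6) 
(.lf (nat_lit 110114) (.g (nat_lit 2501) (.e (nat_lit 7936) (nat_lit 301) (.e (nat_lit 57464) (nat_lit 23) (.e (nat_lit 516151) (nat_lit 9) (.e (nat_lit 426195) (nat_lit 9) (.e (nat_lit 426131) (nat_lit 3) .nil))))) .nil)) 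
(.lf (nat_lit 110178) (.g (nat_lit 1188) (.e (nat_lit 5399) (nat_lit 302) (.e (nat_lit 65653) (nat_lit 27) (.e (nat_lit 426344) (nat_lit 14) (.e (nat_lit 491552) (nat_lit 9) .nil)))) .nil)))) (.nd (nat_lit 5) (.nd (nat_lit 6) 
(.lf (nat_lit 110098) (.g (nat_lit 2307) (.e (nat_lit 5396) (nat_lit 301) (.e (nat_lit 57464) (nat_lit 23) (.e (nat_lit 516151) (nat_lit 9) (.e (nat_lit 426218) (nat_lit 9) .nil)))) .nil)) 
(.lf (nat_lit 110162) (.g (nat_lit 1820) (.e (nat_lit 5399) (nat_lit 302) (.e (nat_lit 65653) (nat_lit 27) (.e (nat_lit 426011) (nat_lit 0) (.e (nat_lit 7593) (nat_lit 407) (.e (nat_lit 73732) (nat_lit 0) .nil))))) .nil))) (.nd (nat_lit 6) 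
(.lf (nat_lit 110130) (.g (nat_lit 1713) (.e (nat_lit 5399) (nat_lit 302) (.e (nat_lit 65565) (nat_lit 1) (.e (nat_lit 57683) (nat_lit 155) (.e (nat_lit 122914) (nat_lit 14) (.e (nat_lit 352271) (nat_lit 9) (.e (nat_lit 409602) (nat_lit 0) .nil)))))) (.g (nat_lit 4) .nil .nil))) 
(.lf (nat_lit 110194) (.g (nat_lit 688) (.e (nat_lit 5401) (nat_lit 302) (.e (nat_lit 65568) (nat_lit 2) (.e (nat_lit 90133) (nat_lit 9) (.e (nat_lit 2397) (nat_lit 157) .nil)))) .nil))))) (.nd (nat_lit 4) (.nd (nat_lit 5) (.nd (nat_lit 6) 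
(.lf (nat_lit 110090) (.g (nat_lit 212) (.e (nat_lit 5395) (nat_lit 301) (.e (nat_lit 57464) (nat_lit 23) (.e (nat_lit 516172) (nat_lit 13) .nil))) .nil)) 
(.lf (nat_lit 110154) (.g (nat_lit 823) (.e (nat_lit 5399) (nat_lit 302) (.e (nat_lit 65653) (nat_lit 27) (.e (nat_lit 426009) (nat_lit 0) (.e (nat_lit 7589) (nat_lit 406) (.e (nat_lit 65648) (nat_lit 26) (.e (nat_lit 417795) (nat_lit 0) .nil)))))) (.g (nat_lit 5) .nil .nil)))) (.nd (nat_lit 6) 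
(.lf (nat_lit 110122) (.g (nat_lit 2120) (.e (nat_lit 7936) (nat_lit 301) (.e (nat_lit 57464) (nat_lit 23) (.e (nat_lit 516151) (nat_lit 9) (.e (nat_lit 426282) (nat_lit 10) .nil)))) .nil)) 
(.lf (nat_lit 110186) (.g (nat_lit 1327) (.e (nat_lit 5400) (nat_lit 302) (.e (nat_lit 65653) (nat_lit 27) (.e (nat_lit 426011) (nat_lit 0) (.e (nat_lit 7589) (nat_lit 406) .nil)))) .nil)))) (.nd (nat_lit 5) (.nd (nat_lit 6) 
(.lf (nat_lit 110106) (.g (nat_lit 2200) (.e (nat_lit 5396) (nat_lit 301) (.e (nat_lit 57464) (nat_lit 23) (.e (nat_lit 516163) (nat_lit 11) (.e (nat_lit 442424) (nat_lit 22) (.e (nat_lit 196626) (nat_lit 9) (.e (nat_lit 1400) (nat_lit 106) (.e (nat_lit 319504) (nat_lit 10) .nil))))))) (.g (nat_lit 4) .nil .nil))) 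
(.lf (nat_lit 110170) (.g (nat_lit 1215) (.e (nat_lit 5399) (nat_lit 302) (.e (nat_lit 65653) (nat_lit 27) (.e (nat_lit 426012) (nat_lit 0) (.e (nat_lit 7936) (nat_lit 406) .nil)))) .nil))) (.nd (nat_lit 6) 
(.lf (nat_lit 110138) (.g (nat_lit 2301) (.e (nat_lit 5399) (nat_lit 302) (.e (nat_lit 65571) (nat_lit 3) (.e (nat_lit 98320) (nat_lit 17) (.e (nat_lit 7593) (nat_lit 407) (.e (nat_lit 73744) (nat_lit 2) (.e (nat_lit 507907) (nat_lit 0) .nil)))))) (.g (nat_lit 4) .nil .nil))) 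
(.lf (nat_lit 110202) (.g (nat_lit 1974) (.e (nat_lit 5401) (nat_lit 302) (.e (nat_lit 65571) (nat_lit 3) (.e (nat_lit 98320) (nat_lit 17) (.e (nat_lit 7593) (nat_lit 407) (.e (nat_lit 73744) (nat_lit 2) (.e (nat_lit 507907) (nat_lit 0) .nil)))))) (.g (nat_lit 0) .nil .nil))))))) (.nd (nat_lit 3) (.nd (nat_lit 4) (.nd (nat_lit 5) (.nd (nat_lit 6) 
(.lf (nat_lit 110086) (.g (nat_lit 3172) (.e (nat_lit 5395) (nat_lit 301) (.e (nat_lit 57464) (nat_lit 23) (.e (nat_lit 516165) (nat_lit 12) (.e (nat_lit 450580) (nat_lit 5) (.e (nat_lit 532523) (nat_lit 7) (.e (nat_lit 319505) (nat_lit 10) .nil)))))) (.g (nat_lit 6) .nil .nil))) 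
(.lf (nat_lit 110150) (.g (nat_lit 3989) (.e (nat_lit 5399) (nat_lit 302) (.e (nat_lit 65571) (nat_lit 3) (.e (nat_lit 98389) (nat_lit 33) (.e (nat_lit 491560) (nat_lit 10) (.e (nat_lit 344115) (nat_lit 20) (.e (nat_lit 507908) (nat_lit 0) .nil)))))) (.g (nat_lit 0) .nil .nil)))) (.nd (nat_lit 6) 
(.lf (nat_lit 110118) (.g (nat_lit 2064) (.e (nat_lit 7936) (nat_lit 301) (.e (nat_lit 57464) (nat_lit 23) (.e (nat_lit 516151) (nat_lit 9) (.e (nat_lit 426216) (nat_lit 9) (.e (nat_lit 426140) (nat_lit 3) .nil))))) .nil)) 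
(.lf (nat_lit 110182) (.g (nat_lit 3030) (.e (nat_lit 5400) (nat_lit 302) (.e (nat_lit 65571) (nat_lit 3) (.e (nat_lit 98389) (nat_lit 33) (.e (nat_lit 491558) (nat_lit 10) (.e (nat_lit 344115) (nat_lit 20) .nil))))) .nil)))) (.nd (nat_lit 5) (.nd (nat_lit 6) 
(.lf (nat_lit 110102) (.g (nat_lit 2838) (.e (nat_lit 5396) (nat_lit 301) (.e (nat_lit 57464) (nat_lit 23) (.e (nat_lit 516151) (nat_lit 9) (.e (nat_lit 426286) (nat_lit 10) (.e (nat_lit 434233) (nat_lit 23) (.e (nat_lit 532523) (nat_lit 7) (.e (nat_lit 319504) (nat_lit 10) .nil))))))) (.g (nat_lit 5) .nil .nil))) 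
(.lf (nat_lit 110166) (.g (nat_lit 2096) (.e (nat_lit 5399) (nat_lit 302) (.e (nat_lit 65653) (nat_lit 27) (.e (nat_lit 426012) (nat_lit 0) (.e (nat_lit 7587) (nat_lit 406) (.e (nat_lit 65648) (nat_lit 26) (.e (nat_lit 417796) (nat_lit 0) .nil)))))) (.g (nat_lit 0) .nil .nil)))) (.nd (nat_lit 6) 
(.lf (nat_lit 110134) (.g (nat_lit 1744) (.e (nat_lit 5399) (nat_lit 302) (.e (nat_lit 65571) (nat_lit 3) (.e (nat_lit 98320) (nat_lit 17) (.e (nat_lit 7591) (nat_lit 407) .nil)))) .nil)) 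
(.lf (nat_lit 110198) (.g (nat_lit 1470) (.e (nat_lit 5401) (nat_lit 302) (.e (nat_lit 65570) (nat_lit 3) (.e (nat_lit 98389) (nat_lit 33) (.e (nat_lit 491560) (nat_lit 10) (.e (nat_lit 344115) (nat_lit 20) .nil))))) .nil))))) (.nd (nat_lit 4) (.nd (nat_lit 5) (.nd (nat_lit 6) 
(.lf (nat_lit 110094) (.g (nat_lit 2309) (.e (nat_lit 5396) (nat_lit 301) (.e (nat_lit 57464) (nat_lit 23) (.e (nat_lit 516151) (nat_lit 9) (.e (nat_lit 426208) (nat_lit 9) .nil)))) .nil)) 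
(.lf (nat_lit 110158) (.g (nat_lit 1223) (.e (nat_lit 5399) (nat_lit 302) (.e (nat_lit 65653) (nat_lit 27) (.e (nat_lit 426011) (nat_lit 0) (.e (nat_lit 7587) (nat_lit 406) .nil)))) .nil))) (.nd (nat_lit 6) 
(.lf (nat_lit 110126) (.g (nat_lit 1407) (.e (nat_lit 5398) (nat_lit 302) (.e (nat_lit 65580) (nat_lit 6) (.e (nat_lit 147467) (nat_lit 9) (.e (nat_lit 312) (nat_lit 23) (.e (nat_lit 352271) (nat_lit 9) .nil))))) .nil)) 
(.lf (nat_lit 110190) (.g (nat_lit 923) (.e (nat_lit 5401) (nat_lit 302) (.e (nat_lit 65565) (nat_lit 1) (.e (nat_lit 57654) (nat_lit 152) (.e (nat_lit 1217) (nat_lit 90) (.e (nat_lit 89856) (nat_lit 10) .nil))))) .nil)))) (.nd (nat_lit 5) (.nd (nat_lit 6) 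
(.lf (nat_lit 110110) (.g (nat_lit 3252) (.e (nat_lit 5396) (nat_lit 301) (.e (nat_lit 57464) (nat_lit 23) (.e (nat_lit 516167) (nat_lit 12) (.e (nat_lit 450580) (nat_lit 5) (.e (nat_lit 532523) (nat_lit 7) (.e (nat_lit 319504) (nat_lit 10) .nil)))))) (.g (nat_lit 6) .nil .nil))) 
(.lf (nat_lit 110174) (.g (nat_lit 2119) (.e (nat_lit 5399) (nat_lit 302) (.e (nat_lit 65653) (nat_lit 27) (.e (nat_lit 426343) (nat_lit 14) (.e (nat_lit 491552) (nat_lit 9) (.e (nat_lit 336358) (nat_lit 25) (.e (nat_lit 409602) (nat_lit 0) .nil)))))) (.g (nat_lit 6) .nil .nil)))) (.nd (nat_lit 6) 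
(.lf (nat_lit 110142) (.g (nat_lit 1096) (.e (nat_lit 5399) (nat_lit 302) (.e (nat_lit 65571) (nat_lit 3) (.e (nat_lit 98389) (nat_lit 33) .nil))) .nil)) 
(.lf (nat_lit 110206) (.g (nat_lit 3056) (.e (nat_lit 5401) (nat_lit 302) (.e (nat_lit 65571) (nat_lit 3) (.e (nat_lit 98389) (nat_lit 33) (.e (nat_lit 491558) (nat_lit 10) (.e (nat_lit 344115) (nat_lit 20) (.e (nat_lit 507908) (nat_lit 0) .nil)))))) (.g (nat_lit 0) .nil .nil))))))))) (.nd (nat_lit 1) (.nd (nat_lit 2) (.nd (nat_lit 3) (.nd (nat_lit 4) (.nd (nat_lit 5) (.nd (nat_lit 6) 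
(.lf (nat_lit 110081) (.g (nat_lit 1564) (.e (nat_lit 5395) (nat_lit 301) (.e (nat_lit 57464) (nat_lit 23) (.e (nat_lit 516165) (nat_lit 12) (.e (nat_lit 450579) (nat_lit 5) (.e (nat_lit 532484) (nat_lit 0) (.e (nat_lit 6200) (nat_lit 332) (.e (nat_lit 1011) (nat_lit 81) .nil))))))) (.g (nat_lit 4) .nil .nil))) 
(.lf (nat_lit 110145) (.g (nat_lit 4118) (.e (nat_lit 5399) (nat_lit 302) (.e (nat_lit 65571) (nat_lit 3) (.e (nat_lit 98389) (nat_lit 33) (.e (nat_lit 491558) (nat_lit 10) (.e (nat_lit 344115) (nat_lit 20) (.e (nat_lit 507907) (nat_lit 0) .nil)))))) (.g (nat_lit 0) .nil .nil)))) (.nd (nat_lit 6) 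
(.lf (nat_lit 110113) (.g (nat_lit 2305) (.e (nat_lit 5396) (nat_lit 301) (.e (nat_lit 57575) (nat_lit 55) (.e (nat_lit 778465) (nat_lit 11) (.e (nat_lit 24660) (nat_lit 13) (.e (nat_lit 393260) (nat_lit 21) (.e (nat_lit 417536) (nat_lit 10) .nil)))))) (.g (nat_lit 4) .nil .nil))) 
(.lf (nat_lit 110177) (.g (nat_lit 1917) (.e (nat_lit 5399) (nat_lit 302) (.e (nat_lit 65653) (nat_lit 27) (.e (nat_lit 426343) (nat_lit 14) (.e (nat_lit 491556) (nat_lit 9) (.e (nat_lit 343808) (nat_lit 25) .nil))))) .nil)))) (.nd (nat_lit 5) (.nd (nat_lit 6) 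
(.lf (nat_lit 110097) (.g (nat_lit 2257) (.e (nat_lit 5396) (nat_lit 301) (.e (nat_lit 57464) (nat_lit 23) (.e (nat_lit 516151) (nat_lit 9) (.e (nat_lit 426212) (nat_lit 9) .nil)))) .nil)) 
(.lf (nat_lit 110161) (.g (nat_lit 1445) (.e (nat_lit 5399) (nat_lit 302) (.e (nat_lit 65653) (nat_lit 27) (.e (nat_lit 426011) (nat_lit 0) (.e (nat_lit 7936) (nat_lit 406) .nil)))) .nil))) (.nd (nat_lit 6) 
(.lf (nat_lit 110129) (.g (nat_lit 1494) (.e (nat_lit 5399) (nat_lit 302) (.e (nat_lit 65565) (nat_lit 1) (.e (nat_lit 57683) (nat_lit 155) (.e (nat_lit 122914) (nat_lit 14) (.e (nat_lit 352271) (nat_lit 9) .nil))))) .nil)) 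
(.lf (nat_lit 110193) (.g (nat_lit 1672) (.e (nat_lit 5401) (nat_lit 302) (.e (nat_lit 65565) (nat_lit 1) (.e (nat_lit 57684) (nat_lit 155) (.e (nat_lit 122916) (nat_lit 14) (.e (nat_lit 352272) (nat_lit 10) (.e (nat_lit 417796) (nat_lit 0) .nil)))))) (.g (nat_lit 0) .nil .nil)))))) (.nd (nat_lit 4) (.nd (nat_lit 5) (.nd (nat_lit 6) 
(.lf (nat_lit 110089) (.g (nat_lit 2946) (.e (nat_lit 5395) (nat_lit 301) (.e (nat_lit 57464) (nat_lit 23) (.e (nat_lit 516167) (nat_lit 12) (.e (nat_lit 450580) (nat_lit 5) (.e (nat_lit 532523) (nat_lit 7) (.e (nat_lit 319505) (nat_lit 10) .nil)))))) (.g (nat_lit 6) .nil .nil))) 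
(.lf (nat_lit 110153) (.g (nat_lit 798) (.e (nat_lit 5399) (nat_lit 302) (.e (nat_lit 65653) (nat_lit 27) (.e (nat_lit 426009) (nat_lit 0) (.e (nat_lit 7589) (nat_lit 406) (.e (nat_lit 65647) (nat_lit 25) (.e (nat_lit 409603) (nat_lit 0) .nil)))))) (.g (nat_lit 4) .nil .nil)))) (.nd (nat_lit 6) 
(.lf (nat_lit 110121) (.g (nat_lit 2133) (.e (nat_lit 7936) (nat_lit 301) (.e (nat_lit 57464) (nat_lit 23) (.e (nat_lit 516151) (nat_lit 9) (.e (nat_lit 426281) (nat_lit 10) .nil)))) .nil)) 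
(.lf (nat_lit 110185) (.g (nat_lit 1267) (.e (nat_lit 5400) (nat_lit 302) (.e (nat_lit 65653) (nat_lit 27) (.e (nat_lit 426011) (nat_lit 0) (.e (nat_lit 7587) (nat_lit 406) .nil)))) .nil)))) (.nd (nat_lit 5) (.nd (nat_lit 6) 
(.lf (nat_lit 110105) (.g (nat_lit 2113) (.e (nat_lit 5396) (nat_lit 301) (.e (nat_lit 57464) (nat_lit 23) (.e (nat_lit 516151) (nat_lit 9) (.e (nat_lit 426286) (nat_lit 10) (.e (nat_lit 434247) (nat_lit 28) (.e (nat_lit 573456) (nat_lit 9) (.e (nat_lit 365) (nat_lit 31) (.e (nat_lit 417796) (nat_lit 0) .nil)))))))) (.g (nat_lit 4) .nil .nil))) 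
(.lf (nat_lit 110169) (.g (nat_lit 1916) (.e (nat_lit 5399) (nat_lit 302) (.e (nat_lit 65653) (nat_lit 27) (.e (nat_lit 426012) (nat_lit 0) (.e (nat_lit 7589) (nat_lit 406) (.e (nat_lit 65648) (nat_lit 26) (.e (nat_lit 417795) (nat_lit 0) .nil)))))) (.g (nat_lit 0) .nil .nil)))) (.nd (nat_lit 6) 
(.lf (nat_lit 110137) (.g (nat_lit 2180) (.e (nat_lit 5399) (nat_lit 302) (.e (nat_lit 65571) (nat_lit 3) (.e (nat_lit 98320) (nat_lit 17) (.e (nat_lit 7593) (nat_lit 407) (.e (nat_lit 73744) (nat_lit 2) .nil))))) .nil)) 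
(.lf (nat_lit 110201) (.g (nat_lit 1916) (.e (nat_lit 5401) (nat_lit 302) (.e (nat_lit 65571) (nat_lit 3) (.e (nat_lit 98320) (nat_lit 17) (.e (nat_lit 7591) (nat_lit 407) (.e (nat_lit 73744) (nat_lit 2) (.e (nat_lit 507907) (nat_lit 0) .nil)))))) (.g (nat_lit 6) .nil .nil))))))) (.nd (nat_lit 3) (.nd (nat_lit 4) (.nd (nat_lit 5) (.nd (nat_lit 6) 
(.lf (nat_lit 110085) (.g (nat_lit 3953) (.e (nat_lit 5395) (nat_lit 301) (.e (nat_lit 57464) (nat_lit 23) (.e (nat_lit 516165) (nat_lit 12) (.e (nat_lit 450579) (nat_lit 5) (.e (nat_lit 532523) (nat_lit 7) (.e (nat_lit 319504) (nat_lit 10) .nil)))))) (.g (nat_lit 0) .nil .nil))) 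
(.lf (nat_lit 110149) (.g (nat_lit 4045) (.e (nat_lit 5399) (nat_lit 302) (.e (nat_lit 65571) (nat_lit 3) (.e (nat_lit 98389) (nat_lit 33) (.e (nat_lit 491560) (nat_lit 10) (.e (nat_lit 344115) (nat_lit 20) (.e (nat_lit 507907) (nat_lit 0) .nil)))))) (.g (nat_lit 0) .nil .nil)))) (.nd (nat_lit 6) 
(.lf (nat_lit 110117) (.g (nat_lit 2010) (.e (nat_lit 7936) (nat_lit 301) (.e (nat_lit 57464) (nat_lit 23) (.e (nat_lit 516151) (nat_lit 9) (.e (nat_lit 426215) (nat_lit 9) .nil)))) .nil)) 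
(.lf (nat_lit 110181) (.g (nat_lit 1330) (.e (nat_lit 5399) (nat_lit 302) (.e (nat_lit 65653) (nat_lit 27) (.e (nat_lit 426344) (nat_lit 14) (.e (nat_lit 491563) (nat_lit 12) (.e (nat_lit 392960) (nat_lit 16) .nil))))) .nil)))) (.nd (nat_lit 5) (.nd (nat_lit 6) 
(.lf (nat_lit 110101) (.g (nat_lit 2296) (.e (nat_lit 5396) (nat_lit 301) (.e (nat_lit 57464) (nat_lit 23) (.e (nat_lit 516151) (nat_lit 9) (.e (nat_lit 426282) (nat_lit 10) .nil)))) .nil)) 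
(.lf (nat_lit 110165) (.g (nat_lit 1727) (.e (nat_lit 5399) (nat_lit 302) (.e (nat_lit 65653) (nat_lit 27) (.e (nat_lit 426012) (nat_lit 0) (.e (nat_lit 7587) (nat_lit 406) (.e (nat_lit 65648) (nat_lit 26) (.e (nat_lit 417795) (nat_lit 0) .nil)))))) (.g (nat_lit 0) .nil .nil)))) (.nd (nat_lit 6) 
(.lf (nat_lit 110133) (.g (nat_lit 1655) (.e (nat_lit 5399) (nat_lit 302) (.e (nat_lit 65569) (nat_lit 3) (.e (nat_lit 98389) (nat_lit 33) (.e (nat_lit 491560) (nat_lit 10) (.e (nat_lit 344115) (nat_lit 20) .nil))))) .nil)) 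
(.lf (nat_lit 110197) (.g (nat_lit 2260) (.e (nat_lit 5401) (nat_lit 302) (.e (nat_lit 65570) (nat_lit 3) (.e (nat_lit 98388) (nat_lit 33) (.e (nat_lit 491560) (nat_lit 10) (.e (nat_lit 344115) (nat_lit 20) .nil))))) .nil))))) (.nd (nat_lit 4) (.nd (nat_lit 5) (.nd (nat_lit 6) 
(.lf (nat_lit 110093) (.g (nat_lit 4288) (.e (nat_lit 5396) (nat_lit 301) (.e (nat_lit 57464) (nat_lit 23) (.e (nat_lit 516151) (nat_lit 9) (.e (nat_lit 426185) (nat_lit 9) (.e (nat_lit 426140) (nat_lit 3) (.e (nat_lit 204846) (nat_lit 24) (.e (nat_lit 319504) (nat_lit 10) .nil))))))) (.g (nat_lit 6) .nil .nil))) 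
(.lf (nat_lit 110157) (.g (nat_lit 951) (.e (nat_lit 5399) (nat_lit 302) (.e (nat_lit 65653) (nat_lit 27) (.e (nat_lit 426010) (nat_lit 0) (.e (nat_lit 7589) (nat_lit 406) (.e (nat_lit 65648) (nat_lit 26) (.e (nat_lit 417795) (nat_lit 0) .nil)))))) (.g (nat_lit 4) .nil .nil)))) (.nd (nat_lit 6) 
(.lf (nat_lit 110125) (.g (nat_lit 2016) (.e (nat_lit 7936) (nat_lit 301) (.e (nat_lit 57476) (nat_lit 28) (.e (nat_lit 557087) (nat_lit 11) (.e (nat_lit 24631) (nat_lit 9) .nil)))) .nil)) 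
(.lf (nat_lit 110189) (.g (nat_lit 1216) (.e (nat_lit 5400) (nat_lit 302) (.e (nat_lit 65653) (nat_lit 27) (.e (nat_lit 426344) (nat_lit 14) (.e (nat_lit 491552) (nat_lit 9) .nil)))) .nil)))) (.nd (nat_lit 5) (.nd (nat_lit 6) 
(.lf (nat_lit 110109) (.g (nat_lit 2837) (.e (nat_lit 5396) (nat_lit 301) (.e (nat_lit 57464) (nat_lit 23) (.e (nat_lit 516165) (nat_lit 12) (.e (nat_lit 450579) (nat_lit 5) (.e (nat_lit 532526) (nat_lit 8) (.e (nat_lit 327703) (nat_lit 10) .nil)))))) (.g (nat_lit 6) .nil .nil))) 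
(.lf (nat_lit 110173) (.g (nat_lit 1187) (.e (nat_lit 5399) (nat_lit 302) (.e (nat_lit 65653) (nat_lit 27) (.e (nat_lit 426343) (nat_lit 14) (.e (nat_lit 491552) (nat_lit 9) .nil)))) .nil))) (.nd (nat_lit 6) 
(.lf (nat_lit 110141) (.g (nat_lit 2674) (.e (nat_lit 5399) (nat_lit 302) (.e (nat_lit 65571) (nat_lit 3) (.e (nat_lit 98388) (nat_lit 33) (.e (nat_lit 491560) (nat_lit 10) (.e (nat_lit 344115) (nat_lit 20) .nil))))) .nil)) 
(.lf (nat_lit 110205) (.g (nat_lit 3054) (.e (nat_lit 5401) (nat_lit 302) (.e (nat_lit 65571) (nat_lit 3) (.e (nat_lit 98389) (nat_lit 33) (.e (nat_lit 491558) (nat_lit 10) (.e (nat_lit 344115) (nat_lit 20) (.e (nat_lit 507907) (nat_lit 0) .nil)))))) (.g (nat_lit 0) .nil .nil)))))))) (.nd (nat_lit 2) (.nd (nat_lit 3) (.nd (nat_lit 4) (.nd (nat_lit 5) (.nd (nat_lit 6) 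
(.lf (nat_lit 110083) (.g (nat_lit 2004) (.e (nat_lit 5395) (nat_lit 301) (.e (nat_lit 57464) (nat_lit 23) (.e (nat_lit 516165) (nat_lit 12) (.e (nat_lit 450579) (nat_lit 5) (.e (nat_lit 532489) (nat_lit 0) (.e (nat_lit 6157) (nat_lit 332) (.e (nat_lit 1009) (nat_lit 81) .nil))))))) (.g (nat_lit 6) .nil .nil))) 
(.lf (nat_lit 110147) (.g (nat_lit 3094) (.e (nat_lit 5399) (nat_lit 302) (.e (nat_lit 65571) (nat_lit 3) (.e (nat_lit 98389) (nat_lit 33) (.e (nat_lit 491560) (nat_lit 10) (.e (nat_lit 344114) (nat_lit 20) .nil))))) .nil))) (.nd (nat_lit 6) 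
(.lf (nat_lit 110115) (.g (nat_lit 2133) (.e (nat_lit 7936) (nat_lit 301) (.e (nat_lit 57464) (nat_lit 23) (.e (nat_lit 516151) (nat_lit 9) (.e (nat_lit 426208) (nat_lit 9) .nil)))) .nil)) 
(.lf (nat_lit 110179) (.g (nat_lit 2214) (.e (nat_lit 5399) (nat_lit 302) (.e (nat_lit 65653) (nat_lit 27) (.e (nat_lit 426344) (nat_lit 14) (.e (nat_lit 491552) (nat_lit 9) (.e (nat_lit 336358) (nat_lit 25) (.e (nat_lit 409602) (nat_lit 0) .nil)))))) (.g (nat_lit 0) .nil .nil))))) (.nd (nat_lit 5) (.nd (nat_lit 6) 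
(.lf (nat_lit 110099) (.g (nat_lit 2309) (.e (nat_lit 5396) (nat_lit 301) (.e (nat_lit 57464) (nat_lit 23) (.e (nat_lit 516151) (nat_lit 9) (.e (nat_lit 426219) (nat_lit 9) .nil)))) .nil)) 
(.lf (nat_lit 110163) (.g (nat_lit 980) (.e (nat_lit 5399) (nat_lit 302) (.e (nat_lit 65653) (nat_lit 27) (.e (nat_lit 426012) (nat_lit 0) (.e (nat_lit 7587) (nat_lit 406) .nil)))) .nil))) (.nd (nat_lit 6) 
(.lf (nat_lit 110131) (.g (nat_lit 1371) (.e (nat_lit 5399) (nat_lit 302) (.e (nat_lit 65565) (nat_lit 1) (.e (nat_lit 57684) (nat_lit 155) (.e (nat_lit 122914) (nat_lit 14) (.e (nat_lit 352271) (nat_lit 9) (.e (nat_lit 409603) (nat_lit 0) .nil)))))) (.g (nat_lit 6) .nil .nil))) 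
(.lf (nat_lit 110195) (.g (nat_lit 1055) (.e (nat_lit 5401) (nat_lit 302) (.e (nat_lit 65568) (nat_lit 2) (.e (nat_lit 90133) (nat_lit 9) (.e (nat_lit 2397) (nat_lit 157) (.e (nat_lit 7592) (nat_lit 407) .nil))))) .nil))))) (.nd (nat_lit 4) (.nd (nat_lit 5) (.nd (nat_lit 6) 
(.lf (nat_lit 110091) (.g (nat_lit 821) (.e (nat_lit 5395) (nat_lit 301) (.e (nat_lit 57464) (nat_lit 23) (.e (nat_lit 516175) (nat_lit 14) (.e (nat_lit 466981) (nat_lit 23) (.e (nat_lit 204845) (nat_lit 24) .nil))))) .nil)) 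
(.lf (nat_lit 110155) (.g (nat_lit 915) (.e (nat_lit 5399) (nat_lit 302) (.e (nat_lit 65653) (nat_lit 27) (.e (nat_lit 426010) (nat_lit 0) (.e (nat_lit 7587) (nat_lit 406) (.e (nat_lit 65648) (nat_lit 26) (.e (nat_lit 417795) (nat_lit 0) .nil)))))) (.g (nat_lit 4) .nil .nil)))) (.nd (nat_lit 6) 
(.lf (nat_lit 110123) (.g (nat_lit 918) (.e (nat_lit 7936) (nat_lit 301) (.e (nat_lit 57464) (nat_lit 23) (.e (nat_lit 516163) (nat_lit 11) (.e (nat_lit 442392) (nat_lit 20) .nil)))) .nil)) 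
(.lf (nat_lit 110187) (.g (nat_lit 1091) (.e (nat_lit 5400) (nat_lit 302) (.e (nat_lit 65653) (nat_lit 27) (.e (nat_lit 426012) (nat_lit 0) (.e (nat_lit 7587) (nat_lit 406) .nil)))) .nil)))) (.nd (nat_lit 5) (.nd (nat_lit 6) 
(.lf (nat_lit 110107) (.g (nat_lit 1701) (.e (nat_lit 5396) (nat_lit 301) (.e (nat_lit 57464) (nat_lit 23) (.e (nat_lit 516163) (nat_lit 11) (.e (nat_lit 442427) (nat_lit 23) (.e (nat_lit 204821) (nat_lit 17) .nil))))) .nil)) 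
(.lf (nat_lit 110171) (.g (nat_lit 1143) (.e (nat_lit 5399) (nat_lit 302) (.e (nat_lit 65653) (nat_lit 27) (.e (nat_lit 426343) (nat_lit 14) (.e (nat_lit 491546) (nat_lit 9) .nil)))) .nil))) (.nd (nat_lit 6) 
(.lf (nat_lit 110139) (.g (nat_lit 2256) (.e (nat_lit 5399) (nat_lit 302) (.e (nat_lit 65571) (nat_lit 3) (.e (nat_lit 98320) (nat_lit 17) (.e (nat_lit 7593) (nat_lit 407) (.e (nat_lit 73744) (nat_lit 2) (.e (nat_lit 507908) (nat_lit 0) .nil)))))) (.g (nat_lit 4) .nil .nil))) 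
(.lf (nat_lit 110203) (.g (nat_lit 3434) (.e (nat_lit 5401) (nat_lit 302) (.e (nat_lit 65571) (nat_lit 3) (.e (nat_lit 98388) (nat_lit 33) (.e (nat_lit 491560) (nat_lit 10) (.e (nat_lit 344115) (nat_lit 20) (.e (nat_lit 507907) (nat_lit 0) .nil)))))) (.g (nat_lit 0) .nil .nil))))))) (.nd (nat_lit 3) (.nd (nat_lit 4) (.nd (nat_lit 5) (.nd (nat_lit 6) 
(.lf (nat_lit 110087) (.g (nat_lit 1931) (.e (nat_lit 5395) (nat_lit 301) (.e (nat_lit 57464) (nat_lit 23) (.e (nat_lit 516166) (nat_lit 12) (.e (nat_lit 450576) (nat_lit 2) (.e (nat_lit 507942) (nat_lit 15) (.e (nat_lit 278550) (nat_lit 10) .nil)))))) (.g (nat_lit 0) .nil .nil))) 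
(.lf (nat_lit 110151) (.g (nat_lit 1745) (.e (nat_lit 5399) (nat_lit 302) (.e (nat_lit 65637) (nat_lit 15) (.e (nat_lit 3632) (nat_lit 227) (.e (nat_lit 778321) (nat_lit 4) .nil)))) .nil))) (.nd (nat_lit 6) 
(.lf (nat_lit 110119) (.g (nat_lit 2131) (.e (nat_lit 7936) (nat_lit 301) (.e (nat_lit 57464) (nat_lit 23) (.e (nat_lit 516151) (nat_lit 9) (.e (nat_lit 426218) (nat_lit 9) .nil)))) .nil)) 
(.lf (nat_lit 110183) (.g (nat_lit 2339) (.e (nat_lit 5400) (nat_lit 302) (.e (nat_lit 65571) (nat_lit 3) (.e (nat_lit 98389) (nat_lit 33) (.e (nat_lit 491560) (nat_lit 10) .nil)))) .nil)))) (.nd (nat_lit 5) (.nd (nat_lit 6) 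
(.lf (nat_lit 110103) (.g (nat_lit 2534) (.e (nat_lit 5396) (nat_lit 301) (.e (nat_lit 57464) (nat_lit 23) (.e (nat_lit 516151) (nat_lit 9) (.e (nat_lit 426286) (nat_lit 10) (.e (nat_lit 434234) (nat_lit 23) (.e (nat_lit 532523) (nat_lit 7) (.e (nat_lit 319504) (nat_lit 10) .nil))))))) (.g (nat_lit 4) .nil .nil))) 
(.lf (nat_lit 110167) (.g (nat_lit 1152) (.e (nat_lit 5399) (nat_lit 302) (.e (nat_lit 65653) (nat_lit 27) (.e (nat_lit 426012) (nat_lit 0) (.e (nat_lit 7589) (nat_lit 406) .nil)))) .nil))) (.nd (nat_lit 6) 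
(.lf (nat_lit 110135) (.g (nat_lit 2169) (.e (nat_lit 5399) (nat_lit 302) (.e (nat_lit 65571) (nat_lit 3) (.e (nat_lit 98320) (nat_lit 17) (.e (nat_lit 7591) (nat_lit 407) (.e (nat_lit 73744) (nat_lit 2) (.e (nat_lit 507907) (nat_lit 0) .nil)))))) (.g (nat_lit 4) .nil .nil))) 
(.lf (nat_lit 110199) (.g (nat_lit 1631) (.e (nat_lit 5401) (nat_lit 302) (.e (nat_lit 65571) (nat_lit 3) (.e (nat_lit 98319) (nat_lit 17) (.e (nat_lit 7591) (nat_lit 407) (.e (nat_lit 73744) (nat_lit 2) (.e (nat_lit 507907) (nat_lit 0) .nil)))))) (.g (nat_lit 4) .nil .nil)))))) (.nd (nat_lit 4) (.nd (nat_lit 5) (.nd (nat_lit 6) 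
(.lf (nat_lit 110095) (.g (nat_lit 2148) (.e (nat_lit 5396) (nat_lit 301) (.e (nat_lit 57464) (nat_lit 23) (.e (nat_lit 516151) (nat_lit 9) (.e (nat_lit 426211) (nat_lit 9) .nil)))) .nil)) 
(.lf (nat_lit 110159) (.g (nat_lit 1156) (.e (nat_lit 5399) (nat_lit 302) (.e (nat_lit 65653) (nat_lit 27) (.e (nat_lit 426011) (nat_lit 0) (.e (nat_lit 7589) (nat_lit 406) .nil)))) .nil))) (.nd (nat_lit 6) 
(.lf (nat_lit 110127) (.g (nat_lit 239) (.e (nat_lit 5399) (nat_lit 302) (.e (nat_lit 65565) (nat_lit 1) (.e (nat_lit 57655) (nat_lit 152) .nil))) .nil)) 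
(.lf (nat_lit 110191) (.g (nat_lit 1598) (.e (nat_lit 5401) (nat_lit 302) (.e (nat_lit 65565) (nat_lit 1) (.e (nat_lit 57683) (nat_lit 155) (.e (nat_lit 122914) (nat_lit 14) (.e (nat_lit 352272) (nat_lit 10) .nil))))) .nil)))) (.nd (nat_lit 5) (.nd (nat_lit 6) 
(.lf (nat_lit 110111) (.g (nat_lit 855) (.e (nat_lit 5396) (nat_lit 301) (.e (nat_lit 65280) (nat_lit 23) (.e (nat_lit 516151) (nat_lit 9) (.e (nat_lit 426211) (nat_lit 9) (.e (nat_lit 426125) (nat_lit 2) (.e (nat_lit 204544) (nat_lit 18) (.e (nat_lit 2769) (nat_lit 177) (.e (nat_lit 278552) (nat_lit 10) .nil)))))))) (.g (nat_lit 5) .nil .nil))) 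
(.lf (nat_lit 110175) (.g (nat_lit 1654) (.e (nat_lit 5399) (nat_lit 302) (.e (nat_lit 65653) (nat_lit 27) (.e (nat_lit 426343) (nat_lit 14) (.e (nat_lit 491552) (nat_lit 9) (.e (nat_lit 336358) (nat_lit 25) (.e (nat_lit 409603) (nat_lit 0) .nil)))))) (.g (nat_lit 5) .nil .nil)))) (.nd (nat_lit 6) 
(.lf (nat_lit 110143) (.g (nat_lit 2261) (.e (nat_lit 5399) (nat_lit 302) (.e (nat_lit 65571) (nat_lit 3) (.e (nat_lit 98389) (nat_lit 33) (.e (nat_lit 491546) (nat_lit 9) .nil)))) .nil)) 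
(.lf (nat_lit 110207) (.g (nat_lit 2041) (.e (nat_lit 5401) (nat_lit 302) (.e (nat_lit 65571) (nat_lit 3) (.e (nat_lit 98389) (nat_lit 33) (.e (nat_lit 491560) (nat_lit 10) (.e (nat_lit 344114) (nat_lit 20) .nil))))) .nil)))))))))

noncomputable def tv1485 : DT := (.nd (nat_lit 0) (.nd (nat_lit 1) (.nd (nat_lit 2) (.nd (nat_lit 3) (.nd (nat_lit 4) (.nd (nat_lit 5) 
(.lf (nat_lit 110208) (.g (nat_lit 2209) (.e (nat_lit 5401) (nat_lit 302) (.e (nat_lit 65571) (nat_lit 3) (.e (nat_lit 98389) (nat_lit 33) (.e (nat_lit 491560) (nat_lit 10) (.e (nat_lit 344114) (nat_lit 20) (.e (nat_lit 507907) (nat_lit 0) .nil)))))) (.g (nat_lit 4) .nil .nil))) 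
(.lf (nat_lit 110240) (.g (nat_lit 1382) (.e (nat_lit 5403) (nat_lit 302) (.e (nat_lit 65580) (nat_lit 6) (.e (nat_lit 147467) (nat_lit 9) (.e (nat_lit 312) (nat_lit 23) (.e (nat_lit 352272) (nat_lit 10) (.e (nat_lit 417795) (nat_lit 0) .nil)))))) (.g (nat_lit 4) .nil .nil)))) (.nd (nat_lit 5) 
(.lf (nat_lit 110224) (.g (nat_lit 514) (.e (nat_lit 5403) (nat_lit 302) (.e (nat_lit 65568) (nat_lit 2) (.e (nat_lit 90165) (nat_lit 12) .nil))) .nil)) 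
(.lf (nat_lit 110256) (.g (nat_lit 945) (.e (nat_lit 5404) (nat_lit 302) (.e (nat_lit 65536) (nat_lit 0) (.e (nat_lit 2270) (nat_lit 149) (.e (nat_lit 761868) (nat_lit 5) (.e (nat_lit 1574) (nat_lit 110) (.e (nat_lit 352271) (nat_lit 9) (.e (nat_lit 409605) (nat_lit 0) .nil))))))) (.g (nat_lit 4) .nil .nil))))) (.nd (nat_lit 4) (.nd (nat_lit 5) 
(.lf (nat_lit 110216) (.g (nat_lit 2042) (.e (nat_lit 5401) (nat_lit 302) (.e (nat_lit 65653) (nat_lit 27) (.e (nat_lit 426011) (nat_lit 0) (.e (nat_lit 7587) (nat_lit 406) (.e (nat_lit 65648) (nat_lit 26) (.e (nat_lit 417795) (nat_lit 0) .nil)))))) (.g (nat_lit 4) .nil .nil))) 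
(.lf (nat_lit 110248) (.g (nat_lit 1952) (.e (nat_lit 5403) (nat_lit 302) (.e (nat_lit 65653) (nat_lit 27) (.e (nat_lit 426011) (nat_lit 0) (.e (nat_lit 7587) (nat_lit 406) (.e (nat_lit 65648) (nat_lit 26) .nil))))) .nil))) (.nd (nat_lit 5) 
(.lf (nat_lit 110232) (.g (nat_lit 3009) (.e (nat_lit 5403) (nat_lit 302) (.e (nat_lit 65571) (nat_lit 3) (.e (nat_lit 98388) (nat_lit 33) (.e (nat_lit 491560) (nat_lit 10) (.e (nat_lit 344115) (nat_lit 20) (.e (nat_lit 507907) (nat_lit 0) .nil)))))) (.g (nat_lit 5) .nil .nil))) 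
(.lf (nat_lit 110264) (.g (nat_lit 1774) (.e (nat_lit 5404) (nat_lit 302) (.e (nat_lit 65637) (nat_lit 15) (.e (nat_lit 3632) (nat_lit 227) (.e (nat_lit 778321) (nat_lit 4) .nil)))) .nil))))) (.nd (nat_lit 3) (.nd (nat_lit 4) (.nd (nat_lit 5) 
(.lf (nat_lit 110212) (.g (nat_lit 739) (.e (nat_lit 5401) (nat_lit 302) (.e (nat_lit 65653) (nat_lit 27) (.e (nat_lit 426009) (nat_lit 0) (.e (nat_lit 7587) (nat_lit 406) (.e (nat_lit 65648) (nat_lit 26) .nil))))) .nil)) 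
(.lf (nat_lit 110244) (.g (nat_lit 1434) (.e (nat_lit 5403) (nat_lit 302) (.e (nat_lit 65580) (nat_lit 6) (.e (nat_lit 147496) (nat_lit 11) (.e (nat_lit 24631) (nat_lit 9) .nil)))) .nil))) (.nd (nat_lit 5) 
(.lf (nat_lit 110228) (.g (nat_lit 1823) (.e (nat_lit 5403) (nat_lit 302) (.e (nat_lit 65571) (nat_lit 3) (.e (nat_lit 98319) (nat_lit 17) (.e (nat_lit 7593) (nat_lit 407) (.e (nat_lit 73744) (nat_lit 2) (.e (nat_lit 507908) (nat_lit 0) .nil)))))) (.g (nat_lit 4) .nil .nil))) 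
(.lf (nat_lit 110260) (.g (nat_lit 1281) (.e (nat_lit 5404) (nat_lit 302) (.e (nat_lit 65578) (nat_lit 6) (.e (nat_lit 147467) (nat_lit 9) (.e (nat_lit 312) (nat_lit 23) (.e (nat_lit 352271) (nat_lit 9) .nil))))) .nil)))) (.nd (nat_lit 4) (.nd (nat_lit 5) 
(.lf (nat_lit 110220) (.g (nat_lit 1490) (.e (nat_lit 5402) (nat_lit 302) (.e (nat_lit 65571) (nat_lit 3) (.e (nat_lit 98320) (nat_lit 17) (.e (nat_lit 7591) (nat_lit 407) .nil)))) .nil)) 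
(.lf (nat_lit 110252) (.g (nat_lit 1193) (.e (nat_lit 5403) (nat_lit 302) (.e (nat_lit 65653) (nat_lit 27) (.e (nat_lit 426343) (nat_lit 14) (.e (nat_lit 491552) (nat_lit 9) .nil)))) .nil))) (.nd (nat_lit 5) 
(.lf (nat_lit 110236) (.g (nat_lit 2086) (.e (nat_lit 5403) (nat_lit 302) (.e (nat_lit 65571) (nat_lit 3) (.e (nat_lit 98389) (nat_lit 33) (.e (nat_lit 491560) (nat_lit 10) (.e (nat_lit 344114) (nat_lit 20) .nil))))) .nil)) 
(.lf (nat_lit 110268) (.g (nat_lit 619) (.e (nat_lit 5404) (nat_lit 302) (.e (nat_lit 65648) (nat_lit 26) (.e (nat_lit 417795) (nat_lit 0) (.e (nat_lit 5405) (nat_lit 302) (.e (nat_lit 65647) (nat_lit 25) (.e (nat_lit 409605) (nat_lit 0) .nil)))))) (.g (nat_lit 0) .nil .nil))))))) (.nd (nat_lit 2) (.nd (nat_lit 3) (.nd (nat_lit 4) (.nd (nat_lit 5) 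
(.lf (nat_lit 110210) (.g (nat_lit 1298) (.e (nat_lit 5401) (nat_lit 302) (.e (nat_lit 65580) (nat_lit 6) (.e (nat_lit 147467) (nat_lit 9) (.e (nat_lit 312) (nat_lit 23) (.e (nat_lit 352272) (nat_lit 10) .nil))))) .nil)) 
(.lf (nat_lit 110242) (.g (nat_lit 309) (.e (nat_lit 5403) (nat_lit 302) (.e (nat_lit 65580) (nat_lit 6) (.e (nat_lit 147496) (nat_lit 11) .nil))) .nil))) (.nd (nat_lit 5) 
(.lf (nat_lit 110226) (.g (nat_lit 479) (.e (nat_lit 5403) (nat_lit 302) (.e (nat_lit 65569) (nat_lit 3) (.e (nat_lit 98320) (nat_lit 17) .nil))) .nil)) 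
(.lf (nat_lit 110258) (.g (nat_lit 1502) (.e (nat_lit 5404) (nat_lit 302) (.e (nat_lit 65563) (nat_lit 1) (.e (nat_lit 57683) (nat_lit 155) (.e (nat_lit 122914) (nat_lit 14) (.e (nat_lit 352271) (nat_lit 9) .nil))))) .nil)))) (.nd (nat_lit 4) (.nd (nat_lit 5) 
(.lf (nat_lit 110218) (.g (nat_lit 1593) (.e (nat_lit 5401) (nat_lit 302) (.e (nat_lit 65653) (nat_lit 27) (.e (nat_lit 426343) (nat_lit 14) (.e (nat_lit 491552) (nat_lit 9) (.e (nat_lit 336363) (nat_lit 26) (.e (nat_lit 417796) (nat_lit 0) .nil)))))) (.g (nat_lit 4) .nil .nil))) 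
(.lf (nat_lit 110250) (.g (nat_lit 1375) (.e (nat_lit 5403) (nat_lit 302) (.e (nat_lit 65653) (nat_lit 27) (.e (nat_lit 426012) (nat_lit 0) (.e (nat_lit 7587) (nat_lit 406) (.e (nat_lit 65648) (nat_lit 26) .nil))))) .nil))) (.nd (nat_lit 5) 
(.lf (nat_lit 110234) (.g (nat_lit 3054) (.e (nat_lit 5403) (nat_lit 302) (.e (nat_lit 65571) (nat_lit 3) (.e (nat_lit 98389) (nat_lit 33) (.e (nat_lit 491558) (nat_lit 10) (.e (nat_lit 344115) (nat_lit 20) (.e (nat_lit 507907) (nat_lit 0) .nil)))))) (.g (nat_lit 0) .nil .nil))) 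
(.lf (nat_lit 110266) (.g (nat_lit 464) (.e (nat_lit 5404) (nat_lit 302) (.e (nat_lit 65648) (nat_lit 26) (.e (nat_lit 417793) (nat_lit 0) (.e (nat_lit 5405) (nat_lit 302) (.e (nat_lit 65647) (nat_lit 25) (.e (nat_lit 409605) (nat_lit 0) .nil)))))) (.g (nat_lit 0) .nil .nil)))))) (.nd (nat_lit 3) (.nd (nat_lit 4) (.nd (nat_lit 5) 
(.lf (nat_lit 110214) (.g (nat_lit 827) (.e (nat_lit 5401) (nat_lit 302) (.e (nat_lit 65653) (nat_lit 27) (.e (nat_lit 426010) (nat_lit 0) (.e (nat_lit 7587) (nat_lit 406) (.e (nat_lit 65648) (nat_lit 26) .nil))))) .nil)) 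
(.lf (nat_lit 110246) (.g (nat_lit 234) (.e (nat_lit 5403) (nat_lit 302) (.e (nat_lit 65653) (nat_lit 27) (.e (nat_lit 426010) (nat_lit 0) .nil))) .nil))) (.nd (nat_lit 5) 
(.lf (nat_lit 110230) (.g (nat_lit 1961) (.e (nat_lit 5403) (nat_lit 302) (.e (nat_lit 65571) (nat_lit 3) (.e (nat_lit 98320) (nat_lit 17) (.e (nat_lit 7591) (nat_lit 407) (.e (nat_lit 73744) (nat_lit 2) (.e (nat_lit 507908) (nat_lit 0) .nil)))))) (.g (nat_lit 6) .nil .nil))) 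
(.lf (nat_lit 110262) (.g (nat_lit 835) (.e (nat_lit 5404) (nat_lit 302) (.e (nat_lit 65633) (nat_lit 15) (.e (nat_lit 7088) (nat_lit 379) (.e (nat_lit 123213) (nat_lit 274) (.e (nat_lit 65647) (nat_lit 25) (.e (nat_lit 409605) (nat_lit 0) .nil)))))) (.g (nat_lit 0) .nil .nil))))) (.nd (nat_lit 4) (.nd (nat_lit 5) 
(.lf (nat_lit 110222) (.g (nat_lit 3221) (.e (nat_lit 5402) (nat_lit 302) (.e (nat_lit 65571) (nat_lit 3) (.e (nat_lit 98389) (nat_lit 33) (.e (nat_lit 491558) (nat_lit 10) (.e (nat_lit 344115) (nat_lit 20) (.e (nat_lit 507908) (nat_lit 0) .nil)))))) (.g (nat_lit 0) .nil .nil))) 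
(.lf (nat_lit 110254) (.g (nat_lit 1015) (.e (nat_lit 5404) (nat_lit 302) (.e (nat_lit 65536) (nat_lit 0) (.e (nat_lit 2270) (nat_lit 149) (.e (nat_lit 761868) (nat_lit 5) (.e (nat_lit 1574) (nat_lit 110) (.e (nat_lit 352271) (nat_lit 9) (.e (nat_lit 409603) (nat_lit 0) .nil))))))) (.g (nat_lit 4) .nil .nil)))) (.nd (nat_lit 5) 
(.lf (nat_lit 110238) (.g (nat_lit 3103) (.e (nat_lit 5403) (nat_lit 302) (.e (nat_lit 65571) (nat_lit 3) (.e (nat_lit 98389) (nat_lit 33) (.e (nat_lit 491560) (nat_lit 10) (.e (nat_lit 344115) (nat_lit 20) (.e (nat_lit 507908) (nat_lit 0) .nil)))))) (.g (nat_lit 0) .nil .nil))) 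
(.lf (nat_lit 110270) (.g (nat_lit 1247) (.e (nat_lit 5404) (nat_lit 302) (.e (nat_lit 65648) (nat_lit 26) (.e (nat_lit 417811) (nat_lit 6) (.e (nat_lit 286749) (nat_lit 9) (.e (nat_lit 336358) (nat_lit 25) .nil))))) .nil))))))) (.nd (nat_lit 1) (.nd (nat_lit 2) (.nd (nat_lit 3) (.nd (nat_lit 4) (.nd (nat_lit 5) 
(.lf (nat_lit 110209) (.g (nat_lit 3069) (.e (nat_lit 5401) (nat_lit 302) (.e (nat_lit 65571) (nat_lit 3) (.e (nat_lit 98389) (nat_lit 33) (.e (nat_lit 491560) (nat_lit 10) (.e (nat_lit 344115) (nat_lit 20) (.e (nat_lit 507907) (nat_lit 0) .nil)))))) (.g (nat_lit 0) .nil .nil))) 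
(.lf (nat_lit 110241) (.g (nat_lit 1611) (.e (nat_lit 5403) (nat_lit 302) (.e (nat_lit 65580) (nat_lit 6) (.e (nat_lit 147467) (nat_lit 9) (.e (nat_lit 314) (nat_lit 23) (.e (nat_lit 360192) (nat_lit 10) .nil))))) .nil))) (.nd (nat_lit 5) 
(.lf (nat_lit 110225) (.g (nat_lit 529) (.e (nat_lit 5403) (nat_lit 302) (.e (nat_lit 65568) (nat_lit 2) (.e (nat_lit 98048) (nat_lit 18) .nil))) .nil)) 
(.lf (nat_lit 110257) (.g (nat_lit 784) (.e (nat_lit 5404) (nat_lit 302) (.e (nat_lit 65563) (nat_lit 1) (.e (nat_lit 57655) (nat_lit 152) (.e (nat_lit 1216) (nat_lit 90) (.e (nat_lit 89856) (nat_lit 9) .nil))))) .nil)))) (.nd (nat_lit 4) (.nd (nat_lit 5) 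
(.lf (nat_lit 110217) (.g (nat_lit 1524) (.e (nat_lit 5401) (nat_lit 302) (.e (nat_lit 65653) (nat_lit 27) (.e (nat_lit 426343) (nat_lit 14) (.e (nat_lit 491552) (nat_lit 9) (.e (nat_lit 336363) (nat_lit 26) .nil))))) .nil)) 
(.lf (nat_lit 110249) (.g (nat_lit 1755) (.e (nat_lit 5403) (nat_lit 302) (.e (nat_lit 65653) (nat_lit 27) (.e (nat_lit 426011) (nat_lit 0) (.e (nat_lit 7589) (nat_lit 406) (.e (nat_lit 65648) (nat_lit 26) .nil))))) .nil))) (.nd (nat_lit 5) 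
(.lf (nat_lit 110233) (.g (nat_lit 3097) (.e (nat_lit 5403) (nat_lit 302) (.e (nat_lit 65571) (nat_lit 3) (.e (nat_lit 98388) (nat_lit 33) (.e (nat_lit 491560) (nat_lit 10) (.e (nat_lit 344115) (nat_lit 20) (.e (nat_lit 507908) (nat_lit 0) .nil)))))) (.g (nat_lit 5) .nil .nil))) 
(.lf (nat_lit 110265) (.g (nat_lit 421) (.e (nat_lit 5404) (nat_lit 302) (.e (nat_lit 65637) (nat_lit 15) (.e (nat_lit 3748) (nat_lit 228) .nil))) .nil))))) (.nd (nat_lit 3) (.nd (nat_lit 4) (.nd (nat_lit 5) 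
(.lf (nat_lit 110213) (.g (nat_lit 706) (.e (nat_lit 5401) (nat_lit 302) (.e (nat_lit 65653) (nat_lit 27) (.e (nat_lit 426009) (nat_lit 0) (.e (nat_lit 7589) (nat_lit 406) (.e (nat_lit 65648) (nat_lit 26) (.e (nat_lit 417795) (nat_lit 0) .nil)))))) (.g (nat_lit 4) .nil .nil))) 
(.lf (nat_lit 110245) (.g (nat_lit 237) (.e (nat_lit 5403) (nat_lit 302) (.e (nat_lit 65653) (nat_lit 27) (.e (nat_lit 426009) (nat_lit 0) .nil))) .nil))) (.nd (nat_lit 5) 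
(.lf (nat_lit 110229) (.g (nat_lit 1703) (.e (nat_lit 5403) (nat_lit 302) (.e (nat_lit 65571) (nat_lit 3) (.e (nat_lit 98320) (nat_lit 17) (.e (nat_lit 7591) (nat_lit 407) (.e (nat_lit 73744) (nat_lit 2) (.e (nat_lit 507907) (nat_lit 0) .nil)))))) (.g (nat_lit 4) .nil .nil))) 
(.lf (nat_lit 110261) (.g (nat_lit 706) (.e (nat_lit 5404) (nat_lit 302) (.e (nat_lit 65633) (nat_lit 15) (.e (nat_lit 7086) (nat_lit 379) (.e (nat_lit 123213) (nat_lit 274) (.e (nat_lit 65647) (nat_lit 25) (.e (nat_lit 409605) (nat_lit 0) .nil)))))) (.g (nat_lit 0) .nil .nil))))) (.nd (nat_lit 4) (.nd (nat_lit 5) 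
(.lf (nat_lit 110221) (.g (nat_lit 1516) (.e (nat_lit 5402) (nat_lit 302) (.e (nat_lit 65571) (nat_lit 3) (.e (nat_lit 98320) (nat_lit 17) (.e (nat_lit 7593) (nat_lit 407) .nil)))) .nil)) 
(.lf (nat_lit 110253) (.g (nat_lit 1220) (.e (nat_lit 5403) (nat_lit 302) (.e (nat_lit 65653) (nat_lit 27) (.e (nat_lit 426344) (nat_lit 14) (.e (nat_lit 491552) (nat_lit 9) .nil)))) .nil))) (.nd (nat_lit 5) 
(.lf (nat_lit 110237) (.g (nat_lit 3017) (.e (nat_lit 5403) (nat_lit 302) (.e (nat_lit 65571) (nat_lit 3) (.e (nat_lit 98389) (nat_lit 33) (.e (nat_lit 491560) (nat_lit 10) (.e (nat_lit 344115) (nat_lit 20) (.e (nat_lit 507907) (nat_lit 0) .nil)))))) (.g (nat_lit 0) .nil .nil))) 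
(.lf (nat_lit 110269) (.g (nat_lit 939) (.e (nat_lit 5404) (nat_lit 302) (.e (nat_lit 65648) (nat_lit 26) (.e (nat_lit 417796) (nat_lit 0) (.e (nat_lit 5405) (nat_lit 302) (.e (nat_lit 65647) (nat_lit 25) (.e (nat_lit 409605) (nat_lit 0) .nil)))))) (.g (nat_lit 0) .nil .nil))))))) (.nd (nat_lit 2) (.nd (nat_lit 3) (.nd (nat_lit 4) (.nd (nat_lit 5) 
(.lf (nat_lit 110211) (.g (nat_lit 835) (.e (nat_lit 5401) (nat_lit 302) (.e (nat_lit 65647) (nat_lit 25) (.e (nat_lit 409602) (nat_lit 0) (.e (nat_lit 5404) (nat_lit 302) (.e (nat_lit 65648) (nat_lit 26) .nil))))) .nil)) 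
(.lf (nat_lit 110243) (.g (nat_lit 2235) (.e (nat_lit 5403) (nat_lit 302) (.e (nat_lit 65580) (nat_lit 6) (.e (nat_lit 147496) (nat_lit 11) (.e (nat_lit 24625) (nat_lit 9) (.e (nat_lit 336365) (nat_lit 26) .nil))))) .nil))) (.nd (nat_lit 5) 
(.lf (nat_lit 110227) (.g (nat_lit 968) (.e (nat_lit 5403) (nat_lit 302) (.e (nat_lit 65571) (nat_lit 3) (.e (nat_lit 98319) (nat_lit 17) .nil))) .nil)) 
(.lf (nat_lit 110259) (.g (nat_lit 937) (.e (nat_lit 5404) (nat_lit 302) (.e (nat_lit 65563) (nat_lit 1) (.e (nat_lit 57684) (nat_lit 155) (.e (nat_lit 122914) (nat_lit 14) (.e (nat_lit 352271) (nat_lit 9) .nil))))) .nil)))) (.nd (nat_lit 4) (.nd (nat_lit 5) 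
(.lf (nat_lit 110219) (.g (nat_lit 1417) (.e (nat_lit 5401) (nat_lit 302) (.e (nat_lit 65653) (nat_lit 27) (.e (nat_lit 426344) (nat_lit 14) (.e (nat_lit 491552) (nat_lit 9) (.e (nat_lit 336363) (nat_lit 26) (.e (nat_lit 417795) (nat_lit 0) .nil)))))) (.g (nat_lit 4) .nil .nil))) 
(.lf (nat_lit 110251) (.g (nat_lit 1577) (.e (nat_lit 5403) (nat_lit 302) (.e (nat_lit 65653) (nat_lit 27) (.e (nat_lit 426012) (nat_lit 0) (.e (nat_lit 7589) (nat_lit 406) (.e (nat_lit 65648) (nat_lit 26) .nil))))) .nil))) (.nd (nat_lit 5) 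
(.lf (nat_lit 110235) (.g (nat_lit 3118) (.e (nat_lit 5403) (nat_lit 302) (.e (nat_lit 65571) (nat_lit 3) (.e (nat_lit 98389) (nat_lit 33) (.e (nat_lit 491558) (nat_lit 10) (.e (nat_lit 344115) (nat_lit 20) (.e (nat_lit 507908) (nat_lit 0) .nil)))))) (.g (nat_lit 0) .nil .nil))) 
(.lf (nat_lit 110267) (.g (nat_lit 629) (.e (nat_lit 5404) (nat_lit 302) (.e (nat_lit 65648) (nat_lit 26) (.e (nat_lit 417795) (nat_lit 0) (.e (nat_lit 5405) (nat_lit 302) (.e (nat_lit 65647) (nat_lit 25) (.e (nat_lit 409603) (nat_lit 0) .nil)))))) (.g (nat_lit 0) .nil .nil)))))) (.nd (nat_lit 3) (.nd (nat_lit 4) (.nd (nat_lit 5) 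
(.lf (nat_lit 110215) (.g (nat_lit 841) (.e (nat_lit 5401) (nat_lit 302) (.e (nat_lit 65653) (nat_lit 27) (.e (nat_lit 426010) (nat_lit 0) (.e (nat_lit 7589) (nat_lit 406) (.e (nat_lit 65648) (nat_lit 26) .nil))))) .nil)) 
(.lf (nat_lit 110247) (.g (nat_lit 562) (.e (nat_lit 5403) (nat_lit 302) (.e (nat_lit 65653) (nat_lit 27) (.e (nat_lit 426010) (nat_lit 0) (.e (nat_lit 7589) (nat_lit 406) .nil)))) .nil))) (.nd (nat_lit 5) 
(.lf (nat_lit 110231) (.g (nat_lit 1829) (.e (nat_lit 5403) (nat_lit 302) (.e (nat_lit 65571) (nat_lit 3) (.e (nat_lit 98320) (nat_lit 17) (.e (nat_lit 7593) (nat_lit 407) (.e (nat_lit 73744) (nat_lit 2) (.e (nat_lit 507907) (nat_lit 0) .nil)))))) (.g (nat_lit 4) .nil .nil))) 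
(.lf (nat_lit 110263) (.g (nat_lit 824) (.e (nat_lit 5404) (nat_lit 302) (.e (nat_lit 65633) (nat_lit 15) (.e (nat_lit 7089) (nat_lit 379) (.e (nat_lit 123213) (nat_lit 274) (.e (nat_lit 65647) (nat_lit 25) (.e (nat_lit 409605) (nat_lit 0) .nil)))))) (.g (nat_lit 0) .nil .nil))))) (.nd (nat_lit 4) (.nd (nat_lit 5) 
(.lf (nat_lit 110223) (.g (nat_lit 2613) (.e (nat_lit 5402) (nat_lit 302) (.e (nat_lit 65571) (nat_lit 3) (.e (nat_lit 98389) (nat_lit 33) (.e (nat_lit 491560) (nat_lit 10) (.e (nat_lit 344114) (nat_lit 20) .nil))))) .nil)) 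
(.lf (nat_lit 110255) (.g (nat_lit 984) (.e (nat_lit 5404) (nat_lit 302) (.e (nat_lit 65536) (nat_lit 0) (.e (nat_lit 2270) (nat_lit 149) (.e (nat_lit 761868) (nat_lit 5) (.e (nat_lit 1574) (nat_lit 110) (.e (nat_lit 352271) (nat_lit 9) (.e (nat_lit 409604) (nat_lit 0) .nil))))))) (.g (nat_lit 4) .nil .nil)))) (.nd (nat_lit 5) 
(.lf (nat_lit 110239) (.g (nat_lit 938) (.e (nat_lit 5403) (nat_lit 302) (.e (nat_lit 65580) (nat_lit 6) (.e (nat_lit 147467) (nat_lit 9) (.e (nat_lit 309) (nat_lit 23) (.e (nat_lit 352272) (nat_lit 10) .nil))))) .nil)) 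
(.lf (nat_lit 110271) (.g (nat_lit 494) (.e (nat_lit 5404) (nat_lit 302) (.e (nat_lit 65652) (nat_lit 27) (.e (nat_lit 425984) (nat_lit 0) (.e (nat_lit 7588) (nat_lit 406) (.e (nat_lit 65647) (nat_lit 25) (.e (nat_lit 409605) (nat_lit 0) .nil)))))) (.g (nat_lit 0) .nil .nil)))))))))

noncomputable def tv1486 : DT := (.nd (nat_lit 0) (.nd (nat_lit 1) (.nd (nat_lit 2) (.nd (nat_lit 3) (.nd (nat_lit 4) 
(.lf (nat_lit 110272) (.g (nat_lit 450) (.e (nat_lit 5404) (nat_lit 302) (.e (nat_lit 65652) (nat_lit 27) (.e (nat_lit 425989) (nat_lit 0) (.e (nat_lit 7588) (nat_lit 406) (.e (nat_lit 65647) (nat_lit 25) (.e (nat_lit 409605) (nat_lit 0) .nil)))))) (.g (nat_lit 0) .nil .nil))) 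
(.lf (nat_lit 110288) (.g (nat_lit 1225) (.e (nat_lit 5404) (nat_lit 302) (.e (nat_lit 65653) (nat_lit 27) (.e (nat_lit 426344) (nat_lit 14) (.e (nat_lit 491546) (nat_lit 9) .nil)))) .nil))) (.nd (nat_lit 4) 
(.lf (nat_lit 110280) (.g (nat_lit 938) (.e (nat_lit 5404) (nat_lit 302) (.e (nat_lit 65653) (nat_lit 27) (.e (nat_lit 426012) (nat_lit 0) (.e (nat_lit 7936) (nat_lit 406) .nil)))) .nil)) 
(.lf (nat_lit 110296) (.g (nat_lit 976) (.e (nat_lit 5405) (nat_lit 302) (.e (nat_lit 65632) (nat_lit 15) (.e (nat_lit 7077) (nat_lit 378) (.e (nat_lit 57897) (nat_lit 274) (.e (nat_lit 65648) (nat_lit 26) (.e (nat_lit 417796) (nat_lit 0) .nil)))))) (.g (nat_lit 0) .nil .nil))))) (.nd (nat_lit 3) (.nd (nat_lit 4) 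
(.lf (nat_lit 110276) (.g (nat_lit 1389) (.e (nat_lit 5404) (nat_lit 302) (.e (nat_lit 65653) (nat_lit 27) (.e (nat_lit 426011) (nat_lit 0) (.e (nat_lit 7936) (nat_lit 406) .nil)))) .nil)) 
(.lf (nat_lit 110292) (.g (nat_lit 2536) (.e (nat_lit 5405) (nat_lit 302) (.e (nat_lit 65569) (nat_lit 3) (.e (nat_lit 98388) (nat_lit 33) (.e (nat_lit 491560) (nat_lit 10) (.e (nat_lit 344115) (nat_lit 20) .nil))))) .nil))) (.nd (nat_lit 4) 
(.lf (nat_lit 110284) (.g (nat_lit 1962) (.e (nat_lit 5404) (nat_lit 302) (.e (nat_lit 65653) (nat_lit 27) (.e (nat_lit 426343) (nat_lit 14) (.e (nat_lit 491546) (nat_lit 9) (.e (nat_lit 343808) (nat_lit 25) .nil))))) .nil)) 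
(.lf (nat_lit 110300) (.g (nat_lit 686) (.e (nat_lit 5405) (nat_lit 302) (.e (nat_lit 65632) (nat_lit 15) (.e (nat_lit 7081) (nat_lit 378) (.e (nat_lit 57897) (nat_lit 274) (.e (nat_lit 65648) (nat_lit 26) (.e (nat_lit 417795) (nat_lit 0) .nil)))))) (.g (nat_lit 0) .nil .nil)))))) (.nd (nat_lit 2) (.nd (nat_lit 3) (.nd (nat_lit 4) 
(.lf (nat_lit 110274) (.g (nat_lit 1975) (.e (nat_lit 5404) (nat_lit 302) (.e (nat_lit 65653) (nat_lit 27) (.e (nat_lit 426011) (nat_lit 0) (.e (nat_lit 7587) (nat_lit 406) (.e (nat_lit 65647) (nat_lit 25) .nil))))) .nil)) 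
(.lf (nat_lit 110290) (.g (nat_lit 1720) (.e (nat_lit 5404) (nat_lit 302) (.e (nat_lit 65653) (nat_lit 27) (.e (nat_lit 426344) (nat_lit 14) (.e (nat_lit 491552) (nat_lit 9) (.e (nat_lit 336358) (nat_lit 25) (.e (nat_lit 409603) (nat_lit 0) .nil)))))) (.g (nat_lit 0) .nil .nil)))) (.nd (nat_lit 4) 
(.lf (nat_lit 110282) (.g (nat_lit 2147) (.e (nat_lit 5404) (nat_lit 302) (.e (nat_lit 65653) (nat_lit 27) (.e (nat_lit 426343) (nat_lit 14) (.e (nat_lit 491546) (nat_lit 9) (.e (nat_lit 336358) (nat_lit 25) (.e (nat_lit 409603) (nat_lit 0) .nil)))))) (.g (nat_lit 6) .nil .nil))) 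
(.lf (nat_lit 110298) (.g (nat_lit 531) (.e (nat_lit 5405) (nat_lit 302) (.e (nat_lit 65632) (nat_lit 15) (.e (nat_lit 7081) (nat_lit 378) (.e (nat_lit 57897) (nat_lit 274) (.e (nat_lit 65648) (nat_lit 26) (.e (nat_lit 417793) (nat_lit 0) .nil)))))) (.g (nat_lit 0) .nil .nil))))) (.nd (nat_lit 3) (.nd (nat_lit 4) 
(.lf (nat_lit 110278) (.g (nat_lit 2357) (.e (nat_lit 5404) (nat_lit 302) (.e (nat_lit 65653) (nat_lit 27) (.e (nat_lit 426012) (nat_lit 0) (.e (nat_lit 7589) (nat_lit 406) (.e (nat_lit 65647) (nat_lit 25) (.e (nat_lit 409602) (nat_lit 0) .nil)))))) (.g (nat_lit 0) .nil .nil))) 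
(.lf (nat_lit 110294) (.g (nat_lit 541) (.e (nat_lit 5405) (nat_lit 302) (.e (nat_lit 65632) (nat_lit 15) (.e (nat_lit 7077) (nat_lit 378) (.e (nat_lit 57897) (nat_lit 274) (.e (nat_lit 65648) (nat_lit 26) (.e (nat_lit 417794) (nat_lit 0) .nil)))))) (.g (nat_lit 0) .nil .nil)))) (.nd (nat_lit 4) 
(.lf (nat_lit 110286) (.g (nat_lit 1773) (.e (nat_lit 5404) (nat_lit 302) (.e (nat_lit 65653) (nat_lit 27) (.e (nat_lit 426343) (nat_lit 14) (.e (nat_lit 491552) (nat_lit 9) (.e (nat_lit 336358) (nat_lit 25) (.e (nat_lit 409605) (nat_lit 0) .nil)))))) (.g (nat_lit 0) .nil .nil))) 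
(.lf (nat_lit 110302) (.g (nat_lit 515) (.e (nat_lit 5405) (nat_lit 302) (.e (nat_lit 65632) (nat_lit 15) (.e (nat_lit 7082) (nat_lit 378) (.e (nat_lit 57897) (nat_lit 274) (.e (nat_lit 65648) (nat_lit 26) (.e (nat_lit 417794) (nat_lit 0) .nil)))))) (.g (nat_lit 0) .nil .nil))))))) (.nd (nat_lit 1) (.nd (nat_lit 2) (.nd (nat_lit 3) (.nd (nat_lit 4) 
(.lf (nat_lit 110273) (.g (nat_lit 1136) (.e (nat_lit 5404) (nat_lit 302) (.e (nat_lit 65653) (nat_lit 27) (.e (nat_lit 426011) (nat_lit 0) (.e (nat_lit 7587) (nat_lit 406) .nil)))) .nil)) 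
(.lf (nat_lit 110289) (.g (nat_lit 1198) (.e (nat_lit 5404) (nat_lit 302) (.e (nat_lit 65653) (nat_lit 27) (.e (nat_lit 426344) (nat_lit 14) (.e (nat_lit 491552) (nat_lit 9) .nil)))) .nil))) (.nd (nat_lit 4) 
(.lf (nat_lit 110281) (.g (nat_lit 991) (.e (nat_lit 5404) (nat_lit 302) (.e (nat_lit 65653) (nat_lit 27) (.e (nat_lit 426342) (nat_lit 14) (.e (nat_lit 491552) (nat_lit 9) (.e (nat_lit 336358) (nat_lit 25) (.e (nat_lit 409602) (nat_lit 0) .nil)))))) (.g (nat_lit 4) .nil .nil))) 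
(.lf (nat_lit 110297) (.g (nat_lit 528) (.e (nat_lit 5405) (nat_lit 302) (.e (nat_lit 65632) (nat_lit 15) (.e (nat_lit 7079) (nat_lit 378) (.e (nat_lit 57897) (nat_lit 274) (.e (nat_lit 65648) (nat_lit 26) (.e (nat_lit 417794) (nat_lit 0) .nil)))))) (.g (nat_lit 0) .nil .nil))))) (.nd (nat_lit 3) (.nd (nat_lit 4) 
(.lf (nat_lit 110277) (.g (nat_lit 786) (.e (nat_lit 5404) (nat_lit 302) (.e (nat_lit 65653) (nat_lit 27) (.e (nat_lit 426012) (nat_lit 0) (.e (nat_lit 7587) (nat_lit 406) (.e (nat_lit 73472) (nat_lit 25) .nil))))) .nil)) 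
(.lf (nat_lit 110293) (.g (nat_lit 504) (.e (nat_lit 5405) (nat_lit 302) (.e (nat_lit 65632) (nat_lit 15) (.e (nat_lit 7077) (nat_lit 378) (.e (nat_lit 57897) (nat_lit 274) (.e (nat_lit 65648) (nat_lit 26) (.e (nat_lit 417793) (nat_lit 0) .nil)))))) (.g (nat_lit 0) .nil .nil)))) (.nd (nat_lit 4) 
(.lf (nat_lit 110285) (.g (nat_lit 2029) (.e (nat_lit 5404) (nat_lit 302) (.e (nat_lit 65653) (nat_lit 27) (.e (nat_lit 426343) (nat_lit 14) (.e (nat_lit 491546) (nat_lit 9) (.e (nat_lit 343808) (nat_lit 25) (.e (nat_lit 409604) (nat_lit 0) .nil)))))) (.g (nat_lit 4) .nil .nil))) 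
(.lf (nat_lit 110301) (.g (nat_lit 1002) (.e (nat_lit 5405) (nat_lit 302) (.e (nat_lit 65632) (nat_lit 15) (.e (nat_lit 7081) (nat_lit 378) (.e (nat_lit 57897) (nat_lit 274) (.e (nat_lit 65648) (nat_lit 26) (.e (nat_lit 417796) (nat_lit 0) .nil)))))) (.g (nat_lit 0) .nil .nil)))))) (.nd (nat_lit 2) (.nd (nat_lit 3) (.nd (nat_lit 4) 
(.lf (nat_lit 110275) (.g (nat_lit 2400) (.e (nat_lit 5404) (nat_lit 302) (.e (nat_lit 65653) (nat_lit 27) (.e (nat_lit 426011) (nat_lit 0) (.e (nat_lit 7589) (nat_lit 406) (.e (nat_lit 65647) (nat_lit 25) (.e (nat_lit 409602) (nat_lit 0) .nil)))))) (.g (nat_lit 0) .nil .nil))) 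
(.lf (nat_lit 110291) (.g (nat_lit 1753) (.e (nat_lit 5404) (nat_lit 302) (.e (nat_lit 65653) (nat_lit 27) (.e (nat_lit 426344) (nat_lit 14) (.e (nat_lit 491556) (nat_lit 9) (.e (nat_lit 343808) (nat_lit 25) .nil))))) .nil))) (.nd (nat_lit 4) 
(.lf (nat_lit 110283) (.g (nat_lit 2217) (.e (nat_lit 5404) (nat_lit 302) (.e (nat_lit 65653) (nat_lit 27) (.e (nat_lit 426343) (nat_lit 14) (.e (nat_lit 491546) (nat_lit 9) (.e (nat_lit 336358) (nat_lit 25) (.e (nat_lit 409604) (nat_lit 0) .nil)))))) (.g (nat_lit 0) .nil .nil))) 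
(.lf (nat_lit 110299) (.g (nat_lit 574) (.e (nat_lit 5405) (nat_lit 302) (.e (nat_lit 65632) (nat_lit 15) (.e (nat_lit 7081) (nat_lit 378) (.e (nat_lit 57897) (nat_lit 274) (.e (nat_lit 65648) (nat_lit 26) (.e (nat_lit 417794) (nat_lit 0) .nil)))))) (.g (nat_lit 0) .nil .nil))))) (.nd (nat_lit 3) (.nd (nat_lit 4) 
(.lf (nat_lit 110279) (.g (nat_lit 1883) (.e (nat_lit 5404) (nat_lit 302) (.e (nat_lit 65653) (nat_lit 27) (.e (nat_lit 426012) (nat_lit 0) (.e (nat_lit 7589) (nat_lit 406) (.e (nat_lit 65647) (nat_lit 25) (.e (nat_lit 409604) (nat_lit 0) .nil)))))) (.g (nat_lit 0) .nil .nil))) 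
(.lf (nat_lit 110295) (.g (nat_lit 661) (.e (nat_lit 5405) (nat_lit 302) (.e (nat_lit 65632) (nat_lit 15) (.e (nat_lit 7077) (nat_lit 378) (.e (nat_lit 57897) (nat_lit 274) (.e (nat_lit 65648) (nat_lit 26) (.e (nat_lit 417795) (nat_lit 0) .nil)))))) (.g (nat_lit 0) .nil .nil)))) (.nd (nat_lit 4) 
(.lf (nat_lit 110287) (.g (nat_lit 1699) (.e (nat_lit 5404) (nat_lit 302) (.e (nat_lit 65653) (nat_lit 27) (.e (nat_lit 426343) (nat_lit 14) (.e (nat_lit 491556) (nat_lit 9) (.e (nat_lit 343808) (nat_lit 25) .nil))))) .nil)) 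
(.lf (nat_lit 110303) (.g (nat_lit 641) (.e (nat_lit 5405) (nat_lit 302) (.e (nat_lit 65632) (nat_lit 15) (.e (nat_lit 7082) (nat_lit 378) (.e (nat_lit 57897) (nat_lit 274) (.e (nat_lit 65648) (nat_lit 26) (.e (nat_lit 417795) (nat_lit 0) .nil)))))) (.g (nat_lit 0) .nil .nil))))))))

noncomputable def tv1487 : DT := (.nd (nat_lit 0) (.nd (nat_lit 1) (.nd (nat_lit 2) (.nd (nat_lit 3) (.nd (nat_lit 4) 
(.lf (nat_lit 110304) (.g (nat_lit 960) (.e (nat_lit 5405) (nat_lit 302) (.e (nat_lit 65632) (nat_lit 15) (.e (nat_lit 7082) (nat_lit 378) (.e (nat_lit 57897) (nat_lit 274) (.e (nat_lit 65648) (nat_lit 26) (.e (nat_lit 417796) (nat_lit 0) .nil)))))) (.g (nat_lit 0) .nil .nil))) 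
(.lf (nat_lit 110320) (.g (nat_lit 542) (.e (nat_lit 5405) (nat_lit 302) (.e (nat_lit 65648) (nat_lit 26) (.e (nat_lit 417793) (nat_lit 0) (.e (nat_lit 5405) (nat_lit 302) (.e (nat_lit 65648) (nat_lit 26) (.e (nat_lit 417794) (nat_lit 0) .nil)))))) (.g (nat_lit 0) .nil .nil)))) (.nd (nat_lit 4) 
(.lf (nat_lit 110312) (.g (nat_lit 888) (.e (nat_lit 5405) (nat_lit 302) (.e (nat_lit 65633) (nat_lit 15) (.e (nat_lit 7089) (nat_lit 379) (.e (nat_lit 123213) (nat_lit 274) (.e (nat_lit 65648) (nat_lit 26) (.e (nat_lit 417794) (nat_lit 0) .nil)))))) (.g (nat_lit 0) .nil .nil))) 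
(.lf (nat_lit 110328) (.g (nat_lit 681) (.e (nat_lit 5405) (nat_lit 302) (.e (nat_lit 65652) (nat_lit 27) (.e (nat_lit 425984) (nat_lit 0) (.e (nat_lit 7588) (nat_lit 406) (.e (nat_lit 65648) (nat_lit 26) (.e (nat_lit 417795) (nat_lit 0) .nil)))))) (.g (nat_lit 0) .nil .nil))))) (.nd (nat_lit 3) (.nd (nat_lit 4) 
(.lf (nat_lit 110308) (.g (nat_lit 859) (.e (nat_lit 5405) (nat_lit 302) (.e (nat_lit 65633) (nat_lit 15) (.e (nat_lit 7088) (nat_lit 379) (.e (nat_lit 123213) (nat_lit 274) (.e (nat_lit 65648) (nat_lit 26) (.e (nat_lit 417793) (nat_lit 0) .nil)))))) (.g (nat_lit 0) .nil .nil))) 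
(.lf (nat_lit 110324) (.g (nat_lit 601) (.e (nat_lit 5405) (nat_lit 302) (.e (nat_lit 65648) (nat_lit 26) (.e (nat_lit 417795) (nat_lit 0) (.e (nat_lit 5406) (nat_lit 302) (.e (nat_lit 65648) (nat_lit 26) (.e (nat_lit 417793) (nat_lit 0) .nil)))))) (.g (nat_lit 6) .nil .nil)))) (.nd (nat_lit 4) 
(.lf (nat_lit 110316) (.g (nat_lit 946) (.e (nat_lit 5405) (nat_lit 302) (.e (nat_lit 65647) (nat_lit 25) (.e (nat_lit 409603) (nat_lit 0) (.e (nat_lit 5404) (nat_lit 302) (.e (nat_lit 65648) (nat_lit 26) (.e (nat_lit 417796) (nat_lit 0) .nil)))))) (.g (nat_lit 0) .nil .nil))) 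
(.lf (nat_lit 110332) (.g (nat_lit 634) (.e (nat_lit 5405) (nat_lit 302) (.e (nat_lit 65652) (nat_lit 27) (.e (nat_lit 425989) (nat_lit 0) (.e (nat_lit 7588) (nat_lit 406) (.e (nat_lit 65648) (nat_lit 26) (.e (nat_lit 417795) (nat_lit 0) .nil)))))) (.g (nat_lit 0) .nil .nil)))))) (.nd (nat_lit 2) (.nd (nat_lit 3) (.nd (nat_lit 4) 
(.lf (nat_lit 110306) (.g (nat_lit 1209) (.e (nat_lit 5405) (nat_lit 302) (.e (nat_lit 65633) (nat_lit 15) (.e (nat_lit 7086) (nat_lit 379) (.e (nat_lit 123213) (nat_lit 274) (.e (nat_lit 65648) (nat_lit 26) (.e (nat_lit 417796) (nat_lit 0) .nil)))))) (.g (nat_lit 0) .nil .nil))) 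
(.lf (nat_lit 110322) (.g (nat_lit 578) (.e (nat_lit 5405) (nat_lit 302) (.e (nat_lit 65648) (nat_lit 26) (.e (nat_lit 417794) (nat_lit 0) (.e (nat_lit 5405) (nat_lit 302) (.e (nat_lit 65648) (nat_lit 26) (.e (nat_lit 417794) (nat_lit 0) .nil)))))) (.g (nat_lit 0) .nil .nil)))) (.nd (nat_lit 4) 
(.lf (nat_lit 110314) (.g (nat_lit 1459) (.e (nat_lit 5405) (nat_lit 302) (.e (nat_lit 65647) (nat_lit 25) (.e (nat_lit 409602) (nat_lit 0) (.e (nat_lit 5404) (nat_lit 302) (.e (nat_lit 65648) (nat_lit 26) (.e (nat_lit 417796) (nat_lit 0) .nil)))))) (.g (nat_lit 0) .nil .nil))) 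
(.lf (nat_lit 110330) (.g (nat_lit 526) (.e (nat_lit 5405) (nat_lit 302) (.e (nat_lit 65652) (nat_lit 27) (.e (nat_lit 425987) (nat_lit 0) (.e (nat_lit 7588) (nat_lit 406) (.e (nat_lit 65648) (nat_lit 26) (.e (nat_lit 417794) (nat_lit 0) .nil)))))) (.g (nat_lit 0) .nil .nil))))) (.nd (nat_lit 3) (.nd (nat_lit 4) 
(.lf (nat_lit 110310) (.g (nat_lit 1022) (.e (nat_lit 5405) (nat_lit 302) (.e (nat_lit 65633) (nat_lit 15) (.e (nat_lit 7088) (nat_lit 379) (.e (nat_lit 123213) (nat_lit 274) (.e (nat_lit 65648) (nat_lit 26) (.e (nat_lit 417795) (nat_lit 0) .nil)))))) (.g (nat_lit 0) .nil .nil))) 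
(.lf (nat_lit 110326) (.g (nat_lit 898) (.e (nat_lit 5405) (nat_lit 302) (.e (nat_lit 65648) (nat_lit 26) (.e (nat_lit 417796) (nat_lit 0) (.e (nat_lit 5406) (nat_lit 302) (.e (nat_lit 65648) (nat_lit 26) (.e (nat_lit 417794) (nat_lit 0) .nil)))))) (.g (nat_lit 6) .nil .nil)))) (.nd (nat_lit 4) 
(.lf (nat_lit 110318) (.g (nat_lit 991) (.e (nat_lit 5405) (nat_lit 302) (.e (nat_lit 65647) (nat_lit 25) (.e (nat_lit 409604) (nat_lit 0) (.e (nat_lit 5404) (nat_lit 302) (.e (nat_lit 65648) (nat_lit 26) (.e (nat_lit 417796) (nat_lit 0) .nil)))))) (.g (nat_lit 0) .nil .nil))) 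
(.lf (nat_lit 110334) (.g (nat_lit 472) (.e (nat_lit 5405) (nat_lit 302) (.e (nat_lit 65652) (nat_lit 27) (.e (nat_lit 425990) (nat_lit 0) (.e (nat_lit 7588) (nat_lit 406) (.e (nat_lit 65648) (nat_lit 26) (.e (nat_lit 417794) (nat_lit 0) .nil)))))) (.g (nat_lit 0) .nil .nil))))))) (.nd (nat_lit 1) (.nd (nat_lit 2) (.nd (nat_lit 3) (.nd (nat_lit 4) 
(.lf (nat_lit 110305) (.g (nat_lit 782) (.e (nat_lit 5405) (nat_lit 302) (.e (nat_lit 65633) (nat_lit 15) (.e (nat_lit 7086) (nat_lit 379) (.e (nat_lit 123213) (nat_lit 274) (.e (nat_lit 65648) (nat_lit 26) (.e (nat_lit 417794) (nat_lit 0) .nil)))))) (.g (nat_lit 0) .nil .nil))) 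
(.lf (nat_lit 110321) (.g (nat_lit 646) (.e (nat_lit 5405) (nat_lit 302) (.e (nat_lit 65648) (nat_lit 26) (.e (nat_lit 417793) (nat_lit 0) (.e (nat_lit 5405) (nat_lit 302) (.e (nat_lit 65648) (nat_lit 26) (.e (nat_lit 417795) (nat_lit 0) .nil)))))) (.g (nat_lit 0) .nil .nil)))) (.nd (nat_lit 4) 
(.lf (nat_lit 110313) (.g (nat_lit 1334) (.e (nat_lit 5405) (nat_lit 302) (.e (nat_lit 65633) (nat_lit 15) (.e (nat_lit 7089) (nat_lit 379) (.e (nat_lit 123213) (nat_lit 274) (.e (nat_lit 65648) (nat_lit 26) (.e (nat_lit 417796) (nat_lit 0) .nil)))))) (.g (nat_lit 0) .nil .nil))) 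
(.lf (nat_lit 110329) (.g (nat_lit 999) (.e (nat_lit 5405) (nat_lit 302) (.e (nat_lit 65652) (nat_lit 27) (.e (nat_lit 425984) (nat_lit 0) (.e (nat_lit 7588) (nat_lit 406) (.e (nat_lit 65648) (nat_lit 26) (.e (nat_lit 417796) (nat_lit 0) .nil)))))) (.g (nat_lit 0) .nil .nil))))) (.nd (nat_lit 3) (.nd (nat_lit 4) 
(.lf (nat_lit 110309) (.g (nat_lit 897) (.e (nat_lit 5405) (nat_lit 302) (.e (nat_lit 65633) (nat_lit 15) (.e (nat_lit 7088) (nat_lit 379) (.e (nat_lit 123213) (nat_lit 274) (.e (nat_lit 65648) (nat_lit 26) (.e (nat_lit 417794) (nat_lit 0) .nil)))))) (.g (nat_lit 0) .nil .nil))) 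
(.lf (nat_lit 110325) (.g (nat_lit 635) (.e (nat_lit 5405) (nat_lit 302) (.e (nat_lit 65648) (nat_lit 26) (.e (nat_lit 417795) (nat_lit 0) (.e (nat_lit 5406) (nat_lit 302) (.e (nat_lit 65648) (nat_lit 26) (.e (nat_lit 417794) (nat_lit 0) .nil)))))) (.g (nat_lit 6) .nil .nil)))) (.nd (nat_lit 4) 
(.lf (nat_lit 110317) (.g (nat_lit 675) (.e (nat_lit 5405) (nat_lit 302) (.e (nat_lit 65647) (nat_lit 25) (.e (nat_lit 409604) (nat_lit 0) (.e (nat_lit 5404) (nat_lit 302) (.e (nat_lit 65648) (nat_lit 26) (.e (nat_lit 417795) (nat_lit 0) .nil)))))) (.g (nat_lit 0) .nil .nil))) 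
(.lf (nat_lit 110333) (.g (nat_lit 953) (.e (nat_lit 5405) (nat_lit 302) (.e (nat_lit 65652) (nat_lit 27) (.e (nat_lit 425989) (nat_lit 0) (.e (nat_lit 7588) (nat_lit 406) (.e (nat_lit 65648) (nat_lit 26) (.e (nat_lit 417796) (nat_lit 0) .nil)))))) (.g (nat_lit 0) .nil .nil)))))) (.nd (nat_lit 2) (.nd (nat_lit 3) (.nd (nat_lit 4) 
(.lf (nat_lit 110307) (.g (nat_lit 811) (.e (nat_lit 5405) (nat_lit 302) (.e (nat_lit 65633) (nat_lit 15) (.e (nat_lit 7087) (nat_lit 379) (.e (nat_lit 123213) (nat_lit 274) (.e (nat_lit 65648) (nat_lit 26) (.e (nat_lit 417794) (nat_lit 0) .nil)))))) (.g (nat_lit 0) .nil .nil))) 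
(.lf (nat_lit 110323) (.g (nat_lit 800) (.e (nat_lit 5405) (nat_lit 302) (.e (nat_lit 65648) (nat_lit 26) (.e (nat_lit 417795) (nat_lit 0) (.e (nat_lit 5405) (nat_lit 302) (.e (nat_lit 65648) (nat_lit 26) (.e (nat_lit 417795) (nat_lit 0) .nil)))))) (.g (nat_lit 0) .nil .nil)))) (.nd (nat_lit 4) 
(.lf (nat_lit 110315) (.g (nat_lit 744) (.e (nat_lit 5405) (nat_lit 302) (.e (nat_lit 65647) (nat_lit 25) (.e (nat_lit 409602) (nat_lit 0) (.e (nat_lit 5425) (nat_lit 305) (.e (nat_lit 139008) (nat_lit 26) .nil))))) .nil)) 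
(.lf (nat_lit 110331) (.g (nat_lit 527) (.e (nat_lit 5405) (nat_lit 302) (.e (nat_lit 65652) (nat_lit 27) (.e (nat_lit 425989) (nat_lit 0) (.e (nat_lit 7588) (nat_lit 406) (.e (nat_lit 65648) (nat_lit 26) (.e (nat_lit 417794) (nat_lit 0) .nil)))))) (.g (nat_lit 0) .nil .nil))))) (.nd (nat_lit 3) (.nd (nat_lit 4) 
(.lf (nat_lit 110311) (.g (nat_lit 1342) (.e (nat_lit 5405) (nat_lit 302) (.e (nat_lit 65633) (nat_lit 15) (.e (nat_lit 7088) (nat_lit 379) (.e (nat_lit 123213) (nat_lit 274) (.e (nat_lit 65648) (nat_lit 26) (.e (nat_lit 417796) (nat_lit 0) .nil)))))) (.g (nat_lit 0) .nil .nil))) 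
(.lf (nat_lit 110327) (.g (nat_lit 570) (.e (nat_lit 5405) (nat_lit 302) (.e (nat_lit 65652) (nat_lit 27) (.e (nat_lit 425984) (nat_lit 0) (.e (nat_lit 7588) (nat_lit 406) (.e (nat_lit 65648) (nat_lit 26) (.e (nat_lit 417794) (nat_lit 0) .nil)))))) (.g (nat_lit 0) .nil .nil)))) (.nd (nat_lit 4) 
(.lf (nat_lit 110319) (.g (nat_lit 508) (.e (nat_lit 5405) (nat_lit 302) (.e (nat_lit 65648) (nat_lit 26) (.e (nat_lit 417793) (nat_lit 0) (.e (nat_lit 5405) (nat_lit 302) (.e (nat_lit 65648) (nat_lit 26) (.e (nat_lit 417793) (nat_lit 0) .nil)))))) (.g (nat_lit 0) .nil .nil))) 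
(.lf (nat_lit 110335) (.g (nat_lit 1073) (.e (nat_lit 5405) (nat_lit 302) (.e (nat_lit 65653) (nat_lit 27) (.e (nat_lit 426009) (nat_lit 0) (.e (nat_lit 7587) (nat_lit 406) (.e (nat_lit 65648) (nat_lit 26) (.e (nat_lit 417795) (nat_lit 0) .nil)))))) (.g (nat_lit 0) .nil .nil))))))))

noncomputable def tv1488 : DT := (.nd (nat_lit 0) (.nd (nat_lit 1) (.nd (nat_lit 2) (.nd (nat_lit 3) (.nd (nat_lit 4) (.nd (nat_lit 5) 
(.lf (nat_lit 110336) (.g (nat_lit 1181) (.e (nat_lit 5405) (nat_lit 302) (.e (nat_lit 65653) (nat_lit 27) (.e (nat_lit 426010) (nat_lit 0) (.e (nat_lit 7587) (nat_lit 406) (.e (nat_lit 65648) (nat_lit 26) (.e (nat_lit 417795) (nat_lit 0) .nil)))))) (.g (nat_lit 0) .nil .nil))) 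
(.lf (nat_lit 110368) (.g (nat_lit 1389) (.e (nat_lit 5406) (nat_lit 302) (.e (nat_lit 65653) (nat_lit 27) (.e (nat_lit 426344) (nat_lit 14) (.e (nat_lit 491552) (nat_lit 9) (.e (nat_lit 336363) (nat_lit 26) .nil))))) .nil))) (.nd (nat_lit 5) 
(.lf (nat_lit 110352) (.g (nat_lit 2736) (.e (nat_lit 5406) (nat_lit 302) (.e (nat_lit 65569) (nat_lit 3) (.e (nat_lit 98389) (nat_lit 33) (.e (nat_lit 491560) (nat_lit 10) (.e (nat_lit 344115) (nat_lit 20) (.e (nat_lit 507908) (nat_lit 0) .nil)))))) (.g (nat_lit 0) .nil .nil))) 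
(.lf (nat_lit 110384) (.g (nat_lit 1636) (.e (nat_lit 5407) (nat_lit 303) (.e (nat_lit 73731) (nat_lit 0) (.e (nat_lit 7125) (nat_lit 382) (.e (nat_lit 1222) (nat_lit 90) (.e (nat_lit 89856) (nat_lit 10) .nil))))) .nil)))) (.nd (nat_lit 4) (.nd (nat_lit 5) 
(.lf (nat_lit 110344) (.g (nat_lit 1567) (.e (nat_lit 5405) (nat_lit 302) (.e (nat_lit 65653) (nat_lit 27) (.e (nat_lit 426344) (nat_lit 14) (.e (nat_lit 491552) (nat_lit 9) (.e (nat_lit 336363) (nat_lit 26) (.e (nat_lit 417794) (nat_lit 0) .nil)))))) (.g (nat_lit 0) .nil .nil))) 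
(.lf (nat_lit 110376) (.g (nat_lit 2040) (.e (nat_lit 5407) (nat_lit 303) (.e (nat_lit 73729) (nat_lit 0) (.e (nat_lit 7265) (nat_lit 384) (.e (nat_lit 57423) (nat_lit 14) (.e (nat_lit 352271) (nat_lit 9) (.e (nat_lit 409602) (nat_lit 0) .nil)))))) (.g (nat_lit 5) .nil .nil)))) (.nd (nat_lit 5) 
(.lf (nat_lit 110360) (.g (nat_lit 827) (.e (nat_lit 5406) (nat_lit 302) (.e (nat_lit 65653) (nat_lit 27) (.e (nat_lit 426010) (nat_lit 0) (.e (nat_lit 7587) (nat_lit 406) (.e (nat_lit 65648) (nat_lit 26) .nil))))) .nil)) 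
(.lf (nat_lit 110392) (.g (nat_lit 1897) (.e (nat_lit 5407) (nat_lit 303) (.e (nat_lit 73731) (nat_lit 0) (.e (nat_lit 7266) (nat_lit 384) (.e (nat_lit 57423) (nat_lit 14) (.e (nat_lit 352271) (nat_lit 9) .nil))))) .nil))))) (.nd (nat_lit 3) (.nd (nat_lit 4) (.nd (nat_lit 5) 
(.lf (nat_lit 110340) (.g (nat_lit 1596) (.e (nat_lit 5405) (nat_lit 302) (.e (nat_lit 65653) (nat_lit 27) (.e (nat_lit 426012) (nat_lit 0) (.e (nat_lit 7587) (nat_lit 406) (.e (nat_lit 65648) (nat_lit 26) (.e (nat_lit 417793) (nat_lit 0) .nil)))))) (.g (nat_lit 0) .nil .nil))) 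
(.lf (nat_lit 110372) (.g (nat_lit 1521) (.e (nat_lit 5407) (nat_lit 303) (.e (nat_lit 73729) (nat_lit 0) (.e (nat_lit 7261) (nat_lit 384) (.e (nat_lit 57423) (nat_lit 14) (.e (nat_lit 352271) (nat_lit 9) .nil))))) .nil))) (.nd (nat_lit 5) 
(.lf (nat_lit 110356) (.g (nat_lit 1067) (.e (nat_lit 5406) (nat_lit 302) (.e (nat_lit 65652) (nat_lit 27) (.e (nat_lit 425989) (nat_lit 0) (.e (nat_lit 7586) (nat_lit 406) (.e (nat_lit 65648) (nat_lit 26) (.e (nat_lit 417796) (nat_lit 0) .nil)))))) (.g (nat_lit 6) .nil .nil))) 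
(.lf (nat_lit 110388) (.g (nat_lit 1255) (.e (nat_lit 5407) (nat_lit 303) (.e (nat_lit 73731) (nat_lit 0) (.e (nat_lit 7261) (nat_lit 384) (.e (nat_lit 57423) (nat_lit 14) (.e (nat_lit 352271) (nat_lit 9) .nil))))) .nil)))) (.nd (nat_lit 4) (.nd (nat_lit 5) 
(.lf (nat_lit 110348) (.g (nat_lit 2742) (.e (nat_lit 5406) (nat_lit 302) (.e (nat_lit 65569) (nat_lit 3) (.e (nat_lit 98389) (nat_lit 33) (.e (nat_lit 491558) (nat_lit 10) (.e (nat_lit 344115) (nat_lit 20) (.e (nat_lit 507908) (nat_lit 0) .nil)))))) (.g (nat_lit 0) .nil .nil))) 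
(.lf (nat_lit 110380) (.g (nat_lit 2814) (.e (nat_lit 5407) (nat_lit 303) (.e (nat_lit 73729) (nat_lit 0) (.e (nat_lit 7266) (nat_lit 384) (.e (nat_lit 57423) (nat_lit 14) (.e (nat_lit 352271) (nat_lit 9) (.e (nat_lit 409602) (nat_lit 0) .nil)))))) (.g (nat_lit 5) .nil .nil)))) (.nd (nat_lit 5) 
(.lf (nat_lit 110364) (.g (nat_lit 1214) (.e (nat_lit 5406) (nat_lit 302) (.e (nat_lit 65653) (nat_lit 27) (.e (nat_lit 426012) (nat_lit 0) (.e (nat_lit 7589) (nat_lit 406) .nil)))) .nil)) 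
(.lf (nat_lit 110396) (.g (nat_lit 435) (.e (nat_lit 5407) (nat_lit 303) (.e (nat_lit 73732) (nat_lit 0) (.e (nat_lit 7147) (nat_lit 382) .nil))) .nil)))))) (.nd (nat_lit 2) (.nd (nat_lit 3) (.nd (nat_lit 4) (.nd (nat_lit 5) 
(.lf (nat_lit 110338) (.g (nat_lit 1839) (.e (nat_lit 5405) (nat_lit 302) (.e (nat_lit 65653) (nat_lit 27) (.e (nat_lit 426011) (nat_lit 0) (.e (nat_lit 7589) (nat_lit 406) (.e (nat_lit 65648) (nat_lit 26) (.e (nat_lit 417793) (nat_lit 0) .nil)))))) (.g (nat_lit 0) .nil .nil))) 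
(.lf (nat_lit 110370) (.g (nat_lit 1603) (.e (nat_lit 5407) (nat_lit 303) (.e (nat_lit 73729) (nat_lit 0) (.e (nat_lit 7125) (nat_lit 382) (.e (nat_lit 1222) (nat_lit 90) .nil)))) .nil))) (.nd (nat_lit 5) 
(.lf (nat_lit 110354) (.g (nat_lit 776) (.e (nat_lit 5406) (nat_lit 302) (.e (nat_lit 65652) (nat_lit 27) (.e (nat_lit 425987) (nat_lit 0) (.e (nat_lit 7586) (nat_lit 406) (.e (nat_lit 65648) (nat_lit 26) (.e (nat_lit 417795) (nat_lit 0) .nil)))))) (.g (nat_lit 6) .nil .nil))) 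
(.lf (nat_lit 110386) (.g (nat_lit 1668) (.e (nat_lit 5407) (nat_lit 303) (.e (nat_lit 73731) (nat_lit 0) (.e (nat_lit 7125) (nat_lit 382) (.e (nat_lit 1224) (nat_lit 90) (.e (nat_lit 89856) (nat_lit 9) (.e (nat_lit 409604) (nat_lit 0) .nil)))))) (.g (nat_lit 4) .nil .nil))))) (.nd (nat_lit 4) (.nd (nat_lit 5) 
(.lf (nat_lit 110346) (.g (nat_lit 1777) (.e (nat_lit 5406) (nat_lit 302) (.e (nat_lit 65569) (nat_lit 3) (.e (nat_lit 98389) (nat_lit 33) (.e (nat_lit 491558) (nat_lit 10) (.e (nat_lit 344115) (nat_lit 20) (.e (nat_lit 507906) (nat_lit 0) .nil)))))) (.g (nat_lit 4) .nil .nil))) 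
(.lf (nat_lit 110378) (.g (nat_lit 1725) (.e (nat_lit 5407) (nat_lit 303) (.e (nat_lit 73729) (nat_lit 0) (.e (nat_lit 7266) (nat_lit 384) (.e (nat_lit 57423) (nat_lit 14) .nil)))) .nil))) (.nd (nat_lit 5) 
(.lf (nat_lit 110362) (.g (nat_lit 1854) (.e (nat_lit 5406) (nat_lit 302) (.e (nat_lit 65653) (nat_lit 27) (.e (nat_lit 426011) (nat_lit 0) (.e (nat_lit 7587) (nat_lit 406) (.e (nat_lit 65648) (nat_lit 26) .nil))))) .nil)) 
(.lf (nat_lit 110394) (.g (nat_lit 1315) (.e (nat_lit 5407) (nat_lit 303) (.e (nat_lit 73731) (nat_lit 0) (.e (nat_lit 7266) (nat_lit 384) (.e (nat_lit 57423) (nat_lit 14) (.e (nat_lit 352272) (nat_lit 10) .nil))))) .nil))))) (.nd (nat_lit 3) (.nd (nat_lit 4) (.nd (nat_lit 5) 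
(.lf (nat_lit 110342) (.g (nat_lit 2011) (.e (nat_lit 5405) (nat_lit 302) (.e (nat_lit 65653) (nat_lit 27) (.e (nat_lit 426012) (nat_lit 0) (.e (nat_lit 7589) (nat_lit 406) (.e (nat_lit 65648) (nat_lit 26) (.e (nat_lit 417795) (nat_lit 0) .nil)))))) (.g (nat_lit 0) .nil .nil))) 
(.lf (nat_lit 110374) (.g (nat_lit 479) (.e (nat_lit 5407) (nat_lit 303) (.e (nat_lit 73729) (nat_lit 0) (.e (nat_lit 7265) (nat_lit 384) .nil))) .nil))) (.nd (nat_lit 5) 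
(.lf (nat_lit 110358) (.g (nat_lit 739) (.e (nat_lit 5406) (nat_lit 302) (.e (nat_lit 65653) (nat_lit 27) (.e (nat_lit 426009) (nat_lit 0) (.e (nat_lit 7587) (nat_lit 406) (.e (nat_lit 65648) (nat_lit 26) .nil))))) .nil)) 
(.lf (nat_lit 110390) (.g (nat_lit 1564) (.e (nat_lit 5407) (nat_lit 303) (.e (nat_lit 73731) (nat_lit 0) (.e (nat_lit 7265) (nat_lit 384) (.e (nat_lit 57423) (nat_lit 14) (.e (nat_lit 352271) (nat_lit 9) (.e (nat_lit 409603) (nat_lit 0) .nil)))))) (.g (nat_lit 5) .nil .nil))))) (.nd (nat_lit 4) (.nd (nat_lit 5) 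
(.lf (nat_lit 110350) (.g (nat_lit 1744) (.e (nat_lit 5406) (nat_lit 302) (.e (nat_lit 65569) (nat_lit 3) (.e (nat_lit 98389) (nat_lit 33) (.e (nat_lit 491560) (nat_lit 10) (.e (nat_lit 344115) (nat_lit 20) .nil))))) .nil)) 
(.lf (nat_lit 110382) (.g (nat_lit 1037) (.e (nat_lit 5407) (nat_lit 303) (.e (nat_lit 73730) (nat_lit 0) (.e (nat_lit 7261) (nat_lit 384) (.e (nat_lit 57423) (nat_lit 14) (.e (nat_lit 352271) (nat_lit 9) (.e (nat_lit 409602) (nat_lit 0) .nil)))))) (.g (nat_lit 4) .nil .nil)))) (.nd (nat_lit 5) 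
(.lf (nat_lit 110366) (.g (nat_lit 2082) (.e (nat_lit 5406) (nat_lit 302) (.e (nat_lit 65653) (nat_lit 27) (.e (nat_lit 426012) (nat_lit 0) (.e (nat_lit 7589) (nat_lit 406) (.e (nat_lit 65648) (nat_lit 26) (.e (nat_lit 417796) (nat_lit 0) .nil)))))) (.g (nat_lit 6) .nil .nil))) 
(.lf (nat_lit 110398) (.g (nat_lit 1749) (.e (nat_lit 5407) (nat_lit 303) (.e (nat_lit 73732) (nat_lit 0) (.e (nat_lit 7270) (nat_lit 385) (.e (nat_lit 122916) (nat_lit 14) (.e (nat_lit 352271) (nat_lit 9) .nil))))) .nil))))))) (.nd (nat_lit 1) (.nd (nat_lit 2) (.nd (nat_lit 3) (.nd (nat_lit 4) (.nd (nat_lit 5) 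
(.lf (nat_lit 110337) (.g (nat_lit 2193) (.e (nat_lit 5405) (nat_lit 302) (.e (nat_lit 65653) (nat_lit 27) (.e (nat_lit 426011) (nat_lit 0) (.e (nat_lit 7587) (nat_lit 406) (.e (nat_lit 65648) (nat_lit 26) (.e (nat_lit 417795) (nat_lit 0) .nil)))))) (.g (nat_lit 0) .nil .nil))) 
(.lf (nat_lit 110369) (.g (nat_lit 1491) (.e (nat_lit 7936) (nat_lit 302) (.e (nat_lit 65571) (nat_lit 3) (.e (nat_lit 98350) (nat_lit 24) (.e (nat_lit 409649) (nat_lit 18) .nil)))) .nil))) (.nd (nat_lit 5) 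
(.lf (nat_lit 110353) (.g (nat_lit 819) (.e (nat_lit 5406) (nat_lit 302) (.e (nat_lit 65652) (nat_lit 27) (.e (nat_lit 425984) (nat_lit 0) (.e (nat_lit 7586) (nat_lit 406) (.e (nat_lit 65648) (nat_lit 26) (.e (nat_lit 417795) (nat_lit 0) .nil)))))) (.g (nat_lit 6) .nil .nil))) 
(.lf (nat_lit 110385) (.g (nat_lit 1653) (.e (nat_lit 5407) (nat_lit 303) (.e (nat_lit 73731) (nat_lit 0) (.e (nat_lit 7125) (nat_lit 382) (.e (nat_lit 1224) (nat_lit 90) (.e (nat_lit 89856) (nat_lit 9) .nil))))) .nil)))) (.nd (nat_lit 4) (.nd (nat_lit 5) 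
(.lf (nat_lit 110345) (.g (nat_lit 479) (.e (nat_lit 5406) (nat_lit 302) (.e (nat_lit 65569) (nat_lit 3) (.e (nat_lit 98320) (nat_lit 17) .nil))) .nil)) 
(.lf (nat_lit 110377) (.g (nat_lit 2357) (.e (nat_lit 5407) (nat_lit 303) (.e (nat_lit 73729) (nat_lit 0) (.e (nat_lit 7265) (nat_lit 384) (.e (nat_lit 57424) (nat_lit 14) (.e (nat_lit 352271) (nat_lit 9) .nil))))) .nil))) (.nd (nat_lit 5) 
(.lf (nat_lit 110361) (.g (nat_lit 841) (.e (nat_lit 5406) (nat_lit 302) (.e (nat_lit 65653) (nat_lit 27) (.e (nat_lit 426010) (nat_lit 0) (.e (nat_lit 7589) (nat_lit 406) (.e (nat_lit 65648) (nat_lit 26) .nil))))) .nil)) 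
(.lf (nat_lit 110393) (.g (nat_lit 2752) (.e (nat_lit 5407) (nat_lit 303) (.e (nat_lit 73731) (nat_lit 0) (.e (nat_lit 7266) (nat_lit 384) (.e (nat_lit 57423) (nat_lit 14) (.e (nat_lit 352271) (nat_lit 9) (.e (nat_lit 409602) (nat_lit 0) .nil)))))) (.g (nat_lit 0) .nil .nil)))))) (.nd (nat_lit 3) (.nd (nat_lit 4) (.nd (nat_lit 5) 
(.lf (nat_lit 110341) (.g (nat_lit 1764) (.e (nat_lit 5405) (nat_lit 302) (.e (nat_lit 65653) (nat_lit 27) (.e (nat_lit 426012) (nat_lit 0) (.e (nat_lit 7587) (nat_lit 406) (.e (nat_lit 65648) (nat_lit 26) (.e (nat_lit 417795) (nat_lit 0) .nil)))))) (.g (nat_lit 0) .nil .nil))) 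
(.lf (nat_lit 110373) (.g (nat_lit 1847) (.e (nat_lit 5407) (nat_lit 303) (.e (nat_lit 73729) (nat_lit 0) (.e (nat_lit 7263) (nat_lit 384) (.e (nat_lit 57423) (nat_lit 14) (.e (nat_lit 352271) (nat_lit 9) .nil))))) .nil))) (.nd (nat_lit 5) 
(.lf (nat_lit 110357) (.g (nat_lit 758) (.e (nat_lit 5406) (nat_lit 302) (.e (nat_lit 65652) (nat_lit 27) (.e (nat_lit 425990) (nat_lit 0) (.e (nat_lit 7586) (nat_lit 406) (.e (nat_lit 65648) (nat_lit 26) (.e (nat_lit 417795) (nat_lit 0) .nil)))))) (.g (nat_lit 6) .nil .nil))) 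
(.lf (nat_lit 110389) (.g (nat_lit 1417) (.e (nat_lit 5407) (nat_lit 303) (.e (nat_lit 73731) (nat_lit 0) (.e (nat_lit 7265) (nat_lit 384) (.e (nat_lit 57423) (nat_lit 14) (.e (nat_lit 352271) (nat_lit 9) .nil))))) .nil)))) (.nd (nat_lit 4) (.nd (nat_lit 5) 
(.lf (nat_lit 110349) (.g (nat_lit 1945) (.e (nat_lit 5406) (nat_lit 302) (.e (nat_lit 65569) (nat_lit 3) (.e (nat_lit 98389) (nat_lit 33) (.e (nat_lit 491560) (nat_lit 10) (.e (nat_lit 344114) (nat_lit 20) .nil))))) .nil)) 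
(.lf (nat_lit 110381) (.g (nat_lit 1728) (.e (nat_lit 5407) (nat_lit 303) (.e (nat_lit 73729) (nat_lit 0) (.e (nat_lit 7266) (nat_lit 384) (.e (nat_lit 57424) (nat_lit 14) .nil)))) .nil))) (.nd (nat_lit 5) 
(.lf (nat_lit 110365) (.g (nat_lit 1884) (.e (nat_lit 5406) (nat_lit 302) (.e (nat_lit 65653) (nat_lit 27) (.e (nat_lit 426012) (nat_lit 0) (.e (nat_lit 7589) (nat_lit 406) (.e (nat_lit 65648) (nat_lit 26) (.e (nat_lit 417795) (nat_lit 0) .nil)))))) (.g (nat_lit 6) .nil .nil))) 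
(.lf (nat_lit 110397) (.g (nat_lit 1552) (.e (nat_lit 5407) (nat_lit 303) (.e (nat_lit 73732) (nat_lit 0) (.e (nat_lit 7270) (nat_lit 385) (.e (nat_lit 122914) (nat_lit 14) (.e (nat_lit 352271) (nat_lit 9) .nil))))) .nil)))))) (.nd (nat_lit 2) (.nd (nat_lit 3) (.nd (nat_lit 4) (.nd (nat_lit 5) 
(.lf (nat_lit 110339) (.g (nat_lit 2000) (.e (nat_lit 5405) (nat_lit 302) (.e (nat_lit 65653) (nat_lit 27) (.e (nat_lit 426011) (nat_lit 0) (.e (nat_lit 7589) (nat_lit 406) (.e (nat_lit 65648) (nat_lit 26) (.e (nat_lit 417795) (nat_lit 0) .nil)))))) (.g (nat_lit 0) .nil .nil))) 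
(.lf (nat_lit 110371) (.g (nat_lit 1595) (.e (nat_lit 5407) (nat_lit 303) (.e (nat_lit 73729) (nat_lit 0) (.e (nat_lit 7125) (nat_lit 382) (.e (nat_lit 1224) (nat_lit 90) .nil)))) .nil))) (.nd (nat_lit 5) 
(.lf (nat_lit 110355) (.g (nat_lit 804) (.e (nat_lit 5406) (nat_lit 302) (.e (nat_lit 65652) (nat_lit 27) (.e (nat_lit 425989) (nat_lit 0) (.e (nat_lit 7586) (nat_lit 406) (.e (nat_lit 65648) (nat_lit 26) (.e (nat_lit 417795) (nat_lit 0) .nil)))))) (.g (nat_lit 6) .nil .nil))) 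
(.lf (nat_lit 110387) (.g (nat_lit 1653) (.e (nat_lit 5407) (nat_lit 303) (.e (nat_lit 73731) (nat_lit 0) (.e (nat_lit 7125) (nat_lit 382) (.e (nat_lit 1224) (nat_lit 90) (.e (nat_lit 89856) (nat_lit 10) .nil))))) .nil)))) (.nd (nat_lit 4) (.nd (nat_lit 5) 
(.lf (nat_lit 110347) (.g (nat_lit 2702) (.e (nat_lit 5406) (nat_lit 302) (.e (nat_lit 65569) (nat_lit 3) (.e (nat_lit 98389) (nat_lit 33) (.e (nat_lit 491558) (nat_lit 10) (.e (nat_lit 344115) (nat_lit 20) (.e (nat_lit 507907) (nat_lit 0) .nil)))))) (.g (nat_lit 0) .nil .nil))) 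
(.lf (nat_lit 110379) (.g (nat_lit 2650) (.e (nat_lit 5407) (nat_lit 303) (.e (nat_lit 73729) (nat_lit 0) (.e (nat_lit 7266) (nat_lit 384) (.e (nat_lit 57423) (nat_lit 14) (.e (nat_lit 352271) (nat_lit 9) .nil))))) .nil))) (.nd (nat_lit 5) 
(.lf (nat_lit 110363) (.g (nat_lit 1586) (.e (nat_lit 5406) (nat_lit 302) (.e (nat_lit 65653) (nat_lit 27) (.e (nat_lit 426011) (nat_lit 0) (.e (nat_lit 7589) (nat_lit 406) (.e (nat_lit 65648) (nat_lit 26) .nil))))) .nil)) 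
(.lf (nat_lit 110395) (.g (nat_lit 1357) (.e (nat_lit 5407) (nat_lit 303) (.e (nat_lit 73731) (nat_lit 0) (.e (nat_lit 7266) (nat_lit 384) (.e (nat_lit 57424) (nat_lit 14) (.e (nat_lit 352272) (nat_lit 10) .nil))))) .nil))))) (.nd (nat_lit 3) (.nd (nat_lit 4) (.nd (nat_lit 5) 
(.lf (nat_lit 110343) (.g (nat_lit 1692) (.e (nat_lit 5405) (nat_lit 302) (.e (nat_lit 65653) (nat_lit 27) (.e (nat_lit 426343) (nat_lit 14) (.e (nat_lit 491552) (nat_lit 9) (.e (nat_lit 336363) (nat_lit 26) (.e (nat_lit 417794) (nat_lit 0) .nil)))))) (.g (nat_lit 6) .nil .nil))) 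
(.lf (nat_lit 110375) (.g (nat_lit 1852) (.e (nat_lit 5407) (nat_lit 303) (.e (nat_lit 73729) (nat_lit 0) (.e (nat_lit 7265) (nat_lit 384) (.e (nat_lit 57423) (nat_lit 14) (.e (nat_lit 352271) (nat_lit 9) .nil))))) .nil))) (.nd (nat_lit 5) 
(.lf (nat_lit 110359) (.g (nat_lit 713) (.e (nat_lit 5406) (nat_lit 302) (.e (nat_lit 65653) (nat_lit 27) (.e (nat_lit 426009) (nat_lit 0) (.e (nat_lit 7589) (nat_lit 406) (.e (nat_lit 65648) (nat_lit 26) (.e (nat_lit 417795) (nat_lit 0) .nil)))))) (.g (nat_lit 4) .nil .nil))) 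
(.lf (nat_lit 110391) (.g (nat_lit 1933) (.e (nat_lit 5407) (nat_lit 303) (.e (nat_lit 73731) (nat_lit 0) (.e (nat_lit 7265) (nat_lit 384) (.e (nat_lit 57424) (nat_lit 14) (.e (nat_lit 352271) (nat_lit 9) .nil))))) .nil)))) (.nd (nat_lit 4) (.nd (nat_lit 5) 
(.lf (nat_lit 110351) (.g (nat_lit 2681) (.e (nat_lit 5406) (nat_lit 302) (.e (nat_lit 65569) (nat_lit 3) (.e (nat_lit 98389) (nat_lit 33) (.e (nat_lit 491560) (nat_lit 10) (.e (nat_lit 344115) (nat_lit 20) (.e (nat_lit 507907) (nat_lit 0) .nil)))))) (.g (nat_lit 0) .nil .nil))) 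
(.lf (nat_lit 110383) (.g (nat_lit 1636) (.e (nat_lit 5407) (nat_lit 303) (.e (nat_lit 73731) (nat_lit 0) (.e (nat_lit 7125) (nat_lit 382) (.e (nat_lit 1222) (nat_lit 90) (.e (nat_lit 89856) (nat_lit 9) .nil))))) .nil))) (.nd (nat_lit 5) 
(.lf (nat_lit 110367) (.g (nat_lit 1524) (.e (nat_lit 5406) (nat_lit 302) (.e (nat_lit 65653) (nat_lit 27) (.e (nat_lit 426343) (nat_lit 14) (.e (nat_lit 491552) (nat_lit 9) (.e (nat_lit 336363) (nat_lit 26) .nil))))) .nil)) 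
(.lf (nat_lit 110399) (.g (nat_lit 1884) (.e (nat_lit 5407) (nat_lit 303) (.e (nat_lit 73732) (nat_lit 0) (.e (nat_lit 7270) (nat_lit 385) (.e (nat_lit 122916) (nat_lit 14) (.e (nat_lit 352271) (nat_lit 9) (.e (nat_lit 409602) (nat_lit 0) .nil)))))) (.g (nat_lit 4) .nil .nil)))))))))

noncomputable def tv1489 : DT := (.nd (nat_lit 0) (.nd (nat_lit 1) (.nd (nat_lit 2) (.nd (nat_lit 3) (.nd (nat_lit 4) (.nd (nat_lit 5) 
(.lf (nat_lit 110400) (.g (nat_lit 1522) (.e (nat_lit 5407) (nat_lit 303) (.e (nat_lit 73732) (nat_lit 0) (.e (nat_lit 7271) (nat_lit 385) (.e (nat_lit 122914) (nat_lit 14) (.e (nat_lit 352271) (nat_lit 9) .nil))))) .nil)) 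
(.lf (nat_lit 110432) (.g (nat_lit 2362) (.e (nat_lit 5407) (nat_lit 303) (.e (nat_lit 73755) (nat_lit 8) (.e (nat_lit 557087) (nat_lit 11) (.e (nat_lit 24639) (nat_lit 10) (.e (nat_lit 344115) (nat_lit 20) (.e (nat_lit 507908) (nat_lit 0) .nil)))))) (.g (nat_lit 4) .nil .nil)))) (.nd (nat_lit 5) 
(.lf (nat_lit 110416) (.g (nat_lit 1826) (.e (nat_lit 5407) (nat_lit 303) (.e (nat_lit 73733) (nat_lit 0) (.e (nat_lit 7272) (nat_lit 385) (.e (nat_lit 122916) (nat_lit 14) (.e (nat_lit 352271) (nat_lit 9) .nil))))) .nil)) 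
(.lf (nat_lit 110448) (.g (nat_lit 2415) (.e (nat_lit 5407) (nat_lit 303) (.e (nat_lit 73776) (nat_lit 26) (.e (nat_lit 778465) (nat_lit 11) (.e (nat_lit 24665) (nat_lit 14) (.e (nat_lit 409344) (nat_lit 25) .nil))))) .nil)))) (.nd (nat_lit 4) (.nd (nat_lit 5) 
(.lf (nat_lit 110408) (.g (nat_lit 1197) (.e (nat_lit 5407) (nat_lit 303) (.e (nat_lit 73732) (nat_lit 0) (.e (nat_lit 7273) (nat_lit 385) (.e (nat_lit 122914) (nat_lit 14) (.e (nat_lit 352271) (nat_lit 9) (.e (nat_lit 409602) (nat_lit 0) .nil)))))) (.g (nat_lit 4) .nil .nil))) 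
(.lf (nat_lit 110440) (.g (nat_lit 1023) (.e (nat_lit 5407) (nat_lit 303) (.e (nat_lit 73775) (nat_lit 26) (.e (nat_lit 778359) (nat_lit 9) (.e (nat_lit 312) (nat_lit 23) (.e (nat_lit 352271) (nat_lit 9) .nil))))) .nil))) (.nd (nat_lit 5) 
(.lf (nat_lit 110424) (.g (nat_lit 2236) (.e (nat_lit 5407) (nat_lit 303) (.e (nat_lit 73753) (nat_lit 8) (.e (nat_lit 557087) (nat_lit 11) (.e (nat_lit 24639) (nat_lit 10) .nil)))) .nil)) 
(.lf (nat_lit 110456) (.g (nat_lit 2214) (.e (nat_lit 5409) (nat_lit 303) (.e (nat_lit 73729) (nat_lit 0) (.e (nat_lit 7261) (nat_lit 384) (.e (nat_lit 57423) (nat_lit 14) (.e (nat_lit 352272) (nat_lit 10) (.e (nat_lit 417796) (nat_lit 0) .nil)))))) (.g (nat_lit 4) .nil .nil)))))) (.nd (nat_lit 3) (.nd (nat_lit 4) (.nd (nat_lit 5) 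
(.lf (nat_lit 110404) (.g (nat_lit 1556) (.e (nat_lit 5407) (nat_lit 303) (.e (nat_lit 73732) (nat_lit 0) (.e (nat_lit 7272) (nat_lit 385) (.e (nat_lit 122914) (nat_lit 14) (.e (nat_lit 352271) (nat_lit 9) (.e (nat_lit 409602) (nat_lit 0) .nil)))))) (.g (nat_lit 4) .nil .nil))) 
(.lf (nat_lit 110436) (.g (nat_lit 805) (.e (nat_lit 5407) (nat_lit 303) (.e (nat_lit 73772) (nat_lit 24) (.e (nat_lit 761866) (nat_lit 5) (.e (nat_lit 1574) (nat_lit 110) (.e (nat_lit 352271) (nat_lit 9) .nil))))) .nil))) (.nd (nat_lit 5) 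
(.lf (nat_lit 110420) (.g (nat_lit 705) (.e (nat_lit 5407) (nat_lit 303) (.e (nat_lit 73747) (nat_lit 3) (.e (nat_lit 516098) (nat_lit 0) .nil))) .nil)) 
(.lf (nat_lit 110452) (.g (nat_lit 2648) (.e (nat_lit 5409) (nat_lit 303) (.e (nat_lit 73729) (nat_lit 0) (.e (nat_lit 7122) (nat_lit 382) (.e (nat_lit 1222) (nat_lit 90) (.e (nat_lit 89856) (nat_lit 10) (.e (nat_lit 417795) (nat_lit 0) .nil)))))) (.g (nat_lit 4) .nil .nil))))) (.nd (nat_lit 4) (.nd (nat_lit 5) 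
(.lf (nat_lit 110412) (.g (nat_lit 2200) (.e (nat_lit 5407) (nat_lit 303) (.e (nat_lit 73733) (nat_lit 0) (.e (nat_lit 7270) (nat_lit 385) (.e (nat_lit 122916) (nat_lit 14) (.e (nat_lit 352271) (nat_lit 9) .nil))))) .nil)) 
(.lf (nat_lit 110444) (.g (nat_lit 2115) (.e (nat_lit 5407) (nat_lit 303) (.e (nat_lit 73775) (nat_lit 26) (.e (nat_lit 778362) (nat_lit 9) (.e (nat_lit 312) (nat_lit 23) (.e (nat_lit 352271) (nat_lit 9) (.e (nat_lit 409602) (nat_lit 0) .nil)))))) (.g (nat_lit 4) .nil .nil)))) (.nd (nat_lit 5) 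
(.lf (nat_lit 110428) (.g (nat_lit 1540) (.e (nat_lit 5407) (nat_lit 303) (.e (nat_lit 73755) (nat_lit 8) (.e (nat_lit 557066) (nat_lit 9) (.e (nat_lit 321) (nat_lit 24) .nil)))) .nil)) 
(.lf (nat_lit 110460) (.g (nat_lit 2182) (.e (nat_lit 5409) (nat_lit 303) (.e (nat_lit 73729) (nat_lit 0) (.e (nat_lit 7263) (nat_lit 384) (.e (nat_lit 57423) (nat_lit 14) (.e (nat_lit 352272) (nat_lit 10) (.e (nat_lit 417795) (nat_lit 0) .nil)))))) (.g (nat_lit 4) .nil .nil))))))) (.nd (nat_lit 2) (.nd (nat_lit 3) (.nd (nat_lit 4) (.nd (nat_lit 5) 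
(.lf (nat_lit 110402) (.g (nat_lit 1582) (.e (nat_lit 5407) (nat_lit 303) (.e (nat_lit 73732) (nat_lit 0) (.e (nat_lit 7271) (nat_lit 385) (.e (nat_lit 122916) (nat_lit 14) (.e (nat_lit 352271) (nat_lit 9) .nil))))) .nil)) 
(.lf (nat_lit 110434) (.g (nat_lit 2735) (.e (nat_lit 5407) (nat_lit 303) (.e (nat_lit 73755) (nat_lit 8) (.e (nat_lit 557087) (nat_lit 11) (.e (nat_lit 24640) (nat_lit 10) (.e (nat_lit 344115) (nat_lit 20) (.e (nat_lit 507908) (nat_lit 0) .nil)))))) (.g (nat_lit 5) .nil .nil)))) (.nd (nat_lit 5) 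
(.lf (nat_lit 110418) (.g (nat_lit 719) (.e (nat_lit 5407) (nat_lit 303) (.e (nat_lit 73733) (nat_lit 0) (.e (nat_lit 7273) (nat_lit 385) (.e (nat_lit 122914) (nat_lit 14) .nil)))) .nil)) 
(.lf (nat_lit 110450) (.g (nat_lit 670) (.e (nat_lit 5408) (nat_lit 303) (.e (nat_lit 73755) (nat_lit 8) (.e (nat_lit 557087) (nat_lit 11) .nil))) .nil)))) (.nd (nat_lit 4) (.nd (nat_lit 5) 
(.lf (nat_lit 110410) (.g (nat_lit 1896) (.e (nat_lit 5407) (nat_lit 303) (.e (nat_lit 73733) (nat_lit 0) (.e (nat_lit 7270) (nat_lit 385) (.e (nat_lit 122914) (nat_lit 14) (.e (nat_lit 352271) (nat_lit 9) .nil))))) .nil)) 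
(.lf (nat_lit 110442) (.g (nat_lit 1500) (.e (nat_lit 5407) (nat_lit 303) (.e (nat_lit 73775) (nat_lit 26) (.e (nat_lit 778361) (nat_lit 9) (.e (nat_lit 312) (nat_lit 23) (.e (nat_lit 352271) (nat_lit 9) .nil))))) .nil))) (.nd (nat_lit 5) 
(.lf (nat_lit 110426) (.g (nat_lit 2153) (.e (nat_lit 5407) (nat_lit 303) (.e (nat_lit 73753) (nat_lit 8) (.e (nat_lit 557087) (nat_lit 11) (.e (nat_lit 24641) (nat_lit 10) .nil)))) .nil)) 
(.lf (nat_lit 110458) (.g (nat_lit 2291) (.e (nat_lit 5409) (nat_lit 303) (.e (nat_lit 73729) (nat_lit 0) (.e (nat_lit 7261) (nat_lit 384) (.e (nat_lit 57424) (nat_lit 14) (.e (nat_lit 352272) (nat_lit 10) (.e (nat_lit 417796) (nat_lit 0) .nil)))))) (.g (nat_lit 4) .nil .nil)))))) (.nd (nat_lit 3) (.nd (nat_lit 4) (.nd (nat_lit 5) 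
(.lf (nat_lit 110406) (.g (nat_lit 1640) (.e (nat_lit 5407) (nat_lit 303) (.e (nat_lit 73732) (nat_lit 0) (.e (nat_lit 7272) (nat_lit 385) (.e (nat_lit 122916) (nat_lit 14) (.e (nat_lit 352271) (nat_lit 9) (.e (nat_lit 409602) (nat_lit 0) .nil)))))) (.g (nat_lit 4) .nil .nil))) 
(.lf (nat_lit 110438) (.g (nat_lit 424) (.e (nat_lit 5407) (nat_lit 303) (.e (nat_lit 73773) (nat_lit 25) (.e (nat_lit 770055) (nat_lit 5) (.e (nat_lit 1575) (nat_lit 110) .nil)))) .nil))) (.nd (nat_lit 5) 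
(.lf (nat_lit 110422) (.g (nat_lit 2606) (.e (nat_lit 5407) (nat_lit 303) (.e (nat_lit 73747) (nat_lit 3) (.e (nat_lit 516185) (nat_lit 16) (.e (nat_lit 491560) (nat_lit 10) (.e (nat_lit 344115) (nat_lit 20) .nil))))) .nil)) 
(.lf (nat_lit 110454) (.g (nat_lit 589) (.e (nat_lit 5409) (nat_lit 303) (.e (nat_lit 73729) (nat_lit 0) (.e (nat_lit 7124) (nat_lit 382) (.e (nat_lit 1016) (nat_lit 81) .nil)))) .nil)))) (.nd (nat_lit 4) (.nd (nat_lit 5) 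
(.lf (nat_lit 110414) (.g (nat_lit 1009) (.e (nat_lit 5407) (nat_lit 303) (.e (nat_lit 73733) (nat_lit 0) (.e (nat_lit 7271) (nat_lit 385) (.e (nat_lit 122916) (nat_lit 14) .nil)))) .nil)) 
(.lf (nat_lit 110446) (.g (nat_lit 2198) (.e (nat_lit 5407) (nat_lit 303) (.e (nat_lit 73775) (nat_lit 26) (.e (nat_lit 778465) (nat_lit 11) (.e (nat_lit 24665) (nat_lit 14) (.e (nat_lit 409344) (nat_lit 25) .nil))))) .nil))) (.nd (nat_lit 5) 
(.lf (nat_lit 110430) (.g (nat_lit 2259) (.e (nat_lit 5407) (nat_lit 303) (.e (nat_lit 73755) (nat_lit 8) (.e (nat_lit 557087) (nat_lit 11) (.e (nat_lit 24639) (nat_lit 10) (.e (nat_lit 344115) (nat_lit 20) .nil))))) .nil)) 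
(.lf (nat_lit 110462) (.g (nat_lit 2229) (.e (nat_lit 5409) (nat_lit 303) (.e (nat_lit 73729) (nat_lit 0) (.e (nat_lit 7263) (nat_lit 384) (.e (nat_lit 57424) (nat_lit 14) (.e (nat_lit 352272) (nat_lit 10) (.e (nat_lit 417795) (nat_lit 0) .nil)))))) (.g (nat_lit 4) .nil .nil)))))))) (.nd (nat_lit 1) (.nd (nat_lit 2) (.nd (nat_lit 3) (.nd (nat_lit 4) (.nd (nat_lit 5) 
(.lf (nat_lit 110401) (.g (nat_lit 1617) (.e (nat_lit 5407) (nat_lit 303) (.e (nat_lit 73732) (nat_lit 0) (.e (nat_lit 7271) (nat_lit 385) (.e (nat_lit 122914) (nat_lit 14) (.e (nat_lit 352271) (nat_lit 9) (.e (nat_lit 409602) (nat_lit 0) .nil)))))) (.g (nat_lit 4) .nil .nil))) 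
(.lf (nat_lit 110433) (.g (nat_lit 2415) (.e (nat_lit 5407) (nat_lit 303) (.e (nat_lit 73755) (nat_lit 8) (.e (nat_lit 557087) (nat_lit 11) (.e (nat_lit 24640) (nat_lit 10) (.e (nat_lit 344115) (nat_lit 20) .nil))))) .nil))) (.nd (nat_lit 5) 
(.lf (nat_lit 110417) (.g (nat_lit 1885) (.e (nat_lit 5407) (nat_lit 303) (.e (nat_lit 73733) (nat_lit 0) (.e (nat_lit 7272) (nat_lit 385) (.e (nat_lit 122916) (nat_lit 14) (.e (nat_lit 352271) (nat_lit 9) (.e (nat_lit 409603) (nat_lit 0) .nil)))))) (.g (nat_lit 4) .nil .nil))) 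
(.lf (nat_lit 110449) (.g (nat_lit 864) (.e (nat_lit 5408) (nat_lit 303) (.e (nat_lit 73753) (nat_lit 8) (.e (nat_lit 557087) (nat_lit 11) .nil))) .nil)))) (.nd (nat_lit 4) (.nd (nat_lit 5) 
(.lf (nat_lit 110409) (.g (nat_lit 753) (.e (nat_lit 5407) (nat_lit 303) (.e (nat_lit 73733) (nat_lit 0) (.e (nat_lit 7147) (nat_lit 382) (.e (nat_lit 1216) (nat_lit 90) .nil)))) .nil)) 
(.lf (nat_lit 110441) (.g (nat_lit 1029) (.e (nat_lit 5407) (nat_lit 303) (.e (nat_lit 73775) (nat_lit 26) (.e (nat_lit 778360) (nat_lit 9) (.e (nat_lit 312) (nat_lit 23) (.e (nat_lit 352271) (nat_lit 9) .nil))))) .nil))) (.nd (nat_lit 5) 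
(.lf (nat_lit 110425) (.g (nat_lit 3073) (.e (nat_lit 5407) (nat_lit 303) (.e (nat_lit 73753) (nat_lit 8) (.e (nat_lit 557087) (nat_lit 11) (.e (nat_lit 24640) (nat_lit 10) (.e (nat_lit 344115) (nat_lit 20) .nil))))) .nil)) 
(.lf (nat_lit 110457) (.g (nat_lit 1989) (.e (nat_lit 5409) (nat_lit 303) (.e (nat_lit 73729) (nat_lit 0) (.e (nat_lit 7261) (nat_lit 384) (.e (nat_lit 57424) (nat_lit 14) (.e (nat_lit 352272) (nat_lit 10) (.e (nat_lit 417795) (nat_lit 0) .nil)))))) (.g (nat_lit 4) .nil .nil)))))) (.nd (nat_lit 3) (.nd (nat_lit 4) (.nd (nat_lit 5) 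
(.lf (nat_lit 110405) (.g (nat_lit 1637) (.e (nat_lit 5407) (nat_lit 303) (.e (nat_lit 73732) (nat_lit 0) (.e (nat_lit 7272) (nat_lit 385) (.e (nat_lit 122916) (nat_lit 14) (.e (nat_lit 352271) (nat_lit 9) .nil))))) .nil)) 
(.lf (nat_lit 110437) (.g (nat_lit 995) (.e (nat_lit 5407) (nat_lit 303) (.e (nat_lit 73772) (nat_lit 24) (.e (nat_lit 761869) (nat_lit 5) (.e (nat_lit 1574) (nat_lit 110) (.e (nat_lit 352271) (nat_lit 9) .nil))))) .nil))) (.nd (nat_lit 5) 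
(.lf (nat_lit 110421) (.g (nat_lit 1716) (.e (nat_lit 5407) (nat_lit 303) (.e (nat_lit 73747) (nat_lit 3) (.e (nat_lit 516185) (nat_lit 16) (.e (nat_lit 491558) (nat_lit 10) .nil)))) .nil)) 
(.lf (nat_lit 110453) (.g (nat_lit 2403) (.e (nat_lit 5409) (nat_lit 303) (.e (nat_lit 73729) (nat_lit 0) (.e (nat_lit 7122) (nat_lit 382) (.e (nat_lit 1224) (nat_lit 90) (.e (nat_lit 89856) (nat_lit 10) .nil))))) .nil)))) (.nd (nat_lit 4) (.nd (nat_lit 5) 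
(.lf (nat_lit 110413) (.g (nat_lit 2209) (.e (nat_lit 5407) (nat_lit 303) (.e (nat_lit 73733) (nat_lit 0) (.e (nat_lit 7270) (nat_lit 385) (.e (nat_lit 122916) (nat_lit 14) (.e (nat_lit 352271) (nat_lit 9) (.e (nat_lit 409603) (nat_lit 0) .nil)))))) (.g (nat_lit 4) .nil .nil))) 
(.lf (nat_lit 110445) (.g (nat_lit 1661) (.e (nat_lit 5407) (nat_lit 303) (.e (nat_lit 73775) (nat_lit 26) (.e (nat_lit 778464) (nat_lit 11) (.e (nat_lit 24665) (nat_lit 14) (.e (nat_lit 409344) (nat_lit 25) .nil))))) .nil))) (.nd (nat_lit 5) 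
(.lf (nat_lit 110429) (.g (nat_lit 1862) (.e (nat_lit 5407) (nat_lit 303) (.e (nat_lit 73755) (nat_lit 8) (.e (nat_lit 557066) (nat_lit 9) (.e (nat_lit 324) (nat_lit 24) (.e (nat_lit 360464) (nat_lit 2) .nil))))) .nil)) 
(.lf (nat_lit 110461) (.g (nat_lit 2553) (.e (nat_lit 5409) (nat_lit 303) (.e (nat_lit 73729) (nat_lit 0) (.e (nat_lit 7263) (nat_lit 384) (.e (nat_lit 57423) (nat_lit 14) (.e (nat_lit 352272) (nat_lit 10) (.e (nat_lit 417796) (nat_lit 0) .nil)))))) (.g (nat_lit 5) .nil .nil))))))) (.nd (nat_lit 2) (.nd (nat_lit 3) (.nd (nat_lit 4) (.nd (nat_lit 5) 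
(.lf (nat_lit 110403) (.g (nat_lit 1442) (.e (nat_lit 5407) (nat_lit 303) (.e (nat_lit 73732) (nat_lit 0) (.e (nat_lit 7272) (nat_lit 385) (.e (nat_lit 122914) (nat_lit 14) (.e (nat_lit 352271) (nat_lit 9) .nil))))) .nil)) 
(.lf (nat_lit 110435) (.g (nat_lit 2751) (.e (nat_lit 5407) (nat_lit 303) (.e (nat_lit 73755) (nat_lit 8) (.e (nat_lit 557087) (nat_lit 11) (.e (nat_lit 24641) (nat_lit 10) (.e (nat_lit 344115) (nat_lit 20) .nil))))) .nil))) (.nd (nat_lit 5) 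
(.lf (nat_lit 110419) (.g (nat_lit 760) (.e (nat_lit 5407) (nat_lit 303) (.e (nat_lit 73734) (nat_lit 0) (.e (nat_lit 7273) (nat_lit 385) (.e (nat_lit 122914) (nat_lit 14) (.e (nat_lit 352271) (nat_lit 9) (.e (nat_lit 409603) (nat_lit 0) .nil)))))) (.g (nat_lit 4) .nil .nil))) 
(.lf (nat_lit 110451) (.g (nat_lit 1613) (.e (nat_lit 5408) (nat_lit 303) (.e (nat_lit 73755) (nat_lit 8) (.e (nat_lit 557087) (nat_lit 11) (.e (nat_lit 24640) (nat_lit 10) .nil)))) .nil)))) (.nd (nat_lit 4) (.nd (nat_lit 5) 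
(.lf (nat_lit 110411) (.g (nat_lit 2034) (.e (nat_lit 5407) (nat_lit 303) (.e (nat_lit 73733) (nat_lit 0) (.e (nat_lit 7270) (nat_lit 385) (.e (nat_lit 122914) (nat_lit 14) (.e (nat_lit 352271) (nat_lit 9) (.e (nat_lit 409603) (nat_lit 0) .nil)))))) (.g (nat_lit 5) .nil .nil))) 
(.lf (nat_lit 110443) (.g (nat_lit 1988) (.e (nat_lit 5407) (nat_lit 303) (.e (nat_lit 73775) (nat_lit 26) (.e (nat_lit 778362) (nat_lit 9) (.e (nat_lit 312) (nat_lit 23) (.e (nat_lit 352271) (nat_lit 9) .nil))))) .nil))) (.nd (nat_lit 5) 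
(.lf (nat_lit 110427) (.g (nat_lit 1437) (.e (nat_lit 5407) (nat_lit 303) (.e (nat_lit 73755) (nat_lit 8) (.e (nat_lit 557065) (nat_lit 9) (.e (nat_lit 324) (nat_lit 24) .nil)))) .nil)) 
(.lf (nat_lit 110459) (.g (nat_lit 1468) (.e (nat_lit 5409) (nat_lit 303) (.e (nat_lit 73729) (nat_lit 0) (.e (nat_lit 7261) (nat_lit 384) (.e (nat_lit 57425) (nat_lit 14) (.e (nat_lit 352272) (nat_lit 10) (.e (nat_lit 417796) (nat_lit 0) .nil)))))) (.g (nat_lit 4) .nil .nil)))))) (.nd (nat_lit 3) (.nd (nat_lit 4) (.nd (nat_lit 5) 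
(.lf (nat_lit 110407) (.g (nat_lit 1118) (.e (nat_lit 5407) (nat_lit 303) (.e (nat_lit 73732) (nat_lit 0) (.e (nat_lit 7273) (nat_lit 385) (.e (nat_lit 122914) (nat_lit 14) (.e (nat_lit 352271) (nat_lit 9) .nil))))) .nil)) 
(.lf (nat_lit 110439) (.g (nat_lit 622) (.e (nat_lit 5407) (nat_lit 303) (.e (nat_lit 73773) (nat_lit 25) (.e (nat_lit 770074) (nat_lit 10) (.e (nat_lit 89856) (nat_lit 9) .nil)))) .nil))) (.nd (nat_lit 5) 
(.lf (nat_lit 110423) (.g (nat_lit 877) (.e (nat_lit 5407) (nat_lit 303) (.e (nat_lit 73753) (nat_lit 8) (.e (nat_lit 557066) (nat_lit 9) .nil))) .nil)) 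
(.lf (nat_lit 110455) (.g (nat_lit 1883) (.e (nat_lit 5409) (nat_lit 303) (.e (nat_lit 73729) (nat_lit 0) (.e (nat_lit 7261) (nat_lit 384) (.e (nat_lit 57423) (nat_lit 14) (.e (nat_lit 352272) (nat_lit 10) .nil))))) .nil)))) (.nd (nat_lit 4) (.nd (nat_lit 5) 
(.lf (nat_lit 110415) (.g (nat_lit 448) (.e (nat_lit 5407) (nat_lit 303) (.e (nat_lit 73733) (nat_lit 0) (.e (nat_lit 7272) (nat_lit 385) .nil))) .nil)) 
(.lf (nat_lit 110447) (.g (nat_lit 1962) (.e (nat_lit 5407) (nat_lit 303) (.e (nat_lit 73776) (nat_lit 26) (.e (nat_lit 778362) (nat_lit 9) (.e (nat_lit 312) (nat_lit 23) (.e (nat_lit 352271) (nat_lit 9) .nil))))) .nil))) (.nd (nat_lit 5) 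
(.lf (nat_lit 110431) (.g (nat_lit 2807) (.e (nat_lit 5407) (nat_lit 303) (.e (nat_lit 73755) (nat_lit 8) (.e (nat_lit 557087) (nat_lit 11) (.e (nat_lit 24639) (nat_lit 10) (.e (nat_lit 344115) (nat_lit 20) (.e (nat_lit 507907) (nat_lit 0) .nil)))))) (.g (nat_lit 6) .nil .nil))) 
(.lf (nat_lit 110463) (.g (nat_lit 2580) (.e (nat_lit 5409) (nat_lit 303) (.e (nat_lit 73729) (nat_lit 0) (.e (nat_lit 7263) (nat_lit 384) (.e (nat_lit 57424) (nat_lit 14) (.e (nat_lit 352272) (nat_lit 10) (.e (nat_lit 417796) (nat_lit 0) .nil)))))) (.g (nat_lit 5) .nil .nil)))))))))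

noncomputable def tv1490 : DT := (.nd (nat_lit 0) (.nd (nat_lit 1) (.nd (nat_lit 2) (.nd (nat_lit 3) (.nd (nat_lit 4) (.nd (nat_lit 5) 
(.lf (nat_lit 110464) (.g (nat_lit 2654) (.e (nat_lit 5409) (nat_lit 303) (.e (nat_lit 73729) (nat_lit 0) (.e (nat_lit 7265) (nat_lit 384) (.e (nat_lit 57423) (nat_lit 14) (.e (nat_lit 352272) (nat_lit 10) (.e (nat_lit 417795) (nat_lit 0) .nil)))))) (.g (nat_lit 0) .nil .nil))) 
(.lf (nat_lit 110496) (.g (nat_lit 902) (.e (nat_lit 5409) (nat_lit 303) (.e (nat_lit 73747) (nat_lit 3) (.e (nat_lit 516106) (nat_lit 0) .nil))) .nil))) (.nd (nat_lit 5) 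
(.lf (nat_lit 110480) (.g (nat_lit 829) (.e (nat_lit 5409) (nat_lit 303) (.e (nat_lit 73733) (nat_lit 0) (.e (nat_lit 7272) (nat_lit 385) (.e (nat_lit 122914) (nat_lit 14) (.e (nat_lit 360192) (nat_lit 10) .nil))))) .nil)) 
(.lf (nat_lit 110512) (.g (nat_lit 2419) (.e (nat_lit 5409) (nat_lit 303) (.e (nat_lit 73747) (nat_lit 3) (.e (nat_lit 516184) (nat_lit 16) (.e (nat_lit 491560) (nat_lit 10) (.e (nat_lit 344114) (nat_lit 20) .nil))))) .nil)))) (.nd (nat_lit 4) (.nd (nat_lit 5) 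
(.lf (nat_lit 110472) (.g (nat_lit 1513) (.e (nat_lit 5409) (nat_lit 303) (.e (nat_lit 73733) (nat_lit 0) (.e (nat_lit 7270) (nat_lit 385) (.e (nat_lit 122915) (nat_lit 14) (.e (nat_lit 352272) (nat_lit 10) (.e (nat_lit 417795) (nat_lit 0) .nil)))))) (.g (nat_lit 4) .nil .nil))) 
(.lf (nat_lit 110504) (.g (nat_lit 3424) (.e (nat_lit 5409) (nat_lit 303) (.e (nat_lit 73747) (nat_lit 3) (.e (nat_lit 516139) (nat_lit 7) (.e (nat_lit 409641) (nat_lit 17) (.e (nat_lit 294916) (nat_lit 0) .nil))))) .nil))) (.nd (nat_lit 5) 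
(.lf (nat_lit 110488) (.g (nat_lit 1379) (.e (nat_lit 5409) (nat_lit 303) (.e (nat_lit 73744) (nat_lit 2) (.e (nat_lit 507922) (nat_lit 6) (.e (nat_lit 286756) (nat_lit 10) (.e (nat_lit 344115) (nat_lit 20) (.e (nat_lit 507907) (nat_lit 0) .nil)))))) (.g (nat_lit 5) .nil .nil))) 
(.lf (nat_lit 110520) (.g (nat_lit 1221) (.e (nat_lit 5409) (nat_lit 303) (.e (nat_lit 73747) (nat_lit 3) (.e (nat_lit 516191) (nat_lit 17) (.e (nat_lit 6217) (nat_lit 333) .nil)))) .nil))))) (.nd (nat_lit 3) (.nd (nat_lit 4) (.nd (nat_lit 5) 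
(.lf (nat_lit 110468) (.g (nat_lit 399) (.e (nat_lit 5409) (nat_lit 303) (.e (nat_lit 73729) (nat_lit 0) (.e (nat_lit 7265) (nat_lit 384) (.e (nat_lit 57435) (nat_lit 17) .nil)))) .nil)) 
(.lf (nat_lit 110500) (.g (nat_lit 2644) (.e (nat_lit 5409) (nat_lit 303) (.e (nat_lit 73747) (nat_lit 3) (.e (nat_lit 516139) (nat_lit 7) (.e (nat_lit 409616) (nat_lit 10) (.e (nat_lit 5355) (nat_lit 298) .nil))))) .nil))) (.nd (nat_lit 5) 
(.lf (nat_lit 110484) (.g (nat_lit 1138) (.e (nat_lit 5409) (nat_lit 303) (.e (nat_lit 81664) (nat_lit 0) (.e (nat_lit 7125) (nat_lit 382) (.e (nat_lit 1224) (nat_lit 90) (.e (nat_lit 89856) (nat_lit 10) (.e (nat_lit 417795) (nat_lit 0) .nil)))))) (.g (nat_lit 4) .nil .nil))) 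
(.lf (nat_lit 110516) (.g (nat_lit 3183) (.e (nat_lit 5409) (nat_lit 303) (.e (nat_lit 73747) (nat_lit 3) (.e (nat_lit 516185) (nat_lit 16) (.e (nat_lit 491558) (nat_lit 10) (.e (nat_lit 344115) (nat_lit 20) (.e (nat_lit 507908) (nat_lit 0) .nil)))))) (.g (nat_lit 0) .nil .nil))))) (.nd (nat_lit 4) (.nd (nat_lit 5) 
(.lf (nat_lit 110476) (.g (nat_lit 1967) (.e (nat_lit 5409) (nat_lit 303) (.e (nat_lit 73733) (nat_lit 0) (.e (nat_lit 7270) (nat_lit 385) (.e (nat_lit 122916) (nat_lit 14) (.e (nat_lit 360192) (nat_lit 10) (.e (nat_lit 417796) (nat_lit 0) .nil)))))) (.g (nat_lit 4) .nil .nil))) 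
(.lf (nat_lit 110508) (.g (nat_lit 2447) (.e (nat_lit 5409) (nat_lit 303) (.e (nat_lit 73747) (nat_lit 3) (.e (nat_lit 516183) (nat_lit 16) (.e (nat_lit 491558) (nat_lit 10) (.e (nat_lit 344115) (nat_lit 20) .nil))))) .nil))) (.nd (nat_lit 5) 
(.lf (nat_lit 110492) (.g (nat_lit 2974) (.e (nat_lit 5409) (nat_lit 303) (.e (nat_lit 73747) (nat_lit 3) (.e (nat_lit 516097) (nat_lit 0) (.e (nat_lit 7591) (nat_lit 407) (.e (nat_lit 73744) (nat_lit 2) (.e (nat_lit 507907) (nat_lit 0) .nil)))))) (.g (nat_lit 6) .nil .nil))) 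
(.lf (nat_lit 110524) (.g (nat_lit 1896) (.e (nat_lit 5409) (nat_lit 303) (.e (nat_lit 73751) (nat_lit 7) (.e (nat_lit 548889) (nat_lit 9) (.e (nat_lit 65617) (nat_lit 10) (.e (nat_lit 344115) (nat_lit 20) (.e (nat_lit 507908) (nat_lit 0) .nil)))))) (.g (nat_lit 5) .nil .nil))))))) (.nd (nat_lit 2) (.nd (nat_lit 3) (.nd (nat_lit 4) (.nd (nat_lit 5) 
(.lf (nat_lit 110466) (.g (nat_lit 2846) (.e (nat_lit 5409) (nat_lit 303) (.e (nat_lit 73729) (nat_lit 0) (.e (nat_lit 7265) (nat_lit 384) (.e (nat_lit 57424) (nat_lit 14) (.e (nat_lit 352272) (nat_lit 10) (.e (nat_lit 417795) (nat_lit 0) .nil)))))) (.g (nat_lit 6) .nil .nil))) 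
(.lf (nat_lit 110498) (.g (nat_lit 776) (.e (nat_lit 5409) (nat_lit 303) (.e (nat_lit 73747) (nat_lit 3) (.e (nat_lit 516139) (nat_lit 7) .nil))) .nil))) (.nd (nat_lit 5) 
(.lf (nat_lit 110482) (.g (nat_lit 2586) (.e (nat_lit 5409) (nat_lit 303) (.e (nat_lit 73733) (nat_lit 0) (.e (nat_lit 7272) (nat_lit 385) (.e (nat_lit 122916) (nat_lit 14) (.e (nat_lit 352272) (nat_lit 10) (.e (nat_lit 417796) (nat_lit 0) .nil)))))) (.g (nat_lit 0) .nil .nil))) 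
(.lf (nat_lit 110514) (.g (nat_lit 3330) (.e (nat_lit 5409) (nat_lit 303) (.e (nat_lit 73747) (nat_lit 3) (.e (nat_lit 516184) (nat_lit 16) (.e (nat_lit 491560) (nat_lit 10) (.e (nat_lit 344115) (nat_lit 20) (.e (nat_lit 507908) (nat_lit 0) .nil)))))) (.g (nat_lit 6) .nil .nil))))) (.nd (nat_lit 4) (.nd (nat_lit 5) 
(.lf (nat_lit 110474) (.g (nat_lit 2879) (.e (nat_lit 5409) (nat_lit 303) (.e (nat_lit 73733) (nat_lit 0) (.e (nat_lit 7270) (nat_lit 385) (.e (nat_lit 122916) (nat_lit 14) (.e (nat_lit 352272) (nat_lit 10) (.e (nat_lit 417796) (nat_lit 0) .nil)))))) (.g (nat_lit 6) .nil .nil))) 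
(.lf (nat_lit 110506) (.g (nat_lit 1183) (.e (nat_lit 5409) (nat_lit 303) (.e (nat_lit 73747) (nat_lit 3) (.e (nat_lit 516146) (nat_lit 9) (.e (nat_lit 426448) (nat_lit 20) .nil)))) .nil))) (.nd (nat_lit 5) 
(.lf (nat_lit 110490) (.g (nat_lit 2003) (.e (nat_lit 5409) (nat_lit 303) (.e (nat_lit 73747) (nat_lit 3) (.e (nat_lit 516096) (nat_lit 0) (.e (nat_lit 7593) (nat_lit 407) (.e (nat_lit 73744) (nat_lit 2) (.e (nat_lit 507907) (nat_lit 0) .nil)))))) (.g (nat_lit 4) .nil .nil))) 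
(.lf (nat_lit 110522) (.g (nat_lit 820) (.e (nat_lit 5409) (nat_lit 303) (.e (nat_lit 73751) (nat_lit 7) (.e (nat_lit 548874) (nat_lit 5) (.e (nat_lit 1592) (nat_lit 111) (.e (nat_lit 360464) (nat_lit 2) .nil))))) .nil))))) (.nd (nat_lit 3) (.nd (nat_lit 4) (.nd (nat_lit 5) 
(.lf (nat_lit 110470) (.g (nat_lit 2570) (.e (nat_lit 5409) (nat_lit 303) (.e (nat_lit 73733) (nat_lit 0) (.e (nat_lit 7270) (nat_lit 385) (.e (nat_lit 122914) (nat_lit 14) (.e (nat_lit 352272) (nat_lit 10) (.e (nat_lit 417795) (nat_lit 0) .nil)))))) (.g (nat_lit 6) .nil .nil))) 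
(.lf (nat_lit 110502) (.g (nat_lit 2543) (.e (nat_lit 5409) (nat_lit 303) (.e (nat_lit 73747) (nat_lit 3) (.e (nat_lit 516139) (nat_lit 7) (.e (nat_lit 409617) (nat_lit 10) (.e (nat_lit 5353) (nat_lit 298) .nil))))) .nil))) (.nd (nat_lit 5) 
(.lf (nat_lit 110486) (.g (nat_lit 1234) (.e (nat_lit 5409) (nat_lit 303) (.e (nat_lit 73744) (nat_lit 2) (.e (nat_lit 507906) (nat_lit 0) (.e (nat_lit 5412) (nat_lit 303) (.e (nat_lit 73744) (nat_lit 2) (.e (nat_lit 507908) (nat_lit 0) .nil)))))) (.g (nat_lit 6) .nil .nil))) 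
(.lf (nat_lit 110518) (.g (nat_lit 3331) (.e (nat_lit 5409) (nat_lit 303) (.e (nat_lit 73747) (nat_lit 3) (.e (nat_lit 516185) (nat_lit 16) (.e (nat_lit 491560) (nat_lit 10) (.e (nat_lit 344115) (nat_lit 20) (.e (nat_lit 507908) (nat_lit 0) .nil)))))) (.g (nat_lit 0) .nil .nil))))) (.nd (nat_lit 4) (.nd (nat_lit 5) 
(.lf (nat_lit 110478) (.g (nat_lit 2143) (.e (nat_lit 5409) (nat_lit 303) (.e (nat_lit 73733) (nat_lit 0) (.e (nat_lit 7272) (nat_lit 385) (.e (nat_lit 122914) (nat_lit 14) (.e (nat_lit 352272) (nat_lit 10) (.e (nat_lit 417795) (nat_lit 0) .nil)))))) (.g (nat_lit 0) .nil .nil))) 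
(.lf (nat_lit 110510) (.g (nat_lit 3048) (.e (nat_lit 5409) (nat_lit 303) (.e (nat_lit 73747) (nat_lit 3) (.e (nat_lit 516184) (nat_lit 16) (.e (nat_lit 491558) (nat_lit 10) (.e (nat_lit 344115) (nat_lit 20) (.e (nat_lit 507907) (nat_lit 0) .nil)))))) (.g (nat_lit 0) .nil .nil)))) (.nd (nat_lit 5) 
(.lf (nat_lit 110494) (.g (nat_lit 2336) (.e (nat_lit 5409) (nat_lit 303) (.e (nat_lit 73747) (nat_lit 3) (.e (nat_lit 516098) (nat_lit 0) (.e (nat_lit 7591) (nat_lit 407) (.e (nat_lit 73744) (nat_lit 2) (.e (nat_lit 507907) (nat_lit 0) .nil)))))) (.g (nat_lit 0) .nil .nil))) 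
(.lf (nat_lit 110526) (.g (nat_lit 1899) (.e (nat_lit 5409) (nat_lit 303) (.e (nat_lit 73751) (nat_lit 7) (.e (nat_lit 548889) (nat_lit 9) (.e (nat_lit 65620) (nat_lit 10) (.e (nat_lit 344115) (nat_lit 20) (.e (nat_lit 507908) (nat_lit 0) .nil)))))) (.g (nat_lit 0) .nil .nil)))))))) (.nd (nat_lit 1) (.nd (nat_lit 2) (.nd (nat_lit 3) (.nd (nat_lit 4) (.nd (nat_lit 5) 
(.lf (nat_lit 110465) (.g (nat_lit 3025) (.e (nat_lit 5409) (nat_lit 303) (.e (nat_lit 73729) (nat_lit 0) (.e (nat_lit 7265) (nat_lit 384) (.e (nat_lit 57423) (nat_lit 14) (.e (nat_lit 352272) (nat_lit 10) (.e (nat_lit 417796) (nat_lit 0) .nil)))))) (.g (nat_lit 0) .nil .nil))) 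
(.lf (nat_lit 110497) (.g (nat_lit 1906) (.e (nat_lit 5409) (nat_lit 303) (.e (nat_lit 73747) (nat_lit 3) (.e (nat_lit 516106) (nat_lit 0) (.e (nat_lit 7936) (nat_lit 402) .nil)))) .nil))) (.nd (nat_lit 5) 
(.lf (nat_lit 110481) (.g (nat_lit 2283) (.e (nat_lit 5409) (nat_lit 303) (.e (nat_lit 73733) (nat_lit 0) (.e (nat_lit 7272) (nat_lit 385) (.e (nat_lit 122916) (nat_lit 14) (.e (nat_lit 352272) (nat_lit 10) (.e (nat_lit 417795) (nat_lit 0) .nil)))))) (.g (nat_lit 0) .nil .nil))) 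
(.lf (nat_lit 110513) (.g (nat_lit 3375) (.e (nat_lit 5409) (nat_lit 303) (.e (nat_lit 73747) (nat_lit 3) (.e (nat_lit 516184) (nat_lit 16) (.e (nat_lit 491560) (nat_lit 10) (.e (nat_lit 344115) (nat_lit 20) (.e (nat_lit 507907) (nat_lit 0) .nil)))))) (.g (nat_lit 6) .nil .nil))))) (.nd (nat_lit 4) (.nd (nat_lit 5) 
(.lf (nat_lit 110473) (.g (nat_lit 2574) (.e (nat_lit 5409) (nat_lit 303) (.e (nat_lit 73733) (nat_lit 0) (.e (nat_lit 7270) (nat_lit 385) (.e (nat_lit 122916) (nat_lit 14) (.e (nat_lit 352272) (nat_lit 10) (.e (nat_lit 417795) (nat_lit 0) .nil)))))) (.g (nat_lit 5) .nil .nil))) 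
(.lf (nat_lit 110505) (.g (nat_lit 2433) (.e (nat_lit 5409) (nat_lit 303) (.e (nat_lit 73747) (nat_lit 3) (.e (nat_lit 516139) (nat_lit 7) (.e (nat_lit 409642) (nat_lit 17) .nil)))) .nil))) (.nd (nat_lit 5) 
(.lf (nat_lit 110489) (.g (nat_lit 1359) (.e (nat_lit 5409) (nat_lit 303) (.e (nat_lit 73744) (nat_lit 2) (.e (nat_lit 507922) (nat_lit 6) (.e (nat_lit 286756) (nat_lit 10) (.e (nat_lit 344115) (nat_lit 20) (.e (nat_lit 507908) (nat_lit 0) .nil)))))) (.g (nat_lit 5) .nil .nil))) 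
(.lf (nat_lit 110521) (.g (nat_lit 875) (.e (nat_lit 5409) (nat_lit 303) (.e (nat_lit 73747) (nat_lit 3) (.e (nat_lit 516195) (nat_lit 26) .nil))) .nil))))) (.nd (nat_lit 3) (.nd (nat_lit 4) (.nd (nat_lit 5) 
(.lf (nat_lit 110469) (.g (nat_lit 1654) (.e (nat_lit 5409) (nat_lit 303) (.e (nat_lit 73731) (nat_lit 0) (.e (nat_lit 7122) (nat_lit 382) (.e (nat_lit 1222) (nat_lit 90) (.e (nat_lit 89856) (nat_lit 10) .nil))))) .nil)) 
(.lf (nat_lit 110501) (.g (nat_lit 2479) (.e (nat_lit 5409) (nat_lit 303) (.e (nat_lit 73747) (nat_lit 3) (.e (nat_lit 516139) (nat_lit 7) (.e (nat_lit 409616) (nat_lit 10) (.e (nat_lit 7936) (nat_lit 304) (.e (nat_lit 122933) (nat_lit 22) (.e (nat_lit 507908) (nat_lit 0) .nil))))))) (.g (nat_lit 4) .nil .nil)))) (.nd (nat_lit 5) 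
(.lf (nat_lit 110485) (.g (nat_lit 881) (.e (nat_lit 5409) (nat_lit 303) (.e (nat_lit 81664) (nat_lit 0) (.e (nat_lit 7237) (nat_lit 382) (.e (nat_lit 1219) (nat_lit 90) (.e (nat_lit 89856) (nat_lit 10) (.e (nat_lit 417795) (nat_lit 0) .nil)))))) (.g (nat_lit 4) .nil .nil))) 
(.lf (nat_lit 110517) (.g (nat_lit 3358) (.e (nat_lit 5409) (nat_lit 303) (.e (nat_lit 73747) (nat_lit 3) (.e (nat_lit 516185) (nat_lit 16) (.e (nat_lit 491560) (nat_lit 10) (.e (nat_lit 344115) (nat_lit 20) (.e (nat_lit 507907) (nat_lit 0) .nil)))))) (.g (nat_lit 0) .nil .nil))))) (.nd (nat_lit 4) (.nd (nat_lit 5) 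
(.lf (nat_lit 110477) (.g (nat_lit 680) (.e (nat_lit 5409) (nat_lit 303) (.e (nat_lit 73733) (nat_lit 0) (.e (nat_lit 7271) (nat_lit 385) .nil))) .nil)) 
(.lf (nat_lit 110509) (.g (nat_lit 2580) (.e (nat_lit 5409) (nat_lit 303) (.e (nat_lit 73747) (nat_lit 3) (.e (nat_lit 516183) (nat_lit 16) (.e (nat_lit 491560) (nat_lit 10) (.e (nat_lit 344115) (nat_lit 20) .nil))))) .nil))) (.nd (nat_lit 5) 
(.lf (nat_lit 110493) (.g (nat_lit 3034) (.e (nat_lit 5409) (nat_lit 303) (.e (nat_lit 73747) (nat_lit 3) (.e (nat_lit 516097) (nat_lit 0) (.e (nat_lit 7591) (nat_lit 407) (.e (nat_lit 73744) (nat_lit 2) (.e (nat_lit 507908) (nat_lit 0) .nil)))))) (.g (nat_lit 6) .nil .nil))) 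
(.lf (nat_lit 110525) (.g (nat_lit 1941) (.e (nat_lit 5409) (nat_lit 303) (.e (nat_lit 73751) (nat_lit 7) (.e (nat_lit 548889) (nat_lit 9) (.e (nat_lit 65620) (nat_lit 10) (.e (nat_lit 344115) (nat_lit 20) (.e (nat_lit 507907) (nat_lit 0) .nil)))))) (.g (nat_lit 0) .nil .nil))))))) (.nd (nat_lit 2) (.nd (nat_lit 3) (.nd (nat_lit 4) (.nd (nat_lit 5) 
(.lf (nat_lit 110467) (.g (nat_lit 1830) (.e (nat_lit 5409) (nat_lit 303) (.e (nat_lit 73729) (nat_lit 0) (.e (nat_lit 7265) (nat_lit 384) (.e (nat_lit 57425) (nat_lit 14) (.e (nat_lit 352272) (nat_lit 10) (.e (nat_lit 417795) (nat_lit 0) .nil)))))) (.g (nat_lit 6) .nil .nil))) 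
(.lf (nat_lit 110499) (.g (nat_lit 1399) (.e (nat_lit 5409) (nat_lit 303) (.e (nat_lit 73747) (nat_lit 3) (.e (nat_lit 516139) (nat_lit 7) (.e (nat_lit 409616) (nat_lit 10) .nil)))) .nil))) (.nd (nat_lit 5) 
(.lf (nat_lit 110483) (.g (nat_lit 2207) (.e (nat_lit 5409) (nat_lit 303) (.e (nat_lit 73733) (nat_lit 0) (.e (nat_lit 7273) (nat_lit 385) (.e (nat_lit 122914) (nat_lit 14) (.e (nat_lit 352272) (nat_lit 10) (.e (nat_lit 417796) (nat_lit 0) .nil)))))) (.g (nat_lit 0) .nil .nil))) 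
(.lf (nat_lit 110515) (.g (nat_lit 3214) (.e (nat_lit 5409) (nat_lit 303) (.e (nat_lit 73747) (nat_lit 3) (.e (nat_lit 516185) (nat_lit 16) (.e (nat_lit 491558) (nat_lit 10) (.e (nat_lit 344115) (nat_lit 20) (.e (nat_lit 507907) (nat_lit 0) .nil)))))) (.g (nat_lit 0) .nil .nil))))) (.nd (nat_lit 4) (.nd (nat_lit 5) 
(.lf (nat_lit 110475) (.g (nat_lit 1662) (.e (nat_lit 5409) (nat_lit 303) (.e (nat_lit 73733) (nat_lit 0) (.e (nat_lit 7270) (nat_lit 385) (.e (nat_lit 122916) (nat_lit 14) (.e (nat_lit 360192) (nat_lit 10) .nil))))) .nil)) 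
(.lf (nat_lit 110507) (.g (nat_lit 2005) (.e (nat_lit 5409) (nat_lit 303) (.e (nat_lit 73747) (nat_lit 3) (.e (nat_lit 516171) (nat_lit 13) (.e (nat_lit 458774) (nat_lit 18) (.e (nat_lit 5224) (nat_lit 296) (.e (nat_lit 163868) (nat_lit 2) (.e (nat_lit 196691) (nat_lit 18) (.e (nat_lit 1015) (nat_lit 81) .nil)))))))) (.g (nat_lit 5) .nil .nil)))) (.nd (nat_lit 5) 
(.lf (nat_lit 110491) (.g (nat_lit 2061) (.e (nat_lit 5409) (nat_lit 303) (.e (nat_lit 73747) (nat_lit 3) (.e (nat_lit 516096) (nat_lit 0) (.e (nat_lit 7593) (nat_lit 407) (.e (nat_lit 73744) (nat_lit 2) (.e (nat_lit 507908) (nat_lit 0) .nil)))))) (.g (nat_lit 4) .nil .nil))) 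
(.lf (nat_lit 110523) (.g (nat_lit 1969) (.e (nat_lit 5409) (nat_lit 303) (.e (nat_lit 73751) (nat_lit 7) (.e (nat_lit 548889) (nat_lit 9) (.e (nat_lit 65617) (nat_lit 10) (.e (nat_lit 344115) (nat_lit 20) (.e (nat_lit 507907) (nat_lit 0) .nil)))))) (.g (nat_lit 5) .nil .nil)))))) (.nd (nat_lit 3) (.nd (nat_lit 4) (.nd (nat_lit 5) 
(.lf (nat_lit 110471) (.g (nat_lit 1344) (.e (nat_lit 5409) (nat_lit 303) (.e (nat_lit 73733) (nat_lit 0) (.e (nat_lit 7270) (nat_lit 385) (.e (nat_lit 122914) (nat_lit 14) (.e (nat_lit 360192) (nat_lit 10) .nil))))) .nil)) 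
(.lf (nat_lit 110503) (.g (nat_lit 2946) (.e (nat_lit 5409) (nat_lit 303) (.e (nat_lit 73747) (nat_lit 3) (.e (nat_lit 516139) (nat_lit 7) (.e (nat_lit 409617) (nat_lit 10) (.e (nat_lit 5355) (nat_lit 298) (.e (nat_lit 1011) (nat_lit 81) (.e (nat_lit 1773) (nat_lit 118) (.e (nat_lit 507908) (nat_lit 0) .nil)))))))) (.g (nat_lit 4) .nil .nil)))) (.nd (nat_lit 5) 
(.lf (nat_lit 110487) (.g (nat_lit 1479) (.e (nat_lit 5409) (nat_lit 303) (.e (nat_lit 73744) (nat_lit 2) (.e (nat_lit 507921) (nat_lit 6) (.e (nat_lit 286756) (nat_lit 10) (.e (nat_lit 344115) (nat_lit 20) (.e (nat_lit 507908) (nat_lit 0) .nil)))))) (.g (nat_lit 5) .nil .nil))) 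
(.lf (nat_lit 110519) (.g (nat_lit 1206) (.e (nat_lit 5409) (nat_lit 303) (.e (nat_lit 73747) (nat_lit 3) (.e (nat_lit 516191) (nat_lit 17) (.e (nat_lit 6209) (nat_lit 333) .nil)))) .nil)))) (.nd (nat_lit 4) (.nd (nat_lit 5) 
(.lf (nat_lit 110479) (.g (nat_lit 2461) (.e (nat_lit 5409) (nat_lit 303) (.e (nat_lit 73733) (nat_lit 0) (.e (nat_lit 7272) (nat_lit 385) (.e (nat_lit 122914) (nat_lit 14) (.e (nat_lit 352272) (nat_lit 10) (.e (nat_lit 417796) (nat_lit 0) .nil)))))) (.g (nat_lit 0) .nil .nil))) 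
(.lf (nat_lit 110511) (.g (nat_lit 3000) (.e (nat_lit 5409) (nat_lit 303) (.e (nat_lit 73747) (nat_lit 3) (.e (nat_lit 516184) (nat_lit 16) (.e (nat_lit 491558) (nat_lit 10) (.e (nat_lit 344115) (nat_lit 20) (.e (nat_lit 507908) (nat_lit 0) .nil)))))) (.g (nat_lit 6) .nil .nil)))) (.nd (nat_lit 5) 
(.lf (nat_lit 110495) (.g (nat_lit 1328) (.e (nat_lit 5409) (nat_lit 303) (.e (nat_lit 73747) (nat_lit 3) (.e (nat_lit 516102) (nat_lit 0) (.e (nat_lit 7107) (nat_lit 380) .nil)))) .nil)) 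
(.lf (nat_lit 110527) (.g (nat_lit 2333) (.e (nat_lit 5409) (nat_lit 303) (.e (nat_lit 73753) (nat_lit 8) (.e (nat_lit 557065) (nat_lit 9) (.e (nat_lit 321) (nat_lit 24) (.e (nat_lit 360464) (nat_lit 2) (.e (nat_lit 507907) (nat_lit 0) .nil)))))) (.g (nat_lit 4) .nil .nil)))))))))

noncomputable def tv1491 : DT := (.nd (nat_lit 0) (.nd (nat_lit 1) (.nd (nat_lit 2) (.nd (nat_lit 3) (.nd (nat_lit 4) (.nd (nat_lit 5) 
(.lf (nat_lit 110528) (.g (nat_lit 2374) (.e (nat_lit 5409) (nat_lit 303) (.e (nat_lit 73753) (nat_lit 8) (.e (nat_lit 557065) (nat_lit 9) (.e (nat_lit 321) (nat_lit 24) (.e (nat_lit 360464) (nat_lit 2) (.e (nat_lit 507908) (nat_lit 0) .nil)))))) (.g (nat_lit 4) .nil .nil))) 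
(.lf (nat_lit 110560) (.g (nat_lit 452) (.e (nat_lit 5409) (nat_lit 303) (.e (nat_lit 73775) (nat_lit 26) (.e (nat_lit 778466) (nat_lit 11) .nil))) .nil))) (.nd (nat_lit 5) 
(.lf (nat_lit 110544) (.g (nat_lit 1715) (.e (nat_lit 5409) (nat_lit 303) (.e (nat_lit 73755) (nat_lit 8) (.e (nat_lit 557065) (nat_lit 9) (.e (nat_lit 324) (nat_lit 24) (.e (nat_lit 360464) (nat_lit 2) .nil))))) .nil)) 
(.lf (nat_lit 110576) (.g (nat_lit 1712) (.e (nat_lit 5410) (nat_lit 303) (.e (nat_lit 73729) (nat_lit 0) (.e (nat_lit 7266) (nat_lit 384) (.e (nat_lit 57423) (nat_lit 14) (.e (nat_lit 352272) (nat_lit 10) (.e (nat_lit 417794) (nat_lit 0) .nil)))))) (.g (nat_lit 4) .nil .nil))))) (.nd (nat_lit 4) (.nd (nat_lit 5) 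
(.lf (nat_lit 110536) (.g (nat_lit 1759) (.e (nat_lit 5409) (nat_lit 303) (.e (nat_lit 73753) (nat_lit 8) (.e (nat_lit 557086) (nat_lit 11) (.e (nat_lit 24641) (nat_lit 10) (.e (nat_lit 344115) (nat_lit 20) (.e (nat_lit 507908) (nat_lit 0) .nil)))))) (.g (nat_lit 4) .nil .nil))) 
(.lf (nat_lit 110568) (.g (nat_lit 1936) (.e (nat_lit 5409) (nat_lit 303) (.e (nat_lit 73776) (nat_lit 26) (.e (nat_lit 778362) (nat_lit 9) (.e (nat_lit 314) (nat_lit 23) (.e (nat_lit 360192) (nat_lit 10) .nil))))) .nil))) (.nd (nat_lit 5) 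
(.lf (nat_lit 110552) (.g (nat_lit 1272) (.e (nat_lit 5409) (nat_lit 303) (.e (nat_lit 73773) (nat_lit 25) (.e (nat_lit 770058) (nat_lit 5) (.e (nat_lit 1572) (nat_lit 110) (.e (nat_lit 352272) (nat_lit 10) (.e (nat_lit 417795) (nat_lit 0) .nil)))))) (.g (nat_lit 4) .nil .nil))) 
(.lf (nat_lit 110584) (.g (nat_lit 419) (.e (nat_lit 5410) (nat_lit 303) (.e (nat_lit 73732) (nat_lit 0) (.e (nat_lit 7273) (nat_lit 385) .nil))) .nil))))) (.nd (nat_lit 3) (.nd (nat_lit 4) (.nd (nat_lit 5) 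
(.lf (nat_lit 110532) (.g (nat_lit 2199) (.e (nat_lit 5409) (nat_lit 303) (.e (nat_lit 73753) (nat_lit 8) (.e (nat_lit 557085) (nat_lit 11) (.e (nat_lit 24641) (nat_lit 10) (.e (nat_lit 344115) (nat_lit 20) .nil))))) .nil)) 
(.lf (nat_lit 110564) (.g (nat_lit 1749) (.e (nat_lit 5409) (nat_lit 303) (.e (nat_lit 73775) (nat_lit 26) (.e (nat_lit 778466) (nat_lit 11) (.e (nat_lit 24651) (nat_lit 12) .nil)))) .nil))) (.nd (nat_lit 5) 
(.lf (nat_lit 110548) (.g (nat_lit 2640) (.e (nat_lit 5409) (nat_lit 303) (.e (nat_lit 73755) (nat_lit 8) (.e (nat_lit 557087) (nat_lit 11) (.e (nat_lit 24641) (nat_lit 10) (.e (nat_lit 344115) (nat_lit 20) (.e (nat_lit 507907) (nat_lit 0) .nil)))))) (.g (nat_lit 4) .nil .nil))) 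
(.lf (nat_lit 110580) (.g (nat_lit 1742) (.e (nat_lit 5410) (nat_lit 303) (.e (nat_lit 73729) (nat_lit 0) (.e (nat_lit 7266) (nat_lit 384) (.e (nat_lit 57424) (nat_lit 14) (.e (nat_lit 352272) (nat_lit 10) (.e (nat_lit 417794) (nat_lit 0) .nil)))))) (.g (nat_lit 4) .nil .nil))))) (.nd (nat_lit 4) (.nd (nat_lit 5) 
(.lf (nat_lit 110540) (.g (nat_lit 3143) (.e (nat_lit 5409) (nat_lit 303) (.e (nat_lit 73753) (nat_lit 8) (.e (nat_lit 557087) (nat_lit 11) (.e (nat_lit 24640) (nat_lit 10) (.e (nat_lit 344115) (nat_lit 20) (.e (nat_lit 507908) (nat_lit 0) .nil)))))) (.g (nat_lit 0) .nil .nil))) 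
(.lf (nat_lit 110572) (.g (nat_lit 1853) (.e (nat_lit 5410) (nat_lit 303) (.e (nat_lit 73729) (nat_lit 0) (.e (nat_lit 7125) (nat_lit 382) (.e (nat_lit 1222) (nat_lit 90) (.e (nat_lit 89856) (nat_lit 10) .nil))))) .nil))) (.nd (nat_lit 5) 
(.lf (nat_lit 110556) (.g (nat_lit 1683) (.e (nat_lit 5409) (nat_lit 303) (.e (nat_lit 73775) (nat_lit 26) (.e (nat_lit 778362) (nat_lit 9) (.e (nat_lit 309) (nat_lit 23) (.e (nat_lit 352272) (nat_lit 10) .nil))))) .nil)) 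
(.lf (nat_lit 110588) (.g (nat_lit 1495) (.e (nat_lit 5410) (nat_lit 303) (.e (nat_lit 73733) (nat_lit 0) (.e (nat_lit 7273) (nat_lit 385) (.e (nat_lit 122914) (nat_lit 14) (.e (nat_lit 352272) (nat_lit 10) (.e (nat_lit 417795) (nat_lit 0) .nil)))))) (.g (nat_lit 0) .nil .nil))))))) (.nd (nat_lit 2) (.nd (nat_lit 3) (.nd (nat_lit 4) (.nd (nat_lit 5) 
(.lf (nat_lit 110530) (.g (nat_lit 2278) (.e (nat_lit 5409) (nat_lit 303) (.e (nat_lit 73753) (nat_lit 8) (.e (nat_lit 557085) (nat_lit 11) (.e (nat_lit 24639) (nat_lit 10) (.e (nat_lit 344115) (nat_lit 20) .nil))))) .nil)) 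
(.lf (nat_lit 110562) (.g (nat_lit 1924) (.e (nat_lit 5409) (nat_lit 303) (.e (nat_lit 73775) (nat_lit 26) (.e (nat_lit 778466) (nat_lit 11) (.e (nat_lit 24632) (nat_lit 9) (.e (nat_lit 336363) (nat_lit 26) .nil))))) .nil))) (.nd (nat_lit 5) 
(.lf (nat_lit 110546) (.g (nat_lit 2316) (.e (nat_lit 5409) (nat_lit 303) (.e (nat_lit 73755) (nat_lit 8) (.e (nat_lit 557087) (nat_lit 11) (.e (nat_lit 24639) (nat_lit 10) (.e (nat_lit 344115) (nat_lit 20) (.e (nat_lit 507908) (nat_lit 0) .nil)))))) (.g (nat_lit 6) .nil .nil))) 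
(.lf (nat_lit 110578) (.g (nat_lit 2548) (.e (nat_lit 5410) (nat_lit 303) (.e (nat_lit 73729) (nat_lit 0) (.e (nat_lit 7266) (nat_lit 384) (.e (nat_lit 57423) (nat_lit 14) (.e (nat_lit 352272) (nat_lit 10) (.e (nat_lit 417796) (nat_lit 0) .nil)))))) (.g (nat_lit 0) .nil .nil))))) (.nd (nat_lit 4) (.nd (nat_lit 5) 
(.lf (nat_lit 110538) (.g (nat_lit 2771) (.e (nat_lit 5409) (nat_lit 303) (.e (nat_lit 73753) (nat_lit 8) (.e (nat_lit 557087) (nat_lit 11) (.e (nat_lit 24639) (nat_lit 10) (.e (nat_lit 344115) (nat_lit 20) (.e (nat_lit 507908) (nat_lit 0) .nil)))))) (.g (nat_lit 0) .nil .nil))) 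
(.lf (nat_lit 110570) (.g (nat_lit 1660) (.e (nat_lit 5409) (nat_lit 303) (.e (nat_lit 73776) (nat_lit 26) (.e (nat_lit 778466) (nat_lit 11) (.e (nat_lit 24632) (nat_lit 9) (.e (nat_lit 336363) (nat_lit 26) .nil))))) .nil))) (.nd (nat_lit 5) 
(.lf (nat_lit 110554) (.g (nat_lit 1104) (.e (nat_lit 5409) (nat_lit 303) (.e (nat_lit 73775) (nat_lit 26) (.e (nat_lit 778361) (nat_lit 9) (.e (nat_lit 309) (nat_lit 23) .nil)))) .nil)) 
(.lf (nat_lit 110586) (.g (nat_lit 886) (.e (nat_lit 5410) (nat_lit 303) (.e (nat_lit 73733) (nat_lit 0) (.e (nat_lit 7147) (nat_lit 382) (.e (nat_lit 1216) (nat_lit 90) (.e (nat_lit 89856) (nat_lit 10) .nil))))) .nil))))) (.nd (nat_lit 3) (.nd (nat_lit 4) (.nd (nat_lit 5) 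
(.lf (nat_lit 110534) (.g (nat_lit 2122) (.e (nat_lit 5409) (nat_lit 303) (.e (nat_lit 73753) (nat_lit 8) (.e (nat_lit 557086) (nat_lit 11) (.e (nat_lit 24640) (nat_lit 10) (.e (nat_lit 344115) (nat_lit 20) .nil))))) .nil)) 
(.lf (nat_lit 110566) (.g (nat_lit 1539) (.e (nat_lit 5409) (nat_lit 303) (.e (nat_lit 73776) (nat_lit 26) (.e (nat_lit 778362) (nat_lit 9) (.e (nat_lit 309) (nat_lit 23) (.e (nat_lit 352272) (nat_lit 10) .nil))))) .nil))) (.nd (nat_lit 5) 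
(.lf (nat_lit 110550) (.g (nat_lit 1406) (.e (nat_lit 5409) (nat_lit 303) (.e (nat_lit 73764) (nat_lit 18) (.e (nat_lit 638998) (nat_lit 8) (.e (nat_lit 172079) (nat_lit 7) (.e (nat_lit 409639) (nat_lit 15) (.e (nat_lit 278552) (nat_lit 10) .nil)))))) (.g (nat_lit 5) .nil .nil))) 
(.lf (nat_lit 110582) (.g (nat_lit 2611) (.e (nat_lit 5410) (nat_lit 303) (.e (nat_lit 73729) (nat_lit 0) (.e (nat_lit 7266) (nat_lit 384) (.e (nat_lit 57424) (nat_lit 14) (.e (nat_lit 352272) (nat_lit 10) (.e (nat_lit 417796) (nat_lit 0) .nil)))))) (.g (nat_lit 0) .nil .nil))))) (.nd (nat_lit 4) (.nd (nat_lit 5) 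
(.lf (nat_lit 110542) (.g (nat_lit 3462) (.e (nat_lit 5409) (nat_lit 303) (.e (nat_lit 73753) (nat_lit 8) (.e (nat_lit 557087) (nat_lit 11) (.e (nat_lit 24641) (nat_lit 10) (.e (nat_lit 344115) (nat_lit 20) (.e (nat_lit 507908) (nat_lit 0) .nil)))))) (.g (nat_lit 5) .nil .nil))) 
(.lf (nat_lit 110574) (.g (nat_lit 513) (.e (nat_lit 5410) (nat_lit 303) (.e (nat_lit 73729) (nat_lit 0) (.e (nat_lit 7265) (nat_lit 384) .nil))) .nil))) (.nd (nat_lit 5) 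
(.lf (nat_lit 110558) (.g (nat_lit 2010) (.e (nat_lit 5409) (nat_lit 303) (.e (nat_lit 73775) (nat_lit 26) (.e (nat_lit 778362) (nat_lit 9) (.e (nat_lit 314) (nat_lit 23) (.e (nat_lit 360192) (nat_lit 10) .nil))))) .nil)) 
(.lf (nat_lit 110590) (.g (nat_lit 1301) (.e (nat_lit 5410) (nat_lit 303) (.e (nat_lit 73733) (nat_lit 0) (.e (nat_lit 7273) (nat_lit 385) (.e (nat_lit 122916) (nat_lit 14) (.e (nat_lit 352272) (nat_lit 10) (.e (nat_lit 417793) (nat_lit 0) .nil)))))) (.g (nat_lit 5) .nil .nil)))))))) (.nd (nat_lit 1) (.nd (nat_lit 2) (.nd (nat_lit 3) (.nd (nat_lit 4) (.nd (nat_lit 5) 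
(.lf (nat_lit 110529) (.g (nat_lit 163) (.e (nat_lit 5409) (nat_lit 303) (.e (nat_lit 73753) (nat_lit 8) (.e (nat_lit 557068) (nat_lit 9) .nil))) .nil)) 
(.lf (nat_lit 110561) (.g (nat_lit 1870) (.e (nat_lit 5409) (nat_lit 303) (.e (nat_lit 73775) (nat_lit 26) (.e (nat_lit 778466) (nat_lit 11) (.e (nat_lit 24631) (nat_lit 9) (.e (nat_lit 336363) (nat_lit 26) .nil))))) .nil))) (.nd (nat_lit 5) 
(.lf (nat_lit 110545) (.g (nat_lit 2373) (.e (nat_lit 5409) (nat_lit 303) (.e (nat_lit 73755) (nat_lit 8) (.e (nat_lit 557087) (nat_lit 11) (.e (nat_lit 24639) (nat_lit 10) (.e (nat_lit 344115) (nat_lit 20) (.e (nat_lit 507907) (nat_lit 0) .nil)))))) (.g (nat_lit 6) .nil .nil))) 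
(.lf (nat_lit 110577) (.g (nat_lit 2422) (.e (nat_lit 5410) (nat_lit 303) (.e (nat_lit 73729) (nat_lit 0) (.e (nat_lit 7266) (nat_lit 384) (.e (nat_lit 57423) (nat_lit 14) (.e (nat_lit 352272) (nat_lit 10) (.e (nat_lit 417795) (nat_lit 0) .nil)))))) (.g (nat_lit 0) .nil .nil))))) (.nd (nat_lit 4) (.nd (nat_lit 5) 
(.lf (nat_lit 110537) (.g (nat_lit 2804) (.e (nat_lit 5409) (nat_lit 303) (.e (nat_lit 73753) (nat_lit 8) (.e (nat_lit 557087) (nat_lit 11) (.e (nat_lit 24639) (nat_lit 10) (.e (nat_lit 344115) (nat_lit 20) (.e (nat_lit 507907) (nat_lit 0) .nil)))))) (.g (nat_lit 0) .nil .nil))) 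
(.lf (nat_lit 110569) (.g (nat_lit 2373) (.e (nat_lit 5409) (nat_lit 303) (.e (nat_lit 73776) (nat_lit 26) (.e (nat_lit 778465) (nat_lit 11) (.e (nat_lit 24665) (nat_lit 14) (.e (nat_lit 409344) (nat_lit 25) .nil))))) .nil))) (.nd (nat_lit 5) 
(.lf (nat_lit 110553) (.g (nat_lit 1018) (.e (nat_lit 5409) (nat_lit 303) (.e (nat_lit 73773) (nat_lit 25) (.e (nat_lit 770072) (nat_lit 8) (.e (nat_lit 65592) (nat_lit 9) .nil)))) .nil)) 
(.lf (nat_lit 110585) (.g (nat_lit 672) (.e (nat_lit 5410) (nat_lit 303) (.e (nat_lit 73732) (nat_lit 0) (.e (nat_lit 7273) (nat_lit 385) (.e (nat_lit 122916) (nat_lit 14) .nil)))) .nil))))) (.nd (nat_lit 3) (.nd (nat_lit 4) (.nd (nat_lit 5) 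
(.lf (nat_lit 110533) (.g (nat_lit 1733) (.e (nat_lit 5409) (nat_lit 303) (.e (nat_lit 73753) (nat_lit 8) (.e (nat_lit 557086) (nat_lit 11) (.e (nat_lit 24639) (nat_lit 10) (.e (nat_lit 344115) (nat_lit 20) .nil))))) .nil)) 
(.lf (nat_lit 110565) (.g (nat_lit 423) (.e (nat_lit 5409) (nat_lit 303) (.e (nat_lit 73776) (nat_lit 26) (.e (nat_lit 778359) (nat_lit 9) .nil))) .nil))) (.nd (nat_lit 5) 
(.lf (nat_lit 110549) (.g (nat_lit 2535) (.e (nat_lit 5409) (nat_lit 303) (.e (nat_lit 73755) (nat_lit 8) (.e (nat_lit 557087) (nat_lit 11) (.e (nat_lit 24641) (nat_lit 10) (.e (nat_lit 344115) (nat_lit 20) (.e (nat_lit 507908) (nat_lit 0) .nil)))))) (.g (nat_lit 4) .nil .nil))) 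
(.lf (nat_lit 110581) (.g (nat_lit 2460) (.e (nat_lit 5410) (nat_lit 303) (.e (nat_lit 73729) (nat_lit 0) (.e (nat_lit 7266) (nat_lit 384) (.e (nat_lit 57424) (nat_lit 14) (.e (nat_lit 352272) (nat_lit 10) (.e (nat_lit 417795) (nat_lit 0) .nil)))))) (.g (nat_lit 0) .nil .nil))))) (.nd (nat_lit 4) (.nd (nat_lit 5) 
(.lf (nat_lit 110541) (.g (nat_lit 3543) (.e (nat_lit 5409) (nat_lit 303) (.e (nat_lit 73753) (nat_lit 8) (.e (nat_lit 557087) (nat_lit 11) (.e (nat_lit 24641) (nat_lit 10) (.e (nat_lit 344115) (nat_lit 20) (.e (nat_lit 507907) (nat_lit 0) .nil)))))) (.g (nat_lit 5) .nil .nil))) 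
(.lf (nat_lit 110573) (.g (nat_lit 1880) (.e (nat_lit 5410) (nat_lit 303) (.e (nat_lit 73729) (nat_lit 0) (.e (nat_lit 7125) (nat_lit 382) (.e (nat_lit 1224) (nat_lit 90) (.e (nat_lit 89856) (nat_lit 10) .nil))))) .nil))) (.nd (nat_lit 5) 
(.lf (nat_lit 110557) (.g (nat_lit 2089) (.e (nat_lit 5409) (nat_lit 303) (.e (nat_lit 73775) (nat_lit 26) (.e (nat_lit 778362) (nat_lit 9) (.e (nat_lit 312) (nat_lit 23) (.e (nat_lit 352272) (nat_lit 10) (.e (nat_lit 417795) (nat_lit 0) .nil)))))) (.g (nat_lit 4) .nil .nil))) 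
(.lf (nat_lit 110589) (.g (nat_lit 935) (.e (nat_lit 5410) (nat_lit 303) (.e (nat_lit 73733) (nat_lit 0) (.e (nat_lit 7273) (nat_lit 385) (.e (nat_lit 122916) (nat_lit 14) (.e (nat_lit 352272) (nat_lit 10) .nil))))) .nil)))))) (.nd (nat_lit 2) (.nd (nat_lit 3) (.nd (nat_lit 4) (.nd (nat_lit 5) 
(.lf (nat_lit 110531) (.g (nat_lit 2526) (.e (nat_lit 5409) (nat_lit 303) (.e (nat_lit 73753) (nat_lit 8) (.e (nat_lit 557085) (nat_lit 11) (.e (nat_lit 24640) (nat_lit 10) (.e (nat_lit 344115) (nat_lit 20) .nil))))) .nil)) 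
(.lf (nat_lit 110563) (.g (nat_lit 1624) (.e (nat_lit 5409) (nat_lit 303) (.e (nat_lit 73775) (nat_lit 26) (.e (nat_lit 778466) (nat_lit 11) (.e (nat_lit 24648) (nat_lit 12) .nil)))) .nil))) (.nd (nat_lit 5) 
(.lf (nat_lit 110547) (.g (nat_lit 2684) (.e (nat_lit 5409) (nat_lit 303) (.e (nat_lit 73755) (nat_lit 8) (.e (nat_lit 557087) (nat_lit 11) (.e (nat_lit 24640) (nat_lit 10) (.e (nat_lit 344115) (nat_lit 20) (.e (nat_lit 507908) (nat_lit 0) .nil)))))) (.g (nat_lit 6) .nil .nil))) 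
(.lf (nat_lit 110579) (.g (nat_lit 2152) (.e (nat_lit 5410) (nat_lit 303) (.e (nat_lit 73729) (nat_lit 0) (.e (nat_lit 7266) (nat_lit 384) (.e (nat_lit 57424) (nat_lit 14) (.e (nat_lit 352272) (nat_lit 10) (.e (nat_lit 417793) (nat_lit 0) .nil)))))) (.g (nat_lit 5) .nil .nil))))) (.nd (nat_lit 4) (.nd (nat_lit 5) 
(.lf (nat_lit 110539) (.g (nat_lit 3176) (.e (nat_lit 5409) (nat_lit 303) (.e (nat_lit 73753) (nat_lit 8) (.e (nat_lit 557087) (nat_lit 11) (.e (nat_lit 24640) (nat_lit 10) (.e (nat_lit 344115) (nat_lit 20) (.e (nat_lit 507907) (nat_lit 0) .nil)))))) (.g (nat_lit 0) .nil .nil))) 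
(.lf (nat_lit 110571) (.g (nat_lit 590) (.e (nat_lit 5410) (nat_lit 303) (.e (nat_lit 73729) (nat_lit 0) (.e (nat_lit 7124) (nat_lit 382) .nil))) .nil))) (.nd (nat_lit 5) 
(.lf (nat_lit 110555) (.g (nat_lit 1377) (.e (nat_lit 5409) (nat_lit 303) (.e (nat_lit 73775) (nat_lit 26) (.e (nat_lit 778361) (nat_lit 9) (.e (nat_lit 312) (nat_lit 23) (.e (nat_lit 352272) (nat_lit 10) .nil))))) .nil)) 
(.lf (nat_lit 110587) (.g (nat_lit 1165) (.e (nat_lit 5410) (nat_lit 303) (.e (nat_lit 73733) (nat_lit 0) (.e (nat_lit 7147) (nat_lit 382) (.e (nat_lit 1217) (nat_lit 90) (.e (nat_lit 89856) (nat_lit 10) .nil))))) .nil))))) (.nd (nat_lit 3) (.nd (nat_lit 4) (.nd (nat_lit 5) 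
(.lf (nat_lit 110535) (.g (nat_lit 1830) (.e (nat_lit 5409) (nat_lit 303) (.e (nat_lit 73753) (nat_lit 8) (.e (nat_lit 557086) (nat_lit 11) (.e (nat_lit 24641) (nat_lit 10) (.e (nat_lit 344115) (nat_lit 20) (.e (nat_lit 507907) (nat_lit 0) .nil)))))) (.g (nat_lit 4) .nil .nil))) 
(.lf (nat_lit 110567) (.g (nat_lit 1863) (.e (nat_lit 5409) (nat_lit 303) (.e (nat_lit 73776) (nat_lit 26) (.e (nat_lit 778362) (nat_lit 9) (.e (nat_lit 312) (nat_lit 23) (.e (nat_lit 352272) (nat_lit 10) .nil))))) .nil))) (.nd (nat_lit 5) 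
(.lf (nat_lit 110551) (.g (nat_lit 938) (.e (nat_lit 5409) (nat_lit 303) (.e (nat_lit 73764) (nat_lit 18) (.e (nat_lit 638998) (nat_lit 8) (.e (nat_lit 172081) (nat_lit 7) (.e (nat_lit 409639) (nat_lit 15) (.e (nat_lit 278552) (nat_lit 10) .nil)))))) (.g (nat_lit 4) .nil .nil))) 
(.lf (nat_lit 110583) (.g (nat_lit 412) (.e (nat_lit 5410) (nat_lit 303) (.e (nat_lit 73732) (nat_lit 0) (.e (nat_lit 7147) (nat_lit 382) .nil))) .nil)))) (.nd (nat_lit 4) (.nd (nat_lit 5) 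
(.lf (nat_lit 110543) (.g (nat_lit 729) (.e (nat_lit 5409) (nat_lit 303) (.e (nat_lit 73755) (nat_lit 8) (.e (nat_lit 557065) (nat_lit 9) .nil))) .nil)) 
(.lf (nat_lit 110575) (.g (nat_lit 2136) (.e (nat_lit 5410) (nat_lit 303) (.e (nat_lit 73729) (nat_lit 0) (.e (nat_lit 7266) (nat_lit 384) (.e (nat_lit 57423) (nat_lit 14) (.e (nat_lit 352272) (nat_lit 10) (.e (nat_lit 417793) (nat_lit 0) .nil)))))) (.g (nat_lit 6) .nil .nil)))) (.nd (nat_lit 5) 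
(.lf (nat_lit 110559) (.g (nat_lit 1611) (.e (nat_lit 5409) (nat_lit 303) (.e (nat_lit 73775) (nat_lit 26) (.e (nat_lit 778465) (nat_lit 11) (.e (nat_lit 24631) (nat_lit 9) (.e (nat_lit 336363) (nat_lit 26) .nil))))) .nil)) 
(.lf (nat_lit 110591) (.g (nat_lit 915) (.e (nat_lit 5410) (nat_lit 303) (.e (nat_lit 81664) (nat_lit 0) (.e (nat_lit 7236) (nat_lit 382) (.e (nat_lit 1219) (nat_lit 90) (.e (nat_lit 89856) (nat_lit 10) (.e (nat_lit 417795) (nat_lit 0) .nil)))))) (.g (nat_lit 4) .nil .nil)))))))))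

noncomputable def tv1492 : DT := (.nd (nat_lit 0) (.nd (nat_lit 1) (.nd (nat_lit 2) (.nd (nat_lit 3) (.nd (nat_lit 4) (.nd (nat_lit 5) 
(.lf (nat_lit 110592) (.g (nat_lit 863) (.e (nat_lit 5410) (nat_lit 303) (.e (nat_lit 81664) (nat_lit 0) (.e (nat_lit 7237) (nat_lit 382) (.e (nat_lit 1219) (nat_lit 90) (.e (nat_lit 89856) (nat_lit 10) (.e (nat_lit 417796) (nat_lit 0) .nil)))))) (.g (nat_lit 4) .nil .nil))) 
(.lf (nat_lit 110624) (.g (nat_lit 796) (.e (nat_lit 5410) (nat_lit 303) (.e (nat_lit 73773) (nat_lit 25) (.e (nat_lit 770058) (nat_lit 5) (.e (nat_lit 1559) (nat_lit 110) (.e (nat_lit 352272) (nat_lit 10) (.e (nat_lit 417793) (nat_lit 0) .nil)))))) (.g (nat_lit 5) .nil .nil)))) (.nd (nat_lit 5) 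
(.lf (nat_lit 110608) (.g (nat_lit 1543) (.e (nat_lit 5410) (nat_lit 303) (.e (nat_lit 73751) (nat_lit 7) (.e (nat_lit 548889) (nat_lit 9) (.e (nat_lit 65617) (nat_lit 10) (.e (nat_lit 344115) (nat_lit 20) (.e (nat_lit 507908) (nat_lit 0) .nil)))))) (.g (nat_lit 4) .nil .nil))) 
(.lf (nat_lit 110640) (.g (nat_lit 2321) (.e (nat_lit 5410) (nat_lit 303) (.e (nat_lit 73776) (nat_lit 26) (.e (nat_lit 778465) (nat_lit 11) (.e (nat_lit 24665) (nat_lit 14) (.e (nat_lit 409344) (nat_lit 25) (.e (nat_lit 319504) (nat_lit 10) .nil)))))) (.g (nat_lit 4) .nil .nil))))) (.nd (nat_lit 4) (.nd (nat_lit 5) 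
(.lf (nat_lit 110600) (.g (nat_lit 2274) (.e (nat_lit 5410) (nat_lit 303) (.e (nat_lit 73747) (nat_lit 3) (.e (nat_lit 516097) (nat_lit 0) (.e (nat_lit 7591) (nat_lit 407) (.e (nat_lit 73744) (nat_lit 2) .nil))))) .nil)) 
(.lf (nat_lit 110632) (.g (nat_lit 1079) (.e (nat_lit 5410) (nat_lit 303) (.e (nat_lit 73776) (nat_lit 26) (.e (nat_lit 778362) (nat_lit 9) (.e (nat_lit 309) (nat_lit 23) .nil)))) .nil))) (.nd (nat_lit 5) 
(.lf (nat_lit 110616) (.g (nat_lit 2700) (.e (nat_lit 5410) (nat_lit 303) (.e (nat_lit 73753) (nat_lit 8) (.e (nat_lit 557087) (nat_lit 11) (.e (nat_lit 24640) (nat_lit 10) (.e (nat_lit 344115) (nat_lit 20) (.e (nat_lit 507908) (nat_lit 0) .nil)))))) (.g (nat_lit 0) .nil .nil))) 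
(.lf (nat_lit 110648) (.g (nat_lit 2352) (.e (nat_lit 5410) (nat_lit 303) (.e (nat_lit 73776) (nat_lit 26) (.e (nat_lit 778466) (nat_lit 11) (.e (nat_lit 24662) (nat_lit 14) (.e (nat_lit 409344) (nat_lit 26) .nil))))) .nil))))) (.nd (nat_lit 3) (.nd (nat_lit 4) (.nd (nat_lit 5) 
(.lf (nat_lit 110596) (.g (nat_lit 1383) (.e (nat_lit 5410) (nat_lit 303) (.e (nat_lit 73744) (nat_lit 2) (.e (nat_lit 507922) (nat_lit 6) (.e (nat_lit 286756) (nat_lit 10) (.e (nat_lit 344115) (nat_lit 20) (.e (nat_lit 507908) (nat_lit 0) .nil)))))) (.g (nat_lit 6) .nil .nil))) 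
(.lf (nat_lit 110628) (.g (nat_lit 912) (.e (nat_lit 5410) (nat_lit 303) (.e (nat_lit 73776) (nat_lit 26) (.e (nat_lit 778359) (nat_lit 9) (.e (nat_lit 312) (nat_lit 23) (.e (nat_lit 352272) (nat_lit 10) .nil))))) .nil))) (.nd (nat_lit 5) 
(.lf (nat_lit 110612) (.g (nat_lit 2092) (.e (nat_lit 5410) (nat_lit 303) (.e (nat_lit 73753) (nat_lit 8) (.e (nat_lit 557065) (nat_lit 9) (.e (nat_lit 321) (nat_lit 24) .nil)))) .nil)) 
(.lf (nat_lit 110644) (.g (nat_lit 1965) (.e (nat_lit 5410) (nat_lit 303) (.e (nat_lit 73776) (nat_lit 26) (.e (nat_lit 778466) (nat_lit 11) (.e (nat_lit 24632) (nat_lit 9) (.e (nat_lit 336363) (nat_lit 26) (.e (nat_lit 417795) (nat_lit 0) .nil)))))) (.g (nat_lit 6) .nil .nil))))) (.nd (nat_lit 4) (.nd (nat_lit 5) 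
(.lf (nat_lit 110604) (.g (nat_lit 2510) (.e (nat_lit 5410) (nat_lit 303) (.e (nat_lit 73747) (nat_lit 3) (.e (nat_lit 516185) (nat_lit 16) (.e (nat_lit 491560) (nat_lit 10) (.e (nat_lit 344114) (nat_lit 20) .nil))))) .nil)) 
(.lf (nat_lit 110636) (.g (nat_lit 1800) (.e (nat_lit 5410) (nat_lit 303) (.e (nat_lit 73776) (nat_lit 26) (.e (nat_lit 778362) (nat_lit 9) (.e (nat_lit 314) (nat_lit 23) (.e (nat_lit 360192) (nat_lit 10) .nil))))) .nil))) (.nd (nat_lit 5) 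
(.lf (nat_lit 110620) (.g (nat_lit 1079) (.e (nat_lit 5410) (nat_lit 303) (.e (nat_lit 73772) (nat_lit 24) (.e (nat_lit 761868) (nat_lit 5) (.e (nat_lit 1555) (nat_lit 110) (.e (nat_lit 352272) (nat_lit 10) (.e (nat_lit 417795) (nat_lit 0) .nil)))))) (.g (nat_lit 6) .nil .nil))) 
(.lf (nat_lit 110652) (.g (nat_lit 1659) (.e (nat_lit 5411) (nat_lit 303) (.e (nat_lit 73729) (nat_lit 0) (.e (nat_lit 7261) (nat_lit 384) (.e (nat_lit 57423) (nat_lit 14) (.e (nat_lit 352271) (nat_lit 9) (.e (nat_lit 409604) (nat_lit 0) .nil)))))) (.g (nat_lit 0) .nil .nil))))))) (.nd (nat_lit 2) (.nd (nat_lit 3) (.nd (nat_lit 4) (.nd (nat_lit 5) 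
(.lf (nat_lit 110594) (.g (nat_lit 1503) (.e (nat_lit 5410) (nat_lit 303) (.e (nat_lit 73744) (nat_lit 2) (.e (nat_lit 507921) (nat_lit 6) (.e (nat_lit 286756) (nat_lit 10) (.e (nat_lit 344115) (nat_lit 20) (.e (nat_lit 507908) (nat_lit 0) .nil)))))) (.g (nat_lit 6) .nil .nil))) 
(.lf (nat_lit 110626) (.g (nat_lit 640) (.e (nat_lit 5410) (nat_lit 303) (.e (nat_lit 73773) (nat_lit 25) (.e (nat_lit 770074) (nat_lit 10) (.e (nat_lit 89856) (nat_lit 10) .nil)))) .nil))) (.nd (nat_lit 5) 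
(.lf (nat_lit 110610) (.g (nat_lit 1771) (.e (nat_lit 5410) (nat_lit 303) (.e (nat_lit 73751) (nat_lit 7) (.e (nat_lit 548889) (nat_lit 9) (.e (nat_lit 65620) (nat_lit 10) (.e (nat_lit 344115) (nat_lit 20) (.e (nat_lit 507908) (nat_lit 0) .nil)))))) (.g (nat_lit 0) .nil .nil))) 
(.lf (nat_lit 110642) (.g (nat_lit 1473) (.e (nat_lit 5410) (nat_lit 303) (.e (nat_lit 73776) (nat_lit 26) (.e (nat_lit 778466) (nat_lit 11) (.e (nat_lit 24631) (nat_lit 9) (.e (nat_lit 336363) (nat_lit 26) .nil))))) .nil)))) (.nd (nat_lit 4) (.nd (nat_lit 5) 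
(.lf (nat_lit 110602) (.g (nat_lit 695) (.e (nat_lit 5410) (nat_lit 303) (.e (nat_lit 73747) (nat_lit 3) (.e (nat_lit 516184) (nat_lit 16) .nil))) .nil)) 
(.lf (nat_lit 110634) (.g (nat_lit 2314) (.e (nat_lit 5410) (nat_lit 303) (.e (nat_lit 73776) (nat_lit 26) (.e (nat_lit 778362) (nat_lit 9) (.e (nat_lit 312) (nat_lit 23) (.e (nat_lit 352272) (nat_lit 10) (.e (nat_lit 417795) (nat_lit 0) .nil)))))) (.g (nat_lit 0) .nil .nil)))) (.nd (nat_lit 5) 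
(.lf (nat_lit 110618) (.g (nat_lit 615) (.e (nat_lit 5410) (nat_lit 303) (.e (nat_lit 73772) (nat_lit 24) (.e (nat_lit 761866) (nat_lit 5) (.e (nat_lit 1568) (nat_lit 110) (.e (nat_lit 352272) (nat_lit 10) (.e (nat_lit 417793) (nat_lit 0) .nil)))))) (.g (nat_lit 4) .nil .nil))) 
(.lf (nat_lit 110650) (.g (nat_lit 1678) (.e (nat_lit 5411) (nat_lit 303) (.e (nat_lit 73729) (nat_lit 0) (.e (nat_lit 7125) (nat_lit 382) (.e (nat_lit 1224) (nat_lit 90) (.e (nat_lit 89856) (nat_lit 9) .nil))))) .nil))))) (.nd (nat_lit 3) (.nd (nat_lit 4) (.nd (nat_lit 5) 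
(.lf (nat_lit 110598) (.g (nat_lit 1271) (.e (nat_lit 5410) (nat_lit 303) (.e (nat_lit 73744) (nat_lit 2) (.e (nat_lit 507923) (nat_lit 6) (.e (nat_lit 286755) (nat_lit 10) (.e (nat_lit 344115) (nat_lit 20) (.e (nat_lit 507907) (nat_lit 0) .nil)))))) (.g (nat_lit 0) .nil .nil))) 
(.lf (nat_lit 110630) (.g (nat_lit 1399) (.e (nat_lit 5410) (nat_lit 303) (.e (nat_lit 73776) (nat_lit 26) (.e (nat_lit 778361) (nat_lit 9) (.e (nat_lit 312) (nat_lit 23) (.e (nat_lit 352272) (nat_lit 10) .nil))))) .nil))) (.nd (nat_lit 5) 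
(.lf (nat_lit 110614) (.g (nat_lit 806) (.e (nat_lit 5410) (nat_lit 303) (.e (nat_lit 73753) (nat_lit 8) (.e (nat_lit 557085) (nat_lit 11) .nil))) .nil)) 
(.lf (nat_lit 110646) (.g (nat_lit 1686) (.e (nat_lit 5410) (nat_lit 303) (.e (nat_lit 73776) (nat_lit 26) (.e (nat_lit 778466) (nat_lit 11) (.e (nat_lit 24648) (nat_lit 12) (.e (nat_lit 392960) (nat_lit 16) .nil))))) .nil)))) (.nd (nat_lit 4) (.nd (nat_lit 5) 
(.lf (nat_lit 110606) (.g (nat_lit 1724) (.e (nat_lit 5410) (nat_lit 303) (.e (nat_lit 73751) (nat_lit 7) (.e (nat_lit 548889) (nat_lit 9) (.e (nat_lit 65610) (nat_lit 10) (.e (nat_lit 344115) (nat_lit 20) (.e (nat_lit 507908) (nat_lit 0) .nil)))))) (.g (nat_lit 0) .nil .nil))) 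
(.lf (nat_lit 110638) (.g (nat_lit 1389) (.e (nat_lit 5410) (nat_lit 303) (.e (nat_lit 73776) (nat_lit 26) (.e (nat_lit 778465) (nat_lit 11) (.e (nat_lit 24647) (nat_lit 12) .nil)))) .nil))) (.nd (nat_lit 5) 
(.lf (nat_lit 110622) (.g (nat_lit 1616) (.e (nat_lit 5410) (nat_lit 303) (.e (nat_lit 73772) (nat_lit 24) (.e (nat_lit 761869) (nat_lit 5) (.e (nat_lit 1574) (nat_lit 110) (.e (nat_lit 352272) (nat_lit 10) (.e (nat_lit 417796) (nat_lit 0) .nil)))))) (.g (nat_lit 0) .nil .nil))) 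
(.lf (nat_lit 110654) (.g (nat_lit 865) (.e (nat_lit 5411) (nat_lit 303) (.e (nat_lit 73729) (nat_lit 0) (.e (nat_lit 7261) (nat_lit 384) (.e (nat_lit 57424) (nat_lit 14) .nil)))) .nil))))))) (.nd (nat_lit 1) (.nd (nat_lit 2) (.nd (nat_lit 3) (.nd (nat_lit 4) (.nd (nat_lit 5) 
(.lf (nat_lit 110593) (.g (nat_lit 1499) (.e (nat_lit 5410) (nat_lit 303) (.e (nat_lit 73744) (nat_lit 2) (.e (nat_lit 507921) (nat_lit 6) (.e (nat_lit 286756) (nat_lit 10) (.e (nat_lit 344115) (nat_lit 20) (.e (nat_lit 507907) (nat_lit 0) .nil)))))) (.g (nat_lit 6) .nil .nil))) 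
(.lf (nat_lit 110625) (.g (nat_lit 887) (.e (nat_lit 5410) (nat_lit 303) (.e (nat_lit 73773) (nat_lit 25) (.e (nat_lit 770058) (nat_lit 5) (.e (nat_lit 1575) (nat_lit 110) (.e (nat_lit 352272) (nat_lit 10) (.e (nat_lit 417793) (nat_lit 0) .nil)))))) (.g (nat_lit 5) .nil .nil)))) (.nd (nat_lit 5) 
(.lf (nat_lit 110609) (.g (nat_lit 1786) (.e (nat_lit 5410) (nat_lit 303) (.e (nat_lit 73751) (nat_lit 7) (.e (nat_lit 548889) (nat_lit 9) (.e (nat_lit 65620) (nat_lit 10) (.e (nat_lit 344115) (nat_lit 20) (.e (nat_lit 507907) (nat_lit 0) .nil)))))) (.g (nat_lit 0) .nil .nil))) 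
(.lf (nat_lit 110641) (.g (nat_lit 183) (.e (nat_lit 5410) (nat_lit 303) (.e (nat_lit 73776) (nat_lit 26) (.e (nat_lit 778466) (nat_lit 11) .nil))) .nil)))) (.nd (nat_lit 4) (.nd (nat_lit 5) 
(.lf (nat_lit 110601) (.g (nat_lit 2255) (.e (nat_lit 5410) (nat_lit 303) (.e (nat_lit 73747) (nat_lit 3) (.e (nat_lit 516097) (nat_lit 0) (.e (nat_lit 7593) (nat_lit 407) (.e (nat_lit 73744) (nat_lit 2) .nil))))) .nil)) 
(.lf (nat_lit 110633) (.g (nat_lit 1717) (.e (nat_lit 5410) (nat_lit 303) (.e (nat_lit 73776) (nat_lit 26) (.e (nat_lit 778362) (nat_lit 9) (.e (nat_lit 312) (nat_lit 23) (.e (nat_lit 352272) (nat_lit 10) .nil))))) .nil))) (.nd (nat_lit 5) 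
(.lf (nat_lit 110617) (.g (nat_lit 1196) (.e (nat_lit 5410) (nat_lit 303) (.e (nat_lit 73772) (nat_lit 24) (.e (nat_lit 761866) (nat_lit 5) (.e (nat_lit 1555) (nat_lit 110) (.e (nat_lit 352272) (nat_lit 10) (.e (nat_lit 417795) (nat_lit 0) .nil)))))) (.g (nat_lit 6) .nil .nil))) 
(.lf (nat_lit 110649) (.g (nat_lit 1638) (.e (nat_lit 5411) (nat_lit 303) (.e (nat_lit 73729) (nat_lit 0) (.e (nat_lit 7125) (nat_lit 382) (.e (nat_lit 1222) (nat_lit 90) (.e (nat_lit 89856) (nat_lit 9) .nil))))) .nil))))) (.nd (nat_lit 3) (.nd (nat_lit 4) (.nd (nat_lit 5) 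
(.lf (nat_lit 110597) (.g (nat_lit 1478) (.e (nat_lit 5410) (nat_lit 303) (.e (nat_lit 73744) (nat_lit 2) (.e (nat_lit 507923) (nat_lit 6) (.e (nat_lit 286753) (nat_lit 10) (.e (nat_lit 344115) (nat_lit 20) (.e (nat_lit 507908) (nat_lit 0) .nil)))))) (.g (nat_lit 0) .nil .nil))) 
(.lf (nat_lit 110629) (.g (nat_lit 907) (.e (nat_lit 5410) (nat_lit 303) (.e (nat_lit 73776) (nat_lit 26) (.e (nat_lit 778360) (nat_lit 9) (.e (nat_lit 312) (nat_lit 23) (.e (nat_lit 352272) (nat_lit 10) .nil))))) .nil))) (.nd (nat_lit 5) 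
(.lf (nat_lit 110613) (.g (nat_lit 2059) (.e (nat_lit 5410) (nat_lit 303) (.e (nat_lit 73753) (nat_lit 8) (.e (nat_lit 557065) (nat_lit 9) (.e (nat_lit 324) (nat_lit 24) .nil)))) .nil)) 
(.lf (nat_lit 110645) (.g (nat_lit 1691) (.e (nat_lit 5410) (nat_lit 303) (.e (nat_lit 73776) (nat_lit 26) (.e (nat_lit 778466) (nat_lit 11) (.e (nat_lit 24647) (nat_lit 12) (.e (nat_lit 385038) (nat_lit 16) .nil))))) .nil)))) (.nd (nat_lit 4) (.nd (nat_lit 5) 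
(.lf (nat_lit 110605) (.g (nat_lit 2632) (.e (nat_lit 5410) (nat_lit 303) (.e (nat_lit 73747) (nat_lit 3) (.e (nat_lit 516185) (nat_lit 16) (.e (nat_lit 491560) (nat_lit 10) (.e (nat_lit 344114) (nat_lit 20) (.e (nat_lit 507907) (nat_lit 0) .nil)))))) (.g (nat_lit 5) .nil .nil))) 
(.lf (nat_lit 110637) (.g (nat_lit 2107) (.e (nat_lit 5410) (nat_lit 303) (.e (nat_lit 73776) (nat_lit 26) (.e (nat_lit 778465) (nat_lit 11) (.e (nat_lit 24631) (nat_lit 9) (.e (nat_lit 336363) (nat_lit 26) .nil))))) .nil))) (.nd (nat_lit 5) 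
(.lf (nat_lit 110621) (.g (nat_lit 1091) (.e (nat_lit 5410) (nat_lit 303) (.e (nat_lit 73772) (nat_lit 24) (.e (nat_lit 761869) (nat_lit 5) (.e (nat_lit 1574) (nat_lit 110) (.e (nat_lit 352272) (nat_lit 10) (.e (nat_lit 417793) (nat_lit 0) .nil)))))) (.g (nat_lit 5) .nil .nil))) 
(.lf (nat_lit 110653) (.g (nat_lit 1622) (.e (nat_lit 5411) (nat_lit 303) (.e (nat_lit 73729) (nat_lit 0) (.e (nat_lit 7261) (nat_lit 384) (.e (nat_lit 57423) (nat_lit 14) (.e (nat_lit 352271) (nat_lit 9) (.e (nat_lit 409605) (nat_lit 0) .nil)))))) (.g (nat_lit 0) .nil .nil))))))) (.nd (nat_lit 2) (.nd (nat_lit 3) (.nd (nat_lit 4) (.nd (nat_lit 5) 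
(.lf (nat_lit 110595) (.g (nat_lit 1379) (.e (nat_lit 5410) (nat_lit 303) (.e (nat_lit 73744) (nat_lit 2) (.e (nat_lit 507922) (nat_lit 6) (.e (nat_lit 286756) (nat_lit 10) (.e (nat_lit 344115) (nat_lit 20) (.e (nat_lit 507907) (nat_lit 0) .nil)))))) (.g (nat_lit 6) .nil .nil))) 
(.lf (nat_lit 110627) (.g (nat_lit 586) (.e (nat_lit 5410) (nat_lit 303) (.e (nat_lit 73775) (nat_lit 26) (.e (nat_lit 778362) (nat_lit 9) .nil))) .nil))) (.nd (nat_lit 5) 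
(.lf (nat_lit 110611) (.g (nat_lit 2106) (.e (nat_lit 5410) (nat_lit 303) (.e (nat_lit 73752) (nat_lit 8) (.e (nat_lit 557087) (nat_lit 11) (.e (nat_lit 24639) (nat_lit 10) (.e (nat_lit 344115) (nat_lit 20) .nil))))) .nil)) 
(.lf (nat_lit 110643) (.g (nat_lit 1558) (.e (nat_lit 5410) (nat_lit 303) (.e (nat_lit 73776) (nat_lit 26) (.e (nat_lit 778466) (nat_lit 11) (.e (nat_lit 24632) (nat_lit 9) (.e (nat_lit 336363) (nat_lit 26) .nil))))) .nil)))) (.nd (nat_lit 4) (.nd (nat_lit 5) 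
(.lf (nat_lit 110603) (.g (nat_lit 1373) (.e (nat_lit 5410) (nat_lit 303) (.e (nat_lit 73747) (nat_lit 3) (.e (nat_lit 516184) (nat_lit 16) (.e (nat_lit 491560) (nat_lit 10) .nil)))) .nil)) 
(.lf (nat_lit 110635) (.g (nat_lit 2458) (.e (nat_lit 5410) (nat_lit 303) (.e (nat_lit 73776) (nat_lit 26) (.e (nat_lit 778362) (nat_lit 9) (.e (nat_lit 312) (nat_lit 23) (.e (nat_lit 352272) (nat_lit 10) (.e (nat_lit 417796) (nat_lit 0) .nil)))))) (.g (nat_lit 0) .nil .nil)))) (.nd (nat_lit 5) 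
(.lf (nat_lit 110619) (.g (nat_lit 175) (.e (nat_lit 5410) (nat_lit 303) (.e (nat_lit 73772) (nat_lit 24) (.e (nat_lit 761868) (nat_lit 5) .nil))) .nil)) 
(.lf (nat_lit 110651) (.g (nat_lit 1693) (.e (nat_lit 5411) (nat_lit 303) (.e (nat_lit 73729) (nat_lit 0) (.e (nat_lit 7261) (nat_lit 384) (.e (nat_lit 57423) (nat_lit 14) (.e (nat_lit 352271) (nat_lit 9) (.e (nat_lit 409603) (nat_lit 0) .nil)))))) (.g (nat_lit 0) .nil .nil)))))) (.nd (nat_lit 3) (.nd (nat_lit 4) (.nd (nat_lit 5) 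
(.lf (nat_lit 110599) (.g (nat_lit 1271) (.e (nat_lit 5410) (nat_lit 303) (.e (nat_lit 73744) (nat_lit 2) (.e (nat_lit 507923) (nat_lit 6) (.e (nat_lit 286755) (nat_lit 10) (.e (nat_lit 344115) (nat_lit 20) (.e (nat_lit 507908) (nat_lit 0) .nil)))))) (.g (nat_lit 0) .nil .nil))) 
(.lf (nat_lit 110631) (.g (nat_lit 1679) (.e (nat_lit 5410) (nat_lit 303) (.e (nat_lit 73776) (nat_lit 26) (.e (nat_lit 778361) (nat_lit 9) (.e (nat_lit 312) (nat_lit 23) (.e (nat_lit 352272) (nat_lit 10) (.e (nat_lit 417795) (nat_lit 0) .nil)))))) (.g (nat_lit 5) .nil .nil)))) (.nd (nat_lit 5) 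
(.lf (nat_lit 110615) (.g (nat_lit 2708) (.e (nat_lit 5410) (nat_lit 303) (.e (nat_lit 73753) (nat_lit 8) (.e (nat_lit 557087) (nat_lit 11) (.e (nat_lit 24640) (nat_lit 10) (.e (nat_lit 344115) (nat_lit 20) (.e (nat_lit 507907) (nat_lit 0) .nil)))))) (.g (nat_lit 0) .nil .nil))) 
(.lf (nat_lit 110647) (.g (nat_lit 1234) (.e (nat_lit 5410) (nat_lit 303) (.e (nat_lit 73776) (nat_lit 26) (.e (nat_lit 778466) (nat_lit 11) (.e (nat_lit 24651) (nat_lit 12) .nil)))) .nil)))) (.nd (nat_lit 4) (.nd (nat_lit 5) 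
(.lf (nat_lit 110607) (.g (nat_lit 1503) (.e (nat_lit 5410) (nat_lit 303) (.e (nat_lit 73751) (nat_lit 7) (.e (nat_lit 548889) (nat_lit 9) (.e (nat_lit 65616) (nat_lit 10) (.e (nat_lit 344115) (nat_lit 20) (.e (nat_lit 507907) (nat_lit 0) .nil)))))) (.g (nat_lit 0) .nil .nil))) 
(.lf (nat_lit 110639) (.g (nat_lit 2281) (.e (nat_lit 5410) (nat_lit 303) (.e (nat_lit 73776) (nat_lit 26) (.e (nat_lit 778465) (nat_lit 11) (.e (nat_lit 24665) (nat_lit 14) (.e (nat_lit 409344) (nat_lit 25) .nil))))) .nil))) (.nd (nat_lit 5) 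
(.lf (nat_lit 110623) (.g (nat_lit 678) (.e (nat_lit 5410) (nat_lit 303) (.e (nat_lit 73773) (nat_lit 25) (.e (nat_lit 770055) (nat_lit 5) (.e (nat_lit 1562) (nat_lit 110) (.e (nat_lit 352272) (nat_lit 10) .nil))))) .nil)) 
(.lf (nat_lit 110655) (.g (nat_lit 1414) (.e (nat_lit 5411) (nat_lit 303) (.e (nat_lit 73729) (nat_lit 0) (.e (nat_lit 7261) (nat_lit 384) (.e (nat_lit 57436) (nat_lit 17) (.e (nat_lit 384768) (nat_lit 9) .nil))))) .nil))))))))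

noncomputable def tv1493 : DT := (.nd (nat_lit 0) (.nd (nat_lit 1) (.nd (nat_lit 2) (.nd (nat_lit 3) (.nd (nat_lit 4) (.nd (nat_lit 5) 
(.lf (nat_lit 110656) (.g (nat_lit 1977) (.e (nat_lit 5411) (nat_lit 303) (.e (nat_lit 73729) (nat_lit 0) (.e (nat_lit 7263) (nat_lit 384) (.e (nat_lit 57423) (nat_lit 14) (.e (nat_lit 352271) (nat_lit 9) (.e (nat_lit 409603) (nat_lit 0) .nil)))))) (.g (nat_lit 0) .nil .nil))) 
(.lf (nat_lit 110688) (.g (nat_lit 1623) (.e (nat_lit 5411) (nat_lit 303) (.e (nat_lit 73732) (nat_lit 0) (.e (nat_lit 7273) (nat_lit 385) (.e (nat_lit 122914) (nat_lit 14) (.e (nat_lit 352271) (nat_lit 9) (.e (nat_lit 409602) (nat_lit 0) .nil)))))) (.g (nat_lit 0) .nil .nil)))) (.nd (nat_lit 5) 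
(.lf (nat_lit 110672) (.g (nat_lit 670) (.e (nat_lit 5411) (nat_lit 303) (.e (nat_lit 73731) (nat_lit 0) (.e (nat_lit 7265) (nat_lit 384) (.e (nat_lit 57436) (nat_lit 17) .nil)))) .nil)) 
(.lf (nat_lit 110704) (.g (nat_lit 1019) (.e (nat_lit 5411) (nat_lit 303) (.e (nat_lit 73775) (nat_lit 26) (.e (nat_lit 778360) (nat_lit 9) (.e (nat_lit 312) (nat_lit 23) (.e (nat_lit 352271) (nat_lit 9) (.e (nat_lit 409605) (nat_lit 0) .nil)))))) (.g (nat_lit 0) .nil .nil))))) (.nd (nat_lit 4) (.nd (nat_lit 5) 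
(.lf (nat_lit 110664) (.g (nat_lit 1629) (.e (nat_lit 5411) (nat_lit 303) (.e (nat_lit 73729) (nat_lit 0) (.e (nat_lit 7265) (nat_lit 384) (.e (nat_lit 57436) (nat_lit 17) (.e (nat_lit 384768) (nat_lit 9) (.e (nat_lit 409604) (nat_lit 0) .nil)))))) (.g (nat_lit 4) .nil .nil))) 
(.lf (nat_lit 110696) (.g (nat_lit 685) (.e (nat_lit 5411) (nat_lit 303) (.e (nat_lit 73773) (nat_lit 25) (.e (nat_lit 770055) (nat_lit 5) (.e (nat_lit 1575) (nat_lit 110) (.e (nat_lit 352271) (nat_lit 9) (.e (nat_lit 409605) (nat_lit 0) .nil)))))) (.g (nat_lit 0) .nil .nil)))) (.nd (nat_lit 5) 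
(.lf (nat_lit 110680) (.g (nat_lit 1952) (.e (nat_lit 5411) (nat_lit 303) (.e (nat_lit 73732) (nat_lit 0) (.e (nat_lit 7270) (nat_lit 385) (.e (nat_lit 122916) (nat_lit 14) (.e (nat_lit 352271) (nat_lit 9) (.e (nat_lit 409603) (nat_lit 0) .nil)))))) (.g (nat_lit 6) .nil .nil))) 
(.lf (nat_lit 110712) (.g (nat_lit 1085) (.e (nat_lit 5412) (nat_lit 303) (.e (nat_lit 73729) (nat_lit 0) (.e (nat_lit 7119) (nat_lit 382) (.e (nat_lit 1217) (nat_lit 90) (.e (nat_lit 89856) (nat_lit 10) (.e (nat_lit 417794) (nat_lit 0) .nil)))))) (.g (nat_lit 4) .nil .nil)))))) (.nd (nat_lit 3) (.nd (nat_lit 4) (.nd (nat_lit 5) 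
(.lf (nat_lit 110660) (.g (nat_lit 2021) (.e (nat_lit 5411) (nat_lit 303) (.e (nat_lit 73729) (nat_lit 0) (.e (nat_lit 7265) (nat_lit 384) (.e (nat_lit 57423) (nat_lit 14) (.e (nat_lit 352271) (nat_lit 9) (.e (nat_lit 409605) (nat_lit 0) .nil)))))) (.g (nat_lit 0) .nil .nil))) 
(.lf (nat_lit 110692) (.g (nat_lit 817) (.e (nat_lit 5411) (nat_lit 303) (.e (nat_lit 73772) (nat_lit 24) (.e (nat_lit 761866) (nat_lit 5) (.e (nat_lit 1574) (nat_lit 110) (.e (nat_lit 352271) (nat_lit 9) (.e (nat_lit 409605) (nat_lit 0) .nil)))))) (.g (nat_lit 0) .nil .nil)))) (.nd (nat_lit 5) 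
(.lf (nat_lit 110676) (.g (nat_lit 669) (.e (nat_lit 5411) (nat_lit 303) (.e (nat_lit 73732) (nat_lit 0) (.e (nat_lit 7147) (nat_lit 382) (.e (nat_lit 1217) (nat_lit 90) .nil)))) .nil)) 
(.lf (nat_lit 110708) (.g (nat_lit 1228) (.e (nat_lit 5411) (nat_lit 303) (.e (nat_lit 73775) (nat_lit 26) (.e (nat_lit 778362) (nat_lit 9) (.e (nat_lit 309) (nat_lit 23) .nil)))) .nil)))) (.nd (nat_lit 4) (.nd (nat_lit 5) 
(.lf (nat_lit 110668) (.g (nat_lit 1684) (.e (nat_lit 5411) (nat_lit 303) (.e (nat_lit 73731) (nat_lit 0) (.e (nat_lit 7125) (nat_lit 382) (.e (nat_lit 1224) (nat_lit 90) (.e (nat_lit 89856) (nat_lit 9) .nil))))) .nil)) 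
(.lf (nat_lit 110700) (.g (nat_lit 601) (.e (nat_lit 5411) (nat_lit 303) (.e (nat_lit 73774) (nat_lit 26) (.e (nat_lit 778334) (nat_lit 9) (.e (nat_lit 311) (nat_lit 23) (.e (nat_lit 352271) (nat_lit 9) (.e (nat_lit 409605) (nat_lit 0) .nil)))))) (.g (nat_lit 0) .nil .nil)))) (.nd (nat_lit 5) 
(.lf (nat_lit 110684) (.g (nat_lit 1614) (.e (nat_lit 5411) (nat_lit 303) (.e (nat_lit 73732) (nat_lit 0) (.e (nat_lit 7271) (nat_lit 385) (.e (nat_lit 122916) (nat_lit 14) (.e (nat_lit 352271) (nat_lit 9) (.e (nat_lit 409605) (nat_lit 0) .nil)))))) (.g (nat_lit 5) .nil .nil))) 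
(.lf (nat_lit 110716) (.g (nat_lit 928) (.e (nat_lit 5412) (nat_lit 303) (.e (nat_lit 73729) (nat_lit 0) (.e (nat_lit 7122) (nat_lit 382) (.e (nat_lit 1016) (nat_lit 81) .nil)))) .nil)))))) (.nd (nat_lit 2) (.nd (nat_lit 3) (.nd (nat_lit 4) (.nd (nat_lit 5) 
(.lf (nat_lit 110658) (.g (nat_lit 2087) (.e (nat_lit 5411) (nat_lit 303) (.e (nat_lit 73729) (nat_lit 0) (.e (nat_lit 7265) (nat_lit 384) (.e (nat_lit 57423) (nat_lit 14) (.e (nat_lit 352271) (nat_lit 9) (.e (nat_lit 409603) (nat_lit 0) .nil)))))) (.g (nat_lit 0) .nil .nil))) 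
(.lf (nat_lit 110690) (.g (nat_lit 1651) (.e (nat_lit 5411) (nat_lit 303) (.e (nat_lit 73746) (nat_lit 3) (.e (nat_lit 516146) (nat_lit 9) (.e (nat_lit 426112) (nat_lit 1) .nil)))) .nil))) (.nd (nat_lit 5) 
(.lf (nat_lit 110674) (.g (nat_lit 2247) (.e (nat_lit 5411) (nat_lit 303) (.e (nat_lit 73731) (nat_lit 0) (.e (nat_lit 7266) (nat_lit 384) (.e (nat_lit 57423) (nat_lit 14) (.e (nat_lit 352271) (nat_lit 9) (.e (nat_lit 409603) (nat_lit 0) .nil)))))) (.g (nat_lit 0) .nil .nil))) 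
(.lf (nat_lit 110706) (.g (nat_lit 1503) (.e (nat_lit 5411) (nat_lit 303) (.e (nat_lit 73775) (nat_lit 26) (.e (nat_lit 778361) (nat_lit 9) (.e (nat_lit 312) (nat_lit 23) (.e (nat_lit 352271) (nat_lit 9) (.e (nat_lit 409604) (nat_lit 0) .nil)))))) (.g (nat_lit 0) .nil .nil))))) (.nd (nat_lit 4) (.nd (nat_lit 5) 
(.lf (nat_lit 110666) (.g (nat_lit 2266) (.e (nat_lit 5411) (nat_lit 303) (.e (nat_lit 73729) (nat_lit 0) (.e (nat_lit 7266) (nat_lit 384) (.e (nat_lit 57423) (nat_lit 14) (.e (nat_lit 352271) (nat_lit 9) (.e (nat_lit 409605) (nat_lit 0) .nil)))))) (.g (nat_lit 0) .nil .nil))) 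
(.lf (nat_lit 110698) (.g (nat_lit 615) (.e (nat_lit 5411) (nat_lit 303) (.e (nat_lit 73773) (nat_lit 25) (.e (nat_lit 770057) (nat_lit 5) (.e (nat_lit 1575) (nat_lit 110) (.e (nat_lit 352271) (nat_lit 9) (.e (nat_lit 409605) (nat_lit 0) .nil)))))) (.g (nat_lit 0) .nil .nil)))) (.nd (nat_lit 5) 
(.lf (nat_lit 110682) (.g (nat_lit 1062) (.e (nat_lit 5411) (nat_lit 303) (.e (nat_lit 73732) (nat_lit 0) (.e (nat_lit 7270) (nat_lit 385) (.e (nat_lit 122921) (nat_lit 17) .nil)))) .nil)) 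
(.lf (nat_lit 110714) (.g (nat_lit 548) (.e (nat_lit 5412) (nat_lit 303) (.e (nat_lit 73729) (nat_lit 0) (.e (nat_lit 7119) (nat_lit 382) (.e (nat_lit 1223) (nat_lit 90) .nil)))) .nil))))) (.nd (nat_lit 3) (.nd (nat_lit 4) (.nd (nat_lit 5) 
(.lf (nat_lit 110662) (.g (nat_lit 1047) (.e (nat_lit 5411) (nat_lit 303) (.e (nat_lit 73729) (nat_lit 0) (.e (nat_lit 7265) (nat_lit 384) (.e (nat_lit 57435) (nat_lit 17) .nil)))) .nil)) 
(.lf (nat_lit 110694) (.g (nat_lit 1055) (.e (nat_lit 5411) (nat_lit 303) (.e (nat_lit 73772) (nat_lit 24) (.e (nat_lit 761869) (nat_lit 5) (.e (nat_lit 1574) (nat_lit 110) (.e (nat_lit 352271) (nat_lit 9) (.e (nat_lit 409605) (nat_lit 0) .nil)))))) (.g (nat_lit 0) .nil .nil)))) (.nd (nat_lit 5) 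
(.lf (nat_lit 110678) (.g (nat_lit 1737) (.e (nat_lit 5411) (nat_lit 303) (.e (nat_lit 73732) (nat_lit 0) (.e (nat_lit 7270) (nat_lit 385) (.e (nat_lit 122914) (nat_lit 14) (.e (nat_lit 352271) (nat_lit 9) (.e (nat_lit 409603) (nat_lit 0) .nil)))))) (.g (nat_lit 0) .nil .nil))) 
(.lf (nat_lit 110710) (.g (nat_lit 1045) (.e (nat_lit 5411) (nat_lit 303) (.e (nat_lit 73775) (nat_lit 26) (.e (nat_lit 778362) (nat_lit 9) (.e (nat_lit 334) (nat_lit 26) .nil)))) .nil)))) (.nd (nat_lit 4) (.nd (nat_lit 5) 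
(.lf (nat_lit 110670) (.g (nat_lit 1410) (.e (nat_lit 5411) (nat_lit 303) (.e (nat_lit 73731) (nat_lit 0) (.e (nat_lit 7265) (nat_lit 384) (.e (nat_lit 57423) (nat_lit 14) (.e (nat_lit 352271) (nat_lit 9) .nil))))) .nil)) 
(.lf (nat_lit 110702) (.g (nat_lit 608) (.e (nat_lit 5411) (nat_lit 303) (.e (nat_lit 73774) (nat_lit 26) (.e (nat_lit 778339) (nat_lit 9) (.e (nat_lit 311) (nat_lit 23) (.e (nat_lit 352271) (nat_lit 9) (.e (nat_lit 409605) (nat_lit 0) .nil)))))) (.g (nat_lit 0) .nil .nil)))) (.nd (nat_lit 5) 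
(.lf (nat_lit 110686) (.g (nat_lit 1605) (.e (nat_lit 5411) (nat_lit 303) (.e (nat_lit 73732) (nat_lit 0) (.e (nat_lit 7272) (nat_lit 385) (.e (nat_lit 122914) (nat_lit 14) (.e (nat_lit 352271) (nat_lit 9) (.e (nat_lit 409603) (nat_lit 0) .nil)))))) (.g (nat_lit 0) .nil .nil))) 
(.lf (nat_lit 110718) (.g (nat_lit 2815) (.e (nat_lit 5412) (nat_lit 303) (.e (nat_lit 73729) (nat_lit 0) (.e (nat_lit 7122) (nat_lit 382) (.e (nat_lit 1222) (nat_lit 90) (.e (nat_lit 89856) (nat_lit 10) (.e (nat_lit 417794) (nat_lit 0) .nil)))))) (.g (nat_lit 4) .nil .nil)))))))) (.nd (nat_lit 1) (.nd (nat_lit 2) (.nd (nat_lit 3) (.nd (nat_lit 4) (.nd (nat_lit 5) 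
(.lf (nat_lit 110657) (.g (nat_lit 1906) (.e (nat_lit 5411) (nat_lit 303) (.e (nat_lit 73729) (nat_lit 0) (.e (nat_lit 7263) (nat_lit 384) (.e (nat_lit 57423) (nat_lit 14) (.e (nat_lit 352271) (nat_lit 9) (.e (nat_lit 409605) (nat_lit 0) .nil)))))) (.g (nat_lit 0) .nil .nil))) 
(.lf (nat_lit 110689) (.g (nat_lit 1254) (.e (nat_lit 5411) (nat_lit 303) (.e (nat_lit 73732) (nat_lit 0) (.e (nat_lit 7273) (nat_lit 385) (.e (nat_lit 122914) (nat_lit 14) (.e (nat_lit 352271) (nat_lit 9) (.e (nat_lit 409603) (nat_lit 0) .nil)))))) (.g (nat_lit 0) .nil .nil)))) (.nd (nat_lit 5) 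
(.lf (nat_lit 110673) (.g (nat_lit 2632) (.e (nat_lit 5411) (nat_lit 303) (.e (nat_lit 73731) (nat_lit 0) (.e (nat_lit 7266) (nat_lit 384) (.e (nat_lit 57423) (nat_lit 14) (.e (nat_lit 352271) (nat_lit 9) (.e (nat_lit 409602) (nat_lit 0) .nil)))))) (.g (nat_lit 0) .nil .nil))) 
(.lf (nat_lit 110705) (.g (nat_lit 937) (.e (nat_lit 5411) (nat_lit 303) (.e (nat_lit 73775) (nat_lit 26) (.e (nat_lit 778361) (nat_lit 9) (.e (nat_lit 309) (nat_lit 23) .nil)))) .nil)))) (.nd (nat_lit 4) (.nd (nat_lit 5) 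
(.lf (nat_lit 110665) (.g (nat_lit 2320) (.e (nat_lit 5411) (nat_lit 303) (.e (nat_lit 73729) (nat_lit 0) (.e (nat_lit 7266) (nat_lit 384) (.e (nat_lit 57423) (nat_lit 14) (.e (nat_lit 352271) (nat_lit 9) (.e (nat_lit 409603) (nat_lit 0) .nil)))))) (.g (nat_lit 0) .nil .nil))) 
(.lf (nat_lit 110697) (.g (nat_lit 648) (.e (nat_lit 5411) (nat_lit 303) (.e (nat_lit 73773) (nat_lit 25) (.e (nat_lit 770057) (nat_lit 5) (.e (nat_lit 1575) (nat_lit 110) (.e (nat_lit 352271) (nat_lit 9) (.e (nat_lit 409604) (nat_lit 0) .nil)))))) (.g (nat_lit 0) .nil .nil)))) (.nd (nat_lit 5) 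
(.lf (nat_lit 110681) (.g (nat_lit 1892) (.e (nat_lit 5411) (nat_lit 303) (.e (nat_lit 73732) (nat_lit 0) (.e (nat_lit 7270) (nat_lit 385) (.e (nat_lit 122916) (nat_lit 14) (.e (nat_lit 352271) (nat_lit 9) (.e (nat_lit 409605) (nat_lit 0) .nil)))))) (.g (nat_lit 6) .nil .nil))) 
(.lf (nat_lit 110713) (.g (nat_lit 1042) (.e (nat_lit 5412) (nat_lit 303) (.e (nat_lit 73729) (nat_lit 0) (.e (nat_lit 7119) (nat_lit 382) (.e (nat_lit 1222) (nat_lit 90) (.e (nat_lit 89856) (nat_lit 10) .nil))))) .nil))))) (.nd (nat_lit 3) (.nd (nat_lit 4) (.nd (nat_lit 5) 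
(.lf (nat_lit 110661) (.g (nat_lit 2262) (.e (nat_lit 5411) (nat_lit 303) (.e (nat_lit 73729) (nat_lit 0) (.e (nat_lit 7265) (nat_lit 384) (.e (nat_lit 57424) (nat_lit 14) (.e (nat_lit 352271) (nat_lit 9) .nil))))) .nil)) 
(.lf (nat_lit 110693) (.g (nat_lit 708) (.e (nat_lit 5411) (nat_lit 303) (.e (nat_lit 73772) (nat_lit 24) (.e (nat_lit 761868) (nat_lit 5) (.e (nat_lit 1574) (nat_lit 110) (.e (nat_lit 352271) (nat_lit 9) (.e (nat_lit 409605) (nat_lit 0) .nil)))))) (.g (nat_lit 0) .nil .nil)))) (.nd (nat_lit 5) 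
(.lf (nat_lit 110677) (.g (nat_lit 2092) (.e (nat_lit 5411) (nat_lit 303) (.e (nat_lit 73732) (nat_lit 0) (.e (nat_lit 7270) (nat_lit 385) (.e (nat_lit 122914) (nat_lit 14) (.e (nat_lit 352271) (nat_lit 9) (.e (nat_lit 409602) (nat_lit 0) .nil)))))) (.g (nat_lit 0) .nil .nil))) 
(.lf (nat_lit 110709) (.g (nat_lit 2055) (.e (nat_lit 5411) (nat_lit 303) (.e (nat_lit 73775) (nat_lit 26) (.e (nat_lit 778362) (nat_lit 9) (.e (nat_lit 312) (nat_lit 23) (.e (nat_lit 352271) (nat_lit 9) (.e (nat_lit 409605) (nat_lit 0) .nil)))))) (.g (nat_lit 0) .nil .nil))))) (.nd (nat_lit 4) (.nd (nat_lit 5) 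
(.lf (nat_lit 110669) (.g (nat_lit 1192) (.e (nat_lit 5411) (nat_lit 303) (.e (nat_lit 73731) (nat_lit 0) (.e (nat_lit 7261) (nat_lit 384) (.e (nat_lit 57423) (nat_lit 14) (.e (nat_lit 352271) (nat_lit 9) .nil))))) .nil)) 
(.lf (nat_lit 110701) (.g (nat_lit 502) (.e (nat_lit 5411) (nat_lit 303) (.e (nat_lit 73774) (nat_lit 26) (.e (nat_lit 778337) (nat_lit 9) (.e (nat_lit 311) (nat_lit 23) (.e (nat_lit 352271) (nat_lit 9) (.e (nat_lit 409605) (nat_lit 0) .nil)))))) (.g (nat_lit 0) .nil .nil)))) (.nd (nat_lit 5) 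
(.lf (nat_lit 110685) (.g (nat_lit 1961) (.e (nat_lit 5411) (nat_lit 303) (.e (nat_lit 73732) (nat_lit 0) (.e (nat_lit 7272) (nat_lit 385) (.e (nat_lit 122914) (nat_lit 14) (.e (nat_lit 352271) (nat_lit 9) (.e (nat_lit 409602) (nat_lit 0) .nil)))))) (.g (nat_lit 0) .nil .nil))) 
(.lf (nat_lit 110717) (.g (nat_lit 2580) (.e (nat_lit 5412) (nat_lit 303) (.e (nat_lit 73729) (nat_lit 0) (.e (nat_lit 7122) (nat_lit 382) (.e (nat_lit 1222) (nat_lit 90) (.e (nat_lit 89856) (nat_lit 10) .nil))))) .nil)))))) (.nd (nat_lit 2) (.nd (nat_lit 3) (.nd (nat_lit 4) (.nd (nat_lit 5) 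
(.lf (nat_lit 110659) (.g (nat_lit 2056) (.e (nat_lit 5411) (nat_lit 303) (.e (nat_lit 73729) (nat_lit 0) (.e (nat_lit 7265) (nat_lit 384) (.e (nat_lit 57423) (nat_lit 14) (.e (nat_lit 352271) (nat_lit 9) (.e (nat_lit 409604) (nat_lit 0) .nil)))))) (.g (nat_lit 0) .nil .nil))) 
(.lf (nat_lit 110691) (.g (nat_lit 850) (.e (nat_lit 5411) (nat_lit 303) (.e (nat_lit 73753) (nat_lit 8) (.e (nat_lit 557087) (nat_lit 11) .nil))) .nil))) (.nd (nat_lit 5) 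
(.lf (nat_lit 110675) (.g (nat_lit 658) (.e (nat_lit 5411) (nat_lit 303) (.e (nat_lit 73732) (nat_lit 0) (.e (nat_lit 7147) (nat_lit 382) (.e (nat_lit 1216) (nat_lit 90) .nil)))) .nil)) 
(.lf (nat_lit 110707) (.g (nat_lit 1470) (.e (nat_lit 5411) (nat_lit 303) (.e (nat_lit 73775) (nat_lit 26) (.e (nat_lit 778361) (nat_lit 9) (.e (nat_lit 312) (nat_lit 23) (.e (nat_lit 352271) (nat_lit 9) (.e (nat_lit 409605) (nat_lit 0) .nil)))))) (.g (nat_lit 0) .nil .nil))))) (.nd (nat_lit 4) (.nd (nat_lit 5) 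
(.lf (nat_lit 110667) (.g (nat_lit 1672) (.e (nat_lit 5411) (nat_lit 303) (.e (nat_lit 73731) (nat_lit 0) (.e (nat_lit 7125) (nat_lit 382) (.e (nat_lit 1222) (nat_lit 90) (.e (nat_lit 89856) (nat_lit 9) .nil))))) .nil)) 
(.lf (nat_lit 110699) (.g (nat_lit 839) (.e (nat_lit 5411) (nat_lit 303) (.e (nat_lit 73773) (nat_lit 25) (.e (nat_lit 770058) (nat_lit 5) (.e (nat_lit 1575) (nat_lit 110) (.e (nat_lit 352271) (nat_lit 9) (.e (nat_lit 409604) (nat_lit 0) .nil)))))) (.g (nat_lit 0) .nil .nil)))) (.nd (nat_lit 5) 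
(.lf (nat_lit 110683) (.g (nat_lit 1669) (.e (nat_lit 5411) (nat_lit 303) (.e (nat_lit 73732) (nat_lit 0) (.e (nat_lit 7271) (nat_lit 385) (.e (nat_lit 122914) (nat_lit 14) (.e (nat_lit 352271) (nat_lit 9) (.e (nat_lit 409603) (nat_lit 0) .nil)))))) (.g (nat_lit 0) .nil .nil))) 
(.lf (nat_lit 110715) (.g (nat_lit 938) (.e (nat_lit 5412) (nat_lit 303) (.e (nat_lit 73729) (nat_lit 0) (.e (nat_lit 7119) (nat_lit 382) (.e (nat_lit 1224) (nat_lit 90) (.e (nat_lit 89856) (nat_lit 10) .nil))))) .nil))))) (.nd (nat_lit 3) (.nd (nat_lit 4) (.nd (nat_lit 5) 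
(.lf (nat_lit 110663) (.g (nat_lit 1081) (.e (nat_lit 5411) (nat_lit 303) (.e (nat_lit 73729) (nat_lit 0) (.e (nat_lit 7265) (nat_lit 384) (.e (nat_lit 57436) (nat_lit 17) .nil)))) .nil)) 
(.lf (nat_lit 110695) (.g (nat_lit 718) (.e (nat_lit 5411) (nat_lit 303) (.e (nat_lit 73773) (nat_lit 25) (.e (nat_lit 770055) (nat_lit 5) (.e (nat_lit 1575) (nat_lit 110) (.e (nat_lit 352271) (nat_lit 9) (.e (nat_lit 409604) (nat_lit 0) .nil)))))) (.g (nat_lit 0) .nil .nil)))) (.nd (nat_lit 5) 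
(.lf (nat_lit 110679) (.g (nat_lit 2287) (.e (nat_lit 5411) (nat_lit 303) (.e (nat_lit 73732) (nat_lit 0) (.e (nat_lit 7270) (nat_lit 385) (.e (nat_lit 122916) (nat_lit 14) (.e (nat_lit 352271) (nat_lit 9) (.e (nat_lit 409602) (nat_lit 0) .nil)))))) (.g (nat_lit 6) .nil .nil))) 
(.lf (nat_lit 110711) (.g (nat_lit 1029) (.e (nat_lit 5412) (nat_lit 303) (.e (nat_lit 73729) (nat_lit 0) (.e (nat_lit 7119) (nat_lit 382) (.e (nat_lit 1217) (nat_lit 90) (.e (nat_lit 89856) (nat_lit 10) (.e (nat_lit 417793) (nat_lit 0) .nil)))))) (.g (nat_lit 4) .nil .nil))))) (.nd (nat_lit 4) (.nd (nat_lit 5) 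
(.lf (nat_lit 110671) (.g (nat_lit 1911) (.e (nat_lit 5411) (nat_lit 303) (.e (nat_lit 73731) (nat_lit 0) (.e (nat_lit 7265) (nat_lit 384) (.e (nat_lit 57424) (nat_lit 14) (.e (nat_lit 352271) (nat_lit 9) .nil))))) .nil)) 
(.lf (nat_lit 110703) (.g (nat_lit 1033) (.e (nat_lit 5411) (nat_lit 303) (.e (nat_lit 73775) (nat_lit 26) (.e (nat_lit 778359) (nat_lit 9) (.e (nat_lit 312) (nat_lit 23) (.e (nat_lit 352271) (nat_lit 9) (.e (nat_lit 409605) (nat_lit 0) .nil)))))) (.g (nat_lit 0) .nil .nil)))) (.nd (nat_lit 5) 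
(.lf (nat_lit 110687) (.g (nat_lit 1679) (.e (nat_lit 5411) (nat_lit 303) (.e (nat_lit 73732) (nat_lit 0) (.e (nat_lit 7272) (nat_lit 385) (.e (nat_lit 122916) (nat_lit 14) (.e (nat_lit 352271) (nat_lit 9) (.e (nat_lit 409605) (nat_lit 0) .nil)))))) (.g (nat_lit 5) .nil .nil))) 
(.lf (nat_lit 110719) (.g (nat_lit 1820) (.e (nat_lit 5412) (nat_lit 303) (.e (nat_lit 73729) (nat_lit 0) (.e (nat_lit 7122) (nat_lit 382) (.e (nat_lit 1223) (nat_lit 90) .nil)))) .nil))))))))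

noncomputable def tv1494 : DT := (.nd (nat_lit 0) (.nd (nat_lit 1) (.nd (nat_lit 2) (.nd (nat_lit 3) (.nd (nat_lit 4) (.nd (nat_lit 5) 
(.lf (nat_lit 110720) (.g (nat_lit 2366) (.e (nat_lit 5412) (nat_lit 303) (.e (nat_lit 73729) (nat_lit 0) (.e (nat_lit 7122) (nat_lit 382) (.e (nat_lit 1224) (nat_lit 90) (.e (nat_lit 89856) (nat_lit 10) .nil))))) .nil)) 
(.lf (nat_lit 110752) (.g (nat_lit 2757) (.e (nat_lit 5412) (nat_lit 303) (.e (nat_lit 73729) (nat_lit 0) (.e (nat_lit 7265) (nat_lit 384) (.e (nat_lit 57424) (nat_lit 14) (.e (nat_lit 352272) (nat_lit 10) (.e (nat_lit 417794) (nat_lit 0) .nil)))))) (.g (nat_lit 6) .nil .nil)))) (.nd (nat_lit 5) 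
(.lf (nat_lit 110736) (.g (nat_lit 2217) (.e (nat_lit 5412) (nat_lit 303) (.e (nat_lit 73729) (nat_lit 0) (.e (nat_lit 7261) (nat_lit 384) (.e (nat_lit 57424) (nat_lit 14) (.e (nat_lit 352272) (nat_lit 10) (.e (nat_lit 417793) (nat_lit 0) .nil)))))) (.g (nat_lit 0) .nil .nil))) 
(.lf (nat_lit 110768) (.g (nat_lit 1861) (.e (nat_lit 5412) (nat_lit 303) (.e (nat_lit 73731) (nat_lit 0) (.e (nat_lit 7266) (nat_lit 384) (.e (nat_lit 57424) (nat_lit 14) (.e (nat_lit 352272) (nat_lit 10) (.e (nat_lit 417796) (nat_lit 0) .nil)))))) (.g (nat_lit 4) .nil .nil))))) (.nd (nat_lit 4) (.nd (nat_lit 5) 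
(.lf (nat_lit 110728) (.g (nat_lit 2119) (.e (nat_lit 5412) (nat_lit 303) (.e (nat_lit 73729) (nat_lit 0) (.e (nat_lit 7124) (nat_lit 382) (.e (nat_lit 1224) (nat_lit 90) (.e (nat_lit 89856) (nat_lit 10) (.e (nat_lit 417794) (nat_lit 0) .nil)))))) (.g (nat_lit 4) .nil .nil))) 
(.lf (nat_lit 110760) (.g (nat_lit 2786) (.e (nat_lit 5412) (nat_lit 303) (.e (nat_lit 73729) (nat_lit 0) (.e (nat_lit 7266) (nat_lit 384) (.e (nat_lit 57424) (nat_lit 14) (.e (nat_lit 352272) (nat_lit 10) (.e (nat_lit 417793) (nat_lit 0) .nil)))))) (.g (nat_lit 0) .nil .nil)))) (.nd (nat_lit 5) 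
(.lf (nat_lit 110744) (.g (nat_lit 2458) (.e (nat_lit 5412) (nat_lit 303) (.e (nat_lit 73729) (nat_lit 0) (.e (nat_lit 7263) (nat_lit 384) (.e (nat_lit 57423) (nat_lit 14) (.e (nat_lit 352272) (nat_lit 10) (.e (nat_lit 417794) (nat_lit 0) .nil)))))) (.g (nat_lit 0) .nil .nil))) 
(.lf (nat_lit 110776) (.g (nat_lit 1219) (.e (nat_lit 5412) (nat_lit 303) (.e (nat_lit 73732) (nat_lit 0) (.e (nat_lit 7146) (nat_lit 382) (.e (nat_lit 1216) (nat_lit 90) (.e (nat_lit 89856) (nat_lit 10) (.e (nat_lit 417794) (nat_lit 0) .nil)))))) (.g (nat_lit 4) .nil .nil)))))) (.nd (nat_lit 3) (.nd (nat_lit 4) (.nd (nat_lit 5) 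
(.lf (nat_lit 110724) (.g (nat_lit 2152) (.e (nat_lit 5412) (nat_lit 303) (.e (nat_lit 73729) (nat_lit 0) (.e (nat_lit 7124) (nat_lit 382) (.e (nat_lit 1222) (nat_lit 90) (.e (nat_lit 89856) (nat_lit 10) .nil))))) .nil)) 
(.lf (nat_lit 110756) (.g (nat_lit 1679) (.e (nat_lit 5412) (nat_lit 303) (.e (nat_lit 73729) (nat_lit 0) (.e (nat_lit 7265) (nat_lit 384) (.e (nat_lit 57425) (nat_lit 14) (.e (nat_lit 352272) (nat_lit 10) (.e (nat_lit 417794) (nat_lit 0) .nil)))))) (.g (nat_lit 6) .nil .nil)))) (.nd (nat_lit 5) 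
(.lf (nat_lit 110740) (.g (nat_lit 1473) (.e (nat_lit 5412) (nat_lit 303) (.e (nat_lit 73729) (nat_lit 0) (.e (nat_lit 7261) (nat_lit 384) (.e (nat_lit 57425) (nat_lit 14) (.e (nat_lit 352272) (nat_lit 10) (.e (nat_lit 417793) (nat_lit 0) .nil)))))) (.g (nat_lit 0) .nil .nil))) 
(.lf (nat_lit 110772) (.g (nat_lit 1264) (.e (nat_lit 5412) (nat_lit 303) (.e (nat_lit 73732) (nat_lit 0) (.e (nat_lit 7144) (nat_lit 382) (.e (nat_lit 1217) (nat_lit 90) (.e (nat_lit 89856) (nat_lit 10) (.e (nat_lit 417793) (nat_lit 0) .nil)))))) (.g (nat_lit 4) .nil .nil))))) (.nd (nat_lit 4) (.nd (nat_lit 5) 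
(.lf (nat_lit 110732) (.g (nat_lit 654) (.e (nat_lit 5412) (nat_lit 303) (.e (nat_lit 73729) (nat_lit 0) (.e (nat_lit 7128) (nat_lit 382) .nil))) .nil)) 
(.lf (nat_lit 110764) (.g (nat_lit 1504) (.e (nat_lit 5412) (nat_lit 303) (.e (nat_lit 73731) (nat_lit 0) (.e (nat_lit 7266) (nat_lit 384) (.e (nat_lit 57423) (nat_lit 14) (.e (nat_lit 352272) (nat_lit 10) (.e (nat_lit 417794) (nat_lit 0) .nil)))))) (.g (nat_lit 4) .nil .nil)))) (.nd (nat_lit 5) 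
(.lf (nat_lit 110748) (.g (nat_lit 752) (.e (nat_lit 5412) (nat_lit 303) (.e (nat_lit 73729) (nat_lit 0) (.e (nat_lit 7263) (nat_lit 384) (.e (nat_lit 57424) (nat_lit 14) (.e (nat_lit 360192) (nat_lit 10) (.e (nat_lit 417796) (nat_lit 0) .nil)))))) (.g (nat_lit 4) .nil .nil))) 
(.lf (nat_lit 110780) (.g (nat_lit 2145) (.e (nat_lit 5412) (nat_lit 303) (.e (nat_lit 73732) (nat_lit 0) (.e (nat_lit 7270) (nat_lit 385) (.e (nat_lit 122914) (nat_lit 14) (.e (nat_lit 352272) (nat_lit 10) (.e (nat_lit 417794) (nat_lit 0) .nil)))))) (.g (nat_lit 0) .nil .nil))))))) (.nd (nat_lit 2) (.nd (nat_lit 3) (.nd (nat_lit 4) (.nd (nat_lit 5) 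
(.lf (nat_lit 110722) (.g (nat_lit 254) (.e (nat_lit 5412) (nat_lit 303) (.e (nat_lit 73729) (nat_lit 0) (.e (nat_lit 7124) (nat_lit 382) .nil))) .nil)) 
(.lf (nat_lit 110754) (.g (nat_lit 1256) (.e (nat_lit 5412) (nat_lit 303) (.e (nat_lit 73729) (nat_lit 0) (.e (nat_lit 7265) (nat_lit 384) (.e (nat_lit 57424) (nat_lit 14) (.e (nat_lit 360192) (nat_lit 10) (.e (nat_lit 417794) (nat_lit 0) .nil)))))) (.g (nat_lit 4) .nil .nil)))) (.nd (nat_lit 5) 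
(.lf (nat_lit 110738) (.g (nat_lit 732) (.e (nat_lit 5412) (nat_lit 303) (.e (nat_lit 73729) (nat_lit 0) (.e (nat_lit 7261) (nat_lit 384) (.e (nat_lit 57424) (nat_lit 14) (.e (nat_lit 360192) (nat_lit 10) (.e (nat_lit 417795) (nat_lit 0) .nil)))))) (.g (nat_lit 4) .nil .nil))) 
(.lf (nat_lit 110770) (.g (nat_lit 1067) (.e (nat_lit 5412) (nat_lit 303) (.e (nat_lit 73732) (nat_lit 0) (.e (nat_lit 7936) (nat_lit 242) (.e (nat_lit 122919) (nat_lit 15) (.e (nat_lit 360464) (nat_lit 2) .nil))))) .nil)))) (.nd (nat_lit 4) (.nd (nat_lit 5) 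
(.lf (nat_lit 110730) (.g (nat_lit 1920) (.e (nat_lit 5412) (nat_lit 303) (.e (nat_lit 73729) (nat_lit 0) (.e (nat_lit 7125) (nat_lit 382) (.e (nat_lit 1223) (nat_lit 90) .nil)))) .nil)) 
(.lf (nat_lit 110762) (.g (nat_lit 1684) (.e (nat_lit 5412) (nat_lit 303) (.e (nat_lit 73731) (nat_lit 0) (.e (nat_lit 7125) (nat_lit 382) (.e (nat_lit 1222) (nat_lit 90) (.e (nat_lit 89856) (nat_lit 10) .nil))))) .nil))) (.nd (nat_lit 5) 
(.lf (nat_lit 110746) (.g (nat_lit 2547) (.e (nat_lit 5412) (nat_lit 303) (.e (nat_lit 73729) (nat_lit 0) (.e (nat_lit 7263) (nat_lit 384) (.e (nat_lit 57424) (nat_lit 14) (.e (nat_lit 352272) (nat_lit 10) (.e (nat_lit 417794) (nat_lit 0) .nil)))))) (.g (nat_lit 6) .nil .nil))) 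
(.lf (nat_lit 110778) (.g (nat_lit 584) (.e (nat_lit 5412) (nat_lit 303) (.e (nat_lit 73732) (nat_lit 0) (.e (nat_lit 7936) (nat_lit 382) .nil))) .nil))))) (.nd (nat_lit 3) (.nd (nat_lit 4) (.nd (nat_lit 5) 
(.lf (nat_lit 110726) (.g (nat_lit 1197) (.e (nat_lit 5412) (nat_lit 303) (.e (nat_lit 73729) (nat_lit 0) (.e (nat_lit 7124) (nat_lit 382) (.e (nat_lit 1223) (nat_lit 90) .nil)))) .nil)) 
(.lf (nat_lit 110758) (.g (nat_lit 449) (.e (nat_lit 5412) (nat_lit 303) (.e (nat_lit 73729) (nat_lit 0) (.e (nat_lit 7265) (nat_lit 384) (.e (nat_lit 57435) (nat_lit 17) .nil)))) .nil))) (.nd (nat_lit 5) 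
(.lf (nat_lit 110742) (.g (nat_lit 1614) (.e (nat_lit 5412) (nat_lit 303) (.e (nat_lit 73729) (nat_lit 0) (.e (nat_lit 7261) (nat_lit 384) (.e (nat_lit 57425) (nat_lit 14) (.e (nat_lit 352272) (nat_lit 10) (.e (nat_lit 417796) (nat_lit 0) .nil)))))) (.g (nat_lit 6) .nil .nil))) 
(.lf (nat_lit 110774) (.g (nat_lit 1206) (.e (nat_lit 5412) (nat_lit 303) (.e (nat_lit 73732) (nat_lit 0) (.e (nat_lit 7145) (nat_lit 382) (.e (nat_lit 1216) (nat_lit 90) (.e (nat_lit 89856) (nat_lit 10) (.e (nat_lit 417794) (nat_lit 0) .nil)))))) (.g (nat_lit 4) .nil .nil))))) (.nd (nat_lit 4) (.nd (nat_lit 5) 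
(.lf (nat_lit 110734) (.g (nat_lit 2097) (.e (nat_lit 5412) (nat_lit 303) (.e (nat_lit 73729) (nat_lit 0) (.e (nat_lit 7261) (nat_lit 384) (.e (nat_lit 57423) (nat_lit 14) (.e (nat_lit 352272) (nat_lit 10) (.e (nat_lit 417794) (nat_lit 0) .nil)))))) (.g (nat_lit 0) .nil .nil))) 
(.lf (nat_lit 110766) (.g (nat_lit 1535) (.e (nat_lit 5412) (nat_lit 303) (.e (nat_lit 73731) (nat_lit 0) (.e (nat_lit 7266) (nat_lit 384) (.e (nat_lit 57424) (nat_lit 14) (.e (nat_lit 352272) (nat_lit 10) (.e (nat_lit 417794) (nat_lit 0) .nil)))))) (.g (nat_lit 4) .nil .nil)))) (.nd (nat_lit 5) 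
(.lf (nat_lit 110750) (.g (nat_lit 2838) (.e (nat_lit 5412) (nat_lit 303) (.e (nat_lit 73729) (nat_lit 0) (.e (nat_lit 7265) (nat_lit 384) (.e (nat_lit 57423) (nat_lit 14) (.e (nat_lit 352272) (nat_lit 10) (.e (nat_lit 417796) (nat_lit 0) .nil)))))) (.g (nat_lit 0) .nil .nil))) 
(.lf (nat_lit 110782) (.g (nat_lit 2474) (.e (nat_lit 5412) (nat_lit 303) (.e (nat_lit 73732) (nat_lit 0) (.e (nat_lit 7270) (nat_lit 385) (.e (nat_lit 122914) (nat_lit 14) (.e (nat_lit 352272) (nat_lit 10) (.e (nat_lit 417796) (nat_lit 0) .nil)))))) (.g (nat_lit 0) .nil .nil)))))))) (.nd (nat_lit 1) (.nd (nat_lit 2) (.nd (nat_lit 3) (.nd (nat_lit 4) (.nd (nat_lit 5) 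
(.lf (nat_lit 110721) (.g (nat_lit 2602) (.e (nat_lit 5412) (nat_lit 303) (.e (nat_lit 73729) (nat_lit 0) (.e (nat_lit 7122) (nat_lit 382) (.e (nat_lit 1224) (nat_lit 90) (.e (nat_lit 89856) (nat_lit 10) (.e (nat_lit 417794) (nat_lit 0) .nil)))))) (.g (nat_lit 4) .nil .nil))) 
(.lf (nat_lit 110753) (.g (nat_lit 947) (.e (nat_lit 5412) (nat_lit 303) (.e (nat_lit 73729) (nat_lit 0) (.e (nat_lit 7265) (nat_lit 384) (.e (nat_lit 57424) (nat_lit 14) (.e (nat_lit 360192) (nat_lit 10) (.e (nat_lit 417793) (nat_lit 0) .nil)))))) (.g (nat_lit 4) .nil .nil)))) (.nd (nat_lit 5) 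
(.lf (nat_lit 110737) (.g (nat_lit 2268) (.e (nat_lit 5412) (nat_lit 303) (.e (nat_lit 73729) (nat_lit 0) (.e (nat_lit 7261) (nat_lit 384) (.e (nat_lit 57424) (nat_lit 14) (.e (nat_lit 352272) (nat_lit 10) (.e (nat_lit 417794) (nat_lit 0) .nil)))))) (.g (nat_lit 6) .nil .nil))) 
(.lf (nat_lit 110769) (.g (nat_lit 584) (.e (nat_lit 5412) (nat_lit 303) (.e (nat_lit 73732) (nat_lit 0) (.e (nat_lit 7936) (nat_lit 242) .nil))) .nil)))) (.nd (nat_lit 4) (.nd (nat_lit 5) 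
(.lf (nat_lit 110729) (.g (nat_lit 2263) (.e (nat_lit 5412) (nat_lit 303) (.e (nat_lit 73729) (nat_lit 0) (.e (nat_lit 7125) (nat_lit 382) (.e (nat_lit 1222) (nat_lit 90) (.e (nat_lit 89856) (nat_lit 10) (.e (nat_lit 417793) (nat_lit 0) .nil)))))) (.g (nat_lit 4) .nil .nil))) 
(.lf (nat_lit 110761) (.g (nat_lit 2815) (.e (nat_lit 5412) (nat_lit 303) (.e (nat_lit 73729) (nat_lit 0) (.e (nat_lit 7266) (nat_lit 384) (.e (nat_lit 57424) (nat_lit 14) (.e (nat_lit 352272) (nat_lit 10) (.e (nat_lit 417794) (nat_lit 0) .nil)))))) (.g (nat_lit 6) .nil .nil)))) (.nd (nat_lit 5) 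
(.lf (nat_lit 110745) (.g (nat_lit 2457) (.e (nat_lit 5412) (nat_lit 303) (.e (nat_lit 73729) (nat_lit 0) (.e (nat_lit 7263) (nat_lit 384) (.e (nat_lit 57424) (nat_lit 14) (.e (nat_lit 352272) (nat_lit 10) (.e (nat_lit 417793) (nat_lit 0) .nil)))))) (.g (nat_lit 6) .nil .nil))) 
(.lf (nat_lit 110777) (.g (nat_lit 1454) (.e (nat_lit 5412) (nat_lit 303) (.e (nat_lit 73732) (nat_lit 0) (.e (nat_lit 7147) (nat_lit 382) (.e (nat_lit 1216) (nat_lit 90) (.e (nat_lit 89856) (nat_lit 10) (.e (nat_lit 417794) (nat_lit 0) .nil)))))) (.g (nat_lit 4) .nil .nil)))))) (.nd (nat_lit 3) (.nd (nat_lit 4) (.nd (nat_lit 5) 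
(.lf (nat_lit 110725) (.g (nat_lit 2439) (.e (nat_lit 5412) (nat_lit 303) (.e (nat_lit 73729) (nat_lit 0) (.e (nat_lit 7124) (nat_lit 382) (.e (nat_lit 1222) (nat_lit 90) (.e (nat_lit 89856) (nat_lit 10) (.e (nat_lit 417794) (nat_lit 0) .nil)))))) (.g (nat_lit 4) .nil .nil))) 
(.lf (nat_lit 110757) (.g (nat_lit 1893) (.e (nat_lit 5412) (nat_lit 303) (.e (nat_lit 73729) (nat_lit 0) (.e (nat_lit 7265) (nat_lit 384) (.e (nat_lit 57425) (nat_lit 14) (.e (nat_lit 352272) (nat_lit 10) (.e (nat_lit 417796) (nat_lit 0) .nil)))))) (.g (nat_lit 6) .nil .nil)))) (.nd (nat_lit 5) 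
(.lf (nat_lit 110741) (.g (nat_lit 1418) (.e (nat_lit 5412) (nat_lit 303) (.e (nat_lit 73729) (nat_lit 0) (.e (nat_lit 7261) (nat_lit 384) (.e (nat_lit 57425) (nat_lit 14) (.e (nat_lit 352272) (nat_lit 10) (.e (nat_lit 417794) (nat_lit 0) .nil)))))) (.g (nat_lit 6) .nil .nil))) 
(.lf (nat_lit 110773) (.g (nat_lit 1197) (.e (nat_lit 5412) (nat_lit 303) (.e (nat_lit 73732) (nat_lit 0) (.e (nat_lit 7145) (nat_lit 382) (.e (nat_lit 1216) (nat_lit 90) (.e (nat_lit 89856) (nat_lit 10) (.e (nat_lit 417793) (nat_lit 0) .nil)))))) (.g (nat_lit 4) .nil .nil))))) (.nd (nat_lit 4) (.nd (nat_lit 5) 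
(.lf (nat_lit 110733) (.g (nat_lit 654) (.e (nat_lit 5412) (nat_lit 303) (.e (nat_lit 73729) (nat_lit 0) (.e (nat_lit 7219) (nat_lit 382) .nil))) .nil)) 
(.lf (nat_lit 110765) (.g (nat_lit 1809) (.e (nat_lit 5412) (nat_lit 303) (.e (nat_lit 73731) (nat_lit 0) (.e (nat_lit 7266) (nat_lit 384) (.e (nat_lit 57423) (nat_lit 14) (.e (nat_lit 352272) (nat_lit 10) (.e (nat_lit 417796) (nat_lit 0) .nil)))))) (.g (nat_lit 4) .nil .nil)))) (.nd (nat_lit 5) 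
(.lf (nat_lit 110749) (.g (nat_lit 2551) (.e (nat_lit 5412) (nat_lit 303) (.e (nat_lit 73729) (nat_lit 0) (.e (nat_lit 7265) (nat_lit 384) (.e (nat_lit 57423) (nat_lit 14) (.e (nat_lit 352272) (nat_lit 10) (.e (nat_lit 417794) (nat_lit 0) .nil)))))) (.g (nat_lit 0) .nil .nil))) 
(.lf (nat_lit 110781) (.g (nat_lit 2524) (.e (nat_lit 5412) (nat_lit 303) (.e (nat_lit 73732) (nat_lit 0) (.e (nat_lit 7270) (nat_lit 385) (.e (nat_lit 122914) (nat_lit 14) (.e (nat_lit 352272) (nat_lit 10) (.e (nat_lit 417795) (nat_lit 0) .nil)))))) (.g (nat_lit 0) .nil .nil))))))) (.nd (nat_lit 2) (.nd (nat_lit 3) (.nd (nat_lit 4) (.nd (nat_lit 5) 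
(.lf (nat_lit 110723) (.g (nat_lit 837) (.e (nat_lit 5412) (nat_lit 303) (.e (nat_lit 73729) (nat_lit 0) (.e (nat_lit 7124) (nat_lit 382) (.e (nat_lit 1016) (nat_lit 81) .nil)))) .nil)) 
(.lf (nat_lit 110755) (.g (nat_lit 1741) (.e (nat_lit 5412) (nat_lit 303) (.e (nat_lit 73729) (nat_lit 0) (.e (nat_lit 7265) (nat_lit 384) (.e (nat_lit 57425) (nat_lit 14) (.e (nat_lit 352272) (nat_lit 10) (.e (nat_lit 417793) (nat_lit 0) .nil)))))) (.g (nat_lit 6) .nil .nil)))) (.nd (nat_lit 5) 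
(.lf (nat_lit 110739) (.g (nat_lit 673) (.e (nat_lit 5412) (nat_lit 303) (.e (nat_lit 73729) (nat_lit 0) (.e (nat_lit 7261) (nat_lit 384) (.e (nat_lit 57424) (nat_lit 14) (.e (nat_lit 360192) (nat_lit 10) (.e (nat_lit 417796) (nat_lit 0) .nil)))))) (.g (nat_lit 4) .nil .nil))) 
(.lf (nat_lit 110771) (.g (nat_lit 803) (.e (nat_lit 5412) (nat_lit 303) (.e (nat_lit 73732) (nat_lit 0) (.e (nat_lit 7144) (nat_lit 382) (.e (nat_lit 1216) (nat_lit 90) (.e (nat_lit 89856) (nat_lit 10) .nil))))) .nil)))) (.nd (nat_lit 4) (.nd (nat_lit 5) 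
(.lf (nat_lit 110731) (.g (nat_lit 2267) (.e (nat_lit 5412) (nat_lit 303) (.e (nat_lit 73729) (nat_lit 0) (.e (nat_lit 7125) (nat_lit 382) (.e (nat_lit 1224) (nat_lit 90) (.e (nat_lit 89856) (nat_lit 10) (.e (nat_lit 417793) (nat_lit 0) .nil)))))) (.g (nat_lit 4) .nil .nil))) 
(.lf (nat_lit 110763) (.g (nat_lit 1701) (.e (nat_lit 5412) (nat_lit 303) (.e (nat_lit 73731) (nat_lit 0) (.e (nat_lit 7125) (nat_lit 382) (.e (nat_lit 1224) (nat_lit 90) (.e (nat_lit 89856) (nat_lit 10) .nil))))) .nil))) (.nd (nat_lit 5) 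
(.lf (nat_lit 110747) (.g (nat_lit 805) (.e (nat_lit 5412) (nat_lit 303) (.e (nat_lit 73729) (nat_lit 0) (.e (nat_lit 7263) (nat_lit 384) (.e (nat_lit 57424) (nat_lit 14) (.e (nat_lit 360192) (nat_lit 10) (.e (nat_lit 417795) (nat_lit 0) .nil)))))) (.g (nat_lit 4) .nil .nil))) 
(.lf (nat_lit 110779) (.g (nat_lit 1041) (.e (nat_lit 5412) (nat_lit 303) (.e (nat_lit 73732) (nat_lit 0) (.e (nat_lit 7936) (nat_lit 384) (.e (nat_lit 57424) (nat_lit 14) (.e (nat_lit 352272) (nat_lit 10) .nil))))) .nil))))) (.nd (nat_lit 3) (.nd (nat_lit 4) (.nd (nat_lit 5) 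
(.lf (nat_lit 110727) (.g (nat_lit 1835) (.e (nat_lit 5412) (nat_lit 303) (.e (nat_lit 73729) (nat_lit 0) (.e (nat_lit 7124) (nat_lit 382) (.e (nat_lit 1224) (nat_lit 90) (.e (nat_lit 89856) (nat_lit 10) .nil))))) .nil)) 
(.lf (nat_lit 110759) (.g (nat_lit 1041) (.e (nat_lit 5412) (nat_lit 303) (.e (nat_lit 73729) (nat_lit 0) (.e (nat_lit 7265) (nat_lit 384) (.e (nat_lit 57436) (nat_lit 17) (.e (nat_lit 384768) (nat_lit 10) (.e (nat_lit 417793) (nat_lit 0) .nil)))))) (.g (nat_lit 4) .nil .nil)))) (.nd (nat_lit 5) 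
(.lf (nat_lit 110743) (.g (nat_lit 984) (.e (nat_lit 5412) (nat_lit 303) (.e (nat_lit 73729) (nat_lit 0) (.e (nat_lit 7261) (nat_lit 384) (.e (nat_lit 57436) (nat_lit 17) (.e (nat_lit 384768) (nat_lit 10) .nil))))) .nil)) 
(.lf (nat_lit 110775) (.g (nat_lit 1162) (.e (nat_lit 5412) (nat_lit 303) (.e (nat_lit 73732) (nat_lit 0) (.e (nat_lit 7145) (nat_lit 382) (.e (nat_lit 1217) (nat_lit 90) (.e (nat_lit 89856) (nat_lit 10) (.e (nat_lit 417793) (nat_lit 0) .nil)))))) (.g (nat_lit 4) .nil .nil))))) (.nd (nat_lit 4) (.nd (nat_lit 5) 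
(.lf (nat_lit 110735) (.g (nat_lit 2381) (.e (nat_lit 5412) (nat_lit 303) (.e (nat_lit 73729) (nat_lit 0) (.e (nat_lit 7261) (nat_lit 384) (.e (nat_lit 57423) (nat_lit 14) (.e (nat_lit 352272) (nat_lit 10) (.e (nat_lit 417796) (nat_lit 0) .nil)))))) (.g (nat_lit 0) .nil .nil))) 
(.lf (nat_lit 110767) (.g (nat_lit 1923) (.e (nat_lit 5412) (nat_lit 303) (.e (nat_lit 73731) (nat_lit 0) (.e (nat_lit 7266) (nat_lit 384) (.e (nat_lit 57424) (nat_lit 14) (.e (nat_lit 352272) (nat_lit 10) (.e (nat_lit 417795) (nat_lit 0) .nil)))))) (.g (nat_lit 5) .nil .nil)))) (.nd (nat_lit 5) 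
(.lf (nat_lit 110751) (.g (nat_lit 2720) (.e (nat_lit 5412) (nat_lit 303) (.e (nat_lit 73729) (nat_lit 0) (.e (nat_lit 7265) (nat_lit 384) (.e (nat_lit 57424) (nat_lit 14) (.e (nat_lit 352272) (nat_lit 10) (.e (nat_lit 417793) (nat_lit 0) .nil)))))) (.g (nat_lit 0) .nil .nil))) 
(.lf (nat_lit 110783) (.g (nat_lit 962) (.e (nat_lit 5412) (nat_lit 303) (.e (nat_lit 73732) (nat_lit 0) (.e (nat_lit 7270) (nat_lit 385) (.e (nat_lit 122914) (nat_lit 14) (.e (nat_lit 360192) (nat_lit 10) .nil))))) .nil))))))))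

noncomputable def tv1495 : DT := (.nd (nat_lit 0) (.nd (nat_lit 1) (.nd (nat_lit 2) (.nd (nat_lit 3) (.nd (nat_lit 4) (.nd (nat_lit 5) 
(.lf (nat_lit 110784) (.g (nat_lit 1160) (.e (nat_lit 5412) (nat_lit 303) (.e (nat_lit 73732) (nat_lit 0) (.e (nat_lit 7270) (nat_lit 385) (.e (nat_lit 122914) (nat_lit 14) (.e (nat_lit 360192) (nat_lit 10) (.e (nat_lit 417795) (nat_lit 0) .nil)))))) (.g (nat_lit 4) .nil .nil))) 
(.lf (nat_lit 110816) (.g (nat_lit 1249) (.e (nat_lit 5412) (nat_lit 303) (.e (nat_lit 81664) (nat_lit 0) (.e (nat_lit 7125) (nat_lit 382) (.e (nat_lit 1224) (nat_lit 90) (.e (nat_lit 89856) (nat_lit 10) (.e (nat_lit 417794) (nat_lit 0) .nil)))))) (.g (nat_lit 4) .nil .nil)))) (.nd (nat_lit 5) 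
(.lf (nat_lit 110800) (.g (nat_lit 2279) (.e (nat_lit 5412) (nat_lit 303) (.e (nat_lit 73732) (nat_lit 0) (.e (nat_lit 7271) (nat_lit 385) (.e (nat_lit 122916) (nat_lit 14) (.e (nat_lit 352272) (nat_lit 10) (.e (nat_lit 417793) (nat_lit 0) .nil)))))) (.g (nat_lit 0) .nil .nil))) 
(.lf (nat_lit 110832) (.g (nat_lit 958) (.e (nat_lit 5412) (nat_lit 303) (.e (nat_lit 73744) (nat_lit 2) (.e (nat_lit 507922) (nat_lit 6) (.e (nat_lit 286753) (nat_lit 10) (.e (nat_lit 344115) (nat_lit 20) .nil))))) .nil)))) (.nd (nat_lit 4) (.nd (nat_lit 5) 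
(.lf (nat_lit 110792) (.g (nat_lit 2562) (.e (nat_lit 5412) (nat_lit 303) (.e (nat_lit 73732) (nat_lit 0) (.e (nat_lit 7270) (nat_lit 385) (.e (nat_lit 122916) (nat_lit 14) (.e (nat_lit 352272) (nat_lit 10) (.e (nat_lit 417796) (nat_lit 0) .nil)))))) (.g (nat_lit 0) .nil .nil))) 
(.lf (nat_lit 110824) (.g (nat_lit 942) (.e (nat_lit 5412) (nat_lit 303) (.e (nat_lit 81664) (nat_lit 0) (.e (nat_lit 7237) (nat_lit 382) (.e (nat_lit 1220) (nat_lit 90) (.e (nat_lit 89856) (nat_lit 10) (.e (nat_lit 417794) (nat_lit 0) .nil)))))) (.g (nat_lit 4) .nil .nil)))) (.nd (nat_lit 5) 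
(.lf (nat_lit 110808) (.g (nat_lit 1476) (.e (nat_lit 5412) (nat_lit 303) (.e (nat_lit 73732) (nat_lit 0) (.e (nat_lit 7272) (nat_lit 385) (.e (nat_lit 122915) (nat_lit 14) (.e (nat_lit 352272) (nat_lit 10) (.e (nat_lit 417794) (nat_lit 0) .nil)))))) (.g (nat_lit 6) .nil .nil))) 
(.lf (nat_lit 110840) (.g (nat_lit 1717) (.e (nat_lit 5412) (nat_lit 303) (.e (nat_lit 73744) (nat_lit 2) (.e (nat_lit 507923) (nat_lit 6) (.e (nat_lit 286756) (nat_lit 10) (.e (nat_lit 344115) (nat_lit 20) (.e (nat_lit 507906) (nat_lit 0) .nil)))))) (.g (nat_lit 0) .nil .nil)))))) (.nd (nat_lit 3) (.nd (nat_lit 4) (.nd (nat_lit 5) 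
(.lf (nat_lit 110788) (.g (nat_lit 1517) (.e (nat_lit 5412) (nat_lit 303) (.e (nat_lit 73732) (nat_lit 0) (.e (nat_lit 7270) (nat_lit 385) (.e (nat_lit 122915) (nat_lit 14) (.e (nat_lit 352272) (nat_lit 10) (.e (nat_lit 417795) (nat_lit 0) .nil)))))) (.g (nat_lit 5) .nil .nil))) 
(.lf (nat_lit 110820) (.g (nat_lit 1118) (.e (nat_lit 5412) (nat_lit 303) (.e (nat_lit 81664) (nat_lit 0) (.e (nat_lit 7236) (nat_lit 382) (.e (nat_lit 1219) (nat_lit 90) (.e (nat_lit 89856) (nat_lit 10) (.e (nat_lit 417794) (nat_lit 0) .nil)))))) (.g (nat_lit 4) .nil .nil)))) (.nd (nat_lit 5) 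
(.lf (nat_lit 110804) (.g (nat_lit 1979) (.e (nat_lit 5412) (nat_lit 303) (.e (nat_lit 73732) (nat_lit 0) (.e (nat_lit 7272) (nat_lit 385) (.e (nat_lit 122914) (nat_lit 14) (.e (nat_lit 352272) (nat_lit 10) (.e (nat_lit 417794) (nat_lit 0) .nil)))))) (.g (nat_lit 0) .nil .nil))) 
(.lf (nat_lit 110836) (.g (nat_lit 1624) (.e (nat_lit 5412) (nat_lit 303) (.e (nat_lit 73744) (nat_lit 2) (.e (nat_lit 507923) (nat_lit 6) (.e (nat_lit 286753) (nat_lit 10) (.e (nat_lit 344115) (nat_lit 20) (.e (nat_lit 507906) (nat_lit 0) .nil)))))) (.g (nat_lit 0) .nil .nil))))) (.nd (nat_lit 4) (.nd (nat_lit 5) 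
(.lf (nat_lit 110796) (.g (nat_lit 1044) (.e (nat_lit 5412) (nat_lit 303) (.e (nat_lit 73732) (nat_lit 0) (.e (nat_lit 7271) (nat_lit 385) (.e (nat_lit 122914) (nat_lit 14) (.e (nat_lit 360192) (nat_lit 10) (.e (nat_lit 417795) (nat_lit 0) .nil)))))) (.g (nat_lit 4) .nil .nil))) 
(.lf (nat_lit 110828) (.g (nat_lit 1768) (.e (nat_lit 5412) (nat_lit 303) (.e (nat_lit 73744) (nat_lit 2) (.e (nat_lit 507921) (nat_lit 6) (.e (nat_lit 286756) (nat_lit 10) (.e (nat_lit 344115) (nat_lit 20) (.e (nat_lit 507906) (nat_lit 0) .nil)))))) (.g (nat_lit 0) .nil .nil)))) (.nd (nat_lit 5) 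
(.lf (nat_lit 110812) (.g (nat_lit 1365) (.e (nat_lit 5412) (nat_lit 303) (.e (nat_lit 73732) (nat_lit 0) (.e (nat_lit 7272) (nat_lit 385) (.e (nat_lit 122916) (nat_lit 14) (.e (nat_lit 360192) (nat_lit 10) (.e (nat_lit 417794) (nat_lit 0) .nil)))))) (.g (nat_lit 4) .nil .nil))) 
(.lf (nat_lit 110844) (.g (nat_lit 1299) (.e (nat_lit 5412) (nat_lit 303) (.e (nat_lit 73746) (nat_lit 3) (.e (nat_lit 516096) (nat_lit 0) (.e (nat_lit 7593) (nat_lit 407) (.e (nat_lit 73744) (nat_lit 2) (.e (nat_lit 507906) (nat_lit 0) .nil)))))) (.g (nat_lit 4) .nil .nil))))))) (.nd (nat_lit 2) (.nd (nat_lit 3) (.nd (nat_lit 4) (.nd (nat_lit 5) 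
(.lf (nat_lit 110786) (.g (nat_lit 1158) (.e (nat_lit 5412) (nat_lit 303) (.e (nat_lit 73732) (nat_lit 0) (.e (nat_lit 7270) (nat_lit 385) (.e (nat_lit 122915) (nat_lit 14) (.e (nat_lit 352272) (nat_lit 10) (.e (nat_lit 417793) (nat_lit 0) .nil)))))) (.g (nat_lit 4) .nil .nil))) 
(.lf (nat_lit 110818) (.g (nat_lit 601) (.e (nat_lit 5412) (nat_lit 303) (.e (nat_lit 81664) (nat_lit 0) (.e (nat_lit 7147) (nat_lit 382) (.e (nat_lit 1216) (nat_lit 90) (.e (nat_lit 89856) (nat_lit 10) (.e (nat_lit 417794) (nat_lit 0) .nil)))))) (.g (nat_lit 4) .nil .nil)))) (.nd (nat_lit 5) 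
(.lf (nat_lit 110802) (.g (nat_lit 1152) (.e (nat_lit 5412) (nat_lit 303) (.e (nat_lit 73732) (nat_lit 0) (.e (nat_lit 7271) (nat_lit 385) (.e (nat_lit 122916) (nat_lit 14) (.e (nat_lit 360192) (nat_lit 10) .nil))))) .nil)) 
(.lf (nat_lit 110834) (.g (nat_lit 1561) (.e (nat_lit 5412) (nat_lit 303) (.e (nat_lit 73744) (nat_lit 2) (.e (nat_lit 507922) (nat_lit 6) (.e (nat_lit 286756) (nat_lit 10) (.e (nat_lit 344115) (nat_lit 20) (.e (nat_lit 507907) (nat_lit 0) .nil)))))) (.g (nat_lit 0) .nil .nil))))) (.nd (nat_lit 4) (.nd (nat_lit 5) 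
(.lf (nat_lit 110794) (.g (nat_lit 1421) (.e (nat_lit 5412) (nat_lit 303) (.e (nat_lit 73732) (nat_lit 0) (.e (nat_lit 7270) (nat_lit 385) (.e (nat_lit 122916) (nat_lit 14) (.e (nat_lit 360192) (nat_lit 10) (.e (nat_lit 417794) (nat_lit 0) .nil)))))) (.g (nat_lit 4) .nil .nil))) 
(.lf (nat_lit 110826) (.g (nat_lit 968) (.e (nat_lit 5412) (nat_lit 303) (.e (nat_lit 73744) (nat_lit 2) (.e (nat_lit 507906) (nat_lit 0) (.e (nat_lit 5412) (nat_lit 303) (.e (nat_lit 73744) (nat_lit 2) (.e (nat_lit 507906) (nat_lit 0) .nil)))))) (.g (nat_lit 4) .nil .nil)))) (.nd (nat_lit 5) 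
(.lf (nat_lit 110810) (.g (nat_lit 2105) (.e (nat_lit 5412) (nat_lit 303) (.e (nat_lit 73732) (nat_lit 0) (.e (nat_lit 7272) (nat_lit 385) (.e (nat_lit 122916) (nat_lit 14) (.e (nat_lit 352272) (nat_lit 10) (.e (nat_lit 417794) (nat_lit 0) .nil)))))) (.g (nat_lit 6) .nil .nil))) 
(.lf (nat_lit 110842) (.g (nat_lit 1201) (.e (nat_lit 5412) (nat_lit 303) (.e (nat_lit 73746) (nat_lit 3) (.e (nat_lit 516096) (nat_lit 0) (.e (nat_lit 7591) (nat_lit 407) (.e (nat_lit 73744) (nat_lit 2) (.e (nat_lit 507907) (nat_lit 0) .nil)))))) (.g (nat_lit 4) .nil .nil)))))) (.nd (nat_lit 3) (.nd (nat_lit 4) (.nd (nat_lit 5) 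
(.lf (nat_lit 110790) (.g (nat_lit 2235) (.e (nat_lit 5412) (nat_lit 303) (.e (nat_lit 73732) (nat_lit 0) (.e (nat_lit 7270) (nat_lit 385) (.e (nat_lit 122916) (nat_lit 14) (.e (nat_lit 352272) (nat_lit 10) (.e (nat_lit 417794) (nat_lit 0) .nil)))))) (.g (nat_lit 6) .nil .nil))) 
(.lf (nat_lit 110822) (.g (nat_lit 922) (.e (nat_lit 5412) (nat_lit 303) (.e (nat_lit 81664) (nat_lit 0) (.e (nat_lit 7236) (nat_lit 382) (.e (nat_lit 1221) (nat_lit 90) (.e (nat_lit 89856) (nat_lit 10) (.e (nat_lit 417794) (nat_lit 0) .nil)))))) (.g (nat_lit 4) .nil .nil)))) (.nd (nat_lit 5) 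
(.lf (nat_lit 110806) (.g (nat_lit 978) (.e (nat_lit 5412) (nat_lit 303) (.e (nat_lit 73732) (nat_lit 0) (.e (nat_lit 7272) (nat_lit 385) (.e (nat_lit 122914) (nat_lit 14) (.e (nat_lit 360192) (nat_lit 10) (.e (nat_lit 417795) (nat_lit 0) .nil)))))) (.g (nat_lit 4) .nil .nil))) 
(.lf (nat_lit 110838) (.g (nat_lit 1608) (.e (nat_lit 5412) (nat_lit 303) (.e (nat_lit 73744) (nat_lit 2) (.e (nat_lit 507923) (nat_lit 6) (.e (nat_lit 286754) (nat_lit 10) (.e (nat_lit 344115) (nat_lit 20) (.e (nat_lit 507906) (nat_lit 0) .nil)))))) (.g (nat_lit 5) .nil .nil))))) (.nd (nat_lit 4) (.nd (nat_lit 5) 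
(.lf (nat_lit 110798) (.g (nat_lit 1422) (.e (nat_lit 5412) (nat_lit 303) (.e (nat_lit 73732) (nat_lit 0) (.e (nat_lit 7271) (nat_lit 385) (.e (nat_lit 122915) (nat_lit 14) (.e (nat_lit 352272) (nat_lit 10) (.e (nat_lit 417793) (nat_lit 0) .nil)))))) (.g (nat_lit 0) .nil .nil))) 
(.lf (nat_lit 110830) (.g (nat_lit 1721) (.e (nat_lit 5412) (nat_lit 303) (.e (nat_lit 73744) (nat_lit 2) (.e (nat_lit 507921) (nat_lit 6) (.e (nat_lit 286756) (nat_lit 10) (.e (nat_lit 344115) (nat_lit 20) (.e (nat_lit 507908) (nat_lit 0) .nil)))))) (.g (nat_lit 0) .nil .nil)))) (.nd (nat_lit 5) 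
(.lf (nat_lit 110814) (.g (nat_lit 1777) (.e (nat_lit 5412) (nat_lit 303) (.e (nat_lit 73732) (nat_lit 0) (.e (nat_lit 7273) (nat_lit 385) (.e (nat_lit 122916) (nat_lit 14) (.e (nat_lit 352272) (nat_lit 10) (.e (nat_lit 417794) (nat_lit 0) .nil)))))) (.g (nat_lit 6) .nil .nil))) 
(.lf (nat_lit 110846) (.g (nat_lit 1151) (.e (nat_lit 5412) (nat_lit 303) (.e (nat_lit 73746) (nat_lit 3) (.e (nat_lit 516097) (nat_lit 0) (.e (nat_lit 7495) (nat_lit 402) .nil)))) .nil))))))) (.nd (nat_lit 1) (.nd (nat_lit 2) (.nd (nat_lit 3) (.nd (nat_lit 4) (.nd (nat_lit 5) 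
(.lf (nat_lit 110785) (.g (nat_lit 1156) (.e (nat_lit 5412) (nat_lit 303) (.e (nat_lit 73732) (nat_lit 0) (.e (nat_lit 7270) (nat_lit 385) (.e (nat_lit 122914) (nat_lit 14) (.e (nat_lit 360192) (nat_lit 10) (.e (nat_lit 417796) (nat_lit 0) .nil)))))) (.g (nat_lit 4) .nil .nil))) 
(.lf (nat_lit 110817) (.g (nat_lit 635) (.e (nat_lit 5412) (nat_lit 303) (.e (nat_lit 81664) (nat_lit 0) (.e (nat_lit 7147) (nat_lit 382) (.e (nat_lit 1216) (nat_lit 90) (.e (nat_lit 89856) (nat_lit 10) (.e (nat_lit 417793) (nat_lit 0) .nil)))))) (.g (nat_lit 4) .nil .nil)))) (.nd (nat_lit 5) 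
(.lf (nat_lit 110801) (.g (nat_lit 2268) (.e (nat_lit 5412) (nat_lit 303) (.e (nat_lit 73732) (nat_lit 0) (.e (nat_lit 7271) (nat_lit 385) (.e (nat_lit 122916) (nat_lit 14) (.e (nat_lit 352272) (nat_lit 10) (.e (nat_lit 417794) (nat_lit 0) .nil)))))) (.g (nat_lit 6) .nil .nil))) 
(.lf (nat_lit 110833) (.g (nat_lit 1667) (.e (nat_lit 5412) (nat_lit 303) (.e (nat_lit 73744) (nat_lit 2) (.e (nat_lit 507922) (nat_lit 6) (.e (nat_lit 286756) (nat_lit 10) (.e (nat_lit 344115) (nat_lit 20) (.e (nat_lit 507906) (nat_lit 0) .nil)))))) (.g (nat_lit 0) .nil .nil))))) (.nd (nat_lit 4) (.nd (nat_lit 5) 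
(.lf (nat_lit 110793) (.g (nat_lit 1242) (.e (nat_lit 5412) (nat_lit 303) (.e (nat_lit 73732) (nat_lit 0) (.e (nat_lit 7270) (nat_lit 385) (.e (nat_lit 122916) (nat_lit 14) (.e (nat_lit 360192) (nat_lit 10) .nil))))) .nil)) 
(.lf (nat_lit 110825) (.g (nat_lit 1269) (.e (nat_lit 5412) (nat_lit 303) (.e (nat_lit 81664) (nat_lit 0) (.e (nat_lit 7237) (nat_lit 382) (.e (nat_lit 1221) (nat_lit 90) (.e (nat_lit 89856) (nat_lit 10) (.e (nat_lit 417794) (nat_lit 0) .nil)))))) (.g (nat_lit 4) .nil .nil)))) (.nd (nat_lit 5) 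
(.lf (nat_lit 110809) (.g (nat_lit 2112) (.e (nat_lit 5412) (nat_lit 303) (.e (nat_lit 73732) (nat_lit 0) (.e (nat_lit 7272) (nat_lit 385) (.e (nat_lit 122916) (nat_lit 14) (.e (nat_lit 352272) (nat_lit 10) (.e (nat_lit 417793) (nat_lit 0) .nil)))))) (.g (nat_lit 0) .nil .nil))) 
(.lf (nat_lit 110841) (.g (nat_lit 1131) (.e (nat_lit 5412) (nat_lit 303) (.e (nat_lit 73746) (nat_lit 3) (.e (nat_lit 516096) (nat_lit 0) (.e (nat_lit 7591) (nat_lit 407) (.e (nat_lit 73744) (nat_lit 2) (.e (nat_lit 507906) (nat_lit 0) .nil)))))) (.g (nat_lit 4) .nil .nil)))))) (.nd (nat_lit 3) (.nd (nat_lit 4) (.nd (nat_lit 5) 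
(.lf (nat_lit 110789) (.g (nat_lit 2242) (.e (nat_lit 5412) (nat_lit 303) (.e (nat_lit 73732) (nat_lit 0) (.e (nat_lit 7270) (nat_lit 385) (.e (nat_lit 122916) (nat_lit 14) (.e (nat_lit 352272) (nat_lit 10) (.e (nat_lit 417793) (nat_lit 0) .nil)))))) (.g (nat_lit 0) .nil .nil))) 
(.lf (nat_lit 110821) (.g (nat_lit 1065) (.e (nat_lit 5412) (nat_lit 303) (.e (nat_lit 81664) (nat_lit 0) (.e (nat_lit 7236) (nat_lit 382) (.e (nat_lit 1219) (nat_lit 90) (.e (nat_lit 89856) (nat_lit 10) (.e (nat_lit 417796) (nat_lit 0) .nil)))))) (.g (nat_lit 4) .nil .nil)))) (.nd (nat_lit 5) 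
(.lf (nat_lit 110805) (.g (nat_lit 2302) (.e (nat_lit 5412) (nat_lit 303) (.e (nat_lit 73732) (nat_lit 0) (.e (nat_lit 7272) (nat_lit 385) (.e (nat_lit 122914) (nat_lit 14) (.e (nat_lit 352272) (nat_lit 10) (.e (nat_lit 417796) (nat_lit 0) .nil)))))) (.g (nat_lit 0) .nil .nil))) 
(.lf (nat_lit 110837) (.g (nat_lit 1613) (.e (nat_lit 5412) (nat_lit 303) (.e (nat_lit 73744) (nat_lit 2) (.e (nat_lit 507923) (nat_lit 6) (.e (nat_lit 286753) (nat_lit 10) (.e (nat_lit 344115) (nat_lit 20) (.e (nat_lit 507908) (nat_lit 0) .nil)))))) (.g (nat_lit 0) .nil .nil))))) (.nd (nat_lit 4) (.nd (nat_lit 5) 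
(.lf (nat_lit 110797) (.g (nat_lit 1037) (.e (nat_lit 5412) (nat_lit 303) (.e (nat_lit 73732) (nat_lit 0) (.e (nat_lit 7271) (nat_lit 385) (.e (nat_lit 122914) (nat_lit 14) (.e (nat_lit 360192) (nat_lit 10) (.e (nat_lit 417796) (nat_lit 0) .nil)))))) (.g (nat_lit 4) .nil .nil))) 
(.lf (nat_lit 110829) (.g (nat_lit 1662) (.e (nat_lit 5412) (nat_lit 303) (.e (nat_lit 73744) (nat_lit 2) (.e (nat_lit 507921) (nat_lit 6) (.e (nat_lit 286756) (nat_lit 10) (.e (nat_lit 344115) (nat_lit 20) (.e (nat_lit 507907) (nat_lit 0) .nil)))))) (.g (nat_lit 0) .nil .nil)))) (.nd (nat_lit 5) 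
(.lf (nat_lit 110813) (.g (nat_lit 1663) (.e (nat_lit 5412) (nat_lit 303) (.e (nat_lit 73732) (nat_lit 0) (.e (nat_lit 7273) (nat_lit 385) (.e (nat_lit 122914) (nat_lit 14) (.e (nat_lit 352272) (nat_lit 10) (.e (nat_lit 417794) (nat_lit 0) .nil)))))) (.g (nat_lit 0) .nil .nil))) 
(.lf (nat_lit 110845) (.g (nat_lit 1386) (.e (nat_lit 5412) (nat_lit 303) (.e (nat_lit 73746) (nat_lit 3) (.e (nat_lit 516096) (nat_lit 0) (.e (nat_lit 7593) (nat_lit 407) (.e (nat_lit 73744) (nat_lit 2) (.e (nat_lit 507907) (nat_lit 0) .nil)))))) (.g (nat_lit 5) .nil .nil))))))) (.nd (nat_lit 2) (.nd (nat_lit 3) (.nd (nat_lit 4) (.nd (nat_lit 5) 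
(.lf (nat_lit 110787) (.g (nat_lit 1158) (.e (nat_lit 5412) (nat_lit 303) (.e (nat_lit 73732) (nat_lit 0) (.e (nat_lit 7270) (nat_lit 385) (.e (nat_lit 122915) (nat_lit 14) (.e (nat_lit 352272) (nat_lit 10) (.e (nat_lit 417794) (nat_lit 0) .nil)))))) (.g (nat_lit 4) .nil .nil))) 
(.lf (nat_lit 110819) (.g (nat_lit 953) (.e (nat_lit 5412) (nat_lit 303) (.e (nat_lit 81664) (nat_lit 0) (.e (nat_lit 7147) (nat_lit 382) (.e (nat_lit 1217) (nat_lit 90) (.e (nat_lit 89856) (nat_lit 10) (.e (nat_lit 417793) (nat_lit 0) .nil)))))) (.g (nat_lit 4) .nil .nil)))) (.nd (nat_lit 5) 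
(.lf (nat_lit 110803) (.g (nat_lit 1323) (.e (nat_lit 5412) (nat_lit 303) (.e (nat_lit 73732) (nat_lit 0) (.e (nat_lit 7271) (nat_lit 385) (.e (nat_lit 122916) (nat_lit 14) (.e (nat_lit 360192) (nat_lit 10) (.e (nat_lit 417794) (nat_lit 0) .nil)))))) (.g (nat_lit 4) .nil .nil))) 
(.lf (nat_lit 110835) (.g (nat_lit 1621) (.e (nat_lit 5412) (nat_lit 303) (.e (nat_lit 73744) (nat_lit 2) (.e (nat_lit 507922) (nat_lit 6) (.e (nat_lit 286756) (nat_lit 10) (.e (nat_lit 344115) (nat_lit 20) (.e (nat_lit 507908) (nat_lit 0) .nil)))))) (.g (nat_lit 0) .nil .nil))))) (.nd (nat_lit 4) (.nd (nat_lit 5) 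
(.lf (nat_lit 110795) (.g (nat_lit 2043) (.e (nat_lit 5412) (nat_lit 303) (.e (nat_lit 73732) (nat_lit 0) (.e (nat_lit 7271) (nat_lit 385) (.e (nat_lit 122914) (nat_lit 14) (.e (nat_lit 352272) (nat_lit 10) (.e (nat_lit 417794) (nat_lit 0) .nil)))))) (.g (nat_lit 0) .nil .nil))) 
(.lf (nat_lit 110827) (.g (nat_lit 1087) (.e (nat_lit 5412) (nat_lit 303) (.e (nat_lit 73744) (nat_lit 2) (.e (nat_lit 507907) (nat_lit 0) (.e (nat_lit 5412) (nat_lit 303) (.e (nat_lit 73744) (nat_lit 2) (.e (nat_lit 507906) (nat_lit 0) .nil)))))) (.g (nat_lit 5) .nil .nil)))) (.nd (nat_lit 5) 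
(.lf (nat_lit 110811) (.g (nat_lit 1195) (.e (nat_lit 5412) (nat_lit 303) (.e (nat_lit 73732) (nat_lit 0) (.e (nat_lit 7272) (nat_lit 385) (.e (nat_lit 122916) (nat_lit 14) (.e (nat_lit 360192) (nat_lit 10) .nil))))) .nil)) 
(.lf (nat_lit 110843) (.g (nat_lit 1265) (.e (nat_lit 5412) (nat_lit 303) (.e (nat_lit 73746) (nat_lit 3) (.e (nat_lit 516096) (nat_lit 0) (.e (nat_lit 7591) (nat_lit 407) (.e (nat_lit 73744) (nat_lit 2) (.e (nat_lit 507908) (nat_lit 0) .nil)))))) (.g (nat_lit 5) .nil .nil)))))) (.nd (nat_lit 3) (.nd (nat_lit 4) (.nd (nat_lit 5) 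
(.lf (nat_lit 110791) (.g (nat_lit 2621) (.e (nat_lit 5412) (nat_lit 303) (.e (nat_lit 73732) (nat_lit 0) (.e (nat_lit 7270) (nat_lit 385) (.e (nat_lit 122916) (nat_lit 14) (.e (nat_lit 352272) (nat_lit 10) (.e (nat_lit 417795) (nat_lit 0) .nil)))))) (.g (nat_lit 0) .nil .nil))) 
(.lf (nat_lit 110823) (.g (nat_lit 1011) (.e (nat_lit 5412) (nat_lit 303) (.e (nat_lit 81664) (nat_lit 0) (.e (nat_lit 7237) (nat_lit 382) (.e (nat_lit 1219) (nat_lit 90) (.e (nat_lit 89856) (nat_lit 10) (.e (nat_lit 417796) (nat_lit 0) .nil)))))) (.g (nat_lit 4) .nil .nil)))) (.nd (nat_lit 5) 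
(.lf (nat_lit 110807) (.g (nat_lit 974) (.e (nat_lit 5412) (nat_lit 303) (.e (nat_lit 73732) (nat_lit 0) (.e (nat_lit 7272) (nat_lit 385) (.e (nat_lit 122914) (nat_lit 14) (.e (nat_lit 360192) (nat_lit 10) (.e (nat_lit 417796) (nat_lit 0) .nil)))))) (.g (nat_lit 4) .nil .nil))) 
(.lf (nat_lit 110839) (.g (nat_lit 1411) (.e (nat_lit 5412) (nat_lit 303) (.e (nat_lit 73744) (nat_lit 2) (.e (nat_lit 507923) (nat_lit 6) (.e (nat_lit 286755) (nat_lit 10) (.e (nat_lit 344115) (nat_lit 20) (.e (nat_lit 507906) (nat_lit 0) .nil)))))) (.g (nat_lit 6) .nil .nil))))) (.nd (nat_lit 4) (.nd (nat_lit 5) 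
(.lf (nat_lit 110799) (.g (nat_lit 1422) (.e (nat_lit 5412) (nat_lit 303) (.e (nat_lit 73732) (nat_lit 0) (.e (nat_lit 7271) (nat_lit 385) (.e (nat_lit 122915) (nat_lit 14) (.e (nat_lit 352272) (nat_lit 10) (.e (nat_lit 417794) (nat_lit 0) .nil)))))) (.g (nat_lit 6) .nil .nil))) 
(.lf (nat_lit 110831) (.g (nat_lit 232) (.e (nat_lit 5412) (nat_lit 303) (.e (nat_lit 73744) (nat_lit 2) (.e (nat_lit 507922) (nat_lit 6) .nil))) .nil))) (.nd (nat_lit 5) 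
(.lf (nat_lit 110815) (.g (nat_lit 1218) (.e (nat_lit 5412) (nat_lit 303) (.e (nat_lit 81664) (nat_lit 0) (.e (nat_lit 7125) (nat_lit 382) (.e (nat_lit 1222) (nat_lit 90) (.e (nat_lit 89856) (nat_lit 10) (.e (nat_lit 417794) (nat_lit 0) .nil)))))) (.g (nat_lit 4) .nil .nil))) 
(.lf (nat_lit 110847) (.g (nat_lit 3104) (.e (nat_lit 5412) (nat_lit 303) (.e (nat_lit 73746) (nat_lit 3) (.e (nat_lit 516097) (nat_lit 0) (.e (nat_lit 7591) (nat_lit 407) (.e (nat_lit 73744) (nat_lit 2) (.e (nat_lit 507906) (nat_lit 0) .nil)))))) (.g (nat_lit 6) .nil .nil)))))))))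

noncomputable def tv1496 : DT := (.nd (nat_lit 0) (.nd (nat_lit 1) (.nd (nat_lit 2) (.nd (nat_lit 3) (.nd (nat_lit 4) (.nd (nat_lit 5) 
(.lf (nat_lit 110848) (.g (nat_lit 3000) (.e (nat_lit 5412) (nat_lit 303) (.e (nat_lit 73746) (nat_lit 3) (.e (nat_lit 516097) (nat_lit 0) (.e (nat_lit 7591) (nat_lit 407) (.e (nat_lit 73744) (nat_lit 2) (.e (nat_lit 507907) (nat_lit 0) .nil)))))) (.g (nat_lit 0) .nil .nil))) 
(.lf (nat_lit 110880) (.g (nat_lit 1831) (.e (nat_lit 5412) (nat_lit 303) (.e (nat_lit 73746) (nat_lit 3) (.e (nat_lit 516105) (nat_lit 0) (.e (nat_lit 7562) (nat_lit 402) (.e (nat_lit 1529) (nat_lit 109) (.e (nat_lit 344115) (nat_lit 20) (.e (nat_lit 507906) (nat_lit 0) .nil))))))) (.g (nat_lit 7) .nil .nil)))) (.nd (nat_lit 5) 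
(.lf (nat_lit 110864) (.g (nat_lit 1310) (.e (nat_lit 5412) (nat_lit 303) (.e (nat_lit 73746) (nat_lit 3) (.e (nat_lit 516100) (nat_lit 0) (.e (nat_lit 7542) (nat_lit 402) (.e (nat_lit 1532) (nat_lit 109) (.e (nat_lit 344115) (nat_lit 20) (.e (nat_lit 507908) (nat_lit 0) .nil))))))) (.g (nat_lit 5) .nil .nil))) 
(.lf (nat_lit 110896) (.g (nat_lit 2173) (.e (nat_lit 5412) (nat_lit 303) (.e (nat_lit 73746) (nat_lit 3) (.e (nat_lit 516139) (nat_lit 7) (.e (nat_lit 409616) (nat_lit 10) (.e (nat_lit 7936) (nat_lit 301) (.e (nat_lit 57462) (nat_lit 22) (.e (nat_lit 507907) (nat_lit 0) .nil))))))) (.g (nat_lit 4) .nil .nil))))) (.nd (nat_lit 4) (.nd (nat_lit 5) 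
(.lf (nat_lit 110856) (.g (nat_lit 1242) (.e (nat_lit 5412) (nat_lit 303) (.e (nat_lit 73746) (nat_lit 3) (.e (nat_lit 516100) (nat_lit 0) (.e (nat_lit 7540) (nat_lit 402) (.e (nat_lit 1529) (nat_lit 109) (.e (nat_lit 344115) (nat_lit 20) (.e (nat_lit 507906) (nat_lit 0) .nil))))))) (.g (nat_lit 4) .nil .nil))) 
(.lf (nat_lit 110888) (.g (nat_lit 2871) (.e (nat_lit 5412) (nat_lit 303) (.e (nat_lit 73746) (nat_lit 3) (.e (nat_lit 516117) (nat_lit 1) (.e (nat_lit 164195) (nat_lit 158) (.e (nat_lit 1126) (nat_lit 83) (.e (nat_lit 16392) (nat_lit 0) (.e (nat_lit 3569) (nat_lit 222) (.e (nat_lit 737283) (nat_lit 0) .nil)))))))) (.g (nat_lit 6) .nil .nil)))) (.nd (nat_lit 5) 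
(.lf (nat_lit 110872) (.g (nat_lit 1024) (.e (nat_lit 5412) (nat_lit 303) (.e (nat_lit 73746) (nat_lit 3) (.e (nat_lit 516103) (nat_lit 0) .nil))) .nil)) 
(.lf (nat_lit 110904) (.g (nat_lit 1835) (.e (nat_lit 5412) (nat_lit 303) (.e (nat_lit 73746) (nat_lit 3) (.e (nat_lit 516146) (nat_lit 9) (.e (nat_lit 426448) (nat_lit 20) (.e (nat_lit 122624) (nat_lit 0) (.e (nat_lit 3200) (nat_lit 194) (.e (nat_lit 507908) (nat_lit 0) .nil))))))) (.g (nat_lit 4) .nil .nil)))))) (.nd (nat_lit 3) (.nd (nat_lit 4) (.nd (nat_lit 5) 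
(.lf (nat_lit 110852) (.g (nat_lit 3230) (.e (nat_lit 5412) (nat_lit 303) (.e (nat_lit 73746) (nat_lit 3) (.e (nat_lit 516097) (nat_lit 0) (.e (nat_lit 7593) (nat_lit 407) (.e (nat_lit 73744) (nat_lit 2) (.e (nat_lit 507908) (nat_lit 0) .nil)))))) (.g (nat_lit 0) .nil .nil))) 
(.lf (nat_lit 110884) (.g (nat_lit 950) (.e (nat_lit 5412) (nat_lit 303) (.e (nat_lit 73746) (nat_lit 3) (.e (nat_lit 516105) (nat_lit 0) (.e (nat_lit 7562) (nat_lit 402) (.e (nat_lit 1530) (nat_lit 109) (.e (nat_lit 344115) (nat_lit 20) (.e (nat_lit 507908) (nat_lit 0) .nil))))))) (.g (nat_lit 4) .nil .nil)))) (.nd (nat_lit 5) 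
(.lf (nat_lit 110868) (.g (nat_lit 1154) (.e (nat_lit 5412) (nat_lit 303) (.e (nat_lit 73746) (nat_lit 3) (.e (nat_lit 516100) (nat_lit 0) (.e (nat_lit 7562) (nat_lit 402) (.e (nat_lit 1530) (nat_lit 109) (.e (nat_lit 344115) (nat_lit 20) (.e (nat_lit 507906) (nat_lit 0) .nil))))))) (.g (nat_lit 4) .nil .nil))) 
(.lf (nat_lit 110900) (.g (nat_lit 2084) (.e (nat_lit 5412) (nat_lit 303) (.e (nat_lit 73746) (nat_lit 3) (.e (nat_lit 516139) (nat_lit 7) (.e (nat_lit 409641) (nat_lit 17) .nil)))) .nil)))) (.nd (nat_lit 4) (.nd (nat_lit 5) 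
(.lf (nat_lit 110860) (.g (nat_lit 2237) (.e (nat_lit 5412) (nat_lit 303) (.e (nat_lit 73746) (nat_lit 3) (.e (nat_lit 516100) (nat_lit 0) (.e (nat_lit 7540) (nat_lit 402) (.e (nat_lit 1546) (nat_lit 109) (.e (nat_lit 344115) (nat_lit 20) (.e (nat_lit 507907) (nat_lit 0) .nil))))))) (.g (nat_lit 7) .nil .nil))) 
(.lf (nat_lit 110892) (.g (nat_lit 2473) (.e (nat_lit 5412) (nat_lit 303) (.e (nat_lit 73746) (nat_lit 3) (.e (nat_lit 516120) (nat_lit 1) (.e (nat_lit 164195) (nat_lit 158) (.e (nat_lit 1126) (nat_lit 83) (.e (nat_lit 16392) (nat_lit 0) (.e (nat_lit 3569) (nat_lit 222) (.e (nat_lit 737283) (nat_lit 0) .nil)))))))) (.g (nat_lit 6) .nil .nil)))) (.nd (nat_lit 5) 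
(.lf (nat_lit 110876) (.g (nat_lit 789) (.e (nat_lit 5412) (nat_lit 303) (.e (nat_lit 73746) (nat_lit 3) (.e (nat_lit 516104) (nat_lit 0) (.e (nat_lit 7562) (nat_lit 402) (.e (nat_lit 1532) (nat_lit 109) .nil))))) .nil)) 
(.lf (nat_lit 110908) (.g (nat_lit 1719) (.e (nat_lit 5412) (nat_lit 303) (.e (nat_lit 73746) (nat_lit 3) (.e (nat_lit 516146) (nat_lit 9) (.e (nat_lit 426448) (nat_lit 20) (.e (nat_lit 122624) (nat_lit 2) (.e (nat_lit 196685) (nat_lit 18) (.e (nat_lit 1013) (nat_lit 81) .nil))))))) (.g (nat_lit 4) .nil .nil))))))) (.nd (nat_lit 2) (.nd (nat_lit 3) (.nd (nat_lit 4) (.nd (nat_lit 5) 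
(.lf (nat_lit 110850) (.g (nat_lit 3249) (.e (nat_lit 5412) (nat_lit 303) (.e (nat_lit 73746) (nat_lit 3) (.e (nat_lit 516097) (nat_lit 0) (.e (nat_lit 7593) (nat_lit 407) (.e (nat_lit 73744) (nat_lit 2) (.e (nat_lit 507906) (nat_lit 0) .nil)))))) (.g (nat_lit 6) .nil .nil))) 
(.lf (nat_lit 110882) (.g (nat_lit 1742) (.e (nat_lit 5412) (nat_lit 303) (.e (nat_lit 73746) (nat_lit 3) (.e (nat_lit 516105) (nat_lit 0) (.e (nat_lit 7562) (nat_lit 402) (.e (nat_lit 1529) (nat_lit 109) (.e (nat_lit 344115) (nat_lit 20) (.e (nat_lit 507908) (nat_lit 0) .nil))))))) (.g (nat_lit 7) .nil .nil)))) (.nd (nat_lit 5) 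
(.lf (nat_lit 110866) (.g (nat_lit 1574) (.e (nat_lit 5412) (nat_lit 303) (.e (nat_lit 73746) (nat_lit 3) (.e (nat_lit 516100) (nat_lit 0) (.e (nat_lit 7562) (nat_lit 402) (.e (nat_lit 1529) (nat_lit 109) (.e (nat_lit 344115) (nat_lit 20) (.e (nat_lit 507907) (nat_lit 0) .nil))))))) (.g (nat_lit 6) .nil .nil))) 
(.lf (nat_lit 110898) (.g (nat_lit 1732) (.e (nat_lit 5412) (nat_lit 303) (.e (nat_lit 73746) (nat_lit 3) (.e (nat_lit 516139) (nat_lit 7) (.e (nat_lit 409617) (nat_lit 10) .nil)))) .nil)))) (.nd (nat_lit 4) (.nd (nat_lit 5) 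
(.lf (nat_lit 110858) (.g (nat_lit 2153) (.e (nat_lit 5412) (nat_lit 303) (.e (nat_lit 73746) (nat_lit 3) (.e (nat_lit 516100) (nat_lit 0) (.e (nat_lit 7540) (nat_lit 402) (.e (nat_lit 1536) (nat_lit 109) (.e (nat_lit 344115) (nat_lit 20) (.e (nat_lit 507906) (nat_lit 0) .nil))))))) (.g (nat_lit 6) .nil .nil))) 
(.lf (nat_lit 110890) (.g (nat_lit 1394) (.e (nat_lit 5412) (nat_lit 303) (.e (nat_lit 73746) (nat_lit 3) (.e (nat_lit 516117) (nat_lit 1) (.e (nat_lit 164413) (nat_lit 260) .nil)))) .nil))) (.nd (nat_lit 5) 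
(.lf (nat_lit 110874) (.g (nat_lit 983) (.e (nat_lit 5412) (nat_lit 303) (.e (nat_lit 73746) (nat_lit 3) (.e (nat_lit 516104) (nat_lit 0) (.e (nat_lit 7562) (nat_lit 402) (.e (nat_lit 1529) (nat_lit 109) (.e (nat_lit 344115) (nat_lit 20) (.e (nat_lit 507907) (nat_lit 0) .nil))))))) (.g (nat_lit 4) .nil .nil))) 
(.lf (nat_lit 110906) (.g (nat_lit 2104) (.e (nat_lit 5412) (nat_lit 303) (.e (nat_lit 73746) (nat_lit 3) (.e (nat_lit 516146) (nat_lit 9) (.e (nat_lit 426448) (nat_lit 20) (.e (nat_lit 122624) (nat_lit 2) (.e (nat_lit 196684) (nat_lit 18) (.e (nat_lit 1007) (nat_lit 81) .nil))))))) (.g (nat_lit 4) .nil .nil)))))) (.nd (nat_lit 3) (.nd (nat_lit 4) (.nd (nat_lit 5) 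
(.lf (nat_lit 110854) (.g (nat_lit 2389) (.e (nat_lit 5412) (nat_lit 303) (.e (nat_lit 73746) (nat_lit 3) (.e (nat_lit 516098) (nat_lit 0) (.e (nat_lit 7593) (nat_lit 407) (.e (nat_lit 73744) (nat_lit 2) (.e (nat_lit 507906) (nat_lit 0) .nil)))))) (.g (nat_lit 6) .nil .nil))) 
(.lf (nat_lit 110886) (.g (nat_lit 1593) (.e (nat_lit 5412) (nat_lit 303) (.e (nat_lit 73746) (nat_lit 3) (.e (nat_lit 516106) (nat_lit 0) (.e (nat_lit 7936) (nat_lit 407) .nil)))) .nil))) (.nd (nat_lit 5) 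
(.lf (nat_lit 110870) (.g (nat_lit 1003) (.e (nat_lit 5412) (nat_lit 303) (.e (nat_lit 73746) (nat_lit 3) (.e (nat_lit 516100) (nat_lit 0) (.e (nat_lit 7562) (nat_lit 402) (.e (nat_lit 1530) (nat_lit 109) (.e (nat_lit 344115) (nat_lit 20) (.e (nat_lit 507908) (nat_lit 0) .nil))))))) (.g (nat_lit 4) .nil .nil))) 
(.lf (nat_lit 110902) (.g (nat_lit 1400) (.e (nat_lit 5412) (nat_lit 303) (.e (nat_lit 73746) (nat_lit 3) (.e (nat_lit 516146) (nat_lit 9) (.e (nat_lit 426440) (nat_lit 19) .nil)))) .nil)))) (.nd (nat_lit 4) (.nd (nat_lit 5) 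
(.lf (nat_lit 110862) (.g (nat_lit 1363) (.e (nat_lit 5412) (nat_lit 303) (.e (nat_lit 73746) (nat_lit 3) (.e (nat_lit 516100) (nat_lit 0) (.e (nat_lit 7542) (nat_lit 402) (.e (nat_lit 1532) (nat_lit 109) (.e (nat_lit 344115) (nat_lit 20) (.e (nat_lit 507906) (nat_lit 0) .nil))))))) (.g (nat_lit 5) .nil .nil))) 
(.lf (nat_lit 110894) (.g (nat_lit 1026) (.e (nat_lit 5412) (nat_lit 303) (.e (nat_lit 73746) (nat_lit 3) (.e (nat_lit 516139) (nat_lit 7) .nil))) .nil))) (.nd (nat_lit 5) 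
(.lf (nat_lit 110878) (.g (nat_lit 1681) (.e (nat_lit 5412) (nat_lit 303) (.e (nat_lit 73746) (nat_lit 3) (.e (nat_lit 516105) (nat_lit 0) (.e (nat_lit 7540) (nat_lit 402) (.e (nat_lit 1546) (nat_lit 109) (.e (nat_lit 344115) (nat_lit 20) (.e (nat_lit 507906) (nat_lit 0) .nil))))))) (.g (nat_lit 6) .nil .nil))) 
(.lf (nat_lit 110910) (.g (nat_lit 1024) (.e (nat_lit 5412) (nat_lit 303) (.e (nat_lit 73746) (nat_lit 3) (.e (nat_lit 516158) (nat_lit 9) .nil))) .nil))))))) (.nd (nat_lit 1) (.nd (nat_lit 2) (.nd (nat_lit 3) (.nd (nat_lit 4) (.nd (nat_lit 5) 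
(.lf (nat_lit 110849) (.g (nat_lit 3061) (.e (nat_lit 5412) (nat_lit 303) (.e (nat_lit 73746) (nat_lit 3) (.e (nat_lit 516097) (nat_lit 0) (.e (nat_lit 7591) (nat_lit 407) (.e (nat_lit 73744) (nat_lit 2) (.e (nat_lit 507908) (nat_lit 0) .nil)))))) (.g (nat_lit 0) .nil .nil))) 
(.lf (nat_lit 110881) (.g (nat_lit 1729) (.e (nat_lit 5412) (nat_lit 303) (.e (nat_lit 73746) (nat_lit 3) (.e (nat_lit 516105) (nat_lit 0) (.e (nat_lit 7562) (nat_lit 402) (.e (nat_lit 1529) (nat_lit 109) (.e (nat_lit 344115) (nat_lit 20) (.e (nat_lit 507907) (nat_lit 0) .nil))))))) (.g (nat_lit 7) .nil .nil)))) (.nd (nat_lit 5) 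
(.lf (nat_lit 110865) (.g (nat_lit 1681) (.e (nat_lit 5412) (nat_lit 303) (.e (nat_lit 73746) (nat_lit 3) (.e (nat_lit 516100) (nat_lit 0) (.e (nat_lit 7562) (nat_lit 402) (.e (nat_lit 1529) (nat_lit 109) (.e (nat_lit 344115) (nat_lit 20) (.e (nat_lit 507906) (nat_lit 0) .nil))))))) (.g (nat_lit 6) .nil .nil))) 
(.lf (nat_lit 110897) (.g (nat_lit 2276) (.e (nat_lit 5412) (nat_lit 303) (.e (nat_lit 73746) (nat_lit 3) (.e (nat_lit 516139) (nat_lit 7) (.e (nat_lit 409616) (nat_lit 10) (.e (nat_lit 7936) (nat_lit 301) (.e (nat_lit 57462) (nat_lit 22) (.e (nat_lit 507908) (nat_lit 0) .nil))))))) (.g (nat_lit 4) .nil .nil))))) (.nd (nat_lit 4) (.nd (nat_lit 5) 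
(.lf (nat_lit 110857) (.g (nat_lit 1151) (.e (nat_lit 5412) (nat_lit 303) (.e (nat_lit 73746) (nat_lit 3) (.e (nat_lit 516100) (nat_lit 0) (.e (nat_lit 7540) (nat_lit 402) (.e (nat_lit 1529) (nat_lit 109) (.e (nat_lit 344115) (nat_lit 20) (.e (nat_lit 507908) (nat_lit 0) .nil))))))) (.g (nat_lit 4) .nil .nil))) 
(.lf (nat_lit 110889) (.g (nat_lit 1843) (.e (nat_lit 5412) (nat_lit 303) (.e (nat_lit 73746) (nat_lit 3) (.e (nat_lit 516117) (nat_lit 1) (.e (nat_lit 164409) (nat_lit 260) (.e (nat_lit 1208) (nat_lit 89) .nil))))) .nil))) (.nd (nat_lit 5) 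
(.lf (nat_lit 110873) (.g (nat_lit 1387) (.e (nat_lit 5412) (nat_lit 303) (.e (nat_lit 73746) (nat_lit 3) (.e (nat_lit 516104) (nat_lit 0) (.e (nat_lit 7540) (nat_lit 402) (.e (nat_lit 1546) (nat_lit 109) (.e (nat_lit 344115) (nat_lit 20) (.e (nat_lit 507906) (nat_lit 0) .nil))))))) (.g (nat_lit 5) .nil .nil))) 
(.lf (nat_lit 110905) (.g (nat_lit 1635) (.e (nat_lit 5412) (nat_lit 303) (.e (nat_lit 73746) (nat_lit 3) (.e (nat_lit 516146) (nat_lit 9) (.e (nat_lit 426448) (nat_lit 20) (.e (nat_lit 122624) (nat_lit 2) .nil))))) .nil))))) (.nd (nat_lit 3) (.nd (nat_lit 4) (.nd (nat_lit 5) 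
(.lf (nat_lit 110853) (.g (nat_lit 2311) (.e (nat_lit 5412) (nat_lit 303) (.e (nat_lit 73746) (nat_lit 3) (.e (nat_lit 516098) (nat_lit 0) (.e (nat_lit 7591) (nat_lit 407) (.e (nat_lit 73744) (nat_lit 2) (.e (nat_lit 507906) (nat_lit 0) .nil)))))) (.g (nat_lit 6) .nil .nil))) 
(.lf (nat_lit 110885) (.g (nat_lit 518) (.e (nat_lit 5412) (nat_lit 303) (.e (nat_lit 73746) (nat_lit 3) (.e (nat_lit 516105) (nat_lit 0) (.e (nat_lit 7936) (nat_lit 402) .nil)))) .nil))) (.nd (nat_lit 5) 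
(.lf (nat_lit 110869) (.g (nat_lit 993) (.e (nat_lit 5412) (nat_lit 303) (.e (nat_lit 73746) (nat_lit 3) (.e (nat_lit 516100) (nat_lit 0) (.e (nat_lit 7562) (nat_lit 402) (.e (nat_lit 1530) (nat_lit 109) (.e (nat_lit 344115) (nat_lit 20) (.e (nat_lit 507907) (nat_lit 0) .nil))))))) (.g (nat_lit 4) .nil .nil))) 
(.lf (nat_lit 110901) (.g (nat_lit 1981) (.e (nat_lit 5412) (nat_lit 303) (.e (nat_lit 73746) (nat_lit 3) (.e (nat_lit 516146) (nat_lit 9) (.e (nat_lit 426112) (nat_lit 1) (.e (nat_lit 164327) (nat_lit 230) (.e (nat_lit 163871) (nat_lit 2) (.e (nat_lit 196691) (nat_lit 18) (.e (nat_lit 1008) (nat_lit 81) .nil)))))))) (.g (nat_lit 4) .nil .nil))))) (.nd (nat_lit 4) (.nd (nat_lit 5) 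
(.lf (nat_lit 110861) (.g (nat_lit 2247) (.e (nat_lit 5412) (nat_lit 303) (.e (nat_lit 73746) (nat_lit 3) (.e (nat_lit 516100) (nat_lit 0) (.e (nat_lit 7540) (nat_lit 402) (.e (nat_lit 1546) (nat_lit 109) (.e (nat_lit 344115) (nat_lit 20) (.e (nat_lit 507908) (nat_lit 0) .nil))))))) (.g (nat_lit 7) .nil .nil))) 
(.lf (nat_lit 110893) (.g (nat_lit 1288) (.e (nat_lit 5412) (nat_lit 303) (.e (nat_lit 73746) (nat_lit 3) (.e (nat_lit 516120) (nat_lit 1) (.e (nat_lit 164409) (nat_lit 260) (.e (nat_lit 1208) (nat_lit 89) .nil))))) .nil))) (.nd (nat_lit 5) 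
(.lf (nat_lit 110877) (.g (nat_lit 324) (.e (nat_lit 5412) (nat_lit 303) (.e (nat_lit 73746) (nat_lit 3) (.e (nat_lit 516105) (nat_lit 0) .nil))) .nil)) 
(.lf (nat_lit 110909) (.g (nat_lit 1024) (.e (nat_lit 5412) (nat_lit 303) (.e (nat_lit 73746) (nat_lit 3) (.e (nat_lit 516148) (nat_lit 9) .nil))) .nil)))))) (.nd (nat_lit 2) (.nd (nat_lit 3) (.nd (nat_lit 4) (.nd (nat_lit 5) 
(.lf (nat_lit 110851) (.g (nat_lit 3194) (.e (nat_lit 5412) (nat_lit 303) (.e (nat_lit 73746) (nat_lit 3) (.e (nat_lit 516097) (nat_lit 0) (.e (nat_lit 7593) (nat_lit 407) (.e (nat_lit 73744) (nat_lit 2) (.e (nat_lit 507907) (nat_lit 0) .nil)))))) (.g (nat_lit 0) .nil .nil))) 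
(.lf (nat_lit 110883) (.g (nat_lit 942) (.e (nat_lit 5412) (nat_lit 303) (.e (nat_lit 73746) (nat_lit 3) (.e (nat_lit 516105) (nat_lit 0) (.e (nat_lit 7562) (nat_lit 402) (.e (nat_lit 1530) (nat_lit 109) (.e (nat_lit 344115) (nat_lit 20) (.e (nat_lit 507907) (nat_lit 0) .nil))))))) (.g (nat_lit 4) .nil .nil)))) (.nd (nat_lit 5) 
(.lf (nat_lit 110867) (.g (nat_lit 1589) (.e (nat_lit 5412) (nat_lit 303) (.e (nat_lit 73746) (nat_lit 3) (.e (nat_lit 516100) (nat_lit 0) (.e (nat_lit 7562) (nat_lit 402) (.e (nat_lit 1529) (nat_lit 109) (.e (nat_lit 344115) (nat_lit 20) (.e (nat_lit 507908) (nat_lit 0) .nil))))))) (.g (nat_lit 6) .nil .nil))) 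
(.lf (nat_lit 110899) (.g (nat_lit 2056) (.e (nat_lit 5412) (nat_lit 303) (.e (nat_lit 73746) (nat_lit 3) (.e (nat_lit 516139) (nat_lit 7) (.e (nat_lit 409640) (nat_lit 17) .nil)))) .nil)))) (.nd (nat_lit 4) (.nd (nat_lit 5) 
(.lf (nat_lit 110859) (.g (nat_lit 2327) (.e (nat_lit 5412) (nat_lit 303) (.e (nat_lit 73746) (nat_lit 3) (.e (nat_lit 516100) (nat_lit 0) (.e (nat_lit 7540) (nat_lit 402) (.e (nat_lit 1546) (nat_lit 109) (.e (nat_lit 344115) (nat_lit 20) (.e (nat_lit 507906) (nat_lit 0) .nil))))))) (.g (nat_lit 7) .nil .nil))) 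
(.lf (nat_lit 110891) (.g (nat_lit 1140) (.e (nat_lit 5412) (nat_lit 303) (.e (nat_lit 73746) (nat_lit 3) (.e (nat_lit 516119) (nat_lit 1) (.e (nat_lit 171776) (nat_lit 263) .nil)))) .nil))) (.nd (nat_lit 5) 
(.lf (nat_lit 110875) (.g (nat_lit 995) (.e (nat_lit 5412) (nat_lit 303) (.e (nat_lit 73746) (nat_lit 3) (.e (nat_lit 516104) (nat_lit 0) (.e (nat_lit 7562) (nat_lit 402) (.e (nat_lit 1529) (nat_lit 109) (.e (nat_lit 344115) (nat_lit 20) (.e (nat_lit 507908) (nat_lit 0) .nil))))))) (.g (nat_lit 4) .nil .nil))) 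
(.lf (nat_lit 110907) (.g (nat_lit 2069) (.e (nat_lit 5412) (nat_lit 303) (.e (nat_lit 73746) (nat_lit 3) (.e (nat_lit 516146) (nat_lit 9) (.e (nat_lit 426448) (nat_lit 20) (.e (nat_lit 122624) (nat_lit 2) (.e (nat_lit 196685) (nat_lit 18) (.e (nat_lit 1008) (nat_lit 81) .nil))))))) (.g (nat_lit 4) .nil .nil)))))) (.nd (nat_lit 3) (.nd (nat_lit 4) (.nd (nat_lit 5) 
(.lf (nat_lit 110855) (.g (nat_lit 1137) (.e (nat_lit 5412) (nat_lit 303) (.e (nat_lit 73746) (nat_lit 3) (.e (nat_lit 516100) (nat_lit 0) (.e (nat_lit 7540) (nat_lit 402) (.e (nat_lit 1529) (nat_lit 109) .nil))))) .nil)) 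
(.lf (nat_lit 110887) (.g (nat_lit 1543) (.e (nat_lit 5412) (nat_lit 303) (.e (nat_lit 73746) (nat_lit 3) (.e (nat_lit 516117) (nat_lit 1) (.e (nat_lit 164195) (nat_lit 158) (.e (nat_lit 1125) (nat_lit 83) (.e (nat_lit 16392) (nat_lit 0) (.e (nat_lit 3569) (nat_lit 222) (.e (nat_lit 737283) (nat_lit 0) .nil)))))))) (.g (nat_lit 4) .nil .nil)))) (.nd (nat_lit 5) 
(.lf (nat_lit 110871) (.g (nat_lit 1124) (.e (nat_lit 5412) (nat_lit 303) (.e (nat_lit 73746) (nat_lit 3) (.e (nat_lit 516102) (nat_lit 0) (.e (nat_lit 7936) (nat_lit 407) .nil)))) .nil)) 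
(.lf (nat_lit 110903) (.g (nat_lit 1635) (.e (nat_lit 5412) (nat_lit 303) (.e (nat_lit 73746) (nat_lit 3) (.e (nat_lit 516146) (nat_lit 9) (.e (nat_lit 426448) (nat_lit 20) (.e (nat_lit 122624) (nat_lit 0) .nil))))) .nil)))) (.nd (nat_lit 4) (.nd (nat_lit 5) 
(.lf (nat_lit 110863) (.g (nat_lit 1301) (.e (nat_lit 5412) (nat_lit 303) (.e (nat_lit 73746) (nat_lit 3) (.e (nat_lit 516100) (nat_lit 0) (.e (nat_lit 7542) (nat_lit 402) (.e (nat_lit 1532) (nat_lit 109) (.e (nat_lit 344115) (nat_lit 20) (.e (nat_lit 507907) (nat_lit 0) .nil))))))) (.g (nat_lit 5) .nil .nil))) 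
(.lf (nat_lit 110895) (.g (nat_lit 1451) (.e (nat_lit 5412) (nat_lit 303) (.e (nat_lit 73746) (nat_lit 3) (.e (nat_lit 516139) (nat_lit 7) (.e (nat_lit 409616) (nat_lit 10) .nil)))) .nil))) (.nd (nat_lit 5) 
(.lf (nat_lit 110879) (.g (nat_lit 823) (.e (nat_lit 5412) (nat_lit 303) (.e (nat_lit 73746) (nat_lit 3) (.e (nat_lit 516105) (nat_lit 0) (.e (nat_lit 7562) (nat_lit 402) (.e (nat_lit 1512) (nat_lit 108) .nil))))) .nil)) 
(.lf (nat_lit 110911) (.g (nat_lit 772) (.e (nat_lit 5412) (nat_lit 303) (.e (nat_lit 73746) (nat_lit 3) (.e (nat_lit 516159) (nat_lit 10) .nil))) .nil))))))))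

noncomputable def tv1497 : DT := (.nd (nat_lit 0) (.nd (nat_lit 1) (.nd (nat_lit 2) (.nd (nat_lit 3) (.nd (nat_lit 4) (.nd (nat_lit 5) 
(.lf (nat_lit 110912) (.g (nat_lit 1024) (.e (nat_lit 5412) (nat_lit 303) (.e (nat_lit 73746) (nat_lit 3) (.e (nat_lit 516160) (nat_lit 10) .nil))) .nil)) 
(.lf (nat_lit 110944) (.g (nat_lit 2697) (.e (nat_lit 5412) (nat_lit 303) (.e (nat_lit 81664) (nat_lit 3) (.e (nat_lit 516185) (nat_lit 16) (.e (nat_lit 491560) (nat_lit 10) (.e (nat_lit 344115) (nat_lit 20) (.e (nat_lit 507906) (nat_lit 0) .nil)))))) (.g (nat_lit 5) .nil .nil)))) (.nd (nat_lit 5) 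
(.lf (nat_lit 110928) (.g (nat_lit 2959) (.e (nat_lit 5412) (nat_lit 303) (.e (nat_lit 73746) (nat_lit 3) (.e (nat_lit 516183) (nat_lit 16) (.e (nat_lit 491560) (nat_lit 10) (.e (nat_lit 344115) (nat_lit 20) (.e (nat_lit 507908) (nat_lit 0) .nil)))))) (.g (nat_lit 6) .nil .nil))) 
(.lf (nat_lit 110960) (.g (nat_lit 2025) (.e (nat_lit 5412) (nat_lit 303) (.e (nat_lit 73753) (nat_lit 8) (.e (nat_lit 557067) (nat_lit 9) (.e (nat_lit 249) (nat_lit 21) .nil)))) .nil)))) (.nd (nat_lit 4) (.nd (nat_lit 5) 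
(.lf (nat_lit 110920) (.g (nat_lit 624) (.e (nat_lit 5412) (nat_lit 303) (.e (nat_lit 73746) (nat_lit 3) (.e (nat_lit 516179) (nat_lit 15) .nil))) .nil)) 
(.lf (nat_lit 110952) (.g (nat_lit 1686) (.e (nat_lit 5412) (nat_lit 303) (.e (nat_lit 73751) (nat_lit 7) (.e (nat_lit 548889) (nat_lit 9) (.e (nat_lit 65617) (nat_lit 10) (.e (nat_lit 344115) (nat_lit 20) (.e (nat_lit 507908) (nat_lit 0) .nil)))))) (.g (nat_lit 4) .nil .nil)))) (.nd (nat_lit 5) 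
(.lf (nat_lit 110936) (.g (nat_lit 2798) (.e (nat_lit 5412) (nat_lit 303) (.e (nat_lit 73746) (nat_lit 3) (.e (nat_lit 516185) (nat_lit 16) (.e (nat_lit 491560) (nat_lit 10) (.e (nat_lit 344114) (nat_lit 20) .nil))))) .nil)) 
(.lf (nat_lit 110968) (.g (nat_lit 754) (.e (nat_lit 5412) (nat_lit 303) (.e (nat_lit 73753) (nat_lit 8) (.e (nat_lit 557068) (nat_lit 9) (.e (nat_lit 249) (nat_lit 21) .nil)))) .nil))))) (.nd (nat_lit 3) (.nd (nat_lit 4) (.nd (nat_lit 5) 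
(.lf (nat_lit 110916) (.g (nat_lit 1435) (.e (nat_lit 5412) (nat_lit 303) (.e (nat_lit 73746) (nat_lit 3) (.e (nat_lit 516171) (nat_lit 13) (.e (nat_lit 458774) (nat_lit 18) (.e (nat_lit 5224) (nat_lit 296) .nil))))) .nil)) 
(.lf (nat_lit 110948) (.g (nat_lit 1854) (.e (nat_lit 5412) (nat_lit 303) (.e (nat_lit 73751) (nat_lit 7) (.e (nat_lit 548889) (nat_lit 9) (.e (nat_lit 65610) (nat_lit 10) (.e (nat_lit 344115) (nat_lit 20) (.e (nat_lit 507908) (nat_lit 0) .nil)))))) (.g (nat_lit 0) .nil .nil)))) (.nd (nat_lit 5) 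
(.lf (nat_lit 110932) (.g (nat_lit 3127) (.e (nat_lit 5412) (nat_lit 303) (.e (nat_lit 73746) (nat_lit 3) (.e (nat_lit 516184) (nat_lit 16) (.e (nat_lit 491560) (nat_lit 10) (.e (nat_lit 344115) (nat_lit 20) (.e (nat_lit 507906) (nat_lit 0) .nil)))))) (.g (nat_lit 6) .nil .nil))) 
(.lf (nat_lit 110964) (.g (nat_lit 1827) (.e (nat_lit 5412) (nat_lit 303) (.e (nat_lit 73753) (nat_lit 8) (.e (nat_lit 557067) (nat_lit 9) (.e (nat_lit 7936) (nat_lit 21) .nil)))) .nil)))) (.nd (nat_lit 4) (.nd (nat_lit 5) 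
(.lf (nat_lit 110924) (.g (nat_lit 2632) (.e (nat_lit 5412) (nat_lit 303) (.e (nat_lit 73746) (nat_lit 3) (.e (nat_lit 516183) (nat_lit 16) (.e (nat_lit 491558) (nat_lit 10) (.e (nat_lit 344115) (nat_lit 20) (.e (nat_lit 507908) (nat_lit 0) .nil)))))) (.g (nat_lit 6) .nil .nil))) 
(.lf (nat_lit 110956) (.g (nat_lit 2486) (.e (nat_lit 5412) (nat_lit 303) (.e (nat_lit 73752) (nat_lit 8) (.e (nat_lit 557087) (nat_lit 11) (.e (nat_lit 24639) (nat_lit 10) (.e (nat_lit 344115) (nat_lit 20) (.e (nat_lit 507907) (nat_lit 0) .nil)))))) (.g (nat_lit 4) .nil .nil)))) (.nd (nat_lit 5) 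
(.lf (nat_lit 110940) (.g (nat_lit 3197) (.e (nat_lit 5412) (nat_lit 303) (.e (nat_lit 73746) (nat_lit 3) (.e (nat_lit 516185) (nat_lit 16) (.e (nat_lit 491560) (nat_lit 10) (.e (nat_lit 344115) (nat_lit 20) (.e (nat_lit 507908) (nat_lit 0) .nil)))))) (.g (nat_lit 0) .nil .nil))) 
(.lf (nat_lit 110972) (.g (nat_lit 2273) (.e (nat_lit 5412) (nat_lit 303) (.e (nat_lit 73753) (nat_lit 8) (.e (nat_lit 557068) (nat_lit 9) (.e (nat_lit 251) (nat_lit 21) (.e (nat_lit 336163) (nat_lit 10) (.e (nat_lit 344115) (nat_lit 20) (.e (nat_lit 507908) (nat_lit 0) .nil))))))) (.g (nat_lit 7) .nil .nil))))))) (.nd (nat_lit 2) (.nd (nat_lit 3) (.nd (nat_lit 4) (.nd (nat_lit 5) 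
(.lf (nat_lit 110914) (.g (nat_lit 2253) (.e (nat_lit 5412) (nat_lit 303) (.e (nat_lit 73746) (nat_lit 3) (.e (nat_lit 516169) (nat_lit 13) (.e (nat_lit 458774) (nat_lit 18) (.e (nat_lit 5224) (nat_lit 296) (.e (nat_lit 163868) (nat_lit 2) (.e (nat_lit 196692) (nat_lit 18) (.e (nat_lit 1008) (nat_lit 81) .nil)))))))) (.g (nat_lit 5) .nil .nil))) 
(.lf (nat_lit 110946) (.g (nat_lit 774) (.e (nat_lit 5412) (nat_lit 303) (.e (nat_lit 73751) (nat_lit 7) (.e (nat_lit 548874) (nat_lit 5) (.e (nat_lit 1592) (nat_lit 111) (.e (nat_lit 360464) (nat_lit 2) .nil))))) .nil))) (.nd (nat_lit 5) 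
(.lf (nat_lit 110930) (.g (nat_lit 2747) (.e (nat_lit 5412) (nat_lit 303) (.e (nat_lit 73746) (nat_lit 3) (.e (nat_lit 516184) (nat_lit 16) (.e (nat_lit 491558) (nat_lit 10) (.e (nat_lit 344115) (nat_lit 20) (.e (nat_lit 507907) (nat_lit 0) .nil)))))) (.g (nat_lit 6) .nil .nil))) 
(.lf (nat_lit 110962) (.g (nat_lit 2201) (.e (nat_lit 5412) (nat_lit 303) (.e (nat_lit 73753) (nat_lit 8) (.e (nat_lit 557067) (nat_lit 9) (.e (nat_lit 290) (nat_lit 21) .nil)))) .nil)))) (.nd (nat_lit 4) (.nd (nat_lit 5) 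
(.lf (nat_lit 110922) (.g (nat_lit 2714) (.e (nat_lit 5412) (nat_lit 303) (.e (nat_lit 73746) (nat_lit 3) (.e (nat_lit 516183) (nat_lit 16) (.e (nat_lit 491558) (nat_lit 10) (.e (nat_lit 344115) (nat_lit 20) (.e (nat_lit 507906) (nat_lit 0) .nil)))))) (.g (nat_lit 6) .nil .nil))) 
(.lf (nat_lit 110954) (.g (nat_lit 2003) (.e (nat_lit 5412) (nat_lit 303) (.e (nat_lit 73751) (nat_lit 7) (.e (nat_lit 548889) (nat_lit 9) (.e (nat_lit 65620) (nat_lit 10) (.e (nat_lit 344115) (nat_lit 20) (.e (nat_lit 507906) (nat_lit 0) .nil)))))) (.g (nat_lit 0) .nil .nil)))) (.nd (nat_lit 5) 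
(.lf (nat_lit 110938) (.g (nat_lit 3200) (.e (nat_lit 5412) (nat_lit 303) (.e (nat_lit 73746) (nat_lit 3) (.e (nat_lit 516185) (nat_lit 16) (.e (nat_lit 491560) (nat_lit 10) (.e (nat_lit 344115) (nat_lit 20) (.e (nat_lit 507906) (nat_lit 0) .nil)))))) (.g (nat_lit 6) .nil .nil))) 
(.lf (nat_lit 110970) (.g (nat_lit 2360) (.e (nat_lit 5412) (nat_lit 303) (.e (nat_lit 73753) (nat_lit 8) (.e (nat_lit 557068) (nat_lit 9) (.e (nat_lit 251) (nat_lit 21) (.e (nat_lit 336163) (nat_lit 10) (.e (nat_lit 344115) (nat_lit 20) (.e (nat_lit 507906) (nat_lit 0) .nil))))))) (.g (nat_lit 7) .nil .nil)))))) (.nd (nat_lit 3) (.nd (nat_lit 4) (.nd (nat_lit 5) 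
(.lf (nat_lit 110918) (.g (nat_lit 3003) (.e (nat_lit 5412) (nat_lit 303) (.e (nat_lit 73746) (nat_lit 3) (.e (nat_lit 516171) (nat_lit 13) (.e (nat_lit 458774) (nat_lit 18) (.e (nat_lit 5224) (nat_lit 296) (.e (nat_lit 163871) (nat_lit 2) (.e (nat_lit 196691) (nat_lit 18) (.e (nat_lit 1008) (nat_lit 81) .nil)))))))) (.g (nat_lit 7) .nil .nil))) 
(.lf (nat_lit 110950) (.g (nat_lit 1626) (.e (nat_lit 5412) (nat_lit 303) (.e (nat_lit 73751) (nat_lit 7) (.e (nat_lit 548889) (nat_lit 9) (.e (nat_lit 65616) (nat_lit 10) (.e (nat_lit 344115) (nat_lit 20) (.e (nat_lit 507906) (nat_lit 0) .nil)))))) (.g (nat_lit 6) .nil .nil)))) (.nd (nat_lit 5) 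
(.lf (nat_lit 110934) (.g (nat_lit 3123) (.e (nat_lit 5412) (nat_lit 303) (.e (nat_lit 73746) (nat_lit 3) (.e (nat_lit 516184) (nat_lit 16) (.e (nat_lit 491560) (nat_lit 10) (.e (nat_lit 344115) (nat_lit 20) (.e (nat_lit 507908) (nat_lit 0) .nil)))))) (.g (nat_lit 6) .nil .nil))) 
(.lf (nat_lit 110966) (.g (nat_lit 735) (.e (nat_lit 5412) (nat_lit 303) (.e (nat_lit 73753) (nat_lit 8) (.e (nat_lit 557068) (nat_lit 9) (.e (nat_lit 247) (nat_lit 21) .nil)))) .nil)))) (.nd (nat_lit 4) (.nd (nat_lit 5) 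
(.lf (nat_lit 110926) (.g (nat_lit 3008) (.e (nat_lit 5412) (nat_lit 303) (.e (nat_lit 73746) (nat_lit 3) (.e (nat_lit 516183) (nat_lit 16) (.e (nat_lit 491560) (nat_lit 10) (.e (nat_lit 344115) (nat_lit 20) (.e (nat_lit 507906) (nat_lit 0) .nil)))))) (.g (nat_lit 6) .nil .nil))) 
(.lf (nat_lit 110958) (.g (nat_lit 2351) (.e (nat_lit 5412) (nat_lit 303) (.e (nat_lit 73752) (nat_lit 8) (.e (nat_lit 557087) (nat_lit 11) (.e (nat_lit 24640) (nat_lit 10) (.e (nat_lit 344115) (nat_lit 20) .nil))))) .nil))) (.nd (nat_lit 5) 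
(.lf (nat_lit 110942) (.g (nat_lit 925) (.e (nat_lit 5412) (nat_lit 303) (.e (nat_lit 73746) (nat_lit 3) (.e (nat_lit 516191) (nat_lit 17) (.e (nat_lit 7936) (nat_lit 362) .nil)))) .nil)) 
(.lf (nat_lit 110974) (.g (nat_lit 1857) (.e (nat_lit 5412) (nat_lit 303) (.e (nat_lit 73753) (nat_lit 8) (.e (nat_lit 557068) (nat_lit 9) (.e (nat_lit 251) (nat_lit 21) (.e (nat_lit 336174) (nat_lit 10) (.e (nat_lit 344115) (nat_lit 20) (.e (nat_lit 507907) (nat_lit 0) .nil))))))) (.g (nat_lit 7) .nil .nil)))))))) 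
(.nd (nat_lit 1) (.nd (nat_lit 2) (.nd (nat_lit 3) (.nd (nat_lit 4) (.nd (nat_lit 5) 
(.lf (nat_lit 110913) (.g (nat_lit 1613) (.e (nat_lit 5412) (nat_lit 303) (.e (nat_lit 73746) (nat_lit 3) (.e (nat_lit 516169) (nat_lit 13) (.e (nat_lit 458774) (nat_lit 18) (.e (nat_lit 5224) (nat_lit 296) .nil))))) .nil)) 
(.lf (nat_lit 110945) (.g (nat_lit 1256) (.e (nat_lit 5412) (nat_lit 303) (.e (nat_lit 73750) (nat_lit 6) (.e (nat_lit 540724) (nat_lit 28) (.e (nat_lit 442399) (nat_lit 20) (.e (nat_lit 3572) (nat_lit 222) (.e (nat_lit 737283) (nat_lit 0) .nil)))))) (.g (nat_lit 0) .nil .nil)))) (.nd (nat_lit 5) 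
(.lf (nat_lit 110929) (.g (nat_lit 2855) (.e (nat_lit 5412) (nat_lit 303) (.e (nat_lit 73746) (nat_lit 3) (.e (nat_lit 516184) (nat_lit 16) (.e (nat_lit 491558) (nat_lit 10) (.e (nat_lit 344115) (nat_lit 20) (.e (nat_lit 507906) (nat_lit 0) .nil)))))) (.g (nat_lit 6) .nil .nil))) 
(.lf (nat_lit 110961) (.g (nat_lit 2506) (.e (nat_lit 5412) (nat_lit 303) (.e (nat_lit 73753) (nat_lit 8) (.e (nat_lit 557067) (nat_lit 9) (.e (nat_lit 249) (nat_lit 21) (.e (nat_lit 336174) (nat_lit 10) .nil))))) .nil)))) (.nd (nat_lit 4) (.nd (nat_lit 5) 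
(.lf (nat_lit 110921) (.g (nat_lit 1876) (.e (nat_lit 5412) (nat_lit 303) (.e (nat_lit 73746) (nat_lit 3) (.e (nat_lit 516182) (nat_lit 15) (.e (nat_lit 475211) (nat_lit 41) (.e (nat_lit 712706) (nat_lit 0) .nil))))) .nil)) 
(.lf (nat_lit 110953) (.g (nat_lit 2072) (.e (nat_lit 5412) (nat_lit 303) (.e (nat_lit 73751) (nat_lit 7) (.e (nat_lit 548889) (nat_lit 9) (.e (nat_lit 65619) (nat_lit 10) (.e (nat_lit 344115) (nat_lit 20) (.e (nat_lit 507906) (nat_lit 0) .nil)))))) (.g (nat_lit 0) .nil .nil)))) (.nd (nat_lit 5) 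
(.lf (nat_lit 110937) (.g (nat_lit 2899) (.e (nat_lit 5412) (nat_lit 303) (.e (nat_lit 73746) (nat_lit 3) (.e (nat_lit 516185) (nat_lit 16) (.e (nat_lit 491560) (nat_lit 10) (.e (nat_lit 344114) (nat_lit 20) (.e (nat_lit 507907) (nat_lit 0) .nil)))))) (.g (nat_lit 4) .nil .nil))) 
(.lf (nat_lit 110969) (.g (nat_lit 1039) (.e (nat_lit 5412) (nat_lit 303) (.e (nat_lit 73753) (nat_lit 8) (.e (nat_lit 557068) (nat_lit 9) (.e (nat_lit 249) (nat_lit 21) (.e (nat_lit 336174) (nat_lit 10) .nil))))) .nil))))) (.nd (nat_lit 3) (.nd (nat_lit 4) (.nd (nat_lit 5) 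
(.lf (nat_lit 110917) (.g (nat_lit 2702) (.e (nat_lit 5412) (nat_lit 303) (.e (nat_lit 73746) (nat_lit 3) (.e (nat_lit 516171) (nat_lit 13) (.e (nat_lit 458774) (nat_lit 18) (.e (nat_lit 5224) (nat_lit 296) (.e (nat_lit 163868) (nat_lit 2) (.e (nat_lit 196691) (nat_lit 18) (.e (nat_lit 1008) (nat_lit 81) .nil)))))))) (.g (nat_lit 6) .nil .nil))) 
(.lf (nat_lit 110949) (.g (nat_lit 1592) (.e (nat_lit 5412) (nat_lit 303) (.e (nat_lit 73751) (nat_lit 7) (.e (nat_lit 548889) (nat_lit 9) (.e (nat_lit 65611) (nat_lit 10) (.e (nat_lit 344115) (nat_lit 20) (.e (nat_lit 507906) (nat_lit 0) .nil)))))) (.g (nat_lit 5) .nil .nil)))) (.nd (nat_lit 5) 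
(.lf (nat_lit 110933) (.g (nat_lit 3122) (.e (nat_lit 5412) (nat_lit 303) (.e (nat_lit 73746) (nat_lit 3) (.e (nat_lit 516184) (nat_lit 16) (.e (nat_lit 491560) (nat_lit 10) (.e (nat_lit 344115) (nat_lit 20) (.e (nat_lit 507907) (nat_lit 0) .nil)))))) (.g (nat_lit 6) .nil .nil))) 
(.lf (nat_lit 110965) (.g (nat_lit 1827) (.e (nat_lit 5412) (nat_lit 303) (.e (nat_lit 73753) (nat_lit 8) (.e (nat_lit 557067) (nat_lit 9) (.e (nat_lit 7936) (nat_lit 24) .nil)))) .nil)))) (.nd (nat_lit 4) (.nd (nat_lit 5) 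
(.lf (nat_lit 110925) (.g (nat_lit 2086) (.e (nat_lit 5412) (nat_lit 303) (.e (nat_lit 73746) (nat_lit 3) (.e (nat_lit 516183) (nat_lit 16) (.e (nat_lit 491560) (nat_lit 10) (.e (nat_lit 344114) (nat_lit 20) .nil))))) .nil)) 
(.lf (nat_lit 110957) (.g (nat_lit 2467) (.e (nat_lit 5412) (nat_lit 303) (.e (nat_lit 73752) (nat_lit 8) (.e (nat_lit 557087) (nat_lit 11) (.e (nat_lit 24639) (nat_lit 10) (.e (nat_lit 344115) (nat_lit 20) (.e (nat_lit 507908) (nat_lit 0) .nil)))))) (.g (nat_lit 4) .nil .nil)))) (.nd (nat_lit 5) 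
(.lf (nat_lit 110941) (.g (nat_lit 696) (.e (nat_lit 5412) (nat_lit 303) (.e (nat_lit 73746) (nat_lit 3) (.e (nat_lit 516191) (nat_lit 17) .nil))) .nil)) 
(.lf (nat_lit 110973) (.g (nat_lit 2005) (.e (nat_lit 5412) (nat_lit 303) (.e (nat_lit 73753) (nat_lit 8) (.e (nat_lit 557068) (nat_lit 9) (.e (nat_lit 251) (nat_lit 21) (.e (nat_lit 336174) (nat_lit 10) (.e (nat_lit 344115) (nat_lit 20) (.e (nat_lit 507906) (nat_lit 0) .nil))))))) (.g (nat_lit 7) .nil .nil))))))) (.nd (nat_lit 2) (.nd (nat_lit 3) (.nd (nat_lit 4) (.nd (nat_lit 5) 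
(.lf (nat_lit 110915) (.g (nat_lit 2905) (.e (nat_lit 5412) (nat_lit 303) (.e (nat_lit 73746) (nat_lit 3) (.e (nat_lit 516169) (nat_lit 13) (.e (nat_lit 458774) (nat_lit 18) (.e (nat_lit 5224) (nat_lit 296) (.e (nat_lit 163871) (nat_lit 2) (.e (nat_lit 196691) (nat_lit 18) (.e (nat_lit 1008) (nat_lit 81) .nil)))))))) (.g (nat_lit 6) .nil .nil))) 
(.lf (nat_lit 110947) (.g (nat_lit 1145) (.e (nat_lit 5412) (nat_lit 303) (.e (nat_lit 73751) (nat_lit 7) (.e (nat_lit 548887) (nat_lit 9) (.e (nat_lit 65619) (nat_lit 10) (.e (nat_lit 344115) (nat_lit 20) .nil))))) .nil))) (.nd (nat_lit 5) 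
(.lf (nat_lit 110931) (.g (nat_lit 2764) (.e (nat_lit 5412) (nat_lit 303) (.e (nat_lit 73746) (nat_lit 3) (.e (nat_lit 516184) (nat_lit 16) (.e (nat_lit 491558) (nat_lit 10) (.e (nat_lit 344115) (nat_lit 20) (.e (nat_lit 507908) (nat_lit 0) .nil)))))) (.g (nat_lit 6) .nil .nil))) 
(.lf (nat_lit 110963) (.g (nat_lit 2782) (.e (nat_lit 5412) (nat_lit 303) (.e (nat_lit 73753) (nat_lit 8) (.e (nat_lit 557067) (nat_lit 9) (.e (nat_lit 290) (nat_lit 21) (.e (nat_lit 336163) (nat_lit 10) .nil))))) .nil)))) (.nd (nat_lit 4) (.nd (nat_lit 5) 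
(.lf (nat_lit 110923) (.g (nat_lit 2621) (.e (nat_lit 5412) (nat_lit 303) (.e (nat_lit 73746) (nat_lit 3) (.e (nat_lit 516183) (nat_lit 16) (.e (nat_lit 491558) (nat_lit 10) (.e (nat_lit 344115) (nat_lit 20) (.e (nat_lit 507907) (nat_lit 0) .nil)))))) (.g (nat_lit 6) .nil .nil))) 
(.lf (nat_lit 110955) (.g (nat_lit 2432) (.e (nat_lit 5412) (nat_lit 303) (.e (nat_lit 73752) (nat_lit 8) (.e (nat_lit 557087) (nat_lit 11) (.e (nat_lit 24639) (nat_lit 10) (.e (nat_lit 344115) (nat_lit 20) (.e (nat_lit 507906) (nat_lit 0) .nil)))))) (.g (nat_lit 4) .nil .nil)))) (.nd (nat_lit 5) 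
(.lf (nat_lit 110939) (.g (nat_lit 3184) (.e (nat_lit 5412) (nat_lit 303) (.e (nat_lit 73746) (nat_lit 3) (.e (nat_lit 516185) (nat_lit 16) (.e (nat_lit 491560) (nat_lit 10) (.e (nat_lit 344115) (nat_lit 20) (.e (nat_lit 507907) (nat_lit 0) .nil)))))) (.g (nat_lit 0) .nil .nil))) 
(.lf (nat_lit 110971) (.g (nat_lit 2239) (.e (nat_lit 5412) (nat_lit 303) (.e (nat_lit 73753) (nat_lit 8) (.e (nat_lit 557068) (nat_lit 9) (.e (nat_lit 251) (nat_lit 21) (.e (nat_lit 336163) (nat_lit 10) (.e (nat_lit 344115) (nat_lit 20) (.e (nat_lit 507907) (nat_lit 0) .nil))))))) (.g (nat_lit 7) .nil .nil)))))) (.nd (nat_lit 3) (.nd (nat_lit 4) (.nd (nat_lit 5) 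
(.lf (nat_lit 110919) (.g (nat_lit 1927) (.e (nat_lit 5412) (nat_lit 303) (.e (nat_lit 73746) (nat_lit 3) (.e (nat_lit 516171) (nat_lit 13) (.e (nat_lit 458774) (nat_lit 18) (.e (nat_lit 5224) (nat_lit 296) (.e (nat_lit 163871) (nat_lit 2) (.e (nat_lit 196691) (nat_lit 18) (.e (nat_lit 1014) (nat_lit 81) .nil)))))))) (.g (nat_lit 4) .nil .nil))) 
(.lf (nat_lit 110951) (.g (nat_lit 1681) (.e (nat_lit 5412) (nat_lit 303) (.e (nat_lit 73751) (nat_lit 7) (.e (nat_lit 548889) (nat_lit 9) (.e (nat_lit 65617) (nat_lit 10) (.e (nat_lit 344115) (nat_lit 20) (.e (nat_lit 507907) (nat_lit 0) .nil)))))) (.g (nat_lit 4) .nil .nil)))) (.nd (nat_lit 5) 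
(.lf (nat_lit 110935) (.g (nat_lit 3164) (.e (nat_lit 5412) (nat_lit 303) (.e (nat_lit 73746) (nat_lit 3) (.e (nat_lit 516185) (nat_lit 16) (.e (nat_lit 491558) (nat_lit 10) (.e (nat_lit 344115) (nat_lit 20) (.e (nat_lit 507906) (nat_lit 0) .nil)))))) (.g (nat_lit 6) .nil .nil))) 
(.lf (nat_lit 110967) (.g (nat_lit 804) (.e (nat_lit 5412) (nat_lit 303) (.e (nat_lit 73753) (nat_lit 8) (.e (nat_lit 557068) (nat_lit 9) (.e (nat_lit 247) (nat_lit 21) (.e (nat_lit 336165) (nat_lit 10) .nil))))) .nil)))) (.nd (nat_lit 4) (.nd (nat_lit 5) 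
(.lf (nat_lit 110927) (.g (nat_lit 2955) (.e (nat_lit 5412) (nat_lit 303) (.e (nat_lit 73746) (nat_lit 3) (.e (nat_lit 516183) (nat_lit 16) (.e (nat_lit 491560) (nat_lit 10) (.e (nat_lit 344115) (nat_lit 20) (.e (nat_lit 507907) (nat_lit 0) .nil)))))) (.g (nat_lit 6) .nil .nil))) 
(.lf (nat_lit 110959) (.g (nat_lit 3592) (.e (nat_lit 5412) (nat_lit 303) (.e (nat_lit 73753) (nat_lit 8) (.e (nat_lit 557066) (nat_lit 9) (.e (nat_lit 232) (nat_lit 21) (.e (nat_lit 336175) (nat_lit 10) .nil))))) .nil))) (.nd (nat_lit 5) 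
(.lf (nat_lit 110943) (.g (nat_lit 738) (.e (nat_lit 5412) (nat_lit 303) (.e (nat_lit 73746) (nat_lit 3) (.e (nat_lit 516195) (nat_lit 26) .nil))) .nil)) 
(.lf (nat_lit 110975) (.g (nat_lit 1919) (.e (nat_lit 5412) (nat_lit 303) (.e (nat_lit 73753) (nat_lit 8) (.e (nat_lit 557068) (nat_lit 9) (.e (nat_lit 251) (nat_lit 21) (.e (nat_lit 336174) (nat_lit 10) (.e (nat_lit 344115) (nat_lit 20) (.e (nat_lit 507908) (nat_lit 0) .nil))))))) (.g (nat_lit 7) .nil .nil)))))))))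

noncomputable def tv1498 : DT := (.nd (nat_lit 0) (.nd (nat_lit 1) (.nd (nat_lit 2) (.nd (nat_lit 3) (.nd (nat_lit 4) (.nd (nat_lit 5) 
(.lf (nat_lit 110976) (.g (nat_lit 2271) (.e (nat_lit 5412) (nat_lit 303) (.e (nat_lit 73753) (nat_lit 8) (.e (nat_lit 557068) (nat_lit 9) (.e (nat_lit 290) (nat_lit 21) (.e (nat_lit 336163) (nat_lit 10) (.e (nat_lit 344115) (nat_lit 20) (.e (nat_lit 507906) (nat_lit 0) .nil))))))) (.g (nat_lit 7) .nil .nil))) 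
(.lf (nat_lit 111008) (.g (nat_lit 2496) (.e (nat_lit 5412) (nat_lit 303) (.e (nat_lit 73753) (nat_lit 8) (.e (nat_lit 557086) (nat_lit 11) (.e (nat_lit 24639) (nat_lit 10) (.e (nat_lit 344115) (nat_lit 20) (.e (nat_lit 507908) (nat_lit 0) .nil)))))) (.g (nat_lit 6) .nil .nil)))) (.nd (nat_lit 5) 
(.lf (nat_lit 110992) (.g (nat_lit 1402) (.e (nat_lit 5412) (nat_lit 303) (.e (nat_lit 73753) (nat_lit 8) (.e (nat_lit 557073) (nat_lit 9) (.e (nat_lit 290) (nat_lit 21) (.e (nat_lit 336174) (nat_lit 10) (.e (nat_lit 344115) (nat_lit 20) (.e (nat_lit 507908) (nat_lit 0) .nil))))))) (.g (nat_lit 7) .nil .nil))) 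
(.lf (nat_lit 111024) (.g (nat_lit 1970) (.e (nat_lit 5412) (nat_lit 303) (.e (nat_lit 73753) (nat_lit 8) (.e (nat_lit 557119) (nat_lit 18) (.e (nat_lit 2798) (nat_lit 180) (.e (nat_lit 303133) (nat_lit 9) (.e (nat_lit 426007) (nat_lit 0) (.e (nat_lit 3569) (nat_lit 222) (.e (nat_lit 737284) (nat_lit 0) .nil)))))))) (.g (nat_lit 4) .nil .nil))))) (.nd (nat_lit 4) (.nd (nat_lit 5) 
(.lf (nat_lit 110984) (.g (nat_lit 2024) (.e (nat_lit 5412) (nat_lit 303) (.e (nat_lit 73753) (nat_lit 8) (.e (nat_lit 557072) (nat_lit 9) (.e (nat_lit 290) (nat_lit 21) (.e (nat_lit 336163) (nat_lit 10) (.e (nat_lit 344115) (nat_lit 20) (.e (nat_lit 507908) (nat_lit 0) .nil))))))) (.g (nat_lit 7) .nil .nil))) 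
(.lf (nat_lit 111016) (.g (nat_lit 3280) (.e (nat_lit 5412) (nat_lit 303) (.e (nat_lit 73753) (nat_lit 8) (.e (nat_lit 557087) (nat_lit 11) (.e (nat_lit 24640) (nat_lit 10) (.e (nat_lit 344115) (nat_lit 20) (.e (nat_lit 507908) (nat_lit 0) .nil)))))) (.g (nat_lit 0) .nil .nil)))) (.nd (nat_lit 5) 
(.lf (nat_lit 111000) (.g (nat_lit 3375) (.e (nat_lit 5412) (nat_lit 303) (.e (nat_lit 73753) (nat_lit 8) (.e (nat_lit 557085) (nat_lit 11) (.e (nat_lit 24640) (nat_lit 10) (.e (nat_lit 344115) (nat_lit 20) (.e (nat_lit 507907) (nat_lit 0) .nil)))))) (.g (nat_lit 6) .nil .nil))) 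
(.lf (nat_lit 111032) (.g (nat_lit 2128) (.e (nat_lit 5412) (nat_lit 303) (.e (nat_lit 73753) (nat_lit 8) (.e (nat_lit 557119) (nat_lit 18) (.e (nat_lit 2798) (nat_lit 180) (.e (nat_lit 303133) (nat_lit 9) (.e (nat_lit 426022) (nat_lit 0) (.e (nat_lit 3569) (nat_lit 222) (.e (nat_lit 737284) (nat_lit 0) .nil)))))))) (.g (nat_lit 4) .nil .nil)))))) 
(.nd (nat_lit 3) (.nd (nat_lit 4) (.nd (nat_lit 5) 
(.lf (nat_lit 110980) (.g (nat_lit 1410) (.e (nat_lit 5412) (nat_lit 303) (.e (nat_lit 73753) (nat_lit 8) (.e (nat_lit 557070) (nat_lit 9) (.e (nat_lit 267) (nat_lit 21) (.e (nat_lit 336172) (nat_lit 10) .nil))))) .nil)) 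
(.lf (nat_lit 111012) (.g (nat_lit 2856) (.e (nat_lit 5412) (nat_lit 303) (.e (nat_lit 73753) (nat_lit 8) (.e (nat_lit 557086) (nat_lit 11) (.e (nat_lit 24641) (nat_lit 10) (.e (nat_lit 344115) (nat_lit 20) (.e (nat_lit 507906) (nat_lit 0) .nil)))))) (.g (nat_lit 6) .nil .nil)))) (.nd (nat_lit 5) 
(.lf (nat_lit 110996) (.g (nat_lit 3122) (.e (nat_lit 5412) (nat_lit 303) (.e (nat_lit 73753) (nat_lit 8) (.e (nat_lit 557085) (nat_lit 11) (.e (nat_lit 24639) (nat_lit 10) (.e (nat_lit 344115) (nat_lit 20) (.e (nat_lit 507906) (nat_lit 0) .nil)))))) (.g (nat_lit 6) .nil .nil))) 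
(.lf (nat_lit 111028) (.g (nat_lit 2670) (.e (nat_lit 5412) (nat_lit 303) (.e (nat_lit 73753) (nat_lit 8) (.e (nat_lit 557119) (nat_lit 18) (.e (nat_lit 2798) (nat_lit 180) (.e (nat_lit 303133) (nat_lit 9) (.e (nat_lit 426007) (nat_lit 0) (.e (nat_lit 3572) (nat_lit 222) (.e (nat_lit 737283) (nat_lit 0) .nil)))))))) (.g (nat_lit 5) .nil .nil))))) (.nd (nat_lit 4) (.nd (nat_lit 5) 
(.lf (nat_lit 110988) (.g (nat_lit 1815) (.e (nat_lit 5412) (nat_lit 303) (.e (nat_lit 73753) (nat_lit 8) (.e (nat_lit 557072) (nat_lit 9) (.e (nat_lit 290) (nat_lit 21) (.e (nat_lit 336174) (nat_lit 10) (.e (nat_lit 344115) (nat_lit 20) (.e (nat_lit 507906) (nat_lit 0) .nil))))))) (.g (nat_lit 7) .nil .nil))) 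
(.lf (nat_lit 111020) (.g (nat_lit 2591) (.e (nat_lit 5412) (nat_lit 303) (.e (nat_lit 73753) (nat_lit 8) (.e (nat_lit 557090) (nat_lit 12) (.e (nat_lit 163844) (nat_lit 0) .nil)))) .nil))) (.nd (nat_lit 5) 
(.lf (nat_lit 111004) (.g (nat_lit 3165) (.e (nat_lit 5412) (nat_lit 303) (.e (nat_lit 73753) (nat_lit 8) (.e (nat_lit 557085) (nat_lit 11) (.e (nat_lit 24641) (nat_lit 10) (.e (nat_lit 344115) (nat_lit 20) (.e (nat_lit 507908) (nat_lit 0) .nil)))))) (.g (nat_lit 6) .nil .nil))) 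
(.lf (nat_lit 111036) (.g (nat_lit 2672) (.e (nat_lit 5412) (nat_lit 303) (.e (nat_lit 73753) (nat_lit 8) (.e (nat_lit 557119) (nat_lit 18) (.e (nat_lit 2798) (nat_lit 180) (.e (nat_lit 303133) (nat_lit 9) (.e (nat_lit 426023) (nat_lit 0) (.e (nat_lit 3572) (nat_lit 222) (.e (nat_lit 737281) (nat_lit 0) .nil)))))))) (.g (nat_lit 5) .nil .nil))))))) 
(.nd (nat_lit 2) (.nd (nat_lit 3) (.nd (nat_lit 4) (.nd (nat_lit 5) 
(.lf (nat_lit 110978) (.g (nat_lit 2174) (.e (nat_lit 5412) (nat_lit 303) (.e (nat_lit 73753) (nat_lit 8) (.e (nat_lit 557068) (nat_lit 9) (.e (nat_lit 290) (nat_lit 21) (.e (nat_lit 336163) (nat_lit 10) (.e (nat_lit 344115) (nat_lit 20) (.e (nat_lit 507908) (nat_lit 0) .nil))))))) (.g (nat_lit 7) .nil .nil))) 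
(.lf (nat_lit 111010) (.g (nat_lit 3250) (.e (nat_lit 5412) (nat_lit 303) (.e (nat_lit 73753) (nat_lit 8) (.e (nat_lit 557086) (nat_lit 11) (.e (nat_lit 24640) (nat_lit 10) (.e (nat_lit 344115) (nat_lit 20) (.e (nat_lit 507907) (nat_lit 0) .nil)))))) (.g (nat_lit 6) .nil .nil)))) (.nd (nat_lit 5) 
(.lf (nat_lit 110994) (.g (nat_lit 2422) (.e (nat_lit 5412) (nat_lit 303) (.e (nat_lit 73753) (nat_lit 8) (.e (nat_lit 557074) (nat_lit 9) (.e (nat_lit 284) (nat_lit 21) (.e (nat_lit 336174) (nat_lit 10) .nil))))) .nil)) 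
(.lf (nat_lit 111026) (.g (nat_lit 2053) (.e (nat_lit 5412) (nat_lit 303) (.e (nat_lit 73753) (nat_lit 8) (.e (nat_lit 557119) (nat_lit 18) (.e (nat_lit 2798) (nat_lit 180) (.e (nat_lit 303133) (nat_lit 9) (.e (nat_lit 426007) (nat_lit 0) (.e (nat_lit 3571) (nat_lit 222) (.e (nat_lit 737284) (nat_lit 0) .nil)))))))) (.g (nat_lit 4) .nil .nil))))) (.nd (nat_lit 4) (.nd (nat_lit 5) 
(.lf (nat_lit 110986) (.g (nat_lit 993) (.e (nat_lit 5412) (nat_lit 303) (.e (nat_lit 73753) (nat_lit 8) (.e (nat_lit 557072) (nat_lit 9) (.e (nat_lit 290) (nat_lit 21) (.e (nat_lit 336165) (nat_lit 10) (.e (nat_lit 344115) (nat_lit 20) (.e (nat_lit 507907) (nat_lit 0) .nil))))))) (.g (nat_lit 4) .nil .nil))) 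
(.lf (nat_lit 111018) (.g (nat_lit 818) (.e (nat_lit 5412) (nat_lit 303) (.e (nat_lit 73753) (nat_lit 8) (.e (nat_lit 557090) (nat_lit 12) .nil))) .nil))) (.nd (nat_lit 5) 
(.lf (nat_lit 111002) (.g (nat_lit 3237) (.e (nat_lit 5412) (nat_lit 303) (.e (nat_lit 73753) (nat_lit 8) (.e (nat_lit 557085) (nat_lit 11) (.e (nat_lit 24641) (nat_lit 10) (.e (nat_lit 344115) (nat_lit 20) (.e (nat_lit 507906) (nat_lit 0) .nil)))))) (.g (nat_lit 6) .nil .nil))) 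
(.lf (nat_lit 111034) (.g (nat_lit 2590) (.e (nat_lit 5412) (nat_lit 303) (.e (nat_lit 73753) (nat_lit 8) (.e (nat_lit 557119) (nat_lit 18) (.e (nat_lit 2798) (nat_lit 180) (.e (nat_lit 303133) (nat_lit 9) (.e (nat_lit 426023) (nat_lit 0) (.e (nat_lit 3569) (nat_lit 222) (.e (nat_lit 737283) (nat_lit 0) .nil)))))))) (.g (nat_lit 5) .nil .nil)))))) 
(.nd (nat_lit 3) (.nd (nat_lit 4) (.nd (nat_lit 5) 
(.lf (nat_lit 110982) (.g (nat_lit 2121) (.e (nat_lit 5412) (nat_lit 303) (.e (nat_lit 73753) (nat_lit 8) (.e (nat_lit 557072) (nat_lit 9) (.e (nat_lit 290) (nat_lit 21) (.e (nat_lit 336163) (nat_lit 10) (.e (nat_lit 344115) (nat_lit 20) (.e (nat_lit 507906) (nat_lit 0) .nil))))))) (.g (nat_lit 7) .nil .nil))) 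
(.lf (nat_lit 111014) (.g (nat_lit 2745) (.e (nat_lit 5412) (nat_lit 303) (.e (nat_lit 73753) (nat_lit 8) (.e (nat_lit 557086) (nat_lit 11) (.e (nat_lit 24641) (nat_lit 10) (.e (nat_lit 344115) (nat_lit 20) (.e (nat_lit 507908) (nat_lit 0) .nil)))))) (.g (nat_lit 6) .nil .nil)))) (.nd (nat_lit 5) 
(.lf (nat_lit 110998) (.g (nat_lit 3004) (.e (nat_lit 5412) (nat_lit 303) (.e (nat_lit 73753) (nat_lit 8) (.e (nat_lit 557085) (nat_lit 11) (.e (nat_lit 24639) (nat_lit 10) (.e (nat_lit 344115) (nat_lit 20) (.e (nat_lit 507908) (nat_lit 0) .nil)))))) (.g (nat_lit 6) .nil .nil))) 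
(.lf (nat_lit 111030) (.g (nat_lit 1936) (.e (nat_lit 5412) (nat_lit 303) (.e (nat_lit 73753) (nat_lit 8) (.e (nat_lit 557119) (nat_lit 18) (.e (nat_lit 2798) (nat_lit 180) (.e (nat_lit 303133) (nat_lit 9) (.e (nat_lit 426018) (nat_lit 0) (.e (nat_lit 3570) (nat_lit 222) (.e (nat_lit 737283) (nat_lit 0) .nil)))))))) (.g (nat_lit 4) .nil .nil))))) (.nd (nat_lit 4) (.nd (nat_lit 5) 
(.lf (nat_lit 110990) (.g (nat_lit 1700) (.e (nat_lit 5412) (nat_lit 303) (.e (nat_lit 73753) (nat_lit 8) (.e (nat_lit 557072) (nat_lit 9) (.e (nat_lit 290) (nat_lit 21) (.e (nat_lit 336174) (nat_lit 10) (.e (nat_lit 344115) (nat_lit 20) (.e (nat_lit 507908) (nat_lit 0) .nil))))))) (.g (nat_lit 7) .nil .nil))) 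
(.lf (nat_lit 111022) (.g (nat_lit 1311) (.e (nat_lit 5412) (nat_lit 303) (.e (nat_lit 73753) (nat_lit 8) (.e (nat_lit 557091) (nat_lit 12) (.e (nat_lit 163843) (nat_lit 0) .nil)))) .nil))) (.nd (nat_lit 5) 
(.lf (nat_lit 111006) (.g (nat_lit 2622) (.e (nat_lit 5412) (nat_lit 303) (.e (nat_lit 73753) (nat_lit 8) (.e (nat_lit 557086) (nat_lit 11) (.e (nat_lit 24639) (nat_lit 10) (.e (nat_lit 344115) (nat_lit 20) (.e (nat_lit 507906) (nat_lit 0) .nil)))))) (.g (nat_lit 6) .nil .nil))) 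
(.lf (nat_lit 111038) (.g (nat_lit 2530) (.e (nat_lit 5412) (nat_lit 303) (.e (nat_lit 73755) (nat_lit 8) (.e (nat_lit 557087) (nat_lit 11) (.e (nat_lit 24639) (nat_lit 10) (.e (nat_lit 344115) (nat_lit 20) (.e (nat_lit 507906) (nat_lit 0) .nil)))))) (.g (nat_lit 6) .nil .nil)))))))) (.nd (nat_lit 1) (.nd (nat_lit 2) (.nd (nat_lit 3) (.nd (nat_lit 4) (.nd (nat_lit 5) 
(.lf (nat_lit 110977) (.g (nat_lit 2142) (.e (nat_lit 5412) (nat_lit 303) (.e (nat_lit 73753) (nat_lit 8) (.e (nat_lit 557068) (nat_lit 9) (.e (nat_lit 290) (nat_lit 21) (.e (nat_lit 336163) (nat_lit 10) (.e (nat_lit 344115) (nat_lit 20) (.e (nat_lit 507907) (nat_lit 0) .nil))))))) (.g (nat_lit 7) .nil .nil))) 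
(.lf (nat_lit 111009) (.g (nat_lit 3287) (.e (nat_lit 5412) (nat_lit 303) (.e (nat_lit 73753) (nat_lit 8) (.e (nat_lit 557086) (nat_lit 11) (.e (nat_lit 24640) (nat_lit 10) (.e (nat_lit 344115) (nat_lit 20) (.e (nat_lit 507906) (nat_lit 0) .nil)))))) (.g (nat_lit 6) .nil .nil)))) (.nd (nat_lit 5) 
(.lf (nat_lit 110993) (.g (nat_lit 1522) (.e (nat_lit 5412) (nat_lit 303) (.e (nat_lit 73753) (nat_lit 8) (.e (nat_lit 557074) (nat_lit 9) (.e (nat_lit 284) (nat_lit 21) .nil)))) .nil)) 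
(.lf (nat_lit 111025) (.g (nat_lit 2067) (.e (nat_lit 5412) (nat_lit 303) (.e (nat_lit 73753) (nat_lit 8) (.e (nat_lit 557119) (nat_lit 18) (.e (nat_lit 2798) (nat_lit 180) (.e (nat_lit 303133) (nat_lit 9) (.e (nat_lit 426007) (nat_lit 0) (.e (nat_lit 3571) (nat_lit 222) (.e (nat_lit 737283) (nat_lit 0) .nil)))))))) (.g (nat_lit 4) .nil .nil))))) (.nd (nat_lit 4) (.nd (nat_lit 5) 
(.lf (nat_lit 110985) (.g (nat_lit 1080) (.e (nat_lit 5412) (nat_lit 303) (.e (nat_lit 73753) (nat_lit 8) (.e (nat_lit 557072) (nat_lit 9) (.e (nat_lit 290) (nat_lit 21) (.e (nat_lit 336165) (nat_lit 10) (.e (nat_lit 344115) (nat_lit 20) (.e (nat_lit 507906) (nat_lit 0) .nil))))))) (.g (nat_lit 4) .nil .nil))) 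
(.lf (nat_lit 111017) (.g (nat_lit 955) (.e (nat_lit 5412) (nat_lit 303) (.e (nat_lit 73753) (nat_lit 8) (.e (nat_lit 557089) (nat_lit 12) (.e (nat_lit 163844) (nat_lit 0) .nil)))) .nil))) (.nd (nat_lit 5) 
(.lf (nat_lit 111001) (.g (nat_lit 3408) (.e (nat_lit 5412) (nat_lit 303) (.e (nat_lit 73753) (nat_lit 8) (.e (nat_lit 557085) (nat_lit 11) (.e (nat_lit 24640) (nat_lit 10) (.e (nat_lit 344115) (nat_lit 20) (.e (nat_lit 507908) (nat_lit 0) .nil)))))) (.g (nat_lit 6) .nil .nil))) 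
(.lf (nat_lit 111033) (.g (nat_lit 2833) (.e (nat_lit 5412) (nat_lit 303) (.e (nat_lit 73753) (nat_lit 8) (.e (nat_lit 557119) (nat_lit 18) (.e (nat_lit 2798) (nat_lit 180) (.e (nat_lit 303133) (nat_lit 9) (.e (nat_lit 426022) (nat_lit 0) (.e (nat_lit 3572) (nat_lit 222) (.e (nat_lit 737281) (nat_lit 0) .nil)))))))) (.g (nat_lit 5) .nil .nil)))))) 
(.nd (nat_lit 3) (.nd (nat_lit 4) (.nd (nat_lit 5) 
(.lf (nat_lit 110981) (.g (nat_lit 1187) (.e (nat_lit 5412) (nat_lit 303) (.e (nat_lit 73753) (nat_lit 8) (.e (nat_lit 557070) (nat_lit 9) (.e (nat_lit 333) (nat_lit 26) .nil)))) .nil)) 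
(.lf (nat_lit 111013) (.g (nat_lit 2746) (.e (nat_lit 5412) (nat_lit 303) (.e (nat_lit 73753) (nat_lit 8) (.e (nat_lit 557086) (nat_lit 11) (.e (nat_lit 24641) (nat_lit 10) (.e (nat_lit 344115) (nat_lit 20) (.e (nat_lit 507907) (nat_lit 0) .nil)))))) (.g (nat_lit 6) .nil .nil)))) (.nd (nat_lit 5) 
(.lf (nat_lit 110997) (.g (nat_lit 2972) (.e (nat_lit 5412) (nat_lit 303) (.e (nat_lit 73753) (nat_lit 8) (.e (nat_lit 557085) (nat_lit 11) (.e (nat_lit 24639) (nat_lit 10) (.e (nat_lit 344115) (nat_lit 20) (.e (nat_lit 507907) (nat_lit 0) .nil)))))) (.g (nat_lit 6) .nil .nil))) 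
(.lf (nat_lit 111029) (.g (nat_lit 2627) (.e (nat_lit 5412) (nat_lit 303) (.e (nat_lit 73753) (nat_lit 8) (.e (nat_lit 557119) (nat_lit 18) (.e (nat_lit 2798) (nat_lit 180) (.e (nat_lit 303133) (nat_lit 9) (.e (nat_lit 426007) (nat_lit 0) (.e (nat_lit 3572) (nat_lit 222) (.e (nat_lit 737284) (nat_lit 0) .nil)))))))) (.g (nat_lit 5) .nil .nil))))) (.nd (nat_lit 4) (.nd (nat_lit 5) 
(.lf (nat_lit 110989) (.g (nat_lit 1639) (.e (nat_lit 5412) (nat_lit 303) (.e (nat_lit 73753) (nat_lit 8) (.e (nat_lit 557072) (nat_lit 9) (.e (nat_lit 290) (nat_lit 21) (.e (nat_lit 336174) (nat_lit 10) (.e (nat_lit 344115) (nat_lit 20) (.e (nat_lit 507907) (nat_lit 0) .nil))))))) (.g (nat_lit 7) .nil .nil))) 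
(.lf (nat_lit 111021) (.g (nat_lit 359) (.e (nat_lit 5412) (nat_lit 303) (.e (nat_lit 73753) (nat_lit 8) (.e (nat_lit 557091) (nat_lit 12) .nil))) .nil))) (.nd (nat_lit 5) 
(.lf (nat_lit 111005) (.g (nat_lit 364) (.e (nat_lit 5412) (nat_lit 303) (.e (nat_lit 73753) (nat_lit 8) (.e (nat_lit 557086) (nat_lit 11) .nil))) .nil)) 
(.lf (nat_lit 111037) (.g (nat_lit 1350) (.e (nat_lit 5412) (nat_lit 303) (.e (nat_lit 73755) (nat_lit 8) (.e (nat_lit 557065) (nat_lit 9) (.e (nat_lit 324) (nat_lit 24) .nil)))) .nil)))))) (.nd (nat_lit 2) (.nd (nat_lit 3) (.nd (nat_lit 4) (.nd (nat_lit 5) 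
(.lf (nat_lit 110979) (.g (nat_lit 1230) (.e (nat_lit 5412) (nat_lit 303) (.e (nat_lit 73753) (nat_lit 8) (.e (nat_lit 557070) (nat_lit 9) (.e (nat_lit 267) (nat_lit 21) .nil)))) .nil)) 
(.lf (nat_lit 111011) (.g (nat_lit 3259) (.e (nat_lit 5412) (nat_lit 303) (.e (nat_lit 73753) (nat_lit 8) (.e (nat_lit 557086) (nat_lit 11) (.e (nat_lit 24640) (nat_lit 10) (.e (nat_lit 344115) (nat_lit 20) (.e (nat_lit 507908) (nat_lit 0) .nil)))))) (.g (nat_lit 6) .nil .nil)))) (.nd (nat_lit 5) 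
(.lf (nat_lit 110995) (.g (nat_lit 1296) (.e (nat_lit 5412) (nat_lit 303) (.e (nat_lit 73753) (nat_lit 8) (.e (nat_lit 557074) (nat_lit 9) (.e (nat_lit 7936) (nat_lit 24) .nil)))) .nil)) 
(.lf (nat_lit 111027) (.g (nat_lit 1889) (.e (nat_lit 5412) (nat_lit 303) (.e (nat_lit 73753) (nat_lit 8) (.e (nat_lit 557119) (nat_lit 18) (.e (nat_lit 2798) (nat_lit 180) (.e (nat_lit 303133) (nat_lit 9) (.e (nat_lit 426007) (nat_lit 0) (.e (nat_lit 3572) (nat_lit 222) (.e (nat_lit 737281) (nat_lit 0) .nil)))))))) (.g (nat_lit 4) .nil .nil))))) (.nd (nat_lit 4) (.nd (nat_lit 5) 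
(.lf (nat_lit 110987) (.g (nat_lit 1008) (.e (nat_lit 5412) (nat_lit 303) (.e (nat_lit 73753) (nat_lit 8) (.e (nat_lit 557072) (nat_lit 9) (.e (nat_lit 290) (nat_lit 21) (.e (nat_lit 336165) (nat_lit 10) (.e (nat_lit 344115) (nat_lit 20) (.e (nat_lit 507908) (nat_lit 0) .nil))))))) (.g (nat_lit 4) .nil .nil))) 
(.lf (nat_lit 111019) (.g (nat_lit 2405) (.e (nat_lit 5412) (nat_lit 303) (.e (nat_lit 73753) (nat_lit 8) (.e (nat_lit 557090) (nat_lit 12) (.e (nat_lit 163843) (nat_lit 0) .nil)))) .nil))) (.nd (nat_lit 5) 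
(.lf (nat_lit 111003) (.g (nat_lit 3136) (.e (nat_lit 5412) (nat_lit 303) (.e (nat_lit 73753) (nat_lit 8) (.e (nat_lit 557085) (nat_lit 11) (.e (nat_lit 24641) (nat_lit 10) (.e (nat_lit 344115) (nat_lit 20) (.e (nat_lit 507907) (nat_lit 0) .nil)))))) (.g (nat_lit 6) .nil .nil))) 
(.lf (nat_lit 111035) (.g (nat_lit 3084) (.e (nat_lit 5412) (nat_lit 303) (.e (nat_lit 73753) (nat_lit 8) (.e (nat_lit 557119) (nat_lit 18) (.e (nat_lit 2798) (nat_lit 180) (.e (nat_lit 303133) (nat_lit 9) (.e (nat_lit 426023) (nat_lit 0) (.e (nat_lit 3571) (nat_lit 222) (.e (nat_lit 737284) (nat_lit 0) .nil)))))))) (.g (nat_lit 6) .nil .nil)))))) 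
(.nd (nat_lit 3) (.nd (nat_lit 4) (.nd (nat_lit 5) 
(.lf (nat_lit 110983) (.g (nat_lit 1988) (.e (nat_lit 5412) (nat_lit 303) (.e (nat_lit 73753) (nat_lit 8) (.e (nat_lit 557072) (nat_lit 9) (.e (nat_lit 290) (nat_lit 21) (.e (nat_lit 336163) (nat_lit 10) (.e (nat_lit 344115) (nat_lit 20) (.e (nat_lit 507907) (nat_lit 0) .nil))))))) (.g (nat_lit 7) .nil .nil))) 
(.lf (nat_lit 111015) (.g (nat_lit 3260) (.e (nat_lit 5412) (nat_lit 303) (.e (nat_lit 73753) (nat_lit 8) (.e (nat_lit 557087) (nat_lit 11) (.e (nat_lit 24640) (nat_lit 10) (.e (nat_lit 344115) (nat_lit 20) (.e (nat_lit 507907) (nat_lit 0) .nil)))))) (.g (nat_lit 0) .nil .nil)))) (.nd (nat_lit 5) 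
(.lf (nat_lit 110999) (.g (nat_lit 3456) (.e (nat_lit 5412) (nat_lit 303) (.e (nat_lit 73753) (nat_lit 8) (.e (nat_lit 557085) (nat_lit 11) (.e (nat_lit 24640) (nat_lit 10) (.e (nat_lit 344115) (nat_lit 20) (.e (nat_lit 507906) (nat_lit 0) .nil)))))) (.g (nat_lit 6) .nil .nil))) 
(.lf (nat_lit 111031) (.g (nat_lit 2943) (.e (nat_lit 5412) (nat_lit 303) (.e (nat_lit 73753) (nat_lit 8) (.e (nat_lit 557119) (nat_lit 18) (.e (nat_lit 2798) (nat_lit 180) (.e (nat_lit 303133) (nat_lit 9) (.e (nat_lit 426022) (nat_lit 0) (.e (nat_lit 3569) (nat_lit 222) (.e (nat_lit 737283) (nat_lit 0) .nil)))))))) (.g (nat_lit 5) .nil .nil))))) (.nd (nat_lit 4) (.nd (nat_lit 5) 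
(.lf (nat_lit 110991) (.g (nat_lit 1507) (.e (nat_lit 5412) (nat_lit 303) (.e (nat_lit 73753) (nat_lit 8) (.e (nat_lit 557073) (nat_lit 9) (.e (nat_lit 290) (nat_lit 21) (.e (nat_lit 336174) (nat_lit 10) (.e (nat_lit 344115) (nat_lit 20) (.e (nat_lit 507906) (nat_lit 0) .nil))))))) (.g (nat_lit 7) .nil .nil))) 
(.lf (nat_lit 111023) (.g (nat_lit 1759) (.e (nat_lit 5412) (nat_lit 303) (.e (nat_lit 73753) (nat_lit 8) (.e (nat_lit 557119) (nat_lit 18) (.e (nat_lit 2798) (nat_lit 180) (.e (nat_lit 303133) (nat_lit 9) .nil))))) .nil))) (.nd (nat_lit 5) 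
(.lf (nat_lit 111007) (.g (nat_lit 2477) (.e (nat_lit 5412) (nat_lit 303) (.e (nat_lit 73753) (nat_lit 8) (.e (nat_lit 557086) (nat_lit 11) (.e (nat_lit 24639) (nat_lit 10) (.e (nat_lit 344115) (nat_lit 20) (.e (nat_lit 507907) (nat_lit 0) .nil)))))) (.g (nat_lit 6) .nil .nil))) 
(.lf (nat_lit 111039) (.g (nat_lit 2301) (.e (nat_lit 5412) (nat_lit 303) (.e (nat_lit 73755) (nat_lit 8) (.e (nat_lit 557087) (nat_lit 11) (.e (nat_lit 24639) (nat_lit 10) (.e (nat_lit 344115) (nat_lit 20) (.e (nat_lit 507907) (nat_lit 0) .nil)))))) (.g (nat_lit 5) .nil .nil)))))))))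

noncomputable def tv1499 : DT := (.nd (nat_lit 0) (.nd (nat_lit 1) (.nd (nat_lit 2) (.nd (nat_lit 3) (.nd (nat_lit 4) (.nd (nat_lit 5) 
(.lf (nat_lit 111040) (.g (nat_lit 2287) (.e (nat_lit 5412) (nat_lit 303) (.e (nat_lit 73755) (nat_lit 8) (.e (nat_lit 557087) (nat_lit 11) (.e (nat_lit 24639) (nat_lit 10) (.e (nat_lit 344115) (nat_lit 20) (.e (nat_lit 507908) (nat_lit 0) .nil)))))) (.g (nat_lit 5) .nil .nil))) 
(.lf (nat_lit 111072) (.g (nat_lit 2094) (.e (nat_lit 5412) (nat_lit 303) (.e (nat_lit 73775) (nat_lit 26) (.e (nat_lit 778465) (nat_lit 11) (.e (nat_lit 24623) (nat_lit 9) (.e (nat_lit 336362) (nat_lit 26) .nil))))) .nil))) (.nd (nat_lit 5) 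
(.lf (nat_lit 111056) (.g (nat_lit 1109) (.e (nat_lit 5412) (nat_lit 303) (.e (nat_lit 73773) (nat_lit 25) (.e (nat_lit 770058) (nat_lit 5) (.e (nat_lit 1559) (nat_lit 110) (.e (nat_lit 352272) (nat_lit 10) (.e (nat_lit 417794) (nat_lit 0) .nil)))))) (.g (nat_lit 6) .nil .nil))) 
(.lf (nat_lit 111088) (.g (nat_lit 1386) (.e (nat_lit 5412) (nat_lit 303) (.e (nat_lit 73775) (nat_lit 26) (.e (nat_lit 778466) (nat_lit 11) (.e (nat_lit 24638) (nat_lit 9) .nil)))) .nil)))) (.nd (nat_lit 4) (.nd (nat_lit 5) 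
(.lf (nat_lit 111048) (.g (nat_lit 1236) (.e (nat_lit 5412) (nat_lit 303) (.e (nat_lit 73772) (nat_lit 24) (.e (nat_lit 761866) (nat_lit 5) (.e (nat_lit 1555) (nat_lit 110) (.e (nat_lit 352272) (nat_lit 10) (.e (nat_lit 417794) (nat_lit 0) .nil)))))) (.g (nat_lit 6) .nil .nil))) 
(.lf (nat_lit 111080) (.g (nat_lit 2172) (.e (nat_lit 5412) (nat_lit 303) (.e (nat_lit 73775) (nat_lit 26) (.e (nat_lit 778465) (nat_lit 11) (.e (nat_lit 24665) (nat_lit 14) (.e (nat_lit 409344) (nat_lit 26) (.e (nat_lit 327703) (nat_lit 10) .nil)))))) (.g (nat_lit 4) .nil .nil)))) (.nd (nat_lit 5) 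
(.lf (nat_lit 111064) (.g (nat_lit 1995) (.e (nat_lit 5412) (nat_lit 303) (.e (nat_lit 73775) (nat_lit 26) (.e (nat_lit 778362) (nat_lit 9) (.e (nat_lit 309) (nat_lit 23) (.e (nat_lit 352272) (nat_lit 10) (.e (nat_lit 417794) (nat_lit 0) .nil)))))) (.g (nat_lit 5) .nil .nil))) 
(.lf (nat_lit 111096) (.g (nat_lit 1383) (.e (nat_lit 5413) (nat_lit 303) (.e (nat_lit 73730) (nat_lit 0) (.e (nat_lit 7125) (nat_lit 382) (.e (nat_lit 1224) (nat_lit 90) (.e (nat_lit 89856) (nat_lit 10) .nil))))) .nil))))) (.nd (nat_lit 3) (.nd (nat_lit 4) (.nd (nat_lit 5) 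
(.lf (nat_lit 111044) (.g (nat_lit 1183) (.e (nat_lit 5412) (nat_lit 303) (.e (nat_lit 73764) (nat_lit 18) (.e (nat_lit 638998) (nat_lit 8) (.e (nat_lit 172079) (nat_lit 7) (.e (nat_lit 409638) (nat_lit 15) .nil))))) .nil)) 
(.lf (nat_lit 111076) (.g (nat_lit 2188) (.e (nat_lit 5412) (nat_lit 303) (.e (nat_lit 73775) (nat_lit 26) (.e (nat_lit 778465) (nat_lit 11) (.e (nat_lit 24623) (nat_lit 9) (.e (nat_lit 336364) (nat_lit 26) (.e (nat_lit 417795) (nat_lit 0) .nil)))))) (.g (nat_lit 4) .nil .nil)))) (.nd (nat_lit 5) 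
(.lf (nat_lit 111060) (.g (nat_lit 1094) (.e (nat_lit 5412) (nat_lit 303) (.e (nat_lit 73775) (nat_lit 26) (.e (nat_lit 778361) (nat_lit 9) (.e (nat_lit 310) (nat_lit 23) .nil)))) .nil)) 
(.lf (nat_lit 111092) (.g (nat_lit 1886) (.e (nat_lit 5413) (nat_lit 303) (.e (nat_lit 73729) (nat_lit 0) (.e (nat_lit 7125) (nat_lit 382) (.e (nat_lit 1222) (nat_lit 90) (.e (nat_lit 89856) (nat_lit 10) .nil))))) .nil)))) (.nd (nat_lit 4) (.nd (nat_lit 5) 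
(.lf (nat_lit 111052) (.g (nat_lit 1410) (.e (nat_lit 5412) (nat_lit 303) (.e (nat_lit 73772) (nat_lit 24) (.e (nat_lit 761868) (nat_lit 5) (.e (nat_lit 1574) (nat_lit 110) (.e (nat_lit 352272) (nat_lit 10) (.e (nat_lit 417796) (nat_lit 0) .nil)))))) (.g (nat_lit 0) .nil .nil))) 
(.lf (nat_lit 111084) (.g (nat_lit 1743) (.e (nat_lit 5412) (nat_lit 303) (.e (nat_lit 73775) (nat_lit 26) (.e (nat_lit 778466) (nat_lit 11) (.e (nat_lit 24631) (nat_lit 9) (.e (nat_lit 336363) (nat_lit 26) (.e (nat_lit 417796) (nat_lit 0) .nil)))))) (.g (nat_lit 4) .nil .nil)))) (.nd (nat_lit 5) 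
(.lf (nat_lit 111068) (.g (nat_lit 2131) (.e (nat_lit 5412) (nat_lit 303) (.e (nat_lit 73775) (nat_lit 26) (.e (nat_lit 778362) (nat_lit 9) (.e (nat_lit 314) (nat_lit 23) (.e (nat_lit 360192) (nat_lit 10) (.e (nat_lit 417794) (nat_lit 0) .nil)))))) (.g (nat_lit 4) .nil .nil))) 
(.lf (nat_lit 111100) (.g (nat_lit 1218) (.e (nat_lit 5413) (nat_lit 303) (.e (nat_lit 73732) (nat_lit 0) (.e (nat_lit 7147) (nat_lit 382) (.e (nat_lit 1217) (nat_lit 90) (.e (nat_lit 89856) (nat_lit 10) .nil))))) .nil)))))) (.nd (nat_lit 2) (.nd (nat_lit 3) (.nd (nat_lit 4) (.nd (nat_lit 5) 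
(.lf (nat_lit 111042) (.g (nat_lit 2587) (.e (nat_lit 5412) (nat_lit 303) (.e (nat_lit 73755) (nat_lit 8) (.e (nat_lit 557087) (nat_lit 11) (.e (nat_lit 24641) (nat_lit 10) (.e (nat_lit 344115) (nat_lit 20) .nil))))) .nil)) 
(.lf (nat_lit 111074) (.g (nat_lit 2260) (.e (nat_lit 5412) (nat_lit 303) (.e (nat_lit 73775) (nat_lit 26) (.e (nat_lit 778465) (nat_lit 11) (.e (nat_lit 24623) (nat_lit 9) (.e (nat_lit 336363) (nat_lit 26) (.e (nat_lit 417795) (nat_lit 0) .nil)))))) (.g (nat_lit 4) .nil .nil)))) (.nd (nat_lit 5) 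
(.lf (nat_lit 111058) (.g (nat_lit 956) (.e (nat_lit 5412) (nat_lit 303) (.e (nat_lit 73773) (nat_lit 25) (.e (nat_lit 770058) (nat_lit 5) (.e (nat_lit 1572) (nat_lit 110) (.e (nat_lit 352272) (nat_lit 10) .nil))))) .nil)) 
(.lf (nat_lit 111090) (.g (nat_lit 1758) (.e (nat_lit 5412) (nat_lit 303) (.e (nat_lit 73775) (nat_lit 26) (.e (nat_lit 778466) (nat_lit 11) (.e (nat_lit 24649) (nat_lit 12) .nil)))) .nil)))) (.nd (nat_lit 4) (.nd (nat_lit 5) 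
(.lf (nat_lit 111050) (.g (nat_lit 1100) (.e (nat_lit 5412) (nat_lit 303) (.e (nat_lit 73772) (nat_lit 24) (.e (nat_lit 761868) (nat_lit 5) (.e (nat_lit 1555) (nat_lit 110) (.e (nat_lit 352272) (nat_lit 10) (.e (nat_lit 417794) (nat_lit 0) .nil)))))) (.g (nat_lit 6) .nil .nil))) 
(.lf (nat_lit 111082) (.g (nat_lit 2401) (.e (nat_lit 5412) (nat_lit 303) (.e (nat_lit 73775) (nat_lit 26) (.e (nat_lit 778466) (nat_lit 11) (.e (nat_lit 24628) (nat_lit 9) (.e (nat_lit 336362) (nat_lit 26) .nil))))) .nil))) (.nd (nat_lit 5) 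
(.lf (nat_lit 111066) (.g (nat_lit 2812) (.e (nat_lit 5412) (nat_lit 303) (.e (nat_lit 73775) (nat_lit 26) (.e (nat_lit 778362) (nat_lit 9) (.e (nat_lit 312) (nat_lit 23) (.e (nat_lit 352272) (nat_lit 10) (.e (nat_lit 417795) (nat_lit 0) .nil)))))) (.g (nat_lit 0) .nil .nil))) 
(.lf (nat_lit 111098) (.g (nat_lit 1982) (.e (nat_lit 5413) (nat_lit 303) (.e (nat_lit 73731) (nat_lit 0) (.e (nat_lit 7266) (nat_lit 384) (.e (nat_lit 57424) (nat_lit 14) (.e (nat_lit 352272) (nat_lit 10) (.e (nat_lit 417795) (nat_lit 0) .nil)))))) (.g (nat_lit 6) .nil .nil)))))) (.nd (nat_lit 3) (.nd (nat_lit 4) (.nd (nat_lit 5) 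
(.lf (nat_lit 111046) (.g (nat_lit 956) (.e (nat_lit 5412) (nat_lit 303) (.e (nat_lit 73764) (nat_lit 18) (.e (nat_lit 638998) (nat_lit 8) (.e (nat_lit 172081) (nat_lit 7) (.e (nat_lit 409639) (nat_lit 15) (.e (nat_lit 278552) (nat_lit 10) .nil)))))) (.g (nat_lit 4) .nil .nil))) 
(.lf (nat_lit 111078) (.g (nat_lit 1630) (.e (nat_lit 5412) (nat_lit 303) (.e (nat_lit 73775) (nat_lit 26) (.e (nat_lit 778465) (nat_lit 11) (.e (nat_lit 24631) (nat_lit 9) (.e (nat_lit 336363) (nat_lit 26) (.e (nat_lit 417794) (nat_lit 0) .nil)))))) (.g (nat_lit 4) .nil .nil)))) (.nd (nat_lit 5) 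
(.lf (nat_lit 111062) (.g (nat_lit 1584) (.e (nat_lit 5412) (nat_lit 303) (.e (nat_lit 73775) (nat_lit 26) (.e (nat_lit 778361) (nat_lit 9) (.e (nat_lit 334) (nat_lit 26) (.e (nat_lit 384768) (nat_lit 10) .nil))))) .nil)) 
(.lf (nat_lit 111094) (.g (nat_lit 1792) (.e (nat_lit 5413) (nat_lit 303) (.e (nat_lit 73729) (nat_lit 0) (.e (nat_lit 7266) (nat_lit 384) (.e (nat_lit 57423) (nat_lit 14) (.e (nat_lit 352272) (nat_lit 10) (.e (nat_lit 417795) (nat_lit 0) .nil)))))) (.g (nat_lit 4) .nil .nil))))) (.nd (nat_lit 4) (.nd (nat_lit 5) 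
(.lf (nat_lit 111054) (.g (nat_lit 669) (.e (nat_lit 5412) (nat_lit 303) (.e (nat_lit 73773) (nat_lit 25) (.e (nat_lit 770055) (nat_lit 5) (.e (nat_lit 1553) (nat_lit 110) (.e (nat_lit 352272) (nat_lit 10) .nil))))) .nil)) 
(.lf (nat_lit 111086) (.g (nat_lit 2395) (.e (nat_lit 5412) (nat_lit 303) (.e (nat_lit 73775) (nat_lit 26) (.e (nat_lit 778466) (nat_lit 11) (.e (nat_lit 24632) (nat_lit 9) (.e (nat_lit 336363) (nat_lit 26) (.e (nat_lit 417796) (nat_lit 0) .nil)))))) (.g (nat_lit 6) .nil .nil)))) (.nd (nat_lit 5) 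
(.lf (nat_lit 111070) (.g (nat_lit 1810) (.e (nat_lit 5412) (nat_lit 303) (.e (nat_lit 73775) (nat_lit 26) (.e (nat_lit 778464) (nat_lit 11) (.e (nat_lit 24665) (nat_lit 14) (.e (nat_lit 409344) (nat_lit 26) (.e (nat_lit 327703) (nat_lit 10) .nil)))))) (.g (nat_lit 4) .nil .nil))) 
(.lf (nat_lit 111102) (.g (nat_lit 928) (.e (nat_lit 5413) (nat_lit 303) (.e (nat_lit 73732) (nat_lit 0) (.e (nat_lit 7273) (nat_lit 385) (.e (nat_lit 122916) (nat_lit 14) (.e (nat_lit 352272) (nat_lit 10) .nil))))) .nil))))))) (.nd (nat_lit 1) (.nd (nat_lit 2) (.nd (nat_lit 3) (.nd (nat_lit 4) (.nd (nat_lit 5) 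
(.lf (nat_lit 111041) (.g (nat_lit 2682) (.e (nat_lit 5412) (nat_lit 303) (.e (nat_lit 73755) (nat_lit 8) (.e (nat_lit 557087) (nat_lit 11) (.e (nat_lit 24640) (nat_lit 10) (.e (nat_lit 344115) (nat_lit 20) (.e (nat_lit 507908) (nat_lit 0) .nil)))))) (.g (nat_lit 6) .nil .nil))) 
(.lf (nat_lit 111073) (.g (nat_lit 2094) (.e (nat_lit 5412) (nat_lit 303) (.e (nat_lit 73775) (nat_lit 26) (.e (nat_lit 778465) (nat_lit 11) (.e (nat_lit 24623) (nat_lit 9) (.e (nat_lit 336363) (nat_lit 26) .nil))))) .nil))) (.nd (nat_lit 5) 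
(.lf (nat_lit 111057) (.g (nat_lit 1519) (.e (nat_lit 5412) (nat_lit 303) (.e (nat_lit 73773) (nat_lit 25) (.e (nat_lit 770058) (nat_lit 5) (.e (nat_lit 1562) (nat_lit 110) (.e (nat_lit 352272) (nat_lit 10) (.e (nat_lit 417795) (nat_lit 0) .nil)))))) (.g (nat_lit 0) .nil .nil))) 
(.lf (nat_lit 111089) (.g (nat_lit 2280) (.e (nat_lit 5412) (nat_lit 303) (.e (nat_lit 73775) (nat_lit 26) (.e (nat_lit 778466) (nat_lit 11) (.e (nat_lit 24648) (nat_lit 12) (.e (nat_lit 385038) (nat_lit 16) (.e (nat_lit 1011) (nat_lit 81) .nil)))))) (.g (nat_lit 4) .nil .nil))))) (.nd (nat_lit 4) (.nd (nat_lit 5) 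
(.lf (nat_lit 111049) (.g (nat_lit 1530) (.e (nat_lit 5412) (nat_lit 303) (.e (nat_lit 73772) (nat_lit 24) (.e (nat_lit 761866) (nat_lit 5) (.e (nat_lit 1574) (nat_lit 110) (.e (nat_lit 352272) (nat_lit 10) (.e (nat_lit 417796) (nat_lit 0) .nil)))))) (.g (nat_lit 0) .nil .nil))) 
(.lf (nat_lit 111081) (.g (nat_lit 321) (.e (nat_lit 5412) (nat_lit 303) (.e (nat_lit 73775) (nat_lit 26) (.e (nat_lit 778466) (nat_lit 11) .nil))) .nil))) (.nd (nat_lit 5) 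
(.lf (nat_lit 111065) (.g (nat_lit 1698) (.e (nat_lit 5412) (nat_lit 303) (.e (nat_lit 73775) (nat_lit 26) (.e (nat_lit 778362) (nat_lit 9) (.e (nat_lit 312) (nat_lit 23) (.e (nat_lit 352271) (nat_lit 9) .nil))))) .nil)) 
(.lf (nat_lit 111097) (.g (nat_lit 1912) (.e (nat_lit 5413) (nat_lit 303) (.e (nat_lit 73731) (nat_lit 0) (.e (nat_lit 7266) (nat_lit 384) (.e (nat_lit 57423) (nat_lit 14) (.e (nat_lit 352272) (nat_lit 10) (.e (nat_lit 417795) (nat_lit 0) .nil)))))) (.g (nat_lit 0) .nil .nil)))))) (.nd (nat_lit 3) (.nd (nat_lit 4) (.nd (nat_lit 5) 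
(.lf (nat_lit 111045) (.g (nat_lit 1433) (.e (nat_lit 5412) (nat_lit 303) (.e (nat_lit 73764) (nat_lit 18) (.e (nat_lit 638998) (nat_lit 8) (.e (nat_lit 172079) (nat_lit 7) (.e (nat_lit 409639) (nat_lit 15) (.e (nat_lit 278552) (nat_lit 10) .nil)))))) (.g (nat_lit 5) .nil .nil))) 
(.lf (nat_lit 111077) (.g (nat_lit 1646) (.e (nat_lit 5412) (nat_lit 303) (.e (nat_lit 73775) (nat_lit 26) (.e (nat_lit 778465) (nat_lit 11) (.e (nat_lit 24631) (nat_lit 9) (.e (nat_lit 336363) (nat_lit 26) (.e (nat_lit 417793) (nat_lit 0) .nil)))))) (.g (nat_lit 4) .nil .nil)))) (.nd (nat_lit 5) 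
(.lf (nat_lit 111061) (.g (nat_lit 1659) (.e (nat_lit 5412) (nat_lit 303) (.e (nat_lit 73775) (nat_lit 26) (.e (nat_lit 778361) (nat_lit 9) (.e (nat_lit 314) (nat_lit 23) (.e (nat_lit 360192) (nat_lit 10) .nil))))) .nil)) 
(.lf (nat_lit 111093) (.g (nat_lit 1923) (.e (nat_lit 5413) (nat_lit 303) (.e (nat_lit 73729) (nat_lit 0) (.e (nat_lit 7125) (nat_lit 382) (.e (nat_lit 1224) (nat_lit 90) (.e (nat_lit 89856) (nat_lit 10) .nil))))) .nil)))) (.nd (nat_lit 4) (.nd (nat_lit 5) 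
(.lf (nat_lit 111053) (.g (nat_lit 468) (.e (nat_lit 5412) (nat_lit 303) (.e (nat_lit 73772) (nat_lit 24) (.e (nat_lit 761869) (nat_lit 5) (.e (nat_lit 1558) (nat_lit 110) .nil)))) .nil)) 
(.lf (nat_lit 111085) (.g (nat_lit 2154) (.e (nat_lit 5412) (nat_lit 303) (.e (nat_lit 73775) (nat_lit 26) (.e (nat_lit 778466) (nat_lit 11) (.e (nat_lit 24632) (nat_lit 9) (.e (nat_lit 336363) (nat_lit 26) (.e (nat_lit 417794) (nat_lit 0) .nil)))))) (.g (nat_lit 6) .nil .nil)))) (.nd (nat_lit 5) 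
(.lf (nat_lit 111069) (.g (nat_lit 1632) (.e (nat_lit 5412) (nat_lit 303) (.e (nat_lit 73775) (nat_lit 26) (.e (nat_lit 778362) (nat_lit 9) (.e (nat_lit 334) (nat_lit 26) (.e (nat_lit 384768) (nat_lit 10) .nil))))) .nil)) 
(.lf (nat_lit 111101) (.g (nat_lit 831) (.e (nat_lit 5413) (nat_lit 303) (.e (nat_lit 73732) (nat_lit 0) (.e (nat_lit 7273) (nat_lit 385) (.e (nat_lit 122914) (nat_lit 14) (.e (nat_lit 352272) (nat_lit 10) .nil))))) .nil)))))) (.nd (nat_lit 2) (.nd (nat_lit 3) (.nd (nat_lit 4) (.nd (nat_lit 5) 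
(.lf (nat_lit 111043) (.g (nat_lit 2699) (.e (nat_lit 5412) (nat_lit 303) (.e (nat_lit 73755) (nat_lit 8) (.e (nat_lit 557087) (nat_lit 11) (.e (nat_lit 24641) (nat_lit 10) (.e (nat_lit 344115) (nat_lit 20) (.e (nat_lit 507906) (nat_lit 0) .nil)))))) (.g (nat_lit 4) .nil .nil))) 
(.lf (nat_lit 111075) (.g (nat_lit 2094) (.e (nat_lit 5412) (nat_lit 303) (.e (nat_lit 73775) (nat_lit 26) (.e (nat_lit 778465) (nat_lit 11) (.e (nat_lit 24623) (nat_lit 9) (.e (nat_lit 336364) (nat_lit 26) .nil))))) .nil))) (.nd (nat_lit 5) 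
(.lf (nat_lit 111059) (.g (nat_lit 697) (.e (nat_lit 5412) (nat_lit 303) (.e (nat_lit 73775) (nat_lit 26) (.e (nat_lit 778360) (nat_lit 9) (.e (nat_lit 310) (nat_lit 23) (.e (nat_lit 352272) (nat_lit 10) .nil))))) .nil)) 
(.lf (nat_lit 111091) (.g (nat_lit 1790) (.e (nat_lit 5412) (nat_lit 303) (.e (nat_lit 73775) (nat_lit 26) (.e (nat_lit 778466) (nat_lit 11) (.e (nat_lit 24662) (nat_lit 14) .nil)))) .nil)))) (.nd (nat_lit 4) (.nd (nat_lit 5) 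
(.lf (nat_lit 111051) (.g (nat_lit 1474) (.e (nat_lit 5412) (nat_lit 303) (.e (nat_lit 73772) (nat_lit 24) (.e (nat_lit 761868) (nat_lit 5) (.e (nat_lit 1574) (nat_lit 110) (.e (nat_lit 352272) (nat_lit 10) (.e (nat_lit 417795) (nat_lit 0) .nil)))))) (.g (nat_lit 0) .nil .nil))) 
(.lf (nat_lit 111083) (.g (nat_lit 1611) (.e (nat_lit 5412) (nat_lit 303) (.e (nat_lit 73775) (nat_lit 26) (.e (nat_lit 778466) (nat_lit 11) (.e (nat_lit 24631) (nat_lit 9) (.e (nat_lit 336363) (nat_lit 26) .nil))))) .nil))) (.nd (nat_lit 5) 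
(.lf (nat_lit 111067) (.g (nat_lit 1928) (.e (nat_lit 5412) (nat_lit 303) (.e (nat_lit 73775) (nat_lit 26) (.e (nat_lit 778362) (nat_lit 9) (.e (nat_lit 314) (nat_lit 23) (.e (nat_lit 360192) (nat_lit 10) .nil))))) .nil)) 
(.lf (nat_lit 111099) (.g (nat_lit 742) (.e (nat_lit 5413) (nat_lit 303) (.e (nat_lit 73732) (nat_lit 0) (.e (nat_lit 7147) (nat_lit 382) (.e (nat_lit 1216) (nat_lit 90) .nil)))) .nil))))) (.nd (nat_lit 3) (.nd (nat_lit 4) (.nd (nat_lit 5) 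
(.lf (nat_lit 111047) (.g (nat_lit 2001) (.e (nat_lit 5412) (nat_lit 303) (.e (nat_lit 73766) (nat_lit 19) (.e (nat_lit 647199) (nat_lit 11) (.e (nat_lit 16425) (nat_lit 7) (.e (nat_lit 409638) (nat_lit 15) (.e (nat_lit 278550) (nat_lit 10) .nil)))))) (.g (nat_lit 6) .nil .nil))) 
(.lf (nat_lit 111079) (.g (nat_lit 2053) (.e (nat_lit 5412) (nat_lit 303) (.e (nat_lit 73775) (nat_lit 26) (.e (nat_lit 778465) (nat_lit 11) (.e (nat_lit 24665) (nat_lit 14) (.e (nat_lit 409344) (nat_lit 25) .nil))))) .nil))) (.nd (nat_lit 5) 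
(.lf (nat_lit 111063) (.g (nat_lit 1987) (.e (nat_lit 5412) (nat_lit 303) (.e (nat_lit 73775) (nat_lit 26) (.e (nat_lit 778362) (nat_lit 9) (.e (nat_lit 309) (nat_lit 23) (.e (nat_lit 352272) (nat_lit 10) (.e (nat_lit 417793) (nat_lit 0) .nil)))))) (.g (nat_lit 5) .nil .nil))) 
(.lf (nat_lit 111095) (.g (nat_lit 1391) (.e (nat_lit 5413) (nat_lit 303) (.e (nat_lit 73730) (nat_lit 0) (.e (nat_lit 7122) (nat_lit 382) (.e (nat_lit 1222) (nat_lit 90) (.e (nat_lit 89856) (nat_lit 10) .nil))))) .nil)))) (.nd (nat_lit 4) (.nd (nat_lit 5) 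
(.lf (nat_lit 111055) (.g (nat_lit 562) (.e (nat_lit 5412) (nat_lit 303) (.e (nat_lit 73773) (nat_lit 25) (.e (nat_lit 770055) (nat_lit 5) (.e (nat_lit 1569) (nat_lit 110) (.e (nat_lit 352272) (nat_lit 10) .nil))))) .nil)) 
(.lf (nat_lit 111087) (.g (nat_lit 1433) (.e (nat_lit 5412) (nat_lit 303) (.e (nat_lit 73775) (nat_lit 26) (.e (nat_lit 778466) (nat_lit 11) (.e (nat_lit 24636) (nat_lit 9) (.e (nat_lit 336361) (nat_lit 26) .nil))))) .nil))) (.nd (nat_lit 5) 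
(.lf (nat_lit 111071) (.g (nat_lit 317) (.e (nat_lit 5412) (nat_lit 303) (.e (nat_lit 73775) (nat_lit 26) (.e (nat_lit 778465) (nat_lit 11) .nil))) .nil)) 
(.lf (nat_lit 111103) (.g (nat_lit 508) (.e (nat_lit 5413) (nat_lit 303) (.e (nat_lit 73734) (nat_lit 0) (.e (nat_lit 7147) (nat_lit 382) (.e (nat_lit 1216) (nat_lit 90) (.e (nat_lit 89856) (nat_lit 10) .nil))))) .nil))))))))

noncomputable def tv1500 : DT := (.nd (nat_lit 0) (.nd (nat_lit 1) (.nd (nat_lit 2) (.nd (nat_lit 3) (.nd (nat_lit 4) (.nd (nat_lit 5) (.nd (nat_lit 6) 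
(.lf (nat_lit 111104) (.g (nat_lit 788) (.e (nat_lit 5413) (nat_lit 303) (.e (nat_lit 73734) (nat_lit 0) (.e (nat_lit 7147) (nat_lit 382) (.e (nat_lit 1217) (nat_lit 90) (.e (nat_lit 89856) (nat_lit 10) (.e (nat_lit 417795) (nat_lit 0) .nil)))))) (.g (nat_lit 4) .nil .nil))) 
(.lf (nat_lit 111168) (.g (nat_lit 1365) (.e (nat_lit 5413) (nat_lit 303) (.e (nat_lit 73775) (nat_lit 26) (.e (nat_lit 778466) (nat_lit 11) (.e (nat_lit 24636) (nat_lit 9) .nil)))) .nil))) (.nd (nat_lit 6) 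
(.lf (nat_lit 111136) (.g (nat_lit 2952) (.e (nat_lit 5413) (nat_lit 303) (.e (nat_lit 73754) (nat_lit 8) (.e (nat_lit 557087) (nat_lit 11) (.e (nat_lit 24639) (nat_lit 10) (.e (nat_lit 344115) (nat_lit 20) (.e (nat_lit 507907) (nat_lit 0) .nil)))))) (.g (nat_lit 5) .nil .nil))) 
(.lf (nat_lit 111200) (.g (nat_lit 1123) (.e (nat_lit 5426) (nat_lit 305) (.e (nat_lit 131094) (nat_lit 2) (.e (nat_lit 90185) (nat_lit 17) (.e (nat_lit 237585) (nat_lit 1) .nil)))) .nil)))) (.nd (nat_lit 5) (.nd (nat_lit 6) 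
(.lf (nat_lit 111120) (.g (nat_lit 3155) (.e (nat_lit 5413) (nat_lit 303) (.e (nat_lit 73748) (nat_lit 3) (.e (nat_lit 516185) (nat_lit 16) (.e (nat_lit 491560) (nat_lit 10) (.e (nat_lit 344115) (nat_lit 20) (.e (nat_lit 507907) (nat_lit 0) .nil)))))) (.g (nat_lit 0) .nil .nil))) 
(.lf (nat_lit 111184) (.g (nat_lit 874) (.e (nat_lit 7936) (nat_lit 303) (.e (nat_lit 73747) (nat_lit 3) (.e (nat_lit 516185) (nat_lit 16) (.e (nat_lit 491560) (nat_lit 10) .nil)))) .nil))) (.nd (nat_lit 6) 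
(.lf (nat_lit 111152) (.g (nat_lit 1273) (.e (nat_lit 5413) (nat_lit 303) (.e (nat_lit 73773) (nat_lit 25) (.e (nat_lit 770058) (nat_lit 5) (.e (nat_lit 1562) (nat_lit 110) (.e (nat_lit 352272) (nat_lit 10) (.e (nat_lit 417796) (nat_lit 0) .nil)))))) (.g (nat_lit 0) .nil .nil))) 
(.lf (nat_lit 111216) (.g (nat_lit 2166) (.e (nat_lit 5443) (nat_lit 306) (.e (nat_lit 2630) (nat_lit 164) (.e (nat_lit 172126) (nat_lit 14) (.e (nat_lit 491549) (nat_lit 9) (.e (nat_lit 336432) (nat_lit 30) .nil))))) .nil))))) (.nd (nat_lit 4) (.nd (nat_lit 5) (.nd (nat_lit 6) 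
(.lf (nat_lit 111112) (.g (nat_lit 571) (.e (nat_lit 5413) (nat_lit 303) (.e (nat_lit 73745) (nat_lit 3) (.e (nat_lit 516097) (nat_lit 0) (.e (nat_lit 7593) (nat_lit 407) .nil)))) .nil)) 
(.lf (nat_lit 111176) (.g (nat_lit 712) (.e (nat_lit 7936) (nat_lit 303) (.e (nat_lit 73729) (nat_lit 0) (.e (nat_lit 7125) (nat_lit 382) (.e (nat_lit 1224) (nat_lit 90) .nil)))) .nil))) (.nd (nat_lit 6) 
(.lf (nat_lit 111144) (.g (nat_lit 2631) (.e (nat_lit 5413) (nat_lit 303) (.e (nat_lit 73755) (nat_lit 8) (.e (nat_lit 557087) (nat_lit 11) (.e (nat_lit 24640) (nat_lit 10) (.e (nat_lit 344115) (nat_lit 20) (.e (nat_lit 507908) (nat_lit 0) .nil)))))) (.g (nat_lit 0) .nil .nil))) 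
(.lf (nat_lit 111208) (.g (nat_lit 2045) (.e (nat_lit 5440) (nat_lit 306) (.e (nat_lit 1122) (nat_lit 83) (.e (nat_lit 16448) (nat_lit 10) (.e (nat_lit 434268) (nat_lit 36) (.e (nat_lit 639005) (nat_lit 13) .nil))))) .nil)))) (.nd (nat_lit 5) (.nd (nat_lit 6) 
(.lf (nat_lit 111128) (.g (nat_lit 1320) (.e (nat_lit 5413) (nat_lit 303) (.e (nat_lit 73754) (nat_lit 8) (.e (nat_lit 557064) (nat_lit 9) (.e (nat_lit 321) (nat_lit 24) (.e (nat_lit 360464) (nat_lit 2) .nil))))) .nil)) 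
(.lf (nat_lit 111192) (.g (nat_lit 1275) (.e (nat_lit 7936) (nat_lit 303) (.e (nat_lit 73775) (nat_lit 26) (.e (nat_lit 778465) (nat_lit 11) (.e (nat_lit 24650) (nat_lit 12) .nil)))) .nil))) (.nd (nat_lit 6) 
(.lf (nat_lit 111160) (.g (nat_lit 1771) (.e (nat_lit 5413) (nat_lit 303) (.e (nat_lit 73775) (nat_lit 26) (.e (nat_lit 778465) (nat_lit 11) (.e (nat_lit 24650) (nat_lit 12) (.e (nat_lit 385038) (nat_lit 16) .nil))))) .nil)) 
(.lf (nat_lit 111224) (.g (nat_lit 2149) (.e (nat_lit 5446) (nat_lit 306) (.e (nat_lit 2630) (nat_lit 164) (.e (nat_lit 172126) (nat_lit 14) (.e (nat_lit 491549) (nat_lit 9) (.e (nat_lit 336432) (nat_lit 30) .nil))))) .nil)))))) (.nd (nat_lit 3) (.nd (nat_lit 4) (.nd (nat_lit 5) (.nd (nat_lit 6) 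
(.lf (nat_lit 111108) (.g (nat_lit 1408) (.e (nat_lit 5413) (nat_lit 303) (.e (nat_lit 73744) (nat_lit 2) (.e (nat_lit 507923) (nat_lit 6) (.e (nat_lit 286754) (nat_lit 10) (.e (nat_lit 344115) (nat_lit 20) (.e (nat_lit 507907) (nat_lit 0) .nil)))))) (.g (nat_lit 0) .nil .nil))) 
(.lf (nat_lit 111172) (.g (nat_lit 2357) (.e (nat_lit 5413) (nat_lit 303) (.e (nat_lit 73775) (nat_lit 26) (.e (nat_lit 778466) (nat_lit 11) (.e (nat_lit 24648) (nat_lit 12) (.e (nat_lit 385038) (nat_lit 16) .nil))))) .nil))) (.nd (nat_lit 6) 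
(.lf (nat_lit 111140) (.g (nat_lit 3227) (.e (nat_lit 5413) (nat_lit 303) (.e (nat_lit 73754) (nat_lit 8) (.e (nat_lit 557087) (nat_lit 11) (.e (nat_lit 24641) (nat_lit 10) (.e (nat_lit 344115) (nat_lit 20) .nil))))) .nil)) 
(.lf (nat_lit 111204) (.g (nat_lit 1837) (.e (nat_lit 5429) (nat_lit 306) (.e (nat_lit 1183) (nat_lit 87) (.e (nat_lit 57575) (nat_lit 55) (.e (nat_lit 778359) (nat_lit 9) (.e (nat_lit 232) (nat_lit 21) .nil))))) .nil)))) (.nd (nat_lit 5) (.nd (nat_lit 6) 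
(.lf (nat_lit 111124) (.g (nat_lit 1679) (.e (nat_lit 5413) (nat_lit 303) (.e (nat_lit 73753) (nat_lit 8) (.e (nat_lit 557066) (nat_lit 9) (.e (nat_lit 324) (nat_lit 24) (.e (nat_lit 360464) (nat_lit 2) .nil))))) .nil)) 
(.lf (nat_lit 111188) (.g (nat_lit 98) (.e (nat_lit 7936) (nat_lit 303) (.e (nat_lit 73773) (nat_lit 25) (.e (nat_lit 770057) (nat_lit 5) .nil))) .nil))) (.nd (nat_lit 6) 
(.lf (nat_lit 111156) (.g (nat_lit 2172) (.e (nat_lit 5413) (nat_lit 303) (.e (nat_lit 73775) (nat_lit 26) (.e (nat_lit 778465) (nat_lit 11) (.e (nat_lit 24623) (nat_lit 9) (.e (nat_lit 336363) (nat_lit 26) .nil))))) .nil)) 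
(.lf (nat_lit 111220) (.g (nat_lit 622) (.e (nat_lit 5443) (nat_lit 306) (.e (nat_lit 2725) (nat_lit 172) (.e (nat_lit 237617) (nat_lit 12) .nil))) .nil))))) (.nd (nat_lit 4) (.nd (nat_lit 5) (.nd (nat_lit 6) 
(.lf (nat_lit 111116) (.g (nat_lit 1102) (.e (nat_lit 5413) (nat_lit 303) (.e (nat_lit 73748) (nat_lit 3) (.e (nat_lit 516098) (nat_lit 0) (.e (nat_lit 7593) (nat_lit 407) (.e (nat_lit 73744) (nat_lit 2) .nil))))) .nil)) 
(.lf (nat_lit 111180) (.g (nat_lit 1220) (.e (nat_lit 7936) (nat_lit 303) (.e (nat_lit 73731) (nat_lit 0) (.e (nat_lit 7266) (nat_lit 384) (.e (nat_lit 57423) (nat_lit 14) (.e (nat_lit 352272) (nat_lit 10) .nil))))) .nil))) (.nd (nat_lit 6) 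
(.lf (nat_lit 111148) (.g (nat_lit 173) (.e (nat_lit 5413) (nat_lit 303) (.e (nat_lit 73772) (nat_lit 24) (.e (nat_lit 761868) (nat_lit 5) .nil))) .nil)) 
(.lf (nat_lit 111212) (.g (nat_lit 2631) (.e (nat_lit 5441) (nat_lit 306) (.e (nat_lit 1183) (nat_lit 87) (.e (nat_lit 57574) (nat_lit 55) (.e (nat_lit 778362) (nat_lit 9) (.e (nat_lit 232) (nat_lit 21) .nil))))) .nil)))) (.nd (nat_lit 5) (.nd (nat_lit 6) 
(.lf (nat_lit 111132) (.g (nat_lit 564) (.e (nat_lit 5413) (nat_lit 303) (.e (nat_lit 73754) (nat_lit 8) (.e (nat_lit 557072) (nat_lit 9) .nil))) .nil)) 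
(.lf (nat_lit 111196) (.g (nat_lit 2129) (.e (nat_lit 5419) (nat_lit 304) (.e (nat_lit 122936) (nat_lit 23) (.e (nat_lit 516176) (nat_lit 14) (.e (nat_lit 466981) (nat_lit 23) (.e (nat_lit 204848) (nat_lit 25) (.e (nat_lit 327705) (nat_lit 10) .nil)))))) (.g (nat_lit 0) .nil .nil)))) (.nd (nat_lit 6) 
(.lf (nat_lit 111164) (.g (nat_lit 1826) (.e (nat_lit 5413) (nat_lit 303) (.e (nat_lit 73775) (nat_lit 26) (.e (nat_lit 778466) (nat_lit 11) (.e (nat_lit 24631) (nat_lit 9) (.e (nat_lit 336363) (nat_lit 26) .nil))))) .nil)) 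
(.lf (nat_lit 111228) (.g (nat_lit 2179) (.e (nat_lit 5447) (nat_lit 306) (.e (nat_lit 2630) (nat_lit 164) (.e (nat_lit 172126) (nat_lit 14) (.e (nat_lit 491549) (nat_lit 9) (.e (nat_lit 336434) (nat_lit 30) .nil))))) .nil))))))) (.nd (nat_lit 2) (.nd (nat_lit 3) (.nd (nat_lit 4) (.nd (nat_lit 5) (.nd (nat_lit 6) 
(.lf (nat_lit 111106) (.g (nat_lit 803) (.e (nat_lit 5413) (nat_lit 303) (.e (nat_lit 81664) (nat_lit 0) (.e (nat_lit 7237) (nat_lit 382) (.e (nat_lit 1219) (nat_lit 90) (.e (nat_lit 89856) (nat_lit 10) (.e (nat_lit 417796) (nat_lit 0) .nil)))))) (.g (nat_lit 4) .nil .nil))) 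
(.lf (nat_lit 111170) (.g (nat_lit 1880) (.e (nat_lit 5413) (nat_lit 303) (.e (nat_lit 73775) (nat_lit 26) (.e (nat_lit 778466) (nat_lit 11) (.e (nat_lit 24647) (nat_lit 12) .nil)))) .nil))) (.nd (nat_lit 6) 
(.lf (nat_lit 111138) (.g (nat_lit 3381) (.e (nat_lit 5413) (nat_lit 303) (.e (nat_lit 73754) (nat_lit 8) (.e (nat_lit 557087) (nat_lit 11) (.e (nat_lit 24640) (nat_lit 10) (.e (nat_lit 344115) (nat_lit 20) (.e (nat_lit 507907) (nat_lit 0) .nil)))))) (.g (nat_lit 5) .nil .nil))) 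
(.lf (nat_lit 111202) (.g (nat_lit 2044) (.e (nat_lit 5429) (nat_lit 306) (.e (nat_lit 1129) (nat_lit 83) (.e (nat_lit 16448) (nat_lit 10) (.e (nat_lit 434268) (nat_lit 36) (.e (nat_lit 639021) (nat_lit 16) .nil))))) .nil)))) (.nd (nat_lit 5) (.nd (nat_lit 6) 
(.lf (nat_lit 111122) (.g (nat_lit 894) (.e (nat_lit 5413) (nat_lit 303) (.e (nat_lit 73753) (nat_lit 8) (.e (nat_lit 557065) (nat_lit 9) .nil))) .nil)) 
(.lf (nat_lit 111186) (.g (nat_lit 909) (.e (nat_lit 7936) (nat_lit 303) (.e (nat_lit 73755) (nat_lit 8) (.e (nat_lit 557065) (nat_lit 9) (.e (nat_lit 324) (nat_lit 24) .nil)))) .nil))) (.nd (nat_lit 6) 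
(.lf (nat_lit 111154) (.g (nat_lit 1771) (.e (nat_lit 5413) (nat_lit 303) (.e (nat_lit 73775) (nat_lit 26) (.e (nat_lit 778361) (nat_lit 9) (.e (nat_lit 314) (nat_lit 23) (.e (nat_lit 360192) (nat_lit 10) .nil))))) .nil)) 
(.lf (nat_lit 111218) (.g (nat_lit 2002) (.e (nat_lit 5443) (nat_lit 306) (.e (nat_lit 2630) (nat_lit 164) (.e (nat_lit 172126) (nat_lit 14) (.e (nat_lit 491550) (nat_lit 9) (.e (nat_lit 336432) (nat_lit 30) .nil))))) .nil))))) (.nd (nat_lit 4) (.nd (nat_lit 5) (.nd (nat_lit 6) 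
(.lf (nat_lit 111114) (.g (nat_lit 1526) (.e (nat_lit 5413) (nat_lit 303) (.e (nat_lit 73748) (nat_lit 3) (.e (nat_lit 516097) (nat_lit 0) (.e (nat_lit 7593) (nat_lit 407) (.e (nat_lit 73744) (nat_lit 2) .nil))))) .nil)) 
(.lf (nat_lit 111178) (.g (nat_lit 483) (.e (nat_lit 7936) (nat_lit 303) (.e (nat_lit 73731) (nat_lit 0) (.e (nat_lit 7125) (nat_lit 382) (.e (nat_lit 1222) (nat_lit 90) .nil)))) .nil))) (.nd (nat_lit 6) 
(.lf (nat_lit 111146) (.g (nat_lit 1192) (.e (nat_lit 5413) (nat_lit 303) (.e (nat_lit 73772) (nat_lit 24) (.e (nat_lit 761866) (nat_lit 5) (.e (nat_lit 1555) (nat_lit 110) (.e (nat_lit 352272) (nat_lit 10) (.e (nat_lit 417795) (nat_lit 0) .nil)))))) (.g (nat_lit 6) .nil .nil))) 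
(.lf (nat_lit 111210) (.g (nat_lit 2171) (.e (nat_lit 5441) (nat_lit 306) (.e (nat_lit 1124) (nat_lit 83) (.e (nat_lit 16448) (nat_lit 10) (.e (nat_lit 434268) (nat_lit 36) (.e (nat_lit 639007) (nat_lit 13) .nil))))) .nil)))) (.nd (nat_lit 5) (.nd (nat_lit 6) 
(.lf (nat_lit 111130) (.g (nat_lit 1216) (.e (nat_lit 5413) (nat_lit 303) (.e (nat_lit 73754) (nat_lit 8) (.e (nat_lit 557065) (nat_lit 9) (.e (nat_lit 324) (nat_lit 24) .nil)))) .nil)) 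
(.lf (nat_lit 111194) (.g (nat_lit 1628) (.e (nat_lit 5419) (nat_lit 304) (.e (nat_lit 122936) (nat_lit 23) (.e (nat_lit 516146) (nat_lit 9) (.e (nat_lit 426227) (nat_lit 9) (.e (nat_lit 433920) (nat_lit 3) .nil))))) .nil))) (.nd (nat_lit 6) 
(.lf (nat_lit 111162) (.g (nat_lit 422) (.e (nat_lit 5413) (nat_lit 303) (.e (nat_lit 73775) (nat_lit 26) (.e (nat_lit 778466) (nat_lit 11) .nil))) .nil)) 
(.lf (nat_lit 111226) (.g (nat_lit 1964) (.e (nat_lit 5447) (nat_lit 306) (.e (nat_lit 2630) (nat_lit 164) (.e (nat_lit 172124) (nat_lit 14) (.e (nat_lit 491549) (nat_lit 9) (.e (nat_lit 336434) (nat_lit 30) .nil))))) .nil)))))) (.nd (nat_lit 3) (.nd (nat_lit 4) (.nd (nat_lit 5) (.nd (nat_lit 6) 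
(.lf (nat_lit 111110) (.g (nat_lit 1239) (.e (nat_lit 5413) (nat_lit 303) (.e (nat_lit 73744) (nat_lit 2) (.e (nat_lit 507923) (nat_lit 6) (.e (nat_lit 286755) (nat_lit 10) (.e (nat_lit 344115) (nat_lit 20) (.e (nat_lit 507907) (nat_lit 0) .nil)))))) (.g (nat_lit 0) .nil .nil))) 
(.lf (nat_lit 111174) (.g (nat_lit 2736) (.e (nat_lit 5413) (nat_lit 303) (.e (nat_lit 73775) (nat_lit 26) (.e (nat_lit 778466) (nat_lit 11) (.e (nat_lit 24662) (nat_lit 14) (.e (nat_lit 409344) (nat_lit 25) .nil))))) .nil))) (.nd (nat_lit 6) 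
(.lf (nat_lit 111142) (.g (nat_lit 2248) (.e (nat_lit 5413) (nat_lit 303) (.e (nat_lit 73755) (nat_lit 8) (.e (nat_lit 557087) (nat_lit 11) (.e (nat_lit 24639) (nat_lit 10) (.e (nat_lit 344115) (nat_lit 20) (.e (nat_lit 507907) (nat_lit 0) .nil)))))) (.g (nat_lit 6) .nil .nil))) 
(.lf (nat_lit 111206) (.g (nat_lit 1772) (.e (nat_lit 5429) (nat_lit 306) (.e (nat_lit 2612) (nat_lit 163) (.e (nat_lit 164239) (nat_lit 187) (.e (nat_lit 1638) (nat_lit 114) (.e (nat_lit 385102) (nat_lit 50) .nil))))) .nil)))) (.nd (nat_lit 5) (.nd (nat_lit 6) 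
(.lf (nat_lit 111126) (.g (nat_lit 2294) (.e (nat_lit 5413) (nat_lit 303) (.e (nat_lit 73753) (nat_lit 8) (.e (nat_lit 557087) (nat_lit 11) (.e (nat_lit 24639) (nat_lit 10) (.e (nat_lit 344115) (nat_lit 20) (.e (nat_lit 507908) (nat_lit 0) .nil)))))) (.g (nat_lit 4) .nil .nil))) 
(.lf (nat_lit 111190) (.g (nat_lit 1177) (.e (nat_lit 7936) (nat_lit 303) (.e (nat_lit 73775) (nat_lit 26) (.e (nat_lit 778361) (nat_lit 9) (.e (nat_lit 312) (nat_lit 23) (.e (nat_lit 352271) (nat_lit 9) .nil))))) .nil))) (.nd (nat_lit 6) 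
(.lf (nat_lit 111158) (.g (nat_lit 1604) (.e (nat_lit 5413) (nat_lit 303) (.e (nat_lit 73775) (nat_lit 26) (.e (nat_lit 778465) (nat_lit 11) (.e (nat_lit 24631) (nat_lit 9) (.e (nat_lit 336363) (nat_lit 26) (.e (nat_lit 417795) (nat_lit 0) .nil)))))) (.g (nat_lit 4) .nil .nil))) 
(.lf (nat_lit 111222) (.g (nat_lit 846) (.e (nat_lit 5443) (nat_lit 306) (.e (nat_lit 2725) (nat_lit 172) (.e (nat_lit 237618) (nat_lit 12) (.e (nat_lit 475207) (nat_lit 41) (.e (nat_lit 712753) (nat_lit 30) .nil))))) .nil))))) (.nd (nat_lit 4) (.nd (nat_lit 5) (.nd (nat_lit 6) 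
(.lf (nat_lit 111118) (.g (nat_lit 3114) (.e (nat_lit 5413) (nat_lit 303) (.e (nat_lit 73748) (nat_lit 3) (.e (nat_lit 516185) (nat_lit 16) (.e (nat_lit 491558) (nat_lit 10) (.e (nat_lit 344115) (nat_lit 20) (.e (nat_lit 507908) (nat_lit 0) .nil)))))) (.g (nat_lit 0) .nil .nil))) 
(.lf (nat_lit 111182) (.g (nat_lit 2082) (.e (nat_lit 7936) (nat_lit 303) (.e (nat_lit 73746) (nat_lit 3) (.e (nat_lit 516139) (nat_lit 7) (.e (nat_lit 409648) (nat_lit 18) (.e (nat_lit 303108) (nat_lit 0) .nil))))) .nil))) (.nd (nat_lit 6) 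
(.lf (nat_lit 111150) (.g (nat_lit 1431) (.e (nat_lit 5413) (nat_lit 303) (.e (nat_lit 73772) (nat_lit 24) (.e (nat_lit 761869) (nat_lit 5) (.e (nat_lit 1555) (nat_lit 110) (.e (nat_lit 352272) (nat_lit 10) (.e (nat_lit 417796) (nat_lit 0) .nil)))))) (.g (nat_lit 0) .nil .nil))) 
(.lf (nat_lit 111214) (.g (nat_lit 3005) (.e (nat_lit 5442) (nat_lit 306) (.e (nat_lit 1183) (nat_lit 87) (.e (nat_lit 57575) (nat_lit 55) (.e (nat_lit 778362) (nat_lit 9) (.e (nat_lit 232) (nat_lit 21) (.e (nat_lit 336060) (nat_lit 7) (.e (nat_lit 319534) (nat_lit 16) (.e (nat_lit 286756) (nat_lit 10) (.e (nat_lit 344090) (nat_lit 18) .nil))))))))) (.g (nat_lit 5) .nil .nil))))) 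
(.nd (nat_lit 5) (.nd (nat_lit 6) 
(.lf (nat_lit 111134) (.g (nat_lit 2369) (.e (nat_lit 5413) (nat_lit 303) (.e (nat_lit 73754) (nat_lit 8) (.e (nat_lit 557085) (nat_lit 11) (.e (nat_lit 24640) (nat_lit 10) (.e (nat_lit 344115) (nat_lit 20) .nil))))) .nil)) 
(.lf (nat_lit 111198) (.g (nat_lit 1404) (.e (nat_lit 5426) (nat_lit 305) (.e (nat_lit 131091) (nat_lit 2) (.e (nat_lit 90185) (nat_lit 17) (.e (nat_lit 237582) (nat_lit 1) .nil)))) .nil))) (.nd (nat_lit 6) 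
(.lf (nat_lit 111166) (.g (nat_lit 2341) (.e (nat_lit 5413) (nat_lit 303) (.e (nat_lit 73775) (nat_lit 26) (.e (nat_lit 778466) (nat_lit 11) (.e (nat_lit 24632) (nat_lit 9) (.e (nat_lit 336363) (nat_lit 26) (.e (nat_lit 417795) (nat_lit 0) .nil)))))) (.g (nat_lit 6) .nil .nil))) 
(.lf (nat_lit 111230) (.g (nat_lit 2228) (.e (nat_lit 5448) (nat_lit 306) (.e (nat_lit 2612) (nat_lit 163) (.e (nat_lit 163978) (nat_lit 30) (.e (nat_lit 573479) (nat_lit 13) (.e (nat_lit 65619) (nat_lit 10) .nil))))) .nil)))))))) (.nd (nat_lit 1) (.nd (nat_lit 2) (.nd (nat_lit 3) (.nd (nat_lit 4) (.nd (nat_lit 5) (.nd (nat_lit 6) 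
(.lf (nat_lit 111105) (.g (nat_lit 1092) (.e (nat_lit 5413) (nat_lit 303) (.e (nat_lit 73734) (nat_lit 0) (.e (nat_lit 7273) (nat_lit 385) (.e (nat_lit 122916) (nat_lit 14) (.e (nat_lit 352272) (nat_lit 10) (.e (nat_lit 417795) (nat_lit 0) .nil)))))) (.g (nat_lit 6) .nil .nil))) 
(.lf (nat_lit 111169) (.g (nat_lit 1472) (.e (nat_lit 5413) (nat_lit 303) (.e (nat_lit 73775) (nat_lit 26) (.e (nat_lit 778466) (nat_lit 11) (.e (nat_lit 24638) (nat_lit 9) .nil)))) .nil))) (.nd (nat_lit 6) 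
(.lf (nat_lit 111137) (.g (nat_lit 2952) (.e (nat_lit 5413) (nat_lit 303) (.e (nat_lit 73754) (nat_lit 8) (.e (nat_lit 557087) (nat_lit 11) (.e (nat_lit 24639) (nat_lit 10) (.e (nat_lit 344115) (nat_lit 20) (.e (nat_lit 507908) (nat_lit 0) .nil)))))) (.g (nat_lit 5) .nil .nil))) 
(.lf (nat_lit 111201) (.g (nat_lit 2383) (.e (nat_lit 5429) (nat_lit 306) (.e (nat_lit 71) (nat_lit 0) (.e (nat_lit 1349) (nat_lit 102) (.e (nat_lit 286759) (nat_lit 12) (.e (nat_lit 385102) (nat_lit 50) .nil))))) .nil)))) (.nd (nat_lit 5) (.nd (nat_lit 6) 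
(.lf (nat_lit 111121) (.g (nat_lit 3171) (.e (nat_lit 5413) (nat_lit 303) (.e (nat_lit 73748) (nat_lit 3) (.e (nat_lit 516185) (nat_lit 16) (.e (nat_lit 491560) (nat_lit 10) (.e (nat_lit 344115) (nat_lit 20) (.e (nat_lit 507908) (nat_lit 0) .nil)))))) (.g (nat_lit 0) .nil .nil))) 
(.lf (nat_lit 111185) (.g (nat_lit 2358) (.e (nat_lit 7936) (nat_lit 303) (.e (nat_lit 73753) (nat_lit 8) (.e (nat_lit 557087) (nat_lit 11) (.e (nat_lit 24641) (nat_lit 10) (.e (nat_lit 344115) (nat_lit 20) .nil))))) .nil))) (.nd (nat_lit 6) 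
(.lf (nat_lit 111153) (.g (nat_lit 1468) (.e (nat_lit 5413) (nat_lit 303) (.e (nat_lit 73775) (nat_lit 26) (.e (nat_lit 778361) (nat_lit 9) (.e (nat_lit 310) (nat_lit 23) (.e (nat_lit 352272) (nat_lit 10) .nil))))) .nil)) 
(.lf (nat_lit 111217) (.g (nat_lit 2212) (.e (nat_lit 5443) (nat_lit 306) (.e (nat_lit 2630) (nat_lit 164) (.e (nat_lit 172126) (nat_lit 14) (.e (nat_lit 491549) (nat_lit 9) (.e (nat_lit 336434) (nat_lit 30) .nil))))) .nil))))) (.nd (nat_lit 4) (.nd (nat_lit 5) (.nd (nat_lit 6) 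
(.lf (nat_lit 111113) (.g (nat_lit 651) (.e (nat_lit 5413) (nat_lit 303) (.e (nat_lit 73746) (nat_lit 3) (.e (nat_lit 516097) (nat_lit 0) .nil))) .nil)) 
(.lf (nat_lit 111177) (.g (nat_lit 945) (.e (nat_lit 7936) (nat_lit 303) (.e (nat_lit 73729) (nat_lit 0) (.e (nat_lit 7266) (nat_lit 384) (.e (nat_lit 57424) (nat_lit 14) .nil)))) .nil))) (.nd (nat_lit 6) 
(.lf (nat_lit 111145) (.g (nat_lit 2508) (.e (nat_lit 5413) (nat_lit 303) (.e (nat_lit 73755) (nat_lit 8) (.e (nat_lit 557087) (nat_lit 11) (.e (nat_lit 24641) (nat_lit 10) (.e (nat_lit 344115) (nat_lit 20) (.e (nat_lit 507908) (nat_lit 0) .nil)))))) (.g (nat_lit 4) .nil .nil))) 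
(.lf (nat_lit 111209) (.g (nat_lit 2154) (.e (nat_lit 5440) (nat_lit 306) (.e (nat_lit 1122) (nat_lit 83) (.e (nat_lit 16448) (nat_lit 10) (.e (nat_lit 434268) (nat_lit 36) (.e (nat_lit 639021) (nat_lit 16) .nil))))) .nil)))) (.nd (nat_lit 5) (.nd (nat_lit 6) 
(.lf (nat_lit 111129) (.g (nat_lit 972) (.e (nat_lit 5413) (nat_lit 303) (.e (nat_lit 73754) (nat_lit 8) (.e (nat_lit 557064) (nat_lit 9) (.e (nat_lit 324) (nat_lit 24) .nil)))) .nil)) 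
(.lf (nat_lit 111193) (.g (nat_lit 1149) (.e (nat_lit 5418) (nat_lit 304) (.e (nat_lit 122936) (nat_lit 23) (.e (nat_lit 516176) (nat_lit 14) (.e (nat_lit 466975) (nat_lit 22) .nil)))) .nil))) (.nd (nat_lit 6) 
(.lf (nat_lit 111161) (.g (nat_lit 2614) (.e (nat_lit 5413) (nat_lit 303) (.e (nat_lit 73775) (nat_lit 26) (.e (nat_lit 778465) (nat_lit 11) (.e (nat_lit 24662) (nat_lit 14) (.e (nat_lit 409344) (nat_lit 25) .nil))))) .nil)) 
(.lf (nat_lit 111225) (.g (nat_lit 1899) (.e (nat_lit 5447) (nat_lit 306) (.e (nat_lit 2630) (nat_lit 164) (.e (nat_lit 172124) (nat_lit 14) (.e (nat_lit 491549) (nat_lit 9) (.e (nat_lit 336432) (nat_lit 30) .nil))))) .nil)))))) (.nd (nat_lit 3) (.nd (nat_lit 4) (.nd (nat_lit 5) (.nd (nat_lit 6) 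
(.lf (nat_lit 111109) (.g (nat_lit 1413) (.e (nat_lit 5413) (nat_lit 303) (.e (nat_lit 73744) (nat_lit 2) (.e (nat_lit 507923) (nat_lit 6) (.e (nat_lit 286754) (nat_lit 10) (.e (nat_lit 344115) (nat_lit 20) (.e (nat_lit 507908) (nat_lit 0) .nil)))))) (.g (nat_lit 0) .nil .nil))) 
(.lf (nat_lit 111173) (.g (nat_lit 2517) (.e (nat_lit 5413) (nat_lit 303) (.e (nat_lit 73775) (nat_lit 26) (.e (nat_lit 778466) (nat_lit 11) (.e (nat_lit 24651) (nat_lit 12) (.e (nat_lit 385038) (nat_lit 16) .nil))))) .nil))) (.nd (nat_lit 6) 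
(.lf (nat_lit 111141) (.g (nat_lit 1692) (.e (nat_lit 5413) (nat_lit 303) (.e (nat_lit 73755) (nat_lit 8) (.e (nat_lit 557065) (nat_lit 9) (.e (nat_lit 324) (nat_lit 24) (.e (nat_lit 360464) (nat_lit 2) .nil))))) .nil)) 
(.lf (nat_lit 111205) (.g (nat_lit 2136) (.e (nat_lit 5429) (nat_lit 306) (.e (nat_lit 1183) (nat_lit 87) (.e (nat_lit 57575) (nat_lit 55) (.e (nat_lit 778361) (nat_lit 9) (.e (nat_lit 232) (nat_lit 21) .nil))))) .nil)))) (.nd (nat_lit 5) (.nd (nat_lit 6) 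
(.lf (nat_lit 111125) (.g (nat_lit 2291) (.e (nat_lit 5413) (nat_lit 303) (.e (nat_lit 73753) (nat_lit 8) (.e (nat_lit 557087) (nat_lit 11) (.e (nat_lit 24639) (nat_lit 10) (.e (nat_lit 344115) (nat_lit 20) (.e (nat_lit 507907) (nat_lit 0) .nil)))))) (.g (nat_lit 4) .nil .nil))) 
(.lf (nat_lit 111189) (.g (nat_lit 423) (.e (nat_lit 7936) (nat_lit 303) (.e (nat_lit 73773) (nat_lit 25) (.e (nat_lit 770058) (nat_lit 5) (.e (nat_lit 1575) (nat_lit 110) .nil)))) .nil))) (.nd (nat_lit 6) 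
(.lf (nat_lit 111157) (.g (nat_lit 2172) (.e (nat_lit 5413) (nat_lit 303) (.e (nat_lit 73775) (nat_lit 26) (.e (nat_lit 778465) (nat_lit 11) (.e (nat_lit 24623) (nat_lit 9) (.e (nat_lit 336364) (nat_lit 26) .nil))))) .nil)) 
(.lf (nat_lit 111221) (.g (nat_lit 783) (.e (nat_lit 5443) (nat_lit 306) (.e (nat_lit 2725) (nat_lit 172) (.e (nat_lit 237617) (nat_lit 12) (.e (nat_lit 475207) (nat_lit 41) .nil)))) .nil))))) (.nd (nat_lit 4) (.nd (nat_lit 5) (.nd (nat_lit 6) 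
(.lf (nat_lit 111117) (.g (nat_lit 3095) (.e (nat_lit 5413) (nat_lit 303) (.e (nat_lit 73748) (nat_lit 3) (.e (nat_lit 516185) (nat_lit 16) (.e (nat_lit 491558) (nat_lit 10) (.e (nat_lit 344115) (nat_lit 20) (.e (nat_lit 507907) (nat_lit 0) .nil)))))) (.g (nat_lit 0) .nil .nil))) 
(.lf (nat_lit 111181) (.g (nat_lit 1117) (.e (nat_lit 7936) (nat_lit 303) (.e (nat_lit 73731) (nat_lit 0) (.e (nat_lit 7266) (nat_lit 384) (.e (nat_lit 57424) (nat_lit 14) (.e (nat_lit 352272) (nat_lit 10) .nil))))) .nil))) (.nd (nat_lit 6) 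
(.lf (nat_lit 111149) (.g (nat_lit 1050) (.e (nat_lit 5413) (nat_lit 303) (.e (nat_lit 73772) (nat_lit 24) (.e (nat_lit 761868) (nat_lit 5) (.e (nat_lit 1555) (nat_lit 110) (.e (nat_lit 352272) (nat_lit 10) (.e (nat_lit 417795) (nat_lit 0) .nil)))))) (.g (nat_lit 6) .nil .nil))) 
(.lf (nat_lit 111213) (.g (nat_lit 2045) (.e (nat_lit 5442) (nat_lit 306) (.e (nat_lit 1122) (nat_lit 83) (.e (nat_lit 16448) (nat_lit 10) (.e (nat_lit 434268) (nat_lit 36) (.e (nat_lit 639005) (nat_lit 13) .nil))))) .nil)))) (.nd (nat_lit 5) (.nd (nat_lit 6) 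
(.lf (nat_lit 111133) (.g (nat_lit 1482) (.e (nat_lit 5413) (nat_lit 303) (.e (nat_lit 73754) (nat_lit 8) (.e (nat_lit 557085) (nat_lit 11) (.e (nat_lit 24639) (nat_lit 10) .nil)))) .nil)) 
(.lf (nat_lit 111197) (.g (nat_lit 1119) (.e (nat_lit 7936) (nat_lit 304) (.e (nat_lit 122936) (nat_lit 23) (.e (nat_lit 516146) (nat_lit 9) (.e (nat_lit 426273) (nat_lit 10) .nil)))) .nil))) (.nd (nat_lit 6) 
(.lf (nat_lit 111165) (.g (nat_lit 1960) (.e (nat_lit 5413) (nat_lit 303) (.e (nat_lit 73775) (nat_lit 26) (.e (nat_lit 778466) (nat_lit 11) (.e (nat_lit 24631) (nat_lit 9) (.e (nat_lit 336363) (nat_lit 26) (.e (nat_lit 417796) (nat_lit 0) .nil)))))) (.g (nat_lit 5) .nil .nil))) 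
(.lf (nat_lit 111229) (.g (nat_lit 1201) (.e (nat_lit 5448) (nat_lit 306) (.e (nat_lit 2433) (nat_lit 157) (.e (nat_lit 2668) (nat_lit 167) (.e (nat_lit 196686) (nat_lit 18) .nil)))) .nil))))))) (.nd (nat_lit 2) (.nd (nat_lit 3) (.nd (nat_lit 4) (.nd (nat_lit 5) (.nd (nat_lit 6) 
(.lf (nat_lit 111107) (.g (nat_lit 1454) (.e (nat_lit 5413) (nat_lit 303) (.e (nat_lit 73744) (nat_lit 2) (.e (nat_lit 507923) (nat_lit 6) (.e (nat_lit 286753) (nat_lit 10) (.e (nat_lit 344115) (nat_lit 20) (.e (nat_lit 507908) (nat_lit 0) .nil)))))) (.g (nat_lit 0) .nil .nil))) 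
(.lf (nat_lit 111171) (.g (nat_lit 1579) (.e (nat_lit 5413) (nat_lit 303) (.e (nat_lit 73775) (nat_lit 26) (.e (nat_lit 778466) (nat_lit 11) (.e (nat_lit 24648) (nat_lit 12) .nil)))) .nil))) (.nd (nat_lit 6) 
(.lf (nat_lit 111139) (.g (nat_lit 3378) (.e (nat_lit 5413) (nat_lit 303) (.e (nat_lit 73754) (nat_lit 8) (.e (nat_lit 557087) (nat_lit 11) (.e (nat_lit 24640) (nat_lit 10) (.e (nat_lit 344115) (nat_lit 20) (.e (nat_lit 507908) (nat_lit 0) .nil)))))) (.g (nat_lit 5) .nil .nil))) 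
(.lf (nat_lit 111203) (.g (nat_lit 2631) (.e (nat_lit 5429) (nat_lit 306) (.e (nat_lit 1183) (nat_lit 87) (.e (nat_lit 57574) (nat_lit 55) (.e (nat_lit 778362) (nat_lit 9) (.e (nat_lit 232) (nat_lit 21) .nil))))) .nil)))) (.nd (nat_lit 5) (.nd (nat_lit 6) 
(.lf (nat_lit 111123) (.g (nat_lit 1734) (.e (nat_lit 5413) (nat_lit 303) (.e (nat_lit 73753) (nat_lit 8) (.e (nat_lit 557066) (nat_lit 9) (.e (nat_lit 321) (nat_lit 24) (.e (nat_lit 360464) (nat_lit 2) .nil))))) .nil)) 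
(.lf (nat_lit 111187) (.g (nat_lit 83) (.e (nat_lit 7936) (nat_lit 303) (.e (nat_lit 73773) (nat_lit 25) (.e (nat_lit 770055) (nat_lit 5) .nil))) .nil))) (.nd (nat_lit 6) 
(.lf (nat_lit 111155) (.g (nat_lit 1195) (.e (nat_lit 5413) (nat_lit 303) (.e (nat_lit 73775) (nat_lit 26) (.e (nat_lit 778362) (nat_lit 9) (.e (nat_lit 334) (nat_lit 26) .nil)))) .nil)) 
(.lf (nat_lit 111219) (.g (nat_lit 1989) (.e (nat_lit 5443) (nat_lit 306) (.e (nat_lit 2630) (nat_lit 164) (.e (nat_lit 172126) (nat_lit 14) (.e (nat_lit 491550) (nat_lit 9) (.e (nat_lit 336434) (nat_lit 30) .nil))))) .nil))))) (.nd (nat_lit 4) (.nd (nat_lit 5) (.nd (nat_lit 6) 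
(.lf (nat_lit 111115) (.g (nat_lit 987) (.e (nat_lit 5413) (nat_lit 303) (.e (nat_lit 73748) (nat_lit 3) (.e (nat_lit 516098) (nat_lit 0) (.e (nat_lit 7591) (nat_lit 407) (.e (nat_lit 73744) (nat_lit 2) .nil))))) .nil)) 
(.lf (nat_lit 111179) (.g (nat_lit 695) (.e (nat_lit 7936) (nat_lit 303) (.e (nat_lit 73731) (nat_lit 0) (.e (nat_lit 7125) (nat_lit 382) (.e (nat_lit 1224) (nat_lit 90) .nil)))) .nil))) (.nd (nat_lit 6) 
(.lf (nat_lit 111147) (.g (nat_lit 1328) (.e (nat_lit 5413) (nat_lit 303) (.e (nat_lit 73772) (nat_lit 24) (.e (nat_lit 761866) (nat_lit 5) (.e (nat_lit 1555) (nat_lit 110) (.e (nat_lit 352272) (nat_lit 10) (.e (nat_lit 417796) (nat_lit 0) .nil)))))) (.g (nat_lit 6) .nil .nil))) 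
(.lf (nat_lit 111211) (.g (nat_lit 1683) (.e (nat_lit 5441) (nat_lit 306) (.e (nat_lit 1124) (nat_lit 83) (.e (nat_lit 16448) (nat_lit 10) (.e (nat_lit 434268) (nat_lit 36) (.e (nat_lit 639020) (nat_lit 16) .nil))))) .nil)))) (.nd (nat_lit 5) (.nd (nat_lit 6) 
(.lf (nat_lit 111131) (.g (nat_lit 1920) (.e (nat_lit 5413) (nat_lit 303) (.e (nat_lit 73754) (nat_lit 8) (.e (nat_lit 557066) (nat_lit 9) (.e (nat_lit 321) (nat_lit 24) (.e (nat_lit 360464) (nat_lit 2) (.e (nat_lit 507907) (nat_lit 0) .nil)))))) (.g (nat_lit 4) .nil .nil))) 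
(.lf (nat_lit 111195) (.g (nat_lit 1506) (.e (nat_lit 5419) (nat_lit 304) (.e (nat_lit 122936) (nat_lit 23) (.e (nat_lit 516150) (nat_lit 9) (.e (nat_lit 426227) (nat_lit 9) (.e (nat_lit 433920) (nat_lit 3) (.e (nat_lit 204848) (nat_lit 25) (.e (nat_lit 327704) (nat_lit 10) .nil))))))) (.g (nat_lit 4) .nil .nil)))) (.nd (nat_lit 6) 
(.lf (nat_lit 111163) (.g (nat_lit 1586) (.e (nat_lit 5413) (nat_lit 303) (.e (nat_lit 73775) (nat_lit 26) (.e (nat_lit 778466) (nat_lit 11) (.e (nat_lit 24624) (nat_lit 9) .nil)))) .nil)) 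
(.lf (nat_lit 111227) (.g (nat_lit 2133) (.e (nat_lit 5447) (nat_lit 306) (.e (nat_lit 2630) (nat_lit 164) (.e (nat_lit 172126) (nat_lit 14) (.e (nat_lit 491549) (nat_lit 9) (.e (nat_lit 336432) (nat_lit 30) .nil))))) .nil)))))) (.nd (nat_lit 3) (.nd (nat_lit 4) (.nd (nat_lit 5) (.nd (nat_lit 6) 
(.lf (nat_lit 111111) (.g (nat_lit 1249) (.e (nat_lit 5413) (nat_lit 303) (.e (nat_lit 73744) (nat_lit 2) (.e (nat_lit 507923) (nat_lit 6) (.e (nat_lit 286755) (nat_lit 10) (.e (nat_lit 344115) (nat_lit 20) (.e (nat_lit 507908) (nat_lit 0) .nil)))))) (.g (nat_lit 0) .nil .nil))) 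
(.lf (nat_lit 111175) (.g (nat_lit 424) (.e (nat_lit 7936) (nat_lit 303) (.e (nat_lit 73729) (nat_lit 0) (.e (nat_lit 7125) (nat_lit 382) (.e (nat_lit 1222) (nat_lit 90) .nil)))) .nil))) (.nd (nat_lit 6) 
(.lf (nat_lit 111143) (.g (nat_lit 2269) (.e (nat_lit 5413) (nat_lit 303) (.e (nat_lit 73755) (nat_lit 8) (.e (nat_lit 557087) (nat_lit 11) (.e (nat_lit 24639) (nat_lit 10) (.e (nat_lit 344115) (nat_lit 20) (.e (nat_lit 507908) (nat_lit 0) .nil)))))) (.g (nat_lit 6) .nil .nil))) 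
(.lf (nat_lit 111207) (.g (nat_lit 3074) (.e (nat_lit 5439) (nat_lit 306) (.e (nat_lit 1183) (nat_lit 87) (.e (nat_lit 57575) (nat_lit 55) (.e (nat_lit 778362) (nat_lit 9) (.e (nat_lit 232) (nat_lit 21) (.e (nat_lit 336060) (nat_lit 7) (.e (nat_lit 319534) (nat_lit 16) (.e (nat_lit 286756) (nat_lit 10) (.e (nat_lit 344090) (nat_lit 18) .nil))))))))) (.g (nat_lit 5) .nil .nil))))) 
(.nd (nat_lit 5) (.nd (nat_lit 6) 
(.lf (nat_lit 111127) (.g (nat_lit 2862) (.e (nat_lit 5413) (nat_lit 303) (.e (nat_lit 73753) (nat_lit 8) (.e (nat_lit 557087) (nat_lit 11) (.e (nat_lit 24641) (nat_lit 10) (.e (nat_lit 344115) (nat_lit 20) .nil))))) .nil)) 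
(.lf (nat_lit 111191) (.g (nat_lit 1185) (.e (nat_lit 7936) (nat_lit 303) (.e (nat_lit 73775) (nat_lit 26) (.e (nat_lit 778362) (nat_lit 9) (.e (nat_lit 309) (nat_lit 23) .nil)))) .nil))) (.nd (nat_lit 6) 
(.lf (nat_lit 111159) (.g (nat_lit 1685) (.e (nat_lit 5413) (nat_lit 303) (.e (nat_lit 73775) (nat_lit 26) (.e (nat_lit 778465) (nat_lit 11) (.e (nat_lit 24647) (nat_lit 12) .nil)))) .nil)) 
(.lf (nat_lit 111223) (.g (nat_lit 852) (.e (nat_lit 5443) (nat_lit 306) (.e (nat_lit 2725) (nat_lit 172) (.e (nat_lit 237618) (nat_lit 12) (.e (nat_lit 475207) (nat_lit 41) (.e (nat_lit 712755) (nat_lit 30) .nil))))) .nil))))) (.nd (nat_lit 4) (.nd (nat_lit 5) (.nd (nat_lit 6) 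
(.lf (nat_lit 111119) (.g (nat_lit 2798) (.e (nat_lit 5413) (nat_lit 303) (.e (nat_lit 73748) (nat_lit 3) (.e (nat_lit 516185) (nat_lit 16) (.e (nat_lit 491560) (nat_lit 10) (.e (nat_lit 344114) (nat_lit 20) .nil))))) .nil)) 
(.lf (nat_lit 111183) (.g (nat_lit 2089) (.e (nat_lit 7936) (nat_lit 303) (.e (nat_lit 73747) (nat_lit 3) (.e (nat_lit 516139) (nat_lit 7) (.e (nat_lit 409648) (nat_lit 18) (.e (nat_lit 303108) (nat_lit 0) .nil))))) .nil))) (.nd (nat_lit 6) 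
(.lf (nat_lit 111151) (.g (nat_lit 1280) (.e (nat_lit 5413) (nat_lit 303) (.e (nat_lit 73773) (nat_lit 25) (.e (nat_lit 770058) (nat_lit 5) (.e (nat_lit 1559) (nat_lit 110) (.e (nat_lit 352272) (nat_lit 10) (.e (nat_lit 417796) (nat_lit 0) .nil)))))) (.g (nat_lit 0) .nil .nil))) 
(.lf (nat_lit 111215) (.g (nat_lit 920) (.e (nat_lit 5443) (nat_lit 306) (.e (nat_lit 2622) (nat_lit 164) (.e (nat_lit 172124) (nat_lit 14) (.e (nat_lit 491549) (nat_lit 9) .nil)))) .nil)))) (.nd (nat_lit 5) (.nd (nat_lit 6) 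
(.lf (nat_lit 111135) (.g (nat_lit 2246) (.e (nat_lit 5413) (nat_lit 303) (.e (nat_lit 73754) (nat_lit 8) (.e (nat_lit 557085) (nat_lit 11) (.e (nat_lit 24641) (nat_lit 10) (.e (nat_lit 344115) (nat_lit 20) .nil))))) .nil)) 
(.lf (nat_lit 111199) (.g (nat_lit 1113) (.e (nat_lit 5426) (nat_lit 305) (.e (nat_lit 131091) (nat_lit 2) (.e (nat_lit 90185) (nat_lit 17) (.e (nat_lit 237585) (nat_lit 1) .nil)))) .nil))) (.nd (nat_lit 6) 
(.lf (nat_lit 111167) (.g (nat_lit 2548) (.e (nat_lit 5413) (nat_lit 303) (.e (nat_lit 73775) (nat_lit 26) (.e (nat_lit 778466) (nat_lit 11) (.e (nat_lit 24632) (nat_lit 9) (.e (nat_lit 336363) (nat_lit 26) (.e (nat_lit 417796) (nat_lit 0) .nil)))))) (.g (nat_lit 0) .nil .nil))) 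
(.lf (nat_lit 111231) (.g (nat_lit 2004) (.e (nat_lit 5448) (nat_lit 306) (.e (nat_lit 2612) (nat_lit 163) (.e (nat_lit 163978) (nat_lit 30) (.e (nat_lit 573491) (nat_lit 15) .nil)))) .nil)))))))))

noncomputable def tv1501 : DT := (.nd (nat_lit 0) (.nd (nat_lit 1) (.nd (nat_lit 2) (.nd (nat_lit 3) (.nd (nat_lit 4) (.nd (nat_lit 5) (.nd (nat_lit 6) 
(.lf (nat_lit 111232) (.g (nat_lit 2066) (.e (nat_lit 5448) (nat_lit 306) (.e (nat_lit 2612) (nat_lit 163) (.e (nat_lit 163979) (nat_lit 30) (.e (nat_lit 573482) (nat_lit 13) (.e (nat_lit 65604) (nat_lit 9) .nil))))) .nil)) 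
(.lf (nat_lit 111296) (.g (nat_lit 1899) (.e (nat_lit 5546) (nat_lit 306) (.e (nat_lit 2629) (nat_lit 164) (.e (nat_lit 172126) (nat_lit 14) (.e (nat_lit 491547) (nat_lit 9) (.e (nat_lit 336434) (nat_lit 30) .nil))))) .nil))) (.nd (nat_lit 6) 
(.lf (nat_lit 111264) (.g (nat_lit 193) (.e (nat_lit 5537) (nat_lit 306) (.e (nat_lit 1077) (nat_lit 81) (.e (nat_lit 1250) (nat_lit 92) .nil))) .nil)) 
(.lf (nat_lit 111328) (.g (nat_lit 447) (.e (nat_lit 5547) (nat_lit 306) (.e (nat_lit 2650) (nat_lit 166) (.e (nat_lit 188419) (nat_lit 0) .nil))) .nil)))) (.nd (nat_lit 5) (.nd (nat_lit 6) 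
(.lf (nat_lit 111248) (.g (nat_lit 541) (.e (nat_lit 5448) (nat_lit 306) (.e (nat_lit 2725) (nat_lit 172) (.e (nat_lit 237625) (nat_lit 14) .nil))) .nil)) 
(.lf (nat_lit 111312) (.g (nat_lit 1931) (.e (nat_lit 5547) (nat_lit 306) (.e (nat_lit 2619) (nat_lit 164) (.e (nat_lit 172126) (nat_lit 14) (.e (nat_lit 491550) (nat_lit 9) (.e (nat_lit 336434) (nat_lit 30) .nil))))) .nil))) (.nd (nat_lit 6) 
(.lf (nat_lit 111280) (.g (nat_lit 578) (.e (nat_lit 5543) (nat_lit 306) (.e (nat_lit 2640) (nat_lit 165) (.e (nat_lit 180277) (nat_lit 32) (.e (nat_lit 1426) (nat_lit 108) .nil)))) .nil)) 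
(.lf (nat_lit 111344) (.g (nat_lit 2349) (.e (nat_lit 5548) (nat_lit 306) (.e (nat_lit 2638) (nat_lit 165) (.e (nat_lit 180277) (nat_lit 32) (.e (nat_lit 1661) (nat_lit 115) (.e (nat_lit 393282) (nat_lit 24) (.e (nat_lit 434212) (nat_lit 18) .nil)))))) (.g (nat_lit 4) .nil .nil)))))) (.nd (nat_lit 4) (.nd (nat_lit 5) (.nd (nat_lit 6) 
(.lf (nat_lit 111240) (.g (nat_lit 638) (.e (nat_lit 5448) (nat_lit 306) (.e (nat_lit 2651) (nat_lit 166) (.e (nat_lit 188418) (nat_lit 0) .nil))) .nil)) 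
(.lf (nat_lit 111304) (.g (nat_lit 2478) (.e (nat_lit 5546) (nat_lit 306) (.e (nat_lit 2640) (nat_lit 165) (.e (nat_lit 180227) (nat_lit 0) (.e (nat_lit 6421) (nat_lit 341) (.e (nat_lit 171776) (nat_lit 66) (.e (nat_lit 114714) (nat_lit 22) (.e (nat_lit 90172) (nat_lit 14) (.e (nat_lit 180229) (nat_lit 0) .nil)))))))) (.g (nat_lit 4) .nil .nil)))) (.nd (nat_lit 6) 
(.lf (nat_lit 111272) (.g (nat_lit 2079) (.e (nat_lit 5543) (nat_lit 306) (.e (nat_lit 2619) (nat_lit 164) (.e (nat_lit 172126) (nat_lit 14) (.e (nat_lit 491550) (nat_lit 9) (.e (nat_lit 336434) (nat_lit 30) .nil))))) .nil)) 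
(.lf (nat_lit 111336) (.g (nat_lit 1844) (.e (nat_lit 5548) (nat_lit 306) (.e (nat_lit 2618) (nat_lit 164) (.e (nat_lit 172126) (nat_lit 14) (.e (nat_lit 491550) (nat_lit 9) (.e (nat_lit 336434) (nat_lit 30) .nil))))) .nil)))) (.nd (nat_lit 5) (.nd (nat_lit 6) 
(.lf (nat_lit 111256) (.g (nat_lit 2003) (.e (nat_lit 5481) (nat_lit 306) (.e (nat_lit 1122) (nat_lit 83) (.e (nat_lit 16448) (nat_lit 10) (.e (nat_lit 434268) (nat_lit 36) (.e (nat_lit 639005) (nat_lit 13) .nil))))) .nil)) 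
(.lf (nat_lit 111320) (.g (nat_lit 484) (.e (nat_lit 5547) (nat_lit 306) (.e (nat_lit 2638) (nat_lit 165) (.e (nat_lit 188160) (nat_lit 32) .nil))) .nil))) (.nd (nat_lit 6) 
(.lf (nat_lit 111288) (.g (nat_lit 2148) (.e (nat_lit 5546) (nat_lit 306) (.e (nat_lit 2599) (nat_lit 163) (.e (nat_lit 163979) (nat_lit 30) (.e (nat_lit 573451) (nat_lit 9) (.e (nat_lit 1595) (nat_lit 111) .nil))))) .nil)) 
(.lf (nat_lit 111352) (.g (nat_lit 1308) (.e (nat_lit 7936) (nat_lit 306) (.e (nat_lit 2625) (nat_lit 164) (.e (nat_lit 172120) (nat_lit 12) (.e (nat_lit 475207) (nat_lit 41) .nil)))) .nil)))))) (.nd (nat_lit 3) (.nd (nat_lit 4) (.nd (nat_lit 5) (.nd (nat_lit 6) 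
(.lf (nat_lit 111236) (.g (nat_lit 1681) (.e (nat_lit 5448) (nat_lit 306) (.e (nat_lit 2622) (nat_lit 164) (.e (nat_lit 172124) (nat_lit 14) (.e (nat_lit 491550) (nat_lit 9) (.e (nat_lit 336432) (nat_lit 30) .nil))))) .nil)) 
(.lf (nat_lit 111300) (.g (nat_lit 1604) (.e (nat_lit 5546) (nat_lit 306) (.e (nat_lit 2638) (nat_lit 165) (.e (nat_lit 180277) (nat_lit 32) (.e (nat_lit 1660) (nat_lit 115) (.e (nat_lit 393284) (nat_lit 24) .nil))))) .nil))) (.nd (nat_lit 6) 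
(.lf (nat_lit 111268) (.g (nat_lit 1747) (.e (nat_lit 5539) (nat_lit 306) (.e (nat_lit 2625) (nat_lit 164) (.e (nat_lit 172120) (nat_lit 12) (.e (nat_lit 475207) (nat_lit 41) (.e (nat_lit 712755) (nat_lit 30) .nil))))) .nil)) 
(.lf (nat_lit 111332) (.g (nat_lit 1916) (.e (nat_lit 5548) (nat_lit 306) (.e (nat_lit 2610) (nat_lit 163) (.e (nat_lit 163977) (nat_lit 30) (.e (nat_lit 573479) (nat_lit 13) (.e (nat_lit 65619) (nat_lit 10) .nil))))) .nil)))) (.nd (nat_lit 5) (.nd (nat_lit 6) 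
(.lf (nat_lit 111252) (.g (nat_lit 3080) (.e (nat_lit 5456) (nat_lit 306) (.e (nat_lit 1183) (nat_lit 87) (.e (nat_lit 57575) (nat_lit 55) (.e (nat_lit 778362) (nat_lit 9) (.e (nat_lit 232) (nat_lit 21) (.e (nat_lit 336060) (nat_lit 7) (.e (nat_lit 319534) (nat_lit 16) (.e (nat_lit 286756) (nat_lit 10) (.e (nat_lit 344088) (nat_lit 18) .nil))))))))) (.g (nat_lit 5) .nil .nil))) 
(.lf (nat_lit 111316) (.g (nat_lit 1883) (.e (nat_lit 5547) (nat_lit 306) (.e (nat_lit 2629) (nat_lit 164) (.e (nat_lit 172126) (nat_lit 14) (.e (nat_lit 491550) (nat_lit 9) (.e (nat_lit 336434) (nat_lit 30) .nil))))) .nil))) (.nd (nat_lit 6) 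
(.lf (nat_lit 111284) (.g (nat_lit 1159) (.e (nat_lit 5543) (nat_lit 306) (.e (nat_lit 2640) (nat_lit 165) (.e (nat_lit 180277) (nat_lit 32) (.e (nat_lit 1428) (nat_lit 108) (.e (nat_lit 336434) (nat_lit 30) .nil))))) .nil)) 
(.lf (nat_lit 111348) (.g (nat_lit 1928) (.e (nat_lit 5550) (nat_lit 306) (.e (nat_lit 2629) (nat_lit 164) (.e (nat_lit 172124) (nat_lit 14) (.e (nat_lit 491549) (nat_lit 9) (.e (nat_lit 336432) (nat_lit 30) .nil))))) .nil))))) (.nd (nat_lit 4) (.nd (nat_lit 5) (.nd (nat_lit 6) 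
(.lf (nat_lit 111244) (.g (nat_lit 939) (.e (nat_lit 5448) (nat_lit 306) (.e (nat_lit 2653) (nat_lit 166) (.e (nat_lit 188418) (nat_lit 0) (.e (nat_lit 2160) (nat_lit 143) (.e (nat_lit 712753) (nat_lit 30) .nil))))) .nil)) 
(.lf (nat_lit 111308) (.g (nat_lit 690) (.e (nat_lit 5546) (nat_lit 306) (.e (nat_lit 2650) (nat_lit 166) (.e (nat_lit 188418) (nat_lit 0) (.e (nat_lit 2174) (nat_lit 143) .nil)))) .nil))) (.nd (nat_lit 6) 
(.lf (nat_lit 111276) (.g (nat_lit 2204) (.e (nat_lit 5543) (nat_lit 306) (.e (nat_lit 2638) (nat_lit 165) (.e (nat_lit 180278) (nat_lit 32) (.e (nat_lit 1427) (nat_lit 108) (.e (nat_lit 336434) (nat_lit 30) (.e (nat_lit 458496) (nat_lit 0) .nil)))))) (.g (nat_lit 5) .nil .nil))) 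
(.lf (nat_lit 111340) (.g (nat_lit 2075) (.e (nat_lit 5548) (nat_lit 306) (.e (nat_lit 2628) (nat_lit 164) (.e (nat_lit 172126) (nat_lit 14) (.e (nat_lit 491568) (nat_lit 13) (.e (nat_lit 393282) (nat_lit 24) .nil))))) .nil)))) (.nd (nat_lit 5) (.nd (nat_lit 6) 
(.lf (nat_lit 111260) (.g (nat_lit 1157) (.e (nat_lit 5499) (nat_lit 306) (.e (nat_lit 2638) (nat_lit 165) (.e (nat_lit 180278) (nat_lit 32) (.e (nat_lit 1660) (nat_lit 115) .nil)))) .nil)) 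
(.lf (nat_lit 111324) (.g (nat_lit 234) (.e (nat_lit 5547) (nat_lit 306) (.e (nat_lit 2640) (nat_lit 165) (.e (nat_lit 188160) (nat_lit 32) .nil))) .nil))) (.nd (nat_lit 6) 
(.lf (nat_lit 111292) (.g (nat_lit 2082) (.e (nat_lit 5546) (nat_lit 306) (.e (nat_lit 2619) (nat_lit 164) (.e (nat_lit 172126) (nat_lit 14) (.e (nat_lit 491550) (nat_lit 9) (.e (nat_lit 336434) (nat_lit 30) .nil))))) .nil)) 
(.lf (nat_lit 111356) (.g (nat_lit 1196) (.e (nat_lit 7936) (nat_lit 306) (.e (nat_lit 2651) (nat_lit 166) (.e (nat_lit 188420) (nat_lit 0) (.e (nat_lit 2175) (nat_lit 143) (.e (nat_lit 712755) (nat_lit 30) .nil))))) .nil))))))) (.nd (nat_lit 2) (.nd (nat_lit 3) (.nd (nat_lit 4) (.nd (nat_lit 5) (.nd (nat_lit 6) 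
(.lf (nat_lit 111234) (.g (nat_lit 714) (.e (nat_lit 5448) (nat_lit 306) (.e (nat_lit 2612) (nat_lit 163) (.e (nat_lit 164208) (nat_lit 176) (.e (nat_lit 2584) (nat_lit 161) .nil)))) .nil)) 
(.lf (nat_lit 111298) (.g (nat_lit 2004) (.e (nat_lit 5546) (nat_lit 306) (.e (nat_lit 2629) (nat_lit 164) (.e (nat_lit 172126) (nat_lit 14) (.e (nat_lit 491550) (nat_lit 9) (.e (nat_lit 336434) (nat_lit 30) .nil))))) .nil))) (.nd (nat_lit 6) 
(.lf (nat_lit 111266) (.g (nat_lit 1580) (.e (nat_lit 5537) (nat_lit 306) (.e (nat_lit 2619) (nat_lit 164) (.e (nat_lit 172124) (nat_lit 14) (.e (nat_lit 491549) (nat_lit 9) (.e (nat_lit 336432) (nat_lit 30) .nil))))) .nil)) 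
(.lf (nat_lit 111330) (.g (nat_lit 2522) (.e (nat_lit 5547) (nat_lit 306) (.e (nat_lit 2650) (nat_lit 166) (.e (nat_lit 188419) (nat_lit 0) (.e (nat_lit 2160) (nat_lit 143) (.e (nat_lit 712755) (nat_lit 30) (.e (nat_lit 458496) (nat_lit 0) .nil)))))) (.g (nat_lit 5) .nil .nil))))) (.nd (nat_lit 5) (.nd (nat_lit 6) 
(.lf (nat_lit 111250) (.g (nat_lit 2027) (.e (nat_lit 5455) (nat_lit 306) (.e (nat_lit 1124) (nat_lit 83) (.e (nat_lit 16448) (nat_lit 10) (.e (nat_lit 434268) (nat_lit 36) (.e (nat_lit 639005) (nat_lit 13) .nil))))) .nil)) 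
(.lf (nat_lit 111314) (.g (nat_lit 1854) (.e (nat_lit 5547) (nat_lit 306) (.e (nat_lit 2628) (nat_lit 164) (.e (nat_lit 172126) (nat_lit 14) (.e (nat_lit 491547) (nat_lit 9) (.e (nat_lit 336432) (nat_lit 30) .nil))))) .nil))) (.nd (nat_lit 6) 
(.lf (nat_lit 111282) (.g (nat_lit 1365) (.e (nat_lit 5543) (nat_lit 306) (.e (nat_lit 2640) (nat_lit 165) (.e (nat_lit 180277) (nat_lit 32) (.e (nat_lit 1427) (nat_lit 108) (.e (nat_lit 336434) (nat_lit 30) .nil))))) .nil)) 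
(.lf (nat_lit 111346) (.g (nat_lit 1635) (.e (nat_lit 5548) (nat_lit 306) (.e (nat_lit 2640) (nat_lit 165) (.e (nat_lit 180277) (nat_lit 32) (.e (nat_lit 1661) (nat_lit 115) (.e (nat_lit 393285) (nat_lit 25) .nil))))) .nil))))) (.nd (nat_lit 4) (.nd (nat_lit 5) (.nd (nat_lit 6) 
(.lf (nat_lit 111242) (.g (nat_lit 1292) (.e (nat_lit 5448) (nat_lit 306) (.e (nat_lit 2651) (nat_lit 166) (.e (nat_lit 188418) (nat_lit 0) (.e (nat_lit 2175) (nat_lit 143) (.e (nat_lit 712755) (nat_lit 30) .nil))))) .nil)) 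
(.lf (nat_lit 111306) (.g (nat_lit 1802) (.e (nat_lit 5546) (nat_lit 306) (.e (nat_lit 2640) (nat_lit 165) (.e (nat_lit 180278) (nat_lit 32) (.e (nat_lit 1427) (nat_lit 108) (.e (nat_lit 336434) (nat_lit 30) (.e (nat_lit 458496) (nat_lit 0) .nil)))))) (.g (nat_lit 4) .nil .nil)))) (.nd (nat_lit 6) 
(.lf (nat_lit 111274) (.g (nat_lit 1031) (.e (nat_lit 5543) (nat_lit 306) (.e (nat_lit 2638) (nat_lit 165) (.e (nat_lit 180277) (nat_lit 32) (.e (nat_lit 1425) (nat_lit 108) .nil)))) .nil)) 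
(.lf (nat_lit 111338) (.g (nat_lit 2019) (.e (nat_lit 5548) (nat_lit 306) (.e (nat_lit 2619) (nat_lit 164) (.e (nat_lit 172124) (nat_lit 14) (.e (nat_lit 491547) (nat_lit 9) (.e (nat_lit 336432) (nat_lit 30) .nil))))) .nil)))) (.nd (nat_lit 5) (.nd (nat_lit 6) 
(.lf (nat_lit 111258) (.g (nat_lit 2045) (.e (nat_lit 5484) (nat_lit 306) (.e (nat_lit 1122) (nat_lit 83) (.e (nat_lit 16448) (nat_lit 10) (.e (nat_lit 434268) (nat_lit 36) (.e (nat_lit 639005) (nat_lit 13) .nil))))) .nil)) 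
(.lf (nat_lit 111322) (.g (nat_lit 1018) (.e (nat_lit 5547) (nat_lit 306) (.e (nat_lit 2640) (nat_lit 165) (.e (nat_lit 180278) (nat_lit 32) (.e (nat_lit 1426) (nat_lit 108) (.e (nat_lit 336432) (nat_lit 30) .nil))))) .nil))) (.nd (nat_lit 6) 
(.lf (nat_lit 111290) (.g (nat_lit 1698) (.e (nat_lit 5546) (nat_lit 306) (.e (nat_lit 2619) (nat_lit 164) (.e (nat_lit 172120) (nat_lit 12) (.e (nat_lit 475207) (nat_lit 41) .nil)))) .nil)) 
(.lf (nat_lit 111354) (.g (nat_lit 964) (.e (nat_lit 7936) (nat_lit 306) (.e (nat_lit 2651) (nat_lit 166) (.e (nat_lit 188420) (nat_lit 0) (.e (nat_lit 2160) (nat_lit 143) .nil)))) .nil)))))) (.nd (nat_lit 3) (.nd (nat_lit 4) (.nd (nat_lit 5) (.nd (nat_lit 6) 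
(.lf (nat_lit 111238) (.g (nat_lit 1362) (.e (nat_lit 5448) (nat_lit 306) (.e (nat_lit 2641) (nat_lit 165) (.e (nat_lit 180229) (nat_lit 0) (.e (nat_lit 6410) (nat_lit 340) (.e (nat_lit 122913) (nat_lit 13) .nil))))) .nil)) 
(.lf (nat_lit 111302) (.g (nat_lit 2420) (.e (nat_lit 5546) (nat_lit 306) (.e (nat_lit 2638) (nat_lit 165) (.e (nat_lit 180278) (nat_lit 32) (.e (nat_lit 1427) (nat_lit 108) (.e (nat_lit 336434) (nat_lit 30) (.e (nat_lit 458496) (nat_lit 0) .nil)))))) (.g (nat_lit 5) .nil .nil)))) (.nd (nat_lit 6) 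
(.lf (nat_lit 111270) (.g (nat_lit 1905) (.e (nat_lit 5543) (nat_lit 306) (.e (nat_lit 2619) (nat_lit 164) (.e (nat_lit 172126) (nat_lit 14) (.e (nat_lit 491549) (nat_lit 9) (.e (nat_lit 336432) (nat_lit 30) .nil))))) .nil)) 
(.lf (nat_lit 111334) (.g (nat_lit 1855) (.e (nat_lit 5548) (nat_lit 306) (.e (nat_lit 2610) (nat_lit 163) (.e (nat_lit 163979) (nat_lit 30) (.e (nat_lit 573497) (nat_lit 17) .nil)))) .nil)))) (.nd (nat_lit 5) (.nd (nat_lit 6) 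
(.lf (nat_lit 111254) (.g (nat_lit 2045) (.e (nat_lit 5478) (nat_lit 306) (.e (nat_lit 1122) (nat_lit 83) (.e (nat_lit 16448) (nat_lit 10) (.e (nat_lit 434268) (nat_lit 36) (.e (nat_lit 639005) (nat_lit 13) .nil))))) .nil)) 
(.lf (nat_lit 111318) (.g (nat_lit 2412) (.e (nat_lit 5547) (nat_lit 306) (.e (nat_lit 2638) (nat_lit 165) (.e (nat_lit 180278) (nat_lit 32) (.e (nat_lit 1427) (nat_lit 108) (.e (nat_lit 336432) (nat_lit 30) (.e (nat_lit 458496) (nat_lit 0) .nil)))))) (.g (nat_lit 5) .nil .nil)))) (.nd (nat_lit 6) 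
(.lf (nat_lit 111286) (.g (nat_lit 1719) (.e (nat_lit 5545) (nat_lit 306) (.e (nat_lit 2638) (nat_lit 165) (.e (nat_lit 180277) (nat_lit 32) (.e (nat_lit 1660) (nat_lit 115) (.e (nat_lit 393284) (nat_lit 24) .nil))))) .nil)) 
(.lf (nat_lit 111350) (.g (nat_lit 1716) (.e (nat_lit 5550) (nat_lit 306) (.e (nat_lit 2629) (nat_lit 164) (.e (nat_lit 172126) (nat_lit 14) (.e (nat_lit 491549) (nat_lit 9) (.e (nat_lit 336432) (nat_lit 30) .nil))))) .nil))))) (.nd (nat_lit 4) (.nd (nat_lit 5) (.nd (nat_lit 6) 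
(.lf (nat_lit 111246) (.g (nat_lit 577) (.e (nat_lit 5448) (nat_lit 306) (.e (nat_lit 2725) (nat_lit 172) (.e (nat_lit 237585) (nat_lit 1) .nil))) .nil)) 
(.lf (nat_lit 111310) (.g (nat_lit 2112) (.e (nat_lit 5547) (nat_lit 306) (.e (nat_lit 2610) (nat_lit 163) (.e (nat_lit 163978) (nat_lit 30) (.e (nat_lit 573484) (nat_lit 13) (.e (nat_lit 65610) (nat_lit 10) .nil))))) .nil))) (.nd (nat_lit 6) 
(.lf (nat_lit 111278) (.g (nat_lit 692) (.e (nat_lit 5543) (nat_lit 306) (.e (nat_lit 2639) (nat_lit 165) (.e (nat_lit 180277) (nat_lit 32) (.e (nat_lit 1426) (nat_lit 108) (.e (nat_lit 336434) (nat_lit 30) .nil))))) .nil)) 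
(.lf (nat_lit 111342) (.g (nat_lit 2007) (.e (nat_lit 5548) (nat_lit 306) (.e (nat_lit 2629) (nat_lit 164) (.e (nat_lit 172124) (nat_lit 14) (.e (nat_lit 491547) (nat_lit 9) (.e (nat_lit 336432) (nat_lit 30) .nil))))) .nil)))) (.nd (nat_lit 5) (.nd (nat_lit 6) 
(.lf (nat_lit 111262) (.g (nat_lit 2207) (.e (nat_lit 5533) (nat_lit 306) (.e (nat_lit 1126) (nat_lit 83) (.e (nat_lit 16448) (nat_lit 10) (.e (nat_lit 434268) (nat_lit 36) (.e (nat_lit 639007) (nat_lit 13) .nil))))) .nil)) 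
(.lf (nat_lit 111326) (.g (nat_lit 2022) (.e (nat_lit 5547) (nat_lit 306) (.e (nat_lit 2648) (nat_lit 166) (.e (nat_lit 188420) (nat_lit 0) (.e (nat_lit 2175) (nat_lit 143) (.e (nat_lit 712755) (nat_lit 30) (.e (nat_lit 458496) (nat_lit 0) .nil)))))) (.g (nat_lit 5) .nil .nil)))) (.nd (nat_lit 6) 
(.lf (nat_lit 111294) (.g (nat_lit 1653) (.e (nat_lit 5546) (nat_lit 306) (.e (nat_lit 2628) (nat_lit 164) (.e (nat_lit 172126) (nat_lit 14) (.e (nat_lit 491550) (nat_lit 9) (.e (nat_lit 336432) (nat_lit 30) .nil))))) .nil)) 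
(.lf (nat_lit 111358) (.g (nat_lit 2772) (.e (nat_lit 5557) (nat_lit 307) (.e (nat_lit 8305) (nat_lit 58) (.e (nat_lit 286759) (nat_lit 12) (.e (nat_lit 385106) (nat_lit 50) (.e (nat_lit 786483) (nat_lit 30) (.e (nat_lit 360451) (nat_lit 0) .nil)))))) (.g (nat_lit 0) .nil .nil))))))))) (.nd (nat_lit 1) (.nd (nat_lit 2) (.nd (nat_lit 3) (.nd (nat_lit 4) (.nd (nat_lit 5) (.nd (nat_lit 6) 
(.lf (nat_lit 111233) (.g (nat_lit 3260) (.e (nat_lit 5448) (nat_lit 306) (.e (nat_lit 2612) (nat_lit 163) (.e (nat_lit 163979) (nat_lit 30) (.e (nat_lit 573492) (nat_lit 15) (.e (nat_lit 81951) (nat_lit 22) .nil))))) .nil)) 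
(.lf (nat_lit 111297) (.g (nat_lit 2007) (.e (nat_lit 5546) (nat_lit 306) (.e (nat_lit 2629) (nat_lit 164) (.e (nat_lit 172126) (nat_lit 14) (.e (nat_lit 491550) (nat_lit 9) (.e (nat_lit 336432) (nat_lit 30) .nil))))) .nil))) (.nd (nat_lit 6) 
(.lf (nat_lit 111265) (.g (nat_lit 1565) (.e (nat_lit 5537) (nat_lit 306) (.e (nat_lit 2619) (nat_lit 164) (.e (nat_lit 172120) (nat_lit 12) (.e (nat_lit 475207) (nat_lit 41) .nil)))) .nil)) 
(.lf (nat_lit 111329) (.g (nat_lit 2235) (.e (nat_lit 5547) (nat_lit 306) (.e (nat_lit 2650) (nat_lit 166) (.e (nat_lit 188419) (nat_lit 0) (.e (nat_lit 2160) (nat_lit 143) (.e (nat_lit 712753) (nat_lit 30) (.e (nat_lit 458496) (nat_lit 0) .nil)))))) (.g (nat_lit 5) .nil .nil))))) (.nd (nat_lit 5) (.nd (nat_lit 6) 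
(.lf (nat_lit 111249) (.g (nat_lit 1399) (.e (nat_lit 5454) (nat_lit 306) (.e (nat_lit 1129) (nat_lit 83) (.e (nat_lit 16473) (nat_lit 14) (.e (nat_lit 491560) (nat_lit 10) .nil)))) .nil)) 
(.lf (nat_lit 111313) (.g (nat_lit 2222) (.e (nat_lit 5547) (nat_lit 306) (.e (nat_lit 2628) (nat_lit 164) (.e (nat_lit 172124) (nat_lit 14) (.e (nat_lit 491568) (nat_lit 13) (.e (nat_lit 393283) (nat_lit 24) .nil))))) .nil))) (.nd (nat_lit 6) 
(.lf (nat_lit 111281) (.g (nat_lit 1308) (.e (nat_lit 5543) (nat_lit 306) (.e (nat_lit 2640) (nat_lit 165) (.e (nat_lit 180277) (nat_lit 32) (.e (nat_lit 1427) (nat_lit 108) (.e (nat_lit 336432) (nat_lit 30) .nil))))) .nil)) 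
(.lf (nat_lit 111345) (.g (nat_lit 1147) (.e (nat_lit 5548) (nat_lit 306) (.e (nat_lit 2638) (nat_lit 165) (.e (nat_lit 180278) (nat_lit 32) (.e (nat_lit 1413) (nat_lit 108) (.e (nat_lit 336434) (nat_lit 30) .nil))))) .nil))))) (.nd (nat_lit 4) (.nd (nat_lit 5) (.nd (nat_lit 6) 
(.lf (nat_lit 111241) (.g (nat_lit 875) (.e (nat_lit 5448) (nat_lit 306) (.e (nat_lit 2651) (nat_lit 166) (.e (nat_lit 188418) (nat_lit 0) (.e (nat_lit 2174) (nat_lit 143) .nil)))) .nil)) 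
(.lf (nat_lit 111305) (.g (nat_lit 1521) (.e (nat_lit 5546) (nat_lit 306) (.e (nat_lit 2640) (nat_lit 165) (.e (nat_lit 180278) (nat_lit 32) (.e (nat_lit 1427) (nat_lit 108) (.e (nat_lit 336421) (nat_lit 28) .nil))))) .nil))) (.nd (nat_lit 6) 
(.lf (nat_lit 111273) (.g (nat_lit 1984) (.e (nat_lit 5543) (nat_lit 306) (.e (nat_lit 2629) (nat_lit 164) (.e (nat_lit 172126) (nat_lit 14) (.e (nat_lit 491550) (nat_lit 9) (.e (nat_lit 336434) (nat_lit 30) .nil))))) .nil)) 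
(.lf (nat_lit 111337) (.g (nat_lit 1412) (.e (nat_lit 5548) (nat_lit 306) (.e (nat_lit 2619) (nat_lit 164) (.e (nat_lit 172120) (nat_lit 12) (.e (nat_lit 475207) (nat_lit 41) .nil)))) .nil)))) (.nd (nat_lit 5) (.nd (nat_lit 6) 
(.lf (nat_lit 111257) (.g (nat_lit 2045) (.e (nat_lit 5482) (nat_lit 306) (.e (nat_lit 1122) (nat_lit 83) (.e (nat_lit 16448) (nat_lit 10) (.e (nat_lit 434268) (nat_lit 36) (.e (nat_lit 639005) (nat_lit 13) .nil))))) .nil)) 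
(.lf (nat_lit 111321) (.g (nat_lit 767) (.e (nat_lit 5547) (nat_lit 306) (.e (nat_lit 2640) (nat_lit 165) (.e (nat_lit 180278) (nat_lit 32) (.e (nat_lit 1425) (nat_lit 108) .nil)))) .nil))) (.nd (nat_lit 6) 
(.lf (nat_lit 111289) (.g (nat_lit 2140) (.e (nat_lit 5546) (nat_lit 306) (.e (nat_lit 2610) (nat_lit 163) (.e (nat_lit 163979) (nat_lit 30) (.e (nat_lit 573451) (nat_lit 9) .nil)))) .nil)) 
(.lf (nat_lit 111353) (.g (nat_lit 2075) (.e (nat_lit 7936) (nat_lit 306) (.e (nat_lit 2630) (nat_lit 164) (.e (nat_lit 172120) (nat_lit 12) (.e (nat_lit 475210) (nat_lit 41) (.e (nat_lit 712755) (nat_lit 30) .nil))))) .nil)))))) (.nd (nat_lit 3) (.nd (nat_lit 4) (.nd (nat_lit 5) (.nd (nat_lit 6) 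
(.lf (nat_lit 111237) (.g (nat_lit 2221) (.e (nat_lit 5448) (nat_lit 306) (.e (nat_lit 2630) (nat_lit 164) (.e (nat_lit 172126) (nat_lit 14) (.e (nat_lit 491547) (nat_lit 9) (.e (nat_lit 336432) (nat_lit 30) .nil))))) .nil)) 
(.lf (nat_lit 111301) (.g (nat_lit 2342) (.e (nat_lit 5546) (nat_lit 306) (.e (nat_lit 2638) (nat_lit 165) (.e (nat_lit 180278) (nat_lit 32) (.e (nat_lit 1427) (nat_lit 108) (.e (nat_lit 336432) (nat_lit 30) (.e (nat_lit 458496) (nat_lit 0) .nil)))))) (.g (nat_lit 5) .nil .nil)))) (.nd (nat_lit 6) 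
(.lf (nat_lit 111269) (.g (nat_lit 2183) (.e (nat_lit 5543) (nat_lit 306) (.e (nat_lit 2610) (nat_lit 163) (.e (nat_lit 163978) (nat_lit 30) (.e (nat_lit 573484) (nat_lit 13) (.e (nat_lit 65610) (nat_lit 10) .nil))))) .nil)) 
(.lf (nat_lit 111333) (.g (nat_lit 2508) (.e (nat_lit 5548) (nat_lit 306) (.e (nat_lit 2610) (nat_lit 163) (.e (nat_lit 163978) (nat_lit 30) (.e (nat_lit 573451) (nat_lit 9) .nil)))) .nil)))) (.nd (nat_lit 5) (.nd (nat_lit 6) 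
(.lf (nat_lit 111253) (.g (nat_lit 2045) (.e (nat_lit 5470) (nat_lit 306) (.e (nat_lit 1122) (nat_lit 83) (.e (nat_lit 16448) (nat_lit 10) (.e (nat_lit 434268) (nat_lit 36) (.e (nat_lit 639005) (nat_lit 13) .nil))))) .nil)) 
(.lf (nat_lit 111317) (.g (nat_lit 2448) (.e (nat_lit 5547) (nat_lit 306) (.e (nat_lit 2638) (nat_lit 165) (.e (nat_lit 180277) (nat_lit 32) (.e (nat_lit 1661) (nat_lit 115) (.e (nat_lit 393284) (nat_lit 24) (.e (nat_lit 434212) (nat_lit 18) .nil)))))) (.g (nat_lit 4) .nil .nil)))) (.nd (nat_lit 6) 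
(.lf (nat_lit 111285) (.g (nat_lit 534) (.e (nat_lit 5543) (nat_lit 306) (.e (nat_lit 2649) (nat_lit 166) (.e (nat_lit 188420) (nat_lit 0) .nil))) .nil)) 
(.lf (nat_lit 111349) (.g (nat_lit 2067) (.e (nat_lit 5550) (nat_lit 306) (.e (nat_lit 2629) (nat_lit 164) (.e (nat_lit 172124) (nat_lit 14) (.e (nat_lit 491549) (nat_lit 9) (.e (nat_lit 336434) (nat_lit 30) .nil))))) .nil))))) (.nd (nat_lit 4) (.nd (nat_lit 5) (.nd (nat_lit 6) 
(.lf (nat_lit 111245) (.g (nat_lit 577) (.e (nat_lit 5448) (nat_lit 306) (.e (nat_lit 2725) (nat_lit 172) (.e (nat_lit 237582) (nat_lit 1) .nil))) .nil)) 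
(.lf (nat_lit 111309) (.g (nat_lit 450) (.e (nat_lit 5546) (nat_lit 306) (.e (nat_lit 2650) (nat_lit 166) (.e (nat_lit 188420) (nat_lit 0) .nil))) .nil))) (.nd (nat_lit 6) 
(.lf (nat_lit 111277) (.g (nat_lit 433) (.e (nat_lit 5543) (nat_lit 306) (.e (nat_lit 2638) (nat_lit 165) (.e (nat_lit 188160) (nat_lit 32) .nil))) .nil)) 
(.lf (nat_lit 111341) (.g (nat_lit 959) (.e (nat_lit 5548) (nat_lit 306) (.e (nat_lit 2629) (nat_lit 164) (.e (nat_lit 172119) (nat_lit 12) (.e (nat_lit 475207) (nat_lit 41) .nil)))) .nil)))) (.nd (nat_lit 5) (.nd (nat_lit 6) 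
(.lf (nat_lit 111261) (.g (nat_lit 1724) (.e (nat_lit 5531) (nat_lit 306) (.e (nat_lit 2625) (nat_lit 164) (.e (nat_lit 172120) (nat_lit 12) (.e (nat_lit 475207) (nat_lit 41) (.e (nat_lit 712755) (nat_lit 30) .nil))))) .nil)) 
(.lf (nat_lit 111325) (.g (nat_lit 1615) (.e (nat_lit 5547) (nat_lit 306) (.e (nat_lit 2648) (nat_lit 166) (.e (nat_lit 188420) (nat_lit 0) (.e (nat_lit 2175) (nat_lit 143) (.e (nat_lit 712753) (nat_lit 30) (.e (nat_lit 458496) (nat_lit 0) .nil)))))) (.g (nat_lit 5) .nil .nil)))) (.nd (nat_lit 6) 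
(.lf (nat_lit 111293) (.g (nat_lit 1917) (.e (nat_lit 5546) (nat_lit 306) (.e (nat_lit 2628) (nat_lit 164) (.e (nat_lit 172126) (nat_lit 14) (.e (nat_lit 491547) (nat_lit 9) (.e (nat_lit 336434) (nat_lit 30) .nil))))) .nil)) 
(.lf (nat_lit 111357) (.g (nat_lit 767) (.e (nat_lit 7936) (nat_lit 306) (.e (nat_lit 2653) (nat_lit 166) (.e (nat_lit 188418) (nat_lit 0) (.e (nat_lit 2172) (nat_lit 143) .nil)))) .nil))))))) (.nd (nat_lit 2) (.nd (nat_lit 3) (.nd (nat_lit 4) (.nd (nat_lit 5) (.nd (nat_lit 6) 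
(.lf (nat_lit 111235) (.g (nat_lit 1336) (.e (nat_lit 5448) (nat_lit 306) (.e (nat_lit 2622) (nat_lit 164) (.e (nat_lit 172119) (nat_lit 12) (.e (nat_lit 475211) (nat_lit 41) (.e (nat_lit 712753) (nat_lit 30) .nil))))) .nil)) 
(.lf (nat_lit 111299) (.g (nat_lit 935) (.e (nat_lit 5546) (nat_lit 306) (.e (nat_lit 2638) (nat_lit 165) (.e (nat_lit 180277) (nat_lit 32) (.e (nat_lit 1660) (nat_lit 115) .nil)))) .nil))) (.nd (nat_lit 6) 
(.lf (nat_lit 111267) (.g (nat_lit 1341) (.e (nat_lit 5537) (nat_lit 306) (.e (nat_lit 2629) (nat_lit 164) (.e (nat_lit 172118) (nat_lit 12) (.e (nat_lit 475207) (nat_lit 41) (.e (nat_lit 712755) (nat_lit 30) .nil))))) .nil)) 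
(.lf (nat_lit 111331) (.g (nat_lit 1937) (.e (nat_lit 5548) (nat_lit 306) (.e (nat_lit 2601) (nat_lit 163) (.e (nat_lit 163979) (nat_lit 30) (.e (nat_lit 573451) (nat_lit 9) (.e (nat_lit 1595) (nat_lit 111) .nil))))) .nil)))) (.nd (nat_lit 5) (.nd (nat_lit 6) 
(.lf (nat_lit 111251) (.g (nat_lit 2171) (.e (nat_lit 5455) (nat_lit 306) (.e (nat_lit 1124) (nat_lit 83) (.e (nat_lit 16448) (nat_lit 10) (.e (nat_lit 434268) (nat_lit 36) (.e (nat_lit 639007) (nat_lit 13) .nil))))) .nil)) 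
(.lf (nat_lit 111315) (.g (nat_lit 2192) (.e (nat_lit 5547) (nat_lit 306) (.e (nat_lit 2628) (nat_lit 164) (.e (nat_lit 172126) (nat_lit 14) (.e (nat_lit 491568) (nat_lit 13) (.e (nat_lit 393282) (nat_lit 24) .nil))))) .nil))) (.nd (nat_lit 6) 
(.lf (nat_lit 111283) (.g (nat_lit 1134) (.e (nat_lit 5543) (nat_lit 306) (.e (nat_lit 2640) (nat_lit 165) (.e (nat_lit 180277) (nat_lit 32) (.e (nat_lit 1428) (nat_lit 108) (.e (nat_lit 336432) (nat_lit 30) .nil))))) .nil)) 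
(.lf (nat_lit 111347) (.g (nat_lit 1076) (.e (nat_lit 5550) (nat_lit 306) (.e (nat_lit 2619) (nat_lit 164) (.e (nat_lit 172124) (nat_lit 14) (.e (nat_lit 491549) (nat_lit 9) .nil)))) .nil))))) (.nd (nat_lit 4) (.nd (nat_lit 5) (.nd (nat_lit 6) 
(.lf (nat_lit 111243) (.g (nat_lit 1210) (.e (nat_lit 5448) (nat_lit 306) (.e (nat_lit 2651) (nat_lit 166) (.e (nat_lit 188420) (nat_lit 0) (.e (nat_lit 2160) (nat_lit 143) (.e (nat_lit 712753) (nat_lit 30) .nil))))) .nil)) 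
(.lf (nat_lit 111307) (.g (nat_lit 450) (.e (nat_lit 5546) (nat_lit 306) (.e (nat_lit 2650) (nat_lit 166) (.e (nat_lit 188418) (nat_lit 0) .nil))) .nil))) (.nd (nat_lit 6) 
(.lf (nat_lit 111275) (.g (nat_lit 2177) (.e (nat_lit 5543) (nat_lit 306) (.e (nat_lit 2638) (nat_lit 165) (.e (nat_lit 180278) (nat_lit 32) (.e (nat_lit 1427) (nat_lit 108) (.e (nat_lit 336432) (nat_lit 30) (.e (nat_lit 458496) (nat_lit 0) .nil)))))) (.g (nat_lit 5) .nil .nil))) 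
(.lf (nat_lit 111339) (.g (nat_lit 879) (.e (nat_lit 5548) (nat_lit 306) (.e (nat_lit 2628) (nat_lit 164) (.e (nat_lit 172118) (nat_lit 12) (.e (nat_lit 475207) (nat_lit 41) .nil)))) .nil)))) (.nd (nat_lit 5) (.nd (nat_lit 6) 
(.lf (nat_lit 111259) (.g (nat_lit 1897) (.e (nat_lit 5499) (nat_lit 306) (.e (nat_lit 2638) (nat_lit 165) (.e (nat_lit 180277) (nat_lit 32) (.e (nat_lit 1661) (nat_lit 115) (.e (nat_lit 393284) (nat_lit 24) .nil))))) .nil)) 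
(.lf (nat_lit 111323) (.g (nat_lit 1520) (.e (nat_lit 5547) (nat_lit 306) (.e (nat_lit 2640) (nat_lit 165) (.e (nat_lit 180278) (nat_lit 32) (.e (nat_lit 1661) (nat_lit 115) (.e (nat_lit 393288) (nat_lit 25) .nil))))) .nil))) (.nd (nat_lit 6) 
(.lf (nat_lit 111291) (.g (nat_lit 1544) (.e (nat_lit 5546) (nat_lit 306) (.e (nat_lit 2619) (nat_lit 164) (.e (nat_lit 172120) (nat_lit 12) (.e (nat_lit 475209) (nat_lit 41) .nil)))) .nil)) 
(.lf (nat_lit 111355) (.g (nat_lit 840) (.e (nat_lit 7936) (nat_lit 306) (.e (nat_lit 2651) (nat_lit 166) (.e (nat_lit 188420) (nat_lit 0) (.e (nat_lit 2174) (nat_lit 143) .nil)))) .nil)))))) (.nd (nat_lit 3) (.nd (nat_lit 4) (.nd (nat_lit 5) (.nd (nat_lit 6) 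
(.lf (nat_lit 111239) (.g (nat_lit 1230) (.e (nat_lit 5448) (nat_lit 306) (.e (nat_lit 2643) (nat_lit 165) (.e (nat_lit 180228) (nat_lit 0) (.e (nat_lit 6410) (nat_lit 340) .nil)))) .nil)) 
(.lf (nat_lit 111303) (.g (nat_lit 1034) (.e (nat_lit 5546) (nat_lit 306) (.e (nat_lit 2638) (nat_lit 165) (.e (nat_lit 180278) (nat_lit 32) (.e (nat_lit 1660) (nat_lit 115) .nil)))) .nil))) (.nd (nat_lit 6) 
(.lf (nat_lit 111271) (.g (nat_lit 2106) (.e (nat_lit 5543) (nat_lit 306) (.e (nat_lit 2619) (nat_lit 164) (.e (nat_lit 172126) (nat_lit 14) (.e (nat_lit 491550) (nat_lit 9) (.e (nat_lit 336432) (nat_lit 30) .nil))))) .nil)) 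
(.lf (nat_lit 111335) (.g (nat_lit 2264) (.e (nat_lit 5548) (nat_lit 306) (.e (nat_lit 2618) (nat_lit 164) (.e (nat_lit 172126) (nat_lit 14) (.e (nat_lit 491549) (nat_lit 9) (.e (nat_lit 336434) (nat_lit 30) .nil))))) .nil)))) (.nd (nat_lit 5) (.nd (nat_lit 6) 
(.lf (nat_lit 111255) (.g (nat_lit 2045) (.e (nat_lit 5480) (nat_lit 306) (.e (nat_lit 1122) (nat_lit 83) (.e (nat_lit 16448) (nat_lit 10) (.e (nat_lit 434268) (nat_lit 36) (.e (nat_lit 639005) (nat_lit 13) .nil))))) .nil)) 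
(.lf (nat_lit 111319) (.g (nat_lit 2231) (.e (nat_lit 5547) (nat_lit 306) (.e (nat_lit 2638) (nat_lit 165) (.e (nat_lit 180278) (nat_lit 32) (.e (nat_lit 1427) (nat_lit 108) (.e (nat_lit 336434) (nat_lit 30) (.e (nat_lit 458496) (nat_lit 0) .nil)))))) (.g (nat_lit 5) .nil .nil)))) (.nd (nat_lit 6) 
(.lf (nat_lit 111287) (.g (nat_lit 1761) (.e (nat_lit 5545) (nat_lit 306) (.e (nat_lit 2638) (nat_lit 165) (.e (nat_lit 180278) (nat_lit 32) (.e (nat_lit 1660) (nat_lit 115) (.e (nat_lit 393284) (nat_lit 24) .nil))))) .nil)) 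
(.lf (nat_lit 111351) (.g (nat_lit 663) (.e (nat_lit 5550) (nat_lit 306) (.e (nat_lit 2638) (nat_lit 165) (.e (nat_lit 180277) (nat_lit 32) .nil))) .nil))))) (.nd (nat_lit 4) (.nd (nat_lit 5) (.nd (nat_lit 6) 
(.lf (nat_lit 111247) (.g (nat_lit 1037) (.e (nat_lit 5448) (nat_lit 306) (.e (nat_lit 2725) (nat_lit 172) (.e (nat_lit 237603) (nat_lit 9) (.e (nat_lit 426402) (nat_lit 15) (.e (nat_lit 2162) (nat_lit 143) .nil))))) .nil)) 
(.lf (nat_lit 111311) (.g (nat_lit 1684) (.e (nat_lit 5547) (nat_lit 306) (.e (nat_lit 2619) (nat_lit 164) (.e (nat_lit 172124) (nat_lit 14) (.e (nat_lit 491549) (nat_lit 9) (.e (nat_lit 336432) (nat_lit 30) .nil))))) .nil))) (.nd (nat_lit 6) 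
(.lf (nat_lit 111279) (.g (nat_lit 553) (.e (nat_lit 5543) (nat_lit 306) (.e (nat_lit 2640) (nat_lit 165) (.e (nat_lit 180277) (nat_lit 32) (.e (nat_lit 1425) (nat_lit 108) .nil)))) .nil)) 
(.lf (nat_lit 111343) (.g (nat_lit 656) (.e (nat_lit 5548) (nat_lit 306) (.e (nat_lit 2638) (nat_lit 165) (.e (nat_lit 180268) (nat_lit 24) .nil))) .nil)))) (.nd (nat_lit 5) (.nd (nat_lit 6) 
(.lf (nat_lit 111263) (.g (nat_lit 1772) (.e (nat_lit 5533) (nat_lit 306) (.e (nat_lit 1126) (nat_lit 83) (.e (nat_lit 16448) (nat_lit 10) (.e (nat_lit 434268) (nat_lit 36) (.e (nat_lit 639020) (nat_lit 16) .nil))))) .nil)) 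
(.lf (nat_lit 111327) (.g (nat_lit 565) (.e (nat_lit 5547) (nat_lit 306) (.e (nat_lit 2650) (nat_lit 166) (.e (nat_lit 188418) (nat_lit 0) .nil))) .nil))) (.nd (nat_lit 6) 
(.lf (nat_lit 111295) (.g (nat_lit 1639) (.e (nat_lit 5546) (nat_lit 306) (.e (nat_lit 2628) (nat_lit 164) (.e (nat_lit 172126) (nat_lit 14) (.e (nat_lit 491550) (nat_lit 9) (.e (nat_lit 336434) (nat_lit 30) .nil))))) .nil)) 
(.lf (nat_lit 111359) (.g (nat_lit 2106) (.e (nat_lit 5565) (nat_lit 308) (.e (nat_lit 57375) (nat_lit 2) (.e (nat_lit 90160) (nat_lit 11) (.e (nat_lit 24638) (nat_lit 9) (.e (nat_lit 336012) (nat_lit 2) (.e (nat_lit 90172) (nat_lit 14) (.e (nat_lit 188160) (nat_lit 0) .nil))))))) (.g (nat_lit 4) .nil .nil))))))))))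

noncomputable def tv1502 : DT := (.nd (nat_lit 0) (.nd (nat_lit 1) (.nd (nat_lit 2) (.nd (nat_lit 3) (.nd (nat_lit 4) (.nd (nat_lit 5) (.nd (nat_lit 6) 
(.lf (nat_lit 111360) (.g (nat_lit 2667) (.e (nat_lit 5566) (nat_lit 308) (.e (nat_lit 57354) (nat_lit 0) (.e (nat_lit 2346) (nat_lit 151) (.e (nat_lit 778362) (nat_lit 9) (.e (nat_lit 232) (nat_lit 21) (.e (nat_lit 336060) (nat_lit 7) (.e (nat_lit 319534) (nat_lit 16) (.e (nat_lit 286756) (nat_lit 10) (.e (nat_lit 344088) (nat_lit 18) .nil))))))))) (.g (nat_lit 5) .nil .nil))) 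
(.lf (nat_lit 111424) (.g (nat_lit 4088) (.e (nat_lit 5571) (nat_lit 308) (.e (nat_lit 57377) (nat_lit 3) (.e (nat_lit 98317) (nat_lit 9) (.e (nat_lit 336184) (nat_lit 11) .nil)))) .nil))) (.nd (nat_lit 6) 
(.lf (nat_lit 111392) (.g (nat_lit 3596) (.e (nat_lit 5570) (nat_lit 308) (.e (nat_lit 57372) (nat_lit 2) (.e (nat_lit 90128) (nat_lit 9) (.e (nat_lit 334) (nat_lit 26) (.e (nat_lit 376869) (nat_lit 23) (.e (nat_lit 98365) (nat_lit 26) (.e (nat_lit 426009) (nat_lit 0) (.e (nat_lit 2412) (nat_lit 157) .nil)))))))) (.g (nat_lit 6) .nil .nil))) 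
(.lf (nat_lit 111456) (.g (nat_lit 2400) (.e (nat_lit 5583) (nat_lit 310) (.e (nat_lit 163869) (nat_lit 2) (.e (nat_lit 196670) (nat_lit 14) (.e (nat_lit 73753) (nat_lit 8) (.e (nat_lit 557105) (nat_lit 14) .nil))))) .nil)))) (.nd (nat_lit 5) (.nd (nat_lit 6) 
(.lf (nat_lit 111376) (.g (nat_lit 955) (.e (nat_lit 5567) (nat_lit 308) (.e (nat_lit 57379) (nat_lit 3) (.e (nat_lit 98389) (nat_lit 33) .nil))) .nil)) 
(.lf (nat_lit 111440) (.g (nat_lit 1895) (.e (nat_lit 5581) (nat_lit 310) (.e (nat_lit 163867) (nat_lit 2) (.e (nat_lit 196669) (nat_lit 14) (.e (nat_lit 73755) (nat_lit 8) (.e (nat_lit 557105) (nat_lit 14) (.e (nat_lit 180252) (nat_lit 10) (.e (nat_lit 573474) (nat_lit 12) (.e (nat_lit 57344) (nat_lit 0) .nil)))))))) (.g (nat_lit 4) .nil .nil)))) (.nd (nat_lit 6) 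
(.lf (nat_lit 111408) (.g (nat_lit 456) (.e (nat_lit 5570) (nat_lit 308) (.e (nat_lit 57375) (nat_lit 2) (.e (nat_lit 90172) (nat_lit 14) .nil))) .nil)) 
(.lf (nat_lit 111472) (.g (nat_lit 1794) (.e (nat_lit 5584) (nat_lit 310) (.e (nat_lit 163867) (nat_lit 2) (.e (nat_lit 196669) (nat_lit 14) (.e (nat_lit 73754) (nat_lit 8) (.e (nat_lit 557105) (nat_lit 14) .nil))))) .nil))))) (.nd (nat_lit 4) (.nd (nat_lit 5) (.nd (nat_lit 6) 
(.lf (nat_lit 111368) (.g (nat_lit 4034) (.e (nat_lit 5566) (nat_lit 308) (.e (nat_lit 57377) (nat_lit 3) (.e (nat_lit 98317) (nat_lit 9) (.e (nat_lit 336184) (nat_lit 11) .nil)))) .nil)) 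
(.lf (nat_lit 111432) (.g (nat_lit 1210) (.e (nat_lit 5573) (nat_lit 308) (.e (nat_lit 57366) (nat_lit 1) (.e (nat_lit 57847) (nat_lit 252) (.e (nat_lit 57437) (nat_lit 17) (.e (nat_lit 384768) (nat_lit 13) .nil))))) .nil))) (.nd (nat_lit 6) 
(.lf (nat_lit 111400) (.g (nat_lit 3432) (.e (nat_lit 5570) (nat_lit 308) (.e (nat_lit 57375) (nat_lit 2) (.e (nat_lit 90128) (nat_lit 9) (.e (nat_lit 334) (nat_lit 26) (.e (nat_lit 376869) (nat_lit 23) (.e (nat_lit 98365) (nat_lit 26) (.e (nat_lit 426009) (nat_lit 0) (.e (nat_lit 2401) (nat_lit 157) .nil)))))))) (.g (nat_lit 7) .nil .nil))) 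
(.lf (nat_lit 111464) (.g (nat_lit 2463) (.e (nat_lit 5583) (nat_lit 310) (.e (nat_lit 163871) (nat_lit 2) (.e (nat_lit 196670) (nat_lit 14) (.e (nat_lit 73754) (nat_lit 8) (.e (nat_lit 557105) (nat_lit 14) .nil))))) .nil)))) (.nd (nat_lit 5) (.nd (nat_lit 6) 
(.lf (nat_lit 111384) (.g (nat_lit 2315) (.e (nat_lit 5568) (nat_lit 308) (.e (nat_lit 57379) (nat_lit 3) (.e (nat_lit 98387) (nat_lit 33) (.e (nat_lit 491569) (nat_lit 13) (.e (nat_lit 401152) (nat_lit 10) .nil))))) .nil)) 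
(.lf (nat_lit 111448) (.g (nat_lit 3119) (.e (nat_lit 5582) (nat_lit 310) (.e (nat_lit 163868) (nat_lit 2) (.e (nat_lit 196670) (nat_lit 14) (.e (nat_lit 73753) (nat_lit 8) (.e (nat_lit 557105) (nat_lit 14) (.e (nat_lit 180252) (nat_lit 10) (.e (nat_lit 573474) (nat_lit 12) (.e (nat_lit 57346) (nat_lit 0) .nil)))))))) (.g (nat_lit 4) .nil .nil)))) (.nd (nat_lit 6) 
(.lf (nat_lit 111416) (.g (nat_lit 1151) (.e (nat_lit 5570) (nat_lit 308) (.e (nat_lit 57378) (nat_lit 3) (.e (nat_lit 98387) (nat_lit 33) .nil))) .nil)) 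
(.lf (nat_lit 111480) (.g (nat_lit 2293) (.e (nat_lit 5584) (nat_lit 310) (.e (nat_lit 163867) (nat_lit 2) (.e (nat_lit 196670) (nat_lit 14) (.e (nat_lit 73746) (nat_lit 3) (.e (nat_lit 516131) (nat_lit 3) (.e (nat_lit 221211) (nat_lit 22) (.e (nat_lit 196661) (nat_lit 12) (.e (nat_lit 57361) (nat_lit 0) .nil)))))))) (.g (nat_lit 4) .nil .nil))))))) 
(.nd (nat_lit 3) (.nd (nat_lit 4) (.nd (nat_lit 5) (.nd (nat_lit 6) 
(.lf (nat_lit 111364) (.g (nat_lit 1517) (.e (nat_lit 5566) (nat_lit 308) (.e (nat_lit 57368) (nat_lit 1) (.e (nat_lit 57854) (nat_lit 252) (.e (nat_lit 57435) (nat_lit 17) (.e (nat_lit 376842) (nat_lit 11) .nil))))) .nil)) 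
(.lf (nat_lit 111428) (.g (nat_lit 1926) (.e (nat_lit 5571) (nat_lit 308) (.e (nat_lit 57378) (nat_lit 3) (.e (nat_lit 98384) (nat_lit 32) (.e (nat_lit 475201) (nat_lit 40) .nil)))) .nil))) (.nd (nat_lit 6) 
(.lf (nat_lit 111396) (.g (nat_lit 1367) (.e (nat_lit 5570) (nat_lit 308) (.e (nat_lit 57375) (nat_lit 2) (.e (nat_lit 90128) (nat_lit 9) (.e (nat_lit 334) (nat_lit 26) .nil)))) .nil)) 
(.lf (nat_lit 111460) (.g (nat_lit 2723) (.e (nat_lit 5583) (nat_lit 310) (.e (nat_lit 163871) (nat_lit 2) (.e (nat_lit 196668) (nat_lit 14) (.e (nat_lit 73755) (nat_lit 8) (.e (nat_lit 557105) (nat_lit 14) .nil))))) .nil)))) (.nd (nat_lit 5) (.nd (nat_lit 6) 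
(.lf (nat_lit 111380) (.g (nat_lit 1151) (.e (nat_lit 5568) (nat_lit 308) (.e (nat_lit 57378) (nat_lit 3) (.e (nat_lit 98388) (nat_lit 33) .nil))) .nil)) 
(.lf (nat_lit 111444) (.g (nat_lit 3811) (.e (nat_lit 5582) (nat_lit 310) (.e (nat_lit 163867) (nat_lit 2) (.e (nat_lit 196670) (nat_lit 14) (.e (nat_lit 73755) (nat_lit 8) (.e (nat_lit 557105) (nat_lit 14) (.e (nat_lit 180252) (nat_lit 10) (.e (nat_lit 573474) (nat_lit 12) (.e (nat_lit 57346) (nat_lit 0) .nil)))))))) (.g (nat_lit 5) .nil .nil)))) (.nd (nat_lit 6) 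
(.lf (nat_lit 111412) (.g (nat_lit 1760) (.e (nat_lit 5570) (nat_lit 308) (.e (nat_lit 57375) (nat_lit 2) (.e (nat_lit 90185) (nat_lit 17) (.e (nat_lit 237592) (nat_lit 3) (.e (nat_lit 212736) (nat_lit 10) (.e (nat_lit 434247) (nat_lit 28) (.e (nat_lit 573478) (nat_lit 12) (.e (nat_lit 57351) (nat_lit 0) .nil)))))))) (.g (nat_lit 4) .nil .nil))) 
(.lf (nat_lit 111476) (.g (nat_lit 2426) (.e (nat_lit 5584) (nat_lit 310) (.e (nat_lit 163867) (nat_lit 2) (.e (nat_lit 196670) (nat_lit 14) (.e (nat_lit 73746) (nat_lit 3) (.e (nat_lit 516129) (nat_lit 3) (.e (nat_lit 221210) (nat_lit 22) (.e (nat_lit 196661) (nat_lit 12) (.e (nat_lit 57357) (nat_lit 0) .nil)))))))) (.g (nat_lit 4) .nil .nil)))))) 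
(.nd (nat_lit 4) (.nd (nat_lit 5) (.nd (nat_lit 6) 
(.lf (nat_lit 111372) (.g (nat_lit 1100) (.e (nat_lit 5567) (nat_lit 308) (.e (nat_lit 57378) (nat_lit 3) (.e (nat_lit 98389) (nat_lit 33) .nil))) .nil)) 
(.lf (nat_lit 111436) (.g (nat_lit 1795) (.e (nat_lit 5573) (nat_lit 308) (.e (nat_lit 57378) (nat_lit 3) (.e (nat_lit 106240) (nat_lit 14) (.e (nat_lit 376862) (nat_lit 22) (.e (nat_lit 90172) (nat_lit 14) (.e (nat_lit 188160) (nat_lit 0) .nil)))))) (.g (nat_lit 5) .nil .nil)))) (.nd (nat_lit 6) 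
(.lf (nat_lit 111404) (.g (nat_lit 2161) (.e (nat_lit 5570) (nat_lit 308) (.e (nat_lit 57375) (nat_lit 2) (.e (nat_lit 90160) (nat_lit 11) (.e (nat_lit 24665) (nat_lit 14) .nil)))) .nil)) 
(.lf (nat_lit 111468) (.g (nat_lit 1575) (.e (nat_lit 5583) (nat_lit 310) (.e (nat_lit 163907) (nat_lit 12) (.e (nat_lit 426320) (nat_lit 12) (.e (nat_lit 475207) (nat_lit 41) .nil)))) .nil)))) (.nd (nat_lit 5) (.nd (nat_lit 6) 
(.lf (nat_lit 111388) (.g (nat_lit 3419) (.e (nat_lit 5570) (nat_lit 308) (.e (nat_lit 57372) (nat_lit 2) (.e (nat_lit 90128) (nat_lit 9) (.e (nat_lit 334) (nat_lit 26) (.e (nat_lit 376867) (nat_lit 23) (.e (nat_lit 98365) (nat_lit 26) (.e (nat_lit 426009) (nat_lit 0) (.e (nat_lit 2401) (nat_lit 157) .nil)))))))) (.g (nat_lit 6) .nil .nil))) 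
(.lf (nat_lit 111452) (.g (nat_lit 2889) (.e (nat_lit 5583) (nat_lit 310) (.e (nat_lit 163869) (nat_lit 2) (.e (nat_lit 196668) (nat_lit 14) (.e (nat_lit 73753) (nat_lit 8) (.e (nat_lit 557103) (nat_lit 14) .nil))))) .nil))) (.nd (nat_lit 6) 
(.lf (nat_lit 111420) (.g (nat_lit 2195) (.e (nat_lit 5570) (nat_lit 308) (.e (nat_lit 57379) (nat_lit 3) (.e (nat_lit 98387) (nat_lit 33) (.e (nat_lit 491569) (nat_lit 13) (.e (nat_lit 401152) (nat_lit 10) .nil))))) .nil)) 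
(.lf (nat_lit 111484) (.g (nat_lit 2475) (.e (nat_lit 5584) (nat_lit 310) (.e (nat_lit 163867) (nat_lit 2) (.e (nat_lit 196670) (nat_lit 14) (.e (nat_lit 73753) (nat_lit 8) (.e (nat_lit 557103) (nat_lit 14) (.e (nat_lit 180250) (nat_lit 10) (.e (nat_lit 573478) (nat_lit 12) (.e (nat_lit 57351) (nat_lit 0) .nil)))))))) (.g (nat_lit 4) .nil .nil)))))))) 
(.nd (nat_lit 2) (.nd (nat_lit 3) (.nd (nat_lit 4) (.nd (nat_lit 5) (.nd (nat_lit 6) 
(.lf (nat_lit 111362) (.g (nat_lit 1208) (.e (nat_lit 5566) (nat_lit 308) (.e (nat_lit 57367) (nat_lit 1) (.e (nat_lit 57847) (nat_lit 252) (.e (nat_lit 57435) (nat_lit 17) (.e (nat_lit 384768) (nat_lit 14) .nil))))) .nil)) 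
(.lf (nat_lit 111426) (.g (nat_lit 1423) (.e (nat_lit 5571) (nat_lit 308) (.e (nat_lit 57378) (nat_lit 3) (.e (nat_lit 98317) (nat_lit 9) (.e (nat_lit 336184) (nat_lit 11) .nil)))) .nil))) (.nd (nat_lit 6) 
(.lf (nat_lit 111394) (.g (nat_lit 1134) (.e (nat_lit 5570) (nat_lit 308) (.e (nat_lit 57374) (nat_lit 2) (.e (nat_lit 90165) (nat_lit 12) (.e (nat_lit 164236) (nat_lit 187) .nil)))) .nil)) 
(.lf (nat_lit 111458) (.g (nat_lit 2167) (.e (nat_lit 5583) (nat_lit 310) (.e (nat_lit 163870) (nat_lit 2) (.e (nat_lit 196670) (nat_lit 14) (.e (nat_lit 73754) (nat_lit 8) (.e (nat_lit 557105) (nat_lit 14) .nil))))) .nil)))) (.nd (nat_lit 5) (.nd (nat_lit 6) 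
(.lf (nat_lit 111378) (.g (nat_lit 2676) (.e (nat_lit 5567) (nat_lit 308) (.e (nat_lit 57389) (nat_lit 5) (.e (nat_lit 114711) (nat_lit 21) (.e (nat_lit 57847) (nat_lit 252) (.e (nat_lit 57368) (nat_lit 1) (.e (nat_lit 57854) (nat_lit 252) (.e (nat_lit 57447) (nat_lit 19) (.e (nat_lit 393234) (nat_lit 17) (.e (nat_lit 2398) (nat_lit 157) .nil))))))))) (.g (nat_lit 4) .nil .nil))) 
(.lf (nat_lit 111442) (.g (nat_lit 3001) (.e (nat_lit 5581) (nat_lit 310) (.e (nat_lit 163869) (nat_lit 2) (.e (nat_lit 196670) (nat_lit 14) (.e (nat_lit 73754) (nat_lit 8) (.e (nat_lit 557105) (nat_lit 14) .nil))))) .nil))) (.nd (nat_lit 6) 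
(.lf (nat_lit 111410) (.g (nat_lit 690) (.e (nat_lit 5570) (nat_lit 308) (.e (nat_lit 57375) (nat_lit 2) (.e (nat_lit 90185) (nat_lit 17) .nil))) .nil)) 
(.lf (nat_lit 111474) (.g (nat_lit 3310) (.e (nat_lit 5584) (nat_lit 310) (.e (nat_lit 163867) (nat_lit 2) (.e (nat_lit 196669) (nat_lit 14) (.e (nat_lit 73755) (nat_lit 8) (.e (nat_lit 557105) (nat_lit 14) (.e (nat_lit 180252) (nat_lit 10) (.e (nat_lit 573474) (nat_lit 12) (.e (nat_lit 57345) (nat_lit 0) .nil)))))))) (.g (nat_lit 6) .nil .nil)))))) 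
(.nd (nat_lit 4) (.nd (nat_lit 5) (.nd (nat_lit 6) 
(.lf (nat_lit 111370) (.g (nat_lit 1858) (.e (nat_lit 5566) (nat_lit 308) (.e (nat_lit 57379) (nat_lit 3) (.e (nat_lit 98384) (nat_lit 32) (.e (nat_lit 475201) (nat_lit 40) .nil)))) .nil)) 
(.lf (nat_lit 111434) (.g (nat_lit 1189) (.e (nat_lit 5573) (nat_lit 308) (.e (nat_lit 57377) (nat_lit 3) (.e (nat_lit 106240) (nat_lit 14) (.e (nat_lit 376862) (nat_lit 22) (.e (nat_lit 90172) (nat_lit 14) (.e (nat_lit 188160) (nat_lit 0) .nil)))))) (.g (nat_lit 4) .nil .nil)))) (.nd (nat_lit 6) 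
(.lf (nat_lit 111402) (.g (nat_lit 587) (.e (nat_lit 5570) (nat_lit 308) (.e (nat_lit 57375) (nat_lit 2) (.e (nat_lit 90160) (nat_lit 11) .nil))) .nil)) 
(.lf (nat_lit 111466) (.g (nat_lit 2389) (.e (nat_lit 5583) (nat_lit 310) (.e (nat_lit 163875) (nat_lit 3) (.e (nat_lit 204862) (nat_lit 27) (.e (nat_lit 344133) (nat_lit 26) (.e (nat_lit 557103) (nat_lit 14) .nil))))) .nil)))) (.nd (nat_lit 5) (.nd (nat_lit 6) 
(.lf (nat_lit 111386) (.g (nat_lit 1100) (.e (nat_lit 5569) (nat_lit 308) (.e (nat_lit 57378) (nat_lit 3) (.e (nat_lit 98389) (nat_lit 33) .nil))) .nil)) 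
(.lf (nat_lit 111450) (.g (nat_lit 1990) (.e (nat_lit 5582) (nat_lit 310) (.e (nat_lit 163869) (nat_lit 2) (.e (nat_lit 196669) (nat_lit 14) (.e (nat_lit 73755) (nat_lit 8) (.e (nat_lit 557105) (nat_lit 14) .nil))))) .nil))) (.nd (nat_lit 6) 
(.lf (nat_lit 111418) (.g (nat_lit 902) (.e (nat_lit 5570) (nat_lit 308) (.e (nat_lit 57379) (nat_lit 3) (.e (nat_lit 98384) (nat_lit 32) .nil))) .nil)) 
(.lf (nat_lit 111482) (.g (nat_lit 2317) (.e (nat_lit 5584) (nat_lit 310) (.e (nat_lit 163867) (nat_lit 2) (.e (nat_lit 196670) (nat_lit 14) (.e (nat_lit 73753) (nat_lit 8) (.e (nat_lit 557103) (nat_lit 14) .nil))))) .nil)))))) (.nd (nat_lit 3) (.nd (nat_lit 4) (.nd (nat_lit 5) (.nd (nat_lit 6) 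
(.lf (nat_lit 111366) (.g (nat_lit 1370) (.e (nat_lit 5566) (nat_lit 308) (.e (nat_lit 57375) (nat_lit 2) (.e (nat_lit 90128) (nat_lit 9) (.e (nat_lit 334) (nat_lit 26) .nil)))) .nil)) 
(.lf (nat_lit 111430) (.g (nat_lit 2801) (.e (nat_lit 5572) (nat_lit 308) (.e (nat_lit 57354) (nat_lit 0) (.e (nat_lit 2346) (nat_lit 151) (.e (nat_lit 778362) (nat_lit 9) (.e (nat_lit 232) (nat_lit 21) (.e (nat_lit 336060) (nat_lit 7) (.e (nat_lit 319534) (nat_lit 16) (.e (nat_lit 286756) (nat_lit 10) (.e (nat_lit 344088) (nat_lit 18) .nil))))))))) (.g (nat_lit 5) .nil .nil)))) (.nd (nat_lit 6) 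
(.lf (nat_lit 111398) (.g (nat_lit 3295) (.e (nat_lit 5570) (nat_lit 308) (.e (nat_lit 57375) (nat_lit 2) (.e (nat_lit 90128) (nat_lit 9) (.e (nat_lit 334) (nat_lit 26) (.e (nat_lit 376867) (nat_lit 23) (.e (nat_lit 98365) (nat_lit 26) (.e (nat_lit 426009) (nat_lit 0) (.e (nat_lit 2412) (nat_lit 157) .nil)))))))) (.g (nat_lit 7) .nil .nil))) 
(.lf (nat_lit 111462) (.g (nat_lit 1687) (.e (nat_lit 5583) (nat_lit 310) (.e (nat_lit 163871) (nat_lit 2) (.e (nat_lit 196670) (nat_lit 14) (.e (nat_lit 73746) (nat_lit 3) (.e (nat_lit 516131) (nat_lit 3) .nil))))) .nil)))) (.nd (nat_lit 5) (.nd (nat_lit 6) 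
(.lf (nat_lit 111382) (.g (nat_lit 1100) (.e (nat_lit 5568) (nat_lit 308) (.e (nat_lit 57378) (nat_lit 3) (.e (nat_lit 98389) (nat_lit 33) .nil))) .nil)) 
(.lf (nat_lit 111446) (.g (nat_lit 2944) (.e (nat_lit 5582) (nat_lit 310) (.e (nat_lit 163868) (nat_lit 2) (.e (nat_lit 196668) (nat_lit 14) (.e (nat_lit 73753) (nat_lit 8) (.e (nat_lit 557104) (nat_lit 14) .nil))))) .nil))) (.nd (nat_lit 6) 
(.lf (nat_lit 111414) (.g (nat_lit 3016) (.e (nat_lit 5570) (nat_lit 308) (.e (nat_lit 57378) (nat_lit 3) (.e (nat_lit 98384) (nat_lit 32) (.e (nat_lit 475211) (nat_lit 41) (.e (nat_lit 712745) (nat_lit 27) .nil))))) .nil)) 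
(.lf (nat_lit 111478) (.g (nat_lit 2248) (.e (nat_lit 5584) (nat_lit 310) (.e (nat_lit 163867) (nat_lit 2) (.e (nat_lit 196670) (nat_lit 14) (.e (nat_lit 73746) (nat_lit 3) (.e (nat_lit 516131) (nat_lit 3) .nil))))) .nil))))) (.nd (nat_lit 4) (.nd (nat_lit 5) (.nd (nat_lit 6) 
(.lf (nat_lit 111374) (.g (nat_lit 1858) (.e (nat_lit 5567) (nat_lit 308) (.e (nat_lit 57379) (nat_lit 3) (.e (nat_lit 98384) (nat_lit 32) (.e (nat_lit 475201) (nat_lit 40) .nil)))) .nil)) 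
(.lf (nat_lit 111438) (.g (nat_lit 2055) (.e (nat_lit 5573) (nat_lit 308) (.e (nat_lit 57395) (nat_lit 8) (.e (nat_lit 147496) (nat_lit 11) (.e (nat_lit 24617) (nat_lit 7) (.e (nat_lit 319533) (nat_lit 16) .nil))))) .nil))) (.nd (nat_lit 6) 
(.lf (nat_lit 111406) (.g (nat_lit 1982) (.e (nat_lit 5570) (nat_lit 308) (.e (nat_lit 57375) (nat_lit 2) (.e (nat_lit 90169) (nat_lit 13) (.e (nat_lit 172133) (nat_lit 15) (.e (nat_lit 2175) (nat_lit 143) .nil))))) .nil)) 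
(.lf (nat_lit 111470) (.g (nat_lit 2164) (.e (nat_lit 5584) (nat_lit 310) (.e (nat_lit 163867) (nat_lit 2) (.e (nat_lit 196667) (nat_lit 14) (.e (nat_lit 73755) (nat_lit 8) (.e (nat_lit 557105) (nat_lit 14) (.e (nat_lit 180252) (nat_lit 10) (.e (nat_lit 573474) (nat_lit 12) (.e (nat_lit 57345) (nat_lit 0) .nil)))))))) (.g (nat_lit 4) .nil .nil))))) (.nd (nat_lit 5) (.nd (nat_lit 6) 
(.lf (nat_lit 111390) (.g (nat_lit 2023) (.e (nat_lit 5570) (nat_lit 308) (.e (nat_lit 57372) (nat_lit 2) (.e (nat_lit 90128) (nat_lit 9) (.e (nat_lit 334) (nat_lit 26) (.e (nat_lit 376869) (nat_lit 23) .nil))))) .nil)) 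
(.lf (nat_lit 111454) (.g (nat_lit 2417) (.e (nat_lit 5583) (nat_lit 310) (.e (nat_lit 163869) (nat_lit 2) (.e (nat_lit 196670) (nat_lit 14) (.e (nat_lit 73746) (nat_lit 3) (.e (nat_lit 516129) (nat_lit 3) .nil))))) .nil))) (.nd (nat_lit 6) 
(.lf (nat_lit 111422) (.g (nat_lit 2835) (.e (nat_lit 5571) (nat_lit 308) (.e (nat_lit 57354) (nat_lit 0) (.e (nat_lit 2346) (nat_lit 151) (.e (nat_lit 778362) (nat_lit 9) (.e (nat_lit 232) (nat_lit 21) (.e (nat_lit 336060) (nat_lit 7) (.e (nat_lit 319534) (nat_lit 16) (.e (nat_lit 286756) (nat_lit 10) (.e (nat_lit 344102) (nat_lit 18) .nil))))))))) (.g (nat_lit 5) .nil .nil))) 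
(.lf (nat_lit 111486) (.g (nat_lit 5229) (.e (nat_lit 5584) (nat_lit 310) (.e (nat_lit 163867) (nat_lit 2) (.e (nat_lit 196670) (nat_lit 14) (.e (nat_lit 73753) (nat_lit 8) (.e (nat_lit 557105) (nat_lit 14) (.e (nat_lit 180252) (nat_lit 10) (.e (nat_lit 573474) (nat_lit 12) (.e (nat_lit 57348) (nat_lit 0) .nil)))))))) (.g (nat_lit 8) .nil .nil))))))))) 
(.nd (nat_lit 1) (.nd (nat_lit 2) (.nd (nat_lit 3) (.nd (nat_lit 4) (.nd (nat_lit 5) 
(.nd (nat_lit 6) 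
(.lf (nat_lit 111361) (.g (nat_lit 1310) (.e (nat_lit 5566) (nat_lit 308) (.e (nat_lit 57367) (nat_lit 1) (.e (nat_lit 57847) (nat_lit 252) (.e (nat_lit 57435) (nat_lit 17) (.e (nat_lit 376842) (nat_lit 11) .nil))))) .nil)) 
(.lf (nat_lit 111425) (.g (nat_lit 4095) (.e (nat_lit 5571) (nat_lit 308) (.e (nat_lit 57377) (nat_lit 3) (.e (nat_lit 98317) (nat_lit 9) (.e (nat_lit 336186) (nat_lit 11) .nil)))) .nil))) (.nd (nat_lit 6) 
(.lf (nat_lit 111393) (.g (nat_lit 404) (.e (nat_lit 5570) (nat_lit 308) (.e (nat_lit 57372) (nat_lit 2) (.e (nat_lit 90172) (nat_lit 14) .nil))) .nil)) 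
(.lf (nat_lit 111457) (.g (nat_lit 2828) (.e (nat_lit 5583) (nat_lit 310) (.e (nat_lit 163869) (nat_lit 2) (.e (nat_lit 196670) (nat_lit 14) (.e (nat_lit 73754) (nat_lit 8) (.e (nat_lit 557105) (nat_lit 14) .nil))))) .nil)))) (.nd (nat_lit 5) (.nd (nat_lit 6) 
(.lf (nat_lit 111377) (.g (nat_lit 1690) (.e (nat_lit 5567) (nat_lit 308) (.e (nat_lit 57379) (nat_lit 3) (.e (nat_lit 98389) (nat_lit 33) (.e (nat_lit 491567) (nat_lit 13) .nil)))) .nil)) 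
(.lf (nat_lit 111441) (.g (nat_lit 2705) (.e (nat_lit 5581) (nat_lit 310) (.e (nat_lit 163869) (nat_lit 2) (.e (nat_lit 196670) (nat_lit 14) (.e (nat_lit 73753) (nat_lit 8) (.e (nat_lit 557105) (nat_lit 14) .nil))))) .nil))) (.nd (nat_lit 6) 
(.lf (nat_lit 111409) (.g (nat_lit 1338) (.e (nat_lit 5570) (nat_lit 308) (.e (nat_lit 57375) (nat_lit 2) (.e (nat_lit 90172) (nat_lit 14) (.e (nat_lit 180233) (nat_lit 0) .nil)))) .nil)) 
(.lf (nat_lit 111473) (.g (nat_lit 2019) (.e (nat_lit 5584) (nat_lit 310) (.e (nat_lit 163867) (nat_lit 2) (.e (nat_lit 196669) (nat_lit 14) (.e (nat_lit 73754) (nat_lit 8) (.e (nat_lit 557105) (nat_lit 14) (.e (nat_lit 180252) (nat_lit 10) (.e (nat_lit 573475) (nat_lit 12) (.e (nat_lit 57351) (nat_lit 0) .nil)))))))) (.g (nat_lit 4) .nil .nil)))))) 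
(.nd (nat_lit 4) (.nd (nat_lit 5) (.nd (nat_lit 6) 
(.lf (nat_lit 111369) (.g (nat_lit 4024) (.e (nat_lit 5566) (nat_lit 308) (.e (nat_lit 57377) (nat_lit 3) (.e (nat_lit 98317) (nat_lit 9) (.e (nat_lit 336186) (nat_lit 11) .nil)))) .nil)) 
(.lf (nat_lit 111433) (.g (nat_lit 1473) (.e (nat_lit 5573) (nat_lit 308) (.e (nat_lit 57371) (nat_lit 2) (.e (nat_lit 90128) (nat_lit 9) (.e (nat_lit 334) (nat_lit 26) .nil)))) .nil))) (.nd (nat_lit 6) 
(.lf (nat_lit 111401) (.g (nat_lit 3464) (.e (nat_lit 5570) (nat_lit 308) (.e (nat_lit 57375) (nat_lit 2) (.e (nat_lit 90128) (nat_lit 9) (.e (nat_lit 334) (nat_lit 26) (.e (nat_lit 376869) (nat_lit 23) (.e (nat_lit 98365) (nat_lit 26) (.e (nat_lit 426009) (nat_lit 0) (.e (nat_lit 2412) (nat_lit 157) .nil)))))))) (.g (nat_lit 7) .nil .nil))) 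
(.lf (nat_lit 111465) (.g (nat_lit 4491) (.e (nat_lit 5583) (nat_lit 310) (.e (nat_lit 163871) (nat_lit 2) (.e (nat_lit 196670) (nat_lit 14) (.e (nat_lit 73754) (nat_lit 8) (.e (nat_lit 557105) (nat_lit 14) (.e (nat_lit 180252) (nat_lit 10) (.e (nat_lit 573475) (nat_lit 12) (.e (nat_lit 57345) (nat_lit 0) .nil)))))))) (.g (nat_lit 0) .nil .nil))))) (.nd (nat_lit 5) (.nd (nat_lit 6) 
(.lf (nat_lit 111385) (.g (nat_lit 955) (.e (nat_lit 5568) (nat_lit 308) (.e (nat_lit 57379) (nat_lit 3) (.e (nat_lit 98389) (nat_lit 33) .nil))) .nil)) 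
(.lf (nat_lit 111449) (.g (nat_lit 2775) (.e (nat_lit 5582) (nat_lit 310) (.e (nat_lit 163868) (nat_lit 2) (.e (nat_lit 196670) (nat_lit 14) (.e (nat_lit 73754) (nat_lit 8) (.e (nat_lit 557105) (nat_lit 14) .nil))))) .nil))) (.nd (nat_lit 6) 
(.lf (nat_lit 111417) (.g (nat_lit 1100) (.e (nat_lit 5570) (nat_lit 308) (.e (nat_lit 57378) (nat_lit 3) (.e (nat_lit 98389) (nat_lit 33) .nil))) .nil)) 
(.lf (nat_lit 111481) (.g (nat_lit 2549) (.e (nat_lit 5584) (nat_lit 310) (.e (nat_lit 163867) (nat_lit 2) (.e (nat_lit 196670) (nat_lit 14) (.e (nat_lit 73746) (nat_lit 3) (.e (nat_lit 516131) (nat_lit 3) (.e (nat_lit 221215) (nat_lit 23) (.e (nat_lit 204821) (nat_lit 17) (.e (nat_lit 1086) (nat_lit 81) .nil)))))))) (.g (nat_lit 4) .nil .nil))))))) 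
(.nd (nat_lit 3) (.nd (nat_lit 4) (.nd (nat_lit 5) (.nd (nat_lit 6) 
(.lf (nat_lit 111365) (.g (nat_lit 1151) (.e (nat_lit 5566) (nat_lit 308) (.e (nat_lit 57368) (nat_lit 1) (.e (nat_lit 57854) (nat_lit 252) (.e (nat_lit 57436) (nat_lit 17) .nil)))) .nil)) 
(.lf (nat_lit 111429) (.g (nat_lit 2497) (.e (nat_lit 5571) (nat_lit 308) (.e (nat_lit 57389) (nat_lit 5) (.e (nat_lit 114711) (nat_lit 21) (.e (nat_lit 57847) (nat_lit 252) (.e (nat_lit 57363) (nat_lit 1) .nil))))) .nil))) (.nd (nat_lit 6) 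
(.lf (nat_lit 111397) (.g (nat_lit 3269) (.e (nat_lit 5570) (nat_lit 308) (.e (nat_lit 57375) (nat_lit 2) (.e (nat_lit 90128) (nat_lit 9) (.e (nat_lit 334) (nat_lit 26) (.e (nat_lit 376867) (nat_lit 23) (.e (nat_lit 98365) (nat_lit 26) (.e (nat_lit 426009) (nat_lit 0) (.e (nat_lit 2401) (nat_lit 157) .nil)))))))) (.g (nat_lit 7) .nil .nil))) 
(.lf (nat_lit 111461) (.g (nat_lit 3283) (.e (nat_lit 5583) (nat_lit 310) (.e (nat_lit 163871) (nat_lit 2) (.e (nat_lit 196669) (nat_lit 14) (.e (nat_lit 73755) (nat_lit 8) (.e (nat_lit 557105) (nat_lit 14) (.e (nat_lit 180252) (nat_lit 10) (.e (nat_lit 573474) (nat_lit 12) (.e (nat_lit 57345) (nat_lit 0) .nil)))))))) (.g (nat_lit 6) .nil .nil))))) (.nd (nat_lit 5) (.nd (nat_lit 6) 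
(.lf (nat_lit 111381) (.g (nat_lit 2769) (.e (nat_lit 5568) (nat_lit 308) (.e (nat_lit 57378) (nat_lit 3) (.e (nat_lit 98388) (nat_lit 33) (.e (nat_lit 491571) (nat_lit 13) (.e (nat_lit 401152) (nat_lit 10) .nil))))) .nil)) 
(.lf (nat_lit 111445) (.g (nat_lit 3056) (.e (nat_lit 5582) (nat_lit 310) (.e (nat_lit 163868) (nat_lit 2) (.e (nat_lit 196668) (nat_lit 14) (.e (nat_lit 73753) (nat_lit 8) (.e (nat_lit 557103) (nat_lit 14) .nil))))) .nil))) (.nd (nat_lit 6) 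
(.lf (nat_lit 111413) (.g (nat_lit 1670) (.e (nat_lit 5570) (nat_lit 308) (.e (nat_lit 57375) (nat_lit 2) (.e (nat_lit 90185) (nat_lit 17) (.e (nat_lit 237594) (nat_lit 3) .nil)))) .nil)) 
(.lf (nat_lit 111477) (.g (nat_lit 3152) (.e (nat_lit 5584) (nat_lit 310) (.e (nat_lit 163867) (nat_lit 2) (.e (nat_lit 196670) (nat_lit 14) (.e (nat_lit 73746) (nat_lit 3) (.e (nat_lit 516129) (nat_lit 3) (.e (nat_lit 221210) (nat_lit 22) (.e (nat_lit 196661) (nat_lit 12) (.e (nat_lit 57361) (nat_lit 0) .nil)))))))) (.g (nat_lit 5) .nil .nil)))))) 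
(.nd (nat_lit 4) (.nd (nat_lit 5) (.nd (nat_lit 6) 
(.lf (nat_lit 111373) (.g (nat_lit 1785) (.e (nat_lit 5567) (nat_lit 308) (.e (nat_lit 57378) (nat_lit 3) (.e (nat_lit 98389) (nat_lit 33) (.e (nat_lit 491567) (nat_lit 13) .nil)))) .nil)) 
(.lf (nat_lit 111437) (.g (nat_lit 1762) (.e (nat_lit 5573) (nat_lit 308) (.e (nat_lit 57378) (nat_lit 3) (.e (nat_lit 106240) (nat_lit 14) (.e (nat_lit 376865) (nat_lit 22) (.e (nat_lit 90172) (nat_lit 14) (.e (nat_lit 188160) (nat_lit 0) .nil)))))) (.g (nat_lit 5) .nil .nil)))) (.nd (nat_lit 6) 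
(.lf (nat_lit 111405) (.g (nat_lit 2103) (.e (nat_lit 5570) (nat_lit 308) (.e (nat_lit 57375) (nat_lit 2) (.e (nat_lit 90169) (nat_lit 13) (.e (nat_lit 172133) (nat_lit 15) (.e (nat_lit 2174) (nat_lit 143) .nil))))) .nil)) 
(.lf (nat_lit 111469) (.g (nat_lit 2202) (.e (nat_lit 5584) (nat_lit 310) (.e (nat_lit 163867) (nat_lit 2) (.e (nat_lit 196667) (nat_lit 14) (.e (nat_lit 73754) (nat_lit 8) (.e (nat_lit 557105) (nat_lit 14) (.e (nat_lit 180252) (nat_lit 10) (.e (nat_lit 573475) (nat_lit 12) (.e (nat_lit 57345) (nat_lit 0) .nil)))))))) (.g (nat_lit 4) .nil .nil))))) (.nd (nat_lit 5) (.nd (nat_lit 6) 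
(.lf (nat_lit 111389) (.g (nat_lit 3447) (.e (nat_lit 5570) (nat_lit 308) (.e (nat_lit 57372) (nat_lit 2) (.e (nat_lit 90128) (nat_lit 9) (.e (nat_lit 334) (nat_lit 26) (.e (nat_lit 376867) (nat_lit 23) (.e (nat_lit 98365) (nat_lit 26) (.e (nat_lit 426009) (nat_lit 0) (.e (nat_lit 2412) (nat_lit 157) .nil)))))))) (.g (nat_lit 6) .nil .nil))) 
(.lf (nat_lit 111453) (.g (nat_lit 2032) (.e (nat_lit 5583) (nat_lit 310) (.e (nat_lit 163869) (nat_lit 2) (.e (nat_lit 196669) (nat_lit 14) (.e (nat_lit 73755) (nat_lit 8) (.e (nat_lit 557105) (nat_lit 14) (.e (nat_lit 180252) (nat_lit 10) (.e (nat_lit 573474) (nat_lit 12) (.e (nat_lit 57344) (nat_lit 0) .nil)))))))) (.g (nat_lit 4) .nil .nil)))) (.nd (nat_lit 6) 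
(.lf (nat_lit 111421) (.g (nat_lit 792) (.e (nat_lit 5571) (nat_lit 308) (.e (nat_lit 57354) (nat_lit 0) (.e (nat_lit 2155) (nat_lit 142) (.e (nat_lit 704736) (nat_lit 11) .nil)))) .nil)) 
(.lf (nat_lit 111485) (.g (nat_lit 2187) (.e (nat_lit 5584) (nat_lit 310) (.e (nat_lit 163867) (nat_lit 2) (.e (nat_lit 196670) (nat_lit 14) (.e (nat_lit 73753) (nat_lit 8) (.e (nat_lit 557105) (nat_lit 14) .nil))))) .nil))))))) (.nd (nat_lit 2) (.nd (nat_lit 3) (.nd (nat_lit 4) (.nd (nat_lit 5) (.nd (nat_lit 6) 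
(.lf (nat_lit 111363) (.g (nat_lit 1406) (.e (nat_lit 5566) (nat_lit 308) (.e (nat_lit 57367) (nat_lit 1) (.e (nat_lit 57847) (nat_lit 252) (.e (nat_lit 57437) (nat_lit 17) (.e (nat_lit 384768) (nat_lit 14) .nil))))) .nil)) 
(.lf (nat_lit 111427) (.g (nat_lit 1401) (.e (nat_lit 5571) (nat_lit 308) (.e (nat_lit 57378) (nat_lit 3) (.e (nat_lit 98317) (nat_lit 9) (.e (nat_lit 336186) (nat_lit 11) .nil)))) .nil))) (.nd (nat_lit 6) 
(.lf (nat_lit 111395) (.g (nat_lit 2484) (.e (nat_lit 5570) (nat_lit 308) (.e (nat_lit 57374) (nat_lit 2) (.e (nat_lit 90170) (nat_lit 13) (.e (nat_lit 172138) (nat_lit 15) .nil)))) .nil)) 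
(.lf (nat_lit 111459) (.g (nat_lit 3446) (.e (nat_lit 5583) (nat_lit 310) (.e (nat_lit 163871) (nat_lit 2) (.e (nat_lit 196668) (nat_lit 14) (.e (nat_lit 73753) (nat_lit 8) (.e (nat_lit 557103) (nat_lit 14) (.e (nat_lit 180250) (nat_lit 10) (.e (nat_lit 573474) (nat_lit 12) (.e (nat_lit 57345) (nat_lit 0) .nil)))))))) (.g (nat_lit 5) .nil .nil))))) (.nd (nat_lit 5) (.nd (nat_lit 6) 
(.lf (nat_lit 111379) (.g (nat_lit 660) (.e (nat_lit 5568) (nat_lit 308) (.e (nat_lit 57378) (nat_lit 3) (.e (nat_lit 106240) (nat_lit 14) .nil))) .nil)) 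
(.lf (nat_lit 111443) (.g (nat_lit 2631) (.e (nat_lit 5581) (nat_lit 310) (.e (nat_lit 163871) (nat_lit 2) (.e (nat_lit 196670) (nat_lit 14) (.e (nat_lit 73754) (nat_lit 8) (.e (nat_lit 557105) (nat_lit 14) .nil))))) .nil))) (.nd (nat_lit 6) 
(.lf (nat_lit 111411) (.g (nat_lit 2861) (.e (nat_lit 5570) (nat_lit 308) (.e (nat_lit 57375) (nat_lit 2) (.e (nat_lit 90185) (nat_lit 17) (.e (nat_lit 237591) (nat_lit 3) .nil)))) .nil)) 
(.lf (nat_lit 111475) (.g (nat_lit 4386) (.e (nat_lit 5584) (nat_lit 310) (.e (nat_lit 163867) (nat_lit 2) (.e (nat_lit 196669) (nat_lit 14) (.e (nat_lit 73755) (nat_lit 8) (.e (nat_lit 557105) (nat_lit 14) (.e (nat_lit 180252) (nat_lit 10) (.e (nat_lit 573474) (nat_lit 12) (.e (nat_lit 57348) (nat_lit 0) .nil)))))))) (.g (nat_lit 8) .nil .nil)))))) 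
(.nd (nat_lit 4) (.nd (nat_lit 5) (.nd (nat_lit 6) 
(.lf (nat_lit 111371) (.g (nat_lit 1914) (.e (nat_lit 5566) (nat_lit 308) (.e (nat_lit 57388) (nat_lit 5) (.e (nat_lit 114711) (nat_lit 21) (.e (nat_lit 57847) (nat_lit 252) (.e (nat_lit 57365) (nat_lit 1) .nil))))) .nil)) 
(.lf (nat_lit 111435) (.g (nat_lit 1074) (.e (nat_lit 5573) (nat_lit 308) (.e (nat_lit 57377) (nat_lit 3) (.e (nat_lit 106240) (nat_lit 14) (.e (nat_lit 376865) (nat_lit 22) (.e (nat_lit 90172) (nat_lit 14) (.e (nat_lit 188160) (nat_lit 0) .nil)))))) (.g (nat_lit 4) .nil .nil)))) (.nd (nat_lit 6) 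
(.lf (nat_lit 111403) (.g (nat_lit 2101) (.e (nat_lit 5570) (nat_lit 308) (.e (nat_lit 57375) (nat_lit 2) (.e (nat_lit 90160) (nat_lit 11) (.e (nat_lit 24638) (nat_lit 9) (.e (nat_lit 336012) (nat_lit 2) (.e (nat_lit 90172) (nat_lit 14) (.e (nat_lit 188160) (nat_lit 0) .nil))))))) (.g (nat_lit 4) .nil .nil))) 
(.lf (nat_lit 111467) (.g (nat_lit 2360) (.e (nat_lit 5583) (nat_lit 310) (.e (nat_lit 163875) (nat_lit 3) (.e (nat_lit 204863) (nat_lit 27) (.e (nat_lit 344132) (nat_lit 26) (.e (nat_lit 557105) (nat_lit 14) .nil))))) .nil)))) (.nd (nat_lit 5) (.nd (nat_lit 6) 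
(.lf (nat_lit 111387) (.g (nat_lit 1588) (.e (nat_lit 5570) (nat_lit 308) (.e (nat_lit 57372) (nat_lit 2) (.e (nat_lit 90128) (nat_lit 9) (.e (nat_lit 334) (nat_lit 26) .nil)))) .nil)) 
(.lf (nat_lit 111451) (.g (nat_lit 3016) (.e (nat_lit 5582) (nat_lit 310) (.e (nat_lit 163869) (nat_lit 2) (.e (nat_lit 196670) (nat_lit 14) (.e (nat_lit 73754) (nat_lit 8) (.e (nat_lit 557105) (nat_lit 14) .nil))))) .nil))) (.nd (nat_lit 6) 
(.lf (nat_lit 111419) (.g (nat_lit 2625) (.e (nat_lit 5570) (nat_lit 308) (.e (nat_lit 57379) (nat_lit 3) (.e (nat_lit 98387) (nat_lit 33) (.e (nat_lit 491569) (nat_lit 13) (.e (nat_lit 393229) (nat_lit 9) .nil))))) .nil)) 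
(.lf (nat_lit 111483) (.g (nat_lit 2326) (.e (nat_lit 5584) (nat_lit 310) (.e (nat_lit 163867) (nat_lit 2) (.e (nat_lit 196670) (nat_lit 14) (.e (nat_lit 73753) (nat_lit 8) (.e (nat_lit 557103) (nat_lit 14) (.e (nat_lit 180250) (nat_lit 10) (.e (nat_lit 573474) (nat_lit 12) (.e (nat_lit 57351) (nat_lit 0) .nil)))))))) (.g (nat_lit 4) .nil .nil))))))) 
(.nd (nat_lit 3) (.nd (nat_lit 4) (.nd (nat_lit 5) (.nd (nat_lit 6) 
(.lf (nat_lit 111367) (.g (nat_lit 1769) (.e (nat_lit 5566) (nat_lit 308) (.e (nat_lit 57375) (nat_lit 2) (.e (nat_lit 90172) (nat_lit 14) (.e (nat_lit 180233) (nat_lit 0) .nil)))) .nil)) 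
(.lf (nat_lit 111431) (.g (nat_lit 2870) (.e (nat_lit 5573) (nat_lit 308) (.e (nat_lit 57354) (nat_lit 0) (.e (nat_lit 2346) (nat_lit 151) (.e (nat_lit 778362) (nat_lit 9) (.e (nat_lit 232) (nat_lit 21) (.e (nat_lit 336060) (nat_lit 7) (.e (nat_lit 319534) (nat_lit 16) (.e (nat_lit 286756) (nat_lit 10) (.e (nat_lit 344088) (nat_lit 18) .nil))))))))) (.g (nat_lit 5) .nil .nil)))) (.nd (nat_lit 6) 
(.lf (nat_lit 111399) (.g (nat_lit 1804) (.e (nat_lit 5570) (nat_lit 308) (.e (nat_lit 57375) (nat_lit 2) (.e (nat_lit 90128) (nat_lit 9) (.e (nat_lit 334) (nat_lit 26) (.e (nat_lit 376869) (nat_lit 23) .nil))))) .nil)) 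
(.lf (nat_lit 111463) (.g (nat_lit 2491) (.e (nat_lit 5583) (nat_lit 310) (.e (nat_lit 163871) (nat_lit 2) (.e (nat_lit 196670) (nat_lit 14) (.e (nat_lit 73753) (nat_lit 8) (.e (nat_lit 557103) (nat_lit 14) .nil))))) .nil)))) (.nd (nat_lit 5) (.nd (nat_lit 6) 
(.lf (nat_lit 111383) (.g (nat_lit 953) (.e (nat_lit 5568) (nat_lit 308) (.e (nat_lit 57379) (nat_lit 3) (.e (nat_lit 98384) (nat_lit 32) .nil))) .nil)) 
(.lf (nat_lit 111447) (.g (nat_lit 2261) (.e (nat_lit 5582) (nat_lit 310) (.e (nat_lit 163868) (nat_lit 2) (.e (nat_lit 196669) (nat_lit 14) (.e (nat_lit 73755) (nat_lit 8) (.e (nat_lit 557105) (nat_lit 14) .nil))))) .nil))) (.nd (nat_lit 6) 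
(.lf (nat_lit 111415) (.g (nat_lit 3051) (.e (nat_lit 5570) (nat_lit 308) (.e (nat_lit 57378) (nat_lit 3) (.e (nat_lit 98386) (nat_lit 32) (.e (nat_lit 475211) (nat_lit 41) (.e (nat_lit 712745) (nat_lit 27) .nil))))) .nil)) 
(.lf (nat_lit 111479) (.g (nat_lit 2266) (.e (nat_lit 5584) (nat_lit 310) (.e (nat_lit 163867) (nat_lit 2) (.e (nat_lit 196670) (nat_lit 14) (.e (nat_lit 73746) (nat_lit 3) (.e (nat_lit 516131) (nat_lit 3) (.e (nat_lit 221211) (nat_lit 22) (.e (nat_lit 196661) (nat_lit 12) (.e (nat_lit 57353) (nat_lit 0) .nil)))))))) (.g (nat_lit 4) .nil .nil)))))) 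
(.nd (nat_lit 4) (.nd (nat_lit 5) (.nd (nat_lit 6) 
(.lf (nat_lit 111375) (.g (nat_lit 1268) (.e (nat_lit 5567) (nat_lit 308) (.e (nat_lit 57379) (nat_lit 3) (.e (nat_lit 98387) (nat_lit 33) (.e (nat_lit 491569) (nat_lit 13) .nil)))) .nil)) 
(.lf (nat_lit 111439) (.g (nat_lit 1666) (.e (nat_lit 7936) (nat_lit 308) (.e (nat_lit 57371) (nat_lit 2) (.e (nat_lit 90160) (nat_lit 11) (.e (nat_lit 24638) (nat_lit 9) .nil)))) .nil))) (.nd (nat_lit 6) 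
(.lf (nat_lit 111407) (.g (nat_lit 1996) (.e (nat_lit 5570) (nat_lit 308) (.e (nat_lit 57375) (nat_lit 2) (.e (nat_lit 90169) (nat_lit 13) (.e (nat_lit 172133) (nat_lit 15) (.e (nat_lit 2175) (nat_lit 143) (.e (nat_lit 712745) (nat_lit 27) (.e (nat_lit 426532) (nat_lit 28) (.e (nat_lit 344087) (nat_lit 18) .nil)))))))) (.g (nat_lit 4) .nil .nil))) 
(.lf (nat_lit 111471) (.g (nat_lit 2694) (.e (nat_lit 5584) (nat_lit 310) (.e (nat_lit 163867) (nat_lit 2) (.e (nat_lit 196668) (nat_lit 14) (.e (nat_lit 73753) (nat_lit 8) (.e (nat_lit 557103) (nat_lit 14) (.e (nat_lit 180250) (nat_lit 10) (.e (nat_lit 573474) (nat_lit 12) (.e (nat_lit 57347) (nat_lit 0) .nil)))))))) (.g (nat_lit 4) .nil .nil))))) (.nd (nat_lit 5) (.nd (nat_lit 6) 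
(.lf (nat_lit 111391) (.g (nat_lit 3562) (.e (nat_lit 5570) (nat_lit 308) (.e (nat_lit 57372) (nat_lit 2) (.e (nat_lit 90128) (nat_lit 9) (.e (nat_lit 334) (nat_lit 26) (.e (nat_lit 376869) (nat_lit 23) (.e (nat_lit 98365) (nat_lit 26) (.e (nat_lit 426009) (nat_lit 0) (.e (nat_lit 2401) (nat_lit 157) .nil)))))))) (.g (nat_lit 6) .nil .nil))) 
(.lf (nat_lit 111455) (.g (nat_lit 2533) (.e (nat_lit 5583) (nat_lit 310) (.e (nat_lit 163869) (nat_lit 2) (.e (nat_lit 196670) (nat_lit 14) (.e (nat_lit 73753) (nat_lit 8) (.e (nat_lit 557103) (nat_lit 14) .nil))))) .nil))) (.nd (nat_lit 6) 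
(.lf (nat_lit 111423) (.g (nat_lit 1166) (.e (nat_lit 5571) (nat_lit 308) (.e (nat_lit 57366) (nat_lit 1) (.e (nat_lit 57847) (nat_lit 252) (.e (nat_lit 57435) (nat_lit 17) (.e (nat_lit 376842) (nat_lit 11) .nil))))) .nil)) 
(.lf (nat_lit 111487) (.g (nat_lit 2344) (.e (nat_lit 5584) (nat_lit 310) (.e (nat_lit 163867) (nat_lit 2) (.e (nat_lit 196670) (nat_lit 14) (.e (nat_lit 73753) (nat_lit 8) (.e (nat_lit 557105) (nat_lit 14) (.e (nat_lit 180252) (nat_lit 10) (.e (nat_lit 573475) (nat_lit 12) (.e (nat_lit 57360) (nat_lit 0) .nil)))))))) (.g (nat_lit 4) .nil .nil))))))))))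

noncomputable def tv1503 : DT := (.nd (nat_lit 0) (.nd (nat_lit 1) (.nd (nat_lit 2) (.nd (nat_lit 3) (.nd (nat_lit 4) (.nd (nat_lit 5) 
(.lf (nat_lit 111488) (.g (nat_lit 2625) (.e (nat_lit 5584) (nat_lit 310) (.e (nat_lit 163867) (nat_lit 2) (.e (nat_lit 196670) (nat_lit 14) (.e (nat_lit 73754) (nat_lit 8) (.e (nat_lit 557105) (nat_lit 14) (.e (nat_lit 180251) (nat_lit 10) (.e (nat_lit 573477) (nat_lit 12) (.e (nat_lit 57361) (nat_lit 0) .nil)))))))) (.g (nat_lit 5) .nil .nil))) 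
(.lf (nat_lit 111520) (.g (nat_lit 3690) (.e (nat_lit 5584) (nat_lit 310) (.e (nat_lit 163871) (nat_lit 2) (.e (nat_lit 196670) (nat_lit 14) (.e (nat_lit 73746) (nat_lit 3) (.e (nat_lit 516129) (nat_lit 3) (.e (nat_lit 221210) (nat_lit 22) (.e (nat_lit 196658) (nat_lit 12) (.e (nat_lit 57353) (nat_lit 0) .nil)))))))) (.g (nat_lit 7) .nil .nil)))) (.nd (nat_lit 5) 
(.lf (nat_lit 111504) (.g (nat_lit 2433) (.e (nat_lit 5584) (nat_lit 310) (.e (nat_lit 163868) (nat_lit 2) (.e (nat_lit 196670) (nat_lit 14) (.e (nat_lit 73746) (nat_lit 3) (.e (nat_lit 516131) (nat_lit 3) .nil))))) .nil)) 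
(.lf (nat_lit 111536) (.g (nat_lit 2999) (.e (nat_lit 5584) (nat_lit 310) (.e (nat_lit 163871) (nat_lit 2) (.e (nat_lit 196670) (nat_lit 14) (.e (nat_lit 73754) (nat_lit 8) (.e (nat_lit 557105) (nat_lit 14) (.e (nat_lit 180252) (nat_lit 10) (.e (nat_lit 573473) (nat_lit 12) (.e (nat_lit 57353) (nat_lit 0) .nil)))))))) (.g (nat_lit 5) .nil .nil))))) (.nd (nat_lit 4) (.nd (nat_lit 5) 
(.lf (nat_lit 111496) (.g (nat_lit 2805) (.e (nat_lit 5584) (nat_lit 310) (.e (nat_lit 163867) (nat_lit 2) (.e (nat_lit 196670) (nat_lit 14) (.e (nat_lit 73755) (nat_lit 8) (.e (nat_lit 557105) (nat_lit 14) (.e (nat_lit 180252) (nat_lit 10) (.e (nat_lit 573474) (nat_lit 12) (.e (nat_lit 57355) (nat_lit 0) .nil)))))))) (.g (nat_lit 4) .nil .nil))) 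
(.lf (nat_lit 111528) (.g (nat_lit 2470) (.e (nat_lit 5584) (nat_lit 310) (.e (nat_lit 163871) (nat_lit 2) (.e (nat_lit 196670) (nat_lit 14) (.e (nat_lit 73746) (nat_lit 3) (.e (nat_lit 516131) (nat_lit 3) (.e (nat_lit 221211) (nat_lit 22) (.e (nat_lit 196661) (nat_lit 12) (.e (nat_lit 57353) (nat_lit 0) .nil)))))))) (.g (nat_lit 6) .nil .nil)))) (.nd (nat_lit 5) 
(.lf (nat_lit 111512) (.g (nat_lit 2692) (.e (nat_lit 5584) (nat_lit 310) (.e (nat_lit 163868) (nat_lit 2) (.e (nat_lit 196670) (nat_lit 14) (.e (nat_lit 73755) (nat_lit 8) (.e (nat_lit 557105) (nat_lit 14) (.e (nat_lit 180252) (nat_lit 10) (.e (nat_lit 573474) (nat_lit 12) (.e (nat_lit 57351) (nat_lit 0) .nil)))))))) (.g (nat_lit 4) .nil .nil))) 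
(.lf (nat_lit 111544) (.g (nat_lit 1348) (.e (nat_lit 5584) (nat_lit 310) (.e (nat_lit 163873) (nat_lit 3) (.e (nat_lit 204861) (nat_lit 26) (.e (nat_lit 336213) (nat_lit 13) .nil)))) .nil))))) (.nd (nat_lit 3) (.nd (nat_lit 4) (.nd (nat_lit 5) 
(.lf (nat_lit 111492) (.g (nat_lit 3998) (.e (nat_lit 5584) (nat_lit 310) (.e (nat_lit 163867) (nat_lit 2) (.e (nat_lit 196670) (nat_lit 14) (.e (nat_lit 73754) (nat_lit 8) (.e (nat_lit 557105) (nat_lit 14) (.e (nat_lit 180252) (nat_lit 10) (.e (nat_lit 573475) (nat_lit 12) (.e (nat_lit 57345) (nat_lit 0) .nil)))))))) (.g (nat_lit 0) .nil .nil))) 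
(.lf (nat_lit 111524) (.g (nat_lit 3405) (.e (nat_lit 5584) (nat_lit 310) (.e (nat_lit 163871) (nat_lit 2) (.e (nat_lit 196670) (nat_lit 14) (.e (nat_lit 73746) (nat_lit 3) (.e (nat_lit 516129) (nat_lit 3) (.e (nat_lit 221210) (nat_lit 22) (.e (nat_lit 196661) (nat_lit 12) (.e (nat_lit 57361) (nat_lit 0) .nil)))))))) (.g (nat_lit 6) .nil .nil)))) (.nd (nat_lit 5) 
(.lf (nat_lit 111508) (.g (nat_lit 3654) (.e (nat_lit 5584) (nat_lit 310) (.e (nat_lit 163868) (nat_lit 2) (.e (nat_lit 196670) (nat_lit 14) (.e (nat_lit 73753) (nat_lit 8) (.e (nat_lit 557105) (nat_lit 14) (.e (nat_lit 180252) (nat_lit 10) (.e (nat_lit 573474) (nat_lit 12) (.e (nat_lit 57351) (nat_lit 0) .nil)))))))) (.g (nat_lit 5) .nil .nil))) 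
(.lf (nat_lit 111540) (.g (nat_lit 2438) (.e (nat_lit 5584) (nat_lit 310) (.e (nat_lit 163871) (nat_lit 2) (.e (nat_lit 196670) (nat_lit 14) (.e (nat_lit 73754) (nat_lit 8) (.e (nat_lit 557105) (nat_lit 14) (.e (nat_lit 180252) (nat_lit 10) (.e (nat_lit 573475) (nat_lit 12) (.e (nat_lit 57360) (nat_lit 0) .nil)))))))) (.g (nat_lit 4) .nil .nil))))) (.nd (nat_lit 4) (.nd (nat_lit 5) 
(.lf (nat_lit 111500) (.g (nat_lit 2518) (.e (nat_lit 5584) (nat_lit 310) (.e (nat_lit 163868) (nat_lit 2) (.e (nat_lit 196669) (nat_lit 14) (.e (nat_lit 73755) (nat_lit 8) (.e (nat_lit 557105) (nat_lit 14) (.e (nat_lit 180252) (nat_lit 10) (.e (nat_lit 573474) (nat_lit 12) (.e (nat_lit 57351) (nat_lit 0) .nil)))))))) (.g (nat_lit 4) .nil .nil))) 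
(.lf (nat_lit 111532) (.g (nat_lit 2897) (.e (nat_lit 5584) (nat_lit 310) (.e (nat_lit 163871) (nat_lit 2) (.e (nat_lit 196670) (nat_lit 14) (.e (nat_lit 73746) (nat_lit 3) (.e (nat_lit 516131) (nat_lit 3) (.e (nat_lit 221212) (nat_lit 22) (.e (nat_lit 196677) (nat_lit 16) (.e (nat_lit 122884) (nat_lit 0) .nil)))))))) (.g (nat_lit 6) .nil .nil)))) (.nd (nat_lit 5) 
(.lf (nat_lit 111516) (.g (nat_lit 3286) (.e (nat_lit 5584) (nat_lit 310) (.e (nat_lit 163869) (nat_lit 2) (.e (nat_lit 196670) (nat_lit 14) (.e (nat_lit 73755) (nat_lit 8) (.e (nat_lit 557105) (nat_lit 14) .nil))))) .nil)) 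
(.lf (nat_lit 111548) (.g (nat_lit 2029) (.e (nat_lit 5584) (nat_lit 310) (.e (nat_lit 163873) (nat_lit 3) (.e (nat_lit 204861) (nat_lit 26) (.e (nat_lit 336215) (nat_lit 13) (.e (nat_lit 401152) (nat_lit 10) (.e (nat_lit 344096) (nat_lit 18) .nil)))))) (.g (nat_lit 4) .nil .nil))))))) (.nd (nat_lit 2) (.nd (nat_lit 3) (.nd (nat_lit 4) (.nd (nat_lit 5) 
(.lf (nat_lit 111490) (.g (nat_lit 4335) (.e (nat_lit 5584) (nat_lit 310) (.e (nat_lit 163867) (nat_lit 2) (.e (nat_lit 196670) (nat_lit 14) (.e (nat_lit 73754) (nat_lit 8) (.e (nat_lit 557105) (nat_lit 14) (.e (nat_lit 180252) (nat_lit 10) (.e (nat_lit 573474) (nat_lit 12) (.e (nat_lit 57345) (nat_lit 0) .nil)))))))) (.g (nat_lit 6) .nil .nil))) 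
(.lf (nat_lit 111522) (.g (nat_lit 2031) (.e (nat_lit 5584) (nat_lit 310) (.e (nat_lit 163871) (nat_lit 2) (.e (nat_lit 196670) (nat_lit 14) (.e (nat_lit 73746) (nat_lit 3) (.e (nat_lit 516129) (nat_lit 3) (.e (nat_lit 221210) (nat_lit 22) (.e (nat_lit 196661) (nat_lit 12) (.e (nat_lit 57358) (nat_lit 0) .nil)))))))) (.g (nat_lit 4) .nil .nil)))) (.nd (nat_lit 5) 
(.lf (nat_lit 111506) (.g (nat_lit 3054) (.e (nat_lit 5584) (nat_lit 310) (.e (nat_lit 163868) (nat_lit 2) (.e (nat_lit 196670) (nat_lit 14) (.e (nat_lit 73753) (nat_lit 8) (.e (nat_lit 557105) (nat_lit 14) (.e (nat_lit 180252) (nat_lit 10) (.e (nat_lit 573474) (nat_lit 12) (.e (nat_lit 57345) (nat_lit 0) .nil)))))))) (.g (nat_lit 4) .nil .nil))) 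
(.lf (nat_lit 111538) (.g (nat_lit 3179) (.e (nat_lit 5584) (nat_lit 310) (.e (nat_lit 163871) (nat_lit 2) (.e (nat_lit 196670) (nat_lit 14) (.e (nat_lit 73754) (nat_lit 8) (.e (nat_lit 557105) (nat_lit 14) (.e (nat_lit 180252) (nat_lit 10) (.e (nat_lit 573475) (nat_lit 12) (.e (nat_lit 57345) (nat_lit 0) .nil)))))))) (.g (nat_lit 5) .nil .nil))))) (.nd (nat_lit 4) (.nd (nat_lit 5) 
(.lf (nat_lit 111498) (.g (nat_lit 2634) (.e (nat_lit 5584) (nat_lit 310) (.e (nat_lit 163868) (nat_lit 2) (.e (nat_lit 196668) (nat_lit 14) (.e (nat_lit 73753) (nat_lit 8) (.e (nat_lit 557103) (nat_lit 14) (.e (nat_lit 180250) (nat_lit 10) (.e (nat_lit 573474) (nat_lit 12) (.e (nat_lit 57347) (nat_lit 0) .nil)))))))) (.g (nat_lit 4) .nil .nil))) 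
(.lf (nat_lit 111530) (.g (nat_lit 2505) (.e (nat_lit 5584) (nat_lit 310) (.e (nat_lit 163871) (nat_lit 2) (.e (nat_lit 196670) (nat_lit 14) (.e (nat_lit 73746) (nat_lit 3) (.e (nat_lit 516131) (nat_lit 3) (.e (nat_lit 221211) (nat_lit 22) (.e (nat_lit 196661) (nat_lit 12) (.e (nat_lit 57361) (nat_lit 0) .nil)))))))) (.g (nat_lit 6) .nil .nil)))) (.nd (nat_lit 5) 
(.lf (nat_lit 111514) (.g (nat_lit 2016) (.e (nat_lit 5584) (nat_lit 310) (.e (nat_lit 163869) (nat_lit 2) (.e (nat_lit 196669) (nat_lit 14) (.e (nat_lit 73755) (nat_lit 8) (.e (nat_lit 557105) (nat_lit 14) (.e (nat_lit 180252) (nat_lit 10) (.e (nat_lit 573474) (nat_lit 12) (.e (nat_lit 57348) (nat_lit 0) .nil)))))))) (.g (nat_lit 4) .nil .nil))) 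
(.lf (nat_lit 111546) (.g (nat_lit 1431) (.e (nat_lit 5584) (nat_lit 310) (.e (nat_lit 163873) (nat_lit 3) (.e (nat_lit 204861) (nat_lit 26) (.e (nat_lit 336214) (nat_lit 13) .nil)))) .nil))))) (.nd (nat_lit 3) (.nd (nat_lit 4) (.nd (nat_lit 5) 
(.lf (nat_lit 111494) (.g (nat_lit 4127) (.e (nat_lit 5584) (nat_lit 310) (.e (nat_lit 163867) (nat_lit 2) (.e (nat_lit 196670) (nat_lit 14) (.e (nat_lit 73755) (nat_lit 8) (.e (nat_lit 557105) (nat_lit 14) (.e (nat_lit 180252) (nat_lit 10) (.e (nat_lit 573474) (nat_lit 12) (.e (nat_lit 57348) (nat_lit 0) .nil)))))))) (.g (nat_lit 6) .nil .nil))) 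
(.lf (nat_lit 111526) (.g (nat_lit 2661) (.e (nat_lit 5584) (nat_lit 310) (.e (nat_lit 163871) (nat_lit 2) (.e (nat_lit 196670) (nat_lit 14) (.e (nat_lit 73746) (nat_lit 3) (.e (nat_lit 516129) (nat_lit 3) (.e (nat_lit 221210) (nat_lit 22) (.e (nat_lit 196677) (nat_lit 16) (.e (nat_lit 122884) (nat_lit 0) .nil)))))))) (.g (nat_lit 5) .nil .nil)))) (.nd (nat_lit 5) 
(.lf (nat_lit 111510) (.g (nat_lit 2860) (.e (nat_lit 5584) (nat_lit 310) (.e (nat_lit 163868) (nat_lit 2) (.e (nat_lit 196670) (nat_lit 14) (.e (nat_lit 73754) (nat_lit 8) (.e (nat_lit 557105) (nat_lit 14) (.e (nat_lit 180252) (nat_lit 10) (.e (nat_lit 573473) (nat_lit 12) (.e (nat_lit 57353) (nat_lit 0) .nil)))))))) (.g (nat_lit 4) .nil .nil))) 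
(.lf (nat_lit 111542) (.g (nat_lit 2276) (.e (nat_lit 5584) (nat_lit 310) (.e (nat_lit 163871) (nat_lit 2) (.e (nat_lit 196670) (nat_lit 14) (.e (nat_lit 73755) (nat_lit 8) (.e (nat_lit 557105) (nat_lit 14) (.e (nat_lit 180252) (nat_lit 10) (.e (nat_lit 573474) (nat_lit 12) (.e (nat_lit 57349) (nat_lit 0) .nil)))))))) (.g (nat_lit 4) .nil .nil))))) (.nd (nat_lit 4) (.nd (nat_lit 5) 
(.lf (nat_lit 111502) (.g (nat_lit 2390) (.e (nat_lit 5584) (nat_lit 310) (.e (nat_lit 163868) (nat_lit 2) (.e (nat_lit 196670) (nat_lit 14) (.e (nat_lit 73746) (nat_lit 3) (.e (nat_lit 516129) (nat_lit 3) .nil))))) .nil)) 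
(.lf (nat_lit 111534) (.g (nat_lit 4556) (.e (nat_lit 5584) (nat_lit 310) (.e (nat_lit 163871) (nat_lit 2) (.e (nat_lit 196670) (nat_lit 14) (.e (nat_lit 73753) (nat_lit 8) (.e (nat_lit 557105) (nat_lit 14) (.e (nat_lit 180252) (nat_lit 10) (.e (nat_lit 573474) (nat_lit 12) (.e (nat_lit 57347) (nat_lit 0) .nil)))))))) (.g (nat_lit 6) .nil .nil)))) (.nd (nat_lit 5) 
(.lf (nat_lit 111518) (.g (nat_lit 2595) (.e (nat_lit 5584) (nat_lit 310) (.e (nat_lit 163871) (nat_lit 2) (.e (nat_lit 196668) (nat_lit 14) (.e (nat_lit 73755) (nat_lit 8) (.e (nat_lit 557105) (nat_lit 14) .nil))))) .nil)) 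
(.lf (nat_lit 111550) (.g (nat_lit 2210) (.e (nat_lit 5584) (nat_lit 310) (.e (nat_lit 163874) (nat_lit 3) (.e (nat_lit 204861) (nat_lit 26) (.e (nat_lit 336214) (nat_lit 13) .nil)))) .nil))))))) (.nd (nat_lit 1) (.nd (nat_lit 2) (.nd (nat_lit 3) (.nd (nat_lit 4) (.nd (nat_lit 5) 
(.lf (nat_lit 111489) (.g (nat_lit 1748) (.e (nat_lit 5584) (nat_lit 310) (.e (nat_lit 163867) (nat_lit 2) (.e (nat_lit 196670) (nat_lit 14) (.e (nat_lit 73754) (nat_lit 8) (.e (nat_lit 557105) (nat_lit 14) (.e (nat_lit 180251) (nat_lit 10) (.e (nat_lit 573478) (nat_lit 12) (.e (nat_lit 57344) (nat_lit 0) .nil)))))))) (.g (nat_lit 4) .nil .nil))) 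
(.lf (nat_lit 111521) (.g (nat_lit 2690) (.e (nat_lit 5584) (nat_lit 310) (.e (nat_lit 163871) (nat_lit 2) (.e (nat_lit 196670) (nat_lit 14) (.e (nat_lit 73746) (nat_lit 3) (.e (nat_lit 516129) (nat_lit 3) (.e (nat_lit 221210) (nat_lit 22) (.e (nat_lit 196661) (nat_lit 12) (.e (nat_lit 57357) (nat_lit 0) .nil)))))))) (.g (nat_lit 5) .nil .nil)))) (.nd (nat_lit 5) 
(.lf (nat_lit 111505) (.g (nat_lit 2881) (.e (nat_lit 5584) (nat_lit 310) (.e (nat_lit 163868) (nat_lit 2) (.e (nat_lit 196670) (nat_lit 14) (.e (nat_lit 73753) (nat_lit 8) (.e (nat_lit 557105) (nat_lit 14) .nil))))) .nil)) 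
(.lf (nat_lit 111537) (.g (nat_lit 2355) (.e (nat_lit 5584) (nat_lit 310) (.e (nat_lit 163871) (nat_lit 2) (.e (nat_lit 196670) (nat_lit 14) (.e (nat_lit 73754) (nat_lit 8) (.e (nat_lit 557105) (nat_lit 14) (.e (nat_lit 180252) (nat_lit 10) (.e (nat_lit 573475) (nat_lit 12) (.e (nat_lit 57344) (nat_lit 0) .nil)))))))) (.g (nat_lit 4) .nil .nil))))) (.nd (nat_lit 4) (.nd (nat_lit 5) 
(.lf (nat_lit 111497) (.g (nat_lit 2729) (.e (nat_lit 5584) (nat_lit 310) (.e (nat_lit 163867) (nat_lit 2) (.e (nat_lit 196670) (nat_lit 14) (.e (nat_lit 73755) (nat_lit 8) (.e (nat_lit 557105) (nat_lit 14) (.e (nat_lit 180252) (nat_lit 10) (.e (nat_lit 573474) (nat_lit 12) (.e (nat_lit 57358) (nat_lit 0) .nil)))))))) (.g (nat_lit 4) .nil .nil))) 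
(.lf (nat_lit 111529) (.g (nat_lit 1737) (.e (nat_lit 5584) (nat_lit 310) (.e (nat_lit 163871) (nat_lit 2) (.e (nat_lit 196670) (nat_lit 14) (.e (nat_lit 73746) (nat_lit 3) (.e (nat_lit 516131) (nat_lit 3) (.e (nat_lit 221211) (nat_lit 22) (.e (nat_lit 196661) (nat_lit 12) (.e (nat_lit 57357) (nat_lit 0) .nil)))))))) (.g (nat_lit 4) .nil .nil)))) (.nd (nat_lit 5) 
(.lf (nat_lit 111513) (.g (nat_lit 2642) (.e (nat_lit 5584) (nat_lit 310) (.e (nat_lit 163868) (nat_lit 2) (.e (nat_lit 196670) (nat_lit 14) (.e (nat_lit 73755) (nat_lit 8) (.e (nat_lit 557105) (nat_lit 14) (.e (nat_lit 180252) (nat_lit 10) (.e (nat_lit 573474) (nat_lit 12) (.e (nat_lit 57353) (nat_lit 0) .nil)))))))) (.g (nat_lit 4) .nil .nil))) 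
(.lf (nat_lit 111545) (.g (nat_lit 2072) (.e (nat_lit 5584) (nat_lit 310) (.e (nat_lit 163873) (nat_lit 3) (.e (nat_lit 204861) (nat_lit 26) (.e (nat_lit 336213) (nat_lit 13) (.e (nat_lit 401152) (nat_lit 10) (.e (nat_lit 344096) (nat_lit 18) .nil)))))) (.g (nat_lit 4) .nil .nil)))))) (.nd (nat_lit 3) (.nd (nat_lit 4) (.nd (nat_lit 5) 
(.lf (nat_lit 111493) (.g (nat_lit 4279) (.e (nat_lit 5584) (nat_lit 310) (.e (nat_lit 163867) (nat_lit 2) (.e (nat_lit 196670) (nat_lit 14) (.e (nat_lit 73754) (nat_lit 8) (.e (nat_lit 557105) (nat_lit 14) (.e (nat_lit 180252) (nat_lit 10) (.e (nat_lit 573475) (nat_lit 12) (.e (nat_lit 57351) (nat_lit 0) .nil)))))))) (.g (nat_lit 8) .nil .nil))) 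
(.lf (nat_lit 111525) (.g (nat_lit 2777) (.e (nat_lit 5584) (nat_lit 310) (.e (nat_lit 163871) (nat_lit 2) (.e (nat_lit 196670) (nat_lit 14) (.e (nat_lit 73746) (nat_lit 3) (.e (nat_lit 516129) (nat_lit 3) (.e (nat_lit 221210) (nat_lit 22) (.e (nat_lit 196677) (nat_lit 16) (.e (nat_lit 122880) (nat_lit 0) .nil)))))))) (.g (nat_lit 5) .nil .nil)))) (.nd (nat_lit 5) 
(.lf (nat_lit 111509) (.g (nat_lit 2727) (.e (nat_lit 5584) (nat_lit 310) (.e (nat_lit 163868) (nat_lit 2) (.e (nat_lit 196670) (nat_lit 14) (.e (nat_lit 73754) (nat_lit 8) (.e (nat_lit 557105) (nat_lit 14) .nil))))) .nil)) 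
(.lf (nat_lit 111541) (.g (nat_lit 3326) (.e (nat_lit 5584) (nat_lit 310) (.e (nat_lit 163871) (nat_lit 2) (.e (nat_lit 196670) (nat_lit 14) (.e (nat_lit 73755) (nat_lit 8) (.e (nat_lit 557105) (nat_lit 14) (.e (nat_lit 180252) (nat_lit 10) (.e (nat_lit 573474) (nat_lit 12) (.e (nat_lit 57348) (nat_lit 0) .nil)))))))) (.g (nat_lit 5) .nil .nil))))) (.nd (nat_lit 4) (.nd (nat_lit 5) 
(.lf (nat_lit 111501) (.g (nat_lit 2468) (.e (nat_lit 5584) (nat_lit 310) (.e (nat_lit 163868) (nat_lit 2) (.e (nat_lit 196669) (nat_lit 14) (.e (nat_lit 73755) (nat_lit 8) (.e (nat_lit 557105) (nat_lit 14) (.e (nat_lit 180252) (nat_lit 10) (.e (nat_lit 573474) (nat_lit 12) (.e (nat_lit 57353) (nat_lit 0) .nil)))))))) (.g (nat_lit 4) .nil .nil))) 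
(.lf (nat_lit 111533) (.g (nat_lit 2370) (.e (nat_lit 5584) (nat_lit 310) (.e (nat_lit 163871) (nat_lit 2) (.e (nat_lit 196670) (nat_lit 14) (.e (nat_lit 73753) (nat_lit 8) (.e (nat_lit 557105) (nat_lit 14) .nil))))) .nil))) (.nd (nat_lit 5) 
(.lf (nat_lit 111517) (.g (nat_lit 3210) (.e (nat_lit 5584) (nat_lit 310) (.e (nat_lit 163871) (nat_lit 2) (.e (nat_lit 196668) (nat_lit 14) (.e (nat_lit 73753) (nat_lit 8) (.e (nat_lit 557103) (nat_lit 14) (.e (nat_lit 180250) (nat_lit 10) (.e (nat_lit 573474) (nat_lit 12) (.e (nat_lit 57348) (nat_lit 0) .nil)))))))) (.g (nat_lit 5) .nil .nil))) 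
(.lf (nat_lit 111549) (.g (nat_lit 2710) (.e (nat_lit 5584) (nat_lit 310) (.e (nat_lit 163874) (nat_lit 3) (.e (nat_lit 204861) (nat_lit 26) (.e (nat_lit 336213) (nat_lit 13) (.e (nat_lit 401152) (nat_lit 10) .nil))))) .nil)))))) (.nd (nat_lit 2) (.nd (nat_lit 3) (.nd (nat_lit 4) (.nd (nat_lit 5) 
(.lf (nat_lit 111491) (.g (nat_lit 5407) (.e (nat_lit 5584) (nat_lit 310) (.e (nat_lit 163867) (nat_lit 2) (.e (nat_lit 196670) (nat_lit 14) (.e (nat_lit 73754) (nat_lit 8) (.e (nat_lit 557105) (nat_lit 14) (.e (nat_lit 180252) (nat_lit 10) (.e (nat_lit 573474) (nat_lit 12) (.e (nat_lit 57348) (nat_lit 0) .nil)))))))) (.g (nat_lit 8) .nil .nil))) 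
(.lf (nat_lit 111523) (.g (nat_lit 1957) (.e (nat_lit 5584) (nat_lit 310) (.e (nat_lit 163871) (nat_lit 2) (.e (nat_lit 196670) (nat_lit 14) (.e (nat_lit 73746) (nat_lit 3) (.e (nat_lit 516129) (nat_lit 3) (.e (nat_lit 221210) (nat_lit 22) (.e (nat_lit 196661) (nat_lit 12) (.e (nat_lit 57360) (nat_lit 0) .nil)))))))) (.g (nat_lit 4) .nil .nil)))) (.nd (nat_lit 5) 
(.lf (nat_lit 111507) (.g (nat_lit 3182) (.e (nat_lit 5584) (nat_lit 310) (.e (nat_lit 163868) (nat_lit 2) (.e (nat_lit 196670) (nat_lit 14) (.e (nat_lit 73753) (nat_lit 8) (.e (nat_lit 557105) (nat_lit 14) (.e (nat_lit 180252) (nat_lit 10) (.e (nat_lit 573474) (nat_lit 12) (.e (nat_lit 57349) (nat_lit 0) .nil)))))))) (.g (nat_lit 4) .nil .nil))) 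
(.lf (nat_lit 111539) (.g (nat_lit 2492) (.e (nat_lit 5584) (nat_lit 310) (.e (nat_lit 163871) (nat_lit 2) (.e (nat_lit 196670) (nat_lit 14) (.e (nat_lit 73754) (nat_lit 8) (.e (nat_lit 557105) (nat_lit 14) (.e (nat_lit 180252) (nat_lit 10) (.e (nat_lit 573475) (nat_lit 12) (.e (nat_lit 57348) (nat_lit 0) .nil)))))))) (.g (nat_lit 4) .nil .nil))))) (.nd (nat_lit 4) (.nd (nat_lit 5) 
(.lf (nat_lit 111499) (.g (nat_lit 3393) (.e (nat_lit 5584) (nat_lit 310) (.e (nat_lit 163868) (nat_lit 2) (.e (nat_lit 196669) (nat_lit 14) (.e (nat_lit 73755) (nat_lit 8) (.e (nat_lit 557105) (nat_lit 14) (.e (nat_lit 180252) (nat_lit 10) (.e (nat_lit 573474) (nat_lit 12) (.e (nat_lit 57347) (nat_lit 0) .nil)))))))) (.g (nat_lit 5) .nil .nil))) 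
(.lf (nat_lit 111531) (.g (nat_lit 2820) (.e (nat_lit 5584) (nat_lit 310) (.e (nat_lit 163871) (nat_lit 2) (.e (nat_lit 196670) (nat_lit 14) (.e (nat_lit 73746) (nat_lit 3) (.e (nat_lit 516131) (nat_lit 3) (.e (nat_lit 221212) (nat_lit 22) (.e (nat_lit 196677) (nat_lit 16) (.e (nat_lit 122881) (nat_lit 0) .nil)))))))) (.g (nat_lit 6) .nil .nil)))) (.nd (nat_lit 5) 
(.lf (nat_lit 111515) (.g (nat_lit 2364) (.e (nat_lit 5584) (nat_lit 310) (.e (nat_lit 163869) (nat_lit 2) (.e (nat_lit 196670) (nat_lit 14) (.e (nat_lit 73754) (nat_lit 8) .nil)))) .nil)) 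
(.lf (nat_lit 111547) (.g (nat_lit 1369) (.e (nat_lit 5584) (nat_lit 310) (.e (nat_lit 163873) (nat_lit 3) (.e (nat_lit 204861) (nat_lit 26) (.e (nat_lit 336215) (nat_lit 13) .nil)))) .nil))))) (.nd (nat_lit 3) (.nd (nat_lit 4) (.nd (nat_lit 5) 
(.lf (nat_lit 111495) (.g (nat_lit 3648) (.e (nat_lit 5584) (nat_lit 310) (.e (nat_lit 163867) (nat_lit 2) (.e (nat_lit 196670) (nat_lit 14) (.e (nat_lit 73755) (nat_lit 8) (.e (nat_lit 557105) (nat_lit 14) (.e (nat_lit 180252) (nat_lit 10) (.e (nat_lit 573474) (nat_lit 12) (.e (nat_lit 57351) (nat_lit 0) .nil)))))))) (.g (nat_lit 5) .nil .nil))) 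
(.lf (nat_lit 111527) (.g (nat_lit 1607) (.e (nat_lit 5584) (nat_lit 310) (.e (nat_lit 163871) (nat_lit 2) (.e (nat_lit 196670) (nat_lit 14) (.e (nat_lit 73746) (nat_lit 3) (.e (nat_lit 516131) (nat_lit 3) .nil))))) .nil))) (.nd (nat_lit 5) 
(.lf (nat_lit 111511) (.g (nat_lit 3024) (.e (nat_lit 5584) (nat_lit 310) (.e (nat_lit 163868) (nat_lit 2) (.e (nat_lit 196670) (nat_lit 14) (.e (nat_lit 73754) (nat_lit 8) (.e (nat_lit 557105) (nat_lit 14) (.e (nat_lit 180252) (nat_lit 10) (.e (nat_lit 573475) (nat_lit 12) (.e (nat_lit 57345) (nat_lit 0) .nil)))))))) (.g (nat_lit 4) .nil .nil))) 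
(.lf (nat_lit 111543) (.g (nat_lit 2206) (.e (nat_lit 5584) (nat_lit 310) (.e (nat_lit 163873) (nat_lit 3) (.e (nat_lit 204861) (nat_lit 26) (.e (nat_lit 336076) (nat_lit 9) (.e (nat_lit 336367) (nat_lit 27) .nil))))) .nil)))) (.nd (nat_lit 4) (.nd (nat_lit 5) 
(.lf (nat_lit 111503) (.g (nat_lit 2477) (.e (nat_lit 5584) (nat_lit 310) (.e (nat_lit 163868) (nat_lit 2) (.e (nat_lit 196670) (nat_lit 14) (.e (nat_lit 73746) (nat_lit 3) (.e (nat_lit 516129) (nat_lit 3) (.e (nat_lit 221214) (nat_lit 23) (.e (nat_lit 204821) (nat_lit 17) (.e (nat_lit 1086) (nat_lit 81) .nil)))))))) (.g (nat_lit 4) .nil .nil))) 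
(.lf (nat_lit 111535) (.g (nat_lit 2331) (.e (nat_lit 5584) (nat_lit 310) (.e (nat_lit 163871) (nat_lit 2) (.e (nat_lit 196670) (nat_lit 14) (.e (nat_lit 73754) (nat_lit 8) (.e (nat_lit 557105) (nat_lit 14) .nil))))) .nil))) (.nd (nat_lit 5) 
(.lf (nat_lit 111519) (.g (nat_lit 2919) (.e (nat_lit 5584) (nat_lit 310) (.e (nat_lit 163871) (nat_lit 2) (.e (nat_lit 196669) (nat_lit 14) (.e (nat_lit 73755) (nat_lit 8) (.e (nat_lit 557105) (nat_lit 14) (.e (nat_lit 180252) (nat_lit 10) (.e (nat_lit 573474) (nat_lit 12) (.e (nat_lit 57348) (nat_lit 0) .nil)))))))) (.g (nat_lit 5) .nil .nil))) 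
(.lf (nat_lit 111551) (.g (nat_lit 2184) (.e (nat_lit 5584) (nat_lit 310) (.e (nat_lit 163874) (nat_lit 3) (.e (nat_lit 204861) (nat_lit 26) (.e (nat_lit 336215) (nat_lit 13) .nil)))) .nil))))))))

noncomputable def tv1504 : DT := (.nd (nat_lit 0) (.nd (nat_lit 1) (.nd (nat_lit 2) (.nd (nat_lit 3) (.nd (nat_lit 4) (.nd (nat_lit 5) 
(.lf (nat_lit 111552) (.g (nat_lit 2087) (.e (nat_lit 5584) (nat_lit 310) (.e (nat_lit 163875) (nat_lit 3) (.e (nat_lit 204863) (nat_lit 27) (.e (nat_lit 344117) (nat_lit 21) (.e (nat_lit 516130) (nat_lit 3) (.e (nat_lit 221215) (nat_lit 23) (.e (nat_lit 204821) (nat_lit 17) (.e (nat_lit 1086) (nat_lit 81) .nil)))))))) (.g (nat_lit 4) .nil .nil))) 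
(.lf (nat_lit 111584) (.g (nat_lit 2197) (.e (nat_lit 5586) (nat_lit 310) (.e (nat_lit 163931) (nat_lit 17) (.e (nat_lit 466947) (nat_lit 0) (.e (nat_lit 2173) (nat_lit 143) (.e (nat_lit 712755) (nat_lit 30) (.e (nat_lit 458496) (nat_lit 0) .nil)))))) (.g (nat_lit 5) .nil .nil)))) (.nd (nat_lit 5) 
(.lf (nat_lit 111568) (.g (nat_lit 2642) (.e (nat_lit 5585) (nat_lit 310) (.e (nat_lit 163875) (nat_lit 3) (.e (nat_lit 204862) (nat_lit 27) (.e (nat_lit 344117) (nat_lit 21) (.e (nat_lit 516123) (nat_lit 2) (.e (nat_lit 213013) (nat_lit 9) (.e (nat_lit 2684) (nat_lit 168) (.e (nat_lit 204817) (nat_lit 17) (.e (nat_lit 1030) (nat_lit 81) .nil))))))))) (.g (nat_lit 6) .nil .nil))) 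
(.lf (nat_lit 111600) (.g (nat_lit 2690) (.e (nat_lit 5587) (nat_lit 310) (.e (nat_lit 163868) (nat_lit 2) (.e (nat_lit 196670) (nat_lit 14) (.e (nat_lit 73754) (nat_lit 8) (.e (nat_lit 557105) (nat_lit 14) (.e (nat_lit 180252) (nat_lit 10) (.e (nat_lit 573475) (nat_lit 12) (.e (nat_lit 57344) (nat_lit 0) .nil)))))))) (.g (nat_lit 4) .nil .nil))))) (.nd (nat_lit 4) (.nd (nat_lit 5) 
(.lf (nat_lit 111560) (.g (nat_lit 2979) (.e (nat_lit 5585) (nat_lit 310) (.e (nat_lit 163869) (nat_lit 2) (.e (nat_lit 196670) (nat_lit 14) (.e (nat_lit 73754) (nat_lit 8) (.e (nat_lit 557105) (nat_lit 14) .nil))))) .nil)) 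
(.lf (nat_lit 111592) (.g (nat_lit 2418) (.e (nat_lit 5587) (nat_lit 310) (.e (nat_lit 163867) (nat_lit 2) (.e (nat_lit 196670) (nat_lit 14) (.e (nat_lit 73753) (nat_lit 8) (.e (nat_lit 557105) (nat_lit 14) (.e (nat_lit 180252) (nat_lit 10) (.e (nat_lit 573473) (nat_lit 12) (.e (nat_lit 65280) (nat_lit 0) .nil)))))))) (.g (nat_lit 4) .nil .nil)))) (.nd (nat_lit 5) 
(.lf (nat_lit 111576) (.g (nat_lit 2252) (.e (nat_lit 5586) (nat_lit 310) (.e (nat_lit 163875) (nat_lit 3) (.e (nat_lit 204862) (nat_lit 27) (.e (nat_lit 344117) (nat_lit 21) (.e (nat_lit 516130) (nat_lit 3) (.e (nat_lit 221212) (nat_lit 22) (.e (nat_lit 196677) (nat_lit 16) (.e (nat_lit 122880) (nat_lit 0) .nil)))))))) (.g (nat_lit 4) .nil .nil))) 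
(.lf (nat_lit 111608) (.g (nat_lit 2665) (.e (nat_lit 5587) (nat_lit 310) (.e (nat_lit 163869) (nat_lit 2) (.e (nat_lit 196670) (nat_lit 14) (.e (nat_lit 73753) (nat_lit 8) (.e (nat_lit 557103) (nat_lit 14) (.e (nat_lit 180250) (nat_lit 10) (.e (nat_lit 573474) (nat_lit 12) (.e (nat_lit 57344) (nat_lit 0) .nil)))))))) (.g (nat_lit 4) .nil .nil)))))) 
(.nd (nat_lit 3) (.nd (nat_lit 4) (.nd (nat_lit 5) 
(.lf (nat_lit 111556) (.g (nat_lit 1963) (.e (nat_lit 5584) (nat_lit 310) (.e (nat_lit 163947) (nat_lit 20) (.e (nat_lit 491563) (nat_lit 12) (.e (nat_lit 385102) (nat_lit 50) .nil)))) .nil)) 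
(.lf (nat_lit 111588) (.g (nat_lit 1608) (.e (nat_lit 5586) (nat_lit 310) (.e (nat_lit 163933) (nat_lit 17) (.e (nat_lit 466947) (nat_lit 0) (.e (nat_lit 2175) (nat_lit 143) (.e (nat_lit 712753) (nat_lit 30) (.e (nat_lit 458496) (nat_lit 0) .nil)))))) (.g (nat_lit 4) .nil .nil)))) (.nd (nat_lit 5) 
(.lf (nat_lit 111572) (.g (nat_lit 3102) (.e (nat_lit 5586) (nat_lit 310) (.e (nat_lit 163869) (nat_lit 2) (.e (nat_lit 196670) (nat_lit 14) (.e (nat_lit 73755) (nat_lit 8) (.e (nat_lit 557105) (nat_lit 14) .nil))))) .nil)) 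
(.lf (nat_lit 111604) (.g (nat_lit 2495) (.e (nat_lit 5587) (nat_lit 310) (.e (nat_lit 163869) (nat_lit 2) (.e (nat_lit 196670) (nat_lit 14) (.e (nat_lit 73746) (nat_lit 3) (.e (nat_lit 516129) (nat_lit 3) (.e (nat_lit 221210) (nat_lit 22) (.e (nat_lit 196660) (nat_lit 12) (.e (nat_lit 65280) (nat_lit 0) .nil)))))))) (.g (nat_lit 4) .nil .nil))))) (.nd (nat_lit 4) (.nd (nat_lit 5) 
(.lf (nat_lit 111564) (.g (nat_lit 2097) (.e (nat_lit 5585) (nat_lit 310) (.e (nat_lit 163871) (nat_lit 2) (.e (nat_lit 196670) (nat_lit 14) (.e (nat_lit 73746) (nat_lit 3) (.e (nat_lit 516129) (nat_lit 3) (.e (nat_lit 221210) (nat_lit 22) (.e (nat_lit 196677) (nat_lit 16) (.e (nat_lit 122882) (nat_lit 0) .nil)))))))) (.g (nat_lit 4) .nil .nil))) 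
(.lf (nat_lit 111596) (.g (nat_lit 3102) (.e (nat_lit 5587) (nat_lit 310) (.e (nat_lit 163868) (nat_lit 2) (.e (nat_lit 196668) (nat_lit 14) (.e (nat_lit 73753) (nat_lit 8) (.e (nat_lit 557103) (nat_lit 14) .nil))))) .nil))) (.nd (nat_lit 5) 
(.lf (nat_lit 111580) (.g (nat_lit 1539) (.e (nat_lit 5586) (nat_lit 310) (.e (nat_lit 163907) (nat_lit 12) (.e (nat_lit 426320) (nat_lit 12) (.e (nat_lit 475208) (nat_lit 41) .nil)))) .nil)) 
(.lf (nat_lit 111612) (.g (nat_lit 2677) (.e (nat_lit 5587) (nat_lit 310) (.e (nat_lit 163869) (nat_lit 2) (.e (nat_lit 196670) (nat_lit 14) (.e (nat_lit 73753) (nat_lit 8) (.e (nat_lit 557103) (nat_lit 14) (.e (nat_lit 180250) (nat_lit 10) (.e (nat_lit 573478) (nat_lit 12) (.e (nat_lit 65280) (nat_lit 0) .nil)))))))) (.g (nat_lit 4) .nil .nil))))))) 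
(.nd (nat_lit 2) (.nd (nat_lit 3) (.nd (nat_lit 4) (.nd (nat_lit 5) 
(.lf (nat_lit 111554) (.g (nat_lit 911) (.e (nat_lit 5584) (nat_lit 310) (.e (nat_lit 163920) (nat_lit 14) (.e (nat_lit 442374) (nat_lit 0) .nil))) .nil)) 
(.lf (nat_lit 111586) (.g (nat_lit 1272) (.e (nat_lit 5586) (nat_lit 310) (.e (nat_lit 163933) (nat_lit 17) (.e (nat_lit 466947) (nat_lit 0) (.e (nat_lit 2160) (nat_lit 143) (.e (nat_lit 712753) (nat_lit 30) .nil))))) .nil))) (.nd (nat_lit 5) 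
(.lf (nat_lit 111570) (.g (nat_lit 2181) (.e (nat_lit 5586) (nat_lit 310) (.e (nat_lit 163869) (nat_lit 2) (.e (nat_lit 196670) (nat_lit 14) (.e (nat_lit 73754) (nat_lit 8) .nil)))) .nil)) 
(.lf (nat_lit 111602) (.g (nat_lit 2890) (.e (nat_lit 5587) (nat_lit 310) (.e (nat_lit 163869) (nat_lit 2) (.e (nat_lit 196668) (nat_lit 14) (.e (nat_lit 73753) (nat_lit 8) (.e (nat_lit 557103) (nat_lit 14) .nil))))) .nil)))) (.nd (nat_lit 4) (.nd (nat_lit 5) 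
(.lf (nat_lit 111562) (.g (nat_lit 2000) (.e (nat_lit 5585) (nat_lit 310) (.e (nat_lit 163871) (nat_lit 2) (.e (nat_lit 196670) (nat_lit 14) (.e (nat_lit 73746) (nat_lit 3) (.e (nat_lit 516129) (nat_lit 3) .nil))))) .nil)) 
(.lf (nat_lit 111594) (.g (nat_lit 3869) (.e (nat_lit 5587) (nat_lit 310) (.e (nat_lit 163867) (nat_lit 2) (.e (nat_lit 196670) (nat_lit 14) (.e (nat_lit 73754) (nat_lit 8) (.e (nat_lit 557105) (nat_lit 14) (.e (nat_lit 180252) (nat_lit 10) (.e (nat_lit 573475) (nat_lit 12) (.e (nat_lit 65280) (nat_lit 0) .nil)))))))) (.g (nat_lit 7) .nil .nil)))) (.nd (nat_lit 5) 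
(.lf (nat_lit 111578) (.g (nat_lit 1415) (.e (nat_lit 5586) (nat_lit 310) (.e (nat_lit 163905) (nat_lit 12) (.e (nat_lit 426320) (nat_lit 12) (.e (nat_lit 475207) (nat_lit 41) .nil)))) .nil)) 
(.lf (nat_lit 111610) (.g (nat_lit 2618) (.e (nat_lit 5587) (nat_lit 310) (.e (nat_lit 163869) (nat_lit 2) (.e (nat_lit 196670) (nat_lit 14) (.e (nat_lit 73753) (nat_lit 8) (.e (nat_lit 557103) (nat_lit 14) (.e (nat_lit 180250) (nat_lit 10) (.e (nat_lit 573477) (nat_lit 12) (.e (nat_lit 65280) (nat_lit 0) .nil)))))))) (.g (nat_lit 4) .nil .nil)))))) 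
(.nd (nat_lit 3) (.nd (nat_lit 4) (.nd (nat_lit 5) 
(.lf (nat_lit 111558) (.g (nat_lit 2217) (.e (nat_lit 5585) (nat_lit 310) (.e (nat_lit 163867) (nat_lit 2) (.e (nat_lit 196670) (nat_lit 14) (.e (nat_lit 73746) (nat_lit 3) (.e (nat_lit 516129) (nat_lit 3) .nil))))) .nil)) 
(.lf (nat_lit 111590) (.g (nat_lit 1934) (.e (nat_lit 5587) (nat_lit 310) (.e (nat_lit 163846) (nat_lit 0) (.e (nat_lit 6989) (nat_lit 377) (.e (nat_lit 1361) (nat_lit 102) (.e (nat_lit 286761) (nat_lit 13) (.e (nat_lit 393289) (nat_lit 25) (.e (nat_lit 466688) (nat_lit 18) .nil))))))) (.g (nat_lit 6) .nil .nil)))) (.nd (nat_lit 5) 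
(.lf (nat_lit 111574) (.g (nat_lit 2545) (.e (nat_lit 5586) (nat_lit 310) (.e (nat_lit 163874) (nat_lit 3) (.e (nat_lit 204861) (nat_lit 26) (.e (nat_lit 336213) (nat_lit 13) (.e (nat_lit 393229) (nat_lit 9) .nil))))) .nil)) 
(.lf (nat_lit 111606) (.g (nat_lit 2113) (.e (nat_lit 5587) (nat_lit 310) (.e (nat_lit 163869) (nat_lit 2) (.e (nat_lit 196670) (nat_lit 14) (.e (nat_lit 73746) (nat_lit 3) (.e (nat_lit 516131) (nat_lit 3) .nil))))) .nil)))) (.nd (nat_lit 4) (.nd (nat_lit 5) 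
(.lf (nat_lit 111566) (.g (nat_lit 2302) (.e (nat_lit 5585) (nat_lit 310) (.e (nat_lit 163871) (nat_lit 2) (.e (nat_lit 196670) (nat_lit 14) (.e (nat_lit 73755) (nat_lit 8) (.e (nat_lit 557105) (nat_lit 14) .nil))))) .nil)) 
(.lf (nat_lit 111598) (.g (nat_lit 2486) (.e (nat_lit 5587) (nat_lit 310) (.e (nat_lit 163868) (nat_lit 2) (.e (nat_lit 196670) (nat_lit 14) (.e (nat_lit 73746) (nat_lit 3) (.e (nat_lit 516129) (nat_lit 3) .nil))))) .nil))) (.nd (nat_lit 5) 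
(.lf (nat_lit 111582) (.g (nat_lit 1482) (.e (nat_lit 5586) (nat_lit 310) (.e (nat_lit 163931) (nat_lit 17) (.e (nat_lit 466947) (nat_lit 0) (.e (nat_lit 2160) (nat_lit 143) (.e (nat_lit 712753) (nat_lit 30) (.e (nat_lit 458496) (nat_lit 0) .nil)))))) (.g (nat_lit 4) .nil .nil))) 
(.lf (nat_lit 111614) (.g (nat_lit 2772) (.e (nat_lit 5587) (nat_lit 310) (.e (nat_lit 163869) (nat_lit 2) (.e (nat_lit 196670) (nat_lit 14) (.e (nat_lit 73754) (nat_lit 8) (.e (nat_lit 557105) (nat_lit 14) .nil))))) .nil))))))) (.nd (nat_lit 1) (.nd (nat_lit 2) (.nd (nat_lit 3) (.nd (nat_lit 4) (.nd (nat_lit 5) 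
(.lf (nat_lit 111553) (.g (nat_lit 3326) (.e (nat_lit 5584) (nat_lit 310) (.e (nat_lit 163908) (nat_lit 12) (.e (nat_lit 426338) (nat_lit 14) (.e (nat_lit 491549) (nat_lit 9) (.e (nat_lit 336432) (nat_lit 30) (.e (nat_lit 450569) (nat_lit 0) .nil)))))) (.g (nat_lit 6) .nil .nil))) 
(.lf (nat_lit 111585) (.g (nat_lit 1768) (.e (nat_lit 5586) (nat_lit 310) (.e (nat_lit 163931) (nat_lit 17) (.e (nat_lit 466947) (nat_lit 0) (.e (nat_lit 2175) (nat_lit 143) (.e (nat_lit 712753) (nat_lit 30) (.e (nat_lit 458496) (nat_lit 0) .nil)))))) (.g (nat_lit 4) .nil .nil)))) (.nd (nat_lit 5) 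
(.lf (nat_lit 111569) (.g (nat_lit 2422) (.e (nat_lit 5586) (nat_lit 310) (.e (nat_lit 163869) (nat_lit 2) (.e (nat_lit 196670) (nat_lit 14) (.e (nat_lit 73753) (nat_lit 8) (.e (nat_lit 557105) (nat_lit 14) .nil))))) .nil)) 
(.lf (nat_lit 111601) (.g (nat_lit 2817) (.e (nat_lit 5587) (nat_lit 310) (.e (nat_lit 163868) (nat_lit 2) (.e (nat_lit 196670) (nat_lit 14) (.e (nat_lit 73754) (nat_lit 8) (.e (nat_lit 557105) (nat_lit 14) (.e (nat_lit 180252) (nat_lit 10) (.e (nat_lit 573475) (nat_lit 12) (.e (nat_lit 65280) (nat_lit 0) .nil)))))))) (.g (nat_lit 4) .nil .nil))))) (.nd (nat_lit 4) (.nd (nat_lit 5) 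
(.lf (nat_lit 111561) (.g (nat_lit 3249) (.e (nat_lit 5585) (nat_lit 310) (.e (nat_lit 163869) (nat_lit 2) (.e (nat_lit 196670) (nat_lit 14) (.e (nat_lit 73755) (nat_lit 8) (.e (nat_lit 557105) (nat_lit 14) .nil))))) .nil)) 
(.lf (nat_lit 111593) (.g (nat_lit 2534) (.e (nat_lit 5587) (nat_lit 310) (.e (nat_lit 163867) (nat_lit 2) (.e (nat_lit 196670) (nat_lit 14) (.e (nat_lit 73754) (nat_lit 8) (.e (nat_lit 557105) (nat_lit 14) (.e (nat_lit 180251) (nat_lit 10) (.e (nat_lit 573478) (nat_lit 12) (.e (nat_lit 65280) (nat_lit 0) .nil)))))))) (.g (nat_lit 5) .nil .nil)))) (.nd (nat_lit 5) 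
(.lf (nat_lit 111577) (.g (nat_lit 529) (.e (nat_lit 5586) (nat_lit 310) (.e (nat_lit 163905) (nat_lit 12) (.e (nat_lit 426320) (nat_lit 12) .nil))) .nil)) 
(.lf (nat_lit 111609) (.g (nat_lit 2478) (.e (nat_lit 5587) (nat_lit 310) (.e (nat_lit 163869) (nat_lit 2) (.e (nat_lit 196670) (nat_lit 14) (.e (nat_lit 73753) (nat_lit 8) (.e (nat_lit 557103) (nat_lit 14) (.e (nat_lit 180250) (nat_lit 10) (.e (nat_lit 573475) (nat_lit 12) (.e (nat_lit 65280) (nat_lit 0) .nil)))))))) (.g (nat_lit 4) .nil .nil)))))) 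
(.nd (nat_lit 3) (.nd (nat_lit 4) (.nd (nat_lit 5) 
(.lf (nat_lit 111557) (.g (nat_lit 3566) (.e (nat_lit 5584) (nat_lit 310) (.e (nat_lit 163947) (nat_lit 20) (.e (nat_lit 491563) (nat_lit 12) (.e (nat_lit 385102) (nat_lit 50) (.e (nat_lit 786483) (nat_lit 30) (.e (nat_lit 360451) (nat_lit 0) .nil)))))) (.g (nat_lit 6) .nil .nil))) 
(.lf (nat_lit 111589) (.g (nat_lit 3586) (.e (nat_lit 5587) (nat_lit 310) (.e (nat_lit 163842) (nat_lit 0) (.e (nat_lit 7065) (nat_lit 377) (.e (nat_lit 1349) (nat_lit 102) (.e (nat_lit 286761) (nat_lit 13) (.e (nat_lit 393289) (nat_lit 25) (.e (nat_lit 466688) (nat_lit 18) .nil))))))) (.g (nat_lit 6) .nil .nil)))) (.nd (nat_lit 5) 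
(.lf (nat_lit 111573) (.g (nat_lit 1837) (.e (nat_lit 5586) (nat_lit 310) (.e (nat_lit 163871) (nat_lit 2) (.e (nat_lit 196670) (nat_lit 14) (.e (nat_lit 73746) (nat_lit 3) (.e (nat_lit 516131) (nat_lit 3) .nil))))) .nil)) 
(.lf (nat_lit 111605) (.g (nat_lit 3980) (.e (nat_lit 5587) (nat_lit 310) (.e (nat_lit 163869) (nat_lit 2) (.e (nat_lit 196670) (nat_lit 14) (.e (nat_lit 73746) (nat_lit 3) (.e (nat_lit 516129) (nat_lit 3) (.e (nat_lit 221210) (nat_lit 22) (.e (nat_lit 196661) (nat_lit 12) (.e (nat_lit 65280) (nat_lit 0) .nil)))))))) (.g (nat_lit 6) .nil .nil))))) (.nd (nat_lit 4) (.nd (nat_lit 5) 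
(.lf (nat_lit 111565) (.g (nat_lit 2518) (.e (nat_lit 5585) (nat_lit 310) (.e (nat_lit 163871) (nat_lit 2) (.e (nat_lit 196670) (nat_lit 14) (.e (nat_lit 73754) (nat_lit 8) (.e (nat_lit 557105) (nat_lit 14) .nil))))) .nil)) 
(.lf (nat_lit 111597) (.g (nat_lit 2024) (.e (nat_lit 5587) (nat_lit 310) (.e (nat_lit 163868) (nat_lit 2) (.e (nat_lit 196669) (nat_lit 14) (.e (nat_lit 73755) (nat_lit 8) (.e (nat_lit 557105) (nat_lit 14) .nil))))) .nil))) (.nd (nat_lit 5) 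
(.lf (nat_lit 111581) (.g (nat_lit 561) (.e (nat_lit 5586) (nat_lit 310) (.e (nat_lit 163931) (nat_lit 17) (.e (nat_lit 466945) (nat_lit 0) .nil))) .nil)) 
(.lf (nat_lit 111613) (.g (nat_lit 3151) (.e (nat_lit 5587) (nat_lit 310) (.e (nat_lit 163869) (nat_lit 2) (.e (nat_lit 196670) (nat_lit 14) (.e (nat_lit 73753) (nat_lit 8) (.e (nat_lit 557105) (nat_lit 14) (.e (nat_lit 180252) (nat_lit 10) (.e (nat_lit 573473) (nat_lit 12) (.e (nat_lit 65280) (nat_lit 0) .nil)))))))) (.g (nat_lit 5) .nil .nil))))))) 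
(.nd (nat_lit 2) (.nd (nat_lit 3) (.nd (nat_lit 4) (.nd (nat_lit 5) 
(.lf (nat_lit 111555) (.g (nat_lit 808) (.e (nat_lit 5584) (nat_lit 310) (.e (nat_lit 163933) (nat_lit 17) (.e (nat_lit 466947) (nat_lit 0) .nil))) .nil)) 
(.lf (nat_lit 111587) (.g (nat_lit 1199) (.e (nat_lit 5586) (nat_lit 310) (.e (nat_lit 163933) (nat_lit 17) (.e (nat_lit 466947) (nat_lit 0) (.e (nat_lit 2172) (nat_lit 143) (.e (nat_lit 712753) (nat_lit 30) (.e (nat_lit 458496) (nat_lit 0) .nil)))))) (.g (nat_lit 4) .nil .nil)))) (.nd (nat_lit 5) 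
(.lf (nat_lit 111571) (.g (nat_lit 2851) (.e (nat_lit 5586) (nat_lit 310) (.e (nat_lit 163869) (nat_lit 2) (.e (nat_lit 196670) (nat_lit 14) (.e (nat_lit 73754) (nat_lit 8) (.e (nat_lit 557105) (nat_lit 14) (.e (nat_lit 180252) (nat_lit 10) (.e (nat_lit 573475) (nat_lit 12) (.e (nat_lit 57355) (nat_lit 0) .nil)))))))) (.g (nat_lit 4) .nil .nil))) 
(.lf (nat_lit 111603) (.g (nat_lit 3386) (.e (nat_lit 5587) (nat_lit 310) (.e (nat_lit 163869) (nat_lit 2) (.e (nat_lit 196668) (nat_lit 14) (.e (nat_lit 73753) (nat_lit 8) (.e (nat_lit 557105) (nat_lit 14) (.e (nat_lit 180252) (nat_lit 10) (.e (nat_lit 573474) (nat_lit 12) (.e (nat_lit 65280) (nat_lit 0) .nil)))))))) (.g (nat_lit 4) .nil .nil))))) (.nd (nat_lit 4) (.nd (nat_lit 5) 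
(.lf (nat_lit 111563) (.g (nat_lit 2782) (.e (nat_lit 5585) (nat_lit 310) (.e (nat_lit 163871) (nat_lit 2) (.e (nat_lit 196670) (nat_lit 14) (.e (nat_lit 73746) (nat_lit 3) (.e (nat_lit 516129) (nat_lit 3) (.e (nat_lit 221210) (nat_lit 22) (.e (nat_lit 196677) (nat_lit 16) (.e (nat_lit 122880) (nat_lit 0) .nil)))))))) (.g (nat_lit 5) .nil .nil))) 
(.lf (nat_lit 111595) (.g (nat_lit 2836) (.e (nat_lit 5587) (nat_lit 310) (.e (nat_lit 163867) (nat_lit 2) (.e (nat_lit 196670) (nat_lit 14) (.e (nat_lit 73755) (nat_lit 8) (.e (nat_lit 557105) (nat_lit 14) (.e (nat_lit 180252) (nat_lit 10) (.e (nat_lit 573474) (nat_lit 12) (.e (nat_lit 57344) (nat_lit 0) .nil)))))))) (.g (nat_lit 4) .nil .nil)))) (.nd (nat_lit 5) 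
(.lf (nat_lit 111579) (.g (nat_lit 1560) (.e (nat_lit 5586) (nat_lit 310) (.e (nat_lit 163907) (nat_lit 12) (.e (nat_lit 426320) (nat_lit 12) (.e (nat_lit 475207) (nat_lit 41) .nil)))) .nil)) 
(.lf (nat_lit 111611) (.g (nat_lit 2668) (.e (nat_lit 5587) (nat_lit 310) (.e (nat_lit 163869) (nat_lit 2) (.e (nat_lit 196670) (nat_lit 14) (.e (nat_lit 73753) (nat_lit 8) (.e (nat_lit 557103) (nat_lit 14) (.e (nat_lit 180250) (nat_lit 10) (.e (nat_lit 573478) (nat_lit 12) (.e (nat_lit 57344) (nat_lit 0) .nil)))))))) (.g (nat_lit 4) .nil .nil)))))) 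
(.nd (nat_lit 3) (.nd (nat_lit 4) (.nd (nat_lit 5) 
(.lf (nat_lit 111559) (.g (nat_lit 2785) (.e (nat_lit 5585) (nat_lit 310) (.e (nat_lit 163867) (nat_lit 2) (.e (nat_lit 196670) (nat_lit 14) (.e (nat_lit 73755) (nat_lit 8) (.e (nat_lit 557105) (nat_lit 14) (.e (nat_lit 180252) (nat_lit 10) (.e (nat_lit 573474) (nat_lit 12) (.e (nat_lit 57344) (nat_lit 0) .nil)))))))) (.g (nat_lit 4) .nil .nil))) 
(.lf (nat_lit 111591) (.g (nat_lit 3037) (.e (nat_lit 5587) (nat_lit 310) (.e (nat_lit 163867) (nat_lit 2) (.e (nat_lit 196669) (nat_lit 14) (.e (nat_lit 73755) (nat_lit 8) (.e (nat_lit 557105) (nat_lit 14) (.e (nat_lit 180252) (nat_lit 10) (.e (nat_lit 573474) (nat_lit 12) (.e (nat_lit 65280) (nat_lit 0) .nil)))))))) (.g (nat_lit 5) .nil .nil)))) (.nd (nat_lit 5) 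
(.lf (nat_lit 111575) (.g (nat_lit 2210) (.e (nat_lit 5586) (nat_lit 310) (.e (nat_lit 163875) (nat_lit 3) (.e (nat_lit 204862) (nat_lit 27) (.e (nat_lit 344117) (nat_lit 21) (.e (nat_lit 516123) (nat_lit 2) .nil))))) .nil)) 
(.lf (nat_lit 111607) (.g (nat_lit 3014) (.e (nat_lit 5587) (nat_lit 310) (.e (nat_lit 163869) (nat_lit 2) (.e (nat_lit 196670) (nat_lit 14) (.e (nat_lit 73746) (nat_lit 3) (.e (nat_lit 516131) (nat_lit 3) (.e (nat_lit 221211) (nat_lit 22) (.e (nat_lit 196661) (nat_lit 12) (.e (nat_lit 65280) (nat_lit 0) .nil)))))))) (.g (nat_lit 6) .nil .nil))))) (.nd (nat_lit 4) (.nd (nat_lit 5) 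
(.lf (nat_lit 111567) (.g (nat_lit 1962) (.e (nat_lit 5585) (nat_lit 310) (.e (nat_lit 163875) (nat_lit 3) (.e (nat_lit 204861) (nat_lit 26) (.e (nat_lit 336213) (nat_lit 13) (.e (nat_lit 393225) (nat_lit 9) .nil))))) .nil)) 
(.lf (nat_lit 111599) (.g (nat_lit 3044) (.e (nat_lit 5587) (nat_lit 310) (.e (nat_lit 163868) (nat_lit 2) (.e (nat_lit 196670) (nat_lit 14) (.e (nat_lit 73753) (nat_lit 8) (.e (nat_lit 557105) (nat_lit 14) (.e (nat_lit 180252) (nat_lit 10) (.e (nat_lit 573474) (nat_lit 12) (.e (nat_lit 65280) (nat_lit 0) .nil)))))))) (.g (nat_lit 4) .nil .nil)))) (.nd (nat_lit 5) 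
(.lf (nat_lit 111583) (.g (nat_lit 1770) (.e (nat_lit 5586) (nat_lit 310) (.e (nat_lit 163931) (nat_lit 17) (.e (nat_lit 466947) (nat_lit 0) (.e (nat_lit 2173) (nat_lit 143) (.e (nat_lit 712753) (nat_lit 30) (.e (nat_lit 458496) (nat_lit 0) .nil)))))) (.g (nat_lit 5) .nil .nil))) 
(.lf (nat_lit 111615) (.g (nat_lit 3057) (.e (nat_lit 5587) (nat_lit 310) (.e (nat_lit 163869) (nat_lit 2) (.e (nat_lit 196670) (nat_lit 14) (.e (nat_lit 73755) (nat_lit 8) (.e (nat_lit 557105) (nat_lit 14) .nil))))) .nil))))))))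

noncomputable def tv1505 : DT := (.nd (nat_lit 0) (.nd (nat_lit 1) (.nd (nat_lit 2) (.nd (nat_lit 3) (.nd (nat_lit 4) (.nd (nat_lit 5) 
(.lf (nat_lit 111616) (.g (nat_lit 1944) (.e (nat_lit 5587) (nat_lit 310) (.e (nat_lit 163870) (nat_lit 2) (.e (nat_lit 196669) (nat_lit 14) (.e (nat_lit 73755) (nat_lit 8) (.e (nat_lit 557105) (nat_lit 14) .nil))))) .nil)) 
(.lf (nat_lit 111648) (.g (nat_lit 2466) (.e (nat_lit 5587) (nat_lit 310) (.e (nat_lit 163874) (nat_lit 3) (.e (nat_lit 204861) (nat_lit 26) (.e (nat_lit 336213) (nat_lit 13) (.e (nat_lit 401152) (nat_lit 10) .nil))))) .nil))) (.nd (nat_lit 5) 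
(.lf (nat_lit 111632) (.g (nat_lit 2972) (.e (nat_lit 5587) (nat_lit 310) (.e (nat_lit 163873) (nat_lit 3) (.e (nat_lit 204861) (nat_lit 26) (.e (nat_lit 336213) (nat_lit 13) (.e (nat_lit 393225) (nat_lit 9) (.e (nat_lit 335914) (nat_lit 0) (.e (nat_lit 1032) (nat_lit 81) .nil))))))) (.g (nat_lit 5) .nil .nil))) 
(.lf (nat_lit 111664) (.g (nat_lit 2438) (.e (nat_lit 5587) (nat_lit 310) (.e (nat_lit 163874) (nat_lit 3) (.e (nat_lit 204864) (nat_lit 27) (.e (nat_lit 344133) (nat_lit 26) (.e (nat_lit 557103) (nat_lit 14) (.e (nat_lit 180250) (nat_lit 10) (.e (nat_lit 573474) (nat_lit 12) (.e (nat_lit 57344) (nat_lit 0) .nil)))))))) (.g (nat_lit 4) .nil .nil))))) (.nd (nat_lit 4) (.nd (nat_lit 5) 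
(.lf (nat_lit 111624) (.g (nat_lit 3328) (.e (nat_lit 5587) (nat_lit 310) (.e (nat_lit 163871) (nat_lit 2) (.e (nat_lit 196670) (nat_lit 14) (.e (nat_lit 73746) (nat_lit 3) (.e (nat_lit 516131) (nat_lit 3) (.e (nat_lit 221212) (nat_lit 22) (.e (nat_lit 196677) (nat_lit 16) (.e (nat_lit 122880) (nat_lit 0) .nil)))))))) (.g (nat_lit 7) .nil .nil))) 
(.lf (nat_lit 111656) (.g (nat_lit 2328) (.e (nat_lit 5587) (nat_lit 310) (.e (nat_lit 163874) (nat_lit 3) (.e (nat_lit 204864) (nat_lit 27) (.e (nat_lit 344130) (nat_lit 26) (.e (nat_lit 557103) (nat_lit 14) (.e (nat_lit 180250) (nat_lit 10) (.e (nat_lit 573477) (nat_lit 12) (.e (nat_lit 65280) (nat_lit 0) .nil)))))))) (.g (nat_lit 4) .nil .nil)))) (.nd (nat_lit 5) 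
(.lf (nat_lit 111640) (.g (nat_lit 2960) (.e (nat_lit 5587) (nat_lit 310) (.e (nat_lit 163873) (nat_lit 3) (.e (nat_lit 204864) (nat_lit 27) (.e (nat_lit 344132) (nat_lit 26) (.e (nat_lit 557105) (nat_lit 14) (.e (nat_lit 180252) (nat_lit 10) (.e (nat_lit 573475) (nat_lit 12) (.e (nat_lit 65280) (nat_lit 0) .nil)))))))) (.g (nat_lit 5) .nil .nil))) 
(.lf (nat_lit 111672) (.g (nat_lit 2075) (.e (nat_lit 5587) (nat_lit 310) (.e (nat_lit 163875) (nat_lit 3) (.e (nat_lit 204862) (nat_lit 27) (.e (nat_lit 344117) (nat_lit 21) (.e (nat_lit 516123) (nat_lit 2) .nil))))) .nil))))) (.nd (nat_lit 3) (.nd (nat_lit 4) (.nd (nat_lit 5) 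
(.lf (nat_lit 111620) (.g (nat_lit 2049) (.e (nat_lit 5587) (nat_lit 310) (.e (nat_lit 163871) (nat_lit 2) (.e (nat_lit 196669) (nat_lit 14) (.e (nat_lit 73755) (nat_lit 8) (.e (nat_lit 557105) (nat_lit 14) (.e (nat_lit 180252) (nat_lit 10) (.e (nat_lit 573474) (nat_lit 12) (.e (nat_lit 57344) (nat_lit 0) .nil)))))))) (.g (nat_lit 4) .nil .nil))) 
(.lf (nat_lit 111652) (.g (nat_lit 2942) (.e (nat_lit 5587) (nat_lit 310) (.e (nat_lit 163874) (nat_lit 3) (.e (nat_lit 204863) (nat_lit 27) (.e (nat_lit 344132) (nat_lit 26) (.e (nat_lit 557105) (nat_lit 14) (.e (nat_lit 180252) (nat_lit 10) (.e (nat_lit 573475) (nat_lit 12) (.e (nat_lit 57344) (nat_lit 0) .nil)))))))) (.g (nat_lit 4) .nil .nil)))) (.nd (nat_lit 5) 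
(.lf (nat_lit 111636) (.g (nat_lit 1838) (.e (nat_lit 5587) (nat_lit 310) (.e (nat_lit 163873) (nat_lit 3) (.e (nat_lit 204861) (nat_lit 26) (.e (nat_lit 336215) (nat_lit 13) (.e (nat_lit 401152) (nat_lit 10) .nil))))) .nil)) 
(.lf (nat_lit 111668) (.g (nat_lit 3576) (.e (nat_lit 5587) (nat_lit 310) (.e (nat_lit 163874) (nat_lit 3) (.e (nat_lit 204864) (nat_lit 27) (.e (nat_lit 344133) (nat_lit 26) (.e (nat_lit 557105) (nat_lit 14) (.e (nat_lit 180252) (nat_lit 10) (.e (nat_lit 573475) (nat_lit 12) (.e (nat_lit 65280) (nat_lit 0) .nil)))))))) (.g (nat_lit 5) .nil .nil))))) (.nd (nat_lit 4) (.nd (nat_lit 5) 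
(.lf (nat_lit 111628) (.g (nat_lit 3322) (.e (nat_lit 5587) (nat_lit 310) (.e (nat_lit 163871) (nat_lit 2) (.e (nat_lit 196670) (nat_lit 14) (.e (nat_lit 73754) (nat_lit 8) (.e (nat_lit 557105) (nat_lit 14) (.e (nat_lit 180252) (nat_lit 10) (.e (nat_lit 573475) (nat_lit 12) (.e (nat_lit 57344) (nat_lit 0) .nil)))))))) (.g (nat_lit 5) .nil .nil))) 
(.lf (nat_lit 111660) (.g (nat_lit 2355) (.e (nat_lit 5587) (nat_lit 310) (.e (nat_lit 163874) (nat_lit 3) (.e (nat_lit 204864) (nat_lit 27) (.e (nat_lit 344132) (nat_lit 26) (.e (nat_lit 557105) (nat_lit 14) (.e (nat_lit 180251) (nat_lit 10) (.e (nat_lit 573478) (nat_lit 12) (.e (nat_lit 65280) (nat_lit 0) .nil)))))))) (.g (nat_lit 4) .nil .nil)))) (.nd (nat_lit 5) 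
(.lf (nat_lit 111644) (.g (nat_lit 2358) (.e (nat_lit 5587) (nat_lit 310) (.e (nat_lit 163874) (nat_lit 3) (.e (nat_lit 204861) (nat_lit 26) (.e (nat_lit 336213) (nat_lit 13) (.e (nat_lit 393225) (nat_lit 9) (.e (nat_lit 335913) (nat_lit 0) (.e (nat_lit 1032) (nat_lit 81) .nil))))))) (.g (nat_lit 4) .nil .nil))) 
(.lf (nat_lit 111676) (.g (nat_lit 3265) (.e (nat_lit 5587) (nat_lit 310) (.e (nat_lit 163875) (nat_lit 3) (.e (nat_lit 204862) (nat_lit 27) (.e (nat_lit 344117) (nat_lit 21) (.e (nat_lit 516130) (nat_lit 3) (.e (nat_lit 221212) (nat_lit 22) (.e (nat_lit 196677) (nat_lit 16) (.e (nat_lit 122880) (nat_lit 0) .nil)))))))) (.g (nat_lit 5) .nil .nil))))))) 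
(.nd (nat_lit 2) (.nd (nat_lit 3) (.nd (nat_lit 4) (.nd (nat_lit 5) 
(.lf (nat_lit 111618) (.g (nat_lit 2539) (.e (nat_lit 5587) (nat_lit 310) (.e (nat_lit 163870) (nat_lit 2) (.e (nat_lit 196670) (nat_lit 14) (.e (nat_lit 73754) (nat_lit 8) (.e (nat_lit 557105) (nat_lit 14) (.e (nat_lit 180252) (nat_lit 10) (.e (nat_lit 573475) (nat_lit 12) (.e (nat_lit 65280) (nat_lit 0) .nil)))))))) (.g (nat_lit 4) .nil .nil))) 
(.lf (nat_lit 111650) (.g (nat_lit 1948) (.e (nat_lit 5587) (nat_lit 310) (.e (nat_lit 163874) (nat_lit 3) (.e (nat_lit 204861) (nat_lit 26) (.e (nat_lit 336215) (nat_lit 13) .nil)))) .nil))) (.nd (nat_lit 5) 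
(.lf (nat_lit 111634) (.g (nat_lit 1740) (.e (nat_lit 5587) (nat_lit 310) (.e (nat_lit 163873) (nat_lit 3) (.e (nat_lit 204861) (nat_lit 26) (.e (nat_lit 336213) (nat_lit 13) (.e (nat_lit 401152) (nat_lit 10) .nil))))) .nil)) 
(.lf (nat_lit 111666) (.g (nat_lit 2441) (.e (nat_lit 5587) (nat_lit 310) (.e (nat_lit 163874) (nat_lit 3) (.e (nat_lit 204864) (nat_lit 27) (.e (nat_lit 344133) (nat_lit 26) (.e (nat_lit 557103) (nat_lit 14) (.e (nat_lit 180250) (nat_lit 10) (.e (nat_lit 573478) (nat_lit 12) (.e (nat_lit 57344) (nat_lit 0) .nil)))))))) (.g (nat_lit 4) .nil .nil))))) (.nd (nat_lit 4) (.nd (nat_lit 5) 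
(.lf (nat_lit 111626) (.g (nat_lit 2695) (.e (nat_lit 5587) (nat_lit 310) (.e (nat_lit 163871) (nat_lit 2) (.e (nat_lit 196670) (nat_lit 14) (.e (nat_lit 73753) (nat_lit 8) (.e (nat_lit 557105) (nat_lit 14) .nil))))) .nil)) 
(.lf (nat_lit 111658) (.g (nat_lit 2387) (.e (nat_lit 5587) (nat_lit 310) (.e (nat_lit 163874) (nat_lit 3) (.e (nat_lit 204864) (nat_lit 27) (.e (nat_lit 344130) (nat_lit 26) (.e (nat_lit 557103) (nat_lit 14) (.e (nat_lit 180250) (nat_lit 10) (.e (nat_lit 573478) (nat_lit 12) (.e (nat_lit 65280) (nat_lit 0) .nil)))))))) (.g (nat_lit 4) .nil .nil)))) (.nd (nat_lit 5) 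
(.lf (nat_lit 111642) (.g (nat_lit 2313) (.e (nat_lit 5587) (nat_lit 310) (.e (nat_lit 163874) (nat_lit 3) (.e (nat_lit 204861) (nat_lit 26) (.e (nat_lit 336213) (nat_lit 13) (.e (nat_lit 393225) (nat_lit 9) .nil))))) .nil)) 
(.lf (nat_lit 111674) (.g (nat_lit 2791) (.e (nat_lit 5587) (nat_lit 310) (.e (nat_lit 163875) (nat_lit 3) (.e (nat_lit 204862) (nat_lit 27) (.e (nat_lit 344117) (nat_lit 21) (.e (nat_lit 516123) (nat_lit 2) (.e (nat_lit 213013) (nat_lit 9) (.e (nat_lit 2684) (nat_lit 168) (.e (nat_lit 204818) (nat_lit 17) (.e (nat_lit 1032) (nat_lit 81) .nil))))))))) (.g (nat_lit 5) .nil .nil)))))) 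
(.nd (nat_lit 3) (.nd (nat_lit 4) (.nd (nat_lit 5) 
(.lf (nat_lit 111622) (.g (nat_lit 3480) (.e (nat_lit 5587) (nat_lit 310) (.e (nat_lit 163871) (nat_lit 2) (.e (nat_lit 196670) (nat_lit 14) (.e (nat_lit 73746) (nat_lit 3) (.e (nat_lit 516129) (nat_lit 3) (.e (nat_lit 221210) (nat_lit 22) (.e (nat_lit 196661) (nat_lit 12) (.e (nat_lit 65280) (nat_lit 0) .nil)))))))) (.g (nat_lit 6) .nil .nil))) 
(.lf (nat_lit 111654) (.g (nat_lit 3075) (.e (nat_lit 5587) (nat_lit 310) (.e (nat_lit 163874) (nat_lit 3) (.e (nat_lit 204863) (nat_lit 27) (.e (nat_lit 344133) (nat_lit 26) (.e (nat_lit 557105) (nat_lit 14) (.e (nat_lit 180252) (nat_lit 10) (.e (nat_lit 573475) (nat_lit 12) (.e (nat_lit 57344) (nat_lit 0) .nil)))))))) (.g (nat_lit 4) .nil .nil)))) (.nd (nat_lit 5) 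
(.lf (nat_lit 111638) (.g (nat_lit 2241) (.e (nat_lit 5587) (nat_lit 310) (.e (nat_lit 163873) (nat_lit 3) (.e (nat_lit 204864) (nat_lit 27) (.e (nat_lit 344132) (nat_lit 26) (.e (nat_lit 557105) (nat_lit 14) (.e (nat_lit 180252) (nat_lit 10) (.e (nat_lit 573473) (nat_lit 12) (.e (nat_lit 65280) (nat_lit 0) .nil)))))))) (.g (nat_lit 4) .nil .nil))) 
(.lf (nat_lit 111670) (.g (nat_lit 2089) (.e (nat_lit 5587) (nat_lit 310) (.e (nat_lit 163875) (nat_lit 3) (.e (nat_lit 204861) (nat_lit 26) (.e (nat_lit 336213) (nat_lit 13) (.e (nat_lit 393229) (nat_lit 9) (.e (nat_lit 335912) (nat_lit 0) (.e (nat_lit 1032) (nat_lit 81) .nil))))))) (.g (nat_lit 4) .nil .nil))))) (.nd (nat_lit 4) (.nd (nat_lit 5) 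
(.lf (nat_lit 111630) (.g (nat_lit 2654) (.e (nat_lit 5587) (nat_lit 310) (.e (nat_lit 163871) (nat_lit 2) (.e (nat_lit 196670) (nat_lit 14) (.e (nat_lit 73755) (nat_lit 8) (.e (nat_lit 557105) (nat_lit 14) (.e (nat_lit 180252) (nat_lit 10) (.e (nat_lit 573474) (nat_lit 12) (.e (nat_lit 65280) (nat_lit 0) .nil)))))))) (.g (nat_lit 4) .nil .nil))) 
(.lf (nat_lit 111662) (.g (nat_lit 3562) (.e (nat_lit 5587) (nat_lit 310) (.e (nat_lit 163874) (nat_lit 3) (.e (nat_lit 204864) (nat_lit 27) (.e (nat_lit 344132) (nat_lit 26) (.e (nat_lit 557105) (nat_lit 14) (.e (nat_lit 180252) (nat_lit 10) (.e (nat_lit 573475) (nat_lit 12) (.e (nat_lit 57344) (nat_lit 0) .nil)))))))) (.g (nat_lit 6) .nil .nil)))) (.nd (nat_lit 5) 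
(.lf (nat_lit 111646) (.g (nat_lit 2464) (.e (nat_lit 5587) (nat_lit 310) (.e (nat_lit 163874) (nat_lit 3) (.e (nat_lit 204861) (nat_lit 26) (.e (nat_lit 336213) (nat_lit 13) (.e (nat_lit 393229) (nat_lit 9) .nil))))) .nil)) 
(.lf (nat_lit 111678) (.g (nat_lit 2387) (.e (nat_lit 5587) (nat_lit 310) (.e (nat_lit 163875) (nat_lit 3) (.e (nat_lit 204862) (nat_lit 27) (.e (nat_lit 344132) (nat_lit 26) (.e (nat_lit 557105) (nat_lit 14) (.e (nat_lit 180252) (nat_lit 10) (.e (nat_lit 573475) (nat_lit 12) (.e (nat_lit 57344) (nat_lit 0) .nil)))))))) (.g (nat_lit 4) .nil .nil)))))))) 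
(.nd (nat_lit 1) (.nd (nat_lit 2) (.nd (nat_lit 3) (.nd (nat_lit 4) (.nd (nat_lit 5) 
(.lf (nat_lit 111617) (.g (nat_lit 2373) (.e (nat_lit 5587) (nat_lit 310) (.e (nat_lit 163870) (nat_lit 2) (.e (nat_lit 196670) (nat_lit 14) (.e (nat_lit 73754) (nat_lit 8) (.e (nat_lit 557105) (nat_lit 14) (.e (nat_lit 180252) (nat_lit 10) (.e (nat_lit 573475) (nat_lit 12) (.e (nat_lit 57344) (nat_lit 0) .nil)))))))) (.g (nat_lit 4) .nil .nil))) 
(.lf (nat_lit 111649) (.g (nat_lit 1974) (.e (nat_lit 5587) (nat_lit 310) (.e (nat_lit 163874) (nat_lit 3) (.e (nat_lit 204861) (nat_lit 26) (.e (nat_lit 336214) (nat_lit 13) .nil)))) .nil))) (.nd (nat_lit 5) 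
(.lf (nat_lit 111633) (.g (nat_lit 1750) (.e (nat_lit 5587) (nat_lit 310) (.e (nat_lit 163873) (nat_lit 3) (.e (nat_lit 204861) (nat_lit 26) (.e (nat_lit 336213) (nat_lit 13) (.e (nat_lit 393229) (nat_lit 9) .nil))))) .nil)) 
(.lf (nat_lit 111665) (.g (nat_lit 2517) (.e (nat_lit 5587) (nat_lit 310) (.e (nat_lit 163874) (nat_lit 3) (.e (nat_lit 204864) (nat_lit 27) (.e (nat_lit 344133) (nat_lit 26) (.e (nat_lit 557103) (nat_lit 14) (.e (nat_lit 180250) (nat_lit 10) (.e (nat_lit 573475) (nat_lit 12) (.e (nat_lit 57344) (nat_lit 0) .nil)))))))) (.g (nat_lit 4) .nil .nil))))) (.nd (nat_lit 4) (.nd (nat_lit 5) 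
(.lf (nat_lit 111625) (.g (nat_lit 2983) (.e (nat_lit 5587) (nat_lit 310) (.e (nat_lit 163871) (nat_lit 2) (.e (nat_lit 196670) (nat_lit 14) (.e (nat_lit 73746) (nat_lit 3) (.e (nat_lit 516131) (nat_lit 3) (.e (nat_lit 221212) (nat_lit 22) (.e (nat_lit 196677) (nat_lit 16) (.e (nat_lit 130816) (nat_lit 0) .nil)))))))) (.g (nat_lit 6) .nil .nil))) 
(.lf (nat_lit 111657) (.g (nat_lit 2372) (.e (nat_lit 5587) (nat_lit 310) (.e (nat_lit 163874) (nat_lit 3) (.e (nat_lit 204864) (nat_lit 27) (.e (nat_lit 344130) (nat_lit 26) (.e (nat_lit 557103) (nat_lit 14) (.e (nat_lit 180250) (nat_lit 10) (.e (nat_lit 573478) (nat_lit 12) (.e (nat_lit 57344) (nat_lit 0) .nil)))))))) (.g (nat_lit 4) .nil .nil)))) (.nd (nat_lit 5) 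
(.lf (nat_lit 111641) (.g (nat_lit 2285) (.e (nat_lit 5587) (nat_lit 310) (.e (nat_lit 163874) (nat_lit 3) (.e (nat_lit 204854) (nat_lit 26) (.e (nat_lit 336019) (nat_lit 3) (.e (nat_lit 98342) (nat_lit 20) .nil))))) .nil)) 
(.lf (nat_lit 111673) (.g (nat_lit 2521) (.e (nat_lit 5587) (nat_lit 310) (.e (nat_lit 163875) (nat_lit 3) (.e (nat_lit 204862) (nat_lit 27) (.e (nat_lit 344117) (nat_lit 21) (.e (nat_lit 516123) (nat_lit 2) (.e (nat_lit 213013) (nat_lit 9) (.e (nat_lit 2684) (nat_lit 168) (.e (nat_lit 204817) (nat_lit 17) (.e (nat_lit 1030) (nat_lit 81) .nil))))))))) (.g (nat_lit 4) .nil .nil)))))) 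
(.nd (nat_lit 3) (.nd (nat_lit 4) (.nd (nat_lit 5) 
(.lf (nat_lit 111621) (.g (nat_lit 1995) (.e (nat_lit 5587) (nat_lit 310) (.e (nat_lit 163871) (nat_lit 2) (.e (nat_lit 196670) (nat_lit 14) (.e (nat_lit 73746) (nat_lit 3) (.e (nat_lit 516129) (nat_lit 3) (.e (nat_lit 221210) (nat_lit 22) (.e (nat_lit 196660) (nat_lit 12) (.e (nat_lit 65280) (nat_lit 0) .nil)))))))) (.g (nat_lit 4) .nil .nil))) 
(.lf (nat_lit 111653) (.g (nat_lit 3104) (.e (nat_lit 5587) (nat_lit 310) (.e (nat_lit 163874) (nat_lit 3) (.e (nat_lit 204863) (nat_lit 27) (.e (nat_lit 344132) (nat_lit 26) (.e (nat_lit 557105) (nat_lit 14) (.e (nat_lit 180252) (nat_lit 10) (.e (nat_lit 573475) (nat_lit 12) (.e (nat_lit 65280) (nat_lit 0) .nil)))))))) (.g (nat_lit 5) .nil .nil)))) (.nd (nat_lit 5) 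
(.lf (nat_lit 111637) (.g (nat_lit 1995) (.e (nat_lit 5587) (nat_lit 310) (.e (nat_lit 163873) (nat_lit 3) (.e (nat_lit 204864) (nat_lit 27) (.e (nat_lit 344130) (nat_lit 26) (.e (nat_lit 557104) (nat_lit 14) (.e (nat_lit 180252) (nat_lit 10) (.e (nat_lit 573475) (nat_lit 12) (.e (nat_lit 65280) (nat_lit 0) .nil)))))))) (.g (nat_lit 4) .nil .nil))) 
(.lf (nat_lit 111669) (.g (nat_lit 1432) (.e (nat_lit 5587) (nat_lit 310) (.e (nat_lit 163875) (nat_lit 3) (.e (nat_lit 204861) (nat_lit 26) (.e (nat_lit 336213) (nat_lit 13) .nil)))) .nil)))) (.nd (nat_lit 4) (.nd (nat_lit 5) 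
(.lf (nat_lit 111629) (.g (nat_lit 2394) (.e (nat_lit 5587) (nat_lit 310) (.e (nat_lit 163871) (nat_lit 2) (.e (nat_lit 196670) (nat_lit 14) (.e (nat_lit 73755) (nat_lit 8) (.e (nat_lit 557105) (nat_lit 14) .nil))))) .nil)) 
(.lf (nat_lit 111661) (.g (nat_lit 3005) (.e (nat_lit 5587) (nat_lit 310) (.e (nat_lit 163874) (nat_lit 3) (.e (nat_lit 204864) (nat_lit 27) (.e (nat_lit 344132) (nat_lit 26) (.e (nat_lit 557105) (nat_lit 14) (.e (nat_lit 180252) (nat_lit 10) (.e (nat_lit 573473) (nat_lit 12) (.e (nat_lit 65280) (nat_lit 0) .nil)))))))) (.g (nat_lit 5) .nil .nil)))) (.nd (nat_lit 5) 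
(.lf (nat_lit 111645) (.g (nat_lit 3850) (.e (nat_lit 5587) (nat_lit 310) (.e (nat_lit 163874) (nat_lit 3) (.e (nat_lit 204861) (nat_lit 26) (.e (nat_lit 336213) (nat_lit 13) (.e (nat_lit 393225) (nat_lit 9) (.e (nat_lit 335914) (nat_lit 0) (.e (nat_lit 1032) (nat_lit 81) .nil))))))) (.g (nat_lit 6) .nil .nil))) 
(.lf (nat_lit 111677) (.g (nat_lit 2590) (.e (nat_lit 5587) (nat_lit 310) (.e (nat_lit 163875) (nat_lit 3) (.e (nat_lit 204862) (nat_lit 27) (.e (nat_lit 344129) (nat_lit 26) (.e (nat_lit 557103) (nat_lit 14) (.e (nat_lit 180250) (nat_lit 10) (.e (nat_lit 573474) (nat_lit 12) (.e (nat_lit 57344) (nat_lit 0) .nil)))))))) (.g (nat_lit 4) .nil .nil))))))) 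
(.nd (nat_lit 2) (.nd (nat_lit 3) (.nd (nat_lit 4) (.nd (nat_lit 5) 
(.lf (nat_lit 111619) (.g (nat_lit 2669) (.e (nat_lit 5587) (nat_lit 310) (.e (nat_lit 163871) (nat_lit 2) (.e (nat_lit 196668) (nat_lit 14) (.e (nat_lit 73753) (nat_lit 8) (.e (nat_lit 557103) (nat_lit 14) .nil))))) .nil)) 
(.lf (nat_lit 111651) (.g (nat_lit 2344) (.e (nat_lit 5587) (nat_lit 310) (.e (nat_lit 163874) (nat_lit 3) (.e (nat_lit 204863) (nat_lit 27) (.e (nat_lit 344117) (nat_lit 21) (.e (nat_lit 516130) (nat_lit 3) .nil))))) .nil))) (.nd (nat_lit 5) 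
(.lf (nat_lit 111635) (.g (nat_lit 1314) (.e (nat_lit 5587) (nat_lit 310) (.e (nat_lit 163873) (nat_lit 3) (.e (nat_lit 204861) (nat_lit 26) (.e (nat_lit 336214) (nat_lit 13) .nil)))) .nil)) 
(.lf (nat_lit 111667) (.g (nat_lit 2456) (.e (nat_lit 5587) (nat_lit 310) (.e (nat_lit 163874) (nat_lit 3) (.e (nat_lit 204864) (nat_lit 27) (.e (nat_lit 344133) (nat_lit 26) (.e (nat_lit 557103) (nat_lit 14) (.e (nat_lit 180250) (nat_lit 10) (.e (nat_lit 573478) (nat_lit 12) (.e (nat_lit 65280) (nat_lit 0) .nil)))))))) (.g (nat_lit 4) .nil .nil))))) (.nd (nat_lit 4) (.nd (nat_lit 5) 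
(.lf (nat_lit 111627) (.g (nat_lit 2563) (.e (nat_lit 5587) (nat_lit 310) (.e (nat_lit 163871) (nat_lit 2) (.e (nat_lit 196670) (nat_lit 14) (.e (nat_lit 73754) (nat_lit 8) (.e (nat_lit 557105) (nat_lit 14) .nil))))) .nil)) 
(.lf (nat_lit 111659) (.g (nat_lit 2351) (.e (nat_lit 5587) (nat_lit 310) (.e (nat_lit 163874) (nat_lit 3) (.e (nat_lit 204864) (nat_lit 27) (.e (nat_lit 344132) (nat_lit 26) (.e (nat_lit 557105) (nat_lit 14) (.e (nat_lit 180251) (nat_lit 10) (.e (nat_lit 573477) (nat_lit 12) (.e (nat_lit 65280) (nat_lit 0) .nil)))))))) (.g (nat_lit 4) .nil .nil)))) (.nd (nat_lit 5) 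
(.lf (nat_lit 111643) (.g (nat_lit 2434) (.e (nat_lit 5587) (nat_lit 310) (.e (nat_lit 163874) (nat_lit 3) (.e (nat_lit 204861) (nat_lit 26) (.e (nat_lit 336213) (nat_lit 13) (.e (nat_lit 393225) (nat_lit 9) (.e (nat_lit 335899) (nat_lit 0) (.e (nat_lit 1032) (nat_lit 81) .nil))))))) (.g (nat_lit 4) .nil .nil))) 
(.lf (nat_lit 111675) (.g (nat_lit 3155) (.e (nat_lit 5587) (nat_lit 310) (.e (nat_lit 163875) (nat_lit 3) (.e (nat_lit 204862) (nat_lit 27) (.e (nat_lit 344117) (nat_lit 21) (.e (nat_lit 516130) (nat_lit 3) (.e (nat_lit 221211) (nat_lit 22) (.e (nat_lit 196661) (nat_lit 12) (.e (nat_lit 65280) (nat_lit 0) .nil)))))))) (.g (nat_lit 5) .nil .nil)))))) 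
(.nd (nat_lit 3) (.nd (nat_lit 4) (.nd (nat_lit 5) 
(.lf (nat_lit 111623) (.g (nat_lit 3418) (.e (nat_lit 5587) (nat_lit 310) (.e (nat_lit 163871) (nat_lit 2) (.e (nat_lit 196670) (nat_lit 14) (.e (nat_lit 73746) (nat_lit 3) (.e (nat_lit 516129) (nat_lit 3) (.e (nat_lit 221210) (nat_lit 22) (.e (nat_lit 196677) (nat_lit 16) (.e (nat_lit 122880) (nat_lit 0) .nil)))))))) (.g (nat_lit 6) .nil .nil))) 
(.lf (nat_lit 111655) (.g (nat_lit 2448) (.e (nat_lit 5587) (nat_lit 310) (.e (nat_lit 163874) (nat_lit 3) (.e (nat_lit 204864) (nat_lit 27) (.e (nat_lit 344130) (nat_lit 26) (.e (nat_lit 557103) (nat_lit 14) (.e (nat_lit 180250) (nat_lit 10) (.e (nat_lit 573475) (nat_lit 12) (.e (nat_lit 57344) (nat_lit 0) .nil)))))))) (.g (nat_lit 4) .nil .nil)))) (.nd (nat_lit 5) 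
(.lf (nat_lit 111639) (.g (nat_lit 2807) (.e (nat_lit 5587) (nat_lit 310) (.e (nat_lit 163873) (nat_lit 3) (.e (nat_lit 204864) (nat_lit 27) (.e (nat_lit 344132) (nat_lit 26) (.e (nat_lit 557105) (nat_lit 14) (.e (nat_lit 180252) (nat_lit 10) (.e (nat_lit 573475) (nat_lit 12) (.e (nat_lit 57344) (nat_lit 0) .nil)))))))) (.g (nat_lit 5) .nil .nil))) 
(.lf (nat_lit 111671) (.g (nat_lit 3384) (.e (nat_lit 5587) (nat_lit 310) (.e (nat_lit 163875) (nat_lit 3) (.e (nat_lit 204861) (nat_lit 26) (.e (nat_lit 336213) (nat_lit 13) (.e (nat_lit 393229) (nat_lit 9) (.e (nat_lit 335914) (nat_lit 0) (.e (nat_lit 1032) (nat_lit 81) .nil))))))) (.g (nat_lit 5) .nil .nil))))) (.nd (nat_lit 4) (.nd (nat_lit 5) 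
(.lf (nat_lit 111631) (.g (nat_lit 2014) (.e (nat_lit 5587) (nat_lit 310) (.e (nat_lit 163873) (nat_lit 3) (.e (nat_lit 204861) (nat_lit 26) (.e (nat_lit 336076) (nat_lit 9) (.e (nat_lit 336367) (nat_lit 27) .nil))))) .nil)) 
(.lf (nat_lit 111663) (.g (nat_lit 3724) (.e (nat_lit 5587) (nat_lit 310) (.e (nat_lit 163874) (nat_lit 3) (.e (nat_lit 204864) (nat_lit 27) (.e (nat_lit 344132) (nat_lit 26) (.e (nat_lit 557105) (nat_lit 14) (.e (nat_lit 180252) (nat_lit 10) (.e (nat_lit 573475) (nat_lit 12) (.e (nat_lit 65280) (nat_lit 0) .nil)))))))) (.g (nat_lit 6) .nil .nil)))) (.nd (nat_lit 5) 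
(.lf (nat_lit 111647) (.g (nat_lit 2492) (.e (nat_lit 5587) (nat_lit 310) (.e (nat_lit 163874) (nat_lit 3) (.e (nat_lit 204861) (nat_lit 26) (.e (nat_lit 336213) (nat_lit 13) (.e (nat_lit 393229) (nat_lit 9) (.e (nat_lit 335911) (nat_lit 0) (.e (nat_lit 1032) (nat_lit 81) .nil))))))) (.g (nat_lit 4) .nil .nil))) 
(.lf (nat_lit 111679) (.g (nat_lit 2408) (.e (nat_lit 5587) (nat_lit 310) (.e (nat_lit 163875) (nat_lit 3) (.e (nat_lit 204863) (nat_lit 27) (.e (nat_lit 344117) (nat_lit 21) (.e (nat_lit 516129) (nat_lit 3) .nil))))) .nil))))))))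

noncomputable def tv1506 : DT := (.nd (nat_lit 0) (.nd (nat_lit 1) (.nd (nat_lit 2) (.nd (nat_lit 3) (.nd (nat_lit 4) (.nd (nat_lit 5) 
(.lf (nat_lit 111680) (.g (nat_lit 2820) (.e (nat_lit 5587) (nat_lit 310) (.e (nat_lit 163875) (nat_lit 3) (.e (nat_lit 204863) (nat_lit 27) (.e (nat_lit 344117) (nat_lit 21) (.e (nat_lit 516130) (nat_lit 3) (.e (nat_lit 221212) (nat_lit 22) (.e (nat_lit 196677) (nat_lit 16) (.e (nat_lit 122880) (nat_lit 0) .nil)))))))) (.g (nat_lit 5) .nil .nil))) 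
(.lf (nat_lit 111712) (.g (nat_lit 1954) (.e (nat_lit 5587) (nat_lit 310) (.e (nat_lit 163933) (nat_lit 17) (.e (nat_lit 466947) (nat_lit 0) (.e (nat_lit 2175) (nat_lit 143) (.e (nat_lit 712755) (nat_lit 30) (.e (nat_lit 458496) (nat_lit 0) .nil)))))) (.g (nat_lit 5) .nil .nil)))) (.nd (nat_lit 5) 
(.lf (nat_lit 111696) (.g (nat_lit 2678) (.e (nat_lit 5587) (nat_lit 310) (.e (nat_lit 163907) (nat_lit 12) (.e (nat_lit 426227) (nat_lit 9) (.e (nat_lit 426364) (nat_lit 15) (.e (nat_lit 2160) (nat_lit 143) (.e (nat_lit 712755) (nat_lit 30) (.e (nat_lit 458496) (nat_lit 0) .nil))))))) (.g (nat_lit 6) .nil .nil))) 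
(.lf (nat_lit 111728) (.g (nat_lit 2222) (.e (nat_lit 5588) (nat_lit 310) (.e (nat_lit 163871) (nat_lit 2) (.e (nat_lit 196669) (nat_lit 14) (.e (nat_lit 73755) (nat_lit 8) (.e (nat_lit 557105) (nat_lit 14) (.e (nat_lit 180252) (nat_lit 10) (.e (nat_lit 573474) (nat_lit 12) (.e (nat_lit 57344) (nat_lit 0) .nil)))))))) (.g (nat_lit 4) .nil .nil))))) (.nd (nat_lit 4) (.nd (nat_lit 5) 
(.lf (nat_lit 111688) (.g (nat_lit 1136) (.e (nat_lit 5587) (nat_lit 310) (.e (nat_lit 163903) (nat_lit 12) (.e (nat_lit 426545) (nat_lit 30) .nil))) .nil)) 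
(.lf (nat_lit 111720) (.g (nat_lit 2205) (.e (nat_lit 5588) (nat_lit 310) (.e (nat_lit 163868) (nat_lit 2) (.e (nat_lit 196670) (nat_lit 14) (.e (nat_lit 73746) (nat_lit 3) (.e (nat_lit 516131) (nat_lit 3) .nil))))) .nil))) (.nd (nat_lit 5) 
(.lf (nat_lit 111704) (.g (nat_lit 1756) (.e (nat_lit 5587) (nat_lit 310) (.e (nat_lit 163931) (nat_lit 17) (.e (nat_lit 466947) (nat_lit 0) (.e (nat_lit 2160) (nat_lit 143) (.e (nat_lit 712753) (nat_lit 30) (.e (nat_lit 458496) (nat_lit 0) .nil)))))) (.g (nat_lit 5) .nil .nil))) 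
(.lf (nat_lit 111736) (.g (nat_lit 3153) (.e (nat_lit 5589) (nat_lit 310) (.e (nat_lit 163868) (nat_lit 2) (.e (nat_lit 196670) (nat_lit 14) (.e (nat_lit 73746) (nat_lit 3) (.e (nat_lit 516129) (nat_lit 3) (.e (nat_lit 221210) (nat_lit 22) (.e (nat_lit 196661) (nat_lit 12) (.e (nat_lit 65280) (nat_lit 0) .nil)))))))) (.g (nat_lit 5) .nil .nil)))))) 
(.nd (nat_lit 3) (.nd (nat_lit 4) (.nd (nat_lit 5) 
(.lf (nat_lit 111684) (.g (nat_lit 2427) (.e (nat_lit 5587) (nat_lit 310) (.e (nat_lit 163875) (nat_lit 3) (.e (nat_lit 204864) (nat_lit 27) (.e (nat_lit 344132) (nat_lit 26) (.e (nat_lit 557105) (nat_lit 14) (.e (nat_lit 180252) (nat_lit 10) (.e (nat_lit 573475) (nat_lit 12) (.e (nat_lit 57344) (nat_lit 0) .nil)))))))) (.g (nat_lit 4) .nil .nil))) 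
(.lf (nat_lit 111716) (.g (nat_lit 2302) (.e (nat_lit 5588) (nat_lit 310) (.e (nat_lit 163868) (nat_lit 2) (.e (nat_lit 196669) (nat_lit 14) (.e (nat_lit 73755) (nat_lit 8) (.e (nat_lit 557105) (nat_lit 14) (.e (nat_lit 180252) (nat_lit 10) (.e (nat_lit 573474) (nat_lit 12) (.e (nat_lit 57344) (nat_lit 0) .nil)))))))) (.g (nat_lit 4) .nil .nil)))) (.nd (nat_lit 5) 
(.lf (nat_lit 111700) (.g (nat_lit 2350) (.e (nat_lit 5587) (nat_lit 310) (.e (nat_lit 163907) (nat_lit 12) (.e (nat_lit 426544) (nat_lit 30) (.e (nat_lit 360475) (nat_lit 8) (.e (nat_lit 564992) (nat_lit 5) .nil))))) .nil)) 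
(.lf (nat_lit 111732) (.g (nat_lit 2415) (.e (nat_lit 5588) (nat_lit 310) (.e (nat_lit 163871) (nat_lit 2) (.e (nat_lit 196670) (nat_lit 14) (.e (nat_lit 73754) (nat_lit 8) (.e (nat_lit 557105) (nat_lit 14) .nil))))) .nil)))) (.nd (nat_lit 4) (.nd (nat_lit 5) 
(.lf (nat_lit 111692) (.g (nat_lit 1815) (.e (nat_lit 5587) (nat_lit 310) (.e (nat_lit 163906) (nat_lit 12) (.e (nat_lit 426320) (nat_lit 12) (.e (nat_lit 475207) (nat_lit 41) (.e (nat_lit 712753) (nat_lit 30) (.e (nat_lit 458496) (nat_lit 0) .nil)))))) (.g (nat_lit 5) .nil .nil))) 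
(.lf (nat_lit 111724) (.g (nat_lit 3360) (.e (nat_lit 5588) (nat_lit 310) (.e (nat_lit 163868) (nat_lit 2) (.e (nat_lit 196670) (nat_lit 14) (.e (nat_lit 73754) (nat_lit 8) (.e (nat_lit 557105) (nat_lit 14) (.e (nat_lit 180252) (nat_lit 10) (.e (nat_lit 573475) (nat_lit 12) (.e (nat_lit 57344) (nat_lit 0) .nil)))))))) (.g (nat_lit 5) .nil .nil)))) (.nd (nat_lit 5) 
(.lf (nat_lit 111708) (.g (nat_lit 2033) (.e (nat_lit 5587) (nat_lit 310) (.e (nat_lit 163931) (nat_lit 17) (.e (nat_lit 466947) (nat_lit 0) (.e (nat_lit 2175) (nat_lit 143) (.e (nat_lit 712753) (nat_lit 30) (.e (nat_lit 458496) (nat_lit 0) .nil)))))) (.g (nat_lit 5) .nil .nil))) 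
(.lf (nat_lit 111740) (.g (nat_lit 2197) (.e (nat_lit 5589) (nat_lit 310) (.e (nat_lit 163868) (nat_lit 2) (.e (nat_lit 196670) (nat_lit 14) (.e (nat_lit 73746) (nat_lit 3) (.e (nat_lit 516129) (nat_lit 3) (.e (nat_lit 221214) (nat_lit 23) (.e (nat_lit 204821) (nat_lit 17) (.e (nat_lit 1023) (nat_lit 81) .nil)))))))) (.g (nat_lit 4) .nil .nil))))))) 
(.nd (nat_lit 2) (.nd (nat_lit 3) (.nd (nat_lit 4) (.nd (nat_lit 5) 
(.lf (nat_lit 111682) (.g (nat_lit 1958) (.e (nat_lit 5587) (nat_lit 310) (.e (nat_lit 163875) (nat_lit 3) (.e (nat_lit 204863) (nat_lit 27) (.e (nat_lit 344120) (nat_lit 21) .nil)))) .nil)) 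
(.lf (nat_lit 111714) (.g (nat_lit 2987) (.e (nat_lit 5587) (nat_lit 310) (.e (nat_lit 163945) (nat_lit 20) (.e (nat_lit 491566) (nat_lit 12) (.e (nat_lit 385105) (nat_lit 50) (.e (nat_lit 786483) (nat_lit 30) (.e (nat_lit 360448) (nat_lit 0) .nil)))))) (.g (nat_lit 6) .nil .nil)))) (.nd (nat_lit 5) 
(.lf (nat_lit 111698) (.g (nat_lit 2337) (.e (nat_lit 5587) (nat_lit 310) (.e (nat_lit 163907) (nat_lit 12) (.e (nat_lit 426320) (nat_lit 12) (.e (nat_lit 475207) (nat_lit 41) (.e (nat_lit 712755) (nat_lit 30) (.e (nat_lit 458496) (nat_lit 0) .nil)))))) (.g (nat_lit 5) .nil .nil))) 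
(.lf (nat_lit 111730) (.g (nat_lit 1777) (.e (nat_lit 5588) (nat_lit 310) (.e (nat_lit 163871) (nat_lit 2) (.e (nat_lit 196670) (nat_lit 14) (.e (nat_lit 73746) (nat_lit 3) (.e (nat_lit 516131) (nat_lit 3) .nil))))) .nil)))) (.nd (nat_lit 4) (.nd (nat_lit 5) 
(.lf (nat_lit 111690) (.g (nat_lit 1451) (.e (nat_lit 5587) (nat_lit 310) (.e (nat_lit 163905) (nat_lit 12) (.e (nat_lit 426320) (nat_lit 12) (.e (nat_lit 475208) (nat_lit 41) .nil)))) .nil)) 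
(.lf (nat_lit 111722) (.g (nat_lit 2653) (.e (nat_lit 5588) (nat_lit 310) (.e (nat_lit 163868) (nat_lit 2) (.e (nat_lit 196670) (nat_lit 14) (.e (nat_lit 73753) (nat_lit 8) (.e (nat_lit 557105) (nat_lit 14) .nil))))) .nil))) (.nd (nat_lit 5) 
(.lf (nat_lit 111706) (.g (nat_lit 1990) (.e (nat_lit 5587) (nat_lit 310) (.e (nat_lit 163931) (nat_lit 17) (.e (nat_lit 466947) (nat_lit 0) (.e (nat_lit 2173) (nat_lit 143) (.e (nat_lit 712753) (nat_lit 30) (.e (nat_lit 458496) (nat_lit 0) .nil)))))) (.g (nat_lit 5) .nil .nil))) 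
(.lf (nat_lit 111738) (.g (nat_lit 2910) (.e (nat_lit 5589) (nat_lit 310) (.e (nat_lit 163868) (nat_lit 2) (.e (nat_lit 196670) (nat_lit 14) (.e (nat_lit 73746) (nat_lit 3) (.e (nat_lit 516129) (nat_lit 3) (.e (nat_lit 221210) (nat_lit 22) (.e (nat_lit 196677) (nat_lit 16) (.e (nat_lit 122882) (nat_lit 0) .nil)))))))) (.g (nat_lit 5) .nil .nil)))))) 
(.nd (nat_lit 3) (.nd (nat_lit 4) (.nd (nat_lit 5) 
(.lf (nat_lit 111686) (.g (nat_lit 1895) (.e (nat_lit 5587) (nat_lit 310) (.e (nat_lit 163898) (nat_lit 11) (.e (nat_lit 417809) (nat_lit 6) (.e (nat_lit 286761) (nat_lit 13) (.e (nat_lit 393289) (nat_lit 25) (.e (nat_lit 466688) (nat_lit 18) .nil)))))) (.g (nat_lit 5) .nil .nil))) 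
(.lf (nat_lit 111718) (.g (nat_lit 2162) (.e (nat_lit 5588) (nat_lit 310) (.e (nat_lit 163868) (nat_lit 2) (.e (nat_lit 196670) (nat_lit 14) (.e (nat_lit 73746) (nat_lit 3) (.e (nat_lit 516129) (nat_lit 3) .nil))))) .nil))) (.nd (nat_lit 5) 
(.lf (nat_lit 111702) (.g (nat_lit 3153) (.e (nat_lit 5587) (nat_lit 310) (.e (nat_lit 163908) (nat_lit 12) (.e (nat_lit 426338) (nat_lit 14) (.e (nat_lit 491549) (nat_lit 9) (.e (nat_lit 336432) (nat_lit 30) (.e (nat_lit 458496) (nat_lit 0) .nil)))))) (.g (nat_lit 5) .nil .nil))) 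
(.lf (nat_lit 111734) (.g (nat_lit 2699) (.e (nat_lit 5589) (nat_lit 310) (.e (nat_lit 163868) (nat_lit 2) (.e (nat_lit 196668) (nat_lit 14) (.e (nat_lit 73753) (nat_lit 8) (.e (nat_lit 557103) (nat_lit 14) (.e (nat_lit 180250) (nat_lit 10) (.e (nat_lit 573475) (nat_lit 12) (.e (nat_lit 57354) (nat_lit 0) .nil)))))))) (.g (nat_lit 4) .nil .nil))))) (.nd (nat_lit 4) (.nd (nat_lit 5) 
(.lf (nat_lit 111694) (.g (nat_lit 824) (.e (nat_lit 5587) (nat_lit 310) (.e (nat_lit 163907) (nat_lit 12) (.e (nat_lit 425986) (nat_lit 0) .nil))) .nil)) 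
(.lf (nat_lit 111726) (.g (nat_lit 2585) (.e (nat_lit 5588) (nat_lit 310) (.e (nat_lit 163868) (nat_lit 2) (.e (nat_lit 196670) (nat_lit 14) (.e (nat_lit 73755) (nat_lit 8) (.e (nat_lit 557105) (nat_lit 14) (.e (nat_lit 180252) (nat_lit 10) (.e (nat_lit 573474) (nat_lit 12) (.e (nat_lit 57355) (nat_lit 0) .nil)))))))) (.g (nat_lit 4) .nil .nil)))) (.nd (nat_lit 5) 
(.lf (nat_lit 111710) (.g (nat_lit 1513) (.e (nat_lit 5587) (nat_lit 310) (.e (nat_lit 163933) (nat_lit 17) (.e (nat_lit 466947) (nat_lit 0) (.e (nat_lit 2172) (nat_lit 143) (.e (nat_lit 712753) (nat_lit 30) (.e (nat_lit 458496) (nat_lit 0) .nil)))))) (.g (nat_lit 5) .nil .nil))) 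
(.lf (nat_lit 111742) (.g (nat_lit 2183) (.e (nat_lit 5589) (nat_lit 310) (.e (nat_lit 163868) (nat_lit 2) (.e (nat_lit 196670) (nat_lit 14) (.e (nat_lit 73746) (nat_lit 3) (.e (nat_lit 516131) (nat_lit 3) (.e (nat_lit 221211) (nat_lit 22) (.e (nat_lit 196661) (nat_lit 12) (.e (nat_lit 65280) (nat_lit 0) .nil)))))))) (.g (nat_lit 4) .nil .nil)))))))) 
(.nd (nat_lit 1) (.nd (nat_lit 2) (.nd (nat_lit 3) (.nd (nat_lit 4) (.nd (nat_lit 5) 
(.lf (nat_lit 111681) (.g (nat_lit 2421) (.e (nat_lit 5587) (nat_lit 310) (.e (nat_lit 163875) (nat_lit 3) (.e (nat_lit 204863) (nat_lit 27) (.e (nat_lit 344117) (nat_lit 21) (.e (nat_lit 516130) (nat_lit 3) (.e (nat_lit 221212) (nat_lit 22) (.e (nat_lit 196677) (nat_lit 16) (.e (nat_lit 130816) (nat_lit 0) .nil)))))))) (.g (nat_lit 4) .nil .nil))) 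
(.lf (nat_lit 111713) (.g (nat_lit 1715) (.e (nat_lit 5587) (nat_lit 310) (.e (nat_lit 163943) (nat_lit 19) (.e (nat_lit 483346) (nat_lit 17) (.e (nat_lit 974) (nat_lit 81) .nil)))) .nil))) (.nd (nat_lit 5) 
(.lf (nat_lit 111697) (.g (nat_lit 1836) (.e (nat_lit 5587) (nat_lit 310) (.e (nat_lit 163907) (nat_lit 12) (.e (nat_lit 426319) (nat_lit 12) (.e (nat_lit 475211) (nat_lit 41) (.e (nat_lit 712755) (nat_lit 30) (.e (nat_lit 458496) (nat_lit 0) .nil)))))) (.g (nat_lit 4) .nil .nil))) 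
(.lf (nat_lit 111729) (.g (nat_lit 2331) (.e (nat_lit 5588) (nat_lit 310) (.e (nat_lit 163871) (nat_lit 2) (.e (nat_lit 196669) (nat_lit 14) (.e (nat_lit 73755) (nat_lit 8) (.e (nat_lit 557105) (nat_lit 14) (.e (nat_lit 180252) (nat_lit 10) (.e (nat_lit 573474) (nat_lit 12) (.e (nat_lit 57355) (nat_lit 0) .nil)))))))) (.g (nat_lit 4) .nil .nil))))) (.nd (nat_lit 4) (.nd (nat_lit 5) 
(.lf (nat_lit 111689) (.g (nat_lit 1650) (.e (nat_lit 5587) (nat_lit 310) (.e (nat_lit 163905) (nat_lit 12) (.e (nat_lit 426320) (nat_lit 12) (.e (nat_lit 475207) (nat_lit 41) (.e (nat_lit 712755) (nat_lit 30) .nil))))) .nil)) 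
(.lf (nat_lit 111721) (.g (nat_lit 2225) (.e (nat_lit 5588) (nat_lit 310) (.e (nat_lit 163868) (nat_lit 2) (.e (nat_lit 196670) (nat_lit 14) (.e (nat_lit 73746) (nat_lit 3) (.e (nat_lit 516131) (nat_lit 3) (.e (nat_lit 221212) (nat_lit 22) (.e (nat_lit 196677) (nat_lit 16) (.e (nat_lit 122880) (nat_lit 0) .nil)))))))) (.g (nat_lit 4) .nil .nil)))) (.nd (nat_lit 5) 
(.lf (nat_lit 111705) (.g (nat_lit 1645) (.e (nat_lit 5587) (nat_lit 310) (.e (nat_lit 163931) (nat_lit 17) (.e (nat_lit 466947) (nat_lit 0) (.e (nat_lit 2172) (nat_lit 143) (.e (nat_lit 712753) (nat_lit 30) (.e (nat_lit 458496) (nat_lit 0) .nil)))))) (.g (nat_lit 5) .nil .nil))) 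
(.lf (nat_lit 111737) (.g (nat_lit 2539) (.e (nat_lit 5589) (nat_lit 310) (.e (nat_lit 163868) (nat_lit 2) (.e (nat_lit 196670) (nat_lit 14) (.e (nat_lit 73746) (nat_lit 3) (.e (nat_lit 516129) (nat_lit 3) (.e (nat_lit 221210) (nat_lit 22) (.e (nat_lit 196676) (nat_lit 16) (.e (nat_lit 122883) (nat_lit 0) .nil)))))))) (.g (nat_lit 4) .nil .nil)))))) 
(.nd (nat_lit 3) (.nd (nat_lit 4) (.nd (nat_lit 5) 
(.lf (nat_lit 111685) (.g (nat_lit 2589) (.e (nat_lit 5587) (nat_lit 310) (.e (nat_lit 163875) (nat_lit 3) (.e (nat_lit 204864) (nat_lit 27) (.e (nat_lit 344132) (nat_lit 26) (.e (nat_lit 557105) (nat_lit 14) (.e (nat_lit 180252) (nat_lit 10) (.e (nat_lit 573475) (nat_lit 12) (.e (nat_lit 65280) (nat_lit 0) .nil)))))))) (.g (nat_lit 5) .nil .nil))) 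
(.lf (nat_lit 111717) (.g (nat_lit 2411) (.e (nat_lit 5588) (nat_lit 310) (.e (nat_lit 163868) (nat_lit 2) (.e (nat_lit 196669) (nat_lit 14) (.e (nat_lit 73755) (nat_lit 8) (.e (nat_lit 557105) (nat_lit 14) (.e (nat_lit 180252) (nat_lit 10) (.e (nat_lit 573474) (nat_lit 12) (.e (nat_lit 57355) (nat_lit 0) .nil)))))))) (.g (nat_lit 4) .nil .nil)))) (.nd (nat_lit 5) 
(.lf (nat_lit 111701) (.g (nat_lit 2248) (.e (nat_lit 5587) (nat_lit 310) (.e (nat_lit 163907) (nat_lit 12) (.e (nat_lit 426545) (nat_lit 30) (.e (nat_lit 360475) (nat_lit 8) (.e (nat_lit 564992) (nat_lit 5) .nil))))) .nil)) 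
(.lf (nat_lit 111733) (.g (nat_lit 2541) (.e (nat_lit 5588) (nat_lit 310) (.e (nat_lit 163871) (nat_lit 2) (.e (nat_lit 196670) (nat_lit 14) (.e (nat_lit 73754) (nat_lit 8) (.e (nat_lit 557105) (nat_lit 14) (.e (nat_lit 180252) (nat_lit 10) (.e (nat_lit 573475) (nat_lit 12) (.e (nat_lit 57355) (nat_lit 0) .nil)))))))) (.g (nat_lit 4) .nil .nil))))) (.nd (nat_lit 4) (.nd (nat_lit 5) 
(.lf (nat_lit 111693) (.g (nat_lit 1692) (.e (nat_lit 5587) (nat_lit 310) (.e (nat_lit 163906) (nat_lit 12) (.e (nat_lit 426320) (nat_lit 12) (.e (nat_lit 475208) (nat_lit 41) (.e (nat_lit 712753) (nat_lit 30) (.e (nat_lit 458496) (nat_lit 0) .nil)))))) (.g (nat_lit 5) .nil .nil))) 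
(.lf (nat_lit 111725) (.g (nat_lit 2476) (.e (nat_lit 5588) (nat_lit 310) (.e (nat_lit 163868) (nat_lit 2) (.e (nat_lit 196670) (nat_lit 14) (.e (nat_lit 73755) (nat_lit 8) (.e (nat_lit 557105) (nat_lit 14) (.e (nat_lit 180252) (nat_lit 10) (.e (nat_lit 573474) (nat_lit 12) (.e (nat_lit 57344) (nat_lit 0) .nil)))))))) (.g (nat_lit 4) .nil .nil)))) (.nd (nat_lit 5) 
(.lf (nat_lit 111709) (.g (nat_lit 2077) (.e (nat_lit 5587) (nat_lit 310) (.e (nat_lit 163931) (nat_lit 17) (.e (nat_lit 466947) (nat_lit 0) (.e (nat_lit 2175) (nat_lit 143) (.e (nat_lit 712755) (nat_lit 30) (.e (nat_lit 458496) (nat_lit 0) .nil)))))) (.g (nat_lit 5) .nil .nil))) 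
(.lf (nat_lit 111741) (.g (nat_lit 2153) (.e (nat_lit 5589) (nat_lit 310) (.e (nat_lit 163868) (nat_lit 2) (.e (nat_lit 196670) (nat_lit 14) (.e (nat_lit 73746) (nat_lit 3) (.e (nat_lit 516131) (nat_lit 3) .nil))))) .nil)))))) (.nd (nat_lit 2) (.nd (nat_lit 3) (.nd (nat_lit 4) (.nd (nat_lit 5) 
(.lf (nat_lit 111683) (.g (nat_lit 2433) (.e (nat_lit 5587) (nat_lit 310) (.e (nat_lit 163875) (nat_lit 3) (.e (nat_lit 204863) (nat_lit 27) (.e (nat_lit 344132) (nat_lit 26) (.e (nat_lit 557105) (nat_lit 14) (.e (nat_lit 180252) (nat_lit 10) (.e (nat_lit 573475) (nat_lit 12) (.e (nat_lit 57344) (nat_lit 0) .nil)))))))) (.g (nat_lit 4) .nil .nil))) 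
(.lf (nat_lit 111715) (.g (nat_lit 2350) (.e (nat_lit 5587) (nat_lit 310) (.e (nat_lit 163947) (nat_lit 20) (.e (nat_lit 491563) (nat_lit 12) (.e (nat_lit 385102) (nat_lit 50) (.e (nat_lit 786483) (nat_lit 30) (.e (nat_lit 360448) (nat_lit 0) .nil)))))) (.g (nat_lit 4) .nil .nil)))) (.nd (nat_lit 5) 
(.lf (nat_lit 111699) (.g (nat_lit 2400) (.e (nat_lit 5587) (nat_lit 310) (.e (nat_lit 163907) (nat_lit 12) (.e (nat_lit 426320) (nat_lit 12) (.e (nat_lit 475208) (nat_lit 41) (.e (nat_lit 712755) (nat_lit 30) (.e (nat_lit 458496) (nat_lit 0) .nil)))))) (.g (nat_lit 5) .nil .nil))) 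
(.lf (nat_lit 111731) (.g (nat_lit 2556) (.e (nat_lit 5588) (nat_lit 310) (.e (nat_lit 163871) (nat_lit 2) (.e (nat_lit 196670) (nat_lit 14) (.e (nat_lit 73753) (nat_lit 8) (.e (nat_lit 557105) (nat_lit 14) .nil))))) .nil)))) (.nd (nat_lit 4) (.nd (nat_lit 5) 
(.lf (nat_lit 111691) (.g (nat_lit 1648) (.e (nat_lit 5587) (nat_lit 310) (.e (nat_lit 163905) (nat_lit 12) (.e (nat_lit 426320) (nat_lit 12) (.e (nat_lit 475208) (nat_lit 41) (.e (nat_lit 712753) (nat_lit 30) (.e (nat_lit 458496) (nat_lit 0) .nil)))))) (.g (nat_lit 4) .nil .nil))) 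
(.lf (nat_lit 111723) (.g (nat_lit 2499) (.e (nat_lit 5588) (nat_lit 310) (.e (nat_lit 163868) (nat_lit 2) (.e (nat_lit 196670) (nat_lit 14) (.e (nat_lit 73754) (nat_lit 8) (.e (nat_lit 557105) (nat_lit 14) .nil))))) .nil))) (.nd (nat_lit 5) 
(.lf (nat_lit 111707) (.g (nat_lit 2249) (.e (nat_lit 5587) (nat_lit 310) (.e (nat_lit 163931) (nat_lit 17) (.e (nat_lit 466947) (nat_lit 0) (.e (nat_lit 2173) (nat_lit 143) (.e (nat_lit 712755) (nat_lit 30) (.e (nat_lit 458496) (nat_lit 0) .nil)))))) (.g (nat_lit 5) .nil .nil))) 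
(.lf (nat_lit 111739) (.g (nat_lit 2602) (.e (nat_lit 5589) (nat_lit 310) (.e (nat_lit 163868) (nat_lit 2) (.e (nat_lit 196670) (nat_lit 14) (.e (nat_lit 73746) (nat_lit 3) (.e (nat_lit 516129) (nat_lit 3) (.e (nat_lit 221210) (nat_lit 22) (.e (nat_lit 196678) (nat_lit 16) (.e (nat_lit 122883) (nat_lit 0) .nil)))))))) (.g (nat_lit 4) .nil .nil)))))) 
(.nd (nat_lit 3) (.nd (nat_lit 4) (.nd (nat_lit 5) 
(.lf (nat_lit 111687) (.g (nat_lit 1776) (.e (nat_lit 5587) (nat_lit 310) (.e (nat_lit 163903) (nat_lit 12) (.e (nat_lit 426320) (nat_lit 12) (.e (nat_lit 475207) (nat_lit 41) .nil)))) .nil)) 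
(.lf (nat_lit 111719) (.g (nat_lit 2308) (.e (nat_lit 5588) (nat_lit 310) (.e (nat_lit 163868) (nat_lit 2) (.e (nat_lit 196670) (nat_lit 14) (.e (nat_lit 73746) (nat_lit 3) (.e (nat_lit 516129) (nat_lit 3) (.e (nat_lit 221210) (nat_lit 22) (.e (nat_lit 196677) (nat_lit 16) (.e (nat_lit 122880) (nat_lit 0) .nil)))))))) (.g (nat_lit 4) .nil .nil)))) (.nd (nat_lit 5) 
(.lf (nat_lit 111703) (.g (nat_lit 3234) (.e (nat_lit 5587) (nat_lit 310) (.e (nat_lit 163908) (nat_lit 12) (.e (nat_lit 426338) (nat_lit 14) (.e (nat_lit 491549) (nat_lit 9) (.e (nat_lit 336434) (nat_lit 30) (.e (nat_lit 458496) (nat_lit 0) .nil)))))) (.g (nat_lit 5) .nil .nil))) 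
(.lf (nat_lit 111735) (.g (nat_lit 2799) (.e (nat_lit 5589) (nat_lit 310) (.e (nat_lit 163868) (nat_lit 2) (.e (nat_lit 196668) (nat_lit 14) (.e (nat_lit 73755) (nat_lit 8) (.e (nat_lit 557105) (nat_lit 14) (.e (nat_lit 180252) (nat_lit 10) (.e (nat_lit 573474) (nat_lit 12) (.e (nat_lit 57354) (nat_lit 0) .nil)))))))) (.g (nat_lit 4) .nil .nil))))) (.nd (nat_lit 4) (.nd (nat_lit 5) 
(.lf (nat_lit 111695) (.g (nat_lit 2698) (.e (nat_lit 5587) (nat_lit 310) (.e (nat_lit 163907) (nat_lit 12) (.e (nat_lit 426227) (nat_lit 9) (.e (nat_lit 426364) (nat_lit 15) (.e (nat_lit 2160) (nat_lit 143) (.e (nat_lit 712753) (nat_lit 30) (.e (nat_lit 458496) (nat_lit 0) .nil))))))) (.g (nat_lit 6) .nil .nil))) 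
(.lf (nat_lit 111727) (.g (nat_lit 3016) (.e (nat_lit 5588) (nat_lit 310) (.e (nat_lit 163869) (nat_lit 2) (.e (nat_lit 196670) (nat_lit 14) (.e (nat_lit 73754) (nat_lit 8) (.e (nat_lit 557105) (nat_lit 14) .nil))))) .nil))) (.nd (nat_lit 5) 
(.lf (nat_lit 111711) (.g (nat_lit 2068) (.e (nat_lit 5587) (nat_lit 310) (.e (nat_lit 163933) (nat_lit 17) (.e (nat_lit 466947) (nat_lit 0) (.e (nat_lit 2173) (nat_lit 143) (.e (nat_lit 712755) (nat_lit 30) (.e (nat_lit 458496) (nat_lit 0) .nil)))))) (.g (nat_lit 5) .nil .nil))) 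
(.lf (nat_lit 111743) (.g (nat_lit 2944) (.e (nat_lit 5589) (nat_lit 310) (.e (nat_lit 163868) (nat_lit 2) (.e (nat_lit 196670) (nat_lit 14) (.e (nat_lit 73746) (nat_lit 3) (.e (nat_lit 516131) (nat_lit 3) (.e (nat_lit 221212) (nat_lit 22) (.e (nat_lit 196659) (nat_lit 12) (.e (nat_lit 57354) (nat_lit 0) .nil)))))))) (.g (nat_lit 5) .nil .nil)))))))))

noncomputable def tv1507 : DT := (.nd (nat_lit 0) (.nd (nat_lit 1) (.nd (nat_lit 2) (.nd (nat_lit 3) (.nd (nat_lit 4) (.nd (nat_lit 5) 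
(.lf (nat_lit 111744) (.g (nat_lit 3371) (.e (nat_lit 5589) (nat_lit 310) (.e (nat_lit 163868) (nat_lit 2) (.e (nat_lit 196670) (nat_lit 14) (.e (nat_lit 73746) (nat_lit 3) (.e (nat_lit 516131) (nat_lit 3) (.e (nat_lit 221212) (nat_lit 22) (.e (nat_lit 196660) (nat_lit 12) (.e (nat_lit 57354) (nat_lit 0) .nil)))))))) (.g (nat_lit 6) .nil .nil))) 
(.lf (nat_lit 111776) (.g (nat_lit 3329) (.e (nat_lit 5589) (nat_lit 310) (.e (nat_lit 163871) (nat_lit 2) (.e (nat_lit 196670) (nat_lit 14) (.e (nat_lit 73753) (nat_lit 8) (.e (nat_lit 557103) (nat_lit 14) (.e (nat_lit 180250) (nat_lit 10) (.e (nat_lit 573474) (nat_lit 12) (.e (nat_lit 57354) (nat_lit 0) .nil)))))))) (.g (nat_lit 5) .nil .nil)))) (.nd (nat_lit 5) 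
(.lf (nat_lit 111760) (.g (nat_lit 1957) (.e (nat_lit 5589) (nat_lit 310) (.e (nat_lit 163871) (nat_lit 2) (.e (nat_lit 196668) (nat_lit 14) (.e (nat_lit 73754) (nat_lit 8) (.e (nat_lit 557105) (nat_lit 14) (.e (nat_lit 180252) (nat_lit 10) (.e (nat_lit 573475) (nat_lit 12) (.e (nat_lit 57344) (nat_lit 0) .nil)))))))) (.g (nat_lit 4) .nil .nil))) 
(.lf (nat_lit 111792) (.g (nat_lit 1804) (.e (nat_lit 5589) (nat_lit 310) (.e (nat_lit 163875) (nat_lit 3) (.e (nat_lit 204862) (nat_lit 27) (.e (nat_lit 344117) (nat_lit 21) (.e (nat_lit 516123) (nat_lit 2) .nil))))) .nil)))) (.nd (nat_lit 4) (.nd (nat_lit 5) 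
(.lf (nat_lit 111752) (.g (nat_lit 2470) (.e (nat_lit 5589) (nat_lit 310) (.e (nat_lit 163868) (nat_lit 2) (.e (nat_lit 196670) (nat_lit 14) (.e (nat_lit 73753) (nat_lit 8) (.e (nat_lit 557103) (nat_lit 14) (.e (nat_lit 180250) (nat_lit 10) (.e (nat_lit 573478) (nat_lit 12) (.e (nat_lit 57344) (nat_lit 0) .nil)))))))) (.g (nat_lit 4) .nil .nil))) 
(.lf (nat_lit 111784) (.g (nat_lit 2882) (.e (nat_lit 5589) (nat_lit 310) (.e (nat_lit 163875) (nat_lit 3) (.e (nat_lit 204861) (nat_lit 26) (.e (nat_lit 336213) (nat_lit 13) (.e (nat_lit 393225) (nat_lit 9) (.e (nat_lit 335913) (nat_lit 0) (.e (nat_lit 1045) (nat_lit 81) .nil))))))) (.g (nat_lit 5) .nil .nil)))) (.nd (nat_lit 5) 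
(.lf (nat_lit 111768) (.g (nat_lit 2659) (.e (nat_lit 5589) (nat_lit 310) (.e (nat_lit 163871) (nat_lit 2) (.e (nat_lit 196670) (nat_lit 14) (.e (nat_lit 73746) (nat_lit 3) (.e (nat_lit 516131) (nat_lit 3) (.e (nat_lit 221211) (nat_lit 22) (.e (nat_lit 196661) (nat_lit 12) (.e (nat_lit 65280) (nat_lit 0) .nil)))))))) (.g (nat_lit 6) .nil .nil))) 
(.lf (nat_lit 111800) (.g (nat_lit 2478) (.e (nat_lit 5589) (nat_lit 310) (.e (nat_lit 163875) (nat_lit 3) (.e (nat_lit 204862) (nat_lit 27) (.e (nat_lit 344117) (nat_lit 21) (.e (nat_lit 516123) (nat_lit 2) (.e (nat_lit 213013) (nat_lit 9) (.e (nat_lit 2684) (nat_lit 168) (.e (nat_lit 204818) (nat_lit 17) (.e (nat_lit 1047) (nat_lit 81) .nil))))))))) (.g (nat_lit 5) .nil .nil)))))) 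
(.nd (nat_lit 3) (.nd (nat_lit 4) (.nd (nat_lit 5) 
(.lf (nat_lit 111748) (.g (nat_lit 2999) (.e (nat_lit 5589) (nat_lit 310) (.e (nat_lit 163868) (nat_lit 2) (.e (nat_lit 196670) (nat_lit 14) (.e (nat_lit 73746) (nat_lit 3) (.e (nat_lit 516131) (nat_lit 3) (.e (nat_lit 221212) (nat_lit 22) (.e (nat_lit 196678) (nat_lit 16) (.e (nat_lit 122883) (nat_lit 0) .nil)))))))) (.g (nat_lit 5) .nil .nil))) 
(.lf (nat_lit 111780) (.g (nat_lit 3105) (.e (nat_lit 5589) (nat_lit 310) (.e (nat_lit 163871) (nat_lit 2) (.e (nat_lit 196670) (nat_lit 14) (.e (nat_lit 73754) (nat_lit 8) (.e (nat_lit 557105) (nat_lit 14) (.e (nat_lit 180252) (nat_lit 10) (.e (nat_lit 573475) (nat_lit 12) (.e (nat_lit 57355) (nat_lit 0) .nil)))))))) (.g (nat_lit 5) .nil .nil)))) (.nd (nat_lit 5) 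
(.lf (nat_lit 111764) (.g (nat_lit 1953) (.e (nat_lit 5589) (nat_lit 310) (.e (nat_lit 163871) (nat_lit 2) (.e (nat_lit 196670) (nat_lit 14) (.e (nat_lit 73746) (nat_lit 3) (.e (nat_lit 516129) (nat_lit 3) (.e (nat_lit 221210) (nat_lit 22) (.e (nat_lit 196660) (nat_lit 12) (.e (nat_lit 57355) (nat_lit 0) .nil)))))))) (.g (nat_lit 4) .nil .nil))) 
(.lf (nat_lit 111796) (.g (nat_lit 2205) (.e (nat_lit 5589) (nat_lit 310) (.e (nat_lit 163875) (nat_lit 3) (.e (nat_lit 204862) (nat_lit 27) (.e (nat_lit 344117) (nat_lit 21) (.e (nat_lit 516123) (nat_lit 2) (.e (nat_lit 213013) (nat_lit 9) (.e (nat_lit 2684) (nat_lit 168) (.e (nat_lit 204818) (nat_lit 17) (.e (nat_lit 1024) (nat_lit 81) .nil))))))))) (.g (nat_lit 4) .nil .nil))))) 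
(.nd (nat_lit 4) (.nd (nat_lit 5) 
(.lf (nat_lit 111756) (.g (nat_lit 3388) (.e (nat_lit 5589) (nat_lit 310) (.e (nat_lit 163869) (nat_lit 2) (.e (nat_lit 196670) (nat_lit 14) (.e (nat_lit 73753) (nat_lit 8) (.e (nat_lit 557105) (nat_lit 14) (.e (nat_lit 180252) (nat_lit 10) (.e (nat_lit 573474) (nat_lit 12) (.e (nat_lit 57354) (nat_lit 0) .nil)))))))) (.g (nat_lit 5) .nil .nil))) 
(.lf (nat_lit 111788) (.g (nat_lit 3053) (.e (nat_lit 5589) (nat_lit 310) (.e (nat_lit 163875) (nat_lit 3) (.e (nat_lit 204861) (nat_lit 26) (.e (nat_lit 336213) (nat_lit 13) (.e (nat_lit 393229) (nat_lit 9) (.e (nat_lit 335914) (nat_lit 0) (.e (nat_lit 1032) (nat_lit 81) .nil))))))) (.g (nat_lit 5) .nil .nil)))) (.nd (nat_lit 5) 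
(.lf (nat_lit 111772) (.g (nat_lit 3431) (.e (nat_lit 5589) (nat_lit 310) (.e (nat_lit 163871) (nat_lit 2) (.e (nat_lit 196670) (nat_lit 14) (.e (nat_lit 73746) (nat_lit 3) (.e (nat_lit 516131) (nat_lit 3) (.e (nat_lit 221212) (nat_lit 22) (.e (nat_lit 196677) (nat_lit 16) (.e (nat_lit 122882) (nat_lit 0) .nil)))))))) (.g (nat_lit 7) .nil .nil))) 
(.lf (nat_lit 111804) (.g (nat_lit 3067) (.e (nat_lit 5589) (nat_lit 310) (.e (nat_lit 163875) (nat_lit 3) (.e (nat_lit 204862) (nat_lit 27) (.e (nat_lit 344117) (nat_lit 21) (.e (nat_lit 516129) (nat_lit 3) (.e (nat_lit 221210) (nat_lit 22) (.e (nat_lit 196677) (nat_lit 16) (.e (nat_lit 122882) (nat_lit 0) .nil)))))))) (.g (nat_lit 5) .nil .nil))))))) 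
(.nd (nat_lit 2) (.nd (nat_lit 3) (.nd (nat_lit 4) (.nd (nat_lit 5) 
(.lf (nat_lit 111746) (.g (nat_lit 2731) (.e (nat_lit 5589) (nat_lit 310) (.e (nat_lit 163868) (nat_lit 2) (.e (nat_lit 196670) (nat_lit 14) (.e (nat_lit 73746) (nat_lit 3) (.e (nat_lit 516131) (nat_lit 3) (.e (nat_lit 221212) (nat_lit 22) (.e (nat_lit 196676) (nat_lit 16) (.e (nat_lit 122883) (nat_lit 0) .nil)))))))) (.g (nat_lit 5) .nil .nil))) 
(.lf (nat_lit 111778) (.g (nat_lit 2661) (.e (nat_lit 5589) (nat_lit 310) (.e (nat_lit 163871) (nat_lit 2) (.e (nat_lit 196670) (nat_lit 14) (.e (nat_lit 73754) (nat_lit 8) (.e (nat_lit 557105) (nat_lit 14) (.e (nat_lit 180252) (nat_lit 10) (.e (nat_lit 573473) (nat_lit 12) (.e (nat_lit 57354) (nat_lit 0) .nil)))))))) (.g (nat_lit 4) .nil .nil)))) (.nd (nat_lit 5) 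
(.lf (nat_lit 111762) (.g (nat_lit 3087) (.e (nat_lit 5589) (nat_lit 310) (.e (nat_lit 163871) (nat_lit 2) (.e (nat_lit 196669) (nat_lit 14) (.e (nat_lit 73755) (nat_lit 8) (.e (nat_lit 557105) (nat_lit 14) (.e (nat_lit 180252) (nat_lit 10) (.e (nat_lit 573474) (nat_lit 12) (.e (nat_lit 57344) (nat_lit 0) .nil)))))))) (.g (nat_lit 5) .nil .nil))) 
(.lf (nat_lit 111794) (.g (nat_lit 1850) (.e (nat_lit 5589) (nat_lit 310) (.e (nat_lit 163875) (nat_lit 3) (.e (nat_lit 204862) (nat_lit 27) (.e (nat_lit 344117) (nat_lit 21) (.e (nat_lit 516123) (nat_lit 2) (.e (nat_lit 213013) (nat_lit 9) (.e (nat_lit 2684) (nat_lit 168) (.e (nat_lit 204817) (nat_lit 17) (.e (nat_lit 1032) (nat_lit 81) .nil))))))))) (.g (nat_lit 4) .nil .nil))))) 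
(.nd (nat_lit 4) (.nd (nat_lit 5) 
(.lf (nat_lit 111754) (.g (nat_lit 3108) (.e (nat_lit 5589) (nat_lit 310) (.e (nat_lit 163868) (nat_lit 2) (.e (nat_lit 196670) (nat_lit 14) (.e (nat_lit 73754) (nat_lit 8) (.e (nat_lit 557105) (nat_lit 14) (.e (nat_lit 180252) (nat_lit 10) (.e (nat_lit 573475) (nat_lit 12) (.e (nat_lit 57355) (nat_lit 0) .nil)))))))) (.g (nat_lit 5) .nil .nil))) 
(.lf (nat_lit 111786) (.g (nat_lit 2437) (.e (nat_lit 5589) (nat_lit 310) (.e (nat_lit 163875) (nat_lit 3) (.e (nat_lit 204861) (nat_lit 26) (.e (nat_lit 336213) (nat_lit 13) (.e (nat_lit 393227) (nat_lit 9) (.e (nat_lit 335960) (nat_lit 0) (.e (nat_lit 1018) (nat_lit 81) .nil))))))) (.g (nat_lit 4) .nil .nil)))) (.nd (nat_lit 5) 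
(.lf (nat_lit 111770) (.g (nat_lit 3683) (.e (nat_lit 5589) (nat_lit 310) (.e (nat_lit 163871) (nat_lit 2) (.e (nat_lit 196670) (nat_lit 14) (.e (nat_lit 73746) (nat_lit 3) (.e (nat_lit 516131) (nat_lit 3) (.e (nat_lit 221212) (nat_lit 22) (.e (nat_lit 196660) (nat_lit 12) (.e (nat_lit 57354) (nat_lit 0) .nil)))))))) (.g (nat_lit 8) .nil .nil))) 
(.lf (nat_lit 111802) (.g (nat_lit 2525) (.e (nat_lit 5589) (nat_lit 310) (.e (nat_lit 163875) (nat_lit 3) (.e (nat_lit 204862) (nat_lit 27) (.e (nat_lit 344117) (nat_lit 21) (.e (nat_lit 516123) (nat_lit 2) (.e (nat_lit 213013) (nat_lit 9) (.e (nat_lit 2684) (nat_lit 168) (.e (nat_lit 204821) (nat_lit 17) (.e (nat_lit 1023) (nat_lit 81) .nil))))))))) (.g (nat_lit 5) .nil .nil)))))) 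
(.nd (nat_lit 3) (.nd (nat_lit 4) (.nd (nat_lit 5) 
(.lf (nat_lit 111750) (.g (nat_lit 3448) (.e (nat_lit 5589) (nat_lit 310) (.e (nat_lit 163868) (nat_lit 2) (.e (nat_lit 196670) (nat_lit 14) (.e (nat_lit 73753) (nat_lit 8) (.e (nat_lit 557103) (nat_lit 14) (.e (nat_lit 180250) (nat_lit 10) (.e (nat_lit 573474) (nat_lit 12) (.e (nat_lit 57354) (nat_lit 0) .nil)))))))) (.g (nat_lit 5) .nil .nil))) 
(.lf (nat_lit 111782) (.g (nat_lit 536) (.e (nat_lit 5589) (nat_lit 310) (.e (nat_lit 163873) (nat_lit 3) (.e (nat_lit 204864) (nat_lit 27) .nil))) .nil))) (.nd (nat_lit 5) 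
(.lf (nat_lit 111766) (.g (nat_lit 2624) (.e (nat_lit 5589) (nat_lit 310) (.e (nat_lit 163871) (nat_lit 2) (.e (nat_lit 196670) (nat_lit 14) (.e (nat_lit 73746) (nat_lit 3) (.e (nat_lit 516129) (nat_lit 3) (.e (nat_lit 221214) (nat_lit 23) (.e (nat_lit 204821) (nat_lit 17) (.e (nat_lit 1023) (nat_lit 81) .nil)))))))) (.g (nat_lit 5) .nil .nil))) 
(.lf (nat_lit 111798) (.g (nat_lit 2514) (.e (nat_lit 5589) (nat_lit 310) (.e (nat_lit 163875) (nat_lit 3) (.e (nat_lit 204862) (nat_lit 27) (.e (nat_lit 344117) (nat_lit 21) (.e (nat_lit 516123) (nat_lit 2) (.e (nat_lit 213013) (nat_lit 9) (.e (nat_lit 2684) (nat_lit 168) (.e (nat_lit 204818) (nat_lit 17) (.e (nat_lit 1032) (nat_lit 81) .nil))))))))) (.g (nat_lit 5) .nil .nil))))) 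
(.nd (nat_lit 4) (.nd (nat_lit 5) 
(.lf (nat_lit 111758) (.g (nat_lit 3431) (.e (nat_lit 5589) (nat_lit 310) (.e (nat_lit 163869) (nat_lit 2) (.e (nat_lit 196670) (nat_lit 14) (.e (nat_lit 73754) (nat_lit 8) (.e (nat_lit 557105) (nat_lit 14) (.e (nat_lit 180252) (nat_lit 10) (.e (nat_lit 573474) (nat_lit 12) (.e (nat_lit 57354) (nat_lit 0) .nil)))))))) (.g (nat_lit 4) .nil .nil))) 
(.lf (nat_lit 111790) (.g (nat_lit 1280) (.e (nat_lit 5589) (nat_lit 310) (.e (nat_lit 163875) (nat_lit 3) (.e (nat_lit 204861) (nat_lit 26) (.e (nat_lit 336214) (nat_lit 13) .nil)))) .nil))) (.nd (nat_lit 5) 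
(.lf (nat_lit 111774) (.g (nat_lit 2269) (.e (nat_lit 5589) (nat_lit 310) (.e (nat_lit 163871) (nat_lit 2) (.e (nat_lit 196670) (nat_lit 14) (.e (nat_lit 73746) (nat_lit 3) (.e (nat_lit 516131) (nat_lit 3) (.e (nat_lit 221215) (nat_lit 23) (.e (nat_lit 204821) (nat_lit 17) (.e (nat_lit 1023) (nat_lit 81) .nil)))))))) (.g (nat_lit 5) .nil .nil))) 
(.lf (nat_lit 111806) (.g (nat_lit 1971) (.e (nat_lit 5589) (nat_lit 310) (.e (nat_lit 163875) (nat_lit 3) (.e (nat_lit 204862) (nat_lit 27) (.e (nat_lit 344117) (nat_lit 21) (.e (nat_lit 516130) (nat_lit 3) (.e (nat_lit 221211) (nat_lit 22) (.e (nat_lit 196675) (nat_lit 16) (.e (nat_lit 122883) (nat_lit 0) .nil)))))))) (.g (nat_lit 4) .nil .nil)))))))) 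
(.nd (nat_lit 1) (.nd (nat_lit 2) (.nd (nat_lit 3) (.nd (nat_lit 4) (.nd (nat_lit 5) 
(.lf (nat_lit 111745) (.g (nat_lit 2717) (.e (nat_lit 5589) (nat_lit 310) (.e (nat_lit 163868) (nat_lit 2) (.e (nat_lit 196670) (nat_lit 14) (.e (nat_lit 73746) (nat_lit 3) (.e (nat_lit 516131) (nat_lit 3) (.e (nat_lit 221212) (nat_lit 22) (.e (nat_lit 196675) (nat_lit 16) (.e (nat_lit 122883) (nat_lit 0) .nil)))))))) (.g (nat_lit 5) .nil .nil))) 
(.lf (nat_lit 111777) (.g (nat_lit 2879) (.e (nat_lit 5589) (nat_lit 310) (.e (nat_lit 163871) (nat_lit 2) (.e (nat_lit 196670) (nat_lit 14) (.e (nat_lit 73754) (nat_lit 8) (.e (nat_lit 557105) (nat_lit 14) (.e (nat_lit 180251) (nat_lit 10) (.e (nat_lit 573478) (nat_lit 12) (.e (nat_lit 57344) (nat_lit 0) .nil)))))))) (.g (nat_lit 4) .nil .nil)))) (.nd (nat_lit 5) 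
(.lf (nat_lit 111761) (.g (nat_lit 2853) (.e (nat_lit 5589) (nat_lit 310) (.e (nat_lit 163871) (nat_lit 2) (.e (nat_lit 196668) (nat_lit 14) (.e (nat_lit 73755) (nat_lit 8) (.e (nat_lit 557105) (nat_lit 14) (.e (nat_lit 180252) (nat_lit 10) (.e (nat_lit 573474) (nat_lit 12) (.e (nat_lit 57354) (nat_lit 0) .nil)))))))) (.g (nat_lit 4) .nil .nil))) 
(.lf (nat_lit 111793) (.g (nat_lit 3642) (.e (nat_lit 5589) (nat_lit 310) (.e (nat_lit 163875) (nat_lit 3) (.e (nat_lit 204862) (nat_lit 27) (.e (nat_lit 344117) (nat_lit 21) (.e (nat_lit 516123) (nat_lit 2) (.e (nat_lit 213013) (nat_lit 9) (.e (nat_lit 2684) (nat_lit 168) (.e (nat_lit 204817) (nat_lit 17) (.e (nat_lit 1030) (nat_lit 81) .nil))))))))) (.g (nat_lit 8) .nil .nil))))) 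
(.nd (nat_lit 4) (.nd (nat_lit 5) 
(.lf (nat_lit 111753) (.g (nat_lit 1480) (.e (nat_lit 5589) (nat_lit 310) (.e (nat_lit 163868) (nat_lit 2) (.e (nat_lit 196670) (nat_lit 14) (.e (nat_lit 73754) (nat_lit 8) .nil)))) .nil)) 
(.lf (nat_lit 111785) (.g (nat_lit 2220) (.e (nat_lit 5589) (nat_lit 310) (.e (nat_lit 163875) (nat_lit 3) (.e (nat_lit 204861) (nat_lit 26) (.e (nat_lit 336213) (nat_lit 13) (.e (nat_lit 393227) (nat_lit 9) .nil))))) .nil))) (.nd (nat_lit 5) 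
(.lf (nat_lit 111769) (.g (nat_lit 1733) (.e (nat_lit 5589) (nat_lit 310) (.e (nat_lit 163871) (nat_lit 2) (.e (nat_lit 196670) (nat_lit 14) (.e (nat_lit 73746) (nat_lit 3) (.e (nat_lit 516131) (nat_lit 3) (.e (nat_lit 221211) (nat_lit 22) (.e (nat_lit 196678) (nat_lit 16) (.e (nat_lit 122883) (nat_lit 0) .nil)))))))) (.g (nat_lit 4) .nil .nil))) 
(.lf (nat_lit 111801) (.g (nat_lit 2152) (.e (nat_lit 5589) (nat_lit 310) (.e (nat_lit 163875) (nat_lit 3) (.e (nat_lit 204862) (nat_lit 27) (.e (nat_lit 344117) (nat_lit 21) (.e (nat_lit 516123) (nat_lit 2) (.e (nat_lit 213013) (nat_lit 9) (.e (nat_lit 2684) (nat_lit 168) (.e (nat_lit 204818) (nat_lit 17) (.e (nat_lit 1048) (nat_lit 81) .nil))))))))) (.g (nat_lit 4) .nil .nil)))))) 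
(.nd (nat_lit 3) (.nd (nat_lit 4) (.nd (nat_lit 5) 
(.lf (nat_lit 111749) (.g (nat_lit 2462) (.e (nat_lit 5589) (nat_lit 310) (.e (nat_lit 163868) (nat_lit 2) (.e (nat_lit 196670) (nat_lit 14) (.e (nat_lit 73753) (nat_lit 8) (.e (nat_lit 557103) (nat_lit 14) (.e (nat_lit 180250) (nat_lit 10) (.e (nat_lit 573474) (nat_lit 12) (.e (nat_lit 57344) (nat_lit 0) .nil)))))))) (.g (nat_lit 4) .nil .nil))) 
(.lf (nat_lit 111781) (.g (nat_lit 3994) (.e (nat_lit 5589) (nat_lit 310) (.e (nat_lit 163871) (nat_lit 2) (.e (nat_lit 196670) (nat_lit 14) (.e (nat_lit 73755) (nat_lit 8) (.e (nat_lit 557105) (nat_lit 14) (.e (nat_lit 180252) (nat_lit 10) (.e (nat_lit 573474) (nat_lit 12) (.e (nat_lit 57354) (nat_lit 0) .nil)))))))) (.g (nat_lit 6) .nil .nil)))) (.nd (nat_lit 5) 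
(.lf (nat_lit 111765) (.g (nat_lit 3667) (.e (nat_lit 5589) (nat_lit 310) (.e (nat_lit 163871) (nat_lit 2) (.e (nat_lit 196670) (nat_lit 14) (.e (nat_lit 73746) (nat_lit 3) (.e (nat_lit 516129) (nat_lit 3) (.e (nat_lit 221210) (nat_lit 22) (.e (nat_lit 196677) (nat_lit 16) (.e (nat_lit 122880) (nat_lit 0) .nil)))))))) (.g (nat_lit 6) .nil .nil))) 
(.lf (nat_lit 111797) (.g (nat_lit 1830) (.e (nat_lit 5589) (nat_lit 310) (.e (nat_lit 163875) (nat_lit 3) (.e (nat_lit 204862) (nat_lit 27) (.e (nat_lit 344117) (nat_lit 21) (.e (nat_lit 516123) (nat_lit 2) (.e (nat_lit 213013) (nat_lit 9) (.e (nat_lit 2684) (nat_lit 168) (.e (nat_lit 204818) (nat_lit 17) (.e (nat_lit 1025) (nat_lit 81) .nil))))))))) (.g (nat_lit 4) .nil .nil))))) 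
(.nd (nat_lit 4) (.nd (nat_lit 5) 
(.lf (nat_lit 111757) (.g (nat_lit 2364) (.e (nat_lit 5589) (nat_lit 310) (.e (nat_lit 163869) (nat_lit 2) (.e (nat_lit 196670) (nat_lit 14) (.e (nat_lit 73754) (nat_lit 8) .nil)))) .nil)) 
(.lf (nat_lit 111789) (.g (nat_lit 1900) (.e (nat_lit 5589) (nat_lit 310) (.e (nat_lit 163875) (nat_lit 3) (.e (nat_lit 204861) (nat_lit 26) (.e (nat_lit 336213) (nat_lit 13) (.e (nat_lit 401152) (nat_lit 13) (.e (nat_lit 368661) (nat_lit 18) .nil)))))) (.g (nat_lit 4) .nil .nil)))) (.nd (nat_lit 5) 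
(.lf (nat_lit 111773) (.g (nat_lit 3398) (.e (nat_lit 5589) (nat_lit 310) (.e (nat_lit 163871) (nat_lit 2) (.e (nat_lit 196670) (nat_lit 14) (.e (nat_lit 73746) (nat_lit 3) (.e (nat_lit 516131) (nat_lit 3) (.e (nat_lit 221212) (nat_lit 22) (.e (nat_lit 196678) (nat_lit 16) (.e (nat_lit 122883) (nat_lit 0) .nil)))))))) (.g (nat_lit 6) .nil .nil))) 
(.lf (nat_lit 111805) (.g (nat_lit 3578) (.e (nat_lit 5589) (nat_lit 310) (.e (nat_lit 163875) (nat_lit 3) (.e (nat_lit 204862) (nat_lit 27) (.e (nat_lit 344117) (nat_lit 21) (.e (nat_lit 516130) (nat_lit 3) (.e (nat_lit 221211) (nat_lit 22) (.e (nat_lit 196661) (nat_lit 12) (.e (nat_lit 65280) (nat_lit 0) .nil)))))))) (.g (nat_lit 7) .nil .nil))))))) 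
(.nd (nat_lit 2) (.nd (nat_lit 3) (.nd (nat_lit 4) (.nd (nat_lit 5) 
(.lf (nat_lit 111747) (.g (nat_lit 3125) (.e (nat_lit 5589) (nat_lit 310) (.e (nat_lit 163868) (nat_lit 2) (.e (nat_lit 196670) (nat_lit 14) (.e (nat_lit 73746) (nat_lit 3) (.e (nat_lit 516131) (nat_lit 3) (.e (nat_lit 221212) (nat_lit 22) (.e (nat_lit 196677) (nat_lit 16) (.e (nat_lit 122882) (nat_lit 0) .nil)))))))) (.g (nat_lit 5) .nil .nil))) 
(.lf (nat_lit 111779) (.g (nat_lit 5357) (.e (nat_lit 5589) (nat_lit 310) (.e (nat_lit 163871) (nat_lit 2) (.e (nat_lit 196670) (nat_lit 14) (.e (nat_lit 73754) (nat_lit 8) (.e (nat_lit 557105) (nat_lit 14) (.e (nat_lit 180252) (nat_lit 10) (.e (nat_lit 573474) (nat_lit 12) (.e (nat_lit 57354) (nat_lit 0) .nil)))))))) (.g (nat_lit 6) .nil .nil)))) (.nd (nat_lit 5) 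
(.lf (nat_lit 111763) (.g (nat_lit 4588) (.e (nat_lit 5589) (nat_lit 310) (.e (nat_lit 163871) (nat_lit 2) (.e (nat_lit 196670) (nat_lit 14) (.e (nat_lit 73746) (nat_lit 3) (.e (nat_lit 516129) (nat_lit 3) (.e (nat_lit 221210) (nat_lit 22) (.e (nat_lit 196660) (nat_lit 12) (.e (nat_lit 57354) (nat_lit 0) .nil)))))))) (.g (nat_lit 0) .nil .nil))) 
(.lf (nat_lit 111795) (.g (nat_lit 2405) (.e (nat_lit 5589) (nat_lit 310) (.e (nat_lit 163875) (nat_lit 3) (.e (nat_lit 204862) (nat_lit 27) (.e (nat_lit 344117) (nat_lit 21) (.e (nat_lit 516123) (nat_lit 2) (.e (nat_lit 213013) (nat_lit 9) (.e (nat_lit 2684) (nat_lit 168) (.e (nat_lit 204818) (nat_lit 17) (.e (nat_lit 1022) (nat_lit 81) .nil))))))))) (.g (nat_lit 5) .nil .nil))))) 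
(.nd (nat_lit 4) (.nd (nat_lit 5) 
(.lf (nat_lit 111755) (.g (nat_lit 4119) (.e (nat_lit 5589) (nat_lit 310) (.e (nat_lit 163868) (nat_lit 2) (.e (nat_lit 196670) (nat_lit 14) (.e (nat_lit 73755) (nat_lit 8) (.e (nat_lit 557105) (nat_lit 14) (.e (nat_lit 180252) (nat_lit 10) (.e (nat_lit 573474) (nat_lit 12) (.e (nat_lit 57354) (nat_lit 0) .nil)))))))) (.g (nat_lit 6) .nil .nil))) 
(.lf (nat_lit 111787) (.g (nat_lit 3139) (.e (nat_lit 5589) (nat_lit 310) (.e (nat_lit 163875) (nat_lit 3) (.e (nat_lit 204861) (nat_lit 26) (.e (nat_lit 336213) (nat_lit 13) (.e (nat_lit 393229) (nat_lit 9) (.e (nat_lit 335892) (nat_lit 0) (.e (nat_lit 1034) (nat_lit 81) .nil))))))) (.g (nat_lit 5) .nil .nil)))) (.nd (nat_lit 5) 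
(.lf (nat_lit 111771) (.g (nat_lit 3563) (.e (nat_lit 5589) (nat_lit 310) (.e (nat_lit 163871) (nat_lit 2) (.e (nat_lit 196670) (nat_lit 14) (.e (nat_lit 73746) (nat_lit 3) (.e (nat_lit 516131) (nat_lit 3) (.e (nat_lit 221212) (nat_lit 22) (.e (nat_lit 196677) (nat_lit 16) (.e (nat_lit 122880) (nat_lit 0) .nil)))))))) (.g (nat_lit 7) .nil .nil))) 
(.lf (nat_lit 111803) (.g (nat_lit 1995) (.e (nat_lit 5589) (nat_lit 310) (.e (nat_lit 163875) (nat_lit 3) (.e (nat_lit 204862) (nat_lit 27) (.e (nat_lit 344117) (nat_lit 21) (.e (nat_lit 516123) (nat_lit 2) (.e (nat_lit 213013) (nat_lit 9) (.e (nat_lit 2684) (nat_lit 168) (.e (nat_lit 204822) (nat_lit 17) (.e (nat_lit 1023) (nat_lit 81) .nil))))))))) (.g (nat_lit 4) .nil .nil)))))) 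
(.nd (nat_lit 3) (.nd (nat_lit 4) (.nd (nat_lit 5) 
(.lf (nat_lit 111751) (.g (nat_lit 2518) (.e (nat_lit 5589) (nat_lit 310) (.e (nat_lit 163868) (nat_lit 2) (.e (nat_lit 196670) (nat_lit 14) (.e (nat_lit 73753) (nat_lit 8) (.e (nat_lit 557103) (nat_lit 14) (.e (nat_lit 180250) (nat_lit 10) (.e (nat_lit 573475) (nat_lit 12) (.e (nat_lit 57344) (nat_lit 0) .nil)))))))) (.g (nat_lit 4) .nil .nil))) 
(.lf (nat_lit 111783) (.g (nat_lit 1471) (.e (nat_lit 5589) (nat_lit 310) (.e (nat_lit 163875) (nat_lit 3) (.e (nat_lit 204861) (nat_lit 26) (.e (nat_lit 336213) (nat_lit 13) (.e (nat_lit 393225) (nat_lit 9) .nil))))) .nil))) (.nd (nat_lit 5) 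
(.lf (nat_lit 111767) (.g (nat_lit 1650) (.e (nat_lit 5589) (nat_lit 310) (.e (nat_lit 163871) (nat_lit 2) (.e (nat_lit 196670) (nat_lit 14) (.e (nat_lit 73746) (nat_lit 3) (.e (nat_lit 516131) (nat_lit 3) .nil))))) .nil)) 
(.lf (nat_lit 111799) (.g (nat_lit 2434) (.e (nat_lit 5589) (nat_lit 310) (.e (nat_lit 163875) (nat_lit 3) (.e (nat_lit 204862) (nat_lit 27) (.e (nat_lit 344117) (nat_lit 21) (.e (nat_lit 516123) (nat_lit 2) (.e (nat_lit 213013) (nat_lit 9) (.e (nat_lit 2684) (nat_lit 168) (.e (nat_lit 204818) (nat_lit 17) (.e (nat_lit 1034) (nat_lit 81) .nil))))))))) (.g (nat_lit 5) .nil .nil))))) 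
(.nd (nat_lit 4) (.nd (nat_lit 5) 
(.lf (nat_lit 111759) (.g (nat_lit 3265) (.e (nat_lit 5589) (nat_lit 310) (.e (nat_lit 163871) (nat_lit 2) (.e (nat_lit 196668) (nat_lit 14) (.e (nat_lit 73753) (nat_lit 8) (.e (nat_lit 557103) (nat_lit 14) (.e (nat_lit 180250) (nat_lit 10) (.e (nat_lit 573475) (nat_lit 12) (.e (nat_lit 57344) (nat_lit 0) .nil)))))))) (.g (nat_lit 5) .nil .nil))) 
(.lf (nat_lit 111791) (.g (nat_lit 1758) (.e (nat_lit 5589) (nat_lit 310) (.e (nat_lit 163875) (nat_lit 3) (.e (nat_lit 204861) (nat_lit 26) (.e (nat_lit 336215) (nat_lit 13) (.e (nat_lit 401152) (nat_lit 13) .nil))))) .nil))) (.nd (nat_lit 5) 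
(.lf (nat_lit 111775) (.g (nat_lit 2451) (.e (nat_lit 5589) (nat_lit 310) (.e (nat_lit 163871) (nat_lit 2) (.e (nat_lit 196670) (nat_lit 14) (.e (nat_lit 73753) (nat_lit 8) (.e (nat_lit 557103) (nat_lit 14) .nil))))) .nil)) 
(.lf (nat_lit 111807) (.g (nat_lit 1925) (.e (nat_lit 5589) (nat_lit 310) (.e (nat_lit 163875) (nat_lit 3) (.e (nat_lit 204862) (nat_lit 27) (.e (nat_lit 344117) (nat_lit 21) (.e (nat_lit 516130) (nat_lit 3) (.e (nat_lit 221211) (nat_lit 22) (.e (nat_lit 196676) (nat_lit 16) (.e (nat_lit 122883) (nat_lit 0) .nil)))))))) (.g (nat_lit 4) .nil .nil)))))))))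

noncomputable def tv1508 : DT := (.nd (nat_lit 0) (.nd (nat_lit 1) (.nd (nat_lit 2) (.nd (nat_lit 3) (.nd (nat_lit 4) (.nd (nat_lit 5) 
(.lf (nat_lit 111808) (.g (nat_lit 2109) (.e (nat_lit 5589) (nat_lit 310) (.e (nat_lit 163875) (nat_lit 3) (.e (nat_lit 204862) (nat_lit 27) (.e (nat_lit 344117) (nat_lit 21) (.e (nat_lit 516130) (nat_lit 3) (.e (nat_lit 221211) (nat_lit 22) (.e (nat_lit 196678) (nat_lit 16) (.e (nat_lit 122883) (nat_lit 0) .nil)))))))) (.g (nat_lit 4) .nil .nil))) 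
(.lf (nat_lit 111840) (.g (nat_lit 2291) (.e (nat_lit 5589) (nat_lit 310) (.e (nat_lit 163875) (nat_lit 3) (.e (nat_lit 204863) (nat_lit 27) (.e (nat_lit 344132) (nat_lit 26) (.e (nat_lit 557105) (nat_lit 14) (.e (nat_lit 180252) (nat_lit 10) (.e (nat_lit 573475) (nat_lit 12) (.e (nat_lit 57355) (nat_lit 0) .nil)))))))) (.g (nat_lit 4) .nil .nil)))) (.nd (nat_lit 5) 
(.lf (nat_lit 111824) (.g (nat_lit 2126) (.e (nat_lit 5589) (nat_lit 310) (.e (nat_lit 163875) (nat_lit 3) (.e (nat_lit 204863) (nat_lit 27) (.e (nat_lit 344117) (nat_lit 21) (.e (nat_lit 516129) (nat_lit 3) .nil))))) .nil)) 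
(.lf (nat_lit 111856) (.g (nat_lit 2066) (.e (nat_lit 5590) (nat_lit 310) (.e (nat_lit 163867) (nat_lit 2) (.e (nat_lit 196669) (nat_lit 14) (.e (nat_lit 73755) (nat_lit 8) (.e (nat_lit 557105) (nat_lit 14) (.e (nat_lit 180252) (nat_lit 10) (.e (nat_lit 573474) (nat_lit 12) (.e (nat_lit 57344) (nat_lit 0) .nil)))))))) (.g (nat_lit 4) .nil .nil))))) (.nd (nat_lit 4) (.nd (nat_lit 5) 
(.lf (nat_lit 111816) (.g (nat_lit 3767) (.e (nat_lit 5589) (nat_lit 310) (.e (nat_lit 163875) (nat_lit 3) (.e (nat_lit 204862) (nat_lit 27) (.e (nat_lit 344129) (nat_lit 26) (.e (nat_lit 557103) (nat_lit 14) (.e (nat_lit 180250) (nat_lit 10) (.e (nat_lit 573478) (nat_lit 12) (.e (nat_lit 57344) (nat_lit 0) .nil)))))))) (.g (nat_lit 5) .nil .nil))) 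
(.lf (nat_lit 111848) (.g (nat_lit 817) (.e (nat_lit 5589) (nat_lit 310) (.e (nat_lit 163907) (nat_lit 12) (.e (nat_lit 426320) (nat_lit 12) .nil))) .nil))) (.nd (nat_lit 5) 
(.lf (nat_lit 111832) (.g (nat_lit 3101) (.e (nat_lit 5589) (nat_lit 310) (.e (nat_lit 163875) (nat_lit 3) (.e (nat_lit 204863) (nat_lit 27) (.e (nat_lit 344117) (nat_lit 21) (.e (nat_lit 516130) (nat_lit 3) (.e (nat_lit 221212) (nat_lit 22) (.e (nat_lit 196677) (nat_lit 16) (.e (nat_lit 122882) (nat_lit 0) .nil)))))))) (.g (nat_lit 6) .nil .nil))) 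
(.lf (nat_lit 111864) (.g (nat_lit 4038) (.e (nat_lit 5590) (nat_lit 310) (.e (nat_lit 163867) (nat_lit 2) (.e (nat_lit 196670) (nat_lit 14) (.e (nat_lit 73754) (nat_lit 8) (.e (nat_lit 557105) (nat_lit 14) (.e (nat_lit 180252) (nat_lit 10) (.e (nat_lit 573475) (nat_lit 12) (.e (nat_lit 57345) (nat_lit 0) .nil)))))))) (.g (nat_lit 0) .nil .nil)))))) 
(.nd (nat_lit 3) (.nd (nat_lit 4) (.nd (nat_lit 5) 
(.lf (nat_lit 111812) (.g (nat_lit 3728) (.e (nat_lit 5589) (nat_lit 310) (.e (nat_lit 163875) (nat_lit 3) (.e (nat_lit 204862) (nat_lit 27) (.e (nat_lit 344117) (nat_lit 21) (.e (nat_lit 516130) (nat_lit 3) (.e (nat_lit 221212) (nat_lit 22) (.e (nat_lit 196677) (nat_lit 16) (.e (nat_lit 122882) (nat_lit 0) .nil)))))))) (.g (nat_lit 7) .nil .nil))) 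
(.lf (nat_lit 111844) (.g (nat_lit 2408) (.e (nat_lit 5589) (nat_lit 310) (.e (nat_lit 163875) (nat_lit 3) (.e (nat_lit 204864) (nat_lit 27) (.e (nat_lit 344130) (nat_lit 26) (.e (nat_lit 557104) (nat_lit 14) (.e (nat_lit 180252) (nat_lit 10) (.e (nat_lit 573495) (nat_lit 16) (.e (nat_lit 122883) (nat_lit 0) .nil)))))))) (.g (nat_lit 4) .nil .nil)))) (.nd (nat_lit 5) 
(.lf (nat_lit 111828) (.g (nat_lit 2544) (.e (nat_lit 5589) (nat_lit 310) (.e (nat_lit 163875) (nat_lit 3) (.e (nat_lit 204863) (nat_lit 27) (.e (nat_lit 344117) (nat_lit 21) (.e (nat_lit 516130) (nat_lit 3) (.e (nat_lit 221212) (nat_lit 22) (.e (nat_lit 196659) (nat_lit 12) (.e (nat_lit 57354) (nat_lit 0) .nil)))))))) (.g (nat_lit 5) .nil .nil))) 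
(.lf (nat_lit 111860) (.g (nat_lit 5272) (.e (nat_lit 5590) (nat_lit 310) (.e (nat_lit 163867) (nat_lit 2) (.e (nat_lit 196670) (nat_lit 14) (.e (nat_lit 73753) (nat_lit 8) (.e (nat_lit 557105) (nat_lit 14) (.e (nat_lit 180252) (nat_lit 10) (.e (nat_lit 573474) (nat_lit 12) (.e (nat_lit 57348) (nat_lit 0) .nil)))))))) (.g (nat_lit 8) .nil .nil))))) (.nd (nat_lit 4) (.nd (nat_lit 5) 
(.lf (nat_lit 111820) (.g (nat_lit 3014) (.e (nat_lit 5589) (nat_lit 310) (.e (nat_lit 163875) (nat_lit 3) (.e (nat_lit 204862) (nat_lit 27) (.e (nat_lit 344133) (nat_lit 26) (.e (nat_lit 557103) (nat_lit 14) (.e (nat_lit 180250) (nat_lit 10) (.e (nat_lit 573474) (nat_lit 12) (.e (nat_lit 57344) (nat_lit 0) .nil)))))))) (.g (nat_lit 5) .nil .nil))) 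
(.lf (nat_lit 111852) (.g (nat_lit 2888) (.e (nat_lit 5590) (nat_lit 310) (.e (nat_lit 163867) (nat_lit 2) (.e (nat_lit 196667) (nat_lit 14) (.e (nat_lit 73755) (nat_lit 8) (.e (nat_lit 557105) (nat_lit 14) (.e (nat_lit 180252) (nat_lit 10) (.e (nat_lit 573474) (nat_lit 12) (.e (nat_lit 57348) (nat_lit 0) .nil)))))))) (.g (nat_lit 5) .nil .nil)))) (.nd (nat_lit 5) 
(.lf (nat_lit 111836) (.g (nat_lit 2098) (.e (nat_lit 5589) (nat_lit 310) (.e (nat_lit 163875) (nat_lit 3) (.e (nat_lit 204863) (nat_lit 27) (.e (nat_lit 344120) (nat_lit 21) (.e (nat_lit 516131) (nat_lit 3) (.e (nat_lit 221212) (nat_lit 22) (.e (nat_lit 196660) (nat_lit 12) (.e (nat_lit 57354) (nat_lit 0) .nil)))))))) (.g (nat_lit 4) .nil .nil))) 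
(.lf (nat_lit 111868) (.g (nat_lit 3073) (.e (nat_lit 5590) (nat_lit 310) (.e (nat_lit 163868) (nat_lit 2) (.e (nat_lit 196670) (nat_lit 14) (.e (nat_lit 73753) (nat_lit 8) (.e (nat_lit 557105) (nat_lit 14) (.e (nat_lit 180252) (nat_lit 10) (.e (nat_lit 573474) (nat_lit 12) (.e (nat_lit 57347) (nat_lit 0) .nil)))))))) (.g (nat_lit 4) .nil .nil))))))) 
(.nd (nat_lit 2) (.nd (nat_lit 3) (.nd (nat_lit 4) (.nd (nat_lit 5) 
(.lf (nat_lit 111810) (.g (nat_lit 2667) (.e (nat_lit 5589) (nat_lit 310) (.e (nat_lit 163875) (nat_lit 3) (.e (nat_lit 204862) (nat_lit 27) (.e (nat_lit 344117) (nat_lit 21) (.e (nat_lit 516130) (nat_lit 3) (.e (nat_lit 221212) (nat_lit 22) (.e (nat_lit 196676) (nat_lit 16) (.e (nat_lit 122883) (nat_lit 0) .nil)))))))) (.g (nat_lit 5) .nil .nil))) 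
(.lf (nat_lit 111842) (.g (nat_lit 3568) (.e (nat_lit 5589) (nat_lit 310) (.e (nat_lit 163875) (nat_lit 3) (.e (nat_lit 204864) (nat_lit 27) (.e (nat_lit 344130) (nat_lit 26) (.e (nat_lit 557104) (nat_lit 14) (.e (nat_lit 180252) (nat_lit 10) (.e (nat_lit 573474) (nat_lit 12) (.e (nat_lit 57354) (nat_lit 0) .nil)))))))) (.g (nat_lit 6) .nil .nil)))) (.nd (nat_lit 5) 
(.lf (nat_lit 111826) (.g (nat_lit 1929) (.e (nat_lit 5589) (nat_lit 310) (.e (nat_lit 163875) (nat_lit 3) (.e (nat_lit 204863) (nat_lit 27) (.e (nat_lit 344117) (nat_lit 21) (.e (nat_lit 516130) (nat_lit 3) .nil))))) .nil)) 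
(.lf (nat_lit 111858) (.g (nat_lit 4391) (.e (nat_lit 5590) (nat_lit 310) (.e (nat_lit 163867) (nat_lit 2) (.e (nat_lit 196669) (nat_lit 14) (.e (nat_lit 73755) (nat_lit 8) (.e (nat_lit 557105) (nat_lit 14) (.e (nat_lit 180252) (nat_lit 10) (.e (nat_lit 573474) (nat_lit 12) (.e (nat_lit 57348) (nat_lit 0) .nil)))))))) (.g (nat_lit 8) .nil .nil))))) (.nd (nat_lit 4) (.nd (nat_lit 5) 
(.lf (nat_lit 111818) (.g (nat_lit 2189) (.e (nat_lit 5589) (nat_lit 310) (.e (nat_lit 163875) (nat_lit 3) (.e (nat_lit 204862) (nat_lit 27) (.e (nat_lit 344132) (nat_lit 26) (.e (nat_lit 557105) (nat_lit 14) (.e (nat_lit 180251) (nat_lit 10) (.e (nat_lit 573478) (nat_lit 12) (.e (nat_lit 57344) (nat_lit 0) .nil)))))))) (.g (nat_lit 4) .nil .nil))) 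
(.lf (nat_lit 111850) (.g (nat_lit 1767) (.e (nat_lit 5589) (nat_lit 310) (.e (nat_lit 163931) (nat_lit 17) (.e (nat_lit 466947) (nat_lit 0) (.e (nat_lit 2175) (nat_lit 143) (.e (nat_lit 712755) (nat_lit 30) (.e (nat_lit 458496) (nat_lit 0) .nil)))))) (.g (nat_lit 4) .nil .nil)))) (.nd (nat_lit 5) 
(.lf (nat_lit 111834) (.g (nat_lit 3658) (.e (nat_lit 5589) (nat_lit 310) (.e (nat_lit 163875) (nat_lit 3) (.e (nat_lit 204863) (nat_lit 27) (.e (nat_lit 344117) (nat_lit 21) (.e (nat_lit 516130) (nat_lit 3) (.e (nat_lit 221215) (nat_lit 23) (.e (nat_lit 204821) (nat_lit 17) (.e (nat_lit 1023) (nat_lit 81) .nil)))))))) (.g (nat_lit 6) .nil .nil))) 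
(.lf (nat_lit 111866) (.g (nat_lit 2961) (.e (nat_lit 5590) (nat_lit 310) (.e (nat_lit 163867) (nat_lit 2) (.e (nat_lit 196670) (nat_lit 14) (.e (nat_lit 73755) (nat_lit 8) (.e (nat_lit 557105) (nat_lit 14) (.e (nat_lit 180252) (nat_lit 10) (.e (nat_lit 573474) (nat_lit 12) (.e (nat_lit 57349) (nat_lit 0) .nil)))))))) (.g (nat_lit 4) .nil .nil)))))) 
(.nd (nat_lit 3) (.nd (nat_lit 4) (.nd (nat_lit 5) 
(.lf (nat_lit 111814) (.g (nat_lit 2335) (.e (nat_lit 5589) (nat_lit 310) (.e (nat_lit 163875) (nat_lit 3) (.e (nat_lit 204862) (nat_lit 27) (.e (nat_lit 344117) (nat_lit 21) (.e (nat_lit 516131) (nat_lit 3) (.e (nat_lit 221212) (nat_lit 22) (.e (nat_lit 196677) (nat_lit 16) (.e (nat_lit 122880) (nat_lit 0) .nil)))))))) (.g (nat_lit 4) .nil .nil))) 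
(.lf (nat_lit 111846) (.g (nat_lit 3217) (.e (nat_lit 5589) (nat_lit 310) (.e (nat_lit 163875) (nat_lit 3) (.e (nat_lit 204864) (nat_lit 27) (.e (nat_lit 344133) (nat_lit 26) (.e (nat_lit 557103) (nat_lit 14) (.e (nat_lit 180250) (nat_lit 10) (.e (nat_lit 573474) (nat_lit 12) (.e (nat_lit 57354) (nat_lit 0) .nil)))))))) (.g (nat_lit 5) .nil .nil)))) (.nd (nat_lit 5) 
(.lf (nat_lit 111830) (.g (nat_lit 2043) (.e (nat_lit 5589) (nat_lit 310) (.e (nat_lit 163875) (nat_lit 3) (.e (nat_lit 204863) (nat_lit 27) (.e (nat_lit 344117) (nat_lit 21) (.e (nat_lit 516130) (nat_lit 3) (.e (nat_lit 221212) (nat_lit 22) (.e (nat_lit 196676) (nat_lit 16) (.e (nat_lit 122883) (nat_lit 0) .nil)))))))) (.g (nat_lit 4) .nil .nil))) 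
(.lf (nat_lit 111862) (.g (nat_lit 5424) (.e (nat_lit 5590) (nat_lit 310) (.e (nat_lit 163867) (nat_lit 2) (.e (nat_lit 196670) (nat_lit 14) (.e (nat_lit 73754) (nat_lit 8) (.e (nat_lit 557105) (nat_lit 14) (.e (nat_lit 180252) (nat_lit 10) (.e (nat_lit 573474) (nat_lit 12) (.e (nat_lit 57348) (nat_lit 0) .nil)))))))) (.g (nat_lit 8) .nil .nil))))) (.nd (nat_lit 4) (.nd (nat_lit 5) 
(.lf (nat_lit 111822) (.g (nat_lit 3068) (.e (nat_lit 5589) (nat_lit 310) (.e (nat_lit 163875) (nat_lit 3) (.e (nat_lit 204862) (nat_lit 27) (.e (nat_lit 344133) (nat_lit 26) (.e (nat_lit 557103) (nat_lit 14) (.e (nat_lit 180250) (nat_lit 10) (.e (nat_lit 573475) (nat_lit 12) (.e (nat_lit 57344) (nat_lit 0) .nil)))))))) (.g (nat_lit 5) .nil .nil))) 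
(.lf (nat_lit 111854) (.g (nat_lit 2857) (.e (nat_lit 5590) (nat_lit 310) (.e (nat_lit 163867) (nat_lit 2) (.e (nat_lit 196668) (nat_lit 14) (.e (nat_lit 73753) (nat_lit 8) (.e (nat_lit 557104) (nat_lit 14) (.e (nat_lit 180252) (nat_lit 10) (.e (nat_lit 573474) (nat_lit 12) (.e (nat_lit 57347) (nat_lit 0) .nil)))))))) (.g (nat_lit 4) .nil .nil)))) (.nd (nat_lit 5) 
(.lf (nat_lit 111838) (.g (nat_lit 4126) (.e (nat_lit 5589) (nat_lit 310) (.e (nat_lit 163875) (nat_lit 3) (.e (nat_lit 204863) (nat_lit 27) (.e (nat_lit 344131) (nat_lit 26) (.e (nat_lit 557105) (nat_lit 14) (.e (nat_lit 180252) (nat_lit 10) (.e (nat_lit 573474) (nat_lit 12) (.e (nat_lit 57354) (nat_lit 0) .nil)))))))) (.g (nat_lit 6) .nil .nil))) 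
(.lf (nat_lit 111870) (.g (nat_lit 3398) (.e (nat_lit 5590) (nat_lit 310) (.e (nat_lit 163869) (nat_lit 2) (.e (nat_lit 196669) (nat_lit 14) (.e (nat_lit 73755) (nat_lit 8) (.e (nat_lit 557105) (nat_lit 14) (.e (nat_lit 180252) (nat_lit 10) (.e (nat_lit 573474) (nat_lit 12) (.e (nat_lit 57348) (nat_lit 0) .nil)))))))) (.g (nat_lit 6) .nil .nil)))))))) 
(.nd (nat_lit 1) (.nd (nat_lit 2) (.nd (nat_lit 3) (.nd (nat_lit 4) (.nd (nat_lit 5) 
(.lf (nat_lit 111809) (.g (nat_lit 2660) (.e (nat_lit 5589) (nat_lit 310) (.e (nat_lit 163875) (nat_lit 3) (.e (nat_lit 204862) (nat_lit 27) (.e (nat_lit 344117) (nat_lit 21) (.e (nat_lit 516130) (nat_lit 3) (.e (nat_lit 221212) (nat_lit 22) (.e (nat_lit 196675) (nat_lit 16) (.e (nat_lit 122883) (nat_lit 0) .nil)))))))) (.g (nat_lit 5) .nil .nil))) 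
(.lf (nat_lit 111841) (.g (nat_lit 4694) (.e (nat_lit 5589) (nat_lit 310) (.e (nat_lit 163875) (nat_lit 3) (.e (nat_lit 204863) (nat_lit 27) (.e (nat_lit 344133) (nat_lit 26) (.e (nat_lit 557105) (nat_lit 14) (.e (nat_lit 180252) (nat_lit 10) (.e (nat_lit 573474) (nat_lit 12) (.e (nat_lit 57354) (nat_lit 0) .nil)))))))) (.g (nat_lit 6) .nil .nil)))) (.nd (nat_lit 5) 
(.lf (nat_lit 111825) (.g (nat_lit 2335) (.e (nat_lit 5589) (nat_lit 310) (.e (nat_lit 163875) (nat_lit 3) (.e (nat_lit 204863) (nat_lit 27) (.e (nat_lit 344117) (nat_lit 21) (.e (nat_lit 516129) (nat_lit 3) (.e (nat_lit 221210) (nat_lit 22) (.e (nat_lit 196677) (nat_lit 16) (.e (nat_lit 122882) (nat_lit 0) .nil)))))))) (.g (nat_lit 4) .nil .nil))) 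
(.lf (nat_lit 111857) (.g (nat_lit 3342) (.e (nat_lit 5590) (nat_lit 310) (.e (nat_lit 163867) (nat_lit 2) (.e (nat_lit 196669) (nat_lit 14) (.e (nat_lit 73755) (nat_lit 8) (.e (nat_lit 557105) (nat_lit 14) (.e (nat_lit 180252) (nat_lit 10) (.e (nat_lit 573474) (nat_lit 12) (.e (nat_lit 57345) (nat_lit 0) .nil)))))))) (.g (nat_lit 6) .nil .nil))))) (.nd (nat_lit 4) (.nd (nat_lit 5) 
(.lf (nat_lit 111817) (.g (nat_lit 2753) (.e (nat_lit 5589) (nat_lit 310) (.e (nat_lit 163875) (nat_lit 3) (.e (nat_lit 204862) (nat_lit 27) (.e (nat_lit 344130) (nat_lit 26) (.e (nat_lit 557104) (nat_lit 14) (.e (nat_lit 180252) (nat_lit 10) (.e (nat_lit 573495) (nat_lit 16) (.e (nat_lit 122883) (nat_lit 0) .nil)))))))) (.g (nat_lit 5) .nil .nil))) 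
(.lf (nat_lit 111849) (.g (nat_lit 1612) (.e (nat_lit 5589) (nat_lit 310) (.e (nat_lit 163931) (nat_lit 17) (.e (nat_lit 466947) (nat_lit 0) (.e (nat_lit 2175) (nat_lit 143) (.e (nat_lit 712753) (nat_lit 30) .nil))))) .nil))) (.nd (nat_lit 5) 
(.lf (nat_lit 111833) (.g (nat_lit 2306) (.e (nat_lit 5589) (nat_lit 310) (.e (nat_lit 163875) (nat_lit 3) (.e (nat_lit 204863) (nat_lit 27) (.e (nat_lit 344117) (nat_lit 21) (.e (nat_lit 516130) (nat_lit 3) (.e (nat_lit 221212) (nat_lit 22) (.e (nat_lit 196678) (nat_lit 16) (.e (nat_lit 122883) (nat_lit 0) .nil)))))))) (.g (nat_lit 4) .nil .nil))) 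
(.lf (nat_lit 111865) (.g (nat_lit 4532) (.e (nat_lit 5590) (nat_lit 310) (.e (nat_lit 163867) (nat_lit 2) (.e (nat_lit 196670) (nat_lit 14) (.e (nat_lit 73755) (nat_lit 8) (.e (nat_lit 557105) (nat_lit 14) (.e (nat_lit 180252) (nat_lit 10) (.e (nat_lit 573474) (nat_lit 12) (.e (nat_lit 57347) (nat_lit 0) .nil)))))))) (.g (nat_lit 6) .nil .nil)))))) 
(.nd (nat_lit 3) (.nd (nat_lit 4) (.nd (nat_lit 5) 
(.lf (nat_lit 111813) (.g (nat_lit 2930) (.e (nat_lit 5589) (nat_lit 310) (.e (nat_lit 163875) (nat_lit 3) (.e (nat_lit 204862) (nat_lit 27) (.e (nat_lit 344117) (nat_lit 21) (.e (nat_lit 516130) (nat_lit 3) (.e (nat_lit 221212) (nat_lit 22) (.e (nat_lit 196678) (nat_lit 16) (.e (nat_lit 122883) (nat_lit 0) .nil)))))))) (.g (nat_lit 5) .nil .nil))) 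
(.lf (nat_lit 111845) (.g (nat_lit 3158) (.e (nat_lit 5589) (nat_lit 310) (.e (nat_lit 163875) (nat_lit 3) (.e (nat_lit 204864) (nat_lit 27) (.e (nat_lit 344132) (nat_lit 26) (.e (nat_lit 557105) (nat_lit 14) (.e (nat_lit 180252) (nat_lit 10) (.e (nat_lit 573475) (nat_lit 12) (.e (nat_lit 57344) (nat_lit 0) .nil)))))))) (.g (nat_lit 6) .nil .nil)))) (.nd (nat_lit 5) 
(.lf (nat_lit 111829) (.g (nat_lit 2036) (.e (nat_lit 5589) (nat_lit 310) (.e (nat_lit 163875) (nat_lit 3) (.e (nat_lit 204863) (nat_lit 27) (.e (nat_lit 344117) (nat_lit 21) (.e (nat_lit 516130) (nat_lit 3) (.e (nat_lit 221212) (nat_lit 22) (.e (nat_lit 196675) (nat_lit 16) (.e (nat_lit 122883) (nat_lit 0) .nil)))))))) (.g (nat_lit 4) .nil .nil))) 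
(.lf (nat_lit 111861) (.g (nat_lit 4375) (.e (nat_lit 5590) (nat_lit 310) (.e (nat_lit 163867) (nat_lit 2) (.e (nat_lit 196670) (nat_lit 14) (.e (nat_lit 73754) (nat_lit 8) (.e (nat_lit 557105) (nat_lit 14) (.e (nat_lit 180252) (nat_lit 10) (.e (nat_lit 573474) (nat_lit 12) (.e (nat_lit 57345) (nat_lit 0) .nil)))))))) (.g (nat_lit 6) .nil .nil))))) (.nd (nat_lit 4) (.nd (nat_lit 5) 
(.lf (nat_lit 111821) (.g (nat_lit 2279) (.e (nat_lit 5589) (nat_lit 310) (.e (nat_lit 163875) (nat_lit 3) (.e (nat_lit 204862) (nat_lit 27) (.e (nat_lit 344133) (nat_lit 26) (.e (nat_lit 557103) (nat_lit 14) (.e (nat_lit 180250) (nat_lit 10) (.e (nat_lit 573474) (nat_lit 12) (.e (nat_lit 57355) (nat_lit 0) .nil)))))))) (.g (nat_lit 4) .nil .nil))) 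
(.lf (nat_lit 111853) (.g (nat_lit 2667) (.e (nat_lit 5590) (nat_lit 310) (.e (nat_lit 163867) (nat_lit 2) (.e (nat_lit 196668) (nat_lit 14) (.e (nat_lit 73753) (nat_lit 8) (.e (nat_lit 557103) (nat_lit 14) .nil))))) .nil))) (.nd (nat_lit 5) 
(.lf (nat_lit 111837) (.g (nat_lit 2346) (.e (nat_lit 5589) (nat_lit 310) (.e (nat_lit 163875) (nat_lit 3) (.e (nat_lit 204863) (nat_lit 27) (.e (nat_lit 344127) (nat_lit 26) (.e (nat_lit 557104) (nat_lit 14) (.e (nat_lit 180252) (nat_lit 10) (.e (nat_lit 573474) (nat_lit 12) (.e (nat_lit 57354) (nat_lit 0) .nil)))))))) (.g (nat_lit 4) .nil .nil))) 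
(.lf (nat_lit 111869) (.g (nat_lit 2986) (.e (nat_lit 5590) (nat_lit 310) (.e (nat_lit 163868) (nat_lit 2) (.e (nat_lit 196670) (nat_lit 14) (.e (nat_lit 73754) (nat_lit 8) (.e (nat_lit 557105) (nat_lit 14) (.e (nat_lit 180252) (nat_lit 10) (.e (nat_lit 573474) (nat_lit 12) (.e (nat_lit 57348) (nat_lit 0) .nil)))))))) (.g (nat_lit 4) .nil .nil))))))) 
(.nd (nat_lit 2) (.nd (nat_lit 3) (.nd (nat_lit 4) (.nd (nat_lit 5) 
(.lf (nat_lit 111811) (.g (nat_lit 3827) (.e (nat_lit 5589) (nat_lit 310) (.e (nat_lit 163875) (nat_lit 3) (.e (nat_lit 204862) (nat_lit 27) (.e (nat_lit 344117) (nat_lit 21) (.e (nat_lit 516130) (nat_lit 3) (.e (nat_lit 221212) (nat_lit 22) (.e (nat_lit 196677) (nat_lit 16) (.e (nat_lit 122880) (nat_lit 0) .nil)))))))) (.g (nat_lit 8) .nil .nil))) 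
(.lf (nat_lit 111843) (.g (nat_lit 2273) (.e (nat_lit 5589) (nat_lit 310) (.e (nat_lit 163875) (nat_lit 3) (.e (nat_lit 204864) (nat_lit 27) (.e (nat_lit 344130) (nat_lit 26) (.e (nat_lit 557104) (nat_lit 14) (.e (nat_lit 180252) (nat_lit 10) (.e (nat_lit 573475) (nat_lit 12) (.e (nat_lit 57344) (nat_lit 0) .nil)))))))) (.g (nat_lit 4) .nil .nil)))) (.nd (nat_lit 5) 
(.lf (nat_lit 111827) (.g (nat_lit 2849) (.e (nat_lit 5589) (nat_lit 310) (.e (nat_lit 163875) (nat_lit 3) (.e (nat_lit 204863) (nat_lit 27) (.e (nat_lit 344117) (nat_lit 21) (.e (nat_lit 516130) (nat_lit 3) (.e (nat_lit 221211) (nat_lit 22) (.e (nat_lit 196661) (nat_lit 12) (.e (nat_lit 65280) (nat_lit 0) .nil)))))))) (.g (nat_lit 6) .nil .nil))) 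
(.lf (nat_lit 111859) (.g (nat_lit 2393) (.e (nat_lit 5590) (nat_lit 310) (.e (nat_lit 163867) (nat_lit 2) (.e (nat_lit 196670) (nat_lit 14) (.e (nat_lit 73753) (nat_lit 8) (.e (nat_lit 557103) (nat_lit 14) .nil))))) .nil)))) (.nd (nat_lit 4) (.nd (nat_lit 5) 
(.lf (nat_lit 111819) (.g (nat_lit 3486) (.e (nat_lit 5589) (nat_lit 310) (.e (nat_lit 163875) (nat_lit 3) (.e (nat_lit 204862) (nat_lit 27) (.e (nat_lit 344132) (nat_lit 26) (.e (nat_lit 557105) (nat_lit 14) (.e (nat_lit 180252) (nat_lit 10) (.e (nat_lit 573475) (nat_lit 12) (.e (nat_lit 57344) (nat_lit 0) .nil)))))))) (.g (nat_lit 6) .nil .nil))) 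
(.lf (nat_lit 111851) (.g (nat_lit 1709) (.e (nat_lit 5589) (nat_lit 310) (.e (nat_lit 163933) (nat_lit 17) (.e (nat_lit 466947) (nat_lit 0) (.e (nat_lit 2173) (nat_lit 143) (.e (nat_lit 712755) (nat_lit 30) (.e (nat_lit 458496) (nat_lit 0) .nil)))))) (.g (nat_lit 4) .nil .nil)))) (.nd (nat_lit 5) 
(.lf (nat_lit 111835) (.g (nat_lit 1810) (.e (nat_lit 5589) (nat_lit 310) (.e (nat_lit 163875) (nat_lit 3) (.e (nat_lit 204863) (nat_lit 27) (.e (nat_lit 344120) (nat_lit 21) .nil)))) .nil)) 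
(.lf (nat_lit 111867) (.g (nat_lit 2887) (.e (nat_lit 5590) (nat_lit 310) (.e (nat_lit 163868) (nat_lit 2) (.e (nat_lit 196670) (nat_lit 14) (.e (nat_lit 73753) (nat_lit 8) (.e (nat_lit 557105) (nat_lit 14) .nil))))) .nil))))) (.nd (nat_lit 3) (.nd (nat_lit 4) (.nd (nat_lit 5) 
(.lf (nat_lit 111815) (.g (nat_lit 1342) (.e (nat_lit 5589) (nat_lit 310) (.e (nat_lit 163875) (nat_lit 3) (.e (nat_lit 204862) (nat_lit 27) (.e (nat_lit 344118) (nat_lit 21) .nil)))) .nil)) 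
(.lf (nat_lit 111847) (.g (nat_lit 4436) (.e (nat_lit 5589) (nat_lit 310) (.e (nat_lit 163875) (nat_lit 3) (.e (nat_lit 204864) (nat_lit 27) (.e (nat_lit 344133) (nat_lit 26) (.e (nat_lit 557105) (nat_lit 14) (.e (nat_lit 180252) (nat_lit 10) (.e (nat_lit 573474) (nat_lit 12) (.e (nat_lit 57354) (nat_lit 0) .nil)))))))) (.g (nat_lit 6) .nil .nil)))) (.nd (nat_lit 5) 
(.lf (nat_lit 111831) (.g (nat_lit 3200) (.e (nat_lit 5589) (nat_lit 310) (.e (nat_lit 163875) (nat_lit 3) (.e (nat_lit 204863) (nat_lit 27) (.e (nat_lit 344117) (nat_lit 21) (.e (nat_lit 516130) (nat_lit 3) (.e (nat_lit 221212) (nat_lit 22) (.e (nat_lit 196677) (nat_lit 16) (.e (nat_lit 122880) (nat_lit 0) .nil)))))))) (.g (nat_lit 7) .nil .nil))) 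
(.lf (nat_lit 111863) (.g (nat_lit 2599) (.e (nat_lit 5590) (nat_lit 310) (.e (nat_lit 163867) (nat_lit 2) (.e (nat_lit 196670) (nat_lit 14) (.e (nat_lit 73754) (nat_lit 8) (.e (nat_lit 557105) (nat_lit 14) (.e (nat_lit 180252) (nat_lit 10) (.e (nat_lit 573475) (nat_lit 12) (.e (nat_lit 57344) (nat_lit 0) .nil)))))))) (.g (nat_lit 5) .nil .nil))))) (.nd (nat_lit 4) (.nd (nat_lit 5) 
(.lf (nat_lit 111823) (.g (nat_lit 3050) (.e (nat_lit 5589) (nat_lit 310) (.e (nat_lit 163875) (nat_lit 3) (.e (nat_lit 204862) (nat_lit 27) (.e (nat_lit 344133) (nat_lit 26) (.e (nat_lit 557103) (nat_lit 14) (.e (nat_lit 180250) (nat_lit 10) (.e (nat_lit 573478) (nat_lit 12) (.e (nat_lit 57344) (nat_lit 0) .nil)))))))) (.g (nat_lit 5) .nil .nil))) 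
(.lf (nat_lit 111855) (.g (nat_lit 1808) (.e (nat_lit 5590) (nat_lit 310) (.e (nat_lit 163867) (nat_lit 2) (.e (nat_lit 196669) (nat_lit 14) (.e (nat_lit 73754) (nat_lit 8) (.e (nat_lit 557105) (nat_lit 14) .nil))))) .nil))) (.nd (nat_lit 5) 
(.lf (nat_lit 111839) (.g (nat_lit 3359) (.e (nat_lit 5589) (nat_lit 310) (.e (nat_lit 163875) (nat_lit 3) (.e (nat_lit 204863) (nat_lit 27) (.e (nat_lit 344132) (nat_lit 26) (.e (nat_lit 557105) (nat_lit 14) (.e (nat_lit 180252) (nat_lit 10) (.e (nat_lit 573475) (nat_lit 12) (.e (nat_lit 57344) (nat_lit 0) .nil)))))))) (.g (nat_lit 6) .nil .nil))) 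
(.lf (nat_lit 111871) (.g (nat_lit 2218) (.e (nat_lit 5590) (nat_lit 310) (.e (nat_lit 163869) (nat_lit 2) (.e (nat_lit 196669) (nat_lit 14) (.e (nat_lit 73755) (nat_lit 8) (.e (nat_lit 557105) (nat_lit 14) (.e (nat_lit 180252) (nat_lit 10) (.e (nat_lit 573474) (nat_lit 12) (.e (nat_lit 57349) (nat_lit 0) .nil)))))))) (.g (nat_lit 4) .nil .nil)))))))))

noncomputable def tv1509 : DT := (.nd (nat_lit 0) (.nd (nat_lit 1) (.nd (nat_lit 2) (.nd (nat_lit 3) (.nd (nat_lit 4) (.nd (nat_lit 5) 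
(.lf (nat_lit 111872) (.g (nat_lit 2592) (.e (nat_lit 5590) (nat_lit 310) (.e (nat_lit 163869) (nat_lit 2) (.e (nat_lit 196670) (nat_lit 14) (.e (nat_lit 73753) (nat_lit 8) (.e (nat_lit 557103) (nat_lit 14) .nil))))) .nil)) 
(.lf (nat_lit 111904) (.g (nat_lit 4130) (.e (nat_lit 5590) (nat_lit 310) (.e (nat_lit 163871) (nat_lit 2) (.e (nat_lit 196670) (nat_lit 14) (.e (nat_lit 73755) (nat_lit 8) (.e (nat_lit 557105) (nat_lit 14) (.e (nat_lit 180252) (nat_lit 10) (.e (nat_lit 573474) (nat_lit 12) (.e (nat_lit 57348) (nat_lit 0) .nil)))))))) (.g (nat_lit 6) .nil .nil)))) (.nd (nat_lit 5) 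
(.lf (nat_lit 111888) (.g (nat_lit 4196) (.e (nat_lit 5590) (nat_lit 310) (.e (nat_lit 163871) (nat_lit 2) (.e (nat_lit 196669) (nat_lit 14) (.e (nat_lit 73755) (nat_lit 8) (.e (nat_lit 557105) (nat_lit 14) (.e (nat_lit 180252) (nat_lit 10) (.e (nat_lit 573474) (nat_lit 12) (.e (nat_lit 57347) (nat_lit 0) .nil)))))))) (.g (nat_lit 7) .nil .nil))) 
(.lf (nat_lit 111920) (.g (nat_lit 2420) (.e (nat_lit 5591) (nat_lit 310) (.e (nat_lit 163868) (nat_lit 2) (.e (nat_lit 196670) (nat_lit 14) (.e (nat_lit 73754) (nat_lit 8) (.e (nat_lit 557105) (nat_lit 14) .nil))))) .nil)))) (.nd (nat_lit 4) (.nd (nat_lit 5) 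
(.lf (nat_lit 111880) (.g (nat_lit 3712) (.e (nat_lit 5590) (nat_lit 310) (.e (nat_lit 163870) (nat_lit 2) (.e (nat_lit 196669) (nat_lit 14) (.e (nat_lit 73755) (nat_lit 8) (.e (nat_lit 557105) (nat_lit 14) (.e (nat_lit 180252) (nat_lit 10) (.e (nat_lit 573474) (nat_lit 12) (.e (nat_lit 57347) (nat_lit 0) .nil)))))))) (.g (nat_lit 6) .nil .nil))) 
(.lf (nat_lit 111912) (.g (nat_lit 3736) (.e (nat_lit 5591) (nat_lit 310) (.e (nat_lit 163867) (nat_lit 2) (.e (nat_lit 196670) (nat_lit 14) (.e (nat_lit 73754) (nat_lit 8) (.e (nat_lit 557105) (nat_lit 14) (.e (nat_lit 180252) (nat_lit 10) (.e (nat_lit 573475) (nat_lit 12) (.e (nat_lit 57345) (nat_lit 0) .nil)))))))) (.g (nat_lit 8) .nil .nil)))) (.nd (nat_lit 5) 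
(.lf (nat_lit 111896) (.g (nat_lit 2926) (.e (nat_lit 5590) (nat_lit 310) (.e (nat_lit 163871) (nat_lit 2) (.e (nat_lit 196670) (nat_lit 14) (.e (nat_lit 73753) (nat_lit 8) (.e (nat_lit 557105) (nat_lit 14) (.e (nat_lit 180252) (nat_lit 10) (.e (nat_lit 573475) (nat_lit 12) (.e (nat_lit 57345) (nat_lit 0) .nil)))))))) (.g (nat_lit 4) .nil .nil))) 
(.lf (nat_lit 111928) (.g (nat_lit 2939) (.e (nat_lit 5591) (nat_lit 310) (.e (nat_lit 163869) (nat_lit 2) (.e (nat_lit 196670) (nat_lit 14) (.e (nat_lit 73754) (nat_lit 8) (.e (nat_lit 557105) (nat_lit 14) .nil))))) .nil))))) (.nd (nat_lit 3) (.nd (nat_lit 4) (.nd (nat_lit 5) 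
(.lf (nat_lit 111876) (.g (nat_lit 3669) (.e (nat_lit 5590) (nat_lit 310) (.e (nat_lit 163869) (nat_lit 2) (.e (nat_lit 196670) (nat_lit 14) (.e (nat_lit 73754) (nat_lit 8) (.e (nat_lit 557105) (nat_lit 14) (.e (nat_lit 180252) (nat_lit 10) (.e (nat_lit 573475) (nat_lit 12) (.e (nat_lit 57345) (nat_lit 0) .nil)))))))) (.g (nat_lit 5) .nil .nil))) 
(.lf (nat_lit 111908) (.g (nat_lit 4547) (.e (nat_lit 5590) (nat_lit 310) (.e (nat_lit 163875) (nat_lit 3) (.e (nat_lit 204863) (nat_lit 27) (.e (nat_lit 344132) (nat_lit 26) (.e (nat_lit 557105) (nat_lit 14) (.e (nat_lit 180252) (nat_lit 10) (.e (nat_lit 573474) (nat_lit 12) (.e (nat_lit 57347) (nat_lit 0) .nil)))))))) (.g (nat_lit 6) .nil .nil)))) (.nd (nat_lit 5) 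
(.lf (nat_lit 111892) (.g (nat_lit 2439) (.e (nat_lit 5590) (nat_lit 310) (.e (nat_lit 163871) (nat_lit 2) (.e (nat_lit 196670) (nat_lit 14) (.e (nat_lit 73753) (nat_lit 8) (.e (nat_lit 557103) (nat_lit 14) .nil))))) .nil)) 
(.lf (nat_lit 111924) (.g (nat_lit 2565) (.e (nat_lit 5591) (nat_lit 310) (.e (nat_lit 163868) (nat_lit 2) (.e (nat_lit 196670) (nat_lit 14) (.e (nat_lit 73755) (nat_lit 8) (.e (nat_lit 557105) (nat_lit 14) .nil))))) .nil)))) (.nd (nat_lit 4) (.nd (nat_lit 5) 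
(.lf (nat_lit 111884) (.g (nat_lit 3104) (.e (nat_lit 5590) (nat_lit 310) (.e (nat_lit 163870) (nat_lit 2) (.e (nat_lit 196670) (nat_lit 14) (.e (nat_lit 73754) (nat_lit 8) (.e (nat_lit 557105) (nat_lit 14) (.e (nat_lit 180252) (nat_lit 10) (.e (nat_lit 573475) (nat_lit 12) (.e (nat_lit 57345) (nat_lit 0) .nil)))))))) (.g (nat_lit 5) .nil .nil))) 
(.lf (nat_lit 111916) (.g (nat_lit 3071) (.e (nat_lit 5591) (nat_lit 310) (.e (nat_lit 163868) (nat_lit 2) (.e (nat_lit 196668) (nat_lit 14) (.e (nat_lit 73755) (nat_lit 8) (.e (nat_lit 557105) (nat_lit 14) (.e (nat_lit 180252) (nat_lit 10) (.e (nat_lit 573474) (nat_lit 12) (.e (nat_lit 57348) (nat_lit 0) .nil)))))))) (.g (nat_lit 4) .nil .nil)))) (.nd (nat_lit 5) 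
(.lf (nat_lit 111900) (.g (nat_lit 5498) (.e (nat_lit 5590) (nat_lit 310) (.e (nat_lit 163871) (nat_lit 2) (.e (nat_lit 196670) (nat_lit 14) (.e (nat_lit 73754) (nat_lit 8) (.e (nat_lit 557105) (nat_lit 14) (.e (nat_lit 180252) (nat_lit 10) (.e (nat_lit 573474) (nat_lit 12) (.e (nat_lit 57348) (nat_lit 0) .nil)))))))) (.g (nat_lit 6) .nil .nil))) 
(.lf (nat_lit 111932) (.g (nat_lit 2872) (.e (nat_lit 5591) (nat_lit 310) (.e (nat_lit 163870) (nat_lit 2) (.e (nat_lit 196669) (nat_lit 14) (.e (nat_lit 73755) (nat_lit 8) (.e (nat_lit 557105) (nat_lit 14) (.e (nat_lit 180252) (nat_lit 10) (.e (nat_lit 573474) (nat_lit 12) (.e (nat_lit 57348) (nat_lit 0) .nil)))))))) (.g (nat_lit 5) .nil .nil))))))) 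
(.nd (nat_lit 2) (.nd (nat_lit 3) (.nd (nat_lit 4) (.nd (nat_lit 5) 
(.lf (nat_lit 111874) (.g (nat_lit 4580) (.e (nat_lit 5590) (nat_lit 310) (.e (nat_lit 163869) (nat_lit 2) (.e (nat_lit 196670) (nat_lit 14) (.e (nat_lit 73753) (nat_lit 8) (.e (nat_lit 557105) (nat_lit 14) (.e (nat_lit 180252) (nat_lit 10) (.e (nat_lit 573474) (nat_lit 12) (.e (nat_lit 57348) (nat_lit 0) .nil)))))))) (.g (nat_lit 6) .nil .nil))) 
(.lf (nat_lit 111906) (.g (nat_lit 2324) (.e (nat_lit 5590) (nat_lit 310) (.e (nat_lit 163875) (nat_lit 3) (.e (nat_lit 204863) (nat_lit 27) (.e (nat_lit 344127) (nat_lit 26) (.e (nat_lit 557104) (nat_lit 14) (.e (nat_lit 180252) (nat_lit 10) (.e (nat_lit 573474) (nat_lit 12) (.e (nat_lit 57347) (nat_lit 0) .nil)))))))) (.g (nat_lit 4) .nil .nil)))) (.nd (nat_lit 5) 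
(.lf (nat_lit 111890) (.g (nat_lit 2021) (.e (nat_lit 5590) (nat_lit 310) (.e (nat_lit 163871) (nat_lit 2) (.e (nat_lit 196670) (nat_lit 14) (.e (nat_lit 73746) (nat_lit 3) (.e (nat_lit 516129) (nat_lit 3) (.e (nat_lit 221210) (nat_lit 22) (.e (nat_lit 196677) (nat_lit 16) (.e (nat_lit 122880) (nat_lit 0) .nil)))))))) (.g (nat_lit 4) .nil .nil))) 
(.lf (nat_lit 111922) (.g (nat_lit 5475) (.e (nat_lit 5591) (nat_lit 310) (.e (nat_lit 163868) (nat_lit 2) (.e (nat_lit 196670) (nat_lit 14) (.e (nat_lit 73754) (nat_lit 8) (.e (nat_lit 557105) (nat_lit 14) (.e (nat_lit 180252) (nat_lit 10) (.e (nat_lit 573474) (nat_lit 12) (.e (nat_lit 57348) (nat_lit 0) .nil)))))))) (.g (nat_lit 7) .nil .nil))))) (.nd (nat_lit 4) (.nd (nat_lit 5) 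
(.lf (nat_lit 111882) (.g (nat_lit 4376) (.e (nat_lit 5590) (nat_lit 310) (.e (nat_lit 163870) (nat_lit 2) (.e (nat_lit 196670) (nat_lit 14) (.e (nat_lit 73753) (nat_lit 8) (.e (nat_lit 557105) (nat_lit 14) (.e (nat_lit 180252) (nat_lit 10) (.e (nat_lit 573474) (nat_lit 12) (.e (nat_lit 57348) (nat_lit 0) .nil)))))))) (.g (nat_lit 6) .nil .nil))) 
(.lf (nat_lit 111914) (.g (nat_lit 2746) (.e (nat_lit 5591) (nat_lit 310) (.e (nat_lit 163868) (nat_lit 2) (.e (nat_lit 196668) (nat_lit 14) (.e (nat_lit 73753) (nat_lit 8) (.e (nat_lit 557103) (nat_lit 14) .nil))))) .nil))) (.nd (nat_lit 5) 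
(.lf (nat_lit 111898) (.g (nat_lit 2747) (.e (nat_lit 5590) (nat_lit 310) (.e (nat_lit 163871) (nat_lit 2) (.e (nat_lit 196670) (nat_lit 14) (.e (nat_lit 73754) (nat_lit 8) (.e (nat_lit 557105) (nat_lit 14) (.e (nat_lit 180252) (nat_lit 10) (.e (nat_lit 573473) (nat_lit 12) (.e (nat_lit 57348) (nat_lit 0) .nil)))))))) (.g (nat_lit 4) .nil .nil))) 
(.lf (nat_lit 111930) (.g (nat_lit 3225) (.e (nat_lit 5591) (nat_lit 310) (.e (nat_lit 163869) (nat_lit 2) (.e (nat_lit 196670) (nat_lit 14) (.e (nat_lit 73755) (nat_lit 8) (.e (nat_lit 557105) (nat_lit 14) (.e (nat_lit 180252) (nat_lit 10) (.e (nat_lit 573474) (nat_lit 12) (.e (nat_lit 57345) (nat_lit 0) .nil)))))))) (.g (nat_lit 4) .nil .nil)))))) 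
(.nd (nat_lit 3) (.nd (nat_lit 4) (.nd (nat_lit 5) 
(.lf (nat_lit 111878) (.g (nat_lit 3441) (.e (nat_lit 5590) (nat_lit 310) (.e (nat_lit 163870) (nat_lit 2) (.e (nat_lit 196667) (nat_lit 14) (.e (nat_lit 73755) (nat_lit 8) (.e (nat_lit 557105) (nat_lit 14) (.e (nat_lit 180252) (nat_lit 10) (.e (nat_lit 573474) (nat_lit 12) (.e (nat_lit 57348) (nat_lit 0) .nil)))))))) (.g (nat_lit 6) .nil .nil))) 
(.lf (nat_lit 111910) (.g (nat_lit 2617) (.e (nat_lit 5590) (nat_lit 310) (.e (nat_lit 163875) (nat_lit 3) (.e (nat_lit 204864) (nat_lit 27) (.e (nat_lit 344132) (nat_lit 26) (.e (nat_lit 557105) (nat_lit 14) (.e (nat_lit 180252) (nat_lit 10) (.e (nat_lit 573475) (nat_lit 12) (.e (nat_lit 57345) (nat_lit 0) .nil)))))))) (.g (nat_lit 5) .nil .nil)))) (.nd (nat_lit 5) 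
(.lf (nat_lit 111894) (.g (nat_lit 5422) (.e (nat_lit 5590) (nat_lit 310) (.e (nat_lit 163871) (nat_lit 2) (.e (nat_lit 196670) (nat_lit 14) (.e (nat_lit 73753) (nat_lit 8) (.e (nat_lit 557105) (nat_lit 14) (.e (nat_lit 180252) (nat_lit 10) (.e (nat_lit 573474) (nat_lit 12) (.e (nat_lit 57347) (nat_lit 0) .nil)))))))) (.g (nat_lit 7) .nil .nil))) 
(.lf (nat_lit 111926) (.g (nat_lit 4206) (.e (nat_lit 5591) (nat_lit 310) (.e (nat_lit 163868) (nat_lit 2) (.e (nat_lit 196670) (nat_lit 14) (.e (nat_lit 73755) (nat_lit 8) (.e (nat_lit 557105) (nat_lit 14) (.e (nat_lit 180252) (nat_lit 10) (.e (nat_lit 573474) (nat_lit 12) (.e (nat_lit 57348) (nat_lit 0) .nil)))))))) (.g (nat_lit 6) .nil .nil))))) (.nd (nat_lit 4) (.nd (nat_lit 5) 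
(.lf (nat_lit 111886) (.g (nat_lit 2926) (.e (nat_lit 5590) (nat_lit 310) (.e (nat_lit 163870) (nat_lit 2) (.e (nat_lit 196670) (nat_lit 14) (.e (nat_lit 73755) (nat_lit 8) (.e (nat_lit 557105) (nat_lit 14) (.e (nat_lit 180252) (nat_lit 10) (.e (nat_lit 573474) (nat_lit 12) (.e (nat_lit 57348) (nat_lit 0) .nil)))))))) (.g (nat_lit 4) .nil .nil))) 
(.lf (nat_lit 111918) (.g (nat_lit 2175) (.e (nat_lit 5591) (nat_lit 310) (.e (nat_lit 163868) (nat_lit 2) (.e (nat_lit 196669) (nat_lit 14) (.e (nat_lit 73755) (nat_lit 8) (.e (nat_lit 557105) (nat_lit 14) (.e (nat_lit 180252) (nat_lit 10) (.e (nat_lit 573474) (nat_lit 12) (.e (nat_lit 57349) (nat_lit 0) .nil)))))))) (.g (nat_lit 4) .nil .nil)))) (.nd (nat_lit 5) 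
(.lf (nat_lit 111902) (.g (nat_lit 3400) (.e (nat_lit 5590) (nat_lit 310) (.e (nat_lit 163871) (nat_lit 2) (.e (nat_lit 196670) (nat_lit 14) (.e (nat_lit 73754) (nat_lit 8) (.e (nat_lit 557105) (nat_lit 14) (.e (nat_lit 180252) (nat_lit 10) (.e (nat_lit 573475) (nat_lit 12) (.e (nat_lit 57349) (nat_lit 0) .nil)))))))) (.g (nat_lit 5) .nil .nil))) 
(.lf (nat_lit 111934) (.g (nat_lit 2600) (.e (nat_lit 5591) (nat_lit 310) (.e (nat_lit 163871) (nat_lit 2) (.e (nat_lit 196668) (nat_lit 14) (.e (nat_lit 73753) (nat_lit 8) (.e (nat_lit 557103) (nat_lit 14) .nil))))) .nil))))))) (.nd (nat_lit 1) (.nd (nat_lit 2) (.nd (nat_lit 3) (.nd (nat_lit 4) (.nd (nat_lit 5) 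
(.lf (nat_lit 111873) (.g (nat_lit 2459) (.e (nat_lit 5590) (nat_lit 310) (.e (nat_lit 163869) (nat_lit 2) (.e (nat_lit 196670) (nat_lit 14) (.e (nat_lit 73753) (nat_lit 8) (.e (nat_lit 557105) (nat_lit 14) .nil))))) .nil)) 
(.lf (nat_lit 111905) (.g (nat_lit 4536) (.e (nat_lit 5590) (nat_lit 310) (.e (nat_lit 163875) (nat_lit 3) (.e (nat_lit 204862) (nat_lit 27) (.e (nat_lit 344129) (nat_lit 26) (.e (nat_lit 557104) (nat_lit 14) (.e (nat_lit 180252) (nat_lit 10) (.e (nat_lit 573474) (nat_lit 12) (.e (nat_lit 57348) (nat_lit 0) .nil)))))))) (.g (nat_lit 6) .nil .nil)))) (.nd (nat_lit 5) 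
(.lf (nat_lit 111889) (.g (nat_lit 3811) (.e (nat_lit 5590) (nat_lit 310) (.e (nat_lit 163871) (nat_lit 2) (.e (nat_lit 196669) (nat_lit 14) (.e (nat_lit 73755) (nat_lit 8) (.e (nat_lit 557105) (nat_lit 14) (.e (nat_lit 180252) (nat_lit 10) (.e (nat_lit 573474) (nat_lit 12) (.e (nat_lit 57348) (nat_lit 0) .nil)))))))) (.g (nat_lit 6) .nil .nil))) 
(.lf (nat_lit 111921) (.g (nat_lit 2671) (.e (nat_lit 5591) (nat_lit 310) (.e (nat_lit 163868) (nat_lit 2) (.e (nat_lit 196670) (nat_lit 14) (.e (nat_lit 73754) (nat_lit 8) (.e (nat_lit 557105) (nat_lit 14) (.e (nat_lit 180252) (nat_lit 10) (.e (nat_lit 573473) (nat_lit 12) (.e (nat_lit 57348) (nat_lit 0) .nil)))))))) (.g (nat_lit 4) .nil .nil))))) (.nd (nat_lit 4) (.nd (nat_lit 5) 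
(.lf (nat_lit 111881) (.g (nat_lit 2139) (.e (nat_lit 5590) (nat_lit 310) (.e (nat_lit 163870) (nat_lit 2) (.e (nat_lit 196669) (nat_lit 14) (.e (nat_lit 73755) (nat_lit 8) (.e (nat_lit 557105) (nat_lit 14) (.e (nat_lit 180252) (nat_lit 10) (.e (nat_lit 573474) (nat_lit 12) (.e (nat_lit 57349) (nat_lit 0) .nil)))))))) (.g (nat_lit 4) .nil .nil))) 
(.lf (nat_lit 111913) (.g (nat_lit 2791) (.e (nat_lit 5591) (nat_lit 310) (.e (nat_lit 163867) (nat_lit 2) (.e (nat_lit 196670) (nat_lit 14) (.e (nat_lit 73755) (nat_lit 8) (.e (nat_lit 557105) (nat_lit 14) (.e (nat_lit 180252) (nat_lit 10) (.e (nat_lit 573474) (nat_lit 12) (.e (nat_lit 57345) (nat_lit 0) .nil)))))))) (.g (nat_lit 4) .nil .nil)))) (.nd (nat_lit 5) 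
(.lf (nat_lit 111897) (.g (nat_lit 2442) (.e (nat_lit 5590) (nat_lit 310) (.e (nat_lit 163871) (nat_lit 2) (.e (nat_lit 196670) (nat_lit 14) (.e (nat_lit 73754) (nat_lit 8) (.e (nat_lit 557105) (nat_lit 14) .nil))))) .nil)) 
(.lf (nat_lit 111929) (.g (nat_lit 4215) (.e (nat_lit 5591) (nat_lit 310) (.e (nat_lit 163869) (nat_lit 2) (.e (nat_lit 196670) (nat_lit 14) (.e (nat_lit 73754) (nat_lit 8) (.e (nat_lit 557105) (nat_lit 14) (.e (nat_lit 180252) (nat_lit 10) (.e (nat_lit 573475) (nat_lit 12) (.e (nat_lit 57345) (nat_lit 0) .nil)))))))) (.g (nat_lit 6) .nil .nil)))))) 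
(.nd (nat_lit 3) (.nd (nat_lit 4) (.nd (nat_lit 5) 
(.lf (nat_lit 111877) (.g (nat_lit 3256) (.e (nat_lit 5590) (nat_lit 310) (.e (nat_lit 163869) (nat_lit 2) (.e (nat_lit 196670) (nat_lit 14) (.e (nat_lit 73755) (nat_lit 8) (.e (nat_lit 557105) (nat_lit 14) .nil))))) .nil)) 
(.lf (nat_lit 111909) (.g (nat_lit 4685) (.e (nat_lit 5590) (nat_lit 310) (.e (nat_lit 163875) (nat_lit 3) (.e (nat_lit 204863) (nat_lit 27) (.e (nat_lit 344133) (nat_lit 26) (.e (nat_lit 557105) (nat_lit 14) (.e (nat_lit 180252) (nat_lit 10) (.e (nat_lit 573474) (nat_lit 12) (.e (nat_lit 57347) (nat_lit 0) .nil)))))))) (.g (nat_lit 6) .nil .nil)))) (.nd (nat_lit 5) 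
(.lf (nat_lit 111893) (.g (nat_lit 2710) (.e (nat_lit 5590) (nat_lit 310) (.e (nat_lit 163871) (nat_lit 2) (.e (nat_lit 196670) (nat_lit 14) (.e (nat_lit 73753) (nat_lit 8) (.e (nat_lit 557103) (nat_lit 14) (.e (nat_lit 180250) (nat_lit 10) (.e (nat_lit 573474) (nat_lit 12) (.e (nat_lit 57347) (nat_lit 0) .nil)))))))) (.g (nat_lit 4) .nil .nil))) 
(.lf (nat_lit 111925) (.g (nat_lit 4214) (.e (nat_lit 5591) (nat_lit 310) (.e (nat_lit 163868) (nat_lit 2) (.e (nat_lit 196670) (nat_lit 14) (.e (nat_lit 73755) (nat_lit 8) (.e (nat_lit 557105) (nat_lit 14) (.e (nat_lit 180252) (nat_lit 10) (.e (nat_lit 573474) (nat_lit 12) (.e (nat_lit 57347) (nat_lit 0) .nil)))))))) (.g (nat_lit 6) .nil .nil))))) (.nd (nat_lit 4) (.nd (nat_lit 5) 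
(.lf (nat_lit 111885) (.g (nat_lit 2404) (.e (nat_lit 5590) (nat_lit 310) (.e (nat_lit 163870) (nat_lit 2) (.e (nat_lit 196670) (nat_lit 14) (.e (nat_lit 73754) (nat_lit 8) (.e (nat_lit 557105) (nat_lit 14) (.e (nat_lit 180252) (nat_lit 10) (.e (nat_lit 573475) (nat_lit 12) (.e (nat_lit 57349) (nat_lit 0) .nil)))))))) (.g (nat_lit 4) .nil .nil))) 
(.lf (nat_lit 111917) (.g (nat_lit 4109) (.e (nat_lit 5591) (nat_lit 310) (.e (nat_lit 163868) (nat_lit 2) (.e (nat_lit 196669) (nat_lit 14) (.e (nat_lit 73755) (nat_lit 8) (.e (nat_lit 557105) (nat_lit 14) (.e (nat_lit 180252) (nat_lit 10) (.e (nat_lit 573474) (nat_lit 12) (.e (nat_lit 57347) (nat_lit 0) .nil)))))))) (.g (nat_lit 7) .nil .nil)))) (.nd (nat_lit 5) 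
(.lf (nat_lit 111901) (.g (nat_lit 2673) (.e (nat_lit 5590) (nat_lit 310) (.e (nat_lit 163871) (nat_lit 2) (.e (nat_lit 196670) (nat_lit 14) (.e (nat_lit 73754) (nat_lit 8) (.e (nat_lit 557105) (nat_lit 14) (.e (nat_lit 180252) (nat_lit 10) (.e (nat_lit 573475) (nat_lit 12) (.e (nat_lit 57344) (nat_lit 0) .nil)))))))) (.g (nat_lit 4) .nil .nil))) 
(.lf (nat_lit 111933) (.g (nat_lit 2678) (.e (nat_lit 5591) (nat_lit 310) (.e (nat_lit 163870) (nat_lit 2) (.e (nat_lit 196670) (nat_lit 14) (.e (nat_lit 73755) (nat_lit 8) (.e (nat_lit 557105) (nat_lit 14) .nil))))) .nil)))))) (.nd (nat_lit 2) (.nd (nat_lit 3) (.nd (nat_lit 4) (.nd (nat_lit 5) 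
(.lf (nat_lit 111875) (.g (nat_lit 2986) (.e (nat_lit 5590) (nat_lit 310) (.e (nat_lit 163869) (nat_lit 2) (.e (nat_lit 196670) (nat_lit 14) (.e (nat_lit 73754) (nat_lit 8) (.e (nat_lit 557105) (nat_lit 14) .nil))))) .nil)) 
(.lf (nat_lit 111907) (.g (nat_lit 4117) (.e (nat_lit 5590) (nat_lit 310) (.e (nat_lit 163875) (nat_lit 3) (.e (nat_lit 204863) (nat_lit 27) (.e (nat_lit 344131) (nat_lit 26) (.e (nat_lit 557105) (nat_lit 14) (.e (nat_lit 180252) (nat_lit 10) (.e (nat_lit 573474) (nat_lit 12) (.e (nat_lit 57347) (nat_lit 0) .nil)))))))) (.g (nat_lit 6) .nil .nil)))) (.nd (nat_lit 5) 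
(.lf (nat_lit 111891) (.g (nat_lit 1931) (.e (nat_lit 5590) (nat_lit 310) (.e (nat_lit 163871) (nat_lit 2) (.e (nat_lit 196670) (nat_lit 14) (.e (nat_lit 73746) (nat_lit 3) (.e (nat_lit 516131) (nat_lit 3) (.e (nat_lit 221212) (nat_lit 22) (.e (nat_lit 196677) (nat_lit 16) (.e (nat_lit 122880) (nat_lit 0) .nil)))))))) (.g (nat_lit 4) .nil .nil))) 
(.lf (nat_lit 111923) (.g (nat_lit 2667) (.e (nat_lit 5591) (nat_lit 310) (.e (nat_lit 163868) (nat_lit 2) (.e (nat_lit 196670) (nat_lit 14) (.e (nat_lit 73754) (nat_lit 8) (.e (nat_lit 557105) (nat_lit 14) (.e (nat_lit 180252) (nat_lit 10) (.e (nat_lit 573475) (nat_lit 12) (.e (nat_lit 57349) (nat_lit 0) .nil)))))))) (.g (nat_lit 4) .nil .nil))))) (.nd (nat_lit 4) (.nd (nat_lit 5) 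
(.lf (nat_lit 111883) (.g (nat_lit 4883) (.e (nat_lit 5590) (nat_lit 310) (.e (nat_lit 163870) (nat_lit 2) (.e (nat_lit 196670) (nat_lit 14) (.e (nat_lit 73754) (nat_lit 8) (.e (nat_lit 557105) (nat_lit 14) (.e (nat_lit 180252) (nat_lit 10) (.e (nat_lit 573474) (nat_lit 12) (.e (nat_lit 57347) (nat_lit 0) .nil)))))))) (.g (nat_lit 6) .nil .nil))) 
(.lf (nat_lit 111915) (.g (nat_lit 3132) (.e (nat_lit 5591) (nat_lit 310) (.e (nat_lit 163868) (nat_lit 2) (.e (nat_lit 196668) (nat_lit 14) (.e (nat_lit 73755) (nat_lit 8) (.e (nat_lit 557105) (nat_lit 14) (.e (nat_lit 180252) (nat_lit 10) (.e (nat_lit 573474) (nat_lit 12) (.e (nat_lit 57347) (nat_lit 0) .nil)))))))) (.g (nat_lit 4) .nil .nil)))) (.nd (nat_lit 5) 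
(.lf (nat_lit 111899) (.g (nat_lit 5873) (.e (nat_lit 5590) (nat_lit 310) (.e (nat_lit 163871) (nat_lit 2) (.e (nat_lit 196670) (nat_lit 14) (.e (nat_lit 73754) (nat_lit 8) (.e (nat_lit 557105) (nat_lit 14) (.e (nat_lit 180252) (nat_lit 10) (.e (nat_lit 573474) (nat_lit 12) (.e (nat_lit 57347) (nat_lit 0) .nil)))))))) (.g (nat_lit 7) .nil .nil))) 
(.lf (nat_lit 111931) (.g (nat_lit 2934) (.e (nat_lit 5591) (nat_lit 310) (.e (nat_lit 163870) (nat_lit 2) (.e (nat_lit 196669) (nat_lit 14) (.e (nat_lit 73755) (nat_lit 8) (.e (nat_lit 557105) (nat_lit 14) (.e (nat_lit 180252) (nat_lit 10) (.e (nat_lit 573474) (nat_lit 12) (.e (nat_lit 57347) (nat_lit 0) .nil)))))))) (.g (nat_lit 5) .nil .nil)))))) 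
(.nd (nat_lit 3) (.nd (nat_lit 4) (.nd (nat_lit 5) 
(.lf (nat_lit 111879) (.g (nat_lit 2270) (.e (nat_lit 5590) (nat_lit 310) (.e (nat_lit 163870) (nat_lit 2) (.e (nat_lit 196669) (nat_lit 14) (.e (nat_lit 73755) (nat_lit 8) (.e (nat_lit 557105) (nat_lit 14) (.e (nat_lit 180252) (nat_lit 10) (.e (nat_lit 573474) (nat_lit 12) (.e (nat_lit 57345) (nat_lit 0) .nil)))))))) (.g (nat_lit 4) .nil .nil))) 
(.lf (nat_lit 111911) (.g (nat_lit 2879) (.e (nat_lit 5590) (nat_lit 310) (.e (nat_lit 163905) (nat_lit 12) (.e (nat_lit 426555) (nat_lit 32) (.e (nat_lit 376865) (nat_lit 22) (.e (nat_lit 90160) (nat_lit 11) .nil))))) .nil))) (.nd (nat_lit 5) 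
(.lf (nat_lit 111895) (.g (nat_lit 5047) (.e (nat_lit 5590) (nat_lit 310) (.e (nat_lit 163871) (nat_lit 2) (.e (nat_lit 196670) (nat_lit 14) (.e (nat_lit 73753) (nat_lit 8) (.e (nat_lit 557105) (nat_lit 14) (.e (nat_lit 180252) (nat_lit 10) (.e (nat_lit 573474) (nat_lit 12) (.e (nat_lit 57348) (nat_lit 0) .nil)))))))) (.g (nat_lit 7) .nil .nil))) 
(.lf (nat_lit 111927) (.g (nat_lit 4258) (.e (nat_lit 5591) (nat_lit 310) (.e (nat_lit 163869) (nat_lit 2) (.e (nat_lit 196669) (nat_lit 14) (.e (nat_lit 73755) (nat_lit 8) (.e (nat_lit 557105) (nat_lit 14) (.e (nat_lit 180252) (nat_lit 10) (.e (nat_lit 573474) (nat_lit 12) (.e (nat_lit 57348) (nat_lit 0) .nil)))))))) (.g (nat_lit 8) .nil .nil))))) (.nd (nat_lit 4) (.nd (nat_lit 5) 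
(.lf (nat_lit 111887) (.g (nat_lit 3518) (.e (nat_lit 5590) (nat_lit 310) (.e (nat_lit 163871) (nat_lit 2) (.e (nat_lit 196668) (nat_lit 14) (.e (nat_lit 73755) (nat_lit 8) (.e (nat_lit 557105) (nat_lit 14) (.e (nat_lit 180252) (nat_lit 10) (.e (nat_lit 573474) (nat_lit 12) (.e (nat_lit 57348) (nat_lit 0) .nil)))))))) (.g (nat_lit 5) .nil .nil))) 
(.lf (nat_lit 111919) (.g (nat_lit 2898) (.e (nat_lit 5591) (nat_lit 310) (.e (nat_lit 163868) (nat_lit 2) (.e (nat_lit 196670) (nat_lit 14) (.e (nat_lit 73753) (nat_lit 8) (.e (nat_lit 557103) (nat_lit 14) (.e (nat_lit 180250) (nat_lit 10) (.e (nat_lit 573474) (nat_lit 12) (.e (nat_lit 57348) (nat_lit 0) .nil)))))))) (.g (nat_lit 4) .nil .nil)))) (.nd (nat_lit 5) 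
(.lf (nat_lit 111903) (.g (nat_lit 4505) (.e (nat_lit 5590) (nat_lit 310) (.e (nat_lit 163871) (nat_lit 2) (.e (nat_lit 196670) (nat_lit 14) (.e (nat_lit 73755) (nat_lit 8) (.e (nat_lit 557105) (nat_lit 14) (.e (nat_lit 180252) (nat_lit 10) (.e (nat_lit 573474) (nat_lit 12) (.e (nat_lit 57347) (nat_lit 0) .nil)))))))) (.g (nat_lit 7) .nil .nil))) 
(.lf (nat_lit 111935) (.g (nat_lit 2405) (.e (nat_lit 5591) (nat_lit 310) (.e (nat_lit 163874) (nat_lit 3) (.e (nat_lit 204864) (nat_lit 27) (.e (nat_lit 344132) (nat_lit 26) (.e (nat_lit 557105) (nat_lit 14) (.e (nat_lit 180252) (nat_lit 10) (.e (nat_lit 573475) (nat_lit 12) (.e (nat_lit 57345) (nat_lit 0) .nil)))))))) (.g (nat_lit 4) .nil .nil)))))))))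

noncomputable def tv1510 : DT := (.nd (nat_lit 0) (.nd (nat_lit 1) (.nd (nat_lit 2) (.nd (nat_lit 3) (.nd (nat_lit 4) (.nd (nat_lit 5) 
(.lf (nat_lit 111936) (.g (nat_lit 2073) (.e (nat_lit 5591) (nat_lit 310) (.e (nat_lit 163905) (nat_lit 12) (.e (nat_lit 426555) (nat_lit 32) (.e (nat_lit 376862) (nat_lit 22) .nil)))) .nil)) 
(.lf (nat_lit 111968) (.g (nat_lit 2261) (.e (nat_lit 5592) (nat_lit 310) (.e (nat_lit 163875) (nat_lit 3) (.e (nat_lit 204862) (nat_lit 27) (.e (nat_lit 344130) (nat_lit 26) (.e (nat_lit 557104) (nat_lit 14) .nil))))) .nil))) (.nd (nat_lit 5) 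
(.lf (nat_lit 111952) (.g (nat_lit 3176) (.e (nat_lit 5592) (nat_lit 310) (.e (nat_lit 163869) (nat_lit 2) (.e (nat_lit 196670) (nat_lit 14) (.e (nat_lit 73755) (nat_lit 8) (.e (nat_lit 557105) (nat_lit 14) .nil))))) .nil)) 
(.lf (nat_lit 111984) (.g (nat_lit 3483) (.e (nat_lit 5593) (nat_lit 310) (.e (nat_lit 163868) (nat_lit 2) (.e (nat_lit 196670) (nat_lit 14) (.e (nat_lit 73753) (nat_lit 8) (.e (nat_lit 557103) (nat_lit 14) (.e (nat_lit 180250) (nat_lit 10) (.e (nat_lit 573474) (nat_lit 12) (.e (nat_lit 57348) (nat_lit 0) .nil)))))))) (.g (nat_lit 5) .nil .nil))))) (.nd (nat_lit 4) (.nd (nat_lit 5) 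
(.lf (nat_lit 111944) (.g (nat_lit 1507) (.e (nat_lit 5591) (nat_lit 310) (.e (nat_lit 163933) (nat_lit 17) (.e (nat_lit 466947) (nat_lit 0) (.e (nat_lit 2175) (nat_lit 143) (.e (nat_lit 712753) (nat_lit 30) .nil))))) .nil)) 
(.lf (nat_lit 111976) (.g (nat_lit 2028) (.e (nat_lit 5593) (nat_lit 310) (.e (nat_lit 163868) (nat_lit 2) (.e (nat_lit 196668) (nat_lit 14) (.e (nat_lit 73754) (nat_lit 8) (.e (nat_lit 557105) (nat_lit 14) (.e (nat_lit 180252) (nat_lit 10) (.e (nat_lit 573475) (nat_lit 12) (.e (nat_lit 57344) (nat_lit 0) .nil)))))))) (.g (nat_lit 4) .nil .nil)))) (.nd (nat_lit 5) 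
(.lf (nat_lit 111960) (.g (nat_lit 1889) (.e (nat_lit 5592) (nat_lit 310) (.e (nat_lit 163871) (nat_lit 2) (.e (nat_lit 196670) (nat_lit 14) (.e (nat_lit 73746) (nat_lit 3) (.e (nat_lit 516131) (nat_lit 3) (.e (nat_lit 221212) (nat_lit 22) (.e (nat_lit 196677) (nat_lit 16) (.e (nat_lit 122880) (nat_lit 0) .nil)))))))) (.g (nat_lit 4) .nil .nil))) 
(.lf (nat_lit 111992) (.g (nat_lit 3410) (.e (nat_lit 5593) (nat_lit 310) (.e (nat_lit 163868) (nat_lit 2) (.e (nat_lit 196670) (nat_lit 14) (.e (nat_lit 73754) (nat_lit 8) (.e (nat_lit 557105) (nat_lit 14) (.e (nat_lit 180252) (nat_lit 10) (.e (nat_lit 573473) (nat_lit 12) (.e (nat_lit 57348) (nat_lit 0) .nil)))))))) (.g (nat_lit 5) .nil .nil)))))) 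
(.nd (nat_lit 3) (.nd (nat_lit 4) (.nd (nat_lit 5) 
(.lf (nat_lit 111940) (.g (nat_lit 575) (.e (nat_lit 5591) (nat_lit 310) (.e (nat_lit 163932) (nat_lit 17) (.e (nat_lit 466947) (nat_lit 0) .nil))) .nil)) 
(.lf (nat_lit 111972) (.g (nat_lit 2472) (.e (nat_lit 5593) (nat_lit 310) (.e (nat_lit 163868) (nat_lit 2) (.e (nat_lit 196668) (nat_lit 14) (.e (nat_lit 73753) (nat_lit 8) (.e (nat_lit 557103) (nat_lit 14) (.e (nat_lit 180250) (nat_lit 10) (.e (nat_lit 573474) (nat_lit 12) (.e (nat_lit 57349) (nat_lit 0) .nil)))))))) (.g (nat_lit 4) .nil .nil)))) (.nd (nat_lit 5) 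
(.lf (nat_lit 111956) (.g (nat_lit 3910) (.e (nat_lit 5592) (nat_lit 310) (.e (nat_lit 163871) (nat_lit 2) (.e (nat_lit 196668) (nat_lit 14) (.e (nat_lit 73753) (nat_lit 8) (.e (nat_lit 557104) (nat_lit 14) (.e (nat_lit 180252) (nat_lit 10) (.e (nat_lit 573474) (nat_lit 12) (.e (nat_lit 57347) (nat_lit 0) .nil)))))))) (.g (nat_lit 5) .nil .nil))) 
(.lf (nat_lit 111988) (.g (nat_lit 5418) (.e (nat_lit 5593) (nat_lit 310) (.e (nat_lit 163868) (nat_lit 2) (.e (nat_lit 196670) (nat_lit 14) (.e (nat_lit 73753) (nat_lit 8) (.e (nat_lit 557105) (nat_lit 14) (.e (nat_lit 180252) (nat_lit 10) (.e (nat_lit 573474) (nat_lit 12) (.e (nat_lit 57348) (nat_lit 0) .nil)))))))) (.g (nat_lit 8) .nil .nil))))) (.nd (nat_lit 4) (.nd (nat_lit 5) 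
(.lf (nat_lit 111948) (.g (nat_lit 2920) (.e (nat_lit 5592) (nat_lit 310) (.e (nat_lit 163869) (nat_lit 2) (.e (nat_lit 196670) (nat_lit 14) (.e (nat_lit 73754) (nat_lit 8) (.e (nat_lit 557105) (nat_lit 14) (.e (nat_lit 180252) (nat_lit 10) (.e (nat_lit 573473) (nat_lit 12) (.e (nat_lit 57348) (nat_lit 0) .nil)))))))) (.g (nat_lit 4) .nil .nil))) 
(.lf (nat_lit 111980) (.g (nat_lit 2824) (.e (nat_lit 5593) (nat_lit 310) (.e (nat_lit 163868) (nat_lit 2) (.e (nat_lit 196669) (nat_lit 14) (.e (nat_lit 73755) (nat_lit 8) (.e (nat_lit 557105) (nat_lit 14) (.e (nat_lit 180252) (nat_lit 10) (.e (nat_lit 573474) (nat_lit 12) (.e (nat_lit 57345) (nat_lit 0) .nil)))))))) (.g (nat_lit 4) .nil .nil)))) (.nd (nat_lit 5) 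
(.lf (nat_lit 111964) (.g (nat_lit 5320) (.e (nat_lit 5592) (nat_lit 310) (.e (nat_lit 163871) (nat_lit 2) (.e (nat_lit 196670) (nat_lit 14) (.e (nat_lit 73754) (nat_lit 8) (.e (nat_lit 557105) (nat_lit 14) (.e (nat_lit 180252) (nat_lit 10) (.e (nat_lit 573474) (nat_lit 12) (.e (nat_lit 57347) (nat_lit 0) .nil)))))))) (.g (nat_lit 6) .nil .nil))) 
(.lf (nat_lit 111996) (.g (nat_lit 2642) (.e (nat_lit 5593) (nat_lit 310) (.e (nat_lit 163868) (nat_lit 2) (.e (nat_lit 196670) (nat_lit 14) (.e (nat_lit 73754) (nat_lit 8) (.e (nat_lit 557105) (nat_lit 14) (.e (nat_lit 180252) (nat_lit 10) (.e (nat_lit 573475) (nat_lit 12) (.e (nat_lit 57349) (nat_lit 0) .nil)))))))) (.g (nat_lit 4) .nil .nil))))))) 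
(.nd (nat_lit 2) (.nd (nat_lit 3) (.nd (nat_lit 4) (.nd (nat_lit 5) 
(.lf (nat_lit 111938) (.g (nat_lit 2856) (.e (nat_lit 5591) (nat_lit 310) (.e (nat_lit 163905) (nat_lit 12) (.e (nat_lit 426555) (nat_lit 32) (.e (nat_lit 376865) (nat_lit 22) (.e (nat_lit 90158) (nat_lit 11) .nil))))) .nil)) 
(.lf (nat_lit 111970) (.g (nat_lit 2175) (.e (nat_lit 5593) (nat_lit 310) (.e (nat_lit 163868) (nat_lit 2) (.e (nat_lit 196667) (nat_lit 14) (.e (nat_lit 73755) (nat_lit 8) (.e (nat_lit 557105) (nat_lit 14) (.e (nat_lit 180252) (nat_lit 10) (.e (nat_lit 573474) (nat_lit 12) (.e (nat_lit 57348) (nat_lit 0) .nil)))))))) (.g (nat_lit 4) .nil .nil)))) (.nd (nat_lit 5) 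
(.lf (nat_lit 111954) (.g (nat_lit 2008) (.e (nat_lit 5592) (nat_lit 310) (.e (nat_lit 163870) (nat_lit 2) (.e (nat_lit 196669) (nat_lit 14) (.e (nat_lit 73755) (nat_lit 8) (.e (nat_lit 557105) (nat_lit 14) (.e (nat_lit 180252) (nat_lit 10) (.e (nat_lit 573474) (nat_lit 12) (.e (nat_lit 57348) (nat_lit 0) .nil)))))))) (.g (nat_lit 4) .nil .nil))) 
(.lf (nat_lit 111986) (.g (nat_lit 3069) (.e (nat_lit 5593) (nat_lit 310) (.e (nat_lit 163868) (nat_lit 2) (.e (nat_lit 196670) (nat_lit 14) (.e (nat_lit 73753) (nat_lit 8) (.e (nat_lit 557105) (nat_lit 14) (.e (nat_lit 180252) (nat_lit 10) (.e (nat_lit 573474) (nat_lit 12) (.e (nat_lit 57344) (nat_lit 0) .nil)))))))) (.g (nat_lit 4) .nil .nil))))) (.nd (nat_lit 4) (.nd (nat_lit 5) 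
(.lf (nat_lit 111946) (.g (nat_lit 2379) (.e (nat_lit 5592) (nat_lit 310) (.e (nat_lit 163869) (nat_lit 2) (.e (nat_lit 196670) (nat_lit 14) (.e (nat_lit 73753) (nat_lit 8) (.e (nat_lit 557105) (nat_lit 14) .nil))))) .nil)) 
(.lf (nat_lit 111978) (.g (nat_lit 4601) (.e (nat_lit 5593) (nat_lit 310) (.e (nat_lit 163868) (nat_lit 2) (.e (nat_lit 196668) (nat_lit 14) (.e (nat_lit 73755) (nat_lit 8) (.e (nat_lit 557105) (nat_lit 14) (.e (nat_lit 180252) (nat_lit 10) (.e (nat_lit 573474) (nat_lit 12) (.e (nat_lit 57348) (nat_lit 0) .nil)))))))) (.g (nat_lit 8) .nil .nil)))) (.nd (nat_lit 5) 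
(.lf (nat_lit 111962) (.g (nat_lit 2674) (.e (nat_lit 5592) (nat_lit 310) (.e (nat_lit 163871) (nat_lit 2) (.e (nat_lit 196670) (nat_lit 14) (.e (nat_lit 73753) (nat_lit 8) (.e (nat_lit 557105) (nat_lit 14) .nil))))) .nil)) 
(.lf (nat_lit 111994) (.g (nat_lit 5785) (.e (nat_lit 5593) (nat_lit 310) (.e (nat_lit 163868) (nat_lit 2) (.e (nat_lit 196670) (nat_lit 14) (.e (nat_lit 73754) (nat_lit 8) (.e (nat_lit 557105) (nat_lit 14) (.e (nat_lit 180252) (nat_lit 10) (.e (nat_lit 573474) (nat_lit 12) (.e (nat_lit 57348) (nat_lit 0) .nil)))))))) (.g (nat_lit 8) .nil .nil)))))) 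
(.nd (nat_lit 3) (.nd (nat_lit 4) (.nd (nat_lit 5) 
(.lf (nat_lit 111942) (.g (nat_lit 1039) (.e (nat_lit 5591) (nat_lit 310) (.e (nat_lit 163933) (nat_lit 17) (.e (nat_lit 466947) (nat_lit 0) (.e (nat_lit 2160) (nat_lit 143) .nil)))) .nil)) 
(.lf (nat_lit 111974) (.g (nat_lit 5697) (.e (nat_lit 5593) (nat_lit 310) (.e (nat_lit 163868) (nat_lit 2) (.e (nat_lit 196668) (nat_lit 14) (.e (nat_lit 73753) (nat_lit 8) (.e (nat_lit 557105) (nat_lit 14) (.e (nat_lit 180252) (nat_lit 10) (.e (nat_lit 573474) (nat_lit 12) (.e (nat_lit 57348) (nat_lit 0) .nil)))))))) (.g (nat_lit 8) .nil .nil)))) (.nd (nat_lit 5) 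
(.lf (nat_lit 111958) (.g (nat_lit 2171) (.e (nat_lit 5592) (nat_lit 310) (.e (nat_lit 163871) (nat_lit 2) (.e (nat_lit 196669) (nat_lit 14) (.e (nat_lit 73755) (nat_lit 8) (.e (nat_lit 557105) (nat_lit 14) (.e (nat_lit 180252) (nat_lit 10) (.e (nat_lit 573474) (nat_lit 12) (.e (nat_lit 57349) (nat_lit 0) .nil)))))))) (.g (nat_lit 4) .nil .nil))) 
(.lf (nat_lit 111990) (.g (nat_lit 2615) (.e (nat_lit 5593) (nat_lit 310) (.e (nat_lit 163868) (nat_lit 2) (.e (nat_lit 196670) (nat_lit 14) (.e (nat_lit 73753) (nat_lit 8) (.e (nat_lit 557105) (nat_lit 14) (.e (nat_lit 180252) (nat_lit 10) (.e (nat_lit 573475) (nat_lit 12) (.e (nat_lit 57348) (nat_lit 0) .nil)))))))) (.g (nat_lit 4) .nil .nil))))) (.nd (nat_lit 4) (.nd (nat_lit 5) 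
(.lf (nat_lit 111950) (.g (nat_lit 5582) (.e (nat_lit 5592) (nat_lit 310) (.e (nat_lit 163869) (nat_lit 2) (.e (nat_lit 196670) (nat_lit 14) (.e (nat_lit 73754) (nat_lit 8) (.e (nat_lit 557105) (nat_lit 14) (.e (nat_lit 180252) (nat_lit 10) (.e (nat_lit 573474) (nat_lit 12) (.e (nat_lit 57348) (nat_lit 0) .nil)))))))) (.g (nat_lit 6) .nil .nil))) 
(.lf (nat_lit 111982) (.g (nat_lit 2045) (.e (nat_lit 5593) (nat_lit 310) (.e (nat_lit 163868) (nat_lit 2) (.e (nat_lit 196670) (nat_lit 14) (.e (nat_lit 73746) (nat_lit 3) (.e (nat_lit 516129) (nat_lit 3) (.e (nat_lit 221210) (nat_lit 22) (.e (nat_lit 196658) (nat_lit 12) (.e (nat_lit 57348) (nat_lit 0) .nil)))))))) (.g (nat_lit 4) .nil .nil)))) (.nd (nat_lit 5) 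
(.lf (nat_lit 111966) (.g (nat_lit 2753) (.e (nat_lit 5592) (nat_lit 310) (.e (nat_lit 163874) (nat_lit 3) (.e (nat_lit 204863) (nat_lit 27) (.e (nat_lit 344132) (nat_lit 26) (.e (nat_lit 557105) (nat_lit 14) (.e (nat_lit 180252) (nat_lit 10) (.e (nat_lit 573474) (nat_lit 12) (.e (nat_lit 57348) (nat_lit 0) .nil)))))))) (.g (nat_lit 4) .nil .nil))) 
(.lf (nat_lit 111998) (.g (nat_lit 4516) (.e (nat_lit 5593) (nat_lit 310) (.e (nat_lit 163868) (nat_lit 2) (.e (nat_lit 196670) (nat_lit 14) (.e (nat_lit 73755) (nat_lit 8) (.e (nat_lit 557105) (nat_lit 14) (.e (nat_lit 180252) (nat_lit 10) (.e (nat_lit 573474) (nat_lit 12) (.e (nat_lit 57348) (nat_lit 0) .nil)))))))) (.g (nat_lit 8) .nil .nil)))))))) 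
(.nd (nat_lit 1) (.nd (nat_lit 2) (.nd (nat_lit 3) (.nd (nat_lit 4) (.nd (nat_lit 5) 
(.lf (nat_lit 111937) (.g (nat_lit 2886) (.e (nat_lit 5591) (nat_lit 310) (.e (nat_lit 163905) (nat_lit 12) (.e (nat_lit 426555) (nat_lit 32) (.e (nat_lit 376862) (nat_lit 22) (.e (nat_lit 90160) (nat_lit 11) .nil))))) .nil)) 
(.lf (nat_lit 111969) (.g (nat_lit 2818) (.e (nat_lit 5593) (nat_lit 310) (.e (nat_lit 163867) (nat_lit 2) (.e (nat_lit 196670) (nat_lit 14) (.e (nat_lit 73755) (nat_lit 8) (.e (nat_lit 557105) (nat_lit 14) (.e (nat_lit 180252) (nat_lit 10) (.e (nat_lit 573474) (nat_lit 12) (.e (nat_lit 57348) (nat_lit 0) .nil)))))))) (.g (nat_lit 4) .nil .nil)))) (.nd (nat_lit 5) 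
(.lf (nat_lit 111953) (.g (nat_lit 4255) (.e (nat_lit 5592) (nat_lit 310) (.e (nat_lit 163869) (nat_lit 2) (.e (nat_lit 196670) (nat_lit 14) (.e (nat_lit 73755) (nat_lit 8) (.e (nat_lit 557105) (nat_lit 14) (.e (nat_lit 180252) (nat_lit 10) (.e (nat_lit 573474) (nat_lit 12) (.e (nat_lit 57348) (nat_lit 0) .nil)))))))) (.g (nat_lit 5) .nil .nil))) 
(.lf (nat_lit 111985) (.g (nat_lit 2569) (.e (nat_lit 5593) (nat_lit 310) (.e (nat_lit 163868) (nat_lit 2) (.e (nat_lit 196670) (nat_lit 14) (.e (nat_lit 73753) (nat_lit 8) (.e (nat_lit 557105) (nat_lit 14) .nil))))) .nil)))) (.nd (nat_lit 4) (.nd (nat_lit 5) 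
(.lf (nat_lit 111945) (.g (nat_lit 2892) (.e (nat_lit 5592) (nat_lit 310) (.e (nat_lit 163869) (nat_lit 2) (.e (nat_lit 196668) (nat_lit 14) (.e (nat_lit 73753) (nat_lit 8) (.e (nat_lit 557103) (nat_lit 14) .nil))))) .nil)) 
(.lf (nat_lit 111977) (.g (nat_lit 3085) (.e (nat_lit 5593) (nat_lit 310) (.e (nat_lit 163868) (nat_lit 2) (.e (nat_lit 196668) (nat_lit 14) (.e (nat_lit 73754) (nat_lit 8) (.e (nat_lit 557105) (nat_lit 14) (.e (nat_lit 180252) (nat_lit 10) (.e (nat_lit 573475) (nat_lit 12) (.e (nat_lit 57345) (nat_lit 0) .nil)))))))) (.g (nat_lit 6) .nil .nil)))) (.nd (nat_lit 5) 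
(.lf (nat_lit 111961) (.g (nat_lit 2733) (.e (nat_lit 5592) (nat_lit 310) (.e (nat_lit 163871) (nat_lit 2) (.e (nat_lit 196670) (nat_lit 14) (.e (nat_lit 73753) (nat_lit 8) (.e (nat_lit 557103) (nat_lit 14) (.e (nat_lit 180250) (nat_lit 10) (.e (nat_lit 573474) (nat_lit 12) (.e (nat_lit 57348) (nat_lit 0) .nil)))))))) (.g (nat_lit 4) .nil .nil))) 
(.lf (nat_lit 111993) (.g (nat_lit 5220) (.e (nat_lit 5593) (nat_lit 310) (.e (nat_lit 163868) (nat_lit 2) (.e (nat_lit 196670) (nat_lit 14) (.e (nat_lit 73754) (nat_lit 8) (.e (nat_lit 557105) (nat_lit 14) (.e (nat_lit 180252) (nat_lit 10) (.e (nat_lit 573474) (nat_lit 12) (.e (nat_lit 57347) (nat_lit 0) .nil)))))))) (.g (nat_lit 6) .nil .nil)))))) 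
(.nd (nat_lit 3) (.nd (nat_lit 4) (.nd (nat_lit 5) 
(.lf (nat_lit 111941) (.g (nat_lit 1394) (.e (nat_lit 5591) (nat_lit 310) (.e (nat_lit 163932) (nat_lit 17) (.e (nat_lit 466947) (nat_lit 0) (.e (nat_lit 2173) (nat_lit 143) (.e (nat_lit 712755) (nat_lit 30) (.e (nat_lit 458496) (nat_lit 0) .nil)))))) (.g (nat_lit 4) .nil .nil))) 
(.lf (nat_lit 111973) (.g (nat_lit 5143) (.e (nat_lit 5593) (nat_lit 310) (.e (nat_lit 163868) (nat_lit 2) (.e (nat_lit 196668) (nat_lit 14) (.e (nat_lit 73753) (nat_lit 8) (.e (nat_lit 557104) (nat_lit 14) (.e (nat_lit 180252) (nat_lit 10) (.e (nat_lit 573474) (nat_lit 12) (.e (nat_lit 57348) (nat_lit 0) .nil)))))))) (.g (nat_lit 8) .nil .nil)))) (.nd (nat_lit 5) 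
(.lf (nat_lit 111957) (.g (nat_lit 2245) (.e (nat_lit 5592) (nat_lit 310) (.e (nat_lit 163871) (nat_lit 2) (.e (nat_lit 196669) (nat_lit 14) (.e (nat_lit 73755) (nat_lit 8) (.e (nat_lit 557105) (nat_lit 14) (.e (nat_lit 180252) (nat_lit 10) (.e (nat_lit 573474) (nat_lit 12) (.e (nat_lit 57345) (nat_lit 0) .nil)))))))) (.g (nat_lit 4) .nil .nil))) 
(.lf (nat_lit 111989) (.g (nat_lit 2987) (.e (nat_lit 5593) (nat_lit 310) (.e (nat_lit 163868) (nat_lit 2) (.e (nat_lit 196670) (nat_lit 14) (.e (nat_lit 73753) (nat_lit 8) (.e (nat_lit 557105) (nat_lit 14) (.e (nat_lit 180252) (nat_lit 10) (.e (nat_lit 573475) (nat_lit 12) (.e (nat_lit 57345) (nat_lit 0) .nil)))))))) (.g (nat_lit 4) .nil .nil))))) (.nd (nat_lit 4) (.nd (nat_lit 5) 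
(.lf (nat_lit 111949) (.g (nat_lit 5649) (.e (nat_lit 5592) (nat_lit 310) (.e (nat_lit 163869) (nat_lit 2) (.e (nat_lit 196670) (nat_lit 14) (.e (nat_lit 73754) (nat_lit 8) (.e (nat_lit 557105) (nat_lit 14) (.e (nat_lit 180252) (nat_lit 10) (.e (nat_lit 573474) (nat_lit 12) (.e (nat_lit 57347) (nat_lit 0) .nil)))))))) (.g (nat_lit 6) .nil .nil))) 
(.lf (nat_lit 111981) (.g (nat_lit 4342) (.e (nat_lit 5593) (nat_lit 310) (.e (nat_lit 163868) (nat_lit 2) (.e (nat_lit 196669) (nat_lit 14) (.e (nat_lit 73755) (nat_lit 8) (.e (nat_lit 557105) (nat_lit 14) (.e (nat_lit 180252) (nat_lit 10) (.e (nat_lit 573474) (nat_lit 12) (.e (nat_lit 57348) (nat_lit 0) .nil)))))))) (.g (nat_lit 8) .nil .nil)))) (.nd (nat_lit 5) 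
(.lf (nat_lit 111965) (.g (nat_lit 2825) (.e (nat_lit 5592) (nat_lit 310) (.e (nat_lit 163874) (nat_lit 3) (.e (nat_lit 204863) (nat_lit 27) (.e (nat_lit 344132) (nat_lit 26) (.e (nat_lit 557105) (nat_lit 14) (.e (nat_lit 180252) (nat_lit 10) (.e (nat_lit 573474) (nat_lit 12) (.e (nat_lit 57347) (nat_lit 0) .nil)))))))) (.g (nat_lit 4) .nil .nil))) 
(.lf (nat_lit 111997) (.g (nat_lit 3951) (.e (nat_lit 5593) (nat_lit 310) (.e (nat_lit 163868) (nat_lit 2) (.e (nat_lit 196670) (nat_lit 14) (.e (nat_lit 73755) (nat_lit 8) (.e (nat_lit 557105) (nat_lit 14) (.e (nat_lit 180252) (nat_lit 10) (.e (nat_lit 573474) (nat_lit 12) (.e (nat_lit 57347) (nat_lit 0) .nil)))))))) (.g (nat_lit 6) .nil .nil))))))) 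
(.nd (nat_lit 2) (.nd (nat_lit 3) (.nd (nat_lit 4) (.nd (nat_lit 5) 
(.lf (nat_lit 111939) (.g (nat_lit 482) (.e (nat_lit 5591) (nat_lit 310) (.e (nat_lit 163931) (nat_lit 17) (.e (nat_lit 466947) (nat_lit 0) .nil))) .nil)) 
(.lf (nat_lit 111971) (.g (nat_lit 5527) (.e (nat_lit 5593) (nat_lit 310) (.e (nat_lit 163868) (nat_lit 2) (.e (nat_lit 196668) (nat_lit 14) (.e (nat_lit 73753) (nat_lit 8) (.e (nat_lit 557103) (nat_lit 14) (.e (nat_lit 180250) (nat_lit 10) (.e (nat_lit 573474) (nat_lit 12) (.e (nat_lit 57348) (nat_lit 0) .nil)))))))) (.g (nat_lit 8) .nil .nil)))) (.nd (nat_lit 5) 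
(.lf (nat_lit 111955) (.g (nat_lit 2575) (.e (nat_lit 5592) (nat_lit 310) (.e (nat_lit 163871) (nat_lit 2) (.e (nat_lit 196668) (nat_lit 14) (.e (nat_lit 73753) (nat_lit 8) (.e (nat_lit 557103) (nat_lit 14) .nil))))) .nil)) 
(.lf (nat_lit 111987) (.g (nat_lit 4853) (.e (nat_lit 5593) (nat_lit 310) (.e (nat_lit 163868) (nat_lit 2) (.e (nat_lit 196670) (nat_lit 14) (.e (nat_lit 73753) (nat_lit 8) (.e (nat_lit 557105) (nat_lit 14) (.e (nat_lit 180252) (nat_lit 10) (.e (nat_lit 573474) (nat_lit 12) (.e (nat_lit 57347) (nat_lit 0) .nil)))))))) (.g (nat_lit 6) .nil .nil))))) (.nd (nat_lit 4) (.nd (nat_lit 5) 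
(.lf (nat_lit 111947) (.g (nat_lit 2891) (.e (nat_lit 5592) (nat_lit 310) (.e (nat_lit 163869) (nat_lit 2) (.e (nat_lit 196670) (nat_lit 14) (.e (nat_lit 73754) (nat_lit 8) (.e (nat_lit 557105) (nat_lit 14) .nil))))) .nil)) 
(.lf (nat_lit 111979) (.g (nat_lit 2116) (.e (nat_lit 5593) (nat_lit 310) (.e (nat_lit 163868) (nat_lit 2) (.e (nat_lit 196669) (nat_lit 14) (.e (nat_lit 73755) (nat_lit 8) (.e (nat_lit 557105) (nat_lit 14) .nil))))) .nil))) (.nd (nat_lit 5) 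
(.lf (nat_lit 111963) (.g (nat_lit 2621) (.e (nat_lit 5592) (nat_lit 310) (.e (nat_lit 163871) (nat_lit 2) (.e (nat_lit 196670) (nat_lit 14) (.e (nat_lit 73754) (nat_lit 8) (.e (nat_lit 557105) (nat_lit 14) .nil))))) .nil)) 
(.lf (nat_lit 111995) (.g (nat_lit 4089) (.e (nat_lit 5593) (nat_lit 310) (.e (nat_lit 163868) (nat_lit 2) (.e (nat_lit 196670) (nat_lit 14) (.e (nat_lit 73754) (nat_lit 8) (.e (nat_lit 557105) (nat_lit 14) (.e (nat_lit 180252) (nat_lit 10) (.e (nat_lit 573475) (nat_lit 12) (.e (nat_lit 57345) (nat_lit 0) .nil)))))))) (.g (nat_lit 6) .nil .nil)))))) 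
(.nd (nat_lit 3) (.nd (nat_lit 4) (.nd (nat_lit 5) 
(.lf (nat_lit 111943) (.g (nat_lit 1375) (.e (nat_lit 5591) (nat_lit 310) (.e (nat_lit 163933) (nat_lit 17) (.e (nat_lit 466947) (nat_lit 0) (.e (nat_lit 2173) (nat_lit 143) (.e (nat_lit 712753) (nat_lit 30) .nil))))) .nil)) 
(.lf (nat_lit 111975) (.g (nat_lit 4787) (.e (nat_lit 5593) (nat_lit 310) (.e (nat_lit 163868) (nat_lit 2) (.e (nat_lit 196668) (nat_lit 14) (.e (nat_lit 73754) (nat_lit 8) (.e (nat_lit 557105) (nat_lit 14) (.e (nat_lit 180252) (nat_lit 10) (.e (nat_lit 573474) (nat_lit 12) (.e (nat_lit 57348) (nat_lit 0) .nil)))))))) (.g (nat_lit 7) .nil .nil)))) (.nd (nat_lit 5) 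
(.lf (nat_lit 111959) (.g (nat_lit 1993) (.e (nat_lit 5592) (nat_lit 310) (.e (nat_lit 163871) (nat_lit 2) (.e (nat_lit 196670) (nat_lit 14) (.e (nat_lit 73746) (nat_lit 3) (.e (nat_lit 516129) (nat_lit 3) .nil))))) .nil)) 
(.lf (nat_lit 111991) (.g (nat_lit 2415) (.e (nat_lit 5593) (nat_lit 310) (.e (nat_lit 163868) (nat_lit 2) (.e (nat_lit 196670) (nat_lit 14) (.e (nat_lit 73754) (nat_lit 8) (.e (nat_lit 557105) (nat_lit 14) .nil))))) .nil)))) (.nd (nat_lit 4) (.nd (nat_lit 5) 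
(.lf (nat_lit 111951) (.g (nat_lit 4103) (.e (nat_lit 5592) (nat_lit 310) (.e (nat_lit 163869) (nat_lit 2) (.e (nat_lit 196670) (nat_lit 14) (.e (nat_lit 73754) (nat_lit 8) (.e (nat_lit 557105) (nat_lit 14) (.e (nat_lit 180252) (nat_lit 10) (.e (nat_lit 573475) (nat_lit 12) (.e (nat_lit 57345) (nat_lit 0) .nil)))))))) (.g (nat_lit 6) .nil .nil))) 
(.lf (nat_lit 111983) (.g (nat_lit 2539) (.e (nat_lit 5593) (nat_lit 310) (.e (nat_lit 163868) (nat_lit 2) (.e (nat_lit 196670) (nat_lit 14) (.e (nat_lit 73753) (nat_lit 8) (.e (nat_lit 557103) (nat_lit 14) .nil))))) .nil))) (.nd (nat_lit 5) 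
(.lf (nat_lit 111967) (.g (nat_lit 2341) (.e (nat_lit 5592) (nat_lit 310) (.e (nat_lit 163874) (nat_lit 3) (.e (nat_lit 204864) (nat_lit 27) (.e (nat_lit 344130) (nat_lit 26) (.e (nat_lit 557104) (nat_lit 14) (.e (nat_lit 180252) (nat_lit 10) (.e (nat_lit 573474) (nat_lit 12) (.e (nat_lit 57348) (nat_lit 0) .nil)))))))) (.g (nat_lit 4) .nil .nil))) 
(.lf (nat_lit 111999) (.g (nat_lit 2303) (.e (nat_lit 5593) (nat_lit 310) (.e (nat_lit 163868) (nat_lit 2) (.e (nat_lit 196670) (nat_lit 14) (.e (nat_lit 73755) (nat_lit 8) (.e (nat_lit 557105) (nat_lit 14) (.e (nat_lit 180252) (nat_lit 10) (.e (nat_lit 573474) (nat_lit 12) (.e (nat_lit 57349) (nat_lit 0) .nil)))))))) (.g (nat_lit 4) .nil .nil)))))))))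

noncomputable def tv1511 : DT := (.nd (nat_lit 0) (.nd (nat_lit 1) (.nd (nat_lit 2) (.nd (nat_lit 3) (.nd (nat_lit 4) (.nd (nat_lit 5) 
(.lf (nat_lit 112000) (.g (nat_lit 2890) (.e (nat_lit 5593) (nat_lit 310) (.e (nat_lit 163869) (nat_lit 2) (.e (nat_lit 196668) (nat_lit 14) (.e (nat_lit 73753) (nat_lit 8) (.e (nat_lit 557103) (nat_lit 14) .nil))))) .nil)) 
(.lf (nat_lit 112032) (.g (nat_lit 5513) (.e (nat_lit 5593) (nat_lit 310) (.e (nat_lit 163871) (nat_lit 2) (.e (nat_lit 196670) (nat_lit 14) (.e (nat_lit 73754) (nat_lit 8) (.e (nat_lit 557105) (nat_lit 14) (.e (nat_lit 180252) (nat_lit 10) (.e (nat_lit 573474) (nat_lit 12) (.e (nat_lit 57347) (nat_lit 0) .nil)))))))) (.g (nat_lit 6) .nil .nil)))) (.nd (nat_lit 5) 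
(.lf (nat_lit 112016) (.g (nat_lit 4655) (.e (nat_lit 5593) (nat_lit 310) (.e (nat_lit 163871) (nat_lit 2) (.e (nat_lit 196668) (nat_lit 14) (.e (nat_lit 73753) (nat_lit 8) (.e (nat_lit 557104) (nat_lit 14) (.e (nat_lit 180252) (nat_lit 10) (.e (nat_lit 573474) (nat_lit 12) (.e (nat_lit 57347) (nat_lit 0) .nil)))))))) (.g (nat_lit 6) .nil .nil))) 
(.lf (nat_lit 112048) (.g (nat_lit 3277) (.e (nat_lit 5593) (nat_lit 310) (.e (nat_lit 163875) (nat_lit 3) (.e (nat_lit 204862) (nat_lit 27) (.e (nat_lit 344132) (nat_lit 26) (.e (nat_lit 557105) (nat_lit 14) (.e (nat_lit 180252) (nat_lit 10) (.e (nat_lit 573475) (nat_lit 12) (.e (nat_lit 57345) (nat_lit 0) .nil)))))))) (.g (nat_lit 6) .nil .nil))))) (.nd (nat_lit 4) (.nd (nat_lit 5) 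
(.lf (nat_lit 112008) (.g (nat_lit 4112) (.e (nat_lit 5593) (nat_lit 310) (.e (nat_lit 163870) (nat_lit 2) (.e (nat_lit 196670) (nat_lit 14) (.e (nat_lit 73753) (nat_lit 8) (.e (nat_lit 557105) (nat_lit 14) (.e (nat_lit 180252) (nat_lit 10) (.e (nat_lit 573474) (nat_lit 12) (.e (nat_lit 57347) (nat_lit 0) .nil)))))))) (.g (nat_lit 6) .nil .nil))) 
(.lf (nat_lit 112040) (.g (nat_lit 2544) (.e (nat_lit 5593) (nat_lit 310) (.e (nat_lit 163871) (nat_lit 2) (.e (nat_lit 196670) (nat_lit 14) (.e (nat_lit 73755) (nat_lit 8) (.e (nat_lit 557105) (nat_lit 14) (.e (nat_lit 180252) (nat_lit 10) (.e (nat_lit 573474) (nat_lit 12) (.e (nat_lit 57349) (nat_lit 0) .nil)))))))) (.g (nat_lit 4) .nil .nil)))) (.nd (nat_lit 5) 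
(.lf (nat_lit 112024) (.g (nat_lit 3694) (.e (nat_lit 5593) (nat_lit 310) (.e (nat_lit 163871) (nat_lit 2) (.e (nat_lit 196670) (nat_lit 14) (.e (nat_lit 73753) (nat_lit 8) (.e (nat_lit 557103) (nat_lit 14) (.e (nat_lit 180250) (nat_lit 10) (.e (nat_lit 573474) (nat_lit 12) (.e (nat_lit 57348) (nat_lit 0) .nil)))))))) (.g (nat_lit 5) .nil .nil))) 
(.lf (nat_lit 112056) (.g (nat_lit 4594) (.e (nat_lit 5593) (nat_lit 310) (.e (nat_lit 163875) (nat_lit 3) (.e (nat_lit 204863) (nat_lit 27) (.e (nat_lit 344131) (nat_lit 26) (.e (nat_lit 557105) (nat_lit 14) (.e (nat_lit 180252) (nat_lit 10) (.e (nat_lit 573474) (nat_lit 12) (.e (nat_lit 57348) (nat_lit 0) .nil)))))))) (.g (nat_lit 8) .nil .nil)))))) 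
(.nd (nat_lit 3) (.nd (nat_lit 4) (.nd (nat_lit 5) 
(.lf (nat_lit 112004) (.g (nat_lit 3215) (.e (nat_lit 5593) (nat_lit 310) (.e (nat_lit 163869) (nat_lit 2) (.e (nat_lit 196670) (nat_lit 14) (.e (nat_lit 73755) (nat_lit 8) (.e (nat_lit 557105) (nat_lit 14) (.e (nat_lit 180252) (nat_lit 10) (.e (nat_lit 573474) (nat_lit 12) (.e (nat_lit 57347) (nat_lit 0) .nil)))))))) (.g (nat_lit 4) .nil .nil))) 
(.lf (nat_lit 112036) (.g (nat_lit 4017) (.e (nat_lit 5593) (nat_lit 310) (.e (nat_lit 163871) (nat_lit 2) (.e (nat_lit 196670) (nat_lit 14) (.e (nat_lit 73754) (nat_lit 8) (.e (nat_lit 557105) (nat_lit 14) (.e (nat_lit 180252) (nat_lit 10) (.e (nat_lit 573475) (nat_lit 12) (.e (nat_lit 57348) (nat_lit 0) .nil)))))))) (.g (nat_lit 6) .nil .nil)))) (.nd (nat_lit 5) 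
(.lf (nat_lit 112020) (.g (nat_lit 4072) (.e (nat_lit 5593) (nat_lit 310) (.e (nat_lit 163871) (nat_lit 2) (.e (nat_lit 196668) (nat_lit 14) (.e (nat_lit 73755) (nat_lit 8) (.e (nat_lit 557105) (nat_lit 14) (.e (nat_lit 180252) (nat_lit 10) (.e (nat_lit 573474) (nat_lit 12) (.e (nat_lit 57347) (nat_lit 0) .nil)))))))) (.g (nat_lit 6) .nil .nil))) 
(.lf (nat_lit 112052) (.g (nat_lit 5416) (.e (nat_lit 5593) (nat_lit 310) (.e (nat_lit 163875) (nat_lit 3) (.e (nat_lit 204862) (nat_lit 27) (.e (nat_lit 344133) (nat_lit 26) (.e (nat_lit 557105) (nat_lit 14) (.e (nat_lit 180252) (nat_lit 10) (.e (nat_lit 573474) (nat_lit 12) (.e (nat_lit 57348) (nat_lit 0) .nil)))))))) (.g (nat_lit 8) .nil .nil))))) (.nd (nat_lit 4) (.nd (nat_lit 5) 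
(.lf (nat_lit 112012) (.g (nat_lit 2872) (.e (nat_lit 5593) (nat_lit 310) (.e (nat_lit 163870) (nat_lit 2) (.e (nat_lit 196670) (nat_lit 14) (.e (nat_lit 73754) (nat_lit 8) (.e (nat_lit 557105) (nat_lit 14) (.e (nat_lit 180252) (nat_lit 10) (.e (nat_lit 573475) (nat_lit 12) (.e (nat_lit 57348) (nat_lit 0) .nil)))))))) (.g (nat_lit 5) .nil .nil))) 
(.lf (nat_lit 112044) (.g (nat_lit 4134) (.e (nat_lit 5593) (nat_lit 310) (.e (nat_lit 163875) (nat_lit 3) (.e (nat_lit 204862) (nat_lit 27) (.e (nat_lit 344130) (nat_lit 26) (.e (nat_lit 557104) (nat_lit 14) (.e (nat_lit 180252) (nat_lit 10) (.e (nat_lit 573474) (nat_lit 12) (.e (nat_lit 57348) (nat_lit 0) .nil)))))))) (.g (nat_lit 8) .nil .nil)))) (.nd (nat_lit 5) 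
(.lf (nat_lit 112028) (.g (nat_lit 3111) (.e (nat_lit 5593) (nat_lit 310) (.e (nat_lit 163871) (nat_lit 2) (.e (nat_lit 196670) (nat_lit 14) (.e (nat_lit 73753) (nat_lit 8) (.e (nat_lit 557105) (nat_lit 14) (.e (nat_lit 180252) (nat_lit 10) (.e (nat_lit 573475) (nat_lit 12) (.e (nat_lit 57345) (nat_lit 0) .nil)))))))) (.g (nat_lit 4) .nil .nil))) 
(.lf (nat_lit 112060) (.g (nat_lit 3464) (.e (nat_lit 5593) (nat_lit 310) (.e (nat_lit 163875) (nat_lit 3) (.e (nat_lit 204863) (nat_lit 27) (.e (nat_lit 344133) (nat_lit 26) (.e (nat_lit 557103) (nat_lit 14) (.e (nat_lit 180250) (nat_lit 10) (.e (nat_lit 573474) (nat_lit 12) (.e (nat_lit 57348) (nat_lit 0) .nil)))))))) (.g (nat_lit 5) .nil .nil))))))) 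
(.nd (nat_lit 2) (.nd (nat_lit 3) (.nd (nat_lit 4) (.nd (nat_lit 5) 
(.lf (nat_lit 112002) (.g (nat_lit 2653) (.e (nat_lit 5593) (nat_lit 310) (.e (nat_lit 163869) (nat_lit 2) (.e (nat_lit 196670) (nat_lit 14) (.e (nat_lit 73753) (nat_lit 8) (.e (nat_lit 557105) (nat_lit 14) (.e (nat_lit 180252) (nat_lit 10) (.e (nat_lit 573475) (nat_lit 12) (.e (nat_lit 57345) (nat_lit 0) .nil)))))))) (.g (nat_lit 4) .nil .nil))) 
(.lf (nat_lit 112034) (.g (nat_lit 4366) (.e (nat_lit 5593) (nat_lit 310) (.e (nat_lit 163871) (nat_lit 2) (.e (nat_lit 196670) (nat_lit 14) (.e (nat_lit 73754) (nat_lit 8) (.e (nat_lit 557105) (nat_lit 14) (.e (nat_lit 180252) (nat_lit 10) (.e (nat_lit 573475) (nat_lit 12) (.e (nat_lit 57345) (nat_lit 0) .nil)))))))) (.g (nat_lit 7) .nil .nil)))) (.nd (nat_lit 5) 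
(.lf (nat_lit 112018) (.g (nat_lit 4838) (.e (nat_lit 5593) (nat_lit 310) (.e (nat_lit 163871) (nat_lit 2) (.e (nat_lit 196668) (nat_lit 14) (.e (nat_lit 73754) (nat_lit 8) (.e (nat_lit 557105) (nat_lit 14) (.e (nat_lit 180252) (nat_lit 10) (.e (nat_lit 573474) (nat_lit 12) (.e (nat_lit 57348) (nat_lit 0) .nil)))))))) (.g (nat_lit 8) .nil .nil))) 
(.lf (nat_lit 112050) (.g (nat_lit 2303) (.e (nat_lit 5593) (nat_lit 310) (.e (nat_lit 163875) (nat_lit 3) (.e (nat_lit 204862) (nat_lit 27) (.e (nat_lit 344133) (nat_lit 26) (.e (nat_lit 557103) (nat_lit 14) (.e (nat_lit 180250) (nat_lit 10) (.e (nat_lit 573474) (nat_lit 12) (.e (nat_lit 57345) (nat_lit 0) .nil)))))))) (.g (nat_lit 4) .nil .nil))))) (.nd (nat_lit 4) (.nd (nat_lit 5) 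
(.lf (nat_lit 112010) (.g (nat_lit 4954) (.e (nat_lit 5593) (nat_lit 310) (.e (nat_lit 163870) (nat_lit 2) (.e (nat_lit 196670) (nat_lit 14) (.e (nat_lit 73754) (nat_lit 8) (.e (nat_lit 557105) (nat_lit 14) (.e (nat_lit 180252) (nat_lit 10) (.e (nat_lit 573474) (nat_lit 12) (.e (nat_lit 57348) (nat_lit 0) .nil)))))))) (.g (nat_lit 6) .nil .nil))) 
(.lf (nat_lit 112042) (.g (nat_lit 3400) (.e (nat_lit 5593) (nat_lit 310) (.e (nat_lit 163875) (nat_lit 3) (.e (nat_lit 204862) (nat_lit 27) (.e (nat_lit 344129) (nat_lit 26) (.e (nat_lit 557103) (nat_lit 14) (.e (nat_lit 180250) (nat_lit 10) (.e (nat_lit 573474) (nat_lit 12) (.e (nat_lit 57347) (nat_lit 0) .nil)))))))) (.g (nat_lit 5) .nil .nil)))) (.nd (nat_lit 5) 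
(.lf (nat_lit 112026) (.g (nat_lit 2591) (.e (nat_lit 5593) (nat_lit 310) (.e (nat_lit 163871) (nat_lit 2) (.e (nat_lit 196670) (nat_lit 14) (.e (nat_lit 73753) (nat_lit 8) (.e (nat_lit 557105) (nat_lit 14) .nil))))) .nil)) 
(.lf (nat_lit 112058) (.g (nat_lit 2262) (.e (nat_lit 5593) (nat_lit 310) (.e (nat_lit 163875) (nat_lit 3) (.e (nat_lit 204863) (nat_lit 27) (.e (nat_lit 344132) (nat_lit 26) (.e (nat_lit 557105) (nat_lit 14) (.e (nat_lit 180252) (nat_lit 10) (.e (nat_lit 573475) (nat_lit 12) (.e (nat_lit 57344) (nat_lit 0) .nil)))))))) (.g (nat_lit 4) .nil .nil)))))) 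
(.nd (nat_lit 3) (.nd (nat_lit 4) (.nd (nat_lit 5) 
(.lf (nat_lit 112006) (.g (nat_lit 3141) (.e (nat_lit 5593) (nat_lit 310) (.e (nat_lit 163870) (nat_lit 2) (.e (nat_lit 196669) (nat_lit 14) (.e (nat_lit 73755) (nat_lit 8) (.e (nat_lit 557105) (nat_lit 14) (.e (nat_lit 180252) (nat_lit 10) (.e (nat_lit 573474) (nat_lit 12) (.e (nat_lit 57347) (nat_lit 0) .nil)))))))) (.g (nat_lit 5) .nil .nil))) 
(.lf (nat_lit 112038) (.g (nat_lit 2411) (.e (nat_lit 5593) (nat_lit 310) (.e (nat_lit 163871) (nat_lit 2) (.e (nat_lit 196670) (nat_lit 14) (.e (nat_lit 73755) (nat_lit 8) (.e (nat_lit 557105) (nat_lit 14) (.e (nat_lit 180252) (nat_lit 10) (.e (nat_lit 573474) (nat_lit 12) (.e (nat_lit 57344) (nat_lit 0) .nil)))))))) (.g (nat_lit 4) .nil .nil)))) (.nd (nat_lit 5) 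
(.lf (nat_lit 112022) (.g (nat_lit 2041) (.e (nat_lit 5593) (nat_lit 310) (.e (nat_lit 163871) (nat_lit 2) (.e (nat_lit 196670) (nat_lit 14) (.e (nat_lit 73746) (nat_lit 3) (.e (nat_lit 516129) (nat_lit 3) (.e (nat_lit 221210) (nat_lit 22) (.e (nat_lit 196677) (nat_lit 16) (.e (nat_lit 122880) (nat_lit 0) .nil)))))))) (.g (nat_lit 4) .nil .nil))) 
(.lf (nat_lit 112054) (.g (nat_lit 3195) (.e (nat_lit 5593) (nat_lit 310) (.e (nat_lit 163875) (nat_lit 3) (.e (nat_lit 204863) (nat_lit 27) (.e (nat_lit 344130) (nat_lit 26) (.e (nat_lit 557103) (nat_lit 14) (.e (nat_lit 180250) (nat_lit 10) (.e (nat_lit 573474) (nat_lit 12) (.e (nat_lit 57348) (nat_lit 0) .nil)))))))) (.g (nat_lit 5) .nil .nil))))) (.nd (nat_lit 4) (.nd (nat_lit 5) 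
(.lf (nat_lit 112014) (.g (nat_lit 5563) (.e (nat_lit 5593) (nat_lit 310) (.e (nat_lit 163871) (nat_lit 2) (.e (nat_lit 196668) (nat_lit 14) (.e (nat_lit 73753) (nat_lit 8) (.e (nat_lit 557103) (nat_lit 14) (.e (nat_lit 180250) (nat_lit 10) (.e (nat_lit 573474) (nat_lit 12) (.e (nat_lit 57348) (nat_lit 0) .nil)))))))) (.g (nat_lit 0) .nil .nil))) 
(.lf (nat_lit 112046) (.g (nat_lit 4992) (.e (nat_lit 5593) (nat_lit 310) (.e (nat_lit 163875) (nat_lit 3) (.e (nat_lit 204862) (nat_lit 27) (.e (nat_lit 344132) (nat_lit 26) (.e (nat_lit 557105) (nat_lit 14) (.e (nat_lit 180252) (nat_lit 10) (.e (nat_lit 573474) (nat_lit 12) (.e (nat_lit 57348) (nat_lit 0) .nil)))))))) (.g (nat_lit 8) .nil .nil)))) (.nd (nat_lit 5) 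
(.lf (nat_lit 112030) (.g (nat_lit 2655) (.e (nat_lit 5593) (nat_lit 310) (.e (nat_lit 163871) (nat_lit 2) (.e (nat_lit 196670) (nat_lit 14) (.e (nat_lit 73754) (nat_lit 8) (.e (nat_lit 557105) (nat_lit 14) (.e (nat_lit 180252) (nat_lit 10) (.e (nat_lit 573473) (nat_lit 12) (.e (nat_lit 57345) (nat_lit 0) .nil)))))))) (.g (nat_lit 4) .nil .nil))) 
(.lf (nat_lit 112062) (.g (nat_lit 3849) (.e (nat_lit 5593) (nat_lit 310) (.e (nat_lit 163875) (nat_lit 3) (.e (nat_lit 204864) (nat_lit 27) (.e (nat_lit 344130) (nat_lit 26) (.e (nat_lit 557104) (nat_lit 14) (.e (nat_lit 180252) (nat_lit 10) (.e (nat_lit 573474) (nat_lit 12) (.e (nat_lit 57348) (nat_lit 0) .nil)))))))) (.g (nat_lit 7) .nil .nil)))))))) 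
(.nd (nat_lit 1) (.nd (nat_lit 2) (.nd (nat_lit 3) (.nd (nat_lit 4) (.nd (nat_lit 5) 
(.lf (nat_lit 112001) (.g (nat_lit 2601) (.e (nat_lit 5593) (nat_lit 310) (.e (nat_lit 163869) (nat_lit 2) (.e (nat_lit 196670) (nat_lit 14) (.e (nat_lit 73753) (nat_lit 8) (.e (nat_lit 557105) (nat_lit 14) .nil))))) .nil)) 
(.lf (nat_lit 112033) (.g (nat_lit 3330) (.e (nat_lit 5593) (nat_lit 310) (.e (nat_lit 163871) (nat_lit 2) (.e (nat_lit 196670) (nat_lit 14) (.e (nat_lit 73754) (nat_lit 8) (.e (nat_lit 557105) (nat_lit 14) (.e (nat_lit 180252) (nat_lit 10) (.e (nat_lit 573475) (nat_lit 12) (.e (nat_lit 57344) (nat_lit 0) .nil)))))))) (.g (nat_lit 5) .nil .nil)))) (.nd (nat_lit 5) 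
(.lf (nat_lit 112017) (.g (nat_lit 5181) (.e (nat_lit 5593) (nat_lit 310) (.e (nat_lit 163871) (nat_lit 2) (.e (nat_lit 196668) (nat_lit 14) (.e (nat_lit 73753) (nat_lit 8) (.e (nat_lit 557104) (nat_lit 14) (.e (nat_lit 180252) (nat_lit 10) (.e (nat_lit 573474) (nat_lit 12) (.e (nat_lit 57348) (nat_lit 0) .nil)))))))) (.g (nat_lit 8) .nil .nil))) 
(.lf (nat_lit 112049) (.g (nat_lit 2433) (.e (nat_lit 5593) (nat_lit 310) (.e (nat_lit 163875) (nat_lit 3) (.e (nat_lit 204862) (nat_lit 27) (.e (nat_lit 344133) (nat_lit 26) (.e (nat_lit 557103) (nat_lit 14) (.e (nat_lit 180250) (nat_lit 10) (.e (nat_lit 573473) (nat_lit 12) (.e (nat_lit 57348) (nat_lit 0) .nil)))))))) (.g (nat_lit 4) .nil .nil))))) (.nd (nat_lit 4) (.nd (nat_lit 5) 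
(.lf (nat_lit 112009) (.g (nat_lit 2183) (.e (nat_lit 5593) (nat_lit 310) (.e (nat_lit 163870) (nat_lit 2) (.e (nat_lit 196670) (nat_lit 14) (.e (nat_lit 73754) (nat_lit 8) (.e (nat_lit 557105) (nat_lit 14) .nil))))) .nil)) 
(.lf (nat_lit 112041) (.g (nat_lit 2490) (.e (nat_lit 5593) (nat_lit 310) (.e (nat_lit 163873) (nat_lit 3) (.e (nat_lit 204864) (nat_lit 27) (.e (nat_lit 344130) (nat_lit 26) (.e (nat_lit 557104) (nat_lit 14) (.e (nat_lit 180252) (nat_lit 10) (.e (nat_lit 573474) (nat_lit 12) (.e (nat_lit 57348) (nat_lit 0) .nil)))))))) (.g (nat_lit 5) .nil .nil)))) (.nd (nat_lit 5) 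
(.lf (nat_lit 112025) (.g (nat_lit 2457) (.e (nat_lit 5593) (nat_lit 310) (.e (nat_lit 163871) (nat_lit 2) (.e (nat_lit 196670) (nat_lit 14) (.e (nat_lit 73753) (nat_lit 8) (.e (nat_lit 557103) (nat_lit 14) (.e (nat_lit 180250) (nat_lit 10) (.e (nat_lit 573475) (nat_lit 12) (.e (nat_lit 57345) (nat_lit 0) .nil)))))))) (.g (nat_lit 4) .nil .nil))) 
(.lf (nat_lit 112057) (.g (nat_lit 2689) (.e (nat_lit 5593) (nat_lit 310) (.e (nat_lit 163875) (nat_lit 3) (.e (nat_lit 204863) (nat_lit 27) (.e (nat_lit 344132) (nat_lit 26) (.e (nat_lit 557105) (nat_lit 14) (.e (nat_lit 180252) (nat_lit 10) (.e (nat_lit 573473) (nat_lit 12) (.e (nat_lit 57348) (nat_lit 0) .nil)))))))) (.g (nat_lit 5) .nil .nil)))))) 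
(.nd (nat_lit 3) (.nd (nat_lit 4) (.nd (nat_lit 5) 
(.lf (nat_lit 112005) (.g (nat_lit 2223) (.e (nat_lit 5593) (nat_lit 310) (.e (nat_lit 163870) (nat_lit 2) (.e (nat_lit 196669) (nat_lit 14) (.e (nat_lit 73755) (nat_lit 8) (.e (nat_lit 557105) (nat_lit 14) (.e (nat_lit 180252) (nat_lit 10) (.e (nat_lit 573474) (nat_lit 12) (.e (nat_lit 57345) (nat_lit 0) .nil)))))))) (.g (nat_lit 4) .nil .nil))) 
(.lf (nat_lit 112037) (.g (nat_lit 2932) (.e (nat_lit 5593) (nat_lit 310) (.e (nat_lit 163871) (nat_lit 2) (.e (nat_lit 196670) (nat_lit 14) (.e (nat_lit 73754) (nat_lit 8) (.e (nat_lit 557105) (nat_lit 14) (.e (nat_lit 180252) (nat_lit 10) (.e (nat_lit 573475) (nat_lit 12) (.e (nat_lit 57349) (nat_lit 0) .nil)))))))) (.g (nat_lit 4) .nil .nil)))) (.nd (nat_lit 5) 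
(.lf (nat_lit 112021) (.g (nat_lit 2906) (.e (nat_lit 5593) (nat_lit 310) (.e (nat_lit 163871) (nat_lit 2) (.e (nat_lit 196670) (nat_lit 14) (.e (nat_lit 73746) (nat_lit 3) (.e (nat_lit 516129) (nat_lit 3) (.e (nat_lit 221210) (nat_lit 22) (.e (nat_lit 196658) (nat_lit 12) (.e (nat_lit 57348) (nat_lit 0) .nil)))))))) (.g (nat_lit 5) .nil .nil))) 
(.lf (nat_lit 112053) (.g (nat_lit 4608) (.e (nat_lit 5593) (nat_lit 310) (.e (nat_lit 163875) (nat_lit 3) (.e (nat_lit 204863) (nat_lit 27) (.e (nat_lit 344129) (nat_lit 26) (.e (nat_lit 557104) (nat_lit 14) (.e (nat_lit 180252) (nat_lit 10) (.e (nat_lit 573474) (nat_lit 12) (.e (nat_lit 57348) (nat_lit 0) .nil)))))))) (.g (nat_lit 7) .nil .nil))))) (.nd (nat_lit 4) (.nd (nat_lit 5) 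
(.lf (nat_lit 112013) (.g (nat_lit 2743) (.e (nat_lit 5593) (nat_lit 310) (.e (nat_lit 163870) (nat_lit 2) (.e (nat_lit 196670) (nat_lit 14) (.e (nat_lit 73755) (nat_lit 8) (.e (nat_lit 557105) (nat_lit 14) (.e (nat_lit 180252) (nat_lit 10) (.e (nat_lit 573474) (nat_lit 12) (.e (nat_lit 57347) (nat_lit 0) .nil)))))))) (.g (nat_lit 4) .nil .nil))) 
(.lf (nat_lit 112045) (.g (nat_lit 2166) (.e (nat_lit 5593) (nat_lit 310) (.e (nat_lit 163875) (nat_lit 3) (.e (nat_lit 204862) (nat_lit 27) (.e (nat_lit 344132) (nat_lit 26) (.e (nat_lit 557103) (nat_lit 14) (.e (nat_lit 180250) (nat_lit 10) (.e (nat_lit 573474) (nat_lit 12) (.e (nat_lit 57348) (nat_lit 0) .nil)))))))) (.g (nat_lit 4) .nil .nil)))) (.nd (nat_lit 5) 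
(.lf (nat_lit 112029) (.g (nat_lit 2762) (.e (nat_lit 5593) (nat_lit 310) (.e (nat_lit 163871) (nat_lit 2) (.e (nat_lit 196670) (nat_lit 14) (.e (nat_lit 73753) (nat_lit 8) (.e (nat_lit 557105) (nat_lit 14) (.e (nat_lit 180252) (nat_lit 10) (.e (nat_lit 573475) (nat_lit 12) (.e (nat_lit 57348) (nat_lit 0) .nil)))))))) (.g (nat_lit 4) .nil .nil))) 
(.lf (nat_lit 112061) (.g (nat_lit 3213) (.e (nat_lit 5593) (nat_lit 310) (.e (nat_lit 163875) (nat_lit 3) (.e (nat_lit 204864) (nat_lit 27) (.e (nat_lit 344130) (nat_lit 26) (.e (nat_lit 557103) (nat_lit 14) (.e (nat_lit 180250) (nat_lit 10) (.e (nat_lit 573474) (nat_lit 12) (.e (nat_lit 57348) (nat_lit 0) .nil)))))))) (.g (nat_lit 5) .nil .nil))))))) 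
(.nd (nat_lit 2) (.nd (nat_lit 3) (.nd (nat_lit 4) (.nd (nat_lit 5) 
(.lf (nat_lit 112003) (.g (nat_lit 3099) (.e (nat_lit 5593) (nat_lit 310) (.e (nat_lit 163869) (nat_lit 2) (.e (nat_lit 196670) (nat_lit 14) (.e (nat_lit 73754) (nat_lit 8) (.e (nat_lit 557105) (nat_lit 14) (.e (nat_lit 180252) (nat_lit 10) (.e (nat_lit 573475) (nat_lit 12) (.e (nat_lit 57348) (nat_lit 0) .nil)))))))) (.g (nat_lit 4) .nil .nil))) 
(.lf (nat_lit 112035) (.g (nat_lit 3500) (.e (nat_lit 5593) (nat_lit 310) (.e (nat_lit 163871) (nat_lit 2) (.e (nat_lit 196670) (nat_lit 14) (.e (nat_lit 73754) (nat_lit 8) (.e (nat_lit 557105) (nat_lit 14) (.e (nat_lit 180252) (nat_lit 10) (.e (nat_lit 573475) (nat_lit 12) (.e (nat_lit 57347) (nat_lit 0) .nil)))))))) (.g (nat_lit 5) .nil .nil)))) (.nd (nat_lit 5) 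
(.lf (nat_lit 112019) (.g (nat_lit 3101) (.e (nat_lit 5593) (nat_lit 310) (.e (nat_lit 163871) (nat_lit 2) (.e (nat_lit 196668) (nat_lit 14) (.e (nat_lit 73754) (nat_lit 8) (.e (nat_lit 557105) (nat_lit 14) (.e (nat_lit 180252) (nat_lit 10) (.e (nat_lit 573475) (nat_lit 12) (.e (nat_lit 57345) (nat_lit 0) .nil)))))))) (.g (nat_lit 6) .nil .nil))) 
(.lf (nat_lit 112051) (.g (nat_lit 4783) (.e (nat_lit 5593) (nat_lit 310) (.e (nat_lit 163875) (nat_lit 3) (.e (nat_lit 204862) (nat_lit 27) (.e (nat_lit 344133) (nat_lit 26) (.e (nat_lit 557105) (nat_lit 14) (.e (nat_lit 180252) (nat_lit 10) (.e (nat_lit 573474) (nat_lit 12) (.e (nat_lit 57347) (nat_lit 0) .nil)))))))) (.g (nat_lit 6) .nil .nil))))) (.nd (nat_lit 4) (.nd (nat_lit 5) 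
(.lf (nat_lit 112011) (.g (nat_lit 3166) (.e (nat_lit 5593) (nat_lit 310) (.e (nat_lit 163870) (nat_lit 2) (.e (nat_lit 196670) (nat_lit 14) (.e (nat_lit 73754) (nat_lit 8) (.e (nat_lit 557105) (nat_lit 14) (.e (nat_lit 180252) (nat_lit 10) (.e (nat_lit 573475) (nat_lit 12) (.e (nat_lit 57345) (nat_lit 0) .nil)))))))) (.g (nat_lit 5) .nil .nil))) 
(.lf (nat_lit 112043) (.g (nat_lit 5113) (.e (nat_lit 5593) (nat_lit 310) (.e (nat_lit 163875) (nat_lit 3) (.e (nat_lit 204862) (nat_lit 27) (.e (nat_lit 344129) (nat_lit 26) (.e (nat_lit 557104) (nat_lit 14) (.e (nat_lit 180252) (nat_lit 10) (.e (nat_lit 573474) (nat_lit 12) (.e (nat_lit 57348) (nat_lit 0) .nil)))))))) (.g (nat_lit 0) .nil .nil)))) (.nd (nat_lit 5) 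
(.lf (nat_lit 112027) (.g (nat_lit 4993) (.e (nat_lit 5593) (nat_lit 310) (.e (nat_lit 163871) (nat_lit 2) (.e (nat_lit 196670) (nat_lit 14) (.e (nat_lit 73753) (nat_lit 8) (.e (nat_lit 557105) (nat_lit 14) (.e (nat_lit 180252) (nat_lit 10) (.e (nat_lit 573474) (nat_lit 12) (.e (nat_lit 57347) (nat_lit 0) .nil)))))))) (.g (nat_lit 6) .nil .nil))) 
(.lf (nat_lit 112059) (.g (nat_lit 3309) (.e (nat_lit 5593) (nat_lit 310) (.e (nat_lit 163875) (nat_lit 3) (.e (nat_lit 204863) (nat_lit 27) (.e (nat_lit 344132) (nat_lit 26) (.e (nat_lit 557105) (nat_lit 14) (.e (nat_lit 180252) (nat_lit 10) (.e (nat_lit 573475) (nat_lit 12) (.e (nat_lit 57345) (nat_lit 0) .nil)))))))) (.g (nat_lit 6) .nil .nil)))))) 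
(.nd (nat_lit 3) (.nd (nat_lit 4) (.nd (nat_lit 5) 
(.lf (nat_lit 112007) (.g (nat_lit 3788) (.e (nat_lit 5593) (nat_lit 310) (.e (nat_lit 163870) (nat_lit 2) (.e (nat_lit 196669) (nat_lit 14) (.e (nat_lit 73755) (nat_lit 8) (.e (nat_lit 557105) (nat_lit 14) (.e (nat_lit 180252) (nat_lit 10) (.e (nat_lit 573474) (nat_lit 12) (.e (nat_lit 57348) (nat_lit 0) .nil)))))))) (.g (nat_lit 7) .nil .nil))) 
(.lf (nat_lit 112039) (.g (nat_lit 4198) (.e (nat_lit 5593) (nat_lit 310) (.e (nat_lit 163871) (nat_lit 2) (.e (nat_lit 196670) (nat_lit 14) (.e (nat_lit 73755) (nat_lit 8) (.e (nat_lit 557105) (nat_lit 14) (.e (nat_lit 180252) (nat_lit 10) (.e (nat_lit 573474) (nat_lit 12) (.e (nat_lit 57347) (nat_lit 0) .nil)))))))) (.g (nat_lit 6) .nil .nil)))) (.nd (nat_lit 5) 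
(.lf (nat_lit 112023) (.g (nat_lit 1951) (.e (nat_lit 5593) (nat_lit 310) (.e (nat_lit 163871) (nat_lit 2) (.e (nat_lit 196670) (nat_lit 14) (.e (nat_lit 73746) (nat_lit 3) (.e (nat_lit 516131) (nat_lit 3) (.e (nat_lit 221212) (nat_lit 22) (.e (nat_lit 196677) (nat_lit 16) (.e (nat_lit 122880) (nat_lit 0) .nil)))))))) (.g (nat_lit 4) .nil .nil))) 
(.lf (nat_lit 112055) (.g (nat_lit 3629) (.e (nat_lit 5593) (nat_lit 310) (.e (nat_lit 163875) (nat_lit 3) (.e (nat_lit 204863) (nat_lit 27) (.e (nat_lit 344130) (nat_lit 26) (.e (nat_lit 557104) (nat_lit 14) (.e (nat_lit 180252) (nat_lit 10) (.e (nat_lit 573474) (nat_lit 12) (.e (nat_lit 57348) (nat_lit 0) .nil)))))))) (.g (nat_lit 6) .nil .nil))))) (.nd (nat_lit 4) (.nd (nat_lit 5) 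
(.lf (nat_lit 112015) (.g (nat_lit 2428) (.e (nat_lit 5593) (nat_lit 310) (.e (nat_lit 163871) (nat_lit 2) (.e (nat_lit 196668) (nat_lit 14) (.e (nat_lit 73753) (nat_lit 8) (.e (nat_lit 557103) (nat_lit 14) (.e (nat_lit 180250) (nat_lit 10) (.e (nat_lit 573475) (nat_lit 12) (.e (nat_lit 57349) (nat_lit 0) .nil)))))))) (.g (nat_lit 4) .nil .nil))) 
(.lf (nat_lit 112047) (.g (nat_lit 2230) (.e (nat_lit 5593) (nat_lit 310) (.e (nat_lit 163875) (nat_lit 3) (.e (nat_lit 204862) (nat_lit 27) (.e (nat_lit 344132) (nat_lit 26) (.e (nat_lit 557105) (nat_lit 14) (.e (nat_lit 180252) (nat_lit 10) (.e (nat_lit 573475) (nat_lit 12) (.e (nat_lit 57344) (nat_lit 0) .nil)))))))) (.g (nat_lit 4) .nil .nil)))) (.nd (nat_lit 5) 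
(.lf (nat_lit 112031) (.g (nat_lit 3708) (.e (nat_lit 5593) (nat_lit 310) (.e (nat_lit 163871) (nat_lit 2) (.e (nat_lit 196670) (nat_lit 14) (.e (nat_lit 73754) (nat_lit 8) (.e (nat_lit 557105) (nat_lit 14) (.e (nat_lit 180252) (nat_lit 10) (.e (nat_lit 573473) (nat_lit 12) (.e (nat_lit 57348) (nat_lit 0) .nil)))))))) (.g (nat_lit 5) .nil .nil))) 
(.lf (nat_lit 112063) (.g (nat_lit 4715) (.e (nat_lit 5593) (nat_lit 310) (.e (nat_lit 163875) (nat_lit 3) (.e (nat_lit 204864) (nat_lit 27) (.e (nat_lit 344132) (nat_lit 26) (.e (nat_lit 557105) (nat_lit 14) (.e (nat_lit 180252) (nat_lit 10) (.e (nat_lit 573474) (nat_lit 12) (.e (nat_lit 57348) (nat_lit 0) .nil)))))))) (.g (nat_lit 7) .nil .nil)))))))))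

noncomputable def tv1512 : DT := (.nd (nat_lit 0) (.nd (nat_lit 1) (.nd (nat_lit 2) (.nd (nat_lit 3) (.nd (nat_lit 4) (.nd (nat_lit 5) 
(.lf (nat_lit 112064) (.g (nat_lit 1960) (.e (nat_lit 5593) (nat_lit 310) (.e (nat_lit 163875) (nat_lit 3) (.e (nat_lit 204864) (nat_lit 27) (.e (nat_lit 344132) (nat_lit 26) (.e (nat_lit 557105) (nat_lit 14) (.e (nat_lit 180252) (nat_lit 10) (.e (nat_lit 573475) (nat_lit 12) (.e (nat_lit 57344) (nat_lit 0) .nil)))))))) (.g (nat_lit 4) .nil .nil))) 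
(.lf (nat_lit 112096) (.g (nat_lit 2976) (.e (nat_lit 5595) (nat_lit 310) (.e (nat_lit 163867) (nat_lit 2) (.e (nat_lit 196669) (nat_lit 14) (.e (nat_lit 73755) (nat_lit 8) (.e (nat_lit 557105) (nat_lit 14) (.e (nat_lit 180252) (nat_lit 10) (.e (nat_lit 573474) (nat_lit 12) (.e (nat_lit 57345) (nat_lit 0) .nil)))))))) (.g (nat_lit 5) .nil .nil)))) (.nd (nat_lit 5) 
(.lf (nat_lit 112080) (.g (nat_lit 1335) (.e (nat_lit 5594) (nat_lit 310) (.e (nat_lit 163873) (nat_lit 3) (.e (nat_lit 204861) (nat_lit 26) (.e (nat_lit 336075) (nat_lit 9) .nil)))) .nil)) 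
(.lf (nat_lit 112112) (.g (nat_lit 3639) (.e (nat_lit 5595) (nat_lit 310) (.e (nat_lit 163869) (nat_lit 2) (.e (nat_lit 196670) (nat_lit 14) (.e (nat_lit 73754) (nat_lit 8) (.e (nat_lit 557105) (nat_lit 14) (.e (nat_lit 180252) (nat_lit 10) (.e (nat_lit 573475) (nat_lit 12) (.e (nat_lit 57345) (nat_lit 0) .nil)))))))) (.g (nat_lit 5) .nil .nil))))) (.nd (nat_lit 4) (.nd (nat_lit 5) 
(.lf (nat_lit 112072) (.g (nat_lit 2293) (.e (nat_lit 5594) (nat_lit 310) (.e (nat_lit 163869) (nat_lit 2) (.e (nat_lit 196670) (nat_lit 14) (.e (nat_lit 73746) (nat_lit 3) (.e (nat_lit 516129) (nat_lit 3) (.e (nat_lit 221214) (nat_lit 23) (.e (nat_lit 204821) (nat_lit 17) (.e (nat_lit 1074) (nat_lit 81) .nil)))))))) (.g (nat_lit 4) .nil .nil))) 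
(.lf (nat_lit 112104) (.g (nat_lit 5418) (.e (nat_lit 5595) (nat_lit 310) (.e (nat_lit 163867) (nat_lit 2) (.e (nat_lit 196670) (nat_lit 14) (.e (nat_lit 73754) (nat_lit 8) (.e (nat_lit 557105) (nat_lit 14) (.e (nat_lit 180252) (nat_lit 10) (.e (nat_lit 573474) (nat_lit 12) (.e (nat_lit 57348) (nat_lit 0) .nil)))))))) (.g (nat_lit 8) .nil .nil)))) (.nd (nat_lit 5) 
(.lf (nat_lit 112088) (.g (nat_lit 2152) (.e (nat_lit 5594) (nat_lit 310) (.e (nat_lit 163874) (nat_lit 3) (.e (nat_lit 204864) (nat_lit 27) (.e (nat_lit 344130) (nat_lit 26) (.e (nat_lit 557104) (nat_lit 14) .nil))))) .nil)) 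
(.lf (nat_lit 112120) (.g (nat_lit 2449) (.e (nat_lit 5596) (nat_lit 310) (.e (nat_lit 163867) (nat_lit 2) (.e (nat_lit 196670) (nat_lit 14) (.e (nat_lit 73753) (nat_lit 8) (.e (nat_lit 557103) (nat_lit 14) .nil))))) .nil))))) (.nd (nat_lit 3) (.nd (nat_lit 4) (.nd (nat_lit 5) 
(.lf (nat_lit 112068) (.g (nat_lit 1741) (.e (nat_lit 5594) (nat_lit 310) (.e (nat_lit 163867) (nat_lit 2) (.e (nat_lit 196670) (nat_lit 14) (.e (nat_lit 73754) (nat_lit 8) (.e (nat_lit 557105) (nat_lit 14) (.e (nat_lit 180251) (nat_lit 10) (.e (nat_lit 573478) (nat_lit 12) (.e (nat_lit 57359) (nat_lit 0) .nil)))))))) (.g (nat_lit 4) .nil .nil))) 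
(.lf (nat_lit 112100) (.g (nat_lit 2347) (.e (nat_lit 5595) (nat_lit 310) (.e (nat_lit 163867) (nat_lit 2) (.e (nat_lit 196670) (nat_lit 14) (.e (nat_lit 73753) (nat_lit 8) (.e (nat_lit 557105) (nat_lit 14) (.e (nat_lit 180252) (nat_lit 10) (.e (nat_lit 573473) (nat_lit 12) (.e (nat_lit 57352) (nat_lit 0) .nil)))))))) (.g (nat_lit 4) .nil .nil)))) (.nd (nat_lit 5) 
(.lf (nat_lit 112084) (.g (nat_lit 2547) (.e (nat_lit 5594) (nat_lit 310) (.e (nat_lit 163874) (nat_lit 3) (.e (nat_lit 204863) (nat_lit 27) (.e (nat_lit 344117) (nat_lit 21) (.e (nat_lit 516130) (nat_lit 3) (.e (nat_lit 221211) (nat_lit 22) (.e (nat_lit 196661) (nat_lit 12) (.e (nat_lit 57359) (nat_lit 0) .nil)))))))) (.g (nat_lit 4) .nil .nil))) 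
(.lf (nat_lit 112116) (.g (nat_lit 2670) (.e (nat_lit 5595) (nat_lit 310) (.e (nat_lit 163874) (nat_lit 3) (.e (nat_lit 204861) (nat_lit 26) (.e (nat_lit 336214) (nat_lit 13) (.e (nat_lit 401152) (nat_lit 10) (.e (nat_lit 344096) (nat_lit 18) .nil)))))) (.g (nat_lit 4) .nil .nil))))) (.nd (nat_lit 4) (.nd (nat_lit 5) 
(.lf (nat_lit 112076) (.g (nat_lit 2564) (.e (nat_lit 5594) (nat_lit 310) (.e (nat_lit 163869) (nat_lit 2) (.e (nat_lit 196670) (nat_lit 14) (.e (nat_lit 73753) (nat_lit 8) (.e (nat_lit 557103) (nat_lit 14) .nil))))) .nil)) 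
(.lf (nat_lit 112108) (.g (nat_lit 2874) (.e (nat_lit 5595) (nat_lit 310) (.e (nat_lit 163867) (nat_lit 2) (.e (nat_lit 196670) (nat_lit 14) (.e (nat_lit 73755) (nat_lit 8) (.e (nat_lit 557105) (nat_lit 14) (.e (nat_lit 180252) (nat_lit 10) (.e (nat_lit 573474) (nat_lit 12) (.e (nat_lit 57349) (nat_lit 0) .nil)))))))) (.g (nat_lit 4) .nil .nil)))) (.nd (nat_lit 5) 
(.lf (nat_lit 112092) (.g (nat_lit 2149) (.e (nat_lit 5594) (nat_lit 310) (.e (nat_lit 163905) (nat_lit 12) (.e (nat_lit 426555) (nat_lit 32) (.e (nat_lit 376865) (nat_lit 22) (.e (nat_lit 90160) (nat_lit 11) .nil))))) .nil)) 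
(.lf (nat_lit 112124) (.g (nat_lit 2719) (.e (nat_lit 5596) (nat_lit 310) (.e (nat_lit 163867) (nat_lit 2) (.e (nat_lit 196670) (nat_lit 14) (.e (nat_lit 73754) (nat_lit 8) (.e (nat_lit 557105) (nat_lit 14) (.e (nat_lit 180251) (nat_lit 10) (.e (nat_lit 573478) (nat_lit 12) (.e (nat_lit 57360) (nat_lit 0) .nil)))))))) (.g (nat_lit 5) .nil .nil))))))) 
(.nd (nat_lit 2) (.nd (nat_lit 3) (.nd (nat_lit 4) (.nd (nat_lit 5) 
(.lf (nat_lit 112066) (.g (nat_lit 4796) (.e (nat_lit 5593) (nat_lit 310) (.e (nat_lit 163875) (nat_lit 3) (.e (nat_lit 204864) (nat_lit 27) (.e (nat_lit 344133) (nat_lit 26) (.e (nat_lit 557105) (nat_lit 14) (.e (nat_lit 180252) (nat_lit 10) (.e (nat_lit 573474) (nat_lit 12) (.e (nat_lit 57348) (nat_lit 0) .nil)))))))) (.g (nat_lit 7) .nil .nil))) 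
(.lf (nat_lit 112098) (.g (nat_lit 2405) (.e (nat_lit 5595) (nat_lit 310) (.e (nat_lit 163867) (nat_lit 2) (.e (nat_lit 196670) (nat_lit 14) (.e (nat_lit 73746) (nat_lit 3) (.e (nat_lit 516131) (nat_lit 3) .nil))))) .nil))) (.nd (nat_lit 5) 
(.lf (nat_lit 112082) (.g (nat_lit 2573) (.e (nat_lit 5594) (nat_lit 310) (.e (nat_lit 163874) (nat_lit 3) (.e (nat_lit 204854) (nat_lit 26) (.e (nat_lit 336019) (nat_lit 3) (.e (nat_lit 98342) (nat_lit 20) (.e (nat_lit 221211) (nat_lit 22) (.e (nat_lit 196661) (nat_lit 12) (.e (nat_lit 57359) (nat_lit 0) .nil)))))))) (.g (nat_lit 4) .nil .nil))) 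
(.lf (nat_lit 112114) (.g (nat_lit 3234) (.e (nat_lit 5595) (nat_lit 310) (.e (nat_lit 163869) (nat_lit 2) (.e (nat_lit 196670) (nat_lit 14) (.e (nat_lit 73755) (nat_lit 8) (.e (nat_lit 557105) (nat_lit 14) .nil))))) .nil)))) (.nd (nat_lit 4) (.nd (nat_lit 5) 
(.lf (nat_lit 112074) (.g (nat_lit 3219) (.e (nat_lit 5594) (nat_lit 310) (.e (nat_lit 163869) (nat_lit 2) (.e (nat_lit 196670) (nat_lit 14) (.e (nat_lit 73746) (nat_lit 3) (.e (nat_lit 516131) (nat_lit 3) (.e (nat_lit 221211) (nat_lit 22) (.e (nat_lit 196661) (nat_lit 12) (.e (nat_lit 57359) (nat_lit 0) .nil)))))))) (.g (nat_lit 7) .nil .nil))) 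
(.lf (nat_lit 112106) (.g (nat_lit 4026) (.e (nat_lit 5595) (nat_lit 310) (.e (nat_lit 163867) (nat_lit 2) (.e (nat_lit 196670) (nat_lit 14) (.e (nat_lit 73754) (nat_lit 8) (.e (nat_lit 557105) (nat_lit 14) (.e (nat_lit 180252) (nat_lit 10) (.e (nat_lit 573475) (nat_lit 12) (.e (nat_lit 57345) (nat_lit 0) .nil)))))))) (.g (nat_lit 0) .nil .nil)))) (.nd (nat_lit 5) 
(.lf (nat_lit 112090) (.g (nat_lit 2294) (.e (nat_lit 5594) (nat_lit 310) (.e (nat_lit 163905) (nat_lit 12) (.e (nat_lit 426555) (nat_lit 32) (.e (nat_lit 376862) (nat_lit 22) (.e (nat_lit 90160) (nat_lit 11) (.e (nat_lit 24584) (nat_lit 0) (.e (nat_lit 975) (nat_lit 81) .nil))))))) (.g (nat_lit 4) .nil .nil))) 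
(.lf (nat_lit 112122) (.g (nat_lit 2563) (.e (nat_lit 5596) (nat_lit 310) (.e (nat_lit 163867) (nat_lit 2) (.e (nat_lit 196670) (nat_lit 14) (.e (nat_lit 73753) (nat_lit 8) (.e (nat_lit 557105) (nat_lit 14) (.e (nat_lit 180251) (nat_lit 10) (.e (nat_lit 573477) (nat_lit 12) (.e (nat_lit 57360) (nat_lit 0) .nil)))))))) (.g (nat_lit 4) .nil .nil)))))) 
(.nd (nat_lit 3) (.nd (nat_lit 4) (.nd (nat_lit 5) 
(.lf (nat_lit 112070) (.g (nat_lit 2132) (.e (nat_lit 5594) (nat_lit 310) (.e (nat_lit 163869) (nat_lit 2) (.e (nat_lit 196670) (nat_lit 14) (.e (nat_lit 73746) (nat_lit 3) (.e (nat_lit 516129) (nat_lit 3) .nil))))) .nil)) 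
(.lf (nat_lit 112102) (.g (nat_lit 5243) (.e (nat_lit 5595) (nat_lit 310) (.e (nat_lit 163867) (nat_lit 2) (.e (nat_lit 196670) (nat_lit 14) (.e (nat_lit 73753) (nat_lit 8) (.e (nat_lit 557105) (nat_lit 14) (.e (nat_lit 180252) (nat_lit 10) (.e (nat_lit 573474) (nat_lit 12) (.e (nat_lit 57348) (nat_lit 0) .nil)))))))) (.g (nat_lit 8) .nil .nil)))) (.nd (nat_lit 5) 
(.lf (nat_lit 112086) (.g (nat_lit 2625) (.e (nat_lit 5594) (nat_lit 310) (.e (nat_lit 163874) (nat_lit 3) (.e (nat_lit 204863) (nat_lit 27) (.e (nat_lit 344132) (nat_lit 26) (.e (nat_lit 557105) (nat_lit 14) .nil))))) .nil)) 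
(.lf (nat_lit 112118) (.g (nat_lit 2542) (.e (nat_lit 5596) (nat_lit 310) (.e (nat_lit 163867) (nat_lit 2) (.e (nat_lit 196670) (nat_lit 14) (.e (nat_lit 73746) (nat_lit 3) (.e (nat_lit 516129) (nat_lit 3) (.e (nat_lit 221214) (nat_lit 23) (.e (nat_lit 204821) (nat_lit 17) (.e (nat_lit 1086) (nat_lit 81) .nil)))))))) (.g (nat_lit 4) .nil .nil))))) (.nd (nat_lit 4) (.nd (nat_lit 5) 
(.lf (nat_lit 112078) (.g (nat_lit 4181) (.e (nat_lit 5594) (nat_lit 310) (.e (nat_lit 163869) (nat_lit 2) (.e (nat_lit 196670) (nat_lit 14) (.e (nat_lit 73754) (nat_lit 8) (.e (nat_lit 557105) (nat_lit 14) (.e (nat_lit 180252) (nat_lit 10) (.e (nat_lit 573475) (nat_lit 12) (.e (nat_lit 57359) (nat_lit 0) .nil)))))))) (.g (nat_lit 6) .nil .nil))) 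
(.lf (nat_lit 112110) (.g (nat_lit 2452) (.e (nat_lit 5595) (nat_lit 310) (.e (nat_lit 163869) (nat_lit 2) (.e (nat_lit 196670) (nat_lit 14) (.e (nat_lit 73753) (nat_lit 8) (.e (nat_lit 557105) (nat_lit 14) (.e (nat_lit 180252) (nat_lit 10) (.e (nat_lit 573475) (nat_lit 12) (.e (nat_lit 57345) (nat_lit 0) .nil)))))))) (.g (nat_lit 4) .nil .nil)))) (.nd (nat_lit 5) 
(.lf (nat_lit 112094) (.g (nat_lit 3045) (.e (nat_lit 5594) (nat_lit 310) (.e (nat_lit 163908) (nat_lit 12) (.e (nat_lit 426338) (nat_lit 14) (.e (nat_lit 491549) (nat_lit 9) (.e (nat_lit 336434) (nat_lit 30) (.e (nat_lit 458496) (nat_lit 0) .nil)))))) (.g (nat_lit 5) .nil .nil))) 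
(.lf (nat_lit 112126) (.g (nat_lit 2820) (.e (nat_lit 5596) (nat_lit 310) (.e (nat_lit 163867) (nat_lit 2) (.e (nat_lit 196670) (nat_lit 14) (.e (nat_lit 73755) (nat_lit 8) (.e (nat_lit 557105) (nat_lit 14) (.e (nat_lit 180252) (nat_lit 10) (.e (nat_lit 573474) (nat_lit 12) (.e (nat_lit 57358) (nat_lit 0) .nil)))))))) (.g (nat_lit 4) .nil .nil)))))))) 
(.nd (nat_lit 1) (.nd (nat_lit 2) (.nd (nat_lit 3) (.nd (nat_lit 4) (.nd (nat_lit 5) 
(.lf (nat_lit 112065) (.g (nat_lit 3275) (.e (nat_lit 5593) (nat_lit 310) (.e (nat_lit 163875) (nat_lit 3) (.e (nat_lit 204864) (nat_lit 27) (.e (nat_lit 344133) (nat_lit 26) (.e (nat_lit 557103) (nat_lit 14) (.e (nat_lit 180250) (nat_lit 10) (.e (nat_lit 573474) (nat_lit 12) (.e (nat_lit 57348) (nat_lit 0) .nil)))))))) (.g (nat_lit 5) .nil .nil))) 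
(.lf (nat_lit 112097) (.g (nat_lit 2366) (.e (nat_lit 5595) (nat_lit 310) (.e (nat_lit 163867) (nat_lit 2) (.e (nat_lit 196670) (nat_lit 14) (.e (nat_lit 73746) (nat_lit 3) (.e (nat_lit 516129) (nat_lit 3) .nil))))) .nil))) (.nd (nat_lit 5) 
(.lf (nat_lit 112081) (.g (nat_lit 1158) (.e (nat_lit 5594) (nat_lit 310) (.e (nat_lit 163874) (nat_lit 3) (.e (nat_lit 204854) (nat_lit 26) .nil))) .nil)) 
(.lf (nat_lit 112113) (.g (nat_lit 3033) (.e (nat_lit 5595) (nat_lit 310) (.e (nat_lit 163869) (nat_lit 2) (.e (nat_lit 196670) (nat_lit 14) (.e (nat_lit 73754) (nat_lit 8) (.e (nat_lit 557105) (nat_lit 14) (.e (nat_lit 180252) (nat_lit 10) (.e (nat_lit 573475) (nat_lit 12) (.e (nat_lit 57351) (nat_lit 0) .nil)))))))) (.g (nat_lit 4) .nil .nil))))) (.nd (nat_lit 4) (.nd (nat_lit 5) 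
(.lf (nat_lit 112073) (.g (nat_lit 1933) (.e (nat_lit 5594) (nat_lit 310) (.e (nat_lit 163869) (nat_lit 2) (.e (nat_lit 196670) (nat_lit 14) (.e (nat_lit 73746) (nat_lit 3) (.e (nat_lit 516131) (nat_lit 3) .nil))))) .nil)) 
(.lf (nat_lit 112105) (.g (nat_lit 3143) (.e (nat_lit 5595) (nat_lit 310) (.e (nat_lit 163867) (nat_lit 2) (.e (nat_lit 196670) (nat_lit 14) (.e (nat_lit 73754) (nat_lit 8) (.e (nat_lit 557105) (nat_lit 14) (.e (nat_lit 180252) (nat_lit 10) (.e (nat_lit 573475) (nat_lit 12) (.e (nat_lit 57344) (nat_lit 0) .nil)))))))) (.g (nat_lit 6) .nil .nil)))) (.nd (nat_lit 5) 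
(.lf (nat_lit 112089) (.g (nat_lit 3080) (.e (nat_lit 5594) (nat_lit 310) (.e (nat_lit 163874) (nat_lit 3) (.e (nat_lit 204864) (nat_lit 27) (.e (nat_lit 344132) (nat_lit 26) (.e (nat_lit 557105) (nat_lit 14) (.e (nat_lit 180252) (nat_lit 10) (.e (nat_lit 573475) (nat_lit 12) (.e (nat_lit 57359) (nat_lit 0) .nil)))))))) (.g (nat_lit 5) .nil .nil))) 
(.lf (nat_lit 112121) (.g (nat_lit 2489) (.e (nat_lit 5596) (nat_lit 310) (.e (nat_lit 163867) (nat_lit 2) (.e (nat_lit 196670) (nat_lit 14) (.e (nat_lit 73753) (nat_lit 8) (.e (nat_lit 557103) (nat_lit 14) (.e (nat_lit 180250) (nat_lit 10) (.e (nat_lit 573477) (nat_lit 12) (.e (nat_lit 57360) (nat_lit 0) .nil)))))))) (.g (nat_lit 4) .nil .nil)))))) 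
(.nd (nat_lit 3) (.nd (nat_lit 4) (.nd (nat_lit 5) 
(.lf (nat_lit 112069) (.g (nat_lit 2698) (.e (nat_lit 5594) (nat_lit 310) (.e (nat_lit 163867) (nat_lit 2) (.e (nat_lit 196670) (nat_lit 14) (.e (nat_lit 73755) (nat_lit 8) (.e (nat_lit 557105) (nat_lit 14) .nil))))) .nil)) 
(.lf (nat_lit 112101) (.g (nat_lit 2455) (.e (nat_lit 5595) (nat_lit 310) (.e (nat_lit 163867) (nat_lit 2) (.e (nat_lit 196670) (nat_lit 14) (.e (nat_lit 73753) (nat_lit 8) (.e (nat_lit 557105) (nat_lit 14) (.e (nat_lit 180252) (nat_lit 10) (.e (nat_lit 573473) (nat_lit 12) (.e (nat_lit 57353) (nat_lit 0) .nil)))))))) (.g (nat_lit 4) .nil .nil)))) (.nd (nat_lit 5) 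
(.lf (nat_lit 112085) (.g (nat_lit 2358) (.e (nat_lit 5594) (nat_lit 310) (.e (nat_lit 163874) (nat_lit 3) (.e (nat_lit 204863) (nat_lit 27) (.e (nat_lit 344117) (nat_lit 21) (.e (nat_lit 516130) (nat_lit 3) (.e (nat_lit 221215) (nat_lit 23) (.e (nat_lit 204821) (nat_lit 17) (.e (nat_lit 1074) (nat_lit 81) .nil)))))))) (.g (nat_lit 4) .nil .nil))) 
(.lf (nat_lit 112117) (.g (nat_lit 2666) (.e (nat_lit 5596) (nat_lit 310) (.e (nat_lit 163867) (nat_lit 2) (.e (nat_lit 196670) (nat_lit 14) (.e (nat_lit 73746) (nat_lit 3) (.e (nat_lit 516129) (nat_lit 3) (.e (nat_lit 221210) (nat_lit 22) (.e (nat_lit 196661) (nat_lit 12) (.e (nat_lit 57357) (nat_lit 0) .nil)))))))) (.g (nat_lit 4) .nil .nil))))) (.nd (nat_lit 4) (.nd (nat_lit 5) 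
(.lf (nat_lit 112077) (.g (nat_lit 2755) (.e (nat_lit 5594) (nat_lit 310) (.e (nat_lit 163869) (nat_lit 2) (.e (nat_lit 196670) (nat_lit 14) (.e (nat_lit 73754) (nat_lit 8) (.e (nat_lit 557105) (nat_lit 14) .nil))))) .nil)) 
(.lf (nat_lit 112109) (.g (nat_lit 2570) (.e (nat_lit 5595) (nat_lit 310) (.e (nat_lit 163869) (nat_lit 2) (.e (nat_lit 196670) (nat_lit 14) (.e (nat_lit 73753) (nat_lit 8) (.e (nat_lit 557103) (nat_lit 14) .nil))))) .nil))) (.nd (nat_lit 5) 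
(.lf (nat_lit 112093) (.g (nat_lit 3026) (.e (nat_lit 5594) (nat_lit 310) (.e (nat_lit 163908) (nat_lit 12) (.e (nat_lit 426338) (nat_lit 14) (.e (nat_lit 491549) (nat_lit 9) (.e (nat_lit 336432) (nat_lit 30) (.e (nat_lit 458496) (nat_lit 0) .nil)))))) (.g (nat_lit 5) .nil .nil))) 
(.lf (nat_lit 112125) (.g (nat_lit 2806) (.e (nat_lit 5596) (nat_lit 310) (.e (nat_lit 163867) (nat_lit 2) (.e (nat_lit 196670) (nat_lit 14) (.e (nat_lit 73755) (nat_lit 8) (.e (nat_lit 557105) (nat_lit 14) (.e (nat_lit 180252) (nat_lit 10) (.e (nat_lit 573474) (nat_lit 12) (.e (nat_lit 57344) (nat_lit 0) .nil)))))))) (.g (nat_lit 4) .nil .nil))))))) 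
(.nd (nat_lit 2) (.nd (nat_lit 3) (.nd (nat_lit 4) (.nd (nat_lit 5) 
(.lf (nat_lit 112067) (.g (nat_lit 499) (.e (nat_lit 5594) (nat_lit 310) (.e (nat_lit 163843) (nat_lit 0) (.e (nat_lit 3222) (nat_lit 196) .nil))) .nil)) 
(.lf (nat_lit 112099) (.g (nat_lit 2470) (.e (nat_lit 5595) (nat_lit 310) (.e (nat_lit 163867) (nat_lit 2) (.e (nat_lit 196670) (nat_lit 14) (.e (nat_lit 73753) (nat_lit 8) (.e (nat_lit 557103) (nat_lit 14) .nil))))) .nil))) (.nd (nat_lit 5) 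
(.lf (nat_lit 112083) (.g (nat_lit 1486) (.e (nat_lit 5594) (nat_lit 310) (.e (nat_lit 163874) (nat_lit 3) (.e (nat_lit 204861) (nat_lit 26) (.e (nat_lit 336213) (nat_lit 13) .nil)))) .nil)) 
(.lf (nat_lit 112115) (.g (nat_lit 1931) (.e (nat_lit 5595) (nat_lit 310) (.e (nat_lit 163873) (nat_lit 3) (.e (nat_lit 204861) (nat_lit 26) (.e (nat_lit 336214) (nat_lit 13) (.e (nat_lit 401152) (nat_lit 10) (.e (nat_lit 344096) (nat_lit 18) .nil)))))) (.g (nat_lit 4) .nil .nil))))) (.nd (nat_lit 4) (.nd (nat_lit 5) 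
(.lf (nat_lit 112075) (.g (nat_lit 1961) (.e (nat_lit 5594) (nat_lit 310) (.e (nat_lit 163869) (nat_lit 2) (.e (nat_lit 196670) (nat_lit 14) (.e (nat_lit 73746) (nat_lit 3) (.e (nat_lit 516131) (nat_lit 3) (.e (nat_lit 221215) (nat_lit 23) (.e (nat_lit 204821) (nat_lit 17) (.e (nat_lit 1074) (nat_lit 81) .nil)))))))) (.g (nat_lit 4) .nil .nil))) 
(.lf (nat_lit 112107) (.g (nat_lit 4397) (.e (nat_lit 5595) (nat_lit 310) (.e (nat_lit 163867) (nat_lit 2) (.e (nat_lit 196670) (nat_lit 14) (.e (nat_lit 73755) (nat_lit 8) (.e (nat_lit 557105) (nat_lit 14) (.e (nat_lit 180252) (nat_lit 10) (.e (nat_lit 573474) (nat_lit 12) (.e (nat_lit 57347) (nat_lit 0) .nil)))))))) (.g (nat_lit 6) .nil .nil)))) (.nd (nat_lit 5) 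
(.lf (nat_lit 112091) (.g (nat_lit 2311) (.e (nat_lit 5594) (nat_lit 310) (.e (nat_lit 163905) (nat_lit 12) (.e (nat_lit 426555) (nat_lit 32) (.e (nat_lit 376862) (nat_lit 22) (.e (nat_lit 90160) (nat_lit 11) (.e (nat_lit 24584) (nat_lit 0) (.e (nat_lit 1076) (nat_lit 81) .nil))))))) (.g (nat_lit 4) .nil .nil))) 
(.lf (nat_lit 112123) (.g (nat_lit 2442) (.e (nat_lit 5596) (nat_lit 310) (.e (nat_lit 163867) (nat_lit 2) (.e (nat_lit 196670) (nat_lit 14) (.e (nat_lit 73753) (nat_lit 8) (.e (nat_lit 557105) (nat_lit 14) (.e (nat_lit 180251) (nat_lit 10) (.e (nat_lit 573478) (nat_lit 12) (.e (nat_lit 57360) (nat_lit 0) .nil)))))))) (.g (nat_lit 4) .nil .nil)))))) 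
(.nd (nat_lit 3) (.nd (nat_lit 4) (.nd (nat_lit 5) 
(.lf (nat_lit 112071) (.g (nat_lit 4124) (.e (nat_lit 5594) (nat_lit 310) (.e (nat_lit 163869) (nat_lit 2) (.e (nat_lit 196670) (nat_lit 14) (.e (nat_lit 73746) (nat_lit 3) (.e (nat_lit 516129) (nat_lit 3) (.e (nat_lit 221210) (nat_lit 22) (.e (nat_lit 196661) (nat_lit 12) (.e (nat_lit 57359) (nat_lit 0) .nil)))))))) (.g (nat_lit 7) .nil .nil))) 
(.lf (nat_lit 112103) (.g (nat_lit 1763) (.e (nat_lit 5595) (nat_lit 310) (.e (nat_lit 163867) (nat_lit 2) (.e (nat_lit 196670) (nat_lit 14) (.e (nat_lit 73754) (nat_lit 8) (.e (nat_lit 557105) (nat_lit 14) .nil))))) .nil))) (.nd (nat_lit 5) 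
(.lf (nat_lit 112087) (.g (nat_lit 3067) (.e (nat_lit 5594) (nat_lit 310) (.e (nat_lit 163874) (nat_lit 3) (.e (nat_lit 204863) (nat_lit 27) (.e (nat_lit 344133) (nat_lit 26) (.e (nat_lit 557105) (nat_lit 14) (.e (nat_lit 180252) (nat_lit 10) (.e (nat_lit 573474) (nat_lit 12) (.e (nat_lit 57359) (nat_lit 0) .nil)))))))) (.g (nat_lit 4) .nil .nil))) 
(.lf (nat_lit 112119) (.g (nat_lit 2515) (.e (nat_lit 5596) (nat_lit 310) (.e (nat_lit 163867) (nat_lit 2) (.e (nat_lit 196670) (nat_lit 14) (.e (nat_lit 73746) (nat_lit 3) (.e (nat_lit 516129) (nat_lit 3) (.e (nat_lit 221215) (nat_lit 23) (.e (nat_lit 204821) (nat_lit 17) (.e (nat_lit 1086) (nat_lit 81) .nil)))))))) (.g (nat_lit 4) .nil .nil))))) (.nd (nat_lit 4) (.nd (nat_lit 5) 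
(.lf (nat_lit 112079) (.g (nat_lit 3159) (.e (nat_lit 5594) (nat_lit 310) (.e (nat_lit 163869) (nat_lit 2) (.e (nat_lit 196670) (nat_lit 14) (.e (nat_lit 73755) (nat_lit 8) (.e (nat_lit 557105) (nat_lit 14) (.e (nat_lit 180252) (nat_lit 10) (.e (nat_lit 573474) (nat_lit 12) (.e (nat_lit 57359) (nat_lit 0) .nil)))))))) (.g (nat_lit 4) .nil .nil))) 
(.lf (nat_lit 112111) (.g (nat_lit 2952) (.e (nat_lit 5595) (nat_lit 310) (.e (nat_lit 163869) (nat_lit 2) (.e (nat_lit 196670) (nat_lit 14) (.e (nat_lit 73754) (nat_lit 8) (.e (nat_lit 557105) (nat_lit 14) .nil))))) .nil))) (.nd (nat_lit 5) 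
(.lf (nat_lit 112095) (.g (nat_lit 814) (.e (nat_lit 5594) (nat_lit 310) (.e (nat_lit 163920) (nat_lit 14) (.e (nat_lit 442374) (nat_lit 0) .nil))) .nil)) 
(.lf (nat_lit 112127) (.g (nat_lit 3391) (.e (nat_lit 5596) (nat_lit 310) (.e (nat_lit 163869) (nat_lit 2) (.e (nat_lit 196669) (nat_lit 14) (.e (nat_lit 73755) (nat_lit 8) (.e (nat_lit 557105) (nat_lit 14) (.e (nat_lit 180252) (nat_lit 10) (.e (nat_lit 573474) (nat_lit 12) (.e (nat_lit 57344) (nat_lit 0) .nil)))))))) (.g (nat_lit 6) .nil .nil)))))))))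

noncomputable def tv1513 : DT := (.nd (nat_lit 0) (.nd (nat_lit 1) (.nd (nat_lit 2) (.nd (nat_lit 3) (.nd (nat_lit 4) (.nd (nat_lit 5) 
(.lf (nat_lit 112128) (.g (nat_lit 3118) (.e (nat_lit 5596) (nat_lit 310) (.e (nat_lit 163869) (nat_lit 2) (.e (nat_lit 196669) (nat_lit 14) (.e (nat_lit 73755) (nat_lit 8) (.e (nat_lit 557105) (nat_lit 14) (.e (nat_lit 180252) (nat_lit 10) (.e (nat_lit 573474) (nat_lit 12) (.e (nat_lit 57354) (nat_lit 0) .nil)))))))) (.g (nat_lit 5) .nil .nil))) 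
(.lf (nat_lit 112160) (.g (nat_lit 2577) (.e (nat_lit 5596) (nat_lit 310) (.e (nat_lit 163905) (nat_lit 12) (.e (nat_lit 426555) (nat_lit 32) (.e (nat_lit 376865) (nat_lit 22) (.e (nat_lit 90160) (nat_lit 11) .nil))))) .nil))) (.nd (nat_lit 5) 
(.lf (nat_lit 112144) (.g (nat_lit 3059) (.e (nat_lit 5596) (nat_lit 310) (.e (nat_lit 163869) (nat_lit 2) (.e (nat_lit 196670) (nat_lit 14) (.e (nat_lit 73755) (nat_lit 8) (.e (nat_lit 557105) (nat_lit 14) .nil))))) .nil)) 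
(.lf (nat_lit 112176) (.g (nat_lit 1582) (.e (nat_lit 5597) (nat_lit 310) (.e (nat_lit 163867) (nat_lit 2) (.e (nat_lit 196670) (nat_lit 14) (.e (nat_lit 73748) (nat_lit 3) .nil)))) .nil)))) (.nd (nat_lit 4) (.nd (nat_lit 5) 
(.lf (nat_lit 112136) (.g (nat_lit 2647) (.e (nat_lit 5596) (nat_lit 310) (.e (nat_lit 163869) (nat_lit 2) (.e (nat_lit 196670) (nat_lit 14) (.e (nat_lit 73753) (nat_lit 8) (.e (nat_lit 557105) (nat_lit 14) (.e (nat_lit 180251) (nat_lit 10) (.e (nat_lit 573477) (nat_lit 12) (.e (nat_lit 57361) (nat_lit 0) .nil)))))))) (.g (nat_lit 4) .nil .nil))) 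
(.lf (nat_lit 112168) (.g (nat_lit 637) (.e (nat_lit 5597) (nat_lit 310) (.e (nat_lit 163867) (nat_lit 2) (.e (nat_lit 196617) (nat_lit 9) .nil))) .nil))) (.nd (nat_lit 5) 
(.lf (nat_lit 112152) (.g (nat_lit 2548) (.e (nat_lit 5596) (nat_lit 310) (.e (nat_lit 163874) (nat_lit 3) (.e (nat_lit 204863) (nat_lit 27) (.e (nat_lit 344117) (nat_lit 21) (.e (nat_lit 516130) (nat_lit 3) (.e (nat_lit 221215) (nat_lit 23) (.e (nat_lit 204821) (nat_lit 17) (.e (nat_lit 1086) (nat_lit 81) .nil)))))))) (.g (nat_lit 4) .nil .nil))) 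
(.lf (nat_lit 112184) (.g (nat_lit 2704) (.e (nat_lit 5597) (nat_lit 310) (.e (nat_lit 163869) (nat_lit 2) (.e (nat_lit 196670) (nat_lit 14) (.e (nat_lit 73753) (nat_lit 8) (.e (nat_lit 557105) (nat_lit 14) .nil))))) .nil))))) (.nd (nat_lit 3) (.nd (nat_lit 4) (.nd (nat_lit 5) 
(.lf (nat_lit 112132) (.g (nat_lit 2133) (.e (nat_lit 5596) (nat_lit 310) (.e (nat_lit 163869) (nat_lit 2) (.e (nat_lit 196670) (nat_lit 14) (.e (nat_lit 73746) (nat_lit 3) (.e (nat_lit 516131) (nat_lit 3) (.e (nat_lit 221212) (nat_lit 22) (.e (nat_lit 196661) (nat_lit 12) (.e (nat_lit 57361) (nat_lit 0) .nil)))))))) (.g (nat_lit 4) .nil .nil))) 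
(.lf (nat_lit 112164) (.g (nat_lit 2436) (.e (nat_lit 5596) (nat_lit 310) (.e (nat_lit 163908) (nat_lit 12) (.e (nat_lit 426338) (nat_lit 14) (.e (nat_lit 491549) (nat_lit 9) (.e (nat_lit 336434) (nat_lit 30) (.e (nat_lit 450568) (nat_lit 0) .nil)))))) (.g (nat_lit 4) .nil .nil)))) (.nd (nat_lit 5) 
(.lf (nat_lit 112148) (.g (nat_lit 2522) (.e (nat_lit 5596) (nat_lit 310) (.e (nat_lit 163873) (nat_lit 3) (.e (nat_lit 204861) (nat_lit 26) (.e (nat_lit 336076) (nat_lit 9) (.e (nat_lit 336367) (nat_lit 27) (.e (nat_lit 426533) (nat_lit 28) (.e (nat_lit 344104) (nat_lit 18) .nil))))))) (.g (nat_lit 4) .nil .nil))) 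
(.lf (nat_lit 112180) (.g (nat_lit 3103) (.e (nat_lit 5597) (nat_lit 310) (.e (nat_lit 163867) (nat_lit 2) (.e (nat_lit 196670) (nat_lit 14) (.e (nat_lit 73754) (nat_lit 8) (.e (nat_lit 557105) (nat_lit 14) (.e (nat_lit 180251) (nat_lit 10) (.e (nat_lit 573478) (nat_lit 12) (.e (nat_lit 57360) (nat_lit 0) .nil)))))))) (.g (nat_lit 7) .nil .nil))))) (.nd (nat_lit 4) (.nd (nat_lit 5) 
(.lf (nat_lit 112140) (.g (nat_lit 2205) (.e (nat_lit 5596) (nat_lit 310) (.e (nat_lit 163869) (nat_lit 2) (.e (nat_lit 196670) (nat_lit 14) (.e (nat_lit 73754) (nat_lit 8) .nil)))) .nil)) 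
(.lf (nat_lit 112172) (.g (nat_lit 4575) (.e (nat_lit 5597) (nat_lit 310) (.e (nat_lit 163867) (nat_lit 2) (.e (nat_lit 196670) (nat_lit 14) (.e (nat_lit 73746) (nat_lit 3) (.e (nat_lit 516129) (nat_lit 3) (.e (nat_lit 221210) (nat_lit 22) (.e (nat_lit 196661) (nat_lit 12) (.e (nat_lit 57361) (nat_lit 0) .nil)))))))) (.g (nat_lit 0) .nil .nil)))) (.nd (nat_lit 5) 
(.lf (nat_lit 112156) (.g (nat_lit 2494) (.e (nat_lit 5596) (nat_lit 310) (.e (nat_lit 163905) (nat_lit 12) (.e (nat_lit 426555) (nat_lit 32) (.e (nat_lit 376862) (nat_lit 22) (.e (nat_lit 90158) (nat_lit 11) .nil))))) .nil)) 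
(.lf (nat_lit 112188) (.g (nat_lit 1921) (.e (nat_lit 5597) (nat_lit 310) (.e (nat_lit 163873) (nat_lit 3) (.e (nat_lit 204861) (nat_lit 26) (.e (nat_lit 336213) (nat_lit 13) (.e (nat_lit 401152) (nat_lit 10) .nil))))) .nil)))))) (.nd (nat_lit 2) (.nd (nat_lit 3) (.nd (nat_lit 4) (.nd (nat_lit 5) 
(.lf (nat_lit 112130) (.g (nat_lit 2745) (.e (nat_lit 5596) (nat_lit 310) (.e (nat_lit 163869) (nat_lit 2) (.e (nat_lit 196670) (nat_lit 14) (.e (nat_lit 73746) (nat_lit 3) (.e (nat_lit 516131) (nat_lit 3) (.e (nat_lit 221211) (nat_lit 22) (.e (nat_lit 196661) (nat_lit 12) (.e (nat_lit 57357) (nat_lit 0) .nil)))))))) (.g (nat_lit 5) .nil .nil))) 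
(.lf (nat_lit 112162) (.g (nat_lit 2671) (.e (nat_lit 5596) (nat_lit 310) (.e (nat_lit 163905) (nat_lit 12) (.e (nat_lit 426555) (nat_lit 32) (.e (nat_lit 376865) (nat_lit 22) (.e (nat_lit 90160) (nat_lit 11) (.e (nat_lit 24584) (nat_lit 0) (.e (nat_lit 1083) (nat_lit 81) .nil))))))) (.g (nat_lit 4) .nil .nil)))) (.nd (nat_lit 5) 
(.lf (nat_lit 112146) (.g (nat_lit 3071) (.e (nat_lit 5596) (nat_lit 310) (.e (nat_lit 163869) (nat_lit 2) (.e (nat_lit 196670) (nat_lit 14) (.e (nat_lit 73755) (nat_lit 8) (.e (nat_lit 557105) (nat_lit 14) (.e (nat_lit 180252) (nat_lit 10) (.e (nat_lit 573474) (nat_lit 12) (.e (nat_lit 57355) (nat_lit 0) .nil)))))))) (.g (nat_lit 4) .nil .nil))) 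
(.lf (nat_lit 112178) (.g (nat_lit 3263) (.e (nat_lit 5597) (nat_lit 310) (.e (nat_lit 163867) (nat_lit 2) (.e (nat_lit 196670) (nat_lit 14) (.e (nat_lit 73754) (nat_lit 8) (.e (nat_lit 557105) (nat_lit 14) (.e (nat_lit 180251) (nat_lit 10) (.e (nat_lit 573477) (nat_lit 12) (.e (nat_lit 57360) (nat_lit 0) .nil)))))))) (.g (nat_lit 6) .nil .nil))))) (.nd (nat_lit 4) (.nd (nat_lit 5) 
(.lf (nat_lit 112138) (.g (nat_lit 4599) (.e (nat_lit 5596) (nat_lit 310) (.e (nat_lit 163869) (nat_lit 2) (.e (nat_lit 196670) (nat_lit 14) (.e (nat_lit 73753) (nat_lit 8) (.e (nat_lit 557105) (nat_lit 14) (.e (nat_lit 180252) (nat_lit 10) (.e (nat_lit 573474) (nat_lit 12) (.e (nat_lit 57344) (nat_lit 0) .nil)))))))) (.g (nat_lit 6) .nil .nil))) 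
(.lf (nat_lit 112170) (.g (nat_lit 2850) (.e (nat_lit 5597) (nat_lit 310) (.e (nat_lit 163867) (nat_lit 2) (.e (nat_lit 196668) (nat_lit 14) (.e (nat_lit 73753) (nat_lit 8) (.e (nat_lit 557103) (nat_lit 14) (.e (nat_lit 180250) (nat_lit 10) (.e (nat_lit 573477) (nat_lit 12) (.e (nat_lit 57361) (nat_lit 0) .nil)))))))) (.g (nat_lit 4) .nil .nil)))) (.nd (nat_lit 5) 
(.lf (nat_lit 112154) (.g (nat_lit 2473) (.e (nat_lit 5596) (nat_lit 310) (.e (nat_lit 163874) (nat_lit 3) (.e (nat_lit 204864) (nat_lit 27) (.e (nat_lit 344132) (nat_lit 26) (.e (nat_lit 557105) (nat_lit 14) (.e (nat_lit 180252) (nat_lit 10) (.e (nat_lit 573475) (nat_lit 12) (.e (nat_lit 57360) (nat_lit 0) .nil)))))))) (.g (nat_lit 4) .nil .nil))) 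
(.lf (nat_lit 112186) (.g (nat_lit 3184) (.e (nat_lit 5597) (nat_lit 310) (.e (nat_lit 163869) (nat_lit 2) (.e (nat_lit 196670) (nat_lit 14) (.e (nat_lit 73754) (nat_lit 8) (.e (nat_lit 557105) (nat_lit 14) (.e (nat_lit 180251) (nat_lit 10) (.e (nat_lit 573477) (nat_lit 12) (.e (nat_lit 57361) (nat_lit 0) .nil)))))))) (.g (nat_lit 4) .nil .nil)))))) 
(.nd (nat_lit 3) (.nd (nat_lit 4) (.nd (nat_lit 5) 
(.lf (nat_lit 112134) (.g (nat_lit 2680) (.e (nat_lit 5596) (nat_lit 310) (.e (nat_lit 163869) (nat_lit 2) (.e (nat_lit 196670) (nat_lit 14) (.e (nat_lit 73753) (nat_lit 8) (.e (nat_lit 557103) (nat_lit 14) .nil))))) .nil)) 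
(.lf (nat_lit 112166) (.g (nat_lit 2113) (.e (nat_lit 5596) (nat_lit 310) (.e (nat_lit 171776) (nat_lit 64) (.e (nat_lit 98372) (nat_lit 29) (.e (nat_lit 450579) (nat_lit 5) (.e (nat_lit 532553) (nat_lit 13) (.e (nat_lit 368663) (nat_lit 18) .nil)))))) (.g (nat_lit 5) .nil .nil)))) (.nd (nat_lit 5) 
(.lf (nat_lit 112150) (.g (nat_lit 2443) (.e (nat_lit 5596) (nat_lit 310) (.e (nat_lit 163874) (nat_lit 3) (.e (nat_lit 204861) (nat_lit 26) (.e (nat_lit 336214) (nat_lit 13) (.e (nat_lit 401152) (nat_lit 10) (.e (nat_lit 344104) (nat_lit 18) .nil)))))) (.g (nat_lit 4) .nil .nil))) 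
(.lf (nat_lit 112182) (.g (nat_lit 2342) (.e (nat_lit 5597) (nat_lit 310) (.e (nat_lit 163869) (nat_lit 2) (.e (nat_lit 196670) (nat_lit 14) (.e (nat_lit 73746) (nat_lit 3) (.e (nat_lit 516131) (nat_lit 3) .nil))))) .nil)))) (.nd (nat_lit 4) (.nd (nat_lit 5) 
(.lf (nat_lit 112142) (.g (nat_lit 2957) (.e (nat_lit 5596) (nat_lit 310) (.e (nat_lit 163869) (nat_lit 2) (.e (nat_lit 196670) (nat_lit 14) (.e (nat_lit 73754) (nat_lit 8) (.e (nat_lit 557105) (nat_lit 14) (.e (nat_lit 180251) (nat_lit 10) (.e (nat_lit 573478) (nat_lit 12) (.e (nat_lit 57344) (nat_lit 0) .nil)))))))) (.g (nat_lit 4) .nil .nil))) 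
(.lf (nat_lit 112174) (.g (nat_lit 2058) (.e (nat_lit 5597) (nat_lit 310) (.e (nat_lit 163867) (nat_lit 2) (.e (nat_lit 196670) (nat_lit 14) (.e (nat_lit 73746) (nat_lit 3) (.e (nat_lit 516131) (nat_lit 3) .nil))))) .nil))) (.nd (nat_lit 5) 
(.lf (nat_lit 112158) (.g (nat_lit 1733) (.e (nat_lit 5596) (nat_lit 310) (.e (nat_lit 163905) (nat_lit 12) (.e (nat_lit 426555) (nat_lit 32) (.e (nat_lit 376865) (nat_lit 22) .nil)))) .nil)) 
(.lf (nat_lit 112190) (.g (nat_lit 2716) (.e (nat_lit 5597) (nat_lit 310) (.e (nat_lit 163874) (nat_lit 3) (.e (nat_lit 204861) (nat_lit 26) (.e (nat_lit 336213) (nat_lit 13) (.e (nat_lit 401152) (nat_lit 10) (.e (nat_lit 344104) (nat_lit 18) .nil)))))) (.g (nat_lit 4) .nil .nil)))))))) (.nd (nat_lit 1) (.nd (nat_lit 2) (.nd (nat_lit 3) (.nd (nat_lit 4) (.nd (nat_lit 5) 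
(.lf (nat_lit 112129) (.g (nat_lit 3835) (.e (nat_lit 5596) (nat_lit 310) (.e (nat_lit 163869) (nat_lit 2) (.e (nat_lit 196670) (nat_lit 14) (.e (nat_lit 73746) (nat_lit 3) (.e (nat_lit 516129) (nat_lit 3) (.e (nat_lit 221210) (nat_lit 22) (.e (nat_lit 196661) (nat_lit 12) (.e (nat_lit 57361) (nat_lit 0) .nil)))))))) (.g (nat_lit 6) .nil .nil))) 
(.lf (nat_lit 112161) (.g (nat_lit 2760) (.e (nat_lit 5596) (nat_lit 310) (.e (nat_lit 163905) (nat_lit 12) (.e (nat_lit 426555) (nat_lit 32) (.e (nat_lit 376865) (nat_lit 22) (.e (nat_lit 90160) (nat_lit 11) (.e (nat_lit 24580) (nat_lit 0) (.e (nat_lit 1089) (nat_lit 81) .nil))))))) (.g (nat_lit 4) .nil .nil)))) (.nd (nat_lit 5) 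
(.lf (nat_lit 112145) (.g (nat_lit 3172) (.e (nat_lit 5596) (nat_lit 310) (.e (nat_lit 163869) (nat_lit 2) (.e (nat_lit 196670) (nat_lit 14) (.e (nat_lit 73755) (nat_lit 8) (.e (nat_lit 557105) (nat_lit 14) (.e (nat_lit 180252) (nat_lit 10) (.e (nat_lit 573474) (nat_lit 12) (.e (nat_lit 57354) (nat_lit 0) .nil)))))))) (.g (nat_lit 4) .nil .nil))) 
(.lf (nat_lit 112177) (.g (nat_lit 3824) (.e (nat_lit 5597) (nat_lit 310) (.e (nat_lit 163867) (nat_lit 2) (.e (nat_lit 196670) (nat_lit 14) (.e (nat_lit 73753) (nat_lit 8) (.e (nat_lit 557103) (nat_lit 14) (.e (nat_lit 180250) (nat_lit 10) (.e (nat_lit 573477) (nat_lit 12) (.e (nat_lit 57361) (nat_lit 0) .nil)))))))) (.g (nat_lit 6) .nil .nil))))) (.nd (nat_lit 4) (.nd (nat_lit 5) 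
(.lf (nat_lit 112137) (.g (nat_lit 2643) (.e (nat_lit 5596) (nat_lit 310) (.e (nat_lit 163869) (nat_lit 2) (.e (nat_lit 196670) (nat_lit 14) (.e (nat_lit 73753) (nat_lit 8) (.e (nat_lit 557105) (nat_lit 14) (.e (nat_lit 180251) (nat_lit 10) (.e (nat_lit 573478) (nat_lit 12) (.e (nat_lit 57344) (nat_lit 0) .nil)))))))) (.g (nat_lit 4) .nil .nil))) 
(.lf (nat_lit 112169) (.g (nat_lit 629) (.e (nat_lit 5597) (nat_lit 310) (.e (nat_lit 163867) (nat_lit 2) (.e (nat_lit 196667) (nat_lit 14) .nil))) .nil))) (.nd (nat_lit 5) 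
(.lf (nat_lit 112153) (.g (nat_lit 2358) (.e (nat_lit 5596) (nat_lit 310) (.e (nat_lit 163874) (nat_lit 3) (.e (nat_lit 204864) (nat_lit 27) (.e (nat_lit 344132) (nat_lit 26) (.e (nat_lit 557105) (nat_lit 14) (.e (nat_lit 180252) (nat_lit 10) (.e (nat_lit 573475) (nat_lit 12) (.e (nat_lit 57344) (nat_lit 0) .nil)))))))) (.g (nat_lit 4) .nil .nil))) 
(.lf (nat_lit 112185) (.g (nat_lit 2364) (.e (nat_lit 5597) (nat_lit 310) (.e (nat_lit 163869) (nat_lit 2) (.e (nat_lit 196670) (nat_lit 14) (.e (nat_lit 73754) (nat_lit 8) .nil)))) .nil))))) (.nd (nat_lit 3) (.nd (nat_lit 4) (.nd (nat_lit 5) 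
(.lf (nat_lit 112133) (.g (nat_lit 2277) (.e (nat_lit 5596) (nat_lit 310) (.e (nat_lit 163869) (nat_lit 2) (.e (nat_lit 196670) (nat_lit 14) (.e (nat_lit 73746) (nat_lit 3) (.e (nat_lit 516131) (nat_lit 3) (.e (nat_lit 221215) (nat_lit 23) (.e (nat_lit 204827) (nat_lit 17) (.e (nat_lit 1041) (nat_lit 81) .nil)))))))) (.g (nat_lit 4) .nil .nil))) 
(.lf (nat_lit 112165) (.g (nat_lit 884) (.e (nat_lit 5596) (nat_lit 310) (.e (nat_lit 163920) (nat_lit 14) (.e (nat_lit 442374) (nat_lit 0) .nil))) .nil))) (.nd (nat_lit 5) 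
(.lf (nat_lit 112149) (.g (nat_lit 1431) (.e (nat_lit 5596) (nat_lit 310) (.e (nat_lit 163873) (nat_lit 3) (.e (nat_lit 204861) (nat_lit 26) (.e (nat_lit 336214) (nat_lit 13) .nil)))) .nil)) 
(.lf (nat_lit 112181) (.g (nat_lit 4200) (.e (nat_lit 5597) (nat_lit 310) (.e (nat_lit 163867) (nat_lit 2) (.e (nat_lit 196670) (nat_lit 14) (.e (nat_lit 73754) (nat_lit 8) (.e (nat_lit 557105) (nat_lit 14) (.e (nat_lit 180252) (nat_lit 10) (.e (nat_lit 573475) (nat_lit 12) (.e (nat_lit 57360) (nat_lit 0) .nil)))))))) (.g (nat_lit 8) .nil .nil))))) (.nd (nat_lit 4) (.nd (nat_lit 5) 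
(.lf (nat_lit 112141) (.g (nat_lit 3000) (.e (nat_lit 5596) (nat_lit 310) (.e (nat_lit 163869) (nat_lit 2) (.e (nat_lit 196670) (nat_lit 14) (.e (nat_lit 73754) (nat_lit 8) (.e (nat_lit 557105) (nat_lit 14) (.e (nat_lit 180251) (nat_lit 10) (.e (nat_lit 573477) (nat_lit 12) (.e (nat_lit 57361) (nat_lit 0) .nil)))))))) (.g (nat_lit 4) .nil .nil))) 
(.lf (nat_lit 112173) (.g (nat_lit 4443) (.e (nat_lit 5597) (nat_lit 310) (.e (nat_lit 163867) (nat_lit 2) (.e (nat_lit 196670) (nat_lit 14) (.e (nat_lit 73746) (nat_lit 3) (.e (nat_lit 516129) (nat_lit 3) (.e (nat_lit 221215) (nat_lit 23) (.e (nat_lit 204821) (nat_lit 17) (.e (nat_lit 1086) (nat_lit 81) .nil)))))))) (.g (nat_lit 6) .nil .nil)))) (.nd (nat_lit 5) 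
(.lf (nat_lit 112157) (.g (nat_lit 2568) (.e (nat_lit 5596) (nat_lit 310) (.e (nat_lit 163905) (nat_lit 12) (.e (nat_lit 426555) (nat_lit 32) (.e (nat_lit 376862) (nat_lit 22) (.e (nat_lit 90160) (nat_lit 11) .nil))))) .nil)) 
(.lf (nat_lit 112189) (.g (nat_lit 1431) (.e (nat_lit 5597) (nat_lit 310) (.e (nat_lit 163873) (nat_lit 3) (.e (nat_lit 204861) (nat_lit 26) (.e (nat_lit 336214) (nat_lit 13) .nil)))) .nil)))))) (.nd (nat_lit 2) (.nd (nat_lit 3) (.nd (nat_lit 4) (.nd (nat_lit 5) 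
(.lf (nat_lit 112131) (.g (nat_lit 2958) (.e (nat_lit 5596) (nat_lit 310) (.e (nat_lit 163869) (nat_lit 2) (.e (nat_lit 196670) (nat_lit 14) (.e (nat_lit 73746) (nat_lit 3) (.e (nat_lit 516131) (nat_lit 3) (.e (nat_lit 221211) (nat_lit 22) (.e (nat_lit 196661) (nat_lit 12) (.e (nat_lit 57361) (nat_lit 0) .nil)))))))) (.g (nat_lit 6) .nil .nil))) 
(.lf (nat_lit 112163) (.g (nat_lit 3363) (.e (nat_lit 5596) (nat_lit 310) (.e (nat_lit 163908) (nat_lit 12) (.e (nat_lit 426338) (nat_lit 14) (.e (nat_lit 491549) (nat_lit 9) (.e (nat_lit 336432) (nat_lit 30) (.e (nat_lit 450569) (nat_lit 0) .nil)))))) (.g (nat_lit 6) .nil .nil)))) (.nd (nat_lit 5) 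
(.lf (nat_lit 112147) (.g (nat_lit 2059) (.e (nat_lit 5596) (nat_lit 310) (.e (nat_lit 163873) (nat_lit 3) (.e (nat_lit 204861) (nat_lit 26) (.e (nat_lit 336075) (nat_lit 9) (.e (nat_lit 336367) (nat_lit 27) (.e (nat_lit 426533) (nat_lit 28) (.e (nat_lit 344104) (nat_lit 18) .nil))))))) (.g (nat_lit 4) .nil .nil))) 
(.lf (nat_lit 112179) (.g (nat_lit 4222) (.e (nat_lit 5597) (nat_lit 310) (.e (nat_lit 163867) (nat_lit 2) (.e (nat_lit 196670) (nat_lit 14) (.e (nat_lit 73754) (nat_lit 8) (.e (nat_lit 557105) (nat_lit 14) (.e (nat_lit 180251) (nat_lit 10) (.e (nat_lit 573477) (nat_lit 12) (.e (nat_lit 57361) (nat_lit 0) .nil)))))))) (.g (nat_lit 0) .nil .nil))))) (.nd (nat_lit 4) (.nd (nat_lit 5) 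
(.lf (nat_lit 112139) (.g (nat_lit 4644) (.e (nat_lit 5596) (nat_lit 310) (.e (nat_lit 163869) (nat_lit 2) (.e (nat_lit 196670) (nat_lit 14) (.e (nat_lit 73753) (nat_lit 8) (.e (nat_lit 557105) (nat_lit 14) (.e (nat_lit 180252) (nat_lit 10) (.e (nat_lit 573474) (nat_lit 12) (.e (nat_lit 57358) (nat_lit 0) .nil)))))))) (.g (nat_lit 6) .nil .nil))) 
(.lf (nat_lit 112171) (.g (nat_lit 2024) (.e (nat_lit 5597) (nat_lit 310) (.e (nat_lit 163867) (nat_lit 2) (.e (nat_lit 196670) (nat_lit 14) (.e (nat_lit 73746) (nat_lit 3) (.e (nat_lit 516129) (nat_lit 3) .nil))))) .nil))) (.nd (nat_lit 5) 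
(.lf (nat_lit 112155) (.g (nat_lit 2772) (.e (nat_lit 5596) (nat_lit 310) (.e (nat_lit 163896) (nat_lit 10) (.e (nat_lit 409602) (nat_lit 0) (.e (nat_lit 5293) (nat_lit 298) (.e (nat_lit 1656) (nat_lit 115) (.e (nat_lit 393265) (nat_lit 22) (.e (nat_lit 417792) (nat_lit 0) (.e (nat_lit 67) (nat_lit 0) .nil)))))))) (.g (nat_lit 6) .nil .nil))) 
(.lf (nat_lit 112187) (.g (nat_lit 3093) (.e (nat_lit 5597) (nat_lit 310) (.e (nat_lit 163869) (nat_lit 2) (.e (nat_lit 196670) (nat_lit 14) (.e (nat_lit 73754) (nat_lit 8) (.e (nat_lit 557105) (nat_lit 14) (.e (nat_lit 180252) (nat_lit 10) (.e (nat_lit 573475) (nat_lit 12) (.e (nat_lit 57360) (nat_lit 0) .nil)))))))) (.g (nat_lit 4) .nil .nil)))))) 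
(.nd (nat_lit 3) (.nd (nat_lit 4) (.nd (nat_lit 5) 
(.lf (nat_lit 112135) (.g (nat_lit 2547) (.e (nat_lit 5596) (nat_lit 310) (.e (nat_lit 163869) (nat_lit 2) (.e (nat_lit 196670) (nat_lit 14) (.e (nat_lit 73753) (nat_lit 8) (.e (nat_lit 557105) (nat_lit 14) .nil))))) .nil)) 
(.lf (nat_lit 112167) (.g (nat_lit 915) (.e (nat_lit 5597) (nat_lit 310) (.e (nat_lit 163850) (nat_lit 0) (.e (nat_lit 7556) (nat_lit 402) (.e (nat_lit 1638) (nat_lit 114) .nil)))) .nil))) (.nd (nat_lit 5) 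
(.lf (nat_lit 112151) (.g (nat_lit 2797) (.e (nat_lit 5596) (nat_lit 310) (.e (nat_lit 163874) (nat_lit 3) (.e (nat_lit 204861) (nat_lit 26) (.e (nat_lit 336215) (nat_lit 13) (.e (nat_lit 401152) (nat_lit 10) (.e (nat_lit 344104) (nat_lit 18) .nil)))))) (.g (nat_lit 4) .nil .nil))) 
(.lf (nat_lit 112183) (.g (nat_lit 2849) (.e (nat_lit 5597) (nat_lit 310) (.e (nat_lit 163869) (nat_lit 2) (.e (nat_lit 196670) (nat_lit 14) (.e (nat_lit 73753) (nat_lit 8) (.e (nat_lit 557103) (nat_lit 14) (.e (nat_lit 180250) (nat_lit 10) (.e (nat_lit 573477) (nat_lit 12) (.e (nat_lit 57361) (nat_lit 0) .nil)))))))) (.g (nat_lit 4) .nil .nil))))) (.nd (nat_lit 4) (.nd (nat_lit 5) 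
(.lf (nat_lit 112143) (.g (nat_lit 2966) (.e (nat_lit 5596) (nat_lit 310) (.e (nat_lit 163869) (nat_lit 2) (.e (nat_lit 196670) (nat_lit 14) (.e (nat_lit 73754) (nat_lit 8) (.e (nat_lit 557105) (nat_lit 14) (.e (nat_lit 180252) (nat_lit 10) (.e (nat_lit 573475) (nat_lit 12) (.e (nat_lit 57355) (nat_lit 0) .nil)))))))) (.g (nat_lit 4) .nil .nil))) 
(.lf (nat_lit 112175) (.g (nat_lit 3723) (.e (nat_lit 5597) (nat_lit 310) (.e (nat_lit 163867) (nat_lit 2) (.e (nat_lit 196670) (nat_lit 14) (.e (nat_lit 73746) (nat_lit 3) (.e (nat_lit 516131) (nat_lit 3) (.e (nat_lit 221211) (nat_lit 22) (.e (nat_lit 196661) (nat_lit 12) (.e (nat_lit 57361) (nat_lit 0) .nil)))))))) (.g (nat_lit 8) .nil .nil)))) (.nd (nat_lit 5) 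
(.lf (nat_lit 112159) (.g (nat_lit 2530) (.e (nat_lit 5596) (nat_lit 310) (.e (nat_lit 163905) (nat_lit 12) (.e (nat_lit 426555) (nat_lit 32) (.e (nat_lit 376865) (nat_lit 22) (.e (nat_lit 90158) (nat_lit 11) .nil))))) .nil)) 
(.lf (nat_lit 112191) (.g (nat_lit 2210) (.e (nat_lit 5597) (nat_lit 310) (.e (nat_lit 163874) (nat_lit 3) (.e (nat_lit 204861) (nat_lit 26) (.e (nat_lit 336214) (nat_lit 13) .nil)))) .nil))))))))

noncomputable def tv1514 : DT := (.nd (nat_lit 0) (.nd (nat_lit 1) (.nd (nat_lit 2) (.nd (nat_lit 3) (.nd (nat_lit 4) (.nd (nat_lit 5) 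
(.lf (nat_lit 112192) (.g (nat_lit 2770) (.e (nat_lit 5597) (nat_lit 310) (.e (nat_lit 163874) (nat_lit 3) (.e (nat_lit 204861) (nat_lit 26) (.e (nat_lit 336215) (nat_lit 13) (.e (nat_lit 401152) (nat_lit 10) .nil))))) .nil)) 
(.lf (nat_lit 112224) (.g (nat_lit 2584) (.e (nat_lit 5598) (nat_lit 310) (.e (nat_lit 163869) (nat_lit 2) (.e (nat_lit 196670) (nat_lit 14) (.e (nat_lit 73753) (nat_lit 8) (.e (nat_lit 557105) (nat_lit 14) (.e (nat_lit 180251) (nat_lit 10) (.e (nat_lit 573477) (nat_lit 12) (.e (nat_lit 57360) (nat_lit 0) .nil)))))))) (.g (nat_lit 4) .nil .nil)))) (.nd (nat_lit 5) 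
(.lf (nat_lit 112208) (.g (nat_lit 2551) (.e (nat_lit 5598) (nat_lit 310) (.e (nat_lit 163867) (nat_lit 2) (.e (nat_lit 196670) (nat_lit 14) (.e (nat_lit 73753) (nat_lit 8) (.e (nat_lit 557103) (nat_lit 14) (.e (nat_lit 180250) (nat_lit 10) (.e (nat_lit 573475) (nat_lit 12) (.e (nat_lit 57360) (nat_lit 0) .nil)))))))) (.g (nat_lit 4) .nil .nil))) 
(.lf (nat_lit 112240) (.g (nat_lit 733) (.e (nat_lit 5598) (nat_lit 310) (.e (nat_lit 163905) (nat_lit 12) (.e (nat_lit 426555) (nat_lit 32) .nil))) .nil)))) (.nd (nat_lit 4) (.nd (nat_lit 5) 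
(.lf (nat_lit 112200) (.g (nat_lit 2243) (.e (nat_lit 5598) (nat_lit 310) (.e (nat_lit 163867) (nat_lit 2) (.e (nat_lit 196670) (nat_lit 14) (.e (nat_lit 73746) (nat_lit 3) (.e (nat_lit 516129) (nat_lit 3) .nil))))) .nil)) 
(.lf (nat_lit 112232) (.g (nat_lit 1791) (.e (nat_lit 5598) (nat_lit 310) (.e (nat_lit 163873) (nat_lit 3) (.e (nat_lit 204861) (nat_lit 26) (.e (nat_lit 336214) (nat_lit 13) (.e (nat_lit 401152) (nat_lit 10) (.e (nat_lit 344104) (nat_lit 18) .nil)))))) (.g (nat_lit 4) .nil .nil)))) (.nd (nat_lit 5) 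
(.lf (nat_lit 112216) (.g (nat_lit 2946) (.e (nat_lit 5598) (nat_lit 310) (.e (nat_lit 163869) (nat_lit 2) (.e (nat_lit 196668) (nat_lit 14) (.e (nat_lit 73753) (nat_lit 8) (.e (nat_lit 557103) (nat_lit 14) (.e (nat_lit 180250) (nat_lit 10) (.e (nat_lit 573477) (nat_lit 12) (.e (nat_lit 57361) (nat_lit 0) .nil)))))))) (.g (nat_lit 4) .nil .nil))) 
(.lf (nat_lit 112248) (.g (nat_lit 1787) (.e (nat_lit 5598) (nat_lit 310) (.e (nat_lit 163913) (nat_lit 12) (.e (nat_lit 426552) (nat_lit 32) (.e (nat_lit 376865) (nat_lit 22) (.e (nat_lit 90160) (nat_lit 11) .nil))))) .nil))))) (.nd (nat_lit 3) (.nd (nat_lit 4) (.nd (nat_lit 5) 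
(.lf (nat_lit 112196) (.g (nat_lit 917) (.e (nat_lit 5597) (nat_lit 310) (.e (nat_lit 163920) (nat_lit 14) (.e (nat_lit 442374) (nat_lit 0) .nil))) .nil)) 
(.lf (nat_lit 112228) (.g (nat_lit 754) (.e (nat_lit 5598) (nat_lit 310) (.e (nat_lit 163873) (nat_lit 3) (.e (nat_lit 204851) (nat_lit 26) .nil))) .nil))) (.nd (nat_lit 5) 
(.lf (nat_lit 112212) (.g (nat_lit 2568) (.e (nat_lit 5598) (nat_lit 310) (.e (nat_lit 163867) (nat_lit 2) (.e (nat_lit 196670) (nat_lit 14) (.e (nat_lit 73753) (nat_lit 8) (.e (nat_lit 557105) (nat_lit 14) (.e (nat_lit 180251) (nat_lit 10) (.e (nat_lit 573478) (nat_lit 12) (.e (nat_lit 57360) (nat_lit 0) .nil)))))))) (.g (nat_lit 4) .nil .nil))) 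
(.lf (nat_lit 112244) (.g (nat_lit 3207) (.e (nat_lit 5598) (nat_lit 310) (.e (nat_lit 163908) (nat_lit 12) (.e (nat_lit 426338) (nat_lit 14) (.e (nat_lit 491549) (nat_lit 9) (.e (nat_lit 336432) (nat_lit 30) (.e (nat_lit 450569) (nat_lit 0) .nil)))))) (.g (nat_lit 5) .nil .nil))))) (.nd (nat_lit 4) (.nd (nat_lit 5) 
(.lf (nat_lit 112204) (.g (nat_lit 3928) (.e (nat_lit 5598) (nat_lit 310) (.e (nat_lit 163867) (nat_lit 2) (.e (nat_lit 196670) (nat_lit 14) (.e (nat_lit 73746) (nat_lit 3) (.e (nat_lit 516131) (nat_lit 3) (.e (nat_lit 221211) (nat_lit 22) (.e (nat_lit 196661) (nat_lit 12) (.e (nat_lit 57361) (nat_lit 0) .nil)))))))) (.g (nat_lit 8) .nil .nil))) 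
(.lf (nat_lit 112236) (.g (nat_lit 2564) (.e (nat_lit 5598) (nat_lit 310) (.e (nat_lit 163874) (nat_lit 3) (.e (nat_lit 204861) (nat_lit 26) (.e (nat_lit 336215) (nat_lit 13) (.e (nat_lit 401152) (nat_lit 10) (.e (nat_lit 344104) (nat_lit 18) .nil)))))) (.g (nat_lit 4) .nil .nil)))) (.nd (nat_lit 5) 
(.lf (nat_lit 112220) (.g (nat_lit 3713) (.e (nat_lit 5598) (nat_lit 310) (.e (nat_lit 163869) (nat_lit 2) (.e (nat_lit 196670) (nat_lit 14) (.e (nat_lit 73746) (nat_lit 3) (.e (nat_lit 516131) (nat_lit 3) (.e (nat_lit 221211) (nat_lit 22) (.e (nat_lit 196661) (nat_lit 12) (.e (nat_lit 57361) (nat_lit 0) .nil)))))))) (.g (nat_lit 0) .nil .nil))) 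
(.lf (nat_lit 112252) (.g (nat_lit 1315) (.e (nat_lit 5598) (nat_lit 310) (.e (nat_lit 163915) (nat_lit 12) (.e (nat_lit 426306) (nat_lit 12) (.e (nat_lit 475208) (nat_lit 41) (.e (nat_lit 712753) (nat_lit 30) (.e (nat_lit 450569) (nat_lit 0) .nil)))))) (.g (nat_lit 4) .nil .nil))))))) (.nd (nat_lit 2) (.nd (nat_lit 3) (.nd (nat_lit 4) (.nd (nat_lit 5) 
(.lf (nat_lit 112194) (.g (nat_lit 3493) (.e (nat_lit 5597) (nat_lit 310) (.e (nat_lit 163908) (nat_lit 12) (.e (nat_lit 426338) (nat_lit 14) (.e (nat_lit 491549) (nat_lit 9) (.e (nat_lit 336432) (nat_lit 30) (.e (nat_lit 450569) (nat_lit 0) .nil)))))) (.g (nat_lit 0) .nil .nil))) 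
(.lf (nat_lit 112226) (.g (nat_lit 2849) (.e (nat_lit 5598) (nat_lit 310) (.e (nat_lit 163869) (nat_lit 2) (.e (nat_lit 196670) (nat_lit 14) (.e (nat_lit 73754) (nat_lit 8) (.e (nat_lit 557105) (nat_lit 14) .nil))))) .nil))) (.nd (nat_lit 5) 
(.lf (nat_lit 112210) (.g (nat_lit 2532) (.e (nat_lit 5598) (nat_lit 310) (.e (nat_lit 163867) (nat_lit 2) (.e (nat_lit 196670) (nat_lit 14) (.e (nat_lit 73753) (nat_lit 8) (.e (nat_lit 557103) (nat_lit 14) (.e (nat_lit 180250) (nat_lit 10) (.e (nat_lit 573478) (nat_lit 12) (.e (nat_lit 57360) (nat_lit 0) .nil)))))))) (.g (nat_lit 4) .nil .nil))) 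
(.lf (nat_lit 112242) (.g (nat_lit 1847) (.e (nat_lit 5598) (nat_lit 310) (.e (nat_lit 163905) (nat_lit 12) (.e (nat_lit 426555) (nat_lit 32) (.e (nat_lit 376865) (nat_lit 22) .nil)))) .nil)))) (.nd (nat_lit 4) (.nd (nat_lit 5) 
(.lf (nat_lit 112202) (.g (nat_lit 4790) (.e (nat_lit 5598) (nat_lit 310) (.e (nat_lit 163867) (nat_lit 2) (.e (nat_lit 196670) (nat_lit 14) (.e (nat_lit 73746) (nat_lit 3) (.e (nat_lit 516129) (nat_lit 3) (.e (nat_lit 221210) (nat_lit 22) (.e (nat_lit 196661) (nat_lit 12) (.e (nat_lit 57361) (nat_lit 0) .nil)))))))) (.g (nat_lit 8) .nil .nil))) 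
(.lf (nat_lit 112234) (.g (nat_lit 2013) (.e (nat_lit 5598) (nat_lit 310) (.e (nat_lit 163873) (nat_lit 3) (.e (nat_lit 204872) (nat_lit 30) (.e (nat_lit 368676) (nat_lit 21) (.e (nat_lit 516131) (nat_lit 3) (.e (nat_lit 221215) (nat_lit 23) (.e (nat_lit 204821) (nat_lit 17) (.e (nat_lit 1086) (nat_lit 81) .nil)))))))) (.g (nat_lit 4) .nil .nil)))) (.nd (nat_lit 5) 
(.lf (nat_lit 112218) (.g (nat_lit 4593) (.e (nat_lit 5598) (nat_lit 310) (.e (nat_lit 163869) (nat_lit 2) (.e (nat_lit 196670) (nat_lit 14) (.e (nat_lit 73746) (nat_lit 3) (.e (nat_lit 516129) (nat_lit 3) (.e (nat_lit 221210) (nat_lit 22) (.e (nat_lit 196661) (nat_lit 12) (.e (nat_lit 57361) (nat_lit 0) .nil)))))))) (.g (nat_lit 8) .nil .nil))) 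
(.lf (nat_lit 112250) (.g (nat_lit 1950) (.e (nat_lit 5598) (nat_lit 310) (.e (nat_lit 163915) (nat_lit 12) (.e (nat_lit 426306) (nat_lit 12) (.e (nat_lit 475207) (nat_lit 41) (.e (nat_lit 712753) (nat_lit 30) (.e (nat_lit 450569) (nat_lit 0) .nil)))))) (.g (nat_lit 5) .nil .nil)))))) (.nd (nat_lit 3) (.nd (nat_lit 4) (.nd (nat_lit 5) 
(.lf (nat_lit 112198) (.g (nat_lit 2895) (.e (nat_lit 5597) (nat_lit 310) (.e (nat_lit 163945) (nat_lit 20) (.e (nat_lit 491566) (nat_lit 12) (.e (nat_lit 385105) (nat_lit 50) (.e (nat_lit 786481) (nat_lit 30) (.e (nat_lit 360457) (nat_lit 0) .nil)))))) (.g (nat_lit 6) .nil .nil))) 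
(.lf (nat_lit 112230) (.g (nat_lit 2658) (.e (nat_lit 5598) (nat_lit 310) (.e (nat_lit 163873) (nat_lit 3) (.e (nat_lit 204861) (nat_lit 26) (.e (nat_lit 336075) (nat_lit 9) (.e (nat_lit 336367) (nat_lit 27) (.e (nat_lit 426533) (nat_lit 28) (.e (nat_lit 344104) (nat_lit 18) .nil))))))) (.g (nat_lit 6) .nil .nil)))) (.nd (nat_lit 5) 
(.lf (nat_lit 112214) (.g (nat_lit 4366) (.e (nat_lit 5598) (nat_lit 310) (.e (nat_lit 163867) (nat_lit 2) (.e (nat_lit 196670) (nat_lit 14) (.e (nat_lit 73754) (nat_lit 8) (.e (nat_lit 557105) (nat_lit 14) (.e (nat_lit 180251) (nat_lit 10) (.e (nat_lit 573477) (nat_lit 12) (.e (nat_lit 57361) (nat_lit 0) .nil)))))))) (.g (nat_lit 8) .nil .nil))) 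
(.lf (nat_lit 112246) (.g (nat_lit 807) (.e (nat_lit 5598) (nat_lit 310) (.e (nat_lit 163913) (nat_lit 12) (.e (nat_lit 426541) (nat_lit 29) .nil))) .nil)))) (.nd (nat_lit 4) (.nd (nat_lit 5) 
(.lf (nat_lit 112206) (.g (nat_lit 4215) (.e (nat_lit 5598) (nat_lit 310) (.e (nat_lit 163867) (nat_lit 2) (.e (nat_lit 196670) (nat_lit 14) (.e (nat_lit 73746) (nat_lit 3) (.e (nat_lit 516131) (nat_lit 3) (.e (nat_lit 221215) (nat_lit 23) (.e (nat_lit 204821) (nat_lit 17) (.e (nat_lit 1086) (nat_lit 81) .nil)))))))) (.g (nat_lit 7) .nil .nil))) 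
(.lf (nat_lit 112238) (.g (nat_lit 1954) (.e (nat_lit 5598) (nat_lit 310) (.e (nat_lit 163874) (nat_lit 3) (.e (nat_lit 204872) (nat_lit 30) (.e (nat_lit 368676) (nat_lit 21) (.e (nat_lit 516131) (nat_lit 3) (.e (nat_lit 221215) (nat_lit 23) (.e (nat_lit 204821) (nat_lit 17) (.e (nat_lit 1086) (nat_lit 81) .nil)))))))) (.g (nat_lit 4) .nil .nil)))) (.nd (nat_lit 5) 
(.lf (nat_lit 112222) (.g (nat_lit 2661) (.e (nat_lit 5598) (nat_lit 310) (.e (nat_lit 163869) (nat_lit 2) (.e (nat_lit 196670) (nat_lit 14) (.e (nat_lit 73753) (nat_lit 8) (.e (nat_lit 557103) (nat_lit 14) .nil))))) .nil)) 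
(.lf (nat_lit 112254) (.g (nat_lit 3265) (.e (nat_lit 5598) (nat_lit 310) (.e (nat_lit 163915) (nat_lit 12) (.e (nat_lit 426306) (nat_lit 12) (.e (nat_lit 475210) (nat_lit 41) (.e (nat_lit 712755) (nat_lit 30) (.e (nat_lit 450569) (nat_lit 0) .nil)))))) (.g (nat_lit 6) .nil .nil)))))))) (.nd (nat_lit 1) (.nd (nat_lit 2) (.nd (nat_lit 3) (.nd (nat_lit 4) (.nd (nat_lit 5) 
(.lf (nat_lit 112193) (.g (nat_lit 2908) (.e (nat_lit 5597) (nat_lit 310) (.e (nat_lit 163905) (nat_lit 12) (.e (nat_lit 426555) (nat_lit 32) (.e (nat_lit 376865) (nat_lit 22) (.e (nat_lit 90160) (nat_lit 11) .nil))))) .nil)) 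
(.lf (nat_lit 112225) (.g (nat_lit 2198) (.e (nat_lit 5598) (nat_lit 310) (.e (nat_lit 163869) (nat_lit 2) (.e (nat_lit 196670) (nat_lit 14) (.e (nat_lit 73754) (nat_lit 8) .nil)))) .nil))) (.nd (nat_lit 5) 
(.lf (nat_lit 112209) (.g (nat_lit 2615) (.e (nat_lit 5598) (nat_lit 310) (.e (nat_lit 163867) (nat_lit 2) (.e (nat_lit 196670) (nat_lit 14) (.e (nat_lit 73753) (nat_lit 8) (.e (nat_lit 557103) (nat_lit 14) (.e (nat_lit 180250) (nat_lit 10) (.e (nat_lit 573477) (nat_lit 12) (.e (nat_lit 57360) (nat_lit 0) .nil)))))))) (.g (nat_lit 4) .nil .nil))) 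
(.lf (nat_lit 112241) (.g (nat_lit 1861) (.e (nat_lit 5598) (nat_lit 310) (.e (nat_lit 163905) (nat_lit 12) (.e (nat_lit 426555) (nat_lit 32) (.e (nat_lit 376862) (nat_lit 22) .nil)))) .nil)))) (.nd (nat_lit 4) (.nd (nat_lit 5) 
(.lf (nat_lit 112201) (.g (nat_lit 2399) (.e (nat_lit 5598) (nat_lit 310) (.e (nat_lit 163867) (nat_lit 2) (.e (nat_lit 196670) (nat_lit 14) (.e (nat_lit 73746) (nat_lit 3) (.e (nat_lit 516129) (nat_lit 3) (.e (nat_lit 221210) (nat_lit 22) (.e (nat_lit 196661) (nat_lit 12) (.e (nat_lit 57360) (nat_lit 0) .nil)))))))) (.g (nat_lit 4) .nil .nil))) 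
(.lf (nat_lit 112233) (.g (nat_lit 2675) (.e (nat_lit 5598) (nat_lit 310) (.e (nat_lit 163873) (nat_lit 3) (.e (nat_lit 204863) (nat_lit 27) (.e (nat_lit 344117) (nat_lit 21) (.e (nat_lit 516130) (nat_lit 3) .nil))))) .nil))) (.nd (nat_lit 5) 
(.lf (nat_lit 112217) (.g (nat_lit 2166) (.e (nat_lit 5598) (nat_lit 310) (.e (nat_lit 163869) (nat_lit 2) (.e (nat_lit 196670) (nat_lit 14) (.e (nat_lit 73746) (nat_lit 3) (.e (nat_lit 516129) (nat_lit 3) .nil))))) .nil)) 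
(.lf (nat_lit 112249) (.g (nat_lit 1355) (.e (nat_lit 5598) (nat_lit 310) (.e (nat_lit 163915) (nat_lit 12) (.e (nat_lit 426306) (nat_lit 12) (.e (nat_lit 475207) (nat_lit 41) (.e (nat_lit 712753) (nat_lit 30) (.e (nat_lit 450568) (nat_lit 0) .nil)))))) (.g (nat_lit 4) .nil .nil)))))) (.nd (nat_lit 3) (.nd (nat_lit 4) (.nd (nat_lit 5) 
(.lf (nat_lit 112197) (.g (nat_lit 575) (.e (nat_lit 5597) (nat_lit 310) (.e (nat_lit 163932) (nat_lit 17) (.e (nat_lit 466947) (nat_lit 0) .nil))) .nil)) 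
(.lf (nat_lit 112229) (.g (nat_lit 754) (.e (nat_lit 5598) (nat_lit 310) (.e (nat_lit 163873) (nat_lit 3) (.e (nat_lit 204853) (nat_lit 26) .nil))) .nil))) (.nd (nat_lit 5) 
(.lf (nat_lit 112213) (.g (nat_lit 2141) (.e (nat_lit 5598) (nat_lit 310) (.e (nat_lit 163867) (nat_lit 2) (.e (nat_lit 196670) (nat_lit 14) (.e (nat_lit 73754) (nat_lit 8) (.e (nat_lit 557103) (nat_lit 14) (.e (nat_lit 180250) (nat_lit 10) (.e (nat_lit 573477) (nat_lit 12) (.e (nat_lit 57361) (nat_lit 0) .nil)))))))) (.g (nat_lit 4) .nil .nil))) 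
(.lf (nat_lit 112245) (.g (nat_lit 1912) (.e (nat_lit 5598) (nat_lit 310) (.e (nat_lit 163913) (nat_lit 12) (.e (nat_lit 426318) (nat_lit 12) (.e (nat_lit 475207) (nat_lit 41) (.e (nat_lit 712755) (nat_lit 30) (.e (nat_lit 450569) (nat_lit 0) .nil)))))) (.g (nat_lit 5) .nil .nil))))) (.nd (nat_lit 4) (.nd (nat_lit 5) 
(.lf (nat_lit 112205) (.g (nat_lit 3107) (.e (nat_lit 5598) (nat_lit 310) (.e (nat_lit 163867) (nat_lit 2) (.e (nat_lit 196670) (nat_lit 14) (.e (nat_lit 73746) (nat_lit 3) (.e (nat_lit 516131) (nat_lit 3) (.e (nat_lit 221212) (nat_lit 22) (.e (nat_lit 196661) (nat_lit 12) (.e (nat_lit 57361) (nat_lit 0) .nil)))))))) (.g (nat_lit 5) .nil .nil))) 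
(.lf (nat_lit 112237) (.g (nat_lit 2397) (.e (nat_lit 5598) (nat_lit 310) (.e (nat_lit 163874) (nat_lit 3) (.e (nat_lit 204863) (nat_lit 27) (.e (nat_lit 344117) (nat_lit 21) (.e (nat_lit 516130) (nat_lit 3) (.e (nat_lit 221214) (nat_lit 23) (.e (nat_lit 204821) (nat_lit 17) (.e (nat_lit 1086) (nat_lit 81) .nil)))))))) (.g (nat_lit 4) .nil .nil)))) (.nd (nat_lit 5) 
(.lf (nat_lit 112221) (.g (nat_lit 2222) (.e (nat_lit 5598) (nat_lit 310) (.e (nat_lit 163869) (nat_lit 2) (.e (nat_lit 196670) (nat_lit 14) (.e (nat_lit 73748) (nat_lit 3) .nil)))) .nil)) 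
(.lf (nat_lit 112253) (.g (nat_lit 2489) (.e (nat_lit 5598) (nat_lit 310) (.e (nat_lit 163915) (nat_lit 12) (.e (nat_lit 426306) (nat_lit 12) (.e (nat_lit 475210) (nat_lit 41) (.e (nat_lit 712755) (nat_lit 30) (.e (nat_lit 450568) (nat_lit 0) .nil)))))) (.g (nat_lit 5) .nil .nil))))))) (.nd (nat_lit 2) (.nd (nat_lit 3) (.nd (nat_lit 4) (.nd (nat_lit 5) 
(.lf (nat_lit 112195) (.g (nat_lit 721) (.e (nat_lit 5597) (nat_lit 310) (.e (nat_lit 163919) (nat_lit 14) (.e (nat_lit 442374) (nat_lit 0) .nil))) .nil)) 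
(.lf (nat_lit 112227) (.g (nat_lit 3807) (.e (nat_lit 5598) (nat_lit 310) (.e (nat_lit 163869) (nat_lit 2) (.e (nat_lit 196670) (nat_lit 14) (.e (nat_lit 73754) (nat_lit 8) (.e (nat_lit 557105) (nat_lit 14) (.e (nat_lit 180252) (nat_lit 10) (.e (nat_lit 573475) (nat_lit 12) (.e (nat_lit 57360) (nat_lit 0) .nil)))))))) (.g (nat_lit 5) .nil .nil)))) (.nd (nat_lit 5) 
(.lf (nat_lit 112211) (.g (nat_lit 2689) (.e (nat_lit 5598) (nat_lit 310) (.e (nat_lit 163867) (nat_lit 2) (.e (nat_lit 196670) (nat_lit 14) (.e (nat_lit 73753) (nat_lit 8) (.e (nat_lit 557105) (nat_lit 14) (.e (nat_lit 180251) (nat_lit 10) (.e (nat_lit 573477) (nat_lit 12) (.e (nat_lit 57360) (nat_lit 0) .nil)))))))) (.g (nat_lit 4) .nil .nil))) 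
(.lf (nat_lit 112243) (.g (nat_lit 2923) (.e (nat_lit 5598) (nat_lit 310) (.e (nat_lit 163905) (nat_lit 12) (.e (nat_lit 426555) (nat_lit 32) (.e (nat_lit 376865) (nat_lit 22) (.e (nat_lit 90160) (nat_lit 11) (.e (nat_lit 24588) (nat_lit 0) (.e (nat_lit 1086) (nat_lit 81) .nil))))))) (.g (nat_lit 4) .nil .nil))))) (.nd (nat_lit 4) (.nd (nat_lit 5) 
(.lf (nat_lit 112203) (.g (nat_lit 4513) (.e (nat_lit 5598) (nat_lit 310) (.e (nat_lit 163867) (nat_lit 2) (.e (nat_lit 196670) (nat_lit 14) (.e (nat_lit 73746) (nat_lit 3) (.e (nat_lit 516129) (nat_lit 3) (.e (nat_lit 221215) (nat_lit 23) (.e (nat_lit 204821) (nat_lit 17) (.e (nat_lit 1086) (nat_lit 81) .nil)))))))) (.g (nat_lit 6) .nil .nil))) 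
(.lf (nat_lit 112235) (.g (nat_lit 2207) (.e (nat_lit 5598) (nat_lit 310) (.e (nat_lit 163874) (nat_lit 3) (.e (nat_lit 204861) (nat_lit 26) (.e (nat_lit 336214) (nat_lit 13) (.e (nat_lit 401152) (nat_lit 10) (.e (nat_lit 344104) (nat_lit 18) .nil)))))) (.g (nat_lit 4) .nil .nil)))) (.nd (nat_lit 5) 
(.lf (nat_lit 112219) (.g (nat_lit 4300) (.e (nat_lit 5598) (nat_lit 310) (.e (nat_lit 163869) (nat_lit 2) (.e (nat_lit 196670) (nat_lit 14) (.e (nat_lit 73746) (nat_lit 3) (.e (nat_lit 516129) (nat_lit 3) (.e (nat_lit 221215) (nat_lit 23) (.e (nat_lit 204821) (nat_lit 17) (.e (nat_lit 1086) (nat_lit 81) .nil)))))))) (.g (nat_lit 6) .nil .nil))) 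
(.lf (nat_lit 112251) (.g (nat_lit 2600) (.e (nat_lit 5598) (nat_lit 310) (.e (nat_lit 163915) (nat_lit 12) (.e (nat_lit 426306) (nat_lit 12) (.e (nat_lit 475207) (nat_lit 41) (.e (nat_lit 712755) (nat_lit 30) (.e (nat_lit 450569) (nat_lit 0) .nil)))))) (.g (nat_lit 6) .nil .nil)))))) (.nd (nat_lit 3) (.nd (nat_lit 4) (.nd (nat_lit 5) 
(.lf (nat_lit 112199) (.g (nat_lit 3309) (.e (nat_lit 5597) (nat_lit 310) (.e (nat_lit 163945) (nat_lit 20) (.e (nat_lit 491566) (nat_lit 12) (.e (nat_lit 385105) (nat_lit 50) (.e (nat_lit 786483) (nat_lit 30) (.e (nat_lit 360457) (nat_lit 0) .nil)))))) (.g (nat_lit 0) .nil .nil))) 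
(.lf (nat_lit 112231) (.g (nat_lit 3153) (.e (nat_lit 5598) (nat_lit 310) (.e (nat_lit 163873) (nat_lit 3) (.e (nat_lit 204861) (nat_lit 26) (.e (nat_lit 336076) (nat_lit 9) (.e (nat_lit 336367) (nat_lit 27) (.e (nat_lit 426533) (nat_lit 28) (.e (nat_lit 344104) (nat_lit 18) .nil))))))) (.g (nat_lit 6) .nil .nil)))) (.nd (nat_lit 5) 
(.lf (nat_lit 112215) (.g (nat_lit 2845) (.e (nat_lit 5598) (nat_lit 310) (.e (nat_lit 163867) (nat_lit 2) (.e (nat_lit 196670) (nat_lit 14) (.e (nat_lit 73754) (nat_lit 8) (.e (nat_lit 557105) (nat_lit 14) (.e (nat_lit 180251) (nat_lit 10) (.e (nat_lit 573478) (nat_lit 12) (.e (nat_lit 57360) (nat_lit 0) .nil)))))))) (.g (nat_lit 5) .nil .nil))) 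
(.lf (nat_lit 112247) (.g (nat_lit 1571) (.e (nat_lit 5598) (nat_lit 310) (.e (nat_lit 163913) (nat_lit 12) (.e (nat_lit 426541) (nat_lit 29) (.e (nat_lit 352315) (nat_lit 23) (.e (nat_lit 106240) (nat_lit 10) (.e (nat_lit 344104) (nat_lit 18) .nil)))))) (.g (nat_lit 4) .nil .nil))))) (.nd (nat_lit 4) (.nd (nat_lit 5) 
(.lf (nat_lit 112207) (.g (nat_lit 2172) (.e (nat_lit 5598) (nat_lit 310) (.e (nat_lit 163867) (nat_lit 2) (.e (nat_lit 196670) (nat_lit 14) (.e (nat_lit 73748) (nat_lit 3) (.e (nat_lit 516131) (nat_lit 3) .nil))))) .nil)) 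
(.lf (nat_lit 112239) (.g (nat_lit 2157) (.e (nat_lit 5598) (nat_lit 310) (.e (nat_lit 163902) (nat_lit 12) (.e (nat_lit 426545) (nat_lit 30) (.e (nat_lit 360475) (nat_lit 8) (.e (nat_lit 564992) (nat_lit 5) .nil))))) .nil))) (.nd (nat_lit 5) 
(.lf (nat_lit 112223) (.g (nat_lit 2528) (.e (nat_lit 5598) (nat_lit 310) (.e (nat_lit 163869) (nat_lit 2) (.e (nat_lit 196670) (nat_lit 14) (.e (nat_lit 73753) (nat_lit 8) (.e (nat_lit 557105) (nat_lit 14) .nil))))) .nil)) 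
(.lf (nat_lit 112255) (.g (nat_lit 2114) (.e (nat_lit 5598) (nat_lit 310) (.e (nat_lit 163915) (nat_lit 12) (.e (nat_lit 426306) (nat_lit 12) (.e (nat_lit 475211) (nat_lit 41) (.e (nat_lit 712755) (nat_lit 30) (.e (nat_lit 450568) (nat_lit 0) .nil)))))) (.g (nat_lit 5) .nil .nil)))))))))

noncomputable def tv1515 : DT := (.nd (nat_lit 0) (.nd (nat_lit 1) (.nd (nat_lit 2) (.nd (nat_lit 3) (.nd (nat_lit 4) (.nd (nat_lit 5) 
(.lf (nat_lit 112256) (.g (nat_lit 3012) (.e (nat_lit 5598) (nat_lit 310) (.e (nat_lit 163915) (nat_lit 12) (.e (nat_lit 426306) (nat_lit 12) (.e (nat_lit 475211) (nat_lit 41) (.e (nat_lit 712755) (nat_lit 30) (.e (nat_lit 450569) (nat_lit 0) .nil)))))) (.g (nat_lit 0) .nil .nil))) 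
(.lf (nat_lit 112288) (.g (nat_lit 2338) (.e (nat_lit 5599) (nat_lit 310) (.e (nat_lit 163869) (nat_lit 2) (.e (nat_lit 196669) (nat_lit 14) (.e (nat_lit 73755) (nat_lit 8) (.e (nat_lit 557103) (nat_lit 14) (.e (nat_lit 180250) (nat_lit 10) (.e (nat_lit 573477) (nat_lit 12) (.e (nat_lit 57361) (nat_lit 0) .nil)))))))) (.g (nat_lit 4) .nil .nil)))) (.nd (nat_lit 5) 
(.lf (nat_lit 112272) (.g (nat_lit 2399) (.e (nat_lit 5599) (nat_lit 310) (.e (nat_lit 163867) (nat_lit 2) (.e (nat_lit 196670) (nat_lit 14) (.e (nat_lit 73746) (nat_lit 3) (.e (nat_lit 516131) (nat_lit 3) .nil))))) .nil)) 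
(.lf (nat_lit 112304) (.g (nat_lit 4405) (.e (nat_lit 5599) (nat_lit 310) (.e (nat_lit 163869) (nat_lit 2) (.e (nat_lit 196670) (nat_lit 14) (.e (nat_lit 73754) (nat_lit 8) (.e (nat_lit 557105) (nat_lit 14) (.e (nat_lit 180251) (nat_lit 10) (.e (nat_lit 573477) (nat_lit 12) (.e (nat_lit 57360) (nat_lit 0) .nil)))))))) (.g (nat_lit 6) .nil .nil))))) (.nd (nat_lit 4) (.nd (nat_lit 5) 
(.lf (nat_lit 112264) (.g (nat_lit 920) (.e (nat_lit 5598) (nat_lit 310) (.e (nat_lit 163920) (nat_lit 14) (.e (nat_lit 442377) (nat_lit 0) .nil))) .nil)) 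
(.lf (nat_lit 112296) (.g (nat_lit 2973) (.e (nat_lit 5599) (nat_lit 310) (.e (nat_lit 163869) (nat_lit 2) (.e (nat_lit 196670) (nat_lit 14) (.e (nat_lit 73746) (nat_lit 3) (.e (nat_lit 516131) (nat_lit 3) (.e (nat_lit 221211) (nat_lit 22) (.e (nat_lit 196661) (nat_lit 12) (.e (nat_lit 57360) (nat_lit 0) .nil)))))))) (.g (nat_lit 6) .nil .nil)))) (.nd (nat_lit 5) 
(.lf (nat_lit 112280) (.g (nat_lit 4197) (.e (nat_lit 5599) (nat_lit 310) (.e (nat_lit 163867) (nat_lit 2) (.e (nat_lit 196670) (nat_lit 14) (.e (nat_lit 73754) (nat_lit 8) (.e (nat_lit 557105) (nat_lit 14) (.e (nat_lit 180252) (nat_lit 10) (.e (nat_lit 573475) (nat_lit 12) (.e (nat_lit 57360) (nat_lit 0) .nil)))))))) (.g (nat_lit 7) .nil .nil))) 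
(.lf (nat_lit 112312) (.g (nat_lit 2154) (.e (nat_lit 5599) (nat_lit 310) (.e (nat_lit 163874) (nat_lit 3) (.e (nat_lit 204862) (nat_lit 27) (.e (nat_lit 344117) (nat_lit 21) (.e (nat_lit 516130) (nat_lit 3) (.e (nat_lit 221211) (nat_lit 22) (.e (nat_lit 196661) (nat_lit 12) (.e (nat_lit 57361) (nat_lit 0) .nil)))))))) (.g (nat_lit 4) .nil .nil)))))) 
(.nd (nat_lit 3) (.nd (nat_lit 4) (.nd (nat_lit 5) 
(.lf (nat_lit 112260) (.g (nat_lit 688) (.e (nat_lit 5598) (nat_lit 310) (.e (nat_lit 163920) (nat_lit 14) (.e (nat_lit 442374) (nat_lit 0) .nil))) .nil)) 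
(.lf (nat_lit 112292) (.g (nat_lit 4826) (.e (nat_lit 5599) (nat_lit 310) (.e (nat_lit 163869) (nat_lit 2) (.e (nat_lit 196670) (nat_lit 14) (.e (nat_lit 73746) (nat_lit 3) (.e (nat_lit 516129) (nat_lit 3) (.e (nat_lit 221210) (nat_lit 22) (.e (nat_lit 196661) (nat_lit 12) (.e (nat_lit 57361) (nat_lit 0) .nil)))))))) (.g (nat_lit 0) .nil .nil)))) (.nd (nat_lit 5) 
(.lf (nat_lit 112276) (.g (nat_lit 2820) (.e (nat_lit 5599) (nat_lit 310) (.e (nat_lit 163867) (nat_lit 2) (.e (nat_lit 196670) (nat_lit 14) (.e (nat_lit 73753) (nat_lit 8) (.e (nat_lit 557103) (nat_lit 14) (.e (nat_lit 180250) (nat_lit 10) (.e (nat_lit 573477) (nat_lit 12) (.e (nat_lit 57361) (nat_lit 0) .nil)))))))) (.g (nat_lit 4) .nil .nil))) 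
(.lf (nat_lit 112308) (.g (nat_lit 5345) (.e (nat_lit 5599) (nat_lit 310) (.e (nat_lit 163869) (nat_lit 2) (.e (nat_lit 196670) (nat_lit 14) (.e (nat_lit 73754) (nat_lit 8) (.e (nat_lit 557105) (nat_lit 14) (.e (nat_lit 180252) (nat_lit 10) (.e (nat_lit 573475) (nat_lit 12) (.e (nat_lit 57360) (nat_lit 0) .nil)))))))) (.g (nat_lit 7) .nil .nil))))) (.nd (nat_lit 4) (.nd (nat_lit 5) 
(.lf (nat_lit 112268) (.g (nat_lit 1642) (.e (nat_lit 5599) (nat_lit 310) (.e (nat_lit 163842) (nat_lit 0) (.e (nat_lit 7065) (nat_lit 377) (.e (nat_lit 1349) (nat_lit 102) (.e (nat_lit 286748) (nat_lit 9) (.e (nat_lit 336295) (nat_lit 15) (.e (nat_lit 7936) (nat_lit 393) (.e (nat_lit 180232) (nat_lit 0) .nil)))))))) (.g (nat_lit 4) .nil .nil))) 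
(.lf (nat_lit 112300) (.g (nat_lit 3724) (.e (nat_lit 5599) (nat_lit 310) (.e (nat_lit 163869) (nat_lit 2) (.e (nat_lit 196670) (nat_lit 14) (.e (nat_lit 73753) (nat_lit 8) (.e (nat_lit 557103) (nat_lit 14) (.e (nat_lit 180250) (nat_lit 10) (.e (nat_lit 573475) (nat_lit 12) (.e (nat_lit 57360) (nat_lit 0) .nil)))))))) (.g (nat_lit 6) .nil .nil)))) (.nd (nat_lit 5) 
(.lf (nat_lit 112284) (.g (nat_lit 3262) (.e (nat_lit 5599) (nat_lit 310) (.e (nat_lit 163869) (nat_lit 2) (.e (nat_lit 196668) (nat_lit 14) (.e (nat_lit 73753) (nat_lit 8) (.e (nat_lit 557103) (nat_lit 14) (.e (nat_lit 180250) (nat_lit 10) (.e (nat_lit 573478) (nat_lit 12) (.e (nat_lit 57360) (nat_lit 0) .nil)))))))) (.g (nat_lit 4) .nil .nil))) 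
(.lf (nat_lit 112316) (.g (nat_lit 2486) (.e (nat_lit 5599) (nat_lit 310) (.e (nat_lit 163874) (nat_lit 3) (.e (nat_lit 204863) (nat_lit 27) (.e (nat_lit 344132) (nat_lit 26) (.e (nat_lit 557105) (nat_lit 14) .nil))))) .nil)))))) (.nd (nat_lit 2) (.nd (nat_lit 3) (.nd (nat_lit 4) (.nd (nat_lit 5) 
(.lf (nat_lit 112258) (.g (nat_lit 2024) (.e (nat_lit 5598) (nat_lit 310) (.e (nat_lit 163919) (nat_lit 14) (.e (nat_lit 442374) (nat_lit 0) (.e (nat_lit 2175) (nat_lit 143) (.e (nat_lit 712753) (nat_lit 30) (.e (nat_lit 450568) (nat_lit 0) .nil)))))) (.g (nat_lit 4) .nil .nil))) 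
(.lf (nat_lit 112290) (.g (nat_lit 2037) (.e (nat_lit 5599) (nat_lit 310) (.e (nat_lit 163869) (nat_lit 2) (.e (nat_lit 196670) (nat_lit 14) (.e (nat_lit 73746) (nat_lit 3) (.e (nat_lit 516129) (nat_lit 3) (.e (nat_lit 221210) (nat_lit 22) (.e (nat_lit 196660) (nat_lit 12) (.e (nat_lit 57361) (nat_lit 0) .nil)))))))) (.g (nat_lit 4) .nil .nil)))) (.nd (nat_lit 5) 
(.lf (nat_lit 112274) (.g (nat_lit 2803) (.e (nat_lit 5599) (nat_lit 310) (.e (nat_lit 163867) (nat_lit 2) (.e (nat_lit 196670) (nat_lit 14) (.e (nat_lit 73753) (nat_lit 8) (.e (nat_lit 557103) (nat_lit 14) (.e (nat_lit 180250) (nat_lit 10) (.e (nat_lit 573475) (nat_lit 12) (.e (nat_lit 57360) (nat_lit 0) .nil)))))))) (.g (nat_lit 4) .nil .nil))) 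
(.lf (nat_lit 112306) (.g (nat_lit 4245) (.e (nat_lit 5599) (nat_lit 310) (.e (nat_lit 163869) (nat_lit 2) (.e (nat_lit 196670) (nat_lit 14) (.e (nat_lit 73754) (nat_lit 8) (.e (nat_lit 557105) (nat_lit 14) (.e (nat_lit 180251) (nat_lit 10) (.e (nat_lit 573478) (nat_lit 12) (.e (nat_lit 57360) (nat_lit 0) .nil)))))))) (.g (nat_lit 6) .nil .nil))))) (.nd (nat_lit 4) (.nd (nat_lit 5) 
(.lf (nat_lit 112266) (.g (nat_lit 526) (.e (nat_lit 5598) (nat_lit 310) (.e (nat_lit 163932) (nat_lit 17) (.e (nat_lit 466947) (nat_lit 0) .nil))) .nil)) 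
(.lf (nat_lit 112298) (.g (nat_lit 1382) (.e (nat_lit 5599) (nat_lit 310) (.e (nat_lit 163869) (nat_lit 2) (.e (nat_lit 196670) (nat_lit 14) (.e (nat_lit 73753) (nat_lit 8) .nil)))) .nil))) (.nd (nat_lit 5) 
(.lf (nat_lit 112282) (.g (nat_lit 3281) (.e (nat_lit 5599) (nat_lit 310) (.e (nat_lit 163869) (nat_lit 2) (.e (nat_lit 196668) (nat_lit 14) (.e (nat_lit 73753) (nat_lit 8) (.e (nat_lit 557103) (nat_lit 14) (.e (nat_lit 180250) (nat_lit 10) (.e (nat_lit 573475) (nat_lit 12) (.e (nat_lit 57360) (nat_lit 0) .nil)))))))) (.g (nat_lit 4) .nil .nil))) 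
(.lf (nat_lit 112314) (.g (nat_lit 2793) (.e (nat_lit 5599) (nat_lit 310) (.e (nat_lit 163874) (nat_lit 3) (.e (nat_lit 204863) (nat_lit 27) (.e (nat_lit 344117) (nat_lit 21) (.e (nat_lit 516130) (nat_lit 3) (.e (nat_lit 221211) (nat_lit 22) (.e (nat_lit 196661) (nat_lit 12) (.e (nat_lit 57361) (nat_lit 0) .nil)))))))) (.g (nat_lit 4) .nil .nil)))))) 
(.nd (nat_lit 3) (.nd (nat_lit 4) (.nd (nat_lit 5) 
(.lf (nat_lit 112262) (.g (nat_lit 2155) (.e (nat_lit 5598) (nat_lit 310) (.e (nat_lit 163920) (nat_lit 14) (.e (nat_lit 442374) (nat_lit 0) (.e (nat_lit 2175) (nat_lit 143) (.e (nat_lit 712755) (nat_lit 30) (.e (nat_lit 450568) (nat_lit 0) .nil)))))) (.g (nat_lit 4) .nil .nil))) 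
(.lf (nat_lit 112294) (.g (nat_lit 2021) (.e (nat_lit 5599) (nat_lit 310) (.e (nat_lit 163869) (nat_lit 2) (.e (nat_lit 196670) (nat_lit 14) (.e (nat_lit 73746) (nat_lit 3) (.e (nat_lit 516129) (nat_lit 3) (.e (nat_lit 221211) (nat_lit 22) (.e (nat_lit 196661) (nat_lit 12) (.e (nat_lit 57361) (nat_lit 0) .nil)))))))) (.g (nat_lit 4) .nil .nil)))) (.nd (nat_lit 5) 
(.lf (nat_lit 112278) (.g (nat_lit 2820) (.e (nat_lit 5599) (nat_lit 310) (.e (nat_lit 163867) (nat_lit 2) (.e (nat_lit 196670) (nat_lit 14) (.e (nat_lit 73753) (nat_lit 8) (.e (nat_lit 557105) (nat_lit 14) (.e (nat_lit 180251) (nat_lit 10) (.e (nat_lit 573478) (nat_lit 12) (.e (nat_lit 57360) (nat_lit 0) .nil)))))))) (.g (nat_lit 4) .nil .nil))) 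
(.lf (nat_lit 112310) (.g (nat_lit 2272) (.e (nat_lit 5599) (nat_lit 310) (.e (nat_lit 163874) (nat_lit 3) (.e (nat_lit 204861) (nat_lit 26) (.e (nat_lit 336214) (nat_lit 13) (.e (nat_lit 401152) (nat_lit 10) (.e (nat_lit 344104) (nat_lit 18) .nil)))))) (.g (nat_lit 4) .nil .nil))))) (.nd (nat_lit 4) (.nd (nat_lit 5) 
(.lf (nat_lit 112270) (.g (nat_lit 2368) (.e (nat_lit 5599) (nat_lit 310) (.e (nat_lit 163846) (nat_lit 0) (.e (nat_lit 6989) (nat_lit 377) (.e (nat_lit 1361) (nat_lit 102) (.e (nat_lit 286761) (nat_lit 13) (.e (nat_lit 393289) (nat_lit 25) (.e (nat_lit 458776) (nat_lit 18) .nil))))))) (.g (nat_lit 7) .nil .nil))) 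
(.lf (nat_lit 112302) (.g (nat_lit 4285) (.e (nat_lit 5599) (nat_lit 310) (.e (nat_lit 163869) (nat_lit 2) (.e (nat_lit 196670) (nat_lit 14) (.e (nat_lit 73753) (nat_lit 8) (.e (nat_lit 557105) (nat_lit 14) (.e (nat_lit 180252) (nat_lit 10) (.e (nat_lit 573475) (nat_lit 12) (.e (nat_lit 57360) (nat_lit 0) .nil)))))))) (.g (nat_lit 6) .nil .nil)))) (.nd (nat_lit 5) 
(.lf (nat_lit 112286) (.g (nat_lit 2363) (.e (nat_lit 5599) (nat_lit 310) (.e (nat_lit 163869) (nat_lit 2) (.e (nat_lit 196669) (nat_lit 14) (.e (nat_lit 73754) (nat_lit 8) (.e (nat_lit 557105) (nat_lit 14) (.e (nat_lit 180251) (nat_lit 10) (.e (nat_lit 573478) (nat_lit 12) (.e (nat_lit 57360) (nat_lit 0) .nil)))))))) (.g (nat_lit 5) .nil .nil))) 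
(.lf (nat_lit 112318) (.g (nat_lit 3220) (.e (nat_lit 5599) (nat_lit 310) (.e (nat_lit 163874) (nat_lit 3) (.e (nat_lit 204863) (nat_lit 27) (.e (nat_lit 344133) (nat_lit 26) (.e (nat_lit 557105) (nat_lit 14) (.e (nat_lit 180252) (nat_lit 10) (.e (nat_lit 573474) (nat_lit 12) (.e (nat_lit 57360) (nat_lit 0) .nil)))))))) (.g (nat_lit 4) .nil .nil)))))))) 
(.nd (nat_lit 1) (.nd (nat_lit 2) (.nd (nat_lit 3) (.nd (nat_lit 4) (.nd (nat_lit 5) 
(.lf (nat_lit 112257) (.g (nat_lit 609) (.e (nat_lit 5598) (nat_lit 310) (.e (nat_lit 163919) (nat_lit 14) (.e (nat_lit 442374) (nat_lit 0) .nil))) .nil)) 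
(.lf (nat_lit 112289) (.g (nat_lit 4567) (.e (nat_lit 5599) (nat_lit 310) (.e (nat_lit 163869) (nat_lit 2) (.e (nat_lit 196669) (nat_lit 14) (.e (nat_lit 73755) (nat_lit 8) (.e (nat_lit 557105) (nat_lit 14) (.e (nat_lit 180252) (nat_lit 10) (.e (nat_lit 573474) (nat_lit 12) (.e (nat_lit 57360) (nat_lit 0) .nil)))))))) (.g (nat_lit 7) .nil .nil)))) (.nd (nat_lit 5) 
(.lf (nat_lit 112273) (.g (nat_lit 2811) (.e (nat_lit 5599) (nat_lit 310) (.e (nat_lit 163867) (nat_lit 2) (.e (nat_lit 196670) (nat_lit 14) (.e (nat_lit 73746) (nat_lit 3) (.e (nat_lit 516131) (nat_lit 3) (.e (nat_lit 221211) (nat_lit 22) (.e (nat_lit 196661) (nat_lit 12) (.e (nat_lit 57361) (nat_lit 0) .nil)))))))) (.g (nat_lit 4) .nil .nil))) 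
(.lf (nat_lit 112305) (.g (nat_lit 4420) (.e (nat_lit 5599) (nat_lit 310) (.e (nat_lit 163869) (nat_lit 2) (.e (nat_lit 196670) (nat_lit 14) (.e (nat_lit 73754) (nat_lit 8) (.e (nat_lit 557105) (nat_lit 14) (.e (nat_lit 180251) (nat_lit 10) (.e (nat_lit 573477) (nat_lit 12) (.e (nat_lit 57361) (nat_lit 0) .nil)))))))) (.g (nat_lit 6) .nil .nil))))) (.nd (nat_lit 4) (.nd (nat_lit 5) 
(.lf (nat_lit 112265) (.g (nat_lit 473) (.e (nat_lit 5598) (nat_lit 310) (.e (nat_lit 163931) (nat_lit 17) (.e (nat_lit 466947) (nat_lit 0) .nil))) .nil)) 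
(.lf (nat_lit 112297) (.g (nat_lit 2366) (.e (nat_lit 5599) (nat_lit 310) (.e (nat_lit 163869) (nat_lit 2) (.e (nat_lit 196670) (nat_lit 14) (.e (nat_lit 73746) (nat_lit 3) (.e (nat_lit 516131) (nat_lit 3) (.e (nat_lit 221214) (nat_lit 23) (.e (nat_lit 204821) (nat_lit 17) (.e (nat_lit 1086) (nat_lit 81) .nil)))))))) (.g (nat_lit 4) .nil .nil)))) (.nd (nat_lit 5) 
(.lf (nat_lit 112281) (.g (nat_lit 2747) (.e (nat_lit 5599) (nat_lit 310) (.e (nat_lit 163867) (nat_lit 2) (.e (nat_lit 196670) (nat_lit 14) (.e (nat_lit 73755) (nat_lit 8) (.e (nat_lit 557105) (nat_lit 14) (.e (nat_lit 180252) (nat_lit 10) (.e (nat_lit 573474) (nat_lit 12) (.e (nat_lit 57360) (nat_lit 0) .nil)))))))) (.g (nat_lit 4) .nil .nil))) 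
(.lf (nat_lit 112313) (.g (nat_lit 2501) (.e (nat_lit 5599) (nat_lit 310) (.e (nat_lit 163874) (nat_lit 3) (.e (nat_lit 204863) (nat_lit 27) (.e (nat_lit 344117) (nat_lit 21) (.e (nat_lit 516129) (nat_lit 3) (.e (nat_lit 221210) (nat_lit 22) (.e (nat_lit 196661) (nat_lit 12) (.e (nat_lit 57361) (nat_lit 0) .nil)))))))) (.g (nat_lit 4) .nil .nil)))))) 
(.nd (nat_lit 3) (.nd (nat_lit 4) (.nd (nat_lit 5) 
(.lf (nat_lit 112261) (.g (nat_lit 1338) (.e (nat_lit 5598) (nat_lit 310) (.e (nat_lit 163920) (nat_lit 14) (.e (nat_lit 442374) (nat_lit 0) (.e (nat_lit 2160) (nat_lit 143) .nil)))) .nil)) 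
(.lf (nat_lit 112293) (.g (nat_lit 2638) (.e (nat_lit 5599) (nat_lit 310) (.e (nat_lit 163869) (nat_lit 2) (.e (nat_lit 196670) (nat_lit 14) (.e (nat_lit 73746) (nat_lit 3) (.e (nat_lit 516129) (nat_lit 3) (.e (nat_lit 221210) (nat_lit 22) (.e (nat_lit 196661) (nat_lit 12) (.e (nat_lit 65280) (nat_lit 0) .nil)))))))) (.g (nat_lit 4) .nil .nil)))) (.nd (nat_lit 5) 
(.lf (nat_lit 112277) (.g (nat_lit 2784) (.e (nat_lit 5599) (nat_lit 310) (.e (nat_lit 163867) (nat_lit 2) (.e (nat_lit 196670) (nat_lit 14) (.e (nat_lit 73753) (nat_lit 8) (.e (nat_lit 557103) (nat_lit 14) (.e (nat_lit 180250) (nat_lit 10) (.e (nat_lit 573478) (nat_lit 12) (.e (nat_lit 57360) (nat_lit 0) .nil)))))))) (.g (nat_lit 4) .nil .nil))) 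
(.lf (nat_lit 112309) (.g (nat_lit 3191) (.e (nat_lit 5599) (nat_lit 310) (.e (nat_lit 163874) (nat_lit 3) (.e (nat_lit 204861) (nat_lit 26) (.e (nat_lit 336213) (nat_lit 13) (.e (nat_lit 393225) (nat_lit 9) (.e (nat_lit 335895) (nat_lit 0) (.e (nat_lit 1089) (nat_lit 81) .nil))))))) (.g (nat_lit 5) .nil .nil))))) (.nd (nat_lit 4) (.nd (nat_lit 5) 
(.lf (nat_lit 112269) (.g (nat_lit 2081) (.e (nat_lit 5599) (nat_lit 310) (.e (nat_lit 163846) (nat_lit 0) (.e (nat_lit 6989) (nat_lit 377) (.e (nat_lit 1361) (nat_lit 102) (.e (nat_lit 286761) (nat_lit 13) (.e (nat_lit 393284) (nat_lit 24) (.e (nat_lit 434216) (nat_lit 18) .nil))))))) (.g (nat_lit 6) .nil .nil))) 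
(.lf (nat_lit 112301) (.g (nat_lit 3803) (.e (nat_lit 5599) (nat_lit 310) (.e (nat_lit 163869) (nat_lit 2) (.e (nat_lit 196670) (nat_lit 14) (.e (nat_lit 73753) (nat_lit 8) (.e (nat_lit 557103) (nat_lit 14) (.e (nat_lit 180250) (nat_lit 10) (.e (nat_lit 573477) (nat_lit 12) (.e (nat_lit 57361) (nat_lit 0) .nil)))))))) (.g (nat_lit 6) .nil .nil)))) (.nd (nat_lit 5) 
(.lf (nat_lit 112285) (.g (nat_lit 2847) (.e (nat_lit 5599) (nat_lit 310) (.e (nat_lit 163869) (nat_lit 2) (.e (nat_lit 196668) (nat_lit 14) (.e (nat_lit 73753) (nat_lit 8) (.e (nat_lit 557105) (nat_lit 14) .nil))))) .nil)) 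
(.lf (nat_lit 112317) (.g (nat_lit 3090) (.e (nat_lit 5599) (nat_lit 310) (.e (nat_lit 163874) (nat_lit 3) (.e (nat_lit 204863) (nat_lit 27) (.e (nat_lit 344132) (nat_lit 26) (.e (nat_lit 557105) (nat_lit 14) (.e (nat_lit 180252) (nat_lit 10) (.e (nat_lit 573475) (nat_lit 12) (.e (nat_lit 57360) (nat_lit 0) .nil)))))))) (.g (nat_lit 4) .nil .nil))))))) 
(.nd (nat_lit 2) (.nd (nat_lit 3) (.nd (nat_lit 4) (.nd (nat_lit 5) 
(.lf (nat_lit 112259) (.g (nat_lit 762) (.e (nat_lit 5598) (nat_lit 310) (.e (nat_lit 163919) (nat_lit 14) (.e (nat_lit 442377) (nat_lit 0) .nil))) .nil)) 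
(.lf (nat_lit 112291) (.g (nat_lit 3796) (.e (nat_lit 5599) (nat_lit 310) (.e (nat_lit 163869) (nat_lit 2) (.e (nat_lit 196670) (nat_lit 14) (.e (nat_lit 73746) (nat_lit 3) (.e (nat_lit 516129) (nat_lit 3) (.e (nat_lit 221210) (nat_lit 22) (.e (nat_lit 196661) (nat_lit 12) (.e (nat_lit 57360) (nat_lit 0) .nil)))))))) (.g (nat_lit 6) .nil .nil)))) (.nd (nat_lit 5) 
(.lf (nat_lit 112275) (.g (nat_lit 2867) (.e (nat_lit 5599) (nat_lit 310) (.e (nat_lit 163867) (nat_lit 2) (.e (nat_lit 196670) (nat_lit 14) (.e (nat_lit 73753) (nat_lit 8) (.e (nat_lit 557103) (nat_lit 14) (.e (nat_lit 180250) (nat_lit 10) (.e (nat_lit 573477) (nat_lit 12) (.e (nat_lit 57360) (nat_lit 0) .nil)))))))) (.g (nat_lit 4) .nil .nil))) 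
(.lf (nat_lit 112307) (.g (nat_lit 5178) (.e (nat_lit 5599) (nat_lit 310) (.e (nat_lit 163869) (nat_lit 2) (.e (nat_lit 196670) (nat_lit 14) (.e (nat_lit 73754) (nat_lit 8) (.e (nat_lit 557105) (nat_lit 14) (.e (nat_lit 180252) (nat_lit 10) (.e (nat_lit 573474) (nat_lit 12) (.e (nat_lit 57360) (nat_lit 0) .nil)))))))) (.g (nat_lit 6) .nil .nil))))) (.nd (nat_lit 4) (.nd (nat_lit 5) 
(.lf (nat_lit 112267) (.g (nat_lit 2582) (.e (nat_lit 5598) (nat_lit 310) (.e (nat_lit 163945) (nat_lit 20) (.e (nat_lit 491566) (nat_lit 12) (.e (nat_lit 385105) (nat_lit 50) (.e (nat_lit 786481) (nat_lit 30) (.e (nat_lit 360457) (nat_lit 0) .nil)))))) (.g (nat_lit 5) .nil .nil))) 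
(.lf (nat_lit 112299) (.g (nat_lit 2260) (.e (nat_lit 5599) (nat_lit 310) (.e (nat_lit 163869) (nat_lit 2) (.e (nat_lit 196670) (nat_lit 14) (.e (nat_lit 73753) (nat_lit 8) (.e (nat_lit 557103) (nat_lit 14) (.e (nat_lit 180250) (nat_lit 10) (.e (nat_lit 573474) (nat_lit 12) (.e (nat_lit 57360) (nat_lit 0) .nil)))))))) (.g (nat_lit 4) .nil .nil)))) (.nd (nat_lit 5) 
(.lf (nat_lit 112283) (.g (nat_lit 3150) (.e (nat_lit 5599) (nat_lit 310) (.e (nat_lit 163869) (nat_lit 2) (.e (nat_lit 196668) (nat_lit 14) (.e (nat_lit 73753) (nat_lit 8) (.e (nat_lit 557103) (nat_lit 14) (.e (nat_lit 180250) (nat_lit 10) (.e (nat_lit 573477) (nat_lit 12) (.e (nat_lit 57361) (nat_lit 0) .nil)))))))) (.g (nat_lit 4) .nil .nil))) 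
(.lf (nat_lit 112315) (.g (nat_lit 2878) (.e (nat_lit 5599) (nat_lit 310) (.e (nat_lit 163874) (nat_lit 3) (.e (nat_lit 204863) (nat_lit 27) (.e (nat_lit 344117) (nat_lit 21) (.e (nat_lit 516130) (nat_lit 3) (.e (nat_lit 221215) (nat_lit 23) (.e (nat_lit 204821) (nat_lit 17) (.e (nat_lit 1086) (nat_lit 81) .nil)))))))) (.g (nat_lit 4) .nil .nil)))))) 
(.nd (nat_lit 3) (.nd (nat_lit 4) (.nd (nat_lit 5) 
(.lf (nat_lit 112263) (.g (nat_lit 3466) (.e (nat_lit 5598) (nat_lit 310) (.e (nat_lit 163920) (nat_lit 14) (.e (nat_lit 442374) (nat_lit 0) (.e (nat_lit 2175) (nat_lit 143) (.e (nat_lit 712755) (nat_lit 30) (.e (nat_lit 450569) (nat_lit 0) .nil)))))) (.g (nat_lit 6) .nil .nil))) 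
(.lf (nat_lit 112295) (.g (nat_lit 3441) (.e (nat_lit 5599) (nat_lit 310) (.e (nat_lit 163869) (nat_lit 2) (.e (nat_lit 196670) (nat_lit 14) (.e (nat_lit 73746) (nat_lit 3) (.e (nat_lit 516129) (nat_lit 3) (.e (nat_lit 221215) (nat_lit 23) (.e (nat_lit 204821) (nat_lit 17) (.e (nat_lit 1086) (nat_lit 81) .nil)))))))) (.g (nat_lit 5) .nil .nil)))) (.nd (nat_lit 5) 
(.lf (nat_lit 112279) (.g (nat_lit 3330) (.e (nat_lit 5599) (nat_lit 310) (.e (nat_lit 163867) (nat_lit 2) (.e (nat_lit 196670) (nat_lit 14) (.e (nat_lit 73753) (nat_lit 8) (.e (nat_lit 557105) (nat_lit 14) (.e (nat_lit 180252) (nat_lit 10) (.e (nat_lit 573475) (nat_lit 12) (.e (nat_lit 57360) (nat_lit 0) .nil)))))))) (.g (nat_lit 5) .nil .nil))) 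
(.lf (nat_lit 112311) (.g (nat_lit 2408) (.e (nat_lit 5599) (nat_lit 310) (.e (nat_lit 163874) (nat_lit 3) (.e (nat_lit 204861) (nat_lit 26) (.e (nat_lit 336215) (nat_lit 13) (.e (nat_lit 401152) (nat_lit 10) (.e (nat_lit 344103) (nat_lit 18) .nil)))))) (.g (nat_lit 4) .nil .nil))))) (.nd (nat_lit 4) (.nd (nat_lit 5) 
(.lf (nat_lit 112271) (.g (nat_lit 2679) (.e (nat_lit 5599) (nat_lit 310) (.e (nat_lit 163867) (nat_lit 2) (.e (nat_lit 196670) (nat_lit 14) (.e (nat_lit 73746) (nat_lit 3) (.e (nat_lit 516129) (nat_lit 3) (.e (nat_lit 221210) (nat_lit 22) (.e (nat_lit 196661) (nat_lit 12) (.e (nat_lit 57360) (nat_lit 0) .nil)))))))) (.g (nat_lit 4) .nil .nil))) 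
(.lf (nat_lit 112303) (.g (nat_lit 2545) (.e (nat_lit 5599) (nat_lit 310) (.e (nat_lit 163869) (nat_lit 2) (.e (nat_lit 196670) (nat_lit 14) (.e (nat_lit 73754) (nat_lit 8) (.e (nat_lit 557103) (nat_lit 14) .nil))))) .nil))) (.nd (nat_lit 5) 
(.lf (nat_lit 112287) (.g (nat_lit 2396) (.e (nat_lit 5599) (nat_lit 310) (.e (nat_lit 163869) (nat_lit 2) (.e (nat_lit 196669) (nat_lit 14) (.e (nat_lit 73755) (nat_lit 8) (.e (nat_lit 557103) (nat_lit 14) (.e (nat_lit 180250) (nat_lit 10) (.e (nat_lit 573477) (nat_lit 12) (.e (nat_lit 57360) (nat_lit 0) .nil)))))))) (.g (nat_lit 4) .nil .nil))) 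
(.lf (nat_lit 112319) (.g (nat_lit 3223) (.e (nat_lit 5599) (nat_lit 310) (.e (nat_lit 163874) (nat_lit 3) (.e (nat_lit 204863) (nat_lit 27) (.e (nat_lit 344133) (nat_lit 26) (.e (nat_lit 557105) (nat_lit 14) (.e (nat_lit 180252) (nat_lit 10) (.e (nat_lit 573475) (nat_lit 12) (.e (nat_lit 57360) (nat_lit 0) .nil)))))))) (.g (nat_lit 4) .nil .nil)))))))))

noncomputable def tv1516 : DT := (.nd (nat_lit 0) (.nd (nat_lit 1) (.nd (nat_lit 2) (.nd (nat_lit 3) (.nd (nat_lit 4) (.nd (nat_lit 5) 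
(.lf (nat_lit 112320) (.g (nat_lit 2689) (.e (nat_lit 5599) (nat_lit 310) (.e (nat_lit 163874) (nat_lit 3) (.e (nat_lit 204864) (nat_lit 27) (.e (nat_lit 344132) (nat_lit 26) (.e (nat_lit 557105) (nat_lit 14) (.e (nat_lit 180251) (nat_lit 10) (.e (nat_lit 573477) (nat_lit 12) (.e (nat_lit 57360) (nat_lit 0) .nil)))))))) (.g (nat_lit 5) .nil .nil))) 
(.lf (nat_lit 112352) (.g (nat_lit 2468) (.e (nat_lit 5599) (nat_lit 310) (.e (nat_lit 163905) (nat_lit 12) (.e (nat_lit 426555) (nat_lit 32) (.e (nat_lit 376865) (nat_lit 22) (.e (nat_lit 90158) (nat_lit 11) (.e (nat_lit 24580) (nat_lit 0) (.e (nat_lit 1056) (nat_lit 81) .nil))))))) (.g (nat_lit 4) .nil .nil)))) (.nd (nat_lit 5) 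
(.lf (nat_lit 112336) (.g (nat_lit 1623) (.e (nat_lit 5599) (nat_lit 310) (.e (nat_lit 163905) (nat_lit 12) (.e (nat_lit 426319) (nat_lit 12) (.e (nat_lit 475211) (nat_lit 41) (.e (nat_lit 712755) (nat_lit 30) .nil))))) .nil)) 
(.lf (nat_lit 112368) (.g (nat_lit 2393) (.e (nat_lit 5599) (nat_lit 310) (.e (nat_lit 163915) (nat_lit 12) (.e (nat_lit 426315) (nat_lit 12) (.e (nat_lit 475207) (nat_lit 41) (.e (nat_lit 712755) (nat_lit 30) (.e (nat_lit 450569) (nat_lit 0) .nil)))))) (.g (nat_lit 6) .nil .nil))))) (.nd (nat_lit 4) (.nd (nat_lit 5) 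
(.lf (nat_lit 112328) (.g (nat_lit 2802) (.e (nat_lit 5599) (nat_lit 310) (.e (nat_lit 163896) (nat_lit 10) (.e (nat_lit 409602) (nat_lit 0) (.e (nat_lit 5293) (nat_lit 298) (.e (nat_lit 1656) (nat_lit 115) (.e (nat_lit 393284) (nat_lit 24) (.e (nat_lit 434215) (nat_lit 18) .nil))))))) (.g (nat_lit 6) .nil .nil))) 
(.lf (nat_lit 112360) (.g (nat_lit 1936) (.e (nat_lit 5599) (nat_lit 310) (.e (nat_lit 163913) (nat_lit 12) (.e (nat_lit 426318) (nat_lit 12) (.e (nat_lit 475207) (nat_lit 41) (.e (nat_lit 712753) (nat_lit 30) (.e (nat_lit 450568) (nat_lit 0) .nil)))))) (.g (nat_lit 5) .nil .nil)))) (.nd (nat_lit 5) 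
(.lf (nat_lit 112344) (.g (nat_lit 2088) (.e (nat_lit 5599) (nat_lit 310) (.e (nat_lit 163905) (nat_lit 12) (.e (nat_lit 426555) (nat_lit 32) (.e (nat_lit 376862) (nat_lit 22) (.e (nat_lit 90158) (nat_lit 11) (.e (nat_lit 24578) (nat_lit 0) (.e (nat_lit 1089) (nat_lit 81) .nil))))))) (.g (nat_lit 4) .nil .nil))) 
(.lf (nat_lit 112376) (.g (nat_lit 2377) (.e (nat_lit 5599) (nat_lit 310) (.e (nat_lit 163919) (nat_lit 14) (.e (nat_lit 442374) (nat_lit 0) (.e (nat_lit 2160) (nat_lit 143) (.e (nat_lit 712755) (nat_lit 30) (.e (nat_lit 450568) (nat_lit 0) .nil)))))) (.g (nat_lit 5) .nil .nil)))))) (.nd (nat_lit 3) (.nd (nat_lit 4) (.nd (nat_lit 5) 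
(.lf (nat_lit 112324) (.g (nat_lit 2792) (.e (nat_lit 5599) (nat_lit 310) (.e (nat_lit 163885) (nat_lit 5) (.e (nat_lit 221206) (nat_lit 21) (.e (nat_lit 164401) (nat_lit 256) (.e (nat_lit 57427) (nat_lit 15) (.e (nat_lit 360474) (nat_lit 8) (.e (nat_lit 557093) (nat_lit 12) (.e (nat_lit 163856) (nat_lit 0) .nil)))))))) (.g (nat_lit 5) .nil .nil))) 
(.lf (nat_lit 112356) (.g (nat_lit 3158) (.e (nat_lit 5599) (nat_lit 310) (.e (nat_lit 163905) (nat_lit 12) (.e (nat_lit 426555) (nat_lit 32) (.e (nat_lit 376865) (nat_lit 22) (.e (nat_lit 90160) (nat_lit 11) (.e (nat_lit 24580) (nat_lit 0) (.e (nat_lit 1056) (nat_lit 81) .nil))))))) (.g (nat_lit 5) .nil .nil)))) (.nd (nat_lit 5) 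
(.lf (nat_lit 112340) (.g (nat_lit 1557) (.e (nat_lit 5599) (nat_lit 310) (.e (nat_lit 163905) (nat_lit 12) (.e (nat_lit 426550) (nat_lit 31) (.e (nat_lit 368660) (nat_lit 18) .nil)))) .nil)) 
(.lf (nat_lit 112372) (.g (nat_lit 1353) (.e (nat_lit 5599) (nat_lit 310) (.e (nat_lit 163917) (nat_lit 13) (.e (nat_lit 434289) (nat_lit 43) (.e (nat_lit 696350) (nat_lit 13) .nil)))) .nil)))) (.nd (nat_lit 4) (.nd (nat_lit 5) 
(.lf (nat_lit 112332) (.g (nat_lit 1361) (.e (nat_lit 5599) (nat_lit 310) (.e (nat_lit 163896) (nat_lit 10) (.e (nat_lit 417536) (nat_lit 6) (.e (nat_lit 286761) (nat_lit 13) (.e (nat_lit 393289) (nat_lit 25) (.e (nat_lit 458776) (nat_lit 18) .nil)))))) (.g (nat_lit 5) .nil .nil))) 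
(.lf (nat_lit 112364) (.g (nat_lit 1629) (.e (nat_lit 5599) (nat_lit 310) (.e (nat_lit 163915) (nat_lit 12) (.e (nat_lit 426188) (nat_lit 9) (.e (nat_lit 426364) (nat_lit 15) (.e (nat_lit 2160) (nat_lit 143) .nil))))) .nil))) (.nd (nat_lit 5) 
(.lf (nat_lit 112348) (.g (nat_lit 2283) (.e (nat_lit 5599) (nat_lit 310) (.e (nat_lit 163905) (nat_lit 12) (.e (nat_lit 426555) (nat_lit 32) (.e (nat_lit 376865) (nat_lit 22) (.e (nat_lit 90157) (nat_lit 11) .nil))))) .nil)) 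
(.lf (nat_lit 112380) (.g (nat_lit 1009) (.e (nat_lit 5599) (nat_lit 310) (.e (nat_lit 163920) (nat_lit 14) (.e (nat_lit 442374) (nat_lit 0) (.e (nat_lit 2174) (nat_lit 143) .nil)))) .nil)))))) (.nd (nat_lit 2) (.nd (nat_lit 3) (.nd (nat_lit 4) (.nd (nat_lit 5) 
(.lf (nat_lit 112322) (.g (nat_lit 2423) (.e (nat_lit 5599) (nat_lit 310) (.e (nat_lit 163874) (nat_lit 3) (.e (nat_lit 204864) (nat_lit 27) (.e (nat_lit 344132) (nat_lit 26) (.e (nat_lit 557105) (nat_lit 14) (.e (nat_lit 180251) (nat_lit 10) (.e (nat_lit 573478) (nat_lit 12) (.e (nat_lit 57360) (nat_lit 0) .nil)))))))) (.g (nat_lit 5) .nil .nil))) 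
(.lf (nat_lit 112354) (.g (nat_lit 2324) (.e (nat_lit 5599) (nat_lit 310) (.e (nat_lit 163905) (nat_lit 12) (.e (nat_lit 426555) (nat_lit 32) (.e (nat_lit 376865) (nat_lit 22) (.e (nat_lit 90159) (nat_lit 11) .nil))))) .nil))) (.nd (nat_lit 5) 
(.lf (nat_lit 112338) (.g (nat_lit 2630) (.e (nat_lit 5599) (nat_lit 310) (.e (nat_lit 163905) (nat_lit 12) (.e (nat_lit 426320) (nat_lit 12) (.e (nat_lit 475208) (nat_lit 41) (.e (nat_lit 712753) (nat_lit 30) (.e (nat_lit 450569) (nat_lit 0) .nil)))))) (.g (nat_lit 6) .nil .nil))) 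
(.lf (nat_lit 112370) (.g (nat_lit 872) (.e (nat_lit 5599) (nat_lit 310) (.e (nat_lit 163917) (nat_lit 13) (.e (nat_lit 434180) (nat_lit 0) (.e (nat_lit 1428) (nat_lit 108) .nil)))) .nil)))) (.nd (nat_lit 4) (.nd (nat_lit 5) 
(.lf (nat_lit 112330) (.g (nat_lit 2895) (.e (nat_lit 5599) (nat_lit 310) (.e (nat_lit 163896) (nat_lit 10) (.e (nat_lit 409602) (nat_lit 0) (.e (nat_lit 5293) (nat_lit 298) (.e (nat_lit 1656) (nat_lit 115) (.e (nat_lit 393289) (nat_lit 25) (.e (nat_lit 458776) (nat_lit 18) .nil))))))) (.g (nat_lit 7) .nil .nil))) 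
(.lf (nat_lit 112362) (.g (nat_lit 2229) (.e (nat_lit 5599) (nat_lit 310) (.e (nat_lit 163913) (nat_lit 12) (.e (nat_lit 426318) (nat_lit 12) (.e (nat_lit 475207) (nat_lit 41) (.e (nat_lit 712755) (nat_lit 30) (.e (nat_lit 450568) (nat_lit 0) .nil)))))) (.g (nat_lit 6) .nil .nil)))) (.nd (nat_lit 5) 
(.lf (nat_lit 112346) (.g (nat_lit 2519) (.e (nat_lit 5599) (nat_lit 310) (.e (nat_lit 163905) (nat_lit 12) (.e (nat_lit 426555) (nat_lit 32) (.e (nat_lit 376862) (nat_lit 22) (.e (nat_lit 90158) (nat_lit 11) (.e (nat_lit 24580) (nat_lit 0) (.e (nat_lit 1089) (nat_lit 81) .nil))))))) (.g (nat_lit 4) .nil .nil))) 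
(.lf (nat_lit 112378) (.g (nat_lit 725) (.e (nat_lit 5599) (nat_lit 310) (.e (nat_lit 163919) (nat_lit 14) (.e (nat_lit 442377) (nat_lit 0) .nil))) .nil))))) (.nd (nat_lit 3) (.nd (nat_lit 4) (.nd (nat_lit 5) 
(.lf (nat_lit 112326) (.g (nat_lit 4877) (.e (nat_lit 5599) (nat_lit 310) (.e (nat_lit 163885) (nat_lit 5) (.e (nat_lit 221208) (nat_lit 21) (.e (nat_lit 164402) (nat_lit 256) (.e (nat_lit 57427) (nat_lit 15) (.e (nat_lit 360474) (nat_lit 8) (.e (nat_lit 557093) (nat_lit 12) (.e (nat_lit 163856) (nat_lit 0) .nil)))))))) (.g (nat_lit 0) .nil .nil))) 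
(.lf (nat_lit 112358) (.g (nat_lit 3747) (.e (nat_lit 5599) (nat_lit 310) (.e (nat_lit 163905) (nat_lit 12) (.e (nat_lit 426555) (nat_lit 32) (.e (nat_lit 376865) (nat_lit 22) (.e (nat_lit 90160) (nat_lit 11) (.e (nat_lit 24584) (nat_lit 0) (.e (nat_lit 1055) (nat_lit 81) .nil))))))) (.g (nat_lit 6) .nil .nil)))) (.nd (nat_lit 5) 
(.lf (nat_lit 112342) (.g (nat_lit 2319) (.e (nat_lit 5599) (nat_lit 310) (.e (nat_lit 163905) (nat_lit 12) (.e (nat_lit 426555) (nat_lit 32) (.e (nat_lit 376862) (nat_lit 22) (.e (nat_lit 90157) (nat_lit 11) (.e (nat_lit 24580) (nat_lit 0) (.e (nat_lit 1056) (nat_lit 81) .nil))))))) (.g (nat_lit 4) .nil .nil))) 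
(.lf (nat_lit 112374) (.g (nat_lit 3027) (.e (nat_lit 5599) (nat_lit 310) (.e (nat_lit 163917) (nat_lit 13) (.e (nat_lit 434289) (nat_lit 43) (.e (nat_lit 696362) (nat_lit 17) (.e (nat_lit 73755) (nat_lit 8) (.e (nat_lit 557104) (nat_lit 14) (.e (nat_lit 180233) (nat_lit 0) .nil))))))) (.g (nat_lit 6) .nil .nil))))) (.nd (nat_lit 4) (.nd (nat_lit 5) 
(.lf (nat_lit 112334) (.g (nat_lit 699) (.e (nat_lit 5599) (nat_lit 310) (.e (nat_lit 163905) (nat_lit 12) (.e (nat_lit 426319) (nat_lit 12) .nil))) .nil)) 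
(.lf (nat_lit 112366) (.g (nat_lit 3210) (.e (nat_lit 5599) (nat_lit 310) (.e (nat_lit 163915) (nat_lit 12) (.e (nat_lit 426306) (nat_lit 12) (.e (nat_lit 475210) (nat_lit 41) (.e (nat_lit 712755) (nat_lit 30) (.e (nat_lit 450569) (nat_lit 0) .nil)))))) (.g (nat_lit 6) .nil .nil)))) (.nd (nat_lit 5) 
(.lf (nat_lit 112350) (.g (nat_lit 2051) (.e (nat_lit 5599) (nat_lit 310) (.e (nat_lit 163905) (nat_lit 12) (.e (nat_lit 426555) (nat_lit 32) (.e (nat_lit 376865) (nat_lit 22) (.e (nat_lit 90158) (nat_lit 11) .nil))))) .nil)) 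
(.lf (nat_lit 112382) (.g (nat_lit 594) (.e (nat_lit 5599) (nat_lit 310) (.e (nat_lit 163923) (nat_lit 15) (.e (nat_lit 450597) (nat_lit 17) .nil))) .nil))))))) (.nd (nat_lit 1) (.nd (nat_lit 2) (.nd (nat_lit 3) (.nd (nat_lit 4) (.nd (nat_lit 5) 
(.lf (nat_lit 112321) (.g (nat_lit 2763) (.e (nat_lit 5599) (nat_lit 310) (.e (nat_lit 163874) (nat_lit 3) (.e (nat_lit 204864) (nat_lit 27) (.e (nat_lit 344132) (nat_lit 26) (.e (nat_lit 557105) (nat_lit 14) (.e (nat_lit 180251) (nat_lit 10) (.e (nat_lit 573477) (nat_lit 12) (.e (nat_lit 57361) (nat_lit 0) .nil)))))))) (.g (nat_lit 5) .nil .nil))) 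
(.lf (nat_lit 112353) (.g (nat_lit 2423) (.e (nat_lit 5599) (nat_lit 310) (.e (nat_lit 163905) (nat_lit 12) (.e (nat_lit 426555) (nat_lit 32) (.e (nat_lit 376865) (nat_lit 22) (.e (nat_lit 90158) (nat_lit 11) (.e (nat_lit 24580) (nat_lit 0) (.e (nat_lit 1089) (nat_lit 81) .nil))))))) (.g (nat_lit 4) .nil .nil)))) (.nd (nat_lit 5) 
(.lf (nat_lit 112337) (.g (nat_lit 2400) (.e (nat_lit 5599) (nat_lit 310) (.e (nat_lit 163905) (nat_lit 12) (.e (nat_lit 426320) (nat_lit 12) (.e (nat_lit 475207) (nat_lit 41) (.e (nat_lit 712753) (nat_lit 30) (.e (nat_lit 450569) (nat_lit 0) .nil)))))) (.g (nat_lit 5) .nil .nil))) 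
(.lf (nat_lit 112369) (.g (nat_lit 1135) (.e (nat_lit 5599) (nat_lit 310) (.e (nat_lit 163916) (nat_lit 13) (.e (nat_lit 434209) (nat_lit 18) (.e (nat_lit 6277) (nat_lit 337) .nil)))) .nil)))) (.nd (nat_lit 4) (.nd (nat_lit 5) 
(.lf (nat_lit 112329) (.g (nat_lit 3114) (.e (nat_lit 5599) (nat_lit 310) (.e (nat_lit 163896) (nat_lit 10) (.e (nat_lit 409602) (nat_lit 0) (.e (nat_lit 5293) (nat_lit 298) (.e (nat_lit 1656) (nat_lit 115) (.e (nat_lit 393284) (nat_lit 24) (.e (nat_lit 434216) (nat_lit 18) .nil))))))) (.g (nat_lit 6) .nil .nil))) 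
(.lf (nat_lit 112361) (.g (nat_lit 2003) (.e (nat_lit 5599) (nat_lit 310) (.e (nat_lit 163913) (nat_lit 12) (.e (nat_lit 426318) (nat_lit 12) (.e (nat_lit 475207) (nat_lit 41) (.e (nat_lit 712753) (nat_lit 30) (.e (nat_lit 450569) (nat_lit 0) .nil)))))) (.g (nat_lit 6) .nil .nil)))) (.nd (nat_lit 5) 
(.lf (nat_lit 112345) (.g (nat_lit 2581) (.e (nat_lit 5599) (nat_lit 310) (.e (nat_lit 163905) (nat_lit 12) (.e (nat_lit 426555) (nat_lit 32) (.e (nat_lit 376862) (nat_lit 22) (.e (nat_lit 90158) (nat_lit 11) (.e (nat_lit 24580) (nat_lit 0) (.e (nat_lit 1056) (nat_lit 81) .nil))))))) (.g (nat_lit 4) .nil .nil))) 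
(.lf (nat_lit 112377) (.g (nat_lit 1095) (.e (nat_lit 5599) (nat_lit 310) (.e (nat_lit 163919) (nat_lit 14) (.e (nat_lit 442374) (nat_lit 0) (.e (nat_lit 2174) (nat_lit 143) .nil)))) .nil))))) (.nd (nat_lit 3) (.nd (nat_lit 4) (.nd (nat_lit 5) 
(.lf (nat_lit 112325) (.g (nat_lit 5706) (.e (nat_lit 5599) (nat_lit 310) (.e (nat_lit 163885) (nat_lit 5) (.e (nat_lit 221208) (nat_lit 21) (.e (nat_lit 164402) (nat_lit 256) (.e (nat_lit 57427) (nat_lit 15) (.e (nat_lit 360474) (nat_lit 8) (.e (nat_lit 557091) (nat_lit 12) (.e (nat_lit 163856) (nat_lit 0) .nil)))))))) (.g (nat_lit 0) .nil .nil))) 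
(.lf (nat_lit 112357) (.g (nat_lit 3041) (.e (nat_lit 5599) (nat_lit 310) (.e (nat_lit 163905) (nat_lit 12) (.e (nat_lit 426555) (nat_lit 32) (.e (nat_lit 376865) (nat_lit 22) (.e (nat_lit 90160) (nat_lit 11) (.e (nat_lit 24580) (nat_lit 0) (.e (nat_lit 1089) (nat_lit 81) .nil))))))) (.g (nat_lit 5) .nil .nil)))) (.nd (nat_lit 5) 
(.lf (nat_lit 112341) (.g (nat_lit 2282) (.e (nat_lit 5599) (nat_lit 310) (.e (nat_lit 163905) (nat_lit 12) (.e (nat_lit 426555) (nat_lit 32) (.e (nat_lit 376862) (nat_lit 22) (.e (nat_lit 90157) (nat_lit 11) .nil))))) .nil)) 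
(.lf (nat_lit 112373) (.g (nat_lit 1086) (.e (nat_lit 5599) (nat_lit 310) (.e (nat_lit 163917) (nat_lit 13) (.e (nat_lit 434289) (nat_lit 43) (.e (nat_lit 696362) (nat_lit 17) .nil)))) .nil)))) (.nd (nat_lit 4) (.nd (nat_lit 5) 
(.lf (nat_lit 112333) (.g (nat_lit 331) (.e (nat_lit 5599) (nat_lit 310) (.e (nat_lit 163896) (nat_lit 10) (.e (nat_lit 417536) (nat_lit 7) .nil))) .nil)) 
(.lf (nat_lit 112365) (.g (nat_lit 1693) (.e (nat_lit 5599) (nat_lit 310) (.e (nat_lit 163915) (nat_lit 12) (.e (nat_lit 426306) (nat_lit 12) (.e (nat_lit 475208) (nat_lit 41) (.e (nat_lit 712753) (nat_lit 30) (.e (nat_lit 450569) (nat_lit 0) .nil)))))) (.g (nat_lit 5) .nil .nil)))) (.nd (nat_lit 5) 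
(.lf (nat_lit 112349) (.g (nat_lit 2304) (.e (nat_lit 5599) (nat_lit 310) (.e (nat_lit 163905) (nat_lit 12) (.e (nat_lit 426555) (nat_lit 32) (.e (nat_lit 376865) (nat_lit 22) (.e (nat_lit 90157) (nat_lit 11) (.e (nat_lit 24580) (nat_lit 0) (.e (nat_lit 1056) (nat_lit 81) .nil))))))) (.g (nat_lit 4) .nil .nil))) 
(.lf (nat_lit 112381) (.g (nat_lit 519) (.e (nat_lit 5599) (nat_lit 310) (.e (nat_lit 163923) (nat_lit 15) (.e (nat_lit 450596) (nat_lit 17) .nil))) .nil)))))) (.nd (nat_lit 2) (.nd (nat_lit 3) (.nd (nat_lit 4) (.nd (nat_lit 5) 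
(.lf (nat_lit 112323) (.g (nat_lit 3395) (.e (nat_lit 5599) (nat_lit 310) (.e (nat_lit 163884) (nat_lit 5) (.e (nat_lit 221206) (nat_lit 21) (.e (nat_lit 164401) (nat_lit 256) (.e (nat_lit 57427) (nat_lit 15) (.e (nat_lit 360474) (nat_lit 8) (.e (nat_lit 557094) (nat_lit 12) (.e (nat_lit 163856) (nat_lit 0) .nil)))))))) (.g (nat_lit 6) .nil .nil))) 
(.lf (nat_lit 112355) (.g (nat_lit 2099) (.e (nat_lit 5599) (nat_lit 310) (.e (nat_lit 163905) (nat_lit 12) (.e (nat_lit 426555) (nat_lit 32) (.e (nat_lit 376865) (nat_lit 22) (.e (nat_lit 90160) (nat_lit 11) .nil))))) .nil))) (.nd (nat_lit 5) 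
(.lf (nat_lit 112339) (.g (nat_lit 1330) (.e (nat_lit 5599) (nat_lit 310) (.e (nat_lit 163905) (nat_lit 12) (.e (nat_lit 426533) (nat_lit 28) (.e (nat_lit 344094) (nat_lit 18) .nil)))) .nil)) 
(.lf (nat_lit 112371) (.g (nat_lit 2772) (.e (nat_lit 5599) (nat_lit 310) (.e (nat_lit 163917) (nat_lit 13) (.e (nat_lit 434285) (nat_lit 42) (.e (nat_lit 688181) (nat_lit 17) (.e (nat_lit 73755) (nat_lit 8) (.e (nat_lit 557104) (nat_lit 14) (.e (nat_lit 180233) (nat_lit 0) .nil))))))) (.g (nat_lit 7) .nil .nil))))) (.nd (nat_lit 4) (.nd (nat_lit 5) 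
(.lf (nat_lit 112331) (.g (nat_lit 331) (.e (nat_lit 5599) (nat_lit 310) (.e (nat_lit 163896) (nat_lit 10) (.e (nat_lit 417536) (nat_lit 0) .nil))) .nil)) 
(.lf (nat_lit 112363) (.g (nat_lit 975) (.e (nat_lit 5599) (nat_lit 310) (.e (nat_lit 163915) (nat_lit 12) (.e (nat_lit 426187) (nat_lit 9) (.e (nat_lit 426364) (nat_lit 15) (.e (nat_lit 2160) (nat_lit 143) .nil))))) .nil))) (.nd (nat_lit 5) 
(.lf (nat_lit 112347) (.g (nat_lit 2776) (.e (nat_lit 5599) (nat_lit 310) (.e (nat_lit 163905) (nat_lit 12) (.e (nat_lit 426555) (nat_lit 32) (.e (nat_lit 376862) (nat_lit 22) (.e (nat_lit 90160) (nat_lit 11) (.e (nat_lit 24584) (nat_lit 0) (.e (nat_lit 1083) (nat_lit 81) .nil))))))) (.g (nat_lit 4) .nil .nil))) 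
(.lf (nat_lit 112379) (.g (nat_lit 877) (.e (nat_lit 5599) (nat_lit 310) (.e (nat_lit 163920) (nat_lit 14) (.e (nat_lit 442372) (nat_lit 0) .nil))) .nil))))) (.nd (nat_lit 3) (.nd (nat_lit 4) (.nd (nat_lit 5) 
(.lf (nat_lit 112327) (.g (nat_lit 4551) (.e (nat_lit 5599) (nat_lit 310) (.e (nat_lit 163885) (nat_lit 5) (.e (nat_lit 221208) (nat_lit 21) (.e (nat_lit 164402) (nat_lit 256) (.e (nat_lit 57427) (nat_lit 15) (.e (nat_lit 360474) (nat_lit 8) (.e (nat_lit 557094) (nat_lit 12) (.e (nat_lit 163856) (nat_lit 0) .nil)))))))) (.g (nat_lit 0) .nil .nil))) 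
(.lf (nat_lit 112359) (.g (nat_lit 3095) (.e (nat_lit 5599) (nat_lit 310) (.e (nat_lit 163905) (nat_lit 12) (.e (nat_lit 426555) (nat_lit 32) (.e (nat_lit 376865) (nat_lit 22) (.e (nat_lit 90160) (nat_lit 11) (.e (nat_lit 24584) (nat_lit 0) (.e (nat_lit 1083) (nat_lit 81) .nil))))))) (.g (nat_lit 5) .nil .nil)))) (.nd (nat_lit 5) 
(.lf (nat_lit 112343) (.g (nat_lit 2354) (.e (nat_lit 5599) (nat_lit 310) (.e (nat_lit 163905) (nat_lit 12) (.e (nat_lit 426555) (nat_lit 32) (.e (nat_lit 376862) (nat_lit 22) (.e (nat_lit 90158) (nat_lit 11) (.e (nat_lit 24578) (nat_lit 0) (.e (nat_lit 1062) (nat_lit 81) .nil))))))) (.g (nat_lit 4) .nil .nil))) 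
(.lf (nat_lit 112375) (.g (nat_lit 706) (.e (nat_lit 5599) (nat_lit 310) (.e (nat_lit 163919) (nat_lit 14) (.e (nat_lit 442368) (nat_lit 0) .nil))) .nil)))) (.nd (nat_lit 4) (.nd (nat_lit 5) 
(.lf (nat_lit 112335) (.g (nat_lit 1623) (.e (nat_lit 5599) (nat_lit 310) (.e (nat_lit 163905) (nat_lit 12) (.e (nat_lit 426319) (nat_lit 12) (.e (nat_lit 475211) (nat_lit 41) (.e (nat_lit 712753) (nat_lit 30) (.e (nat_lit 450568) (nat_lit 0) .nil)))))) (.g (nat_lit 4) .nil .nil))) 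
(.lf (nat_lit 112367) (.g (nat_lit 2101) (.e (nat_lit 5599) (nat_lit 310) (.e (nat_lit 163915) (nat_lit 12) (.e (nat_lit 426315) (nat_lit 12) (.e (nat_lit 475207) (nat_lit 41) (.e (nat_lit 712753) (nat_lit 30) (.e (nat_lit 450569) (nat_lit 0) .nil)))))) (.g (nat_lit 0) .nil .nil)))) (.nd (nat_lit 5) 
(.lf (nat_lit 112351) (.g (nat_lit 2244) (.e (nat_lit 5599) (nat_lit 310) (.e (nat_lit 163905) (nat_lit 12) (.e (nat_lit 426555) (nat_lit 32) (.e (nat_lit 376865) (nat_lit 22) (.e (nat_lit 90158) (nat_lit 11) (.e (nat_lit 24578) (nat_lit 0) (.e (nat_lit 1062) (nat_lit 81) .nil))))))) (.g (nat_lit 4) .nil .nil))) 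
(.lf (nat_lit 112383) (.g (nat_lit 1371) (.e (nat_lit 5599) (nat_lit 310) (.e (nat_lit 163931) (nat_lit 17) (.e (nat_lit 466947) (nat_lit 0) (.e (nat_lit 2174) (nat_lit 143) (.e (nat_lit 712753) (nat_lit 30) .nil))))) .nil))))))))

noncomputable def tv1517 : DT := (.nd (nat_lit 0) (.nd (nat_lit 1) (.nd (nat_lit 2) (.nd (nat_lit 3) (.nd (nat_lit 4) (.nd (nat_lit 5) 
(.lf (nat_lit 112384) (.g (nat_lit 2545) (.e (nat_lit 5599) (nat_lit 310) (.e (nat_lit 163931) (nat_lit 17) (.e (nat_lit 466947) (nat_lit 0) (.e (nat_lit 2175) (nat_lit 143) (.e (nat_lit 712753) (nat_lit 30) (.e (nat_lit 450568) (nat_lit 0) .nil)))))) (.g (nat_lit 0) .nil .nil))) 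
(.lf (nat_lit 112416) (.g (nat_lit 2421) (.e (nat_lit 5601) (nat_lit 310) (.e (nat_lit 163867) (nat_lit 2) (.e (nat_lit 196670) (nat_lit 14) (.e (nat_lit 73746) (nat_lit 3) (.e (nat_lit 516131) (nat_lit 3) (.e (nat_lit 221212) (nat_lit 22) (.e (nat_lit 196659) (nat_lit 12) (.e (nat_lit 57354) (nat_lit 0) .nil)))))))) (.g (nat_lit 4) .nil .nil)))) (.nd (nat_lit 5) 
(.lf (nat_lit 112400) (.g (nat_lit 3695) (.e (nat_lit 5600) (nat_lit 310) (.e (nat_lit 163867) (nat_lit 2) (.e (nat_lit 196670) (nat_lit 14) (.e (nat_lit 73746) (nat_lit 3) (.e (nat_lit 516129) (nat_lit 3) (.e (nat_lit 221210) (nat_lit 22) (.e (nat_lit 196661) (nat_lit 12) (.e (nat_lit 57357) (nat_lit 0) .nil)))))))) (.g (nat_lit 6) .nil .nil))) 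
(.lf (nat_lit 112432) (.g (nat_lit 3053) (.e (nat_lit 5601) (nat_lit 310) (.e (nat_lit 163873) (nat_lit 3) (.e (nat_lit 204861) (nat_lit 26) (.e (nat_lit 336076) (nat_lit 9) (.e (nat_lit 336367) (nat_lit 27) (.e (nat_lit 426533) (nat_lit 28) (.e (nat_lit 344100) (nat_lit 18) .nil))))))) (.g (nat_lit 6) .nil .nil))))) (.nd (nat_lit 4) (.nd (nat_lit 5) 
(.lf (nat_lit 112392) (.g (nat_lit 2200) (.e (nat_lit 5599) (nat_lit 310) (.e (nat_lit 163941) (nat_lit 19) (.e (nat_lit 483363) (nat_lit 18) (.e (nat_lit 57921) (nat_lit 280) .nil)))) .nil)) 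
(.lf (nat_lit 112424) (.g (nat_lit 2798) (.e (nat_lit 5601) (nat_lit 310) (.e (nat_lit 163869) (nat_lit 2) (.e (nat_lit 196668) (nat_lit 14) (.e (nat_lit 73753) (nat_lit 8) (.e (nat_lit 557103) (nat_lit 14) .nil))))) .nil))) (.nd (nat_lit 5) 
(.lf (nat_lit 112408) (.g (nat_lit 2702) (.e (nat_lit 5600) (nat_lit 310) (.e (nat_lit 163867) (nat_lit 2) (.e (nat_lit 196670) (nat_lit 14) (.e (nat_lit 73755) (nat_lit 8) (.e (nat_lit 557105) (nat_lit 14) .nil))))) .nil)) 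
(.lf (nat_lit 112440) (.g (nat_lit 3010) (.e (nat_lit 5602) (nat_lit 310) (.e (nat_lit 163869) (nat_lit 2) (.e (nat_lit 196670) (nat_lit 14) (.e (nat_lit 73754) (nat_lit 8) (.e (nat_lit 557105) (nat_lit 14) .nil))))) .nil))))) (.nd (nat_lit 3) (.nd (nat_lit 4) (.nd (nat_lit 5) 
(.lf (nat_lit 112388) (.g (nat_lit 2490) (.e (nat_lit 5599) (nat_lit 310) (.e (nat_lit 163932) (nat_lit 17) (.e (nat_lit 466947) (nat_lit 0) (.e (nat_lit 2175) (nat_lit 143) (.e (nat_lit 712753) (nat_lit 30) (.e (nat_lit 450568) (nat_lit 0) .nil)))))) (.g (nat_lit 0) .nil .nil))) 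
(.lf (nat_lit 112420) (.g (nat_lit 4356) (.e (nat_lit 5601) (nat_lit 310) (.e (nat_lit 163867) (nat_lit 2) (.e (nat_lit 196670) (nat_lit 14) (.e (nat_lit 73753) (nat_lit 8) (.e (nat_lit 557105) (nat_lit 14) (.e (nat_lit 180252) (nat_lit 10) (.e (nat_lit 573474) (nat_lit 12) (.e (nat_lit 57356) (nat_lit 0) .nil)))))))) (.g (nat_lit 6) .nil .nil)))) (.nd (nat_lit 5) 
(.lf (nat_lit 112404) (.g (nat_lit 2419) (.e (nat_lit 5600) (nat_lit 310) (.e (nat_lit 163867) (nat_lit 2) (.e (nat_lit 196670) (nat_lit 14) (.e (nat_lit 73753) (nat_lit 8) (.e (nat_lit 557103) (nat_lit 14) (.e (nat_lit 180250) (nat_lit 10) (.e (nat_lit 573474) (nat_lit 12) (.e (nat_lit 57344) (nat_lit 0) .nil)))))))) (.g (nat_lit 4) .nil .nil))) 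
(.lf (nat_lit 112436) (.g (nat_lit 1981) (.e (nat_lit 5602) (nat_lit 310) (.e (nat_lit 163867) (nat_lit 2) (.e (nat_lit 196669) (nat_lit 14) (.e (nat_lit 73755) (nat_lit 8) (.e (nat_lit 557105) (nat_lit 14) (.e (nat_lit 180252) (nat_lit 10) (.e (nat_lit 573474) (nat_lit 12) (.e (nat_lit 57344) (nat_lit 0) .nil)))))))) (.g (nat_lit 4) .nil .nil))))) (.nd (nat_lit 4) (.nd (nat_lit 5) 
(.lf (nat_lit 112396) (.g (nat_lit 1141) (.e (nat_lit 5599) (nat_lit 310) (.e (nat_lit 163943) (nat_lit 19) (.e (nat_lit 483361) (nat_lit 17) .nil))) .nil)) 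
(.lf (nat_lit 112428) (.g (nat_lit 3299) (.e (nat_lit 5601) (nat_lit 310) (.e (nat_lit 163869) (nat_lit 2) (.e (nat_lit 196670) (nat_lit 14) (.e (nat_lit 73753) (nat_lit 8) (.e (nat_lit 557103) (nat_lit 14) (.e (nat_lit 180250) (nat_lit 10) (.e (nat_lit 573474) (nat_lit 12) (.e (nat_lit 57354) (nat_lit 0) .nil)))))))) (.g (nat_lit 5) .nil .nil)))) (.nd (nat_lit 5) 
(.lf (nat_lit 112412) (.g (nat_lit 2374) (.e (nat_lit 5600) (nat_lit 310) (.e (nat_lit 163873) (nat_lit 3) (.e (nat_lit 204861) (nat_lit 26) (.e (nat_lit 336076) (nat_lit 9) (.e (nat_lit 336367) (nat_lit 27) (.e (nat_lit 426533) (nat_lit 28) (.e (nat_lit 344100) (nat_lit 18) .nil))))))) (.g (nat_lit 4) .nil .nil))) 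
(.lf (nat_lit 112444) (.g (nat_lit 2396) (.e (nat_lit 5603) (nat_lit 310) (.e (nat_lit 163867) (nat_lit 2) (.e (nat_lit 196670) (nat_lit 14) (.e (nat_lit 73746) (nat_lit 3) (.e (nat_lit 516131) (nat_lit 3) (.e (nat_lit 221215) (nat_lit 23) (.e (nat_lit 204821) (nat_lit 17) (.e (nat_lit 1040) (nat_lit 81) .nil)))))))) (.g (nat_lit 4) .nil .nil))))))) 
(.nd (nat_lit 2) (.nd (nat_lit 3) (.nd (nat_lit 4) (.nd (nat_lit 5) 
(.lf (nat_lit 112386) (.g (nat_lit 514) (.e (nat_lit 5599) (nat_lit 310) (.e (nat_lit 163932) (nat_lit 17) (.e (nat_lit 466945) (nat_lit 0) .nil))) .nil)) 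
(.lf (nat_lit 112418) (.g (nat_lit 2323) (.e (nat_lit 5601) (nat_lit 310) (.e (nat_lit 163867) (nat_lit 2) (.e (nat_lit 196670) (nat_lit 14) (.e (nat_lit 73753) (nat_lit 8) (.e (nat_lit 557103) (nat_lit 14) .nil))))) .nil))) (.nd (nat_lit 5) 
(.lf (nat_lit 112402) (.g (nat_lit 2792) (.e (nat_lit 5600) (nat_lit 310) (.e (nat_lit 163867) (nat_lit 2) (.e (nat_lit 196670) (nat_lit 14) (.e (nat_lit 73746) (nat_lit 3) (.e (nat_lit 516131) (nat_lit 3) (.e (nat_lit 221211) (nat_lit 22) (.e (nat_lit 196661) (nat_lit 12) (.e (nat_lit 57357) (nat_lit 0) .nil)))))))) (.g (nat_lit 5) .nil .nil))) 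
(.lf (nat_lit 112434) (.g (nat_lit 2350) (.e (nat_lit 5601) (nat_lit 310) (.e (nat_lit 163874) (nat_lit 3) (.e (nat_lit 204863) (nat_lit 27) (.e (nat_lit 344117) (nat_lit 21) (.e (nat_lit 516130) (nat_lit 3) .nil))))) .nil)))) (.nd (nat_lit 4) (.nd (nat_lit 5) 
(.lf (nat_lit 112394) (.g (nat_lit 1924) (.e (nat_lit 5599) (nat_lit 310) (.e (nat_lit 163943) (nat_lit 19) (.e (nat_lit 483346) (nat_lit 17) (.e (nat_lit 974) (nat_lit 81) (.e (nat_lit 5570) (nat_lit 308) .nil))))) .nil)) 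
(.lf (nat_lit 112426) (.g (nat_lit 2209) (.e (nat_lit 5601) (nat_lit 310) (.e (nat_lit 163869) (nat_lit 2) (.e (nat_lit 196670) (nat_lit 14) (.e (nat_lit 73746) (nat_lit 3) (.e (nat_lit 516129) (nat_lit 3) (.e (nat_lit 221210) (nat_lit 22) (.e (nat_lit 196658) (nat_lit 12) (.e (nat_lit 57354) (nat_lit 0) .nil)))))))) (.g (nat_lit 4) .nil .nil)))) (.nd (nat_lit 5) 
(.lf (nat_lit 112410) (.g (nat_lit 3016) (.e (nat_lit 5600) (nat_lit 310) (.e (nat_lit 163869) (nat_lit 2) (.e (nat_lit 196670) (nat_lit 14) (.e (nat_lit 73754) (nat_lit 8) (.e (nat_lit 557105) (nat_lit 14) .nil))))) .nil)) 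
(.lf (nat_lit 112442) (.g (nat_lit 3069) (.e (nat_lit 5603) (nat_lit 310) (.e (nat_lit 163867) (nat_lit 2) (.e (nat_lit 196670) (nat_lit 14) (.e (nat_lit 73746) (nat_lit 3) (.e (nat_lit 516129) (nat_lit 3) (.e (nat_lit 221210) (nat_lit 22) (.e (nat_lit 196661) (nat_lit 12) (.e (nat_lit 57357) (nat_lit 0) .nil)))))))) (.g (nat_lit 5) .nil .nil)))))) 
(.nd (nat_lit 3) (.nd (nat_lit 4) (.nd (nat_lit 5) 
(.lf (nat_lit 112390) (.g (nat_lit 3173) (.e (nat_lit 5599) (nat_lit 310) (.e (nat_lit 163932) (nat_lit 17) (.e (nat_lit 466972) (nat_lit 21) (.e (nat_lit 164403) (nat_lit 256) (.e (nat_lit 57346) (nat_lit 0) (.e (nat_lit 6724) (nat_lit 362) (.e (nat_lit 180232) (nat_lit 0) .nil))))))) (.g (nat_lit 5) .nil .nil))) 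
(.lf (nat_lit 112422) (.g (nat_lit 4488) (.e (nat_lit 5601) (nat_lit 310) (.e (nat_lit 163867) (nat_lit 2) (.e (nat_lit 196670) (nat_lit 14) (.e (nat_lit 73754) (nat_lit 8) (.e (nat_lit 557105) (nat_lit 14) (.e (nat_lit 180252) (nat_lit 10) (.e (nat_lit 573474) (nat_lit 12) (.e (nat_lit 57356) (nat_lit 0) .nil)))))))) (.g (nat_lit 6) .nil .nil)))) (.nd (nat_lit 5) 
(.lf (nat_lit 112406) (.g (nat_lit 2422) (.e (nat_lit 5600) (nat_lit 310) (.e (nat_lit 163867) (nat_lit 2) (.e (nat_lit 196670) (nat_lit 14) (.e (nat_lit 73753) (nat_lit 8) (.e (nat_lit 557103) (nat_lit 14) (.e (nat_lit 180250) (nat_lit 10) (.e (nat_lit 573478) (nat_lit 12) (.e (nat_lit 57344) (nat_lit 0) .nil)))))))) (.g (nat_lit 4) .nil .nil))) 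
(.lf (nat_lit 112438) (.g (nat_lit 2257) (.e (nat_lit 5602) (nat_lit 310) (.e (nat_lit 163869) (nat_lit 2) (.e (nat_lit 196670) (nat_lit 14) (.e (nat_lit 73746) (nat_lit 3) (.e (nat_lit 516131) (nat_lit 3) .nil))))) .nil)))) (.nd (nat_lit 4) (.nd (nat_lit 5) 
(.lf (nat_lit 112398) (.g (nat_lit 3379) (.e (nat_lit 5600) (nat_lit 310) (.e (nat_lit 163867) (nat_lit 2) (.e (nat_lit 196669) (nat_lit 14) (.e (nat_lit 73755) (nat_lit 8) (.e (nat_lit 557105) (nat_lit 14) (.e (nat_lit 180252) (nat_lit 10) (.e (nat_lit 573474) (nat_lit 12) (.e (nat_lit 57344) (nat_lit 0) .nil)))))))) (.g (nat_lit 6) .nil .nil))) 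
(.lf (nat_lit 112430) (.g (nat_lit 3116) (.e (nat_lit 5601) (nat_lit 310) (.e (nat_lit 163869) (nat_lit 2) (.e (nat_lit 196670) (nat_lit 14) (.e (nat_lit 73755) (nat_lit 8) (.e (nat_lit 557105) (nat_lit 14) .nil))))) .nil))) (.nd (nat_lit 5) 
(.lf (nat_lit 112414) (.g (nat_lit 2728) (.e (nat_lit 5601) (nat_lit 310) (.e (nat_lit 163867) (nat_lit 2) (.e (nat_lit 196668) (nat_lit 14) (.e (nat_lit 73753) (nat_lit 8) (.e (nat_lit 557103) (nat_lit 14) (.e (nat_lit 180250) (nat_lit 10) (.e (nat_lit 573474) (nat_lit 12) (.e (nat_lit 57354) (nat_lit 0) .nil)))))))) (.g (nat_lit 4) .nil .nil))) 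
(.lf (nat_lit 112446) (.g (nat_lit 4422) (.e (nat_lit 5603) (nat_lit 310) (.e (nat_lit 163867) (nat_lit 2) (.e (nat_lit 196670) (nat_lit 14) (.e (nat_lit 73754) (nat_lit 8) (.e (nat_lit 557105) (nat_lit 14) (.e (nat_lit 180252) (nat_lit 10) (.e (nat_lit 573474) (nat_lit 12) (.e (nat_lit 57356) (nat_lit 0) .nil)))))))) (.g (nat_lit 6) .nil .nil)))))))) 
(.nd (nat_lit 1) (.nd (nat_lit 2) (.nd (nat_lit 3) (.nd (nat_lit 4) (.nd (nat_lit 5) 
(.lf (nat_lit 112385) (.g (nat_lit 589) (.e (nat_lit 5599) (nat_lit 310) (.e (nat_lit 163931) (nat_lit 17) (.e (nat_lit 466949) (nat_lit 0) .nil))) .nil)) 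
(.lf (nat_lit 112417) (.g (nat_lit 3471) (.e (nat_lit 5601) (nat_lit 310) (.e (nat_lit 163867) (nat_lit 2) (.e (nat_lit 196670) (nat_lit 14) (.e (nat_lit 73746) (nat_lit 3) (.e (nat_lit 516131) (nat_lit 3) (.e (nat_lit 221212) (nat_lit 22) (.e (nat_lit 196660) (nat_lit 12) (.e (nat_lit 57354) (nat_lit 0) .nil)))))))) (.g (nat_lit 6) .nil .nil)))) (.nd (nat_lit 5) 
(.lf (nat_lit 112401) (.g (nat_lit 2443) (.e (nat_lit 5600) (nat_lit 310) (.e (nat_lit 163867) (nat_lit 2) (.e (nat_lit 196670) (nat_lit 14) (.e (nat_lit 73746) (nat_lit 3) (.e (nat_lit 516129) (nat_lit 3) (.e (nat_lit 221210) (nat_lit 22) (.e (nat_lit 196661) (nat_lit 12) (.e (nat_lit 57358) (nat_lit 0) .nil)))))))) (.g (nat_lit 4) .nil .nil))) 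
(.lf (nat_lit 112433) (.g (nat_lit 1741) (.e (nat_lit 5601) (nat_lit 310) (.e (nat_lit 163874) (nat_lit 3) (.e (nat_lit 204861) (nat_lit 26) (.e (nat_lit 336213) (nat_lit 13) .nil)))) .nil)))) (.nd (nat_lit 4) (.nd (nat_lit 5) 
(.lf (nat_lit 112393) (.g (nat_lit 1703) (.e (nat_lit 5599) (nat_lit 310) (.e (nat_lit 163943) (nat_lit 19) (.e (nat_lit 483346) (nat_lit 17) (.e (nat_lit 969) (nat_lit 81) .nil)))) .nil)) 
(.lf (nat_lit 112425) (.g (nat_lit 4443) (.e (nat_lit 5601) (nat_lit 310) (.e (nat_lit 163869) (nat_lit 2) (.e (nat_lit 196669) (nat_lit 14) (.e (nat_lit 73755) (nat_lit 8) (.e (nat_lit 557105) (nat_lit 14) (.e (nat_lit 180252) (nat_lit 10) (.e (nat_lit 573474) (nat_lit 12) (.e (nat_lit 57354) (nat_lit 0) .nil)))))))) (.g (nat_lit 7) .nil .nil)))) (.nd (nat_lit 5) 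
(.lf (nat_lit 112409) (.g (nat_lit 2787) (.e (nat_lit 5600) (nat_lit 310) (.e (nat_lit 163867) (nat_lit 2) (.e (nat_lit 196670) (nat_lit 14) (.e (nat_lit 73755) (nat_lit 8) (.e (nat_lit 557105) (nat_lit 14) (.e (nat_lit 180252) (nat_lit 10) (.e (nat_lit 573474) (nat_lit 12) (.e (nat_lit 57355) (nat_lit 0) .nil)))))))) (.g (nat_lit 4) .nil .nil))) 
(.lf (nat_lit 112441) (.g (nat_lit 3035) (.e (nat_lit 5603) (nat_lit 310) (.e (nat_lit 163867) (nat_lit 2) (.e (nat_lit 196669) (nat_lit 14) (.e (nat_lit 73755) (nat_lit 8) (.e (nat_lit 557105) (nat_lit 14) (.e (nat_lit 180252) (nat_lit 10) (.e (nat_lit 573474) (nat_lit 12) (.e (nat_lit 57356) (nat_lit 0) .nil)))))))) (.g (nat_lit 5) .nil .nil)))))) 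
(.nd (nat_lit 3) (.nd (nat_lit 4) (.nd (nat_lit 5) 
(.lf (nat_lit 112389) (.g (nat_lit 2406) (.e (nat_lit 5599) (nat_lit 310) (.e (nat_lit 163932) (nat_lit 17) (.e (nat_lit 466972) (nat_lit 21) (.e (nat_lit 164402) (nat_lit 256) (.e (nat_lit 57346) (nat_lit 0) (.e (nat_lit 6724) (nat_lit 362) (.e (nat_lit 180232) (nat_lit 0) .nil))))))) (.g (nat_lit 4) .nil .nil))) 
(.lf (nat_lit 112421) (.g (nat_lit 5343) (.e (nat_lit 5601) (nat_lit 310) (.e (nat_lit 163867) (nat_lit 2) (.e (nat_lit 196670) (nat_lit 14) (.e (nat_lit 73754) (nat_lit 8) (.e (nat_lit 557105) (nat_lit 14) (.e (nat_lit 180252) (nat_lit 10) (.e (nat_lit 573474) (nat_lit 12) (.e (nat_lit 57354) (nat_lit 0) .nil)))))))) (.g (nat_lit 7) .nil .nil)))) (.nd (nat_lit 5) 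
(.lf (nat_lit 112405) (.g (nat_lit 2498) (.e (nat_lit 5600) (nat_lit 310) (.e (nat_lit 163867) (nat_lit 2) (.e (nat_lit 196670) (nat_lit 14) (.e (nat_lit 73753) (nat_lit 8) (.e (nat_lit 557103) (nat_lit 14) (.e (nat_lit 180250) (nat_lit 10) (.e (nat_lit 573475) (nat_lit 12) (.e (nat_lit 57344) (nat_lit 0) .nil)))))))) (.g (nat_lit 4) .nil .nil))) 
(.lf (nat_lit 112437) (.g (nat_lit 2898) (.e (nat_lit 5602) (nat_lit 310) (.e (nat_lit 163867) (nat_lit 2) (.e (nat_lit 196670) (nat_lit 14) (.e (nat_lit 73754) (nat_lit 8) (.e (nat_lit 557105) (nat_lit 14) (.e (nat_lit 180252) (nat_lit 10) (.e (nat_lit 573475) (nat_lit 12) (.e (nat_lit 57344) (nat_lit 0) .nil)))))))) (.g (nat_lit 6) .nil .nil))))) (.nd (nat_lit 4) (.nd (nat_lit 5) 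
(.lf (nat_lit 112397) (.g (nat_lit 2721) (.e (nat_lit 5599) (nat_lit 310) (.e (nat_lit 163945) (nat_lit 20) (.e (nat_lit 491566) (nat_lit 12) (.e (nat_lit 385105) (nat_lit 50) (.e (nat_lit 786481) (nat_lit 30) (.e (nat_lit 360457) (nat_lit 0) .nil)))))) (.g (nat_lit 5) .nil .nil))) 
(.lf (nat_lit 112429) (.g (nat_lit 2831) (.e (nat_lit 5601) (nat_lit 310) (.e (nat_lit 163869) (nat_lit 2) (.e (nat_lit 196670) (nat_lit 14) (.e (nat_lit 73754) (nat_lit 8) (.e (nat_lit 557105) (nat_lit 14) .nil))))) .nil))) (.nd (nat_lit 5) 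
(.lf (nat_lit 112413) (.g (nat_lit 2083) (.e (nat_lit 5600) (nat_lit 310) (.e (nat_lit 163874) (nat_lit 3) (.e (nat_lit 204861) (nat_lit 26) (.e (nat_lit 336213) (nat_lit 13) .nil)))) .nil)) 
(.lf (nat_lit 112445) (.g (nat_lit 2450) (.e (nat_lit 5603) (nat_lit 310) (.e (nat_lit 163867) (nat_lit 2) (.e (nat_lit 196670) (nat_lit 14) (.e (nat_lit 73753) (nat_lit 8) (.e (nat_lit 557103) (nat_lit 14) .nil))))) .nil)))))) (.nd (nat_lit 2) (.nd (nat_lit 3) (.nd (nat_lit 4) (.nd (nat_lit 5) 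
(.lf (nat_lit 112387) (.g (nat_lit 1438) (.e (nat_lit 5599) (nat_lit 310) (.e (nat_lit 163932) (nat_lit 17) (.e (nat_lit 466947) (nat_lit 0) (.e (nat_lit 2174) (nat_lit 143) (.e (nat_lit 712753) (nat_lit 30) .nil))))) .nil)) 
(.lf (nat_lit 112419) (.g (nat_lit 5211) (.e (nat_lit 5601) (nat_lit 310) (.e (nat_lit 163867) (nat_lit 2) (.e (nat_lit 196670) (nat_lit 14) (.e (nat_lit 73753) (nat_lit 8) (.e (nat_lit 557105) (nat_lit 14) (.e (nat_lit 180252) (nat_lit 10) (.e (nat_lit 573474) (nat_lit 12) (.e (nat_lit 57354) (nat_lit 0) .nil)))))))) (.g (nat_lit 7) .nil .nil)))) (.nd (nat_lit 5) 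
(.lf (nat_lit 112403) (.g (nat_lit 2320) (.e (nat_lit 5600) (nat_lit 310) (.e (nat_lit 163867) (nat_lit 2) (.e (nat_lit 196670) (nat_lit 14) (.e (nat_lit 73746) (nat_lit 3) (.e (nat_lit 516131) (nat_lit 3) (.e (nat_lit 221215) (nat_lit 23) (.e (nat_lit 204821) (nat_lit 17) (.e (nat_lit 1040) (nat_lit 81) .nil)))))))) (.g (nat_lit 4) .nil .nil))) 
(.lf (nat_lit 112435) (.g (nat_lit 2458) (.e (nat_lit 5601) (nat_lit 310) (.e (nat_lit 163874) (nat_lit 3) (.e (nat_lit 204864) (nat_lit 27) (.e (nat_lit 344132) (nat_lit 26) (.e (nat_lit 557105) (nat_lit 14) (.e (nat_lit 180252) (nat_lit 10) (.e (nat_lit 573475) (nat_lit 12) (.e (nat_lit 57344) (nat_lit 0) .nil)))))))) (.g (nat_lit 4) .nil .nil))))) (.nd (nat_lit 4) (.nd (nat_lit 5) 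
(.lf (nat_lit 112395) (.g (nat_lit 1141) (.e (nat_lit 5599) (nat_lit 310) (.e (nat_lit 163943) (nat_lit 19) (.e (nat_lit 483358) (nat_lit 17) .nil))) .nil)) 
(.lf (nat_lit 112427) (.g (nat_lit 2453) (.e (nat_lit 5601) (nat_lit 310) (.e (nat_lit 163869) (nat_lit 2) (.e (nat_lit 196670) (nat_lit 14) (.e (nat_lit 73753) (nat_lit 8) (.e (nat_lit 557103) (nat_lit 14) .nil))))) .nil))) (.nd (nat_lit 5) 
(.lf (nat_lit 112411) (.g (nat_lit 1912) (.e (nat_lit 5600) (nat_lit 310) (.e (nat_lit 163873) (nat_lit 3) (.e (nat_lit 204861) (nat_lit 26) (.e (nat_lit 336075) (nat_lit 9) (.e (nat_lit 336367) (nat_lit 27) (.e (nat_lit 426533) (nat_lit 28) (.e (nat_lit 344100) (nat_lit 18) .nil))))))) (.g (nat_lit 4) .nil .nil))) 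
(.lf (nat_lit 112443) (.g (nat_lit 2363) (.e (nat_lit 5603) (nat_lit 310) (.e (nat_lit 163867) (nat_lit 2) (.e (nat_lit 196670) (nat_lit 14) (.e (nat_lit 73746) (nat_lit 3) (.e (nat_lit 516131) (nat_lit 3) .nil))))) .nil))))) (.nd (nat_lit 3) (.nd (nat_lit 4) (.nd (nat_lit 5) 
(.lf (nat_lit 112391) (.g (nat_lit 820) (.e (nat_lit 5599) (nat_lit 310) (.e (nat_lit 163941) (nat_lit 19) (.e (nat_lit 483349) (nat_lit 17) .nil))) .nil)) 
(.lf (nat_lit 112423) (.g (nat_lit 2629) (.e (nat_lit 5601) (nat_lit 310) (.e (nat_lit 163867) (nat_lit 2) (.e (nat_lit 196670) (nat_lit 14) (.e (nat_lit 73755) (nat_lit 8) (.e (nat_lit 557105) (nat_lit 14) .nil))))) .nil))) (.nd (nat_lit 5) 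
(.lf (nat_lit 112407) (.g (nat_lit 2459) (.e (nat_lit 5600) (nat_lit 310) (.e (nat_lit 163867) (nat_lit 2) (.e (nat_lit 196670) (nat_lit 14) (.e (nat_lit 73753) (nat_lit 8) (.e (nat_lit 557105) (nat_lit 14) (.e (nat_lit 180252) (nat_lit 10) (.e (nat_lit 573475) (nat_lit 12) (.e (nat_lit 57356) (nat_lit 0) .nil)))))))) (.g (nat_lit 4) .nil .nil))) 
(.lf (nat_lit 112439) (.g (nat_lit 2683) (.e (nat_lit 5602) (nat_lit 310) (.e (nat_lit 163869) (nat_lit 2) (.e (nat_lit 196670) (nat_lit 14) (.e (nat_lit 73753) (nat_lit 8) (.e (nat_lit 557105) (nat_lit 14) .nil))))) .nil)))) (.nd (nat_lit 4) (.nd (nat_lit 5) 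
(.lf (nat_lit 112399) (.g (nat_lit 2381) (.e (nat_lit 5600) (nat_lit 310) (.e (nat_lit 163867) (nat_lit 2) (.e (nat_lit 196670) (nat_lit 14) (.e (nat_lit 73746) (nat_lit 3) (.e (nat_lit 516129) (nat_lit 3) (.e (nat_lit 221210) (nat_lit 22) (.e (nat_lit 196660) (nat_lit 12) (.e (nat_lit 57354) (nat_lit 0) .nil)))))))) (.g (nat_lit 4) .nil .nil))) 
(.lf (nat_lit 112431) (.g (nat_lit 2601) (.e (nat_lit 5601) (nat_lit 310) (.e (nat_lit 163873) (nat_lit 3) (.e (nat_lit 204861) (nat_lit 26) (.e (nat_lit 336075) (nat_lit 9) (.e (nat_lit 336367) (nat_lit 27) (.e (nat_lit 426533) (nat_lit 28) (.e (nat_lit 344100) (nat_lit 18) .nil))))))) (.g (nat_lit 6) .nil .nil)))) (.nd (nat_lit 5) 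
(.lf (nat_lit 112415) (.g (nat_lit 2198) (.e (nat_lit 5601) (nat_lit 310) (.e (nat_lit 163867) (nat_lit 2) (.e (nat_lit 196670) (nat_lit 14) (.e (nat_lit 73746) (nat_lit 3) (.e (nat_lit 516129) (nat_lit 3) .nil))))) .nil)) 
(.lf (nat_lit 112447) (.g (nat_lit 3944) (.e (nat_lit 5603) (nat_lit 310) (.e (nat_lit 163867) (nat_lit 2) (.e (nat_lit 196670) (nat_lit 14) (.e (nat_lit 73754) (nat_lit 8) (.e (nat_lit 557105) (nat_lit 14) (.e (nat_lit 180252) (nat_lit 10) (.e (nat_lit 573475) (nat_lit 12) (.e (nat_lit 57356) (nat_lit 0) .nil)))))))) (.g (nat_lit 7) .nil .nil)))))))))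

noncomputable def tv1518 : DT := (.nd (nat_lit 0) (.nd (nat_lit 1) (.nd (nat_lit 2) (.nd (nat_lit 3) (.nd (nat_lit 4) (.nd (nat_lit 5) 
(.lf (nat_lit 112448) (.g (nat_lit 1926) (.e (nat_lit 5603) (nat_lit 310) (.e (nat_lit 163867) (nat_lit 2) (.e (nat_lit 196670) (nat_lit 14) (.e (nat_lit 73754) (nat_lit 8) (.e (nat_lit 557105) (nat_lit 14) (.e (nat_lit 180252) (nat_lit 10) (.e (nat_lit 573475) (nat_lit 12) (.e (nat_lit 65280) (nat_lit 0) .nil)))))))) (.g (nat_lit 4) .nil .nil))) 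
(.lf (nat_lit 112480) (.g (nat_lit 2377) (.e (nat_lit 5603) (nat_lit 310) (.e (nat_lit 163874) (nat_lit 3) (.e (nat_lit 204864) (nat_lit 27) (.e (nat_lit 344130) (nat_lit 26) (.e (nat_lit 557104) (nat_lit 14) (.e (nat_lit 180252) (nat_lit 10) (.e (nat_lit 573474) (nat_lit 12) (.e (nat_lit 57356) (nat_lit 0) .nil)))))))) (.g (nat_lit 4) .nil .nil)))) (.nd (nat_lit 5) 
(.lf (nat_lit 112464) (.g (nat_lit 3534) (.e (nat_lit 5603) (nat_lit 310) (.e (nat_lit 163869) (nat_lit 2) (.e (nat_lit 196670) (nat_lit 14) (.e (nat_lit 73754) (nat_lit 8) (.e (nat_lit 557105) (nat_lit 14) (.e (nat_lit 180251) (nat_lit 10) (.e (nat_lit 573478) (nat_lit 12) (.e (nat_lit 57344) (nat_lit 0) .nil)))))))) (.g (nat_lit 5) .nil .nil))) 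
(.lf (nat_lit 112496) (.g (nat_lit 4630) (.e (nat_lit 5604) (nat_lit 310) (.e (nat_lit 163867) (nat_lit 2) (.e (nat_lit 196670) (nat_lit 14) (.e (nat_lit 73753) (nat_lit 8) (.e (nat_lit 557105) (nat_lit 14) (.e (nat_lit 180252) (nat_lit 10) (.e (nat_lit 573474) (nat_lit 12) (.e (nat_lit 57349) (nat_lit 0) .nil)))))))) (.g (nat_lit 6) .nil .nil))))) (.nd (nat_lit 4) (.nd (nat_lit 5) 
(.lf (nat_lit 112456) (.g (nat_lit 3746) (.e (nat_lit 5603) (nat_lit 310) (.e (nat_lit 163869) (nat_lit 2) (.e (nat_lit 196670) (nat_lit 14) (.e (nat_lit 73746) (nat_lit 3) (.e (nat_lit 516129) (nat_lit 3) (.e (nat_lit 221214) (nat_lit 23) (.e (nat_lit 204821) (nat_lit 17) (.e (nat_lit 1040) (nat_lit 81) .nil)))))))) (.g (nat_lit 6) .nil .nil))) 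
(.lf (nat_lit 112488) (.g (nat_lit 1515) (.e (nat_lit 5603) (nat_lit 310) (.e (nat_lit 163931) (nat_lit 17) (.e (nat_lit 466947) (nat_lit 0) (.e (nat_lit 2175) (nat_lit 143) (.e (nat_lit 712755) (nat_lit 30) (.e (nat_lit 458496) (nat_lit 0) .nil)))))) (.g (nat_lit 4) .nil .nil)))) (.nd (nat_lit 5) 
(.lf (nat_lit 112472) (.g (nat_lit 1849) (.e (nat_lit 5603) (nat_lit 310) (.e (nat_lit 163873) (nat_lit 3) (.e (nat_lit 204861) (nat_lit 26) (.e (nat_lit 336075) (nat_lit 9) (.e (nat_lit 336367) (nat_lit 27) (.e (nat_lit 426533) (nat_lit 28) (.e (nat_lit 344100) (nat_lit 18) .nil))))))) (.g (nat_lit 4) .nil .nil))) 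
(.lf (nat_lit 112504) (.g (nat_lit 2599) (.e (nat_lit 5604) (nat_lit 310) (.e (nat_lit 163869) (nat_lit 2) (.e (nat_lit 196670) (nat_lit 14) (.e (nat_lit 73753) (nat_lit 8) (.e (nat_lit 557103) (nat_lit 14) .nil))))) .nil))))) (.nd (nat_lit 3) (.nd (nat_lit 4) (.nd (nat_lit 5) 
(.lf (nat_lit 112452) (.g (nat_lit 2457) (.e (nat_lit 5603) (nat_lit 310) (.e (nat_lit 163869) (nat_lit 2) (.e (nat_lit 196668) (nat_lit 14) (.e (nat_lit 73753) (nat_lit 8) (.e (nat_lit 557103) (nat_lit 14) .nil))))) .nil)) 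
(.lf (nat_lit 112484) (.g (nat_lit 1500) (.e (nat_lit 5603) (nat_lit 310) (.e (nat_lit 163905) (nat_lit 12) (.e (nat_lit 426320) (nat_lit 12) (.e (nat_lit 475208) (nat_lit 41) .nil)))) .nil))) (.nd (nat_lit 5) 
(.lf (nat_lit 112468) (.g (nat_lit 4941) (.e (nat_lit 5603) (nat_lit 310) (.e (nat_lit 163869) (nat_lit 2) (.e (nat_lit 196670) (nat_lit 14) (.e (nat_lit 73754) (nat_lit 8) (.e (nat_lit 557105) (nat_lit 14) (.e (nat_lit 180252) (nat_lit 10) (.e (nat_lit 573475) (nat_lit 12) (.e (nat_lit 57344) (nat_lit 0) .nil)))))))) (.g (nat_lit 7) .nil .nil))) 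
(.lf (nat_lit 112500) (.g (nat_lit 3075) (.e (nat_lit 5604) (nat_lit 310) (.e (nat_lit 163867) (nat_lit 2) (.e (nat_lit 196670) (nat_lit 14) (.e (nat_lit 73754) (nat_lit 8) (.e (nat_lit 557105) (nat_lit 14) (.e (nat_lit 180252) (nat_lit 10) (.e (nat_lit 573475) (nat_lit 12) (.e (nat_lit 57344) (nat_lit 0) .nil)))))))) (.g (nat_lit 6) .nil .nil))))) (.nd (nat_lit 4) (.nd (nat_lit 5) 
(.lf (nat_lit 112460) (.g (nat_lit 2231) (.e (nat_lit 5603) (nat_lit 310) (.e (nat_lit 163869) (nat_lit 2) (.e (nat_lit 196670) (nat_lit 14) (.e (nat_lit 73753) (nat_lit 8) (.e (nat_lit 557103) (nat_lit 14) (.e (nat_lit 180250) (nat_lit 10) (.e (nat_lit 573474) (nat_lit 12) (.e (nat_lit 57355) (nat_lit 0) .nil)))))))) (.g (nat_lit 4) .nil .nil))) 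
(.lf (nat_lit 112492) (.g (nat_lit 3219) (.e (nat_lit 5604) (nat_lit 310) (.e (nat_lit 163867) (nat_lit 2) (.e (nat_lit 196669) (nat_lit 14) (.e (nat_lit 73755) (nat_lit 8) (.e (nat_lit 557105) (nat_lit 14) (.e (nat_lit 180252) (nat_lit 10) (.e (nat_lit 573474) (nat_lit 12) (.e (nat_lit 57345) (nat_lit 0) .nil)))))))) (.g (nat_lit 5) .nil .nil)))) (.nd (nat_lit 5) 
(.lf (nat_lit 112476) (.g (nat_lit 2311) (.e (nat_lit 5603) (nat_lit 310) (.e (nat_lit 163874) (nat_lit 3) (.e (nat_lit 204861) (nat_lit 26) (.e (nat_lit 336213) (nat_lit 13) (.e (nat_lit 401152) (nat_lit 10) .nil))))) .nil)) 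
(.lf (nat_lit 112508) (.g (nat_lit 2905) (.e (nat_lit 5604) (nat_lit 310) (.e (nat_lit 163869) (nat_lit 2) (.e (nat_lit 196670) (nat_lit 14) (.e (nat_lit 73753) (nat_lit 8) (.e (nat_lit 557105) (nat_lit 14) (.e (nat_lit 180252) (nat_lit 10) (.e (nat_lit 573475) (nat_lit 12) (.e (nat_lit 57349) (nat_lit 0) .nil)))))))) (.g (nat_lit 4) .nil .nil))))))) 
(.nd (nat_lit 2) (.nd (nat_lit 3) (.nd (nat_lit 4) (.nd (nat_lit 5) 
(.lf (nat_lit 112450) (.g (nat_lit 3015) (.e (nat_lit 5603) (nat_lit 310) (.e (nat_lit 163867) (nat_lit 2) (.e (nat_lit 196670) (nat_lit 14) (.e (nat_lit 73755) (nat_lit 8) (.e (nat_lit 557105) (nat_lit 14) (.e (nat_lit 180252) (nat_lit 10) (.e (nat_lit 573474) (nat_lit 12) (.e (nat_lit 57355) (nat_lit 0) .nil)))))))) (.g (nat_lit 4) .nil .nil))) 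
(.lf (nat_lit 112482) (.g (nat_lit 2634) (.e (nat_lit 5603) (nat_lit 310) (.e (nat_lit 163874) (nat_lit 3) (.e (nat_lit 204864) (nat_lit 27) (.e (nat_lit 344132) (nat_lit 26) (.e (nat_lit 557105) (nat_lit 14) (.e (nat_lit 180252) (nat_lit 10) (.e (nat_lit 573475) (nat_lit 12) (.e (nat_lit 57356) (nat_lit 0) .nil)))))))) (.g (nat_lit 4) .nil .nil)))) (.nd (nat_lit 5) 
(.lf (nat_lit 112466) (.g (nat_lit 5377) (.e (nat_lit 5603) (nat_lit 310) (.e (nat_lit 163869) (nat_lit 2) (.e (nat_lit 196670) (nat_lit 14) (.e (nat_lit 73754) (nat_lit 8) (.e (nat_lit 557105) (nat_lit 14) (.e (nat_lit 180252) (nat_lit 10) (.e (nat_lit 573474) (nat_lit 12) (.e (nat_lit 57355) (nat_lit 0) .nil)))))))) (.g (nat_lit 6) .nil .nil))) 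
(.lf (nat_lit 112498) (.g (nat_lit 4606) (.e (nat_lit 5604) (nat_lit 310) (.e (nat_lit 163867) (nat_lit 2) (.e (nat_lit 196670) (nat_lit 14) (.e (nat_lit 73754) (nat_lit 8) (.e (nat_lit 557105) (nat_lit 14) (.e (nat_lit 180252) (nat_lit 10) (.e (nat_lit 573474) (nat_lit 12) (.e (nat_lit 57345) (nat_lit 0) .nil)))))))) (.g (nat_lit 6) .nil .nil))))) (.nd (nat_lit 4) (.nd (nat_lit 5) 
(.lf (nat_lit 112458) (.g (nat_lit 2885) (.e (nat_lit 5603) (nat_lit 310) (.e (nat_lit 163869) (nat_lit 2) (.e (nat_lit 196670) (nat_lit 14) (.e (nat_lit 73746) (nat_lit 3) (.e (nat_lit 516131) (nat_lit 3) (.e (nat_lit 221211) (nat_lit 22) (.e (nat_lit 196661) (nat_lit 12) (.e (nat_lit 65280) (nat_lit 0) .nil)))))))) (.g (nat_lit 7) .nil .nil))) 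
(.lf (nat_lit 112490) (.g (nat_lit 531) (.e (nat_lit 5604) (nat_lit 310) (.e (nat_lit 163843) (nat_lit 0) (.e (nat_lit 3114) (nat_lit 193) .nil))) .nil))) (.nd (nat_lit 5) 
(.lf (nat_lit 112474) (.g (nat_lit 2158) (.e (nat_lit 5603) (nat_lit 310) (.e (nat_lit 163874) (nat_lit 3) (.e (nat_lit 204861) (nat_lit 26) (.e (nat_lit 336213) (nat_lit 13) (.e (nat_lit 393225) (nat_lit 9) .nil))))) .nil)) 
(.lf (nat_lit 112506) (.g (nat_lit 4558) (.e (nat_lit 5604) (nat_lit 310) (.e (nat_lit 163869) (nat_lit 2) (.e (nat_lit 196670) (nat_lit 14) (.e (nat_lit 73753) (nat_lit 8) (.e (nat_lit 557105) (nat_lit 14) (.e (nat_lit 180252) (nat_lit 10) (.e (nat_lit 573474) (nat_lit 12) (.e (nat_lit 57349) (nat_lit 0) .nil)))))))) (.g (nat_lit 6) .nil .nil)))))) 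
(.nd (nat_lit 3) (.nd (nat_lit 4) (.nd (nat_lit 5) 
(.lf (nat_lit 112454) (.g (nat_lit 4447) (.e (nat_lit 5603) (nat_lit 310) (.e (nat_lit 163869) (nat_lit 2) (.e (nat_lit 196669) (nat_lit 14) (.e (nat_lit 73755) (nat_lit 8) (.e (nat_lit 557105) (nat_lit 14) (.e (nat_lit 180252) (nat_lit 10) (.e (nat_lit 573474) (nat_lit 12) (.e (nat_lit 57356) (nat_lit 0) .nil)))))))) (.g (nat_lit 7) .nil .nil))) 
(.lf (nat_lit 112486) (.g (nat_lit 1303) (.e (nat_lit 5603) (nat_lit 310) (.e (nat_lit 163931) (nat_lit 17) (.e (nat_lit 466947) (nat_lit 0) (.e (nat_lit 2173) (nat_lit 143) (.e (nat_lit 712753) (nat_lit 30) .nil))))) .nil))) (.nd (nat_lit 5) 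
(.lf (nat_lit 112470) (.g (nat_lit 4996) (.e (nat_lit 5603) (nat_lit 310) (.e (nat_lit 163869) (nat_lit 2) (.e (nat_lit 196670) (nat_lit 14) (.e (nat_lit 73754) (nat_lit 8) (.e (nat_lit 557105) (nat_lit 14) (.e (nat_lit 180252) (nat_lit 10) (.e (nat_lit 573475) (nat_lit 12) (.e (nat_lit 57356) (nat_lit 0) .nil)))))))) (.g (nat_lit 7) .nil .nil))) 
(.lf (nat_lit 112502) (.g (nat_lit 2212) (.e (nat_lit 5604) (nat_lit 310) (.e (nat_lit 163869) (nat_lit 2) (.e (nat_lit 196669) (nat_lit 14) (.e (nat_lit 73755) (nat_lit 8) (.e (nat_lit 557105) (nat_lit 14) (.e (nat_lit 180252) (nat_lit 10) (.e (nat_lit 573474) (nat_lit 12) (.e (nat_lit 57344) (nat_lit 0) .nil)))))))) (.g (nat_lit 4) .nil .nil))))) (.nd (nat_lit 4) (.nd (nat_lit 5) 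
(.lf (nat_lit 112462) (.g (nat_lit 1869) (.e (nat_lit 5603) (nat_lit 310) (.e (nat_lit 163869) (nat_lit 2) (.e (nat_lit 196670) (nat_lit 14) (.e (nat_lit 73754) (nat_lit 8) .nil)))) .nil)) 
(.lf (nat_lit 112494) (.g (nat_lit 3443) (.e (nat_lit 5604) (nat_lit 310) (.e (nat_lit 163867) (nat_lit 2) (.e (nat_lit 196670) (nat_lit 14) (.e (nat_lit 73753) (nat_lit 8) (.e (nat_lit 557105) (nat_lit 14) (.e (nat_lit 180252) (nat_lit 10) (.e (nat_lit 573474) (nat_lit 12) (.e (nat_lit 57344) (nat_lit 0) .nil)))))))) (.g (nat_lit 5) .nil .nil)))) (.nd (nat_lit 5) 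
(.lf (nat_lit 112478) (.g (nat_lit 1801) (.e (nat_lit 5603) (nat_lit 310) (.e (nat_lit 163874) (nat_lit 3) (.e (nat_lit 204861) (nat_lit 26) (.e (nat_lit 336215) (nat_lit 13) .nil)))) .nil)) 
(.lf (nat_lit 112510) (.g (nat_lit 3320) (.e (nat_lit 5604) (nat_lit 310) (.e (nat_lit 163869) (nat_lit 2) (.e (nat_lit 196670) (nat_lit 14) (.e (nat_lit 73754) (nat_lit 8) (.e (nat_lit 557105) (nat_lit 14) (.e (nat_lit 180252) (nat_lit 10) (.e (nat_lit 573475) (nat_lit 12) (.e (nat_lit 57344) (nat_lit 0) .nil)))))))) (.g (nat_lit 4) .nil .nil)))))))) 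
(.nd (nat_lit 1) (.nd (nat_lit 2) (.nd (nat_lit 3) (.nd (nat_lit 4) (.nd (nat_lit 5) 
(.lf (nat_lit 112449) (.g (nat_lit 2790) (.e (nat_lit 5603) (nat_lit 310) (.e (nat_lit 163867) (nat_lit 2) (.e (nat_lit 196670) (nat_lit 14) (.e (nat_lit 73755) (nat_lit 8) (.e (nat_lit 557105) (nat_lit 14) (.e (nat_lit 180252) (nat_lit 10) (.e (nat_lit 573474) (nat_lit 12) (.e (nat_lit 57344) (nat_lit 0) .nil)))))))) (.g (nat_lit 4) .nil .nil))) 
(.lf (nat_lit 112481) (.g (nat_lit 2552) (.e (nat_lit 5603) (nat_lit 310) (.e (nat_lit 163874) (nat_lit 3) (.e (nat_lit 204864) (nat_lit 27) (.e (nat_lit 344132) (nat_lit 26) (.e (nat_lit 557105) (nat_lit 14) (.e (nat_lit 180252) (nat_lit 10) (.e (nat_lit 573475) (nat_lit 12) (.e (nat_lit 57344) (nat_lit 0) .nil)))))))) (.g (nat_lit 4) .nil .nil)))) (.nd (nat_lit 5) 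
(.lf (nat_lit 112465) (.g (nat_lit 3501) (.e (nat_lit 5603) (nat_lit 310) (.e (nat_lit 163869) (nat_lit 2) (.e (nat_lit 196670) (nat_lit 14) (.e (nat_lit 73754) (nat_lit 8) (.e (nat_lit 557105) (nat_lit 14) (.e (nat_lit 180251) (nat_lit 10) (.e (nat_lit 573478) (nat_lit 12) (.e (nat_lit 57356) (nat_lit 0) .nil)))))))) (.g (nat_lit 5) .nil .nil))) 
(.lf (nat_lit 112497) (.g (nat_lit 3402) (.e (nat_lit 5604) (nat_lit 310) (.e (nat_lit 163867) (nat_lit 2) (.e (nat_lit 196670) (nat_lit 14) (.e (nat_lit 73753) (nat_lit 8) (.e (nat_lit 557105) (nat_lit 14) (.e (nat_lit 180252) (nat_lit 10) (.e (nat_lit 573475) (nat_lit 12) (.e (nat_lit 57345) (nat_lit 0) .nil)))))))) (.g (nat_lit 5) .nil .nil))))) (.nd (nat_lit 4) (.nd (nat_lit 5) 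
(.lf (nat_lit 112457) (.g (nat_lit 3103) (.e (nat_lit 5603) (nat_lit 310) (.e (nat_lit 163869) (nat_lit 2) (.e (nat_lit 196670) (nat_lit 14) (.e (nat_lit 73746) (nat_lit 3) (.e (nat_lit 516131) (nat_lit 3) (.e (nat_lit 221211) (nat_lit 22) (.e (nat_lit 196661) (nat_lit 12) (.e (nat_lit 57357) (nat_lit 0) .nil)))))))) (.g (nat_lit 0) .nil .nil))) 
(.lf (nat_lit 112489) (.g (nat_lit 1482) (.e (nat_lit 5603) (nat_lit 310) (.e (nat_lit 163932) (nat_lit 17) (.e (nat_lit 466947) (nat_lit 0) (.e (nat_lit 2173) (nat_lit 143) (.e (nat_lit 712755) (nat_lit 30) (.e (nat_lit 458496) (nat_lit 0) .nil)))))) (.g (nat_lit 4) .nil .nil)))) (.nd (nat_lit 5) 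
(.lf (nat_lit 112473) (.g (nat_lit 2312) (.e (nat_lit 5603) (nat_lit 310) (.e (nat_lit 163873) (nat_lit 3) (.e (nat_lit 204861) (nat_lit 26) (.e (nat_lit 336076) (nat_lit 9) (.e (nat_lit 336367) (nat_lit 27) (.e (nat_lit 426533) (nat_lit 28) (.e (nat_lit 344100) (nat_lit 18) .nil))))))) (.g (nat_lit 4) .nil .nil))) 
(.lf (nat_lit 112505) (.g (nat_lit 3371) (.e (nat_lit 5604) (nat_lit 310) (.e (nat_lit 163869) (nat_lit 2) (.e (nat_lit 196670) (nat_lit 14) (.e (nat_lit 73753) (nat_lit 8) (.e (nat_lit 557105) (nat_lit 14) (.e (nat_lit 180252) (nat_lit 10) (.e (nat_lit 573474) (nat_lit 12) (.e (nat_lit 57344) (nat_lit 0) .nil)))))))) (.g (nat_lit 5) .nil .nil)))))) 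
(.nd (nat_lit 3) (.nd (nat_lit 4) (.nd (nat_lit 5) 
(.lf (nat_lit 112453) (.g (nat_lit 2550) (.e (nat_lit 5603) (nat_lit 310) (.e (nat_lit 163869) (nat_lit 2) (.e (nat_lit 196668) (nat_lit 14) (.e (nat_lit 73753) (nat_lit 8) (.e (nat_lit 557103) (nat_lit 14) (.e (nat_lit 180250) (nat_lit 10) (.e (nat_lit 573474) (nat_lit 12) (.e (nat_lit 57356) (nat_lit 0) .nil)))))))) (.g (nat_lit 4) .nil .nil))) 
(.lf (nat_lit 112485) (.g (nat_lit 1055) (.e (nat_lit 5603) (nat_lit 310) (.e (nat_lit 163931) (nat_lit 17) (.e (nat_lit 466947) (nat_lit 0) (.e (nat_lit 2172) (nat_lit 143) .nil)))) .nil))) (.nd (nat_lit 5) 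
(.lf (nat_lit 112469) (.g (nat_lit 3918) (.e (nat_lit 5603) (nat_lit 310) (.e (nat_lit 163869) (nat_lit 2) (.e (nat_lit 196670) (nat_lit 14) (.e (nat_lit 73754) (nat_lit 8) (.e (nat_lit 557105) (nat_lit 14) (.e (nat_lit 180252) (nat_lit 10) (.e (nat_lit 573475) (nat_lit 12) (.e (nat_lit 57355) (nat_lit 0) .nil)))))))) (.g (nat_lit 6) .nil .nil))) 
(.lf (nat_lit 112501) (.g (nat_lit 1990) (.e (nat_lit 5604) (nat_lit 310) (.e (nat_lit 163869) (nat_lit 2) (.e (nat_lit 196669) (nat_lit 14) (.e (nat_lit 73755) (nat_lit 8) (.e (nat_lit 557105) (nat_lit 14) .nil))))) .nil)))) (.nd (nat_lit 4) (.nd (nat_lit 5) 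
(.lf (nat_lit 112461) (.g (nat_lit 3148) (.e (nat_lit 5603) (nat_lit 310) (.e (nat_lit 163869) (nat_lit 2) (.e (nat_lit 196670) (nat_lit 14) (.e (nat_lit 73753) (nat_lit 8) (.e (nat_lit 557103) (nat_lit 14) (.e (nat_lit 180250) (nat_lit 10) (.e (nat_lit 573474) (nat_lit 12) (.e (nat_lit 57356) (nat_lit 0) .nil)))))))) (.g (nat_lit 5) .nil .nil))) 
(.lf (nat_lit 112493) (.g (nat_lit 2624) (.e (nat_lit 5604) (nat_lit 310) (.e (nat_lit 163867) (nat_lit 2) (.e (nat_lit 196670) (nat_lit 14) (.e (nat_lit 73753) (nat_lit 8) (.e (nat_lit 557103) (nat_lit 14) (.e (nat_lit 180250) (nat_lit 10) (.e (nat_lit 573475) (nat_lit 12) (.e (nat_lit 57345) (nat_lit 0) .nil)))))))) (.g (nat_lit 4) .nil .nil)))) (.nd (nat_lit 5) 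
(.lf (nat_lit 112477) (.g (nat_lit 1825) (.e (nat_lit 5603) (nat_lit 310) (.e (nat_lit 163874) (nat_lit 3) (.e (nat_lit 204861) (nat_lit 26) (.e (nat_lit 336214) (nat_lit 13) .nil)))) .nil)) 
(.lf (nat_lit 112509) (.g (nat_lit 2980) (.e (nat_lit 5604) (nat_lit 310) (.e (nat_lit 163869) (nat_lit 2) (.e (nat_lit 196670) (nat_lit 14) (.e (nat_lit 73754) (nat_lit 8) (.e (nat_lit 557105) (nat_lit 14) .nil))))) .nil)))))) (.nd (nat_lit 2) (.nd (nat_lit 3) (.nd (nat_lit 4) (.nd (nat_lit 5) 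
(.lf (nat_lit 112451) (.g (nat_lit 2962) (.e (nat_lit 5603) (nat_lit 310) (.e (nat_lit 163867) (nat_lit 2) (.e (nat_lit 196670) (nat_lit 14) (.e (nat_lit 73755) (nat_lit 8) (.e (nat_lit 557105) (nat_lit 14) (.e (nat_lit 180252) (nat_lit 10) (.e (nat_lit 573474) (nat_lit 12) (.e (nat_lit 57358) (nat_lit 0) .nil)))))))) (.g (nat_lit 4) .nil .nil))) 
(.lf (nat_lit 112483) (.g (nat_lit 1462) (.e (nat_lit 5603) (nat_lit 310) (.e (nat_lit 163905) (nat_lit 12) (.e (nat_lit 426320) (nat_lit 12) (.e (nat_lit 475207) (nat_lit 41) .nil)))) .nil))) (.nd (nat_lit 5) 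
(.lf (nat_lit 112467) (.g (nat_lit 5324) (.e (nat_lit 5603) (nat_lit 310) (.e (nat_lit 163869) (nat_lit 2) (.e (nat_lit 196670) (nat_lit 14) (.e (nat_lit 73754) (nat_lit 8) (.e (nat_lit 557105) (nat_lit 14) (.e (nat_lit 180252) (nat_lit 10) (.e (nat_lit 573474) (nat_lit 12) (.e (nat_lit 57358) (nat_lit 0) .nil)))))))) (.g (nat_lit 6) .nil .nil))) 
(.lf (nat_lit 112499) (.g (nat_lit 4762) (.e (nat_lit 5604) (nat_lit 310) (.e (nat_lit 163867) (nat_lit 2) (.e (nat_lit 196670) (nat_lit 14) (.e (nat_lit 73754) (nat_lit 8) (.e (nat_lit 557105) (nat_lit 14) (.e (nat_lit 180252) (nat_lit 10) (.e (nat_lit 573474) (nat_lit 12) (.e (nat_lit 57349) (nat_lit 0) .nil)))))))) (.g (nat_lit 6) .nil .nil))))) (.nd (nat_lit 4) (.nd (nat_lit 5) 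
(.lf (nat_lit 112459) (.g (nat_lit 3911) (.e (nat_lit 5603) (nat_lit 310) (.e (nat_lit 163869) (nat_lit 2) (.e (nat_lit 196670) (nat_lit 14) (.e (nat_lit 73746) (nat_lit 3) (.e (nat_lit 516131) (nat_lit 3) (.e (nat_lit 221215) (nat_lit 23) (.e (nat_lit 204827) (nat_lit 17) (.e (nat_lit 1041) (nat_lit 81) .nil)))))))) (.g (nat_lit 7) .nil .nil))) 
(.lf (nat_lit 112491) (.g (nat_lit 2188) (.e (nat_lit 5604) (nat_lit 310) (.e (nat_lit 163867) (nat_lit 2) (.e (nat_lit 196669) (nat_lit 14) (.e (nat_lit 73755) (nat_lit 8) (.e (nat_lit 557105) (nat_lit 14) (.e (nat_lit 180252) (nat_lit 10) (.e (nat_lit 573474) (nat_lit 12) (.e (nat_lit 57344) (nat_lit 0) .nil)))))))) (.g (nat_lit 4) .nil .nil)))) (.nd (nat_lit 5) 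
(.lf (nat_lit 112475) (.g (nat_lit 2521) (.e (nat_lit 5603) (nat_lit 310) (.e (nat_lit 163874) (nat_lit 3) (.e (nat_lit 204861) (nat_lit 26) (.e (nat_lit 336213) (nat_lit 13) (.e (nat_lit 393229) (nat_lit 9) (.e (nat_lit 335892) (nat_lit 0) (.e (nat_lit 1034) (nat_lit 81) .nil))))))) (.g (nat_lit 4) .nil .nil))) 
(.lf (nat_lit 112507) (.g (nat_lit 3330) (.e (nat_lit 5604) (nat_lit 310) (.e (nat_lit 163869) (nat_lit 2) (.e (nat_lit 196670) (nat_lit 14) (.e (nat_lit 73753) (nat_lit 8) (.e (nat_lit 557105) (nat_lit 14) (.e (nat_lit 180252) (nat_lit 10) (.e (nat_lit 573475) (nat_lit 12) (.e (nat_lit 57345) (nat_lit 0) .nil)))))))) (.g (nat_lit 5) .nil .nil)))))) 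
(.nd (nat_lit 3) (.nd (nat_lit 4) (.nd (nat_lit 5) 
(.lf (nat_lit 112455) (.g (nat_lit 3851) (.e (nat_lit 5603) (nat_lit 310) (.e (nat_lit 163869) (nat_lit 2) (.e (nat_lit 196670) (nat_lit 14) (.e (nat_lit 73746) (nat_lit 3) (.e (nat_lit 516129) (nat_lit 3) (.e (nat_lit 221210) (nat_lit 22) (.e (nat_lit 196661) (nat_lit 12) (.e (nat_lit 65280) (nat_lit 0) .nil)))))))) (.g (nat_lit 7) .nil .nil))) 
(.lf (nat_lit 112487) (.g (nat_lit 1613) (.e (nat_lit 5603) (nat_lit 310) (.e (nat_lit 163931) (nat_lit 17) (.e (nat_lit 466947) (nat_lit 0) (.e (nat_lit 2175) (nat_lit 143) (.e (nat_lit 712753) (nat_lit 30) .nil))))) .nil))) (.nd (nat_lit 5) 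
(.lf (nat_lit 112471) (.g (nat_lit 3852) (.e (nat_lit 5603) (nat_lit 310) (.e (nat_lit 163869) (nat_lit 2) (.e (nat_lit 196670) (nat_lit 14) (.e (nat_lit 73755) (nat_lit 8) (.e (nat_lit 557105) (nat_lit 14) (.e (nat_lit 180252) (nat_lit 10) (.e (nat_lit 573474) (nat_lit 12) (.e (nat_lit 57344) (nat_lit 0) .nil)))))))) (.g (nat_lit 5) .nil .nil))) 
(.lf (nat_lit 112503) (.g (nat_lit 3243) (.e (nat_lit 5604) (nat_lit 310) (.e (nat_lit 163869) (nat_lit 2) (.e (nat_lit 196669) (nat_lit 14) (.e (nat_lit 73755) (nat_lit 8) (.e (nat_lit 557105) (nat_lit 14) (.e (nat_lit 180252) (nat_lit 10) (.e (nat_lit 573474) (nat_lit 12) (.e (nat_lit 57345) (nat_lit 0) .nil)))))))) (.g (nat_lit 5) .nil .nil))))) (.nd (nat_lit 4) (.nd (nat_lit 5) 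
(.lf (nat_lit 112463) (.g (nat_lit 2564) (.e (nat_lit 5603) (nat_lit 310) (.e (nat_lit 163869) (nat_lit 2) (.e (nat_lit 196670) (nat_lit 14) (.e (nat_lit 73754) (nat_lit 8) (.e (nat_lit 557105) (nat_lit 14) .nil))))) .nil)) 
(.lf (nat_lit 112495) (.g (nat_lit 4474) (.e (nat_lit 5604) (nat_lit 310) (.e (nat_lit 163867) (nat_lit 2) (.e (nat_lit 196670) (nat_lit 14) (.e (nat_lit 73753) (nat_lit 8) (.e (nat_lit 557105) (nat_lit 14) (.e (nat_lit 180252) (nat_lit 10) (.e (nat_lit 573474) (nat_lit 12) (.e (nat_lit 57345) (nat_lit 0) .nil)))))))) (.g (nat_lit 6) .nil .nil)))) (.nd (nat_lit 5) 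
(.lf (nat_lit 112479) (.g (nat_lit 2942) (.e (nat_lit 5603) (nat_lit 310) (.e (nat_lit 163874) (nat_lit 3) (.e (nat_lit 204863) (nat_lit 27) (.e (nat_lit 344133) (nat_lit 26) (.e (nat_lit 557105) (nat_lit 14) (.e (nat_lit 180252) (nat_lit 10) (.e (nat_lit 573474) (nat_lit 12) (.e (nat_lit 57356) (nat_lit 0) .nil)))))))) (.g (nat_lit 4) .nil .nil))) 
(.lf (nat_lit 112511) (.g (nat_lit 4514) (.e (nat_lit 5604) (nat_lit 310) (.e (nat_lit 163869) (nat_lit 2) (.e (nat_lit 196670) (nat_lit 14) (.e (nat_lit 73754) (nat_lit 8) (.e (nat_lit 557105) (nat_lit 14) (.e (nat_lit 180252) (nat_lit 10) (.e (nat_lit 573475) (nat_lit 12) (.e (nat_lit 57345) (nat_lit 0) .nil)))))))) (.g (nat_lit 6) .nil .nil)))))))))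

noncomputable def tv1519 : DT := (.nd (nat_lit 0) (.nd (nat_lit 1) (.nd (nat_lit 2) (.nd (nat_lit 3) (.nd (nat_lit 4) (.nd (nat_lit 5) 
(.lf (nat_lit 112512) (.g (nat_lit 4089) (.e (nat_lit 5604) (nat_lit 310) (.e (nat_lit 163869) (nat_lit 2) (.e (nat_lit 196670) (nat_lit 14) (.e (nat_lit 73754) (nat_lit 8) (.e (nat_lit 557105) (nat_lit 14) (.e (nat_lit 180252) (nat_lit 10) (.e (nat_lit 573475) (nat_lit 12) (.e (nat_lit 57349) (nat_lit 0) .nil)))))))) (.g (nat_lit 5) .nil .nil))) 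
(.lf (nat_lit 112544) (.g (nat_lit 1385) (.e (nat_lit 5612) (nat_lit 312) (.e (nat_lit 348) (nat_lit 28) (.e (nat_lit 393271) (nat_lit 23) (.e (nat_lit 426131) (nat_lit 3) .nil)))) .nil))) (.nd (nat_lit 5) 
(.lf (nat_lit 112528) (.g (nat_lit 1412) (.e (nat_lit 7936) (nat_lit 310) (.e (nat_lit 163905) (nat_lit 12) (.e (nat_lit 426320) (nat_lit 12) (.e (nat_lit 475207) (nat_lit 41) .nil)))) .nil)) 
(.lf (nat_lit 112560) (.g (nat_lit 1862) (.e (nat_lit 5618) (nat_lit 312) (.e (nat_lit 216) (nat_lit 19) (.e (nat_lit 319530) (nat_lit 16) (.e (nat_lit 286761) (nat_lit 13) (.e (nat_lit 393264) (nat_lit 22) .nil))))) .nil)))) (.nd (nat_lit 4) (.nd (nat_lit 5) 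
(.lf (nat_lit 112520) (.g (nat_lit 3329) (.e (nat_lit 5604) (nat_lit 310) (.e (nat_lit 163905) (nat_lit 12) (.e (nat_lit 426555) (nat_lit 32) (.e (nat_lit 376865) (nat_lit 22) (.e (nat_lit 90160) (nat_lit 11) (.e (nat_lit 24584) (nat_lit 0) (.e (nat_lit 968) (nat_lit 81) .nil))))))) (.g (nat_lit 4) .nil .nil))) 
(.lf (nat_lit 112552) (.g (nat_lit 2342) (.e (nat_lit 5613) (nat_lit 312) (.e (nat_lit 2668) (nat_lit 167) (.e (nat_lit 196666) (nat_lit 13) (.e (nat_lit 65610) (nat_lit 10) (.e (nat_lit 344117) (nat_lit 21) .nil))))) .nil))) (.nd (nat_lit 5) 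
(.lf (nat_lit 112536) (.g (nat_lit 1128) (.e (nat_lit 7936) (nat_lit 310) (.e (nat_lit 163932) (nat_lit 17) (.e (nat_lit 466947) (nat_lit 0) (.e (nat_lit 2160) (nat_lit 143) .nil)))) .nil)) 
(.lf (nat_lit 112568) (.g (nat_lit 1925) (.e (nat_lit 5621) (nat_lit 312) (.e (nat_lit 216) (nat_lit 19) (.e (nat_lit 319531) (nat_lit 16) (.e (nat_lit 286761) (nat_lit 13) (.e (nat_lit 393264) (nat_lit 22) .nil))))) .nil))))) (.nd (nat_lit 3) (.nd (nat_lit 4) (.nd (nat_lit 5) 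
(.lf (nat_lit 112516) (.g (nat_lit 2814) (.e (nat_lit 5604) (nat_lit 310) (.e (nat_lit 163905) (nat_lit 12) (.e (nat_lit 426555) (nat_lit 32) (.e (nat_lit 376862) (nat_lit 22) (.e (nat_lit 90158) (nat_lit 11) .nil))))) .nil)) 
(.lf (nat_lit 112548) (.g (nat_lit 2055) (.e (nat_lit 5612) (nat_lit 312) (.e (nat_lit 2685) (nat_lit 168) (.e (nat_lit 204846) (nat_lit 24) (.e (nat_lit 319531) (nat_lit 16) (.e (nat_lit 286735) (nat_lit 3) .nil))))) .nil))) (.nd (nat_lit 5) 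
(.lf (nat_lit 112532) (.g (nat_lit 1746) (.e (nat_lit 7936) (nat_lit 310) (.e (nat_lit 163920) (nat_lit 14) (.e (nat_lit 442374) (nat_lit 0) (.e (nat_lit 2160) (nat_lit 143) (.e (nat_lit 712755) (nat_lit 30) .nil))))) .nil)) 
(.lf (nat_lit 112564) (.g (nat_lit 2466) (.e (nat_lit 5618) (nat_lit 312) (.e (nat_lit 216) (nat_lit 19) (.e (nat_lit 319533) (nat_lit 16) (.e (nat_lit 286761) (nat_lit 13) (.e (nat_lit 393264) (nat_lit 22) .nil))))) .nil)))) (.nd (nat_lit 4) (.nd (nat_lit 5) 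
(.lf (nat_lit 112524) (.g (nat_lit 1313) (.e (nat_lit 5604) (nat_lit 310) (.e (nat_lit 163932) (nat_lit 17) (.e (nat_lit 466947) (nat_lit 0) (.e (nat_lit 2173) (nat_lit 143) (.e (nat_lit 712753) (nat_lit 30) .nil))))) .nil)) 
(.lf (nat_lit 112556) (.g (nat_lit 1389) (.e (nat_lit 5616) (nat_lit 312) (.e (nat_lit 2685) (nat_lit 168) (.e (nat_lit 204868) (nat_lit 29) (.e (nat_lit 360466) (nat_lit 3) (.e (nat_lit 516138) (nat_lit 7) .nil))))) .nil))) (.nd (nat_lit 5) 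
(.lf (nat_lit 112540) (.g (nat_lit 2441) (.e (nat_lit 5612) (nat_lit 312) (.e (nat_lit 216) (nat_lit 19) (.e (nat_lit 319528) (nat_lit 16) (.e (nat_lit 286761) (nat_lit 13) (.e (nat_lit 393265) (nat_lit 22) (.e (nat_lit 417820) (nat_lit 10) .nil)))))) (.g (nat_lit 0) .nil .nil))) 
(.lf (nat_lit 112572) (.g (nat_lit 1240) (.e (nat_lit 5625) (nat_lit 312) (.e (nat_lit 351) (nat_lit 28) (.e (nat_lit 393301) (nat_lit 27) (.e (nat_lit 499456) (nat_lit 18) .nil)))) .nil)))))) (.nd (nat_lit 2) (.nd (nat_lit 3) (.nd (nat_lit 4) (.nd (nat_lit 5) 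
(.lf (nat_lit 112514) (.g (nat_lit 3650) (.e (nat_lit 5604) (nat_lit 310) (.e (nat_lit 163869) (nat_lit 2) (.e (nat_lit 196670) (nat_lit 14) (.e (nat_lit 73755) (nat_lit 8) (.e (nat_lit 557105) (nat_lit 14) (.e (nat_lit 180252) (nat_lit 10) (.e (nat_lit 573474) (nat_lit 12) (.e (nat_lit 57349) (nat_lit 0) .nil)))))))) (.g (nat_lit 4) .nil .nil))) 
(.lf (nat_lit 112546) (.g (nat_lit 2075) (.e (nat_lit 5612) (nat_lit 312) (.e (nat_lit 2668) (nat_lit 167) (.e (nat_lit 196666) (nat_lit 13) (.e (nat_lit 65617) (nat_lit 10) (.e (nat_lit 344132) (nat_lit 26) (.e (nat_lit 557073) (nat_lit 9) (.e (nat_lit 214) (nat_lit 19) (.e (nat_lit 319491) (nat_lit 0) .nil)))))))) (.g (nat_lit 4) .nil .nil)))) (.nd (nat_lit 5) 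
(.lf (nat_lit 112530) (.g (nat_lit 1820) (.e (nat_lit 7936) (nat_lit 310) (.e (nat_lit 163908) (nat_lit 12) (.e (nat_lit 426305) (nat_lit 12) (.e (nat_lit 475207) (nat_lit 41) (.e (nat_lit 712755) (nat_lit 30) .nil))))) .nil)) 
(.lf (nat_lit 112562) (.g (nat_lit 1385) (.e (nat_lit 5618) (nat_lit 312) (.e (nat_lit 216) (nat_lit 19) (.e (nat_lit 319532) (nat_lit 16) (.e (nat_lit 286761) (nat_lit 13) (.e (nat_lit 393265) (nat_lit 22) .nil))))) .nil)))) (.nd (nat_lit 4) (.nd (nat_lit 5) 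
(.lf (nat_lit 112522) (.g (nat_lit 2474) (.e (nat_lit 5604) (nat_lit 310) (.e (nat_lit 163908) (nat_lit 12) (.e (nat_lit 426338) (nat_lit 14) (.e (nat_lit 491549) (nat_lit 9) (.e (nat_lit 336434) (nat_lit 30) (.e (nat_lit 458496) (nat_lit 0) .nil)))))) (.g (nat_lit 4) .nil .nil))) 
(.lf (nat_lit 112554) (.g (nat_lit 2607) (.e (nat_lit 5616) (nat_lit 312) (.e (nat_lit 2668) (nat_lit 167) (.e (nat_lit 196666) (nat_lit 13) (.e (nat_lit 65617) (nat_lit 10) (.e (nat_lit 344120) (nat_lit 21) .nil))))) .nil))) (.nd (nat_lit 5) 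
(.lf (nat_lit 112538) (.g (nat_lit 617) (.e (nat_lit 7936) (nat_lit 310) (.e (nat_lit 163933) (nat_lit 17) (.e (nat_lit 466945) (nat_lit 0) .nil))) .nil)) 
(.lf (nat_lit 112570) (.g (nat_lit 1240) (.e (nat_lit 5623) (nat_lit 312) (.e (nat_lit 351) (nat_lit 28) (.e (nat_lit 393301) (nat_lit 27) (.e (nat_lit 499456) (nat_lit 18) .nil)))) .nil))))) (.nd (nat_lit 3) (.nd (nat_lit 4) (.nd (nat_lit 5) 
(.lf (nat_lit 112518) (.g (nat_lit 2861) (.e (nat_lit 5604) (nat_lit 310) (.e (nat_lit 163905) (nat_lit 12) (.e (nat_lit 426555) (nat_lit 32) (.e (nat_lit 376865) (nat_lit 22) (.e (nat_lit 90158) (nat_lit 11) .nil))))) .nil)) 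
(.lf (nat_lit 112550) (.g (nat_lit 1781) (.e (nat_lit 5612) (nat_lit 312) (.e (nat_lit 2685) (nat_lit 168) (.e (nat_lit 204868) (nat_lit 29) (.e (nat_lit 360473) (nat_lit 8) (.e (nat_lit 557068) (nat_lit 9) (.e (nat_lit 214) (nat_lit 19) (.e (nat_lit 319490) (nat_lit 0) .nil))))))) (.g (nat_lit 4) .nil .nil)))) (.nd (nat_lit 5) 
(.lf (nat_lit 112534) (.g (nat_lit 1201) (.e (nat_lit 7936) (nat_lit 310) (.e (nat_lit 163931) (nat_lit 17) (.e (nat_lit 466947) (nat_lit 0) (.e (nat_lit 2172) (nat_lit 143) (.e (nat_lit 712755) (nat_lit 30) .nil))))) .nil)) 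
(.lf (nat_lit 112566) (.g (nat_lit 1138) (.e (nat_lit 5618) (nat_lit 312) (.e (nat_lit 351) (nat_lit 28) (.e (nat_lit 393300) (nat_lit 27) (.e (nat_lit 499456) (nat_lit 18) .nil)))) .nil)))) (.nd (nat_lit 4) (.nd (nat_lit 5) 
(.lf (nat_lit 112526) (.g (nat_lit 2143) (.e (nat_lit 5604) (nat_lit 310) (.e (nat_lit 171776) (nat_lit 63) (.e (nat_lit 90170) (nat_lit 13) (.e (nat_lit 172106) (nat_lit 10) (.e (nat_lit 434231) (nat_lit 23) (.e (nat_lit 532544) (nat_lit 10) (.e (nat_lit 344094) (nat_lit 18) .nil))))))) (.g (nat_lit 4) .nil .nil))) 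
(.lf (nat_lit 112558) (.g (nat_lit 1355) (.e (nat_lit 5618) (nat_lit 312) (.e (nat_lit 216) (nat_lit 19) (.e (nat_lit 319528) (nat_lit 16) (.e (nat_lit 286761) (nat_lit 13) (.e (nat_lit 393264) (nat_lit 22) .nil))))) .nil))) (.nd (nat_lit 5) 
(.lf (nat_lit 112542) (.g (nat_lit 2927) (.e (nat_lit 5612) (nat_lit 312) (.e (nat_lit 216) (nat_lit 19) (.e (nat_lit 319531) (nat_lit 16) (.e (nat_lit 286761) (nat_lit 13) (.e (nat_lit 393265) (nat_lit 22) (.e (nat_lit 417820) (nat_lit 10) .nil)))))) (.g (nat_lit 0) .nil .nil))) 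
(.lf (nat_lit 112574) (.g (nat_lit 1467) (.e (nat_lit 5626) (nat_lit 312) (.e (nat_lit 2612) (nat_lit 163) (.e (nat_lit 164163) (nat_lit 152) (.e (nat_lit 1190) (nat_lit 88) (.e (nat_lit 65626) (nat_lit 13) .nil))))) .nil))))))) (.nd (nat_lit 1) (.nd (nat_lit 2) (.nd (nat_lit 3) (.nd (nat_lit 4) (.nd (nat_lit 5) 
(.lf (nat_lit 112513) (.g (nat_lit 3494) (.e (nat_lit 5604) (nat_lit 310) (.e (nat_lit 163869) (nat_lit 2) (.e (nat_lit 196670) (nat_lit 14) (.e (nat_lit 73755) (nat_lit 8) (.e (nat_lit 557105) (nat_lit 14) (.e (nat_lit 180252) (nat_lit 10) (.e (nat_lit 573474) (nat_lit 12) (.e (nat_lit 57345) (nat_lit 0) .nil)))))))) (.g (nat_lit 4) .nil .nil))) 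
(.lf (nat_lit 112545) (.g (nat_lit 3336) (.e (nat_lit 5612) (nat_lit 312) (.e (nat_lit 2668) (nat_lit 167) (.e (nat_lit 196666) (nat_lit 13) (.e (nat_lit 65610) (nat_lit 10) (.e (nat_lit 344129) (nat_lit 26) (.e (nat_lit 557067) (nat_lit 9) (.e (nat_lit 214) (nat_lit 19) (.e (nat_lit 319490) (nat_lit 0) .nil)))))))) (.g (nat_lit 5) .nil .nil)))) (.nd (nat_lit 5) 
(.lf (nat_lit 112529) (.g (nat_lit 1122) (.e (nat_lit 7936) (nat_lit 310) (.e (nat_lit 163907) (nat_lit 12) (.e (nat_lit 426227) (nat_lit 9) (.e (nat_lit 426364) (nat_lit 15) .nil)))) .nil)) 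
(.lf (nat_lit 112561) (.g (nat_lit 1933) (.e (nat_lit 5618) (nat_lit 312) (.e (nat_lit 216) (nat_lit 19) (.e (nat_lit 319531) (nat_lit 16) (.e (nat_lit 286761) (nat_lit 13) (.e (nat_lit 393264) (nat_lit 22) .nil))))) .nil)))) (.nd (nat_lit 4) (.nd (nat_lit 5) 
(.lf (nat_lit 112521) (.g (nat_lit 2393) (.e (nat_lit 5604) (nat_lit 310) (.e (nat_lit 163908) (nat_lit 12) (.e (nat_lit 426338) (nat_lit 14) (.e (nat_lit 491549) (nat_lit 9) (.e (nat_lit 336432) (nat_lit 30) (.e (nat_lit 458496) (nat_lit 0) .nil)))))) (.g (nat_lit 4) .nil .nil))) 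
(.lf (nat_lit 112553) (.g (nat_lit 2584) (.e (nat_lit 5615) (nat_lit 312) (.e (nat_lit 2668) (nat_lit 167) (.e (nat_lit 196666) (nat_lit 13) (.e (nat_lit 65610) (nat_lit 10) (.e (nat_lit 344117) (nat_lit 21) .nil))))) .nil))) (.nd (nat_lit 5) 
(.lf (nat_lit 112537) (.g (nat_lit 1325) (.e (nat_lit 7936) (nat_lit 310) (.e (nat_lit 163932) (nat_lit 17) (.e (nat_lit 466947) (nat_lit 0) (.e (nat_lit 2173) (nat_lit 143) (.e (nat_lit 712755) (nat_lit 30) .nil))))) .nil)) 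
(.lf (nat_lit 112569) (.g (nat_lit 2501) (.e (nat_lit 5621) (nat_lit 312) (.e (nat_lit 216) (nat_lit 19) (.e (nat_lit 319533) (nat_lit 16) (.e (nat_lit 286761) (nat_lit 13) (.e (nat_lit 393264) (nat_lit 22) .nil))))) .nil))))) (.nd (nat_lit 3) (.nd (nat_lit 4) (.nd (nat_lit 5) 
(.lf (nat_lit 112517) (.g (nat_lit 2888) (.e (nat_lit 5604) (nat_lit 310) (.e (nat_lit 163905) (nat_lit 12) (.e (nat_lit 426555) (nat_lit 32) (.e (nat_lit 376862) (nat_lit 22) (.e (nat_lit 90160) (nat_lit 11) .nil))))) .nil)) 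
(.lf (nat_lit 112549) (.g (nat_lit 1571) (.e (nat_lit 5612) (nat_lit 312) (.e (nat_lit 2685) (nat_lit 168) (.e (nat_lit 204868) (nat_lit 29) (.e (nat_lit 360473) (nat_lit 8) (.e (nat_lit 557068) (nat_lit 9) .nil))))) .nil))) (.nd (nat_lit 5) 
(.lf (nat_lit 112533) (.g (nat_lit 602) (.e (nat_lit 7936) (nat_lit 310) (.e (nat_lit 163931) (nat_lit 17) (.e (nat_lit 466945) (nat_lit 0) .nil))) .nil)) 
(.lf (nat_lit 112565) (.g (nat_lit 1459) (.e (nat_lit 5618) (nat_lit 312) (.e (nat_lit 216) (nat_lit 19) (.e (nat_lit 319534) (nat_lit 16) (.e (nat_lit 286761) (nat_lit 13) (.e (nat_lit 393264) (nat_lit 22) .nil))))) .nil)))) (.nd (nat_lit 4) (.nd (nat_lit 5) 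
(.lf (nat_lit 112525) (.g (nat_lit 1607) (.e (nat_lit 5604) (nat_lit 310) (.e (nat_lit 163932) (nat_lit 17) (.e (nat_lit 466947) (nat_lit 0) (.e (nat_lit 2175) (nat_lit 143) (.e (nat_lit 712755) (nat_lit 30) (.e (nat_lit 458496) (nat_lit 0) .nil)))))) (.g (nat_lit 4) .nil .nil))) 
(.lf (nat_lit 112557) (.g (nat_lit 604) (.e (nat_lit 5617) (nat_lit 312) (.e (nat_lit 232) (nat_lit 21) (.e (nat_lit 336060) (nat_lit 7) .nil))) .nil))) (.nd (nat_lit 5) 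
(.lf (nat_lit 112541) (.g (nat_lit 2972) (.e (nat_lit 5612) (nat_lit 312) (.e (nat_lit 216) (nat_lit 19) (.e (nat_lit 319530) (nat_lit 16) (.e (nat_lit 286761) (nat_lit 13) (.e (nat_lit 393265) (nat_lit 22) (.e (nat_lit 417820) (nat_lit 10) .nil)))))) (.g (nat_lit 0) .nil .nil))) 
(.lf (nat_lit 112573) (.g (nat_lit 1213) (.e (nat_lit 5626) (nat_lit 312) (.e (nat_lit 214) (nat_lit 19) (.e (nat_lit 319536) (nat_lit 17) (.e (nat_lit 294960) (nat_lit 13) .nil)))) .nil)))))) (.nd (nat_lit 2) (.nd (nat_lit 3) (.nd (nat_lit 4) (.nd (nat_lit 5) 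
(.lf (nat_lit 112515) (.g (nat_lit 2075) (.e (nat_lit 5604) (nat_lit 310) (.e (nat_lit 163905) (nat_lit 12) (.e (nat_lit 426555) (nat_lit 32) (.e (nat_lit 376862) (nat_lit 22) .nil)))) .nil)) 
(.lf (nat_lit 112547) (.g (nat_lit 3061) (.e (nat_lit 5612) (nat_lit 312) (.e (nat_lit 2668) (nat_lit 167) (.e (nat_lit 196666) (nat_lit 13) (.e (nat_lit 65617) (nat_lit 10) (.e (nat_lit 344133) (nat_lit 26) (.e (nat_lit 557068) (nat_lit 9) (.e (nat_lit 214) (nat_lit 19) (.e (nat_lit 319490) (nat_lit 0) .nil)))))))) (.g (nat_lit 5) .nil .nil)))) (.nd (nat_lit 5) 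
(.lf (nat_lit 112531) (.g (nat_lit 587) (.e (nat_lit 7936) (nat_lit 310) (.e (nat_lit 163919) (nat_lit 14) (.e (nat_lit 442374) (nat_lit 0) .nil))) .nil)) 
(.lf (nat_lit 112563) (.g (nat_lit 1835) (.e (nat_lit 5618) (nat_lit 312) (.e (nat_lit 216) (nat_lit 19) (.e (nat_lit 319533) (nat_lit 16) (.e (nat_lit 286760) (nat_lit 13) (.e (nat_lit 393265) (nat_lit 22) .nil))))) .nil)))) (.nd (nat_lit 4) (.nd (nat_lit 5) 
(.lf (nat_lit 112523) (.g (nat_lit 884) (.e (nat_lit 5604) (nat_lit 310) (.e (nat_lit 163920) (nat_lit 14) (.e (nat_lit 442374) (nat_lit 0) .nil))) .nil)) 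
(.lf (nat_lit 112555) (.g (nat_lit 3529) (.e (nat_lit 5616) (nat_lit 312) (.e (nat_lit 2668) (nat_lit 167) (.e (nat_lit 196666) (nat_lit 13) (.e (nat_lit 65617) (nat_lit 10) (.e (nat_lit 344130) (nat_lit 26) (.e (nat_lit 557067) (nat_lit 9) (.e (nat_lit 220) (nat_lit 20) (.e (nat_lit 327683) (nat_lit 0) .nil)))))))) (.g (nat_lit 5) .nil .nil)))) (.nd (nat_lit 5) 
(.lf (nat_lit 112539) (.g (nat_lit 519) (.e (nat_lit 7936) (nat_lit 311) (.e (nat_lit 229412) (nat_lit 14) (.e (nat_lit 442377) (nat_lit 0) .nil))) .nil)) 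
(.lf (nat_lit 112571) (.g (nat_lit 1240) (.e (nat_lit 5624) (nat_lit 312) (.e (nat_lit 351) (nat_lit 28) (.e (nat_lit 393301) (nat_lit 27) (.e (nat_lit 499456) (nat_lit 18) .nil)))) .nil))))) (.nd (nat_lit 3) (.nd (nat_lit 4) (.nd (nat_lit 5) 
(.lf (nat_lit 112519) (.g (nat_lit 2908) (.e (nat_lit 5604) (nat_lit 310) (.e (nat_lit 163905) (nat_lit 12) (.e (nat_lit 426555) (nat_lit 32) (.e (nat_lit 376865) (nat_lit 22) (.e (nat_lit 90160) (nat_lit 11) .nil))))) .nil)) 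
(.lf (nat_lit 112551) (.g (nat_lit 2790) (.e (nat_lit 5612) (nat_lit 312) (.e (nat_lit 2685) (nat_lit 168) (.e (nat_lit 204868) (nat_lit 29) (.e (nat_lit 360475) (nat_lit 8) (.e (nat_lit 557068) (nat_lit 9) .nil))))) .nil))) (.nd (nat_lit 5) 
(.lf (nat_lit 112535) (.g (nat_lit 1401) (.e (nat_lit 7936) (nat_lit 310) (.e (nat_lit 163931) (nat_lit 17) (.e (nat_lit 466947) (nat_lit 0) (.e (nat_lit 2175) (nat_lit 143) (.e (nat_lit 712755) (nat_lit 30) .nil))))) .nil)) 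
(.lf (nat_lit 112567) (.g (nat_lit 1111) (.e (nat_lit 5619) (nat_lit 312) (.e (nat_lit 351) (nat_lit 28) (.e (nat_lit 393300) (nat_lit 27) (.e (nat_lit 499456) (nat_lit 18) .nil)))) .nil)))) (.nd (nat_lit 4) (.nd (nat_lit 5) 
(.lf (nat_lit 112527) (.g (nat_lit 2636) (.e (nat_lit 7936) (nat_lit 310) (.e (nat_lit 163871) (nat_lit 2) (.e (nat_lit 196670) (nat_lit 14) (.e (nat_lit 73753) (nat_lit 8) (.e (nat_lit 557105) (nat_lit 14) .nil))))) .nil)) 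
(.lf (nat_lit 112559) (.g (nat_lit 2165) (.e (nat_lit 5618) (nat_lit 312) (.e (nat_lit 216) (nat_lit 19) (.e (nat_lit 319530) (nat_lit 16) (.e (nat_lit 286761) (nat_lit 13) (.e (nat_lit 393263) (nat_lit 22) .nil))))) .nil))) (.nd (nat_lit 5) 
(.lf (nat_lit 112543) (.g (nat_lit 1146) (.e (nat_lit 5612) (nat_lit 312) (.e (nat_lit 217) (nat_lit 19) (.e (nat_lit 319534) (nat_lit 16) (.e (nat_lit 286761) (nat_lit 13) .nil)))) .nil)) 
(.lf (nat_lit 112575) (.g (nat_lit 2400) (.e (nat_lit 5626) (nat_lit 312) (.e (nat_lit 2612) (nat_lit 163) (.e (nat_lit 164182) (nat_lit 154) (.e (nat_lit 57423) (nat_lit 14) (.e (nat_lit 352277) (nat_lit 11) .nil))))) .nil))))))))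

noncomputable def tv1520 : DT := (.nd (nat_lit 0) (.nd (nat_lit 1) (.nd (nat_lit 2) (.nd (nat_lit 3) (.nd (nat_lit 4) (.nd (nat_lit 5) 
(.lf (nat_lit 112576) (.g (nat_lit 750) (.e (nat_lit 5626) (nat_lit 312) (.e (nat_lit 2668) (nat_lit 167) (.e (nat_lit 196625) (nat_lit 9) .nil))) .nil)) 
(.lf (nat_lit 112608) (.g (nat_lit 2524) (.e (nat_lit 5626) (nat_lit 312) (.e (nat_lit 2668) (nat_lit 167) (.e (nat_lit 196666) (nat_lit 13) (.e (nat_lit 65617) (nat_lit 10) (.e (nat_lit 344133) (nat_lit 26) (.e (nat_lit 557064) (nat_lit 9) (.e (nat_lit 214) (nat_lit 19) (.e (nat_lit 319491) (nat_lit 0) .nil)))))))) (.g (nat_lit 4) .nil .nil)))) (.nd (nat_lit 5) 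
(.lf (nat_lit 112592) (.g (nat_lit 3432) (.e (nat_lit 5626) (nat_lit 312) (.e (nat_lit 2668) (nat_lit 167) (.e (nat_lit 196666) (nat_lit 13) (.e (nat_lit 65617) (nat_lit 10) (.e (nat_lit 344130) (nat_lit 26) (.e (nat_lit 557066) (nat_lit 9) (.e (nat_lit 217) (nat_lit 19) (.e (nat_lit 319493) (nat_lit 0) .nil)))))))) (.g (nat_lit 5) .nil .nil))) 
(.lf (nat_lit 112624) (.g (nat_lit 611) (.e (nat_lit 5627) (nat_lit 312) (.e (nat_lit 214) (nat_lit 19) (.e (nat_lit 319534) (nat_lit 16) .nil))) .nil)))) (.nd (nat_lit 4) (.nd (nat_lit 5) 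
(.lf (nat_lit 112584) (.g (nat_lit 2719) (.e (nat_lit 5626) (nat_lit 312) (.e (nat_lit 2668) (nat_lit 167) (.e (nat_lit 196666) (nat_lit 13) (.e (nat_lit 65610) (nat_lit 10) (.e (nat_lit 344129) (nat_lit 26) (.e (nat_lit 557074) (nat_lit 9) (.e (nat_lit 7936) (nat_lit 19) (.e (nat_lit 319491) (nat_lit 0) .nil)))))))) (.g (nat_lit 5) .nil .nil))) 
(.lf (nat_lit 112616) (.g (nat_lit 4408) (.e (nat_lit 5626) (nat_lit 312) (.e (nat_lit 2668) (nat_lit 167) (.e (nat_lit 196666) (nat_lit 13) (.e (nat_lit 65617) (nat_lit 10) (.e (nat_lit 344133) (nat_lit 26) (.e (nat_lit 557068) (nat_lit 9) (.e (nat_lit 7936) (nat_lit 19) (.e (nat_lit 319492) (nat_lit 0) .nil)))))))) (.g (nat_lit 6) .nil .nil)))) (.nd (nat_lit 5) 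
(.lf (nat_lit 112600) (.g (nat_lit 2447) (.e (nat_lit 5626) (nat_lit 312) (.e (nat_lit 2668) (nat_lit 167) (.e (nat_lit 196666) (nat_lit 13) (.e (nat_lit 65617) (nat_lit 10) (.e (nat_lit 344132) (nat_lit 26) (.e (nat_lit 557071) (nat_lit 9) (.e (nat_lit 214) (nat_lit 19) (.e (nat_lit 319492) (nat_lit 0) .nil)))))))) (.g (nat_lit 4) .nil .nil))) 
(.lf (nat_lit 112632) (.g (nat_lit 1144) (.e (nat_lit 5628) (nat_lit 312) (.e (nat_lit 214) (nat_lit 19) (.e (nat_lit 319536) (nat_lit 17) .nil))) .nil))))) (.nd (nat_lit 3) (.nd (nat_lit 4) (.nd (nat_lit 5) 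
(.lf (nat_lit 112580) (.g (nat_lit 3017) (.e (nat_lit 5626) (nat_lit 312) (.e (nat_lit 2668) (nat_lit 167) (.e (nat_lit 196666) (nat_lit 13) (.e (nat_lit 65610) (nat_lit 10) (.e (nat_lit 344129) (nat_lit 26) (.e (nat_lit 557066) (nat_lit 9) (.e (nat_lit 217) (nat_lit 19) (.e (nat_lit 319493) (nat_lit 0) .nil)))))))) (.g (nat_lit 5) .nil .nil))) 
(.lf (nat_lit 112612) (.g (nat_lit 2285) (.e (nat_lit 5626) (nat_lit 312) (.e (nat_lit 2668) (nat_lit 167) (.e (nat_lit 196666) (nat_lit 13) (.e (nat_lit 65617) (nat_lit 10) (.e (nat_lit 344133) (nat_lit 26) (.e (nat_lit 557065) (nat_lit 9) (.e (nat_lit 217) (nat_lit 19) (.e (nat_lit 319493) (nat_lit 0) .nil)))))))) (.g (nat_lit 4) .nil .nil)))) (.nd (nat_lit 5) 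
(.lf (nat_lit 112596) (.g (nat_lit 2633) (.e (nat_lit 5626) (nat_lit 312) (.e (nat_lit 2668) (nat_lit 167) (.e (nat_lit 196666) (nat_lit 13) (.e (nat_lit 65617) (nat_lit 10) (.e (nat_lit 344130) (nat_lit 26) (.e (nat_lit 557071) (nat_lit 9) (.e (nat_lit 214) (nat_lit 19) (.e (nat_lit 319491) (nat_lit 0) .nil)))))))) (.g (nat_lit 4) .nil .nil))) 
(.lf (nat_lit 112628) (.g (nat_lit 1692) (.e (nat_lit 5627) (nat_lit 312) (.e (nat_lit 2668) (nat_lit 167) (.e (nat_lit 196666) (nat_lit 13) (.e (nat_lit 65617) (nat_lit 10) (.e (nat_lit 344127) (nat_lit 26) (.e (nat_lit 557072) (nat_lit 9) (.e (nat_lit 220) (nat_lit 20) (.e (nat_lit 327684) (nat_lit 0) .nil)))))))) (.g (nat_lit 4) .nil .nil))))) (.nd (nat_lit 4) (.nd (nat_lit 5) 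
(.lf (nat_lit 112588) (.g (nat_lit 3576) (.e (nat_lit 5626) (nat_lit 312) (.e (nat_lit 2668) (nat_lit 167) (.e (nat_lit 196666) (nat_lit 13) (.e (nat_lit 65617) (nat_lit 10) (.e (nat_lit 344130) (nat_lit 26) (.e (nat_lit 557064) (nat_lit 9) (.e (nat_lit 214) (nat_lit 19) (.e (nat_lit 319492) (nat_lit 0) .nil)))))))) (.g (nat_lit 5) .nil .nil))) 
(.lf (nat_lit 112620) (.g (nat_lit 2815) (.e (nat_lit 5626) (nat_lit 312) (.e (nat_lit 2668) (nat_lit 167) (.e (nat_lit 196666) (nat_lit 13) (.e (nat_lit 65617) (nat_lit 10) (.e (nat_lit 344133) (nat_lit 26) (.e (nat_lit 557073) (nat_lit 9) (.e (nat_lit 7936) (nat_lit 19) (.e (nat_lit 319492) (nat_lit 0) .nil)))))))) (.g (nat_lit 4) .nil .nil)))) (.nd (nat_lit 5) 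
(.lf (nat_lit 112604) (.g (nat_lit 4815) (.e (nat_lit 5626) (nat_lit 312) (.e (nat_lit 2668) (nat_lit 167) (.e (nat_lit 196666) (nat_lit 13) (.e (nat_lit 65617) (nat_lit 10) (.e (nat_lit 344132) (nat_lit 26) (.e (nat_lit 557073) (nat_lit 9) (.e (nat_lit 214) (nat_lit 19) (.e (nat_lit 319492) (nat_lit 0) .nil)))))))) (.g (nat_lit 0) .nil .nil))) 
(.lf (nat_lit 112636) (.g (nat_lit 1286) (.e (nat_lit 5628) (nat_lit 312) (.e (nat_lit 3098) (nat_lit 192) (.e (nat_lit 491540) (nat_lit 3) (.e (nat_lit 98372) (nat_lit 29) .nil)))) .nil)))))) (.nd (nat_lit 2) (.nd (nat_lit 3) (.nd (nat_lit 4) (.nd (nat_lit 5) 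
(.lf (nat_lit 112578) (.g (nat_lit 1886) (.e (nat_lit 5626) (nat_lit 312) (.e (nat_lit 2668) (nat_lit 167) (.e (nat_lit 196666) (nat_lit 13) (.e (nat_lit 65610) (nat_lit 10) (.e (nat_lit 344129) (nat_lit 26) (.e (nat_lit 557065) (nat_lit 9) (.e (nat_lit 214) (nat_lit 19) (.e (nat_lit 319492) (nat_lit 0) .nil)))))))) (.g (nat_lit 4) .nil .nil))) 
(.lf (nat_lit 112610) (.g (nat_lit 3743) (.e (nat_lit 5626) (nat_lit 312) (.e (nat_lit 2668) (nat_lit 167) (.e (nat_lit 196666) (nat_lit 13) (.e (nat_lit 65617) (nat_lit 10) (.e (nat_lit 344133) (nat_lit 26) (.e (nat_lit 557065) (nat_lit 9) (.e (nat_lit 214) (nat_lit 19) (.e (nat_lit 319491) (nat_lit 0) .nil)))))))) (.g (nat_lit 5) .nil .nil)))) (.nd (nat_lit 5) 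
(.lf (nat_lit 112594) (.g (nat_lit 3752) (.e (nat_lit 5626) (nat_lit 312) (.e (nat_lit 2668) (nat_lit 167) (.e (nat_lit 196666) (nat_lit 13) (.e (nat_lit 65617) (nat_lit 10) (.e (nat_lit 344130) (nat_lit 26) (.e (nat_lit 557067) (nat_lit 9) (.e (nat_lit 7936) (nat_lit 19) (.e (nat_lit 319491) (nat_lit 0) .nil)))))))) (.g (nat_lit 5) .nil .nil))) 
(.lf (nat_lit 112626) (.g (nat_lit 1716) (.e (nat_lit 5627) (nat_lit 312) (.e (nat_lit 2668) (nat_lit 167) (.e (nat_lit 196666) (nat_lit 13) (.e (nat_lit 65617) (nat_lit 10) (.e (nat_lit 344127) (nat_lit 26) (.e (nat_lit 557067) (nat_lit 9) (.e (nat_lit 220) (nat_lit 20) (.e (nat_lit 327682) (nat_lit 0) .nil)))))))) (.g (nat_lit 4) .nil .nil))))) (.nd (nat_lit 4) (.nd (nat_lit 5) 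
(.lf (nat_lit 112586) (.g (nat_lit 3038) (.e (nat_lit 5626) (nat_lit 312) (.e (nat_lit 2668) (nat_lit 167) (.e (nat_lit 196666) (nat_lit 13) (.e (nat_lit 65617) (nat_lit 10) (.e (nat_lit 344127) (nat_lit 26) (.e (nat_lit 557067) (nat_lit 9) (.e (nat_lit 214) (nat_lit 19) (.e (nat_lit 319493) (nat_lit 0) .nil)))))))) (.g (nat_lit 5) .nil .nil))) 
(.lf (nat_lit 112618) (.g (nat_lit 3528) (.e (nat_lit 5626) (nat_lit 312) (.e (nat_lit 2668) (nat_lit 167) (.e (nat_lit 196666) (nat_lit 13) (.e (nat_lit 65617) (nat_lit 10) (.e (nat_lit 344133) (nat_lit 26) (.e (nat_lit 557073) (nat_lit 9) (.e (nat_lit 214) (nat_lit 19) (.e (nat_lit 319491) (nat_lit 0) .nil)))))))) (.g (nat_lit 5) .nil .nil)))) (.nd (nat_lit 5) 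
(.lf (nat_lit 112602) (.g (nat_lit 3601) (.e (nat_lit 5626) (nat_lit 312) (.e (nat_lit 2668) (nat_lit 167) (.e (nat_lit 196666) (nat_lit 13) (.e (nat_lit 65617) (nat_lit 10) (.e (nat_lit 344132) (nat_lit 26) (.e (nat_lit 557072) (nat_lit 9) (.e (nat_lit 7936) (nat_lit 19) (.e (nat_lit 319491) (nat_lit 0) .nil)))))))) (.g (nat_lit 5) .nil .nil))) 
(.lf (nat_lit 112634) (.g (nat_lit 2166) (.e (nat_lit 5628) (nat_lit 312) (.e (nat_lit 2668) (nat_lit 167) (.e (nat_lit 196666) (nat_lit 13) (.e (nat_lit 65619) (nat_lit 10) .nil)))) .nil))))) (.nd (nat_lit 3) (.nd (nat_lit 4) (.nd (nat_lit 5) 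
(.lf (nat_lit 112582) (.g (nat_lit 3066) (.e (nat_lit 5626) (nat_lit 312) (.e (nat_lit 2668) (nat_lit 167) (.e (nat_lit 196666) (nat_lit 13) (.e (nat_lit 65610) (nat_lit 10) (.e (nat_lit 344129) (nat_lit 26) (.e (nat_lit 557067) (nat_lit 9) (.e (nat_lit 7936) (nat_lit 19) (.e (nat_lit 319491) (nat_lit 0) .nil)))))))) (.g (nat_lit 5) .nil .nil))) 
(.lf (nat_lit 112614) (.g (nat_lit 5013) (.e (nat_lit 5626) (nat_lit 312) (.e (nat_lit 2668) (nat_lit 167) (.e (nat_lit 196666) (nat_lit 13) (.e (nat_lit 65617) (nat_lit 10) (.e (nat_lit 344133) (nat_lit 26) (.e (nat_lit 557068) (nat_lit 9) (.e (nat_lit 214) (nat_lit 19) (.e (nat_lit 319493) (nat_lit 0) .nil)))))))) (.g (nat_lit 0) .nil .nil)))) (.nd (nat_lit 5) 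
(.lf (nat_lit 112598) (.g (nat_lit 3269) (.e (nat_lit 5626) (nat_lit 312) (.e (nat_lit 2668) (nat_lit 167) (.e (nat_lit 196666) (nat_lit 13) (.e (nat_lit 65617) (nat_lit 10) (.e (nat_lit 344130) (nat_lit 26) (.e (nat_lit 557074) (nat_lit 9) (.e (nat_lit 7936) (nat_lit 19) (.e (nat_lit 319491) (nat_lit 0) .nil)))))))) (.g (nat_lit 5) .nil .nil))) 
(.lf (nat_lit 112630) (.g (nat_lit 2223) (.e (nat_lit 5628) (nat_lit 312) (.e (nat_lit 214) (nat_lit 19) (.e (nat_lit 319530) (nat_lit 16) (.e (nat_lit 286761) (nat_lit 13) (.e (nat_lit 393265) (nat_lit 22) .nil))))) .nil)))) (.nd (nat_lit 4) (.nd (nat_lit 5) 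
(.lf (nat_lit 112590) (.g (nat_lit 2367) (.e (nat_lit 5626) (nat_lit 312) (.e (nat_lit 2668) (nat_lit 167) (.e (nat_lit 196666) (nat_lit 13) (.e (nat_lit 65617) (nat_lit 10) (.e (nat_lit 344130) (nat_lit 26) (.e (nat_lit 557065) (nat_lit 9) (.e (nat_lit 217) (nat_lit 19) (.e (nat_lit 319493) (nat_lit 0) .nil)))))))) (.g (nat_lit 4) .nil .nil))) 
(.lf (nat_lit 112622) (.g (nat_lit 1005) (.e (nat_lit 5626) (nat_lit 312) (.e (nat_lit 3094) (nat_lit 191) (.e (nat_lit 483413) (nat_lit 27) (.e (nat_lit 401439) (nat_lit 9) .nil)))) .nil))) (.nd (nat_lit 5) 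
(.lf (nat_lit 112606) (.g (nat_lit 3542) (.e (nat_lit 5626) (nat_lit 312) (.e (nat_lit 2668) (nat_lit 167) (.e (nat_lit 196666) (nat_lit 13) (.e (nat_lit 65617) (nat_lit 10) (.e (nat_lit 344132) (nat_lit 26) (.e (nat_lit 557073) (nat_lit 9) (.e (nat_lit 7936) (nat_lit 19) (.e (nat_lit 319491) (nat_lit 0) .nil)))))))) (.g (nat_lit 5) .nil .nil))) 
(.lf (nat_lit 112638) (.g (nat_lit 2334) (.e (nat_lit 5629) (nat_lit 312) (.e (nat_lit 11) (nat_lit 0) (.e (nat_lit 6113) (nat_lit 332) (.e (nat_lit 1370) (nat_lit 103) (.e (nat_lit 294960) (nat_lit 13) (.e (nat_lit 393260) (nat_lit 21) (.e (nat_lit 417536) (nat_lit 10) .nil))))))) (.g (nat_lit 6) .nil .nil)))))))) 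
(.nd (nat_lit 1) (.nd (nat_lit 2) (.nd (nat_lit 3) (.nd (nat_lit 4) (.nd (nat_lit 5) 
(.lf (nat_lit 112577) (.g (nat_lit 1977) (.e (nat_lit 5626) (nat_lit 312) (.e (nat_lit 2668) (nat_lit 167) (.e (nat_lit 196663) (nat_lit 13) (.e (nat_lit 65630) (nat_lit 14) (.e (nat_lit 401428) (nat_lit 3) .nil))))) .nil)) 
(.lf (nat_lit 112609) (.g (nat_lit 2594) (.e (nat_lit 5626) (nat_lit 312) (.e (nat_lit 2668) (nat_lit 167) (.e (nat_lit 196666) (nat_lit 13) (.e (nat_lit 65617) (nat_lit 10) (.e (nat_lit 344133) (nat_lit 26) (.e (nat_lit 557064) (nat_lit 9) (.e (nat_lit 214) (nat_lit 19) (.e (nat_lit 319492) (nat_lit 0) .nil)))))))) (.g (nat_lit 4) .nil .nil)))) (.nd (nat_lit 5) 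
(.lf (nat_lit 112593) (.g (nat_lit 5237) (.e (nat_lit 5626) (nat_lit 312) (.e (nat_lit 2668) (nat_lit 167) (.e (nat_lit 196666) (nat_lit 13) (.e (nat_lit 65617) (nat_lit 10) (.e (nat_lit 344130) (nat_lit 26) (.e (nat_lit 557067) (nat_lit 9) (.e (nat_lit 214) (nat_lit 19) (.e (nat_lit 319493) (nat_lit 0) .nil)))))))) (.g (nat_lit 0) .nil .nil))) 
(.lf (nat_lit 112625) (.g (nat_lit 1674) (.e (nat_lit 5627) (nat_lit 312) (.e (nat_lit 2668) (nat_lit 167) (.e (nat_lit 196666) (nat_lit 13) (.e (nat_lit 65617) (nat_lit 10) (.e (nat_lit 344127) (nat_lit 26) .nil))))) .nil)))) (.nd (nat_lit 4) (.nd (nat_lit 5) 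
(.lf (nat_lit 112585) (.g (nat_lit 3004) (.e (nat_lit 5626) (nat_lit 312) (.e (nat_lit 2668) (nat_lit 167) (.e (nat_lit 196666) (nat_lit 13) (.e (nat_lit 65610) (nat_lit 10) (.e (nat_lit 344129) (nat_lit 26) (.e (nat_lit 557074) (nat_lit 9) (.e (nat_lit 7936) (nat_lit 19) (.e (nat_lit 319492) (nat_lit 0) .nil)))))))) (.g (nat_lit 5) .nil .nil))) 
(.lf (nat_lit 112617) (.g (nat_lit 3796) (.e (nat_lit 5626) (nat_lit 312) (.e (nat_lit 2668) (nat_lit 167) (.e (nat_lit 196666) (nat_lit 13) (.e (nat_lit 65617) (nat_lit 10) (.e (nat_lit 344133) (nat_lit 26) (.e (nat_lit 557073) (nat_lit 9) (.e (nat_lit 214) (nat_lit 19) (.e (nat_lit 319490) (nat_lit 0) .nil)))))))) (.g (nat_lit 5) .nil .nil)))) (.nd (nat_lit 5) 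
(.lf (nat_lit 112601) (.g (nat_lit 3539) (.e (nat_lit 5626) (nat_lit 312) (.e (nat_lit 2668) (nat_lit 167) (.e (nat_lit 196666) (nat_lit 13) (.e (nat_lit 65617) (nat_lit 10) (.e (nat_lit 344132) (nat_lit 26) (.e (nat_lit 557072) (nat_lit 9) (.e (nat_lit 214) (nat_lit 19) (.e (nat_lit 319492) (nat_lit 0) .nil)))))))) (.g (nat_lit 5) .nil .nil))) 
(.lf (nat_lit 112633) (.g (nat_lit 1719) (.e (nat_lit 5628) (nat_lit 312) (.e (nat_lit 214) (nat_lit 19) (.e (nat_lit 319536) (nat_lit 17) (.e (nat_lit 294958) (nat_lit 13) .nil)))) .nil))))) (.nd (nat_lit 3) (.nd (nat_lit 4) (.nd (nat_lit 5) 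
(.lf (nat_lit 112581) (.g (nat_lit 5483) (.e (nat_lit 5626) (nat_lit 312) (.e (nat_lit 2668) (nat_lit 167) (.e (nat_lit 196666) (nat_lit 13) (.e (nat_lit 65610) (nat_lit 10) (.e (nat_lit 344129) (nat_lit 26) (.e (nat_lit 557067) (nat_lit 9) (.e (nat_lit 214) (nat_lit 19) (.e (nat_lit 319493) (nat_lit 0) .nil)))))))) (.g (nat_lit 0) .nil .nil))) 
(.lf (nat_lit 112613) (.g (nat_lit 5216) (.e (nat_lit 5626) (nat_lit 312) (.e (nat_lit 2668) (nat_lit 167) (.e (nat_lit 196666) (nat_lit 13) (.e (nat_lit 65617) (nat_lit 10) (.e (nat_lit 344133) (nat_lit 26) (.e (nat_lit 557068) (nat_lit 9) (.e (nat_lit 214) (nat_lit 19) (.e (nat_lit 319492) (nat_lit 0) .nil)))))))) (.g (nat_lit 0) .nil .nil)))) (.nd (nat_lit 5) 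
(.lf (nat_lit 112597) (.g (nat_lit 2992) (.e (nat_lit 5626) (nat_lit 312) (.e (nat_lit 2668) (nat_lit 167) (.e (nat_lit 196666) (nat_lit 13) (.e (nat_lit 65617) (nat_lit 10) (.e (nat_lit 344130) (nat_lit 26) (.e (nat_lit 557071) (nat_lit 9) (.e (nat_lit 214) (nat_lit 19) (.e (nat_lit 319492) (nat_lit 0) .nil)))))))) (.g (nat_lit 4) .nil .nil))) 
(.lf (nat_lit 112629) (.g (nat_lit 698) (.e (nat_lit 5628) (nat_lit 312) (.e (nat_lit 214) (nat_lit 19) (.e (nat_lit 319530) (nat_lit 16) .nil))) .nil)))) (.nd (nat_lit 4) (.nd (nat_lit 5) 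
(.lf (nat_lit 112589) (.g (nat_lit 4099) (.e (nat_lit 5626) (nat_lit 312) (.e (nat_lit 2668) (nat_lit 167) (.e (nat_lit 196666) (nat_lit 13) (.e (nat_lit 65617) (nat_lit 10) (.e (nat_lit 344130) (nat_lit 26) (.e (nat_lit 557065) (nat_lit 9) (.e (nat_lit 214) (nat_lit 19) (.e (nat_lit 319492) (nat_lit 0) .nil)))))))) (.g (nat_lit 6) .nil .nil))) 
(.lf (nat_lit 112621) (.g (nat_lit 2747) (.e (nat_lit 5626) (nat_lit 312) (.e (nat_lit 2668) (nat_lit 167) (.e (nat_lit 196666) (nat_lit 13) (.e (nat_lit 65619) (nat_lit 10) (.e (nat_lit 344117) (nat_lit 21) .nil))))) .nil))) (.nd (nat_lit 5) 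
(.lf (nat_lit 112605) (.g (nat_lit 4621) (.e (nat_lit 5626) (nat_lit 312) (.e (nat_lit 2668) (nat_lit 167) (.e (nat_lit 196666) (nat_lit 13) (.e (nat_lit 65617) (nat_lit 10) (.e (nat_lit 344132) (nat_lit 26) (.e (nat_lit 557073) (nat_lit 9) (.e (nat_lit 214) (nat_lit 19) (.e (nat_lit 319493) (nat_lit 0) .nil)))))))) (.g (nat_lit 0) .nil .nil))) 
(.lf (nat_lit 112637) (.g (nat_lit 2379) (.e (nat_lit 5629) (nat_lit 312) (.e (nat_lit 11) (nat_lit 0) (.e (nat_lit 6113) (nat_lit 332) (.e (nat_lit 1361) (nat_lit 102) (.e (nat_lit 286761) (nat_lit 13) (.e (nat_lit 393265) (nat_lit 22) (.e (nat_lit 425728) (nat_lit 10) .nil))))))) (.g (nat_lit 6) .nil .nil))))))) (.nd (nat_lit 2) (.nd (nat_lit 3) (.nd (nat_lit 4) (.nd (nat_lit 5) 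
(.lf (nat_lit 112579) (.g (nat_lit 2997) (.e (nat_lit 5626) (nat_lit 312) (.e (nat_lit 2668) (nat_lit 167) (.e (nat_lit 196666) (nat_lit 13) (.e (nat_lit 65610) (nat_lit 10) (.e (nat_lit 344129) (nat_lit 26) (.e (nat_lit 557066) (nat_lit 9) (.e (nat_lit 217) (nat_lit 19) (.e (nat_lit 319492) (nat_lit 0) .nil)))))))) (.g (nat_lit 5) .nil .nil))) 
(.lf (nat_lit 112611) (.g (nat_lit 3677) (.e (nat_lit 5626) (nat_lit 312) (.e (nat_lit 2668) (nat_lit 167) (.e (nat_lit 196666) (nat_lit 13) (.e (nat_lit 65617) (nat_lit 10) (.e (nat_lit 344133) (nat_lit 26) (.e (nat_lit 557065) (nat_lit 9) (.e (nat_lit 214) (nat_lit 19) (.e (nat_lit 319493) (nat_lit 0) .nil)))))))) (.g (nat_lit 5) .nil .nil)))) (.nd (nat_lit 5) 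
(.lf (nat_lit 112595) (.g (nat_lit 4388) (.e (nat_lit 5626) (nat_lit 312) (.e (nat_lit 2668) (nat_lit 167) (.e (nat_lit 196666) (nat_lit 13) (.e (nat_lit 65617) (nat_lit 10) (.e (nat_lit 344130) (nat_lit 26) (.e (nat_lit 557067) (nat_lit 9) (.e (nat_lit 7936) (nat_lit 19) (.e (nat_lit 319492) (nat_lit 0) .nil)))))))) (.g (nat_lit 6) .nil .nil))) 
(.lf (nat_lit 112627) (.g (nat_lit 1843) (.e (nat_lit 5627) (nat_lit 312) (.e (nat_lit 2668) (nat_lit 167) (.e (nat_lit 196666) (nat_lit 13) (.e (nat_lit 65617) (nat_lit 10) (.e (nat_lit 344127) (nat_lit 26) (.e (nat_lit 557067) (nat_lit 9) (.e (nat_lit 220) (nat_lit 20) (.e (nat_lit 327683) (nat_lit 0) .nil)))))))) (.g (nat_lit 4) .nil .nil))))) (.nd (nat_lit 4) (.nd (nat_lit 5) 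
(.lf (nat_lit 112587) (.g (nat_lit 2633) (.e (nat_lit 5626) (nat_lit 312) (.e (nat_lit 2668) (nat_lit 167) (.e (nat_lit 196666) (nat_lit 13) (.e (nat_lit 65617) (nat_lit 10) (.e (nat_lit 344127) (nat_lit 26) (.e (nat_lit 557071) (nat_lit 9) (.e (nat_lit 214) (nat_lit 19) (.e (nat_lit 319491) (nat_lit 0) .nil)))))))) (.g (nat_lit 4) .nil .nil))) 
(.lf (nat_lit 112619) (.g (nat_lit 3426) (.e (nat_lit 5626) (nat_lit 312) (.e (nat_lit 2668) (nat_lit 167) (.e (nat_lit 196666) (nat_lit 13) (.e (nat_lit 65617) (nat_lit 10) (.e (nat_lit 344133) (nat_lit 26) (.e (nat_lit 557073) (nat_lit 9) (.e (nat_lit 214) (nat_lit 19) (.e (nat_lit 319492) (nat_lit 0) .nil)))))))) (.g (nat_lit 5) .nil .nil)))) (.nd (nat_lit 5) 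
(.lf (nat_lit 112603) (.g (nat_lit 4237) (.e (nat_lit 5626) (nat_lit 312) (.e (nat_lit 2668) (nat_lit 167) (.e (nat_lit 196666) (nat_lit 13) (.e (nat_lit 65617) (nat_lit 10) (.e (nat_lit 344132) (nat_lit 26) (.e (nat_lit 557072) (nat_lit 9) (.e (nat_lit 7936) (nat_lit 19) (.e (nat_lit 319492) (nat_lit 0) .nil)))))))) (.g (nat_lit 6) .nil .nil))) 
(.lf (nat_lit 112635) (.g (nat_lit 1741) (.e (nat_lit 5628) (nat_lit 312) (.e (nat_lit 2965) (nat_lit 185) (.e (nat_lit 434241) (nat_lit 27) (.e (nat_lit 565269) (nat_lit 6) (.e (nat_lit 81935) (nat_lit 20) (.e (nat_lit 2383) (nat_lit 155) (.e (nat_lit 811010) (nat_lit 0) .nil))))))) (.g (nat_lit 7) .nil .nil)))))) (.nd (nat_lit 3) (.nd (nat_lit 4) (.nd (nat_lit 5) 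
(.lf (nat_lit 112583) (.g (nat_lit 3702) (.e (nat_lit 5626) (nat_lit 312) (.e (nat_lit 2668) (nat_lit 167) (.e (nat_lit 196666) (nat_lit 13) (.e (nat_lit 65610) (nat_lit 10) (.e (nat_lit 344129) (nat_lit 26) (.e (nat_lit 557067) (nat_lit 9) (.e (nat_lit 7936) (nat_lit 19) (.e (nat_lit 319492) (nat_lit 0) .nil)))))))) (.g (nat_lit 6) .nil .nil))) 
(.lf (nat_lit 112615) (.g (nat_lit 3772) (.e (nat_lit 5626) (nat_lit 312) (.e (nat_lit 2668) (nat_lit 167) (.e (nat_lit 196666) (nat_lit 13) (.e (nat_lit 65617) (nat_lit 10) (.e (nat_lit 344133) (nat_lit 26) (.e (nat_lit 557068) (nat_lit 9) (.e (nat_lit 7936) (nat_lit 19) (.e (nat_lit 319491) (nat_lit 0) .nil)))))))) (.g (nat_lit 5) .nil .nil)))) (.nd (nat_lit 5) 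
(.lf (nat_lit 112599) (.g (nat_lit 3554) (.e (nat_lit 5626) (nat_lit 312) (.e (nat_lit 2668) (nat_lit 167) (.e (nat_lit 196666) (nat_lit 13) (.e (nat_lit 65617) (nat_lit 10) (.e (nat_lit 344130) (nat_lit 26) (.e (nat_lit 557074) (nat_lit 9) (.e (nat_lit 7936) (nat_lit 19) (.e (nat_lit 319492) (nat_lit 0) .nil)))))))) (.g (nat_lit 5) .nil .nil))) 
(.lf (nat_lit 112631) (.g (nat_lit 1846) (.e (nat_lit 5628) (nat_lit 312) (.e (nat_lit 214) (nat_lit 19) (.e (nat_lit 319534) (nat_lit 16) (.e (nat_lit 286760) (nat_lit 13) .nil)))) .nil)))) (.nd (nat_lit 4) (.nd (nat_lit 5) 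
(.lf (nat_lit 112591) (.g (nat_lit 3412) (.e (nat_lit 5626) (nat_lit 312) (.e (nat_lit 2668) (nat_lit 167) (.e (nat_lit 196666) (nat_lit 13) (.e (nat_lit 65617) (nat_lit 10) (.e (nat_lit 344130) (nat_lit 26) (.e (nat_lit 557066) (nat_lit 9) (.e (nat_lit 217) (nat_lit 19) (.e (nat_lit 319492) (nat_lit 0) .nil)))))))) (.g (nat_lit 5) .nil .nil))) 
(.lf (nat_lit 112623) (.g (nat_lit 1395) (.e (nat_lit 5627) (nat_lit 312) (.e (nat_lit 214) (nat_lit 19) (.e (nat_lit 319530) (nat_lit 16) (.e (nat_lit 286761) (nat_lit 13) .nil)))) .nil))) (.nd (nat_lit 5) 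
(.lf (nat_lit 112607) (.g (nat_lit 4178) (.e (nat_lit 5626) (nat_lit 312) (.e (nat_lit 2668) (nat_lit 167) (.e (nat_lit 196666) (nat_lit 13) (.e (nat_lit 65617) (nat_lit 10) (.e (nat_lit 344132) (nat_lit 26) (.e (nat_lit 557073) (nat_lit 9) (.e (nat_lit 7936) (nat_lit 19) (.e (nat_lit 319492) (nat_lit 0) .nil)))))))) (.g (nat_lit 6) .nil .nil))) 
(.lf (nat_lit 112639) (.g (nat_lit 2424) (.e (nat_lit 5629) (nat_lit 312) (.e (nat_lit 11) (nat_lit 0) (.e (nat_lit 6114) (nat_lit 332) (.e (nat_lit 1370) (nat_lit 103) (.e (nat_lit 294960) (nat_lit 13) .nil))))) .nil))))))))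

noncomputable def tv1521 : DT := (.nd (nat_lit 0) (.nd (nat_lit 1) (.nd (nat_lit 2) (.nd (nat_lit 3) (.nd (nat_lit 4) (.nd (nat_lit 5) (.nd (nat_lit 6) 
(.lf (nat_lit 112640) (.g (nat_lit 1376) (.e (nat_lit 5629) (nat_lit 312) (.e (nat_lit 100) (nat_lit 2) (.e (nat_lit 90170) (nat_lit 13) (.e (nat_lit 172065) (nat_lit 3) .nil)))) .nil)) 
(.lf (nat_lit 112704) (.g (nat_lit 2185) (.e (nat_lit 5629) (nat_lit 312) (.e (nat_lit 351) (nat_lit 28) (.e (nat_lit 393281) (nat_lit 23) (.e (nat_lit 426133) (nat_lit 3) (.e (nat_lit 204805) (nat_lit 0) (.e (nat_lit 6988) (nat_lit 377) (.e (nat_lit 7936) (nat_lit 157) .nil))))))) (.g (nat_lit 6) .nil .nil)))) (.nd (nat_lit 6) 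
(.lf (nat_lit 112672) (.g (nat_lit 1283) (.e (nat_lit 5629) (nat_lit 312) (.e (nat_lit 216) (nat_lit 19) (.e (nat_lit 319531) (nat_lit 16) (.e (nat_lit 286760) (nat_lit 13) .nil)))) .nil)) 
(.lf (nat_lit 112736) (.g (nat_lit 1646) (.e (nat_lit 5631) (nat_lit 312) (.e (nat_lit 351) (nat_lit 28) (.e (nat_lit 393283) (nat_lit 24) (.e (nat_lit 434231) (nat_lit 23) (.e (nat_lit 540416) (nat_lit 24) .nil))))) .nil)))) (.nd (nat_lit 5) (.nd (nat_lit 6) 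
(.lf (nat_lit 112656) (.g (nat_lit 2179) (.e (nat_lit 5629) (nat_lit 312) (.e (nat_lit 112) (nat_lit 3) (.e (nat_lit 98365) (nat_lit 26) (.e (nat_lit 426325) (nat_lit 13) (.e (nat_lit 483333) (nat_lit 0) (.e (nat_lit 6988) (nat_lit 377) (.e (nat_lit 7936) (nat_lit 157) .nil))))))) (.g (nat_lit 6) .nil .nil))) 
(.lf (nat_lit 112720) (.g (nat_lit 1447) (.e (nat_lit 5630) (nat_lit 312) (.e (nat_lit 216) (nat_lit 19) (.e (nat_lit 319534) (nat_lit 16) (.e (nat_lit 286742) (nat_lit 9) .nil)))) .nil))) (.nd (nat_lit 6) 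
(.lf (nat_lit 112688) (.g (nat_lit 940) (.e (nat_lit 5629) (nat_lit 312) (.e (nat_lit 226) (nat_lit 21) (.e (nat_lit 336434) (nat_lit 30) (.e (nat_lit 450577) (nat_lit 4) .nil)))) .nil)) 
(.lf (nat_lit 112752) (.g (nat_lit 554) (.e (nat_lit 5634) (nat_lit 312) (.e (nat_lit 351) (nat_lit 28) (.e (nat_lit 393274) (nat_lit 23) .nil))) .nil))))) (.nd (nat_lit 4) (.nd (nat_lit 5) (.nd (nat_lit 6) 
(.lf (nat_lit 112648) (.g (nat_lit 2101) (.e (nat_lit 5629) (nat_lit 312) (.e (nat_lit 100) (nat_lit 2) (.e (nat_lit 90185) (nat_lit 17) (.e (nat_lit 237624) (nat_lit 13) (.e (nat_lit 483333) (nat_lit 0) (.e (nat_lit 6988) (nat_lit 377) (.e (nat_lit 7936) (nat_lit 157) .nil))))))) (.g (nat_lit 6) .nil .nil))) 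
(.lf (nat_lit 112712) (.g (nat_lit 1434) (.e (nat_lit 5629) (nat_lit 312) (.e (nat_lit 351) (nat_lit 28) (.e (nat_lit 393287) (nat_lit 25) (.e (nat_lit 458789) (nat_lit 23) (.e (nat_lit 532575) (nat_lit 17) (.e (nat_lit 6988) (nat_lit 377) (.e (nat_lit 2506) (nat_lit 157) .nil))))))) (.g (nat_lit 4) .nil .nil)))) (.nd (nat_lit 6) 
(.lf (nat_lit 112680) (.g (nat_lit 2482) (.e (nat_lit 5629) (nat_lit 312) (.e (nat_lit 216) (nat_lit 19) (.e (nat_lit 319533) (nat_lit 16) (.e (nat_lit 286761) (nat_lit 13) (.e (nat_lit 393265) (nat_lit 22) (.e (nat_lit 425728) (nat_lit 10) .nil)))))) (.g (nat_lit 5) .nil .nil))) 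
(.lf (nat_lit 112744) (.g (nat_lit 1016) (.e (nat_lit 5632) (nat_lit 312) (.e (nat_lit 112) (nat_lit 3) (.e (nat_lit 98380) (nat_lit 31) (.e (nat_lit 466954) (nat_lit 11) (.e (nat_lit 343808) (nat_lit 25) .nil))))) .nil)))) (.nd (nat_lit 5) (.nd (nat_lit 6) 
(.lf (nat_lit 112664) (.g (nat_lit 1076) (.e (nat_lit 5629) (nat_lit 312) (.e (nat_lit 112) (nat_lit 3) (.e (nat_lit 98380) (nat_lit 31) (.e (nat_lit 466954) (nat_lit 11) (.e (nat_lit 343808) (nat_lit 25) (.e (nat_lit 409623) (nat_lit 10) .nil)))))) (.g (nat_lit 4) .nil .nil))) 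
(.lf (nat_lit 112728) (.g (nat_lit 2666) (.e (nat_lit 5631) (nat_lit 312) (.e (nat_lit 216) (nat_lit 19) (.e (nat_lit 319533) (nat_lit 16) (.e (nat_lit 286761) (nat_lit 13) (.e (nat_lit 393263) (nat_lit 22) .nil))))) .nil))) (.nd (nat_lit 6) 
(.lf (nat_lit 112696) (.g (nat_lit 3319) (.e (nat_lit 5629) (nat_lit 312) (.e (nat_lit 351) (nat_lit 28) (.e (nat_lit 393253) (nat_lit 18) (.e (nat_lit 164332) (nat_lit 230) (.e (nat_lit 163874) (nat_lit 3) (.e (nat_lit 204805) (nat_lit 0) (.e (nat_lit 6988) (nat_lit 377) (.e (nat_lit 1076) (nat_lit 81) .nil)))))))) (.g (nat_lit 5) .nil .nil))) 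
(.lf (nat_lit 112760) (.g (nat_lit 781) (.e (nat_lit 5638) (nat_lit 312) (.e (nat_lit 351) (nat_lit 28) (.e (nat_lit 393293) (nat_lit 26) (.e (nat_lit 483072) (nat_lit 26) .nil)))) .nil)))))) (.nd (nat_lit 3) (.nd (nat_lit 4) (.nd (nat_lit 5) (.nd (nat_lit 6) 
(.lf (nat_lit 112644) (.g (nat_lit 1027) (.e (nat_lit 5629) (nat_lit 312) (.e (nat_lit 100) (nat_lit 2) (.e (nat_lit 90174) (nat_lit 14) (.e (nat_lit 188160) (nat_lit 34) .nil)))) .nil)) 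
(.lf (nat_lit 112708) (.g (nat_lit 1475) (.e (nat_lit 5629) (nat_lit 312) (.e (nat_lit 351) (nat_lit 28) (.e (nat_lit 393286) (nat_lit 25) (.e (nat_lit 458789) (nat_lit 23) (.e (nat_lit 532575) (nat_lit 17) (.e (nat_lit 6988) (nat_lit 377) (.e (nat_lit 2506) (nat_lit 157) .nil))))))) (.g (nat_lit 4) .nil .nil)))) (.nd (nat_lit 6) 
(.lf (nat_lit 112676) (.g (nat_lit 2466) (.e (nat_lit 5629) (nat_lit 312) (.e (nat_lit 216) (nat_lit 19) (.e (nat_lit 319531) (nat_lit 16) (.e (nat_lit 286761) (nat_lit 13) (.e (nat_lit 393265) (nat_lit 22) (.e (nat_lit 425728) (nat_lit 10) .nil)))))) (.g (nat_lit 5) .nil .nil))) 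
(.lf (nat_lit 112740) (.g (nat_lit 1128) (.e (nat_lit 5632) (nat_lit 312) (.e (nat_lit 100) (nat_lit 2) (.e (nat_lit 90170) (nat_lit 13) (.e (nat_lit 172121) (nat_lit 13) .nil)))) .nil)))) (.nd (nat_lit 5) (.nd (nat_lit 6) 
(.lf (nat_lit 112660) (.g (nat_lit 653) (.e (nat_lit 5629) (nat_lit 312) (.e (nat_lit 112) (nat_lit 3) (.e (nat_lit 98370) (nat_lit 28) (.e (nat_lit 442391) (nat_lit 19) .nil)))) .nil)) 
(.lf (nat_lit 112724) (.g (nat_lit 1289) (.e (nat_lit 5631) (nat_lit 312) (.e (nat_lit 100) (nat_lit 2) (.e (nat_lit 90185) (nat_lit 17) (.e (nat_lit 237624) (nat_lit 13) (.e (nat_lit 491264) (nat_lit 7) .nil))))) .nil))) (.nd (nat_lit 6) 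
(.lf (nat_lit 112692) (.g (nat_lit 579) (.e (nat_lit 5629) (nat_lit 312) (.e (nat_lit 320) (nat_lit 24) (.e (nat_lit 360486) (nat_lit 18) (.e (nat_lit 671762) (nat_lit 4) .nil)))) .nil)) 
(.lf (nat_lit 112756) (.g (nat_lit 1979) (.e (nat_lit 5638) (nat_lit 312) (.e (nat_lit 226) (nat_lit 21) (.e (nat_lit 336432) (nat_lit 30) (.e (nat_lit 450580) (nat_lit 5) (.e (nat_lit 540416) (nat_lit 24) .nil))))) .nil))))) (.nd (nat_lit 4) (.nd (nat_lit 5) (.nd (nat_lit 6) 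
(.lf (nat_lit 112652) (.g (nat_lit 1368) (.e (nat_lit 5629) (nat_lit 312) (.e (nat_lit 112) (nat_lit 3) (.e (nat_lit 98358) (nat_lit 26) (.e (nat_lit 426323) (nat_lit 13) (.e (nat_lit 491264) (nat_lit 7) .nil))))) .nil)) 
(.lf (nat_lit 112716) (.g (nat_lit 724) (.e (nat_lit 5629) (nat_lit 312) (.e (nat_lit 351) (nat_lit 28) (.e (nat_lit 393293) (nat_lit 26) (.e (nat_lit 483072) (nat_lit 26) .nil)))) .nil))) (.nd (nat_lit 6) 
(.lf (nat_lit 112684) (.g (nat_lit 2629) (.e (nat_lit 5629) (nat_lit 312) (.e (nat_lit 216) (nat_lit 19) (.e (nat_lit 319535) (nat_lit 17) (.e (nat_lit 294960) (nat_lit 13) (.e (nat_lit 393260) (nat_lit 21) (.e (nat_lit 409623) (nat_lit 10) .nil)))))) (.g (nat_lit 6) .nil .nil))) 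
(.lf (nat_lit 112748) (.g (nat_lit 436) (.e (nat_lit 5634) (nat_lit 312) (.e (nat_lit 100) (nat_lit 2) (.e (nat_lit 98048) (nat_lit 8) (.e (nat_lit 131127) (nat_lit 13) (.e (nat_lit 401152) (nat_lit 7) .nil))))) .nil)))) (.nd (nat_lit 5) (.nd (nat_lit 6) 
(.lf (nat_lit 112668) (.g (nat_lit 1972) (.e (nat_lit 5629) (nat_lit 312) (.e (nat_lit 216) (nat_lit 19) (.e (nat_lit 319529) (nat_lit 16) (.e (nat_lit 286761) (nat_lit 13) (.e (nat_lit 393265) (nat_lit 22) (.e (nat_lit 425728) (nat_lit 10) .nil)))))) (.g (nat_lit 5) .nil .nil))) 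
(.lf (nat_lit 112732) (.g (nat_lit 1293) (.e (nat_lit 5631) (nat_lit 312) (.e (nat_lit 226) (nat_lit 21) (.e (nat_lit 336443) (nat_lit 32) (.e (nat_lit 466981) (nat_lit 23) .nil)))) .nil))) (.nd (nat_lit 6) 
(.lf (nat_lit 112700) (.g (nat_lit 1567) (.e (nat_lit 5629) (nat_lit 312) (.e (nat_lit 351) (nat_lit 28) (.e (nat_lit 393271) (nat_lit 23) (.e (nat_lit 426131) (nat_lit 3) (.e (nat_lit 212736) (nat_lit 7) .nil))))) .nil)) 
(.lf (nat_lit 112764) (.g (nat_lit 1726) (.e (nat_lit 5642) (nat_lit 312) (.e (nat_lit 2679) (nat_lit 168) (.e (nat_lit 204846) (nat_lit 24) (.e (nat_lit 319529) (nat_lit 16) (.e (nat_lit 286735) (nat_lit 3) .nil))))) .nil))))))) (.nd (nat_lit 2) (.nd (nat_lit 3) (.nd (nat_lit 4) (.nd (nat_lit 5) (.nd (nat_lit 6) 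
(.lf (nat_lit 112642) (.g (nat_lit 4526) (.e (nat_lit 5629) (nat_lit 312) (.e (nat_lit 100) (nat_lit 2) (.e (nat_lit 90174) (nat_lit 14) (.e (nat_lit 180250) (nat_lit 10) (.e (nat_lit 573489) (nat_lit 14) (.e (nat_lit 73755) (nat_lit 8) (.e (nat_lit 557119) (nat_lit 18) (.e (nat_lit 7936) (nat_lit 157) .nil)))))))) (.g (nat_lit 7) .nil .nil))) 
(.lf (nat_lit 112706) (.g (nat_lit 2449) (.e (nat_lit 5629) (nat_lit 312) (.e (nat_lit 351) (nat_lit 28) (.e (nat_lit 393282) (nat_lit 24) (.e (nat_lit 434231) (nat_lit 23) (.e (nat_lit 532575) (nat_lit 17) (.e (nat_lit 6988) (nat_lit 377) (.e (nat_lit 7936) (nat_lit 157) .nil))))))) (.g (nat_lit 5) .nil .nil)))) (.nd (nat_lit 6) 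
(.lf (nat_lit 112674) (.g (nat_lit 1630) (.e (nat_lit 5629) (nat_lit 312) (.e (nat_lit 216) (nat_lit 19) (.e (nat_lit 319531) (nat_lit 16) (.e (nat_lit 286761) (nat_lit 13) (.e (nat_lit 393264) (nat_lit 22) .nil))))) .nil)) 
(.lf (nat_lit 112738) (.g (nat_lit 1229) (.e (nat_lit 5631) (nat_lit 312) (.e (nat_lit 351) (nat_lit 28) (.e (nat_lit 393286) (nat_lit 25) (.e (nat_lit 458789) (nat_lit 23) (.e (nat_lit 540416) (nat_lit 24) .nil))))) .nil)))) (.nd (nat_lit 5) (.nd (nat_lit 6) 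
(.lf (nat_lit 112658) (.g (nat_lit 1173) (.e (nat_lit 5629) (nat_lit 312) (.e (nat_lit 112) (nat_lit 3) (.e (nat_lit 98365) (nat_lit 26) (.e (nat_lit 426326) (nat_lit 13) (.e (nat_lit 491264) (nat_lit 7) .nil))))) .nil)) 
(.lf (nat_lit 112722) (.g (nat_lit 1745) (.e (nat_lit 5631) (nat_lit 312) (.e (nat_lit 100) (nat_lit 2) (.e (nat_lit 90185) (nat_lit 17) (.e (nat_lit 237620) (nat_lit 13) .nil)))) .nil))) (.nd (nat_lit 6) 
(.lf (nat_lit 112690) (.g (nat_lit 1589) (.e (nat_lit 5629) (nat_lit 312) (.e (nat_lit 226) (nat_lit 21) (.e (nat_lit 336443) (nat_lit 32) (.e (nat_lit 466981) (nat_lit 23) (.e (nat_lit 204805) (nat_lit 0) .nil))))) .nil)) 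
(.lf (nat_lit 112754) (.g (nat_lit 1617) (.e (nat_lit 5638) (nat_lit 312) (.e (nat_lit 100) (nat_lit 2) (.e (nat_lit 90185) (nat_lit 17) (.e (nat_lit 237623) (nat_lit 13) .nil)))) .nil))))) (.nd (nat_lit 4) (.nd (nat_lit 5) (.nd (nat_lit 6) 
(.lf (nat_lit 112650) (.g (nat_lit 1590) (.e (nat_lit 5629) (nat_lit 312) (.e (nat_lit 112) (nat_lit 3) (.e (nat_lit 98358) (nat_lit 26) (.e (nat_lit 426323) (nat_lit 13) (.e (nat_lit 483332) (nat_lit 0) (.e (nat_lit 6988) (nat_lit 377) (.e (nat_lit 7936) (nat_lit 157) .nil))))))) (.g (nat_lit 4) .nil .nil))) 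
(.lf (nat_lit 112714) (.g (nat_lit 1275) (.e (nat_lit 5629) (nat_lit 312) (.e (nat_lit 351) (nat_lit 28) (.e (nat_lit 393287) (nat_lit 25) (.e (nat_lit 458789) (nat_lit 23) (.e (nat_lit 540416) (nat_lit 24) .nil))))) .nil))) (.nd (nat_lit 6) 
(.lf (nat_lit 112682) (.g (nat_lit 2101) (.e (nat_lit 5629) (nat_lit 312) (.e (nat_lit 216) (nat_lit 19) (.e (nat_lit 319534) (nat_lit 16) (.e (nat_lit 286761) (nat_lit 13) (.e (nat_lit 393265) (nat_lit 22) (.e (nat_lit 425728) (nat_lit 10) .nil)))))) (.g (nat_lit 5) .nil .nil))) 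
(.lf (nat_lit 112746) (.g (nat_lit 1616) (.e (nat_lit 5633) (nat_lit 312) (.e (nat_lit 100) (nat_lit 2) (.e (nat_lit 90185) (nat_lit 17) (.e (nat_lit 237623) (nat_lit 13) .nil)))) .nil)))) (.nd (nat_lit 5) (.nd (nat_lit 6) 
(.lf (nat_lit 112666) (.g (nat_lit 1594) (.e (nat_lit 5629) (nat_lit 312) (.e (nat_lit 216) (nat_lit 19) (.e (nat_lit 319528) (nat_lit 16) (.e (nat_lit 286761) (nat_lit 13) (.e (nat_lit 393264) (nat_lit 22) (.e (nat_lit 425728) (nat_lit 10) .nil)))))) (.g (nat_lit 5) .nil .nil))) 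
(.lf (nat_lit 112730) (.g (nat_lit 1280) (.e (nat_lit 5631) (nat_lit 312) (.e (nat_lit 226) (nat_lit 21) (.e (nat_lit 336434) (nat_lit 30) (.e (nat_lit 450579) (nat_lit 5) (.e (nat_lit 540416) (nat_lit 24) .nil))))) .nil))) (.nd (nat_lit 6) 
(.lf (nat_lit 112698) (.g (nat_lit 1517) (.e (nat_lit 5629) (nat_lit 312) (.e (nat_lit 351) (nat_lit 28) (.e (nat_lit 393271) (nat_lit 23) (.e (nat_lit 426131) (nat_lit 3) (.e (nat_lit 204805) (nat_lit 0) .nil))))) .nil)) 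
(.lf (nat_lit 112762) (.g (nat_lit 1080) (.e (nat_lit 5639) (nat_lit 312) (.e (nat_lit 351) (nat_lit 28) (.e (nat_lit 393300) (nat_lit 27) (.e (nat_lit 499456) (nat_lit 18) .nil)))) .nil)))))) (.nd (nat_lit 3) (.nd (nat_lit 4) (.nd (nat_lit 5) (.nd (nat_lit 6) 
(.lf (nat_lit 112646) (.g (nat_lit 1629) (.e (nat_lit 5629) (nat_lit 312) (.e (nat_lit 100) (nat_lit 2) (.e (nat_lit 90185) (nat_lit 17) (.e (nat_lit 237620) (nat_lit 13) .nil)))) .nil)) 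
(.lf (nat_lit 112710) (.g (nat_lit 1262) (.e (nat_lit 5629) (nat_lit 312) (.e (nat_lit 351) (nat_lit 28) (.e (nat_lit 393286) (nat_lit 25) (.e (nat_lit 458789) (nat_lit 23) (.e (nat_lit 540416) (nat_lit 24) (.e (nat_lit 409623) (nat_lit 10) .nil)))))) (.g (nat_lit 4) .nil .nil)))) (.nd (nat_lit 6) 
(.lf (nat_lit 112678) (.g (nat_lit 2211) (.e (nat_lit 5629) (nat_lit 312) (.e (nat_lit 216) (nat_lit 19) (.e (nat_lit 319533) (nat_lit 16) (.e (nat_lit 286760) (nat_lit 13) (.e (nat_lit 393265) (nat_lit 22) (.e (nat_lit 425728) (nat_lit 10) .nil)))))) (.g (nat_lit 5) .nil .nil))) 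
(.lf (nat_lit 112742) (.g (nat_lit 1191) (.e (nat_lit 5632) (nat_lit 312) (.e (nat_lit 100) (nat_lit 2) (.e (nat_lit 90185) (nat_lit 17) (.e (nat_lit 237621) (nat_lit 13) (.e (nat_lit 491264) (nat_lit 7) .nil))))) .nil)))) (.nd (nat_lit 5) (.nd (nat_lit 6) 
(.lf (nat_lit 112662) (.g (nat_lit 2815) (.e (nat_lit 5629) (nat_lit 312) (.e (nat_lit 112) (nat_lit 3) (.e (nat_lit 98373) (nat_lit 29) (.e (nat_lit 450563) (nat_lit 0) (.e (nat_lit 6828) (nat_lit 367) .nil))))) .nil)) 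
(.lf (nat_lit 112726) (.g (nat_lit 1220) (.e (nat_lit 5631) (nat_lit 312) (.e (nat_lit 216) (nat_lit 19) (.e (nat_lit 319528) (nat_lit 16) (.e (nat_lit 286761) (nat_lit 13) (.e (nat_lit 393264) (nat_lit 22) .nil))))) .nil))) (.nd (nat_lit 6) 
(.lf (nat_lit 112694) (.g (nat_lit 1079) (.e (nat_lit 5629) (nat_lit 312) (.e (nat_lit 351) (nat_lit 28) (.e (nat_lit 393253) (nat_lit 18) (.e (nat_lit 164330) (nat_lit 230) .nil)))) .nil)) 
(.lf (nat_lit 112758) (.g (nat_lit 1195) (.e (nat_lit 5638) (nat_lit 312) (.e (nat_lit 226) (nat_lit 21) (.e (nat_lit 336443) (nat_lit 32) (.e (nat_lit 466979) (nat_lit 23) .nil)))) .nil))))) (.nd (nat_lit 4) (.nd (nat_lit 5) (.nd (nat_lit 6) 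
(.lf (nat_lit 112654) (.g (nat_lit 1883) (.e (nat_lit 5629) (nat_lit 312) (.e (nat_lit 112) (nat_lit 3) (.e (nat_lit 98363) (nat_lit 26) (.e (nat_lit 426321) (nat_lit 13) (.e (nat_lit 483333) (nat_lit 0) (.e (nat_lit 6988) (nat_lit 377) (.e (nat_lit 7936) (nat_lit 157) .nil))))))) (.g (nat_lit 6) .nil .nil))) 
(.lf (nat_lit 112718) (.g (nat_lit 1486) (.e (nat_lit 5630) (nat_lit 312) (.e (nat_lit 216) (nat_lit 19) (.e (nat_lit 319533) (nat_lit 16) (.e (nat_lit 286742) (nat_lit 9) .nil)))) .nil))) (.nd (nat_lit 6) 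
(.lf (nat_lit 112686) (.g (nat_lit 597) (.e (nat_lit 5629) (nat_lit 312) (.e (nat_lit 226) (nat_lit 21) (.e (nat_lit 336432) (nat_lit 30) .nil))) .nil)) 
(.lf (nat_lit 112750) (.g (nat_lit 1840) (.e (nat_lit 5634) (nat_lit 312) (.e (nat_lit 216) (nat_lit 19) (.e (nat_lit 319531) (nat_lit 16) (.e (nat_lit 286761) (nat_lit 13) (.e (nat_lit 393264) (nat_lit 22) .nil))))) .nil)))) (.nd (nat_lit 5) (.nd (nat_lit 6) 
(.lf (nat_lit 112670) (.g (nat_lit 2194) (.e (nat_lit 5629) (nat_lit 312) (.e (nat_lit 216) (nat_lit 19) (.e (nat_lit 319530) (nat_lit 16) (.e (nat_lit 286761) (nat_lit 13) (.e (nat_lit 393264) (nat_lit 22) (.e (nat_lit 425728) (nat_lit 10) .nil)))))) (.g (nat_lit 5) .nil .nil))) 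
(.lf (nat_lit 112734) (.g (nat_lit 1316) (.e (nat_lit 5631) (nat_lit 312) (.e (nat_lit 351) (nat_lit 28) (.e (nat_lit 393277) (nat_lit 23) (.e (nat_lit 426140) (nat_lit 3) (.e (nat_lit 212736) (nat_lit 7) .nil))))) .nil))) (.nd (nat_lit 6) 
(.lf (nat_lit 112702) (.g (nat_lit 425) (.e (nat_lit 5629) (nat_lit 312) (.e (nat_lit 351) (nat_lit 28) (.e (nat_lit 393277) (nat_lit 23) .nil))) .nil)) 
(.lf (nat_lit 112766) (.g (nat_lit 2630) (.e (nat_lit 5645) (nat_lit 312) (.e (nat_lit 2887) (nat_lit 184) (.e (nat_lit 426412) (nat_lit 15) (.e (nat_lit 1856) (nat_lit 124) (.e (nat_lit 557101) (nat_lit 13) .nil))))) .nil)))))))) (.nd (nat_lit 1) (.nd (nat_lit 2) (.nd (nat_lit 3) (.nd (nat_lit 4) (.nd (nat_lit 5) (.nd (nat_lit 6) 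
(.lf (nat_lit 112641) (.g (nat_lit 1191) (.e (nat_lit 5629) (nat_lit 312) (.e (nat_lit 100) (nat_lit 2) (.e (nat_lit 90170) (nat_lit 13) (.e (nat_lit 172121) (nat_lit 13) .nil)))) .nil)) 
(.lf (nat_lit 112705) (.g (nat_lit 1605) (.e (nat_lit 5629) (nat_lit 312) (.e (nat_lit 351) (nat_lit 28) (.e (nat_lit 393281) (nat_lit 23) (.e (nat_lit 426133) (nat_lit 3) (.e (nat_lit 212736) (nat_lit 7) .nil))))) .nil))) (.nd (nat_lit 6) 
(.lf (nat_lit 112673) (.g (nat_lit 3100) (.e (nat_lit 5629) (nat_lit 312) (.e (nat_lit 216) (nat_lit 19) (.e (nat_lit 319531) (nat_lit 16) (.e (nat_lit 286761) (nat_lit 13) (.e (nat_lit 393234) (nat_lit 17) (.e (nat_lit 7065) (nat_lit 377) (.e (nat_lit 2508) (nat_lit 157) .nil))))))) (.g (nat_lit 6) .nil .nil))) 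
(.lf (nat_lit 112737) (.g (nat_lit 1226) (.e (nat_lit 5631) (nat_lit 312) (.e (nat_lit 351) (nat_lit 28) (.e (nat_lit 393283) (nat_lit 24) (.e (nat_lit 434234) (nat_lit 23) (.e (nat_lit 540416) (nat_lit 24) .nil))))) .nil)))) (.nd (nat_lit 5) (.nd (nat_lit 6) 
(.lf (nat_lit 112657) (.g (nat_lit 1626) (.e (nat_lit 5629) (nat_lit 312) (.e (nat_lit 112) (nat_lit 3) (.e (nat_lit 98365) (nat_lit 26) (.e (nat_lit 426325) (nat_lit 13) (.e (nat_lit 491264) (nat_lit 7) .nil))))) .nil)) 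
(.lf (nat_lit 112721) (.g (nat_lit 1119) (.e (nat_lit 5631) (nat_lit 312) (.e (nat_lit 100) (nat_lit 2) (.e (nat_lit 90170) (nat_lit 13) (.e (nat_lit 172121) (nat_lit 13) .nil)))) .nil))) (.nd (nat_lit 6) 
(.lf (nat_lit 112689) (.g (nat_lit 1251) (.e (nat_lit 5629) (nat_lit 312) (.e (nat_lit 226) (nat_lit 21) (.e (nat_lit 336443) (nat_lit 32) (.e (nat_lit 466979) (nat_lit 23) .nil)))) .nil)) 
(.lf (nat_lit 112753) (.g (nat_lit 721) (.e (nat_lit 5634) (nat_lit 312) (.e (nat_lit 351) (nat_lit 28) (.e (nat_lit 393287) (nat_lit 25) (.e (nat_lit 458789) (nat_lit 23) .nil)))) .nil))))) (.nd (nat_lit 4) (.nd (nat_lit 5) (.nd (nat_lit 6) 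
(.lf (nat_lit 112649) (.g (nat_lit 1162) (.e (nat_lit 5629) (nat_lit 312) (.e (nat_lit 100) (nat_lit 2) (.e (nat_lit 90185) (nat_lit 17) (.e (nat_lit 237624) (nat_lit 13) (.e (nat_lit 491264) (nat_lit 7) (.e (nat_lit 409623) (nat_lit 10) .nil)))))) (.g (nat_lit 4) .nil .nil))) 
(.lf (nat_lit 112713) (.g (nat_lit 2101) (.e (nat_lit 5629) (nat_lit 312) (.e (nat_lit 351) (nat_lit 28) (.e (nat_lit 393287) (nat_lit 25) (.e (nat_lit 458789) (nat_lit 23) (.e (nat_lit 532575) (nat_lit 17) (.e (nat_lit 6988) (nat_lit 377) (.e (nat_lit 7936) (nat_lit 157) .nil))))))) (.g (nat_lit 6) .nil .nil)))) (.nd (nat_lit 6) 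
(.lf (nat_lit 112681) (.g (nat_lit 1703) (.e (nat_lit 5629) (nat_lit 312) (.e (nat_lit 216) (nat_lit 19) (.e (nat_lit 319534) (nat_lit 16) (.e (nat_lit 286761) (nat_lit 13) (.e (nat_lit 393263) (nat_lit 22) .nil))))) .nil)) 
(.lf (nat_lit 112745) (.g (nat_lit 880) (.e (nat_lit 5633) (nat_lit 312) (.e (nat_lit 100) (nat_lit 2) (.e (nat_lit 90185) (nat_lit 17) (.e (nat_lit 237621) (nat_lit 13) .nil)))) .nil)))) (.nd (nat_lit 5) (.nd (nat_lit 6) 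
(.lf (nat_lit 112665) (.g (nat_lit 1975) (.e (nat_lit 5629) (nat_lit 312) (.e (nat_lit 216) (nat_lit 19) (.e (nat_lit 319511) (nat_lit 10) (.e (nat_lit 5293) (nat_lit 298) (.e (nat_lit 1656) (nat_lit 115) (.e (nat_lit 393265) (nat_lit 22) (.e (nat_lit 425728) (nat_lit 10) .nil))))))) (.g (nat_lit 6) .nil .nil))) 
(.lf (nat_lit 112729) (.g (nat_lit 2497) (.e (nat_lit 5631) (nat_lit 312) (.e (nat_lit 216) (nat_lit 19) (.e (nat_lit 319533) (nat_lit 16) (.e (nat_lit 286761) (nat_lit 13) (.e (nat_lit 393264) (nat_lit 22) .nil))))) .nil))) (.nd (nat_lit 6) 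
(.lf (nat_lit 112697) (.g (nat_lit 1624) (.e (nat_lit 5629) (nat_lit 312) (.e (nat_lit 351) (nat_lit 28) (.e (nat_lit 393266) (nat_lit 23) (.e (nat_lit 426140) (nat_lit 3) (.e (nat_lit 212736) (nat_lit 7) .nil))))) .nil)) 
(.lf (nat_lit 112761) (.g (nat_lit 548) (.e (nat_lit 5639) (nat_lit 312) (.e (nat_lit 351) (nat_lit 28) (.e (nat_lit 393299) (nat_lit 27) .nil))) .nil)))))) (.nd (nat_lit 3) (.nd (nat_lit 4) (.nd (nat_lit 5) (.nd (nat_lit 6) 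
(.lf (nat_lit 112645) (.g (nat_lit 701) (.e (nat_lit 5629) (nat_lit 312) (.e (nat_lit 100) (nat_lit 2) (.e (nat_lit 90178) (nat_lit 15) (.e (nat_lit 196352) (nat_lit 19) .nil)))) .nil)) 
(.lf (nat_lit 112709) (.g (nat_lit 2142) (.e (nat_lit 5629) (nat_lit 312) (.e (nat_lit 351) (nat_lit 28) (.e (nat_lit 393286) (nat_lit 25) (.e (nat_lit 458789) (nat_lit 23) (.e (nat_lit 532575) (nat_lit 17) (.e (nat_lit 6988) (nat_lit 377) (.e (nat_lit 7936) (nat_lit 157) .nil))))))) (.g (nat_lit 6) .nil .nil)))) (.nd (nat_lit 6) 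
(.lf (nat_lit 112677) (.g (nat_lit 2013) (.e (nat_lit 5629) (nat_lit 312) (.e (nat_lit 216) (nat_lit 19) (.e (nat_lit 319532) (nat_lit 16) (.e (nat_lit 286761) (nat_lit 13) (.e (nat_lit 393265) (nat_lit 22) (.e (nat_lit 425728) (nat_lit 10) .nil)))))) (.g (nat_lit 5) .nil .nil))) 
(.lf (nat_lit 112741) (.g (nat_lit 1746) (.e (nat_lit 5632) (nat_lit 312) (.e (nat_lit 100) (nat_lit 2) (.e (nat_lit 90185) (nat_lit 17) (.e (nat_lit 237620) (nat_lit 13) .nil)))) .nil)))) (.nd (nat_lit 5) (.nd (nat_lit 6) 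
(.lf (nat_lit 112661) (.g (nat_lit 2202) (.e (nat_lit 5629) (nat_lit 312) (.e (nat_lit 112) (nat_lit 3) (.e (nat_lit 98373) (nat_lit 29) (.e (nat_lit 450561) (nat_lit 0) (.e (nat_lit 6830) (nat_lit 367) .nil))))) .nil)) 
(.lf (nat_lit 112725) (.g (nat_lit 1010) (.e (nat_lit 5631) (nat_lit 312) (.e (nat_lit 112) (nat_lit 3) (.e (nat_lit 98380) (nat_lit 31) (.e (nat_lit 466954) (nat_lit 11) (.e (nat_lit 343808) (nat_lit 25) .nil))))) .nil))) (.nd (nat_lit 6) 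
(.lf (nat_lit 112693) (.g (nat_lit 2489) (.e (nat_lit 5629) (nat_lit 312) (.e (nat_lit 320) (nat_lit 24) (.e (nat_lit 360486) (nat_lit 18) (.e (nat_lit 671762) (nat_lit 4) (.e (nat_lit 65586) (nat_lit 7) (.e (nat_lit 327424) (nat_lit 10) .nil)))))) (.g (nat_lit 5) .nil .nil))) 
(.lf (nat_lit 112757) (.g (nat_lit 1403) (.e (nat_lit 5638) (nat_lit 312) (.e (nat_lit 226) (nat_lit 21) (.e (nat_lit 336434) (nat_lit 30) (.e (nat_lit 450579) (nat_lit 5) (.e (nat_lit 540416) (nat_lit 24) .nil))))) .nil))))) (.nd (nat_lit 4) (.nd (nat_lit 5) (.nd (nat_lit 6) 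
(.lf (nat_lit 112653) (.g (nat_lit 1484) (.e (nat_lit 5629) (nat_lit 312) (.e (nat_lit 112) (nat_lit 3) (.e (nat_lit 98358) (nat_lit 26) (.e (nat_lit 426323) (nat_lit 13) (.e (nat_lit 491264) (nat_lit 7) (.e (nat_lit 409623) (nat_lit 10) .nil)))))) (.g (nat_lit 4) .nil .nil))) 
(.lf (nat_lit 112717) (.g (nat_lit 1026) (.e (nat_lit 5630) (nat_lit 312) (.e (nat_lit 216) (nat_lit 19) (.e (nat_lit 319531) (nat_lit 16) (.e (nat_lit 286743) (nat_lit 9) .nil)))) .nil))) (.nd (nat_lit 6) 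
(.lf (nat_lit 112685) (.g (nat_lit 1962) (.e (nat_lit 5629) (nat_lit 312) (.e (nat_lit 216) (nat_lit 19) (.e (nat_lit 319535) (nat_lit 17) (.e (nat_lit 294960) (nat_lit 13) (.e (nat_lit 393260) (nat_lit 21) (.e (nat_lit 417536) (nat_lit 10) .nil)))))) (.g (nat_lit 5) .nil .nil))) 
(.lf (nat_lit 112749) (.g (nat_lit 1616) (.e (nat_lit 5634) (nat_lit 312) (.e (nat_lit 100) (nat_lit 2) (.e (nat_lit 90185) (nat_lit 17) (.e (nat_lit 237623) (nat_lit 13) .nil)))) .nil)))) (.nd (nat_lit 5) (.nd (nat_lit 6) 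
(.lf (nat_lit 112669) (.g (nat_lit 1665) (.e (nat_lit 5629) (nat_lit 312) (.e (nat_lit 216) (nat_lit 19) (.e (nat_lit 319530) (nat_lit 16) (.e (nat_lit 286761) (nat_lit 13) (.e (nat_lit 393264) (nat_lit 22) .nil))))) .nil)) 
(.lf (nat_lit 112733) (.g (nat_lit 1333) (.e (nat_lit 5631) (nat_lit 312) (.e (nat_lit 351) (nat_lit 28) (.e (nat_lit 393274) (nat_lit 23) (.e (nat_lit 426132) (nat_lit 3) (.e (nat_lit 212736) (nat_lit 7) .nil))))) .nil))) (.nd (nat_lit 6) 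
(.lf (nat_lit 112701) (.g (nat_lit 1004) (.e (nat_lit 5629) (nat_lit 312) (.e (nat_lit 351) (nat_lit 28) (.e (nat_lit 393274) (nat_lit 23) (.e (nat_lit 426132) (nat_lit 3) .nil)))) .nil)) 
(.lf (nat_lit 112765) (.g (nat_lit 2311) (.e (nat_lit 5642) (nat_lit 312) (.e (nat_lit 2679) (nat_lit 168) (.e (nat_lit 204846) (nat_lit 24) (.e (nat_lit 319530) (nat_lit 16) (.e (nat_lit 286735) (nat_lit 3) .nil))))) .nil))))))) (.nd (nat_lit 2) (.nd (nat_lit 3) (.nd (nat_lit 4) (.nd (nat_lit 5) (.nd (nat_lit 6) 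
(.lf (nat_lit 112643) (.g (nat_lit 4598) (.e (nat_lit 5629) (nat_lit 312) (.e (nat_lit 100) (nat_lit 2) (.e (nat_lit 90174) (nat_lit 14) (.e (nat_lit 180251) (nat_lit 10) (.e (nat_lit 573489) (nat_lit 14) (.e (nat_lit 73755) (nat_lit 8) (.e (nat_lit 557119) (nat_lit 18) (.e (nat_lit 7936) (nat_lit 157) .nil)))))))) (.g (nat_lit 7) .nil .nil))) 
(.lf (nat_lit 112707) (.g (nat_lit 1475) (.e (nat_lit 5629) (nat_lit 312) (.e (nat_lit 351) (nat_lit 28) (.e (nat_lit 393286) (nat_lit 25) (.e (nat_lit 458789) (nat_lit 23) (.e (nat_lit 532575) (nat_lit 17) (.e (nat_lit 6988) (nat_lit 377) (.e (nat_lit 2404) (nat_lit 157) .nil))))))) (.g (nat_lit 4) .nil .nil)))) (.nd (nat_lit 6) 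
(.lf (nat_lit 112675) (.g (nat_lit 2203) (.e (nat_lit 5629) (nat_lit 312) (.e (nat_lit 216) (nat_lit 19) (.e (nat_lit 319531) (nat_lit 16) (.e (nat_lit 286761) (nat_lit 13) (.e (nat_lit 393264) (nat_lit 22) (.e (nat_lit 425728) (nat_lit 10) .nil)))))) (.g (nat_lit 5) .nil .nil))) 
(.lf (nat_lit 112739) (.g (nat_lit 1308) (.e (nat_lit 5631) (nat_lit 312) (.e (nat_lit 351) (nat_lit 28) (.e (nat_lit 393287) (nat_lit 25) (.e (nat_lit 458789) (nat_lit 23) (.e (nat_lit 540416) (nat_lit 24) .nil))))) .nil)))) (.nd (nat_lit 5) (.nd (nat_lit 6) 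
(.lf (nat_lit 112659) (.g (nat_lit 1566) (.e (nat_lit 5629) (nat_lit 312) (.e (nat_lit 112) (nat_lit 3) (.e (nat_lit 98365) (nat_lit 26) (.e (nat_lit 426327) (nat_lit 13) (.e (nat_lit 491264) (nat_lit 7) .nil))))) .nil)) 
(.lf (nat_lit 112723) (.g (nat_lit 1189) (.e (nat_lit 5631) (nat_lit 312) (.e (nat_lit 100) (nat_lit 2) (.e (nat_lit 90185) (nat_lit 17) (.e (nat_lit 237621) (nat_lit 13) (.e (nat_lit 491264) (nat_lit 7) .nil))))) .nil))) (.nd (nat_lit 6) 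
(.lf (nat_lit 112691) (.g (nat_lit 2266) (.e (nat_lit 5629) (nat_lit 312) (.e (nat_lit 320) (nat_lit 24) (.e (nat_lit 360474) (nat_lit 8) (.e (nat_lit 557060) (nat_lit 0) .nil)))) .nil)) 
(.lf (nat_lit 112755) (.g (nat_lit 498) (.e (nat_lit 5638) (nat_lit 312) (.e (nat_lit 112) (nat_lit 3) (.e (nat_lit 98380) (nat_lit 31) (.e (nat_lit 466954) (nat_lit 11) .nil)))) .nil))))) (.nd (nat_lit 4) (.nd (nat_lit 5) (.nd (nat_lit 6) 
(.lf (nat_lit 112651) (.g (nat_lit 2185) (.e (nat_lit 5629) (nat_lit 312) (.e (nat_lit 112) (nat_lit 3) (.e (nat_lit 98358) (nat_lit 26) (.e (nat_lit 426323) (nat_lit 13) (.e (nat_lit 483333) (nat_lit 0) (.e (nat_lit 6988) (nat_lit 377) (.e (nat_lit 7936) (nat_lit 157) .nil))))))) (.g (nat_lit 6) .nil .nil))) 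
(.lf (nat_lit 112715) (.g (nat_lit 294) (.e (nat_lit 5629) (nat_lit 312) (.e (nat_lit 351) (nat_lit 28) (.e (nat_lit 393289) (nat_lit 25) .nil))) .nil))) (.nd (nat_lit 6) 
(.lf (nat_lit 112683) (.g (nat_lit 923) (.e (nat_lit 5629) (nat_lit 312) (.e (nat_lit 216) (nat_lit 19) (.e (nat_lit 319535) (nat_lit 17) (.e (nat_lit 294959) (nat_lit 13) .nil)))) .nil)) 
(.lf (nat_lit 112747) (.g (nat_lit 184) (.e (nat_lit 5633) (nat_lit 312) (.e (nat_lit 112) (nat_lit 3) (.e (nat_lit 98380) (nat_lit 31) .nil))) .nil)))) (.nd (nat_lit 5) (.nd (nat_lit 6) 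
(.lf (nat_lit 112667) (.g (nat_lit 1988) (.e (nat_lit 5629) (nat_lit 312) (.e (nat_lit 216) (nat_lit 19) (.e (nat_lit 319528) (nat_lit 16) (.e (nat_lit 286761) (nat_lit 13) (.e (nat_lit 393265) (nat_lit 22) (.e (nat_lit 425728) (nat_lit 10) .nil)))))) (.g (nat_lit 5) .nil .nil))) 
(.lf (nat_lit 112731) (.g (nat_lit 1278) (.e (nat_lit 5631) (nat_lit 312) (.e (nat_lit 226) (nat_lit 21) (.e (nat_lit 336443) (nat_lit 32) (.e (nat_lit 466979) (nat_lit 23) .nil)))) .nil))) (.nd (nat_lit 6) 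
(.lf (nat_lit 112699) (.g (nat_lit 2179) (.e (nat_lit 5629) (nat_lit 312) (.e (nat_lit 351) (nat_lit 28) (.e (nat_lit 393271) (nat_lit 23) (.e (nat_lit 426131) (nat_lit 3) (.e (nat_lit 204805) (nat_lit 0) (.e (nat_lit 6988) (nat_lit 377) (.e (nat_lit 7936) (nat_lit 157) .nil))))))) (.g (nat_lit 6) .nil .nil))) 
(.lf (nat_lit 112763) (.g (nat_lit 1250) (.e (nat_lit 5639) (nat_lit 312) (.e (nat_lit 351) (nat_lit 28) (.e (nat_lit 393301) (nat_lit 27) (.e (nat_lit 499456) (nat_lit 18) .nil)))) .nil)))))) (.nd (nat_lit 3) (.nd (nat_lit 4) (.nd (nat_lit 5) (.nd (nat_lit 6) 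
(.lf (nat_lit 112647) (.g (nat_lit 2142) (.e (nat_lit 5629) (nat_lit 312) (.e (nat_lit 100) (nat_lit 2) (.e (nat_lit 90185) (nat_lit 17) (.e (nat_lit 237621) (nat_lit 13) (.e (nat_lit 483333) (nat_lit 0) (.e (nat_lit 6988) (nat_lit 377) (.e (nat_lit 7936) (nat_lit 157) .nil))))))) (.g (nat_lit 6) .nil .nil))) 
(.lf (nat_lit 112711) (.g (nat_lit 1434) (.e (nat_lit 5629) (nat_lit 312) (.e (nat_lit 351) (nat_lit 28) (.e (nat_lit 393287) (nat_lit 25) (.e (nat_lit 458789) (nat_lit 23) (.e (nat_lit 532575) (nat_lit 17) (.e (nat_lit 6988) (nat_lit 377) (.e (nat_lit 2404) (nat_lit 157) .nil))))))) (.g (nat_lit 4) .nil .nil)))) (.nd (nat_lit 6) 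
(.lf (nat_lit 112679) (.g (nat_lit 2193) (.e (nat_lit 5629) (nat_lit 312) (.e (nat_lit 216) (nat_lit 19) (.e (nat_lit 319533) (nat_lit 16) (.e (nat_lit 286761) (nat_lit 13) (.e (nat_lit 393264) (nat_lit 22) .nil))))) .nil)) 
(.lf (nat_lit 112743) (.g (nat_lit 1291) (.e (nat_lit 5632) (nat_lit 312) (.e (nat_lit 100) (nat_lit 2) (.e (nat_lit 90185) (nat_lit 17) (.e (nat_lit 237624) (nat_lit 13) (.e (nat_lit 491264) (nat_lit 7) .nil))))) .nil)))) (.nd (nat_lit 5) (.nd (nat_lit 6) 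
(.lf (nat_lit 112663) (.g (nat_lit 1022) (.e (nat_lit 5629) (nat_lit 312) (.e (nat_lit 112) (nat_lit 3) (.e (nat_lit 98380) (nat_lit 31) (.e (nat_lit 466954) (nat_lit 11) (.e (nat_lit 343808) (nat_lit 25) .nil))))) .nil)) 
(.lf (nat_lit 112727) (.g (nat_lit 1289) (.e (nat_lit 5631) (nat_lit 312) (.e (nat_lit 216) (nat_lit 19) (.e (nat_lit 319533) (nat_lit 16) (.e (nat_lit 286760) (nat_lit 13) .nil)))) .nil))) (.nd (nat_lit 6) 
(.lf (nat_lit 112695) (.g (nat_lit 3301) (.e (nat_lit 5629) (nat_lit 312) (.e (nat_lit 351) (nat_lit 28) (.e (nat_lit 393253) (nat_lit 18) (.e (nat_lit 164332) (nat_lit 230) (.e (nat_lit 163874) (nat_lit 3) (.e (nat_lit 204805) (nat_lit 0) (.e (nat_lit 6988) (nat_lit 377) (.e (nat_lit 977) (nat_lit 81) .nil)))))))) (.g (nat_lit 5) .nil .nil))) 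
(.lf (nat_lit 112759) (.g (nat_lit 1220) (.e (nat_lit 5638) (nat_lit 312) (.e (nat_lit 226) (nat_lit 21) (.e (nat_lit 336443) (nat_lit 32) (.e (nat_lit 466981) (nat_lit 23) .nil)))) .nil))))) (.nd (nat_lit 4) (.nd (nat_lit 5) (.nd (nat_lit 6) 
(.lf (nat_lit 112655) (.g (nat_lit 769) (.e (nat_lit 5629) (nat_lit 312) (.e (nat_lit 112) (nat_lit 3) (.e (nat_lit 98363) (nat_lit 26) (.e (nat_lit 426321) (nat_lit 13) (.e (nat_lit 491264) (nat_lit 7) .nil))))) .nil)) 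
(.lf (nat_lit 112719) (.g (nat_lit 2474) (.e (nat_lit 5630) (nat_lit 312) (.e (nat_lit 216) (nat_lit 19) (.e (nat_lit 319533) (nat_lit 16) (.e (nat_lit 286743) (nat_lit 9) (.e (nat_lit 336369) (nat_lit 27) .nil))))) .nil))) (.nd (nat_lit 6) 
(.lf (nat_lit 112687) (.g (nat_lit 517) (.e (nat_lit 5629) (nat_lit 312) (.e (nat_lit 226) (nat_lit 21) (.e (nat_lit 336434) (nat_lit 30) .nil))) .nil)) 
(.lf (nat_lit 112751) (.g (nat_lit 1729) (.e (nat_lit 5634) (nat_lit 312) (.e (nat_lit 351) (nat_lit 28) (.e (nat_lit 393266) (nat_lit 23) (.e (nat_lit 426140) (nat_lit 3) (.e (nat_lit 212736) (nat_lit 7) .nil))))) .nil)))) (.nd (nat_lit 5) (.nd (nat_lit 6) 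
(.lf (nat_lit 112671) (.g (nat_lit 2526) (.e (nat_lit 5629) (nat_lit 312) (.e (nat_lit 216) (nat_lit 19) (.e (nat_lit 319530) (nat_lit 16) (.e (nat_lit 286761) (nat_lit 13) (.e (nat_lit 393265) (nat_lit 22) (.e (nat_lit 425728) (nat_lit 10) .nil)))))) (.g (nat_lit 5) .nil .nil))) 
(.lf (nat_lit 112735) (.g (nat_lit 824) (.e (nat_lit 5631) (nat_lit 312) (.e (nat_lit 351) (nat_lit 28) (.e (nat_lit 393282) (nat_lit 24) (.e (nat_lit 434231) (nat_lit 23) .nil)))) .nil))) (.nd (nat_lit 6) 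
(.lf (nat_lit 112703) (.g (nat_lit 1883) (.e (nat_lit 5629) (nat_lit 312) (.e (nat_lit 351) (nat_lit 28) (.e (nat_lit 393279) (nat_lit 23) (.e (nat_lit 426129) (nat_lit 3) (.e (nat_lit 204805) (nat_lit 0) (.e (nat_lit 6988) (nat_lit 377) (.e (nat_lit 7936) (nat_lit 157) .nil))))))) (.g (nat_lit 6) .nil .nil))) 
(.lf (nat_lit 112767) (.g (nat_lit 2886) (.e (nat_lit 5645) (nat_lit 312) (.e (nat_lit 3062) (nat_lit 190) (.e (nat_lit 475185) (nat_lit 29) (.e (nat_lit 557100) (nat_lit 13) (.e (nat_lit 172113) (nat_lit 10) .nil))))) .nil)))))))))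

noncomputable def tv1522 : DT := (.nd (nat_lit 0) (.nd (nat_lit 1) (.nd (nat_lit 2) (.nd (nat_lit 3) (.nd (nat_lit 4) (.nd (nat_lit 5) (.nd (nat_lit 6) 
(.lf (nat_lit 112768) (.g (nat_lit 2629) (.e (nat_lit 5646) (nat_lit 312) (.e (nat_lit 2887) (nat_lit 184) (.e (nat_lit 426412) (nat_lit 15) (.e (nat_lit 1856) (nat_lit 124) (.e (nat_lit 557101) (nat_lit 13) .nil))))) .nil)) 
(.lf (nat_lit 112832) (.g (nat_lit 1925) (.e (nat_lit 7936) (nat_lit 312) (.e (nat_lit 2668) (nat_lit 167) (.e (nat_lit 196630) (nat_lit 9) (.e (nat_lit 1589) (nat_lit 111) (.e (nat_lit 360467) (nat_lit 3) .nil))))) .nil))) (.nd (nat_lit 6) 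
(.lf (nat_lit 112800) (.g (nat_lit 40) (.e (nat_lit 5664) (nat_lit 312) (.e (nat_lit 3055) (nat_lit 190) (.e (nat_lit 475154) (nat_lit 20) .nil))) .nil)) 
(.lf (nat_lit 112864) (.g (nat_lit 3009) (.e (nat_lit 5749) (nat_lit 314) (.e (nat_lit 24662) (nat_lit 14) (.e (nat_lit 401459) (nat_lit 13) (.e (nat_lit 483374) (nat_lit 22) .nil)))) .nil)))) (.nd (nat_lit 5) (.nd (nat_lit 6) 
(.lf (nat_lit 112784) (.g (nat_lit 1870) (.e (nat_lit 5664) (nat_lit 312) (.e (nat_lit 2679) (nat_lit 168) (.e (nat_lit 204845) (nat_lit 24) (.e (nat_lit 319531) (nat_lit 16) (.e (nat_lit 286735) (nat_lit 3) .nil))))) .nil)) 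
(.lf (nat_lit 112848) (.g (nat_lit 1745) (.e (nat_lit 5743) (nat_lit 313) (.e (nat_lit 8326) (nat_lit 69) (.e (nat_lit 557101) (nat_lit 13) (.e (nat_lit 172097) (nat_lit 9) (.e (nat_lit 426125) (nat_lit 2) .nil))))) .nil))) (.nd (nat_lit 6) 
(.lf (nat_lit 112816) (.g (nat_lit 3371) (.e (nat_lit 5714) (nat_lit 312) (.e (nat_lit 2663) (nat_lit 167) (.e (nat_lit 196666) (nat_lit 13) (.e (nat_lit 65610) (nat_lit 10) (.e (nat_lit 344117) (nat_lit 21) .nil))))) .nil)) 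
(.lf (nat_lit 112880) (.g (nat_lit 1420) (.e (nat_lit 7936) (nat_lit 314) (.e (nat_lit 24617) (nat_lit 7) (.e (nat_lit 319505) (nat_lit 10) (.e (nat_lit 7936) (nat_lit 312) .nil)))) .nil))))) (.nd (nat_lit 4) (.nd (nat_lit 5) (.nd (nat_lit 6) 
(.lf (nat_lit 112776) (.g (nat_lit 1274) (.e (nat_lit 5664) (nat_lit 312) (.e (nat_lit 2661) (nat_lit 167) (.e (nat_lit 196666) (nat_lit 13) (.e (nat_lit 65610) (nat_lit 10) (.e (nat_lit 344129) (nat_lit 26) .nil))))) .nil)) 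
(.lf (nat_lit 112840) (.g (nat_lit 3077) (.e (nat_lit 5740) (nat_lit 313) (.e (nat_lit 8326) (nat_lit 69) (.e (nat_lit 557100) (nat_lit 13) (.e (nat_lit 172106) (nat_lit 10) (.e (nat_lit 434231) (nat_lit 23) (.e (nat_lit 532490) (nat_lit 0) (.e (nat_lit 6114) (nat_lit 332) (.e (nat_lit 970) (nat_lit 81) .nil)))))))) (.g (nat_lit 5) .nil .nil)))) (.nd (nat_lit 6) 
(.lf (nat_lit 112808) (.g (nat_lit 1498) (.e (nat_lit 5664) (nat_lit 312) (.e (nat_lit 3062) (nat_lit 190) (.e (nat_lit 475212) (nat_lit 42) (.e (nat_lit 720947) (nat_lit 24) (.e (nat_lit 106534) (nat_lit 11) .nil))))) .nil)) 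
(.lf (nat_lit 112872) (.g (nat_lit 2235) (.e (nat_lit 5751) (nat_lit 314) (.e (nat_lit 24662) (nat_lit 14) (.e (nat_lit 401459) (nat_lit 13) (.e (nat_lit 483354) (nat_lit 17) .nil)))) .nil)))) (.nd (nat_lit 5) (.nd (nat_lit 6) 
(.lf (nat_lit 112792) (.g (nat_lit 2682) (.e (nat_lit 5664) (nat_lit 312) (.e (nat_lit 2679) (nat_lit 168) (.e (nat_lit 204869) (nat_lit 29) (.e (nat_lit 360474) (nat_lit 8) (.e (nat_lit 557072) (nat_lit 9) (.e (nat_lit 7936) (nat_lit 19) (.e (nat_lit 319491) (nat_lit 0) .nil))))))) (.g (nat_lit 4) .nil .nil))) 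
(.lf (nat_lit 112856) (.g (nat_lit 913) (.e (nat_lit 5748) (nat_lit 314) (.e (nat_lit 24628) (nat_lit 9) (.e (nat_lit 336332) (nat_lit 19) .nil))) .nil))) (.nd (nat_lit 6) 
(.lf (nat_lit 112824) (.g (nat_lit 1096) (.e (nat_lit 7936) (nat_lit 312) (.e (nat_lit 232) (nat_lit 21) (.e (nat_lit 336060) (nat_lit 7) (.e (nat_lit 319504) (nat_lit 10) (.e (nat_lit 7936) (nat_lit 312) .nil))))) .nil)) 
(.lf (nat_lit 112888) (.g (nat_lit 2639) (.e (nat_lit 5756) (nat_lit 315) (.e (nat_lit 163962) (nat_lit 25) (.e (nat_lit 532523) (nat_lit 7) (.e (nat_lit 319530) (nat_lit 16) (.e (nat_lit 286735) (nat_lit 3) .nil))))) .nil)))))) (.nd (nat_lit 3) (.nd (nat_lit 4) (.nd (nat_lit 5) (.nd (nat_lit 6) 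
(.lf (nat_lit 112772) (.g (nat_lit 2663) (.e (nat_lit 5656) (nat_lit 312) (.e (nat_lit 2887) (nat_lit 184) (.e (nat_lit 426412) (nat_lit 15) (.e (nat_lit 1856) (nat_lit 124) (.e (nat_lit 557101) (nat_lit 13) .nil))))) .nil)) 
(.lf (nat_lit 112836) (.g (nat_lit 2341) (.e (nat_lit 7936) (nat_lit 312) (.e (nat_lit 2668) (nat_lit 167) (.e (nat_lit 196666) (nat_lit 13) (.e (nat_lit 65619) (nat_lit 10) .nil)))) .nil))) (.nd (nat_lit 6) 
(.lf (nat_lit 112804) (.g (nat_lit 576) (.e (nat_lit 5664) (nat_lit 312) (.e (nat_lit 3062) (nat_lit 190) (.e (nat_lit 475184) (nat_lit 29) .nil))) .nil)) 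
(.lf (nat_lit 112868) (.g (nat_lit 2556) (.e (nat_lit 5750) (nat_lit 314) (.e (nat_lit 24661) (nat_lit 14) (.e (nat_lit 401459) (nat_lit 13) (.e (nat_lit 483350) (nat_lit 17) .nil)))) .nil)))) (.nd (nat_lit 5) (.nd (nat_lit 6) 
(.lf (nat_lit 112788) (.g (nat_lit 1783) (.e (nat_lit 5664) (nat_lit 312) (.e (nat_lit 2679) (nat_lit 168) (.e (nat_lit 204868) (nat_lit 29) (.e (nat_lit 360473) (nat_lit 8) (.e (nat_lit 557073) (nat_lit 9) .nil))))) .nil)) 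
(.lf (nat_lit 112852) (.g (nat_lit 2712) (.e (nat_lit 7936) (nat_lit 313) (.e (nat_lit 8326) (nat_lit 69) (.e (nat_lit 557098) (nat_lit 13) (.e (nat_lit 172115) (nat_lit 10) (.e (nat_lit 434231) (nat_lit 23) .nil))))) .nil))) (.nd (nat_lit 6) 
(.lf (nat_lit 112820) (.g (nat_lit 94) (.e (nat_lit 5723) (nat_lit 312) (.e (nat_lit 300) (nat_lit 22) (.e (nat_lit 344067) (nat_lit 0) .nil))) .nil)) 
(.lf (nat_lit 112884) (.g (nat_lit 1127) (.e (nat_lit 7936) (nat_lit 314) (.e (nat_lit 24647) (nat_lit 12) (.e (nat_lit 385105) (nat_lit 50) (.e (nat_lit 786467) (nat_lit 27) .nil)))) .nil))))) (.nd (nat_lit 4) (.nd (nat_lit 5) (.nd (nat_lit 6) 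
(.lf (nat_lit 112780) (.g (nat_lit 2067) (.e (nat_lit 5664) (nat_lit 312) (.e (nat_lit 2661) (nat_lit 167) (.e (nat_lit 196666) (nat_lit 13) (.e (nat_lit 65617) (nat_lit 10) (.e (nat_lit 344130) (nat_lit 26) .nil))))) .nil)) 
(.lf (nat_lit 112844) (.g (nat_lit 523) (.e (nat_lit 5740) (nat_lit 313) (.e (nat_lit 8326) (nat_lit 69) (.e (nat_lit 557107) (nat_lit 15) .nil))) .nil))) (.nd (nat_lit 6) 
(.lf (nat_lit 112812) (.g (nat_lit 2886) (.e (nat_lit 5671) (nat_lit 312) (.e (nat_lit 3062) (nat_lit 190) (.e (nat_lit 475185) (nat_lit 29) (.e (nat_lit 557100) (nat_lit 13) (.e (nat_lit 172113) (nat_lit 10) .nil))))) .nil)) 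
(.lf (nat_lit 112876) (.g (nat_lit 2170) (.e (nat_lit 5752) (nat_lit 314) (.e (nat_lit 24662) (nat_lit 14) (.e (nat_lit 401459) (nat_lit 13) (.e (nat_lit 483350) (nat_lit 17) .nil)))) .nil)))) (.nd (nat_lit 5) (.nd (nat_lit 6) 
(.lf (nat_lit 112796) (.g (nat_lit 5282) (.e (nat_lit 5664) (nat_lit 312) (.e (nat_lit 2679) (nat_lit 168) (.e (nat_lit 204869) (nat_lit 29) (.e (nat_lit 360475) (nat_lit 8) (.e (nat_lit 557068) (nat_lit 9) (.e (nat_lit 214) (nat_lit 19) (.e (nat_lit 319490) (nat_lit 0) .nil))))))) (.g (nat_lit 0) .nil .nil))) 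
(.lf (nat_lit 112860) (.g (nat_lit 2280) (.e (nat_lit 5748) (nat_lit 314) (.e (nat_lit 24651) (nat_lit 12) (.e (nat_lit 385094) (nat_lit 49) (.e (nat_lit 778323) (nat_lit 5) (.e (nat_lit 73789) (nat_lit 45) (.e (nat_lit 991) (nat_lit 81) .nil)))))) (.g (nat_lit 4) .nil .nil)))) (.nd (nat_lit 6) 
(.lf (nat_lit 112828) (.g (nat_lit 559) (.e (nat_lit 7936) (nat_lit 312) (.e (nat_lit 2668) (nat_lit 167) (.e (nat_lit 196630) (nat_lit 9) .nil))) .nil)) 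
(.lf (nat_lit 112892) (.g (nat_lit 1758) (.e (nat_lit 5756) (nat_lit 315) (.e (nat_lit 163962) (nat_lit 25) (.e (nat_lit 532550) (nat_lit 12) (.e (nat_lit 360474) (nat_lit 8) (.e (nat_lit 557073) (nat_lit 9) .nil))))) .nil))))))) (.nd (nat_lit 2) (.nd (nat_lit 3) (.nd (nat_lit 4) (.nd (nat_lit 5) (.nd (nat_lit 6) 
(.lf (nat_lit 112770) (.g (nat_lit 2629) (.e (nat_lit 5655) (nat_lit 312) (.e (nat_lit 2887) (nat_lit 184) (.e (nat_lit 426412) (nat_lit 15) (.e (nat_lit 1856) (nat_lit 124) (.e (nat_lit 557101) (nat_lit 13) .nil))))) .nil)) 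
(.lf (nat_lit 112834) (.g (nat_lit 601) (.e (nat_lit 7936) (nat_lit 312) (.e (nat_lit 2668) (nat_lit 167) (.e (nat_lit 196637) (nat_lit 9) (.e (nat_lit 1425) (nat_lit 108) .nil)))) .nil))) (.nd (nat_lit 6) 
(.lf (nat_lit 112802) (.g (nat_lit 805) (.e (nat_lit 5664) (nat_lit 312) (.e (nat_lit 3062) (nat_lit 190) (.e (nat_lit 475183) (nat_lit 29) .nil))) .nil)) 
(.lf (nat_lit 112866) (.g (nat_lit 1376) (.e (nat_lit 5749) (nat_lit 314) (.e (nat_lit 24665) (nat_lit 14) (.e (nat_lit 401444) (nat_lit 9) .nil))) .nil)))) (.nd (nat_lit 5) (.nd (nat_lit 6) 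
(.lf (nat_lit 112786) (.g (nat_lit 1785) (.e (nat_lit 5664) (nat_lit 312) (.e (nat_lit 2679) (nat_lit 168) (.e (nat_lit 204868) (nat_lit 29) (.e (nat_lit 360473) (nat_lit 8) (.e (nat_lit 557068) (nat_lit 9) (.e (nat_lit 7936) (nat_lit 19) (.e (nat_lit 319491) (nat_lit 0) .nil))))))) (.g (nat_lit 4) .nil .nil))) 
(.lf (nat_lit 112850) (.g (nat_lit 1414) (.e (nat_lit 5743) (nat_lit 313) (.e (nat_lit 8541) (nat_lit 226) (.e (nat_lit 57891) (nat_lit 270) (.e (nat_lit 1661) (nat_lit 115) (.e (nat_lit 393260) (nat_lit 21) .nil))))) .nil))) (.nd (nat_lit 6) 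
(.lf (nat_lit 112818) (.g (nat_lit 2959) (.e (nat_lit 5718) (nat_lit 312) (.e (nat_lit 257) (nat_lit 21) (.e (nat_lit 336228) (nat_lit 14) (.e (nat_lit 401459) (nat_lit 13) (.e (nat_lit 483372) (nat_lit 21) (.e (nat_lit 327424) (nat_lit 10) .nil)))))) (.g (nat_lit 5) .nil .nil))) 
(.lf (nat_lit 112882) (.g (nat_lit 1454) (.e (nat_lit 7936) (nat_lit 314) (.e (nat_lit 24617) (nat_lit 7) (.e (nat_lit 319537) (nat_lit 19) (.e (nat_lit 311352) (nat_lit 27) .nil)))) .nil))))) (.nd (nat_lit 4) (.nd (nat_lit 5) (.nd (nat_lit 6) 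
(.lf (nat_lit 112778) (.g (nat_lit 5254) (.e (nat_lit 5664) (nat_lit 312) (.e (nat_lit 2661) (nat_lit 167) (.e (nat_lit 196666) (nat_lit 13) (.e (nat_lit 65610) (nat_lit 10) (.e (nat_lit 344129) (nat_lit 26) (.e (nat_lit 557067) (nat_lit 9) (.e (nat_lit 214) (nat_lit 19) (.e (nat_lit 319491) (nat_lit 0) .nil)))))))) (.g (nat_lit 0) .nil .nil))) 
(.lf (nat_lit 112842) (.g (nat_lit 1844) (.e (nat_lit 5740) (nat_lit 313) (.e (nat_lit 8326) (nat_lit 69) (.e (nat_lit 557101) (nat_lit 13) (.e (nat_lit 172097) (nat_lit 9) (.e (nat_lit 426125) (nat_lit 2) (.e (nat_lit 196661) (nat_lit 12) (.e (nat_lit 57712) (nat_lit 176) (.e (nat_lit 1055) (nat_lit 81) .nil)))))))) (.g (nat_lit 4) .nil .nil)))) (.nd (nat_lit 6) 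
(.lf (nat_lit 112810) (.g (nat_lit 646) (.e (nat_lit 5667) (nat_lit 312) (.e (nat_lit 2679) (nat_lit 168) (.e (nat_lit 204865) (nat_lit 28) (.e (nat_lit 352315) (nat_lit 23) .nil)))) .nil)) 
(.lf (nat_lit 112874) (.g (nat_lit 619) (.e (nat_lit 5752) (nat_lit 314) (.e (nat_lit 24648) (nat_lit 12) (.e (nat_lit 385096) (nat_lit 49) .nil))) .nil)))) (.nd (nat_lit 5) (.nd (nat_lit 6) 
(.lf (nat_lit 112794) (.g (nat_lit 2436) (.e (nat_lit 5664) (nat_lit 312) (.e (nat_lit 2679) (nat_lit 168) (.e (nat_lit 204869) (nat_lit 29) (.e (nat_lit 360474) (nat_lit 8) (.e (nat_lit 557073) (nat_lit 9) (.e (nat_lit 7936) (nat_lit 19) (.e (nat_lit 319491) (nat_lit 0) .nil))))))) (.g (nat_lit 4) .nil .nil))) 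
(.lf (nat_lit 112858) (.g (nat_lit 1312) (.e (nat_lit 5748) (nat_lit 314) (.e (nat_lit 24648) (nat_lit 12) (.e (nat_lit 385094) (nat_lit 49) (.e (nat_lit 778323) (nat_lit 5) .nil)))) .nil))) (.nd (nat_lit 6) 
(.lf (nat_lit 112826) (.g (nat_lit 558) (.e (nat_lit 7936) (nat_lit 312) (.e (nat_lit 2668) (nat_lit 167) (.e (nat_lit 196617) (nat_lit 9) .nil))) .nil)) 
(.lf (nat_lit 112890) (.g (nat_lit 3002) (.e (nat_lit 5756) (nat_lit 315) (.e (nat_lit 163962) (nat_lit 25) (.e (nat_lit 532535) (nat_lit 9) (.e (nat_lit 336099) (nat_lit 9) (.e (nat_lit 336013) (nat_lit 2) (.e (nat_lit 98048) (nat_lit 18) (.e (nat_lit 1343) (nat_lit 101) (.e (nat_lit 278532) (nat_lit 0) .nil)))))))) (.g (nat_lit 4) .nil .nil))))))) 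
(.nd (nat_lit 3) (.nd (nat_lit 4) (.nd (nat_lit 5) (.nd (nat_lit 6) 
(.lf (nat_lit 112774) (.g (nat_lit 1877) (.e (nat_lit 5664) (nat_lit 312) (.e (nat_lit 2605) (nat_lit 163) (.e (nat_lit 164179) (nat_lit 154) (.e (nat_lit 57437) (nat_lit 17) (.e (nat_lit 376838) (nat_lit 11) .nil))))) .nil)) 
(.lf (nat_lit 112838) (.g (nat_lit 1308) (.e (nat_lit 5740) (nat_lit 313) (.e (nat_lit 8325) (nat_lit 69) (.e (nat_lit 557109) (nat_lit 15) (.e (nat_lit 188452) (nat_lit 23) .nil)))) .nil))) (.nd (nat_lit 6) 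
(.lf (nat_lit 112806) (.g (nat_lit 1035) (.e (nat_lit 5664) (nat_lit 312) (.e (nat_lit 3062) (nat_lit 190) (.e (nat_lit 475193) (nat_lit 38) (.e (nat_lit 688180) (nat_lit 17) .nil)))) .nil)) 
(.lf (nat_lit 112870) (.g (nat_lit 2939) (.e (nat_lit 5751) (nat_lit 314) (.e (nat_lit 24662) (nat_lit 14) (.e (nat_lit 401459) (nat_lit 13) (.e (nat_lit 483350) (nat_lit 17) (.e (nat_lit 6113) (nat_lit 332) .nil))))) .nil)))) (.nd (nat_lit 5) (.nd (nat_lit 6) 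
(.lf (nat_lit 112790) (.g (nat_lit 3644) (.e (nat_lit 5664) (nat_lit 312) (.e (nat_lit 2679) (nat_lit 168) (.e (nat_lit 204868) (nat_lit 29) (.e (nat_lit 360475) (nat_lit 8) (.e (nat_lit 557068) (nat_lit 9) (.e (nat_lit 214) (nat_lit 19) (.e (nat_lit 319491) (nat_lit 0) .nil))))))) (.g (nat_lit 5) .nil .nil))) 
(.lf (nat_lit 112854) (.g (nat_lit 708) (.e (nat_lit 5747) (nat_lit 314) (.e (nat_lit 24662) (nat_lit 14) (.e (nat_lit 401459) (nat_lit 13) .nil))) .nil))) (.nd (nat_lit 6) 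
(.lf (nat_lit 112822) (.g (nat_lit 3370) (.e (nat_lit 5738) (nat_lit 312) (.e (nat_lit 2663) (nat_lit 167) (.e (nat_lit 196666) (nat_lit 13) (.e (nat_lit 65610) (nat_lit 10) (.e (nat_lit 344117) (nat_lit 21) .nil))))) .nil)) 
(.lf (nat_lit 112886) (.g (nat_lit 1310) (.e (nat_lit 7936) (nat_lit 314) (.e (nat_lit 24662) (nat_lit 14) (.e (nat_lit 401459) (nat_lit 13) (.e (nat_lit 483343) (nat_lit 17) .nil)))) .nil))))) (.nd (nat_lit 4) (.nd (nat_lit 5) (.nd (nat_lit 6) 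
(.lf (nat_lit 112782) (.g (nat_lit 2051) (.e (nat_lit 5664) (nat_lit 312) (.e (nat_lit 2661) (nat_lit 167) (.e (nat_lit 196666) (nat_lit 13) (.e (nat_lit 65617) (nat_lit 10) (.e (nat_lit 344132) (nat_lit 26) .nil))))) .nil)) 
(.lf (nat_lit 112846) (.g (nat_lit 1758) (.e (nat_lit 5741) (nat_lit 313) (.e (nat_lit 8326) (nat_lit 69) (.e (nat_lit 557101) (nat_lit 13) (.e (nat_lit 172097) (nat_lit 9) (.e (nat_lit 426125) (nat_lit 2) .nil))))) .nil))) (.nd (nat_lit 6) 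
(.lf (nat_lit 112814) (.g (nat_lit 3326) (.e (nat_lit 5710) (nat_lit 312) (.e (nat_lit 2663) (nat_lit 167) (.e (nat_lit 196666) (nat_lit 13) (.e (nat_lit 65610) (nat_lit 10) (.e (nat_lit 344117) (nat_lit 21) .nil))))) .nil)) 
(.lf (nat_lit 112878) (.g (nat_lit 3822) (.e (nat_lit 5752) (nat_lit 314) (.e (nat_lit 24662) (nat_lit 14) (.e (nat_lit 401459) (nat_lit 13) (.e (nat_lit 483375) (nat_lit 22) (.e (nat_lit 335616) (nat_lit 10) .nil))))) .nil)))) (.nd (nat_lit 5) (.nd (nat_lit 6) 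
(.lf (nat_lit 112798) (.g (nat_lit 454) (.e (nat_lit 5664) (nat_lit 312) (.e (nat_lit 2887) (nat_lit 184) (.e (nat_lit 426412) (nat_lit 15) .nil))) .nil)) 
(.lf (nat_lit 112862) (.g (nat_lit 2272) (.e (nat_lit 5748) (nat_lit 314) (.e (nat_lit 24653) (nat_lit 12) (.e (nat_lit 385093) (nat_lit 49) (.e (nat_lit 778323) (nat_lit 5) (.e (nat_lit 73789) (nat_lit 45) (.e (nat_lit 991) (nat_lit 81) .nil)))))) (.g (nat_lit 6) .nil .nil)))) (.nd (nat_lit 6) 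
(.lf (nat_lit 112830) (.g (nat_lit 1388) (.e (nat_lit 7936) (nat_lit 312) (.e (nat_lit 2668) (nat_lit 167) (.e (nat_lit 196630) (nat_lit 9) (.e (nat_lit 1573) (nat_lit 110) (.e (nat_lit 352294) (nat_lit 20) .nil))))) .nil)) 
(.lf (nat_lit 112894) (.g (nat_lit 457) (.e (nat_lit 5756) (nat_lit 315) (.e (nat_lit 164017) (nat_lit 44) (.e (nat_lit 688176) (nat_lit 16) .nil))) .nil)))))))) (.nd (nat_lit 1) (.nd (nat_lit 2) (.nd (nat_lit 3) (.nd (nat_lit 4) (.nd (nat_lit 5) (.nd (nat_lit 6) 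
(.lf (nat_lit 112769) (.g (nat_lit 2886) (.e (nat_lit 5646) (nat_lit 312) (.e (nat_lit 3062) (nat_lit 190) (.e (nat_lit 475185) (nat_lit 29) (.e (nat_lit 557100) (nat_lit 13) (.e (nat_lit 172113) (nat_lit 10) .nil))))) .nil)) 
(.lf (nat_lit 112833) (.g (nat_lit 1338) (.e (nat_lit 7936) (nat_lit 312) (.e (nat_lit 2668) (nat_lit 167) (.e (nat_lit 196630) (nat_lit 9) (.e (nat_lit 1590) (nat_lit 111) .nil)))) .nil))) (.nd (nat_lit 6) 
(.lf (nat_lit 112801) (.g (nat_lit 1783) (.e (nat_lit 5664) (nat_lit 312) (.e (nat_lit 3055) (nat_lit 190) (.e (nat_lit 475214) (nat_lit 42) (.e (nat_lit 720949) (nat_lit 24) (.e (nat_lit 106534) (nat_lit 11) .nil))))) .nil)) 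
(.lf (nat_lit 112865) (.g (nat_lit 2991) (.e (nat_lit 5749) (nat_lit 314) (.e (nat_lit 24662) (nat_lit 14) (.e (nat_lit 401459) (nat_lit 13) (.e (nat_lit 483375) (nat_lit 22) .nil)))) .nil)))) (.nd (nat_lit 5) (.nd (nat_lit 6) 
(.lf (nat_lit 112785) (.g (nat_lit 3971) (.e (nat_lit 5664) (nat_lit 312) (.e (nat_lit 2679) (nat_lit 168) (.e (nat_lit 204868) (nat_lit 29) (.e (nat_lit 360473) (nat_lit 8) (.e (nat_lit 557068) (nat_lit 9) (.e (nat_lit 214) (nat_lit 19) (.e (nat_lit 319490) (nat_lit 0) .nil))))))) (.g (nat_lit 0) .nil .nil))) 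
(.lf (nat_lit 112849) (.g (nat_lit 522) (.e (nat_lit 5743) (nat_lit 313) (.e (nat_lit 8326) (nat_lit 69) (.e (nat_lit 557107) (nat_lit 15) .nil))) .nil))) (.nd (nat_lit 6) 
(.lf (nat_lit 112817) (.g (nat_lit 2392) (.e (nat_lit 5714) (nat_lit 312) (.e (nat_lit 2682) (nat_lit 168) (.e (nat_lit 204846) (nat_lit 24) (.e (nat_lit 319538) (nat_lit 19) (.e (nat_lit 311312) (nat_lit 2) .nil))))) .nil)) 
(.lf (nat_lit 112881) (.g (nat_lit 1449) (.e (nat_lit 7936) (nat_lit 314) (.e (nat_lit 24617) (nat_lit 7) (.e (nat_lit 319511) (nat_lit 10) (.e (nat_lit 5612) (nat_lit 312) (.e (nat_lit 232) (nat_lit 21) .nil))))) .nil))))) (.nd (nat_lit 4) (.nd (nat_lit 5) (.nd (nat_lit 6) 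
(.lf (nat_lit 112777) (.g (nat_lit 5689) (.e (nat_lit 5664) (nat_lit 312) (.e (nat_lit 2661) (nat_lit 167) (.e (nat_lit 196666) (nat_lit 13) (.e (nat_lit 65610) (nat_lit 10) (.e (nat_lit 344129) (nat_lit 26) (.e (nat_lit 557067) (nat_lit 9) (.e (nat_lit 214) (nat_lit 19) (.e (nat_lit 319490) (nat_lit 0) .nil)))))))) (.g (nat_lit 0) .nil .nil))) 
(.lf (nat_lit 112841) (.g (nat_lit 1775) (.e (nat_lit 5740) (nat_lit 313) (.e (nat_lit 8326) (nat_lit 69) (.e (nat_lit 557101) (nat_lit 13) (.e (nat_lit 172097) (nat_lit 9) (.e (nat_lit 426125) (nat_lit 2) .nil))))) .nil))) (.nd (nat_lit 6) 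
(.lf (nat_lit 112809) (.g (nat_lit 1291) (.e (nat_lit 5664) (nat_lit 312) (.e (nat_lit 3062) (nat_lit 190) (.e (nat_lit 475212) (nat_lit 42) (.e (nat_lit 720948) (nat_lit 24) (.e (nat_lit 106534) (nat_lit 11) .nil))))) .nil)) 
(.lf (nat_lit 112873) (.g (nat_lit 796) (.e (nat_lit 5752) (nat_lit 314) (.e (nat_lit 24584) (nat_lit 0) (.e (nat_lit 6113) (nat_lit 332) .nil))) .nil)))) (.nd (nat_lit 5) (.nd (nat_lit 6) 
(.lf (nat_lit 112793) (.g (nat_lit 4352) (.e (nat_lit 5664) (nat_lit 312) (.e (nat_lit 2679) (nat_lit 168) (.e (nat_lit 204869) (nat_lit 29) (.e (nat_lit 360474) (nat_lit 8) (.e (nat_lit 557073) (nat_lit 9) (.e (nat_lit 214) (nat_lit 19) (.e (nat_lit 319490) (nat_lit 0) .nil))))))) (.g (nat_lit 0) .nil .nil))) 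
(.lf (nat_lit 112857) (.g (nat_lit 286) (.e (nat_lit 5748) (nat_lit 314) (.e (nat_lit 24636) (nat_lit 9) (.e (nat_lit 336331) (nat_lit 19) .nil))) .nil))) (.nd (nat_lit 6) 
(.lf (nat_lit 112825) (.g (nat_lit 1274) (.e (nat_lit 7936) (nat_lit 312) (.e (nat_lit 232) (nat_lit 21) (.e (nat_lit 336060) (nat_lit 7) (.e (nat_lit 319505) (nat_lit 10) (.e (nat_lit 7936) (nat_lit 312) .nil))))) .nil)) 
(.lf (nat_lit 112889) (.g (nat_lit 2935) (.e (nat_lit 5756) (nat_lit 315) (.e (nat_lit 163962) (nat_lit 25) (.e (nat_lit 532535) (nat_lit 9) (.e (nat_lit 336099) (nat_lit 9) (.e (nat_lit 336013) (nat_lit 2) .nil))))) .nil)))))) (.nd (nat_lit 3) (.nd (nat_lit 4) (.nd (nat_lit 5) (.nd (nat_lit 6) 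
(.lf (nat_lit 112773) (.g (nat_lit 1755) (.e (nat_lit 5664) (nat_lit 312) (.e (nat_lit 2605) (nat_lit 163) (.e (nat_lit 164179) (nat_lit 154) (.e (nat_lit 57436) (nat_lit 17) (.e (nat_lit 376838) (nat_lit 11) .nil))))) .nil)) 
(.lf (nat_lit 112837) (.g (nat_lit 1238) (.e (nat_lit 7936) (nat_lit 312) (.e (nat_lit 2685) (nat_lit 168) (.e (nat_lit 204868) (nat_lit 29) (.e (nat_lit 360466) (nat_lit 3) (.e (nat_lit 516138) (nat_lit 7) .nil))))) .nil))) (.nd (nat_lit 6) 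
(.lf (nat_lit 112805) (.g (nat_lit 593) (.e (nat_lit 5664) (nat_lit 312) (.e (nat_lit 3062) (nat_lit 190) (.e (nat_lit 475193) (nat_lit 38) .nil))) .nil)) 
(.lf (nat_lit 112869) (.g (nat_lit 1352) (.e (nat_lit 5750) (nat_lit 314) (.e (nat_lit 24665) (nat_lit 14) (.e (nat_lit 401435) (nat_lit 9) .nil))) .nil)))) (.nd (nat_lit 5) (.nd (nat_lit 6) 
(.lf (nat_lit 112789) (.g (nat_lit 3823) (.e (nat_lit 5664) (nat_lit 312) (.e (nat_lit 2679) (nat_lit 168) (.e (nat_lit 204868) (nat_lit 29) (.e (nat_lit 360473) (nat_lit 8) (.e (nat_lit 557073) (nat_lit 9) (.e (nat_lit 214) (nat_lit 19) (.e (nat_lit 319490) (nat_lit 0) .nil))))))) (.g (nat_lit 0) .nil .nil))) 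
(.lf (nat_lit 112853) (.g (nat_lit 796) (.e (nat_lit 5747) (nat_lit 314) (.e (nat_lit 24584) (nat_lit 0) (.e (nat_lit 6113) (nat_lit 332) .nil))) .nil))) (.nd (nat_lit 6) 
(.lf (nat_lit 112821) (.g (nat_lit 3371) (.e (nat_lit 5734) (nat_lit 312) (.e (nat_lit 2663) (nat_lit 167) (.e (nat_lit 196666) (nat_lit 13) (.e (nat_lit 65610) (nat_lit 10) (.e (nat_lit 344117) (nat_lit 21) .nil))))) .nil)) 
(.lf (nat_lit 112885) (.g (nat_lit 1038) (.e (nat_lit 7936) (nat_lit 314) (.e (nat_lit 24651) (nat_lit 12) (.e (nat_lit 385096) (nat_lit 49) (.e (nat_lit 778273) (nat_lit 0) .nil)))) .nil))))) (.nd (nat_lit 4) (.nd (nat_lit 5) (.nd (nat_lit 6) 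
(.lf (nat_lit 112781) (.g (nat_lit 2149) (.e (nat_lit 5664) (nat_lit 312) (.e (nat_lit 2661) (nat_lit 167) (.e (nat_lit 196666) (nat_lit 13) (.e (nat_lit 65617) (nat_lit 10) (.e (nat_lit 344130) (nat_lit 26) (.e (nat_lit 557065) (nat_lit 9) (.e (nat_lit 214) (nat_lit 19) (.e (nat_lit 319491) (nat_lit 0) .nil)))))))) (.g (nat_lit 4) .nil .nil))) 
(.lf (nat_lit 112845) (.g (nat_lit 430) (.e (nat_lit 5740) (nat_lit 313) (.e (nat_lit 8326) (nat_lit 69) (.e (nat_lit 557109) (nat_lit 15) .nil))) .nil))) (.nd (nat_lit 6) 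
(.lf (nat_lit 112813) (.g (nat_lit 3094) (.e (nat_lit 5679) (nat_lit 312) (.e (nat_lit 60) (nat_lit 0) (.e (nat_lit 6114) (nat_lit 332) (.e (nat_lit 1370) (nat_lit 103) (.e (nat_lit 294960) (nat_lit 13) .nil))))) .nil)) 
(.lf (nat_lit 112877) (.g (nat_lit 2765) (.e (nat_lit 5752) (nat_lit 314) (.e (nat_lit 24662) (nat_lit 14) (.e (nat_lit 401459) (nat_lit 13) (.e (nat_lit 483374) (nat_lit 22) .nil)))) .nil)))) (.nd (nat_lit 5) (.nd (nat_lit 6) 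
(.lf (nat_lit 112797) (.g (nat_lit 1467) (.e (nat_lit 5664) (nat_lit 312) (.e (nat_lit 2852) (nat_lit 184) (.e (nat_lit 426535) (nat_lit 28) (.e (nat_lit 344081) (nat_lit 13) (.e (nat_lit 1386) (nat_lit 105) (.e (nat_lit 319232) (nat_lit 25) (.e (nat_lit 319491) (nat_lit 0) .nil))))))) (.g (nat_lit 5) .nil .nil))) 
(.lf (nat_lit 112861) (.g (nat_lit 2154) (.e (nat_lit 5748) (nat_lit 314) (.e (nat_lit 24651) (nat_lit 12) (.e (nat_lit 385094) (nat_lit 49) (.e (nat_lit 778324) (nat_lit 5) (.e (nat_lit 73791) (nat_lit 45) (.e (nat_lit 991) (nat_lit 81) .nil)))))) (.g (nat_lit 4) .nil .nil)))) (.nd (nat_lit 6) 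
(.lf (nat_lit 112829) (.g (nat_lit 1216) (.e (nat_lit 7936) (nat_lit 312) (.e (nat_lit 2668) (nat_lit 167) (.e (nat_lit 196630) (nat_lit 9) (.e (nat_lit 1573) (nat_lit 110) .nil)))) .nil)) 
(.lf (nat_lit 112893) (.g (nat_lit 2660) (.e (nat_lit 5756) (nat_lit 315) (.e (nat_lit 163962) (nat_lit 25) (.e (nat_lit 532550) (nat_lit 12) (.e (nat_lit 360475) (nat_lit 8) (.e (nat_lit 557073) (nat_lit 9) (.e (nat_lit 214) (nat_lit 19) (.e (nat_lit 319490) (nat_lit 0) .nil))))))) (.g (nat_lit 4) .nil .nil)))))))) 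
(.nd (nat_lit 2) (.nd (nat_lit 3) (.nd (nat_lit 4) (.nd (nat_lit 5) (.nd (nat_lit 6) 
(.lf (nat_lit 112771) (.g (nat_lit 1754) (.e (nat_lit 5656) (nat_lit 312) (.e (nat_lit 2654) (nat_lit 167) (.e (nat_lit 196672) (nat_lit 15) (.e (nat_lit 81954) (nat_lit 23) (.e (nat_lit 98349) (nat_lit 24) .nil))))) .nil)) 
(.lf (nat_lit 112835) (.g (nat_lit 2038) (.e (nat_lit 7936) (nat_lit 312) (.e (nat_lit 2668) (nat_lit 167) (.e (nat_lit 196666) (nat_lit 13) (.e (nat_lit 65610) (nat_lit 10) (.e (nat_lit 344117) (nat_lit 21) .nil))))) .nil))) (.nd (nat_lit 6) 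
(.lf (nat_lit 112803) (.g (nat_lit 2574) (.e (nat_lit 5664) (nat_lit 312) (.e (nat_lit 3062) (nat_lit 190) (.e (nat_lit 475183) (nat_lit 29) (.e (nat_lit 557108) (nat_lit 15) (.e (nat_lit 188449) (nat_lit 22) .nil))))) .nil)) 
(.lf (nat_lit 112867) (.g (nat_lit 527) (.e (nat_lit 5750) (nat_lit 314) (.e (nat_lit 24580) (nat_lit 0) (.e (nat_lit 1944) (nat_lit 132) .nil))) .nil)))) (.nd (nat_lit 5) (.nd (nat_lit 6) 
(.lf (nat_lit 112787) (.g (nat_lit 1800) (.e (nat_lit 5664) (nat_lit 312) (.e (nat_lit 2679) (nat_lit 168) (.e (nat_lit 204868) (nat_lit 29) (.e (nat_lit 360473) (nat_lit 8) (.e (nat_lit 557072) (nat_lit 9) .nil))))) .nil)) 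
(.lf (nat_lit 112851) (.g (nat_lit 1820) (.e (nat_lit 5746) (nat_lit 313) (.e (nat_lit 8326) (nat_lit 69) (.e (nat_lit 557101) (nat_lit 13) (.e (nat_lit 172115) (nat_lit 10) (.e (nat_lit 434231) (nat_lit 23) .nil))))) .nil))) (.nd (nat_lit 6) 
(.lf (nat_lit 112819) (.g (nat_lit 4769) (.e (nat_lit 5722) (nat_lit 312) (.e (nat_lit 60) (nat_lit 0) (.e (nat_lit 1858) (nat_lit 124) (.e (nat_lit 557109) (nat_lit 15) (.e (nat_lit 188452) (nat_lit 23) (.e (nat_lit 204849) (nat_lit 25) (.e (nat_lit 327705) (nat_lit 10) .nil))))))) (.g (nat_lit 7) .nil .nil))) 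
(.lf (nat_lit 112883) (.g (nat_lit 1833) (.e (nat_lit 7936) (nat_lit 314) (.e (nat_lit 24617) (nat_lit 7) (.e (nat_lit 319538) (nat_lit 19) (.e (nat_lit 311352) (nat_lit 27) (.e (nat_lit 336059) (nat_lit 7) .nil))))) .nil))))) (.nd (nat_lit 4) (.nd (nat_lit 5) (.nd (nat_lit 6) 
(.lf (nat_lit 112779) (.g (nat_lit 2678) (.e (nat_lit 5664) (nat_lit 312) (.e (nat_lit 2661) (nat_lit 167) (.e (nat_lit 196666) (nat_lit 13) (.e (nat_lit 65610) (nat_lit 10) (.e (nat_lit 344129) (nat_lit 26) (.e (nat_lit 557067) (nat_lit 9) (.e (nat_lit 7936) (nat_lit 19) (.e (nat_lit 319491) (nat_lit 0) .nil)))))))) (.g (nat_lit 5) .nil .nil))) 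
(.lf (nat_lit 112843) (.g (nat_lit 1778) (.e (nat_lit 5740) (nat_lit 313) (.e (nat_lit 8326) (nat_lit 69) (.e (nat_lit 557101) (nat_lit 13) (.e (nat_lit 172097) (nat_lit 9) (.e (nat_lit 426140) (nat_lit 3) (.e (nat_lit 204821) (nat_lit 17) (.e (nat_lit 6114) (nat_lit 332) (.e (nat_lit 968) (nat_lit 81) .nil)))))))) (.g (nat_lit 4) .nil .nil)))) (.nd (nat_lit 6) 
(.lf (nat_lit 112811) (.g (nat_lit 2629) (.e (nat_lit 5671) (nat_lit 312) (.e (nat_lit 2887) (nat_lit 184) (.e (nat_lit 426412) (nat_lit 15) (.e (nat_lit 1856) (nat_lit 124) (.e (nat_lit 557101) (nat_lit 13) .nil))))) .nil)) 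
(.lf (nat_lit 112875) (.g (nat_lit 630) (.e (nat_lit 5752) (nat_lit 314) (.e (nat_lit 24662) (nat_lit 14) (.e (nat_lit 401459) (nat_lit 13) .nil))) .nil)))) (.nd (nat_lit 5) (.nd (nat_lit 6) 
(.lf (nat_lit 112795) (.g (nat_lit 3425) (.e (nat_lit 5664) (nat_lit 312) (.e (nat_lit 2679) (nat_lit 168) (.e (nat_lit 204869) (nat_lit 29) (.e (nat_lit 360475) (nat_lit 8) (.e (nat_lit 557065) (nat_lit 9) (.e (nat_lit 214) (nat_lit 19) (.e (nat_lit 319491) (nat_lit 0) .nil))))))) (.g (nat_lit 4) .nil .nil))) 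
(.lf (nat_lit 112859) (.g (nat_lit 639) (.e (nat_lit 5748) (nat_lit 314) (.e (nat_lit 24651) (nat_lit 12) (.e (nat_lit 385093) (nat_lit 49) .nil))) .nil))) (.nd (nat_lit 6) 
(.lf (nat_lit 112827) (.g (nat_lit 1853) (.e (nat_lit 7936) (nat_lit 312) (.e (nat_lit 2668) (nat_lit 167) (.e (nat_lit 196624) (nat_lit 9) (.e (nat_lit 1615) (nat_lit 113) (.e (nat_lit 376868) (nat_lit 23) .nil))))) .nil)) 
(.lf (nat_lit 112891) (.g (nat_lit 1441) (.e (nat_lit 5756) (nat_lit 315) (.e (nat_lit 163962) (nat_lit 25) (.e (nat_lit 532549) (nat_lit 12) (.e (nat_lit 360473) (nat_lit 8) (.e (nat_lit 557068) (nat_lit 9) .nil))))) .nil)))))) (.nd (nat_lit 3) (.nd (nat_lit 4) (.nd (nat_lit 5) (.nd (nat_lit 6) 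
(.lf (nat_lit 112775) (.g (nat_lit 938) (.e (nat_lit 5664) (nat_lit 312) (.e (nat_lit 2661) (nat_lit 167) (.e (nat_lit 196624) (nat_lit 9) (.e (nat_lit 1577) (nat_lit 110) .nil)))) .nil)) 
(.lf (nat_lit 112839) (.g (nat_lit 2955) (.e (nat_lit 5740) (nat_lit 313) (.e (nat_lit 8326) (nat_lit 69) (.e (nat_lit 557098) (nat_lit 13) (.e (nat_lit 172115) (nat_lit 10) (.e (nat_lit 434231) (nat_lit 23) .nil))))) .nil))) (.nd (nat_lit 6) 
(.lf (nat_lit 112807) (.g (nat_lit 1798) (.e (nat_lit 5664) (nat_lit 312) (.e (nat_lit 3062) (nat_lit 190) (.e (nat_lit 475193) (nat_lit 38) (.e (nat_lit 688180) (nat_lit 17) (.e (nat_lit 73789) (nat_lit 45) (.e (nat_lit 1342) (nat_lit 101) (.e (nat_lit 286464) (nat_lit 0) .nil))))))) (.g (nat_lit 5) .nil .nil))) 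
(.lf (nat_lit 112871) (.g (nat_lit 2991) (.e (nat_lit 5751) (nat_lit 314) (.e (nat_lit 24662) (nat_lit 14) (.e (nat_lit 401459) (nat_lit 13) (.e (nat_lit 483350) (nat_lit 17) (.e (nat_lit 6113) (nat_lit 332) (.e (nat_lit 968) (nat_lit 81) .nil)))))) (.g (nat_lit 4) .nil .nil))))) (.nd (nat_lit 5) (.nd (nat_lit 6) 
(.lf (nat_lit 112791) (.g (nat_lit 3315) (.e (nat_lit 5664) (nat_lit 312) (.e (nat_lit 2679) (nat_lit 168) (.e (nat_lit 204869) (nat_lit 29) (.e (nat_lit 360474) (nat_lit 8) (.e (nat_lit 557064) (nat_lit 9) (.e (nat_lit 214) (nat_lit 19) (.e (nat_lit 319491) (nat_lit 0) .nil))))))) (.g (nat_lit 4) .nil .nil))) 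
(.lf (nat_lit 112855) (.g (nat_lit 886) (.e (nat_lit 5748) (nat_lit 314) (.e (nat_lit 24625) (nat_lit 9) (.e (nat_lit 336332) (nat_lit 19) .nil))) .nil))) (.nd (nat_lit 6) 
(.lf (nat_lit 112823) (.g (nat_lit 1414) (.e (nat_lit 7936) (nat_lit 312) (.e (nat_lit 62) (nat_lit 0) (.e (nat_lit 1848) (nat_lit 124) (.e (nat_lit 557108) (nat_lit 15) (.e (nat_lit 188452) (nat_lit 23) .nil))))) .nil)) 
(.lf (nat_lit 112887) (.g (nat_lit 471) (.e (nat_lit 5756) (nat_lit 315) (.e (nat_lit 163850) (nat_lit 0) (.e (nat_lit 6387) (nat_lit 338) .nil))) .nil))))) (.nd (nat_lit 4) (.nd (nat_lit 5) (.nd (nat_lit 6) 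
(.lf (nat_lit 112783) (.g (nat_lit 3234) (.e (nat_lit 5664) (nat_lit 312) (.e (nat_lit 2661) (nat_lit 167) (.e (nat_lit 196666) (nat_lit 13) (.e (nat_lit 65617) (nat_lit 10) (.e (nat_lit 344132) (nat_lit 26) (.e (nat_lit 557073) (nat_lit 9) (.e (nat_lit 214) (nat_lit 19) (.e (nat_lit 319491) (nat_lit 0) .nil)))))))) (.g (nat_lit 5) .nil .nil))) 
(.lf (nat_lit 112847) (.g (nat_lit 522) (.e (nat_lit 5741) (nat_lit 313) (.e (nat_lit 8326) (nat_lit 69) (.e (nat_lit 557107) (nat_lit 15) .nil))) .nil))) (.nd (nat_lit 6) 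
(.lf (nat_lit 112815) (.g (nat_lit 1700) (.e (nat_lit 5710) (nat_lit 312) (.e (nat_lit 2664) (nat_lit 167) (.e (nat_lit 196672) (nat_lit 15) (.e (nat_lit 81954) (nat_lit 23) (.e (nat_lit 98325) (nat_lit 17) .nil))))) .nil)) 
(.lf (nat_lit 112879) (.g (nat_lit 1433) (.e (nat_lit 7936) (nat_lit 314) (.e (nat_lit 24617) (nat_lit 7) (.e (nat_lit 319504) (nat_lit 10) (.e (nat_lit 7936) (nat_lit 312) .nil)))) .nil)))) (.nd (nat_lit 5) (.nd (nat_lit 6) 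
(.lf (nat_lit 112799) (.g (nat_lit 1822) (.e (nat_lit 5664) (nat_lit 312) (.e (nat_lit 2887) (nat_lit 184) (.e (nat_lit 426412) (nat_lit 15) (.e (nat_lit 7936) (nat_lit 347) .nil)))) .nil)) 
(.lf (nat_lit 112863) (.g (nat_lit 2511) (.e (nat_lit 5748) (nat_lit 314) (.e (nat_lit 24665) (nat_lit 14) (.e (nat_lit 401444) (nat_lit 9) (.e (nat_lit 426532) (nat_lit 28) .nil)))) .nil))) (.nd (nat_lit 6) 
(.lf (nat_lit 112831) (.g (nat_lit 1504) (.e (nat_lit 7936) (nat_lit 312) (.e (nat_lit 2668) (nat_lit 167) (.e (nat_lit 196630) (nat_lit 9) (.e (nat_lit 1580) (nat_lit 111) (.e (nat_lit 360467) (nat_lit 3) .nil))))) .nil)) 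
(.lf (nat_lit 112895) (.g (nat_lit 2437) (.e (nat_lit 5756) (nat_lit 315) (.e (nat_lit 164017) (nat_lit 44) (.e (nat_lit 688177) (nat_lit 16) (.e (nat_lit 65625) (nat_lit 13) (.e (nat_lit 393265) (nat_lit 22) (.e (nat_lit 417820) (nat_lit 10) .nil)))))) (.g (nat_lit 5) .nil .nil))))))))))

noncomputable def tv1523 : DT := (.nd (nat_lit 0) (.nd (nat_lit 1) (.nd (nat_lit 2) (.nd (nat_lit 3) (.nd (nat_lit 4) (.nd (nat_lit 5) 
(.lf (nat_lit 112896) (.g (nat_lit 1643) (.e (nat_lit 5756) (nat_lit 315) (.e (nat_lit 164017) (nat_lit 44) (.e (nat_lit 688178) (nat_lit 16) (.e (nat_lit 65625) (nat_lit 13) (.e (nat_lit 393265) (nat_lit 22) .nil))))) .nil)) 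
(.lf (nat_lit 112928) (.g (nat_lit 2541) (.e (nat_lit 5761) (nat_lit 315) (.e (nat_lit 163962) (nat_lit 25) (.e (nat_lit 532549) (nat_lit 12) (.e (nat_lit 360473) (nat_lit 8) (.e (nat_lit 557068) (nat_lit 9) (.e (nat_lit 214) (nat_lit 19) (.e (nat_lit 319493) (nat_lit 0) .nil))))))) (.g (nat_lit 0) .nil .nil)))) (.nd (nat_lit 5) 
(.lf (nat_lit 112912) (.g (nat_lit 3079) (.e (nat_lit 5760) (nat_lit 315) (.e (nat_lit 164238) (nat_lit 187) (.e (nat_lit 1234) (nat_lit 91) (.e (nat_lit 90170) (nat_lit 13) (.e (nat_lit 172113) (nat_lit 10) (.e (nat_lit 434227) (nat_lit 20) (.e (nat_lit 507929) (nat_lit 10) .nil))))))) (.g (nat_lit 5) .nil .nil))) 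
(.lf (nat_lit 112944) (.g (nat_lit 805) (.e (nat_lit 5762) (nat_lit 315) (.e (nat_lit 163850) (nat_lit 0) (.e (nat_lit 6387) (nat_lit 338) (.e (nat_lit 8210) (nat_lit 8) .nil)))) .nil)))) (.nd (nat_lit 4) (.nd (nat_lit 5) 
(.lf (nat_lit 112904) (.g (nat_lit 4675) (.e (nat_lit 5758) (nat_lit 315) (.e (nat_lit 164238) (nat_lit 187) (.e (nat_lit 1234) (nat_lit 91) (.e (nat_lit 90170) (nat_lit 13) (.e (nat_lit 172106) (nat_lit 10) (.e (nat_lit 434227) (nat_lit 20) (.e (nat_lit 507929) (nat_lit 10) .nil))))))) (.g (nat_lit 6) .nil .nil))) 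
(.lf (nat_lit 112936) (.g (nat_lit 3343) (.e (nat_lit 5761) (nat_lit 315) (.e (nat_lit 163962) (nat_lit 25) (.e (nat_lit 532550) (nat_lit 12) (.e (nat_lit 360475) (nat_lit 8) (.e (nat_lit 557068) (nat_lit 9) (.e (nat_lit 214) (nat_lit 19) (.e (nat_lit 319491) (nat_lit 0) .nil))))))) (.g (nat_lit 0) .nil .nil)))) (.nd (nat_lit 5) 
(.lf (nat_lit 112920) (.g (nat_lit 465) (.e (nat_lit 5761) (nat_lit 315) (.e (nat_lit 163850) (nat_lit 0) (.e (nat_lit 6273) (nat_lit 337) .nil))) .nil)) 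
(.lf (nat_lit 112952) (.g (nat_lit 207) (.e (nat_lit 5762) (nat_lit 315) (.e (nat_lit 163962) (nat_lit 25) (.e (nat_lit 532548) (nat_lit 11) .nil))) .nil))))) (.nd (nat_lit 3) (.nd (nat_lit 4) (.nd (nat_lit 5) 
(.lf (nat_lit 112900) (.g (nat_lit 2293) (.e (nat_lit 5757) (nat_lit 315) (.e (nat_lit 163962) (nat_lit 25) (.e (nat_lit 532535) (nat_lit 9) (.e (nat_lit 336177) (nat_lit 10) .nil)))) .nil)) 
(.lf (nat_lit 112932) (.g (nat_lit 2564) (.e (nat_lit 5761) (nat_lit 315) (.e (nat_lit 163962) (nat_lit 25) (.e (nat_lit 532550) (nat_lit 12) (.e (nat_lit 360474) (nat_lit 8) (.e (nat_lit 557073) (nat_lit 9) (.e (nat_lit 214) (nat_lit 19) (.e (nat_lit 319493) (nat_lit 0) .nil))))))) (.g (nat_lit 0) .nil .nil)))) (.nd (nat_lit 5) 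
(.lf (nat_lit 112916) (.g (nat_lit 1105) (.e (nat_lit 5760) (nat_lit 315) (.e (nat_lit 164238) (nat_lit 187) (.e (nat_lit 1253) (nat_lit 92) (.e (nat_lit 98372) (nat_lit 29) .nil)))) .nil)) 
(.lf (nat_lit 112948) (.g (nat_lit 2632) (.e (nat_lit 5762) (nat_lit 315) (.e (nat_lit 163962) (nat_lit 25) (.e (nat_lit 532535) (nat_lit 9) (.e (nat_lit 336173) (nat_lit 10) (.e (nat_lit 344119) (nat_lit 21) .nil))))) .nil)))) (.nd (nat_lit 4) (.nd (nat_lit 5) 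
(.lf (nat_lit 112908) (.g (nat_lit 2325) (.e (nat_lit 5760) (nat_lit 315) (.e (nat_lit 163962) (nat_lit 25) (.e (nat_lit 532535) (nat_lit 9) (.e (nat_lit 336110) (nat_lit 9) .nil)))) .nil)) 
(.lf (nat_lit 112940) (.g (nat_lit 3300) (.e (nat_lit 5761) (nat_lit 315) (.e (nat_lit 163962) (nat_lit 25) (.e (nat_lit 532550) (nat_lit 12) (.e (nat_lit 360475) (nat_lit 8) (.e (nat_lit 557073) (nat_lit 9) (.e (nat_lit 214) (nat_lit 19) (.e (nat_lit 319492) (nat_lit 0) .nil))))))) (.g (nat_lit 6) .nil .nil)))) (.nd (nat_lit 5) 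
(.lf (nat_lit 112924) (.g (nat_lit 495) (.e (nat_lit 5761) (nat_lit 315) (.e (nat_lit 163850) (nat_lit 0) (.e (nat_lit 6386) (nat_lit 338) .nil))) .nil)) 
(.lf (nat_lit 112956) (.g (nat_lit 3114) (.e (nat_lit 5762) (nat_lit 315) (.e (nat_lit 163962) (nat_lit 25) (.e (nat_lit 532550) (nat_lit 12) (.e (nat_lit 360475) (nat_lit 8) (.e (nat_lit 557068) (nat_lit 9) (.e (nat_lit 220) (nat_lit 20) (.e (nat_lit 327683) (nat_lit 0) .nil))))))) (.g (nat_lit 0) .nil .nil))))))) (.nd (nat_lit 2) (.nd (nat_lit 3) (.nd (nat_lit 4) (.nd (nat_lit 5) 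
(.lf (nat_lit 112898) (.g (nat_lit 2295) (.e (nat_lit 5757) (nat_lit 315) (.e (nat_lit 163962) (nat_lit 25) (.e (nat_lit 532535) (nat_lit 9) (.e (nat_lit 336163) (nat_lit 10) .nil)))) .nil)) 
(.lf (nat_lit 112930) (.g (nat_lit 2413) (.e (nat_lit 5761) (nat_lit 315) (.e (nat_lit 163962) (nat_lit 25) (.e (nat_lit 532549) (nat_lit 12) (.e (nat_lit 360473) (nat_lit 8) (.e (nat_lit 557073) (nat_lit 9) (.e (nat_lit 214) (nat_lit 19) (.e (nat_lit 319492) (nat_lit 0) .nil))))))) (.g (nat_lit 0) .nil .nil)))) (.nd (nat_lit 5) 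
(.lf (nat_lit 112914) (.g (nat_lit 3359) (.e (nat_lit 5760) (nat_lit 315) (.e (nat_lit 164238) (nat_lit 187) (.e (nat_lit 1235) (nat_lit 91) (.e (nat_lit 90170) (nat_lit 13) (.e (nat_lit 172106) (nat_lit 10) (.e (nat_lit 434227) (nat_lit 20) (.e (nat_lit 507929) (nat_lit 10) .nil))))))) (.g (nat_lit 5) .nil .nil))) 
(.lf (nat_lit 112946) (.g (nat_lit 2723) (.e (nat_lit 5762) (nat_lit 315) (.e (nat_lit 163962) (nat_lit 25) (.e (nat_lit 532535) (nat_lit 9) (.e (nat_lit 336099) (nat_lit 9) (.e (nat_lit 336013) (nat_lit 2) (.e (nat_lit 98048) (nat_lit 18) (.e (nat_lit 1345) (nat_lit 101) (.e (nat_lit 278532) (nat_lit 0) .nil)))))))) (.g (nat_lit 4) .nil .nil))))) (.nd (nat_lit 4) (.nd (nat_lit 5) 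
(.lf (nat_lit 112906) (.g (nat_lit 3894) (.e (nat_lit 5758) (nat_lit 315) (.e (nat_lit 164238) (nat_lit 187) (.e (nat_lit 1235) (nat_lit 91) (.e (nat_lit 90170) (nat_lit 13) (.e (nat_lit 172106) (nat_lit 10) (.e (nat_lit 434227) (nat_lit 20) (.e (nat_lit 507929) (nat_lit 10) .nil))))))) (.g (nat_lit 6) .nil .nil))) 
(.lf (nat_lit 112938) (.g (nat_lit 3269) (.e (nat_lit 5761) (nat_lit 315) (.e (nat_lit 163962) (nat_lit 25) (.e (nat_lit 532550) (nat_lit 12) (.e (nat_lit 360475) (nat_lit 8) (.e (nat_lit 557068) (nat_lit 9) (.e (nat_lit 214) (nat_lit 19) (.e (nat_lit 319493) (nat_lit 0) .nil))))))) (.g (nat_lit 0) .nil .nil)))) (.nd (nat_lit 5) 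
(.lf (nat_lit 112922) (.g (nat_lit 2654) (.e (nat_lit 5761) (nat_lit 315) (.e (nat_lit 163850) (nat_lit 0) (.e (nat_lit 6277) (nat_lit 337) (.e (nat_lit 1201) (nat_lit 88) (.e (nat_lit 65627) (nat_lit 13) (.e (nat_lit 393265) (nat_lit 22) (.e (nat_lit 417820) (nat_lit 10) .nil))))))) (.g (nat_lit 5) .nil .nil))) 
(.lf (nat_lit 112954) (.g (nat_lit 1509) (.e (nat_lit 5762) (nat_lit 315) (.e (nat_lit 163962) (nat_lit 25) (.e (nat_lit 532549) (nat_lit 12) (.e (nat_lit 360466) (nat_lit 3) (.e (nat_lit 516142) (nat_lit 8) .nil))))) .nil))))) (.nd (nat_lit 3) (.nd (nat_lit 4) (.nd (nat_lit 5) 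
(.lf (nat_lit 112902) (.g (nat_lit 2358) (.e (nat_lit 5758) (nat_lit 315) (.e (nat_lit 163962) (nat_lit 25) (.e (nat_lit 532535) (nat_lit 9) (.e (nat_lit 336163) (nat_lit 10) .nil)))) .nil)) 
(.lf (nat_lit 112934) (.g (nat_lit 3601) (.e (nat_lit 5761) (nat_lit 315) (.e (nat_lit 163962) (nat_lit 25) (.e (nat_lit 532550) (nat_lit 12) (.e (nat_lit 360475) (nat_lit 8) (.e (nat_lit 557064) (nat_lit 9) (.e (nat_lit 214) (nat_lit 19) (.e (nat_lit 319492) (nat_lit 0) .nil))))))) (.g (nat_lit 4) .nil .nil)))) (.nd (nat_lit 5) 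
(.lf (nat_lit 112918) (.g (nat_lit 1573) (.e (nat_lit 5761) (nat_lit 315) (.e (nat_lit 163850) (nat_lit 0) (.e (nat_lit 6270) (nat_lit 337) (.e (nat_lit 1296) (nat_lit 96) (.e (nat_lit 131126) (nat_lit 13) (.e (nat_lit 393265) (nat_lit 22) (.e (nat_lit 417820) (nat_lit 10) .nil))))))) (.g (nat_lit 4) .nil .nil))) 
(.lf (nat_lit 112950) (.g (nat_lit 2072) (.e (nat_lit 5762) (nat_lit 315) (.e (nat_lit 163962) (nat_lit 25) (.e (nat_lit 532535) (nat_lit 9) (.e (nat_lit 336176) (nat_lit 10) (.e (nat_lit 344120) (nat_lit 21) .nil))))) .nil)))) (.nd (nat_lit 4) (.nd (nat_lit 5) 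
(.lf (nat_lit 112910) (.g (nat_lit 1772) (.e (nat_lit 5760) (nat_lit 315) (.e (nat_lit 163979) (nat_lit 30) (.e (nat_lit 573503) (nat_lit 18) (.e (nat_lit 1348) (nat_lit 102) .nil)))) .nil)) 
(.lf (nat_lit 112942) (.g (nat_lit 2455) (.e (nat_lit 5761) (nat_lit 315) (.e (nat_lit 164017) (nat_lit 44) (.e (nat_lit 688177) (nat_lit 16) (.e (nat_lit 65625) (nat_lit 13) (.e (nat_lit 393265) (nat_lit 22) (.e (nat_lit 417820) (nat_lit 10) .nil)))))) (.g (nat_lit 6) .nil .nil)))) (.nd (nat_lit 5) 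
(.lf (nat_lit 112926) (.g (nat_lit 2612) (.e (nat_lit 5761) (nat_lit 315) (.e (nat_lit 163962) (nat_lit 25) (.e (nat_lit 532549) (nat_lit 12) (.e (nat_lit 360473) (nat_lit 8) (.e (nat_lit 557068) (nat_lit 9) (.e (nat_lit 214) (nat_lit 19) (.e (nat_lit 319491) (nat_lit 0) .nil))))))) (.g (nat_lit 0) .nil .nil))) 
(.lf (nat_lit 112958) (.g (nat_lit 3328) (.e (nat_lit 5763) (nat_lit 315) (.e (nat_lit 163962) (nat_lit 25) (.e (nat_lit 532535) (nat_lit 9) (.e (nat_lit 336099) (nat_lit 9) (.e (nat_lit 336013) (nat_lit 2) .nil))))) .nil))))))) (.nd (nat_lit 1) (.nd (nat_lit 2) (.nd (nat_lit 3) (.nd (nat_lit 4) (.nd (nat_lit 5) 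
(.lf (nat_lit 112897) (.g (nat_lit 1950) (.e (nat_lit 5756) (nat_lit 315) (.e (nat_lit 164017) (nat_lit 44) (.e (nat_lit 688178) (nat_lit 16) (.e (nat_lit 65626) (nat_lit 13) (.e (nat_lit 393265) (nat_lit 22) (.e (nat_lit 417820) (nat_lit 10) .nil)))))) (.g (nat_lit 5) .nil .nil))) 
(.lf (nat_lit 112929) (.g (nat_lit 2466) (.e (nat_lit 5761) (nat_lit 315) (.e (nat_lit 163962) (nat_lit 25) (.e (nat_lit 532549) (nat_lit 12) (.e (nat_lit 360473) (nat_lit 8) (.e (nat_lit 557073) (nat_lit 9) (.e (nat_lit 214) (nat_lit 19) (.e (nat_lit 319491) (nat_lit 0) .nil))))))) (.g (nat_lit 0) .nil .nil)))) (.nd (nat_lit 5) 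
(.lf (nat_lit 112913) (.g (nat_lit 3809) (.e (nat_lit 5760) (nat_lit 315) (.e (nat_lit 164238) (nat_lit 187) (.e (nat_lit 1234) (nat_lit 91) (.e (nat_lit 90170) (nat_lit 13) (.e (nat_lit 172113) (nat_lit 10) (.e (nat_lit 434227) (nat_lit 20) (.e (nat_lit 507930) (nat_lit 10) .nil))))))) (.g (nat_lit 7) .nil .nil))) 
(.lf (nat_lit 112945) (.g (nat_lit 2766) (.e (nat_lit 5762) (nat_lit 315) (.e (nat_lit 163962) (nat_lit 25) (.e (nat_lit 532535) (nat_lit 9) (.e (nat_lit 336099) (nat_lit 9) (.e (nat_lit 336013) (nat_lit 2) (.e (nat_lit 98048) (nat_lit 18) (.e (nat_lit 1345) (nat_lit 101) (.e (nat_lit 278529) (nat_lit 0) .nil)))))))) (.g (nat_lit 4) .nil .nil))))) (.nd (nat_lit 4) (.nd (nat_lit 5) 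
(.lf (nat_lit 112905) (.g (nat_lit 4728) (.e (nat_lit 5758) (nat_lit 315) (.e (nat_lit 164238) (nat_lit 187) (.e (nat_lit 1234) (nat_lit 91) (.e (nat_lit 90170) (nat_lit 13) (.e (nat_lit 172106) (nat_lit 10) (.e (nat_lit 434227) (nat_lit 20) (.e (nat_lit 507930) (nat_lit 10) .nil))))))) (.g (nat_lit 6) .nil .nil))) 
(.lf (nat_lit 112937) (.g (nat_lit 3306) (.e (nat_lit 5761) (nat_lit 315) (.e (nat_lit 163962) (nat_lit 25) (.e (nat_lit 532550) (nat_lit 12) (.e (nat_lit 360475) (nat_lit 8) (.e (nat_lit 557068) (nat_lit 9) (.e (nat_lit 214) (nat_lit 19) (.e (nat_lit 319492) (nat_lit 0) .nil))))))) (.g (nat_lit 0) .nil .nil)))) (.nd (nat_lit 5) 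
(.lf (nat_lit 112921) (.g (nat_lit 501) (.e (nat_lit 5761) (nat_lit 315) (.e (nat_lit 163850) (nat_lit 0) (.e (nat_lit 6277) (nat_lit 337) .nil))) .nil)) 
(.lf (nat_lit 112953) (.g (nat_lit 1522) (.e (nat_lit 5762) (nat_lit 315) (.e (nat_lit 163962) (nat_lit 25) (.e (nat_lit 532549) (nat_lit 12) (.e (nat_lit 360466) (nat_lit 3) (.e (nat_lit 516138) (nat_lit 7) .nil))))) .nil))))) (.nd (nat_lit 3) (.nd (nat_lit 4) (.nd (nat_lit 5) 
(.lf (nat_lit 112901) (.g (nat_lit 2194) (.e (nat_lit 5758) (nat_lit 315) (.e (nat_lit 163962) (nat_lit 25) (.e (nat_lit 532535) (nat_lit 9) (.e (nat_lit 336099) (nat_lit 9) .nil)))) .nil)) 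
(.lf (nat_lit 112933) (.g (nat_lit 3520) (.e (nat_lit 5761) (nat_lit 315) (.e (nat_lit 163962) (nat_lit 25) (.e (nat_lit 532550) (nat_lit 12) (.e (nat_lit 360475) (nat_lit 8) (.e (nat_lit 557064) (nat_lit 9) .nil))))) .nil))) (.nd (nat_lit 5) 
(.lf (nat_lit 112917) (.g (nat_lit 471) (.e (nat_lit 5761) (nat_lit 315) (.e (nat_lit 163850) (nat_lit 0) (.e (nat_lit 6270) (nat_lit 337) .nil))) .nil)) 
(.lf (nat_lit 112949) (.g (nat_lit 2067) (.e (nat_lit 5762) (nat_lit 315) (.e (nat_lit 163962) (nat_lit 25) (.e (nat_lit 532535) (nat_lit 9) (.e (nat_lit 336176) (nat_lit 10) (.e (nat_lit 344119) (nat_lit 21) .nil))))) .nil)))) (.nd (nat_lit 4) (.nd (nat_lit 5) 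
(.lf (nat_lit 112909) (.g (nat_lit 2357) (.e (nat_lit 5760) (nat_lit 315) (.e (nat_lit 163962) (nat_lit 25) (.e (nat_lit 532535) (nat_lit 9) (.e (nat_lit 336163) (nat_lit 10) .nil)))) .nil)) 
(.lf (nat_lit 112941) (.g (nat_lit 1369) (.e (nat_lit 5761) (nat_lit 315) (.e (nat_lit 164017) (nat_lit 44) (.e (nat_lit 688176) (nat_lit 16) (.e (nat_lit 65627) (nat_lit 13) (.e (nat_lit 393265) (nat_lit 22) (.e (nat_lit 417820) (nat_lit 10) .nil)))))) (.g (nat_lit 4) .nil .nil)))) (.nd (nat_lit 5) 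
(.lf (nat_lit 112925) (.g (nat_lit 1193) (.e (nat_lit 5761) (nat_lit 315) (.e (nat_lit 163850) (nat_lit 0) (.e (nat_lit 6387) (nat_lit 338) (.e (nat_lit 8210) (nat_lit 8) (.e (nat_lit 294960) (nat_lit 13) (.e (nat_lit 393260) (nat_lit 21) (.e (nat_lit 409623) (nat_lit 10) .nil))))))) (.g (nat_lit 4) .nil .nil))) 
(.lf (nat_lit 112957) (.g (nat_lit 2777) (.e (nat_lit 5762) (nat_lit 315) (.e (nat_lit 163962) (nat_lit 25) (.e (nat_lit 532550) (nat_lit 12) (.e (nat_lit 360475) (nat_lit 8) (.e (nat_lit 557073) (nat_lit 9) (.e (nat_lit 220) (nat_lit 20) (.e (nat_lit 327682) (nat_lit 0) .nil))))))) (.g (nat_lit 5) .nil .nil))))))) (.nd (nat_lit 2) (.nd (nat_lit 3) (.nd (nat_lit 4) (.nd (nat_lit 5) 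
(.lf (nat_lit 112899) (.g (nat_lit 3197) (.e (nat_lit 5757) (nat_lit 315) (.e (nat_lit 163962) (nat_lit 25) (.e (nat_lit 532535) (nat_lit 9) (.e (nat_lit 336173) (nat_lit 10) (.e (nat_lit 344119) (nat_lit 21) .nil))))) .nil)) 
(.lf (nat_lit 112931) (.g (nat_lit 2387) (.e (nat_lit 5761) (nat_lit 315) (.e (nat_lit 163962) (nat_lit 25) (.e (nat_lit 532549) (nat_lit 12) (.e (nat_lit 360473) (nat_lit 8) (.e (nat_lit 557073) (nat_lit 9) (.e (nat_lit 214) (nat_lit 19) (.e (nat_lit 319493) (nat_lit 0) .nil))))))) (.g (nat_lit 0) .nil .nil)))) (.nd (nat_lit 5) 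
(.lf (nat_lit 112915) (.g (nat_lit 3057) (.e (nat_lit 5760) (nat_lit 315) (.e (nat_lit 164238) (nat_lit 187) (.e (nat_lit 1235) (nat_lit 91) (.e (nat_lit 90170) (nat_lit 13) (.e (nat_lit 172113) (nat_lit 10) (.e (nat_lit 434227) (nat_lit 20) (.e (nat_lit 507930) (nat_lit 10) .nil))))))) (.g (nat_lit 6) .nil .nil))) 
(.lf (nat_lit 112947) (.g (nat_lit 2929) (.e (nat_lit 5762) (nat_lit 315) (.e (nat_lit 163962) (nat_lit 25) (.e (nat_lit 532535) (nat_lit 9) (.e (nat_lit 336163) (nat_lit 10) (.e (nat_lit 344119) (nat_lit 21) .nil))))) .nil)))) (.nd (nat_lit 4) (.nd (nat_lit 5) 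
(.lf (nat_lit 112907) (.g (nat_lit 2192) (.e (nat_lit 5760) (nat_lit 315) (.e (nat_lit 163962) (nat_lit 25) (.e (nat_lit 532535) (nat_lit 9) (.e (nat_lit 336073) (nat_lit 9) .nil)))) .nil)) 
(.lf (nat_lit 112939) (.g (nat_lit 3348) (.e (nat_lit 5761) (nat_lit 315) (.e (nat_lit 163962) (nat_lit 25) (.e (nat_lit 532550) (nat_lit 12) (.e (nat_lit 360475) (nat_lit 8) (.e (nat_lit 557073) (nat_lit 9) (.e (nat_lit 214) (nat_lit 19) (.e (nat_lit 319491) (nat_lit 0) .nil))))))) (.g (nat_lit 6) .nil .nil)))) (.nd (nat_lit 5) 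
(.lf (nat_lit 112923) (.g (nat_lit 474) (.e (nat_lit 5761) (nat_lit 315) (.e (nat_lit 163850) (nat_lit 0) (.e (nat_lit 6306) (nat_lit 337) .nil))) .nil)) 
(.lf (nat_lit 112955) (.g (nat_lit 4141) (.e (nat_lit 5762) (nat_lit 315) (.e (nat_lit 163962) (nat_lit 25) (.e (nat_lit 532550) (nat_lit 12) (.e (nat_lit 360475) (nat_lit 8) (.e (nat_lit 557067) (nat_lit 9) (.e (nat_lit 220) (nat_lit 20) (.e (nat_lit 327683) (nat_lit 0) .nil))))))) (.g (nat_lit 5) .nil .nil)))))) (.nd (nat_lit 3) (.nd (nat_lit 4) (.nd (nat_lit 5) 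
(.lf (nat_lit 112903) (.g (nat_lit 1749) (.e (nat_lit 5758) (nat_lit 315) (.e (nat_lit 164017) (nat_lit 44) (.e (nat_lit 688177) (nat_lit 16) (.e (nat_lit 65627) (nat_lit 13) (.e (nat_lit 393263) (nat_lit 22) .nil))))) .nil)) 
(.lf (nat_lit 112935) (.g (nat_lit 3690) (.e (nat_lit 5761) (nat_lit 315) (.e (nat_lit 163962) (nat_lit 25) (.e (nat_lit 532550) (nat_lit 12) (.e (nat_lit 360475) (nat_lit 8) (.e (nat_lit 557068) (nat_lit 9) (.e (nat_lit 214) (nat_lit 19) (.e (nat_lit 319490) (nat_lit 0) .nil))))))) (.g (nat_lit 0) .nil .nil)))) (.nd (nat_lit 5) 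
(.lf (nat_lit 112919) (.g (nat_lit 491) (.e (nat_lit 5761) (nat_lit 315) (.e (nat_lit 163850) (nat_lit 0) (.e (nat_lit 6272) (nat_lit 337) .nil))) .nil)) 
(.lf (nat_lit 112951) (.g (nat_lit 1349) (.e (nat_lit 5762) (nat_lit 315) (.e (nat_lit 163962) (nat_lit 25) (.e (nat_lit 532547) (nat_lit 11) (.e (nat_lit 352312) (nat_lit 22) (.e (nat_lit 98048) (nat_lit 18) .nil))))) .nil)))) (.nd (nat_lit 4) (.nd (nat_lit 5) 
(.lf (nat_lit 112911) (.g (nat_lit 1899) (.e (nat_lit 5760) (nat_lit 315) (.e (nat_lit 164017) (nat_lit 44) (.e (nat_lit 688177) (nat_lit 16) (.e (nat_lit 65627) (nat_lit 13) (.e (nat_lit 393263) (nat_lit 22) (.e (nat_lit 417815) (nat_lit 10) .nil)))))) (.g (nat_lit 4) .nil .nil))) 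
(.lf (nat_lit 112943) (.g (nat_lit 1661) (.e (nat_lit 5761) (nat_lit 315) (.e (nat_lit 164017) (nat_lit 44) (.e (nat_lit 688178) (nat_lit 16) (.e (nat_lit 65625) (nat_lit 13) (.e (nat_lit 393265) (nat_lit 22) .nil))))) .nil))) (.nd (nat_lit 5) 
(.lf (nat_lit 112927) (.g (nat_lit 2572) (.e (nat_lit 5761) (nat_lit 315) (.e (nat_lit 163962) (nat_lit 25) (.e (nat_lit 532549) (nat_lit 12) (.e (nat_lit 360473) (nat_lit 8) (.e (nat_lit 557068) (nat_lit 9) (.e (nat_lit 214) (nat_lit 19) (.e (nat_lit 319492) (nat_lit 0) .nil))))))) (.g (nat_lit 0) .nil .nil))) 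
(.lf (nat_lit 112959) (.g (nat_lit 2309) (.e (nat_lit 5763) (nat_lit 315) (.e (nat_lit 163962) (nat_lit 25) (.e (nat_lit 532535) (nat_lit 9) (.e (nat_lit 336177) (nat_lit 10) .nil)))) .nil))))))))


end

end Pool.Agent.Lib.MP_5854e1_co.Cz
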