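import Pool.Agent.Lib.MP_5854e1_co.DtD

/-!
# Windows and cells of the rings
-/

set_option autoImplicit false
set_option maxRecDepth 100000
set_option deprecated.oldSectionVars true

namespace Pool.Agent.Lib.MP_5854e1_co.Cz

open Pool.Agent.Lib.MP_5854e1_co

noncomputable section

noncomputable def tv1589 : DT := (.nd (nat_lit 0) (.nd (nat_lit 1) (.nd (nat_lit 2) (.nd (nat_lit 3) (.nd (nat_lit 4) (.nd (nat_lit 5) 
(.lf (nat_lit 118912) (.g (nat_lit 2086) (.e (nat_lit 6420) (nat_lit 341) (.e (nat_lit 163902) (nat_lit 12) (.e (nat_lit 426128) (nat_lit 2) (.e (nat_lit 196624) (nat_lit 9) (.e (nat_lit 7936) (nat_lit 111) .nil))))) .nil)) 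
(.lf (nat_lit 118944) (.g (nat_lit 6858) (.e (nat_lit 6420) (nat_lit 341) (.e (nat_lit 163902) (nat_lit 12) (.e (nat_lit 426131) (nat_lit 3) (.e (nat_lit 204869) (nat_lit 29) (.e (nat_lit 360475) (nat_lit 8) (.e (nat_lit 557089) (nat_lit 12) (.e (nat_lit 163844) (nat_lit 0) .nil))))))) (.g (nat_lit 7) .nil .nil)))) (.nd (nat_lit 5) 
(.lf (nat_lit 118928) (.g (nat_lit 2895) (.e (nat_lit 6420) (nat_lit 341) (.e (nat_lit 163902) (nat_lit 12) (.e (nat_lit 426131) (nat_lit 3) (.e (nat_lit 204855) (nat_lit 26) (.e (nat_lit 336176) (nat_lit 10) (.e (nat_lit 344133) (nat_lit 26) (.e (nat_lit 557091) (nat_lit 12) (.e (nat_lit 163849) (nat_lit 0) .nil)))))))) (.g (nat_lit 4) .nil .nil))) 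
(.lf (nat_lit 118960) (.g (nat_lit 4133) (.e (nat_lit 6420) (nat_lit 341) (.e (nat_lit 163902) (nat_lit 12) (.e (nat_lit 426428) (nat_lit 17) (.e (nat_lit 90170) (nat_lit 13) (.e (nat_lit 172125) (nat_lit 14) (.e (nat_lit 491584) (nat_lit 28) (.e (nat_lit 434208) (nat_lit 18) .nil))))))) (.g (nat_lit 0) .nil .nil))))) (.nd (nat_lit 4) (.nd (nat_lit 5) 
(.lf (nat_lit 118920) (.g (nat_lit 5906) (.e (nat_lit 6420) (nat_lit 341) (.e (nat_lit 163902) (nat_lit 12) (.e (nat_lit 426130) (nat_lit 3) (.e (nat_lit 204869) (nat_lit 29) (.e (nat_lit 360475) (nat_lit 8) (.e (nat_lit 557091) (nat_lit 12) (.e (nat_lit 163844) (nat_lit 0) .nil))))))) (.g (nat_lit 6) .nil .nil))) 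
(.lf (nat_lit 118952) (.g (nat_lit 4528) (.e (nat_lit 6420) (nat_lit 341) (.e (nat_lit 163902) (nat_lit 12) (.e (nat_lit 433920) (nat_lit 3) (.e (nat_lit 204869) (nat_lit 29) (.e (nat_lit 360475) (nat_lit 8) (.e (nat_lit 557089) (nat_lit 12) (.e (nat_lit 163844) (nat_lit 0) .nil))))))) (.g (nat_lit 6) .nil .nil)))) (.nd (nat_lit 5) 
(.lf (nat_lit 118936) (.g (nat_lit 3777) (.e (nat_lit 6420) (nat_lit 341) (.e (nat_lit 163902) (nat_lit 12) (.e (nat_lit 426131) (nat_lit 3) (.e (nat_lit 204868) (nat_lit 29) (.e (nat_lit 360473) (nat_lit 8) (.e (nat_lit 557093) (nat_lit 12) (.e (nat_lit 163849) (nat_lit 0) .nil))))))) (.g (nat_lit 6) .nil .nil))) 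
(.lf (nat_lit 118968) (.g (nat_lit 1712) (.e (nat_lit 6420) (nat_lit 341) (.e (nat_lit 163905) (nat_lit 12) (.e (nat_lit 426131) (nat_lit 3) (.e (nat_lit 204868) (nat_lit 29) .nil)))) .nil))))) (.nd (nat_lit 3) (.nd (nat_lit 4) (.nd (nat_lit 5) 
(.lf (nat_lit 118916) (.g (nat_lit 4815) (.e (nat_lit 6420) (nat_lit 341) (.e (nat_lit 163902) (nat_lit 12) (.e (nat_lit 426130) (nat_lit 3) (.e (nat_lit 204869) (nat_lit 29) (.e (nat_lit 360474) (nat_lit 8) (.e (nat_lit 557093) (nat_lit 12) (.e (nat_lit 163849) (nat_lit 0) .nil))))))) (.g (nat_lit 6) .nil .nil))) 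
(.lf (nat_lit 118948) (.g (nat_lit 6582) (.e (nat_lit 6420) (nat_lit 341) (.e (nat_lit 163902) (nat_lit 12) (.e (nat_lit 426131) (nat_lit 3) (.e (nat_lit 204869) (nat_lit 29) (.e (nat_lit 360475) (nat_lit 8) (.e (nat_lit 557091) (nat_lit 12) (.e (nat_lit 163847) (nat_lit 0) .nil))))))) (.g (nat_lit 6) .nil .nil)))) (.nd (nat_lit 5) 
(.lf (nat_lit 118932) (.g (nat_lit 4122) (.e (nat_lit 6420) (nat_lit 341) (.e (nat_lit 163902) (nat_lit 12) (.e (nat_lit 426131) (nat_lit 3) (.e (nat_lit 204868) (nat_lit 29) (.e (nat_lit 360473) (nat_lit 8) (.e (nat_lit 557089) (nat_lit 12) (.e (nat_lit 163844) (nat_lit 0) .nil))))))) (.g (nat_lit 6) .nil .nil))) 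
(.lf (nat_lit 118964) (.g (nat_lit 936) (.e (nat_lit 6420) (nat_lit 341) (.e (nat_lit 163902) (nat_lit 12) (.e (nat_lit 426432) (nat_lit 17) .nil))) .nil)))) (.nd (nat_lit 4) (.nd (nat_lit 5) 
(.lf (nat_lit 118924) (.g (nat_lit 3031) (.e (nat_lit 6420) (nat_lit 341) (.e (nat_lit 163902) (nat_lit 12) (.e (nat_lit 426131) (nat_lit 3) (.e (nat_lit 204855) (nat_lit 26) (.e (nat_lit 336176) (nat_lit 10) (.e (nat_lit 344130) (nat_lit 26) (.e (nat_lit 557089) (nat_lit 12) (.e (nat_lit 163849) (nat_lit 0) .nil)))))))) (.g (nat_lit 4) .nil .nil))) 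
(.lf (nat_lit 118956) (.g (nat_lit 2801) (.e (nat_lit 6420) (nat_lit 341) (.e (nat_lit 163902) (nat_lit 12) (.e (nat_lit 426428) (nat_lit 17) (.e (nat_lit 90167) (nat_lit 13) (.e (nat_lit 172126) (nat_lit 14) (.e (nat_lit 491584) (nat_lit 28) (.e (nat_lit 434208) (nat_lit 18) .nil))))))) (.g (nat_lit 6) .nil .nil)))) (.nd (nat_lit 5) 
(.lf (nat_lit 118940) (.g (nat_lit 5540) (.e (nat_lit 6420) (nat_lit 341) (.e (nat_lit 163902) (nat_lit 12) (.e (nat_lit 426131) (nat_lit 3) (.e (nat_lit 204869) (nat_lit 29) (.e (nat_lit 360474) (nat_lit 8) (.e (nat_lit 557093) (nat_lit 12) (.e (nat_lit 163849) (nat_lit 0) .nil))))))) (.g (nat_lit 5) .nil .nil))) 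
(.lf (nat_lit 118972) (.g (nat_lit 4682) (.e (nat_lit 6420) (nat_lit 341) (.e (nat_lit 163908) (nat_lit 12) (.e (nat_lit 426113) (nat_lit 2) (.e (nat_lit 196666) (nat_lit 13) (.e (nat_lit 65617) (nat_lit 10) (.e (nat_lit 344130) (nat_lit 26) (.e (nat_lit 557090) (nat_lit 12) (.e (nat_lit 163844) (nat_lit 0) .nil)))))))) (.g (nat_lit 8) .nil .nil))))))) 
(.nd (nat_lit 2) (.nd (nat_lit 3) (.nd (nat_lit 4) (.nd (nat_lit 5) 
(.lf (nat_lit 118914) (.g (nat_lit 2926) (.e (nat_lit 6420) (nat_lit 341) (.e (nat_lit 163902) (nat_lit 12) (.e (nat_lit 426130) (nat_lit 3) (.e (nat_lit 204868) (nat_lit 29) (.e (nat_lit 360473) (nat_lit 8) (.e (nat_lit 557089) (nat_lit 12) (.e (nat_lit 163849) (nat_lit 0) .nil))))))) (.g (nat_lit 5) .nil .nil))) 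
(.lf (nat_lit 118946) (.g (nat_lit 7431) (.e (nat_lit 6420) (nat_lit 341) (.e (nat_lit 163902) (nat_lit 12) (.e (nat_lit 426131) (nat_lit 3) (.e (nat_lit 204869) (nat_lit 29) (.e (nat_lit 360475) (nat_lit 8) (.e (nat_lit 557091) (nat_lit 12) (.e (nat_lit 163843) (nat_lit 0) .nil))))))) (.g (nat_lit 7) .nil .nil)))) (.nd (nat_lit 5) 
(.lf (nat_lit 118930) (.g (nat_lit 2168) (.e (nat_lit 6420) (nat_lit 341) (.e (nat_lit 163902) (nat_lit 12) (.e (nat_lit 426131) (nat_lit 3) (.e (nat_lit 204868) (nat_lit 29) (.e (nat_lit 360473) (nat_lit 8) .nil))))) .nil)) 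
(.lf (nat_lit 118962) (.g (nat_lit 1826) (.e (nat_lit 6420) (nat_lit 341) (.e (nat_lit 163902) (nat_lit 12) (.e (nat_lit 426428) (nat_lit 17) (.e (nat_lit 90172) (nat_lit 14) (.e (nat_lit 180276) (nat_lit 32) (.e (nat_lit 444) (nat_lit 33) (.e (nat_lit 434206) (nat_lit 18) .nil))))))) (.g (nat_lit 4) .nil .nil))))) (.nd (nat_lit 4) (.nd (nat_lit 5) 
(.lf (nat_lit 118922) (.g (nat_lit 2588) (.e (nat_lit 6420) (nat_lit 341) (.e (nat_lit 163902) (nat_lit 12) (.e (nat_lit 426131) (nat_lit 3) (.e (nat_lit 204855) (nat_lit 26) (.e (nat_lit 336176) (nat_lit 10) .nil))))) .nil)) 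
(.lf (nat_lit 118954) (.g (nat_lit 1771) (.e (nat_lit 6420) (nat_lit 341) (.e (nat_lit 163902) (nat_lit 12) (.e (nat_lit 426227) (nat_lit 9) (.e (nat_lit 426492) (nat_lit 27) (.e (nat_lit 336231) (nat_lit 14) .nil))))) .nil))) (.nd (nat_lit 5) 
(.lf (nat_lit 118938) (.g (nat_lit 3472) (.e (nat_lit 6420) (nat_lit 341) (.e (nat_lit 163902) (nat_lit 12) (.e (nat_lit 426131) (nat_lit 3) (.e (nat_lit 204868) (nat_lit 29) (.e (nat_lit 360473) (nat_lit 8) (.e (nat_lit 557094) (nat_lit 12) (.e (nat_lit 163849) (nat_lit 0) .nil))))))) (.g (nat_lit 5) .nil .nil))) 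
(.lf (nat_lit 118970) (.g (nat_lit 4324) (.e (nat_lit 6420) (nat_lit 341) (.e (nat_lit 163908) (nat_lit 12) (.e (nat_lit 426113) (nat_lit 2) (.e (nat_lit 196666) (nat_lit 13) (.e (nat_lit 65610) (nat_lit 10) (.e (nat_lit 344129) (nat_lit 26) (.e (nat_lit 557090) (nat_lit 12) (.e (nat_lit 163844) (nat_lit 0) .nil)))))))) (.g (nat_lit 8) .nil .nil)))))) 
(.nd (nat_lit 3) (.nd (nat_lit 4) (.nd (nat_lit 5) 
(.lf (nat_lit 118918) (.g (nat_lit 4380) (.e (nat_lit 6420) (nat_lit 341) (.e (nat_lit 163902) (nat_lit 12) (.e (nat_lit 426130) (nat_lit 3) (.e (nat_lit 204869) (nat_lit 29) (.e (nat_lit 360474) (nat_lit 8) (.e (nat_lit 557094) (nat_lit 12) (.e (nat_lit 163849) (nat_lit 0) .nil))))))) (.g (nat_lit 5) .nil .nil))) 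
(.lf (nat_lit 118950) (.g (nat_lit 1770) (.e (nat_lit 6420) (nat_lit 341) (.e (nat_lit 163902) (nat_lit 12) (.e (nat_lit 426131) (nat_lit 3) (.e (nat_lit 204870) (nat_lit 29) .nil)))) .nil))) (.nd (nat_lit 5) 
(.lf (nat_lit 118934) (.g (nat_lit 4054) (.e (nat_lit 6420) (nat_lit 341) (.e (nat_lit 163902) (nat_lit 12) (.e (nat_lit 426131) (nat_lit 3) (.e (nat_lit 204868) (nat_lit 29) (.e (nat_lit 360473) (nat_lit 8) (.e (nat_lit 557091) (nat_lit 12) (.e (nat_lit 163847) (nat_lit 0) .nil))))))) (.g (nat_lit 6) .nil .nil))) 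
(.lf (nat_lit 118966) (.g (nat_lit 2902) (.e (nat_lit 6420) (nat_lit 341) (.e (nat_lit 163902) (nat_lit 12) (.e (nat_lit 426436) (nat_lit 18) (.e (nat_lit 98353) (nat_lit 25) (.e (nat_lit 417809) (nat_lit 6) (.e (nat_lit 286770) (nat_lit 28) (.e (nat_lit 434208) (nat_lit 18) .nil))))))) (.g (nat_lit 4) .nil .nil))))) (.nd (nat_lit 4) (.nd (nat_lit 5) 
(.lf (nat_lit 118926) (.g (nat_lit 3718) (.e (nat_lit 6420) (nat_lit 341) (.e (nat_lit 163902) (nat_lit 12) (.e (nat_lit 426131) (nat_lit 3) (.e (nat_lit 204855) (nat_lit 26) (.e (nat_lit 336176) (nat_lit 10) (.e (nat_lit 344130) (nat_lit 26) (.e (nat_lit 557090) (nat_lit 12) (.e (nat_lit 163844) (nat_lit 0) .nil)))))))) (.g (nat_lit 5) .nil .nil))) 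
(.lf (nat_lit 118958) (.g (nat_lit 4073) (.e (nat_lit 6420) (nat_lit 341) (.e (nat_lit 163902) (nat_lit 12) (.e (nat_lit 426428) (nat_lit 17) (.e (nat_lit 90170) (nat_lit 13) (.e (nat_lit 172124) (nat_lit 14) (.e (nat_lit 491584) (nat_lit 28) (.e (nat_lit 434208) (nat_lit 18) .nil))))))) (.g (nat_lit 0) .nil .nil)))) (.nd (nat_lit 5) 
(.lf (nat_lit 118942) (.g (nat_lit 5200) (.e (nat_lit 6420) (nat_lit 341) (.e (nat_lit 163902) (nat_lit 12) (.e (nat_lit 426131) (nat_lit 3) (.e (nat_lit 204869) (nat_lit 29) (.e (nat_lit 360474) (nat_lit 8) (.e (nat_lit 557094) (nat_lit 12) (.e (nat_lit 163849) (nat_lit 0) .nil))))))) (.g (nat_lit 5) .nil .nil))) 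
(.lf (nat_lit 118974) (.g (nat_lit 3651) (.e (nat_lit 6420) (nat_lit 341) (.e (nat_lit 163908) (nat_lit 12) (.e (nat_lit 426113) (nat_lit 2) (.e (nat_lit 196666) (nat_lit 13) (.e (nat_lit 65617) (nat_lit 10) (.e (nat_lit 344132) (nat_lit 26) (.e (nat_lit 557094) (nat_lit 12) (.e (nat_lit 163849) (nat_lit 0) .nil)))))))) (.g (nat_lit 7) .nil .nil)))))))) 
(.nd (nat_lit 1) (.nd (nat_lit 2) (.nd (nat_lit 3) (.nd (nat_lit 4) (.nd (nat_lit 5) 
(.lf (nat_lit 118913) (.g (nat_lit 1663) (.e (nat_lit 6420) (nat_lit 341) (.e (nat_lit 163902) (nat_lit 12) (.e (nat_lit 426130) (nat_lit 3) (.e (nat_lit 204855) (nat_lit 26) (.e (nat_lit 336176) (nat_lit 10) .nil))))) .nil)) 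
(.lf (nat_lit 118945) (.g (nat_lit 6817) (.e (nat_lit 6420) (nat_lit 341) (.e (nat_lit 163902) (nat_lit 12) (.e (nat_lit 426131) (nat_lit 3) (.e (nat_lit 204869) (nat_lit 29) (.e (nat_lit 360475) (nat_lit 8) (.e (nat_lit 557089) (nat_lit 12) (.e (nat_lit 163849) (nat_lit 0) .nil))))))) (.g (nat_lit 6) .nil .nil)))) (.nd (nat_lit 5) 
(.lf (nat_lit 118929) (.g (nat_lit 1558) (.e (nat_lit 6420) (nat_lit 341) (.e (nat_lit 163902) (nat_lit 12) (.e (nat_lit 426131) (nat_lit 3) (.e (nat_lit 204868) (nat_lit 29) .nil)))) .nil)) 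
(.lf (nat_lit 118961) (.g (nat_lit 3817) (.e (nat_lit 6420) (nat_lit 341) (.e (nat_lit 163902) (nat_lit 12) (.e (nat_lit 426428) (nat_lit 17) (.e (nat_lit 90170) (nat_lit 13) (.e (nat_lit 172126) (nat_lit 14) (.e (nat_lit 491584) (nat_lit 28) (.e (nat_lit 434206) (nat_lit 18) .nil))))))) (.g (nat_lit 6) .nil .nil))))) (.nd (nat_lit 4) (.nd (nat_lit 5) 
(.lf (nat_lit 118921) (.g (nat_lit 724) (.e (nat_lit 6420) (nat_lit 341) (.e (nat_lit 163902) (nat_lit 12) (.e (nat_lit 426131) (nat_lit 3) .nil))) .nil)) 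
(.lf (nat_lit 118953) (.g (nat_lit 4494) (.e (nat_lit 6420) (nat_lit 341) (.e (nat_lit 163902) (nat_lit 12) (.e (nat_lit 433920) (nat_lit 3) (.e (nat_lit 204869) (nat_lit 29) (.e (nat_lit 360475) (nat_lit 8) (.e (nat_lit 557089) (nat_lit 12) (.e (nat_lit 163849) (nat_lit 0) .nil))))))) (.g (nat_lit 6) .nil .nil)))) (.nd (nat_lit 5) 
(.lf (nat_lit 118937) (.g (nat_lit 3567) (.e (nat_lit 6420) (nat_lit 341) (.e (nat_lit 163902) (nat_lit 12) (.e (nat_lit 426131) (nat_lit 3) (.e (nat_lit 204868) (nat_lit 29) (.e (nat_lit 360473) (nat_lit 8) (.e (nat_lit 557094) (nat_lit 12) (.e (nat_lit 163847) (nat_lit 0) .nil))))))) (.g (nat_lit 6) .nil .nil))) 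
(.lf (nat_lit 118969) (.g (nat_lit 4570) (.e (nat_lit 6420) (nat_lit 341) (.e (nat_lit 163908) (nat_lit 12) (.e (nat_lit 426113) (nat_lit 2) (.e (nat_lit 196666) (nat_lit 13) (.e (nat_lit 65610) (nat_lit 10) (.e (nat_lit 344129) (nat_lit 26) (.e (nat_lit 557089) (nat_lit 12) (.e (nat_lit 163844) (nat_lit 0) .nil)))))))) (.g (nat_lit 0) .nil .nil)))))) 
(.nd (nat_lit 3) (.nd (nat_lit 4) (.nd (nat_lit 5) 
(.lf (nat_lit 118917) (.g (nat_lit 4491) (.e (nat_lit 6420) (nat_lit 341) (.e (nat_lit 163902) (nat_lit 12) (.e (nat_lit 426130) (nat_lit 3) (.e (nat_lit 204869) (nat_lit 29) (.e (nat_lit 360474) (nat_lit 8) (.e (nat_lit 557094) (nat_lit 12) (.e (nat_lit 163847) (nat_lit 0) .nil))))))) (.g (nat_lit 5) .nil .nil))) 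
(.lf (nat_lit 118949) (.g (nat_lit 5990) (.e (nat_lit 6420) (nat_lit 341) (.e (nat_lit 163902) (nat_lit 12) (.e (nat_lit 426131) (nat_lit 3) (.e (nat_lit 204869) (nat_lit 29) (.e (nat_lit 360475) (nat_lit 8) (.e (nat_lit 557091) (nat_lit 12) (.e (nat_lit 163849) (nat_lit 0) .nil))))))) (.g (nat_lit 5) .nil .nil)))) (.nd (nat_lit 5) 
(.lf (nat_lit 118933) (.g (nat_lit 4076) (.e (nat_lit 6420) (nat_lit 341) (.e (nat_lit 163902) (nat_lit 12) (.e (nat_lit 426131) (nat_lit 3) (.e (nat_lit 204868) (nat_lit 29) (.e (nat_lit 360473) (nat_lit 8) (.e (nat_lit 557089) (nat_lit 12) (.e (nat_lit 163849) (nat_lit 0) .nil))))))) (.g (nat_lit 6) .nil .nil))) 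
(.lf (nat_lit 118965) (.g (nat_lit 2837) (.e (nat_lit 6420) (nat_lit 341) (.e (nat_lit 163902) (nat_lit 12) (.e (nat_lit 426436) (nat_lit 18) (.e (nat_lit 98353) (nat_lit 25) (.e (nat_lit 417809) (nat_lit 6) (.e (nat_lit 286770) (nat_lit 28) (.e (nat_lit 434206) (nat_lit 18) .nil))))))) (.g (nat_lit 4) .nil .nil))))) (.nd (nat_lit 4) (.nd (nat_lit 5) 
(.lf (nat_lit 118925) (.g (nat_lit 4059) (.e (nat_lit 6420) (nat_lit 341) (.e (nat_lit 163902) (nat_lit 12) (.e (nat_lit 426131) (nat_lit 3) (.e (nat_lit 204855) (nat_lit 26) (.e (nat_lit 336176) (nat_lit 10) (.e (nat_lit 344130) (nat_lit 26) (.e (nat_lit 557090) (nat_lit 12) (.e (nat_lit 163843) (nat_lit 0) .nil)))))))) (.g (nat_lit 5) .nil .nil))) 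
(.lf (nat_lit 118957) (.g (nat_lit 3016) (.e (nat_lit 6420) (nat_lit 341) (.e (nat_lit 163902) (nat_lit 12) (.e (nat_lit 426428) (nat_lit 17) (.e (nat_lit 90170) (nat_lit 13) (.e (nat_lit 172124) (nat_lit 14) (.e (nat_lit 491584) (nat_lit 28) (.e (nat_lit 434206) (nat_lit 18) .nil))))))) (.g (nat_lit 5) .nil .nil)))) (.nd (nat_lit 5) 
(.lf (nat_lit 118941) (.g (nat_lit 5358) (.e (nat_lit 6420) (nat_lit 341) (.e (nat_lit 163902) (nat_lit 12) (.e (nat_lit 426131) (nat_lit 3) (.e (nat_lit 204869) (nat_lit 29) (.e (nat_lit 360474) (nat_lit 8) (.e (nat_lit 557094) (nat_lit 12) (.e (nat_lit 163847) (nat_lit 0) .nil))))))) (.g (nat_lit 5) .nil .nil))) 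
(.lf (nat_lit 118973) (.g (nat_lit 4045) (.e (nat_lit 6420) (nat_lit 341) (.e (nat_lit 163908) (nat_lit 12) (.e (nat_lit 426113) (nat_lit 2) (.e (nat_lit 196666) (nat_lit 13) (.e (nat_lit 65617) (nat_lit 10) (.e (nat_lit 344132) (nat_lit 26) (.e (nat_lit 557093) (nat_lit 12) (.e (nat_lit 163849) (nat_lit 0) .nil)))))))) (.g (nat_lit 0) .nil .nil))))))) 
(.nd (nat_lit 2) (.nd (nat_lit 3) (.nd (nat_lit 4) (.nd (nat_lit 5) 
(.lf (nat_lit 118915) (.g (nat_lit 2971) (.e (nat_lit 6420) (nat_lit 341) (.e (nat_lit 163902) (nat_lit 12) (.e (nat_lit 426130) (nat_lit 3) (.e (nat_lit 204868) (nat_lit 29) (.e (nat_lit 360473) (nat_lit 8) (.e (nat_lit 557091) (nat_lit 12) (.e (nat_lit 163847) (nat_lit 0) .nil))))))) (.g (nat_lit 5) .nil .nil))) 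
(.lf (nat_lit 118947) (.g (nat_lit 6635) (.e (nat_lit 6420) (nat_lit 341) (.e (nat_lit 163902) (nat_lit 12) (.e (nat_lit 426131) (nat_lit 3) (.e (nat_lit 204869) (nat_lit 29) (.e (nat_lit 360475) (nat_lit 8) (.e (nat_lit 557091) (nat_lit 12) (.e (nat_lit 163844) (nat_lit 0) .nil))))))) (.g (nat_lit 6) .nil .nil)))) (.nd (nat_lit 5) 
(.lf (nat_lit 118931) (.g (nat_lit 3439) (.e (nat_lit 6420) (nat_lit 341) (.e (nat_lit 163902) (nat_lit 12) (.e (nat_lit 426131) (nat_lit 3) (.e (nat_lit 204868) (nat_lit 29) (.e (nat_lit 360473) (nat_lit 8) (.e (nat_lit 557089) (nat_lit 12) (.e (nat_lit 163843) (nat_lit 0) .nil))))))) (.g (nat_lit 5) .nil .nil))) 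
(.lf (nat_lit 118963) (.g (nat_lit 2166) (.e (nat_lit 6420) (nat_lit 341) (.e (nat_lit 163902) (nat_lit 12) (.e (nat_lit 426428) (nat_lit 17) (.e (nat_lit 90185) (nat_lit 17) (.e (nat_lit 237625) (nat_lit 14) .nil))))) .nil)))) (.nd (nat_lit 4) (.nd (nat_lit 5) 
(.lf (nat_lit 118923) (.g (nat_lit 3054) (.e (nat_lit 6420) (nat_lit 341) (.e (nat_lit 163902) (nat_lit 12) (.e (nat_lit 426131) (nat_lit 3) (.e (nat_lit 204855) (nat_lit 26) (.e (nat_lit 336176) (nat_lit 10) (.e (nat_lit 344130) (nat_lit 26) (.e (nat_lit 557089) (nat_lit 12) (.e (nat_lit 163844) (nat_lit 0) .nil)))))))) (.g (nat_lit 4) .nil .nil))) 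
(.lf (nat_lit 118955) (.g (nat_lit 1726) (.e (nat_lit 6420) (nat_lit 341) (.e (nat_lit 163902) (nat_lit 12) (.e (nat_lit 426273) (nat_lit 10) (.e (nat_lit 434291) (nat_lit 44) (.e (nat_lit 704737) (nat_lit 11) .nil))))) .nil))) (.nd (nat_lit 5) 
(.lf (nat_lit 118939) (.g (nat_lit 5663) (.e (nat_lit 6420) (nat_lit 341) (.e (nat_lit 163902) (nat_lit 12) (.e (nat_lit 426131) (nat_lit 3) (.e (nat_lit 204868) (nat_lit 29) (.e (nat_lit 360475) (nat_lit 8) (.e (nat_lit 557091) (nat_lit 12) (.e (nat_lit 163843) (nat_lit 0) .nil))))))) (.g (nat_lit 6) .nil .nil))) 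
(.lf (nat_lit 118971) (.g (nat_lit 4665) (.e (nat_lit 6420) (nat_lit 341) (.e (nat_lit 163908) (nat_lit 12) (.e (nat_lit 426113) (nat_lit 2) (.e (nat_lit 196666) (nat_lit 13) (.e (nat_lit 65617) (nat_lit 10) (.e (nat_lit 344127) (nat_lit 26) (.e (nat_lit 557090) (nat_lit 12) (.e (nat_lit 163843) (nat_lit 0) .nil)))))))) (.g (nat_lit 8) .nil .nil)))))) 
(.nd (nat_lit 3) (.nd (nat_lit 4) (.nd (nat_lit 5) 
(.lf (nat_lit 118919) (.g (nat_lit 6698) (.e (nat_lit 6420) (nat_lit 341) (.e (nat_lit 163902) (nat_lit 12) (.e (nat_lit 426130) (nat_lit 3) (.e (nat_lit 204869) (nat_lit 29) (.e (nat_lit 360475) (nat_lit 8) (.e (nat_lit 557091) (nat_lit 12) (.e (nat_lit 163843) (nat_lit 0) .nil))))))) (.g (nat_lit 7) .nil .nil))) 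
(.lf (nat_lit 118951) (.g (nat_lit 3055) (.e (nat_lit 6420) (nat_lit 341) (.e (nat_lit 163902) (nat_lit 12) (.e (nat_lit 433920) (nat_lit 3) (.e (nat_lit 204869) (nat_lit 29) (.e (nat_lit 360474) (nat_lit 8) (.e (nat_lit 557089) (nat_lit 12) (.e (nat_lit 163849) (nat_lit 0) .nil))))))) (.g (nat_lit 5) .nil .nil)))) (.nd (nat_lit 5) 
(.lf (nat_lit 118935) (.g (nat_lit 3368) (.e (nat_lit 6420) (nat_lit 341) (.e (nat_lit 163902) (nat_lit 12) (.e (nat_lit 426131) (nat_lit 3) (.e (nat_lit 204868) (nat_lit 29) (.e (nat_lit 360473) (nat_lit 8) (.e (nat_lit 557091) (nat_lit 12) (.e (nat_lit 163849) (nat_lit 0) .nil))))))) (.g (nat_lit 5) .nil .nil))) 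
(.lf (nat_lit 118967) (.g (nat_lit 934) (.e (nat_lit 6420) (nat_lit 341) (.e (nat_lit 163902) (nat_lit 12) (.e (nat_lit 426464) (nat_lit 23) .nil))) .nil)))) (.nd (nat_lit 4) (.nd (nat_lit 5) 
(.lf (nat_lit 118927) (.g (nat_lit 2908) (.e (nat_lit 6420) (nat_lit 341) (.e (nat_lit 163902) (nat_lit 12) (.e (nat_lit 426131) (nat_lit 3) (.e (nat_lit 204855) (nat_lit 26) (.e (nat_lit 336176) (nat_lit 10) (.e (nat_lit 344132) (nat_lit 26) (.e (nat_lit 557093) (nat_lit 12) (.e (nat_lit 163849) (nat_lit 0) .nil)))))))) (.g (nat_lit 4) .nil .nil))) 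
(.lf (nat_lit 118959) (.g (nat_lit 3030) (.e (nat_lit 6420) (nat_lit 341) (.e (nat_lit 163902) (nat_lit 12) (.e (nat_lit 426428) (nat_lit 17) (.e (nat_lit 90170) (nat_lit 13) (.e (nat_lit 172125) (nat_lit 14) (.e (nat_lit 491584) (nat_lit 28) (.e (nat_lit 434206) (nat_lit 18) .nil))))))) (.g (nat_lit 5) .nil .nil)))) (.nd (nat_lit 5) 
(.lf (nat_lit 118943) (.g (nat_lit 6137) (.e (nat_lit 6420) (nat_lit 341) (.e (nat_lit 163902) (nat_lit 12) (.e (nat_lit 426131) (nat_lit 3) (.e (nat_lit 204869) (nat_lit 29) (.e (nat_lit 360475) (nat_lit 8) (.e (nat_lit 557089) (nat_lit 12) (.e (nat_lit 163843) (nat_lit 0) .nil))))))) (.g (nat_lit 5) .nil .nil))) 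
(.lf (nat_lit 118975) (.g (nat_lit 4162) (.e (nat_lit 6420) (nat_lit 341) (.e (nat_lit 163908) (nat_lit 12) (.e (nat_lit 426113) (nat_lit 2) (.e (nat_lit 196666) (nat_lit 13) (.e (nat_lit 65617) (nat_lit 10) (.e (nat_lit 344133) (nat_lit 26) (.e (nat_lit 557089) (nat_lit 12) (.e (nat_lit 163844) (nat_lit 0) .nil)))))))) (.g (nat_lit 0) .nil .nil)))))))))

noncomputable def tv1590 : DT := (.nd (nat_lit 0) (.nd (nat_lit 1) (.nd (nat_lit 2) (.nd (nat_lit 3) (.nd (nat_lit 4) (.nd (nat_lit 5) 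
(.lf (nat_lit 118976) (.g (nat_lit 4379) (.e (nat_lit 6420) (nat_lit 341) (.e (nat_lit 163908) (nat_lit 12) (.e (nat_lit 426113) (nat_lit 2) (.e (nat_lit 196666) (nat_lit 13) (.e (nat_lit 65617) (nat_lit 10) (.e (nat_lit 344133) (nat_lit 26) (.e (nat_lit 557091) (nat_lit 12) (.e (nat_lit 163844) (nat_lit 0) .nil)))))))) (.g (nat_lit 8) .nil .nil))) 
(.lf (nat_lit 119008) (.g (nat_lit 2536) (.e (nat_lit 6421) (nat_lit 341) (.e (nat_lit 163905) (nat_lit 12) (.e (nat_lit 426131) (nat_lit 3) (.e (nat_lit 204868) (nat_lit 29) (.e (nat_lit 360473) (nat_lit 8) (.e (nat_lit 557091) (nat_lit 12) (.e (nat_lit 163847) (nat_lit 0) .nil))))))) (.g (nat_lit 4) .nil .nil)))) (.nd (nat_lit 5) 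
(.lf (nat_lit 118992) (.g (nat_lit 3225) (.e (nat_lit 6420) (nat_lit 341) (.e (nat_lit 163927) (nat_lit 16) (.e (nat_lit 458789) (nat_lit 23) (.e (nat_lit 532549) (nat_lit 12) (.e (nat_lit 360473) (nat_lit 8) (.e (nat_lit 557093) (nat_lit 12) (.e (nat_lit 163849) (nat_lit 0) .nil))))))) (.g (nat_lit 6) .nil .nil))) 
(.lf (nat_lit 119024) (.g (nat_lit 6181) (.e (nat_lit 6421) (nat_lit 341) (.e (nat_lit 163926) (nat_lit 16) (.e (nat_lit 458789) (nat_lit 23) (.e (nat_lit 532550) (nat_lit 12) (.e (nat_lit 360475) (nat_lit 8) (.e (nat_lit 557091) (nat_lit 12) (.e (nat_lit 163847) (nat_lit 0) .nil))))))) (.g (nat_lit 6) .nil .nil))))) (.nd (nat_lit 4) (.nd (nat_lit 5) 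
(.lf (nat_lit 118984) (.g (nat_lit 5049) (.e (nat_lit 6420) (nat_lit 341) (.e (nat_lit 163926) (nat_lit 16) (.e (nat_lit 458789) (nat_lit 23) (.e (nat_lit 532550) (nat_lit 12) (.e (nat_lit 360474) (nat_lit 8) (.e (nat_lit 557094) (nat_lit 12) (.e (nat_lit 163847) (nat_lit 0) .nil))))))) (.g (nat_lit 5) .nil .nil))) 
(.lf (nat_lit 119016) (.g (nat_lit 3226) (.e (nat_lit 6421) (nat_lit 341) (.e (nat_lit 163926) (nat_lit 16) (.e (nat_lit 458789) (nat_lit 23) (.e (nat_lit 532549) (nat_lit 12) (.e (nat_lit 360473) (nat_lit 8) (.e (nat_lit 557094) (nat_lit 12) (.e (nat_lit 163847) (nat_lit 0) .nil))))))) (.g (nat_lit 5) .nil .nil)))) (.nd (nat_lit 5) 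
(.lf (nat_lit 119000) (.g (nat_lit 6023) (.e (nat_lit 6420) (nat_lit 341) (.e (nat_lit 163927) (nat_lit 16) (.e (nat_lit 458789) (nat_lit 23) (.e (nat_lit 532550) (nat_lit 12) (.e (nat_lit 360475) (nat_lit 8) (.e (nat_lit 557091) (nat_lit 12) (.e (nat_lit 163844) (nat_lit 0) .nil))))))) (.g (nat_lit 6) .nil .nil))) 
(.lf (nat_lit 119032) (.g (nat_lit 449) (.e (nat_lit 6421) (nat_lit 341) (.e (nat_lit 163941) (nat_lit 19) (.e (nat_lit 491264) (nat_lit 11) .nil))) .nil))))) (.nd (nat_lit 3) (.nd (nat_lit 4) (.nd (nat_lit 5) 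
(.lf (nat_lit 118980) (.g (nat_lit 4714) (.e (nat_lit 6420) (nat_lit 341) (.e (nat_lit 163908) (nat_lit 12) (.e (nat_lit 426135) (nat_lit 3) (.e (nat_lit 204869) (nat_lit 29) (.e (nat_lit 360475) (nat_lit 8) (.e (nat_lit 557089) (nat_lit 12) (.e (nat_lit 163844) (nat_lit 0) .nil))))))) (.g (nat_lit 5) .nil .nil))) 
(.lf (nat_lit 119012) (.g (nat_lit 4223) (.e (nat_lit 6421) (nat_lit 341) (.e (nat_lit 163926) (nat_lit 16) (.e (nat_lit 458789) (nat_lit 23) (.e (nat_lit 532549) (nat_lit 12) (.e (nat_lit 360473) (nat_lit 8) (.e (nat_lit 557089) (nat_lit 12) (.e (nat_lit 163843) (nat_lit 0) .nil))))))) (.g (nat_lit 6) .nil .nil)))) (.nd (nat_lit 5) 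
(.lf (nat_lit 118996) (.g (nat_lit 4865) (.e (nat_lit 6420) (nat_lit 341) (.e (nat_lit 163927) (nat_lit 16) (.e (nat_lit 458789) (nat_lit 23) (.e (nat_lit 532550) (nat_lit 12) (.e (nat_lit 360474) (nat_lit 8) (.e (nat_lit 557094) (nat_lit 12) (.e (nat_lit 163849) (nat_lit 0) .nil))))))) (.g (nat_lit 5) .nil .nil))) 
(.lf (nat_lit 119028) (.g (nat_lit 4851) (.e (nat_lit 6421) (nat_lit 341) (.e (nat_lit 163927) (nat_lit 16) (.e (nat_lit 458789) (nat_lit 23) (.e (nat_lit 532550) (nat_lit 12) (.e (nat_lit 360474) (nat_lit 8) (.e (nat_lit 557094) (nat_lit 12) (.e (nat_lit 163847) (nat_lit 0) .nil))))))) (.g (nat_lit 5) .nil .nil))))) (.nd (nat_lit 4) (.nd (nat_lit 5) 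
(.lf (nat_lit 118988) (.g (nat_lit 5850) (.e (nat_lit 6420) (nat_lit 341) (.e (nat_lit 163926) (nat_lit 16) (.e (nat_lit 458789) (nat_lit 23) (.e (nat_lit 532550) (nat_lit 12) (.e (nat_lit 360475) (nat_lit 8) (.e (nat_lit 557091) (nat_lit 12) (.e (nat_lit 163847) (nat_lit 0) .nil))))))) (.g (nat_lit 6) .nil .nil))) 
(.lf (nat_lit 119020) (.g (nat_lit 5025) (.e (nat_lit 6421) (nat_lit 341) (.e (nat_lit 163926) (nat_lit 16) (.e (nat_lit 458789) (nat_lit 23) (.e (nat_lit 532550) (nat_lit 12) (.e (nat_lit 360474) (nat_lit 8) (.e (nat_lit 557094) (nat_lit 12) (.e (nat_lit 163849) (nat_lit 0) .nil))))))) (.g (nat_lit 5) .nil .nil)))) (.nd (nat_lit 5) 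
(.lf (nat_lit 119004) (.g (nat_lit 759) (.e (nat_lit 6421) (nat_lit 341) (.e (nat_lit 163902) (nat_lit 12) (.e (nat_lit 426428) (nat_lit 17) .nil))) .nil)) 
(.lf (nat_lit 119036) (.g (nat_lit 3119) (.e (nat_lit 6425) (nat_lit 342) (.e (nat_lit 229402) (nat_lit 12) (.e (nat_lit 426120) (nat_lit 2) (.e (nat_lit 196666) (nat_lit 13) (.e (nat_lit 65617) (nat_lit 10) (.e (nat_lit 344130) (nat_lit 26) (.e (nat_lit 557089) (nat_lit 12) (.e (nat_lit 163850) (nat_lit 0) .nil)))))))) (.g (nat_lit 5) .nil .nil))))))) 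
(.nd (nat_lit 2) (.nd (nat_lit 3) (.nd (nat_lit 4) (.nd (nat_lit 5) 
(.lf (nat_lit 118978) (.g (nat_lit 2943) (.e (nat_lit 6420) (nat_lit 341) (.e (nat_lit 163908) (nat_lit 12) (.e (nat_lit 426120) (nat_lit 2) (.e (nat_lit 196666) (nat_lit 13) (.e (nat_lit 65617) (nat_lit 10) (.e (nat_lit 344133) (nat_lit 26) (.e (nat_lit 557089) (nat_lit 12) (.e (nat_lit 163844) (nat_lit 0) .nil)))))))) (.g (nat_lit 5) .nil .nil))) 
(.lf (nat_lit 119010) (.g (nat_lit 3858) (.e (nat_lit 6421) (nat_lit 341) (.e (nat_lit 163911) (nat_lit 12) (.e (nat_lit 426125) (nat_lit 2) (.e (nat_lit 196666) (nat_lit 13) (.e (nat_lit 65617) (nat_lit 10) (.e (nat_lit 344127) (nat_lit 26) (.e (nat_lit 557090) (nat_lit 12) (.e (nat_lit 163843) (nat_lit 0) .nil)))))))) (.g (nat_lit 5) .nil .nil)))) (.nd (nat_lit 5) 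
(.lf (nat_lit 118994) (.g (nat_lit 3000) (.e (nat_lit 6420) (nat_lit 341) (.e (nat_lit 163927) (nat_lit 16) (.e (nat_lit 458789) (nat_lit 23) (.e (nat_lit 532549) (nat_lit 12) (.e (nat_lit 360473) (nat_lit 8) (.e (nat_lit 557094) (nat_lit 12) (.e (nat_lit 163849) (nat_lit 0) .nil))))))) (.g (nat_lit 5) .nil .nil))) 
(.lf (nat_lit 119026) (.g (nat_lit 2910) (.e (nat_lit 6421) (nat_lit 341) (.e (nat_lit 163927) (nat_lit 16) (.e (nat_lit 458789) (nat_lit 23) (.e (nat_lit 532549) (nat_lit 12) (.e (nat_lit 360473) (nat_lit 8) (.e (nat_lit 557093) (nat_lit 12) (.e (nat_lit 163849) (nat_lit 0) .nil))))))) (.g (nat_lit 5) .nil .nil))))) (.nd (nat_lit 4) (.nd (nat_lit 5) 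
(.lf (nat_lit 118986) (.g (nat_lit 5858) (.e (nat_lit 6420) (nat_lit 341) (.e (nat_lit 163926) (nat_lit 16) (.e (nat_lit 458789) (nat_lit 23) (.e (nat_lit 532550) (nat_lit 12) (.e (nat_lit 360475) (nat_lit 8) (.e (nat_lit 557089) (nat_lit 12) (.e (nat_lit 163849) (nat_lit 0) .nil))))))) (.g (nat_lit 6) .nil .nil))) 
(.lf (nat_lit 119018) (.g (nat_lit 5062) (.e (nat_lit 6421) (nat_lit 341) (.e (nat_lit 163926) (nat_lit 16) (.e (nat_lit 458789) (nat_lit 23) (.e (nat_lit 532550) (nat_lit 12) (.e (nat_lit 360474) (nat_lit 8) (.e (nat_lit 557093) (nat_lit 12) (.e (nat_lit 163849) (nat_lit 0) .nil))))))) (.g (nat_lit 5) .nil .nil)))) (.nd (nat_lit 5) 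
(.lf (nat_lit 119002) (.g (nat_lit 733) (.e (nat_lit 6421) (nat_lit 341) (.e (nat_lit 163902) (nat_lit 12) (.e (nat_lit 426227) (nat_lit 9) .nil))) .nil)) 
(.lf (nat_lit 119034) (.g (nat_lit 3928) (.e (nat_lit 6425) (nat_lit 342) (.e (nat_lit 229402) (nat_lit 12) (.e (nat_lit 426113) (nat_lit 2) (.e (nat_lit 196666) (nat_lit 13) (.e (nat_lit 65617) (nat_lit 10) (.e (nat_lit 344130) (nat_lit 26) (.e (nat_lit 557089) (nat_lit 12) (.e (nat_lit 163850) (nat_lit 0) .nil)))))))) (.g (nat_lit 6) .nil .nil)))))) 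
(.nd (nat_lit 3) (.nd (nat_lit 4) (.nd (nat_lit 5) 
(.lf (nat_lit 118982) (.g (nat_lit 2949) (.e (nat_lit 6420) (nat_lit 341) (.e (nat_lit 163926) (nat_lit 16) (.e (nat_lit 458789) (nat_lit 23) (.e (nat_lit 532549) (nat_lit 12) (.e (nat_lit 360473) (nat_lit 8) (.e (nat_lit 557093) (nat_lit 12) (.e (nat_lit 163849) (nat_lit 0) .nil))))))) (.g (nat_lit 5) .nil .nil))) 
(.lf (nat_lit 119014) (.g (nat_lit 3822) (.e (nat_lit 6421) (nat_lit 341) (.e (nat_lit 163926) (nat_lit 16) (.e (nat_lit 458789) (nat_lit 23) (.e (nat_lit 532549) (nat_lit 12) (.e (nat_lit 360473) (nat_lit 8) (.e (nat_lit 557091) (nat_lit 12) (.e (nat_lit 163847) (nat_lit 0) .nil))))))) (.g (nat_lit 6) .nil .nil)))) (.nd (nat_lit 5) 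
(.lf (nat_lit 118998) (.g (nat_lit 5957) (.e (nat_lit 6420) (nat_lit 341) (.e (nat_lit 163927) (nat_lit 16) (.e (nat_lit 458789) (nat_lit 23) (.e (nat_lit 532550) (nat_lit 12) (.e (nat_lit 360475) (nat_lit 8) (.e (nat_lit 557089) (nat_lit 12) (.e (nat_lit 163849) (nat_lit 0) .nil))))))) (.g (nat_lit 7) .nil .nil))) 
(.lf (nat_lit 119030) (.g (nat_lit 5526) (.e (nat_lit 6421) (nat_lit 341) (.e (nat_lit 163927) (nat_lit 16) (.e (nat_lit 458789) (nat_lit 23) (.e (nat_lit 532550) (nat_lit 12) (.e (nat_lit 360475) (nat_lit 8) (.e (nat_lit 557089) (nat_lit 12) (.e (nat_lit 163849) (nat_lit 0) .nil))))))) (.g (nat_lit 6) .nil .nil))))) (.nd (nat_lit 4) (.nd (nat_lit 5) 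
(.lf (nat_lit 118990) (.g (nat_lit 3711) (.e (nat_lit 6420) (nat_lit 341) (.e (nat_lit 163927) (nat_lit 16) (.e (nat_lit 458789) (nat_lit 23) (.e (nat_lit 532549) (nat_lit 12) (.e (nat_lit 360473) (nat_lit 8) (.e (nat_lit 557089) (nat_lit 12) (.e (nat_lit 163849) (nat_lit 0) .nil))))))) (.g (nat_lit 6) .nil .nil))) 
(.lf (nat_lit 119022) (.g (nat_lit 5999) (.e (nat_lit 6421) (nat_lit 341) (.e (nat_lit 163926) (nat_lit 16) (.e (nat_lit 458789) (nat_lit 23) (.e (nat_lit 532550) (nat_lit 12) (.e (nat_lit 360475) (nat_lit 8) (.e (nat_lit 557089) (nat_lit 12) (.e (nat_lit 163849) (nat_lit 0) .nil))))))) (.g (nat_lit 6) .nil .nil)))) (.nd (nat_lit 5) 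
(.lf (nat_lit 119006) (.g (nat_lit 2300) (.e (nat_lit 6421) (nat_lit 341) (.e (nat_lit 163905) (nat_lit 12) (.e (nat_lit 426131) (nat_lit 3) (.e (nat_lit 204868) (nat_lit 29) (.e (nat_lit 360473) (nat_lit 8) (.e (nat_lit 557089) (nat_lit 12) (.e (nat_lit 163849) (nat_lit 0) .nil))))))) (.g (nat_lit 4) .nil .nil))) 
(.lf (nat_lit 119038) (.g (nat_lit 2707) (.e (nat_lit 6425) (nat_lit 342) (.e (nat_lit 229409) (nat_lit 13) (.e (nat_lit 434245) (nat_lit 28) (.e (nat_lit 573451) (nat_lit 9) (.e (nat_lit 1401) (nat_lit 106) (.e (nat_lit 319531) (nat_lit 16) (.e (nat_lit 286770) (nat_lit 28) (.e (nat_lit 434212) (nat_lit 18) .nil)))))))) (.g (nat_lit 4) .nil .nil)))))))) 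
(.nd (nat_lit 1) (.nd (nat_lit 2) (.nd (nat_lit 3) (.nd (nat_lit 4) (.nd (nat_lit 5) 
(.lf (nat_lit 118977) (.g (nat_lit 3873) (.e (nat_lit 6420) (nat_lit 341) (.e (nat_lit 163908) (nat_lit 12) (.e (nat_lit 426113) (nat_lit 2) (.e (nat_lit 196666) (nat_lit 13) (.e (nat_lit 65617) (nat_lit 10) (.e (nat_lit 344133) (nat_lit 26) (.e (nat_lit 557091) (nat_lit 12) (.e (nat_lit 163849) (nat_lit 0) .nil)))))))) (.g (nat_lit 7) .nil .nil))) 
(.lf (nat_lit 119009) (.g (nat_lit 2724) (.e (nat_lit 6421) (nat_lit 341) (.e (nat_lit 163905) (nat_lit 12) (.e (nat_lit 426294) (nat_lit 11) (.e (nat_lit 458810) (nat_lit 43) (.e (nat_lit 696344) (nat_lit 8) (.e (nat_lit 172106) (nat_lit 10) (.e (nat_lit 434202) (nat_lit 18) .nil))))))) (.g (nat_lit 7) .nil .nil)))) (.nd (nat_lit 5) 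
(.lf (nat_lit 118993) (.g (nat_lit 3084) (.e (nat_lit 6420) (nat_lit 341) (.e (nat_lit 163927) (nat_lit 16) (.e (nat_lit 458789) (nat_lit 23) (.e (nat_lit 532549) (nat_lit 12) (.e (nat_lit 360473) (nat_lit 8) (.e (nat_lit 557094) (nat_lit 12) (.e (nat_lit 163847) (nat_lit 0) .nil))))))) (.g (nat_lit 6) .nil .nil))) 
(.lf (nat_lit 119025) (.g (nat_lit 3679) (.e (nat_lit 6421) (nat_lit 341) (.e (nat_lit 163927) (nat_lit 16) (.e (nat_lit 458789) (nat_lit 23) (.e (nat_lit 532549) (nat_lit 12) (.e (nat_lit 360473) (nat_lit 8) (.e (nat_lit 557089) (nat_lit 12) (.e (nat_lit 163844) (nat_lit 0) .nil))))))) (.g (nat_lit 6) .nil .nil))))) (.nd (nat_lit 4) (.nd (nat_lit 5) 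
(.lf (nat_lit 118985) (.g (nat_lit 6086) (.e (nat_lit 6420) (nat_lit 341) (.e (nat_lit 163926) (nat_lit 16) (.e (nat_lit 458789) (nat_lit 23) (.e (nat_lit 532550) (nat_lit 12) (.e (nat_lit 360475) (nat_lit 8) (.e (nat_lit 557089) (nat_lit 12) (.e (nat_lit 163844) (nat_lit 0) .nil))))))) (.g (nat_lit 7) .nil .nil))) 
(.lf (nat_lit 119017) (.g (nat_lit 2995) (.e (nat_lit 6421) (nat_lit 341) (.e (nat_lit 163926) (nat_lit 16) (.e (nat_lit 458789) (nat_lit 23) (.e (nat_lit 532549) (nat_lit 12) (.e (nat_lit 360473) (nat_lit 8) (.e (nat_lit 557094) (nat_lit 12) (.e (nat_lit 163849) (nat_lit 0) .nil))))))) (.g (nat_lit 5) .nil .nil)))) (.nd (nat_lit 5) 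
(.lf (nat_lit 119001) (.g (nat_lit 1641) (.e (nat_lit 6421) (nat_lit 341) (.e (nat_lit 163902) (nat_lit 12) (.e (nat_lit 426131) (nat_lit 3) (.e (nat_lit 204868) (nat_lit 29) .nil)))) .nil)) 
(.lf (nat_lit 119033) (.g (nat_lit 3584) (.e (nat_lit 6425) (nat_lit 342) (.e (nat_lit 229401) (nat_lit 12) (.e (nat_lit 426113) (nat_lit 2) (.e (nat_lit 196666) (nat_lit 13) (.e (nat_lit 65617) (nat_lit 10) (.e (nat_lit 344130) (nat_lit 26) (.e (nat_lit 557090) (nat_lit 12) (.e (nat_lit 163850) (nat_lit 0) .nil)))))))) (.g (nat_lit 5) .nil .nil)))))) 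
(.nd (nat_lit 3) (.nd (nat_lit 4) (.nd (nat_lit 5) 
(.lf (nat_lit 118981) (.g (nat_lit 2292) (.e (nat_lit 6420) (nat_lit 341) (.e (nat_lit 163910) (nat_lit 12) (.e (nat_lit 426125) (nat_lit 2) (.e (nat_lit 196666) (nat_lit 13) (.e (nat_lit 65610) (nat_lit 10) (.e (nat_lit 344129) (nat_lit 26) (.e (nat_lit 557090) (nat_lit 12) (.e (nat_lit 163843) (nat_lit 0) .nil)))))))) (.g (nat_lit 4) .nil .nil))) 
(.lf (nat_lit 119013) (.g (nat_lit 4009) (.e (nat_lit 6421) (nat_lit 341) (.e (nat_lit 163926) (nat_lit 16) (.e (nat_lit 458789) (nat_lit 23) (.e (nat_lit 532549) (nat_lit 12) (.e (nat_lit 360473) (nat_lit 8) (.e (nat_lit 557089) (nat_lit 12) (.e (nat_lit 163844) (nat_lit 0) .nil))))))) (.g (nat_lit 6) .nil .nil)))) (.nd (nat_lit 5) 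
(.lf (nat_lit 118997) (.g (nat_lit 6081) (.e (nat_lit 6420) (nat_lit 341) (.e (nat_lit 163927) (nat_lit 16) (.e (nat_lit 458789) (nat_lit 23) (.e (nat_lit 532550) (nat_lit 12) (.e (nat_lit 360475) (nat_lit 8) (.e (nat_lit 557089) (nat_lit 12) (.e (nat_lit 163844) (nat_lit 0) .nil))))))) (.g (nat_lit 7) .nil .nil))) 
(.lf (nat_lit 119029) (.g (nat_lit 5935) (.e (nat_lit 6421) (nat_lit 341) (.e (nat_lit 163927) (nat_lit 16) (.e (nat_lit 458789) (nat_lit 23) (.e (nat_lit 532550) (nat_lit 12) (.e (nat_lit 360475) (nat_lit 8) (.e (nat_lit 557089) (nat_lit 12) (.e (nat_lit 163844) (nat_lit 0) .nil))))))) (.g (nat_lit 6) .nil .nil))))) (.nd (nat_lit 4) (.nd (nat_lit 5) 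
(.lf (nat_lit 118989) (.g (nat_lit 3832) (.e (nat_lit 6420) (nat_lit 341) (.e (nat_lit 163927) (nat_lit 16) (.e (nat_lit 458789) (nat_lit 23) (.e (nat_lit 532549) (nat_lit 12) (.e (nat_lit 360473) (nat_lit 8) (.e (nat_lit 557089) (nat_lit 12) (.e (nat_lit 163844) (nat_lit 0) .nil))))))) (.g (nat_lit 7) .nil .nil))) 
(.lf (nat_lit 119021) (.g (nat_lit 6436) (.e (nat_lit 6421) (nat_lit 341) (.e (nat_lit 163926) (nat_lit 16) (.e (nat_lit 458789) (nat_lit 23) (.e (nat_lit 532550) (nat_lit 12) (.e (nat_lit 360475) (nat_lit 8) (.e (nat_lit 557089) (nat_lit 12) (.e (nat_lit 163844) (nat_lit 0) .nil))))))) (.g (nat_lit 7) .nil .nil)))) (.nd (nat_lit 5) 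
(.lf (nat_lit 119005) (.g (nat_lit 1936) (.e (nat_lit 6421) (nat_lit 341) (.e (nat_lit 163905) (nat_lit 12) (.e (nat_lit 426131) (nat_lit 3) (.e (nat_lit 204868) (nat_lit 29) (.e (nat_lit 360473) (nat_lit 8) .nil))))) .nil)) 
(.lf (nat_lit 119037) (.g (nat_lit 3532) (.e (nat_lit 6425) (nat_lit 342) (.e (nat_lit 229409) (nat_lit 13) (.e (nat_lit 434244) (nat_lit 28) (.e (nat_lit 573451) (nat_lit 9) (.e (nat_lit 1401) (nat_lit 106) (.e (nat_lit 319531) (nat_lit 16) (.e (nat_lit 286770) (nat_lit 28) (.e (nat_lit 434212) (nat_lit 18) .nil)))))))) (.g (nat_lit 4) .nil .nil))))))) 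
(.nd (nat_lit 2) (.nd (nat_lit 3) (.nd (nat_lit 4) (.nd (nat_lit 5) 
(.lf (nat_lit 118979) (.g (nat_lit 4711) (.e (nat_lit 6420) (nat_lit 341) (.e (nat_lit 163908) (nat_lit 12) (.e (nat_lit 426134) (nat_lit 3) (.e (nat_lit 204869) (nat_lit 29) (.e (nat_lit 360475) (nat_lit 8) (.e (nat_lit 557089) (nat_lit 12) (.e (nat_lit 163844) (nat_lit 0) .nil))))))) (.g (nat_lit 6) .nil .nil))) 
(.lf (nat_lit 119011) (.g (nat_lit 2730) (.e (nat_lit 6421) (nat_lit 341) (.e (nat_lit 163915) (nat_lit 12) (.e (nat_lit 426123) (nat_lit 2) (.e (nat_lit 196666) (nat_lit 13) (.e (nat_lit 65617) (nat_lit 10) .nil))))) .nil))) (.nd (nat_lit 5) 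
(.lf (nat_lit 118995) (.g (nat_lit 5058) (.e (nat_lit 6420) (nat_lit 341) (.e (nat_lit 163927) (nat_lit 16) (.e (nat_lit 458789) (nat_lit 23) (.e (nat_lit 532550) (nat_lit 12) (.e (nat_lit 360474) (nat_lit 8) (.e (nat_lit 557094) (nat_lit 12) (.e (nat_lit 163847) (nat_lit 0) .nil))))))) (.g (nat_lit 6) .nil .nil))) 
(.lf (nat_lit 119027) (.g (nat_lit 2866) (.e (nat_lit 6421) (nat_lit 341) (.e (nat_lit 163927) (nat_lit 16) (.e (nat_lit 458789) (nat_lit 23) (.e (nat_lit 532549) (nat_lit 12) (.e (nat_lit 360473) (nat_lit 8) (.e (nat_lit 557094) (nat_lit 12) (.e (nat_lit 163847) (nat_lit 0) .nil))))))) (.g (nat_lit 5) .nil .nil))))) (.nd (nat_lit 4) (.nd (nat_lit 5) 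
(.lf (nat_lit 118987) (.g (nat_lit 6674) (.e (nat_lit 6420) (nat_lit 341) (.e (nat_lit 163926) (nat_lit 16) (.e (nat_lit 458789) (nat_lit 23) (.e (nat_lit 532550) (nat_lit 12) (.e (nat_lit 360475) (nat_lit 8) (.e (nat_lit 557091) (nat_lit 12) (.e (nat_lit 163843) (nat_lit 0) .nil))))))) (.g (nat_lit 7) .nil .nil))) 
(.lf (nat_lit 119019) (.g (nat_lit 5360) (.e (nat_lit 6421) (nat_lit 341) (.e (nat_lit 163926) (nat_lit 16) (.e (nat_lit 458789) (nat_lit 23) (.e (nat_lit 532550) (nat_lit 12) (.e (nat_lit 360474) (nat_lit 8) (.e (nat_lit 557094) (nat_lit 12) (.e (nat_lit 163847) (nat_lit 0) .nil))))))) (.g (nat_lit 5) .nil .nil)))) (.nd (nat_lit 5) 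
(.lf (nat_lit 119003) (.g (nat_lit 727) (.e (nat_lit 6421) (nat_lit 341) (.e (nat_lit 163902) (nat_lit 12) (.e (nat_lit 426233) (nat_lit 9) .nil))) .nil)) 
(.lf (nat_lit 119035) (.g (nat_lit 4067) (.e (nat_lit 6425) (nat_lit 342) (.e (nat_lit 229402) (nat_lit 12) (.e (nat_lit 426113) (nat_lit 2) (.e (nat_lit 196666) (nat_lit 13) (.e (nat_lit 65617) (nat_lit 10) (.e (nat_lit 344133) (nat_lit 26) (.e (nat_lit 557089) (nat_lit 12) (.e (nat_lit 163850) (nat_lit 0) .nil)))))))) (.g (nat_lit 6) .nil .nil)))))) 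
(.nd (nat_lit 3) (.nd (nat_lit 4) (.nd (nat_lit 5) 
(.lf (nat_lit 118983) (.g (nat_lit 2915) (.e (nat_lit 6420) (nat_lit 341) (.e (nat_lit 163926) (nat_lit 16) (.e (nat_lit 458789) (nat_lit 23) (.e (nat_lit 532549) (nat_lit 12) (.e (nat_lit 360473) (nat_lit 8) (.e (nat_lit 557094) (nat_lit 12) (.e (nat_lit 163847) (nat_lit 0) .nil))))))) (.g (nat_lit 5) .nil .nil))) 
(.lf (nat_lit 119015) (.g (nat_lit 3211) (.e (nat_lit 6421) (nat_lit 341) (.e (nat_lit 163926) (nat_lit 16) (.e (nat_lit 458789) (nat_lit 23) (.e (nat_lit 532549) (nat_lit 12) (.e (nat_lit 360473) (nat_lit 8) (.e (nat_lit 557093) (nat_lit 12) (.e (nat_lit 163849) (nat_lit 0) .nil))))))) (.g (nat_lit 5) .nil .nil)))) (.nd (nat_lit 5) 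
(.lf (nat_lit 118999) (.g (nat_lit 6637) (.e (nat_lit 6420) (nat_lit 341) (.e (nat_lit 163927) (nat_lit 16) (.e (nat_lit 458789) (nat_lit 23) (.e (nat_lit 532550) (nat_lit 12) (.e (nat_lit 360475) (nat_lit 8) (.e (nat_lit 557091) (nat_lit 12) (.e (nat_lit 163843) (nat_lit 0) .nil))))))) (.g (nat_lit 0) .nil .nil))) 
(.lf (nat_lit 119031) (.g (nat_lit 5649) (.e (nat_lit 6421) (nat_lit 341) (.e (nat_lit 163927) (nat_lit 16) (.e (nat_lit 458789) (nat_lit 23) (.e (nat_lit 532550) (nat_lit 12) (.e (nat_lit 360475) (nat_lit 8) (.e (nat_lit 557091) (nat_lit 12) (.e (nat_lit 163847) (nat_lit 0) .nil))))))) (.g (nat_lit 6) .nil .nil))))) (.nd (nat_lit 4) (.nd (nat_lit 5) 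
(.lf (nat_lit 118991) (.g (nat_lit 3661) (.e (nat_lit 6420) (nat_lit 341) (.e (nat_lit 163927) (nat_lit 16) (.e (nat_lit 458789) (nat_lit 23) (.e (nat_lit 532549) (nat_lit 12) (.e (nat_lit 360473) (nat_lit 8) (.e (nat_lit 557091) (nat_lit 12) (.e (nat_lit 163847) (nat_lit 0) .nil))))))) (.g (nat_lit 6) .nil .nil))) 
(.lf (nat_lit 119023) (.g (nat_lit 6469) (.e (nat_lit 6421) (nat_lit 341) (.e (nat_lit 163926) (nat_lit 16) (.e (nat_lit 458789) (nat_lit 23) (.e (nat_lit 532550) (nat_lit 12) (.e (nat_lit 360475) (nat_lit 8) (.e (nat_lit 557091) (nat_lit 12) (.e (nat_lit 163844) (nat_lit 0) .nil))))))) (.g (nat_lit 6) .nil .nil)))) (.nd (nat_lit 5) 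
(.lf (nat_lit 119007) (.g (nat_lit 2306) (.e (nat_lit 6421) (nat_lit 341) (.e (nat_lit 163905) (nat_lit 12) (.e (nat_lit 426131) (nat_lit 3) (.e (nat_lit 204868) (nat_lit 29) (.e (nat_lit 360473) (nat_lit 8) (.e (nat_lit 557091) (nat_lit 12) (.e (nat_lit 163844) (nat_lit 0) .nil))))))) (.g (nat_lit 4) .nil .nil))) 
(.lf (nat_lit 119039) (.g (nat_lit 2856) (.e (nat_lit 6425) (nat_lit 342) (.e (nat_lit 229410) (nat_lit 14) (.e (nat_lit 442390) (nat_lit 11) (.e (nat_lit 336231) (nat_lit 14) (.e (nat_lit 401448) (nat_lit 10) (.e (nat_lit 434211) (nat_lit 18) .nil)))))) (.g (nat_lit 5) .nil .nil)))))))))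

noncomputable def tv1591 : DT := (.nd (nat_lit 0) (.nd (nat_lit 1) (.nd (nat_lit 2) (.nd (nat_lit 3) (.nd (nat_lit 4) (.nd (nat_lit 5) (.nd (nat_lit 6) 
(.lf (nat_lit 119040) (.g (nat_lit 2234) (.e (nat_lit 6425) (nat_lit 342) (.e (nat_lit 229410) (nat_lit 14) (.e (nat_lit 442390) (nat_lit 11) (.e (nat_lit 336232) (nat_lit 14) (.e (nat_lit 401448) (nat_lit 10) (.e (nat_lit 434199) (nat_lit 18) .nil)))))) (.g (nat_lit 4) .nil .nil))) 
(.lf (nat_lit 119104) (.g (nat_lit 2009) (.e (nat_lit 6457) (nat_lit 343) (.e (nat_lit 1659) (nat_lit 115) (.e (nat_lit 393301) (nat_lit 27) (.e (nat_lit 491558) (nat_lit 10) (.e (nat_lit 352000) (nat_lit 46) .nil))))) .nil))) (.nd (nat_lit 6) 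
(.lf (nat_lit 119072) (.g (nat_lit 4262) (.e (nat_lit 6437) (nat_lit 343) (.e (nat_lit 1656) (nat_lit 115) (.e (nat_lit 393301) (nat_lit 27) (.e (nat_lit 491559) (nat_lit 10) (.e (nat_lit 344096) (nat_lit 18) .nil))))) .nil)) 
(.lf (nat_lit 119136) (.g (nat_lit 677) (.e (nat_lit 6466) (nat_lit 343) (.e (nat_lit 1661) (nat_lit 115) (.e (nat_lit 393221) (nat_lit 0) .nil))) .nil)))) (.nd (nat_lit 5) (.nd (nat_lit 6) 
(.lf (nat_lit 119056) (.g (nat_lit 1677) (.e (nat_lit 6437) (nat_lit 343) (.e (nat_lit 1633) (nat_lit 114) (.e (nat_lit 385094) (nat_lit 49) (.e (nat_lit 778327) (nat_lit 6) (.e (nat_lit 81957) (nat_lit 24) .nil))))) .nil)) 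
(.lf (nat_lit 119120) (.g (nat_lit 1691) (.e (nat_lit 6466) (nat_lit 343) (.e (nat_lit 1638) (nat_lit 114) (.e (nat_lit 385067) (nat_lit 26) (.e (nat_lit 532499) (nat_lit 1) (.e (nat_lit 57847) (nat_lit 252) .nil))))) .nil))) (.nd (nat_lit 6) 
(.lf (nat_lit 119088) (.g (nat_lit 2013) (.e (nat_lit 6450) (nat_lit 343) (.e (nat_lit 1661) (nat_lit 115) (.e (nat_lit 393260) (nat_lit 21) (.e (nat_lit 409648) (nat_lit 18) .nil)))) .nil)) 
(.lf (nat_lit 119152) (.g (nat_lit 1563) (.e (nat_lit 6466) (nat_lit 343) (.e (nat_lit 1661) (nat_lit 115) (.e (nat_lit 393291) (nat_lit 26) (.e (nat_lit 475214) (nat_lit 42) .nil)))) .nil))))) (.nd (nat_lit 4) (.nd (nat_lit 5) (.nd (nat_lit 6) 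
(.lf (nat_lit 119048) (.g (nat_lit 2992) (.e (nat_lit 6436) (nat_lit 343) (.e (nat_lit 1665) (nat_lit 115) (.e (nat_lit 393301) (nat_lit 27) (.e (nat_lit 491559) (nat_lit 10) (.e (nat_lit 344095) (nat_lit 18) .nil))))) .nil)) 
(.lf (nat_lit 119112) (.g (nat_lit 2622) (.e (nat_lit 6457) (nat_lit 343) (.e (nat_lit 1659) (nat_lit 115) (.e (nat_lit 393301) (nat_lit 27) (.e (nat_lit 491560) (nat_lit 10) (.e (nat_lit 352000) (nat_lit 46) .nil))))) .nil))) (.nd (nat_lit 6) 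
(.lf (nat_lit 119080) (.g (nat_lit 2968) (.e (nat_lit 6450) (nat_lit 343) (.e (nat_lit 1659) (nat_lit 115) (.e (nat_lit 393301) (nat_lit 27) (.e (nat_lit 491559) (nat_lit 10) (.e (nat_lit 344095) (nat_lit 18) .nil))))) .nil)) 
(.lf (nat_lit 119144) (.g (nat_lit 1623) (.e (nat_lit 6466) (nat_lit 343) (.e (nat_lit 1661) (nat_lit 115) (.e (nat_lit 393225) (nat_lit 9) (.e (nat_lit 335996) (nat_lit 1) .nil)))) .nil)))) (.nd (nat_lit 5) (.nd (nat_lit 6) 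
(.lf (nat_lit 119064) (.g (nat_lit 1745) (.e (nat_lit 6437) (nat_lit 343) (.e (nat_lit 1656) (nat_lit 115) (.e (nat_lit 393300) (nat_lit 27) (.e (nat_lit 491558) (nat_lit 10) .nil)))) .nil)) 
(.lf (nat_lit 119128) (.g (nat_lit 1308) (.e (nat_lit 6466) (nat_lit 343) (.e (nat_lit 1638) (nat_lit 114) (.e (nat_lit 385093) (nat_lit 49) (.e (nat_lit 778323) (nat_lit 5) .nil)))) .nil))) (.nd (nat_lit 6) 
(.lf (nat_lit 119096) (.g (nat_lit 3120) (.e (nat_lit 6453) (nat_lit 343) (.e (nat_lit 1661) (nat_lit 115) (.e (nat_lit 393260) (nat_lit 21) (.e (nat_lit 409646) (nat_lit 18) (.e (nat_lit 303115) (nat_lit 1) .nil))))) .nil)) 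
(.lf (nat_lit 119160) (.g (nat_lit 2532) (.e (nat_lit 6469) (nat_lit 343) (.e (nat_lit 1661) (nat_lit 115) (.e (nat_lit 393225) (nat_lit 9) (.e (nat_lit 335995) (nat_lit 1) (.e (nat_lit 57847) (nat_lit 252) .nil))))) .nil)))))) (.nd (nat_lit 3) (.nd (nat_lit 4) (.nd (nat_lit 5) (.nd (nat_lit 6) 
(.lf (nat_lit 119044) (.g (nat_lit 5178) (.e (nat_lit 6434) (nat_lit 343) (.e (nat_lit 1288) (nat_lit 95) (.e (nat_lit 123182) (nat_lit 264) (.e (nat_lit 1183) (nat_lit 87) (.e (nat_lit 57480) (nat_lit 28) (.e (nat_lit 557108) (nat_lit 15) (.e (nat_lit 188452) (nat_lit 23) (.e (nat_lit 204816) (nat_lit 17) .nil)))))))) (.g (nat_lit 7) .nil .nil))) 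
(.lf (nat_lit 119108) (.g (nat_lit 2557) (.e (nat_lit 6457) (nat_lit 343) (.e (nat_lit 1659) (nat_lit 115) (.e (nat_lit 393301) (nat_lit 27) (.e (nat_lit 491560) (nat_lit 10) (.e (nat_lit 344094) (nat_lit 18) .nil))))) .nil))) (.nd (nat_lit 6) 
(.lf (nat_lit 119076) (.g (nat_lit 2598) (.e (nat_lit 6441) (nat_lit 343) (.e (nat_lit 1669) (nat_lit 116) (.e (nat_lit 401459) (nat_lit 13) (.e (nat_lit 483411) (nat_lit 27) (.e (nat_lit 401440) (nat_lit 9) .nil))))) .nil)) 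
(.lf (nat_lit 119140) (.g (nat_lit 1536) (.e (nat_lit 6466) (nat_lit 343) (.e (nat_lit 1661) (nat_lit 115) (.e (nat_lit 393225) (nat_lit 9) (.e (nat_lit 335995) (nat_lit 1) .nil)))) .nil)))) (.nd (nat_lit 5) (.nd (nat_lit 6) 
(.lf (nat_lit 119060) (.g (nat_lit 1752) (.e (nat_lit 6437) (nat_lit 343) (.e (nat_lit 1656) (nat_lit 115) (.e (nat_lit 393234) (nat_lit 17) (.e (nat_lit 7593) (nat_lit 407) (.e (nat_lit 73730) (nat_lit 0) .nil))))) .nil)) 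
(.lf (nat_lit 119124) (.g (nat_lit 2310) (.e (nat_lit 6466) (nat_lit 343) (.e (nat_lit 1638) (nat_lit 114) (.e (nat_lit 385068) (nat_lit 26) (.e (nat_lit 532503) (nat_lit 1) (.e (nat_lit 57847) (nat_lit 252) .nil))))) .nil))) (.nd (nat_lit 6) 
(.lf (nat_lit 119092) (.g (nat_lit 2638) (.e (nat_lit 6452) (nat_lit 343) (.e (nat_lit 1659) (nat_lit 115) (.e (nat_lit 393301) (nat_lit 27) (.e (nat_lit 491560) (nat_lit 10) (.e (nat_lit 344179) (nat_lit 44) .nil))))) .nil)) 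
(.lf (nat_lit 119156) (.g (nat_lit 2665) (.e (nat_lit 6466) (nat_lit 343) (.e (nat_lit 1661) (nat_lit 115) (.e (nat_lit 393299) (nat_lit 27) (.e (nat_lit 491560) (nat_lit 10) (.e (nat_lit 352000) (nat_lit 46) (.e (nat_lit 794625) (nat_lit 0) .nil)))))) (.g (nat_lit 4) .nil .nil)))))) (.nd (nat_lit 4) (.nd (nat_lit 5) (.nd (nat_lit 6) 
(.lf (nat_lit 119052) (.g (nat_lit 2351) (.e (nat_lit 6437) (nat_lit 343) (.e (nat_lit 1633) (nat_lit 114) (.e (nat_lit 385074) (nat_lit 31) (.e (nat_lit 573484) (nat_lit 13) (.e (nat_lit 65617) (nat_lit 10) .nil))))) .nil)) 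
(.lf (nat_lit 119116) (.g (nat_lit 2663) (.e (nat_lit 6461) (nat_lit 343) (.e (nat_lit 1659) (nat_lit 115) (.e (nat_lit 393301) (nat_lit 27) (.e (nat_lit 491559) (nat_lit 10) (.e (nat_lit 344096) (nat_lit 18) .nil))))) .nil))) (.nd (nat_lit 6) 
(.lf (nat_lit 119084) (.g (nat_lit 663) (.e (nat_lit 6450) (nat_lit 343) (.e (nat_lit 1661) (nat_lit 115) (.e (nat_lit 393251) (nat_lit 18) .nil))) .nil)) 
(.lf (nat_lit 119148) (.g (nat_lit 549) (.e (nat_lit 6466) (nat_lit 343) (.e (nat_lit 1661) (nat_lit 115) (.e (nat_lit 393260) (nat_lit 21) .nil))) .nil)))) (.nd (nat_lit 5) (.nd (nat_lit 6) 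
(.lf (nat_lit 119068) (.g (nat_lit 2687) (.e (nat_lit 6437) (nat_lit 343) (.e (nat_lit 1656) (nat_lit 115) (.e (nat_lit 393301) (nat_lit 27) (.e (nat_lit 491558) (nat_lit 10) (.e (nat_lit 344091) (nat_lit 18) .nil))))) .nil)) 
(.lf (nat_lit 119132) (.g (nat_lit 2588) (.e (nat_lit 6466) (nat_lit 343) (.e (nat_lit 1659) (nat_lit 115) (.e (nat_lit 393301) (nat_lit 27) (.e (nat_lit 491558) (nat_lit 10) (.e (nat_lit 352000) (nat_lit 46) (.e (nat_lit 794625) (nat_lit 0) .nil)))))) (.g (nat_lit 4) .nil .nil)))) (.nd (nat_lit 6) 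
(.lf (nat_lit 119100) (.g (nat_lit 2417) (.e (nat_lit 6456) (nat_lit 343) (.e (nat_lit 1661) (nat_lit 115) (.e (nat_lit 393260) (nat_lit 21) (.e (nat_lit 409643) (nat_lit 18) (.e (nat_lit 303115) (nat_lit 1) .nil))))) .nil)) 
(.lf (nat_lit 119164) (.g (nat_lit 2651) (.e (nat_lit 6470) (nat_lit 343) (.e (nat_lit 1659) (nat_lit 115) (.e (nat_lit 393301) (nat_lit 27) (.e (nat_lit 491560) (nat_lit 10) (.e (nat_lit 344179) (nat_lit 44) .nil))))) .nil))))))) (.nd (nat_lit 2) (.nd (nat_lit 3) (.nd (nat_lit 4) (.nd (nat_lit 5) (.nd (nat_lit 6) 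
(.lf (nat_lit 119042) (.g (nat_lit 6354) (.e (nat_lit 6425) (nat_lit 342) (.e (nat_lit 229416) (nat_lit 16) (.e (nat_lit 458789) (nat_lit 23) (.e (nat_lit 532550) (nat_lit 12) (.e (nat_lit 360475) (nat_lit 8) (.e (nat_lit 557091) (nat_lit 12) (.e (nat_lit 163850) (nat_lit 0) .nil))))))) (.g (nat_lit 5) .nil .nil))) 
(.lf (nat_lit 119106) (.g (nat_lit 2832) (.e (nat_lit 6457) (nat_lit 343) (.e (nat_lit 1659) (nat_lit 115) (.e (nat_lit 393301) (nat_lit 27) (.e (nat_lit 491560) (nat_lit 10) (.e (nat_lit 344087) (nat_lit 18) .nil))))) .nil))) (.nd (nat_lit 6) 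
(.lf (nat_lit 119074) (.g (nat_lit 1027) (.e (nat_lit 6441) (nat_lit 343) (.e (nat_lit 1667) (nat_lit 116) (.e (nat_lit 401459) (nat_lit 13) (.e (nat_lit 483411) (nat_lit 27) .nil)))) .nil)) 
(.lf (nat_lit 119138) (.g (nat_lit 2324) (.e (nat_lit 6466) (nat_lit 343) (.e (nat_lit 1661) (nat_lit 115) (.e (nat_lit 393225) (nat_lit 9) (.e (nat_lit 335986) (nat_lit 1) (.e (nat_lit 57847) (nat_lit 252) .nil))))) .nil)))) (.nd (nat_lit 5) (.nd (nat_lit 6) 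
(.lf (nat_lit 119058) (.g (nat_lit 2002) (.e (nat_lit 6437) (nat_lit 343) (.e (nat_lit 1656) (nat_lit 115) (.e (nat_lit 393225) (nat_lit 9) (.e (nat_lit 335996) (nat_lit 1) (.e (nat_lit 57931) (nat_lit 282) .nil))))) .nil)) 
(.lf (nat_lit 119122) (.g (nat_lit 3407) (.e (nat_lit 6466) (nat_lit 343) (.e (nat_lit 1638) (nat_lit 114) (.e (nat_lit 385068) (nat_lit 26) (.e (nat_lit 532501) (nat_lit 1) (.e (nat_lit 57851) (nat_lit 252) .nil))))) .nil))) (.nd (nat_lit 6) 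
(.lf (nat_lit 119090) (.g (nat_lit 2035) (.e (nat_lit 6450) (nat_lit 343) (.e (nat_lit 1661) (nat_lit 115) (.e (nat_lit 393260) (nat_lit 21) (.e (nat_lit 409649) (nat_lit 18) .nil)))) .nil)) 
(.lf (nat_lit 119154) (.g (nat_lit 1556) (.e (nat_lit 6466) (nat_lit 343) (.e (nat_lit 1661) (nat_lit 115) (.e (nat_lit 393299) (nat_lit 27) (.e (nat_lit 491560) (nat_lit 10) .nil)))) .nil))))) (.nd (nat_lit 4) (.nd (nat_lit 5) (.nd (nat_lit 6) 
(.lf (nat_lit 119050) (.g (nat_lit 2688) (.e (nat_lit 6436) (nat_lit 343) (.e (nat_lit 1669) (nat_lit 116) (.e (nat_lit 401459) (nat_lit 13) (.e (nat_lit 483410) (nat_lit 27) (.e (nat_lit 401440) (nat_lit 9) .nil))))) .nil)) 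
(.lf (nat_lit 119114) (.g (nat_lit 2426) (.e (nat_lit 6459) (nat_lit 343) (.e (nat_lit 1659) (nat_lit 115) (.e (nat_lit 393301) (nat_lit 27) (.e (nat_lit 491560) (nat_lit 10) (.e (nat_lit 344097) (nat_lit 18) .nil))))) .nil))) (.nd (nat_lit 6) 
(.lf (nat_lit 119082) (.g (nat_lit 3378) (.e (nat_lit 6450) (nat_lit 343) (.e (nat_lit 1659) (nat_lit 115) (.e (nat_lit 393301) (nat_lit 27) (.e (nat_lit 491560) (nat_lit 10) (.e (nat_lit 344088) (nat_lit 18) .nil))))) .nil)) 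
(.lf (nat_lit 119146) (.g (nat_lit 2137) (.e (nat_lit 6466) (nat_lit 343) (.e (nat_lit 1661) (nat_lit 115) (.e (nat_lit 393225) (nat_lit 9) (.e (nat_lit 335996) (nat_lit 1) (.e (nat_lit 57854) (nat_lit 252) .nil))))) .nil)))) (.nd (nat_lit 5) (.nd (nat_lit 6) 
(.lf (nat_lit 119066) (.g (nat_lit 2482) (.e (nat_lit 6437) (nat_lit 343) (.e (nat_lit 1656) (nat_lit 115) (.e (nat_lit 393300) (nat_lit 27) (.e (nat_lit 491560) (nat_lit 10) (.e (nat_lit 344090) (nat_lit 18) .nil))))) .nil)) 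
(.lf (nat_lit 119130) (.g (nat_lit 1231) (.e (nat_lit 6466) (nat_lit 343) (.e (nat_lit 1659) (nat_lit 115) (.e (nat_lit 393301) (nat_lit 27) (.e (nat_lit 491558) (nat_lit 10) .nil)))) .nil))) (.nd (nat_lit 6) 
(.lf (nat_lit 119098) (.g (nat_lit 1961) (.e (nat_lit 6453) (nat_lit 343) (.e (nat_lit 1661) (nat_lit 115) (.e (nat_lit 393260) (nat_lit 21) (.e (nat_lit 409649) (nat_lit 18) .nil)))) .nil)) 
(.lf (nat_lit 119162) (.g (nat_lit 1588) (.e (nat_lit 6469) (nat_lit 343) (.e (nat_lit 1661) (nat_lit 115) (.e (nat_lit 393225) (nat_lit 9) (.e (nat_lit 335996) (nat_lit 1) .nil)))) .nil)))))) (.nd (nat_lit 3) (.nd (nat_lit 4) (.nd (nat_lit 5) (.nd (nat_lit 6) 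
(.lf (nat_lit 119046) (.g (nat_lit 1582) (.e (nat_lit 6436) (nat_lit 343) (.e (nat_lit 1239) (nat_lit 91) (.e (nat_lit 90170) (nat_lit 13) (.e (nat_lit 179968) (nat_lit 20) .nil)))) .nil)) 
(.lf (nat_lit 119110) (.g (nat_lit 2533) (.e (nat_lit 6457) (nat_lit 343) (.e (nat_lit 1659) (nat_lit 115) (.e (nat_lit 393301) (nat_lit 27) (.e (nat_lit 491560) (nat_lit 10) (.e (nat_lit 344173) (nat_lit 42) .nil))))) .nil))) (.nd (nat_lit 6) 
(.lf (nat_lit 119078) (.g (nat_lit 2539) (.e (nat_lit 6450) (nat_lit 343) (.e (nat_lit 1659) (nat_lit 115) (.e (nat_lit 393301) (nat_lit 27) (.e (nat_lit 491558) (nat_lit 10) (.e (nat_lit 344091) (nat_lit 18) .nil))))) .nil)) 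
(.lf (nat_lit 119142) (.g (nat_lit 2353) (.e (nat_lit 6466) (nat_lit 343) (.e (nat_lit 1661) (nat_lit 115) (.e (nat_lit 393225) (nat_lit 9) (.e (nat_lit 335995) (nat_lit 1) (.e (nat_lit 57848) (nat_lit 252) .nil))))) .nil)))) (.nd (nat_lit 5) (.nd (nat_lit 6) 
(.lf (nat_lit 119062) (.g (nat_lit 2607) (.e (nat_lit 6437) (nat_lit 343) (.e (nat_lit 1656) (nat_lit 115) (.e (nat_lit 393251) (nat_lit 18) (.e (nat_lit 164179) (nat_lit 154) (.e (nat_lit 57409) (nat_lit 12) .nil))))) .nil)) 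
(.lf (nat_lit 119126) (.g (nat_lit 3067) (.e (nat_lit 6466) (nat_lit 343) (.e (nat_lit 1638) (nat_lit 114) (.e (nat_lit 385068) (nat_lit 26) (.e (nat_lit 532504) (nat_lit 1) (.e (nat_lit 57851) (nat_lit 252) .nil))))) .nil))) (.nd (nat_lit 6) 
(.lf (nat_lit 119094) (.g (nat_lit 2060) (.e (nat_lit 6453) (nat_lit 343) (.e (nat_lit 1661) (nat_lit 115) (.e (nat_lit 393260) (nat_lit 21) (.e (nat_lit 409643) (nat_lit 18) .nil)))) .nil)) 
(.lf (nat_lit 119158) (.g (nat_lit 3246) (.e (nat_lit 6469) (nat_lit 343) (.e (nat_lit 1638) (nat_lit 114) (.e (nat_lit 385067) (nat_lit 26) (.e (nat_lit 532501) (nat_lit 1) (.e (nat_lit 57851) (nat_lit 252) (.e (nat_lit 57445) (nat_lit 19) (.e (nat_lit 393221) (nat_lit 0) .nil))))))) (.g (nat_lit 7) .nil .nil)))))) (.nd (nat_lit 4) (.nd (nat_lit 5) (.nd (nat_lit 6) 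
(.lf (nat_lit 119054) (.g (nat_lit 2099) (.e (nat_lit 6437) (nat_lit 343) (.e (nat_lit 1633) (nat_lit 114) (.e (nat_lit 385094) (nat_lit 49) (.e (nat_lit 778323) (nat_lit 5) (.e (nat_lit 81664) (nat_lit 36) .nil))))) .nil)) 
(.lf (nat_lit 119118) (.g (nat_lit 3311) (.e (nat_lit 6461) (nat_lit 343) (.e (nat_lit 1659) (nat_lit 115) (.e (nat_lit 393301) (nat_lit 27) (.e (nat_lit 491560) (nat_lit 10) (.e (nat_lit 344095) (nat_lit 18) .nil))))) .nil))) (.nd (nat_lit 6) 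
(.lf (nat_lit 119086) (.g (nat_lit 2557) (.e (nat_lit 6450) (nat_lit 343) (.e (nat_lit 1661) (nat_lit 115) (.e (nat_lit 393260) (nat_lit 21) (.e (nat_lit 409645) (nat_lit 18) .nil)))) .nil)) 
(.lf (nat_lit 119150) (.g (nat_lit 2173) (.e (nat_lit 6466) (nat_lit 343) (.e (nat_lit 1661) (nat_lit 115) (.e (nat_lit 393260) (nat_lit 21) (.e (nat_lit 409649) (nat_lit 18) .nil)))) .nil)))) (.nd (nat_lit 5) (.nd (nat_lit 6) 
(.lf (nat_lit 119070) (.g (nat_lit 4235) (.e (nat_lit 6437) (nat_lit 343) (.e (nat_lit 1656) (nat_lit 115) (.e (nat_lit 393301) (nat_lit 27) (.e (nat_lit 491559) (nat_lit 10) (.e (nat_lit 344091) (nat_lit 18) .nil))))) .nil)) 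
(.lf (nat_lit 119134) (.g (nat_lit 3254) (.e (nat_lit 6466) (nat_lit 343) (.e (nat_lit 1659) (nat_lit 115) (.e (nat_lit 393301) (nat_lit 27) (.e (nat_lit 491560) (nat_lit 10) (.e (nat_lit 352000) (nat_lit 46) (.e (nat_lit 794624) (nat_lit 0) .nil)))))) (.g (nat_lit 4) .nil .nil)))) (.nd (nat_lit 6) 
(.lf (nat_lit 119102) (.g (nat_lit 1947) (.e (nat_lit 6457) (nat_lit 343) (.e (nat_lit 1659) (nat_lit 115) (.e (nat_lit 393301) (nat_lit 27) (.e (nat_lit 491558) (nat_lit 10) (.e (nat_lit 344090) (nat_lit 18) .nil))))) .nil)) 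
(.lf (nat_lit 119166) (.g (nat_lit 2558) (.e (nat_lit 6472) (nat_lit 343) (.e (nat_lit 1661) (nat_lit 115) (.e (nat_lit 393260) (nat_lit 21) (.e (nat_lit 409648) (nat_lit 18) (.e (nat_lit 303115) (nat_lit 1) .nil))))) .nil)))))))) (.nd (nat_lit 1) (.nd (nat_lit 2) (.nd (nat_lit 3) (.nd (nat_lit 4) (.nd (nat_lit 5) (.nd (nat_lit 6) 
(.lf (nat_lit 119041) (.g (nat_lit 3048) (.e (nat_lit 6425) (nat_lit 342) (.e (nat_lit 229415) (nat_lit 15) (.e (nat_lit 450601) (nat_lit 21) (.e (nat_lit 696344) (nat_lit 8) (.e (nat_lit 172112) (nat_lit 10) (.e (nat_lit 434212) (nat_lit 18) .nil)))))) (.g (nat_lit 4) .nil .nil))) 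
(.lf (nat_lit 119105) (.g (nat_lit 2625) (.e (nat_lit 6457) (nat_lit 343) (.e (nat_lit 1659) (nat_lit 115) (.e (nat_lit 393301) (nat_lit 27) (.e (nat_lit 491559) (nat_lit 10) (.e (nat_lit 344091) (nat_lit 18) .nil))))) .nil))) (.nd (nat_lit 6) 
(.lf (nat_lit 119073) (.g (nat_lit 3672) (.e (nat_lit 6437) (nat_lit 343) (.e (nat_lit 1656) (nat_lit 115) (.e (nat_lit 393301) (nat_lit 27) (.e (nat_lit 491560) (nat_lit 10) (.e (nat_lit 344087) (nat_lit 18) .nil))))) .nil)) 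
(.lf (nat_lit 119137) (.g (nat_lit 625) (.e (nat_lit 6466) (nat_lit 343) (.e (nat_lit 1661) (nat_lit 115) (.e (nat_lit 393225) (nat_lit 9) .nil))) .nil)))) (.nd (nat_lit 5) (.nd (nat_lit 6) 
(.lf (nat_lit 119057) (.g (nat_lit 2337) (.e (nat_lit 6437) (nat_lit 343) (.e (nat_lit 1656) (nat_lit 115) (.e (nat_lit 393225) (nat_lit 9) (.e (nat_lit 335995) (nat_lit 1) (.e (nat_lit 57931) (nat_lit 282) .nil))))) .nil)) 
(.lf (nat_lit 119121) (.g (nat_lit 2741) (.e (nat_lit 6466) (nat_lit 343) (.e (nat_lit 1638) (nat_lit 114) (.e (nat_lit 385068) (nat_lit 26) (.e (nat_lit 532499) (nat_lit 1) (.e (nat_lit 57849) (nat_lit 252) .nil))))) .nil))) (.nd (nat_lit 6) 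
(.lf (nat_lit 119089) (.g (nat_lit 2528) (.e (nat_lit 6450) (nat_lit 343) (.e (nat_lit 1661) (nat_lit 115) (.e (nat_lit 393260) (nat_lit 21) (.e (nat_lit 409648) (nat_lit 18) (.e (nat_lit 303115) (nat_lit 1) .nil))))) .nil)) 
(.lf (nat_lit 119153) (.g (nat_lit 628) (.e (nat_lit 6466) (nat_lit 343) (.e (nat_lit 1661) (nat_lit 115) (.e (nat_lit 393299) (nat_lit 27) .nil))) .nil))))) (.nd (nat_lit 4) (.nd (nat_lit 5) (.nd (nat_lit 6) 
(.lf (nat_lit 119049) (.g (nat_lit 2801) (.e (nat_lit 6436) (nat_lit 343) (.e (nat_lit 1665) (nat_lit 115) (.e (nat_lit 393301) (nat_lit 27) (.e (nat_lit 491560) (nat_lit 10) (.e (nat_lit 344096) (nat_lit 18) .nil))))) .nil)) 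
(.lf (nat_lit 119113) (.g (nat_lit 2847) (.e (nat_lit 6457) (nat_lit 343) (.e (nat_lit 1659) (nat_lit 115) (.e (nat_lit 393301) (nat_lit 27) (.e (nat_lit 491560) (nat_lit 10) (.e (nat_lit 352000) (nat_lit 46) (.e (nat_lit 794625) (nat_lit 0) .nil)))))) (.g (nat_lit 4) .nil .nil)))) (.nd (nat_lit 6) 
(.lf (nat_lit 119081) (.g (nat_lit 3234) (.e (nat_lit 6450) (nat_lit 343) (.e (nat_lit 1659) (nat_lit 115) (.e (nat_lit 393301) (nat_lit 27) (.e (nat_lit 491560) (nat_lit 10) (.e (nat_lit 344087) (nat_lit 18) .nil))))) .nil)) 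
(.lf (nat_lit 119145) (.g (nat_lit 2302) (.e (nat_lit 6466) (nat_lit 343) (.e (nat_lit 1661) (nat_lit 115) (.e (nat_lit 393225) (nat_lit 9) (.e (nat_lit 335996) (nat_lit 1) (.e (nat_lit 57851) (nat_lit 252) .nil))))) .nil)))) (.nd (nat_lit 5) (.nd (nat_lit 6) 
(.lf (nat_lit 119065) (.g (nat_lit 1490) (.e (nat_lit 6437) (nat_lit 343) (.e (nat_lit 1656) (nat_lit 115) (.e (nat_lit 393300) (nat_lit 27) (.e (nat_lit 491560) (nat_lit 10) .nil)))) .nil)) 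
(.lf (nat_lit 119129) (.g (nat_lit 1874) (.e (nat_lit 6466) (nat_lit 343) (.e (nat_lit 1638) (nat_lit 114) (.e (nat_lit 385093) (nat_lit 49) (.e (nat_lit 778323) (nat_lit 5) (.e (nat_lit 81664) (nat_lit 36) .nil))))) .nil))) (.nd (nat_lit 6) 
(.lf (nat_lit 119097) (.g (nat_lit 2646) (.e (nat_lit 6453) (nat_lit 343) (.e (nat_lit 1661) (nat_lit 115) (.e (nat_lit 393260) (nat_lit 21) (.e (nat_lit 409647) (nat_lit 18) .nil)))) .nil)) 
(.lf (nat_lit 119161) (.g (nat_lit 2318) (.e (nat_lit 6469) (nat_lit 343) (.e (nat_lit 1661) (nat_lit 115) (.e (nat_lit 393225) (nat_lit 9) (.e (nat_lit 335995) (nat_lit 1) (.e (nat_lit 57848) (nat_lit 252) .nil))))) .nil)))))) (.nd (nat_lit 3) (.nd (nat_lit 4) (.nd (nat_lit 5) (.nd (nat_lit 6) 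
(.lf (nat_lit 119045) (.g (nat_lit 583) (.e (nat_lit 6434) (nat_lit 343) (.e (nat_lit 1400) (nat_lit 106) (.e (nat_lit 319533) (nat_lit 16) .nil))) .nil)) 
(.lf (nat_lit 119109) (.g (nat_lit 2588) (.e (nat_lit 6457) (nat_lit 343) (.e (nat_lit 1659) (nat_lit 115) (.e (nat_lit 393301) (nat_lit 27) (.e (nat_lit 491560) (nat_lit 10) (.e (nat_lit 344099) (nat_lit 18) .nil))))) .nil))) (.nd (nat_lit 6) 
(.lf (nat_lit 119077) (.g (nat_lit 3268) (.e (nat_lit 6450) (nat_lit 343) (.e (nat_lit 1253) (nat_lit 92) (.e (nat_lit 98373) (nat_lit 29) (.e (nat_lit 450587) (nat_lit 10) (.e (nat_lit 573475) (nat_lit 12) (.e (nat_lit 57351) (nat_lit 0) (.e (nat_lit 7265) (nat_lit 384) (.e (nat_lit 57347) (nat_lit 0) .nil)))))))) (.g (nat_lit 5) .nil .nil))) 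
(.lf (nat_lit 119141) (.g (nat_lit 2567) (.e (nat_lit 6466) (nat_lit 343) (.e (nat_lit 1661) (nat_lit 115) (.e (nat_lit 393225) (nat_lit 9) (.e (nat_lit 335995) (nat_lit 1) (.e (nat_lit 57847) (nat_lit 252) .nil))))) .nil)))) (.nd (nat_lit 5) (.nd (nat_lit 6) 
(.lf (nat_lit 119061) (.g (nat_lit 1626) (.e (nat_lit 6437) (nat_lit 343) (.e (nat_lit 1656) (nat_lit 115) (.e (nat_lit 393234) (nat_lit 17) (.e (nat_lit 7593) (nat_lit 407) (.e (nat_lit 73731) (nat_lit 0) .nil))))) .nil)) 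
(.lf (nat_lit 119125) (.g (nat_lit 2523) (.e (nat_lit 6466) (nat_lit 343) (.e (nat_lit 1638) (nat_lit 114) (.e (nat_lit 385068) (nat_lit 26) (.e (nat_lit 532503) (nat_lit 1) (.e (nat_lit 57848) (nat_lit 252) .nil))))) .nil))) (.nd (nat_lit 6) 
(.lf (nat_lit 119093) (.g (nat_lit 475) (.e (nat_lit 6453) (nat_lit 343) (.e (nat_lit 1661) (nat_lit 115) (.e (nat_lit 393260) (nat_lit 21) .nil))) .nil)) 
(.lf (nat_lit 119157) (.g (nat_lit 2638) (.e (nat_lit 6468) (nat_lit 343) (.e (nat_lit 1659) (nat_lit 115) (.e (nat_lit 393301) (nat_lit 27) (.e (nat_lit 491560) (nat_lit 10) (.e (nat_lit 344179) (nat_lit 44) .nil))))) .nil))))) (.nd (nat_lit 4) (.nd (nat_lit 5) (.nd (nat_lit 6) 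
(.lf (nat_lit 119053) (.g (nat_lit 835) (.e (nat_lit 6437) (nat_lit 343) (.e (nat_lit 1633) (nat_lit 114) (.e (nat_lit 385093) (nat_lit 49) .nil))) .nil)) 
(.lf (nat_lit 119117) (.g (nat_lit 2582) (.e (nat_lit 6461) (nat_lit 343) (.e (nat_lit 1659) (nat_lit 115) (.e (nat_lit 393301) (nat_lit 27) (.e (nat_lit 491560) (nat_lit 10) (.e (nat_lit 344094) (nat_lit 18) .nil))))) .nil))) (.nd (nat_lit 6) 
(.lf (nat_lit 119085) (.g (nat_lit 2111) (.e (nat_lit 6450) (nat_lit 343) (.e (nat_lit 1661) (nat_lit 115) (.e (nat_lit 393260) (nat_lit 21) (.e (nat_lit 409643) (nat_lit 18) .nil)))) .nil)) 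
(.lf (nat_lit 119149) (.g (nat_lit 2302) (.e (nat_lit 6466) (nat_lit 343) (.e (nat_lit 1661) (nat_lit 115) (.e (nat_lit 393260) (nat_lit 21) (.e (nat_lit 409617) (nat_lit 10) .nil)))) .nil)))) (.nd (nat_lit 5) (.nd (nat_lit 6) 
(.lf (nat_lit 119069) (.g (nat_lit 2735) (.e (nat_lit 6437) (nat_lit 343) (.e (nat_lit 1656) (nat_lit 115) (.e (nat_lit 393301) (nat_lit 27) (.e (nat_lit 491558) (nat_lit 10) (.e (nat_lit 344096) (nat_lit 18) .nil))))) .nil)) 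
(.lf (nat_lit 119133) (.g (nat_lit 2882) (.e (nat_lit 6466) (nat_lit 343) (.e (nat_lit 1659) (nat_lit 115) (.e (nat_lit 393301) (nat_lit 27) (.e (nat_lit 491560) (nat_lit 10) (.e (nat_lit 352000) (nat_lit 46) .nil))))) .nil))) (.nd (nat_lit 6) 
(.lf (nat_lit 119101) (.g (nat_lit 2587) (.e (nat_lit 6456) (nat_lit 343) (.e (nat_lit 1661) (nat_lit 115) (.e (nat_lit 393260) (nat_lit 21) (.e (nat_lit 409645) (nat_lit 18) .nil)))) .nil)) 
(.lf (nat_lit 119165) (.g (nat_lit 2140) (.e (nat_lit 6472) (nat_lit 343) (.e (nat_lit 1661) (nat_lit 115) (.e (nat_lit 393260) (nat_lit 21) (.e (nat_lit 409643) (nat_lit 18) .nil)))) .nil))))))) (.nd (nat_lit 2) (.nd (nat_lit 3) (.nd (nat_lit 4) (.nd (nat_lit 5) (.nd (nat_lit 6) 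
(.lf (nat_lit 119043) (.g (nat_lit 632) (.e (nat_lit 6428) (nat_lit 342) (.e (nat_lit 229412) (nat_lit 14) (.e (nat_lit 442392) (nat_lit 20) .nil))) .nil)) 
(.lf (nat_lit 119107) (.g (nat_lit 2563) (.e (nat_lit 6457) (nat_lit 343) (.e (nat_lit 1659) (nat_lit 115) (.e (nat_lit 393301) (nat_lit 27) (.e (nat_lit 491560) (nat_lit 10) (.e (nat_lit 344091) (nat_lit 18) .nil))))) .nil))) (.nd (nat_lit 6) 
(.lf (nat_lit 119075) (.g (nat_lit 1367) (.e (nat_lit 6441) (nat_lit 343) (.e (nat_lit 1668) (nat_lit 116) (.e (nat_lit 401459) (nat_lit 13) (.e (nat_lit 483411) (nat_lit 27) .nil)))) .nil)) 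
(.lf (nat_lit 119139) (.g (nat_lit 2371) (.e (nat_lit 6466) (nat_lit 343) (.e (nat_lit 1661) (nat_lit 115) (.e (nat_lit 393225) (nat_lit 9) (.e (nat_lit 335988) (nat_lit 1) (.e (nat_lit 57854) (nat_lit 252) .nil))))) .nil)))) (.nd (nat_lit 5) (.nd (nat_lit 6) 
(.lf (nat_lit 119059) (.g (nat_lit 987) (.e (nat_lit 6437) (nat_lit 343) (.e (nat_lit 1656) (nat_lit 115) (.e (nat_lit 393234) (nat_lit 17) (.e (nat_lit 7591) (nat_lit 407) .nil)))) .nil)) 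
(.lf (nat_lit 119123) (.g (nat_lit 2399) (.e (nat_lit 6466) (nat_lit 343) (.e (nat_lit 1638) (nat_lit 114) (.e (nat_lit 385068) (nat_lit 26) (.e (nat_lit 532501) (nat_lit 1) (.e (nat_lit 57854) (nat_lit 252) .nil))))) .nil))) (.nd (nat_lit 6) 
(.lf (nat_lit 119091) (.g (nat_lit 2669) (.e (nat_lit 6450) (nat_lit 343) (.e (nat_lit 1661) (nat_lit 115) (.e (nat_lit 393260) (nat_lit 21) (.e (nat_lit 409649) (nat_lit 18) (.e (nat_lit 303115) (nat_lit 1) .nil))))) .nil)) 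
(.lf (nat_lit 119155) (.g (nat_lit 2606) (.e (nat_lit 6466) (nat_lit 343) (.e (nat_lit 1661) (nat_lit 115) (.e (nat_lit 393299) (nat_lit 27) (.e (nat_lit 491560) (nat_lit 10) (.e (nat_lit 352000) (nat_lit 46) .nil))))) .nil))))) (.nd (nat_lit 4) (.nd (nat_lit 5) (.nd (nat_lit 6) 
(.lf (nat_lit 119051) (.g (nat_lit 2611) (.e (nat_lit 6436) (nat_lit 343) (.e (nat_lit 1669) (nat_lit 116) (.e (nat_lit 401459) (nat_lit 13) (.e (nat_lit 483411) (nat_lit 27) (.e (nat_lit 401440) (nat_lit 9) .nil))))) .nil)) 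
(.lf (nat_lit 119115) (.g (nat_lit 2663) (.e (nat_lit 6461) (nat_lit 343) (.e (nat_lit 1659) (nat_lit 115) (.e (nat_lit 393301) (nat_lit 27) (.e (nat_lit 491559) (nat_lit 10) (.e (nat_lit 344094) (nat_lit 18) .nil))))) .nil))) (.nd (nat_lit 6) 
(.lf (nat_lit 119083) (.g (nat_lit 2964) (.e (nat_lit 6450) (nat_lit 343) (.e (nat_lit 1659) (nat_lit 115) (.e (nat_lit 393301) (nat_lit 27) (.e (nat_lit 491560) (nat_lit 10) (.e (nat_lit 344091) (nat_lit 18) .nil))))) .nil)) 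
(.lf (nat_lit 119147) (.g (nat_lit 1313) (.e (nat_lit 6466) (nat_lit 343) (.e (nat_lit 1661) (nat_lit 115) (.e (nat_lit 393238) (nat_lit 17) (.e (nat_lit 7107) (nat_lit 380) .nil)))) .nil)))) (.nd (nat_lit 5) (.nd (nat_lit 6) 
(.lf (nat_lit 119067) (.g (nat_lit 1803) (.e (nat_lit 6437) (nat_lit 343) (.e (nat_lit 1656) (nat_lit 115) (.e (nat_lit 393301) (nat_lit 27) (.e (nat_lit 491558) (nat_lit 10) .nil)))) .nil)) 
(.lf (nat_lit 119131) (.g (nat_lit 2302) (.e (nat_lit 6466) (nat_lit 343) (.e (nat_lit 1659) (nat_lit 115) (.e (nat_lit 393301) (nat_lit 27) (.e (nat_lit 491558) (nat_lit 10) (.e (nat_lit 352000) (nat_lit 46) .nil))))) .nil))) (.nd (nat_lit 6) 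
(.lf (nat_lit 119099) (.g (nat_lit 2736) (.e (nat_lit 6453) (nat_lit 343) (.e (nat_lit 1661) (nat_lit 115) (.e (nat_lit 393260) (nat_lit 21) (.e (nat_lit 409649) (nat_lit 18) (.e (nat_lit 303114) (nat_lit 1) .nil))))) .nil)) 
(.lf (nat_lit 119163) (.g (nat_lit 1628) (.e (nat_lit 6469) (nat_lit 343) (.e (nat_lit 1661) (nat_lit 115) (.e (nat_lit 393268) (nat_lit 23) (.e (nat_lit 426448) (nat_lit 20) .nil)))) .nil)))))) (.nd (nat_lit 3) (.nd (nat_lit 4) (.nd (nat_lit 5) (.nd (nat_lit 6) 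
(.lf (nat_lit 119047) (.g (nat_lit 2209) (.e (nat_lit 6436) (nat_lit 343) (.e (nat_lit 1665) (nat_lit 115) (.e (nat_lit 393301) (nat_lit 27) (.e (nat_lit 491558) (nat_lit 10) (.e (nat_lit 344090) (nat_lit 18) .nil))))) .nil)) 
(.lf (nat_lit 119111) (.g (nat_lit 2906) (.e (nat_lit 6457) (nat_lit 343) (.e (nat_lit 1659) (nat_lit 115) (.e (nat_lit 393301) (nat_lit 27) (.e (nat_lit 491560) (nat_lit 10) (.e (nat_lit 344174) (nat_lit 42) .nil))))) .nil))) (.nd (nat_lit 6) 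
(.lf (nat_lit 119079) (.g (nat_lit 2894) (.e (nat_lit 6450) (nat_lit 343) (.e (nat_lit 1659) (nat_lit 115) (.e (nat_lit 393301) (nat_lit 27) (.e (nat_lit 491559) (nat_lit 10) (.e (nat_lit 344091) (nat_lit 18) .nil))))) .nil)) 
(.lf (nat_lit 119143) (.g (nat_lit 2911) (.e (nat_lit 6466) (nat_lit 343) (.e (nat_lit 1661) (nat_lit 115) (.e (nat_lit 393225) (nat_lit 9) (.e (nat_lit 335995) (nat_lit 1) (.e (nat_lit 57849) (nat_lit 252) .nil))))) .nil)))) (.nd (nat_lit 5) (.nd (nat_lit 6) 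
(.lf (nat_lit 119063) (.g (nat_lit 533) (.e (nat_lit 6437) (nat_lit 343) (.e (nat_lit 1656) (nat_lit 115) (.e (nat_lit 393293) (nat_lit 26) .nil))) .nil)) 
(.lf (nat_lit 119127) (.g (nat_lit 502) (.e (nat_lit 6466) (nat_lit 343) (.e (nat_lit 1638) (nat_lit 114) (.e (nat_lit 385093) (nat_lit 49) .nil))) .nil))) (.nd (nat_lit 6) 
(.lf (nat_lit 119095) (.g (nat_lit 2553) (.e (nat_lit 6453) (nat_lit 343) (.e (nat_lit 1661) (nat_lit 115) (.e (nat_lit 393260) (nat_lit 21) (.e (nat_lit 409644) (nat_lit 18) .nil)))) .nil)) 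
(.lf (nat_lit 119159) (.g (nat_lit 3064) (.e (nat_lit 6469) (nat_lit 343) (.e (nat_lit 1638) (nat_lit 114) (.e (nat_lit 385068) (nat_lit 26) (.e (nat_lit 532504) (nat_lit 1) (.e (nat_lit 57851) (nat_lit 252) .nil))))) .nil))))) (.nd (nat_lit 4) (.nd (nat_lit 5) (.nd (nat_lit 6) 
(.lf (nat_lit 119055) (.g (nat_lit 1148) (.e (nat_lit 6437) (nat_lit 343) (.e (nat_lit 1633) (nat_lit 114) (.e (nat_lit 385094) (nat_lit 49) (.e (nat_lit 778324) (nat_lit 5) .nil)))) .nil)) 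
(.lf (nat_lit 119119) (.g (nat_lit 2875) (.e (nat_lit 6461) (nat_lit 343) (.e (nat_lit 1659) (nat_lit 115) (.e (nat_lit 393301) (nat_lit 27) (.e (nat_lit 491560) (nat_lit 10) (.e (nat_lit 344096) (nat_lit 18) .nil))))) .nil))) (.nd (nat_lit 6) 
(.lf (nat_lit 119087) (.g (nat_lit 2474) (.e (nat_lit 6450) (nat_lit 343) (.e (nat_lit 1661) (nat_lit 115) (.e (nat_lit 393260) (nat_lit 21) (.e (nat_lit 409646) (nat_lit 18) .nil)))) .nil)) 
(.lf (nat_lit 119151) (.g (nat_lit 2264) (.e (nat_lit 6466) (nat_lit 343) (.e (nat_lit 1661) (nat_lit 115) (.e (nat_lit 393268) (nat_lit 23) (.e (nat_lit 426448) (nat_lit 20) (.e (nat_lit 122624) (nat_lit 5) .nil))))) .nil)))) (.nd (nat_lit 5) (.nd (nat_lit 6) 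
(.lf (nat_lit 119071) (.g (nat_lit 4262) (.e (nat_lit 6437) (nat_lit 343) (.e (nat_lit 1656) (nat_lit 115) (.e (nat_lit 393301) (nat_lit 27) (.e (nat_lit 491559) (nat_lit 10) (.e (nat_lit 344094) (nat_lit 18) .nil))))) .nil)) 
(.lf (nat_lit 119135) (.g (nat_lit 2882) (.e (nat_lit 6466) (nat_lit 343) (.e (nat_lit 1659) (nat_lit 115) (.e (nat_lit 393301) (nat_lit 27) (.e (nat_lit 491560) (nat_lit 10) (.e (nat_lit 352000) (nat_lit 47) .nil))))) .nil))) (.nd (nat_lit 6) 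
(.lf (nat_lit 119103) (.g (nat_lit 2264) (.e (nat_lit 6457) (nat_lit 343) (.e (nat_lit 1659) (nat_lit 115) (.e (nat_lit 393301) (nat_lit 27) (.e (nat_lit 491558) (nat_lit 10) (.e (nat_lit 344100) (nat_lit 18) .nil))))) .nil)) 
(.lf (nat_lit 119167) (.g (nat_lit 2758) (.e (nat_lit 6472) (nat_lit 343) (.e (nat_lit 1661) (nat_lit 115) (.e (nat_lit 393260) (nat_lit 21) (.e (nat_lit 409649) (nat_lit 18) (.e (nat_lit 303115) (nat_lit 1) .nil))))) .nil)))))))))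

noncomputable def tv1592 : DT := (.nd (nat_lit 0) (.nd (nat_lit 1) (.nd (nat_lit 2) (.nd (nat_lit 3) (.nd (nat_lit 4) (.nd (nat_lit 5) (.nd (nat_lit 6) 
(.lf (nat_lit 119168) (.g (nat_lit 804) (.e (nat_lit 6475) (nat_lit 343) (.e (nat_lit 1633) (nat_lit 114) (.e (nat_lit 385093) (nat_lit 49) .nil))) .nil)) 
(.lf (nat_lit 119232) (.g (nat_lit 2177) (.e (nat_lit 6490) (nat_lit 343) (.e (nat_lit 1253) (nat_lit 92) (.e (nat_lit 98386) (nat_lit 32) (.e (nat_lit 475214) (nat_lit 42) (.e (nat_lit 720937) (nat_lit 22) .nil))))) .nil))) (.nd (nat_lit 6) 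
(.lf (nat_lit 119200) (.g (nat_lit 3696) (.e (nat_lit 6485) (nat_lit 343) (.e (nat_lit 1255) (nat_lit 92) (.e (nat_lit 98373) (nat_lit 29) (.e (nat_lit 450587) (nat_lit 10) (.e (nat_lit 573478) (nat_lit 12) (.e (nat_lit 57574) (nat_lit 55) (.e (nat_lit 778362) (nat_lit 9) (.e (nat_lit 3) (nat_lit 0) .nil)))))))) (.g (nat_lit 4) .nil .nil))) 
(.lf (nat_lit 119264) (.g (nat_lit 1753) (.e (nat_lit 6499) (nat_lit 343) (.e (nat_lit 1253) (nat_lit 92) (.e (nat_lit 98373) (nat_lit 29) (.e (nat_lit 450587) (nat_lit 10) (.e (nat_lit 573475) (nat_lit 12) .nil))))) .nil)))) (.nd (nat_lit 5) (.nd (nat_lit 6) 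
(.lf (nat_lit 119184) (.g (nat_lit 449) (.e (nat_lit 6478) (nat_lit 343) (.e (nat_lit 1253) (nat_lit 92) (.e (nat_lit 98386) (nat_lit 32) .nil))) .nil)) 
(.lf (nat_lit 119248) (.g (nat_lit 2384) (.e (nat_lit 6493) (nat_lit 343) (.e (nat_lit 1659) (nat_lit 115) (.e (nat_lit 393301) (nat_lit 27) (.e (nat_lit 491558) (nat_lit 10) (.e (nat_lit 344091) (nat_lit 18) .nil))))) .nil))) (.nd (nat_lit 6) 
(.lf (nat_lit 119216) (.g (nat_lit 559) (.e (nat_lit 6489) (nat_lit 343) (.e (nat_lit 1661) (nat_lit 115) (.e (nat_lit 393260) (nat_lit 21) .nil))) .nil)) 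
(.lf (nat_lit 119280) (.g (nat_lit 1219) (.e (nat_lit 7936) (nat_lit 343) (.e (nat_lit 1181) (nat_lit 87) (.e (nat_lit 57872) (nat_lit 264) (.e (nat_lit 1182) (nat_lit 87) .nil)))) .nil))))) (.nd (nat_lit 4) (.nd (nat_lit 5) (.nd (nat_lit 6) 
(.lf (nat_lit 119176) (.g (nat_lit 2361) (.e (nat_lit 6475) (nat_lit 343) (.e (nat_lit 1656) (nat_lit 115) (.e (nat_lit 393301) (nat_lit 27) (.e (nat_lit 491559) (nat_lit 10) .nil)))) .nil)) 
(.lf (nat_lit 119240) (.g (nat_lit 2135) (.e (nat_lit 6491) (nat_lit 343) (.e (nat_lit 1661) (nat_lit 115) (.e (nat_lit 393225) (nat_lit 9) (.e (nat_lit 335996) (nat_lit 1) (.e (nat_lit 57854) (nat_lit 252) .nil))))) .nil))) (.nd (nat_lit 6) 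
(.lf (nat_lit 119208) (.g (nat_lit 2769) (.e (nat_lit 6489) (nat_lit 343) (.e (nat_lit 1659) (nat_lit 115) (.e (nat_lit 393301) (nat_lit 27) (.e (nat_lit 491559) (nat_lit 10) (.e (nat_lit 344090) (nat_lit 18) .nil))))) .nil)) 
(.lf (nat_lit 119272) (.g (nat_lit 3477) (.e (nat_lit 6499) (nat_lit 343) (.e (nat_lit 1659) (nat_lit 115) (.e (nat_lit 393301) (nat_lit 27) (.e (nat_lit 491560) (nat_lit 10) (.e (nat_lit 344095) (nat_lit 18) .nil))))) .nil)))) (.nd (nat_lit 5) (.nd (nat_lit 6) 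
(.lf (nat_lit 119192) (.g (nat_lit 2805) (.e (nat_lit 6478) (nat_lit 343) (.e (nat_lit 1661) (nat_lit 115) (.e (nat_lit 393260) (nat_lit 21) (.e (nat_lit 409649) (nat_lit 18) (.e (nat_lit 303114) (nat_lit 1) .nil))))) .nil)) 
(.lf (nat_lit 119256) (.g (nat_lit 3588) (.e (nat_lit 6493) (nat_lit 343) (.e (nat_lit 1659) (nat_lit 115) (.e (nat_lit 393301) (nat_lit 27) (.e (nat_lit 491560) (nat_lit 10) (.e (nat_lit 344095) (nat_lit 18) .nil))))) .nil))) (.nd (nat_lit 6) 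
(.lf (nat_lit 119224) (.g (nat_lit 1628) (.e (nat_lit 6489) (nat_lit 343) (.e (nat_lit 1661) (nat_lit 115) (.e (nat_lit 393268) (nat_lit 23) (.e (nat_lit 426448) (nat_lit 20) .nil)))) .nil)) 
(.lf (nat_lit 119288) (.g (nat_lit 849) (.e (nat_lit 7936) (nat_lit 343) (.e (nat_lit 1183) (nat_lit 87) (.e (nat_lit 57872) (nat_lit 264) (.e (nat_lit 1211) (nat_lit 89) .nil)))) .nil)))))) (.nd (nat_lit 3) (.nd (nat_lit 4) (.nd (nat_lit 5) (.nd (nat_lit 6) 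
(.lf (nat_lit 119172) (.g (nat_lit 1154) (.e (nat_lit 6475) (nat_lit 343) (.e (nat_lit 1633) (nat_lit 114) (.e (nat_lit 385106) (nat_lit 50) (.e (nat_lit 786477) (nat_lit 28) .nil)))) .nil)) 
(.lf (nat_lit 119236) (.g (nat_lit 559) (.e (nat_lit 6490) (nat_lit 343) (.e (nat_lit 1661) (nat_lit 115) (.e (nat_lit 393260) (nat_lit 21) .nil))) .nil))) (.nd (nat_lit 6) 
(.lf (nat_lit 119204) (.g (nat_lit 2025) (.e (nat_lit 6489) (nat_lit 343) (.e (nat_lit 1659) (nat_lit 115) (.e (nat_lit 393301) (nat_lit 27) (.e (nat_lit 491558) (nat_lit 10) (.e (nat_lit 344090) (nat_lit 18) .nil))))) .nil)) 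
(.lf (nat_lit 119268) (.g (nat_lit 2189) (.e (nat_lit 6499) (nat_lit 343) (.e (nat_lit 1659) (nat_lit 115) (.e (nat_lit 393301) (nat_lit 27) (.e (nat_lit 491558) (nat_lit 10) (.e (nat_lit 344096) (nat_lit 18) .nil))))) .nil)))) (.nd (nat_lit 5) (.nd (nat_lit 6) 
(.lf (nat_lit 119188) (.g (nat_lit 2464) (.e (nat_lit 6478) (nat_lit 343) (.e (nat_lit 1661) (nat_lit 115) (.e (nat_lit 393260) (nat_lit 21) (.e (nat_lit 409644) (nat_lit 18) .nil)))) .nil)) 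
(.lf (nat_lit 119252) (.g (nat_lit 2847) (.e (nat_lit 6493) (nat_lit 343) (.e (nat_lit 1659) (nat_lit 115) (.e (nat_lit 393301) (nat_lit 27) (.e (nat_lit 491559) (nat_lit 10) (.e (nat_lit 344095) (nat_lit 18) .nil))))) .nil))) (.nd (nat_lit 6) 
(.lf (nat_lit 119220) (.g (nat_lit 1800) (.e (nat_lit 6489) (nat_lit 343) (.e (nat_lit 1661) (nat_lit 115) (.e (nat_lit 393260) (nat_lit 21) (.e (nat_lit 417536) (nat_lit 16) .nil)))) .nil)) 
(.lf (nat_lit 119284) (.g (nat_lit 2297) (.e (nat_lit 7936) (nat_lit 343) (.e (nat_lit 1183) (nat_lit 87) (.e (nat_lit 57681) (nat_lit 155) (.e (nat_lit 122919) (nat_lit 15) (.e (nat_lit 360492) (nat_lit 22) .nil))))) .nil))))) (.nd (nat_lit 4) (.nd (nat_lit 5) (.nd (nat_lit 6) 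
(.lf (nat_lit 119180) (.g (nat_lit 1416) (.e (nat_lit 6476) (nat_lit 343) (.e (nat_lit 1633) (nat_lit 114) (.e (nat_lit 385094) (nat_lit 49) (.e (nat_lit 778324) (nat_lit 5) .nil)))) .nil)) 
(.lf (nat_lit 119244) (.g (nat_lit 5632) (.e (nat_lit 6493) (nat_lit 343) (.e (nat_lit 1253) (nat_lit 92) (.e (nat_lit 98373) (nat_lit 29) (.e (nat_lit 450588) (nat_lit 10) (.e (nat_lit 573473) (nat_lit 12) .nil))))) .nil))) (.nd (nat_lit 6) 
(.lf (nat_lit 119212) (.g (nat_lit 3577) (.e (nat_lit 6489) (nat_lit 343) (.e (nat_lit 1659) (nat_lit 115) (.e (nat_lit 393301) (nat_lit 27) (.e (nat_lit 491560) (nat_lit 10) (.e (nat_lit 344095) (nat_lit 18) (.e (nat_lit 7263) (nat_lit 384) (.e (nat_lit 57354) (nat_lit 0) .nil))))))) (.g (nat_lit 4) .nil .nil))) 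
(.lf (nat_lit 119276) (.g (nat_lit 2124) (.e (nat_lit 6504) (nat_lit 343) (.e (nat_lit 1661) (nat_lit 115) (.e (nat_lit 393260) (nat_lit 21) (.e (nat_lit 409649) (nat_lit 18) .nil)))) .nil)))) (.nd (nat_lit 5) (.nd (nat_lit 6) 
(.lf (nat_lit 119196) (.g (nat_lit 2125) (.e (nat_lit 6481) (nat_lit 343) (.e (nat_lit 1234) (nat_lit 91) (.e (nat_lit 90170) (nat_lit 13) (.e (nat_lit 172113) (nat_lit 10) (.e (nat_lit 434248) (nat_lit 28) .nil))))) .nil)) 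
(.lf (nat_lit 119260) (.g (nat_lit 2595) (.e (nat_lit 6494) (nat_lit 343) (.e (nat_lit 1659) (nat_lit 115) (.e (nat_lit 393301) (nat_lit 27) (.e (nat_lit 491560) (nat_lit 10) (.e (nat_lit 344099) (nat_lit 18) .nil))))) .nil))) (.nd (nat_lit 6) 
(.lf (nat_lit 119228) (.g (nat_lit 702) (.e (nat_lit 6490) (nat_lit 343) (.e (nat_lit 1179) (nat_lit 87) (.e (nat_lit 57848) (nat_lit 252) (.e (nat_lit 57383) (nat_lit 4) .nil)))) .nil)) 
(.lf (nat_lit 119292) (.g (nat_lit 1835) (.e (nat_lit 7936) (nat_lit 343) (.e (nat_lit 1250) (nat_lit 92) (.e (nat_lit 98350) (nat_lit 24) (.e (nat_lit 409649) (nat_lit 18) (.e (nat_lit 303117) (nat_lit 2) .nil))))) .nil))))))) (.nd (nat_lit 2) (.nd (nat_lit 3) (.nd (nat_lit 4) (.nd (nat_lit 5) (.nd (nat_lit 6) 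
(.lf (nat_lit 119170) (.g (nat_lit 1477) (.e (nat_lit 6475) (nat_lit 343) (.e (nat_lit 1633) (nat_lit 114) (.e (nat_lit 385094) (nat_lit 49) (.e (nat_lit 778324) (nat_lit 5) (.e (nat_lit 81664) (nat_lit 36) .nil))))) .nil)) 
(.lf (nat_lit 119234) (.g (nat_lit 2378) (.e (nat_lit 6490) (nat_lit 343) (.e (nat_lit 1659) (nat_lit 115) (.e (nat_lit 393301) (nat_lit 27) (.e (nat_lit 491559) (nat_lit 10) (.e (nat_lit 344177) (nat_lit 43) .nil))))) .nil))) (.nd (nat_lit 6) 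
(.lf (nat_lit 119202) (.g (nat_lit 5632) (.e (nat_lit 6489) (nat_lit 343) (.e (nat_lit 1253) (nat_lit 92) (.e (nat_lit 98373) (nat_lit 29) (.e (nat_lit 450588) (nat_lit 10) (.e (nat_lit 573473) (nat_lit 12) .nil))))) .nil)) 
(.lf (nat_lit 119266) (.g (nat_lit 2082) (.e (nat_lit 6499) (nat_lit 343) (.e (nat_lit 1659) (nat_lit 115) (.e (nat_lit 393301) (nat_lit 27) (.e (nat_lit 491558) (nat_lit 10) (.e (nat_lit 344090) (nat_lit 18) .nil))))) .nil)))) (.nd (nat_lit 5) (.nd (nat_lit 6) 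
(.lf (nat_lit 119186) (.g (nat_lit 1629) (.e (nat_lit 6478) (nat_lit 343) (.e (nat_lit 1661) (nat_lit 115) (.e (nat_lit 393251) (nat_lit 18) (.e (nat_lit 164183) (nat_lit 154) .nil)))) .nil)) 
(.lf (nat_lit 119250) (.g (nat_lit 2772) (.e (nat_lit 6493) (nat_lit 343) (.e (nat_lit 1659) (nat_lit 115) (.e (nat_lit 393301) (nat_lit 27) (.e (nat_lit 491559) (nat_lit 10) (.e (nat_lit 344091) (nat_lit 18) .nil))))) .nil))) (.nd (nat_lit 6) 
(.lf (nat_lit 119218) (.g (nat_lit 3034) (.e (nat_lit 6489) (nat_lit 343) (.e (nat_lit 1661) (nat_lit 115) (.e (nat_lit 393260) (nat_lit 21) (.e (nat_lit 409617) (nat_lit 10) (.e (nat_lit 5355) (nat_lit 298) .nil))))) .nil)) 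
(.lf (nat_lit 119282) (.g (nat_lit 1257) (.e (nat_lit 7936) (nat_lit 343) (.e (nat_lit 1181) (nat_lit 87) (.e (nat_lit 57872) (nat_lit 264) (.e (nat_lit 1190) (nat_lit 88) .nil)))) .nil))))) (.nd (nat_lit 4) (.nd (nat_lit 5) (.nd (nat_lit 6) 
(.lf (nat_lit 119178) (.g (nat_lit 2757) (.e (nat_lit 6476) (nat_lit 343) (.e (nat_lit 1633) (nat_lit 114) (.e (nat_lit 385074) (nat_lit 31) (.e (nat_lit 573489) (nat_lit 14) .nil)))) .nil)) 
(.lf (nat_lit 119242) (.g (nat_lit 2029) (.e (nat_lit 6493) (nat_lit 343) (.e (nat_lit 1253) (nat_lit 92) (.e (nat_lit 98373) (nat_lit 29) (.e (nat_lit 450587) (nat_lit 10) (.e (nat_lit 573473) (nat_lit 12) .nil))))) .nil))) (.nd (nat_lit 6) 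
(.lf (nat_lit 119210) (.g (nat_lit 2944) (.e (nat_lit 6489) (nat_lit 343) (.e (nat_lit 1659) (nat_lit 115) (.e (nat_lit 393301) (nat_lit 27) (.e (nat_lit 491560) (nat_lit 10) (.e (nat_lit 344087) (nat_lit 18) .nil))))) .nil)) 
(.lf (nat_lit 119274) (.g (nat_lit 1976) (.e (nat_lit 6499) (nat_lit 343) (.e (nat_lit 1661) (nat_lit 115) (.e (nat_lit 393260) (nat_lit 21) (.e (nat_lit 409648) (nat_lit 18) .nil)))) .nil)))) (.nd (nat_lit 5) (.nd (nat_lit 6) 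
(.lf (nat_lit 119194) (.g (nat_lit 2071) (.e (nat_lit 6481) (nat_lit 343) (.e (nat_lit 1234) (nat_lit 91) (.e (nat_lit 90170) (nat_lit 13) (.e (nat_lit 172113) (nat_lit 10) (.e (nat_lit 434245) (nat_lit 28) .nil))))) .nil)) 
(.lf (nat_lit 119258) (.g (nat_lit 1816) (.e (nat_lit 6494) (nat_lit 343) (.e (nat_lit 1253) (nat_lit 92) (.e (nat_lit 98373) (nat_lit 29) (.e (nat_lit 450587) (nat_lit 10) (.e (nat_lit 573475) (nat_lit 12) (.e (nat_lit 57572) (nat_lit 54) (.e (nat_lit 770058) (nat_lit 5) (.e (nat_lit 985) (nat_lit 81) .nil)))))))) (.g (nat_lit 4) .nil .nil)))) (.nd (nat_lit 6) 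
(.lf (nat_lit 119226) (.g (nat_lit 2686) (.e (nat_lit 6489) (nat_lit 343) (.e (nat_lit 1661) (nat_lit 115) (.e (nat_lit 393299) (nat_lit 27) (.e (nat_lit 491560) (nat_lit 10) (.e (nat_lit 344091) (nat_lit 18) .nil))))) .nil)) 
(.lf (nat_lit 119290) (.g (nat_lit 1318) (.e (nat_lit 7936) (nat_lit 343) (.e (nat_lit 1232) (nat_lit 91) (.e (nat_lit 90160) (nat_lit 11) (.e (nat_lit 24607) (nat_lit 3) .nil)))) .nil)))))) (.nd (nat_lit 3) (.nd (nat_lit 4) (.nd (nat_lit 5) (.nd (nat_lit 6) 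
(.lf (nat_lit 119174) (.g (nat_lit 1992) (.e (nat_lit 6475) (nat_lit 343) (.e (nat_lit 1656) (nat_lit 115) (.e (nat_lit 393301) (nat_lit 27) (.e (nat_lit 491558) (nat_lit 10) .nil)))) .nil)) 
(.lf (nat_lit 119238) (.g (nat_lit 2094) (.e (nat_lit 6490) (nat_lit 343) (.e (nat_lit 1661) (nat_lit 115) (.e (nat_lit 393260) (nat_lit 21) (.e (nat_lit 409649) (nat_lit 18) .nil)))) .nil))) (.nd (nat_lit 6) 
(.lf (nat_lit 119206) (.g (nat_lit 2182) (.e (nat_lit 6489) (nat_lit 343) (.e (nat_lit 1659) (nat_lit 115) (.e (nat_lit 393301) (nat_lit 27) (.e (nat_lit 491558) (nat_lit 10) (.e (nat_lit 344174) (nat_lit 42) (.e (nat_lit 761867) (nat_lit 5) (.e (nat_lit 1037) (nat_lit 81) .nil))))))) (.g (nat_lit 4) .nil .nil))) 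
(.lf (nat_lit 119270) (.g (nat_lit 2757) (.e (nat_lit 6499) (nat_lit 343) (.e (nat_lit 1659) (nat_lit 115) (.e (nat_lit 393301) (nat_lit 27) (.e (nat_lit 491560) (nat_lit 10) (.e (nat_lit 344090) (nat_lit 18) .nil))))) .nil)))) (.nd (nat_lit 5) (.nd (nat_lit 6) 
(.lf (nat_lit 119190) (.g (nat_lit 2618) (.e (nat_lit 6478) (nat_lit 343) (.e (nat_lit 1661) (nat_lit 115) (.e (nat_lit 393260) (nat_lit 21) (.e (nat_lit 409647) (nat_lit 18) .nil)))) .nil)) 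
(.lf (nat_lit 119254) (.g (nat_lit 3401) (.e (nat_lit 6493) (nat_lit 343) (.e (nat_lit 1659) (nat_lit 115) (.e (nat_lit 393301) (nat_lit 27) (.e (nat_lit 491560) (nat_lit 10) (.e (nat_lit 344087) (nat_lit 18) (.e (nat_lit 7263) (nat_lit 384) (.e (nat_lit 57354) (nat_lit 0) .nil))))))) (.g (nat_lit 4) .nil .nil)))) (.nd (nat_lit 6) 
(.lf (nat_lit 119222) (.g (nat_lit 2043) (.e (nat_lit 6489) (nat_lit 343) (.e (nat_lit 1661) (nat_lit 115) (.e (nat_lit 393260) (nat_lit 21) (.e (nat_lit 409648) (nat_lit 18) .nil)))) .nil)) 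
(.lf (nat_lit 119286) (.g (nat_lit 1529) (.e (nat_lit 7936) (nat_lit 343) (.e (nat_lit 1183) (nat_lit 87) (.e (nat_lit 57872) (nat_lit 264) (.e (nat_lit 1199) (nat_lit 88) (.e (nat_lit 65630) (nat_lit 14) .nil))))) .nil))))) (.nd (nat_lit 4) (.nd (nat_lit 5) (.nd (nat_lit 6) 
(.lf (nat_lit 119182) (.g (nat_lit 2043) (.e (nat_lit 6477) (nat_lit 343) (.e (nat_lit 1661) (nat_lit 115) (.e (nat_lit 393260) (nat_lit 21) (.e (nat_lit 409648) (nat_lit 18) .nil)))) .nil)) 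
(.lf (nat_lit 119246) (.g (nat_lit 2017) (.e (nat_lit 6493) (nat_lit 343) (.e (nat_lit 1658) (nat_lit 115) (.e (nat_lit 393301) (nat_lit 27) (.e (nat_lit 491558) (nat_lit 10) (.e (nat_lit 344090) (nat_lit 18) .nil))))) .nil))) (.nd (nat_lit 6) 
(.lf (nat_lit 119214) (.g (nat_lit 2802) (.e (nat_lit 6489) (nat_lit 343) (.e (nat_lit 1659) (nat_lit 115) (.e (nat_lit 393301) (nat_lit 27) (.e (nat_lit 491560) (nat_lit 10) (.e (nat_lit 344173) (nat_lit 42) (.e (nat_lit 761866) (nat_lit 5) (.e (nat_lit 1037) (nat_lit 81) .nil))))))) (.g (nat_lit 4) .nil .nil))) 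
(.lf (nat_lit 119278) (.g (nat_lit 1210) (.e (nat_lit 7936) (nat_lit 343) (.e (nat_lit 1181) (nat_lit 87) (.e (nat_lit 57872) (nat_lit 264) (.e (nat_lit 1172) (nat_lit 87) .nil)))) .nil)))) (.nd (nat_lit 5) (.nd (nat_lit 6) 
(.lf (nat_lit 119198) (.g (nat_lit 4269) (.e (nat_lit 6481) (nat_lit 343) (.e (nat_lit 1252) (nat_lit 92) (.e (nat_lit 98373) (nat_lit 29) (.e (nat_lit 450588) (nat_lit 10) (.e (nat_lit 573473) (nat_lit 12) .nil))))) .nil)) 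
(.lf (nat_lit 119262) (.g (nat_lit 1803) (.e (nat_lit 6496) (nat_lit 343) (.e (nat_lit 1661) (nat_lit 115) (.e (nat_lit 393260) (nat_lit 21) (.e (nat_lit 409648) (nat_lit 18) .nil)))) .nil))) (.nd (nat_lit 6) 
(.lf (nat_lit 119230) (.g (nat_lit 870) (.e (nat_lit 6490) (nat_lit 343) (.e (nat_lit 1179) (nat_lit 87) (.e (nat_lit 57854) (nat_lit 252) (.e (nat_lit 57389) (nat_lit 5) .nil)))) .nil)) 
(.lf (nat_lit 119294) (.g (nat_lit 3183) (.e (nat_lit 7936) (nat_lit 343) (.e (nat_lit 1250) (nat_lit 92) (.e (nat_lit 98373) (nat_lit 29) (.e (nat_lit 450588) (nat_lit 10) (.e (nat_lit 573475) (nat_lit 12) .nil))))) .nil)))))))) (.nd (nat_lit 1) (.nd (nat_lit 2) (.nd (nat_lit 3) (.nd (nat_lit 4) (.nd (nat_lit 5) (.nd (nat_lit 6) 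
(.lf (nat_lit 119169) (.g (nat_lit 1375) (.e (nat_lit 6475) (nat_lit 343) (.e (nat_lit 1633) (nat_lit 114) (.e (nat_lit 385093) (nat_lit 49) (.e (nat_lit 778323) (nat_lit 5) .nil)))) .nil)) 
(.lf (nat_lit 119233) (.g (nat_lit 2124) (.e (nat_lit 6490) (nat_lit 343) (.e (nat_lit 1253) (nat_lit 92) (.e (nat_lit 98386) (nat_lit 32) (.e (nat_lit 475214) (nat_lit 42) (.e (nat_lit 720938) (nat_lit 22) .nil))))) .nil))) (.nd (nat_lit 6) 
(.lf (nat_lit 119201) (.g (nat_lit 1753) (.e (nat_lit 6489) (nat_lit 343) (.e (nat_lit 1253) (nat_lit 92) (.e (nat_lit 98373) (nat_lit 29) (.e (nat_lit 450587) (nat_lit 10) (.e (nat_lit 573475) (nat_lit 12) .nil))))) .nil)) 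
(.lf (nat_lit 119265) (.g (nat_lit 3160) (.e (nat_lit 6499) (nat_lit 343) (.e (nat_lit 1253) (nat_lit 92) (.e (nat_lit 98373) (nat_lit 29) (.e (nat_lit 450587) (nat_lit 10) (.e (nat_lit 573475) (nat_lit 12) (.e (nat_lit 57351) (nat_lit 0) (.e (nat_lit 7265) (nat_lit 384) (.e (nat_lit 57347) (nat_lit 0) .nil)))))))) (.g (nat_lit 5) .nil .nil))))) (.nd (nat_lit 5) (.nd (nat_lit 6) 
(.lf (nat_lit 119185) (.g (nat_lit 549) (.e (nat_lit 6478) (nat_lit 343) (.e (nat_lit 1638) (nat_lit 114) (.e (nat_lit 385067) (nat_lit 26) .nil))) .nil)) 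
(.lf (nat_lit 119249) (.g (nat_lit 2234) (.e (nat_lit 6493) (nat_lit 343) (.e (nat_lit 1659) (nat_lit 115) (.e (nat_lit 393301) (nat_lit 27) (.e (nat_lit 491558) (nat_lit 10) (.e (nat_lit 344095) (nat_lit 18) .nil))))) .nil))) (.nd (nat_lit 6) 
(.lf (nat_lit 119217) (.g (nat_lit 2674) (.e (nat_lit 6489) (nat_lit 343) (.e (nat_lit 1661) (nat_lit 115) (.e (nat_lit 393260) (nat_lit 21) (.e (nat_lit 409616) (nat_lit 10) .nil)))) .nil)) 
(.lf (nat_lit 119281) (.g (nat_lit 1689) (.e (nat_lit 7936) (nat_lit 343) (.e (nat_lit 1181) (nat_lit 87) (.e (nat_lit 57872) (nat_lit 264) (.e (nat_lit 1188) (nat_lit 88) (.e (nat_lit 65630) (nat_lit 14) .nil))))) .nil))))) (.nd (nat_lit 4) (.nd (nat_lit 5) (.nd (nat_lit 6) 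
(.lf (nat_lit 119177) (.g (nat_lit 3335) (.e (nat_lit 6475) (nat_lit 343) (.e (nat_lit 1656) (nat_lit 115) (.e (nat_lit 393301) (nat_lit 27) (.e (nat_lit 491560) (nat_lit 10) (.e (nat_lit 352000) (nat_lit 47) .nil))))) .nil)) 
(.lf (nat_lit 119241) (.g (nat_lit 4274) (.e (nat_lit 6493) (nat_lit 343) (.e (nat_lit 1252) (nat_lit 92) (.e (nat_lit 98373) (nat_lit 29) (.e (nat_lit 450588) (nat_lit 10) (.e (nat_lit 573473) (nat_lit 12) .nil))))) .nil))) (.nd (nat_lit 6) 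
(.lf (nat_lit 119209) (.g (nat_lit 2778) (.e (nat_lit 6489) (nat_lit 343) (.e (nat_lit 1659) (nat_lit 115) (.e (nat_lit 393301) (nat_lit 27) (.e (nat_lit 491559) (nat_lit 10) (.e (nat_lit 344095) (nat_lit 18) .nil))))) .nil)) 
(.lf (nat_lit 119273) (.g (nat_lit 3041) (.e (nat_lit 6499) (nat_lit 343) (.e (nat_lit 1659) (nat_lit 115) (.e (nat_lit 393301) (nat_lit 27) (.e (nat_lit 491560) (nat_lit 10) (.e (nat_lit 344096) (nat_lit 18) .nil))))) .nil)))) (.nd (nat_lit 5) (.nd (nat_lit 6) 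
(.lf (nat_lit 119193) (.g (nat_lit 1930) (.e (nat_lit 6481) (nat_lit 343) (.e (nat_lit 1234) (nat_lit 91) (.e (nat_lit 90170) (nat_lit 13) (.e (nat_lit 172113) (nat_lit 10) (.e (nat_lit 434242) (nat_lit 28) .nil))))) .nil)) 
(.lf (nat_lit 119257) (.g (nat_lit 2889) (.e (nat_lit 6493) (nat_lit 343) (.e (nat_lit 1659) (nat_lit 115) (.e (nat_lit 393301) (nat_lit 27) (.e (nat_lit 491560) (nat_lit 10) (.e (nat_lit 344099) (nat_lit 18) .nil))))) .nil))) (.nd (nat_lit 6) 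
(.lf (nat_lit 119225) (.g (nat_lit 1507) (.e (nat_lit 6489) (nat_lit 343) (.e (nat_lit 1661) (nat_lit 115) (.e (nat_lit 393299) (nat_lit 27) (.e (nat_lit 491560) (nat_lit 10) .nil)))) .nil)) 
(.lf (nat_lit 119289) (.g (nat_lit 1878) (.e (nat_lit 7936) (nat_lit 343) (.e (nat_lit 1232) (nat_lit 91) (.e (nat_lit 90160) (nat_lit 11) (.e (nat_lit 24602) (nat_lit 2) (.e (nat_lit 90158) (nat_lit 11) .nil))))) .nil)))))) (.nd (nat_lit 3) (.nd (nat_lit 4) (.nd (nat_lit 5) (.nd (nat_lit 6) 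
(.lf (nat_lit 119173) (.g (nat_lit 1141) (.e (nat_lit 6475) (nat_lit 343) (.e (nat_lit 1656) (nat_lit 115) (.e (nat_lit 393234) (nat_lit 17) (.e (nat_lit 7591) (nat_lit 407) .nil)))) .nil)) 
(.lf (nat_lit 119237) (.g (nat_lit 2012) (.e (nat_lit 6490) (nat_lit 343) (.e (nat_lit 1661) (nat_lit 115) (.e (nat_lit 393260) (nat_lit 21) (.e (nat_lit 409648) (nat_lit 18) .nil)))) .nil))) (.nd (nat_lit 6) 
(.lf (nat_lit 119205) (.g (nat_lit 2127) (.e (nat_lit 6489) (nat_lit 343) (.e (nat_lit 1659) (nat_lit 115) (.e (nat_lit 393301) (nat_lit 27) (.e (nat_lit 491558) (nat_lit 10) (.e (nat_lit 344174) (nat_lit 42) .nil))))) .nil)) 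
(.lf (nat_lit 119269) (.g (nat_lit 2780) (.e (nat_lit 6499) (nat_lit 343) (.e (nat_lit 1659) (nat_lit 115) (.e (nat_lit 393301) (nat_lit 27) (.e (nat_lit 491559) (nat_lit 10) (.e (nat_lit 344094) (nat_lit 18) .nil))))) .nil)))) (.nd (nat_lit 5) (.nd (nat_lit 6) 
(.lf (nat_lit 119189) (.g (nat_lit 3031) (.e (nat_lit 6478) (nat_lit 343) (.e (nat_lit 1661) (nat_lit 115) (.e (nat_lit 393260) (nat_lit 21) (.e (nat_lit 409646) (nat_lit 18) (.e (nat_lit 303115) (nat_lit 1) .nil))))) .nil)) 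
(.lf (nat_lit 119253) (.g (nat_lit 3134) (.e (nat_lit 6493) (nat_lit 343) (.e (nat_lit 1659) (nat_lit 115) (.e (nat_lit 393301) (nat_lit 27) (.e (nat_lit 491560) (nat_lit 10) (.e (nat_lit 344087) (nat_lit 18) .nil))))) .nil))) (.nd (nat_lit 6) 
(.lf (nat_lit 119221) (.g (nat_lit 2140) (.e (nat_lit 6489) (nat_lit 343) (.e (nat_lit 1661) (nat_lit 115) (.e (nat_lit 393260) (nat_lit 21) (.e (nat_lit 409643) (nat_lit 18) .nil)))) .nil)) 
(.lf (nat_lit 119285) (.g (nat_lit 1581) (.e (nat_lit 7936) (nat_lit 343) (.e (nat_lit 1183) (nat_lit 87) (.e (nat_lit 57870) (nat_lit 264) (.e (nat_lit 1209) (nat_lit 89) (.e (nat_lit 73781) (nat_lit 32) .nil))))) .nil))))) (.nd (nat_lit 4) (.nd (nat_lit 5) (.nd (nat_lit 6) 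
(.lf (nat_lit 119181) (.g (nat_lit 2140) (.e (nat_lit 6477) (nat_lit 343) (.e (nat_lit 1661) (nat_lit 115) (.e (nat_lit 393260) (nat_lit 21) (.e (nat_lit 409643) (nat_lit 18) .nil)))) .nil)) 
(.lf (nat_lit 119245) (.g (nat_lit 1830) (.e (nat_lit 6493) (nat_lit 343) (.e (nat_lit 1425) (nat_lit 108) (.e (nat_lit 336019) (nat_lit 3) (.e (nat_lit 98350) (nat_lit 24) (.e (nat_lit 409645) (nat_lit 18) .nil))))) .nil))) (.nd (nat_lit 6) 
(.lf (nat_lit 119213) (.g (nat_lit 2700) (.e (nat_lit 6489) (nat_lit 343) (.e (nat_lit 1659) (nat_lit 115) (.e (nat_lit 393301) (nat_lit 27) (.e (nat_lit 491560) (nat_lit 10) (.e (nat_lit 344099) (nat_lit 18) .nil))))) .nil)) 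
(.lf (nat_lit 119277) (.g (nat_lit 1203) (.e (nat_lit 7936) (nat_lit 343) (.e (nat_lit 1181) (nat_lit 87) (.e (nat_lit 57872) (nat_lit 264) (.e (nat_lit 1170) (nat_lit 87) .nil)))) .nil)))) (.nd (nat_lit 5) (.nd (nat_lit 6) 
(.lf (nat_lit 119197) (.g (nat_lit 1723) (.e (nat_lit 6481) (nat_lit 343) (.e (nat_lit 1252) (nat_lit 92) (.e (nat_lit 98373) (nat_lit 29) (.e (nat_lit 450587) (nat_lit 10) (.e (nat_lit 573475) (nat_lit 12) .nil))))) .nil)) 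
(.lf (nat_lit 119261) (.g (nat_lit 2530) (.e (nat_lit 6496) (nat_lit 343) (.e (nat_lit 1661) (nat_lit 115) (.e (nat_lit 393260) (nat_lit 21) (.e (nat_lit 409645) (nat_lit 18) .nil)))) .nil))) (.nd (nat_lit 6) 
(.lf (nat_lit 119229) (.g (nat_lit 696) (.e (nat_lit 6490) (nat_lit 343) (.e (nat_lit 1179) (nat_lit 87) (.e (nat_lit 57848) (nat_lit 252) (.e (nat_lit 57386) (nat_lit 4) .nil)))) .nil)) 
(.lf (nat_lit 119293) (.g (nat_lit 3098) (.e (nat_lit 7936) (nat_lit 343) (.e (nat_lit 1250) (nat_lit 92) (.e (nat_lit 98373) (nat_lit 29) (.e (nat_lit 450588) (nat_lit 10) (.e (nat_lit 573473) (nat_lit 12) .nil))))) .nil))))))) (.nd (nat_lit 2) (.nd (nat_lit 3) (.nd (nat_lit 4) (.nd (nat_lit 5) (.nd (nat_lit 6) 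
(.lf (nat_lit 119171) (.g (nat_lit 1420) (.e (nat_lit 6475) (nat_lit 343) (.e (nat_lit 1633) (nat_lit 114) (.e (nat_lit 385106) (nat_lit 50) (.e (nat_lit 786473) (nat_lit 27) .nil)))) .nil)) 
(.lf (nat_lit 119235) (.g (nat_lit 1306) (.e (nat_lit 6490) (nat_lit 343) (.e (nat_lit 1659) (nat_lit 115) (.e (nat_lit 393301) (nat_lit 27) (.e (nat_lit 491560) (nat_lit 10) (.e (nat_lit 344177) (nat_lit 43) .nil))))) .nil))) (.nd (nat_lit 6) 
(.lf (nat_lit 119203) (.g (nat_lit 3064) (.e (nat_lit 6489) (nat_lit 343) (.e (nat_lit 1638) (nat_lit 114) (.e (nat_lit 385068) (nat_lit 26) (.e (nat_lit 532504) (nat_lit 1) (.e (nat_lit 57851) (nat_lit 252) .nil))))) .nil)) 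
(.lf (nat_lit 119267) (.g (nat_lit 2158) (.e (nat_lit 6499) (nat_lit 343) (.e (nat_lit 1659) (nat_lit 115) (.e (nat_lit 393301) (nat_lit 27) (.e (nat_lit 491558) (nat_lit 10) (.e (nat_lit 344095) (nat_lit 18) .nil))))) .nil)))) (.nd (nat_lit 5) (.nd (nat_lit 6) 
(.lf (nat_lit 119187) (.g (nat_lit 499) (.e (nat_lit 6478) (nat_lit 343) (.e (nat_lit 1661) (nat_lit 115) (.e (nat_lit 393260) (nat_lit 21) .nil))) .nil)) 
(.lf (nat_lit 119251) (.g (nat_lit 2791) (.e (nat_lit 6493) (nat_lit 343) (.e (nat_lit 1659) (nat_lit 115) (.e (nat_lit 393301) (nat_lit 27) (.e (nat_lit 491559) (nat_lit 10) (.e (nat_lit 344094) (nat_lit 18) .nil))))) .nil))) (.nd (nat_lit 6) 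
(.lf (nat_lit 119219) (.g (nat_lit 3733) (.e (nat_lit 6489) (nat_lit 343) (.e (nat_lit 1661) (nat_lit 115) (.e (nat_lit 393260) (nat_lit 21) (.e (nat_lit 409617) (nat_lit 10) (.e (nat_lit 5355) (nat_lit 298) (.e (nat_lit 1179) (nat_lit 87) (.e (nat_lit 57681) (nat_lit 155) (.e (nat_lit 122883) (nat_lit 0) .nil)))))))) (.g (nat_lit 5) .nil .nil))) 
(.lf (nat_lit 119283) (.g (nat_lit 1229) (.e (nat_lit 7936) (nat_lit 343) (.e (nat_lit 1181) (nat_lit 87) (.e (nat_lit 57872) (nat_lit 264) (.e (nat_lit 1199) (nat_lit 88) .nil)))) .nil))))) (.nd (nat_lit 4) (.nd (nat_lit 5) (.nd (nat_lit 6) 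
(.lf (nat_lit 119179) (.g (nat_lit 2341) (.e (nat_lit 6476) (nat_lit 343) (.e (nat_lit 1633) (nat_lit 114) (.e (nat_lit 385094) (nat_lit 49) (.e (nat_lit 778323) (nat_lit 5) (.e (nat_lit 81664) (nat_lit 36) .nil))))) .nil)) 
(.lf (nat_lit 119243) (.g (nat_lit 3346) (.e (nat_lit 6493) (nat_lit 343) (.e (nat_lit 1253) (nat_lit 92) (.e (nat_lit 98373) (nat_lit 29) (.e (nat_lit 450587) (nat_lit 10) (.e (nat_lit 573475) (nat_lit 12) (.e (nat_lit 57344) (nat_lit 0) (.e (nat_lit 7263) (nat_lit 384) (.e (nat_lit 57354) (nat_lit 0) .nil)))))))) (.g (nat_lit 5) .nil .nil)))) (.nd (nat_lit 6) 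
(.lf (nat_lit 119211) (.g (nat_lit 2669) (.e (nat_lit 6489) (nat_lit 343) (.e (nat_lit 1659) (nat_lit 115) (.e (nat_lit 393301) (nat_lit 27) (.e (nat_lit 491560) (nat_lit 10) (.e (nat_lit 344094) (nat_lit 18) .nil))))) .nil)) 
(.lf (nat_lit 119275) (.g (nat_lit 2058) (.e (nat_lit 6499) (nat_lit 343) (.e (nat_lit 1661) (nat_lit 115) (.e (nat_lit 393260) (nat_lit 21) (.e (nat_lit 409649) (nat_lit 18) .nil)))) .nil)))) (.nd (nat_lit 5) (.nd (nat_lit 6) 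
(.lf (nat_lit 119195) (.g (nat_lit 2164) (.e (nat_lit 6481) (nat_lit 343) (.e (nat_lit 1234) (nat_lit 91) (.e (nat_lit 90170) (nat_lit 13) (.e (nat_lit 172113) (nat_lit 10) (.e (nat_lit 434247) (nat_lit 28) .nil))))) .nil)) 
(.lf (nat_lit 119259) (.g (nat_lit 3128) (.e (nat_lit 6494) (nat_lit 343) (.e (nat_lit 1659) (nat_lit 115) (.e (nat_lit 393301) (nat_lit 27) (.e (nat_lit 491559) (nat_lit 10) (.e (nat_lit 344177) (nat_lit 43) (.e (nat_lit 770058) (nat_lit 5) (.e (nat_lit 985) (nat_lit 81) .nil))))))) (.g (nat_lit 5) .nil .nil)))) (.nd (nat_lit 6) 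
(.lf (nat_lit 119227) (.g (nat_lit 2766) (.e (nat_lit 6489) (nat_lit 343) (.e (nat_lit 1661) (nat_lit 115) (.e (nat_lit 393299) (nat_lit 27) (.e (nat_lit 491560) (nat_lit 10) (.e (nat_lit 344096) (nat_lit 18) .nil))))) .nil)) 
(.lf (nat_lit 119291) (.g (nat_lit 1936) (.e (nat_lit 7936) (nat_lit 343) (.e (nat_lit 1250) (nat_lit 92) (.e (nat_lit 98350) (nat_lit 24) (.e (nat_lit 409648) (nat_lit 18) (.e (nat_lit 303117) (nat_lit 2) .nil))))) .nil)))))) (.nd (nat_lit 3) (.nd (nat_lit 4) (.nd (nat_lit 5) (.nd (nat_lit 6) 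
(.lf (nat_lit 119175) (.g (nat_lit 3236) (.e (nat_lit 6475) (nat_lit 343) (.e (nat_lit 1656) (nat_lit 115) (.e (nat_lit 393301) (nat_lit 27) (.e (nat_lit 491558) (nat_lit 10) (.e (nat_lit 352000) (nat_lit 47) .nil))))) .nil)) 
(.lf (nat_lit 119239) (.g (nat_lit 2601) (.e (nat_lit 6491) (nat_lit 343) (.e (nat_lit 1661) (nat_lit 115) (.e (nat_lit 393225) (nat_lit 9) (.e (nat_lit 335995) (nat_lit 1) (.e (nat_lit 57847) (nat_lit 252) .nil))))) .nil))) (.nd (nat_lit 6) 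
(.lf (nat_lit 119207) (.g (nat_lit 1006) (.e (nat_lit 6489) (nat_lit 343) (.e (nat_lit 1659) (nat_lit 115) (.e (nat_lit 393301) (nat_lit 27) (.e (nat_lit 491559) (nat_lit 10) .nil)))) .nil)) 
(.lf (nat_lit 119271) (.g (nat_lit 2747) (.e (nat_lit 6499) (nat_lit 343) (.e (nat_lit 1659) (nat_lit 115) (.e (nat_lit 393301) (nat_lit 27) (.e (nat_lit 491560) (nat_lit 10) (.e (nat_lit 344094) (nat_lit 18) .nil))))) .nil)))) (.nd (nat_lit 5) (.nd (nat_lit 6) 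
(.lf (nat_lit 119191) (.g (nat_lit 2030) (.e (nat_lit 6478) (nat_lit 343) (.e (nat_lit 1661) (nat_lit 115) (.e (nat_lit 393260) (nat_lit 21) (.e (nat_lit 409649) (nat_lit 18) .nil)))) .nil)) 
(.lf (nat_lit 119255) (.g (nat_lit 2864) (.e (nat_lit 6493) (nat_lit 343) (.e (nat_lit 1659) (nat_lit 115) (.e (nat_lit 393301) (nat_lit 27) (.e (nat_lit 491560) (nat_lit 10) (.e (nat_lit 344091) (nat_lit 18) .nil))))) .nil))) (.nd (nat_lit 6) 
(.lf (nat_lit 119223) (.g (nat_lit 2758) (.e (nat_lit 6489) (nat_lit 343) (.e (nat_lit 1661) (nat_lit 115) (.e (nat_lit 393260) (nat_lit 21) (.e (nat_lit 409649) (nat_lit 18) (.e (nat_lit 303115) (nat_lit 1) .nil))))) .nil)) 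
(.lf (nat_lit 119287) (.g (nat_lit 958) (.e (nat_lit 7936) (nat_lit 343) (.e (nat_lit 1183) (nat_lit 87) (.e (nat_lit 57872) (nat_lit 264) (.e (nat_lit 1209) (nat_lit 89) .nil)))) .nil))))) (.nd (nat_lit 4) (.nd (nat_lit 5) (.nd (nat_lit 6) 
(.lf (nat_lit 119183) (.g (nat_lit 2758) (.e (nat_lit 6477) (nat_lit 343) (.e (nat_lit 1661) (nat_lit 115) (.e (nat_lit 393260) (nat_lit 21) (.e (nat_lit 409649) (nat_lit 18) (.e (nat_lit 303115) (nat_lit 1) .nil))))) .nil)) 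
(.lf (nat_lit 119247) (.g (nat_lit 2158) (.e (nat_lit 6493) (nat_lit 343) (.e (nat_lit 1659) (nat_lit 115) (.e (nat_lit 393301) (nat_lit 27) (.e (nat_lit 491558) (nat_lit 10) (.e (nat_lit 344090) (nat_lit 18) .nil))))) .nil))) (.nd (nat_lit 6) 
(.lf (nat_lit 119215) (.g (nat_lit 2606) (.e (nat_lit 6489) (nat_lit 343) (.e (nat_lit 1661) (nat_lit 115) (.e (nat_lit 393225) (nat_lit 9) (.e (nat_lit 335995) (nat_lit 1) (.e (nat_lit 57847) (nat_lit 252) .nil))))) .nil)) 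
(.lf (nat_lit 119279) (.g (nat_lit 1882) (.e (nat_lit 7936) (nat_lit 343) (.e (nat_lit 1181) (nat_lit 87) (.e (nat_lit 57872) (nat_lit 264) (.e (nat_lit 1181) (nat_lit 87) (.e (nat_lit 57478) (nat_lit 28) .nil))))) .nil)))) (.nd (nat_lit 5) (.nd (nat_lit 6) 
(.lf (nat_lit 119199) (.g (nat_lit 4374) (.e (nat_lit 6481) (nat_lit 343) (.e (nat_lit 1252) (nat_lit 92) (.e (nat_lit 98373) (nat_lit 29) (.e (nat_lit 450588) (nat_lit 10) (.e (nat_lit 573475) (nat_lit 12) .nil))))) .nil)) 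
(.lf (nat_lit 119263) (.g (nat_lit 1885) (.e (nat_lit 6496) (nat_lit 343) (.e (nat_lit 1661) (nat_lit 115) (.e (nat_lit 393260) (nat_lit 21) (.e (nat_lit 409649) (nat_lit 18) .nil)))) .nil))) (.nd (nat_lit 6) 
(.lf (nat_lit 119231) (.g (nat_lit 1375) (.e (nat_lit 6490) (nat_lit 343) (.e (nat_lit 1253) (nat_lit 92) (.e (nat_lit 98335) (nat_lit 18) (.e (nat_lit 164183) (nat_lit 154) .nil)))) .nil)) 
(.lf (nat_lit 119295) (.g (nat_lit 665) (.e (nat_lit 7936) (nat_lit 343) (.e (nat_lit 1255) (nat_lit 92) (.e (nat_lit 98372) (nat_lit 29) (.e (nat_lit 450586) (nat_lit 10) .nil)))) .nil)))))))))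

noncomputable def tv1593 : DT := (.nd (nat_lit 0) (.nd (nat_lit 1) (.nd (nat_lit 2) (.nd (nat_lit 3) (.nd (nat_lit 4) (.nd (nat_lit 5) (.nd (nat_lit 6) 
(.lf (nat_lit 119296) (.g (nat_lit 1301) (.e (nat_lit 7936) (nat_lit 343) (.e (nat_lit 1255) (nat_lit 92) (.e (nat_lit 98372) (nat_lit 29) (.e (nat_lit 450586) (nat_lit 10) (.e (nat_lit 573478) (nat_lit 12) .nil))))) .nil)) 
(.lf (nat_lit 119360) (.g (nat_lit 3671) (.e (nat_lit 6505) (nat_lit 344) (.e (nat_lit 8261) (nat_lit 45) (.e (nat_lit 778320) (nat_lit 4) (.e (nat_lit 65630) (nat_lit 14) (.e (nat_lit 401459) (nat_lit 13) (.e (nat_lit 483344) (nat_lit 17) .nil)))))) (.g (nat_lit 6) .nil .nil)))) (.nd (nat_lit 6) 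
(.lf (nat_lit 119328) (.g (nat_lit 4299) (.e (nat_lit 7936) (nat_lit 343) (.e (nat_lit 1656) (nat_lit 115) (.e (nat_lit 393301) (nat_lit 27) (.e (nat_lit 491559) (nat_lit 10) (.e (nat_lit 344097) (nat_lit 18) .nil))))) .nil)) 
(.lf (nat_lit 119392) (.g (nat_lit 2686) (.e (nat_lit 6508) (nat_lit 345) (.e (nat_lit 16473) (nat_lit 14) (.e (nat_lit 491558) (nat_lit 10) (.e (nat_lit 352000) (nat_lit 44) .nil)))) .nil)))) (.nd (nat_lit 5) (.nd (nat_lit 6) 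
(.lf (nat_lit 119312) (.g (nat_lit 1086) (.e (nat_lit 7936) (nat_lit 343) (.e (nat_lit 1656) (nat_lit 115) (.e (nat_lit 393234) (nat_lit 17) (.e (nat_lit 7593) (nat_lit 407) .nil)))) .nil)) 
(.lf (nat_lit 119376) (.g (nat_lit 1521) (.e (nat_lit 6508) (nat_lit 345) (.e (nat_lit 16472) (nat_lit 14) (.e (nat_lit 491546) (nat_lit 9) (.e (nat_lit 336048) (nat_lit 6) .nil)))) .nil))) (.nd (nat_lit 6) 
(.lf (nat_lit 119344) (.g (nat_lit 2646) (.e (nat_lit 7936) (nat_lit 343) (.e (nat_lit 1659) (nat_lit 115) (.e (nat_lit 393301) (nat_lit 27) (.e (nat_lit 491560) (nat_lit 10) (.e (nat_lit 344090) (nat_lit 18) .nil))))) .nil)) 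
(.lf (nat_lit 119408) (.g (nat_lit 2870) (.e (nat_lit 6509) (nat_lit 345) (.e (nat_lit 16470) (nat_lit 14) (.e (nat_lit 491571) (nat_lit 13) (.e (nat_lit 393298) (nat_lit 27) .nil)))) .nil))))) (.nd (nat_lit 4) (.nd (nat_lit 5) (.nd (nat_lit 6) 
(.lf (nat_lit 119304) (.g (nat_lit 1443) (.e (nat_lit 7936) (nat_lit 343) (.e (nat_lit 1633) (nat_lit 114) (.e (nat_lit 385093) (nat_lit 49) (.e (nat_lit 778326) (nat_lit 6) .nil)))) .nil)) 
(.lf (nat_lit 119368) (.g (nat_lit 3590) (.e (nat_lit 6506) (nat_lit 344) (.e (nat_lit 8268) (nat_lit 45) (.e (nat_lit 778319) (nat_lit 4) (.e (nat_lit 65630) (nat_lit 14) (.e (nat_lit 401459) (nat_lit 13) (.e (nat_lit 483344) (nat_lit 17) .nil)))))) (.g (nat_lit 0) .nil .nil)))) (.nd (nat_lit 6) 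
(.lf (nat_lit 119336) (.g (nat_lit 3132) (.e (nat_lit 7936) (nat_lit 343) (.e (nat_lit 1656) (nat_lit 115) (.e (nat_lit 393301) (nat_lit 27) (.e (nat_lit 491560) (nat_lit 10) (.e (nat_lit 352000) (nat_lit 46) .nil))))) .nil)) 
(.lf (nat_lit 119400) (.g (nat_lit 4005) (.e (nat_lit 6508) (nat_lit 345) (.e (nat_lit 16473) (nat_lit 14) (.e (nat_lit 491560) (nat_lit 10) (.e (nat_lit 344179) (nat_lit 44) (.e (nat_lit 778465) (nat_lit 11) (.e (nat_lit 24580) (nat_lit 0) .nil)))))) (.g (nat_lit 0) .nil .nil))))) (.nd (nat_lit 5) (.nd (nat_lit 6) 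
(.lf (nat_lit 119320) (.g (nat_lit 2785) (.e (nat_lit 7936) (nat_lit 343) (.e (nat_lit 1656) (nat_lit 115) (.e (nat_lit 393301) (nat_lit 27) (.e (nat_lit 491558) (nat_lit 10) (.e (nat_lit 344096) (nat_lit 18) .nil))))) .nil)) 
(.lf (nat_lit 119384) (.g (nat_lit 2258) (.e (nat_lit 6508) (nat_lit 345) (.e (nat_lit 16473) (nat_lit 14) (.e (nat_lit 491556) (nat_lit 9) (.e (nat_lit 336051) (nat_lit 6) (.e (nat_lit 147496) (nat_lit 11) .nil))))) .nil))) (.nd (nat_lit 6) 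
(.lf (nat_lit 119352) (.g (nat_lit 2744) (.e (nat_lit 7936) (nat_lit 343) (.e (nat_lit 1664) (nat_lit 115) (.e (nat_lit 393301) (nat_lit 27) (.e (nat_lit 491559) (nat_lit 10) (.e (nat_lit 344095) (nat_lit 18) .nil))))) .nil)) 
(.lf (nat_lit 119416) (.g (nat_lit 2657) (.e (nat_lit 6509) (nat_lit 345) (.e (nat_lit 16473) (nat_lit 14) (.e (nat_lit 491558) (nat_lit 10) (.e (nat_lit 344100) (nat_lit 18) .nil)))) .nil)))))) (.nd (nat_lit 3) (.nd (nat_lit 4) (.nd (nat_lit 5) (.nd (nat_lit 6) 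
(.lf (nat_lit 119300) (.g (nat_lit 2019) (.e (nat_lit 7936) (nat_lit 343) (.e (nat_lit 1633) (nat_lit 114) (.e (nat_lit 385068) (nat_lit 26) (.e (nat_lit 532499) (nat_lit 1) (.e (nat_lit 57847) (nat_lit 252) .nil))))) .nil)) 
(.lf (nat_lit 119364) (.g (nat_lit 3996) (.e (nat_lit 6506) (nat_lit 344) (.e (nat_lit 8228) (nat_lit 15) (.e (nat_lit 532503) (nat_lit 1) (.e (nat_lit 57848) (nat_lit 252) (.e (nat_lit 57407) (nat_lit 12) (.e (nat_lit 336456) (nat_lit 34) (.e (nat_lit 483346) (nat_lit 17) .nil))))))) (.g (nat_lit 0) .nil .nil)))) (.nd (nat_lit 6) 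
(.lf (nat_lit 119332) (.g (nat_lit 3087) (.e (nat_lit 7936) (nat_lit 343) (.e (nat_lit 1656) (nat_lit 115) (.e (nat_lit 393301) (nat_lit 27) (.e (nat_lit 491560) (nat_lit 10) (.e (nat_lit 344091) (nat_lit 18) .nil))))) .nil)) 
(.lf (nat_lit 119396) (.g (nat_lit 697) (.e (nat_lit 6508) (nat_lit 345) (.e (nat_lit 16473) (nat_lit 14) (.e (nat_lit 491560) (nat_lit 10) .nil))) .nil)))) (.nd (nat_lit 5) (.nd (nat_lit 6) 
(.lf (nat_lit 119316) (.g (nat_lit 1854) (.e (nat_lit 7936) (nat_lit 343) (.e (nat_lit 1656) (nat_lit 115) (.e (nat_lit 393301) (nat_lit 27) (.e (nat_lit 491558) (nat_lit 10) .nil)))) .nil)) 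
(.lf (nat_lit 119380) (.g (nat_lit 1268) (.e (nat_lit 6508) (nat_lit 345) (.e (nat_lit 16473) (nat_lit 14) (.e (nat_lit 491546) (nat_lit 9) .nil))) .nil))) (.nd (nat_lit 6) 
(.lf (nat_lit 119348) (.g (nat_lit 2221) (.e (nat_lit 7936) (nat_lit 343) (.e (nat_lit 1664) (nat_lit 115) (.e (nat_lit 393301) (nat_lit 27) (.e (nat_lit 491558) (nat_lit 10) (.e (nat_lit 344090) (nat_lit 18) .nil))))) .nil)) 
(.lf (nat_lit 119412) (.g (nat_lit 2375) (.e (nat_lit 6509) (nat_lit 345) (.e (nat_lit 16472) (nat_lit 14) (.e (nat_lit 491560) (nat_lit 10) (.e (nat_lit 344177) (nat_lit 43) .nil)))) .nil))))) (.nd (nat_lit 4) (.nd (nat_lit 5) (.nd (nat_lit 6) 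
(.lf (nat_lit 119308) (.g (nat_lit 1025) (.e (nat_lit 7936) (nat_lit 343) (.e (nat_lit 1656) (nat_lit 115) (.e (nat_lit 393234) (nat_lit 17) (.e (nat_lit 7591) (nat_lit 407) .nil)))) .nil)) 
(.lf (nat_lit 119372) (.g (nat_lit 798) (.e (nat_lit 6508) (nat_lit 345) (.e (nat_lit 16435) (nat_lit 9) (.e (nat_lit 426448) (nat_lit 20) .nil))) .nil))) (.nd (nat_lit 6) 
(.lf (nat_lit 119340) (.g (nat_lit 2145) (.e (nat_lit 7936) (nat_lit 343) (.e (nat_lit 1659) (nat_lit 115) (.e (nat_lit 393301) (nat_lit 27) (.e (nat_lit 491558) (nat_lit 10) (.e (nat_lit 344096) (nat_lit 18) .nil))))) .nil)) 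
(.lf (nat_lit 119404) (.g (nat_lit 2427) (.e (nat_lit 6508) (nat_lit 345) (.e (nat_lit 16487) (nat_lit 27) (.e (nat_lit 335988) (nat_lit 1) (.e (nat_lit 57854) (nat_lit 252) (.e (nat_lit 57371) (nat_lit 2) .nil))))) .nil)))) (.nd (nat_lit 5) (.nd (nat_lit 6) 
(.lf (nat_lit 119324) (.g (nat_lit 4244) (.e (nat_lit 7936) (nat_lit 343) (.e (nat_lit 1656) (nat_lit 115) (.e (nat_lit 393301) (nat_lit 27) (.e (nat_lit 491559) (nat_lit 10) (.e (nat_lit 344091) (nat_lit 18) .nil))))) .nil)) 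
(.lf (nat_lit 119388) (.g (nat_lit 2756) (.e (nat_lit 6508) (nat_lit 345) (.e (nat_lit 16473) (nat_lit 14) (.e (nat_lit 491558) (nat_lit 10) (.e (nat_lit 344100) (nat_lit 18) .nil)))) .nil))) (.nd (nat_lit 6) 
(.lf (nat_lit 119356) (.g (nat_lit 2922) (.e (nat_lit 7936) (nat_lit 343) (.e (nat_lit 1664) (nat_lit 115) (.e (nat_lit 393301) (nat_lit 27) (.e (nat_lit 491560) (nat_lit 10) (.e (nat_lit 344095) (nat_lit 18) .nil))))) .nil)) 
(.lf (nat_lit 119420) (.g (nat_lit 4900) (.e (nat_lit 6509) (nat_lit 345) (.e (nat_lit 16473) (nat_lit 14) (.e (nat_lit 491559) (nat_lit 10) (.e (nat_lit 344177) (nat_lit 43) (.e (nat_lit 770071) (nat_lit 8) (.e (nat_lit 65538) (nat_lit 0) .nil)))))) (.g (nat_lit 0) .nil .nil)))))))) (.nd (nat_lit 2) (.nd (nat_lit 3) (.nd (nat_lit 4) (.nd (nat_lit 5) (.nd (nat_lit 6) 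
(.lf (nat_lit 119298) (.g (nat_lit 3276) (.e (nat_lit 7936) (nat_lit 343) (.e (nat_lit 1255) (nat_lit 92) (.e (nat_lit 98373) (nat_lit 29) (.e (nat_lit 450587) (nat_lit 10) (.e (nat_lit 573478) (nat_lit 12) .nil))))) .nil)) 
(.lf (nat_lit 119362) (.g (nat_lit 4443) (.e (nat_lit 6506) (nat_lit 344) (.e (nat_lit 8227) (nat_lit 15) (.e (nat_lit 532504) (nat_lit 1) (.e (nat_lit 57851) (nat_lit 252) (.e (nat_lit 57406) (nat_lit 12) (.e (nat_lit 336456) (nat_lit 34) (.e (nat_lit 483346) (nat_lit 17) .nil))))))) (.g (nat_lit 0) .nil .nil)))) (.nd (nat_lit 6) 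
(.lf (nat_lit 119330) (.g (nat_lit 3186) (.e (nat_lit 7936) (nat_lit 343) (.e (nat_lit 1656) (nat_lit 115) (.e (nat_lit 393301) (nat_lit 27) (.e (nat_lit 491560) (nat_lit 10) (.e (nat_lit 344088) (nat_lit 18) .nil))))) .nil)) 
(.lf (nat_lit 119394) (.g (nat_lit 1284) (.e (nat_lit 6508) (nat_lit 345) (.e (nat_lit 16473) (nat_lit 14) (.e (nat_lit 491559) (nat_lit 10) .nil))) .nil)))) (.nd (nat_lit 5) (.nd (nat_lit 6) 
(.lf (nat_lit 119314) (.g (nat_lit 1514) (.e (nat_lit 7936) (nat_lit 343) (.e (nat_lit 1656) (nat_lit 115) (.e (nat_lit 393300) (nat_lit 27) (.e (nat_lit 491558) (nat_lit 10) .nil)))) .nil)) 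
(.lf (nat_lit 119378) (.g (nat_lit 1503) (.e (nat_lit 6508) (nat_lit 345) (.e (nat_lit 16472) (nat_lit 14) (.e (nat_lit 491560) (nat_lit 10) (.e (nat_lit 344179) (nat_lit 44) .nil)))) .nil))) (.nd (nat_lit 6) 
(.lf (nat_lit 119346) (.g (nat_lit 3366) (.e (nat_lit 7936) (nat_lit 343) (.e (nat_lit 1659) (nat_lit 115) (.e (nat_lit 393301) (nat_lit 27) (.e (nat_lit 491560) (nat_lit 10) (.e (nat_lit 344095) (nat_lit 18) .nil))))) .nil)) 
(.lf (nat_lit 119410) (.g (nat_lit 2785) (.e (nat_lit 6509) (nat_lit 345) (.e (nat_lit 16471) (nat_lit 14) (.e (nat_lit 491560) (nat_lit 10) (.e (nat_lit 344177) (nat_lit 43) (.e (nat_lit 770071) (nat_lit 8) .nil))))) .nil))))) (.nd (nat_lit 4) (.nd (nat_lit 5) (.nd (nat_lit 6) 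
(.lf (nat_lit 119306) (.g (nat_lit 1189) (.e (nat_lit 7936) (nat_lit 343) (.e (nat_lit 1633) (nat_lit 114) (.e (nat_lit 385094) (nat_lit 49) (.e (nat_lit 778326) (nat_lit 6) .nil)))) .nil)) 
(.lf (nat_lit 119370) (.g (nat_lit 1239) (.e (nat_lit 7936) (nat_lit 344) (.e (nat_lit 8234) (nat_lit 20) (.e (nat_lit 573485) (nat_lit 13) (.e (nat_lit 65619) (nat_lit 10) (.e (nat_lit 344129) (nat_lit 26) .nil))))) .nil))) (.nd (nat_lit 6) 
(.lf (nat_lit 119338) (.g (nat_lit 2038) (.e (nat_lit 7936) (nat_lit 343) (.e (nat_lit 1659) (nat_lit 115) (.e (nat_lit 393301) (nat_lit 27) (.e (nat_lit 491558) (nat_lit 10) (.e (nat_lit 344090) (nat_lit 18) .nil))))) .nil)) 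
(.lf (nat_lit 119402) (.g (nat_lit 2973) (.e (nat_lit 6508) (nat_lit 345) (.e (nat_lit 16483) (nat_lit 27) (.e (nat_lit 335995) (nat_lit 1) (.e (nat_lit 57848) (nat_lit 252) (.e (nat_lit 57372) (nat_lit 2) (.e (nat_lit 90159) (nat_lit 11) (.e (nat_lit 24580) (nat_lit 0) .nil))))))) (.g (nat_lit 0) .nil .nil))))) (.nd (nat_lit 5) (.nd (nat_lit 6) 
(.lf (nat_lit 119322) (.g (nat_lit 2105) (.e (nat_lit 7936) (nat_lit 343) (.e (nat_lit 1656) (nat_lit 115) (.e (nat_lit 393301) (nat_lit 27) (.e (nat_lit 491559) (nat_lit 10) .nil)))) .nil)) 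
(.lf (nat_lit 119386) (.g (nat_lit 2652) (.e (nat_lit 6508) (nat_lit 345) (.e (nat_lit 16473) (nat_lit 14) (.e (nat_lit 491558) (nat_lit 10) (.e (nat_lit 344091) (nat_lit 18) .nil)))) .nil))) (.nd (nat_lit 6) 
(.lf (nat_lit 119354) (.g (nat_lit 2726) (.e (nat_lit 7936) (nat_lit 343) (.e (nat_lit 1664) (nat_lit 115) (.e (nat_lit 393301) (nat_lit 27) (.e (nat_lit 491559) (nat_lit 10) (.e (nat_lit 344097) (nat_lit 18) .nil))))) .nil)) 
(.lf (nat_lit 119418) (.g (nat_lit 2919) (.e (nat_lit 6509) (nat_lit 345) (.e (nat_lit 16473) (nat_lit 14) (.e (nat_lit 491559) (nat_lit 10) (.e (nat_lit 344097) (nat_lit 18) .nil)))) .nil)))))) (.nd (nat_lit 3) (.nd (nat_lit 4) (.nd (nat_lit 5) (.nd (nat_lit 6) 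
(.lf (nat_lit 119302) (.g (nat_lit 1457) (.e (nat_lit 7936) (nat_lit 343) (.e (nat_lit 1633) (nat_lit 114) (.e (nat_lit 385068) (nat_lit 26) (.e (nat_lit 532503) (nat_lit 1) (.e (nat_lit 57847) (nat_lit 252) .nil))))) .nil)) 
(.lf (nat_lit 119366) (.g (nat_lit 4487) (.e (nat_lit 6506) (nat_lit 344) (.e (nat_lit 8261) (nat_lit 45) (.e (nat_lit 778317) (nat_lit 3) (.e (nat_lit 57480) (nat_lit 28) (.e (nat_lit 557108) (nat_lit 15) (.e (nat_lit 188452) (nat_lit 23) (.e (nat_lit 204816) (nat_lit 17) .nil))))))) (.g (nat_lit 0) .nil .nil)))) (.nd (nat_lit 6) 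
(.lf (nat_lit 119334) (.g (nat_lit 3660) (.e (nat_lit 7936) (nat_lit 343) (.e (nat_lit 1656) (nat_lit 115) (.e (nat_lit 393301) (nat_lit 27) (.e (nat_lit 491560) (nat_lit 10) (.e (nat_lit 344095) (nat_lit 18) .nil))))) .nil)) 
(.lf (nat_lit 119398) (.g (nat_lit 2469) (.e (nat_lit 6508) (nat_lit 345) (.e (nat_lit 16473) (nat_lit 14) (.e (nat_lit 491560) (nat_lit 10) (.e (nat_lit 344179) (nat_lit 44) (.e (nat_lit 778463) (nat_lit 11) .nil))))) .nil)))) (.nd (nat_lit 5) (.nd (nat_lit 6) 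
(.lf (nat_lit 119318) (.g (nat_lit 2737) (.e (nat_lit 7936) (nat_lit 343) (.e (nat_lit 1656) (nat_lit 115) (.e (nat_lit 393301) (nat_lit 27) (.e (nat_lit 491558) (nat_lit 10) (.e (nat_lit 344091) (nat_lit 18) .nil))))) .nil)) 
(.lf (nat_lit 119382) (.g (nat_lit 1114) (.e (nat_lit 6508) (nat_lit 345) (.e (nat_lit 16473) (nat_lit 14) (.e (nat_lit 491556) (nat_lit 9) .nil))) .nil))) (.nd (nat_lit 6) 
(.lf (nat_lit 119350) (.g (nat_lit 2013) (.e (nat_lit 7936) (nat_lit 343) (.e (nat_lit 1664) (nat_lit 115) (.e (nat_lit 393301) (nat_lit 27) (.e (nat_lit 491558) (nat_lit 10) (.e (nat_lit 352000) (nat_lit 46) .nil))))) .nil)) 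
(.lf (nat_lit 119414) (.g (nat_lit 1195) (.e (nat_lit 6509) (nat_lit 345) (.e (nat_lit 16473) (nat_lit 14) (.e (nat_lit 491558) (nat_lit 10) .nil))) .nil))))) (.nd (nat_lit 4) (.nd (nat_lit 5) (.nd (nat_lit 6) 
(.lf (nat_lit 119310) (.g (nat_lit 1648) (.e (nat_lit 7936) (nat_lit 343) (.e (nat_lit 1656) (nat_lit 115) (.e (nat_lit 393234) (nat_lit 17) (.e (nat_lit 7591) (nat_lit 407) (.e (nat_lit 73731) (nat_lit 0) .nil))))) .nil)) 
(.lf (nat_lit 119374) (.g (nat_lit 2731) (.e (nat_lit 6508) (nat_lit 345) (.e (nat_lit 16470) (nat_lit 14) (.e (nat_lit 491571) (nat_lit 13) (.e (nat_lit 393298) (nat_lit 27) .nil)))) .nil))) (.nd (nat_lit 6) 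
(.lf (nat_lit 119342) (.g (nat_lit 2745) (.e (nat_lit 7936) (nat_lit 343) (.e (nat_lit 1659) (nat_lit 115) (.e (nat_lit 393301) (nat_lit 27) (.e (nat_lit 491559) (nat_lit 10) (.e (nat_lit 344095) (nat_lit 18) .nil))))) .nil)) 
(.lf (nat_lit 119406) (.g (nat_lit 2426) (.e (nat_lit 6508) (nat_lit 345) (.e (nat_lit 16487) (nat_lit 27) (.e (nat_lit 335995) (nat_lit 1) (.e (nat_lit 57848) (nat_lit 252) (.e (nat_lit 57375) (nat_lit 2) (.e (nat_lit 90159) (nat_lit 11) (.e (nat_lit 24580) (nat_lit 0) .nil))))))) (.g (nat_lit 5) .nil .nil))))) (.nd (nat_lit 5) (.nd (nat_lit 6) 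
(.lf (nat_lit 119326) (.g (nat_lit 4318) (.e (nat_lit 7936) (nat_lit 343) (.e (nat_lit 1656) (nat_lit 115) (.e (nat_lit 393301) (nat_lit 27) (.e (nat_lit 491559) (nat_lit 10) (.e (nat_lit 344095) (nat_lit 18) .nil))))) .nil)) 
(.lf (nat_lit 119390) (.g (nat_lit 2869) (.e (nat_lit 6508) (nat_lit 345) (.e (nat_lit 16473) (nat_lit 14) (.e (nat_lit 491558) (nat_lit 10) (.e (nat_lit 344179) (nat_lit 44) .nil)))) .nil))) (.nd (nat_lit 6) 
(.lf (nat_lit 119358) (.g (nat_lit 2409) (.e (nat_lit 7936) (nat_lit 343) (.e (nat_lit 1665) (nat_lit 115) (.e (nat_lit 393301) (nat_lit 27) (.e (nat_lit 491560) (nat_lit 10) (.e (nat_lit 344094) (nat_lit 18) .nil))))) .nil)) 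
(.lf (nat_lit 119422) (.g (nat_lit 1132) (.e (nat_lit 6509) (nat_lit 345) (.e (nat_lit 16473) (nat_lit 14) (.e (nat_lit 491560) (nat_lit 10) .nil))) .nil)))))))) (.nd (nat_lit 1) (.nd (nat_lit 2) (.nd (nat_lit 3) (.nd (nat_lit 4) (.nd (nat_lit 5) (.nd (nat_lit 6) 
(.lf (nat_lit 119297) (.g (nat_lit 3223) (.e (nat_lit 7936) (nat_lit 343) (.e (nat_lit 1255) (nat_lit 92) (.e (nat_lit 98373) (nat_lit 29) (.e (nat_lit 450587) (nat_lit 10) (.e (nat_lit 573477) (nat_lit 12) .nil))))) .nil)) 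
(.lf (nat_lit 119361) (.g (nat_lit 3287) (.e (nat_lit 6505) (nat_lit 344) (.e (nat_lit 8268) (nat_lit 45) (.e (nat_lit 778319) (nat_lit 4) (.e (nat_lit 65630) (nat_lit 14) (.e (nat_lit 401459) (nat_lit 13) (.e (nat_lit 483344) (nat_lit 17) .nil)))))) (.g (nat_lit 0) .nil .nil)))) (.nd (nat_lit 6) 
(.lf (nat_lit 119329) (.g (nat_lit 3697) (.e (nat_lit 7936) (nat_lit 343) (.e (nat_lit 1656) (nat_lit 115) (.e (nat_lit 393301) (nat_lit 27) (.e (nat_lit 491560) (nat_lit 10) (.e (nat_lit 344087) (nat_lit 18) .nil))))) .nil)) 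
(.lf (nat_lit 119393) (.g (nat_lit 2686) (.e (nat_lit 6508) (nat_lit 345) (.e (nat_lit 16473) (nat_lit 14) (.e (nat_lit 491558) (nat_lit 10) (.e (nat_lit 352000) (nat_lit 46) .nil)))) .nil)))) (.nd (nat_lit 5) (.nd (nat_lit 6) 
(.lf (nat_lit 119313) (.g (nat_lit 1724) (.e (nat_lit 7936) (nat_lit 343) (.e (nat_lit 1656) (nat_lit 115) (.e (nat_lit 393234) (nat_lit 17) (.e (nat_lit 7593) (nat_lit 407) (.e (nat_lit 73731) (nat_lit 0) .nil))))) .nil)) 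
(.lf (nat_lit 119377) (.g (nat_lit 1788) (.e (nat_lit 6508) (nat_lit 345) (.e (nat_lit 16472) (nat_lit 14) (.e (nat_lit 491556) (nat_lit 9) (.e (nat_lit 336051) (nat_lit 6) (.e (nat_lit 147495) (nat_lit 11) .nil))))) .nil))) (.nd (nat_lit 6) 
(.lf (nat_lit 119345) (.g (nat_lit 2610) (.e (nat_lit 7936) (nat_lit 343) (.e (nat_lit 1659) (nat_lit 115) (.e (nat_lit 393301) (nat_lit 27) (.e (nat_lit 491560) (nat_lit 10) (.e (nat_lit 344094) (nat_lit 18) .nil))))) .nil)) 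
(.lf (nat_lit 119409) (.g (nat_lit 2920) (.e (nat_lit 6509) (nat_lit 345) (.e (nat_lit 16470) (nat_lit 14) (.e (nat_lit 491571) (nat_lit 13) (.e (nat_lit 393299) (nat_lit 27) .nil)))) .nil))))) (.nd (nat_lit 4) (.nd (nat_lit 5) (.nd (nat_lit 6) 
(.lf (nat_lit 119305) (.g (nat_lit 1138) (.e (nat_lit 7936) (nat_lit 343) (.e (nat_lit 1633) (nat_lit 114) (.e (nat_lit 385094) (nat_lit 49) (.e (nat_lit 778323) (nat_lit 5) .nil)))) .nil)) 
(.lf (nat_lit 119369) (.g (nat_lit 2712) (.e (nat_lit 7936) (nat_lit 344) (.e (nat_lit 8234) (nat_lit 20) (.e (nat_lit 573482) (nat_lit 13) (.e (nat_lit 65619) (nat_lit 10) (.e (nat_lit 344117) (nat_lit 21) .nil))))) .nil))) (.nd (nat_lit 6) 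
(.lf (nat_lit 119337) (.g (nat_lit 3132) (.e (nat_lit 7936) (nat_lit 343) (.e (nat_lit 1656) (nat_lit 115) (.e (nat_lit 393301) (nat_lit 27) (.e (nat_lit 491560) (nat_lit 10) (.e (nat_lit 352000) (nat_lit 47) .nil))))) .nil)) 
(.lf (nat_lit 119401) (.g (nat_lit 2966) (.e (nat_lit 6508) (nat_lit 345) (.e (nat_lit 16473) (nat_lit 14) (.e (nat_lit 491568) (nat_lit 13) (.e (nat_lit 393301) (nat_lit 27) .nil)))) .nil)))) (.nd (nat_lit 5) (.nd (nat_lit 6) 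
(.lf (nat_lit 119321) (.g (nat_lit 3098) (.e (nat_lit 7936) (nat_lit 343) (.e (nat_lit 1656) (nat_lit 115) (.e (nat_lit 393301) (nat_lit 27) (.e (nat_lit 491558) (nat_lit 10) (.e (nat_lit 352000) (nat_lit 46) .nil))))) .nil)) 
(.lf (nat_lit 119385) (.g (nat_lit 1285) (.e (nat_lit 6508) (nat_lit 345) (.e (nat_lit 16473) (nat_lit 14) (.e (nat_lit 491558) (nat_lit 10) .nil))) .nil))) (.nd (nat_lit 6) 
(.lf (nat_lit 119353) (.g (nat_lit 2696) (.e (nat_lit 7936) (nat_lit 343) (.e (nat_lit 1664) (nat_lit 115) (.e (nat_lit 393301) (nat_lit 27) (.e (nat_lit 491559) (nat_lit 10) (.e (nat_lit 344096) (nat_lit 18) .nil))))) .nil)) 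
(.lf (nat_lit 119417) (.g (nat_lit 2672) (.e (nat_lit 6509) (nat_lit 345) (.e (nat_lit 16473) (nat_lit 14) (.e (nat_lit 491558) (nat_lit 10) (.e (nat_lit 344177) (nat_lit 43) .nil)))) .nil)))))) (.nd (nat_lit 3) (.nd (nat_lit 4) (.nd (nat_lit 5) (.nd (nat_lit 6) 
(.lf (nat_lit 119301) (.g (nat_lit 1335) (.e (nat_lit 7936) (nat_lit 343) (.e (nat_lit 1633) (nat_lit 114) (.e (nat_lit 385068) (nat_lit 26) (.e (nat_lit 532501) (nat_lit 1) .nil)))) .nil)) 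
(.lf (nat_lit 119365) (.g (nat_lit 3909) (.e (nat_lit 6506) (nat_lit 344) (.e (nat_lit 8228) (nat_lit 15) (.e (nat_lit 532504) (nat_lit 1) (.e (nat_lit 57851) (nat_lit 252) (.e (nat_lit 57406) (nat_lit 12) (.e (nat_lit 336456) (nat_lit 34) (.e (nat_lit 483346) (nat_lit 17) .nil))))))) (.g (nat_lit 0) .nil .nil)))) (.nd (nat_lit 6) 
(.lf (nat_lit 119333) (.g (nat_lit 3100) (.e (nat_lit 7936) (nat_lit 343) (.e (nat_lit 1656) (nat_lit 115) (.e (nat_lit 393301) (nat_lit 27) (.e (nat_lit 491560) (nat_lit 10) (.e (nat_lit 344094) (nat_lit 18) .nil))))) .nil)) 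
(.lf (nat_lit 119397) (.g (nat_lit 1805) (.e (nat_lit 6508) (nat_lit 345) (.e (nat_lit 16473) (nat_lit 14) (.e (nat_lit 491560) (nat_lit 10) (.e (nat_lit 344179) (nat_lit 44) .nil)))) .nil)))) (.nd (nat_lit 5) (.nd (nat_lit 6) 
(.lf (nat_lit 119317) (.g (nat_lit 2898) (.e (nat_lit 7936) (nat_lit 343) (.e (nat_lit 1656) (nat_lit 115) (.e (nat_lit 393301) (nat_lit 27) (.e (nat_lit 491558) (nat_lit 10) (.e (nat_lit 344090) (nat_lit 18) .nil))))) .nil)) 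
(.lf (nat_lit 119381) (.g (nat_lit 3008) (.e (nat_lit 6508) (nat_lit 345) (.e (nat_lit 16473) (nat_lit 14) (.e (nat_lit 491546) (nat_lit 9) (.e (nat_lit 336048) (nat_lit 6) (.e (nat_lit 147495) (nat_lit 11) (.e (nat_lit 24580) (nat_lit 0) .nil)))))) (.g (nat_lit 4) .nil .nil)))) (.nd (nat_lit 6) 
(.lf (nat_lit 119349) (.g (nat_lit 2124) (.e (nat_lit 7936) (nat_lit 343) (.e (nat_lit 1664) (nat_lit 115) (.e (nat_lit 393301) (nat_lit 27) (.e (nat_lit 491558) (nat_lit 10) (.e (nat_lit 344095) (nat_lit 18) .nil))))) .nil)) 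
(.lf (nat_lit 119413) (.g (nat_lit 2364) (.e (nat_lit 6509) (nat_lit 345) (.e (nat_lit 16473) (nat_lit 14) (.e (nat_lit 491556) (nat_lit 9) (.e (nat_lit 336051) (nat_lit 6) .nil)))) .nil))))) (.nd (nat_lit 4) (.nd (nat_lit 5) (.nd (nat_lit 6) 
(.lf (nat_lit 119309) (.g (nat_lit 1682) (.e (nat_lit 7936) (nat_lit 343) (.e (nat_lit 1656) (nat_lit 115) (.e (nat_lit 393234) (nat_lit 17) (.e (nat_lit 7591) (nat_lit 407) (.e (nat_lit 73730) (nat_lit 0) .nil))))) .nil)) 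
(.lf (nat_lit 119373) (.g (nat_lit 497) (.e (nat_lit 6508) (nat_lit 345) (.e (nat_lit 16456) (nat_lit 12) (.e (nat_lit 475214) (nat_lit 42) .nil))) .nil))) (.nd (nat_lit 6) 
(.lf (nat_lit 119341) (.g (nat_lit 2736) (.e (nat_lit 7936) (nat_lit 343) (.e (nat_lit 1659) (nat_lit 115) (.e (nat_lit 393301) (nat_lit 27) (.e (nat_lit 491559) (nat_lit 10) (.e (nat_lit 344090) (nat_lit 18) .nil))))) .nil)) 
(.lf (nat_lit 119405) (.g (nat_lit 2583) (.e (nat_lit 6508) (nat_lit 345) (.e (nat_lit 16487) (nat_lit 27) (.e (nat_lit 335988) (nat_lit 1) (.e (nat_lit 57854) (nat_lit 252) (.e (nat_lit 57373) (nat_lit 2) (.e (nat_lit 90160) (nat_lit 11) (.e (nat_lit 24580) (nat_lit 0) .nil))))))) (.g (nat_lit 4) .nil .nil))))) (.nd (nat_lit 5) (.nd (nat_lit 6) 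
(.lf (nat_lit 119325) (.g (nat_lit 4270) (.e (nat_lit 7936) (nat_lit 343) (.e (nat_lit 1656) (nat_lit 115) (.e (nat_lit 393301) (nat_lit 27) (.e (nat_lit 491559) (nat_lit 10) (.e (nat_lit 344094) (nat_lit 18) .nil))))) .nil)) 
(.lf (nat_lit 119389) (.g (nat_lit 2700) (.e (nat_lit 6508) (nat_lit 345) (.e (nat_lit 16473) (nat_lit 14) (.e (nat_lit 491558) (nat_lit 10) (.e (nat_lit 344174) (nat_lit 42) .nil)))) .nil))) (.nd (nat_lit 6) 
(.lf (nat_lit 119357) (.g (nat_lit 2142) (.e (nat_lit 7936) (nat_lit 343) (.e (nat_lit 1665) (nat_lit 115) (.e (nat_lit 393301) (nat_lit 27) (.e (nat_lit 491558) (nat_lit 10) (.e (nat_lit 344090) (nat_lit 18) .nil))))) .nil)) 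
(.lf (nat_lit 119421) (.g (nat_lit 5026) (.e (nat_lit 6509) (nat_lit 345) (.e (nat_lit 16473) (nat_lit 14) (.e (nat_lit 491559) (nat_lit 10) (.e (nat_lit 344177) (nat_lit 43) (.e (nat_lit 770072) (nat_lit 8) (.e (nat_lit 65538) (nat_lit 0) .nil)))))) (.g (nat_lit 6) .nil .nil)))))))) (.nd (nat_lit 2) (.nd (nat_lit 3) (.nd (nat_lit 4) (.nd (nat_lit 5) (.nd (nat_lit 6) 
(.lf (nat_lit 119299) (.g (nat_lit 1850) (.e (nat_lit 7936) (nat_lit 343) (.e (nat_lit 1256) (nat_lit 92) (.e (nat_lit 98350) (nat_lit 24) (.e (nat_lit 409646) (nat_lit 18) (.e (nat_lit 303117) (nat_lit 2) .nil))))) .nil)) 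
(.lf (nat_lit 119363) (.g (nat_lit 4459) (.e (nat_lit 6506) (nat_lit 344) (.e (nat_lit 8228) (nat_lit 15) (.e (nat_lit 532501) (nat_lit 1) (.e (nat_lit 57851) (nat_lit 252) (.e (nat_lit 57406) (nat_lit 12) (.e (nat_lit 336456) (nat_lit 34) (.e (nat_lit 483346) (nat_lit 17) .nil))))))) (.g (nat_lit 0) .nil .nil)))) (.nd (nat_lit 6) 
(.lf (nat_lit 119331) (.g (nat_lit 3042) (.e (nat_lit 7936) (nat_lit 343) (.e (nat_lit 1656) (nat_lit 115) (.e (nat_lit 393301) (nat_lit 27) (.e (nat_lit 491560) (nat_lit 10) (.e (nat_lit 344090) (nat_lit 18) .nil))))) .nil)) 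
(.lf (nat_lit 119395) (.g (nat_lit 3811) (.e (nat_lit 6508) (nat_lit 345) (.e (nat_lit 16473) (nat_lit 14) (.e (nat_lit 491559) (nat_lit 10) (.e (nat_lit 344177) (nat_lit 43) (.e (nat_lit 770072) (nat_lit 8) .nil))))) .nil)))) (.nd (nat_lit 5) (.nd (nat_lit 6) 
(.lf (nat_lit 119315) (.g (nat_lit 1318) (.e (nat_lit 7936) (nat_lit 343) (.e (nat_lit 1656) (nat_lit 115) (.e (nat_lit 393300) (nat_lit 27) (.e (nat_lit 491560) (nat_lit 10) .nil)))) .nil)) 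
(.lf (nat_lit 119379) (.g (nat_lit 2054) (.e (nat_lit 6508) (nat_lit 345) (.e (nat_lit 16472) (nat_lit 14) (.e (nat_lit 491560) (nat_lit 10) (.e (nat_lit 344179) (nat_lit 44) (.e (nat_lit 778465) (nat_lit 11) .nil))))) .nil))) (.nd (nat_lit 6) 
(.lf (nat_lit 119347) (.g (nat_lit 507) (.e (nat_lit 7936) (nat_lit 343) (.e (nat_lit 1664) (nat_lit 115) (.e (nat_lit 393234) (nat_lit 17) (.e (nat_lit 7591) (nat_lit 407) .nil)))) .nil)) 
(.lf (nat_lit 119411) (.g (nat_lit 2992) (.e (nat_lit 6509) (nat_lit 345) (.e (nat_lit 16471) (nat_lit 14) (.e (nat_lit 491560) (nat_lit 10) (.e (nat_lit 344177) (nat_lit 43) (.e (nat_lit 770072) (nat_lit 8) .nil))))) .nil))))) (.nd (nat_lit 4) (.nd (nat_lit 5) (.nd (nat_lit 6) 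
(.lf (nat_lit 119307) (.g (nat_lit 292) (.e (nat_lit 7936) (nat_lit 343) (.e (nat_lit 1633) (nat_lit 114) (.e (nat_lit 385106) (nat_lit 50) .nil))) .nil)) 
(.lf (nat_lit 119371) (.g (nat_lit 524) (.e (nat_lit 6508) (nat_lit 345) (.e (nat_lit 16388) (nat_lit 0) (.e (nat_lit 7591) (nat_lit 407) .nil))) .nil))) (.nd (nat_lit 6) 
(.lf (nat_lit 119339) (.g (nat_lit 2114) (.e (nat_lit 7936) (nat_lit 343) (.e (nat_lit 1659) (nat_lit 115) (.e (nat_lit 393301) (nat_lit 27) (.e (nat_lit 491558) (nat_lit 10) (.e (nat_lit 344095) (nat_lit 18) .nil))))) .nil)) 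
(.lf (nat_lit 119403) (.g (nat_lit 2464) (.e (nat_lit 6508) (nat_lit 345) (.e (nat_lit 16487) (nat_lit 27) (.e (nat_lit 335986) (nat_lit 1) (.e (nat_lit 57847) (nat_lit 252) (.e (nat_lit 57372) (nat_lit 2) (.e (nat_lit 90160) (nat_lit 11) (.e (nat_lit 24580) (nat_lit 0) .nil))))))) (.g (nat_lit 4) .nil .nil))))) (.nd (nat_lit 5) (.nd (nat_lit 6) 
(.lf (nat_lit 119323) (.g (nat_lit 4311) (.e (nat_lit 7936) (nat_lit 343) (.e (nat_lit 1656) (nat_lit 115) (.e (nat_lit 393301) (nat_lit 27) (.e (nat_lit 491559) (nat_lit 10) (.e (nat_lit 344090) (nat_lit 18) .nil))))) .nil)) 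
(.lf (nat_lit 119387) (.g (nat_lit 2745) (.e (nat_lit 6508) (nat_lit 345) (.e (nat_lit 16473) (nat_lit 14) (.e (nat_lit 491558) (nat_lit 10) (.e (nat_lit 344097) (nat_lit 18) .nil)))) .nil))) (.nd (nat_lit 6) 
(.lf (nat_lit 119355) (.g (nat_lit 2279) (.e (nat_lit 7936) (nat_lit 343) (.e (nat_lit 1664) (nat_lit 115) (.e (nat_lit 393301) (nat_lit 27) (.e (nat_lit 491560) (nat_lit 10) (.e (nat_lit 344094) (nat_lit 18) .nil))))) .nil)) 
(.lf (nat_lit 119419) (.g (nat_lit 3077) (.e (nat_lit 6509) (nat_lit 345) (.e (nat_lit 16473) (nat_lit 14) (.e (nat_lit 491559) (nat_lit 10) (.e (nat_lit 344177) (nat_lit 43) .nil)))) .nil)))))) (.nd (nat_lit 3) (.nd (nat_lit 4) (.nd (nat_lit 5) (.nd (nat_lit 6) 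
(.lf (nat_lit 119303) (.g (nat_lit 1395) (.e (nat_lit 7936) (nat_lit 343) (.e (nat_lit 1633) (nat_lit 114) (.e (nat_lit 385068) (nat_lit 26) (.e (nat_lit 532504) (nat_lit 1) (.e (nat_lit 57854) (nat_lit 252) .nil))))) .nil)) 
(.lf (nat_lit 119367) (.g (nat_lit 4562) (.e (nat_lit 6506) (nat_lit 344) (.e (nat_lit 8262) (nat_lit 45) (.e (nat_lit 778317) (nat_lit 3) (.e (nat_lit 57480) (nat_lit 28) (.e (nat_lit 557108) (nat_lit 15) (.e (nat_lit 188452) (nat_lit 23) (.e (nat_lit 204816) (nat_lit 17) .nil))))))) (.g (nat_lit 0) .nil .nil)))) (.nd (nat_lit 6) 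
(.lf (nat_lit 119335) (.g (nat_lit 3299) (.e (nat_lit 7936) (nat_lit 343) (.e (nat_lit 1656) (nat_lit 115) (.e (nat_lit 393301) (nat_lit 27) (.e (nat_lit 491560) (nat_lit 10) (.e (nat_lit 344096) (nat_lit 18) .nil))))) .nil)) 
(.lf (nat_lit 119399) (.g (nat_lit 3927) (.e (nat_lit 6508) (nat_lit 345) (.e (nat_lit 16473) (nat_lit 14) (.e (nat_lit 491560) (nat_lit 10) (.e (nat_lit 344179) (nat_lit 44) (.e (nat_lit 778465) (nat_lit 11) (.e (nat_lit 24578) (nat_lit 0) .nil)))))) (.g (nat_lit 0) .nil .nil))))) (.nd (nat_lit 5) (.nd (nat_lit 6) 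
(.lf (nat_lit 119319) (.g (nat_lit 2771) (.e (nat_lit 7936) (nat_lit 343) (.e (nat_lit 1656) (nat_lit 115) (.e (nat_lit 393301) (nat_lit 27) (.e (nat_lit 491558) (nat_lit 10) (.e (nat_lit 344095) (nat_lit 18) .nil))))) .nil)) 
(.lf (nat_lit 119383) (.g (nat_lit 4261) (.e (nat_lit 6508) (nat_lit 345) (.e (nat_lit 16473) (nat_lit 14) (.e (nat_lit 491556) (nat_lit 9) (.e (nat_lit 336051) (nat_lit 6) (.e (nat_lit 147495) (nat_lit 11) (.e (nat_lit 24580) (nat_lit 0) .nil)))))) (.g (nat_lit 6) .nil .nil)))) (.nd (nat_lit 6) 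
(.lf (nat_lit 119351) (.g (nat_lit 984) (.e (nat_lit 7936) (nat_lit 343) (.e (nat_lit 1664) (nat_lit 115) (.e (nat_lit 393301) (nat_lit 27) (.e (nat_lit 491559) (nat_lit 10) .nil)))) .nil)) 
(.lf (nat_lit 119415) (.g (nat_lit 3279) (.e (nat_lit 6509) (nat_lit 345) (.e (nat_lit 16473) (nat_lit 14) (.e (nat_lit 491558) (nat_lit 10) (.e (nat_lit 344097) (nat_lit 18) (.e (nat_lit 7273) (nat_lit 385) .nil))))) .nil))))) (.nd (nat_lit 4) (.nd (nat_lit 5) (.nd (nat_lit 6) 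
(.lf (nat_lit 119311) (.g (nat_lit 1662) (.e (nat_lit 7936) (nat_lit 343) (.e (nat_lit 1656) (nat_lit 115) (.e (nat_lit 393234) (nat_lit 17) (.e (nat_lit 7591) (nat_lit 407) (.e (nat_lit 81664) (nat_lit 28) .nil))))) .nil)) 
(.lf (nat_lit 119375) (.g (nat_lit 2632) (.e (nat_lit 6508) (nat_lit 345) (.e (nat_lit 16470) (nat_lit 14) (.e (nat_lit 491571) (nat_lit 13) (.e (nat_lit 393299) (nat_lit 27) .nil)))) .nil))) (.nd (nat_lit 6) 
(.lf (nat_lit 119343) (.g (nat_lit 2912) (.e (nat_lit 7936) (nat_lit 343) (.e (nat_lit 1659) (nat_lit 115) (.e (nat_lit 393301) (nat_lit 27) (.e (nat_lit 491560) (nat_lit 10) (.e (nat_lit 344087) (nat_lit 18) .nil))))) .nil)) 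
(.lf (nat_lit 119407) (.g (nat_lit 2958) (.e (nat_lit 6509) (nat_lit 345) (.e (nat_lit 16470) (nat_lit 14) (.e (nat_lit 491569) (nat_lit 13) (.e (nat_lit 393301) (nat_lit 27) .nil)))) .nil)))) (.nd (nat_lit 5) (.nd (nat_lit 6) 
(.lf (nat_lit 119327) (.g (nat_lit 4270) (.e (nat_lit 7936) (nat_lit 343) (.e (nat_lit 1656) (nat_lit 115) (.e (nat_lit 393301) (nat_lit 27) (.e (nat_lit 491559) (nat_lit 10) (.e (nat_lit 344096) (nat_lit 18) .nil))))) .nil)) 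
(.lf (nat_lit 119391) (.g (nat_lit 2715) (.e (nat_lit 6508) (nat_lit 345) (.e (nat_lit 16473) (nat_lit 14) (.e (nat_lit 491558) (nat_lit 10) (.e (nat_lit 344180) (nat_lit 44) .nil)))) .nil))) (.nd (nat_lit 6) 
(.lf (nat_lit 119359) (.g (nat_lit 3079) (.e (nat_lit 7936) (nat_lit 343) (.e (nat_lit 1665) (nat_lit 115) (.e (nat_lit 393301) (nat_lit 27) (.e (nat_lit 491560) (nat_lit 10) (.e (nat_lit 344095) (nat_lit 18) .nil))))) .nil)) 
(.lf (nat_lit 119423) (.g (nat_lit 2837) (.e (nat_lit 6509) (nat_lit 345) (.e (nat_lit 16473) (nat_lit 14) (.e (nat_lit 491560) (nat_lit 10) (.e (nat_lit 344097) (nat_lit 18) .nil)))) .nil)))))))))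

noncomputable def tv1594 : DT := (.nd (nat_lit 0) (.nd (nat_lit 1) (.nd (nat_lit 2) (.nd (nat_lit 3) (.nd (nat_lit 4) (.nd (nat_lit 5) (.nd (nat_lit 6) 
(.lf (nat_lit 119424) (.g (nat_lit 2561) (.e (nat_lit 6509) (nat_lit 345) (.e (nat_lit 16473) (nat_lit 14) (.e (nat_lit 491560) (nat_lit 10) (.e (nat_lit 344099) (nat_lit 18) (.e (nat_lit 7273) (nat_lit 385) .nil))))) .nil)) 
(.lf (nat_lit 119488) (.g (nat_lit 2089) (.e (nat_lit 6513) (nat_lit 346) (.e (nat_lit 57354) (nat_lit 0) (.e (nat_lit 5905) (nat_lit 320) (.e (nat_lit 1190) (nat_lit 88) (.e (nat_lit 65628) (nat_lit 14) .nil))))) .nil))) (.nd (nat_lit 6) 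
(.lf (nat_lit 119456) (.g (nat_lit 2142) (.e (nat_lit 6510) (nat_lit 345) (.e (nat_lit 16487) (nat_lit 27) (.e (nat_lit 335995) (nat_lit 1) (.e (nat_lit 57848) (nat_lit 252) (.e (nat_lit 57375) (nat_lit 2) .nil))))) .nil)) 
(.lf (nat_lit 119520) (.g (nat_lit 1060) (.e (nat_lit 6516) (nat_lit 347) (.e (nat_lit 65571) (nat_lit 3) (.e (nat_lit 98357) (nat_lit 26) .nil))) .nil)))) (.nd (nat_lit 5) (.nd (nat_lit 6) 
(.lf (nat_lit 119440) (.g (nat_lit 2992) (.e (nat_lit 6510) (nat_lit 345) (.e (nat_lit 16471) (nat_lit 14) (.e (nat_lit 491560) (nat_lit 10) (.e (nat_lit 344177) (nat_lit 43) (.e (nat_lit 770072) (nat_lit 8) .nil))))) .nil)) 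
(.lf (nat_lit 119504) (.g (nat_lit 3258) (.e (nat_lit 6514) (nat_lit 346) (.e (nat_lit 57516) (nat_lit 42) (.e (nat_lit 671762) (nat_lit 4) (.e (nat_lit 65630) (nat_lit 14) (.e (nat_lit 401459) (nat_lit 13) (.e (nat_lit 483344) (nat_lit 17) .nil)))))) (.g (nat_lit 6) .nil .nil)))) (.nd (nat_lit 6) 
(.lf (nat_lit 119472) (.g (nat_lit 2076) (.e (nat_lit 7936) (nat_lit 345) (.e (nat_lit 16473) (nat_lit 14) (.e (nat_lit 491559) (nat_lit 10) (.e (nat_lit 344177) (nat_lit 43) .nil)))) .nil)) 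
(.lf (nat_lit 119536) (.g (nat_lit 4532) (.e (nat_lit 6517) (nat_lit 347) (.e (nat_lit 65571) (nat_lit 3) (.e (nat_lit 98350) (nat_lit 24) (.e (nat_lit 409649) (nat_lit 18) (.e (nat_lit 303119) (nat_lit 3) (.e (nat_lit 204816) (nat_lit 17) .nil)))))) (.g (nat_lit 6) .nil .nil)))))) (.nd (nat_lit 4) (.nd (nat_lit 5) (.nd (nat_lit 6) 
(.lf (nat_lit 119432) (.g (nat_lit 2616) (.e (nat_lit 6509) (nat_lit 345) (.e (nat_lit 16473) (nat_lit 14) (.e (nat_lit 491560) (nat_lit 10) (.e (nat_lit 352000) (nat_lit 47) .nil)))) .nil)) 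
(.lf (nat_lit 119496) (.g (nat_lit 779) (.e (nat_lit 6514) (nat_lit 346) (.e (nat_lit 57464) (nat_lit 23) (.e (nat_lit 516180) (nat_lit 15) (.e (nat_lit 475214) (nat_lit 42) .nil)))) .nil))) (.nd (nat_lit 6) 
(.lf (nat_lit 119464) (.g (nat_lit 3047) (.e (nat_lit 7936) (nat_lit 345) (.e (nat_lit 16472) (nat_lit 14) (.e (nat_lit 491560) (nat_lit 10) (.e (nat_lit 344177) (nat_lit 43) (.e (nat_lit 770072) (nat_lit 8) .nil))))) .nil)) 
(.lf (nat_lit 119528) (.g (nat_lit 2797) (.e (nat_lit 6517) (nat_lit 347) (.e (nat_lit 65571) (nat_lit 3) (.e (nat_lit 98350) (nat_lit 24) (.e (nat_lit 409644) (nat_lit 18) (.e (nat_lit 303119) (nat_lit 3) (.e (nat_lit 204816) (nat_lit 17) .nil)))))) (.g (nat_lit 4) .nil .nil))))) (.nd (nat_lit 5) (.nd (nat_lit 6) 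
(.lf (nat_lit 119448) (.g (nat_lit 2532) (.e (nat_lit 6510) (nat_lit 345) (.e (nat_lit 16473) (nat_lit 14) (.e (nat_lit 491558) (nat_lit 10) (.e (nat_lit 352000) (nat_lit 44) .nil)))) .nil)) 
(.lf (nat_lit 119512) (.g (nat_lit 858) (.e (nat_lit 6516) (nat_lit 347) (.e (nat_lit 65571) (nat_lit 3) (.e (nat_lit 98350) (nat_lit 24) .nil))) .nil))) (.nd (nat_lit 6) 
(.lf (nat_lit 119480) (.g (nat_lit 2510) (.e (nat_lit 7936) (nat_lit 345) (.e (nat_lit 16473) (nat_lit 14) (.e (nat_lit 491560) (nat_lit 10) (.e (nat_lit 344177) (nat_lit 43) (.e (nat_lit 770071) (nat_lit 8) .nil))))) .nil)) 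
(.lf (nat_lit 119544) (.g (nat_lit 2679) (.e (nat_lit 7936) (nat_lit 347) (.e (nat_lit 65569) (nat_lit 3) (.e (nat_lit 98350) (nat_lit 24) (.e (nat_lit 409645) (nat_lit 18) (.e (nat_lit 303119) (nat_lit 3) .nil))))) .nil)))))) (.nd (nat_lit 3) (.nd (nat_lit 4) (.nd (nat_lit 5) (.nd (nat_lit 6) 
(.lf (nat_lit 119428) (.g (nat_lit 2784) (.e (nat_lit 6509) (nat_lit 345) (.e (nat_lit 16473) (nat_lit 14) (.e (nat_lit 491560) (nat_lit 10) (.e (nat_lit 344179) (nat_lit 44) (.e (nat_lit 778464) (nat_lit 11) .nil))))) .nil)) 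
(.lf (nat_lit 119492) (.g (nat_lit 3798) (.e (nat_lit 6513) (nat_lit 346) (.e (nat_lit 57514) (nat_lit 42) (.e (nat_lit 671762) (nat_lit 4) (.e (nat_lit 65629) (nat_lit 14) (.e (nat_lit 401459) (nat_lit 13) (.e (nat_lit 483344) (nat_lit 17) .nil)))))) (.g (nat_lit 0) .nil .nil)))) (.nd (nat_lit 6) 
(.lf (nat_lit 119460) (.g (nat_lit 4461) (.e (nat_lit 7936) (nat_lit 345) (.e (nat_lit 16436) (nat_lit 9) (.e (nat_lit 426436) (nat_lit 18) (.e (nat_lit 98335) (nat_lit 18) (.e (nat_lit 164305) (nat_lit 226) .nil))))) .nil)) 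
(.lf (nat_lit 119524) (.g (nat_lit 1063) (.e (nat_lit 6517) (nat_lit 347) (.e (nat_lit 65571) (nat_lit 3) (.e (nat_lit 98349) (nat_lit 24) .nil))) .nil)))) (.nd (nat_lit 5) (.nd (nat_lit 6) 
(.lf (nat_lit 119444) (.g (nat_lit 1151) (.e (nat_lit 6510) (nat_lit 345) (.e (nat_lit 16473) (nat_lit 14) (.e (nat_lit 491558) (nat_lit 10) .nil))) .nil)) 
(.lf (nat_lit 119508) (.g (nat_lit 1233) (.e (nat_lit 7936) (nat_lit 346) (.e (nat_lit 57516) (nat_lit 42) (.e (nat_lit 671760) (nat_lit 4) (.e (nat_lit 65628) (nat_lit 14) (.e (nat_lit 401459) (nat_lit 13) .nil))))) .nil))) (.nd (nat_lit 6) 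
(.lf (nat_lit 119476) (.g (nat_lit 1411) (.e (nat_lit 7936) (nat_lit 345) (.e (nat_lit 16473) (nat_lit 14) (.e (nat_lit 491560) (nat_lit 10) (.e (nat_lit 344175) (nat_lit 43) .nil)))) .nil)) 
(.lf (nat_lit 119540) (.g (nat_lit 555) (.e (nat_lit 6518) (nat_lit 347) (.e (nat_lit 65569) (nat_lit 3) (.e (nat_lit 98349) (nat_lit 24) .nil))) .nil))))) (.nd (nat_lit 4) (.nd (nat_lit 5) (.nd (nat_lit 6) 
(.lf (nat_lit 119436) (.g (nat_lit 486) (.e (nat_lit 6510) (nat_lit 345) (.e (nat_lit 16388) (nat_lit 0) (.e (nat_lit 7593) (nat_lit 407) .nil))) .nil)) 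
(.lf (nat_lit 119500) (.g (nat_lit 4672) (.e (nat_lit 6514) (nat_lit 346) (.e (nat_lit 57516) (nat_lit 42) (.e (nat_lit 671759) (nat_lit 3) (.e (nat_lit 57479) (nat_lit 28) (.e (nat_lit 557109) (nat_lit 15) (.e (nat_lit 188452) (nat_lit 23) (.e (nat_lit 204816) (nat_lit 17) .nil))))))) (.g (nat_lit 0) .nil .nil)))) (.nd (nat_lit 6) 
(.lf (nat_lit 119468) (.g (nat_lit 1392) (.e (nat_lit 7936) (nat_lit 345) (.e (nat_lit 16473) (nat_lit 14) (.e (nat_lit 491558) (nat_lit 10) (.e (nat_lit 344100) (nat_lit 18) .nil)))) .nil)) 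
(.lf (nat_lit 119532) (.g (nat_lit 3323) (.e (nat_lit 6517) (nat_lit 347) (.e (nat_lit 65571) (nat_lit 3) (.e (nat_lit 98350) (nat_lit 24) (.e (nat_lit 409647) (nat_lit 18) (.e (nat_lit 303119) (nat_lit 3) (.e (nat_lit 204816) (nat_lit 17) .nil)))))) (.g (nat_lit 4) .nil .nil))))) (.nd (nat_lit 5) (.nd (nat_lit 6) 
(.lf (nat_lit 119452) (.g (nat_lit 2220) (.e (nat_lit 6510) (nat_lit 345) (.e (nat_lit 16473) (nat_lit 14) (.e (nat_lit 491560) (nat_lit 10) (.e (nat_lit 344179) (nat_lit 44) (.e (nat_lit 778463) (nat_lit 11) .nil))))) .nil)) 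
(.lf (nat_lit 119516) (.g (nat_lit 2313) (.e (nat_lit 6516) (nat_lit 347) (.e (nat_lit 65571) (nat_lit 3) (.e (nat_lit 98350) (nat_lit 24) (.e (nat_lit 409647) (nat_lit 18) .nil)))) .nil))) (.nd (nat_lit 6) 
(.lf (nat_lit 119484) (.g (nat_lit 2211) (.e (nat_lit 7936) (nat_lit 345) (.e (nat_lit 16487) (nat_lit 27) (.e (nat_lit 335986) (nat_lit 1) (.e (nat_lit 57847) (nat_lit 252) (.e (nat_lit 57375) (nat_lit 2) .nil))))) .nil)) 
(.lf (nat_lit 119548) (.g (nat_lit 1796) (.e (nat_lit 7936) (nat_lit 347) (.e (nat_lit 65571) (nat_lit 3) (.e (nat_lit 98350) (nat_lit 24) (.e (nat_lit 409616) (nat_lit 10) .nil)))) .nil))))))) (.nd (nat_lit 2) (.nd (nat_lit 3) (.nd (nat_lit 4) (.nd (nat_lit 5) (.nd (nat_lit 6) 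
(.lf (nat_lit 119426) (.g (nat_lit 3161) (.e (nat_lit 6509) (nat_lit 345) (.e (nat_lit 16473) (nat_lit 14) (.e (nat_lit 491560) (nat_lit 10) (.e (nat_lit 344177) (nat_lit 43) .nil)))) .nil)) 
(.lf (nat_lit 119490) (.g (nat_lit 936) (.e (nat_lit 6513) (nat_lit 346) (.e (nat_lit 57464) (nat_lit 23) (.e (nat_lit 516147) (nat_lit 9) (.e (nat_lit 426448) (nat_lit 20) (.e (nat_lit 114714) (nat_lit 22) .nil))))) .nil))) (.nd (nat_lit 6) 
(.lf (nat_lit 119458) (.g (nat_lit 369) (.e (nat_lit 7936) (nat_lit 345) (.e (nat_lit 16388) (nat_lit 0) (.e (nat_lit 7593) (nat_lit 407) .nil))) .nil)) 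
(.lf (nat_lit 119522) (.g (nat_lit 2339) (.e (nat_lit 6516) (nat_lit 347) (.e (nat_lit 65571) (nat_lit 3) (.e (nat_lit 98389) (nat_lit 33) (.e (nat_lit 491560) (nat_lit 10) .nil)))) .nil)))) (.nd (nat_lit 5) (.nd (nat_lit 6) 
(.lf (nat_lit 119442) (.g (nat_lit 1993) (.e (nat_lit 6510) (nat_lit 345) (.e (nat_lit 16473) (nat_lit 14) (.e (nat_lit 491552) (nat_lit 9) (.e (nat_lit 336050) (nat_lit 6) .nil)))) .nil)) 
(.lf (nat_lit 119506) (.g (nat_lit 3268) (.e (nat_lit 7936) (nat_lit 346) (.e (nat_lit 57464) (nat_lit 23) (.e (nat_lit 516166) (nat_lit 12) (.e (nat_lit 450588) (nat_lit 10) (.e (nat_lit 573473) (nat_lit 12) .nil))))) .nil))) (.nd (nat_lit 6) 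
(.lf (nat_lit 119474) (.g (nat_lit 511) (.e (nat_lit 7936) (nat_lit 345) (.e (nat_lit 16473) (nat_lit 14) (.e (nat_lit 491560) (nat_lit 10) .nil))) .nil)) 
(.lf (nat_lit 119538) (.g (nat_lit 2595) (.e (nat_lit 6517) (nat_lit 347) (.e (nat_lit 65637) (nat_lit 15) (.e (nat_lit 3632) (nat_lit 227) (.e (nat_lit 778323) (nat_lit 5) (.e (nat_lit 81664) (nat_lit 36) .nil))))) .nil))))) (.nd (nat_lit 4) (.nd (nat_lit 5) (.nd (nat_lit 6) 
(.lf (nat_lit 119434) (.g (nat_lit 500) (.e (nat_lit 6510) (nat_lit 345) (.e (nat_lit 16388) (nat_lit 0) (.e (nat_lit 7587) (nat_lit 406) .nil))) .nil)) 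
(.lf (nat_lit 119498) (.g (nat_lit 3797) (.e (nat_lit 6514) (nat_lit 346) (.e (nat_lit 57515) (nat_lit 42) (.e (nat_lit 671762) (nat_lit 4) (.e (nat_lit 65629) (nat_lit 14) (.e (nat_lit 401459) (nat_lit 13) (.e (nat_lit 483344) (nat_lit 17) .nil)))))) (.g (nat_lit 6) .nil .nil)))) (.nd (nat_lit 6) 
(.lf (nat_lit 119466) (.g (nat_lit 835) (.e (nat_lit 7936) (nat_lit 345) (.e (nat_lit 16473) (nat_lit 14) (.e (nat_lit 491556) (nat_lit 9) .nil))) .nil)) 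
(.lf (nat_lit 119530) (.g (nat_lit 2092) (.e (nat_lit 6517) (nat_lit 347) (.e (nat_lit 65571) (nat_lit 3) (.e (nat_lit 98350) (nat_lit 24) (.e (nat_lit 409646) (nat_lit 18) .nil)))) .nil)))) (.nd (nat_lit 5) (.nd (nat_lit 6) 
(.lf (nat_lit 119450) (.g (nat_lit 3722) (.e (nat_lit 6510) (nat_lit 345) (.e (nat_lit 16473) (nat_lit 14) (.e (nat_lit 491559) (nat_lit 10) (.e (nat_lit 344177) (nat_lit 43) (.e (nat_lit 770072) (nat_lit 8) .nil))))) .nil)) 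
(.lf (nat_lit 119514) (.g (nat_lit 2798) (.e (nat_lit 6516) (nat_lit 347) (.e (nat_lit 65571) (nat_lit 3) (.e (nat_lit 98350) (nat_lit 24) (.e (nat_lit 409645) (nat_lit 18) .nil)))) .nil))) (.nd (nat_lit 6) 
(.lf (nat_lit 119482) (.g (nat_lit 3154) (.e (nat_lit 7936) (nat_lit 345) (.e (nat_lit 16473) (nat_lit 14) (.e (nat_lit 491568) (nat_lit 13) (.e (nat_lit 393301) (nat_lit 27) (.e (nat_lit 491526) (nat_lit 0) .nil))))) .nil)) 
(.lf (nat_lit 119546) (.g (nat_lit 1340) (.e (nat_lit 7936) (nat_lit 347) (.e (nat_lit 65569) (nat_lit 3) (.e (nat_lit 98350) (nat_lit 24) (.e (nat_lit 409648) (nat_lit 18) .nil)))) .nil)))))) (.nd (nat_lit 3) (.nd (nat_lit 4) (.nd (nat_lit 5) (.nd (nat_lit 6) 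
(.lf (nat_lit 119430) (.g (nat_lit 4343) (.e (nat_lit 6509) (nat_lit 345) (.e (nat_lit 16473) (nat_lit 14) (.e (nat_lit 491560) (nat_lit 10) (.e (nat_lit 344179) (nat_lit 44) (.e (nat_lit 778466) (nat_lit 11) (.e (nat_lit 24577) (nat_lit 0) .nil)))))) (.g (nat_lit 0) .nil .nil))) 
(.lf (nat_lit 119494) (.g (nat_lit 533) (.e (nat_lit 6514) (nat_lit 346) (.e (nat_lit 57354) (nat_lit 0) (.e (nat_lit 5905) (nat_lit 320) .nil))) .nil))) (.nd (nat_lit 6) 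
(.lf (nat_lit 119462) (.g (nat_lit 2579) (.e (nat_lit 7936) (nat_lit 345) (.e (nat_lit 16470) (nat_lit 14) (.e (nat_lit 491571) (nat_lit 13) (.e (nat_lit 393298) (nat_lit 27) (.e (nat_lit 491531) (nat_lit 0) .nil))))) .nil)) 
(.lf (nat_lit 119526) (.g (nat_lit 1989) (.e (nat_lit 6517) (nat_lit 347) (.e (nat_lit 65571) (nat_lit 3) (.e (nat_lit 98350) (nat_lit 24) (.e (nat_lit 409616) (nat_lit 10) .nil)))) .nil)))) (.nd (nat_lit 5) (.nd (nat_lit 6) 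
(.lf (nat_lit 119446) (.g (nat_lit 2715) (.e (nat_lit 6510) (nat_lit 345) (.e (nat_lit 16473) (nat_lit 14) (.e (nat_lit 491558) (nat_lit 10) (.e (nat_lit 344179) (nat_lit 44) .nil)))) .nil)) 
(.lf (nat_lit 119510) (.g (nat_lit 1121) (.e (nat_lit 6516) (nat_lit 347) (.e (nat_lit 65571) (nat_lit 3) (.e (nat_lit 98320) (nat_lit 17) .nil))) .nil))) (.nd (nat_lit 6) 
(.lf (nat_lit 119478) (.g (nat_lit 1722) (.e (nat_lit 7936) (nat_lit 345) (.e (nat_lit 16473) (nat_lit 14) (.e (nat_lit 491560) (nat_lit 10) (.e (nat_lit 344176) (nat_lit 43) .nil)))) .nil)) 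
(.lf (nat_lit 119542) (.g (nat_lit 2087) (.e (nat_lit 6518) (nat_lit 347) (.e (nat_lit 65637) (nat_lit 15) (.e (nat_lit 3632) (nat_lit 227) (.e (nat_lit 778324) (nat_lit 5) (.e (nat_lit 81664) (nat_lit 36) .nil))))) .nil))))) (.nd (nat_lit 4) (.nd (nat_lit 5) (.nd (nat_lit 6) 
(.lf (nat_lit 119438) (.g (nat_lit 2653) (.e (nat_lit 6510) (nat_lit 345) (.e (nat_lit 16470) (nat_lit 14) (.e (nat_lit 491571) (nat_lit 13) (.e (nat_lit 393298) (nat_lit 27) .nil)))) .nil)) 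
(.lf (nat_lit 119502) (.g (nat_lit 3468) (.e (nat_lit 6514) (nat_lit 346) (.e (nat_lit 57516) (nat_lit 42) (.e (nat_lit 671762) (nat_lit 4) (.e (nat_lit 65629) (nat_lit 14) (.e (nat_lit 401459) (nat_lit 13) (.e (nat_lit 483343) (nat_lit 17) .nil)))))) (.g (nat_lit 5) .nil .nil)))) (.nd (nat_lit 6) 
(.lf (nat_lit 119470) (.g (nat_lit 2100) (.e (nat_lit 7936) (nat_lit 345) (.e (nat_lit 16473) (nat_lit 14) (.e (nat_lit 491558) (nat_lit 10) (.e (nat_lit 344177) (nat_lit 43) (.e (nat_lit 770072) (nat_lit 8) .nil))))) .nil)) 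
(.lf (nat_lit 119534) (.g (nat_lit 1601) (.e (nat_lit 6517) (nat_lit 347) (.e (nat_lit 65571) (nat_lit 3) (.e (nat_lit 98350) (nat_lit 24) (.e (nat_lit 409649) (nat_lit 18) .nil)))) .nil)))) (.nd (nat_lit 5) (.nd (nat_lit 6) 
(.lf (nat_lit 119454) (.g (nat_lit 4122) (.e (nat_lit 6510) (nat_lit 345) (.e (nat_lit 16473) (nat_lit 14) (.e (nat_lit 491568) (nat_lit 13) (.e (nat_lit 393301) (nat_lit 27) (.e (nat_lit 491520) (nat_lit 0) .nil))))) .nil)) 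
(.lf (nat_lit 119518) (.g (nat_lit 1601) (.e (nat_lit 6516) (nat_lit 347) (.e (nat_lit 65571) (nat_lit 3) (.e (nat_lit 98350) (nat_lit 24) (.e (nat_lit 409649) (nat_lit 18) .nil)))) .nil))) (.nd (nat_lit 6) 
(.lf (nat_lit 119486) (.g (nat_lit 2930) (.e (nat_lit 6511) (nat_lit 346) (.e (nat_lit 57516) (nat_lit 42) (.e (nat_lit 671762) (nat_lit 4) (.e (nat_lit 65630) (nat_lit 14) (.e (nat_lit 401459) (nat_lit 13) (.e (nat_lit 483344) (nat_lit 17) .nil)))))) (.g (nat_lit 6) .nil .nil))) 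
(.lf (nat_lit 119550) (.g (nat_lit 2848) (.e (nat_lit 7936) (nat_lit 347) (.e (nat_lit 65571) (nat_lit 3) (.e (nat_lit 98350) (nat_lit 24) (.e (nat_lit 409616) (nat_lit 10) (.e (nat_lit 5762) (nat_lit 315) .nil))))) .nil)))))))) (.nd (nat_lit 1) (.nd (nat_lit 2) (.nd (nat_lit 3) (.nd (nat_lit 4) (.nd (nat_lit 5) (.nd (nat_lit 6) 
(.lf (nat_lit 119425) (.g (nat_lit 2472) (.e (nat_lit 6509) (nat_lit 345) (.e (nat_lit 16473) (nat_lit 14) (.e (nat_lit 491560) (nat_lit 10) (.e (nat_lit 344175) (nat_lit 43) .nil)))) .nil)) 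
(.lf (nat_lit 119489) (.g (nat_lit 1872) (.e (nat_lit 6513) (nat_lit 346) (.e (nat_lit 57354) (nat_lit 0) (.e (nat_lit 5906) (nat_lit 320) (.e (nat_lit 1190) (nat_lit 88) (.e (nat_lit 65628) (nat_lit 14) .nil))))) .nil))) (.nd (nat_lit 6) 
(.lf (nat_lit 119457) (.g (nat_lit 472) (.e (nat_lit 7936) (nat_lit 345) (.e (nat_lit 16388) (nat_lit 0) (.e (nat_lit 7591) (nat_lit 407) .nil))) .nil)) 
(.lf (nat_lit 119521) (.g (nat_lit 2305) (.e (nat_lit 6516) (nat_lit 347) (.e (nat_lit 65571) (nat_lit 3) (.e (nat_lit 98389) (nat_lit 33) (.e (nat_lit 491558) (nat_lit 10) .nil)))) .nil)))) (.nd (nat_lit 5) (.nd (nat_lit 6) 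
(.lf (nat_lit 119441) (.g (nat_lit 1332) (.e (nat_lit 6510) (nat_lit 345) (.e (nat_lit 16473) (nat_lit 14) (.e (nat_lit 491546) (nat_lit 9) .nil))) .nil)) 
(.lf (nat_lit 119505) (.g (nat_lit 636) (.e (nat_lit 7936) (nat_lit 346) (.e (nat_lit 57354) (nat_lit 0) (.e (nat_lit 7270) (nat_lit 385) (.e (nat_lit 122919) (nat_lit 15) .nil)))) .nil))) (.nd (nat_lit 6) 
(.lf (nat_lit 119473) (.g (nat_lit 2927) (.e (nat_lit 7936) (nat_lit 345) (.e (nat_lit 16473) (nat_lit 14) (.e (nat_lit 491559) (nat_lit 10) (.e (nat_lit 344177) (nat_lit 43) (.e (nat_lit 770071) (nat_lit 8) .nil))))) .nil)) 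
(.lf (nat_lit 119537) (.g (nat_lit 2490) (.e (nat_lit 6517) (nat_lit 347) (.e (nat_lit 65571) (nat_lit 3) (.e (nat_lit 98350) (nat_lit 24) (.e (nat_lit 417536) (nat_lit 18) .nil)))) .nil))))) (.nd (nat_lit 4) (.nd (nat_lit 5) (.nd (nat_lit 6) 
(.lf (nat_lit 119433) (.g (nat_lit 4176) (.e (nat_lit 6509) (nat_lit 345) (.e (nat_lit 16473) (nat_lit 14) (.e (nat_lit 491568) (nat_lit 13) (.e (nat_lit 393301) (nat_lit 27) (.e (nat_lit 491520) (nat_lit 0) .nil))))) .nil)) 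
(.lf (nat_lit 119497) (.g (nat_lit 3082) (.e (nat_lit 6514) (nat_lit 346) (.e (nat_lit 57515) (nat_lit 42) (.e (nat_lit 671762) (nat_lit 4) (.e (nat_lit 65629) (nat_lit 14) (.e (nat_lit 401459) (nat_lit 13) (.e (nat_lit 483343) (nat_lit 17) .nil)))))) (.g (nat_lit 5) .nil .nil)))) (.nd (nat_lit 6) 
(.lf (nat_lit 119465) (.g (nat_lit 1045) (.e (nat_lit 7936) (nat_lit 345) (.e (nat_lit 16472) (nat_lit 14) (.e (nat_lit 491560) (nat_lit 10) (.e (nat_lit 344179) (nat_lit 44) .nil)))) .nil)) 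
(.lf (nat_lit 119529) (.g (nat_lit 2798) (.e (nat_lit 6517) (nat_lit 347) (.e (nat_lit 65571) (nat_lit 3) (.e (nat_lit 98350) (nat_lit 24) (.e (nat_lit 409645) (nat_lit 18) .nil)))) .nil)))) (.nd (nat_lit 5) (.nd (nat_lit 6) 
(.lf (nat_lit 119449) (.g (nat_lit 3740) (.e (nat_lit 6510) (nat_lit 345) (.e (nat_lit 16473) (nat_lit 14) (.e (nat_lit 491559) (nat_lit 10) (.e (nat_lit 344177) (nat_lit 43) (.e (nat_lit 770071) (nat_lit 8) .nil))))) .nil)) 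
(.lf (nat_lit 119513) (.g (nat_lit 2203) (.e (nat_lit 6516) (nat_lit 347) (.e (nat_lit 65571) (nat_lit 3) (.e (nat_lit 98350) (nat_lit 24) (.e (nat_lit 409643) (nat_lit 18) .nil)))) .nil))) (.nd (nat_lit 6) 
(.lf (nat_lit 119481) (.g (nat_lit 975) (.e (nat_lit 7936) (nat_lit 345) (.e (nat_lit 16473) (nat_lit 14) (.e (nat_lit 491560) (nat_lit 10) (.e (nat_lit 344179) (nat_lit 44) .nil)))) .nil)) 
(.lf (nat_lit 119545) (.g (nat_lit 2166) (.e (nat_lit 7936) (nat_lit 347) (.e (nat_lit 65569) (nat_lit 3) (.e (nat_lit 98350) (nat_lit 24) (.e (nat_lit 409647) (nat_lit 18) (.e (nat_lit 303119) (nat_lit 3) .nil))))) .nil)))))) (.nd (nat_lit 3) (.nd (nat_lit 4) (.nd (nat_lit 5) (.nd (nat_lit 6) 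
(.lf (nat_lit 119429) (.g (nat_lit 4157) (.e (nat_lit 6509) (nat_lit 345) (.e (nat_lit 16473) (nat_lit 14) (.e (nat_lit 491560) (nat_lit 10) (.e (nat_lit 344179) (nat_lit 44) (.e (nat_lit 778465) (nat_lit 11) (.e (nat_lit 24579) (nat_lit 0) .nil)))))) (.g (nat_lit 6) .nil .nil))) 
(.lf (nat_lit 119493) (.g (nat_lit 3066) (.e (nat_lit 6513) (nat_lit 346) (.e (nat_lit 57515) (nat_lit 42) (.e (nat_lit 671762) (nat_lit 4) (.e (nat_lit 65630) (nat_lit 14) (.e (nat_lit 401459) (nat_lit 13) (.e (nat_lit 483344) (nat_lit 17) .nil)))))) (.g (nat_lit 0) .nil .nil)))) (.nd (nat_lit 6) 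
(.lf (nat_lit 119461) (.g (nat_lit 2878) (.e (nat_lit 7936) (nat_lit 345) (.e (nat_lit 16470) (nat_lit 14) (.e (nat_lit 491560) (nat_lit 10) (.e (nat_lit 344177) (nat_lit 43) .nil)))) .nil)) 
(.lf (nat_lit 119525) (.g (nat_lit 858) (.e (nat_lit 6517) (nat_lit 347) (.e (nat_lit 65571) (nat_lit 3) (.e (nat_lit 98350) (nat_lit 24) .nil))) .nil)))) (.nd (nat_lit 5) (.nd (nat_lit 6) 
(.lf (nat_lit 119445) (.g (nat_lit 2592) (.e (nat_lit 6510) (nat_lit 345) (.e (nat_lit 16473) (nat_lit 14) (.e (nat_lit 491558) (nat_lit 10) (.e (nat_lit 344097) (nat_lit 18) .nil)))) .nil)) 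
(.lf (nat_lit 119509) (.g (nat_lit 314) (.e (nat_lit 7936) (nat_lit 346) (.e (nat_lit 57516) (nat_lit 42) (.e (nat_lit 671763) (nat_lit 5) .nil))) .nil))) (.nd (nat_lit 6) 
(.lf (nat_lit 119477) (.g (nat_lit 1626) (.e (nat_lit 7936) (nat_lit 345) (.e (nat_lit 16473) (nat_lit 14) (.e (nat_lit 491560) (nat_lit 10) (.e (nat_lit 344175) (nat_lit 43) (.e (nat_lit 770072) (nat_lit 8) .nil))))) .nil)) 
(.lf (nat_lit 119541) (.g (nat_lit 2577) (.e (nat_lit 6518) (nat_lit 347) (.e (nat_lit 65637) (nat_lit 15) (.e (nat_lit 3632) (nat_lit 227) (.e (nat_lit 778323) (nat_lit 5) (.e (nat_lit 81664) (nat_lit 36) .nil))))) .nil))))) (.nd (nat_lit 4) (.nd (nat_lit 5) (.nd (nat_lit 6) 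
(.lf (nat_lit 119437) (.g (nat_lit 4213) (.e (nat_lit 6510) (nat_lit 345) (.e (nat_lit 16470) (nat_lit 14) (.e (nat_lit 491569) (nat_lit 13) (.e (nat_lit 393301) (nat_lit 27) (.e (nat_lit 491520) (nat_lit 0) .nil))))) .nil)) 
(.lf (nat_lit 119501) (.g (nat_lit 3458) (.e (nat_lit 6514) (nat_lit 346) (.e (nat_lit 57516) (nat_lit 42) (.e (nat_lit 671760) (nat_lit 4) (.e (nat_lit 65630) (nat_lit 14) (.e (nat_lit 401459) (nat_lit 13) (.e (nat_lit 483344) (nat_lit 17) .nil)))))) (.g (nat_lit 6) .nil .nil)))) (.nd (nat_lit 6) 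
(.lf (nat_lit 119469) (.g (nat_lit 2108) (.e (nat_lit 7936) (nat_lit 345) (.e (nat_lit 16473) (nat_lit 14) (.e (nat_lit 491558) (nat_lit 10) (.e (nat_lit 344177) (nat_lit 43) (.e (nat_lit 770071) (nat_lit 8) .nil))))) .nil)) 
(.lf (nat_lit 119533) (.g (nat_lit 2975) (.e (nat_lit 6517) (nat_lit 347) (.e (nat_lit 65571) (nat_lit 3) (.e (nat_lit 98350) (nat_lit 24) (.e (nat_lit 409648) (nat_lit 18) (.e (nat_lit 303118) (nat_lit 3) .nil))))) .nil)))) (.nd (nat_lit 5) (.nd (nat_lit 6) 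
(.lf (nat_lit 119453) (.g (nat_lit 2060) (.e (nat_lit 6510) (nat_lit 345) (.e (nat_lit 16473) (nat_lit 14) (.e (nat_lit 491560) (nat_lit 10) (.e (nat_lit 344179) (nat_lit 44) (.e (nat_lit 778465) (nat_lit 11) .nil))))) .nil)) 
(.lf (nat_lit 119517) (.g (nat_lit 2792) (.e (nat_lit 6516) (nat_lit 347) (.e (nat_lit 65571) (nat_lit 3) (.e (nat_lit 98350) (nat_lit 24) (.e (nat_lit 409648) (nat_lit 18) (.e (nat_lit 303119) (nat_lit 3) (.e (nat_lit 212736) (nat_lit 17) .nil)))))) (.g (nat_lit 4) .nil .nil)))) (.nd (nat_lit 6) 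
(.lf (nat_lit 119485) (.g (nat_lit 2236) (.e (nat_lit 7936) (nat_lit 345) (.e (nat_lit 16487) (nat_lit 27) (.e (nat_lit 335988) (nat_lit 1) (.e (nat_lit 57854) (nat_lit 252) (.e (nat_lit 57373) (nat_lit 2) .nil))))) .nil)) 
(.lf (nat_lit 119549) (.g (nat_lit 2835) (.e (nat_lit 7936) (nat_lit 347) (.e (nat_lit 65571) (nat_lit 3) (.e (nat_lit 98350) (nat_lit 24) (.e (nat_lit 409616) (nat_lit 10) (.e (nat_lit 5756) (nat_lit 315) .nil))))) .nil))))))) (.nd (nat_lit 2) (.nd (nat_lit 3) (.nd (nat_lit 4) (.nd (nat_lit 5) (.nd (nat_lit 6) 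
(.lf (nat_lit 119427) (.g (nat_lit 2175) (.e (nat_lit 6509) (nat_lit 345) (.e (nat_lit 16473) (nat_lit 14) (.e (nat_lit 491560) (nat_lit 10) (.e (nat_lit 344179) (nat_lit 44) .nil)))) .nil)) 
(.lf (nat_lit 119491) (.g (nat_lit 1983) (.e (nat_lit 6513) (nat_lit 346) (.e (nat_lit 57464) (nat_lit 23) (.e (nat_lit 516151) (nat_lit 9) (.e (nat_lit 433920) (nat_lit 20) .nil)))) .nil))) (.nd (nat_lit 6) 
(.lf (nat_lit 119459) (.g (nat_lit 1314) (.e (nat_lit 7936) (nat_lit 345) (.e (nat_lit 16435) (nat_lit 9) (.e (nat_lit 426448) (nat_lit 20) (.e (nat_lit 122624) (nat_lit 5) .nil)))) .nil)) 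
(.lf (nat_lit 119523) (.g (nat_lit 4257) (.e (nat_lit 6516) (nat_lit 347) (.e (nat_lit 65571) (nat_lit 3) (.e (nat_lit 98389) (nat_lit 33) (.e (nat_lit 491560) (nat_lit 10) (.e (nat_lit 344129) (nat_lit 26) (.e (nat_lit 557067) (nat_lit 9) (.e (nat_lit 20) (nat_lit 0) .nil))))))) (.g (nat_lit 5) .nil .nil))))) (.nd (nat_lit 5) (.nd (nat_lit 6) 
(.lf (nat_lit 119443) (.g (nat_lit 2085) (.e (nat_lit 6510) (nat_lit 345) (.e (nat_lit 16473) (nat_lit 14) (.e (nat_lit 491556) (nat_lit 9) (.e (nat_lit 336051) (nat_lit 6) .nil)))) .nil)) 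
(.lf (nat_lit 119507) (.g (nat_lit 3065) (.e (nat_lit 7936) (nat_lit 346) (.e (nat_lit 57464) (nat_lit 23) (.e (nat_lit 516166) (nat_lit 12) (.e (nat_lit 450588) (nat_lit 10) (.e (nat_lit 573475) (nat_lit 12) .nil))))) .nil))) (.nd (nat_lit 6) 
(.lf (nat_lit 119475) (.g (nat_lit 2585) (.e (nat_lit 7936) (nat_lit 345) (.e (nat_lit 16473) (nat_lit 14) (.e (nat_lit 491560) (nat_lit 10) (.e (nat_lit 344097) (nat_lit 18) (.e (nat_lit 7273) (nat_lit 385) .nil))))) .nil)) 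
(.lf (nat_lit 119539) (.g (nat_lit 1547) (.e (nat_lit 6517) (nat_lit 347) (.e (nat_lit 65637) (nat_lit 15) (.e (nat_lit 3632) (nat_lit 227) (.e (nat_lit 778324) (nat_lit 5) .nil)))) .nil))))) (.nd (nat_lit 4) (.nd (nat_lit 5) (.nd (nat_lit 6) 
(.lf (nat_lit 119435) (.g (nat_lit 518) (.e (nat_lit 6510) (nat_lit 345) (.e (nat_lit 16388) (nat_lit 0) (.e (nat_lit 7591) (nat_lit 407) .nil))) .nil)) 
(.lf (nat_lit 119499) (.g (nat_lit 3202) (.e (nat_lit 6514) (nat_lit 346) (.e (nat_lit 57515) (nat_lit 42) (.e (nat_lit 671762) (nat_lit 4) (.e (nat_lit 65630) (nat_lit 14) (.e (nat_lit 401459) (nat_lit 13) (.e (nat_lit 483344) (nat_lit 17) .nil)))))) (.g (nat_lit 6) .nil .nil)))) (.nd (nat_lit 6) 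
(.lf (nat_lit 119467) (.g (nat_lit 2007) (.e (nat_lit 7936) (nat_lit 345) (.e (nat_lit 16473) (nat_lit 14) (.e (nat_lit 491558) (nat_lit 10) (.e (nat_lit 344097) (nat_lit 18) (.e (nat_lit 7273) (nat_lit 385) .nil))))) .nil)) 
(.lf (nat_lit 119531) (.g (nat_lit 3228) (.e (nat_lit 6517) (nat_lit 347) (.e (nat_lit 65571) (nat_lit 3) (.e (nat_lit 98350) (nat_lit 24) (.e (nat_lit 409647) (nat_lit 18) (.e (nat_lit 303118) (nat_lit 3) .nil))))) .nil)))) (.nd (nat_lit 5) (.nd (nat_lit 6) 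
(.lf (nat_lit 119451) (.g (nat_lit 1557) (.e (nat_lit 6510) (nat_lit 345) (.e (nat_lit 16473) (nat_lit 14) (.e (nat_lit 491560) (nat_lit 10) (.e (nat_lit 344179) (nat_lit 44) .nil)))) .nil)) 
(.lf (nat_lit 119515) (.g (nat_lit 2092) (.e (nat_lit 6516) (nat_lit 347) (.e (nat_lit 65571) (nat_lit 3) (.e (nat_lit 98350) (nat_lit 24) (.e (nat_lit 409646) (nat_lit 18) .nil)))) .nil))) (.nd (nat_lit 6) 
(.lf (nat_lit 119483) (.g (nat_lit 2273) (.e (nat_lit 7936) (nat_lit 345) (.e (nat_lit 16487) (nat_lit 27) (.e (nat_lit 335986) (nat_lit 1) (.e (nat_lit 57847) (nat_lit 252) (.e (nat_lit 57372) (nat_lit 2) .nil))))) .nil)) 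
(.lf (nat_lit 119547) (.g (nat_lit 2250) (.e (nat_lit 7936) (nat_lit 347) (.e (nat_lit 65571) (nat_lit 3) (.e (nat_lit 98323) (nat_lit 17) (.e (nat_lit 6989) (nat_lit 377) (.e (nat_lit 2810) (nat_lit 180) .nil))))) .nil)))))) (.nd (nat_lit 3) (.nd (nat_lit 4) (.nd (nat_lit 5) (.nd (nat_lit 6) 
(.lf (nat_lit 119431) (.g (nat_lit 2616) (.e (nat_lit 6509) (nat_lit 345) (.e (nat_lit 16473) (nat_lit 14) (.e (nat_lit 491560) (nat_lit 10) (.e (nat_lit 352000) (nat_lit 46) .nil)))) .nil)) 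
(.lf (nat_lit 119495) (.g (nat_lit 5050) (.e (nat_lit 6514) (nat_lit 346) (.e (nat_lit 57354) (nat_lit 0) (.e (nat_lit 5906) (nat_lit 320) (.e (nat_lit 1199) (nat_lit 88) (.e (nat_lit 65630) (nat_lit 14) (.e (nat_lit 401459) (nat_lit 13) (.e (nat_lit 483344) (nat_lit 17) .nil))))))) (.g (nat_lit 7) .nil .nil)))) (.nd (nat_lit 6) 
(.lf (nat_lit 119463) (.g (nat_lit 1781) (.e (nat_lit 7936) (nat_lit 345) (.e (nat_lit 16472) (nat_lit 14) (.e (nat_lit 491560) (nat_lit 10) (.e (nat_lit 344177) (nat_lit 43) .nil)))) .nil)) 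
(.lf (nat_lit 119527) (.g (nat_lit 2263) (.e (nat_lit 6517) (nat_lit 347) (.e (nat_lit 65571) (nat_lit 3) (.e (nat_lit 98350) (nat_lit 24) (.e (nat_lit 409623) (nat_lit 10) .nil)))) .nil)))) (.nd (nat_lit 5) (.nd (nat_lit 6) 
(.lf (nat_lit 119447) (.g (nat_lit 2562) (.e (nat_lit 6510) (nat_lit 345) (.e (nat_lit 16473) (nat_lit 14) (.e (nat_lit 491558) (nat_lit 10) (.e (nat_lit 344180) (nat_lit 44) .nil)))) .nil)) 
(.lf (nat_lit 119511) (.g (nat_lit 2528) (.e (nat_lit 6516) (nat_lit 347) (.e (nat_lit 65571) (nat_lit 3) (.e (nat_lit 98320) (nat_lit 17) (.e (nat_lit 7591) (nat_lit 407) (.e (nat_lit 73755) (nat_lit 8) (.e (nat_lit 557067) (nat_lit 9) (.e (nat_lit 20) (nat_lit 0) .nil))))))) (.g (nat_lit 4) .nil .nil)))) (.nd (nat_lit 6) 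
(.lf (nat_lit 119479) (.g (nat_lit 1410) (.e (nat_lit 7936) (nat_lit 345) (.e (nat_lit 16473) (nat_lit 14) (.e (nat_lit 491560) (nat_lit 10) (.e (nat_lit 344177) (nat_lit 43) .nil)))) .nil)) 
(.lf (nat_lit 119543) (.g (nat_lit 1825) (.e (nat_lit 7936) (nat_lit 347) (.e (nat_lit 65569) (nat_lit 3) (.e (nat_lit 98323) (nat_lit 17) (.e (nat_lit 6989) (nat_lit 377) (.e (nat_lit 2810) (nat_lit 180) .nil))))) .nil))))) (.nd (nat_lit 4) (.nd (nat_lit 5) (.nd (nat_lit 6) 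
(.lf (nat_lit 119439) (.g (nat_lit 3610) (.e (nat_lit 6510) (nat_lit 345) (.e (nat_lit 16470) (nat_lit 14) (.e (nat_lit 491571) (nat_lit 13) (.e (nat_lit 393299) (nat_lit 27) (.e (nat_lit 491520) (nat_lit 0) .nil))))) .nil)) 
(.lf (nat_lit 119503) (.g (nat_lit 4130) (.e (nat_lit 6514) (nat_lit 346) (.e (nat_lit 57516) (nat_lit 42) (.e (nat_lit 671762) (nat_lit 4) (.e (nat_lit 65629) (nat_lit 14) (.e (nat_lit 401459) (nat_lit 13) (.e (nat_lit 483344) (nat_lit 17) .nil)))))) (.g (nat_lit 6) .nil .nil)))) (.nd (nat_lit 6) 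
(.lf (nat_lit 119471) (.g (nat_lit 1349) (.e (nat_lit 7936) (nat_lit 345) (.e (nat_lit 16473) (nat_lit 14) (.e (nat_lit 491558) (nat_lit 10) (.e (nat_lit 352000) (nat_lit 46) .nil)))) .nil)) 
(.lf (nat_lit 119535) (.g (nat_lit 2632) (.e (nat_lit 6517) (nat_lit 347) (.e (nat_lit 65571) (nat_lit 3) (.e (nat_lit 98350) (nat_lit 24) (.e (nat_lit 409649) (nat_lit 18) (.e (nat_lit 303119) (nat_lit 3) .nil))))) .nil)))) (.nd (nat_lit 5) (.nd (nat_lit 6) 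
(.lf (nat_lit 119455) (.g (nat_lit 2131) (.e (nat_lit 6510) (nat_lit 345) (.e (nat_lit 16487) (nat_lit 27) (.e (nat_lit 335995) (nat_lit 1) (.e (nat_lit 57848) (nat_lit 252) (.e (nat_lit 57372) (nat_lit 2) .nil))))) .nil)) 
(.lf (nat_lit 119519) (.g (nat_lit 2926) (.e (nat_lit 6516) (nat_lit 347) (.e (nat_lit 65571) (nat_lit 3) (.e (nat_lit 98350) (nat_lit 24) (.e (nat_lit 409650) (nat_lit 19) (.e (nat_lit 311314) (nat_lit 3) .nil))))) .nil))) (.nd (nat_lit 6) 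
(.lf (nat_lit 119487) (.g (nat_lit 1920) (.e (nat_lit 6513) (nat_lit 346) (.e (nat_lit 57354) (nat_lit 0) (.e (nat_lit 5905) (nat_lit 320) (.e (nat_lit 1188) (nat_lit 88) (.e (nat_lit 65630) (nat_lit 14) .nil))))) .nil)) 
(.lf (nat_lit 119551) (.g (nat_lit 2791) (.e (nat_lit 7936) (nat_lit 347) (.e (nat_lit 65571) (nat_lit 3) (.e (nat_lit 98350) (nat_lit 24) (.e (nat_lit 409616) (nat_lit 10) (.e (nat_lit 5763) (nat_lit 315) .nil))))) .nil)))))))))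

noncomputable def tv1595 : DT := (.nd (nat_lit 0) (.nd (nat_lit 1) (.nd (nat_lit 2) (.nd (nat_lit 3) (.nd (nat_lit 4) (.nd (nat_lit 5) (.nd (nat_lit 6) 
(.lf (nat_lit 119552) (.g (nat_lit 1564) (.e (nat_lit 7936) (nat_lit 347) (.e (nat_lit 65571) (nat_lit 3) (.e (nat_lit 98350) (nat_lit 24) (.e (nat_lit 409617) (nat_lit 10) .nil)))) .nil)) 
(.lf (nat_lit 119616) (.g (nat_lit 1681) (.e (nat_lit 7936) (nat_lit 348) (.e (nat_lit 73746) (nat_lit 3) (.e (nat_lit 516180) (nat_lit 15) (.e (nat_lit 475214) (nat_lit 42) (.e (nat_lit 720943) (nat_lit 23) .nil))))) .nil))) (.nd (nat_lit 6) 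
(.lf (nat_lit 119584) (.g (nat_lit 1603) (.e (nat_lit 7936) (nat_lit 348) (.e (nat_lit 73746) (nat_lit 3) (.e (nat_lit 516115) (nat_lit 1) (.e (nat_lit 164179) (nat_lit 154) .nil)))) .nil)) 
(.lf (nat_lit 119648) (.g (nat_lit 1369) (.e (nat_lit 6595) (nat_lit 351) (.e (nat_lit 2638) (nat_lit 165) (.e (nat_lit 180225) (nat_lit 0) (.e (nat_lit 5934) (nat_lit 322) .nil)))) .nil)))) (.nd (nat_lit 5) (.nd (nat_lit 6) 
(.lf (nat_lit 119568) (.g (nat_lit 1786) (.e (nat_lit 7936) (nat_lit 347) (.e (nat_lit 65653) (nat_lit 27) (.e (nat_lit 426011) (nat_lit 0) (.e (nat_lit 7591) (nat_lit 407) (.e (nat_lit 73731) (nat_lit 0) .nil))))) .nil)) 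
(.lf (nat_lit 119632) (.g (nat_lit 1662) (.e (nat_lit 7936) (nat_lit 348) (.e (nat_lit 73748) (nat_lit 3) (.e (nat_lit 516139) (nat_lit 7) (.e (nat_lit 409647) (nat_lit 18) (.e (nat_lit 303119) (nat_lit 3) .nil))))) .nil))) (.nd (nat_lit 6) 
(.lf (nat_lit 119600) (.g (nat_lit 2836) (.e (nat_lit 7936) (nat_lit 348) (.e (nat_lit 73746) (nat_lit 3) (.e (nat_lit 516145) (nat_lit 9) (.e (nat_lit 426448) (nat_lit 20) (.e (nat_lit 114719) (nat_lit 23) .nil))))) .nil)) 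
(.lf (nat_lit 119664) (.g (nat_lit 2654) (.e (nat_lit 6617) (nat_lit 357) (.e (nat_lit 2668) (nat_lit 167) (.e (nat_lit 196666) (nat_lit 13) (.e (nat_lit 65617) (nat_lit 10) (.e (nat_lit 344133) (nat_lit 26) .nil))))) .nil))))) (.nd (nat_lit 4) (.nd (nat_lit 5) (.nd (nat_lit 6) 
(.lf (nat_lit 119560) (.g (nat_lit 892) (.e (nat_lit 7936) (nat_lit 347) (.e (nat_lit 65571) (nat_lit 3) (.e (nat_lit 98357) (nat_lit 26) .nil))) .nil)) 
(.lf (nat_lit 119624) (.g (nat_lit 1562) (.e (nat_lit 7936) (nat_lit 348) (.e (nat_lit 73747) (nat_lit 3) (.e (nat_lit 516146) (nat_lit 9) (.e (nat_lit 426446) (nat_lit 20) .nil)))) .nil))) (.nd (nat_lit 6) 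
(.lf (nat_lit 119592) (.g (nat_lit 1676) (.e (nat_lit 7936) (nat_lit 348) (.e (nat_lit 73746) (nat_lit 3) (.e (nat_lit 516120) (nat_lit 1) (.e (nat_lit 164183) (nat_lit 154) (.e (nat_lit 57448) (nat_lit 19) .nil))))) .nil)) 
(.lf (nat_lit 119656) (.g (nat_lit 1276) (.e (nat_lit 6617) (nat_lit 357) (.e (nat_lit 214) (nat_lit 19) (.e (nat_lit 319532) (nat_lit 16) (.e (nat_lit 286761) (nat_lit 13) .nil)))) .nil)))) (.nd (nat_lit 5) (.nd (nat_lit 6) 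
(.lf (nat_lit 119576) (.g (nat_lit 3681) (.e (nat_lit 6520) (nat_lit 348) (.e (nat_lit 73753) (nat_lit 8) (.e (nat_lit 557087) (nat_lit 11) (.e (nat_lit 24617) (nat_lit 7) (.e (nat_lit 319504) (nat_lit 10) .nil))))) .nil)) 
(.lf (nat_lit 119640) (.g (nat_lit 1768) (.e (nat_lit 7936) (nat_lit 348) (.e (nat_lit 73775) (nat_lit 26) (.e (nat_lit 778465) (nat_lit 11) (.e (nat_lit 24640) (nat_lit 10) (.e (nat_lit 344091) (nat_lit 18) .nil))))) .nil))) (.nd (nat_lit 6) 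
(.lf (nat_lit 119608) (.g (nat_lit 773) (.e (nat_lit 7936) (nat_lit 348) (.e (nat_lit 73746) (nat_lit 3) (.e (nat_lit 516147) (nat_lit 9) .nil))) .nil)) 
(.lf (nat_lit 119672) (.g (nat_lit 3763) (.e (nat_lit 6618) (nat_lit 357) (.e (nat_lit 2668) (nat_lit 167) (.e (nat_lit 196666) (nat_lit 13) (.e (nat_lit 65610) (nat_lit 10) (.e (nat_lit 344129) (nat_lit 26) (.e (nat_lit 557067) (nat_lit 9) (.e (nat_lit 7936) (nat_lit 21) (.e (nat_lit 335876) (nat_lit 0) .nil)))))))) (.g (nat_lit 5) .nil .nil))))))) 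
(.nd (nat_lit 3) (.nd (nat_lit 4) (.nd (nat_lit 5) (.nd (nat_lit 6) 
(.lf (nat_lit 119556) (.g (nat_lit 1491) (.e (nat_lit 7936) (nat_lit 347) (.e (nat_lit 65571) (nat_lit 3) (.e (nat_lit 98350) (nat_lit 24) (.e (nat_lit 409649) (nat_lit 18) .nil)))) .nil)) 
(.lf (nat_lit 119620) (.g (nat_lit 1664) (.e (nat_lit 7936) (nat_lit 348) (.e (nat_lit 73747) (nat_lit 3) (.e (nat_lit 516139) (nat_lit 7) (.e (nat_lit 417536) (nat_lit 18) .nil)))) .nil))) (.nd (nat_lit 6) 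
(.lf (nat_lit 119588) (.g (nat_lit 780) (.e (nat_lit 7936) (nat_lit 348) (.e (nat_lit 73746) (nat_lit 3) (.e (nat_lit 516118) (nat_lit 1) .nil))) .nil)) 
(.lf (nat_lit 119652) (.g (nat_lit 1180) (.e (nat_lit 6610) (nat_lit 355) (.e (nat_lit 163907) (nat_lit 12) (.e (nat_lit 426112) (nat_lit 1) .nil))) .nil)))) (.nd (nat_lit 5) (.nd (nat_lit 6) 
(.lf (nat_lit 119572) (.g (nat_lit 2074) (.e (nat_lit 6519) (nat_lit 348) (.e (nat_lit 73753) (nat_lit 8) (.e (nat_lit 557087) (nat_lit 11) (.e (nat_lit 24617) (nat_lit 7) .nil)))) .nil)) 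
(.lf (nat_lit 119636) (.g (nat_lit 2402) (.e (nat_lit 7936) (nat_lit 348) (.e (nat_lit 73754) (nat_lit 8) (.e (nat_lit 557087) (nat_lit 11) (.e (nat_lit 24617) (nat_lit 7) .nil)))) .nil))) (.nd (nat_lit 6) 
(.lf (nat_lit 119604) (.g (nat_lit 2643) (.e (nat_lit 7936) (nat_lit 348) (.e (nat_lit 73746) (nat_lit 3) (.e (nat_lit 516146) (nat_lit 9) (.e (nat_lit 426448) (nat_lit 20) (.e (nat_lit 114718) (nat_lit 23) .nil))))) .nil)) 
(.lf (nat_lit 119668) (.g (nat_lit 2048) (.e (nat_lit 6617) (nat_lit 357) (.e (nat_lit 2685) (nat_lit 168) (.e (nat_lit 204869) (nat_lit 29) (.e (nat_lit 360474) (nat_lit 8) (.e (nat_lit 557073) (nat_lit 9) (.e (nat_lit 290) (nat_lit 21) (.e (nat_lit 335892) (nat_lit 0) .nil))))))) (.g (nat_lit 4) .nil .nil)))))) (.nd (nat_lit 4) (.nd (nat_lit 5) (.nd (nat_lit 6) 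
(.lf (nat_lit 119564) (.g (nat_lit 2532) (.e (nat_lit 7936) (nat_lit 347) (.e (nat_lit 65637) (nat_lit 15) (.e (nat_lit 3632) (nat_lit 227) (.e (nat_lit 778323) (nat_lit 5) (.e (nat_lit 81664) (nat_lit 36) .nil))))) .nil)) 
(.lf (nat_lit 119628) (.g (nat_lit 1251) (.e (nat_lit 7936) (nat_lit 348) (.e (nat_lit 73747) (nat_lit 3) (.e (nat_lit 516147) (nat_lit 9) (.e (nat_lit 426446) (nat_lit 20) (.e (nat_lit 114718) (nat_lit 23) .nil))))) .nil))) (.nd (nat_lit 6) 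
(.lf (nat_lit 119596) (.g (nat_lit 1030) (.e (nat_lit 7936) (nat_lit 348) (.e (nat_lit 73746) (nat_lit 3) (.e (nat_lit 516144) (nat_lit 9) (.e (nat_lit 426446) (nat_lit 20) .nil)))) .nil)) 
(.lf (nat_lit 119660) (.g (nat_lit 2659) (.e (nat_lit 6617) (nat_lit 357) (.e (nat_lit 2668) (nat_lit 167) (.e (nat_lit 196666) (nat_lit 13) (.e (nat_lit 65617) (nat_lit 10) (.e (nat_lit 344130) (nat_lit 26) .nil))))) .nil)))) (.nd (nat_lit 5) (.nd (nat_lit 6) 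
(.lf (nat_lit 119580) (.g (nat_lit 4030) (.e (nat_lit 6520) (nat_lit 348) (.e (nat_lit 73755) (nat_lit 8) (.e (nat_lit 557090) (nat_lit 12) (.e (nat_lit 164020) (nat_lit 45) (.e (nat_lit 696344) (nat_lit 8) (.e (nat_lit 172067) (nat_lit 3) (.e (nat_lit 204816) (nat_lit 17) .nil))))))) (.g (nat_lit 0) .nil .nil))) 
(.lf (nat_lit 119644) (.g (nat_lit 3169) (.e (nat_lit 6534) (nat_lit 351) (.e (nat_lit 1129) (nat_lit 83) (.e (nat_lit 16416) (nat_lit 3) (.e (nat_lit 204869) (nat_lit 29) (.e (nat_lit 360474) (nat_lit 8) .nil))))) .nil))) (.nd (nat_lit 6) 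
(.lf (nat_lit 119612) (.g (nat_lit 2351) (.e (nat_lit 7936) (nat_lit 348) (.e (nat_lit 73746) (nat_lit 3) (.e (nat_lit 516150) (nat_lit 9) (.e (nat_lit 426448) (nat_lit 20) (.e (nat_lit 114719) (nat_lit 23) .nil))))) .nil)) 
(.lf (nat_lit 119676) (.g (nat_lit 2624) (.e (nat_lit 6618) (nat_lit 357) (.e (nat_lit 2668) (nat_lit 167) (.e (nat_lit 196666) (nat_lit 13) (.e (nat_lit 65630) (nat_lit 14) (.e (nat_lit 401425) (nat_lit 2) .nil))))) .nil))))))) (.nd (nat_lit 2) (.nd (nat_lit 3) (.nd (nat_lit 4) (.nd (nat_lit 5) (.nd (nat_lit 6) 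
(.lf (nat_lit 119554) (.g (nat_lit 2719) (.e (nat_lit 7936) (nat_lit 347) (.e (nat_lit 65571) (nat_lit 3) (.e (nat_lit 98350) (nat_lit 24) (.e (nat_lit 409647) (nat_lit 18) (.e (nat_lit 303118) (nat_lit 3) .nil))))) .nil)) 
(.lf (nat_lit 119618) (.g (nat_lit 1062) (.e (nat_lit 7936) (nat_lit 348) (.e (nat_lit 73747) (nat_lit 3) (.e (nat_lit 516139) (nat_lit 7) (.e (nat_lit 409616) (nat_lit 10) .nil)))) .nil))) (.nd (nat_lit 6) 
(.lf (nat_lit 119586) (.g (nat_lit 2315) (.e (nat_lit 7936) (nat_lit 348) (.e (nat_lit 73746) (nat_lit 3) (.e (nat_lit 516115) (nat_lit 1) (.e (nat_lit 164183) (nat_lit 154) (.e (nat_lit 57447) (nat_lit 19) .nil))))) .nil)) 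
(.lf (nat_lit 119650) (.g (nat_lit 2110) (.e (nat_lit 6603) (nat_lit 353) (.e (nat_lit 57375) (nat_lit 2) (.e (nat_lit 90160) (nat_lit 11) (.e (nat_lit 24628) (nat_lit 9) (.e (nat_lit 336019) (nat_lit 3) .nil))))) .nil)))) (.nd (nat_lit 5) (.nd (nat_lit 6) 
(.lf (nat_lit 119570) (.g (nat_lit 2885) (.e (nat_lit 6519) (nat_lit 348) (.e (nat_lit 73747) (nat_lit 3) (.e (nat_lit 516139) (nat_lit 7) (.e (nat_lit 409645) (nat_lit 18) (.e (nat_lit 303119) (nat_lit 3) .nil))))) .nil)) 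
(.lf (nat_lit 119634) (.g (nat_lit 1178) (.e (nat_lit 7936) (nat_lit 348) (.e (nat_lit 73753) (nat_lit 8) (.e (nat_lit 557090) (nat_lit 12) (.e (nat_lit 164020) (nat_lit 45) .nil)))) .nil))) (.nd (nat_lit 6) 
(.lf (nat_lit 119602) (.g (nat_lit 1807) (.e (nat_lit 7936) (nat_lit 348) (.e (nat_lit 73746) (nat_lit 3) (.e (nat_lit 516146) (nat_lit 9) (.e (nat_lit 426446) (nat_lit 20) (.e (nat_lit 114718) (nat_lit 23) .nil))))) .nil)) 
(.lf (nat_lit 119666) (.g (nat_lit 1324) (.e (nat_lit 6617) (nat_lit 357) (.e (nat_lit 2685) (nat_lit 168) (.e (nat_lit 204869) (nat_lit 29) (.e (nat_lit 360473) (nat_lit 8) .nil)))) .nil))))) (.nd (nat_lit 4) (.nd (nat_lit 5) (.nd (nat_lit 6) 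
(.lf (nat_lit 119562) (.g (nat_lit 1811) (.e (nat_lit 7936) (nat_lit 347) (.e (nat_lit 65571) (nat_lit 3) (.e (nat_lit 98357) (nat_lit 26) (.e (nat_lit 426448) (nat_lit 20) (.e (nat_lit 114719) (nat_lit 23) .nil))))) .nil)) 
(.lf (nat_lit 119626) (.g (nat_lit 2655) (.e (nat_lit 7936) (nat_lit 348) (.e (nat_lit 73747) (nat_lit 3) (.e (nat_lit 516146) (nat_lit 9) (.e (nat_lit 426448) (nat_lit 20) (.e (nat_lit 114719) (nat_lit 23) .nil))))) .nil))) (.nd (nat_lit 6) 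
(.lf (nat_lit 119594) (.g (nat_lit 2226) (.e (nat_lit 7936) (nat_lit 348) (.e (nat_lit 73746) (nat_lit 3) (.e (nat_lit 516139) (nat_lit 7) (.e (nat_lit 409647) (nat_lit 18) (.e (nat_lit 303119) (nat_lit 3) .nil))))) .nil)) 
(.lf (nat_lit 119658) (.g (nat_lit 2574) (.e (nat_lit 6617) (nat_lit 357) (.e (nat_lit 2668) (nat_lit 167) (.e (nat_lit 196666) (nat_lit 13) (.e (nat_lit 65610) (nat_lit 10) (.e (nat_lit 344129) (nat_lit 26) .nil))))) .nil)))) (.nd (nat_lit 5) (.nd (nat_lit 6) 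
(.lf (nat_lit 119578) (.g (nat_lit 3648) (.e (nat_lit 6520) (nat_lit 348) (.e (nat_lit 73753) (nat_lit 8) (.e (nat_lit 557087) (nat_lit 11) (.e (nat_lit 24662) (nat_lit 14) (.e (nat_lit 401425) (nat_lit 2) .nil))))) .nil)) 
(.lf (nat_lit 119642) (.g (nat_lit 1734) (.e (nat_lit 7936) (nat_lit 348) (.e (nat_lit 73775) (nat_lit 26) (.e (nat_lit 778465) (nat_lit 11) (.e (nat_lit 24640) (nat_lit 10) (.e (nat_lit 344095) (nat_lit 18) .nil))))) .nil))) (.nd (nat_lit 6) 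
(.lf (nat_lit 119610) (.g (nat_lit 1576) (.e (nat_lit 7936) (nat_lit 348) (.e (nat_lit 73746) (nat_lit 3) (.e (nat_lit 516147) (nat_lit 9) (.e (nat_lit 426448) (nat_lit 20) (.e (nat_lit 114718) (nat_lit 23) .nil))))) .nil)) 
(.lf (nat_lit 119674) (.g (nat_lit 3240) (.e (nat_lit 6618) (nat_lit 357) (.e (nat_lit 2668) (nat_lit 167) (.e (nat_lit 196666) (nat_lit 13) (.e (nat_lit 65617) (nat_lit 10) (.e (nat_lit 344133) (nat_lit 26) (.e (nat_lit 557066) (nat_lit 9) (.e (nat_lit 293) (nat_lit 21) (.e (nat_lit 335872) (nat_lit 0) .nil)))))))) (.g (nat_lit 7) .nil .nil))))))) 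
(.nd (nat_lit 3) (.nd (nat_lit 4) (.nd (nat_lit 5) (.nd (nat_lit 6) 
(.lf (nat_lit 119558) (.g (nat_lit 1753) (.e (nat_lit 7936) (nat_lit 347) (.e (nat_lit 65571) (nat_lit 3) (.e (nat_lit 98353) (nat_lit 25) (.e (nat_lit 417828) (nat_lit 18) (.e (nat_lit 303119) (nat_lit 3) .nil))))) .nil)) 
(.lf (nat_lit 119622) (.g (nat_lit 2671) (.e (nat_lit 7936) (nat_lit 348) (.e (nat_lit 73747) (nat_lit 3) (.e (nat_lit 516145) (nat_lit 9) (.e (nat_lit 426448) (nat_lit 20) (.e (nat_lit 114718) (nat_lit 23) .nil))))) .nil))) (.nd (nat_lit 6) 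
(.lf (nat_lit 119590) (.g (nat_lit 2116) (.e (nat_lit 7936) (nat_lit 348) (.e (nat_lit 73746) (nat_lit 3) (.e (nat_lit 516120) (nat_lit 1) (.e (nat_lit 164182) (nat_lit 154) (.e (nat_lit 57447) (nat_lit 19) .nil))))) .nil)) 
(.lf (nat_lit 119654) (.g (nat_lit 2821) (.e (nat_lit 6616) (nat_lit 357) (.e (nat_lit 3071) (nat_lit 190) (.e (nat_lit 475185) (nat_lit 29) (.e (nat_lit 557109) (nat_lit 15) (.e (nat_lit 188449) (nat_lit 22) (.e (nat_lit 196628) (nat_lit 9) (.e (nat_lit 970) (nat_lit 81) .nil))))))) (.g (nat_lit 4) .nil .nil))))) (.nd (nat_lit 5) (.nd (nat_lit 6) 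
(.lf (nat_lit 119574) (.g (nat_lit 4209) (.e (nat_lit 6519) (nat_lit 348) (.e (nat_lit 73755) (nat_lit 8) (.e (nat_lit 557090) (nat_lit 12) (.e (nat_lit 164020) (nat_lit 45) (.e (nat_lit 696344) (nat_lit 8) (.e (nat_lit 172067) (nat_lit 3) (.e (nat_lit 204816) (nat_lit 17) .nil))))))) (.g (nat_lit 0) .nil .nil))) 
(.lf (nat_lit 119638) (.g (nat_lit 846) (.e (nat_lit 7936) (nat_lit 348) (.e (nat_lit 73775) (nat_lit 26) (.e (nat_lit 778465) (nat_lit 11) (.e (nat_lit 24639) (nat_lit 10) (.e (nat_lit 344095) (nat_lit 18) .nil))))) .nil))) (.nd (nat_lit 6) 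
(.lf (nat_lit 119606) (.g (nat_lit 2074) (.e (nat_lit 7936) (nat_lit 348) (.e (nat_lit 73746) (nat_lit 3) (.e (nat_lit 516146) (nat_lit 9) (.e (nat_lit 426449) (nat_lit 20) (.e (nat_lit 114719) (nat_lit 23) .nil))))) .nil)) 
(.lf (nat_lit 119670) (.g (nat_lit 1875) (.e (nat_lit 6617) (nat_lit 357) (.e (nat_lit 3063) (nat_lit 190) (.e (nat_lit 475185) (nat_lit 29) (.e (nat_lit 557107) (nat_lit 15) .nil)))) .nil))))) (.nd (nat_lit 4) (.nd (nat_lit 5) (.nd (nat_lit 6) 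
(.lf (nat_lit 119566) (.g (nat_lit 778) (.e (nat_lit 7936) (nat_lit 347) (.e (nat_lit 65653) (nat_lit 27) (.e (nat_lit 426011) (nat_lit 0) (.e (nat_lit 7591) (nat_lit 407) .nil)))) .nil)) 
(.lf (nat_lit 119630) (.g (nat_lit 1707) (.e (nat_lit 7936) (nat_lit 348) (.e (nat_lit 73747) (nat_lit 3) (.e (nat_lit 516180) (nat_lit 15) (.e (nat_lit 475214) (nat_lit 42) (.e (nat_lit 720943) (nat_lit 23) .nil))))) .nil))) (.nd (nat_lit 6) 
(.lf (nat_lit 119598) (.g (nat_lit 1919) (.e (nat_lit 7936) (nat_lit 348) (.e (nat_lit 73746) (nat_lit 3) (.e (nat_lit 516144) (nat_lit 9) (.e (nat_lit 426448) (nat_lit 20) (.e (nat_lit 114719) (nat_lit 23) .nil))))) .nil)) 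
(.lf (nat_lit 119662) (.g (nat_lit 2736) (.e (nat_lit 6617) (nat_lit 357) (.e (nat_lit 2668) (nat_lit 167) (.e (nat_lit 196666) (nat_lit 13) (.e (nat_lit 65617) (nat_lit 10) (.e (nat_lit 344132) (nat_lit 26) .nil))))) .nil)))) (.nd (nat_lit 5) (.nd (nat_lit 6) 
(.lf (nat_lit 119582) (.g (nat_lit 536) (.e (nat_lit 7936) (nat_lit 348) (.e (nat_lit 73746) (nat_lit 3) (.e (nat_lit 516115) (nat_lit 1) .nil))) .nil)) 
(.lf (nat_lit 119646) (.g (nat_lit 2286) (.e (nat_lit 6579) (nat_lit 351) (.e (nat_lit 1122) (nat_lit 83) (.e (nat_lit 16466) (nat_lit 13) (.e (nat_lit 483413) (nat_lit 27) (.e (nat_lit 401448) (nat_lit 10) .nil))))) .nil))) (.nd (nat_lit 6) 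
(.lf (nat_lit 119614) (.g (nat_lit 1313) (.e (nat_lit 7936) (nat_lit 348) (.e (nat_lit 73746) (nat_lit 3) (.e (nat_lit 516179) (nat_lit 15) (.e (nat_lit 475214) (nat_lit 42) .nil)))) .nil)) 
(.lf (nat_lit 119678) (.g (nat_lit 1945) (.e (nat_lit 6619) (nat_lit 357) (.e (nat_lit 2668) (nat_lit 167) (.e (nat_lit 196666) (nat_lit 13) (.e (nat_lit 65617) (nat_lit 10) (.e (nat_lit 344127) (nat_lit 26) .nil))))) .nil)))))))) (.nd (nat_lit 1) (.nd (nat_lit 2) (.nd (nat_lit 3) (.nd (nat_lit 4) (.nd (nat_lit 5) (.nd (nat_lit 6) 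
(.lf (nat_lit 119553) (.g (nat_lit 2552) (.e (nat_lit 7936) (nat_lit 347) (.e (nat_lit 65571) (nat_lit 3) (.e (nat_lit 98350) (nat_lit 24) (.e (nat_lit 409617) (nat_lit 10) (.e (nat_lit 5762) (nat_lit 315) .nil))))) .nil)) 
(.lf (nat_lit 119617) (.g (nat_lit 417) (.e (nat_lit 7936) (nat_lit 348) (.e (nat_lit 73746) (nat_lit 3) (.e (nat_lit 516191) (nat_lit 17) .nil))) .nil))) (.nd (nat_lit 6) 
(.lf (nat_lit 119585) (.g (nat_lit 1497) (.e (nat_lit 7936) (nat_lit 348) (.e (nat_lit 73746) (nat_lit 3) (.e (nat_lit 516115) (nat_lit 1) (.e (nat_lit 164183) (nat_lit 154) .nil)))) .nil)) 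
(.lf (nat_lit 119649) (.g (nat_lit 649) (.e (nat_lit 6595) (nat_lit 351) (.e (nat_lit 2638) (nat_lit 165) (.e (nat_lit 180229) (nat_lit 0) .nil))) .nil)))) (.nd (nat_lit 5) (.nd (nat_lit 6) 
(.lf (nat_lit 119569) (.g (nat_lit 682) (.e (nat_lit 6519) (nat_lit 348) (.e (nat_lit 73747) (nat_lit 3) (.e (nat_lit 516139) (nat_lit 7) .nil))) .nil)) 
(.lf (nat_lit 119633) (.g (nat_lit 997) (.e (nat_lit 7936) (nat_lit 348) (.e (nat_lit 73748) (nat_lit 3) (.e (nat_lit 516139) (nat_lit 7) (.e (nat_lit 417536) (nat_lit 18) .nil)))) .nil))) (.nd (nat_lit 6) 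
(.lf (nat_lit 119601) (.g (nat_lit 527) (.e (nat_lit 7936) (nat_lit 348) (.e (nat_lit 73746) (nat_lit 3) (.e (nat_lit 516146) (nat_lit 9) .nil))) .nil)) 
(.lf (nat_lit 119665) (.g (nat_lit 2892) (.e (nat_lit 6617) (nat_lit 357) (.e (nat_lit 2668) (nat_lit 167) (.e (nat_lit 196666) (nat_lit 13) (.e (nat_lit 65617) (nat_lit 10) (.e (nat_lit 344133) (nat_lit 26) (.e (nat_lit 557068) (nat_lit 9) (.e (nat_lit 290) (nat_lit 21) (.e (nat_lit 335895) (nat_lit 0) .nil)))))))) (.g (nat_lit 4) .nil .nil)))))) 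
(.nd (nat_lit 4) (.nd (nat_lit 5) (.nd (nat_lit 6) 
(.lf (nat_lit 119561) (.g (nat_lit 1774) (.e (nat_lit 7936) (nat_lit 347) (.e (nat_lit 65571) (nat_lit 3) (.e (nat_lit 98357) (nat_lit 26) (.e (nat_lit 426448) (nat_lit 20) (.e (nat_lit 114718) (nat_lit 23) .nil))))) .nil)) 
(.lf (nat_lit 119625) (.g (nat_lit 2664) (.e (nat_lit 7936) (nat_lit 348) (.e (nat_lit 73747) (nat_lit 3) (.e (nat_lit 516146) (nat_lit 9) (.e (nat_lit 426448) (nat_lit 20) (.e (nat_lit 114718) (nat_lit 23) .nil))))) .nil))) (.nd (nat_lit 6) 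
(.lf (nat_lit 119593) (.g (nat_lit 479) (.e (nat_lit 7936) (nat_lit 348) (.e (nat_lit 73746) (nat_lit 3) (.e (nat_lit 516138) (nat_lit 7) .nil))) .nil)) 
(.lf (nat_lit 119657) (.g (nat_lit 554) (.e (nat_lit 6617) (nat_lit 357) (.e (nat_lit 351) (nat_lit 28) (.e (nat_lit 393275) (nat_lit 23) .nil))) .nil)))) (.nd (nat_lit 5) (.nd (nat_lit 6) 
(.lf (nat_lit 119577) (.g (nat_lit 4323) (.e (nat_lit 6520) (nat_lit 348) (.e (nat_lit 73753) (nat_lit 8) (.e (nat_lit 557087) (nat_lit 11) (.e (nat_lit 24617) (nat_lit 7) (.e (nat_lit 319505) (nat_lit 10) .nil))))) .nil)) 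
(.lf (nat_lit 119641) (.g (nat_lit 1777) (.e (nat_lit 7936) (nat_lit 348) (.e (nat_lit 73775) (nat_lit 26) (.e (nat_lit 778465) (nat_lit 11) (.e (nat_lit 24640) (nat_lit 10) (.e (nat_lit 344094) (nat_lit 18) .nil))))) .nil))) (.nd (nat_lit 6) 
(.lf (nat_lit 119609) (.g (nat_lit 1374) (.e (nat_lit 7936) (nat_lit 348) (.e (nat_lit 73746) (nat_lit 3) (.e (nat_lit 516147) (nat_lit 9) (.e (nat_lit 426446) (nat_lit 20) (.e (nat_lit 114719) (nat_lit 23) .nil))))) .nil)) 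
(.lf (nat_lit 119673) (.g (nat_lit 3204) (.e (nat_lit 6618) (nat_lit 357) (.e (nat_lit 2668) (nat_lit 167) (.e (nat_lit 196666) (nat_lit 13) (.e (nat_lit 65617) (nat_lit 10) (.e (nat_lit 344132) (nat_lit 26) (.e (nat_lit 557072) (nat_lit 9) (.e (nat_lit 288) (nat_lit 21) (.e (nat_lit 335872) (nat_lit 0) .nil)))))))) (.g (nat_lit 6) .nil .nil))))))) 
(.nd (nat_lit 3) (.nd (nat_lit 4) (.nd (nat_lit 5) (.nd (nat_lit 6) 
(.lf (nat_lit 119557) (.g (nat_lit 2523) (.e (nat_lit 7936) (nat_lit 347) (.e (nat_lit 65571) (nat_lit 3) (.e (nat_lit 98350) (nat_lit 24) (.e (nat_lit 409649) (nat_lit 18) (.e (nat_lit 303119) (nat_lit 3) .nil))))) .nil)) 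
(.lf (nat_lit 119621) (.g (nat_lit 2471) (.e (nat_lit 7936) (nat_lit 348) (.e (nat_lit 73747) (nat_lit 3) (.e (nat_lit 516142) (nat_lit 8) (.e (nat_lit 417828) (nat_lit 18) (.e (nat_lit 303119) (nat_lit 3) .nil))))) .nil))) (.nd (nat_lit 6) 
(.lf (nat_lit 119589) (.g (nat_lit 1364) (.e (nat_lit 7936) (nat_lit 348) (.e (nat_lit 73746) (nat_lit 3) (.e (nat_lit 516119) (nat_lit 1) (.e (nat_lit 164182) (nat_lit 154) .nil)))) .nil)) 
(.lf (nat_lit 119653) (.g (nat_lit 2627) (.e (nat_lit 6616) (nat_lit 357) (.e (nat_lit 2668) (nat_lit 167) (.e (nat_lit 196666) (nat_lit 13) (.e (nat_lit 65610) (nat_lit 10) (.e (nat_lit 344129) (nat_lit 26) .nil))))) .nil)))) (.nd (nat_lit 5) (.nd (nat_lit 6) 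
(.lf (nat_lit 119573) (.g (nat_lit 1524) (.e (nat_lit 6519) (nat_lit 348) (.e (nat_lit 73755) (nat_lit 8) (.e (nat_lit 557090) (nat_lit 12) (.e (nat_lit 164020) (nat_lit 45) .nil)))) .nil)) 
(.lf (nat_lit 119637) (.g (nat_lit 1512) (.e (nat_lit 7936) (nat_lit 348) (.e (nat_lit 73755) (nat_lit 8) (.e (nat_lit 557090) (nat_lit 12) (.e (nat_lit 164020) (nat_lit 45) (.e (nat_lit 696344) (nat_lit 8) .nil))))) .nil))) (.nd (nat_lit 6) 
(.lf (nat_lit 119605) (.g (nat_lit 2637) (.e (nat_lit 7936) (nat_lit 348) (.e (nat_lit 73746) (nat_lit 3) (.e (nat_lit 516146) (nat_lit 9) (.e (nat_lit 426448) (nat_lit 20) (.e (nat_lit 114719) (nat_lit 23) .nil))))) .nil)) 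
(.lf (nat_lit 119669) (.g (nat_lit 2647) (.e (nat_lit 6617) (nat_lit 357) (.e (nat_lit 2685) (nat_lit 168) (.e (nat_lit 204869) (nat_lit 29) (.e (nat_lit 360475) (nat_lit 8) (.e (nat_lit 557073) (nat_lit 9) .nil))))) .nil))))) (.nd (nat_lit 4) (.nd (nat_lit 5) (.nd (nat_lit 6) 
(.lf (nat_lit 119565) (.g (nat_lit 1016) (.e (nat_lit 7936) (nat_lit 347) (.e (nat_lit 65637) (nat_lit 15) (.e (nat_lit 3632) (nat_lit 227) (.e (nat_lit 778324) (nat_lit 5) .nil)))) .nil)) 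
(.lf (nat_lit 119629) (.g (nat_lit 727) (.e (nat_lit 7936) (nat_lit 348) (.e (nat_lit 73747) (nat_lit 3) (.e (nat_lit 516180) (nat_lit 15) .nil))) .nil))) (.nd (nat_lit 6) 
(.lf (nat_lit 119597) (.g (nat_lit 1869) (.e (nat_lit 7936) (nat_lit 348) (.e (nat_lit 73746) (nat_lit 3) (.e (nat_lit 516144) (nat_lit 9) (.e (nat_lit 426448) (nat_lit 20) (.e (nat_lit 114718) (nat_lit 23) .nil))))) .nil)) 
(.lf (nat_lit 119661) (.g (nat_lit 2927) (.e (nat_lit 6617) (nat_lit 357) (.e (nat_lit 2668) (nat_lit 167) (.e (nat_lit 196666) (nat_lit 13) (.e (nat_lit 65617) (nat_lit 10) (.e (nat_lit 344130) (nat_lit 26) (.e (nat_lit 557067) (nat_lit 9) (.e (nat_lit 290) (nat_lit 21) (.e (nat_lit 335895) (nat_lit 0) .nil)))))))) (.g (nat_lit 4) .nil .nil))))) (.nd (nat_lit 5) (.nd (nat_lit 6) 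
(.lf (nat_lit 119581) (.g (nat_lit 1933) (.e (nat_lit 7936) (nat_lit 348) (.e (nat_lit 73745) (nat_lit 3) (.e (nat_lit 516139) (nat_lit 7) (.e (nat_lit 409649) (nat_lit 18) (.e (nat_lit 303119) (nat_lit 3) .nil))))) .nil)) 
(.lf (nat_lit 119645) (.g (nat_lit 1257) (.e (nat_lit 6579) (nat_lit 351) (.e (nat_lit 1122) (nat_lit 83) (.e (nat_lit 16436) (nat_lit 9) (.e (nat_lit 426550) (nat_lit 31) (.e (nat_lit 376576) (nat_lit 5) .nil))))) .nil))) (.nd (nat_lit 6) 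
(.lf (nat_lit 119613) (.g (nat_lit 611) (.e (nat_lit 7936) (nat_lit 348) (.e (nat_lit 73746) (nat_lit 3) (.e (nat_lit 516179) (nat_lit 15) .nil))) .nil)) 
(.lf (nat_lit 119677) (.g (nat_lit 500) (.e (nat_lit 6619) (nat_lit 357) (.e (nat_lit 2612) (nat_lit 163) (.e (nat_lit 164163) (nat_lit 152) .nil))) .nil))))))) (.nd (nat_lit 2) (.nd (nat_lit 3) (.nd (nat_lit 4) (.nd (nat_lit 5) (.nd (nat_lit 6) 
(.lf (nat_lit 119555) (.g (nat_lit 1615) (.e (nat_lit 7936) (nat_lit 347) (.e (nat_lit 65571) (nat_lit 3) (.e (nat_lit 98350) (nat_lit 24) (.e (nat_lit 409648) (nat_lit 18) .nil)))) .nil)) 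
(.lf (nat_lit 119619) (.g (nat_lit 1381) (.e (nat_lit 7936) (nat_lit 348) (.e (nat_lit 73747) (nat_lit 3) (.e (nat_lit 516139) (nat_lit 7) (.e (nat_lit 409647) (nat_lit 18) .nil)))) .nil))) (.nd (nat_lit 6) 
(.lf (nat_lit 119587) (.g (nat_lit 1734) (.e (nat_lit 7936) (nat_lit 348) (.e (nat_lit 73746) (nat_lit 3) (.e (nat_lit 516117) (nat_lit 1) (.e (nat_lit 164183) (nat_lit 154) (.e (nat_lit 57447) (nat_lit 19) .nil))))) .nil)) 
(.lf (nat_lit 119651) (.g (nat_lit 1694) (.e (nat_lit 6604) (nat_lit 353) (.e (nat_lit 57375) (nat_lit 2) (.e (nat_lit 90160) (nat_lit 11) (.e (nat_lit 24628) (nat_lit 9) .nil)))) .nil)))) (.nd (nat_lit 5) (.nd (nat_lit 6) 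
(.lf (nat_lit 119571) (.g (nat_lit 1577) (.e (nat_lit 6519) (nat_lit 348) (.e (nat_lit 73747) (nat_lit 3) (.e (nat_lit 516139) (nat_lit 7) (.e (nat_lit 409647) (nat_lit 18) .nil)))) .nil)) 
(.lf (nat_lit 119635) (.g (nat_lit 2007) (.e (nat_lit 7936) (nat_lit 348) (.e (nat_lit 73753) (nat_lit 8) (.e (nat_lit 557090) (nat_lit 12) (.e (nat_lit 164020) (nat_lit 45) (.e (nat_lit 696344) (nat_lit 8) .nil))))) .nil))) (.nd (nat_lit 6) 
(.lf (nat_lit 119603) (.g (nat_lit 1791) (.e (nat_lit 7936) (nat_lit 348) (.e (nat_lit 73746) (nat_lit 3) (.e (nat_lit 516146) (nat_lit 9) (.e (nat_lit 426446) (nat_lit 20) (.e (nat_lit 114719) (nat_lit 23) .nil))))) .nil)) 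
(.lf (nat_lit 119667) (.g (nat_lit 2658) (.e (nat_lit 6617) (nat_lit 357) (.e (nat_lit 2685) (nat_lit 168) (.e (nat_lit 204869) (nat_lit 29) (.e (nat_lit 360474) (nat_lit 8) (.e (nat_lit 557072) (nat_lit 9) (.e (nat_lit 290) (nat_lit 21) (.e (nat_lit 335893) (nat_lit 0) .nil))))))) (.g (nat_lit 5) .nil .nil)))))) (.nd (nat_lit 4) (.nd (nat_lit 5) (.nd (nat_lit 6) 
(.lf (nat_lit 119563) (.g (nat_lit 1760) (.e (nat_lit 7936) (nat_lit 347) (.e (nat_lit 65637) (nat_lit 15) (.e (nat_lit 3632) (nat_lit 227) (.e (nat_lit 778323) (nat_lit 5) .nil)))) .nil)) 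
(.lf (nat_lit 119627) (.g (nat_lit 720) (.e (nat_lit 7936) (nat_lit 348) (.e (nat_lit 73747) (nat_lit 3) (.e (nat_lit 516147) (nat_lit 9) .nil))) .nil))) (.nd (nat_lit 6) 
(.lf (nat_lit 119595) (.g (nat_lit 1624) (.e (nat_lit 7936) (nat_lit 348) (.e (nat_lit 73746) (nat_lit 3) (.e (nat_lit 516139) (nat_lit 7) (.e (nat_lit 417536) (nat_lit 18) .nil)))) .nil)) 
(.lf (nat_lit 119659) (.g (nat_lit 1902) (.e (nat_lit 6617) (nat_lit 357) (.e (nat_lit 2668) (nat_lit 167) (.e (nat_lit 196666) (nat_lit 13) (.e (nat_lit 65617) (nat_lit 10) .nil)))) .nil)))) (.nd (nat_lit 5) (.nd (nat_lit 6) 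
(.lf (nat_lit 119579) (.g (nat_lit 4188) (.e (nat_lit 6520) (nat_lit 348) (.e (nat_lit 73753) (nat_lit 8) (.e (nat_lit 557090) (nat_lit 12) (.e (nat_lit 164020) (nat_lit 45) (.e (nat_lit 696344) (nat_lit 8) (.e (nat_lit 172067) (nat_lit 3) (.e (nat_lit 204816) (nat_lit 17) .nil))))))) (.g (nat_lit 0) .nil .nil))) 
(.lf (nat_lit 119643) (.g (nat_lit 3584) (.e (nat_lit 6522) (nat_lit 349) (.e (nat_lit 122955) (nat_lit 42) (.e (nat_lit 671762) (nat_lit 4) (.e (nat_lit 65629) (nat_lit 14) (.e (nat_lit 401459) (nat_lit 13) (.e (nat_lit 483344) (nat_lit 17) .nil)))))) (.g (nat_lit 0) .nil .nil)))) (.nd (nat_lit 6) 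
(.lf (nat_lit 119611) (.g (nat_lit 2330) (.e (nat_lit 7936) (nat_lit 348) (.e (nat_lit 73746) (nat_lit 3) (.e (nat_lit 516150) (nat_lit 9) (.e (nat_lit 426448) (nat_lit 20) (.e (nat_lit 114718) (nat_lit 23) .nil))))) .nil)) 
(.lf (nat_lit 119675) (.g (nat_lit 2066) (.e (nat_lit 6618) (nat_lit 357) (.e (nat_lit 2668) (nat_lit 167) (.e (nat_lit 196666) (nat_lit 13) (.e (nat_lit 65619) (nat_lit 10) .nil)))) .nil)))))) (.nd (nat_lit 3) (.nd (nat_lit 4) (.nd (nat_lit 5) (.nd (nat_lit 6) 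
(.lf (nat_lit 119559) (.g (nat_lit 895) (.e (nat_lit 7936) (nat_lit 347) (.e (nat_lit 65571) (nat_lit 3) (.e (nat_lit 98356) (nat_lit 26) .nil))) .nil)) 
(.lf (nat_lit 119623) (.g (nat_lit 517) (.e (nat_lit 7936) (nat_lit 348) (.e (nat_lit 73747) (nat_lit 3) (.e (nat_lit 516146) (nat_lit 9) .nil))) .nil))) (.nd (nat_lit 6) 
(.lf (nat_lit 119591) (.g (nat_lit 2130) (.e (nat_lit 7936) (nat_lit 348) (.e (nat_lit 73746) (nat_lit 3) (.e (nat_lit 516120) (nat_lit 1) (.e (nat_lit 164182) (nat_lit 154) (.e (nat_lit 57448) (nat_lit 19) .nil))))) .nil)) 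
(.lf (nat_lit 119655) (.g (nat_lit 1389) (.e (nat_lit 6617) (nat_lit 357) (.e (nat_lit 214) (nat_lit 19) (.e (nat_lit 319530) (nat_lit 16) (.e (nat_lit 286761) (nat_lit 13) .nil)))) .nil)))) (.nd (nat_lit 5) (.nd (nat_lit 6) 
(.lf (nat_lit 119575) (.g (nat_lit 1507) (.e (nat_lit 6520) (nat_lit 348) (.e (nat_lit 73746) (nat_lit 3) (.e (nat_lit 516139) (nat_lit 7) (.e (nat_lit 409646) (nat_lit 18) .nil)))) .nil)) 
(.lf (nat_lit 119639) (.g (nat_lit 850) (.e (nat_lit 7936) (nat_lit 348) (.e (nat_lit 73775) (nat_lit 26) (.e (nat_lit 778465) (nat_lit 11) (.e (nat_lit 24639) (nat_lit 10) (.e (nat_lit 344096) (nat_lit 18) .nil))))) .nil))) (.nd (nat_lit 6) 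
(.lf (nat_lit 119607) (.g (nat_lit 1489) (.e (nat_lit 7936) (nat_lit 348) (.e (nat_lit 73746) (nat_lit 3) (.e (nat_lit 516146) (nat_lit 9) (.e (nat_lit 433920) (nat_lit 20) .nil)))) .nil)) 
(.lf (nat_lit 119671) (.g (nat_lit 3125) (.e (nat_lit 6617) (nat_lit 357) (.e (nat_lit 3063) (nat_lit 190) (.e (nat_lit 475185) (nat_lit 29) (.e (nat_lit 557107) (nat_lit 15) (.e (nat_lit 188452) (nat_lit 23) .nil))))) .nil))))) (.nd (nat_lit 4) (.nd (nat_lit 5) (.nd (nat_lit 6) 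
(.lf (nat_lit 119567) (.g (nat_lit 1625) (.e (nat_lit 7936) (nat_lit 347) (.e (nat_lit 65653) (nat_lit 27) (.e (nat_lit 426011) (nat_lit 0) (.e (nat_lit 7591) (nat_lit 407) (.e (nat_lit 73729) (nat_lit 0) .nil))))) .nil)) 
(.lf (nat_lit 119631) (.g (nat_lit 1880) (.e (nat_lit 7936) (nat_lit 348) (.e (nat_lit 73748) (nat_lit 3) (.e (nat_lit 516138) (nat_lit 7) (.e (nat_lit 409646) (nat_lit 18) (.e (nat_lit 303119) (nat_lit 3) .nil))))) .nil))) (.nd (nat_lit 6) 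
(.lf (nat_lit 119599) (.g (nat_lit 2717) (.e (nat_lit 7936) (nat_lit 348) (.e (nat_lit 73746) (nat_lit 3) (.e (nat_lit 516145) (nat_lit 9) (.e (nat_lit 426448) (nat_lit 20) (.e (nat_lit 114718) (nat_lit 23) .nil))))) .nil)) 
(.lf (nat_lit 119663) (.g (nat_lit 2909) (.e (nat_lit 6617) (nat_lit 357) (.e (nat_lit 2668) (nat_lit 167) (.e (nat_lit 196666) (nat_lit 13) (.e (nat_lit 65617) (nat_lit 10) (.e (nat_lit 344132) (nat_lit 26) (.e (nat_lit 557072) (nat_lit 9) (.e (nat_lit 290) (nat_lit 21) (.e (nat_lit 335895) (nat_lit 0) .nil)))))))) (.g (nat_lit 4) .nil .nil))))) (.nd (nat_lit 5) (.nd (nat_lit 6) 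
(.lf (nat_lit 119583) (.g (nat_lit 2041) (.e (nat_lit 7936) (nat_lit 348) (.e (nat_lit 73746) (nat_lit 3) (.e (nat_lit 516115) (nat_lit 1) (.e (nat_lit 164177) (nat_lit 154) (.e (nat_lit 57448) (nat_lit 19) .nil))))) .nil)) 
(.lf (nat_lit 119647) (.g (nat_lit 971) (.e (nat_lit 6595) (nat_lit 351) (.e (nat_lit 2555) (nat_lit 159) (.e (nat_lit 24584) (nat_lit 0) (.e (nat_lit 1994) (nat_lit 137) .nil)))) .nil))) (.nd (nat_lit 6) 
(.lf (nat_lit 119615) (.g (nat_lit 696) (.e (nat_lit 7936) (nat_lit 348) (.e (nat_lit 73746) (nat_lit 3) (.e (nat_lit 516180) (nat_lit 15) .nil))) .nil)) 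
(.lf (nat_lit 119679) (.g (nat_lit 2377) (.e (nat_lit 6619) (nat_lit 357) (.e (nat_lit 2668) (nat_lit 167) (.e (nat_lit 196666) (nat_lit 13) (.e (nat_lit 65617) (nat_lit 10) (.e (nat_lit 344130) (nat_lit 26) (.e (nat_lit 557074) (nat_lit 9) (.e (nat_lit 284) (nat_lit 21) (.e (nat_lit 335886) (nat_lit 0) .nil)))))))) (.g (nat_lit 4) .nil .nil))))))))))

noncomputable def tv1596 : DT := (.nd (nat_lit 0) (.nd (nat_lit 1) (.nd (nat_lit 2) (.nd (nat_lit 3) (.nd (nat_lit 4) (.nd (nat_lit 5) (.nd (nat_lit 6) 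
(.lf (nat_lit 119680) (.g (nat_lit 2264) (.e (nat_lit 6619) (nat_lit 357) (.e (nat_lit 2668) (nat_lit 167) (.e (nat_lit 196666) (nat_lit 13) (.e (nat_lit 65617) (nat_lit 10) (.e (nat_lit 344130) (nat_lit 26) (.e (nat_lit 557074) (nat_lit 9) (.e (nat_lit 284) (nat_lit 21) (.e (nat_lit 335892) (nat_lit 0) .nil)))))))) (.g (nat_lit 4) .nil .nil))) 
(.lf (nat_lit 119744) (.g (nat_lit 797) (.e (nat_lit 6667) (nat_lit 357) (.e (nat_lit 2856) (nat_lit 184) (.e (nat_lit 426533) (nat_lit 28) .nil))) .nil))) (.nd (nat_lit 6) 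
(.lf (nat_lit 119712) (.g (nat_lit 1272) (.e (nat_lit 6637) (nat_lit 357) (.e (nat_lit 3098) (nat_lit 192) (.e (nat_lit 491540) (nat_lit 3) (.e (nat_lit 98372) (nat_lit 29) .nil)))) .nil)) 
(.lf (nat_lit 119776) (.g (nat_lit 2619) (.e (nat_lit 6680) (nat_lit 357) (.e (nat_lit 3067) (nat_lit 190) (.e (nat_lit 475185) (nat_lit 29) (.e (nat_lit 557097) (nat_lit 13) (.e (nat_lit 172097) (nat_lit 9) .nil))))) .nil)))) (.nd (nat_lit 5) (.nd (nat_lit 6) 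
(.lf (nat_lit 119696) (.g (nat_lit 3490) (.e (nat_lit 6625) (nat_lit 357) (.e (nat_lit 3062) (nat_lit 190) (.e (nat_lit 475185) (nat_lit 29) (.e (nat_lit 557109) (nat_lit 15) (.e (nat_lit 188447) (nat_lit 22) .nil))))) .nil)) 
(.lf (nat_lit 119760) (.g (nat_lit 2329) (.e (nat_lit 6676) (nat_lit 357) (.e (nat_lit 3066) (nat_lit 190) (.e (nat_lit 475184) (nat_lit 29) (.e (nat_lit 557109) (nat_lit 15) (.e (nat_lit 188458) (nat_lit 25) (.e (nat_lit 245784) (nat_lit 9) (.e (nat_lit 1023) (nat_lit 81) .nil))))))) (.g (nat_lit 5) .nil .nil)))) (.nd (nat_lit 6) 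
(.lf (nat_lit 119728) (.g (nat_lit 2410) (.e (nat_lit 6651) (nat_lit 357) (.e (nat_lit 2654) (nat_lit 167) (.e (nat_lit 196666) (nat_lit 13) (.e (nat_lit 65617) (nat_lit 10) (.e (nat_lit 344130) (nat_lit 26) .nil))))) .nil)) 
(.lf (nat_lit 119792) (.g (nat_lit 3296) (.e (nat_lit 6684) (nat_lit 357) (.e (nat_lit 2682) (nat_lit 168) (.e (nat_lit 204869) (nat_lit 29) (.e (nat_lit 360473) (nat_lit 8) (.e (nat_lit 557087) (nat_lit 11) .nil))))) .nil))))) (.nd (nat_lit 4) (.nd (nat_lit 5) (.nd (nat_lit 6) 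
(.lf (nat_lit 119688) (.g (nat_lit 1594) (.e (nat_lit 6619) (nat_lit 357) (.e (nat_lit 3104) (nat_lit 192) (.e (nat_lit 491537) (nat_lit 2) (.e (nat_lit 90177) (nat_lit 15) .nil)))) .nil)) 
(.lf (nat_lit 119752) (.g (nat_lit 541) (.e (nat_lit 6676) (nat_lit 357) (.e (nat_lit 2663) (nat_lit 167) (.e (nat_lit 196663) (nat_lit 13) .nil))) .nil))) (.nd (nat_lit 6) 
(.lf (nat_lit 119720) (.g (nat_lit 747) (.e (nat_lit 6643) (nat_lit 357) (.e (nat_lit 2856) (nat_lit 184) (.e (nat_lit 426533) (nat_lit 28) .nil))) .nil)) 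
(.lf (nat_lit 119784) (.g (nat_lit 2528) (.e (nat_lit 6681) (nat_lit 357) (.e (nat_lit 3067) (nat_lit 190) (.e (nat_lit 475185) (nat_lit 29) (.e (nat_lit 557100) (nat_lit 13) (.e (nat_lit 172106) (nat_lit 10) .nil))))) .nil)))) (.nd (nat_lit 5) (.nd (nat_lit 6) 
(.lf (nat_lit 119704) (.g (nat_lit 1536) (.e (nat_lit 6629) (nat_lit 357) (.e (nat_lit 351) (nat_lit 28) (.e (nat_lit 393275) (nat_lit 23) (.e (nat_lit 426125) (nat_lit 2) (.e (nat_lit 204544) (nat_lit 2) .nil))))) .nil)) 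
(.lf (nat_lit 119768) (.g (nat_lit 2980) (.e (nat_lit 6680) (nat_lit 357) (.e (nat_lit 2664) (nat_lit 167) (.e (nat_lit 196672) (nat_lit 15) (.e (nat_lit 81956) (nat_lit 23) (.e (nat_lit 98389) (nat_lit 33) .nil))))) .nil))) (.nd (nat_lit 6) 
(.lf (nat_lit 119736) (.g (nat_lit 2094) (.e (nat_lit 6661) (nat_lit 357) (.e (nat_lit 3067) (nat_lit 190) (.e (nat_lit 475185) (nat_lit 29) (.e (nat_lit 557109) (nat_lit 15) .nil)))) .nil)) 
(.lf (nat_lit 119800) (.g (nat_lit 2184) (.e (nat_lit 6693) (nat_lit 357) (.e (nat_lit 3055) (nat_lit 190) (.e (nat_lit 475185) (nat_lit 29) (.e (nat_lit 557098) (nat_lit 13) (.e (nat_lit 172115) (nat_lit 10) .nil))))) .nil)))))) (.nd (nat_lit 3) (.nd (nat_lit 4) (.nd (nat_lit 5) (.nd (nat_lit 6) 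
(.lf (nat_lit 119684) (.g (nat_lit 3480) (.e (nat_lit 6619) (nat_lit 357) (.e (nat_lit 2685) (nat_lit 168) (.e (nat_lit 204869) (nat_lit 29) (.e (nat_lit 360475) (nat_lit 8) (.e (nat_lit 557073) (nat_lit 9) (.e (nat_lit 290) (nat_lit 21) (.e (nat_lit 335892) (nat_lit 0) .nil))))))) (.g (nat_lit 6) .nil .nil))) 
(.lf (nat_lit 119748) (.g (nat_lit 2125) (.e (nat_lit 6670) (nat_lit 357) (.e (nat_lit 2663) (nat_lit 167) (.e (nat_lit 196666) (nat_lit 13) (.e (nat_lit 65617) (nat_lit 10) (.e (nat_lit 344133) (nat_lit 26) .nil))))) .nil))) (.nd (nat_lit 6) 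
(.lf (nat_lit 119716) (.g (nat_lit 2501) (.e (nat_lit 6639) (nat_lit 357) (.e (nat_lit 3069) (nat_lit 190) (.e (nat_lit 475185) (nat_lit 29) (.e (nat_lit 557101) (nat_lit 13) (.e (nat_lit 172115) (nat_lit 10) .nil))))) .nil)) 
(.lf (nat_lit 119780) (.g (nat_lit 1869) (.e (nat_lit 6681) (nat_lit 357) (.e (nat_lit 2664) (nat_lit 167) (.e (nat_lit 196674) (nat_lit 15) (.e (nat_lit 81946) (nat_lit 20) (.e (nat_lit 1841) (nat_lit 123) .nil))))) .nil)))) (.nd (nat_lit 5) (.nd (nat_lit 6) 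
(.lf (nat_lit 119700) (.g (nat_lit 3644) (.e (nat_lit 6627) (nat_lit 357) (.e (nat_lit 2672) (nat_lit 168) (.e (nat_lit 204869) (nat_lit 29) (.e (nat_lit 360475) (nat_lit 8) (.e (nat_lit 557087) (nat_lit 11) .nil))))) .nil)) 
(.lf (nat_lit 119764) (.g (nat_lit 350) (.e (nat_lit 6677) (nat_lit 357) (.e (nat_lit 3089) (nat_lit 191) (.e (nat_lit 491264) (nat_lit 27) .nil))) .nil))) (.nd (nat_lit 6) 
(.lf (nat_lit 119732) (.g (nat_lit 2164) (.e (nat_lit 6654) (nat_lit 357) (.e (nat_lit 2663) (nat_lit 167) (.e (nat_lit 196666) (nat_lit 13) (.e (nat_lit 65617) (nat_lit 10) (.e (nat_lit 344132) (nat_lit 26) .nil))))) .nil)) 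
(.lf (nat_lit 119796) (.g (nat_lit 1773) (.e (nat_lit 6684) (nat_lit 357) (.e (nat_lit 3067) (nat_lit 190) (.e (nat_lit 475185) (nat_lit 29) (.e (nat_lit 557101) (nat_lit 13) .nil)))) .nil))))) (.nd (nat_lit 4) (.nd (nat_lit 5) (.nd (nat_lit 6) 
(.lf (nat_lit 119692) (.g (nat_lit 2313) (.e (nat_lit 6624) (nat_lit 357) (.e (nat_lit 2654) (nat_lit 167) (.e (nat_lit 196666) (nat_lit 13) (.e (nat_lit 65617) (nat_lit 10) (.e (nat_lit 344133) (nat_lit 26) .nil))))) .nil)) 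
(.lf (nat_lit 119756) (.g (nat_lit 358) (.e (nat_lit 6676) (nat_lit 357) (.e (nat_lit 2857) (nat_lit 184) (.e (nat_lit 426533) (nat_lit 28) .nil))) .nil))) (.nd (nat_lit 6) 
(.lf (nat_lit 119724) (.g (nat_lit 1578) (.e (nat_lit 6648) (nat_lit 357) (.e (nat_lit 2856) (nat_lit 184) (.e (nat_lit 426533) (nat_lit 28) (.e (nat_lit 344069) (nat_lit 0) .nil)))) .nil)) 
(.lf (nat_lit 119788) (.g (nat_lit 2965) (.e (nat_lit 6684) (nat_lit 357) (.e (nat_lit 2664) (nat_lit 167) (.e (nat_lit 196666) (nat_lit 13) (.e (nat_lit 65617) (nat_lit 10) (.e (nat_lit 344130) (nat_lit 26) (.e (nat_lit 557067) (nat_lit 9) (.e (nat_lit 290) (nat_lit 21) (.e (nat_lit 335914) (nat_lit 0) .nil)))))))) (.g (nat_lit 6) .nil .nil))))) (.nd (nat_lit 5) (.nd (nat_lit 6) 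
(.lf (nat_lit 119708) (.g (nat_lit 2751) (.e (nat_lit 6637) (nat_lit 357) (.e (nat_lit 2668) (nat_lit 167) (.e (nat_lit 196666) (nat_lit 13) (.e (nat_lit 65617) (nat_lit 10) (.e (nat_lit 344132) (nat_lit 26) .nil))))) .nil)) 
(.lf (nat_lit 119772) (.g (nat_lit 426) (.e (nat_lit 6680) (nat_lit 357) (.e (nat_lit 2857) (nat_lit 184) (.e (nat_lit 426530) (nat_lit 27) .nil))) .nil))) (.nd (nat_lit 6) 
(.lf (nat_lit 119740) (.g (nat_lit 2407) (.e (nat_lit 6665) (nat_lit 357) (.e (nat_lit 2887) (nat_lit 184) (.e (nat_lit 426499) (nat_lit 27) (.e (nat_lit 336229) (nat_lit 14) (.e (nat_lit 401459) (nat_lit 13) .nil))))) .nil)) 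
(.lf (nat_lit 119804) (.g (nat_lit 2071) (.e (nat_lit 6696) (nat_lit 357) (.e (nat_lit 2663) (nat_lit 167) (.e (nat_lit 196666) (nat_lit 13) (.e (nat_lit 65617) (nat_lit 10) (.e (nat_lit 344130) (nat_lit 26) .nil))))) .nil))))))) (.nd (nat_lit 2) (.nd (nat_lit 3) (.nd (nat_lit 4) (.nd (nat_lit 5) (.nd (nat_lit 6) 
(.lf (nat_lit 119682) (.g (nat_lit 937) (.e (nat_lit 6619) (nat_lit 357) (.e (nat_lit 2677) (nat_lit 168) (.e (nat_lit 204869) (nat_lit 29) (.e (nat_lit 360475) (nat_lit 8) .nil)))) .nil)) 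
(.lf (nat_lit 119746) (.g (nat_lit 2071) (.e (nat_lit 6670) (nat_lit 357) (.e (nat_lit 2663) (nat_lit 167) (.e (nat_lit 196666) (nat_lit 13) (.e (nat_lit 65617) (nat_lit 10) (.e (nat_lit 344130) (nat_lit 26) .nil))))) .nil))) (.nd (nat_lit 6) 
(.lf (nat_lit 119714) (.g (nat_lit 2125) (.e (nat_lit 6638) (nat_lit 357) (.e (nat_lit 2663) (nat_lit 167) (.e (nat_lit 196666) (nat_lit 13) (.e (nat_lit 65617) (nat_lit 10) (.e (nat_lit 344133) (nat_lit 26) .nil))))) .nil)) 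
(.lf (nat_lit 119778) (.g (nat_lit 1001) (.e (nat_lit 6681) (nat_lit 357) (.e (nat_lit 2664) (nat_lit 167) (.e (nat_lit 196672) (nat_lit 15) (.e (nat_lit 81943) (nat_lit 20) .nil)))) .nil)))) (.nd (nat_lit 5) (.nd (nat_lit 6) 
(.lf (nat_lit 119698) (.g (nat_lit 2929) (.e (nat_lit 6626) (nat_lit 357) (.e (nat_lit 2887) (nat_lit 184) (.e (nat_lit 426412) (nat_lit 15) (.e (nat_lit 1856) (nat_lit 124) (.e (nat_lit 557098) (nat_lit 13) .nil))))) .nil)) 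
(.lf (nat_lit 119762) (.g (nat_lit 1417) (.e (nat_lit 6677) (nat_lit 357) (.e (nat_lit 2856) (nat_lit 184) (.e (nat_lit 426509) (nat_lit 27) (.e (nat_lit 336226) (nat_lit 14) .nil)))) .nil))) (.nd (nat_lit 6) 
(.lf (nat_lit 119730) (.g (nat_lit 2115) (.e (nat_lit 6651) (nat_lit 357) (.e (nat_lit 2856) (nat_lit 184) (.e (nat_lit 426530) (nat_lit 27) (.e (nat_lit 336235) (nat_lit 14) (.e (nat_lit 401459) (nat_lit 13) .nil))))) .nil)) 
(.lf (nat_lit 119794) (.g (nat_lit 2247) (.e (nat_lit 6684) (nat_lit 357) (.e (nat_lit 3066) (nat_lit 190) (.e (nat_lit 475185) (nat_lit 29) (.e (nat_lit 557101) (nat_lit 13) (.e (nat_lit 172115) (nat_lit 10) .nil))))) .nil))))) (.nd (nat_lit 4) (.nd (nat_lit 5) (.nd (nat_lit 6) 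
(.lf (nat_lit 119690) (.g (nat_lit 546) (.e (nat_lit 6620) (nat_lit 357) (.e (nat_lit 311) (nat_lit 23) (.e (nat_lit 352269) (nat_lit 7) (.e (nat_lit 245776) (nat_lit 4) (.e (nat_lit 172088) (nat_lit 9) .nil))))) .nil)) 
(.lf (nat_lit 119754) (.g (nat_lit 1796) (.e (nat_lit 6676) (nat_lit 357) (.e (nat_lit 2664) (nat_lit 167) (.e (nat_lit 196674) (nat_lit 15) (.e (nat_lit 81946) (nat_lit 20) (.e (nat_lit 1842) (nat_lit 123) .nil))))) .nil))) (.nd (nat_lit 6) 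
(.lf (nat_lit 119722) (.g (nat_lit 1224) (.e (nat_lit 6648) (nat_lit 357) (.e (nat_lit 2663) (nat_lit 167) (.e (nat_lit 196672) (nat_lit 15) (.e (nat_lit 81954) (nat_lit 23) .nil)))) .nil)) 
(.lf (nat_lit 119786) (.g (nat_lit 623) (.e (nat_lit 6681) (nat_lit 357) (.e (nat_lit 3090) (nat_lit 191) (.e (nat_lit 483399) (nat_lit 25) .nil))) .nil)))) (.nd (nat_lit 5) (.nd (nat_lit 6) 
(.lf (nat_lit 119706) (.g (nat_lit 2071) (.e (nat_lit 6636) (nat_lit 357) (.e (nat_lit 2663) (nat_lit 167) (.e (nat_lit 196666) (nat_lit 13) (.e (nat_lit 65617) (nat_lit 10) (.e (nat_lit 344130) (nat_lit 26) .nil))))) .nil)) 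
(.lf (nat_lit 119770) (.g (nat_lit 1785) (.e (nat_lit 6680) (nat_lit 357) (.e (nat_lit 2856) (nat_lit 184) (.e (nat_lit 426530) (nat_lit 27) (.e (nat_lit 336235) (nat_lit 14) (.e (nat_lit 401459) (nat_lit 13) .nil))))) .nil))) (.nd (nat_lit 6) 
(.lf (nat_lit 119738) (.g (nat_lit 3309) (.e (nat_lit 6665) (nat_lit 357) (.e (nat_lit 2675) (nat_lit 168) (.e (nat_lit 204869) (nat_lit 29) (.e (nat_lit 360475) (nat_lit 8) (.e (nat_lit 557086) (nat_lit 11) .nil))))) .nil)) 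
(.lf (nat_lit 119802) (.g (nat_lit 927) (.e (nat_lit 6696) (nat_lit 357) (.e (nat_lit 2610) (nat_lit 163) (.e (nat_lit 164163) (nat_lit 152) (.e (nat_lit 1221) (nat_lit 90) .nil)))) .nil)))))) (.nd (nat_lit 3) (.nd (nat_lit 4) (.nd (nat_lit 5) (.nd (nat_lit 6) 
(.lf (nat_lit 119686) (.g (nat_lit 1068) (.e (nat_lit 6619) (nat_lit 357) (.e (nat_lit 3098) (nat_lit 192) (.e (nat_lit 491535) (nat_lit 2) (.e (nat_lit 90176) (nat_lit 15) .nil)))) .nil)) 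
(.lf (nat_lit 119750) (.g (nat_lit 543) (.e (nat_lit 6672) (nat_lit 357) (.e (nat_lit 256) (nat_lit 21) (.e (nat_lit 336164) (nat_lit 10) (.e (nat_lit 344123) (nat_lit 24) (.e (nat_lit 540724) (nat_lit 28) .nil))))) .nil))) (.nd (nat_lit 6) 
(.lf (nat_lit 119718) (.g (nat_lit 2315) (.e (nat_lit 6642) (nat_lit 357) (.e (nat_lit 3067) (nat_lit 190) (.e (nat_lit 475185) (nat_lit 29) (.e (nat_lit 557101) (nat_lit 13) (.e (nat_lit 172115) (nat_lit 10) .nil))))) .nil)) 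
(.lf (nat_lit 119782) (.g (nat_lit 1792) (.e (nat_lit 6681) (nat_lit 357) (.e (nat_lit 2664) (nat_lit 167) (.e (nat_lit 196674) (nat_lit 15) (.e (nat_lit 81947) (nat_lit 20) (.e (nat_lit 1841) (nat_lit 123) .nil))))) .nil)))) (.nd (nat_lit 5) (.nd (nat_lit 6) 
(.lf (nat_lit 119702) (.g (nat_lit 554) (.e (nat_lit 6628) (nat_lit 357) (.e (nat_lit 351) (nat_lit 28) (.e (nat_lit 393275) (nat_lit 23) .nil))) .nil)) 
(.lf (nat_lit 119766) (.g (nat_lit 3218) (.e (nat_lit 6680) (nat_lit 357) (.e (nat_lit 2663) (nat_lit 167) (.e (nat_lit 196672) (nat_lit 15) (.e (nat_lit 81956) (nat_lit 23) (.e (nat_lit 98389) (nat_lit 33) .nil))))) .nil))) (.nd (nat_lit 6) 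
(.lf (nat_lit 119734) (.g (nat_lit 1183) (.e (nat_lit 6659) (nat_lit 357) (.e (nat_lit 2856) (nat_lit 184) (.e (nat_lit 426402) (nat_lit 15) (.e (nat_lit 1848) (nat_lit 124) .nil)))) .nil)) 
(.lf (nat_lit 119798) (.g (nat_lit 2094) (.e (nat_lit 6688) (nat_lit 357) (.e (nat_lit 3067) (nat_lit 190) (.e (nat_lit 475185) (nat_lit 29) (.e (nat_lit 557109) (nat_lit 15) .nil)))) .nil))))) (.nd (nat_lit 4) (.nd (nat_lit 5) (.nd (nat_lit 6) 
(.lf (nat_lit 119694) (.g (nat_lit 3400) (.e (nat_lit 6624) (nat_lit 357) (.e (nat_lit 2675) (nat_lit 168) (.e (nat_lit 204869) (nat_lit 29) (.e (nat_lit 360475) (nat_lit 8) (.e (nat_lit 557068) (nat_lit 9) .nil))))) .nil)) 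
(.lf (nat_lit 119758) (.g (nat_lit 2464) (.e (nat_lit 6676) (nat_lit 357) (.e (nat_lit 3055) (nat_lit 190) (.e (nat_lit 475185) (nat_lit 29) (.e (nat_lit 557107) (nat_lit 15) (.e (nat_lit 188450) (nat_lit 23) .nil))))) .nil))) (.nd (nat_lit 6) 
(.lf (nat_lit 119726) (.g (nat_lit 1635) (.e (nat_lit 6650) (nat_lit 357) (.e (nat_lit 2856) (nat_lit 184) (.e (nat_lit 426533) (nat_lit 28) (.e (nat_lit 344068) (nat_lit 0) .nil)))) .nil)) 
(.lf (nat_lit 119790) (.g (nat_lit 3039) (.e (nat_lit 6684) (nat_lit 357) (.e (nat_lit 2664) (nat_lit 167) (.e (nat_lit 196666) (nat_lit 13) (.e (nat_lit 65617) (nat_lit 10) (.e (nat_lit 344133) (nat_lit 26) (.e (nat_lit 557068) (nat_lit 9) (.e (nat_lit 290) (nat_lit 21) (.e (nat_lit 335914) (nat_lit 0) .nil)))))))) (.g (nat_lit 6) .nil .nil))))) (.nd (nat_lit 5) (.nd (nat_lit 6) 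
(.lf (nat_lit 119710) (.g (nat_lit 1688) (.e (nat_lit 6637) (nat_lit 357) (.e (nat_lit 3063) (nat_lit 190) (.e (nat_lit 475185) (nat_lit 29) (.e (nat_lit 557109) (nat_lit 15) .nil)))) .nil)) 
(.lf (nat_lit 119774) (.g (nat_lit 2492) (.e (nat_lit 6680) (nat_lit 357) (.e (nat_lit 3064) (nat_lit 190) (.e (nat_lit 475185) (nat_lit 29) (.e (nat_lit 557098) (nat_lit 13) (.e (nat_lit 172115) (nat_lit 10) .nil))))) .nil))) (.nd (nat_lit 6) 
(.lf (nat_lit 119742) (.g (nat_lit 1660) (.e (nat_lit 6666) (nat_lit 357) (.e (nat_lit 3067) (nat_lit 190) (.e (nat_lit 475185) (nat_lit 29) (.e (nat_lit 557108) (nat_lit 15) .nil)))) .nil)) 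
(.lf (nat_lit 119806) (.g (nat_lit 3805) (.e (nat_lit 6696) (nat_lit 357) (.e (nat_lit 2666) (nat_lit 167) (.e (nat_lit 196666) (nat_lit 13) (.e (nat_lit 65610) (nat_lit 10) (.e (nat_lit 344129) (nat_lit 26) (.e (nat_lit 557067) (nat_lit 9) (.e (nat_lit 290) (nat_lit 21) (.e (nat_lit 335894) (nat_lit 0) .nil)))))))) (.g (nat_lit 6) .nil .nil))))))))) 
(.nd (nat_lit 1) (.nd (nat_lit 2) (.nd (nat_lit 3) (.nd (nat_lit 4) (.nd (nat_lit 5) 
(.nd (nat_lit 6) 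
(.lf (nat_lit 119681) (.g (nat_lit 2175) (.e (nat_lit 6619) (nat_lit 357) (.e (nat_lit 2668) (nat_lit 167) (.e (nat_lit 196666) (nat_lit 13) (.e (nat_lit 65617) (nat_lit 10) (.e (nat_lit 344132) (nat_lit 26) .nil))))) .nil)) 
(.lf (nat_lit 119745) (.g (nat_lit 941) (.e (nat_lit 6667) (nat_lit 357) (.e (nat_lit 2857) (nat_lit 184) (.e (nat_lit 426509) (nat_lit 27) (.e (nat_lit 336228) (nat_lit 14) .nil)))) .nil))) (.nd (nat_lit 6) 
(.lf (nat_lit 119713) (.g (nat_lit 2164) (.e (nat_lit 6638) (nat_lit 357) (.e (nat_lit 2663) (nat_lit 167) (.e (nat_lit 196666) (nat_lit 13) (.e (nat_lit 65617) (nat_lit 10) (.e (nat_lit 344132) (nat_lit 26) .nil))))) .nil)) 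
(.lf (nat_lit 119777) (.g (nat_lit 3031) (.e (nat_lit 6680) (nat_lit 357) (.e (nat_lit 3067) (nat_lit 190) (.e (nat_lit 475185) (nat_lit 29) (.e (nat_lit 557098) (nat_lit 13) (.e (nat_lit 172106) (nat_lit 10) .nil))))) .nil)))) (.nd (nat_lit 5) (.nd (nat_lit 6) 
(.lf (nat_lit 119697) (.g (nat_lit 3204) (.e (nat_lit 6625) (nat_lit 357) (.e (nat_lit 3062) (nat_lit 190) (.e (nat_lit 475185) (nat_lit 29) (.e (nat_lit 557109) (nat_lit 15) (.e (nat_lit 188449) (nat_lit 22) .nil))))) .nil)) 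
(.lf (nat_lit 119761) (.g (nat_lit 2821) (.e (nat_lit 6676) (nat_lit 357) (.e (nat_lit 3067) (nat_lit 190) (.e (nat_lit 475185) (nat_lit 29) (.e (nat_lit 557097) (nat_lit 13) (.e (nat_lit 172097) (nat_lit 9) .nil))))) .nil))) (.nd (nat_lit 6) 
(.lf (nat_lit 119729) (.g (nat_lit 1448) (.e (nat_lit 6651) (nat_lit 357) (.e (nat_lit 2856) (nat_lit 184) (.e (nat_lit 426509) (nat_lit 27) (.e (nat_lit 336228) (nat_lit 14) .nil)))) .nil)) 
(.lf (nat_lit 119793) (.g (nat_lit 1142) (.e (nat_lit 6684) (nat_lit 357) (.e (nat_lit 2936) (nat_lit 184) (.e (nat_lit 426129) (nat_lit 3) (.e (nat_lit 204816) (nat_lit 17) (.e (nat_lit 6724) (nat_lit 362) .nil))))) .nil))))) (.nd (nat_lit 4) (.nd (nat_lit 5) (.nd (nat_lit 6) 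
(.lf (nat_lit 119689) (.g (nat_lit 1627) (.e (nat_lit 6620) (nat_lit 357) (.e (nat_lit 226) (nat_lit 21) (.e (nat_lit 336208) (nat_lit 12) (.e (nat_lit 392960) (nat_lit 24) .nil)))) .nil)) 
(.lf (nat_lit 119753) (.g (nat_lit 953) (.e (nat_lit 6676) (nat_lit 357) (.e (nat_lit 2664) (nat_lit 167) (.e (nat_lit 196672) (nat_lit 15) (.e (nat_lit 81943) (nat_lit 20) .nil)))) .nil))) (.nd (nat_lit 6) 
(.lf (nat_lit 119721) (.g (nat_lit 2974) (.e (nat_lit 6648) (nat_lit 357) (.e (nat_lit 2663) (nat_lit 167) (.e (nat_lit 196666) (nat_lit 13) (.e (nat_lit 65610) (nat_lit 10) (.e (nat_lit 344129) (nat_lit 26) .nil))))) .nil)) 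
(.lf (nat_lit 119785) (.g (nat_lit 1839) (.e (nat_lit 6681) (nat_lit 357) (.e (nat_lit 3067) (nat_lit 190) (.e (nat_lit 475185) (nat_lit 29) (.e (nat_lit 557107) (nat_lit 15) .nil)))) .nil)))) (.nd (nat_lit 5) (.nd (nat_lit 6) 
(.lf (nat_lit 119705) (.g (nat_lit 1542) (.e (nat_lit 6630) (nat_lit 357) (.e (nat_lit 351) (nat_lit 28) (.e (nat_lit 393275) (nat_lit 23) (.e (nat_lit 426125) (nat_lit 2) (.e (nat_lit 204544) (nat_lit 2) .nil))))) .nil)) 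
(.lf (nat_lit 119769) (.g (nat_lit 1182) (.e (nat_lit 6680) (nat_lit 357) (.e (nat_lit 2682) (nat_lit 168) (.e (nat_lit 204861) (nat_lit 26) (.e (nat_lit 336185) (nat_lit 11) .nil)))) .nil))) (.nd (nat_lit 6) 
(.lf (nat_lit 119737) (.g (nat_lit 1654) (.e (nat_lit 6664) (nat_lit 357) (.e (nat_lit 3062) (nat_lit 190) (.e (nat_lit 475183) (nat_lit 29) (.e (nat_lit 557109) (nat_lit 15) .nil)))) .nil)) 
(.lf (nat_lit 119801) (.g (nat_lit 2548) (.e (nat_lit 6693) (nat_lit 357) (.e (nat_lit 3064) (nat_lit 190) (.e (nat_lit 475185) (nat_lit 29) (.e (nat_lit 557098) (nat_lit 13) (.e (nat_lit 172115) (nat_lit 10) .nil))))) .nil)))))) (.nd (nat_lit 3) (.nd (nat_lit 4) (.nd (nat_lit 5) (.nd (nat_lit 6) 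
(.lf (nat_lit 119685) (.g (nat_lit 1346) (.e (nat_lit 6619) (nat_lit 357) (.e (nat_lit 3084) (nat_lit 191) (.e (nat_lit 483409) (nat_lit 27) (.e (nat_lit 401459) (nat_lit 13) (.e (nat_lit 483344) (nat_lit 17) .nil))))) .nil)) 
(.lf (nat_lit 119749) (.g (nat_lit 1368) (.e (nat_lit 6672) (nat_lit 357) (.e (nat_lit 256) (nat_lit 21) (.e (nat_lit 336099) (nat_lit 9) (.e (nat_lit 336013) (nat_lit 2) (.e (nat_lit 98048) (nat_lit 0) .nil))))) .nil))) (.nd (nat_lit 6) 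
(.lf (nat_lit 119717) (.g (nat_lit 1502) (.e (nat_lit 6639) (nat_lit 357) (.e (nat_lit 3070) (nat_lit 190) (.e (nat_lit 475185) (nat_lit 29) (.e (nat_lit 557107) (nat_lit 15) (.e (nat_lit 188450) (nat_lit 23) .nil))))) .nil)) 
(.lf (nat_lit 119781) (.g (nat_lit 1821) (.e (nat_lit 6681) (nat_lit 357) (.e (nat_lit 2664) (nat_lit 167) (.e (nat_lit 196674) (nat_lit 15) (.e (nat_lit 81946) (nat_lit 20) (.e (nat_lit 1842) (nat_lit 123) .nil))))) .nil)))) (.nd (nat_lit 5) (.nd (nat_lit 6) 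
(.lf (nat_lit 119701) (.g (nat_lit 1310) (.e (nat_lit 6628) (nat_lit 357) (.e (nat_lit 232) (nat_lit 21) (.e (nat_lit 336060) (nat_lit 7) (.e (nat_lit 319504) (nat_lit 10) .nil)))) .nil)) 
(.lf (nat_lit 119765) (.g (nat_lit 1750) (.e (nat_lit 6680) (nat_lit 357) (.e (nat_lit 2663) (nat_lit 167) (.e (nat_lit 196666) (nat_lit 13) (.e (nat_lit 65619) (nat_lit 10) .nil)))) .nil))) (.nd (nat_lit 6) 
(.lf (nat_lit 119733) (.g (nat_lit 3371) (.e (nat_lit 6659) (nat_lit 357) (.e (nat_lit 2663) (nat_lit 167) (.e (nat_lit 196666) (nat_lit 13) (.e (nat_lit 65610) (nat_lit 10) (.e (nat_lit 344117) (nat_lit 21) .nil))))) .nil)) 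
(.lf (nat_lit 119797) (.g (nat_lit 2333) (.e (nat_lit 6684) (nat_lit 357) (.e (nat_lit 3067) (nat_lit 190) (.e (nat_lit 475185) (nat_lit 29) (.e (nat_lit 557107) (nat_lit 15) .nil)))) .nil))))) (.nd (nat_lit 4) (.nd (nat_lit 5) (.nd (nat_lit 6) 
(.lf (nat_lit 119693) (.g (nat_lit 1378) (.e (nat_lit 6624) (nat_lit 357) (.e (nat_lit 2675) (nat_lit 168) (.e (nat_lit 204868) (nat_lit 29) (.e (nat_lit 360473) (nat_lit 8) (.e (nat_lit 557085) (nat_lit 11) .nil))))) .nil)) 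
(.lf (nat_lit 119757) (.g (nat_lit 1093) (.e (nat_lit 6676) (nat_lit 357) (.e (nat_lit 2857) (nat_lit 184) (.e (nat_lit 426533) (nat_lit 28) (.e (nat_lit 344068) (nat_lit 0) .nil)))) .nil))) (.nd (nat_lit 6) 
(.lf (nat_lit 119725) (.g (nat_lit 1415) (.e (nat_lit 6650) (nat_lit 357) (.e (nat_lit 2856) (nat_lit 184) (.e (nat_lit 426509) (nat_lit 27) (.e (nat_lit 336228) (nat_lit 14) .nil)))) .nil)) 
(.lf (nat_lit 119789) (.g (nat_lit 2552) (.e (nat_lit 6684) (nat_lit 357) (.e (nat_lit 2664) (nat_lit 167) (.e (nat_lit 196666) (nat_lit 13) (.e (nat_lit 65617) (nat_lit 10) (.e (nat_lit 344133) (nat_lit 26) (.e (nat_lit 557068) (nat_lit 9) (.e (nat_lit 290) (nat_lit 21) (.e (nat_lit 335913) (nat_lit 0) .nil)))))))) (.g (nat_lit 5) .nil .nil))))) (.nd (nat_lit 5) (.nd (nat_lit 6) 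
(.lf (nat_lit 119709) (.g (nat_lit 2669) (.e (nat_lit 6637) (nat_lit 357) (.e (nat_lit 2668) (nat_lit 167) (.e (nat_lit 196666) (nat_lit 13) (.e (nat_lit 65617) (nat_lit 10) (.e (nat_lit 344133) (nat_lit 26) .nil))))) .nil)) 
(.lf (nat_lit 119773) (.g (nat_lit 211) (.e (nat_lit 6680) (nat_lit 357) (.e (nat_lit 2857) (nat_lit 184) (.e (nat_lit 426533) (nat_lit 28) .nil))) .nil))) (.nd (nat_lit 6) 
(.lf (nat_lit 119741) (.g (nat_lit 2326) (.e (nat_lit 6666) (nat_lit 357) (.e (nat_lit 3067) (nat_lit 190) (.e (nat_lit 475185) (nat_lit 29) (.e (nat_lit 557107) (nat_lit 15) .nil)))) .nil)) 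
(.lf (nat_lit 119805) (.g (nat_lit 2900) (.e (nat_lit 6696) (nat_lit 357) (.e (nat_lit 2663) (nat_lit 167) (.e (nat_lit 196666) (nat_lit 13) (.e (nat_lit 65617) (nat_lit 10) (.e (nat_lit 344130) (nat_lit 26) (.e (nat_lit 557067) (nat_lit 9) (.e (nat_lit 290) (nat_lit 21) (.e (nat_lit 335895) (nat_lit 0) .nil)))))))) (.g (nat_lit 5) .nil .nil)))))))) 
(.nd (nat_lit 2) (.nd (nat_lit 3) (.nd (nat_lit 4) (.nd (nat_lit 5) (.nd (nat_lit 6) 
(.lf (nat_lit 119683) (.g (nat_lit 1293) (.e (nat_lit 6619) (nat_lit 357) (.e (nat_lit 2685) (nat_lit 168) (.e (nat_lit 204869) (nat_lit 29) (.e (nat_lit 360473) (nat_lit 8) .nil)))) .nil)) 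
(.lf (nat_lit 119747) (.g (nat_lit 2164) (.e (nat_lit 6670) (nat_lit 357) (.e (nat_lit 2663) (nat_lit 167) (.e (nat_lit 196666) (nat_lit 13) (.e (nat_lit 65617) (nat_lit 10) (.e (nat_lit 344132) (nat_lit 26) .nil))))) .nil))) (.nd (nat_lit 6) 
(.lf (nat_lit 119715) (.g (nat_lit 4090) (.e (nat_lit 6638) (nat_lit 357) (.e (nat_lit 2681) (nat_lit 168) (.e (nat_lit 204869) (nat_lit 29) (.e (nat_lit 360475) (nat_lit 8) (.e (nat_lit 557086) (nat_lit 11) .nil))))) .nil)) 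
(.lf (nat_lit 119779) (.g (nat_lit 1274) (.e (nat_lit 6681) (nat_lit 357) (.e (nat_lit 2664) (nat_lit 167) (.e (nat_lit 196672) (nat_lit 15) (.e (nat_lit 81943) (nat_lit 20) (.e (nat_lit 1841) (nat_lit 123) .nil))))) .nil)))) (.nd (nat_lit 5) (.nd (nat_lit 6) 
(.lf (nat_lit 119699) (.g (nat_lit 554) (.e (nat_lit 6627) (nat_lit 357) (.e (nat_lit 351) (nat_lit 28) (.e (nat_lit 393275) (nat_lit 23) .nil))) .nil)) 
(.lf (nat_lit 119763) (.g (nat_lit 2257) (.e (nat_lit 6677) (nat_lit 357) (.e (nat_lit 2856) (nat_lit 184) (.e (nat_lit 426530) (nat_lit 27) (.e (nat_lit 336235) (nat_lit 14) (.e (nat_lit 401458) (nat_lit 13) .nil))))) .nil))) (.nd (nat_lit 6) 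
(.lf (nat_lit 119731) (.g (nat_lit 797) (.e (nat_lit 6652) (nat_lit 357) (.e (nat_lit 2856) (nat_lit 184) (.e (nat_lit 426533) (nat_lit 28) .nil))) .nil)) 
(.lf (nat_lit 119795) (.g (nat_lit 2012) (.e (nat_lit 6684) (nat_lit 357) (.e (nat_lit 3066) (nat_lit 190) (.e (nat_lit 475185) (nat_lit 29) (.e (nat_lit 557107) (nat_lit 15) (.e (nat_lit 188450) (nat_lit 23) .nil))))) .nil))))) (.nd (nat_lit 4) (.nd (nat_lit 5) (.nd (nat_lit 6) 
(.lf (nat_lit 119691) (.g (nat_lit 2428) (.e (nat_lit 6624) (nat_lit 357) (.e (nat_lit 2654) (nat_lit 167) (.e (nat_lit 196666) (nat_lit 13) (.e (nat_lit 65617) (nat_lit 10) (.e (nat_lit 344130) (nat_lit 26) .nil))))) .nil)) 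
(.lf (nat_lit 119755) (.g (nat_lit 1890) (.e (nat_lit 6676) (nat_lit 357) (.e (nat_lit 2856) (nat_lit 184) (.e (nat_lit 426354) (nat_lit 15) (.e (nat_lit 2031) (nat_lit 140) (.e (nat_lit 688177) (nat_lit 16) .nil))))) .nil))) (.nd (nat_lit 6) 
(.lf (nat_lit 119723) (.g (nat_lit 809) (.e (nat_lit 6648) (nat_lit 357) (.e (nat_lit 2856) (nat_lit 184) (.e (nat_lit 426533) (nat_lit 28) .nil))) .nil)) 
(.lf (nat_lit 119787) (.g (nat_lit 2071) (.e (nat_lit 6684) (nat_lit 357) (.e (nat_lit 2663) (nat_lit 167) (.e (nat_lit 196666) (nat_lit 13) (.e (nat_lit 65617) (nat_lit 10) (.e (nat_lit 344130) (nat_lit 26) .nil))))) .nil)))) (.nd (nat_lit 5) (.nd (nat_lit 6) 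
(.lf (nat_lit 119707) (.g (nat_lit 2675) (.e (nat_lit 6637) (nat_lit 357) (.e (nat_lit 2668) (nat_lit 167) (.e (nat_lit 196666) (nat_lit 13) (.e (nat_lit 65617) (nat_lit 10) (.e (nat_lit 344130) (nat_lit 26) .nil))))) .nil)) 
(.lf (nat_lit 119771) (.g (nat_lit 1156) (.e (nat_lit 6680) (nat_lit 357) (.e (nat_lit 2857) (nat_lit 184) (.e (nat_lit 426482) (nat_lit 27) (.e (nat_lit 336226) (nat_lit 14) .nil)))) .nil))) (.nd (nat_lit 6) 
(.lf (nat_lit 119739) (.g (nat_lit 3605) (.e (nat_lit 6665) (nat_lit 357) (.e (nat_lit 2679) (nat_lit 168) (.e (nat_lit 204869) (nat_lit 29) (.e (nat_lit 360475) (nat_lit 8) (.e (nat_lit 557085) (nat_lit 11) .nil))))) .nil)) 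
(.lf (nat_lit 119803) (.g (nat_lit 1335) (.e (nat_lit 6696) (nat_lit 357) (.e (nat_lit 2663) (nat_lit 167) (.e (nat_lit 196666) (nat_lit 13) (.e (nat_lit 65617) (nat_lit 10) .nil)))) .nil)))))) (.nd (nat_lit 3) (.nd (nat_lit 4) (.nd (nat_lit 5) (.nd (nat_lit 6) 
(.lf (nat_lit 119687) (.g (nat_lit 3023) (.e (nat_lit 6619) (nat_lit 357) (.e (nat_lit 3098) (nat_lit 192) (.e (nat_lit 491537) (nat_lit 2) (.e (nat_lit 90185) (nat_lit 17) (.e (nat_lit 237605) (nat_lit 9) .nil))))) .nil)) 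
(.lf (nat_lit 119751) (.g (nat_lit 965) (.e (nat_lit 6672) (nat_lit 357) (.e (nat_lit 256) (nat_lit 21) (.e (nat_lit 336173) (nat_lit 10) (.e (nat_lit 344123) (nat_lit 24) .nil)))) .nil))) (.nd (nat_lit 6) 
(.lf (nat_lit 119719) (.g (nat_lit 2164) (.e (nat_lit 6643) (nat_lit 357) (.e (nat_lit 2663) (nat_lit 167) (.e (nat_lit 196666) (nat_lit 13) (.e (nat_lit 65617) (nat_lit 10) (.e (nat_lit 344132) (nat_lit 26) .nil))))) .nil)) 
(.lf (nat_lit 119783) (.g (nat_lit 1654) (.e (nat_lit 6681) (nat_lit 357) (.e (nat_lit 3067) (nat_lit 190) (.e (nat_lit 475183) (nat_lit 29) (.e (nat_lit 557107) (nat_lit 15) (.e (nat_lit 188450) (nat_lit 23) .nil))))) .nil)))) (.nd (nat_lit 5) (.nd (nat_lit 6) 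
(.lf (nat_lit 119703) (.g (nat_lit 257) (.e (nat_lit 6629) (nat_lit 357) (.e (nat_lit 100) (nat_lit 2) (.e (nat_lit 90174) (nat_lit 14) .nil))) .nil)) 
(.lf (nat_lit 119767) (.g (nat_lit 2048) (.e (nat_lit 6680) (nat_lit 357) (.e (nat_lit 2664) (nat_lit 167) (.e (nat_lit 196666) (nat_lit 13) (.e (nat_lit 65610) (nat_lit 10) (.e (nat_lit 344117) (nat_lit 21) .nil))))) .nil))) (.nd (nat_lit 6) 
(.lf (nat_lit 119735) (.g (nat_lit 473) (.e (nat_lit 6659) (nat_lit 357) (.e (nat_lit 3067) (nat_lit 190) (.e (nat_lit 475185) (nat_lit 29) .nil))) .nil)) 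
(.lf (nat_lit 119799) (.g (nat_lit 1604) (.e (nat_lit 6692) (nat_lit 357) (.e (nat_lit 2663) (nat_lit 167) (.e (nat_lit 196666) (nat_lit 13) (.e (nat_lit 65628) (nat_lit 14) .nil)))) .nil))))) (.nd (nat_lit 4) (.nd (nat_lit 5) (.nd (nat_lit 6) 
(.lf (nat_lit 119695) (.g (nat_lit 2476) (.e (nat_lit 6625) (nat_lit 357) (.e (nat_lit 3062) (nat_lit 190) (.e (nat_lit 475185) (nat_lit 29) (.e (nat_lit 557107) (nat_lit 15) .nil)))) .nil)) 
(.lf (nat_lit 119759) (.g (nat_lit 3197) (.e (nat_lit 6676) (nat_lit 357) (.e (nat_lit 3064) (nat_lit 190) (.e (nat_lit 475185) (nat_lit 29) (.e (nat_lit 557098) (nat_lit 13) (.e (nat_lit 172097) (nat_lit 9) .nil))))) .nil))) (.nd (nat_lit 6) 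
(.lf (nat_lit 119727) (.g (nat_lit 1562) (.e (nat_lit 6650) (nat_lit 357) (.e (nat_lit 2856) (nat_lit 184) (.e (nat_lit 426533) (nat_lit 28) (.e (nat_lit 344069) (nat_lit 0) .nil)))) .nil)) 
(.lf (nat_lit 119791) (.g (nat_lit 2105) (.e (nat_lit 6684) (nat_lit 357) (.e (nat_lit 2664) (nat_lit 167) (.e (nat_lit 196666) (nat_lit 13) (.e (nat_lit 65624) (nat_lit 12) (.e (nat_lit 385074) (nat_lit 31) .nil))))) .nil)))) (.nd (nat_lit 5) (.nd (nat_lit 6) 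
(.lf (nat_lit 119711) (.g (nat_lit 2369) (.e (nat_lit 6637) (nat_lit 357) (.e (nat_lit 3098) (nat_lit 192) (.e (nat_lit 491540) (nat_lit 3) (.e (nat_lit 98370) (nat_lit 28) (.e (nat_lit 442424) (nat_lit 22) .nil))))) .nil)) 
(.lf (nat_lit 119775) (.g (nat_lit 2613) (.e (nat_lit 6680) (nat_lit 357) (.e (nat_lit 3065) (nat_lit 190) (.e (nat_lit 475185) (nat_lit 29) (.e (nat_lit 557098) (nat_lit 13) (.e (nat_lit 172115) (nat_lit 10) .nil))))) .nil))) (.nd (nat_lit 6) 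
(.lf (nat_lit 119743) (.g (nat_lit 1172) (.e (nat_lit 6666) (nat_lit 357) (.e (nat_lit 3067) (nat_lit 190) (.e (nat_lit 475185) (nat_lit 29) (.e (nat_lit 557109) (nat_lit 15) .nil)))) .nil)) 
(.lf (nat_lit 119807) (.g (nat_lit 3329) (.e (nat_lit 6696) (nat_lit 357) (.e (nat_lit 2666) (nat_lit 167) (.e (nat_lit 196666) (nat_lit 13) (.e (nat_lit 65617) (nat_lit 10) (.e (nat_lit 344130) (nat_lit 26) .nil))))) .nil)))))))))

noncomputable def tv1597 : DT := (.nd (nat_lit 0) (.nd (nat_lit 1) (.nd (nat_lit 2) (.nd (nat_lit 3) (.nd (nat_lit 4) (.nd (nat_lit 5) (.nd (nat_lit 6) 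
(.lf (nat_lit 119808) (.g (nat_lit 3305) (.e (nat_lit 6696) (nat_lit 357) (.e (nat_lit 2666) (nat_lit 167) (.e (nat_lit 196666) (nat_lit 13) (.e (nat_lit 65617) (nat_lit 10) (.e (nat_lit 344132) (nat_lit 26) .nil))))) .nil)) 
(.lf (nat_lit 119872) (.g (nat_lit 1839) (.e (nat_lit 6707) (nat_lit 359) (.e (nat_lit 24665) (nat_lit 14) (.e (nat_lit 409344) (nat_lit 17) (.e (nat_lit 90185) (nat_lit 17) (.e (nat_lit 237605) (nat_lit 9) (.e (nat_lit 426352) (nat_lit 15) .nil)))))) (.g (nat_lit 4) .nil .nil)))) (.nd (nat_lit 6) 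
(.lf (nat_lit 119840) (.g (nat_lit 931) (.e (nat_lit 7936) (nat_lit 357) (.e (nat_lit 3071) (nat_lit 190) (.e (nat_lit 475185) (nat_lit 29) (.e (nat_lit 557107) (nat_lit 15) .nil)))) .nil)) 
(.lf (nat_lit 119904) (.g (nat_lit 1757) (.e (nat_lit 6712) (nat_lit 360) (.e (nat_lit 163962) (nat_lit 25) (.e (nat_lit 532535) (nat_lit 9) (.e (nat_lit 336176) (nat_lit 10) (.e (nat_lit 344127) (nat_lit 26) .nil))))) .nil)))) (.nd (nat_lit 5) (.nd (nat_lit 6) 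
(.lf (nat_lit 119824) (.g (nat_lit 2656) (.e (nat_lit 7936) (nat_lit 357) (.e (nat_lit 3058) (nat_lit 190) (.e (nat_lit 475185) (nat_lit 29) (.e (nat_lit 557107) (nat_lit 15) (.e (nat_lit 188450) (nat_lit 23) .nil))))) .nil)) 
(.lf (nat_lit 119888) (.g (nat_lit 252) (.e (nat_lit 7936) (nat_lit 359) (.e (nat_lit 24650) (nat_lit 12) (.e (nat_lit 392960) (nat_lit 24) .nil))) .nil))) (.nd (nat_lit 6) 
(.lf (nat_lit 119856) (.g (nat_lit 1386) (.e (nat_lit 6705) (nat_lit 359) (.e (nat_lit 24665) (nat_lit 14) (.e (nat_lit 409344) (nat_lit 18) .nil))) .nil)) 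
(.lf (nat_lit 119920) (.g (nat_lit 4297) (.e (nat_lit 6712) (nat_lit 360) (.e (nat_lit 163962) (nat_lit 25) (.e (nat_lit 532549) (nat_lit 12) (.e (nat_lit 360475) (nat_lit 8) (.e (nat_lit 557087) (nat_lit 11) (.e (nat_lit 24580) (nat_lit 0) .nil)))))) (.g (nat_lit 0) .nil .nil)))))) (.nd (nat_lit 4) (.nd (nat_lit 5) (.nd (nat_lit 6) 
(.lf (nat_lit 119816) (.g (nat_lit 2148) (.e (nat_lit 7936) (nat_lit 357) (.e (nat_lit 2685) (nat_lit 168) (.e (nat_lit 204869) (nat_lit 29) (.e (nat_lit 360475) (nat_lit 8) (.e (nat_lit 557086) (nat_lit 11) .nil))))) .nil)) 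
(.lf (nat_lit 119880) (.g (nat_lit 2561) (.e (nat_lit 6708) (nat_lit 359) (.e (nat_lit 24617) (nat_lit 7) (.e (nat_lit 319505) (nat_lit 10) (.e (nat_lit 618) (nat_lit 48) (.e (nat_lit 557107) (nat_lit 15) .nil))))) .nil))) (.nd (nat_lit 6) 
(.lf (nat_lit 119848) (.g (nat_lit 3662) (.e (nat_lit 6700) (nat_lit 358) (.e (nat_lit 8375) (nat_lit 96) (.e (nat_lit 778319) (nat_lit 4) (.e (nat_lit 65630) (nat_lit 14) (.e (nat_lit 401459) (nat_lit 13) (.e (nat_lit 483344) (nat_lit 17) .nil)))))) (.g (nat_lit 0) .nil .nil))) 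
(.lf (nat_lit 119912) (.g (nat_lit 2545) (.e (nat_lit 6712) (nat_lit 360) (.e (nat_lit 163962) (nat_lit 25) (.e (nat_lit 532535) (nat_lit 9) (.e (nat_lit 336176) (nat_lit 10) (.e (nat_lit 344133) (nat_lit 26) (.e (nat_lit 557086) (nat_lit 11) (.e (nat_lit 24578) (nat_lit 0) .nil))))))) (.g (nat_lit 5) .nil .nil))))) (.nd (nat_lit 5) (.nd (nat_lit 6) 
(.lf (nat_lit 119832) (.g (nat_lit 2480) (.e (nat_lit 7936) (nat_lit 357) (.e (nat_lit 3063) (nat_lit 190) (.e (nat_lit 475185) (nat_lit 29) (.e (nat_lit 557107) (nat_lit 15) (.e (nat_lit 188450) (nat_lit 23) .nil))))) .nil)) 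
(.lf (nat_lit 119896) (.g (nat_lit 1021) (.e (nat_lit 7936) (nat_lit 359) (.e (nat_lit 24665) (nat_lit 14) (.e (nat_lit 409344) (nat_lit 18) (.e (nat_lit 98370) (nat_lit 28) (.e (nat_lit 442369) (nat_lit 0) .nil))))) .nil))) (.nd (nat_lit 6) 
(.lf (nat_lit 119864) (.g (nat_lit 432) (.e (nat_lit 6707) (nat_lit 359) (.e (nat_lit 24617) (nat_lit 7) (.e (nat_lit 319504) (nat_lit 10) .nil))) .nil)) 
(.lf (nat_lit 119928) (.g (nat_lit 829) (.e (nat_lit 6713) (nat_lit 360) (.e (nat_lit 163843) (nat_lit 0) (.e (nat_lit 6420) (nat_lit 341) (.e (nat_lit 163902) (nat_lit 12) .nil)))) .nil)))))) (.nd (nat_lit 3) (.nd (nat_lit 4) (.nd (nat_lit 5) (.nd (nat_lit 6) 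
(.lf (nat_lit 119812) (.g (nat_lit 1320) (.e (nat_lit 7936) (nat_lit 357) (.e (nat_lit 2682) (nat_lit 168) (.e (nat_lit 204868) (nat_lit 29) (.e (nat_lit 360473) (nat_lit 8) (.e (nat_lit 557087) (nat_lit 11) .nil))))) .nil)) 
(.lf (nat_lit 119876) (.g (nat_lit 1687) (.e (nat_lit 6707) (nat_lit 359) (.e (nat_lit 24665) (nat_lit 14) (.e (nat_lit 409344) (nat_lit 18) (.e (nat_lit 98369) (nat_lit 28) (.e (nat_lit 442368) (nat_lit 0) .nil))))) .nil))) (.nd (nat_lit 6) 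
(.lf (nat_lit 119844) (.g (nat_lit 216) (.e (nat_lit 7936) (nat_lit 357) (.e (nat_lit 3088) (nat_lit 191) (.e (nat_lit 491264) (nat_lit 27) .nil))) .nil)) 
(.lf (nat_lit 119908) (.g (nat_lit 4435) (.e (nat_lit 6712) (nat_lit 360) (.e (nat_lit 163962) (nat_lit 25) (.e (nat_lit 532535) (nat_lit 9) (.e (nat_lit 336176) (nat_lit 10) (.e (nat_lit 344130) (nat_lit 26) (.e (nat_lit 557085) (nat_lit 11) (.e (nat_lit 24580) (nat_lit 0) .nil))))))) (.g (nat_lit 7) .nil .nil))))) (.nd (nat_lit 5) (.nd (nat_lit 6) 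
(.lf (nat_lit 119828) (.g (nat_lit 2513) (.e (nat_lit 7936) (nat_lit 357) (.e (nat_lit 3061) (nat_lit 190) (.e (nat_lit 475185) (nat_lit 29) (.e (nat_lit 557100) (nat_lit 13) (.e (nat_lit 172106) (nat_lit 10) .nil))))) .nil)) 
(.lf (nat_lit 119892) (.g (nat_lit 484) (.e (nat_lit 7936) (nat_lit 359) (.e (nat_lit 24651) (nat_lit 12) (.e (nat_lit 392960) (nat_lit 24) .nil))) .nil))) (.nd (nat_lit 6) 
(.lf (nat_lit 119860) (.g (nat_lit 1260) (.e (nat_lit 6706) (nat_lit 359) (.e (nat_lit 24665) (nat_lit 14) (.e (nat_lit 401414) (nat_lit 0) .nil))) .nil)) 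
(.lf (nat_lit 119924) (.g (nat_lit 2607) (.e (nat_lit 6712) (nat_lit 360) (.e (nat_lit 163978) (nat_lit 30) (.e (nat_lit 573484) (nat_lit 13) (.e (nat_lit 65563) (nat_lit 1) (.e (nat_lit 57931) (nat_lit 282) .nil))))) .nil))))) (.nd (nat_lit 4) (.nd (nat_lit 5) (.nd (nat_lit 6) 
(.lf (nat_lit 119820) (.g (nat_lit 2096) (.e (nat_lit 7936) (nat_lit 357) (.e (nat_lit 2887) (nat_lit 184) (.e (nat_lit 426499) (nat_lit 27) (.e (nat_lit 336231) (nat_lit 14) (.e (nat_lit 401458) (nat_lit 13) .nil))))) .nil)) 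
(.lf (nat_lit 119884) (.g (nat_lit 1396) (.e (nat_lit 6708) (nat_lit 359) (.e (nat_lit 24665) (nat_lit 14) (.e (nat_lit 409344) (nat_lit 17) (.e (nat_lit 90176) (nat_lit 15) (.e (nat_lit 196352) (nat_lit 0) .nil))))) .nil))) (.nd (nat_lit 6) 
(.lf (nat_lit 119852) (.g (nat_lit 2306) (.e (nat_lit 6705) (nat_lit 359) (.e (nat_lit 24617) (nat_lit 7) (.e (nat_lit 319505) (nat_lit 10) (.e (nat_lit 618) (nat_lit 48) (.e (nat_lit 557109) (nat_lit 15) (.e (nat_lit 196352) (nat_lit 0) .nil)))))) (.g (nat_lit 4) .nil .nil))) 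
(.lf (nat_lit 119916) (.g (nat_lit 3205) (.e (nat_lit 6712) (nat_lit 360) (.e (nat_lit 163962) (nat_lit 25) (.e (nat_lit 532549) (nat_lit 12) (.e (nat_lit 360475) (nat_lit 8) (.e (nat_lit 557068) (nat_lit 9) (.e (nat_lit 290) (nat_lit 21) (.e (nat_lit 335893) (nat_lit 0) .nil))))))) (.g (nat_lit 5) .nil .nil))))) (.nd (nat_lit 5) (.nd (nat_lit 6) 
(.lf (nat_lit 119836) (.g (nat_lit 2562) (.e (nat_lit 7936) (nat_lit 357) (.e (nat_lit 3068) (nat_lit 190) (.e (nat_lit 475185) (nat_lit 29) (.e (nat_lit 557107) (nat_lit 15) (.e (nat_lit 188450) (nat_lit 23) .nil))))) .nil)) 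
(.lf (nat_lit 119900) (.g (nat_lit 3617) (.e (nat_lit 6709) (nat_lit 360) (.e (nat_lit 164237) (nat_lit 187) (.e (nat_lit 1077) (nat_lit 81) (.e (nat_lit 1796) (nat_lit 119) (.e (nat_lit 516163) (nat_lit 11) (.e (nat_lit 442424) (nat_lit 22) (.e (nat_lit 196628) (nat_lit 9) (.e (nat_lit 968) (nat_lit 81) .nil)))))))) (.g (nat_lit 8) .nil .nil)))) (.nd (nat_lit 6) 
(.lf (nat_lit 119868) (.g (nat_lit 1223) (.e (nat_lit 6707) (nat_lit 359) (.e (nat_lit 24665) (nat_lit 14) (.e (nat_lit 409344) (nat_lit 17) .nil))) .nil)) 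
(.lf (nat_lit 119932) (.g (nat_lit 1432) (.e (nat_lit 6713) (nat_lit 360) (.e (nat_lit 164238) (nat_lit 187) (.e (nat_lit 1252) (nat_lit 92) (.e (nat_lit 98381) (nat_lit 31) (.e (nat_lit 466976) (nat_lit 22) .nil))))) .nil))))))) (.nd (nat_lit 2) (.nd (nat_lit 3) (.nd (nat_lit 4) (.nd (nat_lit 5) (.nd (nat_lit 6) 
(.lf (nat_lit 119810) (.g (nat_lit 1656) (.e (nat_lit 6696) (nat_lit 357) (.e (nat_lit 2667) (nat_lit 167) (.e (nat_lit 196666) (nat_lit 13) (.e (nat_lit 65617) (nat_lit 10) .nil)))) .nil)) 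
(.lf (nat_lit 119874) (.g (nat_lit 2021) (.e (nat_lit 6707) (nat_lit 359) (.e (nat_lit 24665) (nat_lit 14) (.e (nat_lit 409344) (nat_lit 18) (.e (nat_lit 98358) (nat_lit 26) (.e (nat_lit 426227) (nat_lit 9) (.e (nat_lit 426368) (nat_lit 15) .nil)))))) (.g (nat_lit 5) .nil .nil)))) (.nd (nat_lit 6) 
(.lf (nat_lit 119842) (.g (nat_lit 2718) (.e (nat_lit 7936) (nat_lit 357) (.e (nat_lit 3072) (nat_lit 190) (.e (nat_lit 475185) (nat_lit 29) (.e (nat_lit 557107) (nat_lit 15) (.e (nat_lit 188450) (nat_lit 23) .nil))))) .nil)) 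
(.lf (nat_lit 119906) (.g (nat_lit 2501) (.e (nat_lit 6712) (nat_lit 360) (.e (nat_lit 163962) (nat_lit 25) (.e (nat_lit 532535) (nat_lit 9) (.e (nat_lit 336176) (nat_lit 10) (.e (nat_lit 344130) (nat_lit 26) (.e (nat_lit 557074) (nat_lit 9) (.e (nat_lit 284) (nat_lit 21) (.e (nat_lit 335893) (nat_lit 0) .nil)))))))) (.g (nat_lit 5) .nil .nil))))) (.nd (nat_lit 5) (.nd (nat_lit 6) 
(.lf (nat_lit 119826) (.g (nat_lit 2689) (.e (nat_lit 7936) (nat_lit 357) (.e (nat_lit 3059) (nat_lit 190) (.e (nat_lit 475185) (nat_lit 29) (.e (nat_lit 557107) (nat_lit 15) (.e (nat_lit 188450) (nat_lit 23) .nil))))) .nil)) 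
(.lf (nat_lit 119890) (.g (nat_lit 936) (.e (nat_lit 7936) (nat_lit 359) (.e (nat_lit 24650) (nat_lit 12) (.e (nat_lit 392960) (nat_lit 24) (.e (nat_lit 516163) (nat_lit 11) (.e (nat_lit 442375) (nat_lit 0) .nil))))) .nil))) (.nd (nat_lit 6) 
(.lf (nat_lit 119858) (.g (nat_lit 2469) (.e (nat_lit 6706) (nat_lit 359) (.e (nat_lit 24617) (nat_lit 7) (.e (nat_lit 319505) (nat_lit 10) (.e (nat_lit 618) (nat_lit 48) (.e (nat_lit 557109) (nat_lit 15) (.e (nat_lit 196352) (nat_lit 0) .nil)))))) (.g (nat_lit 4) .nil .nil))) 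
(.lf (nat_lit 119922) (.g (nat_lit 2640) (.e (nat_lit 6712) (nat_lit 360) (.e (nat_lit 163962) (nat_lit 25) (.e (nat_lit 532550) (nat_lit 12) (.e (nat_lit 360475) (nat_lit 8) (.e (nat_lit 557085) (nat_lit 11) .nil))))) .nil))))) (.nd (nat_lit 4) (.nd (nat_lit 5) (.nd (nat_lit 6) 
(.lf (nat_lit 119818) (.g (nat_lit 1310) (.e (nat_lit 7936) (nat_lit 357) (.e (nat_lit 2857) (nat_lit 184) (.e (nat_lit 426533) (nat_lit 28) (.e (nat_lit 344069) (nat_lit 0) (.e (nat_lit 3090) (nat_lit 191) .nil))))) .nil)) 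
(.lf (nat_lit 119882) (.g (nat_lit 2681) (.e (nat_lit 6708) (nat_lit 359) (.e (nat_lit 24665) (nat_lit 14) (.e (nat_lit 401414) (nat_lit 0) (.e (nat_lit 7936) (nat_lit 200) .nil)))) .nil))) (.nd (nat_lit 6) 
(.lf (nat_lit 119850) (.g (nat_lit 1895) (.e (nat_lit 6704) (nat_lit 359) (.e (nat_lit 24617) (nat_lit 7) (.e (nat_lit 319505) (nat_lit 10) (.e (nat_lit 618) (nat_lit 48) .nil)))) .nil)) 
(.lf (nat_lit 119914) (.g (nat_lit 5387) (.e (nat_lit 6712) (nat_lit 360) (.e (nat_lit 163962) (nat_lit 25) (.e (nat_lit 532535) (nat_lit 9) (.e (nat_lit 336176) (nat_lit 10) (.e (nat_lit 344133) (nat_lit 26) (.e (nat_lit 557087) (nat_lit 11) (.e (nat_lit 24580) (nat_lit 0) .nil))))))) (.g (nat_lit 0) .nil .nil))))) (.nd (nat_lit 5) (.nd (nat_lit 6) 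
(.lf (nat_lit 119834) (.g (nat_lit 1618) (.e (nat_lit 7936) (nat_lit 357) (.e (nat_lit 3064) (nat_lit 190) (.e (nat_lit 475185) (nat_lit 29) (.e (nat_lit 557107) (nat_lit 15) (.e (nat_lit 188450) (nat_lit 23) .nil))))) .nil)) 
(.lf (nat_lit 119898) (.g (nat_lit 486) (.e (nat_lit 7936) (nat_lit 359) (.e (nat_lit 24665) (nat_lit 14) (.e (nat_lit 409344) (nat_lit 18) (.e (nat_lit 98371) (nat_lit 28) (.e (nat_lit 442369) (nat_lit 0) .nil))))) .nil))) (.nd (nat_lit 6) 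
(.lf (nat_lit 119866) (.g (nat_lit 2559) (.e (nat_lit 6707) (nat_lit 359) (.e (nat_lit 24617) (nat_lit 7) (.e (nat_lit 319505) (nat_lit 10) (.e (nat_lit 618) (nat_lit 48) (.e (nat_lit 557107) (nat_lit 15) .nil))))) .nil)) 
(.lf (nat_lit 119930) (.g (nat_lit 3283) (.e (nat_lit 6713) (nat_lit 360) (.e (nat_lit 164238) (nat_lit 187) (.e (nat_lit 1234) (nat_lit 91) (.e (nat_lit 90176) (nat_lit 15) (.e (nat_lit 188447) (nat_lit 22) (.e (nat_lit 196628) (nat_lit 9) (.e (nat_lit 970) (nat_lit 81) .nil))))))) (.g (nat_lit 5) .nil .nil))))))) (.nd (nat_lit 3) (.nd (nat_lit 4) (.nd (nat_lit 5) (.nd (nat_lit 6) 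
(.lf (nat_lit 119814) (.g (nat_lit 2304) (.e (nat_lit 7936) (nat_lit 357) (.e (nat_lit 2684) (nat_lit 168) (.e (nat_lit 204868) (nat_lit 29) (.e (nat_lit 360475) (nat_lit 8) (.e (nat_lit 557087) (nat_lit 11) .nil))))) .nil)) 
(.lf (nat_lit 119878) (.g (nat_lit 1949) (.e (nat_lit 6707) (nat_lit 359) (.e (nat_lit 24665) (nat_lit 14) (.e (nat_lit 409344) (nat_lit 18) (.e (nat_lit 98370) (nat_lit 28) (.e (nat_lit 442368) (nat_lit 0) .nil))))) (.g (nat_lit 4) .nil .nil)))) (.nd (nat_lit 6) 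
(.lf (nat_lit 119846) (.g (nat_lit 1535) (.e (nat_lit 7936) (nat_lit 357) (.e (nat_lit 3102) (nat_lit 192) (.e (nat_lit 491535) (nat_lit 2) (.e (nat_lit 90176) (nat_lit 15) (.e (nat_lit 188450) (nat_lit 23) .nil))))) .nil)) 
(.lf (nat_lit 119910) (.g (nat_lit 2095) (.e (nat_lit 6712) (nat_lit 360) (.e (nat_lit 163962) (nat_lit 25) (.e (nat_lit 532535) (nat_lit 9) (.e (nat_lit 336176) (nat_lit 10) (.e (nat_lit 344130) (nat_lit 26) (.e (nat_lit 557087) (nat_lit 11) (.e (nat_lit 24576) (nat_lit 0) .nil))))))) (.g (nat_lit 4) .nil .nil))))) (.nd (nat_lit 5) (.nd (nat_lit 6) 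
(.lf (nat_lit 119830) (.g (nat_lit 1720) (.e (nat_lit 7936) (nat_lit 357) (.e (nat_lit 3061) (nat_lit 190) (.e (nat_lit 475185) (nat_lit 29) (.e (nat_lit 557107) (nat_lit 15) .nil)))) .nil)) 
(.lf (nat_lit 119894) (.g (nat_lit 814) (.e (nat_lit 7936) (nat_lit 359) (.e (nat_lit 24665) (nat_lit 14) (.e (nat_lit 409344) (nat_lit 18) (.e (nat_lit 98369) (nat_lit 28) (.e (nat_lit 442368) (nat_lit 0) .nil))))) .nil))) (.nd (nat_lit 6) 
(.lf (nat_lit 119862) (.g (nat_lit 1817) (.e (nat_lit 6706) (nat_lit 359) (.e (nat_lit 24665) (nat_lit 14) (.e (nat_lit 409344) (nat_lit 17) (.e (nat_lit 90178) (nat_lit 15) (.e (nat_lit 196352) (nat_lit 0) .nil))))) (.g (nat_lit 4) .nil .nil))) 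
(.lf (nat_lit 119926) (.g (nat_lit 2674) (.e (nat_lit 6712) (nat_lit 360) (.e (nat_lit 164238) (nat_lit 187) (.e (nat_lit 1234) (nat_lit 91) (.e (nat_lit 90170) (nat_lit 13) (.e (nat_lit 172115) (nat_lit 10) .nil))))) .nil))))) (.nd (nat_lit 4) (.nd (nat_lit 5) (.nd (nat_lit 6) 
(.lf (nat_lit 119822) (.g (nat_lit 2588) (.e (nat_lit 7936) (nat_lit 357) (.e (nat_lit 3056) (nat_lit 190) (.e (nat_lit 475185) (nat_lit 29) (.e (nat_lit 557107) (nat_lit 15) (.e (nat_lit 188450) (nat_lit 23) .nil))))) .nil)) 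
(.lf (nat_lit 119886) (.g (nat_lit 917) (.e (nat_lit 6708) (nat_lit 359) (.e (nat_lit 24665) (nat_lit 14) (.e (nat_lit 409344) (nat_lit 18) .nil))) .nil))) (.nd (nat_lit 6) 
(.lf (nat_lit 119854) (.g (nat_lit 1892) (.e (nat_lit 6705) (nat_lit 359) (.e (nat_lit 24665) (nat_lit 14) (.e (nat_lit 409344) (nat_lit 17) (.e (nat_lit 90176) (nat_lit 15) (.e (nat_lit 196352) (nat_lit 0) .nil))))) (.g (nat_lit 4) .nil .nil))) 
(.lf (nat_lit 119918) (.g (nat_lit 3259) (.e (nat_lit 6712) (nat_lit 360) (.e (nat_lit 163962) (nat_lit 25) (.e (nat_lit 532549) (nat_lit 12) (.e (nat_lit 360475) (nat_lit 8) (.e (nat_lit 557086) (nat_lit 11) (.e (nat_lit 24579) (nat_lit 0) .nil)))))) (.g (nat_lit 5) .nil .nil))))) (.nd (nat_lit 5) (.nd (nat_lit 6) 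
(.lf (nat_lit 119838) (.g (nat_lit 2614) (.e (nat_lit 7936) (nat_lit 357) (.e (nat_lit 3069) (nat_lit 190) (.e (nat_lit 475185) (nat_lit 29) (.e (nat_lit 557107) (nat_lit 15) (.e (nat_lit 188450) (nat_lit 23) .nil))))) .nil)) 
(.lf (nat_lit 119902) (.g (nat_lit 1603) (.e (nat_lit 6711) (nat_lit 360) (.e (nat_lit 164237) (nat_lit 187) (.e (nat_lit 1074) (nat_lit 81) (.e (nat_lit 1796) (nat_lit 119) (.e (nat_lit 516175) (nat_lit 14) (.e (nat_lit 466976) (nat_lit 22) (.e (nat_lit 196628) (nat_lit 9) (.e (nat_lit 970) (nat_lit 81) .nil)))))))) (.g (nat_lit 6) .nil .nil)))) (.nd (nat_lit 6) 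
(.lf (nat_lit 119870) (.g (nat_lit 1725) (.e (nat_lit 6707) (nat_lit 359) (.e (nat_lit 24665) (nat_lit 14) (.e (nat_lit 409344) (nat_lit 17) (.e (nat_lit 90176) (nat_lit 15) (.e (nat_lit 196352) (nat_lit 0) .nil))))) (.g (nat_lit 4) .nil .nil))) 
(.lf (nat_lit 119934) (.g (nat_lit 5004) (.e (nat_lit 6714) (nat_lit 360) (.e (nat_lit 163962) (nat_lit 25) (.e (nat_lit 532535) (nat_lit 9) (.e (nat_lit 336176) (nat_lit 10) (.e (nat_lit 344133) (nat_lit 26) (.e (nat_lit 557087) (nat_lit 11) (.e (nat_lit 24580) (nat_lit 0) .nil))))))) (.g (nat_lit 0) .nil .nil))))))))) 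
(.nd (nat_lit 1) (.nd (nat_lit 2) (.nd (nat_lit 3) (.nd (nat_lit 4) (.nd (nat_lit 5) 
(.nd (nat_lit 6) 
(.lf (nat_lit 119809) (.g (nat_lit 3230) (.e (nat_lit 6696) (nat_lit 357) (.e (nat_lit 2666) (nat_lit 167) (.e (nat_lit 196666) (nat_lit 13) (.e (nat_lit 65617) (nat_lit 10) (.e (nat_lit 344133) (nat_lit 26) .nil))))) .nil)) 
(.lf (nat_lit 119873) (.g (nat_lit 1223) (.e (nat_lit 6707) (nat_lit 359) (.e (nat_lit 24665) (nat_lit 14) (.e (nat_lit 409344) (nat_lit 18) .nil))) .nil))) (.nd (nat_lit 6) 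
(.lf (nat_lit 119841) (.g (nat_lit 2859) (.e (nat_lit 7936) (nat_lit 357) (.e (nat_lit 3072) (nat_lit 190) (.e (nat_lit 475185) (nat_lit 29) (.e (nat_lit 557098) (nat_lit 13) (.e (nat_lit 172097) (nat_lit 9) .nil))))) .nil)) 
(.lf (nat_lit 119905) (.g (nat_lit 2028) (.e (nat_lit 6712) (nat_lit 360) (.e (nat_lit 163962) (nat_lit 25) (.e (nat_lit 532535) (nat_lit 9) (.e (nat_lit 336176) (nat_lit 10) (.e (nat_lit 344130) (nat_lit 26) (.e (nat_lit 557074) (nat_lit 9) (.e (nat_lit 284) (nat_lit 21) (.e (nat_lit 335892) (nat_lit 0) .nil)))))))) (.g (nat_lit 4) .nil .nil))))) (.nd (nat_lit 5) (.nd (nat_lit 6) 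
(.lf (nat_lit 119825) (.g (nat_lit 2774) (.e (nat_lit 7936) (nat_lit 357) (.e (nat_lit 3058) (nat_lit 190) (.e (nat_lit 475185) (nat_lit 29) (.e (nat_lit 557109) (nat_lit 15) (.e (nat_lit 188452) (nat_lit 23) .nil))))) .nil)) 
(.lf (nat_lit 119889) (.g (nat_lit 979) (.e (nat_lit 7936) (nat_lit 359) (.e (nat_lit 24650) (nat_lit 12) (.e (nat_lit 392960) (nat_lit 24) (.e (nat_lit 516163) (nat_lit 11) (.e (nat_lit 442370) (nat_lit 0) .nil))))) .nil))) (.nd (nat_lit 6) 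
(.lf (nat_lit 119857) (.g (nat_lit 2489) (.e (nat_lit 6706) (nat_lit 359) (.e (nat_lit 24617) (nat_lit 7) (.e (nat_lit 319505) (nat_lit 10) (.e (nat_lit 618) (nat_lit 48) (.e (nat_lit 557107) (nat_lit 15) .nil))))) .nil)) 
(.lf (nat_lit 119921) (.g (nat_lit 3339) (.e (nat_lit 6712) (nat_lit 360) (.e (nat_lit 163962) (nat_lit 25) (.e (nat_lit 532550) (nat_lit 12) (.e (nat_lit 360475) (nat_lit 8) (.e (nat_lit 557073) (nat_lit 9) (.e (nat_lit 290) (nat_lit 21) (.e (nat_lit 335892) (nat_lit 0) .nil))))))) (.g (nat_lit 6) .nil .nil)))))) (.nd (nat_lit 4) (.nd (nat_lit 5) (.nd (nat_lit 6) 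
(.lf (nat_lit 119817) (.g (nat_lit 1434) (.e (nat_lit 7936) (nat_lit 357) (.e (nat_lit 2857) (nat_lit 184) (.e (nat_lit 426533) (nat_lit 28) (.e (nat_lit 344068) (nat_lit 0) (.e (nat_lit 3090) (nat_lit 191) .nil))))) .nil)) 
(.lf (nat_lit 119881) (.g (nat_lit 3075) (.e (nat_lit 6708) (nat_lit 359) (.e (nat_lit 24662) (nat_lit 14) (.e (nat_lit 401459) (nat_lit 13) (.e (nat_lit 491264) (nat_lit 1) .nil)))) .nil))) (.nd (nat_lit 6) 
(.lf (nat_lit 119849) (.g (nat_lit 3708) (.e (nat_lit 6703) (nat_lit 358) (.e (nat_lit 8375) (nat_lit 96) (.e (nat_lit 778319) (nat_lit 4) (.e (nat_lit 65630) (nat_lit 14) (.e (nat_lit 401459) (nat_lit 13) (.e (nat_lit 483344) (nat_lit 17) .nil)))))) (.g (nat_lit 0) .nil .nil))) 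
(.lf (nat_lit 119913) (.g (nat_lit 4513) (.e (nat_lit 6712) (nat_lit 360) (.e (nat_lit 163962) (nat_lit 25) (.e (nat_lit 532535) (nat_lit 9) (.e (nat_lit 336176) (nat_lit 10) (.e (nat_lit 344133) (nat_lit 26) (.e (nat_lit 557087) (nat_lit 11) (.e (nat_lit 24579) (nat_lit 0) .nil))))))) (.g (nat_lit 7) .nil .nil))))) (.nd (nat_lit 5) (.nd (nat_lit 6) 
(.lf (nat_lit 119833) (.g (nat_lit 3198) (.e (nat_lit 7936) (nat_lit 357) (.e (nat_lit 3064) (nat_lit 190) (.e (nat_lit 475185) (nat_lit 29) (.e (nat_lit 557098) (nat_lit 13) (.e (nat_lit 172097) (nat_lit 9) .nil))))) .nil)) 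
(.lf (nat_lit 119897) (.g (nat_lit 1051) (.e (nat_lit 7936) (nat_lit 359) (.e (nat_lit 24665) (nat_lit 14) (.e (nat_lit 409344) (nat_lit 18) (.e (nat_lit 98370) (nat_lit 28) (.e (nat_lit 442372) (nat_lit 0) .nil))))) .nil))) (.nd (nat_lit 6) 
(.lf (nat_lit 119865) (.g (nat_lit 1889) (.e (nat_lit 6707) (nat_lit 359) (.e (nat_lit 24617) (nat_lit 7) (.e (nat_lit 319505) (nat_lit 10) (.e (nat_lit 618) (nat_lit 48) .nil)))) .nil)) 
(.lf (nat_lit 119929) (.g (nat_lit 1491) (.e (nat_lit 6713) (nat_lit 360) (.e (nat_lit 163850) (nat_lit 0) (.e (nat_lit 6410) (nat_lit 340) (.e (nat_lit 122919) (nat_lit 15) (.e (nat_lit 368384) (nat_lit 24) .nil))))) .nil)))))) (.nd (nat_lit 3) (.nd (nat_lit 4) (.nd (nat_lit 5) (.nd (nat_lit 6) 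
(.lf (nat_lit 119813) (.g (nat_lit 1306) (.e (nat_lit 7936) (nat_lit 357) (.e (nat_lit 2684) (nat_lit 168) (.e (nat_lit 204868) (nat_lit 29) (.e (nat_lit 360473) (nat_lit 8) (.e (nat_lit 557086) (nat_lit 11) .nil))))) .nil)) 
(.lf (nat_lit 119877) (.g (nat_lit 1772) (.e (nat_lit 6707) (nat_lit 359) (.e (nat_lit 24665) (nat_lit 14) (.e (nat_lit 409344) (nat_lit 18) (.e (nat_lit 98369) (nat_lit 28) (.e (nat_lit 442369) (nat_lit 0) .nil))))) (.g (nat_lit 4) .nil .nil)))) (.nd (nat_lit 6) 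
(.lf (nat_lit 119845) (.g (nat_lit 1114) (.e (nat_lit 7936) (nat_lit 357) (.e (nat_lit 3098) (nat_lit 192) (.e (nat_lit 491570) (nat_lit 13) (.e (nat_lit 393260) (nat_lit 21) .nil)))) .nil)) 
(.lf (nat_lit 119909) (.g (nat_lit 2310) (.e (nat_lit 6712) (nat_lit 360) (.e (nat_lit 163962) (nat_lit 25) (.e (nat_lit 532535) (nat_lit 9) (.e (nat_lit 336176) (nat_lit 10) (.e (nat_lit 344130) (nat_lit 26) (.e (nat_lit 557086) (nat_lit 11) (.e (nat_lit 24578) (nat_lit 0) .nil))))))) (.g (nat_lit 5) .nil .nil))))) (.nd (nat_lit 5) (.nd (nat_lit 6) 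
(.lf (nat_lit 119829) (.g (nat_lit 2550) (.e (nat_lit 7936) (nat_lit 357) (.e (nat_lit 3061) (nat_lit 190) (.e (nat_lit 475185) (nat_lit 29) (.e (nat_lit 557101) (nat_lit 13) (.e (nat_lit 172115) (nat_lit 10) .nil))))) .nil)) 
(.lf (nat_lit 119893) (.g (nat_lit 350) (.e (nat_lit 7936) (nat_lit 359) (.e (nat_lit 24665) (nat_lit 14) (.e (nat_lit 409344) (nat_lit 18) .nil))) .nil))) (.nd (nat_lit 6) 
(.lf (nat_lit 119861) (.g (nat_lit 1752) (.e (nat_lit 6706) (nat_lit 359) (.e (nat_lit 24665) (nat_lit 14) (.e (nat_lit 409344) (nat_lit 17) (.e (nat_lit 90176) (nat_lit 15) (.e (nat_lit 196352) (nat_lit 0) .nil))))) (.g (nat_lit 4) .nil .nil))) 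
(.lf (nat_lit 119925) (.g (nat_lit 1925) (.e (nat_lit 6712) (nat_lit 360) (.e (nat_lit 163979) (nat_lit 30) (.e (nat_lit 573475) (nat_lit 12) (.e (nat_lit 57717) (nat_lit 176) .nil)))) .nil))))) (.nd (nat_lit 4) (.nd (nat_lit 5) (.nd (nat_lit 6) 
(.lf (nat_lit 119821) (.g (nat_lit 2464) (.e (nat_lit 7936) (nat_lit 357) (.e (nat_lit 3055) (nat_lit 190) (.e (nat_lit 475185) (nat_lit 29) (.e (nat_lit 557107) (nat_lit 15) (.e (nat_lit 188450) (nat_lit 23) .nil))))) .nil)) 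
(.lf (nat_lit 119885) (.g (nat_lit 1428) (.e (nat_lit 6708) (nat_lit 359) (.e (nat_lit 24665) (nat_lit 14) (.e (nat_lit 409344) (nat_lit 17) (.e (nat_lit 90178) (nat_lit 15) (.e (nat_lit 196352) (nat_lit 0) .nil))))) .nil))) (.nd (nat_lit 6) 
(.lf (nat_lit 119853) (.g (nat_lit 1372) (.e (nat_lit 6705) (nat_lit 359) (.e (nat_lit 24665) (nat_lit 14) (.e (nat_lit 401414) (nat_lit 0) .nil))) .nil)) 
(.lf (nat_lit 119917) (.g (nat_lit 3438) (.e (nat_lit 6712) (nat_lit 360) (.e (nat_lit 163962) (nat_lit 25) (.e (nat_lit 532549) (nat_lit 12) (.e (nat_lit 360475) (nat_lit 8) (.e (nat_lit 557068) (nat_lit 9) (.e (nat_lit 290) (nat_lit 21) (.e (nat_lit 335895) (nat_lit 0) .nil))))))) (.g (nat_lit 5) .nil .nil))))) (.nd (nat_lit 5) (.nd (nat_lit 6) 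
(.lf (nat_lit 119837) (.g (nat_lit 2604) (.e (nat_lit 7936) (nat_lit 357) (.e (nat_lit 3068) (nat_lit 190) (.e (nat_lit 475185) (nat_lit 29) (.e (nat_lit 557109) (nat_lit 15) (.e (nat_lit 188452) (nat_lit 23) .nil))))) .nil)) 
(.lf (nat_lit 119901) (.g (nat_lit 1771) (.e (nat_lit 6711) (nat_lit 360) (.e (nat_lit 164236) (nat_lit 187) (.e (nat_lit 1074) (nat_lit 81) (.e (nat_lit 1796) (nat_lit 119) (.e (nat_lit 516175) (nat_lit 14) (.e (nat_lit 466976) (nat_lit 22) (.e (nat_lit 196628) (nat_lit 9) (.e (nat_lit 968) (nat_lit 81) .nil)))))))) (.g (nat_lit 6) .nil .nil)))) (.nd (nat_lit 6) 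
(.lf (nat_lit 119869) (.g (nat_lit 2068) (.e (nat_lit 6707) (nat_lit 359) (.e (nat_lit 24665) (nat_lit 14) (.e (nat_lit 409344) (nat_lit 17) (.e (nat_lit 90170) (nat_lit 13) (.e (nat_lit 172088) (nat_lit 9) .nil))))) .nil)) 
(.lf (nat_lit 119933) (.g (nat_lit 4006) (.e (nat_lit 6714) (nat_lit 360) (.e (nat_lit 163962) (nat_lit 25) (.e (nat_lit 532535) (nat_lit 9) (.e (nat_lit 336176) (nat_lit 10) (.e (nat_lit 344130) (nat_lit 26) (.e (nat_lit 557085) (nat_lit 11) (.e (nat_lit 24580) (nat_lit 0) .nil))))))) (.g (nat_lit 7) .nil .nil)))))))) 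
(.nd (nat_lit 2) (.nd (nat_lit 3) (.nd (nat_lit 4) (.nd (nat_lit 5) (.nd (nat_lit 6) 
(.lf (nat_lit 119811) (.g (nat_lit 1951) (.e (nat_lit 7936) (nat_lit 357) (.e (nat_lit 2668) (nat_lit 167) (.e (nat_lit 196666) (nat_lit 13) (.e (nat_lit 65610) (nat_lit 10) (.e (nat_lit 344129) (nat_lit 26) .nil))))) .nil)) 
(.lf (nat_lit 119875) (.g (nat_lit 1639) (.e (nat_lit 6707) (nat_lit 359) (.e (nat_lit 24665) (nat_lit 14) (.e (nat_lit 409344) (nat_lit 18) (.e (nat_lit 98365) (nat_lit 26) (.e (nat_lit 426187) (nat_lit 9) .nil))))) .nil))) (.nd (nat_lit 6) 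
(.lf (nat_lit 119843) (.g (nat_lit 2245) (.e (nat_lit 7936) (nat_lit 357) (.e (nat_lit 3074) (nat_lit 190) (.e (nat_lit 475185) (nat_lit 29) (.e (nat_lit 557107) (nat_lit 15) (.e (nat_lit 188450) (nat_lit 23) .nil))))) .nil)) 
(.lf (nat_lit 119907) (.g (nat_lit 2767) (.e (nat_lit 6712) (nat_lit 360) (.e (nat_lit 163962) (nat_lit 25) (.e (nat_lit 532535) (nat_lit 9) (.e (nat_lit 336176) (nat_lit 10) (.e (nat_lit 344130) (nat_lit 26) (.e (nat_lit 557085) (nat_lit 11) (.e (nat_lit 24579) (nat_lit 0) .nil))))))) (.g (nat_lit 5) .nil .nil))))) (.nd (nat_lit 5) (.nd (nat_lit 6) 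
(.lf (nat_lit 119827) (.g (nat_lit 2778) (.e (nat_lit 7936) (nat_lit 357) (.e (nat_lit 3060) (nat_lit 190) (.e (nat_lit 475185) (nat_lit 29) (.e (nat_lit 557098) (nat_lit 13) (.e (nat_lit 172097) (nat_lit 9) .nil))))) .nil)) 
(.lf (nat_lit 119891) (.g (nat_lit 398) (.e (nat_lit 7936) (nat_lit 359) (.e (nat_lit 24650) (nat_lit 12) (.e (nat_lit 385063) (nat_lit 25) (.e (nat_lit 524319) (nat_lit 11) .nil)))) .nil))) (.nd (nat_lit 6) 
(.lf (nat_lit 119859) (.g (nat_lit 818) (.e (nat_lit 6706) (nat_lit 359) (.e (nat_lit 24640) (nat_lit 10) (.e (nat_lit 344123) (nat_lit 24) .nil))) .nil)) 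
(.lf (nat_lit 119923) (.g (nat_lit 1789) (.e (nat_lit 6712) (nat_lit 360) (.e (nat_lit 163975) (nat_lit 30) (.e (nat_lit 573451) (nat_lit 9) (.e (nat_lit 1548) (nat_lit 109) .nil)))) .nil))))) (.nd (nat_lit 4) (.nd (nat_lit 5) (.nd (nat_lit 6) 
(.lf (nat_lit 119819) (.g (nat_lit 1549) (.e (nat_lit 7936) (nat_lit 357) (.e (nat_lit 2887) (nat_lit 184) (.e (nat_lit 426499) (nat_lit 27) (.e (nat_lit 336226) (nat_lit 14) .nil)))) .nil)) 
(.lf (nat_lit 119883) (.g (nat_lit 917) (.e (nat_lit 6708) (nat_lit 359) (.e (nat_lit 24665) (nat_lit 14) (.e (nat_lit 409344) (nat_lit 17) .nil))) .nil))) (.nd (nat_lit 6) 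
(.lf (nat_lit 119851) (.g (nat_lit 1241) (.e (nat_lit 6704) (nat_lit 359) (.e (nat_lit 24665) (nat_lit 14) (.e (nat_lit 409344) (nat_lit 18) .nil))) .nil)) 
(.lf (nat_lit 119915) (.g (nat_lit 2060) (.e (nat_lit 6712) (nat_lit 360) (.e (nat_lit 163962) (nat_lit 25) (.e (nat_lit 532549) (nat_lit 12) (.e (nat_lit 360474) (nat_lit 8) (.e (nat_lit 557085) (nat_lit 11) (.e (nat_lit 24580) (nat_lit 0) .nil)))))) (.g (nat_lit 4) .nil .nil))))) (.nd (nat_lit 5) (.nd (nat_lit 6) 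
(.lf (nat_lit 119835) (.g (nat_lit 3314) (.e (nat_lit 7936) (nat_lit 357) (.e (nat_lit 3065) (nat_lit 190) (.e (nat_lit 475185) (nat_lit 29) (.e (nat_lit 557098) (nat_lit 13) (.e (nat_lit 172097) (nat_lit 9) .nil))))) .nil)) 
(.lf (nat_lit 119899) (.g (nat_lit 3731) (.e (nat_lit 6709) (nat_lit 360) (.e (nat_lit 164237) (nat_lit 187) (.e (nat_lit 1074) (nat_lit 81) (.e (nat_lit 1796) (nat_lit 119) (.e (nat_lit 516163) (nat_lit 11) (.e (nat_lit 442424) (nat_lit 22) (.e (nat_lit 196628) (nat_lit 9) (.e (nat_lit 968) (nat_lit 81) .nil)))))))) (.g (nat_lit 8) .nil .nil)))) (.nd (nat_lit 6) 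
(.lf (nat_lit 119867) (.g (nat_lit 1245) (.e (nat_lit 6707) (nat_lit 359) (.e (nat_lit 24665) (nat_lit 14) (.e (nat_lit 401414) (nat_lit 0) .nil))) .nil)) 
(.lf (nat_lit 119931) (.g (nat_lit 3101) (.e (nat_lit 6713) (nat_lit 360) (.e (nat_lit 164238) (nat_lit 187) (.e (nat_lit 1252) (nat_lit 92) (.e (nat_lit 98370) (nat_lit 28) (.e (nat_lit 442424) (nat_lit 22) (.e (nat_lit 196628) (nat_lit 9) (.e (nat_lit 970) (nat_lit 81) .nil))))))) (.g (nat_lit 5) .nil .nil))))))) (.nd (nat_lit 3) (.nd (nat_lit 4) (.nd (nat_lit 5) (.nd (nat_lit 6) 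
(.lf (nat_lit 119815) (.g (nat_lit 1989) (.e (nat_lit 7936) (nat_lit 357) (.e (nat_lit 2685) (nat_lit 168) (.e (nat_lit 204868) (nat_lit 29) (.e (nat_lit 360475) (nat_lit 8) (.e (nat_lit 557087) (nat_lit 11) .nil))))) .nil)) 
(.lf (nat_lit 119879) (.g (nat_lit 1891) (.e (nat_lit 6708) (nat_lit 359) (.e (nat_lit 24617) (nat_lit 7) (.e (nat_lit 319505) (nat_lit 10) (.e (nat_lit 618) (nat_lit 48) .nil)))) .nil))) (.nd (nat_lit 6) 
(.lf (nat_lit 119847) (.g (nat_lit 810) (.e (nat_lit 7936) (nat_lit 357) (.e (nat_lit 3102) (nat_lit 192) (.e (nat_lit 491536) (nat_lit 2) (.e (nat_lit 90176) (nat_lit 15) .nil)))) .nil)) 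
(.lf (nat_lit 119911) (.g (nat_lit 4740) (.e (nat_lit 6712) (nat_lit 360) (.e (nat_lit 163962) (nat_lit 25) (.e (nat_lit 532535) (nat_lit 9) (.e (nat_lit 336176) (nat_lit 10) (.e (nat_lit 344133) (nat_lit 26) (.e (nat_lit 557085) (nat_lit 11) (.e (nat_lit 24580) (nat_lit 0) .nil))))))) (.g (nat_lit 0) .nil .nil))))) (.nd (nat_lit 5) (.nd (nat_lit 6) 
(.lf (nat_lit 119831) (.g (nat_lit 3047) (.e (nat_lit 7936) (nat_lit 357) (.e (nat_lit 3063) (nat_lit 190) (.e (nat_lit 475185) (nat_lit 29) (.e (nat_lit 557098) (nat_lit 13) (.e (nat_lit 172097) (nat_lit 9) .nil))))) .nil)) 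
(.lf (nat_lit 119895) (.g (nat_lit 815) (.e (nat_lit 7936) (nat_lit 359) (.e (nat_lit 24665) (nat_lit 14) (.e (nat_lit 409344) (nat_lit 18) (.e (nat_lit 98369) (nat_lit 28) (.e (nat_lit 442369) (nat_lit 0) .nil))))) .nil))) (.nd (nat_lit 6) 
(.lf (nat_lit 119863) (.g (nat_lit 1393) (.e (nat_lit 6706) (nat_lit 359) (.e (nat_lit 24665) (nat_lit 14) (.e (nat_lit 409344) (nat_lit 18) (.e (nat_lit 98371) (nat_lit 28) (.e (nat_lit 450304) (nat_lit 0) .nil))))) (.g (nat_lit 4) .nil .nil))) 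
(.lf (nat_lit 119927) (.g (nat_lit 2328) (.e (nat_lit 6712) (nat_lit 360) (.e (nat_lit 164238) (nat_lit 187) (.e (nat_lit 1235) (nat_lit 91) (.e (nat_lit 90176) (nat_lit 15) (.e (nat_lit 188450) (nat_lit 23) (.e (nat_lit 204815) (nat_lit 17) .nil)))))) (.g (nat_lit 4) .nil .nil)))))) (.nd (nat_lit 4) (.nd (nat_lit 5) (.nd (nat_lit 6) 
(.lf (nat_lit 119823) (.g (nat_lit 1596) (.e (nat_lit 7936) (nat_lit 357) (.e (nat_lit 3057) (nat_lit 190) (.e (nat_lit 475185) (nat_lit 29) (.e (nat_lit 557107) (nat_lit 15) .nil)))) .nil)) 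
(.lf (nat_lit 119887) (.g (nat_lit 1231) (.e (nat_lit 7936) (nat_lit 359) (.e (nat_lit 24640) (nat_lit 10) (.e (nat_lit 344123) (nat_lit 24) (.e (nat_lit 540724) (nat_lit 28) .nil)))) .nil))) (.nd (nat_lit 6) 
(.lf (nat_lit 119855) (.g (nat_lit 1897) (.e (nat_lit 6705) (nat_lit 359) (.e (nat_lit 24665) (nat_lit 14) (.e (nat_lit 409344) (nat_lit 17) (.e (nat_lit 90178) (nat_lit 15) (.e (nat_lit 196352) (nat_lit 0) .nil))))) .nil)) 
(.lf (nat_lit 119919) (.g (nat_lit 3298) (.e (nat_lit 6712) (nat_lit 360) (.e (nat_lit 163962) (nat_lit 25) (.e (nat_lit 532549) (nat_lit 12) (.e (nat_lit 360475) (nat_lit 8) (.e (nat_lit 557087) (nat_lit 11) (.e (nat_lit 24579) (nat_lit 0) .nil)))))) (.g (nat_lit 5) .nil .nil))))) (.nd (nat_lit 5) (.nd (nat_lit 6) 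
(.lf (nat_lit 119839) (.g (nat_lit 2992) (.e (nat_lit 7936) (nat_lit 357) (.e (nat_lit 3070) (nat_lit 190) (.e (nat_lit 475185) (nat_lit 29) (.e (nat_lit 557098) (nat_lit 13) (.e (nat_lit 172097) (nat_lit 9) .nil))))) .nil)) 
(.lf (nat_lit 119903) (.g (nat_lit 4226) (.e (nat_lit 6712) (nat_lit 360) (.e (nat_lit 163961) (nat_lit 25) (.e (nat_lit 532550) (nat_lit 12) (.e (nat_lit 360475) (nat_lit 8) (.e (nat_lit 557068) (nat_lit 9) (.e (nat_lit 290) (nat_lit 21) (.e (nat_lit 335894) (nat_lit 0) .nil))))))) (.g (nat_lit 4) .nil .nil)))) (.nd (nat_lit 6) 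
(.lf (nat_lit 119871) (.g (nat_lit 1734) (.e (nat_lit 6707) (nat_lit 359) (.e (nat_lit 24665) (nat_lit 14) (.e (nat_lit 409344) (nat_lit 17) (.e (nat_lit 90178) (nat_lit 15) (.e (nat_lit 196352) (nat_lit 0) .nil))))) .nil)) 
(.lf (nat_lit 119935) (.g (nat_lit 3801) (.e (nat_lit 6714) (nat_lit 360) (.e (nat_lit 163962) (nat_lit 25) (.e (nat_lit 532549) (nat_lit 12) (.e (nat_lit 360475) (nat_lit 8) (.e (nat_lit 557087) (nat_lit 11) (.e (nat_lit 24580) (nat_lit 0) .nil)))))) (.g (nat_lit 0) .nil .nil))))))))))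

noncomputable def tv1598 : DT := (.nd (nat_lit 0) (.nd (nat_lit 1) (.nd (nat_lit 2) (.nd (nat_lit 3) (.nd (nat_lit 4) (.nd (nat_lit 5) 
(.lf (nat_lit 119936) (.g (nat_lit 1375) (.e (nat_lit 6714) (nat_lit 360) (.e (nat_lit 163962) (nat_lit 25) (.e (nat_lit 532550) (nat_lit 12) (.e (nat_lit 360474) (nat_lit 8) (.e (nat_lit 557070) (nat_lit 9) .nil))))) .nil)) 
(.lf (nat_lit 119968) (.g (nat_lit 3226) (.e (nat_lit 6717) (nat_lit 361) (.e (nat_lit 172067) (nat_lit 3) (.e (nat_lit 204846) (nat_lit 24) (.e (nat_lit 319537) (nat_lit 19) (.e (nat_lit 311312) (nat_lit 2) (.e (nat_lit 196628) (nat_lit 9) (.e (nat_lit 970) (nat_lit 81) .nil))))))) (.g (nat_lit 4) .nil .nil)))) (.nd (nat_lit 5) 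
(.lf (nat_lit 119952) (.g (nat_lit 3740) (.e (nat_lit 6716) (nat_lit 361) (.e (nat_lit 172067) (nat_lit 3) (.e (nat_lit 204846) (nat_lit 24) (.e (nat_lit 319504) (nat_lit 10) (.e (nat_lit 5714) (nat_lit 312) (.e (nat_lit 2664) (nat_lit 167) (.e (nat_lit 196628) (nat_lit 9) (.e (nat_lit 968) (nat_lit 81) .nil)))))))) (.g (nat_lit 5) .nil .nil))) 
(.lf (nat_lit 119984) (.g (nat_lit 3004) (.e (nat_lit 6717) (nat_lit 361) (.e (nat_lit 172150) (nat_lit 27) (.e (nat_lit 336194) (nat_lit 12) (.e (nat_lit 385105) (nat_lit 50) (.e (nat_lit 786473) (nat_lit 27) (.e (nat_lit 335872) (nat_lit 0) .nil)))))) (.g (nat_lit 5) .nil .nil))))) (.nd (nat_lit 4) (.nd (nat_lit 5) 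
(.lf (nat_lit 119944) (.g (nat_lit 402) (.e (nat_lit 6714) (nat_lit 360) (.e (nat_lit 164020) (nat_lit 45) (.e (nat_lit 696363) (nat_lit 18) .nil))) .nil)) 
(.lf (nat_lit 119976) (.g (nat_lit 923) (.e (nat_lit 6717) (nat_lit 361) (.e (nat_lit 172150) (nat_lit 27) (.e (nat_lit 336070) (nat_lit 8) (.e (nat_lit 327702) (nat_lit 10) .nil)))) .nil))) (.nd (nat_lit 5) 
(.lf (nat_lit 119960) (.g (nat_lit 1196) (.e (nat_lit 6716) (nat_lit 361) (.e (nat_lit 172076) (nat_lit 6) (.e (nat_lit 253990) (nat_lit 11) (.e (nat_lit 16465) (nat_lit 13) (.e (nat_lit 491264) (nat_lit 17) .nil))))) .nil)) 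
(.lf (nat_lit 119992) (.g (nat_lit 1454) (.e (nat_lit 6718) (nat_lit 361) (.e (nat_lit 172076) (nat_lit 6) (.e (nat_lit 253990) (nat_lit 11) (.e (nat_lit 16465) (nat_lit 13) (.e (nat_lit 483343) (nat_lit 17) .nil))))) (.g (nat_lit 4) .nil .nil)))))) (.nd (nat_lit 3) (.nd (nat_lit 4) (.nd (nat_lit 5) 
(.lf (nat_lit 119940) (.g (nat_lit 1793) (.e (nat_lit 6714) (nat_lit 360) (.e (nat_lit 163975) (nat_lit 30) (.e (nat_lit 573451) (nat_lit 9) (.e (nat_lit 1545) (nat_lit 109) .nil)))) .nil)) 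
(.lf (nat_lit 119972) (.g (nat_lit 1918) (.e (nat_lit 6717) (nat_lit 361) (.e (nat_lit 172067) (nat_lit 3) (.e (nat_lit 204885) (nat_lit 33) (.e (nat_lit 401448) (nat_lit 10) .nil)))) .nil))) (.nd (nat_lit 5) 
(.lf (nat_lit 119956) (.g (nat_lit 1163) (.e (nat_lit 6716) (nat_lit 361) (.e (nat_lit 172074) (nat_lit 6) (.e (nat_lit 253988) (nat_lit 11) (.e (nat_lit 16465) (nat_lit 13) (.e (nat_lit 491264) (nat_lit 17) .nil))))) (.g (nat_lit 4) .nil .nil))) 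
(.lf (nat_lit 119988) (.g (nat_lit 1622) (.e (nat_lit 6718) (nat_lit 361) (.e (nat_lit 172076) (nat_lit 6) (.e (nat_lit 253988) (nat_lit 11) (.e (nat_lit 16465) (nat_lit 13) (.e (nat_lit 483342) (nat_lit 17) .nil))))) (.g (nat_lit 4) .nil .nil))))) (.nd (nat_lit 4) (.nd (nat_lit 5) 
(.lf (nat_lit 119948) (.g (nat_lit 386) (.e (nat_lit 7936) (nat_lit 360) (.e (nat_lit 164238) (nat_lit 187) (.e (nat_lit 1661) (nat_lit 115) .nil))) .nil)) 
(.lf (nat_lit 119980) (.g (nat_lit 1347) (.e (nat_lit 6717) (nat_lit 361) (.e (nat_lit 172150) (nat_lit 27) (.e (nat_lit 336070) (nat_lit 8) (.e (nat_lit 327705) (nat_lit 10) (.e (nat_lit 5721) (nat_lit 312) .nil))))) .nil))) (.nd (nat_lit 5) 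
(.lf (nat_lit 119964) (.g (nat_lit 4482) (.e (nat_lit 6717) (nat_lit 361) (.e (nat_lit 172067) (nat_lit 3) (.e (nat_lit 204846) (nat_lit 24) (.e (nat_lit 319504) (nat_lit 10) (.e (nat_lit 5714) (nat_lit 312) (.e (nat_lit 2664) (nat_lit 167) (.e (nat_lit 196628) (nat_lit 9) (.e (nat_lit 970) (nat_lit 81) .nil)))))))) (.g (nat_lit 6) .nil .nil))) 
(.lf (nat_lit 119996) (.g (nat_lit 3441) (.e (nat_lit 6718) (nat_lit 361) (.e (nat_lit 172133) (nat_lit 15) (.e (nat_lit 1856) (nat_lit 124) (.e (nat_lit 557098) (nat_lit 13) (.e (nat_lit 172115) (nat_lit 10) (.e (nat_lit 434231) (nat_lit 23) (.e (nat_lit 532482) (nat_lit 0) .nil))))))) (.g (nat_lit 7) .nil .nil))))))) (.nd (nat_lit 2) (.nd (nat_lit 3) (.nd (nat_lit 4) (.nd (nat_lit 5) 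
(.lf (nat_lit 119938) (.g (nat_lit 4760) (.e (nat_lit 6714) (nat_lit 360) (.e (nat_lit 163962) (nat_lit 25) (.e (nat_lit 532550) (nat_lit 12) (.e (nat_lit 360475) (nat_lit 8) (.e (nat_lit 557085) (nat_lit 11) (.e (nat_lit 24580) (nat_lit 0) .nil)))))) (.g (nat_lit 0) .nil .nil))) 
(.lf (nat_lit 119970) (.g (nat_lit 4702) (.e (nat_lit 6717) (nat_lit 361) (.e (nat_lit 172067) (nat_lit 3) (.e (nat_lit 204846) (nat_lit 24) (.e (nat_lit 319538) (nat_lit 19) (.e (nat_lit 311312) (nat_lit 2) (.e (nat_lit 196628) (nat_lit 9) (.e (nat_lit 968) (nat_lit 81) .nil))))))) (.g (nat_lit 6) .nil .nil)))) (.nd (nat_lit 5) 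
(.lf (nat_lit 119954) (.g (nat_lit 2363) (.e (nat_lit 6716) (nat_lit 361) (.e (nat_lit 172067) (nat_lit 3) (.e (nat_lit 204846) (nat_lit 24) (.e (nat_lit 319538) (nat_lit 19) .nil)))) .nil)) 
(.lf (nat_lit 119986) (.g (nat_lit 2073) (.e (nat_lit 6717) (nat_lit 361) (.e (nat_lit 172150) (nat_lit 27) (.e (nat_lit 336195) (nat_lit 12) (.e (nat_lit 385105) (nat_lit 50) (.e (nat_lit 786473) (nat_lit 27) (.e (nat_lit 335872) (nat_lit 0) .nil)))))) (.g (nat_lit 5) .nil .nil))))) (.nd (nat_lit 4) (.nd (nat_lit 5) 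
(.lf (nat_lit 119946) (.g (nat_lit 865) (.e (nat_lit 7936) (nat_lit 360) (.e (nat_lit 164238) (nat_lit 187) (.e (nat_lit 1252) (nat_lit 92) (.e (nat_lit 98372) (nat_lit 29) .nil)))) .nil)) 
(.lf (nat_lit 119978) (.g (nat_lit 1727) (.e (nat_lit 6717) (nat_lit 361) (.e (nat_lit 172150) (nat_lit 27) (.e (nat_lit 336070) (nat_lit 8) (.e (nat_lit 327703) (nat_lit 10) (.e (nat_lit 5712) (nat_lit 312) (.e (nat_lit 280) (nat_lit 21) (.e (nat_lit 335874) (nat_lit 0) .nil))))))) (.g (nat_lit 4) .nil .nil)))) (.nd (nat_lit 5) 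
(.lf (nat_lit 119962) (.g (nat_lit 2988) (.e (nat_lit 6717) (nat_lit 361) (.e (nat_lit 172067) (nat_lit 3) (.e (nat_lit 204846) (nat_lit 24) (.e (nat_lit 319504) (nat_lit 10) (.e (nat_lit 5714) (nat_lit 312) .nil))))) .nil)) 
(.lf (nat_lit 119994) (.g (nat_lit 4674) (.e (nat_lit 6718) (nat_lit 361) (.e (nat_lit 172133) (nat_lit 15) (.e (nat_lit 1855) (nat_lit 124) (.e (nat_lit 557109) (nat_lit 15) (.e (nat_lit 188452) (nat_lit 23) (.e (nat_lit 204816) (nat_lit 17) .nil)))))) (.g (nat_lit 5) .nil .nil)))))) (.nd (nat_lit 3) (.nd (nat_lit 4) (.nd (nat_lit 5) 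
(.lf (nat_lit 119942) (.g (nat_lit 3855) (.e (nat_lit 6714) (nat_lit 360) (.e (nat_lit 163990) (nat_lit 34) (.e (nat_lit 606225) (nat_lit 4) (.e (nat_lit 65630) (nat_lit 14) (.e (nat_lit 401459) (nat_lit 13) (.e (nat_lit 483344) (nat_lit 17) .nil)))))) (.g (nat_lit 0) .nil .nil))) 
(.lf (nat_lit 119974) (.g (nat_lit 1110) (.e (nat_lit 6717) (nat_lit 361) (.e (nat_lit 172150) (nat_lit 27) (.e (nat_lit 336067) (nat_lit 8) (.e (nat_lit 327705) (nat_lit 10) (.e (nat_lit 5721) (nat_lit 312) (.e (nat_lit 280) (nat_lit 21) (.e (nat_lit 335874) (nat_lit 0) .nil))))))) (.g (nat_lit 4) .nil .nil)))) (.nd (nat_lit 5) 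
(.lf (nat_lit 119958) (.g (nat_lit 1890) (.e (nat_lit 6716) (nat_lit 361) (.e (nat_lit 172074) (nat_lit 6) (.e (nat_lit 253991) (nat_lit 11) (.e (nat_lit 16466) (nat_lit 13) (.e (nat_lit 483345) (nat_lit 17) .nil))))) (.g (nat_lit 4) .nil .nil))) 
(.lf (nat_lit 119990) (.g (nat_lit 1778) (.e (nat_lit 6718) (nat_lit 361) (.e (nat_lit 172076) (nat_lit 6) (.e (nat_lit 253989) (nat_lit 11) (.e (nat_lit 16465) (nat_lit 13) (.e (nat_lit 483343) (nat_lit 17) .nil))))) (.g (nat_lit 5) .nil .nil))))) (.nd (nat_lit 4) (.nd (nat_lit 5) 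
(.lf (nat_lit 119950) (.g (nat_lit 861) (.e (nat_lit 6716) (nat_lit 361) (.e (nat_lit 172067) (nat_lit 3) (.e (nat_lit 204846) (nat_lit 24) .nil))) .nil)) 
(.lf (nat_lit 119982) (.g (nat_lit 1352) (.e (nat_lit 6717) (nat_lit 361) (.e (nat_lit 172150) (nat_lit 27) (.e (nat_lit 336070) (nat_lit 8) (.e (nat_lit 327705) (nat_lit 10) (.e (nat_lit 5722) (nat_lit 312) (.e (nat_lit 280) (nat_lit 21) (.e (nat_lit 335874) (nat_lit 0) .nil))))))) (.g (nat_lit 4) .nil .nil)))) (.nd (nat_lit 5) 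
(.lf (nat_lit 119966) (.g (nat_lit 2490) (.e (nat_lit 6717) (nat_lit 361) (.e (nat_lit 172067) (nat_lit 3) (.e (nat_lit 204846) (nat_lit 24) (.e (nat_lit 327424) (nat_lit 18) .nil)))) .nil)) 
(.lf (nat_lit 119998) (.g (nat_lit 3774) (.e (nat_lit 6718) (nat_lit 361) (.e (nat_lit 172133) (nat_lit 15) (.e (nat_lit 1856) (nat_lit 124) (.e (nat_lit 557101) (nat_lit 13) (.e (nat_lit 172115) (nat_lit 10) (.e (nat_lit 434231) (nat_lit 23) (.e (nat_lit 532482) (nat_lit 0) .nil))))))) (.g (nat_lit 0) .nil .nil)))))))) 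
(.nd (nat_lit 1) (.nd (nat_lit 2) (.nd (nat_lit 3) (.nd (nat_lit 4) (.nd (nat_lit 5) 
(.lf (nat_lit 119937) (.g (nat_lit 3061) (.e (nat_lit 6714) (nat_lit 360) (.e (nat_lit 163962) (nat_lit 25) (.e (nat_lit 532550) (nat_lit 12) (.e (nat_lit 360475) (nat_lit 8) (.e (nat_lit 557073) (nat_lit 9) (.e (nat_lit 290) (nat_lit 21) (.e (nat_lit 335892) (nat_lit 0) .nil))))))) (.g (nat_lit 6) .nil .nil))) 
(.lf (nat_lit 119969) (.g (nat_lit 2359) (.e (nat_lit 6717) (nat_lit 361) (.e (nat_lit 172067) (nat_lit 3) (.e (nat_lit 204846) (nat_lit 24) (.e (nat_lit 319538) (nat_lit 19) .nil)))) .nil))) (.nd (nat_lit 5) 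
(.lf (nat_lit 119953) (.g (nat_lit 3200) (.e (nat_lit 6716) (nat_lit 361) (.e (nat_lit 172067) (nat_lit 3) (.e (nat_lit 204846) (nat_lit 24) (.e (nat_lit 319537) (nat_lit 19) (.e (nat_lit 311312) (nat_lit 2) .nil))))) .nil)) 
(.lf (nat_lit 119985) (.g (nat_lit 3283) (.e (nat_lit 6717) (nat_lit 361) (.e (nat_lit 172150) (nat_lit 27) (.e (nat_lit 336194) (nat_lit 12) (.e (nat_lit 385106) (nat_lit 50) (.e (nat_lit 786473) (nat_lit 27) (.e (nat_lit 335872) (nat_lit 0) .nil)))))) (.g (nat_lit 5) .nil .nil))))) (.nd (nat_lit 4) (.nd (nat_lit 5) 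
(.lf (nat_lit 119945) (.g (nat_lit 1482) (.e (nat_lit 6714) (nat_lit 360) (.e (nat_lit 164238) (nat_lit 187) (.e (nat_lit 1253) (nat_lit 92) (.e (nat_lit 98372) (nat_lit 29) (.e (nat_lit 450579) (nat_lit 5) .nil))))) .nil)) 
(.lf (nat_lit 119977) (.g (nat_lit 1588) (.e (nat_lit 6717) (nat_lit 361) (.e (nat_lit 172150) (nat_lit 27) (.e (nat_lit 336070) (nat_lit 8) (.e (nat_lit 327703) (nat_lit 10) (.e (nat_lit 5712) (nat_lit 312) .nil))))) .nil))) (.nd (nat_lit 5) 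
(.lf (nat_lit 119961) (.g (nat_lit 1120) (.e (nat_lit 6717) (nat_lit 361) (.e (nat_lit 172067) (nat_lit 3) (.e (nat_lit 204816) (nat_lit 17) .nil))) .nil)) 
(.lf (nat_lit 119993) (.g (nat_lit 1162) (.e (nat_lit 6718) (nat_lit 361) (.e (nat_lit 172076) (nat_lit 6) (.e (nat_lit 253990) (nat_lit 11) (.e (nat_lit 16465) (nat_lit 13) (.e (nat_lit 491264) (nat_lit 17) .nil))))) (.g (nat_lit 4) .nil .nil)))))) (.nd (nat_lit 3) (.nd (nat_lit 4) (.nd (nat_lit 5) 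
(.lf (nat_lit 119941) (.g (nat_lit 1076) (.e (nat_lit 6714) (nat_lit 360) (.e (nat_lit 163975) (nat_lit 30) (.e (nat_lit 573456) (nat_lit 9) (.e (nat_lit 1669) (nat_lit 116) .nil)))) .nil)) 
(.lf (nat_lit 119973) (.g (nat_lit 1091) (.e (nat_lit 6717) (nat_lit 361) (.e (nat_lit 172150) (nat_lit 27) (.e (nat_lit 336067) (nat_lit 8) (.e (nat_lit 327705) (nat_lit 10) (.e (nat_lit 5721) (nat_lit 312) .nil))))) .nil))) (.nd (nat_lit 5) 
(.lf (nat_lit 119957) (.g (nat_lit 1128) (.e (nat_lit 6716) (nat_lit 361) (.e (nat_lit 172074) (nat_lit 6) (.e (nat_lit 253990) (nat_lit 11) (.e (nat_lit 16465) (nat_lit 13) (.e (nat_lit 491264) (nat_lit 17) .nil))))) .nil)) 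
(.lf (nat_lit 119989) (.g (nat_lit 1944) (.e (nat_lit 6718) (nat_lit 361) (.e (nat_lit 172076) (nat_lit 6) (.e (nat_lit 253988) (nat_lit 11) (.e (nat_lit 16465) (nat_lit 13) (.e (nat_lit 483343) (nat_lit 17) .nil))))) (.g (nat_lit 0) .nil .nil))))) (.nd (nat_lit 4) (.nd (nat_lit 5) 
(.lf (nat_lit 119949) (.g (nat_lit 2339) (.e (nat_lit 6715) (nat_lit 361) (.e (nat_lit 172067) (nat_lit 3) (.e (nat_lit 204885) (nat_lit 33) (.e (nat_lit 401448) (nat_lit 10) .nil)))) .nil)) 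
(.lf (nat_lit 119981) (.g (nat_lit 1344) (.e (nat_lit 6717) (nat_lit 361) (.e (nat_lit 172150) (nat_lit 27) (.e (nat_lit 336070) (nat_lit 8) (.e (nat_lit 327705) (nat_lit 10) (.e (nat_lit 5722) (nat_lit 312) .nil))))) .nil))) (.nd (nat_lit 5) 
(.lf (nat_lit 119965) (.g (nat_lit 2668) (.e (nat_lit 6717) (nat_lit 361) (.e (nat_lit 172067) (nat_lit 3) (.e (nat_lit 204846) (nat_lit 24) (.e (nat_lit 319505) (nat_lit 10) (.e (nat_lit 5714) (nat_lit 312) .nil))))) .nil)) 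
(.lf (nat_lit 119997) (.g (nat_lit 4102) (.e (nat_lit 6718) (nat_lit 361) (.e (nat_lit 172133) (nat_lit 15) (.e (nat_lit 1856) (nat_lit 124) (.e (nat_lit 557101) (nat_lit 13) (.e (nat_lit 172115) (nat_lit 10) (.e (nat_lit 434231) (nat_lit 23) (.e (nat_lit 532481) (nat_lit 0) .nil))))))) (.g (nat_lit 0) .nil .nil))))))) (.nd (nat_lit 2) (.nd (nat_lit 3) (.nd (nat_lit 4) (.nd (nat_lit 5) 
(.lf (nat_lit 119939) (.g (nat_lit 1346) (.e (nat_lit 6714) (nat_lit 360) (.e (nat_lit 163964) (nat_lit 25) (.e (nat_lit 532550) (nat_lit 12) (.e (nat_lit 360474) (nat_lit 8) .nil)))) .nil)) 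
(.lf (nat_lit 119971) (.g (nat_lit 1770) (.e (nat_lit 6717) (nat_lit 361) (.e (nat_lit 172067) (nat_lit 3) (.e (nat_lit 204849) (nat_lit 25) (.e (nat_lit 327718) (nat_lit 19) .nil)))) .nil))) (.nd (nat_lit 5) 
(.lf (nat_lit 119955) (.g (nat_lit 842) (.e (nat_lit 6716) (nat_lit 361) (.e (nat_lit 172067) (nat_lit 3) (.e (nat_lit 204849) (nat_lit 25) .nil))) .nil)) 
(.lf (nat_lit 119987) (.g (nat_lit 3138) (.e (nat_lit 6717) (nat_lit 361) (.e (nat_lit 172150) (nat_lit 27) (.e (nat_lit 336204) (nat_lit 12) (.e (nat_lit 385106) (nat_lit 50) (.e (nat_lit 786473) (nat_lit 27) (.e (nat_lit 335872) (nat_lit 0) .nil)))))) (.g (nat_lit 5) .nil .nil))))) (.nd (nat_lit 4) (.nd (nat_lit 5) 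
(.lf (nat_lit 119947) (.g (nat_lit 1105) (.e (nat_lit 7936) (nat_lit 360) (.e (nat_lit 164238) (nat_lit 187) (.e (nat_lit 1253) (nat_lit 92) (.e (nat_lit 98372) (nat_lit 29) .nil)))) .nil)) 
(.lf (nat_lit 119979) (.g (nat_lit 923) (.e (nat_lit 6717) (nat_lit 361) (.e (nat_lit 172150) (nat_lit 27) (.e (nat_lit 336070) (nat_lit 8) (.e (nat_lit 327704) (nat_lit 10) .nil)))) .nil))) (.nd (nat_lit 5) 
(.lf (nat_lit 119963) (.g (nat_lit 4531) (.e (nat_lit 6717) (nat_lit 361) (.e (nat_lit 172067) (nat_lit 3) (.e (nat_lit 204846) (nat_lit 24) (.e (nat_lit 319504) (nat_lit 10) (.e (nat_lit 5714) (nat_lit 312) (.e (nat_lit 2664) (nat_lit 167) (.e (nat_lit 196628) (nat_lit 9) (.e (nat_lit 968) (nat_lit 81) .nil)))))))) (.g (nat_lit 6) .nil .nil))) 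
(.lf (nat_lit 119995) (.g (nat_lit 3729) (.e (nat_lit 6718) (nat_lit 361) (.e (nat_lit 172133) (nat_lit 15) (.e (nat_lit 1856) (nat_lit 124) (.e (nat_lit 557098) (nat_lit 13) (.e (nat_lit 172115) (nat_lit 10) (.e (nat_lit 434231) (nat_lit 23) (.e (nat_lit 532481) (nat_lit 0) .nil))))))) (.g (nat_lit 7) .nil .nil)))))) (.nd (nat_lit 3) (.nd (nat_lit 4) (.nd (nat_lit 5) 
(.lf (nat_lit 119943) (.g (nat_lit 3787) (.e (nat_lit 6714) (nat_lit 360) (.e (nat_lit 163990) (nat_lit 34) (.e (nat_lit 606226) (nat_lit 4) (.e (nat_lit 65630) (nat_lit 14) (.e (nat_lit 401459) (nat_lit 13) (.e (nat_lit 483344) (nat_lit 17) .nil)))))) (.g (nat_lit 0) .nil .nil))) 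
(.lf (nat_lit 119975) (.g (nat_lit 1119) (.e (nat_lit 6717) (nat_lit 361) (.e (nat_lit 172150) (nat_lit 27) (.e (nat_lit 336067) (nat_lit 8) (.e (nat_lit 327705) (nat_lit 10) (.e (nat_lit 5722) (nat_lit 312) .nil))))) .nil))) (.nd (nat_lit 5) 
(.lf (nat_lit 119959) (.g (nat_lit 1234) (.e (nat_lit 6716) (nat_lit 361) (.e (nat_lit 172076) (nat_lit 6) (.e (nat_lit 253988) (nat_lit 11) (.e (nat_lit 16465) (nat_lit 13) (.e (nat_lit 491264) (nat_lit 17) .nil))))) (.g (nat_lit 4) .nil .nil))) 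
(.lf (nat_lit 119991) (.g (nat_lit 795) (.e (nat_lit 6718) (nat_lit 361) (.e (nat_lit 172076) (nat_lit 6) (.e (nat_lit 253989) (nat_lit 11) (.e (nat_lit 16465) (nat_lit 13) (.e (nat_lit 491264) (nat_lit 17) .nil))))) (.g (nat_lit 4) .nil .nil))))) (.nd (nat_lit 4) (.nd (nat_lit 5) 
(.lf (nat_lit 119951) (.g (nat_lit 1992) (.e (nat_lit 6716) (nat_lit 361) (.e (nat_lit 172067) (nat_lit 3) (.e (nat_lit 204846) (nat_lit 24) (.e (nat_lit 319504) (nat_lit 10) .nil)))) .nil)) 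
(.lf (nat_lit 119983) (.g (nat_lit 3082) (.e (nat_lit 6717) (nat_lit 361) (.e (nat_lit 172150) (nat_lit 27) (.e (nat_lit 336193) (nat_lit 12) (.e (nat_lit 385105) (nat_lit 50) (.e (nat_lit 786473) (nat_lit 27) (.e (nat_lit 335872) (nat_lit 0) .nil)))))) (.g (nat_lit 5) .nil .nil)))) (.nd (nat_lit 5) 
(.lf (nat_lit 119967) (.g (nat_lit 3304) (.e (nat_lit 6717) (nat_lit 361) (.e (nat_lit 172067) (nat_lit 3) (.e (nat_lit 204846) (nat_lit 24) (.e (nat_lit 319537) (nat_lit 19) (.e (nat_lit 311312) (nat_lit 2) (.e (nat_lit 196628) (nat_lit 9) (.e (nat_lit 968) (nat_lit 81) .nil))))))) (.g (nat_lit 4) .nil .nil))) 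
(.lf (nat_lit 119999) (.g (nat_lit 4204) (.e (nat_lit 6718) (nat_lit 361) (.e (nat_lit 172133) (nat_lit 15) (.e (nat_lit 1856) (nat_lit 124) (.e (nat_lit 557109) (nat_lit 15) (.e (nat_lit 188452) (nat_lit 23) (.e (nat_lit 204816) (nat_lit 17) .nil)))))) (.g (nat_lit 0) .nil .nil)))))))))

noncomputable def tv1599 : DT := (.nd (nat_lit 0) (.nd (nat_lit 1) (.nd (nat_lit 2) (.nd (nat_lit 3) (.nd (nat_lit 4) (.nd (nat_lit 5) 
(.lf (nat_lit 120000) (.g (nat_lit 773) (.e (nat_lit 6718) (nat_lit 361) (.e (nat_lit 172143) (nat_lit 25) (.e (nat_lit 319490) (nat_lit 0) (.e (nat_lit 5771) (nat_lit 316) (.e (nat_lit 172150) (nat_lit 27) .nil))))) .nil)) 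
(.lf (nat_lit 120032) (.g (nat_lit 293) (.e (nat_lit 6719) (nat_lit 361) (.e (nat_lit 172150) (nat_lit 27) (.e (nat_lit 336074) (nat_lit 9) .nil))) .nil))) (.nd (nat_lit 5) 
(.lf (nat_lit 120016) (.g (nat_lit 3870) (.e (nat_lit 6718) (nat_lit 361) (.e (nat_lit 172150) (nat_lit 27) (.e (nat_lit 336231) (nat_lit 14) (.e (nat_lit 401458) (nat_lit 13) (.e (nat_lit 483344) (nat_lit 17) .nil))))) (.g (nat_lit 0) .nil .nil))) 
(.lf (nat_lit 120048) (.g (nat_lit 2245) (.e (nat_lit 6720) (nat_lit 361) (.e (nat_lit 172150) (nat_lit 27) (.e (nat_lit 336229) (nat_lit 14) (.e (nat_lit 401459) (nat_lit 13) (.e (nat_lit 483343) (nat_lit 17) .nil))))) (.g (nat_lit 0) .nil .nil))))) (.nd (nat_lit 4) (.nd (nat_lit 5) 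
(.lf (nat_lit 120008) (.g (nat_lit 2720) (.e (nat_lit 6718) (nat_lit 361) (.e (nat_lit 172150) (nat_lit 27) (.e (nat_lit 336230) (nat_lit 14) (.e (nat_lit 401458) (nat_lit 13) (.e (nat_lit 483344) (nat_lit 17) .nil))))) (.g (nat_lit 5) .nil .nil))) 
(.lf (nat_lit 120040) (.g (nat_lit 1524) (.e (nat_lit 6720) (nat_lit 361) (.e (nat_lit 172074) (nat_lit 6) (.e (nat_lit 253988) (nat_lit 11) (.e (nat_lit 16465) (nat_lit 13) (.e (nat_lit 491264) (nat_lit 17) .nil))))) (.g (nat_lit 4) .nil .nil)))) (.nd (nat_lit 5) 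
(.lf (nat_lit 120024) (.g (nat_lit 1052) (.e (nat_lit 6719) (nat_lit 361) (.e (nat_lit 172150) (nat_lit 27) (.e (nat_lit 335895) (nat_lit 0) (.e (nat_lit 6506) (nat_lit 344) .nil)))) .nil)) 
(.lf (nat_lit 120056) (.g (nat_lit 2709) (.e (nat_lit 6720) (nat_lit 361) (.e (nat_lit 172150) (nat_lit 27) (.e (nat_lit 336231) (nat_lit 14) (.e (nat_lit 401458) (nat_lit 13) (.e (nat_lit 483343) (nat_lit 17) .nil))))) (.g (nat_lit 4) .nil .nil)))))) (.nd (nat_lit 3) (.nd (nat_lit 4) (.nd (nat_lit 5) 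
(.lf (nat_lit 120004) (.g (nat_lit 2163) (.e (nat_lit 6718) (nat_lit 361) (.e (nat_lit 172150) (nat_lit 27) (.e (nat_lit 336229) (nat_lit 14) (.e (nat_lit 401458) (nat_lit 13) (.e (nat_lit 483343) (nat_lit 17) .nil))))) (.g (nat_lit 4) .nil .nil))) 
(.lf (nat_lit 120036) (.g (nat_lit 2264) (.e (nat_lit 6719) (nat_lit 361) (.e (nat_lit 172150) (nat_lit 27) (.e (nat_lit 336195) (nat_lit 12) (.e (nat_lit 385105) (nat_lit 50) (.e (nat_lit 786473) (nat_lit 27) (.e (nat_lit 335872) (nat_lit 0) .nil)))))) (.g (nat_lit 6) .nil .nil)))) (.nd (nat_lit 5) 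
(.lf (nat_lit 120020) (.g (nat_lit 3133) (.e (nat_lit 6719) (nat_lit 361) (.e (nat_lit 172133) (nat_lit 15) (.e (nat_lit 1856) (nat_lit 124) (.e (nat_lit 557109) (nat_lit 15) (.e (nat_lit 188449) (nat_lit 22) (.e (nat_lit 196628) (nat_lit 9) (.e (nat_lit 968) (nat_lit 81) .nil))))))) (.g (nat_lit 0) .nil .nil))) 
(.lf (nat_lit 120052) (.g (nat_lit 2303) (.e (nat_lit 6720) (nat_lit 361) (.e (nat_lit 172150) (nat_lit 27) (.e (nat_lit 336231) (nat_lit 14) (.e (nat_lit 401434) (nat_lit 9) (.e (nat_lit 426528) (nat_lit 27) (.e (nat_lit 335895) (nat_lit 0) .nil)))))) (.g (nat_lit 5) .nil .nil))))) (.nd (nat_lit 4) (.nd (nat_lit 5) 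
(.lf (nat_lit 120012) (.g (nat_lit 2004) (.e (nat_lit 6718) (nat_lit 361) (.e (nat_lit 172150) (nat_lit 27) (.e (nat_lit 336231) (nat_lit 14) (.e (nat_lit 401440) (nat_lit 9) (.e (nat_lit 426528) (nat_lit 27) (.e (nat_lit 335892) (nat_lit 0) .nil)))))) (.g (nat_lit 4) .nil .nil))) 
(.lf (nat_lit 120044) (.g (nat_lit 2810) (.e (nat_lit 6720) (nat_lit 361) (.e (nat_lit 179968) (nat_lit 15) (.e (nat_lit 1859) (nat_lit 124) (.e (nat_lit 557109) (nat_lit 15) (.e (nat_lit 188458) (nat_lit 25) (.e (nat_lit 245784) (nat_lit 9) (.e (nat_lit 989) (nat_lit 81) .nil))))))) (.g (nat_lit 6) .nil .nil)))) (.nd (nat_lit 5) 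
(.lf (nat_lit 120028) (.g (nat_lit 1496) (.e (nat_lit 6719) (nat_lit 361) (.e (nat_lit 172150) (nat_lit 27) (.e (nat_lit 336070) (nat_lit 8) (.e (nat_lit 327703) (nat_lit 10) (.e (nat_lit 5712) (nat_lit 312) .nil))))) .nil)) 
(.lf (nat_lit 120060) (.g (nat_lit 1038) (.e (nat_lit 7936) (nat_lit 361) (.e (nat_lit 172064) (nat_lit 2) (.e (nat_lit 196628) (nat_lit 9) (.e (nat_lit 968) (nat_lit 81) (.e (nat_lit 6723) (nat_lit 362) .nil))))) .nil)))))) (.nd (nat_lit 2) (.nd (nat_lit 3) (.nd (nat_lit 4) (.nd (nat_lit 5) 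
(.lf (nat_lit 120002) (.g (nat_lit 2295) (.e (nat_lit 6718) (nat_lit 361) (.e (nat_lit 172150) (nat_lit 27) (.e (nat_lit 336226) (nat_lit 14) (.e (nat_lit 401459) (nat_lit 13) (.e (nat_lit 483343) (nat_lit 17) .nil))))) (.g (nat_lit 5) .nil .nil))) 
(.lf (nat_lit 120034) (.g (nat_lit 3120) (.e (nat_lit 6719) (nat_lit 361) (.e (nat_lit 172150) (nat_lit 27) (.e (nat_lit 336193) (nat_lit 12) (.e (nat_lit 385105) (nat_lit 50) (.e (nat_lit 786473) (nat_lit 27) (.e (nat_lit 335872) (nat_lit 0) .nil)))))) (.g (nat_lit 6) .nil .nil)))) (.nd (nat_lit 5) 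
(.lf (nat_lit 120018) (.g (nat_lit 1257) (.e (nat_lit 6719) (nat_lit 361) (.e (nat_lit 172074) (nat_lit 6) (.e (nat_lit 253988) (nat_lit 11) (.e (nat_lit 16465) (nat_lit 13) (.e (nat_lit 491264) (nat_lit 17) .nil))))) (.g (nat_lit 4) .nil .nil))) 
(.lf (nat_lit 120050) (.g (nat_lit 2539) (.e (nat_lit 6720) (nat_lit 361) (.e (nat_lit 172150) (nat_lit 27) (.e (nat_lit 336230) (nat_lit 14) (.e (nat_lit 401458) (nat_lit 13) (.e (nat_lit 483344) (nat_lit 17) .nil))))) (.g (nat_lit 5) .nil .nil))))) (.nd (nat_lit 4) (.nd (nat_lit 5) 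
(.lf (nat_lit 120010) (.g (nat_lit 2211) (.e (nat_lit 6718) (nat_lit 361) (.e (nat_lit 172150) (nat_lit 27) (.e (nat_lit 336231) (nat_lit 14) (.e (nat_lit 401434) (nat_lit 9) (.e (nat_lit 426528) (nat_lit 27) .nil))))) .nil)) 
(.lf (nat_lit 120042) (.g (nat_lit 1067) (.e (nat_lit 6720) (nat_lit 361) (.e (nat_lit 172074) (nat_lit 6) (.e (nat_lit 253991) (nat_lit 11) (.e (nat_lit 16465) (nat_lit 13) .nil)))) .nil))) (.nd (nat_lit 5) 
(.lf (nat_lit 120026) (.g (nat_lit 1077) (.e (nat_lit 6719) (nat_lit 361) (.e (nat_lit 172150) (nat_lit 27) (.e (nat_lit 336067) (nat_lit 8) (.e (nat_lit 327705) (nat_lit 10) (.e (nat_lit 5722) (nat_lit 312) .nil))))) .nil)) 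
(.lf (nat_lit 120058) (.g (nat_lit 1986) (.e (nat_lit 6720) (nat_lit 361) (.e (nat_lit 172150) (nat_lit 27) (.e (nat_lit 336232) (nat_lit 14) (.e (nat_lit 401444) (nat_lit 9) (.e (nat_lit 426503) (nat_lit 27) (.e (nat_lit 335892) (nat_lit 0) .nil)))))) (.g (nat_lit 4) .nil .nil)))))) (.nd (nat_lit 3) (.nd (nat_lit 4) (.nd (nat_lit 5) 
(.lf (nat_lit 120006) (.g (nat_lit 3297) (.e (nat_lit 6718) (nat_lit 361) (.e (nat_lit 172150) (nat_lit 27) (.e (nat_lit 336229) (nat_lit 14) (.e (nat_lit 401459) (nat_lit 13) (.e (nat_lit 483344) (nat_lit 17) .nil))))) (.g (nat_lit 0) .nil .nil))) 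
(.lf (nat_lit 120038) (.g (nat_lit 2780) (.e (nat_lit 6719) (nat_lit 361) (.e (nat_lit 172150) (nat_lit 27) (.e (nat_lit 336203) (nat_lit 12) (.e (nat_lit 385105) (nat_lit 50) (.e (nat_lit 786473) (nat_lit 27) (.e (nat_lit 335872) (nat_lit 0) .nil)))))) (.g (nat_lit 6) .nil .nil)))) (.nd (nat_lit 5) 
(.lf (nat_lit 120022) (.g (nat_lit 852) (.e (nat_lit 6719) (nat_lit 361) (.e (nat_lit 172148) (nat_lit 27) (.e (nat_lit 336193) (nat_lit 12) (.e (nat_lit 385105) (nat_lit 50) .nil)))) .nil)) 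
(.lf (nat_lit 120054) (.g (nat_lit 3406) (.e (nat_lit 6720) (nat_lit 361) (.e (nat_lit 172150) (nat_lit 27) (.e (nat_lit 336231) (nat_lit 14) (.e (nat_lit 401444) (nat_lit 9) (.e (nat_lit 426503) (nat_lit 27) (.e (nat_lit 335894) (nat_lit 0) .nil)))))) (.g (nat_lit 6) .nil .nil))))) (.nd (nat_lit 4) (.nd (nat_lit 5) 
(.lf (nat_lit 120014) (.g (nat_lit 2720) (.e (nat_lit 6718) (nat_lit 361) (.e (nat_lit 172150) (nat_lit 27) (.e (nat_lit 336231) (nat_lit 14) (.e (nat_lit 401458) (nat_lit 13) (.e (nat_lit 483342) (nat_lit 17) .nil))))) .nil)) 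
(.lf (nat_lit 120046) (.g (nat_lit 2183) (.e (nat_lit 6720) (nat_lit 361) (.e (nat_lit 172150) (nat_lit 27) (.e (nat_lit 336226) (nat_lit 14) (.e (nat_lit 401459) (nat_lit 13) (.e (nat_lit 483343) (nat_lit 17) .nil))))) (.g (nat_lit 5) .nil .nil)))) (.nd (nat_lit 5) 
(.lf (nat_lit 120030) (.g (nat_lit 1291) (.e (nat_lit 6719) (nat_lit 361) (.e (nat_lit 172150) (nat_lit 27) (.e (nat_lit 336070) (nat_lit 8) (.e (nat_lit 327705) (nat_lit 10) (.e (nat_lit 5721) (nat_lit 312) .nil))))) .nil)) 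
(.lf (nat_lit 120062) (.g (nat_lit 1459) (.e (nat_lit 7936) (nat_lit 361) (.e (nat_lit 172074) (nat_lit 6) (.e (nat_lit 253991) (nat_lit 11) (.e (nat_lit 16462) (nat_lit 13) (.e (nat_lit 483349) (nat_lit 17) .nil))))) .nil))))))) (.nd (nat_lit 1) (.nd (nat_lit 2) (.nd (nat_lit 3) (.nd (nat_lit 4) (.nd (nat_lit 5) 
(.lf (nat_lit 120001) (.g (nat_lit 2791) (.e (nat_lit 6718) (nat_lit 361) (.e (nat_lit 172148) (nat_lit 27) (.e (nat_lit 336226) (nat_lit 14) (.e (nat_lit 401459) (nat_lit 13) (.e (nat_lit 483344) (nat_lit 17) .nil))))) (.g (nat_lit 0) .nil .nil))) 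
(.lf (nat_lit 120033) (.g (nat_lit 1075) (.e (nat_lit 6719) (nat_lit 361) (.e (nat_lit 172150) (nat_lit 27) (.e (nat_lit 336078) (nat_lit 9) (.e (nat_lit 336263) (nat_lit 15) .nil)))) .nil))) (.nd (nat_lit 5) 
(.lf (nat_lit 120017) (.g (nat_lit 1060) (.e (nat_lit 6718) (nat_lit 361) (.e (nat_lit 172150) (nat_lit 27) (.e (nat_lit 343808) (nat_lit 14) (.e (nat_lit 401459) (nat_lit 13) (.e (nat_lit 483343) (nat_lit 17) .nil))))) (.g (nat_lit 4) .nil .nil))) 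
(.lf (nat_lit 120049) (.g (nat_lit 3167) (.e (nat_lit 6720) (nat_lit 361) (.e (nat_lit 172150) (nat_lit 27) (.e (nat_lit 336229) (nat_lit 14) (.e (nat_lit 401459) (nat_lit 13) (.e (nat_lit 483344) (nat_lit 17) .nil))))) (.g (nat_lit 0) .nil .nil))))) (.nd (nat_lit 4) (.nd (nat_lit 5) 
(.lf (nat_lit 120009) (.g (nat_lit 2222) (.e (nat_lit 6718) (nat_lit 361) (.e (nat_lit 172150) (nat_lit 27) (.e (nat_lit 336231) (nat_lit 14) (.e (nat_lit 401434) (nat_lit 9) (.e (nat_lit 426499) (nat_lit 27) .nil))))) .nil)) 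
(.lf (nat_lit 120041) (.g (nat_lit 1526) (.e (nat_lit 6720) (nat_lit 361) (.e (nat_lit 172074) (nat_lit 6) (.e (nat_lit 253990) (nat_lit 11) (.e (nat_lit 16465) (nat_lit 13) (.e (nat_lit 491264) (nat_lit 17) .nil))))) (.g (nat_lit 4) .nil .nil)))) (.nd (nat_lit 5) 
(.lf (nat_lit 120025) (.g (nat_lit 1049) (.e (nat_lit 6719) (nat_lit 361) (.e (nat_lit 172150) (nat_lit 27) (.e (nat_lit 336067) (nat_lit 8) (.e (nat_lit 327705) (nat_lit 10) (.e (nat_lit 5721) (nat_lit 312) .nil))))) .nil)) 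
(.lf (nat_lit 120057) (.g (nat_lit 883) (.e (nat_lit 6720) (nat_lit 361) (.e (nat_lit 172150) (nat_lit 27) (.e (nat_lit 336232) (nat_lit 14) (.e (nat_lit 401440) (nat_lit 9) .nil)))) .nil))))) (.nd (nat_lit 3) (.nd (nat_lit 4) (.nd (nat_lit 5) 
(.lf (nat_lit 120005) (.g (nat_lit 2374) (.e (nat_lit 6718) (nat_lit 361) (.e (nat_lit 172150) (nat_lit 27) (.e (nat_lit 336229) (nat_lit 14) (.e (nat_lit 401459) (nat_lit 13) (.e (nat_lit 483343) (nat_lit 17) .nil))))) (.g (nat_lit 0) .nil .nil))) 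
(.lf (nat_lit 120037) (.g (nat_lit 2955) (.e (nat_lit 6719) (nat_lit 361) (.e (nat_lit 172150) (nat_lit 27) (.e (nat_lit 336196) (nat_lit 12) (.e (nat_lit 385105) (nat_lit 50) (.e (nat_lit 786473) (nat_lit 27) (.e (nat_lit 335872) (nat_lit 0) .nil)))))) (.g (nat_lit 6) .nil .nil)))) (.nd (nat_lit 5) 
(.lf (nat_lit 120021) (.g (nat_lit 2756) (.e (nat_lit 6719) (nat_lit 361) (.e (nat_lit 172147) (nat_lit 27) (.e (nat_lit 336193) (nat_lit 12) (.e (nat_lit 385105) (nat_lit 50) (.e (nat_lit 786473) (nat_lit 27) (.e (nat_lit 335872) (nat_lit 0) .nil)))))) (.g (nat_lit 5) .nil .nil))) 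
(.lf (nat_lit 120053) (.g (nat_lit 1941) (.e (nat_lit 6720) (nat_lit 361) (.e (nat_lit 172150) (nat_lit 27) (.e (nat_lit 336231) (nat_lit 14) (.e (nat_lit 401440) (nat_lit 9) (.e (nat_lit 426528) (nat_lit 27) (.e (nat_lit 335892) (nat_lit 0) .nil)))))) (.g (nat_lit 6) .nil .nil))))) (.nd (nat_lit 4) (.nd (nat_lit 5) 
(.lf (nat_lit 120013) (.g (nat_lit 2127) (.e (nat_lit 6718) (nat_lit 361) (.e (nat_lit 172150) (nat_lit 27) (.e (nat_lit 336231) (nat_lit 14) (.e (nat_lit 401440) (nat_lit 9) (.e (nat_lit 426528) (nat_lit 27) (.e (nat_lit 335893) (nat_lit 0) .nil)))))) (.g (nat_lit 5) .nil .nil))) 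
(.lf (nat_lit 120045) (.g (nat_lit 2421) (.e (nat_lit 6720) (nat_lit 361) (.e (nat_lit 172149) (nat_lit 27) (.e (nat_lit 336235) (nat_lit 14) (.e (nat_lit 401459) (nat_lit 13) (.e (nat_lit 483343) (nat_lit 17) .nil))))) (.g (nat_lit 0) .nil .nil)))) (.nd (nat_lit 5) 
(.lf (nat_lit 120029) (.g (nat_lit 1559) (.e (nat_lit 6719) (nat_lit 361) (.e (nat_lit 172150) (nat_lit 27) (.e (nat_lit 336070) (nat_lit 8) (.e (nat_lit 327703) (nat_lit 10) (.e (nat_lit 5712) (nat_lit 312) (.e (nat_lit 280) (nat_lit 21) (.e (nat_lit 335874) (nat_lit 0) .nil))))))) (.g (nat_lit 4) .nil .nil))) 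
(.lf (nat_lit 120061) (.g (nat_lit 1189) (.e (nat_lit 7936) (nat_lit 361) (.e (nat_lit 172074) (nat_lit 6) (.e (nat_lit 253988) (nat_lit 11) (.e (nat_lit 16465) (nat_lit 13) (.e (nat_lit 483361) (nat_lit 17) .nil))))) .nil)))))) (.nd (nat_lit 2) (.nd (nat_lit 3) (.nd (nat_lit 4) (.nd (nat_lit 5) 
(.lf (nat_lit 120003) (.g (nat_lit 2883) (.e (nat_lit 6718) (nat_lit 361) (.e (nat_lit 172150) (nat_lit 27) (.e (nat_lit 336226) (nat_lit 14) (.e (nat_lit 401459) (nat_lit 13) (.e (nat_lit 483344) (nat_lit 17) .nil))))) (.g (nat_lit 5) .nil .nil))) 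
(.lf (nat_lit 120035) (.g (nat_lit 3087) (.e (nat_lit 6719) (nat_lit 361) (.e (nat_lit 172150) (nat_lit 27) (.e (nat_lit 336194) (nat_lit 12) (.e (nat_lit 385105) (nat_lit 50) (.e (nat_lit 786473) (nat_lit 27) (.e (nat_lit 335872) (nat_lit 0) .nil)))))) (.g (nat_lit 6) .nil .nil)))) (.nd (nat_lit 5) 
(.lf (nat_lit 120019) (.g (nat_lit 1203) (.e (nat_lit 6719) (nat_lit 361) (.e (nat_lit 172074) (nat_lit 6) (.e (nat_lit 253990) (nat_lit 11) (.e (nat_lit 16465) (nat_lit 13) (.e (nat_lit 491264) (nat_lit 17) .nil))))) (.g (nat_lit 4) .nil .nil))) 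
(.lf (nat_lit 120051) (.g (nat_lit 1939) (.e (nat_lit 6720) (nat_lit 361) (.e (nat_lit 172150) (nat_lit 27) (.e (nat_lit 336231) (nat_lit 14) (.e (nat_lit 401434) (nat_lit 9) (.e (nat_lit 426528) (nat_lit 27) .nil))))) .nil)))) (.nd (nat_lit 4) (.nd (nat_lit 5) 
(.lf (nat_lit 120011) (.g (nat_lit 2721) (.e (nat_lit 6718) (nat_lit 361) (.e (nat_lit 172150) (nat_lit 27) (.e (nat_lit 336231) (nat_lit 14) (.e (nat_lit 401434) (nat_lit 9) (.e (nat_lit 426528) (nat_lit 27) (.e (nat_lit 335894) (nat_lit 0) .nil)))))) (.g (nat_lit 5) .nil .nil))) 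
(.lf (nat_lit 120043) (.g (nat_lit 4835) (.e (nat_lit 6720) (nat_lit 361) (.e (nat_lit 172133) (nat_lit 15) (.e (nat_lit 1855) (nat_lit 124) (.e (nat_lit 557109) (nat_lit 15) (.e (nat_lit 188452) (nat_lit 23) (.e (nat_lit 204816) (nat_lit 17) .nil)))))) (.g (nat_lit 5) .nil .nil)))) (.nd (nat_lit 5) 
(.lf (nat_lit 120027) (.g (nat_lit 831) (.e (nat_lit 6719) (nat_lit 361) (.e (nat_lit 172150) (nat_lit 27) (.e (nat_lit 336070) (nat_lit 8) (.e (nat_lit 327702) (nat_lit 10) .nil)))) .nil)) 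
(.lf (nat_lit 120059) (.g (nat_lit 942) (.e (nat_lit 6720) (nat_lit 361) (.e (nat_lit 172151) (nat_lit 35) (.e (nat_lit 401473) (nat_lit 29) (.e (nat_lit 352315) (nat_lit 23) (.e (nat_lit 106240) (nat_lit 0) .nil))))) (.g (nat_lit 4) .nil .nil)))))) (.nd (nat_lit 3) (.nd (nat_lit 4) (.nd (nat_lit 5) 
(.lf (nat_lit 120007) (.g (nat_lit 1811) (.e (nat_lit 6718) (nat_lit 361) (.e (nat_lit 172150) (nat_lit 27) (.e (nat_lit 336230) (nat_lit 14) (.e (nat_lit 401458) (nat_lit 13) (.e (nat_lit 483343) (nat_lit 17) .nil))))) (.g (nat_lit 4) .nil .nil))) 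
(.lf (nat_lit 120039) (.g (nat_lit 3223) (.e (nat_lit 6719) (nat_lit 361) (.e (nat_lit 172150) (nat_lit 27) (.e (nat_lit 336204) (nat_lit 12) (.e (nat_lit 385106) (nat_lit 50) (.e (nat_lit 786473) (nat_lit 27) (.e (nat_lit 335872) (nat_lit 0) .nil)))))) (.g (nat_lit 6) .nil .nil)))) (.nd (nat_lit 5) 
(.lf (nat_lit 120023) (.g (nat_lit 2570) (.e (nat_lit 6719) (nat_lit 361) (.e (nat_lit 172149) (nat_lit 27) (.e (nat_lit 336235) (nat_lit 14) (.e (nat_lit 401437) (nat_lit 9) (.e (nat_lit 426530) (nat_lit 27) (.e (nat_lit 335872) (nat_lit 0) .nil)))))) (.g (nat_lit 6) .nil .nil))) 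
(.lf (nat_lit 120055) (.g (nat_lit 2508) (.e (nat_lit 6720) (nat_lit 361) (.e (nat_lit 172150) (nat_lit 27) (.e (nat_lit 336231) (nat_lit 14) (.e (nat_lit 401458) (nat_lit 13) (.e (nat_lit 483342) (nat_lit 17) .nil))))) .nil)))) (.nd (nat_lit 4) (.nd (nat_lit 5) 
(.lf (nat_lit 120015) (.g (nat_lit 3068) (.e (nat_lit 6718) (nat_lit 361) (.e (nat_lit 172150) (nat_lit 27) (.e (nat_lit 336231) (nat_lit 14) (.e (nat_lit 401458) (nat_lit 13) (.e (nat_lit 483343) (nat_lit 17) .nil))))) (.g (nat_lit 4) .nil .nil))) 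
(.lf (nat_lit 120047) (.g (nat_lit 1780) (.e (nat_lit 6720) (nat_lit 361) (.e (nat_lit 172150) (nat_lit 27) (.e (nat_lit 336229) (nat_lit 14) (.e (nat_lit 401458) (nat_lit 13) (.e (nat_lit 483342) (nat_lit 17) .nil))))) .nil))) (.nd (nat_lit 5) 
(.lf (nat_lit 120031) (.g (nat_lit 1288) (.e (nat_lit 6719) (nat_lit 361) (.e (nat_lit 172150) (nat_lit 27) (.e (nat_lit 336070) (nat_lit 8) (.e (nat_lit 327705) (nat_lit 10) (.e (nat_lit 5722) (nat_lit 312) .nil))))) .nil)) 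
(.lf (nat_lit 120063) (.g (nat_lit 1459) (.e (nat_lit 7936) (nat_lit 361) (.e (nat_lit 172074) (nat_lit 6) (.e (nat_lit 253991) (nat_lit 11) (.e (nat_lit 16462) (nat_lit 13) (.e (nat_lit 483361) (nat_lit 17) .nil))))) .nil))))))))

noncomputable def tv1600 : DT := (.nd (nat_lit 0) (.nd (nat_lit 1) (.nd (nat_lit 2) (.nd (nat_lit 3) (.nd (nat_lit 4) (.nd (nat_lit 5) (.nd (nat_lit 6) 
(.lf (nat_lit 120064) (.g (nat_lit 926) (.e (nat_lit 7936) (nat_lit 361) (.e (nat_lit 172074) (nat_lit 6) (.e (nat_lit 253991) (nat_lit 11) (.e (nat_lit 16466) (nat_lit 13) .nil)))) .nil)) 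
(.lf (nat_lit 120128) (.g (nat_lit 2392) (.e (nat_lit 6722) (nat_lit 362) (.e (nat_lit 180245) (nat_lit 5) (.e (nat_lit 532523) (nat_lit 7) (.e (nat_lit 319537) (nat_lit 19) (.e (nat_lit 311315) (nat_lit 3) (.e (nat_lit 204816) (nat_lit 17) .nil)))))) (.g (nat_lit 5) .nil .nil)))) (.nd (nat_lit 6) 
(.lf (nat_lit 120096) (.g (nat_lit 2673) (.e (nat_lit 6721) (nat_lit 362) (.e (nat_lit 180252) (nat_lit 10) (.e (nat_lit 573471) (nat_lit 11) (.e (nat_lit 16436) (nat_lit 9) (.e (nat_lit 426128) (nat_lit 2) (.e (nat_lit 196628) (nat_lit 9) (.e (nat_lit 970) (nat_lit 81) .nil))))))) (.g (nat_lit 4) .nil .nil))) 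
(.lf (nat_lit 120160) (.g (nat_lit 1762) (.e (nat_lit 6723) (nat_lit 362) (.e (nat_lit 180243) (nat_lit 5) (.e (nat_lit 532481) (nat_lit 0) (.e (nat_lit 6722) (nat_lit 362) .nil)))) .nil)))) (.nd (nat_lit 5) (.nd (nat_lit 6) 
(.lf (nat_lit 120080) (.g (nat_lit 3153) (.e (nat_lit 6721) (nat_lit 362) (.e (nat_lit 180244) (nat_lit 5) (.e (nat_lit 532523) (nat_lit 7) (.e (nat_lit 319538) (nat_lit 19) (.e (nat_lit 311311) (nat_lit 2) .nil))))) .nil)) 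
(.lf (nat_lit 120144) (.g (nat_lit 2666) (.e (nat_lit 6722) (nat_lit 362) (.e (nat_lit 180271) (nat_lit 26) (.e (nat_lit 704737) (nat_lit 11) (.e (nat_lit 16431) (nat_lit 9) (.e (nat_lit 426496) (nat_lit 27) (.e (nat_lit 335894) (nat_lit 0) .nil)))))) (.g (nat_lit 5) .nil .nil)))) (.nd (nat_lit 6) 
(.lf (nat_lit 120112) (.g (nat_lit 2249) (.e (nat_lit 6722) (nat_lit 362) (.e (nat_lit 180243) (nat_lit 5) (.e (nat_lit 532569) (nat_lit 16) (.e (nat_lit 401448) (nat_lit 10) (.e (nat_lit 434231) (nat_lit 23) (.e (nat_lit 532482) (nat_lit 0) .nil)))))) (.g (nat_lit 4) .nil .nil))) 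
(.lf (nat_lit 120176) (.g (nat_lit 3071) (.e (nat_lit 6723) (nat_lit 362) (.e (nat_lit 180243) (nat_lit 5) (.e (nat_lit 532526) (nat_lit 8) (.e (nat_lit 327718) (nat_lit 19) (.e (nat_lit 311312) (nat_lit 2) (.e (nat_lit 196628) (nat_lit 9) (.e (nat_lit 968) (nat_lit 81) .nil))))))) (.g (nat_lit 7) .nil .nil)))))) (.nd (nat_lit 4) (.nd (nat_lit 5) (.nd (nat_lit 6) 
(.lf (nat_lit 120072) (.g (nat_lit 634) (.e (nat_lit 6721) (nat_lit 362) (.e (nat_lit 180243) (nat_lit 5) (.e (nat_lit 532569) (nat_lit 16) .nil))) .nil)) 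
(.lf (nat_lit 120136) (.g (nat_lit 627) (.e (nat_lit 6722) (nat_lit 362) (.e (nat_lit 180269) (nat_lit 25) (.e (nat_lit 696344) (nat_lit 8) (.e (nat_lit 172033) (nat_lit 0) .nil)))) .nil))) (.nd (nat_lit 6) 
(.lf (nat_lit 120104) (.g (nat_lit 1764) (.e (nat_lit 6721) (nat_lit 362) (.e (nat_lit 180271) (nat_lit 26) (.e (nat_lit 704738) (nat_lit 11) (.e (nat_lit 16432) (nat_lit 9) (.e (nat_lit 426530) (nat_lit 27) .nil))))) .nil)) 
(.lf (nat_lit 120168) (.g (nat_lit 1643) (.e (nat_lit 6723) (nat_lit 362) (.e (nat_lit 180243) (nat_lit 5) (.e (nat_lit 532501) (nat_lit 1) (.e (nat_lit 57647) (nat_lit 146) .nil)))) .nil)))) (.nd (nat_lit 5) (.nd (nat_lit 6) 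
(.lf (nat_lit 120088) (.g (nat_lit 2416) (.e (nat_lit 6721) (nat_lit 362) (.e (nat_lit 180250) (nat_lit 10) (.e (nat_lit 573471) (nat_lit 11) (.e (nat_lit 16433) (nat_lit 9) (.e (nat_lit 426128) (nat_lit 2) .nil))))) .nil)) 
(.lf (nat_lit 120152) (.g (nat_lit 2336) (.e (nat_lit 6722) (nat_lit 362) (.e (nat_lit 180271) (nat_lit 26) (.e (nat_lit 704738) (nat_lit 11) (.e (nat_lit 16444) (nat_lit 9) (.e (nat_lit 426503) (nat_lit 27) (.e (nat_lit 335895) (nat_lit 0) .nil)))))) (.g (nat_lit 6) .nil .nil)))) (.nd (nat_lit 6) 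
(.lf (nat_lit 120120) (.g (nat_lit 3118) (.e (nat_lit 6722) (nat_lit 362) (.e (nat_lit 180244) (nat_lit 5) (.e (nat_lit 532523) (nat_lit 7) (.e (nat_lit 319538) (nat_lit 19) (.e (nat_lit 311312) (nat_lit 2) .nil))))) .nil)) 
(.lf (nat_lit 120184) (.g (nat_lit 2561) (.e (nat_lit 6723) (nat_lit 362) (.e (nat_lit 180245) (nat_lit 5) (.e (nat_lit 532523) (nat_lit 7) (.e (nat_lit 319538) (nat_lit 19) (.e (nat_lit 311312) (nat_lit 2) .nil))))) .nil)))))) (.nd (nat_lit 3) (.nd (nat_lit 4) (.nd (nat_lit 5) (.nd (nat_lit 6) 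
(.lf (nat_lit 120068) (.g (nat_lit 1862) (.e (nat_lit 7936) (nat_lit 361) (.e (nat_lit 172133) (nat_lit 15) (.e (nat_lit 1856) (nat_lit 124) (.e (nat_lit 557109) (nat_lit 15) (.e (nat_lit 188450) (nat_lit 23) .nil))))) .nil)) 
(.lf (nat_lit 120132) (.g (nat_lit 2393) (.e (nat_lit 6722) (nat_lit 362) (.e (nat_lit 180250) (nat_lit 10) (.e (nat_lit 573471) (nat_lit 11) (.e (nat_lit 16454) (nat_lit 11) (.e (nat_lit 458789) (nat_lit 23) (.e (nat_lit 532482) (nat_lit 0) .nil)))))) (.g (nat_lit 4) .nil .nil)))) (.nd (nat_lit 6) 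
(.lf (nat_lit 120100) (.g (nat_lit 3184) (.e (nat_lit 6721) (nat_lit 362) (.e (nat_lit 180271) (nat_lit 26) (.e (nat_lit 704737) (nat_lit 11) (.e (nat_lit 16431) (nat_lit 9) (.e (nat_lit 426530) (nat_lit 27) (.e (nat_lit 335872) (nat_lit 0) .nil)))))) (.g (nat_lit 6) .nil .nil))) 
(.lf (nat_lit 120164) (.g (nat_lit 513) (.e (nat_lit 6723) (nat_lit 362) (.e (nat_lit 180243) (nat_lit 5) (.e (nat_lit 532489) (nat_lit 0) .nil))) .nil)))) (.nd (nat_lit 5) (.nd (nat_lit 6) 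
(.lf (nat_lit 120084) (.g (nat_lit 1156) (.e (nat_lit 6721) (nat_lit 362) (.e (nat_lit 180244) (nat_lit 5) (.e (nat_lit 532569) (nat_lit 16) (.e (nat_lit 401440) (nat_lit 9) .nil)))) .nil)) 
(.lf (nat_lit 120148) (.g (nat_lit 1567) (.e (nat_lit 6722) (nat_lit 362) (.e (nat_lit 180271) (nat_lit 26) (.e (nat_lit 704737) (nat_lit 11) (.e (nat_lit 16444) (nat_lit 9) (.e (nat_lit 426525) (nat_lit 27) .nil))))) .nil))) (.nd (nat_lit 6) 
(.lf (nat_lit 120116) (.g (nat_lit 2394) (.e (nat_lit 6722) (nat_lit 362) (.e (nat_lit 180244) (nat_lit 5) (.e (nat_lit 532522) (nat_lit 7) (.e (nat_lit 319538) (nat_lit 19) (.e (nat_lit 311315) (nat_lit 3) (.e (nat_lit 204816) (nat_lit 17) .nil)))))) (.g (nat_lit 4) .nil .nil))) 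
(.lf (nat_lit 120180) (.g (nat_lit 2901) (.e (nat_lit 6723) (nat_lit 362) (.e (nat_lit 180243) (nat_lit 5) (.e (nat_lit 532569) (nat_lit 16) (.e (nat_lit 401446) (nat_lit 10) (.e (nat_lit 434219) (nat_lit 19) (.e (nat_lit 499965) (nat_lit 14) (.e (nat_lit 970) (nat_lit 81) .nil))))))) (.g (nat_lit 4) .nil .nil)))))) (.nd (nat_lit 4) (.nd (nat_lit 5) (.nd (nat_lit 6) 
(.lf (nat_lit 120076) (.g (nat_lit 2311) (.e (nat_lit 6721) (nat_lit 362) (.e (nat_lit 180244) (nat_lit 5) (.e (nat_lit 532523) (nat_lit 7) (.e (nat_lit 319505) (nat_lit 10) (.e (nat_lit 5714) (nat_lit 312) (.e (nat_lit 2663) (nat_lit 167) (.e (nat_lit 196628) (nat_lit 9) (.e (nat_lit 968) (nat_lit 81) .nil)))))))) (.g (nat_lit 4) .nil .nil))) 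
(.lf (nat_lit 120140) (.g (nat_lit 2096) (.e (nat_lit 6722) (nat_lit 362) (.e (nat_lit 180269) (nat_lit 25) (.e (nat_lit 696344) (nat_lit 8) (.e (nat_lit 172123) (nat_lit 13) (.e (nat_lit 483343) (nat_lit 17) .nil))))) (.g (nat_lit 0) .nil .nil)))) (.nd (nat_lit 6) 
(.lf (nat_lit 120108) (.g (nat_lit 385) (.e (nat_lit 6721) (nat_lit 362) (.e (nat_lit 180272) (nat_lit 26) (.e (nat_lit 704738) (nat_lit 11) .nil))) .nil)) 
(.lf (nat_lit 120172) (.g (nat_lit 3235) (.e (nat_lit 6723) (nat_lit 362) (.e (nat_lit 180243) (nat_lit 5) (.e (nat_lit 532523) (nat_lit 7) (.e (nat_lit 319538) (nat_lit 19) (.e (nat_lit 311311) (nat_lit 2) .nil))))) .nil)))) (.nd (nat_lit 5) (.nd (nat_lit 6) 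
(.lf (nat_lit 120092) (.g (nat_lit 3425) (.e (nat_lit 6721) (nat_lit 362) (.e (nat_lit 180250) (nat_lit 10) (.e (nat_lit 573471) (nat_lit 11) (.e (nat_lit 16448) (nat_lit 10) (.e (nat_lit 434219) (nat_lit 19) .nil))))) .nil)) 
(.lf (nat_lit 120156) (.g (nat_lit 2396) (.e (nat_lit 6723) (nat_lit 362) (.e (nat_lit 180225) (nat_lit 0) (.e (nat_lit 6420) (nat_lit 341) (.e (nat_lit 163902) (nat_lit 12) (.e (nat_lit 426227) (nat_lit 9) .nil))))) .nil))) (.nd (nat_lit 6) 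
(.lf (nat_lit 120124) (.g (nat_lit 2730) (.e (nat_lit 6722) (nat_lit 362) (.e (nat_lit 180244) (nat_lit 5) (.e (nat_lit 532523) (nat_lit 7) (.e (nat_lit 319539) (nat_lit 19) (.e (nat_lit 311315) (nat_lit 3) .nil))))) .nil)) 
(.lf (nat_lit 120188) (.g (nat_lit 2247) (.e (nat_lit 6723) (nat_lit 362) (.e (nat_lit 180250) (nat_lit 10) (.e (nat_lit 573471) (nat_lit 11) (.e (nat_lit 16440) (nat_lit 9) (.e (nat_lit 426125) (nat_lit 2) .nil))))) .nil))))))) (.nd (nat_lit 2) (.nd (nat_lit 3) (.nd (nat_lit 4) (.nd (nat_lit 5) (.nd (nat_lit 6) 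
(.lf (nat_lit 120066) (.g (nat_lit 845) (.e (nat_lit 7936) (nat_lit 361) (.e (nat_lit 172076) (nat_lit 6) (.e (nat_lit 253989) (nat_lit 11) (.e (nat_lit 16465) (nat_lit 13) (.e (nat_lit 491264) (nat_lit 17) .nil))))) .nil)) 
(.lf (nat_lit 120130) (.g (nat_lit 2216) (.e (nat_lit 6722) (nat_lit 362) (.e (nat_lit 180245) (nat_lit 5) (.e (nat_lit 532523) (nat_lit 7) (.e (nat_lit 319539) (nat_lit 19) (.e (nat_lit 311315) (nat_lit 3) .nil))))) .nil))) (.nd (nat_lit 6) 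
(.lf (nat_lit 120098) (.g (nat_lit 2560) (.e (nat_lit 6721) (nat_lit 362) (.e (nat_lit 180252) (nat_lit 10) (.e (nat_lit 573471) (nat_lit 11) (.e (nat_lit 16447) (nat_lit 10) (.e (nat_lit 434219) (nat_lit 19) .nil))))) .nil)) 
(.lf (nat_lit 120162) (.g (nat_lit 1056) (.e (nat_lit 6723) (nat_lit 362) (.e (nat_lit 180243) (nat_lit 5) (.e (nat_lit 532484) (nat_lit 0) (.e (nat_lit 7936) (nat_lit 364) .nil)))) .nil)))) (.nd (nat_lit 5) (.nd (nat_lit 6) 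
(.lf (nat_lit 120082) (.g (nat_lit 3043) (.e (nat_lit 6721) (nat_lit 362) (.e (nat_lit 180244) (nat_lit 5) (.e (nat_lit 532526) (nat_lit 8) (.e (nat_lit 327718) (nat_lit 19) (.e (nat_lit 311312) (nat_lit 2) (.e (nat_lit 196628) (nat_lit 9) (.e (nat_lit 968) (nat_lit 81) .nil))))))) (.g (nat_lit 7) .nil .nil))) 
(.lf (nat_lit 120146) (.g (nat_lit 2225) (.e (nat_lit 6722) (nat_lit 362) (.e (nat_lit 180271) (nat_lit 26) (.e (nat_lit 704737) (nat_lit 11) (.e (nat_lit 16431) (nat_lit 9) (.e (nat_lit 426516) (nat_lit 27) (.e (nat_lit 335892) (nat_lit 0) .nil)))))) (.g (nat_lit 4) .nil .nil)))) (.nd (nat_lit 6) 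
(.lf (nat_lit 120114) (.g (nat_lit 691) (.e (nat_lit 6722) (nat_lit 362) (.e (nat_lit 180244) (nat_lit 5) (.e (nat_lit 532522) (nat_lit 7) .nil))) .nil)) 
(.lf (nat_lit 120178) (.g (nat_lit 2070) (.e (nat_lit 6723) (nat_lit 362) (.e (nat_lit 180243) (nat_lit 5) (.e (nat_lit 532569) (nat_lit 16) (.e (nat_lit 401440) (nat_lit 9) (.e (nat_lit 426120) (nat_lit 2) .nil))))) .nil))))) (.nd (nat_lit 4) (.nd (nat_lit 5) (.nd (nat_lit 6) 
(.lf (nat_lit 120074) (.g (nat_lit 2356) (.e (nat_lit 6721) (nat_lit 362) (.e (nat_lit 180244) (nat_lit 5) (.e (nat_lit 532522) (nat_lit 7) (.e (nat_lit 319538) (nat_lit 19) (.e (nat_lit 311312) (nat_lit 2) (.e (nat_lit 196628) (nat_lit 9) (.e (nat_lit 970) (nat_lit 81) .nil))))))) (.g (nat_lit 4) .nil .nil))) 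
(.lf (nat_lit 120138) (.g (nat_lit 1929) (.e (nat_lit 6722) (nat_lit 362) (.e (nat_lit 180269) (nat_lit 25) (.e (nat_lit 696344) (nat_lit 8) (.e (nat_lit 172121) (nat_lit 13) (.e (nat_lit 483343) (nat_lit 17) .nil))))) (.g (nat_lit 0) .nil .nil)))) (.nd (nat_lit 6) 
(.lf (nat_lit 120106) (.g (nat_lit 1677) (.e (nat_lit 6721) (nat_lit 362) (.e (nat_lit 180271) (nat_lit 26) (.e (nat_lit 704738) (nat_lit 11) (.e (nat_lit 16434) (nat_lit 9) (.e (nat_lit 426530) (nat_lit 27) .nil))))) .nil)) 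
(.lf (nat_lit 120170) (.g (nat_lit 2245) (.e (nat_lit 6723) (nat_lit 362) (.e (nat_lit 180243) (nat_lit 5) (.e (nat_lit 532523) (nat_lit 7) (.e (nat_lit 319504) (nat_lit 10) (.e (nat_lit 5714) (nat_lit 312) .nil))))) .nil)))) (.nd (nat_lit 5) (.nd (nat_lit 6) 
(.lf (nat_lit 120090) (.g (nat_lit 1706) (.e (nat_lit 6721) (nat_lit 362) (.e (nat_lit 180250) (nat_lit 10) (.e (nat_lit 573471) (nat_lit 11) (.e (nat_lit 16439) (nat_lit 9) .nil)))) .nil)) 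
(.lf (nat_lit 120154) (.g (nat_lit 2046) (.e (nat_lit 6722) (nat_lit 362) (.e (nat_lit 180272) (nat_lit 26) (.e (nat_lit 704735) (nat_lit 11) (.e (nat_lit 16465) (nat_lit 13) (.e (nat_lit 483344) (nat_lit 17) .nil))))) (.g (nat_lit 0) .nil .nil)))) (.nd (nat_lit 6) 
(.lf (nat_lit 120122) (.g (nat_lit 4111) (.e (nat_lit 6722) (nat_lit 362) (.e (nat_lit 180244) (nat_lit 5) (.e (nat_lit 532523) (nat_lit 7) (.e (nat_lit 319538) (nat_lit 19) (.e (nat_lit 311315) (nat_lit 3) (.e (nat_lit 204816) (nat_lit 17) .nil)))))) (.g (nat_lit 5) .nil .nil))) 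
(.lf (nat_lit 120186) (.g (nat_lit 3093) (.e (nat_lit 6723) (nat_lit 362) (.e (nat_lit 180250) (nat_lit 10) (.e (nat_lit 573471) (nat_lit 11) (.e (nat_lit 16433) (nat_lit 9) (.e (nat_lit 426128) (nat_lit 2) (.e (nat_lit 196628) (nat_lit 9) (.e (nat_lit 968) (nat_lit 81) .nil))))))) (.g (nat_lit 7) .nil .nil))))))) (.nd (nat_lit 3) (.nd (nat_lit 4) (.nd (nat_lit 5) (.nd (nat_lit 6) 
(.lf (nat_lit 120070) (.g (nat_lit 606) (.e (nat_lit 7936) (nat_lit 361) (.e (nat_lit 172147) (nat_lit 27) (.e (nat_lit 336229) (nat_lit 14) (.e (nat_lit 401459) (nat_lit 13) .nil)))) .nil)) 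
(.lf (nat_lit 120134) (.g (nat_lit 2013) (.e (nat_lit 6722) (nat_lit 362) (.e (nat_lit 180252) (nat_lit 10) (.e (nat_lit 573471) (nat_lit 11) (.e (nat_lit 16453) (nat_lit 11) (.e (nat_lit 458789) (nat_lit 23) (.e (nat_lit 532482) (nat_lit 0) .nil)))))) (.g (nat_lit 4) .nil .nil)))) (.nd (nat_lit 6) 
(.lf (nat_lit 120102) (.g (nat_lit 2117) (.e (nat_lit 6721) (nat_lit 362) (.e (nat_lit 180271) (nat_lit 26) (.e (nat_lit 704737) (nat_lit 11) (.e (nat_lit 16432) (nat_lit 9) (.e (nat_lit 426530) (nat_lit 27) .nil))))) .nil)) 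
(.lf (nat_lit 120166) (.g (nat_lit 1525) (.e (nat_lit 6723) (nat_lit 362) (.e (nat_lit 180243) (nat_lit 5) (.e (nat_lit 532490) (nat_lit 0) (.e (nat_lit 7936) (nat_lit 364) .nil)))) .nil)))) (.nd (nat_lit 5) (.nd (nat_lit 6) 
(.lf (nat_lit 120086) (.g (nat_lit 3161) (.e (nat_lit 6721) (nat_lit 362) (.e (nat_lit 180245) (nat_lit 5) (.e (nat_lit 532523) (nat_lit 7) (.e (nat_lit 319505) (nat_lit 10) (.e (nat_lit 5714) (nat_lit 312) (.e (nat_lit 2664) (nat_lit 167) (.e (nat_lit 196628) (nat_lit 9) (.e (nat_lit 970) (nat_lit 81) .nil)))))))) (.g (nat_lit 6) .nil .nil))) 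
(.lf (nat_lit 120150) (.g (nat_lit 1199) (.e (nat_lit 6722) (nat_lit 362) (.e (nat_lit 180271) (nat_lit 26) (.e (nat_lit 704738) (nat_lit 11) (.e (nat_lit 16436) (nat_lit 9) .nil)))) .nil))) (.nd (nat_lit 6) 
(.lf (nat_lit 120118) (.g (nat_lit 2730) (.e (nat_lit 6722) (nat_lit 362) (.e (nat_lit 180244) (nat_lit 5) (.e (nat_lit 532523) (nat_lit 7) (.e (nat_lit 319537) (nat_lit 19) (.e (nat_lit 311315) (nat_lit 3) (.e (nat_lit 204815) (nat_lit 17) .nil)))))) (.g (nat_lit 4) .nil .nil))) 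
(.lf (nat_lit 120182) (.g (nat_lit 1934) (.e (nat_lit 6723) (nat_lit 362) (.e (nat_lit 180245) (nat_lit 5) (.e (nat_lit 532523) (nat_lit 7) (.e (nat_lit 319504) (nat_lit 10) (.e (nat_lit 5714) (nat_lit 312) .nil))))) .nil))))) (.nd (nat_lit 4) (.nd (nat_lit 5) (.nd (nat_lit 6) 
(.lf (nat_lit 120078) (.g (nat_lit 2381) (.e (nat_lit 6721) (nat_lit 362) (.e (nat_lit 180244) (nat_lit 5) (.e (nat_lit 532523) (nat_lit 7) (.e (nat_lit 327424) (nat_lit 18) (.e (nat_lit 303117) (nat_lit 2) (.e (nat_lit 196628) (nat_lit 9) (.e (nat_lit 970) (nat_lit 81) .nil))))))) (.g (nat_lit 5) .nil .nil))) 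
(.lf (nat_lit 120142) (.g (nat_lit 1490) (.e (nat_lit 6722) (nat_lit 362) (.e (nat_lit 180271) (nat_lit 26) (.e (nat_lit 704735) (nat_lit 11) (.e (nat_lit 16465) (nat_lit 13) (.e (nat_lit 483343) (nat_lit 17) .nil))))) (.g (nat_lit 4) .nil .nil)))) (.nd (nat_lit 6) 
(.lf (nat_lit 120110) (.g (nat_lit 1393) (.e (nat_lit 6722) (nat_lit 362) (.e (nat_lit 188160) (nat_lit 3) (.e (nat_lit 516195) (nat_lit 26) (.e (nat_lit 336223) (nat_lit 13) (.e (nat_lit 401152) (nat_lit 0) .nil))))) (.g (nat_lit 4) .nil .nil))) 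
(.lf (nat_lit 120174) (.g (nat_lit 778) (.e (nat_lit 6723) (nat_lit 362) (.e (nat_lit 180243) (nat_lit 5) (.e (nat_lit 532524) (nat_lit 8) .nil))) .nil)))) (.nd (nat_lit 5) (.nd (nat_lit 6) 
(.lf (nat_lit 120094) (.g (nat_lit 409) (.e (nat_lit 6721) (nat_lit 362) (.e (nat_lit 180252) (nat_lit 10) (.e (nat_lit 573471) (nat_lit 11) .nil))) .nil)) 
(.lf (nat_lit 120158) (.g (nat_lit 1864) (.e (nat_lit 6723) (nat_lit 362) (.e (nat_lit 180243) (nat_lit 5) (.e (nat_lit 532481) (nat_lit 0) (.e (nat_lit 6718) (nat_lit 361) .nil)))) .nil))) (.nd (nat_lit 6) 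
(.lf (nat_lit 120126) (.g (nat_lit 3666) (.e (nat_lit 6722) (nat_lit 362) (.e (nat_lit 180245) (nat_lit 5) (.e (nat_lit 532486) (nat_lit 0) (.e (nat_lit 6113) (nat_lit 332) (.e (nat_lit 1374) (nat_lit 104) (.e (nat_lit 303119) (nat_lit 3) (.e (nat_lit 204816) (nat_lit 17) .nil))))))) (.g (nat_lit 6) .nil .nil))) 
(.lf (nat_lit 120190) (.g (nat_lit 1531) (.e (nat_lit 6723) (nat_lit 362) (.e (nat_lit 180250) (nat_lit 10) (.e (nat_lit 573471) (nat_lit 11) (.e (nat_lit 16446) (nat_lit 9) .nil)))) .nil)))))))) (.nd (nat_lit 1) (.nd (nat_lit 2) (.nd (nat_lit 3) (.nd (nat_lit 4) (.nd (nat_lit 5) (.nd (nat_lit 6) 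
(.lf (nat_lit 120065) (.g (nat_lit 1303) (.e (nat_lit 7936) (nat_lit 361) (.e (nat_lit 172076) (nat_lit 6) (.e (nat_lit 253988) (nat_lit 11) (.e (nat_lit 16465) (nat_lit 13) (.e (nat_lit 483356) (nat_lit 17) .nil))))) .nil)) 
(.lf (nat_lit 120129) (.g (nat_lit 3412) (.e (nat_lit 6722) (nat_lit 362) (.e (nat_lit 180245) (nat_lit 5) (.e (nat_lit 532523) (nat_lit 7) (.e (nat_lit 319538) (nat_lit 19) (.e (nat_lit 311315) (nat_lit 3) (.e (nat_lit 204816) (nat_lit 17) .nil)))))) (.g (nat_lit 5) .nil .nil)))) (.nd (nat_lit 6) 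
(.lf (nat_lit 120097) (.g (nat_lit 1737) (.e (nat_lit 6721) (nat_lit 362) (.e (nat_lit 180252) (nat_lit 10) (.e (nat_lit 573471) (nat_lit 11) (.e (nat_lit 16439) (nat_lit 9) (.e (nat_lit 426113) (nat_lit 2) .nil))))) .nil)) 
(.lf (nat_lit 120161) (.g (nat_lit 1056) (.e (nat_lit 6723) (nat_lit 362) (.e (nat_lit 180243) (nat_lit 5) (.e (nat_lit 532484) (nat_lit 0) (.e (nat_lit 7936) (nat_lit 361) .nil)))) .nil)))) (.nd (nat_lit 5) (.nd (nat_lit 6) 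
(.lf (nat_lit 120081) (.g (nat_lit 2508) (.e (nat_lit 6721) (nat_lit 362) (.e (nat_lit 180244) (nat_lit 5) (.e (nat_lit 532525) (nat_lit 8) (.e (nat_lit 327718) (nat_lit 19) (.e (nat_lit 311312) (nat_lit 2) (.e (nat_lit 196628) (nat_lit 9) (.e (nat_lit 968) (nat_lit 81) .nil))))))) (.g (nat_lit 6) .nil .nil))) 
(.lf (nat_lit 120145) (.g (nat_lit 2194) (.e (nat_lit 6722) (nat_lit 362) (.e (nat_lit 180271) (nat_lit 26) (.e (nat_lit 704737) (nat_lit 11) (.e (nat_lit 16431) (nat_lit 9) (.e (nat_lit 426512) (nat_lit 27) .nil))))) .nil))) (.nd (nat_lit 6) 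
(.lf (nat_lit 120113) (.g (nat_lit 2579) (.e (nat_lit 6722) (nat_lit 362) (.e (nat_lit 180244) (nat_lit 5) (.e (nat_lit 532481) (nat_lit 0) (.e (nat_lit 6724) (nat_lit 362) (.e (nat_lit 180243) (nat_lit 5) .nil))))) .nil)) 
(.lf (nat_lit 120177) (.g (nat_lit 2070) (.e (nat_lit 6723) (nat_lit 362) (.e (nat_lit 180243) (nat_lit 5) (.e (nat_lit 532569) (nat_lit 16) (.e (nat_lit 401440) (nat_lit 9) (.e (nat_lit 426113) (nat_lit 2) .nil))))) .nil))))) (.nd (nat_lit 4) (.nd (nat_lit 5) (.nd (nat_lit 6) 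
(.lf (nat_lit 120073) (.g (nat_lit 1540) (.e (nat_lit 6721) (nat_lit 362) (.e (nat_lit 180244) (nat_lit 5) (.e (nat_lit 532490) (nat_lit 0) (.e (nat_lit 7936) (nat_lit 364) .nil)))) .nil)) 
(.lf (nat_lit 120137) (.g (nat_lit 977) (.e (nat_lit 6722) (nat_lit 362) (.e (nat_lit 180269) (nat_lit 25) (.e (nat_lit 696344) (nat_lit 8) (.e (nat_lit 172088) (nat_lit 9) .nil)))) .nil))) (.nd (nat_lit 6) 
(.lf (nat_lit 120105) (.g (nat_lit 2380) (.e (nat_lit 6721) (nat_lit 362) (.e (nat_lit 180271) (nat_lit 26) (.e (nat_lit 704738) (nat_lit 11) (.e (nat_lit 16433) (nat_lit 9) (.e (nat_lit 426530) (nat_lit 27) .nil))))) .nil)) 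
(.lf (nat_lit 120169) (.g (nat_lit 751) (.e (nat_lit 6723) (nat_lit 362) (.e (nat_lit 180243) (nat_lit 5) (.e (nat_lit 532522) (nat_lit 7) .nil))) .nil)))) (.nd (nat_lit 5) (.nd (nat_lit 6) 
(.lf (nat_lit 120089) (.g (nat_lit 2419) (.e (nat_lit 6721) (nat_lit 362) (.e (nat_lit 180250) (nat_lit 10) (.e (nat_lit 573471) (nat_lit 11) (.e (nat_lit 16433) (nat_lit 9) (.e (nat_lit 426128) (nat_lit 2) (.e (nat_lit 196628) (nat_lit 9) (.e (nat_lit 968) (nat_lit 81) .nil))))))) (.g (nat_lit 4) .nil .nil))) 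
(.lf (nat_lit 120153) (.g (nat_lit 1459) (.e (nat_lit 6722) (nat_lit 362) (.e (nat_lit 180272) (nat_lit 26) (.e (nat_lit 704735) (nat_lit 11) (.e (nat_lit 16465) (nat_lit 13) (.e (nat_lit 483343) (nat_lit 17) .nil))))) (.g (nat_lit 4) .nil .nil)))) (.nd (nat_lit 6) 
(.lf (nat_lit 120121) (.g (nat_lit 3063) (.e (nat_lit 6722) (nat_lit 362) (.e (nat_lit 180244) (nat_lit 5) (.e (nat_lit 532523) (nat_lit 7) (.e (nat_lit 319538) (nat_lit 19) (.e (nat_lit 311314) (nat_lit 3) .nil))))) .nil)) 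
(.lf (nat_lit 120185) (.g (nat_lit 2138) (.e (nat_lit 6723) (nat_lit 362) (.e (nat_lit 180245) (nat_lit 5) (.e (nat_lit 532523) (nat_lit 7) (.e (nat_lit 319539) (nat_lit 19) (.e (nat_lit 311312) (nat_lit 2) .nil))))) .nil)))))) (.nd (nat_lit 3) (.nd (nat_lit 4) (.nd (nat_lit 5) (.nd (nat_lit 6) 
(.lf (nat_lit 120069) (.g (nat_lit 530) (.e (nat_lit 7936) (nat_lit 361) (.e (nat_lit 172133) (nat_lit 15) (.e (nat_lit 2059) (nat_lit 142) .nil))) .nil)) 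
(.lf (nat_lit 120133) (.g (nat_lit 1540) (.e (nat_lit 6722) (nat_lit 362) (.e (nat_lit 180250) (nat_lit 10) (.e (nat_lit 573503) (nat_lit 18) (.e (nat_lit 1349) (nat_lit 102) .nil)))) .nil))) (.nd (nat_lit 6) 
(.lf (nat_lit 120101) (.g (nat_lit 2858) (.e (nat_lit 6721) (nat_lit 362) (.e (nat_lit 180271) (nat_lit 26) (.e (nat_lit 704737) (nat_lit 11) (.e (nat_lit 16431) (nat_lit 9) (.e (nat_lit 426530) (nat_lit 27) (.e (nat_lit 335874) (nat_lit 0) .nil)))))) (.g (nat_lit 5) .nil .nil))) 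
(.lf (nat_lit 120165) (.g (nat_lit 778) (.e (nat_lit 6723) (nat_lit 362) (.e (nat_lit 180243) (nat_lit 5) (.e (nat_lit 532490) (nat_lit 0) .nil))) .nil)))) (.nd (nat_lit 5) (.nd (nat_lit 6) 
(.lf (nat_lit 120085) (.g (nat_lit 2779) (.e (nat_lit 6721) (nat_lit 362) (.e (nat_lit 180244) (nat_lit 5) (.e (nat_lit 532569) (nat_lit 16) (.e (nat_lit 401446) (nat_lit 10) (.e (nat_lit 434219) (nat_lit 19) .nil))))) .nil)) 
(.lf (nat_lit 120149) (.g (nat_lit 1107) (.e (nat_lit 6722) (nat_lit 362) (.e (nat_lit 180271) (nat_lit 26) (.e (nat_lit 704738) (nat_lit 11) (.e (nat_lit 16431) (nat_lit 9) .nil)))) .nil))) (.nd (nat_lit 6) 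
(.lf (nat_lit 120117) (.g (nat_lit 1707) (.e (nat_lit 6722) (nat_lit 362) (.e (nat_lit 180244) (nat_lit 5) (.e (nat_lit 532523) (nat_lit 7) (.e (nat_lit 319537) (nat_lit 19) .nil)))) .nil)) 
(.lf (nat_lit 120181) (.g (nat_lit 510) (.e (nat_lit 6723) (nat_lit 362) (.e (nat_lit 180243) (nat_lit 5) (.e (nat_lit 532575) (nat_lit 17) .nil))) .nil))))) (.nd (nat_lit 4) (.nd (nat_lit 5) (.nd (nat_lit 6) 
(.lf (nat_lit 120077) (.g (nat_lit 2508) (.e (nat_lit 6721) (nat_lit 362) (.e (nat_lit 180244) (nat_lit 5) (.e (nat_lit 532523) (nat_lit 7) (.e (nat_lit 327424) (nat_lit 18) (.e (nat_lit 303117) (nat_lit 2) (.e (nat_lit 196628) (nat_lit 9) (.e (nat_lit 968) (nat_lit 81) .nil))))))) (.g (nat_lit 5) .nil .nil))) 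
(.lf (nat_lit 120141) (.g (nat_lit 2709) (.e (nat_lit 6722) (nat_lit 362) (.e (nat_lit 180269) (nat_lit 25) (.e (nat_lit 696344) (nat_lit 8) (.e (nat_lit 172123) (nat_lit 13) (.e (nat_lit 483344) (nat_lit 17) .nil))))) (.g (nat_lit 0) .nil .nil)))) (.nd (nat_lit 6) 
(.lf (nat_lit 120109) (.g (nat_lit 2487) (.e (nat_lit 6722) (nat_lit 362) (.e (nat_lit 180225) (nat_lit 0) (.e (nat_lit 6420) (nat_lit 341) (.e (nat_lit 163902) (nat_lit 12) (.e (nat_lit 426254) (nat_lit 9) .nil))))) .nil)) 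
(.lf (nat_lit 120173) (.g (nat_lit 4289) (.e (nat_lit 6723) (nat_lit 362) (.e (nat_lit 180243) (nat_lit 5) (.e (nat_lit 532523) (nat_lit 7) (.e (nat_lit 319539) (nat_lit 19) (.e (nat_lit 311312) (nat_lit 2) (.e (nat_lit 196628) (nat_lit 9) (.e (nat_lit 968) (nat_lit 81) .nil))))))) (.g (nat_lit 7) .nil .nil))))) (.nd (nat_lit 5) (.nd (nat_lit 6) 
(.lf (nat_lit 120093) (.g (nat_lit 1256) (.e (nat_lit 6721) (nat_lit 362) (.e (nat_lit 180252) (nat_lit 10) (.e (nat_lit 573470) (nat_lit 11) (.e (nat_lit 16435) (nat_lit 9) .nil)))) .nil)) 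
(.lf (nat_lit 120157) (.g (nat_lit 754) (.e (nat_lit 6723) (nat_lit 362) (.e (nat_lit 188160) (nat_lit 3) (.e (nat_lit 516199) (nat_lit 26) (.e (nat_lit 336215) (nat_lit 13) (.e (nat_lit 401152) (nat_lit 0) .nil))))) (.g (nat_lit 4) .nil .nil)))) (.nd (nat_lit 6) 
(.lf (nat_lit 120125) (.g (nat_lit 3587) (.e (nat_lit 6722) (nat_lit 362) (.e (nat_lit 180244) (nat_lit 5) (.e (nat_lit 532569) (nat_lit 16) (.e (nat_lit 401448) (nat_lit 10) (.e (nat_lit 434232) (nat_lit 23) (.e (nat_lit 532482) (nat_lit 0) .nil)))))) (.g (nat_lit 0) .nil .nil))) 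
(.lf (nat_lit 120189) (.g (nat_lit 1441) (.e (nat_lit 6723) (nat_lit 362) (.e (nat_lit 180250) (nat_lit 10) (.e (nat_lit 573471) (nat_lit 11) (.e (nat_lit 16442) (nat_lit 9) .nil)))) .nil))))))) (.nd (nat_lit 2) (.nd (nat_lit 3) (.nd (nat_lit 4) (.nd (nat_lit 5) (.nd (nat_lit 6) 
(.lf (nat_lit 120067) (.g (nat_lit 1405) (.e (nat_lit 7936) (nat_lit 361) (.e (nat_lit 172076) (nat_lit 6) (.e (nat_lit 253991) (nat_lit 11) (.e (nat_lit 16462) (nat_lit 13) (.e (nat_lit 483344) (nat_lit 17) .nil))))) .nil)) 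
(.lf (nat_lit 120131) (.g (nat_lit 2309) (.e (nat_lit 6722) (nat_lit 362) (.e (nat_lit 180250) (nat_lit 10) (.e (nat_lit 573471) (nat_lit 11) (.e (nat_lit 16453) (nat_lit 11) (.e (nat_lit 458789) (nat_lit 23) (.e (nat_lit 532482) (nat_lit 0) .nil)))))) (.g (nat_lit 4) .nil .nil)))) (.nd (nat_lit 6) 
(.lf (nat_lit 120099) (.g (nat_lit 3607) (.e (nat_lit 6721) (nat_lit 362) (.e (nat_lit 180252) (nat_lit 10) (.e (nat_lit 573471) (nat_lit 11) (.e (nat_lit 16448) (nat_lit 10) (.e (nat_lit 434219) (nat_lit 19) (.e (nat_lit 499965) (nat_lit 14) (.e (nat_lit 970) (nat_lit 81) .nil))))))) (.g (nat_lit 5) .nil .nil))) 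
(.lf (nat_lit 120163) (.g (nat_lit 491) (.e (nat_lit 6723) (nat_lit 362) (.e (nat_lit 180243) (nat_lit 5) (.e (nat_lit 532488) (nat_lit 0) .nil))) .nil)))) (.nd (nat_lit 5) (.nd (nat_lit 6) 
(.lf (nat_lit 120083) (.g (nat_lit 2913) (.e (nat_lit 6721) (nat_lit 362) (.e (nat_lit 180244) (nat_lit 5) (.e (nat_lit 532526) (nat_lit 8) (.e (nat_lit 327718) (nat_lit 19) (.e (nat_lit 311312) (nat_lit 2) (.e (nat_lit 196628) (nat_lit 9) (.e (nat_lit 970) (nat_lit 81) .nil))))))) (.g (nat_lit 7) .nil .nil))) 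
(.lf (nat_lit 120147) (.g (nat_lit 2296) (.e (nat_lit 6722) (nat_lit 362) (.e (nat_lit 180271) (nat_lit 26) (.e (nat_lit 704737) (nat_lit 11) (.e (nat_lit 16431) (nat_lit 9) (.e (nat_lit 426516) (nat_lit 27) (.e (nat_lit 335894) (nat_lit 0) .nil)))))) (.g (nat_lit 4) .nil .nil)))) (.nd (nat_lit 6) 
(.lf (nat_lit 120115) (.g (nat_lit 1707) (.e (nat_lit 6722) (nat_lit 362) (.e (nat_lit 180244) (nat_lit 5) (.e (nat_lit 532522) (nat_lit 7) (.e (nat_lit 319537) (nat_lit 19) .nil)))) .nil)) 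
(.lf (nat_lit 120179) (.g (nat_lit 2942) (.e (nat_lit 6723) (nat_lit 362) (.e (nat_lit 180243) (nat_lit 5) (.e (nat_lit 532569) (nat_lit 16) (.e (nat_lit 401446) (nat_lit 10) (.e (nat_lit 434219) (nat_lit 19) (.e (nat_lit 499965) (nat_lit 14) (.e (nat_lit 968) (nat_lit 81) .nil))))))) (.g (nat_lit 4) .nil .nil)))))) (.nd (nat_lit 4) (.nd (nat_lit 5) (.nd (nat_lit 6) 
(.lf (nat_lit 120075) (.g (nat_lit 2202) (.e (nat_lit 6721) (nat_lit 362) (.e (nat_lit 180244) (nat_lit 5) (.e (nat_lit 532523) (nat_lit 7) (.e (nat_lit 319505) (nat_lit 10) (.e (nat_lit 5714) (nat_lit 312) .nil))))) .nil)) 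
(.lf (nat_lit 120139) (.g (nat_lit 2312) (.e (nat_lit 6722) (nat_lit 362) (.e (nat_lit 180269) (nat_lit 25) (.e (nat_lit 696344) (nat_lit 8) (.e (nat_lit 172122) (nat_lit 13) (.e (nat_lit 483345) (nat_lit 17) .nil))))) (.g (nat_lit 0) .nil .nil)))) (.nd (nat_lit 6) 
(.lf (nat_lit 120107) (.g (nat_lit 1752) (.e (nat_lit 6721) (nat_lit 362) (.e (nat_lit 180271) (nat_lit 26) (.e (nat_lit 704738) (nat_lit 11) (.e (nat_lit 16434) (nat_lit 9) (.e (nat_lit 426530) (nat_lit 27) (.e (nat_lit 335872) (nat_lit 0) .nil)))))) (.g (nat_lit 4) .nil .nil))) 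
(.lf (nat_lit 120171) (.g (nat_lit 2345) (.e (nat_lit 6723) (nat_lit 362) (.e (nat_lit 180243) (nat_lit 5) (.e (nat_lit 532523) (nat_lit 7) (.e (nat_lit 319505) (nat_lit 10) (.e (nat_lit 5714) (nat_lit 312) .nil))))) .nil)))) (.nd (nat_lit 5) (.nd (nat_lit 6) 
(.lf (nat_lit 120091) (.g (nat_lit 2019) (.e (nat_lit 6721) (nat_lit 362) (.e (nat_lit 180250) (nat_lit 10) (.e (nat_lit 573471) (nat_lit 11) (.e (nat_lit 16447) (nat_lit 10) .nil)))) .nil)) 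
(.lf (nat_lit 120155) (.g (nat_lit 1042) (.e (nat_lit 6722) (nat_lit 362) (.e (nat_lit 180272) (nat_lit 26) (.e (nat_lit 704738) (nat_lit 11) (.e (nat_lit 16432) (nat_lit 9) .nil)))) .nil))) (.nd (nat_lit 6) 
(.lf (nat_lit 120123) (.g (nat_lit 2170) (.e (nat_lit 6722) (nat_lit 362) (.e (nat_lit 180244) (nat_lit 5) (.e (nat_lit 532523) (nat_lit 7) (.e (nat_lit 319539) (nat_lit 19) .nil)))) .nil)) 
(.lf (nat_lit 120187) (.g (nat_lit 1899) (.e (nat_lit 6723) (nat_lit 362) (.e (nat_lit 180250) (nat_lit 10) (.e (nat_lit 573471) (nat_lit 11) (.e (nat_lit 16439) (nat_lit 9) (.e (nat_lit 426113) (nat_lit 2) .nil))))) .nil)))))) (.nd (nat_lit 3) (.nd (nat_lit 4) (.nd (nat_lit 5) (.nd (nat_lit 6) 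
(.lf (nat_lit 120071) (.g (nat_lit 786) (.e (nat_lit 6721) (nat_lit 362) (.e (nat_lit 188160) (nat_lit 3) (.e (nat_lit 516199) (nat_lit 26) (.e (nat_lit 336215) (nat_lit 13) (.e (nat_lit 401152) (nat_lit 0) .nil))))) (.g (nat_lit 4) .nil .nil))) 
(.lf (nat_lit 120135) (.g (nat_lit 1704) (.e (nat_lit 6722) (nat_lit 362) (.e (nat_lit 180269) (nat_lit 25) (.e (nat_lit 696343) (nat_lit 8) (.e (nat_lit 172121) (nat_lit 13) (.e (nat_lit 483343) (nat_lit 17) .nil))))) (.g (nat_lit 0) .nil .nil)))) (.nd (nat_lit 6) 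
(.lf (nat_lit 120103) (.g (nat_lit 1128) (.e (nat_lit 6721) (nat_lit 362) (.e (nat_lit 180271) (nat_lit 26) (.e (nat_lit 704737) (nat_lit 11) (.e (nat_lit 16444) (nat_lit 9) .nil)))) .nil)) 
(.lf (nat_lit 120167) (.g (nat_lit 371) (.e (nat_lit 6723) (nat_lit 362) (.e (nat_lit 180243) (nat_lit 5) (.e (nat_lit 532501) (nat_lit 1) .nil))) .nil)))) (.nd (nat_lit 5) (.nd (nat_lit 6) 
(.lf (nat_lit 120087) (.g (nat_lit 3820) (.e (nat_lit 6721) (nat_lit 362) (.e (nat_lit 180245) (nat_lit 5) (.e (nat_lit 532523) (nat_lit 7) (.e (nat_lit 319538) (nat_lit 19) (.e (nat_lit 311312) (nat_lit 2) (.e (nat_lit 196628) (nat_lit 9) (.e (nat_lit 968) (nat_lit 81) .nil))))))) (.g (nat_lit 6) .nil .nil))) 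
(.lf (nat_lit 120151) (.g (nat_lit 1745) (.e (nat_lit 6722) (nat_lit 362) (.e (nat_lit 180271) (nat_lit 26) (.e (nat_lit 704738) (nat_lit 11) (.e (nat_lit 16440) (nat_lit 9) (.e (nat_lit 426498) (nat_lit 27) .nil))))) .nil))) (.nd (nat_lit 6) 
(.lf (nat_lit 120119) (.g (nat_lit 3199) (.e (nat_lit 6722) (nat_lit 362) (.e (nat_lit 180244) (nat_lit 5) (.e (nat_lit 532523) (nat_lit 7) (.e (nat_lit 319537) (nat_lit 19) (.e (nat_lit 311315) (nat_lit 3) (.e (nat_lit 204816) (nat_lit 17) .nil)))))) (.g (nat_lit 5) .nil .nil))) 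
(.lf (nat_lit 120183) (.g (nat_lit 1664) (.e (nat_lit 6723) (nat_lit 362) (.e (nat_lit 180245) (nat_lit 5) (.e (nat_lit 532523) (nat_lit 7) (.e (nat_lit 319537) (nat_lit 19) (.e (nat_lit 311312) (nat_lit 2) .nil))))) .nil))))) (.nd (nat_lit 4) (.nd (nat_lit 5) (.nd (nat_lit 6) 
(.lf (nat_lit 120079) (.g (nat_lit 3883) (.e (nat_lit 6721) (nat_lit 362) (.e (nat_lit 180244) (nat_lit 5) (.e (nat_lit 532523) (nat_lit 7) (.e (nat_lit 319537) (nat_lit 19) (.e (nat_lit 311312) (nat_lit 2) (.e (nat_lit 196628) (nat_lit 9) (.e (nat_lit 968) (nat_lit 81) .nil))))))) (.g (nat_lit 7) .nil .nil))) 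
(.lf (nat_lit 120143) (.g (nat_lit 2194) (.e (nat_lit 6722) (nat_lit 362) (.e (nat_lit 180271) (nat_lit 26) (.e (nat_lit 704737) (nat_lit 11) (.e (nat_lit 16431) (nat_lit 9) (.e (nat_lit 426496) (nat_lit 27) .nil))))) .nil))) (.nd (nat_lit 6) 
(.lf (nat_lit 120111) (.g (nat_lit 1094) (.e (nat_lit 6722) (nat_lit 362) (.e (nat_lit 188160) (nat_lit 3) (.e (nat_lit 516199) (nat_lit 26) (.e (nat_lit 336215) (nat_lit 13) (.e (nat_lit 401152) (nat_lit 0) .nil))))) (.g (nat_lit 4) .nil .nil))) 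
(.lf (nat_lit 120175) (.g (nat_lit 3060) (.e (nat_lit 6723) (nat_lit 362) (.e (nat_lit 180243) (nat_lit 5) (.e (nat_lit 532525) (nat_lit 8) (.e (nat_lit 327718) (nat_lit 19) (.e (nat_lit 311312) (nat_lit 2) (.e (nat_lit 196628) (nat_lit 9) (.e (nat_lit 968) (nat_lit 81) .nil))))))) (.g (nat_lit 7) .nil .nil))))) (.nd (nat_lit 5) (.nd (nat_lit 6) 
(.lf (nat_lit 120095) (.g (nat_lit 2905) (.e (nat_lit 6721) (nat_lit 362) (.e (nat_lit 180252) (nat_lit 10) (.e (nat_lit 573471) (nat_lit 11) (.e (nat_lit 16433) (nat_lit 9) (.e (nat_lit 426128) (nat_lit 2) (.e (nat_lit 196628) (nat_lit 9) (.e (nat_lit 970) (nat_lit 81) .nil))))))) (.g (nat_lit 7) .nil .nil))) 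
(.lf (nat_lit 120159) (.g (nat_lit 1885) (.e (nat_lit 6723) (nat_lit 362) (.e (nat_lit 180243) (nat_lit 5) (.e (nat_lit 532481) (nat_lit 0) (.e (nat_lit 6720) (nat_lit 361) .nil)))) .nil))) (.nd (nat_lit 6) 
(.lf (nat_lit 120127) (.g (nat_lit 2016) (.e (nat_lit 6722) (nat_lit 362) (.e (nat_lit 180245) (nat_lit 5) (.e (nat_lit 532523) (nat_lit 7) (.e (nat_lit 319537) (nat_lit 19) (.e (nat_lit 311315) (nat_lit 3) (.e (nat_lit 204815) (nat_lit 17) .nil)))))) (.g (nat_lit 4) .nil .nil))) 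
(.lf (nat_lit 120191) (.g (nat_lit 2057) (.e (nat_lit 6723) (nat_lit 362) (.e (nat_lit 180250) (nat_lit 10) (.e (nat_lit 573471) (nat_lit 11) (.e (nat_lit 16446) (nat_lit 9) (.e (nat_lit 426116) (nat_lit 2) .nil))))) .nil)))))))))

noncomputable def tv1601 : DT := (.nd (nat_lit 0) (.nd (nat_lit 1) (.nd (nat_lit 2) (.nd (nat_lit 3) (.nd (nat_lit 4) (.nd (nat_lit 5) 
(.lf (nat_lit 120192) (.g (nat_lit 2776) (.e (nat_lit 6723) (nat_lit 362) (.e (nat_lit 180250) (nat_lit 10) (.e (nat_lit 573471) (nat_lit 11) (.e (nat_lit 16447) (nat_lit 10) (.e (nat_lit 434219) (nat_lit 19) (.e (nat_lit 499965) (nat_lit 14) (.e (nat_lit 970) (nat_lit 81) .nil))))))) (.g (nat_lit 4) .nil .nil))) 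
(.lf (nat_lit 120224) (.g (nat_lit 570) (.e (nat_lit 6724) (nat_lit 362) (.e (nat_lit 180243) (nat_lit 5) (.e (nat_lit 532486) (nat_lit 0) .nil))) .nil))) (.nd (nat_lit 5) 
(.lf (nat_lit 120208) (.g (nat_lit 1545) (.e (nat_lit 6723) (nat_lit 362) (.e (nat_lit 180271) (nat_lit 26) (.e (nat_lit 704737) (nat_lit 11) (.e (nat_lit 16465) (nat_lit 13) (.e (nat_lit 491264) (nat_lit 17) .nil))))) (.g (nat_lit 4) .nil .nil))) 
(.lf (nat_lit 120240) (.g (nat_lit 4495) (.e (nat_lit 6724) (nat_lit 362) (.e (nat_lit 180243) (nat_lit 5) (.e (nat_lit 532569) (nat_lit 16) (.e (nat_lit 401448) (nat_lit 10) (.e (nat_lit 434231) (nat_lit 23) (.e (nat_lit 532481) (nat_lit 0) .nil)))))) (.g (nat_lit 0) .nil .nil))))) (.nd (nat_lit 4) (.nd (nat_lit 5) 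
(.lf (nat_lit 120200) (.g (nat_lit 1451) (.e (nat_lit 6723) (nat_lit 362) (.e (nat_lit 180252) (nat_lit 10) (.e (nat_lit 573471) (nat_lit 11) (.e (nat_lit 16439) (nat_lit 9) .nil)))) .nil)) 
(.lf (nat_lit 120232) (.g (nat_lit 1362) (.e (nat_lit 6724) (nat_lit 362) (.e (nat_lit 180243) (nat_lit 5) (.e (nat_lit 532526) (nat_lit 8) (.e (nat_lit 327718) (nat_lit 19) .nil)))) .nil))) (.nd (nat_lit 5) 
(.lf (nat_lit 120216) (.g (nat_lit 1943) (.e (nat_lit 6723) (nat_lit 362) (.e (nat_lit 180271) (nat_lit 26) (.e (nat_lit 704738) (nat_lit 11) (.e (nat_lit 16446) (nat_lit 9) (.e (nat_lit 426517) (nat_lit 27) .nil))))) .nil)) 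
(.lf (nat_lit 120248) (.g (nat_lit 3228) (.e (nat_lit 6724) (nat_lit 362) (.e (nat_lit 180250) (nat_lit 10) (.e (nat_lit 573471) (nat_lit 11) (.e (nat_lit 16433) (nat_lit 9) (.e (nat_lit 426131) (nat_lit 3) (.e (nat_lit 204815) (nat_lit 17) .nil)))))) (.g (nat_lit 6) .nil .nil)))))) (.nd (nat_lit 3) (.nd (nat_lit 4) (.nd (nat_lit 5) 
(.lf (nat_lit 120196) (.g (nat_lit 1824) (.e (nat_lit 6723) (nat_lit 362) (.e (nat_lit 180250) (nat_lit 10) (.e (nat_lit 573503) (nat_lit 18) (.e (nat_lit 1349) (nat_lit 102) (.e (nat_lit 286748) (nat_lit 9) .nil))))) .nil)) 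
(.lf (nat_lit 120228) (.g (nat_lit 3385) (.e (nat_lit 6724) (nat_lit 362) (.e (nat_lit 180243) (nat_lit 5) (.e (nat_lit 532523) (nat_lit 7) (.e (nat_lit 319538) (nat_lit 19) (.e (nat_lit 311315) (nat_lit 3) (.e (nat_lit 204815) (nat_lit 17) .nil)))))) (.g (nat_lit 4) .nil .nil)))) (.nd (nat_lit 5) 
(.lf (nat_lit 120212) (.g (nat_lit 1823) (.e (nat_lit 6723) (nat_lit 362) (.e (nat_lit 180271) (nat_lit 26) (.e (nat_lit 704738) (nat_lit 11) (.e (nat_lit 16440) (nat_lit 9) (.e (nat_lit 426526) (nat_lit 27) (.e (nat_lit 335874) (nat_lit 0) .nil)))))) (.g (nat_lit 5) .nil .nil))) 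
(.lf (nat_lit 120244) (.g (nat_lit 2831) (.e (nat_lit 6724) (nat_lit 362) (.e (nat_lit 180245) (nat_lit 5) (.e (nat_lit 532523) (nat_lit 7) (.e (nat_lit 319538) (nat_lit 19) (.e (nat_lit 311315) (nat_lit 3) (.e (nat_lit 204816) (nat_lit 17) .nil)))))) (.g (nat_lit 4) .nil .nil))))) (.nd (nat_lit 4) (.nd (nat_lit 5) 
(.lf (nat_lit 120204) (.g (nat_lit 1225) (.e (nat_lit 6723) (nat_lit 362) (.e (nat_lit 180271) (nat_lit 26) (.e (nat_lit 704736) (nat_lit 11) (.e (nat_lit 16465) (nat_lit 13) (.e (nat_lit 491264) (nat_lit 17) .nil))))) .nil)) 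
(.lf (nat_lit 120236) (.g (nat_lit 1963) (.e (nat_lit 6724) (nat_lit 362) (.e (nat_lit 180243) (nat_lit 5) (.e (nat_lit 532569) (nat_lit 16) (.e (nat_lit 401440) (nat_lit 9) (.e (nat_lit 426134) (nat_lit 3) (.e (nat_lit 204815) (nat_lit 17) .nil)))))) (.g (nat_lit 4) .nil .nil)))) (.nd (nat_lit 5) 
(.lf (nat_lit 120220) (.g (nat_lit 1465) (.e (nat_lit 6724) (nat_lit 362) (.e (nat_lit 188160) (nat_lit 3) (.e (nat_lit 516195) (nat_lit 26) (.e (nat_lit 336223) (nat_lit 13) (.e (nat_lit 401152) (nat_lit 0) .nil))))) (.g (nat_lit 4) .nil .nil))) 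
(.lf (nat_lit 120252) (.g (nat_lit 1960) (.e (nat_lit 6724) (nat_lit 362) (.e (nat_lit 180251) (nat_lit 10) (.e (nat_lit 573469) (nat_lit 11) (.e (nat_lit 16454) (nat_lit 11) (.e (nat_lit 458789) (nat_lit 23) (.e (nat_lit 532482) (nat_lit 0) .nil)))))) (.g (nat_lit 4) .nil .nil))))))) (.nd (nat_lit 2) (.nd (nat_lit 3) (.nd (nat_lit 4) (.nd (nat_lit 5) 
(.lf (nat_lit 120194) (.g (nat_lit 1591) (.e (nat_lit 6723) (nat_lit 362) (.e (nat_lit 180250) (nat_lit 10) (.e (nat_lit 573471) (nat_lit 11) (.e (nat_lit 16449) (nat_lit 10) .nil)))) .nil)) 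
(.lf (nat_lit 120226) (.g (nat_lit 2510) (.e (nat_lit 6724) (nat_lit 362) (.e (nat_lit 180243) (nat_lit 5) (.e (nat_lit 532523) (nat_lit 7) (.e (nat_lit 319537) (nat_lit 19) (.e (nat_lit 311315) (nat_lit 3) (.e (nat_lit 204815) (nat_lit 17) .nil)))))) (.g (nat_lit 4) .nil .nil)))) (.nd (nat_lit 5) 
(.lf (nat_lit 120210) (.g (nat_lit 2296) (.e (nat_lit 6723) (nat_lit 362) (.e (nat_lit 180271) (nat_lit 26) (.e (nat_lit 704738) (nat_lit 11) (.e (nat_lit 16433) (nat_lit 9) (.e (nat_lit 426530) (nat_lit 27) .nil))))) .nil)) 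
(.lf (nat_lit 120242) (.g (nat_lit 1811) (.e (nat_lit 6724) (nat_lit 362) (.e (nat_lit 180245) (nat_lit 5) (.e (nat_lit 532523) (nat_lit 7) (.e (nat_lit 319537) (nat_lit 19) (.e (nat_lit 311315) (nat_lit 3) (.e (nat_lit 204816) (nat_lit 17) .nil)))))) (.g (nat_lit 4) .nil .nil))))) (.nd (nat_lit 4) (.nd (nat_lit 5) 
(.lf (nat_lit 120202) (.g (nat_lit 3332) (.e (nat_lit 6723) (nat_lit 362) (.e (nat_lit 180252) (nat_lit 10) (.e (nat_lit 573471) (nat_lit 11) (.e (nat_lit 16448) (nat_lit 10) (.e (nat_lit 434219) (nat_lit 19) .nil))))) .nil)) 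
(.lf (nat_lit 120234) (.g (nat_lit 1969) (.e (nat_lit 6724) (nat_lit 362) (.e (nat_lit 180243) (nat_lit 5) (.e (nat_lit 532569) (nat_lit 16) (.e (nat_lit 401440) (nat_lit 9) (.e (nat_lit 426003) (nat_lit 0) .nil))))) .nil))) (.nd (nat_lit 5) 
(.lf (nat_lit 120218) (.g (nat_lit 1462) (.e (nat_lit 6724) (nat_lit 362) (.e (nat_lit 180225) (nat_lit 0) (.e (nat_lit 6416) (nat_lit 341) (.e (nat_lit 163850) (nat_lit 0) (.e (nat_lit 7936) (nat_lit 392) .nil))))) .nil)) 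
(.lf (nat_lit 120250) (.g (nat_lit 2248) (.e (nat_lit 6724) (nat_lit 362) (.e (nat_lit 180250) (nat_lit 10) (.e (nat_lit 573471) (nat_lit 11) (.e (nat_lit 16435) (nat_lit 9) (.e (nat_lit 426131) (nat_lit 3) .nil))))) .nil))))) (.nd (nat_lit 3) (.nd (nat_lit 4) (.nd (nat_lit 5) 
(.lf (nat_lit 120198) (.g (nat_lit 2256) (.e (nat_lit 6723) (nat_lit 362) (.e (nat_lit 180252) (nat_lit 10) (.e (nat_lit 573471) (nat_lit 11) (.e (nat_lit 16433) (nat_lit 9) (.e (nat_lit 426128) (nat_lit 2) (.e (nat_lit 196628) (nat_lit 9) (.e (nat_lit 970) (nat_lit 81) .nil))))))) (.g (nat_lit 4) .nil .nil))) 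
(.lf (nat_lit 120230) (.g (nat_lit 2226) (.e (nat_lit 6724) (nat_lit 362) (.e (nat_lit 180243) (nat_lit 5) (.e (nat_lit 532523) (nat_lit 7) (.e (nat_lit 319539) (nat_lit 19) .nil)))) .nil))) (.nd (nat_lit 5) 
(.lf (nat_lit 120214) (.g (nat_lit 1947) (.e (nat_lit 6723) (nat_lit 362) (.e (nat_lit 180271) (nat_lit 26) (.e (nat_lit 704738) (nat_lit 11) (.e (nat_lit 16440) (nat_lit 9) (.e (nat_lit 426526) (nat_lit 27) (.e (nat_lit 335877) (nat_lit 0) .nil)))))) (.g (nat_lit 6) .nil .nil))) 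
(.lf (nat_lit 120246) (.g (nat_lit 3038) (.e (nat_lit 6724) (nat_lit 362) (.e (nat_lit 180250) (nat_lit 10) (.e (nat_lit 573470) (nat_lit 11) (.e (nat_lit 16435) (nat_lit 9) (.e (nat_lit 426131) (nat_lit 3) (.e (nat_lit 204816) (nat_lit 17) .nil)))))) (.g (nat_lit 5) .nil .nil))))) (.nd (nat_lit 4) (.nd (nat_lit 5) 
(.lf (nat_lit 120206) (.g (nat_lit 1671) (.e (nat_lit 6723) (nat_lit 362) (.e (nat_lit 180271) (nat_lit 26) (.e (nat_lit 704737) (nat_lit 11) (.e (nat_lit 16432) (nat_lit 9) .nil)))) .nil)) 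
(.lf (nat_lit 120238) (.g (nat_lit 1961) (.e (nat_lit 6724) (nat_lit 362) (.e (nat_lit 180243) (nat_lit 5) (.e (nat_lit 532569) (nat_lit 16) (.e (nat_lit 401440) (nat_lit 9) (.e (nat_lit 426136) (nat_lit 3) .nil))))) .nil))) (.nd (nat_lit 5) 
(.lf (nat_lit 120222) (.g (nat_lit 3479) (.e (nat_lit 6724) (nat_lit 362) (.e (nat_lit 180243) (nat_lit 5) (.e (nat_lit 532481) (nat_lit 0) (.e (nat_lit 6724) (nat_lit 362) (.e (nat_lit 180243) (nat_lit 5) (.e (nat_lit 532482) (nat_lit 0) .nil)))))) (.g (nat_lit 6) .nil .nil))) 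
(.lf (nat_lit 120254) (.g (nat_lit 2844) (.e (nat_lit 6724) (nat_lit 362) (.e (nat_lit 180252) (nat_lit 10) (.e (nat_lit 573470) (nat_lit 11) (.e (nat_lit 16435) (nat_lit 9) (.e (nat_lit 426131) (nat_lit 3) (.e (nat_lit 204816) (nat_lit 17) .nil)))))) (.g (nat_lit 5) .nil .nil)))))))) (.nd (nat_lit 1) (.nd (nat_lit 2) (.nd (nat_lit 3) (.nd (nat_lit 4) (.nd (nat_lit 5) 
(.lf (nat_lit 120193) (.g (nat_lit 3565) (.e (nat_lit 6723) (nat_lit 362) (.e (nat_lit 180250) (nat_lit 10) (.e (nat_lit 573471) (nat_lit 11) (.e (nat_lit 16448) (nat_lit 10) (.e (nat_lit 434219) (nat_lit 19) (.e (nat_lit 499965) (nat_lit 14) (.e (nat_lit 968) (nat_lit 81) .nil))))))) (.g (nat_lit 5) .nil .nil))) 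
(.lf (nat_lit 120225) (.g (nat_lit 1749) (.e (nat_lit 6724) (nat_lit 362) (.e (nat_lit 180243) (nat_lit 5) (.e (nat_lit 532522) (nat_lit 7) (.e (nat_lit 319538) (nat_lit 19) .nil)))) .nil))) (.nd (nat_lit 5) 
(.lf (nat_lit 120209) (.g (nat_lit 1823) (.e (nat_lit 6723) (nat_lit 362) (.e (nat_lit 180271) (nat_lit 26) (.e (nat_lit 704738) (nat_lit 11) (.e (nat_lit 16432) (nat_lit 9) (.e (nat_lit 426530) (nat_lit 27) .nil))))) .nil)) 
(.lf (nat_lit 120241) (.g (nat_lit 1367) (.e (nat_lit 6724) (nat_lit 362) (.e (nat_lit 180245) (nat_lit 5) (.e (nat_lit 532523) (nat_lit 7) (.e (nat_lit 319504) (nat_lit 10) (.e (nat_lit 7936) (nat_lit 315) .nil))))) .nil)))) (.nd (nat_lit 4) (.nd (nat_lit 5) 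
(.lf (nat_lit 120201) (.g (nat_lit 2810) (.e (nat_lit 6723) (nat_lit 362) (.e (nat_lit 180252) (nat_lit 10) (.e (nat_lit 573471) (nat_lit 11) (.e (nat_lit 16447) (nat_lit 10) (.e (nat_lit 434219) (nat_lit 19) .nil))))) .nil)) 
(.lf (nat_lit 120233) (.g (nat_lit 1790) (.e (nat_lit 6724) (nat_lit 362) (.e (nat_lit 180243) (nat_lit 5) (.e (nat_lit 532526) (nat_lit 8) (.e (nat_lit 327718) (nat_lit 19) (.e (nat_lit 311315) (nat_lit 3) .nil))))) .nil))) (.nd (nat_lit 5) 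
(.lf (nat_lit 120217) (.g (nat_lit 1614) (.e (nat_lit 6723) (nat_lit 362) (.e (nat_lit 180271) (nat_lit 26) (.e (nat_lit 704738) (nat_lit 11) (.e (nat_lit 16464) (nat_lit 13) (.e (nat_lit 491264) (nat_lit 17) .nil))))) (.g (nat_lit 4) .nil .nil))) 
(.lf (nat_lit 120249) (.g (nat_lit 3302) (.e (nat_lit 6724) (nat_lit 362) (.e (nat_lit 180250) (nat_lit 10) (.e (nat_lit 573471) (nat_lit 11) (.e (nat_lit 16433) (nat_lit 9) (.e (nat_lit 426131) (nat_lit 3) (.e (nat_lit 204816) (nat_lit 17) .nil)))))) (.g (nat_lit 0) .nil .nil)))))) (.nd (nat_lit 3) (.nd (nat_lit 4) (.nd (nat_lit 5) 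
(.lf (nat_lit 120197) (.g (nat_lit 756) (.e (nat_lit 6723) (nat_lit 362) (.e (nat_lit 180252) (nat_lit 10) (.e (nat_lit 573470) (nat_lit 11) .nil))) .nil)) 
(.lf (nat_lit 120229) (.g (nat_lit 3552) (.e (nat_lit 6724) (nat_lit 362) (.e (nat_lit 180243) (nat_lit 5) (.e (nat_lit 532523) (nat_lit 7) (.e (nat_lit 319538) (nat_lit 19) (.e (nat_lit 311315) (nat_lit 3) (.e (nat_lit 204816) (nat_lit 17) .nil)))))) (.g (nat_lit 4) .nil .nil)))) (.nd (nat_lit 5) 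
(.lf (nat_lit 120213) (.g (nat_lit 1721) (.e (nat_lit 6723) (nat_lit 362) (.e (nat_lit 180271) (nat_lit 26) (.e (nat_lit 704738) (nat_lit 11) (.e (nat_lit 16440) (nat_lit 9) (.e (nat_lit 426526) (nat_lit 27) (.e (nat_lit 335876) (nat_lit 0) .nil)))))) (.g (nat_lit 4) .nil .nil))) 
(.lf (nat_lit 120245) (.g (nat_lit 2789) (.e (nat_lit 6724) (nat_lit 362) (.e (nat_lit 180250) (nat_lit 10) (.e (nat_lit 573469) (nat_lit 11) (.e (nat_lit 16435) (nat_lit 9) (.e (nat_lit 426131) (nat_lit 3) (.e (nat_lit 204816) (nat_lit 17) .nil)))))) (.g (nat_lit 4) .nil .nil))))) (.nd (nat_lit 4) (.nd (nat_lit 5) 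
(.lf (nat_lit 120205) (.g (nat_lit 3045) (.e (nat_lit 6723) (nat_lit 362) (.e (nat_lit 180271) (nat_lit 26) (.e (nat_lit 704737) (nat_lit 11) (.e (nat_lit 16431) (nat_lit 9) (.e (nat_lit 426530) (nat_lit 27) (.e (nat_lit 335872) (nat_lit 0) .nil)))))) (.g (nat_lit 6) .nil .nil))) 
(.lf (nat_lit 120237) (.g (nat_lit 2186) (.e (nat_lit 6724) (nat_lit 362) (.e (nat_lit 180243) (nat_lit 5) (.e (nat_lit 532569) (nat_lit 16) (.e (nat_lit 401440) (nat_lit 9) (.e (nat_lit 426134) (nat_lit 3) (.e (nat_lit 204816) (nat_lit 17) .nil)))))) (.g (nat_lit 5) .nil .nil)))) (.nd (nat_lit 5) 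
(.lf (nat_lit 120221) (.g (nat_lit 1165) (.e (nat_lit 6724) (nat_lit 362) (.e (nat_lit 188160) (nat_lit 3) (.e (nat_lit 516199) (nat_lit 26) (.e (nat_lit 336215) (nat_lit 13) (.e (nat_lit 401152) (nat_lit 0) .nil))))) (.g (nat_lit 4) .nil .nil))) 
(.lf (nat_lit 120253) (.g (nat_lit 1727) (.e (nat_lit 6724) (nat_lit 362) (.e (nat_lit 180251) (nat_lit 10) (.e (nat_lit 573470) (nat_lit 11) (.e (nat_lit 16435) (nat_lit 9) (.e (nat_lit 426131) (nat_lit 3) (.e (nat_lit 204816) (nat_lit 17) .nil)))))) (.g (nat_lit 4) .nil .nil))))))) (.nd (nat_lit 2) (.nd (nat_lit 3) (.nd (nat_lit 4) (.nd (nat_lit 5) 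
(.lf (nat_lit 120195) (.g (nat_lit 3057) (.e (nat_lit 6723) (nat_lit 362) (.e (nat_lit 180250) (nat_lit 10) (.e (nat_lit 573474) (nat_lit 12) (.e (nat_lit 57572) (nat_lit 54) (.e (nat_lit 770058) (nat_lit 5) (.e (nat_lit 1669) (nat_lit 116) (.e (nat_lit 401425) (nat_lit 2) (.e (nat_lit 196628) (nat_lit 9) (.e (nat_lit 968) (nat_lit 81) .nil))))))))) (.g (nat_lit 5) .nil .nil))) 
(.lf (nat_lit 120227) (.g (nat_lit 2677) (.e (nat_lit 6724) (nat_lit 362) (.e (nat_lit 180243) (nat_lit 5) (.e (nat_lit 532523) (nat_lit 7) (.e (nat_lit 319537) (nat_lit 19) (.e (nat_lit 311315) (nat_lit 3) (.e (nat_lit 204816) (nat_lit 17) .nil)))))) (.g (nat_lit 4) .nil .nil)))) (.nd (nat_lit 5) 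
(.lf (nat_lit 120211) (.g (nat_lit 1709) (.e (nat_lit 6723) (nat_lit 362) (.e (nat_lit 180271) (nat_lit 26) (.e (nat_lit 704738) (nat_lit 11) (.e (nat_lit 16434) (nat_lit 9) (.e (nat_lit 426530) (nat_lit 27) .nil))))) .nil)) 
(.lf (nat_lit 120243) (.g (nat_lit 2531) (.e (nat_lit 6724) (nat_lit 362) (.e (nat_lit 180245) (nat_lit 5) (.e (nat_lit 532523) (nat_lit 7) (.e (nat_lit 319538) (nat_lit 19) (.e (nat_lit 311315) (nat_lit 3) .nil))))) .nil)))) (.nd (nat_lit 4) (.nd (nat_lit 5) 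
(.lf (nat_lit 120203) (.g (nat_lit 2503) (.e (nat_lit 6723) (nat_lit 362) (.e (nat_lit 180252) (nat_lit 10) (.e (nat_lit 573474) (nat_lit 12) (.e (nat_lit 57572) (nat_lit 54) (.e (nat_lit 770058) (nat_lit 5) .nil))))) .nil)) 
(.lf (nat_lit 120235) (.g (nat_lit 1824) (.e (nat_lit 6724) (nat_lit 362) (.e (nat_lit 180243) (nat_lit 5) (.e (nat_lit 532569) (nat_lit 16) (.e (nat_lit 401440) (nat_lit 9) (.e (nat_lit 426132) (nat_lit 3) .nil))))) .nil))) (.nd (nat_lit 5) 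
(.lf (nat_lit 120219) (.g (nat_lit 1951) (.e (nat_lit 6724) (nat_lit 362) (.e (nat_lit 180225) (nat_lit 0) (.e (nat_lit 6420) (nat_lit 341) (.e (nat_lit 163902) (nat_lit 12) (.e (nat_lit 426233) (nat_lit 9) .nil))))) .nil)) 
(.lf (nat_lit 120251) (.g (nat_lit 2195) (.e (nat_lit 6724) (nat_lit 362) (.e (nat_lit 180250) (nat_lit 10) (.e (nat_lit 573471) (nat_lit 11) (.e (nat_lit 16453) (nat_lit 11) (.e (nat_lit 458789) (nat_lit 23) (.e (nat_lit 532482) (nat_lit 0) .nil)))))) (.g (nat_lit 4) .nil .nil)))))) (.nd (nat_lit 3) (.nd (nat_lit 4) (.nd (nat_lit 5) 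
(.lf (nat_lit 120199) (.g (nat_lit 2804) (.e (nat_lit 6723) (nat_lit 362) (.e (nat_lit 180252) (nat_lit 10) (.e (nat_lit 573471) (nat_lit 11) (.e (nat_lit 16436) (nat_lit 9) (.e (nat_lit 426128) (nat_lit 2) .nil))))) .nil)) 
(.lf (nat_lit 120231) (.g (nat_lit 1456) (.e (nat_lit 6724) (nat_lit 362) (.e (nat_lit 180243) (nat_lit 5) (.e (nat_lit 532525) (nat_lit 8) (.e (nat_lit 327718) (nat_lit 19) .nil)))) .nil))) (.nd (nat_lit 5) 
(.lf (nat_lit 120215) (.g (nat_lit 1867) (.e (nat_lit 6723) (nat_lit 362) (.e (nat_lit 180271) (nat_lit 26) (.e (nat_lit 704738) (nat_lit 11) (.e (nat_lit 16444) (nat_lit 9) (.e (nat_lit 426520) (nat_lit 27) (.e (nat_lit 335874) (nat_lit 0) .nil)))))) (.g (nat_lit 6) .nil .nil))) 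
(.lf (nat_lit 120247) (.g (nat_lit 1895) (.e (nat_lit 6724) (nat_lit 362) (.e (nat_lit 180250) (nat_lit 10) (.e (nat_lit 573471) (nat_lit 11) (.e (nat_lit 16433) (nat_lit 9) (.e (nat_lit 426130) (nat_lit 3) .nil))))) .nil)))) (.nd (nat_lit 4) (.nd (nat_lit 5) 
(.lf (nat_lit 120207) (.g (nat_lit 1592) (.e (nat_lit 6723) (nat_lit 362) (.e (nat_lit 180271) (nat_lit 26) (.e (nat_lit 704737) (nat_lit 11) (.e (nat_lit 16444) (nat_lit 9) (.e (nat_lit 426520) (nat_lit 27) .nil))))) .nil)) 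
(.lf (nat_lit 120239) (.g (nat_lit 1088) (.e (nat_lit 6724) (nat_lit 362) (.e (nat_lit 180243) (nat_lit 5) (.e (nat_lit 532569) (nat_lit 16) (.e (nat_lit 401448) (nat_lit 10) .nil)))) .nil))) (.nd (nat_lit 5) 
(.lf (nat_lit 120223) (.g (nat_lit 1553) (.e (nat_lit 6724) (nat_lit 362) (.e (nat_lit 180243) (nat_lit 5) (.e (nat_lit 532482) (nat_lit 0) (.e (nat_lit 6722) (nat_lit 362) (.e (nat_lit 180243) (nat_lit 5) .nil))))) .nil)) 
(.lf (nat_lit 120255) (.g (nat_lit 2994) (.e (nat_lit 6724) (nat_lit 362) (.e (nat_lit 180252) (nat_lit 10) (.e (nat_lit 573471) (nat_lit 11) (.e (nat_lit 16433) (nat_lit 9) (.e (nat_lit 426131) (nat_lit 3) (.e (nat_lit 204815) (nat_lit 17) .nil)))))) (.g (nat_lit 6) .nil .nil)))))))))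

noncomputable def tv1602 : DT := (.nd (nat_lit 0) (.nd (nat_lit 1) (.nd (nat_lit 2) (.nd (nat_lit 3) (.nd (nat_lit 4) (.nd (nat_lit 5) 
(.lf (nat_lit 120256) (.g (nat_lit 3050) (.e (nat_lit 6724) (nat_lit 362) (.e (nat_lit 180252) (nat_lit 10) (.e (nat_lit 573471) (nat_lit 11) (.e (nat_lit 16433) (nat_lit 9) (.e (nat_lit 426131) (nat_lit 3) (.e (nat_lit 204816) (nat_lit 17) .nil)))))) (.g (nat_lit 6) .nil .nil))) 
(.lf (nat_lit 120288) (.g (nat_lit 1785) (.e (nat_lit 6724) (nat_lit 362) (.e (nat_lit 180271) (nat_lit 26) (.e (nat_lit 704738) (nat_lit 11) (.e (nat_lit 16431) (nat_lit 9) (.e (nat_lit 426528) (nat_lit 27) (.e (nat_lit 335895) (nat_lit 0) .nil)))))) (.g (nat_lit 4) .nil .nil)))) (.nd (nat_lit 5) 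
(.lf (nat_lit 120272) (.g (nat_lit 2501) (.e (nat_lit 6724) (nat_lit 362) (.e (nat_lit 180271) (nat_lit 26) (.e (nat_lit 704737) (nat_lit 11) (.e (nat_lit 16431) (nat_lit 9) (.e (nat_lit 426516) (nat_lit 27) (.e (nat_lit 335892) (nat_lit 0) .nil)))))) (.g (nat_lit 5) .nil .nil))) 
(.lf (nat_lit 120304) (.g (nat_lit 957) (.e (nat_lit 7936) (nat_lit 362) (.e (nat_lit 180243) (nat_lit 5) (.e (nat_lit 532482) (nat_lit 0) (.e (nat_lit 6724) (nat_lit 362) .nil)))) .nil)))) (.nd (nat_lit 4) (.nd (nat_lit 5) 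
(.lf (nat_lit 120264) (.g (nat_lit 1698) (.e (nat_lit 6724) (nat_lit 362) (.e (nat_lit 180271) (nat_lit 26) (.e (nat_lit 704735) (nat_lit 11) (.e (nat_lit 16465) (nat_lit 13) (.e (nat_lit 483343) (nat_lit 17) .nil))))) (.g (nat_lit 5) .nil .nil))) 
(.lf (nat_lit 120296) (.g (nat_lit 1519) (.e (nat_lit 6724) (nat_lit 362) (.e (nat_lit 180271) (nat_lit 26) (.e (nat_lit 704738) (nat_lit 11) (.e (nat_lit 16446) (nat_lit 9) (.e (nat_lit 426521) (nat_lit 27) (.e (nat_lit 335895) (nat_lit 0) .nil)))))) (.g (nat_lit 4) .nil .nil)))) (.nd (nat_lit 5) 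
(.lf (nat_lit 120280) (.g (nat_lit 1930) (.e (nat_lit 6724) (nat_lit 362) (.e (nat_lit 180271) (nat_lit 26) (.e (nat_lit 704737) (nat_lit 11) (.e (nat_lit 16446) (nat_lit 9) (.e (nat_lit 426500) (nat_lit 27) (.e (nat_lit 335893) (nat_lit 0) .nil)))))) (.g (nat_lit 4) .nil .nil))) 
(.lf (nat_lit 120312) (.g (nat_lit 1731) (.e (nat_lit 7936) (nat_lit 362) (.e (nat_lit 180244) (nat_lit 5) (.e (nat_lit 532523) (nat_lit 7) (.e (nat_lit 319537) (nat_lit 19) .nil)))) .nil))))) (.nd (nat_lit 3) (.nd (nat_lit 4) (.nd (nat_lit 5) 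
(.lf (nat_lit 120260) (.g (nat_lit 2785) (.e (nat_lit 6724) (nat_lit 362) (.e (nat_lit 180269) (nat_lit 25) (.e (nat_lit 696344) (nat_lit 8) (.e (nat_lit 172123) (nat_lit 13) (.e (nat_lit 483344) (nat_lit 17) .nil))))) (.g (nat_lit 0) .nil .nil))) 
(.lf (nat_lit 120292) (.g (nat_lit 1520) (.e (nat_lit 6724) (nat_lit 362) (.e (nat_lit 180271) (nat_lit 26) (.e (nat_lit 704738) (nat_lit 11) (.e (nat_lit 16440) (nat_lit 9) (.e (nat_lit 426501) (nat_lit 27) .nil))))) .nil))) (.nd (nat_lit 5) 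
(.lf (nat_lit 120276) (.g (nat_lit 1586) (.e (nat_lit 6724) (nat_lit 362) (.e (nat_lit 180271) (nat_lit 26) (.e (nat_lit 704737) (nat_lit 11) (.e (nat_lit 16439) (nat_lit 9) (.e (nat_lit 426528) (nat_lit 27) .nil))))) .nil)) 
(.lf (nat_lit 120308) (.g (nat_lit 1715) (.e (nat_lit 7936) (nat_lit 362) (.e (nat_lit 180243) (nat_lit 5) (.e (nat_lit 532563) (nat_lit 15) (.e (nat_lit 385106) (nat_lit 50) .nil)))) .nil)))) (.nd (nat_lit 4) (.nd (nat_lit 5) 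
(.lf (nat_lit 120268) (.g (nat_lit 3497) (.e (nat_lit 6724) (nat_lit 362) (.e (nat_lit 180271) (nat_lit 26) (.e (nat_lit 704737) (nat_lit 11) (.e (nat_lit 16431) (nat_lit 9) (.e (nat_lit 426499) (nat_lit 27) (.e (nat_lit 335894) (nat_lit 0) .nil)))))) (.g (nat_lit 5) .nil .nil))) 
(.lf (nat_lit 120300) (.g (nat_lit 2474) (.e (nat_lit 6724) (nat_lit 362) (.e (nat_lit 180271) (nat_lit 26) (.e (nat_lit 704738) (nat_lit 11) (.e (nat_lit 16466) (nat_lit 13) (.e (nat_lit 483343) (nat_lit 17) .nil))))) (.g (nat_lit 0) .nil .nil)))) (.nd (nat_lit 5) 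
(.lf (nat_lit 120284) (.g (nat_lit 3163) (.e (nat_lit 6724) (nat_lit 362) (.e (nat_lit 180271) (nat_lit 26) (.e (nat_lit 704737) (nat_lit 11) (.e (nat_lit 16463) (nat_lit 13) (.e (nat_lit 483344) (nat_lit 17) .nil))))) (.g (nat_lit 5) .nil .nil))) 
(.lf (nat_lit 120316) (.g (nat_lit 2023) (.e (nat_lit 7936) (nat_lit 362) (.e (nat_lit 180250) (nat_lit 10) (.e (nat_lit 573471) (nat_lit 11) (.e (nat_lit 16433) (nat_lit 9) (.e (nat_lit 426093) (nat_lit 0) .nil))))) .nil)))))) (.nd (nat_lit 2) (.nd (nat_lit 3) (.nd (nat_lit 4) (.nd (nat_lit 5) 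
(.lf (nat_lit 120258) (.g (nat_lit 2518) (.e (nat_lit 6724) (nat_lit 362) (.e (nat_lit 180269) (nat_lit 25) (.e (nat_lit 696344) (nat_lit 8) (.e (nat_lit 172121) (nat_lit 13) (.e (nat_lit 483344) (nat_lit 17) .nil))))) (.g (nat_lit 0) .nil .nil))) 
(.lf (nat_lit 120290) (.g (nat_lit 981) (.e (nat_lit 6724) (nat_lit 362) (.e (nat_lit 180271) (nat_lit 26) (.e (nat_lit 704738) (nat_lit 11) (.e (nat_lit 16440) (nat_lit 9) .nil)))) .nil))) (.nd (nat_lit 5) 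
(.lf (nat_lit 120274) (.g (nat_lit 1429) (.e (nat_lit 6724) (nat_lit 362) (.e (nat_lit 180271) (nat_lit 26) (.e (nat_lit 704737) (nat_lit 11) (.e (nat_lit 16431) (nat_lit 9) (.e (nat_lit 426528) (nat_lit 27) .nil))))) .nil)) 
(.lf (nat_lit 120306) (.g (nat_lit 1323) (.e (nat_lit 7936) (nat_lit 362) (.e (nat_lit 180243) (nat_lit 5) (.e (nat_lit 532523) (nat_lit 7) (.e (nat_lit 319504) (nat_lit 10) (.e (nat_lit 7936) (nat_lit 315) .nil))))) .nil)))) (.nd (nat_lit 4) (.nd (nat_lit 5) 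
(.lf (nat_lit 120266) (.g (nat_lit 1985) (.e (nat_lit 6724) (nat_lit 362) (.e (nat_lit 180271) (nat_lit 26) (.e (nat_lit 704737) (nat_lit 11) (.e (nat_lit 16431) (nat_lit 9) (.e (nat_lit 426496) (nat_lit 27) .nil))))) .nil)) 
(.lf (nat_lit 120298) (.g (nat_lit 2098) (.e (nat_lit 6724) (nat_lit 362) (.e (nat_lit 180271) (nat_lit 26) (.e (nat_lit 704738) (nat_lit 11) (.e (nat_lit 16464) (nat_lit 13) (.e (nat_lit 483343) (nat_lit 17) .nil))))) (.g (nat_lit 0) .nil .nil)))) (.nd (nat_lit 5) 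
(.lf (nat_lit 120282) (.g (nat_lit 1500) (.e (nat_lit 6724) (nat_lit 362) (.e (nat_lit 180271) (nat_lit 26) (.e (nat_lit 704737) (nat_lit 11) (.e (nat_lit 16448) (nat_lit 10) (.e (nat_lit 434200) (nat_lit 18) .nil))))) .nil)) 
(.lf (nat_lit 120314) (.g (nat_lit 1515) (.e (nat_lit 7936) (nat_lit 362) (.e (nat_lit 180245) (nat_lit 5) (.e (nat_lit 532523) (nat_lit 7) (.e (nat_lit 319537) (nat_lit 19) (.e (nat_lit 311315) (nat_lit 3) .nil))))) .nil))))) (.nd (nat_lit 3) (.nd (nat_lit 4) (.nd (nat_lit 5) 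
(.lf (nat_lit 120262) (.g (nat_lit 1424) (.e (nat_lit 6724) (nat_lit 362) (.e (nat_lit 180270) (nat_lit 26) (.e (nat_lit 704741) (nat_lit 11) (.e (nat_lit 16468) (nat_lit 13) (.e (nat_lit 483343) (nat_lit 17) .nil))))) (.g (nat_lit 0) .nil .nil))) 
(.lf (nat_lit 120294) (.g (nat_lit 3339) (.e (nat_lit 6724) (nat_lit 362) (.e (nat_lit 180271) (nat_lit 26) (.e (nat_lit 704738) (nat_lit 11) (.e (nat_lit 16444) (nat_lit 9) (.e (nat_lit 426503) (nat_lit 27) (.e (nat_lit 335894) (nat_lit 0) .nil)))))) (.g (nat_lit 0) .nil .nil)))) (.nd (nat_lit 5) 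
(.lf (nat_lit 120278) (.g (nat_lit 1622) (.e (nat_lit 6724) (nat_lit 362) (.e (nat_lit 180271) (nat_lit 26) (.e (nat_lit 704737) (nat_lit 11) (.e (nat_lit 16444) (nat_lit 9) (.e (nat_lit 426525) (nat_lit 27) (.e (nat_lit 335895) (nat_lit 0) .nil)))))) (.g (nat_lit 4) .nil .nil))) 
(.lf (nat_lit 120310) (.g (nat_lit 1783) (.e (nat_lit 7936) (nat_lit 362) (.e (nat_lit 180244) (nat_lit 5) (.e (nat_lit 532490) (nat_lit 0) (.e (nat_lit 7936) (nat_lit 362) .nil)))) .nil)))) (.nd (nat_lit 4) (.nd (nat_lit 5) 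
(.lf (nat_lit 120270) (.g (nat_lit 1985) (.e (nat_lit 6724) (nat_lit 362) (.e (nat_lit 180271) (nat_lit 26) (.e (nat_lit 704737) (nat_lit 11) (.e (nat_lit 16431) (nat_lit 9) (.e (nat_lit 426512) (nat_lit 27) .nil))))) .nil)) 
(.lf (nat_lit 120302) (.g (nat_lit 1942) (.e (nat_lit 6725) (nat_lit 362) (.e (nat_lit 180252) (nat_lit 10) (.e (nat_lit 573503) (nat_lit 18) (.e (nat_lit 1348) (nat_lit 102) (.e (nat_lit 286761) (nat_lit 13) (.e (nat_lit 401152) (nat_lit 0) .nil)))))) (.g (nat_lit 4) .nil .nil)))) (.nd (nat_lit 5) 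
(.lf (nat_lit 120286) (.g (nat_lit 2109) (.e (nat_lit 6724) (nat_lit 362) (.e (nat_lit 180271) (nat_lit 26) (.e (nat_lit 704737) (nat_lit 11) (.e (nat_lit 16466) (nat_lit 13) (.e (nat_lit 483343) (nat_lit 17) .nil))))) (.g (nat_lit 4) .nil .nil))) 
(.lf (nat_lit 120318) (.g (nat_lit 1569) (.e (nat_lit 7936) (nat_lit 362) (.e (nat_lit 180250) (nat_lit 10) (.e (nat_lit 573503) (nat_lit 18) (.e (nat_lit 1347) (nat_lit 102) .nil)))) .nil))))))) (.nd (nat_lit 1) (.nd (nat_lit 2) (.nd (nat_lit 3) (.nd (nat_lit 4) (.nd (nat_lit 5) 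
(.lf (nat_lit 120257) (.g (nat_lit 937) (.e (nat_lit 6724) (nat_lit 362) (.e (nat_lit 180269) (nat_lit 25) (.e (nat_lit 696344) (nat_lit 8) (.e (nat_lit 172088) (nat_lit 9) .nil)))) .nil)) 
(.lf (nat_lit 120289) (.g (nat_lit 1110) (.e (nat_lit 6724) (nat_lit 362) (.e (nat_lit 180271) (nat_lit 26) (.e (nat_lit 704738) (nat_lit 11) (.e (nat_lit 16436) (nat_lit 9) .nil)))) .nil))) (.nd (nat_lit 5) 
(.lf (nat_lit 120273) (.g (nat_lit 2753) (.e (nat_lit 6724) (nat_lit 362) (.e (nat_lit 180271) (nat_lit 26) (.e (nat_lit 704737) (nat_lit 11) (.e (nat_lit 16431) (nat_lit 9) (.e (nat_lit 426516) (nat_lit 27) (.e (nat_lit 335894) (nat_lit 0) .nil)))))) (.g (nat_lit 5) .nil .nil))) 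
(.lf (nat_lit 120305) (.g (nat_lit 1429) (.e (nat_lit 7936) (nat_lit 362) (.e (nat_lit 180243) (nat_lit 5) (.e (nat_lit 532490) (nat_lit 0) (.e (nat_lit 7936) (nat_lit 362) .nil)))) .nil)))) (.nd (nat_lit 4) (.nd (nat_lit 5) 
(.lf (nat_lit 120265) (.g (nat_lit 2010) (.e (nat_lit 6724) (nat_lit 362) (.e (nat_lit 180271) (nat_lit 26) (.e (nat_lit 704736) (nat_lit 11) (.e (nat_lit 16465) (nat_lit 13) (.e (nat_lit 483343) (nat_lit 17) .nil))))) (.g (nat_lit 5) .nil .nil))) 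
(.lf (nat_lit 120297) (.g (nat_lit 2431) (.e (nat_lit 6724) (nat_lit 362) (.e (nat_lit 180271) (nat_lit 26) (.e (nat_lit 704738) (nat_lit 11) (.e (nat_lit 16463) (nat_lit 13) (.e (nat_lit 483343) (nat_lit 17) .nil))))) (.g (nat_lit 0) .nil .nil)))) (.nd (nat_lit 5) 
(.lf (nat_lit 120281) (.g (nat_lit 2079) (.e (nat_lit 6724) (nat_lit 362) (.e (nat_lit 180271) (nat_lit 26) (.e (nat_lit 704737) (nat_lit 11) (.e (nat_lit 16446) (nat_lit 9) (.e (nat_lit 426500) (nat_lit 27) (.e (nat_lit 335894) (nat_lit 0) .nil)))))) (.g (nat_lit 4) .nil .nil))) 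
(.lf (nat_lit 120313) (.g (nat_lit 2654) (.e (nat_lit 7936) (nat_lit 362) (.e (nat_lit 180244) (nat_lit 5) (.e (nat_lit 532523) (nat_lit 7) (.e (nat_lit 319539) (nat_lit 19) (.e (nat_lit 311315) (nat_lit 3) .nil))))) .nil))))) (.nd (nat_lit 3) (.nd (nat_lit 4) (.nd (nat_lit 5) 
(.lf (nat_lit 120261) (.g (nat_lit 2393) (.e (nat_lit 6724) (nat_lit 362) (.e (nat_lit 180270) (nat_lit 26) (.e (nat_lit 704741) (nat_lit 11) (.e (nat_lit 16466) (nat_lit 13) (.e (nat_lit 483346) (nat_lit 17) .nil))))) (.g (nat_lit 0) .nil .nil))) 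
(.lf (nat_lit 120293) (.g (nat_lit 1555) (.e (nat_lit 6724) (nat_lit 362) (.e (nat_lit 180271) (nat_lit 26) (.e (nat_lit 704738) (nat_lit 11) (.e (nat_lit 16440) (nat_lit 9) (.e (nat_lit 426501) (nat_lit 27) (.e (nat_lit 335892) (nat_lit 0) .nil)))))) (.g (nat_lit 4) .nil .nil)))) (.nd (nat_lit 5) 
(.lf (nat_lit 120277) (.g (nat_lit 981) (.e (nat_lit 6724) (nat_lit 362) (.e (nat_lit 180271) (nat_lit 26) (.e (nat_lit 704737) (nat_lit 11) (.e (nat_lit 16444) (nat_lit 9) .nil)))) .nil)) 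
(.lf (nat_lit 120309) (.g (nat_lit 1873) (.e (nat_lit 7936) (nat_lit 362) (.e (nat_lit 180243) (nat_lit 5) (.e (nat_lit 532566) (nat_lit 15) (.e (nat_lit 385106) (nat_lit 50) (.e (nat_lit 786436) (nat_lit 0) .nil))))) .nil)))) (.nd (nat_lit 4) (.nd (nat_lit 5) 
(.lf (nat_lit 120269) (.g (nat_lit 4291) (.e (nat_lit 6724) (nat_lit 362) (.e (nat_lit 180271) (nat_lit 26) (.e (nat_lit 704737) (nat_lit 11) (.e (nat_lit 16431) (nat_lit 9) (.e (nat_lit 426499) (nat_lit 27) (.e (nat_lit 335895) (nat_lit 0) .nil)))))) (.g (nat_lit 0) .nil .nil))) 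
(.lf (nat_lit 120301) (.g (nat_lit 2461) (.e (nat_lit 6724) (nat_lit 362) (.e (nat_lit 180271) (nat_lit 26) (.e (nat_lit 704738) (nat_lit 11) (.e (nat_lit 16466) (nat_lit 13) (.e (nat_lit 483344) (nat_lit 17) .nil))))) (.g (nat_lit 5) .nil .nil)))) (.nd (nat_lit 5) 
(.lf (nat_lit 120285) (.g (nat_lit 1828) (.e (nat_lit 6724) (nat_lit 362) (.e (nat_lit 180271) (nat_lit 26) (.e (nat_lit 704737) (nat_lit 11) (.e (nat_lit 16464) (nat_lit 13) (.e (nat_lit 483344) (nat_lit 17) .nil))))) (.g (nat_lit 4) .nil .nil))) 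
(.lf (nat_lit 120317) (.g (nat_lit 608) (.e (nat_lit 7936) (nat_lit 362) (.e (nat_lit 180250) (nat_lit 10) (.e (nat_lit 573502) (nat_lit 18) .nil))) .nil)))))) (.nd (nat_lit 2) (.nd (nat_lit 3) (.nd (nat_lit 4) (.nd (nat_lit 5) 
(.lf (nat_lit 120259) (.g (nat_lit 2219) (.e (nat_lit 6724) (nat_lit 362) (.e (nat_lit 180269) (nat_lit 25) (.e (nat_lit 696344) (nat_lit 8) (.e (nat_lit 172123) (nat_lit 13) (.e (nat_lit 483343) (nat_lit 17) .nil))))) (.g (nat_lit 0) .nil .nil))) 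
(.lf (nat_lit 120291) (.g (nat_lit 1665) (.e (nat_lit 6724) (nat_lit 362) (.e (nat_lit 180271) (nat_lit 26) (.e (nat_lit 704738) (nat_lit 11) (.e (nat_lit 16440) (nat_lit 9) (.e (nat_lit 426498) (nat_lit 27) .nil))))) .nil))) (.nd (nat_lit 5) 
(.lf (nat_lit 120275) (.g (nat_lit 1624) (.e (nat_lit 6724) (nat_lit 362) (.e (nat_lit 180271) (nat_lit 26) (.e (nat_lit 704737) (nat_lit 11) (.e (nat_lit 16432) (nat_lit 9) .nil)))) .nil)) 
(.lf (nat_lit 120307) (.g (nat_lit 3086) (.e (nat_lit 7936) (nat_lit 362) (.e (nat_lit 180243) (nat_lit 5) (.e (nat_lit 532523) (nat_lit 7) (.e (nat_lit 319538) (nat_lit 19) (.e (nat_lit 311315) (nat_lit 3) .nil))))) .nil)))) (.nd (nat_lit 4) (.nd (nat_lit 5) 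
(.lf (nat_lit 120267) (.g (nat_lit 2123) (.e (nat_lit 6724) (nat_lit 362) (.e (nat_lit 180271) (nat_lit 26) (.e (nat_lit 704737) (nat_lit 11) (.e (nat_lit 16431) (nat_lit 9) (.e (nat_lit 426496) (nat_lit 27) (.e (nat_lit 335893) (nat_lit 0) .nil)))))) (.g (nat_lit 4) .nil .nil))) 
(.lf (nat_lit 120299) (.g (nat_lit 2403) (.e (nat_lit 6724) (nat_lit 362) (.e (nat_lit 180271) (nat_lit 26) (.e (nat_lit 704738) (nat_lit 11) (.e (nat_lit 16464) (nat_lit 13) (.e (nat_lit 483344) (nat_lit 17) .nil))))) (.g (nat_lit 0) .nil .nil)))) (.nd (nat_lit 5) 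
(.lf (nat_lit 120283) (.g (nat_lit 2280) (.e (nat_lit 6724) (nat_lit 362) (.e (nat_lit 180271) (nat_lit 26) (.e (nat_lit 704737) (nat_lit 11) (.e (nat_lit 16463) (nat_lit 13) (.e (nat_lit 483343) (nat_lit 17) .nil))))) (.g (nat_lit 4) .nil .nil))) 
(.lf (nat_lit 120315) (.g (nat_lit 2453) (.e (nat_lit 7936) (nat_lit 362) (.e (nat_lit 180245) (nat_lit 5) (.e (nat_lit 532523) (nat_lit 7) (.e (nat_lit 319538) (nat_lit 19) (.e (nat_lit 311315) (nat_lit 3) .nil))))) .nil))))) (.nd (nat_lit 3) (.nd (nat_lit 4) (.nd (nat_lit 5) 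
(.lf (nat_lit 120263) (.g (nat_lit 1755) (.e (nat_lit 6724) (nat_lit 362) (.e (nat_lit 180270) (nat_lit 26) (.e (nat_lit 704741) (nat_lit 11) (.e (nat_lit 16468) (nat_lit 13) (.e (nat_lit 483344) (nat_lit 17) .nil))))) (.g (nat_lit 0) .nil .nil))) 
(.lf (nat_lit 120295) (.g (nat_lit 2357) (.e (nat_lit 6724) (nat_lit 362) (.e (nat_lit 180271) (nat_lit 26) (.e (nat_lit 704738) (nat_lit 11) (.e (nat_lit 16446) (nat_lit 9) (.e (nat_lit 426500) (nat_lit 27) (.e (nat_lit 335893) (nat_lit 0) .nil)))))) (.g (nat_lit 6) .nil .nil)))) (.nd (nat_lit 5) 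
(.lf (nat_lit 120279) (.g (nat_lit 2065) (.e (nat_lit 6724) (nat_lit 362) (.e (nat_lit 180271) (nat_lit 26) (.e (nat_lit 704737) (nat_lit 11) (.e (nat_lit 16446) (nat_lit 9) (.e (nat_lit 426500) (nat_lit 27) (.e (nat_lit 335892) (nat_lit 0) .nil)))))) (.g (nat_lit 4) .nil .nil))) 
(.lf (nat_lit 120311) (.g (nat_lit 1641) (.e (nat_lit 7936) (nat_lit 362) (.e (nat_lit 180244) (nat_lit 5) (.e (nat_lit 532523) (nat_lit 7) (.e (nat_lit 319504) (nat_lit 10) (.e (nat_lit 7936) (nat_lit 315) .nil))))) .nil)))) (.nd (nat_lit 4) (.nd (nat_lit 5) 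
(.lf (nat_lit 120271) (.g (nat_lit 2097) (.e (nat_lit 6724) (nat_lit 362) (.e (nat_lit 180271) (nat_lit 26) (.e (nat_lit 704737) (nat_lit 11) (.e (nat_lit 16431) (nat_lit 9) (.e (nat_lit 426512) (nat_lit 27) (.e (nat_lit 335892) (nat_lit 0) .nil)))))) (.g (nat_lit 4) .nil .nil))) 
(.lf (nat_lit 120303) (.g (nat_lit 1726) (.e (nat_lit 6725) (nat_lit 362) (.e (nat_lit 180252) (nat_lit 10) (.e (nat_lit 573503) (nat_lit 18) (.e (nat_lit 1349) (nat_lit 102) .nil)))) .nil))) (.nd (nat_lit 5) 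
(.lf (nat_lit 120287) (.g (nat_lit 1729) (.e (nat_lit 6724) (nat_lit 362) (.e (nat_lit 180271) (nat_lit 26) (.e (nat_lit 704738) (nat_lit 11) (.e (nat_lit 16431) (nat_lit 9) (.e (nat_lit 426528) (nat_lit 27) .nil))))) .nil)) 
(.lf (nat_lit 120319) (.g (nat_lit 1548) (.e (nat_lit 7936) (nat_lit 362) (.e (nat_lit 180250) (nat_lit 10) (.e (nat_lit 573503) (nat_lit 18) (.e (nat_lit 1368) (nat_lit 103) .nil)))) .nil))))))))

noncomputable def tv1603 : DT := (.nd (nat_lit 0) (.nd (nat_lit 1) (.nd (nat_lit 2) (.nd (nat_lit 3) (.nd (nat_lit 4) (.nd (nat_lit 5) (.nd (nat_lit 6) 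
(.lf (nat_lit 120320) (.g (nat_lit 479) (.e (nat_lit 7936) (nat_lit 362) (.e (nat_lit 180251) (nat_lit 10) (.e (nat_lit 573502) (nat_lit 18) .nil))) .nil)) 
(.lf (nat_lit 120384) (.g (nat_lit 529) (.e (nat_lit 6779) (nat_lit 365) (.e (nat_lit 1196) (nat_lit 88) (.e (nat_lit 65616) (nat_lit 10) (.e (nat_lit 344123) (nat_lit 24) .nil)))) .nil))) (.nd (nat_lit 6) 
(.lf (nat_lit 120352) (.g (nat_lit 411) (.e (nat_lit 6740) (nat_lit 365) (.e (nat_lit 1201) (nat_lit 88) (.e (nat_lit 65617) (nat_lit 10) .nil))) .nil)) 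
(.lf (nat_lit 120416) (.g (nat_lit 1121) (.e (nat_lit 6792) (nat_lit 365) (.e (nat_lit 1219) (nat_lit 90) (.e (nat_lit 81947) (nat_lit 20) (.e (nat_lit 1885) (nat_lit 127) .nil)))) .nil)))) (.nd (nat_lit 5) (.nd (nat_lit 6) 
(.lf (nat_lit 120336) (.g (nat_lit 2104) (.e (nat_lit 7936) (nat_lit 362) (.e (nat_lit 180271) (nat_lit 26) (.e (nat_lit 704738) (nat_lit 11) (.e (nat_lit 16466) (nat_lit 13) (.e (nat_lit 483349) (nat_lit 17) .nil))))) .nil)) 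
(.lf (nat_lit 120400) (.g (nat_lit 2982) (.e (nat_lit 6791) (nat_lit 365) (.e (nat_lit 1221) (nat_lit 90) (.e (nat_lit 81956) (nat_lit 23) (.e (nat_lit 98309) (nat_lit 0) (.e (nat_lit 7936) (nat_lit 362) .nil))))) .nil))) (.nd (nat_lit 6) 
(.lf (nat_lit 120368) (.g (nat_lit 963) (.e (nat_lit 6740) (nat_lit 365) (.e (nat_lit 1222) (nat_lit 90) (.e (nat_lit 81960) (nat_lit 25) (.e (nat_lit 139272) (nat_lit 0) .nil)))) .nil)) 
(.lf (nat_lit 120432) (.g (nat_lit 1518) (.e (nat_lit 6792) (nat_lit 365) (.e (nat_lit 1221) (nat_lit 90) (.e (nat_lit 81953) (nat_lit 22) (.e (nat_lit 98048) (nat_lit 0) .nil)))) .nil))))) (.nd (nat_lit 4) (.nd (nat_lit 5) (.nd (nat_lit 6) 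
(.lf (nat_lit 120328) (.g (nat_lit 318) (.e (nat_lit 7936) (nat_lit 362) (.e (nat_lit 180271) (nat_lit 26) (.e (nat_lit 704735) (nat_lit 11) .nil))) .nil)) 
(.lf (nat_lit 120392) (.g (nat_lit 1519) (.e (nat_lit 6791) (nat_lit 365) (.e (nat_lit 1221) (nat_lit 90) (.e (nat_lit 81938) (nat_lit 20) (.e (nat_lit 1885) (nat_lit 127) .nil)))) .nil))) (.nd (nat_lit 6) 
(.lf (nat_lit 120360) (.g (nat_lit 447) (.e (nat_lit 6740) (nat_lit 365) (.e (nat_lit 1222) (nat_lit 90) (.e (nat_lit 89856) (nat_lit 7) .nil))) .nil)) 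
(.lf (nat_lit 120424) (.g (nat_lit 1363) (.e (nat_lit 6792) (nat_lit 365) (.e (nat_lit 1221) (nat_lit 90) (.e (nat_lit 81938) (nat_lit 20) (.e (nat_lit 1885) (nat_lit 127) .nil)))) .nil)))) (.nd (nat_lit 5) (.nd (nat_lit 6) 
(.lf (nat_lit 120344) (.g (nat_lit 692) (.e (nat_lit 6736) (nat_lit 365) (.e (nat_lit 1296) (nat_lit 96) (.e (nat_lit 131121) (nat_lit 12) .nil))) .nil)) 
(.lf (nat_lit 120408) (.g (nat_lit 2377) (.e (nat_lit 6792) (nat_lit 365) (.e (nat_lit 1199) (nat_lit 88) (.e (nat_lit 65610) (nat_lit 10) (.e (nat_lit 344117) (nat_lit 21) (.e (nat_lit 516116) (nat_lit 1) .nil))))) .nil))) (.nd (nat_lit 6) 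
(.lf (nat_lit 120376) (.g (nat_lit 629) (.e (nat_lit 6748) (nat_lit 365) (.e (nat_lit 1221) (nat_lit 90) (.e (nat_lit 81953) (nat_lit 22) .nil))) .nil)) 
(.lf (nat_lit 120440) (.g (nat_lit 3269) (.e (nat_lit 6792) (nat_lit 365) (.e (nat_lit 1221) (nat_lit 90) (.e (nat_lit 81956) (nat_lit 23) (.e (nat_lit 98311) (nat_lit 0) .nil)))) .nil)))))) (.nd (nat_lit 3) (.nd (nat_lit 4) (.nd (nat_lit 5) (.nd (nat_lit 6) 
(.lf (nat_lit 120324) (.g (nat_lit 2118) (.e (nat_lit 7936) (nat_lit 362) (.e (nat_lit 180252) (nat_lit 10) (.e (nat_lit 573503) (nat_lit 18) (.e (nat_lit 1348) (nat_lit 102) (.e (nat_lit 286748) (nat_lit 9) .nil))))) .nil)) 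
(.lf (nat_lit 120388) (.g (nat_lit 2213) (.e (nat_lit 6791) (nat_lit 365) (.e (nat_lit 1200) (nat_lit 88) (.e (nat_lit 65619) (nat_lit 10) (.e (nat_lit 344117) (nat_lit 21) (.e (nat_lit 516195) (nat_lit 26) (.e (nat_lit 335996) (nat_lit 1) (.e (nat_lit 57851) (nat_lit 252) (.e (nat_lit 57354) (nat_lit 0) (.e (nat_lit 1040) (nat_lit 81) .nil))))))))) (.g (nat_lit 4) .nil .nil)))) (.nd (nat_lit 6) 
(.lf (nat_lit 120356) (.g (nat_lit 1083) (.e (nat_lit 6740) (nat_lit 365) (.e (nat_lit 1201) (nat_lit 88) (.e (nat_lit 65617) (nat_lit 10) (.e (nat_lit 344138) (nat_lit 29) .nil)))) .nil)) 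
(.lf (nat_lit 120420) (.g (nat_lit 1616) (.e (nat_lit 6792) (nat_lit 365) (.e (nat_lit 1220) (nat_lit 90) (.e (nat_lit 81953) (nat_lit 22) (.e (nat_lit 98048) (nat_lit 0) .nil)))) .nil)))) (.nd (nat_lit 5) (.nd (nat_lit 6) 
(.lf (nat_lit 120340) (.g (nat_lit 1841) (.e (nat_lit 6736) (nat_lit 365) (.e (nat_lit 1201) (nat_lit 88) (.e (nat_lit 65610) (nat_lit 10) (.e (nat_lit 344138) (nat_lit 29) .nil)))) .nil)) 
(.lf (nat_lit 120404) (.g (nat_lit 487) (.e (nat_lit 6791) (nat_lit 365) (.e (nat_lit 1221) (nat_lit 90) (.e (nat_lit 81962) (nat_lit 25) .nil))) .nil))) (.nd (nat_lit 6) 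
(.lf (nat_lit 120372) (.g (nat_lit 1532) (.e (nat_lit 6741) (nat_lit 365) (.e (nat_lit 1201) (nat_lit 88) (.e (nat_lit 65610) (nat_lit 10) (.e (nat_lit 344123) (nat_lit 24) .nil)))) .nil)) 
(.lf (nat_lit 120436) (.g (nat_lit 3403) (.e (nat_lit 6792) (nat_lit 365) (.e (nat_lit 1221) (nat_lit 90) (.e (nat_lit 81953) (nat_lit 22) (.e (nat_lit 90155) (nat_lit 10) .nil)))) .nil))))) (.nd (nat_lit 4) (.nd (nat_lit 5) (.nd (nat_lit 6) 
(.lf (nat_lit 120332) (.g (nat_lit 1719) (.e (nat_lit 7936) (nat_lit 362) (.e (nat_lit 180271) (nat_lit 26) (.e (nat_lit 704738) (nat_lit 11) (.e (nat_lit 16440) (nat_lit 9) (.e (nat_lit 426501) (nat_lit 27) .nil))))) .nil)) 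
(.lf (nat_lit 120396) (.g (nat_lit 3444) (.e (nat_lit 6791) (nat_lit 365) (.e (nat_lit 1221) (nat_lit 90) (.e (nat_lit 81953) (nat_lit 22) (.e (nat_lit 90152) (nat_lit 10) .nil)))) .nil))) (.nd (nat_lit 6) 
(.lf (nat_lit 120364) (.g (nat_lit 645) (.e (nat_lit 6740) (nat_lit 365) (.e (nat_lit 1222) (nat_lit 90) (.e (nat_lit 81953) (nat_lit 22) .nil))) .nil)) 
(.lf (nat_lit 120428) (.g (nat_lit 1609) (.e (nat_lit 6792) (nat_lit 365) (.e (nat_lit 1221) (nat_lit 90) (.e (nat_lit 81947) (nat_lit 20) (.e (nat_lit 1886) (nat_lit 127) (.e (nat_lit 581636) (nat_lit 0) .nil))))) .nil)))) (.nd (nat_lit 5) (.nd (nat_lit 6) 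
(.lf (nat_lit 120348) (.g (nat_lit 1616) (.e (nat_lit 6740) (nat_lit 365) (.e (nat_lit 1201) (nat_lit 88) (.e (nat_lit 65610) (nat_lit 10) (.e (nat_lit 344123) (nat_lit 24) (.e (nat_lit 548608) (nat_lit 29) .nil))))) .nil)) 
(.lf (nat_lit 120412) (.g (nat_lit 1839) (.e (nat_lit 6792) (nat_lit 365) (.e (nat_lit 1199) (nat_lit 88) (.e (nat_lit 65617) (nat_lit 10) (.e (nat_lit 344130) (nat_lit 26) (.e (nat_lit 557119) (nat_lit 18) .nil))))) .nil))) (.nd (nat_lit 6) 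
(.lf (nat_lit 120380) (.g (nat_lit 1154) (.e (nat_lit 6753) (nat_lit 365) (.e (nat_lit 1200) (nat_lit 88) (.e (nat_lit 65619) (nat_lit 10) (.e (nat_lit 344123) (nat_lit 24) .nil)))) .nil)) 
(.lf (nat_lit 120444) (.g (nat_lit 1532) (.e (nat_lit 6792) (nat_lit 365) (.e (nat_lit 1221) (nat_lit 90) (.e (nat_lit 81962) (nat_lit 25) (.e (nat_lit 139266) (nat_lit 0) (.e (nat_lit 7936) (nat_lit 35) (.e (nat_lit 458496) (nat_lit 0) .nil)))))) (.g (nat_lit 4) .nil .nil)))))))) (.nd (nat_lit 2) (.nd (nat_lit 3) (.nd (nat_lit 4) (.nd (nat_lit 5) (.nd (nat_lit 6) 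
(.lf (nat_lit 120322) (.g (nat_lit 2165) (.e (nat_lit 7936) (nat_lit 362) (.e (nat_lit 180251) (nat_lit 10) (.e (nat_lit 573503) (nat_lit 18) (.e (nat_lit 1349) (nat_lit 102) (.e (nat_lit 286761) (nat_lit 13) .nil))))) .nil)) 
(.lf (nat_lit 120386) (.g (nat_lit 287) (.e (nat_lit 6791) (nat_lit 365) (.e (nat_lit 1199) (nat_lit 88) (.e (nat_lit 65610) (nat_lit 10) .nil))) .nil))) (.nd (nat_lit 6) 
(.lf (nat_lit 120354) (.g (nat_lit 1343) (.e (nat_lit 6740) (nat_lit 365) (.e (nat_lit 1201) (nat_lit 88) (.e (nat_lit 65617) (nat_lit 10) (.e (nat_lit 344130) (nat_lit 26) .nil)))) .nil)) 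
(.lf (nat_lit 120418) (.g (nat_lit 1511) (.e (nat_lit 6792) (nat_lit 365) (.e (nat_lit 1220) (nat_lit 90) (.e (nat_lit 81938) (nat_lit 20) (.e (nat_lit 1885) (nat_lit 127) .nil)))) .nil)))) (.nd (nat_lit 5) (.nd (nat_lit 6) 
(.lf (nat_lit 120338) (.g (nat_lit 545) (.e (nat_lit 6731) (nat_lit 364) (.e (nat_lit 237636) (nat_lit 27) (.e (nat_lit 343808) (nat_lit 14) .nil))) .nil)) 
(.lf (nat_lit 120402) (.g (nat_lit 2841) (.e (nat_lit 6791) (nat_lit 365) (.e (nat_lit 1221) (nat_lit 90) (.e (nat_lit 81956) (nat_lit 23) (.e (nat_lit 98313) (nat_lit 9) .nil)))) .nil))) (.nd (nat_lit 6) 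
(.lf (nat_lit 120370) (.g (nat_lit 1023) (.e (nat_lit 6740) (nat_lit 365) (.e (nat_lit 1224) (nat_lit 90) (.e (nat_lit 81946) (nat_lit 20) (.e (nat_lit 1886) (nat_lit 127) .nil)))) .nil)) 
(.lf (nat_lit 120434) (.g (nat_lit 3267) (.e (nat_lit 6792) (nat_lit 365) (.e (nat_lit 1221) (nat_lit 90) (.e (nat_lit 81953) (nat_lit 22) (.e (nat_lit 90152) (nat_lit 10) .nil)))) .nil))))) (.nd (nat_lit 4) (.nd (nat_lit 5) (.nd (nat_lit 6) 
(.lf (nat_lit 120330) (.g (nat_lit 2153) (.e (nat_lit 7936) (nat_lit 362) (.e (nat_lit 180271) (nat_lit 26) (.e (nat_lit 704737) (nat_lit 11) (.e (nat_lit 16463) (nat_lit 13) (.e (nat_lit 483349) (nat_lit 17) .nil))))) .nil)) 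
(.lf (nat_lit 120394) (.g (nat_lit 1434) (.e (nat_lit 6791) (nat_lit 365) (.e (nat_lit 1221) (nat_lit 90) (.e (nat_lit 81953) (nat_lit 22) (.e (nat_lit 98048) (nat_lit 0) .nil)))) .nil))) (.nd (nat_lit 6) 
(.lf (nat_lit 120362) (.g (nat_lit 946) (.e (nat_lit 6740) (nat_lit 365) (.e (nat_lit 1222) (nat_lit 90) (.e (nat_lit 81943) (nat_lit 20) (.e (nat_lit 1886) (nat_lit 127) .nil)))) .nil)) 
(.lf (nat_lit 120426) (.g (nat_lit 1677) (.e (nat_lit 6792) (nat_lit 365) (.e (nat_lit 1221) (nat_lit 90) (.e (nat_lit 81947) (nat_lit 20) (.e (nat_lit 1885) (nat_lit 127) (.e (nat_lit 581651) (nat_lit 4) .nil))))) .nil)))) (.nd (nat_lit 5) (.nd (nat_lit 6) 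
(.lf (nat_lit 120346) (.g (nat_lit 702) (.e (nat_lit 6736) (nat_lit 365) (.e (nat_lit 1296) (nat_lit 96) (.e (nat_lit 131123) (nat_lit 12) .nil))) .nil)) 
(.lf (nat_lit 120410) (.g (nat_lit 715) (.e (nat_lit 6792) (nat_lit 365) (.e (nat_lit 1199) (nat_lit 88) (.e (nat_lit 65611) (nat_lit 10) (.e (nat_lit 344123) (nat_lit 24) .nil)))) .nil))) (.nd (nat_lit 6) 
(.lf (nat_lit 120378) (.g (nat_lit 1725) (.e (nat_lit 6749) (nat_lit 365) (.e (nat_lit 1201) (nat_lit 88) (.e (nat_lit 65610) (nat_lit 10) (.e (nat_lit 344123) (nat_lit 24) .nil)))) .nil)) 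
(.lf (nat_lit 120442) (.g (nat_lit 552) (.e (nat_lit 6792) (nat_lit 365) (.e (nat_lit 1221) (nat_lit 90) (.e (nat_lit 81962) (nat_lit 25) .nil))) .nil)))))) (.nd (nat_lit 3) (.nd (nat_lit 4) (.nd (nat_lit 5) (.nd (nat_lit 6) 
(.lf (nat_lit 120326) (.g (nat_lit 1920) (.e (nat_lit 7936) (nat_lit 362) (.e (nat_lit 180252) (nat_lit 10) (.e (nat_lit 573503) (nat_lit 18) (.e (nat_lit 1368) (nat_lit 103) (.e (nat_lit 294958) (nat_lit 13) .nil))))) .nil)) 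
(.lf (nat_lit 120390) (.g (nat_lit 4084) (.e (nat_lit 6791) (nat_lit 365) (.e (nat_lit 1220) (nat_lit 90) (.e (nat_lit 81953) (nat_lit 22) (.e (nat_lit 90155) (nat_lit 10) .nil)))) .nil))) (.nd (nat_lit 6) 
(.lf (nat_lit 120358) (.g (nat_lit 1476) (.e (nat_lit 6740) (nat_lit 365) (.e (nat_lit 1201) (nat_lit 88) (.e (nat_lit 65624) (nat_lit 12) (.e (nat_lit 385063) (nat_lit 25) .nil)))) .nil)) 
(.lf (nat_lit 120422) (.g (nat_lit 4003) (.e (nat_lit 6792) (nat_lit 365) (.e (nat_lit 1220) (nat_lit 90) (.e (nat_lit 81953) (nat_lit 22) (.e (nat_lit 90155) (nat_lit 10) .nil)))) .nil)))) (.nd (nat_lit 5) (.nd (nat_lit 6) 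
(.lf (nat_lit 120342) (.g (nat_lit 3127) (.e (nat_lit 6736) (nat_lit 365) (.e (nat_lit 1223) (nat_lit 90) (.e (nat_lit 81953) (nat_lit 22) (.e (nat_lit 90155) (nat_lit 10) .nil)))) .nil)) 
(.lf (nat_lit 120406) (.g (nat_lit 1472) (.e (nat_lit 6791) (nat_lit 365) (.e (nat_lit 1221) (nat_lit 90) (.e (nat_lit 81962) (nat_lit 25) (.e (nat_lit 139291) (nat_lit 10) (.e (nat_lit 16128) (nat_lit 241) .nil))))) .nil))) (.nd (nat_lit 6) 
(.lf (nat_lit 120374) (.g (nat_lit 1839) (.e (nat_lit 6748) (nat_lit 365) (.e (nat_lit 1201) (nat_lit 88) (.e (nat_lit 65610) (nat_lit 10) (.e (nat_lit 344138) (nat_lit 29) .nil)))) .nil)) 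
(.lf (nat_lit 120438) (.g (nat_lit 2256) (.e (nat_lit 6792) (nat_lit 365) (.e (nat_lit 1221) (nat_lit 90) (.e (nat_lit 81956) (nat_lit 23) (.e (nat_lit 98309) (nat_lit 0) .nil)))) .nil))))) (.nd (nat_lit 4) (.nd (nat_lit 5) (.nd (nat_lit 6) 
(.lf (nat_lit 120334) (.g (nat_lit 1449) (.e (nat_lit 7936) (nat_lit 362) (.e (nat_lit 180271) (nat_lit 26) (.e (nat_lit 704738) (nat_lit 11) (.e (nat_lit 16464) (nat_lit 13) (.e (nat_lit 483348) (nat_lit 17) .nil))))) .nil)) 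
(.lf (nat_lit 120398) (.g (nat_lit 3893) (.e (nat_lit 6791) (nat_lit 365) (.e (nat_lit 1221) (nat_lit 90) (.e (nat_lit 81953) (nat_lit 22) (.e (nat_lit 90155) (nat_lit 10) (.e (nat_lit 16128) (nat_lit 241) .nil))))) .nil))) (.nd (nat_lit 6) 
(.lf (nat_lit 120366) (.g (nat_lit 645) (.e (nat_lit 6740) (nat_lit 365) (.e (nat_lit 1222) (nat_lit 90) (.e (nat_lit 81956) (nat_lit 23) .nil))) .nil)) 
(.lf (nat_lit 120430) (.g (nat_lit 3821) (.e (nat_lit 6792) (nat_lit 365) (.e (nat_lit 1221) (nat_lit 90) (.e (nat_lit 81953) (nat_lit 22) (.e (nat_lit 90118) (nat_lit 0) .nil)))) .nil)))) (.nd (nat_lit 5) (.nd (nat_lit 6) 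
(.lf (nat_lit 120350) (.g (nat_lit 1170) (.e (nat_lit 6740) (nat_lit 365) (.e (nat_lit 1201) (nat_lit 88) (.e (nat_lit 65610) (nat_lit 10) (.e (nat_lit 344138) (nat_lit 29) .nil)))) .nil)) 
(.lf (nat_lit 120414) (.g (nat_lit 1042) (.e (nat_lit 6792) (nat_lit 365) (.e (nat_lit 1200) (nat_lit 88) (.e (nat_lit 65619) (nat_lit 10) (.e (nat_lit 344123) (nat_lit 24) .nil)))) .nil))) (.nd (nat_lit 6) 
(.lf (nat_lit 120382) (.g (nat_lit 2739) (.e (nat_lit 6754) (nat_lit 365) (.e (nat_lit 1220) (nat_lit 90) (.e (nat_lit 81956) (nat_lit 23) (.e (nat_lit 98309) (nat_lit 0) .nil)))) .nil)) 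
(.lf (nat_lit 120446) (.g (nat_lit 1007) (.e (nat_lit 6792) (nat_lit 365) (.e (nat_lit 1221) (nat_lit 90) (.e (nat_lit 81962) (nat_lit 25) (.e (nat_lit 139271) (nat_lit 0) .nil)))) .nil)))))))) (.nd (nat_lit 1) (.nd (nat_lit 2) (.nd (nat_lit 3) (.nd (nat_lit 4) (.nd (nat_lit 5) (.nd (nat_lit 6) 
(.lf (nat_lit 120321) (.g (nat_lit 2246) (.e (nat_lit 7936) (nat_lit 362) (.e (nat_lit 180251) (nat_lit 10) (.e (nat_lit 573503) (nat_lit 18) (.e (nat_lit 1349) (nat_lit 102) (.e (nat_lit 286748) (nat_lit 9) .nil))))) .nil)) 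
(.lf (nat_lit 120385) (.g (nat_lit 1577) (.e (nat_lit 6791) (nat_lit 365) (.e (nat_lit 1181) (nat_lit 87) (.e (nat_lit 57713) (nat_lit 176) (.e (nat_lit 1348) (nat_lit 102) (.e (nat_lit 286761) (nat_lit 13) .nil))))) .nil))) (.nd (nat_lit 6) 
(.lf (nat_lit 120353) (.g (nat_lit 1361) (.e (nat_lit 6740) (nat_lit 365) (.e (nat_lit 1201) (nat_lit 88) (.e (nat_lit 65617) (nat_lit 10) (.e (nat_lit 344123) (nat_lit 24) .nil)))) .nil)) 
(.lf (nat_lit 120417) (.g (nat_lit 523) (.e (nat_lit 6792) (nat_lit 365) (.e (nat_lit 1219) (nat_lit 90) (.e (nat_lit 81960) (nat_lit 25) .nil))) .nil)))) (.nd (nat_lit 5) (.nd (nat_lit 6) 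
(.lf (nat_lit 120337) (.g (nat_lit 2151) (.e (nat_lit 7936) (nat_lit 362) (.e (nat_lit 180271) (nat_lit 26) (.e (nat_lit 704738) (nat_lit 11) (.e (nat_lit 16466) (nat_lit 13) (.e (nat_lit 483359) (nat_lit 17) .nil))))) .nil)) 
(.lf (nat_lit 120401) (.g (nat_lit 3446) (.e (nat_lit 6791) (nat_lit 365) (.e (nat_lit 1221) (nat_lit 90) (.e (nat_lit 81956) (nat_lit 23) (.e (nat_lit 98311) (nat_lit 0) .nil)))) .nil))) (.nd (nat_lit 6) 
(.lf (nat_lit 120369) (.g (nat_lit 2085) (.e (nat_lit 6740) (nat_lit 365) (.e (nat_lit 1223) (nat_lit 90) (.e (nat_lit 81956) (nat_lit 23) (.e (nat_lit 98309) (nat_lit 0) (.e (nat_lit 7936) (nat_lit 362) .nil))))) .nil)) 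
(.lf (nat_lit 120433) (.g (nat_lit 1518) (.e (nat_lit 6792) (nat_lit 365) (.e (nat_lit 1221) (nat_lit 90) (.e (nat_lit 81953) (nat_lit 22) (.e (nat_lit 98048) (nat_lit 2) .nil)))) .nil))))) (.nd (nat_lit 4) (.nd (nat_lit 5) (.nd (nat_lit 6) 
(.lf (nat_lit 120329) (.g (nat_lit 1176) (.e (nat_lit 7936) (nat_lit 362) (.e (nat_lit 180271) (nat_lit 26) (.e (nat_lit 704735) (nat_lit 11) (.e (nat_lit 16465) (nat_lit 13) (.e (nat_lit 483351) (nat_lit 17) .nil))))) .nil)) 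
(.lf (nat_lit 120393) (.g (nat_lit 1491) (.e (nat_lit 6791) (nat_lit 365) (.e (nat_lit 1221) (nat_lit 90) (.e (nat_lit 81938) (nat_lit 20) (.e (nat_lit 1886) (nat_lit 127) .nil)))) .nil))) (.nd (nat_lit 6) 
(.lf (nat_lit 120361) (.g (nat_lit 934) (.e (nat_lit 6740) (nat_lit 365) (.e (nat_lit 1222) (nat_lit 90) (.e (nat_lit 81935) (nat_lit 20) (.e (nat_lit 1879) (nat_lit 126) .nil)))) .nil)) 
(.lf (nat_lit 120425) (.g (nat_lit 607) (.e (nat_lit 6792) (nat_lit 365) (.e (nat_lit 1221) (nat_lit 90) (.e (nat_lit 81939) (nat_lit 20) .nil))) .nil)))) (.nd (nat_lit 5) (.nd (nat_lit 6) 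
(.lf (nat_lit 120345) (.g (nat_lit 811) (.e (nat_lit 6736) (nat_lit 365) (.e (nat_lit 1296) (nat_lit 96) (.e (nat_lit 131122) (nat_lit 12) (.e (nat_lit 385063) (nat_lit 25) .nil)))) .nil)) 
(.lf (nat_lit 120409) (.g (nat_lit 2104) (.e (nat_lit 6792) (nat_lit 365) (.e (nat_lit 1199) (nat_lit 88) (.e (nat_lit 65610) (nat_lit 10) (.e (nat_lit 344117) (nat_lit 21) (.e (nat_lit 516191) (nat_lit 17) .nil))))) .nil))) (.nd (nat_lit 6) 
(.lf (nat_lit 120377) (.g (nat_lit 434) (.e (nat_lit 6748) (nat_lit 365) (.e (nat_lit 1222) (nat_lit 90) (.e (nat_lit 89856) (nat_lit 7) .nil))) .nil)) 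
(.lf (nat_lit 120441) (.g (nat_lit 1374) (.e (nat_lit 6792) (nat_lit 365) (.e (nat_lit 1221) (nat_lit 90) (.e (nat_lit 81959) (nat_lit 24) (.e (nat_lit 123025) (nat_lit 127) (.e (nat_lit 229415) (nat_lit 15) .nil))))) .nil)))))) (.nd (nat_lit 3) (.nd (nat_lit 4) (.nd (nat_lit 5) (.nd (nat_lit 6) 
(.lf (nat_lit 120325) (.g (nat_lit 2077) (.e (nat_lit 7936) (nat_lit 362) (.e (nat_lit 180252) (nat_lit 10) (.e (nat_lit 573503) (nat_lit 18) (.e (nat_lit 1349) (nat_lit 102) (.e (nat_lit 286761) (nat_lit 13) .nil))))) .nil)) 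
(.lf (nat_lit 120389) (.g (nat_lit 515) (.e (nat_lit 6791) (nat_lit 365) (.e (nat_lit 1220) (nat_lit 90) (.e (nat_lit 81953) (nat_lit 22) .nil))) .nil))) (.nd (nat_lit 6) 
(.lf (nat_lit 120357) (.g (nat_lit 1352) (.e (nat_lit 6740) (nat_lit 365) (.e (nat_lit 1201) (nat_lit 88) (.e (nat_lit 65617) (nat_lit 10) (.e (nat_lit 344138) (nat_lit 29) (.e (nat_lit 581636) (nat_lit 0) .nil))))) .nil)) 
(.lf (nat_lit 120421) (.g (nat_lit 1616) (.e (nat_lit 6792) (nat_lit 365) (.e (nat_lit 1220) (nat_lit 90) (.e (nat_lit 81953) (nat_lit 22) (.e (nat_lit 98048) (nat_lit 2) .nil)))) .nil)))) (.nd (nat_lit 5) (.nd (nat_lit 6) 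
(.lf (nat_lit 120341) (.g (nat_lit 349) (.e (nat_lit 6736) (nat_lit 365) (.e (nat_lit 1217) (nat_lit 90) (.e (nat_lit 81953) (nat_lit 22) .nil))) .nil)) 
(.lf (nat_lit 120405) (.g (nat_lit 1798) (.e (nat_lit 6791) (nat_lit 365) (.e (nat_lit 1221) (nat_lit 90) (.e (nat_lit 81962) (nat_lit 25) (.e (nat_lit 139276) (nat_lit 2) (.e (nat_lit 16436) (nat_lit 9) (.e (nat_lit 425986) (nat_lit 0) (.e (nat_lit 2463) (nat_lit 157) .nil))))))) (.g (nat_lit 5) .nil .nil)))) (.nd (nat_lit 6) 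
(.lf (nat_lit 120373) (.g (nat_lit 434) (.e (nat_lit 6741) (nat_lit 365) (.e (nat_lit 1222) (nat_lit 90) (.e (nat_lit 89856) (nat_lit 7) .nil))) .nil)) 
(.lf (nat_lit 120437) (.g (nat_lit 532) (.e (nat_lit 6792) (nat_lit 365) (.e (nat_lit 1221) (nat_lit 90) (.e (nat_lit 81956) (nat_lit 23) .nil))) .nil))))) (.nd (nat_lit 4) (.nd (nat_lit 5) (.nd (nat_lit 6) 
(.lf (nat_lit 120333) (.g (nat_lit 2006) (.e (nat_lit 7936) (nat_lit 362) (.e (nat_lit 180271) (nat_lit 26) (.e (nat_lit 704738) (nat_lit 11) (.e (nat_lit 16463) (nat_lit 13) (.e (nat_lit 483348) (nat_lit 17) .nil))))) .nil)) 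
(.lf (nat_lit 120397) (.g (nat_lit 3838) (.e (nat_lit 6791) (nat_lit 365) (.e (nat_lit 1221) (nat_lit 90) (.e (nat_lit 81953) (nat_lit 22) (.e (nat_lit 90153) (nat_lit 10) .nil)))) .nil))) (.nd (nat_lit 6) 
(.lf (nat_lit 120365) (.g (nat_lit 1511) (.e (nat_lit 6740) (nat_lit 365) (.e (nat_lit 1222) (nat_lit 90) (.e (nat_lit 81954) (nat_lit 23) (.e (nat_lit 98309) (nat_lit 0) (.e (nat_lit 7936) (nat_lit 362) .nil))))) .nil)) 
(.lf (nat_lit 120429) (.g (nat_lit 2289) (.e (nat_lit 6792) (nat_lit 365) (.e (nat_lit 1221) (nat_lit 90) (.e (nat_lit 81953) (nat_lit 22) (.e (nat_lit 90116) (nat_lit 0) .nil)))) .nil)))) (.nd (nat_lit 5) (.nd (nat_lit 6) 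
(.lf (nat_lit 120349) (.g (nat_lit 2184) (.e (nat_lit 6740) (nat_lit 365) (.e (nat_lit 1201) (nat_lit 88) (.e (nat_lit 65610) (nat_lit 10) (.e (nat_lit 344129) (nat_lit 26) (.e (nat_lit 557119) (nat_lit 18) .nil))))) .nil)) 
(.lf (nat_lit 120413) (.g (nat_lit 1145) (.e (nat_lit 6792) (nat_lit 365) (.e (nat_lit 1199) (nat_lit 88) (.e (nat_lit 65617) (nat_lit 10) (.e (nat_lit 344138) (nat_lit 29) .nil)))) .nil))) (.nd (nat_lit 6) 
(.lf (nat_lit 120381) (.g (nat_lit 1220) (.e (nat_lit 6753) (nat_lit 365) (.e (nat_lit 1200) (nat_lit 88) (.e (nat_lit 65619) (nat_lit 10) (.e (nat_lit 344138) (nat_lit 29) .nil)))) .nil)) 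
(.lf (nat_lit 120445) (.g (nat_lit 1514) (.e (nat_lit 6792) (nat_lit 365) (.e (nat_lit 1221) (nat_lit 90) (.e (nat_lit 81962) (nat_lit 25) (.e (nat_lit 139268) (nat_lit 0) (.e (nat_lit 7936) (nat_lit 35) (.e (nat_lit 458496) (nat_lit 0) .nil)))))) (.g (nat_lit 4) .nil .nil)))))))) (.nd (nat_lit 2) (.nd (nat_lit 3) (.nd (nat_lit 4) (.nd (nat_lit 5) (.nd (nat_lit 6) 
(.lf (nat_lit 120323) (.g (nat_lit 1897) (.e (nat_lit 7936) (nat_lit 362) (.e (nat_lit 180252) (nat_lit 10) (.e (nat_lit 573471) (nat_lit 11) (.e (nat_lit 16433) (nat_lit 9) (.e (nat_lit 426093) (nat_lit 0) .nil))))) .nil)) 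
(.lf (nat_lit 120387) (.g (nat_lit 1148) (.e (nat_lit 6791) (nat_lit 365) (.e (nat_lit 1199) (nat_lit 88) (.e (nat_lit 65617) (nat_lit 10) (.e (nat_lit 344138) (nat_lit 29) .nil)))) .nil))) (.nd (nat_lit 6) 
(.lf (nat_lit 120355) (.g (nat_lit 1227) (.e (nat_lit 6740) (nat_lit 365) (.e (nat_lit 1201) (nat_lit 88) (.e (nat_lit 65617) (nat_lit 10) (.e (nat_lit 344132) (nat_lit 26) .nil)))) .nil)) 
(.lf (nat_lit 120419) (.g (nat_lit 3010) (.e (nat_lit 6792) (nat_lit 365) (.e (nat_lit 1220) (nat_lit 90) (.e (nat_lit 81953) (nat_lit 22) (.e (nat_lit 90116) (nat_lit 0) .nil)))) .nil)))) (.nd (nat_lit 5) (.nd (nat_lit 6) 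
(.lf (nat_lit 120339) (.g (nat_lit 589) (.e (nat_lit 6736) (nat_lit 365) (.e (nat_lit 1187) (nat_lit 88) (.e (nat_lit 65619) (nat_lit 10) (.e (nat_lit 344117) (nat_lit 21) .nil)))) .nil)) 
(.lf (nat_lit 120403) (.g (nat_lit 1528) (.e (nat_lit 6791) (nat_lit 365) (.e (nat_lit 1221) (nat_lit 90) (.e (nat_lit 81959) (nat_lit 24) (.e (nat_lit 123025) (nat_lit 127) .nil)))) .nil))) (.nd (nat_lit 6) 
(.lf (nat_lit 120371) (.g (nat_lit 484) (.e (nat_lit 6740) (nat_lit 365) (.e (nat_lit 1224) (nat_lit 90) (.e (nat_lit 81960) (nat_lit 25) .nil))) .nil)) 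
(.lf (nat_lit 120435) (.g (nat_lit 3661) (.e (nat_lit 6792) (nat_lit 365) (.e (nat_lit 1221) (nat_lit 90) (.e (nat_lit 81953) (nat_lit 22) (.e (nat_lit 90153) (nat_lit 10) .nil)))) .nil))))) (.nd (nat_lit 4) (.nd (nat_lit 5) (.nd (nat_lit 6) 
(.lf (nat_lit 120331) (.g (nat_lit 1988) (.e (nat_lit 7936) (nat_lit 362) (.e (nat_lit 180271) (nat_lit 26) (.e (nat_lit 704737) (nat_lit 11) (.e (nat_lit 16463) (nat_lit 13) (.e (nat_lit 483353) (nat_lit 17) .nil))))) .nil)) 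
(.lf (nat_lit 120395) (.g (nat_lit 1434) (.e (nat_lit 6791) (nat_lit 365) (.e (nat_lit 1221) (nat_lit 90) (.e (nat_lit 81953) (nat_lit 22) (.e (nat_lit 98048) (nat_lit 2) .nil)))) .nil))) (.nd (nat_lit 6) 
(.lf (nat_lit 120363) (.g (nat_lit 645) (.e (nat_lit 6740) (nat_lit 365) (.e (nat_lit 1222) (nat_lit 90) (.e (nat_lit 81951) (nat_lit 22) .nil))) .nil)) 
(.lf (nat_lit 120427) (.g (nat_lit 1330) (.e (nat_lit 6792) (nat_lit 365) (.e (nat_lit 1221) (nat_lit 90) (.e (nat_lit 81947) (nat_lit 20) (.e (nat_lit 1886) (nat_lit 127) .nil)))) .nil)))) (.nd (nat_lit 5) (.nd (nat_lit 6) 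
(.lf (nat_lit 120347) (.g (nat_lit 2674) (.e (nat_lit 6740) (nat_lit 365) (.e (nat_lit 1201) (nat_lit 88) (.e (nat_lit 65610) (nat_lit 10) (.e (nat_lit 344117) (nat_lit 21) (.e (nat_lit 516116) (nat_lit 1) .nil))))) .nil)) 
(.lf (nat_lit 120411) (.g (nat_lit 1452) (.e (nat_lit 6792) (nat_lit 365) (.e (nat_lit 1199) (nat_lit 88) (.e (nat_lit 65617) (nat_lit 10) (.e (nat_lit 344123) (nat_lit 24) (.e (nat_lit 548608) (nat_lit 29) .nil))))) .nil))) (.nd (nat_lit 6) 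
(.lf (nat_lit 120379) (.g (nat_lit 1725) (.e (nat_lit 6750) (nat_lit 365) (.e (nat_lit 1201) (nat_lit 88) (.e (nat_lit 65610) (nat_lit 10) (.e (nat_lit 344123) (nat_lit 24) .nil)))) .nil)) 
(.lf (nat_lit 120443) (.g (nat_lit 1479) (.e (nat_lit 6792) (nat_lit 365) (.e (nat_lit 1221) (nat_lit 90) (.e (nat_lit 81962) (nat_lit 25) (.e (nat_lit 139265) (nat_lit 0) (.e (nat_lit 7936) (nat_lit 35) (.e (nat_lit 458496) (nat_lit 0) .nil)))))) (.g (nat_lit 4) .nil .nil))))))) (.nd (nat_lit 3) (.nd (nat_lit 4) (.nd (nat_lit 5) (.nd (nat_lit 6) 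
(.lf (nat_lit 120327) (.g (nat_lit 281) (.e (nat_lit 7936) (nat_lit 362) (.e (nat_lit 180261) (nat_lit 20) (.e (nat_lit 655380) (nat_lit 6) .nil))) .nil)) 
(.lf (nat_lit 120391) (.g (nat_lit 2740) (.e (nat_lit 6791) (nat_lit 365) (.e (nat_lit 1220) (nat_lit 90) (.e (nat_lit 81956) (nat_lit 23) (.e (nat_lit 98309) (nat_lit 0) .nil)))) .nil))) (.nd (nat_lit 6) 
(.lf (nat_lit 120359) (.g (nat_lit 1028) (.e (nat_lit 6740) (nat_lit 365) (.e (nat_lit 1222) (nat_lit 90) (.e (nat_lit 81924) (nat_lit 0) (.e (nat_lit 3216) (nat_lit 196) .nil)))) .nil)) 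
(.lf (nat_lit 120423) (.g (nat_lit 2740) (.e (nat_lit 6792) (nat_lit 365) (.e (nat_lit 1220) (nat_lit 90) (.e (nat_lit 81956) (nat_lit 23) (.e (nat_lit 98309) (nat_lit 0) .nil)))) .nil)))) (.nd (nat_lit 5) (.nd (nat_lit 6) 
(.lf (nat_lit 120343) (.g (nat_lit 2085) (.e (nat_lit 6736) (nat_lit 365) (.e (nat_lit 1223) (nat_lit 90) (.e (nat_lit 81956) (nat_lit 23) (.e (nat_lit 98309) (nat_lit 0) (.e (nat_lit 7936) (nat_lit 362) .nil))))) .nil)) 
(.lf (nat_lit 120407) (.g (nat_lit 1003) (.e (nat_lit 6792) (nat_lit 365) (.e (nat_lit 989) (nat_lit 81) (.e (nat_lit 1615) (nat_lit 113) (.e (nat_lit 376865) (nat_lit 22) (.e (nat_lit 90155) (nat_lit 10) .nil))))) .nil))) (.nd (nat_lit 6) 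
(.lf (nat_lit 120375) (.g (nat_lit 497) (.e (nat_lit 6748) (nat_lit 365) (.e (nat_lit 1201) (nat_lit 88) (.e (nat_lit 65617) (nat_lit 10) .nil))) .nil)) 
(.lf (nat_lit 120439) (.g (nat_lit 2861) (.e (nat_lit 6792) (nat_lit 365) (.e (nat_lit 1221) (nat_lit 90) (.e (nat_lit 81956) (nat_lit 23) (.e (nat_lit 98309) (nat_lit 0) (.e (nat_lit 7936) (nat_lit 362) (.e (nat_lit 180224) (nat_lit 0) .nil)))))) (.g (nat_lit 4) .nil .nil)))))) (.nd (nat_lit 4) (.nd (nat_lit 5) (.nd (nat_lit 6) 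
(.lf (nat_lit 120335) (.g (nat_lit 2289) (.e (nat_lit 7936) (nat_lit 362) (.e (nat_lit 180271) (nat_lit 26) (.e (nat_lit 704738) (nat_lit 11) (.e (nat_lit 16466) (nat_lit 13) (.e (nat_lit 483348) (nat_lit 17) .nil))))) .nil)) 
(.lf (nat_lit 120399) (.g (nat_lit 2446) (.e (nat_lit 6791) (nat_lit 365) (.e (nat_lit 1221) (nat_lit 90) (.e (nat_lit 81956) (nat_lit 23) (.e (nat_lit 98309) (nat_lit 0) .nil)))) .nil))) (.nd (nat_lit 6) 
(.lf (nat_lit 120367) (.g (nat_lit 645) (.e (nat_lit 6740) (nat_lit 365) (.e (nat_lit 1222) (nat_lit 90) (.e (nat_lit 81960) (nat_lit 25) .nil))) .nil)) 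
(.lf (nat_lit 120431) (.g (nat_lit 2882) (.e (nat_lit 6792) (nat_lit 365) (.e (nat_lit 1221) (nat_lit 90) (.e (nat_lit 81953) (nat_lit 22) (.e (nat_lit 90119) (nat_lit 0) .nil)))) .nil)))) (.nd (nat_lit 5) (.nd (nat_lit 6) 
(.lf (nat_lit 120351) (.g (nat_lit 1702) (.e (nat_lit 6740) (nat_lit 365) (.e (nat_lit 1201) (nat_lit 88) (.e (nat_lit 65610) (nat_lit 10) (.e (nat_lit 344138) (nat_lit 29) (.e (nat_lit 581636) (nat_lit 0) .nil))))) .nil)) 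
(.lf (nat_lit 120415) (.g (nat_lit 954) (.e (nat_lit 6792) (nat_lit 365) (.e (nat_lit 1219) (nat_lit 90) (.e (nat_lit 81935) (nat_lit 20) (.e (nat_lit 1879) (nat_lit 126) .nil)))) .nil))) (.nd (nat_lit 6) 
(.lf (nat_lit 120383) (.g (nat_lit 998) (.e (nat_lit 6779) (nat_lit 365) (.e (nat_lit 1196) (nat_lit 88) (.e (nat_lit 65610) (nat_lit 10) (.e (nat_lit 344123) (nat_lit 24) .nil)))) .nil)) 
(.lf (nat_lit 120447) (.g (nat_lit 1493) (.e (nat_lit 6792) (nat_lit 365) (.e (nat_lit 1221) (nat_lit 90) (.e (nat_lit 81962) (nat_lit 25) (.e (nat_lit 139272) (nat_lit 0) (.e (nat_lit 7936) (nat_lit 35) (.e (nat_lit 458496) (nat_lit 0) .nil)))))) (.g (nat_lit 4) .nil .nil))))))))))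

noncomputable def tv1604 : DT := (.nd (nat_lit 0) (.nd (nat_lit 1) (.nd (nat_lit 2) (.nd (nat_lit 3) (.nd (nat_lit 4) (.nd (nat_lit 5) (.nd (nat_lit 6) 
(.lf (nat_lit 120448) (.g (nat_lit 1586) (.e (nat_lit 6792) (nat_lit 365) (.e (nat_lit 1221) (nat_lit 90) (.e (nat_lit 81962) (nat_lit 25) (.e (nat_lit 139273) (nat_lit 0) (.e (nat_lit 7936) (nat_lit 35) (.e (nat_lit 458496) (nat_lit 0) .nil)))))) (.g (nat_lit 4) .nil .nil))) 
(.lf (nat_lit 120512) (.g (nat_lit 1769) (.e (nat_lit 6807) (nat_lit 365) (.e (nat_lit 1220) (nat_lit 90) (.e (nat_lit 81938) (nat_lit 20) (.e (nat_lit 1885) (nat_lit 127) (.e (nat_lit 581636) (nat_lit 0) (.e (nat_lit 3028) (nat_lit 187) (.e (nat_lit 458496) (nat_lit 0) .nil))))))) (.g (nat_lit 5) .nil .nil)))) (.nd (nat_lit 6) 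
(.lf (nat_lit 120480) (.g (nat_lit 959) (.e (nat_lit 6793) (nat_lit 365) (.e (nat_lit 1221) (nat_lit 90) (.e (nat_lit 81962) (nat_lit 25) (.e (nat_lit 139291) (nat_lit 10) .nil)))) .nil)) 
(.lf (nat_lit 120544) (.g (nat_lit 717) (.e (nat_lit 6825) (nat_lit 367) (.e (nat_lit 57427) (nat_lit 15) (.e (nat_lit 360475) (nat_lit 8) .nil))) .nil)))) (.nd (nat_lit 5) (.nd (nat_lit 6) 
(.lf (nat_lit 120464) (.g (nat_lit 1461) (.e (nat_lit 6793) (nat_lit 365) (.e (nat_lit 1221) (nat_lit 90) (.e (nat_lit 81953) (nat_lit 22) (.e (nat_lit 98048) (nat_lit 0) .nil)))) .nil)) 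
(.lf (nat_lit 120528) (.g (nat_lit 4180) (.e (nat_lit 6807) (nat_lit 365) (.e (nat_lit 1221) (nat_lit 90) (.e (nat_lit 81953) (nat_lit 22) (.e (nat_lit 90113) (nat_lit 0) .nil)))) .nil))) (.nd (nat_lit 6) 
(.lf (nat_lit 120496) (.g (nat_lit 461) (.e (nat_lit 6806) (nat_lit 365) (.e (nat_lit 1209) (nat_lit 89) (.e (nat_lit 81664) (nat_lit 33) .nil))) .nil)) 
(.lf (nat_lit 120560) (.g (nat_lit 1953) (.e (nat_lit 6828) (nat_lit 367) (.e (nat_lit 57371) (nat_lit 2) (.e (nat_lit 90174) (nat_lit 14) (.e (nat_lit 180251) (nat_lit 10) (.e (nat_lit 573485) (nat_lit 13) .nil))))) .nil))))) (.nd (nat_lit 4) (.nd (nat_lit 5) (.nd (nat_lit 6) 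
(.lf (nat_lit 120456) (.g (nat_lit 481) (.e (nat_lit 6793) (nat_lit 365) (.e (nat_lit 1221) (nat_lit 90) (.e (nat_lit 81931) (nat_lit 20) .nil))) .nil)) 
(.lf (nat_lit 120520) (.g (nat_lit 1645) (.e (nat_lit 6807) (nat_lit 365) (.e (nat_lit 1220) (nat_lit 90) (.e (nat_lit 81953) (nat_lit 22) (.e (nat_lit 98048) (nat_lit 0) .nil)))) .nil))) (.nd (nat_lit 6) 
(.lf (nat_lit 120488) (.g (nat_lit 4083) (.e (nat_lit 6795) (nat_lit 365) (.e (nat_lit 1220) (nat_lit 90) (.e (nat_lit 81953) (nat_lit 22) (.e (nat_lit 90155) (nat_lit 10) .nil)))) .nil)) 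
(.lf (nat_lit 120552) (.g (nat_lit 1937) (.e (nat_lit 6827) (nat_lit 367) (.e (nat_lit 57379) (nat_lit 3) (.e (nat_lit 98384) (nat_lit 32) (.e (nat_lit 475177) (nat_lit 24) .nil)))) .nil)))) (.nd (nat_lit 5) (.nd (nat_lit 6) 
(.lf (nat_lit 120472) (.g (nat_lit 2833) (.e (nat_lit 6793) (nat_lit 365) (.e (nat_lit 1221) (nat_lit 90) (.e (nat_lit 81956) (nat_lit 23) (.e (nat_lit 98313) (nat_lit 9) .nil)))) .nil)) 
(.lf (nat_lit 120536) (.g (nat_lit 2391) (.e (nat_lit 6807) (nat_lit 365) (.e (nat_lit 1221) (nat_lit 90) (.e (nat_lit 81959) (nat_lit 24) (.e (nat_lit 123025) (nat_lit 127) (.e (nat_lit 229413) (nat_lit 15) (.e (nat_lit 458496) (nat_lit 0) .nil)))))) (.g (nat_lit 5) .nil .nil)))) (.nd (nat_lit 6) 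
(.lf (nat_lit 120504) (.g (nat_lit 3771) (.e (nat_lit 6806) (nat_lit 365) (.e (nat_lit 1221) (nat_lit 90) (.e (nat_lit 81953) (nat_lit 22) (.e (nat_lit 90153) (nat_lit 10) .nil)))) .nil)) 
(.lf (nat_lit 120568) (.g (nat_lit 1061) (.e (nat_lit 6828) (nat_lit 367) (.e (nat_lit 57372) (nat_lit 2) (.e (nat_lit 90176) (nat_lit 15) (.e (nat_lit 196352) (nat_lit 19) .nil)))) .nil)))))) (.nd (nat_lit 3) (.nd (nat_lit 4) (.nd (nat_lit 5) (.nd (nat_lit 6) 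
(.lf (nat_lit 120452) (.g (nat_lit 514) (.e (nat_lit 6793) (nat_lit 365) (.e (nat_lit 1220) (nat_lit 90) (.e (nat_lit 81953) (nat_lit 22) .nil))) .nil)) 
(.lf (nat_lit 120516) (.g (nat_lit 1985) (.e (nat_lit 6807) (nat_lit 365) (.e (nat_lit 1220) (nat_lit 90) (.e (nat_lit 81938) (nat_lit 20) (.e (nat_lit 1886) (nat_lit 127) (.e (nat_lit 581636) (nat_lit 0) (.e (nat_lit 3027) (nat_lit 187) (.e (nat_lit 458496) (nat_lit 0) .nil))))))) (.g (nat_lit 6) .nil .nil)))) (.nd (nat_lit 6) 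
(.lf (nat_lit 120484) (.g (nat_lit 2914) (.e (nat_lit 6794) (nat_lit 365) (.e (nat_lit 1220) (nat_lit 90) (.e (nat_lit 81956) (nat_lit 23) (.e (nat_lit 98313) (nat_lit 9) .nil)))) .nil)) 
(.lf (nat_lit 120548) (.g (nat_lit 1212) (.e (nat_lit 6826) (nat_lit 367) (.e (nat_lit 57375) (nat_lit 2) (.e (nat_lit 90176) (nat_lit 15) (.e (nat_lit 196352) (nat_lit 11) .nil)))) .nil)))) (.nd (nat_lit 5) (.nd (nat_lit 6) 
(.lf (nat_lit 120468) (.g (nat_lit 3588) (.e (nat_lit 6793) (nat_lit 365) (.e (nat_lit 1221) (nat_lit 90) (.e (nat_lit 81953) (nat_lit 22) (.e (nat_lit 90155) (nat_lit 10) .nil)))) .nil)) 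
(.lf (nat_lit 120532) (.g (nat_lit 3602) (.e (nat_lit 6807) (nat_lit 365) (.e (nat_lit 1221) (nat_lit 90) (.e (nat_lit 81953) (nat_lit 22) (.e (nat_lit 90120) (nat_lit 0) .nil)))) .nil))) (.nd (nat_lit 6) 
(.lf (nat_lit 120500) (.g (nat_lit 3304) (.e (nat_lit 6806) (nat_lit 365) (.e (nat_lit 1220) (nat_lit 90) (.e (nat_lit 81956) (nat_lit 23) (.e (nat_lit 98309) (nat_lit 0) (.e (nat_lit 7936) (nat_lit 362) .nil))))) .nil)) 
(.lf (nat_lit 120564) (.g (nat_lit 2129) (.e (nat_lit 6828) (nat_lit 367) (.e (nat_lit 57372) (nat_lit 2) (.e (nat_lit 90172) (nat_lit 14) (.e (nat_lit 180250) (nat_lit 10) (.e (nat_lit 573484) (nat_lit 13) .nil))))) .nil))))) (.nd (nat_lit 4) (.nd (nat_lit 5) (.nd (nat_lit 6) 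
(.lf (nat_lit 120460) (.g (nat_lit 1511) (.e (nat_lit 6793) (nat_lit 365) (.e (nat_lit 1221) (nat_lit 90) (.e (nat_lit 81938) (nat_lit 20) (.e (nat_lit 1885) (nat_lit 127) .nil)))) .nil)) 
(.lf (nat_lit 120524) (.g (nat_lit 486) (.e (nat_lit 6807) (nat_lit 365) (.e (nat_lit 1221) (nat_lit 90) (.e (nat_lit 89856) (nat_lit 0) .nil))) .nil))) (.nd (nat_lit 6) 
(.lf (nat_lit 120492) (.g (nat_lit 3090) (.e (nat_lit 6802) (nat_lit 365) (.e (nat_lit 1220) (nat_lit 90) (.e (nat_lit 81953) (nat_lit 22) (.e (nat_lit 90116) (nat_lit 0) .nil)))) .nil)) 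
(.lf (nat_lit 120556) (.g (nat_lit 2456) (.e (nat_lit 6828) (nat_lit 367) (.e (nat_lit 57371) (nat_lit 2) (.e (nat_lit 90172) (nat_lit 14) (.e (nat_lit 180250) (nat_lit 10) (.e (nat_lit 573484) (nat_lit 13) .nil))))) .nil)))) (.nd (nat_lit 5) (.nd (nat_lit 6) 
(.lf (nat_lit 120476) (.g (nat_lit 966) (.e (nat_lit 6793) (nat_lit 365) (.e (nat_lit 1221) (nat_lit 90) (.e (nat_lit 81962) (nat_lit 25) (.e (nat_lit 139266) (nat_lit 0) .nil)))) .nil)) 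
(.lf (nat_lit 120540) (.g (nat_lit 1743) (.e (nat_lit 6811) (nat_lit 365) (.e (nat_lit 2600) (nat_lit 163) (.e (nat_lit 164020) (nat_lit 45) (.e (nat_lit 696344) (nat_lit 8) (.e (nat_lit 172082) (nat_lit 7) .nil))))) .nil))) (.nd (nat_lit 6) 
(.lf (nat_lit 120508) (.g (nat_lit 472) (.e (nat_lit 6807) (nat_lit 365) (.e (nat_lit 1220) (nat_lit 90) (.e (nat_lit 81937) (nat_lit 20) .nil))) .nil)) 
(.lf (nat_lit 120572) (.g (nat_lit 1473) (.e (nat_lit 6828) (nat_lit 367) (.e (nat_lit 57375) (nat_lit 2) (.e (nat_lit 90172) (nat_lit 14) (.e (nat_lit 180250) (nat_lit 10) .nil)))) .nil))))))) (.nd (nat_lit 2) (.nd (nat_lit 3) (.nd (nat_lit 4) (.nd (nat_lit 5) (.nd (nat_lit 6) 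
(.lf (nat_lit 120450) (.g (nat_lit 1757) (.e (nat_lit 6792) (nat_lit 365) (.e (nat_lit 1221) (nat_lit 90) (.e (nat_lit 81962) (nat_lit 25) (.e (nat_lit 139276) (nat_lit 2) (.e (nat_lit 16436) (nat_lit 9) (.e (nat_lit 425986) (nat_lit 0) (.e (nat_lit 2463) (nat_lit 157) .nil))))))) (.g (nat_lit 5) .nil .nil))) 
(.lf (nat_lit 120514) (.g (nat_lit 2226) (.e (nat_lit 6807) (nat_lit 365) (.e (nat_lit 1220) (nat_lit 90) (.e (nat_lit 81938) (nat_lit 20) (.e (nat_lit 1886) (nat_lit 127) (.e (nat_lit 581636) (nat_lit 0) (.e (nat_lit 3016) (nat_lit 187) (.e (nat_lit 458496) (nat_lit 0) .nil))))))) (.g (nat_lit 6) .nil .nil)))) (.nd (nat_lit 6) 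
(.lf (nat_lit 120482) (.g (nat_lit 3560) (.e (nat_lit 6794) (nat_lit 365) (.e (nat_lit 1220) (nat_lit 90) (.e (nat_lit 81953) (nat_lit 22) (.e (nat_lit 90160) (nat_lit 11) .nil)))) .nil)) 
(.lf (nat_lit 120546) (.g (nat_lit 1637) (.e (nat_lit 6826) (nat_lit 367) (.e (nat_lit 57375) (nat_lit 2) (.e (nat_lit 90172) (nat_lit 14) (.e (nat_lit 180250) (nat_lit 10) .nil)))) .nil)))) (.nd (nat_lit 5) (.nd (nat_lit 6) 
(.lf (nat_lit 120466) (.g (nat_lit 3444) (.e (nat_lit 6793) (nat_lit 365) (.e (nat_lit 1221) (nat_lit 90) (.e (nat_lit 81953) (nat_lit 22) (.e (nat_lit 90152) (nat_lit 10) .nil)))) .nil)) 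
(.lf (nat_lit 120530) (.g (nat_lit 3986) (.e (nat_lit 6807) (nat_lit 365) (.e (nat_lit 1221) (nat_lit 90) (.e (nat_lit 81953) (nat_lit 22) (.e (nat_lit 90118) (nat_lit 0) .nil)))) .nil))) (.nd (nat_lit 6) 
(.lf (nat_lit 120498) (.g (nat_lit 4317) (.e (nat_lit 6806) (nat_lit 365) (.e (nat_lit 1220) (nat_lit 90) (.e (nat_lit 81953) (nat_lit 22) (.e (nat_lit 90153) (nat_lit 10) .nil)))) .nil)) 
(.lf (nat_lit 120562) (.g (nat_lit 2276) (.e (nat_lit 6828) (nat_lit 367) (.e (nat_lit 57372) (nat_lit 2) (.e (nat_lit 90172) (nat_lit 14) (.e (nat_lit 180250) (nat_lit 10) (.e (nat_lit 573480) (nat_lit 13) .nil))))) .nil))))) (.nd (nat_lit 4) (.nd (nat_lit 5) (.nd (nat_lit 6) 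
(.lf (nat_lit 120458) (.g (nat_lit 824) (.e (nat_lit 6793) (nat_lit 365) (.e (nat_lit 1221) (nat_lit 90) (.e (nat_lit 81931) (nat_lit 20) (.e (nat_lit 1879) (nat_lit 126) .nil)))) .nil)) 
(.lf (nat_lit 120522) (.g (nat_lit 2852) (.e (nat_lit 6807) (nat_lit 365) (.e (nat_lit 1220) (nat_lit 90) (.e (nat_lit 81956) (nat_lit 23) (.e (nat_lit 98309) (nat_lit 0) (.e (nat_lit 7936) (nat_lit 362) .nil))))) .nil))) (.nd (nat_lit 6) 
(.lf (nat_lit 120490) (.g (nat_lit 3700) (.e (nat_lit 6795) (nat_lit 365) (.e (nat_lit 1221) (nat_lit 90) (.e (nat_lit 81953) (nat_lit 22) (.e (nat_lit 90155) (nat_lit 10) .nil)))) .nil)) 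
(.lf (nat_lit 120554) (.g (nat_lit 1765) (.e (nat_lit 6827) (nat_lit 367) (.e (nat_lit 57423) (nat_lit 14) (.e (nat_lit 352269) (nat_lit 7) (.e (nat_lit 245776) (nat_lit 4) (.e (nat_lit 172112) (nat_lit 10) (.e (nat_lit 434201) (nat_lit 18) .nil)))))) (.g (nat_lit 4) .nil .nil))))) (.nd (nat_lit 5) (.nd (nat_lit 6) 
(.lf (nat_lit 120474) (.g (nat_lit 495) (.e (nat_lit 6793) (nat_lit 365) (.e (nat_lit 1221) (nat_lit 90) (.e (nat_lit 81962) (nat_lit 25) .nil))) .nil)) 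
(.lf (nat_lit 120538) (.g (nat_lit 1707) (.e (nat_lit 6811) (nat_lit 365) (.e (nat_lit 2551) (nat_lit 159) (.e (nat_lit 24640) (nat_lit 10) (.e (nat_lit 344156) (nat_lit 36) (.e (nat_lit 638998) (nat_lit 8) .nil))))) .nil))) (.nd (nat_lit 6) 
(.lf (nat_lit 120506) (.g (nat_lit 2915) (.e (nat_lit 6806) (nat_lit 365) (.e (nat_lit 1221) (nat_lit 90) (.e (nat_lit 81956) (nat_lit 23) (.e (nat_lit 98309) (nat_lit 0) (.e (nat_lit 7936) (nat_lit 362) .nil))))) .nil)) 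
(.lf (nat_lit 120570) (.g (nat_lit 3066) (.e (nat_lit 6828) (nat_lit 367) (.e (nat_lit 57374) (nat_lit 2) (.e (nat_lit 90170) (nat_lit 13) (.e (nat_lit 172106) (nat_lit 10) (.e (nat_lit 434202) (nat_lit 18) .nil))))) .nil)))))) (.nd (nat_lit 3) (.nd (nat_lit 4) (.nd (nat_lit 5) (.nd (nat_lit 6) 
(.lf (nat_lit 120454) (.g (nat_lit 4083) (.e (nat_lit 6793) (nat_lit 365) (.e (nat_lit 1220) (nat_lit 90) (.e (nat_lit 81953) (nat_lit 22) (.e (nat_lit 90155) (nat_lit 10) .nil)))) .nil)) 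
(.lf (nat_lit 120518) (.g (nat_lit 496) (.e (nat_lit 6807) (nat_lit 365) (.e (nat_lit 1220) (nat_lit 90) (.e (nat_lit 81953) (nat_lit 22) .nil))) .nil))) (.nd (nat_lit 6) 
(.lf (nat_lit 120486) (.g (nat_lit 2463) (.e (nat_lit 6794) (nat_lit 365) (.e (nat_lit 1221) (nat_lit 90) (.e (nat_lit 81956) (nat_lit 23) (.e (nat_lit 98309) (nat_lit 0) .nil)))) .nil)) 
(.lf (nat_lit 120550) (.g (nat_lit 1638) (.e (nat_lit 6827) (nat_lit 367) (.e (nat_lit 57375) (nat_lit 2) (.e (nat_lit 90172) (nat_lit 14) (.e (nat_lit 180250) (nat_lit 10) .nil)))) .nil)))) (.nd (nat_lit 5) (.nd (nat_lit 6) 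
(.lf (nat_lit 120470) (.g (nat_lit 3037) (.e (nat_lit 6793) (nat_lit 365) (.e (nat_lit 1221) (nat_lit 90) (.e (nat_lit 81956) (nat_lit 23) (.e (nat_lit 98309) (nat_lit 0) (.e (nat_lit 7936) (nat_lit 362) (.e (nat_lit 180224) (nat_lit 0) .nil)))))) (.g (nat_lit 4) .nil .nil))) 
(.lf (nat_lit 120534) (.g (nat_lit 3568) (.e (nat_lit 6807) (nat_lit 365) (.e (nat_lit 1221) (nat_lit 90) (.e (nat_lit 81953) (nat_lit 22) (.e (nat_lit 90155) (nat_lit 10) .nil)))) .nil))) (.nd (nat_lit 6) 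
(.lf (nat_lit 120502) (.g (nat_lit 1463) (.e (nat_lit 6806) (nat_lit 365) (.e (nat_lit 1221) (nat_lit 90) (.e (nat_lit 81938) (nat_lit 20) (.e (nat_lit 1885) (nat_lit 127) .nil)))) .nil)) 
(.lf (nat_lit 120566) (.g (nat_lit 2310) (.e (nat_lit 6828) (nat_lit 367) (.e (nat_lit 57372) (nat_lit 2) (.e (nat_lit 90172) (nat_lit 14) (.e (nat_lit 180250) (nat_lit 10) (.e (nat_lit 573485) (nat_lit 13) (.e (nat_lit 65569) (nat_lit 3) (.e (nat_lit 98319) (nat_lit 17) (.e (nat_lit 2399) (nat_lit 157) .nil)))))))) (.g (nat_lit 4) .nil .nil)))))) 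
(.nd (nat_lit 4) (.nd (nat_lit 5) (.nd (nat_lit 6) 
(.lf (nat_lit 120462) (.g (nat_lit 629) (.e (nat_lit 6793) (nat_lit 365) (.e (nat_lit 1221) (nat_lit 90) (.e (nat_lit 81953) (nat_lit 22) .nil))) .nil)) 
(.lf (nat_lit 120526) (.g (nat_lit 1909) (.e (nat_lit 6807) (nat_lit 365) (.e (nat_lit 1221) (nat_lit 90) (.e (nat_lit 81938) (nat_lit 20) (.e (nat_lit 1886) (nat_lit 127) (.e (nat_lit 581636) (nat_lit 0) (.e (nat_lit 3027) (nat_lit 187) (.e (nat_lit 458496) (nat_lit 0) .nil))))))) (.g (nat_lit 5) .nil .nil)))) (.nd (nat_lit 6) 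
(.lf (nat_lit 120494) (.g (nat_lit 2586) (.e (nat_lit 6802) (nat_lit 365) (.e (nat_lit 1221) (nat_lit 90) (.e (nat_lit 81953) (nat_lit 22) (.e (nat_lit 90116) (nat_lit 0) .nil)))) .nil)) 
(.lf (nat_lit 120558) (.g (nat_lit 2334) (.e (nat_lit 6828) (nat_lit 367) (.e (nat_lit 57371) (nat_lit 2) (.e (nat_lit 90174) (nat_lit 14) (.e (nat_lit 180250) (nat_lit 10) (.e (nat_lit 573482) (nat_lit 13) .nil))))) .nil)))) (.nd (nat_lit 5) (.nd (nat_lit 6) 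
(.lf (nat_lit 120478) (.g (nat_lit 975) (.e (nat_lit 6793) (nat_lit 365) (.e (nat_lit 1221) (nat_lit 90) (.e (nat_lit 81962) (nat_lit 25) (.e (nat_lit 139272) (nat_lit 0) .nil)))) .nil)) 
(.lf (nat_lit 120542) (.g (nat_lit 941) (.e (nat_lit 6825) (nat_lit 367) (.e (nat_lit 57372) (nat_lit 2) (.e (nat_lit 90176) (nat_lit 15) .nil))) .nil))) (.nd (nat_lit 6) 
(.lf (nat_lit 120510) (.g (nat_lit 1287) (.e (nat_lit 6807) (nat_lit 365) (.e (nat_lit 1220) (nat_lit 90) (.e (nat_lit 81938) (nat_lit 20) (.e (nat_lit 1830) (nat_lit 122) .nil)))) .nil)) 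
(.lf (nat_lit 120574) (.g (nat_lit 2590) (.e (nat_lit 6828) (nat_lit 367) (.e (nat_lit 57375) (nat_lit 2) (.e (nat_lit 90172) (nat_lit 14) (.e (nat_lit 180250) (nat_lit 10) (.e (nat_lit 573481) (nat_lit 13) .nil))))) .nil)))))))) (.nd (nat_lit 1) (.nd (nat_lit 2) (.nd (nat_lit 3) (.nd (nat_lit 4) (.nd (nat_lit 5) (.nd (nat_lit 6) 
(.lf (nat_lit 120449) (.g (nat_lit 800) (.e (nat_lit 6792) (nat_lit 365) (.e (nat_lit 1221) (nat_lit 90) (.e (nat_lit 81962) (nat_lit 25) (.e (nat_lit 139276) (nat_lit 2) .nil)))) .nil)) 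
(.lf (nat_lit 120513) (.g (nat_lit 2345) (.e (nat_lit 6807) (nat_lit 365) (.e (nat_lit 1220) (nat_lit 90) (.e (nat_lit 81938) (nat_lit 20) (.e (nat_lit 1886) (nat_lit 127) (.e (nat_lit 581636) (nat_lit 0) (.e (nat_lit 3015) (nat_lit 187) (.e (nat_lit 458496) (nat_lit 0) .nil))))))) (.g (nat_lit 6) .nil .nil)))) (.nd (nat_lit 6) 
(.lf (nat_lit 120481) (.g (nat_lit 2089) (.e (nat_lit 6794) (nat_lit 365) (.e (nat_lit 1200) (nat_lit 88) (.e (nat_lit 65619) (nat_lit 10) (.e (nat_lit 344117) (nat_lit 21) (.e (nat_lit 516191) (nat_lit 17) .nil))))) .nil)) 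
(.lf (nat_lit 120545) (.g (nat_lit 888) (.e (nat_lit 6826) (nat_lit 367) (.e (nat_lit 57373) (nat_lit 2) (.e (nat_lit 90174) (nat_lit 14) .nil))) .nil)))) (.nd (nat_lit 5) (.nd (nat_lit 6) 
(.lf (nat_lit 120465) (.g (nat_lit 1461) (.e (nat_lit 6793) (nat_lit 365) (.e (nat_lit 1221) (nat_lit 90) (.e (nat_lit 81953) (nat_lit 22) (.e (nat_lit 98048) (nat_lit 2) .nil)))) .nil)) 
(.lf (nat_lit 120529) (.g (nat_lit 3018) (.e (nat_lit 6807) (nat_lit 365) (.e (nat_lit 1221) (nat_lit 90) (.e (nat_lit 81953) (nat_lit 22) (.e (nat_lit 90116) (nat_lit 0) (.e (nat_lit 7936) (nat_lit 35) (.e (nat_lit 458496) (nat_lit 0) .nil)))))) (.g (nat_lit 4) .nil .nil)))) (.nd (nat_lit 6) 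
(.lf (nat_lit 120497) (.g (nat_lit 1511) (.e (nat_lit 6806) (nat_lit 365) (.e (nat_lit 1220) (nat_lit 90) (.e (nat_lit 81938) (nat_lit 20) (.e (nat_lit 1885) (nat_lit 127) .nil)))) .nil)) 
(.lf (nat_lit 120561) (.g (nat_lit 1227) (.e (nat_lit 6828) (nat_lit 367) (.e (nat_lit 57372) (nat_lit 2) (.e (nat_lit 90172) (nat_lit 14) (.e (nat_lit 180250) (nat_lit 10) .nil)))) .nil))))) (.nd (nat_lit 4) (.nd (nat_lit 5) (.nd (nat_lit 6) 
(.lf (nat_lit 120457) (.g (nat_lit 823) (.e (nat_lit 6793) (nat_lit 365) (.e (nat_lit 1221) (nat_lit 90) (.e (nat_lit 81931) (nat_lit 20) (.e (nat_lit 1878) (nat_lit 126) .nil)))) .nil)) 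
(.lf (nat_lit 120521) (.g (nat_lit 3608) (.e (nat_lit 6807) (nat_lit 365) (.e (nat_lit 1220) (nat_lit 90) (.e (nat_lit 81953) (nat_lit 22) (.e (nat_lit 90155) (nat_lit 10) .nil)))) .nil))) (.nd (nat_lit 6) 
(.lf (nat_lit 120489) (.g (nat_lit 2739) (.e (nat_lit 6795) (nat_lit 365) (.e (nat_lit 1220) (nat_lit 90) (.e (nat_lit 81956) (nat_lit 23) (.e (nat_lit 98309) (nat_lit 0) .nil)))) .nil)) 
(.lf (nat_lit 120553) (.g (nat_lit 815) (.e (nat_lit 6827) (nat_lit 367) (.e (nat_lit 57411) (nat_lit 12) (.e (nat_lit 336208) (nat_lit 12) .nil))) .nil)))) (.nd (nat_lit 5) (.nd (nat_lit 6) 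
(.lf (nat_lit 120473) (.g (nat_lit 1513) (.e (nat_lit 6793) (nat_lit 365) (.e (nat_lit 1221) (nat_lit 90) (.e (nat_lit 81959) (nat_lit 24) (.e (nat_lit 123025) (nat_lit 127) .nil)))) .nil)) 
(.lf (nat_lit 120537) (.g (nat_lit 1474) (.e (nat_lit 6811) (nat_lit 365) (.e (nat_lit 2422) (nat_lit 157) (.e (nat_lit 232) (nat_lit 21) (.e (nat_lit 336060) (nat_lit 7) (.e (nat_lit 319534) (nat_lit 16) .nil))))) .nil))) (.nd (nat_lit 6) 
(.lf (nat_lit 120505) (.g (nat_lit 3513) (.e (nat_lit 6806) (nat_lit 365) (.e (nat_lit 1221) (nat_lit 90) (.e (nat_lit 81953) (nat_lit 22) (.e (nat_lit 90155) (nat_lit 10) .nil)))) .nil)) 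
(.lf (nat_lit 120569) (.g (nat_lit 784) (.e (nat_lit 6828) (nat_lit 367) (.e (nat_lit 57372) (nat_lit 2) (.e (nat_lit 90176) (nat_lit 15) (.e (nat_lit 188439) (nat_lit 20) .nil)))) .nil)))))) (.nd (nat_lit 3) (.nd (nat_lit 4) (.nd (nat_lit 5) (.nd (nat_lit 6) 
(.lf (nat_lit 120453) (.g (nat_lit 3090) (.e (nat_lit 6793) (nat_lit 365) (.e (nat_lit 1220) (nat_lit 90) (.e (nat_lit 81953) (nat_lit 22) (.e (nat_lit 90116) (nat_lit 0) .nil)))) .nil)) 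
(.lf (nat_lit 120517) (.g (nat_lit 1882) (.e (nat_lit 6807) (nat_lit 365) (.e (nat_lit 1220) (nat_lit 90) (.e (nat_lit 81938) (nat_lit 20) (.e (nat_lit 1886) (nat_lit 127) (.e (nat_lit 581636) (nat_lit 0) (.e (nat_lit 3028) (nat_lit 187) (.e (nat_lit 458496) (nat_lit 0) .nil))))))) (.g (nat_lit 6) .nil .nil)))) (.nd (nat_lit 6) 
(.lf (nat_lit 120485) (.g (nat_lit 2586) (.e (nat_lit 6794) (nat_lit 365) (.e (nat_lit 1221) (nat_lit 90) (.e (nat_lit 81953) (nat_lit 22) (.e (nat_lit 90116) (nat_lit 0) .nil)))) .nil)) 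
(.lf (nat_lit 120549) (.g (nat_lit 816) (.e (nat_lit 6826) (nat_lit 367) (.e (nat_lit 57411) (nat_lit 12) (.e (nat_lit 336208) (nat_lit 12) .nil))) .nil)))) (.nd (nat_lit 5) (.nd (nat_lit 6) 
(.lf (nat_lit 120469) (.g (nat_lit 2438) (.e (nat_lit 6793) (nat_lit 365) (.e (nat_lit 1221) (nat_lit 90) (.e (nat_lit 81956) (nat_lit 23) (.e (nat_lit 98309) (nat_lit 0) .nil)))) .nil)) 
(.lf (nat_lit 120533) (.g (nat_lit 3826) (.e (nat_lit 6807) (nat_lit 365) (.e (nat_lit 1221) (nat_lit 90) (.e (nat_lit 81953) (nat_lit 22) (.e (nat_lit 90153) (nat_lit 10) .nil)))) .nil))) (.nd (nat_lit 6) 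
(.lf (nat_lit 120501) (.g (nat_lit 3536) (.e (nat_lit 6806) (nat_lit 365) (.e (nat_lit 1220) (nat_lit 90) (.e (nat_lit 81956) (nat_lit 23) (.e (nat_lit 98311) (nat_lit 0) .nil)))) .nil)) 
(.lf (nat_lit 120565) (.g (nat_lit 2251) (.e (nat_lit 6828) (nat_lit 367) (.e (nat_lit 57372) (nat_lit 2) (.e (nat_lit 90172) (nat_lit 14) (.e (nat_lit 180250) (nat_lit 10) (.e (nat_lit 573485) (nat_lit 13) .nil))))) .nil))))) (.nd (nat_lit 4) (.nd (nat_lit 5) (.nd (nat_lit 6) 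
(.lf (nat_lit 120461) (.g (nat_lit 1483) (.e (nat_lit 6793) (nat_lit 365) (.e (nat_lit 1221) (nat_lit 90) (.e (nat_lit 81938) (nat_lit 20) (.e (nat_lit 1886) (nat_lit 127) .nil)))) .nil)) 
(.lf (nat_lit 120525) (.g (nat_lit 1869) (.e (nat_lit 6807) (nat_lit 365) (.e (nat_lit 1221) (nat_lit 90) (.e (nat_lit 81938) (nat_lit 20) (.e (nat_lit 1885) (nat_lit 127) (.e (nat_lit 581636) (nat_lit 0) (.e (nat_lit 3022) (nat_lit 187) (.e (nat_lit 458496) (nat_lit 0) .nil))))))) (.g (nat_lit 4) .nil .nil)))) (.nd (nat_lit 6) 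
(.lf (nat_lit 120493) (.g (nat_lit 2914) (.e (nat_lit 6802) (nat_lit 365) (.e (nat_lit 1220) (nat_lit 90) (.e (nat_lit 81956) (nat_lit 23) (.e (nat_lit 98313) (nat_lit 9) .nil)))) .nil)) 
(.lf (nat_lit 120557) (.g (nat_lit 1299) (.e (nat_lit 6828) (nat_lit 367) (.e (nat_lit 57371) (nat_lit 2) (.e (nat_lit 90174) (nat_lit 14) (.e (nat_lit 180250) (nat_lit 10) .nil)))) .nil)))) (.nd (nat_lit 5) (.nd (nat_lit 6) 
(.lf (nat_lit 120477) (.g (nat_lit 960) (.e (nat_lit 6793) (nat_lit 365) (.e (nat_lit 1221) (nat_lit 90) (.e (nat_lit 81962) (nat_lit 25) (.e (nat_lit 139268) (nat_lit 0) .nil)))) .nil)) 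
(.lf (nat_lit 120541) (.g (nat_lit 941) (.e (nat_lit 6824) (nat_lit 367) (.e (nat_lit 57372) (nat_lit 2) (.e (nat_lit 90176) (nat_lit 15) .nil))) .nil))) (.nd (nat_lit 6) 
(.lf (nat_lit 120509) (.g (nat_lit 1106) (.e (nat_lit 6807) (nat_lit 365) (.e (nat_lit 1220) (nat_lit 90) (.e (nat_lit 81937) (nat_lit 20) (.e (nat_lit 1832) (nat_lit 122) .nil)))) .nil)) 
(.lf (nat_lit 120573) (.g (nat_lit 2420) (.e (nat_lit 6828) (nat_lit 367) (.e (nat_lit 57375) (nat_lit 2) (.e (nat_lit 90172) (nat_lit 14) (.e (nat_lit 180250) (nat_lit 10) (.e (nat_lit 573480) (nat_lit 13) .nil))))) .nil))))))) (.nd (nat_lit 2) (.nd (nat_lit 3) (.nd (nat_lit 4) (.nd (nat_lit 5) (.nd (nat_lit 6) 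
(.lf (nat_lit 120451) (.g (nat_lit 1001) (.e (nat_lit 6792) (nat_lit 365) (.e (nat_lit 1221) (nat_lit 90) (.e (nat_lit 81962) (nat_lit 25) (.e (nat_lit 139291) (nat_lit 10) .nil)))) .nil)) 
(.lf (nat_lit 120515) (.g (nat_lit 2180) (.e (nat_lit 6807) (nat_lit 365) (.e (nat_lit 1220) (nat_lit 90) (.e (nat_lit 81938) (nat_lit 20) (.e (nat_lit 1886) (nat_lit 127) (.e (nat_lit 581636) (nat_lit 0) (.e (nat_lit 3022) (nat_lit 187) (.e (nat_lit 458496) (nat_lit 0) .nil))))))) (.g (nat_lit 6) .nil .nil)))) (.nd (nat_lit 6) 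
(.lf (nat_lit 120483) (.g (nat_lit 2739) (.e (nat_lit 6794) (nat_lit 365) (.e (nat_lit 1220) (nat_lit 90) (.e (nat_lit 81956) (nat_lit 23) (.e (nat_lit 98309) (nat_lit 0) .nil)))) .nil)) 
(.lf (nat_lit 120547) (.g (nat_lit 464) (.e (nat_lit 6826) (nat_lit 367) (.e (nat_lit 57375) (nat_lit 2) (.e (nat_lit 90176) (nat_lit 15) .nil))) .nil)))) (.nd (nat_lit 5) (.nd (nat_lit 6) 
(.lf (nat_lit 120467) (.g (nat_lit 3838) (.e (nat_lit 6793) (nat_lit 365) (.e (nat_lit 1221) (nat_lit 90) (.e (nat_lit 81953) (nat_lit 22) (.e (nat_lit 90153) (nat_lit 10) .nil)))) .nil)) 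
(.lf (nat_lit 120531) (.g (nat_lit 2831) (.e (nat_lit 6807) (nat_lit 365) (.e (nat_lit 1221) (nat_lit 90) (.e (nat_lit 81953) (nat_lit 22) (.e (nat_lit 90119) (nat_lit 0) .nil)))) .nil))) (.nd (nat_lit 6) 
(.lf (nat_lit 120499) (.g (nat_lit 4083) (.e (nat_lit 6806) (nat_lit 365) (.e (nat_lit 1220) (nat_lit 90) (.e (nat_lit 81953) (nat_lit 22) (.e (nat_lit 90155) (nat_lit 10) .nil)))) .nil)) 
(.lf (nat_lit 120563) (.g (nat_lit 2120) (.e (nat_lit 6828) (nat_lit 367) (.e (nat_lit 57372) (nat_lit 2) (.e (nat_lit 90172) (nat_lit 14) (.e (nat_lit 180250) (nat_lit 10) (.e (nat_lit 573482) (nat_lit 13) .nil))))) .nil))))) (.nd (nat_lit 4) (.nd (nat_lit 5) (.nd (nat_lit 6) 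
(.lf (nat_lit 120459) (.g (nat_lit 535) (.e (nat_lit 6793) (nat_lit 365) (.e (nat_lit 1221) (nat_lit 90) (.e (nat_lit 81938) (nat_lit 20) .nil))) .nil)) 
(.lf (nat_lit 120523) (.g (nat_lit 2962) (.e (nat_lit 6807) (nat_lit 365) (.e (nat_lit 1220) (nat_lit 90) (.e (nat_lit 81956) (nat_lit 23) (.e (nat_lit 98309) (nat_lit 0) (.e (nat_lit 7936) (nat_lit 362) (.e (nat_lit 188160) (nat_lit 0) .nil)))))) (.g (nat_lit 4) .nil .nil)))) (.nd (nat_lit 6) 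
(.lf (nat_lit 120491) (.g (nat_lit 590) (.e (nat_lit 6798) (nat_lit 365) (.e (nat_lit 1196) (nat_lit 88) (.e (nat_lit 65620) (nat_lit 10) (.e (nat_lit 344138) (nat_lit 29) .nil)))) .nil)) 
(.lf (nat_lit 120555) (.g (nat_lit 1416) (.e (nat_lit 6828) (nat_lit 367) (.e (nat_lit 57371) (nat_lit 2) (.e (nat_lit 90172) (nat_lit 14) (.e (nat_lit 180250) (nat_lit 10) .nil)))) .nil)))) (.nd (nat_lit 5) (.nd (nat_lit 6) 
(.lf (nat_lit 120475) (.g (nat_lit 965) (.e (nat_lit 6793) (nat_lit 365) (.e (nat_lit 1221) (nat_lit 90) (.e (nat_lit 81962) (nat_lit 25) (.e (nat_lit 139265) (nat_lit 0) .nil)))) .nil)) 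
(.lf (nat_lit 120539) (.g (nat_lit 1878) (.e (nat_lit 6811) (nat_lit 365) (.e (nat_lit 2599) (nat_lit 163) (.e (nat_lit 164020) (nat_lit 45) (.e (nat_lit 696344) (nat_lit 8) (.e (nat_lit 172082) (nat_lit 7) .nil))))) .nil))) (.nd (nat_lit 6) 
(.lf (nat_lit 120507) (.g (nat_lit 3380) (.e (nat_lit 6806) (nat_lit 365) (.e (nat_lit 1221) (nat_lit 90) (.e (nat_lit 81956) (nat_lit 23) (.e (nat_lit 98311) (nat_lit 0) .nil)))) .nil)) 
(.lf (nat_lit 120571) (.g (nat_lit 2802) (.e (nat_lit 6828) (nat_lit 367) (.e (nat_lit 57374) (nat_lit 2) (.e (nat_lit 90170) (nat_lit 13) (.e (nat_lit 172106) (nat_lit 10) (.e (nat_lit 434295) (nat_lit 49) .nil))))) .nil)))))) (.nd (nat_lit 3) (.nd (nat_lit 4) (.nd (nat_lit 5) (.nd (nat_lit 6) 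
(.lf (nat_lit 120455) (.g (nat_lit 2739) (.e (nat_lit 6793) (nat_lit 365) (.e (nat_lit 1220) (nat_lit 90) (.e (nat_lit 81956) (nat_lit 23) (.e (nat_lit 98309) (nat_lit 0) .nil)))) .nil)) 
(.lf (nat_lit 120519) (.g (nat_lit 4001) (.e (nat_lit 6807) (nat_lit 365) (.e (nat_lit 1220) (nat_lit 90) (.e (nat_lit 81953) (nat_lit 22) (.e (nat_lit 90118) (nat_lit 0) .nil)))) .nil))) (.nd (nat_lit 6) 
(.lf (nat_lit 120487) (.g (nat_lit 2858) (.e (nat_lit 6794) (nat_lit 365) (.e (nat_lit 1221) (nat_lit 90) (.e (nat_lit 81956) (nat_lit 23) (.e (nat_lit 98313) (nat_lit 9) .nil)))) .nil)) 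
(.lf (nat_lit 120551) (.g (nat_lit 1142) (.e (nat_lit 6827) (nat_lit 367) (.e (nat_lit 57375) (nat_lit 2) (.e (nat_lit 90176) (nat_lit 15) (.e (nat_lit 196352) (nat_lit 18) .nil)))) .nil)))) (.nd (nat_lit 5) (.nd (nat_lit 6) 
(.lf (nat_lit 120471) (.g (nat_lit 3438) (.e (nat_lit 6793) (nat_lit 365) (.e (nat_lit 1221) (nat_lit 90) (.e (nat_lit 81956) (nat_lit 23) (.e (nat_lit 98311) (nat_lit 0) .nil)))) .nil)) 
(.lf (nat_lit 120535) (.g (nat_lit 2417) (.e (nat_lit 6807) (nat_lit 365) (.e (nat_lit 1221) (nat_lit 90) (.e (nat_lit 81956) (nat_lit 23) (.e (nat_lit 98309) (nat_lit 0) .nil)))) .nil))) (.nd (nat_lit 6) 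
(.lf (nat_lit 120503) (.g (nat_lit 3378) (.e (nat_lit 6806) (nat_lit 365) (.e (nat_lit 1221) (nat_lit 90) (.e (nat_lit 81953) (nat_lit 22) (.e (nat_lit 90152) (nat_lit 10) .nil)))) .nil)) 
(.lf (nat_lit 120567) (.g (nat_lit 1411) (.e (nat_lit 6828) (nat_lit 367) (.e (nat_lit 57372) (nat_lit 2) (.e (nat_lit 90174) (nat_lit 14) (.e (nat_lit 180250) (nat_lit 10) .nil)))) .nil))))) (.nd (nat_lit 4) (.nd (nat_lit 5) (.nd (nat_lit 6) 
(.lf (nat_lit 120463) (.g (nat_lit 2466) (.e (nat_lit 6793) (nat_lit 365) (.e (nat_lit 1221) (nat_lit 90) (.e (nat_lit 81953) (nat_lit 22) (.e (nat_lit 90116) (nat_lit 0) .nil)))) .nil)) 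
(.lf (nat_lit 120527) (.g (nat_lit 642) (.e (nat_lit 6807) (nat_lit 365) (.e (nat_lit 1221) (nat_lit 90) (.e (nat_lit 81953) (nat_lit 22) .nil))) .nil))) (.nd (nat_lit 6) 
(.lf (nat_lit 120495) (.g (nat_lit 2858) (.e (nat_lit 6802) (nat_lit 365) (.e (nat_lit 1221) (nat_lit 90) (.e (nat_lit 81956) (nat_lit 23) (.e (nat_lit 98313) (nat_lit 9) .nil)))) .nil)) 
(.lf (nat_lit 120559) (.g (nat_lit 2310) (.e (nat_lit 6828) (nat_lit 367) (.e (nat_lit 57371) (nat_lit 2) (.e (nat_lit 90174) (nat_lit 14) (.e (nat_lit 180250) (nat_lit 10) (.e (nat_lit 573484) (nat_lit 13) .nil))))) .nil)))) (.nd (nat_lit 5) (.nd (nat_lit 6) 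
(.lf (nat_lit 120479) (.g (nat_lit 1110) (.e (nat_lit 6793) (nat_lit 365) (.e (nat_lit 1221) (nat_lit 90) (.e (nat_lit 81962) (nat_lit 25) (.e (nat_lit 139273) (nat_lit 0) (.e (nat_lit 7936) (nat_lit 35) .nil))))) .nil)) 
(.lf (nat_lit 120543) (.g (nat_lit 2010) (.e (nat_lit 6825) (nat_lit 367) (.e (nat_lit 57427) (nat_lit 15) (.e (nat_lit 360474) (nat_lit 8) (.e (nat_lit 557118) (nat_lit 18) .nil)))) .nil))) (.nd (nat_lit 6) 
(.lf (nat_lit 120511) (.g (nat_lit 2245) (.e (nat_lit 6807) (nat_lit 365) (.e (nat_lit 1220) (nat_lit 90) (.e (nat_lit 81938) (nat_lit 20) (.e (nat_lit 1885) (nat_lit 127) (.e (nat_lit 581636) (nat_lit 0) (.e (nat_lit 3015) (nat_lit 187) (.e (nat_lit 458496) (nat_lit 0) .nil))))))) (.g (nat_lit 6) .nil .nil))) 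
(.lf (nat_lit 120575) (.g (nat_lit 2647) (.e (nat_lit 6828) (nat_lit 367) (.e (nat_lit 57375) (nat_lit 2) (.e (nat_lit 90172) (nat_lit 14) (.e (nat_lit 180250) (nat_lit 10) (.e (nat_lit 573481) (nat_lit 13) (.e (nat_lit 65571) (nat_lit 3) (.e (nat_lit 98319) (nat_lit 17) (.e (nat_lit 2399) (nat_lit 157) .nil)))))))) (.g (nat_lit 4) .nil .nil))))))))))

noncomputable def tv1605 : DT := (.nd (nat_lit 0) (.nd (nat_lit 1) (.nd (nat_lit 2) (.nd (nat_lit 3) (.nd (nat_lit 4) (.nd (nat_lit 5) (.nd (nat_lit 6) 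
(.lf (nat_lit 120576) (.g (nat_lit 2367) (.e (nat_lit 6828) (nat_lit 367) (.e (nat_lit 57375) (nat_lit 2) (.e (nat_lit 90172) (nat_lit 14) (.e (nat_lit 180250) (nat_lit 10) (.e (nat_lit 573482) (nat_lit 13) .nil))))) .nil)) 
(.lf (nat_lit 120640) (.g (nat_lit 2902) (.e (nat_lit 6830) (nat_lit 367) (.e (nat_lit 57371) (nat_lit 2) (.e (nat_lit 90172) (nat_lit 14) (.e (nat_lit 180250) (nat_lit 10) (.e (nat_lit 573484) (nat_lit 13) (.e (nat_lit 65568) (nat_lit 2) (.e (nat_lit 90165) (nat_lit 12) (.e (nat_lit 163849) (nat_lit 0) .nil)))))))) (.g (nat_lit 4) .nil .nil)))) (.nd (nat_lit 6) 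
(.lf (nat_lit 120608) (.g (nat_lit 1106) (.e (nat_lit 6828) (nat_lit 367) (.e (nat_lit 57412) (nat_lit 12) (.e (nat_lit 336176) (nat_lit 10) (.e (nat_lit 344130) (nat_lit 26) .nil)))) .nil)) 
(.lf (nat_lit 120672) (.g (nat_lit 2096) (.e (nat_lit 6830) (nat_lit 367) (.e (nat_lit 57373) (nat_lit 2) (.e (nat_lit 90174) (nat_lit 14) (.e (nat_lit 180250) (nat_lit 10) .nil)))) .nil)))) (.nd (nat_lit 5) (.nd (nat_lit 6) 
(.lf (nat_lit 120592) (.g (nat_lit 1149) (.e (nat_lit 6828) (nat_lit 367) (.e (nat_lit 57375) (nat_lit 2) (.e (nat_lit 90176) (nat_lit 15) (.e (nat_lit 188439) (nat_lit 20) .nil)))) .nil)) 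
(.lf (nat_lit 120656) (.g (nat_lit 3108) (.e (nat_lit 6830) (nat_lit 367) (.e (nat_lit 57371) (nat_lit 2) (.e (nat_lit 90174) (nat_lit 14) (.e (nat_lit 180250) (nat_lit 10) (.e (nat_lit 573484) (nat_lit 13) (.e (nat_lit 65568) (nat_lit 2) (.e (nat_lit 90165) (nat_lit 12) (.e (nat_lit 163849) (nat_lit 0) .nil)))))))) (.g (nat_lit 4) .nil .nil)))) (.nd (nat_lit 6) 
(.lf (nat_lit 120624) (.g (nat_lit 889) (.e (nat_lit 6828) (nat_lit 367) (.e (nat_lit 57428) (nat_lit 15) (.e (nat_lit 360477) (nat_lit 11) (.e (nat_lit 581636) (nat_lit 0) .nil)))) .nil)) 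
(.lf (nat_lit 120688) (.g (nat_lit 2902) (.e (nat_lit 6830) (nat_lit 367) (.e (nat_lit 57378) (nat_lit 3) (.e (nat_lit 98367) (nat_lit 27) (.e (nat_lit 434247) (nat_lit 28) (.e (nat_lit 573484) (nat_lit 13) .nil))))) .nil))))) (.nd (nat_lit 4) (.nd (nat_lit 5) (.nd (nat_lit 6) 
(.lf (nat_lit 120584) (.g (nat_lit 2481) (.e (nat_lit 6828) (nat_lit 367) (.e (nat_lit 57375) (nat_lit 2) (.e (nat_lit 90172) (nat_lit 14) (.e (nat_lit 180250) (nat_lit 10) (.e (nat_lit 573485) (nat_lit 13) (.e (nat_lit 65569) (nat_lit 3) (.e (nat_lit 98319) (nat_lit 17) (.e (nat_lit 2399) (nat_lit 157) .nil)))))))) (.g (nat_lit 4) .nil .nil))) 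
(.lf (nat_lit 120648) (.g (nat_lit 2672) (.e (nat_lit 6830) (nat_lit 367) (.e (nat_lit 57371) (nat_lit 2) (.e (nat_lit 90174) (nat_lit 14) (.e (nat_lit 180250) (nat_lit 10) (.e (nat_lit 573480) (nat_lit 13) (.e (nat_lit 65568) (nat_lit 2) (.e (nat_lit 90165) (nat_lit 12) (.e (nat_lit 163849) (nat_lit 0) .nil)))))))) (.g (nat_lit 4) .nil .nil)))) (.nd (nat_lit 6) 
(.lf (nat_lit 120616) (.g (nat_lit 3067) (.e (nat_lit 6828) (nat_lit 367) (.e (nat_lit 57427) (nat_lit 15) (.e (nat_lit 360474) (nat_lit 8) (.e (nat_lit 557091) (nat_lit 12) (.e (nat_lit 163994) (nat_lit 36) .nil))))) .nil)) 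
(.lf (nat_lit 120680) (.g (nat_lit 2985) (.e (nat_lit 6830) (nat_lit 367) (.e (nat_lit 57373) (nat_lit 2) (.e (nat_lit 90174) (nat_lit 14) (.e (nat_lit 180250) (nat_lit 10) (.e (nat_lit 573485) (nat_lit 13) .nil))))) .nil)))) (.nd (nat_lit 5) (.nd (nat_lit 6) 
(.lf (nat_lit 120600) (.g (nat_lit 1569) (.e (nat_lit 6828) (nat_lit 367) (.e (nat_lit 57379) (nat_lit 3) (.e (nat_lit 98367) (nat_lit 27) (.e (nat_lit 434244) (nat_lit 28) .nil)))) .nil)) 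
(.lf (nat_lit 120664) (.g (nat_lit 902) (.e (nat_lit 6830) (nat_lit 367) (.e (nat_lit 57373) (nat_lit 2) (.e (nat_lit 90172) (nat_lit 14) .nil))) .nil))) (.nd (nat_lit 6) 
(.lf (nat_lit 120632) (.g (nat_lit 721) (.e (nat_lit 6830) (nat_lit 367) (.e (nat_lit 57371) (nat_lit 2) (.e (nat_lit 90172) (nat_lit 14) .nil))) .nil)) 
(.lf (nat_lit 120696) (.g (nat_lit 1704) (.e (nat_lit 6830) (nat_lit 367) (.e (nat_lit 57378) (nat_lit 3) (.e (nat_lit 98368) (nat_lit 27) (.e (nat_lit 434248) (nat_lit 28) .nil)))) .nil)))))) (.nd (nat_lit 3) (.nd (nat_lit 4) (.nd (nat_lit 5) (.nd (nat_lit 6) 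
(.lf (nat_lit 120580) (.g (nat_lit 2305) (.e (nat_lit 6828) (nat_lit 367) (.e (nat_lit 57375) (nat_lit 2) (.e (nat_lit 90172) (nat_lit 14) (.e (nat_lit 180250) (nat_lit 10) (.e (nat_lit 573484) (nat_lit 13) .nil))))) .nil)) 
(.lf (nat_lit 120644) (.g (nat_lit 3023) (.e (nat_lit 6830) (nat_lit 367) (.e (nat_lit 57371) (nat_lit 2) (.e (nat_lit 90172) (nat_lit 14) (.e (nat_lit 180250) (nat_lit 10) (.e (nat_lit 573485) (nat_lit 13) (.e (nat_lit 65568) (nat_lit 2) (.e (nat_lit 90165) (nat_lit 12) (.e (nat_lit 163849) (nat_lit 0) .nil)))))))) (.g (nat_lit 4) .nil .nil)))) (.nd (nat_lit 6) 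
(.lf (nat_lit 120612) (.g (nat_lit 745) (.e (nat_lit 6828) (nat_lit 367) (.e (nat_lit 57417) (nat_lit 12) (.e (nat_lit 336206) (nat_lit 12) (.e (nat_lit 385063) (nat_lit 25) .nil)))) .nil)) 
(.lf (nat_lit 120676) (.g (nat_lit 3425) (.e (nat_lit 6830) (nat_lit 367) (.e (nat_lit 57373) (nat_lit 2) (.e (nat_lit 90174) (nat_lit 14) (.e (nat_lit 180250) (nat_lit 10) (.e (nat_lit 573484) (nat_lit 13) (.e (nat_lit 65566) (nat_lit 2) (.e (nat_lit 90165) (nat_lit 12) (.e (nat_lit 163849) (nat_lit 0) .nil)))))))) (.g (nat_lit 4) .nil .nil))))) (.nd (nat_lit 5) (.nd (nat_lit 6) 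
(.lf (nat_lit 120596) (.g (nat_lit 1806) (.e (nat_lit 6828) (nat_lit 367) (.e (nat_lit 57379) (nat_lit 3) (.e (nat_lit 98366) (nat_lit 27) (.e (nat_lit 434245) (nat_lit 28) .nil)))) .nil)) 
(.lf (nat_lit 120660) (.g (nat_lit 2823) (.e (nat_lit 6830) (nat_lit 367) (.e (nat_lit 57371) (nat_lit 2) (.e (nat_lit 90174) (nat_lit 14) (.e (nat_lit 180250) (nat_lit 10) (.e (nat_lit 573487) (nat_lit 14) (.e (nat_lit 73747) (nat_lit 3) (.e (nat_lit 516097) (nat_lit 0) (.e (nat_lit 2399) (nat_lit 157) .nil)))))))) (.g (nat_lit 4) .nil .nil)))) (.nd (nat_lit 6) 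
(.lf (nat_lit 120628) (.g (nat_lit 1744) (.e (nat_lit 6828) (nat_lit 367) (.e (nat_lit 57437) (nat_lit 17) (.e (nat_lit 376865) (nat_lit 22) (.e (nat_lit 90153) (nat_lit 10) .nil)))) .nil)) 
(.lf (nat_lit 120692) (.g (nat_lit 2774) (.e (nat_lit 6830) (nat_lit 367) (.e (nat_lit 57378) (nat_lit 3) (.e (nat_lit 98368) (nat_lit 27) (.e (nat_lit 434245) (nat_lit 28) (.e (nat_lit 573481) (nat_lit 13) (.e (nat_lit 65568) (nat_lit 2) (.e (nat_lit 90165) (nat_lit 12) (.e (nat_lit 163849) (nat_lit 0) .nil)))))))) (.g (nat_lit 4) .nil .nil)))))) 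
(.nd (nat_lit 4) (.nd (nat_lit 5) (.nd (nat_lit 6) 
(.lf (nat_lit 120588) (.g (nat_lit 1728) (.e (nat_lit 6828) (nat_lit 367) (.e (nat_lit 57375) (nat_lit 2) (.e (nat_lit 90174) (nat_lit 14) (.e (nat_lit 180250) (nat_lit 10) .nil)))) .nil)) 
(.lf (nat_lit 120652) (.g (nat_lit 3615) (.e (nat_lit 6830) (nat_lit 367) (.e (nat_lit 57371) (nat_lit 2) (.e (nat_lit 90174) (nat_lit 14) (.e (nat_lit 180250) (nat_lit 10) (.e (nat_lit 573482) (nat_lit 13) (.e (nat_lit 65568) (nat_lit 2) (.e (nat_lit 90165) (nat_lit 12) (.e (nat_lit 163849) (nat_lit 0) .nil)))))))) (.g (nat_lit 5) .nil .nil)))) (.nd (nat_lit 6) 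
(.lf (nat_lit 120620) (.g (nat_lit 3797) (.e (nat_lit 6828) (nat_lit 367) (.e (nat_lit 57427) (nat_lit 15) (.e (nat_lit 360474) (nat_lit 8) (.e (nat_lit 557119) (nat_lit 18) (.e (nat_lit 2798) (nat_lit 180) .nil))))) .nil)) 
(.lf (nat_lit 120684) (.g (nat_lit 825) (.e (nat_lit 6830) (nat_lit 367) (.e (nat_lit 57378) (nat_lit 3) (.e (nat_lit 98366) (nat_lit 27) .nil))) .nil)))) (.nd (nat_lit 5) (.nd (nat_lit 6) 
(.lf (nat_lit 120604) (.g (nat_lit 1461) (.e (nat_lit 6828) (nat_lit 367) (.e (nat_lit 57409) (nat_lit 12) (.e (nat_lit 336208) (nat_lit 12) (.e (nat_lit 392960) (nat_lit 24) .nil)))) .nil)) 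
(.lf (nat_lit 120668) (.g (nat_lit 2848) (.e (nat_lit 6830) (nat_lit 367) (.e (nat_lit 57373) (nat_lit 2) (.e (nat_lit 90172) (nat_lit 14) (.e (nat_lit 180250) (nat_lit 10) (.e (nat_lit 573482) (nat_lit 13) (.e (nat_lit 65571) (nat_lit 3) (.e (nat_lit 98319) (nat_lit 17) (.e (nat_lit 2399) (nat_lit 157) .nil)))))))) (.g (nat_lit 4) .nil .nil)))) (.nd (nat_lit 6) 
(.lf (nat_lit 120636) (.g (nat_lit 2836) (.e (nat_lit 6830) (nat_lit 367) (.e (nat_lit 57371) (nat_lit 2) (.e (nat_lit 90172) (nat_lit 14) (.e (nat_lit 180250) (nat_lit 10) (.e (nat_lit 573480) (nat_lit 13) (.e (nat_lit 65568) (nat_lit 2) (.e (nat_lit 90165) (nat_lit 12) (.e (nat_lit 163849) (nat_lit 0) .nil)))))))) (.g (nat_lit 4) .nil .nil))) 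
(.lf (nat_lit 120700) (.g (nat_lit 701) (.e (nat_lit 6830) (nat_lit 367) (.e (nat_lit 57388) (nat_lit 5) (.e (nat_lit 114719) (nat_lit 23) .nil))) .nil))))))) (.nd (nat_lit 2) (.nd (nat_lit 3) (.nd (nat_lit 4) (.nd (nat_lit 5) (.nd (nat_lit 6) 
(.lf (nat_lit 120578) (.g (nat_lit 2506) (.e (nat_lit 6828) (nat_lit 367) (.e (nat_lit 57375) (nat_lit 2) (.e (nat_lit 90172) (nat_lit 14) (.e (nat_lit 180250) (nat_lit 10) (.e (nat_lit 573482) (nat_lit 13) (.e (nat_lit 65568) (nat_lit 2) (.e (nat_lit 90163) (nat_lit 12) (.e (nat_lit 163843) (nat_lit 0) .nil)))))))) (.g (nat_lit 4) .nil .nil))) 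
(.lf (nat_lit 120642) (.g (nat_lit 3017) (.e (nat_lit 6830) (nat_lit 367) (.e (nat_lit 57371) (nat_lit 2) (.e (nat_lit 90172) (nat_lit 14) (.e (nat_lit 180250) (nat_lit 10) (.e (nat_lit 573484) (nat_lit 13) (.e (nat_lit 65571) (nat_lit 3) (.e (nat_lit 98319) (nat_lit 17) (.e (nat_lit 2399) (nat_lit 157) .nil)))))))) (.g (nat_lit 4) .nil .nil)))) (.nd (nat_lit 6) 
(.lf (nat_lit 120610) (.g (nat_lit 1485) (.e (nat_lit 6828) (nat_lit 367) (.e (nat_lit 57412) (nat_lit 12) (.e (nat_lit 336193) (nat_lit 12) (.e (nat_lit 385063) (nat_lit 25) .nil)))) .nil)) 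
(.lf (nat_lit 120674) (.g (nat_lit 2994) (.e (nat_lit 6830) (nat_lit 367) (.e (nat_lit 57373) (nat_lit 2) (.e (nat_lit 90174) (nat_lit 14) (.e (nat_lit 180250) (nat_lit 10) (.e (nat_lit 573482) (nat_lit 13) .nil))))) .nil)))) (.nd (nat_lit 5) (.nd (nat_lit 6) 
(.lf (nat_lit 120594) (.g (nat_lit 2395) (.e (nat_lit 6828) (nat_lit 367) (.e (nat_lit 57379) (nat_lit 3) (.e (nat_lit 98366) (nat_lit 27) (.e (nat_lit 434244) (nat_lit 28) (.e (nat_lit 573481) (nat_lit 13) .nil))))) .nil)) 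
(.lf (nat_lit 120658) (.g (nat_lit 2467) (.e (nat_lit 6830) (nat_lit 367) (.e (nat_lit 57371) (nat_lit 2) (.e (nat_lit 90174) (nat_lit 14) (.e (nat_lit 180250) (nat_lit 10) (.e (nat_lit 573485) (nat_lit 13) .nil))))) .nil))) (.nd (nat_lit 6) 
(.lf (nat_lit 120626) (.g (nat_lit 1112) (.e (nat_lit 6828) (nat_lit 367) (.e (nat_lit 57436) (nat_lit 17) (.e (nat_lit 376835) (nat_lit 0) (.e (nat_lit 3216) (nat_lit 196) .nil)))) .nil)) 
(.lf (nat_lit 120690) (.g (nat_lit 2960) (.e (nat_lit 6830) (nat_lit 367) (.e (nat_lit 57378) (nat_lit 3) (.e (nat_lit 98367) (nat_lit 27) (.e (nat_lit 434248) (nat_lit 28) (.e (nat_lit 573482) (nat_lit 13) (.e (nat_lit 65568) (nat_lit 2) (.e (nat_lit 90165) (nat_lit 12) (.e (nat_lit 163849) (nat_lit 0) .nil)))))))) (.g (nat_lit 4) .nil .nil)))))) 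
(.nd (nat_lit 4) (.nd (nat_lit 5) (.nd (nat_lit 6) 
(.lf (nat_lit 120586) (.g (nat_lit 2557) (.e (nat_lit 6828) (nat_lit 367) (.e (nat_lit 57375) (nat_lit 2) (.e (nat_lit 90172) (nat_lit 14) (.e (nat_lit 180250) (nat_lit 10) (.e (nat_lit 573487) (nat_lit 14) (.e (nat_lit 73746) (nat_lit 3) (.e (nat_lit 516100) (nat_lit 0) (.e (nat_lit 2416) (nat_lit 157) .nil)))))))) (.g (nat_lit 4) .nil .nil))) 
(.lf (nat_lit 120650) (.g (nat_lit 2801) (.e (nat_lit 6830) (nat_lit 367) (.e (nat_lit 57371) (nat_lit 2) (.e (nat_lit 90174) (nat_lit 14) (.e (nat_lit 180250) (nat_lit 10) (.e (nat_lit 573482) (nat_lit 13) (.e (nat_lit 65566) (nat_lit 2) (.e (nat_lit 90165) (nat_lit 12) (.e (nat_lit 163849) (nat_lit 0) .nil)))))))) (.g (nat_lit 4) .nil .nil)))) (.nd (nat_lit 6) 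
(.lf (nat_lit 120618) (.g (nat_lit 1838) (.e (nat_lit 6828) (nat_lit 367) (.e (nat_lit 57427) (nat_lit 15) (.e (nat_lit 360474) (nat_lit 8) (.e (nat_lit 557118) (nat_lit 18) .nil)))) .nil)) 
(.lf (nat_lit 120682) (.g (nat_lit 2364) (.e (nat_lit 6830) (nat_lit 367) (.e (nat_lit 57373) (nat_lit 2) (.e (nat_lit 90174) (nat_lit 14) (.e (nat_lit 180251) (nat_lit 10) .nil)))) .nil)))) (.nd (nat_lit 5) (.nd (nat_lit 6) 
(.lf (nat_lit 120602) (.g (nat_lit 745) (.e (nat_lit 6828) (nat_lit 367) (.e (nat_lit 57407) (nat_lit 12) (.e (nat_lit 336208) (nat_lit 12) .nil))) .nil)) 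
(.lf (nat_lit 120666) (.g (nat_lit 3007) (.e (nat_lit 6830) (nat_lit 367) (.e (nat_lit 57373) (nat_lit 2) (.e (nat_lit 90172) (nat_lit 14) (.e (nat_lit 180250) (nat_lit 10) (.e (nat_lit 573480) (nat_lit 13) .nil))))) .nil))) (.nd (nat_lit 6) 
(.lf (nat_lit 120634) (.g (nat_lit 3246) (.e (nat_lit 6830) (nat_lit 367) (.e (nat_lit 57371) (nat_lit 2) (.e (nat_lit 90172) (nat_lit 14) (.e (nat_lit 180250) (nat_lit 10) (.e (nat_lit 573451) (nat_lit 9) (.e (nat_lit 1449) (nat_lit 108) (.e (nat_lit 336013) (nat_lit 2) (.e (nat_lit 90165) (nat_lit 12) (.e (nat_lit 163849) (nat_lit 0) .nil))))))))) (.g (nat_lit 4) .nil .nil))) 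
(.lf (nat_lit 120698) (.g (nat_lit 3174) (.e (nat_lit 6830) (nat_lit 367) (.e (nat_lit 57378) (nat_lit 3) (.e (nat_lit 98368) (nat_lit 27) (.e (nat_lit 434248) (nat_lit 28) (.e (nat_lit 573482) (nat_lit 13) (.e (nat_lit 65568) (nat_lit 2) (.e (nat_lit 90165) (nat_lit 12) (.e (nat_lit 163849) (nat_lit 0) .nil)))))))) (.g (nat_lit 4) .nil .nil))))))) 
(.nd (nat_lit 3) (.nd (nat_lit 4) (.nd (nat_lit 5) (.nd (nat_lit 6) 
(.lf (nat_lit 120582) (.g (nat_lit 2338) (.e (nat_lit 6828) (nat_lit 367) (.e (nat_lit 57375) (nat_lit 2) (.e (nat_lit 90172) (nat_lit 14) (.e (nat_lit 180250) (nat_lit 10) (.e (nat_lit 573485) (nat_lit 13) .nil))))) .nil)) 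
(.lf (nat_lit 120646) (.g (nat_lit 788) (.e (nat_lit 6830) (nat_lit 367) (.e (nat_lit 57371) (nat_lit 2) (.e (nat_lit 90174) (nat_lit 14) .nil))) .nil))) (.nd (nat_lit 6) 
(.lf (nat_lit 120614) (.g (nat_lit 793) (.e (nat_lit 6828) (nat_lit 367) (.e (nat_lit 57427) (nat_lit 15) (.e (nat_lit 360472) (nat_lit 8) .nil))) .nil)) 
(.lf (nat_lit 120678) (.g (nat_lit 3073) (.e (nat_lit 6830) (nat_lit 367) (.e (nat_lit 57373) (nat_lit 2) (.e (nat_lit 90174) (nat_lit 14) (.e (nat_lit 180250) (nat_lit 10) (.e (nat_lit 573484) (nat_lit 13) (.e (nat_lit 65569) (nat_lit 3) (.e (nat_lit 98319) (nat_lit 17) (.e (nat_lit 2399) (nat_lit 157) .nil)))))))) (.g (nat_lit 4) .nil .nil))))) (.nd (nat_lit 5) (.nd (nat_lit 6) 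
(.lf (nat_lit 120598) (.g (nat_lit 1801) (.e (nat_lit 6828) (nat_lit 367) (.e (nat_lit 57379) (nat_lit 3) (.e (nat_lit 98366) (nat_lit 27) (.e (nat_lit 434248) (nat_lit 28) .nil)))) .nil)) 
(.lf (nat_lit 120662) (.g (nat_lit 2170) (.e (nat_lit 6830) (nat_lit 367) (.e (nat_lit 57371) (nat_lit 2) (.e (nat_lit 90174) (nat_lit 14) (.e (nat_lit 180251) (nat_lit 10) (.e (nat_lit 573485) (nat_lit 13) .nil))))) .nil))) (.nd (nat_lit 6) 
(.lf (nat_lit 120630) (.g (nat_lit 606) (.e (nat_lit 6829) (nat_lit 367) (.e (nat_lit 57372) (nat_lit 2) (.e (nat_lit 90176) (nat_lit 15) .nil))) .nil)) 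
(.lf (nat_lit 120694) (.g (nat_lit 2662) (.e (nat_lit 6830) (nat_lit 367) (.e (nat_lit 57378) (nat_lit 3) (.e (nat_lit 98368) (nat_lit 27) (.e (nat_lit 434247) (nat_lit 28) (.e (nat_lit 573484) (nat_lit 13) (.e (nat_lit 65568) (nat_lit 2) (.e (nat_lit 90165) (nat_lit 12) (.e (nat_lit 163849) (nat_lit 0) .nil)))))))) (.g (nat_lit 4) .nil .nil)))))) 
(.nd (nat_lit 4) (.nd (nat_lit 5) (.nd (nat_lit 6) 
(.lf (nat_lit 120590) (.g (nat_lit 1707) (.e (nat_lit 6828) (nat_lit 367) (.e (nat_lit 57375) (nat_lit 2) (.e (nat_lit 90174) (nat_lit 14) (.e (nat_lit 180251) (nat_lit 10) .nil)))) .nil)) 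
(.lf (nat_lit 120654) (.g (nat_lit 3829) (.e (nat_lit 6830) (nat_lit 367) (.e (nat_lit 57371) (nat_lit 2) (.e (nat_lit 90174) (nat_lit 14) (.e (nat_lit 180250) (nat_lit 10) (.e (nat_lit 573482) (nat_lit 13) (.e (nat_lit 65571) (nat_lit 3) (.e (nat_lit 98319) (nat_lit 17) (.e (nat_lit 2399) (nat_lit 157) .nil)))))))) (.g (nat_lit 5) .nil .nil)))) (.nd (nat_lit 6) 
(.lf (nat_lit 120622) (.g (nat_lit 2184) (.e (nat_lit 6828) (nat_lit 367) (.e (nat_lit 57427) (nat_lit 15) (.e (nat_lit 360475) (nat_lit 8) (.e (nat_lit 557119) (nat_lit 18) (.e (nat_lit 2798) (nat_lit 180) .nil))))) .nil)) 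
(.lf (nat_lit 120686) (.g (nat_lit 2148) (.e (nat_lit 6830) (nat_lit 367) (.e (nat_lit 57378) (nat_lit 3) (.e (nat_lit 98367) (nat_lit 27) (.e (nat_lit 434245) (nat_lit 28) .nil)))) .nil)))) (.nd (nat_lit 5) (.nd (nat_lit 6) 
(.lf (nat_lit 120606) (.g (nat_lit 1114) (.e (nat_lit 6828) (nat_lit 367) (.e (nat_lit 57411) (nat_lit 12) (.e (nat_lit 336182) (nat_lit 11) (.e (nat_lit 376576) (nat_lit 24) .nil)))) .nil)) 
(.lf (nat_lit 120670) (.g (nat_lit 2960) (.e (nat_lit 6830) (nat_lit 367) (.e (nat_lit 57373) (nat_lit 2) (.e (nat_lit 90172) (nat_lit 14) (.e (nat_lit 180250) (nat_lit 10) (.e (nat_lit 573485) (nat_lit 13) .nil))))) .nil))) (.nd (nat_lit 6) 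
(.lf (nat_lit 120638) (.g (nat_lit 2601) (.e (nat_lit 6830) (nat_lit 367) (.e (nat_lit 57371) (nat_lit 2) (.e (nat_lit 90172) (nat_lit 14) (.e (nat_lit 180250) (nat_lit 10) (.e (nat_lit 573482) (nat_lit 13) (.e (nat_lit 65568) (nat_lit 2) (.e (nat_lit 90163) (nat_lit 12) (.e (nat_lit 163843) (nat_lit 0) .nil)))))))) (.g (nat_lit 4) .nil .nil))) 
(.lf (nat_lit 120702) (.g (nat_lit 758) (.e (nat_lit 6830) (nat_lit 367) (.e (nat_lit 57389) (nat_lit 5) (.e (nat_lit 114719) (nat_lit 23) .nil))) .nil)))))))) (.nd (nat_lit 1) (.nd (nat_lit 2) (.nd (nat_lit 3) (.nd (nat_lit 4) (.nd (nat_lit 5) (.nd (nat_lit 6) 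
(.lf (nat_lit 120577) (.g (nat_lit 2421) (.e (nat_lit 6828) (nat_lit 367) (.e (nat_lit 57375) (nat_lit 2) (.e (nat_lit 90172) (nat_lit 14) (.e (nat_lit 180250) (nat_lit 10) (.e (nat_lit 573482) (nat_lit 13) (.e (nat_lit 65568) (nat_lit 2) (.e (nat_lit 90162) (nat_lit 12) (.e (nat_lit 163844) (nat_lit 0) .nil)))))))) (.g (nat_lit 4) .nil .nil))) 
(.lf (nat_lit 120641) (.g (nat_lit 2838) (.e (nat_lit 6830) (nat_lit 367) (.e (nat_lit 57371) (nat_lit 2) (.e (nat_lit 90172) (nat_lit 14) (.e (nat_lit 180250) (nat_lit 10) (.e (nat_lit 573484) (nat_lit 13) (.e (nat_lit 65569) (nat_lit 3) (.e (nat_lit 98319) (nat_lit 17) (.e (nat_lit 2399) (nat_lit 157) .nil)))))))) (.g (nat_lit 4) .nil .nil)))) (.nd (nat_lit 6) 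
(.lf (nat_lit 120609) (.g (nat_lit 2082) (.e (nat_lit 6828) (nat_lit 367) (.e (nat_lit 57412) (nat_lit 12) (.e (nat_lit 336176) (nat_lit 10) (.e (nat_lit 344133) (nat_lit 26) (.e (nat_lit 557119) (nat_lit 18) .nil))))) .nil)) 
(.lf (nat_lit 120673) (.g (nat_lit 3005) (.e (nat_lit 6830) (nat_lit 367) (.e (nat_lit 57373) (nat_lit 2) (.e (nat_lit 90174) (nat_lit 14) (.e (nat_lit 180250) (nat_lit 10) (.e (nat_lit 573480) (nat_lit 13) .nil))))) .nil)))) (.nd (nat_lit 5) (.nd (nat_lit 6) 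
(.lf (nat_lit 120593) (.g (nat_lit 2638) (.e (nat_lit 6828) (nat_lit 367) (.e (nat_lit 57379) (nat_lit 3) (.e (nat_lit 98366) (nat_lit 27) (.e (nat_lit 434244) (nat_lit 28) (.e (nat_lit 573480) (nat_lit 13) .nil))))) .nil)) 
(.lf (nat_lit 120657) (.g (nat_lit 3088) (.e (nat_lit 6830) (nat_lit 367) (.e (nat_lit 57371) (nat_lit 2) (.e (nat_lit 90174) (nat_lit 14) (.e (nat_lit 180250) (nat_lit 10) (.e (nat_lit 573484) (nat_lit 13) (.e (nat_lit 65569) (nat_lit 3) (.e (nat_lit 98319) (nat_lit 17) (.e (nat_lit 2399) (nat_lit 157) .nil)))))))) (.g (nat_lit 4) .nil .nil)))) (.nd (nat_lit 6) 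
(.lf (nat_lit 120625) (.g (nat_lit 2379) (.e (nat_lit 6828) (nat_lit 367) (.e (nat_lit 57428) (nat_lit 15) (.e (nat_lit 360477) (nat_lit 11) (.e (nat_lit 581651) (nat_lit 4) (.e (nat_lit 172106) (nat_lit 10) (.e (nat_lit 434202) (nat_lit 18) .nil)))))) (.g (nat_lit 5) .nil .nil))) 
(.lf (nat_lit 120689) (.g (nat_lit 2762) (.e (nat_lit 6830) (nat_lit 367) (.e (nat_lit 57378) (nat_lit 3) (.e (nat_lit 98367) (nat_lit 27) (.e (nat_lit 434248) (nat_lit 28) (.e (nat_lit 573482) (nat_lit 13) .nil))))) .nil))))) (.nd (nat_lit 4) (.nd (nat_lit 5) (.nd (nat_lit 6) 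
(.lf (nat_lit 120585) (.g (nat_lit 2436) (.e (nat_lit 6828) (nat_lit 367) (.e (nat_lit 57375) (nat_lit 2) (.e (nat_lit 90172) (nat_lit 14) (.e (nat_lit 180250) (nat_lit 10) (.e (nat_lit 573487) (nat_lit 14) .nil))))) .nil)) 
(.lf (nat_lit 120649) (.g (nat_lit 2511) (.e (nat_lit 6830) (nat_lit 367) (.e (nat_lit 57371) (nat_lit 2) (.e (nat_lit 90174) (nat_lit 14) (.e (nat_lit 180250) (nat_lit 10) (.e (nat_lit 573482) (nat_lit 13) .nil))))) .nil))) (.nd (nat_lit 6) 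
(.lf (nat_lit 120617) (.g (nat_lit 3136) (.e (nat_lit 6828) (nat_lit 367) (.e (nat_lit 57427) (nat_lit 15) (.e (nat_lit 360474) (nat_lit 8) (.e (nat_lit 557091) (nat_lit 12) (.e (nat_lit 163995) (nat_lit 36) .nil))))) .nil)) 
(.lf (nat_lit 120681) (.g (nat_lit 2837) (.e (nat_lit 6830) (nat_lit 367) (.e (nat_lit 57373) (nat_lit 2) (.e (nat_lit 90174) (nat_lit 14) (.e (nat_lit 180250) (nat_lit 10) (.e (nat_lit 573487) (nat_lit 14) .nil))))) .nil)))) (.nd (nat_lit 5) (.nd (nat_lit 6) 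
(.lf (nat_lit 120601) (.g (nat_lit 955) (.e (nat_lit 6828) (nat_lit 367) (.e (nat_lit 57379) (nat_lit 3) (.e (nat_lit 98368) (nat_lit 27) .nil))) .nil)) 
(.lf (nat_lit 120665) (.g (nat_lit 1970) (.e (nat_lit 6830) (nat_lit 367) (.e (nat_lit 57373) (nat_lit 2) (.e (nat_lit 90172) (nat_lit 14) (.e (nat_lit 180250) (nat_lit 10) .nil)))) .nil))) (.nd (nat_lit 6) 
(.lf (nat_lit 120633) (.g (nat_lit 1564) (.e (nat_lit 6830) (nat_lit 367) (.e (nat_lit 57371) (nat_lit 2) (.e (nat_lit 90172) (nat_lit 14) (.e (nat_lit 180250) (nat_lit 10) .nil)))) .nil)) 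
(.lf (nat_lit 120697) (.g (nat_lit 2533) (.e (nat_lit 6830) (nat_lit 367) (.e (nat_lit 57378) (nat_lit 3) (.e (nat_lit 98368) (nat_lit 27) (.e (nat_lit 434248) (nat_lit 28) (.e (nat_lit 573482) (nat_lit 13) .nil))))) .nil)))))) (.nd (nat_lit 3) (.nd (nat_lit 4) (.nd (nat_lit 5) (.nd (nat_lit 6) 
(.lf (nat_lit 120581) (.g (nat_lit 3425) (.e (nat_lit 6828) (nat_lit 367) (.e (nat_lit 57375) (nat_lit 2) (.e (nat_lit 90172) (nat_lit 14) (.e (nat_lit 180250) (nat_lit 10) (.e (nat_lit 573484) (nat_lit 13) (.e (nat_lit 65569) (nat_lit 3) (.e (nat_lit 98319) (nat_lit 17) (.e (nat_lit 2399) (nat_lit 157) .nil)))))))) (.g (nat_lit 5) .nil .nil))) 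
(.lf (nat_lit 120645) (.g (nat_lit 813) (.e (nat_lit 6830) (nat_lit 367) (.e (nat_lit 57371) (nat_lit 2) (.e (nat_lit 90173) (nat_lit 14) .nil))) .nil))) (.nd (nat_lit 6) 
(.lf (nat_lit 120613) (.g (nat_lit 2846) (.e (nat_lit 6828) (nat_lit 367) (.e (nat_lit 57424) (nat_lit 14) (.e (nat_lit 352269) (nat_lit 7) (.e (nat_lit 245776) (nat_lit 4) (.e (nat_lit 172106) (nat_lit 10) (.e (nat_lit 434202) (nat_lit 18) .nil)))))) (.g (nat_lit 0) .nil .nil))) 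
(.lf (nat_lit 120677) (.g (nat_lit 3093) (.e (nat_lit 6830) (nat_lit 367) (.e (nat_lit 57373) (nat_lit 2) (.e (nat_lit 90174) (nat_lit 14) (.e (nat_lit 180250) (nat_lit 10) (.e (nat_lit 573484) (nat_lit 13) (.e (nat_lit 65568) (nat_lit 2) (.e (nat_lit 90165) (nat_lit 12) (.e (nat_lit 163849) (nat_lit 0) .nil)))))))) (.g (nat_lit 4) .nil .nil))))) (.nd (nat_lit 5) (.nd (nat_lit 6) 
(.lf (nat_lit 120597) (.g (nat_lit 1738) (.e (nat_lit 6828) (nat_lit 367) (.e (nat_lit 57379) (nat_lit 3) (.e (nat_lit 98366) (nat_lit 27) (.e (nat_lit 434247) (nat_lit 28) .nil)))) .nil)) 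
(.lf (nat_lit 120661) (.g (nat_lit 2729) (.e (nat_lit 6830) (nat_lit 367) (.e (nat_lit 57371) (nat_lit 2) (.e (nat_lit 90174) (nat_lit 14) (.e (nat_lit 180251) (nat_lit 10) (.e (nat_lit 573484) (nat_lit 13) (.e (nat_lit 65568) (nat_lit 2) (.e (nat_lit 90165) (nat_lit 12) (.e (nat_lit 163849) (nat_lit 0) .nil)))))))) (.g (nat_lit 4) .nil .nil)))) (.nd (nat_lit 6) 
(.lf (nat_lit 120629) (.g (nat_lit 1586) (.e (nat_lit 6828) (nat_lit 367) (.e (nat_lit 57437) (nat_lit 17) (.e (nat_lit 376865) (nat_lit 22) (.e (nat_lit 90155) (nat_lit 10) .nil)))) .nil)) 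
(.lf (nat_lit 120693) (.g (nat_lit 1574) (.e (nat_lit 6830) (nat_lit 367) (.e (nat_lit 57378) (nat_lit 3) (.e (nat_lit 98368) (nat_lit 27) (.e (nat_lit 434247) (nat_lit 28) .nil)))) .nil))))) (.nd (nat_lit 4) (.nd (nat_lit 5) (.nd (nat_lit 6) 
(.lf (nat_lit 120589) (.g (nat_lit 2601) (.e (nat_lit 6828) (nat_lit 367) (.e (nat_lit 57375) (nat_lit 2) (.e (nat_lit 90174) (nat_lit 14) (.e (nat_lit 180250) (nat_lit 10) (.e (nat_lit 573482) (nat_lit 13) .nil))))) .nil)) 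
(.lf (nat_lit 120653) (.g (nat_lit 2569) (.e (nat_lit 6830) (nat_lit 367) (.e (nat_lit 57371) (nat_lit 2) (.e (nat_lit 90174) (nat_lit 14) (.e (nat_lit 180250) (nat_lit 10) (.e (nat_lit 573482) (nat_lit 13) (.e (nat_lit 65569) (nat_lit 3) (.e (nat_lit 98319) (nat_lit 17) (.e (nat_lit 2399) (nat_lit 157) .nil)))))))) (.g (nat_lit 4) .nil .nil)))) (.nd (nat_lit 6) 
(.lf (nat_lit 120621) (.g (nat_lit 2478) (.e (nat_lit 6828) (nat_lit 367) (.e (nat_lit 57427) (nat_lit 15) (.e (nat_lit 360475) (nat_lit 8) (.e (nat_lit 557118) (nat_lit 18) .nil)))) .nil)) 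
(.lf (nat_lit 120685) (.g (nat_lit 2662) (.e (nat_lit 6830) (nat_lit 367) (.e (nat_lit 57378) (nat_lit 3) (.e (nat_lit 98367) (nat_lit 27) (.e (nat_lit 434244) (nat_lit 28) (.e (nat_lit 573481) (nat_lit 13) .nil))))) .nil)))) (.nd (nat_lit 5) (.nd (nat_lit 6) 
(.lf (nat_lit 120605) (.g (nat_lit 843) (.e (nat_lit 6828) (nat_lit 367) (.e (nat_lit 57411) (nat_lit 12) (.e (nat_lit 336182) (nat_lit 11) .nil))) .nil)) 
(.lf (nat_lit 120669) (.g (nat_lit 2815) (.e (nat_lit 6830) (nat_lit 367) (.e (nat_lit 57373) (nat_lit 2) (.e (nat_lit 90172) (nat_lit 14) (.e (nat_lit 180250) (nat_lit 10) (.e (nat_lit 573484) (nat_lit 13) .nil))))) .nil))) (.nd (nat_lit 6) 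
(.lf (nat_lit 120637) (.g (nat_lit 2586) (.e (nat_lit 6830) (nat_lit 367) (.e (nat_lit 57371) (nat_lit 2) (.e (nat_lit 90172) (nat_lit 14) (.e (nat_lit 180250) (nat_lit 10) (.e (nat_lit 573482) (nat_lit 13) .nil))))) .nil)) 
(.lf (nat_lit 120701) (.g (nat_lit 655) (.e (nat_lit 6830) (nat_lit 367) (.e (nat_lit 57389) (nat_lit 5) (.e (nat_lit 114716) (nat_lit 22) .nil))) .nil))))))) (.nd (nat_lit 2) (.nd (nat_lit 3) (.nd (nat_lit 4) (.nd (nat_lit 5) (.nd (nat_lit 6) 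
(.lf (nat_lit 120579) (.g (nat_lit 2389) (.e (nat_lit 6828) (nat_lit 367) (.e (nat_lit 57375) (nat_lit 2) (.e (nat_lit 90172) (nat_lit 14) (.e (nat_lit 180250) (nat_lit 10) (.e (nat_lit 573482) (nat_lit 13) (.e (nat_lit 65568) (nat_lit 2) (.e (nat_lit 90165) (nat_lit 12) (.e (nat_lit 163848) (nat_lit 0) .nil)))))))) (.g (nat_lit 4) .nil .nil))) 
(.lf (nat_lit 120643) (.g (nat_lit 2701) (.e (nat_lit 6830) (nat_lit 367) (.e (nat_lit 57371) (nat_lit 2) (.e (nat_lit 90172) (nat_lit 14) (.e (nat_lit 180250) (nat_lit 10) (.e (nat_lit 573485) (nat_lit 13) .nil))))) .nil))) (.nd (nat_lit 6) 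
(.lf (nat_lit 120611) (.g (nat_lit 979) (.e (nat_lit 6828) (nat_lit 367) (.e (nat_lit 57417) (nat_lit 12) (.e (nat_lit 336116) (nat_lit 9) (.e (nat_lit 336246) (nat_lit 15) .nil)))) .nil)) 
(.lf (nat_lit 120675) (.g (nat_lit 3009) (.e (nat_lit 6830) (nat_lit 367) (.e (nat_lit 57373) (nat_lit 2) (.e (nat_lit 90174) (nat_lit 14) (.e (nat_lit 180250) (nat_lit 10) (.e (nat_lit 573484) (nat_lit 13) .nil))))) .nil)))) (.nd (nat_lit 5) (.nd (nat_lit 6) 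
(.lf (nat_lit 120595) (.g (nat_lit 2413) (.e (nat_lit 6828) (nat_lit 367) (.e (nat_lit 57379) (nat_lit 3) (.e (nat_lit 98366) (nat_lit 27) (.e (nat_lit 434244) (nat_lit 28) (.e (nat_lit 573487) (nat_lit 14) .nil))))) .nil)) 
(.lf (nat_lit 120659) (.g (nat_lit 2933) (.e (nat_lit 6830) (nat_lit 367) (.e (nat_lit 57371) (nat_lit 2) (.e (nat_lit 90174) (nat_lit 14) (.e (nat_lit 180250) (nat_lit 10) (.e (nat_lit 573485) (nat_lit 13) (.e (nat_lit 65568) (nat_lit 2) (.e (nat_lit 90165) (nat_lit 12) (.e (nat_lit 163849) (nat_lit 0) .nil)))))))) (.g (nat_lit 4) .nil .nil)))) (.nd (nat_lit 6) 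
(.lf (nat_lit 120627) (.g (nat_lit 1731) (.e (nat_lit 6828) (nat_lit 367) (.e (nat_lit 57436) (nat_lit 17) (.e (nat_lit 376865) (nat_lit 22) (.e (nat_lit 90153) (nat_lit 10) .nil)))) .nil)) 
(.lf (nat_lit 120691) (.g (nat_lit 1665) (.e (nat_lit 6830) (nat_lit 367) (.e (nat_lit 57378) (nat_lit 3) (.e (nat_lit 98368) (nat_lit 27) (.e (nat_lit 434245) (nat_lit 28) .nil)))) .nil))))) (.nd (nat_lit 4) (.nd (nat_lit 5) (.nd (nat_lit 6) 
(.lf (nat_lit 120587) (.g (nat_lit 3584) (.e (nat_lit 6828) (nat_lit 367) (.e (nat_lit 57375) (nat_lit 2) (.e (nat_lit 90172) (nat_lit 14) (.e (nat_lit 180250) (nat_lit 10) (.e (nat_lit 573487) (nat_lit 14) (.e (nat_lit 73747) (nat_lit 3) (.e (nat_lit 516097) (nat_lit 0) (.e (nat_lit 2430) (nat_lit 157) .nil)))))))) (.g (nat_lit 5) .nil .nil))) 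
(.lf (nat_lit 120651) (.g (nat_lit 2841) (.e (nat_lit 6830) (nat_lit 367) (.e (nat_lit 57371) (nat_lit 2) (.e (nat_lit 90174) (nat_lit 14) (.e (nat_lit 180250) (nat_lit 10) (.e (nat_lit 573482) (nat_lit 13) (.e (nat_lit 65568) (nat_lit 2) (.e (nat_lit 90163) (nat_lit 12) (.e (nat_lit 163843) (nat_lit 0) .nil)))))))) (.g (nat_lit 4) .nil .nil)))) (.nd (nat_lit 6) 
(.lf (nat_lit 120619) (.g (nat_lit 3145) (.e (nat_lit 6828) (nat_lit 367) (.e (nat_lit 57427) (nat_lit 15) (.e (nat_lit 360474) (nat_lit 8) (.e (nat_lit 557119) (nat_lit 18) .nil)))) .nil)) 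
(.lf (nat_lit 120683) (.g (nat_lit 2390) (.e (nat_lit 6830) (nat_lit 367) (.e (nat_lit 57373) (nat_lit 2) (.e (nat_lit 90174) (nat_lit 14) (.e (nat_lit 180252) (nat_lit 10) .nil)))) .nil)))) (.nd (nat_lit 5) (.nd (nat_lit 6) 
(.lf (nat_lit 120603) (.g (nat_lit 1553) (.e (nat_lit 6828) (nat_lit 367) (.e (nat_lit 57407) (nat_lit 12) (.e (nat_lit 336208) (nat_lit 12) (.e (nat_lit 385063) (nat_lit 25) .nil)))) .nil)) 
(.lf (nat_lit 120667) (.g (nat_lit 2824) (.e (nat_lit 6830) (nat_lit 367) (.e (nat_lit 57373) (nat_lit 2) (.e (nat_lit 90172) (nat_lit 14) (.e (nat_lit 180250) (nat_lit 10) (.e (nat_lit 573482) (nat_lit 13) .nil))))) .nil))) (.nd (nat_lit 6) 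
(.lf (nat_lit 120635) (.g (nat_lit 2759) (.e (nat_lit 6830) (nat_lit 367) (.e (nat_lit 57371) (nat_lit 2) (.e (nat_lit 90172) (nat_lit 14) (.e (nat_lit 180250) (nat_lit 10) (.e (nat_lit 573480) (nat_lit 13) .nil))))) .nil)) 
(.lf (nat_lit 120699) (.g (nat_lit 701) (.e (nat_lit 6830) (nat_lit 367) (.e (nat_lit 57388) (nat_lit 5) (.e (nat_lit 114714) (nat_lit 22) .nil))) .nil)))))) (.nd (nat_lit 3) (.nd (nat_lit 4) (.nd (nat_lit 5) (.nd (nat_lit 6) 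
(.lf (nat_lit 120583) (.g (nat_lit 3047) (.e (nat_lit 6828) (nat_lit 367) (.e (nat_lit 57375) (nat_lit 2) (.e (nat_lit 90172) (nat_lit 14) (.e (nat_lit 180250) (nat_lit 10) (.e (nat_lit 573485) (nat_lit 13) (.e (nat_lit 65568) (nat_lit 2) (.e (nat_lit 90165) (nat_lit 12) (.e (nat_lit 163849) (nat_lit 0) .nil)))))))) (.g (nat_lit 5) .nil .nil))) 
(.lf (nat_lit 120647) (.g (nat_lit 1477) (.e (nat_lit 6830) (nat_lit 367) (.e (nat_lit 57371) (nat_lit 2) (.e (nat_lit 90174) (nat_lit 14) (.e (nat_lit 180250) (nat_lit 10) .nil)))) .nil))) (.nd (nat_lit 6) 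
(.lf (nat_lit 120615) (.g (nat_lit 559) (.e (nat_lit 6828) (nat_lit 367) (.e (nat_lit 57427) (nat_lit 15) (.e (nat_lit 360474) (nat_lit 8) .nil))) .nil)) 
(.lf (nat_lit 120679) (.g (nat_lit 3152) (.e (nat_lit 6830) (nat_lit 367) (.e (nat_lit 57373) (nat_lit 2) (.e (nat_lit 90174) (nat_lit 14) (.e (nat_lit 180250) (nat_lit 10) (.e (nat_lit 573484) (nat_lit 13) (.e (nat_lit 65571) (nat_lit 3) (.e (nat_lit 98319) (nat_lit 17) (.e (nat_lit 2399) (nat_lit 157) .nil)))))))) (.g (nat_lit 4) .nil .nil))))) (.nd (nat_lit 5) (.nd (nat_lit 6) 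
(.lf (nat_lit 120599) (.g (nat_lit 2734) (.e (nat_lit 6828) (nat_lit 367) (.e (nat_lit 57379) (nat_lit 3) (.e (nat_lit 98366) (nat_lit 27) (.e (nat_lit 434248) (nat_lit 28) (.e (nat_lit 573482) (nat_lit 13) .nil))))) .nil)) 
(.lf (nat_lit 120663) (.g (nat_lit 2688) (.e (nat_lit 6830) (nat_lit 367) (.e (nat_lit 57371) (nat_lit 2) (.e (nat_lit 90174) (nat_lit 14) (.e (nat_lit 180251) (nat_lit 10) (.e (nat_lit 573485) (nat_lit 13) (.e (nat_lit 65568) (nat_lit 2) (.e (nat_lit 90165) (nat_lit 12) (.e (nat_lit 163849) (nat_lit 0) .nil)))))))) (.g (nat_lit 4) .nil .nil)))) (.nd (nat_lit 6) 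
(.lf (nat_lit 120631) (.g (nat_lit 2783) (.e (nat_lit 6830) (nat_lit 367) (.e (nat_lit 57347) (nat_lit 0) (.e (nat_lit 2031) (nat_lit 140) (.e (nat_lit 688177) (nat_lit 16) (.e (nat_lit 65563) (nat_lit 1) (.e (nat_lit 57694) (nat_lit 157) (.e (nat_lit 229415) (nat_lit 15) (.e (nat_lit 450563) (nat_lit 0) .nil)))))))) (.g (nat_lit 4) .nil .nil))) 
(.lf (nat_lit 120695) (.g (nat_lit 2467) (.e (nat_lit 6830) (nat_lit 367) (.e (nat_lit 57378) (nat_lit 3) (.e (nat_lit 98368) (nat_lit 27) (.e (nat_lit 434247) (nat_lit 28) (.e (nat_lit 573485) (nat_lit 13) (.e (nat_lit 65568) (nat_lit 2) (.e (nat_lit 90165) (nat_lit 12) (.e (nat_lit 163849) (nat_lit 0) .nil)))))))) (.g (nat_lit 4) .nil .nil)))))) 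
(.nd (nat_lit 4) (.nd (nat_lit 5) (.nd (nat_lit 6) 
(.lf (nat_lit 120591) (.g (nat_lit 1288) (.e (nat_lit 6828) (nat_lit 367) (.e (nat_lit 57375) (nat_lit 2) (.e (nat_lit 90176) (nat_lit 15) (.e (nat_lit 196352) (nat_lit 19) .nil)))) .nil)) 
(.lf (nat_lit 120655) (.g (nat_lit 2487) (.e (nat_lit 6830) (nat_lit 367) (.e (nat_lit 57371) (nat_lit 2) (.e (nat_lit 90174) (nat_lit 14) (.e (nat_lit 180250) (nat_lit 10) (.e (nat_lit 573484) (nat_lit 13) .nil))))) .nil))) (.nd (nat_lit 6) 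
(.lf (nat_lit 120623) (.g (nat_lit 1655) (.e (nat_lit 6828) (nat_lit 367) (.e (nat_lit 57427) (nat_lit 15) (.e (nat_lit 360477) (nat_lit 11) (.e (nat_lit 581651) (nat_lit 4) (.e (nat_lit 172113) (nat_lit 10) (.e (nat_lit 434203) (nat_lit 18) .nil)))))) (.g (nat_lit 4) .nil .nil))) 
(.lf (nat_lit 120687) (.g (nat_lit 1789) (.e (nat_lit 6830) (nat_lit 367) (.e (nat_lit 57378) (nat_lit 3) (.e (nat_lit 98367) (nat_lit 27) (.e (nat_lit 434247) (nat_lit 28) .nil)))) .nil)))) (.nd (nat_lit 5) (.nd (nat_lit 6) 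
(.lf (nat_lit 120607) (.g (nat_lit 666) (.e (nat_lit 6828) (nat_lit 367) (.e (nat_lit 57411) (nat_lit 12) (.e (nat_lit 336208) (nat_lit 12) .nil))) .nil)) 
(.lf (nat_lit 120671) (.g (nat_lit 883) (.e (nat_lit 6830) (nat_lit 367) (.e (nat_lit 57373) (nat_lit 2) (.e (nat_lit 90173) (nat_lit 14) .nil))) .nil))) (.nd (nat_lit 6) 
(.lf (nat_lit 120639) (.g (nat_lit 2662) (.e (nat_lit 6830) (nat_lit 367) (.e (nat_lit 57371) (nat_lit 2) (.e (nat_lit 90172) (nat_lit 14) (.e (nat_lit 180250) (nat_lit 10) (.e (nat_lit 573484) (nat_lit 13) .nil))))) .nil)) 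
(.lf (nat_lit 120703) (.g (nat_lit 1293) (.e (nat_lit 6830) (nat_lit 367) (.e (nat_lit 57400) (nat_lit 10) (.e (nat_lit 319490) (nat_lit 0) (.e (nat_lit 5629) (nat_lit 312) .nil)))) .nil)))))))))

noncomputable def tv1606 : DT := (.nd (nat_lit 0) (.nd (nat_lit 1) (.nd (nat_lit 2) (.nd (nat_lit 3) (.nd (nat_lit 4) (.nd (nat_lit 5) 
(.lf (nat_lit 120704) (.g (nat_lit 1711) (.e (nat_lit 6830) (nat_lit 367) (.e (nat_lit 57400) (nat_lit 10) (.e (nat_lit 319490) (nat_lit 0) (.e (nat_lit 5629) (nat_lit 312) (.e (nat_lit 112) (nat_lit 3) .nil))))) .nil)) 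
(.lf (nat_lit 120736) (.g (nat_lit 404) (.e (nat_lit 6830) (nat_lit 367) (.e (nat_lit 57427) (nat_lit 15) (.e (nat_lit 360475) (nat_lit 8) .nil))) .nil))) (.nd (nat_lit 5) 
(.lf (nat_lit 120720) (.g (nat_lit 2870) (.e (nat_lit 6830) (nat_lit 367) (.e (nat_lit 57426) (nat_lit 15) (.e (nat_lit 360475) (nat_lit 8) (.e (nat_lit 557119) (nat_lit 18) (.e (nat_lit 2798) (nat_lit 180) (.e (nat_lit 303135) (nat_lit 10) (.e (nat_lit 434202) (nat_lit 18) .nil))))))) (.g (nat_lit 4) .nil .nil))) 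
(.lf (nat_lit 120752) (.g (nat_lit 869) (.e (nat_lit 6830) (nat_lit 367) (.e (nat_lit 57438) (nat_lit 17) (.e (nat_lit 376862) (nat_lit 22) (.e (nat_lit 90155) (nat_lit 10) .nil)))) .nil)))) (.nd (nat_lit 4) (.nd (nat_lit 5) 
(.lf (nat_lit 120712) (.g (nat_lit 555) (.e (nat_lit 6830) (nat_lit 367) (.e (nat_lit 57423) (nat_lit 14) (.e (nat_lit 352269) (nat_lit 7) .nil))) .nil)) 
(.lf (nat_lit 120744) (.g (nat_lit 2245) (.e (nat_lit 6830) (nat_lit 367) (.e (nat_lit 57427) (nat_lit 15) (.e (nat_lit 360475) (nat_lit 8) (.e (nat_lit 557119) (nat_lit 18) (.e (nat_lit 2798) (nat_lit 180) (.e (nat_lit 303135) (nat_lit 10) (.e (nat_lit 434207) (nat_lit 18) .nil))))))) (.g (nat_lit 4) .nil .nil)))) (.nd (nat_lit 5) 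
(.lf (nat_lit 120728) (.g (nat_lit 3001) (.e (nat_lit 6830) (nat_lit 367) (.e (nat_lit 57427) (nat_lit 15) (.e (nat_lit 360474) (nat_lit 8) (.e (nat_lit 557091) (nat_lit 12) (.e (nat_lit 163995) (nat_lit 36) .nil))))) .nil)) 
(.lf (nat_lit 120760) (.g (nat_lit 771) (.e (nat_lit 6834) (nat_lit 368) (.e (nat_lit 122916) (nat_lit 14) (.e (nat_lit 352312) (nat_lit 22) .nil))) .nil))))) (.nd (nat_lit 3) (.nd (nat_lit 4) (.nd (nat_lit 5) 
(.lf (nat_lit 120708) (.g (nat_lit 1650) (.e (nat_lit 6830) (nat_lit 367) (.e (nat_lit 57412) (nat_lit 12) (.e (nat_lit 336173) (nat_lit 10) (.e (nat_lit 344138) (nat_lit 29) (.e (nat_lit 581651) (nat_lit 4) (.e (nat_lit 172107) (nat_lit 10) (.e (nat_lit 434202) (nat_lit 18) .nil))))))) (.g (nat_lit 4) .nil .nil))) 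
(.lf (nat_lit 120740) (.g (nat_lit 2392) (.e (nat_lit 6830) (nat_lit 367) (.e (nat_lit 57427) (nat_lit 15) (.e (nat_lit 360475) (nat_lit 8) (.e (nat_lit 557119) (nat_lit 18) (.e (nat_lit 2448) (nat_lit 157) .nil))))) .nil))) (.nd (nat_lit 5) 
(.lf (nat_lit 120724) (.g (nat_lit 1478) (.e (nat_lit 6830) (nat_lit 367) (.e (nat_lit 57427) (nat_lit 15) (.e (nat_lit 360474) (nat_lit 8) (.e (nat_lit 557091) (nat_lit 12) .nil)))) .nil)) 
(.lf (nat_lit 120756) (.g (nat_lit 771) (.e (nat_lit 6833) (nat_lit 368) (.e (nat_lit 122916) (nat_lit 14) (.e (nat_lit 352312) (nat_lit 22) .nil))) .nil)))) (.nd (nat_lit 4) (.nd (nat_lit 5) 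
(.lf (nat_lit 120716) (.g (nat_lit 1755) (.e (nat_lit 6830) (nat_lit 367) (.e (nat_lit 57424) (nat_lit 14) (.e (nat_lit 352312) (nat_lit 22) (.e (nat_lit 90155) (nat_lit 10) .nil)))) .nil)) 
(.lf (nat_lit 120748) (.g (nat_lit 1891) (.e (nat_lit 6830) (nat_lit 367) (.e (nat_lit 57428) (nat_lit 15) (.e (nat_lit 360477) (nat_lit 11) (.e (nat_lit 581651) (nat_lit 4) (.e (nat_lit 172113) (nat_lit 10) (.e (nat_lit 434203) (nat_lit 18) .nil)))))) (.g (nat_lit 4) .nil .nil)))) (.nd (nat_lit 5) 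
(.lf (nat_lit 120732) (.g (nat_lit 3630) (.e (nat_lit 6830) (nat_lit 367) (.e (nat_lit 57427) (nat_lit 15) (.e (nat_lit 360474) (nat_lit 8) (.e (nat_lit 557117) (nat_lit 18) .nil)))) .nil)) 
(.lf (nat_lit 120764) (.g (nat_lit 1442) (.e (nat_lit 6834) (nat_lit 368) (.e (nat_lit 122919) (nat_lit 15) (.e (nat_lit 360475) (nat_lit 8) (.e (nat_lit 557119) (nat_lit 18) .nil)))) .nil)))))) (.nd (nat_lit 2) (.nd (nat_lit 3) (.nd (nat_lit 4) (.nd (nat_lit 5) 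
(.lf (nat_lit 120706) (.g (nat_lit 703) (.e (nat_lit 6830) (nat_lit 367) (.e (nat_lit 57409) (nat_lit 12) (.e (nat_lit 336207) (nat_lit 12) .nil))) .nil)) 
(.lf (nat_lit 120738) (.g (nat_lit 1124) (.e (nat_lit 6830) (nat_lit 367) (.e (nat_lit 57427) (nat_lit 15) (.e (nat_lit 360475) (nat_lit 8) (.e (nat_lit 557091) (nat_lit 12) .nil)))) .nil))) (.nd (nat_lit 5) 
(.lf (nat_lit 120722) (.g (nat_lit 2498) (.e (nat_lit 6830) (nat_lit 367) (.e (nat_lit 57427) (nat_lit 15) (.e (nat_lit 360473) (nat_lit 8) (.e (nat_lit 557119) (nat_lit 18) (.e (nat_lit 2808) (nat_lit 180) .nil))))) .nil)) 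
(.lf (nat_lit 120754) (.g (nat_lit 664) (.e (nat_lit 6832) (nat_lit 368) (.e (nat_lit 122917) (nat_lit 15) (.e (nat_lit 360470) (nat_lit 6) .nil))) .nil)))) (.nd (nat_lit 4) (.nd (nat_lit 5) 
(.lf (nat_lit 120714) (.g (nat_lit 3337) (.e (nat_lit 6830) (nat_lit 367) (.e (nat_lit 57423) (nat_lit 14) (.e (nat_lit 352269) (nat_lit 7) (.e (nat_lit 245776) (nat_lit 4) (.e (nat_lit 172113) (nat_lit 10) (.e (nat_lit 434208) (nat_lit 18) .nil)))))) (.g (nat_lit 6) .nil .nil))) 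
(.lf (nat_lit 120746) (.g (nat_lit 2092) (.e (nat_lit 6830) (nat_lit 367) (.e (nat_lit 57427) (nat_lit 15) (.e (nat_lit 360475) (nat_lit 8) (.e (nat_lit 557119) (nat_lit 18) (.e (nat_lit 2808) (nat_lit 180) .nil))))) .nil))) (.nd (nat_lit 5) 
(.lf (nat_lit 120730) (.g (nat_lit 3107) (.e (nat_lit 6830) (nat_lit 367) (.e (nat_lit 57427) (nat_lit 15) (.e (nat_lit 360474) (nat_lit 8) (.e (nat_lit 557091) (nat_lit 12) (.e (nat_lit 163995) (nat_lit 36) (.e (nat_lit 622623) (nat_lit 13) (.e (nat_lit 2980) (nat_lit 185) (.e (nat_lit 434202) (nat_lit 18) .nil)))))))) (.g (nat_lit 4) .nil .nil))) 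
(.lf (nat_lit 120762) (.g (nat_lit 2571) (.e (nat_lit 6834) (nat_lit 368) (.e (nat_lit 122918) (nat_lit 15) (.e (nat_lit 360475) (nat_lit 8) (.e (nat_lit 557119) (nat_lit 18) (.e (nat_lit 2808) (nat_lit 180) (.e (nat_lit 303140) (nat_lit 10) (.e (nat_lit 434200) (nat_lit 18) .nil))))))) (.g (nat_lit 4) .nil .nil)))))) (.nd (nat_lit 3) (.nd (nat_lit 4) (.nd (nat_lit 5) 
(.lf (nat_lit 120710) (.g (nat_lit 894) (.e (nat_lit 6830) (nat_lit 367) (.e (nat_lit 57412) (nat_lit 12) (.e (nat_lit 336176) (nat_lit 10) (.e (nat_lit 344123) (nat_lit 24) .nil)))) .nil)) 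
(.lf (nat_lit 120742) (.g (nat_lit 3495) (.e (nat_lit 6830) (nat_lit 367) (.e (nat_lit 57427) (nat_lit 15) (.e (nat_lit 360475) (nat_lit 8) (.e (nat_lit 557119) (nat_lit 18) (.e (nat_lit 2797) (nat_lit 180) (.e (nat_lit 303135) (nat_lit 10) (.e (nat_lit 434202) (nat_lit 18) .nil))))))) (.g (nat_lit 5) .nil .nil)))) (.nd (nat_lit 5) 
(.lf (nat_lit 120726) (.g (nat_lit 2933) (.e (nat_lit 6830) (nat_lit 367) (.e (nat_lit 57427) (nat_lit 15) (.e (nat_lit 360474) (nat_lit 8) (.e (nat_lit 557091) (nat_lit 12) (.e (nat_lit 163994) (nat_lit 36) .nil))))) .nil)) 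
(.lf (nat_lit 120758) (.g (nat_lit 623) (.e (nat_lit 6834) (nat_lit 368) (.e (nat_lit 122914) (nat_lit 14) (.e (nat_lit 352269) (nat_lit 7) .nil))) .nil)))) (.nd (nat_lit 4) (.nd (nat_lit 5) 
(.lf (nat_lit 120718) (.g (nat_lit 2370) (.e (nat_lit 6830) (nat_lit 367) (.e (nat_lit 57426) (nat_lit 15) (.e (nat_lit 360473) (nat_lit 8) (.e (nat_lit 557119) (nat_lit 18) (.e (nat_lit 2807) (nat_lit 180) (.e (nat_lit 303137) (nat_lit 10) (.e (nat_lit 434202) (nat_lit 18) .nil))))))) (.g (nat_lit 4) .nil .nil))) 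
(.lf (nat_lit 120750) (.g (nat_lit 613) (.e (nat_lit 6830) (nat_lit 367) (.e (nat_lit 57436) (nat_lit 17) (.e (nat_lit 376833) (nat_lit 0) .nil))) .nil))) (.nd (nat_lit 5) 
(.lf (nat_lit 120734) (.g (nat_lit 2378) (.e (nat_lit 6830) (nat_lit 367) (.e (nat_lit 57427) (nat_lit 15) (.e (nat_lit 360474) (nat_lit 8) (.e (nat_lit 557118) (nat_lit 18) (.e (nat_lit 2808) (nat_lit 180) .nil))))) .nil)) 
(.lf (nat_lit 120766) (.g (nat_lit 3277) (.e (nat_lit 6834) (nat_lit 368) (.e (nat_lit 122919) (nat_lit 15) (.e (nat_lit 360475) (nat_lit 8) (.e (nat_lit 557119) (nat_lit 18) (.e (nat_lit 2798) (nat_lit 180) (.e (nat_lit 303140) (nat_lit 10) (.e (nat_lit 434200) (nat_lit 18) .nil))))))) (.g (nat_lit 5) .nil .nil)))))))) 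
(.nd (nat_lit 1) (.nd (nat_lit 2) (.nd (nat_lit 3) (.nd (nat_lit 4) (.nd (nat_lit 5) 
(.lf (nat_lit 120705) (.g (nat_lit 829) (.e (nat_lit 6830) (nat_lit 367) (.e (nat_lit 57409) (nat_lit 12) (.e (nat_lit 336182) (nat_lit 11) (.e (nat_lit 376576) (nat_lit 23) .nil)))) .nil)) 
(.lf (nat_lit 120737) (.g (nat_lit 1985) (.e (nat_lit 6830) (nat_lit 367) (.e (nat_lit 57427) (nat_lit 15) (.e (nat_lit 360475) (nat_lit 8) (.e (nat_lit 557090) (nat_lit 12) .nil)))) .nil))) (.nd (nat_lit 5) 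
(.lf (nat_lit 120721) (.g (nat_lit 1123) (.e (nat_lit 6830) (nat_lit 367) (.e (nat_lit 57426) (nat_lit 15) (.e (nat_lit 360477) (nat_lit 11) (.e (nat_lit 581649) (nat_lit 4) .nil)))) .nil)) 
(.lf (nat_lit 120753) (.g (nat_lit 1280) (.e (nat_lit 6830) (nat_lit 367) (.e (nat_lit 57447) (nat_lit 19) (.e (nat_lit 393270) (nat_lit 23) .nil))) .nil)))) (.nd (nat_lit 4) (.nd (nat_lit 5) 
(.lf (nat_lit 120713) (.g (nat_lit 2515) (.e (nat_lit 6830) (nat_lit 367) (.e (nat_lit 57423) (nat_lit 14) (.e (nat_lit 352269) (nat_lit 7) (.e (nat_lit 245776) (nat_lit 4) (.e (nat_lit 172112) (nat_lit 10) (.e (nat_lit 434202) (nat_lit 18) .nil)))))) (.g (nat_lit 4) .nil .nil))) 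
(.lf (nat_lit 120745) (.g (nat_lit 2566) (.e (nat_lit 6830) (nat_lit 367) (.e (nat_lit 57427) (nat_lit 15) (.e (nat_lit 360475) (nat_lit 8) (.e (nat_lit 557119) (nat_lit 18) (.e (nat_lit 2807) (nat_lit 180) (.e (nat_lit 303137) (nat_lit 10) (.e (nat_lit 434200) (nat_lit 18) .nil))))))) (.g (nat_lit 4) .nil .nil)))) (.nd (nat_lit 5) 
(.lf (nat_lit 120729) (.g (nat_lit 3070) (.e (nat_lit 6830) (nat_lit 367) (.e (nat_lit 57427) (nat_lit 15) (.e (nat_lit 360474) (nat_lit 8) (.e (nat_lit 557091) (nat_lit 12) (.e (nat_lit 163995) (nat_lit 36) (.e (nat_lit 622623) (nat_lit 13) (.e (nat_lit 2964) (nat_lit 185) (.e (nat_lit 434202) (nat_lit 18) .nil)))))))) (.g (nat_lit 4) .nil .nil))) 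
(.lf (nat_lit 120761) (.g (nat_lit 2350) (.e (nat_lit 6834) (nat_lit 368) (.e (nat_lit 122918) (nat_lit 15) (.e (nat_lit 360475) (nat_lit 8) (.e (nat_lit 557119) (nat_lit 18) (.e (nat_lit 2798) (nat_lit 180) (.e (nat_lit 303140) (nat_lit 10) (.e (nat_lit 434200) (nat_lit 18) .nil))))))) (.g (nat_lit 4) .nil .nil)))))) (.nd (nat_lit 3) (.nd (nat_lit 4) (.nd (nat_lit 5) 
(.lf (nat_lit 120709) (.g (nat_lit 1811) (.e (nat_lit 6830) (nat_lit 367) (.e (nat_lit 57412) (nat_lit 12) (.e (nat_lit 336173) (nat_lit 10) (.e (nat_lit 344138) (nat_lit 29) (.e (nat_lit 581651) (nat_lit 4) (.e (nat_lit 172112) (nat_lit 10) (.e (nat_lit 434202) (nat_lit 18) .nil))))))) (.g (nat_lit 4) .nil .nil))) 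
(.lf (nat_lit 120741) (.g (nat_lit 2351) (.e (nat_lit 6830) (nat_lit 367) (.e (nat_lit 57427) (nat_lit 15) (.e (nat_lit 360475) (nat_lit 8) (.e (nat_lit 557119) (nat_lit 18) (.e (nat_lit 2449) (nat_lit 157) .nil))))) .nil))) (.nd (nat_lit 5) 
(.lf (nat_lit 120725) (.g (nat_lit 3515) (.e (nat_lit 6830) (nat_lit 367) (.e (nat_lit 57427) (nat_lit 15) (.e (nat_lit 360474) (nat_lit 8) (.e (nat_lit 557091) (nat_lit 12) (.e (nat_lit 163993) (nat_lit 36) .nil))))) .nil)) 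
(.lf (nat_lit 120757) (.g (nat_lit 2475) (.e (nat_lit 6833) (nat_lit 368) (.e (nat_lit 122919) (nat_lit 15) (.e (nat_lit 360475) (nat_lit 8) (.e (nat_lit 557119) (nat_lit 18) (.e (nat_lit 2808) (nat_lit 180) .nil))))) .nil)))) (.nd (nat_lit 4) (.nd (nat_lit 5) 
(.lf (nat_lit 120717) (.g (nat_lit 962) (.e (nat_lit 6830) (nat_lit 367) (.e (nat_lit 57426) (nat_lit 15) (.e (nat_lit 360473) (nat_lit 8) (.e (nat_lit 557118) (nat_lit 18) .nil)))) .nil)) 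
(.lf (nat_lit 120749) (.g (nat_lit 1128) (.e (nat_lit 6830) (nat_lit 367) (.e (nat_lit 57435) (nat_lit 17) (.e (nat_lit 376835) (nat_lit 0) (.e (nat_lit 7936) (nat_lit 195) .nil)))) .nil))) (.nd (nat_lit 5) 
(.lf (nat_lit 120733) (.g (nat_lit 1599) (.e (nat_lit 6830) (nat_lit 367) (.e (nat_lit 57427) (nat_lit 15) (.e (nat_lit 360474) (nat_lit 8) (.e (nat_lit 557118) (nat_lit 18) .nil)))) .nil)) 
(.lf (nat_lit 120765) (.g (nat_lit 2402) (.e (nat_lit 6834) (nat_lit 368) (.e (nat_lit 122919) (nat_lit 15) (.e (nat_lit 360475) (nat_lit 8) (.e (nat_lit 557119) (nat_lit 18) (.e (nat_lit 2798) (nat_lit 180) .nil))))) .nil)))))) (.nd (nat_lit 2) (.nd (nat_lit 3) (.nd (nat_lit 4) (.nd (nat_lit 5) 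
(.lf (nat_lit 120707) (.g (nat_lit 3298) (.e (nat_lit 6830) (nat_lit 367) (.e (nat_lit 57412) (nat_lit 12) (.e (nat_lit 336173) (nat_lit 10) (.e (nat_lit 344138) (nat_lit 29) (.e (nat_lit 581651) (nat_lit 4) (.e (nat_lit 172106) (nat_lit 10) (.e (nat_lit 434202) (nat_lit 18) .nil))))))) (.g (nat_lit 0) .nil .nil))) 
(.lf (nat_lit 120739) (.g (nat_lit 961) (.e (nat_lit 6830) (nat_lit 367) (.e (nat_lit 57427) (nat_lit 15) (.e (nat_lit 360475) (nat_lit 8) (.e (nat_lit 557119) (nat_lit 18) .nil)))) .nil))) (.nd (nat_lit 5) 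
(.lf (nat_lit 120723) (.g (nat_lit 443) (.e (nat_lit 6830) (nat_lit 367) (.e (nat_lit 57427) (nat_lit 15) (.e (nat_lit 360474) (nat_lit 8) .nil))) .nil)) 
(.lf (nat_lit 120755) (.g (nat_lit 832) (.e (nat_lit 6832) (nat_lit 368) (.e (nat_lit 122919) (nat_lit 15) (.e (nat_lit 360470) (nat_lit 6) .nil))) .nil)))) (.nd (nat_lit 4) (.nd (nat_lit 5) 
(.lf (nat_lit 120715) (.g (nat_lit 1148) (.e (nat_lit 6830) (nat_lit 367) (.e (nat_lit 57424) (nat_lit 14) (.e (nat_lit 352312) (nat_lit 22) (.e (nat_lit 98048) (nat_lit 0) .nil)))) .nil)) 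
(.lf (nat_lit 120747) (.g (nat_lit 2983) (.e (nat_lit 6830) (nat_lit 367) (.e (nat_lit 57428) (nat_lit 15) (.e (nat_lit 360477) (nat_lit 11) (.e (nat_lit 581651) (nat_lit 4) (.e (nat_lit 172106) (nat_lit 10) (.e (nat_lit 434202) (nat_lit 18) .nil)))))) (.g (nat_lit 6) .nil .nil)))) (.nd (nat_lit 5) 
(.lf (nat_lit 120731) (.g (nat_lit 3204) (.e (nat_lit 6830) (nat_lit 367) (.e (nat_lit 57427) (nat_lit 15) (.e (nat_lit 360474) (nat_lit 8) (.e (nat_lit 557091) (nat_lit 12) (.e (nat_lit 163995) (nat_lit 36) (.e (nat_lit 622639) (nat_lit 18) (.e (nat_lit 180227) (nat_lit 0) .nil))))))) (.g (nat_lit 4) .nil .nil))) 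
(.lf (nat_lit 120763) (.g (nat_lit 2581) (.e (nat_lit 6834) (nat_lit 368) (.e (nat_lit 122919) (nat_lit 15) (.e (nat_lit 360475) (nat_lit 8) (.e (nat_lit 557118) (nat_lit 18) .nil)))) .nil))))) (.nd (nat_lit 3) (.nd (nat_lit 4) (.nd (nat_lit 5) 
(.lf (nat_lit 120711) (.g (nat_lit 499) (.e (nat_lit 6830) (nat_lit 367) (.e (nat_lit 57423) (nat_lit 14) (.e (nat_lit 352256) (nat_lit 0) .nil))) .nil)) 
(.lf (nat_lit 120743) (.g (nat_lit 1950) (.e (nat_lit 6830) (nat_lit 367) (.e (nat_lit 57427) (nat_lit 15) (.e (nat_lit 360475) (nat_lit 8) (.e (nat_lit 557119) (nat_lit 18) (.e (nat_lit 2798) (nat_lit 180) .nil))))) .nil))) (.nd (nat_lit 5) 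
(.lf (nat_lit 120727) (.g (nat_lit 3301) (.e (nat_lit 6830) (nat_lit 367) (.e (nat_lit 57427) (nat_lit 15) (.e (nat_lit 360474) (nat_lit 8) (.e (nat_lit 557091) (nat_lit 12) (.e (nat_lit 163994) (nat_lit 36) (.e (nat_lit 622639) (nat_lit 18) (.e (nat_lit 180227) (nat_lit 0) .nil))))))) (.g (nat_lit 4) .nil .nil))) 
(.lf (nat_lit 120759) (.g (nat_lit 772) (.e (nat_lit 6834) (nat_lit 368) (.e (nat_lit 122916) (nat_lit 14) (.e (nat_lit 352269) (nat_lit 7) .nil))) .nil)))) (.nd (nat_lit 4) (.nd (nat_lit 5) 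
(.lf (nat_lit 120719) (.g (nat_lit 1292) (.e (nat_lit 6830) (nat_lit 367) (.e (nat_lit 57426) (nat_lit 15) (.e (nat_lit 360475) (nat_lit 8) (.e (nat_lit 557119) (nat_lit 18) .nil)))) .nil)) 
(.lf (nat_lit 120751) (.g (nat_lit 2254) (.e (nat_lit 6830) (nat_lit 367) (.e (nat_lit 57436) (nat_lit 17) (.e (nat_lit 376865) (nat_lit 22) (.e (nat_lit 90153) (nat_lit 10) (.e (nat_lit 16128) (nat_lit 241) .nil))))) .nil))) (.nd (nat_lit 5) 
(.lf (nat_lit 120735) (.g (nat_lit 3118) (.e (nat_lit 6830) (nat_lit 367) (.e (nat_lit 57427) (nat_lit 15) (.e (nat_lit 360474) (nat_lit 8) (.e (nat_lit 557119) (nat_lit 18) .nil)))) .nil)) 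
(.lf (nat_lit 120767) (.g (nat_lit 2332) (.e (nat_lit 6834) (nat_lit 368) (.e (nat_lit 122919) (nat_lit 15) (.e (nat_lit 360475) (nat_lit 8) (.e (nat_lit 557119) (nat_lit 18) (.e (nat_lit 2807) (nat_lit 180) .nil))))) .nil))))))))

noncomputable def tv1607 : DT := (.nd (nat_lit 0) (.nd (nat_lit 1) (.nd (nat_lit 2) (.nd (nat_lit 3) (.nd (nat_lit 4) (.nd (nat_lit 5) 
(.lf (nat_lit 120768) (.g (nat_lit 1154) (.e (nat_lit 6834) (nat_lit 368) (.e (nat_lit 122919) (nat_lit 15) (.e (nat_lit 360477) (nat_lit 11) (.e (nat_lit 581651) (nat_lit 4) .nil)))) .nil)) 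
(.lf (nat_lit 120800) (.g (nat_lit 2712) (.e (nat_lit 6839) (nat_lit 369) (.e (nat_lit 163875) (nat_lit 3) (.e (nat_lit 204863) (nat_lit 27) (.e (nat_lit 344117) (nat_lit 21) (.e (nat_lit 516195) (nat_lit 26) (.e (nat_lit 336012) (nat_lit 2) (.e (nat_lit 90181) (nat_lit 16) (.e (nat_lit 229377) (nat_lit 0) .nil)))))))) (.g (nat_lit 4) .nil .nil)))) (.nd (nat_lit 5) 
(.lf (nat_lit 120784) (.g (nat_lit 2147) (.e (nat_lit 6838) (nat_lit 369) (.e (nat_lit 163864) (nat_lit 1) (.e (nat_lit 164332) (nat_lit 230) (.e (nat_lit 163905) (nat_lit 12) (.e (nat_lit 426428) (nat_lit 17) (.e (nat_lit 90170) (nat_lit 13) (.e (nat_lit 172113) (nat_lit 10) (.e (nat_lit 434199) (nat_lit 18) .nil)))))))) (.g (nat_lit 5) .nil .nil))) 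
(.lf (nat_lit 120816) (.g (nat_lit 4681) (.e (nat_lit 6853) (nat_lit 371) (.e (nat_lit 2612) (nat_lit 163) (.e (nat_lit 164239) (nat_lit 187) (.e (nat_lit 1659) (nat_lit 115) (.e (nat_lit 393301) (nat_lit 27) (.e (nat_lit 491560) (nat_lit 10) (.e (nat_lit 344088) (nat_lit 18) .nil))))))) (.g (nat_lit 7) .nil .nil))))) (.nd (nat_lit 4) (.nd (nat_lit 5) 
(.lf (nat_lit 120776) (.g (nat_lit 1292) (.e (nat_lit 6835) (nat_lit 368) (.e (nat_lit 122919) (nat_lit 15) (.e (nat_lit 360475) (nat_lit 8) (.e (nat_lit 557119) (nat_lit 18) .nil)))) .nil)) 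
(.lf (nat_lit 120808) (.g (nat_lit 4417) (.e (nat_lit 6850) (nat_lit 371) (.e (nat_lit 2612) (nat_lit 163) (.e (nat_lit 164239) (nat_lit 187) (.e (nat_lit 1659) (nat_lit 115) (.e (nat_lit 393301) (nat_lit 27) (.e (nat_lit 491560) (nat_lit 10) (.e (nat_lit 344091) (nat_lit 18) .nil))))))) (.g (nat_lit 7) .nil .nil)))) (.nd (nat_lit 5) 
(.lf (nat_lit 120792) (.g (nat_lit 2153) (.e (nat_lit 6839) (nat_lit 369) (.e (nat_lit 163874) (nat_lit 3) (.e (nat_lit 204862) (nat_lit 27) (.e (nat_lit 344117) (nat_lit 21) (.e (nat_lit 516195) (nat_lit 26) .nil))))) .nil)) 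
(.lf (nat_lit 120824) (.g (nat_lit 4710) (.e (nat_lit 6923) (nat_lit 371) (.e (nat_lit 2610) (nat_lit 163) (.e (nat_lit 164239) (nat_lit 187) (.e (nat_lit 1659) (nat_lit 115) (.e (nat_lit 393301) (nat_lit 27) (.e (nat_lit 491560) (nat_lit 10) (.e (nat_lit 344087) (nat_lit 18) .nil))))))) (.g (nat_lit 6) .nil .nil)))))) (.nd (nat_lit 3) (.nd (nat_lit 4) (.nd (nat_lit 5) 
(.lf (nat_lit 120772) (.g (nat_lit 771) (.e (nat_lit 6835) (nat_lit 368) (.e (nat_lit 122916) (nat_lit 14) (.e (nat_lit 352312) (nat_lit 22) .nil))) .nil)) 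
(.lf (nat_lit 120804) (.g (nat_lit 4144) (.e (nat_lit 6841) (nat_lit 369) (.e (nat_lit 163862) (nat_lit 1) (.e (nat_lit 164332) (nat_lit 230) (.e (nat_lit 163905) (nat_lit 12) (.e (nat_lit 426428) (nat_lit 17) (.e (nat_lit 90170) (nat_lit 13) (.e (nat_lit 172113) (nat_lit 10) (.e (nat_lit 434203) (nat_lit 18) .nil)))))))) (.g (nat_lit 0) .nil .nil)))) (.nd (nat_lit 5) 
(.lf (nat_lit 120788) (.g (nat_lit 4512) (.e (nat_lit 6839) (nat_lit 369) (.e (nat_lit 163863) (nat_lit 1) (.e (nat_lit 164325) (nat_lit 230) (.e (nat_lit 163903) (nat_lit 12) (.e (nat_lit 426428) (nat_lit 17) (.e (nat_lit 90170) (nat_lit 13) (.e (nat_lit 172113) (nat_lit 10) (.e (nat_lit 434208) (nat_lit 18) .nil)))))))) (.g (nat_lit 0) .nil .nil))) 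
(.lf (nat_lit 120820) (.g (nat_lit 4505) (.e (nat_lit 6923) (nat_lit 371) (.e (nat_lit 2610) (nat_lit 163) (.e (nat_lit 164238) (nat_lit 187) (.e (nat_lit 1659) (nat_lit 115) (.e (nat_lit 393301) (nat_lit 27) (.e (nat_lit 491560) (nat_lit 10) (.e (nat_lit 344087) (nat_lit 18) .nil))))))) (.g (nat_lit 6) .nil .nil))))) (.nd (nat_lit 4) (.nd (nat_lit 5) 
(.lf (nat_lit 120780) (.g (nat_lit 1355) (.e (nat_lit 7936) (nat_lit 368) (.e (nat_lit 122917) (nat_lit 15) (.e (nat_lit 360477) (nat_lit 11) (.e (nat_lit 581636) (nat_lit 0) (.e (nat_lit 3015) (nat_lit 187) .nil))))) .nil)) 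
(.lf (nat_lit 120812) (.g (nat_lit 2022) (.e (nat_lit 6852) (nat_lit 371) (.e (nat_lit 2612) (nat_lit 163) (.e (nat_lit 164238) (nat_lit 187) (.e (nat_lit 1659) (nat_lit 115) (.e (nat_lit 393301) (nat_lit 27) .nil))))) .nil))) (.nd (nat_lit 5) 
(.lf (nat_lit 120796) (.g (nat_lit 3932) (.e (nat_lit 6839) (nat_lit 369) (.e (nat_lit 163875) (nat_lit 3) (.e (nat_lit 204862) (nat_lit 27) (.e (nat_lit 344117) (nat_lit 21) (.e (nat_lit 516195) (nat_lit 26) (.e (nat_lit 336012) (nat_lit 2) (.e (nat_lit 90181) (nat_lit 16) (.e (nat_lit 229377) (nat_lit 0) .nil)))))))) (.g (nat_lit 8) .nil .nil))) 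
(.lf (nat_lit 120828) (.g (nat_lit 2670) (.e (nat_lit 6927) (nat_lit 372) (.e (nat_lit 8305) (nat_lit 58) (.e (nat_lit 286735) (nat_lit 3) (.e (nat_lit 98373) (nat_lit 29) (.e (nat_lit 450587) (nat_lit 10) (.e (nat_lit 573478) (nat_lit 12) (.e (nat_lit 57351) (nat_lit 0) .nil))))))) (.g (nat_lit 4) .nil .nil))))))) (.nd (nat_lit 2) (.nd (nat_lit 3) (.nd (nat_lit 4) (.nd (nat_lit 5) 
(.lf (nat_lit 120770) (.g (nat_lit 623) (.e (nat_lit 6835) (nat_lit 368) (.e (nat_lit 122914) (nat_lit 14) (.e (nat_lit 352269) (nat_lit 7) .nil))) .nil)) 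
(.lf (nat_lit 120802) (.g (nat_lit 3973) (.e (nat_lit 6841) (nat_lit 369) (.e (nat_lit 163862) (nat_lit 1) (.e (nat_lit 164332) (nat_lit 230) (.e (nat_lit 163902) (nat_lit 12) (.e (nat_lit 426428) (nat_lit 17) (.e (nat_lit 90170) (nat_lit 13) (.e (nat_lit 172113) (nat_lit 10) (.e (nat_lit 434203) (nat_lit 18) .nil)))))))) (.g (nat_lit 0) .nil .nil)))) (.nd (nat_lit 5) 
(.lf (nat_lit 120786) (.g (nat_lit 4372) (.e (nat_lit 6839) (nat_lit 369) (.e (nat_lit 163862) (nat_lit 1) (.e (nat_lit 164332) (nat_lit 230) (.e (nat_lit 163905) (nat_lit 12) (.e (nat_lit 426428) (nat_lit 17) (.e (nat_lit 90170) (nat_lit 13) (.e (nat_lit 172113) (nat_lit 10) (.e (nat_lit 434208) (nat_lit 18) .nil)))))))) (.g (nat_lit 0) .nil .nil))) 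
(.lf (nat_lit 120818) (.g (nat_lit 2144) (.e (nat_lit 6912) (nat_lit 371) (.e (nat_lit 1211) (nat_lit 89) (.e (nat_lit 73755) (nat_lit 8) (.e (nat_lit 557119) (nat_lit 18) (.e (nat_lit 2797) (nat_lit 180) .nil))))) .nil)))) (.nd (nat_lit 4) (.nd (nat_lit 5) 
(.lf (nat_lit 120778) (.g (nat_lit 1738) (.e (nat_lit 6835) (nat_lit 368) (.e (nat_lit 122919) (nat_lit 15) (.e (nat_lit 360477) (nat_lit 11) (.e (nat_lit 581651) (nat_lit 4) (.e (nat_lit 172113) (nat_lit 10) (.e (nat_lit 434203) (nat_lit 18) .nil)))))) (.g (nat_lit 4) .nil .nil))) 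
(.lf (nat_lit 120810) (.g (nat_lit 859) (.e (nat_lit 6850) (nat_lit 371) (.e (nat_lit 2641) (nat_lit 165) (.e (nat_lit 180233) (nat_lit 0) (.e (nat_lit 5948) (nat_lit 322) .nil)))) .nil))) (.nd (nat_lit 5) 
(.lf (nat_lit 120794) (.g (nat_lit 2296) (.e (nat_lit 6839) (nat_lit 369) (.e (nat_lit 163875) (nat_lit 3) (.e (nat_lit 204862) (nat_lit 27) (.e (nat_lit 344117) (nat_lit 21) (.e (nat_lit 516195) (nat_lit 26) (.e (nat_lit 336012) (nat_lit 2) (.e (nat_lit 90162) (nat_lit 12) (.e (nat_lit 163848) (nat_lit 0) .nil)))))))) (.g (nat_lit 4) .nil .nil))) 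
(.lf (nat_lit 120826) (.g (nat_lit 1964) (.e (nat_lit 6923) (nat_lit 371) (.e (nat_lit 2610) (nat_lit 163) (.e (nat_lit 164239) (nat_lit 187) (.e (nat_lit 1661) (nat_lit 115) (.e (nat_lit 393299) (nat_lit 27) .nil))))) .nil))))) (.nd (nat_lit 3) (.nd (nat_lit 4) (.nd (nat_lit 5) 
(.lf (nat_lit 120774) (.g (nat_lit 2006) (.e (nat_lit 6835) (nat_lit 368) (.e (nat_lit 122916) (nat_lit 14) (.e (nat_lit 352315) (nat_lit 23) (.e (nat_lit 98309) (nat_lit 0) (.e (nat_lit 7936) (nat_lit 362) .nil))))) .nil)) 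
(.lf (nat_lit 120806) (.g (nat_lit 3847) (.e (nat_lit 6846) (nat_lit 370) (.e (nat_lit 229385) (nat_lit 1) (.e (nat_lit 164332) (nat_lit 230) (.e (nat_lit 163905) (nat_lit 12) (.e (nat_lit 426428) (nat_lit 17) (.e (nat_lit 90170) (nat_lit 13) (.e (nat_lit 172113) (nat_lit 10) (.e (nat_lit 434203) (nat_lit 18) .nil)))))))) (.g (nat_lit 8) .nil .nil)))) (.nd (nat_lit 5) 
(.lf (nat_lit 120790) (.g (nat_lit 4630) (.e (nat_lit 6839) (nat_lit 369) (.e (nat_lit 163864) (nat_lit 1) (.e (nat_lit 164332) (nat_lit 230) (.e (nat_lit 163905) (nat_lit 12) (.e (nat_lit 426428) (nat_lit 17) (.e (nat_lit 90170) (nat_lit 13) (.e (nat_lit 172106) (nat_lit 10) (.e (nat_lit 434202) (nat_lit 18) .nil)))))))) (.g (nat_lit 8) .nil .nil))) 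
(.lf (nat_lit 120822) (.g (nat_lit 3767) (.e (nat_lit 6923) (nat_lit 371) (.e (nat_lit 2610) (nat_lit 163) (.e (nat_lit 164239) (nat_lit 187) (.e (nat_lit 1659) (nat_lit 115) (.e (nat_lit 393301) (nat_lit 27) (.e (nat_lit 491558) (nat_lit 10) (.e (nat_lit 344090) (nat_lit 18) .nil))))))) (.g (nat_lit 6) .nil .nil))))) (.nd (nat_lit 4) (.nd (nat_lit 5) 
(.lf (nat_lit 120782) (.g (nat_lit 660) (.e (nat_lit 7936) (nat_lit 368) (.e (nat_lit 122919) (nat_lit 15) (.e (nat_lit 360470) (nat_lit 6) (.e (nat_lit 548608) (nat_lit 29) .nil)))) .nil)) 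
(.lf (nat_lit 120814) (.g (nat_lit 4250) (.e (nat_lit 6853) (nat_lit 371) (.e (nat_lit 2612) (nat_lit 163) (.e (nat_lit 164239) (nat_lit 187) (.e (nat_lit 1659) (nat_lit 115) (.e (nat_lit 393301) (nat_lit 27) (.e (nat_lit 491558) (nat_lit 10) (.e (nat_lit 344091) (nat_lit 18) .nil))))))) (.g (nat_lit 7) .nil .nil)))) (.nd (nat_lit 5) 
(.lf (nat_lit 120798) (.g (nat_lit 2670) (.e (nat_lit 6839) (nat_lit 369) (.e (nat_lit 163875) (nat_lit 3) (.e (nat_lit 204863) (nat_lit 27) (.e (nat_lit 344117) (nat_lit 21) (.e (nat_lit 516195) (nat_lit 26) (.e (nat_lit 336011) (nat_lit 2) (.e (nat_lit 90165) (nat_lit 12) (.e (nat_lit 163849) (nat_lit 0) .nil)))))))) (.g (nat_lit 4) .nil .nil))) 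
(.lf (nat_lit 120830) (.g (nat_lit 5197) (.e (nat_lit 6927) (nat_lit 372) (.e (nat_lit 8305) (nat_lit 58) (.e (nat_lit 286735) (nat_lit 3) (.e (nat_lit 98373) (nat_lit 29) (.e (nat_lit 450588) (nat_lit 10) (.e (nat_lit 573475) (nat_lit 12) (.e (nat_lit 57345) (nat_lit 0) .nil))))))) (.g (nat_lit 7) .nil .nil)))))))) 
(.nd (nat_lit 1) (.nd (nat_lit 2) (.nd (nat_lit 3) (.nd (nat_lit 4) (.nd (nat_lit 5) 
(.lf (nat_lit 120769) (.g (nat_lit 1627) (.e (nat_lit 6834) (nat_lit 368) (.e (nat_lit 122919) (nat_lit 15) (.e (nat_lit 360477) (nat_lit 11) (.e (nat_lit 581651) (nat_lit 4) (.e (nat_lit 172107) (nat_lit 10) .nil))))) .nil)) 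
(.lf (nat_lit 120801) (.g (nat_lit 4150) (.e (nat_lit 6841) (nat_lit 369) (.e (nat_lit 163862) (nat_lit 1) (.e (nat_lit 164332) (nat_lit 230) (.e (nat_lit 163902) (nat_lit 12) (.e (nat_lit 426428) (nat_lit 17) (.e (nat_lit 90170) (nat_lit 13) (.e (nat_lit 172106) (nat_lit 10) (.e (nat_lit 434202) (nat_lit 18) .nil)))))))) (.g (nat_lit 8) .nil .nil)))) (.nd (nat_lit 5) 
(.lf (nat_lit 120785) (.g (nat_lit 4195) (.e (nat_lit 6839) (nat_lit 369) (.e (nat_lit 163862) (nat_lit 1) (.e (nat_lit 164332) (nat_lit 230) (.e (nat_lit 163902) (nat_lit 12) (.e (nat_lit 426428) (nat_lit 17) (.e (nat_lit 90170) (nat_lit 13) (.e (nat_lit 172113) (nat_lit 10) (.e (nat_lit 434208) (nat_lit 18) .nil)))))))) (.g (nat_lit 0) .nil .nil))) 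
(.lf (nat_lit 120817) (.g (nat_lit 1652) (.e (nat_lit 6869) (nat_lit 371) (.e (nat_lit 59) (nat_lit 0) (.e (nat_lit 1349) (nat_lit 102) (.e (nat_lit 286761) (nat_lit 13) (.e (nat_lit 393234) (nat_lit 17) .nil))))) .nil)))) (.nd (nat_lit 4) (.nd (nat_lit 5) 
(.lf (nat_lit 120777) (.g (nat_lit 2252) (.e (nat_lit 6835) (nat_lit 368) (.e (nat_lit 122919) (nat_lit 15) (.e (nat_lit 360475) (nat_lit 8) (.e (nat_lit 557119) (nat_lit 18) (.e (nat_lit 2798) (nat_lit 180) .nil))))) .nil)) 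
(.lf (nat_lit 120809) (.g (nat_lit 574) (.e (nat_lit 6850) (nat_lit 371) (.e (nat_lit 2641) (nat_lit 165) (.e (nat_lit 180233) (nat_lit 0) .nil))) .nil))) (.nd (nat_lit 5) 
(.lf (nat_lit 120793) (.g (nat_lit 2152) (.e (nat_lit 6839) (nat_lit 369) (.e (nat_lit 163875) (nat_lit 3) (.e (nat_lit 204862) (nat_lit 27) (.e (nat_lit 344117) (nat_lit 21) (.e (nat_lit 516195) (nat_lit 26) .nil))))) .nil)) 
(.lf (nat_lit 120825) (.g (nat_lit 4269) (.e (nat_lit 6923) (nat_lit 371) (.e (nat_lit 2610) (nat_lit 163) (.e (nat_lit 164239) (nat_lit 187) (.e (nat_lit 1659) (nat_lit 115) (.e (nat_lit 393301) (nat_lit 27) (.e (nat_lit 491560) (nat_lit 10) (.e (nat_lit 344094) (nat_lit 18) .nil))))))) (.g (nat_lit 6) .nil .nil)))))) (.nd (nat_lit 3) (.nd (nat_lit 4) (.nd (nat_lit 5) 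
(.lf (nat_lit 120773) (.g (nat_lit 1733) (.e (nat_lit 6835) (nat_lit 368) (.e (nat_lit 122916) (nat_lit 14) (.e (nat_lit 352312) (nat_lit 22) (.e (nat_lit 90155) (nat_lit 10) .nil)))) .nil)) 
(.lf (nat_lit 120805) (.g (nat_lit 1107) (.e (nat_lit 7936) (nat_lit 369) (.e (nat_lit 163850) (nat_lit 0) (.e (nat_lit 3469) (nat_lit 217) (.e (nat_lit 696344) (nat_lit 8) .nil)))) .nil))) (.nd (nat_lit 5) 
(.lf (nat_lit 120789) (.g (nat_lit 4653) (.e (nat_lit 6839) (nat_lit 369) (.e (nat_lit 163864) (nat_lit 1) (.e (nat_lit 164332) (nat_lit 230) (.e (nat_lit 163902) (nat_lit 12) (.e (nat_lit 426428) (nat_lit 17) (.e (nat_lit 90170) (nat_lit 13) (.e (nat_lit 172113) (nat_lit 10) (.e (nat_lit 434208) (nat_lit 18) .nil)))))))) (.g (nat_lit 0) .nil .nil))) 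
(.lf (nat_lit 120821) (.g (nat_lit 4996) (.e (nat_lit 6923) (nat_lit 371) (.e (nat_lit 2610) (nat_lit 163) (.e (nat_lit 164238) (nat_lit 187) (.e (nat_lit 1659) (nat_lit 115) (.e (nat_lit 393301) (nat_lit 27) (.e (nat_lit 491560) (nat_lit 10) (.e (nat_lit 344088) (nat_lit 18) .nil))))))) (.g (nat_lit 6) .nil .nil))))) (.nd (nat_lit 4) (.nd (nat_lit 5) 
(.lf (nat_lit 120781) (.g (nat_lit 836) (.e (nat_lit 7936) (nat_lit 368) (.e (nat_lit 122919) (nat_lit 15) (.e (nat_lit 360451) (nat_lit 0) (.e (nat_lit 7936) (nat_lit 256) .nil)))) .nil)) 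
(.lf (nat_lit 120813) (.g (nat_lit 4432) (.e (nat_lit 6853) (nat_lit 371) (.e (nat_lit 2612) (nat_lit 163) (.e (nat_lit 164239) (nat_lit 187) (.e (nat_lit 1253) (nat_lit 92) (.e (nat_lit 98373) (nat_lit 29) (.e (nat_lit 450587) (nat_lit 10) (.e (nat_lit 573475) (nat_lit 12) (.e (nat_lit 57345) (nat_lit 0) .nil)))))))) (.g (nat_lit 8) .nil .nil)))) (.nd (nat_lit 5) 
(.lf (nat_lit 120797) (.g (nat_lit 2667) (.e (nat_lit 6839) (nat_lit 369) (.e (nat_lit 163875) (nat_lit 3) (.e (nat_lit 204863) (nat_lit 27) (.e (nat_lit 344117) (nat_lit 21) (.e (nat_lit 516195) (nat_lit 26) .nil))))) .nil)) 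
(.lf (nat_lit 120829) (.g (nat_lit 5065) (.e (nat_lit 6927) (nat_lit 372) (.e (nat_lit 8305) (nat_lit 58) (.e (nat_lit 286735) (nat_lit 3) (.e (nat_lit 98373) (nat_lit 29) (.e (nat_lit 450588) (nat_lit 10) (.e (nat_lit 573473) (nat_lit 12) (.e (nat_lit 57348) (nat_lit 0) .nil))))))) (.g (nat_lit 7) .nil .nil))))))) (.nd (nat_lit 2) (.nd (nat_lit 3) (.nd (nat_lit 4) (.nd (nat_lit 5) 
(.lf (nat_lit 120771) (.g (nat_lit 772) (.e (nat_lit 6835) (nat_lit 368) (.e (nat_lit 122916) (nat_lit 14) (.e (nat_lit 352269) (nat_lit 7) .nil))) .nil)) 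
(.lf (nat_lit 120803) (.g (nat_lit 4322) (.e (nat_lit 6841) (nat_lit 369) (.e (nat_lit 163862) (nat_lit 1) (.e (nat_lit 164332) (nat_lit 230) (.e (nat_lit 163905) (nat_lit 12) (.e (nat_lit 426428) (nat_lit 17) (.e (nat_lit 90170) (nat_lit 13) (.e (nat_lit 172106) (nat_lit 10) (.e (nat_lit 434202) (nat_lit 18) .nil)))))))) (.g (nat_lit 8) .nil .nil)))) (.nd (nat_lit 5) 
(.lf (nat_lit 120787) (.g (nat_lit 4495) (.e (nat_lit 6839) (nat_lit 369) (.e (nat_lit 163863) (nat_lit 1) (.e (nat_lit 164325) (nat_lit 230) (.e (nat_lit 163903) (nat_lit 12) (.e (nat_lit 426428) (nat_lit 17) (.e (nat_lit 90170) (nat_lit 13) (.e (nat_lit 172113) (nat_lit 10) (.e (nat_lit 434203) (nat_lit 18) .nil)))))))) (.g (nat_lit 0) .nil .nil))) 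
(.lf (nat_lit 120819) (.g (nat_lit 2461) (.e (nat_lit 6919) (nat_lit 371) (.e (nat_lit 2540) (nat_lit 158) (.e (nat_lit 8326) (nat_lit 69) (.e (nat_lit 557100) (nat_lit 13) (.e (nat_lit 172106) (nat_lit 10) (.e (nat_lit 434231) (nat_lit 23) (.e (nat_lit 532535) (nat_lit 9) (.e (nat_lit 336295) (nat_lit 15) (.e (nat_lit 2442) (nat_lit 157) .nil))))))))) (.g (nat_lit 5) .nil .nil))))) 
(.nd (nat_lit 4) (.nd (nat_lit 5) 
(.lf (nat_lit 120779) (.g (nat_lit 739) (.e (nat_lit 7936) (nat_lit 368) (.e (nat_lit 122917) (nat_lit 15) (.e (nat_lit 360470) (nat_lit 6) (.e (nat_lit 548608) (nat_lit 29) .nil)))) .nil)) 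
(.lf (nat_lit 120811) (.g (nat_lit 876) (.e (nat_lit 6850) (nat_lit 371) (.e (nat_lit 2725) (nat_lit 172) (.e (nat_lit 237582) (nat_lit 1) .nil))) .nil))) (.nd (nat_lit 5) 
(.lf (nat_lit 120795) (.g (nat_lit 3991) (.e (nat_lit 6839) (nat_lit 369) (.e (nat_lit 163875) (nat_lit 3) (.e (nat_lit 204862) (nat_lit 27) (.e (nat_lit 344117) (nat_lit 21) (.e (nat_lit 516195) (nat_lit 26) (.e (nat_lit 336012) (nat_lit 2) (.e (nat_lit 90181) (nat_lit 16) (.e (nat_lit 229376) (nat_lit 0) .nil)))))))) (.g (nat_lit 8) .nil .nil))) 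
(.lf (nat_lit 120827) (.g (nat_lit 1183) (.e (nat_lit 6927) (nat_lit 372) (.e (nat_lit 8303) (nat_lit 58) (.e (nat_lit 286761) (nat_lit 13) (.e (nat_lit 393300) (nat_lit 27) .nil)))) .nil))))) (.nd (nat_lit 3) (.nd (nat_lit 4) (.nd (nat_lit 5) 
(.lf (nat_lit 120775) (.g (nat_lit 2493) (.e (nat_lit 6835) (nat_lit 368) (.e (nat_lit 122918) (nat_lit 15) (.e (nat_lit 360475) (nat_lit 8) (.e (nat_lit 557119) (nat_lit 18) (.e (nat_lit 2807) (nat_lit 180) .nil))))) .nil)) 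
(.lf (nat_lit 120807) (.g (nat_lit 4345) (.e (nat_lit 6848) (nat_lit 371) (.e (nat_lit 1027) (nat_lit 81) (.e (nat_lit 1237) (nat_lit 91) (.e (nat_lit 90170) (nat_lit 13) (.e (nat_lit 172106) (nat_lit 10) (.e (nat_lit 434231) (nat_lit 23) (.e (nat_lit 532529) (nat_lit 9) (.e (nat_lit 336257) (nat_lit 15) (.e (nat_lit 2402) (nat_lit 157) .nil))))))))) (.g (nat_lit 7) .nil .nil)))) (.nd (nat_lit 5) 
(.lf (nat_lit 120791) (.g (nat_lit 4755) (.e (nat_lit 6839) (nat_lit 369) (.e (nat_lit 163864) (nat_lit 1) (.e (nat_lit 164332) (nat_lit 230) (.e (nat_lit 163905) (nat_lit 12) (.e (nat_lit 426428) (nat_lit 17) (.e (nat_lit 90170) (nat_lit 13) (.e (nat_lit 172113) (nat_lit 10) (.e (nat_lit 434208) (nat_lit 18) .nil)))))))) (.g (nat_lit 0) .nil .nil))) 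
(.lf (nat_lit 120823) (.g (nat_lit 2506) (.e (nat_lit 6923) (nat_lit 371) (.e (nat_lit 2610) (nat_lit 163) (.e (nat_lit 164239) (nat_lit 187) (.e (nat_lit 1659) (nat_lit 115) (.e (nat_lit 393301) (nat_lit 27) (.e (nat_lit 491558) (nat_lit 10) (.e (nat_lit 344095) (nat_lit 18) .nil))))))) (.g (nat_lit 4) .nil .nil))))) (.nd (nat_lit 4) (.nd (nat_lit 5) 
(.lf (nat_lit 120783) (.g (nat_lit 1153) (.e (nat_lit 7936) (nat_lit 368) (.e (nat_lit 122919) (nat_lit 15) (.e (nat_lit 360477) (nat_lit 11) (.e (nat_lit 581636) (nat_lit 0) .nil)))) .nil)) 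
(.lf (nat_lit 120815) (.g (nat_lit 4609) (.e (nat_lit 6853) (nat_lit 371) (.e (nat_lit 2612) (nat_lit 163) (.e (nat_lit 164239) (nat_lit 187) (.e (nat_lit 1659) (nat_lit 115) (.e (nat_lit 393301) (nat_lit 27) (.e (nat_lit 491559) (nat_lit 10) (.e (nat_lit 344091) (nat_lit 18) .nil))))))) (.g (nat_lit 7) .nil .nil)))) (.nd (nat_lit 5) 
(.lf (nat_lit 120799) (.g (nat_lit 2771) (.e (nat_lit 6839) (nat_lit 369) (.e (nat_lit 163875) (nat_lit 3) (.e (nat_lit 204863) (nat_lit 27) (.e (nat_lit 344117) (nat_lit 21) (.e (nat_lit 516195) (nat_lit 26) (.e (nat_lit 336012) (nat_lit 2) (.e (nat_lit 90181) (nat_lit 16) (.e (nat_lit 229376) (nat_lit 0) .nil)))))))) (.g (nat_lit 4) .nil .nil))) 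
(.lf (nat_lit 120831) (.g (nat_lit 5761) (.e (nat_lit 6927) (nat_lit 372) (.e (nat_lit 8305) (nat_lit 58) (.e (nat_lit 286735) (nat_lit 3) (.e (nat_lit 98373) (nat_lit 29) (.e (nat_lit 450588) (nat_lit 10) (.e (nat_lit 573475) (nat_lit 12) (.e (nat_lit 57347) (nat_lit 0) .nil))))))) (.g (nat_lit 7) .nil .nil)))))))))

noncomputable def tv1608 : DT := (.nd (nat_lit 0) (.nd (nat_lit 1) (.nd (nat_lit 2) (.nd (nat_lit 3) (.nd (nat_lit 4) (.nd (nat_lit 5) (.nd (nat_lit 6) 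
(.lf (nat_lit 120832) (.g (nat_lit 3709) (.e (nat_lit 6927) (nat_lit 372) (.e (nat_lit 8305) (nat_lit 58) (.e (nat_lit 286760) (nat_lit 13) (.e (nat_lit 393301) (nat_lit 27) (.e (nat_lit 491560) (nat_lit 10) (.e (nat_lit 344088) (nat_lit 18) .nil)))))) (.g (nat_lit 0) .nil .nil))) 
(.lf (nat_lit 120896) (.g (nat_lit 4054) (.e (nat_lit 6932) (nat_lit 373) (.e (nat_lit 57373) (nat_lit 2) (.e (nat_lit 90170) (nat_lit 13) (.e (nat_lit 172106) (nat_lit 10) (.e (nat_lit 434231) (nat_lit 23) (.e (nat_lit 532529) (nat_lit 9) (.e (nat_lit 336257) (nat_lit 15) (.e (nat_lit 2417) (nat_lit 157) .nil)))))))) (.g (nat_lit 5) .nil .nil)))) (.nd (nat_lit 6) 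
(.lf (nat_lit 120864) (.g (nat_lit 1760) (.e (nat_lit 6931) (nat_lit 373) (.e (nat_lit 57372) (nat_lit 2) (.e (nat_lit 90176) (nat_lit 15) (.e (nat_lit 188450) (nat_lit 23) (.e (nat_lit 204852) (nat_lit 26) .nil))))) .nil)) 
(.lf (nat_lit 120928) (.g (nat_lit 1715) (.e (nat_lit 7936) (nat_lit 373) (.e (nat_lit 57379) (nat_lit 3) (.e (nat_lit 98372) (nat_lit 29) (.e (nat_lit 450579) (nat_lit 5) (.e (nat_lit 532566) (nat_lit 15) .nil))))) .nil)))) (.nd (nat_lit 5) (.nd (nat_lit 6) 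
(.lf (nat_lit 120848) (.g (nat_lit 2201) (.e (nat_lit 6930) (nat_lit 373) (.e (nat_lit 57372) (nat_lit 2) (.e (nat_lit 90176) (nat_lit 15) (.e (nat_lit 188450) (nat_lit 23) (.e (nat_lit 204821) (nat_lit 17) .nil))))) .nil)) 
(.lf (nat_lit 120912) (.g (nat_lit 2034) (.e (nat_lit 7936) (nat_lit 373) (.e (nat_lit 57372) (nat_lit 2) (.e (nat_lit 90176) (nat_lit 15) (.e (nat_lit 188450) (nat_lit 23) (.e (nat_lit 204881) (nat_lit 32) .nil))))) .nil))) (.nd (nat_lit 6) 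
(.lf (nat_lit 120880) (.g (nat_lit 3490) (.e (nat_lit 6931) (nat_lit 373) (.e (nat_lit 57375) (nat_lit 2) (.e (nat_lit 90176) (nat_lit 15) (.e (nat_lit 188450) (nat_lit 23) (.e (nat_lit 204852) (nat_lit 26) (.e (nat_lit 336257) (nat_lit 15) (.e (nat_lit 2424) (nat_lit 157) .nil))))))) (.g (nat_lit 7) .nil .nil))) 
(.lf (nat_lit 120944) (.g (nat_lit 901) (.e (nat_lit 6940) (nat_lit 375) (.e (nat_lit 163902) (nat_lit 12) (.e (nat_lit 426448) (nat_lit 20) .nil))) .nil))))) (.nd (nat_lit 4) (.nd (nat_lit 5) (.nd (nat_lit 6) 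
(.lf (nat_lit 120840) (.g (nat_lit 1704) (.e (nat_lit 6930) (nat_lit 373) (.e (nat_lit 57372) (nat_lit 2) (.e (nat_lit 90172) (nat_lit 14) (.e (nat_lit 180278) (nat_lit 32) (.e (nat_lit 1253) (nat_lit 92) .nil))))) .nil)) 
(.lf (nat_lit 120904) (.g (nat_lit 2573) (.e (nat_lit 6932) (nat_lit 373) (.e (nat_lit 57378) (nat_lit 3) (.e (nat_lit 98372) (nat_lit 29) (.e (nat_lit 450579) (nat_lit 5) (.e (nat_lit 532530) (nat_lit 9) (.e (nat_lit 336257) (nat_lit 15) (.e (nat_lit 2417) (nat_lit 157) .nil))))))) (.g (nat_lit 4) .nil .nil)))) (.nd (nat_lit 6) 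
(.lf (nat_lit 120872) (.g (nat_lit 3794) (.e (nat_lit 6931) (nat_lit 373) (.e (nat_lit 57374) (nat_lit 2) (.e (nat_lit 90170) (nat_lit 13) (.e (nat_lit 172106) (nat_lit 10) (.e (nat_lit 434231) (nat_lit 23) (.e (nat_lit 532529) (nat_lit 9) (.e (nat_lit 336257) (nat_lit 15) (.e (nat_lit 2397) (nat_lit 157) .nil)))))))) (.g (nat_lit 5) .nil .nil))) 
(.lf (nat_lit 120936) (.g (nat_lit 2784) (.e (nat_lit 6938) (nat_lit 375) (.e (nat_lit 163902) (nat_lit 12) (.e (nat_lit 426448) (nat_lit 20) (.e (nat_lit 114711) (nat_lit 21) (.e (nat_lit 57855) (nat_lit 253) .nil))))) .nil)))) (.nd (nat_lit 5) (.nd (nat_lit 6) 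
(.lf (nat_lit 120856) (.g (nat_lit 1002) (.e (nat_lit 6930) (nat_lit 373) (.e (nat_lit 57375) (nat_lit 2) (.e (nat_lit 90176) (nat_lit 15) (.e (nat_lit 188450) (nat_lit 23) .nil)))) .nil)) 
(.lf (nat_lit 120920) (.g (nat_lit 1031) (.e (nat_lit 7936) (nat_lit 373) (.e (nat_lit 57378) (nat_lit 3) (.e (nat_lit 98365) (nat_lit 26) (.e (nat_lit 426298) (nat_lit 11) .nil)))) .nil))) (.nd (nat_lit 6) 
(.lf (nat_lit 120888) (.g (nat_lit 2036) (.e (nat_lit 6932) (nat_lit 373) (.e (nat_lit 57371) (nat_lit 2) (.e (nat_lit 90176) (nat_lit 15) (.e (nat_lit 188450) (nat_lit 23) (.e (nat_lit 204852) (nat_lit 26) .nil))))) .nil)) 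
(.lf (nat_lit 120952) (.g (nat_lit 3881) (.e (nat_lit 6940) (nat_lit 375) (.e (nat_lit 163947) (nat_lit 20) (.e (nat_lit 491568) (nat_lit 13) (.e (nat_lit 393301) (nat_lit 27) (.e (nat_lit 491560) (nat_lit 10) (.e (nat_lit 344091) (nat_lit 18) .nil)))))) (.g (nat_lit 6) .nil .nil))))))) (.nd (nat_lit 3) (.nd (nat_lit 4) (.nd (nat_lit 5) (.nd (nat_lit 6) 
(.lf (nat_lit 120836) (.g (nat_lit 1244) (.e (nat_lit 6930) (nat_lit 373) (.e (nat_lit 57371) (nat_lit 2) (.e (nat_lit 90176) (nat_lit 15) (.e (nat_lit 188450) (nat_lit 23) .nil)))) .nil)) 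
(.lf (nat_lit 120900) (.g (nat_lit 698) (.e (nat_lit 6932) (nat_lit 373) (.e (nat_lit 57377) (nat_lit 3) (.e (nat_lit 98365) (nat_lit 26) .nil))) .nil))) (.nd (nat_lit 6) 
(.lf (nat_lit 120868) (.g (nat_lit 3385) (.e (nat_lit 6931) (nat_lit 373) (.e (nat_lit 57372) (nat_lit 2) (.e (nat_lit 90176) (nat_lit 15) (.e (nat_lit 188450) (nat_lit 23) (.e (nat_lit 204852) (nat_lit 26) (.e (nat_lit 336257) (nat_lit 15) (.e (nat_lit 2425) (nat_lit 157) .nil))))))) (.g (nat_lit 7) .nil .nil))) 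
(.lf (nat_lit 120932) (.g (nat_lit 2430) (.e (nat_lit 6938) (nat_lit 375) (.e (nat_lit 163902) (nat_lit 12) (.e (nat_lit 426448) (nat_lit 20) (.e (nat_lit 114710) (nat_lit 21) (.e (nat_lit 57847) (nat_lit 252) .nil))))) .nil)))) (.nd (nat_lit 5) (.nd (nat_lit 6) 
(.lf (nat_lit 120852) (.g (nat_lit 1731) (.e (nat_lit 6930) (nat_lit 373) (.e (nat_lit 57375) (nat_lit 2) (.e (nat_lit 90172) (nat_lit 14) (.e (nat_lit 180278) (nat_lit 32) (.e (nat_lit 1253) (nat_lit 92) .nil))))) .nil)) 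
(.lf (nat_lit 120916) (.g (nat_lit 1519) (.e (nat_lit 7936) (nat_lit 373) (.e (nat_lit 57374) (nat_lit 2) (.e (nat_lit 90170) (nat_lit 13) (.e (nat_lit 172106) (nat_lit 10) .nil)))) .nil))) (.nd (nat_lit 6) 
(.lf (nat_lit 120884) (.g (nat_lit 2172) (.e (nat_lit 6931) (nat_lit 373) (.e (nat_lit 57375) (nat_lit 2) (.e (nat_lit 90176) (nat_lit 15) (.e (nat_lit 188450) (nat_lit 23) (.e (nat_lit 204881) (nat_lit 32) (.e (nat_lit 385043) (nat_lit 21) .nil)))))) (.g (nat_lit 4) .nil .nil))) 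
(.lf (nat_lit 120948) (.g (nat_lit 3174) (.e (nat_lit 6940) (nat_lit 375) (.e (nat_lit 163945) (nat_lit 20) (.e (nat_lit 491540) (nat_lit 3) (.e (nat_lit 98373) (nat_lit 29) (.e (nat_lit 450587) (nat_lit 10) (.e (nat_lit 573475) (nat_lit 12) (.e (nat_lit 57345) (nat_lit 0) .nil))))))) (.g (nat_lit 0) .nil .nil)))))) (.nd (nat_lit 4) (.nd (nat_lit 5) (.nd (nat_lit 6) 
(.lf (nat_lit 120844) (.g (nat_lit 1512) (.e (nat_lit 6930) (nat_lit 373) (.e (nat_lit 57372) (nat_lit 2) (.e (nat_lit 90176) (nat_lit 15) (.e (nat_lit 188439) (nat_lit 20) (.e (nat_lit 3271) (nat_lit 199) .nil))))) .nil)) 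
(.lf (nat_lit 120908) (.g (nat_lit 2003) (.e (nat_lit 7936) (nat_lit 373) (.e (nat_lit 57371) (nat_lit 2) (.e (nat_lit 90176) (nat_lit 15) (.e (nat_lit 188450) (nat_lit 23) (.e (nat_lit 204881) (nat_lit 32) .nil))))) .nil))) (.nd (nat_lit 6) 
(.lf (nat_lit 120876) (.g (nat_lit 1028) (.e (nat_lit 6931) (nat_lit 373) (.e (nat_lit 57375) (nat_lit 2) (.e (nat_lit 90176) (nat_lit 15) (.e (nat_lit 188450) (nat_lit 23) .nil)))) .nil)) 
(.lf (nat_lit 120940) (.g (nat_lit 2700) (.e (nat_lit 6938) (nat_lit 375) (.e (nat_lit 163903) (nat_lit 12) (.e (nat_lit 426448) (nat_lit 20) (.e (nat_lit 114710) (nat_lit 21) (.e (nat_lit 57851) (nat_lit 252) .nil))))) .nil)))) (.nd (nat_lit 5) (.nd (nat_lit 6) 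
(.lf (nat_lit 120860) (.g (nat_lit 2849) (.e (nat_lit 6930) (nat_lit 373) (.e (nat_lit 57379) (nat_lit 3) (.e (nat_lit 98372) (nat_lit 29) (.e (nat_lit 450579) (nat_lit 5) (.e (nat_lit 532530) (nat_lit 9) (.e (nat_lit 336257) (nat_lit 15) (.e (nat_lit 2400) (nat_lit 157) .nil))))))) (.g (nat_lit 5) .nil .nil))) 
(.lf (nat_lit 120924) (.g (nat_lit 1188) (.e (nat_lit 7936) (nat_lit 373) (.e (nat_lit 57379) (nat_lit 3) (.e (nat_lit 98365) (nat_lit 26) (.e (nat_lit 426298) (nat_lit 11) .nil)))) .nil))) (.nd (nat_lit 6) 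
(.lf (nat_lit 120892) (.g (nat_lit 3462) (.e (nat_lit 6932) (nat_lit 373) (.e (nat_lit 57371) (nat_lit 2) (.e (nat_lit 90176) (nat_lit 15) (.e (nat_lit 188450) (nat_lit 23) (.e (nat_lit 204852) (nat_lit 26) (.e (nat_lit 336257) (nat_lit 15) (.e (nat_lit 2425) (nat_lit 157) .nil))))))) (.g (nat_lit 5) .nil .nil))) 
(.lf (nat_lit 120956) (.g (nat_lit 4334) (.e (nat_lit 6940) (nat_lit 375) (.e (nat_lit 163947) (nat_lit 20) (.e (nat_lit 491569) (nat_lit 13) (.e (nat_lit 393301) (nat_lit 27) (.e (nat_lit 491559) (nat_lit 10) (.e (nat_lit 344091) (nat_lit 18) .nil)))))) (.g (nat_lit 6) .nil .nil)))))))) (.nd (nat_lit 2) (.nd (nat_lit 3) (.nd (nat_lit 4) (.nd (nat_lit 5) (.nd (nat_lit 6) 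
(.lf (nat_lit 120834) (.g (nat_lit 4404) (.e (nat_lit 6927) (nat_lit 372) (.e (nat_lit 8305) (nat_lit 58) (.e (nat_lit 286761) (nat_lit 13) (.e (nat_lit 393301) (nat_lit 27) (.e (nat_lit 491559) (nat_lit 10) .nil))))) .nil)) 
(.lf (nat_lit 120898) (.g (nat_lit 3928) (.e (nat_lit 6932) (nat_lit 373) (.e (nat_lit 57373) (nat_lit 2) (.e (nat_lit 90170) (nat_lit 13) (.e (nat_lit 172106) (nat_lit 10) (.e (nat_lit 434231) (nat_lit 23) (.e (nat_lit 532563) (nat_lit 15) (.e (nat_lit 385043) (nat_lit 21) .nil))))))) (.g (nat_lit 5) .nil .nil)))) (.nd (nat_lit 6) 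
(.lf (nat_lit 120866) (.g (nat_lit 3367) (.e (nat_lit 6931) (nat_lit 373) (.e (nat_lit 57372) (nat_lit 2) (.e (nat_lit 90176) (nat_lit 15) (.e (nat_lit 188450) (nat_lit 23) (.e (nat_lit 204852) (nat_lit 26) (.e (nat_lit 336257) (nat_lit 15) (.e (nat_lit 2423) (nat_lit 157) .nil))))))) (.g (nat_lit 7) .nil .nil))) 
(.lf (nat_lit 120930) (.g (nat_lit 913) (.e (nat_lit 6938) (nat_lit 375) (.e (nat_lit 163902) (nat_lit 12) (.e (nat_lit 426448) (nat_lit 20) .nil))) .nil)))) (.nd (nat_lit 5) (.nd (nat_lit 6) 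
(.lf (nat_lit 120850) (.g (nat_lit 2195) (.e (nat_lit 6930) (nat_lit 373) (.e (nat_lit 57372) (nat_lit 2) (.e (nat_lit 90176) (nat_lit 15) (.e (nat_lit 188450) (nat_lit 23) (.e (nat_lit 204885) (nat_lit 33) .nil))))) .nil)) 
(.lf (nat_lit 120914) (.g (nat_lit 2597) (.e (nat_lit 7936) (nat_lit 373) (.e (nat_lit 57373) (nat_lit 2) (.e (nat_lit 90170) (nat_lit 13) (.e (nat_lit 172106) (nat_lit 10) (.e (nat_lit 434231) (nat_lit 23) .nil))))) .nil))) (.nd (nat_lit 6) 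
(.lf (nat_lit 120882) (.g (nat_lit 3436) (.e (nat_lit 6931) (nat_lit 373) (.e (nat_lit 57375) (nat_lit 2) (.e (nat_lit 90176) (nat_lit 15) (.e (nat_lit 188450) (nat_lit 23) (.e (nat_lit 204852) (nat_lit 26) (.e (nat_lit 336257) (nat_lit 15) (.e (nat_lit 2430) (nat_lit 157) .nil))))))) (.g (nat_lit 7) .nil .nil))) 
(.lf (nat_lit 120946) (.g (nat_lit 1802) (.e (nat_lit 6940) (nat_lit 375) (.e (nat_lit 163902) (nat_lit 12) (.e (nat_lit 426448) (nat_lit 20) (.e (nat_lit 114712) (nat_lit 21) .nil)))) .nil))))) (.nd (nat_lit 4) (.nd (nat_lit 5) (.nd (nat_lit 6) 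
(.lf (nat_lit 120842) (.g (nat_lit 1263) (.e (nat_lit 6930) (nat_lit 373) (.e (nat_lit 57372) (nat_lit 2) (.e (nat_lit 90176) (nat_lit 15) (.e (nat_lit 188439) (nat_lit 20) .nil)))) .nil)) 
(.lf (nat_lit 120906) (.g (nat_lit 2867) (.e (nat_lit 6932) (nat_lit 373) (.e (nat_lit 57378) (nat_lit 3) (.e (nat_lit 98372) (nat_lit 29) (.e (nat_lit 450579) (nat_lit 5) (.e (nat_lit 532534) (nat_lit 9) (.e (nat_lit 336257) (nat_lit 15) (.e (nat_lit 2425) (nat_lit 157) .nil))))))) (.g (nat_lit 4) .nil .nil)))) (.nd (nat_lit 6) 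
(.lf (nat_lit 120874) (.g (nat_lit 3798) (.e (nat_lit 6931) (nat_lit 373) (.e (nat_lit 57374) (nat_lit 2) (.e (nat_lit 90170) (nat_lit 13) (.e (nat_lit 172106) (nat_lit 10) (.e (nat_lit 434231) (nat_lit 23) (.e (nat_lit 532529) (nat_lit 9) (.e (nat_lit 336257) (nat_lit 15) (.e (nat_lit 2424) (nat_lit 157) .nil)))))))) (.g (nat_lit 5) .nil .nil))) 
(.lf (nat_lit 120938) (.g (nat_lit 1079) (.e (nat_lit 6938) (nat_lit 375) (.e (nat_lit 163903) (nat_lit 12) (.e (nat_lit 426448) (nat_lit 20) .nil))) .nil)))) (.nd (nat_lit 5) (.nd (nat_lit 6) 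
(.lf (nat_lit 120858) (.g (nat_lit 899) (.e (nat_lit 6930) (nat_lit 373) (.e (nat_lit 57375) (nat_lit 2) (.e (nat_lit 90177) (nat_lit 15) .nil))) .nil)) 
(.lf (nat_lit 120922) (.g (nat_lit 2138) (.e (nat_lit 7936) (nat_lit 373) (.e (nat_lit 57378) (nat_lit 3) (.e (nat_lit 98372) (nat_lit 29) (.e (nat_lit 450579) (nat_lit 5) (.e (nat_lit 532530) (nat_lit 9) .nil))))) .nil))) (.nd (nat_lit 6) 
(.lf (nat_lit 120890) (.g (nat_lit 2245) (.e (nat_lit 6932) (nat_lit 373) (.e (nat_lit 57371) (nat_lit 2) (.e (nat_lit 90176) (nat_lit 15) (.e (nat_lit 188450) (nat_lit 23) (.e (nat_lit 204852) (nat_lit 26) (.e (nat_lit 336257) (nat_lit 15) (.e (nat_lit 2422) (nat_lit 157) .nil))))))) (.g (nat_lit 4) .nil .nil))) 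
(.lf (nat_lit 120954) (.g (nat_lit 3602) (.e (nat_lit 6940) (nat_lit 375) (.e (nat_lit 163947) (nat_lit 20) (.e (nat_lit 491569) (nat_lit 13) (.e (nat_lit 393301) (nat_lit 27) (.e (nat_lit 491558) (nat_lit 10) (.e (nat_lit 344091) (nat_lit 18) .nil)))))) (.g (nat_lit 6) .nil .nil))))))) (.nd (nat_lit 3) (.nd (nat_lit 4) (.nd (nat_lit 5) (.nd (nat_lit 6) 
(.lf (nat_lit 120838) (.g (nat_lit 2111) (.e (nat_lit 6930) (nat_lit 373) (.e (nat_lit 57371) (nat_lit 2) (.e (nat_lit 90176) (nat_lit 15) (.e (nat_lit 188450) (nat_lit 23) (.e (nat_lit 204852) (nat_lit 26) (.e (nat_lit 336257) (nat_lit 15) (.e (nat_lit 2402) (nat_lit 157) .nil))))))) (.g (nat_lit 4) .nil .nil))) 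
(.lf (nat_lit 120902) (.g (nat_lit 2039) (.e (nat_lit 6932) (nat_lit 373) (.e (nat_lit 57378) (nat_lit 3) (.e (nat_lit 98365) (nat_lit 26) (.e (nat_lit 426298) (nat_lit 11) .nil)))) .nil))) (.nd (nat_lit 6) 
(.lf (nat_lit 120870) (.g (nat_lit 2412) (.e (nat_lit 6931) (nat_lit 373) (.e (nat_lit 57373) (nat_lit 2) (.e (nat_lit 90170) (nat_lit 13) (.e (nat_lit 172106) (nat_lit 10) (.e (nat_lit 434231) (nat_lit 23) .nil))))) .nil)) 
(.lf (nat_lit 120934) (.g (nat_lit 2897) (.e (nat_lit 6938) (nat_lit 375) (.e (nat_lit 163902) (nat_lit 12) (.e (nat_lit 426448) (nat_lit 20) (.e (nat_lit 114710) (nat_lit 21) (.e (nat_lit 57856) (nat_lit 253) .nil))))) .nil)))) (.nd (nat_lit 5) (.nd (nat_lit 6) 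
(.lf (nat_lit 120854) (.g (nat_lit 1453) (.e (nat_lit 6930) (nat_lit 373) (.e (nat_lit 57375) (nat_lit 2) (.e (nat_lit 90176) (nat_lit 15) (.e (nat_lit 188439) (nat_lit 20) (.e (nat_lit 3271) (nat_lit 199) .nil))))) .nil)) 
(.lf (nat_lit 120918) (.g (nat_lit 1975) (.e (nat_lit 7936) (nat_lit 373) (.e (nat_lit 57375) (nat_lit 2) (.e (nat_lit 90176) (nat_lit 15) (.e (nat_lit 188450) (nat_lit 23) (.e (nat_lit 204880) (nat_lit 32) .nil))))) .nil))) (.nd (nat_lit 6) 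
(.lf (nat_lit 120886) (.g (nat_lit 825) (.e (nat_lit 6931) (nat_lit 373) (.e (nat_lit 57377) (nat_lit 3) (.e (nat_lit 98372) (nat_lit 29) .nil))) .nil)) 
(.lf (nat_lit 120950) (.g (nat_lit 3154) (.e (nat_lit 6940) (nat_lit 375) (.e (nat_lit 163947) (nat_lit 20) (.e (nat_lit 491540) (nat_lit 3) (.e (nat_lit 98373) (nat_lit 29) (.e (nat_lit 450587) (nat_lit 10) (.e (nat_lit 573475) (nat_lit 12) (.e (nat_lit 57345) (nat_lit 0) .nil))))))) (.g (nat_lit 7) .nil .nil)))))) (.nd (nat_lit 4) (.nd (nat_lit 5) (.nd (nat_lit 6) 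
(.lf (nat_lit 120846) (.g (nat_lit 1319) (.e (nat_lit 6930) (nat_lit 373) (.e (nat_lit 57372) (nat_lit 2) (.e (nat_lit 90176) (nat_lit 15) (.e (nat_lit 188450) (nat_lit 23) .nil)))) .nil)) 
(.lf (nat_lit 120910) (.g (nat_lit 1832) (.e (nat_lit 7936) (nat_lit 373) (.e (nat_lit 57372) (nat_lit 2) (.e (nat_lit 90176) (nat_lit 15) (.e (nat_lit 188450) (nat_lit 23) (.e (nat_lit 204852) (nat_lit 26) .nil))))) .nil))) (.nd (nat_lit 6) 
(.lf (nat_lit 120878) (.g (nat_lit 3850) (.e (nat_lit 6931) (nat_lit 373) (.e (nat_lit 57375) (nat_lit 2) (.e (nat_lit 90176) (nat_lit 15) (.e (nat_lit 188450) (nat_lit 23) (.e (nat_lit 204852) (nat_lit 26) (.e (nat_lit 336240) (nat_lit 15) (.e (nat_lit 2431) (nat_lit 157) .nil))))))) (.g (nat_lit 7) .nil .nil))) 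
(.lf (nat_lit 120942) (.g (nat_lit 3661) (.e (nat_lit 6938) (nat_lit 375) (.e (nat_lit 163946) (nat_lit 20) (.e (nat_lit 491569) (nat_lit 13) (.e (nat_lit 393301) (nat_lit 27) (.e (nat_lit 491558) (nat_lit 10) (.e (nat_lit 344096) (nat_lit 18) .nil)))))) (.g (nat_lit 0) .nil .nil))))) (.nd (nat_lit 5) (.nd (nat_lit 6) 
(.lf (nat_lit 120862) (.g (nat_lit 596) (.e (nat_lit 6930) (nat_lit 373) (.e (nat_lit 57448) (nat_lit 19) (.e (nat_lit 393301) (nat_lit 27) .nil))) .nil)) 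
(.lf (nat_lit 120926) (.g (nat_lit 1619) (.e (nat_lit 7936) (nat_lit 373) (.e (nat_lit 57379) (nat_lit 3) (.e (nat_lit 98372) (nat_lit 29) (.e (nat_lit 450579) (nat_lit 5) (.e (nat_lit 532530) (nat_lit 9) .nil))))) .nil))) (.nd (nat_lit 6) 
(.lf (nat_lit 120894) (.g (nat_lit 3104) (.e (nat_lit 6932) (nat_lit 373) (.e (nat_lit 57371) (nat_lit 2) (.e (nat_lit 90176) (nat_lit 15) (.e (nat_lit 188450) (nat_lit 23) (.e (nat_lit 204852) (nat_lit 26) (.e (nat_lit 336258) (nat_lit 15) (.e (nat_lit 2418) (nat_lit 157) .nil))))))) (.g (nat_lit 5) .nil .nil))) 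
(.lf (nat_lit 120958) (.g (nat_lit 2517) (.e (nat_lit 6942) (nat_lit 375) (.e (nat_lit 163908) (nat_lit 12) (.e (nat_lit 426412) (nat_lit 15) (.e (nat_lit 1856) (nat_lit 124) (.e (nat_lit 557100) (nat_lit 13) (.e (nat_lit 172113) (nat_lit 10) (.e (nat_lit 434245) (nat_lit 28) (.e (nat_lit 573474) (nat_lit 12) (.e (nat_lit 57344) (nat_lit 0) .nil))))))))) (.g (nat_lit 4) .nil .nil))))))))) 
(.nd (nat_lit 1) (.nd (nat_lit 2) (.nd (nat_lit 3) (.nd (nat_lit 4) (.nd (nat_lit 5) 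
(.nd (nat_lit 6) 
(.lf (nat_lit 120833) (.g (nat_lit 5598) (.e (nat_lit 6927) (nat_lit 372) (.e (nat_lit 8305) (nat_lit 58) (.e (nat_lit 286761) (nat_lit 13) (.e (nat_lit 393301) (nat_lit 27) (.e (nat_lit 491558) (nat_lit 10) (.e (nat_lit 344088) (nat_lit 18) .nil)))))) (.g (nat_lit 0) .nil .nil))) 
(.lf (nat_lit 120897) (.g (nat_lit 3821) (.e (nat_lit 6932) (nat_lit 373) (.e (nat_lit 57373) (nat_lit 2) (.e (nat_lit 90170) (nat_lit 13) (.e (nat_lit 172106) (nat_lit 10) (.e (nat_lit 434231) (nat_lit 23) (.e (nat_lit 532529) (nat_lit 9) (.e (nat_lit 336257) (nat_lit 15) (.e (nat_lit 2430) (nat_lit 157) .nil)))))))) (.g (nat_lit 5) .nil .nil)))) (.nd (nat_lit 6) 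
(.lf (nat_lit 120865) (.g (nat_lit 3738) (.e (nat_lit 6931) (nat_lit 373) (.e (nat_lit 57372) (nat_lit 2) (.e (nat_lit 90176) (nat_lit 15) (.e (nat_lit 188450) (nat_lit 23) (.e (nat_lit 204852) (nat_lit 26) (.e (nat_lit 336240) (nat_lit 15) (.e (nat_lit 2431) (nat_lit 157) .nil))))))) (.g (nat_lit 7) .nil .nil))) 
(.lf (nat_lit 120929) (.g (nat_lit 913) (.e (nat_lit 6938) (nat_lit 375) (.e (nat_lit 163902) (nat_lit 12) (.e (nat_lit 426446) (nat_lit 20) .nil))) .nil)))) (.nd (nat_lit 5) (.nd (nat_lit 6) 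
(.lf (nat_lit 120849) (.g (nat_lit 3539) (.e (nat_lit 6930) (nat_lit 373) (.e (nat_lit 57372) (nat_lit 2) (.e (nat_lit 90176) (nat_lit 15) (.e (nat_lit 188450) (nat_lit 23) (.e (nat_lit 204852) (nat_lit 26) (.e (nat_lit 336257) (nat_lit 15) (.e (nat_lit 2411) (nat_lit 157) .nil))))))) (.g (nat_lit 7) .nil .nil))) 
(.lf (nat_lit 120913) (.g (nat_lit 1007) (.e (nat_lit 7936) (nat_lit 373) (.e (nat_lit 57372) (nat_lit 2) (.e (nat_lit 90185) (nat_lit 17) .nil))) .nil))) (.nd (nat_lit 6) 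
(.lf (nat_lit 120881) (.g (nat_lit 3496) (.e (nat_lit 6931) (nat_lit 373) (.e (nat_lit 57375) (nat_lit 2) (.e (nat_lit 90176) (nat_lit 15) (.e (nat_lit 188450) (nat_lit 23) (.e (nat_lit 204852) (nat_lit 26) (.e (nat_lit 336257) (nat_lit 15) (.e (nat_lit 2425) (nat_lit 157) .nil))))))) (.g (nat_lit 7) .nil .nil))) 
(.lf (nat_lit 120945) (.g (nat_lit 1822) (.e (nat_lit 6940) (nat_lit 375) (.e (nat_lit 163902) (nat_lit 12) (.e (nat_lit 426448) (nat_lit 20) (.e (nat_lit 114710) (nat_lit 21) .nil)))) .nil))))) (.nd (nat_lit 4) (.nd (nat_lit 5) (.nd (nat_lit 6) 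
(.lf (nat_lit 120841) (.g (nat_lit 728) (.e (nat_lit 6930) (nat_lit 373) (.e (nat_lit 57372) (nat_lit 2) (.e (nat_lit 90176) (nat_lit 15) .nil))) .nil)) 
(.lf (nat_lit 120905) (.g (nat_lit 2430) (.e (nat_lit 6932) (nat_lit 373) (.e (nat_lit 57378) (nat_lit 3) (.e (nat_lit 98372) (nat_lit 29) (.e (nat_lit 450579) (nat_lit 5) (.e (nat_lit 532534) (nat_lit 9) .nil))))) .nil))) (.nd (nat_lit 6) 
(.lf (nat_lit 120873) (.g (nat_lit 3787) (.e (nat_lit 6931) (nat_lit 373) (.e (nat_lit 57374) (nat_lit 2) (.e (nat_lit 90170) (nat_lit 13) (.e (nat_lit 172106) (nat_lit 10) (.e (nat_lit 434231) (nat_lit 23) (.e (nat_lit 532529) (nat_lit 9) (.e (nat_lit 336257) (nat_lit 15) (.e (nat_lit 2423) (nat_lit 157) .nil)))))))) (.g (nat_lit 5) .nil .nil))) 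
(.lf (nat_lit 120937) (.g (nat_lit 1802) (.e (nat_lit 6938) (nat_lit 375) (.e (nat_lit 163902) (nat_lit 12) (.e (nat_lit 426448) (nat_lit 20) (.e (nat_lit 114712) (nat_lit 21) .nil)))) .nil)))) (.nd (nat_lit 5) (.nd (nat_lit 6) 
(.lf (nat_lit 120857) (.g (nat_lit 1865) (.e (nat_lit 6930) (nat_lit 373) (.e (nat_lit 57375) (nat_lit 2) (.e (nat_lit 90176) (nat_lit 15) (.e (nat_lit 188450) (nat_lit 23) (.e (nat_lit 204821) (nat_lit 17) .nil))))) .nil)) 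
(.lf (nat_lit 120921) (.g (nat_lit 1104) (.e (nat_lit 7936) (nat_lit 373) (.e (nat_lit 57378) (nat_lit 3) (.e (nat_lit 98372) (nat_lit 29) (.e (nat_lit 450579) (nat_lit 5) .nil)))) .nil))) (.nd (nat_lit 6) 
(.lf (nat_lit 120889) (.g (nat_lit 2138) (.e (nat_lit 6932) (nat_lit 373) (.e (nat_lit 57371) (nat_lit 2) (.e (nat_lit 90176) (nat_lit 15) (.e (nat_lit 188450) (nat_lit 23) (.e (nat_lit 204852) (nat_lit 26) (.e (nat_lit 336257) (nat_lit 15) (.e (nat_lit 2418) (nat_lit 157) .nil))))))) (.g (nat_lit 4) .nil .nil))) 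
(.lf (nat_lit 120953) (.g (nat_lit 4178) (.e (nat_lit 6940) (nat_lit 375) (.e (nat_lit 163947) (nat_lit 20) (.e (nat_lit 491568) (nat_lit 13) (.e (nat_lit 393301) (nat_lit 27) (.e (nat_lit 491560) (nat_lit 10) (.e (nat_lit 344096) (nat_lit 18) .nil)))))) (.g (nat_lit 6) .nil .nil))))))) (.nd (nat_lit 3) (.nd (nat_lit 4) (.nd (nat_lit 5) (.nd (nat_lit 6) 
(.lf (nat_lit 120837) (.g (nat_lit 2078) (.e (nat_lit 6930) (nat_lit 373) (.e (nat_lit 57371) (nat_lit 2) (.e (nat_lit 90176) (nat_lit 15) (.e (nat_lit 188450) (nat_lit 23) (.e (nat_lit 204852) (nat_lit 26) (.e (nat_lit 336257) (nat_lit 15) (.e (nat_lit 2397) (nat_lit 157) .nil))))))) (.g (nat_lit 4) .nil .nil))) 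
(.lf (nat_lit 120901) (.g (nat_lit 1583) (.e (nat_lit 6932) (nat_lit 373) (.e (nat_lit 57377) (nat_lit 3) (.e (nat_lit 98372) (nat_lit 29) (.e (nat_lit 450579) (nat_lit 5) .nil)))) .nil))) (.nd (nat_lit 6) 
(.lf (nat_lit 120869) (.g (nat_lit 3267) (.e (nat_lit 6931) (nat_lit 373) (.e (nat_lit 57372) (nat_lit 2) (.e (nat_lit 90176) (nat_lit 15) (.e (nat_lit 188450) (nat_lit 23) (.e (nat_lit 204880) (nat_lit 32) (.e (nat_lit 385043) (nat_lit 21) .nil)))))) (.g (nat_lit 0) .nil .nil))) 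
(.lf (nat_lit 120933) (.g (nat_lit 2897) (.e (nat_lit 6938) (nat_lit 375) (.e (nat_lit 163902) (nat_lit 12) (.e (nat_lit 426448) (nat_lit 20) (.e (nat_lit 114710) (nat_lit 21) (.e (nat_lit 57855) (nat_lit 253) .nil))))) .nil)))) (.nd (nat_lit 5) (.nd (nat_lit 6) 
(.lf (nat_lit 120853) (.g (nat_lit 1153) (.e (nat_lit 6930) (nat_lit 373) (.e (nat_lit 57375) (nat_lit 2) (.e (nat_lit 90176) (nat_lit 15) (.e (nat_lit 188439) (nat_lit 20) .nil)))) .nil)) 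
(.lf (nat_lit 120917) (.g (nat_lit 1832) (.e (nat_lit 7936) (nat_lit 373) (.e (nat_lit 57375) (nat_lit 2) (.e (nat_lit 90176) (nat_lit 15) (.e (nat_lit 188450) (nat_lit 23) (.e (nat_lit 204852) (nat_lit 26) .nil))))) .nil))) (.nd (nat_lit 6) 
(.lf (nat_lit 120885) (.g (nat_lit 682) (.e (nat_lit 6931) (nat_lit 373) (.e (nat_lit 57375) (nat_lit 2) (.e (nat_lit 90185) (nat_lit 17) .nil))) .nil)) 
(.lf (nat_lit 120949) (.g (nat_lit 3297) (.e (nat_lit 6940) (nat_lit 375) (.e (nat_lit 163946) (nat_lit 20) (.e (nat_lit 491540) (nat_lit 3) (.e (nat_lit 98373) (nat_lit 29) (.e (nat_lit 450587) (nat_lit 10) (.e (nat_lit 573475) (nat_lit 12) (.e (nat_lit 57345) (nat_lit 0) .nil))))))) (.g (nat_lit 7) .nil .nil)))))) (.nd (nat_lit 4) (.nd (nat_lit 5) (.nd (nat_lit 6) 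
(.lf (nat_lit 120845) (.g (nat_lit 2020) (.e (nat_lit 6930) (nat_lit 373) (.e (nat_lit 57372) (nat_lit 2) (.e (nat_lit 90176) (nat_lit 15) (.e (nat_lit 188447) (nat_lit 22) (.e (nat_lit 196661) (nat_lit 12) .nil))))) .nil)) 
(.lf (nat_lit 120909) (.g (nat_lit 1428) (.e (nat_lit 7936) (nat_lit 373) (.e (nat_lit 57371) (nat_lit 2) (.e (nat_lit 90185) (nat_lit 17) (.e (nat_lit 237605) (nat_lit 9) .nil)))) .nil))) (.nd (nat_lit 6) 
(.lf (nat_lit 120877) (.g (nat_lit 1875) (.e (nat_lit 6931) (nat_lit 373) (.e (nat_lit 57375) (nat_lit 2) (.e (nat_lit 90176) (nat_lit 15) (.e (nat_lit 188450) (nat_lit 23) (.e (nat_lit 204852) (nat_lit 26) .nil))))) .nil)) 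
(.lf (nat_lit 120941) (.g (nat_lit 2075) (.e (nat_lit 6938) (nat_lit 375) (.e (nat_lit 163903) (nat_lit 12) (.e (nat_lit 426448) (nat_lit 20) (.e (nat_lit 114711) (nat_lit 21) .nil)))) .nil)))) (.nd (nat_lit 5) (.nd (nat_lit 6) 
(.lf (nat_lit 120861) (.g (nat_lit 2833) (.e (nat_lit 6930) (nat_lit 373) (.e (nat_lit 57379) (nat_lit 3) (.e (nat_lit 98372) (nat_lit 29) (.e (nat_lit 450579) (nat_lit 5) (.e (nat_lit 532534) (nat_lit 9) (.e (nat_lit 336257) (nat_lit 15) (.e (nat_lit 2400) (nat_lit 157) .nil))))))) (.g (nat_lit 5) .nil .nil))) 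
(.lf (nat_lit 120925) (.g (nat_lit 866) (.e (nat_lit 7936) (nat_lit 373) (.e (nat_lit 57379) (nat_lit 3) (.e (nat_lit 98372) (nat_lit 29) (.e (nat_lit 450579) (nat_lit 5) .nil)))) .nil))) (.nd (nat_lit 6) 
(.lf (nat_lit 120893) (.g (nat_lit 3164) (.e (nat_lit 6932) (nat_lit 373) (.e (nat_lit 57371) (nat_lit 2) (.e (nat_lit 90176) (nat_lit 15) (.e (nat_lit 188450) (nat_lit 23) (.e (nat_lit 204852) (nat_lit 26) (.e (nat_lit 336258) (nat_lit 15) (.e (nat_lit 2417) (nat_lit 157) .nil))))))) (.g (nat_lit 5) .nil .nil))) 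
(.lf (nat_lit 120957) (.g (nat_lit 2416) (.e (nat_lit 6942) (nat_lit 375) (.e (nat_lit 163908) (nat_lit 12) (.e (nat_lit 426412) (nat_lit 15) (.e (nat_lit 1856) (nat_lit 124) (.e (nat_lit 557100) (nat_lit 13) .nil))))) .nil))))))) (.nd (nat_lit 2) (.nd (nat_lit 3) (.nd (nat_lit 4) (.nd (nat_lit 5) (.nd (nat_lit 6) 
(.lf (nat_lit 120835) (.g (nat_lit 1310) (.e (nat_lit 6930) (nat_lit 373) (.e (nat_lit 57371) (nat_lit 2) (.e (nat_lit 90176) (nat_lit 15) (.e (nat_lit 188439) (nat_lit 20) .nil)))) .nil)) 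
(.lf (nat_lit 120899) (.g (nat_lit 933) (.e (nat_lit 6932) (nat_lit 373) (.e (nat_lit 57373) (nat_lit 2) (.e (nat_lit 90176) (nat_lit 15) .nil))) .nil))) (.nd (nat_lit 6) 
(.lf (nat_lit 120867) (.g (nat_lit 3378) (.e (nat_lit 6931) (nat_lit 373) (.e (nat_lit 57372) (nat_lit 2) (.e (nat_lit 90176) (nat_lit 15) (.e (nat_lit 188450) (nat_lit 23) (.e (nat_lit 204852) (nat_lit 26) (.e (nat_lit 336257) (nat_lit 15) (.e (nat_lit 2424) (nat_lit 157) .nil))))))) (.g (nat_lit 7) .nil .nil))) 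
(.lf (nat_lit 120931) (.g (nat_lit 2613) (.e (nat_lit 6938) (nat_lit 375) (.e (nat_lit 163902) (nat_lit 12) (.e (nat_lit 426448) (nat_lit 20) (.e (nat_lit 114710) (nat_lit 21) (.e (nat_lit 57844) (nat_lit 252) .nil))))) .nil)))) (.nd (nat_lit 5) (.nd (nat_lit 6) 
(.lf (nat_lit 120851) (.g (nat_lit 3083) (.e (nat_lit 6930) (nat_lit 373) (.e (nat_lit 57372) (nat_lit 2) (.e (nat_lit 90176) (nat_lit 15) (.e (nat_lit 188450) (nat_lit 23) (.e (nat_lit 204885) (nat_lit 33) (.e (nat_lit 401461) (nat_lit 15) (.e (nat_lit 982) (nat_lit 81) .nil))))))) (.g (nat_lit 6) .nil .nil))) 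
(.lf (nat_lit 120915) (.g (nat_lit 1770) (.e (nat_lit 7936) (nat_lit 373) (.e (nat_lit 57373) (nat_lit 2) (.e (nat_lit 90185) (nat_lit 17) (.e (nat_lit 237605) (nat_lit 9) (.e (nat_lit 426131) (nat_lit 3) .nil))))) .nil))) (.nd (nat_lit 6) 
(.lf (nat_lit 120883) (.g (nat_lit 3301) (.e (nat_lit 6931) (nat_lit 373) (.e (nat_lit 57375) (nat_lit 2) (.e (nat_lit 90176) (nat_lit 15) (.e (nat_lit 188450) (nat_lit 23) (.e (nat_lit 204880) (nat_lit 32) (.e (nat_lit 385043) (nat_lit 21) .nil)))))) (.g (nat_lit 0) .nil .nil))) 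
(.lf (nat_lit 120947) (.g (nat_lit 3094) (.e (nat_lit 6940) (nat_lit 375) (.e (nat_lit 163908) (nat_lit 12) (.e (nat_lit 426412) (nat_lit 15) (.e (nat_lit 1856) (nat_lit 124) (.e (nat_lit 557100) (nat_lit 13) (.e (nat_lit 172113) (nat_lit 10) (.e (nat_lit 434248) (nat_lit 28) (.e (nat_lit 573475) (nat_lit 12) (.e (nat_lit 57345) (nat_lit 0) .nil))))))))) (.g (nat_lit 5) .nil .nil)))))) 
(.nd (nat_lit 4) (.nd (nat_lit 5) (.nd (nat_lit 6) 
(.lf (nat_lit 120843) (.g (nat_lit 1534) (.e (nat_lit 6930) (nat_lit 373) (.e (nat_lit 57372) (nat_lit 2) (.e (nat_lit 90176) (nat_lit 15) (.e (nat_lit 188439) (nat_lit 20) (.e (nat_lit 3270) (nat_lit 199) .nil))))) .nil)) 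
(.lf (nat_lit 120907) (.g (nat_lit 2846) (.e (nat_lit 6932) (nat_lit 373) (.e (nat_lit 57378) (nat_lit 3) (.e (nat_lit 98372) (nat_lit 29) (.e (nat_lit 450579) (nat_lit 5) (.e (nat_lit 532566) (nat_lit 15) (.e (nat_lit 385043) (nat_lit 21) .nil)))))) (.g (nat_lit 5) .nil .nil)))) (.nd (nat_lit 6) 
(.lf (nat_lit 120875) (.g (nat_lit 3774) (.e (nat_lit 6931) (nat_lit 373) (.e (nat_lit 57374) (nat_lit 2) (.e (nat_lit 90170) (nat_lit 13) (.e (nat_lit 172106) (nat_lit 10) (.e (nat_lit 434231) (nat_lit 23) (.e (nat_lit 532529) (nat_lit 9) (.e (nat_lit 336257) (nat_lit 15) (.e (nat_lit 2425) (nat_lit 157) .nil)))))))) (.g (nat_lit 5) .nil .nil))) 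
(.lf (nat_lit 120939) (.g (nat_lit 2101) (.e (nat_lit 6938) (nat_lit 375) (.e (nat_lit 163903) (nat_lit 12) (.e (nat_lit 426448) (nat_lit 20) (.e (nat_lit 114710) (nat_lit 21) .nil)))) .nil)))) (.nd (nat_lit 5) (.nd (nat_lit 6) 
(.lf (nat_lit 120859) (.g (nat_lit 1020) (.e (nat_lit 6930) (nat_lit 373) (.e (nat_lit 57375) (nat_lit 2) (.e (nat_lit 90178) (nat_lit 15) (.e (nat_lit 188441) (nat_lit 20) .nil)))) .nil)) 
(.lf (nat_lit 120923) (.g (nat_lit 2155) (.e (nat_lit 7936) (nat_lit 373) (.e (nat_lit 57378) (nat_lit 3) (.e (nat_lit 98372) (nat_lit 29) (.e (nat_lit 450579) (nat_lit 5) (.e (nat_lit 532534) (nat_lit 9) .nil))))) .nil))) (.nd (nat_lit 6) 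
(.lf (nat_lit 120891) (.g (nat_lit 2382) (.e (nat_lit 6932) (nat_lit 373) (.e (nat_lit 57371) (nat_lit 2) (.e (nat_lit 90176) (nat_lit 15) (.e (nat_lit 188450) (nat_lit 23) (.e (nat_lit 204852) (nat_lit 26) (.e (nat_lit 336257) (nat_lit 15) (.e (nat_lit 2424) (nat_lit 157) .nil))))))) (.g (nat_lit 4) .nil .nil))) 
(.lf (nat_lit 120955) (.g (nat_lit 3490) (.e (nat_lit 6940) (nat_lit 375) (.e (nat_lit 163947) (nat_lit 20) (.e (nat_lit 491569) (nat_lit 13) (.e (nat_lit 393301) (nat_lit 27) (.e (nat_lit 491558) (nat_lit 10) (.e (nat_lit 344096) (nat_lit 18) .nil)))))) (.g (nat_lit 6) .nil .nil))))))) (.nd (nat_lit 3) (.nd (nat_lit 4) (.nd (nat_lit 5) (.nd (nat_lit 6) 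
(.lf (nat_lit 120839) (.g (nat_lit 2131) (.e (nat_lit 6930) (nat_lit 373) (.e (nat_lit 57371) (nat_lit 2) (.e (nat_lit 90176) (nat_lit 15) (.e (nat_lit 188450) (nat_lit 23) (.e (nat_lit 204852) (nat_lit 26) (.e (nat_lit 336257) (nat_lit 15) (.e (nat_lit 2403) (nat_lit 157) .nil))))))) (.g (nat_lit 4) .nil .nil))) 
(.lf (nat_lit 120903) (.g (nat_lit 2413) (.e (nat_lit 6932) (nat_lit 373) (.e (nat_lit 57378) (nat_lit 3) (.e (nat_lit 98372) (nat_lit 29) (.e (nat_lit 450579) (nat_lit 5) (.e (nat_lit 532530) (nat_lit 9) .nil))))) .nil))) (.nd (nat_lit 6) 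
(.lf (nat_lit 120871) (.g (nat_lit 2423) (.e (nat_lit 6931) (nat_lit 373) (.e (nat_lit 57373) (nat_lit 2) (.e (nat_lit 90170) (nat_lit 13) (.e (nat_lit 172106) (nat_lit 10) (.e (nat_lit 434231) (nat_lit 23) (.e (nat_lit 532529) (nat_lit 9) (.e (nat_lit 336257) (nat_lit 15) (.e (nat_lit 2416) (nat_lit 157) .nil)))))))) (.g (nat_lit 4) .nil .nil))) 
(.lf (nat_lit 120935) (.g (nat_lit 1796) (.e (nat_lit 6938) (nat_lit 375) (.e (nat_lit 163902) (nat_lit 12) (.e (nat_lit 426448) (nat_lit 20) (.e (nat_lit 114711) (nat_lit 21) .nil)))) .nil)))) (.nd (nat_lit 5) (.nd (nat_lit 6) 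
(.lf (nat_lit 120855) (.g (nat_lit 1911) (.e (nat_lit 6930) (nat_lit 373) (.e (nat_lit 57375) (nat_lit 2) (.e (nat_lit 90176) (nat_lit 15) (.e (nat_lit 188447) (nat_lit 22) (.e (nat_lit 196661) (nat_lit 12) .nil))))) .nil)) 
(.lf (nat_lit 120919) (.g (nat_lit 2131) (.e (nat_lit 7936) (nat_lit 373) (.e (nat_lit 57375) (nat_lit 2) (.e (nat_lit 90176) (nat_lit 15) (.e (nat_lit 188450) (nat_lit 23) (.e (nat_lit 204881) (nat_lit 32) .nil))))) .nil))) (.nd (nat_lit 6) 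
(.lf (nat_lit 120887) (.g (nat_lit 829) (.e (nat_lit 6931) (nat_lit 373) (.e (nat_lit 57378) (nat_lit 3) (.e (nat_lit 98372) (nat_lit 29) .nil))) .nil)) 
(.lf (nat_lit 120951) (.g (nat_lit 1543) (.e (nat_lit 6940) (nat_lit 375) (.e (nat_lit 163947) (nat_lit 20) (.e (nat_lit 491560) (nat_lit 10) (.e (nat_lit 344177) (nat_lit 43) .nil)))) .nil))))) (.nd (nat_lit 4) (.nd (nat_lit 5) (.nd (nat_lit 6) 
(.lf (nat_lit 120847) (.g (nat_lit 2198) (.e (nat_lit 6930) (nat_lit 373) (.e (nat_lit 57372) (nat_lit 2) (.e (nat_lit 90176) (nat_lit 15) (.e (nat_lit 188450) (nat_lit 23) (.e (nat_lit 204817) (nat_lit 17) .nil))))) .nil)) 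
(.lf (nat_lit 120911) (.g (nat_lit 1942) (.e (nat_lit 7936) (nat_lit 373) (.e (nat_lit 57372) (nat_lit 2) (.e (nat_lit 90176) (nat_lit 15) (.e (nat_lit 188450) (nat_lit 23) (.e (nat_lit 204880) (nat_lit 32) .nil))))) .nil))) (.nd (nat_lit 6) 
(.lf (nat_lit 120879) (.g (nat_lit 3478) (.e (nat_lit 6931) (nat_lit 373) (.e (nat_lit 57375) (nat_lit 2) (.e (nat_lit 90176) (nat_lit 15) (.e (nat_lit 188450) (nat_lit 23) (.e (nat_lit 204852) (nat_lit 26) (.e (nat_lit 336257) (nat_lit 15) (.e (nat_lit 2423) (nat_lit 157) .nil))))))) (.g (nat_lit 7) .nil .nil))) 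
(.lf (nat_lit 120943) (.g (nat_lit 3735) (.e (nat_lit 6940) (nat_lit 375) (.e (nat_lit 163896) (nat_lit 10) (.e (nat_lit 409640) (nat_lit 17) (.e (nat_lit 294925) (nat_lit 1) (.e (nat_lit 57681) (nat_lit 155) (.e (nat_lit 122919) (nat_lit 15) (.e (nat_lit 360451) (nat_lit 0) .nil))))))) (.g (nat_lit 7) .nil .nil))))) (.nd (nat_lit 5) (.nd (nat_lit 6) 
(.lf (nat_lit 120863) (.g (nat_lit 2945) (.e (nat_lit 6931) (nat_lit 373) (.e (nat_lit 57371) (nat_lit 2) (.e (nat_lit 90176) (nat_lit 15) (.e (nat_lit 188450) (nat_lit 23) (.e (nat_lit 204852) (nat_lit 26) (.e (nat_lit 336240) (nat_lit 15) (.e (nat_lit 2431) (nat_lit 157) .nil))))))) (.g (nat_lit 5) .nil .nil))) 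
(.lf (nat_lit 120927) (.g (nat_lit 1729) (.e (nat_lit 7936) (nat_lit 373) (.e (nat_lit 57379) (nat_lit 3) (.e (nat_lit 98372) (nat_lit 29) (.e (nat_lit 450579) (nat_lit 5) (.e (nat_lit 532564) (nat_lit 15) .nil))))) .nil))) (.nd (nat_lit 6) 
(.lf (nat_lit 120895) (.g (nat_lit 2277) (.e (nat_lit 6932) (nat_lit 373) (.e (nat_lit 57371) (nat_lit 2) (.e (nat_lit 90176) (nat_lit 15) (.e (nat_lit 188450) (nat_lit 23) (.e (nat_lit 204881) (nat_lit 32) .nil))))) .nil)) 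
(.lf (nat_lit 120959) (.g (nat_lit 2619) (.e (nat_lit 6942) (nat_lit 375) (.e (nat_lit 163908) (nat_lit 12) (.e (nat_lit 426412) (nat_lit 15) (.e (nat_lit 1856) (nat_lit 124) (.e (nat_lit 557100) (nat_lit 13) (.e (nat_lit 172113) (nat_lit 10) (.e (nat_lit 434245) (nat_lit 28) (.e (nat_lit 573474) (nat_lit 12) (.e (nat_lit 57345) (nat_lit 0) .nil))))))))) (.g (nat_lit 4) .nil .nil))))))))))

noncomputable def tv1609 : DT := (.nd (nat_lit 0) (.nd (nat_lit 1) (.nd (nat_lit 2) (.nd (nat_lit 3) (.nd (nat_lit 4) (.nd (nat_lit 5) (.nd (nat_lit 6) 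
(.lf (nat_lit 120960) (.g (nat_lit 3558) (.e (nat_lit 6942) (nat_lit 375) (.e (nat_lit 163908) (nat_lit 12) (.e (nat_lit 426412) (nat_lit 15) (.e (nat_lit 1856) (nat_lit 124) (.e (nat_lit 557100) (nat_lit 13) (.e (nat_lit 172113) (nat_lit 10) (.e (nat_lit 434248) (nat_lit 28) (.e (nat_lit 573473) (nat_lit 12) (.e (nat_lit 57348) (nat_lit 0) .nil))))))))) (.g (nat_lit 6) .nil .nil))) 
(.lf (nat_lit 121024) (.g (nat_lit 392) (.e (nat_lit 6952) (nat_lit 377) (.e (nat_lit 1360) (nat_lit 102) (.e (nat_lit 286761) (nat_lit 13) .nil))) .nil))) (.nd (nat_lit 6) 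
(.lf (nat_lit 120992) (.g (nat_lit 1466) (.e (nat_lit 6950) (nat_lit 377) (.e (nat_lit 1360) (nat_lit 102) (.e (nat_lit 286754) (nat_lit 10) (.e (nat_lit 344177) (nat_lit 43) (.e (nat_lit 770058) (nat_lit 5) .nil))))) .nil)) 
(.lf (nat_lit 121056) (.g (nat_lit 487) (.e (nat_lit 6953) (nat_lit 377) (.e (nat_lit 1360) (nat_lit 102) (.e (nat_lit 286754) (nat_lit 10) .nil))) .nil)))) (.nd (nat_lit 5) (.nd (nat_lit 6) 
(.lf (nat_lit 120976) (.g (nat_lit 425) (.e (nat_lit 6950) (nat_lit 377) (.e (nat_lit 1360) (nat_lit 102) (.e (nat_lit 286753) (nat_lit 10) .nil))) .nil)) 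
(.lf (nat_lit 121040) (.g (nat_lit 961) (.e (nat_lit 6952) (nat_lit 377) (.e (nat_lit 1367) (nat_lit 103) (.e (nat_lit 294958) (nat_lit 13) (.e (nat_lit 393242) (nat_lit 17) (.e (nat_lit 7936) (nat_lit 406) .nil))))) .nil))) (.nd (nat_lit 6) 
(.lf (nat_lit 121008) (.g (nat_lit 2171) (.e (nat_lit 6952) (nat_lit 377) (.e (nat_lit 1360) (nat_lit 102) (.e (nat_lit 286748) (nat_lit 9) (.e (nat_lit 336389) (nat_lit 27) (.e (nat_lit 426012) (nat_lit 0) .nil))))) .nil)) 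
(.lf (nat_lit 121072) (.g (nat_lit 1546) (.e (nat_lit 6953) (nat_lit 377) (.e (nat_lit 1367) (nat_lit 103) (.e (nat_lit 294938) (nat_lit 9) (.e (nat_lit 336421) (nat_lit 28) (.e (nat_lit 434179) (nat_lit 0) (.e (nat_lit 1515) (nat_lit 108) (.e (nat_lit 336241) (nat_lit 15) .nil))))))) (.g (nat_lit 7) .nil .nil)))))) (.nd (nat_lit 4) (.nd (nat_lit 5) (.nd (nat_lit 6) 
(.lf (nat_lit 120968) (.g (nat_lit 3564) (.e (nat_lit 6943) (nat_lit 375) (.e (nat_lit 163946) (nat_lit 20) (.e (nat_lit 491569) (nat_lit 13) (.e (nat_lit 393301) (nat_lit 27) (.e (nat_lit 491558) (nat_lit 10) (.e (nat_lit 344091) (nat_lit 18) .nil)))))) (.g (nat_lit 6) .nil .nil))) 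
(.lf (nat_lit 121032) (.g (nat_lit 1028) (.e (nat_lit 6952) (nat_lit 377) (.e (nat_lit 1367) (nat_lit 103) (.e (nat_lit 294938) (nat_lit 9) (.e (nat_lit 336421) (nat_lit 28) (.e (nat_lit 442112) (nat_lit 4) .nil))))) .nil))) (.nd (nat_lit 6) 
(.lf (nat_lit 121000) (.g (nat_lit 3548) (.e (nat_lit 6950) (nat_lit 377) (.e (nat_lit 1360) (nat_lit 102) (.e (nat_lit 286761) (nat_lit 13) (.e (nat_lit 393301) (nat_lit 27) (.e (nat_lit 491552) (nat_lit 9) (.e (nat_lit 336248) (nat_lit 15) .nil)))))) (.g (nat_lit 6) .nil .nil))) 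
(.lf (nat_lit 121064) (.g (nat_lit 406) (.e (nat_lit 6953) (nat_lit 377) (.e (nat_lit 1360) (nat_lit 102) (.e (nat_lit 286761) (nat_lit 13) .nil))) .nil)))) (.nd (nat_lit 5) (.nd (nat_lit 6) 
(.lf (nat_lit 120984) (.g (nat_lit 2207) (.e (nat_lit 6950) (nat_lit 377) (.e (nat_lit 1360) (nat_lit 102) (.e (nat_lit 286753) (nat_lit 10) (.e (nat_lit 344177) (nat_lit 43) (.e (nat_lit 770056) (nat_lit 5) (.e (nat_lit 1575) (nat_lit 110) (.e (nat_lit 352257) (nat_lit 0) .nil))))))) (.g (nat_lit 6) .nil .nil))) 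
(.lf (nat_lit 121048) (.g (nat_lit 2051) (.e (nat_lit 6953) (nat_lit 377) (.e (nat_lit 1360) (nat_lit 102) (.e (nat_lit 286753) (nat_lit 10) (.e (nat_lit 344174) (nat_lit 42) (.e (nat_lit 761868) (nat_lit 5) (.e (nat_lit 1574) (nat_lit 110) (.e (nat_lit 352257) (nat_lit 0) .nil))))))) (.g (nat_lit 6) .nil .nil)))) (.nd (nat_lit 6) 
(.lf (nat_lit 121016) (.g (nat_lit 2162) (.e (nat_lit 6952) (nat_lit 377) (.e (nat_lit 1360) (nat_lit 102) (.e (nat_lit 286753) (nat_lit 10) (.e (nat_lit 344177) (nat_lit 43) (.e (nat_lit 770057) (nat_lit 5) (.e (nat_lit 1575) (nat_lit 110) (.e (nat_lit 352257) (nat_lit 0) .nil))))))) (.g (nat_lit 6) .nil .nil))) 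
(.lf (nat_lit 121080) (.g (nat_lit 273) (.e (nat_lit 6953) (nat_lit 377) (.e (nat_lit 1367) (nat_lit 103) (.e (nat_lit 294959) (nat_lit 13) .nil))) .nil)))))) (.nd (nat_lit 3) (.nd (nat_lit 4) (.nd (nat_lit 5) (.nd (nat_lit 6) 
(.lf (nat_lit 120964) (.g (nat_lit 3237) (.e (nat_lit 6942) (nat_lit 375) (.e (nat_lit 163947) (nat_lit 20) (.e (nat_lit 491540) (nat_lit 3) (.e (nat_lit 98373) (nat_lit 29) (.e (nat_lit 450587) (nat_lit 10) (.e (nat_lit 573475) (nat_lit 12) (.e (nat_lit 57345) (nat_lit 0) .nil))))))) (.g (nat_lit 0) .nil .nil))) 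
(.lf (nat_lit 121028) (.g (nat_lit 529) (.e (nat_lit 6952) (nat_lit 377) (.e (nat_lit 1366) (nat_lit 103) (.e (nat_lit 294941) (nat_lit 9) (.e (nat_lit 336421) (nat_lit 28) .nil)))) .nil))) (.nd (nat_lit 6) 
(.lf (nat_lit 120996) (.g (nat_lit 3148) (.e (nat_lit 6950) (nat_lit 377) (.e (nat_lit 1360) (nat_lit 102) (.e (nat_lit 286761) (nat_lit 13) (.e (nat_lit 393234) (nat_lit 17) (.e (nat_lit 7589) (nat_lit 406) (.e (nat_lit 65632) (nat_lit 15) .nil)))))) (.g (nat_lit 6) .nil .nil))) 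
(.lf (nat_lit 121060) (.g (nat_lit 1372) (.e (nat_lit 6953) (nat_lit 377) (.e (nat_lit 1360) (nat_lit 102) (.e (nat_lit 286754) (nat_lit 10) (.e (nat_lit 344174) (nat_lit 42) (.e (nat_lit 761869) (nat_lit 5) .nil))))) .nil)))) (.nd (nat_lit 5) (.nd (nat_lit 6) 
(.lf (nat_lit 120980) (.g (nat_lit 2111) (.e (nat_lit 6950) (nat_lit 377) (.e (nat_lit 1360) (nat_lit 102) (.e (nat_lit 286753) (nat_lit 10) (.e (nat_lit 344174) (nat_lit 42) (.e (nat_lit 761869) (nat_lit 5) (.e (nat_lit 1558) (nat_lit 110) (.e (nat_lit 352257) (nat_lit 0) .nil))))))) (.g (nat_lit 5) .nil .nil))) 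
(.lf (nat_lit 121044) (.g (nat_lit 1084) (.e (nat_lit 6953) (nat_lit 377) (.e (nat_lit 1360) (nat_lit 102) (.e (nat_lit 286753) (nat_lit 10) (.e (nat_lit 344173) (nat_lit 42) .nil)))) .nil))) (.nd (nat_lit 6) 
(.lf (nat_lit 121012) (.g (nat_lit 1145) (.e (nat_lit 6952) (nat_lit 377) (.e (nat_lit 1360) (nat_lit 102) (.e (nat_lit 286753) (nat_lit 10) (.e (nat_lit 344173) (nat_lit 42) .nil)))) .nil)) 
(.lf (nat_lit 121076) (.g (nat_lit 699) (.e (nat_lit 6953) (nat_lit 377) (.e (nat_lit 1367) (nat_lit 103) (.e (nat_lit 294958) (nat_lit 13) (.e (nat_lit 393233) (nat_lit 17) .nil)))) .nil))))) (.nd (nat_lit 4) (.nd (nat_lit 5) (.nd (nat_lit 6) 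
(.lf (nat_lit 120972) (.g (nat_lit 2202) (.e (nat_lit 6947) (nat_lit 377) (.e (nat_lit 1353) (nat_lit 102) (.e (nat_lit 286761) (nat_lit 13) (.e (nat_lit 393234) (nat_lit 17) (.e (nat_lit 7589) (nat_lit 406) .nil))))) .nil)) 
(.lf (nat_lit 121036) (.g (nat_lit 1288) (.e (nat_lit 6952) (nat_lit 377) (.e (nat_lit 1367) (nat_lit 103) (.e (nat_lit 294941) (nat_lit 9) (.e (nat_lit 336421) (nat_lit 28) (.e (nat_lit 434179) (nat_lit 0) .nil))))) .nil))) (.nd (nat_lit 6) 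
(.lf (nat_lit 121004) (.g (nat_lit 1347) (.e (nat_lit 6950) (nat_lit 377) (.e (nat_lit 1367) (nat_lit 103) (.e (nat_lit 294941) (nat_lit 9) (.e (nat_lit 336421) (nat_lit 28) (.e (nat_lit 434178) (nat_lit 0) .nil))))) .nil)) 
(.lf (nat_lit 121068) (.g (nat_lit 3572) (.e (nat_lit 6953) (nat_lit 377) (.e (nat_lit 1360) (nat_lit 102) (.e (nat_lit 286761) (nat_lit 13) (.e (nat_lit 393301) (nat_lit 27) (.e (nat_lit 491552) (nat_lit 9) (.e (nat_lit 336250) (nat_lit 15) .nil)))))) (.g (nat_lit 6) .nil .nil))))) (.nd (nat_lit 5) (.nd (nat_lit 6) 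
(.lf (nat_lit 120988) (.g (nat_lit 1471) (.e (nat_lit 6950) (nat_lit 377) (.e (nat_lit 1360) (nat_lit 102) (.e (nat_lit 286754) (nat_lit 10) (.e (nat_lit 344174) (nat_lit 42) (.e (nat_lit 761867) (nat_lit 5) .nil))))) .nil)) 
(.lf (nat_lit 121052) (.g (nat_lit 2113) (.e (nat_lit 6953) (nat_lit 377) (.e (nat_lit 1360) (nat_lit 102) (.e (nat_lit 286753) (nat_lit 10) (.e (nat_lit 344177) (nat_lit 43) (.e (nat_lit 770056) (nat_lit 5) (.e (nat_lit 1575) (nat_lit 110) (.e (nat_lit 352257) (nat_lit 0) .nil))))))) (.g (nat_lit 6) .nil .nil)))) (.nd (nat_lit 6) 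
(.lf (nat_lit 121020) (.g (nat_lit 1511) (.e (nat_lit 6952) (nat_lit 377) (.e (nat_lit 1360) (nat_lit 102) (.e (nat_lit 286754) (nat_lit 10) (.e (nat_lit 344174) (nat_lit 42) (.e (nat_lit 761868) (nat_lit 5) .nil))))) .nil)) 
(.lf (nat_lit 121084) (.g (nat_lit 831) (.e (nat_lit 6961) (nat_lit 377) (.e (nat_lit 1348) (nat_lit 102) (.e (nat_lit 286735) (nat_lit 3) .nil))) .nil))))))) (.nd (nat_lit 2) (.nd (nat_lit 3) (.nd (nat_lit 4) (.nd (nat_lit 5) (.nd (nat_lit 6) 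
(.lf (nat_lit 120962) (.g (nat_lit 3205) (.e (nat_lit 6942) (nat_lit 375) (.e (nat_lit 163945) (nat_lit 20) (.e (nat_lit 491540) (nat_lit 3) (.e (nat_lit 98373) (nat_lit 29) (.e (nat_lit 450587) (nat_lit 10) (.e (nat_lit 573475) (nat_lit 12) (.e (nat_lit 57345) (nat_lit 0) .nil))))))) (.g (nat_lit 7) .nil .nil))) 
(.lf (nat_lit 121026) (.g (nat_lit 3424) (.e (nat_lit 6952) (nat_lit 377) (.e (nat_lit 1360) (nat_lit 102) (.e (nat_lit 286761) (nat_lit 13) (.e (nat_lit 393234) (nat_lit 17) (.e (nat_lit 7936) (nat_lit 406) .nil))))) .nil))) (.nd (nat_lit 6) 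
(.lf (nat_lit 120994) (.g (nat_lit 454) (.e (nat_lit 6950) (nat_lit 377) (.e (nat_lit 1360) (nat_lit 102) (.e (nat_lit 286761) (nat_lit 13) .nil))) .nil)) 
(.lf (nat_lit 121058) (.g (nat_lit 1423) (.e (nat_lit 6953) (nat_lit 377) (.e (nat_lit 1360) (nat_lit 102) (.e (nat_lit 286754) (nat_lit 10) (.e (nat_lit 344174) (nat_lit 42) (.e (nat_lit 761867) (nat_lit 5) .nil))))) .nil)))) (.nd (nat_lit 5) (.nd (nat_lit 6) 
(.lf (nat_lit 120978) (.g (nat_lit 2199) (.e (nat_lit 6950) (nat_lit 377) (.e (nat_lit 1360) (nat_lit 102) (.e (nat_lit 286753) (nat_lit 10) (.e (nat_lit 344174) (nat_lit 42) (.e (nat_lit 761867) (nat_lit 5) (.e (nat_lit 1574) (nat_lit 110) (.e (nat_lit 352257) (nat_lit 0) .nil))))))) (.g (nat_lit 6) .nil .nil))) 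
(.lf (nat_lit 121042) (.g (nat_lit 1502) (.e (nat_lit 6953) (nat_lit 377) (.e (nat_lit 1360) (nat_lit 102) (.e (nat_lit 286752) (nat_lit 10) (.e (nat_lit 344177) (nat_lit 43) (.e (nat_lit 770056) (nat_lit 5) .nil))))) .nil))) (.nd (nat_lit 6) 
(.lf (nat_lit 121010) (.g (nat_lit 1611) (.e (nat_lit 6952) (nat_lit 377) (.e (nat_lit 1360) (nat_lit 102) (.e (nat_lit 286752) (nat_lit 10) (.e (nat_lit 344177) (nat_lit 43) (.e (nat_lit 770057) (nat_lit 5) .nil))))) .nil)) 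
(.lf (nat_lit 121074) (.g (nat_lit 574) (.e (nat_lit 6953) (nat_lit 377) (.e (nat_lit 1367) (nat_lit 103) (.e (nat_lit 294940) (nat_lit 9) (.e (nat_lit 336421) (nat_lit 28) .nil)))) .nil))))) (.nd (nat_lit 4) (.nd (nat_lit 5) (.nd (nat_lit 6) 
(.lf (nat_lit 120970) (.g (nat_lit 3780) (.e (nat_lit 6943) (nat_lit 375) (.e (nat_lit 163947) (nat_lit 20) (.e (nat_lit 491568) (nat_lit 13) (.e (nat_lit 393301) (nat_lit 27) (.e (nat_lit 491560) (nat_lit 10) (.e (nat_lit 344091) (nat_lit 18) .nil)))))) (.g (nat_lit 6) .nil .nil))) 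
(.lf (nat_lit 121034) (.g (nat_lit 1148) (.e (nat_lit 6952) (nat_lit 377) (.e (nat_lit 1367) (nat_lit 103) (.e (nat_lit 294940) (nat_lit 9) (.e (nat_lit 336438) (nat_lit 31) (.e (nat_lit 466688) (nat_lit 4) .nil))))) .nil))) (.nd (nat_lit 6) 
(.lf (nat_lit 121002) (.g (nat_lit 1091) (.e (nat_lit 6950) (nat_lit 377) (.e (nat_lit 1367) (nat_lit 103) (.e (nat_lit 294938) (nat_lit 9) (.e (nat_lit 336421) (nat_lit 28) (.e (nat_lit 434178) (nat_lit 0) .nil))))) .nil)) 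
(.lf (nat_lit 121066) (.g (nat_lit 3422) (.e (nat_lit 6953) (nat_lit 377) (.e (nat_lit 1360) (nat_lit 102) (.e (nat_lit 286761) (nat_lit 13) (.e (nat_lit 393234) (nat_lit 17) (.e (nat_lit 7936) (nat_lit 406) .nil))))) .nil)))) (.nd (nat_lit 5) (.nd (nat_lit 6) 
(.lf (nat_lit 120986) (.g (nat_lit 1718) (.e (nat_lit 6950) (nat_lit 377) (.e (nat_lit 1360) (nat_lit 102) (.e (nat_lit 286753) (nat_lit 10) (.e (nat_lit 344177) (nat_lit 43) (.e (nat_lit 770058) (nat_lit 5) .nil))))) .nil)) 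
(.lf (nat_lit 121050) (.g (nat_lit 1084) (.e (nat_lit 6953) (nat_lit 377) (.e (nat_lit 1360) (nat_lit 102) (.e (nat_lit 286753) (nat_lit 10) (.e (nat_lit 344176) (nat_lit 43) .nil)))) .nil))) (.nd (nat_lit 6) 
(.lf (nat_lit 121018) (.g (nat_lit 1856) (.e (nat_lit 6952) (nat_lit 377) (.e (nat_lit 1360) (nat_lit 102) (.e (nat_lit 286753) (nat_lit 10) (.e (nat_lit 344177) (nat_lit 43) (.e (nat_lit 770064) (nat_lit 5) .nil))))) .nil)) 
(.lf (nat_lit 121082) (.g (nat_lit 643) (.e (nat_lit 6953) (nat_lit 377) (.e (nat_lit 1367) (nat_lit 103) (.e (nat_lit 294960) (nat_lit 13) (.e (nat_lit 393260) (nat_lit 21) .nil)))) .nil)))))) (.nd (nat_lit 3) (.nd (nat_lit 4) (.nd (nat_lit 5) (.nd (nat_lit 6) 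
(.lf (nat_lit 120966) (.g (nat_lit 2989) (.e (nat_lit 6943) (nat_lit 375) (.e (nat_lit 163945) (nat_lit 20) (.e (nat_lit 491540) (nat_lit 3) (.e (nat_lit 98373) (nat_lit 29) (.e (nat_lit 450587) (nat_lit 10) (.e (nat_lit 573475) (nat_lit 12) (.e (nat_lit 57345) (nat_lit 0) .nil))))))) (.g (nat_lit 6) .nil .nil))) 
(.lf (nat_lit 121030) (.g (nat_lit 1119) (.e (nat_lit 6952) (nat_lit 377) (.e (nat_lit 1367) (nat_lit 103) (.e (nat_lit 294938) (nat_lit 9) (.e (nat_lit 336421) (nat_lit 28) (.e (nat_lit 434178) (nat_lit 0) .nil))))) .nil))) (.nd (nat_lit 6) 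
(.lf (nat_lit 120998) (.g (nat_lit 1731) (.e (nat_lit 6950) (nat_lit 377) (.e (nat_lit 1360) (nat_lit 102) (.e (nat_lit 286761) (nat_lit 13) (.e (nat_lit 393237) (nat_lit 17) .nil)))) .nil)) 
(.lf (nat_lit 121062) (.g (nat_lit 487) (.e (nat_lit 6953) (nat_lit 377) (.e (nat_lit 1360) (nat_lit 102) (.e (nat_lit 286756) (nat_lit 10) .nil))) .nil)))) (.nd (nat_lit 5) (.nd (nat_lit 6) 
(.lf (nat_lit 120982) (.g (nat_lit 1000) (.e (nat_lit 6950) (nat_lit 377) (.e (nat_lit 1360) (nat_lit 102) (.e (nat_lit 286753) (nat_lit 10) (.e (nat_lit 344177) (nat_lit 43) .nil)))) .nil)) 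
(.lf (nat_lit 121046) (.g (nat_lit 2319) (.e (nat_lit 6953) (nat_lit 377) (.e (nat_lit 1360) (nat_lit 102) (.e (nat_lit 286753) (nat_lit 10) (.e (nat_lit 344174) (nat_lit 42) (.e (nat_lit 761866) (nat_lit 5) (.e (nat_lit 1574) (nat_lit 110) (.e (nat_lit 352257) (nat_lit 0) .nil))))))) (.g (nat_lit 6) .nil .nil)))) (.nd (nat_lit 6) 
(.lf (nat_lit 121014) (.g (nat_lit 2387) (.e (nat_lit 6952) (nat_lit 377) (.e (nat_lit 1360) (nat_lit 102) (.e (nat_lit 286753) (nat_lit 10) (.e (nat_lit 344174) (nat_lit 42) (.e (nat_lit 761869) (nat_lit 5) (.e (nat_lit 1574) (nat_lit 110) (.e (nat_lit 352257) (nat_lit 0) .nil))))))) (.g (nat_lit 6) .nil .nil))) 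
(.lf (nat_lit 121078) (.g (nat_lit 1269) (.e (nat_lit 6953) (nat_lit 377) (.e (nat_lit 1367) (nat_lit 103) (.e (nat_lit 294958) (nat_lit 13) (.e (nat_lit 393260) (nat_lit 21) (.e (nat_lit 409623) (nat_lit 10) .nil))))) .nil))))) (.nd (nat_lit 4) (.nd (nat_lit 5) (.nd (nat_lit 6) 
(.lf (nat_lit 120974) (.g (nat_lit 1564) (.e (nat_lit 6950) (nat_lit 377) (.e (nat_lit 1360) (nat_lit 102) (.e (nat_lit 286752) (nat_lit 10) (.e (nat_lit 344177) (nat_lit 43) (.e (nat_lit 770056) (nat_lit 5) .nil))))) .nil)) 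
(.lf (nat_lit 121038) (.g (nat_lit 270) (.e (nat_lit 6952) (nat_lit 377) (.e (nat_lit 1367) (nat_lit 103) (.e (nat_lit 294958) (nat_lit 13) .nil))) .nil))) (.nd (nat_lit 6) 
(.lf (nat_lit 121006) (.g (nat_lit 1461) (.e (nat_lit 6950) (nat_lit 377) (.e (nat_lit 1367) (nat_lit 103) (.e (nat_lit 294958) (nat_lit 13) (.e (nat_lit 393234) (nat_lit 17) (.e (nat_lit 7589) (nat_lit 406) .nil))))) .nil)) 
(.lf (nat_lit 121070) (.g (nat_lit 4764) (.e (nat_lit 6953) (nat_lit 377) (.e (nat_lit 1367) (nat_lit 103) (.e (nat_lit 294931) (nat_lit 3) (.e (nat_lit 98373) (nat_lit 29) (.e (nat_lit 450588) (nat_lit 10) (.e (nat_lit 573451) (nat_lit 9) (.e (nat_lit 11) (nat_lit 0) .nil))))))) (.g (nat_lit 7) .nil .nil))))) (.nd (nat_lit 5) (.nd (nat_lit 6) 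
(.lf (nat_lit 120990) (.g (nat_lit 1420) (.e (nat_lit 6950) (nat_lit 377) (.e (nat_lit 1360) (nat_lit 102) (.e (nat_lit 286754) (nat_lit 10) (.e (nat_lit 344174) (nat_lit 42) (.e (nat_lit 761869) (nat_lit 5) .nil))))) .nil)) 
(.lf (nat_lit 121054) (.g (nat_lit 1732) (.e (nat_lit 6953) (nat_lit 377) (.e (nat_lit 1360) (nat_lit 102) (.e (nat_lit 286753) (nat_lit 10) (.e (nat_lit 344177) (nat_lit 43) (.e (nat_lit 770064) (nat_lit 5) .nil))))) .nil))) (.nd (nat_lit 6) 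
(.lf (nat_lit 121022) (.g (nat_lit 1488) (.e (nat_lit 6952) (nat_lit 377) (.e (nat_lit 1360) (nat_lit 102) (.e (nat_lit 286754) (nat_lit 10) (.e (nat_lit 344177) (nat_lit 43) (.e (nat_lit 770058) (nat_lit 5) .nil))))) .nil)) 
(.lf (nat_lit 121086) (.g (nat_lit 1870) (.e (nat_lit 6961) (nat_lit 377) (.e (nat_lit 1349) (nat_lit 102) (.e (nat_lit 286761) (nat_lit 13) (.e (nat_lit 393234) (nat_lit 17) (.e (nat_lit 7587) (nat_lit 406) .nil))))) .nil)))))))) (.nd (nat_lit 1) (.nd (nat_lit 2) (.nd (nat_lit 3) (.nd (nat_lit 4) (.nd (nat_lit 5) (.nd (nat_lit 6) 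
(.lf (nat_lit 120961) (.g (nat_lit 3671) (.e (nat_lit 6942) (nat_lit 375) (.e (nat_lit 163908) (nat_lit 12) (.e (nat_lit 426412) (nat_lit 15) (.e (nat_lit 1856) (nat_lit 124) (.e (nat_lit 557100) (nat_lit 13) (.e (nat_lit 172113) (nat_lit 10) (.e (nat_lit 434248) (nat_lit 28) (.e (nat_lit 573475) (nat_lit 12) (.e (nat_lit 57345) (nat_lit 0) .nil))))))))) (.g (nat_lit 6) .nil .nil))) 
(.lf (nat_lit 121025) (.g (nat_lit 2311) (.e (nat_lit 6952) (nat_lit 377) (.e (nat_lit 1360) (nat_lit 102) (.e (nat_lit 286761) (nat_lit 13) (.e (nat_lit 393233) (nat_lit 17) (.e (nat_lit 7936) (nat_lit 406) .nil))))) .nil))) (.nd (nat_lit 6) 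
(.lf (nat_lit 120993) (.g (nat_lit 522) (.e (nat_lit 6950) (nat_lit 377) (.e (nat_lit 1360) (nat_lit 102) (.e (nat_lit 286760) (nat_lit 13) .nil))) .nil)) 
(.lf (nat_lit 121057) (.g (nat_lit 1407) (.e (nat_lit 6953) (nat_lit 377) (.e (nat_lit 1360) (nat_lit 102) (.e (nat_lit 286754) (nat_lit 10) (.e (nat_lit 344174) (nat_lit 42) (.e (nat_lit 761866) (nat_lit 5) .nil))))) .nil)))) (.nd (nat_lit 5) (.nd (nat_lit 6) 
(.lf (nat_lit 120977) (.g (nat_lit 2399) (.e (nat_lit 6950) (nat_lit 377) (.e (nat_lit 1360) (nat_lit 102) (.e (nat_lit 286753) (nat_lit 10) (.e (nat_lit 344174) (nat_lit 42) (.e (nat_lit 761866) (nat_lit 5) (.e (nat_lit 1574) (nat_lit 110) (.e (nat_lit 352257) (nat_lit 0) .nil))))))) (.g (nat_lit 6) .nil .nil))) 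
(.lf (nat_lit 121041) (.g (nat_lit 2100) (.e (nat_lit 6953) (nat_lit 377) (.e (nat_lit 1360) (nat_lit 102) (.e (nat_lit 286748) (nat_lit 9) (.e (nat_lit 336389) (nat_lit 27) (.e (nat_lit 426012) (nat_lit 0) .nil))))) .nil))) (.nd (nat_lit 6) 
(.lf (nat_lit 121009) (.g (nat_lit 1586) (.e (nat_lit 6952) (nat_lit 377) (.e (nat_lit 1360) (nat_lit 102) (.e (nat_lit 286752) (nat_lit 10) (.e (nat_lit 344177) (nat_lit 43) (.e (nat_lit 770056) (nat_lit 5) .nil))))) .nil)) 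
(.lf (nat_lit 121073) (.g (nat_lit 267) (.e (nat_lit 6953) (nat_lit 377) (.e (nat_lit 1367) (nat_lit 103) (.e (nat_lit 294940) (nat_lit 9) .nil))) .nil))))) (.nd (nat_lit 4) (.nd (nat_lit 5) (.nd (nat_lit 6) 
(.lf (nat_lit 120969) (.g (nat_lit 4517) (.e (nat_lit 6943) (nat_lit 375) (.e (nat_lit 163946) (nat_lit 20) (.e (nat_lit 491569) (nat_lit 13) (.e (nat_lit 393301) (nat_lit 27) (.e (nat_lit 491559) (nat_lit 10) (.e (nat_lit 344091) (nat_lit 18) .nil)))))) (.g (nat_lit 6) .nil .nil))) 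
(.lf (nat_lit 121033) (.g (nat_lit 1143) (.e (nat_lit 6952) (nat_lit 377) (.e (nat_lit 1367) (nat_lit 103) (.e (nat_lit 294938) (nat_lit 9) (.e (nat_lit 336438) (nat_lit 31) (.e (nat_lit 466688) (nat_lit 4) .nil))))) .nil))) (.nd (nat_lit 6) 
(.lf (nat_lit 121001) (.g (nat_lit 3661) (.e (nat_lit 6950) (nat_lit 377) (.e (nat_lit 1360) (nat_lit 102) (.e (nat_lit 286761) (nat_lit 13) (.e (nat_lit 393301) (nat_lit 27) (.e (nat_lit 491552) (nat_lit 9) (.e (nat_lit 336250) (nat_lit 15) .nil)))))) (.g (nat_lit 6) .nil .nil))) 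
(.lf (nat_lit 121065) (.g (nat_lit 2301) (.e (nat_lit 6953) (nat_lit 377) (.e (nat_lit 1360) (nat_lit 102) (.e (nat_lit 286761) (nat_lit 13) (.e (nat_lit 393233) (nat_lit 17) (.e (nat_lit 7936) (nat_lit 406) .nil))))) .nil)))) (.nd (nat_lit 5) (.nd (nat_lit 6) 
(.lf (nat_lit 120985) (.g (nat_lit 2250) (.e (nat_lit 6950) (nat_lit 377) (.e (nat_lit 1360) (nat_lit 102) (.e (nat_lit 286753) (nat_lit 10) (.e (nat_lit 344177) (nat_lit 43) (.e (nat_lit 770057) (nat_lit 5) (.e (nat_lit 1575) (nat_lit 110) (.e (nat_lit 352257) (nat_lit 0) .nil))))))) (.g (nat_lit 6) .nil .nil))) 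
(.lf (nat_lit 121049) (.g (nat_lit 1567) (.e (nat_lit 6953) (nat_lit 377) (.e (nat_lit 1360) (nat_lit 102) (.e (nat_lit 286753) (nat_lit 10) (.e (nat_lit 344174) (nat_lit 42) (.e (nat_lit 769792) (nat_lit 10) .nil))))) .nil))) (.nd (nat_lit 6) 
(.lf (nat_lit 121017) (.g (nat_lit 1676) (.e (nat_lit 6952) (nat_lit 377) (.e (nat_lit 1360) (nat_lit 102) (.e (nat_lit 286753) (nat_lit 10) (.e (nat_lit 344177) (nat_lit 43) (.e (nat_lit 770058) (nat_lit 5) .nil))))) .nil)) 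
(.lf (nat_lit 121081) (.g (nat_lit 687) (.e (nat_lit 6953) (nat_lit 377) (.e (nat_lit 1367) (nat_lit 103) (.e (nat_lit 294960) (nat_lit 13) (.e (nat_lit 393238) (nat_lit 17) .nil)))) .nil)))))) (.nd (nat_lit 3) (.nd (nat_lit 4) (.nd (nat_lit 5) (.nd (nat_lit 6) 
(.lf (nat_lit 120965) (.g (nat_lit 4233) (.e (nat_lit 6942) (nat_lit 375) (.e (nat_lit 163947) (nat_lit 20) (.e (nat_lit 491568) (nat_lit 13) (.e (nat_lit 393301) (nat_lit 27) (.e (nat_lit 491560) (nat_lit 10) (.e (nat_lit 344090) (nat_lit 18) .nil)))))) (.g (nat_lit 0) .nil .nil))) 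
(.lf (nat_lit 121029) (.g (nat_lit 4208) (.e (nat_lit 6952) (nat_lit 377) (.e (nat_lit 1367) (nat_lit 103) (.e (nat_lit 294931) (nat_lit 3) (.e (nat_lit 98373) (nat_lit 29) (.e (nat_lit 450588) (nat_lit 10) (.e (nat_lit 573452) (nat_lit 9) (.e (nat_lit 13) (nat_lit 0) .nil))))))) (.g (nat_lit 6) .nil .nil)))) (.nd (nat_lit 6) 
(.lf (nat_lit 120997) (.g (nat_lit 3519) (.e (nat_lit 6950) (nat_lit 377) (.e (nat_lit 1360) (nat_lit 102) (.e (nat_lit 286761) (nat_lit 13) (.e (nat_lit 393234) (nat_lit 17) (.e (nat_lit 7936) (nat_lit 406) .nil))))) .nil)) 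
(.lf (nat_lit 121061) (.g (nat_lit 1496) (.e (nat_lit 6953) (nat_lit 377) (.e (nat_lit 1360) (nat_lit 102) (.e (nat_lit 286754) (nat_lit 10) (.e (nat_lit 344177) (nat_lit 43) (.e (nat_lit 770074) (nat_lit 10) .nil))))) .nil)))) (.nd (nat_lit 5) (.nd (nat_lit 6) 
(.lf (nat_lit 120981) (.g (nat_lit 2473) (.e (nat_lit 6950) (nat_lit 377) (.e (nat_lit 1360) (nat_lit 102) (.e (nat_lit 286753) (nat_lit 10) (.e (nat_lit 344174) (nat_lit 42) (.e (nat_lit 761869) (nat_lit 5) (.e (nat_lit 1574) (nat_lit 110) (.e (nat_lit 352257) (nat_lit 0) .nil))))))) (.g (nat_lit 6) .nil .nil))) 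
(.lf (nat_lit 121045) (.g (nat_lit 1008) (.e (nat_lit 6953) (nat_lit 377) (.e (nat_lit 1360) (nat_lit 102) (.e (nat_lit 286753) (nat_lit 10) (.e (nat_lit 344174) (nat_lit 42) .nil)))) .nil))) (.nd (nat_lit 6) 
(.lf (nat_lit 121013) (.g (nat_lit 1231) (.e (nat_lit 6952) (nat_lit 377) (.e (nat_lit 1360) (nat_lit 102) (.e (nat_lit 286753) (nat_lit 10) (.e (nat_lit 344173) (nat_lit 42) (.e (nat_lit 761869) (nat_lit 5) .nil))))) .nil)) 
(.lf (nat_lit 121077) (.g (nat_lit 699) (.e (nat_lit 6953) (nat_lit 377) (.e (nat_lit 1367) (nat_lit 103) (.e (nat_lit 294958) (nat_lit 13) (.e (nat_lit 393237) (nat_lit 17) .nil)))) .nil))))) (.nd (nat_lit 4) (.nd (nat_lit 5) (.nd (nat_lit 6) 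
(.lf (nat_lit 120973) (.g (nat_lit 2148) (.e (nat_lit 6950) (nat_lit 377) (.e (nat_lit 1360) (nat_lit 102) (.e (nat_lit 286748) (nat_lit 9) (.e (nat_lit 336389) (nat_lit 27) (.e (nat_lit 426012) (nat_lit 0) .nil))))) .nil)) 
(.lf (nat_lit 121037) (.g (nat_lit 1235) (.e (nat_lit 6952) (nat_lit 377) (.e (nat_lit 1367) (nat_lit 103) (.e (nat_lit 294941) (nat_lit 9) (.e (nat_lit 336421) (nat_lit 28) (.e (nat_lit 442112) (nat_lit 4) .nil))))) .nil))) (.nd (nat_lit 6) 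
(.lf (nat_lit 121005) (.g (nat_lit 1291) (.e (nat_lit 6950) (nat_lit 377) (.e (nat_lit 1367) (nat_lit 103) (.e (nat_lit 294941) (nat_lit 9) (.e (nat_lit 336421) (nat_lit 28) (.e (nat_lit 434179) (nat_lit 0) .nil))))) .nil)) 
(.lf (nat_lit 121069) (.g (nat_lit 4433) (.e (nat_lit 6953) (nat_lit 377) (.e (nat_lit 1360) (nat_lit 102) (.e (nat_lit 286761) (nat_lit 13) (.e (nat_lit 393301) (nat_lit 27) (.e (nat_lit 491556) (nat_lit 9) (.e (nat_lit 343808) (nat_lit 15) .nil)))))) (.g (nat_lit 5) .nil .nil))))) (.nd (nat_lit 5) (.nd (nat_lit 6) 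
(.lf (nat_lit 120989) (.g (nat_lit 1488) (.e (nat_lit 6950) (nat_lit 377) (.e (nat_lit 1360) (nat_lit 102) (.e (nat_lit 286754) (nat_lit 10) (.e (nat_lit 344174) (nat_lit 42) (.e (nat_lit 761868) (nat_lit 5) .nil))))) .nil)) 
(.lf (nat_lit 121053) (.g (nat_lit 1553) (.e (nat_lit 6953) (nat_lit 377) (.e (nat_lit 1360) (nat_lit 102) (.e (nat_lit 286753) (nat_lit 10) (.e (nat_lit 344177) (nat_lit 43) (.e (nat_lit 770058) (nat_lit 5) .nil))))) .nil))) (.nd (nat_lit 6) 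
(.lf (nat_lit 121021) (.g (nat_lit 1443) (.e (nat_lit 6952) (nat_lit 377) (.e (nat_lit 1360) (nat_lit 102) (.e (nat_lit 286754) (nat_lit 10) (.e (nat_lit 344174) (nat_lit 42) (.e (nat_lit 761869) (nat_lit 5) .nil))))) .nil)) 
(.lf (nat_lit 121085) (.g (nat_lit 680) (.e (nat_lit 6961) (nat_lit 377) (.e (nat_lit 1348) (nat_lit 102) (.e (nat_lit 286761) (nat_lit 13) .nil))) .nil))))))) (.nd (nat_lit 2) (.nd (nat_lit 3) (.nd (nat_lit 4) (.nd (nat_lit 5) (.nd (nat_lit 6) 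
(.lf (nat_lit 120963) (.g (nat_lit 3093) (.e (nat_lit 6942) (nat_lit 375) (.e (nat_lit 163946) (nat_lit 20) (.e (nat_lit 491540) (nat_lit 3) (.e (nat_lit 98373) (nat_lit 29) (.e (nat_lit 450587) (nat_lit 10) (.e (nat_lit 573475) (nat_lit 12) (.e (nat_lit 57345) (nat_lit 0) .nil))))))) (.g (nat_lit 6) .nil .nil))) 
(.lf (nat_lit 121027) (.g (nat_lit 1673) (.e (nat_lit 6952) (nat_lit 377) (.e (nat_lit 1360) (nat_lit 102) (.e (nat_lit 286761) (nat_lit 13) (.e (nat_lit 393237) (nat_lit 17) .nil)))) .nil))) (.nd (nat_lit 6) 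
(.lf (nat_lit 120995) (.g (nat_lit 2416) (.e (nat_lit 6950) (nat_lit 377) (.e (nat_lit 1360) (nat_lit 102) (.e (nat_lit 286761) (nat_lit 13) (.e (nat_lit 393233) (nat_lit 17) (.e (nat_lit 7936) (nat_lit 406) .nil))))) .nil)) 
(.lf (nat_lit 121059) (.g (nat_lit 1440) (.e (nat_lit 6953) (nat_lit 377) (.e (nat_lit 1360) (nat_lit 102) (.e (nat_lit 286754) (nat_lit 10) (.e (nat_lit 344174) (nat_lit 42) (.e (nat_lit 761868) (nat_lit 5) .nil))))) .nil)))) (.nd (nat_lit 5) (.nd (nat_lit 6) 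
(.lf (nat_lit 120979) (.g (nat_lit 2131) (.e (nat_lit 6950) (nat_lit 377) (.e (nat_lit 1360) (nat_lit 102) (.e (nat_lit 286753) (nat_lit 10) (.e (nat_lit 344174) (nat_lit 42) (.e (nat_lit 761868) (nat_lit 5) (.e (nat_lit 1574) (nat_lit 110) (.e (nat_lit 352257) (nat_lit 0) .nil))))))) (.g (nat_lit 6) .nil .nil))) 
(.lf (nat_lit 121043) (.g (nat_lit 362) (.e (nat_lit 6953) (nat_lit 377) (.e (nat_lit 1360) (nat_lit 102) (.e (nat_lit 286753) (nat_lit 10) .nil))) .nil))) (.nd (nat_lit 6) 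
(.lf (nat_lit 121011) (.g (nat_lit 399) (.e (nat_lit 6952) (nat_lit 377) (.e (nat_lit 1360) (nat_lit 102) (.e (nat_lit 286753) (nat_lit 10) .nil))) .nil)) 
(.lf (nat_lit 121075) (.g (nat_lit 1178) (.e (nat_lit 6953) (nat_lit 377) (.e (nat_lit 1367) (nat_lit 103) (.e (nat_lit 294941) (nat_lit 9) (.e (nat_lit 336421) (nat_lit 28) (.e (nat_lit 442112) (nat_lit 4) .nil))))) .nil))))) (.nd (nat_lit 4) (.nd (nat_lit 5) (.nd (nat_lit 6) 
(.lf (nat_lit 120971) (.g (nat_lit 4236) (.e (nat_lit 6947) (nat_lit 377) (.e (nat_lit 1353) (nat_lit 102) (.e (nat_lit 286735) (nat_lit 3) (.e (nat_lit 98373) (nat_lit 29) (.e (nat_lit 450588) (nat_lit 10) (.e (nat_lit 573452) (nat_lit 9) (.e (nat_lit 13) (nat_lit 0) .nil))))))) (.g (nat_lit 6) .nil .nil))) 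
(.lf (nat_lit 121035) (.g (nat_lit 1344) (.e (nat_lit 6952) (nat_lit 377) (.e (nat_lit 1367) (nat_lit 103) (.e (nat_lit 294941) (nat_lit 9) (.e (nat_lit 336421) (nat_lit 28) (.e (nat_lit 434178) (nat_lit 0) .nil))))) .nil))) (.nd (nat_lit 6) 
(.lf (nat_lit 121003) (.g (nat_lit 1049) (.e (nat_lit 6950) (nat_lit 377) (.e (nat_lit 1367) (nat_lit 103) (.e (nat_lit 294938) (nat_lit 9) (.e (nat_lit 336421) (nat_lit 28) (.e (nat_lit 434179) (nat_lit 0) .nil))))) .nil)) 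
(.lf (nat_lit 121067) (.g (nat_lit 1665) (.e (nat_lit 6953) (nat_lit 377) (.e (nat_lit 1360) (nat_lit 102) (.e (nat_lit 286761) (nat_lit 13) (.e (nat_lit 393237) (nat_lit 17) .nil)))) .nil)))) (.nd (nat_lit 5) (.nd (nat_lit 6) 
(.lf (nat_lit 120987) (.g (nat_lit 1913) (.e (nat_lit 6950) (nat_lit 377) (.e (nat_lit 1360) (nat_lit 102) (.e (nat_lit 286753) (nat_lit 10) (.e (nat_lit 344177) (nat_lit 43) (.e (nat_lit 770064) (nat_lit 5) .nil))))) .nil)) 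
(.lf (nat_lit 121051) (.g (nat_lit 912) (.e (nat_lit 6953) (nat_lit 377) (.e (nat_lit 1360) (nat_lit 102) (.e (nat_lit 286753) (nat_lit 10) (.e (nat_lit 344177) (nat_lit 43) .nil)))) .nil))) (.nd (nat_lit 6) 
(.lf (nat_lit 121019) (.g (nat_lit 1495) (.e (nat_lit 6952) (nat_lit 377) (.e (nat_lit 1360) (nat_lit 102) (.e (nat_lit 286754) (nat_lit 10) (.e (nat_lit 344174) (nat_lit 42) (.e (nat_lit 761867) (nat_lit 5) .nil))))) .nil)) 
(.lf (nat_lit 121083) (.g (nat_lit 2601) (.e (nat_lit 6953) (nat_lit 377) (.e (nat_lit 1367) (nat_lit 103) (.e (nat_lit 294960) (nat_lit 13) (.e (nat_lit 393260) (nat_lit 21) (.e (nat_lit 409623) (nat_lit 10) (.e (nat_lit 5293) (nat_lit 298) (.e (nat_lit 7936) (nat_lit 0) .nil))))))) (.g (nat_lit 6) .nil .nil))))))) (.nd (nat_lit 3) (.nd (nat_lit 4) (.nd (nat_lit 5) (.nd (nat_lit 6) 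
(.lf (nat_lit 120967) (.g (nat_lit 3230) (.e (nat_lit 6943) (nat_lit 375) (.e (nat_lit 163946) (nat_lit 20) (.e (nat_lit 491540) (nat_lit 3) (.e (nat_lit 98373) (nat_lit 29) (.e (nat_lit 450587) (nat_lit 10) (.e (nat_lit 573475) (nat_lit 12) (.e (nat_lit 57345) (nat_lit 0) .nil))))))) (.g (nat_lit 7) .nil .nil))) 
(.lf (nat_lit 121031) (.g (nat_lit 1077) (.e (nat_lit 6952) (nat_lit 377) (.e (nat_lit 1367) (nat_lit 103) (.e (nat_lit 294938) (nat_lit 9) (.e (nat_lit 336421) (nat_lit 28) (.e (nat_lit 434179) (nat_lit 0) .nil))))) .nil))) (.nd (nat_lit 6) 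
(.lf (nat_lit 120999) (.g (nat_lit 2632) (.e (nat_lit 6950) (nat_lit 377) (.e (nat_lit 1360) (nat_lit 102) (.e (nat_lit 286761) (nat_lit 13) (.e (nat_lit 393300) (nat_lit 27) (.e (nat_lit 491552) (nat_lit 9) .nil))))) .nil)) 
(.lf (nat_lit 121063) (.g (nat_lit 490) (.e (nat_lit 6953) (nat_lit 377) (.e (nat_lit 1360) (nat_lit 102) (.e (nat_lit 286760) (nat_lit 13) .nil))) .nil)))) (.nd (nat_lit 5) (.nd (nat_lit 6) 
(.lf (nat_lit 120983) (.g (nat_lit 1744) (.e (nat_lit 6950) (nat_lit 377) (.e (nat_lit 1360) (nat_lit 102) (.e (nat_lit 286753) (nat_lit 10) (.e (nat_lit 344177) (nat_lit 43) (.e (nat_lit 770055) (nat_lit 5) .nil))))) .nil)) 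
(.lf (nat_lit 121047) (.g (nat_lit 2119) (.e (nat_lit 6953) (nat_lit 377) (.e (nat_lit 1360) (nat_lit 102) (.e (nat_lit 286753) (nat_lit 10) (.e (nat_lit 344174) (nat_lit 42) (.e (nat_lit 761867) (nat_lit 5) (.e (nat_lit 1574) (nat_lit 110) (.e (nat_lit 352257) (nat_lit 0) .nil))))))) (.g (nat_lit 6) .nil .nil)))) (.nd (nat_lit 6) 
(.lf (nat_lit 121015) (.g (nat_lit 1625) (.e (nat_lit 6952) (nat_lit 377) (.e (nat_lit 1360) (nat_lit 102) (.e (nat_lit 286753) (nat_lit 10) (.e (nat_lit 344177) (nat_lit 43) (.e (nat_lit 770057) (nat_lit 5) .nil))))) .nil)) 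
(.lf (nat_lit 121079) (.g (nat_lit 2947) (.e (nat_lit 6953) (nat_lit 377) (.e (nat_lit 1367) (nat_lit 103) (.e (nat_lit 294958) (nat_lit 13) (.e (nat_lit 393301) (nat_lit 27) (.e (nat_lit 491552) (nat_lit 9) (.e (nat_lit 336250) (nat_lit 15) .nil)))))) (.g (nat_lit 6) .nil .nil)))))) (.nd (nat_lit 4) (.nd (nat_lit 5) (.nd (nat_lit 6) 
(.lf (nat_lit 120975) (.g (nat_lit 1588) (.e (nat_lit 6950) (nat_lit 377) (.e (nat_lit 1360) (nat_lit 102) (.e (nat_lit 286752) (nat_lit 10) (.e (nat_lit 344177) (nat_lit 43) (.e (nat_lit 770057) (nat_lit 5) .nil))))) .nil)) 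
(.lf (nat_lit 121039) (.g (nat_lit 778) (.e (nat_lit 6952) (nat_lit 377) (.e (nat_lit 1367) (nat_lit 103) (.e (nat_lit 294958) (nat_lit 13) (.e (nat_lit 393237) (nat_lit 17) .nil)))) .nil))) (.nd (nat_lit 6) 
(.lf (nat_lit 121007) (.g (nat_lit 2296) (.e (nat_lit 6952) (nat_lit 377) (.e (nat_lit 1346) (nat_lit 102) (.e (nat_lit 286761) (nat_lit 13) (.e (nat_lit 393234) (nat_lit 17) (.e (nat_lit 7589) (nat_lit 406) (.e (nat_lit 65632) (nat_lit 15) .nil)))))) (.g (nat_lit 5) .nil .nil))) 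
(.lf (nat_lit 121071) (.g (nat_lit 1691) (.e (nat_lit 6953) (nat_lit 377) (.e (nat_lit 1367) (nat_lit 103) (.e (nat_lit 294938) (nat_lit 9) (.e (nat_lit 336421) (nat_lit 28) (.e (nat_lit 434178) (nat_lit 0) (.e (nat_lit 1515) (nat_lit 108) (.e (nat_lit 336241) (nat_lit 15) .nil))))))) (.g (nat_lit 7) .nil .nil))))) (.nd (nat_lit 5) (.nd (nat_lit 6) 
(.lf (nat_lit 120991) (.g (nat_lit 1578) (.e (nat_lit 6950) (nat_lit 377) (.e (nat_lit 1360) (nat_lit 102) (.e (nat_lit 286754) (nat_lit 10) (.e (nat_lit 344177) (nat_lit 43) (.e (nat_lit 770056) (nat_lit 5) .nil))))) .nil)) 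
(.lf (nat_lit 121055) (.g (nat_lit 2366) (.e (nat_lit 6953) (nat_lit 377) (.e (nat_lit 1360) (nat_lit 102) (.e (nat_lit 286753) (nat_lit 10) (.e (nat_lit 344177) (nat_lit 43) (.e (nat_lit 770074) (nat_lit 10) (.e (nat_lit 89856) (nat_lit 0) .nil)))))) (.g (nat_lit 5) .nil .nil)))) (.nd (nat_lit 6) 
(.lf (nat_lit 121023) (.g (nat_lit 532) (.e (nat_lit 6952) (nat_lit 377) (.e (nat_lit 1360) (nat_lit 102) (.e (nat_lit 286760) (nat_lit 13) .nil))) .nil)) 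
(.lf (nat_lit 121087) (.g (nat_lit 1381) (.e (nat_lit 6963) (nat_lit 377) (.e (nat_lit 1348) (nat_lit 102) (.e (nat_lit 286735) (nat_lit 3) (.e (nat_lit 98373) (nat_lit 29) .nil)))) .nil)))))))))

noncomputable def tv1610 : DT := (.nd (nat_lit 0) (.nd (nat_lit 1) (.nd (nat_lit 2) (.nd (nat_lit 3) (.nd (nat_lit 4) (.nd (nat_lit 5) (.nd (nat_lit 6) 
(.lf (nat_lit 121088) (.g (nat_lit 1469) (.e (nat_lit 6965) (nat_lit 377) (.e (nat_lit 1346) (nat_lit 102) (.e (nat_lit 286761) (nat_lit 13) (.e (nat_lit 393234) (nat_lit 17) (.e (nat_lit 7587) (nat_lit 406) .nil))))) .nil)) 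
(.lf (nat_lit 121152) (.g (nat_lit 2524) (.e (nat_lit 6988) (nat_lit 377) (.e (nat_lit 1374) (nat_lit 104) (.e (nat_lit 303115) (nat_lit 1) (.e (nat_lit 164327) (nat_lit 230) (.e (nat_lit 163886) (nat_lit 5) (.e (nat_lit 229120) (nat_lit 13) (.e (nat_lit 352264) (nat_lit 0) .nil))))))) (.g (nat_lit 4) .nil .nil)))) (.nd (nat_lit 6) 
(.lf (nat_lit 121120) (.g (nat_lit 1724) (.e (nat_lit 6986) (nat_lit 377) (.e (nat_lit 2777) (nat_lit 178) (.e (nat_lit 286727) (nat_lit 0) (.e (nat_lit 1799) (nat_lit 119) .nil)))) .nil)) 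
(.lf (nat_lit 121184) (.g (nat_lit 2001) (.e (nat_lit 6989) (nat_lit 377) (.e (nat_lit 1361) (nat_lit 102) (.e (nat_lit 286761) (nat_lit 13) (.e (nat_lit 393270) (nat_lit 23) (.e (nat_lit 426141) (nat_lit 4) (.e (nat_lit 229681) (nat_lit 244) (.e (nat_lit 163846) (nat_lit 0) .nil))))))) (.g (nat_lit 4) .nil .nil))))) (.nd (nat_lit 5) (.nd (nat_lit 6) 
(.lf (nat_lit 121104) (.g (nat_lit 2044) (.e (nat_lit 6966) (nat_lit 377) (.e (nat_lit 2798) (nat_lit 180) (.e (nat_lit 303116) (nat_lit 2) (.e (nat_lit 196672) (nat_lit 15) (.e (nat_lit 81954) (nat_lit 23) .nil))))) .nil)) 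
(.lf (nat_lit 121168) (.g (nat_lit 2374) (.e (nat_lit 6989) (nat_lit 377) (.e (nat_lit 1361) (nat_lit 102) (.e (nat_lit 286761) (nat_lit 13) (.e (nat_lit 393234) (nat_lit 17) (.e (nat_lit 7601) (nat_lit 409) .nil))))) .nil))) (.nd (nat_lit 6) 
(.lf (nat_lit 121136) (.g (nat_lit 2808) (.e (nat_lit 6988) (nat_lit 377) (.e (nat_lit 1361) (nat_lit 102) (.e (nat_lit 286761) (nat_lit 13) (.e (nat_lit 393234) (nat_lit 17) (.e (nat_lit 7587) (nat_lit 406) (.e (nat_lit 73472) (nat_lit 15) .nil)))))) (.g (nat_lit 5) .nil .nil))) 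
(.lf (nat_lit 121200) (.g (nat_lit 3161) (.e (nat_lit 6989) (nat_lit 377) (.e (nat_lit 1361) (nat_lit 102) (.e (nat_lit 286761) (nat_lit 13) (.e (nat_lit 393300) (nat_lit 27) (.e (nat_lit 491556) (nat_lit 9) (.e (nat_lit 343808) (nat_lit 15) .nil)))))) (.g (nat_lit 5) .nil .nil)))))) (.nd (nat_lit 4) (.nd (nat_lit 5) (.nd (nat_lit 6) 
(.lf (nat_lit 121096) (.g (nat_lit 1956) (.e (nat_lit 6966) (nat_lit 377) (.e (nat_lit 2777) (nat_lit 178) (.e (nat_lit 286733) (nat_lit 2) (.e (nat_lit 90165) (nat_lit 12) .nil)))) .nil)) 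
(.lf (nat_lit 121160) (.g (nat_lit 3895) (.e (nat_lit 6989) (nat_lit 377) (.e (nat_lit 1361) (nat_lit 102) (.e (nat_lit 286735) (nat_lit 3) (.e (nat_lit 98350) (nat_lit 24) (.e (nat_lit 409602) (nat_lit 0) (.e (nat_lit 5293) (nat_lit 298) (.e (nat_lit 1250) (nat_lit 92) (.e (nat_lit 98323) (nat_lit 17) .nil)))))))) (.g (nat_lit 7) .nil .nil)))) (.nd (nat_lit 6) 
(.lf (nat_lit 121128) (.g (nat_lit 1020) (.e (nat_lit 6988) (nat_lit 377) (.e (nat_lit 1076) (nat_lit 81) (.e (nat_lit 5629) (nat_lit 312) (.e (nat_lit 100) (nat_lit 2) (.e (nat_lit 98048) (nat_lit 5) (.e (nat_lit 81664) (nat_lit 34) (.e (nat_lit 24671) (nat_lit 15) .nil))))))) (.g (nat_lit 4) .nil .nil))) 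
(.lf (nat_lit 121192) (.g (nat_lit 3173) (.e (nat_lit 6989) (nat_lit 377) (.e (nat_lit 1361) (nat_lit 102) (.e (nat_lit 286761) (nat_lit 13) (.e (nat_lit 393298) (nat_lit 27) (.e (nat_lit 491550) (nat_lit 9) (.e (nat_lit 343808) (nat_lit 15) .nil)))))) (.g (nat_lit 5) .nil .nil))))) (.nd (nat_lit 5) (.nd (nat_lit 6) 
(.lf (nat_lit 121112) (.g (nat_lit 1032) (.e (nat_lit 6974) (nat_lit 377) (.e (nat_lit 1364) (nat_lit 103) (.e (nat_lit 294941) (nat_lit 9) (.e (nat_lit 336421) (nat_lit 28) (.e (nat_lit 442112) (nat_lit 4) .nil))))) .nil)) 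
(.lf (nat_lit 121176) (.g (nat_lit 2601) (.e (nat_lit 6989) (nat_lit 377) (.e (nat_lit 1361) (nat_lit 102) (.e (nat_lit 286761) (nat_lit 13) (.e (nat_lit 393265) (nat_lit 22) (.e (nat_lit 417817) (nat_lit 10) (.e (nat_lit 5364) (nat_lit 298) (.e (nat_lit 7936) (nat_lit 0) .nil))))))) (.g (nat_lit 6) .nil .nil)))) (.nd (nat_lit 6) 
(.lf (nat_lit 121144) (.g (nat_lit 1954) (.e (nat_lit 6988) (nat_lit 377) (.e (nat_lit 1361) (nat_lit 102) (.e (nat_lit 286761) (nat_lit 13) (.e (nat_lit 393300) (nat_lit 27) (.e (nat_lit 491552) (nat_lit 9) .nil))))) .nil)) 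
(.lf (nat_lit 121208) (.g (nat_lit 3879) (.e (nat_lit 6989) (nat_lit 377) (.e (nat_lit 1361) (nat_lit 102) (.e (nat_lit 286761) (nat_lit 13) (.e (nat_lit 393301) (nat_lit 27) (.e (nat_lit 491556) (nat_lit 9) (.e (nat_lit 343808) (nat_lit 15) .nil)))))) (.g (nat_lit 5) .nil .nil))))))) (.nd (nat_lit 3) (.nd (nat_lit 4) (.nd (nat_lit 5) (.nd (nat_lit 6) 
(.lf (nat_lit 121092) (.g (nat_lit 1380) (.e (nat_lit 6965) (nat_lit 377) (.e (nat_lit 1349) (nat_lit 102) (.e (nat_lit 286761) (nat_lit 13) (.e (nat_lit 393234) (nat_lit 17) .nil)))) .nil)) 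
(.lf (nat_lit 121156) (.g (nat_lit 1089) (.e (nat_lit 6988) (nat_lit 377) (.e (nat_lit 2777) (nat_lit 178) (.e (nat_lit 286734) (nat_lit 3) .nil))) .nil))) (.nd (nat_lit 6) 
(.lf (nat_lit 121124) (.g (nat_lit 1020) (.e (nat_lit 6988) (nat_lit 377) (.e (nat_lit 977) (nat_lit 81) (.e (nat_lit 5629) (nat_lit 312) (.e (nat_lit 100) (nat_lit 2) (.e (nat_lit 98048) (nat_lit 5) (.e (nat_lit 81664) (nat_lit 34) (.e (nat_lit 24671) (nat_lit 15) .nil))))))) (.g (nat_lit 4) .nil .nil))) 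
(.lf (nat_lit 121188) (.g (nat_lit 1774) (.e (nat_lit 6989) (nat_lit 377) (.e (nat_lit 1361) (nat_lit 102) (.e (nat_lit 286761) (nat_lit 13) (.e (nat_lit 393293) (nat_lit 26) (.e (nat_lit 475204) (nat_lit 40) .nil))))) .nil)))) (.nd (nat_lit 5) (.nd (nat_lit 6) 
(.lf (nat_lit 121108) (.g (nat_lit 1973) (.e (nat_lit 6967) (nat_lit 377) (.e (nat_lit 1370) (nat_lit 103) (.e (nat_lit 294960) (nat_lit 13) (.e (nat_lit 393260) (nat_lit 21) (.e (nat_lit 409623) (nat_lit 10) (.e (nat_lit 5259) (nat_lit 298) (.e (nat_lit 20) (nat_lit 0) .nil))))))) (.g (nat_lit 5) .nil .nil))) 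
(.lf (nat_lit 121172) (.g (nat_lit 1132) (.e (nat_lit 6989) (nat_lit 377) (.e (nat_lit 1361) (nat_lit 102) (.e (nat_lit 286761) (nat_lit 13) (.e (nat_lit 393264) (nat_lit 22) .nil)))) .nil))) (.nd (nat_lit 6) 
(.lf (nat_lit 121140) (.g (nat_lit 1373) (.e (nat_lit 6988) (nat_lit 377) (.e (nat_lit 1361) (nat_lit 102) (.e (nat_lit 286761) (nat_lit 13) (.e (nat_lit 393265) (nat_lit 22) (.e (nat_lit 417820) (nat_lit 10) .nil))))) .nil)) 
(.lf (nat_lit 121204) (.g (nat_lit 4029) (.e (nat_lit 6989) (nat_lit 377) (.e (nat_lit 1361) (nat_lit 102) (.e (nat_lit 286761) (nat_lit 13) (.e (nat_lit 393301) (nat_lit 27) (.e (nat_lit 491551) (nat_lit 9) .nil))))) .nil))))) (.nd (nat_lit 4) (.nd (nat_lit 5) (.nd (nat_lit 6) 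
(.lf (nat_lit 121100) (.g (nat_lit 2649) (.e (nat_lit 6966) (nat_lit 377) (.e (nat_lit 2777) (nat_lit 178) (.e (nat_lit 286735) (nat_lit 3) (.e (nat_lit 98388) (nat_lit 33) (.e (nat_lit 491546) (nat_lit 9) .nil))))) .nil)) 
(.lf (nat_lit 121164) (.g (nat_lit 2183) (.e (nat_lit 6989) (nat_lit 377) (.e (nat_lit 1361) (nat_lit 102) (.e (nat_lit 286761) (nat_lit 13) (.e (nat_lit 393233) (nat_lit 17) (.e (nat_lit 7604) (nat_lit 409) (.e (nat_lit 139008) (nat_lit 15) .nil)))))) (.g (nat_lit 4) .nil .nil)))) (.nd (nat_lit 6) 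
(.lf (nat_lit 121132) (.g (nat_lit 4017) (.e (nat_lit 6988) (nat_lit 377) (.e (nat_lit 1361) (nat_lit 102) (.e (nat_lit 286735) (nat_lit 3) (.e (nat_lit 98373) (nat_lit 29) (.e (nat_lit 450588) (nat_lit 10) (.e (nat_lit 573452) (nat_lit 9) (.e (nat_lit 16) (nat_lit 0) .nil))))))) (.g (nat_lit 5) .nil .nil))) 
(.lf (nat_lit 121196) (.g (nat_lit 1696) (.e (nat_lit 6989) (nat_lit 377) (.e (nat_lit 1361) (nat_lit 102) (.e (nat_lit 286761) (nat_lit 13) (.e (nat_lit 393300) (nat_lit 27) (.e (nat_lit 491551) (nat_lit 9) .nil))))) .nil)))) (.nd (nat_lit 5) (.nd (nat_lit 6) 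
(.lf (nat_lit 121116) (.g (nat_lit 1139) (.e (nat_lit 6975) (nat_lit 377) (.e (nat_lit 1363) (nat_lit 102) (.e (nat_lit 286761) (nat_lit 13) (.e (nat_lit 393237) (nat_lit 17) .nil)))) .nil)) 
(.lf (nat_lit 121180) (.g (nat_lit 1962) (.e (nat_lit 6989) (nat_lit 377) (.e (nat_lit 1361) (nat_lit 102) (.e (nat_lit 286761) (nat_lit 13) (.e (nat_lit 393265) (nat_lit 22) (.e (nat_lit 417821) (nat_lit 10) (.e (nat_lit 5264) (nat_lit 298) (.e (nat_lit 7936) (nat_lit 0) .nil))))))) (.g (nat_lit 4) .nil .nil)))) (.nd (nat_lit 6) 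
(.lf (nat_lit 121148) (.g (nat_lit 3641) (.e (nat_lit 6988) (nat_lit 377) (.e (nat_lit 1361) (nat_lit 102) (.e (nat_lit 286761) (nat_lit 13) (.e (nat_lit 393301) (nat_lit 27) (.e (nat_lit 491552) (nat_lit 9) (.e (nat_lit 336287) (nat_lit 15) .nil)))))) (.g (nat_lit 5) .nil .nil))) 
(.lf (nat_lit 121212) (.g (nat_lit 629) (.e (nat_lit 6989) (nat_lit 377) (.e (nat_lit 2777) (nat_lit 178) (.e (nat_lit 286728) (nat_lit 0) .nil))) .nil))))))) (.nd (nat_lit 2) (.nd (nat_lit 3) (.nd (nat_lit 4) (.nd (nat_lit 5) (.nd (nat_lit 6) 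
(.lf (nat_lit 121090) (.g (nat_lit 1892) (.e (nat_lit 6965) (nat_lit 377) (.e (nat_lit 1348) (nat_lit 102) (.e (nat_lit 286761) (nat_lit 13) (.e (nat_lit 393301) (nat_lit 27) .nil)))) .nil)) 
(.lf (nat_lit 121154) (.g (nat_lit 3293) (.e (nat_lit 6988) (nat_lit 377) (.e (nat_lit 2777) (nat_lit 178) (.e (nat_lit 286733) (nat_lit 2) (.e (nat_lit 90134) (nat_lit 9) (.e (nat_lit 353) (nat_lit 29) (.e (nat_lit 401458) (nat_lit 13) (.e (nat_lit 483333) (nat_lit 0) .nil))))))) (.g (nat_lit 4) .nil .nil)))) (.nd (nat_lit 6) 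
(.lf (nat_lit 121122) (.g (nat_lit 1395) (.e (nat_lit 6986) (nat_lit 377) (.e (nat_lit 2810) (nat_lit 180) (.e (nat_lit 303117) (nat_lit 2) (.e (nat_lit 196630) (nat_lit 9) .nil)))) .nil)) 
(.lf (nat_lit 121186) (.g (nat_lit 1827) (.e (nat_lit 6989) (nat_lit 377) (.e (nat_lit 1361) (nat_lit 102) (.e (nat_lit 286761) (nat_lit 13) (.e (nat_lit 393275) (nat_lit 23) (.e (nat_lit 426144) (nat_lit 4) (.e (nat_lit 229681) (nat_lit 244) (.e (nat_lit 163846) (nat_lit 0) .nil))))))) (.g (nat_lit 5) .nil .nil))))) (.nd (nat_lit 5) (.nd (nat_lit 6) 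
(.lf (nat_lit 121106) (.g (nat_lit 1787) (.e (nat_lit 6966) (nat_lit 377) (.e (nat_lit 2798) (nat_lit 180) (.e (nat_lit 303117) (nat_lit 2) (.e (nat_lit 196630) (nat_lit 9) (.e (nat_lit 1553) (nat_lit 110) .nil))))) .nil)) 
(.lf (nat_lit 121170) (.g (nat_lit 1188) (.e (nat_lit 6989) (nat_lit 377) (.e (nat_lit 1361) (nat_lit 102) (.e (nat_lit 286761) (nat_lit 13) (.e (nat_lit 393237) (nat_lit 17) .nil)))) .nil))) (.nd (nat_lit 6) 
(.lf (nat_lit 121138) (.g (nat_lit 1714) (.e (nat_lit 6988) (nat_lit 377) (.e (nat_lit 1361) (nat_lit 102) (.e (nat_lit 286761) (nat_lit 13) (.e (nat_lit 393260) (nat_lit 21) (.e (nat_lit 417536) (nat_lit 16) .nil))))) .nil)) 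
(.lf (nat_lit 121202) (.g (nat_lit 4893) (.e (nat_lit 6989) (nat_lit 377) (.e (nat_lit 1361) (nat_lit 102) (.e (nat_lit 286761) (nat_lit 13) (.e (nat_lit 393301) (nat_lit 27) (.e (nat_lit 491546) (nat_lit 9) (.e (nat_lit 336249) (nat_lit 15) .nil)))))) (.g (nat_lit 5) .nil .nil)))))) (.nd (nat_lit 4) (.nd (nat_lit 5) (.nd (nat_lit 6) 
(.lf (nat_lit 121098) (.g (nat_lit 2142) (.e (nat_lit 6966) (nat_lit 377) (.e (nat_lit 2777) (nat_lit 178) (.e (nat_lit 286735) (nat_lit 3) (.e (nat_lit 98350) (nat_lit 24) (.e (nat_lit 417536) (nat_lit 16) .nil))))) .nil)) 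
(.lf (nat_lit 121162) (.g (nat_lit 2403) (.e (nat_lit 6989) (nat_lit 377) (.e (nat_lit 1361) (nat_lit 102) (.e (nat_lit 286743) (nat_lit 9) (.e (nat_lit 336426) (nat_lit 29) (.e (nat_lit 442430) (nat_lit 24) (.e (nat_lit 229681) (nat_lit 244) (.e (nat_lit 163846) (nat_lit 0) .nil))))))) (.g (nat_lit 7) .nil .nil)))) (.nd (nat_lit 6) 
(.lf (nat_lit 121130) (.g (nat_lit 997) (.e (nat_lit 6988) (nat_lit 377) (.e (nat_lit 1361) (nat_lit 102) (.e (nat_lit 286735) (nat_lit 3) (.e (nat_lit 98373) (nat_lit 29) .nil)))) .nil)) 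
(.lf (nat_lit 121194) (.g (nat_lit 3184) (.e (nat_lit 6989) (nat_lit 377) (.e (nat_lit 1361) (nat_lit 102) (.e (nat_lit 286761) (nat_lit 13) (.e (nat_lit 393300) (nat_lit 27) (.e (nat_lit 491547) (nat_lit 9) (.e (nat_lit 343808) (nat_lit 15) .nil)))))) (.g (nat_lit 5) .nil .nil))))) (.nd (nat_lit 5) (.nd (nat_lit 6) 
(.lf (nat_lit 121114) (.g (nat_lit 2807) (.e (nat_lit 6975) (nat_lit 377) (.e (nat_lit 1363) (nat_lit 102) (.e (nat_lit 286761) (nat_lit 13) (.e (nat_lit 393234) (nat_lit 17) (.e (nat_lit 7589) (nat_lit 406) (.e (nat_lit 65633) (nat_lit 15) .nil)))))) (.g (nat_lit 6) .nil .nil))) 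
(.lf (nat_lit 121178) (.g (nat_lit 2921) (.e (nat_lit 6989) (nat_lit 377) (.e (nat_lit 1361) (nat_lit 102) (.e (nat_lit 286761) (nat_lit 13) (.e (nat_lit 393265) (nat_lit 22) (.e (nat_lit 417820) (nat_lit 10) (.e (nat_lit 5259) (nat_lit 298) (.e (nat_lit 20) (nat_lit 0) .nil))))))) (.g (nat_lit 0) .nil .nil)))) (.nd (nat_lit 6) 
(.lf (nat_lit 121146) (.g (nat_lit 2142) (.e (nat_lit 6988) (nat_lit 377) (.e (nat_lit 1361) (nat_lit 102) (.e (nat_lit 286761) (nat_lit 13) (.e (nat_lit 393300) (nat_lit 27) (.e (nat_lit 491557) (nat_lit 9) .nil))))) .nil)) 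
(.lf (nat_lit 121210) (.g (nat_lit 3211) (.e (nat_lit 6989) (nat_lit 377) (.e (nat_lit 1370) (nat_lit 103) (.e (nat_lit 294960) (nat_lit 13) (.e (nat_lit 393260) (nat_lit 21) (.e (nat_lit 409623) (nat_lit 10) (.e (nat_lit 5293) (nat_lit 298) (.e (nat_lit 7936) (nat_lit 0) .nil))))))) (.g (nat_lit 6) .nil .nil))))))) (.nd (nat_lit 3) (.nd (nat_lit 4) (.nd (nat_lit 5) (.nd (nat_lit 6) 
(.lf (nat_lit 121094) (.g (nat_lit 3568) (.e (nat_lit 6966) (nat_lit 377) (.e (nat_lit 1361) (nat_lit 102) (.e (nat_lit 286761) (nat_lit 13) (.e (nat_lit 393301) (nat_lit 27) (.e (nat_lit 491546) (nat_lit 9) .nil))))) .nil)) 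
(.lf (nat_lit 121158) (.g (nat_lit 2369) (.e (nat_lit 6988) (nat_lit 377) (.e (nat_lit 2777) (nat_lit 178) (.e (nat_lit 286735) (nat_lit 3) (.e (nat_lit 98349) (nat_lit 24) (.e (nat_lit 409641) (nat_lit 17) .nil))))) .nil))) (.nd (nat_lit 6) 
(.lf (nat_lit 121126) (.g (nat_lit 1211) (.e (nat_lit 6988) (nat_lit 377) (.e (nat_lit 1075) (nat_lit 81) (.e (nat_lit 5293) (nat_lit 298) (.e (nat_lit 1656) (nat_lit 115) (.e (nat_lit 393265) (nat_lit 22) .nil))))) .nil)) 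
(.lf (nat_lit 121190) (.g (nat_lit 2070) (.e (nat_lit 6989) (nat_lit 377) (.e (nat_lit 1361) (nat_lit 102) (.e (nat_lit 286761) (nat_lit 13) (.e (nat_lit 393293) (nat_lit 26) (.e (nat_lit 475205) (nat_lit 40) (.e (nat_lit 704553) (nat_lit 0) (.e (nat_lit 7936) (nat_lit 157) .nil))))))) (.g (nat_lit 5) .nil .nil))))) (.nd (nat_lit 5) (.nd (nat_lit 6) 
(.lf (nat_lit 121110) (.g (nat_lit 1577) (.e (nat_lit 6970) (nat_lit 377) (.e (nat_lit 1374) (nat_lit 104) (.e (nat_lit 303119) (nat_lit 3) (.e (nat_lit 204845) (nat_lit 24) .nil)))) .nil)) 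
(.lf (nat_lit 121174) (.g (nat_lit 2072) (.e (nat_lit 6989) (nat_lit 377) (.e (nat_lit 1361) (nat_lit 102) (.e (nat_lit 286761) (nat_lit 13) (.e (nat_lit 393265) (nat_lit 22) (.e (nat_lit 417804) (nat_lit 1) (.e (nat_lit 8469) (nat_lit 148) (.e (nat_lit 163846) (nat_lit 0) .nil))))))) (.g (nat_lit 7) .nil .nil)))) (.nd (nat_lit 6) 
(.lf (nat_lit 121142) (.g (nat_lit 1870) (.e (nat_lit 6988) (nat_lit 377) (.e (nat_lit 1361) (nat_lit 102) (.e (nat_lit 286761) (nat_lit 13) (.e (nat_lit 393265) (nat_lit 22) (.e (nat_lit 417827) (nat_lit 17) (.e (nat_lit 294964) (nat_lit 15) .nil)))))) (.g (nat_lit 4) .nil .nil))) 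
(.lf (nat_lit 121206) (.g (nat_lit 3855) (.e (nat_lit 6989) (nat_lit 377) (.e (nat_lit 1361) (nat_lit 102) (.e (nat_lit 286761) (nat_lit 13) (.e (nat_lit 393301) (nat_lit 27) (.e (nat_lit 491552) (nat_lit 9) (.e (nat_lit 343808) (nat_lit 15) .nil)))))) (.g (nat_lit 5) .nil .nil)))))) (.nd (nat_lit 4) (.nd (nat_lit 5) (.nd (nat_lit 6) 
(.lf (nat_lit 121102) (.g (nat_lit 1509) (.e (nat_lit 6966) (nat_lit 377) (.e (nat_lit 2797) (nat_lit 180) (.e (nat_lit 303117) (nat_lit 2) (.e (nat_lit 196627) (nat_lit 9) .nil)))) .nil)) 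
(.lf (nat_lit 121166) (.g (nat_lit 2591) (.e (nat_lit 6989) (nat_lit 377) (.e (nat_lit 1361) (nat_lit 102) (.e (nat_lit 286761) (nat_lit 13) (.e (nat_lit 393234) (nat_lit 17) (.e (nat_lit 7589) (nat_lit 406) (.e (nat_lit 73472) (nat_lit 15) .nil)))))) (.g (nat_lit 5) .nil .nil)))) (.nd (nat_lit 6) 
(.lf (nat_lit 121134) (.g (nat_lit 1085) (.e (nat_lit 6988) (nat_lit 377) (.e (nat_lit 1361) (nat_lit 102) (.e (nat_lit 286761) (nat_lit 13) (.e (nat_lit 393233) (nat_lit 17) .nil)))) .nil)) 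
(.lf (nat_lit 121198) (.g (nat_lit 1891) (.e (nat_lit 6989) (nat_lit 377) (.e (nat_lit 1361) (nat_lit 102) (.e (nat_lit 286761) (nat_lit 13) (.e (nat_lit 393300) (nat_lit 27) (.e (nat_lit 491553) (nat_lit 9) .nil))))) .nil)))) (.nd (nat_lit 5) (.nd (nat_lit 6) 
(.lf (nat_lit 121118) (.g (nat_lit 1187) (.e (nat_lit 6986) (nat_lit 377) (.e (nat_lit 1370) (nat_lit 103) (.e (nat_lit 294941) (nat_lit 9) (.e (nat_lit 336421) (nat_lit 28) (.e (nat_lit 434187) (nat_lit 13) .nil))))) .nil)) 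
(.lf (nat_lit 121182) (.g (nat_lit 1398) (.e (nat_lit 6989) (nat_lit 377) (.e (nat_lit 1361) (nat_lit 102) (.e (nat_lit 286761) (nat_lit 13) (.e (nat_lit 393265) (nat_lit 22) (.e (nat_lit 425728) (nat_lit 16) (.e (nat_lit 294656) (nat_lit 15) .nil)))))) (.g (nat_lit 4) .nil .nil)))) (.nd (nat_lit 6) 
(.lf (nat_lit 121150) (.g (nat_lit 1330) (.e (nat_lit 6988) (nat_lit 377) (.e (nat_lit 1374) (nat_lit 104) (.e (nat_lit 303115) (nat_lit 1) (.e (nat_lit 164327) (nat_lit 230) .nil)))) .nil)) 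
(.lf (nat_lit 121214) (.g (nat_lit 3088) (.e (nat_lit 6989) (nat_lit 377) (.e (nat_lit 2777) (nat_lit 178) (.e (nat_lit 286731) (nat_lit 1) (.e (nat_lit 57683) (nat_lit 155) (.e (nat_lit 122916) (nat_lit 14) (.e (nat_lit 352273) (nat_lit 11) (.e (nat_lit 426024) (nat_lit 0) .nil))))))) (.g (nat_lit 5) .nil .nil))))))))) 
(.nd (nat_lit 1) (.nd (nat_lit 2) (.nd (nat_lit 3) (.nd (nat_lit 4) (.nd (nat_lit 5) 
(.nd (nat_lit 6) 
(.lf (nat_lit 121089) (.g (nat_lit 701) (.e (nat_lit 6965) (nat_lit 377) (.e (nat_lit 1348) (nat_lit 102) (.e (nat_lit 286761) (nat_lit 13) .nil))) .nil)) 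
(.lf (nat_lit 121153) (.g (nat_lit 859) (.e (nat_lit 6988) (nat_lit 377) (.e (nat_lit 2777) (nat_lit 178) (.e (nat_lit 286733) (nat_lit 2) .nil))) .nil))) (.nd (nat_lit 6) 
(.lf (nat_lit 121121) (.g (nat_lit 4507) (.e (nat_lit 6986) (nat_lit 377) (.e (nat_lit 2777) (nat_lit 178) (.e (nat_lit 286734) (nat_lit 3) (.e (nat_lit 98389) (nat_lit 33) (.e (nat_lit 491546) (nat_lit 9) (.e (nat_lit 336028) (nat_lit 3) (.e (nat_lit 98325) (nat_lit 17) .nil))))))) (.g (nat_lit 6) .nil .nil))) 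
(.lf (nat_lit 121185) (.g (nat_lit 1583) (.e (nat_lit 6989) (nat_lit 377) (.e (nat_lit 1361) (nat_lit 102) (.e (nat_lit 286761) (nat_lit 13) (.e (nat_lit 393270) (nat_lit 23) (.e (nat_lit 426402) (nat_lit 15) .nil))))) .nil)))) (.nd (nat_lit 5) (.nd (nat_lit 6) 
(.lf (nat_lit 121105) (.g (nat_lit 1584) (.e (nat_lit 6966) (nat_lit 377) (.e (nat_lit 2798) (nat_lit 180) (.e (nat_lit 303117) (nat_lit 2) (.e (nat_lit 196627) (nat_lit 9) .nil)))) .nil)) 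
(.lf (nat_lit 121169) (.g (nat_lit 2919) (.e (nat_lit 6989) (nat_lit 377) (.e (nat_lit 1361) (nat_lit 102) (.e (nat_lit 286761) (nat_lit 13) (.e (nat_lit 393234) (nat_lit 17) (.e (nat_lit 7604) (nat_lit 409) (.e (nat_lit 139008) (nat_lit 15) .nil)))))) (.g (nat_lit 5) .nil .nil)))) (.nd (nat_lit 6) 
(.lf (nat_lit 121137) (.g (nat_lit 2194) (.e (nat_lit 6988) (nat_lit 377) (.e (nat_lit 1361) (nat_lit 102) (.e (nat_lit 286761) (nat_lit 13) (.e (nat_lit 393234) (nat_lit 17) (.e (nat_lit 7936) (nat_lit 406) .nil))))) .nil)) 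
(.lf (nat_lit 121201) (.g (nat_lit 1506) (.e (nat_lit 6989) (nat_lit 377) (.e (nat_lit 1361) (nat_lit 102) (.e (nat_lit 286761) (nat_lit 13) (.e (nat_lit 393300) (nat_lit 27) (.e (nat_lit 499456) (nat_lit 9) .nil))))) .nil))))) (.nd (nat_lit 4) (.nd (nat_lit 5) (.nd (nat_lit 6) 
(.lf (nat_lit 121097) (.g (nat_lit 2032) (.e (nat_lit 6966) (nat_lit 377) (.e (nat_lit 2777) (nat_lit 178) (.e (nat_lit 286734) (nat_lit 3) (.e (nat_lit 98389) (nat_lit 33) .nil)))) .nil)) 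
(.lf (nat_lit 121161) (.g (nat_lit 184) (.e (nat_lit 6989) (nat_lit 377) (.e (nat_lit 1361) (nat_lit 102) (.e (nat_lit 286743) (nat_lit 9) .nil))) .nil))) (.nd (nat_lit 6) 
(.lf (nat_lit 121129) (.g (nat_lit 3155) (.e (nat_lit 6988) (nat_lit 377) (.e (nat_lit 1076) (nat_lit 81) (.e (nat_lit 5629) (nat_lit 312) (.e (nat_lit 351) (nat_lit 28) (.e (nat_lit 393252) (nat_lit 18) (.e (nat_lit 164332) (nat_lit 230) (.e (nat_lit 163874) (nat_lit 3) (.e (nat_lit 204805) (nat_lit 0) .nil)))))))) (.g (nat_lit 7) .nil .nil))) 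
(.lf (nat_lit 121193) (.g (nat_lit 3218) (.e (nat_lit 6989) (nat_lit 377) (.e (nat_lit 1361) (nat_lit 102) (.e (nat_lit 286761) (nat_lit 13) (.e (nat_lit 393300) (nat_lit 27) (.e (nat_lit 491547) (nat_lit 9) (.e (nat_lit 336257) (nat_lit 15) .nil)))))) (.g (nat_lit 5) .nil .nil))))) (.nd (nat_lit 5) (.nd (nat_lit 6) 
(.lf (nat_lit 121113) (.g (nat_lit 1728) (.e (nat_lit 6975) (nat_lit 377) (.e (nat_lit 1362) (nat_lit 102) (.e (nat_lit 286761) (nat_lit 13) (.e (nat_lit 393234) (nat_lit 17) (.e (nat_lit 7589) (nat_lit 406) (.e (nat_lit 73472) (nat_lit 15) .nil)))))) (.g (nat_lit 5) .nil .nil))) 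
(.lf (nat_lit 121177) (.g (nat_lit 1667) (.e (nat_lit 6989) (nat_lit 377) (.e (nat_lit 1361) (nat_lit 102) (.e (nat_lit 286761) (nat_lit 13) (.e (nat_lit 393265) (nat_lit 22) (.e (nat_lit 417820) (nat_lit 10) (.e (nat_lit 5245) (nat_lit 298) (.e (nat_lit 20) (nat_lit 0) .nil))))))) (.g (nat_lit 4) .nil .nil)))) (.nd (nat_lit 6) 
(.lf (nat_lit 121145) (.g (nat_lit 2141) (.e (nat_lit 6988) (nat_lit 377) (.e (nat_lit 1361) (nat_lit 102) (.e (nat_lit 286761) (nat_lit 13) (.e (nat_lit 393300) (nat_lit 27) (.e (nat_lit 491554) (nat_lit 9) .nil))))) .nil)) 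
(.lf (nat_lit 121209) (.g (nat_lit 3577) (.e (nat_lit 6989) (nat_lit 377) (.e (nat_lit 1361) (nat_lit 102) (.e (nat_lit 286761) (nat_lit 13) (.e (nat_lit 393301) (nat_lit 27) (.e (nat_lit 499456) (nat_lit 9) .nil))))) .nil)))))) (.nd (nat_lit 3) (.nd (nat_lit 4) (.nd (nat_lit 5) (.nd (nat_lit 6) 
(.lf (nat_lit 121093) (.g (nat_lit 933) (.e (nat_lit 6966) (nat_lit 377) (.e (nat_lit 1361) (nat_lit 102) (.e (nat_lit 286761) (nat_lit 13) (.e (nat_lit 393300) (nat_lit 27) .nil)))) .nil)) 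
(.lf (nat_lit 121157) (.g (nat_lit 1996) (.e (nat_lit 6988) (nat_lit 377) (.e (nat_lit 2777) (nat_lit 178) (.e (nat_lit 286735) (nat_lit 3) (.e (nat_lit 106240) (nat_lit 16) .nil)))) .nil))) (.nd (nat_lit 6) 
(.lf (nat_lit 121125) (.g (nat_lit 3136) (.e (nat_lit 6988) (nat_lit 377) (.e (nat_lit 977) (nat_lit 81) (.e (nat_lit 5629) (nat_lit 312) (.e (nat_lit 351) (nat_lit 28) (.e (nat_lit 393252) (nat_lit 18) (.e (nat_lit 164332) (nat_lit 230) (.e (nat_lit 163874) (nat_lit 3) (.e (nat_lit 204805) (nat_lit 0) .nil)))))))) (.g (nat_lit 7) .nil .nil))) 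
(.lf (nat_lit 121189) (.g (nat_lit 2319) (.e (nat_lit 6989) (nat_lit 377) (.e (nat_lit 1361) (nat_lit 102) (.e (nat_lit 286761) (nat_lit 13) (.e (nat_lit 393293) (nat_lit 26) (.e (nat_lit 475205) (nat_lit 40) (.e (nat_lit 704521) (nat_lit 0) (.e (nat_lit 7936) (nat_lit 157) .nil))))))) (.g (nat_lit 6) .nil .nil))))) (.nd (nat_lit 5) (.nd (nat_lit 6) 
(.lf (nat_lit 121109) (.g (nat_lit 1542) (.e (nat_lit 6970) (nat_lit 377) (.e (nat_lit 1370) (nat_lit 103) (.e (nat_lit 294960) (nat_lit 13) (.e (nat_lit 393260) (nat_lit 21) (.e (nat_lit 409623) (nat_lit 10) .nil))))) .nil)) 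
(.lf (nat_lit 121173) (.g (nat_lit 892) (.e (nat_lit 6989) (nat_lit 377) (.e (nat_lit 1361) (nat_lit 102) (.e (nat_lit 286761) (nat_lit 13) (.e (nat_lit 393265) (nat_lit 22) .nil)))) .nil))) (.nd (nat_lit 6) 
(.lf (nat_lit 121141) (.g (nat_lit 1973) (.e (nat_lit 6988) (nat_lit 377) (.e (nat_lit 1361) (nat_lit 102) (.e (nat_lit 286761) (nat_lit 13) (.e (nat_lit 393265) (nat_lit 22) (.e (nat_lit 417820) (nat_lit 10) (.e (nat_lit 5273) (nat_lit 298) (.e (nat_lit 59) (nat_lit 0) .nil))))))) (.g (nat_lit 5) .nil .nil))) 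
(.lf (nat_lit 121205) (.g (nat_lit 4040) (.e (nat_lit 6989) (nat_lit 377) (.e (nat_lit 1361) (nat_lit 102) (.e (nat_lit 286761) (nat_lit 13) (.e (nat_lit 393301) (nat_lit 27) (.e (nat_lit 491552) (nat_lit 9) (.e (nat_lit 336248) (nat_lit 15) .nil)))))) (.g (nat_lit 5) .nil .nil)))))) (.nd (nat_lit 4) (.nd (nat_lit 5) (.nd (nat_lit 6) 
(.lf (nat_lit 121101) (.g (nat_lit 2619) (.e (nat_lit 6966) (nat_lit 377) (.e (nat_lit 2777) (nat_lit 178) (.e (nat_lit 286735) (nat_lit 3) (.e (nat_lit 98388) (nat_lit 33) (.e (nat_lit 491560) (nat_lit 10) .nil))))) .nil)) 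
(.lf (nat_lit 121165) (.g (nat_lit 3112) (.e (nat_lit 6989) (nat_lit 377) (.e (nat_lit 1361) (nat_lit 102) (.e (nat_lit 286761) (nat_lit 13) (.e (nat_lit 393234) (nat_lit 17) (.e (nat_lit 7587) (nat_lit 406) (.e (nat_lit 73472) (nat_lit 15) .nil)))))) (.g (nat_lit 5) .nil .nil)))) (.nd (nat_lit 6) 
(.lf (nat_lit 121133) (.g (nat_lit 4714) (.e (nat_lit 6988) (nat_lit 377) (.e (nat_lit 1361) (nat_lit 102) (.e (nat_lit 286735) (nat_lit 3) (.e (nat_lit 98373) (nat_lit 29) (.e (nat_lit 450588) (nat_lit 10) (.e (nat_lit 573452) (nat_lit 9) (.e (nat_lit 61) (nat_lit 0) .nil))))))) (.g (nat_lit 6) .nil .nil))) 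
(.lf (nat_lit 121197) (.g (nat_lit 2217) (.e (nat_lit 6989) (nat_lit 377) (.e (nat_lit 1361) (nat_lit 102) (.e (nat_lit 286761) (nat_lit 13) (.e (nat_lit 393300) (nat_lit 27) (.e (nat_lit 491552) (nat_lit 9) (.e (nat_lit 343808) (nat_lit 15) .nil)))))) (.g (nat_lit 4) .nil .nil))))) (.nd (nat_lit 5) (.nd (nat_lit 6) 
(.lf (nat_lit 121117) (.g (nat_lit 3223) (.e (nat_lit 6983) (nat_lit 377) (.e (nat_lit 2809) (nat_lit 180) (.e (nat_lit 303116) (nat_lit 2) (.e (nat_lit 196672) (nat_lit 15) (.e (nat_lit 81954) (nat_lit 23) (.e (nat_lit 98323) (nat_lit 17) .nil)))))) (.g (nat_lit 5) .nil .nil))) 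
(.lf (nat_lit 121181) (.g (nat_lit 1374) (.e (nat_lit 6989) (nat_lit 377) (.e (nat_lit 1361) (nat_lit 102) (.e (nat_lit 286761) (nat_lit 13) (.e (nat_lit 393265) (nat_lit 22) (.e (nat_lit 425728) (nat_lit 10) .nil))))) .nil))) (.nd (nat_lit 6) 
(.lf (nat_lit 121149) (.g (nat_lit 774) (.e (nat_lit 6988) (nat_lit 377) (.e (nat_lit 1374) (nat_lit 104) (.e (nat_lit 303115) (nat_lit 1) .nil))) .nil)) 
(.lf (nat_lit 121213) (.g (nat_lit 3187) (.e (nat_lit 6989) (nat_lit 377) (.e (nat_lit 2777) (nat_lit 178) (.e (nat_lit 286731) (nat_lit 1) (.e (nat_lit 57681) (nat_lit 155) (.e (nat_lit 122916) (nat_lit 14) (.e (nat_lit 352274) (nat_lit 11) (.e (nat_lit 426024) (nat_lit 0) .nil))))))) (.g (nat_lit 5) .nil .nil)))))))) 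
(.nd (nat_lit 2) (.nd (nat_lit 3) (.nd (nat_lit 4) (.nd (nat_lit 5) (.nd (nat_lit 6) 
(.lf (nat_lit 121091) (.g (nat_lit 1422) (.e (nat_lit 6965) (nat_lit 377) (.e (nat_lit 1349) (nat_lit 102) (.e (nat_lit 286735) (nat_lit 3) (.e (nat_lit 98373) (nat_lit 29) (.e (nat_lit 450587) (nat_lit 10) .nil))))) .nil)) 
(.lf (nat_lit 121155) (.g (nat_lit 1679) (.e (nat_lit 6988) (nat_lit 377) (.e (nat_lit 2777) (nat_lit 178) (.e (nat_lit 286733) (nat_lit 2) (.e (nat_lit 90165) (nat_lit 12) .nil)))) .nil))) (.nd (nat_lit 6) 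
(.lf (nat_lit 121123) (.g (nat_lit 2948) (.e (nat_lit 6987) (nat_lit 377) (.e (nat_lit 1361) (nat_lit 102) (.e (nat_lit 286761) (nat_lit 13) (.e (nat_lit 393301) (nat_lit 27) (.e (nat_lit 491552) (nat_lit 9) .nil))))) .nil)) 
(.lf (nat_lit 121187) (.g (nat_lit 1593) (.e (nat_lit 6989) (nat_lit 377) (.e (nat_lit 1361) (nat_lit 102) (.e (nat_lit 286761) (nat_lit 13) (.e (nat_lit 393289) (nat_lit 25) (.e (nat_lit 458776) (nat_lit 18) (.e (nat_lit 5598) (nat_lit 310) (.e (nat_lit 163846) (nat_lit 0) .nil))))))) (.g (nat_lit 4) .nil .nil))))) (.nd (nat_lit 5) (.nd (nat_lit 6) 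
(.lf (nat_lit 121107) (.g (nat_lit 1569) (.e (nat_lit 6966) (nat_lit 377) (.e (nat_lit 2798) (nat_lit 180) (.e (nat_lit 303117) (nat_lit 2) (.e (nat_lit 196664) (nat_lit 13) .nil)))) .nil)) 
(.lf (nat_lit 121171) (.g (nat_lit 1900) (.e (nat_lit 6989) (nat_lit 377) (.e (nat_lit 1361) (nat_lit 102) (.e (nat_lit 286761) (nat_lit 13) (.e (nat_lit 393237) (nat_lit 17) (.e (nat_lit 7936) (nat_lit 409) (.e (nat_lit 139008) (nat_lit 15) .nil)))))) (.g (nat_lit 4) .nil .nil)))) (.nd (nat_lit 6) 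
(.lf (nat_lit 121139) (.g (nat_lit 876) (.e (nat_lit 6988) (nat_lit 377) (.e (nat_lit 1361) (nat_lit 102) (.e (nat_lit 286761) (nat_lit 13) (.e (nat_lit 393265) (nat_lit 22) .nil)))) .nil)) 
(.lf (nat_lit 121203) (.g (nat_lit 4781) (.e (nat_lit 6989) (nat_lit 377) (.e (nat_lit 1361) (nat_lit 102) (.e (nat_lit 286761) (nat_lit 13) (.e (nat_lit 393301) (nat_lit 27) (.e (nat_lit 491546) (nat_lit 9) (.e (nat_lit 343808) (nat_lit 15) .nil)))))) (.g (nat_lit 5) .nil .nil)))))) (.nd (nat_lit 4) (.nd (nat_lit 5) (.nd (nat_lit 6) 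
(.lf (nat_lit 121099) (.g (nat_lit 2042) (.e (nat_lit 6966) (nat_lit 377) (.e (nat_lit 2777) (nat_lit 178) (.e (nat_lit 286735) (nat_lit 3) (.e (nat_lit 98387) (nat_lit 33) .nil)))) .nil)) 
(.lf (nat_lit 121163) (.g (nat_lit 1810) (.e (nat_lit 6989) (nat_lit 377) (.e (nat_lit 1361) (nat_lit 102) (.e (nat_lit 286761) (nat_lit 13) (.e (nat_lit 393233) (nat_lit 17) (.e (nat_lit 7589) (nat_lit 406) .nil))))) .nil))) (.nd (nat_lit 6) 
(.lf (nat_lit 121131) (.g (nat_lit 2608) (.e (nat_lit 6988) (nat_lit 377) (.e (nat_lit 1361) (nat_lit 102) (.e (nat_lit 286735) (nat_lit 3) (.e (nat_lit 98373) (nat_lit 29) (.e (nat_lit 450587) (nat_lit 10) (.e (nat_lit 573457) (nat_lit 9) (.e (nat_lit 16) (nat_lit 0) .nil))))))) (.g (nat_lit 4) .nil .nil))) 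
(.lf (nat_lit 121195) (.g (nat_lit 3394) (.e (nat_lit 6989) (nat_lit 377) (.e (nat_lit 1361) (nat_lit 102) (.e (nat_lit 286761) (nat_lit 13) (.e (nat_lit 393300) (nat_lit 27) (.e (nat_lit 491549) (nat_lit 9) (.e (nat_lit 343808) (nat_lit 15) .nil)))))) (.g (nat_lit 5) .nil .nil))))) (.nd (nat_lit 5) (.nd (nat_lit 6) 
(.lf (nat_lit 121115) (.g (nat_lit 2456) (.e (nat_lit 6975) (nat_lit 377) (.e (nat_lit 1363) (nat_lit 102) (.e (nat_lit 286761) (nat_lit 13) (.e (nat_lit 393234) (nat_lit 17) (.e (nat_lit 7936) (nat_lit 406) (.e (nat_lit 65633) (nat_lit 15) .nil)))))) (.g (nat_lit 4) .nil .nil))) 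
(.lf (nat_lit 121179) (.g (nat_lit 3211) (.e (nat_lit 6989) (nat_lit 377) (.e (nat_lit 1361) (nat_lit 102) (.e (nat_lit 286761) (nat_lit 13) (.e (nat_lit 393265) (nat_lit 22) (.e (nat_lit 417820) (nat_lit 10) (.e (nat_lit 5293) (nat_lit 298) (.e (nat_lit 7936) (nat_lit 0) .nil))))))) (.g (nat_lit 6) .nil .nil)))) (.nd (nat_lit 6) 
(.lf (nat_lit 121147) (.g (nat_lit 2792) (.e (nat_lit 6988) (nat_lit 377) (.e (nat_lit 1361) (nat_lit 102) (.e (nat_lit 286761) (nat_lit 13) (.e (nat_lit 393301) (nat_lit 27) (.e (nat_lit 491552) (nat_lit 9) .nil))))) .nil)) 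
(.lf (nat_lit 121211) (.g (nat_lit 1640) (.e (nat_lit 6989) (nat_lit 377) (.e (nat_lit 1370) (nat_lit 103) (.e (nat_lit 294960) (nat_lit 13) (.e (nat_lit 393260) (nat_lit 21) (.e (nat_lit 417536) (nat_lit 10) (.e (nat_lit 5259) (nat_lit 298) (.e (nat_lit 20) (nat_lit 0) .nil))))))) (.g (nat_lit 4) .nil .nil))))))) (.nd (nat_lit 3) (.nd (nat_lit 4) (.nd (nat_lit 5) (.nd (nat_lit 6) 
(.lf (nat_lit 121095) (.g (nat_lit 1667) (.e (nat_lit 6966) (nat_lit 377) (.e (nat_lit 1370) (nat_lit 103) (.e (nat_lit 294960) (nat_lit 13) (.e (nat_lit 393260) (nat_lit 21) (.e (nat_lit 409623) (nat_lit 10) (.e (nat_lit 5293) (nat_lit 298) (.e (nat_lit 59) (nat_lit 0) .nil))))))) (.g (nat_lit 4) .nil .nil))) 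
(.lf (nat_lit 121159) (.g (nat_lit 2654) (.e (nat_lit 6989) (nat_lit 377) (.e (nat_lit 1361) (nat_lit 102) (.e (nat_lit 286733) (nat_lit 2) (.e (nat_lit 90174) (nat_lit 14) (.e (nat_lit 180277) (nat_lit 32) (.e (nat_lit 1253) (nat_lit 92) (.e (nat_lit 98323) (nat_lit 17) .nil))))))) (.g (nat_lit 4) .nil .nil)))) (.nd (nat_lit 6) 
(.lf (nat_lit 121127) (.g (nat_lit 1915) (.e (nat_lit 6988) (nat_lit 377) (.e (nat_lit 1075) (nat_lit 81) (.e (nat_lit 5293) (nat_lit 298) (.e (nat_lit 1656) (nat_lit 115) (.e (nat_lit 393265) (nat_lit 22) (.e (nat_lit 417820) (nat_lit 10) (.e (nat_lit 5293) (nat_lit 298) (.e (nat_lit 59) (nat_lit 0) .nil)))))))) (.g (nat_lit 5) .nil .nil))) 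
(.lf (nat_lit 121191) (.g (nat_lit 2803) (.e (nat_lit 6989) (nat_lit 377) (.e (nat_lit 1361) (nat_lit 102) (.e (nat_lit 286761) (nat_lit 13) (.e (nat_lit 393298) (nat_lit 27) (.e (nat_lit 491549) (nat_lit 9) (.e (nat_lit 343808) (nat_lit 15) .nil)))))) (.g (nat_lit 5) .nil .nil))))) (.nd (nat_lit 5) (.nd (nat_lit 6) 
(.lf (nat_lit 121111) (.g (nat_lit 2249) (.e (nat_lit 6970) (nat_lit 377) (.e (nat_lit 1374) (nat_lit 104) (.e (nat_lit 303119) (nat_lit 3) (.e (nat_lit 204845) (nat_lit 24) (.e (nat_lit 319530) (nat_lit 16) .nil))))) .nil)) 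
(.lf (nat_lit 121175) (.g (nat_lit 2131) (.e (nat_lit 6989) (nat_lit 377) (.e (nat_lit 1361) (nat_lit 102) (.e (nat_lit 286761) (nat_lit 13) (.e (nat_lit 393265) (nat_lit 22) (.e (nat_lit 417817) (nat_lit 10) (.e (nat_lit 5363) (nat_lit 298) (.e (nat_lit 7936) (nat_lit 0) .nil))))))) (.g (nat_lit 4) .nil .nil)))) (.nd (nat_lit 6) 
(.lf (nat_lit 121143) (.g (nat_lit 857) (.e (nat_lit 6988) (nat_lit 377) (.e (nat_lit 1361) (nat_lit 102) (.e (nat_lit 286761) (nat_lit 13) (.e (nat_lit 393300) (nat_lit 27) .nil)))) .nil)) 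
(.lf (nat_lit 121207) (.g (nat_lit 4050) (.e (nat_lit 6989) (nat_lit 377) (.e (nat_lit 1361) (nat_lit 102) (.e (nat_lit 286761) (nat_lit 13) (.e (nat_lit 393301) (nat_lit 27) (.e (nat_lit 491553) (nat_lit 9) .nil))))) .nil))))) (.nd (nat_lit 4) (.nd (nat_lit 5) (.nd (nat_lit 6) 
(.lf (nat_lit 121103) (.g (nat_lit 2206) (.e (nat_lit 6966) (nat_lit 377) (.e (nat_lit 2797) (nat_lit 180) (.e (nat_lit 303117) (nat_lit 2) (.e (nat_lit 196630) (nat_lit 9) (.e (nat_lit 1553) (nat_lit 110) .nil))))) .nil)) 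
(.lf (nat_lit 121167) (.g (nat_lit 2235) (.e (nat_lit 6989) (nat_lit 377) (.e (nat_lit 1361) (nat_lit 102) (.e (nat_lit 286761) (nat_lit 13) (.e (nat_lit 393234) (nat_lit 17) (.e (nat_lit 7936) (nat_lit 406) .nil))))) .nil))) (.nd (nat_lit 6) 
(.lf (nat_lit 121135) (.g (nat_lit 2070) (.e (nat_lit 6988) (nat_lit 377) (.e (nat_lit 1361) (nat_lit 102) (.e (nat_lit 286761) (nat_lit 13) (.e (nat_lit 393234) (nat_lit 17) (.e (nat_lit 7587) (nat_lit 406) .nil))))) .nil)) 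
(.lf (nat_lit 121199) (.g (nat_lit 2440) (.e (nat_lit 6989) (nat_lit 377) (.e (nat_lit 1361) (nat_lit 102) (.e (nat_lit 286761) (nat_lit 13) (.e (nat_lit 393300) (nat_lit 27) (.e (nat_lit 491555) (nat_lit 9) (.e (nat_lit 343808) (nat_lit 15) .nil)))))) (.g (nat_lit 5) .nil .nil))))) (.nd (nat_lit 5) (.nd (nat_lit 6) 
(.lf (nat_lit 121119) (.g (nat_lit 2610) (.e (nat_lit 6986) (nat_lit 377) (.e (nat_lit 1370) (nat_lit 103) (.e (nat_lit 294960) (nat_lit 13) (.e (nat_lit 393238) (nat_lit 17) (.e (nat_lit 6989) (nat_lit 377) (.e (nat_lit 2781) (nat_lit 178) (.e (nat_lit 286765) (nat_lit 15) .nil))))))) (.g (nat_lit 5) .nil .nil))) 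
(.lf (nat_lit 121183) (.g (nat_lit 1315) (.e (nat_lit 6989) (nat_lit 377) (.e (nat_lit 1361) (nat_lit 102) (.e (nat_lit 286761) (nat_lit 13) (.e (nat_lit 393267) (nat_lit 23) .nil)))) .nil))) (.nd (nat_lit 6) 
(.lf (nat_lit 121151) (.g (nat_lit 2542) (.e (nat_lit 6988) (nat_lit 377) (.e (nat_lit 1374) (nat_lit 104) (.e (nat_lit 303115) (nat_lit 1) (.e (nat_lit 164327) (nat_lit 230) (.e (nat_lit 163884) (nat_lit 5) (.e (nat_lit 229120) (nat_lit 13) (.e (nat_lit 352264) (nat_lit 0) .nil))))))) (.g (nat_lit 4) .nil .nil))) 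
(.lf (nat_lit 121215) (.g (nat_lit 1739) (.e (nat_lit 6989) (nat_lit 377) (.e (nat_lit 2777) (nat_lit 178) (.e (nat_lit 286732) (nat_lit 2) (.e (nat_lit 90165) (nat_lit 12) .nil)))) .nil)))))))))

noncomputable def tv1611 : DT := (.nd (nat_lit 0) (.nd (nat_lit 1) (.nd (nat_lit 2) (.nd (nat_lit 3) (.nd (nat_lit 4) (.nd (nat_lit 5) (.nd (nat_lit 6) 
(.lf (nat_lit 121216) (.g (nat_lit 3470) (.e (nat_lit 6989) (nat_lit 377) (.e (nat_lit 2777) (nat_lit 178) (.e (nat_lit 286733) (nat_lit 2) (.e (nat_lit 90165) (nat_lit 12) (.e (nat_lit 164210) (nat_lit 176) (.e (nat_lit 2786) (nat_lit 179) (.e (nat_lit 294931) (nat_lit 3) (.e (nat_lit 98323) (nat_lit 17) .nil)))))))) (.g (nat_lit 4) .nil .nil))) 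
(.lf (nat_lit 121280) (.g (nat_lit 2783) (.e (nat_lit 7060) (nat_lit 377) (.e (nat_lit 1348) (nat_lit 102) (.e (nat_lit 286735) (nat_lit 3) (.e (nat_lit 98350) (nat_lit 24) (.e (nat_lit 417536) (nat_lit 6) .nil))))) .nil))) (.nd (nat_lit 6) 
(.lf (nat_lit 121248) (.g (nat_lit 1475) (.e (nat_lit 7008) (nat_lit 377) (.e (nat_lit 2797) (nat_lit 180) (.e (nat_lit 303117) (nat_lit 2) (.e (nat_lit 196627) (nat_lit 9) .nil)))) .nil)) 
(.lf (nat_lit 121312) (.g (nat_lit 2650) (.e (nat_lit 7064) (nat_lit 377) (.e (nat_lit 1348) (nat_lit 102) (.e (nat_lit 286761) (nat_lit 13) (.e (nat_lit 393301) (nat_lit 27) (.e (nat_lit 491552) (nat_lit 9) (.e (nat_lit 336250) (nat_lit 15) .nil)))))) (.g (nat_lit 5) .nil .nil))))) (.nd (nat_lit 5) (.nd (nat_lit 6) 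
(.lf (nat_lit 121232) (.g (nat_lit 771) (.e (nat_lit 6989) (nat_lit 377) (.e (nat_lit 2810) (nat_lit 180) (.e (nat_lit 303117) (nat_lit 2) (.e (nat_lit 196664) (nat_lit 13) .nil)))) .nil)) 
(.lf (nat_lit 121296) (.g (nat_lit 2332) (.e (nat_lit 7061) (nat_lit 377) (.e (nat_lit 1348) (nat_lit 102) (.e (nat_lit 286761) (nat_lit 13) (.e (nat_lit 393301) (nat_lit 27) (.e (nat_lit 491552) (nat_lit 9) .nil))))) .nil))) (.nd (nat_lit 6) 
(.lf (nat_lit 121264) (.g (nat_lit 1658) (.e (nat_lit 7017) (nat_lit 377) (.e (nat_lit 2797) (nat_lit 180) (.e (nat_lit 303115) (nat_lit 1) (.e (nat_lit 164179) (nat_lit 154) .nil)))) .nil)) 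
(.lf (nat_lit 121328) (.g (nat_lit 1723) (.e (nat_lit 7064) (nat_lit 377) (.e (nat_lit 1349) (nat_lit 102) (.e (nat_lit 286735) (nat_lit 3) (.e (nat_lit 98373) (nat_lit 29) (.e (nat_lit 450588) (nat_lit 10) (.e (nat_lit 573452) (nat_lit 9) (.e (nat_lit 7936) (nat_lit 0) .nil))))))) (.g (nat_lit 4) .nil .nil)))))) (.nd (nat_lit 4) (.nd (nat_lit 5) (.nd (nat_lit 6) 
(.lf (nat_lit 121224) (.g (nat_lit 1081) (.e (nat_lit 6989) (nat_lit 377) (.e (nat_lit 2810) (nat_lit 180) (.e (nat_lit 303117) (nat_lit 2) (.e (nat_lit 196625) (nat_lit 9) .nil)))) .nil)) 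
(.lf (nat_lit 121288) (.g (nat_lit 2143) (.e (nat_lit 7060) (nat_lit 377) (.e (nat_lit 1348) (nat_lit 102) (.e (nat_lit 286761) (nat_lit 13) (.e (nat_lit 393234) (nat_lit 17) (.e (nat_lit 7587) (nat_lit 406) (.e (nat_lit 73472) (nat_lit 15) .nil)))))) (.g (nat_lit 5) .nil .nil)))) (.nd (nat_lit 6) 
(.lf (nat_lit 121256) (.g (nat_lit 785) (.e (nat_lit 7014) (nat_lit 377) (.e (nat_lit 2797) (nat_lit 180) (.e (nat_lit 303117) (nat_lit 2) .nil))) .nil)) 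
(.lf (nat_lit 121320) (.g (nat_lit 1745) (.e (nat_lit 7064) (nat_lit 377) (.e (nat_lit 1349) (nat_lit 102) (.e (nat_lit 286733) (nat_lit 2) (.e (nat_lit 90173) (nat_lit 14) (.e (nat_lit 180278) (nat_lit 32) .nil))))) .nil)))) (.nd (nat_lit 5) (.nd (nat_lit 6) 
(.lf (nat_lit 121240) (.g (nat_lit 434) (.e (nat_lit 6998) (nat_lit 377) (.e (nat_lit 2797) (nat_lit 180) (.e (nat_lit 303117) (nat_lit 2) .nil))) .nil)) 
(.lf (nat_lit 121304) (.g (nat_lit 2644) (.e (nat_lit 7064) (nat_lit 377) (.e (nat_lit 1348) (nat_lit 102) (.e (nat_lit 286735) (nat_lit 3) (.e (nat_lit 98350) (nat_lit 24) (.e (nat_lit 417536) (nat_lit 6) .nil))))) .nil))) (.nd (nat_lit 6) 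
(.lf (nat_lit 121272) (.g (nat_lit 1967) (.e (nat_lit 7058) (nat_lit 377) (.e (nat_lit 1349) (nat_lit 102) (.e (nat_lit 286761) (nat_lit 13) (.e (nat_lit 393301) (nat_lit 27) (.e (nat_lit 491552) (nat_lit 9) .nil))))) .nil)) 
(.lf (nat_lit 121336) (.g (nat_lit 1389) (.e (nat_lit 7064) (nat_lit 377) (.e (nat_lit 1349) (nat_lit 102) (.e (nat_lit 286761) (nat_lit 13) (.e (nat_lit 393233) (nat_lit 17) .nil)))) .nil)))))) (.nd (nat_lit 3) (.nd (nat_lit 4) (.nd (nat_lit 5) (.nd (nat_lit 6) 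
(.lf (nat_lit 121220) (.g (nat_lit 914) (.e (nat_lit 6989) (nat_lit 377) (.e (nat_lit 2779) (nat_lit 178) (.e (nat_lit 286734) (nat_lit 3) (.e (nat_lit 98389) (nat_lit 33) .nil)))) .nil)) 
(.lf (nat_lit 121284) (.g (nat_lit 1425) (.e (nat_lit 7060) (nat_lit 377) (.e (nat_lit 1348) (nat_lit 102) (.e (nat_lit 286735) (nat_lit 3) (.e (nat_lit 98367) (nat_lit 27) .nil)))) .nil))) (.nd (nat_lit 6) 
(.lf (nat_lit 121252) (.g (nat_lit 824) (.e (nat_lit 7010) (nat_lit 377) (.e (nat_lit 2797) (nat_lit 180) (.e (nat_lit 303115) (nat_lit 1) .nil))) .nil)) 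
(.lf (nat_lit 121316) (.g (nat_lit 3841) (.e (nat_lit 7064) (nat_lit 377) (.e (nat_lit 1349) (nat_lit 102) (.e (nat_lit 286733) (nat_lit 2) (.e (nat_lit 90170) (nat_lit 13) (.e (nat_lit 172120) (nat_lit 12) .nil))))) .nil)))) (.nd (nat_lit 5) (.nd (nat_lit 6) 
(.lf (nat_lit 121236) (.g (nat_lit 1352) (.e (nat_lit 6989) (nat_lit 377) (.e (nat_lit 2810) (nat_lit 180) (.e (nat_lit 303119) (nat_lit 3) (.e (nat_lit 204864) (nat_lit 27) (.e (nat_lit 352000) (nat_lit 8) .nil))))) .nil)) 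
(.lf (nat_lit 121300) (.g (nat_lit 2215) (.e (nat_lit 7064) (nat_lit 377) (.e (nat_lit 1348) (nat_lit 102) (.e (nat_lit 286733) (nat_lit 2) (.e (nat_lit 90172) (nat_lit 14) (.e (nat_lit 180278) (nat_lit 32) (.e (nat_lit 1235) (nat_lit 91) (.e (nat_lit 90133) (nat_lit 9) (.e (nat_lit 2400) (nat_lit 157) .nil)))))))) (.g (nat_lit 4) .nil .nil)))) (.nd (nat_lit 6) 
(.lf (nat_lit 121268) (.g (nat_lit 705) (.e (nat_lit 7058) (nat_lit 377) (.e (nat_lit 1348) (nat_lit 102) (.e (nat_lit 286761) (nat_lit 13) .nil))) .nil)) 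
(.lf (nat_lit 121332) (.g (nat_lit 2100) (.e (nat_lit 7064) (nat_lit 377) (.e (nat_lit 1349) (nat_lit 102) (.e (nat_lit 286748) (nat_lit 9) (.e (nat_lit 336389) (nat_lit 27) (.e (nat_lit 426035) (nat_lit 0) .nil))))) .nil))))) (.nd (nat_lit 4) (.nd (nat_lit 5) (.nd (nat_lit 6) 
(.lf (nat_lit 121228) (.g (nat_lit 2051) (.e (nat_lit 6989) (nat_lit 377) (.e (nat_lit 2810) (nat_lit 180) (.e (nat_lit 303117) (nat_lit 2) (.e (nat_lit 196630) (nat_lit 9) (.e (nat_lit 1586) (nat_lit 111) .nil))))) .nil)) 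
(.lf (nat_lit 121292) (.g (nat_lit 1535) (.e (nat_lit 7060) (nat_lit 377) (.e (nat_lit 1348) (nat_lit 102) (.e (nat_lit 286761) (nat_lit 13) (.e (nat_lit 393301) (nat_lit 27) .nil)))) .nil))) (.nd (nat_lit 6) 
(.lf (nat_lit 121260) (.g (nat_lit 3644) (.e (nat_lit 7015) (nat_lit 377) (.e (nat_lit 2797) (nat_lit 180) (.e (nat_lit 303119) (nat_lit 3) (.e (nat_lit 204861) (nat_lit 26) (.e (nat_lit 336186) (nat_lit 11) .nil))))) .nil)) 
(.lf (nat_lit 121324) (.g (nat_lit 2986) (.e (nat_lit 7064) (nat_lit 377) (.e (nat_lit 1349) (nat_lit 102) (.e (nat_lit 286734) (nat_lit 3) (.e (nat_lit 98359) (nat_lit 26) (.e (nat_lit 426338) (nat_lit 14) (.e (nat_lit 491537) (nat_lit 2) (.e (nat_lit 90133) (nat_lit 9) (.e (nat_lit 2400) (nat_lit 157) .nil)))))))) (.g (nat_lit 5) .nil .nil))))) (.nd (nat_lit 5) (.nd (nat_lit 6) 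
(.lf (nat_lit 121244) (.g (nat_lit 1548) (.e (nat_lit 6998) (nat_lit 377) (.e (nat_lit 2797) (nat_lit 180) (.e (nat_lit 303117) (nat_lit 2) (.e (nat_lit 196664) (nat_lit 13) .nil)))) .nil)) 
(.lf (nat_lit 121308) (.g (nat_lit 1234) (.e (nat_lit 7064) (nat_lit 377) (.e (nat_lit 1348) (nat_lit 102) (.e (nat_lit 286761) (nat_lit 13) (.e (nat_lit 393234) (nat_lit 17) .nil)))) .nil))) (.nd (nat_lit 6) 
(.lf (nat_lit 121276) (.g (nat_lit 2088) (.e (nat_lit 7060) (nat_lit 377) (.e (nat_lit 1348) (nat_lit 102) (.e (nat_lit 286733) (nat_lit 2) (.e (nat_lit 90173) (nat_lit 14) (.e (nat_lit 180278) (nat_lit 32) .nil))))) .nil)) 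
(.lf (nat_lit 121340) (.g (nat_lit 2957) (.e (nat_lit 7064) (nat_lit 377) (.e (nat_lit 1349) (nat_lit 102) (.e (nat_lit 286761) (nat_lit 13) (.e (nat_lit 393234) (nat_lit 17) (.e (nat_lit 7502) (nat_lit 402) .nil))))) .nil))))))) (.nd (nat_lit 2) (.nd (nat_lit 3) (.nd (nat_lit 4) (.nd (nat_lit 5) (.nd (nat_lit 6) 
(.lf (nat_lit 121218) (.g (nat_lit 2212) (.e (nat_lit 6989) (nat_lit 377) (.e (nat_lit 2777) (nat_lit 178) (.e (nat_lit 286765) (nat_lit 15) (.e (nat_lit 3307) (nat_lit 202) (.e (nat_lit 573479) (nat_lit 13) .nil))))) .nil)) 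
(.lf (nat_lit 121282) (.g (nat_lit 2488) (.e (nat_lit 7060) (nat_lit 377) (.e (nat_lit 1348) (nat_lit 102) (.e (nat_lit 286735) (nat_lit 3) (.e (nat_lit 98353) (nat_lit 25) (.e (nat_lit 417809) (nat_lit 6) .nil))))) .nil))) (.nd (nat_lit 6) 
(.lf (nat_lit 121250) (.g (nat_lit 2139) (.e (nat_lit 7008) (nat_lit 377) (.e (nat_lit 2797) (nat_lit 180) (.e (nat_lit 303117) (nat_lit 2) (.e (nat_lit 196630) (nat_lit 9) (.e (nat_lit 1563) (nat_lit 110) .nil))))) .nil)) 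
(.lf (nat_lit 121314) (.g (nat_lit 4903) (.e (nat_lit 7064) (nat_lit 377) (.e (nat_lit 1349) (nat_lit 102) (.e (nat_lit 286733) (nat_lit 2) (.e (nat_lit 90169) (nat_lit 13) (.e (nat_lit 172124) (nat_lit 14) (.e (nat_lit 491537) (nat_lit 2) (.e (nat_lit 90133) (nat_lit 9) (.e (nat_lit 2397) (nat_lit 157) .nil)))))))) (.g (nat_lit 8) .nil .nil))))) (.nd (nat_lit 5) (.nd (nat_lit 6) 
(.lf (nat_lit 121234) (.g (nat_lit 2453) (.e (nat_lit 6989) (nat_lit 377) (.e (nat_lit 2810) (nat_lit 180) (.e (nat_lit 303119) (nat_lit 3) (.e (nat_lit 204863) (nat_lit 27) (.e (nat_lit 352000) (nat_lit 8) (.e (nat_lit 1250) (nat_lit 92) (.e (nat_lit 98323) (nat_lit 17) .nil))))))) (.g (nat_lit 4) .nil .nil))) 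
(.lf (nat_lit 121298) (.g (nat_lit 1380) (.e (nat_lit 7061) (nat_lit 377) (.e (nat_lit 1349) (nat_lit 102) (.e (nat_lit 286761) (nat_lit 13) (.e (nat_lit 393234) (nat_lit 17) .nil)))) .nil))) (.nd (nat_lit 6) 
(.lf (nat_lit 121266) (.g (nat_lit 2073) (.e (nat_lit 7048) (nat_lit 377) (.e (nat_lit 1353) (nat_lit 102) (.e (nat_lit 286761) (nat_lit 13) (.e (nat_lit 393300) (nat_lit 27) (.e (nat_lit 491549) (nat_lit 9) .nil))))) .nil)) 
(.lf (nat_lit 121330) (.g (nat_lit 1931) (.e (nat_lit 7064) (nat_lit 377) (.e (nat_lit 1349) (nat_lit 102) (.e (nat_lit 286748) (nat_lit 9) (.e (nat_lit 336389) (nat_lit 27) (.e (nat_lit 426012) (nat_lit 0) (.e (nat_lit 7502) (nat_lit 402) (.e (nat_lit 1515) (nat_lit 108) (.e (nat_lit 336241) (nat_lit 15) .nil)))))))) (.g (nat_lit 5) .nil .nil)))))) 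
(.nd (nat_lit 4) (.nd (nat_lit 5) (.nd (nat_lit 6) 
(.lf (nat_lit 121226) (.g (nat_lit 1963) (.e (nat_lit 6989) (nat_lit 377) (.e (nat_lit 2810) (nat_lit 180) (.e (nat_lit 303117) (nat_lit 2) (.e (nat_lit 196630) (nat_lit 9) (.e (nat_lit 1573) (nat_lit 110) .nil))))) .nil)) 
(.lf (nat_lit 121290) (.g (nat_lit 1424) (.e (nat_lit 7060) (nat_lit 377) (.e (nat_lit 1348) (nat_lit 102) (.e (nat_lit 286761) (nat_lit 13) (.e (nat_lit 393293) (nat_lit 26) .nil)))) .nil))) (.nd (nat_lit 6) 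
(.lf (nat_lit 121258) (.g (nat_lit 860) (.e (nat_lit 7015) (nat_lit 377) (.e (nat_lit 2797) (nat_lit 180) (.e (nat_lit 303115) (nat_lit 1) .nil))) .nil)) 
(.lf (nat_lit 121322) (.g (nat_lit 2780) (.e (nat_lit 7064) (nat_lit 377) (.e (nat_lit 1349) (nat_lit 102) (.e (nat_lit 286733) (nat_lit 2) (.e (nat_lit 90174) (nat_lit 14) (.e (nat_lit 180277) (nat_lit 32) (.e (nat_lit 1235) (nat_lit 91) (.e (nat_lit 90133) (nat_lit 9) (.e (nat_lit 2397) (nat_lit 157) .nil)))))))) (.g (nat_lit 5) .nil .nil))))) (.nd (nat_lit 5) (.nd (nat_lit 6) 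
(.lf (nat_lit 121242) (.g (nat_lit 2165) (.e (nat_lit 6998) (nat_lit 377) (.e (nat_lit 2797) (nat_lit 180) (.e (nat_lit 303117) (nat_lit 2) (.e (nat_lit 196630) (nat_lit 9) (.e (nat_lit 1553) (nat_lit 110) .nil))))) .nil)) 
(.lf (nat_lit 121306) (.g (nat_lit 2761) (.e (nat_lit 7064) (nat_lit 377) (.e (nat_lit 1348) (nat_lit 102) (.e (nat_lit 286735) (nat_lit 3) (.e (nat_lit 98367) (nat_lit 27) (.e (nat_lit 434180) (nat_lit 0) .nil))))) .nil))) (.nd (nat_lit 6) 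
(.lf (nat_lit 121274) (.g (nat_lit 2266) (.e (nat_lit 7060) (nat_lit 377) (.e (nat_lit 1348) (nat_lit 102) (.e (nat_lit 286733) (nat_lit 2) (.e (nat_lit 90172) (nat_lit 14) (.e (nat_lit 180278) (nat_lit 32) .nil))))) .nil)) 
(.lf (nat_lit 121338) (.g (nat_lit 2012) (.e (nat_lit 7064) (nat_lit 377) (.e (nat_lit 1349) (nat_lit 102) (.e (nat_lit 286761) (nat_lit 13) (.e (nat_lit 393234) (nat_lit 17) (.e (nat_lit 7490) (nat_lit 402) .nil))))) .nil)))))) (.nd (nat_lit 3) (.nd (nat_lit 4) (.nd (nat_lit 5) (.nd (nat_lit 6) 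
(.lf (nat_lit 121222) (.g (nat_lit 661) (.e (nat_lit 6989) (nat_lit 377) (.e (nat_lit 2810) (nat_lit 180) (.e (nat_lit 303115) (nat_lit 1) (.e (nat_lit 164177) (nat_lit 154) .nil)))) .nil)) 
(.lf (nat_lit 121286) (.g (nat_lit 525) (.e (nat_lit 7060) (nat_lit 377) (.e (nat_lit 1348) (nat_lit 102) (.e (nat_lit 286761) (nat_lit 13) .nil))) .nil))) (.nd (nat_lit 6) 
(.lf (nat_lit 121254) (.g (nat_lit 3642) (.e (nat_lit 7011) (nat_lit 377) (.e (nat_lit 2797) (nat_lit 180) (.e (nat_lit 303119) (nat_lit 3) (.e (nat_lit 204861) (nat_lit 26) (.e (nat_lit 336186) (nat_lit 11) .nil))))) .nil)) 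
(.lf (nat_lit 121318) (.g (nat_lit 2342) (.e (nat_lit 7064) (nat_lit 377) (.e (nat_lit 1349) (nat_lit 102) (.e (nat_lit 286733) (nat_lit 2) (.e (nat_lit 90173) (nat_lit 14) (.e (nat_lit 180277) (nat_lit 32) (.e (nat_lit 1235) (nat_lit 91) (.e (nat_lit 90133) (nat_lit 9) (.e (nat_lit 2397) (nat_lit 157) .nil)))))))) (.g (nat_lit 5) .nil .nil))))) (.nd (nat_lit 5) (.nd (nat_lit 6) 
(.lf (nat_lit 121238) (.g (nat_lit 493) (.e (nat_lit 6998) (nat_lit 377) (.e (nat_lit 2578) (nat_lit 161) (.e (nat_lit 40964) (nat_lit 0) (.e (nat_lit 1574) (nat_lit 110) (.e (nat_lit 352269) (nat_lit 7) .nil))))) .nil)) 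
(.lf (nat_lit 121302) (.g (nat_lit 2585) (.e (nat_lit 7064) (nat_lit 377) (.e (nat_lit 1348) (nat_lit 102) (.e (nat_lit 286733) (nat_lit 2) (.e (nat_lit 90174) (nat_lit 14) (.e (nat_lit 180277) (nat_lit 32) (.e (nat_lit 1235) (nat_lit 91) (.e (nat_lit 90133) (nat_lit 9) (.e (nat_lit 2400) (nat_lit 157) .nil)))))))) (.g (nat_lit 4) .nil .nil)))) (.nd (nat_lit 6) 
(.lf (nat_lit 121270) (.g (nat_lit 1388) (.e (nat_lit 7058) (nat_lit 377) (.e (nat_lit 1349) (nat_lit 102) (.e (nat_lit 286761) (nat_lit 13) (.e (nat_lit 393234) (nat_lit 17) .nil)))) .nil)) 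
(.lf (nat_lit 121334) (.g (nat_lit 3085) (.e (nat_lit 7064) (nat_lit 377) (.e (nat_lit 1349) (nat_lit 102) (.e (nat_lit 286748) (nat_lit 9) (.e (nat_lit 336389) (nat_lit 27) (.e (nat_lit 426343) (nat_lit 14) (.e (nat_lit 491556) (nat_lit 9) (.e (nat_lit 343808) (nat_lit 15) .nil))))))) (.g (nat_lit 6) .nil .nil)))))) (.nd (nat_lit 4) (.nd (nat_lit 5) (.nd (nat_lit 6) 
(.lf (nat_lit 121230) (.g (nat_lit 2021) (.e (nat_lit 6989) (nat_lit 377) (.e (nat_lit 2810) (nat_lit 180) (.e (nat_lit 303117) (nat_lit 2) (.e (nat_lit 196630) (nat_lit 9) (.e (nat_lit 1595) (nat_lit 111) .nil))))) .nil)) 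
(.lf (nat_lit 121294) (.g (nat_lit 1354) (.e (nat_lit 7060) (nat_lit 377) (.e (nat_lit 1349) (nat_lit 102) (.e (nat_lit 286761) (nat_lit 13) (.e (nat_lit 393234) (nat_lit 17) .nil)))) .nil))) (.nd (nat_lit 6) 
(.lf (nat_lit 121262) (.g (nat_lit 2494) (.e (nat_lit 7016) (nat_lit 377) (.e (nat_lit 2797) (nat_lit 180) (.e (nat_lit 303117) (nat_lit 2) (.e (nat_lit 196630) (nat_lit 9) (.e (nat_lit 1553) (nat_lit 110) .nil))))) .nil)) 
(.lf (nat_lit 121326) (.g (nat_lit 1703) (.e (nat_lit 7064) (nat_lit 377) (.e (nat_lit 1349) (nat_lit 102) (.e (nat_lit 286735) (nat_lit 3) (.e (nat_lit 98373) (nat_lit 29) (.e (nat_lit 450587) (nat_lit 10) .nil))))) .nil)))) (.nd (nat_lit 5) (.nd (nat_lit 6) 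
(.lf (nat_lit 121246) (.g (nat_lit 3311) (.e (nat_lit 6998) (nat_lit 377) (.e (nat_lit 2797) (nat_lit 180) (.e (nat_lit 303119) (nat_lit 3) (.e (nat_lit 204861) (nat_lit 26) (.e (nat_lit 336186) (nat_lit 11) .nil))))) .nil)) 
(.lf (nat_lit 121310) (.g (nat_lit 1582) (.e (nat_lit 7064) (nat_lit 377) (.e (nat_lit 1348) (nat_lit 102) (.e (nat_lit 286761) (nat_lit 13) (.e (nat_lit 393300) (nat_lit 27) .nil)))) .nil))) (.nd (nat_lit 6) 
(.lf (nat_lit 121278) (.g (nat_lit 498) (.e (nat_lit 7060) (nat_lit 377) (.e (nat_lit 1348) (nat_lit 102) (.e (nat_lit 286735) (nat_lit 3) .nil))) .nil)) 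
(.lf (nat_lit 121342) (.g (nat_lit 3069) (.e (nat_lit 7064) (nat_lit 377) (.e (nat_lit 1349) (nat_lit 102) (.e (nat_lit 286761) (nat_lit 13) (.e (nat_lit 393234) (nat_lit 17) (.e (nat_lit 7505) (nat_lit 402) .nil))))) .nil)))))))) (.nd (nat_lit 1) (.nd (nat_lit 2) (.nd (nat_lit 3) (.nd (nat_lit 4) (.nd (nat_lit 5) (.nd (nat_lit 6) 
(.lf (nat_lit 121217) (.g (nat_lit 4401) (.e (nat_lit 6989) (nat_lit 377) (.e (nat_lit 2777) (nat_lit 178) (.e (nat_lit 286735) (nat_lit 3) (.e (nat_lit 98350) (nat_lit 24) (.e (nat_lit 409641) (nat_lit 17) (.e (nat_lit 294930) (nat_lit 3) (.e (nat_lit 106240) (nat_lit 17) .nil))))))) (.g (nat_lit 5) .nil .nil))) 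
(.lf (nat_lit 121281) (.g (nat_lit 1835) (.e (nat_lit 7060) (nat_lit 377) (.e (nat_lit 1348) (nat_lit 102) (.e (nat_lit 286735) (nat_lit 3) (.e (nat_lit 98353) (nat_lit 25) .nil)))) .nil))) (.nd (nat_lit 6) 
(.lf (nat_lit 121249) (.g (nat_lit 2173) (.e (nat_lit 7008) (nat_lit 377) (.e (nat_lit 2797) (nat_lit 180) (.e (nat_lit 303117) (nat_lit 2) (.e (nat_lit 196630) (nat_lit 9) (.e (nat_lit 1553) (nat_lit 110) .nil))))) .nil)) 
(.lf (nat_lit 121313) (.g (nat_lit 2337) (.e (nat_lit 7064) (nat_lit 377) (.e (nat_lit 1348) (nat_lit 102) (.e (nat_lit 286761) (nat_lit 13) (.e (nat_lit 393301) (nat_lit 27) (.e (nat_lit 491552) (nat_lit 9) (.e (nat_lit 343808) (nat_lit 15) .nil)))))) (.g (nat_lit 5) .nil .nil))))) (.nd (nat_lit 5) (.nd (nat_lit 6) 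
(.lf (nat_lit 121233) (.g (nat_lit 1222) (.e (nat_lit 6989) (nat_lit 377) (.e (nat_lit 2810) (nat_lit 180) (.e (nat_lit 303119) (nat_lit 3) (.e (nat_lit 204817) (nat_lit 17) .nil)))) .nil)) 
(.lf (nat_lit 121297) (.g (nat_lit 955) (.e (nat_lit 7061) (nat_lit 377) (.e (nat_lit 1349) (nat_lit 102) (.e (nat_lit 286735) (nat_lit 3) (.e (nat_lit 98373) (nat_lit 29) .nil)))) .nil))) (.nd (nat_lit 6) 
(.lf (nat_lit 121265) (.g (nat_lit 4004) (.e (nat_lit 7046) (nat_lit 377) (.e (nat_lit 1353) (nat_lit 102) (.e (nat_lit 286761) (nat_lit 13) (.e (nat_lit 393301) (nat_lit 27) (.e (nat_lit 491546) (nat_lit 9) .nil))))) .nil)) 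
(.lf (nat_lit 121329) (.g (nat_lit 796) (.e (nat_lit 7064) (nat_lit 377) (.e (nat_lit 1349) (nat_lit 102) (.e (nat_lit 286748) (nat_lit 9) (.e (nat_lit 336389) (nat_lit 27) .nil)))) .nil))))) (.nd (nat_lit 4) (.nd (nat_lit 5) (.nd (nat_lit 6) 
(.lf (nat_lit 121225) (.g (nat_lit 1094) (.e (nat_lit 6989) (nat_lit 377) (.e (nat_lit 2810) (nat_lit 180) (.e (nat_lit 303117) (nat_lit 2) (.e (nat_lit 196628) (nat_lit 9) .nil)))) .nil)) 
(.lf (nat_lit 121289) (.g (nat_lit 1691) (.e (nat_lit 7060) (nat_lit 377) (.e (nat_lit 1348) (nat_lit 102) (.e (nat_lit 286761) (nat_lit 13) (.e (nat_lit 393270) (nat_lit 23) .nil)))) .nil))) (.nd (nat_lit 6) 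
(.lf (nat_lit 121257) (.g (nat_lit 3644) (.e (nat_lit 7014) (nat_lit 377) (.e (nat_lit 2797) (nat_lit 180) (.e (nat_lit 303119) (nat_lit 3) (.e (nat_lit 204861) (nat_lit 26) (.e (nat_lit 336186) (nat_lit 11) .nil))))) .nil)) 
(.lf (nat_lit 121321) (.g (nat_lit 2149) (.e (nat_lit 7064) (nat_lit 377) (.e (nat_lit 1349) (nat_lit 102) (.e (nat_lit 286733) (nat_lit 2) (.e (nat_lit 90173) (nat_lit 14) (.e (nat_lit 180278) (nat_lit 32) (.e (nat_lit 1235) (nat_lit 91) (.e (nat_lit 90133) (nat_lit 9) (.e (nat_lit 2400) (nat_lit 157) .nil)))))))) (.g (nat_lit 4) .nil .nil))))) (.nd (nat_lit 5) (.nd (nat_lit 6) 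
(.lf (nat_lit 121241) (.g (nat_lit 1468) (.e (nat_lit 6998) (nat_lit 377) (.e (nat_lit 2797) (nat_lit 180) (.e (nat_lit 303117) (nat_lit 2) (.e (nat_lit 196627) (nat_lit 9) .nil)))) .nil)) 
(.lf (nat_lit 121305) (.g (nat_lit 2491) (.e (nat_lit 7064) (nat_lit 377) (.e (nat_lit 1348) (nat_lit 102) (.e (nat_lit 286735) (nat_lit 3) (.e (nat_lit 98363) (nat_lit 26) (.e (nat_lit 426318) (nat_lit 12) .nil))))) .nil))) (.nd (nat_lit 6) 
(.lf (nat_lit 121273) (.g (nat_lit 1630) (.e (nat_lit 7060) (nat_lit 377) (.e (nat_lit 1348) (nat_lit 102) (.e (nat_lit 286733) (nat_lit 2) (.e (nat_lit 90169) (nat_lit 13) .nil)))) .nil)) 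
(.lf (nat_lit 121337) (.g (nat_lit 1029) (.e (nat_lit 7064) (nat_lit 377) (.e (nat_lit 1349) (nat_lit 102) (.e (nat_lit 286761) (nat_lit 13) (.e (nat_lit 393234) (nat_lit 17) .nil)))) .nil)))))) (.nd (nat_lit 3) (.nd (nat_lit 4) (.nd (nat_lit 5) (.nd (nat_lit 6) 
(.lf (nat_lit 121221) (.g (nat_lit 2039) (.e (nat_lit 6989) (nat_lit 377) (.e (nat_lit 2810) (nat_lit 180) (.e (nat_lit 303115) (nat_lit 1) (.e (nat_lit 164151) (nat_lit 152) (.e (nat_lit 1217) (nat_lit 90) (.e (nat_lit 81925) (nat_lit 11) (.e (nat_lit 426024) (nat_lit 0) .nil))))))) (.g (nat_lit 0) .nil .nil))) 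
(.lf (nat_lit 121285) (.g (nat_lit 3151) (.e (nat_lit 7060) (nat_lit 377) (.e (nat_lit 1348) (nat_lit 102) (.e (nat_lit 286735) (nat_lit 3) (.e (nat_lit 98367) (nat_lit 27) (.e (nat_lit 434180) (nat_lit 0) .nil))))) .nil))) (.nd (nat_lit 6) 
(.lf (nat_lit 121253) (.g (nat_lit 906) (.e (nat_lit 7011) (nat_lit 377) (.e (nat_lit 2797) (nat_lit 180) (.e (nat_lit 303116) (nat_lit 2) .nil))) .nil)) 
(.lf (nat_lit 121317) (.g (nat_lit 2275) (.e (nat_lit 7064) (nat_lit 377) (.e (nat_lit 1349) (nat_lit 102) (.e (nat_lit 286733) (nat_lit 2) (.e (nat_lit 90172) (nat_lit 14) (.e (nat_lit 180278) (nat_lit 32) .nil))))) .nil)))) (.nd (nat_lit 5) (.nd (nat_lit 6) 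
(.lf (nat_lit 121237) (.g (nat_lit 1129) (.e (nat_lit 6989) (nat_lit 377) (.e (nat_lit 2810) (nat_lit 180) (.e (nat_lit 303119) (nat_lit 3) (.e (nat_lit 204875) (nat_lit 31) .nil)))) .nil)) 
(.lf (nat_lit 121301) (.g (nat_lit 1686) (.e (nat_lit 7064) (nat_lit 377) (.e (nat_lit 1348) (nat_lit 102) (.e (nat_lit 286733) (nat_lit 2) (.e (nat_lit 90173) (nat_lit 14) .nil)))) .nil))) (.nd (nat_lit 6) 
(.lf (nat_lit 121269) (.g (nat_lit 448) (.e (nat_lit 7058) (nat_lit 377) (.e (nat_lit 1349) (nat_lit 102) (.e (nat_lit 286735) (nat_lit 3) .nil))) .nil)) 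
(.lf (nat_lit 121333) (.g (nat_lit 1518) (.e (nat_lit 7064) (nat_lit 377) (.e (nat_lit 1349) (nat_lit 102) (.e (nat_lit 286748) (nat_lit 9) (.e (nat_lit 336389) (nat_lit 27) (.e (nat_lit 426343) (nat_lit 14) .nil))))) .nil))))) (.nd (nat_lit 4) (.nd (nat_lit 5) (.nd (nat_lit 6) 
(.lf (nat_lit 121229) (.g (nat_lit 2060) (.e (nat_lit 6989) (nat_lit 377) (.e (nat_lit 2810) (nat_lit 180) (.e (nat_lit 303117) (nat_lit 2) (.e (nat_lit 196630) (nat_lit 9) (.e (nat_lit 1589) (nat_lit 111) .nil))))) .nil)) 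
(.lf (nat_lit 121293) (.g (nat_lit 4049) (.e (nat_lit 7060) (nat_lit 377) (.e (nat_lit 1348) (nat_lit 102) (.e (nat_lit 286761) (nat_lit 13) (.e (nat_lit 393301) (nat_lit 27) (.e (nat_lit 491546) (nat_lit 9) .nil))))) .nil))) (.nd (nat_lit 6) 
(.lf (nat_lit 121261) (.g (nat_lit 1797) (.e (nat_lit 7016) (nat_lit 377) (.e (nat_lit 2797) (nat_lit 180) (.e (nat_lit 303117) (nat_lit 2) (.e (nat_lit 196627) (nat_lit 9) .nil)))) .nil)) 
(.lf (nat_lit 121325) (.g (nat_lit 275) (.e (nat_lit 7064) (nat_lit 377) (.e (nat_lit 1349) (nat_lit 102) (.e (nat_lit 286735) (nat_lit 3) .nil))) .nil)))) (.nd (nat_lit 5) (.nd (nat_lit 6) 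
(.lf (nat_lit 121245) (.g (nat_lit 2366) (.e (nat_lit 6998) (nat_lit 377) (.e (nat_lit 2797) (nat_lit 180) (.e (nat_lit 303119) (nat_lit 3) (.e (nat_lit 204860) (nat_lit 26) (.e (nat_lit 336186) (nat_lit 11) .nil))))) .nil)) 
(.lf (nat_lit 121309) (.g (nat_lit 2866) (.e (nat_lit 7064) (nat_lit 377) (.e (nat_lit 1348) (nat_lit 102) (.e (nat_lit 286761) (nat_lit 13) (.e (nat_lit 393298) (nat_lit 27) (.e (nat_lit 491549) (nat_lit 9) .nil))))) .nil))) (.nd (nat_lit 6) 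
(.lf (nat_lit 121277) (.g (nat_lit 2355) (.e (nat_lit 7060) (nat_lit 377) (.e (nat_lit 1348) (nat_lit 102) (.e (nat_lit 286733) (nat_lit 2) (.e (nat_lit 90174) (nat_lit 14) (.e (nat_lit 180277) (nat_lit 32) .nil))))) .nil)) 
(.lf (nat_lit 121341) (.g (nat_lit 3243) (.e (nat_lit 7064) (nat_lit 377) (.e (nat_lit 1349) (nat_lit 102) (.e (nat_lit 286761) (nat_lit 13) (.e (nat_lit 393234) (nat_lit 17) (.e (nat_lit 7502) (nat_lit 402) (.e (nat_lit 1512) (nat_lit 108) (.e (nat_lit 336241) (nat_lit 15) .nil))))))) (.g (nat_lit 4) .nil .nil)))))))) 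
(.nd (nat_lit 2) (.nd (nat_lit 3) (.nd (nat_lit 4) (.nd (nat_lit 5) (.nd (nat_lit 6) 
(.lf (nat_lit 121219) (.g (nat_lit 2017) (.e (nat_lit 6989) (nat_lit 377) (.e (nat_lit 2779) (nat_lit 178) (.e (nat_lit 286733) (nat_lit 2) (.e (nat_lit 90165) (nat_lit 12) (.e (nat_lit 171776) (nat_lit 192) (.e (nat_lit 73748) (nat_lit 3) (.e (nat_lit 516102) (nat_lit 0) .nil))))))) (.g (nat_lit 4) .nil .nil))) 
(.lf (nat_lit 121283) (.g (nat_lit 1770) (.e (nat_lit 7060) (nat_lit 377) (.e (nat_lit 1348) (nat_lit 102) (.e (nat_lit 286735) (nat_lit 3) (.e (nat_lit 98359) (nat_lit 26) .nil)))) .nil))) (.nd (nat_lit 6) 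
(.lf (nat_lit 121251) (.g (nat_lit 1451) (.e (nat_lit 7008) (nat_lit 377) (.e (nat_lit 2798) (nat_lit 180) (.e (nat_lit 303117) (nat_lit 2) (.e (nat_lit 196627) (nat_lit 9) .nil)))) .nil)) 
(.lf (nat_lit 121315) (.g (nat_lit 5338) (.e (nat_lit 7064) (nat_lit 377) (.e (nat_lit 1349) (nat_lit 102) (.e (nat_lit 286733) (nat_lit 2) (.e (nat_lit 90169) (nat_lit 13) (.e (nat_lit 172124) (nat_lit 14) (.e (nat_lit 491537) (nat_lit 2) (.e (nat_lit 90133) (nat_lit 9) (.e (nat_lit 2400) (nat_lit 157) .nil)))))))) (.g (nat_lit 0) .nil .nil))))) (.nd (nat_lit 5) (.nd (nat_lit 6) 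
(.lf (nat_lit 121235) (.g (nat_lit 2609) (.e (nat_lit 6989) (nat_lit 377) (.e (nat_lit 2810) (nat_lit 180) (.e (nat_lit 303119) (nat_lit 3) (.e (nat_lit 204863) (nat_lit 27) (.e (nat_lit 352000) (nat_lit 8) (.e (nat_lit 1255) (nat_lit 92) (.e (nat_lit 98323) (nat_lit 17) .nil))))))) (.g (nat_lit 4) .nil .nil))) 
(.lf (nat_lit 121299) (.g (nat_lit 5015) (.e (nat_lit 7064) (nat_lit 377) (.e (nat_lit 1348) (nat_lit 102) (.e (nat_lit 286733) (nat_lit 2) (.e (nat_lit 90169) (nat_lit 13) (.e (nat_lit 172124) (nat_lit 14) (.e (nat_lit 491537) (nat_lit 2) (.e (nat_lit 90133) (nat_lit 9) (.e (nat_lit 2400) (nat_lit 157) .nil)))))))) (.g (nat_lit 7) .nil .nil)))) (.nd (nat_lit 6) 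
(.lf (nat_lit 121267) (.g (nat_lit 599) (.e (nat_lit 7048) (nat_lit 377) (.e (nat_lit 2802) (nat_lit 180) (.e (nat_lit 303115) (nat_lit 1) (.e (nat_lit 164178) (nat_lit 154) .nil)))) .nil)) 
(.lf (nat_lit 121331) (.g (nat_lit 1776) (.e (nat_lit 7064) (nat_lit 377) (.e (nat_lit 1349) (nat_lit 102) (.e (nat_lit 286748) (nat_lit 9) (.e (nat_lit 336389) (nat_lit 27) (.e (nat_lit 426012) (nat_lit 0) (.e (nat_lit 7509) (nat_lit 402) (.e (nat_lit 1515) (nat_lit 108) (.e (nat_lit 336241) (nat_lit 15) .nil)))))))) (.g (nat_lit 5) .nil .nil)))))) 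
(.nd (nat_lit 4) (.nd (nat_lit 5) (.nd (nat_lit 6) 
(.lf (nat_lit 121227) (.g (nat_lit 2037) (.e (nat_lit 6989) (nat_lit 377) (.e (nat_lit 2810) (nat_lit 180) (.e (nat_lit 303117) (nat_lit 2) (.e (nat_lit 196630) (nat_lit 9) (.e (nat_lit 1576) (nat_lit 110) .nil))))) .nil)) 
(.lf (nat_lit 121291) (.g (nat_lit 1284) (.e (nat_lit 7060) (nat_lit 377) (.e (nat_lit 1348) (nat_lit 102) (.e (nat_lit 286761) (nat_lit 13) (.e (nat_lit 393300) (nat_lit 27) .nil)))) .nil))) (.nd (nat_lit 6) 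
(.lf (nat_lit 121259) (.g (nat_lit 1883) (.e (nat_lit 7015) (nat_lit 377) (.e (nat_lit 2797) (nat_lit 180) (.e (nat_lit 303117) (nat_lit 2) (.e (nat_lit 196664) (nat_lit 13) .nil)))) .nil)) 
(.lf (nat_lit 121323) (.g (nat_lit 3402) (.e (nat_lit 7064) (nat_lit 377) (.e (nat_lit 1349) (nat_lit 102) (.e (nat_lit 286733) (nat_lit 2) (.e (nat_lit 90174) (nat_lit 14) (.e (nat_lit 180277) (nat_lit 32) (.e (nat_lit 1235) (nat_lit 91) (.e (nat_lit 90133) (nat_lit 9) (.e (nat_lit 2400) (nat_lit 157) .nil)))))))) (.g (nat_lit 6) .nil .nil))))) (.nd (nat_lit 5) (.nd (nat_lit 6) 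
(.lf (nat_lit 121243) (.g (nat_lit 1541) (.e (nat_lit 6998) (nat_lit 377) (.e (nat_lit 2797) (nat_lit 180) (.e (nat_lit 303117) (nat_lit 2) (.e (nat_lit 196662) (nat_lit 13) .nil)))) .nil)) 
(.lf (nat_lit 121307) (.g (nat_lit 2991) (.e (nat_lit 7064) (nat_lit 377) (.e (nat_lit 1348) (nat_lit 102) (.e (nat_lit 286735) (nat_lit 3) (.e (nat_lit 98373) (nat_lit 29) (.e (nat_lit 450588) (nat_lit 10) (.e (nat_lit 573452) (nat_lit 9) (.e (nat_lit 11) (nat_lit 0) .nil))))))) (.g (nat_lit 6) .nil .nil)))) (.nd (nat_lit 6) 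
(.lf (nat_lit 121275) (.g (nat_lit 1707) (.e (nat_lit 7060) (nat_lit 377) (.e (nat_lit 1348) (nat_lit 102) (.e (nat_lit 286733) (nat_lit 2) (.e (nat_lit 90173) (nat_lit 14) .nil)))) .nil)) 
(.lf (nat_lit 121339) (.g (nat_lit 2658) (.e (nat_lit 7064) (nat_lit 377) (.e (nat_lit 1349) (nat_lit 102) (.e (nat_lit 286761) (nat_lit 13) (.e (nat_lit 393234) (nat_lit 17) (.e (nat_lit 7495) (nat_lit 402) (.e (nat_lit 1413) (nat_lit 108) (.e (nat_lit 336242) (nat_lit 15) .nil))))))) (.g (nat_lit 4) .nil .nil))))))) (.nd (nat_lit 3) (.nd (nat_lit 4) (.nd (nat_lit 5) (.nd (nat_lit 6) 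
(.lf (nat_lit 121223) (.g (nat_lit 1465) (.e (nat_lit 6989) (nat_lit 377) (.e (nat_lit 2810) (nat_lit 180) (.e (nat_lit 303117) (nat_lit 2) (.e (nat_lit 196624) (nat_lit 9) (.e (nat_lit 1577) (nat_lit 110) .nil))))) .nil)) 
(.lf (nat_lit 121287) (.g (nat_lit 1187) (.e (nat_lit 7060) (nat_lit 377) (.e (nat_lit 1348) (nat_lit 102) (.e (nat_lit 286761) (nat_lit 13) (.e (nat_lit 393234) (nat_lit 17) .nil)))) .nil))) (.nd (nat_lit 6) 
(.lf (nat_lit 121255) (.g (nat_lit 2035) (.e (nat_lit 7011) (nat_lit 377) (.e (nat_lit 2798) (nat_lit 180) (.e (nat_lit 303116) (nat_lit 2) (.e (nat_lit 196672) (nat_lit 15) (.e (nat_lit 81954) (nat_lit 23) .nil))))) .nil)) 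
(.lf (nat_lit 121319) (.g (nat_lit 2964) (.e (nat_lit 7064) (nat_lit 377) (.e (nat_lit 1349) (nat_lit 102) (.e (nat_lit 286733) (nat_lit 2) (.e (nat_lit 90173) (nat_lit 14) (.e (nat_lit 180277) (nat_lit 32) (.e (nat_lit 1235) (nat_lit 91) (.e (nat_lit 90133) (nat_lit 9) (.e (nat_lit 2400) (nat_lit 157) .nil)))))))) (.g (nat_lit 6) .nil .nil))))) (.nd (nat_lit 5) (.nd (nat_lit 6) 
(.lf (nat_lit 121239) (.g (nat_lit 1067) (.e (nat_lit 6998) (nat_lit 377) (.e (nat_lit 2578) (nat_lit 161) (.e (nat_lit 40965) (nat_lit 0) (.e (nat_lit 1597) (nat_lit 111) (.e (nat_lit 360477) (nat_lit 11) .nil))))) .nil)) 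
(.lf (nat_lit 121303) (.g (nat_lit 423) (.e (nat_lit 7064) (nat_lit 377) (.e (nat_lit 1348) (nat_lit 102) (.e (nat_lit 286735) (nat_lit 3) .nil))) .nil))) (.nd (nat_lit 6) 
(.lf (nat_lit 121271) (.g (nat_lit 1932) (.e (nat_lit 7058) (nat_lit 377) (.e (nat_lit 1349) (nat_lit 102) (.e (nat_lit 286761) (nat_lit 13) (.e (nat_lit 393234) (nat_lit 17) (.e (nat_lit 7589) (nat_lit 406) .nil))))) .nil)) 
(.lf (nat_lit 121335) (.g (nat_lit 353) (.e (nat_lit 7064) (nat_lit 377) (.e (nat_lit 1349) (nat_lit 102) (.e (nat_lit 286761) (nat_lit 13) .nil))) .nil))))) (.nd (nat_lit 4) (.nd (nat_lit 5) (.nd (nat_lit 6) 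
(.lf (nat_lit 121231) (.g (nat_lit 2063) (.e (nat_lit 6989) (nat_lit 377) (.e (nat_lit 2810) (nat_lit 180) (.e (nat_lit 303117) (nat_lit 2) (.e (nat_lit 196630) (nat_lit 9) (.e (nat_lit 1616) (nat_lit 113) .nil))))) .nil)) 
(.lf (nat_lit 121295) (.g (nat_lit 1432) (.e (nat_lit 7061) (nat_lit 377) (.e (nat_lit 1348) (nat_lit 102) (.e (nat_lit 286761) (nat_lit 13) (.e (nat_lit 393234) (nat_lit 17) .nil)))) .nil))) (.nd (nat_lit 6) 
(.lf (nat_lit 121263) (.g (nat_lit 1600) (.e (nat_lit 7017) (nat_lit 377) (.e (nat_lit 2797) (nat_lit 180) (.e (nat_lit 303115) (nat_lit 1) (.e (nat_lit 164178) (nat_lit 154) .nil)))) .nil)) 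
(.lf (nat_lit 121327) (.g (nat_lit 3486) (.e (nat_lit 7064) (nat_lit 377) (.e (nat_lit 1349) (nat_lit 102) (.e (nat_lit 286735) (nat_lit 3) (.e (nat_lit 98373) (nat_lit 29) (.e (nat_lit 450587) (nat_lit 10) (.e (nat_lit 573448) (nat_lit 9) (.e (nat_lit 4) (nat_lit 0) .nil))))))) (.g (nat_lit 5) .nil .nil))))) (.nd (nat_lit 5) (.nd (nat_lit 6) 
(.lf (nat_lit 121247) (.g (nat_lit 3805) (.e (nat_lit 7008) (nat_lit 377) (.e (nat_lit 2580) (nat_lit 161) (.e (nat_lit 40965) (nat_lit 0) (.e (nat_lit 1582) (nat_lit 111) (.e (nat_lit 360475) (nat_lit 8) (.e (nat_lit 557119) (nat_lit 18) (.e (nat_lit 2798) (nat_lit 180) (.e (nat_lit 303112) (nat_lit 0) .nil)))))))) (.g (nat_lit 8) .nil .nil))) 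
(.lf (nat_lit 121311) (.g (nat_lit 4021) (.e (nat_lit 7064) (nat_lit 377) (.e (nat_lit 1348) (nat_lit 102) (.e (nat_lit 286761) (nat_lit 13) (.e (nat_lit 393301) (nat_lit 27) (.e (nat_lit 491546) (nat_lit 9) .nil))))) .nil))) (.nd (nat_lit 6) 
(.lf (nat_lit 121279) (.g (nat_lit 1739) (.e (nat_lit 7060) (nat_lit 377) (.e (nat_lit 1348) (nat_lit 102) (.e (nat_lit 286735) (nat_lit 3) (.e (nat_lit 98350) (nat_lit 24) .nil)))) .nil)) 
(.lf (nat_lit 121343) (.g (nat_lit 3117) (.e (nat_lit 7064) (nat_lit 377) (.e (nat_lit 1349) (nat_lit 102) (.e (nat_lit 286761) (nat_lit 13) (.e (nat_lit 393234) (nat_lit 17) (.e (nat_lit 7509) (nat_lit 402) .nil))))) .nil)))))))))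

noncomputable def tv1612 : DT := (.nd (nat_lit 0) (.nd (nat_lit 1) (.nd (nat_lit 2) (.nd (nat_lit 3) (.nd (nat_lit 4) (.nd (nat_lit 5) (.nd (nat_lit 6) 
(.lf (nat_lit 121344) (.g (nat_lit 3508) (.e (nat_lit 7064) (nat_lit 377) (.e (nat_lit 1349) (nat_lit 102) (.e (nat_lit 286761) (nat_lit 13) (.e (nat_lit 393234) (nat_lit 17) (.e (nat_lit 7509) (nat_lit 402) (.e (nat_lit 1515) (nat_lit 108) (.e (nat_lit 336241) (nat_lit 15) .nil))))))) (.g (nat_lit 4) .nil .nil))) 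
(.lf (nat_lit 121408) (.g (nat_lit 3585) (.e (nat_lit 7065) (nat_lit 377) (.e (nat_lit 1348) (nat_lit 102) (.e (nat_lit 286735) (nat_lit 3) (.e (nat_lit 98350) (nat_lit 24) (.e (nat_lit 409606) (nat_lit 0) .nil))))) .nil))) (.nd (nat_lit 6) 
(.lf (nat_lit 121376) (.g (nat_lit 1496) (.e (nat_lit 7064) (nat_lit 377) (.e (nat_lit 1368) (nat_lit 103) (.e (nat_lit 294941) (nat_lit 9) (.e (nat_lit 336421) (nat_lit 28) (.e (nat_lit 434179) (nat_lit 0) .nil))))) .nil)) 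
(.lf (nat_lit 121440) (.g (nat_lit 2241) (.e (nat_lit 7065) (nat_lit 377) (.e (nat_lit 1349) (nat_lit 102) (.e (nat_lit 286733) (nat_lit 2) (.e (nat_lit 90172) (nat_lit 14) (.e (nat_lit 188160) (nat_lit 38) .nil))))) .nil)))) (.nd (nat_lit 5) (.nd (nat_lit 6) 
(.lf (nat_lit 121360) (.g (nat_lit 1253) (.e (nat_lit 7064) (nat_lit 377) (.e (nat_lit 1349) (nat_lit 102) (.e (nat_lit 286761) (nat_lit 13) (.e (nat_lit 393298) (nat_lit 27) .nil)))) .nil)) 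
(.lf (nat_lit 121424) (.g (nat_lit 3358) (.e (nat_lit 7065) (nat_lit 377) (.e (nat_lit 1348) (nat_lit 102) (.e (nat_lit 286735) (nat_lit 3) (.e (nat_lit 98373) (nat_lit 29) (.e (nat_lit 450587) (nat_lit 10) (.e (nat_lit 573448) (nat_lit 9) (.e (nat_lit 0) (nat_lit 0) .nil))))))) (.g (nat_lit 5) .nil .nil)))) (.nd (nat_lit 6) 
(.lf (nat_lit 121392) (.g (nat_lit 2819) (.e (nat_lit 7065) (nat_lit 377) (.e (nat_lit 1348) (nat_lit 102) (.e (nat_lit 286735) (nat_lit 3) (.e (nat_lit 98319) (nat_lit 17) (.e (nat_lit 7065) (nat_lit 377) .nil))))) .nil)) 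
(.lf (nat_lit 121456) (.g (nat_lit 3855) (.e (nat_lit 7065) (nat_lit 377) (.e (nat_lit 1349) (nat_lit 102) (.e (nat_lit 286735) (nat_lit 3) (.e (nat_lit 98350) (nat_lit 24) (.e (nat_lit 409602) (nat_lit 0) (.e (nat_lit 5293) (nat_lit 298) (.e (nat_lit 1250) (nat_lit 92) (.e (nat_lit 98319) (nat_lit 17) .nil)))))))) (.g (nat_lit 6) .nil .nil)))))) (.nd (nat_lit 4) (.nd (nat_lit 5) (.nd (nat_lit 6) 
(.lf (nat_lit 121352) (.g (nat_lit 2504) (.e (nat_lit 7064) (nat_lit 377) (.e (nat_lit 1349) (nat_lit 102) (.e (nat_lit 286761) (nat_lit 13) (.e (nat_lit 393234) (nat_lit 17) (.e (nat_lit 7587) (nat_lit 406) (.e (nat_lit 73472) (nat_lit 15) .nil)))))) (.g (nat_lit 5) .nil .nil))) 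
(.lf (nat_lit 121416) (.g (nat_lit 2420) (.e (nat_lit 7065) (nat_lit 377) (.e (nat_lit 1348) (nat_lit 102) (.e (nat_lit 286735) (nat_lit 3) (.e (nat_lit 98363) (nat_lit 26) (.e (nat_lit 425984) (nat_lit 0) .nil))))) .nil))) (.nd (nat_lit 6) 
(.lf (nat_lit 121384) (.g (nat_lit 2571) (.e (nat_lit 7065) (nat_lit 377) (.e (nat_lit 1348) (nat_lit 102) (.e (nat_lit 286733) (nat_lit 2) (.e (nat_lit 90172) (nat_lit 14) (.e (nat_lit 180278) (nat_lit 32) (.e (nat_lit 1253) (nat_lit 92) (.e (nat_lit 98320) (nat_lit 17) .nil))))))) (.g (nat_lit 4) .nil .nil))) 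
(.lf (nat_lit 121448) (.g (nat_lit 1946) (.e (nat_lit 7065) (nat_lit 377) (.e (nat_lit 1349) (nat_lit 102) (.e (nat_lit 286735) (nat_lit 3) (.e (nat_lit 98323) (nat_lit 17) (.e (nat_lit 6989) (nat_lit 377) .nil))))) .nil)))) (.nd (nat_lit 5) (.nd (nat_lit 6) 
(.lf (nat_lit 121368) (.g (nat_lit 3376) (.e (nat_lit 7064) (nat_lit 377) (.e (nat_lit 1349) (nat_lit 102) (.e (nat_lit 286761) (nat_lit 13) (.e (nat_lit 393301) (nat_lit 27) (.e (nat_lit 491546) (nat_lit 9) .nil))))) .nil)) 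
(.lf (nat_lit 121432) (.g (nat_lit 389) (.e (nat_lit 7065) (nat_lit 377) (.e (nat_lit 1349) (nat_lit 102) (.e (nat_lit 286733) (nat_lit 2) .nil))) .nil))) (.nd (nat_lit 6) 
(.lf (nat_lit 121400) (.g (nat_lit 3643) (.e (nat_lit 7065) (nat_lit 377) (.e (nat_lit 1348) (nat_lit 102) (.e (nat_lit 286735) (nat_lit 3) (.e (nat_lit 98350) (nat_lit 24) (.e (nat_lit 409601) (nat_lit 0) .nil))))) .nil)) 
(.lf (nat_lit 121464) (.g (nat_lit 1690) (.e (nat_lit 7065) (nat_lit 377) (.e (nat_lit 1349) (nat_lit 102) (.e (nat_lit 286735) (nat_lit 3) (.e (nat_lit 98352) (nat_lit 25) .nil)))) .nil)))))) (.nd (nat_lit 3) (.nd (nat_lit 4) (.nd (nat_lit 5) (.nd (nat_lit 6) 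
(.lf (nat_lit 121348) (.g (nat_lit 3148) (.e (nat_lit 7064) (nat_lit 377) (.e (nat_lit 1349) (nat_lit 102) (.e (nat_lit 286761) (nat_lit 13) (.e (nat_lit 393234) (nat_lit 17) (.e (nat_lit 7547) (nat_lit 402) .nil))))) .nil)) 
(.lf (nat_lit 121412) (.g (nat_lit 1539) (.e (nat_lit 7065) (nat_lit 377) (.e (nat_lit 1348) (nat_lit 102) (.e (nat_lit 286735) (nat_lit 3) (.e (nat_lit 98353) (nat_lit 25) .nil)))) .nil))) (.nd (nat_lit 6) 
(.lf (nat_lit 121380) (.g (nat_lit 1628) (.e (nat_lit 7065) (nat_lit 377) (.e (nat_lit 1348) (nat_lit 102) (.e (nat_lit 286733) (nat_lit 2) (.e (nat_lit 90171) (nat_lit 14) .nil)))) .nil)) 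
(.lf (nat_lit 121444) (.g (nat_lit 2946) (.e (nat_lit 7065) (nat_lit 377) (.e (nat_lit 1349) (nat_lit 102) (.e (nat_lit 286733) (nat_lit 2) (.e (nat_lit 90174) (nat_lit 14) (.e (nat_lit 180288) (nat_lit 45) (.e (nat_lit 2571) (nat_lit 160) (.e (nat_lit 32798) (nat_lit 14) (.e (nat_lit 2425) (nat_lit 157) .nil)))))))) (.g (nat_lit 4) .nil .nil))))) (.nd (nat_lit 5) (.nd (nat_lit 6) 
(.lf (nat_lit 121364) (.g (nat_lit 4007) (.e (nat_lit 7064) (nat_lit 377) (.e (nat_lit 1349) (nat_lit 102) (.e (nat_lit 286761) (nat_lit 13) (.e (nat_lit 393300) (nat_lit 27) (.e (nat_lit 491549) (nat_lit 9) (.e (nat_lit 336242) (nat_lit 15) .nil)))))) (.g (nat_lit 0) .nil .nil))) 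
(.lf (nat_lit 121428) (.g (nat_lit 1032) (.e (nat_lit 7065) (nat_lit 377) (.e (nat_lit 1348) (nat_lit 102) (.e (nat_lit 286761) (nat_lit 13) (.e (nat_lit 393234) (nat_lit 17) .nil)))) .nil))) (.nd (nat_lit 6) 
(.lf (nat_lit 121396) (.g (nat_lit 2755) (.e (nat_lit 7065) (nat_lit 377) (.e (nat_lit 1348) (nat_lit 102) (.e (nat_lit 286735) (nat_lit 3) (.e (nat_lit 98349) (nat_lit 24) (.e (nat_lit 409602) (nat_lit 0) .nil))))) .nil)) 
(.lf (nat_lit 121460) (.g (nat_lit 3230) (.e (nat_lit 7065) (nat_lit 377) (.e (nat_lit 1349) (nat_lit 102) (.e (nat_lit 286735) (nat_lit 3) (.e (nat_lit 98350) (nat_lit 24) (.e (nat_lit 409603) (nat_lit 0) (.e (nat_lit 5293) (nat_lit 298) (.e (nat_lit 1250) (nat_lit 92) (.e (nat_lit 98320) (nat_lit 17) .nil)))))))) (.g (nat_lit 4) .nil .nil)))))) (.nd (nat_lit 4) (.nd (nat_lit 5) (.nd (nat_lit 6) 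
(.lf (nat_lit 121356) (.g (nat_lit 2619) (.e (nat_lit 7064) (nat_lit 377) (.e (nat_lit 1349) (nat_lit 102) (.e (nat_lit 286761) (nat_lit 13) (.e (nat_lit 393234) (nat_lit 17) (.e (nat_lit 7936) (nat_lit 406) .nil))))) .nil)) 
(.lf (nat_lit 121420) (.g (nat_lit 3229) (.e (nat_lit 7065) (nat_lit 377) (.e (nat_lit 1348) (nat_lit 102) (.e (nat_lit 286735) (nat_lit 3) (.e (nat_lit 98367) (nat_lit 27) (.e (nat_lit 434180) (nat_lit 0) (.e (nat_lit 1253) (nat_lit 92) (.e (nat_lit 98319) (nat_lit 17) .nil))))))) (.g (nat_lit 4) .nil .nil)))) (.nd (nat_lit 6) 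
(.lf (nat_lit 121388) (.g (nat_lit 1462) (.e (nat_lit 7065) (nat_lit 377) (.e (nat_lit 1348) (nat_lit 102) (.e (nat_lit 286733) (nat_lit 2) (.e (nat_lit 90174) (nat_lit 14) .nil)))) .nil)) 
(.lf (nat_lit 121452) (.g (nat_lit 2629) (.e (nat_lit 7065) (nat_lit 377) (.e (nat_lit 1349) (nat_lit 102) (.e (nat_lit 286735) (nat_lit 3) (.e (nat_lit 98349) (nat_lit 24) (.e (nat_lit 409605) (nat_lit 0) .nil))))) .nil)))) (.nd (nat_lit 5) (.nd (nat_lit 6) 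
(.lf (nat_lit 121372) (.g (nat_lit 3579) (.e (nat_lit 7064) (nat_lit 377) (.e (nat_lit 1349) (nat_lit 102) (.e (nat_lit 286761) (nat_lit 13) (.e (nat_lit 393301) (nat_lit 27) (.e (nat_lit 499456) (nat_lit 9) (.e (nat_lit 336241) (nat_lit 15) .nil)))))) (.g (nat_lit 4) .nil .nil))) 
(.lf (nat_lit 121436) (.g (nat_lit 1332) (.e (nat_lit 7065) (nat_lit 377) (.e (nat_lit 1349) (nat_lit 102) (.e (nat_lit 286733) (nat_lit 2) (.e (nat_lit 90172) (nat_lit 14) .nil)))) .nil))) (.nd (nat_lit 6) 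
(.lf (nat_lit 121404) (.g (nat_lit 3286) (.e (nat_lit 7065) (nat_lit 377) (.e (nat_lit 1348) (nat_lit 102) (.e (nat_lit 286735) (nat_lit 3) (.e (nat_lit 98350) (nat_lit 24) (.e (nat_lit 409603) (nat_lit 0) .nil))))) .nil)) 
(.lf (nat_lit 121468) (.g (nat_lit 5426) (.e (nat_lit 7065) (nat_lit 377) (.e (nat_lit 1349) (nat_lit 102) (.e (nat_lit 286735) (nat_lit 3) (.e (nat_lit 98353) (nat_lit 25) (.e (nat_lit 417810) (nat_lit 6) (.e (nat_lit 286735) (nat_lit 3) (.e (nat_lit 98320) (nat_lit 17) .nil))))))) (.g (nat_lit 7) .nil .nil)))))))) 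
(.nd (nat_lit 2) (.nd (nat_lit 3) (.nd (nat_lit 4) (.nd (nat_lit 5) (.nd (nat_lit 6) 
(.lf (nat_lit 121346) (.g (nat_lit 2398) (.e (nat_lit 7064) (nat_lit 377) (.e (nat_lit 1349) (nat_lit 102) (.e (nat_lit 286761) (nat_lit 13) (.e (nat_lit 393234) (nat_lit 17) (.e (nat_lit 7538) (nat_lit 402) .nil))))) .nil)) 
(.lf (nat_lit 121410) (.g (nat_lit 2881) (.e (nat_lit 7065) (nat_lit 377) (.e (nat_lit 1348) (nat_lit 102) (.e (nat_lit 286735) (nat_lit 3) (.e (nat_lit 98350) (nat_lit 24) (.e (nat_lit 417536) (nat_lit 6) (.e (nat_lit 286734) (nat_lit 3) (.e (nat_lit 98320) (nat_lit 17) .nil))))))) (.g (nat_lit 4) .nil .nil)))) (.nd (nat_lit 6) 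
(.lf (nat_lit 121378) (.g (nat_lit 1486) (.e (nat_lit 7065) (nat_lit 377) (.e (nat_lit 1348) (nat_lit 102) (.e (nat_lit 286733) (nat_lit 2) (.e (nat_lit 90169) (nat_lit 13) .nil)))) .nil)) 
(.lf (nat_lit 121442) (.g (nat_lit 2202) (.e (nat_lit 7065) (nat_lit 377) (.e (nat_lit 1349) (nat_lit 102) (.e (nat_lit 286733) (nat_lit 2) (.e (nat_lit 90174) (nat_lit 14) (.e (nat_lit 180275) (nat_lit 32) .nil))))) .nil)))) (.nd (nat_lit 5) (.nd (nat_lit 6) 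
(.lf (nat_lit 121362) (.g (nat_lit 1155) (.e (nat_lit 7064) (nat_lit 377) (.e (nat_lit 1349) (nat_lit 102) (.e (nat_lit 286761) (nat_lit 13) (.e (nat_lit 393300) (nat_lit 27) .nil)))) .nil)) 
(.lf (nat_lit 121426) (.g (nat_lit 3367) (.e (nat_lit 7065) (nat_lit 377) (.e (nat_lit 1348) (nat_lit 102) (.e (nat_lit 286735) (nat_lit 3) (.e (nat_lit 98373) (nat_lit 29) (.e (nat_lit 450588) (nat_lit 10) (.e (nat_lit 573452) (nat_lit 9) (.e (nat_lit 11) (nat_lit 0) .nil))))))) (.g (nat_lit 6) .nil .nil)))) (.nd (nat_lit 6) 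
(.lf (nat_lit 121394) (.g (nat_lit 2969) (.e (nat_lit 7065) (nat_lit 377) (.e (nat_lit 1348) (nat_lit 102) (.e (nat_lit 286735) (nat_lit 3) (.e (nat_lit 98321) (nat_lit 17) (.e (nat_lit 7060) (nat_lit 377) .nil))))) .nil)) 
(.lf (nat_lit 121458) (.g (nat_lit 3507) (.e (nat_lit 7065) (nat_lit 377) (.e (nat_lit 1349) (nat_lit 102) (.e (nat_lit 286735) (nat_lit 3) (.e (nat_lit 98350) (nat_lit 24) (.e (nat_lit 409602) (nat_lit 0) (.e (nat_lit 5389) (nat_lit 301) (.e (nat_lit 57464) (nat_lit 23) (.e (nat_lit 516097) (nat_lit 0) .nil)))))))) (.g (nat_lit 5) .nil .nil)))))) 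
(.nd (nat_lit 4) (.nd (nat_lit 5) (.nd (nat_lit 6) 
(.lf (nat_lit 121354) (.g (nat_lit 2855) (.e (nat_lit 7064) (nat_lit 377) (.e (nat_lit 1349) (nat_lit 102) (.e (nat_lit 286761) (nat_lit 13) (.e (nat_lit 393234) (nat_lit 17) (.e (nat_lit 7589) (nat_lit 406) (.e (nat_lit 65632) (nat_lit 15) .nil)))))) (.g (nat_lit 5) .nil .nil))) 
(.lf (nat_lit 121418) (.g (nat_lit 2988) (.e (nat_lit 7065) (nat_lit 377) (.e (nat_lit 1348) (nat_lit 102) (.e (nat_lit 286735) (nat_lit 3) (.e (nat_lit 98367) (nat_lit 27) (.e (nat_lit 434178) (nat_lit 0) .nil))))) .nil))) (.nd (nat_lit 6) 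
(.lf (nat_lit 121386) (.g (nat_lit 1576) (.e (nat_lit 7065) (nat_lit 377) (.e (nat_lit 1348) (nat_lit 102) (.e (nat_lit 286733) (nat_lit 2) (.e (nat_lit 90173) (nat_lit 14) .nil)))) .nil)) 
(.lf (nat_lit 121450) (.g (nat_lit 1567) (.e (nat_lit 7065) (nat_lit 377) (.e (nat_lit 1349) (nat_lit 102) (.e (nat_lit 286735) (nat_lit 3) (.e (nat_lit 98349) (nat_lit 24) .nil)))) .nil)))) (.nd (nat_lit 5) (.nd (nat_lit 6) 
(.lf (nat_lit 121370) (.g (nat_lit 2341) (.e (nat_lit 7064) (nat_lit 377) (.e (nat_lit 1349) (nat_lit 102) (.e (nat_lit 286761) (nat_lit 13) (.e (nat_lit 393301) (nat_lit 27) (.e (nat_lit 491552) (nat_lit 9) (.e (nat_lit 343808) (nat_lit 15) .nil)))))) (.g (nat_lit 5) .nil .nil))) 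
(.lf (nat_lit 121434) (.g (nat_lit 3225) (.e (nat_lit 7065) (nat_lit 377) (.e (nat_lit 1349) (nat_lit 102) (.e (nat_lit 286733) (nat_lit 2) (.e (nat_lit 90170) (nat_lit 13) (.e (nat_lit 172124) (nat_lit 14) .nil))))) .nil))) (.nd (nat_lit 6) 
(.lf (nat_lit 121402) (.g (nat_lit 2667) (.e (nat_lit 7065) (nat_lit 377) (.e (nat_lit 1348) (nat_lit 102) (.e (nat_lit 286735) (nat_lit 3) (.e (nat_lit 98350) (nat_lit 24) (.e (nat_lit 409602) (nat_lit 0) (.e (nat_lit 5270) (nat_lit 298) (.e (nat_lit 1256) (nat_lit 92) (.e (nat_lit 98320) (nat_lit 17) .nil)))))))) (.g (nat_lit 4) .nil .nil))) 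
(.lf (nat_lit 121466) (.g (nat_lit 2251) (.e (nat_lit 7065) (nat_lit 377) (.e (nat_lit 1349) (nat_lit 102) (.e (nat_lit 286735) (nat_lit 3) (.e (nat_lit 98353) (nat_lit 25) (.e (nat_lit 417794) (nat_lit 0) .nil))))) .nil)))))) (.nd (nat_lit 3) (.nd (nat_lit 4) (.nd (nat_lit 5) (.nd (nat_lit 6) 
(.lf (nat_lit 121350) (.g (nat_lit 2682) (.e (nat_lit 7064) (nat_lit 377) (.e (nat_lit 1349) (nat_lit 102) (.e (nat_lit 286761) (nat_lit 13) (.e (nat_lit 393234) (nat_lit 17) (.e (nat_lit 7565) (nat_lit 402) (.e (nat_lit 1517) (nat_lit 108) (.e (nat_lit 336241) (nat_lit 15) .nil))))))) (.g (nat_lit 4) .nil .nil))) 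
(.lf (nat_lit 121414) (.g (nat_lit 2626) (.e (nat_lit 7065) (nat_lit 377) (.e (nat_lit 1348) (nat_lit 102) (.e (nat_lit 286735) (nat_lit 3) (.e (nat_lit 98353) (nat_lit 25) (.e (nat_lit 417795) (nat_lit 0) .nil))))) .nil))) (.nd (nat_lit 6) 
(.lf (nat_lit 121382) (.g (nat_lit 2245) (.e (nat_lit 7065) (nat_lit 377) (.e (nat_lit 1348) (nat_lit 102) (.e (nat_lit 286733) (nat_lit 2) (.e (nat_lit 90172) (nat_lit 14) (.e (nat_lit 180276) (nat_lit 32) .nil))))) .nil)) 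
(.lf (nat_lit 121446) (.g (nat_lit 5042) (.e (nat_lit 7065) (nat_lit 377) (.e (nat_lit 1349) (nat_lit 102) (.e (nat_lit 286735) (nat_lit 3) (.e (nat_lit 98320) (nat_lit 17) (.e (nat_lit 7065) (nat_lit 377) (.e (nat_lit 1349) (nat_lit 102) (.e (nat_lit 286735) (nat_lit 3) (.e (nat_lit 98320) (nat_lit 17) .nil)))))))) (.g (nat_lit 8) .nil .nil))))) (.nd (nat_lit 5) (.nd (nat_lit 6) 
(.lf (nat_lit 121366) (.g (nat_lit 2805) (.e (nat_lit 7064) (nat_lit 377) (.e (nat_lit 1349) (nat_lit 102) (.e (nat_lit 286761) (nat_lit 13) (.e (nat_lit 393300) (nat_lit 27) (.e (nat_lit 491556) (nat_lit 9) (.e (nat_lit 343808) (nat_lit 15) .nil)))))) (.g (nat_lit 5) .nil .nil))) 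
(.lf (nat_lit 121430) (.g (nat_lit 2055) (.e (nat_lit 7065) (nat_lit 377) (.e (nat_lit 1348) (nat_lit 102) (.e (nat_lit 286761) (nat_lit 13) (.e (nat_lit 393293) (nat_lit 26) (.e (nat_lit 475209) (nat_lit 41) .nil))))) .nil))) (.nd (nat_lit 6) 
(.lf (nat_lit 121398) (.g (nat_lit 1496) (.e (nat_lit 7065) (nat_lit 377) (.e (nat_lit 1348) (nat_lit 102) (.e (nat_lit 286735) (nat_lit 3) (.e (nat_lit 98350) (nat_lit 24) .nil)))) .nil)) 
(.lf (nat_lit 121462) (.g (nat_lit 3244) (.e (nat_lit 7065) (nat_lit 377) (.e (nat_lit 1349) (nat_lit 102) (.e (nat_lit 286735) (nat_lit 3) (.e (nat_lit 98350) (nat_lit 24) (.e (nat_lit 409606) (nat_lit 0) .nil))))) .nil))))) (.nd (nat_lit 4) (.nd (nat_lit 5) (.nd (nat_lit 6) 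
(.lf (nat_lit 121358) (.g (nat_lit 1734) (.e (nat_lit 7064) (nat_lit 377) (.e (nat_lit 1349) (nat_lit 102) (.e (nat_lit 286761) (nat_lit 13) (.e (nat_lit 393237) (nat_lit 17) (.e (nat_lit 7519) (nat_lit 402) .nil))))) .nil)) 
(.lf (nat_lit 121422) (.g (nat_lit 2795) (.e (nat_lit 7065) (nat_lit 377) (.e (nat_lit 1348) (nat_lit 102) (.e (nat_lit 286735) (nat_lit 3) (.e (nat_lit 98367) (nat_lit 27) (.e (nat_lit 442112) (nat_lit 6) .nil))))) .nil))) (.nd (nat_lit 6) 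
(.lf (nat_lit 121390) (.g (nat_lit 2277) (.e (nat_lit 7065) (nat_lit 377) (.e (nat_lit 1348) (nat_lit 102) (.e (nat_lit 286733) (nat_lit 2) (.e (nat_lit 90174) (nat_lit 14) (.e (nat_lit 188160) (nat_lit 38) .nil))))) .nil)) 
(.lf (nat_lit 121454) (.g (nat_lit 3302) (.e (nat_lit 7065) (nat_lit 377) (.e (nat_lit 1349) (nat_lit 102) (.e (nat_lit 286735) (nat_lit 3) (.e (nat_lit 98350) (nat_lit 24) (.e (nat_lit 409601) (nat_lit 0) .nil))))) .nil)))) (.nd (nat_lit 5) (.nd (nat_lit 6) 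
(.lf (nat_lit 121374) (.g (nat_lit 466) (.e (nat_lit 7064) (nat_lit 377) (.e (nat_lit 1368) (nat_lit 103) (.e (nat_lit 294940) (nat_lit 9) .nil))) .nil)) 
(.lf (nat_lit 121438) (.g (nat_lit 2502) (.e (nat_lit 7065) (nat_lit 377) (.e (nat_lit 1349) (nat_lit 102) (.e (nat_lit 286733) (nat_lit 2) (.e (nat_lit 90172) (nat_lit 14) (.e (nat_lit 180278) (nat_lit 32) (.e (nat_lit 1253) (nat_lit 92) (.e (nat_lit 98319) (nat_lit 17) .nil))))))) (.g (nat_lit 4) .nil .nil)))) (.nd (nat_lit 6) 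
(.lf (nat_lit 121406) (.g (nat_lit 3603) (.e (nat_lit 7065) (nat_lit 377) (.e (nat_lit 1348) (nat_lit 102) (.e (nat_lit 286735) (nat_lit 3) (.e (nat_lit 98350) (nat_lit 24) (.e (nat_lit 409603) (nat_lit 0) (.e (nat_lit 5394) (nat_lit 301) (.e (nat_lit 57464) (nat_lit 23) (.e (nat_lit 516097) (nat_lit 0) .nil)))))))) (.g (nat_lit 4) .nil .nil))) 
(.lf (nat_lit 121470) (.g (nat_lit 2490) (.e (nat_lit 7065) (nat_lit 377) (.e (nat_lit 1349) (nat_lit 102) (.e (nat_lit 286735) (nat_lit 3) (.e (nat_lit 98359) (nat_lit 26) (.e (nat_lit 426338) (nat_lit 14) .nil))))) .nil)))))))) (.nd (nat_lit 1) (.nd (nat_lit 2) (.nd (nat_lit 3) (.nd (nat_lit 4) (.nd (nat_lit 5) (.nd (nat_lit 6) 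
(.lf (nat_lit 121345) (.g (nat_lit 3025) (.e (nat_lit 7064) (nat_lit 377) (.e (nat_lit 1349) (nat_lit 102) (.e (nat_lit 286761) (nat_lit 13) (.e (nat_lit 393234) (nat_lit 17) (.e (nat_lit 7522) (nat_lit 402) .nil))))) .nil)) 
(.lf (nat_lit 121409) (.g (nat_lit 2686) (.e (nat_lit 7065) (nat_lit 377) (.e (nat_lit 1348) (nat_lit 102) (.e (nat_lit 286735) (nat_lit 3) (.e (nat_lit 98350) (nat_lit 24) (.e (nat_lit 417536) (nat_lit 6) .nil))))) .nil))) (.nd (nat_lit 6) 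
(.lf (nat_lit 121377) (.g (nat_lit 534) (.e (nat_lit 7065) (nat_lit 377) (.e (nat_lit 1348) (nat_lit 102) (.e (nat_lit 286727) (nat_lit 0) .nil))) .nil)) 
(.lf (nat_lit 121441) (.g (nat_lit 1340) (.e (nat_lit 7065) (nat_lit 377) (.e (nat_lit 1349) (nat_lit 102) (.e (nat_lit 286733) (nat_lit 2) (.e (nat_lit 90174) (nat_lit 14) .nil)))) .nil)))) (.nd (nat_lit 5) (.nd (nat_lit 6) 
(.lf (nat_lit 121361) (.g (nat_lit 3575) (.e (nat_lit 7064) (nat_lit 377) (.e (nat_lit 1349) (nat_lit 102) (.e (nat_lit 286761) (nat_lit 13) (.e (nat_lit 393298) (nat_lit 27) (.e (nat_lit 491550) (nat_lit 9) (.e (nat_lit 336242) (nat_lit 15) .nil)))))) (.g (nat_lit 0) .nil .nil))) 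
(.lf (nat_lit 121425) (.g (nat_lit 4121) (.e (nat_lit 7065) (nat_lit 377) (.e (nat_lit 1348) (nat_lit 102) (.e (nat_lit 286735) (nat_lit 3) (.e (nat_lit 98373) (nat_lit 29) (.e (nat_lit 450587) (nat_lit 10) (.e (nat_lit 573454) (nat_lit 9) (.e (nat_lit 0) (nat_lit 0) .nil))))))) (.g (nat_lit 5) .nil .nil)))) (.nd (nat_lit 6) 
(.lf (nat_lit 121393) (.g (nat_lit 1643) (.e (nat_lit 7065) (nat_lit 377) (.e (nat_lit 1348) (nat_lit 102) (.e (nat_lit 286735) (nat_lit 3) (.e (nat_lit 98320) (nat_lit 17) .nil)))) .nil)) 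
(.lf (nat_lit 121457) (.g (nat_lit 5411) (.e (nat_lit 7065) (nat_lit 377) (.e (nat_lit 1349) (nat_lit 102) (.e (nat_lit 286735) (nat_lit 3) (.e (nat_lit 98350) (nat_lit 24) (.e (nat_lit 409602) (nat_lit 0) (.e (nat_lit 5293) (nat_lit 298) (.e (nat_lit 1250) (nat_lit 92) (.e (nat_lit 98320) (nat_lit 17) .nil)))))))) (.g (nat_lit 8) .nil .nil)))))) (.nd (nat_lit 4) (.nd (nat_lit 5) (.nd (nat_lit 6) 
(.lf (nat_lit 121353) (.g (nat_lit 2726) (.e (nat_lit 7064) (nat_lit 377) (.e (nat_lit 1349) (nat_lit 102) (.e (nat_lit 286761) (nat_lit 13) (.e (nat_lit 393234) (nat_lit 17) (.e (nat_lit 7589) (nat_lit 406) (.e (nat_lit 65631) (nat_lit 15) .nil)))))) (.g (nat_lit 5) .nil .nil))) 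
(.lf (nat_lit 121417) (.g (nat_lit 2375) (.e (nat_lit 7065) (nat_lit 377) (.e (nat_lit 1348) (nat_lit 102) (.e (nat_lit 286735) (nat_lit 3) (.e (nat_lit 98363) (nat_lit 26) (.e (nat_lit 425987) (nat_lit 0) .nil))))) .nil))) (.nd (nat_lit 6) 
(.lf (nat_lit 121385) (.g (nat_lit 2068) (.e (nat_lit 7065) (nat_lit 377) (.e (nat_lit 1348) (nat_lit 102) (.e (nat_lit 286733) (nat_lit 2) (.e (nat_lit 90172) (nat_lit 14) (.e (nat_lit 188160) (nat_lit 38) .nil))))) .nil)) 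
(.lf (nat_lit 121449) (.g (nat_lit 4262) (.e (nat_lit 7065) (nat_lit 377) (.e (nat_lit 1349) (nat_lit 102) (.e (nat_lit 286735) (nat_lit 3) (.e (nat_lit 98323) (nat_lit 17) (.e (nat_lit 6989) (nat_lit 377) (.e (nat_lit 1361) (nat_lit 102) (.e (nat_lit 286735) (nat_lit 3) (.e (nat_lit 98320) (nat_lit 17) .nil)))))))) (.g (nat_lit 7) .nil .nil))))) (.nd (nat_lit 5) (.nd (nat_lit 6) 
(.lf (nat_lit 121369) (.g (nat_lit 3268) (.e (nat_lit 7064) (nat_lit 377) (.e (nat_lit 1349) (nat_lit 102) (.e (nat_lit 286761) (nat_lit 13) (.e (nat_lit 393301) (nat_lit 27) (.e (nat_lit 491547) (nat_lit 9) .nil))))) .nil)) 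
(.lf (nat_lit 121433) (.g (nat_lit 2859) (.e (nat_lit 7065) (nat_lit 377) (.e (nat_lit 1349) (nat_lit 102) (.e (nat_lit 286733) (nat_lit 2) (.e (nat_lit 90169) (nat_lit 13) (.e (nat_lit 172124) (nat_lit 14) (.e (nat_lit 491537) (nat_lit 2) (.e (nat_lit 90133) (nat_lit 9) (.e (nat_lit 2397) (nat_lit 157) .nil)))))))) (.g (nat_lit 5) .nil .nil)))) (.nd (nat_lit 6) 
(.lf (nat_lit 121401) (.g (nat_lit 2259) (.e (nat_lit 7065) (nat_lit 377) (.e (nat_lit 1348) (nat_lit 102) (.e (nat_lit 286735) (nat_lit 3) (.e (nat_lit 98350) (nat_lit 24) (.e (nat_lit 409602) (nat_lit 0) .nil))))) .nil)) 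
(.lf (nat_lit 121465) (.g (nat_lit 1363) (.e (nat_lit 7065) (nat_lit 377) (.e (nat_lit 1349) (nat_lit 102) (.e (nat_lit 286735) (nat_lit 3) (.e (nat_lit 98353) (nat_lit 25) .nil)))) .nil)))))) (.nd (nat_lit 3) (.nd (nat_lit 4) (.nd (nat_lit 5) (.nd (nat_lit 6) 
(.lf (nat_lit 121349) (.g (nat_lit 3035) (.e (nat_lit 7064) (nat_lit 377) (.e (nat_lit 1349) (nat_lit 102) (.e (nat_lit 286761) (nat_lit 13) (.e (nat_lit 393234) (nat_lit 17) (.e (nat_lit 7548) (nat_lit 402) .nil))))) .nil)) 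
(.lf (nat_lit 121413) (.g (nat_lit 2639) (.e (nat_lit 7065) (nat_lit 377) (.e (nat_lit 1348) (nat_lit 102) (.e (nat_lit 286735) (nat_lit 3) (.e (nat_lit 98353) (nat_lit 25) (.e (nat_lit 417794) (nat_lit 0) .nil))))) .nil))) (.nd (nat_lit 6) 
(.lf (nat_lit 121381) (.g (nat_lit 1329) (.e (nat_lit 7065) (nat_lit 377) (.e (nat_lit 1348) (nat_lit 102) (.e (nat_lit 286733) (nat_lit 2) (.e (nat_lit 90172) (nat_lit 14) .nil)))) .nil)) 
(.lf (nat_lit 121445) (.g (nat_lit 2638) (.e (nat_lit 7065) (nat_lit 377) (.e (nat_lit 1349) (nat_lit 102) (.e (nat_lit 286734) (nat_lit 3) (.e (nat_lit 98359) (nat_lit 26) (.e (nat_lit 426338) (nat_lit 14) (.e (nat_lit 491540) (nat_lit 3) (.e (nat_lit 98320) (nat_lit 17) .nil))))))) (.g (nat_lit 4) .nil .nil))))) (.nd (nat_lit 5) (.nd (nat_lit 6) 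
(.lf (nat_lit 121365) (.g (nat_lit 2050) (.e (nat_lit 7064) (nat_lit 377) (.e (nat_lit 1349) (nat_lit 102) (.e (nat_lit 286761) (nat_lit 13) (.e (nat_lit 393300) (nat_lit 27) (.e (nat_lit 491555) (nat_lit 9) .nil))))) .nil)) 
(.lf (nat_lit 121429) (.g (nat_lit 1181) (.e (nat_lit 7065) (nat_lit 377) (.e (nat_lit 1348) (nat_lit 102) (.e (nat_lit 286761) (nat_lit 13) (.e (nat_lit 393293) (nat_lit 26) .nil)))) .nil))) (.nd (nat_lit 6) 
(.lf (nat_lit 121397) (.g (nat_lit 2724) (.e (nat_lit 7065) (nat_lit 377) (.e (nat_lit 1348) (nat_lit 102) (.e (nat_lit 286735) (nat_lit 3) (.e (nat_lit 98349) (nat_lit 24) (.e (nat_lit 409605) (nat_lit 0) .nil))))) .nil)) 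
(.lf (nat_lit 121461) (.g (nat_lit 3100) (.e (nat_lit 7065) (nat_lit 377) (.e (nat_lit 1349) (nat_lit 102) (.e (nat_lit 286735) (nat_lit 3) (.e (nat_lit 98350) (nat_lit 24) (.e (nat_lit 409603) (nat_lit 0) (.e (nat_lit 5394) (nat_lit 301) (.e (nat_lit 57464) (nat_lit 23) (.e (nat_lit 516097) (nat_lit 0) .nil)))))))) (.g (nat_lit 4) .nil .nil)))))) 
(.nd (nat_lit 4) (.nd (nat_lit 5) (.nd (nat_lit 6) 
(.lf (nat_lit 121357) (.g (nat_lit 2697) (.e (nat_lit 7064) (nat_lit 377) (.e (nat_lit 1349) (nat_lit 102) (.e (nat_lit 286761) (nat_lit 13) (.e (nat_lit 393234) (nat_lit 17) (.e (nat_lit 7604) (nat_lit 409) (.e (nat_lit 139008) (nat_lit 15) .nil)))))) (.g (nat_lit 5) .nil .nil))) 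
(.lf (nat_lit 121421) (.g (nat_lit 2795) (.e (nat_lit 7065) (nat_lit 377) (.e (nat_lit 1348) (nat_lit 102) (.e (nat_lit 286735) (nat_lit 3) (.e (nat_lit 98367) (nat_lit 27) (.e (nat_lit 442112) (nat_lit 3) .nil))))) .nil))) (.nd (nat_lit 6) 
(.lf (nat_lit 121389) (.g (nat_lit 2821) (.e (nat_lit 7065) (nat_lit 377) (.e (nat_lit 1348) (nat_lit 102) (.e (nat_lit 286733) (nat_lit 2) (.e (nat_lit 90174) (nat_lit 14) (.e (nat_lit 180277) (nat_lit 32) (.e (nat_lit 1253) (nat_lit 92) (.e (nat_lit 98319) (nat_lit 17) .nil))))))) (.g (nat_lit 4) .nil .nil))) 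
(.lf (nat_lit 121453) (.g (nat_lit 1341) (.e (nat_lit 7065) (nat_lit 377) (.e (nat_lit 1349) (nat_lit 102) (.e (nat_lit 286735) (nat_lit 3) (.e (nat_lit 98350) (nat_lit 24) .nil)))) .nil)))) (.nd (nat_lit 5) (.nd (nat_lit 6) 
(.lf (nat_lit 121373) (.g (nat_lit 465) (.e (nat_lit 7064) (nat_lit 377) (.e (nat_lit 1368) (nat_lit 103) (.e (nat_lit 294939) (nat_lit 9) .nil))) .nil)) 
(.lf (nat_lit 121437) (.g (nat_lit 2345) (.e (nat_lit 7065) (nat_lit 377) (.e (nat_lit 1349) (nat_lit 102) (.e (nat_lit 286733) (nat_lit 2) (.e (nat_lit 90172) (nat_lit 14) (.e (nat_lit 180276) (nat_lit 32) .nil))))) .nil))) (.nd (nat_lit 6) 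
(.lf (nat_lit 121405) (.g (nat_lit 3636) (.e (nat_lit 7065) (nat_lit 377) (.e (nat_lit 1348) (nat_lit 102) (.e (nat_lit 286735) (nat_lit 3) (.e (nat_lit 98350) (nat_lit 24) (.e (nat_lit 409603) (nat_lit 0) (.e (nat_lit 5293) (nat_lit 298) (.e (nat_lit 1250) (nat_lit 92) (.e (nat_lit 98320) (nat_lit 17) .nil)))))))) (.g (nat_lit 4) .nil .nil))) 
(.lf (nat_lit 121469) (.g (nat_lit 2770) (.e (nat_lit 7065) (nat_lit 377) (.e (nat_lit 1349) (nat_lit 102) (.e (nat_lit 286735) (nat_lit 3) (.e (nat_lit 98353) (nat_lit 25) (.e (nat_lit 417811) (nat_lit 6) (.e (nat_lit 286734) (nat_lit 3) (.e (nat_lit 98320) (nat_lit 17) .nil))))))) (.g (nat_lit 4) .nil .nil)))))))) 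
(.nd (nat_lit 2) (.nd (nat_lit 3) (.nd (nat_lit 4) (.nd (nat_lit 5) (.nd (nat_lit 6) 
(.lf (nat_lit 121347) (.g (nat_lit 2916) (.e (nat_lit 7064) (nat_lit 377) (.e (nat_lit 1349) (nat_lit 102) (.e (nat_lit 286761) (nat_lit 13) (.e (nat_lit 393234) (nat_lit 17) (.e (nat_lit 7545) (nat_lit 402) .nil))))) .nil)) 
(.lf (nat_lit 121411) (.g (nat_lit 2687) (.e (nat_lit 7065) (nat_lit 377) (.e (nat_lit 1348) (nat_lit 102) (.e (nat_lit 286735) (nat_lit 3) (.e (nat_lit 98352) (nat_lit 25) (.e (nat_lit 417810) (nat_lit 6) .nil))))) .nil))) (.nd (nat_lit 6) 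
(.lf (nat_lit 121379) (.g (nat_lit 1788) (.e (nat_lit 7065) (nat_lit 377) (.e (nat_lit 1348) (nat_lit 102) (.e (nat_lit 286733) (nat_lit 2) (.e (nat_lit 90170) (nat_lit 13) .nil)))) .nil)) 
(.lf (nat_lit 121443) (.g (nat_lit 2222) (.e (nat_lit 7065) (nat_lit 377) (.e (nat_lit 1349) (nat_lit 102) (.e (nat_lit 286733) (nat_lit 2) (.e (nat_lit 90174) (nat_lit 14) (.e (nat_lit 188160) (nat_lit 32) .nil))))) .nil)))) (.nd (nat_lit 5) (.nd (nat_lit 6) 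
(.lf (nat_lit 121363) (.g (nat_lit 2110) (.e (nat_lit 7064) (nat_lit 377) (.e (nat_lit 1349) (nat_lit 102) (.e (nat_lit 286761) (nat_lit 13) (.e (nat_lit 393300) (nat_lit 27) (.e (nat_lit 491548) (nat_lit 9) .nil))))) .nil)) 
(.lf (nat_lit 121427) (.g (nat_lit 1879) (.e (nat_lit 7065) (nat_lit 377) (.e (nat_lit 1348) (nat_lit 102) (.e (nat_lit 286735) (nat_lit 3) (.e (nat_lit 98377) (nat_lit 30) .nil)))) .nil))) (.nd (nat_lit 6) 
(.lf (nat_lit 121395) (.g (nat_lit 2260) (.e (nat_lit 7065) (nat_lit 377) (.e (nat_lit 1348) (nat_lit 102) (.e (nat_lit 286735) (nat_lit 3) (.e (nat_lit 98325) (nat_lit 17) (.e (nat_lit 7083) (nat_lit 379) .nil))))) .nil)) 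
(.lf (nat_lit 121459) (.g (nat_lit 2881) (.e (nat_lit 7065) (nat_lit 377) (.e (nat_lit 1349) (nat_lit 102) (.e (nat_lit 286735) (nat_lit 3) (.e (nat_lit 98350) (nat_lit 24) (.e (nat_lit 409603) (nat_lit 0) .nil))))) .nil))))) (.nd (nat_lit 4) (.nd (nat_lit 5) (.nd (nat_lit 6) 
(.lf (nat_lit 121355) (.g (nat_lit 2521) (.e (nat_lit 7064) (nat_lit 377) (.e (nat_lit 1349) (nat_lit 102) (.e (nat_lit 286761) (nat_lit 13) (.e (nat_lit 393234) (nat_lit 17) (.e (nat_lit 7589) (nat_lit 406) (.e (nat_lit 73472) (nat_lit 15) .nil)))))) (.g (nat_lit 5) .nil .nil))) 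
(.lf (nat_lit 121419) (.g (nat_lit 3066) (.e (nat_lit 7065) (nat_lit 377) (.e (nat_lit 1348) (nat_lit 102) (.e (nat_lit 286735) (nat_lit 3) (.e (nat_lit 98367) (nat_lit 27) (.e (nat_lit 434180) (nat_lit 0) (.e (nat_lit 1074) (nat_lit 81) (.e (nat_lit 1796) (nat_lit 119) (.e (nat_lit 516098) (nat_lit 0) .nil)))))))) (.g (nat_lit 4) .nil .nil)))) (.nd (nat_lit 6) 
(.lf (nat_lit 121387) (.g (nat_lit 1934) (.e (nat_lit 7065) (nat_lit 377) (.e (nat_lit 1348) (nat_lit 102) (.e (nat_lit 286733) (nat_lit 2) (.e (nat_lit 90173) (nat_lit 14) (.e (nat_lit 180276) (nat_lit 32) .nil))))) .nil)) 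
(.lf (nat_lit 121451) (.g (nat_lit 2660) (.e (nat_lit 7065) (nat_lit 377) (.e (nat_lit 1349) (nat_lit 102) (.e (nat_lit 286735) (nat_lit 3) (.e (nat_lit 98349) (nat_lit 24) (.e (nat_lit 409604) (nat_lit 0) .nil))))) .nil)))) (.nd (nat_lit 5) (.nd (nat_lit 6) 
(.lf (nat_lit 121371) (.g (nat_lit 2933) (.e (nat_lit 7064) (nat_lit 377) (.e (nat_lit 1349) (nat_lit 102) (.e (nat_lit 286761) (nat_lit 13) (.e (nat_lit 393301) (nat_lit 27) (.e (nat_lit 491556) (nat_lit 9) .nil))))) .nil)) 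
(.lf (nat_lit 121435) (.g (nat_lit 3654) (.e (nat_lit 7065) (nat_lit 377) (.e (nat_lit 1349) (nat_lit 102) (.e (nat_lit 286733) (nat_lit 2) (.e (nat_lit 90170) (nat_lit 13) (.e (nat_lit 172126) (nat_lit 14) .nil))))) .nil))) (.nd (nat_lit 6) 
(.lf (nat_lit 121403) (.g (nat_lit 3674) (.e (nat_lit 7065) (nat_lit 377) (.e (nat_lit 1348) (nat_lit 102) (.e (nat_lit 286735) (nat_lit 3) (.e (nat_lit 98350) (nat_lit 24) (.e (nat_lit 409602) (nat_lit 0) (.e (nat_lit 5389) (nat_lit 301) (.e (nat_lit 57464) (nat_lit 23) (.e (nat_lit 516097) (nat_lit 0) .nil)))))))) (.g (nat_lit 5) .nil .nil))) 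
(.lf (nat_lit 121467) (.g (nat_lit 2238) (.e (nat_lit 7065) (nat_lit 377) (.e (nat_lit 1349) (nat_lit 102) (.e (nat_lit 286735) (nat_lit 3) (.e (nat_lit 98353) (nat_lit 25) (.e (nat_lit 417795) (nat_lit 0) .nil))))) .nil)))))) (.nd (nat_lit 3) (.nd (nat_lit 4) (.nd (nat_lit 5) (.nd (nat_lit 6) 
(.lf (nat_lit 121351) (.g (nat_lit 2663) (.e (nat_lit 7064) (nat_lit 377) (.e (nat_lit 1349) (nat_lit 102) (.e (nat_lit 286761) (nat_lit 13) (.e (nat_lit 393234) (nat_lit 17) (.e (nat_lit 7936) (nat_lit 402) (.e (nat_lit 1512) (nat_lit 108) (.e (nat_lit 336241) (nat_lit 15) .nil))))))) (.g (nat_lit 4) .nil .nil))) 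
(.lf (nat_lit 121415) (.g (nat_lit 3125) (.e (nat_lit 7065) (nat_lit 377) (.e (nat_lit 1348) (nat_lit 102) (.e (nat_lit 286735) (nat_lit 3) (.e (nat_lit 98353) (nat_lit 25) (.e (nat_lit 417811) (nat_lit 6) (.e (nat_lit 286734) (nat_lit 3) (.e (nat_lit 98320) (nat_lit 17) .nil))))))) (.g (nat_lit 4) .nil .nil)))) (.nd (nat_lit 6) 
(.lf (nat_lit 121383) (.g (nat_lit 2370) (.e (nat_lit 7065) (nat_lit 377) (.e (nat_lit 1348) (nat_lit 102) (.e (nat_lit 286733) (nat_lit 2) (.e (nat_lit 90172) (nat_lit 14) (.e (nat_lit 180278) (nat_lit 32) (.e (nat_lit 1253) (nat_lit 92) (.e (nat_lit 98319) (nat_lit 17) .nil))))))) (.g (nat_lit 4) .nil .nil))) 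
(.lf (nat_lit 121447) (.g (nat_lit 1492) (.e (nat_lit 7065) (nat_lit 377) (.e (nat_lit 1349) (nat_lit 102) (.e (nat_lit 286735) (nat_lit 3) (.e (nat_lit 98323) (nat_lit 17) .nil)))) .nil)))) (.nd (nat_lit 5) (.nd (nat_lit 6) 
(.lf (nat_lit 121367) (.g (nat_lit 2152) (.e (nat_lit 7064) (nat_lit 377) (.e (nat_lit 1349) (nat_lit 102) (.e (nat_lit 286761) (nat_lit 13) (.e (nat_lit 393300) (nat_lit 27) (.e (nat_lit 499456) (nat_lit 9) .nil))))) .nil)) 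
(.lf (nat_lit 121431) (.g (nat_lit 2159) (.e (nat_lit 7065) (nat_lit 377) (.e (nat_lit 1348) (nat_lit 102) (.e (nat_lit 286761) (nat_lit 13) (.e (nat_lit 393301) (nat_lit 27) (.e (nat_lit 491552) (nat_lit 9) (.e (nat_lit 343808) (nat_lit 15) .nil)))))) (.g (nat_lit 4) .nil .nil)))) (.nd (nat_lit 6) 
(.lf (nat_lit 121399) (.g (nat_lit 3638) (.e (nat_lit 7065) (nat_lit 377) (.e (nat_lit 1348) (nat_lit 102) (.e (nat_lit 286735) (nat_lit 3) (.e (nat_lit 98350) (nat_lit 24) (.e (nat_lit 409600) (nat_lit 0) .nil))))) .nil)) 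
(.lf (nat_lit 121463) (.g (nat_lit 2401) (.e (nat_lit 7065) (nat_lit 377) (.e (nat_lit 1349) (nat_lit 102) (.e (nat_lit 286735) (nat_lit 3) (.e (nat_lit 98350) (nat_lit 24) (.e (nat_lit 417536) (nat_lit 6) (.e (nat_lit 286734) (nat_lit 3) (.e (nat_lit 98320) (nat_lit 17) .nil))))))) (.g (nat_lit 4) .nil .nil)))))) (.nd (nat_lit 4) (.nd (nat_lit 5) (.nd (nat_lit 6) 
(.lf (nat_lit 121359) (.g (nat_lit 1174) (.e (nat_lit 7064) (nat_lit 377) (.e (nat_lit 1349) (nat_lit 102) (.e (nat_lit 286761) (nat_lit 13) (.e (nat_lit 393293) (nat_lit 26) .nil)))) .nil)) 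
(.lf (nat_lit 121423) (.g (nat_lit 2662) (.e (nat_lit 7065) (nat_lit 377) (.e (nat_lit 1348) (nat_lit 102) (.e (nat_lit 286735) (nat_lit 3) (.e (nat_lit 98368) (nat_lit 27) (.e (nat_lit 442112) (nat_lit 3) .nil))))) .nil))) (.nd (nat_lit 6) 
(.lf (nat_lit 121391) (.g (nat_lit 468) (.e (nat_lit 7065) (nat_lit 377) (.e (nat_lit 1348) (nat_lit 102) (.e (nat_lit 286735) (nat_lit 3) .nil))) .nil)) 
(.lf (nat_lit 121455) (.g (nat_lit 2597) (.e (nat_lit 7065) (nat_lit 377) (.e (nat_lit 1349) (nat_lit 102) (.e (nat_lit 286735) (nat_lit 3) (.e (nat_lit 98350) (nat_lit 24) (.e (nat_lit 409602) (nat_lit 0) (.e (nat_lit 5270) (nat_lit 298) (.e (nat_lit 1256) (nat_lit 92) (.e (nat_lit 98320) (nat_lit 17) .nil)))))))) (.g (nat_lit 4) .nil .nil))))) (.nd (nat_lit 5) (.nd (nat_lit 6) 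
(.lf (nat_lit 121375) (.g (nat_lit 1588) (.e (nat_lit 7064) (nat_lit 377) (.e (nat_lit 1368) (nat_lit 103) (.e (nat_lit 294941) (nat_lit 9) (.e (nat_lit 336421) (nat_lit 28) (.e (nat_lit 434178) (nat_lit 0) .nil))))) .nil)) 
(.lf (nat_lit 121439) (.g (nat_lit 2880) (.e (nat_lit 7065) (nat_lit 377) (.e (nat_lit 1349) (nat_lit 102) (.e (nat_lit 286733) (nat_lit 2) (.e (nat_lit 90172) (nat_lit 14) (.e (nat_lit 180278) (nat_lit 32) (.e (nat_lit 1253) (nat_lit 92) (.e (nat_lit 98320) (nat_lit 17) .nil))))))) (.g (nat_lit 4) .nil .nil)))) (.nd (nat_lit 6) 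
(.lf (nat_lit 121407) (.g (nat_lit 3233) (.e (nat_lit 7065) (nat_lit 377) (.e (nat_lit 1348) (nat_lit 102) (.e (nat_lit 286735) (nat_lit 3) (.e (nat_lit 98350) (nat_lit 24) (.e (nat_lit 409604) (nat_lit 0) (.e (nat_lit 5394) (nat_lit 301) (.e (nat_lit 57464) (nat_lit 23) (.e (nat_lit 516097) (nat_lit 0) .nil)))))))) (.g (nat_lit 4) .nil .nil))) 
(.lf (nat_lit 121471) (.g (nat_lit 1153) (.e (nat_lit 7065) (nat_lit 377) (.e (nat_lit 1349) (nat_lit 102) (.e (nat_lit 286735) (nat_lit 3) (.e (nat_lit 98363) (nat_lit 26) .nil)))) .nil)))))))))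

noncomputable def tv1613 : DT := (.nd (nat_lit 0) (.nd (nat_lit 1) (.nd (nat_lit 2) (.nd (nat_lit 3) (.nd (nat_lit 4) (.nd (nat_lit 5) 
(.lf (nat_lit 121472) (.g (nat_lit 2668) (.e (nat_lit 7065) (nat_lit 377) (.e (nat_lit 1349) (nat_lit 102) (.e (nat_lit 286735) (nat_lit 3) (.e (nat_lit 98367) (nat_lit 27) (.e (nat_lit 434178) (nat_lit 0) .nil))))) .nil)) 
(.lf (nat_lit 121504) (.g (nat_lit 2324) (.e (nat_lit 7065) (nat_lit 377) (.e (nat_lit 1349) (nat_lit 102) (.e (nat_lit 286761) (nat_lit 13) (.e (nat_lit 393270) (nat_lit 23) (.e (nat_lit 425998) (nat_lit 0) .nil))))) .nil))) (.nd (nat_lit 5) 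
(.lf (nat_lit 121488) (.g (nat_lit 2013) (.e (nat_lit 7065) (nat_lit 377) (.e (nat_lit 1349) (nat_lit 102) (.e (nat_lit 286748) (nat_lit 9) (.e (nat_lit 336389) (nat_lit 27) (.e (nat_lit 426263) (nat_lit 9) .nil))))) .nil)) 
(.lf (nat_lit 121520) (.g (nat_lit 1349) (.e (nat_lit 7073) (nat_lit 377) (.e (nat_lit 2798) (nat_lit 180) (.e (nat_lit 303116) (nat_lit 2) (.e (nat_lit 196672) (nat_lit 15) .nil)))) .nil)))) (.nd (nat_lit 4) (.nd (nat_lit 5) 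
(.lf (nat_lit 121480) (.g (nat_lit 2010) (.e (nat_lit 7065) (nat_lit 377) (.e (nat_lit 1349) (nat_lit 102) (.e (nat_lit 286748) (nat_lit 9) (.e (nat_lit 336389) (nat_lit 27) (.e (nat_lit 426186) (nat_lit 9) .nil))))) .nil)) 
(.lf (nat_lit 121512) (.g (nat_lit 3982) (.e (nat_lit 7065) (nat_lit 377) (.e (nat_lit 1349) (nat_lit 102) (.e (nat_lit 286761) (nat_lit 13) (.e (nat_lit 393300) (nat_lit 27) (.e (nat_lit 491549) (nat_lit 9) (.e (nat_lit 336257) (nat_lit 15) .nil)))))) (.g (nat_lit 5) .nil .nil)))) (.nd (nat_lit 5) 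
(.lf (nat_lit 121496) (.g (nat_lit 2905) (.e (nat_lit 7065) (nat_lit 377) (.e (nat_lit 1349) (nat_lit 102) (.e (nat_lit 286761) (nat_lit 13) (.e (nat_lit 393234) (nat_lit 17) (.e (nat_lit 7587) (nat_lit 406) (.e (nat_lit 65631) (nat_lit 15) .nil)))))) (.g (nat_lit 5) .nil .nil))) 
(.lf (nat_lit 121528) (.g (nat_lit 2271) (.e (nat_lit 7936) (nat_lit 377) (.e (nat_lit 1348) (nat_lit 102) (.e (nat_lit 286735) (nat_lit 3) (.e (nat_lit 98323) (nat_lit 17) (.e (nat_lit 6989) (nat_lit 377) .nil))))) .nil))))) (.nd (nat_lit 3) (.nd (nat_lit 4) (.nd (nat_lit 5) 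
(.lf (nat_lit 121476) (.g (nat_lit 3534) (.e (nat_lit 7065) (nat_lit 377) (.e (nat_lit 1349) (nat_lit 102) (.e (nat_lit 286735) (nat_lit 3) (.e (nat_lit 98373) (nat_lit 29) (.e (nat_lit 450588) (nat_lit 10) (.e (nat_lit 573448) (nat_lit 9) (.e (nat_lit 0) (nat_lit 0) .nil))))))) (.g (nat_lit 5) .nil .nil))) 
(.lf (nat_lit 121508) (.g (nat_lit 2440) (.e (nat_lit 7065) (nat_lit 377) (.e (nat_lit 1349) (nat_lit 102) (.e (nat_lit 286761) (nat_lit 13) (.e (nat_lit 393293) (nat_lit 26) (.e (nat_lit 475207) (nat_lit 41) (.e (nat_lit 712716) (nat_lit 15) .nil)))))) (.g (nat_lit 4) .nil .nil)))) (.nd (nat_lit 5) 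
(.lf (nat_lit 121492) (.g (nat_lit 2149) (.e (nat_lit 7065) (nat_lit 377) (.e (nat_lit 1349) (nat_lit 102) (.e (nat_lit 286761) (nat_lit 13) (.e (nat_lit 393234) (nat_lit 17) (.e (nat_lit 7065) (nat_lit 377) (.e (nat_lit 1112) (nat_lit 82) (.e (nat_lit 8468) (nat_lit 148) (.e (nat_lit 163842) (nat_lit 0) .nil)))))))) (.g (nat_lit 4) .nil .nil))) 
(.lf (nat_lit 121524) (.g (nat_lit 898) (.e (nat_lit 7936) (nat_lit 377) (.e (nat_lit 1348) (nat_lit 102) (.e (nat_lit 286733) (nat_lit 2) (.e (nat_lit 90174) (nat_lit 14) .nil)))) .nil)))) (.nd (nat_lit 4) (.nd (nat_lit 5) 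
(.lf (nat_lit 121484) (.g (nat_lit 2028) (.e (nat_lit 7065) (nat_lit 377) (.e (nat_lit 1349) (nat_lit 102) (.e (nat_lit 286748) (nat_lit 9) (.e (nat_lit 336389) (nat_lit 27) (.e (nat_lit 426220) (nat_lit 9) .nil))))) .nil)) 
(.lf (nat_lit 121516) (.g (nat_lit 3387) (.e (nat_lit 7065) (nat_lit 377) (.e (nat_lit 1349) (nat_lit 102) (.e (nat_lit 286761) (nat_lit 13) (.e (nat_lit 393301) (nat_lit 27) (.e (nat_lit 491546) (nat_lit 9) .nil))))) .nil))) (.nd (nat_lit 5) 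
(.lf (nat_lit 121500) (.g (nat_lit 1617) (.e (nat_lit 7065) (nat_lit 377) (.e (nat_lit 1349) (nat_lit 102) (.e (nat_lit 286761) (nat_lit 13) (.e (nat_lit 393264) (nat_lit 22) .nil)))) .nil)) 
(.lf (nat_lit 121532) (.g (nat_lit 2109) (.e (nat_lit 7936) (nat_lit 377) (.e (nat_lit 1348) (nat_lit 102) (.e (nat_lit 286735) (nat_lit 3) (.e (nat_lit 98363) (nat_lit 26) (.e (nat_lit 425984) (nat_lit 0) .nil))))) .nil)))))) (.nd (nat_lit 2) (.nd (nat_lit 3) (.nd (nat_lit 4) (.nd (nat_lit 5) 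
(.lf (nat_lit 121474) (.g (nat_lit 2489) (.e (nat_lit 7065) (nat_lit 377) (.e (nat_lit 1349) (nat_lit 102) (.e (nat_lit 286735) (nat_lit 3) (.e (nat_lit 98367) (nat_lit 27) (.e (nat_lit 442112) (nat_lit 6) .nil))))) .nil)) 
(.lf (nat_lit 121506) (.g (nat_lit 1533) (.e (nat_lit 7065) (nat_lit 377) (.e (nat_lit 1349) (nat_lit 102) (.e (nat_lit 286761) (nat_lit 13) (.e (nat_lit 393289) (nat_lit 25) .nil)))) .nil))) (.nd (nat_lit 5) 
(.lf (nat_lit 121490) (.g (nat_lit 1050) (.e (nat_lit 7065) (nat_lit 377) (.e (nat_lit 1349) (nat_lit 102) (.e (nat_lit 286761) (nat_lit 13) (.e (nat_lit 393234) (nat_lit 17) .nil)))) .nil)) 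
(.lf (nat_lit 121522) (.g (nat_lit 631) (.e (nat_lit 7073) (nat_lit 377) (.e (nat_lit 2798) (nat_lit 180) (.e (nat_lit 303149) (nat_lit 15) .nil))) .nil)))) (.nd (nat_lit 4) (.nd (nat_lit 5) 
(.lf (nat_lit 121482) (.g (nat_lit 1978) (.e (nat_lit 7065) (nat_lit 377) (.e (nat_lit 1349) (nat_lit 102) (.e (nat_lit 286748) (nat_lit 9) (.e (nat_lit 336389) (nat_lit 27) (.e (nat_lit 426213) (nat_lit 9) .nil))))) .nil)) 
(.lf (nat_lit 121514) (.g (nat_lit 2371) (.e (nat_lit 7065) (nat_lit 377) (.e (nat_lit 1349) (nat_lit 102) (.e (nat_lit 286761) (nat_lit 13) (.e (nat_lit 393300) (nat_lit 27) (.e (nat_lit 491555) (nat_lit 9) .nil))))) .nil))) (.nd (nat_lit 5) 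
(.lf (nat_lit 121498) (.g (nat_lit 3138) (.e (nat_lit 7065) (nat_lit 377) (.e (nat_lit 1349) (nat_lit 102) (.e (nat_lit 286761) (nat_lit 13) (.e (nat_lit 393234) (nat_lit 17) (.e (nat_lit 7589) (nat_lit 406) (.e (nat_lit 65631) (nat_lit 15) .nil)))))) (.g (nat_lit 5) .nil .nil))) 
(.lf (nat_lit 121530) (.g (nat_lit 2817) (.e (nat_lit 7936) (nat_lit 377) (.e (nat_lit 1348) (nat_lit 102) (.e (nat_lit 286735) (nat_lit 3) (.e (nat_lit 98350) (nat_lit 24) (.e (nat_lit 409603) (nat_lit 0) .nil))))) .nil))))) (.nd (nat_lit 3) (.nd (nat_lit 4) (.nd (nat_lit 5) 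
(.lf (nat_lit 121478) (.g (nat_lit 987) (.e (nat_lit 7065) (nat_lit 377) (.e (nat_lit 1349) (nat_lit 102) (.e (nat_lit 286748) (nat_lit 9) (.e (nat_lit 335928) (nat_lit 0) .nil)))) .nil)) 
(.lf (nat_lit 121510) (.g (nat_lit 1476) (.e (nat_lit 7065) (nat_lit 377) (.e (nat_lit 1349) (nat_lit 102) (.e (nat_lit 286761) (nat_lit 13) (.e (nat_lit 393300) (nat_lit 27) .nil)))) .nil))) (.nd (nat_lit 5) 
(.lf (nat_lit 121494) (.g (nat_lit 3034) (.e (nat_lit 7065) (nat_lit 377) (.e (nat_lit 1349) (nat_lit 102) (.e (nat_lit 286761) (nat_lit 13) (.e (nat_lit 393234) (nat_lit 17) (.e (nat_lit 7303) (nat_lit 388) .nil))))) .nil)) 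
(.lf (nat_lit 121526) (.g (nat_lit 1624) (.e (nat_lit 7936) (nat_lit 377) (.e (nat_lit 1348) (nat_lit 102) (.e (nat_lit 286735) (nat_lit 3) (.e (nat_lit 98319) (nat_lit 17) .nil)))) .nil)))) (.nd (nat_lit 4) (.nd (nat_lit 5) 
(.lf (nat_lit 121486) (.g (nat_lit 2469) (.e (nat_lit 7065) (nat_lit 377) (.e (nat_lit 1349) (nat_lit 102) (.e (nat_lit 286748) (nat_lit 9) (.e (nat_lit 336389) (nat_lit 27) (.e (nat_lit 426222) (nat_lit 9) (.e (nat_lit 426142) (nat_lit 4) (.e (nat_lit 229678) (nat_lit 244) (.e (nat_lit 163842) (nat_lit 0) .nil)))))))) (.g (nat_lit 4) .nil .nil))) 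
(.lf (nat_lit 121518) (.g (nat_lit 1502) (.e (nat_lit 7073) (nat_lit 377) (.e (nat_lit 2797) (nat_lit 180) (.e (nat_lit 303117) (nat_lit 2) (.e (nat_lit 196662) (nat_lit 13) .nil)))) .nil))) (.nd (nat_lit 5) 
(.lf (nat_lit 121502) (.g (nat_lit 1966) (.e (nat_lit 7065) (nat_lit 377) (.e (nat_lit 1349) (nat_lit 102) (.e (nat_lit 286761) (nat_lit 13) (.e (nat_lit 393266) (nat_lit 23) .nil)))) .nil)) 
(.lf (nat_lit 121534) (.g (nat_lit 1096) (.e (nat_lit 7936) (nat_lit 377) (.e (nat_lit 1348) (nat_lit 102) (.e (nat_lit 286748) (nat_lit 9) (.e (nat_lit 336295) (nat_lit 15) (.e (nat_lit 7936) (nat_lit 377) .nil))))) .nil))))))) (.nd (nat_lit 1) (.nd (nat_lit 2) (.nd (nat_lit 3) (.nd (nat_lit 4) (.nd (nat_lit 5) 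
(.lf (nat_lit 121473) (.g (nat_lit 2822) (.e (nat_lit 7065) (nat_lit 377) (.e (nat_lit 1349) (nat_lit 102) (.e (nat_lit 286735) (nat_lit 3) (.e (nat_lit 98367) (nat_lit 27) (.e (nat_lit 442112) (nat_lit 3) (.e (nat_lit 57464) (nat_lit 23) (.e (nat_lit 516097) (nat_lit 0) .nil))))))) (.g (nat_lit 4) .nil .nil))) 
(.lf (nat_lit 121505) (.g (nat_lit 1973) (.e (nat_lit 7065) (nat_lit 377) (.e (nat_lit 1349) (nat_lit 102) (.e (nat_lit 286761) (nat_lit 13) (.e (nat_lit 393275) (nat_lit 23) .nil)))) .nil))) (.nd (nat_lit 5) 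
(.lf (nat_lit 121489) (.g (nat_lit 364) (.e (nat_lit 7065) (nat_lit 377) (.e (nat_lit 1349) (nat_lit 102) (.e (nat_lit 286761) (nat_lit 13) .nil))) .nil)) 
(.lf (nat_lit 121521) (.g (nat_lit 1469) (.e (nat_lit 7073) (nat_lit 377) (.e (nat_lit 2798) (nat_lit 180) (.e (nat_lit 303117) (nat_lit 2) (.e (nat_lit 196664) (nat_lit 13) .nil)))) .nil)))) (.nd (nat_lit 4) (.nd (nat_lit 5) 
(.lf (nat_lit 121481) (.g (nat_lit 2443) (.e (nat_lit 7065) (nat_lit 377) (.e (nat_lit 1349) (nat_lit 102) (.e (nat_lit 286748) (nat_lit 9) (.e (nat_lit 336389) (nat_lit 27) (.e (nat_lit 426204) (nat_lit 9) (.e (nat_lit 426142) (nat_lit 4) (.e (nat_lit 229678) (nat_lit 244) (.e (nat_lit 163842) (nat_lit 0) .nil)))))))) (.g (nat_lit 4) .nil .nil))) 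
(.lf (nat_lit 121513) (.g (nat_lit 2535) (.e (nat_lit 7065) (nat_lit 377) (.e (nat_lit 1349) (nat_lit 102) (.e (nat_lit 286761) (nat_lit 13) (.e (nat_lit 393300) (nat_lit 27) (.e (nat_lit 491552) (nat_lit 9) .nil))))) .nil))) (.nd (nat_lit 5) 
(.lf (nat_lit 121497) (.g (nat_lit 2625) (.e (nat_lit 7065) (nat_lit 377) (.e (nat_lit 1349) (nat_lit 102) (.e (nat_lit 286761) (nat_lit 13) (.e (nat_lit 393234) (nat_lit 17) (.e (nat_lit 7587) (nat_lit 406) (.e (nat_lit 73472) (nat_lit 15) .nil)))))) (.g (nat_lit 5) .nil .nil))) 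
(.lf (nat_lit 121529) (.g (nat_lit 1325) (.e (nat_lit 7936) (nat_lit 377) (.e (nat_lit 1348) (nat_lit 102) (.e (nat_lit 286735) (nat_lit 3) (.e (nat_lit 98325) (nat_lit 17) (.e (nat_lit 7936) (nat_lit 377) .nil))))) .nil))))) (.nd (nat_lit 3) (.nd (nat_lit 4) (.nd (nat_lit 5) 
(.lf (nat_lit 121477) (.g (nat_lit 553) (.e (nat_lit 7065) (nat_lit 377) (.e (nat_lit 1349) (nat_lit 102) (.e (nat_lit 286739) (nat_lit 7) .nil))) .nil)) 
(.lf (nat_lit 121509) (.g (nat_lit 1789) (.e (nat_lit 7065) (nat_lit 377) (.e (nat_lit 1349) (nat_lit 102) (.e (nat_lit 286761) (nat_lit 13) (.e (nat_lit 393293) (nat_lit 26) (.e (nat_lit 475210) (nat_lit 41) .nil))))) .nil))) (.nd (nat_lit 5) 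
(.lf (nat_lit 121493) (.g (nat_lit 2227) (.e (nat_lit 7065) (nat_lit 377) (.e (nat_lit 1349) (nat_lit 102) (.e (nat_lit 286761) (nat_lit 13) (.e (nat_lit 393234) (nat_lit 17) (.e (nat_lit 7065) (nat_lit 377) (.e (nat_lit 1112) (nat_lit 82) (.e (nat_lit 8469) (nat_lit 148) (.e (nat_lit 163841) (nat_lit 0) .nil)))))))) (.g (nat_lit 4) .nil .nil))) 
(.lf (nat_lit 121525) (.g (nat_lit 351) (.e (nat_lit 7936) (nat_lit 377) (.e (nat_lit 1348) (nat_lit 102) (.e (nat_lit 286735) (nat_lit 3) .nil))) .nil)))) (.nd (nat_lit 4) (.nd (nat_lit 5) 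
(.lf (nat_lit 121485) (.g (nat_lit 2028) (.e (nat_lit 7065) (nat_lit 377) (.e (nat_lit 1349) (nat_lit 102) (.e (nat_lit 286748) (nat_lit 9) (.e (nat_lit 336389) (nat_lit 27) (.e (nat_lit 426221) (nat_lit 9) .nil))))) .nil)) 
(.lf (nat_lit 121517) (.g (nat_lit 1660) (.e (nat_lit 7065) (nat_lit 377) (.e (nat_lit 1349) (nat_lit 102) (.e (nat_lit 286761) (nat_lit 13) (.e (nat_lit 393301) (nat_lit 27) (.e (nat_lit 491552) (nat_lit 9) (.e (nat_lit 343808) (nat_lit 15) .nil)))))) (.g (nat_lit 4) .nil .nil)))) (.nd (nat_lit 5) 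
(.lf (nat_lit 121501) (.g (nat_lit 1563) (.e (nat_lit 7065) (nat_lit 377) (.e (nat_lit 1349) (nat_lit 102) (.e (nat_lit 286761) (nat_lit 13) (.e (nat_lit 393265) (nat_lit 22) .nil)))) .nil)) 
(.lf (nat_lit 121533) (.g (nat_lit 1619) (.e (nat_lit 7936) (nat_lit 377) (.e (nat_lit 1348) (nat_lit 102) (.e (nat_lit 286735) (nat_lit 3) (.e (nat_lit 98378) (nat_lit 30) .nil)))) .nil)))))) (.nd (nat_lit 2) (.nd (nat_lit 3) (.nd (nat_lit 4) (.nd (nat_lit 5) 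
(.lf (nat_lit 121475) (.g (nat_lit 4911) (.e (nat_lit 7065) (nat_lit 377) (.e (nat_lit 1349) (nat_lit 102) (.e (nat_lit 286735) (nat_lit 3) (.e (nat_lit 98373) (nat_lit 29) (.e (nat_lit 450587) (nat_lit 10) (.e (nat_lit 573454) (nat_lit 9) (.e (nat_lit 0) (nat_lit 0) .nil))))))) (.g (nat_lit 6) .nil .nil))) 
(.lf (nat_lit 121507) (.g (nat_lit 1301) (.e (nat_lit 7065) (nat_lit 377) (.e (nat_lit 1349) (nat_lit 102) (.e (nat_lit 286761) (nat_lit 13) (.e (nat_lit 393293) (nat_lit 26) .nil)))) .nil))) (.nd (nat_lit 5) 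
(.lf (nat_lit 121491) (.g (nat_lit 2065) (.e (nat_lit 7065) (nat_lit 377) (.e (nat_lit 1349) (nat_lit 102) (.e (nat_lit 286761) (nat_lit 13) (.e (nat_lit 393234) (nat_lit 17) (.e (nat_lit 7065) (nat_lit 377) (.e (nat_lit 1112) (nat_lit 82) (.e (nat_lit 8468) (nat_lit 148) (.e (nat_lit 163841) (nat_lit 0) .nil)))))))) (.g (nat_lit 4) .nil .nil))) 
(.lf (nat_lit 121523) (.g (nat_lit 1323) (.e (nat_lit 7936) (nat_lit 377) (.e (nat_lit 1348) (nat_lit 102) (.e (nat_lit 286733) (nat_lit 2) (.e (nat_lit 90172) (nat_lit 14) (.e (nat_lit 188160) (nat_lit 35) .nil))))) .nil)))) (.nd (nat_lit 4) (.nd (nat_lit 5) 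
(.lf (nat_lit 121483) (.g (nat_lit 2947) (.e (nat_lit 7065) (nat_lit 377) (.e (nat_lit 1349) (nat_lit 102) (.e (nat_lit 286748) (nat_lit 9) (.e (nat_lit 336389) (nat_lit 27) (.e (nat_lit 426213) (nat_lit 9) (.e (nat_lit 426144) (nat_lit 4) (.e (nat_lit 229680) (nat_lit 244) (.e (nat_lit 163842) (nat_lit 0) .nil)))))))) (.g (nat_lit 5) .nil .nil))) 
(.lf (nat_lit 121515) (.g (nat_lit 2062) (.e (nat_lit 7065) (nat_lit 377) (.e (nat_lit 1349) (nat_lit 102) (.e (nat_lit 286761) (nat_lit 13) (.e (nat_lit 393300) (nat_lit 27) (.e (nat_lit 491556) (nat_lit 9) .nil))))) .nil))) (.nd (nat_lit 5) 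
(.lf (nat_lit 121499) (.g (nat_lit 2368) (.e (nat_lit 7065) (nat_lit 377) (.e (nat_lit 1349) (nat_lit 102) (.e (nat_lit 286761) (nat_lit 13) (.e (nat_lit 393234) (nat_lit 17) (.e (nat_lit 7604) (nat_lit 409) (.e (nat_lit 139008) (nat_lit 15) .nil)))))) (.g (nat_lit 4) .nil .nil))) 
(.lf (nat_lit 121531) (.g (nat_lit 2297) (.e (nat_lit 7936) (nat_lit 377) (.e (nat_lit 1348) (nat_lit 102) (.e (nat_lit 286735) (nat_lit 3) (.e (nat_lit 98353) (nat_lit 25) (.e (nat_lit 417793) (nat_lit 0) .nil))))) .nil))))) (.nd (nat_lit 3) (.nd (nat_lit 4) (.nd (nat_lit 5) 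
(.lf (nat_lit 121479) (.g (nat_lit 1996) (.e (nat_lit 7065) (nat_lit 377) (.e (nat_lit 1349) (nat_lit 102) (.e (nat_lit 286748) (nat_lit 9) (.e (nat_lit 336389) (nat_lit 27) (.e (nat_lit 426185) (nat_lit 9) .nil))))) .nil)) 
(.lf (nat_lit 121511) (.g (nat_lit 2381) (.e (nat_lit 7065) (nat_lit 377) (.e (nat_lit 1349) (nat_lit 102) (.e (nat_lit 286761) (nat_lit 13) (.e (nat_lit 393300) (nat_lit 27) (.e (nat_lit 491547) (nat_lit 9) .nil))))) .nil))) (.nd (nat_lit 5) 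
(.lf (nat_lit 121495) (.g (nat_lit 1905) (.e (nat_lit 7065) (nat_lit 377) (.e (nat_lit 1349) (nat_lit 102) (.e (nat_lit 286761) (nat_lit 13) (.e (nat_lit 393234) (nat_lit 17) (.e (nat_lit 7490) (nat_lit 402) .nil))))) .nil)) 
(.lf (nat_lit 121527) (.g (nat_lit 1388) (.e (nat_lit 7936) (nat_lit 377) (.e (nat_lit 1348) (nat_lit 102) (.e (nat_lit 286735) (nat_lit 3) (.e (nat_lit 98320) (nat_lit 17) .nil)))) .nil)))) (.nd (nat_lit 4) (.nd (nat_lit 5) 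
(.lf (nat_lit 121487) (.g (nat_lit 2598) (.e (nat_lit 7065) (nat_lit 377) (.e (nat_lit 1349) (nat_lit 102) (.e (nat_lit 286748) (nat_lit 9) (.e (nat_lit 336389) (nat_lit 27) (.e (nat_lit 426222) (nat_lit 9) (.e (nat_lit 426144) (nat_lit 4) (.e (nat_lit 229680) (nat_lit 244) (.e (nat_lit 163842) (nat_lit 0) .nil)))))))) (.g (nat_lit 4) .nil .nil))) 
(.lf (nat_lit 121519) (.g (nat_lit 1440) (.e (nat_lit 7073) (nat_lit 377) (.e (nat_lit 2797) (nat_lit 180) (.e (nat_lit 303119) (nat_lit 3) (.e (nat_lit 212736) (nat_lit 26) .nil)))) .nil))) (.nd (nat_lit 5) 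
(.lf (nat_lit 121503) (.g (nat_lit 1562) (.e (nat_lit 7065) (nat_lit 377) (.e (nat_lit 1349) (nat_lit 102) (.e (nat_lit 286761) (nat_lit 13) (.e (nat_lit 393270) (nat_lit 23) .nil)))) .nil)) 
(.lf (nat_lit 121535) (.g (nat_lit 624) (.e (nat_lit 7936) (nat_lit 377) (.e (nat_lit 1348) (nat_lit 102) (.e (nat_lit 286748) (nat_lit 9) (.e (nat_lit 336389) (nat_lit 27) .nil)))) .nil))))))))

noncomputable def tv1614 : DT := (.nd (nat_lit 0) (.nd (nat_lit 1) (.nd (nat_lit 2) (.nd (nat_lit 3) (.nd (nat_lit 4) (.nd (nat_lit 5) 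
(.lf (nat_lit 121536) (.g (nat_lit 1433) (.e (nat_lit 7936) (nat_lit 377) (.e (nat_lit 1348) (nat_lit 102) (.e (nat_lit 286759) (nat_lit 12) (.e (nat_lit 392960) (nat_lit 16) .nil)))) .nil)) 
(.lf (nat_lit 121568) (.g (nat_lit 2918) (.e (nat_lit 7936) (nat_lit 377) (.e (nat_lit 1349) (nat_lit 102) (.e (nat_lit 286761) (nat_lit 13) (.e (nat_lit 393301) (nat_lit 27) (.e (nat_lit 491556) (nat_lit 9) .nil))))) .nil))) (.nd (nat_lit 5) 
(.lf (nat_lit 121552) (.g (nat_lit 1059) (.e (nat_lit 7936) (nat_lit 377) (.e (nat_lit 1349) (nat_lit 102) (.e (nat_lit 286735) (nat_lit 3) (.e (nat_lit 98373) (nat_lit 29) (.e (nat_lit 450587) (nat_lit 10) .nil))))) .nil)) 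
(.lf (nat_lit 121584) (.g (nat_lit 3566) (.e (nat_lit 7077) (nat_lit 378) (.e (nat_lit 57896) (nat_lit 273) (.e (nat_lit 57464) (nat_lit 23) (.e (nat_lit 516151) (nat_lit 9) (.e (nat_lit 426286) (nat_lit 10) (.e (nat_lit 434245) (nat_lit 28) (.e (nat_lit 573451) (nat_lit 9) (.e (nat_lit 11) (nat_lit 0) .nil)))))))) (.g (nat_lit 8) .nil .nil))))) (.nd (nat_lit 4) (.nd (nat_lit 5) 
(.lf (nat_lit 121544) (.g (nat_lit 1108) (.e (nat_lit 7936) (nat_lit 377) (.e (nat_lit 1348) (nat_lit 102) (.e (nat_lit 286761) (nat_lit 13) (.e (nat_lit 393298) (nat_lit 27) (.e (nat_lit 491550) (nat_lit 9) .nil))))) .nil)) 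
(.lf (nat_lit 121576) (.g (nat_lit 3290) (.e (nat_lit 7077) (nat_lit 378) (.e (nat_lit 57876) (nat_lit 270) (.e (nat_lit 1256) (nat_lit 92) (.e (nat_lit 98359) (nat_lit 26) (.e (nat_lit 426286) (nat_lit 10) (.e (nat_lit 434248) (nat_lit 28) (.e (nat_lit 573452) (nat_lit 9) (.e (nat_lit 13) (nat_lit 0) .nil)))))))) (.g (nat_lit 0) .nil .nil)))) (.nd (nat_lit 5) 
(.lf (nat_lit 121560) (.g (nat_lit 1270) (.e (nat_lit 7936) (nat_lit 377) (.e (nat_lit 1349) (nat_lit 102) (.e (nat_lit 286761) (nat_lit 13) (.e (nat_lit 393298) (nat_lit 27) .nil)))) .nil)) 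
(.lf (nat_lit 121592) (.g (nat_lit 1379) (.e (nat_lit 7077) (nat_lit 378) (.e (nat_lit 57897) (nat_lit 274) (.e (nat_lit 65653) (nat_lit 27) (.e (nat_lit 426012) (nat_lit 0) (.e (nat_lit 7587) (nat_lit 406) (.e (nat_lit 65632) (nat_lit 15) .nil)))))) (.g (nat_lit 6) .nil .nil)))))) (.nd (nat_lit 3) (.nd (nat_lit 4) (.nd (nat_lit 5) 
(.lf (nat_lit 121540) (.g (nat_lit 1484) (.e (nat_lit 7936) (nat_lit 377) (.e (nat_lit 1348) (nat_lit 102) (.e (nat_lit 286761) (nat_lit 13) (.e (nat_lit 393237) (nat_lit 17) .nil)))) .nil)) 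
(.lf (nat_lit 121572) (.g (nat_lit 1411) (.e (nat_lit 7936) (nat_lit 377) (.e (nat_lit 2798) (nat_lit 180) (.e (nat_lit 303117) (nat_lit 2) (.e (nat_lit 196664) (nat_lit 13) .nil)))) .nil))) (.nd (nat_lit 5) 
(.lf (nat_lit 121556) (.g (nat_lit 2379) (.e (nat_lit 7936) (nat_lit 377) (.e (nat_lit 1349) (nat_lit 102) (.e (nat_lit 286761) (nat_lit 13) (.e (nat_lit 393234) (nat_lit 17) (.e (nat_lit 7491) (nat_lit 402) .nil))))) .nil)) 
(.lf (nat_lit 121588) (.g (nat_lit 490) (.e (nat_lit 7077) (nat_lit 378) (.e (nat_lit 57897) (nat_lit 274) (.e (nat_lit 65632) (nat_lit 15) (.e (nat_lit 7082) (nat_lit 378) (.e (nat_lit 57897) (nat_lit 274) (.e (nat_lit 65632) (nat_lit 15) .nil)))))) (.g (nat_lit 0) .nil .nil))))) (.nd (nat_lit 4) (.nd (nat_lit 5) 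
(.lf (nat_lit 121548) (.g (nat_lit 2902) (.e (nat_lit 7936) (nat_lit 377) (.e (nat_lit 1348) (nat_lit 102) (.e (nat_lit 286761) (nat_lit 13) (.e (nat_lit 393300) (nat_lit 27) (.e (nat_lit 491554) (nat_lit 9) .nil))))) .nil)) 
(.lf (nat_lit 121580) (.g (nat_lit 1838) (.e (nat_lit 7077) (nat_lit 378) (.e (nat_lit 57884) (nat_lit 270) (.e (nat_lit 1656) (nat_lit 115) (.e (nat_lit 393233) (nat_lit 17) (.e (nat_lit 7587) (nat_lit 406) .nil))))) .nil))) (.nd (nat_lit 5) 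
(.lf (nat_lit 121564) (.g (nat_lit 2229) (.e (nat_lit 7936) (nat_lit 377) (.e (nat_lit 1349) (nat_lit 102) (.e (nat_lit 286761) (nat_lit 13) (.e (nat_lit 393300) (nat_lit 27) (.e (nat_lit 491555) (nat_lit 9) .nil))))) .nil)) 
(.lf (nat_lit 121596) (.g (nat_lit 1934) (.e (nat_lit 7077) (nat_lit 378) (.e (nat_lit 57898) (nat_lit 275) (.e (nat_lit 73731) (nat_lit 0) (.e (nat_lit 7266) (nat_lit 384) (.e (nat_lit 57423) (nat_lit 14) (.e (nat_lit 352257) (nat_lit 0) .nil)))))) (.g (nat_lit 6) .nil .nil))))))) (.nd (nat_lit 2) (.nd (nat_lit 3) (.nd (nat_lit 4) (.nd (nat_lit 5) 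
(.lf (nat_lit 121538) (.g (nat_lit 2918) (.e (nat_lit 7936) (nat_lit 377) (.e (nat_lit 1348) (nat_lit 102) (.e (nat_lit 286761) (nat_lit 13) (.e (nat_lit 393234) (nat_lit 17) (.e (nat_lit 7491) (nat_lit 402) .nil))))) .nil)) 
(.lf (nat_lit 121570) (.g (nat_lit 1520) (.e (nat_lit 7936) (nat_lit 377) (.e (nat_lit 2797) (nat_lit 180) (.e (nat_lit 303117) (nat_lit 2) (.e (nat_lit 196630) (nat_lit 9) (.e (nat_lit 1596) (nat_lit 111) .nil))))) .nil))) (.nd (nat_lit 5) 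
(.lf (nat_lit 121554) (.g (nat_lit 1420) (.e (nat_lit 7936) (nat_lit 377) (.e (nat_lit 1349) (nat_lit 102) (.e (nat_lit 286759) (nat_lit 12) (.e (nat_lit 392960) (nat_lit 16) .nil)))) .nil)) 
(.lf (nat_lit 121586) (.g (nat_lit 508) (.e (nat_lit 7077) (nat_lit 378) (.e (nat_lit 57897) (nat_lit 274) (.e (nat_lit 65632) (nat_lit 15) (.e (nat_lit 7077) (nat_lit 378) (.e (nat_lit 57897) (nat_lit 274) (.e (nat_lit 65632) (nat_lit 15) .nil)))))) (.g (nat_lit 0) .nil .nil))))) (.nd (nat_lit 4) (.nd (nat_lit 5) 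
(.lf (nat_lit 121546) (.g (nat_lit 1725) (.e (nat_lit 7936) (nat_lit 377) (.e (nat_lit 1348) (nat_lit 102) (.e (nat_lit 286761) (nat_lit 13) (.e (nat_lit 393300) (nat_lit 27) (.e (nat_lit 491547) (nat_lit 9) .nil))))) .nil)) 
(.lf (nat_lit 121578) (.g (nat_lit 295) (.e (nat_lit 7077) (nat_lit 378) (.e (nat_lit 57878) (nat_lit 270) (.e (nat_lit 1506) (nat_lit 108) .nil))) .nil))) (.nd (nat_lit 5) 
(.lf (nat_lit 121562) (.g (nat_lit 2239) (.e (nat_lit 7936) (nat_lit 377) (.e (nat_lit 1349) (nat_lit 102) (.e (nat_lit 286761) (nat_lit 13) (.e (nat_lit 393300) (nat_lit 27) (.e (nat_lit 491547) (nat_lit 9) .nil))))) .nil)) 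
(.lf (nat_lit 121594) (.g (nat_lit 1307) (.e (nat_lit 7077) (nat_lit 378) (.e (nat_lit 57898) (nat_lit 275) (.e (nat_lit 73729) (nat_lit 0) (.e (nat_lit 7261) (nat_lit 384) (.e (nat_lit 57425) (nat_lit 14) (.e (nat_lit 352257) (nat_lit 0) .nil)))))) (.g (nat_lit 5) .nil .nil)))))) (.nd (nat_lit 3) (.nd (nat_lit 4) (.nd (nat_lit 5) 
(.lf (nat_lit 121542) (.g (nat_lit 1914) (.e (nat_lit 7936) (nat_lit 377) (.e (nat_lit 1348) (nat_lit 102) (.e (nat_lit 286761) (nat_lit 13) (.e (nat_lit 393293) (nat_lit 26) (.e (nat_lit 475209) (nat_lit 41) .nil))))) .nil)) 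
(.lf (nat_lit 121574) (.g (nat_lit 2160) (.e (nat_lit 7936) (nat_lit 377) (.e (nat_lit 2798) (nat_lit 180) (.e (nat_lit 303119) (nat_lit 3) (.e (nat_lit 204861) (nat_lit 26) (.e (nat_lit 336186) (nat_lit 11) .nil))))) .nil))) (.nd (nat_lit 5) 
(.lf (nat_lit 121558) (.g (nat_lit 1847) (.e (nat_lit 7936) (nat_lit 377) (.e (nat_lit 1349) (nat_lit 102) (.e (nat_lit 286761) (nat_lit 13) (.e (nat_lit 393234) (nat_lit 17) (.e (nat_lit 7604) (nat_lit 409) .nil))))) .nil)) 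
(.lf (nat_lit 121590) (.g (nat_lit 563) (.e (nat_lit 7077) (nat_lit 378) (.e (nat_lit 57897) (nat_lit 274) (.e (nat_lit 65652) (nat_lit 27) (.e (nat_lit 425984) (nat_lit 0) (.e (nat_lit 7588) (nat_lit 406) (.e (nat_lit 65632) (nat_lit 15) .nil)))))) (.g (nat_lit 0) .nil .nil))))) (.nd (nat_lit 4) (.nd (nat_lit 5) 
(.lf (nat_lit 121550) (.g (nat_lit 1660) (.e (nat_lit 7936) (nat_lit 377) (.e (nat_lit 1348) (nat_lit 102) (.e (nat_lit 286761) (nat_lit 13) (.e (nat_lit 393300) (nat_lit 27) (.e (nat_lit 491556) (nat_lit 9) .nil))))) .nil)) 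
(.lf (nat_lit 121582) (.g (nat_lit 2693) (.e (nat_lit 7077) (nat_lit 378) (.e (nat_lit 57884) (nat_lit 270) (.e (nat_lit 1656) (nat_lit 115) (.e (nat_lit 393299) (nat_lit 27) (.e (nat_lit 491552) (nat_lit 9) .nil))))) .nil))) (.nd (nat_lit 5) 
(.lf (nat_lit 121566) (.g (nat_lit 1025) (.e (nat_lit 7936) (nat_lit 377) (.e (nat_lit 1349) (nat_lit 102) (.e (nat_lit 286761) (nat_lit 13) (.e (nat_lit 393301) (nat_lit 27) .nil)))) .nil)) 
(.lf (nat_lit 121598) (.g (nat_lit 715) (.e (nat_lit 7077) (nat_lit 378) (.e (nat_lit 57898) (nat_lit 275) (.e (nat_lit 73772) (nat_lit 24) (.e (nat_lit 761869) (nat_lit 5) (.e (nat_lit 1558) (nat_lit 110) (.e (nat_lit 352257) (nat_lit 0) .nil)))))) (.g (nat_lit 5) .nil .nil)))))))) (.nd (nat_lit 1) (.nd (nat_lit 2) (.nd (nat_lit 3) (.nd (nat_lit 4) (.nd (nat_lit 5) 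
(.lf (nat_lit 121537) (.g (nat_lit 432) (.e (nat_lit 7936) (nat_lit 377) (.e (nat_lit 1348) (nat_lit 102) (.e (nat_lit 286761) (nat_lit 13) .nil))) .nil)) 
(.lf (nat_lit 121569) (.g (nat_lit 1580) (.e (nat_lit 7936) (nat_lit 377) (.e (nat_lit 2797) (nat_lit 180) (.e (nat_lit 303117) (nat_lit 2) (.e (nat_lit 196630) (nat_lit 9) (.e (nat_lit 1553) (nat_lit 110) .nil))))) .nil))) (.nd (nat_lit 5) 
(.lf (nat_lit 121553) (.g (nat_lit 1274) (.e (nat_lit 7936) (nat_lit 377) (.e (nat_lit 1349) (nat_lit 102) (.e (nat_lit 286748) (nat_lit 9) (.e (nat_lit 336295) (nat_lit 15) (.e (nat_lit 7936) (nat_lit 377) .nil))))) .nil)) 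
(.lf (nat_lit 121585) (.g (nat_lit 1325) (.e (nat_lit 7077) (nat_lit 378) (.e (nat_lit 57897) (nat_lit 274) (.e (nat_lit 65565) (nat_lit 1) (.e (nat_lit 57684) (nat_lit 155) (.e (nat_lit 122914) (nat_lit 14) (.e (nat_lit 352257) (nat_lit 0) .nil)))))) (.g (nat_lit 6) .nil .nil))))) (.nd (nat_lit 4) (.nd (nat_lit 5) 
(.lf (nat_lit 121545) (.g (nat_lit 2477) (.e (nat_lit 7936) (nat_lit 377) (.e (nat_lit 1348) (nat_lit 102) (.e (nat_lit 286761) (nat_lit 13) (.e (nat_lit 393300) (nat_lit 27) (.e (nat_lit 491546) (nat_lit 9) .nil))))) .nil)) 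
(.lf (nat_lit 121577) (.g (nat_lit 3271) (.e (nat_lit 7077) (nat_lit 378) (.e (nat_lit 57876) (nat_lit 270) (.e (nat_lit 1256) (nat_lit 92) (.e (nat_lit 98373) (nat_lit 29) (.e (nat_lit 450588) (nat_lit 10) (.e (nat_lit 573457) (nat_lit 9) (.e (nat_lit 13) (nat_lit 0) .nil))))))) (.g (nat_lit 6) .nil .nil)))) (.nd (nat_lit 5) 
(.lf (nat_lit 121561) (.g (nat_lit 2120) (.e (nat_lit 7936) (nat_lit 377) (.e (nat_lit 1349) (nat_lit 102) (.e (nat_lit 286761) (nat_lit 13) (.e (nat_lit 393300) (nat_lit 27) (.e (nat_lit 491546) (nat_lit 9) .nil))))) .nil)) 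
(.lf (nat_lit 121593) (.g (nat_lit 1992) (.e (nat_lit 7077) (nat_lit 378) (.e (nat_lit 57897) (nat_lit 274) (.e (nat_lit 65653) (nat_lit 27) (.e (nat_lit 426343) (nat_lit 14) (.e (nat_lit 491552) (nat_lit 9) (.e (nat_lit 336250) (nat_lit 15) .nil)))))) (.g (nat_lit 0) .nil .nil)))))) (.nd (nat_lit 3) (.nd (nat_lit 4) (.nd (nat_lit 5) 
(.lf (nat_lit 121541) (.g (nat_lit 1206) (.e (nat_lit 7936) (nat_lit 377) (.e (nat_lit 1348) (nat_lit 102) (.e (nat_lit 286761) (nat_lit 13) (.e (nat_lit 393264) (nat_lit 22) .nil)))) .nil)) 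
(.lf (nat_lit 121573) (.g (nat_lit 2002) (.e (nat_lit 7936) (nat_lit 377) (.e (nat_lit 2798) (nat_lit 180) (.e (nat_lit 303119) (nat_lit 3) (.e (nat_lit 204861) (nat_lit 26) (.e (nat_lit 336185) (nat_lit 11) .nil))))) .nil))) (.nd (nat_lit 5) 
(.lf (nat_lit 121557) (.g (nat_lit 1247) (.e (nat_lit 7936) (nat_lit 377) (.e (nat_lit 1349) (nat_lit 102) (.e (nat_lit 286761) (nat_lit 13) (.e (nat_lit 393234) (nat_lit 17) (.e (nat_lit 7587) (nat_lit 406) .nil))))) .nil)) 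
(.lf (nat_lit 121589) (.g (nat_lit 875) (.e (nat_lit 7077) (nat_lit 378) (.e (nat_lit 57897) (nat_lit 274) (.e (nat_lit 65633) (nat_lit 15) (.e (nat_lit 7088) (nat_lit 379) (.e (nat_lit 123213) (nat_lit 274) (.e (nat_lit 65632) (nat_lit 15) .nil)))))) (.g (nat_lit 0) .nil .nil))))) (.nd (nat_lit 4) (.nd (nat_lit 5) 
(.lf (nat_lit 121549) (.g (nat_lit 1957) (.e (nat_lit 7936) (nat_lit 377) (.e (nat_lit 1348) (nat_lit 102) (.e (nat_lit 286761) (nat_lit 13) (.e (nat_lit 393300) (nat_lit 27) (.e (nat_lit 491555) (nat_lit 9) .nil))))) .nil)) 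
(.lf (nat_lit 121581) (.g (nat_lit 1806) (.e (nat_lit 7077) (nat_lit 378) (.e (nat_lit 57884) (nat_lit 270) (.e (nat_lit 1656) (nat_lit 115) (.e (nat_lit 393233) (nat_lit 17) (.e (nat_lit 7936) (nat_lit 406) .nil))))) .nil))) (.nd (nat_lit 5) 
(.lf (nat_lit 121565) (.g (nat_lit 1920) (.e (nat_lit 7936) (nat_lit 377) (.e (nat_lit 1349) (nat_lit 102) (.e (nat_lit 286761) (nat_lit 13) (.e (nat_lit 393300) (nat_lit 27) (.e (nat_lit 491556) (nat_lit 9) .nil))))) .nil)) 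
(.lf (nat_lit 121597) (.g (nat_lit 513) (.e (nat_lit 7077) (nat_lit 378) (.e (nat_lit 57898) (nat_lit 275) (.e (nat_lit 73772) (nat_lit 24) (.e (nat_lit 761868) (nat_lit 5) (.e (nat_lit 1558) (nat_lit 110) (.e (nat_lit 352257) (nat_lit 0) .nil)))))) (.g (nat_lit 5) .nil .nil))))))) (.nd (nat_lit 2) (.nd (nat_lit 3) (.nd (nat_lit 4) (.nd (nat_lit 5) 
(.lf (nat_lit 121539) (.g (nat_lit 2544) (.e (nat_lit 7936) (nat_lit 377) (.e (nat_lit 1348) (nat_lit 102) (.e (nat_lit 286761) (nat_lit 13) (.e (nat_lit 393234) (nat_lit 17) (.e (nat_lit 7604) (nat_lit 409) .nil))))) .nil)) 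
(.lf (nat_lit 121571) (.g (nat_lit 1512) (.e (nat_lit 7936) (nat_lit 377) (.e (nat_lit 2798) (nat_lit 180) (.e (nat_lit 303117) (nat_lit 2) (.e (nat_lit 196663) (nat_lit 13) .nil)))) .nil))) (.nd (nat_lit 5) 
(.lf (nat_lit 121555) (.g (nat_lit 424) (.e (nat_lit 7936) (nat_lit 377) (.e (nat_lit 1349) (nat_lit 102) (.e (nat_lit 286761) (nat_lit 13) .nil))) .nil)) 
(.lf (nat_lit 121587) (.g (nat_lit 537) (.e (nat_lit 7077) (nat_lit 378) (.e (nat_lit 57897) (nat_lit 274) (.e (nat_lit 65632) (nat_lit 15) (.e (nat_lit 7081) (nat_lit 378) (.e (nat_lit 57897) (nat_lit 274) (.e (nat_lit 65632) (nat_lit 15) .nil)))))) (.g (nat_lit 0) .nil .nil))))) (.nd (nat_lit 4) (.nd (nat_lit 5) 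
(.lf (nat_lit 121547) (.g (nat_lit 1832) (.e (nat_lit 7936) (nat_lit 377) (.e (nat_lit 1348) (nat_lit 102) (.e (nat_lit 286761) (nat_lit 13) (.e (nat_lit 393300) (nat_lit 27) (.e (nat_lit 491549) (nat_lit 9) .nil))))) .nil)) 
(.lf (nat_lit 121579) (.g (nat_lit 418) (.e (nat_lit 7077) (nat_lit 378) (.e (nat_lit 57884) (nat_lit 270) (.e (nat_lit 1544) (nat_lit 109) .nil))) .nil))) (.nd (nat_lit 5) 
(.lf (nat_lit 121563) (.g (nat_lit 2181) (.e (nat_lit 7936) (nat_lit 377) (.e (nat_lit 1349) (nat_lit 102) (.e (nat_lit 286761) (nat_lit 13) (.e (nat_lit 393300) (nat_lit 27) (.e (nat_lit 491549) (nat_lit 9) .nil))))) .nil)) 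
(.lf (nat_lit 121595) (.g (nat_lit 2133) (.e (nat_lit 7077) (nat_lit 378) (.e (nat_lit 57898) (nat_lit 275) (.e (nat_lit 73729) (nat_lit 0) (.e (nat_lit 7265) (nat_lit 384) (.e (nat_lit 57424) (nat_lit 14) (.e (nat_lit 352257) (nat_lit 0) .nil)))))) (.g (nat_lit 6) .nil .nil)))))) (.nd (nat_lit 3) (.nd (nat_lit 4) (.nd (nat_lit 5) 
(.lf (nat_lit 121543) (.g (nat_lit 2536) (.e (nat_lit 7936) (nat_lit 377) (.e (nat_lit 1348) (nat_lit 102) (.e (nat_lit 286761) (nat_lit 13) (.e (nat_lit 393298) (nat_lit 27) (.e (nat_lit 491549) (nat_lit 9) .nil))))) .nil)) 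
(.lf (nat_lit 121575) (.g (nat_lit 4290) (.e (nat_lit 7077) (nat_lit 378) (.e (nat_lit 57876) (nat_lit 270) (.e (nat_lit 1239) (nat_lit 91) (.e (nat_lit 90170) (nat_lit 13) (.e (nat_lit 172106) (nat_lit 10) (.e (nat_lit 434244) (nat_lit 28) (.e (nat_lit 573451) (nat_lit 9) (.e (nat_lit 11) (nat_lit 0) .nil)))))))) (.g (nat_lit 8) .nil .nil)))) (.nd (nat_lit 5) 
(.lf (nat_lit 121559) (.g (nat_lit 1859) (.e (nat_lit 7936) (nat_lit 377) (.e (nat_lit 1349) (nat_lit 102) (.e (nat_lit 286761) (nat_lit 13) (.e (nat_lit 393293) (nat_lit 26) (.e (nat_lit 475209) (nat_lit 41) .nil))))) .nil)) 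
(.lf (nat_lit 121591) (.g (nat_lit 512) (.e (nat_lit 7077) (nat_lit 378) (.e (nat_lit 57897) (nat_lit 274) (.e (nat_lit 65652) (nat_lit 27) (.e (nat_lit 425989) (nat_lit 0) (.e (nat_lit 7588) (nat_lit 406) (.e (nat_lit 65632) (nat_lit 15) .nil)))))) (.g (nat_lit 0) .nil .nil))))) (.nd (nat_lit 4) (.nd (nat_lit 5) 
(.lf (nat_lit 121551) (.g (nat_lit 3570) (.e (nat_lit 7936) (nat_lit 377) (.e (nat_lit 1348) (nat_lit 102) (.e (nat_lit 286761) (nat_lit 13) (.e (nat_lit 393301) (nat_lit 27) (.e (nat_lit 491546) (nat_lit 9) .nil))))) .nil)) 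
(.lf (nat_lit 121583) (.g (nat_lit 2401) (.e (nat_lit 7077) (nat_lit 378) (.e (nat_lit 57884) (nat_lit 270) (.e (nat_lit 1656) (nat_lit 115) (.e (nat_lit 393300) (nat_lit 27) (.e (nat_lit 491552) (nat_lit 9) (.e (nat_lit 336248) (nat_lit 15) .nil)))))) (.g (nat_lit 4) .nil .nil)))) (.nd (nat_lit 5) 
(.lf (nat_lit 121567) (.g (nat_lit 3624) (.e (nat_lit 7936) (nat_lit 377) (.e (nat_lit 1349) (nat_lit 102) (.e (nat_lit 286761) (nat_lit 13) (.e (nat_lit 393301) (nat_lit 27) (.e (nat_lit 491546) (nat_lit 9) .nil))))) .nil)) 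
(.lf (nat_lit 121599) (.g (nat_lit 839) (.e (nat_lit 7077) (nat_lit 378) (.e (nat_lit 57902) (nat_lit 277) (.e (nat_lit 131138) (nat_lit 27) (.e (nat_lit 425984) (nat_lit 0) (.e (nat_lit 7588) (nat_lit 406) (.e (nat_lit 65632) (nat_lit 15) .nil)))))) (.g (nat_lit 6) .nil .nil)))))))))

noncomputable def tv1615 : DT := (.nd (nat_lit 0) (.nd (nat_lit 1) (.nd (nat_lit 2) (.nd (nat_lit 3) (.nd (nat_lit 4) (.nd (nat_lit 5) 
(.lf (nat_lit 121600) (.g (nat_lit 709) (.e (nat_lit 7077) (nat_lit 378) (.e (nat_lit 57902) (nat_lit 277) (.e (nat_lit 131138) (nat_lit 27) (.e (nat_lit 425989) (nat_lit 0) (.e (nat_lit 7588) (nat_lit 406) (.e (nat_lit 65632) (nat_lit 15) .nil)))))) (.g (nat_lit 6) .nil .nil))) 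
(.lf (nat_lit 121632) (.g (nat_lit 2294) (.e (nat_lit 7079) (nat_lit 378) (.e (nat_lit 57884) (nat_lit 270) (.e (nat_lit 1656) (nat_lit 115) (.e (nat_lit 393300) (nat_lit 27) (.e (nat_lit 491552) (nat_lit 9) .nil))))) .nil))) (.nd (nat_lit 5) 
(.lf (nat_lit 121616) (.g (nat_lit 1847) (.e (nat_lit 7079) (nat_lit 378) (.e (nat_lit 57876) (nat_lit 270) (.e (nat_lit 1665) (nat_lit 115) (.e (nat_lit 393301) (nat_lit 27) (.e (nat_lit 491552) (nat_lit 9) (.e (nat_lit 336250) (nat_lit 15) .nil)))))) (.g (nat_lit 0) .nil .nil))) 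
(.lf (nat_lit 121648) (.g (nat_lit 854) (.e (nat_lit 7079) (nat_lit 378) (.e (nat_lit 57897) (nat_lit 274) (.e (nat_lit 65633) (nat_lit 15) (.e (nat_lit 7089) (nat_lit 379) (.e (nat_lit 123213) (nat_lit 274) (.e (nat_lit 65632) (nat_lit 15) .nil)))))) (.g (nat_lit 0) .nil .nil))))) (.nd (nat_lit 4) (.nd (nat_lit 5) 
(.lf (nat_lit 121608) (.g (nat_lit 3946) (.e (nat_lit 7079) (nat_lit 378) (.e (nat_lit 57876) (nat_lit 270) (.e (nat_lit 1239) (nat_lit 91) (.e (nat_lit 90170) (nat_lit 13) (.e (nat_lit 172113) (nat_lit 10) (.e (nat_lit 434248) (nat_lit 28) (.e (nat_lit 573452) (nat_lit 9) (.e (nat_lit 13) (nat_lit 0) .nil)))))))) (.g (nat_lit 0) .nil .nil))) 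
(.lf (nat_lit 121640) (.g (nat_lit 2901) (.e (nat_lit 7079) (nat_lit 378) (.e (nat_lit 57896) (nat_lit 273) (.e (nat_lit 57464) (nat_lit 23) (.e (nat_lit 516166) (nat_lit 12) (.e (nat_lit 450588) (nat_lit 10) (.e (nat_lit 573452) (nat_lit 9) (.e (nat_lit 13) (nat_lit 0) .nil))))))) (.g (nat_lit 0) .nil .nil)))) (.nd (nat_lit 5) 
(.lf (nat_lit 121624) (.g (nat_lit 450) (.e (nat_lit 7079) (nat_lit 378) (.e (nat_lit 57884) (nat_lit 270) (.e (nat_lit 1656) (nat_lit 115) .nil))) .nil)) 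
(.lf (nat_lit 121656) (.g (nat_lit 1073) (.e (nat_lit 7079) (nat_lit 378) (.e (nat_lit 57897) (nat_lit 274) (.e (nat_lit 65653) (nat_lit 27) (.e (nat_lit 426010) (nat_lit 0) (.e (nat_lit 7589) (nat_lit 406) (.e (nat_lit 65632) (nat_lit 15) .nil)))))) (.g (nat_lit 0) .nil .nil)))))) (.nd (nat_lit 3) (.nd (nat_lit 4) (.nd (nat_lit 5) 
(.lf (nat_lit 121604) (.g (nat_lit 670) (.e (nat_lit 7077) (nat_lit 378) (.e (nat_lit 57902) (nat_lit 277) (.e (nat_lit 131140) (nat_lit 27) (.e (nat_lit 426035) (nat_lit 0) .nil)))) .nil)) 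
(.lf (nat_lit 121636) (.g (nat_lit 2789) (.e (nat_lit 7079) (nat_lit 378) (.e (nat_lit 57896) (nat_lit 273) (.e (nat_lit 57464) (nat_lit 23) (.e (nat_lit 516151) (nat_lit 9) (.e (nat_lit 426286) (nat_lit 10) (.e (nat_lit 434247) (nat_lit 28) (.e (nat_lit 573457) (nat_lit 9) (.e (nat_lit 13) (nat_lit 0) .nil)))))))) (.g (nat_lit 0) .nil .nil)))) (.nd (nat_lit 5) 
(.lf (nat_lit 121620) (.g (nat_lit 3303) (.e (nat_lit 7079) (nat_lit 378) (.e (nat_lit 57884) (nat_lit 270) (.e (nat_lit 1250) (nat_lit 92) (.e (nat_lit 98373) (nat_lit 29) (.e (nat_lit 450588) (nat_lit 10) (.e (nat_lit 573452) (nat_lit 9) (.e (nat_lit 11) (nat_lit 0) .nil))))))) (.g (nat_lit 6) .nil .nil))) 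
(.lf (nat_lit 121652) (.g (nat_lit 499) (.e (nat_lit 7079) (nat_lit 378) (.e (nat_lit 57897) (nat_lit 274) (.e (nat_lit 65652) (nat_lit 27) (.e (nat_lit 425987) (nat_lit 0) (.e (nat_lit 7588) (nat_lit 406) (.e (nat_lit 65632) (nat_lit 15) .nil)))))) (.g (nat_lit 0) .nil .nil))))) (.nd (nat_lit 4) (.nd (nat_lit 5) 
(.lf (nat_lit 121612) (.g (nat_lit 2162) (.e (nat_lit 7079) (nat_lit 378) (.e (nat_lit 57876) (nat_lit 270) (.e (nat_lit 1256) (nat_lit 92) (.e (nat_lit 98372) (nat_lit 29) (.e (nat_lit 450586) (nat_lit 10) (.e (nat_lit 573452) (nat_lit 9) (.e (nat_lit 13) (nat_lit 0) .nil))))))) (.g (nat_lit 0) .nil .nil))) 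
(.lf (nat_lit 121644) (.g (nat_lit 473) (.e (nat_lit 7079) (nat_lit 378) (.e (nat_lit 57897) (nat_lit 274) (.e (nat_lit 65632) (nat_lit 15) (.e (nat_lit 7082) (nat_lit 378) (.e (nat_lit 57897) (nat_lit 274) (.e (nat_lit 65632) (nat_lit 15) .nil)))))) (.g (nat_lit 0) .nil .nil)))) (.nd (nat_lit 5) 
(.lf (nat_lit 121628) (.g (nat_lit 2417) (.e (nat_lit 7079) (nat_lit 378) (.e (nat_lit 57884) (nat_lit 270) (.e (nat_lit 1656) (nat_lit 115) (.e (nat_lit 393234) (nat_lit 17) (.e (nat_lit 7936) (nat_lit 406) (.e (nat_lit 65632) (nat_lit 15) .nil)))))) (.g (nat_lit 4) .nil .nil))) 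
(.lf (nat_lit 121660) (.g (nat_lit 1820) (.e (nat_lit 7079) (nat_lit 378) (.e (nat_lit 57897) (nat_lit 274) (.e (nat_lit 65653) (nat_lit 27) (.e (nat_lit 426012) (nat_lit 0) (.e (nat_lit 7589) (nat_lit 406) (.e (nat_lit 65632) (nat_lit 15) .nil)))))) (.g (nat_lit 0) .nil .nil))))))) (.nd (nat_lit 2) (.nd (nat_lit 3) (.nd (nat_lit 4) (.nd (nat_lit 5) 
(.lf (nat_lit 121602) (.g (nat_lit 2135) (.e (nat_lit 7077) (nat_lit 378) (.e (nat_lit 57902) (nat_lit 277) (.e (nat_lit 131140) (nat_lit 27) (.e (nat_lit 426011) (nat_lit 0) (.e (nat_lit 7587) (nat_lit 406) (.e (nat_lit 65632) (nat_lit 15) .nil)))))) (.g (nat_lit 5) .nil .nil))) 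
(.lf (nat_lit 121634) (.g (nat_lit 3211) (.e (nat_lit 7079) (nat_lit 378) (.e (nat_lit 57884) (nat_lit 270) (.e (nat_lit 1656) (nat_lit 115) (.e (nat_lit 393301) (nat_lit 27) (.e (nat_lit 491552) (nat_lit 9) (.e (nat_lit 336250) (nat_lit 15) .nil)))))) (.g (nat_lit 0) .nil .nil)))) (.nd (nat_lit 5) 
(.lf (nat_lit 121618) (.g (nat_lit 2409) (.e (nat_lit 7079) (nat_lit 378) (.e (nat_lit 57884) (nat_lit 270) (.e (nat_lit 1250) (nat_lit 92) (.e (nat_lit 98372) (nat_lit 29) (.e (nat_lit 450586) (nat_lit 10) (.e (nat_lit 573452) (nat_lit 9) (.e (nat_lit 13) (nat_lit 0) .nil))))))) (.g (nat_lit 0) .nil .nil))) 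
(.lf (nat_lit 121650) (.g (nat_lit 635) (.e (nat_lit 7079) (nat_lit 378) (.e (nat_lit 57897) (nat_lit 274) (.e (nat_lit 65648) (nat_lit 26) (.e (nat_lit 417795) (nat_lit 0) (.e (nat_lit 5405) (nat_lit 302) (.e (nat_lit 65632) (nat_lit 15) .nil)))))) (.g (nat_lit 0) .nil .nil))))) (.nd (nat_lit 4) (.nd (nat_lit 5) 
(.lf (nat_lit 121610) (.g (nat_lit 2702) (.e (nat_lit 7079) (nat_lit 378) (.e (nat_lit 57876) (nat_lit 270) (.e (nat_lit 1256) (nat_lit 92) (.e (nat_lit 98359) (nat_lit 26) (.e (nat_lit 426286) (nat_lit 10) (.e (nat_lit 434247) (nat_lit 28) (.e (nat_lit 573457) (nat_lit 9) (.e (nat_lit 13) (nat_lit 0) .nil)))))))) (.g (nat_lit 0) .nil .nil))) 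
(.lf (nat_lit 121642) (.g (nat_lit 472) (.e (nat_lit 7079) (nat_lit 378) (.e (nat_lit 57897) (nat_lit 274) (.e (nat_lit 65632) (nat_lit 15) (.e (nat_lit 7079) (nat_lit 378) (.e (nat_lit 57897) (nat_lit 274) (.e (nat_lit 65632) (nat_lit 15) .nil)))))) (.g (nat_lit 0) .nil .nil)))) (.nd (nat_lit 5) 
(.lf (nat_lit 121626) (.g (nat_lit 1822) (.e (nat_lit 7079) (nat_lit 378) (.e (nat_lit 57884) (nat_lit 270) (.e (nat_lit 1656) (nat_lit 115) (.e (nat_lit 393233) (nat_lit 17) (.e (nat_lit 7936) (nat_lit 406) .nil))))) .nil)) 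
(.lf (nat_lit 121658) (.g (nat_lit 1860) (.e (nat_lit 7079) (nat_lit 378) (.e (nat_lit 57897) (nat_lit 274) (.e (nat_lit 65653) (nat_lit 27) (.e (nat_lit 426011) (nat_lit 0) (.e (nat_lit 7589) (nat_lit 406) (.e (nat_lit 65632) (nat_lit 15) .nil)))))) (.g (nat_lit 0) .nil .nil)))))) (.nd (nat_lit 3) (.nd (nat_lit 4) (.nd (nat_lit 5) 
(.lf (nat_lit 121606) (.g (nat_lit 4039) (.e (nat_lit 7079) (nat_lit 378) (.e (nat_lit 57876) (nat_lit 270) (.e (nat_lit 1239) (nat_lit 91) (.e (nat_lit 90170) (nat_lit 13) (.e (nat_lit 172113) (nat_lit 10) (.e (nat_lit 434245) (nat_lit 28) (.e (nat_lit 573451) (nat_lit 9) (.e (nat_lit 13) (nat_lit 0) .nil)))))))) (.g (nat_lit 0) .nil .nil))) 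
(.lf (nat_lit 121638) (.g (nat_lit 2187) (.e (nat_lit 7079) (nat_lit 378) (.e (nat_lit 57896) (nat_lit 273) (.e (nat_lit 57464) (nat_lit 23) (.e (nat_lit 516165) (nat_lit 12) (.e (nat_lit 450586) (nat_lit 10) (.e (nat_lit 573452) (nat_lit 9) (.e (nat_lit 13) (nat_lit 0) .nil))))))) (.g (nat_lit 0) .nil .nil)))) (.nd (nat_lit 5) 
(.lf (nat_lit 121622) (.g (nat_lit 2511) (.e (nat_lit 7079) (nat_lit 378) (.e (nat_lit 57884) (nat_lit 270) (.e (nat_lit 1454) (nat_lit 108) (.e (nat_lit 336389) (nat_lit 27) (.e (nat_lit 426012) (nat_lit 0) (.e (nat_lit 7589) (nat_lit 406) (.e (nat_lit 65632) (nat_lit 15) .nil))))))) (.g (nat_lit 6) .nil .nil))) 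
(.lf (nat_lit 121654) (.g (nat_lit 452) (.e (nat_lit 7079) (nat_lit 378) (.e (nat_lit 57897) (nat_lit 274) (.e (nat_lit 65652) (nat_lit 27) (.e (nat_lit 425990) (nat_lit 0) (.e (nat_lit 7588) (nat_lit 406) (.e (nat_lit 65632) (nat_lit 15) .nil)))))) (.g (nat_lit 0) .nil .nil))))) (.nd (nat_lit 4) (.nd (nat_lit 5) 
(.lf (nat_lit 121614) (.g (nat_lit 3285) (.e (nat_lit 7079) (nat_lit 378) (.e (nat_lit 57876) (nat_lit 270) (.e (nat_lit 1256) (nat_lit 92) (.e (nat_lit 98373) (nat_lit 29) (.e (nat_lit 450588) (nat_lit 10) (.e (nat_lit 573452) (nat_lit 9) (.e (nat_lit 13) (nat_lit 0) .nil))))))) (.g (nat_lit 0) .nil .nil))) 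
(.lf (nat_lit 121646) (.g (nat_lit 759) (.e (nat_lit 7079) (nat_lit 378) (.e (nat_lit 57897) (nat_lit 274) (.e (nat_lit 65633) (nat_lit 15) (.e (nat_lit 7087) (nat_lit 379) (.e (nat_lit 123213) (nat_lit 274) (.e (nat_lit 65632) (nat_lit 15) .nil)))))) (.g (nat_lit 0) .nil .nil)))) (.nd (nat_lit 5) 
(.lf (nat_lit 121630) (.g (nat_lit 2698) (.e (nat_lit 7079) (nat_lit 378) (.e (nat_lit 57884) (nat_lit 270) (.e (nat_lit 1656) (nat_lit 115) (.e (nat_lit 393299) (nat_lit 27) (.e (nat_lit 491552) (nat_lit 9) .nil))))) .nil)) 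
(.lf (nat_lit 121662) (.g (nat_lit 1719) (.e (nat_lit 7079) (nat_lit 378) (.e (nat_lit 57897) (nat_lit 274) (.e (nat_lit 65653) (nat_lit 27) (.e (nat_lit 426344) (nat_lit 14) (.e (nat_lit 491552) (nat_lit 9) (.e (nat_lit 336250) (nat_lit 15) .nil)))))) (.g (nat_lit 0) .nil .nil)))))))) (.nd (nat_lit 1) (.nd (nat_lit 2) (.nd (nat_lit 3) (.nd (nat_lit 4) (.nd (nat_lit 5) 
(.lf (nat_lit 121601) (.g (nat_lit 1167) (.e (nat_lit 7077) (nat_lit 378) (.e (nat_lit 57902) (nat_lit 277) (.e (nat_lit 131140) (nat_lit 27) (.e (nat_lit 426009) (nat_lit 0) (.e (nat_lit 7589) (nat_lit 406) (.e (nat_lit 65632) (nat_lit 15) .nil)))))) (.g (nat_lit 5) .nil .nil))) 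
(.lf (nat_lit 121633) (.g (nat_lit 2765) (.e (nat_lit 7079) (nat_lit 378) (.e (nat_lit 57884) (nat_lit 270) (.e (nat_lit 1656) (nat_lit 115) (.e (nat_lit 393301) (nat_lit 27) (.e (nat_lit 491552) (nat_lit 9) (.e (nat_lit 336248) (nat_lit 15) .nil)))))) (.g (nat_lit 5) .nil .nil)))) (.nd (nat_lit 5) 
(.lf (nat_lit 121617) (.g (nat_lit 4505) (.e (nat_lit 7079) (nat_lit 378) (.e (nat_lit 57884) (nat_lit 270) (.e (nat_lit 1232) (nat_lit 91) (.e (nat_lit 90170) (nat_lit 13) (.e (nat_lit 172106) (nat_lit 10) (.e (nat_lit 434244) (nat_lit 28) (.e (nat_lit 573451) (nat_lit 9) (.e (nat_lit 13) (nat_lit 0) .nil)))))))) (.g (nat_lit 0) .nil .nil))) 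
(.lf (nat_lit 121649) (.g (nat_lit 492) (.e (nat_lit 7079) (nat_lit 378) (.e (nat_lit 57897) (nat_lit 274) (.e (nat_lit 65648) (nat_lit 26) (.e (nat_lit 417793) (nat_lit 0) (.e (nat_lit 5405) (nat_lit 302) (.e (nat_lit 65632) (nat_lit 15) .nil)))))) (.g (nat_lit 0) .nil .nil))))) (.nd (nat_lit 4) (.nd (nat_lit 5) 
(.lf (nat_lit 121609) (.g (nat_lit 3397) (.e (nat_lit 7079) (nat_lit 378) (.e (nat_lit 57876) (nat_lit 270) (.e (nat_lit 1256) (nat_lit 92) (.e (nat_lit 98359) (nat_lit 26) (.e (nat_lit 426286) (nat_lit 10) (.e (nat_lit 434245) (nat_lit 28) (.e (nat_lit 573451) (nat_lit 9) (.e (nat_lit 13) (nat_lit 0) .nil)))))))) (.g (nat_lit 0) .nil .nil))) 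
(.lf (nat_lit 121641) (.g (nat_lit 490) (.e (nat_lit 7079) (nat_lit 378) (.e (nat_lit 57897) (nat_lit 274) (.e (nat_lit 65632) (nat_lit 15) (.e (nat_lit 7077) (nat_lit 378) (.e (nat_lit 57897) (nat_lit 274) (.e (nat_lit 65632) (nat_lit 15) .nil)))))) (.g (nat_lit 0) .nil .nil)))) (.nd (nat_lit 5) 
(.lf (nat_lit 121625) (.g (nat_lit 1854) (.e (nat_lit 7079) (nat_lit 378) (.e (nat_lit 57884) (nat_lit 270) (.e (nat_lit 1656) (nat_lit 115) (.e (nat_lit 393233) (nat_lit 17) (.e (nat_lit 7587) (nat_lit 406) .nil))))) .nil)) 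
(.lf (nat_lit 121657) (.g (nat_lit 2162) (.e (nat_lit 7079) (nat_lit 378) (.e (nat_lit 57897) (nat_lit 274) (.e (nat_lit 65653) (nat_lit 27) (.e (nat_lit 426011) (nat_lit 0) (.e (nat_lit 7587) (nat_lit 406) (.e (nat_lit 65632) (nat_lit 15) .nil)))))) (.g (nat_lit 6) .nil .nil)))))) (.nd (nat_lit 3) (.nd (nat_lit 4) (.nd (nat_lit 5) 
(.lf (nat_lit 121605) (.g (nat_lit 1670) (.e (nat_lit 7078) (nat_lit 378) (.e (nat_lit 57884) (nat_lit 270) (.e (nat_lit 1656) (nat_lit 115) (.e (nat_lit 393301) (nat_lit 27) .nil)))) .nil)) 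
(.lf (nat_lit 121637) (.g (nat_lit 3374) (.e (nat_lit 7079) (nat_lit 378) (.e (nat_lit 57896) (nat_lit 273) (.e (nat_lit 57464) (nat_lit 23) (.e (nat_lit 516151) (nat_lit 9) (.e (nat_lit 426286) (nat_lit 10) (.e (nat_lit 434248) (nat_lit 28) (.e (nat_lit 573452) (nat_lit 9) (.e (nat_lit 13) (nat_lit 0) .nil)))))))) (.g (nat_lit 0) .nil .nil)))) (.nd (nat_lit 5) 
(.lf (nat_lit 121621) (.g (nat_lit 4054) (.e (nat_lit 7079) (nat_lit 378) (.e (nat_lit 57884) (nat_lit 270) (.e (nat_lit 1250) (nat_lit 92) (.e (nat_lit 98373) (nat_lit 29) (.e (nat_lit 450588) (nat_lit 10) (.e (nat_lit 573452) (nat_lit 9) (.e (nat_lit 13) (nat_lit 0) .nil))))))) (.g (nat_lit 0) .nil .nil))) 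
(.lf (nat_lit 121653) (.g (nat_lit 495) (.e (nat_lit 7079) (nat_lit 378) (.e (nat_lit 57897) (nat_lit 274) (.e (nat_lit 65652) (nat_lit 27) (.e (nat_lit 425989) (nat_lit 0) (.e (nat_lit 7588) (nat_lit 406) (.e (nat_lit 65632) (nat_lit 15) .nil)))))) (.g (nat_lit 0) .nil .nil))))) (.nd (nat_lit 4) (.nd (nat_lit 5) 
(.lf (nat_lit 121613) (.g (nat_lit 2018) (.e (nat_lit 7079) (nat_lit 378) (.e (nat_lit 57876) (nat_lit 270) (.e (nat_lit 1256) (nat_lit 92) (.e (nat_lit 98372) (nat_lit 29) (.e (nat_lit 450586) (nat_lit 10) (.e (nat_lit 573457) (nat_lit 9) (.e (nat_lit 13) (nat_lit 0) .nil))))))) (.g (nat_lit 0) .nil .nil))) 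
(.lf (nat_lit 121645) (.g (nat_lit 731) (.e (nat_lit 7079) (nat_lit 378) (.e (nat_lit 57897) (nat_lit 274) (.e (nat_lit 65633) (nat_lit 15) (.e (nat_lit 7086) (nat_lit 379) (.e (nat_lit 123213) (nat_lit 274) (.e (nat_lit 65632) (nat_lit 15) .nil)))))) (.g (nat_lit 0) .nil .nil)))) (.nd (nat_lit 5) 
(.lf (nat_lit 121629) (.g (nat_lit 1875) (.e (nat_lit 7079) (nat_lit 378) (.e (nat_lit 57884) (nat_lit 270) (.e (nat_lit 1656) (nat_lit 115) (.e (nat_lit 393237) (nat_lit 17) (.e (nat_lit 7936) (nat_lit 406) (.e (nat_lit 65632) (nat_lit 15) .nil)))))) (.g (nat_lit 4) .nil .nil))) 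
(.lf (nat_lit 121661) (.g (nat_lit 1979) (.e (nat_lit 7079) (nat_lit 378) (.e (nat_lit 57897) (nat_lit 274) (.e (nat_lit 65653) (nat_lit 27) (.e (nat_lit 426343) (nat_lit 14) (.e (nat_lit 491552) (nat_lit 9) (.e (nat_lit 336250) (nat_lit 15) .nil)))))) (.g (nat_lit 6) .nil .nil))))))) (.nd (nat_lit 2) (.nd (nat_lit 3) (.nd (nat_lit 4) (.nd (nat_lit 5) 
(.lf (nat_lit 121603) (.g (nat_lit 1993) (.e (nat_lit 7077) (nat_lit 378) (.e (nat_lit 57902) (nat_lit 277) (.e (nat_lit 131140) (nat_lit 27) (.e (nat_lit 426011) (nat_lit 0) (.e (nat_lit 7589) (nat_lit 406) (.e (nat_lit 65632) (nat_lit 15) .nil)))))) (.g (nat_lit 0) .nil .nil))) 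
(.lf (nat_lit 121635) (.g (nat_lit 3486) (.e (nat_lit 7079) (nat_lit 378) (.e (nat_lit 57896) (nat_lit 273) (.e (nat_lit 57464) (nat_lit 23) (.e (nat_lit 516151) (nat_lit 9) (.e (nat_lit 426286) (nat_lit 10) (.e (nat_lit 434245) (nat_lit 28) (.e (nat_lit 573451) (nat_lit 9) (.e (nat_lit 13) (nat_lit 0) .nil)))))))) (.g (nat_lit 0) .nil .nil)))) (.nd (nat_lit 5) 
(.lf (nat_lit 121619) (.g (nat_lit 2279) (.e (nat_lit 7079) (nat_lit 378) (.e (nat_lit 57884) (nat_lit 270) (.e (nat_lit 1250) (nat_lit 92) (.e (nat_lit 98372) (nat_lit 29) (.e (nat_lit 450586) (nat_lit 10) (.e (nat_lit 573457) (nat_lit 9) (.e (nat_lit 13) (nat_lit 0) .nil))))))) (.g (nat_lit 0) .nil .nil))) 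
(.lf (nat_lit 121651) (.g (nat_lit 546) (.e (nat_lit 7079) (nat_lit 378) (.e (nat_lit 57897) (nat_lit 274) (.e (nat_lit 65652) (nat_lit 27) (.e (nat_lit 425984) (nat_lit 0) (.e (nat_lit 7588) (nat_lit 406) (.e (nat_lit 65632) (nat_lit 15) .nil)))))) (.g (nat_lit 0) .nil .nil))))) (.nd (nat_lit 4) (.nd (nat_lit 5) 
(.lf (nat_lit 121611) (.g (nat_lit 3273) (.e (nat_lit 7079) (nat_lit 378) (.e (nat_lit 57876) (nat_lit 270) (.e (nat_lit 1256) (nat_lit 92) (.e (nat_lit 98359) (nat_lit 26) (.e (nat_lit 426286) (nat_lit 10) (.e (nat_lit 434248) (nat_lit 28) (.e (nat_lit 573452) (nat_lit 9) (.e (nat_lit 13) (nat_lit 0) .nil)))))))) (.g (nat_lit 0) .nil .nil))) 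
(.lf (nat_lit 121643) (.g (nat_lit 526) (.e (nat_lit 7079) (nat_lit 378) (.e (nat_lit 57897) (nat_lit 274) (.e (nat_lit 65632) (nat_lit 15) (.e (nat_lit 7081) (nat_lit 378) (.e (nat_lit 57897) (nat_lit 274) (.e (nat_lit 65632) (nat_lit 15) .nil)))))) (.g (nat_lit 0) .nil .nil)))) (.nd (nat_lit 5) 
(.lf (nat_lit 121627) (.g (nat_lit 2985) (.e (nat_lit 7079) (nat_lit 378) (.e (nat_lit 57884) (nat_lit 270) (.e (nat_lit 1656) (nat_lit 115) (.e (nat_lit 393234) (nat_lit 17) (.e (nat_lit 7589) (nat_lit 406) (.e (nat_lit 65632) (nat_lit 15) .nil)))))) (.g (nat_lit 0) .nil .nil))) 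
(.lf (nat_lit 121659) (.g (nat_lit 1344) (.e (nat_lit 7079) (nat_lit 378) (.e (nat_lit 57897) (nat_lit 274) (.e (nat_lit 65653) (nat_lit 27) (.e (nat_lit 426012) (nat_lit 0) (.e (nat_lit 7587) (nat_lit 406) (.e (nat_lit 65632) (nat_lit 15) .nil)))))) (.g (nat_lit 6) .nil .nil)))))) (.nd (nat_lit 3) (.nd (nat_lit 4) (.nd (nat_lit 5) 
(.lf (nat_lit 121607) (.g (nat_lit 3579) (.e (nat_lit 7079) (nat_lit 378) (.e (nat_lit 57876) (nat_lit 270) (.e (nat_lit 1239) (nat_lit 91) (.e (nat_lit 90170) (nat_lit 13) (.e (nat_lit 172113) (nat_lit 10) (.e (nat_lit 434247) (nat_lit 28) (.e (nat_lit 573457) (nat_lit 9) (.e (nat_lit 13) (nat_lit 0) .nil)))))))) (.g (nat_lit 0) .nil .nil))) 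
(.lf (nat_lit 121639) (.g (nat_lit 2032) (.e (nat_lit 7079) (nat_lit 378) (.e (nat_lit 57896) (nat_lit 273) (.e (nat_lit 57464) (nat_lit 23) (.e (nat_lit 516165) (nat_lit 12) (.e (nat_lit 450586) (nat_lit 10) (.e (nat_lit 573457) (nat_lit 9) (.e (nat_lit 13) (nat_lit 0) .nil))))))) (.g (nat_lit 0) .nil .nil)))) (.nd (nat_lit 5) 
(.lf (nat_lit 121623) (.g (nat_lit 419) (.e (nat_lit 7079) (nat_lit 378) (.e (nat_lit 57884) (nat_lit 270) (.e (nat_lit 1544) (nat_lit 109) .nil))) .nil)) 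
(.lf (nat_lit 121655) (.g (nat_lit 929) (.e (nat_lit 7079) (nat_lit 378) (.e (nat_lit 57897) (nat_lit 274) (.e (nat_lit 65653) (nat_lit 27) (.e (nat_lit 426009) (nat_lit 0) (.e (nat_lit 7589) (nat_lit 406) (.e (nat_lit 65632) (nat_lit 15) .nil)))))) (.g (nat_lit 0) .nil .nil))))) (.nd (nat_lit 4) (.nd (nat_lit 5) 
(.lf (nat_lit 121615) (.g (nat_lit 3257) (.e (nat_lit 7079) (nat_lit 378) (.e (nat_lit 57876) (nat_lit 270) (.e (nat_lit 1256) (nat_lit 92) (.e (nat_lit 98373) (nat_lit 29) (.e (nat_lit 450588) (nat_lit 10) (.e (nat_lit 573457) (nat_lit 9) (.e (nat_lit 13) (nat_lit 0) .nil))))))) (.g (nat_lit 6) .nil .nil))) 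
(.lf (nat_lit 121647) (.g (nat_lit 860) (.e (nat_lit 7079) (nat_lit 378) (.e (nat_lit 57897) (nat_lit 274) (.e (nat_lit 65633) (nat_lit 15) (.e (nat_lit 7088) (nat_lit 379) (.e (nat_lit 123213) (nat_lit 274) (.e (nat_lit 65632) (nat_lit 15) .nil)))))) (.g (nat_lit 0) .nil .nil)))) (.nd (nat_lit 5) 
(.lf (nat_lit 121631) (.g (nat_lit 1265) (.e (nat_lit 7079) (nat_lit 378) (.e (nat_lit 57884) (nat_lit 270) (.e (nat_lit 1656) (nat_lit 115) (.e (nat_lit 393300) (nat_lit 27) .nil)))) .nil)) 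
(.lf (nat_lit 121663) (.g (nat_lit 1582) (.e (nat_lit 7079) (nat_lit 378) (.e (nat_lit 57898) (nat_lit 275) (.e (nat_lit 73729) (nat_lit 0) (.e (nat_lit 7261) (nat_lit 384) (.e (nat_lit 57423) (nat_lit 14) (.e (nat_lit 352257) (nat_lit 0) .nil)))))) (.g (nat_lit 0) .nil .nil)))))))))

noncomputable def tv1616 : DT := (.nd (nat_lit 0) (.nd (nat_lit 1) (.nd (nat_lit 2) (.nd (nat_lit 3) (.nd (nat_lit 4) 
(.lf (nat_lit 121664) (.g (nat_lit 1291) (.e (nat_lit 7079) (nat_lit 378) (.e (nat_lit 57898) (nat_lit 275) (.e (nat_lit 73729) (nat_lit 0) (.e (nat_lit 7261) (nat_lit 384) (.e (nat_lit 57425) (nat_lit 14) (.e (nat_lit 352257) (nat_lit 0) .nil)))))) (.g (nat_lit 5) .nil .nil))) 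
(.lf (nat_lit 121680) (.g (nat_lit 786) (.e (nat_lit 7079) (nat_lit 378) (.e (nat_lit 57898) (nat_lit 275) (.e (nat_lit 73773) (nat_lit 25) (.e (nat_lit 770058) (nat_lit 5) (.e (nat_lit 1575) (nat_lit 110) (.e (nat_lit 352257) (nat_lit 0) .nil)))))) (.g (nat_lit 0) .nil .nil)))) (.nd (nat_lit 4) 
(.lf (nat_lit 121672) (.g (nat_lit 1200) (.e (nat_lit 7079) (nat_lit 378) (.e (nat_lit 57898) (nat_lit 275) (.e (nat_lit 73732) (nat_lit 0) (.e (nat_lit 7273) (nat_lit 385) (.e (nat_lit 122914) (nat_lit 14) (.e (nat_lit 352257) (nat_lit 0) .nil)))))) (.g (nat_lit 0) .nil .nil))) 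
(.lf (nat_lit 121688) (.g (nat_lit 3683) (.e (nat_lit 7081) (nat_lit 378) (.e (nat_lit 57876) (nat_lit 270) (.e (nat_lit 1239) (nat_lit 91) (.e (nat_lit 90170) (nat_lit 13) (.e (nat_lit 172113) (nat_lit 10) (.e (nat_lit 434248) (nat_lit 28) (.e (nat_lit 573452) (nat_lit 9) (.e (nat_lit 11) (nat_lit 0) .nil)))))))) (.g (nat_lit 7) .nil .nil))))) (.nd (nat_lit 3) (.nd (nat_lit 4) 
(.lf (nat_lit 121668) (.g (nat_lit 1912) (.e (nat_lit 7079) (nat_lit 378) (.e (nat_lit 57898) (nat_lit 275) (.e (nat_lit 73731) (nat_lit 0) (.e (nat_lit 7266) (nat_lit 384) (.e (nat_lit 57423) (nat_lit 14) (.e (nat_lit 352257) (nat_lit 0) .nil)))))) (.g (nat_lit 6) .nil .nil))) 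
(.lf (nat_lit 121684) (.g (nat_lit 1019) (.e (nat_lit 7079) (nat_lit 378) (.e (nat_lit 57898) (nat_lit 275) (.e (nat_lit 73775) (nat_lit 26) (.e (nat_lit 778360) (nat_lit 9) (.e (nat_lit 312) (nat_lit 23) (.e (nat_lit 352257) (nat_lit 0) .nil)))))) (.g (nat_lit 0) .nil .nil)))) (.nd (nat_lit 4) 
(.lf (nat_lit 121676) (.g (nat_lit 696) (.e (nat_lit 7079) (nat_lit 378) (.e (nat_lit 57898) (nat_lit 275) (.e (nat_lit 73772) (nat_lit 24) (.e (nat_lit 761869) (nat_lit 5) (.e (nat_lit 1558) (nat_lit 110) (.e (nat_lit 352257) (nat_lit 0) .nil)))))) (.g (nat_lit 5) .nil .nil))) 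
(.lf (nat_lit 121692) (.g (nat_lit 3279) (.e (nat_lit 7081) (nat_lit 378) (.e (nat_lit 57876) (nat_lit 270) (.e (nat_lit 1256) (nat_lit 92) (.e (nat_lit 98373) (nat_lit 29) (.e (nat_lit 450588) (nat_lit 10) (.e (nat_lit 573452) (nat_lit 9) (.e (nat_lit 13) (nat_lit 0) .nil))))))) (.g (nat_lit 0) .nil .nil)))))) (.nd (nat_lit 2) (.nd (nat_lit 3) (.nd (nat_lit 4) 
(.lf (nat_lit 121666) (.g (nat_lit 1961) (.e (nat_lit 7079) (nat_lit 378) (.e (nat_lit 57898) (nat_lit 275) (.e (nat_lit 73729) (nat_lit 0) (.e (nat_lit 7265) (nat_lit 384) (.e (nat_lit 57423) (nat_lit 14) (.e (nat_lit 352257) (nat_lit 0) .nil)))))) (.g (nat_lit 0) .nil .nil))) 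
(.lf (nat_lit 121682) (.g (nat_lit 626) (.e (nat_lit 7079) (nat_lit 378) (.e (nat_lit 57898) (nat_lit 275) (.e (nat_lit 73774) (nat_lit 26) (.e (nat_lit 778339) (nat_lit 9) (.e (nat_lit 311) (nat_lit 23) (.e (nat_lit 352257) (nat_lit 0) .nil)))))) (.g (nat_lit 0) .nil .nil)))) (.nd (nat_lit 4) 
(.lf (nat_lit 121674) (.g (nat_lit 496) (.e (nat_lit 7079) (nat_lit 378) (.e (nat_lit 57898) (nat_lit 275) (.e (nat_lit 73772) (nat_lit 24) (.e (nat_lit 761868) (nat_lit 5) (.e (nat_lit 1558) (nat_lit 110) (.e (nat_lit 352257) (nat_lit 0) .nil)))))) (.g (nat_lit 5) .nil .nil))) 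
(.lf (nat_lit 121690) (.g (nat_lit 1919) (.e (nat_lit 7081) (nat_lit 378) (.e (nat_lit 57876) (nat_lit 270) (.e (nat_lit 1256) (nat_lit 92) (.e (nat_lit 98372) (nat_lit 29) (.e (nat_lit 450586) (nat_lit 10) (.e (nat_lit 573452) (nat_lit 9) (.e (nat_lit 11) (nat_lit 0) .nil))))))) (.g (nat_lit 7) .nil .nil))))) (.nd (nat_lit 3) (.nd (nat_lit 4) 
(.lf (nat_lit 121670) (.g (nat_lit 1621) (.e (nat_lit 7079) (nat_lit 378) (.e (nat_lit 57898) (nat_lit 275) (.e (nat_lit 73732) (nat_lit 0) (.e (nat_lit 7271) (nat_lit 385) (.e (nat_lit 122914) (nat_lit 14) (.e (nat_lit 352257) (nat_lit 0) .nil)))))) (.g (nat_lit 0) .nil .nil))) 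
(.lf (nat_lit 121686) (.g (nat_lit 168) (.e (nat_lit 7079) (nat_lit 378) (.e (nat_lit 57902) (nat_lit 277) (.e (nat_lit 131140) (nat_lit 27) .nil))) .nil))) (.nd (nat_lit 4) 
(.lf (nat_lit 121678) (.g (nat_lit 688) (.e (nat_lit 7079) (nat_lit 378) (.e (nat_lit 57898) (nat_lit 275) (.e (nat_lit 73773) (nat_lit 25) (.e (nat_lit 770055) (nat_lit 5) (.e (nat_lit 1575) (nat_lit 110) (.e (nat_lit 352257) (nat_lit 0) .nil)))))) (.g (nat_lit 0) .nil .nil))) 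
(.lf (nat_lit 121694) (.g (nat_lit 1863) (.e (nat_lit 7081) (nat_lit 378) (.e (nat_lit 57876) (nat_lit 270) (.e (nat_lit 1665) (nat_lit 115) (.e (nat_lit 393301) (nat_lit 27) (.e (nat_lit 491552) (nat_lit 9) (.e (nat_lit 336248) (nat_lit 15) .nil)))))) (.g (nat_lit 6) .nil .nil))))))) (.nd (nat_lit 1) (.nd (nat_lit 2) (.nd (nat_lit 3) (.nd (nat_lit 4) 
(.lf (nat_lit 121665) (.g (nat_lit 1850) (.e (nat_lit 7079) (nat_lit 378) (.e (nat_lit 57898) (nat_lit 275) (.e (nat_lit 73729) (nat_lit 0) (.e (nat_lit 7263) (nat_lit 384) (.e (nat_lit 57423) (nat_lit 14) (.e (nat_lit 352257) (nat_lit 0) .nil)))))) (.g (nat_lit 0) .nil .nil))) 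
(.lf (nat_lit 121681) (.g (nat_lit 612) (.e (nat_lit 7079) (nat_lit 378) (.e (nat_lit 57898) (nat_lit 275) (.e (nat_lit 73774) (nat_lit 26) (.e (nat_lit 778334) (nat_lit 9) (.e (nat_lit 311) (nat_lit 23) (.e (nat_lit 352257) (nat_lit 0) .nil)))))) (.g (nat_lit 0) .nil .nil)))) (.nd (nat_lit 4) 
(.lf (nat_lit 121673) (.g (nat_lit 799) (.e (nat_lit 7079) (nat_lit 378) (.e (nat_lit 57898) (nat_lit 275) (.e (nat_lit 73772) (nat_lit 24) (.e (nat_lit 761866) (nat_lit 5) (.e (nat_lit 1574) (nat_lit 110) (.e (nat_lit 352257) (nat_lit 0) .nil)))))) (.g (nat_lit 0) .nil .nil))) 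
(.lf (nat_lit 121689) (.g (nat_lit 3000) (.e (nat_lit 7081) (nat_lit 378) (.e (nat_lit 57876) (nat_lit 270) (.e (nat_lit 1256) (nat_lit 92) (.e (nat_lit 98359) (nat_lit 26) (.e (nat_lit 426286) (nat_lit 10) (.e (nat_lit 434248) (nat_lit 28) (.e (nat_lit 573452) (nat_lit 9) (.e (nat_lit 11) (nat_lit 0) .nil)))))))) (.g (nat_lit 7) .nil .nil))))) (.nd (nat_lit 3) (.nd (nat_lit 4) 
(.lf (nat_lit 121669) (.g (nat_lit 1683) (.e (nat_lit 7079) (nat_lit 378) (.e (nat_lit 57898) (nat_lit 275) (.e (nat_lit 73732) (nat_lit 0) (.e (nat_lit 7270) (nat_lit 385) (.e (nat_lit 122914) (nat_lit 14) (.e (nat_lit 352257) (nat_lit 0) .nil)))))) (.g (nat_lit 0) .nil .nil))) 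
(.lf (nat_lit 121685) (.g (nat_lit 2036) (.e (nat_lit 7079) (nat_lit 378) (.e (nat_lit 57898) (nat_lit 275) (.e (nat_lit 73775) (nat_lit 26) (.e (nat_lit 778362) (nat_lit 9) (.e (nat_lit 312) (nat_lit 23) (.e (nat_lit 352257) (nat_lit 0) .nil)))))) (.g (nat_lit 0) .nil .nil)))) (.nd (nat_lit 4) 
(.lf (nat_lit 121677) (.g (nat_lit 1039) (.e (nat_lit 7079) (nat_lit 378) (.e (nat_lit 57898) (nat_lit 275) (.e (nat_lit 73772) (nat_lit 24) (.e (nat_lit 761869) (nat_lit 5) (.e (nat_lit 1574) (nat_lit 110) (.e (nat_lit 352257) (nat_lit 0) .nil)))))) (.g (nat_lit 0) .nil .nil))) 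
(.lf (nat_lit 121693) (.g (nat_lit 3258) (.e (nat_lit 7081) (nat_lit 378) (.e (nat_lit 57876) (nat_lit 270) (.e (nat_lit 1256) (nat_lit 92) (.e (nat_lit 98373) (nat_lit 29) (.e (nat_lit 450588) (nat_lit 10) (.e (nat_lit 573457) (nat_lit 9) (.e (nat_lit 13) (nat_lit 0) .nil))))))) (.g (nat_lit 6) .nil .nil)))))) (.nd (nat_lit 2) (.nd (nat_lit 3) (.nd (nat_lit 4) 
(.lf (nat_lit 121667) (.g (nat_lit 2192) (.e (nat_lit 7079) (nat_lit 378) (.e (nat_lit 57898) (nat_lit 275) (.e (nat_lit 73729) (nat_lit 0) (.e (nat_lit 7266) (nat_lit 384) (.e (nat_lit 57423) (nat_lit 14) (.e (nat_lit 352257) (nat_lit 0) .nil)))))) (.g (nat_lit 0) .nil .nil))) 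
(.lf (nat_lit 121683) (.g (nat_lit 1025) (.e (nat_lit 7079) (nat_lit 378) (.e (nat_lit 57898) (nat_lit 275) (.e (nat_lit 73775) (nat_lit 26) (.e (nat_lit 778359) (nat_lit 9) (.e (nat_lit 312) (nat_lit 23) (.e (nat_lit 352257) (nat_lit 0) .nil)))))) (.g (nat_lit 0) .nil .nil)))) (.nd (nat_lit 4) 
(.lf (nat_lit 121675) (.g (nat_lit 680) (.e (nat_lit 7079) (nat_lit 378) (.e (nat_lit 57898) (nat_lit 275) (.e (nat_lit 73772) (nat_lit 24) (.e (nat_lit 761868) (nat_lit 5) (.e (nat_lit 1574) (nat_lit 110) (.e (nat_lit 352257) (nat_lit 0) .nil)))))) (.g (nat_lit 0) .nil .nil))) 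
(.lf (nat_lit 121691) (.g (nat_lit 2776) (.e (nat_lit 7081) (nat_lit 378) (.e (nat_lit 57876) (nat_lit 270) (.e (nat_lit 1256) (nat_lit 92) (.e (nat_lit 98373) (nat_lit 29) (.e (nat_lit 450588) (nat_lit 10) (.e (nat_lit 573452) (nat_lit 9) (.e (nat_lit 11) (nat_lit 0) .nil))))))) (.g (nat_lit 7) .nil .nil))))) (.nd (nat_lit 3) (.nd (nat_lit 4) 
(.lf (nat_lit 121671) (.g (nat_lit 1553) (.e (nat_lit 7079) (nat_lit 378) (.e (nat_lit 57898) (nat_lit 275) (.e (nat_lit 73732) (nat_lit 0) (.e (nat_lit 7272) (nat_lit 385) (.e (nat_lit 122914) (nat_lit 14) (.e (nat_lit 352257) (nat_lit 0) .nil)))))) (.g (nat_lit 0) .nil .nil))) 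
(.lf (nat_lit 121687) (.g (nat_lit 4296) (.e (nat_lit 7081) (nat_lit 378) (.e (nat_lit 57876) (nat_lit 270) (.e (nat_lit 1239) (nat_lit 91) (.e (nat_lit 90170) (nat_lit 13) (.e (nat_lit 172106) (nat_lit 10) (.e (nat_lit 434244) (nat_lit 28) (.e (nat_lit 573451) (nat_lit 9) (.e (nat_lit 11) (nat_lit 0) .nil)))))))) (.g (nat_lit 0) .nil .nil)))) (.nd (nat_lit 4) 
(.lf (nat_lit 121679) (.g (nat_lit 616) (.e (nat_lit 7079) (nat_lit 378) (.e (nat_lit 57898) (nat_lit 275) (.e (nat_lit 73773) (nat_lit 25) (.e (nat_lit 770057) (nat_lit 5) (.e (nat_lit 1575) (nat_lit 110) (.e (nat_lit 352257) (nat_lit 0) .nil)))))) (.g (nat_lit 0) .nil .nil))) 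
(.lf (nat_lit 121695) (.g (nat_lit 4521) (.e (nat_lit 7081) (nat_lit 378) (.e (nat_lit 57884) (nat_lit 270) (.e (nat_lit 1232) (nat_lit 91) (.e (nat_lit 90170) (nat_lit 13) (.e (nat_lit 172106) (nat_lit 10) (.e (nat_lit 434244) (nat_lit 28) (.e (nat_lit 573451) (nat_lit 9) (.e (nat_lit 11) (nat_lit 0) .nil)))))))) (.g (nat_lit 0) .nil .nil))))))))

noncomputable def tv1617 : DT := (.nd (nat_lit 0) (.nd (nat_lit 1) (.nd (nat_lit 2) (.nd (nat_lit 3) (.nd (nat_lit 4) 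
(.lf (nat_lit 121696) (.g (nat_lit 2202) (.e (nat_lit 7081) (nat_lit 378) (.e (nat_lit 57884) (nat_lit 270) (.e (nat_lit 1250) (nat_lit 92) (.e (nat_lit 98372) (nat_lit 29) (.e (nat_lit 450586) (nat_lit 10) (.e (nat_lit 573452) (nat_lit 9) (.e (nat_lit 11) (nat_lit 0) .nil))))))) (.g (nat_lit 7) .nil .nil))) 
(.lf (nat_lit 121712) (.g (nat_lit 2115) (.e (nat_lit 7081) (nat_lit 378) (.e (nat_lit 57897) (nat_lit 274) (.e (nat_lit 65653) (nat_lit 27) (.e (nat_lit 426343) (nat_lit 14) (.e (nat_lit 491552) (nat_lit 9) (.e (nat_lit 336248) (nat_lit 15) .nil)))))) (.g (nat_lit 6) .nil .nil)))) (.nd (nat_lit 4) 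
(.lf (nat_lit 121704) (.g (nat_lit 2789) (.e (nat_lit 7081) (nat_lit 378) (.e (nat_lit 57884) (nat_lit 270) (.e (nat_lit 1656) (nat_lit 115) (.e (nat_lit 393234) (nat_lit 17) (.e (nat_lit 7587) (nat_lit 406) (.e (nat_lit 65632) (nat_lit 15) .nil)))))) (.g (nat_lit 6) .nil .nil))) 
(.lf (nat_lit 121720) (.g (nat_lit 1137) (.e (nat_lit 7081) (nat_lit 378) (.e (nat_lit 57902) (nat_lit 277) (.e (nat_lit 131140) (nat_lit 27) (.e (nat_lit 426009) (nat_lit 0) (.e (nat_lit 7589) (nat_lit 406) (.e (nat_lit 65632) (nat_lit 15) .nil)))))) (.g (nat_lit 5) .nil .nil))))) (.nd (nat_lit 3) (.nd (nat_lit 4) 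
(.lf (nat_lit 121700) (.g (nat_lit 1091) (.e (nat_lit 7081) (nat_lit 378) (.e (nat_lit 57884) (nat_lit 270) (.e (nat_lit 1544) (nat_lit 109) (.e (nat_lit 344174) (nat_lit 42) (.e (nat_lit 761866) (nat_lit 5) .nil))))) .nil)) 
(.lf (nat_lit 121716) (.g (nat_lit 2130) (.e (nat_lit 7081) (nat_lit 378) (.e (nat_lit 57898) (nat_lit 275) (.e (nat_lit 73729) (nat_lit 0) (.e (nat_lit 7265) (nat_lit 384) (.e (nat_lit 57424) (nat_lit 14) (.e (nat_lit 352257) (nat_lit 0) .nil)))))) (.g (nat_lit 6) .nil .nil)))) (.nd (nat_lit 4) 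
(.lf (nat_lit 121708) (.g (nat_lit 3130) (.e (nat_lit 7081) (nat_lit 378) (.e (nat_lit 57896) (nat_lit 273) (.e (nat_lit 57464) (nat_lit 23) (.e (nat_lit 516151) (nat_lit 9) (.e (nat_lit 426286) (nat_lit 10) (.e (nat_lit 434248) (nat_lit 28) (.e (nat_lit 573452) (nat_lit 9) (.e (nat_lit 11) (nat_lit 0) .nil)))))))) (.g (nat_lit 7) .nil .nil))) 
(.lf (nat_lit 121724) (.g (nat_lit 2784) (.e (nat_lit 7082) (nat_lit 378) (.e (nat_lit 57876) (nat_lit 270) (.e (nat_lit 1256) (nat_lit 92) (.e (nat_lit 98373) (nat_lit 29) (.e (nat_lit 450588) (nat_lit 10) (.e (nat_lit 573452) (nat_lit 9) (.e (nat_lit 11) (nat_lit 0) .nil))))))) (.g (nat_lit 7) .nil .nil)))))) (.nd (nat_lit 2) (.nd (nat_lit 3) (.nd (nat_lit 4) 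
(.lf (nat_lit 121698) (.g (nat_lit 1741) (.e (nat_lit 7081) (nat_lit 378) (.e (nat_lit 57884) (nat_lit 270) (.e (nat_lit 1454) (nat_lit 108) (.e (nat_lit 336389) (nat_lit 27) (.e (nat_lit 426344) (nat_lit 14) .nil))))) .nil)) 
(.lf (nat_lit 121714) (.g (nat_lit 1851) (.e (nat_lit 7081) (nat_lit 378) (.e (nat_lit 57897) (nat_lit 274) (.e (nat_lit 65653) (nat_lit 27) (.e (nat_lit 426344) (nat_lit 14) (.e (nat_lit 491552) (nat_lit 9) (.e (nat_lit 336248) (nat_lit 15) .nil)))))) (.g (nat_lit 6) .nil .nil)))) (.nd (nat_lit 4) 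
(.lf (nat_lit 121706) (.g (nat_lit 2739) (.e (nat_lit 7081) (nat_lit 378) (.e (nat_lit 57884) (nat_lit 270) (.e (nat_lit 1656) (nat_lit 115) (.e (nat_lit 393300) (nat_lit 27) (.e (nat_lit 491551) (nat_lit 9) (.e (nat_lit 336250) (nat_lit 15) .nil)))))) (.g (nat_lit 5) .nil .nil))) 
(.lf (nat_lit 121722) (.g (nat_lit 3472) (.e (nat_lit 7082) (nat_lit 378) (.e (nat_lit 57876) (nat_lit 270) (.e (nat_lit 1256) (nat_lit 92) (.e (nat_lit 98359) (nat_lit 26) (.e (nat_lit 426286) (nat_lit 10) (.e (nat_lit 434245) (nat_lit 28) (.e (nat_lit 573451) (nat_lit 9) (.e (nat_lit 11) (nat_lit 0) .nil)))))))) (.g (nat_lit 8) .nil .nil))))) (.nd (nat_lit 3) (.nd (nat_lit 4) 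
(.lf (nat_lit 121702) (.g (nat_lit 1760) (.e (nat_lit 7081) (nat_lit 378) (.e (nat_lit 57884) (nat_lit 270) (.e (nat_lit 1656) (nat_lit 115) (.e (nat_lit 393233) (nat_lit 17) (.e (nat_lit 7587) (nat_lit 406) .nil))))) .nil)) 
(.lf (nat_lit 121718) (.g (nat_lit 1205) (.e (nat_lit 7081) (nat_lit 378) (.e (nat_lit 57902) (nat_lit 277) (.e (nat_lit 131088) (nat_lit 1) (.e (nat_lit 57684) (nat_lit 155) (.e (nat_lit 122914) (nat_lit 14) (.e (nat_lit 352257) (nat_lit 0) .nil)))))) (.g (nat_lit 5) .nil .nil)))) (.nd (nat_lit 4) 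
(.lf (nat_lit 121710) (.g (nat_lit 2201) (.e (nat_lit 7081) (nat_lit 378) (.e (nat_lit 57897) (nat_lit 274) (.e (nat_lit 65653) (nat_lit 27) (.e (nat_lit 426011) (nat_lit 0) (.e (nat_lit 7587) (nat_lit 406) (.e (nat_lit 65632) (nat_lit 15) .nil)))))) (.g (nat_lit 6) .nil .nil))) 
(.lf (nat_lit 121726) (.g (nat_lit 1807) (.e (nat_lit 7082) (nat_lit 378) (.e (nat_lit 57876) (nat_lit 270) (.e (nat_lit 1665) (nat_lit 115) (.e (nat_lit 393301) (nat_lit 27) (.e (nat_lit 491552) (nat_lit 9) (.e (nat_lit 336248) (nat_lit 15) .nil)))))) (.g (nat_lit 6) .nil .nil))))))) (.nd (nat_lit 1) (.nd (nat_lit 2) (.nd (nat_lit 3) (.nd (nat_lit 4) 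
(.lf (nat_lit 121697) (.g (nat_lit 3578) (.e (nat_lit 7081) (nat_lit 378) (.e (nat_lit 57884) (nat_lit 270) (.e (nat_lit 1250) (nat_lit 92) (.e (nat_lit 98373) (nat_lit 29) (.e (nat_lit 450588) (nat_lit 10) (.e (nat_lit 573452) (nat_lit 9) (.e (nat_lit 11) (nat_lit 0) .nil))))))) (.g (nat_lit 7) .nil .nil))) 
(.lf (nat_lit 121713) (.g (nat_lit 2003) (.e (nat_lit 7081) (nat_lit 378) (.e (nat_lit 57897) (nat_lit 274) (.e (nat_lit 65653) (nat_lit 27) (.e (nat_lit 426343) (nat_lit 14) (.e (nat_lit 491552) (nat_lit 9) (.e (nat_lit 336250) (nat_lit 15) .nil)))))) (.g (nat_lit 0) .nil .nil)))) (.nd (nat_lit 4) 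
(.lf (nat_lit 121705) (.g (nat_lit 2612) (.e (nat_lit 7081) (nat_lit 378) (.e (nat_lit 57884) (nat_lit 270) (.e (nat_lit 1656) (nat_lit 115) (.e (nat_lit 393299) (nat_lit 27) (.e (nat_lit 491552) (nat_lit 9) .nil))))) .nil)) 
(.lf (nat_lit 121721) (.g (nat_lit 4087) (.e (nat_lit 7082) (nat_lit 378) (.e (nat_lit 57876) (nat_lit 270) (.e (nat_lit 1239) (nat_lit 91) (.e (nat_lit 90170) (nat_lit 13) (.e (nat_lit 172113) (nat_lit 10) (.e (nat_lit 434245) (nat_lit 28) (.e (nat_lit 573451) (nat_lit 9) (.e (nat_lit 11) (nat_lit 0) .nil)))))))) (.g (nat_lit 8) .nil .nil))))) (.nd (nat_lit 3) (.nd (nat_lit 4) 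
(.lf (nat_lit 121701) (.g (nat_lit 433) (.e (nat_lit 7081) (nat_lit 378) (.e (nat_lit 57884) (nat_lit 270) (.e (nat_lit 1550) (nat_lit 109) .nil))) .nil)) 
(.lf (nat_lit 121717) (.g (nat_lit 1924) (.e (nat_lit 7081) (nat_lit 378) (.e (nat_lit 57898) (nat_lit 275) (.e (nat_lit 73731) (nat_lit 0) (.e (nat_lit 7266) (nat_lit 384) (.e (nat_lit 57423) (nat_lit 14) (.e (nat_lit 352257) (nat_lit 0) .nil)))))) (.g (nat_lit 6) .nil .nil)))) (.nd (nat_lit 4) 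
(.lf (nat_lit 121709) (.g (nat_lit 1375) (.e (nat_lit 7081) (nat_lit 378) (.e (nat_lit 57897) (nat_lit 274) (.e (nat_lit 65565) (nat_lit 1) (.e (nat_lit 57684) (nat_lit 155) (.e (nat_lit 122914) (nat_lit 14) (.e (nat_lit 352257) (nat_lit 0) .nil)))))) (.g (nat_lit 0) .nil .nil))) 
(.lf (nat_lit 121725) (.g (nat_lit 3261) (.e (nat_lit 7082) (nat_lit 378) (.e (nat_lit 57876) (nat_lit 270) (.e (nat_lit 1256) (nat_lit 92) (.e (nat_lit 98373) (nat_lit 29) (.e (nat_lit 450588) (nat_lit 10) (.e (nat_lit 573452) (nat_lit 9) (.e (nat_lit 13) (nat_lit 0) .nil))))))) (.g (nat_lit 0) .nil .nil)))))) (.nd (nat_lit 2) (.nd (nat_lit 3) (.nd (nat_lit 4) 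
(.lf (nat_lit 121699) (.g (nat_lit 430) (.e (nat_lit 7081) (nat_lit 378) (.e (nat_lit 57884) (nat_lit 270) (.e (nat_lit 1544) (nat_lit 109) .nil))) .nil)) 
(.lf (nat_lit 121715) (.g (nat_lit 1299) (.e (nat_lit 7081) (nat_lit 378) (.e (nat_lit 57898) (nat_lit 275) (.e (nat_lit 73729) (nat_lit 0) (.e (nat_lit 7261) (nat_lit 384) (.e (nat_lit 57425) (nat_lit 14) (.e (nat_lit 352257) (nat_lit 0) .nil)))))) (.g (nat_lit 5) .nil .nil)))) (.nd (nat_lit 4) 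
(.lf (nat_lit 121707) (.g (nat_lit 2822) (.e (nat_lit 7081) (nat_lit 378) (.e (nat_lit 57884) (nat_lit 270) (.e (nat_lit 1656) (nat_lit 115) (.e (nat_lit 393301) (nat_lit 27) (.e (nat_lit 491552) (nat_lit 9) (.e (nat_lit 336248) (nat_lit 15) .nil)))))) (.g (nat_lit 6) .nil .nil))) 
(.lf (nat_lit 121723) (.g (nat_lit 1920) (.e (nat_lit 7082) (nat_lit 378) (.e (nat_lit 57876) (nat_lit 270) (.e (nat_lit 1256) (nat_lit 92) (.e (nat_lit 98372) (nat_lit 29) (.e (nat_lit 450586) (nat_lit 10) (.e (nat_lit 573452) (nat_lit 9) (.e (nat_lit 11) (nat_lit 0) .nil))))))) (.g (nat_lit 7) .nil .nil))))) (.nd (nat_lit 3) (.nd (nat_lit 4) 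
(.lf (nat_lit 121703) (.g (nat_lit 1729) (.e (nat_lit 7081) (nat_lit 378) (.e (nat_lit 57884) (nat_lit 270) (.e (nat_lit 1656) (nat_lit 115) (.e (nat_lit 393233) (nat_lit 17) (.e (nat_lit 7936) (nat_lit 406) .nil))))) .nil)) 
(.lf (nat_lit 121719) (.g (nat_lit 710) (.e (nat_lit 7081) (nat_lit 378) (.e (nat_lit 57902) (nat_lit 277) (.e (nat_lit 131138) (nat_lit 27) (.e (nat_lit 425987) (nat_lit 0) (.e (nat_lit 7588) (nat_lit 406) (.e (nat_lit 65632) (nat_lit 15) .nil)))))) (.g (nat_lit 6) .nil .nil)))) (.nd (nat_lit 4) 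
(.lf (nat_lit 121711) (.g (nat_lit 1384) (.e (nat_lit 7081) (nat_lit 378) (.e (nat_lit 57897) (nat_lit 274) (.e (nat_lit 65653) (nat_lit 27) (.e (nat_lit 426012) (nat_lit 0) (.e (nat_lit 7587) (nat_lit 406) (.e (nat_lit 65632) (nat_lit 15) .nil)))))) (.g (nat_lit 6) .nil .nil))) 
(.lf (nat_lit 121727) (.g (nat_lit 465) (.e (nat_lit 7082) (nat_lit 378) (.e (nat_lit 57884) (nat_lit 270) (.e (nat_lit 1656) (nat_lit 115) .nil))) .nil)))))))

noncomputable def tv1618 : DT := (.nd (nat_lit 0) (.nd (nat_lit 1) (.nd (nat_lit 2) (.nd (nat_lit 3) (.nd (nat_lit 4) (.nd (nat_lit 5) 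
(.lf (nat_lit 121728) (.g (nat_lit 1623) (.e (nat_lit 7082) (nat_lit 378) (.e (nat_lit 57884) (nat_lit 270) (.e (nat_lit 1656) (nat_lit 115) (.e (nat_lit 393233) (nat_lit 17) .nil)))) .nil)) 
(.lf (nat_lit 121760) (.g (nat_lit 2087) (.e (nat_lit 7082) (nat_lit 378) (.e (nat_lit 57902) (nat_lit 277) (.e (nat_lit 131140) (nat_lit 27) (.e (nat_lit 426011) (nat_lit 0) (.e (nat_lit 7587) (nat_lit 406) (.e (nat_lit 65632) (nat_lit 15) .nil)))))) (.g (nat_lit 6) .nil .nil)))) (.nd (nat_lit 5) 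
(.lf (nat_lit 121744) (.g (nat_lit 2159) (.e (nat_lit 7082) (nat_lit 378) (.e (nat_lit 57897) (nat_lit 274) (.e (nat_lit 65653) (nat_lit 27) (.e (nat_lit 426011) (nat_lit 0) (.e (nat_lit 7587) (nat_lit 406) (.e (nat_lit 65632) (nat_lit 15) .nil)))))) (.g (nat_lit 6) .nil .nil))) 
(.lf (nat_lit 121776) (.g (nat_lit 103) (.e (nat_lit 7087) (nat_lit 379) (.e (nat_lit 123163) (nat_lit 256) (.e (nat_lit 126) (nat_lit 5) (.e (nat_lit 122624) (nat_lit 5) .nil)))) .nil)))) (.nd (nat_lit 4) (.nd (nat_lit 5) 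
(.lf (nat_lit 121736) (.g (nat_lit 1742) (.e (nat_lit 7082) (nat_lit 378) (.e (nat_lit 57891) (nat_lit 270) (.e (nat_lit 1427) (nat_lit 108) (.e (nat_lit 336421) (nat_lit 28) .nil)))) .nil)) 
(.lf (nat_lit 121768) (.g (nat_lit 1060) (.e (nat_lit 7086) (nat_lit 379) (.e (nat_lit 123205) (nat_lit 270) (.e (nat_lit 1656) (nat_lit 115) (.e (nat_lit 393233) (nat_lit 17) (.e (nat_lit 7936) (nat_lit 406) .nil))))) .nil))) (.nd (nat_lit 5) 
(.lf (nat_lit 121752) (.g (nat_lit 1763) (.e (nat_lit 7082) (nat_lit 378) (.e (nat_lit 57898) (nat_lit 275) (.e (nat_lit 73732) (nat_lit 0) (.e (nat_lit 7271) (nat_lit 385) (.e (nat_lit 122916) (nat_lit 14) (.e (nat_lit 352257) (nat_lit 0) .nil)))))) (.g (nat_lit 6) .nil .nil))) 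
(.lf (nat_lit 121784) (.g (nat_lit 3471) (.e (nat_lit 7087) (nat_lit 379) (.e (nat_lit 123202) (nat_lit 270) (.e (nat_lit 1256) (nat_lit 92) (.e (nat_lit 98373) (nat_lit 29) (.e (nat_lit 450588) (nat_lit 10) (.e (nat_lit 573452) (nat_lit 9) (.e (nat_lit 16) (nat_lit 0) .nil))))))) (.g (nat_lit 0) .nil .nil)))))) (.nd (nat_lit 3) (.nd (nat_lit 4) (.nd (nat_lit 5) 
(.lf (nat_lit 121732) (.g (nat_lit 1431) (.e (nat_lit 7082) (nat_lit 378) (.e (nat_lit 57884) (nat_lit 270) (.e (nat_lit 1656) (nat_lit 115) (.e (nat_lit 393300) (nat_lit 27) .nil)))) .nil)) 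
(.lf (nat_lit 121764) (.g (nat_lit 2875) (.e (nat_lit 7086) (nat_lit 379) (.e (nat_lit 123202) (nat_lit 270) (.e (nat_lit 1256) (nat_lit 92) (.e (nat_lit 98373) (nat_lit 29) (.e (nat_lit 450587) (nat_lit 10) (.e (nat_lit 573457) (nat_lit 9) (.e (nat_lit 16) (nat_lit 0) .nil))))))) (.g (nat_lit 0) .nil .nil)))) (.nd (nat_lit 5) 
(.lf (nat_lit 121748) (.g (nat_lit 1253) (.e (nat_lit 7082) (nat_lit 378) (.e (nat_lit 57898) (nat_lit 275) (.e (nat_lit 73729) (nat_lit 0) (.e (nat_lit 7261) (nat_lit 384) (.e (nat_lit 57425) (nat_lit 14) (.e (nat_lit 352257) (nat_lit 0) .nil)))))) (.g (nat_lit 5) .nil .nil))) 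
(.lf (nat_lit 121780) (.g (nat_lit 3652) (.e (nat_lit 7087) (nat_lit 379) (.e (nat_lit 123202) (nat_lit 270) (.e (nat_lit 1256) (nat_lit 92) (.e (nat_lit 98359) (nat_lit 26) (.e (nat_lit 426286) (nat_lit 10) (.e (nat_lit 434245) (nat_lit 28) (.e (nat_lit 573451) (nat_lit 9) (.e (nat_lit 16) (nat_lit 0) .nil)))))))) (.g (nat_lit 0) .nil .nil))))) (.nd (nat_lit 4) (.nd (nat_lit 5) 
(.lf (nat_lit 121740) (.g (nat_lit 1617) (.e (nat_lit 7082) (nat_lit 378) (.e (nat_lit 57891) (nat_lit 270) (.e (nat_lit 1661) (nat_lit 115) (.e (nat_lit 393242) (nat_lit 17) (.e (nat_lit 7936) (nat_lit 406) (.e (nat_lit 65632) (nat_lit 15) .nil)))))) (.g (nat_lit 4) .nil .nil))) 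
(.lf (nat_lit 121772) (.g (nat_lit 1944) (.e (nat_lit 7086) (nat_lit 379) (.e (nat_lit 123213) (nat_lit 274) (.e (nat_lit 65653) (nat_lit 27) (.e (nat_lit 426344) (nat_lit 14) (.e (nat_lit 491552) (nat_lit 9) (.e (nat_lit 336253) (nat_lit 15) .nil)))))) (.g (nat_lit 0) .nil .nil)))) (.nd (nat_lit 5) 
(.lf (nat_lit 121756) (.g (nat_lit 734) (.e (nat_lit 7082) (nat_lit 378) (.e (nat_lit 57898) (nat_lit 275) (.e (nat_lit 73773) (nat_lit 25) (.e (nat_lit 770074) (nat_lit 10) (.e (nat_lit 89856) (nat_lit 0) .nil))))) (.g (nat_lit 4) .nil .nil))) 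
(.lf (nat_lit 121788) (.g (nat_lit 1064) (.e (nat_lit 7087) (nat_lit 379) (.e (nat_lit 123205) (nat_lit 270) (.e (nat_lit 1656) (nat_lit 115) (.e (nat_lit 393233) (nat_lit 17) (.e (nat_lit 7936) (nat_lit 406) .nil))))) .nil)))))) (.nd (nat_lit 2) (.nd (nat_lit 3) (.nd (nat_lit 4) (.nd (nat_lit 5) 
(.lf (nat_lit 121730) (.g (nat_lit 2066) (.e (nat_lit 7082) (nat_lit 378) (.e (nat_lit 57884) (nat_lit 270) (.e (nat_lit 1656) (nat_lit 115) (.e (nat_lit 393234) (nat_lit 17) (.e (nat_lit 7587) (nat_lit 406) .nil))))) .nil)) 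
(.lf (nat_lit 121762) (.g (nat_lit 2302) (.e (nat_lit 7086) (nat_lit 379) (.e (nat_lit 123202) (nat_lit 270) (.e (nat_lit 1256) (nat_lit 92) (.e (nat_lit 98372) (nat_lit 29) (.e (nat_lit 450586) (nat_lit 10) (.e (nat_lit 573452) (nat_lit 9) (.e (nat_lit 16) (nat_lit 0) .nil))))))) (.g (nat_lit 0) .nil .nil)))) (.nd (nat_lit 5) 
(.lf (nat_lit 121746) (.g (nat_lit 1962) (.e (nat_lit 7082) (nat_lit 378) (.e (nat_lit 57897) (nat_lit 274) (.e (nat_lit 65653) (nat_lit 27) (.e (nat_lit 426343) (nat_lit 14) (.e (nat_lit 491552) (nat_lit 9) (.e (nat_lit 336250) (nat_lit 15) .nil)))))) (.g (nat_lit 6) .nil .nil))) 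
(.lf (nat_lit 121778) (.g (nat_lit 4002) (.e (nat_lit 7087) (nat_lit 379) (.e (nat_lit 123202) (nat_lit 270) (.e (nat_lit 1239) (nat_lit 91) (.e (nat_lit 90170) (nat_lit 13) (.e (nat_lit 172113) (nat_lit 10) (.e (nat_lit 434245) (nat_lit 28) (.e (nat_lit 573451) (nat_lit 9) (.e (nat_lit 16) (nat_lit 0) .nil)))))))) (.g (nat_lit 0) .nil .nil))))) (.nd (nat_lit 4) (.nd (nat_lit 5) 
(.lf (nat_lit 121738) (.g (nat_lit 2521) (.e (nat_lit 7082) (nat_lit 378) (.e (nat_lit 57891) (nat_lit 270) (.e (nat_lit 1659) (nat_lit 115) (.e (nat_lit 393301) (nat_lit 27) (.e (nat_lit 491551) (nat_lit 9) (.e (nat_lit 336250) (nat_lit 15) .nil)))))) (.g (nat_lit 5) .nil .nil))) 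
(.lf (nat_lit 121770) (.g (nat_lit 1719) (.e (nat_lit 7086) (nat_lit 379) (.e (nat_lit 123213) (nat_lit 274) (.e (nat_lit 65653) (nat_lit 27) (.e (nat_lit 426011) (nat_lit 0) (.e (nat_lit 7936) (nat_lit 406) .nil))))) .nil))) (.nd (nat_lit 5) 
(.lf (nat_lit 121754) (.g (nat_lit 476) (.e (nat_lit 7082) (nat_lit 378) (.e (nat_lit 57898) (nat_lit 275) (.e (nat_lit 73772) (nat_lit 24) (.e (nat_lit 761868) (nat_lit 5) (.e (nat_lit 1558) (nat_lit 110) (.e (nat_lit 352257) (nat_lit 0) .nil)))))) (.g (nat_lit 5) .nil .nil))) 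
(.lf (nat_lit 121786) (.g (nat_lit 1982) (.e (nat_lit 7087) (nat_lit 379) (.e (nat_lit 123202) (nat_lit 270) (.e (nat_lit 1665) (nat_lit 115) (.e (nat_lit 393301) (nat_lit 27) (.e (nat_lit 491552) (nat_lit 9) (.e (nat_lit 336253) (nat_lit 15) .nil)))))) (.g (nat_lit 0) .nil .nil)))))) (.nd (nat_lit 3) (.nd (nat_lit 4) (.nd (nat_lit 5) 
(.lf (nat_lit 121734) (.g (nat_lit 2591) (.e (nat_lit 7082) (nat_lit 378) (.e (nat_lit 57887) (nat_lit 270) (.e (nat_lit 1656) (nat_lit 115) (.e (nat_lit 393234) (nat_lit 17) (.e (nat_lit 7589) (nat_lit 406) (.e (nat_lit 65632) (nat_lit 15) .nil)))))) (.g (nat_lit 5) .nil .nil))) 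
(.lf (nat_lit 121766) (.g (nat_lit 2180) (.e (nat_lit 7086) (nat_lit 379) (.e (nat_lit 123202) (nat_lit 270) (.e (nat_lit 1400) (nat_lit 106) (.e (nat_lit 319533) (nat_lit 16) (.e (nat_lit 286753) (nat_lit 10) .nil))))) .nil))) (.nd (nat_lit 5) 
(.lf (nat_lit 121750) (.g (nat_lit 1880) (.e (nat_lit 7082) (nat_lit 378) (.e (nat_lit 57898) (nat_lit 275) (.e (nat_lit 73731) (nat_lit 0) (.e (nat_lit 7266) (nat_lit 384) (.e (nat_lit 57423) (nat_lit 14) (.e (nat_lit 352257) (nat_lit 0) .nil)))))) (.g (nat_lit 6) .nil .nil))) 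
(.lf (nat_lit 121782) (.g (nat_lit 2328) (.e (nat_lit 7087) (nat_lit 379) (.e (nat_lit 123202) (nat_lit 270) (.e (nat_lit 1256) (nat_lit 92) (.e (nat_lit 98372) (nat_lit 29) (.e (nat_lit 450586) (nat_lit 10) (.e (nat_lit 573452) (nat_lit 9) (.e (nat_lit 16) (nat_lit 0) .nil))))))) (.g (nat_lit 0) .nil .nil))))) (.nd (nat_lit 4) (.nd (nat_lit 5) 
(.lf (nat_lit 121742) (.g (nat_lit 3622) (.e (nat_lit 7082) (nat_lit 378) (.e (nat_lit 57896) (nat_lit 273) (.e (nat_lit 57464) (nat_lit 23) (.e (nat_lit 516151) (nat_lit 9) (.e (nat_lit 426286) (nat_lit 10) (.e (nat_lit 434245) (nat_lit 28) (.e (nat_lit 573451) (nat_lit 9) (.e (nat_lit 11) (nat_lit 0) .nil)))))))) (.g (nat_lit 0) .nil .nil))) 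
(.lf (nat_lit 121774) (.g (nat_lit 1210) (.e (nat_lit 7086) (nat_lit 379) (.e (nat_lit 123214) (nat_lit 275) (.e (nat_lit 73733) (nat_lit 0) (.e (nat_lit 7273) (nat_lit 385) (.e (nat_lit 122914) (nat_lit 14) (.e (nat_lit 352258) (nat_lit 0) .nil)))))) (.g (nat_lit 6) .nil .nil)))) (.nd (nat_lit 5) 
(.lf (nat_lit 121758) (.g (nat_lit 684) (.e (nat_lit 7082) (nat_lit 378) (.e (nat_lit 57902) (nat_lit 277) (.e (nat_lit 131138) (nat_lit 27) (.e (nat_lit 425987) (nat_lit 0) (.e (nat_lit 7588) (nat_lit 406) (.e (nat_lit 65632) (nat_lit 15) .nil)))))) (.g (nat_lit 6) .nil .nil))) 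
(.lf (nat_lit 121790) (.g (nat_lit 3772) (.e (nat_lit 7087) (nat_lit 379) (.e (nat_lit 123212) (nat_lit 273) (.e (nat_lit 57464) (nat_lit 23) (.e (nat_lit 516151) (nat_lit 9) (.e (nat_lit 426286) (nat_lit 10) (.e (nat_lit 434245) (nat_lit 28) (.e (nat_lit 573451) (nat_lit 9) (.e (nat_lit 16) (nat_lit 0) .nil)))))))) (.g (nat_lit 0) .nil .nil)))))))) 
(.nd (nat_lit 1) (.nd (nat_lit 2) (.nd (nat_lit 3) (.nd (nat_lit 4) (.nd (nat_lit 5) 
(.lf (nat_lit 121729) (.g (nat_lit 1286) (.e (nat_lit 7082) (nat_lit 378) (.e (nat_lit 57884) (nat_lit 270) (.e (nat_lit 1656) (nat_lit 115) (.e (nat_lit 393234) (nat_lit 17) .nil)))) .nil)) 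
(.lf (nat_lit 121761) (.g (nat_lit 3427) (.e (nat_lit 7086) (nat_lit 379) (.e (nat_lit 123202) (nat_lit 270) (.e (nat_lit 1256) (nat_lit 92) (.e (nat_lit 98359) (nat_lit 26) (.e (nat_lit 426286) (nat_lit 10) (.e (nat_lit 434248) (nat_lit 28) (.e (nat_lit 573452) (nat_lit 9) (.e (nat_lit 16) (nat_lit 0) .nil)))))))) (.g (nat_lit 0) .nil .nil)))) (.nd (nat_lit 5) 
(.lf (nat_lit 121745) (.g (nat_lit 1339) (.e (nat_lit 7082) (nat_lit 378) (.e (nat_lit 57897) (nat_lit 274) (.e (nat_lit 65653) (nat_lit 27) (.e (nat_lit 426012) (nat_lit 0) (.e (nat_lit 7587) (nat_lit 406) (.e (nat_lit 65632) (nat_lit 15) .nil)))))) (.g (nat_lit 6) .nil .nil))) 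
(.lf (nat_lit 121777) (.g (nat_lit 4659) (.e (nat_lit 7087) (nat_lit 379) (.e (nat_lit 123202) (nat_lit 270) (.e (nat_lit 1239) (nat_lit 91) (.e (nat_lit 90170) (nat_lit 13) (.e (nat_lit 172106) (nat_lit 10) (.e (nat_lit 434244) (nat_lit 28) (.e (nat_lit 573451) (nat_lit 9) (.e (nat_lit 16) (nat_lit 0) .nil)))))))) (.g (nat_lit 0) .nil .nil))))) (.nd (nat_lit 4) (.nd (nat_lit 5) 
(.lf (nat_lit 121737) (.g (nat_lit 1080) (.e (nat_lit 7082) (nat_lit 378) (.e (nat_lit 57891) (nat_lit 270) (.e (nat_lit 1428) (nat_lit 108) (.e (nat_lit 336421) (nat_lit 28) .nil)))) .nil)) 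
(.lf (nat_lit 121769) (.g (nat_lit 895) (.e (nat_lit 7086) (nat_lit 379) (.e (nat_lit 123205) (nat_lit 270) (.e (nat_lit 1656) (nat_lit 115) (.e (nat_lit 393237) (nat_lit 17) (.e (nat_lit 7936) (nat_lit 406) .nil))))) .nil))) (.nd (nat_lit 5) 
(.lf (nat_lit 121753) (.g (nat_lit 1757) (.e (nat_lit 7082) (nat_lit 378) (.e (nat_lit 57898) (nat_lit 275) (.e (nat_lit 73732) (nat_lit 0) (.e (nat_lit 7272) (nat_lit 385) (.e (nat_lit 122916) (nat_lit 14) (.e (nat_lit 352257) (nat_lit 0) .nil)))))) (.g (nat_lit 6) .nil .nil))) 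
(.lf (nat_lit 121785) (.g (nat_lit 2266) (.e (nat_lit 7087) (nat_lit 379) (.e (nat_lit 123202) (nat_lit 270) (.e (nat_lit 1400) (nat_lit 106) (.e (nat_lit 319533) (nat_lit 16) (.e (nat_lit 286753) (nat_lit 10) (.e (nat_lit 344160) (nat_lit 37) (.e (nat_lit 647195) (nat_lit 9) (.e (nat_lit 59) (nat_lit 0) .nil)))))))) (.g (nat_lit 4) .nil .nil)))))) 
(.nd (nat_lit 3) (.nd (nat_lit 4) (.nd (nat_lit 5) 
(.lf (nat_lit 121733) (.g (nat_lit 1572) (.e (nat_lit 7082) (nat_lit 378) (.e (nat_lit 57884) (nat_lit 270) (.e (nat_lit 1656) (nat_lit 115) (.e (nat_lit 393301) (nat_lit 27) .nil)))) .nil)) 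
(.lf (nat_lit 121765) (.g (nat_lit 3447) (.e (nat_lit 7086) (nat_lit 379) (.e (nat_lit 123202) (nat_lit 270) (.e (nat_lit 1256) (nat_lit 92) (.e (nat_lit 98373) (nat_lit 29) (.e (nat_lit 450588) (nat_lit 10) (.e (nat_lit 573452) (nat_lit 9) (.e (nat_lit 16) (nat_lit 0) .nil))))))) (.g (nat_lit 0) .nil .nil)))) (.nd (nat_lit 5) 
(.lf (nat_lit 121749) (.g (nat_lit 2087) (.e (nat_lit 7082) (nat_lit 378) (.e (nat_lit 57898) (nat_lit 275) (.e (nat_lit 73729) (nat_lit 0) (.e (nat_lit 7265) (nat_lit 384) (.e (nat_lit 57424) (nat_lit 14) (.e (nat_lit 352257) (nat_lit 0) .nil)))))) (.g (nat_lit 6) .nil .nil))) 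
(.lf (nat_lit 121781) (.g (nat_lit 2882) (.e (nat_lit 7087) (nat_lit 379) (.e (nat_lit 123202) (nat_lit 270) (.e (nat_lit 1256) (nat_lit 92) (.e (nat_lit 98359) (nat_lit 26) (.e (nat_lit 426286) (nat_lit 10) (.e (nat_lit 434247) (nat_lit 28) (.e (nat_lit 573457) (nat_lit 9) (.e (nat_lit 16) (nat_lit 0) .nil)))))))) (.g (nat_lit 0) .nil .nil))))) (.nd (nat_lit 4) (.nd (nat_lit 5) 
(.lf (nat_lit 121741) (.g (nat_lit 2425) (.e (nat_lit 7082) (nat_lit 378) (.e (nat_lit 57891) (nat_lit 270) (.e (nat_lit 1661) (nat_lit 115) (.e (nat_lit 393260) (nat_lit 21) (.e (nat_lit 409623) (nat_lit 10) .nil))))) .nil)) 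
(.lf (nat_lit 121773) (.g (nat_lit 1621) (.e (nat_lit 7086) (nat_lit 379) (.e (nat_lit 123214) (nat_lit 275) (.e (nat_lit 73732) (nat_lit 0) (.e (nat_lit 7272) (nat_lit 385) (.e (nat_lit 122916) (nat_lit 14) (.e (nat_lit 352258) (nat_lit 0) .nil)))))) (.g (nat_lit 5) .nil .nil)))) (.nd (nat_lit 5) 
(.lf (nat_lit 121757) (.g (nat_lit 87) (.e (nat_lit 7082) (nat_lit 378) (.e (nat_lit 57898) (nat_lit 275) (.e (nat_lit 73774) (nat_lit 26) (.e (nat_lit 778340) (nat_lit 9) .nil)))) .nil)) 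
(.lf (nat_lit 121789) (.g (nat_lit 899) (.e (nat_lit 7087) (nat_lit 379) (.e (nat_lit 123205) (nat_lit 270) (.e (nat_lit 1656) (nat_lit 115) (.e (nat_lit 393237) (nat_lit 17) (.e (nat_lit 7936) (nat_lit 406) .nil))))) .nil)))))) (.nd (nat_lit 2) (.nd (nat_lit 3) (.nd (nat_lit 4) (.nd (nat_lit 5) 
(.lf (nat_lit 121731) (.g (nat_lit 1963) (.e (nat_lit 7082) (nat_lit 378) (.e (nat_lit 57884) (nat_lit 270) (.e (nat_lit 1656) (nat_lit 115) (.e (nat_lit 393234) (nat_lit 17) (.e (nat_lit 7589) (nat_lit 406) .nil))))) .nil)) 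
(.lf (nat_lit 121763) (.g (nat_lit 2164) (.e (nat_lit 7086) (nat_lit 379) (.e (nat_lit 123202) (nat_lit 270) (.e (nat_lit 1256) (nat_lit 92) (.e (nat_lit 98372) (nat_lit 29) (.e (nat_lit 450586) (nat_lit 10) (.e (nat_lit 573457) (nat_lit 9) (.e (nat_lit 16) (nat_lit 0) .nil))))))) (.g (nat_lit 0) .nil .nil)))) (.nd (nat_lit 5) 
(.lf (nat_lit 121747) (.g (nat_lit 1803) (.e (nat_lit 7082) (nat_lit 378) (.e (nat_lit 57897) (nat_lit 274) (.e (nat_lit 65653) (nat_lit 27) (.e (nat_lit 426344) (nat_lit 14) (.e (nat_lit 491552) (nat_lit 9) (.e (nat_lit 336248) (nat_lit 15) .nil)))))) (.g (nat_lit 6) .nil .nil))) 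
(.lf (nat_lit 121779) (.g (nat_lit 3460) (.e (nat_lit 7087) (nat_lit 379) (.e (nat_lit 123202) (nat_lit 270) (.e (nat_lit 1239) (nat_lit 91) (.e (nat_lit 90170) (nat_lit 13) (.e (nat_lit 172113) (nat_lit 10) (.e (nat_lit 434247) (nat_lit 28) (.e (nat_lit 573457) (nat_lit 9) (.e (nat_lit 16) (nat_lit 0) .nil)))))))) (.g (nat_lit 0) .nil .nil))))) (.nd (nat_lit 4) (.nd (nat_lit 5) 
(.lf (nat_lit 121739) (.g (nat_lit 414) (.e (nat_lit 7082) (nat_lit 378) (.e (nat_lit 57891) (nat_lit 270) (.e (nat_lit 1661) (nat_lit 115) .nil))) .nil)) 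
(.lf (nat_lit 121771) (.g (nat_lit 1339) (.e (nat_lit 7086) (nat_lit 379) (.e (nat_lit 123213) (nat_lit 274) (.e (nat_lit 65653) (nat_lit 27) (.e (nat_lit 426012) (nat_lit 0) (.e (nat_lit 7936) (nat_lit 406) .nil))))) .nil))) (.nd (nat_lit 5) 
(.lf (nat_lit 121755) (.g (nat_lit 679) (.e (nat_lit 7082) (nat_lit 378) (.e (nat_lit 57898) (nat_lit 275) (.e (nat_lit 73772) (nat_lit 24) (.e (nat_lit 761869) (nat_lit 5) (.e (nat_lit 1558) (nat_lit 110) (.e (nat_lit 352257) (nat_lit 0) .nil)))))) (.g (nat_lit 5) .nil .nil))) 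
(.lf (nat_lit 121787) (.g (nat_lit 1727) (.e (nat_lit 7087) (nat_lit 379) (.e (nat_lit 123205) (nat_lit 270) (.e (nat_lit 1656) (nat_lit 115) (.e (nat_lit 393233) (nat_lit 17) (.e (nat_lit 7589) (nat_lit 406) (.e (nat_lit 65633) (nat_lit 15) .nil)))))) (.g (nat_lit 6) .nil .nil)))))) (.nd (nat_lit 3) (.nd (nat_lit 4) (.nd (nat_lit 5) 
(.lf (nat_lit 121735) (.g (nat_lit 1831) (.e (nat_lit 7082) (nat_lit 378) (.e (nat_lit 57887) (nat_lit 270) (.e (nat_lit 1656) (nat_lit 115) (.e (nat_lit 393234) (nat_lit 17) (.e (nat_lit 7936) (nat_lit 406) .nil))))) .nil)) 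
(.lf (nat_lit 121767) (.g (nat_lit 1720) (.e (nat_lit 7086) (nat_lit 379) (.e (nat_lit 123205) (nat_lit 270) (.e (nat_lit 1656) (nat_lit 115) (.e (nat_lit 393233) (nat_lit 17) (.e (nat_lit 7589) (nat_lit 406) (.e (nat_lit 65633) (nat_lit 15) .nil)))))) (.g (nat_lit 6) .nil .nil)))) (.nd (nat_lit 5) 
(.lf (nat_lit 121751) (.g (nat_lit 1850) (.e (nat_lit 7082) (nat_lit 378) (.e (nat_lit 57898) (nat_lit 275) (.e (nat_lit 73732) (nat_lit 0) (.e (nat_lit 7270) (nat_lit 385) (.e (nat_lit 122916) (nat_lit 14) (.e (nat_lit 352257) (nat_lit 0) .nil)))))) (.g (nat_lit 6) .nil .nil))) 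
(.lf (nat_lit 121783) (.g (nat_lit 2897) (.e (nat_lit 7087) (nat_lit 379) (.e (nat_lit 123202) (nat_lit 270) (.e (nat_lit 1256) (nat_lit 92) (.e (nat_lit 98373) (nat_lit 29) (.e (nat_lit 450587) (nat_lit 10) (.e (nat_lit 573457) (nat_lit 9) (.e (nat_lit 16) (nat_lit 0) .nil))))))) (.g (nat_lit 0) .nil .nil))))) (.nd (nat_lit 4) (.nd (nat_lit 5) 
(.lf (nat_lit 121743) (.g (nat_lit 2906) (.e (nat_lit 7082) (nat_lit 378) (.e (nat_lit 57896) (nat_lit 273) (.e (nat_lit 57464) (nat_lit 23) (.e (nat_lit 516166) (nat_lit 12) (.e (nat_lit 450588) (nat_lit 10) (.e (nat_lit 573452) (nat_lit 9) (.e (nat_lit 13) (nat_lit 0) .nil))))))) (.g (nat_lit 0) .nil .nil))) 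
(.lf (nat_lit 121775) (.g (nat_lit 446) (.e (nat_lit 7087) (nat_lit 379) (.e (nat_lit 123162) (nat_lit 256) (.e (nat_lit 123) (nat_lit 5) (.e (nat_lit 122624) (nat_lit 5) .nil)))) .nil))) (.nd (nat_lit 5) 
(.lf (nat_lit 121759) (.g (nat_lit 1110) (.e (nat_lit 7082) (nat_lit 378) (.e (nat_lit 57902) (nat_lit 277) (.e (nat_lit 131140) (nat_lit 27) (.e (nat_lit 426009) (nat_lit 0) (.e (nat_lit 7589) (nat_lit 406) (.e (nat_lit 65632) (nat_lit 15) .nil)))))) (.g (nat_lit 5) .nil .nil))) 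
(.lf (nat_lit 121791) (.g (nat_lit 2992) (.e (nat_lit 7087) (nat_lit 379) (.e (nat_lit 123212) (nat_lit 273) (.e (nat_lit 57464) (nat_lit 23) (.e (nat_lit 516151) (nat_lit 9) (.e (nat_lit 426286) (nat_lit 10) (.e (nat_lit 434247) (nat_lit 28) (.e (nat_lit 573457) (nat_lit 9) (.e (nat_lit 16) (nat_lit 0) .nil)))))))) (.g (nat_lit 0) .nil .nil)))))))))

noncomputable def tv1619 : DT := (.nd (nat_lit 0) (.nd (nat_lit 1) (.nd (nat_lit 2) (.nd (nat_lit 3) (.nd (nat_lit 4) 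
(.lf (nat_lit 121792) (.g (nat_lit 2359) (.e (nat_lit 7087) (nat_lit 379) (.e (nat_lit 123212) (nat_lit 273) (.e (nat_lit 57464) (nat_lit 23) (.e (nat_lit 516165) (nat_lit 12) (.e (nat_lit 450586) (nat_lit 10) (.e (nat_lit 573452) (nat_lit 9) (.e (nat_lit 16) (nat_lit 0) .nil))))))) (.g (nat_lit 0) .nil .nil))) 
(.lf (nat_lit 121808) (.g (nat_lit 765) (.e (nat_lit 7087) (nat_lit 379) (.e (nat_lit 123213) (nat_lit 274) (.e (nat_lit 65652) (nat_lit 27) (.e (nat_lit 425989) (nat_lit 0) (.e (nat_lit 7588) (nat_lit 406) (.e (nat_lit 65633) (nat_lit 15) .nil)))))) (.g (nat_lit 0) .nil .nil)))) (.nd (nat_lit 4) 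
(.lf (nat_lit 121800) (.g (nat_lit 1123) (.e (nat_lit 7087) (nat_lit 379) (.e (nat_lit 123213) (nat_lit 274) (.e (nat_lit 65633) (nat_lit 15) (.e (nat_lit 7088) (nat_lit 379) (.e (nat_lit 123213) (nat_lit 274) (.e (nat_lit 65633) (nat_lit 15) .nil)))))) (.g (nat_lit 0) .nil .nil))) 
(.lf (nat_lit 121816) (.g (nat_lit 1336) (.e (nat_lit 7087) (nat_lit 379) (.e (nat_lit 123213) (nat_lit 274) (.e (nat_lit 65653) (nat_lit 27) (.e (nat_lit 426012) (nat_lit 0) (.e (nat_lit 7936) (nat_lit 406) .nil))))) .nil)))) (.nd (nat_lit 3) (.nd (nat_lit 4) 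
(.lf (nat_lit 121796) (.g (nat_lit 803) (.e (nat_lit 7087) (nat_lit 379) (.e (nat_lit 123213) (nat_lit 274) (.e (nat_lit 65632) (nat_lit 15) (.e (nat_lit 7081) (nat_lit 378) (.e (nat_lit 57897) (nat_lit 274) (.e (nat_lit 65633) (nat_lit 15) .nil)))))) (.g (nat_lit 0) .nil .nil))) 
(.lf (nat_lit 121812) (.g (nat_lit 914) (.e (nat_lit 7087) (nat_lit 379) (.e (nat_lit 123213) (nat_lit 274) (.e (nat_lit 65653) (nat_lit 27) (.e (nat_lit 426010) (nat_lit 0) (.e (nat_lit 7936) (nat_lit 406) .nil))))) .nil))) (.nd (nat_lit 4) 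
(.lf (nat_lit 121804) (.g (nat_lit 921) (.e (nat_lit 7087) (nat_lit 379) (.e (nat_lit 123213) (nat_lit 274) (.e (nat_lit 65648) (nat_lit 26) (.e (nat_lit 417795) (nat_lit 0) (.e (nat_lit 5405) (nat_lit 302) (.e (nat_lit 65633) (nat_lit 15) .nil)))))) (.g (nat_lit 0) .nil .nil))) 
(.lf (nat_lit 121820) (.g (nat_lit 1984) (.e (nat_lit 7087) (nat_lit 379) (.e (nat_lit 123214) (nat_lit 275) (.e (nat_lit 73729) (nat_lit 0) (.e (nat_lit 7265) (nat_lit 384) (.e (nat_lit 57423) (nat_lit 14) (.e (nat_lit 352258) (nat_lit 0) .nil)))))) (.g (nat_lit 0) .nil .nil)))))) (.nd (nat_lit 2) (.nd (nat_lit 3) (.nd (nat_lit 4) 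
(.lf (nat_lit 121794) (.g (nat_lit 3088) (.e (nat_lit 7087) (nat_lit 379) (.e (nat_lit 123212) (nat_lit 273) (.e (nat_lit 57464) (nat_lit 23) (.e (nat_lit 516166) (nat_lit 12) (.e (nat_lit 450588) (nat_lit 10) (.e (nat_lit 573452) (nat_lit 9) (.e (nat_lit 16) (nat_lit 0) .nil))))))) (.g (nat_lit 0) .nil .nil))) 
(.lf (nat_lit 121810) (.g (nat_lit 1255) (.e (nat_lit 7087) (nat_lit 379) (.e (nat_lit 123213) (nat_lit 274) (.e (nat_lit 65653) (nat_lit 27) (.e (nat_lit 426009) (nat_lit 0) (.e (nat_lit 7589) (nat_lit 406) (.e (nat_lit 65633) (nat_lit 15) .nil)))))) (.g (nat_lit 0) .nil .nil)))) (.nd (nat_lit 4) 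
(.lf (nat_lit 121802) (.g (nat_lit 731) (.e (nat_lit 7087) (nat_lit 379) (.e (nat_lit 123213) (nat_lit 274) (.e (nat_lit 65647) (nat_lit 25) (.e (nat_lit 409605) (nat_lit 0) (.e (nat_lit 5404) (nat_lit 302) (.e (nat_lit 65633) (nat_lit 15) .nil)))))) (.g (nat_lit 0) .nil .nil))) 
(.lf (nat_lit 121818) (.g (nat_lit 1583) (.e (nat_lit 7087) (nat_lit 379) (.e (nat_lit 123214) (nat_lit 275) (.e (nat_lit 73729) (nat_lit 0) (.e (nat_lit 7261) (nat_lit 384) (.e (nat_lit 57423) (nat_lit 14) (.e (nat_lit 352258) (nat_lit 0) .nil)))))) (.g (nat_lit 0) .nil .nil))))) (.nd (nat_lit 3) (.nd (nat_lit 4) 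
(.lf (nat_lit 121798) (.g (nat_lit 1009) (.e (nat_lit 7087) (nat_lit 379) (.e (nat_lit 123213) (nat_lit 274) (.e (nat_lit 65633) (nat_lit 15) (.e (nat_lit 7086) (nat_lit 379) (.e (nat_lit 123213) (nat_lit 274) (.e (nat_lit 65633) (nat_lit 15) .nil)))))) (.g (nat_lit 0) .nil .nil))) 
(.lf (nat_lit 121814) (.g (nat_lit 1715) (.e (nat_lit 7087) (nat_lit 379) (.e (nat_lit 123213) (nat_lit 274) (.e (nat_lit 65653) (nat_lit 27) (.e (nat_lit 426011) (nat_lit 0) (.e (nat_lit 7936) (nat_lit 406) .nil))))) .nil))) (.nd (nat_lit 4) 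
(.lf (nat_lit 121806) (.g (nat_lit 811) (.e (nat_lit 7087) (nat_lit 379) (.e (nat_lit 123213) (nat_lit 274) (.e (nat_lit 65652) (nat_lit 27) (.e (nat_lit 425984) (nat_lit 0) (.e (nat_lit 7588) (nat_lit 406) (.e (nat_lit 65633) (nat_lit 15) .nil)))))) (.g (nat_lit 0) .nil .nil))) 
(.lf (nat_lit 121822) (.g (nat_lit 1700) (.e (nat_lit 7087) (nat_lit 379) (.e (nat_lit 123214) (nat_lit 275) (.e (nat_lit 73732) (nat_lit 0) (.e (nat_lit 7270) (nat_lit 385) (.e (nat_lit 122914) (nat_lit 14) (.e (nat_lit 352258) (nat_lit 0) .nil)))))) (.g (nat_lit 0) .nil .nil))))))) (.nd (nat_lit 1) (.nd (nat_lit 2) (.nd (nat_lit 3) (.nd (nat_lit 4) 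
(.lf (nat_lit 121793) (.g (nat_lit 2392) (.e (nat_lit 7087) (nat_lit 379) (.e (nat_lit 123212) (nat_lit 273) (.e (nat_lit 57464) (nat_lit 23) (.e (nat_lit 516166) (nat_lit 12) (.e (nat_lit 450587) (nat_lit 10) (.e (nat_lit 573457) (nat_lit 9) (.e (nat_lit 16) (nat_lit 0) .nil))))))) (.g (nat_lit 0) .nil .nil))) 
(.lf (nat_lit 121809) (.g (nat_lit 714) (.e (nat_lit 7087) (nat_lit 379) (.e (nat_lit 123213) (nat_lit 274) (.e (nat_lit 65652) (nat_lit 27) (.e (nat_lit 425990) (nat_lit 0) (.e (nat_lit 7588) (nat_lit 406) (.e (nat_lit 65633) (nat_lit 15) .nil)))))) (.g (nat_lit 0) .nil .nil)))) (.nd (nat_lit 4) 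
(.lf (nat_lit 121801) (.g (nat_lit 1117) (.e (nat_lit 7087) (nat_lit 379) (.e (nat_lit 123213) (nat_lit 274) (.e (nat_lit 65633) (nat_lit 15) (.e (nat_lit 7089) (nat_lit 379) (.e (nat_lit 123213) (nat_lit 274) (.e (nat_lit 65633) (nat_lit 15) .nil)))))) (.g (nat_lit 0) .nil .nil))) 
(.lf (nat_lit 121817) (.g (nat_lit 1956) (.e (nat_lit 7087) (nat_lit 379) (.e (nat_lit 123213) (nat_lit 274) (.e (nat_lit 65653) (nat_lit 27) (.e (nat_lit 426344) (nat_lit 14) (.e (nat_lit 491552) (nat_lit 9) (.e (nat_lit 336253) (nat_lit 15) .nil)))))) (.g (nat_lit 0) .nil .nil))))) (.nd (nat_lit 3) (.nd (nat_lit 4) 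
(.lf (nat_lit 121797) (.g (nat_lit 746) (.e (nat_lit 7087) (nat_lit 379) (.e (nat_lit 123213) (nat_lit 274) (.e (nat_lit 65632) (nat_lit 15) (.e (nat_lit 7082) (nat_lit 378) (.e (nat_lit 57897) (nat_lit 274) (.e (nat_lit 65633) (nat_lit 15) .nil)))))) (.g (nat_lit 0) .nil .nil))) 
(.lf (nat_lit 121813) (.g (nat_lit 2198) (.e (nat_lit 7087) (nat_lit 379) (.e (nat_lit 123213) (nat_lit 274) (.e (nat_lit 65653) (nat_lit 27) (.e (nat_lit 426011) (nat_lit 0) (.e (nat_lit 7589) (nat_lit 406) (.e (nat_lit 65633) (nat_lit 15) .nil)))))) (.g (nat_lit 0) .nil .nil)))) (.nd (nat_lit 4) 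
(.lf (nat_lit 121805) (.g (nat_lit 1236) (.e (nat_lit 7087) (nat_lit 379) (.e (nat_lit 123213) (nat_lit 274) (.e (nat_lit 65648) (nat_lit 26) (.e (nat_lit 417796) (nat_lit 0) (.e (nat_lit 5405) (nat_lit 302) (.e (nat_lit 65633) (nat_lit 15) .nil)))))) (.g (nat_lit 0) .nil .nil))) 
(.lf (nat_lit 121821) (.g (nat_lit 2214) (.e (nat_lit 7087) (nat_lit 379) (.e (nat_lit 123214) (nat_lit 275) (.e (nat_lit 73729) (nat_lit 0) (.e (nat_lit 7266) (nat_lit 384) (.e (nat_lit 57423) (nat_lit 14) (.e (nat_lit 352258) (nat_lit 0) .nil)))))) (.g (nat_lit 0) .nil .nil)))))) (.nd (nat_lit 2) (.nd (nat_lit 3) (.nd (nat_lit 4) 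
(.lf (nat_lit 121795) (.g (nat_lit 776) (.e (nat_lit 7087) (nat_lit 379) (.e (nat_lit 123213) (nat_lit 274) (.e (nat_lit 65632) (nat_lit 15) (.e (nat_lit 7077) (nat_lit 378) (.e (nat_lit 57897) (nat_lit 274) (.e (nat_lit 65633) (nat_lit 15) .nil)))))) (.g (nat_lit 0) .nil .nil))) 
(.lf (nat_lit 121811) (.g (nat_lit 1428) (.e (nat_lit 7087) (nat_lit 379) (.e (nat_lit 123213) (nat_lit 274) (.e (nat_lit 65653) (nat_lit 27) (.e (nat_lit 426010) (nat_lit 0) (.e (nat_lit 7589) (nat_lit 406) (.e (nat_lit 65633) (nat_lit 15) .nil)))))) (.g (nat_lit 0) .nil .nil)))) (.nd (nat_lit 4) 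
(.lf (nat_lit 121803) (.g (nat_lit 773) (.e (nat_lit 7087) (nat_lit 379) (.e (nat_lit 123213) (nat_lit 274) (.e (nat_lit 65648) (nat_lit 26) (.e (nat_lit 417793) (nat_lit 0) (.e (nat_lit 5405) (nat_lit 302) (.e (nat_lit 65633) (nat_lit 15) .nil)))))) (.g (nat_lit 0) .nil .nil))) 
(.lf (nat_lit 121819) (.g (nat_lit 1872) (.e (nat_lit 7087) (nat_lit 379) (.e (nat_lit 123214) (nat_lit 275) (.e (nat_lit 73729) (nat_lit 0) (.e (nat_lit 7263) (nat_lit 384) (.e (nat_lit 57423) (nat_lit 14) (.e (nat_lit 352258) (nat_lit 0) .nil)))))) (.g (nat_lit 0) .nil .nil))))) (.nd (nat_lit 3) (.nd (nat_lit 4) 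
(.lf (nat_lit 121799) (.g (nat_lit 1036) (.e (nat_lit 7087) (nat_lit 379) (.e (nat_lit 123213) (nat_lit 274) (.e (nat_lit 65633) (nat_lit 15) (.e (nat_lit 7087) (nat_lit 379) (.e (nat_lit 123213) (nat_lit 274) (.e (nat_lit 65633) (nat_lit 15) .nil)))))) (.g (nat_lit 0) .nil .nil))) 
(.lf (nat_lit 121815) (.g (nat_lit 2199) (.e (nat_lit 7087) (nat_lit 379) (.e (nat_lit 123213) (nat_lit 274) (.e (nat_lit 65653) (nat_lit 27) (.e (nat_lit 426012) (nat_lit 0) (.e (nat_lit 7589) (nat_lit 406) (.e (nat_lit 65633) (nat_lit 15) .nil)))))) (.g (nat_lit 0) .nil .nil)))) (.nd (nat_lit 4) 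
(.lf (nat_lit 121807) (.g (nat_lit 766) (.e (nat_lit 7087) (nat_lit 379) (.e (nat_lit 123213) (nat_lit 274) (.e (nat_lit 65652) (nat_lit 27) (.e (nat_lit 425987) (nat_lit 0) (.e (nat_lit 7588) (nat_lit 406) (.e (nat_lit 65633) (nat_lit 15) .nil)))))) (.g (nat_lit 0) .nil .nil))) 
(.lf (nat_lit 121823) (.g (nat_lit 1629) (.e (nat_lit 7087) (nat_lit 379) (.e (nat_lit 123214) (nat_lit 275) (.e (nat_lit 73732) (nat_lit 0) (.e (nat_lit 7271) (nat_lit 385) (.e (nat_lit 122914) (nat_lit 14) (.e (nat_lit 352258) (nat_lit 0) .nil)))))) (.g (nat_lit 0) .nil .nil))))))))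

noncomputable def tv1620 : DT := (.nd (nat_lit 0) (.nd (nat_lit 1) (.nd (nat_lit 2) (.nd (nat_lit 3) (.nd (nat_lit 4) 
(.lf (nat_lit 121824) (.g (nat_lit 1555) (.e (nat_lit 7087) (nat_lit 379) (.e (nat_lit 123214) (nat_lit 275) (.e (nat_lit 73732) (nat_lit 0) (.e (nat_lit 7272) (nat_lit 385) (.e (nat_lit 122914) (nat_lit 14) (.e (nat_lit 352258) (nat_lit 0) .nil)))))) (.g (nat_lit 0) .nil .nil))) 
(.lf (nat_lit 121840) (.g (nat_lit 994) (.e (nat_lit 7088) (nat_lit 379) (.e (nat_lit 123205) (nat_lit 270) (.e (nat_lit 1656) (nat_lit 115) (.e (nat_lit 393233) (nat_lit 17) (.e (nat_lit 7936) (nat_lit 406) .nil))))) .nil))) (.nd (nat_lit 4) 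
(.lf (nat_lit 121832) (.g (nat_lit 521) (.e (nat_lit 7087) (nat_lit 379) (.e (nat_lit 123214) (nat_lit 275) (.e (nat_lit 73774) (nat_lit 26) (.e (nat_lit 778337) (nat_lit 9) (.e (nat_lit 311) (nat_lit 23) (.e (nat_lit 352258) (nat_lit 0) .nil)))))) (.g (nat_lit 0) .nil .nil))) 
(.lf (nat_lit 121848) (.g (nat_lit 1167) (.e (nat_lit 7088) (nat_lit 379) (.e (nat_lit 123214) (nat_lit 275) (.e (nat_lit 73729) (nat_lit 0) (.e (nat_lit 7124) (nat_lit 382) (.e (nat_lit 7936) (nat_lit 90) .nil))))) .nil)))) (.nd (nat_lit 3) (.nd (nat_lit 4) 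
(.lf (nat_lit 121828) (.g (nat_lit 671) (.e (nat_lit 7087) (nat_lit 379) (.e (nat_lit 123214) (nat_lit 275) (.e (nat_lit 73772) (nat_lit 24) (.e (nat_lit 761868) (nat_lit 5) (.e (nat_lit 1574) (nat_lit 110) (.e (nat_lit 352258) (nat_lit 0) .nil)))))) (.g (nat_lit 0) .nil .nil))) 
(.lf (nat_lit 121844) (.g (nat_lit 1806) (.e (nat_lit 7088) (nat_lit 379) (.e (nat_lit 123213) (nat_lit 274) (.e (nat_lit 65653) (nat_lit 27) (.e (nat_lit 426012) (nat_lit 0) (.e (nat_lit 7587) (nat_lit 406) (.e (nat_lit 65633) (nat_lit 15) .nil)))))) (.g (nat_lit 6) .nil .nil)))) (.nd (nat_lit 4) 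
(.lf (nat_lit 121836) (.g (nat_lit 104) (.e (nat_lit 7088) (nat_lit 379) (.e (nat_lit 123164) (nat_lit 256) (.e (nat_lit 318) (nat_lit 23) (.e (nat_lit 360192) (nat_lit 5) .nil)))) .nil)) 
(.lf (nat_lit 121852) (.g (nat_lit 1165) (.e (nat_lit 7088) (nat_lit 379) (.e (nat_lit 123214) (nat_lit 275) (.e (nat_lit 73733) (nat_lit 0) (.e (nat_lit 7147) (nat_lit 382) (.e (nat_lit 1216) (nat_lit 90) (.e (nat_lit 81921) (nat_lit 0) .nil)))))) (.g (nat_lit 0) .nil .nil)))))) (.nd (nat_lit 2) (.nd (nat_lit 3) (.nd (nat_lit 4) 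
(.lf (nat_lit 121826) (.g (nat_lit 1205) (.e (nat_lit 7087) (nat_lit 379) (.e (nat_lit 123214) (nat_lit 275) (.e (nat_lit 73732) (nat_lit 0) (.e (nat_lit 7273) (nat_lit 385) (.e (nat_lit 122914) (nat_lit 14) (.e (nat_lit 352258) (nat_lit 0) .nil)))))) (.g (nat_lit 0) .nil .nil))) 
(.lf (nat_lit 121842) (.g (nat_lit 2484) (.e (nat_lit 7088) (nat_lit 379) (.e (nat_lit 123213) (nat_lit 274) (.e (nat_lit 65653) (nat_lit 27) (.e (nat_lit 426011) (nat_lit 0) (.e (nat_lit 7587) (nat_lit 406) (.e (nat_lit 65633) (nat_lit 15) .nil)))))) (.g (nat_lit 6) .nil .nil)))) (.nd (nat_lit 4) 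
(.lf (nat_lit 121834) (.g (nat_lit 1017) (.e (nat_lit 7087) (nat_lit 379) (.e (nat_lit 123214) (nat_lit 275) (.e (nat_lit 73775) (nat_lit 26) (.e (nat_lit 778359) (nat_lit 9) (.e (nat_lit 312) (nat_lit 23) (.e (nat_lit 352258) (nat_lit 0) .nil)))))) (.g (nat_lit 0) .nil .nil))) 
(.lf (nat_lit 121850) (.g (nat_lit 1117) (.e (nat_lit 7088) (nat_lit 379) (.e (nat_lit 123214) (nat_lit 275) (.e (nat_lit 73732) (nat_lit 0) (.e (nat_lit 7147) (nat_lit 382) (.e (nat_lit 1216) (nat_lit 90) (.e (nat_lit 81921) (nat_lit 0) .nil)))))) (.g (nat_lit 0) .nil .nil))))) (.nd (nat_lit 3) (.nd (nat_lit 4) 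
(.lf (nat_lit 121830) (.g (nat_lit 832) (.e (nat_lit 7087) (nat_lit 379) (.e (nat_lit 123214) (nat_lit 275) (.e (nat_lit 73773) (nat_lit 25) (.e (nat_lit 770058) (nat_lit 5) (.e (nat_lit 1575) (nat_lit 110) (.e (nat_lit 352258) (nat_lit 0) .nil)))))) (.g (nat_lit 0) .nil .nil))) 
(.lf (nat_lit 121846) (.g (nat_lit 2234) (.e (nat_lit 7088) (nat_lit 379) (.e (nat_lit 123213) (nat_lit 274) (.e (nat_lit 65653) (nat_lit 27) (.e (nat_lit 426343) (nat_lit 14) (.e (nat_lit 491552) (nat_lit 9) (.e (nat_lit 336253) (nat_lit 15) .nil)))))) (.g (nat_lit 6) .nil .nil)))) (.nd (nat_lit 4) 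
(.lf (nat_lit 121838) (.g (nat_lit 273) (.e (nat_lit 7088) (nat_lit 379) (.e (nat_lit 123202) (nat_lit 270) (.e (nat_lit 1552) (nat_lit 109) .nil))) .nil)) 
(.lf (nat_lit 121854) (.g (nat_lit 2153) (.e (nat_lit 7088) (nat_lit 379) (.e (nat_lit 123214) (nat_lit 275) (.e (nat_lit 73775) (nat_lit 26) (.e (nat_lit 778362) (nat_lit 9) (.e (nat_lit 314) (nat_lit 23) (.e (nat_lit 352264) (nat_lit 0) .nil)))))) (.g (nat_lit 0) .nil .nil))))))) (.nd (nat_lit 1) (.nd (nat_lit 2) (.nd (nat_lit 3) (.nd (nat_lit 4) 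
(.lf (nat_lit 121825) (.g (nat_lit 1658) (.e (nat_lit 7087) (nat_lit 379) (.e (nat_lit 123214) (nat_lit 275) (.e (nat_lit 73732) (nat_lit 0) (.e (nat_lit 7272) (nat_lit 385) (.e (nat_lit 122916) (nat_lit 14) (.e (nat_lit 352258) (nat_lit 0) .nil)))))) (.g (nat_lit 5) .nil .nil))) 
(.lf (nat_lit 121841) (.g (nat_lit 902) (.e (nat_lit 7088) (nat_lit 379) (.e (nat_lit 123213) (nat_lit 274) (.e (nat_lit 65653) (nat_lit 27) (.e (nat_lit 426010) (nat_lit 0) (.e (nat_lit 7936) (nat_lit 406) .nil))))) .nil))) (.nd (nat_lit 4) 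
(.lf (nat_lit 121833) (.g (nat_lit 614) (.e (nat_lit 7087) (nat_lit 379) (.e (nat_lit 123214) (nat_lit 275) (.e (nat_lit 73774) (nat_lit 26) (.e (nat_lit 778339) (nat_lit 9) (.e (nat_lit 311) (nat_lit 23) (.e (nat_lit 352258) (nat_lit 0) .nil)))))) (.g (nat_lit 0) .nil .nil))) 
(.lf (nat_lit 121849) (.g (nat_lit 2383) (.e (nat_lit 7088) (nat_lit 379) (.e (nat_lit 123214) (nat_lit 275) (.e (nat_lit 73729) (nat_lit 0) (.e (nat_lit 7125) (nat_lit 382) (.e (nat_lit 1222) (nat_lit 90) (.e (nat_lit 81921) (nat_lit 0) .nil)))))) (.g (nat_lit 0) .nil .nil))))) (.nd (nat_lit 3) (.nd (nat_lit 4) 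
(.lf (nat_lit 121829) (.g (nat_lit 624) (.e (nat_lit 7087) (nat_lit 379) (.e (nat_lit 123214) (nat_lit 275) (.e (nat_lit 73773) (nat_lit 25) (.e (nat_lit 770057) (nat_lit 5) (.e (nat_lit 1575) (nat_lit 110) (.e (nat_lit 352258) (nat_lit 0) .nil)))))) (.g (nat_lit 0) .nil .nil))) 
(.lf (nat_lit 121845) (.g (nat_lit 1327) (.e (nat_lit 7088) (nat_lit 379) (.e (nat_lit 123213) (nat_lit 274) (.e (nat_lit 65653) (nat_lit 27) (.e (nat_lit 426012) (nat_lit 0) (.e (nat_lit 7936) (nat_lit 406) .nil))))) .nil))) (.nd (nat_lit 4) 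
(.lf (nat_lit 121837) (.g (nat_lit 2280) (.e (nat_lit 7088) (nat_lit 379) (.e (nat_lit 123202) (nat_lit 270) (.e (nat_lit 1400) (nat_lit 106) (.e (nat_lit 319533) (nat_lit 16) (.e (nat_lit 286753) (nat_lit 10) (.e (nat_lit 344160) (nat_lit 37) (.e (nat_lit 647195) (nat_lit 9) (.e (nat_lit 59) (nat_lit 0) .nil)))))))) (.g (nat_lit 4) .nil .nil))) 
(.lf (nat_lit 121853) (.g (nat_lit 974) (.e (nat_lit 7088) (nat_lit 379) (.e (nat_lit 123214) (nat_lit 275) (.e (nat_lit 73773) (nat_lit 25) (.e (nat_lit 770074) (nat_lit 10) (.e (nat_lit 81921) (nat_lit 0) .nil))))) (.g (nat_lit 0) .nil .nil)))))) (.nd (nat_lit 2) (.nd (nat_lit 3) (.nd (nat_lit 4) 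
(.lf (nat_lit 121827) (.g (nat_lit 793) (.e (nat_lit 7087) (nat_lit 379) (.e (nat_lit 123214) (nat_lit 275) (.e (nat_lit 73772) (nat_lit 24) (.e (nat_lit 761866) (nat_lit 5) (.e (nat_lit 1574) (nat_lit 110) (.e (nat_lit 352258) (nat_lit 0) .nil)))))) (.g (nat_lit 0) .nil .nil))) 
(.lf (nat_lit 121843) (.g (nat_lit 1711) (.e (nat_lit 7088) (nat_lit 379) (.e (nat_lit 123213) (nat_lit 274) (.e (nat_lit 65653) (nat_lit 27) (.e (nat_lit 426011) (nat_lit 0) (.e (nat_lit 7936) (nat_lit 406) .nil))))) .nil))) (.nd (nat_lit 4) 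
(.lf (nat_lit 121835) (.g (nat_lit 1010) (.e (nat_lit 7087) (nat_lit 379) (.e (nat_lit 123214) (nat_lit 275) (.e (nat_lit 73775) (nat_lit 26) (.e (nat_lit 778360) (nat_lit 9) (.e (nat_lit 312) (nat_lit 23) (.e (nat_lit 352258) (nat_lit 0) .nil)))))) (.g (nat_lit 0) .nil .nil))) 
(.lf (nat_lit 121851) (.g (nat_lit 1667) (.e (nat_lit 7088) (nat_lit 379) (.e (nat_lit 123214) (nat_lit 275) (.e (nat_lit 73732) (nat_lit 0) (.e (nat_lit 7272) (nat_lit 385) (.e (nat_lit 122916) (nat_lit 14) (.e (nat_lit 352258) (nat_lit 0) .nil)))))) (.g (nat_lit 5) .nil .nil))))) (.nd (nat_lit 3) (.nd (nat_lit 4) 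
(.lf (nat_lit 121831) (.g (nat_lit 613) (.e (nat_lit 7087) (nat_lit 379) (.e (nat_lit 123214) (nat_lit 275) (.e (nat_lit 73774) (nat_lit 26) (.e (nat_lit 778334) (nat_lit 9) (.e (nat_lit 311) (nat_lit 23) (.e (nat_lit 352258) (nat_lit 0) .nil)))))) (.g (nat_lit 0) .nil .nil))) 
(.lf (nat_lit 121847) (.g (nat_lit 1167) (.e (nat_lit 7088) (nat_lit 379) (.e (nat_lit 123214) (nat_lit 275) (.e (nat_lit 73729) (nat_lit 0) (.e (nat_lit 7122) (nat_lit 382) (.e (nat_lit 7936) (nat_lit 90) (.e (nat_lit 81921) (nat_lit 0) .nil)))))) (.g (nat_lit 4) .nil .nil)))) (.nd (nat_lit 4) 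
(.lf (nat_lit 121839) (.g (nat_lit 1027) (.e (nat_lit 7088) (nat_lit 379) (.e (nat_lit 123205) (nat_lit 270) (.e (nat_lit 1656) (nat_lit 115) (.e (nat_lit 393233) (nat_lit 17) (.e (nat_lit 7587) (nat_lit 406) .nil))))) .nil)) 
(.lf (nat_lit 121855) (.g (nat_lit 409) (.e (nat_lit 7089) (nat_lit 379) (.e (nat_lit 123143) (nat_lit 248) (.e (nat_lit 164293) (nat_lit 224) (.e (nat_lit 164112) (nat_lit 118) (.e (nat_lit 802560) (nat_lit 13) (.e (nat_lit 352258) (nat_lit 0) .nil)))))) (.g (nat_lit 4) .nil .nil))))))))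

noncomputable def tv1621 : DT := (.nd (nat_lit 0) (.nd (nat_lit 1) (.nd (nat_lit 2) (.nd (nat_lit 3) (.nd (nat_lit 4) 
(.lf (nat_lit 121856) (.g (nat_lit 613) (.e (nat_lit 7089) (nat_lit 379) (.e (nat_lit 123144) (nat_lit 248) (.e (nat_lit 164289) (nat_lit 224) (.e (nat_lit 164112) (nat_lit 118) (.e (nat_lit 802560) (nat_lit 13) (.e (nat_lit 352258) (nat_lit 0) .nil)))))) (.g (nat_lit 4) .nil .nil))) 
(.lf (nat_lit 121872) (.g (nat_lit 1176) (.e (nat_lit 7089) (nat_lit 379) (.e (nat_lit 123214) (nat_lit 275) (.e (nat_lit 73729) (nat_lit 0) (.e (nat_lit 7122) (nat_lit 382) (.e (nat_lit 7936) (nat_lit 90) .nil))))) .nil))) (.nd (nat_lit 4) 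
(.lf (nat_lit 121864) (.g (nat_lit 2487) (.e (nat_lit 7089) (nat_lit 379) (.e (nat_lit 123213) (nat_lit 274) (.e (nat_lit 65653) (nat_lit 27) (.e (nat_lit 426011) (nat_lit 0) (.e (nat_lit 7587) (nat_lit 406) (.e (nat_lit 65633) (nat_lit 15) .nil)))))) (.g (nat_lit 6) .nil .nil))) 
(.lf (nat_lit 121880) (.g (nat_lit 2107) (.e (nat_lit 7095) (nat_lit 380) (.e (nat_lit 164358) (nat_lit 246) (.e (nat_lit 112) (nat_lit 3) (.e (nat_lit 98381) (nat_lit 31) (.e (nat_lit 466954) (nat_lit 11) (.e (nat_lit 336293) (nat_lit 15) .nil)))))) (.g (nat_lit 5) .nil .nil))))) (.nd (nat_lit 3) (.nd (nat_lit 4) 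
(.lf (nat_lit 121860) (.g (nat_lit 1068) (.e (nat_lit 7089) (nat_lit 379) (.e (nat_lit 123205) (nat_lit 270) (.e (nat_lit 1656) (nat_lit 115) (.e (nat_lit 393233) (nat_lit 17) (.e (nat_lit 7589) (nat_lit 406) .nil))))) .nil)) 
(.lf (nat_lit 121876) (.g (nat_lit 1169) (.e (nat_lit 7089) (nat_lit 379) (.e (nat_lit 123214) (nat_lit 275) (.e (nat_lit 73733) (nat_lit 0) (.e (nat_lit 7147) (nat_lit 382) (.e (nat_lit 1216) (nat_lit 90) (.e (nat_lit 81921) (nat_lit 0) .nil)))))) (.g (nat_lit 0) .nil .nil)))) (.nd (nat_lit 4) 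
(.lf (nat_lit 121868) (.g (nat_lit 1394) (.e (nat_lit 7089) (nat_lit 379) (.e (nat_lit 123213) (nat_lit 274) (.e (nat_lit 65653) (nat_lit 27) (.e (nat_lit 426012) (nat_lit 0) (.e (nat_lit 7589) (nat_lit 406) (.e (nat_lit 73472) (nat_lit 15) .nil)))))) (.g (nat_lit 5) .nil .nil))) 
(.lf (nat_lit 121884) (.g (nat_lit 2442) (.e (nat_lit 7096) (nat_lit 380) (.e (nat_lit 164354) (nat_lit 246) (.e (nat_lit 351) (nat_lit 28) (.e (nat_lit 393281) (nat_lit 23) (.e (nat_lit 426133) (nat_lit 3) (.e (nat_lit 204805) (nat_lit 0) .nil)))))) (.g (nat_lit 0) .nil .nil)))))) (.nd (nat_lit 2) (.nd (nat_lit 3) (.nd (nat_lit 4) 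
(.lf (nat_lit 121858) (.g (nat_lit 3018) (.e (nat_lit 7089) (nat_lit 379) (.e (nat_lit 123202) (nat_lit 270) (.e (nat_lit 1256) (nat_lit 92) (.e (nat_lit 98359) (nat_lit 26) (.e (nat_lit 426286) (nat_lit 10) (.e (nat_lit 434248) (nat_lit 28) (.e (nat_lit 573452) (nat_lit 9) (.e (nat_lit 61) (nat_lit 0) .nil)))))))) (.g (nat_lit 7) .nil .nil))) 
(.lf (nat_lit 121874) (.g (nat_lit 1128) (.e (nat_lit 7089) (nat_lit 379) (.e (nat_lit 123214) (nat_lit 275) (.e (nat_lit 73732) (nat_lit 0) (.e (nat_lit 7147) (nat_lit 382) (.e (nat_lit 1216) (nat_lit 90) (.e (nat_lit 81921) (nat_lit 0) .nil)))))) (.g (nat_lit 0) .nil .nil)))) (.nd (nat_lit 4) 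
(.lf (nat_lit 121866) (.g (nat_lit 1800) (.e (nat_lit 7089) (nat_lit 379) (.e (nat_lit 123213) (nat_lit 274) (.e (nat_lit 65653) (nat_lit 27) (.e (nat_lit 426012) (nat_lit 0) (.e (nat_lit 7587) (nat_lit 406) (.e (nat_lit 65633) (nat_lit 15) .nil)))))) (.g (nat_lit 6) .nil .nil))) 
(.lf (nat_lit 121882) (.g (nat_lit 1974) (.e (nat_lit 7096) (nat_lit 380) (.e (nat_lit 164287) (nat_lit 224) (.e (nat_lit 164112) (nat_lit 118) (.e (nat_lit 794637) (nat_lit 11) (.e (nat_lit 336215) (nat_lit 13) (.e (nat_lit 401152) (nat_lit 17) .nil)))))) (.g (nat_lit 5) .nil .nil))))) (.nd (nat_lit 3) (.nd (nat_lit 4) 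
(.lf (nat_lit 121862) (.g (nat_lit 478) (.e (nat_lit 7089) (nat_lit 379) (.e (nat_lit 123213) (nat_lit 274) (.e (nat_lit 65653) (nat_lit 27) (.e (nat_lit 426009) (nat_lit 0) .nil)))) .nil)) 
(.lf (nat_lit 121878) (.g (nat_lit 423) (.e (nat_lit 7095) (nat_lit 380) (.e (nat_lit 164358) (nat_lit 246) (.e (nat_lit 112) (nat_lit 3) .nil))) .nil))) (.nd (nat_lit 4) 
(.lf (nat_lit 121870) (.g (nat_lit 2241) (.e (nat_lit 7089) (nat_lit 379) (.e (nat_lit 123213) (nat_lit 274) (.e (nat_lit 65653) (nat_lit 27) (.e (nat_lit 426343) (nat_lit 14) (.e (nat_lit 491552) (nat_lit 9) (.e (nat_lit 336253) (nat_lit 15) .nil)))))) (.g (nat_lit 6) .nil .nil))) 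
(.lf (nat_lit 121886) (.g (nat_lit 3489) (.e (nat_lit 7098) (nat_lit 380) (.e (nat_lit 164096) (nat_lit 86) (.e (nat_lit 532513) (nat_lit 3) (.e (nat_lit 114714) (nat_lit 22) (.e (nat_lit 90172) (nat_lit 14) (.e (nat_lit 180244) (nat_lit 5) (.e (nat_lit 532575) (nat_lit 17) .nil))))))) (.g (nat_lit 0) .nil .nil))))))) (.nd (nat_lit 1) (.nd (nat_lit 2) (.nd (nat_lit 3) (.nd (nat_lit 4) 
(.lf (nat_lit 121857) (.g (nat_lit 490) (.e (nat_lit 7089) (nat_lit 379) (.e (nat_lit 123144) (nat_lit 248) (.e (nat_lit 164292) (nat_lit 224) (.e (nat_lit 164112) (nat_lit 118) (.e (nat_lit 802560) (nat_lit 13) (.e (nat_lit 352258) (nat_lit 0) .nil)))))) (.g (nat_lit 4) .nil .nil))) 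
(.lf (nat_lit 121873) (.g (nat_lit 1174) (.e (nat_lit 7089) (nat_lit 379) (.e (nat_lit 123214) (nat_lit 275) (.e (nat_lit 73729) (nat_lit 0) (.e (nat_lit 7124) (nat_lit 382) (.e (nat_lit 7936) (nat_lit 90) .nil))))) .nil))) (.nd (nat_lit 4) 
(.lf (nat_lit 121865) (.g (nat_lit 1713) (.e (nat_lit 7089) (nat_lit 379) (.e (nat_lit 123213) (nat_lit 274) (.e (nat_lit 65653) (nat_lit 27) (.e (nat_lit 426011) (nat_lit 0) (.e (nat_lit 7936) (nat_lit 406) .nil))))) .nil)) 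
(.lf (nat_lit 121881) (.g (nat_lit 1886) (.e (nat_lit 7095) (nat_lit 380) (.e (nat_lit 164358) (nat_lit 246) (.e (nat_lit 226) (nat_lit 21) (.e (nat_lit 336434) (nat_lit 30) (.e (nat_lit 450579) (nat_lit 5) (.e (nat_lit 532574) (nat_lit 17) .nil)))))) (.g (nat_lit 5) .nil .nil))))) (.nd (nat_lit 3) (.nd (nat_lit 4) 
(.lf (nat_lit 121861) (.g (nat_lit 611) (.e (nat_lit 7089) (nat_lit 379) (.e (nat_lit 123213) (nat_lit 274) (.e (nat_lit 65565) (nat_lit 1) (.e (nat_lit 57655) (nat_lit 152) .nil)))) .nil)) 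
(.lf (nat_lit 121877) (.g (nat_lit 983) (.e (nat_lit 7089) (nat_lit 379) (.e (nat_lit 123214) (nat_lit 275) (.e (nat_lit 73773) (nat_lit 25) (.e (nat_lit 770074) (nat_lit 10) (.e (nat_lit 81921) (nat_lit 0) .nil))))) (.g (nat_lit 0) .nil .nil)))) (.nd (nat_lit 4) 
(.lf (nat_lit 121869) (.g (nat_lit 1336) (.e (nat_lit 7089) (nat_lit 379) (.e (nat_lit 123213) (nat_lit 274) (.e (nat_lit 65653) (nat_lit 27) (.e (nat_lit 426012) (nat_lit 0) (.e (nat_lit 7936) (nat_lit 406) .nil))))) .nil)) 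
(.lf (nat_lit 121885) (.g (nat_lit 2227) (.e (nat_lit 7098) (nat_lit 380) (.e (nat_lit 164096) (nat_lit 86) (.e (nat_lit 532512) (nat_lit 3) (.e (nat_lit 114718) (nat_lit 23) (.e (nat_lit 98365) (nat_lit 26) (.e (nat_lit 426133) (nat_lit 3) (.e (nat_lit 204805) (nat_lit 0) .nil))))))) (.g (nat_lit 6) .nil .nil)))))) (.nd (nat_lit 2) (.nd (nat_lit 3) (.nd (nat_lit 4) 
(.lf (nat_lit 121859) (.g (nat_lit 2442) (.e (nat_lit 7089) (nat_lit 379) (.e (nat_lit 123202) (nat_lit 270) (.e (nat_lit 1256) (nat_lit 92) (.e (nat_lit 98373) (nat_lit 29) (.e (nat_lit 450588) (nat_lit 10) (.e (nat_lit 573452) (nat_lit 9) (.e (nat_lit 11) (nat_lit 0) .nil))))))) (.g (nat_lit 5) .nil .nil))) 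
(.lf (nat_lit 121875) (.g (nat_lit 1679) (.e (nat_lit 7089) (nat_lit 379) (.e (nat_lit 123214) (nat_lit 275) (.e (nat_lit 73732) (nat_lit 0) (.e (nat_lit 7272) (nat_lit 385) (.e (nat_lit 122916) (nat_lit 14) (.e (nat_lit 352258) (nat_lit 0) .nil)))))) (.g (nat_lit 5) .nil .nil)))) (.nd (nat_lit 4) 
(.lf (nat_lit 121867) (.g (nat_lit 2286) (.e (nat_lit 7089) (nat_lit 379) (.e (nat_lit 123213) (nat_lit 274) (.e (nat_lit 65653) (nat_lit 27) (.e (nat_lit 426012) (nat_lit 0) (.e (nat_lit 7589) (nat_lit 406) (.e (nat_lit 65633) (nat_lit 15) .nil)))))) (.g (nat_lit 0) .nil .nil))) 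
(.lf (nat_lit 121883) (.g (nat_lit 2717) (.e (nat_lit 7096) (nat_lit 380) (.e (nat_lit 164353) (nat_lit 246) (.e (nat_lit 100) (nat_lit 2) (.e (nat_lit 90178) (nat_lit 15) (.e (nat_lit 188421) (nat_lit 11) (.e (nat_lit 336288) (nat_lit 15) .nil)))))) (.g (nat_lit 0) .nil .nil))))) (.nd (nat_lit 3) (.nd (nat_lit 4) 
(.lf (nat_lit 121863) (.g (nat_lit 900) (.e (nat_lit 7089) (nat_lit 379) (.e (nat_lit 123213) (nat_lit 274) (.e (nat_lit 65653) (nat_lit 27) (.e (nat_lit 426010) (nat_lit 0) (.e (nat_lit 7936) (nat_lit 406) .nil))))) .nil)) 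
(.lf (nat_lit 121879) (.g (nat_lit 2098) (.e (nat_lit 7095) (nat_lit 380) (.e (nat_lit 164358) (nat_lit 246) (.e (nat_lit 112) (nat_lit 3) (.e (nat_lit 98380) (nat_lit 31) (.e (nat_lit 466954) (nat_lit 11) (.e (nat_lit 336293) (nat_lit 15) .nil)))))) (.g (nat_lit 5) .nil .nil)))) (.nd (nat_lit 4) 
(.lf (nat_lit 121871) (.g (nat_lit 1443) (.e (nat_lit 7089) (nat_lit 379) (.e (nat_lit 123213) (nat_lit 274) (.e (nat_lit 65653) (nat_lit 27) (.e (nat_lit 426344) (nat_lit 14) (.e (nat_lit 491552) (nat_lit 9) (.e (nat_lit 336248) (nat_lit 15) .nil)))))) (.g (nat_lit 4) .nil .nil))) 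
(.lf (nat_lit 121887) (.g (nat_lit 742) (.e (nat_lit 7098) (nat_lit 380) (.e (nat_lit 164291) (nat_lit 224) (.e (nat_lit 164112) (nat_lit 118) (.e (nat_lit 794636) (nat_lit 11) (.e (nat_lit 336214) (nat_lit 13) (.e (nat_lit 401152) (nat_lit 17) .nil)))))) (.g (nat_lit 4) .nil .nil))))))))

noncomputable def tv1622 : DT := (.nd (nat_lit 0) (.nd (nat_lit 1) (.nd (nat_lit 2) (.nd (nat_lit 3) (.nd (nat_lit 4) 
(.lf (nat_lit 121888) (.g (nat_lit 1294) (.e (nat_lit 7098) (nat_lit 380) (.e (nat_lit 164291) (nat_lit 224) (.e (nat_lit 164112) (nat_lit 118) (.e (nat_lit 794637) (nat_lit 11) (.e (nat_lit 336214) (nat_lit 13) (.e (nat_lit 401152) (nat_lit 17) .nil)))))) (.g (nat_lit 5) .nil .nil))) 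
(.lf (nat_lit 121904) (.g (nat_lit 151) (.e (nat_lit 7101) (nat_lit 380) (.e (nat_lit 164353) (nat_lit 246) (.e (nat_lit 100) (nat_lit 2) .nil))) .nil))) (.nd (nat_lit 4) 
(.lf (nat_lit 121896) (.g (nat_lit 2289) (.e (nat_lit 7098) (nat_lit 380) (.e (nat_lit 164354) (nat_lit 246) (.e (nat_lit 351) (nat_lit 28) (.e (nat_lit 393281) (nat_lit 23) (.e (nat_lit 426133) (nat_lit 3) (.e (nat_lit 204805) (nat_lit 0) .nil)))))) (.g (nat_lit 0) .nil .nil))) 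
(.lf (nat_lit 121912) (.g (nat_lit 1434) (.e (nat_lit 7105) (nat_lit 380) (.e (nat_lit 164356) (nat_lit 246) (.e (nat_lit 224) (nat_lit 21) (.e (nat_lit 336443) (nat_lit 32) (.e (nat_lit 466979) (nat_lit 23) (.e (nat_lit 204805) (nat_lit 0) .nil)))))) (.g (nat_lit 4) .nil .nil))))) (.nd (nat_lit 3) (.nd (nat_lit 4) 
(.lf (nat_lit 121892) (.g (nat_lit 1637) (.e (nat_lit 7098) (nat_lit 380) (.e (nat_lit 164292) (nat_lit 224) (.e (nat_lit 164112) (nat_lit 118) (.e (nat_lit 794637) (nat_lit 11) (.e (nat_lit 336215) (nat_lit 13) (.e (nat_lit 401152) (nat_lit 17) .nil)))))) (.g (nat_lit 5) .nil .nil))) 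
(.lf (nat_lit 121908) (.g (nat_lit 971) (.e (nat_lit 7103) (nat_lit 380) (.e (nat_lit 164358) (nat_lit 246) (.e (nat_lit 226) (nat_lit 21) (.e (nat_lit 336443) (nat_lit 32) .nil)))) .nil))) (.nd (nat_lit 4) 
(.lf (nat_lit 121900) (.g (nat_lit 1044) (.e (nat_lit 7098) (nat_lit 380) (.e (nat_lit 164356) (nat_lit 246) (.e (nat_lit 351) (nat_lit 28) (.e (nat_lit 393282) (nat_lit 24) .nil)))) .nil)) 
(.lf (nat_lit 121916) (.g (nat_lit 1962) (.e (nat_lit 7105) (nat_lit 380) (.e (nat_lit 164356) (nat_lit 246) (.e (nat_lit 351) (nat_lit 28) (.e (nat_lit 393279) (nat_lit 23) (.e (nat_lit 426129) (nat_lit 3) (.e (nat_lit 204805) (nat_lit 0) .nil)))))) (.g (nat_lit 0) .nil .nil)))))) (.nd (nat_lit 2) (.nd (nat_lit 3) (.nd (nat_lit 4) 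
(.lf (nat_lit 121890) (.g (nat_lit 933) (.e (nat_lit 7098) (nat_lit 380) (.e (nat_lit 164292) (nat_lit 224) (.e (nat_lit 164112) (nat_lit 118) (.e (nat_lit 794636) (nat_lit 11) (.e (nat_lit 336214) (nat_lit 13) (.e (nat_lit 401152) (nat_lit 17) .nil)))))) (.g (nat_lit 5) .nil .nil))) 
(.lf (nat_lit 121906) (.g (nat_lit 784) (.e (nat_lit 7103) (nat_lit 380) (.e (nat_lit 164356) (nat_lit 246) (.e (nat_lit 351) (nat_lit 28) .nil))) .nil))) (.nd (nat_lit 4) 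
(.lf (nat_lit 121898) (.g (nat_lit 1479) (.e (nat_lit 7098) (nat_lit 380) (.e (nat_lit 164356) (nat_lit 246) (.e (nat_lit 112) (nat_lit 3) (.e (nat_lit 98358) (nat_lit 26) (.e (nat_lit 426323) (nat_lit 13) .nil))))) .nil)) 
(.lf (nat_lit 121914) (.g (nat_lit 2563) (.e (nat_lit 7105) (nat_lit 380) (.e (nat_lit 164356) (nat_lit 246) (.e (nat_lit 226) (nat_lit 21) (.e (nat_lit 336443) (nat_lit 32) (.e (nat_lit 466981) (nat_lit 23) (.e (nat_lit 204805) (nat_lit 0) .nil)))))) (.g (nat_lit 0) .nil .nil))))) (.nd (nat_lit 3) (.nd (nat_lit 4) 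
(.lf (nat_lit 121894) (.g (nat_lit 1376) (.e (nat_lit 7098) (nat_lit 380) (.e (nat_lit 164294) (nat_lit 224) (.e (nat_lit 164112) (nat_lit 118) (.e (nat_lit 794637) (nat_lit 11) (.e (nat_lit 336214) (nat_lit 13) (.e (nat_lit 401152) (nat_lit 17) .nil)))))) (.g (nat_lit 5) .nil .nil))) 
(.lf (nat_lit 121910) (.g (nat_lit 1288) (.e (nat_lit 7105) (nat_lit 380) (.e (nat_lit 164288) (nat_lit 224) (.e (nat_lit 164112) (nat_lit 118) (.e (nat_lit 794637) (nat_lit 11) (.e (nat_lit 336215) (nat_lit 13) (.e (nat_lit 401152) (nat_lit 17) .nil)))))) (.g (nat_lit 5) .nil .nil)))) (.nd (nat_lit 4) 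
(.lf (nat_lit 121902) (.g (nat_lit 2412) (.e (nat_lit 7098) (nat_lit 380) (.e (nat_lit 164358) (nat_lit 246) (.e (nat_lit 226) (nat_lit 21) (.e (nat_lit 336430) (nat_lit 29) (.e (nat_lit 442427) (nat_lit 23) (.e (nat_lit 204805) (nat_lit 0) .nil)))))) (.g (nat_lit 5) .nil .nil))) 
(.lf (nat_lit 121918) (.g (nat_lit 2302) (.e (nat_lit 7105) (nat_lit 380) (.e (nat_lit 164358) (nat_lit 246) (.e (nat_lit 226) (nat_lit 21) (.e (nat_lit 336443) (nat_lit 32) (.e (nat_lit 466979) (nat_lit 23) (.e (nat_lit 204805) (nat_lit 0) .nil)))))) (.g (nat_lit 0) .nil .nil))))))) (.nd (nat_lit 1) (.nd (nat_lit 2) (.nd (nat_lit 3) (.nd (nat_lit 4) 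
(.lf (nat_lit 121889) (.g (nat_lit 1526) (.e (nat_lit 7098) (nat_lit 380) (.e (nat_lit 164291) (nat_lit 224) (.e (nat_lit 164112) (nat_lit 118) (.e (nat_lit 794637) (nat_lit 11) (.e (nat_lit 336215) (nat_lit 13) (.e (nat_lit 401152) (nat_lit 17) .nil)))))) (.g (nat_lit 5) .nil .nil))) 
(.lf (nat_lit 121905) (.g (nat_lit 522) (.e (nat_lit 7101) (nat_lit 380) (.e (nat_lit 164353) (nat_lit 246) (.e (nat_lit 351) (nat_lit 28) (.e (nat_lit 393286) (nat_lit 25) .nil)))) .nil))) (.nd (nat_lit 4) 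
(.lf (nat_lit 121897) (.g (nat_lit 2027) (.e (nat_lit 7098) (nat_lit 380) (.e (nat_lit 164356) (nat_lit 246) (.e (nat_lit 100) (nat_lit 2) (.e (nat_lit 90176) (nat_lit 15) (.e (nat_lit 188421) (nat_lit 11) .nil))))) .nil)) 
(.lf (nat_lit 121913) (.g (nat_lit 2464) (.e (nat_lit 7105) (nat_lit 380) (.e (nat_lit 164356) (nat_lit 246) (.e (nat_lit 226) (nat_lit 21) (.e (nat_lit 336443) (nat_lit 32) (.e (nat_lit 466979) (nat_lit 23) (.e (nat_lit 204805) (nat_lit 0) .nil)))))) (.g (nat_lit 0) .nil .nil))))) (.nd (nat_lit 3) (.nd (nat_lit 4) 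
(.lf (nat_lit 121893) (.g (nat_lit 906) (.e (nat_lit 7098) (nat_lit 380) (.e (nat_lit 164294) (nat_lit 224) (.e (nat_lit 164112) (nat_lit 118) (.e (nat_lit 794636) (nat_lit 11) (.e (nat_lit 336214) (nat_lit 13) (.e (nat_lit 401152) (nat_lit 17) .nil)))))) (.g (nat_lit 5) .nil .nil))) 
(.lf (nat_lit 121909) (.g (nat_lit 1318) (.e (nat_lit 7105) (nat_lit 380) (.e (nat_lit 164287) (nat_lit 224) (.e (nat_lit 164112) (nat_lit 118) (.e (nat_lit 794637) (nat_lit 11) (.e (nat_lit 336215) (nat_lit 13) (.e (nat_lit 401152) (nat_lit 17) .nil)))))) (.g (nat_lit 5) .nil .nil)))) (.nd (nat_lit 4) 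
(.lf (nat_lit 121901) (.g (nat_lit 1862) (.e (nat_lit 7098) (nat_lit 380) (.e (nat_lit 164358) (nat_lit 246) (.e (nat_lit 100) (nat_lit 2) (.e (nat_lit 90176) (nat_lit 15) (.e (nat_lit 188421) (nat_lit 11) .nil))))) .nil)) 
(.lf (nat_lit 121917) (.g (nat_lit 908) (.e (nat_lit 7105) (nat_lit 380) (.e (nat_lit 164358) (nat_lit 246) (.e (nat_lit 98) (nat_lit 2) (.e (nat_lit 90176) (nat_lit 15) (.e (nat_lit 188423) (nat_lit 11) .nil))))) .nil))))) (.nd (nat_lit 2) (.nd (nat_lit 3) (.nd (nat_lit 4) 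
(.lf (nat_lit 121891) (.g (nat_lit 1412) (.e (nat_lit 7098) (nat_lit 380) (.e (nat_lit 164292) (nat_lit 224) (.e (nat_lit 164112) (nat_lit 118) (.e (nat_lit 794637) (nat_lit 11) (.e (nat_lit 336214) (nat_lit 13) (.e (nat_lit 401152) (nat_lit 17) .nil)))))) (.g (nat_lit 5) .nil .nil))) 
(.lf (nat_lit 121907) (.g (nat_lit 3021) (.e (nat_lit 7103) (nat_lit 380) (.e (nat_lit 164358) (nat_lit 246) (.e (nat_lit 112) (nat_lit 3) (.e (nat_lit 98365) (nat_lit 26) (.e (nat_lit 426325) (nat_lit 13) (.e (nat_lit 483331) (nat_lit 0) .nil)))))) (.g (nat_lit 5) .nil .nil)))) (.nd (nat_lit 4) 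
(.lf (nat_lit 121899) (.g (nat_lit 609) (.e (nat_lit 7098) (nat_lit 380) (.e (nat_lit 164356) (nat_lit 246) (.e (nat_lit 351) (nat_lit 28) .nil))) .nil)) 
(.lf (nat_lit 121915) (.g (nat_lit 2489) (.e (nat_lit 7105) (nat_lit 380) (.e (nat_lit 164356) (nat_lit 246) (.e (nat_lit 351) (nat_lit 28) (.e (nat_lit 393271) (nat_lit 23) (.e (nat_lit 426131) (nat_lit 3) (.e (nat_lit 204805) (nat_lit 0) .nil)))))) (.g (nat_lit 0) .nil .nil))))) (.nd (nat_lit 3) (.nd (nat_lit 4) 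
(.lf (nat_lit 121895) (.g (nat_lit 1608) (.e (nat_lit 7098) (nat_lit 380) (.e (nat_lit 164294) (nat_lit 224) (.e (nat_lit 164112) (nat_lit 118) (.e (nat_lit 794637) (nat_lit 11) (.e (nat_lit 336215) (nat_lit 13) (.e (nat_lit 401152) (nat_lit 17) .nil)))))) (.g (nat_lit 5) .nil .nil))) 
(.lf (nat_lit 121911) (.g (nat_lit 1747) (.e (nat_lit 7105) (nat_lit 380) (.e (nat_lit 164356) (nat_lit 246) (.e (nat_lit 100) (nat_lit 2) (.e (nat_lit 90176) (nat_lit 15) (.e (nat_lit 188421) (nat_lit 11) .nil))))) .nil))) (.nd (nat_lit 4) 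
(.lf (nat_lit 121903) (.g (nat_lit 2312) (.e (nat_lit 7098) (nat_lit 380) (.e (nat_lit 164358) (nat_lit 246) (.e (nat_lit 351) (nat_lit 28) (.e (nat_lit 393271) (nat_lit 23) (.e (nat_lit 426131) (nat_lit 3) (.e (nat_lit 204805) (nat_lit 0) .nil)))))) (.g (nat_lit 5) .nil .nil))) 
(.lf (nat_lit 121919) (.g (nat_lit 2400) (.e (nat_lit 7105) (nat_lit 380) (.e (nat_lit 164358) (nat_lit 246) (.e (nat_lit 226) (nat_lit 21) (.e (nat_lit 336443) (nat_lit 32) (.e (nat_lit 466981) (nat_lit 23) (.e (nat_lit 204805) (nat_lit 0) .nil)))))) (.g (nat_lit 0) .nil .nil))))))))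

noncomputable def tv1623 : DT := (.nd (nat_lit 0) (.nd (nat_lit 1) (.nd (nat_lit 2) (.nd (nat_lit 3) (.nd (nat_lit 4) 
(.lf (nat_lit 121920) (.g (nat_lit 2220) (.e (nat_lit 7105) (nat_lit 380) (.e (nat_lit 164358) (nat_lit 246) (.e (nat_lit 351) (nat_lit 28) (.e (nat_lit 393281) (nat_lit 23) (.e (nat_lit 426133) (nat_lit 3) (.e (nat_lit 204805) (nat_lit 0) .nil)))))) (.g (nat_lit 0) .nil .nil))) 
(.lf (nat_lit 121936) (.g (nat_lit 1599) (.e (nat_lit 7106) (nat_lit 380) (.e (nat_lit 164358) (nat_lit 246) (.e (nat_lit 100) (nat_lit 2) (.e (nat_lit 90176) (nat_lit 15) (.e (nat_lit 188421) (nat_lit 11) .nil))))) .nil))) (.nd (nat_lit 4) 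
(.lf (nat_lit 121928) (.g (nat_lit 1293) (.e (nat_lit 7106) (nat_lit 380) (.e (nat_lit 164294) (nat_lit 224) (.e (nat_lit 164112) (nat_lit 118) (.e (nat_lit 794637) (nat_lit 11) (.e (nat_lit 336214) (nat_lit 13) (.e (nat_lit 401152) (nat_lit 17) .nil)))))) (.g (nat_lit 5) .nil .nil))) 
(.lf (nat_lit 121944) (.g (nat_lit 480) (.e (nat_lit 7107) (nat_lit 380) (.e (nat_lit 164358) (nat_lit 246) (.e (nat_lit 216) (nat_lit 19) .nil))) .nil)))) (.nd (nat_lit 3) (.nd (nat_lit 4) 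
(.lf (nat_lit 121924) (.g (nat_lit 1233) (.e (nat_lit 7106) (nat_lit 380) (.e (nat_lit 164292) (nat_lit 224) (.e (nat_lit 164112) (nat_lit 118) (.e (nat_lit 794637) (nat_lit 11) (.e (nat_lit 336214) (nat_lit 13) (.e (nat_lit 401152) (nat_lit 17) .nil)))))) (.g (nat_lit 5) .nil .nil))) 
(.lf (nat_lit 121940) (.g (nat_lit 1806) (.e (nat_lit 7107) (nat_lit 380) (.e (nat_lit 164261) (nat_lit 221) (.e (nat_lit 1360) (nat_lit 102) (.e (nat_lit 286753) (nat_lit 10) (.e (nat_lit 344154) (nat_lit 35) (.e (nat_lit 630802) (nat_lit 8) (.e (nat_lit 172039) (nat_lit 0) .nil))))))) (.g (nat_lit 4) .nil .nil)))) (.nd (nat_lit 4) 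
(.lf (nat_lit 121932) (.g (nat_lit 2537) (.e (nat_lit 7106) (nat_lit 380) (.e (nat_lit 164356) (nat_lit 246) (.e (nat_lit 226) (nat_lit 21) (.e (nat_lit 336430) (nat_lit 29) (.e (nat_lit 442427) (nat_lit 23) (.e (nat_lit 204805) (nat_lit 0) .nil)))))) (.g (nat_lit 0) .nil .nil))) 
(.lf (nat_lit 121948) (.g (nat_lit 1667) (.e (nat_lit 7936) (nat_lit 380) (.e (nat_lit 164356) (nat_lit 246) (.e (nat_lit 216) (nat_lit 19) (.e (nat_lit 319531) (nat_lit 16) (.e (nat_lit 286748) (nat_lit 9) .nil))))) .nil))))) (.nd (nat_lit 2) (.nd (nat_lit 3) (.nd (nat_lit 4) 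
(.lf (nat_lit 121922) (.g (nat_lit 1338) (.e (nat_lit 7106) (nat_lit 380) (.e (nat_lit 164291) (nat_lit 224) (.e (nat_lit 164112) (nat_lit 118) (.e (nat_lit 794637) (nat_lit 11) (.e (nat_lit 336215) (nat_lit 13) (.e (nat_lit 401152) (nat_lit 17) .nil)))))) (.g (nat_lit 5) .nil .nil))) 
(.lf (nat_lit 121938) (.g (nat_lit 1610) (.e (nat_lit 7107) (nat_lit 380) (.e (nat_lit 164108) (nat_lit 116) (.e (nat_lit 786176) (nat_lit 4) (.e (nat_lit 65598) (nat_lit 9) (.e (nat_lit 336013) (nat_lit 2) (.e (nat_lit 98048) (nat_lit 2) (.e (nat_lit 16384) (nat_lit 0) .nil))))))) (.g (nat_lit 5) .nil .nil)))) (.nd (nat_lit 4) 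
(.lf (nat_lit 121930) (.g (nat_lit 1776) (.e (nat_lit 7106) (nat_lit 380) (.e (nat_lit 164356) (nat_lit 246) (.e (nat_lit 100) (nat_lit 2) (.e (nat_lit 90176) (nat_lit 15) (.e (nat_lit 188421) (nat_lit 11) .nil))))) .nil)) 
(.lf (nat_lit 121946) (.g (nat_lit 275) (.e (nat_lit 7108) (nat_lit 380) (.e (nat_lit 164353) (nat_lit 246) (.e (nat_lit 112) (nat_lit 3) .nil))) .nil)))) (.nd (nat_lit 3) (.nd (nat_lit 4) 
(.lf (nat_lit 121926) (.g (nat_lit 749) (.e (nat_lit 7106) (nat_lit 380) (.e (nat_lit 164293) (nat_lit 224) (.e (nat_lit 164112) (nat_lit 118) (.e (nat_lit 794637) (nat_lit 11) (.e (nat_lit 336214) (nat_lit 13) .nil))))) .nil)) 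
(.lf (nat_lit 121942) (.g (nat_lit 2677) (.e (nat_lit 7107) (nat_lit 380) (.e (nat_lit 164281) (nat_lit 222) (.e (nat_lit 57884) (nat_lit 270) (.e (nat_lit 1544) (nat_lit 109) (.e (nat_lit 344156) (nat_lit 36) (.e (nat_lit 638998) (nat_lit 8) (.e (nat_lit 172038) (nat_lit 0) .nil))))))) (.g (nat_lit 0) .nil .nil)))) (.nd (nat_lit 4) 
(.lf (nat_lit 121934) (.g (nat_lit 2414) (.e (nat_lit 7106) (nat_lit 380) (.e (nat_lit 164356) (nat_lit 246) (.e (nat_lit 226) (nat_lit 21) (.e (nat_lit 336443) (nat_lit 32) (.e (nat_lit 466979) (nat_lit 23) (.e (nat_lit 204805) (nat_lit 0) .nil)))))) (.g (nat_lit 0) .nil .nil))) 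
(.lf (nat_lit 121950) (.g (nat_lit 1465) (.e (nat_lit 7112) (nat_lit 381) (.e (nat_lit 229651) (nat_lit 232) (.e (nat_lit 1310) (nat_lit 98) (.e (nat_lit 147492) (nat_lit 11) (.e (nat_lit 24657) (nat_lit 13) (.e (nat_lit 401152) (nat_lit 17) .nil)))))) (.g (nat_lit 5) .nil .nil))))))) (.nd (nat_lit 1) (.nd (nat_lit 2) (.nd (nat_lit 3) (.nd (nat_lit 4) 
(.lf (nat_lit 121921) (.g (nat_lit 478) (.e (nat_lit 7106) (nat_lit 380) (.e (nat_lit 164291) (nat_lit 224) (.e (nat_lit 164112) (nat_lit 118) (.e (nat_lit 794636) (nat_lit 11) (.e (nat_lit 336214) (nat_lit 13) .nil))))) .nil)) 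
(.lf (nat_lit 121937) (.g (nat_lit 1724) (.e (nat_lit 7106) (nat_lit 380) (.e (nat_lit 164358) (nat_lit 246) (.e (nat_lit 351) (nat_lit 28) (.e (nat_lit 393279) (nat_lit 23) (.e (nat_lit 426129) (nat_lit 3) (.e (nat_lit 204805) (nat_lit 0) .nil)))))) (.g (nat_lit 0) .nil .nil)))) (.nd (nat_lit 4) 
(.lf (nat_lit 121929) (.g (nat_lit 1636) (.e (nat_lit 7106) (nat_lit 380) (.e (nat_lit 164294) (nat_lit 224) (.e (nat_lit 164112) (nat_lit 118) (.e (nat_lit 794637) (nat_lit 11) (.e (nat_lit 336215) (nat_lit 13) (.e (nat_lit 401152) (nat_lit 17) .nil)))))) (.g (nat_lit 5) .nil .nil))) 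
(.lf (nat_lit 121945) (.g (nat_lit 422) (.e (nat_lit 7107) (nat_lit 380) (.e (nat_lit 164358) (nat_lit 246) (.e (nat_lit 351) (nat_lit 28) .nil))) .nil)))) (.nd (nat_lit 3) (.nd (nat_lit 4) 
(.lf (nat_lit 121925) (.g (nat_lit 1569) (.e (nat_lit 7106) (nat_lit 380) (.e (nat_lit 164292) (nat_lit 224) (.e (nat_lit 164112) (nat_lit 118) (.e (nat_lit 794637) (nat_lit 11) (.e (nat_lit 336215) (nat_lit 13) (.e (nat_lit 401152) (nat_lit 17) .nil)))))) (.g (nat_lit 5) .nil .nil))) 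
(.lf (nat_lit 121941) (.g (nat_lit 1517) (.e (nat_lit 7107) (nat_lit 380) (.e (nat_lit 164281) (nat_lit 222) (.e (nat_lit 57884) (nat_lit 270) (.e (nat_lit 1544) (nat_lit 109) (.e (nat_lit 344154) (nat_lit 35) (.e (nat_lit 630802) (nat_lit 8) (.e (nat_lit 172038) (nat_lit 0) .nil))))))) (.g (nat_lit 0) .nil .nil)))) (.nd (nat_lit 4) 
(.lf (nat_lit 121933) (.g (nat_lit 2641) (.e (nat_lit 7106) (nat_lit 380) (.e (nat_lit 164356) (nat_lit 246) (.e (nat_lit 226) (nat_lit 21) (.e (nat_lit 336432) (nat_lit 30) (.e (nat_lit 450580) (nat_lit 5) (.e (nat_lit 532575) (nat_lit 17) .nil)))))) (.g (nat_lit 0) .nil .nil))) 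
(.lf (nat_lit 121949) (.g (nat_lit 1518) (.e (nat_lit 7936) (nat_lit 380) (.e (nat_lit 164358) (nat_lit 246) (.e (nat_lit 216) (nat_lit 19) (.e (nat_lit 319531) (nat_lit 16) (.e (nat_lit 286748) (nat_lit 9) .nil))))) .nil))))) (.nd (nat_lit 2) (.nd (nat_lit 3) (.nd (nat_lit 4) 
(.lf (nat_lit 121923) (.g (nat_lit 749) (.e (nat_lit 7106) (nat_lit 380) (.e (nat_lit 164292) (nat_lit 224) (.e (nat_lit 164112) (nat_lit 118) (.e (nat_lit 794636) (nat_lit 11) (.e (nat_lit 336214) (nat_lit 13) (.e (nat_lit 401152) (nat_lit 17) .nil)))))) (.g (nat_lit 4) .nil .nil))) 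
(.lf (nat_lit 121939) (.g (nat_lit 1356) (.e (nat_lit 7107) (nat_lit 380) (.e (nat_lit 164108) (nat_lit 116) (.e (nat_lit 786176) (nat_lit 6) (.e (nat_lit 81953) (nat_lit 22) (.e (nat_lit 98048) (nat_lit 2) (.e (nat_lit 16384) (nat_lit 0) .nil)))))) (.g (nat_lit 4) .nil .nil)))) (.nd (nat_lit 4) 
(.lf (nat_lit 121931) (.g (nat_lit 2342) (.e (nat_lit 7106) (nat_lit 380) (.e (nat_lit 164356) (nat_lit 246) (.e (nat_lit 226) (nat_lit 21) (.e (nat_lit 336430) (nat_lit 29) (.e (nat_lit 442425) (nat_lit 23) (.e (nat_lit 204805) (nat_lit 0) .nil)))))) (.g (nat_lit 0) .nil .nil))) 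
(.lf (nat_lit 121947) (.g (nat_lit 3234) (.e (nat_lit 7109) (nat_lit 380) (.e (nat_lit 164354) (nat_lit 246) (.e (nat_lit 216) (nat_lit 19) (.e (nat_lit 319531) (nat_lit 16) (.e (nat_lit 286761) (nat_lit 13) (.e (nat_lit 393234) (nat_lit 17) .nil)))))) (.g (nat_lit 0) .nil .nil))))) (.nd (nat_lit 3) (.nd (nat_lit 4) 
(.lf (nat_lit 121927) (.g (nat_lit 807) (.e (nat_lit 7106) (nat_lit 380) (.e (nat_lit 164294) (nat_lit 224) (.e (nat_lit 164112) (nat_lit 118) (.e (nat_lit 794636) (nat_lit 11) (.e (nat_lit 336214) (nat_lit 13) (.e (nat_lit 401152) (nat_lit 17) .nil)))))) (.g (nat_lit 4) .nil .nil))) 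
(.lf (nat_lit 121943) (.g (nat_lit 628) (.e (nat_lit 7107) (nat_lit 380) (.e (nat_lit 164356) (nat_lit 246) (.e (nat_lit 216) (nat_lit 19) .nil))) .nil))) (.nd (nat_lit 4) 
(.lf (nat_lit 121935) (.g (nat_lit 2515) (.e (nat_lit 7106) (nat_lit 380) (.e (nat_lit 164356) (nat_lit 246) (.e (nat_lit 226) (nat_lit 21) (.e (nat_lit 336443) (nat_lit 32) (.e (nat_lit 466981) (nat_lit 23) (.e (nat_lit 204805) (nat_lit 0) .nil)))))) (.g (nat_lit 0) .nil .nil))) 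
(.lf (nat_lit 121951) (.g (nat_lit 632) (.e (nat_lit 7119) (nat_lit 382) (.e (nat_lit 1193) (nat_lit 88) (.e (nat_lit 65626) (nat_lit 13) (.e (nat_lit 393300) (nat_lit 27) .nil)))) .nil)))))))

noncomputable def tv1624 : DT := (.nd (nat_lit 0) (.nd (nat_lit 1) (.nd (nat_lit 2) (.nd (nat_lit 3) (.nd (nat_lit 4) 
(.lf (nat_lit 121952) (.g (nat_lit 2372) (.e (nat_lit 7119) (nat_lit 382) (.e (nat_lit 1201) (nat_lit 88) (.e (nat_lit 65571) (nat_lit 3) (.e (nat_lit 98359) (nat_lit 26) (.e (nat_lit 426286) (nat_lit 10) .nil))))) .nil)) 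
(.lf (nat_lit 121968) (.g (nat_lit 665) (.e (nat_lit 7119) (nat_lit 382) (.e (nat_lit 1296) (nat_lit 96) (.e (nat_lit 131128) (nat_lit 13) .nil))) .nil))) (.nd (nat_lit 4) 
(.lf (nat_lit 121960) (.g (nat_lit 1665) (.e (nat_lit 7119) (nat_lit 382) (.e (nat_lit 1223) (nat_lit 90) (.e (nat_lit 81965) (nat_lit 26) (.e (nat_lit 147495) (nat_lit 11) (.e (nat_lit 24639) (nat_lit 10) .nil))))) .nil)) 
(.lf (nat_lit 121976) (.g (nat_lit 3867) (.e (nat_lit 7122) (nat_lit 382) (.e (nat_lit 1201) (nat_lit 88) (.e (nat_lit 65566) (nat_lit 2) (.e (nat_lit 90170) (nat_lit 13) (.e (nat_lit 172113) (nat_lit 10) (.e (nat_lit 434248) (nat_lit 28) (.e (nat_lit 573475) (nat_lit 12) (.e (nat_lit 57348) (nat_lit 0) .nil)))))))) (.g (nat_lit 6) .nil .nil))))) (.nd (nat_lit 3) (.nd (nat_lit 4) 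
(.lf (nat_lit 121956) (.g (nat_lit 1275) (.e (nat_lit 7119) (nat_lit 382) (.e (nat_lit 1201) (nat_lit 88) (.e (nat_lit 65617) (nat_lit 10) (.e (nat_lit 344091) (nat_lit 18) .nil)))) .nil)) 
(.lf (nat_lit 121972) (.g (nat_lit 648) (.e (nat_lit 7122) (nat_lit 382) (.e (nat_lit 1191) (nat_lit 88) (.e (nat_lit 65627) (nat_lit 13) (.e (nat_lit 393300) (nat_lit 27) .nil)))) .nil))) (.nd (nat_lit 4) 
(.lf (nat_lit 121964) (.g (nat_lit 1248) (.e (nat_lit 7119) (nat_lit 382) (.e (nat_lit 1296) (nat_lit 96) (.e (nat_lit 131109) (nat_lit 9) (.e (nat_lit 336000) (nat_lit 1) (.e (nat_lit 57681) (nat_lit 155) .nil))))) .nil)) 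
(.lf (nat_lit 121980) (.g (nat_lit 3972) (.e (nat_lit 7122) (nat_lit 382) (.e (nat_lit 1201) (nat_lit 88) (.e (nat_lit 65568) (nat_lit 2) (.e (nat_lit 90170) (nat_lit 13) (.e (nat_lit 172113) (nat_lit 10) (.e (nat_lit 434248) (nat_lit 28) (.e (nat_lit 573473) (nat_lit 12) (.e (nat_lit 57348) (nat_lit 0) .nil)))))))) (.g (nat_lit 6) .nil .nil)))))) 
(.nd (nat_lit 2) (.nd (nat_lit 3) (.nd (nat_lit 4) 
(.lf (nat_lit 121954) (.g (nat_lit 2684) (.e (nat_lit 7119) (nat_lit 382) (.e (nat_lit 1201) (nat_lit 88) (.e (nat_lit 65610) (nat_lit 10) (.e (nat_lit 344097) (nat_lit 18) (.e (nat_lit 7270) (nat_lit 385) .nil))))) .nil)) 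
(.lf (nat_lit 121970) (.g (nat_lit 1793) (.e (nat_lit 7119) (nat_lit 382) (.e (nat_lit 1296) (nat_lit 96) (.e (nat_lit 131128) (nat_lit 13) (.e (nat_lit 393301) (nat_lit 27) (.e (nat_lit 491558) (nat_lit 10) .nil))))) .nil))) (.nd (nat_lit 4) 
(.lf (nat_lit 121962) (.g (nat_lit 650) (.e (nat_lit 7119) (nat_lit 382) (.e (nat_lit 1296) (nat_lit 96) (.e (nat_lit 131097) (nat_lit 3) .nil))) .nil)) 
(.lf (nat_lit 121978) (.g (nat_lit 3825) (.e (nat_lit 7122) (nat_lit 382) (.e (nat_lit 1201) (nat_lit 88) (.e (nat_lit 65568) (nat_lit 2) (.e (nat_lit 90170) (nat_lit 13) (.e (nat_lit 172113) (nat_lit 10) (.e (nat_lit 434245) (nat_lit 28) (.e (nat_lit 573473) (nat_lit 12) (.e (nat_lit 57348) (nat_lit 0) .nil)))))))) (.g (nat_lit 6) .nil .nil))))) (.nd (nat_lit 3) (.nd (nat_lit 4) 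
(.lf (nat_lit 121958) (.g (nat_lit 1974) (.e (nat_lit 7119) (nat_lit 382) (.e (nat_lit 1201) (nat_lit 88) (.e (nat_lit 65617) (nat_lit 10) (.e (nat_lit 344096) (nat_lit 18) (.e (nat_lit 7263) (nat_lit 384) .nil))))) .nil)) 
(.lf (nat_lit 121974) (.g (nat_lit 4066) (.e (nat_lit 7122) (nat_lit 382) (.e (nat_lit 1201) (nat_lit 88) (.e (nat_lit 65566) (nat_lit 2) (.e (nat_lit 90170) (nat_lit 13) (.e (nat_lit 172113) (nat_lit 10) (.e (nat_lit 434247) (nat_lit 28) (.e (nat_lit 573478) (nat_lit 12) (.e (nat_lit 57351) (nat_lit 0) .nil)))))))) (.g (nat_lit 8) .nil .nil)))) (.nd (nat_lit 4) 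
(.lf (nat_lit 121966) (.g (nat_lit 914) (.e (nat_lit 7119) (nat_lit 382) (.e (nat_lit 1296) (nat_lit 96) (.e (nat_lit 131125) (nat_lit 13) (.e (nat_lit 393300) (nat_lit 27) .nil)))) .nil)) 
(.lf (nat_lit 121982) (.g (nat_lit 4930) (.e (nat_lit 7122) (nat_lit 382) (.e (nat_lit 1201) (nat_lit 88) (.e (nat_lit 65568) (nat_lit 2) (.e (nat_lit 90170) (nat_lit 13) (.e (nat_lit 172113) (nat_lit 10) (.e (nat_lit 434248) (nat_lit 28) (.e (nat_lit 573475) (nat_lit 12) (.e (nat_lit 57351) (nat_lit 0) .nil)))))))) (.g (nat_lit 0) .nil .nil))))))) 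
(.nd (nat_lit 1) (.nd (nat_lit 2) (.nd (nat_lit 3) (.nd (nat_lit 4) 
(.lf (nat_lit 121953) (.g (nat_lit 2149) (.e (nat_lit 7119) (nat_lit 382) (.e (nat_lit 1201) (nat_lit 88) (.e (nat_lit 65610) (nat_lit 10) (.e (nat_lit 344090) (nat_lit 18) (.e (nat_lit 7266) (nat_lit 384) .nil))))) .nil)) 
(.lf (nat_lit 121969) (.g (nat_lit 945) (.e (nat_lit 7119) (nat_lit 382) (.e (nat_lit 1296) (nat_lit 96) (.e (nat_lit 131128) (nat_lit 13) (.e (nat_lit 393300) (nat_lit 27) .nil)))) .nil))) (.nd (nat_lit 4) 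
(.lf (nat_lit 121961) (.g (nat_lit 640) (.e (nat_lit 7119) (nat_lit 382) (.e (nat_lit 1296) (nat_lit 96) (.e (nat_lit 131096) (nat_lit 3) .nil))) .nil)) 
(.lf (nat_lit 121977) (.g (nat_lit 4687) (.e (nat_lit 7122) (nat_lit 382) (.e (nat_lit 1201) (nat_lit 88) (.e (nat_lit 65566) (nat_lit 2) (.e (nat_lit 90170) (nat_lit 13) (.e (nat_lit 172113) (nat_lit 10) (.e (nat_lit 434248) (nat_lit 28) (.e (nat_lit 573475) (nat_lit 12) (.e (nat_lit 57351) (nat_lit 0) .nil)))))))) (.g (nat_lit 0) .nil .nil))))) (.nd (nat_lit 3) (.nd (nat_lit 4) 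
(.lf (nat_lit 121957) (.g (nat_lit 1213) (.e (nat_lit 7119) (nat_lit 382) (.e (nat_lit 1201) (nat_lit 88) (.e (nat_lit 65617) (nat_lit 10) (.e (nat_lit 344096) (nat_lit 18) .nil)))) .nil)) 
(.lf (nat_lit 121973) (.g (nat_lit 3590) (.e (nat_lit 7122) (nat_lit 382) (.e (nat_lit 1201) (nat_lit 88) (.e (nat_lit 65566) (nat_lit 2) (.e (nat_lit 90170) (nat_lit 13) (.e (nat_lit 172113) (nat_lit 10) (.e (nat_lit 434245) (nat_lit 28) (.e (nat_lit 573473) (nat_lit 12) (.e (nat_lit 57348) (nat_lit 0) .nil)))))))) (.g (nat_lit 6) .nil .nil)))) (.nd (nat_lit 4) 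
(.lf (nat_lit 121965) (.g (nat_lit 707) (.e (nat_lit 7119) (nat_lit 382) (.e (nat_lit 1296) (nat_lit 96) (.e (nat_lit 131125) (nat_lit 13) .nil))) .nil)) 
(.lf (nat_lit 121981) (.g (nat_lit 4101) (.e (nat_lit 7122) (nat_lit 382) (.e (nat_lit 1201) (nat_lit 88) (.e (nat_lit 65568) (nat_lit 2) (.e (nat_lit 90170) (nat_lit 13) (.e (nat_lit 172113) (nat_lit 10) (.e (nat_lit 434248) (nat_lit 28) (.e (nat_lit 573475) (nat_lit 12) (.e (nat_lit 57348) (nat_lit 0) .nil)))))))) (.g (nat_lit 6) .nil .nil)))))) 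
(.nd (nat_lit 2) (.nd (nat_lit 3) (.nd (nat_lit 4) 
(.lf (nat_lit 121955) (.g (nat_lit 497) (.e (nat_lit 7119) (nat_lit 382) (.e (nat_lit 1201) (nat_lit 88) (.e (nat_lit 65617) (nat_lit 10) .nil))) .nil)) 
(.lf (nat_lit 121971) (.g (nat_lit 533) (.e (nat_lit 7122) (nat_lit 382) (.e (nat_lit 1183) (nat_lit 87) (.e (nat_lit 57741) (nat_lit 187) .nil))) .nil))) (.nd (nat_lit 4) 
(.lf (nat_lit 121963) (.g (nat_lit 1556) (.e (nat_lit 7119) (nat_lit 382) (.e (nat_lit 1296) (nat_lit 96) (.e (nat_lit 131098) (nat_lit 3) (.e (nat_lit 98372) (nat_lit 29) (.e (nat_lit 450586) (nat_lit 10) .nil))))) .nil)) 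
(.lf (nat_lit 121979) (.g (nat_lit 4306) (.e (nat_lit 7122) (nat_lit 382) (.e (nat_lit 1201) (nat_lit 88) (.e (nat_lit 65568) (nat_lit 2) (.e (nat_lit 90170) (nat_lit 13) (.e (nat_lit 172113) (nat_lit 10) (.e (nat_lit 434247) (nat_lit 28) (.e (nat_lit 573478) (nat_lit 12) (.e (nat_lit 57351) (nat_lit 0) .nil)))))))) (.g (nat_lit 8) .nil .nil))))) (.nd (nat_lit 3) (.nd (nat_lit 4) 
(.lf (nat_lit 121959) (.g (nat_lit 2330) (.e (nat_lit 7119) (nat_lit 382) (.e (nat_lit 1218) (nat_lit 90) (.e (nat_lit 81950) (nat_lit 21) (.e (nat_lit 57681) (nat_lit 155) (.e (nat_lit 122919) (nat_lit 15) .nil))))) .nil)) 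
(.lf (nat_lit 121975) (.g (nat_lit 3738) (.e (nat_lit 7122) (nat_lit 382) (.e (nat_lit 1201) (nat_lit 88) (.e (nat_lit 65566) (nat_lit 2) (.e (nat_lit 90170) (nat_lit 13) (.e (nat_lit 172113) (nat_lit 10) (.e (nat_lit 434248) (nat_lit 28) (.e (nat_lit 573473) (nat_lit 12) (.e (nat_lit 57348) (nat_lit 0) .nil)))))))) (.g (nat_lit 6) .nil .nil)))) (.nd (nat_lit 4) 
(.lf (nat_lit 121967) (.g (nat_lit 1901) (.e (nat_lit 7119) (nat_lit 382) (.e (nat_lit 1296) (nat_lit 96) (.e (nat_lit 131125) (nat_lit 13) (.e (nat_lit 393301) (nat_lit 27) (.e (nat_lit 491558) (nat_lit 10) .nil))))) .nil)) 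
(.lf (nat_lit 121983) (.g (nat_lit 3652) (.e (nat_lit 7122) (nat_lit 382) (.e (nat_lit 1201) (nat_lit 88) (.e (nat_lit 65569) (nat_lit 3) (.e (nat_lit 98359) (nat_lit 26) (.e (nat_lit 426286) (nat_lit 10) (.e (nat_lit 434245) (nat_lit 28) (.e (nat_lit 573473) (nat_lit 12) (.e (nat_lit 57348) (nat_lit 0) .nil)))))))) (.g (nat_lit 6) .nil .nil))))))))

noncomputable def tv1625 : DT := (.nd (nat_lit 0) (.nd (nat_lit 1) (.nd (nat_lit 2) (.nd (nat_lit 3) (.nd (nat_lit 4) (.nd (nat_lit 5) 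
(.lf (nat_lit 121984) (.g (nat_lit 3877) (.e (nat_lit 7122) (nat_lit 382) (.e (nat_lit 1201) (nat_lit 88) (.e (nat_lit 65569) (nat_lit 3) (.e (nat_lit 98359) (nat_lit 26) (.e (nat_lit 426286) (nat_lit 10) (.e (nat_lit 434247) (nat_lit 28) (.e (nat_lit 573478) (nat_lit 12) (.e (nat_lit 57351) (nat_lit 0) .nil)))))))) (.g (nat_lit 8) .nil .nil))) 
(.lf (nat_lit 122016) (.g (nat_lit 3542) (.e (nat_lit 7122) (nat_lit 382) (.e (nat_lit 1201) (nat_lit 88) (.e (nat_lit 65610) (nat_lit 10) (.e (nat_lit 344090) (nat_lit 18) (.e (nat_lit 7266) (nat_lit 384) (.e (nat_lit 57426) (nat_lit 15) (.e (nat_lit 360449) (nat_lit 0) .nil))))))) (.g (nat_lit 0) .nil .nil)))) (.nd (nat_lit 5) 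
(.lf (nat_lit 122000) (.g (nat_lit 4871) (.e (nat_lit 7122) (nat_lit 382) (.e (nat_lit 1201) (nat_lit 88) (.e (nat_lit 65571) (nat_lit 3) (.e (nat_lit 98359) (nat_lit 26) (.e (nat_lit 426286) (nat_lit 10) (.e (nat_lit 434248) (nat_lit 28) (.e (nat_lit 573475) (nat_lit 12) (.e (nat_lit 57351) (nat_lit 0) .nil)))))))) (.g (nat_lit 0) .nil .nil))) 
(.lf (nat_lit 122032) (.g (nat_lit 659) (.e (nat_lit 7122) (nat_lit 382) (.e (nat_lit 1201) (nat_lit 88) (.e (nat_lit 65611) (nat_lit 10) .nil))) .nil)))) (.nd (nat_lit 4) (.nd (nat_lit 5) 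
(.lf (nat_lit 121992) (.g (nat_lit 1927) (.e (nat_lit 7122) (nat_lit 382) (.e (nat_lit 1201) (nat_lit 88) (.e (nat_lit 65570) (nat_lit 3) (.e (nat_lit 98372) (nat_lit 29) (.e (nat_lit 450586) (nat_lit 10) .nil))))) .nil)) 
(.lf (nat_lit 122024) (.g (nat_lit 1780) (.e (nat_lit 7122) (nat_lit 382) (.e (nat_lit 1201) (nat_lit 88) (.e (nat_lit 65610) (nat_lit 10) (.e (nat_lit 344174) (nat_lit 42) (.e (nat_lit 761869) (nat_lit 5) .nil))))) .nil))) (.nd (nat_lit 5) 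
(.lf (nat_lit 122008) (.g (nat_lit 3778) (.e (nat_lit 7122) (nat_lit 382) (.e (nat_lit 1201) (nat_lit 88) (.e (nat_lit 65586) (nat_lit 7) (.e (nat_lit 319533) (nat_lit 16) (.e (nat_lit 286753) (nat_lit 10) (.e (nat_lit 344160) (nat_lit 37) (.e (nat_lit 647201) (nat_lit 12) (.e (nat_lit 57351) (nat_lit 0) .nil)))))))) (.g (nat_lit 7) .nil .nil))) 
(.lf (nat_lit 122040) (.g (nat_lit 4225) (.e (nat_lit 7122) (nat_lit 382) (.e (nat_lit 1201) (nat_lit 88) (.e (nat_lit 65617) (nat_lit 10) (.e (nat_lit 344091) (nat_lit 18) (.e (nat_lit 7125) (nat_lit 382) (.e (nat_lit 1201) (nat_lit 88) (.e (nat_lit 65617) (nat_lit 10) (.e (nat_lit 344095) (nat_lit 18) .nil)))))))) (.g (nat_lit 0) .nil .nil)))))) 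
(.nd (nat_lit 3) (.nd (nat_lit 4) (.nd (nat_lit 5) 
(.lf (nat_lit 121988) (.g (nat_lit 2417) (.e (nat_lit 7122) (nat_lit 382) (.e (nat_lit 1201) (nat_lit 88) (.e (nat_lit 65569) (nat_lit 3) (.e (nat_lit 98372) (nat_lit 29) (.e (nat_lit 450586) (nat_lit 10) (.e (nat_lit 573477) (nat_lit 12) (.e (nat_lit 57353) (nat_lit 0) .nil))))))) (.g (nat_lit 4) .nil .nil))) 
(.lf (nat_lit 122020) (.g (nat_lit 1714) (.e (nat_lit 7122) (nat_lit 382) (.e (nat_lit 1201) (nat_lit 88) (.e (nat_lit 65610) (nat_lit 10) (.e (nat_lit 344097) (nat_lit 18) (.e (nat_lit 7273) (nat_lit 385) .nil))))) .nil))) (.nd (nat_lit 5) 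
(.lf (nat_lit 122004) (.g (nat_lit 3712) (.e (nat_lit 7122) (nat_lit 382) (.e (nat_lit 1201) (nat_lit 88) (.e (nat_lit 65571) (nat_lit 3) (.e (nat_lit 98372) (nat_lit 29) (.e (nat_lit 450586) (nat_lit 10) (.e (nat_lit 573478) (nat_lit 12) (.e (nat_lit 57351) (nat_lit 0) .nil))))))) (.g (nat_lit 7) .nil .nil))) 
(.lf (nat_lit 122036) (.g (nat_lit 1857) (.e (nat_lit 7122) (nat_lit 382) (.e (nat_lit 1201) (nat_lit 88) (.e (nat_lit 65617) (nat_lit 10) (.e (nat_lit 344090) (nat_lit 18) (.e (nat_lit 7125) (nat_lit 382) .nil))))) .nil)))) (.nd (nat_lit 4) (.nd (nat_lit 5) 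
(.lf (nat_lit 121996) (.g (nat_lit 4932) (.e (nat_lit 7122) (nat_lit 382) (.e (nat_lit 1201) (nat_lit 88) (.e (nat_lit 65570) (nat_lit 3) (.e (nat_lit 98373) (nat_lit 29) (.e (nat_lit 450588) (nat_lit 10) (.e (nat_lit 573475) (nat_lit 12) (.e (nat_lit 57351) (nat_lit 0) .nil))))))) (.g (nat_lit 6) .nil .nil))) 
(.lf (nat_lit 122028) (.g (nat_lit 2563) (.e (nat_lit 7122) (nat_lit 382) (.e (nat_lit 1201) (nat_lit 88) (.e (nat_lit 65610) (nat_lit 10) (.e (nat_lit 344177) (nat_lit 43) (.e (nat_lit 770071) (nat_lit 8) (.e (nat_lit 65619) (nat_lit 10) (.e (nat_lit 344090) (nat_lit 18) .nil))))))) (.g (nat_lit 4) .nil .nil)))) (.nd (nat_lit 5) 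
(.lf (nat_lit 122012) (.g (nat_lit 3668) (.e (nat_lit 7122) (nat_lit 382) (.e (nat_lit 1201) (nat_lit 88) (.e (nat_lit 65610) (nat_lit 10) (.e (nat_lit 344090) (nat_lit 18) (.e (nat_lit 7122) (nat_lit 382) (.e (nat_lit 1201) (nat_lit 88) (.e (nat_lit 65617) (nat_lit 10) (.e (nat_lit 344091) (nat_lit 18) .nil)))))))) (.g (nat_lit 6) .nil .nil))) 
(.lf (nat_lit 122044) (.g (nat_lit 4511) (.e (nat_lit 7122) (nat_lit 382) (.e (nat_lit 1201) (nat_lit 88) (.e (nat_lit 65617) (nat_lit 10) (.e (nat_lit 344091) (nat_lit 18) (.e (nat_lit 7265) (nat_lit 384) (.e (nat_lit 57427) (nat_lit 15) (.e (nat_lit 360450) (nat_lit 0) .nil))))))) (.g (nat_lit 0) .nil .nil))))))) (.nd (nat_lit 2) (.nd (nat_lit 3) (.nd (nat_lit 4) (.nd (nat_lit 5) 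
(.lf (nat_lit 121986) (.g (nat_lit 4672) (.e (nat_lit 7122) (nat_lit 382) (.e (nat_lit 1201) (nat_lit 88) (.e (nat_lit 65569) (nat_lit 3) (.e (nat_lit 98359) (nat_lit 26) (.e (nat_lit 426286) (nat_lit 10) (.e (nat_lit 434248) (nat_lit 28) (.e (nat_lit 573475) (nat_lit 12) (.e (nat_lit 57351) (nat_lit 0) .nil)))))))) (.g (nat_lit 0) .nil .nil))) 
(.lf (nat_lit 122018) (.g (nat_lit 1865) (.e (nat_lit 7122) (nat_lit 382) (.e (nat_lit 1201) (nat_lit 88) (.e (nat_lit 65610) (nat_lit 10) (.e (nat_lit 344097) (nat_lit 18) (.e (nat_lit 7147) (nat_lit 382) .nil))))) .nil))) (.nd (nat_lit 5) 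
(.lf (nat_lit 122002) (.g (nat_lit 4297) (.e (nat_lit 7122) (nat_lit 382) (.e (nat_lit 1201) (nat_lit 88) (.e (nat_lit 65571) (nat_lit 3) (.e (nat_lit 98372) (nat_lit 29) (.e (nat_lit 450586) (nat_lit 10) (.e (nat_lit 573475) (nat_lit 12) (.e (nat_lit 57351) (nat_lit 0) .nil))))))) (.g (nat_lit 7) .nil .nil))) 
(.lf (nat_lit 122034) (.g (nat_lit 1271) (.e (nat_lit 7122) (nat_lit 382) (.e (nat_lit 1201) (nat_lit 88) (.e (nat_lit 65617) (nat_lit 10) (.e (nat_lit 344087) (nat_lit 18) .nil)))) .nil)))) (.nd (nat_lit 4) (.nd (nat_lit 5) 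
(.lf (nat_lit 121994) (.g (nat_lit 4344) (.e (nat_lit 7122) (nat_lit 382) (.e (nat_lit 1201) (nat_lit 88) (.e (nat_lit 65570) (nat_lit 3) (.e (nat_lit 98373) (nat_lit 29) (.e (nat_lit 450588) (nat_lit 10) (.e (nat_lit 573473) (nat_lit 12) (.e (nat_lit 57348) (nat_lit 0) .nil))))))) (.g (nat_lit 5) .nil .nil))) 
(.lf (nat_lit 122026) (.g (nat_lit 1107) (.e (nat_lit 7122) (nat_lit 382) (.e (nat_lit 1201) (nat_lit 88) (.e (nat_lit 65610) (nat_lit 10) (.e (nat_lit 344177) (nat_lit 43) .nil)))) .nil))) (.nd (nat_lit 5) 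
(.lf (nat_lit 122010) (.g (nat_lit 1171) (.e (nat_lit 7122) (nat_lit 382) (.e (nat_lit 1201) (nat_lit 88) (.e (nat_lit 65599) (nat_lit 9) (.e (nat_lit 336417) (nat_lit 27) .nil)))) .nil)) 
(.lf (nat_lit 122042) (.g (nat_lit 1948) (.e (nat_lit 7122) (nat_lit 382) (.e (nat_lit 1201) (nat_lit 88) (.e (nat_lit 65617) (nat_lit 10) (.e (nat_lit 344091) (nat_lit 18) (.e (nat_lit 7236) (nat_lit 382) (.e (nat_lit 1199) (nat_lit 88) (.e (nat_lit 65617) (nat_lit 10) (.e (nat_lit 344095) (nat_lit 18) .nil)))))))) (.g (nat_lit 4) .nil .nil)))))) 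
(.nd (nat_lit 3) (.nd (nat_lit 4) (.nd (nat_lit 5) 
(.lf (nat_lit 121990) (.g (nat_lit 3787) (.e (nat_lit 7122) (nat_lit 382) (.e (nat_lit 1201) (nat_lit 88) (.e (nat_lit 65569) (nat_lit 3) (.e (nat_lit 98373) (nat_lit 29) (.e (nat_lit 450587) (nat_lit 10) (.e (nat_lit 573478) (nat_lit 12) (.e (nat_lit 57351) (nat_lit 0) .nil))))))) (.g (nat_lit 7) .nil .nil))) 
(.lf (nat_lit 122022) (.g (nat_lit 1187) (.e (nat_lit 7122) (nat_lit 382) (.e (nat_lit 1201) (nat_lit 88) (.e (nat_lit 65610) (nat_lit 10) (.e (nat_lit 344174) (nat_lit 42) .nil)))) .nil))) (.nd (nat_lit 5) 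
(.lf (nat_lit 122006) (.g (nat_lit 2632) (.e (nat_lit 7122) (nat_lit 382) (.e (nat_lit 1201) (nat_lit 88) (.e (nat_lit 65583) (nat_lit 7) (.e (nat_lit 319530) (nat_lit 16) (.e (nat_lit 286756) (nat_lit 10) (.e (nat_lit 344160) (nat_lit 37) (.e (nat_lit 647201) (nat_lit 12) (.e (nat_lit 57351) (nat_lit 0) .nil)))))))) (.g (nat_lit 6) .nil .nil))) 
(.lf (nat_lit 122038) (.g (nat_lit 1022) (.e (nat_lit 7122) (nat_lit 382) (.e (nat_lit 1201) (nat_lit 88) (.e (nat_lit 65617) (nat_lit 10) (.e (nat_lit 344091) (nat_lit 18) .nil)))) .nil)))) (.nd (nat_lit 4) (.nd (nat_lit 5) 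
(.lf (nat_lit 121998) (.g (nat_lit 4077) (.e (nat_lit 7122) (nat_lit 382) (.e (nat_lit 1201) (nat_lit 88) (.e (nat_lit 65571) (nat_lit 3) (.e (nat_lit 98359) (nat_lit 26) (.e (nat_lit 426286) (nat_lit 10) (.e (nat_lit 434247) (nat_lit 28) (.e (nat_lit 573478) (nat_lit 12) (.e (nat_lit 57351) (nat_lit 0) .nil)))))))) (.g (nat_lit 8) .nil .nil))) 
(.lf (nat_lit 122030) (.g (nat_lit 3962) (.e (nat_lit 7122) (nat_lit 382) (.e (nat_lit 1201) (nat_lit 88) (.e (nat_lit 65610) (nat_lit 10) (.e (nat_lit 344177) (nat_lit 43) (.e (nat_lit 770072) (nat_lit 8) (.e (nat_lit 65617) (nat_lit 10) (.e (nat_lit 344095) (nat_lit 18) .nil))))))) (.g (nat_lit 0) .nil .nil)))) (.nd (nat_lit 5) 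
(.lf (nat_lit 122014) (.g (nat_lit 2058) (.e (nat_lit 7122) (nat_lit 382) (.e (nat_lit 1201) (nat_lit 88) (.e (nat_lit 65610) (nat_lit 10) (.e (nat_lit 344090) (nat_lit 18) (.e (nat_lit 7236) (nat_lit 382) (.e (nat_lit 1199) (nat_lit 88) (.e (nat_lit 65617) (nat_lit 10) (.e (nat_lit 344095) (nat_lit 18) .nil)))))))) (.g (nat_lit 4) .nil .nil))) 
(.lf (nat_lit 122046) (.g (nat_lit 1129) (.e (nat_lit 7122) (nat_lit 382) (.e (nat_lit 1201) (nat_lit 88) (.e (nat_lit 65617) (nat_lit 10) (.e (nat_lit 344095) (nat_lit 18) .nil)))) .nil))))))) (.nd (nat_lit 1) (.nd (nat_lit 2) (.nd (nat_lit 3) (.nd (nat_lit 4) (.nd (nat_lit 5) 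
(.lf (nat_lit 121985) (.g (nat_lit 3783) (.e (nat_lit 7122) (nat_lit 382) (.e (nat_lit 1201) (nat_lit 88) (.e (nat_lit 65569) (nat_lit 3) (.e (nat_lit 98359) (nat_lit 26) (.e (nat_lit 426286) (nat_lit 10) (.e (nat_lit 434248) (nat_lit 28) (.e (nat_lit 573473) (nat_lit 12) (.e (nat_lit 57348) (nat_lit 0) .nil)))))))) (.g (nat_lit 6) .nil .nil))) 
(.lf (nat_lit 122017) (.g (nat_lit 620) (.e (nat_lit 7122) (nat_lit 382) (.e (nat_lit 1201) (nat_lit 88) (.e (nat_lit 65610) (nat_lit 10) (.e (nat_lit 344097) (nat_lit 18) .nil)))) .nil))) (.nd (nat_lit 5) 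
(.lf (nat_lit 122001) (.g (nat_lit 4128) (.e (nat_lit 7122) (nat_lit 382) (.e (nat_lit 1201) (nat_lit 88) (.e (nat_lit 65571) (nat_lit 3) (.e (nat_lit 98372) (nat_lit 29) (.e (nat_lit 450586) (nat_lit 10) (.e (nat_lit 573473) (nat_lit 12) (.e (nat_lit 57352) (nat_lit 0) .nil))))))) (.g (nat_lit 7) .nil .nil))) 
(.lf (nat_lit 122033) (.g (nat_lit 416) (.e (nat_lit 7122) (nat_lit 382) (.e (nat_lit 1201) (nat_lit 88) (.e (nat_lit 65617) (nat_lit 10) .nil))) .nil)))) (.nd (nat_lit 4) (.nd (nat_lit 5) 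
(.lf (nat_lit 121993) (.g (nat_lit 2845) (.e (nat_lit 7122) (nat_lit 382) (.e (nat_lit 1201) (nat_lit 88) (.e (nat_lit 65570) (nat_lit 3) (.e (nat_lit 98373) (nat_lit 29) (.e (nat_lit 450587) (nat_lit 10) (.e (nat_lit 573478) (nat_lit 12) (.e (nat_lit 57351) (nat_lit 0) .nil))))))) (.g (nat_lit 5) .nil .nil))) 
(.lf (nat_lit 122025) (.g (nat_lit 1346) (.e (nat_lit 7122) (nat_lit 382) (.e (nat_lit 1201) (nat_lit 88) (.e (nat_lit 65610) (nat_lit 10) (.e (nat_lit 344175) (nat_lit 43) .nil)))) .nil))) (.nd (nat_lit 5) 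
(.lf (nat_lit 122009) (.g (nat_lit 603) (.e (nat_lit 7122) (nat_lit 382) (.e (nat_lit 1201) (nat_lit 88) (.e (nat_lit 65599) (nat_lit 9) .nil))) .nil)) 
(.lf (nat_lit 122041) (.g (nat_lit 1927) (.e (nat_lit 7122) (nat_lit 382) (.e (nat_lit 1201) (nat_lit 88) (.e (nat_lit 65617) (nat_lit 10) (.e (nat_lit 344091) (nat_lit 18) (.e (nat_lit 7125) (nat_lit 382) (.e (nat_lit 1224) (nat_lit 90) (.e (nat_lit 81946) (nat_lit 20) (.e (nat_lit 1014) (nat_lit 81) .nil)))))))) (.g (nat_lit 4) .nil .nil)))))) (.nd (nat_lit 3) (.nd (nat_lit 4) (.nd (nat_lit 5) 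
(.lf (nat_lit 121989) (.g (nat_lit 3181) (.e (nat_lit 7122) (nat_lit 382) (.e (nat_lit 1201) (nat_lit 88) (.e (nat_lit 65569) (nat_lit 3) (.e (nat_lit 98372) (nat_lit 29) (.e (nat_lit 450586) (nat_lit 10) (.e (nat_lit 573478) (nat_lit 12) (.e (nat_lit 57351) (nat_lit 0) .nil))))))) (.g (nat_lit 7) .nil .nil))) 
(.lf (nat_lit 122021) (.g (nat_lit 1347) (.e (nat_lit 7122) (nat_lit 382) (.e (nat_lit 1201) (nat_lit 88) (.e (nat_lit 65610) (nat_lit 10) (.e (nat_lit 344173) (nat_lit 42) .nil)))) .nil))) (.nd (nat_lit 5) 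
(.lf (nat_lit 122005) (.g (nat_lit 4120) (.e (nat_lit 7122) (nat_lit 382) (.e (nat_lit 1201) (nat_lit 88) (.e (nat_lit 65571) (nat_lit 3) (.e (nat_lit 98373) (nat_lit 29) (.e (nat_lit 450587) (nat_lit 10) (.e (nat_lit 573478) (nat_lit 12) (.e (nat_lit 57351) (nat_lit 0) .nil))))))) (.g (nat_lit 7) .nil .nil))) 
(.lf (nat_lit 122037) (.g (nat_lit 1840) (.e (nat_lit 7122) (nat_lit 382) (.e (nat_lit 1201) (nat_lit 88) (.e (nat_lit 65617) (nat_lit 10) (.e (nat_lit 344090) (nat_lit 18) (.e (nat_lit 7266) (nat_lit 384) .nil))))) .nil)))) (.nd (nat_lit 4) (.nd (nat_lit 5) 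
(.lf (nat_lit 121997) (.g (nat_lit 3825) (.e (nat_lit 7122) (nat_lit 382) (.e (nat_lit 1201) (nat_lit 88) (.e (nat_lit 65571) (nat_lit 3) (.e (nat_lit 98359) (nat_lit 26) (.e (nat_lit 426286) (nat_lit 10) (.e (nat_lit 434245) (nat_lit 28) (.e (nat_lit 573473) (nat_lit 12) (.e (nat_lit 57348) (nat_lit 0) .nil)))))))) (.g (nat_lit 6) .nil .nil))) 
(.lf (nat_lit 122029) (.g (nat_lit 1802) (.e (nat_lit 7122) (nat_lit 382) (.e (nat_lit 1201) (nat_lit 88) (.e (nat_lit 65610) (nat_lit 10) (.e (nat_lit 344177) (nat_lit 43) (.e (nat_lit 770072) (nat_lit 8) .nil))))) .nil))) (.nd (nat_lit 5) 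
(.lf (nat_lit 122013) (.g (nat_lit 1942) (.e (nat_lit 7122) (nat_lit 382) (.e (nat_lit 1201) (nat_lit 88) (.e (nat_lit 65610) (nat_lit 10) (.e (nat_lit 344090) (nat_lit 18) (.e (nat_lit 7125) (nat_lit 382) (.e (nat_lit 1224) (nat_lit 90) (.e (nat_lit 81946) (nat_lit 20) (.e (nat_lit 1014) (nat_lit 81) .nil)))))))) (.g (nat_lit 4) .nil .nil))) 
(.lf (nat_lit 122045) (.g (nat_lit 3531) (.e (nat_lit 7122) (nat_lit 382) (.e (nat_lit 1201) (nat_lit 88) (.e (nat_lit 65617) (nat_lit 10) (.e (nat_lit 344091) (nat_lit 18) (.e (nat_lit 7266) (nat_lit 384) (.e (nat_lit 57426) (nat_lit 15) (.e (nat_lit 360449) (nat_lit 0) .nil))))))) (.g (nat_lit 0) .nil .nil))))))) (.nd (nat_lit 2) (.nd (nat_lit 3) (.nd (nat_lit 4) (.nd (nat_lit 5) 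
(.lf (nat_lit 121987) (.g (nat_lit 3767) (.e (nat_lit 7122) (nat_lit 382) (.e (nat_lit 1201) (nat_lit 88) (.e (nat_lit 65569) (nat_lit 3) (.e (nat_lit 98372) (nat_lit 29) (.e (nat_lit 450586) (nat_lit 10) (.e (nat_lit 573475) (nat_lit 12) (.e (nat_lit 57351) (nat_lit 0) .nil))))))) (.g (nat_lit 0) .nil .nil))) 
(.lf (nat_lit 122019) (.g (nat_lit 2111) (.e (nat_lit 7122) (nat_lit 382) (.e (nat_lit 1201) (nat_lit 88) (.e (nat_lit 65610) (nat_lit 10) (.e (nat_lit 344097) (nat_lit 18) (.e (nat_lit 7267) (nat_lit 385) .nil))))) .nil))) (.nd (nat_lit 5) 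
(.lf (nat_lit 122003) (.g (nat_lit 3837) (.e (nat_lit 7122) (nat_lit 382) (.e (nat_lit 1201) (nat_lit 88) (.e (nat_lit 65571) (nat_lit 3) (.e (nat_lit 98372) (nat_lit 29) (.e (nat_lit 450586) (nat_lit 10) (.e (nat_lit 573477) (nat_lit 12) (.e (nat_lit 57352) (nat_lit 0) .nil))))))) (.g (nat_lit 7) .nil .nil))) 
(.lf (nat_lit 122035) (.g (nat_lit 1447) (.e (nat_lit 7122) (nat_lit 382) (.e (nat_lit 1201) (nat_lit 88) (.e (nat_lit 65617) (nat_lit 10) (.e (nat_lit 344090) (nat_lit 18) .nil)))) .nil)))) (.nd (nat_lit 4) (.nd (nat_lit 5) 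
(.lf (nat_lit 121995) (.g (nat_lit 4895) (.e (nat_lit 7122) (nat_lit 382) (.e (nat_lit 1201) (nat_lit 88) (.e (nat_lit 65570) (nat_lit 3) (.e (nat_lit 98373) (nat_lit 29) (.e (nat_lit 450588) (nat_lit 10) (.e (nat_lit 573473) (nat_lit 12) (.e (nat_lit 57352) (nat_lit 0) .nil))))))) (.g (nat_lit 6) .nil .nil))) 
(.lf (nat_lit 122027) (.g (nat_lit 3842) (.e (nat_lit 7122) (nat_lit 382) (.e (nat_lit 1201) (nat_lit 88) (.e (nat_lit 65610) (nat_lit 10) (.e (nat_lit 344177) (nat_lit 43) (.e (nat_lit 770071) (nat_lit 8) (.e (nat_lit 65617) (nat_lit 10) (.e (nat_lit 344095) (nat_lit 18) .nil))))))) (.g (nat_lit 0) .nil .nil)))) (.nd (nat_lit 5) 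
(.lf (nat_lit 122011) (.g (nat_lit 1093) (.e (nat_lit 7122) (nat_lit 382) (.e (nat_lit 1201) (nat_lit 88) (.e (nat_lit 65610) (nat_lit 10) (.e (nat_lit 344090) (nat_lit 18) .nil)))) .nil)) 
(.lf (nat_lit 122043) (.g (nat_lit 4132) (.e (nat_lit 7122) (nat_lit 382) (.e (nat_lit 1201) (nat_lit 88) (.e (nat_lit 65617) (nat_lit 10) (.e (nat_lit 344091) (nat_lit 18) (.e (nat_lit 7261) (nat_lit 384) (.e (nat_lit 57427) (nat_lit 15) (.e (nat_lit 360450) (nat_lit 0) .nil))))))) (.g (nat_lit 0) .nil .nil)))))) (.nd (nat_lit 3) (.nd (nat_lit 4) (.nd (nat_lit 5) 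
(.lf (nat_lit 121991) (.g (nat_lit 4551) (.e (nat_lit 7122) (nat_lit 382) (.e (nat_lit 1201) (nat_lit 88) (.e (nat_lit 65569) (nat_lit 3) (.e (nat_lit 98373) (nat_lit 29) (.e (nat_lit 450588) (nat_lit 10) (.e (nat_lit 573475) (nat_lit 12) (.e (nat_lit 57351) (nat_lit 0) .nil))))))) (.g (nat_lit 0) .nil .nil))) 
(.lf (nat_lit 122023) (.g (nat_lit 2573) (.e (nat_lit 7122) (nat_lit 382) (.e (nat_lit 1201) (nat_lit 88) (.e (nat_lit 65610) (nat_lit 10) (.e (nat_lit 344174) (nat_lit 42) (.e (nat_lit 761866) (nat_lit 5) (.e (nat_lit 1454) (nat_lit 108) (.e (nat_lit 336176) (nat_lit 10) (.e (nat_lit 344091) (nat_lit 18) .nil)))))))) (.g (nat_lit 4) .nil .nil)))) (.nd (nat_lit 5) 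
(.lf (nat_lit 122007) (.g (nat_lit 2851) (.e (nat_lit 7122) (nat_lit 382) (.e (nat_lit 1201) (nat_lit 88) (.e (nat_lit 65586) (nat_lit 7) (.e (nat_lit 319531) (nat_lit 16) (.e (nat_lit 286755) (nat_lit 10) (.e (nat_lit 344161) (nat_lit 37) (.e (nat_lit 647201) (nat_lit 12) (.e (nat_lit 57351) (nat_lit 0) .nil)))))))) (.g (nat_lit 4) .nil .nil))) 
(.lf (nat_lit 122039) (.g (nat_lit 3980) (.e (nat_lit 7122) (nat_lit 382) (.e (nat_lit 1201) (nat_lit 88) (.e (nat_lit 65617) (nat_lit 10) (.e (nat_lit 344091) (nat_lit 18) (.e (nat_lit 7124) (nat_lit 382) (.e (nat_lit 1201) (nat_lit 88) (.e (nat_lit 65617) (nat_lit 10) (.e (nat_lit 344095) (nat_lit 18) .nil)))))))) (.g (nat_lit 0) .nil .nil))))) (.nd (nat_lit 4) (.nd (nat_lit 5) 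
(.lf (nat_lit 121999) (.g (nat_lit 3955) (.e (nat_lit 7122) (nat_lit 382) (.e (nat_lit 1201) (nat_lit 88) (.e (nat_lit 65571) (nat_lit 3) (.e (nat_lit 98359) (nat_lit 26) (.e (nat_lit 426286) (nat_lit 10) (.e (nat_lit 434248) (nat_lit 28) (.e (nat_lit 573473) (nat_lit 12) (.e (nat_lit 57348) (nat_lit 0) .nil)))))))) (.g (nat_lit 6) .nil .nil))) 
(.lf (nat_lit 122031) (.g (nat_lit 3414) (.e (nat_lit 7122) (nat_lit 382) (.e (nat_lit 1201) (nat_lit 88) (.e (nat_lit 65610) (nat_lit 10) (.e (nat_lit 344177) (nat_lit 43) (.e (nat_lit 770072) (nat_lit 8) (.e (nat_lit 65619) (nat_lit 10) (.e (nat_lit 344090) (nat_lit 18) .nil))))))) (.g (nat_lit 5) .nil .nil)))) (.nd (nat_lit 5) 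
(.lf (nat_lit 122015) (.g (nat_lit 3269) (.e (nat_lit 7122) (nat_lit 382) (.e (nat_lit 1201) (nat_lit 88) (.e (nat_lit 65610) (nat_lit 10) (.e (nat_lit 344090) (nat_lit 18) (.e (nat_lit 7263) (nat_lit 384) (.e (nat_lit 57412) (nat_lit 12) (.e (nat_lit 336176) (nat_lit 10) (.e (nat_lit 344095) (nat_lit 18) .nil)))))))) (.g (nat_lit 7) .nil .nil))) 
(.lf (nat_lit 122047) (.g (nat_lit 3840) (.e (nat_lit 7122) (nat_lit 382) (.e (nat_lit 1201) (nat_lit 88) (.e (nat_lit 65617) (nat_lit 10) (.e (nat_lit 344095) (nat_lit 18) (.e (nat_lit 7122) (nat_lit 382) (.e (nat_lit 1201) (nat_lit 88) (.e (nat_lit 65617) (nat_lit 10) (.e (nat_lit 344095) (nat_lit 18) .nil)))))))) (.g (nat_lit 0) .nil .nil)))))))))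

noncomputable def tv1626 : DT := (.nd (nat_lit 0) (.nd (nat_lit 1) (.nd (nat_lit 2) (.nd (nat_lit 3) (.nd (nat_lit 4) (.nd (nat_lit 5) 
(.lf (nat_lit 122048) (.g (nat_lit 3952) (.e (nat_lit 7122) (nat_lit 382) (.e (nat_lit 1201) (nat_lit 88) (.e (nat_lit 65617) (nat_lit 10) (.e (nat_lit 344095) (nat_lit 18) (.e (nat_lit 7261) (nat_lit 384) (.e (nat_lit 57427) (nat_lit 15) (.e (nat_lit 360450) (nat_lit 0) .nil))))))) (.g (nat_lit 0) .nil .nil))) 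
(.lf (nat_lit 122080) (.g (nat_lit 1835) (.e (nat_lit 7122) (nat_lit 382) (.e (nat_lit 1201) (nat_lit 88) (.e (nat_lit 65625) (nat_lit 13) (.e (nat_lit 393298) (nat_lit 27) (.e (nat_lit 491560) (nat_lit 10) .nil))))) .nil))) (.nd (nat_lit 5) 
(.lf (nat_lit 122064) (.g (nat_lit 1693) (.e (nat_lit 7122) (nat_lit 382) (.e (nat_lit 1201) (nat_lit 88) (.e (nat_lit 65617) (nat_lit 10) (.e (nat_lit 344177) (nat_lit 43) (.e (nat_lit 770072) (nat_lit 8) .nil))))) .nil)) 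
(.lf (nat_lit 122096) (.g (nat_lit 973) (.e (nat_lit 7122) (nat_lit 382) (.e (nat_lit 1214) (nat_lit 89) (.e (nat_lit 73746) (nat_lit 3) (.e (nat_lit 516131) (nat_lit 3) .nil)))) .nil)))) (.nd (nat_lit 4) (.nd (nat_lit 5) 
(.lf (nat_lit 122056) (.g (nat_lit 4673) (.e (nat_lit 7122) (nat_lit 382) (.e (nat_lit 1201) (nat_lit 88) (.e (nat_lit 65617) (nat_lit 10) (.e (nat_lit 344096) (nat_lit 18) (.e (nat_lit 7265) (nat_lit 384) (.e (nat_lit 57427) (nat_lit 15) (.e (nat_lit 360450) (nat_lit 0) .nil))))))) (.g (nat_lit 0) .nil .nil))) 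
(.lf (nat_lit 122088) (.g (nat_lit 2563) (.e (nat_lit 7122) (nat_lit 382) (.e (nat_lit 1201) (nat_lit 88) (.e (nat_lit 65627) (nat_lit 13) (.e (nat_lit 393233) (nat_lit 17) (.e (nat_lit 7591) (nat_lit 407) (.e (nat_lit 73730) (nat_lit 0) .nil)))))) (.g (nat_lit 0) .nil .nil)))) (.nd (nat_lit 5) 
(.lf (nat_lit 122072) (.g (nat_lit 1361) (.e (nat_lit 7122) (nat_lit 382) (.e (nat_lit 1201) (nat_lit 88) (.e (nat_lit 65619) (nat_lit 10) (.e (nat_lit 344177) (nat_lit 43) .nil)))) .nil)) 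
(.lf (nat_lit 122104) (.g (nat_lit 2269) (.e (nat_lit 7122) (nat_lit 382) (.e (nat_lit 1214) (nat_lit 89) (.e (nat_lit 73754) (nat_lit 8) (.e (nat_lit 557105) (nat_lit 14) (.e (nat_lit 188160) (nat_lit 0) .nil))))) .nil))))) (.nd (nat_lit 3) (.nd (nat_lit 4) (.nd (nat_lit 5) 
(.lf (nat_lit 122052) (.g (nat_lit 4132) (.e (nat_lit 7122) (nat_lit 382) (.e (nat_lit 1201) (nat_lit 88) (.e (nat_lit 65617) (nat_lit 10) (.e (nat_lit 344096) (nat_lit 18) (.e (nat_lit 7124) (nat_lit 382) (.e (nat_lit 1201) (nat_lit 88) (.e (nat_lit 65617) (nat_lit 10) (.e (nat_lit 344095) (nat_lit 18) .nil)))))))) (.g (nat_lit 0) .nil .nil))) 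
(.lf (nat_lit 122084) (.g (nat_lit 1173) (.e (nat_lit 7122) (nat_lit 382) (.e (nat_lit 1201) (nat_lit 88) (.e (nat_lit 65626) (nat_lit 13) (.e (nat_lit 393233) (nat_lit 17) .nil)))) .nil))) (.nd (nat_lit 5) 
(.lf (nat_lit 122068) (.g (nat_lit 659) (.e (nat_lit 7122) (nat_lit 382) (.e (nat_lit 1201) (nat_lit 88) (.e (nat_lit 65619) (nat_lit 10) .nil))) .nil)) 
(.lf (nat_lit 122100) (.g (nat_lit 1992) (.e (nat_lit 7122) (nat_lit 382) (.e (nat_lit 1214) (nat_lit 89) (.e (nat_lit 73746) (nat_lit 3) (.e (nat_lit 516176) (nat_lit 14) (.e (nat_lit 466967) (nat_lit 20) .nil))))) .nil)))) (.nd (nat_lit 4) (.nd (nat_lit 5) 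
(.lf (nat_lit 122060) (.g (nat_lit 1932) (.e (nat_lit 7122) (nat_lit 382) (.e (nat_lit 1201) (nat_lit 88) (.e (nat_lit 65617) (nat_lit 10) (.e (nat_lit 344176) (nat_lit 43) (.e (nat_lit 770072) (nat_lit 8) .nil))))) .nil)) 
(.lf (nat_lit 122092) (.g (nat_lit 3441) (.e (nat_lit 7122) (nat_lit 382) (.e (nat_lit 1201) (nat_lit 88) (.e (nat_lit 65627) (nat_lit 13) (.e (nat_lit 393301) (nat_lit 27) (.e (nat_lit 491560) (nat_lit 10) (.e (nat_lit 344094) (nat_lit 18) .nil)))))) (.g (nat_lit 0) .nil .nil)))) (.nd (nat_lit 5) 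
(.lf (nat_lit 122076) (.g (nat_lit 3447) (.e (nat_lit 7122) (nat_lit 382) (.e (nat_lit 1201) (nat_lit 88) (.e (nat_lit 65625) (nat_lit 13) (.e (nat_lit 393233) (nat_lit 17) (.e (nat_lit 7593) (nat_lit 407) (.e (nat_lit 73729) (nat_lit 0) .nil)))))) (.g (nat_lit 0) .nil .nil))) 
(.lf (nat_lit 122108) (.g (nat_lit 2015) (.e (nat_lit 7122) (nat_lit 382) (.e (nat_lit 1222) (nat_lit 90) (.e (nat_lit 81925) (nat_lit 11) (.e (nat_lit 426343) (nat_lit 14) (.e (nat_lit 491560) (nat_lit 10) .nil))))) .nil)))))) (.nd (nat_lit 2) (.nd (nat_lit 3) (.nd (nat_lit 4) (.nd (nat_lit 5) 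
(.lf (nat_lit 122050) (.g (nat_lit 4272) (.e (nat_lit 7122) (nat_lit 382) (.e (nat_lit 1201) (nat_lit 88) (.e (nat_lit 65617) (nat_lit 10) (.e (nat_lit 344096) (nat_lit 18) (.e (nat_lit 7122) (nat_lit 382) (.e (nat_lit 1201) (nat_lit 88) (.e (nat_lit 65610) (nat_lit 10) (.e (nat_lit 344090) (nat_lit 18) .nil)))))))) (.g (nat_lit 7) .nil .nil))) 
(.lf (nat_lit 122082) (.g (nat_lit 3336) (.e (nat_lit 7122) (nat_lit 382) (.e (nat_lit 1201) (nat_lit 88) (.e (nat_lit 65625) (nat_lit 13) (.e (nat_lit 393301) (nat_lit 27) (.e (nat_lit 491560) (nat_lit 10) (.e (nat_lit 344090) (nat_lit 18) .nil)))))) (.g (nat_lit 5) .nil .nil)))) (.nd (nat_lit 5) 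
(.lf (nat_lit 122066) (.g (nat_lit 3872) (.e (nat_lit 7122) (nat_lit 382) (.e (nat_lit 1201) (nat_lit 88) (.e (nat_lit 65617) (nat_lit 10) (.e (nat_lit 344177) (nat_lit 43) (.e (nat_lit 770072) (nat_lit 8) (.e (nat_lit 65617) (nat_lit 10) (.e (nat_lit 344095) (nat_lit 18) .nil))))))) (.g (nat_lit 0) .nil .nil))) 
(.lf (nat_lit 122098) (.g (nat_lit 3491) (.e (nat_lit 7122) (nat_lit 382) (.e (nat_lit 1214) (nat_lit 89) (.e (nat_lit 73746) (nat_lit 3) (.e (nat_lit 516165) (nat_lit 12) (.e (nat_lit 450586) (nat_lit 10) (.e (nat_lit 573477) (nat_lit 12) (.e (nat_lit 57352) (nat_lit 0) .nil))))))) (.g (nat_lit 5) .nil .nil))))) (.nd (nat_lit 4) (.nd (nat_lit 5) 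
(.lf (nat_lit 122058) (.g (nat_lit 1161) (.e (nat_lit 7122) (nat_lit 382) (.e (nat_lit 1201) (nat_lit 88) (.e (nat_lit 65617) (nat_lit 10) (.e (nat_lit 344174) (nat_lit 42) .nil)))) .nil)) 
(.lf (nat_lit 122090) (.g (nat_lit 3419) (.e (nat_lit 7122) (nat_lit 382) (.e (nat_lit 1201) (nat_lit 88) (.e (nat_lit 65627) (nat_lit 13) (.e (nat_lit 393234) (nat_lit 17) (.e (nat_lit 7593) (nat_lit 407) (.e (nat_lit 73729) (nat_lit 0) .nil)))))) (.g (nat_lit 0) .nil .nil)))) (.nd (nat_lit 5) 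
(.lf (nat_lit 122074) (.g (nat_lit 2790) (.e (nat_lit 7122) (nat_lit 382) (.e (nat_lit 1201) (nat_lit 88) (.e (nat_lit 65625) (nat_lit 13) (.e (nat_lit 393233) (nat_lit 17) (.e (nat_lit 7591) (nat_lit 407) (.e (nat_lit 73730) (nat_lit 0) .nil)))))) (.g (nat_lit 0) .nil .nil))) 
(.lf (nat_lit 122106) (.g (nat_lit 651) (.e (nat_lit 7122) (nat_lit 382) (.e (nat_lit 1222) (nat_lit 90) (.e (nat_lit 81925) (nat_lit 11) .nil))) .nil))))) (.nd (nat_lit 3) (.nd (nat_lit 4) (.nd (nat_lit 5) 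
(.lf (nat_lit 122054) (.g (nat_lit 1781) (.e (nat_lit 7122) (nat_lit 382) (.e (nat_lit 1201) (nat_lit 88) (.e (nat_lit 65617) (nat_lit 10) (.e (nat_lit 344096) (nat_lit 18) (.e (nat_lit 7261) (nat_lit 384) .nil))))) .nil)) 
(.lf (nat_lit 122086) (.g (nat_lit 2674) (.e (nat_lit 7122) (nat_lit 382) (.e (nat_lit 1201) (nat_lit 88) (.e (nat_lit 65627) (nat_lit 13) (.e (nat_lit 393232) (nat_lit 17) (.e (nat_lit 7591) (nat_lit 407) (.e (nat_lit 73731) (nat_lit 0) .nil)))))) (.g (nat_lit 5) .nil .nil)))) (.nd (nat_lit 5) 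
(.lf (nat_lit 122070) (.g (nat_lit 1344) (.e (nat_lit 7122) (nat_lit 382) (.e (nat_lit 1201) (nat_lit 88) (.e (nat_lit 65619) (nat_lit 10) (.e (nat_lit 344097) (nat_lit 18) .nil)))) .nil)) 
(.lf (nat_lit 122102) (.g (nat_lit 2595) (.e (nat_lit 7122) (nat_lit 382) (.e (nat_lit 1214) (nat_lit 89) (.e (nat_lit 73754) (nat_lit 8) (.e (nat_lit 557105) (nat_lit 14) (.e (nat_lit 180224) (nat_lit 0) (.e (nat_lit 5909) (nat_lit 320) (.e (nat_lit 1211) (nat_lit 89) (.e (nat_lit 73731) (nat_lit 0) .nil)))))))) (.g (nat_lit 4) .nil .nil))))) (.nd (nat_lit 4) (.nd (nat_lit 5) 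
(.lf (nat_lit 122062) (.g (nat_lit 1758) (.e (nat_lit 7122) (nat_lit 382) (.e (nat_lit 1201) (nat_lit 88) (.e (nat_lit 65617) (nat_lit 10) (.e (nat_lit 344177) (nat_lit 43) (.e (nat_lit 770058) (nat_lit 5) .nil))))) .nil)) 
(.lf (nat_lit 122094) (.g (nat_lit 4982) (.e (nat_lit 7122) (nat_lit 382) (.e (nat_lit 1212) (nat_lit 89) (.e (nat_lit 73747) (nat_lit 3) (.e (nat_lit 516166) (nat_lit 12) (.e (nat_lit 450588) (nat_lit 10) (.e (nat_lit 573473) (nat_lit 12) (.e (nat_lit 57353) (nat_lit 0) .nil))))))) (.g (nat_lit 6) .nil .nil)))) (.nd (nat_lit 5) 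
(.lf (nat_lit 122078) (.g (nat_lit 3663) (.e (nat_lit 7122) (nat_lit 382) (.e (nat_lit 1201) (nat_lit 88) (.e (nat_lit 65625) (nat_lit 13) (.e (nat_lit 393234) (nat_lit 17) (.e (nat_lit 7593) (nat_lit 407) (.e (nat_lit 73729) (nat_lit 0) .nil)))))) (.g (nat_lit 0) .nil .nil))) 
(.lf (nat_lit 122110) (.g (nat_lit 1816) (.e (nat_lit 7122) (nat_lit 382) (.e (nat_lit 1222) (nat_lit 90) (.e (nat_lit 81927) (nat_lit 11) (.e (nat_lit 426010) (nat_lit 0) (.e (nat_lit 7591) (nat_lit 407) (.e (nat_lit 73730) (nat_lit 0) .nil)))))) (.g (nat_lit 5) .nil .nil)))))))) (.nd (nat_lit 1) (.nd (nat_lit 2) (.nd (nat_lit 3) (.nd (nat_lit 4) (.nd (nat_lit 5) 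
(.lf (nat_lit 122049) (.g (nat_lit 983) (.e (nat_lit 7122) (nat_lit 382) (.e (nat_lit 1201) (nat_lit 88) (.e (nat_lit 65617) (nat_lit 10) (.e (nat_lit 344096) (nat_lit 18) .nil)))) .nil)) 
(.lf (nat_lit 122081) (.g (nat_lit 2116) (.e (nat_lit 7122) (nat_lit 382) (.e (nat_lit 1201) (nat_lit 88) (.e (nat_lit 65625) (nat_lit 13) (.e (nat_lit 393299) (nat_lit 27) (.e (nat_lit 491560) (nat_lit 10) .nil))))) .nil))) (.nd (nat_lit 5) 
(.lf (nat_lit 122065) (.g (nat_lit 3698) (.e (nat_lit 7122) (nat_lit 382) (.e (nat_lit 1201) (nat_lit 88) (.e (nat_lit 65617) (nat_lit 10) (.e (nat_lit 344177) (nat_lit 43) (.e (nat_lit 770072) (nat_lit 8) (.e (nat_lit 65610) (nat_lit 10) (.e (nat_lit 344090) (nat_lit 18) .nil))))))) (.g (nat_lit 6) .nil .nil))) 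
(.lf (nat_lit 122097) (.g (nat_lit 1351) (.e (nat_lit 7122) (nat_lit 382) (.e (nat_lit 1214) (nat_lit 89) (.e (nat_lit 73746) (nat_lit 3) (.e (nat_lit 516131) (nat_lit 3) (.e (nat_lit 221219) (nat_lit 24) .nil))))) .nil)))) (.nd (nat_lit 4) (.nd (nat_lit 5) 
(.lf (nat_lit 122057) (.g (nat_lit 1448) (.e (nat_lit 7122) (nat_lit 382) (.e (nat_lit 1201) (nat_lit 88) (.e (nat_lit 65617) (nat_lit 10) (.e (nat_lit 344173) (nat_lit 42) .nil)))) .nil)) 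
(.lf (nat_lit 122089) (.g (nat_lit 3200) (.e (nat_lit 7122) (nat_lit 382) (.e (nat_lit 1201) (nat_lit 88) (.e (nat_lit 65627) (nat_lit 13) (.e (nat_lit 393233) (nat_lit 17) (.e (nat_lit 7593) (nat_lit 407) (.e (nat_lit 73729) (nat_lit 0) .nil)))))) (.g (nat_lit 0) .nil .nil)))) (.nd (nat_lit 5) 
(.lf (nat_lit 122073) (.g (nat_lit 2912) (.e (nat_lit 7122) (nat_lit 382) (.e (nat_lit 1201) (nat_lit 88) (.e (nat_lit 65625) (nat_lit 13) (.e (nat_lit 393232) (nat_lit 17) (.e (nat_lit 7593) (nat_lit 407) (.e (nat_lit 73730) (nat_lit 0) .nil)))))) (.g (nat_lit 5) .nil .nil))) 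
(.lf (nat_lit 122105) (.g (nat_lit 454) (.e (nat_lit 7122) (nat_lit 382) (.e (nat_lit 1222) (nat_lit 90) (.e (nat_lit 89856) (nat_lit 10) .nil))) .nil))))) (.nd (nat_lit 3) (.nd (nat_lit 4) (.nd (nat_lit 5) 
(.lf (nat_lit 122053) (.g (nat_lit 4191) (.e (nat_lit 7122) (nat_lit 382) (.e (nat_lit 1201) (nat_lit 88) (.e (nat_lit 65617) (nat_lit 10) (.e (nat_lit 344096) (nat_lit 18) (.e (nat_lit 7125) (nat_lit 382) (.e (nat_lit 1201) (nat_lit 88) (.e (nat_lit 65610) (nat_lit 10) (.e (nat_lit 344090) (nat_lit 18) .nil)))))))) (.g (nat_lit 7) .nil .nil))) 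
(.lf (nat_lit 122085) (.g (nat_lit 1588) (.e (nat_lit 7122) (nat_lit 382) (.e (nat_lit 1201) (nat_lit 88) (.e (nat_lit 65626) (nat_lit 13) (.e (nat_lit 393233) (nat_lit 17) (.e (nat_lit 7591) (nat_lit 407) .nil))))) .nil))) (.nd (nat_lit 5) 
(.lf (nat_lit 122069) (.g (nat_lit 1309) (.e (nat_lit 7122) (nat_lit 382) (.e (nat_lit 1201) (nat_lit 88) (.e (nat_lit 65619) (nat_lit 10) (.e (nat_lit 344090) (nat_lit 18) .nil)))) .nil)) 
(.lf (nat_lit 122101) (.g (nat_lit 2118) (.e (nat_lit 7122) (nat_lit 382) (.e (nat_lit 1214) (nat_lit 89) (.e (nat_lit 73753) (nat_lit 8) (.e (nat_lit 557103) (nat_lit 14) (.e (nat_lit 188160) (nat_lit 0) .nil))))) .nil)))) (.nd (nat_lit 4) (.nd (nat_lit 5) 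
(.lf (nat_lit 122061) (.g (nat_lit 1137) (.e (nat_lit 7122) (nat_lit 382) (.e (nat_lit 1201) (nat_lit 88) (.e (nat_lit 65617) (nat_lit 10) (.e (nat_lit 344177) (nat_lit 43) .nil)))) .nil)) 
(.lf (nat_lit 122093) (.g (nat_lit 5169) (.e (nat_lit 7122) (nat_lit 382) (.e (nat_lit 1212) (nat_lit 89) (.e (nat_lit 73747) (nat_lit 3) (.e (nat_lit 516166) (nat_lit 12) (.e (nat_lit 450588) (nat_lit 10) (.e (nat_lit 573473) (nat_lit 12) (.e (nat_lit 57348) (nat_lit 0) .nil))))))) (.g (nat_lit 6) .nil .nil)))) (.nd (nat_lit 5) 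
(.lf (nat_lit 122077) (.g (nat_lit 2924) (.e (nat_lit 7122) (nat_lit 382) (.e (nat_lit 1201) (nat_lit 88) (.e (nat_lit 65625) (nat_lit 13) (.e (nat_lit 393234) (nat_lit 17) (.e (nat_lit 7591) (nat_lit 407) (.e (nat_lit 73731) (nat_lit 0) .nil)))))) (.g (nat_lit 5) .nil .nil))) 
(.lf (nat_lit 122109) (.g (nat_lit 948) (.e (nat_lit 7122) (nat_lit 382) (.e (nat_lit 1222) (nat_lit 90) (.e (nat_lit 81925) (nat_lit 11) (.e (nat_lit 426344) (nat_lit 14) .nil)))) .nil)))))) (.nd (nat_lit 2) (.nd (nat_lit 3) (.nd (nat_lit 4) (.nd (nat_lit 5) 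
(.lf (nat_lit 122051) (.g (nat_lit 4582) (.e (nat_lit 7122) (nat_lit 382) (.e (nat_lit 1201) (nat_lit 88) (.e (nat_lit 65617) (nat_lit 10) (.e (nat_lit 344096) (nat_lit 18) (.e (nat_lit 7122) (nat_lit 382) (.e (nat_lit 1201) (nat_lit 88) (.e (nat_lit 65617) (nat_lit 10) (.e (nat_lit 344095) (nat_lit 18) .nil)))))))) (.g (nat_lit 8) .nil .nil))) 
(.lf (nat_lit 122083) (.g (nat_lit 3770) (.e (nat_lit 7122) (nat_lit 382) (.e (nat_lit 1201) (nat_lit 88) (.e (nat_lit 65625) (nat_lit 13) (.e (nat_lit 393301) (nat_lit 27) (.e (nat_lit 491560) (nat_lit 10) (.e (nat_lit 344094) (nat_lit 18) .nil)))))) (.g (nat_lit 0) .nil .nil)))) (.nd (nat_lit 5) 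
(.lf (nat_lit 122067) (.g (nat_lit 3267) (.e (nat_lit 7122) (nat_lit 382) (.e (nat_lit 1201) (nat_lit 88) (.e (nat_lit 65617) (nat_lit 10) (.e (nat_lit 344177) (nat_lit 43) (.e (nat_lit 770072) (nat_lit 8) (.e (nat_lit 65619) (nat_lit 10) (.e (nat_lit 344090) (nat_lit 18) .nil))))))) (.g (nat_lit 5) .nil .nil))) 
(.lf (nat_lit 122099) (.g (nat_lit 2030) (.e (nat_lit 7122) (nat_lit 382) (.e (nat_lit 1214) (nat_lit 89) (.e (nat_lit 73746) (nat_lit 3) (.e (nat_lit 516174) (nat_lit 14) (.e (nat_lit 466967) (nat_lit 20) .nil))))) .nil)))) (.nd (nat_lit 4) (.nd (nat_lit 5) 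
(.lf (nat_lit 122059) (.g (nat_lit 1975) (.e (nat_lit 7122) (nat_lit 382) (.e (nat_lit 1201) (nat_lit 88) (.e (nat_lit 65617) (nat_lit 10) (.e (nat_lit 344176) (nat_lit 43) (.e (nat_lit 770071) (nat_lit 8) .nil))))) .nil)) 
(.lf (nat_lit 122091) (.g (nat_lit 3011) (.e (nat_lit 7122) (nat_lit 382) (.e (nat_lit 1201) (nat_lit 88) (.e (nat_lit 65627) (nat_lit 13) (.e (nat_lit 393301) (nat_lit 27) (.e (nat_lit 491560) (nat_lit 10) (.e (nat_lit 344090) (nat_lit 18) .nil)))))) (.g (nat_lit 5) .nil .nil)))) (.nd (nat_lit 5) 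
(.lf (nat_lit 122075) (.g (nat_lit 2630) (.e (nat_lit 7122) (nat_lit 382) (.e (nat_lit 1201) (nat_lit 88) (.e (nat_lit 65625) (nat_lit 13) (.e (nat_lit 393233) (nat_lit 17) (.e (nat_lit 7591) (nat_lit 407) (.e (nat_lit 73731) (nat_lit 0) .nil)))))) (.g (nat_lit 5) .nil .nil))) 
(.lf (nat_lit 122107) (.g (nat_lit 1010) (.e (nat_lit 7122) (nat_lit 382) (.e (nat_lit 1222) (nat_lit 90) (.e (nat_lit 81925) (nat_lit 11) (.e (nat_lit 426342) (nat_lit 14) .nil)))) .nil))))) (.nd (nat_lit 3) (.nd (nat_lit 4) (.nd (nat_lit 5) 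
(.lf (nat_lit 122055) (.g (nat_lit 4280) (.e (nat_lit 7122) (nat_lit 382) (.e (nat_lit 1201) (nat_lit 88) (.e (nat_lit 65617) (nat_lit 10) (.e (nat_lit 344096) (nat_lit 18) (.e (nat_lit 7261) (nat_lit 384) (.e (nat_lit 57427) (nat_lit 15) (.e (nat_lit 360450) (nat_lit 0) .nil))))))) (.g (nat_lit 0) .nil .nil))) 
(.lf (nat_lit 122087) (.g (nat_lit 2843) (.e (nat_lit 7122) (nat_lit 382) (.e (nat_lit 1201) (nat_lit 88) (.e (nat_lit 65627) (nat_lit 13) (.e (nat_lit 393232) (nat_lit 17) (.e (nat_lit 7593) (nat_lit 407) (.e (nat_lit 73730) (nat_lit 0) .nil)))))) (.g (nat_lit 5) .nil .nil)))) (.nd (nat_lit 5) 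
(.lf (nat_lit 122071) (.g (nat_lit 1831) (.e (nat_lit 7122) (nat_lit 382) (.e (nat_lit 1201) (nat_lit 88) (.e (nat_lit 65619) (nat_lit 10) (.e (nat_lit 344097) (nat_lit 18) (.e (nat_lit 7273) (nat_lit 385) .nil))))) .nil)) 
(.lf (nat_lit 122103) (.g (nat_lit 2042) (.e (nat_lit 7122) (nat_lit 382) (.e (nat_lit 1214) (nat_lit 89) (.e (nat_lit 73754) (nat_lit 8) (.e (nat_lit 557105) (nat_lit 14) (.e (nat_lit 180227) (nat_lit 0) .nil))))) .nil)))) (.nd (nat_lit 4) (.nd (nat_lit 5) 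
(.lf (nat_lit 122063) (.g (nat_lit 3731) (.e (nat_lit 7122) (nat_lit 382) (.e (nat_lit 1201) (nat_lit 88) (.e (nat_lit 65617) (nat_lit 10) (.e (nat_lit 344177) (nat_lit 43) (.e (nat_lit 770071) (nat_lit 8) (.e (nat_lit 65617) (nat_lit 10) (.e (nat_lit 344095) (nat_lit 18) .nil))))))) (.g (nat_lit 0) .nil .nil))) 
(.lf (nat_lit 122095) (.g (nat_lit 449) (.e (nat_lit 7122) (nat_lit 382) (.e (nat_lit 1214) (nat_lit 89) (.e (nat_lit 73746) (nat_lit 3) .nil))) .nil))) (.nd (nat_lit 5) 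
(.lf (nat_lit 122079) (.g (nat_lit 2789) (.e (nat_lit 7122) (nat_lit 382) (.e (nat_lit 1201) (nat_lit 88) (.e (nat_lit 65625) (nat_lit 13) (.e (nat_lit 393234) (nat_lit 17) (.e (nat_lit 7593) (nat_lit 407) (.e (nat_lit 73731) (nat_lit 0) .nil)))))) (.g (nat_lit 5) .nil .nil))) 
(.lf (nat_lit 122111) (.g (nat_lit 2906) (.e (nat_lit 7122) (nat_lit 382) (.e (nat_lit 1222) (nat_lit 90) (.e (nat_lit 81927) (nat_lit 11) (.e (nat_lit 426011) (nat_lit 0) (.e (nat_lit 7593) (nat_lit 407) (.e (nat_lit 73730) (nat_lit 0) .nil)))))) (.g (nat_lit 5) .nil .nil)))))))))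

noncomputable def tv1627 : DT := (.nd (nat_lit 0) (.nd (nat_lit 1) (.nd (nat_lit 2) (.nd (nat_lit 3) (.nd (nat_lit 4) (.nd (nat_lit 5) 
(.lf (nat_lit 122112) (.g (nat_lit 1858) (.e (nat_lit 7122) (nat_lit 382) (.e (nat_lit 1222) (nat_lit 90) (.e (nat_lit 81938) (nat_lit 20) (.e (nat_lit 2281) (nat_lit 150) (.e (nat_lit 770058) (nat_lit 5) .nil))))) .nil)) 
(.lf (nat_lit 122144) (.g (nat_lit 853) (.e (nat_lit 7122) (nat_lit 382) (.e (nat_lit 1296) (nat_lit 96) (.e (nat_lit 131107) (nat_lit 9) (.e (nat_lit 336421) (nat_lit 28) .nil)))) .nil))) (.nd (nat_lit 5) 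
(.lf (nat_lit 122128) (.g (nat_lit 402) (.e (nat_lit 7122) (nat_lit 382) (.e (nat_lit 1222) (nat_lit 90) (.e (nat_lit 81963) (nat_lit 26) .nil))) .nil)) 
(.lf (nat_lit 122160) (.g (nat_lit 5109) (.e (nat_lit 7124) (nat_lit 382) (.e (nat_lit 1201) (nat_lit 88) (.e (nat_lit 65570) (nat_lit 3) (.e (nat_lit 98373) (nat_lit 29) (.e (nat_lit 450588) (nat_lit 10) (.e (nat_lit 573475) (nat_lit 12) (.e (nat_lit 57348) (nat_lit 0) .nil))))))) (.g (nat_lit 6) .nil .nil))))) (.nd (nat_lit 4) (.nd (nat_lit 5) 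
(.lf (nat_lit 122120) (.g (nat_lit 2177) (.e (nat_lit 7122) (nat_lit 382) (.e (nat_lit 1222) (nat_lit 90) (.e (nat_lit 81947) (nat_lit 20) (.e (nat_lit 2270) (nat_lit 149) (.e (nat_lit 761868) (nat_lit 5) .nil))))) .nil)) 
(.lf (nat_lit 122152) (.g (nat_lit 3645) (.e (nat_lit 7124) (nat_lit 382) (.e (nat_lit 1201) (nat_lit 88) (.e (nat_lit 65569) (nat_lit 3) (.e (nat_lit 98359) (nat_lit 26) (.e (nat_lit 426286) (nat_lit 10) (.e (nat_lit 434247) (nat_lit 28) (.e (nat_lit 573478) (nat_lit 12) (.e (nat_lit 57353) (nat_lit 0) .nil)))))))) (.g (nat_lit 7) .nil .nil)))) (.nd (nat_lit 5) 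
(.lf (nat_lit 122136) (.g (nat_lit 3038) (.e (nat_lit 7122) (nat_lit 382) (.e (nat_lit 1222) (nat_lit 90) (.e (nat_lit 81965) (nat_lit 26) (.e (nat_lit 147496) (nat_lit 11) (.e (nat_lit 24639) (nat_lit 10) (.e (nat_lit 344096) (nat_lit 18) .nil)))))) (.g (nat_lit 4) .nil .nil))) 
(.lf (nat_lit 122168) (.g (nat_lit 3791) (.e (nat_lit 7124) (nat_lit 382) (.e (nat_lit 1201) (nat_lit 88) (.e (nat_lit 65571) (nat_lit 3) (.e (nat_lit 98373) (nat_lit 29) (.e (nat_lit 450587) (nat_lit 10) (.e (nat_lit 573478) (nat_lit 12) (.e (nat_lit 57353) (nat_lit 0) .nil))))))) (.g (nat_lit 6) .nil .nil)))))) (.nd (nat_lit 3) (.nd (nat_lit 4) (.nd (nat_lit 5) 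
(.lf (nat_lit 122116) (.g (nat_lit 1056) (.e (nat_lit 7122) (nat_lit 382) (.e (nat_lit 1222) (nat_lit 90) (.e (nat_lit 81943) (nat_lit 20) (.e (nat_lit 2278) (nat_lit 150) .nil)))) .nil)) 
(.lf (nat_lit 122148) (.g (nat_lit 3804) (.e (nat_lit 7124) (nat_lit 382) (.e (nat_lit 1201) (nat_lit 88) (.e (nat_lit 65566) (nat_lit 2) (.e (nat_lit 90170) (nat_lit 13) (.e (nat_lit 172113) (nat_lit 10) (.e (nat_lit 434247) (nat_lit 28) (.e (nat_lit 573478) (nat_lit 12) (.e (nat_lit 57353) (nat_lit 0) .nil)))))))) (.g (nat_lit 7) .nil .nil)))) (.nd (nat_lit 5) 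
(.lf (nat_lit 122132) (.g (nat_lit 2315) (.e (nat_lit 7122) (nat_lit 382) (.e (nat_lit 1222) (nat_lit 90) (.e (nat_lit 81963) (nat_lit 26) (.e (nat_lit 147496) (nat_lit 11) (.e (nat_lit 24641) (nat_lit 10) (.e (nat_lit 344095) (nat_lit 18) .nil)))))) (.g (nat_lit 4) .nil .nil))) 
(.lf (nat_lit 122164) (.g (nat_lit 4099) (.e (nat_lit 7124) (nat_lit 382) (.e (nat_lit 1201) (nat_lit 88) (.e (nat_lit 65571) (nat_lit 3) (.e (nat_lit 98372) (nat_lit 29) (.e (nat_lit 450586) (nat_lit 10) (.e (nat_lit 573475) (nat_lit 12) (.e (nat_lit 57351) (nat_lit 0) .nil))))))) (.g (nat_lit 7) .nil .nil))))) (.nd (nat_lit 4) (.nd (nat_lit 5) 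
(.lf (nat_lit 122124) (.g (nat_lit 1050) (.e (nat_lit 7122) (nat_lit 382) (.e (nat_lit 1222) (nat_lit 90) (.e (nat_lit 81948) (nat_lit 21) (.e (nat_lit 57683) (nat_lit 155) (.e (nat_lit 122906) (nat_lit 12) .nil))))) .nil)) 
(.lf (nat_lit 122156) (.g (nat_lit 3110) (.e (nat_lit 7124) (nat_lit 382) (.e (nat_lit 1201) (nat_lit 88) (.e (nat_lit 65570) (nat_lit 3) (.e (nat_lit 98373) (nat_lit 29) (.e (nat_lit 450587) (nat_lit 10) (.e (nat_lit 573477) (nat_lit 12) (.e (nat_lit 57353) (nat_lit 0) .nil))))))) (.g (nat_lit 5) .nil .nil)))) (.nd (nat_lit 5) 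
(.lf (nat_lit 122140) (.g (nat_lit 326) (.e (nat_lit 7122) (nat_lit 382) (.e (nat_lit 1224) (nat_lit 90) (.e (nat_lit 81925) (nat_lit 11) .nil))) .nil)) 
(.lf (nat_lit 122172) (.g (nat_lit 2684) (.e (nat_lit 7124) (nat_lit 382) (.e (nat_lit 1201) (nat_lit 88) (.e (nat_lit 65583) (nat_lit 7) (.e (nat_lit 319530) (nat_lit 16) (.e (nat_lit 286756) (nat_lit 10) (.e (nat_lit 344160) (nat_lit 37) (.e (nat_lit 647201) (nat_lit 12) (.e (nat_lit 57351) (nat_lit 0) .nil)))))))) (.g (nat_lit 6) .nil .nil))))))) 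
(.nd (nat_lit 2) (.nd (nat_lit 3) (.nd (nat_lit 4) (.nd (nat_lit 5) 
(.lf (nat_lit 122114) (.g (nat_lit 644) (.e (nat_lit 7122) (nat_lit 382) (.e (nat_lit 1222) (nat_lit 90) (.e (nat_lit 81942) (nat_lit 20) .nil))) .nil)) 
(.lf (nat_lit 122146) (.g (nat_lit 1446) (.e (nat_lit 7122) (nat_lit 382) (.e (nat_lit 1296) (nat_lit 96) (.e (nat_lit 131127) (nat_lit 13) (.e (nat_lit 393238) (nat_lit 17) (.e (nat_lit 7936) (nat_lit 407) .nil))))) .nil))) (.nd (nat_lit 5) 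
(.lf (nat_lit 122130) (.g (nat_lit 1405) (.e (nat_lit 7122) (nat_lit 382) (.e (nat_lit 1222) (nat_lit 90) (.e (nat_lit 81963) (nat_lit 26) (.e (nat_lit 147466) (nat_lit 9) (.e (nat_lit 322) (nat_lit 24) .nil))))) .nil)) 
(.lf (nat_lit 122162) (.g (nat_lit 3825) (.e (nat_lit 7124) (nat_lit 382) (.e (nat_lit 1201) (nat_lit 88) (.e (nat_lit 65571) (nat_lit 3) (.e (nat_lit 98359) (nat_lit 26) (.e (nat_lit 426286) (nat_lit 10) (.e (nat_lit 434247) (nat_lit 28) (.e (nat_lit 573478) (nat_lit 12) (.e (nat_lit 57353) (nat_lit 0) .nil)))))))) (.g (nat_lit 7) .nil .nil))))) (.nd (nat_lit 4) (.nd (nat_lit 5) 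
(.lf (nat_lit 122122) (.g (nat_lit 315) (.e (nat_lit 7122) (nat_lit 382) (.e (nat_lit 1222) (nat_lit 90) (.e (nat_lit 81948) (nat_lit 21) .nil))) .nil)) 
(.lf (nat_lit 122154) (.g (nat_lit 3467) (.e (nat_lit 7124) (nat_lit 382) (.e (nat_lit 1201) (nat_lit 88) (.e (nat_lit 65569) (nat_lit 3) (.e (nat_lit 98373) (nat_lit 29) (.e (nat_lit 450587) (nat_lit 10) (.e (nat_lit 573478) (nat_lit 12) (.e (nat_lit 57353) (nat_lit 0) .nil))))))) (.g (nat_lit 6) .nil .nil)))) (.nd (nat_lit 5) 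
(.lf (nat_lit 122138) (.g (nat_lit 2208) (.e (nat_lit 7122) (nat_lit 382) (.e (nat_lit 1222) (nat_lit 90) (.e (nat_lit 81965) (nat_lit 26) (.e (nat_lit 147496) (nat_lit 11) (.e (nat_lit 24641) (nat_lit 10) .nil))))) .nil)) 
(.lf (nat_lit 122170) (.g (nat_lit 1532) (.e (nat_lit 7124) (nat_lit 382) (.e (nat_lit 1201) (nat_lit 88) (.e (nat_lit 65583) (nat_lit 7) (.e (nat_lit 319530) (nat_lit 16) (.e (nat_lit 286751) (nat_lit 10) (.e (nat_lit 344161) (nat_lit 37) (.e (nat_lit 647201) (nat_lit 12) (.e (nat_lit 57351) (nat_lit 0) .nil)))))))) (.g (nat_lit 4) .nil .nil)))))) 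
(.nd (nat_lit 3) (.nd (nat_lit 4) (.nd (nat_lit 5) 
(.lf (nat_lit 122118) (.g (nat_lit 1465) (.e (nat_lit 7122) (nat_lit 382) (.e (nat_lit 1222) (nat_lit 90) (.e (nat_lit 81943) (nat_lit 20) (.e (nat_lit 2281) (nat_lit 150) (.e (nat_lit 770071) (nat_lit 8) .nil))))) .nil)) 
(.lf (nat_lit 122150) (.g (nat_lit 4112) (.e (nat_lit 7124) (nat_lit 382) (.e (nat_lit 1201) (nat_lit 88) (.e (nat_lit 65568) (nat_lit 2) (.e (nat_lit 90170) (nat_lit 13) (.e (nat_lit 172113) (nat_lit 10) (.e (nat_lit 434247) (nat_lit 28) (.e (nat_lit 573478) (nat_lit 12) (.e (nat_lit 57353) (nat_lit 0) .nil)))))))) (.g (nat_lit 7) .nil .nil)))) (.nd (nat_lit 5) 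
(.lf (nat_lit 122134) (.g (nat_lit 2962) (.e (nat_lit 7122) (nat_lit 382) (.e (nat_lit 1222) (nat_lit 90) (.e (nat_lit 81965) (nat_lit 26) (.e (nat_lit 147495) (nat_lit 11) (.e (nat_lit 24639) (nat_lit 10) (.e (nat_lit 344096) (nat_lit 18) .nil)))))) (.g (nat_lit 4) .nil .nil))) 
(.lf (nat_lit 122166) (.g (nat_lit 3540) (.e (nat_lit 7124) (nat_lit 382) (.e (nat_lit 1201) (nat_lit 88) (.e (nat_lit 65571) (nat_lit 3) (.e (nat_lit 98372) (nat_lit 29) (.e (nat_lit 450586) (nat_lit 10) (.e (nat_lit 573478) (nat_lit 12) (.e (nat_lit 57351) (nat_lit 0) .nil))))))) (.g (nat_lit 7) .nil .nil))))) (.nd (nat_lit 4) (.nd (nat_lit 5) 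
(.lf (nat_lit 122126) (.g (nat_lit 644) (.e (nat_lit 7122) (nat_lit 382) (.e (nat_lit 1222) (nat_lit 90) (.e (nat_lit 81949) (nat_lit 21) .nil))) .nil)) 
(.lf (nat_lit 122158) (.g (nat_lit 5248) (.e (nat_lit 7124) (nat_lit 382) (.e (nat_lit 1201) (nat_lit 88) (.e (nat_lit 65570) (nat_lit 3) (.e (nat_lit 98373) (nat_lit 29) (.e (nat_lit 450588) (nat_lit 10) (.e (nat_lit 573473) (nat_lit 12) (.e (nat_lit 57348) (nat_lit 0) .nil))))))) (.g (nat_lit 7) .nil .nil)))) (.nd (nat_lit 5) 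
(.lf (nat_lit 122142) (.g (nat_lit 1532) (.e (nat_lit 7122) (nat_lit 382) (.e (nat_lit 1224) (nat_lit 90) (.e (nat_lit 81946) (nat_lit 20) (.e (nat_lit 2270) (nat_lit 149) (.e (nat_lit 761868) (nat_lit 5) .nil))))) .nil)) 
(.lf (nat_lit 122174) (.g (nat_lit 1813) (.e (nat_lit 7124) (nat_lit 382) (.e (nat_lit 1201) (nat_lit 88) (.e (nat_lit 65586) (nat_lit 7) (.e (nat_lit 319533) (nat_lit 16) (.e (nat_lit 286753) (nat_lit 10) .nil))))) .nil))))))) (.nd (nat_lit 1) (.nd (nat_lit 2) (.nd (nat_lit 3) (.nd (nat_lit 4) (.nd (nat_lit 5) 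
(.lf (nat_lit 122113) (.g (nat_lit 644) (.e (nat_lit 7122) (nat_lit 382) (.e (nat_lit 1222) (nat_lit 90) (.e (nat_lit 81939) (nat_lit 20) .nil))) .nil)) 
(.lf (nat_lit 122145) (.g (nat_lit 484) (.e (nat_lit 7122) (nat_lit 382) (.e (nat_lit 1296) (nat_lit 96) (.e (nat_lit 131109) (nat_lit 9) .nil))) .nil))) (.nd (nat_lit 5) 
(.lf (nat_lit 122129) (.g (nat_lit 776) (.e (nat_lit 7122) (nat_lit 382) (.e (nat_lit 1222) (nat_lit 90) (.e (nat_lit 81963) (nat_lit 26) (.e (nat_lit 147463) (nat_lit 9) .nil)))) .nil)) 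
(.lf (nat_lit 122161) (.g (nat_lit 5043) (.e (nat_lit 7124) (nat_lit 382) (.e (nat_lit 1201) (nat_lit 88) (.e (nat_lit 65570) (nat_lit 3) (.e (nat_lit 98373) (nat_lit 29) (.e (nat_lit 450588) (nat_lit 10) (.e (nat_lit 573475) (nat_lit 12) (.e (nat_lit 57351) (nat_lit 0) .nil))))))) (.g (nat_lit 7) .nil .nil))))) (.nd (nat_lit 4) (.nd (nat_lit 5) 
(.lf (nat_lit 122121) (.g (nat_lit 1242) (.e (nat_lit 7122) (nat_lit 382) (.e (nat_lit 1222) (nat_lit 90) (.e (nat_lit 81947) (nat_lit 20) (.e (nat_lit 2281) (nat_lit 150) .nil)))) .nil)) 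
(.lf (nat_lit 122153) (.g (nat_lit 2925) (.e (nat_lit 7124) (nat_lit 382) (.e (nat_lit 1201) (nat_lit 88) (.e (nat_lit 65569) (nat_lit 3) (.e (nat_lit 98372) (nat_lit 29) (.e (nat_lit 450586) (nat_lit 10) (.e (nat_lit 573478) (nat_lit 12) (.e (nat_lit 57353) (nat_lit 0) .nil))))))) (.g (nat_lit 6) .nil .nil)))) (.nd (nat_lit 5) 
(.lf (nat_lit 122137) (.g (nat_lit 2041) (.e (nat_lit 7122) (nat_lit 382) (.e (nat_lit 1222) (nat_lit 90) (.e (nat_lit 81965) (nat_lit 26) (.e (nat_lit 147496) (nat_lit 11) (.e (nat_lit 24640) (nat_lit 10) .nil))))) .nil)) 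
(.lf (nat_lit 122169) (.g (nat_lit 3613) (.e (nat_lit 7124) (nat_lit 382) (.e (nat_lit 1201) (nat_lit 88) (.e (nat_lit 65581) (nat_lit 7) (.e (nat_lit 319534) (nat_lit 16) (.e (nat_lit 286756) (nat_lit 10) (.e (nat_lit 344160) (nat_lit 37) (.e (nat_lit 647201) (nat_lit 12) (.e (nat_lit 57351) (nat_lit 0) .nil)))))))) (.g (nat_lit 6) .nil .nil)))))) 
(.nd (nat_lit 3) (.nd (nat_lit 4) (.nd (nat_lit 5) 
(.lf (nat_lit 122117) (.g (nat_lit 1284) (.e (nat_lit 7122) (nat_lit 382) (.e (nat_lit 1222) (nat_lit 90) (.e (nat_lit 81943) (nat_lit 20) (.e (nat_lit 2279) (nat_lit 150) (.e (nat_lit 770057) (nat_lit 5) .nil))))) .nil)) 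
(.lf (nat_lit 122149) (.g (nat_lit 4022) (.e (nat_lit 7124) (nat_lit 382) (.e (nat_lit 1201) (nat_lit 88) (.e (nat_lit 65566) (nat_lit 2) (.e (nat_lit 90170) (nat_lit 13) (.e (nat_lit 172113) (nat_lit 10) (.e (nat_lit 434248) (nat_lit 28) (.e (nat_lit 573475) (nat_lit 12) (.e (nat_lit 57353) (nat_lit 0) .nil)))))))) (.g (nat_lit 7) .nil .nil)))) (.nd (nat_lit 5) 
(.lf (nat_lit 122133) (.g (nat_lit 586) (.e (nat_lit 7122) (nat_lit 382) (.e (nat_lit 1222) (nat_lit 90) (.e (nat_lit 81965) (nat_lit 26) .nil))) .nil)) 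
(.lf (nat_lit 122165) (.g (nat_lit 3742) (.e (nat_lit 7124) (nat_lit 382) (.e (nat_lit 1201) (nat_lit 88) (.e (nat_lit 65571) (nat_lit 3) (.e (nat_lit 98372) (nat_lit 29) (.e (nat_lit 450586) (nat_lit 10) (.e (nat_lit 573477) (nat_lit 12) (.e (nat_lit 57353) (nat_lit 0) .nil))))))) (.g (nat_lit 7) .nil .nil))))) (.nd (nat_lit 4) (.nd (nat_lit 5) 
(.lf (nat_lit 122125) (.g (nat_lit 1176) (.e (nat_lit 7122) (nat_lit 382) (.e (nat_lit 1222) (nat_lit 90) (.e (nat_lit 81948) (nat_lit 21) (.e (nat_lit 57683) (nat_lit 155) (.e (nat_lit 122919) (nat_lit 15) .nil))))) .nil)) 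
(.lf (nat_lit 122157) (.g (nat_lit 2981) (.e (nat_lit 7124) (nat_lit 382) (.e (nat_lit 1201) (nat_lit 88) (.e (nat_lit 65570) (nat_lit 3) (.e (nat_lit 98373) (nat_lit 29) (.e (nat_lit 450587) (nat_lit 10) (.e (nat_lit 573478) (nat_lit 12) (.e (nat_lit 57351) (nat_lit 0) .nil))))))) (.g (nat_lit 5) .nil .nil)))) (.nd (nat_lit 5) 
(.lf (nat_lit 122141) (.g (nat_lit 701) (.e (nat_lit 7122) (nat_lit 382) (.e (nat_lit 1224) (nat_lit 90) (.e (nat_lit 81925) (nat_lit 11) (.e (nat_lit 426011) (nat_lit 0) .nil)))) .nil)) 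
(.lf (nat_lit 122173) (.g (nat_lit 2726) (.e (nat_lit 7124) (nat_lit 382) (.e (nat_lit 1201) (nat_lit 88) (.e (nat_lit 65586) (nat_lit 7) (.e (nat_lit 319531) (nat_lit 16) (.e (nat_lit 286755) (nat_lit 10) (.e (nat_lit 344161) (nat_lit 37) (.e (nat_lit 647201) (nat_lit 12) (.e (nat_lit 57351) (nat_lit 0) .nil)))))))) (.g (nat_lit 4) .nil .nil))))))) 
(.nd (nat_lit 2) (.nd (nat_lit 3) (.nd (nat_lit 4) (.nd (nat_lit 5) 
(.lf (nat_lit 122115) (.g (nat_lit 384) (.e (nat_lit 7122) (nat_lit 382) (.e (nat_lit 1222) (nat_lit 90) (.e (nat_lit 81943) (nat_lit 20) .nil))) .nil)) 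
(.lf (nat_lit 122147) (.g (nat_lit 1271) (.e (nat_lit 7124) (nat_lit 382) (.e (nat_lit 1193) (nat_lit 88) (.e (nat_lit 65625) (nat_lit 13) (.e (nat_lit 393300) (nat_lit 27) (.e (nat_lit 491560) (nat_lit 10) .nil))))) .nil))) (.nd (nat_lit 5) 
(.lf (nat_lit 122131) (.g (nat_lit 1489) (.e (nat_lit 7122) (nat_lit 382) (.e (nat_lit 1222) (nat_lit 90) (.e (nat_lit 81963) (nat_lit 26) (.e (nat_lit 147495) (nat_lit 11) (.e (nat_lit 24641) (nat_lit 10) .nil))))) .nil)) 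
(.lf (nat_lit 122163) (.g (nat_lit 2060) (.e (nat_lit 7124) (nat_lit 382) (.e (nat_lit 1201) (nat_lit 88) (.e (nat_lit 65571) (nat_lit 3) (.e (nat_lit 98372) (nat_lit 29) (.e (nat_lit 450586) (nat_lit 10) .nil))))) .nil)))) (.nd (nat_lit 4) (.nd (nat_lit 5) 
(.lf (nat_lit 122123) (.g (nat_lit 842) (.e (nat_lit 7122) (nat_lit 382) (.e (nat_lit 1222) (nat_lit 90) (.e (nat_lit 81948) (nat_lit 21) (.e (nat_lit 57655) (nat_lit 152) .nil)))) .nil)) 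
(.lf (nat_lit 122155) (.g (nat_lit 1989) (.e (nat_lit 7124) (nat_lit 382) (.e (nat_lit 1201) (nat_lit 88) (.e (nat_lit 65570) (nat_lit 3) (.e (nat_lit 98372) (nat_lit 29) (.e (nat_lit 450586) (nat_lit 10) .nil))))) .nil))) (.nd (nat_lit 5) 
(.lf (nat_lit 122139) (.g (nat_lit 349) (.e (nat_lit 7122) (nat_lit 382) (.e (nat_lit 1224) (nat_lit 90) (.e (nat_lit 89856) (nat_lit 10) .nil))) .nil)) 
(.lf (nat_lit 122171) (.g (nat_lit 1981) (.e (nat_lit 7124) (nat_lit 382) (.e (nat_lit 1201) (nat_lit 88) (.e (nat_lit 65583) (nat_lit 7) (.e (nat_lit 319530) (nat_lit 16) (.e (nat_lit 286755) (nat_lit 10) (.e (nat_lit 344161) (nat_lit 37) (.e (nat_lit 647201) (nat_lit 12) (.e (nat_lit 57351) (nat_lit 0) .nil)))))))) (.g (nat_lit 4) .nil .nil)))))) 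
(.nd (nat_lit 3) (.nd (nat_lit 4) (.nd (nat_lit 5) 
(.lf (nat_lit 122119) (.g (nat_lit 644) (.e (nat_lit 7122) (nat_lit 382) (.e (nat_lit 1222) (nat_lit 90) (.e (nat_lit 81947) (nat_lit 20) .nil))) .nil)) 
(.lf (nat_lit 122151) (.g (nat_lit 4333) (.e (nat_lit 7124) (nat_lit 382) (.e (nat_lit 1201) (nat_lit 88) (.e (nat_lit 65568) (nat_lit 2) (.e (nat_lit 90170) (nat_lit 13) (.e (nat_lit 172113) (nat_lit 10) (.e (nat_lit 434248) (nat_lit 28) (.e (nat_lit 573475) (nat_lit 12) (.e (nat_lit 57353) (nat_lit 0) .nil)))))))) (.g (nat_lit 7) .nil .nil)))) (.nd (nat_lit 5) 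
(.lf (nat_lit 122135) (.g (nat_lit 2126) (.e (nat_lit 7122) (nat_lit 382) (.e (nat_lit 1222) (nat_lit 90) (.e (nat_lit 81965) (nat_lit 26) (.e (nat_lit 147496) (nat_lit 11) (.e (nat_lit 24639) (nat_lit 10) .nil))))) .nil)) 
(.lf (nat_lit 122167) (.g (nat_lit 3474) (.e (nat_lit 7124) (nat_lit 382) (.e (nat_lit 1201) (nat_lit 88) (.e (nat_lit 65571) (nat_lit 3) (.e (nat_lit 98372) (nat_lit 29) (.e (nat_lit 450586) (nat_lit 10) (.e (nat_lit 573478) (nat_lit 12) (.e (nat_lit 57353) (nat_lit 0) .nil))))))) (.g (nat_lit 6) .nil .nil))))) (.nd (nat_lit 4) (.nd (nat_lit 5) 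
(.lf (nat_lit 122127) (.g (nat_lit 3023) (.e (nat_lit 7122) (nat_lit 382) (.e (nat_lit 1222) (nat_lit 90) (.e (nat_lit 81950) (nat_lit 21) (.e (nat_lit 57681) (nat_lit 155) (.e (nat_lit 122917) (nat_lit 15) .nil))))) .nil)) 
(.lf (nat_lit 122159) (.g (nat_lit 5798) (.e (nat_lit 7124) (nat_lit 382) (.e (nat_lit 1201) (nat_lit 88) (.e (nat_lit 65570) (nat_lit 3) (.e (nat_lit 98373) (nat_lit 29) (.e (nat_lit 450588) (nat_lit 10) (.e (nat_lit 573475) (nat_lit 12) (.e (nat_lit 57347) (nat_lit 0) .nil))))))) (.g (nat_lit 7) .nil .nil)))) (.nd (nat_lit 5) 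
(.lf (nat_lit 122143) (.g (nat_lit 557) (.e (nat_lit 7122) (nat_lit 382) (.e (nat_lit 1296) (nat_lit 96) (.e (nat_lit 131105) (nat_lit 9) .nil))) .nil)) 
(.lf (nat_lit 122175) (.g (nat_lit 3696) (.e (nat_lit 7124) (nat_lit 382) (.e (nat_lit 1201) (nat_lit 88) (.e (nat_lit 65586) (nat_lit 7) (.e (nat_lit 319533) (nat_lit 16) (.e (nat_lit 286753) (nat_lit 10) (.e (nat_lit 344160) (nat_lit 37) (.e (nat_lit 647201) (nat_lit 12) (.e (nat_lit 57351) (nat_lit 0) .nil)))))))) (.g (nat_lit 7) .nil .nil)))))))))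

noncomputable def tv1628 : DT := (.nd (nat_lit 0) (.nd (nat_lit 1) (.nd (nat_lit 2) (.nd (nat_lit 3) (.nd (nat_lit 4) (.nd (nat_lit 5) 
(.lf (nat_lit 122176) (.g (nat_lit 2771) (.e (nat_lit 7124) (nat_lit 382) (.e (nat_lit 1201) (nat_lit 88) (.e (nat_lit 65586) (nat_lit 7) (.e (nat_lit 319534) (nat_lit 16) (.e (nat_lit 286753) (nat_lit 10) .nil))))) .nil)) 
(.lf (nat_lit 122208) (.g (nat_lit 1440) (.e (nat_lit 7124) (nat_lit 382) (.e (nat_lit 1201) (nat_lit 88) (.e (nat_lit 65617) (nat_lit 10) (.e (nat_lit 344090) (nat_lit 18) .nil)))) .nil))) (.nd (nat_lit 5) 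
(.lf (nat_lit 122192) (.g (nat_lit 4191) (.e (nat_lit 7124) (nat_lit 382) (.e (nat_lit 1201) (nat_lit 88) (.e (nat_lit 65610) (nat_lit 10) (.e (nat_lit 344097) (nat_lit 18) (.e (nat_lit 7270) (nat_lit 385) (.e (nat_lit 122919) (nat_lit 15) (.e (nat_lit 368384) (nat_lit 0) .nil))))))) (.g (nat_lit 6) .nil .nil))) 
(.lf (nat_lit 122224) (.g (nat_lit 2098) (.e (nat_lit 7124) (nat_lit 382) (.e (nat_lit 1201) (nat_lit 88) (.e (nat_lit 65617) (nat_lit 10) (.e (nat_lit 344096) (nat_lit 18) (.e (nat_lit 7125) (nat_lit 382) (.e (nat_lit 1201) (nat_lit 88) (.e (nat_lit 65617) (nat_lit 10) (.e (nat_lit 344095) (nat_lit 18) .nil)))))))) (.g (nat_lit 4) .nil .nil))))) (.nd (nat_lit 4) (.nd (nat_lit 5) 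
(.lf (nat_lit 122184) (.g (nat_lit 1035) (.e (nat_lit 7124) (nat_lit 382) (.e (nat_lit 1201) (nat_lit 88) (.e (nat_lit 65610) (nat_lit 10) (.e (nat_lit 344090) (nat_lit 18) .nil)))) .nil)) 
(.lf (nat_lit 122216) (.g (nat_lit 3829) (.e (nat_lit 7124) (nat_lit 382) (.e (nat_lit 1201) (nat_lit 88) (.e (nat_lit 65617) (nat_lit 10) (.e (nat_lit 344091) (nat_lit 18) (.e (nat_lit 7266) (nat_lit 384) (.e (nat_lit 57427) (nat_lit 15) (.e (nat_lit 360450) (nat_lit 0) .nil))))))) (.g (nat_lit 7) .nil .nil)))) (.nd (nat_lit 5) 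
(.lf (nat_lit 122200) (.g (nat_lit 1943) (.e (nat_lit 7124) (nat_lit 382) (.e (nat_lit 1201) (nat_lit 88) (.e (nat_lit 65610) (nat_lit 10) (.e (nat_lit 344174) (nat_lit 42) (.e (nat_lit 761869) (nat_lit 5) .nil))))) .nil)) 
(.lf (nat_lit 122232) (.g (nat_lit 1441) (.e (nat_lit 7124) (nat_lit 382) (.e (nat_lit 1201) (nat_lit 88) (.e (nat_lit 65617) (nat_lit 10) (.e (nat_lit 344173) (nat_lit 42) .nil)))) .nil))))) (.nd (nat_lit 3) (.nd (nat_lit 4) (.nd (nat_lit 5) 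
(.lf (nat_lit 122180) (.g (nat_lit 1196) (.e (nat_lit 7124) (nat_lit 382) (.e (nat_lit 1201) (nat_lit 88) (.e (nat_lit 65599) (nat_lit 9) (.e (nat_lit 343808) (nat_lit 28) .nil)))) .nil)) 
(.lf (nat_lit 122212) (.g (nat_lit 1650) (.e (nat_lit 7124) (nat_lit 382) (.e (nat_lit 1201) (nat_lit 88) (.e (nat_lit 65617) (nat_lit 10) (.e (nat_lit 344091) (nat_lit 18) (.e (nat_lit 7124) (nat_lit 382) .nil))))) .nil))) (.nd (nat_lit 5) 
(.lf (nat_lit 122196) (.g (nat_lit 1530) (.e (nat_lit 7124) (nat_lit 382) (.e (nat_lit 1201) (nat_lit 88) (.e (nat_lit 65610) (nat_lit 10) (.e (nat_lit 344173) (nat_lit 42) .nil)))) .nil)) 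
(.lf (nat_lit 122228) (.g (nat_lit 2532) (.e (nat_lit 7124) (nat_lit 382) (.e (nat_lit 1201) (nat_lit 88) (.e (nat_lit 65617) (nat_lit 10) (.e (nat_lit 344096) (nat_lit 18) (.e (nat_lit 7265) (nat_lit 384) (.e (nat_lit 57427) (nat_lit 15) (.e (nat_lit 368384) (nat_lit 0) .nil))))))) (.g (nat_lit 5) .nil .nil))))) (.nd (nat_lit 4) (.nd (nat_lit 5) 
(.lf (nat_lit 122188) (.g (nat_lit 1868) (.e (nat_lit 7124) (nat_lit 382) (.e (nat_lit 1201) (nat_lit 88) (.e (nat_lit 65610) (nat_lit 10) (.e (nat_lit 344097) (nat_lit 18) (.e (nat_lit 7144) (nat_lit 382) .nil))))) .nil)) 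
(.lf (nat_lit 122220) (.g (nat_lit 4721) (.e (nat_lit 7124) (nat_lit 382) (.e (nat_lit 1201) (nat_lit 88) (.e (nat_lit 65617) (nat_lit 10) (.e (nat_lit 344096) (nat_lit 18) (.e (nat_lit 7122) (nat_lit 382) (.e (nat_lit 1201) (nat_lit 88) (.e (nat_lit 65617) (nat_lit 10) (.e (nat_lit 344091) (nat_lit 18) .nil)))))))) (.g (nat_lit 8) .nil .nil)))) (.nd (nat_lit 5) 
(.lf (nat_lit 122204) (.g (nat_lit 1718) (.e (nat_lit 7124) (nat_lit 382) (.e (nat_lit 1201) (nat_lit 88) (.e (nat_lit 65610) (nat_lit 10) (.e (nat_lit 344177) (nat_lit 43) (.e (nat_lit 770072) (nat_lit 8) .nil))))) .nil)) 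
(.lf (nat_lit 122236) (.g (nat_lit 1221) (.e (nat_lit 7124) (nat_lit 382) (.e (nat_lit 1201) (nat_lit 88) (.e (nat_lit 65617) (nat_lit 10) (.e (nat_lit 344175) (nat_lit 43) .nil)))) .nil)))))) (.nd (nat_lit 2) (.nd (nat_lit 3) (.nd (nat_lit 4) (.nd (nat_lit 5) 
(.lf (nat_lit 122178) (.g (nat_lit 1228) (.e (nat_lit 7124) (nat_lit 382) (.e (nat_lit 1201) (nat_lit 88) (.e (nat_lit 65599) (nat_lit 9) (.e (nat_lit 336417) (nat_lit 27) .nil)))) .nil)) 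
(.lf (nat_lit 122210) (.g (nat_lit 993) (.e (nat_lit 7124) (nat_lit 382) (.e (nat_lit 1201) (nat_lit 88) (.e (nat_lit 65617) (nat_lit 10) (.e (nat_lit 344091) (nat_lit 18) .nil)))) .nil))) (.nd (nat_lit 5) 
(.lf (nat_lit 122194) (.g (nat_lit 2939) (.e (nat_lit 7124) (nat_lit 382) (.e (nat_lit 1201) (nat_lit 88) (.e (nat_lit 65610) (nat_lit 10) (.e (nat_lit 344097) (nat_lit 18) (.e (nat_lit 7272) (nat_lit 385) (.e (nat_lit 122917) (nat_lit 15) (.e (nat_lit 368384) (nat_lit 0) .nil))))))) (.g (nat_lit 6) .nil .nil))) 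
(.lf (nat_lit 122226) (.g (nat_lit 1699) (.e (nat_lit 7124) (nat_lit 382) (.e (nat_lit 1201) (nat_lit 88) (.e (nat_lit 65617) (nat_lit 10) (.e (nat_lit 344096) (nat_lit 18) (.e (nat_lit 7263) (nat_lit 384) .nil))))) .nil)))) (.nd (nat_lit 4) (.nd (nat_lit 5) 
(.lf (nat_lit 122186) (.g (nat_lit 2235) (.e (nat_lit 7124) (nat_lit 382) (.e (nat_lit 1201) (nat_lit 88) (.e (nat_lit 65610) (nat_lit 10) (.e (nat_lit 344090) (nat_lit 18) (.e (nat_lit 7265) (nat_lit 384) (.e (nat_lit 57427) (nat_lit 15) (.e (nat_lit 368384) (nat_lit 0) .nil))))))) (.g (nat_lit 5) .nil .nil))) 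
(.lf (nat_lit 122218) (.g (nat_lit 938) (.e (nat_lit 7124) (nat_lit 382) (.e (nat_lit 1201) (nat_lit 88) (.e (nat_lit 65617) (nat_lit 10) (.e (nat_lit 344096) (nat_lit 18) .nil)))) .nil))) (.nd (nat_lit 5) 
(.lf (nat_lit 122202) (.g (nat_lit 2130) (.e (nat_lit 7124) (nat_lit 382) (.e (nat_lit 1201) (nat_lit 88) (.e (nat_lit 65610) (nat_lit 10) (.e (nat_lit 344176) (nat_lit 43) (.e (nat_lit 770071) (nat_lit 8) .nil))))) .nil)) 
(.lf (nat_lit 122234) (.g (nat_lit 1613) (.e (nat_lit 7124) (nat_lit 382) (.e (nat_lit 1201) (nat_lit 88) (.e (nat_lit 65617) (nat_lit 10) (.e (nat_lit 344174) (nat_lit 42) (.e (nat_lit 761868) (nat_lit 5) .nil))))) .nil))))) (.nd (nat_lit 3) (.nd (nat_lit 4) (.nd (nat_lit 5) 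
(.lf (nat_lit 122182) (.g (nat_lit 1570) (.e (nat_lit 7124) (nat_lit 382) (.e (nat_lit 1201) (nat_lit 88) (.e (nat_lit 65610) (nat_lit 10) (.e (nat_lit 344088) (nat_lit 18) .nil)))) .nil)) 
(.lf (nat_lit 122214) (.g (nat_lit 3956) (.e (nat_lit 7124) (nat_lit 382) (.e (nat_lit 1201) (nat_lit 88) (.e (nat_lit 65617) (nat_lit 10) (.e (nat_lit 344091) (nat_lit 18) (.e (nat_lit 7265) (nat_lit 384) (.e (nat_lit 57427) (nat_lit 15) (.e (nat_lit 360451) (nat_lit 0) .nil))))))) (.g (nat_lit 0) .nil .nil)))) (.nd (nat_lit 5) 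
(.lf (nat_lit 122198) (.g (nat_lit 2009) (.e (nat_lit 7124) (nat_lit 382) (.e (nat_lit 1201) (nat_lit 88) (.e (nat_lit 65610) (nat_lit 10) (.e (nat_lit 344174) (nat_lit 42) (.e (nat_lit 761868) (nat_lit 5) .nil))))) .nil)) 
(.lf (nat_lit 122230) (.g (nat_lit 1517) (.e (nat_lit 7124) (nat_lit 382) (.e (nat_lit 1201) (nat_lit 88) (.e (nat_lit 65617) (nat_lit 10) (.e (nat_lit 344099) (nat_lit 18) (.e (nat_lit 7270) (nat_lit 385) .nil))))) .nil)))) (.nd (nat_lit 4) (.nd (nat_lit 5) 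
(.lf (nat_lit 122190) (.g (nat_lit 1923) (.e (nat_lit 7124) (nat_lit 382) (.e (nat_lit 1201) (nat_lit 88) (.e (nat_lit 65610) (nat_lit 10) (.e (nat_lit 344097) (nat_lit 18) (.e (nat_lit 7151) (nat_lit 382) .nil))))) .nil)) 
(.lf (nat_lit 122222) (.g (nat_lit 1772) (.e (nat_lit 7124) (nat_lit 382) (.e (nat_lit 1201) (nat_lit 88) (.e (nat_lit 65617) (nat_lit 10) (.e (nat_lit 344096) (nat_lit 18) (.e (nat_lit 7124) (nat_lit 382) (.e (nat_lit 1201) (nat_lit 88) (.e (nat_lit 65617) (nat_lit 10) (.e (nat_lit 344095) (nat_lit 18) .nil)))))))) (.g (nat_lit 4) .nil .nil)))) (.nd (nat_lit 5) 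
(.lf (nat_lit 122206) (.g (nat_lit 1715) (.e (nat_lit 7124) (nat_lit 382) (.e (nat_lit 1201) (nat_lit 88) (.e (nat_lit 65611) (nat_lit 10) (.e (nat_lit 344177) (nat_lit 43) (.e (nat_lit 770057) (nat_lit 5) .nil))))) .nil)) 
(.lf (nat_lit 122238) (.g (nat_lit 1083) (.e (nat_lit 7124) (nat_lit 382) (.e (nat_lit 1201) (nat_lit 88) (.e (nat_lit 65617) (nat_lit 10) (.e (nat_lit 344177) (nat_lit 43) .nil)))) .nil))))))) (.nd (nat_lit 1) (.nd (nat_lit 2) (.nd (nat_lit 3) (.nd (nat_lit 4) (.nd (nat_lit 5) 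
(.lf (nat_lit 122177) (.g (nat_lit 658) (.e (nat_lit 7124) (nat_lit 382) (.e (nat_lit 1201) (nat_lit 88) (.e (nat_lit 65599) (nat_lit 9) .nil))) .nil)) 
(.lf (nat_lit 122209) (.g (nat_lit 1850) (.e (nat_lit 7124) (nat_lit 382) (.e (nat_lit 1201) (nat_lit 88) (.e (nat_lit 65617) (nat_lit 10) (.e (nat_lit 344090) (nat_lit 18) (.e (nat_lit 7125) (nat_lit 382) .nil))))) .nil))) (.nd (nat_lit 5) 
(.lf (nat_lit 122193) (.g (nat_lit 1709) (.e (nat_lit 7124) (nat_lit 382) (.e (nat_lit 1201) (nat_lit 88) (.e (nat_lit 65610) (nat_lit 10) (.e (nat_lit 344097) (nat_lit 18) (.e (nat_lit 7272) (nat_lit 385) .nil))))) .nil)) 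
(.lf (nat_lit 122225) (.g (nat_lit 1738) (.e (nat_lit 7124) (nat_lit 382) (.e (nat_lit 1201) (nat_lit 88) (.e (nat_lit 65617) (nat_lit 10) (.e (nat_lit 344096) (nat_lit 18) (.e (nat_lit 7261) (nat_lit 384) .nil))))) .nil)))) (.nd (nat_lit 4) (.nd (nat_lit 5) 
(.lf (nat_lit 122185) (.g (nat_lit 1572) (.e (nat_lit 7124) (nat_lit 382) (.e (nat_lit 1201) (nat_lit 88) (.e (nat_lit 65610) (nat_lit 10) (.e (nat_lit 344090) (nat_lit 18) (.e (nat_lit 7124) (nat_lit 382) .nil))))) .nil)) 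
(.lf (nat_lit 122217) (.g (nat_lit 1087) (.e (nat_lit 7124) (nat_lit 382) (.e (nat_lit 1201) (nat_lit 88) (.e (nat_lit 65617) (nat_lit 10) (.e (nat_lit 344095) (nat_lit 18) .nil)))) .nil))) (.nd (nat_lit 5) 
(.lf (nat_lit 122201) (.g (nat_lit 1549) (.e (nat_lit 7124) (nat_lit 382) (.e (nat_lit 1201) (nat_lit 88) (.e (nat_lit 65610) (nat_lit 10) (.e (nat_lit 344175) (nat_lit 43) .nil)))) .nil)) 
(.lf (nat_lit 122233) (.g (nat_lit 1129) (.e (nat_lit 7124) (nat_lit 382) (.e (nat_lit 1201) (nat_lit 88) (.e (nat_lit 65617) (nat_lit 10) (.e (nat_lit 344174) (nat_lit 42) .nil)))) .nil))))) (.nd (nat_lit 3) (.nd (nat_lit 4) (.nd (nat_lit 5) 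
(.lf (nat_lit 122181) (.g (nat_lit 1196) (.e (nat_lit 7124) (nat_lit 382) (.e (nat_lit 1201) (nat_lit 88) (.e (nat_lit 65599) (nat_lit 9) (.e (nat_lit 343808) (nat_lit 31) .nil)))) .nil)) 
(.lf (nat_lit 122213) (.g (nat_lit 3578) (.e (nat_lit 7124) (nat_lit 382) (.e (nat_lit 1201) (nat_lit 88) (.e (nat_lit 65617) (nat_lit 10) (.e (nat_lit 344091) (nat_lit 18) (.e (nat_lit 7261) (nat_lit 384) (.e (nat_lit 57427) (nat_lit 15) (.e (nat_lit 360451) (nat_lit 0) .nil))))))) (.g (nat_lit 0) .nil .nil)))) (.nd (nat_lit 5) 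
(.lf (nat_lit 122197) (.g (nat_lit 1350) (.e (nat_lit 7124) (nat_lit 382) (.e (nat_lit 1201) (nat_lit 88) (.e (nat_lit 65610) (nat_lit 10) (.e (nat_lit 344174) (nat_lit 42) .nil)))) .nil)) 
(.lf (nat_lit 122229) (.g (nat_lit 3994) (.e (nat_lit 7124) (nat_lit 382) (.e (nat_lit 1201) (nat_lit 88) (.e (nat_lit 65617) (nat_lit 10) (.e (nat_lit 344096) (nat_lit 18) (.e (nat_lit 7266) (nat_lit 384) (.e (nat_lit 57427) (nat_lit 15) (.e (nat_lit 360450) (nat_lit 0) .nil))))))) (.g (nat_lit 7) .nil .nil))))) (.nd (nat_lit 4) (.nd (nat_lit 5) 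
(.lf (nat_lit 122189) (.g (nat_lit 2244) (.e (nat_lit 7124) (nat_lit 382) (.e (nat_lit 1201) (nat_lit 88) (.e (nat_lit 65610) (nat_lit 10) (.e (nat_lit 344097) (nat_lit 18) (.e (nat_lit 7146) (nat_lit 382) (.e (nat_lit 1095) (nat_lit 81) (.e (nat_lit 1587) (nat_lit 111) (.e (nat_lit 360451) (nat_lit 0) .nil)))))))) (.g (nat_lit 4) .nil .nil))) 
(.lf (nat_lit 122221) (.g (nat_lit 1701) (.e (nat_lit 7124) (nat_lit 382) (.e (nat_lit 1201) (nat_lit 88) (.e (nat_lit 65617) (nat_lit 10) (.e (nat_lit 344096) (nat_lit 18) (.e (nat_lit 7124) (nat_lit 382) .nil))))) .nil))) (.nd (nat_lit 5) 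
(.lf (nat_lit 122205) (.g (nat_lit 649) (.e (nat_lit 7124) (nat_lit 382) (.e (nat_lit 1201) (nat_lit 88) (.e (nat_lit 65611) (nat_lit 10) .nil))) .nil)) 
(.lf (nat_lit 122237) (.g (nat_lit 1968) (.e (nat_lit 7124) (nat_lit 382) (.e (nat_lit 1201) (nat_lit 88) (.e (nat_lit 65617) (nat_lit 10) (.e (nat_lit 344176) (nat_lit 43) (.e (nat_lit 770071) (nat_lit 8) .nil))))) .nil)))))) (.nd (nat_lit 2) (.nd (nat_lit 3) (.nd (nat_lit 4) (.nd (nat_lit 5) 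
(.lf (nat_lit 122179) (.g (nat_lit 1446) (.e (nat_lit 7124) (nat_lit 382) (.e (nat_lit 1201) (nat_lit 88) (.e (nat_lit 65599) (nat_lit 9) (.e (nat_lit 336417) (nat_lit 27) (.e (nat_lit 426035) (nat_lit 0) .nil))))) .nil)) 
(.lf (nat_lit 122211) (.g (nat_lit 1716) (.e (nat_lit 7124) (nat_lit 382) (.e (nat_lit 1201) (nat_lit 88) (.e (nat_lit 65617) (nat_lit 10) (.e (nat_lit 344091) (nat_lit 18) (.e (nat_lit 7122) (nat_lit 382) .nil))))) .nil))) (.nd (nat_lit 5) 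
(.lf (nat_lit 122195) (.g (nat_lit 2676) (.e (nat_lit 7124) (nat_lit 382) (.e (nat_lit 1201) (nat_lit 88) (.e (nat_lit 65610) (nat_lit 10) (.e (nat_lit 344097) (nat_lit 18) (.e (nat_lit 7272) (nat_lit 385) (.e (nat_lit 122919) (nat_lit 15) (.e (nat_lit 368384) (nat_lit 0) .nil))))))) (.g (nat_lit 5) .nil .nil))) 
(.lf (nat_lit 122227) (.g (nat_lit 1736) (.e (nat_lit 7124) (nat_lit 382) (.e (nat_lit 1201) (nat_lit 88) (.e (nat_lit 65617) (nat_lit 10) (.e (nat_lit 344096) (nat_lit 18) (.e (nat_lit 7265) (nat_lit 384) .nil))))) .nil)))) (.nd (nat_lit 4) (.nd (nat_lit 5) 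
(.lf (nat_lit 122187) (.g (nat_lit 3868) (.e (nat_lit 7124) (nat_lit 382) (.e (nat_lit 1201) (nat_lit 88) (.e (nat_lit 65610) (nat_lit 10) (.e (nat_lit 344090) (nat_lit 18) (.e (nat_lit 7266) (nat_lit 384) (.e (nat_lit 57427) (nat_lit 15) (.e (nat_lit 360450) (nat_lit 0) .nil))))))) (.g (nat_lit 7) .nil .nil))) 
(.lf (nat_lit 122219) (.g (nat_lit 4634) (.e (nat_lit 7124) (nat_lit 382) (.e (nat_lit 1201) (nat_lit 88) (.e (nat_lit 65617) (nat_lit 10) (.e (nat_lit 344096) (nat_lit 18) (.e (nat_lit 7122) (nat_lit 382) (.e (nat_lit 1201) (nat_lit 88) (.e (nat_lit 65610) (nat_lit 10) (.e (nat_lit 344090) (nat_lit 18) .nil)))))))) (.g (nat_lit 8) .nil .nil)))) (.nd (nat_lit 5) 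
(.lf (nat_lit 122203) (.g (nat_lit 1023) (.e (nat_lit 7124) (nat_lit 382) (.e (nat_lit 1201) (nat_lit 88) (.e (nat_lit 65610) (nat_lit 10) (.e (nat_lit 344177) (nat_lit 43) .nil)))) .nil)) 
(.lf (nat_lit 122235) (.g (nat_lit 1624) (.e (nat_lit 7124) (nat_lit 382) (.e (nat_lit 1201) (nat_lit 88) (.e (nat_lit 65617) (nat_lit 10) (.e (nat_lit 344174) (nat_lit 42) (.e (nat_lit 761869) (nat_lit 5) .nil))))) .nil))))) (.nd (nat_lit 3) (.nd (nat_lit 4) (.nd (nat_lit 5) 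
(.lf (nat_lit 122183) (.g (nat_lit 1589) (.e (nat_lit 7124) (nat_lit 382) (.e (nat_lit 1201) (nat_lit 88) (.e (nat_lit 65610) (nat_lit 10) (.e (nat_lit 344089) (nat_lit 18) .nil)))) .nil)) 
(.lf (nat_lit 122215) (.g (nat_lit 2377) (.e (nat_lit 7124) (nat_lit 382) (.e (nat_lit 1201) (nat_lit 88) (.e (nat_lit 65617) (nat_lit 10) (.e (nat_lit 344091) (nat_lit 18) (.e (nat_lit 7265) (nat_lit 384) (.e (nat_lit 57427) (nat_lit 15) (.e (nat_lit 368384) (nat_lit 0) .nil))))))) (.g (nat_lit 5) .nil .nil)))) (.nd (nat_lit 5) 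
(.lf (nat_lit 122199) (.g (nat_lit 2397) (.e (nat_lit 7124) (nat_lit 382) (.e (nat_lit 1201) (nat_lit 88) (.e (nat_lit 65610) (nat_lit 10) (.e (nat_lit 344174) (nat_lit 42) (.e (nat_lit 761868) (nat_lit 5) (.e (nat_lit 1585) (nat_lit 111) (.e (nat_lit 360449) (nat_lit 0) .nil))))))) (.g (nat_lit 4) .nil .nil))) 
(.lf (nat_lit 122231) (.g (nat_lit 1443) (.e (nat_lit 7124) (nat_lit 382) (.e (nat_lit 1201) (nat_lit 88) (.e (nat_lit 65617) (nat_lit 10) (.e (nat_lit 344101) (nat_lit 18) .nil)))) .nil)))) (.nd (nat_lit 4) (.nd (nat_lit 5) 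
(.lf (nat_lit 122191) (.g (nat_lit 3811) (.e (nat_lit 7124) (nat_lit 382) (.e (nat_lit 1201) (nat_lit 88) (.e (nat_lit 65610) (nat_lit 10) (.e (nat_lit 344097) (nat_lit 18) (.e (nat_lit 7270) (nat_lit 385) (.e (nat_lit 122917) (nat_lit 15) (.e (nat_lit 368384) (nat_lit 0) .nil))))))) (.g (nat_lit 6) .nil .nil))) 
(.lf (nat_lit 122223) (.g (nat_lit 1984) (.e (nat_lit 7124) (nat_lit 382) (.e (nat_lit 1201) (nat_lit 88) (.e (nat_lit 65617) (nat_lit 10) (.e (nat_lit 344096) (nat_lit 18) (.e (nat_lit 7125) (nat_lit 382) (.e (nat_lit 1201) (nat_lit 88) (.e (nat_lit 65617) (nat_lit 10) (.e (nat_lit 344087) (nat_lit 18) .nil)))))))) (.g (nat_lit 4) .nil .nil)))) (.nd (nat_lit 5) 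
(.lf (nat_lit 122207) (.g (nat_lit 1308) (.e (nat_lit 7124) (nat_lit 382) (.e (nat_lit 1201) (nat_lit 88) (.e (nat_lit 65617) (nat_lit 10) (.e (nat_lit 344087) (nat_lit 18) .nil)))) .nil)) 
(.lf (nat_lit 122239) (.g (nat_lit 1587) (.e (nat_lit 7124) (nat_lit 382) (.e (nat_lit 1201) (nat_lit 88) (.e (nat_lit 65617) (nat_lit 10) (.e (nat_lit 344177) (nat_lit 43) (.e (nat_lit 770055) (nat_lit 5) .nil))))) .nil))))))))

noncomputable def tv1629 : DT := (.nd (nat_lit 0) (.nd (nat_lit 1) (.nd (nat_lit 2) (.nd (nat_lit 3) (.nd (nat_lit 4) (.nd (nat_lit 5) 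
(.lf (nat_lit 122240) (.g (nat_lit 2863) (.e (nat_lit 7124) (nat_lit 382) (.e (nat_lit 1201) (nat_lit 88) (.e (nat_lit 65617) (nat_lit 10) (.e (nat_lit 344177) (nat_lit 43) (.e (nat_lit 770055) (nat_lit 5) (.e (nat_lit 1598) (nat_lit 111) (.e (nat_lit 360449) (nat_lit 0) .nil))))))) (.g (nat_lit 0) .nil .nil))) 
(.lf (nat_lit 122272) (.g (nat_lit 702) (.e (nat_lit 7124) (nat_lit 382) (.e (nat_lit 1222) (nat_lit 90) (.e (nat_lit 81925) (nat_lit 11) .nil))) .nil))) (.nd (nat_lit 5) 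
(.lf (nat_lit 122256) (.g (nat_lit 1792) (.e (nat_lit 7124) (nat_lit 382) (.e (nat_lit 1201) (nat_lit 88) (.e (nat_lit 65625) (nat_lit 13) (.e (nat_lit 393301) (nat_lit 27) (.e (nat_lit 491558) (nat_lit 10) .nil))))) .nil)) 
(.lf (nat_lit 122288) (.g (nat_lit 3865) (.e (nat_lit 7124) (nat_lit 382) (.e (nat_lit 1296) (nat_lit 96) (.e (nat_lit 131098) (nat_lit 3) (.e (nat_lit 98373) (nat_lit 29) (.e (nat_lit 450587) (nat_lit 10) (.e (nat_lit 573478) (nat_lit 12) (.e (nat_lit 57351) (nat_lit 0) .nil))))))) (.g (nat_lit 6) .nil .nil))))) (.nd (nat_lit 4) (.nd (nat_lit 5) 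
(.lf (nat_lit 122248) (.g (nat_lit 1170) (.e (nat_lit 7124) (nat_lit 382) (.e (nat_lit 1201) (nat_lit 88) (.e (nat_lit 65625) (nat_lit 13) (.e (nat_lit 393231) (nat_lit 17) .nil)))) .nil)) 
(.lf (nat_lit 122280) (.g (nat_lit 424) (.e (nat_lit 7124) (nat_lit 382) (.e (nat_lit 1224) (nat_lit 90) (.e (nat_lit 81963) (nat_lit 26) .nil))) .nil))) (.nd (nat_lit 5) 
(.lf (nat_lit 122264) (.g (nat_lit 926) (.e (nat_lit 7124) (nat_lit 382) (.e (nat_lit 1201) (nat_lit 88) (.e (nat_lit 65627) (nat_lit 13) (.e (nat_lit 393301) (nat_lit 27) .nil)))) .nil)) 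
(.lf (nat_lit 122296) (.g (nat_lit 692) (.e (nat_lit 7125) (nat_lit 382) (.e (nat_lit 1193) (nat_lit 88) (.e (nat_lit 65626) (nat_lit 13) (.e (nat_lit 393242) (nat_lit 17) .nil)))) .nil))))) (.nd (nat_lit 3) (.nd (nat_lit 4) (.nd (nat_lit 5) 
(.lf (nat_lit 122244) (.g (nat_lit 1424) (.e (nat_lit 7124) (nat_lit 382) (.e (nat_lit 1201) (nat_lit 88) (.e (nat_lit 65619) (nat_lit 10) (.e (nat_lit 344177) (nat_lit 43) .nil)))) .nil)) 
(.lf (nat_lit 122276) (.g (nat_lit 1958) (.e (nat_lit 7124) (nat_lit 382) (.e (nat_lit 1222) (nat_lit 90) (.e (nat_lit 81950) (nat_lit 21) (.e (nat_lit 57680) (nat_lit 155) (.e (nat_lit 122919) (nat_lit 15) .nil))))) .nil))) (.nd (nat_lit 5) 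
(.lf (nat_lit 122260) (.g (nat_lit 2638) (.e (nat_lit 7124) (nat_lit 382) (.e (nat_lit 1201) (nat_lit 88) (.e (nat_lit 65627) (nat_lit 13) (.e (nat_lit 393232) (nat_lit 17) (.e (nat_lit 7593) (nat_lit 407) (.e (nat_lit 73731) (nat_lit 0) .nil)))))) (.g (nat_lit 5) .nil .nil))) 
(.lf (nat_lit 122292) (.g (nat_lit 397) (.e (nat_lit 7124) (nat_lit 382) (.e (nat_lit 1296) (nat_lit 96) (.e (nat_lit 131109) (nat_lit 9) .nil))) .nil)))) (.nd (nat_lit 4) (.nd (nat_lit 5) 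
(.lf (nat_lit 122252) (.g (nat_lit 2404) (.e (nat_lit 7124) (nat_lit 382) (.e (nat_lit 1201) (nat_lit 88) (.e (nat_lit 65625) (nat_lit 13) (.e (nat_lit 393233) (nat_lit 17) (.e (nat_lit 7593) (nat_lit 407) (.e (nat_lit 73731) (nat_lit 0) .nil)))))) (.g (nat_lit 5) .nil .nil))) 
(.lf (nat_lit 122284) (.g (nat_lit 4529) (.e (nat_lit 7124) (nat_lit 382) (.e (nat_lit 1296) (nat_lit 96) (.e (nat_lit 131093) (nat_lit 2) (.e (nat_lit 90170) (nat_lit 13) (.e (nat_lit 172113) (nat_lit 10) (.e (nat_lit 434248) (nat_lit 28) (.e (nat_lit 573473) (nat_lit 12) (.e (nat_lit 57353) (nat_lit 0) .nil)))))))) (.g (nat_lit 7) .nil .nil)))) (.nd (nat_lit 5) 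
(.lf (nat_lit 122268) (.g (nat_lit 449) (.e (nat_lit 7124) (nat_lit 382) (.e (nat_lit 1214) (nat_lit 89) (.e (nat_lit 73746) (nat_lit 3) .nil))) .nil)) 
(.lf (nat_lit 122300) (.g (nat_lit 4843) (.e (nat_lit 7125) (nat_lit 382) (.e (nat_lit 1201) (nat_lit 88) (.e (nat_lit 65568) (nat_lit 2) (.e (nat_lit 90170) (nat_lit 13) (.e (nat_lit 172106) (nat_lit 10) (.e (nat_lit 434244) (nat_lit 28) (.e (nat_lit 573474) (nat_lit 12) (.e (nat_lit 57353) (nat_lit 0) .nil)))))))) (.g (nat_lit 7) .nil .nil))))))) 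
(.nd (nat_lit 2) (.nd (nat_lit 3) (.nd (nat_lit 4) (.nd (nat_lit 5) 
(.lf (nat_lit 122242) (.g (nat_lit 1373) (.e (nat_lit 7124) (nat_lit 382) (.e (nat_lit 1201) (nat_lit 88) (.e (nat_lit 65619) (nat_lit 10) (.e (nat_lit 344090) (nat_lit 18) .nil)))) .nil)) 
(.lf (nat_lit 122274) (.g (nat_lit 1160) (.e (nat_lit 7124) (nat_lit 382) (.e (nat_lit 1222) (nat_lit 90) (.e (nat_lit 81943) (nat_lit 20) (.e (nat_lit 2270) (nat_lit 149) (.e (nat_lit 761868) (nat_lit 5) .nil))))) .nil))) (.nd (nat_lit 5) 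
(.lf (nat_lit 122258) (.g (nat_lit 652) (.e (nat_lit 7124) (nat_lit 382) (.e (nat_lit 1201) (nat_lit 88) (.e (nat_lit 65626) (nat_lit 13) .nil))) .nil)) 
(.lf (nat_lit 122290) (.g (nat_lit 614) (.e (nat_lit 7124) (nat_lit 382) (.e (nat_lit 1296) (nat_lit 96) (.e (nat_lit 131107) (nat_lit 9) .nil))) .nil)))) (.nd (nat_lit 4) (.nd (nat_lit 5) 
(.lf (nat_lit 122250) (.g (nat_lit 1146) (.e (nat_lit 7124) (nat_lit 382) (.e (nat_lit 1201) (nat_lit 88) (.e (nat_lit 65625) (nat_lit 13) (.e (nat_lit 393233) (nat_lit 17) .nil)))) .nil)) 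
(.lf (nat_lit 122282) (.g (nat_lit 4734) (.e (nat_lit 7124) (nat_lit 382) (.e (nat_lit 1296) (nat_lit 96) (.e (nat_lit 131093) (nat_lit 2) (.e (nat_lit 90170) (nat_lit 13) (.e (nat_lit 172113) (nat_lit 10) (.e (nat_lit 434245) (nat_lit 28) (.e (nat_lit 573474) (nat_lit 12) (.e (nat_lit 57351) (nat_lit 0) .nil)))))))) (.g (nat_lit 7) .nil .nil)))) (.nd (nat_lit 5) 
(.lf (nat_lit 122266) (.g (nat_lit 5033) (.e (nat_lit 7124) (nat_lit 382) (.e (nat_lit 1212) (nat_lit 89) (.e (nat_lit 73747) (nat_lit 3) (.e (nat_lit 516166) (nat_lit 12) (.e (nat_lit 450588) (nat_lit 10) (.e (nat_lit 573473) (nat_lit 12) (.e (nat_lit 57348) (nat_lit 0) .nil))))))) (.g (nat_lit 6) .nil .nil))) 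
(.lf (nat_lit 122298) (.g (nat_lit 4492) (.e (nat_lit 7125) (nat_lit 382) (.e (nat_lit 1201) (nat_lit 88) (.e (nat_lit 65566) (nat_lit 2) (.e (nat_lit 90170) (nat_lit 13) (.e (nat_lit 172113) (nat_lit 10) (.e (nat_lit 434248) (nat_lit 28) (.e (nat_lit 573473) (nat_lit 12) (.e (nat_lit 57353) (nat_lit 0) .nil)))))))) (.g (nat_lit 0) .nil .nil)))))) 
(.nd (nat_lit 3) (.nd (nat_lit 4) (.nd (nat_lit 5) 
(.lf (nat_lit 122246) (.g (nat_lit 649) (.e (nat_lit 7124) (nat_lit 382) (.e (nat_lit 1201) (nat_lit 88) (.e (nat_lit 65620) (nat_lit 10) .nil))) .nil)) 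
(.lf (nat_lit 122278) (.g (nat_lit 1313) (.e (nat_lit 7124) (nat_lit 382) (.e (nat_lit 1224) (nat_lit 90) (.e (nat_lit 81925) (nat_lit 11) (.e (nat_lit 426343) (nat_lit 14) (.e (nat_lit 491558) (nat_lit 10) .nil))))) .nil))) (.nd (nat_lit 5) 
(.lf (nat_lit 122262) (.g (nat_lit 2487) (.e (nat_lit 7124) (nat_lit 382) (.e (nat_lit 1201) (nat_lit 88) (.e (nat_lit 65627) (nat_lit 13) (.e (nat_lit 393234) (nat_lit 17) (.e (nat_lit 7593) (nat_lit 407) (.e (nat_lit 73731) (nat_lit 0) .nil)))))) (.g (nat_lit 5) .nil .nil))) 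
(.lf (nat_lit 122294) (.g (nat_lit 1057) (.e (nat_lit 7125) (nat_lit 382) (.e (nat_lit 1192) (nat_lit 88) (.e (nat_lit 65627) (nat_lit 13) (.e (nat_lit 393301) (nat_lit 27) (.e (nat_lit 491558) (nat_lit 10) .nil))))) .nil)))) (.nd (nat_lit 4) (.nd (nat_lit 5) 
(.lf (nat_lit 122254) (.g (nat_lit 1791) (.e (nat_lit 7124) (nat_lit 382) (.e (nat_lit 1201) (nat_lit 88) (.e (nat_lit 65625) (nat_lit 13) (.e (nat_lit 393298) (nat_lit 27) (.e (nat_lit 491560) (nat_lit 10) .nil))))) .nil)) 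
(.lf (nat_lit 122286) (.g (nat_lit 2351) (.e (nat_lit 7124) (nat_lit 382) (.e (nat_lit 1296) (nat_lit 96) (.e (nat_lit 131097) (nat_lit 3) (.e (nat_lit 98372) (nat_lit 29) (.e (nat_lit 450586) (nat_lit 10) (.e (nat_lit 573477) (nat_lit 12) (.e (nat_lit 57353) (nat_lit 0) .nil))))))) (.g (nat_lit 5) .nil .nil)))) (.nd (nat_lit 5) 
(.lf (nat_lit 122270) (.g (nat_lit 2331) (.e (nat_lit 7124) (nat_lit 382) (.e (nat_lit 1214) (nat_lit 89) (.e (nat_lit 73754) (nat_lit 8) (.e (nat_lit 557105) (nat_lit 14) (.e (nat_lit 180224) (nat_lit 0) .nil))))) .nil)) 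
(.lf (nat_lit 122302) (.g (nat_lit 4398) (.e (nat_lit 7125) (nat_lit 382) (.e (nat_lit 1201) (nat_lit 88) (.e (nat_lit 65569) (nat_lit 3) (.e (nat_lit 98359) (nat_lit 26) (.e (nat_lit 426286) (nat_lit 10) (.e (nat_lit 434248) (nat_lit 28) (.e (nat_lit 573475) (nat_lit 12) (.e (nat_lit 57353) (nat_lit 0) .nil)))))))) (.g (nat_lit 7) .nil .nil)))))))) 
(.nd (nat_lit 1) (.nd (nat_lit 2) (.nd (nat_lit 3) (.nd (nat_lit 4) (.nd (nat_lit 5) 
(.lf (nat_lit 122241) (.g (nat_lit 648) (.e (nat_lit 7124) (nat_lit 382) (.e (nat_lit 1201) (nat_lit 88) (.e (nat_lit 65619) (nat_lit 10) .nil))) .nil)) 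
(.lf (nat_lit 122273) (.g (nat_lit 1296) (.e (nat_lit 7124) (nat_lit 382) (.e (nat_lit 1222) (nat_lit 90) (.e (nat_lit 81938) (nat_lit 20) (.e (nat_lit 2281) (nat_lit 150) .nil)))) .nil))) (.nd (nat_lit 5) 
(.lf (nat_lit 122257) (.g (nat_lit 3537) (.e (nat_lit 7124) (nat_lit 382) (.e (nat_lit 1201) (nat_lit 88) (.e (nat_lit 65625) (nat_lit 13) (.e (nat_lit 393301) (nat_lit 27) (.e (nat_lit 491560) (nat_lit 10) (.e (nat_lit 344094) (nat_lit 18) .nil)))))) (.g (nat_lit 0) .nil .nil))) 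
(.lf (nat_lit 122289) (.g (nat_lit 720) (.e (nat_lit 7124) (nat_lit 382) (.e (nat_lit 1296) (nat_lit 96) (.e (nat_lit 131106) (nat_lit 9) .nil))) .nil)))) (.nd (nat_lit 4) (.nd (nat_lit 5) 
(.lf (nat_lit 122249) (.g (nat_lit 1287) (.e (nat_lit 7124) (nat_lit 382) (.e (nat_lit 1201) (nat_lit 88) (.e (nat_lit 65625) (nat_lit 13) (.e (nat_lit 393232) (nat_lit 17) .nil)))) .nil)) 
(.lf (nat_lit 122281) (.g (nat_lit 4381) (.e (nat_lit 7124) (nat_lit 382) (.e (nat_lit 1296) (nat_lit 96) (.e (nat_lit 131093) (nat_lit 2) (.e (nat_lit 90170) (nat_lit 13) (.e (nat_lit 172113) (nat_lit 10) (.e (nat_lit 434245) (nat_lit 28) (.e (nat_lit 573473) (nat_lit 12) (.e (nat_lit 57353) (nat_lit 0) .nil)))))))) (.g (nat_lit 7) .nil .nil)))) (.nd (nat_lit 5) 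
(.lf (nat_lit 122265) (.g (nat_lit 4075) (.e (nat_lit 7124) (nat_lit 382) (.e (nat_lit 1212) (nat_lit 89) (.e (nat_lit 73747) (nat_lit 3) (.e (nat_lit 516166) (nat_lit 12) (.e (nat_lit 450587) (nat_lit 10) (.e (nat_lit 573478) (nat_lit 12) (.e (nat_lit 57351) (nat_lit 0) .nil))))))) (.g (nat_lit 5) .nil .nil))) 
(.lf (nat_lit 122297) (.g (nat_lit 5072) (.e (nat_lit 7125) (nat_lit 382) (.e (nat_lit 1201) (nat_lit 88) (.e (nat_lit 65566) (nat_lit 2) (.e (nat_lit 90170) (nat_lit 13) (.e (nat_lit 172106) (nat_lit 10) (.e (nat_lit 434244) (nat_lit 28) (.e (nat_lit 573473) (nat_lit 12) (.e (nat_lit 57353) (nat_lit 0) .nil)))))))) (.g (nat_lit 0) .nil .nil)))))) 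
(.nd (nat_lit 3) (.nd (nat_lit 4) (.nd (nat_lit 5) 
(.lf (nat_lit 122245) (.g (nat_lit 2131) (.e (nat_lit 7124) (nat_lit 382) (.e (nat_lit 1201) (nat_lit 88) (.e (nat_lit 65619) (nat_lit 10) (.e (nat_lit 344177) (nat_lit 43) (.e (nat_lit 770058) (nat_lit 5) .nil))))) .nil)) 
(.lf (nat_lit 122277) (.g (nat_lit 2153) (.e (nat_lit 7124) (nat_lit 382) (.e (nat_lit 1222) (nat_lit 90) (.e (nat_lit 81965) (nat_lit 26) (.e (nat_lit 147495) (nat_lit 11) (.e (nat_lit 24639) (nat_lit 10) .nil))))) .nil))) (.nd (nat_lit 5) 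
(.lf (nat_lit 122261) (.g (nat_lit 2214) (.e (nat_lit 7124) (nat_lit 382) (.e (nat_lit 1201) (nat_lit 88) (.e (nat_lit 65627) (nat_lit 13) (.e (nat_lit 393233) (nat_lit 17) (.e (nat_lit 7593) (nat_lit 407) (.e (nat_lit 73731) (nat_lit 0) .nil)))))) (.g (nat_lit 5) .nil .nil))) 
(.lf (nat_lit 122293) (.g (nat_lit 2698) (.e (nat_lit 7125) (nat_lit 382) (.e (nat_lit 1175) (nat_lit 87) (.e (nat_lit 57521) (nat_lit 44) (.e (nat_lit 688182) (nat_lit 17) (.e (nat_lit 73755) (nat_lit 8) (.e (nat_lit 557089) (nat_lit 12) (.e (nat_lit 171776) (nat_lit 192) (.e (nat_lit 73731) (nat_lit 0) .nil)))))))) (.g (nat_lit 6) .nil .nil))))) (.nd (nat_lit 4) (.nd (nat_lit 5) 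
(.lf (nat_lit 122253) (.g (nat_lit 2648) (.e (nat_lit 7124) (nat_lit 382) (.e (nat_lit 1201) (nat_lit 88) (.e (nat_lit 65625) (nat_lit 13) (.e (nat_lit 393234) (nat_lit 17) (.e (nat_lit 7593) (nat_lit 407) (.e (nat_lit 73731) (nat_lit 0) .nil)))))) (.g (nat_lit 5) .nil .nil))) 
(.lf (nat_lit 122285) (.g (nat_lit 4819) (.e (nat_lit 7124) (nat_lit 382) (.e (nat_lit 1296) (nat_lit 96) (.e (nat_lit 131093) (nat_lit 2) (.e (nat_lit 90170) (nat_lit 13) (.e (nat_lit 172113) (nat_lit 10) (.e (nat_lit 434248) (nat_lit 28) (.e (nat_lit 573475) (nat_lit 12) (.e (nat_lit 57351) (nat_lit 0) .nil)))))))) (.g (nat_lit 7) .nil .nil)))) (.nd (nat_lit 5) 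
(.lf (nat_lit 122269) (.g (nat_lit 1856) (.e (nat_lit 7124) (nat_lit 382) (.e (nat_lit 1214) (nat_lit 89) (.e (nat_lit 73746) (nat_lit 3) (.e (nat_lit 516129) (nat_lit 3) (.e (nat_lit 229120) (nat_lit 1) .nil))))) .nil)) 
(.lf (nat_lit 122301) (.g (nat_lit 5299) (.e (nat_lit 7125) (nat_lit 382) (.e (nat_lit 1201) (nat_lit 88) (.e (nat_lit 65569) (nat_lit 3) (.e (nat_lit 98359) (nat_lit 26) (.e (nat_lit 426286) (nat_lit 10) (.e (nat_lit 434245) (nat_lit 28) (.e (nat_lit 573474) (nat_lit 12) (.e (nat_lit 57348) (nat_lit 0) .nil)))))))) (.g (nat_lit 8) .nil .nil))))))) 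
(.nd (nat_lit 2) (.nd (nat_lit 3) (.nd (nat_lit 4) (.nd (nat_lit 5) 
(.lf (nat_lit 122243) (.g (nat_lit 1407) (.e (nat_lit 7124) (nat_lit 382) (.e (nat_lit 1201) (nat_lit 88) (.e (nat_lit 65619) (nat_lit 10) (.e (nat_lit 344097) (nat_lit 18) .nil)))) .nil)) 
(.lf (nat_lit 122275) (.g (nat_lit 707) (.e (nat_lit 7124) (nat_lit 382) (.e (nat_lit 1222) (nat_lit 90) (.e (nat_lit 81950) (nat_lit 21) .nil))) .nil))) (.nd (nat_lit 5) 
(.lf (nat_lit 122259) (.g (nat_lit 2779) (.e (nat_lit 7124) (nat_lit 382) (.e (nat_lit 1201) (nat_lit 88) (.e (nat_lit 65627) (nat_lit 13) (.e (nat_lit 393232) (nat_lit 17) (.e (nat_lit 7591) (nat_lit 407) (.e (nat_lit 73731) (nat_lit 0) .nil)))))) (.g (nat_lit 6) .nil .nil))) 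
(.lf (nat_lit 122291) (.g (nat_lit 726) (.e (nat_lit 7124) (nat_lit 382) (.e (nat_lit 1296) (nat_lit 96) (.e (nat_lit 131108) (nat_lit 9) (.e (nat_lit 336438) (nat_lit 31) .nil)))) .nil)))) (.nd (nat_lit 4) (.nd (nat_lit 5) 
(.lf (nat_lit 122251) (.g (nat_lit 2621) (.e (nat_lit 7124) (nat_lit 382) (.e (nat_lit 1201) (nat_lit 88) (.e (nat_lit 65625) (nat_lit 13) (.e (nat_lit 393233) (nat_lit 17) (.e (nat_lit 7591) (nat_lit 407) (.e (nat_lit 73731) (nat_lit 0) .nil)))))) (.g (nat_lit 0) .nil .nil))) 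
(.lf (nat_lit 122283) (.g (nat_lit 4557) (.e (nat_lit 7124) (nat_lit 382) (.e (nat_lit 1296) (nat_lit 96) (.e (nat_lit 131093) (nat_lit 2) (.e (nat_lit 90170) (nat_lit 13) (.e (nat_lit 172113) (nat_lit 10) (.e (nat_lit 434247) (nat_lit 28) (.e (nat_lit 573477) (nat_lit 12) (.e (nat_lit 57353) (nat_lit 0) .nil)))))))) (.g (nat_lit 7) .nil .nil)))) (.nd (nat_lit 5) 
(.lf (nat_lit 122267) (.g (nat_lit 4903) (.e (nat_lit 7124) (nat_lit 382) (.e (nat_lit 1212) (nat_lit 89) (.e (nat_lit 73747) (nat_lit 3) (.e (nat_lit 516166) (nat_lit 12) (.e (nat_lit 450588) (nat_lit 10) (.e (nat_lit 573473) (nat_lit 12) (.e (nat_lit 57353) (nat_lit 0) .nil))))))) (.g (nat_lit 6) .nil .nil))) 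
(.lf (nat_lit 122299) (.g (nat_lit 5496) (.e (nat_lit 7125) (nat_lit 382) (.e (nat_lit 1201) (nat_lit 88) (.e (nat_lit 65568) (nat_lit 2) (.e (nat_lit 90170) (nat_lit 13) (.e (nat_lit 172106) (nat_lit 10) (.e (nat_lit 434244) (nat_lit 28) (.e (nat_lit 573473) (nat_lit 12) (.e (nat_lit 57353) (nat_lit 0) .nil)))))))) (.g (nat_lit 0) .nil .nil)))))) 
(.nd (nat_lit 3) (.nd (nat_lit 4) (.nd (nat_lit 5) 
(.lf (nat_lit 122247) (.g (nat_lit 450) (.e (nat_lit 7124) (nat_lit 382) (.e (nat_lit 1201) (nat_lit 88) (.e (nat_lit 65625) (nat_lit 13) .nil))) .nil)) 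
(.lf (nat_lit 122279) (.g (nat_lit 1348) (.e (nat_lit 7124) (nat_lit 382) (.e (nat_lit 1224) (nat_lit 90) (.e (nat_lit 81947) (nat_lit 20) (.e (nat_lit 2281) (nat_lit 150) (.e (nat_lit 770057) (nat_lit 5) .nil))))) .nil))) (.nd (nat_lit 5) 
(.lf (nat_lit 122263) (.g (nat_lit 1948) (.e (nat_lit 7124) (nat_lit 382) (.e (nat_lit 1201) (nat_lit 88) (.e (nat_lit 65627) (nat_lit 13) (.e (nat_lit 393298) (nat_lit 27) (.e (nat_lit 491558) (nat_lit 10) .nil))))) .nil)) 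
(.lf (nat_lit 122295) (.g (nat_lit 4454) (.e (nat_lit 7125) (nat_lit 382) (.e (nat_lit 1193) (nat_lit 88) (.e (nat_lit 65570) (nat_lit 3) (.e (nat_lit 98373) (nat_lit 29) (.e (nat_lit 450588) (nat_lit 10) (.e (nat_lit 573473) (nat_lit 12) (.e (nat_lit 57348) (nat_lit 0) .nil))))))) (.g (nat_lit 6) .nil .nil))))) (.nd (nat_lit 4) (.nd (nat_lit 5) 
(.lf (nat_lit 122255) (.g (nat_lit 2082) (.e (nat_lit 7124) (nat_lit 382) (.e (nat_lit 1201) (nat_lit 88) (.e (nat_lit 65625) (nat_lit 13) (.e (nat_lit 393299) (nat_lit 27) (.e (nat_lit 491560) (nat_lit 10) .nil))))) .nil)) 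
(.lf (nat_lit 122287) (.g (nat_lit 2196) (.e (nat_lit 7124) (nat_lit 382) (.e (nat_lit 1296) (nat_lit 96) (.e (nat_lit 131097) (nat_lit 3) (.e (nat_lit 98372) (nat_lit 29) (.e (nat_lit 450586) (nat_lit 10) (.e (nat_lit 573478) (nat_lit 12) (.e (nat_lit 57351) (nat_lit 0) .nil))))))) (.g (nat_lit 5) .nil .nil)))) (.nd (nat_lit 5) 
(.lf (nat_lit 122271) (.g (nat_lit 2058) (.e (nat_lit 7124) (nat_lit 382) (.e (nat_lit 1214) (nat_lit 89) (.e (nat_lit 73754) (nat_lit 8) (.e (nat_lit 557105) (nat_lit 14) (.e (nat_lit 180264) (nat_lit 21) .nil))))) .nil)) 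
(.lf (nat_lit 122303) (.g (nat_lit 2300) (.e (nat_lit 7125) (nat_lit 382) (.e (nat_lit 1201) (nat_lit 88) (.e (nat_lit 65569) (nat_lit 3) (.e (nat_lit 98372) (nat_lit 29) (.e (nat_lit 450586) (nat_lit 10) (.e (nat_lit 573473) (nat_lit 12) (.e (nat_lit 57352) (nat_lit 0) .nil))))))) (.g (nat_lit 4) .nil .nil)))))))))

noncomputable def tv1630 : DT := (.nd (nat_lit 0) (.nd (nat_lit 1) (.nd (nat_lit 2) (.nd (nat_lit 3) (.nd (nat_lit 4) (.nd (nat_lit 5) 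
(.lf (nat_lit 122304) (.g (nat_lit 4838) (.e (nat_lit 7125) (nat_lit 382) (.e (nat_lit 1201) (nat_lit 88) (.e (nat_lit 65569) (nat_lit 3) (.e (nat_lit 98373) (nat_lit 29) (.e (nat_lit 450588) (nat_lit 10) (.e (nat_lit 573473) (nat_lit 12) (.e (nat_lit 57348) (nat_lit 0) .nil))))))) (.g (nat_lit 0) .nil .nil))) 
(.lf (nat_lit 122336) (.g (nat_lit 1022) (.e (nat_lit 7125) (nat_lit 382) (.e (nat_lit 1201) (nat_lit 88) (.e (nat_lit 65589) (nat_lit 9) (.e (nat_lit 336421) (nat_lit 28) .nil)))) .nil))) (.nd (nat_lit 5) 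
(.lf (nat_lit 122320) (.g (nat_lit 4886) (.e (nat_lit 7125) (nat_lit 382) (.e (nat_lit 1201) (nat_lit 88) (.e (nat_lit 65571) (nat_lit 3) (.e (nat_lit 98373) (nat_lit 29) (.e (nat_lit 450588) (nat_lit 10) (.e (nat_lit 573473) (nat_lit 12) (.e (nat_lit 57353) (nat_lit 0) .nil))))))) (.g (nat_lit 0) .nil .nil))) 
(.lf (nat_lit 122352) (.g (nat_lit 2310) (.e (nat_lit 7125) (nat_lit 382) (.e (nat_lit 1201) (nat_lit 88) (.e (nat_lit 65610) (nat_lit 10) (.e (nat_lit 344097) (nat_lit 18) (.e (nat_lit 7270) (nat_lit 385) (.e (nat_lit 122916) (nat_lit 14) (.e (nat_lit 352299) (nat_lit 20) (.e (nat_lit 1015) (nat_lit 81) .nil)))))))) (.g (nat_lit 4) .nil .nil))))) (.nd (nat_lit 4) (.nd (nat_lit 5) 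
(.lf (nat_lit 122312) (.g (nat_lit 4706) (.e (nat_lit 7125) (nat_lit 382) (.e (nat_lit 1201) (nat_lit 88) (.e (nat_lit 65571) (nat_lit 3) (.e (nat_lit 98359) (nat_lit 26) (.e (nat_lit 426286) (nat_lit 10) (.e (nat_lit 434248) (nat_lit 28) (.e (nat_lit 573473) (nat_lit 12) (.e (nat_lit 57353) (nat_lit 0) .nil)))))))) (.g (nat_lit 0) .nil .nil))) 
(.lf (nat_lit 122344) (.g (nat_lit 2334) (.e (nat_lit 7125) (nat_lit 382) (.e (nat_lit 1201) (nat_lit 88) (.e (nat_lit 65610) (nat_lit 10) (.e (nat_lit 344090) (nat_lit 18) (.e (nat_lit 7122) (nat_lit 382) (.e (nat_lit 1201) (nat_lit 88) (.e (nat_lit 65617) (nat_lit 10) (.e (nat_lit 344095) (nat_lit 18) .nil)))))))) (.g (nat_lit 4) .nil .nil)))) (.nd (nat_lit 5) 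
(.lf (nat_lit 122328) (.g (nat_lit 4394) (.e (nat_lit 7125) (nat_lit 382) (.e (nat_lit 1201) (nat_lit 88) (.e (nat_lit 65586) (nat_lit 7) (.e (nat_lit 319531) (nat_lit 16) (.e (nat_lit 286753) (nat_lit 10) (.e (nat_lit 344160) (nat_lit 37) (.e (nat_lit 647201) (nat_lit 12) (.e (nat_lit 57351) (nat_lit 0) .nil)))))))) (.g (nat_lit 6) .nil .nil))) 
(.lf (nat_lit 122360) (.g (nat_lit 4984) (.e (nat_lit 7125) (nat_lit 382) (.e (nat_lit 1201) (nat_lit 88) (.e (nat_lit 65610) (nat_lit 10) (.e (nat_lit 344097) (nat_lit 18) (.e (nat_lit 7272) (nat_lit 385) (.e (nat_lit 122919) (nat_lit 15) (.e (nat_lit 360451) (nat_lit 0) .nil))))))) (.g (nat_lit 0) .nil .nil)))))) (.nd (nat_lit 3) (.nd (nat_lit 4) (.nd (nat_lit 5) 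
(.lf (nat_lit 122308) (.g (nat_lit 3186) (.e (nat_lit 7125) (nat_lit 382) (.e (nat_lit 1201) (nat_lit 88) (.e (nat_lit 65570) (nat_lit 3) (.e (nat_lit 98373) (nat_lit 29) (.e (nat_lit 450587) (nat_lit 10) (.e (nat_lit 573478) (nat_lit 12) (.e (nat_lit 57351) (nat_lit 0) .nil))))))) (.g (nat_lit 5) .nil .nil))) 
(.lf (nat_lit 122340) (.g (nat_lit 673) (.e (nat_lit 7125) (nat_lit 382) (.e (nat_lit 1201) (nat_lit 88) (.e (nat_lit 65599) (nat_lit 9) .nil))) .nil))) (.nd (nat_lit 5) 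
(.lf (nat_lit 122324) (.g (nat_lit 3615) (.e (nat_lit 7125) (nat_lit 382) (.e (nat_lit 1201) (nat_lit 88) (.e (nat_lit 65583) (nat_lit 7) (.e (nat_lit 319533) (nat_lit 16) (.e (nat_lit 286753) (nat_lit 10) (.e (nat_lit 344160) (nat_lit 37) (.e (nat_lit 647201) (nat_lit 12) (.e (nat_lit 57351) (nat_lit 0) .nil)))))))) (.g (nat_lit 6) .nil .nil))) 
(.lf (nat_lit 122356) (.g (nat_lit 2450) (.e (nat_lit 7125) (nat_lit 382) (.e (nat_lit 1201) (nat_lit 88) (.e (nat_lit 65610) (nat_lit 10) (.e (nat_lit 344097) (nat_lit 18) (.e (nat_lit 7271) (nat_lit 385) (.e (nat_lit 122917) (nat_lit 15) (.e (nat_lit 368384) (nat_lit 0) .nil))))))) (.g (nat_lit 5) .nil .nil))))) (.nd (nat_lit 4) (.nd (nat_lit 5) 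
(.lf (nat_lit 122316) (.g (nat_lit 3762) (.e (nat_lit 7125) (nat_lit 382) (.e (nat_lit 1201) (nat_lit 88) (.e (nat_lit 65571) (nat_lit 3) (.e (nat_lit 98372) (nat_lit 29) (.e (nat_lit 450586) (nat_lit 10) (.e (nat_lit 573478) (nat_lit 12) (.e (nat_lit 57351) (nat_lit 0) .nil))))))) (.g (nat_lit 7) .nil .nil))) 
(.lf (nat_lit 122348) (.g (nat_lit 1838) (.e (nat_lit 7125) (nat_lit 382) (.e (nat_lit 1201) (nat_lit 88) (.e (nat_lit 65610) (nat_lit 10) (.e (nat_lit 344097) (nat_lit 18) (.e (nat_lit 7146) (nat_lit 382) (.e (nat_lit 1095) (nat_lit 81) (.e (nat_lit 1593) (nat_lit 111) (.e (nat_lit 360449) (nat_lit 0) .nil)))))))) (.g (nat_lit 4) .nil .nil)))) (.nd (nat_lit 5) 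
(.lf (nat_lit 122332) (.g (nat_lit 2240) (.e (nat_lit 7125) (nat_lit 382) (.e (nat_lit 1201) (nat_lit 88) (.e (nat_lit 65586) (nat_lit 7) (.e (nat_lit 319533) (nat_lit 16) (.e (nat_lit 286753) (nat_lit 10) (.e (nat_lit 344160) (nat_lit 37) (.e (nat_lit 647200) (nat_lit 12) (.e (nat_lit 57353) (nat_lit 0) .nil)))))))) (.g (nat_lit 4) .nil .nil))) 
(.lf (nat_lit 122364) (.g (nat_lit 1225) (.e (nat_lit 7125) (nat_lit 382) (.e (nat_lit 1201) (nat_lit 88) (.e (nat_lit 65610) (nat_lit 10) (.e (nat_lit 344173) (nat_lit 42) .nil)))) .nil)))))) (.nd (nat_lit 2) (.nd (nat_lit 3) (.nd (nat_lit 4) (.nd (nat_lit 5) 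
(.lf (nat_lit 122306) (.g (nat_lit 987) (.e (nat_lit 7125) (nat_lit 382) (.e (nat_lit 1201) (nat_lit 88) (.e (nat_lit 65570) (nat_lit 3) (.e (nat_lit 98373) (nat_lit 29) .nil)))) .nil)) 
(.lf (nat_lit 122338) (.g (nat_lit 1330) (.e (nat_lit 7125) (nat_lit 382) (.e (nat_lit 1201) (nat_lit 88) (.e (nat_lit 65592) (nat_lit 9) (.e (nat_lit 335907) (nat_lit 0) (.e (nat_lit 2370) (nat_lit 154) .nil))))) .nil))) (.nd (nat_lit 5) 
(.lf (nat_lit 122322) (.g (nat_lit 3959) (.e (nat_lit 7125) (nat_lit 382) (.e (nat_lit 1201) (nat_lit 88) (.e (nat_lit 65581) (nat_lit 7) (.e (nat_lit 319534) (nat_lit 16) (.e (nat_lit 286756) (nat_lit 10) (.e (nat_lit 344160) (nat_lit 37) (.e (nat_lit 647201) (nat_lit 12) (.e (nat_lit 57351) (nat_lit 0) .nil)))))))) (.g (nat_lit 6) .nil .nil))) 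
(.lf (nat_lit 122354) (.g (nat_lit 3967) (.e (nat_lit 7125) (nat_lit 382) (.e (nat_lit 1201) (nat_lit 88) (.e (nat_lit 65610) (nat_lit 10) (.e (nat_lit 344097) (nat_lit 18) (.e (nat_lit 7270) (nat_lit 385) (.e (nat_lit 122917) (nat_lit 15) (.e (nat_lit 368384) (nat_lit 0) .nil))))))) (.g (nat_lit 6) .nil .nil))))) (.nd (nat_lit 4) (.nd (nat_lit 5) 
(.lf (nat_lit 122314) (.g (nat_lit 4442) (.e (nat_lit 7125) (nat_lit 382) (.e (nat_lit 1201) (nat_lit 88) (.e (nat_lit 65571) (nat_lit 3) (.e (nat_lit 98372) (nat_lit 29) (.e (nat_lit 450586) (nat_lit 10) (.e (nat_lit 573473) (nat_lit 12) (.e (nat_lit 57348) (nat_lit 0) .nil))))))) (.g (nat_lit 0) .nil .nil))) 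
(.lf (nat_lit 122346) (.g (nat_lit 2305) (.e (nat_lit 7125) (nat_lit 382) (.e (nat_lit 1201) (nat_lit 88) (.e (nat_lit 65610) (nat_lit 10) (.e (nat_lit 344090) (nat_lit 18) (.e (nat_lit 7265) (nat_lit 384) (.e (nat_lit 57412) (nat_lit 12) (.e (nat_lit 336176) (nat_lit 10) (.e (nat_lit 344095) (nat_lit 18) .nil)))))))) (.g (nat_lit 4) .nil .nil)))) (.nd (nat_lit 5) 
(.lf (nat_lit 122330) (.g (nat_lit 2903) (.e (nat_lit 7125) (nat_lit 382) (.e (nat_lit 1201) (nat_lit 88) (.e (nat_lit 65586) (nat_lit 7) (.e (nat_lit 319531) (nat_lit 16) (.e (nat_lit 286755) (nat_lit 10) (.e (nat_lit 344161) (nat_lit 37) (.e (nat_lit 647201) (nat_lit 12) (.e (nat_lit 57351) (nat_lit 0) .nil)))))))) (.g (nat_lit 4) .nil .nil))) 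
(.lf (nat_lit 122362) (.g (nat_lit 1776) (.e (nat_lit 7125) (nat_lit 382) (.e (nat_lit 1201) (nat_lit 88) (.e (nat_lit 65610) (nat_lit 10) (.e (nat_lit 344097) (nat_lit 18) (.e (nat_lit 7273) (nat_lit 385) .nil))))) .nil))))) (.nd (nat_lit 3) (.nd (nat_lit 4) (.nd (nat_lit 5) 
(.lf (nat_lit 122310) (.g (nat_lit 5389) (.e (nat_lit 7125) (nat_lit 382) (.e (nat_lit 1201) (nat_lit 88) (.e (nat_lit 65570) (nat_lit 3) (.e (nat_lit 98373) (nat_lit 29) (.e (nat_lit 450588) (nat_lit 10) (.e (nat_lit 573475) (nat_lit 12) (.e (nat_lit 57348) (nat_lit 0) .nil))))))) (.g (nat_lit 6) .nil .nil))) 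
(.lf (nat_lit 122342) (.g (nat_lit 1751) (.e (nat_lit 7125) (nat_lit 382) (.e (nat_lit 1201) (nat_lit 88) (.e (nat_lit 65604) (nat_lit 9) (.e (nat_lit 335997) (nat_lit 1) (.e (nat_lit 57680) (nat_lit 155) .nil))))) .nil))) (.nd (nat_lit 5) 
(.lf (nat_lit 122326) (.g (nat_lit 2132) (.e (nat_lit 7125) (nat_lit 382) (.e (nat_lit 1201) (nat_lit 88) (.e (nat_lit 65586) (nat_lit 7) (.e (nat_lit 319531) (nat_lit 16) (.e (nat_lit 286751) (nat_lit 10) .nil))))) .nil)) 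
(.lf (nat_lit 122358) (.g (nat_lit 1985) (.e (nat_lit 7125) (nat_lit 382) (.e (nat_lit 1201) (nat_lit 88) (.e (nat_lit 65610) (nat_lit 10) (.e (nat_lit 344097) (nat_lit 18) (.e (nat_lit 7272) (nat_lit 385) (.e (nat_lit 122916) (nat_lit 14) (.e (nat_lit 352293) (nat_lit 20) (.e (nat_lit 1015) (nat_lit 81) .nil)))))))) (.g (nat_lit 4) .nil .nil))))) (.nd (nat_lit 4) (.nd (nat_lit 5) 
(.lf (nat_lit 122318) (.g (nat_lit 1102) (.e (nat_lit 7125) (nat_lit 382) (.e (nat_lit 1201) (nat_lit 88) (.e (nat_lit 65571) (nat_lit 3) (.e (nat_lit 98373) (nat_lit 29) .nil)))) .nil)) 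
(.lf (nat_lit 122350) (.g (nat_lit 2296) (.e (nat_lit 7125) (nat_lit 382) (.e (nat_lit 1201) (nat_lit 88) (.e (nat_lit 65610) (nat_lit 10) (.e (nat_lit 344097) (nat_lit 18) (.e (nat_lit 7150) (nat_lit 382) (.e (nat_lit 1061) (nat_lit 81) (.e (nat_lit 1583) (nat_lit 111) (.e (nat_lit 360451) (nat_lit 0) .nil)))))))) (.g (nat_lit 4) .nil .nil)))) (.nd (nat_lit 5) 
(.lf (nat_lit 122334) (.g (nat_lit 4225) (.e (nat_lit 7125) (nat_lit 382) (.e (nat_lit 1201) (nat_lit 88) (.e (nat_lit 65586) (nat_lit 7) (.e (nat_lit 319534) (nat_lit 16) (.e (nat_lit 286756) (nat_lit 10) (.e (nat_lit 344160) (nat_lit 37) (.e (nat_lit 647201) (nat_lit 12) (.e (nat_lit 57351) (nat_lit 0) .nil)))))))) (.g (nat_lit 6) .nil .nil))) 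
(.lf (nat_lit 122366) (.g (nat_lit 1756) (.e (nat_lit 7125) (nat_lit 382) (.e (nat_lit 1201) (nat_lit 88) (.e (nat_lit 65610) (nat_lit 10) (.e (nat_lit 344174) (nat_lit 42) (.e (nat_lit 761867) (nat_lit 5) .nil))))) .nil))))))) (.nd (nat_lit 1) (.nd (nat_lit 2) (.nd (nat_lit 3) (.nd (nat_lit 4) (.nd (nat_lit 5) 
(.lf (nat_lit 122305) (.g (nat_lit 2020) (.e (nat_lit 7125) (nat_lit 382) (.e (nat_lit 1201) (nat_lit 88) (.e (nat_lit 65570) (nat_lit 3) (.e (nat_lit 98359) (nat_lit 26) (.e (nat_lit 426286) (nat_lit 10) .nil))))) .nil)) 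
(.lf (nat_lit 122337) (.g (nat_lit 662) (.e (nat_lit 7125) (nat_lit 382) (.e (nat_lit 1201) (nat_lit 88) (.e (nat_lit 65592) (nat_lit 9) .nil))) .nil))) (.nd (nat_lit 5) 
(.lf (nat_lit 122321) (.g (nat_lit 3577) (.e (nat_lit 7125) (nat_lit 382) (.e (nat_lit 1201) (nat_lit 88) (.e (nat_lit 65581) (nat_lit 7) (.e (nat_lit 319533) (nat_lit 16) (.e (nat_lit 286753) (nat_lit 10) (.e (nat_lit 344160) (nat_lit 37) (.e (nat_lit 647201) (nat_lit 12) (.e (nat_lit 57351) (nat_lit 0) .nil)))))))) (.g (nat_lit 7) .nil .nil))) 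
(.lf (nat_lit 122353) (.g (nat_lit 2108) (.e (nat_lit 7125) (nat_lit 382) (.e (nat_lit 1201) (nat_lit 88) (.e (nat_lit 65610) (nat_lit 10) (.e (nat_lit 344097) (nat_lit 18) (.e (nat_lit 7270) (nat_lit 385) (.e (nat_lit 122916) (nat_lit 14) (.e (nat_lit 352302) (nat_lit 20) (.e (nat_lit 1015) (nat_lit 81) .nil)))))))) (.g (nat_lit 4) .nil .nil))))) (.nd (nat_lit 4) (.nd (nat_lit 5) 
(.lf (nat_lit 122313) (.g (nat_lit 4579) (.e (nat_lit 7125) (nat_lit 382) (.e (nat_lit 1201) (nat_lit 88) (.e (nat_lit 65571) (nat_lit 3) (.e (nat_lit 98359) (nat_lit 26) (.e (nat_lit 426286) (nat_lit 10) (.e (nat_lit 434248) (nat_lit 28) (.e (nat_lit 573475) (nat_lit 12) (.e (nat_lit 57353) (nat_lit 0) .nil)))))))) (.g (nat_lit 7) .nil .nil))) 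
(.lf (nat_lit 122345) (.g (nat_lit 2344) (.e (nat_lit 7125) (nat_lit 382) (.e (nat_lit 1201) (nat_lit 88) (.e (nat_lit 65610) (nat_lit 10) (.e (nat_lit 344090) (nat_lit 18) (.e (nat_lit 7261) (nat_lit 384) (.e (nat_lit 57412) (nat_lit 12) (.e (nat_lit 336176) (nat_lit 10) (.e (nat_lit 344095) (nat_lit 18) .nil)))))))) (.g (nat_lit 4) .nil .nil)))) (.nd (nat_lit 5) 
(.lf (nat_lit 122329) (.g (nat_lit 2531) (.e (nat_lit 7125) (nat_lit 382) (.e (nat_lit 1201) (nat_lit 88) (.e (nat_lit 65586) (nat_lit 7) (.e (nat_lit 319531) (nat_lit 16) (.e (nat_lit 286755) (nat_lit 10) (.e (nat_lit 344160) (nat_lit 37) (.e (nat_lit 647201) (nat_lit 12) (.e (nat_lit 57351) (nat_lit 0) .nil)))))))) (.g (nat_lit 4) .nil .nil))) 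
(.lf (nat_lit 122361) (.g (nat_lit 2871) (.e (nat_lit 7125) (nat_lit 382) (.e (nat_lit 1201) (nat_lit 88) (.e (nat_lit 65610) (nat_lit 10) (.e (nat_lit 344097) (nat_lit 18) (.e (nat_lit 7272) (nat_lit 385) (.e (nat_lit 122919) (nat_lit 15) (.e (nat_lit 368384) (nat_lit 0) .nil))))))) (.g (nat_lit 5) .nil .nil)))))) (.nd (nat_lit 3) (.nd (nat_lit 4) (.nd (nat_lit 5) 
(.lf (nat_lit 122309) (.g (nat_lit 3182) (.e (nat_lit 7125) (nat_lit 382) (.e (nat_lit 1201) (nat_lit 88) (.e (nat_lit 65570) (nat_lit 3) (.e (nat_lit 98373) (nat_lit 29) (.e (nat_lit 450587) (nat_lit 10) (.e (nat_lit 573478) (nat_lit 12) (.e (nat_lit 57353) (nat_lit 0) .nil))))))) (.g (nat_lit 5) .nil .nil))) 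
(.lf (nat_lit 122341) (.g (nat_lit 1174) (.e (nat_lit 7125) (nat_lit 382) (.e (nat_lit 1201) (nat_lit 88) (.e (nat_lit 65599) (nat_lit 9) (.e (nat_lit 336417) (nat_lit 27) .nil)))) .nil))) (.nd (nat_lit 5) 
(.lf (nat_lit 122325) (.g (nat_lit 2906) (.e (nat_lit 7125) (nat_lit 382) (.e (nat_lit 1201) (nat_lit 88) (.e (nat_lit 65585) (nat_lit 7) (.e (nat_lit 319533) (nat_lit 16) (.e (nat_lit 286753) (nat_lit 10) (.e (nat_lit 344160) (nat_lit 37) (.e (nat_lit 647201) (nat_lit 12) (.e (nat_lit 57351) (nat_lit 0) .nil)))))))) (.g (nat_lit 5) .nil .nil))) 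
(.lf (nat_lit 122357) (.g (nat_lit 1897) (.e (nat_lit 7125) (nat_lit 382) (.e (nat_lit 1201) (nat_lit 88) (.e (nat_lit 65610) (nat_lit 10) (.e (nat_lit 344097) (nat_lit 18) (.e (nat_lit 7272) (nat_lit 385) .nil))))) .nil)))) (.nd (nat_lit 4) (.nd (nat_lit 5) 
(.lf (nat_lit 122317) (.g (nat_lit 2443) (.e (nat_lit 7125) (nat_lit 382) (.e (nat_lit 1201) (nat_lit 88) (.e (nat_lit 65571) (nat_lit 3) (.e (nat_lit 98372) (nat_lit 29) (.e (nat_lit 450587) (nat_lit 10) .nil))))) .nil)) 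
(.lf (nat_lit 122349) (.g (nat_lit 1877) (.e (nat_lit 7125) (nat_lit 382) (.e (nat_lit 1201) (nat_lit 88) (.e (nat_lit 65610) (nat_lit 10) (.e (nat_lit 344097) (nat_lit 18) (.e (nat_lit 7147) (nat_lit 382) (.e (nat_lit 1217) (nat_lit 90) (.e (nat_lit 81944) (nat_lit 20) (.e (nat_lit 1015) (nat_lit 81) .nil)))))))) (.g (nat_lit 4) .nil .nil)))) (.nd (nat_lit 5) 
(.lf (nat_lit 122333) (.g (nat_lit 3869) (.e (nat_lit 7125) (nat_lit 382) (.e (nat_lit 1201) (nat_lit 88) (.e (nat_lit 65586) (nat_lit 7) (.e (nat_lit 319533) (nat_lit 16) (.e (nat_lit 286753) (nat_lit 10) (.e (nat_lit 344160) (nat_lit 37) (.e (nat_lit 647201) (nat_lit 12) (.e (nat_lit 57351) (nat_lit 0) .nil)))))))) (.g (nat_lit 7) .nil .nil))) 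
(.lf (nat_lit 122365) (.g (nat_lit 1773) (.e (nat_lit 7125) (nat_lit 382) (.e (nat_lit 1201) (nat_lit 88) (.e (nat_lit 65610) (nat_lit 10) (.e (nat_lit 344174) (nat_lit 42) (.e (nat_lit 761866) (nat_lit 5) .nil))))) .nil)))))) (.nd (nat_lit 2) (.nd (nat_lit 3) (.nd (nat_lit 4) (.nd (nat_lit 5) 
(.lf (nat_lit 122307) (.g (nat_lit 3408) (.e (nat_lit 7125) (nat_lit 382) (.e (nat_lit 1201) (nat_lit 88) (.e (nat_lit 65570) (nat_lit 3) (.e (nat_lit 98373) (nat_lit 29) (.e (nat_lit 450587) (nat_lit 10) (.e (nat_lit 573477) (nat_lit 12) (.e (nat_lit 57353) (nat_lit 0) .nil))))))) (.g (nat_lit 5) .nil .nil))) 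
(.lf (nat_lit 122339) (.g (nat_lit 681) (.e (nat_lit 7125) (nat_lit 382) (.e (nat_lit 1201) (nat_lit 88) (.e (nat_lit 65596) (nat_lit 9) .nil))) .nil))) (.nd (nat_lit 5) 
(.lf (nat_lit 122323) (.g (nat_lit 4199) (.e (nat_lit 7125) (nat_lit 382) (.e (nat_lit 1201) (nat_lit 88) (.e (nat_lit 65583) (nat_lit 7) (.e (nat_lit 319530) (nat_lit 16) (.e (nat_lit 286753) (nat_lit 10) (.e (nat_lit 344160) (nat_lit 37) (.e (nat_lit 647201) (nat_lit 12) (.e (nat_lit 57351) (nat_lit 0) .nil)))))))) (.g (nat_lit 7) .nil .nil))) 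
(.lf (nat_lit 122355) (.g (nat_lit 4386) (.e (nat_lit 7125) (nat_lit 382) (.e (nat_lit 1201) (nat_lit 88) (.e (nat_lit 65610) (nat_lit 10) (.e (nat_lit 344097) (nat_lit 18) (.e (nat_lit 7270) (nat_lit 385) (.e (nat_lit 122919) (nat_lit 15) (.e (nat_lit 368384) (nat_lit 0) .nil))))))) (.g (nat_lit 6) .nil .nil))))) (.nd (nat_lit 4) (.nd (nat_lit 5) 
(.lf (nat_lit 122315) (.g (nat_lit 4323) (.e (nat_lit 7125) (nat_lit 382) (.e (nat_lit 1201) (nat_lit 88) (.e (nat_lit 65571) (nat_lit 3) (.e (nat_lit 98372) (nat_lit 29) (.e (nat_lit 450586) (nat_lit 10) (.e (nat_lit 573475) (nat_lit 12) (.e (nat_lit 57351) (nat_lit 0) .nil))))))) (.g (nat_lit 7) .nil .nil))) 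
(.lf (nat_lit 122347) (.g (nat_lit 2261) (.e (nat_lit 7125) (nat_lit 382) (.e (nat_lit 1201) (nat_lit 88) (.e (nat_lit 65610) (nat_lit 10) (.e (nat_lit 344090) (nat_lit 18) (.e (nat_lit 7265) (nat_lit 384) (.e (nat_lit 57427) (nat_lit 15) (.e (nat_lit 368384) (nat_lit 0) .nil))))))) (.g (nat_lit 5) .nil .nil)))) (.nd (nat_lit 5) 
(.lf (nat_lit 122331) (.g (nat_lit 2314) (.e (nat_lit 7125) (nat_lit 382) (.e (nat_lit 1201) (nat_lit 88) (.e (nat_lit 65586) (nat_lit 7) (.e (nat_lit 319531) (nat_lit 16) (.e (nat_lit 286756) (nat_lit 10) (.e (nat_lit 344160) (nat_lit 37) (.e (nat_lit 647195) (nat_lit 9) (.e (nat_lit 1040) (nat_lit 81) (.e (nat_lit 1015) (nat_lit 81) .nil))))))))) (.g (nat_lit 4) .nil .nil))) 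
(.lf (nat_lit 122363) (.g (nat_lit 4703) (.e (nat_lit 7125) (nat_lit 382) (.e (nat_lit 1201) (nat_lit 88) (.e (nat_lit 65610) (nat_lit 10) (.e (nat_lit 344097) (nat_lit 18) (.e (nat_lit 7273) (nat_lit 385) (.e (nat_lit 122919) (nat_lit 15) (.e (nat_lit 360451) (nat_lit 0) .nil))))))) (.g (nat_lit 0) .nil .nil)))))) (.nd (nat_lit 3) (.nd (nat_lit 4) (.nd (nat_lit 5) 
(.lf (nat_lit 122311) (.g (nat_lit 5470) (.e (nat_lit 7125) (nat_lit 382) (.e (nat_lit 1201) (nat_lit 88) (.e (nat_lit 65571) (nat_lit 3) (.e (nat_lit 98359) (nat_lit 26) (.e (nat_lit 426286) (nat_lit 10) (.e (nat_lit 434245) (nat_lit 28) (.e (nat_lit 573474) (nat_lit 12) (.e (nat_lit 57348) (nat_lit 0) .nil)))))))) (.g (nat_lit 8) .nil .nil))) 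
(.lf (nat_lit 122343) (.g (nat_lit 1080) (.e (nat_lit 7125) (nat_lit 382) (.e (nat_lit 1201) (nat_lit 88) (.e (nat_lit 65610) (nat_lit 10) (.e (nat_lit 344090) (nat_lit 18) .nil)))) .nil))) (.nd (nat_lit 5) 
(.lf (nat_lit 122327) (.g (nat_lit 2855) (.e (nat_lit 7125) (nat_lit 382) (.e (nat_lit 1201) (nat_lit 88) (.e (nat_lit 65586) (nat_lit 7) (.e (nat_lit 319531) (nat_lit 16) (.e (nat_lit 286751) (nat_lit 10) (.e (nat_lit 344161) (nat_lit 37) (.e (nat_lit 647201) (nat_lit 12) (.e (nat_lit 57351) (nat_lit 0) .nil)))))))) (.g (nat_lit 4) .nil .nil))) 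
(.lf (nat_lit 122359) (.g (nat_lit 3095) (.e (nat_lit 7125) (nat_lit 382) (.e (nat_lit 1201) (nat_lit 88) (.e (nat_lit 65610) (nat_lit 10) (.e (nat_lit 344097) (nat_lit 18) (.e (nat_lit 7272) (nat_lit 385) (.e (nat_lit 122917) (nat_lit 15) (.e (nat_lit 368384) (nat_lit 0) .nil))))))) (.g (nat_lit 6) .nil .nil))))) (.nd (nat_lit 4) (.nd (nat_lit 5) 
(.lf (nat_lit 122319) (.g (nat_lit 2309) (.e (nat_lit 7125) (nat_lit 382) (.e (nat_lit 1201) (nat_lit 88) (.e (nat_lit 65571) (nat_lit 3) (.e (nat_lit 98373) (nat_lit 29) (.e (nat_lit 450586) (nat_lit 10) .nil))))) .nil)) 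
(.lf (nat_lit 122351) (.g (nat_lit 2282) (.e (nat_lit 7125) (nat_lit 382) (.e (nat_lit 1201) (nat_lit 88) (.e (nat_lit 65610) (nat_lit 10) (.e (nat_lit 344097) (nat_lit 18) (.e (nat_lit 7270) (nat_lit 385) (.e (nat_lit 122916) (nat_lit 14) (.e (nat_lit 352296) (nat_lit 20) (.e (nat_lit 993) (nat_lit 81) .nil)))))))) (.g (nat_lit 4) .nil .nil)))) (.nd (nat_lit 5) 
(.lf (nat_lit 122335) (.g (nat_lit 681) (.e (nat_lit 7125) (nat_lit 382) (.e (nat_lit 1201) (nat_lit 88) (.e (nat_lit 65589) (nat_lit 9) .nil))) .nil)) 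
(.lf (nat_lit 122367) (.g (nat_lit 1788) (.e (nat_lit 7125) (nat_lit 382) (.e (nat_lit 1201) (nat_lit 88) (.e (nat_lit 65610) (nat_lit 10) (.e (nat_lit 344174) (nat_lit 42) (.e (nat_lit 761868) (nat_lit 5) .nil))))) .nil))))))))

noncomputable def tv1631 : DT := (.nd (nat_lit 0) (.nd (nat_lit 1) (.nd (nat_lit 2) (.nd (nat_lit 3) (.nd (nat_lit 4) (.nd (nat_lit 5) 
(.lf (nat_lit 122368) (.g (nat_lit 1722) (.e (nat_lit 7125) (nat_lit 382) (.e (nat_lit 1201) (nat_lit 88) (.e (nat_lit 65610) (nat_lit 10) (.e (nat_lit 344174) (nat_lit 42) (.e (nat_lit 761869) (nat_lit 5) .nil))))) .nil)) 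
(.lf (nat_lit 122400) (.g (nat_lit 3073) (.e (nat_lit 7125) (nat_lit 382) (.e (nat_lit 1201) (nat_lit 88) (.e (nat_lit 65617) (nat_lit 10) (.e (nat_lit 344096) (nat_lit 18) (.e (nat_lit 7124) (nat_lit 382) (.e (nat_lit 1201) (nat_lit 88) (.e (nat_lit 65617) (nat_lit 10) (.e (nat_lit 344095) (nat_lit 18) .nil)))))))) (.g (nat_lit 5) .nil .nil)))) (.nd (nat_lit 5) 
(.lf (nat_lit 122384) (.g (nat_lit 1309) (.e (nat_lit 7125) (nat_lit 382) (.e (nat_lit 1201) (nat_lit 88) (.e (nat_lit 65617) (nat_lit 10) (.e (nat_lit 344087) (nat_lit 18) .nil)))) .nil)) 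
(.lf (nat_lit 122416) (.g (nat_lit 1317) (.e (nat_lit 7125) (nat_lit 382) (.e (nat_lit 1201) (nat_lit 88) (.e (nat_lit 65619) (nat_lit 10) (.e (nat_lit 344090) (nat_lit 18) .nil)))) .nil)))) (.nd (nat_lit 4) (.nd (nat_lit 5) 
(.lf (nat_lit 122376) (.g (nat_lit 1762) (.e (nat_lit 7125) (nat_lit 382) (.e (nat_lit 1201) (nat_lit 88) (.e (nat_lit 65610) (nat_lit 10) (.e (nat_lit 344177) (nat_lit 43) (.e (nat_lit 770058) (nat_lit 5) .nil))))) .nil)) 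
(.lf (nat_lit 122408) (.g (nat_lit 1501) (.e (nat_lit 7125) (nat_lit 382) (.e (nat_lit 1201) (nat_lit 88) (.e (nat_lit 65617) (nat_lit 10) (.e (nat_lit 344173) (nat_lit 42) .nil)))) .nil))) (.nd (nat_lit 5) 
(.lf (nat_lit 122392) (.g (nat_lit 2478) (.e (nat_lit 7125) (nat_lit 382) (.e (nat_lit 1201) (nat_lit 88) (.e (nat_lit 65617) (nat_lit 10) (.e (nat_lit 344091) (nat_lit 18) (.e (nat_lit 7261) (nat_lit 384) (.e (nat_lit 57412) (nat_lit 12) (.e (nat_lit 336176) (nat_lit 10) (.e (nat_lit 344095) (nat_lit 18) .nil)))))))) (.g (nat_lit 4) .nil .nil))) 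
(.lf (nat_lit 122424) (.g (nat_lit 3250) (.e (nat_lit 7125) (nat_lit 382) (.e (nat_lit 1201) (nat_lit 88) (.e (nat_lit 65625) (nat_lit 13) (.e (nat_lit 393233) (nat_lit 17) (.e (nat_lit 7591) (nat_lit 407) (.e (nat_lit 73731) (nat_lit 0) .nil)))))) (.g (nat_lit 0) .nil .nil)))))) (.nd (nat_lit 3) (.nd (nat_lit 4) (.nd (nat_lit 5) 
(.lf (nat_lit 122372) (.g (nat_lit 995) (.e (nat_lit 7125) (nat_lit 382) (.e (nat_lit 1201) (nat_lit 88) (.e (nat_lit 65610) (nat_lit 10) (.e (nat_lit 344177) (nat_lit 43) .nil)))) .nil)) 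
(.lf (nat_lit 122404) (.g (nat_lit 2157) (.e (nat_lit 7125) (nat_lit 382) (.e (nat_lit 1201) (nat_lit 88) (.e (nat_lit 65617) (nat_lit 10) (.e (nat_lit 344096) (nat_lit 18) (.e (nat_lit 7265) (nat_lit 384) (.e (nat_lit 57424) (nat_lit 14) (.e (nat_lit 352299) (nat_lit 20) (.e (nat_lit 1015) (nat_lit 81) .nil)))))))) (.g (nat_lit 4) .nil .nil)))) (.nd (nat_lit 5) 
(.lf (nat_lit 122388) (.g (nat_lit 1077) (.e (nat_lit 7125) (nat_lit 382) (.e (nat_lit 1201) (nat_lit 88) (.e (nat_lit 65617) (nat_lit 10) (.e (nat_lit 344091) (nat_lit 18) .nil)))) .nil)) 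
(.lf (nat_lit 122420) (.g (nat_lit 662) (.e (nat_lit 7125) (nat_lit 382) (.e (nat_lit 1201) (nat_lit 88) (.e (nat_lit 65620) (nat_lit 10) .nil))) .nil)))) (.nd (nat_lit 4) (.nd (nat_lit 5) 
(.lf (nat_lit 122380) (.g (nat_lit 662) (.e (nat_lit 7125) (nat_lit 382) (.e (nat_lit 1201) (nat_lit 88) (.e (nat_lit 65611) (nat_lit 10) .nil))) .nil)) 
(.lf (nat_lit 122412) (.g (nat_lit 1907) (.e (nat_lit 7125) (nat_lit 382) (.e (nat_lit 1201) (nat_lit 88) (.e (nat_lit 65617) (nat_lit 10) (.e (nat_lit 344177) (nat_lit 43) (.e (nat_lit 770064) (nat_lit 5) .nil))))) .nil))) (.nd (nat_lit 5) 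
(.lf (nat_lit 122396) (.g (nat_lit 2343) (.e (nat_lit 7125) (nat_lit 382) (.e (nat_lit 1201) (nat_lit 88) (.e (nat_lit 65617) (nat_lit 10) (.e (nat_lit 344091) (nat_lit 18) (.e (nat_lit 7265) (nat_lit 384) (.e (nat_lit 57436) (nat_lit 17) (.e (nat_lit 376855) (nat_lit 20) (.e (nat_lit 1009) (nat_lit 81) .nil)))))))) (.g (nat_lit 4) .nil .nil))) 
(.lf (nat_lit 122428) (.g (nat_lit 2557) (.e (nat_lit 7125) (nat_lit 382) (.e (nat_lit 1201) (nat_lit 88) (.e (nat_lit 65625) (nat_lit 13) (.e (nat_lit 393234) (nat_lit 17) (.e (nat_lit 7593) (nat_lit 407) (.e (nat_lit 73730) (nat_lit 0) .nil)))))) (.g (nat_lit 4) .nil .nil))))))) (.nd (nat_lit 2) (.nd (nat_lit 3) (.nd (nat_lit 4) (.nd (nat_lit 5) 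
(.lf (nat_lit 122370) (.g (nat_lit 1314) (.e (nat_lit 7125) (nat_lit 382) (.e (nat_lit 1201) (nat_lit 88) (.e (nat_lit 65610) (nat_lit 10) (.e (nat_lit 344176) (nat_lit 43) .nil)))) .nil)) 
(.lf (nat_lit 122402) (.g (nat_lit 2744) (.e (nat_lit 7125) (nat_lit 382) (.e (nat_lit 1201) (nat_lit 88) (.e (nat_lit 65617) (nat_lit 10) (.e (nat_lit 344096) (nat_lit 18) (.e (nat_lit 7263) (nat_lit 384) (.e (nat_lit 57412) (nat_lit 12) (.e (nat_lit 336176) (nat_lit 10) (.e (nat_lit 344095) (nat_lit 18) .nil)))))))) (.g (nat_lit 4) .nil .nil)))) (.nd (nat_lit 5) 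
(.lf (nat_lit 122386) (.g (nat_lit 1910) (.e (nat_lit 7125) (nat_lit 382) (.e (nat_lit 1201) (nat_lit 88) (.e (nat_lit 65617) (nat_lit 10) (.e (nat_lit 344090) (nat_lit 18) (.e (nat_lit 7125) (nat_lit 382) .nil))))) .nil)) 
(.lf (nat_lit 122418) (.g (nat_lit 2075) (.e (nat_lit 7125) (nat_lit 382) (.e (nat_lit 1201) (nat_lit 88) (.e (nat_lit 65619) (nat_lit 10) (.e (nat_lit 344177) (nat_lit 43) (.e (nat_lit 770058) (nat_lit 5) .nil))))) .nil)))) (.nd (nat_lit 4) (.nd (nat_lit 5) 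
(.lf (nat_lit 122378) (.g (nat_lit 3587) (.e (nat_lit 7125) (nat_lit 382) (.e (nat_lit 1201) (nat_lit 88) (.e (nat_lit 65610) (nat_lit 10) (.e (nat_lit 344177) (nat_lit 43) (.e (nat_lit 770071) (nat_lit 8) (.e (nat_lit 65619) (nat_lit 10) (.e (nat_lit 344090) (nat_lit 18) .nil))))))) (.g (nat_lit 6) .nil .nil))) 
(.lf (nat_lit 122410) (.g (nat_lit 1500) (.e (nat_lit 7125) (nat_lit 382) (.e (nat_lit 1201) (nat_lit 88) (.e (nat_lit 65617) (nat_lit 10) (.e (nat_lit 344176) (nat_lit 43) .nil)))) .nil))) (.nd (nat_lit 5) 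
(.lf (nat_lit 122394) (.g (nat_lit 2575) (.e (nat_lit 7125) (nat_lit 382) (.e (nat_lit 1201) (nat_lit 88) (.e (nat_lit 65617) (nat_lit 10) (.e (nat_lit 344091) (nat_lit 18) (.e (nat_lit 7265) (nat_lit 384) (.e (nat_lit 57412) (nat_lit 12) (.e (nat_lit 336176) (nat_lit 10) (.e (nat_lit 344095) (nat_lit 18) .nil)))))))) (.g (nat_lit 4) .nil .nil))) 
(.lf (nat_lit 122426) (.g (nat_lit 1118) (.e (nat_lit 7125) (nat_lit 382) (.e (nat_lit 1201) (nat_lit 88) (.e (nat_lit 65625) (nat_lit 13) (.e (nat_lit 393234) (nat_lit 17) .nil)))) .nil))))) (.nd (nat_lit 3) (.nd (nat_lit 4) (.nd (nat_lit 5) 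
(.lf (nat_lit 122374) (.g (nat_lit 1683) (.e (nat_lit 7125) (nat_lit 382) (.e (nat_lit 1201) (nat_lit 88) (.e (nat_lit 65610) (nat_lit 10) (.e (nat_lit 344177) (nat_lit 43) (.e (nat_lit 770056) (nat_lit 5) .nil))))) .nil)) 
(.lf (nat_lit 122406) (.g (nat_lit 2517) (.e (nat_lit 7125) (nat_lit 382) (.e (nat_lit 1201) (nat_lit 88) (.e (nat_lit 65617) (nat_lit 10) (.e (nat_lit 344096) (nat_lit 18) (.e (nat_lit 7265) (nat_lit 384) (.e (nat_lit 57436) (nat_lit 17) (.e (nat_lit 376855) (nat_lit 20) (.e (nat_lit 1009) (nat_lit 81) .nil)))))))) (.g (nat_lit 4) .nil .nil)))) (.nd (nat_lit 5) 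
(.lf (nat_lit 122390) (.g (nat_lit 4598) (.e (nat_lit 7125) (nat_lit 382) (.e (nat_lit 1201) (nat_lit 88) (.e (nat_lit 65617) (nat_lit 10) (.e (nat_lit 344091) (nat_lit 18) (.e (nat_lit 7125) (nat_lit 382) (.e (nat_lit 1201) (nat_lit 88) (.e (nat_lit 65617) (nat_lit 10) (.e (nat_lit 344091) (nat_lit 18) .nil)))))))) (.g (nat_lit 0) .nil .nil))) 
(.lf (nat_lit 122422) (.g (nat_lit 2479) (.e (nat_lit 7125) (nat_lit 382) (.e (nat_lit 1201) (nat_lit 88) (.e (nat_lit 65625) (nat_lit 13) (.e (nat_lit 393232) (nat_lit 17) (.e (nat_lit 7591) (nat_lit 407) (.e (nat_lit 73730) (nat_lit 0) .nil)))))) (.g (nat_lit 4) .nil .nil))))) (.nd (nat_lit 4) (.nd (nat_lit 5) 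
(.lf (nat_lit 122382) (.g (nat_lit 638) (.e (nat_lit 7125) (nat_lit 382) (.e (nat_lit 1201) (nat_lit 88) (.e (nat_lit 65616) (nat_lit 10) .nil))) .nil)) 
(.lf (nat_lit 122414) (.g (nat_lit 1647) (.e (nat_lit 7125) (nat_lit 382) (.e (nat_lit 1201) (nat_lit 88) (.e (nat_lit 65617) (nat_lit 10) (.e (nat_lit 344177) (nat_lit 43) (.e (nat_lit 770072) (nat_lit 8) .nil))))) .nil))) (.nd (nat_lit 5) 
(.lf (nat_lit 122398) (.g (nat_lit 1039) (.e (nat_lit 7125) (nat_lit 382) (.e (nat_lit 1201) (nat_lit 88) (.e (nat_lit 65617) (nat_lit 10) (.e (nat_lit 344096) (nat_lit 18) .nil)))) .nil)) 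
(.lf (nat_lit 122430) (.g (nat_lit 1754) (.e (nat_lit 7125) (nat_lit 382) (.e (nat_lit 1201) (nat_lit 88) (.e (nat_lit 65625) (nat_lit 13) (.e (nat_lit 393298) (nat_lit 27) (.e (nat_lit 491560) (nat_lit 10) .nil))))) .nil))))))) (.nd (nat_lit 1) (.nd (nat_lit 2) (.nd (nat_lit 3) (.nd (nat_lit 4) (.nd (nat_lit 5) 
(.lf (nat_lit 122369) (.g (nat_lit 1250) (.e (nat_lit 7125) (nat_lit 382) (.e (nat_lit 1201) (nat_lit 88) (.e (nat_lit 65610) (nat_lit 10) (.e (nat_lit 344175) (nat_lit 43) .nil)))) .nil)) 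
(.lf (nat_lit 122401) (.g (nat_lit 2633) (.e (nat_lit 7125) (nat_lit 382) (.e (nat_lit 1201) (nat_lit 88) (.e (nat_lit 65617) (nat_lit 10) (.e (nat_lit 344096) (nat_lit 18) (.e (nat_lit 7261) (nat_lit 384) (.e (nat_lit 57412) (nat_lit 12) (.e (nat_lit 336176) (nat_lit 10) (.e (nat_lit 344095) (nat_lit 18) .nil)))))))) (.g (nat_lit 4) .nil .nil)))) (.nd (nat_lit 5) 
(.lf (nat_lit 122385) (.g (nat_lit 1500) (.e (nat_lit 7125) (nat_lit 382) (.e (nat_lit 1201) (nat_lit 88) (.e (nat_lit 65617) (nat_lit 10) (.e (nat_lit 344090) (nat_lit 18) .nil)))) .nil)) 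
(.lf (nat_lit 122417) (.g (nat_lit 1838) (.e (nat_lit 7125) (nat_lit 382) (.e (nat_lit 1201) (nat_lit 88) (.e (nat_lit 65619) (nat_lit 10) (.e (nat_lit 344097) (nat_lit 18) (.e (nat_lit 7273) (nat_lit 385) .nil))))) .nil)))) (.nd (nat_lit 4) (.nd (nat_lit 5) 
(.lf (nat_lit 122377) (.g (nat_lit 1714) (.e (nat_lit 7125) (nat_lit 382) (.e (nat_lit 1201) (nat_lit 88) (.e (nat_lit 65610) (nat_lit 10) (.e (nat_lit 344177) (nat_lit 43) (.e (nat_lit 770071) (nat_lit 8) .nil))))) .nil)) 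
(.lf (nat_lit 122409) (.g (nat_lit 1438) (.e (nat_lit 7125) (nat_lit 382) (.e (nat_lit 1201) (nat_lit 88) (.e (nat_lit 65617) (nat_lit 10) (.e (nat_lit 344175) (nat_lit 43) (.e (nat_lit 770055) (nat_lit 5) .nil))))) .nil))) (.nd (nat_lit 5) 
(.lf (nat_lit 122393) (.g (nat_lit 2550) (.e (nat_lit 7125) (nat_lit 382) (.e (nat_lit 1201) (nat_lit 88) (.e (nat_lit 65617) (nat_lit 10) (.e (nat_lit 344091) (nat_lit 18) (.e (nat_lit 7263) (nat_lit 384) (.e (nat_lit 57412) (nat_lit 12) (.e (nat_lit 336176) (nat_lit 10) (.e (nat_lit 344095) (nat_lit 18) .nil)))))))) (.g (nat_lit 4) .nil .nil))) 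
(.lf (nat_lit 122425) (.g (nat_lit 3194) (.e (nat_lit 7125) (nat_lit 382) (.e (nat_lit 1201) (nat_lit 88) (.e (nat_lit 65625) (nat_lit 13) (.e (nat_lit 393233) (nat_lit 17) (.e (nat_lit 7593) (nat_lit 407) (.e (nat_lit 73731) (nat_lit 0) .nil)))))) (.g (nat_lit 0) .nil .nil)))))) (.nd (nat_lit 3) (.nd (nat_lit 4) (.nd (nat_lit 5) 
(.lf (nat_lit 122373) (.g (nat_lit 1663) (.e (nat_lit 7125) (nat_lit 382) (.e (nat_lit 1201) (nat_lit 88) (.e (nat_lit 65610) (nat_lit 10) (.e (nat_lit 344177) (nat_lit 43) (.e (nat_lit 770055) (nat_lit 5) .nil))))) .nil)) 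
(.lf (nat_lit 122405) (.g (nat_lit 2708) (.e (nat_lit 7125) (nat_lit 382) (.e (nat_lit 1201) (nat_lit 88) (.e (nat_lit 65617) (nat_lit 10) (.e (nat_lit 344096) (nat_lit 18) (.e (nat_lit 7265) (nat_lit 384) (.e (nat_lit 57427) (nat_lit 15) (.e (nat_lit 368384) (nat_lit 0) .nil))))))) (.g (nat_lit 5) .nil .nil)))) (.nd (nat_lit 5) 
(.lf (nat_lit 122389) (.g (nat_lit 2920) (.e (nat_lit 7125) (nat_lit 382) (.e (nat_lit 1201) (nat_lit 88) (.e (nat_lit 65617) (nat_lit 10) (.e (nat_lit 344091) (nat_lit 18) (.e (nat_lit 7124) (nat_lit 382) (.e (nat_lit 1201) (nat_lit 88) (.e (nat_lit 65617) (nat_lit 10) (.e (nat_lit 344095) (nat_lit 18) .nil)))))))) (.g (nat_lit 5) .nil .nil))) 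
(.lf (nat_lit 122421) (.g (nat_lit 430) (.e (nat_lit 7125) (nat_lit 382) (.e (nat_lit 1201) (nat_lit 88) (.e (nat_lit 65625) (nat_lit 13) .nil))) .nil)))) (.nd (nat_lit 4) (.nd (nat_lit 5) 
(.lf (nat_lit 122381) (.g (nat_lit 2391) (.e (nat_lit 7125) (nat_lit 382) (.e (nat_lit 1201) (nat_lit 88) (.e (nat_lit 65611) (nat_lit 10) (.e (nat_lit 344177) (nat_lit 43) (.e (nat_lit 770072) (nat_lit 8) (.e (nat_lit 65610) (nat_lit 10) (.e (nat_lit 344090) (nat_lit 18) .nil))))))) (.g (nat_lit 4) .nil .nil))) 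
(.lf (nat_lit 122413) (.g (nat_lit 2531) (.e (nat_lit 7125) (nat_lit 382) (.e (nat_lit 1201) (nat_lit 88) (.e (nat_lit 65617) (nat_lit 10) (.e (nat_lit 344177) (nat_lit 43) (.e (nat_lit 770071) (nat_lit 8) (.e (nat_lit 65617) (nat_lit 10) (.e (nat_lit 344095) (nat_lit 18) .nil))))))) (.g (nat_lit 4) .nil .nil)))) (.nd (nat_lit 5) 
(.lf (nat_lit 122397) (.g (nat_lit 1182) (.e (nat_lit 7125) (nat_lit 382) (.e (nat_lit 1201) (nat_lit 88) (.e (nat_lit 65617) (nat_lit 10) (.e (nat_lit 344095) (nat_lit 18) .nil)))) .nil)) 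
(.lf (nat_lit 122429) (.g (nat_lit 2188) (.e (nat_lit 7125) (nat_lit 382) (.e (nat_lit 1201) (nat_lit 88) (.e (nat_lit 65625) (nat_lit 13) (.e (nat_lit 393298) (nat_lit 27) (.e (nat_lit 491558) (nat_lit 10) .nil))))) .nil)))))) (.nd (nat_lit 2) (.nd (nat_lit 3) (.nd (nat_lit 4) (.nd (nat_lit 5) 
(.lf (nat_lit 122371) (.g (nat_lit 3593) (.e (nat_lit 7125) (nat_lit 382) (.e (nat_lit 1201) (nat_lit 88) (.e (nat_lit 65610) (nat_lit 10) (.e (nat_lit 344176) (nat_lit 43) (.e (nat_lit 770072) (nat_lit 8) (.e (nat_lit 65610) (nat_lit 10) (.e (nat_lit 344090) (nat_lit 18) .nil))))))) (.g (nat_lit 6) .nil .nil))) 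
(.lf (nat_lit 122403) (.g (nat_lit 2736) (.e (nat_lit 7125) (nat_lit 382) (.e (nat_lit 1201) (nat_lit 88) (.e (nat_lit 65617) (nat_lit 10) (.e (nat_lit 344096) (nat_lit 18) (.e (nat_lit 7265) (nat_lit 384) (.e (nat_lit 57412) (nat_lit 12) (.e (nat_lit 336176) (nat_lit 10) (.e (nat_lit 344095) (nat_lit 18) .nil)))))))) (.g (nat_lit 4) .nil .nil)))) (.nd (nat_lit 5) 
(.lf (nat_lit 122387) (.g (nat_lit 1893) (.e (nat_lit 7125) (nat_lit 382) (.e (nat_lit 1201) (nat_lit 88) (.e (nat_lit 65617) (nat_lit 10) (.e (nat_lit 344090) (nat_lit 18) (.e (nat_lit 7266) (nat_lit 384) .nil))))) .nil)) 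
(.lf (nat_lit 122419) (.g (nat_lit 2068) (.e (nat_lit 7125) (nat_lit 382) (.e (nat_lit 1201) (nat_lit 88) (.e (nat_lit 65619) (nat_lit 10) (.e (nat_lit 344177) (nat_lit 43) (.e (nat_lit 770071) (nat_lit 8) .nil))))) .nil)))) (.nd (nat_lit 4) (.nd (nat_lit 5) 
(.lf (nat_lit 122379) (.g (nat_lit 1749) (.e (nat_lit 7125) (nat_lit 382) (.e (nat_lit 1201) (nat_lit 88) (.e (nat_lit 65610) (nat_lit 10) (.e (nat_lit 344177) (nat_lit 43) (.e (nat_lit 770072) (nat_lit 8) .nil))))) .nil)) 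
(.lf (nat_lit 122411) (.g (nat_lit 1091) (.e (nat_lit 7125) (nat_lit 382) (.e (nat_lit 1201) (nat_lit 88) (.e (nat_lit 65617) (nat_lit 10) (.e (nat_lit 344177) (nat_lit 43) .nil)))) .nil))) (.nd (nat_lit 5) 
(.lf (nat_lit 122395) (.g (nat_lit 2536) (.e (nat_lit 7125) (nat_lit 382) (.e (nat_lit 1201) (nat_lit 88) (.e (nat_lit 65617) (nat_lit 10) (.e (nat_lit 344091) (nat_lit 18) (.e (nat_lit 7265) (nat_lit 384) (.e (nat_lit 57427) (nat_lit 15) (.e (nat_lit 368384) (nat_lit 0) .nil))))))) (.g (nat_lit 5) .nil .nil))) 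
(.lf (nat_lit 122427) (.g (nat_lit 2537) (.e (nat_lit 7125) (nat_lit 382) (.e (nat_lit 1201) (nat_lit 88) (.e (nat_lit 65625) (nat_lit 13) (.e (nat_lit 393234) (nat_lit 17) (.e (nat_lit 7591) (nat_lit 407) (.e (nat_lit 73730) (nat_lit 0) .nil)))))) (.g (nat_lit 4) .nil .nil)))))) (.nd (nat_lit 3) (.nd (nat_lit 4) (.nd (nat_lit 5) 
(.lf (nat_lit 122375) (.g (nat_lit 1812) (.e (nat_lit 7125) (nat_lit 382) (.e (nat_lit 1201) (nat_lit 88) (.e (nat_lit 65610) (nat_lit 10) (.e (nat_lit 344177) (nat_lit 43) (.e (nat_lit 770057) (nat_lit 5) .nil))))) .nil)) 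
(.lf (nat_lit 122407) (.g (nat_lit 3787) (.e (nat_lit 7125) (nat_lit 382) (.e (nat_lit 1201) (nat_lit 88) (.e (nat_lit 65617) (nat_lit 10) (.e (nat_lit 344096) (nat_lit 18) (.e (nat_lit 7266) (nat_lit 384) (.e (nat_lit 57427) (nat_lit 15) (.e (nat_lit 360449) (nat_lit 0) .nil))))))) (.g (nat_lit 6) .nil .nil)))) (.nd (nat_lit 5) 
(.lf (nat_lit 122391) (.g (nat_lit 1763) (.e (nat_lit 7125) (nat_lit 382) (.e (nat_lit 1201) (nat_lit 88) (.e (nat_lit 65617) (nat_lit 10) (.e (nat_lit 344091) (nat_lit 18) (.e (nat_lit 7236) (nat_lit 382) .nil))))) .nil)) 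
(.lf (nat_lit 122423) (.g (nat_lit 2267) (.e (nat_lit 7125) (nat_lit 382) (.e (nat_lit 1201) (nat_lit 88) (.e (nat_lit 65625) (nat_lit 13) (.e (nat_lit 393233) (nat_lit 17) (.e (nat_lit 7591) (nat_lit 407) (.e (nat_lit 73730) (nat_lit 0) .nil)))))) (.g (nat_lit 4) .nil .nil))))) (.nd (nat_lit 4) (.nd (nat_lit 5) 
(.lf (nat_lit 122383) (.g (nat_lit 443) (.e (nat_lit 7125) (nat_lit 382) (.e (nat_lit 1201) (nat_lit 88) (.e (nat_lit 65617) (nat_lit 10) .nil))) .nil)) 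
(.lf (nat_lit 122415) (.g (nat_lit 4265) (.e (nat_lit 7125) (nat_lit 382) (.e (nat_lit 1201) (nat_lit 88) (.e (nat_lit 65617) (nat_lit 10) (.e (nat_lit 344177) (nat_lit 43) (.e (nat_lit 770072) (nat_lit 8) (.e (nat_lit 65617) (nat_lit 10) (.e (nat_lit 344091) (nat_lit 18) .nil))))))) (.g (nat_lit 0) .nil .nil)))) (.nd (nat_lit 5) 
(.lf (nat_lit 122399) (.g (nat_lit 4954) (.e (nat_lit 7125) (nat_lit 382) (.e (nat_lit 1201) (nat_lit 88) (.e (nat_lit 65617) (nat_lit 10) (.e (nat_lit 344096) (nat_lit 18) (.e (nat_lit 7122) (nat_lit 382) (.e (nat_lit 1201) (nat_lit 88) (.e (nat_lit 65610) (nat_lit 10) (.e (nat_lit 344090) (nat_lit 18) .nil)))))))) (.g (nat_lit 8) .nil .nil))) 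
(.lf (nat_lit 122431) (.g (nat_lit 1177) (.e (nat_lit 7125) (nat_lit 382) (.e (nat_lit 1201) (nat_lit 88) (.e (nat_lit 65625) (nat_lit 13) (.e (nat_lit 393299) (nat_lit 27) .nil)))) .nil))))))))

noncomputable def tv1632 : DT := (.nd (nat_lit 0) (.nd (nat_lit 1) (.nd (nat_lit 2) (.nd (nat_lit 3) (.nd (nat_lit 4) (.nd (nat_lit 5) 
(.lf (nat_lit 122432) (.g (nat_lit 2057) (.e (nat_lit 7125) (nat_lit 382) (.e (nat_lit 1201) (nat_lit 88) (.e (nat_lit 65625) (nat_lit 13) (.e (nat_lit 393299) (nat_lit 27) (.e (nat_lit 491560) (nat_lit 10) .nil))))) .nil)) 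
(.lf (nat_lit 122464) (.g (nat_lit 2596) (.e (nat_lit 7125) (nat_lit 382) (.e (nat_lit 1214) (nat_lit 89) (.e (nat_lit 73753) (nat_lit 8) (.e (nat_lit 557103) (nat_lit 14) (.e (nat_lit 180224) (nat_lit 0) .nil))))) .nil))) (.nd (nat_lit 5) 
(.lf (nat_lit 122448) (.g (nat_lit 1616) (.e (nat_lit 7125) (nat_lit 382) (.e (nat_lit 1214) (nat_lit 89) (.e (nat_lit 73746) (nat_lit 3) (.e (nat_lit 516131) (nat_lit 3) (.e (nat_lit 221218) (nat_lit 24) .nil))))) .nil)) 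
(.lf (nat_lit 122480) (.g (nat_lit 2912) (.e (nat_lit 7125) (nat_lit 382) (.e (nat_lit 1214) (nat_lit 89) (.e (nat_lit 73754) (nat_lit 8) (.e (nat_lit 557105) (nat_lit 14) (.e (nat_lit 180233) (nat_lit 0) (.e (nat_lit 5902) (nat_lit 320) (.e (nat_lit 1211) (nat_lit 89) (.e (nat_lit 73731) (nat_lit 0) .nil)))))))) (.g (nat_lit 4) .nil .nil))))) (.nd (nat_lit 4) (.nd (nat_lit 5) 
(.lf (nat_lit 122440) (.g (nat_lit 980) (.e (nat_lit 7125) (nat_lit 382) (.e (nat_lit 1201) (nat_lit 88) (.e (nat_lit 65627) (nat_lit 13) (.e (nat_lit 393242) (nat_lit 17) .nil)))) .nil)) 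
(.lf (nat_lit 122472) (.g (nat_lit 2143) (.e (nat_lit 7125) (nat_lit 382) (.e (nat_lit 1214) (nat_lit 89) (.e (nat_lit 73754) (nat_lit 8) (.e (nat_lit 557101) (nat_lit 13) (.e (nat_lit 172070) (nat_lit 4) .nil))))) .nil))) (.nd (nat_lit 5) 
(.lf (nat_lit 122456) (.g (nat_lit 4553) (.e (nat_lit 7125) (nat_lit 382) (.e (nat_lit 1214) (nat_lit 89) (.e (nat_lit 73746) (nat_lit 3) (.e (nat_lit 516166) (nat_lit 12) (.e (nat_lit 450587) (nat_lit 10) (.e (nat_lit 573478) (nat_lit 12) (.e (nat_lit 57351) (nat_lit 0) .nil))))))) (.g (nat_lit 6) .nil .nil))) 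
(.lf (nat_lit 122488) (.g (nat_lit 2816) (.e (nat_lit 7125) (nat_lit 382) (.e (nat_lit 1222) (nat_lit 90) (.e (nat_lit 81925) (nat_lit 11) (.e (nat_lit 426343) (nat_lit 14) (.e (nat_lit 491560) (nat_lit 10) (.e (nat_lit 344090) (nat_lit 18) .nil)))))) (.g (nat_lit 4) .nil .nil)))))) (.nd (nat_lit 3) (.nd (nat_lit 4) (.nd (nat_lit 5) 
(.lf (nat_lit 122436) (.g (nat_lit 414) (.e (nat_lit 7125) (nat_lit 382) (.e (nat_lit 1201) (nat_lit 88) (.e (nat_lit 65627) (nat_lit 13) .nil))) .nil)) 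
(.lf (nat_lit 122468) (.g (nat_lit 2369) (.e (nat_lit 7125) (nat_lit 382) (.e (nat_lit 1214) (nat_lit 89) (.e (nat_lit 73753) (nat_lit 8) (.e (nat_lit 557105) (nat_lit 14) (.e (nat_lit 180264) (nat_lit 21) .nil))))) .nil))) (.nd (nat_lit 5) 
(.lf (nat_lit 122452) (.g (nat_lit 3714) (.e (nat_lit 7125) (nat_lit 382) (.e (nat_lit 1214) (nat_lit 89) (.e (nat_lit 73746) (nat_lit 3) (.e (nat_lit 516165) (nat_lit 12) (.e (nat_lit 450586) (nat_lit 10) (.e (nat_lit 573478) (nat_lit 12) (.e (nat_lit 57353) (nat_lit 0) .nil))))))) (.g (nat_lit 5) .nil .nil))) 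
(.lf (nat_lit 122484) (.g (nat_lit 376) (.e (nat_lit 7125) (nat_lit 382) (.e (nat_lit 1222) (nat_lit 90) (.e (nat_lit 81921) (nat_lit 0) .nil))) .nil)))) (.nd (nat_lit 4) (.nd (nat_lit 5) 
(.lf (nat_lit 122444) (.g (nat_lit 5158) (.e (nat_lit 7125) (nat_lit 382) (.e (nat_lit 1212) (nat_lit 89) (.e (nat_lit 73747) (nat_lit 3) (.e (nat_lit 516166) (nat_lit 12) (.e (nat_lit 450588) (nat_lit 10) (.e (nat_lit 573475) (nat_lit 12) (.e (nat_lit 57348) (nat_lit 0) .nil))))))) (.g (nat_lit 6) .nil .nil))) 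
(.lf (nat_lit 122476) (.g (nat_lit 2526) (.e (nat_lit 7125) (nat_lit 382) (.e (nat_lit 1214) (nat_lit 89) (.e (nat_lit 73754) (nat_lit 8) (.e (nat_lit 557105) (nat_lit 14) (.e (nat_lit 180227) (nat_lit 0) (.e (nat_lit 5814) (nat_lit 320) (.e (nat_lit 1208) (nat_lit 89) (.e (nat_lit 73731) (nat_lit 0) .nil)))))))) (.g (nat_lit 4) .nil .nil)))) (.nd (nat_lit 5) 
(.lf (nat_lit 122460) (.g (nat_lit 2001) (.e (nat_lit 7125) (nat_lit 382) (.e (nat_lit 1214) (nat_lit 89) (.e (nat_lit 73746) (nat_lit 3) (.e (nat_lit 516176) (nat_lit 14) (.e (nat_lit 466967) (nat_lit 20) .nil))))) .nil)) 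
(.lf (nat_lit 122492) (.g (nat_lit 2425) (.e (nat_lit 7125) (nat_lit 382) (.e (nat_lit 1222) (nat_lit 90) (.e (nat_lit 81927) (nat_lit 11) (.e (nat_lit 426011) (nat_lit 0) (.e (nat_lit 7591) (nat_lit 407) (.e (nat_lit 73730) (nat_lit 0) .nil)))))) (.g (nat_lit 5) .nil .nil))))))) (.nd (nat_lit 2) (.nd (nat_lit 3) (.nd (nat_lit 4) (.nd (nat_lit 5) 
(.lf (nat_lit 122434) (.g (nat_lit 647) (.e (nat_lit 7125) (nat_lit 382) (.e (nat_lit 1201) (nat_lit 88) (.e (nat_lit 65626) (nat_lit 13) .nil))) .nil)) 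
(.lf (nat_lit 122466) (.g (nat_lit 1990) (.e (nat_lit 7125) (nat_lit 382) (.e (nat_lit 1214) (nat_lit 89) (.e (nat_lit 73753) (nat_lit 8) (.e (nat_lit 557103) (nat_lit 14) (.e (nat_lit 180263) (nat_lit 21) .nil))))) .nil))) (.nd (nat_lit 5) 
(.lf (nat_lit 122450) (.g (nat_lit 4299) (.e (nat_lit 7125) (nat_lit 382) (.e (nat_lit 1214) (nat_lit 89) (.e (nat_lit 73746) (nat_lit 3) (.e (nat_lit 516165) (nat_lit 12) (.e (nat_lit 450586) (nat_lit 10) (.e (nat_lit 573475) (nat_lit 12) (.e (nat_lit 57351) (nat_lit 0) .nil))))))) (.g (nat_lit 6) .nil .nil))) 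
(.lf (nat_lit 122482) (.g (nat_lit 3387) (.e (nat_lit 7125) (nat_lit 382) (.e (nat_lit 1214) (nat_lit 89) (.e (nat_lit 73754) (nat_lit 8) (.e (nat_lit 557105) (nat_lit 14) (.e (nat_lit 180265) (nat_lit 21) (.e (nat_lit 663568) (nat_lit 5) (.e (nat_lit 73731) (nat_lit 0) .nil))))))) (.g (nat_lit 5) .nil .nil))))) (.nd (nat_lit 4) (.nd (nat_lit 5) 
(.lf (nat_lit 122442) (.g (nat_lit 579) (.e (nat_lit 7125) (nat_lit 382) (.e (nat_lit 1212) (nat_lit 89) (.e (nat_lit 73743) (nat_lit 1) .nil))) .nil)) 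
(.lf (nat_lit 122474) (.g (nat_lit 2037) (.e (nat_lit 7125) (nat_lit 382) (.e (nat_lit 1214) (nat_lit 89) (.e (nat_lit 73754) (nat_lit 8) (.e (nat_lit 557105) (nat_lit 14) (.e (nat_lit 180227) (nat_lit 0) .nil))))) .nil))) (.nd (nat_lit 5) 
(.lf (nat_lit 122458) (.g (nat_lit 4803) (.e (nat_lit 7125) (nat_lit 382) (.e (nat_lit 1214) (nat_lit 89) (.e (nat_lit 73746) (nat_lit 3) (.e (nat_lit 516166) (nat_lit 12) (.e (nat_lit 450588) (nat_lit 10) (.e (nat_lit 573475) (nat_lit 12) (.e (nat_lit 57351) (nat_lit 0) .nil))))))) (.g (nat_lit 6) .nil .nil))) 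
(.lf (nat_lit 122490) (.g (nat_lit 389) (.e (nat_lit 7125) (nat_lit 382) (.e (nat_lit 1222) (nat_lit 90) (.e (nat_lit 81927) (nat_lit 11) .nil))) .nil))))) (.nd (nat_lit 3) (.nd (nat_lit 4) (.nd (nat_lit 5) 
(.lf (nat_lit 122438) (.g (nat_lit 1034) (.e (nat_lit 7125) (nat_lit 382) (.e (nat_lit 1201) (nat_lit 88) (.e (nat_lit 65627) (nat_lit 13) (.e (nat_lit 393237) (nat_lit 17) (.e (nat_lit 7936) (nat_lit 407) .nil))))) .nil)) 
(.lf (nat_lit 122470) (.g (nat_lit 2523) (.e (nat_lit 7125) (nat_lit 382) (.e (nat_lit 1214) (nat_lit 89) (.e (nat_lit 73754) (nat_lit 8) (.e (nat_lit 557100) (nat_lit 13) (.e (nat_lit 172061) (nat_lit 1) .nil))))) .nil))) (.nd (nat_lit 5) 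
(.lf (nat_lit 122454) (.g (nat_lit 5264) (.e (nat_lit 7125) (nat_lit 382) (.e (nat_lit 1214) (nat_lit 89) (.e (nat_lit 73746) (nat_lit 3) (.e (nat_lit 516165) (nat_lit 12) (.e (nat_lit 450588) (nat_lit 10) (.e (nat_lit 573473) (nat_lit 12) (.e (nat_lit 57353) (nat_lit 0) .nil))))))) (.g (nat_lit 6) .nil .nil))) 
(.lf (nat_lit 122486) (.g (nat_lit 646) (.e (nat_lit 7125) (nat_lit 382) (.e (nat_lit 1222) (nat_lit 90) (.e (nat_lit 81925) (nat_lit 11) .nil))) .nil)))) (.nd (nat_lit 4) (.nd (nat_lit 5) 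
(.lf (nat_lit 122446) (.g (nat_lit 458) (.e (nat_lit 7125) (nat_lit 382) (.e (nat_lit 1214) (nat_lit 89) (.e (nat_lit 73746) (nat_lit 3) .nil))) .nil)) 
(.lf (nat_lit 122478) (.g (nat_lit 2602) (.e (nat_lit 7125) (nat_lit 382) (.e (nat_lit 1214) (nat_lit 89) (.e (nat_lit 73754) (nat_lit 8) (.e (nat_lit 557105) (nat_lit 14) (.e (nat_lit 180227) (nat_lit 0) (.e (nat_lit 5849) (nat_lit 320) (.e (nat_lit 1208) (nat_lit 89) (.e (nat_lit 73731) (nat_lit 0) .nil)))))))) (.g (nat_lit 4) .nil .nil)))) (.nd (nat_lit 5) 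
(.lf (nat_lit 122462) (.g (nat_lit 2469) (.e (nat_lit 7125) (nat_lit 382) (.e (nat_lit 1214) (nat_lit 89) (.e (nat_lit 73746) (nat_lit 3) (.e (nat_lit 516176) (nat_lit 14) (.e (nat_lit 466967) (nat_lit 20) (.e (nat_lit 3305) (nat_lit 202) (.e (nat_lit 573477) (nat_lit 12) (.e (nat_lit 57351) (nat_lit 0) .nil)))))))) (.g (nat_lit 4) .nil .nil))) 
(.lf (nat_lit 122494) (.g (nat_lit 3802) (.e (nat_lit 7125) (nat_lit 382) (.e (nat_lit 1222) (nat_lit 90) (.e (nat_lit 81927) (nat_lit 11) (.e (nat_lit 426343) (nat_lit 14) (.e (nat_lit 491558) (nat_lit 10) (.e (nat_lit 344091) (nat_lit 18) .nil)))))) (.g (nat_lit 0) .nil .nil)))))))) (.nd (nat_lit 1) (.nd (nat_lit 2) (.nd (nat_lit 3) (.nd (nat_lit 4) (.nd (nat_lit 5) 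
(.lf (nat_lit 122433) (.g (nat_lit 4046) (.e (nat_lit 7125) (nat_lit 382) (.e (nat_lit 1201) (nat_lit 88) (.e (nat_lit 65625) (nat_lit 13) (.e (nat_lit 393301) (nat_lit 27) (.e (nat_lit 491558) (nat_lit 10) (.e (nat_lit 344091) (nat_lit 18) .nil)))))) (.g (nat_lit 0) .nil .nil))) 
(.lf (nat_lit 122465) (.g (nat_lit 2694) (.e (nat_lit 7125) (nat_lit 382) (.e (nat_lit 1214) (nat_lit 89) (.e (nat_lit 73753) (nat_lit 8) (.e (nat_lit 557103) (nat_lit 14) (.e (nat_lit 180229) (nat_lit 0) (.e (nat_lit 5902) (nat_lit 320) (.e (nat_lit 1211) (nat_lit 89) (.e (nat_lit 73731) (nat_lit 0) .nil)))))))) (.g (nat_lit 4) .nil .nil)))) (.nd (nat_lit 5) 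
(.lf (nat_lit 122449) (.g (nat_lit 2011) (.e (nat_lit 7125) (nat_lit 382) (.e (nat_lit 1214) (nat_lit 89) (.e (nat_lit 73746) (nat_lit 3) (.e (nat_lit 516146) (nat_lit 9) (.e (nat_lit 433920) (nat_lit 10) .nil))))) .nil)) 
(.lf (nat_lit 122481) (.g (nat_lit 2586) (.e (nat_lit 7125) (nat_lit 382) (.e (nat_lit 1214) (nat_lit 89) (.e (nat_lit 73754) (nat_lit 8) (.e (nat_lit 557105) (nat_lit 14) (.e (nat_lit 180264) (nat_lit 21) (.e (nat_lit 663568) (nat_lit 5) (.e (nat_lit 73731) (nat_lit 0) .nil))))))) (.g (nat_lit 4) .nil .nil))))) (.nd (nat_lit 4) (.nd (nat_lit 5) 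
(.lf (nat_lit 122441) (.g (nat_lit 3483) (.e (nat_lit 7125) (nat_lit 382) (.e (nat_lit 1201) (nat_lit 88) (.e (nat_lit 65627) (nat_lit 13) (.e (nat_lit 393301) (nat_lit 27) (.e (nat_lit 491560) (nat_lit 10) (.e (nat_lit 344094) (nat_lit 18) .nil)))))) (.g (nat_lit 0) .nil .nil))) 
(.lf (nat_lit 122473) (.g (nat_lit 2473) (.e (nat_lit 7125) (nat_lit 382) (.e (nat_lit 1214) (nat_lit 89) (.e (nat_lit 73754) (nat_lit 8) (.e (nat_lit 557105) (nat_lit 14) (.e (nat_lit 180224) (nat_lit 0) (.e (nat_lit 5902) (nat_lit 320) (.e (nat_lit 1211) (nat_lit 89) (.e (nat_lit 73731) (nat_lit 0) .nil)))))))) (.g (nat_lit 4) .nil .nil)))) (.nd (nat_lit 5) 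
(.lf (nat_lit 122457) (.g (nat_lit 5023) (.e (nat_lit 7125) (nat_lit 382) (.e (nat_lit 1214) (nat_lit 89) (.e (nat_lit 73746) (nat_lit 3) (.e (nat_lit 516166) (nat_lit 12) (.e (nat_lit 450588) (nat_lit 10) (.e (nat_lit 573473) (nat_lit 12) (.e (nat_lit 57353) (nat_lit 0) .nil))))))) (.g (nat_lit 6) .nil .nil))) 
(.lf (nat_lit 122489) (.g (nat_lit 640) (.e (nat_lit 7125) (nat_lit 382) (.e (nat_lit 1222) (nat_lit 90) (.e (nat_lit 81926) (nat_lit 11) .nil))) .nil))))) (.nd (nat_lit 3) (.nd (nat_lit 4) (.nd (nat_lit 5) 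
(.lf (nat_lit 122437) (.g (nat_lit 1439) (.e (nat_lit 7125) (nat_lit 382) (.e (nat_lit 1201) (nat_lit 88) (.e (nat_lit 65627) (nat_lit 13) (.e (nat_lit 393232) (nat_lit 17) (.e (nat_lit 7936) (nat_lit 407) .nil))))) .nil)) 
(.lf (nat_lit 122469) (.g (nat_lit 1755) (.e (nat_lit 7125) (nat_lit 382) (.e (nat_lit 1214) (nat_lit 89) (.e (nat_lit 73753) (nat_lit 8) (.e (nat_lit 557105) (nat_lit 14) (.e (nat_lit 180265) (nat_lit 21) .nil))))) .nil))) (.nd (nat_lit 5) 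
(.lf (nat_lit 122453) (.g (nat_lit 3169) (.e (nat_lit 7125) (nat_lit 382) (.e (nat_lit 1214) (nat_lit 89) (.e (nat_lit 73746) (nat_lit 3) (.e (nat_lit 516165) (nat_lit 12) (.e (nat_lit 450587) (nat_lit 10) (.e (nat_lit 573478) (nat_lit 12) (.e (nat_lit 57351) (nat_lit 0) .nil))))))) (.g (nat_lit 5) .nil .nil))) 
(.lf (nat_lit 122485) (.g (nat_lit 1483) (.e (nat_lit 7125) (nat_lit 382) (.e (nat_lit 1222) (nat_lit 90) (.e (nat_lit 89856) (nat_lit 10) (.e (nat_lit 417796) (nat_lit 0) (.e (nat_lit 5409) (nat_lit 303) (.e (nat_lit 81664) (nat_lit 0) .nil)))))) (.g (nat_lit 4) .nil .nil))))) (.nd (nat_lit 4) (.nd (nat_lit 5) 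
(.lf (nat_lit 122445) (.g (nat_lit 4946) (.e (nat_lit 7125) (nat_lit 382) (.e (nat_lit 1212) (nat_lit 89) (.e (nat_lit 73747) (nat_lit 3) (.e (nat_lit 516166) (nat_lit 12) (.e (nat_lit 450588) (nat_lit 10) (.e (nat_lit 573475) (nat_lit 12) (.e (nat_lit 57351) (nat_lit 0) .nil))))))) (.g (nat_lit 6) .nil .nil))) 
(.lf (nat_lit 122477) (.g (nat_lit 2637) (.e (nat_lit 7125) (nat_lit 382) (.e (nat_lit 1214) (nat_lit 89) (.e (nat_lit 73754) (nat_lit 8) (.e (nat_lit 557105) (nat_lit 14) (.e (nat_lit 180227) (nat_lit 0) (.e (nat_lit 5839) (nat_lit 320) (.e (nat_lit 1208) (nat_lit 89) (.e (nat_lit 73731) (nat_lit 0) .nil)))))))) (.g (nat_lit 4) .nil .nil)))) (.nd (nat_lit 5) 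
(.lf (nat_lit 122461) (.g (nat_lit 2480) (.e (nat_lit 7125) (nat_lit 382) (.e (nat_lit 1214) (nat_lit 89) (.e (nat_lit 73746) (nat_lit 3) (.e (nat_lit 516176) (nat_lit 14) (.e (nat_lit 466967) (nat_lit 20) (.e (nat_lit 3304) (nat_lit 202) (.e (nat_lit 573477) (nat_lit 12) (.e (nat_lit 57353) (nat_lit 0) .nil)))))))) (.g (nat_lit 4) .nil .nil))) 
(.lf (nat_lit 122493) (.g (nat_lit 1388) (.e (nat_lit 7125) (nat_lit 382) (.e (nat_lit 1222) (nat_lit 90) (.e (nat_lit 81927) (nat_lit 11) (.e (nat_lit 426341) (nat_lit 14) (.e (nat_lit 491558) (nat_lit 10) .nil))))) .nil)))))) (.nd (nat_lit 2) (.nd (nat_lit 3) (.nd (nat_lit 4) (.nd (nat_lit 5) 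
(.lf (nat_lit 122435) (.g (nat_lit 2593) (.e (nat_lit 7125) (nat_lit 382) (.e (nat_lit 1201) (nat_lit 88) (.e (nat_lit 65626) (nat_lit 13) (.e (nat_lit 393300) (nat_lit 27) (.e (nat_lit 491560) (nat_lit 10) (.e (nat_lit 344090) (nat_lit 18) .nil)))))) (.g (nat_lit 4) .nil .nil))) 
(.lf (nat_lit 122467) (.g (nat_lit 2693) (.e (nat_lit 7125) (nat_lit 382) (.e (nat_lit 1214) (nat_lit 89) (.e (nat_lit 73753) (nat_lit 8) (.e (nat_lit 557105) (nat_lit 14) (.e (nat_lit 180224) (nat_lit 0) (.e (nat_lit 5909) (nat_lit 320) (.e (nat_lit 1211) (nat_lit 89) (.e (nat_lit 73731) (nat_lit 0) .nil)))))))) (.g (nat_lit 4) .nil .nil)))) (.nd (nat_lit 5) 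
(.lf (nat_lit 122451) (.g (nat_lit 3762) (.e (nat_lit 7125) (nat_lit 382) (.e (nat_lit 1214) (nat_lit 89) (.e (nat_lit 73746) (nat_lit 3) (.e (nat_lit 516165) (nat_lit 12) (.e (nat_lit 450586) (nat_lit 10) (.e (nat_lit 573478) (nat_lit 12) (.e (nat_lit 57351) (nat_lit 0) .nil))))))) (.g (nat_lit 5) .nil .nil))) 
(.lf (nat_lit 122483) (.g (nat_lit 2701) (.e (nat_lit 7125) (nat_lit 382) (.e (nat_lit 1218) (nat_lit 90) (.e (nat_lit 81950) (nat_lit 21) (.e (nat_lit 57681) (nat_lit 155) (.e (nat_lit 122917) (nat_lit 15) .nil))))) .nil)))) (.nd (nat_lit 4) (.nd (nat_lit 5) 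
(.lf (nat_lit 122443) (.g (nat_lit 4591) (.e (nat_lit 7125) (nat_lit 382) (.e (nat_lit 1212) (nat_lit 89) (.e (nat_lit 73747) (nat_lit 3) (.e (nat_lit 516166) (nat_lit 12) (.e (nat_lit 450587) (nat_lit 10) (.e (nat_lit 573478) (nat_lit 12) (.e (nat_lit 57351) (nat_lit 0) .nil))))))) (.g (nat_lit 6) .nil .nil))) 
(.lf (nat_lit 122475) (.g (nat_lit 2460) (.e (nat_lit 7125) (nat_lit 382) (.e (nat_lit 1214) (nat_lit 89) (.e (nat_lit 73754) (nat_lit 8) (.e (nat_lit 557105) (nat_lit 14) (.e (nat_lit 180227) (nat_lit 0) (.e (nat_lit 5796) (nat_lit 320) (.e (nat_lit 1208) (nat_lit 89) (.e (nat_lit 73731) (nat_lit 0) .nil)))))))) (.g (nat_lit 4) .nil .nil)))) (.nd (nat_lit 5) 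
(.lf (nat_lit 122459) (.g (nat_lit 2040) (.e (nat_lit 7125) (nat_lit 382) (.e (nat_lit 1214) (nat_lit 89) (.e (nat_lit 73746) (nat_lit 3) (.e (nat_lit 516174) (nat_lit 14) (.e (nat_lit 466967) (nat_lit 20) .nil))))) .nil)) 
(.lf (nat_lit 122491) (.g (nat_lit 649) (.e (nat_lit 7125) (nat_lit 382) (.e (nat_lit 1222) (nat_lit 90) (.e (nat_lit 81927) (nat_lit 11) (.e (nat_lit 426003) (nat_lit 0) .nil)))) .nil))))) (.nd (nat_lit 3) (.nd (nat_lit 4) (.nd (nat_lit 5) 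
(.lf (nat_lit 122439) (.g (nat_lit 980) (.e (nat_lit 7125) (nat_lit 382) (.e (nat_lit 1201) (nat_lit 88) (.e (nat_lit 65627) (nat_lit 13) (.e (nat_lit 393240) (nat_lit 17) .nil)))) .nil)) 
(.lf (nat_lit 122471) (.g (nat_lit 2204) (.e (nat_lit 7125) (nat_lit 382) (.e (nat_lit 1214) (nat_lit 89) (.e (nat_lit 73754) (nat_lit 8) (.e (nat_lit 557101) (nat_lit 13) (.e (nat_lit 172061) (nat_lit 1) .nil))))) .nil))) (.nd (nat_lit 5) 
(.lf (nat_lit 122455) (.g (nat_lit 4908) (.e (nat_lit 7125) (nat_lit 382) (.e (nat_lit 1214) (nat_lit 89) (.e (nat_lit 73746) (nat_lit 3) (.e (nat_lit 516165) (nat_lit 12) (.e (nat_lit 450588) (nat_lit 10) (.e (nat_lit 573475) (nat_lit 12) (.e (nat_lit 57351) (nat_lit 0) .nil))))))) (.g (nat_lit 6) .nil .nil))) 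
(.lf (nat_lit 122487) (.g (nat_lit 2883) (.e (nat_lit 7125) (nat_lit 382) (.e (nat_lit 1222) (nat_lit 90) (.e (nat_lit 81925) (nat_lit 11) (.e (nat_lit 426343) (nat_lit 14) (.e (nat_lit 491558) (nat_lit 10) (.e (nat_lit 344091) (nat_lit 18) .nil)))))) (.g (nat_lit 4) .nil .nil))))) (.nd (nat_lit 4) (.nd (nat_lit 5) 
(.lf (nat_lit 122447) (.g (nat_lit 1866) (.e (nat_lit 7125) (nat_lit 382) (.e (nat_lit 1214) (nat_lit 89) (.e (nat_lit 73746) (nat_lit 3) (.e (nat_lit 516129) (nat_lit 3) (.e (nat_lit 229120) (nat_lit 1) .nil))))) .nil)) 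
(.lf (nat_lit 122479) (.g (nat_lit 2614) (.e (nat_lit 7125) (nat_lit 382) (.e (nat_lit 1214) (nat_lit 89) (.e (nat_lit 73754) (nat_lit 8) (.e (nat_lit 557105) (nat_lit 14) (.e (nat_lit 180230) (nat_lit 0) (.e (nat_lit 5902) (nat_lit 320) (.e (nat_lit 1211) (nat_lit 89) (.e (nat_lit 73731) (nat_lit 0) .nil)))))))) (.g (nat_lit 4) .nil .nil)))) (.nd (nat_lit 5) 
(.lf (nat_lit 122463) (.g (nat_lit 2355) (.e (nat_lit 7125) (nat_lit 382) (.e (nat_lit 1214) (nat_lit 89) (.e (nat_lit 73753) (nat_lit 8) (.e (nat_lit 557098) (nat_lit 13) (.e (nat_lit 172061) (nat_lit 1) .nil))))) .nil)) 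
(.lf (nat_lit 122495) (.g (nat_lit 640) (.e (nat_lit 7125) (nat_lit 382) (.e (nat_lit 1222) (nat_lit 90) (.e (nat_lit 81929) (nat_lit 20) .nil))) .nil))))))))

noncomputable def tv1633 : DT := (.nd (nat_lit 0) (.nd (nat_lit 1) (.nd (nat_lit 2) (.nd (nat_lit 3) (.nd (nat_lit 4) (.nd (nat_lit 5) 
(.lf (nat_lit 122496) (.g (nat_lit 2696) (.e (nat_lit 7125) (nat_lit 382) (.e (nat_lit 1222) (nat_lit 90) (.e (nat_lit 81938) (nat_lit 20) (.e (nat_lit 2281) (nat_lit 150) (.e (nat_lit 770072) (nat_lit 8) (.e (nat_lit 65619) (nat_lit 10) (.e (nat_lit 344090) (nat_lit 18) .nil))))))) (.g (nat_lit 4) .nil .nil))) 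
(.lf (nat_lit 122528) (.g (nat_lit 415) (.e (nat_lit 7125) (nat_lit 382) (.e (nat_lit 1224) (nat_lit 90) (.e (nat_lit 81926) (nat_lit 11) .nil))) .nil))) (.nd (nat_lit 5) 
(.lf (nat_lit 122512) (.g (nat_lit 3253) (.e (nat_lit 7125) (nat_lit 382) (.e (nat_lit 1222) (nat_lit 90) (.e (nat_lit 81963) (nat_lit 26) (.e (nat_lit 147495) (nat_lit 11) (.e (nat_lit 24640) (nat_lit 10) (.e (nat_lit 344094) (nat_lit 18) .nil)))))) (.g (nat_lit 5) .nil .nil))) 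
(.lf (nat_lit 122544) (.g (nat_lit 1838) (.e (nat_lit 7125) (nat_lit 382) (.e (nat_lit 1224) (nat_lit 90) (.e (nat_lit 81965) (nat_lit 26) (.e (nat_lit 147495) (nat_lit 11) (.e (nat_lit 24641) (nat_lit 10) .nil))))) .nil)))) (.nd (nat_lit 4) (.nd (nat_lit 5) 
(.lf (nat_lit 122504) (.g (nat_lit 395) (.e (nat_lit 7125) (nat_lit 382) (.e (nat_lit 1222) (nat_lit 90) (.e (nat_lit 81948) (nat_lit 21) .nil))) .nil)) 
(.lf (nat_lit 122536) (.g (nat_lit 2466) (.e (nat_lit 7125) (nat_lit 382) (.e (nat_lit 1224) (nat_lit 90) (.e (nat_lit 81947) (nat_lit 20) (.e (nat_lit 2270) (nat_lit 149) (.e (nat_lit 761867) (nat_lit 5) (.e (nat_lit 1597) (nat_lit 111) (.e (nat_lit 360449) (nat_lit 0) .nil))))))) (.g (nat_lit 4) .nil .nil)))) (.nd (nat_lit 5) 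
(.lf (nat_lit 122520) (.g (nat_lit 1660) (.e (nat_lit 7125) (nat_lit 382) (.e (nat_lit 1223) (nat_lit 90) (.e (nat_lit 81965) (nat_lit 26) (.e (nat_lit 147495) (nat_lit 11) (.e (nat_lit 24641) (nat_lit 10) .nil))))) .nil)) 
(.lf (nat_lit 122552) (.g (nat_lit 3672) (.e (nat_lit 7125) (nat_lit 382) (.e (nat_lit 1296) (nat_lit 96) (.e (nat_lit 131098) (nat_lit 3) (.e (nat_lit 98373) (nat_lit 29) (.e (nat_lit 450587) (nat_lit 10) (.e (nat_lit 573478) (nat_lit 12) (.e (nat_lit 57353) (nat_lit 0) .nil))))))) (.g (nat_lit 6) .nil .nil)))))) (.nd (nat_lit 3) (.nd (nat_lit 4) (.nd (nat_lit 5) 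
(.lf (nat_lit 122500) (.g (nat_lit 2817) (.e (nat_lit 7125) (nat_lit 382) (.e (nat_lit 1222) (nat_lit 90) (.e (nat_lit 81943) (nat_lit 20) (.e (nat_lit 2281) (nat_lit 150) (.e (nat_lit 770072) (nat_lit 8) (.e (nat_lit 65617) (nat_lit 10) (.e (nat_lit 344095) (nat_lit 18) .nil))))))) (.g (nat_lit 5) .nil .nil))) 
(.lf (nat_lit 122532) (.g (nat_lit 2190) (.e (nat_lit 7125) (nat_lit 382) (.e (nat_lit 1224) (nat_lit 90) (.e (nat_lit 81946) (nat_lit 20) (.e (nat_lit 2280) (nat_lit 150) (.e (nat_lit 770072) (nat_lit 8) (.e (nat_lit 65617) (nat_lit 10) (.e (nat_lit 344095) (nat_lit 18) .nil))))))) (.g (nat_lit 4) .nil .nil)))) (.nd (nat_lit 5) 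
(.lf (nat_lit 122516) (.g (nat_lit 3382) (.e (nat_lit 7125) (nat_lit 382) (.e (nat_lit 1222) (nat_lit 90) (.e (nat_lit 81965) (nat_lit 26) (.e (nat_lit 147495) (nat_lit 11) (.e (nat_lit 24640) (nat_lit 10) (.e (nat_lit 344090) (nat_lit 18) .nil)))))) (.g (nat_lit 5) .nil .nil))) 
(.lf (nat_lit 122548) (.g (nat_lit 4979) (.e (nat_lit 7125) (nat_lit 382) (.e (nat_lit 1296) (nat_lit 96) (.e (nat_lit 131096) (nat_lit 3) (.e (nat_lit 98373) (nat_lit 29) (.e (nat_lit 450588) (nat_lit 10) (.e (nat_lit 573475) (nat_lit 12) (.e (nat_lit 57347) (nat_lit 0) .nil))))))) (.g (nat_lit 0) .nil .nil))))) (.nd (nat_lit 4) (.nd (nat_lit 5) 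
(.lf (nat_lit 122508) (.g (nat_lit 640) (.e (nat_lit 7125) (nat_lit 382) (.e (nat_lit 1222) (nat_lit 90) (.e (nat_lit 81949) (nat_lit 21) .nil))) .nil)) 
(.lf (nat_lit 122540) (.g (nat_lit 2984) (.e (nat_lit 7125) (nat_lit 382) (.e (nat_lit 1224) (nat_lit 90) (.e (nat_lit 81963) (nat_lit 26) (.e (nat_lit 147495) (nat_lit 11) (.e (nat_lit 24640) (nat_lit 10) (.e (nat_lit 344094) (nat_lit 18) .nil)))))) (.g (nat_lit 5) .nil .nil)))) (.nd (nat_lit 5) 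
(.lf (nat_lit 122524) (.g (nat_lit 2737) (.e (nat_lit 7125) (nat_lit 382) (.e (nat_lit 1224) (nat_lit 90) (.e (nat_lit 81925) (nat_lit 11) (.e (nat_lit 426341) (nat_lit 14) (.e (nat_lit 491560) (nat_lit 10) (.e (nat_lit 344094) (nat_lit 18) .nil)))))) (.g (nat_lit 5) .nil .nil))) 
(.lf (nat_lit 122556) (.g (nat_lit 297) (.e (nat_lit 7125) (nat_lit 382) (.e (nat_lit 1296) (nat_lit 96) (.e (nat_lit 131109) (nat_lit 9) .nil))) .nil)))))) (.nd (nat_lit 2) (.nd (nat_lit 3) (.nd (nat_lit 4) (.nd (nat_lit 5) 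
(.lf (nat_lit 122498) (.g (nat_lit 1581) (.e (nat_lit 7125) (nat_lit 382) (.e (nat_lit 1222) (nat_lit 90) (.e (nat_lit 81943) (nat_lit 20) (.e (nat_lit 2270) (nat_lit 149) (.e (nat_lit 761868) (nat_lit 5) .nil))))) .nil)) 
(.lf (nat_lit 122530) (.g (nat_lit 2211) (.e (nat_lit 7125) (nat_lit 382) (.e (nat_lit 1224) (nat_lit 90) (.e (nat_lit 81946) (nat_lit 20) (.e (nat_lit 2280) (nat_lit 150) (.e (nat_lit 770071) (nat_lit 8) (.e (nat_lit 65617) (nat_lit 10) (.e (nat_lit 344095) (nat_lit 18) .nil))))))) (.g (nat_lit 4) .nil .nil)))) (.nd (nat_lit 5) 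
(.lf (nat_lit 122514) (.g (nat_lit 579) (.e (nat_lit 7125) (nat_lit 382) (.e (nat_lit 1222) (nat_lit 90) (.e (nat_lit 81965) (nat_lit 26) .nil))) .nil)) 
(.lf (nat_lit 122546) (.g (nat_lit 4018) (.e (nat_lit 7125) (nat_lit 382) (.e (nat_lit 1296) (nat_lit 96) (.e (nat_lit 131093) (nat_lit 2) (.e (nat_lit 90170) (nat_lit 13) (.e (nat_lit 172106) (nat_lit 10) (.e (nat_lit 434244) (nat_lit 28) (.e (nat_lit 573474) (nat_lit 12) (.e (nat_lit 57351) (nat_lit 0) .nil)))))))) (.g (nat_lit 7) .nil .nil))))) (.nd (nat_lit 4) (.nd (nat_lit 5) 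
(.lf (nat_lit 122506) (.g (nat_lit 2199) (.e (nat_lit 7125) (nat_lit 382) (.e (nat_lit 1222) (nat_lit 90) (.e (nat_lit 81948) (nat_lit 21) (.e (nat_lit 57683) (nat_lit 155) (.e (nat_lit 122917) (nat_lit 15) (.e (nat_lit 368384) (nat_lit 0) .nil)))))) (.g (nat_lit 5) .nil .nil))) 
(.lf (nat_lit 122538) (.g (nat_lit 645) (.e (nat_lit 7125) (nat_lit 382) (.e (nat_lit 1224) (nat_lit 90) (.e (nat_lit 81947) (nat_lit 20) (.e (nat_lit 2281) (nat_lit 150) .nil)))) .nil))) (.nd (nat_lit 5) 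
(.lf (nat_lit 122522) (.g (nat_lit 2057) (.e (nat_lit 7125) (nat_lit 382) (.e (nat_lit 1224) (nat_lit 90) (.e (nat_lit 81925) (nat_lit 11) (.e (nat_lit 426012) (nat_lit 0) (.e (nat_lit 7591) (nat_lit 407) (.e (nat_lit 73730) (nat_lit 0) .nil)))))) (.g (nat_lit 4) .nil .nil))) 
(.lf (nat_lit 122554) (.g (nat_lit 926) (.e (nat_lit 7125) (nat_lit 382) (.e (nat_lit 1296) (nat_lit 96) (.e (nat_lit 131105) (nat_lit 9) (.e (nat_lit 336421) (nat_lit 28) (.e (nat_lit 442112) (nat_lit 5) .nil))))) .nil))))) (.nd (nat_lit 3) (.nd (nat_lit 4) (.nd (nat_lit 5) 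
(.lf (nat_lit 122502) (.g (nat_lit 640) (.e (nat_lit 7125) (nat_lit 382) (.e (nat_lit 1222) (nat_lit 90) (.e (nat_lit 81947) (nat_lit 20) .nil))) .nil)) 
(.lf (nat_lit 122534) (.g (nat_lit 1766) (.e (nat_lit 7125) (nat_lit 382) (.e (nat_lit 1224) (nat_lit 90) (.e (nat_lit 81947) (nat_lit 20) (.e (nat_lit 2270) (nat_lit 149) (.e (nat_lit 761866) (nat_lit 5) .nil))))) .nil))) (.nd (nat_lit 5) 
(.lf (nat_lit 122518) (.g (nat_lit 3319) (.e (nat_lit 7125) (nat_lit 382) (.e (nat_lit 1222) (nat_lit 90) (.e (nat_lit 81965) (nat_lit 26) (.e (nat_lit 147496) (nat_lit 11) (.e (nat_lit 24640) (nat_lit 10) (.e (nat_lit 344090) (nat_lit 18) .nil)))))) (.g (nat_lit 5) .nil .nil))) 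
(.lf (nat_lit 122550) (.g (nat_lit 5034) (.e (nat_lit 7125) (nat_lit 382) (.e (nat_lit 1296) (nat_lit 96) (.e (nat_lit 131097) (nat_lit 3) (.e (nat_lit 98373) (nat_lit 29) (.e (nat_lit 450588) (nat_lit 10) (.e (nat_lit 573475) (nat_lit 12) (.e (nat_lit 57348) (nat_lit 0) .nil))))))) (.g (nat_lit 6) .nil .nil))))) (.nd (nat_lit 4) (.nd (nat_lit 5) 
(.lf (nat_lit 122510) (.g (nat_lit 1299) (.e (nat_lit 7125) (nat_lit 382) (.e (nat_lit 1222) (nat_lit 90) (.e (nat_lit 81950) (nat_lit 21) (.e (nat_lit 57684) (nat_lit 155) .nil)))) .nil)) 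
(.lf (nat_lit 122542) (.g (nat_lit 410) (.e (nat_lit 7125) (nat_lit 382) (.e (nat_lit 1224) (nat_lit 90) (.e (nat_lit 81965) (nat_lit 26) .nil))) .nil))) (.nd (nat_lit 5) 
(.lf (nat_lit 122526) (.g (nat_lit 3717) (.e (nat_lit 7125) (nat_lit 382) (.e (nat_lit 1224) (nat_lit 90) (.e (nat_lit 81925) (nat_lit 11) (.e (nat_lit 426343) (nat_lit 14) (.e (nat_lit 491558) (nat_lit 10) (.e (nat_lit 344091) (nat_lit 18) .nil)))))) (.g (nat_lit 0) .nil .nil))) 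
(.lf (nat_lit 122558) (.g (nat_lit 770) (.e (nat_lit 7125) (nat_lit 382) (.e (nat_lit 1296) (nat_lit 96) (.e (nat_lit 131128) (nat_lit 13) (.e (nat_lit 393232) (nat_lit 17) .nil)))) .nil))))))) (.nd (nat_lit 1) (.nd (nat_lit 2) (.nd (nat_lit 3) (.nd (nat_lit 4) (.nd (nat_lit 5) 
(.lf (nat_lit 122497) (.g (nat_lit 403) (.e (nat_lit 7125) (nat_lit 382) (.e (nat_lit 1222) (nat_lit 90) (.e (nat_lit 81943) (nat_lit 20) .nil))) .nil)) 
(.lf (nat_lit 122529) (.g (nat_lit 836) (.e (nat_lit 7125) (nat_lit 382) (.e (nat_lit 1224) (nat_lit 90) (.e (nat_lit 81946) (nat_lit 20) (.e (nat_lit 2280) (nat_lit 150) .nil)))) .nil))) (.nd (nat_lit 5) 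
(.lf (nat_lit 122513) (.g (nat_lit 3198) (.e (nat_lit 7125) (nat_lit 382) (.e (nat_lit 1222) (nat_lit 90) (.e (nat_lit 81963) (nat_lit 26) (.e (nat_lit 147496) (nat_lit 11) (.e (nat_lit 24640) (nat_lit 10) (.e (nat_lit 344094) (nat_lit 18) .nil)))))) (.g (nat_lit 5) .nil .nil))) 
(.lf (nat_lit 122545) (.g (nat_lit 4066) (.e (nat_lit 7125) (nat_lit 382) (.e (nat_lit 1296) (nat_lit 96) (.e (nat_lit 131093) (nat_lit 2) (.e (nat_lit 90170) (nat_lit 13) (.e (nat_lit 172106) (nat_lit 10) (.e (nat_lit 434244) (nat_lit 28) (.e (nat_lit 573473) (nat_lit 12) (.e (nat_lit 57353) (nat_lit 0) .nil)))))))) (.g (nat_lit 7) .nil .nil))))) (.nd (nat_lit 4) (.nd (nat_lit 5) 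
(.lf (nat_lit 122505) (.g (nat_lit 1205) (.e (nat_lit 7125) (nat_lit 382) (.e (nat_lit 1222) (nat_lit 90) (.e (nat_lit 81948) (nat_lit 21) (.e (nat_lit 57666) (nat_lit 152) .nil)))) .nil)) 
(.lf (nat_lit 122537) (.g (nat_lit 1736) (.e (nat_lit 7125) (nat_lit 382) (.e (nat_lit 1224) (nat_lit 90) (.e (nat_lit 81947) (nat_lit 20) (.e (nat_lit 2270) (nat_lit 149) (.e (nat_lit 761868) (nat_lit 5) .nil))))) .nil))) (.nd (nat_lit 5) 
(.lf (nat_lit 122521) (.g (nat_lit 312) (.e (nat_lit 7125) (nat_lit 382) (.e (nat_lit 1224) (nat_lit 90) (.e (nat_lit 81925) (nat_lit 11) .nil))) .nil)) 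
(.lf (nat_lit 122553) (.g (nat_lit 4424) (.e (nat_lit 7125) (nat_lit 382) (.e (nat_lit 1296) (nat_lit 96) (.e (nat_lit 131098) (nat_lit 3) (.e (nat_lit 98373) (nat_lit 29) (.e (nat_lit 450588) (nat_lit 10) (.e (nat_lit 573475) (nat_lit 12) (.e (nat_lit 57351) (nat_lit 0) .nil))))))) (.g (nat_lit 7) .nil .nil)))))) (.nd (nat_lit 3) (.nd (nat_lit 4) (.nd (nat_lit 5) 
(.lf (nat_lit 122501) (.g (nat_lit 1866) (.e (nat_lit 7125) (nat_lit 382) (.e (nat_lit 1222) (nat_lit 90) (.e (nat_lit 81946) (nat_lit 20) (.e (nat_lit 2270) (nat_lit 149) (.e (nat_lit 761868) (nat_lit 5) .nil))))) .nil)) 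
(.lf (nat_lit 122533) (.g (nat_lit 848) (.e (nat_lit 7125) (nat_lit 382) (.e (nat_lit 1224) (nat_lit 90) (.e (nat_lit 81946) (nat_lit 20) (.e (nat_lit 2281) (nat_lit 150) .nil)))) .nil))) (.nd (nat_lit 5) 
(.lf (nat_lit 122517) (.g (nat_lit 1993) (.e (nat_lit 7125) (nat_lit 382) (.e (nat_lit 1222) (nat_lit 90) (.e (nat_lit 81965) (nat_lit 26) (.e (nat_lit 147495) (nat_lit 11) (.e (nat_lit 24641) (nat_lit 10) .nil))))) .nil)) 
(.lf (nat_lit 122549) (.g (nat_lit 2234) (.e (nat_lit 7125) (nat_lit 382) (.e (nat_lit 1296) (nat_lit 96) (.e (nat_lit 131097) (nat_lit 3) (.e (nat_lit 98372) (nat_lit 29) (.e (nat_lit 450586) (nat_lit 10) (.e (nat_lit 573477) (nat_lit 12) (.e (nat_lit 57353) (nat_lit 0) .nil))))))) (.g (nat_lit 5) .nil .nil))))) (.nd (nat_lit 4) (.nd (nat_lit 5) 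
(.lf (nat_lit 122509) (.g (nat_lit 3658) (.e (nat_lit 7125) (nat_lit 382) (.e (nat_lit 1222) (nat_lit 90) (.e (nat_lit 81950) (nat_lit 21) (.e (nat_lit 57681) (nat_lit 155) (.e (nat_lit 122917) (nat_lit 15) (.e (nat_lit 360449) (nat_lit 0) .nil)))))) (.g (nat_lit 4) .nil .nil))) 
(.lf (nat_lit 122541) (.g (nat_lit 2939) (.e (nat_lit 7125) (nat_lit 382) (.e (nat_lit 1224) (nat_lit 90) (.e (nat_lit 81963) (nat_lit 26) (.e (nat_lit 147496) (nat_lit 11) (.e (nat_lit 24640) (nat_lit 10) (.e (nat_lit 344094) (nat_lit 18) .nil)))))) (.g (nat_lit 5) .nil .nil)))) (.nd (nat_lit 5) 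
(.lf (nat_lit 122525) (.g (nat_lit 3000) (.e (nat_lit 7125) (nat_lit 382) (.e (nat_lit 1224) (nat_lit 90) (.e (nat_lit 81925) (nat_lit 11) (.e (nat_lit 426342) (nat_lit 14) (.e (nat_lit 491560) (nat_lit 10) (.e (nat_lit 344091) (nat_lit 18) .nil)))))) (.g (nat_lit 6) .nil .nil))) 
(.lf (nat_lit 122557) (.g (nat_lit 3570) (.e (nat_lit 7125) (nat_lit 382) (.e (nat_lit 1296) (nat_lit 96) (.e (nat_lit 131125) (nat_lit 13) (.e (nat_lit 393301) (nat_lit 27) (.e (nat_lit 491558) (nat_lit 10) (.e (nat_lit 344091) (nat_lit 18) .nil)))))) (.g (nat_lit 0) .nil .nil))))))) (.nd (nat_lit 2) (.nd (nat_lit 3) (.nd (nat_lit 4) (.nd (nat_lit 5) 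
(.lf (nat_lit 122499) (.g (nat_lit 869) (.e (nat_lit 7125) (nat_lit 382) (.e (nat_lit 1222) (nat_lit 90) (.e (nat_lit 81943) (nat_lit 20) (.e (nat_lit 2281) (nat_lit 150) .nil)))) .nil)) 
(.lf (nat_lit 122531) (.g (nat_lit 3561) (.e (nat_lit 7125) (nat_lit 382) (.e (nat_lit 1224) (nat_lit 90) (.e (nat_lit 81946) (nat_lit 20) (.e (nat_lit 2280) (nat_lit 150) (.e (nat_lit 770071) (nat_lit 8) (.e (nat_lit 65619) (nat_lit 10) (.e (nat_lit 344090) (nat_lit 18) .nil))))))) (.g (nat_lit 7) .nil .nil)))) (.nd (nat_lit 5) 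
(.lf (nat_lit 122515) (.g (nat_lit 1769) (.e (nat_lit 7125) (nat_lit 382) (.e (nat_lit 1222) (nat_lit 90) (.e (nat_lit 81965) (nat_lit 26) (.e (nat_lit 147463) (nat_lit 9) (.e (nat_lit 321) (nat_lit 24) .nil))))) .nil)) 
(.lf (nat_lit 122547) (.g (nat_lit 4328) (.e (nat_lit 7125) (nat_lit 382) (.e (nat_lit 1296) (nat_lit 96) (.e (nat_lit 131093) (nat_lit 2) (.e (nat_lit 90170) (nat_lit 13) (.e (nat_lit 172113) (nat_lit 10) (.e (nat_lit 434248) (nat_lit 28) (.e (nat_lit 573475) (nat_lit 12) (.e (nat_lit 57353) (nat_lit 0) .nil)))))))) (.g (nat_lit 7) .nil .nil))))) (.nd (nat_lit 4) (.nd (nat_lit 5) 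
(.lf (nat_lit 122507) (.g (nat_lit 1939) (.e (nat_lit 7125) (nat_lit 382) (.e (nat_lit 1222) (nat_lit 90) (.e (nat_lit 81948) (nat_lit 21) (.e (nat_lit 57683) (nat_lit 155) (.e (nat_lit 122919) (nat_lit 15) (.e (nat_lit 368384) (nat_lit 0) .nil)))))) (.g (nat_lit 4) .nil .nil))) 
(.lf (nat_lit 122539) (.g (nat_lit 278) (.e (nat_lit 7125) (nat_lit 382) (.e (nat_lit 1224) (nat_lit 90) (.e (nat_lit 81963) (nat_lit 26) .nil))) .nil))) (.nd (nat_lit 5) 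
(.lf (nat_lit 122523) (.g (nat_lit 2058) (.e (nat_lit 7125) (nat_lit 382) (.e (nat_lit 1224) (nat_lit 90) (.e (nat_lit 81925) (nat_lit 11) (.e (nat_lit 426012) (nat_lit 0) (.e (nat_lit 7593) (nat_lit 407) (.e (nat_lit 73730) (nat_lit 0) .nil)))))) (.g (nat_lit 4) .nil .nil))) 
(.lf (nat_lit 122555) (.g (nat_lit 620) (.e (nat_lit 7125) (nat_lit 382) (.e (nat_lit 1296) (nat_lit 96) (.e (nat_lit 131106) (nat_lit 9) .nil))) .nil))))) (.nd (nat_lit 3) (.nd (nat_lit 4) (.nd (nat_lit 5) 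
(.lf (nat_lit 122503) (.g (nat_lit 2666) (.e (nat_lit 7125) (nat_lit 382) (.e (nat_lit 1222) (nat_lit 90) (.e (nat_lit 81947) (nat_lit 20) (.e (nat_lit 2270) (nat_lit 149) (.e (nat_lit 761868) (nat_lit 5) (.e (nat_lit 1597) (nat_lit 111) (.e (nat_lit 360449) (nat_lit 0) .nil))))))) (.g (nat_lit 4) .nil .nil))) 
(.lf (nat_lit 122535) (.g (nat_lit 1869) (.e (nat_lit 7125) (nat_lit 382) (.e (nat_lit 1224) (nat_lit 90) (.e (nat_lit 81947) (nat_lit 20) (.e (nat_lit 2270) (nat_lit 149) (.e (nat_lit 761867) (nat_lit 5) .nil))))) .nil))) (.nd (nat_lit 5) 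
(.lf (nat_lit 122519) (.g (nat_lit 201) (.e (nat_lit 7125) (nat_lit 382) (.e (nat_lit 1223) (nat_lit 90) (.e (nat_lit 81965) (nat_lit 26) .nil))) .nil)) 
(.lf (nat_lit 122551) (.g (nat_lit 3665) (.e (nat_lit 7125) (nat_lit 382) (.e (nat_lit 1296) (nat_lit 96) (.e (nat_lit 131098) (nat_lit 3) (.e (nat_lit 98373) (nat_lit 29) (.e (nat_lit 450587) (nat_lit 10) (.e (nat_lit 573478) (nat_lit 12) (.e (nat_lit 57351) (nat_lit 0) .nil))))))) (.g (nat_lit 6) .nil .nil))))) (.nd (nat_lit 4) (.nd (nat_lit 5) 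
(.lf (nat_lit 122511) (.g (nat_lit 386) (.e (nat_lit 7125) (nat_lit 382) (.e (nat_lit 1222) (nat_lit 90) (.e (nat_lit 81963) (nat_lit 26) .nil))) .nil)) 
(.lf (nat_lit 122543) (.g (nat_lit 3277) (.e (nat_lit 7125) (nat_lit 382) (.e (nat_lit 1224) (nat_lit 90) (.e (nat_lit 81965) (nat_lit 26) (.e (nat_lit 147495) (nat_lit 11) (.e (nat_lit 24640) (nat_lit 10) (.e (nat_lit 344090) (nat_lit 18) .nil)))))) (.g (nat_lit 5) .nil .nil)))) (.nd (nat_lit 5) 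
(.lf (nat_lit 122527) (.g (nat_lit 3449) (.e (nat_lit 7125) (nat_lit 382) (.e (nat_lit 1224) (nat_lit 90) (.e (nat_lit 81925) (nat_lit 11) (.e (nat_lit 426343) (nat_lit 14) (.e (nat_lit 491560) (nat_lit 10) (.e (nat_lit 344091) (nat_lit 18) .nil)))))) (.g (nat_lit 0) .nil .nil))) 
(.lf (nat_lit 122559) (.g (nat_lit 770) (.e (nat_lit 7125) (nat_lit 382) (.e (nat_lit 1296) (nat_lit 96) (.e (nat_lit 131128) (nat_lit 13) (.e (nat_lit 393249) (nat_lit 17) .nil)))) .nil))))))))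

noncomputable def tv1634 : DT := (.nd (nat_lit 0) (.nd (nat_lit 1) (.nd (nat_lit 2) (.nd (nat_lit 3) (.nd (nat_lit 4) (.nd (nat_lit 5) 
(.lf (nat_lit 122560) (.g (nat_lit 3351) (.e (nat_lit 7125) (nat_lit 382) (.e (nat_lit 1296) (nat_lit 96) (.e (nat_lit 131128) (nat_lit 13) (.e (nat_lit 393301) (nat_lit 27) (.e (nat_lit 491560) (nat_lit 10) (.e (nat_lit 344094) (nat_lit 18) .nil)))))) (.g (nat_lit 0) .nil .nil))) 
(.lf (nat_lit 122592) (.g (nat_lit 833) (.e (nat_lit 7147) (nat_lit 382) (.e (nat_lit 1216) (nat_lit 90) (.e (nat_lit 81925) (nat_lit 11) (.e (nat_lit 426010) (nat_lit 0) (.e (nat_lit 7593) (nat_lit 407) .nil))))) .nil))) (.nd (nat_lit 5) 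
(.lf (nat_lit 122576) (.g (nat_lit 695) (.e (nat_lit 7145) (nat_lit 382) (.e (nat_lit 1217) (nat_lit 90) (.e (nat_lit 81963) (nat_lit 26) (.e (nat_lit 147495) (nat_lit 11) .nil)))) .nil)) 
(.lf (nat_lit 122608) (.g (nat_lit 2738) (.e (nat_lit 7147) (nat_lit 382) (.e (nat_lit 1217) (nat_lit 90) (.e (nat_lit 81925) (nat_lit 11) (.e (nat_lit 426343) (nat_lit 14) (.e (nat_lit 491560) (nat_lit 10) (.e (nat_lit 344099) (nat_lit 18) .nil)))))) (.g (nat_lit 5) .nil .nil))))) (.nd (nat_lit 4) (.nd (nat_lit 5) 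
(.lf (nat_lit 122568) (.g (nat_lit 1980) (.e (nat_lit 7133) (nat_lit 382) (.e (nat_lit 1221) (nat_lit 90) (.e (nat_lit 81965) (nat_lit 26) (.e (nat_lit 147495) (nat_lit 11) (.e (nat_lit 24639) (nat_lit 10) .nil))))) .nil)) 
(.lf (nat_lit 122600) (.g (nat_lit 1601) (.e (nat_lit 7147) (nat_lit 382) (.e (nat_lit 1216) (nat_lit 90) (.e (nat_lit 81963) (nat_lit 26) (.e (nat_lit 147496) (nat_lit 11) (.e (nat_lit 24642) (nat_lit 11) .nil))))) .nil))) (.nd (nat_lit 5) 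
(.lf (nat_lit 122584) (.g (nat_lit 2682) (.e (nat_lit 7147) (nat_lit 382) (.e (nat_lit 1207) (nat_lit 89) (.e (nat_lit 73754) (nat_lit 8) (.e (nat_lit 557100) (nat_lit 13) (.e (nat_lit 172059) (nat_lit 1) .nil))))) .nil)) 
(.lf (nat_lit 122616) (.g (nat_lit 800) (.e (nat_lit 7147) (nat_lit 382) (.e (nat_lit 1217) (nat_lit 90) (.e (nat_lit 81948) (nat_lit 21) (.e (nat_lit 57684) (nat_lit 155) .nil)))) .nil))))) (.nd (nat_lit 3) (.nd (nat_lit 4) (.nd (nat_lit 5) 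
(.lf (nat_lit 122564) (.g (nat_lit 1623) (.e (nat_lit 7133) (nat_lit 382) (.e (nat_lit 1220) (nat_lit 90) (.e (nat_lit 81950) (nat_lit 21) (.e (nat_lit 57681) (nat_lit 155) .nil)))) .nil)) 
(.lf (nat_lit 122596) (.g (nat_lit 908) (.e (nat_lit 7147) (nat_lit 382) (.e (nat_lit 1216) (nat_lit 90) (.e (nat_lit 81950) (nat_lit 21) (.e (nat_lit 57666) (nat_lit 152) .nil)))) .nil))) (.nd (nat_lit 5) 
(.lf (nat_lit 122580) (.g (nat_lit 3708) (.e (nat_lit 7147) (nat_lit 382) (.e (nat_lit 1185) (nat_lit 87) (.e (nat_lit 57479) (nat_lit 28) (.e (nat_lit 557105) (nat_lit 14) (.e (nat_lit 180252) (nat_lit 10) (.e (nat_lit 573489) (nat_lit 14) (.e (nat_lit 81664) (nat_lit 5) (.e (nat_lit 532490) (nat_lit 0) (.e (nat_lit 1040) (nat_lit 81) .nil))))))))) (.g (nat_lit 6) .nil .nil))) 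
(.lf (nat_lit 122612) (.g (nat_lit 1330) (.e (nat_lit 7147) (nat_lit 382) (.e (nat_lit 1217) (nat_lit 90) (.e (nat_lit 81946) (nat_lit 20) (.e (nat_lit 2270) (nat_lit 149) (.e (nat_lit 761868) (nat_lit 5) .nil))))) .nil)))) (.nd (nat_lit 4) (.nd (nat_lit 5) 
(.lf (nat_lit 122572) (.g (nat_lit 1742) (.e (nat_lit 7136) (nat_lit 382) (.e (nat_lit 1200) (nat_lit 88) (.e (nat_lit 65625) (nat_lit 13) (.e (nat_lit 393300) (nat_lit 27) (.e (nat_lit 491560) (nat_lit 10) .nil))))) .nil)) 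
(.lf (nat_lit 122604) (.g (nat_lit 2490) (.e (nat_lit 7147) (nat_lit 382) (.e (nat_lit 1216) (nat_lit 90) (.e (nat_lit 81965) (nat_lit 26) (.e (nat_lit 147496) (nat_lit 11) (.e (nat_lit 24644) (nat_lit 11) (.e (nat_lit 368662) (nat_lit 18) .nil)))))) (.g (nat_lit 0) .nil .nil)))) (.nd (nat_lit 5) 
(.lf (nat_lit 122588) (.g (nat_lit 2540) (.e (nat_lit 7147) (nat_lit 382) (.e (nat_lit 1207) (nat_lit 89) (.e (nat_lit 73754) (nat_lit 8) (.e (nat_lit 557105) (nat_lit 14) (.e (nat_lit 180265) (nat_lit 21) (.e (nat_lit 663555) (nat_lit 0) (.e (nat_lit 1603) (nat_lit 112) (.e (nat_lit 368662) (nat_lit 18) .nil)))))))) (.g (nat_lit 5) .nil .nil))) 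
(.lf (nat_lit 122620) (.g (nat_lit 2773) (.e (nat_lit 7147) (nat_lit 382) (.e (nat_lit 1217) (nat_lit 90) (.e (nat_lit 81963) (nat_lit 26) (.e (nat_lit 147466) (nat_lit 9) (.e (nat_lit 324) (nat_lit 24) (.e (nat_lit 360452) (nat_lit 0) .nil)))))) (.g (nat_lit 0) .nil .nil))))))) (.nd (nat_lit 2) (.nd (nat_lit 3) (.nd (nat_lit 4) (.nd (nat_lit 5) 
(.lf (nat_lit 122562) (.g (nat_lit 2794) (.e (nat_lit 7133) (nat_lit 382) (.e (nat_lit 1217) (nat_lit 90) (.e (nat_lit 81925) (nat_lit 11) (.e (nat_lit 426344) (nat_lit 14) (.e (nat_lit 491560) (nat_lit 10) (.e (nat_lit 344089) (nat_lit 18) .nil)))))) (.g (nat_lit 6) .nil .nil))) 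
(.lf (nat_lit 122594) (.g (nat_lit 2010) (.e (nat_lit 7147) (nat_lit 382) (.e (nat_lit 1216) (nat_lit 90) (.e (nat_lit 81927) (nat_lit 11) (.e (nat_lit 426344) (nat_lit 14) (.e (nat_lit 491560) (nat_lit 10) (.e (nat_lit 344099) (nat_lit 18) .nil)))))) (.g (nat_lit 5) .nil .nil)))) (.nd (nat_lit 5) 
(.lf (nat_lit 122578) (.g (nat_lit 1363) (.e (nat_lit 7146) (nat_lit 382) (.e (nat_lit 1207) (nat_lit 89) (.e (nat_lit 73754) (nat_lit 8) (.e (nat_lit 557105) (nat_lit 14) (.e (nat_lit 180264) (nat_lit 21) .nil))))) .nil)) 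
(.lf (nat_lit 122610) (.g (nat_lit 2427) (.e (nat_lit 7147) (nat_lit 382) (.e (nat_lit 1217) (nat_lit 90) (.e (nat_lit 81925) (nat_lit 11) (.e (nat_lit 426344) (nat_lit 14) (.e (nat_lit 491560) (nat_lit 10) (.e (nat_lit 344099) (nat_lit 18) .nil)))))) (.g (nat_lit 5) .nil .nil))))) (.nd (nat_lit 4) (.nd (nat_lit 5) 
(.lf (nat_lit 122570) (.g (nat_lit 2136) (.e (nat_lit 7135) (nat_lit 382) (.e (nat_lit 1220) (nat_lit 90) (.e (nat_lit 81965) (nat_lit 26) (.e (nat_lit 147495) (nat_lit 11) (.e (nat_lit 24640) (nat_lit 10) .nil))))) .nil)) 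
(.lf (nat_lit 122602) (.g (nat_lit 2272) (.e (nat_lit 7147) (nat_lit 382) (.e (nat_lit 1216) (nat_lit 90) (.e (nat_lit 81963) (nat_lit 26) (.e (nat_lit 147496) (nat_lit 11) (.e (nat_lit 24644) (nat_lit 11) (.e (nat_lit 368662) (nat_lit 18) .nil)))))) (.g (nat_lit 0) .nil .nil)))) (.nd (nat_lit 5) 
(.lf (nat_lit 122586) (.g (nat_lit 1808) (.e (nat_lit 7147) (nat_lit 382) (.e (nat_lit 1207) (nat_lit 89) (.e (nat_lit 73754) (nat_lit 8) (.e (nat_lit 557101) (nat_lit 13) (.e (nat_lit 172061) (nat_lit 1) .nil))))) .nil)) 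
(.lf (nat_lit 122618) (.g (nat_lit 232) (.e (nat_lit 7147) (nat_lit 382) (.e (nat_lit 1217) (nat_lit 90) (.e (nat_lit 81963) (nat_lit 26) .nil))) .nil))))) (.nd (nat_lit 3) (.nd (nat_lit 4) (.nd (nat_lit 5) 
(.lf (nat_lit 122566) (.g (nat_lit 2079) (.e (nat_lit 7133) (nat_lit 382) (.e (nat_lit 1221) (nat_lit 90) (.e (nat_lit 81950) (nat_lit 21) (.e (nat_lit 57681) (nat_lit 155) (.e (nat_lit 122917) (nat_lit 15) .nil))))) .nil)) 
(.lf (nat_lit 122598) (.g (nat_lit 152) (.e (nat_lit 7147) (nat_lit 382) (.e (nat_lit 1216) (nat_lit 90) (.e (nat_lit 81963) (nat_lit 26) .nil))) .nil))) (.nd (nat_lit 5) 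
(.lf (nat_lit 122582) (.g (nat_lit 1804) (.e (nat_lit 7147) (nat_lit 382) (.e (nat_lit 1206) (nat_lit 89) (.e (nat_lit 73754) (nat_lit 8) (.e (nat_lit 557105) (nat_lit 14) (.e (nat_lit 180265) (nat_lit 21) .nil))))) .nil)) 
(.lf (nat_lit 122614) (.g (nat_lit 890) (.e (nat_lit 7147) (nat_lit 382) (.e (nat_lit 1217) (nat_lit 90) (.e (nat_lit 81947) (nat_lit 20) (.e (nat_lit 2280) (nat_lit 150) .nil)))) .nil)))) (.nd (nat_lit 4) (.nd (nat_lit 5) 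
(.lf (nat_lit 122574) (.g (nat_lit 2070) (.e (nat_lit 7137) (nat_lit 382) (.e (nat_lit 1221) (nat_lit 90) (.e (nat_lit 81965) (nat_lit 26) (.e (nat_lit 147495) (nat_lit 11) (.e (nat_lit 24640) (nat_lit 10) .nil))))) .nil)) 
(.lf (nat_lit 122606) (.g (nat_lit 932) (.e (nat_lit 7147) (nat_lit 382) (.e (nat_lit 1217) (nat_lit 90) (.e (nat_lit 89856) (nat_lit 10) (.e (nat_lit 417796) (nat_lit 0) (.e (nat_lit 5413) (nat_lit 303) (.e (nat_lit 81664) (nat_lit 0) .nil)))))) (.g (nat_lit 4) .nil .nil)))) (.nd (nat_lit 5) 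
(.lf (nat_lit 122590) (.g (nat_lit 780) (.e (nat_lit 7147) (nat_lit 382) (.e (nat_lit 1207) (nat_lit 89) (.e (nat_lit 73755) (nat_lit 8) (.e (nat_lit 557105) (nat_lit 14) .nil)))) .nil)) 
(.lf (nat_lit 122622) (.g (nat_lit 2360) (.e (nat_lit 7147) (nat_lit 382) (.e (nat_lit 1217) (nat_lit 90) (.e (nat_lit 81963) (nat_lit 26) (.e (nat_lit 147496) (nat_lit 11) (.e (nat_lit 24643) (nat_lit 11) (.e (nat_lit 368662) (nat_lit 18) .nil)))))) (.g (nat_lit 0) .nil .nil)))))))) (.nd (nat_lit 1) (.nd (nat_lit 2) (.nd (nat_lit 3) (.nd (nat_lit 4) (.nd (nat_lit 5) 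
(.lf (nat_lit 122561) (.g (nat_lit 993) (.e (nat_lit 7133) (nat_lit 382) (.e (nat_lit 1190) (nat_lit 88) (.e (nat_lit 65571) (nat_lit 3) (.e (nat_lit 98372) (nat_lit 29) .nil)))) .nil)) 
(.lf (nat_lit 122593) (.g (nat_lit 2736) (.e (nat_lit 7147) (nat_lit 382) (.e (nat_lit 1216) (nat_lit 90) (.e (nat_lit 81927) (nat_lit 11) (.e (nat_lit 426343) (nat_lit 14) (.e (nat_lit 491558) (nat_lit 10) (.e (nat_lit 344097) (nat_lit 18) .nil)))))) (.g (nat_lit 0) .nil .nil)))) (.nd (nat_lit 5) 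
(.lf (nat_lit 122577) (.g (nat_lit 1789) (.e (nat_lit 7145) (nat_lit 382) (.e (nat_lit 1217) (nat_lit 90) (.e (nat_lit 81965) (nat_lit 26) (.e (nat_lit 147496) (nat_lit 11) (.e (nat_lit 24639) (nat_lit 10) .nil))))) .nil)) 
(.lf (nat_lit 122609) (.g (nat_lit 1704) (.e (nat_lit 7147) (nat_lit 382) (.e (nat_lit 1217) (nat_lit 90) (.e (nat_lit 81925) (nat_lit 11) (.e (nat_lit 426343) (nat_lit 14) (.e (nat_lit 491561) (nat_lit 11) .nil))))) .nil)))) (.nd (nat_lit 4) (.nd (nat_lit 5) 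
(.lf (nat_lit 122569) (.g (nat_lit 1623) (.e (nat_lit 7135) (nat_lit 382) (.e (nat_lit 1220) (nat_lit 90) (.e (nat_lit 81950) (nat_lit 21) (.e (nat_lit 57681) (nat_lit 155) .nil)))) .nil)) 
(.lf (nat_lit 122601) (.g (nat_lit 2102) (.e (nat_lit 7147) (nat_lit 382) (.e (nat_lit 1216) (nat_lit 90) (.e (nat_lit 81963) (nat_lit 26) (.e (nat_lit 147496) (nat_lit 11) (.e (nat_lit 24643) (nat_lit 11) (.e (nat_lit 368662) (nat_lit 18) .nil)))))) (.g (nat_lit 0) .nil .nil)))) (.nd (nat_lit 5) 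
(.lf (nat_lit 122585) (.g (nat_lit 1727) (.e (nat_lit 7147) (nat_lit 382) (.e (nat_lit 1207) (nat_lit 89) (.e (nat_lit 73754) (nat_lit 8) (.e (nat_lit 557101) (nat_lit 13) (.e (nat_lit 172059) (nat_lit 1) .nil))))) .nil)) 
(.lf (nat_lit 122617) (.g (nat_lit 1037) (.e (nat_lit 7147) (nat_lit 382) (.e (nat_lit 1217) (nat_lit 90) (.e (nat_lit 81948) (nat_lit 21) (.e (nat_lit 57684) (nat_lit 155) (.e (nat_lit 122917) (nat_lit 15) .nil))))) .nil))))) (.nd (nat_lit 3) (.nd (nat_lit 4) (.nd (nat_lit 5) 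
(.lf (nat_lit 122565) (.g (nat_lit 1490) (.e (nat_lit 7133) (nat_lit 382) (.e (nat_lit 1220) (nat_lit 90) (.e (nat_lit 81965) (nat_lit 26) (.e (nat_lit 147496) (nat_lit 11) .nil)))) .nil)) 
(.lf (nat_lit 122597) (.g (nat_lit 917) (.e (nat_lit 7147) (nat_lit 382) (.e (nat_lit 1216) (nat_lit 90) (.e (nat_lit 81950) (nat_lit 21) (.e (nat_lit 57680) (nat_lit 155) .nil)))) .nil))) (.nd (nat_lit 5) 
(.lf (nat_lit 122581) (.g (nat_lit 1379) (.e (nat_lit 7147) (nat_lit 382) (.e (nat_lit 1203) (nat_lit 88) (.e (nat_lit 65627) (nat_lit 13) (.e (nat_lit 393300) (nat_lit 27) (.e (nat_lit 491558) (nat_lit 10) .nil))))) .nil)) 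
(.lf (nat_lit 122613) (.g (nat_lit 780) (.e (nat_lit 7147) (nat_lit 382) (.e (nat_lit 1217) (nat_lit 90) (.e (nat_lit 81946) (nat_lit 20) (.e (nat_lit 2279) (nat_lit 150) .nil)))) .nil)))) (.nd (nat_lit 4) (.nd (nat_lit 5) 
(.lf (nat_lit 122573) (.g (nat_lit 1115) (.e (nat_lit 7136) (nat_lit 382) (.e (nat_lit 1200) (nat_lit 88) (.e (nat_lit 65626) (nat_lit 13) (.e (nat_lit 393298) (nat_lit 27) .nil)))) .nil)) 
(.lf (nat_lit 122605) (.g (nat_lit 992) (.e (nat_lit 7147) (nat_lit 382) (.e (nat_lit 1217) (nat_lit 90) (.e (nat_lit 89856) (nat_lit 10) (.e (nat_lit 417796) (nat_lit 0) (.e (nat_lit 5413) (nat_lit 303) (.e (nat_lit 73734) (nat_lit 0) .nil)))))) (.g (nat_lit 4) .nil .nil)))) (.nd (nat_lit 5) 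
(.lf (nat_lit 122589) (.g (nat_lit 1986) (.e (nat_lit 7147) (nat_lit 382) (.e (nat_lit 1207) (nat_lit 89) (.e (nat_lit 73755) (nat_lit 8) (.e (nat_lit 557104) (nat_lit 14) (.e (nat_lit 180233) (nat_lit 0) .nil))))) .nil)) 
(.lf (nat_lit 122621) (.g (nat_lit 660) (.e (nat_lit 7147) (nat_lit 382) (.e (nat_lit 1217) (nat_lit 90) (.e (nat_lit 81963) (nat_lit 26) (.e (nat_lit 147494) (nat_lit 11) .nil)))) .nil)))))) (.nd (nat_lit 2) (.nd (nat_lit 3) (.nd (nat_lit 4) (.nd (nat_lit 5) 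
(.lf (nat_lit 122563) (.g (nat_lit 1862) (.e (nat_lit 7133) (nat_lit 382) (.e (nat_lit 1219) (nat_lit 90) (.e (nat_lit 81963) (nat_lit 26) (.e (nat_lit 147496) (nat_lit 11) (.e (nat_lit 24641) (nat_lit 10) .nil))))) .nil)) 
(.lf (nat_lit 122595) (.g (nat_lit 1651) (.e (nat_lit 7147) (nat_lit 382) (.e (nat_lit 1216) (nat_lit 90) (.e (nat_lit 81948) (nat_lit 21) (.e (nat_lit 57681) (nat_lit 155) (.e (nat_lit 122917) (nat_lit 15) .nil))))) .nil))) (.nd (nat_lit 5) 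
(.lf (nat_lit 122579) (.g (nat_lit 2968) (.e (nat_lit 7147) (nat_lit 382) (.e (nat_lit 1185) (nat_lit 87) (.e (nat_lit 57476) (nat_lit 28) (.e (nat_lit 557104) (nat_lit 14) (.e (nat_lit 180252) (nat_lit 10) (.e (nat_lit 573487) (nat_lit 14) (.e (nat_lit 81664) (nat_lit 5) (.e (nat_lit 532490) (nat_lit 0) (.e (nat_lit 1040) (nat_lit 81) .nil))))))))) (.g (nat_lit 6) .nil .nil))) 
(.lf (nat_lit 122611) (.g (nat_lit 1407) (.e (nat_lit 7147) (nat_lit 382) (.e (nat_lit 1217) (nat_lit 90) (.e (nat_lit 81946) (nat_lit 20) (.e (nat_lit 2270) (nat_lit 149) (.e (nat_lit 761867) (nat_lit 5) .nil))))) .nil)))) (.nd (nat_lit 4) (.nd (nat_lit 5) 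
(.lf (nat_lit 122571) (.g (nat_lit 2444) (.e (nat_lit 7135) (nat_lit 382) (.e (nat_lit 1220) (nat_lit 90) (.e (nat_lit 81965) (nat_lit 26) (.e (nat_lit 147496) (nat_lit 11) (.e (nat_lit 24640) (nat_lit 10) .nil))))) .nil)) 
(.lf (nat_lit 122603) (.g (nat_lit 2323) (.e (nat_lit 7147) (nat_lit 382) (.e (nat_lit 1216) (nat_lit 90) (.e (nat_lit 81965) (nat_lit 26) (.e (nat_lit 147496) (nat_lit 11) (.e (nat_lit 24643) (nat_lit 11) (.e (nat_lit 368662) (nat_lit 18) .nil)))))) (.g (nat_lit 0) .nil .nil)))) (.nd (nat_lit 5) 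
(.lf (nat_lit 122587) (.g (nat_lit 1442) (.e (nat_lit 7147) (nat_lit 382) (.e (nat_lit 1207) (nat_lit 89) (.e (nat_lit 73754) (nat_lit 8) (.e (nat_lit 557105) (nat_lit 14) (.e (nat_lit 180264) (nat_lit 21) .nil))))) .nil)) 
(.lf (nat_lit 122619) (.g (nat_lit 2276) (.e (nat_lit 7147) (nat_lit 382) (.e (nat_lit 1217) (nat_lit 90) (.e (nat_lit 81963) (nat_lit 26) (.e (nat_lit 147466) (nat_lit 9) (.e (nat_lit 321) (nat_lit 24) (.e (nat_lit 360453) (nat_lit 0) .nil)))))) (.g (nat_lit 0) .nil .nil)))))) (.nd (nat_lit 3) (.nd (nat_lit 4) (.nd (nat_lit 5) 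
(.lf (nat_lit 122567) (.g (nat_lit 3857) (.e (nat_lit 7133) (nat_lit 382) (.e (nat_lit 1221) (nat_lit 90) (.e (nat_lit 81950) (nat_lit 21) (.e (nat_lit 57681) (nat_lit 155) (.e (nat_lit 122919) (nat_lit 15) (.e (nat_lit 360448) (nat_lit 0) .nil)))))) (.g (nat_lit 6) .nil .nil))) 
(.lf (nat_lit 122599) (.g (nat_lit 822) (.e (nat_lit 7147) (nat_lit 382) (.e (nat_lit 1216) (nat_lit 90) (.e (nat_lit 81963) (nat_lit 26) (.e (nat_lit 147463) (nat_lit 9) (.e (nat_lit 249) (nat_lit 21) .nil))))) .nil))) (.nd (nat_lit 5) 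
(.lf (nat_lit 122583) (.g (nat_lit 2044) (.e (nat_lit 7147) (nat_lit 382) (.e (nat_lit 1206) (nat_lit 89) (.e (nat_lit 73755) (nat_lit 8) (.e (nat_lit 557104) (nat_lit 14) (.e (nat_lit 180233) (nat_lit 0) .nil))))) .nil)) 
(.lf (nat_lit 122615) (.g (nat_lit 1312) (.e (nat_lit 7147) (nat_lit 382) (.e (nat_lit 1217) (nat_lit 90) (.e (nat_lit 81948) (nat_lit 21) (.e (nat_lit 57683) (nat_lit 155) (.e (nat_lit 122919) (nat_lit 15) .nil))))) .nil)))) (.nd (nat_lit 4) (.nd (nat_lit 5) 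
(.lf (nat_lit 122575) (.g (nat_lit 617) (.e (nat_lit 7144) (nat_lit 382) (.e (nat_lit 1216) (nat_lit 90) (.e (nat_lit 81965) (nat_lit 26) (.e (nat_lit 147496) (nat_lit 11) .nil)))) .nil)) 
(.lf (nat_lit 122607) (.g (nat_lit 880) (.e (nat_lit 7147) (nat_lit 382) (.e (nat_lit 1217) (nat_lit 90) (.e (nat_lit 81925) (nat_lit 11) (.e (nat_lit 426012) (nat_lit 0) (.e (nat_lit 7591) (nat_lit 407) .nil))))) .nil))) (.nd (nat_lit 5) 
(.lf (nat_lit 122591) (.g (nat_lit 156) (.e (nat_lit 7147) (nat_lit 382) (.e (nat_lit 1216) (nat_lit 90) (.e (nat_lit 81921) (nat_lit 0) .nil))) .nil)) 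
(.lf (nat_lit 122623) (.g (nat_lit 2524) (.e (nat_lit 7147) (nat_lit 382) (.e (nat_lit 1217) (nat_lit 90) (.e (nat_lit 81963) (nat_lit 26) (.e (nat_lit 147496) (nat_lit 11) (.e (nat_lit 24644) (nat_lit 11) (.e (nat_lit 368662) (nat_lit 18) .nil)))))) (.g (nat_lit 0) .nil .nil)))))))))

noncomputable def tv1635 : DT := (.nd (nat_lit 0) (.nd (nat_lit 1) (.nd (nat_lit 2) (.nd (nat_lit 3) (.nd (nat_lit 4) (.nd (nat_lit 5) 
(.lf (nat_lit 122624) (.g (nat_lit 1940) (.e (nat_lit 7147) (nat_lit 382) (.e (nat_lit 1217) (nat_lit 90) (.e (nat_lit 81963) (nat_lit 26) (.e (nat_lit 147496) (nat_lit 11) (.e (nat_lit 24645) (nat_lit 11) (.e (nat_lit 368662) (nat_lit 18) .nil)))))) (.g (nat_lit 4) .nil .nil))) 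
(.lf (nat_lit 122656) (.g (nat_lit 1043) (.e (nat_lit 7160) (nat_lit 382) (.e (nat_lit 1215) (nat_lit 90) (.e (nat_lit 81963) (nat_lit 26) (.e (nat_lit 147467) (nat_lit 9) (.e (nat_lit 324) (nat_lit 24) (.e (nat_lit 368384) (nat_lit 0) .nil)))))) (.g (nat_lit 5) .nil .nil)))) (.nd (nat_lit 5) 
(.lf (nat_lit 122640) (.g (nat_lit 44) (.e (nat_lit 7160) (nat_lit 382) (.e (nat_lit 1215) (nat_lit 90) (.e (nat_lit 89856) (nat_lit 10) .nil))) .nil)) 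
(.lf (nat_lit 122672) (.g (nat_lit 839) (.e (nat_lit 7233) (nat_lit 382) (.e (nat_lit 1196) (nat_lit 88) (.e (nat_lit 65627) (nat_lit 13) (.e (nat_lit 393300) (nat_lit 27) .nil)))) .nil)))) (.nd (nat_lit 4) (.nd (nat_lit 5) 
(.lf (nat_lit 122632) (.g (nat_lit 1807) (.e (nat_lit 7147) (nat_lit 382) (.e (nat_lit 1217) (nat_lit 90) (.e (nat_lit 81965) (nat_lit 26) (.e (nat_lit 147494) (nat_lit 11) (.e (nat_lit 24644) (nat_lit 11) .nil))))) .nil)) 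
(.lf (nat_lit 122664) (.g (nat_lit 744) (.e (nat_lit 7232) (nat_lit 382) (.e (nat_lit 1209) (nat_lit 89) (.e (nat_lit 73747) (nat_lit 3) .nil))) .nil))) (.nd (nat_lit 5) 
(.lf (nat_lit 122648) (.g (nat_lit 1881) (.e (nat_lit 7160) (nat_lit 382) (.e (nat_lit 1215) (nat_lit 90) (.e (nat_lit 81946) (nat_lit 20) (.e (nat_lit 2270) (nat_lit 149) (.e (nat_lit 761868) (nat_lit 5) (.e (nat_lit 1585) (nat_lit 111) (.e (nat_lit 368384) (nat_lit 0) .nil))))))) (.g (nat_lit 6) .nil .nil))) 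
(.lf (nat_lit 122680) (.g (nat_lit 2757) (.e (nat_lit 7236) (nat_lit 382) (.e (nat_lit 1190) (nat_lit 88) (.e (nat_lit 65571) (nat_lit 3) (.e (nat_lit 98370) (nat_lit 28) (.e (nat_lit 450304) (nat_lit 3) (.e (nat_lit 98323) (nat_lit 17) (.e (nat_lit 2400) (nat_lit 157) .nil))))))) (.g (nat_lit 4) .nil .nil)))))) (.nd (nat_lit 3) (.nd (nat_lit 4) (.nd (nat_lit 5) 
(.lf (nat_lit 122628) (.g (nat_lit 3042) (.e (nat_lit 7147) (nat_lit 382) (.e (nat_lit 1217) (nat_lit 90) (.e (nat_lit 81965) (nat_lit 26) (.e (nat_lit 147467) (nat_lit 9) (.e (nat_lit 324) (nat_lit 24) (.e (nat_lit 360452) (nat_lit 0) .nil)))))) (.g (nat_lit 0) .nil .nil))) 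
(.lf (nat_lit 122660) (.g (nat_lit 1835) (.e (nat_lit 7161) (nat_lit 382) (.e (nat_lit 1215) (nat_lit 90) (.e (nat_lit 81950) (nat_lit 21) (.e (nat_lit 57683) (nat_lit 155) (.e (nat_lit 122919) (nat_lit 15) (.e (nat_lit 368384) (nat_lit 0) .nil)))))) (.g (nat_lit 5) .nil .nil)))) (.nd (nat_lit 5) 
(.lf (nat_lit 122644) (.g (nat_lit 1545) (.e (nat_lit 7160) (nat_lit 382) (.e (nat_lit 1215) (nat_lit 90) (.e (nat_lit 81940) (nat_lit 20) (.e (nat_lit 2270) (nat_lit 149) (.e (nat_lit 761868) (nat_lit 5) (.e (nat_lit 1597) (nat_lit 111) (.e (nat_lit 368384) (nat_lit 0) .nil))))))) (.g (nat_lit 6) .nil .nil))) 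
(.lf (nat_lit 122676) (.g (nat_lit 1626) (.e (nat_lit 7236) (nat_lit 382) (.e (nat_lit 1189) (nat_lit 88) (.e (nat_lit 65571) (nat_lit 3) (.e (nat_lit 98373) (nat_lit 29) (.e (nat_lit 450588) (nat_lit 10) .nil))))) .nil)))) (.nd (nat_lit 4) (.nd (nat_lit 5) 
(.lf (nat_lit 122636) (.g (nat_lit 2900) (.e (nat_lit 7147) (nat_lit 382) (.e (nat_lit 1217) (nat_lit 90) (.e (nat_lit 81965) (nat_lit 26) (.e (nat_lit 147496) (nat_lit 11) (.e (nat_lit 24644) (nat_lit 11) (.e (nat_lit 368662) (nat_lit 18) .nil)))))) (.g (nat_lit 0) .nil .nil))) 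
(.lf (nat_lit 122668) (.g (nat_lit 505) (.e (nat_lit 7232) (nat_lit 382) (.e (nat_lit 1221) (nat_lit 90) (.e (nat_lit 81965) (nat_lit 26) .nil))) .nil))) (.nd (nat_lit 5) 
(.lf (nat_lit 122652) (.g (nat_lit 1696) (.e (nat_lit 7160) (nat_lit 382) (.e (nat_lit 1215) (nat_lit 90) (.e (nat_lit 81950) (nat_lit 21) (.e (nat_lit 57683) (nat_lit 155) (.e (nat_lit 122917) (nat_lit 15) (.e (nat_lit 368384) (nat_lit 0) .nil)))))) (.g (nat_lit 5) .nil .nil))) 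
(.lf (nat_lit 122684) (.g (nat_lit 1264) (.e (nat_lit 7236) (nat_lit 382) (.e (nat_lit 1190) (nat_lit 88) (.e (nat_lit 65627) (nat_lit 13) (.e (nat_lit 393299) (nat_lit 27) .nil)))) .nil)))))) (.nd (nat_lit 2) (.nd (nat_lit 3) (.nd (nat_lit 4) (.nd (nat_lit 5) 
(.lf (nat_lit 122626) (.g (nat_lit 1588) (.e (nat_lit 7147) (nat_lit 382) (.e (nat_lit 1217) (nat_lit 90) (.e (nat_lit 81965) (nat_lit 26) (.e (nat_lit 147463) (nat_lit 9) (.e (nat_lit 321) (nat_lit 24) .nil))))) .nil)) 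
(.lf (nat_lit 122658) (.g (nat_lit 1677) (.e (nat_lit 7161) (nat_lit 382) (.e (nat_lit 1215) (nat_lit 90) (.e (nat_lit 81948) (nat_lit 21) (.e (nat_lit 57683) (nat_lit 155) (.e (nat_lit 122919) (nat_lit 15) (.e (nat_lit 368384) (nat_lit 0) .nil)))))) (.g (nat_lit 5) .nil .nil)))) (.nd (nat_lit 5) 
(.lf (nat_lit 122642) (.g (nat_lit 1272) (.e (nat_lit 7160) (nat_lit 382) (.e (nat_lit 1215) (nat_lit 90) (.e (nat_lit 81938) (nat_lit 20) (.e (nat_lit 2281) (nat_lit 150) (.e (nat_lit 770058) (nat_lit 5) .nil))))) .nil)) 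
(.lf (nat_lit 122674) (.g (nat_lit 1803) (.e (nat_lit 7236) (nat_lit 382) (.e (nat_lit 1188) (nat_lit 88) (.e (nat_lit 65571) (nat_lit 3) (.e (nat_lit 98370) (nat_lit 28) (.e (nat_lit 450304) (nat_lit 3) .nil))))) .nil)))) (.nd (nat_lit 4) (.nd (nat_lit 5) 
(.lf (nat_lit 122634) (.g (nat_lit 1887) (.e (nat_lit 7147) (nat_lit 382) (.e (nat_lit 1217) (nat_lit 90) (.e (nat_lit 81965) (nat_lit 26) (.e (nat_lit 147495) (nat_lit 11) (.e (nat_lit 24645) (nat_lit 11) .nil))))) .nil)) 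
(.lf (nat_lit 122666) (.g (nat_lit 540) (.e (nat_lit 7232) (nat_lit 382) (.e (nat_lit 1220) (nat_lit 90) (.e (nat_lit 81965) (nat_lit 26) .nil))) .nil))) (.nd (nat_lit 5) 
(.lf (nat_lit 122650) (.g (nat_lit 1583) (.e (nat_lit 7160) (nat_lit 382) (.e (nat_lit 1215) (nat_lit 90) (.e (nat_lit 81948) (nat_lit 21) (.e (nat_lit 57683) (nat_lit 155) (.e (nat_lit 122917) (nat_lit 15) (.e (nat_lit 368384) (nat_lit 0) .nil)))))) (.g (nat_lit 5) .nil .nil))) 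
(.lf (nat_lit 122682) (.g (nat_lit 4373) (.e (nat_lit 7236) (nat_lit 382) (.e (nat_lit 1190) (nat_lit 88) (.e (nat_lit 65571) (nat_lit 3) (.e (nat_lit 98373) (nat_lit 29) (.e (nat_lit 450588) (nat_lit 10) (.e (nat_lit 573475) (nat_lit 12) (.e (nat_lit 57348) (nat_lit 0) .nil))))))) (.g (nat_lit 6) .nil .nil)))))) (.nd (nat_lit 3) (.nd (nat_lit 4) (.nd (nat_lit 5) 
(.lf (nat_lit 122630) (.g (nat_lit 1087) (.e (nat_lit 7147) (nat_lit 382) (.e (nat_lit 1217) (nat_lit 90) (.e (nat_lit 81965) (nat_lit 26) (.e (nat_lit 147493) (nat_lit 11) .nil)))) .nil)) 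
(.lf (nat_lit 122662) (.g (nat_lit 1527) (.e (nat_lit 7226) (nat_lit 382) (.e (nat_lit 1011) (nat_lit 81) (.e (nat_lit 1589) (nat_lit 111) (.e (nat_lit 360451) (nat_lit 0) (.e (nat_lit 7125) (nat_lit 382) .nil))))) .nil))) (.nd (nat_lit 5) 
(.lf (nat_lit 122646) (.g (nat_lit 1556) (.e (nat_lit 7160) (nat_lit 382) (.e (nat_lit 1215) (nat_lit 90) (.e (nat_lit 81941) (nat_lit 20) (.e (nat_lit 2270) (nat_lit 149) (.e (nat_lit 761868) (nat_lit 5) (.e (nat_lit 1597) (nat_lit 111) (.e (nat_lit 368384) (nat_lit 0) .nil))))))) (.g (nat_lit 6) .nil .nil))) 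
(.lf (nat_lit 122678) (.g (nat_lit 2327) (.e (nat_lit 7236) (nat_lit 382) (.e (nat_lit 1190) (nat_lit 88) (.e (nat_lit 65571) (nat_lit 3) (.e (nat_lit 98359) (nat_lit 26) (.e (nat_lit 426286) (nat_lit 10) .nil))))) .nil)))) (.nd (nat_lit 4) (.nd (nat_lit 5) 
(.lf (nat_lit 122638) (.g (nat_lit 47) (.e (nat_lit 7160) (nat_lit 382) (.e (nat_lit 1202) (nat_lit 88) (.e (nat_lit 65625) (nat_lit 13) .nil))) .nil)) 
(.lf (nat_lit 122670) (.g (nat_lit 1386) (.e (nat_lit 7232) (nat_lit 382) (.e (nat_lit 1221) (nat_lit 90) (.e (nat_lit 81965) (nat_lit 26) (.e (nat_lit 147496) (nat_lit 11) .nil)))) .nil))) (.nd (nat_lit 5) 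
(.lf (nat_lit 122654) (.g (nat_lit 1414) (.e (nat_lit 7160) (nat_lit 382) (.e (nat_lit 1215) (nat_lit 90) (.e (nat_lit 81963) (nat_lit 26) (.e (nat_lit 147466) (nat_lit 9) (.e (nat_lit 324) (nat_lit 24) (.e (nat_lit 368384) (nat_lit 0) .nil)))))) (.g (nat_lit 5) .nil .nil))) 
(.lf (nat_lit 122686) (.g (nat_lit 2014) (.e (nat_lit 7236) (nat_lit 382) (.e (nat_lit 1190) (nat_lit 88) (.e (nat_lit 65627) (nat_lit 13) (.e (nat_lit 393300) (nat_lit 27) (.e (nat_lit 491560) (nat_lit 10) .nil))))) .nil))))))) (.nd (nat_lit 1) (.nd (nat_lit 2) (.nd (nat_lit 3) (.nd (nat_lit 4) (.nd (nat_lit 5) 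
(.lf (nat_lit 122625) (.g (nat_lit 337) (.e (nat_lit 7147) (nat_lit 382) (.e (nat_lit 1217) (nat_lit 90) (.e (nat_lit 81964) (nat_lit 26) .nil))) .nil)) 
(.lf (nat_lit 122657) (.g (nat_lit 1647) (.e (nat_lit 7161) (nat_lit 382) (.e (nat_lit 1215) (nat_lit 90) (.e (nat_lit 81948) (nat_lit 21) (.e (nat_lit 57683) (nat_lit 155) (.e (nat_lit 122917) (nat_lit 15) (.e (nat_lit 368384) (nat_lit 0) .nil)))))) (.g (nat_lit 5) .nil .nil)))) (.nd (nat_lit 5) 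
(.lf (nat_lit 122641) (.g (nat_lit 1351) (.e (nat_lit 7160) (nat_lit 382) (.e (nat_lit 1215) (nat_lit 90) (.e (nat_lit 81928) (nat_lit 20) (.e (nat_lit 2270) (nat_lit 149) (.e (nat_lit 761868) (nat_lit 5) (.e (nat_lit 1597) (nat_lit 111) (.e (nat_lit 368384) (nat_lit 0) .nil))))))) (.g (nat_lit 6) .nil .nil))) 
(.lf (nat_lit 122673) (.g (nat_lit 2005) (.e (nat_lit 7233) (nat_lit 382) (.e (nat_lit 1221) (nat_lit 90) (.e (nat_lit 81965) (nat_lit 26) (.e (nat_lit 147496) (nat_lit 11) (.e (nat_lit 24641) (nat_lit 10) .nil))))) .nil)))) (.nd (nat_lit 4) (.nd (nat_lit 5) 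
(.lf (nat_lit 122633) (.g (nat_lit 1889) (.e (nat_lit 7147) (nat_lit 382) (.e (nat_lit 1217) (nat_lit 90) (.e (nat_lit 81965) (nat_lit 26) (.e (nat_lit 147495) (nat_lit 11) (.e (nat_lit 24642) (nat_lit 11) .nil))))) .nil)) 
(.lf (nat_lit 122665) (.g (nat_lit 2415) (.e (nat_lit 7232) (nat_lit 382) (.e (nat_lit 1220) (nat_lit 90) (.e (nat_lit 81950) (nat_lit 21) (.e (nat_lit 57681) (nat_lit 155) (.e (nat_lit 122917) (nat_lit 15) .nil))))) .nil))) (.nd (nat_lit 5) 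
(.lf (nat_lit 122649) (.g (nat_lit 2190) (.e (nat_lit 7160) (nat_lit 382) (.e (nat_lit 1215) (nat_lit 90) (.e (nat_lit 81946) (nat_lit 20) (.e (nat_lit 2270) (nat_lit 149) (.e (nat_lit 761868) (nat_lit 5) (.e (nat_lit 1597) (nat_lit 111) (.e (nat_lit 368384) (nat_lit 0) .nil))))))) (.g (nat_lit 6) .nil .nil))) 
(.lf (nat_lit 122681) (.g (nat_lit 1473) (.e (nat_lit 7236) (nat_lit 382) (.e (nat_lit 1190) (nat_lit 88) (.e (nat_lit 65571) (nat_lit 3) (.e (nat_lit 98372) (nat_lit 29) (.e (nat_lit 450586) (nat_lit 10) .nil))))) .nil))))) (.nd (nat_lit 3) (.nd (nat_lit 4) (.nd (nat_lit 5) 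
(.lf (nat_lit 122629) (.g (nat_lit 1417) (.e (nat_lit 7147) (nat_lit 382) (.e (nat_lit 1217) (nat_lit 90) (.e (nat_lit 81965) (nat_lit 26) (.e (nat_lit 147476) (nat_lit 9) (.e (nat_lit 290) (nat_lit 21) .nil))))) .nil)) 
(.lf (nat_lit 122661) (.g (nat_lit 1397) (.e (nat_lit 7226) (nat_lit 382) (.e (nat_lit 1011) (nat_lit 81) (.e (nat_lit 1586) (nat_lit 111) (.e (nat_lit 360451) (nat_lit 0) (.e (nat_lit 7124) (nat_lit 382) .nil))))) .nil))) (.nd (nat_lit 5) 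
(.lf (nat_lit 122645) (.g (nat_lit 1245) (.e (nat_lit 7160) (nat_lit 382) (.e (nat_lit 1215) (nat_lit 90) (.e (nat_lit 81941) (nat_lit 20) (.e (nat_lit 2270) (nat_lit 149) (.e (nat_lit 761868) (nat_lit 5) (.e (nat_lit 1585) (nat_lit 111) (.e (nat_lit 368384) (nat_lit 0) .nil))))))) (.g (nat_lit 6) .nil .nil))) 
(.lf (nat_lit 122677) (.g (nat_lit 2766) (.e (nat_lit 7236) (nat_lit 382) (.e (nat_lit 1190) (nat_lit 88) (.e (nat_lit 65568) (nat_lit 2) (.e (nat_lit 90170) (nat_lit 13) (.e (nat_lit 172113) (nat_lit 10) .nil))))) .nil)))) (.nd (nat_lit 4) (.nd (nat_lit 5) 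
(.lf (nat_lit 122637) (.g (nat_lit 1540) (.e (nat_lit 7160) (nat_lit 382) (.e (nat_lit 1202) (nat_lit 88) (.e (nat_lit 65586) (nat_lit 7) (.e (nat_lit 319531) (nat_lit 16) (.e (nat_lit 286759) (nat_lit 12) .nil))))) .nil)) 
(.lf (nat_lit 122669) (.g (nat_lit 1413) (.e (nat_lit 7232) (nat_lit 382) (.e (nat_lit 1221) (nat_lit 90) (.e (nat_lit 81965) (nat_lit 26) (.e (nat_lit 147493) (nat_lit 11) .nil)))) .nil))) (.nd (nat_lit 5) 
(.lf (nat_lit 122653) (.g (nat_lit 1472) (.e (nat_lit 7160) (nat_lit 382) (.e (nat_lit 1215) (nat_lit 90) (.e (nat_lit 81963) (nat_lit 26) (.e (nat_lit 147466) (nat_lit 9) (.e (nat_lit 321) (nat_lit 24) (.e (nat_lit 368384) (nat_lit 0) .nil)))))) (.g (nat_lit 5) .nil .nil))) 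
(.lf (nat_lit 122685) (.g (nat_lit 2010) (.e (nat_lit 7236) (nat_lit 382) (.e (nat_lit 1190) (nat_lit 88) (.e (nat_lit 65627) (nat_lit 13) (.e (nat_lit 393300) (nat_lit 27) (.e (nat_lit 491558) (nat_lit 10) .nil))))) .nil)))))) (.nd (nat_lit 2) (.nd (nat_lit 3) (.nd (nat_lit 4) (.nd (nat_lit 5) 
(.lf (nat_lit 122627) (.g (nat_lit 1036) (.e (nat_lit 7147) (nat_lit 382) (.e (nat_lit 1217) (nat_lit 90) (.e (nat_lit 81965) (nat_lit 26) (.e (nat_lit 147464) (nat_lit 9) .nil)))) .nil)) 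
(.lf (nat_lit 122659) (.g (nat_lit 1813) (.e (nat_lit 7161) (nat_lit 382) (.e (nat_lit 1215) (nat_lit 90) (.e (nat_lit 81950) (nat_lit 21) (.e (nat_lit 57683) (nat_lit 155) (.e (nat_lit 122917) (nat_lit 15) (.e (nat_lit 368384) (nat_lit 0) .nil)))))) (.g (nat_lit 5) .nil .nil)))) (.nd (nat_lit 5) 
(.lf (nat_lit 122643) (.g (nat_lit 1234) (.e (nat_lit 7160) (nat_lit 382) (.e (nat_lit 1215) (nat_lit 90) (.e (nat_lit 81940) (nat_lit 20) (.e (nat_lit 2270) (nat_lit 149) (.e (nat_lit 761868) (nat_lit 5) (.e (nat_lit 1585) (nat_lit 111) (.e (nat_lit 368384) (nat_lit 0) .nil))))))) (.g (nat_lit 6) .nil .nil))) 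
(.lf (nat_lit 122675) (.g (nat_lit 1935) (.e (nat_lit 7236) (nat_lit 382) (.e (nat_lit 1188) (nat_lit 88) (.e (nat_lit 65571) (nat_lit 3) (.e (nat_lit 98372) (nat_lit 29) (.e (nat_lit 450586) (nat_lit 10) .nil))))) .nil)))) (.nd (nat_lit 4) (.nd (nat_lit 5) 
(.lf (nat_lit 122635) (.g (nat_lit 2736) (.e (nat_lit 7147) (nat_lit 382) (.e (nat_lit 1217) (nat_lit 90) (.e (nat_lit 81965) (nat_lit 26) (.e (nat_lit 147496) (nat_lit 11) (.e (nat_lit 24643) (nat_lit 11) (.e (nat_lit 368662) (nat_lit 18) .nil)))))) (.g (nat_lit 0) .nil .nil))) 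
(.lf (nat_lit 122667) (.g (nat_lit 1484) (.e (nat_lit 7232) (nat_lit 382) (.e (nat_lit 1220) (nat_lit 90) (.e (nat_lit 81965) (nat_lit 26) (.e (nat_lit 147495) (nat_lit 11) .nil)))) .nil))) (.nd (nat_lit 5) 
(.lf (nat_lit 122651) (.g (nat_lit 1592) (.e (nat_lit 7160) (nat_lit 382) (.e (nat_lit 1215) (nat_lit 90) (.e (nat_lit 81948) (nat_lit 21) (.e (nat_lit 57683) (nat_lit 155) (.e (nat_lit 122919) (nat_lit 15) (.e (nat_lit 368384) (nat_lit 0) .nil)))))) (.g (nat_lit 5) .nil .nil))) 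
(.lf (nat_lit 122683) (.g (nat_lit 1598) (.e (nat_lit 7236) (nat_lit 382) (.e (nat_lit 1190) (nat_lit 88) (.e (nat_lit 65627) (nat_lit 13) (.e (nat_lit 393234) (nat_lit 17) (.e (nat_lit 7593) (nat_lit 407) .nil))))) .nil))))) (.nd (nat_lit 3) (.nd (nat_lit 4) (.nd (nat_lit 5) 
(.lf (nat_lit 122631) (.g (nat_lit 1401) (.e (nat_lit 7147) (nat_lit 382) (.e (nat_lit 1217) (nat_lit 90) (.e (nat_lit 81965) (nat_lit 26) (.e (nat_lit 147493) (nat_lit 11) (.e (nat_lit 24646) (nat_lit 11) .nil))))) .nil)) 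
(.lf (nat_lit 122663) (.g (nat_lit 2415) (.e (nat_lit 7230) (nat_lit 382) (.e (nat_lit 1220) (nat_lit 90) (.e (nat_lit 81950) (nat_lit 21) (.e (nat_lit 57681) (nat_lit 155) (.e (nat_lit 122917) (nat_lit 15) .nil))))) .nil))) (.nd (nat_lit 5) 
(.lf (nat_lit 122647) (.g (nat_lit 1776) (.e (nat_lit 7160) (nat_lit 382) (.e (nat_lit 1215) (nat_lit 90) (.e (nat_lit 81943) (nat_lit 20) (.e (nat_lit 2281) (nat_lit 150) (.e (nat_lit 770058) (nat_lit 5) (.e (nat_lit 1586) (nat_lit 111) (.e (nat_lit 368384) (nat_lit 0) .nil))))))) (.g (nat_lit 6) .nil .nil))) 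
(.lf (nat_lit 122679) (.g (nat_lit 1713) (.e (nat_lit 7236) (nat_lit 382) (.e (nat_lit 1190) (nat_lit 88) (.e (nat_lit 65571) (nat_lit 3) (.e (nat_lit 98369) (nat_lit 28) .nil)))) .nil)))) (.nd (nat_lit 4) (.nd (nat_lit 5) 
(.lf (nat_lit 122639) (.g (nat_lit 734) (.e (nat_lit 7160) (nat_lit 382) (.e (nat_lit 1202) (nat_lit 88) (.e (nat_lit 65627) (nat_lit 13) (.e (nat_lit 393300) (nat_lit 27) .nil)))) .nil)) 
(.lf (nat_lit 122671) (.g (nat_lit 2318) (.e (nat_lit 7233) (nat_lit 382) (.e (nat_lit 1190) (nat_lit 88) (.e (nat_lit 65571) (nat_lit 3) (.e (nat_lit 98359) (nat_lit 26) (.e (nat_lit 426286) (nat_lit 10) .nil))))) .nil))) (.nd (nat_lit 5) 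
(.lf (nat_lit 122655) (.g (nat_lit 1179) (.e (nat_lit 7160) (nat_lit 382) (.e (nat_lit 1215) (nat_lit 90) (.e (nat_lit 81963) (nat_lit 26) (.e (nat_lit 147467) (nat_lit 9) (.e (nat_lit 321) (nat_lit 24) (.e (nat_lit 368384) (nat_lit 0) .nil)))))) (.g (nat_lit 5) .nil .nil))) 
(.lf (nat_lit 122687) (.g (nat_lit 742) (.e (nat_lit 7236) (nat_lit 382) (.e (nat_lit 1196) (nat_lit 88) (.e (nat_lit 65625) (nat_lit 13) (.e (nat_lit 393301) (nat_lit 27) .nil)))) .nil))))))))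

noncomputable def tv1636 : DT := (.nd (nat_lit 0) (.nd (nat_lit 1) (.nd (nat_lit 2) (.nd (nat_lit 3) (.nd (nat_lit 4) (.nd (nat_lit 5) 
(.lf (nat_lit 122688) (.g (nat_lit 769) (.e (nat_lit 7236) (nat_lit 382) (.e (nat_lit 1196) (nat_lit 88) (.e (nat_lit 65626) (nat_lit 13) (.e (nat_lit 393234) (nat_lit 17) .nil)))) .nil)) 
(.lf (nat_lit 122720) (.g (nat_lit 1052) (.e (nat_lit 7236) (nat_lit 382) (.e (nat_lit 1199) (nat_lit 88) (.e (nat_lit 65625) (nat_lit 13) (.e (nat_lit 393299) (nat_lit 27) .nil)))) .nil))) (.nd (nat_lit 5) 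
(.lf (nat_lit 122704) (.g (nat_lit 1837) (.e (nat_lit 7236) (nat_lit 382) (.e (nat_lit 1199) (nat_lit 88) (.e (nat_lit 65610) (nat_lit 10) (.e (nat_lit 344177) (nat_lit 43) (.e (nat_lit 770072) (nat_lit 8) .nil))))) .nil)) 
(.lf (nat_lit 122736) (.g (nat_lit 1685) (.e (nat_lit 7236) (nat_lit 382) (.e (nat_lit 1200) (nat_lit 88) (.e (nat_lit 65569) (nat_lit 3) (.e (nat_lit 98373) (nat_lit 29) (.e (nat_lit 450588) (nat_lit 10) .nil))))) .nil)))) (.nd (nat_lit 4) (.nd (nat_lit 5) 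
(.lf (nat_lit 122696) (.g (nat_lit 2174) (.e (nat_lit 7236) (nat_lit 382) (.e (nat_lit 1199) (nat_lit 88) (.e (nat_lit 65571) (nat_lit 3) (.e (nat_lit 98369) (nat_lit 28) (.e (nat_lit 450304) (nat_lit 3) .nil))))) .nil)) 
(.lf (nat_lit 122728) (.g (nat_lit 2947) (.e (nat_lit 7236) (nat_lit 382) (.e (nat_lit 1199) (nat_lit 88) (.e (nat_lit 65627) (nat_lit 13) (.e (nat_lit 393234) (nat_lit 17) (.e (nat_lit 7591) (nat_lit 407) (.e (nat_lit 81664) (nat_lit 0) .nil)))))) (.g (nat_lit 5) .nil .nil)))) (.nd (nat_lit 5) 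
(.lf (nat_lit 122712) (.g (nat_lit 1720) (.e (nat_lit 7236) (nat_lit 382) (.e (nat_lit 1199) (nat_lit 88) (.e (nat_lit 65617) (nat_lit 10) (.e (nat_lit 344095) (nat_lit 18) (.e (nat_lit 7261) (nat_lit 384) (.e (nat_lit 57427) (nat_lit 15) (.e (nat_lit 368384) (nat_lit 0) .nil))))))) (.g (nat_lit 4) .nil .nil))) 
(.lf (nat_lit 122744) (.g (nat_lit 1846) (.e (nat_lit 7236) (nat_lit 382) (.e (nat_lit 1200) (nat_lit 88) (.e (nat_lit 65619) (nat_lit 10) (.e (nat_lit 344090) (nat_lit 18) (.e (nat_lit 7265) (nat_lit 384) .nil))))) .nil))))) (.nd (nat_lit 3) (.nd (nat_lit 4) (.nd (nat_lit 5) 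
(.lf (nat_lit 122692) (.g (nat_lit 2077) (.e (nat_lit 7236) (nat_lit 382) (.e (nat_lit 1199) (nat_lit 88) (.e (nat_lit 65569) (nat_lit 3) (.e (nat_lit 98370) (nat_lit 28) (.e (nat_lit 450304) (nat_lit 3) (.e (nat_lit 98323) (nat_lit 17) (.e (nat_lit 2397) (nat_lit 157) .nil))))))) (.g (nat_lit 4) .nil .nil))) 
(.lf (nat_lit 122724) (.g (nat_lit 1928) (.e (nat_lit 7236) (nat_lit 382) (.e (nat_lit 1199) (nat_lit 88) (.e (nat_lit 65627) (nat_lit 13) (.e (nat_lit 393231) (nat_lit 17) (.e (nat_lit 7591) (nat_lit 407) (.e (nat_lit 81664) (nat_lit 0) .nil)))))) (.g (nat_lit 4) .nil .nil)))) (.nd (nat_lit 5) 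
(.lf (nat_lit 122708) (.g (nat_lit 2141) (.e (nat_lit 7236) (nat_lit 382) (.e (nat_lit 1199) (nat_lit 88) (.e (nat_lit 65617) (nat_lit 10) (.e (nat_lit 344091) (nat_lit 18) (.e (nat_lit 7124) (nat_lit 382) (.e (nat_lit 1201) (nat_lit 88) (.e (nat_lit 65617) (nat_lit 10) (.e (nat_lit 344091) (nat_lit 18) .nil)))))))) (.g (nat_lit 4) .nil .nil))) 
(.lf (nat_lit 122740) (.g (nat_lit 2254) (.e (nat_lit 7236) (nat_lit 382) (.e (nat_lit 1200) (nat_lit 88) (.e (nat_lit 65571) (nat_lit 3) (.e (nat_lit 98373) (nat_lit 29) (.e (nat_lit 450587) (nat_lit 10) .nil))))) .nil)))) (.nd (nat_lit 4) (.nd (nat_lit 5) 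
(.lf (nat_lit 122700) (.g (nat_lit 4945) (.e (nat_lit 7236) (nat_lit 382) (.e (nat_lit 1199) (nat_lit 88) (.e (nat_lit 65571) (nat_lit 3) (.e (nat_lit 98373) (nat_lit 29) (.e (nat_lit 450588) (nat_lit 10) (.e (nat_lit 573473) (nat_lit 12) (.e (nat_lit 57348) (nat_lit 0) .nil))))))) (.g (nat_lit 7) .nil .nil))) 
(.lf (nat_lit 122732) (.g (nat_lit 2086) (.e (nat_lit 7236) (nat_lit 382) (.e (nat_lit 1199) (nat_lit 88) (.e (nat_lit 65627) (nat_lit 13) (.e (nat_lit 393299) (nat_lit 27) (.e (nat_lit 491558) (nat_lit 10) .nil))))) .nil))) (.nd (nat_lit 5) 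
(.lf (nat_lit 122716) (.g (nat_lit 2698) (.e (nat_lit 7236) (nat_lit 382) (.e (nat_lit 1199) (nat_lit 88) (.e (nat_lit 65617) (nat_lit 10) (.e (nat_lit 344096) (nat_lit 18) (.e (nat_lit 7265) (nat_lit 384) (.e (nat_lit 57427) (nat_lit 15) (.e (nat_lit 368384) (nat_lit 0) .nil))))))) (.g (nat_lit 5) .nil .nil))) 
(.lf (nat_lit 122748) (.g (nat_lit 1883) (.e (nat_lit 7236) (nat_lit 382) (.e (nat_lit 1200) (nat_lit 88) (.e (nat_lit 65619) (nat_lit 10) (.e (nat_lit 344174) (nat_lit 42) (.e (nat_lit 761869) (nat_lit 5) .nil))))) .nil)))))) (.nd (nat_lit 2) (.nd (nat_lit 3) (.nd (nat_lit 4) (.nd (nat_lit 5) 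
(.lf (nat_lit 122690) (.g (nat_lit 1446) (.e (nat_lit 7236) (nat_lit 382) (.e (nat_lit 1196) (nat_lit 88) (.e (nat_lit 65627) (nat_lit 13) (.e (nat_lit 393234) (nat_lit 17) (.e (nat_lit 7593) (nat_lit 407) .nil))))) .nil)) 
(.lf (nat_lit 122722) (.g (nat_lit 1595) (.e (nat_lit 7236) (nat_lit 382) (.e (nat_lit 1199) (nat_lit 88) (.e (nat_lit 65625) (nat_lit 13) (.e (nat_lit 393300) (nat_lit 27) (.e (nat_lit 491560) (nat_lit 10) .nil))))) .nil))) (.nd (nat_lit 5) 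
(.lf (nat_lit 122706) (.g (nat_lit 808) (.e (nat_lit 7236) (nat_lit 382) (.e (nat_lit 1199) (nat_lit 88) (.e (nat_lit 65611) (nat_lit 10) (.e (nat_lit 344177) (nat_lit 43) .nil)))) .nil)) 
(.lf (nat_lit 122738) (.g (nat_lit 2150) (.e (nat_lit 7236) (nat_lit 382) (.e (nat_lit 1200) (nat_lit 88) (.e (nat_lit 65571) (nat_lit 3) (.e (nat_lit 98370) (nat_lit 28) (.e (nat_lit 450304) (nat_lit 3) .nil))))) .nil)))) (.nd (nat_lit 4) (.nd (nat_lit 5) 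
(.lf (nat_lit 122698) (.g (nat_lit 2220) (.e (nat_lit 7236) (nat_lit 382) (.e (nat_lit 1199) (nat_lit 88) (.e (nat_lit 65571) (nat_lit 3) (.e (nat_lit 98372) (nat_lit 29) (.e (nat_lit 450586) (nat_lit 10) .nil))))) .nil)) 
(.lf (nat_lit 122730) (.g (nat_lit 2172) (.e (nat_lit 7236) (nat_lit 382) (.e (nat_lit 1199) (nat_lit 88) (.e (nat_lit 65627) (nat_lit 13) (.e (nat_lit 393298) (nat_lit 27) (.e (nat_lit 491558) (nat_lit 10) .nil))))) .nil))) (.nd (nat_lit 5) 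
(.lf (nat_lit 122714) (.g (nat_lit 1824) (.e (nat_lit 7236) (nat_lit 382) (.e (nat_lit 1199) (nat_lit 88) (.e (nat_lit 65617) (nat_lit 10) (.e (nat_lit 344096) (nat_lit 18) (.e (nat_lit 7261) (nat_lit 384) .nil))))) .nil)) 
(.lf (nat_lit 122746) (.g (nat_lit 1938) (.e (nat_lit 7236) (nat_lit 382) (.e (nat_lit 1200) (nat_lit 88) (.e (nat_lit 65619) (nat_lit 10) (.e (nat_lit 344174) (nat_lit 42) (.e (nat_lit 761867) (nat_lit 5) .nil))))) .nil))))) (.nd (nat_lit 3) (.nd (nat_lit 4) (.nd (nat_lit 5) 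
(.lf (nat_lit 122694) (.g (nat_lit 1992) (.e (nat_lit 7236) (nat_lit 382) (.e (nat_lit 1199) (nat_lit 88) (.e (nat_lit 65569) (nat_lit 3) (.e (nat_lit 98373) (nat_lit 29) (.e (nat_lit 450587) (nat_lit 10) .nil))))) .nil)) 
(.lf (nat_lit 122726) (.g (nat_lit 2273) (.e (nat_lit 7236) (nat_lit 382) (.e (nat_lit 1199) (nat_lit 88) (.e (nat_lit 65627) (nat_lit 13) (.e (nat_lit 393233) (nat_lit 17) (.e (nat_lit 7591) (nat_lit 407) (.e (nat_lit 81664) (nat_lit 0) .nil)))))) (.g (nat_lit 5) .nil .nil)))) (.nd (nat_lit 5) 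
(.lf (nat_lit 122710) (.g (nat_lit 1751) (.e (nat_lit 7236) (nat_lit 382) (.e (nat_lit 1199) (nat_lit 88) (.e (nat_lit 65617) (nat_lit 10) (.e (nat_lit 344091) (nat_lit 18) (.e (nat_lit 7265) (nat_lit 384) .nil))))) .nil)) 
(.lf (nat_lit 122742) (.g (nat_lit 1790) (.e (nat_lit 7236) (nat_lit 382) (.e (nat_lit 1200) (nat_lit 88) (.e (nat_lit 65619) (nat_lit 10) (.e (nat_lit 344090) (nat_lit 18) (.e (nat_lit 7124) (nat_lit 382) .nil))))) .nil)))) (.nd (nat_lit 4) (.nd (nat_lit 5) 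
(.lf (nat_lit 122702) (.g (nat_lit 4739) (.e (nat_lit 7236) (nat_lit 382) (.e (nat_lit 1199) (nat_lit 88) (.e (nat_lit 65571) (nat_lit 3) (.e (nat_lit 98373) (nat_lit 29) (.e (nat_lit 450588) (nat_lit 10) (.e (nat_lit 573475) (nat_lit 12) (.e (nat_lit 57348) (nat_lit 0) .nil))))))) (.g (nat_lit 6) .nil .nil))) 
(.lf (nat_lit 122734) (.g (nat_lit 3870) (.e (nat_lit 7236) (nat_lit 382) (.e (nat_lit 1199) (nat_lit 88) (.e (nat_lit 65627) (nat_lit 13) (.e (nat_lit 393301) (nat_lit 27) (.e (nat_lit 491558) (nat_lit 10) (.e (nat_lit 344091) (nat_lit 18) .nil)))))) (.g (nat_lit 6) .nil .nil)))) (.nd (nat_lit 5) 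
(.lf (nat_lit 122718) (.g (nat_lit 1825) (.e (nat_lit 7236) (nat_lit 382) (.e (nat_lit 1199) (nat_lit 88) (.e (nat_lit 65617) (nat_lit 10) (.e (nat_lit 344177) (nat_lit 43) (.e (nat_lit 770058) (nat_lit 5) .nil))))) .nil)) 
(.lf (nat_lit 122750) (.g (nat_lit 1920) (.e (nat_lit 7236) (nat_lit 382) (.e (nat_lit 1200) (nat_lit 88) (.e (nat_lit 65619) (nat_lit 10) (.e (nat_lit 344177) (nat_lit 43) (.e (nat_lit 770058) (nat_lit 5) .nil))))) .nil))))))) (.nd (nat_lit 1) (.nd (nat_lit 2) (.nd (nat_lit 3) (.nd (nat_lit 4) (.nd (nat_lit 5) 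
(.lf (nat_lit 122689) (.g (nat_lit 1453) (.e (nat_lit 7236) (nat_lit 382) (.e (nat_lit 1196) (nat_lit 88) (.e (nat_lit 65627) (nat_lit 13) (.e (nat_lit 393234) (nat_lit 17) (.e (nat_lit 7591) (nat_lit 407) .nil))))) .nil)) 
(.lf (nat_lit 122721) (.g (nat_lit 1887) (.e (nat_lit 7236) (nat_lit 382) (.e (nat_lit 1199) (nat_lit 88) (.e (nat_lit 65625) (nat_lit 13) (.e (nat_lit 393299) (nat_lit 27) (.e (nat_lit 491558) (nat_lit 10) .nil))))) .nil))) (.nd (nat_lit 5) 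
(.lf (nat_lit 122705) (.g (nat_lit 813) (.e (nat_lit 7236) (nat_lit 382) (.e (nat_lit 1199) (nat_lit 88) (.e (nat_lit 65611) (nat_lit 10) (.e (nat_lit 344174) (nat_lit 42) .nil)))) .nil)) 
(.lf (nat_lit 122737) (.g (nat_lit 2019) (.e (nat_lit 7236) (nat_lit 382) (.e (nat_lit 1200) (nat_lit 88) (.e (nat_lit 65571) (nat_lit 3) (.e (nat_lit 98359) (nat_lit 26) (.e (nat_lit 426286) (nat_lit 10) .nil))))) .nil)))) (.nd (nat_lit 4) (.nd (nat_lit 5) 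
(.lf (nat_lit 122697) (.g (nat_lit 2140) (.e (nat_lit 7236) (nat_lit 382) (.e (nat_lit 1199) (nat_lit 88) (.e (nat_lit 65571) (nat_lit 3) (.e (nat_lit 98370) (nat_lit 28) (.e (nat_lit 450304) (nat_lit 3) .nil))))) .nil)) 
(.lf (nat_lit 122729) (.g (nat_lit 2873) (.e (nat_lit 7236) (nat_lit 382) (.e (nat_lit 1199) (nat_lit 88) (.e (nat_lit 65627) (nat_lit 13) (.e (nat_lit 393234) (nat_lit 17) (.e (nat_lit 7593) (nat_lit 407) (.e (nat_lit 81664) (nat_lit 0) .nil)))))) (.g (nat_lit 5) .nil .nil)))) (.nd (nat_lit 5) 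
(.lf (nat_lit 122713) (.g (nat_lit 2244) (.e (nat_lit 7236) (nat_lit 382) (.e (nat_lit 1199) (nat_lit 88) (.e (nat_lit 65617) (nat_lit 10) (.e (nat_lit 344096) (nat_lit 18) (.e (nat_lit 7124) (nat_lit 382) (.e (nat_lit 1201) (nat_lit 88) (.e (nat_lit 65617) (nat_lit 10) (.e (nat_lit 344091) (nat_lit 18) .nil)))))))) (.g (nat_lit 4) .nil .nil))) 
(.lf (nat_lit 122745) (.g (nat_lit 1264) (.e (nat_lit 7236) (nat_lit 382) (.e (nat_lit 1200) (nat_lit 88) (.e (nat_lit 65619) (nat_lit 10) (.e (nat_lit 344174) (nat_lit 42) .nil)))) .nil))))) (.nd (nat_lit 3) (.nd (nat_lit 4) (.nd (nat_lit 5) 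
(.lf (nat_lit 122693) (.g (nat_lit 1646) (.e (nat_lit 7236) (nat_lit 382) (.e (nat_lit 1199) (nat_lit 88) (.e (nat_lit 65569) (nat_lit 3) (.e (nat_lit 98372) (nat_lit 29) (.e (nat_lit 450586) (nat_lit 10) .nil))))) .nil)) 
(.lf (nat_lit 122725) (.g (nat_lit 2145) (.e (nat_lit 7236) (nat_lit 382) (.e (nat_lit 1199) (nat_lit 88) (.e (nat_lit 65627) (nat_lit 13) (.e (nat_lit 393231) (nat_lit 17) (.e (nat_lit 7593) (nat_lit 407) (.e (nat_lit 81664) (nat_lit 0) .nil)))))) (.g (nat_lit 5) .nil .nil)))) (.nd (nat_lit 5) 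
(.lf (nat_lit 122709) (.g (nat_lit 2142) (.e (nat_lit 7236) (nat_lit 382) (.e (nat_lit 1199) (nat_lit 88) (.e (nat_lit 65617) (nat_lit 10) (.e (nat_lit 344091) (nat_lit 18) (.e (nat_lit 7125) (nat_lit 382) (.e (nat_lit 1201) (nat_lit 88) (.e (nat_lit 65617) (nat_lit 10) (.e (nat_lit 344096) (nat_lit 18) .nil)))))))) (.g (nat_lit 4) .nil .nil))) 
(.lf (nat_lit 122741) (.g (nat_lit 1120) (.e (nat_lit 7236) (nat_lit 382) (.e (nat_lit 1200) (nat_lit 88) (.e (nat_lit 65619) (nat_lit 10) (.e (nat_lit 344090) (nat_lit 18) .nil)))) .nil)))) (.nd (nat_lit 4) (.nd (nat_lit 5) 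
(.lf (nat_lit 122701) (.g (nat_lit 4493) (.e (nat_lit 7236) (nat_lit 382) (.e (nat_lit 1199) (nat_lit 88) (.e (nat_lit 65571) (nat_lit 3) (.e (nat_lit 98373) (nat_lit 29) (.e (nat_lit 450588) (nat_lit 10) (.e (nat_lit 573475) (nat_lit 12) (.e (nat_lit 57345) (nat_lit 0) .nil))))))) (.g (nat_lit 6) .nil .nil))) 
(.lf (nat_lit 122733) (.g (nat_lit 2510) (.e (nat_lit 7236) (nat_lit 382) (.e (nat_lit 1199) (nat_lit 88) (.e (nat_lit 65627) (nat_lit 13) (.e (nat_lit 393299) (nat_lit 27) (.e (nat_lit 491560) (nat_lit 10) .nil))))) .nil))) (.nd (nat_lit 5) 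
(.lf (nat_lit 122717) (.g (nat_lit 1715) (.e (nat_lit 7236) (nat_lit 382) (.e (nat_lit 1199) (nat_lit 88) (.e (nat_lit 65617) (nat_lit 10) (.e (nat_lit 344174) (nat_lit 42) (.e (nat_lit 761869) (nat_lit 5) .nil))))) .nil)) 
(.lf (nat_lit 122749) (.g (nat_lit 1231) (.e (nat_lit 7236) (nat_lit 382) (.e (nat_lit 1200) (nat_lit 88) (.e (nat_lit 65619) (nat_lit 10) (.e (nat_lit 344177) (nat_lit 43) .nil)))) .nil)))))) (.nd (nat_lit 2) (.nd (nat_lit 3) (.nd (nat_lit 4) (.nd (nat_lit 5) 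
(.lf (nat_lit 122691) (.g (nat_lit 1418) (.e (nat_lit 7236) (nat_lit 382) (.e (nat_lit 1196) (nat_lit 88) (.e (nat_lit 65627) (nat_lit 13) (.e (nat_lit 393300) (nat_lit 27) (.e (nat_lit 491558) (nat_lit 10) .nil))))) .nil)) 
(.lf (nat_lit 122723) (.g (nat_lit 425) (.e (nat_lit 7236) (nat_lit 382) (.e (nat_lit 1199) (nat_lit 88) (.e (nat_lit 65626) (nat_lit 13) .nil))) .nil))) (.nd (nat_lit 5) 
(.lf (nat_lit 122707) (.g (nat_lit 1871) (.e (nat_lit 7236) (nat_lit 382) (.e (nat_lit 1199) (nat_lit 88) (.e (nat_lit 65617) (nat_lit 10) (.e (nat_lit 344091) (nat_lit 18) (.e (nat_lit 7122) (nat_lit 382) .nil))))) .nil)) 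
(.lf (nat_lit 122739) (.g (nat_lit 2341) (.e (nat_lit 7236) (nat_lit 382) (.e (nat_lit 1200) (nat_lit 88) (.e (nat_lit 65571) (nat_lit 3) (.e (nat_lit 98372) (nat_lit 29) (.e (nat_lit 450586) (nat_lit 10) .nil))))) .nil)))) (.nd (nat_lit 4) (.nd (nat_lit 5) 
(.lf (nat_lit 122699) (.g (nat_lit 3907) (.e (nat_lit 7236) (nat_lit 382) (.e (nat_lit 1199) (nat_lit 88) (.e (nat_lit 65571) (nat_lit 3) (.e (nat_lit 98372) (nat_lit 29) (.e (nat_lit 450586) (nat_lit 10) (.e (nat_lit 573473) (nat_lit 12) (.e (nat_lit 57348) (nat_lit 0) .nil))))))) (.g (nat_lit 6) .nil .nil))) 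
(.lf (nat_lit 122731) (.g (nat_lit 2148) (.e (nat_lit 7236) (nat_lit 382) (.e (nat_lit 1199) (nat_lit 88) (.e (nat_lit 65627) (nat_lit 13) (.e (nat_lit 393298) (nat_lit 27) (.e (nat_lit 491560) (nat_lit 10) .nil))))) .nil))) (.nd (nat_lit 5) 
(.lf (nat_lit 122715) (.g (nat_lit 1838) (.e (nat_lit 7236) (nat_lit 382) (.e (nat_lit 1199) (nat_lit 88) (.e (nat_lit 65617) (nat_lit 10) (.e (nat_lit 344096) (nat_lit 18) (.e (nat_lit 7263) (nat_lit 384) .nil))))) .nil)) 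
(.lf (nat_lit 122747) (.g (nat_lit 1884) (.e (nat_lit 7236) (nat_lit 382) (.e (nat_lit 1200) (nat_lit 88) (.e (nat_lit 65619) (nat_lit 10) (.e (nat_lit 344174) (nat_lit 42) (.e (nat_lit 761868) (nat_lit 5) .nil))))) .nil))))) (.nd (nat_lit 3) (.nd (nat_lit 4) (.nd (nat_lit 5) 
(.lf (nat_lit 122695) (.g (nat_lit 1994) (.e (nat_lit 7236) (nat_lit 382) (.e (nat_lit 1199) (nat_lit 88) (.e (nat_lit 65571) (nat_lit 3) (.e (nat_lit 98359) (nat_lit 26) (.e (nat_lit 426286) (nat_lit 10) .nil))))) .nil)) 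
(.lf (nat_lit 122727) (.g (nat_lit 2243) (.e (nat_lit 7236) (nat_lit 382) (.e (nat_lit 1199) (nat_lit 88) (.e (nat_lit 65627) (nat_lit 13) (.e (nat_lit 393233) (nat_lit 17) (.e (nat_lit 7593) (nat_lit 407) (.e (nat_lit 81664) (nat_lit 0) .nil)))))) (.g (nat_lit 5) .nil .nil)))) (.nd (nat_lit 5) 
(.lf (nat_lit 122711) (.g (nat_lit 2572) (.e (nat_lit 7236) (nat_lit 382) (.e (nat_lit 1199) (nat_lit 88) (.e (nat_lit 65617) (nat_lit 10) (.e (nat_lit 344091) (nat_lit 18) (.e (nat_lit 7265) (nat_lit 384) (.e (nat_lit 57427) (nat_lit 15) (.e (nat_lit 368384) (nat_lit 0) .nil))))))) (.g (nat_lit 5) .nil .nil))) 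
(.lf (nat_lit 122743) (.g (nat_lit 1576) (.e (nat_lit 7236) (nat_lit 382) (.e (nat_lit 1200) (nat_lit 88) (.e (nat_lit 65619) (nat_lit 10) (.e (nat_lit 344090) (nat_lit 18) (.e (nat_lit 7125) (nat_lit 382) .nil))))) .nil)))) (.nd (nat_lit 4) (.nd (nat_lit 5) 
(.lf (nat_lit 122703) (.g (nat_lit 1787) (.e (nat_lit 7236) (nat_lit 382) (.e (nat_lit 1199) (nat_lit 88) (.e (nat_lit 65586) (nat_lit 7) (.e (nat_lit 319531) (nat_lit 16) (.e (nat_lit 286748) (nat_lit 9) .nil))))) .nil)) 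
(.lf (nat_lit 122735) (.g (nat_lit 3696) (.e (nat_lit 7236) (nat_lit 382) (.e (nat_lit 1199) (nat_lit 88) (.e (nat_lit 65627) (nat_lit 13) (.e (nat_lit 393301) (nat_lit 27) (.e (nat_lit 491560) (nat_lit 10) (.e (nat_lit 352000) (nat_lit 18) .nil)))))) (.g (nat_lit 5) .nil .nil)))) (.nd (nat_lit 5) 
(.lf (nat_lit 122719) (.g (nat_lit 1137) (.e (nat_lit 7236) (nat_lit 382) (.e (nat_lit 1199) (nat_lit 88) (.e (nat_lit 65625) (nat_lit 13) (.e (nat_lit 393298) (nat_lit 27) .nil)))) .nil)) 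
(.lf (nat_lit 122751) (.g (nat_lit 410) (.e (nat_lit 7236) (nat_lit 382) (.e (nat_lit 1200) (nat_lit 88) (.e (nat_lit 65625) (nat_lit 13) .nil))) .nil))))))))

noncomputable def tv1637 : DT := (.nd (nat_lit 0) (.nd (nat_lit 1) (.nd (nat_lit 2) (.nd (nat_lit 3) (.nd (nat_lit 4) (.nd (nat_lit 5) (.nd (nat_lit 6) 
(.lf (nat_lit 122752) (.g (nat_lit 437) (.e (nat_lit 7236) (nat_lit 382) (.e (nat_lit 1200) (nat_lit 88) (.e (nat_lit 65626) (nat_lit 13) .nil))) .nil)) 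
(.lf (nat_lit 122816) (.g (nat_lit 1016) (.e (nat_lit 7236) (nat_lit 382) (.e (nat_lit 1221) (nat_lit 90) (.e (nat_lit 81965) (nat_lit 26) (.e (nat_lit 147492) (nat_lit 11) .nil)))) .nil))) (.nd (nat_lit 6) 
(.lf (nat_lit 122784) (.g (nat_lit 2527) (.e (nat_lit 7236) (nat_lit 382) (.e (nat_lit 1220) (nat_lit 90) (.e (nat_lit 81950) (nat_lit 21) (.e (nat_lit 57681) (nat_lit 155) (.e (nat_lit 122918) (nat_lit 15) .nil))))) .nil)) 
(.lf (nat_lit 122848) (.g (nat_lit 964) (.e (nat_lit 7237) (nat_lit 382) (.e (nat_lit 1220) (nat_lit 90) (.e (nat_lit 89856) (nat_lit 10) (.e (nat_lit 417795) (nat_lit 0) (.e (nat_lit 5413) (nat_lit 303) (.e (nat_lit 81664) (nat_lit 0) .nil)))))) (.g (nat_lit 4) .nil .nil))))) (.nd (nat_lit 5) (.nd (nat_lit 6) 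
(.lf (nat_lit 122768) (.g (nat_lit 1066) (.e (nat_lit 7236) (nat_lit 382) (.e (nat_lit 1219) (nat_lit 90) (.e (nat_lit 89856) (nat_lit 10) (.e (nat_lit 417796) (nat_lit 0) (.e (nat_lit 5410) (nat_lit 303) (.e (nat_lit 81664) (nat_lit 0) .nil)))))) (.g (nat_lit 4) .nil .nil))) 
(.lf (nat_lit 122832) (.g (nat_lit 3128) (.e (nat_lit 7236) (nat_lit 382) (.e (nat_lit 1294) (nat_lit 96) (.e (nat_lit 131109) (nat_lit 9) (.e (nat_lit 336443) (nat_lit 32) (.e (nat_lit 466972) (nat_lit 21) (.e (nat_lit 164330) (nat_lit 230) (.e (nat_lit 163846) (nat_lit 0) (.e (nat_lit 2397) (nat_lit 157) .nil)))))))) (.g (nat_lit 6) .nil .nil)))) (.nd (nat_lit 6) 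
(.lf (nat_lit 122800) (.g (nat_lit 1716) (.e (nat_lit 7236) (nat_lit 382) (.e (nat_lit 1221) (nat_lit 90) (.e (nat_lit 81959) (nat_lit 24) (.e (nat_lit 123051) (nat_lit 152) .nil)))) .nil)) 
(.lf (nat_lit 122864) (.g (nat_lit 4545) (.e (nat_lit 7237) (nat_lit 382) (.e (nat_lit 1220) (nat_lit 90) (.e (nat_lit 81950) (nat_lit 21) (.e (nat_lit 57681) (nat_lit 155) (.e (nat_lit 122919) (nat_lit 15) (.e (nat_lit 368384) (nat_lit 0) .nil)))))) (.g (nat_lit 5) .nil .nil)))))) (.nd (nat_lit 4) (.nd (nat_lit 5) (.nd (nat_lit 6) 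
(.lf (nat_lit 122760) (.g (nat_lit 1703) (.e (nat_lit 7236) (nat_lit 382) (.e (nat_lit 1209) (nat_lit 89) (.e (nat_lit 73747) (nat_lit 3) (.e (nat_lit 516150) (nat_lit 9) .nil)))) .nil)) 
(.lf (nat_lit 122824) (.g (nat_lit 2115) (.e (nat_lit 7236) (nat_lit 382) (.e (nat_lit 1221) (nat_lit 90) (.e (nat_lit 81965) (nat_lit 26) (.e (nat_lit 147495) (nat_lit 11) (.e (nat_lit 24638) (nat_lit 9) (.e (nat_lit 335892) (nat_lit 0) (.e (nat_lit 974) (nat_lit 81) .nil))))))) (.g (nat_lit 4) .nil .nil)))) (.nd (nat_lit 6) 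
(.lf (nat_lit 122792) (.g (nat_lit 2427) (.e (nat_lit 7236) (nat_lit 382) (.e (nat_lit 1220) (nat_lit 90) (.e (nat_lit 81965) (nat_lit 26) (.e (nat_lit 147496) (nat_lit 11) (.e (nat_lit 24628) (nat_lit 9) .nil))))) .nil)) 
(.lf (nat_lit 122856) (.g (nat_lit 2147) (.e (nat_lit 7237) (nat_lit 382) (.e (nat_lit 1220) (nat_lit 90) (.e (nat_lit 81938) (nat_lit 20) (.e (nat_lit 2281) (nat_lit 150) (.e (nat_lit 770058) (nat_lit 5) (.e (nat_lit 1599) (nat_lit 111) (.e (nat_lit 368384) (nat_lit 0) .nil))))))) (.g (nat_lit 5) .nil .nil))))) (.nd (nat_lit 5) (.nd (nat_lit 6) 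
(.lf (nat_lit 122776) (.g (nat_lit 1760) (.e (nat_lit 7236) (nat_lit 382) (.e (nat_lit 1219) (nat_lit 90) (.e (nat_lit 81963) (nat_lit 26) (.e (nat_lit 147466) (nat_lit 9) (.e (nat_lit 324) (nat_lit 24) (.e (nat_lit 368384) (nat_lit 0) .nil)))))) (.g (nat_lit 4) .nil .nil))) 
(.lf (nat_lit 122840) (.g (nat_lit 527) (.e (nat_lit 7237) (nat_lit 382) (.e (nat_lit 1190) (nat_lit 88) (.e (nat_lit 65627) (nat_lit 13) .nil))) .nil))) (.nd (nat_lit 6) 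
(.lf (nat_lit 122808) (.g (nat_lit 2319) (.e (nat_lit 7236) (nat_lit 382) (.e (nat_lit 1221) (nat_lit 90) (.e (nat_lit 81965) (nat_lit 26) (.e (nat_lit 147466) (nat_lit 9) (.e (nat_lit 324) (nat_lit 24) (.e (nat_lit 368384) (nat_lit 0) .nil)))))) (.g (nat_lit 5) .nil .nil))) 
(.lf (nat_lit 122872) (.g (nat_lit 1223) (.e (nat_lit 7237) (nat_lit 382) (.e (nat_lit 1220) (nat_lit 90) (.e (nat_lit 81965) (nat_lit 26) (.e (nat_lit 147464) (nat_lit 9) .nil)))) .nil)))))) (.nd (nat_lit 3) (.nd (nat_lit 4) (.nd (nat_lit 5) (.nd (nat_lit 6) 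
(.lf (nat_lit 122756) (.g (nat_lit 3337) (.e (nat_lit 7236) (nat_lit 382) (.e (nat_lit 1209) (nat_lit 89) (.e (nat_lit 73746) (nat_lit 3) (.e (nat_lit 516150) (nat_lit 9) (.e (nat_lit 426320) (nat_lit 12) (.e (nat_lit 475179) (nat_lit 24) (.e (nat_lit 516102) (nat_lit 0) (.e (nat_lit 2400) (nat_lit 157) .nil)))))))) (.g (nat_lit 5) .nil .nil))) 
(.lf (nat_lit 122820) (.g (nat_lit 1960) (.e (nat_lit 7236) (nat_lit 382) (.e (nat_lit 1221) (nat_lit 90) (.e (nat_lit 81965) (nat_lit 26) (.e (nat_lit 147493) (nat_lit 11) (.e (nat_lit 24638) (nat_lit 9) (.e (nat_lit 335892) (nat_lit 0) (.e (nat_lit 974) (nat_lit 81) .nil))))))) (.g (nat_lit 4) .nil .nil)))) (.nd (nat_lit 6) 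
(.lf (nat_lit 122788) (.g (nat_lit 1507) (.e (nat_lit 7236) (nat_lit 382) (.e (nat_lit 1220) (nat_lit 90) (.e (nat_lit 81965) (nat_lit 26) (.e (nat_lit 147494) (nat_lit 11) .nil)))) .nil)) 
(.lf (nat_lit 122852) (.g (nat_lit 2432) (.e (nat_lit 7237) (nat_lit 382) (.e (nat_lit 1220) (nat_lit 90) (.e (nat_lit 81938) (nat_lit 20) (.e (nat_lit 2281) (nat_lit 150) (.e (nat_lit 770057) (nat_lit 5) (.e (nat_lit 1589) (nat_lit 111) (.e (nat_lit 368384) (nat_lit 0) .nil))))))) (.g (nat_lit 6) .nil .nil))))) (.nd (nat_lit 5) (.nd (nat_lit 6) 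
(.lf (nat_lit 122772) (.g (nat_lit 452) (.e (nat_lit 7236) (nat_lit 382) (.e (nat_lit 1219) (nat_lit 90) (.e (nat_lit 81927) (nat_lit 11) .nil))) .nil)) 
(.lf (nat_lit 122836) (.g (nat_lit 2882) (.e (nat_lit 7236) (nat_lit 382) (.e (nat_lit 1297) (nat_lit 96) (.e (nat_lit 131109) (nat_lit 9) (.e (nat_lit 336443) (nat_lit 32) (.e (nat_lit 466969) (nat_lit 21) (.e (nat_lit 164330) (nat_lit 230) (.e (nat_lit 163846) (nat_lit 0) (.e (nat_lit 2400) (nat_lit 157) .nil)))))))) (.g (nat_lit 6) .nil .nil)))) (.nd (nat_lit 6) 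
(.lf (nat_lit 122804) (.g (nat_lit 2229) (.e (nat_lit 7236) (nat_lit 382) (.e (nat_lit 1221) (nat_lit 90) (.e (nat_lit 81965) (nat_lit 26) (.e (nat_lit 147463) (nat_lit 9) (.e (nat_lit 321) (nat_lit 24) (.e (nat_lit 368384) (nat_lit 0) .nil)))))) (.g (nat_lit 5) .nil .nil))) 
(.lf (nat_lit 122868) (.g (nat_lit 1155) (.e (nat_lit 7237) (nat_lit 382) (.e (nat_lit 1220) (nat_lit 90) (.e (nat_lit 81965) (nat_lit 26) (.e (nat_lit 147463) (nat_lit 9) (.e (nat_lit 249) (nat_lit 21) .nil))))) .nil))))) (.nd (nat_lit 4) (.nd (nat_lit 5) (.nd (nat_lit 6) 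
(.lf (nat_lit 122764) (.g (nat_lit 2810) (.e (nat_lit 7236) (nat_lit 382) (.e (nat_lit 1209) (nat_lit 89) (.e (nat_lit 73747) (nat_lit 3) (.e (nat_lit 516176) (nat_lit 14) (.e (nat_lit 474880) (nat_lit 3) (.e (nat_lit 98323) (nat_lit 17) (.e (nat_lit 2400) (nat_lit 157) .nil))))))) (.g (nat_lit 4) .nil .nil))) 
(.lf (nat_lit 122828) (.g (nat_lit 1831) (.e (nat_lit 7236) (nat_lit 382) (.e (nat_lit 1221) (nat_lit 90) (.e (nat_lit 81965) (nat_lit 26) (.e (nat_lit 147496) (nat_lit 11) (.e (nat_lit 24640) (nat_lit 10) .nil))))) .nil))) (.nd (nat_lit 6) 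
(.lf (nat_lit 122796) (.g (nat_lit 1423) (.e (nat_lit 7236) (nat_lit 382) (.e (nat_lit 1221) (nat_lit 90) (.e (nat_lit 81947) (nat_lit 20) (.e (nat_lit 2270) (nat_lit 149) (.e (nat_lit 761868) (nat_lit 5) (.e (nat_lit 1597) (nat_lit 111) (.e (nat_lit 368384) (nat_lit 0) .nil))))))) (.g (nat_lit 4) .nil .nil))) 
(.lf (nat_lit 122860) (.g (nat_lit 1848) (.e (nat_lit 7237) (nat_lit 382) (.e (nat_lit 1220) (nat_lit 90) (.e (nat_lit 81950) (nat_lit 21) (.e (nat_lit 57666) (nat_lit 152) (.e (nat_lit 1078) (nat_lit 81) .nil))))) .nil)))) (.nd (nat_lit 5) (.nd (nat_lit 6) 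
(.lf (nat_lit 122780) (.g (nat_lit 1669) (.e (nat_lit 7236) (nat_lit 382) (.e (nat_lit 1219) (nat_lit 90) (.e (nat_lit 81963) (nat_lit 26) (.e (nat_lit 147495) (nat_lit 11) (.e (nat_lit 24638) (nat_lit 9) .nil))))) .nil)) 
(.lf (nat_lit 122844) (.g (nat_lit 2579) (.e (nat_lit 7237) (nat_lit 382) (.e (nat_lit 1209) (nat_lit 89) (.e (nat_lit 73747) (nat_lit 3) (.e (nat_lit 516174) (nat_lit 14) (.e (nat_lit 474880) (nat_lit 3) .nil))))) .nil))) (.nd (nat_lit 6) 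
(.lf (nat_lit 122812) (.g (nat_lit 1490) (.e (nat_lit 7236) (nat_lit 382) (.e (nat_lit 1221) (nat_lit 90) (.e (nat_lit 81965) (nat_lit 26) (.e (nat_lit 147476) (nat_lit 9) .nil)))) .nil)) 
(.lf (nat_lit 122876) (.g (nat_lit 2284) (.e (nat_lit 7237) (nat_lit 382) (.e (nat_lit 1220) (nat_lit 90) (.e (nat_lit 81965) (nat_lit 26) (.e (nat_lit 147467) (nat_lit 9) (.e (nat_lit 321) (nat_lit 24) (.e (nat_lit 368384) (nat_lit 0) .nil)))))) (.g (nat_lit 5) .nil .nil)))))))) (.nd (nat_lit 2) (.nd (nat_lit 3) (.nd (nat_lit 4) (.nd (nat_lit 5) (.nd (nat_lit 6) 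
(.lf (nat_lit 122754) (.g (nat_lit 2516) (.e (nat_lit 7236) (nat_lit 382) (.e (nat_lit 1209) (nat_lit 89) (.e (nat_lit 73746) (nat_lit 3) (.e (nat_lit 516146) (nat_lit 9) (.e (nat_lit 426227) (nat_lit 9) (.e (nat_lit 426438) (nat_lit 18) (.e (nat_lit 98323) (nat_lit 17) (.e (nat_lit 2400) (nat_lit 157) .nil)))))))) (.g (nat_lit 4) .nil .nil))) 
(.lf (nat_lit 122818) (.g (nat_lit 2687) (.e (nat_lit 7236) (nat_lit 382) (.e (nat_lit 1221) (nat_lit 90) (.e (nat_lit 81965) (nat_lit 26) (.e (nat_lit 147492) (nat_lit 11) (.e (nat_lit 24638) (nat_lit 9) (.e (nat_lit 335892) (nat_lit 0) (.e (nat_lit 999) (nat_lit 81) .nil))))))) (.g (nat_lit 6) .nil .nil)))) (.nd (nat_lit 6) 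
(.lf (nat_lit 122786) (.g (nat_lit 1422) (.e (nat_lit 7236) (nat_lit 382) (.e (nat_lit 1220) (nat_lit 90) (.e (nat_lit 81965) (nat_lit 26) (.e (nat_lit 147466) (nat_lit 9) .nil)))) .nil)) 
(.lf (nat_lit 122850) (.g (nat_lit 1043) (.e (nat_lit 7237) (nat_lit 382) (.e (nat_lit 1220) (nat_lit 90) (.e (nat_lit 81938) (nat_lit 20) (.e (nat_lit 2280) (nat_lit 150) .nil)))) .nil)))) (.nd (nat_lit 5) (.nd (nat_lit 6) 
(.lf (nat_lit 122770) (.g (nat_lit 542) (.e (nat_lit 7236) (nat_lit 382) (.e (nat_lit 1219) (nat_lit 90) (.e (nat_lit 81925) (nat_lit 11) .nil))) .nil)) 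
(.lf (nat_lit 122834) (.g (nat_lit 2731) (.e (nat_lit 7236) (nat_lit 382) (.e (nat_lit 1297) (nat_lit 96) (.e (nat_lit 131105) (nat_lit 9) (.e (nat_lit 336443) (nat_lit 32) (.e (nat_lit 466969) (nat_lit 21) (.e (nat_lit 164330) (nat_lit 230) (.e (nat_lit 163846) (nat_lit 0) (.e (nat_lit 2400) (nat_lit 157) .nil)))))))) (.g (nat_lit 6) .nil .nil)))) (.nd (nat_lit 6) 
(.lf (nat_lit 122802) (.g (nat_lit 409) (.e (nat_lit 7236) (nat_lit 382) (.e (nat_lit 1221) (nat_lit 90) (.e (nat_lit 81965) (nat_lit 26) .nil))) .nil)) 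
(.lf (nat_lit 122866) (.g (nat_lit 496) (.e (nat_lit 7237) (nat_lit 382) (.e (nat_lit 1220) (nat_lit 90) (.e (nat_lit 81965) (nat_lit 26) .nil))) .nil))))) (.nd (nat_lit 4) (.nd (nat_lit 5) (.nd (nat_lit 6) 
(.lf (nat_lit 122762) (.g (nat_lit 2741) (.e (nat_lit 7236) (nat_lit 382) (.e (nat_lit 1209) (nat_lit 89) (.e (nat_lit 73747) (nat_lit 3) (.e (nat_lit 516174) (nat_lit 14) (.e (nat_lit 474880) (nat_lit 3) (.e (nat_lit 98323) (nat_lit 17) (.e (nat_lit 2400) (nat_lit 157) .nil))))))) (.g (nat_lit 4) .nil .nil))) 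
(.lf (nat_lit 122826) (.g (nat_lit 1494) (.e (nat_lit 7236) (nat_lit 382) (.e (nat_lit 1221) (nat_lit 90) (.e (nat_lit 81965) (nat_lit 26) (.e (nat_lit 147496) (nat_lit 11) (.e (nat_lit 24617) (nat_lit 7) .nil))))) .nil))) (.nd (nat_lit 6) 
(.lf (nat_lit 122794) (.g (nat_lit 1352) (.e (nat_lit 7236) (nat_lit 382) (.e (nat_lit 1221) (nat_lit 90) (.e (nat_lit 81938) (nat_lit 20) (.e (nat_lit 2270) (nat_lit 149) .nil)))) .nil)) 
(.lf (nat_lit 122858) (.g (nat_lit 1831) (.e (nat_lit 7237) (nat_lit 382) (.e (nat_lit 1220) (nat_lit 90) (.e (nat_lit 81950) (nat_lit 21) (.e (nat_lit 57666) (nat_lit 152) (.e (nat_lit 1077) (nat_lit 81) .nil))))) .nil)))) (.nd (nat_lit 5) (.nd (nat_lit 6) 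
(.lf (nat_lit 122778) (.g (nat_lit 1512) (.e (nat_lit 7236) (nat_lit 382) (.e (nat_lit 1219) (nat_lit 90) (.e (nat_lit 81963) (nat_lit 26) (.e (nat_lit 147467) (nat_lit 9) (.e (nat_lit 324) (nat_lit 24) (.e (nat_lit 368384) (nat_lit 0) .nil)))))) (.g (nat_lit 4) .nil .nil))) 
(.lf (nat_lit 122842) (.g (nat_lit 1282) (.e (nat_lit 7237) (nat_lit 382) (.e (nat_lit 1200) (nat_lit 88) (.e (nat_lit 65619) (nat_lit 10) (.e (nat_lit 344174) (nat_lit 42) .nil)))) .nil))) (.nd (nat_lit 6) 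
(.lf (nat_lit 122810) (.g (nat_lit 2056) (.e (nat_lit 7236) (nat_lit 382) (.e (nat_lit 1221) (nat_lit 90) (.e (nat_lit 81965) (nat_lit 26) (.e (nat_lit 147467) (nat_lit 9) (.e (nat_lit 324) (nat_lit 24) (.e (nat_lit 368384) (nat_lit 0) .nil)))))) (.g (nat_lit 5) .nil .nil))) 
(.lf (nat_lit 122874) (.g (nat_lit 1864) (.e (nat_lit 7237) (nat_lit 382) (.e (nat_lit 1220) (nat_lit 90) (.e (nat_lit 81965) (nat_lit 26) (.e (nat_lit 147466) (nat_lit 9) (.e (nat_lit 324) (nat_lit 24) .nil))))) .nil)))))) (.nd (nat_lit 3) (.nd (nat_lit 4) (.nd (nat_lit 5) (.nd (nat_lit 6) 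
(.lf (nat_lit 122758) (.g (nat_lit 4410) (.e (nat_lit 7236) (nat_lit 382) (.e (nat_lit 1209) (nat_lit 89) (.e (nat_lit 73747) (nat_lit 3) (.e (nat_lit 516146) (nat_lit 9) (.e (nat_lit 426320) (nat_lit 12) (.e (nat_lit 475179) (nat_lit 24) (.e (nat_lit 516102) (nat_lit 0) (.e (nat_lit 2400) (nat_lit 157) .nil)))))))) (.g (nat_lit 6) .nil .nil))) 
(.lf (nat_lit 122822) (.g (nat_lit 2166) (.e (nat_lit 7236) (nat_lit 382) (.e (nat_lit 1221) (nat_lit 90) (.e (nat_lit 81965) (nat_lit 26) (.e (nat_lit 147494) (nat_lit 11) (.e (nat_lit 24638) (nat_lit 9) (.e (nat_lit 335892) (nat_lit 0) (.e (nat_lit 999) (nat_lit 81) .nil))))))) (.g (nat_lit 4) .nil .nil)))) (.nd (nat_lit 6) 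
(.lf (nat_lit 122790) (.g (nat_lit 2147) (.e (nat_lit 7236) (nat_lit 382) (.e (nat_lit 1220) (nat_lit 90) (.e (nat_lit 81965) (nat_lit 26) (.e (nat_lit 147495) (nat_lit 11) (.e (nat_lit 24639) (nat_lit 10) .nil))))) .nil)) 
(.lf (nat_lit 122854) (.g (nat_lit 2748) (.e (nat_lit 7237) (nat_lit 382) (.e (nat_lit 1220) (nat_lit 90) (.e (nat_lit 81938) (nat_lit 20) (.e (nat_lit 2281) (nat_lit 150) (.e (nat_lit 770058) (nat_lit 5) (.e (nat_lit 1586) (nat_lit 111) (.e (nat_lit 368384) (nat_lit 0) .nil))))))) (.g (nat_lit 6) .nil .nil))))) (.nd (nat_lit 5) (.nd (nat_lit 6) 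
(.lf (nat_lit 122774) (.g (nat_lit 418) (.e (nat_lit 7236) (nat_lit 382) (.e (nat_lit 1219) (nat_lit 90) (.e (nat_lit 81963) (nat_lit 26) .nil))) .nil)) 
(.lf (nat_lit 122838) (.g (nat_lit 1481) (.e (nat_lit 7237) (nat_lit 382) (.e (nat_lit 1190) (nat_lit 88) (.e (nat_lit 65571) (nat_lit 3) (.e (nat_lit 98372) (nat_lit 29) (.e (nat_lit 450586) (nat_lit 10) .nil))))) .nil))) (.nd (nat_lit 6) 
(.lf (nat_lit 122806) (.g (nat_lit 1981) (.e (nat_lit 7236) (nat_lit 382) (.e (nat_lit 1221) (nat_lit 90) (.e (nat_lit 81965) (nat_lit 26) (.e (nat_lit 147463) (nat_lit 9) (.e (nat_lit 324) (nat_lit 24) (.e (nat_lit 368384) (nat_lit 0) .nil)))))) (.g (nat_lit 5) .nil .nil))) 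
(.lf (nat_lit 122870) (.g (nat_lit 1677) (.e (nat_lit 7237) (nat_lit 382) (.e (nat_lit 1220) (nat_lit 90) (.e (nat_lit 81965) (nat_lit 26) (.e (nat_lit 147463) (nat_lit 9) (.e (nat_lit 321) (nat_lit 24) (.e (nat_lit 368384) (nat_lit 0) .nil)))))) (.g (nat_lit 4) .nil .nil)))))) (.nd (nat_lit 4) (.nd (nat_lit 5) (.nd (nat_lit 6) 
(.lf (nat_lit 122766) (.g (nat_lit 1270) (.e (nat_lit 7236) (nat_lit 382) (.e (nat_lit 1211) (nat_lit 89) (.e (nat_lit 73755) (nat_lit 8) (.e (nat_lit 557105) (nat_lit 14) (.e (nat_lit 180265) (nat_lit 21) .nil))))) .nil)) 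
(.lf (nat_lit 122830) (.g (nat_lit 1542) (.e (nat_lit 7236) (nat_lit 382) (.e (nat_lit 1294) (nat_lit 96) (.e (nat_lit 131094) (nat_lit 2) (.e (nat_lit 90185) (nat_lit 17) (.e (nat_lit 237601) (nat_lit 9) (.e (nat_lit 426438) (nat_lit 18) (.e (nat_lit 98323) (nat_lit 17) (.e (nat_lit 2400) (nat_lit 157) .nil)))))))) (.g (nat_lit 4) .nil .nil)))) (.nd (nat_lit 6) 
(.lf (nat_lit 122798) (.g (nat_lit 3422) (.e (nat_lit 7236) (nat_lit 382) (.e (nat_lit 1221) (nat_lit 90) (.e (nat_lit 81950) (nat_lit 21) (.e (nat_lit 57681) (nat_lit 155) (.e (nat_lit 122919) (nat_lit 15) (.e (nat_lit 368384) (nat_lit 0) .nil)))))) (.g (nat_lit 5) .nil .nil))) 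
(.lf (nat_lit 122862) (.g (nat_lit 3991) (.e (nat_lit 7237) (nat_lit 382) (.e (nat_lit 1220) (nat_lit 90) (.e (nat_lit 81950) (nat_lit 21) (.e (nat_lit 57681) (nat_lit 155) (.e (nat_lit 122918) (nat_lit 15) (.e (nat_lit 368384) (nat_lit 0) .nil)))))) (.g (nat_lit 5) .nil .nil))))) (.nd (nat_lit 5) (.nd (nat_lit 6) 
(.lf (nat_lit 122782) (.g (nat_lit 1846) (.e (nat_lit 7236) (nat_lit 382) (.e (nat_lit 1219) (nat_lit 90) (.e (nat_lit 81963) (nat_lit 26) (.e (nat_lit 147496) (nat_lit 11) (.e (nat_lit 24641) (nat_lit 10) .nil))))) .nil)) 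
(.lf (nat_lit 122846) (.g (nat_lit 893) (.e (nat_lit 7237) (nat_lit 382) (.e (nat_lit 1219) (nat_lit 90) (.e (nat_lit 81963) (nat_lit 26) (.e (nat_lit 147496) (nat_lit 11) .nil)))) .nil))) (.nd (nat_lit 6) 
(.lf (nat_lit 122814) (.g (nat_lit 1484) (.e (nat_lit 7236) (nat_lit 382) (.e (nat_lit 1221) (nat_lit 90) (.e (nat_lit 81965) (nat_lit 26) (.e (nat_lit 147483) (nat_lit 9) .nil)))) .nil)) 
(.lf (nat_lit 122878) (.g (nat_lit 2138) (.e (nat_lit 7237) (nat_lit 382) (.e (nat_lit 1220) (nat_lit 90) (.e (nat_lit 81965) (nat_lit 26) (.e (nat_lit 147467) (nat_lit 9) (.e (nat_lit 324) (nat_lit 24) (.e (nat_lit 368384) (nat_lit 0) .nil)))))) (.g (nat_lit 4) .nil .nil))))))))) (.nd (nat_lit 1) (.nd (nat_lit 2) (.nd (nat_lit 3) (.nd (nat_lit 4) (.nd (nat_lit 5) (.nd (nat_lit 6) 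
(.lf (nat_lit 122753) (.g (nat_lit 1702) (.e (nat_lit 7236) (nat_lit 382) (.e (nat_lit 1200) (nat_lit 88) (.e (nat_lit 65626) (nat_lit 13) (.e (nat_lit 393300) (nat_lit 27) (.e (nat_lit 491558) (nat_lit 10) .nil))))) .nil)) 
(.lf (nat_lit 122817) (.g (nat_lit 1354) (.e (nat_lit 7236) (nat_lit 382) (.e (nat_lit 1221) (nat_lit 90) (.e (nat_lit 81965) (nat_lit 26) (.e (nat_lit 147492) (nat_lit 11) (.e (nat_lit 24638) (nat_lit 9) .nil))))) .nil))) (.nd (nat_lit 6) 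
(.lf (nat_lit 122785) (.g (nat_lit 512) (.e (nat_lit 7236) (nat_lit 382) (.e (nat_lit 1220) (nat_lit 90) (.e (nat_lit 81965) (nat_lit 26) .nil))) .nil)) 
(.lf (nat_lit 122849) (.g (nat_lit 1675) (.e (nat_lit 7237) (nat_lit 382) (.e (nat_lit 1220) (nat_lit 90) (.e (nat_lit 81938) (nat_lit 20) (.e (nat_lit 2270) (nat_lit 149) (.e (nat_lit 761868) (nat_lit 5) .nil))))) .nil)))) (.nd (nat_lit 5) (.nd (nat_lit 6) 
(.lf (nat_lit 122769) (.g (nat_lit 991) (.e (nat_lit 7236) (nat_lit 382) (.e (nat_lit 1219) (nat_lit 90) (.e (nat_lit 89856) (nat_lit 10) (.e (nat_lit 417796) (nat_lit 0) (.e (nat_lit 5413) (nat_lit 303) (.e (nat_lit 81664) (nat_lit 0) .nil)))))) (.g (nat_lit 4) .nil .nil))) 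
(.lf (nat_lit 122833) (.g (nat_lit 1312) (.e (nat_lit 7236) (nat_lit 382) (.e (nat_lit 1297) (nat_lit 96) (.e (nat_lit 131091) (nat_lit 2) (.e (nat_lit 90185) (nat_lit 17) (.e (nat_lit 237601) (nat_lit 9) (.e (nat_lit 426438) (nat_lit 18) (.e (nat_lit 98323) (nat_lit 17) (.e (nat_lit 2400) (nat_lit 157) .nil)))))))) (.g (nat_lit 4) .nil .nil)))) (.nd (nat_lit 6) 
(.lf (nat_lit 122801) (.g (nat_lit 988) (.e (nat_lit 7236) (nat_lit 382) (.e (nat_lit 1221) (nat_lit 90) (.e (nat_lit 81959) (nat_lit 24) (.e (nat_lit 130816) (nat_lit 154) .nil)))) .nil)) 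
(.lf (nat_lit 122865) (.g (nat_lit 1198) (.e (nat_lit 7237) (nat_lit 382) (.e (nat_lit 1220) (nat_lit 90) (.e (nat_lit 81950) (nat_lit 21) (.e (nat_lit 57684) (nat_lit 155) .nil)))) .nil))))) (.nd (nat_lit 4) (.nd (nat_lit 5) (.nd (nat_lit 6) 
(.lf (nat_lit 122761) (.g (nat_lit 2681) (.e (nat_lit 7236) (nat_lit 382) (.e (nat_lit 1209) (nat_lit 89) (.e (nat_lit 73747) (nat_lit 3) (.e (nat_lit 516150) (nat_lit 9) (.e (nat_lit 426320) (nat_lit 12) .nil))))) .nil)) 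
(.lf (nat_lit 122825) (.g (nat_lit 4155) (.e (nat_lit 7236) (nat_lit 382) (.e (nat_lit 1221) (nat_lit 90) (.e (nat_lit 81965) (nat_lit 26) (.e (nat_lit 147495) (nat_lit 11) (.e (nat_lit 24640) (nat_lit 10) (.e (nat_lit 344096) (nat_lit 18) .nil)))))) (.g (nat_lit 6) .nil .nil)))) (.nd (nat_lit 6) 
(.lf (nat_lit 122793) (.g (nat_lit 2427) (.e (nat_lit 7236) (nat_lit 382) (.e (nat_lit 1220) (nat_lit 90) (.e (nat_lit 81965) (nat_lit 26) (.e (nat_lit 147496) (nat_lit 11) (.e (nat_lit 24639) (nat_lit 10) .nil))))) .nil)) 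
(.lf (nat_lit 122857) (.g (nat_lit 827) (.e (nat_lit 7237) (nat_lit 382) (.e (nat_lit 1220) (nat_lit 90) (.e (nat_lit 81947) (nat_lit 20) (.e (nat_lit 2270) (nat_lit 149) .nil)))) .nil)))) (.nd (nat_lit 5) (.nd (nat_lit 6) 
(.lf (nat_lit 122777) (.g (nat_lit 1657) (.e (nat_lit 7236) (nat_lit 382) (.e (nat_lit 1219) (nat_lit 90) (.e (nat_lit 81963) (nat_lit 26) (.e (nat_lit 147467) (nat_lit 9) (.e (nat_lit 321) (nat_lit 24) (.e (nat_lit 368384) (nat_lit 0) .nil)))))) (.g (nat_lit 4) .nil .nil))) 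
(.lf (nat_lit 122841) (.g (nat_lit 372) (.e (nat_lit 7237) (nat_lit 382) (.e (nat_lit 1200) (nat_lit 88) (.e (nat_lit 65619) (nat_lit 10) .nil))) .nil))) (.nd (nat_lit 6) 
(.lf (nat_lit 122809) (.g (nat_lit 2188) (.e (nat_lit 7236) (nat_lit 382) (.e (nat_lit 1221) (nat_lit 90) (.e (nat_lit 81965) (nat_lit 26) (.e (nat_lit 147467) (nat_lit 9) (.e (nat_lit 321) (nat_lit 24) (.e (nat_lit 368384) (nat_lit 0) .nil)))))) (.g (nat_lit 5) .nil .nil))) 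
(.lf (nat_lit 122873) (.g (nat_lit 2475) (.e (nat_lit 7237) (nat_lit 382) (.e (nat_lit 1220) (nat_lit 90) (.e (nat_lit 81965) (nat_lit 26) (.e (nat_lit 147466) (nat_lit 9) (.e (nat_lit 321) (nat_lit 24) (.e (nat_lit 368384) (nat_lit 0) .nil)))))) (.g (nat_lit 5) .nil .nil))))))) (.nd (nat_lit 3) (.nd (nat_lit 4) (.nd (nat_lit 5) (.nd (nat_lit 6) 
(.lf (nat_lit 122757) (.g (nat_lit 2626) (.e (nat_lit 7236) (nat_lit 382) (.e (nat_lit 1209) (nat_lit 89) (.e (nat_lit 73747) (nat_lit 3) (.e (nat_lit 516146) (nat_lit 9) (.e (nat_lit 426227) (nat_lit 9) .nil))))) .nil)) 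
(.lf (nat_lit 122821) (.g (nat_lit 1820) (.e (nat_lit 7236) (nat_lit 382) (.e (nat_lit 1221) (nat_lit 90) (.e (nat_lit 81965) (nat_lit 26) (.e (nat_lit 147494) (nat_lit 11) (.e (nat_lit 24638) (nat_lit 9) .nil))))) .nil))) (.nd (nat_lit 6) 
(.lf (nat_lit 122789) (.g (nat_lit 1460) (.e (nat_lit 7236) (nat_lit 382) (.e (nat_lit 1220) (nat_lit 90) (.e (nat_lit 81965) (nat_lit 26) (.e (nat_lit 147495) (nat_lit 11) .nil)))) .nil)) 
(.lf (nat_lit 122853) (.g (nat_lit 1969) (.e (nat_lit 7237) (nat_lit 382) (.e (nat_lit 1220) (nat_lit 90) (.e (nat_lit 81938) (nat_lit 20) (.e (nat_lit 2281) (nat_lit 150) (.e (nat_lit 770057) (nat_lit 5) (.e (nat_lit 1599) (nat_lit 111) (.e (nat_lit 368384) (nat_lit 0) .nil))))))) (.g (nat_lit 4) .nil .nil))))) (.nd (nat_lit 5) (.nd (nat_lit 6) 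
(.lf (nat_lit 122773) (.g (nat_lit 1927) (.e (nat_lit 7236) (nat_lit 382) (.e (nat_lit 1219) (nat_lit 90) (.e (nat_lit 81927) (nat_lit 11) (.e (nat_lit 426343) (nat_lit 14) (.e (nat_lit 491560) (nat_lit 10) .nil))))) .nil)) 
(.lf (nat_lit 122837) (.g (nat_lit 3166) (.e (nat_lit 7236) (nat_lit 382) (.e (nat_lit 1297) (nat_lit 96) (.e (nat_lit 131109) (nat_lit 9) (.e (nat_lit 336443) (nat_lit 32) (.e (nat_lit 466972) (nat_lit 21) (.e (nat_lit 164330) (nat_lit 230) (.e (nat_lit 163846) (nat_lit 0) (.e (nat_lit 2400) (nat_lit 157) .nil)))))))) (.g (nat_lit 6) .nil .nil)))) (.nd (nat_lit 6) 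
(.lf (nat_lit 122805) (.g (nat_lit 2228) (.e (nat_lit 7236) (nat_lit 382) (.e (nat_lit 1221) (nat_lit 90) (.e (nat_lit 81965) (nat_lit 26) (.e (nat_lit 147463) (nat_lit 9) (.e (nat_lit 322) (nat_lit 24) (.e (nat_lit 368384) (nat_lit 0) .nil)))))) (.g (nat_lit 5) .nil .nil))) 
(.lf (nat_lit 122869) (.g (nat_lit 1653) (.e (nat_lit 7237) (nat_lit 382) (.e (nat_lit 1220) (nat_lit 90) (.e (nat_lit 81965) (nat_lit 26) (.e (nat_lit 147463) (nat_lit 9) (.e (nat_lit 249) (nat_lit 21) (.e (nat_lit 336174) (nat_lit 10) (.e (nat_lit 352000) (nat_lit 18) .nil))))))) (.g (nat_lit 5) .nil .nil)))))) (.nd (nat_lit 4) (.nd (nat_lit 5) (.nd (nat_lit 6) 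
(.lf (nat_lit 122765) (.g (nat_lit 2868) (.e (nat_lit 7236) (nat_lit 382) (.e (nat_lit 1211) (nat_lit 89) (.e (nat_lit 73755) (nat_lit 8) (.e (nat_lit 557067) (nat_lit 9) (.e (nat_lit 353) (nat_lit 29) .nil))))) .nil)) 
(.lf (nat_lit 122829) (.g (nat_lit 1668) (.e (nat_lit 7236) (nat_lit 382) (.e (nat_lit 1221) (nat_lit 90) (.e (nat_lit 81965) (nat_lit 26) (.e (nat_lit 147496) (nat_lit 11) (.e (nat_lit 24641) (nat_lit 10) .nil))))) .nil))) (.nd (nat_lit 6) 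
(.lf (nat_lit 122797) (.g (nat_lit 2940) (.e (nat_lit 7236) (nat_lit 382) (.e (nat_lit 1221) (nat_lit 90) (.e (nat_lit 81950) (nat_lit 21) (.e (nat_lit 57681) (nat_lit 155) (.e (nat_lit 122917) (nat_lit 15) (.e (nat_lit 368384) (nat_lit 0) .nil)))))) (.g (nat_lit 5) .nil .nil))) 
(.lf (nat_lit 122861) (.g (nat_lit 4188) (.e (nat_lit 7237) (nat_lit 382) (.e (nat_lit 1220) (nat_lit 90) (.e (nat_lit 81950) (nat_lit 21) (.e (nat_lit 57681) (nat_lit 155) (.e (nat_lit 122917) (nat_lit 15) (.e (nat_lit 368384) (nat_lit 0) .nil)))))) (.g (nat_lit 5) .nil .nil))))) (.nd (nat_lit 5) (.nd (nat_lit 6) 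
(.lf (nat_lit 122781) (.g (nat_lit 1792) (.e (nat_lit 7236) (nat_lit 382) (.e (nat_lit 1219) (nat_lit 90) (.e (nat_lit 81963) (nat_lit 26) (.e (nat_lit 147496) (nat_lit 11) (.e (nat_lit 24640) (nat_lit 10) .nil))))) .nil)) 
(.lf (nat_lit 122845) (.g (nat_lit 427) (.e (nat_lit 7237) (nat_lit 382) (.e (nat_lit 1219) (nat_lit 90) (.e (nat_lit 81963) (nat_lit 26) .nil))) .nil))) (.nd (nat_lit 6) 
(.lf (nat_lit 122813) (.g (nat_lit 1625) (.e (nat_lit 7236) (nat_lit 382) (.e (nat_lit 1221) (nat_lit 90) (.e (nat_lit 81965) (nat_lit 26) (.e (nat_lit 147478) (nat_lit 9) (.e (nat_lit 7936) (nat_lit 24) .nil))))) .nil)) 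
(.lf (nat_lit 122877) (.g (nat_lit 1791) (.e (nat_lit 7237) (nat_lit 382) (.e (nat_lit 1220) (nat_lit 90) (.e (nat_lit 81965) (nat_lit 26) (.e (nat_lit 147467) (nat_lit 9) (.e (nat_lit 324) (nat_lit 24) .nil))))) .nil))))))) (.nd (nat_lit 2) (.nd (nat_lit 3) (.nd (nat_lit 4) (.nd (nat_lit 5) (.nd (nat_lit 6) 
(.lf (nat_lit 122755) (.g (nat_lit 2401) (.e (nat_lit 7236) (nat_lit 382) (.e (nat_lit 1209) (nat_lit 89) (.e (nat_lit 73746) (nat_lit 3) (.e (nat_lit 516150) (nat_lit 9) (.e (nat_lit 426227) (nat_lit 9) .nil))))) .nil)) 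
(.lf (nat_lit 122819) (.g (nat_lit 1860) (.e (nat_lit 7236) (nat_lit 382) (.e (nat_lit 1221) (nat_lit 90) (.e (nat_lit 81965) (nat_lit 26) (.e (nat_lit 147492) (nat_lit 11) (.e (nat_lit 24638) (nat_lit 9) (.e (nat_lit 335893) (nat_lit 0) (.e (nat_lit 974) (nat_lit 81) .nil))))))) (.g (nat_lit 4) .nil .nil)))) (.nd (nat_lit 6) 
(.lf (nat_lit 122787) (.g (nat_lit 1339) (.e (nat_lit 7236) (nat_lit 382) (.e (nat_lit 1220) (nat_lit 90) (.e (nat_lit 81965) (nat_lit 26) (.e (nat_lit 147492) (nat_lit 11) .nil)))) .nil)) 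
(.lf (nat_lit 122851) (.g (nat_lit 1953) (.e (nat_lit 7237) (nat_lit 382) (.e (nat_lit 1220) (nat_lit 90) (.e (nat_lit 81938) (nat_lit 20) (.e (nat_lit 2281) (nat_lit 150) (.e (nat_lit 770056) (nat_lit 5) (.e (nat_lit 1598) (nat_lit 111) (.e (nat_lit 368384) (nat_lit 0) .nil))))))) (.g (nat_lit 4) .nil .nil))))) (.nd (nat_lit 5) (.nd (nat_lit 6) 
(.lf (nat_lit 122771) (.g (nat_lit 1907) (.e (nat_lit 7236) (nat_lit 382) (.e (nat_lit 1219) (nat_lit 90) (.e (nat_lit 81925) (nat_lit 11) (.e (nat_lit 426343) (nat_lit 14) (.e (nat_lit 491560) (nat_lit 10) .nil))))) .nil)) 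
(.lf (nat_lit 122835) (.g (nat_lit 2993) (.e (nat_lit 7236) (nat_lit 382) (.e (nat_lit 1297) (nat_lit 96) (.e (nat_lit 131105) (nat_lit 9) (.e (nat_lit 336443) (nat_lit 32) (.e (nat_lit 466972) (nat_lit 21) (.e (nat_lit 164330) (nat_lit 230) (.e (nat_lit 163846) (nat_lit 0) (.e (nat_lit 2400) (nat_lit 157) .nil)))))))) (.g (nat_lit 6) .nil .nil)))) (.nd (nat_lit 6) 
(.lf (nat_lit 122803) (.g (nat_lit 1132) (.e (nat_lit 7236) (nat_lit 382) (.e (nat_lit 1221) (nat_lit 90) (.e (nat_lit 81965) (nat_lit 26) (.e (nat_lit 147463) (nat_lit 9) .nil)))) .nil)) 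
(.lf (nat_lit 122867) (.g (nat_lit 1064) (.e (nat_lit 7237) (nat_lit 382) (.e (nat_lit 1220) (nat_lit 90) (.e (nat_lit 81965) (nat_lit 26) (.e (nat_lit 147463) (nat_lit 9) .nil)))) .nil))))) (.nd (nat_lit 4) (.nd (nat_lit 5) (.nd (nat_lit 6) 
(.lf (nat_lit 122763) (.g (nat_lit 2405) (.e (nat_lit 7236) (nat_lit 382) (.e (nat_lit 1209) (nat_lit 89) (.e (nat_lit 73747) (nat_lit 3) (.e (nat_lit 516176) (nat_lit 14) (.e (nat_lit 474880) (nat_lit 3) .nil))))) .nil)) 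
(.lf (nat_lit 122827) (.g (nat_lit 2074) (.e (nat_lit 7236) (nat_lit 382) (.e (nat_lit 1221) (nat_lit 90) (.e (nat_lit 81965) (nat_lit 26) (.e (nat_lit 147496) (nat_lit 11) (.e (nat_lit 24638) (nat_lit 9) (.e (nat_lit 335892) (nat_lit 0) (.e (nat_lit 999) (nat_lit 81) .nil))))))) (.g (nat_lit 4) .nil .nil)))) (.nd (nat_lit 6) 
(.lf (nat_lit 122795) (.g (nat_lit 1141) (.e (nat_lit 7236) (nat_lit 382) (.e (nat_lit 1221) (nat_lit 90) (.e (nat_lit 81947) (nat_lit 20) (.e (nat_lit 2270) (nat_lit 149) (.e (nat_lit 761868) (nat_lit 5) .nil))))) .nil)) 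
(.lf (nat_lit 122859) (.g (nat_lit 1911) (.e (nat_lit 7237) (nat_lit 382) (.e (nat_lit 1220) (nat_lit 90) (.e (nat_lit 81950) (nat_lit 21) (.e (nat_lit 57666) (nat_lit 152) (.e (nat_lit 1077) (nat_lit 81) (.e (nat_lit 1582) (nat_lit 111) (.e (nat_lit 368384) (nat_lit 0) .nil))))))) (.g (nat_lit 4) .nil .nil))))) (.nd (nat_lit 5) (.nd (nat_lit 6) 
(.lf (nat_lit 122779) (.g (nat_lit 719) (.e (nat_lit 7236) (nat_lit 382) (.e (nat_lit 1219) (nat_lit 90) (.e (nat_lit 81963) (nat_lit 26) (.e (nat_lit 147492) (nat_lit 11) .nil)))) .nil)) 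
(.lf (nat_lit 122843) (.g (nat_lit 744) (.e (nat_lit 7237) (nat_lit 382) (.e (nat_lit 1209) (nat_lit 89) (.e (nat_lit 73747) (nat_lit 3) .nil))) .nil))) (.nd (nat_lit 6) 
(.lf (nat_lit 122811) (.g (nat_lit 1290) (.e (nat_lit 7236) (nat_lit 382) (.e (nat_lit 1221) (nat_lit 90) (.e (nat_lit 81965) (nat_lit 26) (.e (nat_lit 147473) (nat_lit 9) .nil)))) .nil)) 
(.lf (nat_lit 122875) (.g (nat_lit 2405) (.e (nat_lit 7237) (nat_lit 382) (.e (nat_lit 1220) (nat_lit 90) (.e (nat_lit 81965) (nat_lit 26) (.e (nat_lit 147466) (nat_lit 9) (.e (nat_lit 324) (nat_lit 24) (.e (nat_lit 368384) (nat_lit 0) .nil)))))) (.g (nat_lit 5) .nil .nil))))))) (.nd (nat_lit 3) (.nd (nat_lit 4) (.nd (nat_lit 5) (.nd (nat_lit 6) 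
(.lf (nat_lit 122759) (.g (nat_lit 2122) (.e (nat_lit 7236) (nat_lit 382) (.e (nat_lit 1209) (nat_lit 89) (.e (nat_lit 73747) (nat_lit 3) (.e (nat_lit 516149) (nat_lit 9) (.e (nat_lit 426320) (nat_lit 12) .nil))))) .nil)) 
(.lf (nat_lit 122823) (.g (nat_lit 1910) (.e (nat_lit 7236) (nat_lit 382) (.e (nat_lit 1221) (nat_lit 90) (.e (nat_lit 81965) (nat_lit 26) (.e (nat_lit 147495) (nat_lit 11) (.e (nat_lit 24638) (nat_lit 9) .nil))))) .nil))) (.nd (nat_lit 6) 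
(.lf (nat_lit 122791) (.g (nat_lit 1486) (.e (nat_lit 7236) (nat_lit 382) (.e (nat_lit 1220) (nat_lit 90) (.e (nat_lit 81965) (nat_lit 26) (.e (nat_lit 147496) (nat_lit 11) .nil)))) .nil)) 
(.lf (nat_lit 122855) (.g (nat_lit 2674) (.e (nat_lit 7237) (nat_lit 382) (.e (nat_lit 1220) (nat_lit 90) (.e (nat_lit 81938) (nat_lit 20) (.e (nat_lit 2281) (nat_lit 150) (.e (nat_lit 770058) (nat_lit 5) (.e (nat_lit 1589) (nat_lit 111) (.e (nat_lit 368384) (nat_lit 0) .nil))))))) (.g (nat_lit 6) .nil .nil))))) (.nd (nat_lit 5) (.nd (nat_lit 6) 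
(.lf (nat_lit 122775) (.g (nat_lit 1810) (.e (nat_lit 7236) (nat_lit 382) (.e (nat_lit 1219) (nat_lit 90) (.e (nat_lit 81963) (nat_lit 26) (.e (nat_lit 147466) (nat_lit 9) (.e (nat_lit 321) (nat_lit 24) (.e (nat_lit 368384) (nat_lit 0) .nil)))))) (.g (nat_lit 4) .nil .nil))) 
(.lf (nat_lit 122839) (.g (nat_lit 4553) (.e (nat_lit 7237) (nat_lit 382) (.e (nat_lit 1190) (nat_lit 88) (.e (nat_lit 65571) (nat_lit 3) (.e (nat_lit 98373) (nat_lit 29) (.e (nat_lit 450588) (nat_lit 10) (.e (nat_lit 573475) (nat_lit 12) (.e (nat_lit 57345) (nat_lit 0) .nil))))))) (.g (nat_lit 7) .nil .nil)))) (.nd (nat_lit 6) 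
(.lf (nat_lit 122807) (.g (nat_lit 2355) (.e (nat_lit 7236) (nat_lit 382) (.e (nat_lit 1221) (nat_lit 90) (.e (nat_lit 81965) (nat_lit 26) (.e (nat_lit 147466) (nat_lit 9) (.e (nat_lit 321) (nat_lit 24) (.e (nat_lit 368384) (nat_lit 0) .nil)))))) (.g (nat_lit 5) .nil .nil))) 
(.lf (nat_lit 122871) (.g (nat_lit 1602) (.e (nat_lit 7237) (nat_lit 382) (.e (nat_lit 1220) (nat_lit 90) (.e (nat_lit 81965) (nat_lit 26) (.e (nat_lit 147463) (nat_lit 9) (.e (nat_lit 7936) (nat_lit 24) (.e (nat_lit 368384) (nat_lit 0) .nil)))))) (.g (nat_lit 4) .nil .nil)))))) (.nd (nat_lit 4) (.nd (nat_lit 5) (.nd (nat_lit 6) 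
(.lf (nat_lit 122767) (.g (nat_lit 1080) (.e (nat_lit 7236) (nat_lit 382) (.e (nat_lit 1219) (nat_lit 90) (.e (nat_lit 89856) (nat_lit 10) (.e (nat_lit 417795) (nat_lit 0) (.e (nat_lit 5409) (nat_lit 303) (.e (nat_lit 81664) (nat_lit 0) .nil)))))) (.g (nat_lit 4) .nil .nil))) 
(.lf (nat_lit 122831) (.g (nat_lit 2846) (.e (nat_lit 7236) (nat_lit 382) (.e (nat_lit 1294) (nat_lit 96) (.e (nat_lit 131109) (nat_lit 9) (.e (nat_lit 336443) (nat_lit 32) (.e (nat_lit 466969) (nat_lit 21) (.e (nat_lit 164330) (nat_lit 230) (.e (nat_lit 163846) (nat_lit 0) (.e (nat_lit 2397) (nat_lit 157) .nil)))))))) (.g (nat_lit 6) .nil .nil)))) (.nd (nat_lit 6) 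
(.lf (nat_lit 122799) (.g (nat_lit 402) (.e (nat_lit 7236) (nat_lit 382) (.e (nat_lit 1221) (nat_lit 90) (.e (nat_lit 81959) (nat_lit 24) .nil))) .nil)) 
(.lf (nat_lit 122863) (.g (nat_lit 5063) (.e (nat_lit 7237) (nat_lit 382) (.e (nat_lit 1220) (nat_lit 90) (.e (nat_lit 81950) (nat_lit 21) (.e (nat_lit 57681) (nat_lit 155) (.e (nat_lit 122919) (nat_lit 15) (.e (nat_lit 360448) (nat_lit 0) .nil)))))) (.g (nat_lit 6) .nil .nil))))) (.nd (nat_lit 5) (.nd (nat_lit 6) 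
(.lf (nat_lit 122783) (.g (nat_lit 1494) (.e (nat_lit 7236) (nat_lit 382) (.e (nat_lit 1220) (nat_lit 90) (.e (nat_lit 81938) (nat_lit 20) (.e (nat_lit 2281) (nat_lit 150) .nil)))) .nil)) 
(.lf (nat_lit 122847) (.g (nat_lit 1819) (.e (nat_lit 7237) (nat_lit 382) (.e (nat_lit 1219) (nat_lit 90) (.e (nat_lit 81963) (nat_lit 26) (.e (nat_lit 147496) (nat_lit 11) (.e (nat_lit 24640) (nat_lit 10) .nil))))) .nil))) (.nd (nat_lit 6) 
(.lf (nat_lit 122815) (.g (nat_lit 1203) (.e (nat_lit 7236) (nat_lit 382) (.e (nat_lit 1221) (nat_lit 90) (.e (nat_lit 81965) (nat_lit 26) (.e (nat_lit 147487) (nat_lit 10) .nil)))) .nil)) 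
(.lf (nat_lit 122879) (.g (nat_lit 1503) (.e (nat_lit 7237) (nat_lit 382) (.e (nat_lit 1220) (nat_lit 90) (.e (nat_lit 81965) (nat_lit 26) (.e (nat_lit 147472) (nat_lit 9) .nil)))) .nil)))))))))

noncomputable def tv1638 : DT := (.nd (nat_lit 0) (.nd (nat_lit 1) (.nd (nat_lit 2) (.nd (nat_lit 3) (.nd (nat_lit 4) (.nd (nat_lit 5) 
(.lf (nat_lit 122880) (.g (nat_lit 1309) (.e (nat_lit 7237) (nat_lit 382) (.e (nat_lit 1220) (nat_lit 90) (.e (nat_lit 81965) (nat_lit 26) (.e (nat_lit 147473) (nat_lit 9) .nil)))) .nil)) 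
(.lf (nat_lit 122912) (.g (nat_lit 2293) (.e (nat_lit 7237) (nat_lit 382) (.e (nat_lit 1221) (nat_lit 90) (.e (nat_lit 81965) (nat_lit 26) (.e (nat_lit 147467) (nat_lit 9) (.e (nat_lit 321) (nat_lit 24) (.e (nat_lit 368384) (nat_lit 0) .nil)))))) (.g (nat_lit 5) .nil .nil)))) (.nd (nat_lit 5) 
(.lf (nat_lit 122896) (.g (nat_lit 1398) (.e (nat_lit 7237) (nat_lit 382) (.e (nat_lit 1221) (nat_lit 90) (.e (nat_lit 81950) (nat_lit 21) (.e (nat_lit 57666) (nat_lit 152) .nil)))) .nil)) 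
(.lf (nat_lit 122928) (.g (nat_lit 1697) (.e (nat_lit 7237) (nat_lit 382) (.e (nat_lit 1221) (nat_lit 90) (.e (nat_lit 81965) (nat_lit 26) (.e (nat_lit 147492) (nat_lit 11) (.e (nat_lit 24646) (nat_lit 11) (.e (nat_lit 376576) (nat_lit 18) .nil)))))) (.g (nat_lit 4) .nil .nil))))) (.nd (nat_lit 4) (.nd (nat_lit 5) 
(.lf (nat_lit 122888) (.g (nat_lit 2438) (.e (nat_lit 7237) (nat_lit 382) (.e (nat_lit 1220) (nat_lit 90) (.e (nat_lit 81965) (nat_lit 26) (.e (nat_lit 147496) (nat_lit 11) (.e (nat_lit 24631) (nat_lit 9) (.e (nat_lit 335907) (nat_lit 0) (.e (nat_lit 968) (nat_lit 81) .nil))))))) (.g (nat_lit 4) .nil .nil))) 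
(.lf (nat_lit 122920) (.g (nat_lit 1525) (.e (nat_lit 7237) (nat_lit 382) (.e (nat_lit 1221) (nat_lit 90) (.e (nat_lit 81965) (nat_lit 26) (.e (nat_lit 147480) (nat_lit 9) .nil)))) .nil))) (.nd (nat_lit 5) 
(.lf (nat_lit 122904) (.g (nat_lit 2223) (.e (nat_lit 7237) (nat_lit 382) (.e (nat_lit 1221) (nat_lit 90) (.e (nat_lit 81965) (nat_lit 26) (.e (nat_lit 147463) (nat_lit 9) (.e (nat_lit 249) (nat_lit 21) (.e (nat_lit 336174) (nat_lit 10) (.e (nat_lit 352000) (nat_lit 18) .nil))))))) (.g (nat_lit 6) .nil .nil))) 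
(.lf (nat_lit 122936) (.g (nat_lit 1772) (.e (nat_lit 7237) (nat_lit 382) (.e (nat_lit 1221) (nat_lit 90) (.e (nat_lit 81965) (nat_lit 26) (.e (nat_lit 147496) (nat_lit 11) (.e (nat_lit 24641) (nat_lit 10) .nil))))) .nil))))) (.nd (nat_lit 3) (.nd (nat_lit 4) (.nd (nat_lit 5) 
(.lf (nat_lit 122884) (.g (nat_lit 1217) (.e (nat_lit 7237) (nat_lit 382) (.e (nat_lit 1220) (nat_lit 90) (.e (nat_lit 81965) (nat_lit 26) (.e (nat_lit 147487) (nat_lit 10) .nil)))) .nil)) 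
(.lf (nat_lit 122916) (.g (nat_lit 1331) (.e (nat_lit 7237) (nat_lit 382) (.e (nat_lit 1221) (nat_lit 90) (.e (nat_lit 81965) (nat_lit 26) (.e (nat_lit 147473) (nat_lit 9) .nil)))) .nil))) (.nd (nat_lit 5) 
(.lf (nat_lit 122900) (.g (nat_lit 3579) (.e (nat_lit 7237) (nat_lit 382) (.e (nat_lit 1221) (nat_lit 90) (.e (nat_lit 81950) (nat_lit 21) (.e (nat_lit 57681) (nat_lit 155) (.e (nat_lit 122919) (nat_lit 15) (.e (nat_lit 368384) (nat_lit 0) .nil)))))) (.g (nat_lit 5) .nil .nil))) 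
(.lf (nat_lit 122932) (.g (nat_lit 3759) (.e (nat_lit 7237) (nat_lit 382) (.e (nat_lit 1221) (nat_lit 90) (.e (nat_lit 81965) (nat_lit 26) (.e (nat_lit 147495) (nat_lit 11) (.e (nat_lit 24640) (nat_lit 10) (.e (nat_lit 344088) (nat_lit 18) .nil)))))) (.g (nat_lit 6) .nil .nil))))) (.nd (nat_lit 4) (.nd (nat_lit 5) 
(.lf (nat_lit 122892) (.g (nat_lit 1549) (.e (nat_lit 7237) (nat_lit 382) (.e (nat_lit 1221) (nat_lit 90) (.e (nat_lit 81938) (nat_lit 20) (.e (nat_lit 2270) (nat_lit 149) .nil)))) .nil)) 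
(.lf (nat_lit 122924) (.g (nat_lit 1170) (.e (nat_lit 7237) (nat_lit 382) (.e (nat_lit 1221) (nat_lit 90) (.e (nat_lit 81965) (nat_lit 26) (.e (nat_lit 147492) (nat_lit 11) .nil)))) .nil))) (.nd (nat_lit 5) 
(.lf (nat_lit 122908) (.g (nat_lit 1965) (.e (nat_lit 7237) (nat_lit 382) (.e (nat_lit 1221) (nat_lit 90) (.e (nat_lit 81965) (nat_lit 26) (.e (nat_lit 147463) (nat_lit 9) (.e (nat_lit 324) (nat_lit 24) (.e (nat_lit 368384) (nat_lit 0) .nil)))))) (.g (nat_lit 4) .nil .nil))) 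
(.lf (nat_lit 122940) (.g (nat_lit 977) (.e (nat_lit 7936) (nat_lit 382) (.e (nat_lit 1220) (nat_lit 90) (.e (nat_lit 81950) (nat_lit 21) (.e (nat_lit 57684) (nat_lit 155) .nil)))) .nil)))))) (.nd (nat_lit 2) (.nd (nat_lit 3) (.nd (nat_lit 4) (.nd (nat_lit 5) 
(.lf (nat_lit 122882) (.g (nat_lit 1466) (.e (nat_lit 7237) (nat_lit 382) (.e (nat_lit 1220) (nat_lit 90) (.e (nat_lit 81965) (nat_lit 26) (.e (nat_lit 147478) (nat_lit 9) .nil)))) .nil)) 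
(.lf (nat_lit 122914) (.g (nat_lit 2146) (.e (nat_lit 7237) (nat_lit 382) (.e (nat_lit 1221) (nat_lit 90) (.e (nat_lit 81965) (nat_lit 26) (.e (nat_lit 147467) (nat_lit 9) (.e (nat_lit 324) (nat_lit 24) (.e (nat_lit 368384) (nat_lit 0) .nil)))))) (.g (nat_lit 5) .nil .nil)))) (.nd (nat_lit 5) 
(.lf (nat_lit 122898) (.g (nat_lit 3076) (.e (nat_lit 7237) (nat_lit 382) (.e (nat_lit 1221) (nat_lit 90) (.e (nat_lit 81950) (nat_lit 21) (.e (nat_lit 57681) (nat_lit 155) (.e (nat_lit 122918) (nat_lit 15) (.e (nat_lit 368384) (nat_lit 0) .nil)))))) (.g (nat_lit 5) .nil .nil))) 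
(.lf (nat_lit 122930) (.g (nat_lit 1240) (.e (nat_lit 7237) (nat_lit 382) (.e (nat_lit 1221) (nat_lit 90) (.e (nat_lit 81965) (nat_lit 26) (.e (nat_lit 147495) (nat_lit 11) .nil)))) .nil)))) (.nd (nat_lit 4) (.nd (nat_lit 5) 
(.lf (nat_lit 122890) (.g (nat_lit 626) (.e (nat_lit 7237) (nat_lit 382) (.e (nat_lit 1221) (nat_lit 90) (.e (nat_lit 81925) (nat_lit 11) .nil))) .nil)) 
(.lf (nat_lit 122922) (.g (nat_lit 1545) (.e (nat_lit 7237) (nat_lit 382) (.e (nat_lit 1221) (nat_lit 90) (.e (nat_lit 81965) (nat_lit 26) (.e (nat_lit 147489) (nat_lit 10) .nil)))) .nil))) (.nd (nat_lit 5) 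
(.lf (nat_lit 122906) (.g (nat_lit 1879) (.e (nat_lit 7237) (nat_lit 382) (.e (nat_lit 1221) (nat_lit 90) (.e (nat_lit 81965) (nat_lit 26) (.e (nat_lit 147463) (nat_lit 9) (.e (nat_lit 322) (nat_lit 24) (.e (nat_lit 368384) (nat_lit 0) .nil)))))) (.g (nat_lit 4) .nil .nil))) 
(.lf (nat_lit 122938) (.g (nat_lit 1474) (.e (nat_lit 7936) (nat_lit 382) (.e (nat_lit 1220) (nat_lit 90) (.e (nat_lit 81950) (nat_lit 21) (.e (nat_lit 57681) (nat_lit 155) .nil)))) .nil))))) (.nd (nat_lit 3) (.nd (nat_lit 4) (.nd (nat_lit 5) 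
(.lf (nat_lit 122886) (.g (nat_lit 1209) (.e (nat_lit 7237) (nat_lit 382) (.e (nat_lit 1220) (nat_lit 90) (.e (nat_lit 81965) (nat_lit 26) (.e (nat_lit 147495) (nat_lit 11) .nil)))) .nil)) 
(.lf (nat_lit 122918) (.g (nat_lit 2133) (.e (nat_lit 7237) (nat_lit 382) (.e (nat_lit 1221) (nat_lit 90) (.e (nat_lit 81965) (nat_lit 26) (.e (nat_lit 147476) (nat_lit 9) (.e (nat_lit 7936) (nat_lit 24) (.e (nat_lit 368384) (nat_lit 0) .nil)))))) (.g (nat_lit 4) .nil .nil)))) (.nd (nat_lit 5) 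
(.lf (nat_lit 122902) (.g (nat_lit 1689) (.e (nat_lit 7237) (nat_lit 382) (.e (nat_lit 1221) (nat_lit 90) (.e (nat_lit 81959) (nat_lit 24) (.e (nat_lit 123050) (nat_lit 152) .nil)))) .nil)) 
(.lf (nat_lit 122934) (.g (nat_lit 2580) (.e (nat_lit 7237) (nat_lit 382) (.e (nat_lit 1221) (nat_lit 90) (.e (nat_lit 81965) (nat_lit 26) (.e (nat_lit 147496) (nat_lit 11) (.e (nat_lit 24631) (nat_lit 9) (.e (nat_lit 335907) (nat_lit 0) (.e (nat_lit 968) (nat_lit 81) .nil))))))) (.g (nat_lit 4) .nil .nil))))) (.nd (nat_lit 4) (.nd (nat_lit 5) 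
(.lf (nat_lit 122894) (.g (nat_lit 1884) (.e (nat_lit 7237) (nat_lit 382) (.e (nat_lit 1221) (nat_lit 90) (.e (nat_lit 81938) (nat_lit 20) (.e (nat_lit 2281) (nat_lit 150) (.e (nat_lit 770058) (nat_lit 5) (.e (nat_lit 1589) (nat_lit 111) (.e (nat_lit 368384) (nat_lit 0) .nil))))))) (.g (nat_lit 4) .nil .nil))) 
(.lf (nat_lit 122926) (.g (nat_lit 2261) (.e (nat_lit 7237) (nat_lit 382) (.e (nat_lit 1221) (nat_lit 90) (.e (nat_lit 81965) (nat_lit 26) (.e (nat_lit 147492) (nat_lit 11) (.e (nat_lit 24631) (nat_lit 9) (.e (nat_lit 335907) (nat_lit 0) (.e (nat_lit 968) (nat_lit 81) .nil))))))) (.g (nat_lit 5) .nil .nil)))) (.nd (nat_lit 5) 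
(.lf (nat_lit 122910) (.g (nat_lit 2399) (.e (nat_lit 7237) (nat_lit 382) (.e (nat_lit 1221) (nat_lit 90) (.e (nat_lit 81965) (nat_lit 26) (.e (nat_lit 147466) (nat_lit 9) (.e (nat_lit 321) (nat_lit 24) (.e (nat_lit 368384) (nat_lit 0) .nil)))))) (.g (nat_lit 5) .nil .nil))) 
(.lf (nat_lit 122942) (.g (nat_lit 1546) (.e (nat_lit 7936) (nat_lit 382) (.e (nat_lit 1220) (nat_lit 90) (.e (nat_lit 81965) (nat_lit 26) (.e (nat_lit 147466) (nat_lit 9) (.e (nat_lit 324) (nat_lit 24) .nil))))) .nil))))))) (.nd (nat_lit 1) (.nd (nat_lit 2) (.nd (nat_lit 3) (.nd (nat_lit 4) (.nd (nat_lit 5) 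
(.lf (nat_lit 122881) (.g (nat_lit 1487) (.e (nat_lit 7237) (nat_lit 382) (.e (nat_lit 1220) (nat_lit 90) (.e (nat_lit 81965) (nat_lit 26) (.e (nat_lit 147476) (nat_lit 9) .nil)))) .nil)) 
(.lf (nat_lit 122913) (.g (nat_lit 1756) (.e (nat_lit 7237) (nat_lit 382) (.e (nat_lit 1221) (nat_lit 90) (.e (nat_lit 81965) (nat_lit 26) (.e (nat_lit 147467) (nat_lit 9) (.e (nat_lit 324) (nat_lit 24) (.e (nat_lit 360448) (nat_lit 0) .nil)))))) (.g (nat_lit 4) .nil .nil)))) (.nd (nat_lit 5) 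
(.lf (nat_lit 122897) (.g (nat_lit 3224) (.e (nat_lit 7237) (nat_lit 382) (.e (nat_lit 1221) (nat_lit 90) (.e (nat_lit 81950) (nat_lit 21) (.e (nat_lit 57681) (nat_lit 155) (.e (nat_lit 122917) (nat_lit 15) (.e (nat_lit 368384) (nat_lit 0) .nil)))))) (.g (nat_lit 5) .nil .nil))) 
(.lf (nat_lit 122929) (.g (nat_lit 1257) (.e (nat_lit 7237) (nat_lit 382) (.e (nat_lit 1221) (nat_lit 90) (.e (nat_lit 81965) (nat_lit 26) (.e (nat_lit 147493) (nat_lit 11) .nil)))) .nil)))) (.nd (nat_lit 4) (.nd (nat_lit 5) 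
(.lf (nat_lit 122889) (.g (nat_lit 1987) (.e (nat_lit 7237) (nat_lit 382) (.e (nat_lit 1220) (nat_lit 90) (.e (nat_lit 81965) (nat_lit 26) (.e (nat_lit 147496) (nat_lit 11) (.e (nat_lit 24641) (nat_lit 10) .nil))))) .nil)) 
(.lf (nat_lit 122921) (.g (nat_lit 1841) (.e (nat_lit 7237) (nat_lit 382) (.e (nat_lit 1221) (nat_lit 90) (.e (nat_lit 81965) (nat_lit 26) (.e (nat_lit 147487) (nat_lit 10) (.e (nat_lit 16128) (nat_lit 255) (.e (nat_lit 81664) (nat_lit 0) .nil)))))) (.g (nat_lit 4) .nil .nil)))) (.nd (nat_lit 5) 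
(.lf (nat_lit 122905) (.g (nat_lit 2228) (.e (nat_lit 7237) (nat_lit 382) (.e (nat_lit 1221) (nat_lit 90) (.e (nat_lit 81965) (nat_lit 26) (.e (nat_lit 147463) (nat_lit 9) (.e (nat_lit 321) (nat_lit 24) (.e (nat_lit 368384) (nat_lit 0) .nil)))))) (.g (nat_lit 5) .nil .nil))) 
(.lf (nat_lit 122937) (.g (nat_lit 375) (.e (nat_lit 7936) (nat_lit 382) (.e (nat_lit 1219) (nat_lit 90) (.e (nat_lit 81963) (nat_lit 26) .nil))) .nil))))) (.nd (nat_lit 3) (.nd (nat_lit 4) (.nd (nat_lit 5) 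
(.lf (nat_lit 122885) (.g (nat_lit 1113) (.e (nat_lit 7237) (nat_lit 382) (.e (nat_lit 1220) (nat_lit 90) (.e (nat_lit 81965) (nat_lit 26) (.e (nat_lit 147492) (nat_lit 11) .nil)))) .nil)) 
(.lf (nat_lit 122917) (.g (nat_lit 1528) (.e (nat_lit 7237) (nat_lit 382) (.e (nat_lit 1221) (nat_lit 90) (.e (nat_lit 81965) (nat_lit 26) (.e (nat_lit 147474) (nat_lit 9) .nil)))) .nil))) (.nd (nat_lit 5) 
(.lf (nat_lit 122901) (.g (nat_lit 877) (.e (nat_lit 7237) (nat_lit 382) (.e (nat_lit 1221) (nat_lit 90) (.e (nat_lit 81959) (nat_lit 24) (.e (nat_lit 123048) (nat_lit 152) .nil)))) .nil)) 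
(.lf (nat_lit 122933) (.g (nat_lit 1165) (.e (nat_lit 7237) (nat_lit 382) (.e (nat_lit 1221) (nat_lit 90) (.e (nat_lit 81965) (nat_lit 26) (.e (nat_lit 147496) (nat_lit 11) .nil)))) .nil)))) (.nd (nat_lit 4) (.nd (nat_lit 5) 
(.lf (nat_lit 122893) (.g (nat_lit 1958) (.e (nat_lit 7237) (nat_lit 382) (.e (nat_lit 1221) (nat_lit 90) (.e (nat_lit 81938) (nat_lit 20) (.e (nat_lit 2281) (nat_lit 150) (.e (nat_lit 770058) (nat_lit 5) (.e (nat_lit 1586) (nat_lit 111) (.e (nat_lit 368384) (nat_lit 0) .nil))))))) (.g (nat_lit 4) .nil .nil))) 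
(.lf (nat_lit 122925) (.g (nat_lit 1487) (.e (nat_lit 7237) (nat_lit 382) (.e (nat_lit 1221) (nat_lit 90) (.e (nat_lit 81965) (nat_lit 26) (.e (nat_lit 147492) (nat_lit 11) (.e (nat_lit 24628) (nat_lit 9) .nil))))) .nil))) (.nd (nat_lit 5) 
(.lf (nat_lit 122909) (.g (nat_lit 2172) (.e (nat_lit 7237) (nat_lit 382) (.e (nat_lit 1221) (nat_lit 90) (.e (nat_lit 81965) (nat_lit 26) (.e (nat_lit 147463) (nat_lit 9) (.e (nat_lit 7936) (nat_lit 24) (.e (nat_lit 368384) (nat_lit 0) .nil)))))) (.g (nat_lit 4) .nil .nil))) 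
(.lf (nat_lit 122941) (.g (nat_lit 395) (.e (nat_lit 7936) (nat_lit 382) (.e (nat_lit 1220) (nat_lit 90) (.e (nat_lit 81965) (nat_lit 26) .nil))) .nil)))))) (.nd (nat_lit 2) (.nd (nat_lit 3) (.nd (nat_lit 4) (.nd (nat_lit 5) 
(.lf (nat_lit 122883) (.g (nat_lit 1503) (.e (nat_lit 7237) (nat_lit 382) (.e (nat_lit 1220) (nat_lit 90) (.e (nat_lit 81965) (nat_lit 26) (.e (nat_lit 147483) (nat_lit 9) .nil)))) .nil)) 
(.lf (nat_lit 122915) (.g (nat_lit 1472) (.e (nat_lit 7237) (nat_lit 382) (.e (nat_lit 1221) (nat_lit 90) (.e (nat_lit 81965) (nat_lit 26) (.e (nat_lit 147472) (nat_lit 9) .nil)))) .nil))) (.nd (nat_lit 5) 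
(.lf (nat_lit 122899) (.g (nat_lit 4326) (.e (nat_lit 7237) (nat_lit 382) (.e (nat_lit 1221) (nat_lit 90) (.e (nat_lit 81950) (nat_lit 21) (.e (nat_lit 57681) (nat_lit 155) (.e (nat_lit 122919) (nat_lit 15) (.e (nat_lit 360448) (nat_lit 0) .nil)))))) (.g (nat_lit 6) .nil .nil))) 
(.lf (nat_lit 122931) (.g (nat_lit 1909) (.e (nat_lit 7237) (nat_lit 382) (.e (nat_lit 1221) (nat_lit 90) (.e (nat_lit 81965) (nat_lit 26) (.e (nat_lit 147495) (nat_lit 11) (.e (nat_lit 24640) (nat_lit 10) .nil))))) .nil)))) (.nd (nat_lit 4) (.nd (nat_lit 5) 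
(.lf (nat_lit 122891) (.g (nat_lit 456) (.e (nat_lit 7237) (nat_lit 382) (.e (nat_lit 1221) (nat_lit 90) (.e (nat_lit 81926) (nat_lit 11) .nil))) .nil)) 
(.lf (nat_lit 122923) (.g (nat_lit 1533) (.e (nat_lit 7237) (nat_lit 382) (.e (nat_lit 1221) (nat_lit 90) (.e (nat_lit 81965) (nat_lit 26) (.e (nat_lit 147491) (nat_lit 10) .nil)))) .nil))) (.nd (nat_lit 5) 
(.lf (nat_lit 122907) (.g (nat_lit 1614) (.e (nat_lit 7237) (nat_lit 382) (.e (nat_lit 1221) (nat_lit 90) (.e (nat_lit 81965) (nat_lit 26) (.e (nat_lit 147463) (nat_lit 9) (.e (nat_lit 324) (nat_lit 24) .nil))))) .nil)) 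
(.lf (nat_lit 122939) (.g (nat_lit 2679) (.e (nat_lit 7936) (nat_lit 382) (.e (nat_lit 1220) (nat_lit 90) (.e (nat_lit 81950) (nat_lit 21) (.e (nat_lit 57681) (nat_lit 155) (.e (nat_lit 122917) (nat_lit 15) .nil))))) .nil))))) (.nd (nat_lit 3) (.nd (nat_lit 4) (.nd (nat_lit 5) 
(.lf (nat_lit 122887) (.g (nat_lit 3762) (.e (nat_lit 7237) (nat_lit 382) (.e (nat_lit 1220) (nat_lit 90) (.e (nat_lit 81965) (nat_lit 26) (.e (nat_lit 147495) (nat_lit 11) (.e (nat_lit 24640) (nat_lit 10) (.e (nat_lit 344088) (nat_lit 18) .nil)))))) (.g (nat_lit 6) .nil .nil))) 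
(.lf (nat_lit 122919) (.g (nat_lit 2145) (.e (nat_lit 7237) (nat_lit 382) (.e (nat_lit 1221) (nat_lit 90) (.e (nat_lit 81965) (nat_lit 26) (.e (nat_lit 147478) (nat_lit 9) (.e (nat_lit 7936) (nat_lit 24) (.e (nat_lit 368384) (nat_lit 0) .nil)))))) (.g (nat_lit 4) .nil .nil)))) (.nd (nat_lit 5) 
(.lf (nat_lit 122903) (.g (nat_lit 443) (.e (nat_lit 7237) (nat_lit 382) (.e (nat_lit 1221) (nat_lit 90) (.e (nat_lit 81965) (nat_lit 26) .nil))) .nil)) 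
(.lf (nat_lit 122935) (.g (nat_lit 3919) (.e (nat_lit 7237) (nat_lit 382) (.e (nat_lit 1221) (nat_lit 90) (.e (nat_lit 81965) (nat_lit 26) (.e (nat_lit 147496) (nat_lit 11) (.e (nat_lit 24640) (nat_lit 10) (.e (nat_lit 344088) (nat_lit 18) .nil)))))) (.g (nat_lit 6) .nil .nil))))) (.nd (nat_lit 4) (.nd (nat_lit 5) 
(.lf (nat_lit 122895) (.g (nat_lit 1533) (.e (nat_lit 7237) (nat_lit 382) (.e (nat_lit 1221) (nat_lit 90) (.e (nat_lit 81947) (nat_lit 20) (.e (nat_lit 2270) (nat_lit 149) (.e (nat_lit 761868) (nat_lit 5) (.e (nat_lit 1585) (nat_lit 111) (.e (nat_lit 368384) (nat_lit 0) .nil))))))) (.g (nat_lit 4) .nil .nil))) 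
(.lf (nat_lit 122927) (.g (nat_lit 1980) (.e (nat_lit 7237) (nat_lit 382) (.e (nat_lit 1221) (nat_lit 90) (.e (nat_lit 81965) (nat_lit 26) (.e (nat_lit 147492) (nat_lit 11) (.e (nat_lit 24638) (nat_lit 9) (.e (nat_lit 335892) (nat_lit 0) (.e (nat_lit 996) (nat_lit 81) .nil))))))) (.g (nat_lit 4) .nil .nil)))) (.nd (nat_lit 5) 
(.lf (nat_lit 122911) (.g (nat_lit 2348) (.e (nat_lit 7237) (nat_lit 382) (.e (nat_lit 1221) (nat_lit 90) (.e (nat_lit 81965) (nat_lit 26) (.e (nat_lit 147466) (nat_lit 9) (.e (nat_lit 324) (nat_lit 24) (.e (nat_lit 368384) (nat_lit 0) .nil)))))) (.g (nat_lit 5) .nil .nil))) 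
(.lf (nat_lit 122943) (.g (nat_lit 1963) (.e (nat_lit 7936) (nat_lit 382) (.e (nat_lit 1220) (nat_lit 90) (.e (nat_lit 81965) (nat_lit 26) (.e (nat_lit 147496) (nat_lit 11) (.e (nat_lit 24640) (nat_lit 10) .nil))))) .nil))))))))

noncomputable def tv1639 : DT := (.nd (nat_lit 0) (.nd (nat_lit 1) (.nd (nat_lit 2) (.nd (nat_lit 3) (.nd (nat_lit 4) (.nd (nat_lit 5) 
(.lf (nat_lit 122944) (.g (nat_lit 1947) (.e (nat_lit 7936) (nat_lit 382) (.e (nat_lit 1221) (nat_lit 90) (.e (nat_lit 81950) (nat_lit 21) (.e (nat_lit 57681) (nat_lit 155) (.e (nat_lit 122917) (nat_lit 15) .nil))))) .nil)) 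
(.lf (nat_lit 122976) (.g (nat_lit 1185) (.e (nat_lit 7255) (nat_lit 383) (.e (nat_lit 8210) (nat_lit 8) (.e (nat_lit 294941) (nat_lit 9) (.e (nat_lit 336421) (nat_lit 28) (.e (nat_lit 442112) (nat_lit 5) (.e (nat_lit 73732) (nat_lit 0) .nil)))))) (.g (nat_lit 4) .nil .nil)))) (.nd (nat_lit 5) 
(.lf (nat_lit 122960) (.g (nat_lit 1175) (.e (nat_lit 7247) (nat_lit 383) (.e (nat_lit 8210) (nat_lit 8) (.e (nat_lit 294960) (nat_lit 13) (.e (nat_lit 393238) (nat_lit 17) (.e (nat_lit 7936) (nat_lit 407) (.e (nat_lit 73731) (nat_lit 0) .nil)))))) (.g (nat_lit 4) .nil .nil))) 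
(.lf (nat_lit 122992) (.g (nat_lit 2547) (.e (nat_lit 7261) (nat_lit 384) (.e (nat_lit 57347) (nat_lit 0) (.e (nat_lit 2031) (nat_lit 140) (.e (nat_lit 688182) (nat_lit 17) (.e (nat_lit 73755) (nat_lit 8) (.e (nat_lit 557089) (nat_lit 12) (.e (nat_lit 171776) (nat_lit 192) (.e (nat_lit 73730) (nat_lit 0) .nil)))))))) (.g (nat_lit 5) .nil .nil))))) (.nd (nat_lit 4) (.nd (nat_lit 5) 
(.lf (nat_lit 122952) (.g (nat_lit 3849) (.e (nat_lit 7247) (nat_lit 383) (.e (nat_lit 8194) (nat_lit 0) (.e (nat_lit 5355) (nat_lit 298) (.e (nat_lit 1659) (nat_lit 115) (.e (nat_lit 393301) (nat_lit 27) (.e (nat_lit 491560) (nat_lit 10) (.e (nat_lit 344094) (nat_lit 18) .nil))))))) (.g (nat_lit 6) .nil .nil))) 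
(.lf (nat_lit 122984) (.g (nat_lit 800) (.e (nat_lit 7259) (nat_lit 384) (.e (nat_lit 57411) (nat_lit 12) (.e (nat_lit 336211) (nat_lit 13) .nil))) .nil))) (.nd (nat_lit 5) 
(.lf (nat_lit 122968) (.g (nat_lit 4333) (.e (nat_lit 7253) (nat_lit 383) (.e (nat_lit 8210) (nat_lit 8) (.e (nat_lit 294931) (nat_lit 3) (.e (nat_lit 98373) (nat_lit 29) (.e (nat_lit 450587) (nat_lit 10) (.e (nat_lit 573475) (nat_lit 12) (.e (nat_lit 57356) (nat_lit 0) .nil))))))) (.g (nat_lit 0) .nil .nil))) 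
(.lf (nat_lit 123000) (.g (nat_lit 2960) (.e (nat_lit 7261) (nat_lit 384) (.e (nat_lit 57364) (nat_lit 1) (.e (nat_lit 57830) (nat_lit 250) (.e (nat_lit 1201) (nat_lit 88) (.e (nat_lit 65586) (nat_lit 7) (.e (nat_lit 319531) (nat_lit 16) (.e (nat_lit 286748) (nat_lit 9) (.e (nat_lit 336295) (nat_lit 15) (.e (nat_lit 7936) (nat_lit 157) .nil))))))))) (.g (nat_lit 8) .nil .nil)))))) 
(.nd (nat_lit 3) (.nd (nat_lit 4) (.nd (nat_lit 5) 
(.lf (nat_lit 122948) (.g (nat_lit 1487) (.e (nat_lit 7936) (nat_lit 382) (.e (nat_lit 1221) (nat_lit 90) (.e (nat_lit 81965) (nat_lit 26) (.e (nat_lit 147463) (nat_lit 9) (.e (nat_lit 321) (nat_lit 24) .nil))))) .nil)) 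
(.lf (nat_lit 122980) (.g (nat_lit 4064) (.e (nat_lit 7255) (nat_lit 383) (.e (nat_lit 8210) (nat_lit 8) (.e (nat_lit 294958) (nat_lit 13) (.e (nat_lit 393301) (nat_lit 27) (.e (nat_lit 491558) (nat_lit 10) (.e (nat_lit 344097) (nat_lit 18) .nil)))))) (.g (nat_lit 0) .nil .nil)))) (.nd (nat_lit 5) 
(.lf (nat_lit 122964) (.g (nat_lit 4574) (.e (nat_lit 7251) (nat_lit 383) (.e (nat_lit 8210) (nat_lit 8) (.e (nat_lit 294931) (nat_lit 3) (.e (nat_lit 98373) (nat_lit 29) (.e (nat_lit 450587) (nat_lit 10) (.e (nat_lit 573475) (nat_lit 12) (.e (nat_lit 57350) (nat_lit 0) .nil))))))) (.g (nat_lit 7) .nil .nil))) 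
(.lf (nat_lit 122996) (.g (nat_lit 1275) (.e (nat_lit 7261) (nat_lit 384) (.e (nat_lit 57347) (nat_lit 0) (.e (nat_lit 2203) (nat_lit 144) (.e (nat_lit 720956) (nat_lit 25) (.e (nat_lit 114715) (nat_lit 22) .nil))))) .nil)))) (.nd (nat_lit 4) (.nd (nat_lit 5) 
(.lf (nat_lit 122956) (.g (nat_lit 5465) (.e (nat_lit 7247) (nat_lit 383) (.e (nat_lit 8210) (nat_lit 8) (.e (nat_lit 294931) (nat_lit 3) (.e (nat_lit 98373) (nat_lit 29) (.e (nat_lit 450588) (nat_lit 10) (.e (nat_lit 573474) (nat_lit 12) (.e (nat_lit 57348) (nat_lit 0) .nil))))))) (.g (nat_lit 7) .nil .nil))) 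
(.lf (nat_lit 122988) (.g (nat_lit 1248) (.e (nat_lit 7260) (nat_lit 384) (.e (nat_lit 57411) (nat_lit 12) (.e (nat_lit 336210) (nat_lit 13) .nil))) .nil))) (.nd (nat_lit 5) 
(.lf (nat_lit 122972) (.g (nat_lit 1023) (.e (nat_lit 7254) (nat_lit 383) (.e (nat_lit 8210) (nat_lit 8) (.e (nat_lit 294941) (nat_lit 9) (.e (nat_lit 336421) (nat_lit 28) (.e (nat_lit 442112) (nat_lit 5) (.e (nat_lit 73732) (nat_lit 0) .nil)))))) (.g (nat_lit 4) .nil .nil))) 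
(.lf (nat_lit 123004) (.g (nat_lit 4629) (.e (nat_lit 7261) (nat_lit 384) (.e (nat_lit 57371) (nat_lit 2) (.e (nat_lit 90128) (nat_lit 9) (.e (nat_lit 297) (nat_lit 22) (.e (nat_lit 344131) (nat_lit 26) (.e (nat_lit 557098) (nat_lit 13) (.e (nat_lit 172064) (nat_lit 2) (.e (nat_lit 196661) (nat_lit 12) (.e (nat_lit 57353) (nat_lit 0) .nil))))))))) (.g (nat_lit 7) .nil .nil))))))) 
(.nd (nat_lit 2) (.nd (nat_lit 3) (.nd (nat_lit 4) (.nd (nat_lit 5) 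
(.lf (nat_lit 122946) (.g (nat_lit 427) (.e (nat_lit 7936) (nat_lit 382) (.e (nat_lit 1221) (nat_lit 90) (.e (nat_lit 81965) (nat_lit 26) .nil))) .nil)) 
(.lf (nat_lit 122978) (.g (nat_lit 3913) (.e (nat_lit 7255) (nat_lit 383) (.e (nat_lit 8210) (nat_lit 8) (.e (nat_lit 294957) (nat_lit 13) (.e (nat_lit 393301) (nat_lit 27) (.e (nat_lit 491560) (nat_lit 10) (.e (nat_lit 344097) (nat_lit 18) .nil)))))) (.g (nat_lit 6) .nil .nil)))) (.nd (nat_lit 5) 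
(.lf (nat_lit 122962) (.g (nat_lit 3963) (.e (nat_lit 7251) (nat_lit 383) (.e (nat_lit 8195) (nat_lit 0) (.e (nat_lit 5321) (nat_lit 298) (.e (nat_lit 1659) (nat_lit 115) (.e (nat_lit 393301) (nat_lit 27) (.e (nat_lit 491560) (nat_lit 10) (.e (nat_lit 344093) (nat_lit 18) .nil))))))) (.g (nat_lit 6) .nil .nil))) 
(.lf (nat_lit 122994) (.g (nat_lit 1042) (.e (nat_lit 7261) (nat_lit 384) (.e (nat_lit 57347) (nat_lit 0) (.e (nat_lit 2203) (nat_lit 144) (.e (nat_lit 720955) (nat_lit 25) .nil)))) .nil)))) (.nd (nat_lit 4) (.nd (nat_lit 5) 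
(.lf (nat_lit 122954) (.g (nat_lit 5315) (.e (nat_lit 7247) (nat_lit 383) (.e (nat_lit 8210) (nat_lit 8) (.e (nat_lit 294931) (nat_lit 3) (.e (nat_lit 98373) (nat_lit 29) (.e (nat_lit 450588) (nat_lit 10) (.e (nat_lit 573473) (nat_lit 12) (.e (nat_lit 57353) (nat_lit 0) .nil))))))) (.g (nat_lit 6) .nil .nil))) 
(.lf (nat_lit 122986) (.g (nat_lit 911) (.e (nat_lit 7259) (nat_lit 384) (.e (nat_lit 57419) (nat_lit 12) (.e (nat_lit 336213) (nat_lit 13) (.e (nat_lit 393300) (nat_lit 27) .nil)))) .nil))) (.nd (nat_lit 5) 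
(.lf (nat_lit 122970) (.g (nat_lit 4075) (.e (nat_lit 7253) (nat_lit 383) (.e (nat_lit 8210) (nat_lit 8) (.e (nat_lit 294958) (nat_lit 13) (.e (nat_lit 393301) (nat_lit 27) (.e (nat_lit 491560) (nat_lit 10) (.e (nat_lit 344097) (nat_lit 18) .nil)))))) (.g (nat_lit 0) .nil .nil))) 
(.lf (nat_lit 123002) (.g (nat_lit 1931) (.e (nat_lit 7261) (nat_lit 384) (.e (nat_lit 57371) (nat_lit 2) (.e (nat_lit 90128) (nat_lit 9) (.e (nat_lit 297) (nat_lit 22) (.e (nat_lit 344131) (nat_lit 26) .nil))))) .nil))))) (.nd (nat_lit 3) (.nd (nat_lit 4) (.nd (nat_lit 5) 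
(.lf (nat_lit 122950) (.g (nat_lit 2097) (.e (nat_lit 7936) (nat_lit 382) (.e (nat_lit 1221) (nat_lit 90) (.e (nat_lit 81965) (nat_lit 26) (.e (nat_lit 147496) (nat_lit 11) (.e (nat_lit 24639) (nat_lit 10) .nil))))) .nil)) 
(.lf (nat_lit 122982) (.g (nat_lit 4083) (.e (nat_lit 7255) (nat_lit 383) (.e (nat_lit 8210) (nat_lit 8) (.e (nat_lit 294958) (nat_lit 13) (.e (nat_lit 393301) (nat_lit 27) (.e (nat_lit 491560) (nat_lit 10) (.e (nat_lit 344097) (nat_lit 18) .nil)))))) (.g (nat_lit 0) .nil .nil)))) (.nd (nat_lit 5) 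
(.lf (nat_lit 122966) (.g (nat_lit 3629) (.e (nat_lit 7251) (nat_lit 383) (.e (nat_lit 8210) (nat_lit 8) (.e (nat_lit 294958) (nat_lit 13) (.e (nat_lit 393301) (nat_lit 27) (.e (nat_lit 491559) (nat_lit 10) (.e (nat_lit 344093) (nat_lit 18) .nil)))))) (.g (nat_lit 6) .nil .nil))) 
(.lf (nat_lit 122998) (.g (nat_lit 1427) (.e (nat_lit 7261) (nat_lit 384) (.e (nat_lit 57347) (nat_lit 0) (.e (nat_lit 6461) (nat_lit 343) (.e (nat_lit 1659) (nat_lit 115) (.e (nat_lit 393301) (nat_lit 27) .nil))))) .nil)))) (.nd (nat_lit 4) (.nd (nat_lit 5) 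
(.lf (nat_lit 122958) (.g (nat_lit 3860) (.e (nat_lit 7247) (nat_lit 383) (.e (nat_lit 8210) (nat_lit 8) (.e (nat_lit 294957) (nat_lit 13) (.e (nat_lit 393301) (nat_lit 27) (.e (nat_lit 491560) (nat_lit 10) (.e (nat_lit 344090) (nat_lit 18) .nil)))))) (.g (nat_lit 0) .nil .nil))) 
(.lf (nat_lit 122990) (.g (nat_lit 1153) (.e (nat_lit 7260) (nat_lit 384) (.e (nat_lit 57411) (nat_lit 12) (.e (nat_lit 336211) (nat_lit 13) (.e (nat_lit 393300) (nat_lit 27) .nil)))) .nil))) (.nd (nat_lit 5) 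
(.lf (nat_lit 122974) (.g (nat_lit 4843) (.e (nat_lit 7255) (nat_lit 383) (.e (nat_lit 8210) (nat_lit 8) (.e (nat_lit 294931) (nat_lit 3) (.e (nat_lit 98373) (nat_lit 29) (.e (nat_lit 450587) (nat_lit 10) (.e (nat_lit 573475) (nat_lit 12) (.e (nat_lit 57354) (nat_lit 0) .nil))))))) (.g (nat_lit 0) .nil .nil))) 
(.lf (nat_lit 123006) (.g (nat_lit 1886) (.e (nat_lit 7261) (nat_lit 384) (.e (nat_lit 57371) (nat_lit 2) (.e (nat_lit 90128) (nat_lit 9) (.e (nat_lit 297) (nat_lit 22) (.e (nat_lit 344132) (nat_lit 26) .nil))))) .nil))))))) (.nd (nat_lit 1) (.nd (nat_lit 2) (.nd (nat_lit 3) (.nd (nat_lit 4) (.nd (nat_lit 5) 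
(.lf (nat_lit 122945) (.g (nat_lit 1535) (.e (nat_lit 7936) (nat_lit 382) (.e (nat_lit 1221) (nat_lit 90) (.e (nat_lit 81950) (nat_lit 21) (.e (nat_lit 57681) (nat_lit 155) (.e (nat_lit 122919) (nat_lit 15) .nil))))) .nil)) 
(.lf (nat_lit 122977) (.g (nat_lit 1093) (.e (nat_lit 7255) (nat_lit 383) (.e (nat_lit 8210) (nat_lit 8) (.e (nat_lit 294941) (nat_lit 9) (.e (nat_lit 336421) (nat_lit 28) (.e (nat_lit 442112) (nat_lit 5) (.e (nat_lit 73733) (nat_lit 0) .nil)))))) (.g (nat_lit 4) .nil .nil)))) (.nd (nat_lit 5) 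
(.lf (nat_lit 122961) (.g (nat_lit 3766) (.e (nat_lit 7251) (nat_lit 383) (.e (nat_lit 8195) (nat_lit 0) (.e (nat_lit 5321) (nat_lit 298) (.e (nat_lit 1659) (nat_lit 115) (.e (nat_lit 393301) (nat_lit 27) (.e (nat_lit 491560) (nat_lit 10) (.e (nat_lit 344087) (nat_lit 18) .nil))))))) (.g (nat_lit 7) .nil .nil))) 
(.lf (nat_lit 122993) (.g (nat_lit 2139) (.e (nat_lit 7261) (nat_lit 384) (.e (nat_lit 57347) (nat_lit 0) (.e (nat_lit 2032) (nat_lit 140) (.e (nat_lit 688182) (nat_lit 17) (.e (nat_lit 73755) (nat_lit 8) (.e (nat_lit 557089) (nat_lit 12) (.e (nat_lit 171776) (nat_lit 192) (.e (nat_lit 73730) (nat_lit 0) .nil)))))))) (.g (nat_lit 5) .nil .nil))))) (.nd (nat_lit 4) (.nd (nat_lit 5) 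
(.lf (nat_lit 122953) (.g (nat_lit 4257) (.e (nat_lit 7247) (nat_lit 383) (.e (nat_lit 8210) (nat_lit 8) (.e (nat_lit 294931) (nat_lit 3) (.e (nat_lit 98373) (nat_lit 29) (.e (nat_lit 450587) (nat_lit 10) (.e (nat_lit 573475) (nat_lit 12) (.e (nat_lit 57345) (nat_lit 0) .nil))))))) (.g (nat_lit 0) .nil .nil))) 
(.lf (nat_lit 122985) (.g (nat_lit 1947) (.e (nat_lit 7259) (nat_lit 384) (.e (nat_lit 57411) (nat_lit 12) (.e (nat_lit 336211) (nat_lit 13) (.e (nat_lit 393300) (nat_lit 27) (.e (nat_lit 491560) (nat_lit 10) (.e (nat_lit 344089) (nat_lit 18) .nil)))))) (.g (nat_lit 4) .nil .nil)))) (.nd (nat_lit 5) 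
(.lf (nat_lit 122969) (.g (nat_lit 3877) (.e (nat_lit 7253) (nat_lit 383) (.e (nat_lit 8210) (nat_lit 8) (.e (nat_lit 294957) (nat_lit 13) (.e (nat_lit 393301) (nat_lit 27) (.e (nat_lit 491560) (nat_lit 10) (.e (nat_lit 344097) (nat_lit 18) .nil)))))) (.g (nat_lit 6) .nil .nil))) 
(.lf (nat_lit 123001) (.g (nat_lit 565) (.e (nat_lit 7261) (nat_lit 384) (.e (nat_lit 57371) (nat_lit 2) (.e (nat_lit 90128) (nat_lit 9) .nil))) .nil))))) (.nd (nat_lit 3) (.nd (nat_lit 4) (.nd (nat_lit 5) 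
(.lf (nat_lit 122949) (.g (nat_lit 1823) (.e (nat_lit 7936) (nat_lit 382) (.e (nat_lit 1221) (nat_lit 90) (.e (nat_lit 81965) (nat_lit 26) (.e (nat_lit 147495) (nat_lit 11) (.e (nat_lit 24640) (nat_lit 10) .nil))))) .nil)) 
(.lf (nat_lit 122981) (.g (nat_lit 3361) (.e (nat_lit 7255) (nat_lit 383) (.e (nat_lit 8210) (nat_lit 8) (.e (nat_lit 294958) (nat_lit 13) (.e (nat_lit 393301) (nat_lit 27) (.e (nat_lit 491558) (nat_lit 10) (.e (nat_lit 344100) (nat_lit 18) .nil)))))) (.g (nat_lit 5) .nil .nil)))) (.nd (nat_lit 5) 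
(.lf (nat_lit 122965) (.g (nat_lit 5404) (.e (nat_lit 7251) (nat_lit 383) (.e (nat_lit 8210) (nat_lit 8) (.e (nat_lit 294931) (nat_lit 3) (.e (nat_lit 98373) (nat_lit 29) (.e (nat_lit 450588) (nat_lit 10) (.e (nat_lit 573473) (nat_lit 12) (.e (nat_lit 57350) (nat_lit 0) .nil))))))) (.g (nat_lit 6) .nil .nil))) 
(.lf (nat_lit 122997) (.g (nat_lit 1732) (.e (nat_lit 7261) (nat_lit 384) (.e (nat_lit 57347) (nat_lit 0) (.e (nat_lit 2203) (nat_lit 144) (.e (nat_lit 720956) (nat_lit 25) (.e (nat_lit 114715) (nat_lit 22) (.e (nat_lit 90165) (nat_lit 12) (.e (nat_lit 171776) (nat_lit 192) (.e (nat_lit 73730) (nat_lit 0) .nil)))))))) (.g (nat_lit 5) .nil .nil))))) (.nd (nat_lit 4) (.nd (nat_lit 5) 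
(.lf (nat_lit 122957) (.g (nat_lit 1112) (.e (nat_lit 7247) (nat_lit 383) (.e (nat_lit 8210) (nat_lit 8) (.e (nat_lit 294941) (nat_lit 9) (.e (nat_lit 336421) (nat_lit 28) (.e (nat_lit 442112) (nat_lit 5) (.e (nat_lit 73730) (nat_lit 0) .nil)))))) (.g (nat_lit 4) .nil .nil))) 
(.lf (nat_lit 122989) (.g (nat_lit 1208) (.e (nat_lit 7260) (nat_lit 384) (.e (nat_lit 57411) (nat_lit 12) (.e (nat_lit 336211) (nat_lit 13) (.e (nat_lit 393299) (nat_lit 27) .nil)))) .nil))) (.nd (nat_lit 5) 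
(.lf (nat_lit 122973) (.g (nat_lit 4151) (.e (nat_lit 7254) (nat_lit 383) (.e (nat_lit 8210) (nat_lit 8) (.e (nat_lit 294958) (nat_lit 13) (.e (nat_lit 393301) (nat_lit 27) (.e (nat_lit 491560) (nat_lit 10) (.e (nat_lit 344097) (nat_lit 18) .nil)))))) (.g (nat_lit 0) .nil .nil))) 
(.lf (nat_lit 123005) (.g (nat_lit 3888) (.e (nat_lit 7261) (nat_lit 384) (.e (nat_lit 57371) (nat_lit 2) (.e (nat_lit 90128) (nat_lit 9) (.e (nat_lit 297) (nat_lit 22) (.e (nat_lit 344131) (nat_lit 26) (.e (nat_lit 557100) (nat_lit 13) (.e (nat_lit 172062) (nat_lit 2) (.e (nat_lit 196661) (nat_lit 12) (.e (nat_lit 57353) (nat_lit 0) .nil))))))))) (.g (nat_lit 6) .nil .nil))))))) 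
(.nd (nat_lit 2) (.nd (nat_lit 3) (.nd (nat_lit 4) (.nd (nat_lit 5) 
(.lf (nat_lit 122947) (.g (nat_lit 1122) (.e (nat_lit 7936) (nat_lit 382) (.e (nat_lit 1221) (nat_lit 90) (.e (nat_lit 81965) (nat_lit 26) (.e (nat_lit 147463) (nat_lit 9) .nil)))) .nil)) 
(.lf (nat_lit 122979) (.g (nat_lit 2791) (.e (nat_lit 7255) (nat_lit 383) (.e (nat_lit 8210) (nat_lit 8) (.e (nat_lit 294957) (nat_lit 13) (.e (nat_lit 393301) (nat_lit 27) (.e (nat_lit 491560) (nat_lit 10) (.e (nat_lit 344099) (nat_lit 18) .nil)))))) (.g (nat_lit 5) .nil .nil)))) (.nd (nat_lit 5) 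
(.lf (nat_lit 122963) (.g (nat_lit 4196) (.e (nat_lit 7251) (nat_lit 383) (.e (nat_lit 8210) (nat_lit 8) (.e (nat_lit 294931) (nat_lit 3) (.e (nat_lit 98373) (nat_lit 29) (.e (nat_lit 450587) (nat_lit 10) (.e (nat_lit 573473) (nat_lit 12) (.e (nat_lit 57350) (nat_lit 0) .nil))))))) (.g (nat_lit 0) .nil .nil))) 
(.lf (nat_lit 122995) (.g (nat_lit 990) (.e (nat_lit 7261) (nat_lit 384) (.e (nat_lit 57347) (nat_lit 0) (.e (nat_lit 2203) (nat_lit 144) (.e (nat_lit 720956) (nat_lit 25) .nil)))) .nil)))) (.nd (nat_lit 4) (.nd (nat_lit 5) 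
(.lf (nat_lit 122955) (.g (nat_lit 5607) (.e (nat_lit 7247) (nat_lit 383) (.e (nat_lit 8210) (nat_lit 8) (.e (nat_lit 294931) (nat_lit 3) (.e (nat_lit 98373) (nat_lit 29) (.e (nat_lit 450588) (nat_lit 10) (.e (nat_lit 573474) (nat_lit 12) (.e (nat_lit 57347) (nat_lit 0) .nil))))))) (.g (nat_lit 7) .nil .nil))) 
(.lf (nat_lit 122987) (.g (nat_lit 1693) (.e (nat_lit 7259) (nat_lit 384) (.e (nat_lit 57437) (nat_lit 17) (.e (nat_lit 376842) (nat_lit 11) (.e (nat_lit 426341) (nat_lit 14) .nil)))) .nil))) (.nd (nat_lit 5) 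
(.lf (nat_lit 122971) (.g (nat_lit 4302) (.e (nat_lit 7254) (nat_lit 383) (.e (nat_lit 8210) (nat_lit 8) (.e (nat_lit 294931) (nat_lit 3) (.e (nat_lit 98373) (nat_lit 29) (.e (nat_lit 450587) (nat_lit 10) (.e (nat_lit 573475) (nat_lit 12) (.e (nat_lit 57356) (nat_lit 0) .nil))))))) (.g (nat_lit 0) .nil .nil))) 
(.lf (nat_lit 123003) (.g (nat_lit 2196) (.e (nat_lit 7261) (nat_lit 384) (.e (nat_lit 57371) (nat_lit 2) (.e (nat_lit 90128) (nat_lit 9) (.e (nat_lit 297) (nat_lit 22) (.e (nat_lit 344131) (nat_lit 26) (.e (nat_lit 557096) (nat_lit 13) (.e (nat_lit 172064) (nat_lit 2) (.e (nat_lit 196661) (nat_lit 12) (.e (nat_lit 57353) (nat_lit 0) .nil))))))))) (.g (nat_lit 4) .nil .nil)))))) 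
(.nd (nat_lit 3) (.nd (nat_lit 4) (.nd (nat_lit 5) 
(.lf (nat_lit 122951) (.g (nat_lit 1923) (.e (nat_lit 7936) (nat_lit 382) (.e (nat_lit 1221) (nat_lit 90) (.e (nat_lit 81965) (nat_lit 26) (.e (nat_lit 147496) (nat_lit 11) (.e (nat_lit 24641) (nat_lit 10) .nil))))) .nil)) 
(.lf (nat_lit 122983) (.g (nat_lit 577) (.e (nat_lit 7259) (nat_lit 384) (.e (nat_lit 57377) (nat_lit 3) (.e (nat_lit 98317) (nat_lit 9) .nil))) .nil))) (.nd (nat_lit 5) 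
(.lf (nat_lit 122967) (.g (nat_lit 3287) (.e (nat_lit 7251) (nat_lit 383) (.e (nat_lit 8210) (nat_lit 8) (.e (nat_lit 294958) (nat_lit 13) (.e (nat_lit 393301) (nat_lit 27) (.e (nat_lit 491560) (nat_lit 10) (.e (nat_lit 344087) (nat_lit 18) .nil)))))) (.g (nat_lit 5) .nil .nil))) 
(.lf (nat_lit 122999) (.g (nat_lit 3092) (.e (nat_lit 7261) (nat_lit 384) (.e (nat_lit 57354) (nat_lit 0) (.e (nat_lit 6114) (nat_lit 332) (.e (nat_lit 2777) (nat_lit 178) (.e (nat_lit 286731) (nat_lit 1) (.e (nat_lit 57681) (nat_lit 155) (.e (nat_lit 122919) (nat_lit 15) (.e (nat_lit 360451) (nat_lit 0) .nil)))))))) (.g (nat_lit 4) .nil .nil))))) (.nd (nat_lit 4) (.nd (nat_lit 5) 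
(.lf (nat_lit 122959) (.g (nat_lit 3632) (.e (nat_lit 7247) (nat_lit 383) (.e (nat_lit 8210) (nat_lit 8) (.e (nat_lit 294958) (nat_lit 13) (.e (nat_lit 393301) (nat_lit 27) (.e (nat_lit 491560) (nat_lit 10) (.e (nat_lit 344090) (nat_lit 18) .nil)))))) (.g (nat_lit 0) .nil .nil))) 
(.lf (nat_lit 122991) (.g (nat_lit 2019) (.e (nat_lit 7261) (nat_lit 384) (.e (nat_lit 57347) (nat_lit 0) (.e (nat_lit 2029) (nat_lit 140) (.e (nat_lit 688182) (nat_lit 17) (.e (nat_lit 73755) (nat_lit 8) (.e (nat_lit 557089) (nat_lit 12) (.e (nat_lit 171776) (nat_lit 192) (.e (nat_lit 73730) (nat_lit 0) .nil)))))))) (.g (nat_lit 5) .nil .nil)))) (.nd (nat_lit 5) 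
(.lf (nat_lit 122975) (.g (nat_lit 4467) (.e (nat_lit 7255) (nat_lit 383) (.e (nat_lit 8210) (nat_lit 8) (.e (nat_lit 294931) (nat_lit 3) (.e (nat_lit 98373) (nat_lit 29) (.e (nat_lit 450587) (nat_lit 10) (.e (nat_lit 573475) (nat_lit 12) (.e (nat_lit 57356) (nat_lit 0) .nil))))))) (.g (nat_lit 0) .nil .nil))) 
(.lf (nat_lit 123007) (.g (nat_lit 2682) (.e (nat_lit 7261) (nat_lit 384) (.e (nat_lit 57371) (nat_lit 2) (.e (nat_lit 90128) (nat_lit 9) (.e (nat_lit 297) (nat_lit 22) (.e (nat_lit 344132) (nat_lit 26) (.e (nat_lit 557101) (nat_lit 13) (.e (nat_lit 172063) (nat_lit 2) (.e (nat_lit 196661) (nat_lit 12) (.e (nat_lit 57353) (nat_lit 0) .nil))))))))) (.g (nat_lit 5) .nil .nil)))))))))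

noncomputable def tv1640 : DT := (.nd (nat_lit 0) (.nd (nat_lit 1) (.nd (nat_lit 2) (.nd (nat_lit 3) (.nd (nat_lit 4) (.nd (nat_lit 5) 
(.lf (nat_lit 123008) (.g (nat_lit 2610) (.e (nat_lit 7261) (nat_lit 384) (.e (nat_lit 57371) (nat_lit 2) (.e (nat_lit 90128) (nat_lit 9) (.e (nat_lit 297) (nat_lit 22) (.e (nat_lit 344132) (nat_lit 26) (.e (nat_lit 557101) (nat_lit 13) (.e (nat_lit 172066) (nat_lit 3) (.e (nat_lit 204822) (nat_lit 17) (.e (nat_lit 1015) (nat_lit 81) .nil))))))))) (.g (nat_lit 5) .nil .nil))) 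
(.lf (nat_lit 123040) (.g (nat_lit 4397) (.e (nat_lit 7261) (nat_lit 384) (.e (nat_lit 57404) (nat_lit 12) (.e (nat_lit 336013) (nat_lit 2) (.e (nat_lit 90170) (nat_lit 13) (.e (nat_lit 172106) (nat_lit 10) (.e (nat_lit 434244) (nat_lit 28) (.e (nat_lit 573473) (nat_lit 12) (.e (nat_lit 57348) (nat_lit 0) .nil)))))))) (.g (nat_lit 0) .nil .nil)))) (.nd (nat_lit 5) 
(.lf (nat_lit 123024) (.g (nat_lit 673) (.e (nat_lit 7261) (nat_lit 384) (.e (nat_lit 57371) (nat_lit 2) (.e (nat_lit 90162) (nat_lit 12) .nil))) .nil)) 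
(.lf (nat_lit 123056) (.g (nat_lit 2688) (.e (nat_lit 7261) (nat_lit 384) (.e (nat_lit 57404) (nat_lit 12) (.e (nat_lit 336028) (nat_lit 3) (.e (nat_lit 98372) (nat_lit 29) (.e (nat_lit 450586) (nat_lit 10) (.e (nat_lit 573477) (nat_lit 12) (.e (nat_lit 57353) (nat_lit 0) .nil))))))) (.g (nat_lit 0) .nil .nil))))) (.nd (nat_lit 4) (.nd (nat_lit 5) 
(.lf (nat_lit 123016) (.g (nat_lit 3559) (.e (nat_lit 7261) (nat_lit 384) (.e (nat_lit 57371) (nat_lit 2) (.e (nat_lit 90128) (nat_lit 9) (.e (nat_lit 304) (nat_lit 22) (.e (nat_lit 344133) (nat_lit 26) (.e (nat_lit 557098) (nat_lit 13) (.e (nat_lit 172064) (nat_lit 2) (.e (nat_lit 196661) (nat_lit 12) (.e (nat_lit 57353) (nat_lit 0) .nil))))))))) (.g (nat_lit 6) .nil .nil))) 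
(.lf (nat_lit 123048) (.g (nat_lit 3862) (.e (nat_lit 7261) (nat_lit 384) (.e (nat_lit 57404) (nat_lit 12) (.e (nat_lit 336013) (nat_lit 2) (.e (nat_lit 90170) (nat_lit 13) (.e (nat_lit 172113) (nat_lit 10) (.e (nat_lit 434248) (nat_lit 28) (.e (nat_lit 573475) (nat_lit 12) (.e (nat_lit 57353) (nat_lit 0) .nil)))))))) (.g (nat_lit 7) .nil .nil)))) (.nd (nat_lit 5) 
(.lf (nat_lit 123032) (.g (nat_lit 3740) (.e (nat_lit 7261) (nat_lit 384) (.e (nat_lit 57377) (nat_lit 3) (.e (nat_lit 106240) (nat_lit 10) (.e (nat_lit 344133) (nat_lit 26) (.e (nat_lit 557098) (nat_lit 13) (.e (nat_lit 172064) (nat_lit 2) (.e (nat_lit 196661) (nat_lit 12) (.e (nat_lit 57353) (nat_lit 0) .nil)))))))) (.g (nat_lit 7) .nil .nil))) 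
(.lf (nat_lit 123064) (.g (nat_lit 1833) (.e (nat_lit 7261) (nat_lit 384) (.e (nat_lit 57404) (nat_lit 12) (.e (nat_lit 336224) (nat_lit 13) (.e (nat_lit 393234) (nat_lit 17) (.e (nat_lit 7593) (nat_lit 407) (.e (nat_lit 73730) (nat_lit 0) .nil)))))) (.g (nat_lit 5) .nil .nil)))))) (.nd (nat_lit 3) (.nd (nat_lit 4) (.nd (nat_lit 5) 
(.lf (nat_lit 123012) (.g (nat_lit 1646) (.e (nat_lit 7261) (nat_lit 384) (.e (nat_lit 57371) (nat_lit 2) (.e (nat_lit 90128) (nat_lit 9) (.e (nat_lit 298) (nat_lit 22) .nil)))) .nil)) 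
(.lf (nat_lit 123044) (.g (nat_lit 3658) (.e (nat_lit 7261) (nat_lit 384) (.e (nat_lit 57404) (nat_lit 12) (.e (nat_lit 336013) (nat_lit 2) (.e (nat_lit 90170) (nat_lit 13) (.e (nat_lit 172113) (nat_lit 10) (.e (nat_lit 434247) (nat_lit 28) (.e (nat_lit 573478) (nat_lit 12) (.e (nat_lit 57353) (nat_lit 0) .nil)))))))) (.g (nat_lit 7) .nil .nil)))) (.nd (nat_lit 5) 
(.lf (nat_lit 123028) (.g (nat_lit 1580) (.e (nat_lit 7261) (nat_lit 384) (.e (nat_lit 57377) (nat_lit 3) (.e (nat_lit 106240) (nat_lit 10) (.e (nat_lit 344132) (nat_lit 26) (.e (nat_lit 557101) (nat_lit 13) (.e (nat_lit 172062) (nat_lit 2) (.e (nat_lit 196661) (nat_lit 12) (.e (nat_lit 57353) (nat_lit 0) .nil)))))))) (.g (nat_lit 4) .nil .nil))) 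
(.lf (nat_lit 123060) (.g (nat_lit 3986) (.e (nat_lit 7261) (nat_lit 384) (.e (nat_lit 57404) (nat_lit 12) (.e (nat_lit 336028) (nat_lit 3) (.e (nat_lit 98373) (nat_lit 29) (.e (nat_lit 450588) (nat_lit 10) (.e (nat_lit 573473) (nat_lit 12) (.e (nat_lit 57348) (nat_lit 0) .nil))))))) (.g (nat_lit 0) .nil .nil))))) (.nd (nat_lit 4) (.nd (nat_lit 5) 
(.lf (nat_lit 123020) (.g (nat_lit 3276) (.e (nat_lit 7261) (nat_lit 384) (.e (nat_lit 57371) (nat_lit 2) (.e (nat_lit 90160) (nat_lit 11) (.e (nat_lit 24665) (nat_lit 14) (.e (nat_lit 401470) (nat_lit 27) .nil))))) .nil)) 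
(.lf (nat_lit 123052) (.g (nat_lit 3065) (.e (nat_lit 7261) (nat_lit 384) (.e (nat_lit 57404) (nat_lit 12) (.e (nat_lit 336028) (nat_lit 3) (.e (nat_lit 98359) (nat_lit 26) (.e (nat_lit 426286) (nat_lit 10) (.e (nat_lit 434247) (nat_lit 28) (.e (nat_lit 573478) (nat_lit 12) (.e (nat_lit 57353) (nat_lit 0) .nil)))))))) (.g (nat_lit 7) .nil .nil)))) (.nd (nat_lit 5) 
(.lf (nat_lit 123036) (.g (nat_lit 1677) (.e (nat_lit 7261) (nat_lit 384) (.e (nat_lit 57400) (nat_lit 10) (.e (nat_lit 319490) (nat_lit 0) (.e (nat_lit 5293) (nat_lit 298) (.e (nat_lit 1176) (nat_lit 87) .nil))))) .nil)) 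
(.lf (nat_lit 123068) (.g (nat_lit 3058) (.e (nat_lit 7261) (nat_lit 384) (.e (nat_lit 57406) (nat_lit 12) (.e (nat_lit 336130) (nat_lit 9) (.e (nat_lit 335995) (nat_lit 1) (.e (nat_lit 57681) (nat_lit 155) (.e (nat_lit 122919) (nat_lit 15) (.e (nat_lit 360451) (nat_lit 0) .nil))))))) (.g (nat_lit 5) .nil .nil))))))) (.nd (nat_lit 2) (.nd (nat_lit 3) (.nd (nat_lit 4) (.nd (nat_lit 5) 
(.lf (nat_lit 123010) (.g (nat_lit 1891) (.e (nat_lit 7261) (nat_lit 384) (.e (nat_lit 57371) (nat_lit 2) (.e (nat_lit 90128) (nat_lit 9) (.e (nat_lit 297) (nat_lit 22) (.e (nat_lit 344133) (nat_lit 26) .nil))))) .nil)) 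
(.lf (nat_lit 123042) (.g (nat_lit 4867) (.e (nat_lit 7261) (nat_lit 384) (.e (nat_lit 57404) (nat_lit 12) (.e (nat_lit 336013) (nat_lit 2) (.e (nat_lit 90170) (nat_lit 13) (.e (nat_lit 172113) (nat_lit 10) (.e (nat_lit 434245) (nat_lit 28) (.e (nat_lit 573474) (nat_lit 12) (.e (nat_lit 57347) (nat_lit 0) .nil)))))))) (.g (nat_lit 0) .nil .nil)))) (.nd (nat_lit 5) 
(.lf (nat_lit 123026) (.g (nat_lit 3057) (.e (nat_lit 7261) (nat_lit 384) (.e (nat_lit 57377) (nat_lit 3) (.e (nat_lit 106240) (nat_lit 10) (.e (nat_lit 344132) (nat_lit 26) (.e (nat_lit 557100) (nat_lit 13) (.e (nat_lit 172062) (nat_lit 2) (.e (nat_lit 196661) (nat_lit 12) (.e (nat_lit 57353) (nat_lit 0) .nil)))))))) (.g (nat_lit 6) .nil .nil))) 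
(.lf (nat_lit 123058) (.g (nat_lit 3208) (.e (nat_lit 7261) (nat_lit 384) (.e (nat_lit 57404) (nat_lit 12) (.e (nat_lit 336028) (nat_lit 3) (.e (nat_lit 98373) (nat_lit 29) (.e (nat_lit 450587) (nat_lit 10) (.e (nat_lit 573477) (nat_lit 12) (.e (nat_lit 57353) (nat_lit 0) .nil))))))) (.g (nat_lit 0) .nil .nil))))) (.nd (nat_lit 4) (.nd (nat_lit 5) 
(.lf (nat_lit 123018) (.g (nat_lit 1212) (.e (nat_lit 7261) (nat_lit 384) (.e (nat_lit 57371) (nat_lit 2) (.e (nat_lit 90133) (nat_lit 9) (.e (nat_lit 296) (nat_lit 22) .nil)))) .nil)) 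
(.lf (nat_lit 123050) (.g (nat_lit 4536) (.e (nat_lit 7261) (nat_lit 384) (.e (nat_lit 57404) (nat_lit 12) (.e (nat_lit 336028) (nat_lit 3) (.e (nat_lit 98359) (nat_lit 26) (.e (nat_lit 426286) (nat_lit 10) (.e (nat_lit 434245) (nat_lit 28) (.e (nat_lit 573474) (nat_lit 12) (.e (nat_lit 57347) (nat_lit 0) .nil)))))))) (.g (nat_lit 0) .nil .nil)))) (.nd (nat_lit 5) 
(.lf (nat_lit 123034) (.g (nat_lit 1373) (.e (nat_lit 7261) (nat_lit 384) (.e (nat_lit 57389) (nat_lit 5) (.e (nat_lit 114702) (nat_lit 20) (.e (nat_lit 2200) (nat_lit 144) (.e (nat_lit 720940) (nat_lit 22) (.e (nat_lit 90165) (nat_lit 12) (.e (nat_lit 171776) (nat_lit 192) (.e (nat_lit 73730) (nat_lit 0) .nil)))))))) (.g (nat_lit 5) .nil .nil))) 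
(.lf (nat_lit 123066) (.g (nat_lit 2442) (.e (nat_lit 7261) (nat_lit 384) (.e (nat_lit 57404) (nat_lit 12) (.e (nat_lit 336224) (nat_lit 13) (.e (nat_lit 393301) (nat_lit 27) (.e (nat_lit 491560) (nat_lit 10) (.e (nat_lit 344094) (nat_lit 18) .nil)))))) (.g (nat_lit 0) .nil .nil)))))) (.nd (nat_lit 3) (.nd (nat_lit 4) (.nd (nat_lit 5) 
(.lf (nat_lit 123014) (.g (nat_lit 1724) (.e (nat_lit 7261) (nat_lit 384) (.e (nat_lit 57371) (nat_lit 2) (.e (nat_lit 90128) (nat_lit 9) (.e (nat_lit 304) (nat_lit 22) (.e (nat_lit 344130) (nat_lit 26) .nil))))) .nil)) 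
(.lf (nat_lit 123046) (.g (nat_lit 4988) (.e (nat_lit 7261) (nat_lit 384) (.e (nat_lit 57404) (nat_lit 12) (.e (nat_lit 336013) (nat_lit 2) (.e (nat_lit 90170) (nat_lit 13) (.e (nat_lit 172113) (nat_lit 10) (.e (nat_lit 434248) (nat_lit 28) (.e (nat_lit 573475) (nat_lit 12) (.e (nat_lit 57347) (nat_lit 0) .nil)))))))) (.g (nat_lit 0) .nil .nil)))) (.nd (nat_lit 5) 
(.lf (nat_lit 123030) (.g (nat_lit 2249) (.e (nat_lit 7261) (nat_lit 384) (.e (nat_lit 57377) (nat_lit 3) (.e (nat_lit 106240) (nat_lit 10) (.e (nat_lit 344133) (nat_lit 26) (.e (nat_lit 557096) (nat_lit 13) (.e (nat_lit 172064) (nat_lit 2) (.e (nat_lit 196661) (nat_lit 12) (.e (nat_lit 57353) (nat_lit 0) .nil)))))))) (.g (nat_lit 5) .nil .nil))) 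
(.lf (nat_lit 123062) (.g (nat_lit 3768) (.e (nat_lit 7261) (nat_lit 384) (.e (nat_lit 57404) (nat_lit 12) (.e (nat_lit 336028) (nat_lit 3) (.e (nat_lit 98373) (nat_lit 29) (.e (nat_lit 450588) (nat_lit 10) (.e (nat_lit 573475) (nat_lit 12) (.e (nat_lit 57351) (nat_lit 0) .nil))))))) (.g (nat_lit 0) .nil .nil))))) (.nd (nat_lit 4) (.nd (nat_lit 5) 
(.lf (nat_lit 123022) (.g (nat_lit 3375) (.e (nat_lit 7261) (nat_lit 384) (.e (nat_lit 57371) (nat_lit 2) (.e (nat_lit 90160) (nat_lit 11) (.e (nat_lit 24665) (nat_lit 14) (.e (nat_lit 409344) (nat_lit 27) (.e (nat_lit 336446) (nat_lit 33) (.e (nat_lit 475155) (nat_lit 21) .nil))))))) (.g (nat_lit 4) .nil .nil))) 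
(.lf (nat_lit 123054) (.g (nat_lit 4553) (.e (nat_lit 7261) (nat_lit 384) (.e (nat_lit 57404) (nat_lit 12) (.e (nat_lit 336028) (nat_lit 3) (.e (nat_lit 98359) (nat_lit 26) (.e (nat_lit 426286) (nat_lit 10) (.e (nat_lit 434248) (nat_lit 28) (.e (nat_lit 573475) (nat_lit 12) (.e (nat_lit 57347) (nat_lit 0) .nil)))))))) (.g (nat_lit 0) .nil .nil)))) (.nd (nat_lit 5) 
(.lf (nat_lit 123038) (.g (nat_lit 371) (.e (nat_lit 7261) (nat_lit 384) (.e (nat_lit 57400) (nat_lit 10) (.e (nat_lit 327424) (nat_lit 6) .nil))) .nil)) 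
(.lf (nat_lit 123070) (.g (nat_lit 3077) (.e (nat_lit 7261) (nat_lit 384) (.e (nat_lit 57406) (nat_lit 12) (.e (nat_lit 336142) (nat_lit 9) (.e (nat_lit 335995) (nat_lit 1) (.e (nat_lit 57681) (nat_lit 155) (.e (nat_lit 122919) (nat_lit 15) (.e (nat_lit 360451) (nat_lit 0) .nil))))))) (.g (nat_lit 5) .nil .nil)))))))) 
(.nd (nat_lit 1) (.nd (nat_lit 2) (.nd (nat_lit 3) (.nd (nat_lit 4) (.nd (nat_lit 5) 
(.lf (nat_lit 123009) (.g (nat_lit 2726) (.e (nat_lit 7261) (nat_lit 384) (.e (nat_lit 57371) (nat_lit 2) (.e (nat_lit 90128) (nat_lit 9) (.e (nat_lit 297) (nat_lit 22) (.e (nat_lit 344132) (nat_lit 26) (.e (nat_lit 557101) (nat_lit 13) (.e (nat_lit 172066) (nat_lit 3) (.e (nat_lit 204824) (nat_lit 17) (.e (nat_lit 1015) (nat_lit 81) .nil))))))))) (.g (nat_lit 5) .nil .nil))) 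
(.lf (nat_lit 123041) (.g (nat_lit 4006) (.e (nat_lit 7261) (nat_lit 384) (.e (nat_lit 57404) (nat_lit 12) (.e (nat_lit 336013) (nat_lit 2) (.e (nat_lit 90170) (nat_lit 13) (.e (nat_lit 172113) (nat_lit 10) (.e (nat_lit 434245) (nat_lit 28) (.e (nat_lit 573473) (nat_lit 12) (.e (nat_lit 57348) (nat_lit 0) .nil)))))))) (.g (nat_lit 0) .nil .nil)))) (.nd (nat_lit 5) 
(.lf (nat_lit 123025) (.g (nat_lit 577) (.e (nat_lit 7261) (nat_lit 384) (.e (nat_lit 57377) (nat_lit 3) (.e (nat_lit 98317) (nat_lit 9) .nil))) .nil)) 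
(.lf (nat_lit 123057) (.g (nat_lit 2432) (.e (nat_lit 7261) (nat_lit 384) (.e (nat_lit 57404) (nat_lit 12) (.e (nat_lit 336028) (nat_lit 3) (.e (nat_lit 98372) (nat_lit 29) (.e (nat_lit 450586) (nat_lit 10) (.e (nat_lit 573478) (nat_lit 12) (.e (nat_lit 57353) (nat_lit 0) .nil))))))) (.g (nat_lit 6) .nil .nil))))) (.nd (nat_lit 4) (.nd (nat_lit 5) 
(.lf (nat_lit 123017) (.g (nat_lit 1297) (.e (nat_lit 7261) (nat_lit 384) (.e (nat_lit 57371) (nat_lit 2) (.e (nat_lit 90128) (nat_lit 9) (.e (nat_lit 7936) (nat_lit 22) .nil)))) .nil)) 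
(.lf (nat_lit 123049) (.g (nat_lit 3629) (.e (nat_lit 7261) (nat_lit 384) (.e (nat_lit 57404) (nat_lit 12) (.e (nat_lit 336028) (nat_lit 3) (.e (nat_lit 98359) (nat_lit 26) (.e (nat_lit 426286) (nat_lit 10) (.e (nat_lit 434245) (nat_lit 28) (.e (nat_lit 573473) (nat_lit 12) (.e (nat_lit 57348) (nat_lit 0) .nil)))))))) (.g (nat_lit 0) .nil .nil)))) (.nd (nat_lit 5) 
(.lf (nat_lit 123033) (.g (nat_lit 265) (.e (nat_lit 7261) (nat_lit 384) (.e (nat_lit 57382) (nat_lit 4) (.e (nat_lit 106520) (nat_lit 9) .nil))) .nil)) 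
(.lf (nat_lit 123065) (.g (nat_lit 2786) (.e (nat_lit 7261) (nat_lit 384) (.e (nat_lit 57404) (nat_lit 12) (.e (nat_lit 336224) (nat_lit 13) (.e (nat_lit 393301) (nat_lit 27) (.e (nat_lit 491558) (nat_lit 10) (.e (nat_lit 344091) (nat_lit 18) .nil)))))) (.g (nat_lit 0) .nil .nil)))))) (.nd (nat_lit 3) (.nd (nat_lit 4) (.nd (nat_lit 5) 
(.lf (nat_lit 123013) (.g (nat_lit 1646) (.e (nat_lit 7261) (nat_lit 384) (.e (nat_lit 57371) (nat_lit 2) (.e (nat_lit 90128) (nat_lit 9) (.e (nat_lit 304) (nat_lit 22) .nil)))) .nil)) 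
(.lf (nat_lit 123045) (.g (nat_lit 4163) (.e (nat_lit 7261) (nat_lit 384) (.e (nat_lit 57404) (nat_lit 12) (.e (nat_lit 336013) (nat_lit 2) (.e (nat_lit 90170) (nat_lit 13) (.e (nat_lit 172113) (nat_lit 10) (.e (nat_lit 434248) (nat_lit 28) (.e (nat_lit 573473) (nat_lit 12) (.e (nat_lit 57348) (nat_lit 0) .nil)))))))) (.g (nat_lit 0) .nil .nil)))) (.nd (nat_lit 5) 
(.lf (nat_lit 123029) (.g (nat_lit 2583) (.e (nat_lit 7261) (nat_lit 384) (.e (nat_lit 57377) (nat_lit 3) (.e (nat_lit 106240) (nat_lit 10) (.e (nat_lit 344132) (nat_lit 26) (.e (nat_lit 557101) (nat_lit 13) (.e (nat_lit 172064) (nat_lit 2) (.e (nat_lit 196661) (nat_lit 12) (.e (nat_lit 57353) (nat_lit 0) .nil)))))))) (.g (nat_lit 6) .nil .nil))) 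
(.lf (nat_lit 123061) (.g (nat_lit 4566) (.e (nat_lit 7261) (nat_lit 384) (.e (nat_lit 57404) (nat_lit 12) (.e (nat_lit 336028) (nat_lit 3) (.e (nat_lit 98373) (nat_lit 29) (.e (nat_lit 450588) (nat_lit 10) (.e (nat_lit 573475) (nat_lit 12) (.e (nat_lit 57347) (nat_lit 0) .nil))))))) (.g (nat_lit 0) .nil .nil))))) (.nd (nat_lit 4) (.nd (nat_lit 5) 
(.lf (nat_lit 123021) (.g (nat_lit 2905) (.e (nat_lit 7261) (nat_lit 384) (.e (nat_lit 57371) (nat_lit 2) (.e (nat_lit 90160) (nat_lit 11) (.e (nat_lit 24665) (nat_lit 14) (.e (nat_lit 409344) (nat_lit 27) .nil))))) .nil)) 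
(.lf (nat_lit 123053) (.g (nat_lit 3754) (.e (nat_lit 7261) (nat_lit 384) (.e (nat_lit 57404) (nat_lit 12) (.e (nat_lit 336028) (nat_lit 3) (.e (nat_lit 98359) (nat_lit 26) (.e (nat_lit 426286) (nat_lit 10) (.e (nat_lit 434248) (nat_lit 28) (.e (nat_lit 573473) (nat_lit 12) (.e (nat_lit 57348) (nat_lit 0) .nil)))))))) (.g (nat_lit 0) .nil .nil)))) (.nd (nat_lit 5) 
(.lf (nat_lit 123037) (.g (nat_lit 1747) (.e (nat_lit 7261) (nat_lit 384) (.e (nat_lit 57400) (nat_lit 10) (.e (nat_lit 319490) (nat_lit 0) (.e (nat_lit 5629) (nat_lit 312) (.e (nat_lit 216) (nat_lit 19) .nil))))) .nil)) 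
(.lf (nat_lit 123069) (.g (nat_lit 700) (.e (nat_lit 7261) (nat_lit 384) (.e (nat_lit 57406) (nat_lit 12) (.e (nat_lit 336136) (nat_lit 9) .nil))) .nil)))))) (.nd (nat_lit 2) (.nd (nat_lit 3) (.nd (nat_lit 4) (.nd (nat_lit 5) 
(.lf (nat_lit 123011) (.g (nat_lit 4279) (.e (nat_lit 7261) (nat_lit 384) (.e (nat_lit 57371) (nat_lit 2) (.e (nat_lit 90128) (nat_lit 9) (.e (nat_lit 297) (nat_lit 22) (.e (nat_lit 344133) (nat_lit 26) (.e (nat_lit 557096) (nat_lit 13) (.e (nat_lit 172064) (nat_lit 2) (.e (nat_lit 196661) (nat_lit 12) (.e (nat_lit 57353) (nat_lit 0) .nil))))))))) (.g (nat_lit 7) .nil .nil))) 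
(.lf (nat_lit 123043) (.g (nat_lit 4097) (.e (nat_lit 7261) (nat_lit 384) (.e (nat_lit 57404) (nat_lit 12) (.e (nat_lit 336013) (nat_lit 2) (.e (nat_lit 90170) (nat_lit 13) (.e (nat_lit 172113) (nat_lit 10) (.e (nat_lit 434247) (nat_lit 28) (.e (nat_lit 573477) (nat_lit 12) (.e (nat_lit 57353) (nat_lit 0) .nil)))))))) (.g (nat_lit 0) .nil .nil)))) (.nd (nat_lit 5) 
(.lf (nat_lit 123027) (.g (nat_lit 2812) (.e (nat_lit 7261) (nat_lit 384) (.e (nat_lit 57377) (nat_lit 3) (.e (nat_lit 106240) (nat_lit 10) (.e (nat_lit 344132) (nat_lit 26) (.e (nat_lit 557100) (nat_lit 13) (.e (nat_lit 172064) (nat_lit 2) (.e (nat_lit 196661) (nat_lit 12) (.e (nat_lit 57353) (nat_lit 0) .nil)))))))) (.g (nat_lit 6) .nil .nil))) 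
(.lf (nat_lit 123059) (.g (nat_lit 2906) (.e (nat_lit 7261) (nat_lit 384) (.e (nat_lit 57404) (nat_lit 12) (.e (nat_lit 336028) (nat_lit 3) (.e (nat_lit 98373) (nat_lit 29) (.e (nat_lit 450587) (nat_lit 10) (.e (nat_lit 573478) (nat_lit 12) (.e (nat_lit 57353) (nat_lit 0) .nil))))))) (.g (nat_lit 6) .nil .nil))))) (.nd (nat_lit 4) (.nd (nat_lit 5) 
(.lf (nat_lit 123019) (.g (nat_lit 1877) (.e (nat_lit 7261) (nat_lit 384) (.e (nat_lit 57371) (nat_lit 2) (.e (nat_lit 90160) (nat_lit 11) (.e (nat_lit 24665) (nat_lit 14) .nil)))) .nil)) 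
(.lf (nat_lit 123051) (.g (nat_lit 3467) (.e (nat_lit 7261) (nat_lit 384) (.e (nat_lit 57404) (nat_lit 12) (.e (nat_lit 336028) (nat_lit 3) (.e (nat_lit 98359) (nat_lit 26) (.e (nat_lit 426286) (nat_lit 10) (.e (nat_lit 434247) (nat_lit 28) (.e (nat_lit 573477) (nat_lit 12) (.e (nat_lit 57353) (nat_lit 0) .nil)))))))) (.g (nat_lit 0) .nil .nil)))) (.nd (nat_lit 5) 
(.lf (nat_lit 123035) (.g (nat_lit 1698) (.e (nat_lit 7261) (nat_lit 384) (.e (nat_lit 57389) (nat_lit 5) (.e (nat_lit 114723) (nat_lit 24) (.e (nat_lit 106523) (nat_lit 9) (.e (nat_lit 1234) (nat_lit 91) (.e (nat_lit 90165) (nat_lit 12) (.e (nat_lit 171776) (nat_lit 192) (.e (nat_lit 73730) (nat_lit 0) .nil)))))))) (.g (nat_lit 5) .nil .nil))) 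
(.lf (nat_lit 123067) (.g (nat_lit 712) (.e (nat_lit 7261) (nat_lit 384) (.e (nat_lit 57406) (nat_lit 12) (.e (nat_lit 336120) (nat_lit 9) .nil))) .nil))))) (.nd (nat_lit 3) (.nd (nat_lit 4) (.nd (nat_lit 5) 
(.lf (nat_lit 123015) (.g (nat_lit 3200) (.e (nat_lit 7261) (nat_lit 384) (.e (nat_lit 57371) (nat_lit 2) (.e (nat_lit 90128) (nat_lit 9) (.e (nat_lit 304) (nat_lit 22) (.e (nat_lit 344130) (nat_lit 26) (.e (nat_lit 557097) (nat_lit 13) (.e (nat_lit 172064) (nat_lit 2) (.e (nat_lit 196661) (nat_lit 12) (.e (nat_lit 57353) (nat_lit 0) .nil))))))))) (.g (nat_lit 6) .nil .nil))) 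
(.lf (nat_lit 123047) (.g (nat_lit 4374) (.e (nat_lit 7261) (nat_lit 384) (.e (nat_lit 57404) (nat_lit 12) (.e (nat_lit 336013) (nat_lit 2) (.e (nat_lit 90170) (nat_lit 13) (.e (nat_lit 172113) (nat_lit 10) (.e (nat_lit 434248) (nat_lit 28) (.e (nat_lit 573475) (nat_lit 12) (.e (nat_lit 57348) (nat_lit 0) .nil)))))))) (.g (nat_lit 8) .nil .nil)))) (.nd (nat_lit 5) 
(.lf (nat_lit 123031) (.g (nat_lit 2480) (.e (nat_lit 7261) (nat_lit 384) (.e (nat_lit 57377) (nat_lit 3) (.e (nat_lit 106240) (nat_lit 10) (.e (nat_lit 344133) (nat_lit 26) (.e (nat_lit 557098) (nat_lit 13) (.e (nat_lit 172062) (nat_lit 2) (.e (nat_lit 196661) (nat_lit 12) (.e (nat_lit 57353) (nat_lit 0) .nil)))))))) (.g (nat_lit 5) .nil .nil))) 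
(.lf (nat_lit 123063) (.g (nat_lit 1912) (.e (nat_lit 7261) (nat_lit 384) (.e (nat_lit 57404) (nat_lit 12) (.e (nat_lit 336224) (nat_lit 13) (.e (nat_lit 393234) (nat_lit 17) (.e (nat_lit 7591) (nat_lit 407) (.e (nat_lit 73731) (nat_lit 0) .nil)))))) (.g (nat_lit 0) .nil .nil))))) (.nd (nat_lit 4) (.nd (nat_lit 5) 
(.lf (nat_lit 123023) (.g (nat_lit 3635) (.e (nat_lit 7261) (nat_lit 384) (.e (nat_lit 57371) (nat_lit 2) (.e (nat_lit 90160) (nat_lit 11) (.e (nat_lit 24665) (nat_lit 14) (.e (nat_lit 409344) (nat_lit 27) (.e (nat_lit 336446) (nat_lit 33) (.e (nat_lit 475157) (nat_lit 21) .nil))))))) (.g (nat_lit 6) .nil .nil))) 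
(.lf (nat_lit 123055) (.g (nat_lit 3143) (.e (nat_lit 7261) (nat_lit 384) (.e (nat_lit 57404) (nat_lit 12) (.e (nat_lit 336028) (nat_lit 3) (.e (nat_lit 98372) (nat_lit 29) (.e (nat_lit 450586) (nat_lit 10) (.e (nat_lit 573473) (nat_lit 12) (.e (nat_lit 57348) (nat_lit 0) .nil))))))) (.g (nat_lit 0) .nil .nil)))) (.nd (nat_lit 5) 
(.lf (nat_lit 123039) (.g (nat_lit 2645) (.e (nat_lit 7261) (nat_lit 384) (.e (nat_lit 57403) (nat_lit 11) (.e (nat_lit 327697) (nat_lit 7) (.e (nat_lit 294925) (nat_lit 1) (.e (nat_lit 57681) (nat_lit 155) (.e (nat_lit 122919) (nat_lit 15) (.e (nat_lit 360451) (nat_lit 0) .nil))))))) (.g (nat_lit 0) .nil .nil))) 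
(.lf (nat_lit 123071) (.g (nat_lit 672) (.e (nat_lit 7261) (nat_lit 384) (.e (nat_lit 57406) (nat_lit 12) (.e (nat_lit 336210) (nat_lit 13) .nil))) .nil))))))))

noncomputable def tv1641 : DT := (.nd (nat_lit 0) (.nd (nat_lit 1) (.nd (nat_lit 2) (.nd (nat_lit 3) (.nd (nat_lit 4) (.nd (nat_lit 5) 
(.lf (nat_lit 123072) (.g (nat_lit 977) (.e (nat_lit 7261) (nat_lit 384) (.e (nat_lit 57406) (nat_lit 12) (.e (nat_lit 336210) (nat_lit 13) (.e (nat_lit 393233) (nat_lit 17) .nil)))) .nil)) 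
(.lf (nat_lit 123104) (.g (nat_lit 3865) (.e (nat_lit 7261) (nat_lit 384) (.e (nat_lit 57406) (nat_lit 12) (.e (nat_lit 336211) (nat_lit 13) (.e (nat_lit 393301) (nat_lit 27) (.e (nat_lit 491560) (nat_lit 10) (.e (nat_lit 344090) (nat_lit 18) .nil)))))) (.g (nat_lit 5) .nil .nil)))) (.nd (nat_lit 5) 
(.lf (nat_lit 123088) (.g (nat_lit 2247) (.e (nat_lit 7261) (nat_lit 384) (.e (nat_lit 57406) (nat_lit 12) (.e (nat_lit 336211) (nat_lit 13) (.e (nat_lit 393234) (nat_lit 17) (.e (nat_lit 7593) (nat_lit 407) (.e (nat_lit 73730) (nat_lit 0) .nil)))))) (.g (nat_lit 4) .nil .nil))) 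
(.lf (nat_lit 123120) (.g (nat_lit 2490) (.e (nat_lit 7261) (nat_lit 384) (.e (nat_lit 57407) (nat_lit 12) (.e (nat_lit 336210) (nat_lit 13) (.e (nat_lit 393299) (nat_lit 27) (.e (nat_lit 491560) (nat_lit 10) .nil))))) .nil)))) (.nd (nat_lit 4) (.nd (nat_lit 5) 
(.lf (nat_lit 123080) (.g (nat_lit 2715) (.e (nat_lit 7261) (nat_lit 384) (.e (nat_lit 57406) (nat_lit 12) (.e (nat_lit 336211) (nat_lit 13) (.e (nat_lit 393232) (nat_lit 17) (.e (nat_lit 7591) (nat_lit 407) (.e (nat_lit 73729) (nat_lit 0) .nil)))))) (.g (nat_lit 5) .nil .nil))) 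
(.lf (nat_lit 123112) (.g (nat_lit 2821) (.e (nat_lit 7261) (nat_lit 384) (.e (nat_lit 57407) (nat_lit 12) (.e (nat_lit 336019) (nat_lit 3) (.e (nat_lit 98359) (nat_lit 26) (.e (nat_lit 426286) (nat_lit 10) .nil))))) .nil))) (.nd (nat_lit 5) 
(.lf (nat_lit 123096) (.g (nat_lit 2587) (.e (nat_lit 7261) (nat_lit 384) (.e (nat_lit 57406) (nat_lit 12) (.e (nat_lit 336211) (nat_lit 13) (.e (nat_lit 393300) (nat_lit 27) (.e (nat_lit 491558) (nat_lit 10) (.e (nat_lit 344095) (nat_lit 18) .nil)))))) (.g (nat_lit 5) .nil .nil))) 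
(.lf (nat_lit 123128) (.g (nat_lit 2957) (.e (nat_lit 7261) (nat_lit 384) (.e (nat_lit 57407) (nat_lit 12) (.e (nat_lit 336211) (nat_lit 13) (.e (nat_lit 393232) (nat_lit 17) (.e (nat_lit 7591) (nat_lit 407) (.e (nat_lit 73731) (nat_lit 0) .nil)))))) (.g (nat_lit 6) .nil .nil)))))) (.nd (nat_lit 3) (.nd (nat_lit 4) (.nd (nat_lit 5) 
(.lf (nat_lit 123076) (.g (nat_lit 1692) (.e (nat_lit 7261) (nat_lit 384) (.e (nat_lit 57406) (nat_lit 12) (.e (nat_lit 336210) (nat_lit 13) (.e (nat_lit 393300) (nat_lit 27) (.e (nat_lit 491558) (nat_lit 10) .nil))))) .nil)) 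
(.lf (nat_lit 123108) (.g (nat_lit 1869) (.e (nat_lit 7261) (nat_lit 384) (.e (nat_lit 57406) (nat_lit 12) (.e (nat_lit 336324) (nat_lit 18) (.e (nat_lit 204849) (nat_lit 25) .nil)))) .nil))) (.nd (nat_lit 5) 
(.lf (nat_lit 123092) (.g (nat_lit 2238) (.e (nat_lit 7261) (nat_lit 384) (.e (nat_lit 57406) (nat_lit 12) (.e (nat_lit 336211) (nat_lit 13) (.e (nat_lit 393299) (nat_lit 27) (.e (nat_lit 491560) (nat_lit 10) (.e (nat_lit 344091) (nat_lit 18) .nil)))))) (.g (nat_lit 4) .nil .nil))) 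
(.lf (nat_lit 123124) (.g (nat_lit 1908) (.e (nat_lit 7261) (nat_lit 384) (.e (nat_lit 57407) (nat_lit 12) (.e (nat_lit 336211) (nat_lit 13) (.e (nat_lit 393231) (nat_lit 17) (.e (nat_lit 7591) (nat_lit 407) (.e (nat_lit 73729) (nat_lit 0) .nil)))))) (.g (nat_lit 4) .nil .nil))))) (.nd (nat_lit 4) (.nd (nat_lit 5) 
(.lf (nat_lit 123084) (.g (nat_lit 2264) (.e (nat_lit 7261) (nat_lit 384) (.e (nat_lit 57406) (nat_lit 12) (.e (nat_lit 336211) (nat_lit 13) (.e (nat_lit 393233) (nat_lit 17) (.e (nat_lit 7591) (nat_lit 407) (.e (nat_lit 73730) (nat_lit 0) .nil)))))) (.g (nat_lit 5) .nil .nil))) 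
(.lf (nat_lit 123116) (.g (nat_lit 1025) (.e (nat_lit 7261) (nat_lit 384) (.e (nat_lit 57407) (nat_lit 12) (.e (nat_lit 336115) (nat_lit 9) .nil))) .nil))) (.nd (nat_lit 5) 
(.lf (nat_lit 123100) (.g (nat_lit 2710) (.e (nat_lit 7261) (nat_lit 384) (.e (nat_lit 57406) (nat_lit 12) (.e (nat_lit 336211) (nat_lit 13) (.e (nat_lit 393300) (nat_lit 27) (.e (nat_lit 491560) (nat_lit 10) (.e (nat_lit 344096) (nat_lit 18) .nil)))))) (.g (nat_lit 5) .nil .nil))) 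
(.lf (nat_lit 123132) (.g (nat_lit 2845) (.e (nat_lit 7261) (nat_lit 384) (.e (nat_lit 57407) (nat_lit 12) (.e (nat_lit 336211) (nat_lit 13) (.e (nat_lit 393233) (nat_lit 17) (.e (nat_lit 7593) (nat_lit 407) (.e (nat_lit 73730) (nat_lit 0) .nil)))))) (.g (nat_lit 6) .nil .nil))))))) (.nd (nat_lit 2) (.nd (nat_lit 3) (.nd (nat_lit 4) (.nd (nat_lit 5) 
(.lf (nat_lit 123074) (.g (nat_lit 2080) (.e (nat_lit 7261) (nat_lit 384) (.e (nat_lit 57406) (nat_lit 12) (.e (nat_lit 336210) (nat_lit 13) (.e (nat_lit 393299) (nat_lit 27) (.e (nat_lit 491560) (nat_lit 10) .nil))))) .nil)) 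
(.lf (nat_lit 123106) (.g (nat_lit 896) (.e (nat_lit 7261) (nat_lit 384) (.e (nat_lit 57406) (nat_lit 12) (.e (nat_lit 343808) (nat_lit 13) (.e (nat_lit 393300) (nat_lit 27) (.e (nat_lit 491560) (nat_lit 10) .nil))))) .nil))) (.nd (nat_lit 5) 
(.lf (nat_lit 123090) (.g (nat_lit 2882) (.e (nat_lit 7261) (nat_lit 384) (.e (nat_lit 57406) (nat_lit 12) (.e (nat_lit 336211) (nat_lit 13) (.e (nat_lit 393299) (nat_lit 27) (.e (nat_lit 491558) (nat_lit 10) (.e (nat_lit 344091) (nat_lit 18) .nil)))))) (.g (nat_lit 5) .nil .nil))) 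
(.lf (nat_lit 123122) (.g (nat_lit 2808) (.e (nat_lit 7261) (nat_lit 384) (.e (nat_lit 57407) (nat_lit 12) (.e (nat_lit 336210) (nat_lit 13) (.e (nat_lit 393301) (nat_lit 27) (.e (nat_lit 491560) (nat_lit 10) (.e (nat_lit 344094) (nat_lit 18) .nil)))))) (.g (nat_lit 4) .nil .nil))))) (.nd (nat_lit 4) (.nd (nat_lit 5) 
(.lf (nat_lit 123082) (.g (nat_lit 2026) (.e (nat_lit 7261) (nat_lit 384) (.e (nat_lit 57406) (nat_lit 12) (.e (nat_lit 336211) (nat_lit 13) (.e (nat_lit 393232) (nat_lit 17) (.e (nat_lit 7593) (nat_lit 407) (.e (nat_lit 73731) (nat_lit 0) .nil)))))) (.g (nat_lit 4) .nil .nil))) 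
(.lf (nat_lit 123114) (.g (nat_lit 3045) (.e (nat_lit 7261) (nat_lit 384) (.e (nat_lit 57407) (nat_lit 12) (.e (nat_lit 336019) (nat_lit 3) (.e (nat_lit 98359) (nat_lit 26) (.e (nat_lit 426286) (nat_lit 10) (.e (nat_lit 434245) (nat_lit 28) (.e (nat_lit 573474) (nat_lit 12) (.e (nat_lit 57348) (nat_lit 0) .nil)))))))) (.g (nat_lit 4) .nil .nil)))) (.nd (nat_lit 5) 
(.lf (nat_lit 123098) (.g (nat_lit 2786) (.e (nat_lit 7261) (nat_lit 384) (.e (nat_lit 57406) (nat_lit 12) (.e (nat_lit 336211) (nat_lit 13) (.e (nat_lit 393300) (nat_lit 27) (.e (nat_lit 491560) (nat_lit 10) (.e (nat_lit 344090) (nat_lit 18) .nil)))))) (.g (nat_lit 5) .nil .nil))) 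
(.lf (nat_lit 123130) (.g (nat_lit 2550) (.e (nat_lit 7261) (nat_lit 384) (.e (nat_lit 57407) (nat_lit 12) (.e (nat_lit 336211) (nat_lit 13) (.e (nat_lit 393232) (nat_lit 17) (.e (nat_lit 7593) (nat_lit 407) (.e (nat_lit 73731) (nat_lit 0) .nil)))))) (.g (nat_lit 5) .nil .nil)))))) (.nd (nat_lit 3) (.nd (nat_lit 4) (.nd (nat_lit 5) 
(.lf (nat_lit 123078) (.g (nat_lit 1528) (.e (nat_lit 7261) (nat_lit 384) (.e (nat_lit 57406) (nat_lit 12) (.e (nat_lit 336211) (nat_lit 13) (.e (nat_lit 393231) (nat_lit 17) (.e (nat_lit 7593) (nat_lit 407) .nil))))) .nil)) 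
(.lf (nat_lit 123110) (.g (nat_lit 3723) (.e (nat_lit 7261) (nat_lit 384) (.e (nat_lit 57406) (nat_lit 12) (.e (nat_lit 336454) (nat_lit 34) (.e (nat_lit 483376) (nat_lit 22) .nil)))) .nil))) (.nd (nat_lit 5) 
(.lf (nat_lit 123094) (.g (nat_lit 2429) (.e (nat_lit 7261) (nat_lit 384) (.e (nat_lit 57406) (nat_lit 12) (.e (nat_lit 336211) (nat_lit 13) (.e (nat_lit 393300) (nat_lit 27) (.e (nat_lit 491558) (nat_lit 10) (.e (nat_lit 344090) (nat_lit 18) .nil)))))) (.g (nat_lit 5) .nil .nil))) 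
(.lf (nat_lit 123126) (.g (nat_lit 3231) (.e (nat_lit 7261) (nat_lit 384) (.e (nat_lit 57407) (nat_lit 12) (.e (nat_lit 336211) (nat_lit 13) (.e (nat_lit 393232) (nat_lit 17) (.e (nat_lit 7591) (nat_lit 407) (.e (nat_lit 73729) (nat_lit 0) .nil)))))) (.g (nat_lit 6) .nil .nil))))) (.nd (nat_lit 4) (.nd (nat_lit 5) 
(.lf (nat_lit 123086) (.g (nat_lit 1790) (.e (nat_lit 7261) (nat_lit 384) (.e (nat_lit 57406) (nat_lit 12) (.e (nat_lit 336211) (nat_lit 13) (.e (nat_lit 393233) (nat_lit 17) (.e (nat_lit 7593) (nat_lit 407) (.e (nat_lit 73731) (nat_lit 0) .nil)))))) (.g (nat_lit 4) .nil .nil))) 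
(.lf (nat_lit 123118) (.g (nat_lit 1149) (.e (nat_lit 7261) (nat_lit 384) (.e (nat_lit 57407) (nat_lit 12) (.e (nat_lit 336182) (nat_lit 11) (.e (nat_lit 376576) (nat_lit 44) .nil)))) .nil))) (.nd (nat_lit 5) 
(.lf (nat_lit 123102) (.g (nat_lit 3384) (.e (nat_lit 7261) (nat_lit 384) (.e (nat_lit 57406) (nat_lit 12) (.e (nat_lit 336211) (nat_lit 13) (.e (nat_lit 393301) (nat_lit 27) (.e (nat_lit 491558) (nat_lit 10) (.e (nat_lit 344095) (nat_lit 18) .nil)))))) (.g (nat_lit 5) .nil .nil))) 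
(.lf (nat_lit 123134) (.g (nat_lit 2855) (.e (nat_lit 7261) (nat_lit 384) (.e (nat_lit 57407) (nat_lit 12) (.e (nat_lit 336211) (nat_lit 13) (.e (nat_lit 393234) (nat_lit 17) (.e (nat_lit 7591) (nat_lit 407) (.e (nat_lit 73730) (nat_lit 0) .nil)))))) (.g (nat_lit 5) .nil .nil)))))))) (.nd (nat_lit 1) (.nd (nat_lit 2) (.nd (nat_lit 3) (.nd (nat_lit 4) (.nd (nat_lit 5) 
(.lf (nat_lit 123073) (.g (nat_lit 1735) (.e (nat_lit 7261) (nat_lit 384) (.e (nat_lit 57406) (nat_lit 12) (.e (nat_lit 336210) (nat_lit 13) (.e (nat_lit 393234) (nat_lit 17) (.e (nat_lit 7593) (nat_lit 407) .nil))))) .nil)) 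
(.lf (nat_lit 123105) (.g (nat_lit 3326) (.e (nat_lit 7261) (nat_lit 384) (.e (nat_lit 57406) (nat_lit 12) (.e (nat_lit 336211) (nat_lit 13) (.e (nat_lit 393301) (nat_lit 27) (.e (nat_lit 491560) (nat_lit 10) (.e (nat_lit 344094) (nat_lit 18) .nil)))))) (.g (nat_lit 5) .nil .nil)))) (.nd (nat_lit 5) 
(.lf (nat_lit 123089) (.g (nat_lit 2544) (.e (nat_lit 7261) (nat_lit 384) (.e (nat_lit 57406) (nat_lit 12) (.e (nat_lit 336211) (nat_lit 13) (.e (nat_lit 393299) (nat_lit 27) (.e (nat_lit 491558) (nat_lit 10) (.e (nat_lit 344090) (nat_lit 18) .nil)))))) (.g (nat_lit 4) .nil .nil))) 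
(.lf (nat_lit 123121) (.g (nat_lit 1376) (.e (nat_lit 7261) (nat_lit 384) (.e (nat_lit 57407) (nat_lit 12) (.e (nat_lit 336210) (nat_lit 13) (.e (nat_lit 393300) (nat_lit 27) .nil)))) .nil)))) (.nd (nat_lit 4) (.nd (nat_lit 5) 
(.lf (nat_lit 123081) (.g (nat_lit 2453) (.e (nat_lit 7261) (nat_lit 384) (.e (nat_lit 57406) (nat_lit 12) (.e (nat_lit 336211) (nat_lit 13) (.e (nat_lit 393232) (nat_lit 17) (.e (nat_lit 7591) (nat_lit 407) (.e (nat_lit 73731) (nat_lit 0) .nil)))))) (.g (nat_lit 5) .nil .nil))) 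
(.lf (nat_lit 123113) (.g (nat_lit 3333) (.e (nat_lit 7261) (nat_lit 384) (.e (nat_lit 57407) (nat_lit 12) (.e (nat_lit 336019) (nat_lit 3) (.e (nat_lit 98359) (nat_lit 26) (.e (nat_lit 426286) (nat_lit 10) (.e (nat_lit 434245) (nat_lit 28) (.e (nat_lit 573474) (nat_lit 12) (.e (nat_lit 57347) (nat_lit 0) .nil)))))))) (.g (nat_lit 4) .nil .nil)))) (.nd (nat_lit 5) 
(.lf (nat_lit 123097) (.g (nat_lit 2873) (.e (nat_lit 7261) (nat_lit 384) (.e (nat_lit 57406) (nat_lit 12) (.e (nat_lit 336211) (nat_lit 13) (.e (nat_lit 393300) (nat_lit 27) (.e (nat_lit 491558) (nat_lit 10) (.e (nat_lit 344096) (nat_lit 18) .nil)))))) (.g (nat_lit 5) .nil .nil))) 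
(.lf (nat_lit 123129) (.g (nat_lit 2888) (.e (nat_lit 7261) (nat_lit 384) (.e (nat_lit 57407) (nat_lit 12) (.e (nat_lit 336211) (nat_lit 13) (.e (nat_lit 393232) (nat_lit 17) (.e (nat_lit 7593) (nat_lit 407) (.e (nat_lit 73730) (nat_lit 0) .nil)))))) (.g (nat_lit 5) .nil .nil)))))) (.nd (nat_lit 3) (.nd (nat_lit 4) (.nd (nat_lit 5) 
(.lf (nat_lit 123077) (.g (nat_lit 1324) (.e (nat_lit 7261) (nat_lit 384) (.e (nat_lit 57406) (nat_lit 12) (.e (nat_lit 336211) (nat_lit 13) (.e (nat_lit 393231) (nat_lit 17) .nil)))) .nil)) 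
(.lf (nat_lit 123109) (.g (nat_lit 589) (.e (nat_lit 7261) (nat_lit 384) (.e (nat_lit 57406) (nat_lit 12) (.e (nat_lit 336326) (nat_lit 18) .nil))) .nil))) (.nd (nat_lit 5) 
(.lf (nat_lit 123093) (.g (nat_lit 2258) (.e (nat_lit 7261) (nat_lit 384) (.e (nat_lit 57406) (nat_lit 12) (.e (nat_lit 336211) (nat_lit 13) (.e (nat_lit 393299) (nat_lit 27) (.e (nat_lit 491560) (nat_lit 10) (.e (nat_lit 344096) (nat_lit 18) .nil)))))) (.g (nat_lit 4) .nil .nil))) 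
(.lf (nat_lit 123125) (.g (nat_lit 1760) (.e (nat_lit 7261) (nat_lit 384) (.e (nat_lit 57407) (nat_lit 12) (.e (nat_lit 336211) (nat_lit 13) (.e (nat_lit 393231) (nat_lit 17) (.e (nat_lit 7591) (nat_lit 407) (.e (nat_lit 73731) (nat_lit 0) .nil)))))) (.g (nat_lit 4) .nil .nil))))) (.nd (nat_lit 4) (.nd (nat_lit 5) 
(.lf (nat_lit 123085) (.g (nat_lit 2304) (.e (nat_lit 7261) (nat_lit 384) (.e (nat_lit 57406) (nat_lit 12) (.e (nat_lit 336211) (nat_lit 13) (.e (nat_lit 393233) (nat_lit 17) (.e (nat_lit 7591) (nat_lit 407) (.e (nat_lit 73731) (nat_lit 0) .nil)))))) (.g (nat_lit 5) .nil .nil))) 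
(.lf (nat_lit 123117) (.g (nat_lit 1022) (.e (nat_lit 7261) (nat_lit 384) (.e (nat_lit 57407) (nat_lit 12) (.e (nat_lit 336182) (nat_lit 11) .nil))) .nil))) (.nd (nat_lit 5) 
(.lf (nat_lit 123101) (.g (nat_lit 3508) (.e (nat_lit 7261) (nat_lit 384) (.e (nat_lit 57406) (nat_lit 12) (.e (nat_lit 336211) (nat_lit 13) (.e (nat_lit 393301) (nat_lit 27) (.e (nat_lit 491558) (nat_lit 10) (.e (nat_lit 344091) (nat_lit 18) .nil)))))) (.g (nat_lit 5) .nil .nil))) 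
(.lf (nat_lit 123133) (.g (nat_lit 2365) (.e (nat_lit 7261) (nat_lit 384) (.e (nat_lit 57407) (nat_lit 12) (.e (nat_lit 336211) (nat_lit 13) (.e (nat_lit 393233) (nat_lit 17) (.e (nat_lit 7593) (nat_lit 407) (.e (nat_lit 73731) (nat_lit 0) .nil)))))) (.g (nat_lit 5) .nil .nil))))))) (.nd (nat_lit 2) (.nd (nat_lit 3) (.nd (nat_lit 4) (.nd (nat_lit 5) 
(.lf (nat_lit 123075) (.g (nat_lit 985) (.e (nat_lit 7261) (nat_lit 384) (.e (nat_lit 57406) (nat_lit 12) (.e (nat_lit 336210) (nat_lit 13) (.e (nat_lit 393300) (nat_lit 27) .nil)))) .nil)) 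
(.lf (nat_lit 123107) (.g (nat_lit 2803) (.e (nat_lit 7261) (nat_lit 384) (.e (nat_lit 57406) (nat_lit 12) (.e (nat_lit 343808) (nat_lit 13) (.e (nat_lit 393301) (nat_lit 27) (.e (nat_lit 491559) (nat_lit 10) (.e (nat_lit 344095) (nat_lit 18) .nil)))))) (.g (nat_lit 5) .nil .nil)))) (.nd (nat_lit 5) 
(.lf (nat_lit 123091) (.g (nat_lit 2978) (.e (nat_lit 7261) (nat_lit 384) (.e (nat_lit 57406) (nat_lit 12) (.e (nat_lit 336211) (nat_lit 13) (.e (nat_lit 393299) (nat_lit 27) (.e (nat_lit 491558) (nat_lit 10) (.e (nat_lit 344096) (nat_lit 18) .nil)))))) (.g (nat_lit 5) .nil .nil))) 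
(.lf (nat_lit 123123) (.g (nat_lit 1357) (.e (nat_lit 7261) (nat_lit 384) (.e (nat_lit 57407) (nat_lit 12) (.e (nat_lit 336211) (nat_lit 13) (.e (nat_lit 393231) (nat_lit 17) .nil)))) .nil)))) (.nd (nat_lit 4) (.nd (nat_lit 5) 
(.lf (nat_lit 123083) (.g (nat_lit 2581) (.e (nat_lit 7261) (nat_lit 384) (.e (nat_lit 57406) (nat_lit 12) (.e (nat_lit 336211) (nat_lit 13) (.e (nat_lit 393233) (nat_lit 17) (.e (nat_lit 7591) (nat_lit 407) (.e (nat_lit 73729) (nat_lit 0) .nil)))))) (.g (nat_lit 5) .nil .nil))) 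
(.lf (nat_lit 123115) (.g (nat_lit 3384) (.e (nat_lit 7261) (nat_lit 384) (.e (nat_lit 57407) (nat_lit 12) (.e (nat_lit 336019) (nat_lit 3) (.e (nat_lit 98359) (nat_lit 26) (.e (nat_lit 426286) (nat_lit 10) (.e (nat_lit 434248) (nat_lit 28) (.e (nat_lit 573475) (nat_lit 12) (.e (nat_lit 57347) (nat_lit 0) .nil)))))))) (.g (nat_lit 4) .nil .nil)))) (.nd (nat_lit 5) 
(.lf (nat_lit 123099) (.g (nat_lit 2471) (.e (nat_lit 7261) (nat_lit 384) (.e (nat_lit 57406) (nat_lit 12) (.e (nat_lit 336211) (nat_lit 13) (.e (nat_lit 393300) (nat_lit 27) (.e (nat_lit 491560) (nat_lit 10) (.e (nat_lit 344091) (nat_lit 18) .nil)))))) (.g (nat_lit 5) .nil .nil))) 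
(.lf (nat_lit 123131) (.g (nat_lit 2861) (.e (nat_lit 7261) (nat_lit 384) (.e (nat_lit 57407) (nat_lit 12) (.e (nat_lit 336211) (nat_lit 13) (.e (nat_lit 393233) (nat_lit 17) (.e (nat_lit 7591) (nat_lit 407) (.e (nat_lit 73731) (nat_lit 0) .nil)))))) (.g (nat_lit 0) .nil .nil)))))) (.nd (nat_lit 3) (.nd (nat_lit 4) (.nd (nat_lit 5) 
(.lf (nat_lit 123079) (.g (nat_lit 1867) (.e (nat_lit 7261) (nat_lit 384) (.e (nat_lit 57406) (nat_lit 12) (.e (nat_lit 336211) (nat_lit 13) (.e (nat_lit 393231) (nat_lit 17) (.e (nat_lit 7593) (nat_lit 407) (.e (nat_lit 73729) (nat_lit 0) .nil)))))) (.g (nat_lit 4) .nil .nil))) 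
(.lf (nat_lit 123111) (.g (nat_lit 831) (.e (nat_lit 7261) (nat_lit 384) (.e (nat_lit 57407) (nat_lit 12) (.e (nat_lit 336019) (nat_lit 3) .nil))) .nil))) (.nd (nat_lit 5) 
(.lf (nat_lit 123095) (.g (nat_lit 2814) (.e (nat_lit 7261) (nat_lit 384) (.e (nat_lit 57406) (nat_lit 12) (.e (nat_lit 336211) (nat_lit 13) (.e (nat_lit 393300) (nat_lit 27) (.e (nat_lit 491558) (nat_lit 10) (.e (nat_lit 344091) (nat_lit 18) .nil)))))) (.g (nat_lit 5) .nil .nil))) 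
(.lf (nat_lit 123127) (.g (nat_lit 2880) (.e (nat_lit 7261) (nat_lit 384) (.e (nat_lit 57407) (nat_lit 12) (.e (nat_lit 336211) (nat_lit 13) (.e (nat_lit 393232) (nat_lit 17) (.e (nat_lit 7591) (nat_lit 407) (.e (nat_lit 73730) (nat_lit 0) .nil)))))) (.g (nat_lit 6) .nil .nil))))) (.nd (nat_lit 4) (.nd (nat_lit 5) 
(.lf (nat_lit 123087) (.g (nat_lit 2877) (.e (nat_lit 7261) (nat_lit 384) (.e (nat_lit 57406) (nat_lit 12) (.e (nat_lit 336211) (nat_lit 13) (.e (nat_lit 393234) (nat_lit 17) (.e (nat_lit 7593) (nat_lit 407) (.e (nat_lit 73729) (nat_lit 0) .nil)))))) (.g (nat_lit 5) .nil .nil))) 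
(.lf (nat_lit 123119) (.g (nat_lit 1022) (.e (nat_lit 7261) (nat_lit 384) (.e (nat_lit 57407) (nat_lit 12) (.e (nat_lit 336210) (nat_lit 13) .nil))) .nil))) (.nd (nat_lit 5) 
(.lf (nat_lit 123103) (.g (nat_lit 3625) (.e (nat_lit 7261) (nat_lit 384) (.e (nat_lit 57406) (nat_lit 12) (.e (nat_lit 336211) (nat_lit 13) (.e (nat_lit 393301) (nat_lit 27) (.e (nat_lit 491558) (nat_lit 10) (.e (nat_lit 344096) (nat_lit 18) .nil)))))) (.g (nat_lit 5) .nil .nil))) 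
(.lf (nat_lit 123135) (.g (nat_lit 2948) (.e (nat_lit 7261) (nat_lit 384) (.e (nat_lit 57407) (nat_lit 12) (.e (nat_lit 336211) (nat_lit 13) (.e (nat_lit 393234) (nat_lit 17) (.e (nat_lit 7591) (nat_lit 407) (.e (nat_lit 73731) (nat_lit 0) .nil)))))) (.g (nat_lit 5) .nil .nil)))))))))

noncomputable def tv1642 : DT := (.nd (nat_lit 0) (.nd (nat_lit 1) (.nd (nat_lit 2) (.nd (nat_lit 3) (.nd (nat_lit 4) (.nd (nat_lit 5) 
(.lf (nat_lit 123136) (.g (nat_lit 3338) (.e (nat_lit 7261) (nat_lit 384) (.e (nat_lit 57407) (nat_lit 12) (.e (nat_lit 336211) (nat_lit 13) (.e (nat_lit 393234) (nat_lit 17) (.e (nat_lit 7593) (nat_lit 407) (.e (nat_lit 73729) (nat_lit 0) .nil)))))) (.g (nat_lit 6) .nil .nil))) 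
(.lf (nat_lit 123168) (.g (nat_lit 1638) (.e (nat_lit 7261) (nat_lit 384) (.e (nat_lit 57409) (nat_lit 12) (.e (nat_lit 336211) (nat_lit 13) (.e (nat_lit 393300) (nat_lit 27) (.e (nat_lit 491560) (nat_lit 10) (.e (nat_lit 344091) (nat_lit 18) .nil)))))) (.g (nat_lit 4) .nil .nil)))) (.nd (nat_lit 5) 
(.lf (nat_lit 123152) (.g (nat_lit 3918) (.e (nat_lit 7261) (nat_lit 384) (.e (nat_lit 57407) (nat_lit 12) (.e (nat_lit 336211) (nat_lit 13) (.e (nat_lit 393301) (nat_lit 27) (.e (nat_lit 491558) (nat_lit 10) (.e (nat_lit 344095) (nat_lit 18) .nil)))))) (.g (nat_lit 6) .nil .nil))) 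
(.lf (nat_lit 123184) (.g (nat_lit 2958) (.e (nat_lit 7261) (nat_lit 384) (.e (nat_lit 57410) (nat_lit 12) (.e (nat_lit 336211) (nat_lit 13) (.e (nat_lit 393301) (nat_lit 27) (.e (nat_lit 491558) (nat_lit 10) (.e (nat_lit 344095) (nat_lit 18) .nil)))))) (.g (nat_lit 5) .nil .nil))))) (.nd (nat_lit 4) (.nd (nat_lit 5) 
(.lf (nat_lit 123144) (.g (nat_lit 3108) (.e (nat_lit 7261) (nat_lit 384) (.e (nat_lit 57407) (nat_lit 12) (.e (nat_lit 336211) (nat_lit 13) (.e (nat_lit 393300) (nat_lit 27) (.e (nat_lit 491558) (nat_lit 10) (.e (nat_lit 344090) (nat_lit 18) .nil)))))) (.g (nat_lit 6) .nil .nil))) 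
(.lf (nat_lit 123176) (.g (nat_lit 2341) (.e (nat_lit 7261) (nat_lit 384) (.e (nat_lit 57410) (nat_lit 12) (.e (nat_lit 336211) (nat_lit 13) (.e (nat_lit 393299) (nat_lit 27) (.e (nat_lit 491558) (nat_lit 10) (.e (nat_lit 344095) (nat_lit 18) .nil)))))) (.g (nat_lit 5) .nil .nil)))) (.nd (nat_lit 5) 
(.lf (nat_lit 123160) (.g (nat_lit 2200) (.e (nat_lit 7261) (nat_lit 384) (.e (nat_lit 57409) (nat_lit 12) (.e (nat_lit 336211) (nat_lit 13) (.e (nat_lit 393232) (nat_lit 17) (.e (nat_lit 7593) (nat_lit 407) (.e (nat_lit 73729) (nat_lit 0) .nil)))))) (.g (nat_lit 5) .nil .nil))) 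
(.lf (nat_lit 123192) (.g (nat_lit 1192) (.e (nat_lit 7261) (nat_lit 384) (.e (nat_lit 57411) (nat_lit 12) (.e (nat_lit 336182) (nat_lit 11) (.e (nat_lit 368699) (nat_lit 44) .nil)))) .nil))))) (.nd (nat_lit 3) (.nd (nat_lit 4) (.nd (nat_lit 5) 
(.lf (nat_lit 123140) (.g (nat_lit 3457) (.e (nat_lit 7261) (nat_lit 384) (.e (nat_lit 57407) (nat_lit 12) (.e (nat_lit 336211) (nat_lit 13) (.e (nat_lit 393299) (nat_lit 27) (.e (nat_lit 491558) (nat_lit 10) (.e (nat_lit 344091) (nat_lit 18) .nil)))))) (.g (nat_lit 6) .nil .nil))) 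
(.lf (nat_lit 123172) (.g (nat_lit 2029) (.e (nat_lit 7261) (nat_lit 384) (.e (nat_lit 57410) (nat_lit 12) (.e (nat_lit 336211) (nat_lit 13) (.e (nat_lit 393233) (nat_lit 17) (.e (nat_lit 7591) (nat_lit 407) (.e (nat_lit 73731) (nat_lit 0) .nil)))))) (.g (nat_lit 6) .nil .nil)))) (.nd (nat_lit 5) 
(.lf (nat_lit 123156) (.g (nat_lit 4221) (.e (nat_lit 7261) (nat_lit 384) (.e (nat_lit 57407) (nat_lit 12) (.e (nat_lit 336211) (nat_lit 13) (.e (nat_lit 393301) (nat_lit 27) (.e (nat_lit 491560) (nat_lit 10) (.e (nat_lit 344096) (nat_lit 18) .nil)))))) (.g (nat_lit 5) .nil .nil))) 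
(.lf (nat_lit 123188) (.g (nat_lit 2560) (.e (nat_lit 7261) (nat_lit 384) (.e (nat_lit 57411) (nat_lit 12) (.e (nat_lit 336019) (nat_lit 3) (.e (nat_lit 98372) (nat_lit 29) (.e (nat_lit 450586) (nat_lit 10) (.e (nat_lit 573473) (nat_lit 12) (.e (nat_lit 57348) (nat_lit 0) .nil))))))) (.g (nat_lit 4) .nil .nil))))) (.nd (nat_lit 4) (.nd (nat_lit 5) 
(.lf (nat_lit 123148) (.g (nat_lit 3019) (.e (nat_lit 7261) (nat_lit 384) (.e (nat_lit 57407) (nat_lit 12) (.e (nat_lit 336211) (nat_lit 13) (.e (nat_lit 393300) (nat_lit 27) (.e (nat_lit 491560) (nat_lit 10) (.e (nat_lit 344094) (nat_lit 18) .nil)))))) (.g (nat_lit 6) .nil .nil))) 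
(.lf (nat_lit 123180) (.g (nat_lit 2551) (.e (nat_lit 7261) (nat_lit 384) (.e (nat_lit 57410) (nat_lit 12) (.e (nat_lit 336211) (nat_lit 13) (.e (nat_lit 393300) (nat_lit 27) (.e (nat_lit 491558) (nat_lit 10) (.e (nat_lit 344096) (nat_lit 18) .nil)))))) (.g (nat_lit 6) .nil .nil)))) (.nd (nat_lit 5) 
(.lf (nat_lit 123164) (.g (nat_lit 1904) (.e (nat_lit 7261) (nat_lit 384) (.e (nat_lit 57409) (nat_lit 12) (.e (nat_lit 336211) (nat_lit 13) (.e (nat_lit 393299) (nat_lit 27) (.e (nat_lit 491558) (nat_lit 10) (.e (nat_lit 344090) (nat_lit 18) .nil)))))) (.g (nat_lit 4) .nil .nil))) 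
(.lf (nat_lit 123196) (.g (nat_lit 1654) (.e (nat_lit 7261) (nat_lit 384) (.e (nat_lit 57411) (nat_lit 12) (.e (nat_lit 336211) (nat_lit 13) (.e (nat_lit 393231) (nat_lit 17) (.e (nat_lit 7593) (nat_lit 407) (.e (nat_lit 73730) (nat_lit 0) .nil)))))) (.g (nat_lit 4) .nil .nil))))))) (.nd (nat_lit 2) (.nd (nat_lit 3) (.nd (nat_lit 4) (.nd (nat_lit 5) 
(.lf (nat_lit 123138) (.g (nat_lit 2361) (.e (nat_lit 7261) (nat_lit 384) (.e (nat_lit 57407) (nat_lit 12) (.e (nat_lit 336211) (nat_lit 13) (.e (nat_lit 393298) (nat_lit 27) (.e (nat_lit 491560) (nat_lit 10) .nil))))) .nil)) 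
(.lf (nat_lit 123170) (.g (nat_lit 2121) (.e (nat_lit 7261) (nat_lit 384) (.e (nat_lit 57410) (nat_lit 12) (.e (nat_lit 336211) (nat_lit 13) (.e (nat_lit 393232) (nat_lit 17) (.e (nat_lit 7591) (nat_lit 407) (.e (nat_lit 73731) (nat_lit 0) .nil)))))) (.g (nat_lit 6) .nil .nil)))) (.nd (nat_lit 5) 
(.lf (nat_lit 123154) (.g (nat_lit 4536) (.e (nat_lit 7261) (nat_lit 384) (.e (nat_lit 57407) (nat_lit 12) (.e (nat_lit 336211) (nat_lit 13) (.e (nat_lit 393301) (nat_lit 27) (.e (nat_lit 491560) (nat_lit 10) (.e (nat_lit 344090) (nat_lit 18) .nil)))))) (.g (nat_lit 6) .nil .nil))) 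
(.lf (nat_lit 123186) (.g (nat_lit 2911) (.e (nat_lit 7261) (nat_lit 384) (.e (nat_lit 57411) (nat_lit 12) (.e (nat_lit 336019) (nat_lit 3) (.e (nat_lit 98359) (nat_lit 26) (.e (nat_lit 426286) (nat_lit 10) .nil))))) .nil)))) (.nd (nat_lit 4) (.nd (nat_lit 5) 
(.lf (nat_lit 123146) (.g (nat_lit 3158) (.e (nat_lit 7261) (nat_lit 384) (.e (nat_lit 57407) (nat_lit 12) (.e (nat_lit 336211) (nat_lit 13) (.e (nat_lit 393300) (nat_lit 27) (.e (nat_lit 491558) (nat_lit 10) (.e (nat_lit 344095) (nat_lit 18) .nil)))))) (.g (nat_lit 6) .nil .nil))) 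
(.lf (nat_lit 123178) (.g (nat_lit 2496) (.e (nat_lit 7261) (nat_lit 384) (.e (nat_lit 57410) (nat_lit 12) (.e (nat_lit 336211) (nat_lit 13) (.e (nat_lit 393300) (nat_lit 27) (.e (nat_lit 491558) (nat_lit 10) (.e (nat_lit 344091) (nat_lit 18) .nil)))))) (.g (nat_lit 6) .nil .nil)))) (.nd (nat_lit 5) 
(.lf (nat_lit 123162) (.g (nat_lit 1517) (.e (nat_lit 7261) (nat_lit 384) (.e (nat_lit 57409) (nat_lit 12) (.e (nat_lit 336211) (nat_lit 13) (.e (nat_lit 393233) (nat_lit 17) (.e (nat_lit 7591) (nat_lit 407) (.e (nat_lit 73731) (nat_lit 0) .nil)))))) (.g (nat_lit 4) .nil .nil))) 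
(.lf (nat_lit 123194) (.g (nat_lit 1620) (.e (nat_lit 7261) (nat_lit 384) (.e (nat_lit 57411) (nat_lit 12) (.e (nat_lit 336211) (nat_lit 13) (.e (nat_lit 393231) (nat_lit 17) (.e (nat_lit 7591) (nat_lit 407) (.e (nat_lit 73729) (nat_lit 0) .nil)))))) (.g (nat_lit 4) .nil .nil)))))) (.nd (nat_lit 3) (.nd (nat_lit 4) (.nd (nat_lit 5) 
(.lf (nat_lit 123142) (.g (nat_lit 3538) (.e (nat_lit 7261) (nat_lit 384) (.e (nat_lit 57407) (nat_lit 12) (.e (nat_lit 336211) (nat_lit 13) (.e (nat_lit 393299) (nat_lit 27) (.e (nat_lit 491558) (nat_lit 10) (.e (nat_lit 344096) (nat_lit 18) .nil)))))) (.g (nat_lit 6) .nil .nil))) 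
(.lf (nat_lit 123174) (.g (nat_lit 2071) (.e (nat_lit 7261) (nat_lit 384) (.e (nat_lit 57410) (nat_lit 12) (.e (nat_lit 336211) (nat_lit 13) (.e (nat_lit 393233) (nat_lit 17) (.e (nat_lit 7593) (nat_lit 407) (.e (nat_lit 73730) (nat_lit 0) .nil)))))) (.g (nat_lit 6) .nil .nil)))) (.nd (nat_lit 5) 
(.lf (nat_lit 123158) (.g (nat_lit 1668) (.e (nat_lit 7261) (nat_lit 384) (.e (nat_lit 57409) (nat_lit 12) (.e (nat_lit 336211) (nat_lit 13) (.e (nat_lit 393232) (nat_lit 17) (.e (nat_lit 7591) (nat_lit 407) (.e (nat_lit 73730) (nat_lit 0) .nil)))))) (.g (nat_lit 4) .nil .nil))) 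
(.lf (nat_lit 123190) (.g (nat_lit 835) (.e (nat_lit 7261) (nat_lit 384) (.e (nat_lit 57411) (nat_lit 12) (.e (nat_lit 336115) (nat_lit 9) .nil))) .nil)))) (.nd (nat_lit 4) (.nd (nat_lit 5) 
(.lf (nat_lit 123150) (.g (nat_lit 3812) (.e (nat_lit 7261) (nat_lit 384) (.e (nat_lit 57407) (nat_lit 12) (.e (nat_lit 336211) (nat_lit 13) (.e (nat_lit 393301) (nat_lit 27) (.e (nat_lit 491558) (nat_lit 10) (.e (nat_lit 344090) (nat_lit 18) .nil)))))) (.g (nat_lit 6) .nil .nil))) 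
(.lf (nat_lit 123182) (.g (nat_lit 2011) (.e (nat_lit 7261) (nat_lit 384) (.e (nat_lit 57410) (nat_lit 12) (.e (nat_lit 336211) (nat_lit 13) (.e (nat_lit 393300) (nat_lit 27) (.e (nat_lit 491560) (nat_lit 10) (.e (nat_lit 344094) (nat_lit 18) .nil)))))) (.g (nat_lit 5) .nil .nil)))) (.nd (nat_lit 5) 
(.lf (nat_lit 123166) (.g (nat_lit 1641) (.e (nat_lit 7261) (nat_lit 384) (.e (nat_lit 57409) (nat_lit 12) (.e (nat_lit 336211) (nat_lit 13) (.e (nat_lit 393300) (nat_lit 27) (.e (nat_lit 491558) (nat_lit 10) (.e (nat_lit 344090) (nat_lit 18) .nil)))))) (.g (nat_lit 4) .nil .nil))) 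
(.lf (nat_lit 123198) (.g (nat_lit 2601) (.e (nat_lit 7261) (nat_lit 384) (.e (nat_lit 57411) (nat_lit 12) (.e (nat_lit 336211) (nat_lit 13) (.e (nat_lit 393232) (nat_lit 17) (.e (nat_lit 7591) (nat_lit 407) (.e (nat_lit 73730) (nat_lit 0) .nil)))))) (.g (nat_lit 6) .nil .nil)))))))) (.nd (nat_lit 1) (.nd (nat_lit 2) (.nd (nat_lit 3) (.nd (nat_lit 4) (.nd (nat_lit 5) 
(.lf (nat_lit 123137) (.g (nat_lit 2292) (.e (nat_lit 7261) (nat_lit 384) (.e (nat_lit 57407) (nat_lit 12) (.e (nat_lit 336211) (nat_lit 13) (.e (nat_lit 393234) (nat_lit 17) (.e (nat_lit 7593) (nat_lit 407) (.e (nat_lit 73731) (nat_lit 0) .nil)))))) (.g (nat_lit 4) .nil .nil))) 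
(.lf (nat_lit 123169) (.g (nat_lit 2099) (.e (nat_lit 7261) (nat_lit 384) (.e (nat_lit 57410) (nat_lit 12) (.e (nat_lit 336211) (nat_lit 13) (.e (nat_lit 393232) (nat_lit 17) (.e (nat_lit 7591) (nat_lit 407) (.e (nat_lit 73730) (nat_lit 0) .nil)))))) (.g (nat_lit 5) .nil .nil)))) (.nd (nat_lit 5) 
(.lf (nat_lit 123153) (.g (nat_lit 4174) (.e (nat_lit 7261) (nat_lit 384) (.e (nat_lit 57407) (nat_lit 12) (.e (nat_lit 336211) (nat_lit 13) (.e (nat_lit 393301) (nat_lit 27) (.e (nat_lit 491558) (nat_lit 10) (.e (nat_lit 344096) (nat_lit 18) .nil)))))) (.g (nat_lit 6) .nil .nil))) 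
(.lf (nat_lit 123185) (.g (nat_lit 2996) (.e (nat_lit 7261) (nat_lit 384) (.e (nat_lit 57410) (nat_lit 12) (.e (nat_lit 336211) (nat_lit 13) (.e (nat_lit 393301) (nat_lit 27) (.e (nat_lit 491560) (nat_lit 10) (.e (nat_lit 344094) (nat_lit 18) .nil)))))) (.g (nat_lit 5) .nil .nil))))) (.nd (nat_lit 4) (.nd (nat_lit 5) 
(.lf (nat_lit 123145) (.g (nat_lit 3415) (.e (nat_lit 7261) (nat_lit 384) (.e (nat_lit 57407) (nat_lit 12) (.e (nat_lit 336211) (nat_lit 13) (.e (nat_lit 393300) (nat_lit 27) (.e (nat_lit 491558) (nat_lit 10) (.e (nat_lit 344091) (nat_lit 18) .nil)))))) (.g (nat_lit 0) .nil .nil))) 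
(.lf (nat_lit 123177) (.g (nat_lit 2214) (.e (nat_lit 7261) (nat_lit 384) (.e (nat_lit 57410) (nat_lit 12) (.e (nat_lit 336211) (nat_lit 13) (.e (nat_lit 393300) (nat_lit 27) (.e (nat_lit 491558) (nat_lit 10) (.e (nat_lit 344090) (nat_lit 18) .nil)))))) (.g (nat_lit 6) .nil .nil)))) (.nd (nat_lit 5) 
(.lf (nat_lit 123161) (.g (nat_lit 1496) (.e (nat_lit 7261) (nat_lit 384) (.e (nat_lit 57409) (nat_lit 12) (.e (nat_lit 336211) (nat_lit 13) (.e (nat_lit 393233) (nat_lit 17) (.e (nat_lit 7591) (nat_lit 407) (.e (nat_lit 73730) (nat_lit 0) .nil)))))) (.g (nat_lit 4) .nil .nil))) 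
(.lf (nat_lit 123193) (.g (nat_lit 1135) (.e (nat_lit 7261) (nat_lit 384) (.e (nat_lit 57411) (nat_lit 12) (.e (nat_lit 336211) (nat_lit 13) (.e (nat_lit 393231) (nat_lit 17) .nil)))) .nil))))) (.nd (nat_lit 3) (.nd (nat_lit 4) (.nd (nat_lit 5) 
(.lf (nat_lit 123141) (.g (nat_lit 3226) (.e (nat_lit 7261) (nat_lit 384) (.e (nat_lit 57407) (nat_lit 12) (.e (nat_lit 336211) (nat_lit 13) (.e (nat_lit 393299) (nat_lit 27) (.e (nat_lit 491558) (nat_lit 10) (.e (nat_lit 344095) (nat_lit 18) .nil)))))) (.g (nat_lit 5) .nil .nil))) 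
(.lf (nat_lit 123173) (.g (nat_lit 2573) (.e (nat_lit 7261) (nat_lit 384) (.e (nat_lit 57410) (nat_lit 12) (.e (nat_lit 336211) (nat_lit 13) (.e (nat_lit 393233) (nat_lit 17) (.e (nat_lit 7593) (nat_lit 407) (.e (nat_lit 73729) (nat_lit 0) .nil)))))) (.g (nat_lit 0) .nil .nil)))) (.nd (nat_lit 5) 
(.lf (nat_lit 123157) (.g (nat_lit 1039) (.e (nat_lit 7261) (nat_lit 384) (.e (nat_lit 57409) (nat_lit 12) (.e (nat_lit 336211) (nat_lit 13) (.e (nat_lit 393231) (nat_lit 17) .nil)))) .nil)) 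
(.lf (nat_lit 123189) (.g (nat_lit 2886) (.e (nat_lit 7261) (nat_lit 384) (.e (nat_lit 57411) (nat_lit 12) (.e (nat_lit 336019) (nat_lit 3) (.e (nat_lit 98372) (nat_lit 29) (.e (nat_lit 450586) (nat_lit 10) (.e (nat_lit 573475) (nat_lit 12) (.e (nat_lit 57347) (nat_lit 0) .nil))))))) (.g (nat_lit 4) .nil .nil))))) (.nd (nat_lit 4) (.nd (nat_lit 5) 
(.lf (nat_lit 123149) (.g (nat_lit 3304) (.e (nat_lit 7261) (nat_lit 384) (.e (nat_lit 57407) (nat_lit 12) (.e (nat_lit 336211) (nat_lit 13) (.e (nat_lit 393300) (nat_lit 27) (.e (nat_lit 491560) (nat_lit 10) (.e (nat_lit 344096) (nat_lit 18) .nil)))))) (.g (nat_lit 6) .nil .nil))) 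
(.lf (nat_lit 123181) (.g (nat_lit 2569) (.e (nat_lit 7261) (nat_lit 384) (.e (nat_lit 57410) (nat_lit 12) (.e (nat_lit 336211) (nat_lit 13) (.e (nat_lit 393300) (nat_lit 27) (.e (nat_lit 491560) (nat_lit 10) (.e (nat_lit 344090) (nat_lit 18) .nil)))))) (.g (nat_lit 6) .nil .nil)))) (.nd (nat_lit 5) 
(.lf (nat_lit 123165) (.g (nat_lit 1941) (.e (nat_lit 7261) (nat_lit 384) (.e (nat_lit 57409) (nat_lit 12) (.e (nat_lit 336211) (nat_lit 13) (.e (nat_lit 393299) (nat_lit 27) (.e (nat_lit 491558) (nat_lit 10) (.e (nat_lit 344095) (nat_lit 18) .nil)))))) (.g (nat_lit 4) .nil .nil))) 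
(.lf (nat_lit 123197) (.g (nat_lit 2933) (.e (nat_lit 7261) (nat_lit 384) (.e (nat_lit 57411) (nat_lit 12) (.e (nat_lit 336211) (nat_lit 13) (.e (nat_lit 393232) (nat_lit 17) (.e (nat_lit 7591) (nat_lit 407) (.e (nat_lit 73729) (nat_lit 0) .nil)))))) (.g (nat_lit 6) .nil .nil))))))) (.nd (nat_lit 2) (.nd (nat_lit 3) (.nd (nat_lit 4) (.nd (nat_lit 5) 
(.lf (nat_lit 123139) (.g (nat_lit 3197) (.e (nat_lit 7261) (nat_lit 384) (.e (nat_lit 57407) (nat_lit 12) (.e (nat_lit 336211) (nat_lit 13) (.e (nat_lit 393299) (nat_lit 27) (.e (nat_lit 491558) (nat_lit 10) (.e (nat_lit 344090) (nat_lit 18) .nil)))))) (.g (nat_lit 5) .nil .nil))) 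
(.lf (nat_lit 123171) (.g (nat_lit 2096) (.e (nat_lit 7261) (nat_lit 384) (.e (nat_lit 57410) (nat_lit 12) (.e (nat_lit 336211) (nat_lit 13) (.e (nat_lit 393232) (nat_lit 17) (.e (nat_lit 7593) (nat_lit 407) (.e (nat_lit 73730) (nat_lit 0) .nil)))))) (.g (nat_lit 5) .nil .nil)))) (.nd (nat_lit 5) 
(.lf (nat_lit 123155) (.g (nat_lit 3958) (.e (nat_lit 7261) (nat_lit 384) (.e (nat_lit 57407) (nat_lit 12) (.e (nat_lit 336211) (nat_lit 13) (.e (nat_lit 393301) (nat_lit 27) (.e (nat_lit 491560) (nat_lit 10) (.e (nat_lit 344094) (nat_lit 18) .nil)))))) (.g (nat_lit 6) .nil .nil))) 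
(.lf (nat_lit 123187) (.g (nat_lit 2523) (.e (nat_lit 7261) (nat_lit 384) (.e (nat_lit 57411) (nat_lit 12) (.e (nat_lit 336019) (nat_lit 3) (.e (nat_lit 98372) (nat_lit 29) (.e (nat_lit 450586) (nat_lit 10) .nil))))) .nil)))) (.nd (nat_lit 4) (.nd (nat_lit 5) 
(.lf (nat_lit 123147) (.g (nat_lit 3080) (.e (nat_lit 7261) (nat_lit 384) (.e (nat_lit 57407) (nat_lit 12) (.e (nat_lit 336211) (nat_lit 13) (.e (nat_lit 393300) (nat_lit 27) (.e (nat_lit 491560) (nat_lit 10) (.e (nat_lit 344091) (nat_lit 18) .nil)))))) (.g (nat_lit 6) .nil .nil))) 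
(.lf (nat_lit 123179) (.g (nat_lit 2256) (.e (nat_lit 7261) (nat_lit 384) (.e (nat_lit 57410) (nat_lit 12) (.e (nat_lit 336211) (nat_lit 13) (.e (nat_lit 393300) (nat_lit 27) (.e (nat_lit 491558) (nat_lit 10) (.e (nat_lit 344095) (nat_lit 18) .nil)))))) (.g (nat_lit 6) .nil .nil)))) (.nd (nat_lit 5) 
(.lf (nat_lit 123163) (.g (nat_lit 1990) (.e (nat_lit 7261) (nat_lit 384) (.e (nat_lit 57409) (nat_lit 12) (.e (nat_lit 336211) (nat_lit 13) (.e (nat_lit 393233) (nat_lit 17) (.e (nat_lit 7593) (nat_lit 407) (.e (nat_lit 73729) (nat_lit 0) .nil)))))) (.g (nat_lit 5) .nil .nil))) 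
(.lf (nat_lit 123195) (.g (nat_lit 1486) (.e (nat_lit 7261) (nat_lit 384) (.e (nat_lit 57411) (nat_lit 12) (.e (nat_lit 336211) (nat_lit 13) (.e (nat_lit 393231) (nat_lit 17) (.e (nat_lit 7591) (nat_lit 407) (.e (nat_lit 73731) (nat_lit 0) .nil)))))) (.g (nat_lit 4) .nil .nil)))))) (.nd (nat_lit 3) (.nd (nat_lit 4) (.nd (nat_lit 5) 
(.lf (nat_lit 123143) (.g (nat_lit 3252) (.e (nat_lit 7261) (nat_lit 384) (.e (nat_lit 57407) (nat_lit 12) (.e (nat_lit 336211) (nat_lit 13) (.e (nat_lit 393299) (nat_lit 27) (.e (nat_lit 491560) (nat_lit 10) (.e (nat_lit 344090) (nat_lit 18) .nil)))))) (.g (nat_lit 6) .nil .nil))) 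
(.lf (nat_lit 123175) (.g (nat_lit 2071) (.e (nat_lit 7261) (nat_lit 384) (.e (nat_lit 57410) (nat_lit 12) (.e (nat_lit 336211) (nat_lit 13) (.e (nat_lit 393234) (nat_lit 17) (.e (nat_lit 7591) (nat_lit 407) (.e (nat_lit 73731) (nat_lit 0) .nil)))))) (.g (nat_lit 5) .nil .nil)))) (.nd (nat_lit 5) 
(.lf (nat_lit 123159) (.g (nat_lit 1687) (.e (nat_lit 7261) (nat_lit 384) (.e (nat_lit 57409) (nat_lit 12) (.e (nat_lit 336211) (nat_lit 13) (.e (nat_lit 393232) (nat_lit 17) (.e (nat_lit 7591) (nat_lit 407) (.e (nat_lit 73731) (nat_lit 0) .nil)))))) (.g (nat_lit 4) .nil .nil))) 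
(.lf (nat_lit 123191) (.g (nat_lit 777) (.e (nat_lit 7261) (nat_lit 384) (.e (nat_lit 57411) (nat_lit 12) (.e (nat_lit 336182) (nat_lit 11) .nil))) .nil)))) (.nd (nat_lit 4) (.nd (nat_lit 5) 
(.lf (nat_lit 123151) (.g (nat_lit 4072) (.e (nat_lit 7261) (nat_lit 384) (.e (nat_lit 57407) (nat_lit 12) (.e (nat_lit 336211) (nat_lit 13) (.e (nat_lit 393301) (nat_lit 27) (.e (nat_lit 491558) (nat_lit 10) (.e (nat_lit 344091) (nat_lit 18) .nil)))))) (.g (nat_lit 6) .nil .nil))) 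
(.lf (nat_lit 123183) (.g (nat_lit 2860) (.e (nat_lit 7261) (nat_lit 384) (.e (nat_lit 57410) (nat_lit 12) (.e (nat_lit 336211) (nat_lit 13) (.e (nat_lit 393301) (nat_lit 27) (.e (nat_lit 491558) (nat_lit 10) (.e (nat_lit 344090) (nat_lit 18) .nil)))))) (.g (nat_lit 5) .nil .nil)))) (.nd (nat_lit 5) 
(.lf (nat_lit 123167) (.g (nat_lit 1699) (.e (nat_lit 7261) (nat_lit 384) (.e (nat_lit 57409) (nat_lit 12) (.e (nat_lit 336211) (nat_lit 13) (.e (nat_lit 393300) (nat_lit 27) (.e (nat_lit 491558) (nat_lit 10) (.e (nat_lit 344095) (nat_lit 18) .nil)))))) (.g (nat_lit 4) .nil .nil))) 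
(.lf (nat_lit 123199) (.g (nat_lit 2673) (.e (nat_lit 7261) (nat_lit 384) (.e (nat_lit 57411) (nat_lit 12) (.e (nat_lit 336211) (nat_lit 13) (.e (nat_lit 393232) (nat_lit 17) (.e (nat_lit 7591) (nat_lit 407) (.e (nat_lit 73731) (nat_lit 0) .nil)))))) (.g (nat_lit 6) .nil .nil)))))))))

noncomputable def tv1643 : DT := (.nd (nat_lit 0) (.nd (nat_lit 1) (.nd (nat_lit 2) (.nd (nat_lit 3) (.nd (nat_lit 4) (.nd (nat_lit 5) 
(.lf (nat_lit 123200) (.g (nat_lit 2602) (.e (nat_lit 7261) (nat_lit 384) (.e (nat_lit 57411) (nat_lit 12) (.e (nat_lit 336211) (nat_lit 13) (.e (nat_lit 393232) (nat_lit 17) (.e (nat_lit 7593) (nat_lit 407) (.e (nat_lit 73730) (nat_lit 0) .nil)))))) (.g (nat_lit 5) .nil .nil))) 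
(.lf (nat_lit 123232) (.g (nat_lit 2854) (.e (nat_lit 7261) (nat_lit 384) (.e (nat_lit 57412) (nat_lit 12) (.e (nat_lit 336020) (nat_lit 3) (.e (nat_lit 98373) (nat_lit 29) (.e (nat_lit 450587) (nat_lit 10) (.e (nat_lit 573478) (nat_lit 12) (.e (nat_lit 57353) (nat_lit 0) .nil))))))) (.g (nat_lit 6) .nil .nil)))) (.nd (nat_lit 5) 
(.lf (nat_lit 123216) (.g (nat_lit 3332) (.e (nat_lit 7261) (nat_lit 384) (.e (nat_lit 57411) (nat_lit 12) (.e (nat_lit 336211) (nat_lit 13) (.e (nat_lit 393301) (nat_lit 27) (.e (nat_lit 491558) (nat_lit 10) (.e (nat_lit 344090) (nat_lit 18) .nil)))))) (.g (nat_lit 5) .nil .nil))) 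
(.lf (nat_lit 123248) (.g (nat_lit 2294) (.e (nat_lit 7261) (nat_lit 384) (.e (nat_lit 57412) (nat_lit 12) (.e (nat_lit 336060) (nat_lit 7) (.e (nat_lit 319534) (nat_lit 16) (.e (nat_lit 286756) (nat_lit 10) (.e (nat_lit 344160) (nat_lit 37) (.e (nat_lit 647200) (nat_lit 12) (.e (nat_lit 57348) (nat_lit 0) .nil)))))))) (.g (nat_lit 5) .nil .nil))))) (.nd (nat_lit 4) (.nd (nat_lit 5) 
(.lf (nat_lit 123208) (.g (nat_lit 2839) (.e (nat_lit 7261) (nat_lit 384) (.e (nat_lit 57411) (nat_lit 12) (.e (nat_lit 336211) (nat_lit 13) (.e (nat_lit 393299) (nat_lit 27) (.e (nat_lit 491558) (nat_lit 10) (.e (nat_lit 344090) (nat_lit 18) .nil)))))) (.g (nat_lit 5) .nil .nil))) 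
(.lf (nat_lit 123240) (.g (nat_lit 4591) (.e (nat_lit 7261) (nat_lit 384) (.e (nat_lit 57412) (nat_lit 12) (.e (nat_lit 336024) (nat_lit 3) (.e (nat_lit 98373) (nat_lit 29) (.e (nat_lit 450588) (nat_lit 10) (.e (nat_lit 573473) (nat_lit 12) (.e (nat_lit 57353) (nat_lit 0) .nil))))))) (.g (nat_lit 7) .nil .nil)))) (.nd (nat_lit 5) 
(.lf (nat_lit 123224) (.g (nat_lit 3450) (.e (nat_lit 7261) (nat_lit 384) (.e (nat_lit 57412) (nat_lit 12) (.e (nat_lit 336020) (nat_lit 3) (.e (nat_lit 98359) (nat_lit 26) (.e (nat_lit 426286) (nat_lit 10) (.e (nat_lit 434247) (nat_lit 28) (.e (nat_lit 573477) (nat_lit 12) (.e (nat_lit 57353) (nat_lit 0) .nil)))))))) (.g (nat_lit 0) .nil .nil))) 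
(.lf (nat_lit 123256) (.g (nat_lit 2961) (.e (nat_lit 7261) (nat_lit 384) (.e (nat_lit 57412) (nat_lit 12) (.e (nat_lit 336061) (nat_lit 7) (.e (nat_lit 319531) (nat_lit 16) (.e (nat_lit 286756) (nat_lit 10) (.e (nat_lit 344160) (nat_lit 37) (.e (nat_lit 647200) (nat_lit 12) (.e (nat_lit 57352) (nat_lit 0) .nil)))))))) (.g (nat_lit 5) .nil .nil)))))) 
(.nd (nat_lit 3) (.nd (nat_lit 4) (.nd (nat_lit 5) 
(.lf (nat_lit 123204) (.g (nat_lit 2552) (.e (nat_lit 7261) (nat_lit 384) (.e (nat_lit 57411) (nat_lit 12) (.e (nat_lit 336211) (nat_lit 13) (.e (nat_lit 393233) (nat_lit 17) (.e (nat_lit 7593) (nat_lit 407) (.e (nat_lit 73730) (nat_lit 0) .nil)))))) (.g (nat_lit 6) .nil .nil))) 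
(.lf (nat_lit 123236) (.g (nat_lit 3198) (.e (nat_lit 7261) (nat_lit 384) (.e (nat_lit 57412) (nat_lit 12) (.e (nat_lit 336024) (nat_lit 3) (.e (nat_lit 98373) (nat_lit 29) (.e (nat_lit 450587) (nat_lit 10) (.e (nat_lit 573477) (nat_lit 12) (.e (nat_lit 57353) (nat_lit 0) .nil))))))) (.g (nat_lit 6) .nil .nil)))) (.nd (nat_lit 5) 
(.lf (nat_lit 123220) (.g (nat_lit 3812) (.e (nat_lit 7261) (nat_lit 384) (.e (nat_lit 57411) (nat_lit 12) (.e (nat_lit 336211) (nat_lit 13) (.e (nat_lit 393301) (nat_lit 27) (.e (nat_lit 491560) (nat_lit 10) (.e (nat_lit 344096) (nat_lit 18) .nil)))))) (.g (nat_lit 5) .nil .nil))) 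
(.lf (nat_lit 123252) (.g (nat_lit 2326) (.e (nat_lit 7261) (nat_lit 384) (.e (nat_lit 57412) (nat_lit 12) (.e (nat_lit 336061) (nat_lit 7) (.e (nat_lit 319531) (nat_lit 16) (.e (nat_lit 286752) (nat_lit 10) (.e (nat_lit 344160) (nat_lit 37) (.e (nat_lit 647201) (nat_lit 12) (.e (nat_lit 57351) (nat_lit 0) .nil)))))))) (.g (nat_lit 4) .nil .nil))))) (.nd (nat_lit 4) (.nd (nat_lit 5) 
(.lf (nat_lit 123212) (.g (nat_lit 2800) (.e (nat_lit 7261) (nat_lit 384) (.e (nat_lit 57411) (nat_lit 12) (.e (nat_lit 336211) (nat_lit 13) (.e (nat_lit 393300) (nat_lit 27) (.e (nat_lit 491558) (nat_lit 10) (.e (nat_lit 344095) (nat_lit 18) .nil)))))) (.g (nat_lit 6) .nil .nil))) 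
(.lf (nat_lit 123244) (.g (nat_lit 3346) (.e (nat_lit 7261) (nat_lit 384) (.e (nat_lit 57412) (nat_lit 12) (.e (nat_lit 336058) (nat_lit 7) (.e (nat_lit 319533) (nat_lit 16) (.e (nat_lit 286753) (nat_lit 10) (.e (nat_lit 344160) (nat_lit 37) (.e (nat_lit 647201) (nat_lit 12) (.e (nat_lit 57351) (nat_lit 0) .nil)))))))) (.g (nat_lit 7) .nil .nil)))) (.nd (nat_lit 5) 
(.lf (nat_lit 123228) (.g (nat_lit 3080) (.e (nat_lit 7261) (nat_lit 384) (.e (nat_lit 57412) (nat_lit 12) (.e (nat_lit 336020) (nat_lit 3) (.e (nat_lit 98372) (nat_lit 29) (.e (nat_lit 450586) (nat_lit 10) (.e (nat_lit 573473) (nat_lit 12) (.e (nat_lit 57348) (nat_lit 0) .nil))))))) (.g (nat_lit 0) .nil .nil))) 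
(.lf (nat_lit 123260) (.g (nat_lit 3189) (.e (nat_lit 7261) (nat_lit 384) (.e (nat_lit 57412) (nat_lit 12) (.e (nat_lit 336061) (nat_lit 7) (.e (nat_lit 319534) (nat_lit 16) (.e (nat_lit 286756) (nat_lit 10) (.e (nat_lit 344160) (nat_lit 37) (.e (nat_lit 647200) (nat_lit 12) (.e (nat_lit 57348) (nat_lit 0) .nil)))))))) (.g (nat_lit 5) .nil .nil))))))) 
(.nd (nat_lit 2) (.nd (nat_lit 3) (.nd (nat_lit 4) (.nd (nat_lit 5) 
(.lf (nat_lit 123202) (.g (nat_lit 2571) (.e (nat_lit 7261) (nat_lit 384) (.e (nat_lit 57411) (nat_lit 12) (.e (nat_lit 336211) (nat_lit 13) (.e (nat_lit 393233) (nat_lit 17) (.e (nat_lit 7591) (nat_lit 407) (.e (nat_lit 73731) (nat_lit 0) .nil)))))) (.g (nat_lit 0) .nil .nil))) 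
(.lf (nat_lit 123234) (.g (nat_lit 4489) (.e (nat_lit 7261) (nat_lit 384) (.e (nat_lit 57412) (nat_lit 12) (.e (nat_lit 336020) (nat_lit 3) (.e (nat_lit 98373) (nat_lit 29) (.e (nat_lit 450588) (nat_lit 10) (.e (nat_lit 573475) (nat_lit 12) (.e (nat_lit 57347) (nat_lit 0) .nil))))))) (.g (nat_lit 0) .nil .nil)))) (.nd (nat_lit 5) 
(.lf (nat_lit 123218) (.g (nat_lit 3740) (.e (nat_lit 7261) (nat_lit 384) (.e (nat_lit 57411) (nat_lit 12) (.e (nat_lit 336211) (nat_lit 13) (.e (nat_lit 393301) (nat_lit 27) (.e (nat_lit 491558) (nat_lit 10) (.e (nat_lit 344096) (nat_lit 18) .nil)))))) (.g (nat_lit 6) .nil .nil))) 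
(.lf (nat_lit 123250) (.g (nat_lit 4108) (.e (nat_lit 7261) (nat_lit 384) (.e (nat_lit 57412) (nat_lit 12) (.e (nat_lit 336061) (nat_lit 7) (.e (nat_lit 319505) (nat_lit 10) (.e (nat_lit 720) (nat_lit 64) (.e (nat_lit 688177) (nat_lit 16) (.e (nat_lit 65617) (nat_lit 10) (.e (nat_lit 344095) (nat_lit 18) .nil)))))))) (.g (nat_lit 7) .nil .nil))))) (.nd (nat_lit 4) (.nd (nat_lit 5) 
(.lf (nat_lit 123210) (.g (nat_lit 2710) (.e (nat_lit 7261) (nat_lit 384) (.e (nat_lit 57411) (nat_lit 12) (.e (nat_lit 336211) (nat_lit 13) (.e (nat_lit 393300) (nat_lit 27) (.e (nat_lit 491558) (nat_lit 10) (.e (nat_lit 344090) (nat_lit 18) .nil)))))) (.g (nat_lit 6) .nil .nil))) 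
(.lf (nat_lit 123242) (.g (nat_lit 4543) (.e (nat_lit 7261) (nat_lit 384) (.e (nat_lit 57412) (nat_lit 12) (.e (nat_lit 336024) (nat_lit 3) (.e (nat_lit 98373) (nat_lit 29) (.e (nat_lit 450588) (nat_lit 10) (.e (nat_lit 573475) (nat_lit 12) (.e (nat_lit 57351) (nat_lit 0) .nil))))))) (.g (nat_lit 7) .nil .nil)))) (.nd (nat_lit 5) 
(.lf (nat_lit 123226) (.g (nat_lit 3738) (.e (nat_lit 7261) (nat_lit 384) (.e (nat_lit 57412) (nat_lit 12) (.e (nat_lit 336020) (nat_lit 3) (.e (nat_lit 98359) (nat_lit 26) (.e (nat_lit 426286) (nat_lit 10) (.e (nat_lit 434248) (nat_lit 28) (.e (nat_lit 573473) (nat_lit 12) (.e (nat_lit 57348) (nat_lit 0) .nil)))))))) (.g (nat_lit 0) .nil .nil))) 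
(.lf (nat_lit 123258) (.g (nat_lit 4411) (.e (nat_lit 7261) (nat_lit 384) (.e (nat_lit 57412) (nat_lit 12) (.e (nat_lit 336061) (nat_lit 7) (.e (nat_lit 319533) (nat_lit 16) (.e (nat_lit 286753) (nat_lit 10) (.e (nat_lit 344160) (nat_lit 37) (.e (nat_lit 647201) (nat_lit 12) (.e (nat_lit 57351) (nat_lit 0) .nil)))))))) (.g (nat_lit 8) .nil .nil)))))) 
(.nd (nat_lit 3) (.nd (nat_lit 4) (.nd (nat_lit 5) 
(.lf (nat_lit 123206) (.g (nat_lit 2836) (.e (nat_lit 7261) (nat_lit 384) (.e (nat_lit 57411) (nat_lit 12) (.e (nat_lit 336211) (nat_lit 13) (.e (nat_lit 393234) (nat_lit 17) (.e (nat_lit 7591) (nat_lit 407) (.e (nat_lit 73729) (nat_lit 0) .nil)))))) (.g (nat_lit 5) .nil .nil))) 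
(.lf (nat_lit 123238) (.g (nat_lit 4754) (.e (nat_lit 7261) (nat_lit 384) (.e (nat_lit 57412) (nat_lit 12) (.e (nat_lit 336024) (nat_lit 3) (.e (nat_lit 98373) (nat_lit 29) (.e (nat_lit 450588) (nat_lit 10) (.e (nat_lit 573473) (nat_lit 12) (.e (nat_lit 57348) (nat_lit 0) .nil))))))) (.g (nat_lit 7) .nil .nil)))) (.nd (nat_lit 5) 
(.lf (nat_lit 123222) (.g (nat_lit 4512) (.e (nat_lit 7261) (nat_lit 384) (.e (nat_lit 57412) (nat_lit 12) (.e (nat_lit 336020) (nat_lit 3) (.e (nat_lit 98359) (nat_lit 26) (.e (nat_lit 426286) (nat_lit 10) (.e (nat_lit 434245) (nat_lit 28) (.e (nat_lit 573474) (nat_lit 12) (.e (nat_lit 57347) (nat_lit 0) .nil)))))))) (.g (nat_lit 0) .nil .nil))) 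
(.lf (nat_lit 123254) (.g (nat_lit 2172) (.e (nat_lit 7261) (nat_lit 384) (.e (nat_lit 57412) (nat_lit 12) (.e (nat_lit 336061) (nat_lit 7) (.e (nat_lit 319531) (nat_lit 16) (.e (nat_lit 286755) (nat_lit 10) (.e (nat_lit 344160) (nat_lit 37) (.e (nat_lit 647201) (nat_lit 12) (.e (nat_lit 57351) (nat_lit 0) .nil)))))))) (.g (nat_lit 4) .nil .nil))))) (.nd (nat_lit 4) (.nd (nat_lit 5) 
(.lf (nat_lit 123214) (.g (nat_lit 3065) (.e (nat_lit 7261) (nat_lit 384) (.e (nat_lit 57411) (nat_lit 12) (.e (nat_lit 336211) (nat_lit 13) (.e (nat_lit 393300) (nat_lit 27) (.e (nat_lit 491560) (nat_lit 10) (.e (nat_lit 344090) (nat_lit 18) .nil)))))) (.g (nat_lit 0) .nil .nil))) 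
(.lf (nat_lit 123246) (.g (nat_lit 1411) (.e (nat_lit 7261) (nat_lit 384) (.e (nat_lit 57412) (nat_lit 12) (.e (nat_lit 336060) (nat_lit 7) (.e (nat_lit 319533) (nat_lit 16) (.e (nat_lit 286753) (nat_lit 10) .nil))))) .nil))) (.nd (nat_lit 5) 
(.lf (nat_lit 123230) (.g (nat_lit 2357) (.e (nat_lit 7261) (nat_lit 384) (.e (nat_lit 57412) (nat_lit 12) (.e (nat_lit 336020) (nat_lit 3) (.e (nat_lit 98372) (nat_lit 29) (.e (nat_lit 450586) (nat_lit 10) (.e (nat_lit 573478) (nat_lit 12) (.e (nat_lit 57353) (nat_lit 0) .nil))))))) (.g (nat_lit 6) .nil .nil))) 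
(.lf (nat_lit 123262) (.g (nat_lit 478) (.e (nat_lit 7261) (nat_lit 384) (.e (nat_lit 57412) (nat_lit 12) (.e (nat_lit 336097) (nat_lit 9) .nil))) .nil))))))) (.nd (nat_lit 1) (.nd (nat_lit 2) (.nd (nat_lit 3) (.nd (nat_lit 4) (.nd (nat_lit 5) 
(.lf (nat_lit 123201) (.g (nat_lit 2846) (.e (nat_lit 7261) (nat_lit 384) (.e (nat_lit 57411) (nat_lit 12) (.e (nat_lit 336211) (nat_lit 13) (.e (nat_lit 393233) (nat_lit 17) (.e (nat_lit 7591) (nat_lit 407) (.e (nat_lit 73729) (nat_lit 0) .nil)))))) (.g (nat_lit 6) .nil .nil))) 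
(.lf (nat_lit 123233) (.g (nat_lit 3914) (.e (nat_lit 7261) (nat_lit 384) (.e (nat_lit 57412) (nat_lit 12) (.e (nat_lit 336020) (nat_lit 3) (.e (nat_lit 98373) (nat_lit 29) (.e (nat_lit 450588) (nat_lit 10) (.e (nat_lit 573473) (nat_lit 12) (.e (nat_lit 57348) (nat_lit 0) .nil))))))) (.g (nat_lit 0) .nil .nil)))) (.nd (nat_lit 5) 
(.lf (nat_lit 123217) (.g (nat_lit 3478) (.e (nat_lit 7261) (nat_lit 384) (.e (nat_lit 57411) (nat_lit 12) (.e (nat_lit 336211) (nat_lit 13) (.e (nat_lit 393301) (nat_lit 27) (.e (nat_lit 491558) (nat_lit 10) (.e (nat_lit 344095) (nat_lit 18) .nil)))))) (.g (nat_lit 6) .nil .nil))) 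
(.lf (nat_lit 123249) (.g (nat_lit 3172) (.e (nat_lit 7261) (nat_lit 384) (.e (nat_lit 57412) (nat_lit 12) (.e (nat_lit 336060) (nat_lit 7) (.e (nat_lit 319534) (nat_lit 16) (.e (nat_lit 286756) (nat_lit 10) (.e (nat_lit 344160) (nat_lit 37) (.e (nat_lit 647201) (nat_lit 12) (.e (nat_lit 57351) (nat_lit 0) .nil)))))))) (.g (nat_lit 8) .nil .nil))))) (.nd (nat_lit 4) (.nd (nat_lit 5) 
(.lf (nat_lit 123209) (.g (nat_lit 2908) (.e (nat_lit 7261) (nat_lit 384) (.e (nat_lit 57411) (nat_lit 12) (.e (nat_lit 336211) (nat_lit 13) (.e (nat_lit 393299) (nat_lit 27) (.e (nat_lit 491558) (nat_lit 10) (.e (nat_lit 344095) (nat_lit 18) .nil)))))) (.g (nat_lit 5) .nil .nil))) 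
(.lf (nat_lit 123241) (.g (nat_lit 5351) (.e (nat_lit 7261) (nat_lit 384) (.e (nat_lit 57412) (nat_lit 12) (.e (nat_lit 336024) (nat_lit 3) (.e (nat_lit 98373) (nat_lit 29) (.e (nat_lit 450588) (nat_lit 10) (.e (nat_lit 573475) (nat_lit 12) (.e (nat_lit 57347) (nat_lit 0) .nil))))))) (.g (nat_lit 7) .nil .nil)))) (.nd (nat_lit 5) 
(.lf (nat_lit 123225) (.g (nat_lit 3041) (.e (nat_lit 7261) (nat_lit 384) (.e (nat_lit 57412) (nat_lit 12) (.e (nat_lit 336020) (nat_lit 3) (.e (nat_lit 98359) (nat_lit 26) (.e (nat_lit 426286) (nat_lit 10) (.e (nat_lit 434247) (nat_lit 28) (.e (nat_lit 573478) (nat_lit 12) (.e (nat_lit 57353) (nat_lit 0) .nil)))))))) (.g (nat_lit 7) .nil .nil))) 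
(.lf (nat_lit 123257) (.g (nat_lit 3060) (.e (nat_lit 7261) (nat_lit 384) (.e (nat_lit 57412) (nat_lit 12) (.e (nat_lit 336061) (nat_lit 7) (.e (nat_lit 319533) (nat_lit 16) (.e (nat_lit 286753) (nat_lit 10) (.e (nat_lit 344160) (nat_lit 37) (.e (nat_lit 647200) (nat_lit 12) (.e (nat_lit 57348) (nat_lit 0) .nil)))))))) (.g (nat_lit 5) .nil .nil)))))) 
(.nd (nat_lit 3) (.nd (nat_lit 4) (.nd (nat_lit 5) 
(.lf (nat_lit 123205) (.g (nat_lit 2068) (.e (nat_lit 7261) (nat_lit 384) (.e (nat_lit 57411) (nat_lit 12) (.e (nat_lit 336211) (nat_lit 13) (.e (nat_lit 393233) (nat_lit 17) (.e (nat_lit 7593) (nat_lit 407) (.e (nat_lit 73731) (nat_lit 0) .nil)))))) (.g (nat_lit 5) .nil .nil))) 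
(.lf (nat_lit 123237) (.g (nat_lit 2658) (.e (nat_lit 7261) (nat_lit 384) (.e (nat_lit 57412) (nat_lit 12) (.e (nat_lit 336024) (nat_lit 3) (.e (nat_lit 98373) (nat_lit 29) (.e (nat_lit 450587) (nat_lit 10) (.e (nat_lit 573478) (nat_lit 12) (.e (nat_lit 57351) (nat_lit 0) .nil))))))) (.g (nat_lit 5) .nil .nil)))) (.nd (nat_lit 5) 
(.lf (nat_lit 123221) (.g (nat_lit 3619) (.e (nat_lit 7261) (nat_lit 384) (.e (nat_lit 57412) (nat_lit 12) (.e (nat_lit 336020) (nat_lit 3) (.e (nat_lit 98359) (nat_lit 26) (.e (nat_lit 426286) (nat_lit 10) (.e (nat_lit 434245) (nat_lit 28) (.e (nat_lit 573473) (nat_lit 12) (.e (nat_lit 57348) (nat_lit 0) .nil)))))))) (.g (nat_lit 0) .nil .nil))) 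
(.lf (nat_lit 123253) (.g (nat_lit 2408) (.e (nat_lit 7261) (nat_lit 384) (.e (nat_lit 57412) (nat_lit 12) (.e (nat_lit 336061) (nat_lit 7) (.e (nat_lit 319531) (nat_lit 16) (.e (nat_lit 286753) (nat_lit 10) (.e (nat_lit 344160) (nat_lit 37) (.e (nat_lit 647200) (nat_lit 12) (.e (nat_lit 57348) (nat_lit 0) .nil)))))))) (.g (nat_lit 4) .nil .nil))))) (.nd (nat_lit 4) (.nd (nat_lit 5) 
(.lf (nat_lit 123213) (.g (nat_lit 3107) (.e (nat_lit 7261) (nat_lit 384) (.e (nat_lit 57411) (nat_lit 12) (.e (nat_lit 336211) (nat_lit 13) (.e (nat_lit 393300) (nat_lit 27) (.e (nat_lit 491558) (nat_lit 10) (.e (nat_lit 344096) (nat_lit 18) .nil)))))) (.g (nat_lit 6) .nil .nil))) 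
(.lf (nat_lit 123245) (.g (nat_lit 3266) (.e (nat_lit 7261) (nat_lit 384) (.e (nat_lit 57412) (nat_lit 12) (.e (nat_lit 336058) (nat_lit 7) (.e (nat_lit 319534) (nat_lit 16) (.e (nat_lit 286756) (nat_lit 10) (.e (nat_lit 344160) (nat_lit 37) (.e (nat_lit 647201) (nat_lit 12) (.e (nat_lit 57351) (nat_lit 0) .nil)))))))) (.g (nat_lit 6) .nil .nil)))) (.nd (nat_lit 5) 
(.lf (nat_lit 123229) (.g (nat_lit 2619) (.e (nat_lit 7261) (nat_lit 384) (.e (nat_lit 57412) (nat_lit 12) (.e (nat_lit 336020) (nat_lit 3) (.e (nat_lit 98372) (nat_lit 29) (.e (nat_lit 450586) (nat_lit 10) (.e (nat_lit 573477) (nat_lit 12) (.e (nat_lit 57353) (nat_lit 0) .nil))))))) (.g (nat_lit 0) .nil .nil))) 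
(.lf (nat_lit 123261) (.g (nat_lit 4067) (.e (nat_lit 7261) (nat_lit 384) (.e (nat_lit 57412) (nat_lit 12) (.e (nat_lit 336061) (nat_lit 7) (.e (nat_lit 319534) (nat_lit 16) (.e (nat_lit 286756) (nat_lit 10) (.e (nat_lit 344160) (nat_lit 37) (.e (nat_lit 647201) (nat_lit 12) (.e (nat_lit 57351) (nat_lit 0) .nil)))))))) (.g (nat_lit 8) .nil .nil))))))) 
(.nd (nat_lit 2) (.nd (nat_lit 3) (.nd (nat_lit 4) (.nd (nat_lit 5) 
(.lf (nat_lit 123203) (.g (nat_lit 3096) (.e (nat_lit 7261) (nat_lit 384) (.e (nat_lit 57411) (nat_lit 12) (.e (nat_lit 336211) (nat_lit 13) (.e (nat_lit 393233) (nat_lit 17) (.e (nat_lit 7593) (nat_lit 407) (.e (nat_lit 73729) (nat_lit 0) .nil)))))) (.g (nat_lit 0) .nil .nil))) 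
(.lf (nat_lit 123235) (.g (nat_lit 3105) (.e (nat_lit 7261) (nat_lit 384) (.e (nat_lit 57412) (nat_lit 12) (.e (nat_lit 336024) (nat_lit 3) (.e (nat_lit 98373) (nat_lit 29) (.e (nat_lit 450587) (nat_lit 10) (.e (nat_lit 573477) (nat_lit 12) (.e (nat_lit 57352) (nat_lit 0) .nil))))))) (.g (nat_lit 6) .nil .nil)))) (.nd (nat_lit 5) 
(.lf (nat_lit 123219) (.g (nat_lit 3449) (.e (nat_lit 7261) (nat_lit 384) (.e (nat_lit 57411) (nat_lit 12) (.e (nat_lit 336211) (nat_lit 13) (.e (nat_lit 393301) (nat_lit 27) (.e (nat_lit 491560) (nat_lit 10) (.e (nat_lit 344094) (nat_lit 18) .nil)))))) (.g (nat_lit 5) .nil .nil))) 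
(.lf (nat_lit 123251) (.g (nat_lit 2345) (.e (nat_lit 7261) (nat_lit 384) (.e (nat_lit 57412) (nat_lit 12) (.e (nat_lit 336061) (nat_lit 7) (.e (nat_lit 319531) (nat_lit 16) (.e (nat_lit 286751) (nat_lit 10) (.e (nat_lit 344161) (nat_lit 37) (.e (nat_lit 647201) (nat_lit 12) (.e (nat_lit 57351) (nat_lit 0) .nil)))))))) (.g (nat_lit 5) .nil .nil))))) (.nd (nat_lit 4) (.nd (nat_lit 5) 
(.lf (nat_lit 123211) (.g (nat_lit 3038) (.e (nat_lit 7261) (nat_lit 384) (.e (nat_lit 57411) (nat_lit 12) (.e (nat_lit 336211) (nat_lit 13) (.e (nat_lit 393300) (nat_lit 27) (.e (nat_lit 491558) (nat_lit 10) (.e (nat_lit 344091) (nat_lit 18) .nil)))))) (.g (nat_lit 6) .nil .nil))) 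
(.lf (nat_lit 123243) (.g (nat_lit 2784) (.e (nat_lit 7261) (nat_lit 384) (.e (nat_lit 57412) (nat_lit 12) (.e (nat_lit 336054) (nat_lit 7) (.e (nat_lit 319534) (nat_lit 16) (.e (nat_lit 286756) (nat_lit 10) (.e (nat_lit 344160) (nat_lit 37) (.e (nat_lit 647201) (nat_lit 12) (.e (nat_lit 57351) (nat_lit 0) .nil)))))))) (.g (nat_lit 5) .nil .nil)))) (.nd (nat_lit 5) 
(.lf (nat_lit 123227) (.g (nat_lit 4533) (.e (nat_lit 7261) (nat_lit 384) (.e (nat_lit 57412) (nat_lit 12) (.e (nat_lit 336020) (nat_lit 3) (.e (nat_lit 98359) (nat_lit 26) (.e (nat_lit 426286) (nat_lit 10) (.e (nat_lit 434248) (nat_lit 28) (.e (nat_lit 573475) (nat_lit 12) (.e (nat_lit 57347) (nat_lit 0) .nil)))))))) (.g (nat_lit 0) .nil .nil))) 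
(.lf (nat_lit 123259) (.g (nat_lit 2342) (.e (nat_lit 7261) (nat_lit 384) (.e (nat_lit 57412) (nat_lit 12) (.e (nat_lit 336061) (nat_lit 7) (.e (nat_lit 319533) (nat_lit 16) (.e (nat_lit 286753) (nat_lit 10) (.e (nat_lit 344160) (nat_lit 37) (.e (nat_lit 647201) (nat_lit 12) (.e (nat_lit 57353) (nat_lit 0) .nil)))))))) (.g (nat_lit 4) .nil .nil)))))) 
(.nd (nat_lit 3) (.nd (nat_lit 4) (.nd (nat_lit 5) 
(.lf (nat_lit 123207) (.g (nat_lit 1898) (.e (nat_lit 7261) (nat_lit 384) (.e (nat_lit 57411) (nat_lit 12) (.e (nat_lit 336211) (nat_lit 13) (.e (nat_lit 393234) (nat_lit 17) (.e (nat_lit 7593) (nat_lit 407) (.e (nat_lit 73731) (nat_lit 0) .nil)))))) (.g (nat_lit 4) .nil .nil))) 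
(.lf (nat_lit 123239) (.g (nat_lit 4463) (.e (nat_lit 7261) (nat_lit 384) (.e (nat_lit 57412) (nat_lit 12) (.e (nat_lit 336024) (nat_lit 3) (.e (nat_lit 98373) (nat_lit 29) (.e (nat_lit 450588) (nat_lit 10) (.e (nat_lit 573473) (nat_lit 12) (.e (nat_lit 57352) (nat_lit 0) .nil))))))) (.g (nat_lit 7) .nil .nil)))) (.nd (nat_lit 5) 
(.lf (nat_lit 123223) (.g (nat_lit 4299) (.e (nat_lit 7261) (nat_lit 384) (.e (nat_lit 57412) (nat_lit 12) (.e (nat_lit 336020) (nat_lit 3) (.e (nat_lit 98359) (nat_lit 26) (.e (nat_lit 426286) (nat_lit 10) (.e (nat_lit 434245) (nat_lit 28) (.e (nat_lit 573474) (nat_lit 12) (.e (nat_lit 57348) (nat_lit 0) .nil)))))))) (.g (nat_lit 8) .nil .nil))) 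
(.lf (nat_lit 123255) (.g (nat_lit 3123) (.e (nat_lit 7261) (nat_lit 384) (.e (nat_lit 57412) (nat_lit 12) (.e (nat_lit 336061) (nat_lit 7) (.e (nat_lit 319531) (nat_lit 16) (.e (nat_lit 286756) (nat_lit 10) (.e (nat_lit 344160) (nat_lit 37) (.e (nat_lit 647200) (nat_lit 12) (.e (nat_lit 57348) (nat_lit 0) .nil)))))))) (.g (nat_lit 5) .nil .nil))))) (.nd (nat_lit 4) (.nd (nat_lit 5) 
(.lf (nat_lit 123215) (.g (nat_lit 2555) (.e (nat_lit 7261) (nat_lit 384) (.e (nat_lit 57411) (nat_lit 12) (.e (nat_lit 336211) (nat_lit 13) (.e (nat_lit 393300) (nat_lit 27) (.e (nat_lit 491560) (nat_lit 10) (.e (nat_lit 344094) (nat_lit 18) .nil)))))) (.g (nat_lit 5) .nil .nil))) 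
(.lf (nat_lit 123247) (.g (nat_lit 3454) (.e (nat_lit 7261) (nat_lit 384) (.e (nat_lit 57412) (nat_lit 12) (.e (nat_lit 336060) (nat_lit 7) (.e (nat_lit 319533) (nat_lit 16) (.e (nat_lit 286753) (nat_lit 10) (.e (nat_lit 344160) (nat_lit 37) (.e (nat_lit 647201) (nat_lit 12) (.e (nat_lit 57351) (nat_lit 0) .nil)))))))) (.g (nat_lit 8) .nil .nil)))) (.nd (nat_lit 5) 
(.lf (nat_lit 123231) (.g (nat_lit 3164) (.e (nat_lit 7261) (nat_lit 384) (.e (nat_lit 57412) (nat_lit 12) (.e (nat_lit 336020) (nat_lit 3) (.e (nat_lit 98373) (nat_lit 29) (.e (nat_lit 450587) (nat_lit 10) (.e (nat_lit 573477) (nat_lit 12) (.e (nat_lit 57353) (nat_lit 0) .nil))))))) (.g (nat_lit 0) .nil .nil))) 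
(.lf (nat_lit 123263) (.g (nat_lit 4051) (.e (nat_lit 7261) (nat_lit 384) (.e (nat_lit 57412) (nat_lit 12) (.e (nat_lit 336099) (nat_lit 9) (.e (nat_lit 335997) (nat_lit 1) (.e (nat_lit 57681) (nat_lit 155) (.e (nat_lit 122919) (nat_lit 15) (.e (nat_lit 360451) (nat_lit 0) .nil))))))) (.g (nat_lit 0) .nil .nil)))))))))

noncomputable def tv1644 : DT := (.nd (nat_lit 0) (.nd (nat_lit 1) (.nd (nat_lit 2) (.nd (nat_lit 3) (.nd (nat_lit 4) 
(.lf (nat_lit 123264) (.g (nat_lit 478) (.e (nat_lit 7261) (nat_lit 384) (.e (nat_lit 57412) (nat_lit 12) (.e (nat_lit 336163) (nat_lit 10) .nil))) .nil)) 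
(.lf (nat_lit 123280) (.g (nat_lit 3620) (.e (nat_lit 7261) (nat_lit 384) (.e (nat_lit 57412) (nat_lit 12) (.e (nat_lit 336176) (nat_lit 10) (.e (nat_lit 344091) (nat_lit 18) (.e (nat_lit 7122) (nat_lit 382) (.e (nat_lit 1201) (nat_lit 88) (.e (nat_lit 65610) (nat_lit 10) (.e (nat_lit 344090) (nat_lit 18) .nil)))))))) (.g (nat_lit 7) .nil .nil)))) (.nd (nat_lit 4) 
(.lf (nat_lit 123272) (.g (nat_lit 3766) (.e (nat_lit 7261) (nat_lit 384) (.e (nat_lit 57412) (nat_lit 12) (.e (nat_lit 336173) (nat_lit 10) (.e (nat_lit 344177) (nat_lit 43) (.e (nat_lit 770071) (nat_lit 8) (.e (nat_lit 65617) (nat_lit 10) (.e (nat_lit 344091) (nat_lit 18) .nil))))))) (.g (nat_lit 0) .nil .nil))) 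
(.lf (nat_lit 123288) (.g (nat_lit 2631) (.e (nat_lit 7261) (nat_lit 384) (.e (nat_lit 57412) (nat_lit 12) (.e (nat_lit 336176) (nat_lit 10) (.e (nat_lit 344091) (nat_lit 18) (.e (nat_lit 7263) (nat_lit 384) (.e (nat_lit 57426) (nat_lit 15) (.e (nat_lit 360449) (nat_lit 0) .nil))))))) (.g (nat_lit 7) .nil .nil))))) (.nd (nat_lit 3) (.nd (nat_lit 4) 
(.lf (nat_lit 123268) (.g (nat_lit 1040) (.e (nat_lit 7261) (nat_lit 384) (.e (nat_lit 57412) (nat_lit 12) (.e (nat_lit 336173) (nat_lit 10) (.e (nat_lit 344177) (nat_lit 43) .nil)))) .nil)) 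
(.lf (nat_lit 123284) (.g (nat_lit 3197) (.e (nat_lit 7261) (nat_lit 384) (.e (nat_lit 57412) (nat_lit 12) (.e (nat_lit 336176) (nat_lit 10) (.e (nat_lit 344091) (nat_lit 18) (.e (nat_lit 7261) (nat_lit 384) (.e (nat_lit 57427) (nat_lit 15) (.e (nat_lit 360451) (nat_lit 0) .nil))))))) (.g (nat_lit 0) .nil .nil)))) (.nd (nat_lit 4) 
(.lf (nat_lit 123276) (.g (nat_lit 3927) (.e (nat_lit 7261) (nat_lit 384) (.e (nat_lit 57412) (nat_lit 12) (.e (nat_lit 336173) (nat_lit 10) (.e (nat_lit 344177) (nat_lit 43) (.e (nat_lit 770072) (nat_lit 8) (.e (nat_lit 65617) (nat_lit 10) (.e (nat_lit 344091) (nat_lit 18) .nil))))))) (.g (nat_lit 0) .nil .nil))) 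
(.lf (nat_lit 123292) (.g (nat_lit 3595) (.e (nat_lit 7261) (nat_lit 384) (.e (nat_lit 57412) (nat_lit 12) (.e (nat_lit 336176) (nat_lit 10) (.e (nat_lit 344091) (nat_lit 18) (.e (nat_lit 7265) (nat_lit 384) (.e (nat_lit 57427) (nat_lit 15) (.e (nat_lit 360451) (nat_lit 0) .nil))))))) (.g (nat_lit 0) .nil .nil)))))) (.nd (nat_lit 2) (.nd (nat_lit 3) (.nd (nat_lit 4) 
(.lf (nat_lit 123266) (.g (nat_lit 1184) (.e (nat_lit 7261) (nat_lit 384) (.e (nat_lit 57412) (nat_lit 12) (.e (nat_lit 336173) (nat_lit 10) (.e (nat_lit 344174) (nat_lit 42) .nil)))) .nil)) 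
(.lf (nat_lit 123282) (.g (nat_lit 4032) (.e (nat_lit 7261) (nat_lit 384) (.e (nat_lit 57412) (nat_lit 12) (.e (nat_lit 336176) (nat_lit 10) (.e (nat_lit 344091) (nat_lit 18) (.e (nat_lit 7125) (nat_lit 382) (.e (nat_lit 1201) (nat_lit 88) (.e (nat_lit 65617) (nat_lit 10) (.e (nat_lit 344091) (nat_lit 18) .nil)))))))) (.g (nat_lit 0) .nil .nil)))) (.nd (nat_lit 4) 
(.lf (nat_lit 123274) (.g (nat_lit 3019) (.e (nat_lit 7261) (nat_lit 384) (.e (nat_lit 57412) (nat_lit 12) (.e (nat_lit 336173) (nat_lit 10) (.e (nat_lit 344177) (nat_lit 43) (.e (nat_lit 770071) (nat_lit 8) (.e (nat_lit 65619) (nat_lit 10) (.e (nat_lit 344090) (nat_lit 18) .nil))))))) (.g (nat_lit 6) .nil .nil))) 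
(.lf (nat_lit 123290) (.g (nat_lit 3499) (.e (nat_lit 7261) (nat_lit 384) (.e (nat_lit 57412) (nat_lit 12) (.e (nat_lit 336176) (nat_lit 10) (.e (nat_lit 344091) (nat_lit 18) (.e (nat_lit 7265) (nat_lit 384) (.e (nat_lit 57412) (nat_lit 12) (.e (nat_lit 336176) (nat_lit 10) (.e (nat_lit 344091) (nat_lit 18) .nil)))))))) (.g (nat_lit 0) .nil .nil))))) (.nd (nat_lit 3) (.nd (nat_lit 4) 
(.lf (nat_lit 123270) (.g (nat_lit 1962) (.e (nat_lit 7261) (nat_lit 384) (.e (nat_lit 57412) (nat_lit 12) (.e (nat_lit 336173) (nat_lit 10) (.e (nat_lit 344177) (nat_lit 43) (.e (nat_lit 770055) (nat_lit 5) (.e (nat_lit 1589) (nat_lit 111) (.e (nat_lit 360449) (nat_lit 0) .nil))))))) (.g (nat_lit 4) .nil .nil))) 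
(.lf (nat_lit 123286) (.g (nat_lit 3117) (.e (nat_lit 7261) (nat_lit 384) (.e (nat_lit 57412) (nat_lit 12) (.e (nat_lit 336176) (nat_lit 10) (.e (nat_lit 344091) (nat_lit 18) (.e (nat_lit 7263) (nat_lit 384) (.e (nat_lit 57412) (nat_lit 12) (.e (nat_lit 336176) (nat_lit 10) (.e (nat_lit 344095) (nat_lit 18) .nil)))))))) (.g (nat_lit 8) .nil .nil)))) (.nd (nat_lit 4) 
(.lf (nat_lit 123278) (.g (nat_lit 478) (.e (nat_lit 7261) (nat_lit 384) (.e (nat_lit 57412) (nat_lit 12) (.e (nat_lit 336175) (nat_lit 10) .nil))) .nil)) 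
(.lf (nat_lit 123294) (.g (nat_lit 880) (.e (nat_lit 7261) (nat_lit 384) (.e (nat_lit 57412) (nat_lit 12) (.e (nat_lit 336176) (nat_lit 10) (.e (nat_lit 344095) (nat_lit 18) .nil)))) .nil)))))) (.nd (nat_lit 1) (.nd (nat_lit 2) (.nd (nat_lit 3) (.nd (nat_lit 4) 
(.lf (nat_lit 123265) (.g (nat_lit 3248) (.e (nat_lit 7261) (nat_lit 384) (.e (nat_lit 57412) (nat_lit 12) (.e (nat_lit 336173) (nat_lit 10) (.e (nat_lit 344100) (nat_lit 18) (.e (nat_lit 7270) (nat_lit 385) (.e (nat_lit 122919) (nat_lit 15) (.e (nat_lit 360451) (nat_lit 0) .nil))))))) (.g (nat_lit 7) .nil .nil))) 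
(.lf (nat_lit 123281) (.g (nat_lit 3816) (.e (nat_lit 7261) (nat_lit 384) (.e (nat_lit 57412) (nat_lit 12) (.e (nat_lit 336176) (nat_lit 10) (.e (nat_lit 344091) (nat_lit 18) (.e (nat_lit 7124) (nat_lit 382) (.e (nat_lit 1201) (nat_lit 88) (.e (nat_lit 65617) (nat_lit 10) (.e (nat_lit 344091) (nat_lit 18) .nil)))))))) (.g (nat_lit 0) .nil .nil)))) (.nd (nat_lit 4) 
(.lf (nat_lit 123273) (.g (nat_lit 3598) (.e (nat_lit 7261) (nat_lit 384) (.e (nat_lit 57412) (nat_lit 12) (.e (nat_lit 336173) (nat_lit 10) (.e (nat_lit 344177) (nat_lit 43) (.e (nat_lit 770071) (nat_lit 8) (.e (nat_lit 65617) (nat_lit 10) (.e (nat_lit 344095) (nat_lit 18) .nil))))))) (.g (nat_lit 0) .nil .nil))) 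
(.lf (nat_lit 123289) (.g (nat_lit 3133) (.e (nat_lit 7261) (nat_lit 384) (.e (nat_lit 57412) (nat_lit 12) (.e (nat_lit 336176) (nat_lit 10) (.e (nat_lit 344091) (nat_lit 18) (.e (nat_lit 7263) (nat_lit 384) (.e (nat_lit 57427) (nat_lit 15) (.e (nat_lit 360451) (nat_lit 0) .nil))))))) (.g (nat_lit 7) .nil .nil))))) (.nd (nat_lit 3) (.nd (nat_lit 4) 
(.lf (nat_lit 123269) (.g (nat_lit 1734) (.e (nat_lit 7261) (nat_lit 384) (.e (nat_lit 57412) (nat_lit 12) (.e (nat_lit 336173) (nat_lit 10) (.e (nat_lit 344177) (nat_lit 43) (.e (nat_lit 770055) (nat_lit 5) .nil))))) .nil)) 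
(.lf (nat_lit 123285) (.g (nat_lit 3339) (.e (nat_lit 7261) (nat_lit 384) (.e (nat_lit 57412) (nat_lit 12) (.e (nat_lit 336176) (nat_lit 10) (.e (nat_lit 344091) (nat_lit 18) (.e (nat_lit 7263) (nat_lit 384) (.e (nat_lit 57412) (nat_lit 12) (.e (nat_lit 336176) (nat_lit 10) (.e (nat_lit 344091) (nat_lit 18) .nil)))))))) (.g (nat_lit 8) .nil .nil)))) (.nd (nat_lit 4) 
(.lf (nat_lit 123277) (.g (nat_lit 3755) (.e (nat_lit 7261) (nat_lit 384) (.e (nat_lit 57412) (nat_lit 12) (.e (nat_lit 336173) (nat_lit 10) (.e (nat_lit 344177) (nat_lit 43) (.e (nat_lit 770072) (nat_lit 8) (.e (nat_lit 65617) (nat_lit 10) (.e (nat_lit 344095) (nat_lit 18) .nil))))))) (.g (nat_lit 0) .nil .nil))) 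
(.lf (nat_lit 123293) (.g (nat_lit 3569) (.e (nat_lit 7261) (nat_lit 384) (.e (nat_lit 57412) (nat_lit 12) (.e (nat_lit 336176) (nat_lit 10) (.e (nat_lit 344091) (nat_lit 18) (.e (nat_lit 7266) (nat_lit 384) (.e (nat_lit 57427) (nat_lit 15) (.e (nat_lit 360451) (nat_lit 0) .nil))))))) (.g (nat_lit 0) .nil .nil)))))) (.nd (nat_lit 2) (.nd (nat_lit 3) (.nd (nat_lit 4) 
(.lf (nat_lit 123267) (.g (nat_lit 1220) (.e (nat_lit 7261) (nat_lit 384) (.e (nat_lit 57412) (nat_lit 12) (.e (nat_lit 336173) (nat_lit 10) (.e (nat_lit 344175) (nat_lit 43) .nil)))) .nil)) 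
(.lf (nat_lit 123283) (.g (nat_lit 3386) (.e (nat_lit 7261) (nat_lit 384) (.e (nat_lit 57412) (nat_lit 12) (.e (nat_lit 336176) (nat_lit 10) (.e (nat_lit 344091) (nat_lit 18) (.e (nat_lit 7261) (nat_lit 384) (.e (nat_lit 57412) (nat_lit 12) (.e (nat_lit 336176) (nat_lit 10) (.e (nat_lit 344091) (nat_lit 18) .nil)))))))) (.g (nat_lit 0) .nil .nil)))) (.nd (nat_lit 4) 
(.lf (nat_lit 123275) (.g (nat_lit 4019) (.e (nat_lit 7261) (nat_lit 384) (.e (nat_lit 57412) (nat_lit 12) (.e (nat_lit 336173) (nat_lit 10) (.e (nat_lit 344177) (nat_lit 43) (.e (nat_lit 770072) (nat_lit 8) (.e (nat_lit 65610) (nat_lit 10) (.e (nat_lit 344090) (nat_lit 18) .nil))))))) (.g (nat_lit 0) .nil .nil))) 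
(.lf (nat_lit 123291) (.g (nat_lit 3869) (.e (nat_lit 7261) (nat_lit 384) (.e (nat_lit 57412) (nat_lit 12) (.e (nat_lit 336176) (nat_lit 10) (.e (nat_lit 344091) (nat_lit 18) (.e (nat_lit 7265) (nat_lit 384) (.e (nat_lit 57427) (nat_lit 15) (.e (nat_lit 360450) (nat_lit 0) .nil))))))) (.g (nat_lit 0) .nil .nil))))) (.nd (nat_lit 3) (.nd (nat_lit 4) 
(.lf (nat_lit 123271) (.g (nat_lit 3624) (.e (nat_lit 7261) (nat_lit 384) (.e (nat_lit 57412) (nat_lit 12) (.e (nat_lit 336173) (nat_lit 10) (.e (nat_lit 344177) (nat_lit 43) (.e (nat_lit 770071) (nat_lit 8) (.e (nat_lit 65610) (nat_lit 10) (.e (nat_lit 344090) (nat_lit 18) .nil))))))) (.g (nat_lit 0) .nil .nil))) 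
(.lf (nat_lit 123287) (.g (nat_lit 3401) (.e (nat_lit 7261) (nat_lit 384) (.e (nat_lit 57412) (nat_lit 12) (.e (nat_lit 336176) (nat_lit 10) (.e (nat_lit 344091) (nat_lit 18) (.e (nat_lit 7263) (nat_lit 384) (.e (nat_lit 57412) (nat_lit 12) (.e (nat_lit 336176) (nat_lit 10) (.e (nat_lit 344096) (nat_lit 18) .nil)))))))) (.g (nat_lit 8) .nil .nil)))) (.nd (nat_lit 4) 
(.lf (nat_lit 123279) (.g (nat_lit 301) (.e (nat_lit 7261) (nat_lit 384) (.e (nat_lit 57412) (nat_lit 12) (.e (nat_lit 336176) (nat_lit 10) .nil))) .nil)) 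
(.lf (nat_lit 123295) (.g (nat_lit 3167) (.e (nat_lit 7261) (nat_lit 384) (.e (nat_lit 57412) (nat_lit 12) (.e (nat_lit 336176) (nat_lit 10) (.e (nat_lit 344095) (nat_lit 18) (.e (nat_lit 7261) (nat_lit 384) (.e (nat_lit 57412) (nat_lit 12) (.e (nat_lit 336176) (nat_lit 10) (.e (nat_lit 344091) (nat_lit 18) .nil)))))))) (.g (nat_lit 0) .nil .nil))))))))

noncomputable def tv1645 : DT := (.nd (nat_lit 0) (.nd (nat_lit 1) (.nd (nat_lit 2) (.nd (nat_lit 3) (.nd (nat_lit 4) 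
(.lf (nat_lit 123296) (.g (nat_lit 2975) (.e (nat_lit 7261) (nat_lit 384) (.e (nat_lit 57412) (nat_lit 12) (.e (nat_lit 336176) (nat_lit 10) (.e (nat_lit 344095) (nat_lit 18) (.e (nat_lit 7261) (nat_lit 384) (.e (nat_lit 57427) (nat_lit 15) (.e (nat_lit 360451) (nat_lit 0) .nil))))))) (.g (nat_lit 0) .nil .nil))) 
(.lf (nat_lit 123312) (.g (nat_lit 3652) (.e (nat_lit 7261) (nat_lit 384) (.e (nat_lit 57412) (nat_lit 12) (.e (nat_lit 336176) (nat_lit 10) (.e (nat_lit 344096) (nat_lit 18) (.e (nat_lit 7265) (nat_lit 384) (.e (nat_lit 57427) (nat_lit 15) (.e (nat_lit 360451) (nat_lit 0) .nil))))))) (.g (nat_lit 0) .nil .nil)))) (.nd (nat_lit 4) 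
(.lf (nat_lit 123304) (.g (nat_lit 3253) (.e (nat_lit 7261) (nat_lit 384) (.e (nat_lit 57412) (nat_lit 12) (.e (nat_lit 336176) (nat_lit 10) (.e (nat_lit 344096) (nat_lit 18) (.e (nat_lit 7263) (nat_lit 384) (.e (nat_lit 57412) (nat_lit 12) (.e (nat_lit 336176) (nat_lit 10) (.e (nat_lit 344091) (nat_lit 18) .nil)))))))) (.g (nat_lit 8) .nil .nil))) 
(.lf (nat_lit 123320) (.g (nat_lit 1641) (.e (nat_lit 7261) (nat_lit 384) (.e (nat_lit 57412) (nat_lit 12) (.e (nat_lit 336176) (nat_lit 10) (.e (nat_lit 344176) (nat_lit 43) (.e (nat_lit 770072) (nat_lit 8) (.e (nat_lit 65610) (nat_lit 10) (.e (nat_lit 344090) (nat_lit 18) .nil))))))) (.g (nat_lit 4) .nil .nil))))) (.nd (nat_lit 3) (.nd (nat_lit 4) 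
(.lf (nat_lit 123300) (.g (nat_lit 4253) (.e (nat_lit 7261) (nat_lit 384) (.e (nat_lit 57412) (nat_lit 12) (.e (nat_lit 336176) (nat_lit 10) (.e (nat_lit 344096) (nat_lit 18) (.e (nat_lit 7125) (nat_lit 382) (.e (nat_lit 1201) (nat_lit 88) (.e (nat_lit 65617) (nat_lit 10) (.e (nat_lit 344091) (nat_lit 18) .nil)))))))) (.g (nat_lit 0) .nil .nil))) 
(.lf (nat_lit 123316) (.g (nat_lit 903) (.e (nat_lit 7261) (nat_lit 384) (.e (nat_lit 57412) (nat_lit 12) (.e (nat_lit 336176) (nat_lit 10) (.e (nat_lit 344173) (nat_lit 42) .nil)))) .nil))) (.nd (nat_lit 4) 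
(.lf (nat_lit 123308) (.g (nat_lit 1866) (.e (nat_lit 7261) (nat_lit 384) (.e (nat_lit 57412) (nat_lit 12) (.e (nat_lit 336176) (nat_lit 10) (.e (nat_lit 344096) (nat_lit 18) (.e (nat_lit 7263) (nat_lit 384) (.e (nat_lit 57426) (nat_lit 15) (.e (nat_lit 360451) (nat_lit 0) .nil))))))) (.g (nat_lit 5) .nil .nil))) 
(.lf (nat_lit 123324) (.g (nat_lit 3719) (.e (nat_lit 7261) (nat_lit 384) (.e (nat_lit 57412) (nat_lit 12) (.e (nat_lit 336176) (nat_lit 10) (.e (nat_lit 344177) (nat_lit 43) (.e (nat_lit 770072) (nat_lit 8) (.e (nat_lit 65617) (nat_lit 10) (.e (nat_lit 344091) (nat_lit 18) .nil))))))) (.g (nat_lit 0) .nil .nil)))))) (.nd (nat_lit 2) (.nd (nat_lit 3) (.nd (nat_lit 4) 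
(.lf (nat_lit 123298) (.g (nat_lit 2794) (.e (nat_lit 7261) (nat_lit 384) (.e (nat_lit 57412) (nat_lit 12) (.e (nat_lit 336176) (nat_lit 10) (.e (nat_lit 344095) (nat_lit 18) (.e (nat_lit 7263) (nat_lit 384) (.e (nat_lit 57427) (nat_lit 15) (.e (nat_lit 360451) (nat_lit 0) .nil))))))) (.g (nat_lit 0) .nil .nil))) 
(.lf (nat_lit 123314) (.g (nat_lit 3768) (.e (nat_lit 7261) (nat_lit 384) (.e (nat_lit 57412) (nat_lit 12) (.e (nat_lit 336176) (nat_lit 10) (.e (nat_lit 344096) (nat_lit 18) (.e (nat_lit 7266) (nat_lit 384) (.e (nat_lit 57427) (nat_lit 15) (.e (nat_lit 360451) (nat_lit 0) .nil))))))) (.g (nat_lit 0) .nil .nil)))) (.nd (nat_lit 4) 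
(.lf (nat_lit 123306) (.g (nat_lit 3315) (.e (nat_lit 7261) (nat_lit 384) (.e (nat_lit 57412) (nat_lit 12) (.e (nat_lit 336176) (nat_lit 10) (.e (nat_lit 344096) (nat_lit 18) (.e (nat_lit 7263) (nat_lit 384) (.e (nat_lit 57412) (nat_lit 12) (.e (nat_lit 336176) (nat_lit 10) (.e (nat_lit 344096) (nat_lit 18) .nil)))))))) (.g (nat_lit 8) .nil .nil))) 
(.lf (nat_lit 123322) (.g (nat_lit 3600) (.e (nat_lit 7261) (nat_lit 384) (.e (nat_lit 57412) (nat_lit 12) (.e (nat_lit 336176) (nat_lit 10) (.e (nat_lit 344177) (nat_lit 43) (.e (nat_lit 770071) (nat_lit 8) (.e (nat_lit 65617) (nat_lit 10) (.e (nat_lit 344091) (nat_lit 18) .nil))))))) (.g (nat_lit 0) .nil .nil))))) (.nd (nat_lit 3) (.nd (nat_lit 4) 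
(.lf (nat_lit 123302) (.g (nat_lit 3526) (.e (nat_lit 7261) (nat_lit 384) (.e (nat_lit 57412) (nat_lit 12) (.e (nat_lit 336176) (nat_lit 10) (.e (nat_lit 344096) (nat_lit 18) (.e (nat_lit 7261) (nat_lit 384) (.e (nat_lit 57427) (nat_lit 15) (.e (nat_lit 360450) (nat_lit 0) .nil))))))) (.g (nat_lit 0) .nil .nil))) 
(.lf (nat_lit 123318) (.g (nat_lit 904) (.e (nat_lit 7261) (nat_lit 384) (.e (nat_lit 57412) (nat_lit 12) (.e (nat_lit 336176) (nat_lit 10) (.e (nat_lit 344175) (nat_lit 43) .nil)))) .nil))) (.nd (nat_lit 4) 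
(.lf (nat_lit 123310) (.g (nat_lit 3555) (.e (nat_lit 7261) (nat_lit 384) (.e (nat_lit 57412) (nat_lit 12) (.e (nat_lit 336176) (nat_lit 10) (.e (nat_lit 344096) (nat_lit 18) (.e (nat_lit 7265) (nat_lit 384) (.e (nat_lit 57412) (nat_lit 12) (.e (nat_lit 336176) (nat_lit 10) (.e (nat_lit 344091) (nat_lit 18) .nil)))))))) (.g (nat_lit 0) .nil .nil))) 
(.lf (nat_lit 123326) (.g (nat_lit 1766) (.e (nat_lit 7261) (nat_lit 384) (.e (nat_lit 57412) (nat_lit 12) (.e (nat_lit 336212) (nat_lit 13) (.e (nat_lit 393231) (nat_lit 17) (.e (nat_lit 7591) (nat_lit 407) (.e (nat_lit 73731) (nat_lit 0) .nil)))))) (.g (nat_lit 0) .nil .nil))))))) (.nd (nat_lit 1) (.nd (nat_lit 2) (.nd (nat_lit 3) (.nd (nat_lit 4) 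
(.lf (nat_lit 123297) (.g (nat_lit 3034) (.e (nat_lit 7261) (nat_lit 384) (.e (nat_lit 57412) (nat_lit 12) (.e (nat_lit 336176) (nat_lit 10) (.e (nat_lit 344095) (nat_lit 18) (.e (nat_lit 7263) (nat_lit 384) (.e (nat_lit 57412) (nat_lit 12) (.e (nat_lit 336176) (nat_lit 10) (.e (nat_lit 344091) (nat_lit 18) .nil)))))))) (.g (nat_lit 0) .nil .nil))) 
(.lf (nat_lit 123313) (.g (nat_lit 3191) (.e (nat_lit 7261) (nat_lit 384) (.e (nat_lit 57412) (nat_lit 12) (.e (nat_lit 336176) (nat_lit 10) (.e (nat_lit 344096) (nat_lit 18) (.e (nat_lit 7266) (nat_lit 384) (.e (nat_lit 57426) (nat_lit 15) (.e (nat_lit 360449) (nat_lit 0) .nil))))))) (.g (nat_lit 0) .nil .nil)))) (.nd (nat_lit 4) 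
(.lf (nat_lit 123305) (.g (nat_lit 3031) (.e (nat_lit 7261) (nat_lit 384) (.e (nat_lit 57412) (nat_lit 12) (.e (nat_lit 336176) (nat_lit 10) (.e (nat_lit 344096) (nat_lit 18) (.e (nat_lit 7263) (nat_lit 384) (.e (nat_lit 57412) (nat_lit 12) (.e (nat_lit 336176) (nat_lit 10) (.e (nat_lit 344095) (nat_lit 18) .nil)))))))) (.g (nat_lit 8) .nil .nil))) 
(.lf (nat_lit 123321) (.g (nat_lit 819) (.e (nat_lit 7261) (nat_lit 384) (.e (nat_lit 57412) (nat_lit 12) (.e (nat_lit 336176) (nat_lit 10) (.e (nat_lit 344177) (nat_lit 43) .nil)))) .nil)))) (.nd (nat_lit 3) (.nd (nat_lit 4) 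
(.lf (nat_lit 123301) (.g (nat_lit 1501) (.e (nat_lit 7261) (nat_lit 384) (.e (nat_lit 57412) (nat_lit 12) (.e (nat_lit 336176) (nat_lit 10) (.e (nat_lit 344096) (nat_lit 18) (.e (nat_lit 7261) (nat_lit 384) (.e (nat_lit 57426) (nat_lit 15) (.e (nat_lit 360450) (nat_lit 0) .nil))))))) (.g (nat_lit 4) .nil .nil))) 
(.lf (nat_lit 123317) (.g (nat_lit 899) (.e (nat_lit 7261) (nat_lit 384) (.e (nat_lit 57412) (nat_lit 12) (.e (nat_lit 336176) (nat_lit 10) (.e (nat_lit 344174) (nat_lit 42) .nil)))) .nil))) (.nd (nat_lit 4) 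
(.lf (nat_lit 123309) (.g (nat_lit 3072) (.e (nat_lit 7261) (nat_lit 384) (.e (nat_lit 57412) (nat_lit 12) (.e (nat_lit 336176) (nat_lit 10) (.e (nat_lit 344096) (nat_lit 18) (.e (nat_lit 7263) (nat_lit 384) (.e (nat_lit 57427) (nat_lit 15) (.e (nat_lit 360451) (nat_lit 0) .nil))))))) (.g (nat_lit 7) .nil .nil))) 
(.lf (nat_lit 123325) (.g (nat_lit 3739) (.e (nat_lit 7261) (nat_lit 384) (.e (nat_lit 57412) (nat_lit 12) (.e (nat_lit 336176) (nat_lit 10) (.e (nat_lit 344177) (nat_lit 43) (.e (nat_lit 770072) (nat_lit 8) (.e (nat_lit 65619) (nat_lit 10) (.e (nat_lit 344090) (nat_lit 18) .nil))))))) (.g (nat_lit 0) .nil .nil)))))) (.nd (nat_lit 2) (.nd (nat_lit 3) (.nd (nat_lit 4) 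
(.lf (nat_lit 123299) (.g (nat_lit 3822) (.e (nat_lit 7261) (nat_lit 384) (.e (nat_lit 57412) (nat_lit 12) (.e (nat_lit 336176) (nat_lit 10) (.e (nat_lit 344096) (nat_lit 18) (.e (nat_lit 7124) (nat_lit 382) (.e (nat_lit 1201) (nat_lit 88) (.e (nat_lit 65617) (nat_lit 10) (.e (nat_lit 344091) (nat_lit 18) .nil)))))))) (.g (nat_lit 0) .nil .nil))) 
(.lf (nat_lit 123315) (.g (nat_lit 2811) (.e (nat_lit 7261) (nat_lit 384) (.e (nat_lit 57412) (nat_lit 12) (.e (nat_lit 336176) (nat_lit 10) (.e (nat_lit 344100) (nat_lit 18) (.e (nat_lit 7270) (nat_lit 385) (.e (nat_lit 122919) (nat_lit 15) (.e (nat_lit 360451) (nat_lit 0) .nil))))))) (.g (nat_lit 7) .nil .nil)))) (.nd (nat_lit 4) 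
(.lf (nat_lit 123307) (.g (nat_lit 2546) (.e (nat_lit 7261) (nat_lit 384) (.e (nat_lit 57412) (nat_lit 12) (.e (nat_lit 336176) (nat_lit 10) (.e (nat_lit 344096) (nat_lit 18) (.e (nat_lit 7263) (nat_lit 384) (.e (nat_lit 57426) (nat_lit 15) (.e (nat_lit 360449) (nat_lit 0) .nil))))))) (.g (nat_lit 7) .nil .nil))) 
(.lf (nat_lit 123323) (.g (nat_lit 2847) (.e (nat_lit 7261) (nat_lit 384) (.e (nat_lit 57412) (nat_lit 12) (.e (nat_lit 336176) (nat_lit 10) (.e (nat_lit 344177) (nat_lit 43) (.e (nat_lit 770071) (nat_lit 8) (.e (nat_lit 65619) (nat_lit 10) (.e (nat_lit 344090) (nat_lit 18) .nil))))))) (.g (nat_lit 6) .nil .nil))))) (.nd (nat_lit 3) (.nd (nat_lit 4) 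
(.lf (nat_lit 123303) (.g (nat_lit 3257) (.e (nat_lit 7261) (nat_lit 384) (.e (nat_lit 57412) (nat_lit 12) (.e (nat_lit 336176) (nat_lit 10) (.e (nat_lit 344096) (nat_lit 18) (.e (nat_lit 7261) (nat_lit 384) (.e (nat_lit 57427) (nat_lit 15) (.e (nat_lit 360451) (nat_lit 0) .nil))))))) (.g (nat_lit 0) .nil .nil))) 
(.lf (nat_lit 123319) (.g (nat_lit 1421) (.e (nat_lit 7261) (nat_lit 384) (.e (nat_lit 57412) (nat_lit 12) (.e (nat_lit 336176) (nat_lit 10) (.e (nat_lit 344176) (nat_lit 43) (.e (nat_lit 770071) (nat_lit 8) .nil))))) .nil))) (.nd (nat_lit 4) 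
(.lf (nat_lit 123311) (.g (nat_lit 3923) (.e (nat_lit 7261) (nat_lit 384) (.e (nat_lit 57412) (nat_lit 12) (.e (nat_lit 336176) (nat_lit 10) (.e (nat_lit 344096) (nat_lit 18) (.e (nat_lit 7265) (nat_lit 384) (.e (nat_lit 57427) (nat_lit 15) (.e (nat_lit 360450) (nat_lit 0) .nil))))))) (.g (nat_lit 0) .nil .nil))) 
(.lf (nat_lit 123327) (.g (nat_lit 2056) (.e (nat_lit 7261) (nat_lit 384) (.e (nat_lit 57412) (nat_lit 12) (.e (nat_lit 336212) (nat_lit 13) (.e (nat_lit 393231) (nat_lit 17) (.e (nat_lit 7593) (nat_lit 407) (.e (nat_lit 73730) (nat_lit 0) .nil)))))) (.g (nat_lit 0) .nil .nil))))))))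

noncomputable def tv1646 : DT := (.nd (nat_lit 0) (.nd (nat_lit 1) (.nd (nat_lit 2) (.nd (nat_lit 3) (.nd (nat_lit 4) (.nd (nat_lit 5) 
(.lf (nat_lit 123328) (.g (nat_lit 2426) (.e (nat_lit 7261) (nat_lit 384) (.e (nat_lit 57412) (nat_lit 12) (.e (nat_lit 336212) (nat_lit 13) (.e (nat_lit 393232) (nat_lit 17) (.e (nat_lit 7591) (nat_lit 407) (.e (nat_lit 73729) (nat_lit 0) .nil)))))) (.g (nat_lit 6) .nil .nil))) 
(.lf (nat_lit 123360) (.g (nat_lit 2279) (.e (nat_lit 7261) (nat_lit 384) (.e (nat_lit 57412) (nat_lit 12) (.e (nat_lit 336219) (nat_lit 13) (.e (nat_lit 393234) (nat_lit 17) (.e (nat_lit 7593) (nat_lit 407) (.e (nat_lit 73730) (nat_lit 0) .nil)))))) (.g (nat_lit 5) .nil .nil)))) (.nd (nat_lit 5) 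
(.lf (nat_lit 123344) (.g (nat_lit 3128) (.e (nat_lit 7261) (nat_lit 384) (.e (nat_lit 57412) (nat_lit 12) (.e (nat_lit 336212) (nat_lit 13) (.e (nat_lit 393301) (nat_lit 27) (.e (nat_lit 491559) (nat_lit 10) (.e (nat_lit 344090) (nat_lit 18) .nil)))))) (.g (nat_lit 5) .nil .nil))) 
(.lf (nat_lit 123376) (.g (nat_lit 5880) (.e (nat_lit 7261) (nat_lit 384) (.e (nat_lit 57413) (nat_lit 12) (.e (nat_lit 336013) (nat_lit 2) (.e (nat_lit 90170) (nat_lit 13) (.e (nat_lit 172113) (nat_lit 10) (.e (nat_lit 434245) (nat_lit 28) (.e (nat_lit 573474) (nat_lit 12) (.e (nat_lit 57347) (nat_lit 0) .nil)))))))) (.g (nat_lit 0) .nil .nil))))) (.nd (nat_lit 4) (.nd (nat_lit 5) 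
(.lf (nat_lit 123336) (.g (nat_lit 2745) (.e (nat_lit 7261) (nat_lit 384) (.e (nat_lit 57412) (nat_lit 12) (.e (nat_lit 336212) (nat_lit 13) (.e (nat_lit 393299) (nat_lit 27) (.e (nat_lit 491558) (nat_lit 10) (.e (nat_lit 344090) (nat_lit 18) .nil)))))) (.g (nat_lit 6) .nil .nil))) 
(.lf (nat_lit 123368) (.g (nat_lit 3417) (.e (nat_lit 7261) (nat_lit 384) (.e (nat_lit 57412) (nat_lit 12) (.e (nat_lit 336219) (nat_lit 13) (.e (nat_lit 393301) (nat_lit 27) (.e (nat_lit 491558) (nat_lit 10) (.e (nat_lit 344091) (nat_lit 18) .nil)))))) (.g (nat_lit 6) .nil .nil)))) (.nd (nat_lit 5) 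
(.lf (nat_lit 123352) (.g (nat_lit 1513) (.e (nat_lit 7261) (nat_lit 384) (.e (nat_lit 57412) (nat_lit 12) (.e (nat_lit 336217) (nat_lit 13) (.e (nat_lit 393233) (nat_lit 17) (.e (nat_lit 7591) (nat_lit 407) (.e (nat_lit 73731) (nat_lit 0) .nil)))))) (.g (nat_lit 5) .nil .nil))) 
(.lf (nat_lit 123384) (.g (nat_lit 5052) (.e (nat_lit 7261) (nat_lit 384) (.e (nat_lit 57413) (nat_lit 12) (.e (nat_lit 336013) (nat_lit 2) (.e (nat_lit 90170) (nat_lit 13) (.e (nat_lit 172113) (nat_lit 10) (.e (nat_lit 434248) (nat_lit 28) (.e (nat_lit 573473) (nat_lit 12) (.e (nat_lit 57353) (nat_lit 0) .nil)))))))) (.g (nat_lit 8) .nil .nil)))))) 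
(.nd (nat_lit 3) (.nd (nat_lit 4) (.nd (nat_lit 5) 
(.lf (nat_lit 123332) (.g (nat_lit 2105) (.e (nat_lit 7261) (nat_lit 384) (.e (nat_lit 57412) (nat_lit 12) (.e (nat_lit 336212) (nat_lit 13) (.e (nat_lit 393233) (nat_lit 17) (.e (nat_lit 7591) (nat_lit 407) (.e (nat_lit 73731) (nat_lit 0) .nil)))))) (.g (nat_lit 0) .nil .nil))) 
(.lf (nat_lit 123364) (.g (nat_lit 2750) (.e (nat_lit 7261) (nat_lit 384) (.e (nat_lit 57412) (nat_lit 12) (.e (nat_lit 336219) (nat_lit 13) (.e (nat_lit 393300) (nat_lit 27) (.e (nat_lit 491558) (nat_lit 10) (.e (nat_lit 344096) (nat_lit 18) .nil)))))) (.g (nat_lit 6) .nil .nil)))) (.nd (nat_lit 5) 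
(.lf (nat_lit 123348) (.g (nat_lit 2970) (.e (nat_lit 7261) (nat_lit 384) (.e (nat_lit 57412) (nat_lit 12) (.e (nat_lit 336212) (nat_lit 13) (.e (nat_lit 393301) (nat_lit 27) (.e (nat_lit 491560) (nat_lit 10) (.e (nat_lit 344094) (nat_lit 18) .nil)))))) (.g (nat_lit 0) .nil .nil))) 
(.lf (nat_lit 123380) (.g (nat_lit 4686) (.e (nat_lit 7261) (nat_lit 384) (.e (nat_lit 57413) (nat_lit 12) (.e (nat_lit 336013) (nat_lit 2) (.e (nat_lit 90170) (nat_lit 13) (.e (nat_lit 172113) (nat_lit 10) (.e (nat_lit 434247) (nat_lit 28) (.e (nat_lit 573478) (nat_lit 12) (.e (nat_lit 57351) (nat_lit 0) .nil)))))))) (.g (nat_lit 8) .nil .nil))))) (.nd (nat_lit 4) (.nd (nat_lit 5) 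
(.lf (nat_lit 123340) (.g (nat_lit 2361) (.e (nat_lit 7261) (nat_lit 384) (.e (nat_lit 57412) (nat_lit 12) (.e (nat_lit 336212) (nat_lit 13) (.e (nat_lit 393300) (nat_lit 27) (.e (nat_lit 491560) (nat_lit 10) (.e (nat_lit 344094) (nat_lit 18) .nil)))))) (.g (nat_lit 6) .nil .nil))) 
(.lf (nat_lit 123372) (.g (nat_lit 3090) (.e (nat_lit 7261) (nat_lit 384) (.e (nat_lit 57412) (nat_lit 12) (.e (nat_lit 336219) (nat_lit 13) (.e (nat_lit 393301) (nat_lit 27) (.e (nat_lit 491560) (nat_lit 10) (.e (nat_lit 344094) (nat_lit 18) .nil)))))) (.g (nat_lit 6) .nil .nil)))) (.nd (nat_lit 5) 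
(.lf (nat_lit 123356) (.g (nat_lit 2625) (.e (nat_lit 7261) (nat_lit 384) (.e (nat_lit 57412) (nat_lit 12) (.e (nat_lit 336217) (nat_lit 13) (.e (nat_lit 393301) (nat_lit 27) (.e (nat_lit 491560) (nat_lit 10) (.e (nat_lit 344094) (nat_lit 18) .nil)))))) (.g (nat_lit 5) .nil .nil))) 
(.lf (nat_lit 123388) (.g (nat_lit 4860) (.e (nat_lit 7261) (nat_lit 384) (.e (nat_lit 57413) (nat_lit 12) (.e (nat_lit 336013) (nat_lit 2) (.e (nat_lit 90170) (nat_lit 13) (.e (nat_lit 172113) (nat_lit 10) (.e (nat_lit 434248) (nat_lit 28) (.e (nat_lit 573475) (nat_lit 12) (.e (nat_lit 57353) (nat_lit 0) .nil)))))))) (.g (nat_lit 7) .nil .nil))))))) 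
(.nd (nat_lit 2) (.nd (nat_lit 3) (.nd (nat_lit 4) (.nd (nat_lit 5) 
(.lf (nat_lit 123330) (.g (nat_lit 2184) (.e (nat_lit 7261) (nat_lit 384) (.e (nat_lit 57412) (nat_lit 12) (.e (nat_lit 336212) (nat_lit 13) (.e (nat_lit 393232) (nat_lit 17) (.e (nat_lit 7591) (nat_lit 407) (.e (nat_lit 73731) (nat_lit 0) .nil)))))) (.g (nat_lit 6) .nil .nil))) 
(.lf (nat_lit 123362) (.g (nat_lit 2659) (.e (nat_lit 7261) (nat_lit 384) (.e (nat_lit 57412) (nat_lit 12) (.e (nat_lit 336219) (nat_lit 13) (.e (nat_lit 393300) (nat_lit 27) (.e (nat_lit 491558) (nat_lit 10) (.e (nat_lit 344091) (nat_lit 18) .nil)))))) (.g (nat_lit 6) .nil .nil)))) (.nd (nat_lit 5) 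
(.lf (nat_lit 123346) (.g (nat_lit 3168) (.e (nat_lit 7261) (nat_lit 384) (.e (nat_lit 57412) (nat_lit 12) (.e (nat_lit 336212) (nat_lit 13) (.e (nat_lit 393301) (nat_lit 27) (.e (nat_lit 491560) (nat_lit 10) (.e (nat_lit 344090) (nat_lit 18) .nil)))))) (.g (nat_lit 0) .nil .nil))) 
(.lf (nat_lit 123378) (.g (nat_lit 5029) (.e (nat_lit 7261) (nat_lit 384) (.e (nat_lit 57413) (nat_lit 12) (.e (nat_lit 336013) (nat_lit 2) (.e (nat_lit 90170) (nat_lit 13) (.e (nat_lit 172113) (nat_lit 10) (.e (nat_lit 434247) (nat_lit 28) (.e (nat_lit 573477) (nat_lit 12) (.e (nat_lit 57352) (nat_lit 0) .nil)))))))) (.g (nat_lit 8) .nil .nil))))) (.nd (nat_lit 4) (.nd (nat_lit 5) 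
(.lf (nat_lit 123338) (.g (nat_lit 2744) (.e (nat_lit 7261) (nat_lit 384) (.e (nat_lit 57412) (nat_lit 12) (.e (nat_lit 336212) (nat_lit 13) (.e (nat_lit 393300) (nat_lit 27) (.e (nat_lit 491560) (nat_lit 10) (.e (nat_lit 344090) (nat_lit 18) .nil)))))) (.g (nat_lit 0) .nil .nil))) 
(.lf (nat_lit 123370) (.g (nat_lit 3419) (.e (nat_lit 7261) (nat_lit 384) (.e (nat_lit 57412) (nat_lit 12) (.e (nat_lit 336219) (nat_lit 13) (.e (nat_lit 393301) (nat_lit 27) (.e (nat_lit 491559) (nat_lit 10) (.e (nat_lit 344091) (nat_lit 18) .nil)))))) (.g (nat_lit 5) .nil .nil)))) (.nd (nat_lit 5) 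
(.lf (nat_lit 123354) (.g (nat_lit 2007) (.e (nat_lit 7261) (nat_lit 384) (.e (nat_lit 57412) (nat_lit 12) (.e (nat_lit 336217) (nat_lit 13) (.e (nat_lit 393300) (nat_lit 27) (.e (nat_lit 491558) (nat_lit 10) (.e (nat_lit 344095) (nat_lit 18) .nil)))))) (.g (nat_lit 5) .nil .nil))) 
(.lf (nat_lit 123386) (.g (nat_lit 5397) (.e (nat_lit 7261) (nat_lit 384) (.e (nat_lit 57413) (nat_lit 12) (.e (nat_lit 336013) (nat_lit 2) (.e (nat_lit 90170) (nat_lit 13) (.e (nat_lit 172113) (nat_lit 10) (.e (nat_lit 434248) (nat_lit 28) (.e (nat_lit 573475) (nat_lit 12) (.e (nat_lit 57348) (nat_lit 0) .nil)))))))) (.g (nat_lit 8) .nil .nil)))))) 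
(.nd (nat_lit 3) (.nd (nat_lit 4) (.nd (nat_lit 5) 
(.lf (nat_lit 123334) (.g (nat_lit 2408) (.e (nat_lit 7261) (nat_lit 384) (.e (nat_lit 57412) (nat_lit 12) (.e (nat_lit 336212) (nat_lit 13) (.e (nat_lit 393234) (nat_lit 17) (.e (nat_lit 7591) (nat_lit 407) (.e (nat_lit 73731) (nat_lit 0) .nil)))))) (.g (nat_lit 0) .nil .nil))) 
(.lf (nat_lit 123366) (.g (nat_lit 2299) (.e (nat_lit 7261) (nat_lit 384) (.e (nat_lit 57412) (nat_lit 12) (.e (nat_lit 336219) (nat_lit 13) (.e (nat_lit 393300) (nat_lit 27) (.e (nat_lit 491560) (nat_lit 10) (.e (nat_lit 344094) (nat_lit 18) .nil)))))) (.g (nat_lit 5) .nil .nil)))) (.nd (nat_lit 5) 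
(.lf (nat_lit 123350) (.g (nat_lit 1492) (.e (nat_lit 7261) (nat_lit 384) (.e (nat_lit 57412) (nat_lit 12) (.e (nat_lit 336216) (nat_lit 13) (.e (nat_lit 393301) (nat_lit 27) (.e (nat_lit 491559) (nat_lit 10) .nil))))) .nil)) 
(.lf (nat_lit 123382) (.g (nat_lit 5195) (.e (nat_lit 7261) (nat_lit 384) (.e (nat_lit 57413) (nat_lit 12) (.e (nat_lit 336013) (nat_lit 2) (.e (nat_lit 90170) (nat_lit 13) (.e (nat_lit 172113) (nat_lit 10) (.e (nat_lit 434248) (nat_lit 28) (.e (nat_lit 573473) (nat_lit 12) (.e (nat_lit 57348) (nat_lit 0) .nil)))))))) (.g (nat_lit 0) .nil .nil))))) (.nd (nat_lit 4) (.nd (nat_lit 5) 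
(.lf (nat_lit 123342) (.g (nat_lit 2621) (.e (nat_lit 7261) (nat_lit 384) (.e (nat_lit 57412) (nat_lit 12) (.e (nat_lit 336212) (nat_lit 13) (.e (nat_lit 393300) (nat_lit 27) (.e (nat_lit 491560) (nat_lit 10) (.e (nat_lit 344096) (nat_lit 18) .nil)))))) (.g (nat_lit 6) .nil .nil))) 
(.lf (nat_lit 123374) (.g (nat_lit 4815) (.e (nat_lit 7261) (nat_lit 384) (.e (nat_lit 57413) (nat_lit 12) (.e (nat_lit 336013) (nat_lit 2) (.e (nat_lit 90170) (nat_lit 13) (.e (nat_lit 172113) (nat_lit 10) (.e (nat_lit 434245) (nat_lit 28) (.e (nat_lit 573473) (nat_lit 12) (.e (nat_lit 57352) (nat_lit 0) .nil)))))))) (.g (nat_lit 8) .nil .nil)))) (.nd (nat_lit 5) 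
(.lf (nat_lit 123358) (.g (nat_lit 2356) (.e (nat_lit 7261) (nat_lit 384) (.e (nat_lit 57412) (nat_lit 12) (.e (nat_lit 336219) (nat_lit 13) (.e (nat_lit 393234) (nat_lit 17) (.e (nat_lit 7591) (nat_lit 407) (.e (nat_lit 73731) (nat_lit 0) .nil)))))) (.g (nat_lit 6) .nil .nil))) 
(.lf (nat_lit 123390) (.g (nat_lit 3458) (.e (nat_lit 7261) (nat_lit 384) (.e (nat_lit 57413) (nat_lit 12) (.e (nat_lit 336028) (nat_lit 3) (.e (nat_lit 98359) (nat_lit 26) (.e (nat_lit 426286) (nat_lit 10) (.e (nat_lit 434245) (nat_lit 28) (.e (nat_lit 573473) (nat_lit 12) (.e (nat_lit 57352) (nat_lit 0) .nil)))))))) (.g (nat_lit 7) .nil .nil)))))))) 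
(.nd (nat_lit 1) (.nd (nat_lit 2) (.nd (nat_lit 3) (.nd (nat_lit 4) (.nd (nat_lit 5) 
(.lf (nat_lit 123329) (.g (nat_lit 2147) (.e (nat_lit 7261) (nat_lit 384) (.e (nat_lit 57412) (nat_lit 12) (.e (nat_lit 336212) (nat_lit 13) (.e (nat_lit 393232) (nat_lit 17) (.e (nat_lit 7591) (nat_lit 407) (.e (nat_lit 73730) (nat_lit 0) .nil)))))) (.g (nat_lit 0) .nil .nil))) 
(.lf (nat_lit 123361) (.g (nat_lit 2326) (.e (nat_lit 7261) (nat_lit 384) (.e (nat_lit 57412) (nat_lit 12) (.e (nat_lit 336219) (nat_lit 13) (.e (nat_lit 393300) (nat_lit 27) (.e (nat_lit 491558) (nat_lit 10) (.e (nat_lit 344090) (nat_lit 18) .nil)))))) (.g (nat_lit 6) .nil .nil)))) (.nd (nat_lit 5) 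
(.lf (nat_lit 123345) (.g (nat_lit 3761) (.e (nat_lit 7261) (nat_lit 384) (.e (nat_lit 57412) (nat_lit 12) (.e (nat_lit 336212) (nat_lit 13) (.e (nat_lit 393301) (nat_lit 27) (.e (nat_lit 491559) (nat_lit 10) (.e (nat_lit 344091) (nat_lit 18) .nil)))))) (.g (nat_lit 0) .nil .nil))) 
(.lf (nat_lit 123377) (.g (nat_lit 5232) (.e (nat_lit 7261) (nat_lit 384) (.e (nat_lit 57413) (nat_lit 12) (.e (nat_lit 336013) (nat_lit 2) (.e (nat_lit 90170) (nat_lit 13) (.e (nat_lit 172113) (nat_lit 10) (.e (nat_lit 434245) (nat_lit 28) (.e (nat_lit 573474) (nat_lit 12) (.e (nat_lit 57351) (nat_lit 0) .nil)))))))) (.g (nat_lit 8) .nil .nil))))) (.nd (nat_lit 4) (.nd (nat_lit 5) 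
(.lf (nat_lit 123337) (.g (nat_lit 2752) (.e (nat_lit 7261) (nat_lit 384) (.e (nat_lit 57412) (nat_lit 12) (.e (nat_lit 336212) (nat_lit 13) (.e (nat_lit 393300) (nat_lit 27) (.e (nat_lit 491558) (nat_lit 10) (.e (nat_lit 344091) (nat_lit 18) .nil)))))) (.g (nat_lit 0) .nil .nil))) 
(.lf (nat_lit 123369) (.g (nat_lit 3521) (.e (nat_lit 7261) (nat_lit 384) (.e (nat_lit 57412) (nat_lit 12) (.e (nat_lit 336219) (nat_lit 13) (.e (nat_lit 393301) (nat_lit 27) (.e (nat_lit 491558) (nat_lit 10) (.e (nat_lit 344096) (nat_lit 18) .nil)))))) (.g (nat_lit 6) .nil .nil)))) (.nd (nat_lit 5) 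
(.lf (nat_lit 123353) (.g (nat_lit 1732) (.e (nat_lit 7261) (nat_lit 384) (.e (nat_lit 57412) (nat_lit 12) (.e (nat_lit 336217) (nat_lit 13) (.e (nat_lit 393300) (nat_lit 27) (.e (nat_lit 491558) (nat_lit 10) (.e (nat_lit 344090) (nat_lit 18) .nil)))))) (.g (nat_lit 5) .nil .nil))) 
(.lf (nat_lit 123385) (.g (nat_lit 5980) (.e (nat_lit 7261) (nat_lit 384) (.e (nat_lit 57413) (nat_lit 12) (.e (nat_lit 336013) (nat_lit 2) (.e (nat_lit 90170) (nat_lit 13) (.e (nat_lit 172113) (nat_lit 10) (.e (nat_lit 434248) (nat_lit 28) (.e (nat_lit 573475) (nat_lit 12) (.e (nat_lit 57347) (nat_lit 0) .nil)))))))) (.g (nat_lit 8) .nil .nil)))))) 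
(.nd (nat_lit 3) (.nd (nat_lit 4) (.nd (nat_lit 5) 
(.lf (nat_lit 123333) (.g (nat_lit 1713) (.e (nat_lit 7261) (nat_lit 384) (.e (nat_lit 57412) (nat_lit 12) (.e (nat_lit 336212) (nat_lit 13) (.e (nat_lit 393233) (nat_lit 17) (.e (nat_lit 7593) (nat_lit 407) (.e (nat_lit 73731) (nat_lit 0) .nil)))))) (.g (nat_lit 5) .nil .nil))) 
(.lf (nat_lit 123365) (.g (nat_lit 2634) (.e (nat_lit 7261) (nat_lit 384) (.e (nat_lit 57412) (nat_lit 12) (.e (nat_lit 336219) (nat_lit 13) (.e (nat_lit 393300) (nat_lit 27) (.e (nat_lit 491560) (nat_lit 10) (.e (nat_lit 344090) (nat_lit 18) .nil)))))) (.g (nat_lit 6) .nil .nil)))) (.nd (nat_lit 5) 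
(.lf (nat_lit 123349) (.g (nat_lit 3304) (.e (nat_lit 7261) (nat_lit 384) (.e (nat_lit 57412) (nat_lit 12) (.e (nat_lit 336212) (nat_lit 13) (.e (nat_lit 393301) (nat_lit 27) (.e (nat_lit 491560) (nat_lit 10) (.e (nat_lit 344095) (nat_lit 18) .nil)))))) (.g (nat_lit 5) .nil .nil))) 
(.lf (nat_lit 123381) (.g (nat_lit 4656) (.e (nat_lit 7261) (nat_lit 384) (.e (nat_lit 57413) (nat_lit 12) (.e (nat_lit 336013) (nat_lit 2) (.e (nat_lit 90170) (nat_lit 13) (.e (nat_lit 172113) (nat_lit 10) (.e (nat_lit 434247) (nat_lit 28) (.e (nat_lit 573478) (nat_lit 12) (.e (nat_lit 57353) (nat_lit 0) .nil)))))))) (.g (nat_lit 7) .nil .nil))))) (.nd (nat_lit 4) (.nd (nat_lit 5) 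
(.lf (nat_lit 123341) (.g (nat_lit 2352) (.e (nat_lit 7261) (nat_lit 384) (.e (nat_lit 57412) (nat_lit 12) (.e (nat_lit 336212) (nat_lit 13) (.e (nat_lit 393300) (nat_lit 27) (.e (nat_lit 491560) (nat_lit 10) (.e (nat_lit 344095) (nat_lit 18) .nil)))))) (.g (nat_lit 5) .nil .nil))) 
(.lf (nat_lit 123373) (.g (nat_lit 5038) (.e (nat_lit 7261) (nat_lit 384) (.e (nat_lit 57413) (nat_lit 12) (.e (nat_lit 336013) (nat_lit 2) (.e (nat_lit 90170) (nat_lit 13) (.e (nat_lit 172113) (nat_lit 10) (.e (nat_lit 434245) (nat_lit 28) (.e (nat_lit 573473) (nat_lit 12) (.e (nat_lit 57348) (nat_lit 0) .nil)))))))) (.g (nat_lit 0) .nil .nil)))) (.nd (nat_lit 5) 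
(.lf (nat_lit 123357) (.g (nat_lit 455) (.e (nat_lit 7261) (nat_lit 384) (.e (nat_lit 57412) (nat_lit 12) (.e (nat_lit 336218) (nat_lit 13) .nil))) .nil)) 
(.lf (nat_lit 123389) (.g (nat_lit 3682) (.e (nat_lit 7261) (nat_lit 384) (.e (nat_lit 57413) (nat_lit 12) (.e (nat_lit 336028) (nat_lit 3) (.e (nat_lit 98359) (nat_lit 26) (.e (nat_lit 426286) (nat_lit 10) (.e (nat_lit 434245) (nat_lit 28) (.e (nat_lit 573473) (nat_lit 12) (.e (nat_lit 57348) (nat_lit 0) .nil)))))))) (.g (nat_lit 8) .nil .nil))))))) 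
(.nd (nat_lit 2) (.nd (nat_lit 3) (.nd (nat_lit 4) (.nd (nat_lit 5) 
(.lf (nat_lit 123331) (.g (nat_lit 2163) (.e (nat_lit 7261) (nat_lit 384) (.e (nat_lit 57412) (nat_lit 12) (.e (nat_lit 336212) (nat_lit 13) (.e (nat_lit 393232) (nat_lit 17) (.e (nat_lit 7593) (nat_lit 407) (.e (nat_lit 73730) (nat_lit 0) .nil)))))) (.g (nat_lit 5) .nil .nil))) 
(.lf (nat_lit 123363) (.g (nat_lit 2463) (.e (nat_lit 7261) (nat_lit 384) (.e (nat_lit 57412) (nat_lit 12) (.e (nat_lit 336219) (nat_lit 13) (.e (nat_lit 393300) (nat_lit 27) (.e (nat_lit 491558) (nat_lit 10) (.e (nat_lit 344095) (nat_lit 18) .nil)))))) (.g (nat_lit 6) .nil .nil)))) (.nd (nat_lit 5) 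
(.lf (nat_lit 123347) (.g (nat_lit 2663) (.e (nat_lit 7261) (nat_lit 384) (.e (nat_lit 57412) (nat_lit 12) (.e (nat_lit 336212) (nat_lit 13) (.e (nat_lit 393301) (nat_lit 27) (.e (nat_lit 491560) (nat_lit 10) (.e (nat_lit 344091) (nat_lit 18) .nil)))))) (.g (nat_lit 5) .nil .nil))) 
(.lf (nat_lit 123379) (.g (nat_lit 5105) (.e (nat_lit 7261) (nat_lit 384) (.e (nat_lit 57413) (nat_lit 12) (.e (nat_lit 336013) (nat_lit 2) (.e (nat_lit 90170) (nat_lit 13) (.e (nat_lit 172113) (nat_lit 10) (.e (nat_lit 434247) (nat_lit 28) (.e (nat_lit 573477) (nat_lit 12) (.e (nat_lit 57353) (nat_lit 0) .nil)))))))) (.g (nat_lit 8) .nil .nil))))) (.nd (nat_lit 4) (.nd (nat_lit 5) 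
(.lf (nat_lit 123339) (.g (nat_lit 2430) (.e (nat_lit 7261) (nat_lit 384) (.e (nat_lit 57412) (nat_lit 12) (.e (nat_lit 336212) (nat_lit 13) (.e (nat_lit 393300) (nat_lit 27) (.e (nat_lit 491560) (nat_lit 10) (.e (nat_lit 344091) (nat_lit 18) .nil)))))) (.g (nat_lit 6) .nil .nil))) 
(.lf (nat_lit 123371) (.g (nat_lit 3514) (.e (nat_lit 7261) (nat_lit 384) (.e (nat_lit 57412) (nat_lit 12) (.e (nat_lit 336219) (nat_lit 13) (.e (nat_lit 393301) (nat_lit 27) (.e (nat_lit 491560) (nat_lit 10) (.e (nat_lit 344090) (nat_lit 18) .nil)))))) (.g (nat_lit 6) .nil .nil)))) (.nd (nat_lit 5) 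
(.lf (nat_lit 123355) (.g (nat_lit 2787) (.e (nat_lit 7261) (nat_lit 384) (.e (nat_lit 57412) (nat_lit 12) (.e (nat_lit 336217) (nat_lit 13) (.e (nat_lit 393301) (nat_lit 27) (.e (nat_lit 491558) (nat_lit 10) (.e (nat_lit 344095) (nat_lit 18) .nil)))))) (.g (nat_lit 5) .nil .nil))) 
(.lf (nat_lit 123387) (.g (nat_lit 5313) (.e (nat_lit 7261) (nat_lit 384) (.e (nat_lit 57413) (nat_lit 12) (.e (nat_lit 336013) (nat_lit 2) (.e (nat_lit 90170) (nat_lit 13) (.e (nat_lit 172113) (nat_lit 10) (.e (nat_lit 434248) (nat_lit 28) (.e (nat_lit 573475) (nat_lit 12) (.e (nat_lit 57351) (nat_lit 0) .nil)))))))) (.g (nat_lit 8) .nil .nil)))))) 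
(.nd (nat_lit 3) (.nd (nat_lit 4) (.nd (nat_lit 5) 
(.lf (nat_lit 123335) (.g (nat_lit 2396) (.e (nat_lit 7261) (nat_lit 384) (.e (nat_lit 57412) (nat_lit 12) (.e (nat_lit 336212) (nat_lit 13) (.e (nat_lit 393234) (nat_lit 17) (.e (nat_lit 7593) (nat_lit 407) (.e (nat_lit 73730) (nat_lit 0) .nil)))))) (.g (nat_lit 6) .nil .nil))) 
(.lf (nat_lit 123367) (.g (nat_lit 3303) (.e (nat_lit 7261) (nat_lit 384) (.e (nat_lit 57412) (nat_lit 12) (.e (nat_lit 336219) (nat_lit 13) (.e (nat_lit 393301) (nat_lit 27) (.e (nat_lit 491558) (nat_lit 10) (.e (nat_lit 344090) (nat_lit 18) .nil)))))) (.g (nat_lit 6) .nil .nil)))) (.nd (nat_lit 5) 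
(.lf (nat_lit 123351) (.g (nat_lit 1526) (.e (nat_lit 7261) (nat_lit 384) (.e (nat_lit 57412) (nat_lit 12) (.e (nat_lit 336217) (nat_lit 13) (.e (nat_lit 393233) (nat_lit 17) (.e (nat_lit 7591) (nat_lit 407) (.e (nat_lit 73730) (nat_lit 0) .nil)))))) (.g (nat_lit 5) .nil .nil))) 
(.lf (nat_lit 123383) (.g (nat_lit 4956) (.e (nat_lit 7261) (nat_lit 384) (.e (nat_lit 57413) (nat_lit 12) (.e (nat_lit 336013) (nat_lit 2) (.e (nat_lit 90170) (nat_lit 13) (.e (nat_lit 172113) (nat_lit 10) (.e (nat_lit 434248) (nat_lit 28) (.e (nat_lit 573473) (nat_lit 12) (.e (nat_lit 57352) (nat_lit 0) .nil)))))))) (.g (nat_lit 8) .nil .nil))))) (.nd (nat_lit 4) (.nd (nat_lit 5) 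
(.lf (nat_lit 123343) (.g (nat_lit 3287) (.e (nat_lit 7261) (nat_lit 384) (.e (nat_lit 57412) (nat_lit 12) (.e (nat_lit 336212) (nat_lit 13) (.e (nat_lit 393301) (nat_lit 27) (.e (nat_lit 491558) (nat_lit 10) (.e (nat_lit 344091) (nat_lit 18) .nil)))))) (.g (nat_lit 0) .nil .nil))) 
(.lf (nat_lit 123375) (.g (nat_lit 4908) (.e (nat_lit 7261) (nat_lit 384) (.e (nat_lit 57413) (nat_lit 12) (.e (nat_lit 336013) (nat_lit 2) (.e (nat_lit 90170) (nat_lit 13) (.e (nat_lit 172113) (nat_lit 10) (.e (nat_lit 434245) (nat_lit 28) (.e (nat_lit 573473) (nat_lit 12) (.e (nat_lit 57353) (nat_lit 0) .nil)))))))) (.g (nat_lit 8) .nil .nil)))) (.nd (nat_lit 5) 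
(.lf (nat_lit 123359) (.g (nat_lit 2689) (.e (nat_lit 7261) (nat_lit 384) (.e (nat_lit 57412) (nat_lit 12) (.e (nat_lit 336219) (nat_lit 13) (.e (nat_lit 393234) (nat_lit 17) (.e (nat_lit 7593) (nat_lit 407) (.e (nat_lit 73729) (nat_lit 0) .nil)))))) (.g (nat_lit 0) .nil .nil))) 
(.lf (nat_lit 123391) (.g (nat_lit 3549) (.e (nat_lit 7261) (nat_lit 384) (.e (nat_lit 57413) (nat_lit 12) (.e (nat_lit 336028) (nat_lit 3) (.e (nat_lit 98359) (nat_lit 26) (.e (nat_lit 426286) (nat_lit 10) (.e (nat_lit 434245) (nat_lit 28) (.e (nat_lit 573473) (nat_lit 12) (.e (nat_lit 57353) (nat_lit 0) .nil)))))))) (.g (nat_lit 7) .nil .nil)))))))))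

noncomputable def tv1647 : DT := (.nd (nat_lit 0) (.nd (nat_lit 1) (.nd (nat_lit 2) (.nd (nat_lit 3) (.nd (nat_lit 4) 
(.lf (nat_lit 123392) (.g (nat_lit 4559) (.e (nat_lit 7261) (nat_lit 384) (.e (nat_lit 57413) (nat_lit 12) (.e (nat_lit 336028) (nat_lit 3) (.e (nat_lit 98359) (nat_lit 26) (.e (nat_lit 426286) (nat_lit 10) (.e (nat_lit 434245) (nat_lit 28) (.e (nat_lit 573474) (nat_lit 12) (.e (nat_lit 57347) (nat_lit 0) .nil)))))))) (.g (nat_lit 8) .nil .nil))) 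
(.lf (nat_lit 123408) (.g (nat_lit 3348) (.e (nat_lit 7261) (nat_lit 384) (.e (nat_lit 57413) (nat_lit 12) (.e (nat_lit 336028) (nat_lit 3) (.e (nat_lit 98372) (nat_lit 29) (.e (nat_lit 450586) (nat_lit 10) (.e (nat_lit 573475) (nat_lit 12) (.e (nat_lit 57351) (nat_lit 0) .nil))))))) (.g (nat_lit 7) .nil .nil)))) (.nd (nat_lit 4) 
(.lf (nat_lit 123400) (.g (nat_lit 3566) (.e (nat_lit 7261) (nat_lit 384) (.e (nat_lit 57413) (nat_lit 12) (.e (nat_lit 336028) (nat_lit 3) (.e (nat_lit 98359) (nat_lit 26) (.e (nat_lit 426286) (nat_lit 10) (.e (nat_lit 434248) (nat_lit 28) (.e (nat_lit 573473) (nat_lit 12) (.e (nat_lit 57352) (nat_lit 0) .nil)))))))) (.g (nat_lit 7) .nil .nil))) 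
(.lf (nat_lit 123416) (.g (nat_lit 3218) (.e (nat_lit 7261) (nat_lit 384) (.e (nat_lit 57413) (nat_lit 12) (.e (nat_lit 336028) (nat_lit 3) (.e (nat_lit 98373) (nat_lit 29) (.e (nat_lit 450587) (nat_lit 10) (.e (nat_lit 573478) (nat_lit 12) (.e (nat_lit 57351) (nat_lit 0) .nil))))))) (.g (nat_lit 7) .nil .nil))))) (.nd (nat_lit 3) (.nd (nat_lit 4) 
(.lf (nat_lit 123396) (.g (nat_lit 3087) (.e (nat_lit 7261) (nat_lit 384) (.e (nat_lit 57413) (nat_lit 12) (.e (nat_lit 336028) (nat_lit 3) (.e (nat_lit 98359) (nat_lit 26) (.e (nat_lit 426286) (nat_lit 10) (.e (nat_lit 434247) (nat_lit 28) (.e (nat_lit 573478) (nat_lit 12) (.e (nat_lit 57351) (nat_lit 0) .nil)))))))) (.g (nat_lit 7) .nil .nil))) 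
(.lf (nat_lit 123412) (.g (nat_lit 2585) (.e (nat_lit 7261) (nat_lit 384) (.e (nat_lit 57413) (nat_lit 12) (.e (nat_lit 336028) (nat_lit 3) (.e (nat_lit 98372) (nat_lit 29) (.e (nat_lit 450586) (nat_lit 10) (.e (nat_lit 573478) (nat_lit 12) (.e (nat_lit 57352) (nat_lit 0) .nil))))))) (.g (nat_lit 6) .nil .nil)))) (.nd (nat_lit 4) 
(.lf (nat_lit 123404) (.g (nat_lit 3883) (.e (nat_lit 7261) (nat_lit 384) (.e (nat_lit 57413) (nat_lit 12) (.e (nat_lit 336028) (nat_lit 3) (.e (nat_lit 98359) (nat_lit 26) (.e (nat_lit 426286) (nat_lit 10) (.e (nat_lit 434248) (nat_lit 28) (.e (nat_lit 573475) (nat_lit 12) (.e (nat_lit 57351) (nat_lit 0) .nil)))))))) (.g (nat_lit 7) .nil .nil))) 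
(.lf (nat_lit 123420) (.g (nat_lit 4118) (.e (nat_lit 7261) (nat_lit 384) (.e (nat_lit 57413) (nat_lit 12) (.e (nat_lit 336028) (nat_lit 3) (.e (nat_lit 98373) (nat_lit 29) (.e (nat_lit 450588) (nat_lit 10) (.e (nat_lit 573473) (nat_lit 12) (.e (nat_lit 57353) (nat_lit 0) .nil))))))) (.g (nat_lit 7) .nil .nil)))))) (.nd (nat_lit 2) (.nd (nat_lit 3) (.nd (nat_lit 4) 
(.lf (nat_lit 123394) (.g (nat_lit 3412) (.e (nat_lit 7261) (nat_lit 384) (.e (nat_lit 57413) (nat_lit 12) (.e (nat_lit 336028) (nat_lit 3) (.e (nat_lit 98359) (nat_lit 26) (.e (nat_lit 426286) (nat_lit 10) (.e (nat_lit 434247) (nat_lit 28) (.e (nat_lit 573477) (nat_lit 12) (.e (nat_lit 57352) (nat_lit 0) .nil)))))))) (.g (nat_lit 7) .nil .nil))) 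
(.lf (nat_lit 123410) (.g (nat_lit 2996) (.e (nat_lit 7261) (nat_lit 384) (.e (nat_lit 57413) (nat_lit 12) (.e (nat_lit 336028) (nat_lit 3) (.e (nat_lit 98372) (nat_lit 29) (.e (nat_lit 450586) (nat_lit 10) (.e (nat_lit 573477) (nat_lit 12) (.e (nat_lit 57353) (nat_lit 0) .nil))))))) (.g (nat_lit 7) .nil .nil)))) (.nd (nat_lit 4) 
(.lf (nat_lit 123402) (.g (nat_lit 4555) (.e (nat_lit 7261) (nat_lit 384) (.e (nat_lit 57413) (nat_lit 12) (.e (nat_lit 336028) (nat_lit 3) (.e (nat_lit 98359) (nat_lit 26) (.e (nat_lit 426286) (nat_lit 10) (.e (nat_lit 434248) (nat_lit 28) (.e (nat_lit 573475) (nat_lit 12) (.e (nat_lit 57347) (nat_lit 0) .nil)))))))) (.g (nat_lit 8) .nil .nil))) 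
(.lf (nat_lit 123418) (.g (nat_lit 3109) (.e (nat_lit 7261) (nat_lit 384) (.e (nat_lit 57413) (nat_lit 12) (.e (nat_lit 336028) (nat_lit 3) (.e (nat_lit 98373) (nat_lit 29) (.e (nat_lit 450587) (nat_lit 10) (.e (nat_lit 573478) (nat_lit 12) (.e (nat_lit 57353) (nat_lit 0) .nil))))))) (.g (nat_lit 6) .nil .nil))))) (.nd (nat_lit 3) (.nd (nat_lit 4) 
(.lf (nat_lit 123398) (.g (nat_lit 3074) (.e (nat_lit 7261) (nat_lit 384) (.e (nat_lit 57413) (nat_lit 12) (.e (nat_lit 336028) (nat_lit 3) (.e (nat_lit 98359) (nat_lit 26) (.e (nat_lit 426286) (nat_lit 10) (.e (nat_lit 434247) (nat_lit 28) (.e (nat_lit 573478) (nat_lit 12) (.e (nat_lit 57353) (nat_lit 0) .nil)))))))) (.g (nat_lit 7) .nil .nil))) 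
(.lf (nat_lit 123414) (.g (nat_lit 3365) (.e (nat_lit 7261) (nat_lit 384) (.e (nat_lit 57413) (nat_lit 12) (.e (nat_lit 336028) (nat_lit 3) (.e (nat_lit 98373) (nat_lit 29) (.e (nat_lit 450587) (nat_lit 10) (.e (nat_lit 573477) (nat_lit 12) (.e (nat_lit 57352) (nat_lit 0) .nil))))))) (.g (nat_lit 7) .nil .nil)))) (.nd (nat_lit 4) 
(.lf (nat_lit 123406) (.g (nat_lit 3233) (.e (nat_lit 7261) (nat_lit 384) (.e (nat_lit 57413) (nat_lit 12) (.e (nat_lit 336028) (nat_lit 3) (.e (nat_lit 98372) (nat_lit 29) (.e (nat_lit 450586) (nat_lit 10) (.e (nat_lit 573473) (nat_lit 12) (.e (nat_lit 57352) (nat_lit 0) .nil))))))) (.g (nat_lit 7) .nil .nil))) 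
(.lf (nat_lit 123422) (.g (nat_lit 4013) (.e (nat_lit 7261) (nat_lit 384) (.e (nat_lit 57413) (nat_lit 12) (.e (nat_lit 336028) (nat_lit 3) (.e (nat_lit 98373) (nat_lit 29) (.e (nat_lit 450588) (nat_lit 10) (.e (nat_lit 573475) (nat_lit 12) (.e (nat_lit 57351) (nat_lit 0) .nil))))))) (.g (nat_lit 7) .nil .nil))))))) (.nd (nat_lit 1) (.nd (nat_lit 2) (.nd (nat_lit 3) (.nd (nat_lit 4) 
(.lf (nat_lit 123393) (.g (nat_lit 3903) (.e (nat_lit 7261) (nat_lit 384) (.e (nat_lit 57413) (nat_lit 12) (.e (nat_lit 336028) (nat_lit 3) (.e (nat_lit 98359) (nat_lit 26) (.e (nat_lit 426286) (nat_lit 10) (.e (nat_lit 434245) (nat_lit 28) (.e (nat_lit 573474) (nat_lit 12) (.e (nat_lit 57351) (nat_lit 0) .nil)))))))) (.g (nat_lit 7) .nil .nil))) 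
(.lf (nat_lit 123409) (.g (nat_lit 2934) (.e (nat_lit 7261) (nat_lit 384) (.e (nat_lit 57413) (nat_lit 12) (.e (nat_lit 336028) (nat_lit 3) (.e (nat_lit 98372) (nat_lit 29) (.e (nat_lit 450586) (nat_lit 10) (.e (nat_lit 573477) (nat_lit 12) (.e (nat_lit 57352) (nat_lit 0) .nil))))))) (.g (nat_lit 7) .nil .nil)))) (.nd (nat_lit 4) 
(.lf (nat_lit 123401) (.g (nat_lit 3661) (.e (nat_lit 7261) (nat_lit 384) (.e (nat_lit 57413) (nat_lit 12) (.e (nat_lit 336028) (nat_lit 3) (.e (nat_lit 98359) (nat_lit 26) (.e (nat_lit 426286) (nat_lit 10) (.e (nat_lit 434248) (nat_lit 28) (.e (nat_lit 573473) (nat_lit 12) (.e (nat_lit 57353) (nat_lit 0) .nil)))))))) (.g (nat_lit 8) .nil .nil))) 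
(.lf (nat_lit 123417) (.g (nat_lit 3033) (.e (nat_lit 7261) (nat_lit 384) (.e (nat_lit 57413) (nat_lit 12) (.e (nat_lit 336028) (nat_lit 3) (.e (nat_lit 98373) (nat_lit 29) (.e (nat_lit 450587) (nat_lit 10) (.e (nat_lit 573478) (nat_lit 12) (.e (nat_lit 57352) (nat_lit 0) .nil))))))) (.g (nat_lit 6) .nil .nil))))) (.nd (nat_lit 3) (.nd (nat_lit 4) 
(.lf (nat_lit 123397) (.g (nat_lit 2909) (.e (nat_lit 7261) (nat_lit 384) (.e (nat_lit 57413) (nat_lit 12) (.e (nat_lit 336028) (nat_lit 3) (.e (nat_lit 98359) (nat_lit 26) (.e (nat_lit 426286) (nat_lit 10) (.e (nat_lit 434247) (nat_lit 28) (.e (nat_lit 573478) (nat_lit 12) (.e (nat_lit 57352) (nat_lit 0) .nil)))))))) (.g (nat_lit 6) .nil .nil))) 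
(.lf (nat_lit 123413) (.g (nat_lit 2730) (.e (nat_lit 7261) (nat_lit 384) (.e (nat_lit 57413) (nat_lit 12) (.e (nat_lit 336028) (nat_lit 3) (.e (nat_lit 98372) (nat_lit 29) (.e (nat_lit 450586) (nat_lit 10) (.e (nat_lit 573478) (nat_lit 12) (.e (nat_lit 57353) (nat_lit 0) .nil))))))) (.g (nat_lit 6) .nil .nil)))) (.nd (nat_lit 4) 
(.lf (nat_lit 123405) (.g (nat_lit 3485) (.e (nat_lit 7261) (nat_lit 384) (.e (nat_lit 57413) (nat_lit 12) (.e (nat_lit 336028) (nat_lit 3) (.e (nat_lit 98372) (nat_lit 29) (.e (nat_lit 450586) (nat_lit 10) (.e (nat_lit 573473) (nat_lit 12) (.e (nat_lit 57348) (nat_lit 0) .nil))))))) (.g (nat_lit 7) .nil .nil))) 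
(.lf (nat_lit 123421) (.g (nat_lit 4797) (.e (nat_lit 7261) (nat_lit 384) (.e (nat_lit 57413) (nat_lit 12) (.e (nat_lit 336028) (nat_lit 3) (.e (nat_lit 98373) (nat_lit 29) (.e (nat_lit 450588) (nat_lit 10) (.e (nat_lit 573475) (nat_lit 12) (.e (nat_lit 57347) (nat_lit 0) .nil))))))) (.g (nat_lit 7) .nil .nil)))))) (.nd (nat_lit 2) (.nd (nat_lit 3) (.nd (nat_lit 4) 
(.lf (nat_lit 123395) (.g (nat_lit 3486) (.e (nat_lit 7261) (nat_lit 384) (.e (nat_lit 57413) (nat_lit 12) (.e (nat_lit 336028) (nat_lit 3) (.e (nat_lit 98359) (nat_lit 26) (.e (nat_lit 426286) (nat_lit 10) (.e (nat_lit 434247) (nat_lit 28) (.e (nat_lit 573477) (nat_lit 12) (.e (nat_lit 57353) (nat_lit 0) .nil)))))))) (.g (nat_lit 7) .nil .nil))) 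
(.lf (nat_lit 123411) (.g (nat_lit 2774) (.e (nat_lit 7261) (nat_lit 384) (.e (nat_lit 57413) (nat_lit 12) (.e (nat_lit 336028) (nat_lit 3) (.e (nat_lit 98372) (nat_lit 29) (.e (nat_lit 450586) (nat_lit 10) (.e (nat_lit 573478) (nat_lit 12) (.e (nat_lit 57351) (nat_lit 0) .nil))))))) (.g (nat_lit 7) .nil .nil)))) (.nd (nat_lit 4) 
(.lf (nat_lit 123403) (.g (nat_lit 3966) (.e (nat_lit 7261) (nat_lit 384) (.e (nat_lit 57413) (nat_lit 12) (.e (nat_lit 336028) (nat_lit 3) (.e (nat_lit 98359) (nat_lit 26) (.e (nat_lit 426286) (nat_lit 10) (.e (nat_lit 434248) (nat_lit 28) (.e (nat_lit 573475) (nat_lit 12) (.e (nat_lit 57348) (nat_lit 0) .nil)))))))) (.g (nat_lit 7) .nil .nil))) 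
(.lf (nat_lit 123419) (.g (nat_lit 4025) (.e (nat_lit 7261) (nat_lit 384) (.e (nat_lit 57413) (nat_lit 12) (.e (nat_lit 336028) (nat_lit 3) (.e (nat_lit 98373) (nat_lit 29) (.e (nat_lit 450588) (nat_lit 10) (.e (nat_lit 573473) (nat_lit 12) (.e (nat_lit 57352) (nat_lit 0) .nil))))))) (.g (nat_lit 7) .nil .nil))))) (.nd (nat_lit 3) (.nd (nat_lit 4) 
(.lf (nat_lit 123399) (.g (nat_lit 3807) (.e (nat_lit 7261) (nat_lit 384) (.e (nat_lit 57413) (nat_lit 12) (.e (nat_lit 336028) (nat_lit 3) (.e (nat_lit 98359) (nat_lit 26) (.e (nat_lit 426286) (nat_lit 10) (.e (nat_lit 434248) (nat_lit 28) (.e (nat_lit 573473) (nat_lit 12) (.e (nat_lit 57348) (nat_lit 0) .nil)))))))) (.g (nat_lit 8) .nil .nil))) 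
(.lf (nat_lit 123415) (.g (nat_lit 3421) (.e (nat_lit 7261) (nat_lit 384) (.e (nat_lit 57413) (nat_lit 12) (.e (nat_lit 336028) (nat_lit 3) (.e (nat_lit 98373) (nat_lit 29) (.e (nat_lit 450587) (nat_lit 10) (.e (nat_lit 573477) (nat_lit 12) (.e (nat_lit 57353) (nat_lit 0) .nil))))))) (.g (nat_lit 7) .nil .nil)))) (.nd (nat_lit 4) 
(.lf (nat_lit 123407) (.g (nat_lit 3338) (.e (nat_lit 7261) (nat_lit 384) (.e (nat_lit 57413) (nat_lit 12) (.e (nat_lit 336028) (nat_lit 3) (.e (nat_lit 98372) (nat_lit 29) (.e (nat_lit 450586) (nat_lit 10) (.e (nat_lit 573473) (nat_lit 12) (.e (nat_lit 57353) (nat_lit 0) .nil))))))) (.g (nat_lit 7) .nil .nil))) 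
(.lf (nat_lit 123423) (.g (nat_lit 1893) (.e (nat_lit 7261) (nat_lit 384) (.e (nat_lit 57413) (nat_lit 12) (.e (nat_lit 336224) (nat_lit 13) (.e (nat_lit 393234) (nat_lit 17) (.e (nat_lit 7591) (nat_lit 407) (.e (nat_lit 73730) (nat_lit 0) .nil)))))) (.g (nat_lit 6) .nil .nil))))))))

noncomputable def tv1648 : DT := (.nd (nat_lit 0) (.nd (nat_lit 1) (.nd (nat_lit 2) (.nd (nat_lit 3) (.nd (nat_lit 4) 
(.lf (nat_lit 123424) (.g (nat_lit 1921) (.e (nat_lit 7261) (nat_lit 384) (.e (nat_lit 57413) (nat_lit 12) (.e (nat_lit 336224) (nat_lit 13) (.e (nat_lit 393234) (nat_lit 17) (.e (nat_lit 7591) (nat_lit 407) (.e (nat_lit 73731) (nat_lit 0) .nil)))))) (.g (nat_lit 5) .nil .nil))) 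
(.lf (nat_lit 123440) (.g (nat_lit 4048) (.e (nat_lit 7261) (nat_lit 384) (.e (nat_lit 57420) (nat_lit 13) (.e (nat_lit 344117) (nat_lit 21) (.e (nat_lit 516151) (nat_lit 9) (.e (nat_lit 426286) (nat_lit 10) (.e (nat_lit 434245) (nat_lit 28) (.e (nat_lit 573473) (nat_lit 12) (.e (nat_lit 57348) (nat_lit 0) .nil)))))))) (.g (nat_lit 0) .nil .nil)))) (.nd (nat_lit 4) 
(.lf (nat_lit 123432) (.g (nat_lit 464) (.e (nat_lit 7261) (nat_lit 384) (.e (nat_lit 57417) (nat_lit 12) (.e (nat_lit 336209) (nat_lit 13) .nil))) .nil)) 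
(.lf (nat_lit 123448) (.g (nat_lit 3140) (.e (nat_lit 7261) (nat_lit 384) (.e (nat_lit 57420) (nat_lit 13) (.e (nat_lit 344117) (nat_lit 21) (.e (nat_lit 516165) (nat_lit 12) (.e (nat_lit 450586) (nat_lit 10) (.e (nat_lit 573477) (nat_lit 12) (.e (nat_lit 57353) (nat_lit 0) .nil))))))) (.g (nat_lit 0) .nil .nil))))) (.nd (nat_lit 3) (.nd (nat_lit 4) 
(.lf (nat_lit 123428) (.g (nat_lit 2562) (.e (nat_lit 7261) (nat_lit 384) (.e (nat_lit 57413) (nat_lit 12) (.e (nat_lit 336224) (nat_lit 13) (.e (nat_lit 393301) (nat_lit 27) (.e (nat_lit 491558) (nat_lit 10) (.e (nat_lit 344095) (nat_lit 18) .nil)))))) (.g (nat_lit 6) .nil .nil))) 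
(.lf (nat_lit 123444) (.g (nat_lit 3476) (.e (nat_lit 7261) (nat_lit 384) (.e (nat_lit 57420) (nat_lit 13) (.e (nat_lit 344117) (nat_lit 21) (.e (nat_lit 516151) (nat_lit 9) (.e (nat_lit 426286) (nat_lit 10) (.e (nat_lit 434247) (nat_lit 28) (.e (nat_lit 573478) (nat_lit 12) (.e (nat_lit 57353) (nat_lit 0) .nil)))))))) (.g (nat_lit 7) .nil .nil)))) (.nd (nat_lit 4) 
(.lf (nat_lit 123436) (.g (nat_lit 1406) (.e (nat_lit 7261) (nat_lit 384) (.e (nat_lit 57419) (nat_lit 12) (.e (nat_lit 336213) (nat_lit 13) (.e (nat_lit 393233) (nat_lit 17) (.e (nat_lit 7591) (nat_lit 407) (.e (nat_lit 73731) (nat_lit 0) .nil)))))) (.g (nat_lit 4) .nil .nil))) 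
(.lf (nat_lit 123452) (.g (nat_lit 2761) (.e (nat_lit 7261) (nat_lit 384) (.e (nat_lit 57420) (nat_lit 13) (.e (nat_lit 344117) (nat_lit 21) (.e (nat_lit 516166) (nat_lit 12) (.e (nat_lit 450587) (nat_lit 10) (.e (nat_lit 573478) (nat_lit 12) (.e (nat_lit 57353) (nat_lit 0) .nil))))))) (.g (nat_lit 6) .nil .nil)))))) (.nd (nat_lit 2) (.nd (nat_lit 3) (.nd (nat_lit 4) 
(.lf (nat_lit 123426) (.g (nat_lit 2352) (.e (nat_lit 7261) (nat_lit 384) (.e (nat_lit 57413) (nat_lit 12) (.e (nat_lit 336224) (nat_lit 13) (.e (nat_lit 393301) (nat_lit 27) (.e (nat_lit 491558) (nat_lit 10) (.e (nat_lit 344090) (nat_lit 18) .nil)))))) (.g (nat_lit 5) .nil .nil))) 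
(.lf (nat_lit 123442) (.g (nat_lit 4720) (.e (nat_lit 7261) (nat_lit 384) (.e (nat_lit 57420) (nat_lit 13) (.e (nat_lit 344117) (nat_lit 21) (.e (nat_lit 516151) (nat_lit 9) (.e (nat_lit 426286) (nat_lit 10) (.e (nat_lit 434245) (nat_lit 28) (.e (nat_lit 573474) (nat_lit 12) (.e (nat_lit 57348) (nat_lit 0) .nil)))))))) (.g (nat_lit 8) .nil .nil)))) (.nd (nat_lit 4) 
(.lf (nat_lit 123434) (.g (nat_lit 930) (.e (nat_lit 7261) (nat_lit 384) (.e (nat_lit 57419) (nat_lit 12) (.e (nat_lit 336213) (nat_lit 13) (.e (nat_lit 393233) (nat_lit 17) .nil)))) .nil)) 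
(.lf (nat_lit 123450) (.g (nat_lit 2870) (.e (nat_lit 7261) (nat_lit 384) (.e (nat_lit 57420) (nat_lit 13) (.e (nat_lit 344117) (nat_lit 21) (.e (nat_lit 516165) (nat_lit 12) (.e (nat_lit 450586) (nat_lit 10) (.e (nat_lit 573478) (nat_lit 12) (.e (nat_lit 57353) (nat_lit 0) .nil))))))) (.g (nat_lit 7) .nil .nil))))) (.nd (nat_lit 3) (.nd (nat_lit 4) 
(.lf (nat_lit 123430) (.g (nat_lit 2682) (.e (nat_lit 7261) (nat_lit 384) (.e (nat_lit 57413) (nat_lit 12) (.e (nat_lit 336224) (nat_lit 13) (.e (nat_lit 393301) (nat_lit 27) (.e (nat_lit 491560) (nat_lit 10) (.e (nat_lit 344090) (nat_lit 18) .nil)))))) (.g (nat_lit 6) .nil .nil))) 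
(.lf (nat_lit 123446) (.g (nat_lit 4972) (.e (nat_lit 7261) (nat_lit 384) (.e (nat_lit 57420) (nat_lit 13) (.e (nat_lit 344117) (nat_lit 21) (.e (nat_lit 516151) (nat_lit 9) (.e (nat_lit 426286) (nat_lit 10) (.e (nat_lit 434248) (nat_lit 28) (.e (nat_lit 573475) (nat_lit 12) (.e (nat_lit 57347) (nat_lit 0) .nil)))))))) (.g (nat_lit 0) .nil .nil)))) (.nd (nat_lit 4) 
(.lf (nat_lit 123438) (.g (nat_lit 2240) (.e (nat_lit 7261) (nat_lit 384) (.e (nat_lit 57419) (nat_lit 12) (.e (nat_lit 336213) (nat_lit 13) (.e (nat_lit 393300) (nat_lit 27) (.e (nat_lit 491558) (nat_lit 10) (.e (nat_lit 344096) (nat_lit 18) .nil)))))) (.g (nat_lit 5) .nil .nil))) 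
(.lf (nat_lit 123454) (.g (nat_lit 4569) (.e (nat_lit 7261) (nat_lit 384) (.e (nat_lit 57420) (nat_lit 13) (.e (nat_lit 344117) (nat_lit 21) (.e (nat_lit 516166) (nat_lit 12) (.e (nat_lit 450588) (nat_lit 10) (.e (nat_lit 573475) (nat_lit 12) (.e (nat_lit 57347) (nat_lit 0) .nil))))))) (.g (nat_lit 0) .nil .nil))))))) (.nd (nat_lit 1) (.nd (nat_lit 2) (.nd (nat_lit 3) (.nd (nat_lit 4) 
(.lf (nat_lit 123425) (.g (nat_lit 1835) (.e (nat_lit 7261) (nat_lit 384) (.e (nat_lit 57413) (nat_lit 12) (.e (nat_lit 336224) (nat_lit 13) (.e (nat_lit 393234) (nat_lit 17) (.e (nat_lit 7593) (nat_lit 407) (.e (nat_lit 73730) (nat_lit 0) .nil)))))) (.g (nat_lit 5) .nil .nil))) 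
(.lf (nat_lit 123441) (.g (nat_lit 4942) (.e (nat_lit 7261) (nat_lit 384) (.e (nat_lit 57420) (nat_lit 13) (.e (nat_lit 344117) (nat_lit 21) (.e (nat_lit 516151) (nat_lit 9) (.e (nat_lit 426286) (nat_lit 10) (.e (nat_lit 434245) (nat_lit 28) (.e (nat_lit 573474) (nat_lit 12) (.e (nat_lit 57347) (nat_lit 0) .nil)))))))) (.g (nat_lit 0) .nil .nil)))) (.nd (nat_lit 4) 
(.lf (nat_lit 123433) (.g (nat_lit 1256) (.e (nat_lit 7261) (nat_lit 384) (.e (nat_lit 57419) (nat_lit 12) (.e (nat_lit 336213) (nat_lit 13) (.e (nat_lit 393232) (nat_lit 17) .nil)))) .nil)) 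
(.lf (nat_lit 123449) (.g (nat_lit 2755) (.e (nat_lit 7261) (nat_lit 384) (.e (nat_lit 57420) (nat_lit 13) (.e (nat_lit 344117) (nat_lit 21) (.e (nat_lit 516165) (nat_lit 12) (.e (nat_lit 450586) (nat_lit 10) (.e (nat_lit 573478) (nat_lit 12) (.e (nat_lit 57352) (nat_lit 0) .nil))))))) (.g (nat_lit 6) .nil .nil))))) (.nd (nat_lit 3) (.nd (nat_lit 4) 
(.lf (nat_lit 123429) (.g (nat_lit 2857) (.e (nat_lit 7261) (nat_lit 384) (.e (nat_lit 57413) (nat_lit 12) (.e (nat_lit 336224) (nat_lit 13) (.e (nat_lit 393301) (nat_lit 27) (.e (nat_lit 491558) (nat_lit 10) (.e (nat_lit 344096) (nat_lit 18) .nil)))))) (.g (nat_lit 6) .nil .nil))) 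
(.lf (nat_lit 123445) (.g (nat_lit 4180) (.e (nat_lit 7261) (nat_lit 384) (.e (nat_lit 57420) (nat_lit 13) (.e (nat_lit 344117) (nat_lit 21) (.e (nat_lit 516151) (nat_lit 9) (.e (nat_lit 426286) (nat_lit 10) (.e (nat_lit 434248) (nat_lit 28) (.e (nat_lit 573473) (nat_lit 12) (.e (nat_lit 57348) (nat_lit 0) .nil)))))))) (.g (nat_lit 0) .nil .nil)))) (.nd (nat_lit 4) 
(.lf (nat_lit 123437) (.g (nat_lit 1631) (.e (nat_lit 7261) (nat_lit 384) (.e (nat_lit 57419) (nat_lit 12) (.e (nat_lit 336213) (nat_lit 13) (.e (nat_lit 393299) (nat_lit 27) (.e (nat_lit 491558) (nat_lit 10) .nil))))) .nil)) 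
(.lf (nat_lit 123453) (.g (nat_lit 3987) (.e (nat_lit 7261) (nat_lit 384) (.e (nat_lit 57420) (nat_lit 13) (.e (nat_lit 344117) (nat_lit 21) (.e (nat_lit 516166) (nat_lit 12) (.e (nat_lit 450588) (nat_lit 10) (.e (nat_lit 573473) (nat_lit 12) (.e (nat_lit 57348) (nat_lit 0) .nil))))))) (.g (nat_lit 0) .nil .nil)))))) (.nd (nat_lit 2) (.nd (nat_lit 3) (.nd (nat_lit 4) 
(.lf (nat_lit 123427) (.g (nat_lit 2788) (.e (nat_lit 7261) (nat_lit 384) (.e (nat_lit 57413) (nat_lit 12) (.e (nat_lit 336224) (nat_lit 13) (.e (nat_lit 393301) (nat_lit 27) (.e (nat_lit 491558) (nat_lit 10) (.e (nat_lit 344091) (nat_lit 18) .nil)))))) (.g (nat_lit 6) .nil .nil))) 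
(.lf (nat_lit 123443) (.g (nat_lit 3886) (.e (nat_lit 7261) (nat_lit 384) (.e (nat_lit 57420) (nat_lit 13) (.e (nat_lit 344117) (nat_lit 21) (.e (nat_lit 516151) (nat_lit 9) (.e (nat_lit 426286) (nat_lit 10) (.e (nat_lit 434247) (nat_lit 28) (.e (nat_lit 573477) (nat_lit 12) (.e (nat_lit 57353) (nat_lit 0) .nil)))))))) (.g (nat_lit 0) .nil .nil)))) (.nd (nat_lit 4) 
(.lf (nat_lit 123435) (.g (nat_lit 1408) (.e (nat_lit 7261) (nat_lit 384) (.e (nat_lit 57419) (nat_lit 12) (.e (nat_lit 336213) (nat_lit 13) (.e (nat_lit 393233) (nat_lit 17) (.e (nat_lit 7591) (nat_lit 407) (.e (nat_lit 73730) (nat_lit 0) .nil)))))) (.g (nat_lit 4) .nil .nil))) 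
(.lf (nat_lit 123451) (.g (nat_lit 3187) (.e (nat_lit 7261) (nat_lit 384) (.e (nat_lit 57420) (nat_lit 13) (.e (nat_lit 344117) (nat_lit 21) (.e (nat_lit 516166) (nat_lit 12) (.e (nat_lit 450587) (nat_lit 10) (.e (nat_lit 573477) (nat_lit 12) (.e (nat_lit 57353) (nat_lit 0) .nil))))))) (.g (nat_lit 0) .nil .nil))))) (.nd (nat_lit 3) (.nd (nat_lit 4) 
(.lf (nat_lit 123431) (.g (nat_lit 2461) (.e (nat_lit 7261) (nat_lit 384) (.e (nat_lit 57413) (nat_lit 12) (.e (nat_lit 336224) (nat_lit 13) (.e (nat_lit 393301) (nat_lit 27) (.e (nat_lit 491560) (nat_lit 10) (.e (nat_lit 344094) (nat_lit 18) .nil)))))) (.g (nat_lit 6) .nil .nil))) 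
(.lf (nat_lit 123447) (.g (nat_lit 3608) (.e (nat_lit 7261) (nat_lit 384) (.e (nat_lit 57420) (nat_lit 13) (.e (nat_lit 344117) (nat_lit 21) (.e (nat_lit 516165) (nat_lit 12) (.e (nat_lit 450586) (nat_lit 10) (.e (nat_lit 573473) (nat_lit 12) (.e (nat_lit 57348) (nat_lit 0) .nil))))))) (.g (nat_lit 0) .nil .nil)))) (.nd (nat_lit 4) 
(.lf (nat_lit 123439) (.g (nat_lit 2192) (.e (nat_lit 7261) (nat_lit 384) (.e (nat_lit 57419) (nat_lit 12) (.e (nat_lit 336213) (nat_lit 13) (.e (nat_lit 393300) (nat_lit 27) (.e (nat_lit 491560) (nat_lit 10) (.e (nat_lit 344090) (nat_lit 18) .nil)))))) (.g (nat_lit 5) .nil .nil))) 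
(.lf (nat_lit 123455) (.g (nat_lit 3969) (.e (nat_lit 7261) (nat_lit 384) (.e (nat_lit 57421) (nat_lit 13) (.e (nat_lit 344117) (nat_lit 21) (.e (nat_lit 516151) (nat_lit 9) (.e (nat_lit 426286) (nat_lit 10) (.e (nat_lit 434245) (nat_lit 28) (.e (nat_lit 573473) (nat_lit 12) (.e (nat_lit 57348) (nat_lit 0) .nil)))))))) (.g (nat_lit 0) .nil .nil))))))))

noncomputable def tv1649 : DT := (.nd (nat_lit 0) (.nd (nat_lit 1) (.nd (nat_lit 2) (.nd (nat_lit 3) (.nd (nat_lit 4) 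
(.lf (nat_lit 123456) (.g (nat_lit 4858) (.e (nat_lit 7261) (nat_lit 384) (.e (nat_lit 57421) (nat_lit 13) (.e (nat_lit 344117) (nat_lit 21) (.e (nat_lit 516151) (nat_lit 9) (.e (nat_lit 426286) (nat_lit 10) (.e (nat_lit 434245) (nat_lit 28) (.e (nat_lit 573474) (nat_lit 12) (.e (nat_lit 57347) (nat_lit 0) .nil)))))))) (.g (nat_lit 0) .nil .nil))) 
(.lf (nat_lit 123472) (.g (nat_lit 1147) (.e (nat_lit 7261) (nat_lit 384) (.e (nat_lit 57423) (nat_lit 14) (.e (nat_lit 352276) (nat_lit 11) (.e (nat_lit 425987) (nat_lit 0) (.e (nat_lit 7590) (nat_lit 407) (.e (nat_lit 73730) (nat_lit 0) .nil)))))) (.g (nat_lit 6) .nil .nil)))) (.nd (nat_lit 4) 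
(.lf (nat_lit 123464) (.g (nat_lit 2788) (.e (nat_lit 7261) (nat_lit 384) (.e (nat_lit 57421) (nat_lit 13) (.e (nat_lit 344117) (nat_lit 21) (.e (nat_lit 516165) (nat_lit 12) (.e (nat_lit 450586) (nat_lit 10) (.e (nat_lit 573478) (nat_lit 12) (.e (nat_lit 57352) (nat_lit 0) .nil))))))) (.g (nat_lit 6) .nil .nil))) 
(.lf (nat_lit 123480) (.g (nat_lit 3252) (.e (nat_lit 7261) (nat_lit 384) (.e (nat_lit 57423) (nat_lit 14) (.e (nat_lit 352277) (nat_lit 11) (.e (nat_lit 426011) (nat_lit 0) (.e (nat_lit 7591) (nat_lit 407) (.e (nat_lit 73729) (nat_lit 0) .nil)))))) (.g (nat_lit 6) .nil .nil))))) (.nd (nat_lit 3) (.nd (nat_lit 4) 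
(.lf (nat_lit 123460) (.g (nat_lit 4101) (.e (nat_lit 7261) (nat_lit 384) (.e (nat_lit 57421) (nat_lit 13) (.e (nat_lit 344117) (nat_lit 21) (.e (nat_lit 516151) (nat_lit 9) (.e (nat_lit 426286) (nat_lit 10) (.e (nat_lit 434248) (nat_lit 28) (.e (nat_lit 573473) (nat_lit 12) (.e (nat_lit 57348) (nat_lit 0) .nil)))))))) (.g (nat_lit 0) .nil .nil))) 
(.lf (nat_lit 123476) (.g (nat_lit 1599) (.e (nat_lit 7261) (nat_lit 384) (.e (nat_lit 57423) (nat_lit 14) (.e (nat_lit 352277) (nat_lit 11) (.e (nat_lit 426009) (nat_lit 0) (.e (nat_lit 7593) (nat_lit 407) (.e (nat_lit 73731) (nat_lit 0) .nil)))))) (.g (nat_lit 5) .nil .nil)))) (.nd (nat_lit 4) 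
(.lf (nat_lit 123468) (.g (nat_lit 4002) (.e (nat_lit 7261) (nat_lit 384) (.e (nat_lit 57421) (nat_lit 13) (.e (nat_lit 344117) (nat_lit 21) (.e (nat_lit 516166) (nat_lit 12) (.e (nat_lit 450588) (nat_lit 10) (.e (nat_lit 573473) (nat_lit 12) (.e (nat_lit 57348) (nat_lit 0) .nil))))))) (.g (nat_lit 0) .nil .nil))) 
(.lf (nat_lit 123484) (.g (nat_lit 3309) (.e (nat_lit 7261) (nat_lit 384) (.e (nat_lit 57423) (nat_lit 14) (.e (nat_lit 352277) (nat_lit 11) (.e (nat_lit 426011) (nat_lit 0) (.e (nat_lit 7593) (nat_lit 407) (.e (nat_lit 73730) (nat_lit 0) .nil)))))) (.g (nat_lit 0) .nil .nil)))))) (.nd (nat_lit 2) (.nd (nat_lit 3) (.nd (nat_lit 4) 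
(.lf (nat_lit 123458) (.g (nat_lit 3810) (.e (nat_lit 7261) (nat_lit 384) (.e (nat_lit 57421) (nat_lit 13) (.e (nat_lit 344117) (nat_lit 21) (.e (nat_lit 516151) (nat_lit 9) (.e (nat_lit 426286) (nat_lit 10) (.e (nat_lit 434247) (nat_lit 28) (.e (nat_lit 573477) (nat_lit 12) (.e (nat_lit 57353) (nat_lit 0) .nil)))))))) (.g (nat_lit 0) .nil .nil))) 
(.lf (nat_lit 123474) (.g (nat_lit 1965) (.e (nat_lit 7261) (nat_lit 384) (.e (nat_lit 57423) (nat_lit 14) (.e (nat_lit 352277) (nat_lit 11) (.e (nat_lit 426009) (nat_lit 0) (.e (nat_lit 7591) (nat_lit 407) (.e (nat_lit 73731) (nat_lit 0) .nil)))))) (.g (nat_lit 0) .nil .nil)))) (.nd (nat_lit 4) 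
(.lf (nat_lit 123466) (.g (nat_lit 3203) (.e (nat_lit 7261) (nat_lit 384) (.e (nat_lit 57421) (nat_lit 13) (.e (nat_lit 344117) (nat_lit 21) (.e (nat_lit 516166) (nat_lit 12) (.e (nat_lit 450587) (nat_lit 10) (.e (nat_lit 573477) (nat_lit 12) (.e (nat_lit 57353) (nat_lit 0) .nil))))))) (.g (nat_lit 0) .nil .nil))) 
(.lf (nat_lit 123482) (.g (nat_lit 2999) (.e (nat_lit 7261) (nat_lit 384) (.e (nat_lit 57423) (nat_lit 14) (.e (nat_lit 352277) (nat_lit 11) (.e (nat_lit 426011) (nat_lit 0) (.e (nat_lit 7591) (nat_lit 407) (.e (nat_lit 73731) (nat_lit 0) .nil)))))) (.g (nat_lit 0) .nil .nil))))) (.nd (nat_lit 3) (.nd (nat_lit 4) 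
(.lf (nat_lit 123462) (.g (nat_lit 3636) (.e (nat_lit 7261) (nat_lit 384) (.e (nat_lit 57421) (nat_lit 13) (.e (nat_lit 344117) (nat_lit 21) (.e (nat_lit 516165) (nat_lit 12) (.e (nat_lit 450586) (nat_lit 10) (.e (nat_lit 573473) (nat_lit 12) (.e (nat_lit 57348) (nat_lit 0) .nil))))))) (.g (nat_lit 0) .nil .nil))) 
(.lf (nat_lit 123478) (.g (nat_lit 2154) (.e (nat_lit 7261) (nat_lit 384) (.e (nat_lit 57423) (nat_lit 14) (.e (nat_lit 352277) (nat_lit 11) (.e (nat_lit 426010) (nat_lit 0) (.e (nat_lit 7593) (nat_lit 407) (.e (nat_lit 73730) (nat_lit 0) .nil)))))) (.g (nat_lit 6) .nil .nil)))) (.nd (nat_lit 4) 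
(.lf (nat_lit 123470) (.g (nat_lit 1297) (.e (nat_lit 7261) (nat_lit 384) (.e (nat_lit 57423) (nat_lit 14) (.e (nat_lit 352271) (nat_lit 9) (.e (nat_lit 409602) (nat_lit 0) (.e (nat_lit 5411) (nat_lit 303) (.e (nat_lit 73731) (nat_lit 0) .nil)))))) (.g (nat_lit 4) .nil .nil))) 
(.lf (nat_lit 123486) (.g (nat_lit 2717) (.e (nat_lit 7261) (nat_lit 384) (.e (nat_lit 57423) (nat_lit 14) (.e (nat_lit 352277) (nat_lit 11) (.e (nat_lit 426012) (nat_lit 0) (.e (nat_lit 7591) (nat_lit 407) (.e (nat_lit 73729) (nat_lit 0) .nil)))))) (.g (nat_lit 6) .nil .nil))))))) (.nd (nat_lit 1) (.nd (nat_lit 2) (.nd (nat_lit 3) (.nd (nat_lit 4) 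
(.lf (nat_lit 123457) (.g (nat_lit 4640) (.e (nat_lit 7261) (nat_lit 384) (.e (nat_lit 57421) (nat_lit 13) (.e (nat_lit 344117) (nat_lit 21) (.e (nat_lit 516151) (nat_lit 9) (.e (nat_lit 426286) (nat_lit 10) (.e (nat_lit 434245) (nat_lit 28) (.e (nat_lit 573474) (nat_lit 12) (.e (nat_lit 57348) (nat_lit 0) .nil)))))))) (.g (nat_lit 8) .nil .nil))) 
(.lf (nat_lit 123473) (.g (nat_lit 1920) (.e (nat_lit 7261) (nat_lit 384) (.e (nat_lit 57423) (nat_lit 14) (.e (nat_lit 352277) (nat_lit 11) (.e (nat_lit 426009) (nat_lit 0) (.e (nat_lit 7591) (nat_lit 407) (.e (nat_lit 73730) (nat_lit 0) .nil)))))) (.g (nat_lit 0) .nil .nil)))) (.nd (nat_lit 4) 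
(.lf (nat_lit 123465) (.g (nat_lit 2899) (.e (nat_lit 7261) (nat_lit 384) (.e (nat_lit 57421) (nat_lit 13) (.e (nat_lit 344117) (nat_lit 21) (.e (nat_lit 516165) (nat_lit 12) (.e (nat_lit 450586) (nat_lit 10) (.e (nat_lit 573478) (nat_lit 12) (.e (nat_lit 57353) (nat_lit 0) .nil))))))) (.g (nat_lit 7) .nil .nil))) 
(.lf (nat_lit 123481) (.g (nat_lit 2944) (.e (nat_lit 7261) (nat_lit 384) (.e (nat_lit 57423) (nat_lit 14) (.e (nat_lit 352277) (nat_lit 11) (.e (nat_lit 426011) (nat_lit 0) (.e (nat_lit 7591) (nat_lit 407) (.e (nat_lit 73730) (nat_lit 0) .nil)))))) (.g (nat_lit 0) .nil .nil))))) (.nd (nat_lit 3) (.nd (nat_lit 4) 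
(.lf (nat_lit 123461) (.g (nat_lit 4889) (.e (nat_lit 7261) (nat_lit 384) (.e (nat_lit 57421) (nat_lit 13) (.e (nat_lit 344117) (nat_lit 21) (.e (nat_lit 516151) (nat_lit 9) (.e (nat_lit 426286) (nat_lit 10) (.e (nat_lit 434248) (nat_lit 28) (.e (nat_lit 573475) (nat_lit 12) (.e (nat_lit 57347) (nat_lit 0) .nil)))))))) (.g (nat_lit 0) .nil .nil))) 
(.lf (nat_lit 123477) (.g (nat_lit 2128) (.e (nat_lit 7261) (nat_lit 384) (.e (nat_lit 57423) (nat_lit 14) (.e (nat_lit 352277) (nat_lit 11) (.e (nat_lit 426010) (nat_lit 0) (.e (nat_lit 7591) (nat_lit 407) (.e (nat_lit 73731) (nat_lit 0) .nil)))))) (.g (nat_lit 0) .nil .nil)))) (.nd (nat_lit 4) 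
(.lf (nat_lit 123469) (.g (nat_lit 4580) (.e (nat_lit 7261) (nat_lit 384) (.e (nat_lit 57421) (nat_lit 13) (.e (nat_lit 344117) (nat_lit 21) (.e (nat_lit 516166) (nat_lit 12) (.e (nat_lit 450588) (nat_lit 10) (.e (nat_lit 573475) (nat_lit 12) (.e (nat_lit 57347) (nat_lit 0) .nil))))))) (.g (nat_lit 0) .nil .nil))) 
(.lf (nat_lit 123485) (.g (nat_lit 2559) (.e (nat_lit 7261) (nat_lit 384) (.e (nat_lit 57423) (nat_lit 14) (.e (nat_lit 352277) (nat_lit 11) (.e (nat_lit 426011) (nat_lit 0) (.e (nat_lit 7593) (nat_lit 407) (.e (nat_lit 73731) (nat_lit 0) .nil)))))) (.g (nat_lit 5) .nil .nil)))))) (.nd (nat_lit 2) (.nd (nat_lit 3) (.nd (nat_lit 4) 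
(.lf (nat_lit 123459) (.g (nat_lit 3398) (.e (nat_lit 7261) (nat_lit 384) (.e (nat_lit 57421) (nat_lit 13) (.e (nat_lit 344117) (nat_lit 21) (.e (nat_lit 516151) (nat_lit 9) (.e (nat_lit 426286) (nat_lit 10) (.e (nat_lit 434247) (nat_lit 28) (.e (nat_lit 573478) (nat_lit 12) (.e (nat_lit 57353) (nat_lit 0) .nil)))))))) (.g (nat_lit 7) .nil .nil))) 
(.lf (nat_lit 123475) (.g (nat_lit 2536) (.e (nat_lit 7261) (nat_lit 384) (.e (nat_lit 57423) (nat_lit 14) (.e (nat_lit 352277) (nat_lit 11) (.e (nat_lit 426009) (nat_lit 0) (.e (nat_lit 7593) (nat_lit 407) (.e (nat_lit 73729) (nat_lit 0) .nil)))))) (.g (nat_lit 0) .nil .nil)))) (.nd (nat_lit 4) 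
(.lf (nat_lit 123467) (.g (nat_lit 2775) (.e (nat_lit 7261) (nat_lit 384) (.e (nat_lit 57421) (nat_lit 13) (.e (nat_lit 344117) (nat_lit 21) (.e (nat_lit 516166) (nat_lit 12) (.e (nat_lit 450587) (nat_lit 10) (.e (nat_lit 573478) (nat_lit 12) (.e (nat_lit 57353) (nat_lit 0) .nil))))))) (.g (nat_lit 6) .nil .nil))) 
(.lf (nat_lit 123483) (.g (nat_lit 3561) (.e (nat_lit 7261) (nat_lit 384) (.e (nat_lit 57423) (nat_lit 14) (.e (nat_lit 352277) (nat_lit 11) (.e (nat_lit 426011) (nat_lit 0) (.e (nat_lit 7593) (nat_lit 407) (.e (nat_lit 73729) (nat_lit 0) .nil)))))) (.g (nat_lit 0) .nil .nil))))) (.nd (nat_lit 3) (.nd (nat_lit 4) 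
(.lf (nat_lit 123463) (.g (nat_lit 3171) (.e (nat_lit 7261) (nat_lit 384) (.e (nat_lit 57421) (nat_lit 13) (.e (nat_lit 344117) (nat_lit 21) (.e (nat_lit 516165) (nat_lit 12) (.e (nat_lit 450586) (nat_lit 10) (.e (nat_lit 573477) (nat_lit 12) (.e (nat_lit 57353) (nat_lit 0) .nil))))))) (.g (nat_lit 0) .nil .nil))) 
(.lf (nat_lit 123479) (.g (nat_lit 1744) (.e (nat_lit 7261) (nat_lit 384) (.e (nat_lit 57423) (nat_lit 14) (.e (nat_lit 352277) (nat_lit 11) (.e (nat_lit 426010) (nat_lit 0) (.e (nat_lit 7593) (nat_lit 407) (.e (nat_lit 73731) (nat_lit 0) .nil)))))) (.g (nat_lit 5) .nil .nil)))) (.nd (nat_lit 4) 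
(.lf (nat_lit 123471) (.g (nat_lit 618) (.e (nat_lit 7261) (nat_lit 384) (.e (nat_lit 57423) (nat_lit 14) (.e (nat_lit 352272) (nat_lit 10) .nil))) .nil)) 
(.lf (nat_lit 123487) (.g (nat_lit 2464) (.e (nat_lit 7261) (nat_lit 384) (.e (nat_lit 57423) (nat_lit 14) (.e (nat_lit 352277) (nat_lit 11) (.e (nat_lit 426012) (nat_lit 0) (.e (nat_lit 7591) (nat_lit 407) (.e (nat_lit 73730) (nat_lit 0) .nil)))))) (.g (nat_lit 0) .nil .nil))))))))

noncomputable def tv1650 : DT := (.nd (nat_lit 0) (.nd (nat_lit 1) (.nd (nat_lit 2) (.nd (nat_lit 3) (.nd (nat_lit 4) 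
(.lf (nat_lit 123488) (.g (nat_lit 2525) (.e (nat_lit 7261) (nat_lit 384) (.e (nat_lit 57423) (nat_lit 14) (.e (nat_lit 352277) (nat_lit 11) (.e (nat_lit 426012) (nat_lit 0) (.e (nat_lit 7591) (nat_lit 407) (.e (nat_lit 73731) (nat_lit 0) .nil)))))) (.g (nat_lit 0) .nil .nil))) 
(.lf (nat_lit 123504) (.g (nat_lit 2760) (.e (nat_lit 7261) (nat_lit 384) (.e (nat_lit 57423) (nat_lit 14) (.e (nat_lit 352277) (nat_lit 11) (.e (nat_lit 426344) (nat_lit 14) (.e (nat_lit 491560) (nat_lit 10) (.e (nat_lit 344095) (nat_lit 18) .nil)))))) (.g (nat_lit 6) .nil .nil)))) (.nd (nat_lit 4) 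
(.lf (nat_lit 123496) (.g (nat_lit 2903) (.e (nat_lit 7261) (nat_lit 384) (.e (nat_lit 57423) (nat_lit 14) (.e (nat_lit 352277) (nat_lit 11) (.e (nat_lit 426343) (nat_lit 14) (.e (nat_lit 491558) (nat_lit 10) (.e (nat_lit 344090) (nat_lit 18) .nil)))))) (.g (nat_lit 6) .nil .nil))) 
(.lf (nat_lit 123512) (.g (nat_lit 2064) (.e (nat_lit 7261) (nat_lit 384) (.e (nat_lit 57424) (nat_lit 14) (.e (nat_lit 352277) (nat_lit 11) (.e (nat_lit 426010) (nat_lit 0) (.e (nat_lit 7591) (nat_lit 407) (.e (nat_lit 73731) (nat_lit 0) .nil)))))) (.g (nat_lit 0) .nil .nil))))) (.nd (nat_lit 3) (.nd (nat_lit 4) 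
(.lf (nat_lit 123492) (.g (nat_lit 2162) (.e (nat_lit 7261) (nat_lit 384) (.e (nat_lit 57423) (nat_lit 14) (.e (nat_lit 352277) (nat_lit 11) (.e (nat_lit 426342) (nat_lit 14) (.e (nat_lit 491558) (nat_lit 10) (.e (nat_lit 344090) (nat_lit 18) .nil)))))) (.g (nat_lit 5) .nil .nil))) 
(.lf (nat_lit 123508) (.g (nat_lit 567) (.e (nat_lit 7261) (nat_lit 384) (.e (nat_lit 57424) (nat_lit 14) (.e (nat_lit 352273) (nat_lit 11) .nil))) .nil))) (.nd (nat_lit 4) 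
(.lf (nat_lit 123500) (.g (nat_lit 3028) (.e (nat_lit 7261) (nat_lit 384) (.e (nat_lit 57423) (nat_lit 14) (.e (nat_lit 352277) (nat_lit 11) (.e (nat_lit 426343) (nat_lit 14) (.e (nat_lit 491560) (nat_lit 10) (.e (nat_lit 344095) (nat_lit 18) .nil)))))) (.g (nat_lit 5) .nil .nil))) 
(.lf (nat_lit 123516) (.g (nat_lit 2938) (.e (nat_lit 7261) (nat_lit 384) (.e (nat_lit 57424) (nat_lit 14) (.e (nat_lit 352277) (nat_lit 11) (.e (nat_lit 426011) (nat_lit 0) (.e (nat_lit 7591) (nat_lit 407) (.e (nat_lit 73731) (nat_lit 0) .nil)))))) (.g (nat_lit 0) .nil .nil)))))) (.nd (nat_lit 2) (.nd (nat_lit 3) (.nd (nat_lit 4) 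
(.lf (nat_lit 123490) (.g (nat_lit 2595) (.e (nat_lit 7261) (nat_lit 384) (.e (nat_lit 57423) (nat_lit 14) (.e (nat_lit 352277) (nat_lit 11) (.e (nat_lit 426012) (nat_lit 0) (.e (nat_lit 7593) (nat_lit 407) (.e (nat_lit 73730) (nat_lit 0) .nil)))))) (.g (nat_lit 6) .nil .nil))) 
(.lf (nat_lit 123506) (.g (nat_lit 589) (.e (nat_lit 7261) (nat_lit 384) (.e (nat_lit 57424) (nat_lit 14) (.e (nat_lit 352271) (nat_lit 9) .nil))) .nil))) (.nd (nat_lit 4) 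
(.lf (nat_lit 123498) (.g (nat_lit 2991) (.e (nat_lit 7261) (nat_lit 384) (.e (nat_lit 57423) (nat_lit 14) (.e (nat_lit 352277) (nat_lit 11) (.e (nat_lit 426343) (nat_lit 14) (.e (nat_lit 491560) (nat_lit 10) (.e (nat_lit 344091) (nat_lit 18) .nil)))))) (.g (nat_lit 6) .nil .nil))) 
(.lf (nat_lit 123514) (.g (nat_lit 1679) (.e (nat_lit 7261) (nat_lit 384) (.e (nat_lit 57424) (nat_lit 14) (.e (nat_lit 352277) (nat_lit 11) (.e (nat_lit 426010) (nat_lit 0) (.e (nat_lit 7593) (nat_lit 407) (.e (nat_lit 73731) (nat_lit 0) .nil)))))) (.g (nat_lit 5) .nil .nil))))) (.nd (nat_lit 3) (.nd (nat_lit 4) 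
(.lf (nat_lit 123494) (.g (nat_lit 2605) (.e (nat_lit 7261) (nat_lit 384) (.e (nat_lit 57423) (nat_lit 14) (.e (nat_lit 352277) (nat_lit 11) (.e (nat_lit 426342) (nat_lit 14) (.e (nat_lit 491560) (nat_lit 10) (.e (nat_lit 344091) (nat_lit 18) .nil)))))) (.g (nat_lit 6) .nil .nil))) 
(.lf (nat_lit 123510) (.g (nat_lit 1895) (.e (nat_lit 7261) (nat_lit 384) (.e (nat_lit 57424) (nat_lit 14) (.e (nat_lit 352277) (nat_lit 11) (.e (nat_lit 426009) (nat_lit 0) (.e (nat_lit 7591) (nat_lit 407) (.e (nat_lit 73731) (nat_lit 0) .nil)))))) (.g (nat_lit 0) .nil .nil)))) (.nd (nat_lit 4) 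
(.lf (nat_lit 123502) (.g (nat_lit 3094) (.e (nat_lit 7261) (nat_lit 384) (.e (nat_lit 57423) (nat_lit 14) (.e (nat_lit 352277) (nat_lit 11) (.e (nat_lit 426344) (nat_lit 14) (.e (nat_lit 491558) (nat_lit 10) (.e (nat_lit 344091) (nat_lit 18) .nil)))))) (.g (nat_lit 0) .nil .nil))) 
(.lf (nat_lit 123518) (.g (nat_lit 2489) (.e (nat_lit 7261) (nat_lit 384) (.e (nat_lit 57424) (nat_lit 14) (.e (nat_lit 352277) (nat_lit 11) (.e (nat_lit 426011) (nat_lit 0) (.e (nat_lit 7593) (nat_lit 407) (.e (nat_lit 73731) (nat_lit 0) .nil)))))) (.g (nat_lit 5) .nil .nil))))))) (.nd (nat_lit 1) (.nd (nat_lit 2) (.nd (nat_lit 3) (.nd (nat_lit 4) 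
(.lf (nat_lit 123489) (.g (nat_lit 3127) (.e (nat_lit 7261) (nat_lit 384) (.e (nat_lit 57423) (nat_lit 14) (.e (nat_lit 352277) (nat_lit 11) (.e (nat_lit 426012) (nat_lit 0) (.e (nat_lit 7593) (nat_lit 407) (.e (nat_lit 73729) (nat_lit 0) .nil)))))) (.g (nat_lit 0) .nil .nil))) 
(.lf (nat_lit 123505) (.g (nat_lit 595) (.e (nat_lit 7261) (nat_lit 384) (.e (nat_lit 57424) (nat_lit 14) (.e (nat_lit 352257) (nat_lit 0) .nil))) .nil))) (.nd (nat_lit 4) 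
(.lf (nat_lit 123497) (.g (nat_lit 3310) (.e (nat_lit 7261) (nat_lit 384) (.e (nat_lit 57423) (nat_lit 14) (.e (nat_lit 352277) (nat_lit 11) (.e (nat_lit 426343) (nat_lit 14) (.e (nat_lit 491558) (nat_lit 10) (.e (nat_lit 344091) (nat_lit 18) .nil)))))) (.g (nat_lit 0) .nil .nil))) 
(.lf (nat_lit 123513) (.g (nat_lit 2089) (.e (nat_lit 7261) (nat_lit 384) (.e (nat_lit 57424) (nat_lit 14) (.e (nat_lit 352277) (nat_lit 11) (.e (nat_lit 426010) (nat_lit 0) (.e (nat_lit 7593) (nat_lit 407) (.e (nat_lit 73730) (nat_lit 0) .nil)))))) (.g (nat_lit 6) .nil .nil))))) (.nd (nat_lit 3) (.nd (nat_lit 4) 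
(.lf (nat_lit 123493) (.g (nat_lit 2645) (.e (nat_lit 7261) (nat_lit 384) (.e (nat_lit 57423) (nat_lit 14) (.e (nat_lit 352277) (nat_lit 11) (.e (nat_lit 426342) (nat_lit 14) (.e (nat_lit 491558) (nat_lit 10) (.e (nat_lit 344091) (nat_lit 18) .nil)))))) (.g (nat_lit 0) .nil .nil))) 
(.lf (nat_lit 123509) (.g (nat_lit 1847) (.e (nat_lit 7261) (nat_lit 384) (.e (nat_lit 57424) (nat_lit 14) (.e (nat_lit 352277) (nat_lit 11) (.e (nat_lit 426009) (nat_lit 0) (.e (nat_lit 7591) (nat_lit 407) (.e (nat_lit 73730) (nat_lit 0) .nil)))))) (.g (nat_lit 0) .nil .nil)))) (.nd (nat_lit 4) 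
(.lf (nat_lit 123501) (.g (nat_lit 2684) (.e (nat_lit 7261) (nat_lit 384) (.e (nat_lit 57423) (nat_lit 14) (.e (nat_lit 352277) (nat_lit 11) (.e (nat_lit 426344) (nat_lit 14) (.e (nat_lit 491558) (nat_lit 10) (.e (nat_lit 344090) (nat_lit 18) .nil)))))) (.g (nat_lit 6) .nil .nil))) 
(.lf (nat_lit 123517) (.g (nat_lit 3239) (.e (nat_lit 7261) (nat_lit 384) (.e (nat_lit 57424) (nat_lit 14) (.e (nat_lit 352277) (nat_lit 11) (.e (nat_lit 426011) (nat_lit 0) (.e (nat_lit 7593) (nat_lit 407) (.e (nat_lit 73730) (nat_lit 0) .nil)))))) (.g (nat_lit 0) .nil .nil)))))) (.nd (nat_lit 2) (.nd (nat_lit 3) (.nd (nat_lit 4) 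
(.lf (nat_lit 123491) (.g (nat_lit 2132) (.e (nat_lit 7261) (nat_lit 384) (.e (nat_lit 57423) (nat_lit 14) (.e (nat_lit 352277) (nat_lit 11) (.e (nat_lit 426012) (nat_lit 0) (.e (nat_lit 7593) (nat_lit 407) (.e (nat_lit 73731) (nat_lit 0) .nil)))))) (.g (nat_lit 5) .nil .nil))) 
(.lf (nat_lit 123507) (.g (nat_lit 1111) (.e (nat_lit 7261) (nat_lit 384) (.e (nat_lit 57424) (nat_lit 14) (.e (nat_lit 352271) (nat_lit 9) (.e (nat_lit 409602) (nat_lit 0) (.e (nat_lit 5411) (nat_lit 303) .nil))))) .nil))) (.nd (nat_lit 4) 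
(.lf (nat_lit 123499) (.g (nat_lit 2782) (.e (nat_lit 7261) (nat_lit 384) (.e (nat_lit 57423) (nat_lit 14) (.e (nat_lit 352277) (nat_lit 11) (.e (nat_lit 426343) (nat_lit 14) (.e (nat_lit 491560) (nat_lit 10) (.e (nat_lit 344094) (nat_lit 18) .nil)))))) (.g (nat_lit 5) .nil .nil))) 
(.lf (nat_lit 123515) (.g (nat_lit 3204) (.e (nat_lit 7261) (nat_lit 384) (.e (nat_lit 57424) (nat_lit 14) (.e (nat_lit 352277) (nat_lit 11) (.e (nat_lit 426011) (nat_lit 0) (.e (nat_lit 7591) (nat_lit 407) (.e (nat_lit 73729) (nat_lit 0) .nil)))))) (.g (nat_lit 6) .nil .nil))))) (.nd (nat_lit 3) (.nd (nat_lit 4) 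
(.lf (nat_lit 123495) (.g (nat_lit 2410) (.e (nat_lit 7261) (nat_lit 384) (.e (nat_lit 57423) (nat_lit 14) (.e (nat_lit 352277) (nat_lit 11) (.e (nat_lit 426342) (nat_lit 14) (.e (nat_lit 491560) (nat_lit 10) (.e (nat_lit 344094) (nat_lit 18) .nil)))))) (.g (nat_lit 6) .nil .nil))) 
(.lf (nat_lit 123511) (.g (nat_lit 1901) (.e (nat_lit 7261) (nat_lit 384) (.e (nat_lit 57424) (nat_lit 14) (.e (nat_lit 352277) (nat_lit 11) (.e (nat_lit 426009) (nat_lit 0) (.e (nat_lit 7593) (nat_lit 407) (.e (nat_lit 73730) (nat_lit 0) .nil)))))) (.g (nat_lit 6) .nil .nil)))) (.nd (nat_lit 4) 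
(.lf (nat_lit 123503) (.g (nat_lit 2769) (.e (nat_lit 7261) (nat_lit 384) (.e (nat_lit 57423) (nat_lit 14) (.e (nat_lit 352277) (nat_lit 11) (.e (nat_lit 426344) (nat_lit 14) (.e (nat_lit 491560) (nat_lit 10) (.e (nat_lit 344091) (nat_lit 18) .nil)))))) (.g (nat_lit 6) .nil .nil))) 
(.lf (nat_lit 123519) (.g (nat_lit 2682) (.e (nat_lit 7261) (nat_lit 384) (.e (nat_lit 57424) (nat_lit 14) (.e (nat_lit 352277) (nat_lit 11) (.e (nat_lit 426012) (nat_lit 0) (.e (nat_lit 7591) (nat_lit 407) (.e (nat_lit 73729) (nat_lit 0) .nil)))))) (.g (nat_lit 6) .nil .nil))))))))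

noncomputable def tv1651 : DT := (.nd (nat_lit 0) (.nd (nat_lit 1) (.nd (nat_lit 2) (.nd (nat_lit 3) (.nd (nat_lit 4) (.nd (nat_lit 5) 
(.lf (nat_lit 123520) (.g (nat_lit 2477) (.e (nat_lit 7261) (nat_lit 384) (.e (nat_lit 57424) (nat_lit 14) (.e (nat_lit 352277) (nat_lit 11) (.e (nat_lit 426012) (nat_lit 0) (.e (nat_lit 7591) (nat_lit 407) (.e (nat_lit 73731) (nat_lit 0) .nil)))))) (.g (nat_lit 0) .nil .nil))) 
(.lf (nat_lit 123552) (.g (nat_lit 1072) (.e (nat_lit 7261) (nat_lit 384) (.e (nat_lit 57424) (nat_lit 14) (.e (nat_lit 352324) (nat_lit 26) (.e (nat_lit 147467) (nat_lit 9) .nil)))) .nil))) (.nd (nat_lit 5) 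
(.lf (nat_lit 123536) (.g (nat_lit 585) (.e (nat_lit 7261) (nat_lit 384) (.e (nat_lit 57424) (nat_lit 14) (.e (nat_lit 352278) (nat_lit 11) .nil))) .nil)) 
(.lf (nat_lit 123568) (.g (nat_lit 3483) (.e (nat_lit 7261) (nat_lit 384) (.e (nat_lit 57424) (nat_lit 14) (.e (nat_lit 352324) (nat_lit 26) (.e (nat_lit 147496) (nat_lit 11) (.e (nat_lit 24640) (nat_lit 10) (.e (nat_lit 344090) (nat_lit 18) .nil)))))) (.g (nat_lit 6) .nil .nil))))) (.nd (nat_lit 4) (.nd (nat_lit 5) 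
(.lf (nat_lit 123528) (.g (nat_lit 3244) (.e (nat_lit 7261) (nat_lit 384) (.e (nat_lit 57424) (nat_lit 14) (.e (nat_lit 352277) (nat_lit 11) (.e (nat_lit 426343) (nat_lit 14) (.e (nat_lit 491558) (nat_lit 10) (.e (nat_lit 344091) (nat_lit 18) .nil)))))) (.g (nat_lit 0) .nil .nil))) 
(.lf (nat_lit 123560) (.g (nat_lit 3475) (.e (nat_lit 7261) (nat_lit 384) (.e (nat_lit 57424) (nat_lit 14) (.e (nat_lit 352324) (nat_lit 26) (.e (nat_lit 147495) (nat_lit 11) (.e (nat_lit 24639) (nat_lit 10) (.e (nat_lit 344096) (nat_lit 18) .nil)))))) (.g (nat_lit 6) .nil .nil)))) (.nd (nat_lit 5) 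
(.lf (nat_lit 123544) (.g (nat_lit 2305) (.e (nat_lit 7261) (nat_lit 384) (.e (nat_lit 57424) (nat_lit 14) (.e (nat_lit 352322) (nat_lit 26) (.e (nat_lit 147496) (nat_lit 11) (.e (nat_lit 24639) (nat_lit 10) (.e (nat_lit 344090) (nat_lit 18) .nil)))))) (.g (nat_lit 5) .nil .nil))) 
(.lf (nat_lit 123576) (.g (nat_lit 2490) (.e (nat_lit 7261) (nat_lit 384) (.e (nat_lit 57426) (nat_lit 15) (.e (nat_lit 360449) (nat_lit 0) (.e (nat_lit 7261) (nat_lit 384) (.e (nat_lit 57427) (nat_lit 15) (.e (nat_lit 360451) (nat_lit 0) .nil)))))) (.g (nat_lit 0) .nil .nil)))))) (.nd (nat_lit 3) (.nd (nat_lit 4) (.nd (nat_lit 5) 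
(.lf (nat_lit 123524) (.g (nat_lit 2584) (.e (nat_lit 7261) (nat_lit 384) (.e (nat_lit 57424) (nat_lit 14) (.e (nat_lit 352277) (nat_lit 11) (.e (nat_lit 426342) (nat_lit 14) (.e (nat_lit 491558) (nat_lit 10) (.e (nat_lit 344091) (nat_lit 18) .nil)))))) (.g (nat_lit 0) .nil .nil))) 
(.lf (nat_lit 123556) (.g (nat_lit 2497) (.e (nat_lit 7261) (nat_lit 384) (.e (nat_lit 57424) (nat_lit 14) (.e (nat_lit 352324) (nat_lit 26) (.e (nat_lit 147494) (nat_lit 11) (.e (nat_lit 24640) (nat_lit 10) (.e (nat_lit 344090) (nat_lit 18) .nil)))))) (.g (nat_lit 5) .nil .nil)))) (.nd (nat_lit 5) 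
(.lf (nat_lit 123540) (.g (nat_lit 2897) (.e (nat_lit 7261) (nat_lit 384) (.e (nat_lit 57424) (nat_lit 14) (.e (nat_lit 352308) (nat_lit 21) (.e (nat_lit 57681) (nat_lit 155) (.e (nat_lit 122919) (nat_lit 15) (.e (nat_lit 360451) (nat_lit 0) .nil)))))) (.g (nat_lit 0) .nil .nil))) 
(.lf (nat_lit 123572) (.g (nat_lit 3091) (.e (nat_lit 7261) (nat_lit 384) (.e (nat_lit 57424) (nat_lit 14) (.e (nat_lit 352324) (nat_lit 26) (.e (nat_lit 147496) (nat_lit 11) (.e (nat_lit 24641) (nat_lit 10) (.e (nat_lit 344095) (nat_lit 18) .nil)))))) (.g (nat_lit 5) .nil .nil))))) (.nd (nat_lit 4) (.nd (nat_lit 5) 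
(.lf (nat_lit 123532) (.g (nat_lit 2641) (.e (nat_lit 7261) (nat_lit 384) (.e (nat_lit 57424) (nat_lit 14) (.e (nat_lit 352277) (nat_lit 11) (.e (nat_lit 426344) (nat_lit 14) (.e (nat_lit 491558) (nat_lit 10) (.e (nat_lit 344090) (nat_lit 18) .nil)))))) (.g (nat_lit 6) .nil .nil))) 
(.lf (nat_lit 123564) (.g (nat_lit 3348) (.e (nat_lit 7261) (nat_lit 384) (.e (nat_lit 57424) (nat_lit 14) (.e (nat_lit 352324) (nat_lit 26) (.e (nat_lit 147496) (nat_lit 11) (.e (nat_lit 24639) (nat_lit 10) (.e (nat_lit 344090) (nat_lit 18) .nil)))))) (.g (nat_lit 0) .nil .nil)))) (.nd (nat_lit 5) 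
(.lf (nat_lit 123548) (.g (nat_lit 2054) (.e (nat_lit 7261) (nat_lit 384) (.e (nat_lit 57424) (nat_lit 14) (.e (nat_lit 352323) (nat_lit 26) (.e (nat_lit 147496) (nat_lit 11) (.e (nat_lit 24639) (nat_lit 10) (.e (nat_lit 344090) (nat_lit 18) .nil)))))) (.g (nat_lit 5) .nil .nil))) 
(.lf (nat_lit 123580) (.g (nat_lit 3159) (.e (nat_lit 7261) (nat_lit 384) (.e (nat_lit 57426) (nat_lit 15) (.e (nat_lit 360449) (nat_lit 0) (.e (nat_lit 7265) (nat_lit 384) (.e (nat_lit 57412) (nat_lit 12) (.e (nat_lit 336176) (nat_lit 10) (.e (nat_lit 344096) (nat_lit 18) .nil))))))) (.g (nat_lit 0) .nil .nil))))))) (.nd (nat_lit 2) (.nd (nat_lit 3) (.nd (nat_lit 4) (.nd (nat_lit 5) 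
(.lf (nat_lit 123522) (.g (nat_lit 2086) (.e (nat_lit 7261) (nat_lit 384) (.e (nat_lit 57424) (nat_lit 14) (.e (nat_lit 352277) (nat_lit 11) (.e (nat_lit 426012) (nat_lit 0) (.e (nat_lit 7593) (nat_lit 407) (.e (nat_lit 73731) (nat_lit 0) .nil)))))) (.g (nat_lit 5) .nil .nil))) 
(.lf (nat_lit 123554) (.g (nat_lit 1719) (.e (nat_lit 7261) (nat_lit 384) (.e (nat_lit 57424) (nat_lit 14) (.e (nat_lit 352324) (nat_lit 26) (.e (nat_lit 147494) (nat_lit 11) (.e (nat_lit 24639) (nat_lit 10) (.e (nat_lit 344090) (nat_lit 18) .nil)))))) (.g (nat_lit 4) .nil .nil)))) (.nd (nat_lit 5) 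
(.lf (nat_lit 123538) (.g (nat_lit 605) (.e (nat_lit 7261) (nat_lit 384) (.e (nat_lit 57424) (nat_lit 14) (.e (nat_lit 352302) (nat_lit 20) .nil))) .nil)) 
(.lf (nat_lit 123570) (.g (nat_lit 3631) (.e (nat_lit 7261) (nat_lit 384) (.e (nat_lit 57424) (nat_lit 14) (.e (nat_lit 352324) (nat_lit 26) (.e (nat_lit 147496) (nat_lit 11) (.e (nat_lit 24640) (nat_lit 10) (.e (nat_lit 344096) (nat_lit 18) .nil)))))) (.g (nat_lit 6) .nil .nil))))) (.nd (nat_lit 4) (.nd (nat_lit 5) 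
(.lf (nat_lit 123530) (.g (nat_lit 2712) (.e (nat_lit 7261) (nat_lit 384) (.e (nat_lit 57424) (nat_lit 14) (.e (nat_lit 352277) (nat_lit 11) (.e (nat_lit 426343) (nat_lit 14) (.e (nat_lit 491560) (nat_lit 10) (.e (nat_lit 344094) (nat_lit 18) .nil)))))) (.g (nat_lit 5) .nil .nil))) 
(.lf (nat_lit 123562) (.g (nat_lit 3663) (.e (nat_lit 7261) (nat_lit 384) (.e (nat_lit 57424) (nat_lit 14) (.e (nat_lit 352324) (nat_lit 26) (.e (nat_lit 147495) (nat_lit 11) (.e (nat_lit 24640) (nat_lit 10) (.e (nat_lit 344096) (nat_lit 18) .nil)))))) (.g (nat_lit 6) .nil .nil)))) (.nd (nat_lit 5) 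
(.lf (nat_lit 123546) (.g (nat_lit 531) (.e (nat_lit 7261) (nat_lit 384) (.e (nat_lit 57424) (nat_lit 14) (.e (nat_lit 352323) (nat_lit 26) .nil))) .nil)) 
(.lf (nat_lit 123578) (.g (nat_lit 2419) (.e (nat_lit 7261) (nat_lit 384) (.e (nat_lit 57426) (nat_lit 15) (.e (nat_lit 360449) (nat_lit 0) (.e (nat_lit 7263) (nat_lit 384) (.e (nat_lit 57427) (nat_lit 15) (.e (nat_lit 360451) (nat_lit 0) .nil)))))) (.g (nat_lit 0) .nil .nil)))))) (.nd (nat_lit 3) (.nd (nat_lit 4) (.nd (nat_lit 5) 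
(.lf (nat_lit 123526) (.g (nat_lit 2346) (.e (nat_lit 7261) (nat_lit 384) (.e (nat_lit 57424) (nat_lit 14) (.e (nat_lit 352277) (nat_lit 11) (.e (nat_lit 426342) (nat_lit 14) (.e (nat_lit 491560) (nat_lit 10) (.e (nat_lit 344094) (nat_lit 18) .nil)))))) (.g (nat_lit 6) .nil .nil))) 
(.lf (nat_lit 123558) (.g (nat_lit 3549) (.e (nat_lit 7261) (nat_lit 384) (.e (nat_lit 57424) (nat_lit 14) (.e (nat_lit 352324) (nat_lit 26) (.e (nat_lit 147495) (nat_lit 11) (.e (nat_lit 24639) (nat_lit 10) (.e (nat_lit 344090) (nat_lit 18) .nil)))))) (.g (nat_lit 0) .nil .nil)))) (.nd (nat_lit 5) 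
(.lf (nat_lit 123542) (.g (nat_lit 2848) (.e (nat_lit 7261) (nat_lit 384) (.e (nat_lit 57424) (nat_lit 14) (.e (nat_lit 352322) (nat_lit 26) (.e (nat_lit 147495) (nat_lit 11) (.e (nat_lit 24639) (nat_lit 10) (.e (nat_lit 344095) (nat_lit 18) .nil)))))) (.g (nat_lit 6) .nil .nil))) 
(.lf (nat_lit 123574) (.g (nat_lit 1998) (.e (nat_lit 7261) (nat_lit 384) (.e (nat_lit 57426) (nat_lit 15) (.e (nat_lit 360449) (nat_lit 0) (.e (nat_lit 7261) (nat_lit 384) (.e (nat_lit 57426) (nat_lit 15) (.e (nat_lit 360449) (nat_lit 0) .nil)))))) (.g (nat_lit 0) .nil .nil))))) (.nd (nat_lit 4) (.nd (nat_lit 5) 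
(.lf (nat_lit 123534) (.g (nat_lit 2718) (.e (nat_lit 7261) (nat_lit 384) (.e (nat_lit 57424) (nat_lit 14) (.e (nat_lit 352277) (nat_lit 11) (.e (nat_lit 426344) (nat_lit 14) (.e (nat_lit 491560) (nat_lit 10) (.e (nat_lit 344091) (nat_lit 18) .nil)))))) (.g (nat_lit 6) .nil .nil))) 
(.lf (nat_lit 123566) (.g (nat_lit 3234) (.e (nat_lit 7261) (nat_lit 384) (.e (nat_lit 57424) (nat_lit 14) (.e (nat_lit 352324) (nat_lit 26) (.e (nat_lit 147496) (nat_lit 11) (.e (nat_lit 24639) (nat_lit 10) (.e (nat_lit 344095) (nat_lit 18) .nil)))))) (.g (nat_lit 0) .nil .nil)))) (.nd (nat_lit 5) 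
(.lf (nat_lit 123550) (.g (nat_lit 382) (.e (nat_lit 7261) (nat_lit 384) (.e (nat_lit 57424) (nat_lit 14) (.e (nat_lit 352324) (nat_lit 26) .nil))) .nil)) 
(.lf (nat_lit 123582) (.g (nat_lit 3453) (.e (nat_lit 7261) (nat_lit 384) (.e (nat_lit 57426) (nat_lit 15) (.e (nat_lit 360449) (nat_lit 0) (.e (nat_lit 7265) (nat_lit 384) (.e (nat_lit 57427) (nat_lit 15) (.e (nat_lit 360450) (nat_lit 0) .nil)))))) (.g (nat_lit 0) .nil .nil)))))))) (.nd (nat_lit 1) (.nd (nat_lit 2) (.nd (nat_lit 3) (.nd (nat_lit 4) (.nd (nat_lit 5) 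
(.lf (nat_lit 123521) (.g (nat_lit 2549) (.e (nat_lit 7261) (nat_lit 384) (.e (nat_lit 57424) (nat_lit 14) (.e (nat_lit 352277) (nat_lit 11) (.e (nat_lit 426012) (nat_lit 0) (.e (nat_lit 7593) (nat_lit 407) (.e (nat_lit 73730) (nat_lit 0) .nil)))))) (.g (nat_lit 6) .nil .nil))) 
(.lf (nat_lit 123553) (.g (nat_lit 1386) (.e (nat_lit 7261) (nat_lit 384) (.e (nat_lit 57424) (nat_lit 14) (.e (nat_lit 352324) (nat_lit 26) (.e (nat_lit 147478) (nat_lit 9) .nil)))) .nil))) (.nd (nat_lit 5) 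
(.lf (nat_lit 123537) (.g (nat_lit 616) (.e (nat_lit 7261) (nat_lit 384) (.e (nat_lit 57424) (nat_lit 14) (.e (nat_lit 352285) (nat_lit 20) .nil))) .nil)) 
(.lf (nat_lit 123569) (.g (nat_lit 3315) (.e (nat_lit 7261) (nat_lit 384) (.e (nat_lit 57424) (nat_lit 14) (.e (nat_lit 352324) (nat_lit 26) (.e (nat_lit 147496) (nat_lit 11) (.e (nat_lit 24640) (nat_lit 10) (.e (nat_lit 344095) (nat_lit 18) .nil)))))) (.g (nat_lit 6) .nil .nil))))) (.nd (nat_lit 4) (.nd (nat_lit 5) 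
(.lf (nat_lit 123529) (.g (nat_lit 2911) (.e (nat_lit 7261) (nat_lit 384) (.e (nat_lit 57424) (nat_lit 14) (.e (nat_lit 352277) (nat_lit 11) (.e (nat_lit 426343) (nat_lit 14) (.e (nat_lit 491560) (nat_lit 10) (.e (nat_lit 344091) (nat_lit 18) .nil)))))) (.g (nat_lit 6) .nil .nil))) 
(.lf (nat_lit 123561) (.g (nat_lit 3510) (.e (nat_lit 7261) (nat_lit 384) (.e (nat_lit 57424) (nat_lit 14) (.e (nat_lit 352324) (nat_lit 26) (.e (nat_lit 147495) (nat_lit 11) (.e (nat_lit 24640) (nat_lit 10) (.e (nat_lit 344090) (nat_lit 18) .nil)))))) (.g (nat_lit 6) .nil .nil)))) (.nd (nat_lit 5) 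
(.lf (nat_lit 123545) (.g (nat_lit 2884) (.e (nat_lit 7261) (nat_lit 384) (.e (nat_lit 57424) (nat_lit 14) (.e (nat_lit 352322) (nat_lit 26) (.e (nat_lit 147496) (nat_lit 11) (.e (nat_lit 24640) (nat_lit 10) (.e (nat_lit 344090) (nat_lit 18) .nil)))))) (.g (nat_lit 5) .nil .nil))) 
(.lf (nat_lit 123577) (.g (nat_lit 2678) (.e (nat_lit 7261) (nat_lit 384) (.e (nat_lit 57426) (nat_lit 15) (.e (nat_lit 360449) (nat_lit 0) (.e (nat_lit 7263) (nat_lit 384) (.e (nat_lit 57412) (nat_lit 12) (.e (nat_lit 336176) (nat_lit 10) (.e (nat_lit 344091) (nat_lit 18) .nil))))))) (.g (nat_lit 0) .nil .nil)))))) (.nd (nat_lit 3) (.nd (nat_lit 4) (.nd (nat_lit 5) 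
(.lf (nat_lit 123525) (.g (nat_lit 2531) (.e (nat_lit 7261) (nat_lit 384) (.e (nat_lit 57424) (nat_lit 14) (.e (nat_lit 352277) (nat_lit 11) (.e (nat_lit 426342) (nat_lit 14) (.e (nat_lit 491560) (nat_lit 10) (.e (nat_lit 344091) (nat_lit 18) .nil)))))) (.g (nat_lit 6) .nil .nil))) 
(.lf (nat_lit 123557) (.g (nat_lit 2373) (.e (nat_lit 7261) (nat_lit 384) (.e (nat_lit 57424) (nat_lit 14) (.e (nat_lit 352324) (nat_lit 26) (.e (nat_lit 147494) (nat_lit 11) (.e (nat_lit 24640) (nat_lit 10) (.e (nat_lit 344095) (nat_lit 18) .nil)))))) (.g (nat_lit 5) .nil .nil)))) (.nd (nat_lit 5) 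
(.lf (nat_lit 123541) (.g (nat_lit 2971) (.e (nat_lit 7261) (nat_lit 384) (.e (nat_lit 57424) (nat_lit 14) (.e (nat_lit 352322) (nat_lit 26) (.e (nat_lit 147495) (nat_lit 11) (.e (nat_lit 24639) (nat_lit 10) (.e (nat_lit 344090) (nat_lit 18) .nil)))))) (.g (nat_lit 6) .nil .nil))) 
(.lf (nat_lit 123573) (.g (nat_lit 2715) (.e (nat_lit 7261) (nat_lit 384) (.e (nat_lit 57426) (nat_lit 15) (.e (nat_lit 360449) (nat_lit 0) (.e (nat_lit 7261) (nat_lit 384) (.e (nat_lit 57412) (nat_lit 12) (.e (nat_lit 336176) (nat_lit 10) (.e (nat_lit 344091) (nat_lit 18) .nil))))))) (.g (nat_lit 0) .nil .nil))))) (.nd (nat_lit 4) (.nd (nat_lit 5) 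
(.lf (nat_lit 123533) (.g (nat_lit 3069) (.e (nat_lit 7261) (nat_lit 384) (.e (nat_lit 57424) (nat_lit 14) (.e (nat_lit 352277) (nat_lit 11) (.e (nat_lit 426344) (nat_lit 14) (.e (nat_lit 491558) (nat_lit 10) (.e (nat_lit 344091) (nat_lit 18) .nil)))))) (.g (nat_lit 0) .nil .nil))) 
(.lf (nat_lit 123565) (.g (nat_lit 2151) (.e (nat_lit 7261) (nat_lit 384) (.e (nat_lit 57424) (nat_lit 14) (.e (nat_lit 352324) (nat_lit 26) (.e (nat_lit 147496) (nat_lit 11) (.e (nat_lit 24639) (nat_lit 10) (.e (nat_lit 344091) (nat_lit 18) .nil)))))) (.g (nat_lit 4) .nil .nil)))) (.nd (nat_lit 5) 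
(.lf (nat_lit 123549) (.g (nat_lit 2588) (.e (nat_lit 7261) (nat_lit 384) (.e (nat_lit 57424) (nat_lit 14) (.e (nat_lit 352323) (nat_lit 26) (.e (nat_lit 147496) (nat_lit 11) (.e (nat_lit 24640) (nat_lit 10) (.e (nat_lit 344090) (nat_lit 18) .nil)))))) (.g (nat_lit 5) .nil .nil))) 
(.lf (nat_lit 123581) (.g (nat_lit 2734) (.e (nat_lit 7261) (nat_lit 384) (.e (nat_lit 57426) (nat_lit 15) (.e (nat_lit 360449) (nat_lit 0) (.e (nat_lit 7265) (nat_lit 384) (.e (nat_lit 57426) (nat_lit 15) (.e (nat_lit 360449) (nat_lit 0) .nil)))))) (.g (nat_lit 0) .nil .nil))))))) (.nd (nat_lit 2) (.nd (nat_lit 3) (.nd (nat_lit 4) (.nd (nat_lit 5) 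
(.lf (nat_lit 123523) (.g (nat_lit 2083) (.e (nat_lit 7261) (nat_lit 384) (.e (nat_lit 57424) (nat_lit 14) (.e (nat_lit 352277) (nat_lit 11) (.e (nat_lit 426342) (nat_lit 14) (.e (nat_lit 491558) (nat_lit 10) (.e (nat_lit 344090) (nat_lit 18) .nil)))))) (.g (nat_lit 5) .nil .nil))) 
(.lf (nat_lit 123555) (.g (nat_lit 1550) (.e (nat_lit 7261) (nat_lit 384) (.e (nat_lit 57424) (nat_lit 14) (.e (nat_lit 352324) (nat_lit 26) (.e (nat_lit 147494) (nat_lit 11) (.e (nat_lit 24639) (nat_lit 10) (.e (nat_lit 344095) (nat_lit 18) .nil)))))) (.g (nat_lit 4) .nil .nil)))) (.nd (nat_lit 5) 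
(.lf (nat_lit 123539) (.g (nat_lit 3337) (.e (nat_lit 7261) (nat_lit 384) (.e (nat_lit 57424) (nat_lit 14) (.e (nat_lit 352307) (nat_lit 21) (.e (nat_lit 57681) (nat_lit 155) (.e (nat_lit 122919) (nat_lit 15) (.e (nat_lit 360451) (nat_lit 0) .nil)))))) (.g (nat_lit 6) .nil .nil))) 
(.lf (nat_lit 123571) (.g (nat_lit 2304) (.e (nat_lit 7261) (nat_lit 384) (.e (nat_lit 57424) (nat_lit 14) (.e (nat_lit 352324) (nat_lit 26) (.e (nat_lit 147496) (nat_lit 11) (.e (nat_lit 24641) (nat_lit 10) .nil))))) .nil)))) (.nd (nat_lit 4) (.nd (nat_lit 5) 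
(.lf (nat_lit 123531) (.g (nat_lit 2955) (.e (nat_lit 7261) (nat_lit 384) (.e (nat_lit 57424) (nat_lit 14) (.e (nat_lit 352277) (nat_lit 11) (.e (nat_lit 426343) (nat_lit 14) (.e (nat_lit 491560) (nat_lit 10) (.e (nat_lit 344095) (nat_lit 18) .nil)))))) (.g (nat_lit 5) .nil .nil))) 
(.lf (nat_lit 123563) (.g (nat_lit 2156) (.e (nat_lit 7261) (nat_lit 384) (.e (nat_lit 57424) (nat_lit 14) (.e (nat_lit 352324) (nat_lit 26) (.e (nat_lit 147495) (nat_lit 11) (.e (nat_lit 24641) (nat_lit 10) (.e (nat_lit 344095) (nat_lit 18) .nil)))))) (.g (nat_lit 4) .nil .nil)))) (.nd (nat_lit 5) 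
(.lf (nat_lit 123547) (.g (nat_lit 2211) (.e (nat_lit 7261) (nat_lit 384) (.e (nat_lit 57424) (nat_lit 14) (.e (nat_lit 352323) (nat_lit 26) (.e (nat_lit 147495) (nat_lit 11) (.e (nat_lit 24639) (nat_lit 10) (.e (nat_lit 344090) (nat_lit 18) .nil)))))) (.g (nat_lit 5) .nil .nil))) 
(.lf (nat_lit 123579) (.g (nat_lit 3102) (.e (nat_lit 7261) (nat_lit 384) (.e (nat_lit 57426) (nat_lit 15) (.e (nat_lit 360449) (nat_lit 0) (.e (nat_lit 7265) (nat_lit 384) (.e (nat_lit 57412) (nat_lit 12) (.e (nat_lit 336176) (nat_lit 10) (.e (nat_lit 344091) (nat_lit 18) .nil))))))) (.g (nat_lit 0) .nil .nil)))))) (.nd (nat_lit 3) (.nd (nat_lit 4) (.nd (nat_lit 5) 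
(.lf (nat_lit 123527) (.g (nat_lit 2819) (.e (nat_lit 7261) (nat_lit 384) (.e (nat_lit 57424) (nat_lit 14) (.e (nat_lit 352277) (nat_lit 11) (.e (nat_lit 426343) (nat_lit 14) (.e (nat_lit 491558) (nat_lit 10) (.e (nat_lit 344090) (nat_lit 18) .nil)))))) (.g (nat_lit 6) .nil .nil))) 
(.lf (nat_lit 123559) (.g (nat_lit 3403) (.e (nat_lit 7261) (nat_lit 384) (.e (nat_lit 57424) (nat_lit 14) (.e (nat_lit 352324) (nat_lit 26) (.e (nat_lit 147495) (nat_lit 11) (.e (nat_lit 24639) (nat_lit 10) (.e (nat_lit 344095) (nat_lit 18) .nil)))))) (.g (nat_lit 0) .nil .nil)))) (.nd (nat_lit 5) 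
(.lf (nat_lit 123543) (.g (nat_lit 2730) (.e (nat_lit 7261) (nat_lit 384) (.e (nat_lit 57424) (nat_lit 14) (.e (nat_lit 352322) (nat_lit 26) (.e (nat_lit 147495) (nat_lit 11) (.e (nat_lit 24640) (nat_lit 10) (.e (nat_lit 344095) (nat_lit 18) .nil)))))) (.g (nat_lit 5) .nil .nil))) 
(.lf (nat_lit 123575) (.g (nat_lit 2773) (.e (nat_lit 7261) (nat_lit 384) (.e (nat_lit 57426) (nat_lit 15) (.e (nat_lit 360449) (nat_lit 0) (.e (nat_lit 7261) (nat_lit 384) (.e (nat_lit 57427) (nat_lit 15) (.e (nat_lit 360450) (nat_lit 0) .nil)))))) (.g (nat_lit 0) .nil .nil))))) (.nd (nat_lit 4) (.nd (nat_lit 5) 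
(.lf (nat_lit 123535) (.g (nat_lit 2716) (.e (nat_lit 7261) (nat_lit 384) (.e (nat_lit 57424) (nat_lit 14) (.e (nat_lit 352277) (nat_lit 11) (.e (nat_lit 426344) (nat_lit 14) (.e (nat_lit 491560) (nat_lit 10) (.e (nat_lit 344095) (nat_lit 18) .nil)))))) (.g (nat_lit 6) .nil .nil))) 
(.lf (nat_lit 123567) (.g (nat_lit 3279) (.e (nat_lit 7261) (nat_lit 384) (.e (nat_lit 57424) (nat_lit 14) (.e (nat_lit 352324) (nat_lit 26) (.e (nat_lit 147496) (nat_lit 11) (.e (nat_lit 24639) (nat_lit 10) (.e (nat_lit 344096) (nat_lit 18) .nil)))))) (.g (nat_lit 6) .nil .nil)))) (.nd (nat_lit 5) 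
(.lf (nat_lit 123551) (.g (nat_lit 1257) (.e (nat_lit 7261) (nat_lit 384) (.e (nat_lit 57424) (nat_lit 14) (.e (nat_lit 352324) (nat_lit 26) (.e (nat_lit 147466) (nat_lit 9) .nil)))) .nil)) 
(.lf (nat_lit 123583) (.g (nat_lit 3166) (.e (nat_lit 7261) (nat_lit 384) (.e (nat_lit 57426) (nat_lit 15) (.e (nat_lit 360449) (nat_lit 0) (.e (nat_lit 7265) (nat_lit 384) (.e (nat_lit 57427) (nat_lit 15) (.e (nat_lit 360451) (nat_lit 0) .nil)))))) (.g (nat_lit 0) .nil .nil)))))))))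

noncomputable def tv1652 : DT := (.nd (nat_lit 0) (.nd (nat_lit 1) (.nd (nat_lit 2) (.nd (nat_lit 3) (.nd (nat_lit 4) (.nd (nat_lit 5) 
(.lf (nat_lit 123584) (.g (nat_lit 3080) (.e (nat_lit 7261) (nat_lit 384) (.e (nat_lit 57426) (nat_lit 15) (.e (nat_lit 360449) (nat_lit 0) (.e (nat_lit 7266) (nat_lit 384) (.e (nat_lit 57427) (nat_lit 15) (.e (nat_lit 360451) (nat_lit 0) .nil)))))) (.g (nat_lit 0) .nil .nil))) 
(.lf (nat_lit 123616) (.g (nat_lit 1723) (.e (nat_lit 7261) (nat_lit 384) (.e (nat_lit 57426) (nat_lit 15) (.e (nat_lit 360491) (nat_lit 22) (.e (nat_lit 778466) (nat_lit 11) (.e (nat_lit 24640) (nat_lit 10) (.e (nat_lit 344088) (nat_lit 18) .nil)))))) (.g (nat_lit 5) .nil .nil)))) (.nd (nat_lit 5) 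
(.lf (nat_lit 123600) (.g (nat_lit 1949) (.e (nat_lit 7261) (nat_lit 384) (.e (nat_lit 57426) (nat_lit 15) (.e (nat_lit 360452) (nat_lit 0) (.e (nat_lit 7272) (nat_lit 385) (.e (nat_lit 122906) (nat_lit 12) (.e (nat_lit 336172) (nat_lit 10) (.e (nat_lit 344095) (nat_lit 18) .nil))))))) (.g (nat_lit 5) .nil .nil))) 
(.lf (nat_lit 123632) (.g (nat_lit 1834) (.e (nat_lit 7261) (nat_lit 384) (.e (nat_lit 57427) (nat_lit 15) (.e (nat_lit 360450) (nat_lit 0) (.e (nat_lit 7220) (nat_lit 382) .nil)))) .nil)))) (.nd (nat_lit 4) (.nd (nat_lit 5) 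
(.lf (nat_lit 123592) (.g (nat_lit 2845) (.e (nat_lit 7261) (nat_lit 384) (.e (nat_lit 57426) (nat_lit 15) (.e (nat_lit 360451) (nat_lit 0) (.e (nat_lit 7124) (nat_lit 382) (.e (nat_lit 1201) (nat_lit 88) (.e (nat_lit 65617) (nat_lit 10) (.e (nat_lit 344095) (nat_lit 18) .nil))))))) (.g (nat_lit 6) .nil .nil))) 
(.lf (nat_lit 123624) (.g (nat_lit 1944) (.e (nat_lit 7261) (nat_lit 384) (.e (nat_lit 57427) (nat_lit 15) (.e (nat_lit 360449) (nat_lit 0) (.e (nat_lit 7263) (nat_lit 384) (.e (nat_lit 57412) (nat_lit 12) (.e (nat_lit 336176) (nat_lit 10) (.e (nat_lit 344091) (nat_lit 18) .nil))))))) (.g (nat_lit 5) .nil .nil)))) (.nd (nat_lit 5) 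
(.lf (nat_lit 123608) (.g (nat_lit 983) (.e (nat_lit 7261) (nat_lit 384) (.e (nat_lit 57426) (nat_lit 15) (.e (nat_lit 360491) (nat_lit 22) (.e (nat_lit 778464) (nat_lit 11) (.e (nat_lit 24639) (nat_lit 10) (.e (nat_lit 344095) (nat_lit 18) .nil)))))) (.g (nat_lit 4) .nil .nil))) 
(.lf (nat_lit 123640) (.g (nat_lit 2913) (.e (nat_lit 7261) (nat_lit 384) (.e (nat_lit 57427) (nat_lit 15) (.e (nat_lit 360450) (nat_lit 0) (.e (nat_lit 7265) (nat_lit 384) (.e (nat_lit 57412) (nat_lit 12) (.e (nat_lit 336176) (nat_lit 10) (.e (nat_lit 344096) (nat_lit 18) .nil))))))) (.g (nat_lit 6) .nil .nil)))))) (.nd (nat_lit 3) (.nd (nat_lit 4) (.nd (nat_lit 5) 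
(.lf (nat_lit 123588) (.g (nat_lit 1493) (.e (nat_lit 7261) (nat_lit 384) (.e (nat_lit 57426) (nat_lit 15) (.e (nat_lit 360450) (nat_lit 0) (.e (nat_lit 7261) (nat_lit 384) (.e (nat_lit 57412) (nat_lit 12) .nil))))) .nil)) 
(.lf (nat_lit 123620) (.g (nat_lit 2232) (.e (nat_lit 7261) (nat_lit 384) (.e (nat_lit 57426) (nat_lit 15) (.e (nat_lit 360491) (nat_lit 22) (.e (nat_lit 778466) (nat_lit 11) (.e (nat_lit 24641) (nat_lit 10) (.e (nat_lit 344095) (nat_lit 18) .nil)))))) (.g (nat_lit 0) .nil .nil)))) (.nd (nat_lit 5) 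
(.lf (nat_lit 123604) (.g (nat_lit 2606) (.e (nat_lit 7261) (nat_lit 384) (.e (nat_lit 57426) (nat_lit 15) (.e (nat_lit 360453) (nat_lit 0) (.e (nat_lit 7270) (nat_lit 385) (.e (nat_lit 122919) (nat_lit 15) (.e (nat_lit 360451) (nat_lit 0) .nil)))))) (.g (nat_lit 6) .nil .nil))) 
(.lf (nat_lit 123636) (.g (nat_lit 3266) (.e (nat_lit 7261) (nat_lit 384) (.e (nat_lit 57427) (nat_lit 15) (.e (nat_lit 360450) (nat_lit 0) (.e (nat_lit 7261) (nat_lit 384) (.e (nat_lit 57427) (nat_lit 15) (.e (nat_lit 360451) (nat_lit 0) .nil)))))) (.g (nat_lit 0) .nil .nil))))) (.nd (nat_lit 4) (.nd (nat_lit 5) 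
(.lf (nat_lit 123596) (.g (nat_lit 913) (.e (nat_lit 7261) (nat_lit 384) (.e (nat_lit 57426) (nat_lit 15) (.e (nat_lit 360452) (nat_lit 0) (.e (nat_lit 7147) (nat_lit 382) .nil)))) .nil)) 
(.lf (nat_lit 123628) (.g (nat_lit 3941) (.e (nat_lit 7261) (nat_lit 384) (.e (nat_lit 57427) (nat_lit 15) (.e (nat_lit 360450) (nat_lit 0) (.e (nat_lit 7125) (nat_lit 382) (.e (nat_lit 1201) (nat_lit 88) (.e (nat_lit 65610) (nat_lit 10) (.e (nat_lit 344090) (nat_lit 18) .nil))))))) (.g (nat_lit 6) .nil .nil)))) (.nd (nat_lit 5) 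
(.lf (nat_lit 123612) (.g (nat_lit 2319) (.e (nat_lit 7261) (nat_lit 384) (.e (nat_lit 57426) (nat_lit 15) (.e (nat_lit 360491) (nat_lit 22) (.e (nat_lit 778465) (nat_lit 11) (.e (nat_lit 24640) (nat_lit 10) (.e (nat_lit 344095) (nat_lit 18) .nil)))))) (.g (nat_lit 6) .nil .nil))) 
(.lf (nat_lit 123644) (.g (nat_lit 2111) (.e (nat_lit 7261) (nat_lit 384) (.e (nat_lit 57427) (nat_lit 15) (.e (nat_lit 360450) (nat_lit 0) (.e (nat_lit 7266) (nat_lit 384) (.e (nat_lit 57426) (nat_lit 15) .nil))))) .nil)))))) (.nd (nat_lit 2) (.nd (nat_lit 3) (.nd (nat_lit 4) (.nd (nat_lit 5) 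
(.lf (nat_lit 123586) (.g (nat_lit 2088) (.e (nat_lit 7261) (nat_lit 384) (.e (nat_lit 57426) (nat_lit 15) (.e (nat_lit 360450) (nat_lit 0) (.e (nat_lit 7122) (nat_lit 382) (.e (nat_lit 1201) (nat_lit 88) (.e (nat_lit 65617) (nat_lit 10) (.e (nat_lit 344091) (nat_lit 18) .nil))))))) (.g (nat_lit 4) .nil .nil))) 
(.lf (nat_lit 123618) (.g (nat_lit 2585) (.e (nat_lit 7261) (nat_lit 384) (.e (nat_lit 57426) (nat_lit 15) (.e (nat_lit 360491) (nat_lit 22) (.e (nat_lit 778466) (nat_lit 11) (.e (nat_lit 24640) (nat_lit 10) (.e (nat_lit 344095) (nat_lit 18) .nil)))))) (.g (nat_lit 0) .nil .nil)))) (.nd (nat_lit 5) 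
(.lf (nat_lit 123602) (.g (nat_lit 3610) (.e (nat_lit 7261) (nat_lit 384) (.e (nat_lit 57426) (nat_lit 15) (.e (nat_lit 360452) (nat_lit 0) (.e (nat_lit 7272) (nat_lit 385) (.e (nat_lit 122919) (nat_lit 15) (.e (nat_lit 360450) (nat_lit 0) .nil)))))) (.g (nat_lit 0) .nil .nil))) 
(.lf (nat_lit 123634) (.g (nat_lit 1605) (.e (nat_lit 7261) (nat_lit 384) (.e (nat_lit 57427) (nat_lit 15) (.e (nat_lit 360450) (nat_lit 0) (.e (nat_lit 7261) (nat_lit 384) (.e (nat_lit 57426) (nat_lit 15) .nil))))) .nil)))) (.nd (nat_lit 4) (.nd (nat_lit 5) 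
(.lf (nat_lit 123594) (.g (nat_lit 2777) (.e (nat_lit 7261) (nat_lit 384) (.e (nat_lit 57426) (nat_lit 15) (.e (nat_lit 360451) (nat_lit 0) (.e (nat_lit 7265) (nat_lit 384) (.e (nat_lit 57412) (nat_lit 12) (.e (nat_lit 336176) (nat_lit 10) (.e (nat_lit 344095) (nat_lit 18) .nil))))))) (.g (nat_lit 6) .nil .nil))) 
(.lf (nat_lit 123626) (.g (nat_lit 2075) (.e (nat_lit 7261) (nat_lit 384) (.e (nat_lit 57427) (nat_lit 15) (.e (nat_lit 360449) (nat_lit 0) (.e (nat_lit 7265) (nat_lit 384) (.e (nat_lit 57426) (nat_lit 15) (.e (nat_lit 360449) (nat_lit 0) .nil)))))) (.g (nat_lit 5) .nil .nil)))) (.nd (nat_lit 5) 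
(.lf (nat_lit 123610) (.g (nat_lit 2168) (.e (nat_lit 7261) (nat_lit 384) (.e (nat_lit 57426) (nat_lit 15) (.e (nat_lit 360491) (nat_lit 22) (.e (nat_lit 778465) (nat_lit 11) (.e (nat_lit 24639) (nat_lit 10) (.e (nat_lit 344090) (nat_lit 18) .nil)))))) (.g (nat_lit 6) .nil .nil))) 
(.lf (nat_lit 123642) (.g (nat_lit 1898) (.e (nat_lit 7261) (nat_lit 384) (.e (nat_lit 57427) (nat_lit 15) (.e (nat_lit 360450) (nat_lit 0) (.e (nat_lit 7265) (nat_lit 384) (.e (nat_lit 57426) (nat_lit 15) (.e (nat_lit 360451) (nat_lit 0) .nil)))))) (.g (nat_lit 4) .nil .nil)))))) (.nd (nat_lit 3) (.nd (nat_lit 4) (.nd (nat_lit 5) 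
(.lf (nat_lit 123590) (.g (nat_lit 1482) (.e (nat_lit 7261) (nat_lit 384) (.e (nat_lit 57426) (nat_lit 15) (.e (nat_lit 360450) (nat_lit 0) (.e (nat_lit 7263) (nat_lit 384) (.e (nat_lit 57412) (nat_lit 12) (.e (nat_lit 336176) (nat_lit 10) (.e (nat_lit 344096) (nat_lit 18) .nil))))))) (.g (nat_lit 4) .nil .nil))) 
(.lf (nat_lit 123622) (.g (nat_lit 2985) (.e (nat_lit 7261) (nat_lit 384) (.e (nat_lit 57427) (nat_lit 15) (.e (nat_lit 360449) (nat_lit 0) (.e (nat_lit 7125) (nat_lit 382) (.e (nat_lit 1201) (nat_lit 88) (.e (nat_lit 65617) (nat_lit 10) (.e (nat_lit 344091) (nat_lit 18) .nil))))))) (.g (nat_lit 6) .nil .nil)))) (.nd (nat_lit 5) 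
(.lf (nat_lit 123606) (.g (nat_lit 2237) (.e (nat_lit 7261) (nat_lit 384) (.e (nat_lit 57426) (nat_lit 15) (.e (nat_lit 360489) (nat_lit 21) (.e (nat_lit 770072) (nat_lit 8) (.e (nat_lit 65619) (nat_lit 10) (.e (nat_lit 344090) (nat_lit 18) .nil)))))) (.g (nat_lit 6) .nil .nil))) 
(.lf (nat_lit 123638) (.g (nat_lit 3229) (.e (nat_lit 7261) (nat_lit 384) (.e (nat_lit 57427) (nat_lit 15) (.e (nat_lit 360450) (nat_lit 0) (.e (nat_lit 7263) (nat_lit 384) (.e (nat_lit 57427) (nat_lit 15) (.e (nat_lit 360451) (nat_lit 0) .nil)))))) (.g (nat_lit 0) .nil .nil))))) (.nd (nat_lit 4) (.nd (nat_lit 5) 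
(.lf (nat_lit 123598) (.g (nat_lit 3691) (.e (nat_lit 7261) (nat_lit 384) (.e (nat_lit 57426) (nat_lit 15) (.e (nat_lit 360452) (nat_lit 0) (.e (nat_lit 7270) (nat_lit 385) (.e (nat_lit 122919) (nat_lit 15) (.e (nat_lit 360450) (nat_lit 0) .nil)))))) (.g (nat_lit 0) .nil .nil))) 
(.lf (nat_lit 123630) (.g (nat_lit 1838) (.e (nat_lit 7261) (nat_lit 384) (.e (nat_lit 57427) (nat_lit 15) (.e (nat_lit 360450) (nat_lit 0) (.e (nat_lit 7125) (nat_lit 382) (.e (nat_lit 1224) (nat_lit 90) .nil))))) .nil))) (.nd (nat_lit 5) 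
(.lf (nat_lit 123614) (.g (nat_lit 2028) (.e (nat_lit 7261) (nat_lit 384) (.e (nat_lit 57426) (nat_lit 15) (.e (nat_lit 360491) (nat_lit 22) (.e (nat_lit 778466) (nat_lit 11) (.e (nat_lit 24639) (nat_lit 10) (.e (nat_lit 344090) (nat_lit 18) .nil)))))) (.g (nat_lit 6) .nil .nil))) 
(.lf (nat_lit 123646) (.g (nat_lit 1581) (.e (nat_lit 7261) (nat_lit 384) (.e (nat_lit 57427) (nat_lit 15) (.e (nat_lit 360451) (nat_lit 0) (.e (nat_lit 7119) (nat_lit 382) .nil)))) .nil))))))) (.nd (nat_lit 1) (.nd (nat_lit 2) (.nd (nat_lit 3) (.nd (nat_lit 4) (.nd (nat_lit 5) 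
(.lf (nat_lit 123585) (.g (nat_lit 2095) (.e (nat_lit 7261) (nat_lit 384) (.e (nat_lit 57426) (nat_lit 15) (.e (nat_lit 360450) (nat_lit 0) (.e (nat_lit 7122) (nat_lit 382) (.e (nat_lit 1201) (nat_lit 88) (.e (nat_lit 65610) (nat_lit 10) (.e (nat_lit 344090) (nat_lit 18) .nil))))))) (.g (nat_lit 4) .nil .nil))) 
(.lf (nat_lit 123617) (.g (nat_lit 2561) (.e (nat_lit 7261) (nat_lit 384) (.e (nat_lit 57426) (nat_lit 15) (.e (nat_lit 360491) (nat_lit 22) (.e (nat_lit 778466) (nat_lit 11) (.e (nat_lit 24640) (nat_lit 10) (.e (nat_lit 344091) (nat_lit 18) .nil)))))) (.g (nat_lit 6) .nil .nil)))) (.nd (nat_lit 5) 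
(.lf (nat_lit 123601) (.g (nat_lit 1680) (.e (nat_lit 7261) (nat_lit 384) (.e (nat_lit 57426) (nat_lit 15) (.e (nat_lit 360452) (nat_lit 0) (.e (nat_lit 7272) (nat_lit 385) (.e (nat_lit 122918) (nat_lit 15) .nil))))) .nil)) 
(.lf (nat_lit 123633) (.g (nat_lit 3461) (.e (nat_lit 7261) (nat_lit 384) (.e (nat_lit 57427) (nat_lit 15) (.e (nat_lit 360450) (nat_lit 0) (.e (nat_lit 7261) (nat_lit 384) (.e (nat_lit 57412) (nat_lit 12) (.e (nat_lit 336176) (nat_lit 10) (.e (nat_lit 344091) (nat_lit 18) .nil))))))) (.g (nat_lit 0) .nil .nil))))) (.nd (nat_lit 4) (.nd (nat_lit 5) 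
(.lf (nat_lit 123593) (.g (nat_lit 979) (.e (nat_lit 7261) (nat_lit 384) (.e (nat_lit 57426) (nat_lit 15) (.e (nat_lit 360451) (nat_lit 0) (.e (nat_lit 7263) (nat_lit 384) .nil)))) .nil)) 
(.lf (nat_lit 123625) (.g (nat_lit 2206) (.e (nat_lit 7261) (nat_lit 384) (.e (nat_lit 57427) (nat_lit 15) (.e (nat_lit 360449) (nat_lit 0) (.e (nat_lit 7265) (nat_lit 384) (.e (nat_lit 57412) (nat_lit 12) (.e (nat_lit 336176) (nat_lit 10) (.e (nat_lit 344095) (nat_lit 18) .nil))))))) (.g (nat_lit 5) .nil .nil)))) (.nd (nat_lit 5) 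
(.lf (nat_lit 123609) (.g (nat_lit 2193) (.e (nat_lit 7261) (nat_lit 384) (.e (nat_lit 57426) (nat_lit 15) (.e (nat_lit 360491) (nat_lit 22) (.e (nat_lit 778464) (nat_lit 11) (.e (nat_lit 24640) (nat_lit 10) (.e (nat_lit 344095) (nat_lit 18) .nil)))))) (.g (nat_lit 6) .nil .nil))) 
(.lf (nat_lit 123641) (.g (nat_lit 2657) (.e (nat_lit 7261) (nat_lit 384) (.e (nat_lit 57427) (nat_lit 15) (.e (nat_lit 360450) (nat_lit 0) (.e (nat_lit 7265) (nat_lit 384) (.e (nat_lit 57426) (nat_lit 15) (.e (nat_lit 360449) (nat_lit 0) .nil)))))) (.g (nat_lit 5) .nil .nil)))))) (.nd (nat_lit 3) (.nd (nat_lit 4) (.nd (nat_lit 5) 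
(.lf (nat_lit 123589) (.g (nat_lit 1475) (.e (nat_lit 7261) (nat_lit 384) (.e (nat_lit 57426) (nat_lit 15) (.e (nat_lit 360450) (nat_lit 0) (.e (nat_lit 7263) (nat_lit 384) (.e (nat_lit 57412) (nat_lit 12) .nil))))) .nil)) 
(.lf (nat_lit 123621) (.g (nat_lit 2439) (.e (nat_lit 7261) (nat_lit 384) (.e (nat_lit 57426) (nat_lit 15) (.e (nat_lit 360491) (nat_lit 22) (.e (nat_lit 778466) (nat_lit 11) (.e (nat_lit 24641) (nat_lit 10) (.e (nat_lit 344096) (nat_lit 18) .nil)))))) (.g (nat_lit 0) .nil .nil)))) (.nd (nat_lit 5) 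
(.lf (nat_lit 123605) (.g (nat_lit 1973) (.e (nat_lit 7261) (nat_lit 384) (.e (nat_lit 57426) (nat_lit 15) (.e (nat_lit 360489) (nat_lit 21) (.e (nat_lit 770071) (nat_lit 8) (.e (nat_lit 65619) (nat_lit 10) (.e (nat_lit 344090) (nat_lit 18) .nil)))))) (.g (nat_lit 5) .nil .nil))) 
(.lf (nat_lit 123637) (.g (nat_lit 3446) (.e (nat_lit 7261) (nat_lit 384) (.e (nat_lit 57427) (nat_lit 15) (.e (nat_lit 360450) (nat_lit 0) (.e (nat_lit 7263) (nat_lit 384) (.e (nat_lit 57412) (nat_lit 12) (.e (nat_lit 336176) (nat_lit 10) (.e (nat_lit 344091) (nat_lit 18) .nil))))))) (.g (nat_lit 0) .nil .nil))))) (.nd (nat_lit 4) (.nd (nat_lit 5) 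
(.lf (nat_lit 123597) (.g (nat_lit 2190) (.e (nat_lit 7261) (nat_lit 384) (.e (nat_lit 57426) (nat_lit 15) (.e (nat_lit 360452) (nat_lit 0) (.e (nat_lit 7270) (nat_lit 385) (.e (nat_lit 122918) (nat_lit 15) (.e (nat_lit 360451) (nat_lit 0) .nil)))))) (.g (nat_lit 5) .nil .nil))) 
(.lf (nat_lit 123629) (.g (nat_lit 4047) (.e (nat_lit 7261) (nat_lit 384) (.e (nat_lit 57427) (nat_lit 15) (.e (nat_lit 360450) (nat_lit 0) (.e (nat_lit 7125) (nat_lit 382) (.e (nat_lit 1201) (nat_lit 88) (.e (nat_lit 65617) (nat_lit 10) (.e (nat_lit 344091) (nat_lit 18) .nil))))))) (.g (nat_lit 6) .nil .nil)))) (.nd (nat_lit 5) 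
(.lf (nat_lit 123613) (.g (nat_lit 2610) (.e (nat_lit 7261) (nat_lit 384) (.e (nat_lit 57426) (nat_lit 15) (.e (nat_lit 360491) (nat_lit 22) (.e (nat_lit 778465) (nat_lit 11) (.e (nat_lit 24640) (nat_lit 10) (.e (nat_lit 344096) (nat_lit 18) .nil)))))) (.g (nat_lit 6) .nil .nil))) 
(.lf (nat_lit 123645) (.g (nat_lit 2324) (.e (nat_lit 7261) (nat_lit 384) (.e (nat_lit 57427) (nat_lit 15) (.e (nat_lit 360450) (nat_lit 0) (.e (nat_lit 7266) (nat_lit 384) (.e (nat_lit 57427) (nat_lit 15) (.e (nat_lit 360449) (nat_lit 0) .nil)))))) (.g (nat_lit 4) .nil .nil))))))) (.nd (nat_lit 2) (.nd (nat_lit 3) (.nd (nat_lit 4) (.nd (nat_lit 5) 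
(.lf (nat_lit 123587) (.g (nat_lit 1896) (.e (nat_lit 7261) (nat_lit 384) (.e (nat_lit 57426) (nat_lit 15) (.e (nat_lit 360450) (nat_lit 0) (.e (nat_lit 7122) (nat_lit 382) (.e (nat_lit 1201) (nat_lit 88) (.e (nat_lit 65617) (nat_lit 10) (.e (nat_lit 344095) (nat_lit 18) .nil))))))) (.g (nat_lit 4) .nil .nil))) 
(.lf (nat_lit 123619) (.g (nat_lit 2147) (.e (nat_lit 7261) (nat_lit 384) (.e (nat_lit 57426) (nat_lit 15) (.e (nat_lit 360491) (nat_lit 22) (.e (nat_lit 778466) (nat_lit 11) (.e (nat_lit 24641) (nat_lit 10) (.e (nat_lit 344091) (nat_lit 18) .nil)))))) (.g (nat_lit 6) .nil .nil)))) (.nd (nat_lit 5) 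
(.lf (nat_lit 123603) (.g (nat_lit 2053) (.e (nat_lit 7261) (nat_lit 384) (.e (nat_lit 57426) (nat_lit 15) (.e (nat_lit 360452) (nat_lit 0) (.e (nat_lit 7273) (nat_lit 385) (.e (nat_lit 122919) (nat_lit 15) (.e (nat_lit 360449) (nat_lit 0) .nil)))))) (.g (nat_lit 5) .nil .nil))) 
(.lf (nat_lit 123635) (.g (nat_lit 3514) (.e (nat_lit 7261) (nat_lit 384) (.e (nat_lit 57427) (nat_lit 15) (.e (nat_lit 360450) (nat_lit 0) (.e (nat_lit 7261) (nat_lit 384) (.e (nat_lit 57427) (nat_lit 15) (.e (nat_lit 360450) (nat_lit 0) .nil)))))) (.g (nat_lit 0) .nil .nil))))) (.nd (nat_lit 4) (.nd (nat_lit 5) 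
(.lf (nat_lit 123595) (.g (nat_lit 2649) (.e (nat_lit 7261) (nat_lit 384) (.e (nat_lit 57426) (nat_lit 15) (.e (nat_lit 360451) (nat_lit 0) (.e (nat_lit 7265) (nat_lit 384) (.e (nat_lit 57426) (nat_lit 15) (.e (nat_lit 360449) (nat_lit 0) .nil)))))) (.g (nat_lit 6) .nil .nil))) 
(.lf (nat_lit 123627) (.g (nat_lit 1730) (.e (nat_lit 7261) (nat_lit 384) (.e (nat_lit 57427) (nat_lit 15) (.e (nat_lit 360450) (nat_lit 0) (.e (nat_lit 7119) (nat_lit 382) .nil)))) .nil))) (.nd (nat_lit 5) 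
(.lf (nat_lit 123611) (.g (nat_lit 2181) (.e (nat_lit 7261) (nat_lit 384) (.e (nat_lit 57426) (nat_lit 15) (.e (nat_lit 360491) (nat_lit 22) (.e (nat_lit 778465) (nat_lit 11) (.e (nat_lit 24639) (nat_lit 10) (.e (nat_lit 344095) (nat_lit 18) .nil)))))) (.g (nat_lit 0) .nil .nil))) 
(.lf (nat_lit 123643) (.g (nat_lit 1899) (.e (nat_lit 7261) (nat_lit 384) (.e (nat_lit 57427) (nat_lit 15) (.e (nat_lit 360450) (nat_lit 0) (.e (nat_lit 7265) (nat_lit 384) (.e (nat_lit 57427) (nat_lit 15) (.e (nat_lit 360449) (nat_lit 0) .nil)))))) (.g (nat_lit 4) .nil .nil)))))) (.nd (nat_lit 3) (.nd (nat_lit 4) (.nd (nat_lit 5) 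
(.lf (nat_lit 123591) (.g (nat_lit 1471) (.e (nat_lit 7261) (nat_lit 384) (.e (nat_lit 57426) (nat_lit 15) (.e (nat_lit 360450) (nat_lit 0) (.e (nat_lit 7263) (nat_lit 384) (.e (nat_lit 57427) (nat_lit 15) .nil))))) .nil)) 
(.lf (nat_lit 123623) (.g (nat_lit 1253) (.e (nat_lit 7261) (nat_lit 384) (.e (nat_lit 57427) (nat_lit 15) (.e (nat_lit 360449) (nat_lit 0) (.e (nat_lit 7261) (nat_lit 384) (.e (nat_lit 57426) (nat_lit 15) .nil))))) .nil))) (.nd (nat_lit 5) 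
(.lf (nat_lit 123607) (.g (nat_lit 292) (.e (nat_lit 7261) (nat_lit 384) (.e (nat_lit 57426) (nat_lit 15) (.e (nat_lit 360490) (nat_lit 22) .nil))) .nil)) 
(.lf (nat_lit 123639) (.g (nat_lit 2852) (.e (nat_lit 7261) (nat_lit 384) (.e (nat_lit 57427) (nat_lit 15) (.e (nat_lit 360450) (nat_lit 0) (.e (nat_lit 7265) (nat_lit 384) (.e (nat_lit 57412) (nat_lit 12) (.e (nat_lit 336176) (nat_lit 10) (.e (nat_lit 344091) (nat_lit 18) .nil))))))) (.g (nat_lit 6) .nil .nil))))) (.nd (nat_lit 4) (.nd (nat_lit 5) 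
(.lf (nat_lit 123599) (.g (nat_lit 1414) (.e (nat_lit 7261) (nat_lit 384) (.e (nat_lit 57426) (nat_lit 15) (.e (nat_lit 360452) (nat_lit 0) (.e (nat_lit 7271) (nat_lit 385) (.e (nat_lit 122918) (nat_lit 15) (.e (nat_lit 360449) (nat_lit 0) .nil)))))) (.g (nat_lit 4) .nil .nil))) 
(.lf (nat_lit 123631) (.g (nat_lit 1805) (.e (nat_lit 7261) (nat_lit 384) (.e (nat_lit 57427) (nat_lit 15) (.e (nat_lit 360450) (nat_lit 0) (.e (nat_lit 7128) (nat_lit 382) .nil)))) .nil))) (.nd (nat_lit 5) 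
(.lf (nat_lit 123615) (.g (nat_lit 2187) (.e (nat_lit 7261) (nat_lit 384) (.e (nat_lit 57426) (nat_lit 15) (.e (nat_lit 360491) (nat_lit 22) (.e (nat_lit 778466) (nat_lit 11) (.e (nat_lit 24639) (nat_lit 10) (.e (nat_lit 344095) (nat_lit 18) .nil)))))) (.g (nat_lit 0) .nil .nil))) 
(.lf (nat_lit 123647) (.g (nat_lit 4017) (.e (nat_lit 7261) (nat_lit 384) (.e (nat_lit 57427) (nat_lit 15) (.e (nat_lit 360451) (nat_lit 0) (.e (nat_lit 7122) (nat_lit 382) (.e (nat_lit 1201) (nat_lit 88) (.e (nat_lit 65617) (nat_lit 10) (.e (nat_lit 344091) (nat_lit 18) .nil))))))) (.g (nat_lit 0) .nil .nil)))))))))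

noncomputable def tv1653 : DT := (.nd (nat_lit 0) (.nd (nat_lit 1) (.nd (nat_lit 2) (.nd (nat_lit 3) (.nd (nat_lit 4) (.nd (nat_lit 5) 
(.lf (nat_lit 123648) (.g (nat_lit 1761) (.e (nat_lit 7261) (nat_lit 384) (.e (nat_lit 57427) (nat_lit 15) (.e (nat_lit 360451) (nat_lit 0) (.e (nat_lit 7122) (nat_lit 382) (.e (nat_lit 7936) (nat_lit 90) .nil))))) .nil)) 
(.lf (nat_lit 123680) (.g (nat_lit 1536) (.e (nat_lit 7261) (nat_lit 384) (.e (nat_lit 57427) (nat_lit 15) (.e (nat_lit 360492) (nat_lit 22) (.e (nat_lit 778466) (nat_lit 11) (.e (nat_lit 24639) (nat_lit 10) (.e (nat_lit 344090) (nat_lit 18) .nil)))))) (.g (nat_lit 4) .nil .nil)))) (.nd (nat_lit 5) 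
(.lf (nat_lit 123664) (.g (nat_lit 1255) (.e (nat_lit 7261) (nat_lit 384) (.e (nat_lit 57427) (nat_lit 15) (.e (nat_lit 360491) (nat_lit 22) (.e (nat_lit 778464) (nat_lit 11) (.e (nat_lit 24639) (nat_lit 10) (.e (nat_lit 344090) (nat_lit 18) .nil)))))) (.g (nat_lit 4) .nil .nil))) 
(.lf (nat_lit 123696) (.g (nat_lit 1848) (.e (nat_lit 7261) (nat_lit 384) (.e (nat_lit 57428) (nat_lit 15) (.e (nat_lit 360492) (nat_lit 22) (.e (nat_lit 778466) (nat_lit 11) (.e (nat_lit 24639) (nat_lit 10) (.e (nat_lit 344095) (nat_lit 18) .nil)))))) (.g (nat_lit 5) .nil .nil))))) (.nd (nat_lit 4) (.nd (nat_lit 5) 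
(.lf (nat_lit 123656) (.g (nat_lit 3784) (.e (nat_lit 7261) (nat_lit 384) (.e (nat_lit 57427) (nat_lit 15) (.e (nat_lit 360451) (nat_lit 0) (.e (nat_lit 7265) (nat_lit 384) (.e (nat_lit 57427) (nat_lit 15) (.e (nat_lit 360450) (nat_lit 0) .nil)))))) (.g (nat_lit 0) .nil .nil))) 
(.lf (nat_lit 123688) (.g (nat_lit 2302) (.e (nat_lit 7261) (nat_lit 384) (.e (nat_lit 57428) (nat_lit 15) (.e (nat_lit 360489) (nat_lit 21) (.e (nat_lit 770071) (nat_lit 8) (.e (nat_lit 65619) (nat_lit 10) (.e (nat_lit 344090) (nat_lit 18) .nil)))))) (.g (nat_lit 5) .nil .nil)))) (.nd (nat_lit 5) 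
(.lf (nat_lit 123672) (.g (nat_lit 2123) (.e (nat_lit 7261) (nat_lit 384) (.e (nat_lit 57427) (nat_lit 15) (.e (nat_lit 360491) (nat_lit 22) (.e (nat_lit 778466) (nat_lit 11) (.e (nat_lit 24639) (nat_lit 10) (.e (nat_lit 344090) (nat_lit 18) .nil)))))) (.g (nat_lit 6) .nil .nil))) 
(.lf (nat_lit 123704) (.g (nat_lit 3447) (.e (nat_lit 7261) (nat_lit 384) (.e (nat_lit 57430) (nat_lit 16) (.e (nat_lit 368676) (nat_lit 21) (.e (nat_lit 516176) (nat_lit 14) (.e (nat_lit 466967) (nat_lit 20) (.e (nat_lit 3304) (nat_lit 202) (.e (nat_lit 573477) (nat_lit 12) (.e (nat_lit 57352) (nat_lit 0) .nil)))))))) (.g (nat_lit 7) .nil .nil)))))) 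
(.nd (nat_lit 3) (.nd (nat_lit 4) (.nd (nat_lit 5) 
(.lf (nat_lit 123652) (.g (nat_lit 3012) (.e (nat_lit 7261) (nat_lit 384) (.e (nat_lit 57427) (nat_lit 15) (.e (nat_lit 360451) (nat_lit 0) (.e (nat_lit 7263) (nat_lit 384) (.e (nat_lit 57427) (nat_lit 15) (.e (nat_lit 360451) (nat_lit 0) .nil)))))) (.g (nat_lit 0) .nil .nil))) 
(.lf (nat_lit 123684) (.g (nat_lit 1945) (.e (nat_lit 7261) (nat_lit 384) (.e (nat_lit 57428) (nat_lit 15) (.e (nat_lit 360449) (nat_lit 0) (.e (nat_lit 7265) (nat_lit 384) (.e (nat_lit 57427) (nat_lit 15) (.e (nat_lit 360450) (nat_lit 0) .nil)))))) (.g (nat_lit 4) .nil .nil)))) (.nd (nat_lit 5) 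
(.lf (nat_lit 123668) (.g (nat_lit 1865) (.e (nat_lit 7261) (nat_lit 384) (.e (nat_lit 57427) (nat_lit 15) (.e (nat_lit 360491) (nat_lit 22) (.e (nat_lit 778464) (nat_lit 11) (.e (nat_lit 24640) (nat_lit 10) (.e (nat_lit 344094) (nat_lit 18) .nil)))))) (.g (nat_lit 5) .nil .nil))) 
(.lf (nat_lit 123700) (.g (nat_lit 2463) (.e (nat_lit 7261) (nat_lit 384) (.e (nat_lit 57428) (nat_lit 15) (.e (nat_lit 360492) (nat_lit 22) (.e (nat_lit 778466) (nat_lit 11) (.e (nat_lit 24640) (nat_lit 10) (.e (nat_lit 344095) (nat_lit 18) .nil)))))) (.g (nat_lit 5) .nil .nil))))) (.nd (nat_lit 4) (.nd (nat_lit 5) 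
(.lf (nat_lit 123660) (.g (nat_lit 3326) (.e (nat_lit 7261) (nat_lit 384) (.e (nat_lit 57427) (nat_lit 15) (.e (nat_lit 360454) (nat_lit 0) (.e (nat_lit 7270) (nat_lit 385) (.e (nat_lit 122919) (nat_lit 15) (.e (nat_lit 360451) (nat_lit 0) .nil)))))) (.g (nat_lit 0) .nil .nil))) 
(.lf (nat_lit 123692) (.g (nat_lit 1657) (.e (nat_lit 7261) (nat_lit 384) (.e (nat_lit 57428) (nat_lit 15) (.e (nat_lit 360492) (nat_lit 22) (.e (nat_lit 778361) (nat_lit 9) (.e (nat_lit 324) (nat_lit 24) (.e (nat_lit 360449) (nat_lit 0) .nil)))))) (.g (nat_lit 4) .nil .nil)))) (.nd (nat_lit 5) 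
(.lf (nat_lit 123676) (.g (nat_lit 2947) (.e (nat_lit 7261) (nat_lit 384) (.e (nat_lit 57427) (nat_lit 15) (.e (nat_lit 360491) (nat_lit 22) (.e (nat_lit 778466) (nat_lit 11) (.e (nat_lit 24640) (nat_lit 10) (.e (nat_lit 344096) (nat_lit 18) .nil)))))) (.g (nat_lit 6) .nil .nil))) 
(.lf (nat_lit 123708) (.g (nat_lit 3308) (.e (nat_lit 7261) (nat_lit 384) (.e (nat_lit 57431) (nat_lit 16) (.e (nat_lit 368676) (nat_lit 21) (.e (nat_lit 516176) (nat_lit 14) (.e (nat_lit 466967) (nat_lit 20) (.e (nat_lit 3304) (nat_lit 202) (.e (nat_lit 573477) (nat_lit 12) (.e (nat_lit 57353) (nat_lit 0) .nil)))))))) (.g (nat_lit 7) .nil .nil))))))) 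
(.nd (nat_lit 2) (.nd (nat_lit 3) (.nd (nat_lit 4) (.nd (nat_lit 5) 
(.lf (nat_lit 123650) (.g (nat_lit 3246) (.e (nat_lit 7261) (nat_lit 384) (.e (nat_lit 57427) (nat_lit 15) (.e (nat_lit 360451) (nat_lit 0) (.e (nat_lit 7263) (nat_lit 384) (.e (nat_lit 57412) (nat_lit 12) (.e (nat_lit 336176) (nat_lit 10) (.e (nat_lit 344091) (nat_lit 18) .nil))))))) (.g (nat_lit 0) .nil .nil))) 
(.lf (nat_lit 123682) (.g (nat_lit 2299) (.e (nat_lit 7261) (nat_lit 384) (.e (nat_lit 57427) (nat_lit 15) (.e (nat_lit 360492) (nat_lit 22) (.e (nat_lit 778466) (nat_lit 11) (.e (nat_lit 24640) (nat_lit 10) (.e (nat_lit 344095) (nat_lit 18) .nil)))))) (.g (nat_lit 5) .nil .nil)))) (.nd (nat_lit 5) 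
(.lf (nat_lit 123666) (.g (nat_lit 2450) (.e (nat_lit 7261) (nat_lit 384) (.e (nat_lit 57427) (nat_lit 15) (.e (nat_lit 360491) (nat_lit 22) (.e (nat_lit 778464) (nat_lit 11) (.e (nat_lit 24640) (nat_lit 10) (.e (nat_lit 344090) (nat_lit 18) .nil)))))) (.g (nat_lit 6) .nil .nil))) 
(.lf (nat_lit 123698) (.g (nat_lit 2582) (.e (nat_lit 7261) (nat_lit 384) (.e (nat_lit 57428) (nat_lit 15) (.e (nat_lit 360492) (nat_lit 22) (.e (nat_lit 778466) (nat_lit 11) (.e (nat_lit 24640) (nat_lit 10) (.e (nat_lit 344091) (nat_lit 18) .nil)))))) (.g (nat_lit 5) .nil .nil))))) (.nd (nat_lit 4) (.nd (nat_lit 5) 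
(.lf (nat_lit 123658) (.g (nat_lit 2892) (.e (nat_lit 7261) (nat_lit 384) (.e (nat_lit 57427) (nat_lit 15) (.e (nat_lit 360451) (nat_lit 0) (.e (nat_lit 7266) (nat_lit 384) (.e (nat_lit 57426) (nat_lit 15) (.e (nat_lit 360449) (nat_lit 0) .nil)))))) (.g (nat_lit 0) .nil .nil))) 
(.lf (nat_lit 123690) (.g (nat_lit 2565) (.e (nat_lit 7261) (nat_lit 384) (.e (nat_lit 57428) (nat_lit 15) (.e (nat_lit 360489) (nat_lit 21) (.e (nat_lit 770072) (nat_lit 8) (.e (nat_lit 65619) (nat_lit 10) (.e (nat_lit 344090) (nat_lit 18) .nil)))))) (.g (nat_lit 6) .nil .nil)))) (.nd (nat_lit 5) 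
(.lf (nat_lit 123674) (.g (nat_lit 2644) (.e (nat_lit 7261) (nat_lit 384) (.e (nat_lit 57427) (nat_lit 15) (.e (nat_lit 360491) (nat_lit 22) (.e (nat_lit 778466) (nat_lit 11) (.e (nat_lit 24640) (nat_lit 10) (.e (nat_lit 344091) (nat_lit 18) .nil)))))) (.g (nat_lit 6) .nil .nil))) 
(.lf (nat_lit 123706) (.g (nat_lit 1883) (.e (nat_lit 7261) (nat_lit 384) (.e (nat_lit 57430) (nat_lit 16) (.e (nat_lit 368676) (nat_lit 21) (.e (nat_lit 516176) (nat_lit 14) (.e (nat_lit 466967) (nat_lit 20) (.e (nat_lit 3304) (nat_lit 202) (.e (nat_lit 573478) (nat_lit 12) (.e (nat_lit 57353) (nat_lit 0) .nil)))))))) (.g (nat_lit 4) .nil .nil)))))) 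
(.nd (nat_lit 3) (.nd (nat_lit 4) (.nd (nat_lit 5) 
(.lf (nat_lit 123654) (.g (nat_lit 3061) (.e (nat_lit 7261) (nat_lit 384) (.e (nat_lit 57427) (nat_lit 15) (.e (nat_lit 360451) (nat_lit 0) (.e (nat_lit 7265) (nat_lit 384) (.e (nat_lit 57426) (nat_lit 15) (.e (nat_lit 360449) (nat_lit 0) .nil)))))) (.g (nat_lit 0) .nil .nil))) 
(.lf (nat_lit 123686) (.g (nat_lit 2108) (.e (nat_lit 7261) (nat_lit 384) (.e (nat_lit 57428) (nat_lit 15) (.e (nat_lit 360453) (nat_lit 0) (.e (nat_lit 7270) (nat_lit 385) (.e (nat_lit 122919) (nat_lit 15) (.e (nat_lit 360450) (nat_lit 0) .nil)))))) (.g (nat_lit 4) .nil .nil)))) (.nd (nat_lit 5) 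
(.lf (nat_lit 123670) (.g (nat_lit 2411) (.e (nat_lit 7261) (nat_lit 384) (.e (nat_lit 57427) (nat_lit 15) (.e (nat_lit 360491) (nat_lit 22) (.e (nat_lit 778465) (nat_lit 11) (.e (nat_lit 24640) (nat_lit 10) (.e (nat_lit 344095) (nat_lit 18) .nil)))))) (.g (nat_lit 6) .nil .nil))) 
(.lf (nat_lit 123702) (.g (nat_lit 1957) (.e (nat_lit 7261) (nat_lit 384) (.e (nat_lit 57428) (nat_lit 15) (.e (nat_lit 360492) (nat_lit 22) (.e (nat_lit 778466) (nat_lit 11) (.e (nat_lit 24641) (nat_lit 10) (.e (nat_lit 344095) (nat_lit 18) .nil)))))) (.g (nat_lit 5) .nil .nil))))) (.nd (nat_lit 4) (.nd (nat_lit 5) 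
(.lf (nat_lit 123662) (.g (nat_lit 2328) (.e (nat_lit 7261) (nat_lit 384) (.e (nat_lit 57427) (nat_lit 15) (.e (nat_lit 360489) (nat_lit 21) (.e (nat_lit 770072) (nat_lit 8) (.e (nat_lit 65619) (nat_lit 10) (.e (nat_lit 344090) (nat_lit 18) .nil)))))) (.g (nat_lit 6) .nil .nil))) 
(.lf (nat_lit 123694) (.g (nat_lit 2413) (.e (nat_lit 7261) (nat_lit 384) (.e (nat_lit 57428) (nat_lit 15) (.e (nat_lit 360492) (nat_lit 22) (.e (nat_lit 778465) (nat_lit 11) (.e (nat_lit 24640) (nat_lit 10) (.e (nat_lit 344090) (nat_lit 18) .nil)))))) (.g (nat_lit 5) .nil .nil)))) (.nd (nat_lit 5) 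
(.lf (nat_lit 123678) (.g (nat_lit 449) (.e (nat_lit 7261) (nat_lit 384) (.e (nat_lit 57427) (nat_lit 15) (.e (nat_lit 360492) (nat_lit 22) .nil))) .nil)) 
(.lf (nat_lit 123710) (.g (nat_lit 3714) (.e (nat_lit 7261) (nat_lit 384) (.e (nat_lit 57431) (nat_lit 16) (.e (nat_lit 368676) (nat_lit 21) (.e (nat_lit 516176) (nat_lit 14) (.e (nat_lit 466967) (nat_lit 20) (.e (nat_lit 3305) (nat_lit 202) (.e (nat_lit 573477) (nat_lit 12) (.e (nat_lit 57353) (nat_lit 0) .nil)))))))) (.g (nat_lit 8) .nil .nil)))))))) 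
(.nd (nat_lit 1) (.nd (nat_lit 2) (.nd (nat_lit 3) (.nd (nat_lit 4) (.nd (nat_lit 5) 
(.lf (nat_lit 123649) (.g (nat_lit 3018) (.e (nat_lit 7261) (nat_lit 384) (.e (nat_lit 57427) (nat_lit 15) (.e (nat_lit 360451) (nat_lit 0) (.e (nat_lit 7261) (nat_lit 384) (.e (nat_lit 57427) (nat_lit 15) (.e (nat_lit 360451) (nat_lit 0) .nil)))))) (.g (nat_lit 0) .nil .nil))) 
(.lf (nat_lit 123681) (.g (nat_lit 2260) (.e (nat_lit 7261) (nat_lit 384) (.e (nat_lit 57427) (nat_lit 15) (.e (nat_lit 360492) (nat_lit 22) (.e (nat_lit 778466) (nat_lit 11) (.e (nat_lit 24640) (nat_lit 10) (.e (nat_lit 344090) (nat_lit 18) .nil)))))) (.g (nat_lit 5) .nil .nil)))) (.nd (nat_lit 5) 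
(.lf (nat_lit 123665) (.g (nat_lit 1089) (.e (nat_lit 7261) (nat_lit 384) (.e (nat_lit 57427) (nat_lit 15) (.e (nat_lit 360491) (nat_lit 22) (.e (nat_lit 778464) (nat_lit 11) (.e (nat_lit 24639) (nat_lit 10) (.e (nat_lit 344095) (nat_lit 18) .nil)))))) (.g (nat_lit 4) .nil .nil))) 
(.lf (nat_lit 123697) (.g (nat_lit 2455) (.e (nat_lit 7261) (nat_lit 384) (.e (nat_lit 57428) (nat_lit 15) (.e (nat_lit 360492) (nat_lit 22) (.e (nat_lit 778466) (nat_lit 11) (.e (nat_lit 24640) (nat_lit 10) (.e (nat_lit 344090) (nat_lit 18) .nil)))))) (.g (nat_lit 5) .nil .nil))))) (.nd (nat_lit 4) (.nd (nat_lit 5) 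
(.lf (nat_lit 123657) (.g (nat_lit 3531) (.e (nat_lit 7261) (nat_lit 384) (.e (nat_lit 57427) (nat_lit 15) (.e (nat_lit 360451) (nat_lit 0) (.e (nat_lit 7265) (nat_lit 384) (.e (nat_lit 57427) (nat_lit 15) (.e (nat_lit 360451) (nat_lit 0) .nil)))))) (.g (nat_lit 0) .nil .nil))) 
(.lf (nat_lit 123689) (.g (nat_lit 2903) (.e (nat_lit 7261) (nat_lit 384) (.e (nat_lit 57428) (nat_lit 15) (.e (nat_lit 360489) (nat_lit 21) (.e (nat_lit 770072) (nat_lit 8) (.e (nat_lit 65610) (nat_lit 10) (.e (nat_lit 344090) (nat_lit 18) .nil)))))) (.g (nat_lit 0) .nil .nil)))) (.nd (nat_lit 5) 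
(.lf (nat_lit 123673) (.g (nat_lit 1822) (.e (nat_lit 7261) (nat_lit 384) (.e (nat_lit 57427) (nat_lit 15) (.e (nat_lit 360491) (nat_lit 22) (.e (nat_lit 778466) (nat_lit 11) (.e (nat_lit 24640) (nat_lit 10) (.e (nat_lit 344088) (nat_lit 18) .nil)))))) (.g (nat_lit 5) .nil .nil))) 
(.lf (nat_lit 123705) (.g (nat_lit 3459) (.e (nat_lit 7261) (nat_lit 384) (.e (nat_lit 57430) (nat_lit 16) (.e (nat_lit 368676) (nat_lit 21) (.e (nat_lit 516176) (nat_lit 14) (.e (nat_lit 466967) (nat_lit 20) (.e (nat_lit 3304) (nat_lit 202) (.e (nat_lit 573477) (nat_lit 12) (.e (nat_lit 57353) (nat_lit 0) .nil)))))))) (.g (nat_lit 7) .nil .nil)))))) 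
(.nd (nat_lit 3) (.nd (nat_lit 4) (.nd (nat_lit 5) 
(.lf (nat_lit 123653) (.g (nat_lit 3431) (.e (nat_lit 7261) (nat_lit 384) (.e (nat_lit 57427) (nat_lit 15) (.e (nat_lit 360451) (nat_lit 0) (.e (nat_lit 7265) (nat_lit 384) (.e (nat_lit 57412) (nat_lit 12) (.e (nat_lit 336176) (nat_lit 10) (.e (nat_lit 344091) (nat_lit 18) .nil))))))) (.g (nat_lit 0) .nil .nil))) 
(.lf (nat_lit 123685) (.g (nat_lit 1779) (.e (nat_lit 7261) (nat_lit 384) (.e (nat_lit 57428) (nat_lit 15) (.e (nat_lit 360449) (nat_lit 0) (.e (nat_lit 7265) (nat_lit 384) (.e (nat_lit 57427) (nat_lit 15) (.e (nat_lit 360451) (nat_lit 0) .nil)))))) (.g (nat_lit 4) .nil .nil)))) (.nd (nat_lit 5) 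
(.lf (nat_lit 123669) (.g (nat_lit 2701) (.e (nat_lit 7261) (nat_lit 384) (.e (nat_lit 57427) (nat_lit 15) (.e (nat_lit 360491) (nat_lit 22) (.e (nat_lit 778465) (nat_lit 11) (.e (nat_lit 24640) (nat_lit 10) (.e (nat_lit 344090) (nat_lit 18) .nil)))))) (.g (nat_lit 0) .nil .nil))) 
(.lf (nat_lit 123701) (.g (nat_lit 1682) (.e (nat_lit 7261) (nat_lit 384) (.e (nat_lit 57428) (nat_lit 15) (.e (nat_lit 360492) (nat_lit 22) (.e (nat_lit 778466) (nat_lit 11) (.e (nat_lit 24641) (nat_lit 10) (.e (nat_lit 344091) (nat_lit 18) .nil)))))) (.g (nat_lit 4) .nil .nil))))) (.nd (nat_lit 4) (.nd (nat_lit 5) 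
(.lf (nat_lit 123661) (.g (nat_lit 2118) (.e (nat_lit 7261) (nat_lit 384) (.e (nat_lit 57427) (nat_lit 15) (.e (nat_lit 360489) (nat_lit 21) (.e (nat_lit 770071) (nat_lit 8) (.e (nat_lit 65619) (nat_lit 10) (.e (nat_lit 344090) (nat_lit 18) .nil)))))) (.g (nat_lit 5) .nil .nil))) 
(.lf (nat_lit 123693) (.g (nat_lit 2246) (.e (nat_lit 7261) (nat_lit 384) (.e (nat_lit 57428) (nat_lit 15) (.e (nat_lit 360492) (nat_lit 22) (.e (nat_lit 778465) (nat_lit 11) (.e (nat_lit 24639) (nat_lit 10) (.e (nat_lit 344095) (nat_lit 18) .nil)))))) (.g (nat_lit 5) .nil .nil)))) (.nd (nat_lit 5) 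
(.lf (nat_lit 123677) (.g (nat_lit 2219) (.e (nat_lit 7261) (nat_lit 384) (.e (nat_lit 57427) (nat_lit 15) (.e (nat_lit 360491) (nat_lit 22) (.e (nat_lit 778466) (nat_lit 11) (.e (nat_lit 24641) (nat_lit 10) (.e (nat_lit 344091) (nat_lit 18) .nil)))))) (.g (nat_lit 6) .nil .nil))) 
(.lf (nat_lit 123709) (.g (nat_lit 1734) (.e (nat_lit 7261) (nat_lit 384) (.e (nat_lit 57431) (nat_lit 16) (.e (nat_lit 368676) (nat_lit 21) (.e (nat_lit 516176) (nat_lit 14) (.e (nat_lit 466967) (nat_lit 20) (.e (nat_lit 3304) (nat_lit 202) (.e (nat_lit 573478) (nat_lit 12) (.e (nat_lit 57353) (nat_lit 0) .nil)))))))) (.g (nat_lit 4) .nil .nil))))))) 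
(.nd (nat_lit 2) (.nd (nat_lit 3) (.nd (nat_lit 4) (.nd (nat_lit 5) 
(.lf (nat_lit 123651) (.g (nat_lit 3303) (.e (nat_lit 7261) (nat_lit 384) (.e (nat_lit 57427) (nat_lit 15) (.e (nat_lit 360451) (nat_lit 0) (.e (nat_lit 7263) (nat_lit 384) (.e (nat_lit 57412) (nat_lit 12) (.e (nat_lit 336176) (nat_lit 10) (.e (nat_lit 344096) (nat_lit 18) .nil))))))) (.g (nat_lit 0) .nil .nil))) 
(.lf (nat_lit 123683) (.g (nat_lit 431) (.e (nat_lit 7261) (nat_lit 384) (.e (nat_lit 57427) (nat_lit 15) (.e (nat_lit 368384) (nat_lit 25) .nil))) .nil))) (.nd (nat_lit 5) 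
(.lf (nat_lit 123667) (.g (nat_lit 2040) (.e (nat_lit 7261) (nat_lit 384) (.e (nat_lit 57427) (nat_lit 15) (.e (nat_lit 360491) (nat_lit 22) (.e (nat_lit 778464) (nat_lit 11) (.e (nat_lit 24640) (nat_lit 10) (.e (nat_lit 344091) (nat_lit 18) .nil)))))) (.g (nat_lit 5) .nil .nil))) 
(.lf (nat_lit 123699) (.g (nat_lit 2475) (.e (nat_lit 7261) (nat_lit 384) (.e (nat_lit 57428) (nat_lit 15) (.e (nat_lit 360492) (nat_lit 22) (.e (nat_lit 778466) (nat_lit 11) (.e (nat_lit 24640) (nat_lit 10) (.e (nat_lit 344094) (nat_lit 18) .nil)))))) (.g (nat_lit 5) .nil .nil))))) (.nd (nat_lit 4) (.nd (nat_lit 5) 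
(.lf (nat_lit 123659) (.g (nat_lit 3439) (.e (nat_lit 7261) (nat_lit 384) (.e (nat_lit 57427) (nat_lit 15) (.e (nat_lit 360451) (nat_lit 0) (.e (nat_lit 7266) (nat_lit 384) (.e (nat_lit 57427) (nat_lit 15) (.e (nat_lit 360451) (nat_lit 0) .nil)))))) (.g (nat_lit 0) .nil .nil))) 
(.lf (nat_lit 123691) (.g (nat_lit 282) (.e (nat_lit 7261) (nat_lit 384) (.e (nat_lit 57428) (nat_lit 15) (.e (nat_lit 360492) (nat_lit 22) .nil))) .nil))) (.nd (nat_lit 5) 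
(.lf (nat_lit 123675) (.g (nat_lit 2775) (.e (nat_lit 7261) (nat_lit 384) (.e (nat_lit 57427) (nat_lit 15) (.e (nat_lit 360491) (nat_lit 22) (.e (nat_lit 778466) (nat_lit 11) (.e (nat_lit 24640) (nat_lit 10) (.e (nat_lit 344094) (nat_lit 18) .nil)))))) (.g (nat_lit 6) .nil .nil))) 
(.lf (nat_lit 123707) (.g (nat_lit 3264) (.e (nat_lit 7261) (nat_lit 384) (.e (nat_lit 57431) (nat_lit 16) (.e (nat_lit 368676) (nat_lit 21) (.e (nat_lit 516176) (nat_lit 14) (.e (nat_lit 466967) (nat_lit 20) (.e (nat_lit 3304) (nat_lit 202) (.e (nat_lit 573477) (nat_lit 12) (.e (nat_lit 57352) (nat_lit 0) .nil)))))))) (.g (nat_lit 7) .nil .nil)))))) 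
(.nd (nat_lit 3) (.nd (nat_lit 4) (.nd (nat_lit 5) 
(.lf (nat_lit 123655) (.g (nat_lit 2321) (.e (nat_lit 7261) (nat_lit 384) (.e (nat_lit 57427) (nat_lit 15) (.e (nat_lit 360451) (nat_lit 0) (.e (nat_lit 7265) (nat_lit 384) (.e (nat_lit 57426) (nat_lit 15) (.e (nat_lit 360451) (nat_lit 0) .nil)))))) (.g (nat_lit 5) .nil .nil))) 
(.lf (nat_lit 123687) (.g (nat_lit 942) (.e (nat_lit 7261) (nat_lit 384) (.e (nat_lit 57428) (nat_lit 15) (.e (nat_lit 360488) (nat_lit 20) (.e (nat_lit 761869) (nat_lit 5) .nil)))) .nil))) (.nd (nat_lit 5) 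
(.lf (nat_lit 123671) (.g (nat_lit 1490) (.e (nat_lit 7261) (nat_lit 384) (.e (nat_lit 57427) (nat_lit 15) (.e (nat_lit 360491) (nat_lit 22) (.e (nat_lit 778465) (nat_lit 11) (.e (nat_lit 24641) (nat_lit 10) (.e (nat_lit 344095) (nat_lit 18) .nil)))))) (.g (nat_lit 4) .nil .nil))) 
(.lf (nat_lit 123703) (.g (nat_lit 1979) (.e (nat_lit 7261) (nat_lit 384) (.e (nat_lit 57428) (nat_lit 15) (.e (nat_lit 360492) (nat_lit 22) (.e (nat_lit 778466) (nat_lit 11) (.e (nat_lit 24641) (nat_lit 10) (.e (nat_lit 344096) (nat_lit 18) .nil)))))) (.g (nat_lit 5) .nil .nil))))) (.nd (nat_lit 4) (.nd (nat_lit 5) 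
(.lf (nat_lit 123663) (.g (nat_lit 532) (.e (nat_lit 7261) (nat_lit 384) (.e (nat_lit 57427) (nat_lit 15) (.e (nat_lit 360490) (nat_lit 22) .nil))) .nil)) 
(.lf (nat_lit 123695) (.g (nat_lit 2397) (.e (nat_lit 7261) (nat_lit 384) (.e (nat_lit 57428) (nat_lit 15) (.e (nat_lit 360492) (nat_lit 22) (.e (nat_lit 778465) (nat_lit 11) (.e (nat_lit 24640) (nat_lit 10) (.e (nat_lit 344095) (nat_lit 18) .nil)))))) (.g (nat_lit 5) .nil .nil)))) (.nd (nat_lit 5) 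
(.lf (nat_lit 123679) (.g (nat_lit 1662) (.e (nat_lit 7261) (nat_lit 384) (.e (nat_lit 57427) (nat_lit 15) (.e (nat_lit 360492) (nat_lit 22) (.e (nat_lit 778465) (nat_lit 11) (.e (nat_lit 24639) (nat_lit 10) (.e (nat_lit 344090) (nat_lit 18) .nil)))))) (.g (nat_lit 4) .nil .nil))) 
(.lf (nat_lit 123711) (.g (nat_lit 3757) (.e (nat_lit 7261) (nat_lit 384) (.e (nat_lit 57432) (nat_lit 16) (.e (nat_lit 368676) (nat_lit 21) (.e (nat_lit 516165) (nat_lit 12) (.e (nat_lit 450586) (nat_lit 10) (.e (nat_lit 573473) (nat_lit 12) (.e (nat_lit 57348) (nat_lit 0) .nil))))))) (.g (nat_lit 6) .nil .nil)))))))))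

noncomputable def tv1654 : DT := (.nd (nat_lit 0) (.nd (nat_lit 1) (.nd (nat_lit 2) (.nd (nat_lit 3) (.nd (nat_lit 4) (.nd (nat_lit 5) 
(.lf (nat_lit 123712) (.g (nat_lit 3052) (.e (nat_lit 7261) (nat_lit 384) (.e (nat_lit 57432) (nat_lit 16) (.e (nat_lit 368676) (nat_lit 21) (.e (nat_lit 516165) (nat_lit 12) (.e (nat_lit 450586) (nat_lit 10) (.e (nat_lit 573477) (nat_lit 12) (.e (nat_lit 57352) (nat_lit 0) .nil))))))) (.g (nat_lit 5) .nil .nil))) 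
(.lf (nat_lit 123744) (.g (nat_lit 3201) (.e (nat_lit 7261) (nat_lit 384) (.e (nat_lit 57435) (nat_lit 17) (.e (nat_lit 376842) (nat_lit 11) (.e (nat_lit 426343) (nat_lit 14) (.e (nat_lit 491558) (nat_lit 10) (.e (nat_lit 344090) (nat_lit 18) .nil)))))) (.g (nat_lit 6) .nil .nil)))) (.nd (nat_lit 5) 
(.lf (nat_lit 123728) (.g (nat_lit 3362) (.e (nat_lit 7261) (nat_lit 384) (.e (nat_lit 57435) (nat_lit 17) (.e (nat_lit 376842) (nat_lit 11) (.e (nat_lit 426011) (nat_lit 0) (.e (nat_lit 7591) (nat_lit 407) (.e (nat_lit 73729) (nat_lit 0) .nil)))))) (.g (nat_lit 6) .nil .nil))) 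
(.lf (nat_lit 123760) (.g (nat_lit 2522) (.e (nat_lit 7261) (nat_lit 384) (.e (nat_lit 57435) (nat_lit 17) (.e (nat_lit 376857) (nat_lit 21) (.e (nat_lit 57681) (nat_lit 155) (.e (nat_lit 122919) (nat_lit 15) (.e (nat_lit 360451) (nat_lit 0) .nil)))))) (.g (nat_lit 4) .nil .nil))))) (.nd (nat_lit 4) (.nd (nat_lit 5) 
(.lf (nat_lit 123720) (.g (nat_lit 1108) (.e (nat_lit 7261) (nat_lit 384) (.e (nat_lit 57435) (nat_lit 17) (.e (nat_lit 376840) (nat_lit 11) (.e (nat_lit 425987) (nat_lit 0) (.e (nat_lit 7590) (nat_lit 407) (.e (nat_lit 73730) (nat_lit 0) .nil)))))) (.g (nat_lit 5) .nil .nil))) 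
(.lf (nat_lit 123752) (.g (nat_lit 3607) (.e (nat_lit 7261) (nat_lit 384) (.e (nat_lit 57435) (nat_lit 17) (.e (nat_lit 376842) (nat_lit 11) (.e (nat_lit 426344) (nat_lit 14) (.e (nat_lit 491558) (nat_lit 10) (.e (nat_lit 344091) (nat_lit 18) .nil)))))) (.g (nat_lit 6) .nil .nil)))) (.nd (nat_lit 5) 
(.lf (nat_lit 123736) (.g (nat_lit 2840) (.e (nat_lit 7261) (nat_lit 384) (.e (nat_lit 57435) (nat_lit 17) (.e (nat_lit 376842) (nat_lit 11) (.e (nat_lit 426341) (nat_lit 14) (.e (nat_lit 491560) (nat_lit 10) (.e (nat_lit 344091) (nat_lit 18) .nil)))))) (.g (nat_lit 5) .nil .nil))) 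
(.lf (nat_lit 123768) (.g (nat_lit 1194) (.e (nat_lit 7261) (nat_lit 384) (.e (nat_lit 57436) (nat_lit 17) (.e (nat_lit 376840) (nat_lit 11) (.e (nat_lit 425987) (nat_lit 0) (.e (nat_lit 7590) (nat_lit 407) (.e (nat_lit 73731) (nat_lit 0) .nil)))))) (.g (nat_lit 4) .nil .nil)))))) (.nd (nat_lit 3) (.nd (nat_lit 4) (.nd (nat_lit 5) 
(.lf (nat_lit 123716) (.g (nat_lit 3450) (.e (nat_lit 7261) (nat_lit 384) (.e (nat_lit 57432) (nat_lit 16) (.e (nat_lit 368676) (nat_lit 21) (.e (nat_lit 516176) (nat_lit 14) (.e (nat_lit 466967) (nat_lit 20) (.e (nat_lit 3304) (nat_lit 202) (.e (nat_lit 573477) (nat_lit 12) (.e (nat_lit 57352) (nat_lit 0) .nil)))))))) (.g (nat_lit 7) .nil .nil))) 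
(.lf (nat_lit 123748) (.g (nat_lit 3309) (.e (nat_lit 7261) (nat_lit 384) (.e (nat_lit 57435) (nat_lit 17) (.e (nat_lit 376842) (nat_lit 11) (.e (nat_lit 426343) (nat_lit 14) (.e (nat_lit 491560) (nat_lit 10) (.e (nat_lit 344091) (nat_lit 18) .nil)))))) (.g (nat_lit 6) .nil .nil)))) (.nd (nat_lit 5) 
(.lf (nat_lit 123732) (.g (nat_lit 2624) (.e (nat_lit 7261) (nat_lit 384) (.e (nat_lit 57435) (nat_lit 17) (.e (nat_lit 376842) (nat_lit 11) (.e (nat_lit 426011) (nat_lit 0) (.e (nat_lit 7593) (nat_lit 407) (.e (nat_lit 73731) (nat_lit 0) .nil)))))) (.g (nat_lit 5) .nil .nil))) 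
(.lf (nat_lit 123764) (.g (nat_lit 511) (.e (nat_lit 7261) (nat_lit 384) (.e (nat_lit 57436) (nat_lit 17) (.e (nat_lit 376838) (nat_lit 11) .nil))) .nil)))) (.nd (nat_lit 4) (.nd (nat_lit 5) 
(.lf (nat_lit 123724) (.g (nat_lit 2386) (.e (nat_lit 7261) (nat_lit 384) (.e (nat_lit 57435) (nat_lit 17) (.e (nat_lit 376842) (nat_lit 11) (.e (nat_lit 426009) (nat_lit 0) (.e (nat_lit 7593) (nat_lit 407) (.e (nat_lit 73730) (nat_lit 0) .nil)))))) (.g (nat_lit 5) .nil .nil))) 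
(.lf (nat_lit 123756) (.g (nat_lit 3365) (.e (nat_lit 7261) (nat_lit 384) (.e (nat_lit 57435) (nat_lit 17) (.e (nat_lit 376842) (nat_lit 11) (.e (nat_lit 426344) (nat_lit 14) (.e (nat_lit 491560) (nat_lit 10) (.e (nat_lit 344091) (nat_lit 18) .nil)))))) (.g (nat_lit 5) .nil .nil)))) (.nd (nat_lit 5) 
(.lf (nat_lit 123740) (.g (nat_lit 3140) (.e (nat_lit 7261) (nat_lit 384) (.e (nat_lit 57435) (nat_lit 17) (.e (nat_lit 376842) (nat_lit 11) (.e (nat_lit 426342) (nat_lit 14) (.e (nat_lit 491558) (nat_lit 10) (.e (nat_lit 344091) (nat_lit 18) .nil)))))) (.g (nat_lit 6) .nil .nil))) 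
(.lf (nat_lit 123772) (.g (nat_lit 2819) (.e (nat_lit 7261) (nat_lit 384) (.e (nat_lit 57436) (nat_lit 17) (.e (nat_lit 376842) (nat_lit 11) (.e (nat_lit 426009) (nat_lit 0) (.e (nat_lit 7593) (nat_lit 407) (.e (nat_lit 73729) (nat_lit 0) .nil)))))) (.g (nat_lit 0) .nil .nil))))))) (.nd (nat_lit 2) (.nd (nat_lit 3) (.nd (nat_lit 4) (.nd (nat_lit 5) 
(.lf (nat_lit 123714) (.g (nat_lit 2991) (.e (nat_lit 7261) (nat_lit 384) (.e (nat_lit 57432) (nat_lit 16) (.e (nat_lit 368676) (nat_lit 21) (.e (nat_lit 516165) (nat_lit 12) (.e (nat_lit 450586) (nat_lit 10) (.e (nat_lit 573478) (nat_lit 12) (.e (nat_lit 57351) (nat_lit 0) .nil))))))) (.g (nat_lit 5) .nil .nil))) 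
(.lf (nat_lit 123746) (.g (nat_lit 3410) (.e (nat_lit 7261) (nat_lit 384) (.e (nat_lit 57435) (nat_lit 17) (.e (nat_lit 376842) (nat_lit 11) (.e (nat_lit 426343) (nat_lit 14) (.e (nat_lit 491558) (nat_lit 10) (.e (nat_lit 344095) (nat_lit 18) .nil)))))) (.g (nat_lit 0) .nil .nil)))) (.nd (nat_lit 5) 
(.lf (nat_lit 123730) (.g (nat_lit 3661) (.e (nat_lit 7261) (nat_lit 384) (.e (nat_lit 57435) (nat_lit 17) (.e (nat_lit 376842) (nat_lit 11) (.e (nat_lit 426011) (nat_lit 0) (.e (nat_lit 7593) (nat_lit 407) (.e (nat_lit 73729) (nat_lit 0) .nil)))))) (.g (nat_lit 0) .nil .nil))) 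
(.lf (nat_lit 123762) (.g (nat_lit 445) (.e (nat_lit 7261) (nat_lit 384) (.e (nat_lit 57436) (nat_lit 17) (.e (nat_lit 384768) (nat_lit 9) .nil))) .nil)))) (.nd (nat_lit 4) (.nd (nat_lit 5) 
(.lf (nat_lit 123722) (.g (nat_lit 2289) (.e (nat_lit 7261) (nat_lit 384) (.e (nat_lit 57435) (nat_lit 17) (.e (nat_lit 376842) (nat_lit 11) (.e (nat_lit 426009) (nat_lit 0) (.e (nat_lit 7591) (nat_lit 407) (.e (nat_lit 73730) (nat_lit 0) .nil)))))) (.g (nat_lit 6) .nil .nil))) 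
(.lf (nat_lit 123754) (.g (nat_lit 3695) (.e (nat_lit 7261) (nat_lit 384) (.e (nat_lit 57435) (nat_lit 17) (.e (nat_lit 376842) (nat_lit 11) (.e (nat_lit 426344) (nat_lit 14) (.e (nat_lit 491558) (nat_lit 10) (.e (nat_lit 344096) (nat_lit 18) .nil)))))) (.g (nat_lit 6) .nil .nil)))) (.nd (nat_lit 5) 
(.lf (nat_lit 123738) (.g (nat_lit 2783) (.e (nat_lit 7261) (nat_lit 384) (.e (nat_lit 57435) (nat_lit 17) (.e (nat_lit 376842) (nat_lit 11) (.e (nat_lit 426341) (nat_lit 14) (.e (nat_lit 491560) (nat_lit 10) (.e (nat_lit 344096) (nat_lit 18) .nil)))))) (.g (nat_lit 5) .nil .nil))) 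
(.lf (nat_lit 123770) (.g (nat_lit 2117) (.e (nat_lit 7261) (nat_lit 384) (.e (nat_lit 57436) (nat_lit 17) (.e (nat_lit 376842) (nat_lit 11) (.e (nat_lit 426009) (nat_lit 0) (.e (nat_lit 7591) (nat_lit 407) (.e (nat_lit 73730) (nat_lit 0) .nil)))))) (.g (nat_lit 6) .nil .nil)))))) (.nd (nat_lit 3) (.nd (nat_lit 4) (.nd (nat_lit 5) 
(.lf (nat_lit 123718) (.g (nat_lit 1922) (.e (nat_lit 7261) (nat_lit 384) (.e (nat_lit 57432) (nat_lit 16) (.e (nat_lit 368676) (nat_lit 21) (.e (nat_lit 516176) (nat_lit 14) (.e (nat_lit 466967) (nat_lit 20) (.e (nat_lit 3304) (nat_lit 202) (.e (nat_lit 573478) (nat_lit 12) (.e (nat_lit 57353) (nat_lit 0) .nil)))))))) (.g (nat_lit 4) .nil .nil))) 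
(.lf (nat_lit 123750) (.g (nat_lit 3243) (.e (nat_lit 7261) (nat_lit 384) (.e (nat_lit 57435) (nat_lit 17) (.e (nat_lit 376842) (nat_lit 11) (.e (nat_lit 426343) (nat_lit 14) (.e (nat_lit 491560) (nat_lit 10) (.e (nat_lit 344095) (nat_lit 18) .nil)))))) (.g (nat_lit 5) .nil .nil)))) (.nd (nat_lit 5) 
(.lf (nat_lit 123734) (.g (nat_lit 2170) (.e (nat_lit 7261) (nat_lit 384) (.e (nat_lit 57435) (nat_lit 17) (.e (nat_lit 376842) (nat_lit 11) (.e (nat_lit 426012) (nat_lit 0) (.e (nat_lit 7593) (nat_lit 407) (.e (nat_lit 73731) (nat_lit 0) .nil)))))) (.g (nat_lit 4) .nil .nil))) 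
(.lf (nat_lit 123766) (.g (nat_lit 1026) (.e (nat_lit 7261) (nat_lit 384) (.e (nat_lit 57436) (nat_lit 17) (.e (nat_lit 376840) (nat_lit 11) (.e (nat_lit 425984) (nat_lit 0) (.e (nat_lit 7590) (nat_lit 407) (.e (nat_lit 73730) (nat_lit 0) .nil)))))) (.g (nat_lit 4) .nil .nil))))) (.nd (nat_lit 4) (.nd (nat_lit 5) 
(.lf (nat_lit 123726) (.g (nat_lit 2514) (.e (nat_lit 7261) (nat_lit 384) (.e (nat_lit 57435) (nat_lit 17) (.e (nat_lit 376842) (nat_lit 11) (.e (nat_lit 426010) (nat_lit 0) (.e (nat_lit 7591) (nat_lit 407) (.e (nat_lit 73731) (nat_lit 0) .nil)))))) (.g (nat_lit 6) .nil .nil))) 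
(.lf (nat_lit 123758) (.g (nat_lit 3455) (.e (nat_lit 7261) (nat_lit 384) (.e (nat_lit 57435) (nat_lit 17) (.e (nat_lit 376842) (nat_lit 11) (.e (nat_lit 426344) (nat_lit 14) (.e (nat_lit 491560) (nat_lit 10) (.e (nat_lit 344095) (nat_lit 18) .nil)))))) (.g (nat_lit 5) .nil .nil)))) (.nd (nat_lit 5) 
(.lf (nat_lit 123742) (.g (nat_lit 3148) (.e (nat_lit 7261) (nat_lit 384) (.e (nat_lit 57435) (nat_lit 17) (.e (nat_lit 376842) (nat_lit 11) (.e (nat_lit 426342) (nat_lit 14) (.e (nat_lit 491560) (nat_lit 10) (.e (nat_lit 344091) (nat_lit 18) .nil)))))) (.g (nat_lit 6) .nil .nil))) 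
(.lf (nat_lit 123774) (.g (nat_lit 2309) (.e (nat_lit 7261) (nat_lit 384) (.e (nat_lit 57436) (nat_lit 17) (.e (nat_lit 376842) (nat_lit 11) (.e (nat_lit 426010) (nat_lit 0) (.e (nat_lit 7591) (nat_lit 407) (.e (nat_lit 73730) (nat_lit 0) .nil)))))) (.g (nat_lit 6) .nil .nil)))))))) (.nd (nat_lit 1) (.nd (nat_lit 2) (.nd (nat_lit 3) (.nd (nat_lit 4) (.nd (nat_lit 5) 
(.lf (nat_lit 123713) (.g (nat_lit 3210) (.e (nat_lit 7261) (nat_lit 384) (.e (nat_lit 57432) (nat_lit 16) (.e (nat_lit 368676) (nat_lit 21) (.e (nat_lit 516165) (nat_lit 12) (.e (nat_lit 450586) (nat_lit 10) (.e (nat_lit 573477) (nat_lit 12) (.e (nat_lit 57353) (nat_lit 0) .nil))))))) (.g (nat_lit 5) .nil .nil))) 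
(.lf (nat_lit 123745) (.g (nat_lit 3637) (.e (nat_lit 7261) (nat_lit 384) (.e (nat_lit 57435) (nat_lit 17) (.e (nat_lit 376842) (nat_lit 11) (.e (nat_lit 426343) (nat_lit 14) (.e (nat_lit 491558) (nat_lit 10) (.e (nat_lit 344091) (nat_lit 18) .nil)))))) (.g (nat_lit 0) .nil .nil)))) (.nd (nat_lit 5) 
(.lf (nat_lit 123729) (.g (nat_lit 3063) (.e (nat_lit 7261) (nat_lit 384) (.e (nat_lit 57435) (nat_lit 17) (.e (nat_lit 376842) (nat_lit 11) (.e (nat_lit 426011) (nat_lit 0) (.e (nat_lit 7591) (nat_lit 407) (.e (nat_lit 73731) (nat_lit 0) .nil)))))) (.g (nat_lit 6) .nil .nil))) 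
(.lf (nat_lit 123761) (.g (nat_lit 3091) (.e (nat_lit 7261) (nat_lit 384) (.e (nat_lit 57435) (nat_lit 17) (.e (nat_lit 376858) (nat_lit 21) (.e (nat_lit 57681) (nat_lit 155) (.e (nat_lit 122919) (nat_lit 15) (.e (nat_lit 360451) (nat_lit 0) .nil)))))) (.g (nat_lit 0) .nil .nil))))) (.nd (nat_lit 4) (.nd (nat_lit 5) 
(.lf (nat_lit 123721) (.g (nat_lit 1608) (.e (nat_lit 7261) (nat_lit 384) (.e (nat_lit 57435) (nat_lit 17) (.e (nat_lit 376842) (nat_lit 11) (.e (nat_lit 426003) (nat_lit 0) .nil)))) .nil)) 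
(.lf (nat_lit 123753) (.g (nat_lit 3419) (.e (nat_lit 7261) (nat_lit 384) (.e (nat_lit 57435) (nat_lit 17) (.e (nat_lit 376842) (nat_lit 11) (.e (nat_lit 426344) (nat_lit 14) (.e (nat_lit 491558) (nat_lit 10) (.e (nat_lit 344095) (nat_lit 18) .nil)))))) (.g (nat_lit 6) .nil .nil)))) (.nd (nat_lit 5) 
(.lf (nat_lit 123737) (.g (nat_lit 3222) (.e (nat_lit 7261) (nat_lit 384) (.e (nat_lit 57435) (nat_lit 17) (.e (nat_lit 376842) (nat_lit 11) (.e (nat_lit 426341) (nat_lit 14) (.e (nat_lit 491560) (nat_lit 10) (.e (nat_lit 344094) (nat_lit 18) .nil)))))) (.g (nat_lit 5) .nil .nil))) 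
(.lf (nat_lit 123769) (.g (nat_lit 1518) (.e (nat_lit 7261) (nat_lit 384) (.e (nat_lit 57436) (nat_lit 17) (.e (nat_lit 376842) (nat_lit 11) (.e (nat_lit 426003) (nat_lit 0) .nil)))) .nil))))) (.nd (nat_lit 3) (.nd (nat_lit 4) (.nd (nat_lit 5) 
(.lf (nat_lit 123717) (.g (nat_lit 3501) (.e (nat_lit 7261) (nat_lit 384) (.e (nat_lit 57432) (nat_lit 16) (.e (nat_lit 368676) (nat_lit 21) (.e (nat_lit 516176) (nat_lit 14) (.e (nat_lit 466967) (nat_lit 20) (.e (nat_lit 3304) (nat_lit 202) (.e (nat_lit 573477) (nat_lit 12) (.e (nat_lit 57353) (nat_lit 0) .nil)))))))) (.g (nat_lit 7) .nil .nil))) 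
(.lf (nat_lit 123749) (.g (nat_lit 3206) (.e (nat_lit 7261) (nat_lit 384) (.e (nat_lit 57435) (nat_lit 17) (.e (nat_lit 376842) (nat_lit 11) (.e (nat_lit 426343) (nat_lit 14) (.e (nat_lit 491560) (nat_lit 10) (.e (nat_lit 344094) (nat_lit 18) .nil)))))) (.g (nat_lit 5) .nil .nil)))) (.nd (nat_lit 5) 
(.lf (nat_lit 123733) (.g (nat_lit 3195) (.e (nat_lit 7261) (nat_lit 384) (.e (nat_lit 57435) (nat_lit 17) (.e (nat_lit 376842) (nat_lit 11) (.e (nat_lit 426012) (nat_lit 0) (.e (nat_lit 7593) (nat_lit 407) (.e (nat_lit 73729) (nat_lit 0) .nil)))))) (.g (nat_lit 5) .nil .nil))) 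
(.lf (nat_lit 123765) (.g (nat_lit 474) (.e (nat_lit 7261) (nat_lit 384) (.e (nat_lit 57436) (nat_lit 17) (.e (nat_lit 376840) (nat_lit 11) .nil))) .nil)))) (.nd (nat_lit 4) (.nd (nat_lit 5) 
(.lf (nat_lit 123725) (.g (nat_lit 2470) (.e (nat_lit 7261) (nat_lit 384) (.e (nat_lit 57435) (nat_lit 17) (.e (nat_lit 376842) (nat_lit 11) (.e (nat_lit 426010) (nat_lit 0) (.e (nat_lit 7591) (nat_lit 407) (.e (nat_lit 73730) (nat_lit 0) .nil)))))) (.g (nat_lit 5) .nil .nil))) 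
(.lf (nat_lit 123757) (.g (nat_lit 3356) (.e (nat_lit 7261) (nat_lit 384) (.e (nat_lit 57435) (nat_lit 17) (.e (nat_lit 376842) (nat_lit 11) (.e (nat_lit 426344) (nat_lit 14) (.e (nat_lit 491560) (nat_lit 10) (.e (nat_lit 344094) (nat_lit 18) .nil)))))) (.g (nat_lit 5) .nil .nil)))) (.nd (nat_lit 5) 
(.lf (nat_lit 123741) (.g (nat_lit 3381) (.e (nat_lit 7261) (nat_lit 384) (.e (nat_lit 57435) (nat_lit 17) (.e (nat_lit 376842) (nat_lit 11) (.e (nat_lit 426342) (nat_lit 14) (.e (nat_lit 491560) (nat_lit 10) (.e (nat_lit 344090) (nat_lit 18) .nil)))))) (.g (nat_lit 6) .nil .nil))) 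
(.lf (nat_lit 123773) (.g (nat_lit 2181) (.e (nat_lit 7261) (nat_lit 384) (.e (nat_lit 57436) (nat_lit 17) (.e (nat_lit 376842) (nat_lit 11) (.e (nat_lit 426009) (nat_lit 0) (.e (nat_lit 7593) (nat_lit 407) (.e (nat_lit 73730) (nat_lit 0) .nil)))))) (.g (nat_lit 5) .nil .nil))))))) (.nd (nat_lit 2) (.nd (nat_lit 3) (.nd (nat_lit 4) (.nd (nat_lit 5) 
(.lf (nat_lit 123715) (.g (nat_lit 2908) (.e (nat_lit 7261) (nat_lit 384) (.e (nat_lit 57432) (nat_lit 16) (.e (nat_lit 368676) (nat_lit 21) (.e (nat_lit 516165) (nat_lit 12) (.e (nat_lit 450586) (nat_lit 10) (.e (nat_lit 573478) (nat_lit 12) (.e (nat_lit 57353) (nat_lit 0) .nil))))))) (.g (nat_lit 5) .nil .nil))) 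
(.lf (nat_lit 123747) (.g (nat_lit 3691) (.e (nat_lit 7261) (nat_lit 384) (.e (nat_lit 57435) (nat_lit 17) (.e (nat_lit 376842) (nat_lit 11) (.e (nat_lit 426343) (nat_lit 14) (.e (nat_lit 491558) (nat_lit 10) (.e (nat_lit 344096) (nat_lit 18) .nil)))))) (.g (nat_lit 0) .nil .nil)))) (.nd (nat_lit 5) 
(.lf (nat_lit 123731) (.g (nat_lit 3318) (.e (nat_lit 7261) (nat_lit 384) (.e (nat_lit 57435) (nat_lit 17) (.e (nat_lit 376842) (nat_lit 11) (.e (nat_lit 426011) (nat_lit 0) (.e (nat_lit 7593) (nat_lit 407) (.e (nat_lit 73730) (nat_lit 0) .nil)))))) (.g (nat_lit 6) .nil .nil))) 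
(.lf (nat_lit 123763) (.g (nat_lit 445) (.e (nat_lit 7261) (nat_lit 384) (.e (nat_lit 57436) (nat_lit 17) (.e (nat_lit 384768) (nat_lit 10) .nil))) .nil)))) (.nd (nat_lit 4) (.nd (nat_lit 5) 
(.lf (nat_lit 123723) (.g (nat_lit 2311) (.e (nat_lit 7261) (nat_lit 384) (.e (nat_lit 57435) (nat_lit 17) (.e (nat_lit 376842) (nat_lit 11) (.e (nat_lit 426009) (nat_lit 0) (.e (nat_lit 7591) (nat_lit 407) (.e (nat_lit 73731) (nat_lit 0) .nil)))))) (.g (nat_lit 6) .nil .nil))) 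
(.lf (nat_lit 123755) (.g (nat_lit 3687) (.e (nat_lit 7261) (nat_lit 384) (.e (nat_lit 57435) (nat_lit 17) (.e (nat_lit 376842) (nat_lit 11) (.e (nat_lit 426344) (nat_lit 14) (.e (nat_lit 491560) (nat_lit 10) (.e (nat_lit 344090) (nat_lit 18) .nil)))))) (.g (nat_lit 6) .nil .nil)))) (.nd (nat_lit 5) 
(.lf (nat_lit 123739) (.g (nat_lit 2668) (.e (nat_lit 7261) (nat_lit 384) (.e (nat_lit 57435) (nat_lit 17) (.e (nat_lit 376842) (nat_lit 11) (.e (nat_lit 426342) (nat_lit 14) (.e (nat_lit 491558) (nat_lit 10) (.e (nat_lit 344090) (nat_lit 18) .nil)))))) (.g (nat_lit 5) .nil .nil))) 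
(.lf (nat_lit 123771) (.g (nat_lit 2205) (.e (nat_lit 7261) (nat_lit 384) (.e (nat_lit 57436) (nat_lit 17) (.e (nat_lit 376842) (nat_lit 11) (.e (nat_lit 426009) (nat_lit 0) (.e (nat_lit 7591) (nat_lit 407) (.e (nat_lit 73731) (nat_lit 0) .nil)))))) (.g (nat_lit 6) .nil .nil)))))) (.nd (nat_lit 3) (.nd (nat_lit 4) (.nd (nat_lit 5) 
(.lf (nat_lit 123719) (.g (nat_lit 1139) (.e (nat_lit 7261) (nat_lit 384) (.e (nat_lit 57435) (nat_lit 17) (.e (nat_lit 376840) (nat_lit 11) (.e (nat_lit 425984) (nat_lit 0) (.e (nat_lit 7590) (nat_lit 407) (.e (nat_lit 73730) (nat_lit 0) .nil)))))) (.g (nat_lit 5) .nil .nil))) 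
(.lf (nat_lit 123751) (.g (nat_lit 3209) (.e (nat_lit 7261) (nat_lit 384) (.e (nat_lit 57435) (nat_lit 17) (.e (nat_lit 376842) (nat_lit 11) (.e (nat_lit 426344) (nat_lit 14) (.e (nat_lit 491558) (nat_lit 10) (.e (nat_lit 344090) (nat_lit 18) .nil)))))) (.g (nat_lit 6) .nil .nil)))) (.nd (nat_lit 5) 
(.lf (nat_lit 123735) (.g (nat_lit 1943) (.e (nat_lit 7261) (nat_lit 384) (.e (nat_lit 57435) (nat_lit 17) (.e (nat_lit 376842) (nat_lit 11) (.e (nat_lit 426341) (nat_lit 14) (.e (nat_lit 491558) (nat_lit 10) .nil))))) .nil)) 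
(.lf (nat_lit 123767) (.g (nat_lit 1186) (.e (nat_lit 7261) (nat_lit 384) (.e (nat_lit 57436) (nat_lit 17) (.e (nat_lit 376840) (nat_lit 11) (.e (nat_lit 425984) (nat_lit 0) (.e (nat_lit 7590) (nat_lit 407) (.e (nat_lit 73731) (nat_lit 0) .nil)))))) (.g (nat_lit 4) .nil .nil))))) (.nd (nat_lit 4) (.nd (nat_lit 5) 
(.lf (nat_lit 123727) (.g (nat_lit 2544) (.e (nat_lit 7261) (nat_lit 384) (.e (nat_lit 57435) (nat_lit 17) (.e (nat_lit 376842) (nat_lit 11) (.e (nat_lit 426010) (nat_lit 0) (.e (nat_lit 7593) (nat_lit 407) (.e (nat_lit 73730) (nat_lit 0) .nil)))))) (.g (nat_lit 5) .nil .nil))) 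
(.lf (nat_lit 123759) (.g (nat_lit 3337) (.e (nat_lit 7261) (nat_lit 384) (.e (nat_lit 57435) (nat_lit 17) (.e (nat_lit 376842) (nat_lit 11) (.e (nat_lit 426344) (nat_lit 14) (.e (nat_lit 491560) (nat_lit 10) (.e (nat_lit 344096) (nat_lit 18) .nil)))))) (.g (nat_lit 5) .nil .nil)))) (.nd (nat_lit 5) 
(.lf (nat_lit 123743) (.g (nat_lit 3081) (.e (nat_lit 7261) (nat_lit 384) (.e (nat_lit 57435) (nat_lit 17) (.e (nat_lit 376842) (nat_lit 11) (.e (nat_lit 426342) (nat_lit 14) (.e (nat_lit 491560) (nat_lit 10) (.e (nat_lit 344094) (nat_lit 18) .nil)))))) (.g (nat_lit 6) .nil .nil))) 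
(.lf (nat_lit 123775) (.g (nat_lit 2419) (.e (nat_lit 7261) (nat_lit 384) (.e (nat_lit 57436) (nat_lit 17) (.e (nat_lit 376842) (nat_lit 11) (.e (nat_lit 426010) (nat_lit 0) (.e (nat_lit 7591) (nat_lit 407) (.e (nat_lit 73731) (nat_lit 0) .nil)))))) (.g (nat_lit 6) .nil .nil)))))))))

noncomputable def tv1655 : DT := (.nd (nat_lit 0) (.nd (nat_lit 1) (.nd (nat_lit 2) (.nd (nat_lit 3) (.nd (nat_lit 4) (.nd (nat_lit 5) 
(.lf (nat_lit 123776) (.g (nat_lit 2370) (.e (nat_lit 7261) (nat_lit 384) (.e (nat_lit 57436) (nat_lit 17) (.e (nat_lit 376842) (nat_lit 11) (.e (nat_lit 426010) (nat_lit 0) (.e (nat_lit 7593) (nat_lit 407) (.e (nat_lit 73730) (nat_lit 0) .nil)))))) (.g (nat_lit 5) .nil .nil))) 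
(.lf (nat_lit 123808) (.g (nat_lit 3677) (.e (nat_lit 7261) (nat_lit 384) (.e (nat_lit 57436) (nat_lit 17) (.e (nat_lit 376859) (nat_lit 21) (.e (nat_lit 57681) (nat_lit 155) (.e (nat_lit 122919) (nat_lit 15) (.e (nat_lit 360451) (nat_lit 0) .nil)))))) (.g (nat_lit 6) .nil .nil)))) (.nd (nat_lit 5) 
(.lf (nat_lit 123792) (.g (nat_lit 3476) (.e (nat_lit 7261) (nat_lit 384) (.e (nat_lit 57436) (nat_lit 17) (.e (nat_lit 376842) (nat_lit 11) (.e (nat_lit 426343) (nat_lit 14) (.e (nat_lit 491558) (nat_lit 10) (.e (nat_lit 344091) (nat_lit 18) .nil)))))) (.g (nat_lit 0) .nil .nil))) 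
(.lf (nat_lit 123824) (.g (nat_lit 2301) (.e (nat_lit 7261) (nat_lit 384) (.e (nat_lit 57437) (nat_lit 17) (.e (nat_lit 376842) (nat_lit 11) (.e (nat_lit 426010) (nat_lit 0) (.e (nat_lit 7591) (nat_lit 407) (.e (nat_lit 73730) (nat_lit 0) .nil)))))) (.g (nat_lit 5) .nil .nil))))) (.nd (nat_lit 4) (.nd (nat_lit 5) 
(.lf (nat_lit 123784) (.g (nat_lit 3105) (.e (nat_lit 7261) (nat_lit 384) (.e (nat_lit 57436) (nat_lit 17) (.e (nat_lit 376842) (nat_lit 11) (.e (nat_lit 426341) (nat_lit 14) (.e (nat_lit 491560) (nat_lit 10) (.e (nat_lit 344094) (nat_lit 18) .nil)))))) (.g (nat_lit 6) .nil .nil))) 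
(.lf (nat_lit 123816) (.g (nat_lit 1334) (.e (nat_lit 7261) (nat_lit 384) (.e (nat_lit 57436) (nat_lit 17) (.e (nat_lit 376860) (nat_lit 21) (.e (nat_lit 57671) (nat_lit 152) .nil)))) .nil))) (.nd (nat_lit 5) 
(.lf (nat_lit 123800) (.g (nat_lit 3565) (.e (nat_lit 7261) (nat_lit 384) (.e (nat_lit 57436) (nat_lit 17) (.e (nat_lit 376842) (nat_lit 11) (.e (nat_lit 426344) (nat_lit 14) (.e (nat_lit 491558) (nat_lit 10) (.e (nat_lit 344096) (nat_lit 18) .nil)))))) (.g (nat_lit 6) .nil .nil))) 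
(.lf (nat_lit 123832) (.g (nat_lit 2127) (.e (nat_lit 7261) (nat_lit 384) (.e (nat_lit 57437) (nat_lit 17) (.e (nat_lit 376842) (nat_lit 11) (.e (nat_lit 426012) (nat_lit 0) (.e (nat_lit 7591) (nat_lit 407) (.e (nat_lit 73730) (nat_lit 0) .nil)))))) (.g (nat_lit 4) .nil .nil)))))) (.nd (nat_lit 3) (.nd (nat_lit 4) (.nd (nat_lit 5) 
(.lf (nat_lit 123780) (.g (nat_lit 2486) (.e (nat_lit 7261) (nat_lit 384) (.e (nat_lit 57436) (nat_lit 17) (.e (nat_lit 376842) (nat_lit 11) (.e (nat_lit 426011) (nat_lit 0) (.e (nat_lit 7593) (nat_lit 407) (.e (nat_lit 73731) (nat_lit 0) .nil)))))) (.g (nat_lit 5) .nil .nil))) 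
(.lf (nat_lit 123812) (.g (nat_lit 1709) (.e (nat_lit 7261) (nat_lit 384) (.e (nat_lit 57436) (nat_lit 17) (.e (nat_lit 376859) (nat_lit 21) (.e (nat_lit 57684) (nat_lit 155) (.e (nat_lit 122917) (nat_lit 15) (.e (nat_lit 360449) (nat_lit 0) .nil)))))) (.g (nat_lit 4) .nil .nil)))) (.nd (nat_lit 5) 
(.lf (nat_lit 123796) (.g (nat_lit 3143) (.e (nat_lit 7261) (nat_lit 384) (.e (nat_lit 57436) (nat_lit 17) (.e (nat_lit 376842) (nat_lit 11) (.e (nat_lit 426343) (nat_lit 14) (.e (nat_lit 491560) (nat_lit 10) (.e (nat_lit 344091) (nat_lit 18) .nil)))))) (.g (nat_lit 6) .nil .nil))) 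
(.lf (nat_lit 123828) (.g (nat_lit 3265) (.e (nat_lit 7261) (nat_lit 384) (.e (nat_lit 57437) (nat_lit 17) (.e (nat_lit 376842) (nat_lit 11) (.e (nat_lit 426011) (nat_lit 0) (.e (nat_lit 7591) (nat_lit 407) (.e (nat_lit 73729) (nat_lit 0) .nil)))))) (.g (nat_lit 6) .nil .nil))))) (.nd (nat_lit 4) (.nd (nat_lit 5) 
(.lf (nat_lit 123788) (.g (nat_lit 3178) (.e (nat_lit 7261) (nat_lit 384) (.e (nat_lit 57436) (nat_lit 17) (.e (nat_lit 376842) (nat_lit 11) (.e (nat_lit 426342) (nat_lit 14) (.e (nat_lit 491560) (nat_lit 10) (.e (nat_lit 344090) (nat_lit 18) .nil)))))) (.g (nat_lit 6) .nil .nil))) 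
(.lf (nat_lit 123820) (.g (nat_lit 1603) (.e (nat_lit 7261) (nat_lit 384) (.e (nat_lit 57437) (nat_lit 17) (.e (nat_lit 376842) (nat_lit 11) (.e (nat_lit 426003) (nat_lit 0) .nil)))) .nil))) (.nd (nat_lit 5) 
(.lf (nat_lit 123804) (.g (nat_lit 3348) (.e (nat_lit 7261) (nat_lit 384) (.e (nat_lit 57436) (nat_lit 17) (.e (nat_lit 376842) (nat_lit 11) (.e (nat_lit 426344) (nat_lit 14) (.e (nat_lit 491560) (nat_lit 10) (.e (nat_lit 344095) (nat_lit 18) .nil)))))) (.g (nat_lit 5) .nil .nil))) 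
(.lf (nat_lit 123836) (.g (nat_lit 1479) (.e (nat_lit 7261) (nat_lit 384) (.e (nat_lit 57437) (nat_lit 17) (.e (nat_lit 376842) (nat_lit 11) (.e (nat_lit 426338) (nat_lit 14) .nil)))) .nil)))))) (.nd (nat_lit 2) (.nd (nat_lit 3) (.nd (nat_lit 4) (.nd (nat_lit 5) 
(.lf (nat_lit 123778) (.g (nat_lit 2929) (.e (nat_lit 7261) (nat_lit 384) (.e (nat_lit 57436) (nat_lit 17) (.e (nat_lit 376842) (nat_lit 11) (.e (nat_lit 426011) (nat_lit 0) (.e (nat_lit 7591) (nat_lit 407) (.e (nat_lit 73731) (nat_lit 0) .nil)))))) (.g (nat_lit 0) .nil .nil))) 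
(.lf (nat_lit 123810) (.g (nat_lit 1930) (.e (nat_lit 7261) (nat_lit 384) (.e (nat_lit 57436) (nat_lit 17) (.e (nat_lit 376859) (nat_lit 21) (.e (nat_lit 57683) (nat_lit 155) (.e (nat_lit 122917) (nat_lit 15) (.e (nat_lit 360449) (nat_lit 0) .nil)))))) (.g (nat_lit 4) .nil .nil)))) (.nd (nat_lit 5) 
(.lf (nat_lit 123794) (.g (nat_lit 3534) (.e (nat_lit 7261) (nat_lit 384) (.e (nat_lit 57436) (nat_lit 17) (.e (nat_lit 376842) (nat_lit 11) (.e (nat_lit 426343) (nat_lit 14) (.e (nat_lit 491558) (nat_lit 10) (.e (nat_lit 344096) (nat_lit 18) .nil)))))) (.g (nat_lit 0) .nil .nil))) 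
(.lf (nat_lit 123826) (.g (nat_lit 2367) (.e (nat_lit 7261) (nat_lit 384) (.e (nat_lit 57437) (nat_lit 17) (.e (nat_lit 376842) (nat_lit 11) (.e (nat_lit 426010) (nat_lit 0) (.e (nat_lit 7593) (nat_lit 407) (.e (nat_lit 73730) (nat_lit 0) .nil)))))) (.g (nat_lit 5) .nil .nil))))) (.nd (nat_lit 4) (.nd (nat_lit 5) 
(.lf (nat_lit 123786) (.g (nat_lit 2440) (.e (nat_lit 7261) (nat_lit 384) (.e (nat_lit 57436) (nat_lit 17) (.e (nat_lit 376842) (nat_lit 11) (.e (nat_lit 426342) (nat_lit 14) (.e (nat_lit 491558) (nat_lit 10) (.e (nat_lit 344090) (nat_lit 18) .nil)))))) (.g (nat_lit 5) .nil .nil))) 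
(.lf (nat_lit 123818) (.g (nat_lit 343) (.e (nat_lit 7261) (nat_lit 384) (.e (nat_lit 57437) (nat_lit 17) (.e (nat_lit 384768) (nat_lit 10) .nil))) .nil))) (.nd (nat_lit 5) 
(.lf (nat_lit 123802) (.g (nat_lit 3254) (.e (nat_lit 7261) (nat_lit 384) (.e (nat_lit 57436) (nat_lit 17) (.e (nat_lit 376842) (nat_lit 11) (.e (nat_lit 426344) (nat_lit 14) (.e (nat_lit 491560) (nat_lit 10) (.e (nat_lit 344091) (nat_lit 18) .nil)))))) (.g (nat_lit 5) .nil .nil))) 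
(.lf (nat_lit 123834) (.g (nat_lit 2825) (.e (nat_lit 7261) (nat_lit 384) (.e (nat_lit 57437) (nat_lit 17) (.e (nat_lit 376842) (nat_lit 11) (.e (nat_lit 426012) (nat_lit 0) (.e (nat_lit 7593) (nat_lit 407) (.e (nat_lit 73729) (nat_lit 0) .nil)))))) (.g (nat_lit 5) .nil .nil)))))) (.nd (nat_lit 3) (.nd (nat_lit 4) (.nd (nat_lit 5) 
(.lf (nat_lit 123782) (.g (nat_lit 2065) (.e (nat_lit 7261) (nat_lit 384) (.e (nat_lit 57436) (nat_lit 17) (.e (nat_lit 376842) (nat_lit 11) (.e (nat_lit 426012) (nat_lit 0) (.e (nat_lit 7593) (nat_lit 407) (.e (nat_lit 73731) (nat_lit 0) .nil)))))) (.g (nat_lit 4) .nil .nil))) 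
(.lf (nat_lit 123814) (.g (nat_lit 1503) (.e (nat_lit 7261) (nat_lit 384) (.e (nat_lit 57436) (nat_lit 17) (.e (nat_lit 376860) (nat_lit 21) (.e (nat_lit 57664) (nat_lit 152) .nil)))) .nil))) (.nd (nat_lit 5) 
(.lf (nat_lit 123798) (.g (nat_lit 3051) (.e (nat_lit 7261) (nat_lit 384) (.e (nat_lit 57436) (nat_lit 17) (.e (nat_lit 376842) (nat_lit 11) (.e (nat_lit 426344) (nat_lit 14) (.e (nat_lit 491558) (nat_lit 10) (.e (nat_lit 344090) (nat_lit 18) .nil)))))) (.g (nat_lit 6) .nil .nil))) 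
(.lf (nat_lit 123830) (.g (nat_lit 3010) (.e (nat_lit 7261) (nat_lit 384) (.e (nat_lit 57437) (nat_lit 17) (.e (nat_lit 376842) (nat_lit 11) (.e (nat_lit 426011) (nat_lit 0) (.e (nat_lit 7591) (nat_lit 407) (.e (nat_lit 73731) (nat_lit 0) .nil)))))) (.g (nat_lit 6) .nil .nil))))) (.nd (nat_lit 4) (.nd (nat_lit 5) 
(.lf (nat_lit 123790) (.g (nat_lit 2813) (.e (nat_lit 7261) (nat_lit 384) (.e (nat_lit 57436) (nat_lit 17) (.e (nat_lit 376842) (nat_lit 11) (.e (nat_lit 426342) (nat_lit 14) (.e (nat_lit 491560) (nat_lit 10) (.e (nat_lit 344094) (nat_lit 18) .nil)))))) (.g (nat_lit 5) .nil .nil))) 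
(.lf (nat_lit 123822) (.g (nat_lit 2268) (.e (nat_lit 7261) (nat_lit 384) (.e (nat_lit 57437) (nat_lit 17) (.e (nat_lit 376842) (nat_lit 11) (.e (nat_lit 426009) (nat_lit 0) (.e (nat_lit 7591) (nat_lit 407) (.e (nat_lit 73731) (nat_lit 0) .nil)))))) (.g (nat_lit 5) .nil .nil)))) (.nd (nat_lit 5) 
(.lf (nat_lit 123806) (.g (nat_lit 2559) (.e (nat_lit 7261) (nat_lit 384) (.e (nat_lit 57436) (nat_lit 17) (.e (nat_lit 376856) (nat_lit 21) (.e (nat_lit 57681) (nat_lit 155) (.e (nat_lit 122919) (nat_lit 15) (.e (nat_lit 360451) (nat_lit 0) .nil)))))) (.g (nat_lit 5) .nil .nil))) 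
(.lf (nat_lit 123838) (.g (nat_lit 2969) (.e (nat_lit 7261) (nat_lit 384) (.e (nat_lit 57437) (nat_lit 17) (.e (nat_lit 376842) (nat_lit 11) (.e (nat_lit 426341) (nat_lit 14) (.e (nat_lit 491560) (nat_lit 10) (.e (nat_lit 344094) (nat_lit 18) .nil)))))) (.g (nat_lit 5) .nil .nil)))))))) (.nd (nat_lit 1) (.nd (nat_lit 2) (.nd (nat_lit 3) (.nd (nat_lit 4) (.nd (nat_lit 5) 
(.lf (nat_lit 123777) (.g (nat_lit 3220) (.e (nat_lit 7261) (nat_lit 384) (.e (nat_lit 57436) (nat_lit 17) (.e (nat_lit 376842) (nat_lit 11) (.e (nat_lit 426011) (nat_lit 0) (.e (nat_lit 7591) (nat_lit 407) (.e (nat_lit 73729) (nat_lit 0) .nil)))))) (.g (nat_lit 6) .nil .nil))) 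
(.lf (nat_lit 123809) (.g (nat_lit 1139) (.e (nat_lit 7261) (nat_lit 384) (.e (nat_lit 57436) (nat_lit 17) (.e (nat_lit 376859) (nat_lit 21) (.e (nat_lit 57683) (nat_lit 155) .nil)))) .nil))) (.nd (nat_lit 5) 
(.lf (nat_lit 123793) (.g (nat_lit 3257) (.e (nat_lit 7261) (nat_lit 384) (.e (nat_lit 57436) (nat_lit 17) (.e (nat_lit 376842) (nat_lit 11) (.e (nat_lit 426343) (nat_lit 14) (.e (nat_lit 491558) (nat_lit 10) (.e (nat_lit 344095) (nat_lit 18) .nil)))))) (.g (nat_lit 0) .nil .nil))) 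
(.lf (nat_lit 123825) (.g (nat_lit 2370) (.e (nat_lit 7261) (nat_lit 384) (.e (nat_lit 57437) (nat_lit 17) (.e (nat_lit 376842) (nat_lit 11) (.e (nat_lit 426010) (nat_lit 0) (.e (nat_lit 7591) (nat_lit 407) (.e (nat_lit 73731) (nat_lit 0) .nil)))))) (.g (nat_lit 5) .nil .nil))))) (.nd (nat_lit 4) (.nd (nat_lit 5) 
(.lf (nat_lit 123785) (.g (nat_lit 2728) (.e (nat_lit 7261) (nat_lit 384) (.e (nat_lit 57436) (nat_lit 17) (.e (nat_lit 376842) (nat_lit 11) (.e (nat_lit 426341) (nat_lit 14) (.e (nat_lit 491560) (nat_lit 10) (.e (nat_lit 344096) (nat_lit 18) .nil)))))) (.g (nat_lit 5) .nil .nil))) 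
(.lf (nat_lit 123817) (.g (nat_lit 343) (.e (nat_lit 7261) (nat_lit 384) (.e (nat_lit 57437) (nat_lit 17) (.e (nat_lit 384768) (nat_lit 9) .nil))) .nil))) (.nd (nat_lit 5) 
(.lf (nat_lit 123801) (.g (nat_lit 3580) (.e (nat_lit 7261) (nat_lit 384) (.e (nat_lit 57436) (nat_lit 17) (.e (nat_lit 376842) (nat_lit 11) (.e (nat_lit 426344) (nat_lit 14) (.e (nat_lit 491560) (nat_lit 10) (.e (nat_lit 344090) (nat_lit 18) .nil)))))) (.g (nat_lit 6) .nil .nil))) 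
(.lf (nat_lit 123833) (.g (nat_lit 2185) (.e (nat_lit 7261) (nat_lit 384) (.e (nat_lit 57437) (nat_lit 17) (.e (nat_lit 376842) (nat_lit 11) (.e (nat_lit 426012) (nat_lit 0) (.e (nat_lit 7591) (nat_lit 407) (.e (nat_lit 73731) (nat_lit 0) .nil)))))) (.g (nat_lit 4) .nil .nil)))))) (.nd (nat_lit 3) (.nd (nat_lit 4) (.nd (nat_lit 5) 
(.lf (nat_lit 123781) (.g (nat_lit 2633) (.e (nat_lit 7261) (nat_lit 384) (.e (nat_lit 57436) (nat_lit 17) (.e (nat_lit 376842) (nat_lit 11) (.e (nat_lit 426012) (nat_lit 0) (.e (nat_lit 7591) (nat_lit 407) (.e (nat_lit 73729) (nat_lit 0) .nil)))))) (.g (nat_lit 5) .nil .nil))) 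
(.lf (nat_lit 123813) (.g (nat_lit 2162) (.e (nat_lit 7261) (nat_lit 384) (.e (nat_lit 57436) (nat_lit 17) (.e (nat_lit 376859) (nat_lit 21) (.e (nat_lit 57684) (nat_lit 155) (.e (nat_lit 122919) (nat_lit 15) (.e (nat_lit 360450) (nat_lit 0) .nil)))))) (.g (nat_lit 5) .nil .nil)))) (.nd (nat_lit 5) 
(.lf (nat_lit 123797) (.g (nat_lit 2979) (.e (nat_lit 7261) (nat_lit 384) (.e (nat_lit 57436) (nat_lit 17) (.e (nat_lit 376842) (nat_lit 11) (.e (nat_lit 426343) (nat_lit 14) (.e (nat_lit 491560) (nat_lit 10) (.e (nat_lit 344094) (nat_lit 18) .nil)))))) (.g (nat_lit 5) .nil .nil))) 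
(.lf (nat_lit 123829) (.g (nat_lit 2974) (.e (nat_lit 7261) (nat_lit 384) (.e (nat_lit 57437) (nat_lit 17) (.e (nat_lit 376842) (nat_lit 11) (.e (nat_lit 426011) (nat_lit 0) (.e (nat_lit 7591) (nat_lit 407) (.e (nat_lit 73730) (nat_lit 0) .nil)))))) (.g (nat_lit 6) .nil .nil))))) (.nd (nat_lit 4) (.nd (nat_lit 5) 
(.lf (nat_lit 123789) (.g (nat_lit 2941) (.e (nat_lit 7261) (nat_lit 384) (.e (nat_lit 57436) (nat_lit 17) (.e (nat_lit 376842) (nat_lit 11) (.e (nat_lit 426342) (nat_lit 14) (.e (nat_lit 491560) (nat_lit 10) (.e (nat_lit 344091) (nat_lit 18) .nil)))))) (.g (nat_lit 6) .nil .nil))) 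
(.lf (nat_lit 123821) (.g (nat_lit 2221) (.e (nat_lit 7261) (nat_lit 384) (.e (nat_lit 57437) (nat_lit 17) (.e (nat_lit 376842) (nat_lit 11) (.e (nat_lit 426009) (nat_lit 0) (.e (nat_lit 7591) (nat_lit 407) (.e (nat_lit 73730) (nat_lit 0) .nil)))))) (.g (nat_lit 5) .nil .nil)))) (.nd (nat_lit 5) 
(.lf (nat_lit 123805) (.g (nat_lit 3227) (.e (nat_lit 7261) (nat_lit 384) (.e (nat_lit 57436) (nat_lit 17) (.e (nat_lit 376842) (nat_lit 11) (.e (nat_lit 426344) (nat_lit 14) (.e (nat_lit 491560) (nat_lit 10) (.e (nat_lit 344096) (nat_lit 18) .nil)))))) (.g (nat_lit 5) .nil .nil))) 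
(.lf (nat_lit 123837) (.g (nat_lit 2044) (.e (nat_lit 7261) (nat_lit 384) (.e (nat_lit 57437) (nat_lit 17) (.e (nat_lit 376842) (nat_lit 11) (.e (nat_lit 426341) (nat_lit 14) (.e (nat_lit 491558) (nat_lit 10) .nil))))) .nil)))))) (.nd (nat_lit 2) (.nd (nat_lit 3) (.nd (nat_lit 4) (.nd (nat_lit 5) 
(.lf (nat_lit 123779) (.g (nat_lit 3115) (.e (nat_lit 7261) (nat_lit 384) (.e (nat_lit 57436) (nat_lit 17) (.e (nat_lit 376842) (nat_lit 11) (.e (nat_lit 426011) (nat_lit 0) (.e (nat_lit 7593) (nat_lit 407) (.e (nat_lit 73730) (nat_lit 0) .nil)))))) (.g (nat_lit 6) .nil .nil))) 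
(.lf (nat_lit 123811) (.g (nat_lit 1129) (.e (nat_lit 7261) (nat_lit 384) (.e (nat_lit 57436) (nat_lit 17) (.e (nat_lit 376859) (nat_lit 21) (.e (nat_lit 57684) (nat_lit 155) .nil)))) .nil))) (.nd (nat_lit 5) 
(.lf (nat_lit 123795) (.g (nat_lit 3470) (.e (nat_lit 7261) (nat_lit 384) (.e (nat_lit 57436) (nat_lit 17) (.e (nat_lit 376842) (nat_lit 11) (.e (nat_lit 426343) (nat_lit 14) (.e (nat_lit 491560) (nat_lit 10) (.e (nat_lit 344090) (nat_lit 18) .nil)))))) (.g (nat_lit 0) .nil .nil))) 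
(.lf (nat_lit 123827) (.g (nat_lit 2018) (.e (nat_lit 7261) (nat_lit 384) (.e (nat_lit 57437) (nat_lit 17) (.e (nat_lit 376842) (nat_lit 11) (.e (nat_lit 426010) (nat_lit 0) (.e (nat_lit 7593) (nat_lit 407) (.e (nat_lit 73731) (nat_lit 0) .nil)))))) (.g (nat_lit 4) .nil .nil))))) (.nd (nat_lit 4) (.nd (nat_lit 5) 
(.lf (nat_lit 123787) (.g (nat_lit 2936) (.e (nat_lit 7261) (nat_lit 384) (.e (nat_lit 57436) (nat_lit 17) (.e (nat_lit 376842) (nat_lit 11) (.e (nat_lit 426342) (nat_lit 14) (.e (nat_lit 491558) (nat_lit 10) (.e (nat_lit 344091) (nat_lit 18) .nil)))))) (.g (nat_lit 6) .nil .nil))) 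
(.lf (nat_lit 123819) (.g (nat_lit 397) (.e (nat_lit 7261) (nat_lit 384) (.e (nat_lit 57437) (nat_lit 17) (.e (nat_lit 376840) (nat_lit 11) .nil))) .nil))) (.nd (nat_lit 5) 
(.lf (nat_lit 123803) (.g (nat_lit 3184) (.e (nat_lit 7261) (nat_lit 384) (.e (nat_lit 57436) (nat_lit 17) (.e (nat_lit 376842) (nat_lit 11) (.e (nat_lit 426344) (nat_lit 14) (.e (nat_lit 491560) (nat_lit 10) (.e (nat_lit 344094) (nat_lit 18) .nil)))))) (.g (nat_lit 6) .nil .nil))) 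
(.lf (nat_lit 123835) (.g (nat_lit 2195) (.e (nat_lit 7261) (nat_lit 384) (.e (nat_lit 57437) (nat_lit 17) (.e (nat_lit 376842) (nat_lit 11) (.e (nat_lit 426012) (nat_lit 0) (.e (nat_lit 7593) (nat_lit 407) (.e (nat_lit 73730) (nat_lit 0) .nil)))))) (.g (nat_lit 4) .nil .nil)))))) (.nd (nat_lit 3) (.nd (nat_lit 4) (.nd (nat_lit 5) 
(.lf (nat_lit 123783) (.g (nat_lit 2784) (.e (nat_lit 7261) (nat_lit 384) (.e (nat_lit 57436) (nat_lit 17) (.e (nat_lit 376842) (nat_lit 11) (.e (nat_lit 426341) (nat_lit 14) (.e (nat_lit 491560) (nat_lit 10) (.e (nat_lit 344091) (nat_lit 18) .nil)))))) (.g (nat_lit 5) .nil .nil))) 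
(.lf (nat_lit 123815) (.g (nat_lit 1537) (.e (nat_lit 7261) (nat_lit 384) (.e (nat_lit 57436) (nat_lit 17) (.e (nat_lit 376860) (nat_lit 21) (.e (nat_lit 57665) (nat_lit 152) .nil)))) .nil))) (.nd (nat_lit 5) 
(.lf (nat_lit 123799) (.g (nat_lit 3473) (.e (nat_lit 7261) (nat_lit 384) (.e (nat_lit 57436) (nat_lit 17) (.e (nat_lit 376842) (nat_lit 11) (.e (nat_lit 426344) (nat_lit 14) (.e (nat_lit 491558) (nat_lit 10) (.e (nat_lit 344091) (nat_lit 18) .nil)))))) (.g (nat_lit 6) .nil .nil))) 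
(.lf (nat_lit 123831) (.g (nat_lit 3241) (.e (nat_lit 7261) (nat_lit 384) (.e (nat_lit 57437) (nat_lit 17) (.e (nat_lit 376842) (nat_lit 11) (.e (nat_lit 426011) (nat_lit 0) (.e (nat_lit 7593) (nat_lit 407) (.e (nat_lit 73730) (nat_lit 0) .nil)))))) (.g (nat_lit 5) .nil .nil))))) (.nd (nat_lit 4) (.nd (nat_lit 5) 
(.lf (nat_lit 123791) (.g (nat_lit 3016) (.e (nat_lit 7261) (nat_lit 384) (.e (nat_lit 57436) (nat_lit 17) (.e (nat_lit 376842) (nat_lit 11) (.e (nat_lit 426343) (nat_lit 14) (.e (nat_lit 491558) (nat_lit 10) (.e (nat_lit 344090) (nat_lit 18) .nil)))))) (.g (nat_lit 6) .nil .nil))) 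
(.lf (nat_lit 123823) (.g (nat_lit 2279) (.e (nat_lit 7261) (nat_lit 384) (.e (nat_lit 57437) (nat_lit 17) (.e (nat_lit 376842) (nat_lit 11) (.e (nat_lit 426009) (nat_lit 0) (.e (nat_lit 7593) (nat_lit 407) (.e (nat_lit 73730) (nat_lit 0) .nil)))))) (.g (nat_lit 5) .nil .nil)))) (.nd (nat_lit 5) 
(.lf (nat_lit 123807) (.g (nat_lit 2357) (.e (nat_lit 7261) (nat_lit 384) (.e (nat_lit 57436) (nat_lit 17) (.e (nat_lit 376857) (nat_lit 21) (.e (nat_lit 57681) (nat_lit 155) (.e (nat_lit 122919) (nat_lit 15) (.e (nat_lit 360451) (nat_lit 0) .nil)))))) (.g (nat_lit 4) .nil .nil))) 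
(.lf (nat_lit 123839) (.g (nat_lit 2564) (.e (nat_lit 7261) (nat_lit 384) (.e (nat_lit 57437) (nat_lit 17) (.e (nat_lit 376842) (nat_lit 11) (.e (nat_lit 426342) (nat_lit 14) (.e (nat_lit 491558) (nat_lit 10) (.e (nat_lit 344090) (nat_lit 18) .nil)))))) (.g (nat_lit 5) .nil .nil)))))))))

noncomputable def tv1656 : DT := (.nd (nat_lit 0) (.nd (nat_lit 1) (.nd (nat_lit 2) (.nd (nat_lit 3) (.nd (nat_lit 4) (.nd (nat_lit 5) 
(.lf (nat_lit 123840) (.g (nat_lit 2971) (.e (nat_lit 7261) (nat_lit 384) (.e (nat_lit 57437) (nat_lit 17) (.e (nat_lit 376842) (nat_lit 11) (.e (nat_lit 426342) (nat_lit 14) (.e (nat_lit 491558) (nat_lit 10) (.e (nat_lit 344091) (nat_lit 18) .nil)))))) (.g (nat_lit 6) .nil .nil))) 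
(.lf (nat_lit 123872) (.g (nat_lit 3340) (.e (nat_lit 7261) (nat_lit 384) (.e (nat_lit 57437) (nat_lit 17) (.e (nat_lit 376859) (nat_lit 21) (.e (nat_lit 57684) (nat_lit 155) (.e (nat_lit 122919) (nat_lit 15) (.e (nat_lit 360450) (nat_lit 0) .nil)))))) (.g (nat_lit 6) .nil .nil)))) (.nd (nat_lit 5) 
(.lf (nat_lit 123856) (.g (nat_lit 3508) (.e (nat_lit 7261) (nat_lit 384) (.e (nat_lit 57437) (nat_lit 17) (.e (nat_lit 376842) (nat_lit 11) (.e (nat_lit 426344) (nat_lit 14) (.e (nat_lit 491558) (nat_lit 10) (.e (nat_lit 344096) (nat_lit 18) .nil)))))) (.g (nat_lit 6) .nil .nil))) 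
(.lf (nat_lit 123888) (.g (nat_lit 3643) (.e (nat_lit 7263) (nat_lit 384) (.e (nat_lit 57404) (nat_lit 12) (.e (nat_lit 336013) (nat_lit 2) (.e (nat_lit 90170) (nat_lit 13) (.e (nat_lit 172113) (nat_lit 10) (.e (nat_lit 434247) (nat_lit 28) (.e (nat_lit 573478) (nat_lit 12) (.e (nat_lit 57351) (nat_lit 0) .nil)))))))) (.g (nat_lit 0) .nil .nil))))) (.nd (nat_lit 4) (.nd (nat_lit 5) 
(.lf (nat_lit 123848) (.g (nat_lit 3165) (.e (nat_lit 7261) (nat_lit 384) (.e (nat_lit 57437) (nat_lit 17) (.e (nat_lit 376842) (nat_lit 11) (.e (nat_lit 426343) (nat_lit 14) (.e (nat_lit 491558) (nat_lit 10) (.e (nat_lit 344095) (nat_lit 18) .nil)))))) (.g (nat_lit 6) .nil .nil))) 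
(.lf (nat_lit 123880) (.g (nat_lit 1595) (.e (nat_lit 7263) (nat_lit 384) (.e (nat_lit 57400) (nat_lit 10) (.e (nat_lit 319490) (nat_lit 0) (.e (nat_lit 7936) (nat_lit 300) .nil)))) .nil))) (.nd (nat_lit 5) 
(.lf (nat_lit 123864) (.g (nat_lit 1396) (.e (nat_lit 7261) (nat_lit 384) (.e (nat_lit 57437) (nat_lit 17) (.e (nat_lit 376859) (nat_lit 21) (.e (nat_lit 57666) (nat_lit 152) .nil)))) .nil)) 
(.lf (nat_lit 123896) (.g (nat_lit 3038) (.e (nat_lit 7263) (nat_lit 384) (.e (nat_lit 57404) (nat_lit 12) (.e (nat_lit 336028) (nat_lit 3) (.e (nat_lit 98359) (nat_lit 26) (.e (nat_lit 426286) (nat_lit 10) (.e (nat_lit 434247) (nat_lit 28) (.e (nat_lit 573478) (nat_lit 12) (.e (nat_lit 57351) (nat_lit 0) .nil)))))))) (.g (nat_lit 0) .nil .nil)))))) 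
(.nd (nat_lit 3) (.nd (nat_lit 4) (.nd (nat_lit 5) 
(.lf (nat_lit 123844) (.g (nat_lit 2819) (.e (nat_lit 7261) (nat_lit 384) (.e (nat_lit 57437) (nat_lit 17) (.e (nat_lit 376842) (nat_lit 11) (.e (nat_lit 426342) (nat_lit 14) (.e (nat_lit 491560) (nat_lit 10) (.e (nat_lit 344094) (nat_lit 18) .nil)))))) (.g (nat_lit 5) .nil .nil))) 
(.lf (nat_lit 123876) (.g (nat_lit 183) (.e (nat_lit 7261) (nat_lit 384) (.e (nat_lit 57446) (nat_lit 19) (.e (nat_lit 401152) (nat_lit 12) .nil))) .nil))) (.nd (nat_lit 5) 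
(.lf (nat_lit 123860) (.g (nat_lit 3159) (.e (nat_lit 7261) (nat_lit 384) (.e (nat_lit 57437) (nat_lit 17) (.e (nat_lit 376842) (nat_lit 11) (.e (nat_lit 426344) (nat_lit 14) (.e (nat_lit 491560) (nat_lit 10) (.e (nat_lit 344096) (nat_lit 18) .nil)))))) (.g (nat_lit 5) .nil .nil))) 
(.lf (nat_lit 123892) (.g (nat_lit 3408) (.e (nat_lit 7263) (nat_lit 384) (.e (nat_lit 57404) (nat_lit 12) (.e (nat_lit 336028) (nat_lit 3) (.e (nat_lit 98359) (nat_lit 26) (.e (nat_lit 426286) (nat_lit 10) (.e (nat_lit 434245) (nat_lit 28) (.e (nat_lit 573473) (nat_lit 12) (.e (nat_lit 57348) (nat_lit 0) .nil)))))))) (.g (nat_lit 8) .nil .nil))))) (.nd (nat_lit 4) (.nd (nat_lit 5) 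
(.lf (nat_lit 123852) (.g (nat_lit 2978) (.e (nat_lit 7261) (nat_lit 384) (.e (nat_lit 57437) (nat_lit 17) (.e (nat_lit 376842) (nat_lit 11) (.e (nat_lit 426343) (nat_lit 14) (.e (nat_lit 491560) (nat_lit 10) (.e (nat_lit 344096) (nat_lit 18) .nil)))))) (.g (nat_lit 5) .nil .nil))) 
(.lf (nat_lit 123884) (.g (nat_lit 3771) (.e (nat_lit 7263) (nat_lit 384) (.e (nat_lit 57404) (nat_lit 12) (.e (nat_lit 336013) (nat_lit 2) (.e (nat_lit 90170) (nat_lit 13) (.e (nat_lit 172113) (nat_lit 10) (.e (nat_lit 434245) (nat_lit 28) (.e (nat_lit 573473) (nat_lit 12) (.e (nat_lit 57348) (nat_lit 0) .nil)))))))) (.g (nat_lit 8) .nil .nil)))) (.nd (nat_lit 5) 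
(.lf (nat_lit 123868) (.g (nat_lit 2047) (.e (nat_lit 7261) (nat_lit 384) (.e (nat_lit 57437) (nat_lit 17) (.e (nat_lit 376859) (nat_lit 21) (.e (nat_lit 57683) (nat_lit 155) (.e (nat_lit 122919) (nat_lit 15) (.e (nat_lit 360449) (nat_lit 0) .nil)))))) (.g (nat_lit 4) .nil .nil))) 
(.lf (nat_lit 123900) (.g (nat_lit 2931) (.e (nat_lit 7263) (nat_lit 384) (.e (nat_lit 57404) (nat_lit 12) (.e (nat_lit 336028) (nat_lit 3) (.e (nat_lit 98372) (nat_lit 29) (.e (nat_lit 450586) (nat_lit 10) (.e (nat_lit 573473) (nat_lit 12) (.e (nat_lit 57348) (nat_lit 0) .nil))))))) (.g (nat_lit 7) .nil .nil))))))) (.nd (nat_lit 2) (.nd (nat_lit 3) (.nd (nat_lit 4) (.nd (nat_lit 5) 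
(.lf (nat_lit 123842) (.g (nat_lit 3006) (.e (nat_lit 7261) (nat_lit 384) (.e (nat_lit 57437) (nat_lit 17) (.e (nat_lit 376842) (nat_lit 11) (.e (nat_lit 426342) (nat_lit 14) (.e (nat_lit 491558) (nat_lit 10) (.e (nat_lit 344096) (nat_lit 18) .nil)))))) (.g (nat_lit 6) .nil .nil))) 
(.lf (nat_lit 123874) (.g (nat_lit 4535) (.e (nat_lit 7261) (nat_lit 384) (.e (nat_lit 57445) (nat_lit 19) (.e (nat_lit 393229) (nat_lit 9) (.e (nat_lit 336069) (nat_lit 8) .nil)))) .nil))) (.nd (nat_lit 5) 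
(.lf (nat_lit 123858) (.g (nat_lit 3200) (.e (nat_lit 7261) (nat_lit 384) (.e (nat_lit 57437) (nat_lit 17) (.e (nat_lit 376842) (nat_lit 11) (.e (nat_lit 426344) (nat_lit 14) (.e (nat_lit 491560) (nat_lit 10) (.e (nat_lit 344091) (nat_lit 18) .nil)))))) (.g (nat_lit 5) .nil .nil))) 
(.lf (nat_lit 123890) (.g (nat_lit 3875) (.e (nat_lit 7263) (nat_lit 384) (.e (nat_lit 57404) (nat_lit 12) (.e (nat_lit 336013) (nat_lit 2) (.e (nat_lit 90170) (nat_lit 13) (.e (nat_lit 172113) (nat_lit 10) (.e (nat_lit 434248) (nat_lit 28) (.e (nat_lit 573473) (nat_lit 12) (.e (nat_lit 57352) (nat_lit 0) .nil)))))))) (.g (nat_lit 0) .nil .nil))))) (.nd (nat_lit 4) (.nd (nat_lit 5) 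
(.lf (nat_lit 123850) (.g (nat_lit 3088) (.e (nat_lit 7261) (nat_lit 384) (.e (nat_lit 57437) (nat_lit 17) (.e (nat_lit 376842) (nat_lit 11) (.e (nat_lit 426343) (nat_lit 14) (.e (nat_lit 491560) (nat_lit 10) (.e (nat_lit 344091) (nat_lit 18) .nil)))))) (.g (nat_lit 6) .nil .nil))) 
(.lf (nat_lit 123882) (.g (nat_lit 4141) (.e (nat_lit 7263) (nat_lit 384) (.e (nat_lit 57404) (nat_lit 12) (.e (nat_lit 336013) (nat_lit 2) (.e (nat_lit 90170) (nat_lit 13) (.e (nat_lit 172106) (nat_lit 10) (.e (nat_lit 434244) (nat_lit 28) (.e (nat_lit 573473) (nat_lit 12) (.e (nat_lit 57352) (nat_lit 0) .nil)))))))) (.g (nat_lit 0) .nil .nil)))) (.nd (nat_lit 5) 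
(.lf (nat_lit 123866) (.g (nat_lit 2746) (.e (nat_lit 7261) (nat_lit 384) (.e (nat_lit 57437) (nat_lit 17) (.e (nat_lit 376859) (nat_lit 21) (.e (nat_lit 57681) (nat_lit 155) (.e (nat_lit 122917) (nat_lit 15) .nil))))) .nil)) 
(.lf (nat_lit 123898) (.g (nat_lit 3473) (.e (nat_lit 7263) (nat_lit 384) (.e (nat_lit 57404) (nat_lit 12) (.e (nat_lit 336028) (nat_lit 3) (.e (nat_lit 98359) (nat_lit 26) (.e (nat_lit 426286) (nat_lit 10) (.e (nat_lit 434248) (nat_lit 28) (.e (nat_lit 573473) (nat_lit 12) (.e (nat_lit 57352) (nat_lit 0) .nil)))))))) (.g (nat_lit 0) .nil .nil)))))) 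
(.nd (nat_lit 3) (.nd (nat_lit 4) (.nd (nat_lit 5) 
(.lf (nat_lit 123846) (.g (nat_lit 3050) (.e (nat_lit 7261) (nat_lit 384) (.e (nat_lit 57437) (nat_lit 17) (.e (nat_lit 376842) (nat_lit 11) (.e (nat_lit 426343) (nat_lit 14) (.e (nat_lit 491558) (nat_lit 10) (.e (nat_lit 344090) (nat_lit 18) .nil)))))) (.g (nat_lit 6) .nil .nil))) 
(.lf (nat_lit 123878) (.g (nat_lit 4931) (.e (nat_lit 7263) (nat_lit 384) (.e (nat_lit 57354) (nat_lit 0) (.e (nat_lit 6493) (nat_lit 343) (.e (nat_lit 1659) (nat_lit 115) (.e (nat_lit 393301) (nat_lit 27) (.e (nat_lit 491560) (nat_lit 10) (.e (nat_lit 344095) (nat_lit 18) .nil))))))) (.g (nat_lit 6) .nil .nil)))) (.nd (nat_lit 5) 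
(.lf (nat_lit 123862) (.g (nat_lit 1482) (.e (nat_lit 7261) (nat_lit 384) (.e (nat_lit 57437) (nat_lit 17) (.e (nat_lit 376858) (nat_lit 21) (.e (nat_lit 57681) (nat_lit 155) (.e (nat_lit 122919) (nat_lit 15) .nil))))) .nil)) 
(.lf (nat_lit 123894) (.g (nat_lit 3860) (.e (nat_lit 7263) (nat_lit 384) (.e (nat_lit 57404) (nat_lit 12) (.e (nat_lit 336028) (nat_lit 3) (.e (nat_lit 98359) (nat_lit 26) (.e (nat_lit 426286) (nat_lit 10) (.e (nat_lit 434245) (nat_lit 28) (.e (nat_lit 573474) (nat_lit 12) (.e (nat_lit 57351) (nat_lit 0) .nil)))))))) (.g (nat_lit 0) .nil .nil))))) (.nd (nat_lit 4) (.nd (nat_lit 5) 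
(.lf (nat_lit 123854) (.g (nat_lit 3435) (.e (nat_lit 7261) (nat_lit 384) (.e (nat_lit 57437) (nat_lit 17) (.e (nat_lit 376842) (nat_lit 11) (.e (nat_lit 426344) (nat_lit 14) (.e (nat_lit 491558) (nat_lit 10) (.e (nat_lit 344091) (nat_lit 18) .nil)))))) (.g (nat_lit 6) .nil .nil))) 
(.lf (nat_lit 123886) (.g (nat_lit 4195) (.e (nat_lit 7263) (nat_lit 384) (.e (nat_lit 57404) (nat_lit 12) (.e (nat_lit 336013) (nat_lit 2) (.e (nat_lit 90170) (nat_lit 13) (.e (nat_lit 172113) (nat_lit 10) (.e (nat_lit 434245) (nat_lit 28) (.e (nat_lit 573474) (nat_lit 12) (.e (nat_lit 57351) (nat_lit 0) .nil)))))))) (.g (nat_lit 0) .nil .nil)))) (.nd (nat_lit 5) 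
(.lf (nat_lit 123870) (.g (nat_lit 1485) (.e (nat_lit 7261) (nat_lit 384) (.e (nat_lit 57437) (nat_lit 17) (.e (nat_lit 376859) (nat_lit 21) (.e (nat_lit 57684) (nat_lit 155) (.e (nat_lit 122917) (nat_lit 15) .nil))))) .nil)) 
(.lf (nat_lit 123902) (.g (nat_lit 3003) (.e (nat_lit 7263) (nat_lit 384) (.e (nat_lit 57404) (nat_lit 12) (.e (nat_lit 336028) (nat_lit 3) (.e (nat_lit 98372) (nat_lit 29) (.e (nat_lit 450586) (nat_lit 10) (.e (nat_lit 573475) (nat_lit 12) (.e (nat_lit 57351) (nat_lit 0) .nil))))))) (.g (nat_lit 0) .nil .nil)))))))) 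
(.nd (nat_lit 1) (.nd (nat_lit 2) (.nd (nat_lit 3) (.nd (nat_lit 4) (.nd (nat_lit 5) 
(.lf (nat_lit 123841) (.g (nat_lit 2700) (.e (nat_lit 7261) (nat_lit 384) (.e (nat_lit 57437) (nat_lit 17) (.e (nat_lit 376842) (nat_lit 11) (.e (nat_lit 426342) (nat_lit 14) (.e (nat_lit 491558) (nat_lit 10) (.e (nat_lit 344095) (nat_lit 18) .nil)))))) (.g (nat_lit 6) .nil .nil))) 
(.lf (nat_lit 123873) (.g (nat_lit 4620) (.e (nat_lit 7261) (nat_lit 384) (.e (nat_lit 57445) (nat_lit 19) (.e (nat_lit 393229) (nat_lit 9) (.e (nat_lit 336067) (nat_lit 8) .nil)))) .nil))) (.nd (nat_lit 5) 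
(.lf (nat_lit 123857) (.g (nat_lit 3597) (.e (nat_lit 7261) (nat_lit 384) (.e (nat_lit 57437) (nat_lit 17) (.e (nat_lit 376842) (nat_lit 11) (.e (nat_lit 426344) (nat_lit 14) (.e (nat_lit 491560) (nat_lit 10) (.e (nat_lit 344090) (nat_lit 18) .nil)))))) (.g (nat_lit 6) .nil .nil))) 
(.lf (nat_lit 123889) (.g (nat_lit 3941) (.e (nat_lit 7263) (nat_lit 384) (.e (nat_lit 57404) (nat_lit 12) (.e (nat_lit 336013) (nat_lit 2) (.e (nat_lit 90170) (nat_lit 13) (.e (nat_lit 172113) (nat_lit 10) (.e (nat_lit 434248) (nat_lit 28) (.e (nat_lit 573473) (nat_lit 12) (.e (nat_lit 57348) (nat_lit 0) .nil)))))))) (.g (nat_lit 8) .nil .nil))))) (.nd (nat_lit 4) (.nd (nat_lit 5) 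
(.lf (nat_lit 123849) (.g (nat_lit 3460) (.e (nat_lit 7261) (nat_lit 384) (.e (nat_lit 57437) (nat_lit 17) (.e (nat_lit 376842) (nat_lit 11) (.e (nat_lit 426343) (nat_lit 14) (.e (nat_lit 491558) (nat_lit 10) (.e (nat_lit 344096) (nat_lit 18) .nil)))))) (.g (nat_lit 6) .nil .nil))) 
(.lf (nat_lit 123881) (.g (nat_lit 1786) (.e (nat_lit 7263) (nat_lit 384) (.e (nat_lit 57400) (nat_lit 10) (.e (nat_lit 319490) (nat_lit 0) (.e (nat_lit 5629) (nat_lit 312) (.e (nat_lit 216) (nat_lit 19) .nil))))) .nil))) (.nd (nat_lit 5) 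
(.lf (nat_lit 123865) (.g (nat_lit 2026) (.e (nat_lit 7261) (nat_lit 384) (.e (nat_lit 57437) (nat_lit 17) (.e (nat_lit 376859) (nat_lit 21) (.e (nat_lit 57680) (nat_lit 155) (.e (nat_lit 122919) (nat_lit 15) (.e (nat_lit 360450) (nat_lit 0) .nil)))))) (.g (nat_lit 4) .nil .nil))) 
(.lf (nat_lit 123897) (.g (nat_lit 3546) (.e (nat_lit 7263) (nat_lit 384) (.e (nat_lit 57404) (nat_lit 12) (.e (nat_lit 336028) (nat_lit 3) (.e (nat_lit 98359) (nat_lit 26) (.e (nat_lit 426286) (nat_lit 10) (.e (nat_lit 434248) (nat_lit 28) (.e (nat_lit 573473) (nat_lit 12) (.e (nat_lit 57348) (nat_lit 0) .nil)))))))) (.g (nat_lit 8) .nil .nil)))))) 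
(.nd (nat_lit 3) (.nd (nat_lit 4) (.nd (nat_lit 5) 
(.lf (nat_lit 123845) (.g (nat_lit 2909) (.e (nat_lit 7261) (nat_lit 384) (.e (nat_lit 57437) (nat_lit 17) (.e (nat_lit 376842) (nat_lit 11) (.e (nat_lit 426342) (nat_lit 14) (.e (nat_lit 491560) (nat_lit 10) (.e (nat_lit 344096) (nat_lit 18) .nil)))))) (.g (nat_lit 5) .nil .nil))) 
(.lf (nat_lit 123877) (.g (nat_lit 577) (.e (nat_lit 7262) (nat_lit 384) (.e (nat_lit 57377) (nat_lit 3) (.e (nat_lit 98317) (nat_lit 9) .nil))) .nil))) (.nd (nat_lit 5) 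
(.lf (nat_lit 123861) (.g (nat_lit 2304) (.e (nat_lit 7261) (nat_lit 384) (.e (nat_lit 57437) (nat_lit 17) (.e (nat_lit 376857) (nat_lit 21) (.e (nat_lit 57681) (nat_lit 155) (.e (nat_lit 122919) (nat_lit 15) .nil))))) .nil)) 
(.lf (nat_lit 123893) (.g (nat_lit 3366) (.e (nat_lit 7263) (nat_lit 384) (.e (nat_lit 57404) (nat_lit 12) (.e (nat_lit 336028) (nat_lit 3) (.e (nat_lit 98359) (nat_lit 26) (.e (nat_lit 426286) (nat_lit 10) (.e (nat_lit 434245) (nat_lit 28) (.e (nat_lit 573473) (nat_lit 12) (.e (nat_lit 57352) (nat_lit 0) .nil)))))))) (.g (nat_lit 0) .nil .nil))))) (.nd (nat_lit 4) (.nd (nat_lit 5) 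
(.lf (nat_lit 123853) (.g (nat_lit 3102) (.e (nat_lit 7261) (nat_lit 384) (.e (nat_lit 57437) (nat_lit 17) (.e (nat_lit 376842) (nat_lit 11) (.e (nat_lit 426344) (nat_lit 14) (.e (nat_lit 491558) (nat_lit 10) (.e (nat_lit 344090) (nat_lit 18) .nil)))))) (.g (nat_lit 6) .nil .nil))) 
(.lf (nat_lit 123885) (.g (nat_lit 3735) (.e (nat_lit 7263) (nat_lit 384) (.e (nat_lit 57404) (nat_lit 12) (.e (nat_lit 336013) (nat_lit 2) (.e (nat_lit 90170) (nat_lit 13) (.e (nat_lit 172113) (nat_lit 10) (.e (nat_lit 434245) (nat_lit 28) (.e (nat_lit 573473) (nat_lit 12) (.e (nat_lit 57352) (nat_lit 0) .nil)))))))) (.g (nat_lit 0) .nil .nil)))) (.nd (nat_lit 5) 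
(.lf (nat_lit 123869) (.g (nat_lit 3354) (.e (nat_lit 7261) (nat_lit 384) (.e (nat_lit 57437) (nat_lit 17) (.e (nat_lit 376859) (nat_lit 21) (.e (nat_lit 57683) (nat_lit 155) (.e (nat_lit 122919) (nat_lit 15) (.e (nat_lit 360450) (nat_lit 0) .nil)))))) (.g (nat_lit 6) .nil .nil))) 
(.lf (nat_lit 123901) (.g (nat_lit 2845) (.e (nat_lit 7263) (nat_lit 384) (.e (nat_lit 57404) (nat_lit 12) (.e (nat_lit 336028) (nat_lit 3) (.e (nat_lit 98372) (nat_lit 29) (.e (nat_lit 450586) (nat_lit 10) (.e (nat_lit 573473) (nat_lit 12) (.e (nat_lit 57352) (nat_lit 0) .nil))))))) (.g (nat_lit 0) .nil .nil))))))) (.nd (nat_lit 2) (.nd (nat_lit 3) (.nd (nat_lit 4) (.nd (nat_lit 5) 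
(.lf (nat_lit 123843) (.g (nat_lit 3260) (.e (nat_lit 7261) (nat_lit 384) (.e (nat_lit 57437) (nat_lit 17) (.e (nat_lit 376842) (nat_lit 11) (.e (nat_lit 426342) (nat_lit 14) (.e (nat_lit 491560) (nat_lit 10) (.e (nat_lit 344090) (nat_lit 18) .nil)))))) (.g (nat_lit 6) .nil .nil))) 
(.lf (nat_lit 123875) (.g (nat_lit 4484) (.e (nat_lit 7261) (nat_lit 384) (.e (nat_lit 57445) (nat_lit 19) (.e (nat_lit 393229) (nat_lit 9) (.e (nat_lit 336188) (nat_lit 11) .nil)))) .nil))) (.nd (nat_lit 5) 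
(.lf (nat_lit 123859) (.g (nat_lit 3125) (.e (nat_lit 7261) (nat_lit 384) (.e (nat_lit 57437) (nat_lit 17) (.e (nat_lit 376842) (nat_lit 11) (.e (nat_lit 426344) (nat_lit 14) (.e (nat_lit 491560) (nat_lit 10) (.e (nat_lit 344094) (nat_lit 18) .nil)))))) (.g (nat_lit 5) .nil .nil))) 
(.lf (nat_lit 123891) (.g (nat_lit 4271) (.e (nat_lit 7263) (nat_lit 384) (.e (nat_lit 57404) (nat_lit 12) (.e (nat_lit 336013) (nat_lit 2) (.e (nat_lit 90170) (nat_lit 13) (.e (nat_lit 172113) (nat_lit 10) (.e (nat_lit 434248) (nat_lit 28) (.e (nat_lit 573475) (nat_lit 12) (.e (nat_lit 57351) (nat_lit 0) .nil)))))))) (.g (nat_lit 0) .nil .nil))))) (.nd (nat_lit 4) (.nd (nat_lit 5) 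
(.lf (nat_lit 123851) (.g (nat_lit 2919) (.e (nat_lit 7261) (nat_lit 384) (.e (nat_lit 57437) (nat_lit 17) (.e (nat_lit 376842) (nat_lit 11) (.e (nat_lit 426343) (nat_lit 14) (.e (nat_lit 491560) (nat_lit 10) (.e (nat_lit 344094) (nat_lit 18) .nil)))))) (.g (nat_lit 5) .nil .nil))) 
(.lf (nat_lit 123883) (.g (nat_lit 3504) (.e (nat_lit 7263) (nat_lit 384) (.e (nat_lit 57404) (nat_lit 12) (.e (nat_lit 336013) (nat_lit 2) (.e (nat_lit 90170) (nat_lit 13) (.e (nat_lit 172106) (nat_lit 10) (.e (nat_lit 434244) (nat_lit 28) (.e (nat_lit 573474) (nat_lit 12) (.e (nat_lit 57344) (nat_lit 0) .nil)))))))) (.g (nat_lit 7) .nil .nil)))) (.nd (nat_lit 5) 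
(.lf (nat_lit 123867) (.g (nat_lit 1390) (.e (nat_lit 7261) (nat_lit 384) (.e (nat_lit 57437) (nat_lit 17) (.e (nat_lit 376859) (nat_lit 21) (.e (nat_lit 57682) (nat_lit 155) .nil)))) .nil)) 
(.lf (nat_lit 123899) (.g (nat_lit 3835) (.e (nat_lit 7263) (nat_lit 384) (.e (nat_lit 57404) (nat_lit 12) (.e (nat_lit 336028) (nat_lit 3) (.e (nat_lit 98359) (nat_lit 26) (.e (nat_lit 426286) (nat_lit 10) (.e (nat_lit 434248) (nat_lit 28) (.e (nat_lit 573475) (nat_lit 12) (.e (nat_lit 57351) (nat_lit 0) .nil)))))))) (.g (nat_lit 0) .nil .nil)))))) 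
(.nd (nat_lit 3) (.nd (nat_lit 4) (.nd (nat_lit 5) 
(.lf (nat_lit 123847) (.g (nat_lit 3421) (.e (nat_lit 7261) (nat_lit 384) (.e (nat_lit 57437) (nat_lit 17) (.e (nat_lit 376842) (nat_lit 11) (.e (nat_lit 426343) (nat_lit 14) (.e (nat_lit 491558) (nat_lit 10) (.e (nat_lit 344091) (nat_lit 18) .nil)))))) (.g (nat_lit 6) .nil .nil))) 
(.lf (nat_lit 123879) (.g (nat_lit 2653) (.e (nat_lit 7263) (nat_lit 384) (.e (nat_lit 57354) (nat_lit 0) (.e (nat_lit 7936) (nat_lit 347) (.e (nat_lit 65653) (nat_lit 27) (.e (nat_lit 426011) (nat_lit 0) (.e (nat_lit 7591) (nat_lit 407) (.e (nat_lit 73730) (nat_lit 0) .nil))))))) (.g (nat_lit 6) .nil .nil)))) (.nd (nat_lit 5) 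
(.lf (nat_lit 123863) (.g (nat_lit 482) (.e (nat_lit 7261) (nat_lit 384) (.e (nat_lit 57437) (nat_lit 17) (.e (nat_lit 376859) (nat_lit 21) .nil))) .nil)) 
(.lf (nat_lit 123895) (.g (nat_lit 3343) (.e (nat_lit 7263) (nat_lit 384) (.e (nat_lit 57404) (nat_lit 12) (.e (nat_lit 336028) (nat_lit 3) (.e (nat_lit 98359) (nat_lit 26) (.e (nat_lit 426286) (nat_lit 10) (.e (nat_lit 434247) (nat_lit 28) (.e (nat_lit 573477) (nat_lit 12) (.e (nat_lit 57352) (nat_lit 0) .nil)))))))) (.g (nat_lit 0) .nil .nil))))) (.nd (nat_lit 4) (.nd (nat_lit 5) 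
(.lf (nat_lit 123855) (.g (nat_lit 3218) (.e (nat_lit 7261) (nat_lit 384) (.e (nat_lit 57437) (nat_lit 17) (.e (nat_lit 376842) (nat_lit 11) (.e (nat_lit 426344) (nat_lit 14) (.e (nat_lit 491558) (nat_lit 10) (.e (nat_lit 344095) (nat_lit 18) .nil)))))) (.g (nat_lit 6) .nil .nil))) 
(.lf (nat_lit 123887) (.g (nat_lit 3972) (.e (nat_lit 7263) (nat_lit 384) (.e (nat_lit 57404) (nat_lit 12) (.e (nat_lit 336013) (nat_lit 2) (.e (nat_lit 90170) (nat_lit 13) (.e (nat_lit 172113) (nat_lit 10) (.e (nat_lit 434247) (nat_lit 28) (.e (nat_lit 573477) (nat_lit 12) (.e (nat_lit 57352) (nat_lit 0) .nil)))))))) (.g (nat_lit 0) .nil .nil)))) (.nd (nat_lit 5) 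
(.lf (nat_lit 123871) (.g (nat_lit 1974) (.e (nat_lit 7261) (nat_lit 384) (.e (nat_lit 57437) (nat_lit 17) (.e (nat_lit 376859) (nat_lit 21) (.e (nat_lit 57684) (nat_lit 155) (.e (nat_lit 122919) (nat_lit 15) (.e (nat_lit 360449) (nat_lit 0) .nil)))))) (.g (nat_lit 4) .nil .nil))) 
(.lf (nat_lit 123903) (.g (nat_lit 2563) (.e (nat_lit 7263) (nat_lit 384) (.e (nat_lit 57404) (nat_lit 12) (.e (nat_lit 336028) (nat_lit 3) (.e (nat_lit 98372) (nat_lit 29) (.e (nat_lit 450586) (nat_lit 10) (.e (nat_lit 573477) (nat_lit 12) (.e (nat_lit 57352) (nat_lit 0) .nil))))))) (.g (nat_lit 0) .nil .nil)))))))))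

noncomputable def tv1657 : DT := (.nd (nat_lit 0) (.nd (nat_lit 1) (.nd (nat_lit 2) (.nd (nat_lit 3) (.nd (nat_lit 4) (.nd (nat_lit 5) 
(.lf (nat_lit 123904) (.g (nat_lit 2419) (.e (nat_lit 7263) (nat_lit 384) (.e (nat_lit 57404) (nat_lit 12) (.e (nat_lit 336028) (nat_lit 3) (.e (nat_lit 98372) (nat_lit 29) (.e (nat_lit 450586) (nat_lit 10) (.e (nat_lit 573478) (nat_lit 12) (.e (nat_lit 57351) (nat_lit 0) .nil))))))) (.g (nat_lit 0) .nil .nil))) 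
(.lf (nat_lit 123936) (.g (nat_lit 3362) (.e (nat_lit 7263) (nat_lit 384) (.e (nat_lit 57412) (nat_lit 12) (.e (nat_lit 336020) (nat_lit 3) (.e (nat_lit 98359) (nat_lit 26) (.e (nat_lit 426286) (nat_lit 10) (.e (nat_lit 434247) (nat_lit 28) (.e (nat_lit 573477) (nat_lit 12) (.e (nat_lit 57352) (nat_lit 0) .nil)))))))) (.g (nat_lit 0) .nil .nil)))) (.nd (nat_lit 5) 
(.lf (nat_lit 123920) (.g (nat_lit 2350) (.e (nat_lit 7263) (nat_lit 384) (.e (nat_lit 57409) (nat_lit 12) (.e (nat_lit 336211) (nat_lit 13) (.e (nat_lit 393232) (nat_lit 17) (.e (nat_lit 7593) (nat_lit 407) (.e (nat_lit 73730) (nat_lit 0) .nil)))))) (.g (nat_lit 5) .nil .nil))) 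
(.lf (nat_lit 123952) (.g (nat_lit 3695) (.e (nat_lit 7263) (nat_lit 384) (.e (nat_lit 57412) (nat_lit 12) (.e (nat_lit 336020) (nat_lit 3) (.e (nat_lit 98373) (nat_lit 29) (.e (nat_lit 450588) (nat_lit 10) (.e (nat_lit 573475) (nat_lit 12) (.e (nat_lit 57351) (nat_lit 0) .nil))))))) (.g (nat_lit 0) .nil .nil))))) (.nd (nat_lit 4) (.nd (nat_lit 5) 
(.lf (nat_lit 123912) (.g (nat_lit 1764) (.e (nat_lit 7263) (nat_lit 384) (.e (nat_lit 57404) (nat_lit 12) (.e (nat_lit 336224) (nat_lit 13) (.e (nat_lit 393234) (nat_lit 17) (.e (nat_lit 7593) (nat_lit 407) (.e (nat_lit 73730) (nat_lit 0) .nil)))))) (.g (nat_lit 5) .nil .nil))) 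
(.lf (nat_lit 123944) (.g (nat_lit 2976) (.e (nat_lit 7263) (nat_lit 384) (.e (nat_lit 57412) (nat_lit 12) (.e (nat_lit 336020) (nat_lit 3) (.e (nat_lit 98372) (nat_lit 29) (.e (nat_lit 450586) (nat_lit 10) (.e (nat_lit 573475) (nat_lit 12) (.e (nat_lit 57351) (nat_lit 0) .nil))))))) (.g (nat_lit 0) .nil .nil)))) (.nd (nat_lit 5) 
(.lf (nat_lit 123928) (.g (nat_lit 2350) (.e (nat_lit 7263) (nat_lit 384) (.e (nat_lit 57409) (nat_lit 12) (.e (nat_lit 336211) (nat_lit 13) (.e (nat_lit 393300) (nat_lit 27) (.e (nat_lit 491560) (nat_lit 10) (.e (nat_lit 344091) (nat_lit 18) .nil)))))) (.g (nat_lit 5) .nil .nil))) 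
(.lf (nat_lit 123960) (.g (nat_lit 3313) (.e (nat_lit 7263) (nat_lit 384) (.e (nat_lit 57412) (nat_lit 12) (.e (nat_lit 336058) (nat_lit 7) (.e (nat_lit 319534) (nat_lit 16) (.e (nat_lit 286756) (nat_lit 10) (.e (nat_lit 344160) (nat_lit 37) (.e (nat_lit 647201) (nat_lit 12) (.e (nat_lit 57351) (nat_lit 0) .nil)))))))) (.g (nat_lit 6) .nil .nil)))))) 
(.nd (nat_lit 3) (.nd (nat_lit 4) (.nd (nat_lit 5) 
(.lf (nat_lit 123908) (.g (nat_lit 3704) (.e (nat_lit 7263) (nat_lit 384) (.e (nat_lit 57404) (nat_lit 12) (.e (nat_lit 336028) (nat_lit 3) (.e (nat_lit 98373) (nat_lit 29) (.e (nat_lit 450588) (nat_lit 10) (.e (nat_lit 573473) (nat_lit 12) (.e (nat_lit 57352) (nat_lit 0) .nil))))))) (.g (nat_lit 0) .nil .nil))) 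
(.lf (nat_lit 123940) (.g (nat_lit 3596) (.e (nat_lit 7263) (nat_lit 384) (.e (nat_lit 57412) (nat_lit 12) (.e (nat_lit 336020) (nat_lit 3) (.e (nat_lit 98359) (nat_lit 26) (.e (nat_lit 426286) (nat_lit 10) (.e (nat_lit 434248) (nat_lit 28) (.e (nat_lit 573475) (nat_lit 12) (.e (nat_lit 57348) (nat_lit 0) .nil)))))))) (.g (nat_lit 7) .nil .nil)))) (.nd (nat_lit 5) 
(.lf (nat_lit 123924) (.g (nat_lit 2956) (.e (nat_lit 7263) (nat_lit 384) (.e (nat_lit 57409) (nat_lit 12) (.e (nat_lit 336211) (nat_lit 13) (.e (nat_lit 393234) (nat_lit 17) (.e (nat_lit 7593) (nat_lit 407) (.e (nat_lit 73729) (nat_lit 0) .nil)))))) (.g (nat_lit 6) .nil .nil))) 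
(.lf (nat_lit 123956) (.g (nat_lit 4426) (.e (nat_lit 7263) (nat_lit 384) (.e (nat_lit 57412) (nat_lit 12) (.e (nat_lit 336024) (nat_lit 3) (.e (nat_lit 98373) (nat_lit 29) (.e (nat_lit 450588) (nat_lit 10) (.e (nat_lit 573473) (nat_lit 12) (.e (nat_lit 57352) (nat_lit 0) .nil))))))) (.g (nat_lit 7) .nil .nil))))) (.nd (nat_lit 4) (.nd (nat_lit 5) 
(.lf (nat_lit 123916) (.g (nat_lit 632) (.e (nat_lit 7263) (nat_lit 384) (.e (nat_lit 57409) (nat_lit 12) (.e (nat_lit 336182) (nat_lit 11) .nil))) .nil)) 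
(.lf (nat_lit 123948) (.g (nat_lit 2954) (.e (nat_lit 7263) (nat_lit 384) (.e (nat_lit 57412) (nat_lit 12) (.e (nat_lit 336020) (nat_lit 3) (.e (nat_lit 98373) (nat_lit 29) (.e (nat_lit 450587) (nat_lit 10) (.e (nat_lit 573478) (nat_lit 12) (.e (nat_lit 57351) (nat_lit 0) .nil))))))) (.g (nat_lit 0) .nil .nil)))) (.nd (nat_lit 5) 
(.lf (nat_lit 123932) (.g (nat_lit 3396) (.e (nat_lit 7263) (nat_lit 384) (.e (nat_lit 57409) (nat_lit 12) (.e (nat_lit 336211) (nat_lit 13) (.e (nat_lit 393301) (nat_lit 27) (.e (nat_lit 491560) (nat_lit 10) (.e (nat_lit 344094) (nat_lit 18) .nil)))))) (.g (nat_lit 6) .nil .nil))) 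
(.lf (nat_lit 123964) (.g (nat_lit 4116) (.e (nat_lit 7263) (nat_lit 384) (.e (nat_lit 57412) (nat_lit 12) (.e (nat_lit 336061) (nat_lit 7) (.e (nat_lit 319505) (nat_lit 10) (.e (nat_lit 720) (nat_lit 64) (.e (nat_lit 688177) (nat_lit 16) (.e (nat_lit 65617) (nat_lit 10) (.e (nat_lit 344091) (nat_lit 18) .nil)))))))) (.g (nat_lit 7) .nil .nil))))))) 
(.nd (nat_lit 2) (.nd (nat_lit 3) (.nd (nat_lit 4) (.nd (nat_lit 5) 
(.lf (nat_lit 123906) (.g (nat_lit 2967) (.e (nat_lit 7263) (nat_lit 384) (.e (nat_lit 57404) (nat_lit 12) (.e (nat_lit 336028) (nat_lit 3) (.e (nat_lit 98373) (nat_lit 29) (.e (nat_lit 450587) (nat_lit 10) (.e (nat_lit 573478) (nat_lit 12) (.e (nat_lit 57351) (nat_lit 0) .nil))))))) (.g (nat_lit 0) .nil .nil))) 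
(.lf (nat_lit 123938) (.g (nat_lit 3543) (.e (nat_lit 7263) (nat_lit 384) (.e (nat_lit 57412) (nat_lit 12) (.e (nat_lit 336020) (nat_lit 3) (.e (nat_lit 98359) (nat_lit 26) (.e (nat_lit 426286) (nat_lit 10) (.e (nat_lit 434248) (nat_lit 28) (.e (nat_lit 573473) (nat_lit 12) (.e (nat_lit 57348) (nat_lit 0) .nil)))))))) (.g (nat_lit 8) .nil .nil)))) (.nd (nat_lit 5) 
(.lf (nat_lit 123922) (.g (nat_lit 2801) (.e (nat_lit 7263) (nat_lit 384) (.e (nat_lit 57409) (nat_lit 12) (.e (nat_lit 336211) (nat_lit 13) (.e (nat_lit 393234) (nat_lit 17) (.e (nat_lit 7591) (nat_lit 407) (.e (nat_lit 73729) (nat_lit 0) .nil)))))) (.g (nat_lit 5) .nil .nil))) 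
(.lf (nat_lit 123954) (.g (nat_lit 2580) (.e (nat_lit 7263) (nat_lit 384) (.e (nat_lit 57412) (nat_lit 12) (.e (nat_lit 336024) (nat_lit 3) (.e (nat_lit 98373) (nat_lit 29) (.e (nat_lit 450587) (nat_lit 10) (.e (nat_lit 573478) (nat_lit 12) (.e (nat_lit 57351) (nat_lit 0) .nil))))))) (.g (nat_lit 5) .nil .nil))))) (.nd (nat_lit 4) (.nd (nat_lit 5) 
(.lf (nat_lit 123914) (.g (nat_lit 2405) (.e (nat_lit 7263) (nat_lit 384) (.e (nat_lit 57404) (nat_lit 12) (.e (nat_lit 336224) (nat_lit 13) (.e (nat_lit 393301) (nat_lit 27) (.e (nat_lit 491558) (nat_lit 10) (.e (nat_lit 344095) (nat_lit 18) .nil)))))) (.g (nat_lit 0) .nil .nil))) 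
(.lf (nat_lit 123946) (.g (nat_lit 2391) (.e (nat_lit 7263) (nat_lit 384) (.e (nat_lit 57412) (nat_lit 12) (.e (nat_lit 336020) (nat_lit 3) (.e (nat_lit 98372) (nat_lit 29) (.e (nat_lit 450586) (nat_lit 10) (.e (nat_lit 573478) (nat_lit 12) (.e (nat_lit 57351) (nat_lit 0) .nil))))))) (.g (nat_lit 0) .nil .nil)))) (.nd (nat_lit 5) 
(.lf (nat_lit 123930) (.g (nat_lit 3230) (.e (nat_lit 7263) (nat_lit 384) (.e (nat_lit 57409) (nat_lit 12) (.e (nat_lit 336211) (nat_lit 13) (.e (nat_lit 393301) (nat_lit 27) (.e (nat_lit 491558) (nat_lit 10) (.e (nat_lit 344095) (nat_lit 18) .nil)))))) (.g (nat_lit 5) .nil .nil))) 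
(.lf (nat_lit 123962) (.g (nat_lit 3247) (.e (nat_lit 7263) (nat_lit 384) (.e (nat_lit 57412) (nat_lit 12) (.e (nat_lit 336060) (nat_lit 7) (.e (nat_lit 319534) (nat_lit 16) (.e (nat_lit 286756) (nat_lit 10) (.e (nat_lit 344160) (nat_lit 37) (.e (nat_lit 647201) (nat_lit 12) (.e (nat_lit 57351) (nat_lit 0) .nil)))))))) (.g (nat_lit 8) .nil .nil)))))) 
(.nd (nat_lit 3) (.nd (nat_lit 4) (.nd (nat_lit 5) 
(.lf (nat_lit 123910) (.g (nat_lit 1809) (.e (nat_lit 7263) (nat_lit 384) (.e (nat_lit 57404) (nat_lit 12) (.e (nat_lit 336224) (nat_lit 13) (.e (nat_lit 393234) (nat_lit 17) (.e (nat_lit 7591) (nat_lit 407) (.e (nat_lit 73730) (nat_lit 0) .nil)))))) (.g (nat_lit 0) .nil .nil))) 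
(.lf (nat_lit 123942) (.g (nat_lit 2889) (.e (nat_lit 7263) (nat_lit 384) (.e (nat_lit 57412) (nat_lit 12) (.e (nat_lit 336020) (nat_lit 3) (.e (nat_lit 98372) (nat_lit 29) (.e (nat_lit 450586) (nat_lit 10) (.e (nat_lit 573473) (nat_lit 12) (.e (nat_lit 57348) (nat_lit 0) .nil))))))) (.g (nat_lit 7) .nil .nil)))) (.nd (nat_lit 5) 
(.lf (nat_lit 123926) (.g (nat_lit 2382) (.e (nat_lit 7263) (nat_lit 384) (.e (nat_lit 57409) (nat_lit 12) (.e (nat_lit 336211) (nat_lit 13) (.e (nat_lit 393299) (nat_lit 27) (.e (nat_lit 491560) (nat_lit 10) (.e (nat_lit 344090) (nat_lit 18) .nil)))))) (.g (nat_lit 5) .nil .nil))) 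
(.lf (nat_lit 123958) (.g (nat_lit 2652) (.e (nat_lit 7263) (nat_lit 384) (.e (nat_lit 57412) (nat_lit 12) (.e (nat_lit 336054) (nat_lit 7) (.e (nat_lit 319534) (nat_lit 16) (.e (nat_lit 286756) (nat_lit 10) (.e (nat_lit 344160) (nat_lit 37) (.e (nat_lit 647201) (nat_lit 12) (.e (nat_lit 57351) (nat_lit 0) .nil)))))))) (.g (nat_lit 5) .nil .nil))))) (.nd (nat_lit 4) (.nd (nat_lit 5) 
(.lf (nat_lit 123918) (.g (nat_lit 1308) (.e (nat_lit 7263) (nat_lit 384) (.e (nat_lit 57409) (nat_lit 12) (.e (nat_lit 336211) (nat_lit 13) (.e (nat_lit 393231) (nat_lit 17) (.e (nat_lit 7591) (nat_lit 407) (.e (nat_lit 73730) (nat_lit 0) .nil)))))) (.g (nat_lit 4) .nil .nil))) 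
(.lf (nat_lit 123950) (.g (nat_lit 3664) (.e (nat_lit 7263) (nat_lit 384) (.e (nat_lit 57412) (nat_lit 12) (.e (nat_lit 336020) (nat_lit 3) (.e (nat_lit 98373) (nat_lit 29) (.e (nat_lit 450588) (nat_lit 10) (.e (nat_lit 573473) (nat_lit 12) (.e (nat_lit 57352) (nat_lit 0) .nil))))))) (.g (nat_lit 0) .nil .nil)))) (.nd (nat_lit 5) 
(.lf (nat_lit 123934) (.g (nat_lit 3388) (.e (nat_lit 7263) (nat_lit 384) (.e (nat_lit 57412) (nat_lit 12) (.e (nat_lit 336020) (nat_lit 3) (.e (nat_lit 98359) (nat_lit 26) (.e (nat_lit 426286) (nat_lit 10) (.e (nat_lit 434245) (nat_lit 28) (.e (nat_lit 573473) (nat_lit 12) (.e (nat_lit 57352) (nat_lit 0) .nil)))))))) (.g (nat_lit 0) .nil .nil))) 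
(.lf (nat_lit 123966) (.g (nat_lit 2232) (.e (nat_lit 7263) (nat_lit 384) (.e (nat_lit 57412) (nat_lit 12) (.e (nat_lit 336061) (nat_lit 7) (.e (nat_lit 319531) (nat_lit 16) (.e (nat_lit 286752) (nat_lit 10) .nil))))) .nil))))))) (.nd (nat_lit 1) (.nd (nat_lit 2) (.nd (nat_lit 3) (.nd (nat_lit 4) (.nd (nat_lit 5) 
(.lf (nat_lit 123905) (.g (nat_lit 3103) (.e (nat_lit 7263) (nat_lit 384) (.e (nat_lit 57404) (nat_lit 12) (.e (nat_lit 336028) (nat_lit 3) (.e (nat_lit 98373) (nat_lit 29) (.e (nat_lit 450587) (nat_lit 10) (.e (nat_lit 573477) (nat_lit 12) (.e (nat_lit 57352) (nat_lit 0) .nil))))))) (.g (nat_lit 0) .nil .nil))) 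
(.lf (nat_lit 123937) (.g (nat_lit 3053) (.e (nat_lit 7263) (nat_lit 384) (.e (nat_lit 57412) (nat_lit 12) (.e (nat_lit 336020) (nat_lit 3) (.e (nat_lit 98359) (nat_lit 26) (.e (nat_lit 426286) (nat_lit 10) (.e (nat_lit 434247) (nat_lit 28) (.e (nat_lit 573478) (nat_lit 12) (.e (nat_lit 57351) (nat_lit 0) .nil)))))))) (.g (nat_lit 0) .nil .nil)))) (.nd (nat_lit 5) 
(.lf (nat_lit 123921) (.g (nat_lit 2333) (.e (nat_lit 7263) (nat_lit 384) (.e (nat_lit 57409) (nat_lit 12) (.e (nat_lit 336211) (nat_lit 13) (.e (nat_lit 393233) (nat_lit 17) (.e (nat_lit 7593) (nat_lit 407) (.e (nat_lit 73730) (nat_lit 0) .nil)))))) (.g (nat_lit 5) .nil .nil))) 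
(.lf (nat_lit 123953) (.g (nat_lit 3095) (.e (nat_lit 7263) (nat_lit 384) (.e (nat_lit 57412) (nat_lit 12) (.e (nat_lit 336024) (nat_lit 3) (.e (nat_lit 98373) (nat_lit 29) (.e (nat_lit 450587) (nat_lit 10) (.e (nat_lit 573477) (nat_lit 12) (.e (nat_lit 57352) (nat_lit 0) .nil))))))) (.g (nat_lit 6) .nil .nil))))) (.nd (nat_lit 4) (.nd (nat_lit 5) 
(.lf (nat_lit 123913) (.g (nat_lit 2781) (.e (nat_lit 7263) (nat_lit 384) (.e (nat_lit 57404) (nat_lit 12) (.e (nat_lit 336224) (nat_lit 13) (.e (nat_lit 393301) (nat_lit 27) (.e (nat_lit 491558) (nat_lit 10) (.e (nat_lit 344091) (nat_lit 18) .nil)))))) (.g (nat_lit 6) .nil .nil))) 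
(.lf (nat_lit 123945) (.g (nat_lit 2538) (.e (nat_lit 7263) (nat_lit 384) (.e (nat_lit 57412) (nat_lit 12) (.e (nat_lit 336020) (nat_lit 3) (.e (nat_lit 98372) (nat_lit 29) (.e (nat_lit 450586) (nat_lit 10) (.e (nat_lit 573477) (nat_lit 12) (.e (nat_lit 57352) (nat_lit 0) .nil))))))) (.g (nat_lit 0) .nil .nil)))) (.nd (nat_lit 5) 
(.lf (nat_lit 123929) (.g (nat_lit 2402) (.e (nat_lit 7263) (nat_lit 384) (.e (nat_lit 57409) (nat_lit 12) (.e (nat_lit 336211) (nat_lit 13) (.e (nat_lit 393300) (nat_lit 27) (.e (nat_lit 491560) (nat_lit 10) (.e (nat_lit 344094) (nat_lit 18) .nil)))))) (.g (nat_lit 5) .nil .nil))) 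
(.lf (nat_lit 123961) (.g (nat_lit 3519) (.e (nat_lit 7263) (nat_lit 384) (.e (nat_lit 57412) (nat_lit 12) (.e (nat_lit 336060) (nat_lit 7) (.e (nat_lit 319533) (nat_lit 16) (.e (nat_lit 286753) (nat_lit 10) (.e (nat_lit 344160) (nat_lit 37) (.e (nat_lit 647201) (nat_lit 12) (.e (nat_lit 57351) (nat_lit 0) .nil)))))))) (.g (nat_lit 8) .nil .nil)))))) 
(.nd (nat_lit 3) (.nd (nat_lit 4) (.nd (nat_lit 5) 
(.lf (nat_lit 123909) (.g (nat_lit 3737) (.e (nat_lit 7263) (nat_lit 384) (.e (nat_lit 57404) (nat_lit 12) (.e (nat_lit 336028) (nat_lit 3) (.e (nat_lit 98373) (nat_lit 29) (.e (nat_lit 450588) (nat_lit 10) (.e (nat_lit 573475) (nat_lit 12) (.e (nat_lit 57351) (nat_lit 0) .nil))))))) (.g (nat_lit 0) .nil .nil))) 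
(.lf (nat_lit 123941) (.g (nat_lit 3850) (.e (nat_lit 7263) (nat_lit 384) (.e (nat_lit 57412) (nat_lit 12) (.e (nat_lit 336020) (nat_lit 3) (.e (nat_lit 98359) (nat_lit 26) (.e (nat_lit 426286) (nat_lit 10) (.e (nat_lit 434248) (nat_lit 28) (.e (nat_lit 573475) (nat_lit 12) (.e (nat_lit 57351) (nat_lit 0) .nil)))))))) (.g (nat_lit 0) .nil .nil)))) (.nd (nat_lit 5) 
(.lf (nat_lit 123925) (.g (nat_lit 2621) (.e (nat_lit 7263) (nat_lit 384) (.e (nat_lit 57409) (nat_lit 12) (.e (nat_lit 336211) (nat_lit 13) (.e (nat_lit 393299) (nat_lit 27) (.e (nat_lit 491558) (nat_lit 10) (.e (nat_lit 344095) (nat_lit 18) .nil)))))) (.g (nat_lit 5) .nil .nil))) 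
(.lf (nat_lit 123957) (.g (nat_lit 4476) (.e (nat_lit 7263) (nat_lit 384) (.e (nat_lit 57412) (nat_lit 12) (.e (nat_lit 336024) (nat_lit 3) (.e (nat_lit 98373) (nat_lit 29) (.e (nat_lit 450588) (nat_lit 10) (.e (nat_lit 573475) (nat_lit 12) (.e (nat_lit 57351) (nat_lit 0) .nil))))))) (.g (nat_lit 7) .nil .nil))))) (.nd (nat_lit 4) (.nd (nat_lit 5) 
(.lf (nat_lit 123917) (.g (nat_lit 820) (.e (nat_lit 7263) (nat_lit 384) (.e (nat_lit 57409) (nat_lit 12) (.e (nat_lit 336182) (nat_lit 11) (.e (nat_lit 376576) (nat_lit 44) .nil)))) .nil)) 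
(.lf (nat_lit 123949) (.g (nat_lit 3718) (.e (nat_lit 7263) (nat_lit 384) (.e (nat_lit 57412) (nat_lit 12) (.e (nat_lit 336020) (nat_lit 3) (.e (nat_lit 98373) (nat_lit 29) (.e (nat_lit 450588) (nat_lit 10) (.e (nat_lit 573473) (nat_lit 12) (.e (nat_lit 57348) (nat_lit 0) .nil))))))) (.g (nat_lit 7) .nil .nil)))) (.nd (nat_lit 5) 
(.lf (nat_lit 123933) (.g (nat_lit 3411) (.e (nat_lit 7263) (nat_lit 384) (.e (nat_lit 57412) (nat_lit 12) (.e (nat_lit 336020) (nat_lit 3) (.e (nat_lit 98359) (nat_lit 26) (.e (nat_lit 426286) (nat_lit 10) (.e (nat_lit 434245) (nat_lit 28) (.e (nat_lit 573473) (nat_lit 12) (.e (nat_lit 57348) (nat_lit 0) .nil)))))))) (.g (nat_lit 8) .nil .nil))) 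
(.lf (nat_lit 123965) (.g (nat_lit 2127) (.e (nat_lit 7263) (nat_lit 384) (.e (nat_lit 57412) (nat_lit 12) (.e (nat_lit 336061) (nat_lit 7) (.e (nat_lit 319531) (nat_lit 16) (.e (nat_lit 286751) (nat_lit 10) (.e (nat_lit 344161) (nat_lit 37) (.e (nat_lit 647201) (nat_lit 12) (.e (nat_lit 57351) (nat_lit 0) .nil)))))))) (.g (nat_lit 4) .nil .nil))))))) 
(.nd (nat_lit 2) (.nd (nat_lit 3) (.nd (nat_lit 4) (.nd (nat_lit 5) 
(.lf (nat_lit 123907) (.g (nat_lit 3777) (.e (nat_lit 7263) (nat_lit 384) (.e (nat_lit 57404) (nat_lit 12) (.e (nat_lit 336028) (nat_lit 3) (.e (nat_lit 98373) (nat_lit 29) (.e (nat_lit 450588) (nat_lit 10) (.e (nat_lit 573473) (nat_lit 12) (.e (nat_lit 57348) (nat_lit 0) .nil))))))) (.g (nat_lit 7) .nil .nil))) 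
(.lf (nat_lit 123939) (.g (nat_lit 3489) (.e (nat_lit 7263) (nat_lit 384) (.e (nat_lit 57412) (nat_lit 12) (.e (nat_lit 336020) (nat_lit 3) (.e (nat_lit 98359) (nat_lit 26) (.e (nat_lit 426286) (nat_lit 10) (.e (nat_lit 434248) (nat_lit 28) (.e (nat_lit 573473) (nat_lit 12) (.e (nat_lit 57352) (nat_lit 0) .nil)))))))) (.g (nat_lit 0) .nil .nil)))) (.nd (nat_lit 5) 
(.lf (nat_lit 123923) (.g (nat_lit 2486) (.e (nat_lit 7263) (nat_lit 384) (.e (nat_lit 57409) (nat_lit 12) (.e (nat_lit 336211) (nat_lit 13) (.e (nat_lit 393234) (nat_lit 17) (.e (nat_lit 7591) (nat_lit 407) (.e (nat_lit 73730) (nat_lit 0) .nil)))))) (.g (nat_lit 5) .nil .nil))) 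
(.lf (nat_lit 123955) (.g (nat_lit 4470) (.e (nat_lit 7263) (nat_lit 384) (.e (nat_lit 57412) (nat_lit 12) (.e (nat_lit 336024) (nat_lit 3) (.e (nat_lit 98373) (nat_lit 29) (.e (nat_lit 450588) (nat_lit 10) (.e (nat_lit 573473) (nat_lit 12) (.e (nat_lit 57348) (nat_lit 0) .nil))))))) (.g (nat_lit 7) .nil .nil))))) (.nd (nat_lit 4) (.nd (nat_lit 5) 
(.lf (nat_lit 123915) (.g (nat_lit 2523) (.e (nat_lit 7263) (nat_lit 384) (.e (nat_lit 57404) (nat_lit 12) (.e (nat_lit 336224) (nat_lit 13) (.e (nat_lit 393301) (nat_lit 27) (.e (nat_lit 491560) (nat_lit 10) (.e (nat_lit 344094) (nat_lit 18) .nil)))))) (.g (nat_lit 0) .nil .nil))) 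
(.lf (nat_lit 123947) (.g (nat_lit 3095) (.e (nat_lit 7263) (nat_lit 384) (.e (nat_lit 57412) (nat_lit 12) (.e (nat_lit 336020) (nat_lit 3) (.e (nat_lit 98373) (nat_lit 29) (.e (nat_lit 450587) (nat_lit 10) (.e (nat_lit 573477) (nat_lit 12) (.e (nat_lit 57352) (nat_lit 0) .nil))))))) (.g (nat_lit 0) .nil .nil)))) (.nd (nat_lit 5) 
(.lf (nat_lit 123931) (.g (nat_lit 3517) (.e (nat_lit 7263) (nat_lit 384) (.e (nat_lit 57409) (nat_lit 12) (.e (nat_lit 336211) (nat_lit 13) (.e (nat_lit 393301) (nat_lit 27) (.e (nat_lit 491560) (nat_lit 10) (.e (nat_lit 344090) (nat_lit 18) .nil)))))) (.g (nat_lit 5) .nil .nil))) 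
(.lf (nat_lit 123963) (.g (nat_lit 1416) (.e (nat_lit 7263) (nat_lit 384) (.e (nat_lit 57412) (nat_lit 12) (.e (nat_lit 336061) (nat_lit 7) (.e (nat_lit 319500) (nat_lit 10) (.e (nat_lit 720) (nat_lit 64) .nil))))) .nil))))) (.nd (nat_lit 3) (.nd (nat_lit 4) (.nd (nat_lit 5) 
(.lf (nat_lit 123911) (.g (nat_lit 2312) (.e (nat_lit 7263) (nat_lit 384) (.e (nat_lit 57404) (nat_lit 12) (.e (nat_lit 336224) (nat_lit 13) (.e (nat_lit 393234) (nat_lit 17) (.e (nat_lit 7593) (nat_lit 407) (.e (nat_lit 73729) (nat_lit 0) .nil)))))) (.g (nat_lit 0) .nil .nil))) 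
(.lf (nat_lit 123943) (.g (nat_lit 2822) (.e (nat_lit 7263) (nat_lit 384) (.e (nat_lit 57412) (nat_lit 12) (.e (nat_lit 336020) (nat_lit 3) (.e (nat_lit 98372) (nat_lit 29) (.e (nat_lit 450586) (nat_lit 10) (.e (nat_lit 573473) (nat_lit 12) (.e (nat_lit 57352) (nat_lit 0) .nil))))))) (.g (nat_lit 0) .nil .nil)))) (.nd (nat_lit 5) 
(.lf (nat_lit 123927) (.g (nat_lit 2423) (.e (nat_lit 7263) (nat_lit 384) (.e (nat_lit 57409) (nat_lit 12) (.e (nat_lit 336211) (nat_lit 13) (.e (nat_lit 393300) (nat_lit 27) (.e (nat_lit 491558) (nat_lit 10) (.e (nat_lit 344095) (nat_lit 18) .nil)))))) (.g (nat_lit 5) .nil .nil))) 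
(.lf (nat_lit 123959) (.g (nat_lit 3393) (.e (nat_lit 7263) (nat_lit 384) (.e (nat_lit 57412) (nat_lit 12) (.e (nat_lit 336058) (nat_lit 7) (.e (nat_lit 319533) (nat_lit 16) (.e (nat_lit 286753) (nat_lit 10) (.e (nat_lit 344160) (nat_lit 37) (.e (nat_lit 647201) (nat_lit 12) (.e (nat_lit 57351) (nat_lit 0) .nil)))))))) (.g (nat_lit 7) .nil .nil))))) (.nd (nat_lit 4) (.nd (nat_lit 5) 
(.lf (nat_lit 123919) (.g (nat_lit 2375) (.e (nat_lit 7263) (nat_lit 384) (.e (nat_lit 57409) (nat_lit 12) (.e (nat_lit 336211) (nat_lit 13) (.e (nat_lit 393232) (nat_lit 17) (.e (nat_lit 7591) (nat_lit 407) (.e (nat_lit 73730) (nat_lit 0) .nil)))))) (.g (nat_lit 6) .nil .nil))) 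
(.lf (nat_lit 123951) (.g (nat_lit 3500) (.e (nat_lit 7263) (nat_lit 384) (.e (nat_lit 57412) (nat_lit 12) (.e (nat_lit 336020) (nat_lit 3) (.e (nat_lit 98373) (nat_lit 29) (.e (nat_lit 450588) (nat_lit 10) (.e (nat_lit 573475) (nat_lit 12) (.e (nat_lit 57348) (nat_lit 0) .nil))))))) (.g (nat_lit 6) .nil .nil)))) (.nd (nat_lit 5) 
(.lf (nat_lit 123935) (.g (nat_lit 3876) (.e (nat_lit 7263) (nat_lit 384) (.e (nat_lit 57412) (nat_lit 12) (.e (nat_lit 336020) (nat_lit 3) (.e (nat_lit 98359) (nat_lit 26) (.e (nat_lit 426286) (nat_lit 10) (.e (nat_lit 434245) (nat_lit 28) (.e (nat_lit 573474) (nat_lit 12) (.e (nat_lit 57351) (nat_lit 0) .nil)))))))) (.g (nat_lit 0) .nil .nil))) 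
(.lf (nat_lit 123967) (.g (nat_lit 2051) (.e (nat_lit 7263) (nat_lit 384) (.e (nat_lit 57412) (nat_lit 12) (.e (nat_lit 336061) (nat_lit 7) (.e (nat_lit 319531) (nat_lit 16) (.e (nat_lit 286755) (nat_lit 10) .nil))))) .nil))))))))

noncomputable def tv1658 : DT := (.nd (nat_lit 0) (.nd (nat_lit 1) (.nd (nat_lit 2) (.nd (nat_lit 3) (.nd (nat_lit 4) (.nd (nat_lit 5) 
(.lf (nat_lit 123968) (.g (nat_lit 2312) (.e (nat_lit 7263) (nat_lit 384) (.e (nat_lit 57412) (nat_lit 12) (.e (nat_lit 336061) (nat_lit 7) (.e (nat_lit 319531) (nat_lit 16) (.e (nat_lit 286755) (nat_lit 10) (.e (nat_lit 344161) (nat_lit 37) (.e (nat_lit 647201) (nat_lit 12) (.e (nat_lit 57351) (nat_lit 0) .nil)))))))) (.g (nat_lit 5) .nil .nil))) 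
(.lf (nat_lit 124000) (.g (nat_lit 3615) (.e (nat_lit 7263) (nat_lit 384) (.e (nat_lit 57412) (nat_lit 12) (.e (nat_lit 336176) (nat_lit 10) (.e (nat_lit 344091) (nat_lit 18) (.e (nat_lit 7266) (nat_lit 384) (.e (nat_lit 57427) (nat_lit 15) (.e (nat_lit 360451) (nat_lit 0) .nil))))))) (.g (nat_lit 7) .nil .nil)))) (.nd (nat_lit 5) 
(.lf (nat_lit 123984) (.g (nat_lit 3566) (.e (nat_lit 7263) (nat_lit 384) (.e (nat_lit 57412) (nat_lit 12) (.e (nat_lit 336173) (nat_lit 10) (.e (nat_lit 344177) (nat_lit 43) (.e (nat_lit 770072) (nat_lit 8) (.e (nat_lit 65617) (nat_lit 10) (.e (nat_lit 344095) (nat_lit 18) .nil))))))) (.g (nat_lit 0) .nil .nil))) 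
(.lf (nat_lit 124016) (.g (nat_lit 3508) (.e (nat_lit 7263) (nat_lit 384) (.e (nat_lit 57412) (nat_lit 12) (.e (nat_lit 336176) (nat_lit 10) (.e (nat_lit 344096) (nat_lit 18) (.e (nat_lit 7261) (nat_lit 384) (.e (nat_lit 57427) (nat_lit 15) (.e (nat_lit 360450) (nat_lit 0) .nil))))))) (.g (nat_lit 0) .nil .nil))))) (.nd (nat_lit 4) (.nd (nat_lit 5) 
(.lf (nat_lit 123976) (.g (nat_lit 1917) (.e (nat_lit 7263) (nat_lit 384) (.e (nat_lit 57412) (nat_lit 12) (.e (nat_lit 336173) (nat_lit 10) (.e (nat_lit 344177) (nat_lit 43) (.e (nat_lit 770055) (nat_lit 5) (.e (nat_lit 1589) (nat_lit 111) (.e (nat_lit 360449) (nat_lit 0) .nil))))))) (.g (nat_lit 4) .nil .nil))) 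
(.lf (nat_lit 124008) (.g (nat_lit 2867) (.e (nat_lit 7263) (nat_lit 384) (.e (nat_lit 57412) (nat_lit 12) (.e (nat_lit 336176) (nat_lit 10) (.e (nat_lit 344095) (nat_lit 18) (.e (nat_lit 7263) (nat_lit 384) (.e (nat_lit 57427) (nat_lit 15) (.e (nat_lit 360451) (nat_lit 0) .nil))))))) (.g (nat_lit 0) .nil .nil)))) (.nd (nat_lit 5) 
(.lf (nat_lit 123992) (.g (nat_lit 3209) (.e (nat_lit 7263) (nat_lit 384) (.e (nat_lit 57412) (nat_lit 12) (.e (nat_lit 336176) (nat_lit 10) (.e (nat_lit 344091) (nat_lit 18) (.e (nat_lit 7263) (nat_lit 384) (.e (nat_lit 57427) (nat_lit 15) (.e (nat_lit 360451) (nat_lit 0) .nil))))))) (.g (nat_lit 7) .nil .nil))) 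
(.lf (nat_lit 124024) (.g (nat_lit 3904) (.e (nat_lit 7263) (nat_lit 384) (.e (nat_lit 57412) (nat_lit 12) (.e (nat_lit 336176) (nat_lit 10) (.e (nat_lit 344096) (nat_lit 18) (.e (nat_lit 7265) (nat_lit 384) (.e (nat_lit 57427) (nat_lit 15) (.e (nat_lit 360450) (nat_lit 0) .nil))))))) (.g (nat_lit 0) .nil .nil)))))) (.nd (nat_lit 3) (.nd (nat_lit 4) (.nd (nat_lit 5) 
(.lf (nat_lit 123972) (.g (nat_lit 1814) (.e (nat_lit 7263) (nat_lit 384) (.e (nat_lit 57412) (nat_lit 12) (.e (nat_lit 336099) (nat_lit 9) (.e (nat_lit 335907) (nat_lit 0) (.e (nat_lit 2370) (nat_lit 154) .nil))))) .nil)) 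
(.lf (nat_lit 124004) (.g (nat_lit 3218) (.e (nat_lit 7263) (nat_lit 384) (.e (nat_lit 57412) (nat_lit 12) (.e (nat_lit 336176) (nat_lit 10) (.e (nat_lit 344095) (nat_lit 18) (.e (nat_lit 7261) (nat_lit 384) (.e (nat_lit 57427) (nat_lit 15) (.e (nat_lit 360450) (nat_lit 0) .nil))))))) (.g (nat_lit 0) .nil .nil)))) (.nd (nat_lit 5) 
(.lf (nat_lit 123988) (.g (nat_lit 3709) (.e (nat_lit 7263) (nat_lit 384) (.e (nat_lit 57412) (nat_lit 12) (.e (nat_lit 336176) (nat_lit 10) (.e (nat_lit 344091) (nat_lit 18) (.e (nat_lit 7125) (nat_lit 382) (.e (nat_lit 1201) (nat_lit 88) (.e (nat_lit 65617) (nat_lit 10) (.e (nat_lit 344095) (nat_lit 18) .nil)))))))) (.g (nat_lit 0) .nil .nil))) 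
(.lf (nat_lit 124020) (.g (nat_lit 3505) (.e (nat_lit 7263) (nat_lit 384) (.e (nat_lit 57412) (nat_lit 12) (.e (nat_lit 336176) (nat_lit 10) (.e (nat_lit 344096) (nat_lit 18) (.e (nat_lit 7265) (nat_lit 384) (.e (nat_lit 57412) (nat_lit 12) (.e (nat_lit 336176) (nat_lit 10) (.e (nat_lit 344091) (nat_lit 18) .nil)))))))) (.g (nat_lit 8) .nil .nil))))) (.nd (nat_lit 4) (.nd (nat_lit 5) 
(.lf (nat_lit 123980) (.g (nat_lit 3410) (.e (nat_lit 7263) (nat_lit 384) (.e (nat_lit 57412) (nat_lit 12) (.e (nat_lit 336173) (nat_lit 10) (.e (nat_lit 344177) (nat_lit 43) (.e (nat_lit 770071) (nat_lit 8) (.e (nat_lit 65617) (nat_lit 10) (.e (nat_lit 344095) (nat_lit 18) .nil))))))) (.g (nat_lit 0) .nil .nil))) 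
(.lf (nat_lit 124012) (.g (nat_lit 3475) (.e (nat_lit 7263) (nat_lit 384) (.e (nat_lit 57412) (nat_lit 12) (.e (nat_lit 336176) (nat_lit 10) (.e (nat_lit 344096) (nat_lit 18) (.e (nat_lit 7124) (nat_lit 382) (.e (nat_lit 1201) (nat_lit 88) (.e (nat_lit 65617) (nat_lit 10) (.e (nat_lit 344095) (nat_lit 18) .nil)))))))) (.g (nat_lit 0) .nil .nil)))) (.nd (nat_lit 5) 
(.lf (nat_lit 123996) (.g (nat_lit 3038) (.e (nat_lit 7263) (nat_lit 384) (.e (nat_lit 57412) (nat_lit 12) (.e (nat_lit 336176) (nat_lit 10) (.e (nat_lit 344091) (nat_lit 18) (.e (nat_lit 7265) (nat_lit 384) (.e (nat_lit 57426) (nat_lit 15) (.e (nat_lit 360449) (nat_lit 0) .nil))))))) (.g (nat_lit 0) .nil .nil))) 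
(.lf (nat_lit 124028) (.g (nat_lit 916) (.e (nat_lit 7263) (nat_lit 384) (.e (nat_lit 57412) (nat_lit 12) (.e (nat_lit 336176) (nat_lit 10) (.e (nat_lit 344173) (nat_lit 42) .nil)))) .nil)))))) (.nd (nat_lit 2) (.nd (nat_lit 3) (.nd (nat_lit 4) (.nd (nat_lit 5) 
(.lf (nat_lit 123970) (.g (nat_lit 4193) (.e (nat_lit 7263) (nat_lit 384) (.e (nat_lit 57412) (nat_lit 12) (.e (nat_lit 336061) (nat_lit 7) (.e (nat_lit 319533) (nat_lit 16) (.e (nat_lit 286753) (nat_lit 10) (.e (nat_lit 344160) (nat_lit 37) (.e (nat_lit 647201) (nat_lit 12) (.e (nat_lit 57351) (nat_lit 0) .nil)))))))) (.g (nat_lit 8) .nil .nil))) 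
(.lf (nat_lit 124002) (.g (nat_lit 3246) (.e (nat_lit 7263) (nat_lit 384) (.e (nat_lit 57412) (nat_lit 12) (.e (nat_lit 336176) (nat_lit 10) (.e (nat_lit 344095) (nat_lit 18) (.e (nat_lit 7122) (nat_lit 382) (.e (nat_lit 1201) (nat_lit 88) (.e (nat_lit 65617) (nat_lit 10) (.e (nat_lit 344095) (nat_lit 18) .nil)))))))) (.g (nat_lit 0) .nil .nil)))) (.nd (nat_lit 5) 
(.lf (nat_lit 123986) (.g (nat_lit 3687) (.e (nat_lit 7263) (nat_lit 384) (.e (nat_lit 57412) (nat_lit 12) (.e (nat_lit 336176) (nat_lit 10) (.e (nat_lit 344091) (nat_lit 18) (.e (nat_lit 7122) (nat_lit 382) (.e (nat_lit 1201) (nat_lit 88) (.e (nat_lit 65617) (nat_lit 10) (.e (nat_lit 344091) (nat_lit 18) .nil)))))))) (.g (nat_lit 7) .nil .nil))) 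
(.lf (nat_lit 124018) (.g (nat_lit 2506) (.e (nat_lit 7263) (nat_lit 384) (.e (nat_lit 57412) (nat_lit 12) (.e (nat_lit 336176) (nat_lit 10) (.e (nat_lit 344096) (nat_lit 18) (.e (nat_lit 7263) (nat_lit 384) (.e (nat_lit 57426) (nat_lit 15) (.e (nat_lit 360449) (nat_lit 0) .nil))))))) (.g (nat_lit 7) .nil .nil))))) (.nd (nat_lit 4) (.nd (nat_lit 5) 
(.lf (nat_lit 123978) (.g (nat_lit 3335) (.e (nat_lit 7263) (nat_lit 384) (.e (nat_lit 57412) (nat_lit 12) (.e (nat_lit 336173) (nat_lit 10) (.e (nat_lit 344177) (nat_lit 43) (.e (nat_lit 770071) (nat_lit 8) (.e (nat_lit 65610) (nat_lit 10) (.e (nat_lit 344090) (nat_lit 18) .nil))))))) (.g (nat_lit 7) .nil .nil))) 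
(.lf (nat_lit 124010) (.g (nat_lit 3780) (.e (nat_lit 7263) (nat_lit 384) (.e (nat_lit 57412) (nat_lit 12) (.e (nat_lit 336176) (nat_lit 10) (.e (nat_lit 344096) (nat_lit 18) (.e (nat_lit 7122) (nat_lit 382) (.e (nat_lit 1201) (nat_lit 88) (.e (nat_lit 65610) (nat_lit 10) (.e (nat_lit 344090) (nat_lit 18) .nil)))))))) (.g (nat_lit 7) .nil .nil)))) (.nd (nat_lit 5) 
(.lf (nat_lit 123994) (.g (nat_lit 3142) (.e (nat_lit 7263) (nat_lit 384) (.e (nat_lit 57412) (nat_lit 12) (.e (nat_lit 336176) (nat_lit 10) (.e (nat_lit 344091) (nat_lit 18) (.e (nat_lit 7265) (nat_lit 384) (.e (nat_lit 57412) (nat_lit 12) (.e (nat_lit 336176) (nat_lit 10) (.e (nat_lit 344095) (nat_lit 18) .nil)))))))) (.g (nat_lit 0) .nil .nil))) 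
(.lf (nat_lit 124026) (.g (nat_lit 3150) (.e (nat_lit 7263) (nat_lit 384) (.e (nat_lit 57412) (nat_lit 12) (.e (nat_lit 336176) (nat_lit 10) (.e (nat_lit 344096) (nat_lit 18) (.e (nat_lit 7266) (nat_lit 384) (.e (nat_lit 57426) (nat_lit 15) (.e (nat_lit 360449) (nat_lit 0) .nil))))))) (.g (nat_lit 0) .nil .nil)))))) (.nd (nat_lit 3) (.nd (nat_lit 4) (.nd (nat_lit 5) 
(.lf (nat_lit 123974) (.g (nat_lit 1123) (.e (nat_lit 7263) (nat_lit 384) (.e (nat_lit 57412) (nat_lit 12) (.e (nat_lit 336173) (nat_lit 10) (.e (nat_lit 344175) (nat_lit 43) .nil)))) .nil)) 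
(.lf (nat_lit 124006) (.g (nat_lit 2253) (.e (nat_lit 7263) (nat_lit 384) (.e (nat_lit 57412) (nat_lit 12) (.e (nat_lit 336176) (nat_lit 10) (.e (nat_lit 344095) (nat_lit 18) (.e (nat_lit 7263) (nat_lit 384) (.e (nat_lit 57426) (nat_lit 15) (.e (nat_lit 360449) (nat_lit 0) .nil))))))) (.g (nat_lit 0) .nil .nil)))) (.nd (nat_lit 5) 
(.lf (nat_lit 123990) (.g (nat_lit 2984) (.e (nat_lit 7263) (nat_lit 384) (.e (nat_lit 57412) (nat_lit 12) (.e (nat_lit 336176) (nat_lit 10) (.e (nat_lit 344091) (nat_lit 18) (.e (nat_lit 7263) (nat_lit 384) (.e (nat_lit 57412) (nat_lit 12) (.e (nat_lit 336176) (nat_lit 10) (.e (nat_lit 344095) (nat_lit 18) .nil)))))))) (.g (nat_lit 8) .nil .nil))) 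
(.lf (nat_lit 124022) (.g (nat_lit 3415) (.e (nat_lit 7263) (nat_lit 384) (.e (nat_lit 57412) (nat_lit 12) (.e (nat_lit 336176) (nat_lit 10) (.e (nat_lit 344096) (nat_lit 18) (.e (nat_lit 7265) (nat_lit 384) (.e (nat_lit 57412) (nat_lit 12) (.e (nat_lit 336176) (nat_lit 10) (.e (nat_lit 344096) (nat_lit 18) .nil)))))))) (.g (nat_lit 8) .nil .nil))))) (.nd (nat_lit 4) (.nd (nat_lit 5) 
(.lf (nat_lit 123982) (.g (nat_lit 3774) (.e (nat_lit 7263) (nat_lit 384) (.e (nat_lit 57412) (nat_lit 12) (.e (nat_lit 336173) (nat_lit 10) (.e (nat_lit 344177) (nat_lit 43) (.e (nat_lit 770072) (nat_lit 8) (.e (nat_lit 65610) (nat_lit 10) (.e (nat_lit 344090) (nat_lit 18) .nil))))))) (.g (nat_lit 7) .nil .nil))) 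
(.lf (nat_lit 124014) (.g (nat_lit 3927) (.e (nat_lit 7263) (nat_lit 384) (.e (nat_lit 57412) (nat_lit 12) (.e (nat_lit 336176) (nat_lit 10) (.e (nat_lit 344096) (nat_lit 18) (.e (nat_lit 7125) (nat_lit 382) (.e (nat_lit 1201) (nat_lit 88) (.e (nat_lit 65617) (nat_lit 10) (.e (nat_lit 344095) (nat_lit 18) .nil)))))))) (.g (nat_lit 0) .nil .nil)))) (.nd (nat_lit 5) 
(.lf (nat_lit 123998) (.g (nat_lit 3660) (.e (nat_lit 7263) (nat_lit 384) (.e (nat_lit 57412) (nat_lit 12) (.e (nat_lit 336176) (nat_lit 10) (.e (nat_lit 344091) (nat_lit 18) (.e (nat_lit 7265) (nat_lit 384) (.e (nat_lit 57427) (nat_lit 15) (.e (nat_lit 360451) (nat_lit 0) .nil))))))) (.g (nat_lit 0) .nil .nil))) 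
(.lf (nat_lit 124030) (.g (nat_lit 914) (.e (nat_lit 7263) (nat_lit 384) (.e (nat_lit 57412) (nat_lit 12) (.e (nat_lit 336176) (nat_lit 10) (.e (nat_lit 344175) (nat_lit 43) .nil)))) .nil))))))) (.nd (nat_lit 1) (.nd (nat_lit 2) (.nd (nat_lit 3) (.nd (nat_lit 4) (.nd (nat_lit 5) 
(.lf (nat_lit 123969) (.g (nat_lit 3767) (.e (nat_lit 7263) (nat_lit 384) (.e (nat_lit 57412) (nat_lit 12) (.e (nat_lit 336061) (nat_lit 7) (.e (nat_lit 319531) (nat_lit 16) (.e (nat_lit 286756) (nat_lit 10) (.e (nat_lit 344160) (nat_lit 37) (.e (nat_lit 647201) (nat_lit 12) (.e (nat_lit 57351) (nat_lit 0) .nil)))))))) (.g (nat_lit 8) .nil .nil))) 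
(.lf (nat_lit 124001) (.g (nat_lit 889) (.e (nat_lit 7263) (nat_lit 384) (.e (nat_lit 57412) (nat_lit 12) (.e (nat_lit 336176) (nat_lit 10) (.e (nat_lit 344095) (nat_lit 18) .nil)))) .nil))) (.nd (nat_lit 5) 
(.lf (nat_lit 123985) (.g (nat_lit 312) (.e (nat_lit 7263) (nat_lit 384) (.e (nat_lit 57412) (nat_lit 12) (.e (nat_lit 336176) (nat_lit 10) .nil))) .nil)) 
(.lf (nat_lit 124017) (.g (nat_lit 2895) (.e (nat_lit 7263) (nat_lit 384) (.e (nat_lit 57412) (nat_lit 12) (.e (nat_lit 336176) (nat_lit 10) (.e (nat_lit 344096) (nat_lit 18) (.e (nat_lit 7263) (nat_lit 384) (.e (nat_lit 57412) (nat_lit 12) (.e (nat_lit 336176) (nat_lit 10) (.e (nat_lit 344095) (nat_lit 18) .nil)))))))) (.g (nat_lit 7) .nil .nil))))) (.nd (nat_lit 4) (.nd (nat_lit 5) 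
(.lf (nat_lit 123977) (.g (nat_lit 2838) (.e (nat_lit 7263) (nat_lit 384) (.e (nat_lit 57412) (nat_lit 12) (.e (nat_lit 336173) (nat_lit 10) (.e (nat_lit 344177) (nat_lit 43) (.e (nat_lit 770058) (nat_lit 5) (.e (nat_lit 1598) (nat_lit 111) (.e (nat_lit 360449) (nat_lit 0) .nil))))))) (.g (nat_lit 6) .nil .nil))) 
(.lf (nat_lit 124009) (.g (nat_lit 867) (.e (nat_lit 7263) (nat_lit 384) (.e (nat_lit 57412) (nat_lit 12) (.e (nat_lit 336176) (nat_lit 10) (.e (nat_lit 344096) (nat_lit 18) .nil)))) .nil))) (.nd (nat_lit 5) 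
(.lf (nat_lit 123993) (.g (nat_lit 3452) (.e (nat_lit 7263) (nat_lit 384) (.e (nat_lit 57412) (nat_lit 12) (.e (nat_lit 336176) (nat_lit 10) (.e (nat_lit 344091) (nat_lit 18) (.e (nat_lit 7265) (nat_lit 384) (.e (nat_lit 57412) (nat_lit 12) (.e (nat_lit 336176) (nat_lit 10) (.e (nat_lit 344091) (nat_lit 18) .nil)))))))) (.g (nat_lit 8) .nil .nil))) 
(.lf (nat_lit 124025) (.g (nat_lit 3714) (.e (nat_lit 7263) (nat_lit 384) (.e (nat_lit 57412) (nat_lit 12) (.e (nat_lit 336176) (nat_lit 10) (.e (nat_lit 344096) (nat_lit 18) (.e (nat_lit 7265) (nat_lit 384) (.e (nat_lit 57427) (nat_lit 15) (.e (nat_lit 360451) (nat_lit 0) .nil))))))) (.g (nat_lit 0) .nil .nil)))))) (.nd (nat_lit 3) (.nd (nat_lit 4) (.nd (nat_lit 5) 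
(.lf (nat_lit 123973) (.g (nat_lit 1105) (.e (nat_lit 7263) (nat_lit 384) (.e (nat_lit 57412) (nat_lit 12) (.e (nat_lit 336173) (nat_lit 10) (.e (nat_lit 344174) (nat_lit 42) .nil)))) .nil)) 
(.lf (nat_lit 124005) (.g (nat_lit 2676) (.e (nat_lit 7263) (nat_lit 384) (.e (nat_lit 57412) (nat_lit 12) (.e (nat_lit 336176) (nat_lit 10) (.e (nat_lit 344095) (nat_lit 18) (.e (nat_lit 7263) (nat_lit 384) (.e (nat_lit 57412) (nat_lit 12) (.e (nat_lit 336176) (nat_lit 10) (.e (nat_lit 344095) (nat_lit 18) .nil)))))))) (.g (nat_lit 0) .nil .nil)))) (.nd (nat_lit 5) 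
(.lf (nat_lit 123989) (.g (nat_lit 1515) (.e (nat_lit 7263) (nat_lit 384) (.e (nat_lit 57412) (nat_lit 12) (.e (nat_lit 336176) (nat_lit 10) (.e (nat_lit 344091) (nat_lit 18) (.e (nat_lit 7125) (nat_lit 382) (.e (nat_lit 1224) (nat_lit 90) (.e (nat_lit 81946) (nat_lit 20) (.e (nat_lit 1014) (nat_lit 81) .nil)))))))) (.g (nat_lit 4) .nil .nil))) 
(.lf (nat_lit 124021) (.g (nat_lit 3195) (.e (nat_lit 7263) (nat_lit 384) (.e (nat_lit 57412) (nat_lit 12) (.e (nat_lit 336176) (nat_lit 10) (.e (nat_lit 344096) (nat_lit 18) (.e (nat_lit 7265) (nat_lit 384) (.e (nat_lit 57412) (nat_lit 12) (.e (nat_lit 336176) (nat_lit 10) (.e (nat_lit 344095) (nat_lit 18) .nil)))))))) (.g (nat_lit 0) .nil .nil))))) (.nd (nat_lit 4) (.nd (nat_lit 5) 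
(.lf (nat_lit 123981) (.g (nat_lit 2484) (.e (nat_lit 7263) (nat_lit 384) (.e (nat_lit 57412) (nat_lit 12) (.e (nat_lit 336173) (nat_lit 10) (.e (nat_lit 344177) (nat_lit 43) (.e (nat_lit 770071) (nat_lit 8) (.e (nat_lit 65619) (nat_lit 10) (.e (nat_lit 344090) (nat_lit 18) .nil))))))) (.g (nat_lit 5) .nil .nil))) 
(.lf (nat_lit 124013) (.g (nat_lit 4325) (.e (nat_lit 7263) (nat_lit 384) (.e (nat_lit 57412) (nat_lit 12) (.e (nat_lit 336176) (nat_lit 10) (.e (nat_lit 344096) (nat_lit 18) (.e (nat_lit 7125) (nat_lit 382) (.e (nat_lit 1201) (nat_lit 88) (.e (nat_lit 65617) (nat_lit 10) (.e (nat_lit 344091) (nat_lit 18) .nil)))))))) (.g (nat_lit 8) .nil .nil)))) (.nd (nat_lit 5) 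
(.lf (nat_lit 123997) (.g (nat_lit 3853) (.e (nat_lit 7263) (nat_lit 384) (.e (nat_lit 57412) (nat_lit 12) (.e (nat_lit 336176) (nat_lit 10) (.e (nat_lit 344091) (nat_lit 18) (.e (nat_lit 7265) (nat_lit 384) (.e (nat_lit 57427) (nat_lit 15) (.e (nat_lit 360450) (nat_lit 0) .nil))))))) (.g (nat_lit 0) .nil .nil))) 
(.lf (nat_lit 124029) (.g (nat_lit 899) (.e (nat_lit 7263) (nat_lit 384) (.e (nat_lit 57412) (nat_lit 12) (.e (nat_lit 336176) (nat_lit 10) (.e (nat_lit 344174) (nat_lit 42) .nil)))) .nil)))))) (.nd (nat_lit 2) (.nd (nat_lit 3) (.nd (nat_lit 4) (.nd (nat_lit 5) 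
(.lf (nat_lit 123971) (.g (nat_lit 3858) (.e (nat_lit 7263) (nat_lit 384) (.e (nat_lit 57412) (nat_lit 12) (.e (nat_lit 336061) (nat_lit 7) (.e (nat_lit 319534) (nat_lit 16) (.e (nat_lit 286756) (nat_lit 10) (.e (nat_lit 344160) (nat_lit 37) (.e (nat_lit 647201) (nat_lit 12) (.e (nat_lit 57351) (nat_lit 0) .nil)))))))) (.g (nat_lit 7) .nil .nil))) 
(.lf (nat_lit 124003) (.g (nat_lit 2439) (.e (nat_lit 7263) (nat_lit 384) (.e (nat_lit 57412) (nat_lit 12) (.e (nat_lit 336176) (nat_lit 10) (.e (nat_lit 344095) (nat_lit 18) (.e (nat_lit 7261) (nat_lit 384) (.e (nat_lit 57426) (nat_lit 15) (.e (nat_lit 360449) (nat_lit 0) .nil))))))) (.g (nat_lit 0) .nil .nil)))) (.nd (nat_lit 5) 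
(.lf (nat_lit 123987) (.g (nat_lit 3472) (.e (nat_lit 7263) (nat_lit 384) (.e (nat_lit 57412) (nat_lit 12) (.e (nat_lit 336176) (nat_lit 10) (.e (nat_lit 344091) (nat_lit 18) (.e (nat_lit 7124) (nat_lit 382) (.e (nat_lit 1201) (nat_lit 88) (.e (nat_lit 65617) (nat_lit 10) (.e (nat_lit 344095) (nat_lit 18) .nil)))))))) (.g (nat_lit 0) .nil .nil))) 
(.lf (nat_lit 124019) (.g (nat_lit 3145) (.e (nat_lit 7263) (nat_lit 384) (.e (nat_lit 57412) (nat_lit 12) (.e (nat_lit 336176) (nat_lit 10) (.e (nat_lit 344096) (nat_lit 18) (.e (nat_lit 7263) (nat_lit 384) (.e (nat_lit 57427) (nat_lit 15) (.e (nat_lit 360451) (nat_lit 0) .nil))))))) (.g (nat_lit 7) .nil .nil))))) (.nd (nat_lit 4) (.nd (nat_lit 5) 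
(.lf (nat_lit 123979) (.g (nat_lit 3860) (.e (nat_lit 7263) (nat_lit 384) (.e (nat_lit 57412) (nat_lit 12) (.e (nat_lit 336173) (nat_lit 10) (.e (nat_lit 344177) (nat_lit 43) (.e (nat_lit 770071) (nat_lit 8) (.e (nat_lit 65617) (nat_lit 10) (.e (nat_lit 344091) (nat_lit 18) .nil))))))) (.g (nat_lit 7) .nil .nil))) 
(.lf (nat_lit 124011) (.g (nat_lit 3766) (.e (nat_lit 7263) (nat_lit 384) (.e (nat_lit 57412) (nat_lit 12) (.e (nat_lit 336176) (nat_lit 10) (.e (nat_lit 344096) (nat_lit 18) (.e (nat_lit 7122) (nat_lit 382) (.e (nat_lit 1201) (nat_lit 88) (.e (nat_lit 65617) (nat_lit 10) (.e (nat_lit 344095) (nat_lit 18) .nil)))))))) (.g (nat_lit 7) .nil .nil)))) (.nd (nat_lit 5) 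
(.lf (nat_lit 123995) (.g (nat_lit 3362) (.e (nat_lit 7263) (nat_lit 384) (.e (nat_lit 57412) (nat_lit 12) (.e (nat_lit 336176) (nat_lit 10) (.e (nat_lit 344091) (nat_lit 18) (.e (nat_lit 7265) (nat_lit 384) (.e (nat_lit 57412) (nat_lit 12) (.e (nat_lit 336176) (nat_lit 10) (.e (nat_lit 344096) (nat_lit 18) .nil)))))))) (.g (nat_lit 8) .nil .nil))) 
(.lf (nat_lit 124027) (.g (nat_lit 3811) (.e (nat_lit 7263) (nat_lit 384) (.e (nat_lit 57412) (nat_lit 12) (.e (nat_lit 336176) (nat_lit 10) (.e (nat_lit 344096) (nat_lit 18) (.e (nat_lit 7266) (nat_lit 384) (.e (nat_lit 57427) (nat_lit 15) (.e (nat_lit 360451) (nat_lit 0) .nil))))))) (.g (nat_lit 7) .nil .nil)))))) (.nd (nat_lit 3) (.nd (nat_lit 4) (.nd (nat_lit 5) 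
(.lf (nat_lit 123975) (.g (nat_lit 1055) (.e (nat_lit 7263) (nat_lit 384) (.e (nat_lit 57412) (nat_lit 12) (.e (nat_lit 336173) (nat_lit 10) (.e (nat_lit 344177) (nat_lit 43) .nil)))) .nil)) 
(.lf (nat_lit 124007) (.g (nat_lit 3043) (.e (nat_lit 7263) (nat_lit 384) (.e (nat_lit 57412) (nat_lit 12) (.e (nat_lit 336176) (nat_lit 10) (.e (nat_lit 344095) (nat_lit 18) (.e (nat_lit 7263) (nat_lit 384) (.e (nat_lit 57427) (nat_lit 15) (.e (nat_lit 360450) (nat_lit 0) .nil))))))) (.g (nat_lit 0) .nil .nil)))) (.nd (nat_lit 5) 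
(.lf (nat_lit 123991) (.g (nat_lit 2594) (.e (nat_lit 7263) (nat_lit 384) (.e (nat_lit 57412) (nat_lit 12) (.e (nat_lit 336176) (nat_lit 10) (.e (nat_lit 344091) (nat_lit 18) (.e (nat_lit 7263) (nat_lit 384) (.e (nat_lit 57426) (nat_lit 15) (.e (nat_lit 360449) (nat_lit 0) .nil))))))) (.g (nat_lit 7) .nil .nil))) 
(.lf (nat_lit 124023) (.g (nat_lit 3090) (.e (nat_lit 7263) (nat_lit 384) (.e (nat_lit 57412) (nat_lit 12) (.e (nat_lit 336176) (nat_lit 10) (.e (nat_lit 344096) (nat_lit 18) (.e (nat_lit 7265) (nat_lit 384) (.e (nat_lit 57426) (nat_lit 15) (.e (nat_lit 360449) (nat_lit 0) .nil))))))) (.g (nat_lit 0) .nil .nil))))) (.nd (nat_lit 4) (.nd (nat_lit 5) 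
(.lf (nat_lit 123983) (.g (nat_lit 4017) (.e (nat_lit 7263) (nat_lit 384) (.e (nat_lit 57412) (nat_lit 12) (.e (nat_lit 336173) (nat_lit 10) (.e (nat_lit 344177) (nat_lit 43) (.e (nat_lit 770072) (nat_lit 8) (.e (nat_lit 65617) (nat_lit 10) (.e (nat_lit 344091) (nat_lit 18) .nil))))))) (.g (nat_lit 7) .nil .nil))) 
(.lf (nat_lit 124015) (.g (nat_lit 2736) (.e (nat_lit 7263) (nat_lit 384) (.e (nat_lit 57412) (nat_lit 12) (.e (nat_lit 336176) (nat_lit 10) (.e (nat_lit 344096) (nat_lit 18) (.e (nat_lit 7261) (nat_lit 384) (.e (nat_lit 57426) (nat_lit 15) (.e (nat_lit 360449) (nat_lit 0) .nil))))))) (.g (nat_lit 0) .nil .nil)))) (.nd (nat_lit 5) 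
(.lf (nat_lit 123999) (.g (nat_lit 2979) (.e (nat_lit 7263) (nat_lit 384) (.e (nat_lit 57412) (nat_lit 12) (.e (nat_lit 336176) (nat_lit 10) (.e (nat_lit 344091) (nat_lit 18) (.e (nat_lit 7266) (nat_lit 384) (.e (nat_lit 57426) (nat_lit 15) (.e (nat_lit 360449) (nat_lit 0) .nil))))))) (.g (nat_lit 0) .nil .nil))) 
(.lf (nat_lit 124031) (.g (nat_lit 1431) (.e (nat_lit 7263) (nat_lit 384) (.e (nat_lit 57412) (nat_lit 12) (.e (nat_lit 336176) (nat_lit 10) (.e (nat_lit 344176) (nat_lit 43) (.e (nat_lit 770071) (nat_lit 8) .nil))))) .nil))))))))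

noncomputable def tv1659 : DT := (.nd (nat_lit 0) (.nd (nat_lit 1) (.nd (nat_lit 2) (.nd (nat_lit 3) (.nd (nat_lit 4) (.nd (nat_lit 5) 
(.lf (nat_lit 124032) (.g (nat_lit 832) (.e (nat_lit 7263) (nat_lit 384) (.e (nat_lit 57412) (nat_lit 12) (.e (nat_lit 336176) (nat_lit 10) (.e (nat_lit 344177) (nat_lit 43) .nil)))) .nil)) 
(.lf (nat_lit 124064) (.g (nat_lit 3180) (.e (nat_lit 7263) (nat_lit 384) (.e (nat_lit 57412) (nat_lit 12) (.e (nat_lit 336212) (nat_lit 13) (.e (nat_lit 393301) (nat_lit 27) (.e (nat_lit 491558) (nat_lit 10) (.e (nat_lit 344096) (nat_lit 18) .nil)))))) (.g (nat_lit 6) .nil .nil)))) (.nd (nat_lit 5) 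
(.lf (nat_lit 124048) (.g (nat_lit 2148) (.e (nat_lit 7263) (nat_lit 384) (.e (nat_lit 57412) (nat_lit 12) (.e (nat_lit 336212) (nat_lit 13) (.e (nat_lit 393233) (nat_lit 17) (.e (nat_lit 7593) (nat_lit 407) (.e (nat_lit 73730) (nat_lit 0) .nil)))))) (.g (nat_lit 6) .nil .nil))) 
(.lf (nat_lit 124080) (.g (nat_lit 3180) (.e (nat_lit 7263) (nat_lit 384) (.e (nat_lit 57413) (nat_lit 12) (.e (nat_lit 336013) (nat_lit 2) (.e (nat_lit 90170) (nat_lit 13) (.e (nat_lit 172113) (nat_lit 10) (.e (nat_lit 434242) (nat_lit 28) (.e (nat_lit 573474) (nat_lit 12) (.e (nat_lit 57348) (nat_lit 0) .nil)))))))) (.g (nat_lit 5) .nil .nil))))) (.nd (nat_lit 4) (.nd (nat_lit 5) 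
(.lf (nat_lit 124040) (.g (nat_lit 1740) (.e (nat_lit 7263) (nat_lit 384) (.e (nat_lit 57412) (nat_lit 12) (.e (nat_lit 336212) (nat_lit 13) (.e (nat_lit 393231) (nat_lit 17) (.e (nat_lit 7591) (nat_lit 407) (.e (nat_lit 73730) (nat_lit 0) .nil)))))) (.g (nat_lit 0) .nil .nil))) 
(.lf (nat_lit 124072) (.g (nat_lit 1957) (.e (nat_lit 7263) (nat_lit 384) (.e (nat_lit 57412) (nat_lit 12) (.e (nat_lit 336219) (nat_lit 13) (.e (nat_lit 393300) (nat_lit 27) (.e (nat_lit 491558) (nat_lit 10) (.e (nat_lit 344090) (nat_lit 18) .nil)))))) (.g (nat_lit 5) .nil .nil)))) (.nd (nat_lit 5) 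
(.lf (nat_lit 124056) (.g (nat_lit 2829) (.e (nat_lit 7263) (nat_lit 384) (.e (nat_lit 57412) (nat_lit 12) (.e (nat_lit 336212) (nat_lit 13) (.e (nat_lit 393300) (nat_lit 27) (.e (nat_lit 491558) (nat_lit 10) (.e (nat_lit 344091) (nat_lit 18) .nil)))))) (.g (nat_lit 6) .nil .nil))) 
(.lf (nat_lit 124088) (.g (nat_lit 2128) (.e (nat_lit 7263) (nat_lit 384) (.e (nat_lit 57419) (nat_lit 12) (.e (nat_lit 336213) (nat_lit 13) (.e (nat_lit 393233) (nat_lit 17) (.e (nat_lit 7593) (nat_lit 407) (.e (nat_lit 73730) (nat_lit 0) .nil)))))) (.g (nat_lit 5) .nil .nil)))))) (.nd (nat_lit 3) (.nd (nat_lit 4) (.nd (nat_lit 5) 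
(.lf (nat_lit 124036) (.g (nat_lit 3557) (.e (nat_lit 7263) (nat_lit 384) (.e (nat_lit 57412) (nat_lit 12) (.e (nat_lit 336176) (nat_lit 10) (.e (nat_lit 344177) (nat_lit 43) (.e (nat_lit 770072) (nat_lit 8) (.e (nat_lit 65610) (nat_lit 10) (.e (nat_lit 344090) (nat_lit 18) .nil))))))) (.g (nat_lit 7) .nil .nil))) 
(.lf (nat_lit 124068) (.g (nat_lit 3106) (.e (nat_lit 7263) (nat_lit 384) (.e (nat_lit 57412) (nat_lit 12) (.e (nat_lit 336212) (nat_lit 13) (.e (nat_lit 393301) (nat_lit 27) (.e (nat_lit 491560) (nat_lit 10) (.e (nat_lit 344094) (nat_lit 18) .nil)))))) (.g (nat_lit 0) .nil .nil)))) (.nd (nat_lit 5) 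
(.lf (nat_lit 124052) (.g (nat_lit 3025) (.e (nat_lit 7263) (nat_lit 384) (.e (nat_lit 57412) (nat_lit 12) (.e (nat_lit 336212) (nat_lit 13) (.e (nat_lit 393299) (nat_lit 27) (.e (nat_lit 491558) (nat_lit 10) (.e (nat_lit 344091) (nat_lit 18) .nil)))))) (.g (nat_lit 6) .nil .nil))) 
(.lf (nat_lit 124084) (.g (nat_lit 1991) (.e (nat_lit 7263) (nat_lit 384) (.e (nat_lit 57419) (nat_lit 12) (.e (nat_lit 336213) (nat_lit 13) (.e (nat_lit 393232) (nat_lit 17) (.e (nat_lit 7593) (nat_lit 407) (.e (nat_lit 73729) (nat_lit 0) .nil)))))) (.g (nat_lit 4) .nil .nil))))) (.nd (nat_lit 4) (.nd (nat_lit 5) 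
(.lf (nat_lit 124044) (.g (nat_lit 2836) (.e (nat_lit 7263) (nat_lit 384) (.e (nat_lit 57412) (nat_lit 12) (.e (nat_lit 336212) (nat_lit 13) (.e (nat_lit 393232) (nat_lit 17) (.e (nat_lit 7593) (nat_lit 407) (.e (nat_lit 73729) (nat_lit 0) .nil)))))) (.g (nat_lit 0) .nil .nil))) 
(.lf (nat_lit 124076) (.g (nat_lit 3482) (.e (nat_lit 7263) (nat_lit 384) (.e (nat_lit 57412) (nat_lit 12) (.e (nat_lit 336219) (nat_lit 13) (.e (nat_lit 393301) (nat_lit 27) (.e (nat_lit 491558) (nat_lit 10) (.e (nat_lit 344091) (nat_lit 18) .nil)))))) (.g (nat_lit 6) .nil .nil)))) (.nd (nat_lit 5) 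
(.lf (nat_lit 124060) (.g (nat_lit 2508) (.e (nat_lit 7263) (nat_lit 384) (.e (nat_lit 57412) (nat_lit 12) (.e (nat_lit 336212) (nat_lit 13) (.e (nat_lit 393300) (nat_lit 27) (.e (nat_lit 491560) (nat_lit 10) (.e (nat_lit 344094) (nat_lit 18) .nil)))))) (.g (nat_lit 6) .nil .nil))) 
(.lf (nat_lit 124092) (.g (nat_lit 3875) (.e (nat_lit 7263) (nat_lit 384) (.e (nat_lit 57420) (nat_lit 13) (.e (nat_lit 344117) (nat_lit 21) (.e (nat_lit 516151) (nat_lit 9) (.e (nat_lit 426286) (nat_lit 10) (.e (nat_lit 434245) (nat_lit 28) (.e (nat_lit 573473) (nat_lit 12) (.e (nat_lit 57348) (nat_lit 0) .nil)))))))) (.g (nat_lit 8) .nil .nil))))))) 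
(.nd (nat_lit 2) (.nd (nat_lit 3) (.nd (nat_lit 4) (.nd (nat_lit 5) 
(.lf (nat_lit 124034) (.g (nat_lit 3732) (.e (nat_lit 7263) (nat_lit 384) (.e (nat_lit 57412) (nat_lit 12) (.e (nat_lit 336176) (nat_lit 10) (.e (nat_lit 344177) (nat_lit 43) (.e (nat_lit 770071) (nat_lit 8) (.e (nat_lit 65617) (nat_lit 10) (.e (nat_lit 344091) (nat_lit 18) .nil))))))) (.g (nat_lit 7) .nil .nil))) 
(.lf (nat_lit 124066) (.g (nat_lit 3257) (.e (nat_lit 7263) (nat_lit 384) (.e (nat_lit 57412) (nat_lit 12) (.e (nat_lit 336212) (nat_lit 13) (.e (nat_lit 393301) (nat_lit 27) (.e (nat_lit 491559) (nat_lit 10) (.e (nat_lit 344095) (nat_lit 18) .nil)))))) (.g (nat_lit 5) .nil .nil)))) (.nd (nat_lit 5) 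
(.lf (nat_lit 124050) (.g (nat_lit 2901) (.e (nat_lit 7263) (nat_lit 384) (.e (nat_lit 57412) (nat_lit 12) (.e (nat_lit 336212) (nat_lit 13) (.e (nat_lit 393234) (nat_lit 17) (.e (nat_lit 7593) (nat_lit 407) (.e (nat_lit 73729) (nat_lit 0) .nil)))))) (.g (nat_lit 0) .nil .nil))) 
(.lf (nat_lit 124082) (.g (nat_lit 1182) (.e (nat_lit 7263) (nat_lit 384) (.e (nat_lit 57419) (nat_lit 12) (.e (nat_lit 336076) (nat_lit 9) (.e (nat_lit 336438) (nat_lit 31) (.e (nat_lit 466688) (nat_lit 5) .nil))))) .nil)))) (.nd (nat_lit 4) (.nd (nat_lit 5) 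
(.lf (nat_lit 124042) (.g (nat_lit 2388) (.e (nat_lit 7263) (nat_lit 384) (.e (nat_lit 57412) (nat_lit 12) (.e (nat_lit 336212) (nat_lit 13) (.e (nat_lit 393232) (nat_lit 17) (.e (nat_lit 7591) (nat_lit 407) (.e (nat_lit 73729) (nat_lit 0) .nil)))))) (.g (nat_lit 6) .nil .nil))) 
(.lf (nat_lit 124074) (.g (nat_lit 2472) (.e (nat_lit 7263) (nat_lit 384) (.e (nat_lit 57412) (nat_lit 12) (.e (nat_lit 336219) (nat_lit 13) (.e (nat_lit 393300) (nat_lit 27) (.e (nat_lit 491560) (nat_lit 10) (.e (nat_lit 344094) (nat_lit 18) .nil)))))) (.g (nat_lit 6) .nil .nil)))) (.nd (nat_lit 5) 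
(.lf (nat_lit 124058) (.g (nat_lit 2473) (.e (nat_lit 7263) (nat_lit 384) (.e (nat_lit 57412) (nat_lit 12) (.e (nat_lit 336212) (nat_lit 13) (.e (nat_lit 393300) (nat_lit 27) (.e (nat_lit 491560) (nat_lit 10) (.e (nat_lit 344090) (nat_lit 18) .nil)))))) (.g (nat_lit 6) .nil .nil))) 
(.lf (nat_lit 124090) (.g (nat_lit 2715) (.e (nat_lit 7263) (nat_lit 384) (.e (nat_lit 57419) (nat_lit 12) (.e (nat_lit 336213) (nat_lit 13) (.e (nat_lit 393300) (nat_lit 27) (.e (nat_lit 491558) (nat_lit 10) (.e (nat_lit 344095) (nat_lit 18) .nil)))))) (.g (nat_lit 6) .nil .nil)))))) (.nd (nat_lit 3) (.nd (nat_lit 4) (.nd (nat_lit 5) 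
(.lf (nat_lit 124038) (.g (nat_lit 3411) (.e (nat_lit 7263) (nat_lit 384) (.e (nat_lit 57412) (nat_lit 12) (.e (nat_lit 336176) (nat_lit 10) (.e (nat_lit 344177) (nat_lit 43) (.e (nat_lit 770072) (nat_lit 8) (.e (nat_lit 65617) (nat_lit 10) (.e (nat_lit 344095) (nat_lit 18) .nil))))))) (.g (nat_lit 0) .nil .nil))) 
(.lf (nat_lit 124070) (.g (nat_lit 2716) (.e (nat_lit 7263) (nat_lit 384) (.e (nat_lit 57412) (nat_lit 12) (.e (nat_lit 336219) (nat_lit 13) (.e (nat_lit 393234) (nat_lit 17) (.e (nat_lit 7593) (nat_lit 407) (.e (nat_lit 73729) (nat_lit 0) .nil)))))) (.g (nat_lit 0) .nil .nil)))) (.nd (nat_lit 5) 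
(.lf (nat_lit 124054) (.g (nat_lit 2524) (.e (nat_lit 7263) (nat_lit 384) (.e (nat_lit 57412) (nat_lit 12) (.e (nat_lit 336212) (nat_lit 13) (.e (nat_lit 393299) (nat_lit 27) (.e (nat_lit 491560) (nat_lit 10) (.e (nat_lit 344091) (nat_lit 18) .nil)))))) (.g (nat_lit 5) .nil .nil))) 
(.lf (nat_lit 124086) (.g (nat_lit 2121) (.e (nat_lit 7263) (nat_lit 384) (.e (nat_lit 57419) (nat_lit 12) (.e (nat_lit 336213) (nat_lit 13) (.e (nat_lit 393233) (nat_lit 17) (.e (nat_lit 7591) (nat_lit 407) (.e (nat_lit 73730) (nat_lit 0) .nil)))))) (.g (nat_lit 5) .nil .nil))))) (.nd (nat_lit 4) (.nd (nat_lit 5) 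
(.lf (nat_lit 124046) (.g (nat_lit 2058) (.e (nat_lit 7263) (nat_lit 384) (.e (nat_lit 57412) (nat_lit 12) (.e (nat_lit 336212) (nat_lit 13) (.e (nat_lit 393233) (nat_lit 17) (.e (nat_lit 7591) (nat_lit 407) (.e (nat_lit 73730) (nat_lit 0) .nil)))))) (.g (nat_lit 0) .nil .nil))) 
(.lf (nat_lit 124078) (.g (nat_lit 3593) (.e (nat_lit 7263) (nat_lit 384) (.e (nat_lit 57412) (nat_lit 12) (.e (nat_lit 336219) (nat_lit 13) (.e (nat_lit 393301) (nat_lit 27) (.e (nat_lit 491559) (nat_lit 10) (.e (nat_lit 344091) (nat_lit 18) .nil)))))) (.g (nat_lit 5) .nil .nil)))) (.nd (nat_lit 5) 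
(.lf (nat_lit 124062) (.g (nat_lit 3371) (.e (nat_lit 7263) (nat_lit 384) (.e (nat_lit 57412) (nat_lit 12) (.e (nat_lit 336212) (nat_lit 13) (.e (nat_lit 393301) (nat_lit 27) (.e (nat_lit 491558) (nat_lit 10) (.e (nat_lit 344091) (nat_lit 18) .nil)))))) (.g (nat_lit 6) .nil .nil))) 
(.lf (nat_lit 124094) (.g (nat_lit 4314) (.e (nat_lit 7263) (nat_lit 384) (.e (nat_lit 57420) (nat_lit 13) (.e (nat_lit 344117) (nat_lit 21) (.e (nat_lit 516151) (nat_lit 9) (.e (nat_lit 426286) (nat_lit 10) (.e (nat_lit 434245) (nat_lit 28) (.e (nat_lit 573474) (nat_lit 12) (.e (nat_lit 57351) (nat_lit 0) .nil)))))))) (.g (nat_lit 0) .nil .nil)))))))) 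
(.nd (nat_lit 1) (.nd (nat_lit 2) (.nd (nat_lit 3) (.nd (nat_lit 4) (.nd (nat_lit 5) 
(.lf (nat_lit 124033) (.g (nat_lit 3215) (.e (nat_lit 7263) (nat_lit 384) (.e (nat_lit 57412) (nat_lit 12) (.e (nat_lit 336176) (nat_lit 10) (.e (nat_lit 344177) (nat_lit 43) (.e (nat_lit 770071) (nat_lit 8) (.e (nat_lit 65610) (nat_lit 10) (.e (nat_lit 344090) (nat_lit 18) .nil))))))) (.g (nat_lit 7) .nil .nil))) 
(.lf (nat_lit 124065) (.g (nat_lit 3954) (.e (nat_lit 7263) (nat_lit 384) (.e (nat_lit 57412) (nat_lit 12) (.e (nat_lit 336212) (nat_lit 13) (.e (nat_lit 393301) (nat_lit 27) (.e (nat_lit 491559) (nat_lit 10) (.e (nat_lit 344091) (nat_lit 18) .nil)))))) (.g (nat_lit 6) .nil .nil)))) (.nd (nat_lit 5) 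
(.lf (nat_lit 124049) (.g (nat_lit 2359) (.e (nat_lit 7263) (nat_lit 384) (.e (nat_lit 57412) (nat_lit 12) (.e (nat_lit 336212) (nat_lit 13) (.e (nat_lit 393234) (nat_lit 17) (.e (nat_lit 7591) (nat_lit 407) (.e (nat_lit 73730) (nat_lit 0) .nil)))))) (.g (nat_lit 0) .nil .nil))) 
(.lf (nat_lit 124081) (.g (nat_lit 869) (.e (nat_lit 7263) (nat_lit 384) (.e (nat_lit 57419) (nat_lit 12) (.e (nat_lit 336075) (nat_lit 9) (.e (nat_lit 336438) (nat_lit 31) (.e (nat_lit 466688) (nat_lit 5) .nil))))) .nil)))) (.nd (nat_lit 4) (.nd (nat_lit 5) 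
(.lf (nat_lit 124041) (.g (nat_lit 2437) (.e (nat_lit 7263) (nat_lit 384) (.e (nat_lit 57412) (nat_lit 12) (.e (nat_lit 336212) (nat_lit 13) (.e (nat_lit 393231) (nat_lit 17) (.e (nat_lit 7593) (nat_lit 407) (.e (nat_lit 73729) (nat_lit 0) .nil)))))) (.g (nat_lit 0) .nil .nil))) 
(.lf (nat_lit 124073) (.g (nat_lit 2389) (.e (nat_lit 7263) (nat_lit 384) (.e (nat_lit 57412) (nat_lit 12) (.e (nat_lit 336219) (nat_lit 13) (.e (nat_lit 393300) (nat_lit 27) (.e (nat_lit 491558) (nat_lit 10) (.e (nat_lit 344095) (nat_lit 18) .nil)))))) (.g (nat_lit 6) .nil .nil)))) (.nd (nat_lit 5) 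
(.lf (nat_lit 124057) (.g (nat_lit 2449) (.e (nat_lit 7263) (nat_lit 384) (.e (nat_lit 57412) (nat_lit 12) (.e (nat_lit 336212) (nat_lit 13) (.e (nat_lit 393300) (nat_lit 27) (.e (nat_lit 491558) (nat_lit 10) (.e (nat_lit 344095) (nat_lit 18) .nil)))))) (.g (nat_lit 0) .nil .nil))) 
(.lf (nat_lit 124089) (.g (nat_lit 1638) (.e (nat_lit 7263) (nat_lit 384) (.e (nat_lit 57419) (nat_lit 12) (.e (nat_lit 336213) (nat_lit 13) (.e (nat_lit 393299) (nat_lit 27) (.e (nat_lit 491558) (nat_lit 10) .nil))))) .nil))))) (.nd (nat_lit 3) (.nd (nat_lit 4) (.nd (nat_lit 5) 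
(.lf (nat_lit 124037) (.g (nat_lit 3847) (.e (nat_lit 7263) (nat_lit 384) (.e (nat_lit 57412) (nat_lit 12) (.e (nat_lit 336176) (nat_lit 10) (.e (nat_lit 344177) (nat_lit 43) (.e (nat_lit 770072) (nat_lit 8) (.e (nat_lit 65617) (nat_lit 10) (.e (nat_lit 344091) (nat_lit 18) .nil))))))) (.g (nat_lit 7) .nil .nil))) 
(.lf (nat_lit 124069) (.g (nat_lit 2641) (.e (nat_lit 7263) (nat_lit 384) (.e (nat_lit 57412) (nat_lit 12) (.e (nat_lit 336217) (nat_lit 13) (.e (nat_lit 393301) (nat_lit 27) (.e (nat_lit 491560) (nat_lit 10) (.e (nat_lit 344094) (nat_lit 18) .nil)))))) (.g (nat_lit 5) .nil .nil)))) (.nd (nat_lit 5) 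
(.lf (nat_lit 124053) (.g (nat_lit 2649) (.e (nat_lit 7263) (nat_lit 384) (.e (nat_lit 57412) (nat_lit 12) (.e (nat_lit 336212) (nat_lit 13) (.e (nat_lit 393299) (nat_lit 27) (.e (nat_lit 491558) (nat_lit 10) (.e (nat_lit 344095) (nat_lit 18) .nil)))))) (.g (nat_lit 6) .nil .nil))) 
(.lf (nat_lit 124085) (.g (nat_lit 937) (.e (nat_lit 7263) (nat_lit 384) (.e (nat_lit 57419) (nat_lit 12) (.e (nat_lit 336213) (nat_lit 13) (.e (nat_lit 393233) (nat_lit 17) .nil)))) .nil)))) (.nd (nat_lit 4) (.nd (nat_lit 5) 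
(.lf (nat_lit 124045) (.g (nat_lit 2132) (.e (nat_lit 7263) (nat_lit 384) (.e (nat_lit 57412) (nat_lit 12) (.e (nat_lit 336212) (nat_lit 13) (.e (nat_lit 393232) (nat_lit 17) (.e (nat_lit 7593) (nat_lit 407) (.e (nat_lit 73730) (nat_lit 0) .nil)))))) (.g (nat_lit 5) .nil .nil))) 
(.lf (nat_lit 124077) (.g (nat_lit 3155) (.e (nat_lit 7263) (nat_lit 384) (.e (nat_lit 57412) (nat_lit 12) (.e (nat_lit 336219) (nat_lit 13) (.e (nat_lit 393301) (nat_lit 27) (.e (nat_lit 491558) (nat_lit 10) (.e (nat_lit 344095) (nat_lit 18) .nil)))))) (.g (nat_lit 6) .nil .nil)))) (.nd (nat_lit 5) 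
(.lf (nat_lit 124061) (.g (nat_lit 2606) (.e (nat_lit 7263) (nat_lit 384) (.e (nat_lit 57412) (nat_lit 12) (.e (nat_lit 336212) (nat_lit 13) (.e (nat_lit 393301) (nat_lit 27) (.e (nat_lit 491558) (nat_lit 10) (.e (nat_lit 344090) (nat_lit 18) .nil)))))) (.g (nat_lit 5) .nil .nil))) 
(.lf (nat_lit 124093) (.g (nat_lit 3816) (.e (nat_lit 7263) (nat_lit 384) (.e (nat_lit 57420) (nat_lit 13) (.e (nat_lit 344117) (nat_lit 21) (.e (nat_lit 516151) (nat_lit 9) (.e (nat_lit 426286) (nat_lit 10) (.e (nat_lit 434245) (nat_lit 28) (.e (nat_lit 573473) (nat_lit 12) (.e (nat_lit 57352) (nat_lit 0) .nil)))))))) (.g (nat_lit 0) .nil .nil))))))) 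
(.nd (nat_lit 2) (.nd (nat_lit 3) (.nd (nat_lit 4) (.nd (nat_lit 5) 
(.lf (nat_lit 124035) (.g (nat_lit 3297) (.e (nat_lit 7263) (nat_lit 384) (.e (nat_lit 57412) (nat_lit 12) (.e (nat_lit 336176) (nat_lit 10) (.e (nat_lit 344177) (nat_lit 43) (.e (nat_lit 770071) (nat_lit 8) (.e (nat_lit 65617) (nat_lit 10) (.e (nat_lit 344095) (nat_lit 18) .nil))))))) (.g (nat_lit 0) .nil .nil))) 
(.lf (nat_lit 124067) (.g (nat_lit 2878) (.e (nat_lit 7263) (nat_lit 384) (.e (nat_lit 57412) (nat_lit 12) (.e (nat_lit 336212) (nat_lit 13) (.e (nat_lit 393301) (nat_lit 27) (.e (nat_lit 491560) (nat_lit 10) (.e (nat_lit 344090) (nat_lit 18) .nil)))))) (.g (nat_lit 6) .nil .nil)))) (.nd (nat_lit 5) 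
(.lf (nat_lit 124051) (.g (nat_lit 2383) (.e (nat_lit 7263) (nat_lit 384) (.e (nat_lit 57412) (nat_lit 12) (.e (nat_lit 336212) (nat_lit 13) (.e (nat_lit 393234) (nat_lit 17) (.e (nat_lit 7593) (nat_lit 407) (.e (nat_lit 73730) (nat_lit 0) .nil)))))) (.g (nat_lit 6) .nil .nil))) 
(.lf (nat_lit 124083) (.g (nat_lit 1492) (.e (nat_lit 7263) (nat_lit 384) (.e (nat_lit 57419) (nat_lit 12) (.e (nat_lit 336213) (nat_lit 13) (.e (nat_lit 393231) (nat_lit 17) .nil)))) .nil)))) (.nd (nat_lit 4) (.nd (nat_lit 5) 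
(.lf (nat_lit 124043) (.g (nat_lit 2141) (.e (nat_lit 7263) (nat_lit 384) (.e (nat_lit 57412) (nat_lit 12) (.e (nat_lit 336212) (nat_lit 13) (.e (nat_lit 393232) (nat_lit 17) (.e (nat_lit 7591) (nat_lit 407) (.e (nat_lit 73730) (nat_lit 0) .nil)))))) (.g (nat_lit 0) .nil .nil))) 
(.lf (nat_lit 124075) (.g (nat_lit 2921) (.e (nat_lit 7263) (nat_lit 384) (.e (nat_lit 57412) (nat_lit 12) (.e (nat_lit 336219) (nat_lit 13) (.e (nat_lit 393301) (nat_lit 27) (.e (nat_lit 491558) (nat_lit 10) (.e (nat_lit 344090) (nat_lit 18) .nil)))))) (.g (nat_lit 5) .nil .nil)))) (.nd (nat_lit 5) 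
(.lf (nat_lit 124059) (.g (nat_lit 2450) (.e (nat_lit 7263) (nat_lit 384) (.e (nat_lit 57412) (nat_lit 12) (.e (nat_lit 336212) (nat_lit 13) (.e (nat_lit 393300) (nat_lit 27) (.e (nat_lit 491560) (nat_lit 10) (.e (nat_lit 344091) (nat_lit 18) .nil)))))) (.g (nat_lit 6) .nil .nil))) 
(.lf (nat_lit 124091) (.g (nat_lit 2370) (.e (nat_lit 7263) (nat_lit 384) (.e (nat_lit 57419) (nat_lit 12) (.e (nat_lit 336213) (nat_lit 13) (.e (nat_lit 393300) (nat_lit 27) (.e (nat_lit 491560) (nat_lit 10) (.e (nat_lit 344094) (nat_lit 18) .nil)))))) (.g (nat_lit 5) .nil .nil)))))) (.nd (nat_lit 3) (.nd (nat_lit 4) (.nd (nat_lit 5) 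
(.lf (nat_lit 124039) (.g (nat_lit 3232) (.e (nat_lit 7263) (nat_lit 384) (.e (nat_lit 57412) (nat_lit 12) (.e (nat_lit 336176) (nat_lit 10) (.e (nat_lit 344177) (nat_lit 43) (.e (nat_lit 770072) (nat_lit 8) (.e (nat_lit 65619) (nat_lit 10) (.e (nat_lit 344090) (nat_lit 18) .nil))))))) (.g (nat_lit 6) .nil .nil))) 
(.lf (nat_lit 124071) (.g (nat_lit 2224) (.e (nat_lit 7263) (nat_lit 384) (.e (nat_lit 57412) (nat_lit 12) (.e (nat_lit 336219) (nat_lit 13) (.e (nat_lit 393234) (nat_lit 17) (.e (nat_lit 7593) (nat_lit 407) (.e (nat_lit 73730) (nat_lit 0) .nil)))))) (.g (nat_lit 5) .nil .nil)))) (.nd (nat_lit 5) 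
(.lf (nat_lit 124055) (.g (nat_lit 2085) (.e (nat_lit 7263) (nat_lit 384) (.e (nat_lit 57412) (nat_lit 12) (.e (nat_lit 336212) (nat_lit 13) (.e (nat_lit 393300) (nat_lit 27) (.e (nat_lit 491558) (nat_lit 10) (.e (nat_lit 344090) (nat_lit 18) .nil)))))) (.g (nat_lit 5) .nil .nil))) 
(.lf (nat_lit 124087) (.g (nat_lit 2740) (.e (nat_lit 7263) (nat_lit 384) (.e (nat_lit 57419) (nat_lit 12) (.e (nat_lit 336213) (nat_lit 13) (.e (nat_lit 393233) (nat_lit 17) (.e (nat_lit 7593) (nat_lit 407) (.e (nat_lit 73729) (nat_lit 0) .nil)))))) (.g (nat_lit 6) .nil .nil))))) (.nd (nat_lit 4) (.nd (nat_lit 5) 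
(.lf (nat_lit 124047) (.g (nat_lit 2683) (.e (nat_lit 7263) (nat_lit 384) (.e (nat_lit 57412) (nat_lit 12) (.e (nat_lit 336212) (nat_lit 13) (.e (nat_lit 393233) (nat_lit 17) (.e (nat_lit 7593) (nat_lit 407) (.e (nat_lit 73729) (nat_lit 0) .nil)))))) (.g (nat_lit 0) .nil .nil))) 
(.lf (nat_lit 124079) (.g (nat_lit 3237) (.e (nat_lit 7263) (nat_lit 384) (.e (nat_lit 57412) (nat_lit 12) (.e (nat_lit 336219) (nat_lit 13) (.e (nat_lit 393301) (nat_lit 27) (.e (nat_lit 491560) (nat_lit 10) (.e (nat_lit 344090) (nat_lit 18) .nil)))))) (.g (nat_lit 5) .nil .nil)))) (.nd (nat_lit 5) 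
(.lf (nat_lit 124063) (.g (nat_lit 2982) (.e (nat_lit 7263) (nat_lit 384) (.e (nat_lit 57412) (nat_lit 12) (.e (nat_lit 336212) (nat_lit 13) (.e (nat_lit 393301) (nat_lit 27) (.e (nat_lit 491558) (nat_lit 10) (.e (nat_lit 344095) (nat_lit 18) .nil)))))) (.g (nat_lit 0) .nil .nil))) 
(.lf (nat_lit 124095) (.g (nat_lit 3796) (.e (nat_lit 7263) (nat_lit 384) (.e (nat_lit 57420) (nat_lit 13) (.e (nat_lit 344117) (nat_lit 21) (.e (nat_lit 516151) (nat_lit 9) (.e (nat_lit 426286) (nat_lit 10) (.e (nat_lit 434247) (nat_lit 28) (.e (nat_lit 573477) (nat_lit 12) (.e (nat_lit 57352) (nat_lit 0) .nil)))))))) (.g (nat_lit 0) .nil .nil)))))))))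

noncomputable def tv1660 : DT := (.nd (nat_lit 0) (.nd (nat_lit 1) (.nd (nat_lit 2) (.nd (nat_lit 3) (.nd (nat_lit 4) 
(.lf (nat_lit 124096) (.g (nat_lit 3498) (.e (nat_lit 7263) (nat_lit 384) (.e (nat_lit 57420) (nat_lit 13) (.e (nat_lit 344117) (nat_lit 21) (.e (nat_lit 516151) (nat_lit 9) (.e (nat_lit 426286) (nat_lit 10) (.e (nat_lit 434247) (nat_lit 28) (.e (nat_lit 573478) (nat_lit 12) (.e (nat_lit 57351) (nat_lit 0) .nil)))))))) (.g (nat_lit 0) .nil .nil))) 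
(.lf (nat_lit 124112) (.g (nat_lit 4188) (.e (nat_lit 7263) (nat_lit 384) (.e (nat_lit 57421) (nat_lit 13) (.e (nat_lit 344117) (nat_lit 21) (.e (nat_lit 516151) (nat_lit 9) (.e (nat_lit 426286) (nat_lit 10) (.e (nat_lit 434245) (nat_lit 28) (.e (nat_lit 573474) (nat_lit 12) (.e (nat_lit 57351) (nat_lit 0) .nil)))))))) (.g (nat_lit 0) .nil .nil)))) (.nd (nat_lit 4) 
(.lf (nat_lit 124104) (.g (nat_lit 2907) (.e (nat_lit 7263) (nat_lit 384) (.e (nat_lit 57420) (nat_lit 13) (.e (nat_lit 344117) (nat_lit 21) (.e (nat_lit 516165) (nat_lit 12) (.e (nat_lit 450586) (nat_lit 10) (.e (nat_lit 573478) (nat_lit 12) (.e (nat_lit 57351) (nat_lit 0) .nil))))))) (.g (nat_lit 0) .nil .nil))) 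
(.lf (nat_lit 124120) (.g (nat_lit 3347) (.e (nat_lit 7263) (nat_lit 384) (.e (nat_lit 57421) (nat_lit 13) (.e (nat_lit 344117) (nat_lit 21) (.e (nat_lit 516165) (nat_lit 12) (.e (nat_lit 450586) (nat_lit 10) (.e (nat_lit 573473) (nat_lit 12) (.e (nat_lit 57352) (nat_lit 0) .nil))))))) (.g (nat_lit 0) .nil .nil))))) (.nd (nat_lit 3) (.nd (nat_lit 4) 
(.lf (nat_lit 124100) (.g (nat_lit 3448) (.e (nat_lit 7263) (nat_lit 384) (.e (nat_lit 57420) (nat_lit 13) (.e (nat_lit 344117) (nat_lit 21) (.e (nat_lit 516165) (nat_lit 12) (.e (nat_lit 450586) (nat_lit 10) (.e (nat_lit 573473) (nat_lit 12) (.e (nat_lit 57348) (nat_lit 0) .nil))))))) (.g (nat_lit 7) .nil .nil))) 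
(.lf (nat_lit 124116) (.g (nat_lit 3820) (.e (nat_lit 7263) (nat_lit 384) (.e (nat_lit 57421) (nat_lit 13) (.e (nat_lit 344117) (nat_lit 21) (.e (nat_lit 516151) (nat_lit 9) (.e (nat_lit 426286) (nat_lit 10) (.e (nat_lit 434248) (nat_lit 28) (.e (nat_lit 573473) (nat_lit 12) (.e (nat_lit 57352) (nat_lit 0) .nil)))))))) (.g (nat_lit 0) .nil .nil)))) (.nd (nat_lit 4) 
(.lf (nat_lit 124108) (.g (nat_lit 3724) (.e (nat_lit 7263) (nat_lit 384) (.e (nat_lit 57420) (nat_lit 13) (.e (nat_lit 344117) (nat_lit 21) (.e (nat_lit 516166) (nat_lit 12) (.e (nat_lit 450588) (nat_lit 10) (.e (nat_lit 573473) (nat_lit 12) (.e (nat_lit 57352) (nat_lit 0) .nil))))))) (.g (nat_lit 0) .nil .nil))) 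
(.lf (nat_lit 124124) (.g (nat_lit 3091) (.e (nat_lit 7263) (nat_lit 384) (.e (nat_lit 57421) (nat_lit 13) (.e (nat_lit 344117) (nat_lit 21) (.e (nat_lit 516166) (nat_lit 12) (.e (nat_lit 450587) (nat_lit 10) (.e (nat_lit 573477) (nat_lit 12) (.e (nat_lit 57352) (nat_lit 0) .nil))))))) (.g (nat_lit 0) .nil .nil)))))) (.nd (nat_lit 2) (.nd (nat_lit 3) (.nd (nat_lit 4) 
(.lf (nat_lit 124098) (.g (nat_lit 3930) (.e (nat_lit 7263) (nat_lit 384) (.e (nat_lit 57420) (nat_lit 13) (.e (nat_lit 344117) (nat_lit 21) (.e (nat_lit 516151) (nat_lit 9) (.e (nat_lit 426286) (nat_lit 10) (.e (nat_lit 434248) (nat_lit 28) (.e (nat_lit 573473) (nat_lit 12) (.e (nat_lit 57352) (nat_lit 0) .nil)))))))) (.g (nat_lit 0) .nil .nil))) 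
(.lf (nat_lit 124114) (.g (nat_lit 3379) (.e (nat_lit 7263) (nat_lit 384) (.e (nat_lit 57421) (nat_lit 13) (.e (nat_lit 344117) (nat_lit 21) (.e (nat_lit 516151) (nat_lit 9) (.e (nat_lit 426286) (nat_lit 10) (.e (nat_lit 434247) (nat_lit 28) (.e (nat_lit 573478) (nat_lit 12) (.e (nat_lit 57351) (nat_lit 0) .nil)))))))) (.g (nat_lit 0) .nil .nil)))) (.nd (nat_lit 4) 
(.lf (nat_lit 124106) (.g (nat_lit 2910) (.e (nat_lit 7263) (nat_lit 384) (.e (nat_lit 57420) (nat_lit 13) (.e (nat_lit 344117) (nat_lit 21) (.e (nat_lit 516166) (nat_lit 12) (.e (nat_lit 450587) (nat_lit 10) (.e (nat_lit 573478) (nat_lit 12) (.e (nat_lit 57351) (nat_lit 0) .nil))))))) (.g (nat_lit 0) .nil .nil))) 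
(.lf (nat_lit 124122) (.g (nat_lit 3064) (.e (nat_lit 7263) (nat_lit 384) (.e (nat_lit 57421) (nat_lit 13) (.e (nat_lit 344117) (nat_lit 21) (.e (nat_lit 516165) (nat_lit 12) (.e (nat_lit 450586) (nat_lit 10) (.e (nat_lit 573477) (nat_lit 12) (.e (nat_lit 57352) (nat_lit 0) .nil))))))) (.g (nat_lit 0) .nil .nil))))) (.nd (nat_lit 3) (.nd (nat_lit 4) 
(.lf (nat_lit 124102) (.g (nat_lit 3491) (.e (nat_lit 7263) (nat_lit 384) (.e (nat_lit 57420) (nat_lit 13) (.e (nat_lit 344117) (nat_lit 21) (.e (nat_lit 516165) (nat_lit 12) (.e (nat_lit 450586) (nat_lit 10) (.e (nat_lit 573475) (nat_lit 12) (.e (nat_lit 57351) (nat_lit 0) .nil))))))) (.g (nat_lit 0) .nil .nil))) 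
(.lf (nat_lit 124118) (.g (nat_lit 4183) (.e (nat_lit 7263) (nat_lit 384) (.e (nat_lit 57421) (nat_lit 13) (.e (nat_lit 344117) (nat_lit 21) (.e (nat_lit 516151) (nat_lit 9) (.e (nat_lit 426286) (nat_lit 10) (.e (nat_lit 434248) (nat_lit 28) (.e (nat_lit 573475) (nat_lit 12) (.e (nat_lit 57351) (nat_lit 0) .nil)))))))) (.g (nat_lit 0) .nil .nil)))) (.nd (nat_lit 4) 
(.lf (nat_lit 124110) (.g (nat_lit 3777) (.e (nat_lit 7263) (nat_lit 384) (.e (nat_lit 57421) (nat_lit 13) (.e (nat_lit 344117) (nat_lit 21) (.e (nat_lit 516151) (nat_lit 9) (.e (nat_lit 426286) (nat_lit 10) (.e (nat_lit 434245) (nat_lit 28) (.e (nat_lit 573473) (nat_lit 12) (.e (nat_lit 57348) (nat_lit 0) .nil)))))))) (.g (nat_lit 8) .nil .nil))) 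
(.lf (nat_lit 124126) (.g (nat_lit 3822) (.e (nat_lit 7263) (nat_lit 384) (.e (nat_lit 57421) (nat_lit 13) (.e (nat_lit 344117) (nat_lit 21) (.e (nat_lit 516166) (nat_lit 12) (.e (nat_lit 450588) (nat_lit 10) (.e (nat_lit 573473) (nat_lit 12) (.e (nat_lit 57348) (nat_lit 0) .nil))))))) (.g (nat_lit 7) .nil .nil))))))) (.nd (nat_lit 1) (.nd (nat_lit 2) (.nd (nat_lit 3) (.nd (nat_lit 4) 
(.lf (nat_lit 124097) (.g (nat_lit 4020) (.e (nat_lit 7263) (nat_lit 384) (.e (nat_lit 57420) (nat_lit 13) (.e (nat_lit 344117) (nat_lit 21) (.e (nat_lit 516151) (nat_lit 9) (.e (nat_lit 426286) (nat_lit 10) (.e (nat_lit 434248) (nat_lit 28) (.e (nat_lit 573473) (nat_lit 12) (.e (nat_lit 57348) (nat_lit 0) .nil)))))))) (.g (nat_lit 8) .nil .nil))) 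
(.lf (nat_lit 124113) (.g (nat_lit 3681) (.e (nat_lit 7263) (nat_lit 384) (.e (nat_lit 57421) (nat_lit 13) (.e (nat_lit 344117) (nat_lit 21) (.e (nat_lit 516151) (nat_lit 9) (.e (nat_lit 426286) (nat_lit 10) (.e (nat_lit 434247) (nat_lit 28) (.e (nat_lit 573477) (nat_lit 12) (.e (nat_lit 57352) (nat_lit 0) .nil)))))))) (.g (nat_lit 0) .nil .nil)))) (.nd (nat_lit 4) 
(.lf (nat_lit 124105) (.g (nat_lit 3110) (.e (nat_lit 7263) (nat_lit 384) (.e (nat_lit 57420) (nat_lit 13) (.e (nat_lit 344117) (nat_lit 21) (.e (nat_lit 516166) (nat_lit 12) (.e (nat_lit 450587) (nat_lit 10) (.e (nat_lit 573477) (nat_lit 12) (.e (nat_lit 57352) (nat_lit 0) .nil))))))) (.g (nat_lit 0) .nil .nil))) 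
(.lf (nat_lit 124121) (.g (nat_lit 3483) (.e (nat_lit 7263) (nat_lit 384) (.e (nat_lit 57421) (nat_lit 13) (.e (nat_lit 344117) (nat_lit 21) (.e (nat_lit 516165) (nat_lit 12) (.e (nat_lit 450586) (nat_lit 10) (.e (nat_lit 573475) (nat_lit 12) (.e (nat_lit 57351) (nat_lit 0) .nil))))))) (.g (nat_lit 0) .nil .nil))))) (.nd (nat_lit 3) (.nd (nat_lit 4) 
(.lf (nat_lit 124101) (.g (nat_lit 3345) (.e (nat_lit 7263) (nat_lit 384) (.e (nat_lit 57420) (nat_lit 13) (.e (nat_lit 344117) (nat_lit 21) (.e (nat_lit 516165) (nat_lit 12) (.e (nat_lit 450586) (nat_lit 10) (.e (nat_lit 573473) (nat_lit 12) (.e (nat_lit 57352) (nat_lit 0) .nil))))))) (.g (nat_lit 0) .nil .nil))) 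
(.lf (nat_lit 124117) (.g (nat_lit 3978) (.e (nat_lit 7263) (nat_lit 384) (.e (nat_lit 57421) (nat_lit 13) (.e (nat_lit 344117) (nat_lit 21) (.e (nat_lit 516151) (nat_lit 9) (.e (nat_lit 426286) (nat_lit 10) (.e (nat_lit 434248) (nat_lit 28) (.e (nat_lit 573475) (nat_lit 12) (.e (nat_lit 57348) (nat_lit 0) .nil)))))))) (.g (nat_lit 7) .nil .nil)))) (.nd (nat_lit 4) 
(.lf (nat_lit 124109) (.g (nat_lit 3788) (.e (nat_lit 7263) (nat_lit 384) (.e (nat_lit 57420) (nat_lit 13) (.e (nat_lit 344117) (nat_lit 21) (.e (nat_lit 516166) (nat_lit 12) (.e (nat_lit 450588) (nat_lit 10) (.e (nat_lit 573475) (nat_lit 12) (.e (nat_lit 57351) (nat_lit 0) .nil))))))) (.g (nat_lit 0) .nil .nil))) 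
(.lf (nat_lit 124125) (.g (nat_lit 2887) (.e (nat_lit 7263) (nat_lit 384) (.e (nat_lit 57421) (nat_lit 13) (.e (nat_lit 344117) (nat_lit 21) (.e (nat_lit 516166) (nat_lit 12) (.e (nat_lit 450587) (nat_lit 10) (.e (nat_lit 573478) (nat_lit 12) (.e (nat_lit 57351) (nat_lit 0) .nil))))))) (.g (nat_lit 0) .nil .nil)))))) (.nd (nat_lit 2) (.nd (nat_lit 3) (.nd (nat_lit 4) 
(.lf (nat_lit 124099) (.g (nat_lit 4303) (.e (nat_lit 7263) (nat_lit 384) (.e (nat_lit 57420) (nat_lit 13) (.e (nat_lit 344117) (nat_lit 21) (.e (nat_lit 516151) (nat_lit 9) (.e (nat_lit 426286) (nat_lit 10) (.e (nat_lit 434248) (nat_lit 28) (.e (nat_lit 573475) (nat_lit 12) (.e (nat_lit 57351) (nat_lit 0) .nil)))))))) (.g (nat_lit 0) .nil .nil))) 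
(.lf (nat_lit 124115) (.g (nat_lit 3922) (.e (nat_lit 7263) (nat_lit 384) (.e (nat_lit 57421) (nat_lit 13) (.e (nat_lit 344117) (nat_lit 21) (.e (nat_lit 516151) (nat_lit 9) (.e (nat_lit 426286) (nat_lit 10) (.e (nat_lit 434248) (nat_lit 28) (.e (nat_lit 573473) (nat_lit 12) (.e (nat_lit 57348) (nat_lit 0) .nil)))))))) (.g (nat_lit 8) .nil .nil)))) (.nd (nat_lit 4) 
(.lf (nat_lit 124107) (.g (nat_lit 3822) (.e (nat_lit 7263) (nat_lit 384) (.e (nat_lit 57420) (nat_lit 13) (.e (nat_lit 344117) (nat_lit 21) (.e (nat_lit 516166) (nat_lit 12) (.e (nat_lit 450588) (nat_lit 10) (.e (nat_lit 573473) (nat_lit 12) (.e (nat_lit 57348) (nat_lit 0) .nil))))))) (.g (nat_lit 7) .nil .nil))) 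
(.lf (nat_lit 124123) (.g (nat_lit 2900) (.e (nat_lit 7263) (nat_lit 384) (.e (nat_lit 57421) (nat_lit 13) (.e (nat_lit 344117) (nat_lit 21) (.e (nat_lit 516165) (nat_lit 12) (.e (nat_lit 450586) (nat_lit 10) (.e (nat_lit 573478) (nat_lit 12) (.e (nat_lit 57351) (nat_lit 0) .nil))))))) (.g (nat_lit 0) .nil .nil))))) (.nd (nat_lit 3) (.nd (nat_lit 4) 
(.lf (nat_lit 124103) (.g (nat_lit 3067) (.e (nat_lit 7263) (nat_lit 384) (.e (nat_lit 57420) (nat_lit 13) (.e (nat_lit 344117) (nat_lit 21) (.e (nat_lit 516165) (nat_lit 12) (.e (nat_lit 450586) (nat_lit 10) (.e (nat_lit 573477) (nat_lit 12) (.e (nat_lit 57352) (nat_lit 0) .nil))))))) (.g (nat_lit 0) .nil .nil))) 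
(.lf (nat_lit 124119) (.g (nat_lit 3462) (.e (nat_lit 7263) (nat_lit 384) (.e (nat_lit 57421) (nat_lit 13) (.e (nat_lit 344117) (nat_lit 21) (.e (nat_lit 516165) (nat_lit 12) (.e (nat_lit 450586) (nat_lit 10) (.e (nat_lit 573473) (nat_lit 12) (.e (nat_lit 57348) (nat_lit 0) .nil))))))) (.g (nat_lit 7) .nil .nil)))) (.nd (nat_lit 4) 
(.lf (nat_lit 124111) (.g (nat_lit 3706) (.e (nat_lit 7263) (nat_lit 384) (.e (nat_lit 57421) (nat_lit 13) (.e (nat_lit 344117) (nat_lit 21) (.e (nat_lit 516151) (nat_lit 9) (.e (nat_lit 426286) (nat_lit 10) (.e (nat_lit 434245) (nat_lit 28) (.e (nat_lit 573473) (nat_lit 12) (.e (nat_lit 57352) (nat_lit 0) .nil)))))))) (.g (nat_lit 0) .nil .nil))) 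
(.lf (nat_lit 124127) (.g (nat_lit 3712) (.e (nat_lit 7263) (nat_lit 384) (.e (nat_lit 57421) (nat_lit 13) (.e (nat_lit 344117) (nat_lit 21) (.e (nat_lit 516166) (nat_lit 12) (.e (nat_lit 450588) (nat_lit 10) (.e (nat_lit 573473) (nat_lit 12) (.e (nat_lit 57352) (nat_lit 0) .nil))))))) (.g (nat_lit 0) .nil .nil))))))))

noncomputable def tv1661 : DT := (.nd (nat_lit 0) (.nd (nat_lit 1) (.nd (nat_lit 2) (.nd (nat_lit 3) (.nd (nat_lit 4) 
(.lf (nat_lit 124128) (.g (nat_lit 3766) (.e (nat_lit 7263) (nat_lit 384) (.e (nat_lit 57421) (nat_lit 13) (.e (nat_lit 344117) (nat_lit 21) (.e (nat_lit 516166) (nat_lit 12) (.e (nat_lit 450588) (nat_lit 10) (.e (nat_lit 573475) (nat_lit 12) (.e (nat_lit 57351) (nat_lit 0) .nil))))))) (.g (nat_lit 0) .nil .nil))) 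
(.lf (nat_lit 124144) (.g (nat_lit 2465) (.e (nat_lit 7263) (nat_lit 384) (.e (nat_lit 57423) (nat_lit 14) (.e (nat_lit 352277) (nat_lit 11) (.e (nat_lit 426010) (nat_lit 0) (.e (nat_lit 7593) (nat_lit 407) (.e (nat_lit 73730) (nat_lit 0) .nil)))))) (.g (nat_lit 6) .nil .nil)))) (.nd (nat_lit 4) 
(.lf (nat_lit 124136) (.g (nat_lit 1964) (.e (nat_lit 7263) (nat_lit 384) (.e (nat_lit 57423) (nat_lit 14) (.e (nat_lit 352276) (nat_lit 11) (.e (nat_lit 425984) (nat_lit 0) (.e (nat_lit 7592) (nat_lit 407) (.e (nat_lit 73729) (nat_lit 0) .nil)))))) (.g (nat_lit 0) .nil .nil))) 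
(.lf (nat_lit 124152) (.g (nat_lit 3375) (.e (nat_lit 7263) (nat_lit 384) (.e (nat_lit 57423) (nat_lit 14) (.e (nat_lit 352277) (nat_lit 11) (.e (nat_lit 426012) (nat_lit 0) (.e (nat_lit 7593) (nat_lit 407) (.e (nat_lit 73729) (nat_lit 0) .nil)))))) (.g (nat_lit 0) .nil .nil))))) (.nd (nat_lit 3) (.nd (nat_lit 4) 
(.lf (nat_lit 124132) (.g (nat_lit 1366) (.e (nat_lit 7263) (nat_lit 384) (.e (nat_lit 57423) (nat_lit 14) (.e (nat_lit 352271) (nat_lit 9) (.e (nat_lit 409602) (nat_lit 0) (.e (nat_lit 5407) (nat_lit 303) (.e (nat_lit 73730) (nat_lit 0) .nil)))))) (.g (nat_lit 4) .nil .nil))) 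
(.lf (nat_lit 124148) (.g (nat_lit 2162) (.e (nat_lit 7263) (nat_lit 384) (.e (nat_lit 57423) (nat_lit 14) (.e (nat_lit 352277) (nat_lit 11) (.e (nat_lit 426011) (nat_lit 0) (.e (nat_lit 7593) (nat_lit 407) (.e (nat_lit 73731) (nat_lit 0) .nil)))))) (.g (nat_lit 4) .nil .nil)))) (.nd (nat_lit 4) 
(.lf (nat_lit 124140) (.g (nat_lit 2232) (.e (nat_lit 7263) (nat_lit 384) (.e (nat_lit 57423) (nat_lit 14) (.e (nat_lit 352277) (nat_lit 11) (.e (nat_lit 426009) (nat_lit 0) (.e (nat_lit 7591) (nat_lit 407) (.e (nat_lit 73730) (nat_lit 0) .nil)))))) (.g (nat_lit 0) .nil .nil))) 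
(.lf (nat_lit 124156) (.g (nat_lit 3082) (.e (nat_lit 7263) (nat_lit 384) (.e (nat_lit 57423) (nat_lit 14) (.e (nat_lit 352277) (nat_lit 11) (.e (nat_lit 426342) (nat_lit 14) (.e (nat_lit 491560) (nat_lit 10) (.e (nat_lit 344091) (nat_lit 18) .nil)))))) (.g (nat_lit 6) .nil .nil)))))) (.nd (nat_lit 2) (.nd (nat_lit 3) (.nd (nat_lit 4) 
(.lf (nat_lit 124130) (.g (nat_lit 1883) (.e (nat_lit 7263) (nat_lit 384) (.e (nat_lit 57423) (nat_lit 14) (.e (nat_lit 352258) (nat_lit 0) (.e (nat_lit 7088) (nat_lit 379) (.e (nat_lit 123214) (nat_lit 275) (.e (nat_lit 73729) (nat_lit 0) .nil)))))) (.g (nat_lit 0) .nil .nil))) 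
(.lf (nat_lit 124146) (.g (nat_lit 3260) (.e (nat_lit 7263) (nat_lit 384) (.e (nat_lit 57423) (nat_lit 14) (.e (nat_lit 352277) (nat_lit 11) (.e (nat_lit 426011) (nat_lit 0) (.e (nat_lit 7591) (nat_lit 407) (.e (nat_lit 73730) (nat_lit 0) .nil)))))) (.g (nat_lit 0) .nil .nil)))) (.nd (nat_lit 4) 
(.lf (nat_lit 124138) (.g (nat_lit 1924) (.e (nat_lit 7263) (nat_lit 384) (.e (nat_lit 57423) (nat_lit 14) (.e (nat_lit 352276) (nat_lit 11) (.e (nat_lit 425989) (nat_lit 0) (.e (nat_lit 7592) (nat_lit 407) (.e (nat_lit 73729) (nat_lit 0) .nil)))))) (.g (nat_lit 0) .nil .nil))) 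
(.lf (nat_lit 124154) (.g (nat_lit 1732) (.e (nat_lit 7263) (nat_lit 384) (.e (nat_lit 57423) (nat_lit 14) (.e (nat_lit 352277) (nat_lit 11) (.e (nat_lit 426012) (nat_lit 0) (.e (nat_lit 7593) (nat_lit 407) (.e (nat_lit 73731) (nat_lit 0) .nil)))))) (.g (nat_lit 4) .nil .nil))))) (.nd (nat_lit 3) (.nd (nat_lit 4) 
(.lf (nat_lit 124134) (.g (nat_lit 1942) (.e (nat_lit 7263) (nat_lit 384) (.e (nat_lit 57423) (nat_lit 14) (.e (nat_lit 352271) (nat_lit 9) (.e (nat_lit 409604) (nat_lit 0) (.e (nat_lit 5411) (nat_lit 303) (.e (nat_lit 73729) (nat_lit 0) .nil)))))) (.g (nat_lit 0) .nil .nil))) 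
(.lf (nat_lit 124150) (.g (nat_lit 2774) (.e (nat_lit 7263) (nat_lit 384) (.e (nat_lit 57423) (nat_lit 14) (.e (nat_lit 352277) (nat_lit 11) (.e (nat_lit 426012) (nat_lit 0) (.e (nat_lit 7591) (nat_lit 407) (.e (nat_lit 73730) (nat_lit 0) .nil)))))) (.g (nat_lit 0) .nil .nil)))) (.nd (nat_lit 4) 
(.lf (nat_lit 124142) (.g (nat_lit 2388) (.e (nat_lit 7263) (nat_lit 384) (.e (nat_lit 57423) (nat_lit 14) (.e (nat_lit 352277) (nat_lit 11) (.e (nat_lit 426010) (nat_lit 0) (.e (nat_lit 7591) (nat_lit 407) (.e (nat_lit 73730) (nat_lit 0) .nil)))))) (.g (nat_lit 0) .nil .nil))) 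
(.lf (nat_lit 124158) (.g (nat_lit 2329) (.e (nat_lit 7263) (nat_lit 384) (.e (nat_lit 57423) (nat_lit 14) (.e (nat_lit 352277) (nat_lit 11) (.e (nat_lit 426342) (nat_lit 14) (.e (nat_lit 491560) (nat_lit 10) (.e (nat_lit 344095) (nat_lit 18) .nil)))))) (.g (nat_lit 5) .nil .nil))))))) (.nd (nat_lit 1) (.nd (nat_lit 2) (.nd (nat_lit 3) (.nd (nat_lit 4) 
(.lf (nat_lit 124129) (.g (nat_lit 1831) (.e (nat_lit 7263) (nat_lit 384) (.e (nat_lit 57423) (nat_lit 14) (.e (nat_lit 352258) (nat_lit 0) (.e (nat_lit 7086) (nat_lit 379) (.e (nat_lit 123214) (nat_lit 275) (.e (nat_lit 73729) (nat_lit 0) .nil)))))) (.g (nat_lit 0) .nil .nil))) 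
(.lf (nat_lit 124145) (.g (nat_lit 3455) (.e (nat_lit 7263) (nat_lit 384) (.e (nat_lit 57423) (nat_lit 14) (.e (nat_lit 352277) (nat_lit 11) (.e (nat_lit 426011) (nat_lit 0) (.e (nat_lit 7591) (nat_lit 407) (.e (nat_lit 73729) (nat_lit 0) .nil)))))) (.g (nat_lit 6) .nil .nil)))) (.nd (nat_lit 4) 
(.lf (nat_lit 124137) (.g (nat_lit 1929) (.e (nat_lit 7263) (nat_lit 384) (.e (nat_lit 57423) (nat_lit 14) (.e (nat_lit 352276) (nat_lit 11) (.e (nat_lit 425987) (nat_lit 0) (.e (nat_lit 7592) (nat_lit 407) (.e (nat_lit 73729) (nat_lit 0) .nil)))))) (.g (nat_lit 0) .nil .nil))) 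
(.lf (nat_lit 124153) (.g (nat_lit 2903) (.e (nat_lit 7263) (nat_lit 384) (.e (nat_lit 57423) (nat_lit 14) (.e (nat_lit 352277) (nat_lit 11) (.e (nat_lit 426012) (nat_lit 0) (.e (nat_lit 7593) (nat_lit 407) (.e (nat_lit 73730) (nat_lit 0) .nil)))))) (.g (nat_lit 6) .nil .nil))))) (.nd (nat_lit 3) (.nd (nat_lit 4) 
(.lf (nat_lit 124133) (.g (nat_lit 2324) (.e (nat_lit 7263) (nat_lit 384) (.e (nat_lit 57423) (nat_lit 14) (.e (nat_lit 352271) (nat_lit 9) (.e (nat_lit 409602) (nat_lit 0) (.e (nat_lit 5411) (nat_lit 303) (.e (nat_lit 73729) (nat_lit 0) .nil)))))) (.g (nat_lit 0) .nil .nil))) 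
(.lf (nat_lit 124149) (.g (nat_lit 2917) (.e (nat_lit 7263) (nat_lit 384) (.e (nat_lit 57423) (nat_lit 14) (.e (nat_lit 352277) (nat_lit 11) (.e (nat_lit 426012) (nat_lit 0) (.e (nat_lit 7591) (nat_lit 407) (.e (nat_lit 73729) (nat_lit 0) .nil)))))) (.g (nat_lit 6) .nil .nil)))) (.nd (nat_lit 4) 
(.lf (nat_lit 124141) (.g (nat_lit 2792) (.e (nat_lit 7263) (nat_lit 384) (.e (nat_lit 57423) (nat_lit 14) (.e (nat_lit 352277) (nat_lit 11) (.e (nat_lit 426009) (nat_lit 0) (.e (nat_lit 7593) (nat_lit 407) (.e (nat_lit 73729) (nat_lit 0) .nil)))))) (.g (nat_lit 0) .nil .nil))) 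
(.lf (nat_lit 124157) (.g (nat_lit 2865) (.e (nat_lit 7263) (nat_lit 384) (.e (nat_lit 57423) (nat_lit 14) (.e (nat_lit 352277) (nat_lit 11) (.e (nat_lit 426342) (nat_lit 14) (.e (nat_lit 491560) (nat_lit 10) (.e (nat_lit 344094) (nat_lit 18) .nil)))))) (.g (nat_lit 6) .nil .nil)))))) (.nd (nat_lit 2) (.nd (nat_lit 3) (.nd (nat_lit 4) 
(.lf (nat_lit 124131) (.g (nat_lit 1903) (.e (nat_lit 7263) (nat_lit 384) (.e (nat_lit 57423) (nat_lit 14) (.e (nat_lit 352258) (nat_lit 0) (.e (nat_lit 7089) (nat_lit 379) (.e (nat_lit 123214) (nat_lit 275) (.e (nat_lit 73729) (nat_lit 0) .nil)))))) (.g (nat_lit 0) .nil .nil))) 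
(.lf (nat_lit 124147) (.g (nat_lit 3813) (.e (nat_lit 7263) (nat_lit 384) (.e (nat_lit 57423) (nat_lit 14) (.e (nat_lit 352277) (nat_lit 11) (.e (nat_lit 426011) (nat_lit 0) (.e (nat_lit 7593) (nat_lit 407) (.e (nat_lit 73729) (nat_lit 0) .nil)))))) (.g (nat_lit 0) .nil .nil)))) (.nd (nat_lit 4) 
(.lf (nat_lit 124139) (.g (nat_lit 1889) (.e (nat_lit 7263) (nat_lit 384) (.e (nat_lit 57423) (nat_lit 14) (.e (nat_lit 352276) (nat_lit 11) (.e (nat_lit 425990) (nat_lit 0) (.e (nat_lit 7592) (nat_lit 407) (.e (nat_lit 73729) (nat_lit 0) .nil)))))) (.g (nat_lit 0) .nil .nil))) 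
(.lf (nat_lit 124155) (.g (nat_lit 3097) (.e (nat_lit 7263) (nat_lit 384) (.e (nat_lit 57423) (nat_lit 14) (.e (nat_lit 352277) (nat_lit 11) (.e (nat_lit 426342) (nat_lit 14) (.e (nat_lit 491558) (nat_lit 10) (.e (nat_lit 344096) (nat_lit 18) .nil)))))) (.g (nat_lit 0) .nil .nil))))) (.nd (nat_lit 3) (.nd (nat_lit 4) 
(.lf (nat_lit 124135) (.g (nat_lit 357) (.e (nat_lit 7263) (nat_lit 384) (.e (nat_lit 57423) (nat_lit 14) (.e (nat_lit 352276) (nat_lit 11) .nil))) .nil)) 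
(.lf (nat_lit 124151) (.g (nat_lit 1860) (.e (nat_lit 7263) (nat_lit 384) (.e (nat_lit 57423) (nat_lit 14) (.e (nat_lit 352277) (nat_lit 11) (.e (nat_lit 426012) (nat_lit 0) (.e (nat_lit 7591) (nat_lit 407) (.e (nat_lit 73731) (nat_lit 0) .nil)))))) (.g (nat_lit 4) .nil .nil)))) (.nd (nat_lit 4) 
(.lf (nat_lit 124143) (.g (nat_lit 2947) (.e (nat_lit 7263) (nat_lit 384) (.e (nat_lit 57423) (nat_lit 14) (.e (nat_lit 352277) (nat_lit 11) (.e (nat_lit 426010) (nat_lit 0) (.e (nat_lit 7593) (nat_lit 407) (.e (nat_lit 73729) (nat_lit 0) .nil)))))) (.g (nat_lit 0) .nil .nil))) 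
(.lf (nat_lit 124159) (.g (nat_lit 3071) (.e (nat_lit 7263) (nat_lit 384) (.e (nat_lit 57423) (nat_lit 14) (.e (nat_lit 352277) (nat_lit 11) (.e (nat_lit 426343) (nat_lit 14) (.e (nat_lit 491558) (nat_lit 10) (.e (nat_lit 344090) (nat_lit 18) .nil)))))) (.g (nat_lit 6) .nil .nil))))))))

noncomputable def tv1662 : DT := (.nd (nat_lit 0) (.nd (nat_lit 1) (.nd (nat_lit 2) (.nd (nat_lit 3) (.nd (nat_lit 4) (.nd (nat_lit 5) 
(.lf (nat_lit 124160) (.g (nat_lit 3771) (.e (nat_lit 7263) (nat_lit 384) (.e (nat_lit 57423) (nat_lit 14) (.e (nat_lit 352277) (nat_lit 11) (.e (nat_lit 426343) (nat_lit 14) (.e (nat_lit 491558) (nat_lit 10) (.e (nat_lit 344096) (nat_lit 18) .nil)))))) (.g (nat_lit 0) .nil .nil))) 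
(.lf (nat_lit 124192) (.g (nat_lit 2704) (.e (nat_lit 7263) (nat_lit 384) (.e (nat_lit 57424) (nat_lit 14) (.e (nat_lit 352277) (nat_lit 11) (.e (nat_lit 426342) (nat_lit 14) (.e (nat_lit 491560) (nat_lit 10) (.e (nat_lit 344094) (nat_lit 18) .nil)))))) (.g (nat_lit 6) .nil .nil)))) (.nd (nat_lit 5) 
(.lf (nat_lit 124176) (.g (nat_lit 2685) (.e (nat_lit 7263) (nat_lit 384) (.e (nat_lit 57424) (nat_lit 14) (.e (nat_lit 352277) (nat_lit 11) (.e (nat_lit 426009) (nat_lit 0) (.e (nat_lit 7593) (nat_lit 407) (.e (nat_lit 73729) (nat_lit 0) .nil)))))) (.g (nat_lit 0) .nil .nil))) 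
(.lf (nat_lit 124208) (.g (nat_lit 2639) (.e (nat_lit 7263) (nat_lit 384) (.e (nat_lit 57424) (nat_lit 14) (.e (nat_lit 352277) (nat_lit 11) (.e (nat_lit 426344) (nat_lit 14) (.e (nat_lit 491560) (nat_lit 10) (.e (nat_lit 344095) (nat_lit 18) .nil)))))) (.g (nat_lit 5) .nil .nil))))) (.nd (nat_lit 4) (.nd (nat_lit 5) 
(.lf (nat_lit 124168) (.g (nat_lit 2813) (.e (nat_lit 7263) (nat_lit 384) (.e (nat_lit 57423) (nat_lit 14) (.e (nat_lit 352277) (nat_lit 11) (.e (nat_lit 426344) (nat_lit 14) (.e (nat_lit 491560) (nat_lit 10) (.e (nat_lit 344095) (nat_lit 18) .nil)))))) (.g (nat_lit 5) .nil .nil))) 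
(.lf (nat_lit 124200) (.g (nat_lit 2868) (.e (nat_lit 7263) (nat_lit 384) (.e (nat_lit 57424) (nat_lit 14) (.e (nat_lit 352277) (nat_lit 11) (.e (nat_lit 426343) (nat_lit 14) (.e (nat_lit 491560) (nat_lit 10) (.e (nat_lit 344096) (nat_lit 18) .nil)))))) (.g (nat_lit 5) .nil .nil)))) (.nd (nat_lit 5) 
(.lf (nat_lit 124184) (.g (nat_lit 2597) (.e (nat_lit 7263) (nat_lit 384) (.e (nat_lit 57424) (nat_lit 14) (.e (nat_lit 352277) (nat_lit 11) (.e (nat_lit 426012) (nat_lit 0) (.e (nat_lit 7591) (nat_lit 407) (.e (nat_lit 73730) (nat_lit 0) .nil)))))) (.g (nat_lit 0) .nil .nil))) 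
(.lf (nat_lit 124216) (.g (nat_lit 2802) (.e (nat_lit 7263) (nat_lit 384) (.e (nat_lit 57424) (nat_lit 14) (.e (nat_lit 352322) (nat_lit 26) (.e (nat_lit 147495) (nat_lit 11) (.e (nat_lit 24640) (nat_lit 10) (.e (nat_lit 344090) (nat_lit 18) .nil)))))) (.g (nat_lit 5) .nil .nil)))))) (.nd (nat_lit 3) (.nd (nat_lit 4) (.nd (nat_lit 5) 
(.lf (nat_lit 124164) (.g (nat_lit 3287) (.e (nat_lit 7263) (nat_lit 384) (.e (nat_lit 57423) (nat_lit 14) (.e (nat_lit 352277) (nat_lit 11) (.e (nat_lit 426343) (nat_lit 14) (.e (nat_lit 491560) (nat_lit 10) (.e (nat_lit 344096) (nat_lit 18) .nil)))))) (.g (nat_lit 6) .nil .nil))) 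
(.lf (nat_lit 124196) (.g (nat_lit 3354) (.e (nat_lit 7263) (nat_lit 384) (.e (nat_lit 57424) (nat_lit 14) (.e (nat_lit 352277) (nat_lit 11) (.e (nat_lit 426343) (nat_lit 14) (.e (nat_lit 491558) (nat_lit 10) (.e (nat_lit 344096) (nat_lit 18) .nil)))))) (.g (nat_lit 6) .nil .nil)))) (.nd (nat_lit 5) 
(.lf (nat_lit 124180) (.g (nat_lit 3352) (.e (nat_lit 7263) (nat_lit 384) (.e (nat_lit 57424) (nat_lit 14) (.e (nat_lit 352277) (nat_lit 11) (.e (nat_lit 426011) (nat_lit 0) (.e (nat_lit 7591) (nat_lit 407) (.e (nat_lit 73729) (nat_lit 0) .nil)))))) (.g (nat_lit 6) .nil .nil))) 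
(.lf (nat_lit 124212) (.g (nat_lit 1327) (.e (nat_lit 7263) (nat_lit 384) (.e (nat_lit 57424) (nat_lit 14) (.e (nat_lit 352309) (nat_lit 21) (.e (nat_lit 57680) (nat_lit 155) .nil)))) .nil)))) (.nd (nat_lit 4) (.nd (nat_lit 5) 
(.lf (nat_lit 124172) (.g (nat_lit 543) (.e (nat_lit 7263) (nat_lit 384) (.e (nat_lit 57424) (nat_lit 14) (.e (nat_lit 352273) (nat_lit 11) .nil))) .nil)) 
(.lf (nat_lit 124204) (.g (nat_lit 3187) (.e (nat_lit 7263) (nat_lit 384) (.e (nat_lit 57424) (nat_lit 14) (.e (nat_lit 352277) (nat_lit 11) (.e (nat_lit 426344) (nat_lit 14) (.e (nat_lit 491558) (nat_lit 10) (.e (nat_lit 344096) (nat_lit 18) .nil)))))) (.g (nat_lit 6) .nil .nil)))) (.nd (nat_lit 5) 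
(.lf (nat_lit 124188) (.g (nat_lit 2451) (.e (nat_lit 7263) (nat_lit 384) (.e (nat_lit 57424) (nat_lit 14) (.e (nat_lit 352277) (nat_lit 11) (.e (nat_lit 426342) (nat_lit 14) (.e (nat_lit 491558) (nat_lit 10) (.e (nat_lit 344095) (nat_lit 18) .nil)))))) (.g (nat_lit 0) .nil .nil))) 
(.lf (nat_lit 124220) (.g (nat_lit 1967) (.e (nat_lit 7263) (nat_lit 384) (.e (nat_lit 57424) (nat_lit 14) (.e (nat_lit 352322) (nat_lit 26) (.e (nat_lit 147496) (nat_lit 11) (.e (nat_lit 24639) (nat_lit 10) (.e (nat_lit 344096) (nat_lit 18) .nil)))))) (.g (nat_lit 4) .nil .nil))))))) (.nd (nat_lit 2) (.nd (nat_lit 3) (.nd (nat_lit 4) (.nd (nat_lit 5) 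
(.lf (nat_lit 124162) (.g (nat_lit 3238) (.e (nat_lit 7263) (nat_lit 384) (.e (nat_lit 57423) (nat_lit 14) (.e (nat_lit 352277) (nat_lit 11) (.e (nat_lit 426343) (nat_lit 14) (.e (nat_lit 491560) (nat_lit 10) (.e (nat_lit 344094) (nat_lit 18) .nil)))))) (.g (nat_lit 6) .nil .nil))) 
(.lf (nat_lit 124194) (.g (nat_lit 3535) (.e (nat_lit 7263) (nat_lit 384) (.e (nat_lit 57424) (nat_lit 14) (.e (nat_lit 352277) (nat_lit 11) (.e (nat_lit 426343) (nat_lit 14) (.e (nat_lit 491558) (nat_lit 10) (.e (nat_lit 344091) (nat_lit 18) .nil)))))) (.g (nat_lit 6) .nil .nil)))) (.nd (nat_lit 5) 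
(.lf (nat_lit 124178) (.g (nat_lit 2845) (.e (nat_lit 7263) (nat_lit 384) (.e (nat_lit 57424) (nat_lit 14) (.e (nat_lit 352277) (nat_lit 11) (.e (nat_lit 426010) (nat_lit 0) (.e (nat_lit 7593) (nat_lit 407) (.e (nat_lit 73729) (nat_lit 0) .nil)))))) (.g (nat_lit 0) .nil .nil))) 
(.lf (nat_lit 124210) (.g (nat_lit 563) (.e (nat_lit 7263) (nat_lit 384) (.e (nat_lit 57424) (nat_lit 14) (.e (nat_lit 352302) (nat_lit 20) .nil))) .nil)))) (.nd (nat_lit 4) (.nd (nat_lit 5) 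
(.lf (nat_lit 124170) (.g (nat_lit 543) (.e (nat_lit 7263) (nat_lit 384) (.e (nat_lit 57424) (nat_lit 14) (.e (nat_lit 352256) (nat_lit 0) .nil))) .nil)) 
(.lf (nat_lit 124202) (.g (nat_lit 3366) (.e (nat_lit 7263) (nat_lit 384) (.e (nat_lit 57424) (nat_lit 14) (.e (nat_lit 352277) (nat_lit 11) (.e (nat_lit 426344) (nat_lit 14) (.e (nat_lit 491558) (nat_lit 10) (.e (nat_lit 344091) (nat_lit 18) .nil)))))) (.g (nat_lit 6) .nil .nil)))) (.nd (nat_lit 5) 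
(.lf (nat_lit 124186) (.g (nat_lit 2722) (.e (nat_lit 7263) (nat_lit 384) (.e (nat_lit 57424) (nat_lit 14) (.e (nat_lit 352277) (nat_lit 11) (.e (nat_lit 426012) (nat_lit 0) (.e (nat_lit 7593) (nat_lit 407) (.e (nat_lit 73730) (nat_lit 0) .nil)))))) (.g (nat_lit 6) .nil .nil))) 
(.lf (nat_lit 124218) (.g (nat_lit 2083) (.e (nat_lit 7263) (nat_lit 384) (.e (nat_lit 57424) (nat_lit 14) (.e (nat_lit 352322) (nat_lit 26) (.e (nat_lit 147496) (nat_lit 11) (.e (nat_lit 24639) (nat_lit 10) (.e (nat_lit 344090) (nat_lit 18) .nil)))))) (.g (nat_lit 4) .nil .nil)))))) (.nd (nat_lit 3) (.nd (nat_lit 4) (.nd (nat_lit 5) 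
(.lf (nat_lit 124166) (.g (nat_lit 3556) (.e (nat_lit 7263) (nat_lit 384) (.e (nat_lit 57423) (nat_lit 14) (.e (nat_lit 352277) (nat_lit 11) (.e (nat_lit 426344) (nat_lit 14) (.e (nat_lit 491558) (nat_lit 10) (.e (nat_lit 344096) (nat_lit 18) .nil)))))) (.g (nat_lit 0) .nil .nil))) 
(.lf (nat_lit 124198) (.g (nat_lit 3177) (.e (nat_lit 7263) (nat_lit 384) (.e (nat_lit 57424) (nat_lit 14) (.e (nat_lit 352277) (nat_lit 11) (.e (nat_lit 426343) (nat_lit 14) (.e (nat_lit 491560) (nat_lit 10) (.e (nat_lit 344091) (nat_lit 18) .nil)))))) (.g (nat_lit 6) .nil .nil)))) (.nd (nat_lit 5) 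
(.lf (nat_lit 124182) (.g (nat_lit 3704) (.e (nat_lit 7263) (nat_lit 384) (.e (nat_lit 57424) (nat_lit 14) (.e (nat_lit 352277) (nat_lit 11) (.e (nat_lit 426011) (nat_lit 0) (.e (nat_lit 7593) (nat_lit 407) (.e (nat_lit 73729) (nat_lit 0) .nil)))))) (.g (nat_lit 0) .nil .nil))) 
(.lf (nat_lit 124214) (.g (nat_lit 2785) (.e (nat_lit 7263) (nat_lit 384) (.e (nat_lit 57424) (nat_lit 14) (.e (nat_lit 352322) (nat_lit 26) (.e (nat_lit 147495) (nat_lit 11) (.e (nat_lit 24639) (nat_lit 10) (.e (nat_lit 344095) (nat_lit 18) .nil)))))) (.g (nat_lit 5) .nil .nil))))) (.nd (nat_lit 4) (.nd (nat_lit 5) 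
(.lf (nat_lit 124174) (.g (nat_lit 1351) (.e (nat_lit 7263) (nat_lit 384) (.e (nat_lit 57424) (nat_lit 14) (.e (nat_lit 352276) (nat_lit 11) (.e (nat_lit 425984) (nat_lit 0) (.e (nat_lit 7590) (nat_lit 407) (.e (nat_lit 73730) (nat_lit 0) .nil)))))) (.g (nat_lit 6) .nil .nil))) 
(.lf (nat_lit 124206) (.g (nat_lit 2972) (.e (nat_lit 7263) (nat_lit 384) (.e (nat_lit 57424) (nat_lit 14) (.e (nat_lit 352277) (nat_lit 11) (.e (nat_lit 426344) (nat_lit 14) (.e (nat_lit 491560) (nat_lit 10) (.e (nat_lit 344091) (nat_lit 18) .nil)))))) (.g (nat_lit 6) .nil .nil)))) (.nd (nat_lit 5) 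
(.lf (nat_lit 124190) (.g (nat_lit 2758) (.e (nat_lit 7263) (nat_lit 384) (.e (nat_lit 57424) (nat_lit 14) (.e (nat_lit 352277) (nat_lit 11) (.e (nat_lit 426342) (nat_lit 14) (.e (nat_lit 491560) (nat_lit 10) (.e (nat_lit 344090) (nat_lit 18) .nil)))))) (.g (nat_lit 6) .nil .nil))) 
(.lf (nat_lit 124222) (.g (nat_lit 1966) (.e (nat_lit 7263) (nat_lit 384) (.e (nat_lit 57424) (nat_lit 14) (.e (nat_lit 352323) (nat_lit 26) (.e (nat_lit 147496) (nat_lit 11) (.e (nat_lit 24639) (nat_lit 10) (.e (nat_lit 344090) (nat_lit 18) .nil)))))) (.g (nat_lit 4) .nil .nil)))))))) (.nd (nat_lit 1) (.nd (nat_lit 2) (.nd (nat_lit 3) (.nd (nat_lit 4) (.nd (nat_lit 5) 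
(.lf (nat_lit 124161) (.g (nat_lit 3482) (.e (nat_lit 7263) (nat_lit 384) (.e (nat_lit 57423) (nat_lit 14) (.e (nat_lit 352277) (nat_lit 11) (.e (nat_lit 426343) (nat_lit 14) (.e (nat_lit 491560) (nat_lit 10) (.e (nat_lit 344091) (nat_lit 18) .nil)))))) (.g (nat_lit 6) .nil .nil))) 
(.lf (nat_lit 124193) (.g (nat_lit 2650) (.e (nat_lit 7263) (nat_lit 384) (.e (nat_lit 57424) (nat_lit 14) (.e (nat_lit 352277) (nat_lit 11) (.e (nat_lit 426343) (nat_lit 14) (.e (nat_lit 491558) (nat_lit 10) (.e (nat_lit 344090) (nat_lit 18) .nil)))))) (.g (nat_lit 5) .nil .nil)))) (.nd (nat_lit 5) 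
(.lf (nat_lit 124177) (.g (nat_lit 2194) (.e (nat_lit 7263) (nat_lit 384) (.e (nat_lit 57424) (nat_lit 14) (.e (nat_lit 352277) (nat_lit 11) (.e (nat_lit 426010) (nat_lit 0) (.e (nat_lit 7591) (nat_lit 407) (.e (nat_lit 73730) (nat_lit 0) .nil)))))) (.g (nat_lit 0) .nil .nil))) 
(.lf (nat_lit 124209) (.g (nat_lit 2614) (.e (nat_lit 7263) (nat_lit 384) (.e (nat_lit 57424) (nat_lit 14) (.e (nat_lit 352277) (nat_lit 11) (.e (nat_lit 426344) (nat_lit 14) (.e (nat_lit 491560) (nat_lit 10) (.e (nat_lit 344096) (nat_lit 18) .nil)))))) (.g (nat_lit 5) .nil .nil))))) (.nd (nat_lit 4) (.nd (nat_lit 5) 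
(.lf (nat_lit 124169) (.g (nat_lit 487) (.e (nat_lit 7263) (nat_lit 384) (.e (nat_lit 57423) (nat_lit 14) (.e (nat_lit 352308) (nat_lit 21) .nil))) .nil)) 
(.lf (nat_lit 124201) (.g (nat_lit 2479) (.e (nat_lit 7263) (nat_lit 384) (.e (nat_lit 57424) (nat_lit 14) (.e (nat_lit 352277) (nat_lit 11) (.e (nat_lit 426344) (nat_lit 14) (.e (nat_lit 491558) (nat_lit 10) (.e (nat_lit 344090) (nat_lit 18) .nil)))))) (.g (nat_lit 5) .nil .nil)))) (.nd (nat_lit 5) 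
(.lf (nat_lit 124185) (.g (nat_lit 3293) (.e (nat_lit 7263) (nat_lit 384) (.e (nat_lit 57424) (nat_lit 14) (.e (nat_lit 352277) (nat_lit 11) (.e (nat_lit 426012) (nat_lit 0) (.e (nat_lit 7593) (nat_lit 407) (.e (nat_lit 73729) (nat_lit 0) .nil)))))) (.g (nat_lit 0) .nil .nil))) 
(.lf (nat_lit 124217) (.g (nat_lit 2762) (.e (nat_lit 7263) (nat_lit 384) (.e (nat_lit 57424) (nat_lit 14) (.e (nat_lit 352322) (nat_lit 26) (.e (nat_lit 147495) (nat_lit 11) (.e (nat_lit 24640) (nat_lit 10) (.e (nat_lit 344095) (nat_lit 18) .nil)))))) (.g (nat_lit 5) .nil .nil)))))) (.nd (nat_lit 3) (.nd (nat_lit 4) (.nd (nat_lit 5) 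
(.lf (nat_lit 124165) (.g (nat_lit 2852) (.e (nat_lit 7263) (nat_lit 384) (.e (nat_lit 57423) (nat_lit 14) (.e (nat_lit 352277) (nat_lit 11) (.e (nat_lit 426344) (nat_lit 14) (.e (nat_lit 491558) (nat_lit 10) (.e (nat_lit 344090) (nat_lit 18) .nil)))))) (.g (nat_lit 6) .nil .nil))) 
(.lf (nat_lit 124197) (.g (nat_lit 3211) (.e (nat_lit 7263) (nat_lit 384) (.e (nat_lit 57424) (nat_lit 14) (.e (nat_lit 352277) (nat_lit 11) (.e (nat_lit 426343) (nat_lit 14) (.e (nat_lit 491560) (nat_lit 10) (.e (nat_lit 344090) (nat_lit 18) .nil)))))) (.g (nat_lit 6) .nil .nil)))) (.nd (nat_lit 5) 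
(.lf (nat_lit 124181) (.g (nat_lit 3067) (.e (nat_lit 7263) (nat_lit 384) (.e (nat_lit 57424) (nat_lit 14) (.e (nat_lit 352277) (nat_lit 11) (.e (nat_lit 426011) (nat_lit 0) (.e (nat_lit 7591) (nat_lit 407) (.e (nat_lit 73730) (nat_lit 0) .nil)))))) (.g (nat_lit 0) .nil .nil))) 
(.lf (nat_lit 124213) (.g (nat_lit 2749) (.e (nat_lit 7263) (nat_lit 384) (.e (nat_lit 57424) (nat_lit 14) (.e (nat_lit 352322) (nat_lit 26) (.e (nat_lit 147495) (nat_lit 11) (.e (nat_lit 24639) (nat_lit 10) (.e (nat_lit 344090) (nat_lit 18) .nil)))))) (.g (nat_lit 5) .nil .nil))))) (.nd (nat_lit 4) (.nd (nat_lit 5) 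
(.lf (nat_lit 124173) (.g (nat_lit 1390) (.e (nat_lit 7263) (nat_lit 384) (.e (nat_lit 57424) (nat_lit 14) (.e (nat_lit 352273) (nat_lit 11) (.e (nat_lit 426011) (nat_lit 0) (.e (nat_lit 7593) (nat_lit 407) .nil))))) .nil)) 
(.lf (nat_lit 124205) (.g (nat_lit 3063) (.e (nat_lit 7263) (nat_lit 384) (.e (nat_lit 57424) (nat_lit 14) (.e (nat_lit 352277) (nat_lit 11) (.e (nat_lit 426344) (nat_lit 14) (.e (nat_lit 491560) (nat_lit 10) (.e (nat_lit 344090) (nat_lit 18) .nil)))))) (.g (nat_lit 6) .nil .nil)))) (.nd (nat_lit 5) 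
(.lf (nat_lit 124189) (.g (nat_lit 2692) (.e (nat_lit 7263) (nat_lit 384) (.e (nat_lit 57424) (nat_lit 14) (.e (nat_lit 352277) (nat_lit 11) (.e (nat_lit 426342) (nat_lit 14) (.e (nat_lit 491558) (nat_lit 10) (.e (nat_lit 344096) (nat_lit 18) .nil)))))) (.g (nat_lit 6) .nil .nil))) 
(.lf (nat_lit 124221) (.g (nat_lit 2802) (.e (nat_lit 7263) (nat_lit 384) (.e (nat_lit 57424) (nat_lit 14) (.e (nat_lit 352322) (nat_lit 26) (.e (nat_lit 147496) (nat_lit 11) (.e (nat_lit 24640) (nat_lit 10) (.e (nat_lit 344090) (nat_lit 18) .nil)))))) (.g (nat_lit 5) .nil .nil))))))) (.nd (nat_lit 2) (.nd (nat_lit 3) (.nd (nat_lit 4) (.nd (nat_lit 5) 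
(.lf (nat_lit 124163) (.g (nat_lit 3087) (.e (nat_lit 7263) (nat_lit 384) (.e (nat_lit 57423) (nat_lit 14) (.e (nat_lit 352277) (nat_lit 11) (.e (nat_lit 426343) (nat_lit 14) (.e (nat_lit 491560) (nat_lit 10) (.e (nat_lit 344095) (nat_lit 18) .nil)))))) (.g (nat_lit 5) .nil .nil))) 
(.lf (nat_lit 124195) (.g (nat_lit 3124) (.e (nat_lit 7263) (nat_lit 384) (.e (nat_lit 57424) (nat_lit 14) (.e (nat_lit 352277) (nat_lit 11) (.e (nat_lit 426343) (nat_lit 14) (.e (nat_lit 491558) (nat_lit 10) (.e (nat_lit 344095) (nat_lit 18) .nil)))))) (.g (nat_lit 0) .nil .nil)))) (.nd (nat_lit 5) 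
(.lf (nat_lit 124179) (.g (nat_lit 2264) (.e (nat_lit 7263) (nat_lit 384) (.e (nat_lit 57424) (nat_lit 14) (.e (nat_lit 352277) (nat_lit 11) (.e (nat_lit 426010) (nat_lit 0) (.e (nat_lit 7593) (nat_lit 407) (.e (nat_lit 73730) (nat_lit 0) .nil)))))) (.g (nat_lit 6) .nil .nil))) 
(.lf (nat_lit 124211) (.g (nat_lit 1463) (.e (nat_lit 7263) (nat_lit 384) (.e (nat_lit 57424) (nat_lit 14) (.e (nat_lit 352302) (nat_lit 20) (.e (nat_lit 2270) (nat_lit 149) (.e (nat_lit 761868) (nat_lit 5) .nil))))) .nil)))) (.nd (nat_lit 4) (.nd (nat_lit 5) 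
(.lf (nat_lit 124171) (.g (nat_lit 554) (.e (nat_lit 7263) (nat_lit 384) (.e (nat_lit 57424) (nat_lit 14) (.e (nat_lit 352258) (nat_lit 0) .nil))) .nil)) 
(.lf (nat_lit 124203) (.g (nat_lit 2952) (.e (nat_lit 7263) (nat_lit 384) (.e (nat_lit 57424) (nat_lit 14) (.e (nat_lit 352277) (nat_lit 11) (.e (nat_lit 426344) (nat_lit 14) (.e (nat_lit 491558) (nat_lit 10) (.e (nat_lit 344095) (nat_lit 18) .nil)))))) (.g (nat_lit 0) .nil .nil)))) (.nd (nat_lit 5) 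
(.lf (nat_lit 124187) (.g (nat_lit 2886) (.e (nat_lit 7263) (nat_lit 384) (.e (nat_lit 57424) (nat_lit 14) (.e (nat_lit 352277) (nat_lit 11) (.e (nat_lit 426342) (nat_lit 14) (.e (nat_lit 491558) (nat_lit 10) (.e (nat_lit 344091) (nat_lit 18) .nil)))))) (.g (nat_lit 6) .nil .nil))) 
(.lf (nat_lit 124219) (.g (nat_lit 2092) (.e (nat_lit 7263) (nat_lit 384) (.e (nat_lit 57424) (nat_lit 14) (.e (nat_lit 352322) (nat_lit 26) (.e (nat_lit 147496) (nat_lit 11) (.e (nat_lit 24639) (nat_lit 10) (.e (nat_lit 344095) (nat_lit 18) .nil)))))) (.g (nat_lit 4) .nil .nil)))))) (.nd (nat_lit 3) (.nd (nat_lit 4) (.nd (nat_lit 5) 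
(.lf (nat_lit 124167) (.g (nat_lit 3241) (.e (nat_lit 7263) (nat_lit 384) (.e (nat_lit 57423) (nat_lit 14) (.e (nat_lit 352277) (nat_lit 11) (.e (nat_lit 426344) (nat_lit 14) (.e (nat_lit 491560) (nat_lit 10) (.e (nat_lit 344091) (nat_lit 18) .nil)))))) (.g (nat_lit 6) .nil .nil))) 
(.lf (nat_lit 124199) (.g (nat_lit 3064) (.e (nat_lit 7263) (nat_lit 384) (.e (nat_lit 57424) (nat_lit 14) (.e (nat_lit 352277) (nat_lit 11) (.e (nat_lit 426343) (nat_lit 14) (.e (nat_lit 491560) (nat_lit 10) (.e (nat_lit 344094) (nat_lit 18) .nil)))))) (.g (nat_lit 6) .nil .nil)))) (.nd (nat_lit 5) 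
(.lf (nat_lit 124183) (.g (nat_lit 2830) (.e (nat_lit 7263) (nat_lit 384) (.e (nat_lit 57424) (nat_lit 14) (.e (nat_lit 352277) (nat_lit 11) (.e (nat_lit 426012) (nat_lit 0) (.e (nat_lit 7591) (nat_lit 407) (.e (nat_lit 73729) (nat_lit 0) .nil)))))) (.g (nat_lit 6) .nil .nil))) 
(.lf (nat_lit 124215) (.g (nat_lit 2664) (.e (nat_lit 7263) (nat_lit 384) (.e (nat_lit 57424) (nat_lit 14) (.e (nat_lit 352322) (nat_lit 26) (.e (nat_lit 147495) (nat_lit 11) (.e (nat_lit 24639) (nat_lit 10) (.e (nat_lit 344096) (nat_lit 18) .nil)))))) (.g (nat_lit 5) .nil .nil))))) (.nd (nat_lit 4) (.nd (nat_lit 5) 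
(.lf (nat_lit 124175) (.g (nat_lit 2031) (.e (nat_lit 7263) (nat_lit 384) (.e (nat_lit 57424) (nat_lit 14) (.e (nat_lit 352277) (nat_lit 11) (.e (nat_lit 426009) (nat_lit 0) (.e (nat_lit 7591) (nat_lit 407) (.e (nat_lit 73730) (nat_lit 0) .nil)))))) (.g (nat_lit 0) .nil .nil))) 
(.lf (nat_lit 124207) (.g (nat_lit 3323) (.e (nat_lit 7263) (nat_lit 384) (.e (nat_lit 57424) (nat_lit 14) (.e (nat_lit 352277) (nat_lit 11) (.e (nat_lit 426344) (nat_lit 14) (.e (nat_lit 491560) (nat_lit 10) (.e (nat_lit 344094) (nat_lit 18) .nil)))))) (.g (nat_lit 0) .nil .nil)))) (.nd (nat_lit 5) 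
(.lf (nat_lit 124191) (.g (nat_lit 2790) (.e (nat_lit 7263) (nat_lit 384) (.e (nat_lit 57424) (nat_lit 14) (.e (nat_lit 352277) (nat_lit 11) (.e (nat_lit 426342) (nat_lit 14) (.e (nat_lit 491560) (nat_lit 10) (.e (nat_lit 344091) (nat_lit 18) .nil)))))) (.g (nat_lit 6) .nil .nil))) 
(.lf (nat_lit 124223) (.g (nat_lit 2640) (.e (nat_lit 7263) (nat_lit 384) (.e (nat_lit 57424) (nat_lit 14) (.e (nat_lit 352323) (nat_lit 26) (.e (nat_lit 147496) (nat_lit 11) (.e (nat_lit 24640) (nat_lit 10) (.e (nat_lit 344090) (nat_lit 18) .nil)))))) (.g (nat_lit 5) .nil .nil)))))))))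

noncomputable def tv1663 : DT := (.nd (nat_lit 0) (.nd (nat_lit 1) (.nd (nat_lit 2) (.nd (nat_lit 3) (.nd (nat_lit 4) (.nd (nat_lit 5) 
(.lf (nat_lit 124224) (.g (nat_lit 363) (.e (nat_lit 7263) (nat_lit 384) (.e (nat_lit 57424) (nat_lit 14) (.e (nat_lit 352324) (nat_lit 26) .nil))) .nil)) 
(.lf (nat_lit 124256) (.g (nat_lit 3306) (.e (nat_lit 7263) (nat_lit 384) (.e (nat_lit 57426) (nat_lit 15) (.e (nat_lit 360449) (nat_lit 0) (.e (nat_lit 7122) (nat_lit 382) (.e (nat_lit 1201) (nat_lit 88) (.e (nat_lit 65617) (nat_lit 10) (.e (nat_lit 344091) (nat_lit 18) .nil))))))) (.g (nat_lit 7) .nil .nil)))) (.nd (nat_lit 5) 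
(.lf (nat_lit 124240) (.g (nat_lit 3342) (.e (nat_lit 7263) (nat_lit 384) (.e (nat_lit 57424) (nat_lit 14) (.e (nat_lit 352324) (nat_lit 26) (.e (nat_lit 147495) (nat_lit 11) (.e (nat_lit 24640) (nat_lit 10) (.e (nat_lit 344094) (nat_lit 18) .nil)))))) (.g (nat_lit 5) .nil .nil))) 
(.lf (nat_lit 124272) (.g (nat_lit 3197) (.e (nat_lit 7263) (nat_lit 384) (.e (nat_lit 57426) (nat_lit 15) (.e (nat_lit 360449) (nat_lit 0) (.e (nat_lit 7265) (nat_lit 384) (.e (nat_lit 57427) (nat_lit 15) (.e (nat_lit 360451) (nat_lit 0) .nil)))))) (.g (nat_lit 0) .nil .nil))))) (.nd (nat_lit 4) (.nd (nat_lit 5) 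
(.lf (nat_lit 124232) (.g (nat_lit 1529) (.e (nat_lit 7263) (nat_lit 384) (.e (nat_lit 57424) (nat_lit 14) (.e (nat_lit 352324) (nat_lit 26) (.e (nat_lit 147494) (nat_lit 11) (.e (nat_lit 24639) (nat_lit 10) (.e (nat_lit 344090) (nat_lit 18) .nil)))))) (.g (nat_lit 4) .nil .nil))) 
(.lf (nat_lit 124264) (.g (nat_lit 1810) (.e (nat_lit 7263) (nat_lit 384) (.e (nat_lit 57426) (nat_lit 15) (.e (nat_lit 360449) (nat_lit 0) (.e (nat_lit 7263) (nat_lit 384) (.e (nat_lit 57426) (nat_lit 15) (.e (nat_lit 360449) (nat_lit 0) .nil)))))) (.g (nat_lit 0) .nil .nil)))) (.nd (nat_lit 5) 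
(.lf (nat_lit 124248) (.g (nat_lit 3439) (.e (nat_lit 7263) (nat_lit 384) (.e (nat_lit 57424) (nat_lit 14) (.e (nat_lit 352324) (nat_lit 26) (.e (nat_lit 147496) (nat_lit 11) (.e (nat_lit 24640) (nat_lit 10) (.e (nat_lit 344090) (nat_lit 18) .nil)))))) (.g (nat_lit 6) .nil .nil))) 
(.lf (nat_lit 124280) (.g (nat_lit 2640) (.e (nat_lit 7263) (nat_lit 384) (.e (nat_lit 57426) (nat_lit 15) (.e (nat_lit 360451) (nat_lit 0) (.e (nat_lit 7124) (nat_lit 382) (.e (nat_lit 1201) (nat_lit 88) (.e (nat_lit 65617) (nat_lit 10) (.e (nat_lit 344095) (nat_lit 18) .nil))))))) (.g (nat_lit 6) .nil .nil)))))) (.nd (nat_lit 3) (.nd (nat_lit 4) (.nd (nat_lit 5) 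
(.lf (nat_lit 124228) (.g (nat_lit 1611) (.e (nat_lit 7263) (nat_lit 384) (.e (nat_lit 57424) (nat_lit 14) (.e (nat_lit 352324) (nat_lit 26) (.e (nat_lit 147478) (nat_lit 9) (.e (nat_lit 7936) (nat_lit 24) .nil))))) .nil)) 
(.lf (nat_lit 124260) (.g (nat_lit 3656) (.e (nat_lit 7263) (nat_lit 384) (.e (nat_lit 57426) (nat_lit 15) (.e (nat_lit 360449) (nat_lit 0) (.e (nat_lit 7125) (nat_lit 382) (.e (nat_lit 1201) (nat_lit 88) (.e (nat_lit 65617) (nat_lit 10) (.e (nat_lit 344091) (nat_lit 18) .nil))))))) (.g (nat_lit 7) .nil .nil)))) (.nd (nat_lit 5) 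
(.lf (nat_lit 124244) (.g (nat_lit 2192) (.e (nat_lit 7263) (nat_lit 384) (.e (nat_lit 57424) (nat_lit 14) (.e (nat_lit 352324) (nat_lit 26) (.e (nat_lit 147495) (nat_lit 11) (.e (nat_lit 24641) (nat_lit 10) (.e (nat_lit 344095) (nat_lit 18) .nil)))))) (.g (nat_lit 4) .nil .nil))) 
(.lf (nat_lit 124276) (.g (nat_lit 2087) (.e (nat_lit 7263) (nat_lit 384) (.e (nat_lit 57426) (nat_lit 15) (.e (nat_lit 360450) (nat_lit 0) (.e (nat_lit 7122) (nat_lit 382) (.e (nat_lit 1201) (nat_lit 88) (.e (nat_lit 65617) (nat_lit 10) (.e (nat_lit 344091) (nat_lit 18) .nil))))))) (.g (nat_lit 4) .nil .nil))))) (.nd (nat_lit 4) (.nd (nat_lit 5) 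
(.lf (nat_lit 124236) (.g (nat_lit 3419) (.e (nat_lit 7263) (nat_lit 384) (.e (nat_lit 57424) (nat_lit 14) (.e (nat_lit 352324) (nat_lit 26) (.e (nat_lit 147495) (nat_lit 11) (.e (nat_lit 24639) (nat_lit 10) (.e (nat_lit 344090) (nat_lit 18) .nil)))))) (.g (nat_lit 6) .nil .nil))) 
(.lf (nat_lit 124268) (.g (nat_lit 2675) (.e (nat_lit 7263) (nat_lit 384) (.e (nat_lit 57426) (nat_lit 15) (.e (nat_lit 360449) (nat_lit 0) (.e (nat_lit 7265) (nat_lit 384) (.e (nat_lit 57412) (nat_lit 12) (.e (nat_lit 336176) (nat_lit 10) (.e (nat_lit 344095) (nat_lit 18) .nil))))))) (.g (nat_lit 0) .nil .nil)))) (.nd (nat_lit 5) 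
(.lf (nat_lit 124252) (.g (nat_lit 3802) (.e (nat_lit 7263) (nat_lit 384) (.e (nat_lit 57424) (nat_lit 14) (.e (nat_lit 352324) (nat_lit 26) (.e (nat_lit 147496) (nat_lit 11) (.e (nat_lit 24640) (nat_lit 10) (.e (nat_lit 344096) (nat_lit 18) .nil)))))) (.g (nat_lit 6) .nil .nil))) 
(.lf (nat_lit 124284) (.g (nat_lit 970) (.e (nat_lit 7263) (nat_lit 384) (.e (nat_lit 57426) (nat_lit 15) (.e (nat_lit 360451) (nat_lit 0) (.e (nat_lit 7263) (nat_lit 384) .nil)))) .nil)))))) (.nd (nat_lit 2) (.nd (nat_lit 3) (.nd (nat_lit 4) (.nd (nat_lit 5) 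
(.lf (nat_lit 124226) (.g (nat_lit 1056) (.e (nat_lit 7263) (nat_lit 384) (.e (nat_lit 57424) (nat_lit 14) (.e (nat_lit 352324) (nat_lit 26) (.e (nat_lit 147465) (nat_lit 9) .nil)))) .nil)) 
(.lf (nat_lit 124258) (.g (nat_lit 3180) (.e (nat_lit 7263) (nat_lit 384) (.e (nat_lit 57426) (nat_lit 15) (.e (nat_lit 360449) (nat_lit 0) (.e (nat_lit 7124) (nat_lit 382) (.e (nat_lit 1201) (nat_lit 88) (.e (nat_lit 65617) (nat_lit 10) (.e (nat_lit 344091) (nat_lit 18) .nil))))))) (.g (nat_lit 7) .nil .nil)))) (.nd (nat_lit 5) 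
(.lf (nat_lit 124242) (.g (nat_lit 3807) (.e (nat_lit 7263) (nat_lit 384) (.e (nat_lit 57424) (nat_lit 14) (.e (nat_lit 352324) (nat_lit 26) (.e (nat_lit 147495) (nat_lit 11) (.e (nat_lit 24640) (nat_lit 10) (.e (nat_lit 344096) (nat_lit 18) .nil)))))) (.g (nat_lit 6) .nil .nil))) 
(.lf (nat_lit 124274) (.g (nat_lit 3090) (.e (nat_lit 7263) (nat_lit 384) (.e (nat_lit 57426) (nat_lit 15) (.e (nat_lit 360449) (nat_lit 0) (.e (nat_lit 7266) (nat_lit 384) (.e (nat_lit 57427) (nat_lit 15) (.e (nat_lit 360451) (nat_lit 0) .nil)))))) (.g (nat_lit 6) .nil .nil))))) (.nd (nat_lit 4) (.nd (nat_lit 5) 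
(.lf (nat_lit 124234) (.g (nat_lit 2402) (.e (nat_lit 7263) (nat_lit 384) (.e (nat_lit 57424) (nat_lit 14) (.e (nat_lit 352324) (nat_lit 26) (.e (nat_lit 147494) (nat_lit 11) (.e (nat_lit 24640) (nat_lit 10) (.e (nat_lit 344090) (nat_lit 18) .nil)))))) (.g (nat_lit 5) .nil .nil))) 
(.lf (nat_lit 124266) (.g (nat_lit 2461) (.e (nat_lit 7263) (nat_lit 384) (.e (nat_lit 57426) (nat_lit 15) (.e (nat_lit 360449) (nat_lit 0) (.e (nat_lit 7263) (nat_lit 384) (.e (nat_lit 57427) (nat_lit 15) (.e (nat_lit 360451) (nat_lit 0) .nil)))))) (.g (nat_lit 0) .nil .nil)))) (.nd (nat_lit 5) 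
(.lf (nat_lit 124250) (.g (nat_lit 3227) (.e (nat_lit 7263) (nat_lit 384) (.e (nat_lit 57424) (nat_lit 14) (.e (nat_lit 352324) (nat_lit 26) (.e (nat_lit 147496) (nat_lit 11) (.e (nat_lit 24640) (nat_lit 10) (.e (nat_lit 344094) (nat_lit 18) .nil)))))) (.g (nat_lit 5) .nil .nil))) 
(.lf (nat_lit 124282) (.g (nat_lit 3536) (.e (nat_lit 7263) (nat_lit 384) (.e (nat_lit 57426) (nat_lit 15) (.e (nat_lit 360451) (nat_lit 0) (.e (nat_lit 7125) (nat_lit 382) (.e (nat_lit 1201) (nat_lit 88) (.e (nat_lit 65617) (nat_lit 10) (.e (nat_lit 344095) (nat_lit 18) .nil))))))) (.g (nat_lit 7) .nil .nil)))))) (.nd (nat_lit 3) (.nd (nat_lit 4) (.nd (nat_lit 5) 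
(.lf (nat_lit 124230) (.g (nat_lit 992) (.e (nat_lit 7263) (nat_lit 384) (.e (nat_lit 57424) (nat_lit 14) (.e (nat_lit 352324) (nat_lit 26) (.e (nat_lit 147494) (nat_lit 11) .nil)))) .nil)) 
(.lf (nat_lit 124262) (.g (nat_lit 1904) (.e (nat_lit 7263) (nat_lit 384) (.e (nat_lit 57426) (nat_lit 15) (.e (nat_lit 360449) (nat_lit 0) (.e (nat_lit 7261) (nat_lit 384) (.e (nat_lit 57426) (nat_lit 15) (.e (nat_lit 360449) (nat_lit 0) .nil)))))) (.g (nat_lit 0) .nil .nil)))) (.nd (nat_lit 5) 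
(.lf (nat_lit 124246) (.g (nat_lit 2301) (.e (nat_lit 7263) (nat_lit 384) (.e (nat_lit 57424) (nat_lit 14) (.e (nat_lit 352324) (nat_lit 26) (.e (nat_lit 147496) (nat_lit 11) (.e (nat_lit 24639) (nat_lit 10) (.e (nat_lit 344091) (nat_lit 18) .nil)))))) (.g (nat_lit 4) .nil .nil))) 
(.lf (nat_lit 124278) (.g (nat_lit 1480) (.e (nat_lit 7263) (nat_lit 384) (.e (nat_lit 57426) (nat_lit 15) (.e (nat_lit 360450) (nat_lit 0) (.e (nat_lit 7261) (nat_lit 384) (.e (nat_lit 57427) (nat_lit 15) .nil))))) .nil)))) (.nd (nat_lit 4) (.nd (nat_lit 5) 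
(.lf (nat_lit 124238) (.g (nat_lit 3548) (.e (nat_lit 7263) (nat_lit 384) (.e (nat_lit 57424) (nat_lit 14) (.e (nat_lit 352324) (nat_lit 26) (.e (nat_lit 147495) (nat_lit 11) (.e (nat_lit 24640) (nat_lit 10) (.e (nat_lit 344090) (nat_lit 18) .nil)))))) (.g (nat_lit 6) .nil .nil))) 
(.lf (nat_lit 124270) (.g (nat_lit 2640) (.e (nat_lit 7263) (nat_lit 384) (.e (nat_lit 57426) (nat_lit 15) (.e (nat_lit 360449) (nat_lit 0) (.e (nat_lit 7265) (nat_lit 384) (.e (nat_lit 57426) (nat_lit 15) (.e (nat_lit 360449) (nat_lit 0) .nil)))))) (.g (nat_lit 0) .nil .nil)))) (.nd (nat_lit 5) 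
(.lf (nat_lit 124254) (.g (nat_lit 3073) (.e (nat_lit 7263) (nat_lit 384) (.e (nat_lit 57424) (nat_lit 14) (.e (nat_lit 352324) (nat_lit 26) (.e (nat_lit 147496) (nat_lit 11) (.e (nat_lit 24641) (nat_lit 10) (.e (nat_lit 344095) (nat_lit 18) .nil)))))) (.g (nat_lit 5) .nil .nil))) 
(.lf (nat_lit 124286) (.g (nat_lit 2807) (.e (nat_lit 7263) (nat_lit 384) (.e (nat_lit 57426) (nat_lit 15) (.e (nat_lit 360451) (nat_lit 0) (.e (nat_lit 7265) (nat_lit 384) (.e (nat_lit 57412) (nat_lit 12) (.e (nat_lit 336176) (nat_lit 10) (.e (nat_lit 344096) (nat_lit 18) .nil))))))) (.g (nat_lit 6) .nil .nil)))))))) 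
(.nd (nat_lit 1) (.nd (nat_lit 2) (.nd (nat_lit 3) (.nd (nat_lit 4) (.nd (nat_lit 5) 
(.lf (nat_lit 124225) (.g (nat_lit 1374) (.e (nat_lit 7263) (nat_lit 384) (.e (nat_lit 57424) (nat_lit 14) (.e (nat_lit 352324) (nat_lit 26) (.e (nat_lit 147463) (nat_lit 9) .nil)))) .nil)) 
(.lf (nat_lit 124257) (.g (nat_lit 2875) (.e (nat_lit 7263) (nat_lit 384) (.e (nat_lit 57426) (nat_lit 15) (.e (nat_lit 360449) (nat_lit 0) (.e (nat_lit 7122) (nat_lit 382) (.e (nat_lit 1201) (nat_lit 88) (.e (nat_lit 65617) (nat_lit 10) (.e (nat_lit 344095) (nat_lit 18) .nil))))))) (.g (nat_lit 0) .nil .nil)))) (.nd (nat_lit 5) 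
(.lf (nat_lit 124241) (.g (nat_lit 3348) (.e (nat_lit 7263) (nat_lit 384) (.e (nat_lit 57424) (nat_lit 14) (.e (nat_lit 352324) (nat_lit 26) (.e (nat_lit 147495) (nat_lit 11) (.e (nat_lit 24640) (nat_lit 10) (.e (nat_lit 344095) (nat_lit 18) .nil)))))) (.g (nat_lit 6) .nil .nil))) 
(.lf (nat_lit 124273) (.g (nat_lit 2454) (.e (nat_lit 7263) (nat_lit 384) (.e (nat_lit 57426) (nat_lit 15) (.e (nat_lit 360449) (nat_lit 0) (.e (nat_lit 7266) (nat_lit 384) (.e (nat_lit 57426) (nat_lit 15) (.e (nat_lit 360449) (nat_lit 0) .nil)))))) (.g (nat_lit 0) .nil .nil))))) (.nd (nat_lit 4) (.nd (nat_lit 5) 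
(.lf (nat_lit 124233) (.g (nat_lit 1506) (.e (nat_lit 7263) (nat_lit 384) (.e (nat_lit 57424) (nat_lit 14) (.e (nat_lit 352324) (nat_lit 26) (.e (nat_lit 147494) (nat_lit 11) (.e (nat_lit 24639) (nat_lit 10) (.e (nat_lit 344095) (nat_lit 18) .nil)))))) (.g (nat_lit 4) .nil .nil))) 
(.lf (nat_lit 124265) (.g (nat_lit 2632) (.e (nat_lit 7263) (nat_lit 384) (.e (nat_lit 57426) (nat_lit 15) (.e (nat_lit 360449) (nat_lit 0) (.e (nat_lit 7263) (nat_lit 384) (.e (nat_lit 57427) (nat_lit 15) (.e (nat_lit 360450) (nat_lit 0) .nil)))))) (.g (nat_lit 0) .nil .nil)))) (.nd (nat_lit 5) 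
(.lf (nat_lit 124249) (.g (nat_lit 2968) (.e (nat_lit 7263) (nat_lit 384) (.e (nat_lit 57424) (nat_lit 14) (.e (nat_lit 352324) (nat_lit 26) (.e (nat_lit 147496) (nat_lit 11) (.e (nat_lit 24640) (nat_lit 10) (.e (nat_lit 344091) (nat_lit 18) .nil)))))) (.g (nat_lit 5) .nil .nil))) 
(.lf (nat_lit 124281) (.g (nat_lit 3925) (.e (nat_lit 7263) (nat_lit 384) (.e (nat_lit 57426) (nat_lit 15) (.e (nat_lit 360451) (nat_lit 0) (.e (nat_lit 7125) (nat_lit 382) (.e (nat_lit 1201) (nat_lit 88) (.e (nat_lit 65617) (nat_lit 10) (.e (nat_lit 344091) (nat_lit 18) .nil))))))) (.g (nat_lit 7) .nil .nil)))))) (.nd (nat_lit 3) (.nd (nat_lit 4) (.nd (nat_lit 5) 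
(.lf (nat_lit 124229) (.g (nat_lit 1623) (.e (nat_lit 7263) (nat_lit 384) (.e (nat_lit 57424) (nat_lit 14) (.e (nat_lit 352324) (nat_lit 26) (.e (nat_lit 147491) (nat_lit 10) .nil)))) .nil)) 
(.lf (nat_lit 124261) (.g (nat_lit 3231) (.e (nat_lit 7263) (nat_lit 384) (.e (nat_lit 57426) (nat_lit 15) (.e (nat_lit 360449) (nat_lit 0) (.e (nat_lit 7125) (nat_lit 382) (.e (nat_lit 1201) (nat_lit 88) (.e (nat_lit 65617) (nat_lit 10) (.e (nat_lit 344095) (nat_lit 18) .nil))))))) (.g (nat_lit 0) .nil .nil)))) (.nd (nat_lit 5) 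
(.lf (nat_lit 124245) (.g (nat_lit 3164) (.e (nat_lit 7263) (nat_lit 384) (.e (nat_lit 57424) (nat_lit 14) (.e (nat_lit 352324) (nat_lit 26) (.e (nat_lit 147496) (nat_lit 11) (.e (nat_lit 24639) (nat_lit 10) (.e (nat_lit 344090) (nat_lit 18) .nil)))))) (.g (nat_lit 6) .nil .nil))) 
(.lf (nat_lit 124277) (.g (nat_lit 1494) (.e (nat_lit 7263) (nat_lit 384) (.e (nat_lit 57426) (nat_lit 15) (.e (nat_lit 360450) (nat_lit 0) (.e (nat_lit 7261) (nat_lit 384) (.e (nat_lit 57412) (nat_lit 12) .nil))))) .nil)))) (.nd (nat_lit 4) (.nd (nat_lit 5) 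
(.lf (nat_lit 124237) (.g (nat_lit 3426) (.e (nat_lit 7263) (nat_lit 384) (.e (nat_lit 57424) (nat_lit 14) (.e (nat_lit 352324) (nat_lit 26) (.e (nat_lit 147495) (nat_lit 11) (.e (nat_lit 24639) (nat_lit 10) (.e (nat_lit 344095) (nat_lit 18) .nil)))))) (.g (nat_lit 0) .nil .nil))) 
(.lf (nat_lit 124269) (.g (nat_lit 2929) (.e (nat_lit 7263) (nat_lit 384) (.e (nat_lit 57426) (nat_lit 15) (.e (nat_lit 360449) (nat_lit 0) (.e (nat_lit 7265) (nat_lit 384) (.e (nat_lit 57412) (nat_lit 12) (.e (nat_lit 336176) (nat_lit 10) (.e (nat_lit 344096) (nat_lit 18) .nil))))))) (.g (nat_lit 7) .nil .nil)))) (.nd (nat_lit 5) 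
(.lf (nat_lit 124253) (.g (nat_lit 2613) (.e (nat_lit 7263) (nat_lit 384) (.e (nat_lit 57424) (nat_lit 14) (.e (nat_lit 352324) (nat_lit 26) (.e (nat_lit 147496) (nat_lit 11) (.e (nat_lit 24641) (nat_lit 10) (.e (nat_lit 344091) (nat_lit 18) .nil)))))) (.g (nat_lit 4) .nil .nil))) 
(.lf (nat_lit 124285) (.g (nat_lit 2896) (.e (nat_lit 7263) (nat_lit 384) (.e (nat_lit 57426) (nat_lit 15) (.e (nat_lit 360451) (nat_lit 0) (.e (nat_lit 7265) (nat_lit 384) (.e (nat_lit 57412) (nat_lit 12) (.e (nat_lit 336176) (nat_lit 10) (.e (nat_lit 344091) (nat_lit 18) .nil))))))) (.g (nat_lit 6) .nil .nil))))))) (.nd (nat_lit 2) (.nd (nat_lit 3) (.nd (nat_lit 4) (.nd (nat_lit 5) 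
(.lf (nat_lit 124227) (.g (nat_lit 1411) (.e (nat_lit 7263) (nat_lit 384) (.e (nat_lit 57424) (nat_lit 14) (.e (nat_lit 352324) (nat_lit 26) (.e (nat_lit 147472) (nat_lit 9) .nil)))) .nil)) 
(.lf (nat_lit 124259) (.g (nat_lit 2734) (.e (nat_lit 7263) (nat_lit 384) (.e (nat_lit 57426) (nat_lit 15) (.e (nat_lit 360449) (nat_lit 0) (.e (nat_lit 7124) (nat_lit 382) (.e (nat_lit 1201) (nat_lit 88) (.e (nat_lit 65617) (nat_lit 10) (.e (nat_lit 344095) (nat_lit 18) .nil))))))) (.g (nat_lit 0) .nil .nil)))) (.nd (nat_lit 5) 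
(.lf (nat_lit 124243) (.g (nat_lit 2158) (.e (nat_lit 7263) (nat_lit 384) (.e (nat_lit 57424) (nat_lit 14) (.e (nat_lit 352324) (nat_lit 26) (.e (nat_lit 147495) (nat_lit 11) (.e (nat_lit 24641) (nat_lit 10) .nil))))) .nil)) 
(.lf (nat_lit 124275) (.g (nat_lit 1815) (.e (nat_lit 7263) (nat_lit 384) (.e (nat_lit 57426) (nat_lit 15) (.e (nat_lit 360450) (nat_lit 0) (.e (nat_lit 7122) (nat_lit 382) (.e (nat_lit 1201) (nat_lit 88) .nil))))) .nil)))) (.nd (nat_lit 4) (.nd (nat_lit 5) 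
(.lf (nat_lit 124235) (.g (nat_lit 2465) (.e (nat_lit 7263) (nat_lit 384) (.e (nat_lit 57424) (nat_lit 14) (.e (nat_lit 352324) (nat_lit 26) (.e (nat_lit 147494) (nat_lit 11) (.e (nat_lit 24640) (nat_lit 10) (.e (nat_lit 344095) (nat_lit 18) .nil)))))) (.g (nat_lit 5) .nil .nil))) 
(.lf (nat_lit 124267) (.g (nat_lit 3018) (.e (nat_lit 7263) (nat_lit 384) (.e (nat_lit 57426) (nat_lit 15) (.e (nat_lit 360449) (nat_lit 0) (.e (nat_lit 7265) (nat_lit 384) (.e (nat_lit 57412) (nat_lit 12) (.e (nat_lit 336176) (nat_lit 10) (.e (nat_lit 344091) (nat_lit 18) .nil))))))) (.g (nat_lit 7) .nil .nil)))) (.nd (nat_lit 5) 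
(.lf (nat_lit 124251) (.g (nat_lit 3385) (.e (nat_lit 7263) (nat_lit 384) (.e (nat_lit 57424) (nat_lit 14) (.e (nat_lit 352324) (nat_lit 26) (.e (nat_lit 147496) (nat_lit 11) (.e (nat_lit 24640) (nat_lit 10) (.e (nat_lit 344095) (nat_lit 18) .nil)))))) (.g (nat_lit 6) .nil .nil))) 
(.lf (nat_lit 124283) (.g (nat_lit 1307) (.e (nat_lit 7263) (nat_lit 384) (.e (nat_lit 57426) (nat_lit 15) (.e (nat_lit 360451) (nat_lit 0) (.e (nat_lit 7261) (nat_lit 384) (.e (nat_lit 57426) (nat_lit 15) .nil))))) .nil))))) (.nd (nat_lit 3) (.nd (nat_lit 4) (.nd (nat_lit 5) 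
(.lf (nat_lit 124231) (.g (nat_lit 2305) (.e (nat_lit 7263) (nat_lit 384) (.e (nat_lit 57424) (nat_lit 14) (.e (nat_lit 352324) (nat_lit 26) (.e (nat_lit 147494) (nat_lit 11) (.e (nat_lit 24638) (nat_lit 9) (.e (nat_lit 335892) (nat_lit 0) (.e (nat_lit 996) (nat_lit 81) .nil))))))) (.g (nat_lit 5) .nil .nil))) 
(.lf (nat_lit 124263) (.g (nat_lit 2698) (.e (nat_lit 7263) (nat_lit 384) (.e (nat_lit 57426) (nat_lit 15) (.e (nat_lit 360449) (nat_lit 0) (.e (nat_lit 7261) (nat_lit 384) (.e (nat_lit 57427) (nat_lit 15) (.e (nat_lit 360450) (nat_lit 0) .nil)))))) (.g (nat_lit 0) .nil .nil)))) (.nd (nat_lit 5) 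
(.lf (nat_lit 124247) (.g (nat_lit 3186) (.e (nat_lit 7263) (nat_lit 384) (.e (nat_lit 57424) (nat_lit 14) (.e (nat_lit 352324) (nat_lit 26) (.e (nat_lit 147496) (nat_lit 11) (.e (nat_lit 24639) (nat_lit 10) (.e (nat_lit 344095) (nat_lit 18) .nil)))))) (.g (nat_lit 6) .nil .nil))) 
(.lf (nat_lit 124279) (.g (nat_lit 1853) (.e (nat_lit 7263) (nat_lit 384) (.e (nat_lit 57426) (nat_lit 15) (.e (nat_lit 360451) (nat_lit 0) (.e (nat_lit 7122) (nat_lit 382) (.e (nat_lit 1201) (nat_lit 88) .nil))))) .nil)))) (.nd (nat_lit 4) (.nd (nat_lit 5) 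
(.lf (nat_lit 124239) (.g (nat_lit 3235) (.e (nat_lit 7263) (nat_lit 384) (.e (nat_lit 57424) (nat_lit 14) (.e (nat_lit 352324) (nat_lit 26) (.e (nat_lit 147495) (nat_lit 11) (.e (nat_lit 24640) (nat_lit 10) (.e (nat_lit 344091) (nat_lit 18) .nil)))))) (.g (nat_lit 5) .nil .nil))) 
(.lf (nat_lit 124271) (.g (nat_lit 3377) (.e (nat_lit 7263) (nat_lit 384) (.e (nat_lit 57426) (nat_lit 15) (.e (nat_lit 360449) (nat_lit 0) (.e (nat_lit 7265) (nat_lit 384) (.e (nat_lit 57427) (nat_lit 15) (.e (nat_lit 360450) (nat_lit 0) .nil)))))) (.g (nat_lit 0) .nil .nil)))) (.nd (nat_lit 5) 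
(.lf (nat_lit 124255) (.g (nat_lit 767) (.e (nat_lit 7263) (nat_lit 384) (.e (nat_lit 57425) (nat_lit 14) (.e (nat_lit 352272) (nat_lit 10) (.e (nat_lit 417795) (nat_lit 0) (.e (nat_lit 5412) (nat_lit 303) .nil))))) .nil)) 
(.lf (nat_lit 124287) (.g (nat_lit 2547) (.e (nat_lit 7263) (nat_lit 384) (.e (nat_lit 57426) (nat_lit 15) (.e (nat_lit 360451) (nat_lit 0) (.e (nat_lit 7265) (nat_lit 384) (.e (nat_lit 57426) (nat_lit 15) (.e (nat_lit 360449) (nat_lit 0) .nil)))))) (.g (nat_lit 6) .nil .nil)))))))))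

noncomputable def tv1664 : DT := (.nd (nat_lit 0) (.nd (nat_lit 1) (.nd (nat_lit 2) (.nd (nat_lit 3) (.nd (nat_lit 4) (.nd (nat_lit 5) 
(.lf (nat_lit 124288) (.g (nat_lit 2550) (.e (nat_lit 7263) (nat_lit 384) (.e (nat_lit 57426) (nat_lit 15) (.e (nat_lit 360451) (nat_lit 0) (.e (nat_lit 7266) (nat_lit 384) (.e (nat_lit 57426) (nat_lit 15) (.e (nat_lit 360449) (nat_lit 0) .nil)))))) (.g (nat_lit 6) .nil .nil))) 
(.lf (nat_lit 124320) (.g (nat_lit 1386) (.e (nat_lit 7263) (nat_lit 384) (.e (nat_lit 57426) (nat_lit 15) (.e (nat_lit 360491) (nat_lit 22) (.e (nat_lit 778360) (nat_lit 9) (.e (nat_lit 324) (nat_lit 24) (.e (nat_lit 360449) (nat_lit 0) .nil)))))) (.g (nat_lit 0) .nil .nil)))) (.nd (nat_lit 5) 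
(.lf (nat_lit 124304) (.g (nat_lit 2731) (.e (nat_lit 7263) (nat_lit 384) (.e (nat_lit 57426) (nat_lit 15) (.e (nat_lit 360452) (nat_lit 0) (.e (nat_lit 7273) (nat_lit 385) (.e (nat_lit 122917) (nat_lit 15) (.e (nat_lit 360449) (nat_lit 0) .nil)))))) (.g (nat_lit 0) .nil .nil))) 
(.lf (nat_lit 124336) (.g (nat_lit 2707) (.e (nat_lit 7263) (nat_lit 384) (.e (nat_lit 57427) (nat_lit 15) (.e (nat_lit 360450) (nat_lit 0) (.e (nat_lit 7261) (nat_lit 384) (.e (nat_lit 57426) (nat_lit 15) (.e (nat_lit 360449) (nat_lit 0) .nil)))))) (.g (nat_lit 0) .nil .nil))))) (.nd (nat_lit 4) (.nd (nat_lit 5) 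
(.lf (nat_lit 124296) (.g (nat_lit 3258) (.e (nat_lit 7263) (nat_lit 384) (.e (nat_lit 57426) (nat_lit 15) (.e (nat_lit 360452) (nat_lit 0) (.e (nat_lit 7271) (nat_lit 385) (.e (nat_lit 122919) (nat_lit 15) (.e (nat_lit 360450) (nat_lit 0) .nil)))))) (.g (nat_lit 0) .nil .nil))) 
(.lf (nat_lit 124328) (.g (nat_lit 2313) (.e (nat_lit 7263) (nat_lit 384) (.e (nat_lit 57427) (nat_lit 15) (.e (nat_lit 360449) (nat_lit 0) (.e (nat_lit 7265) (nat_lit 384) (.e (nat_lit 57412) (nat_lit 12) (.e (nat_lit 336176) (nat_lit 10) (.e (nat_lit 344091) (nat_lit 18) .nil))))))) (.g (nat_lit 5) .nil .nil)))) (.nd (nat_lit 5) 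
(.lf (nat_lit 124312) (.g (nat_lit 2662) (.e (nat_lit 7263) (nat_lit 384) (.e (nat_lit 57426) (nat_lit 15) (.e (nat_lit 360489) (nat_lit 21) (.e (nat_lit 770071) (nat_lit 8) (.e (nat_lit 65617) (nat_lit 10) (.e (nat_lit 344091) (nat_lit 18) .nil)))))) (.g (nat_lit 6) .nil .nil))) 
(.lf (nat_lit 124344) (.g (nat_lit 4063) (.e (nat_lit 7263) (nat_lit 384) (.e (nat_lit 57427) (nat_lit 15) (.e (nat_lit 360451) (nat_lit 0) (.e (nat_lit 7122) (nat_lit 382) (.e (nat_lit 1201) (nat_lit 88) (.e (nat_lit 65617) (nat_lit 10) (.e (nat_lit 344091) (nat_lit 18) .nil))))))) (.g (nat_lit 7) .nil .nil)))))) (.nd (nat_lit 3) (.nd (nat_lit 4) (.nd (nat_lit 5) 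
(.lf (nat_lit 124292) (.g (nat_lit 3666) (.e (nat_lit 7263) (nat_lit 384) (.e (nat_lit 57426) (nat_lit 15) (.e (nat_lit 360452) (nat_lit 0) (.e (nat_lit 7270) (nat_lit 385) (.e (nat_lit 122919) (nat_lit 15) (.e (nat_lit 360450) (nat_lit 0) .nil)))))) (.g (nat_lit 0) .nil .nil))) 
(.lf (nat_lit 124324) (.g (nat_lit 2301) (.e (nat_lit 7263) (nat_lit 384) (.e (nat_lit 57426) (nat_lit 15) (.e (nat_lit 360491) (nat_lit 22) (.e (nat_lit 778466) (nat_lit 11) (.e (nat_lit 24640) (nat_lit 10) (.e (nat_lit 344090) (nat_lit 18) .nil)))))) (.g (nat_lit 6) .nil .nil)))) (.nd (nat_lit 5) 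
(.lf (nat_lit 124308) (.g (nat_lit 311) (.e (nat_lit 7263) (nat_lit 384) (.e (nat_lit 57426) (nat_lit 15) (.e (nat_lit 360488) (nat_lit 20) .nil))) .nil)) 
(.lf (nat_lit 124340) (.g (nat_lit 2373) (.e (nat_lit 7263) (nat_lit 384) (.e (nat_lit 57427) (nat_lit 15) (.e (nat_lit 360450) (nat_lit 0) (.e (nat_lit 7265) (nat_lit 384) (.e (nat_lit 57412) (nat_lit 12) (.e (nat_lit 336176) (nat_lit 10) (.e (nat_lit 344095) (nat_lit 18) .nil))))))) (.g (nat_lit 5) .nil .nil))))) (.nd (nat_lit 4) (.nd (nat_lit 5) 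
(.lf (nat_lit 124300) (.g (nat_lit 1680) (.e (nat_lit 7263) (nat_lit 384) (.e (nat_lit 57426) (nat_lit 15) (.e (nat_lit 360452) (nat_lit 0) (.e (nat_lit 7272) (nat_lit 385) (.e (nat_lit 122918) (nat_lit 15) .nil))))) .nil)) 
(.lf (nat_lit 124332) (.g (nat_lit 3749) (.e (nat_lit 7263) (nat_lit 384) (.e (nat_lit 57427) (nat_lit 15) (.e (nat_lit 360450) (nat_lit 0) (.e (nat_lit 7122) (nat_lit 382) (.e (nat_lit 1201) (nat_lit 88) (.e (nat_lit 65617) (nat_lit 10) (.e (nat_lit 344095) (nat_lit 18) .nil))))))) (.g (nat_lit 0) .nil .nil)))) (.nd (nat_lit 5) 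
(.lf (nat_lit 124316) (.g (nat_lit 2164) (.e (nat_lit 7263) (nat_lit 384) (.e (nat_lit 57426) (nat_lit 15) (.e (nat_lit 360489) (nat_lit 21) (.e (nat_lit 770072) (nat_lit 8) (.e (nat_lit 65617) (nat_lit 10) (.e (nat_lit 344095) (nat_lit 18) .nil)))))) (.g (nat_lit 0) .nil .nil))) 
(.lf (nat_lit 124348) (.g (nat_lit 3185) (.e (nat_lit 7263) (nat_lit 384) (.e (nat_lit 57427) (nat_lit 15) (.e (nat_lit 360451) (nat_lit 0) (.e (nat_lit 7124) (nat_lit 382) (.e (nat_lit 1201) (nat_lit 88) (.e (nat_lit 65617) (nat_lit 10) (.e (nat_lit 344095) (nat_lit 18) .nil))))))) (.g (nat_lit 0) .nil .nil))))))) (.nd (nat_lit 2) (.nd (nat_lit 3) (.nd (nat_lit 4) (.nd (nat_lit 5) 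
(.lf (nat_lit 124290) (.g (nat_lit 919) (.e (nat_lit 7263) (nat_lit 384) (.e (nat_lit 57426) (nat_lit 15) (.e (nat_lit 360452) (nat_lit 0) (.e (nat_lit 7147) (nat_lit 382) .nil)))) .nil)) 
(.lf (nat_lit 124322) (.g (nat_lit 1956) (.e (nat_lit 7263) (nat_lit 384) (.e (nat_lit 57426) (nat_lit 15) (.e (nat_lit 360491) (nat_lit 22) (.e (nat_lit 778362) (nat_lit 9) (.e (nat_lit 324) (nat_lit 24) (.e (nat_lit 360449) (nat_lit 0) .nil)))))) (.g (nat_lit 0) .nil .nil)))) (.nd (nat_lit 5) 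
(.lf (nat_lit 124306) (.g (nat_lit 3046) (.e (nat_lit 7263) (nat_lit 384) (.e (nat_lit 57426) (nat_lit 15) (.e (nat_lit 360452) (nat_lit 0) (.e (nat_lit 7273) (nat_lit 385) (.e (nat_lit 122919) (nat_lit 15) (.e (nat_lit 360450) (nat_lit 0) .nil)))))) (.g (nat_lit 0) .nil .nil))) 
(.lf (nat_lit 124338) (.g (nat_lit 3452) (.e (nat_lit 7263) (nat_lit 384) (.e (nat_lit 57427) (nat_lit 15) (.e (nat_lit 360450) (nat_lit 0) (.e (nat_lit 7263) (nat_lit 384) (.e (nat_lit 57427) (nat_lit 15) (.e (nat_lit 360450) (nat_lit 0) .nil)))))) (.g (nat_lit 0) .nil .nil))))) (.nd (nat_lit 4) (.nd (nat_lit 5) 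
(.lf (nat_lit 124298) (.g (nat_lit 1609) (.e (nat_lit 7263) (nat_lit 384) (.e (nat_lit 57426) (nat_lit 15) (.e (nat_lit 360452) (nat_lit 0) (.e (nat_lit 7272) (nat_lit 385) (.e (nat_lit 122906) (nat_lit 12) (.e (nat_lit 336172) (nat_lit 10) (.e (nat_lit 344095) (nat_lit 18) .nil))))))) (.g (nat_lit 4) .nil .nil))) 
(.lf (nat_lit 124330) (.g (nat_lit 376) (.e (nat_lit 7263) (nat_lit 384) (.e (nat_lit 57427) (nat_lit 15) (.e (nat_lit 360450) (nat_lit 0) .nil))) .nil))) (.nd (nat_lit 5) 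
(.lf (nat_lit 124314) (.g (nat_lit 2338) (.e (nat_lit 7263) (nat_lit 384) (.e (nat_lit 57426) (nat_lit 15) (.e (nat_lit 360489) (nat_lit 21) (.e (nat_lit 770072) (nat_lit 8) (.e (nat_lit 65610) (nat_lit 10) (.e (nat_lit 344090) (nat_lit 18) .nil)))))) (.g (nat_lit 6) .nil .nil))) 
(.lf (nat_lit 124346) (.g (nat_lit 1767) (.e (nat_lit 7263) (nat_lit 384) (.e (nat_lit 57427) (nat_lit 15) (.e (nat_lit 360451) (nat_lit 0) (.e (nat_lit 7122) (nat_lit 382) (.e (nat_lit 7936) (nat_lit 90) .nil))))) .nil))))) (.nd (nat_lit 3) (.nd (nat_lit 4) (.nd (nat_lit 5) 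
(.lf (nat_lit 124294) (.g (nat_lit 1340) (.e (nat_lit 7263) (nat_lit 384) (.e (nat_lit 57426) (nat_lit 15) (.e (nat_lit 360452) (nat_lit 0) (.e (nat_lit 7271) (nat_lit 385) (.e (nat_lit 122918) (nat_lit 15) (.e (nat_lit 360449) (nat_lit 0) .nil)))))) (.g (nat_lit 4) .nil .nil))) 
(.lf (nat_lit 124326) (.g (nat_lit 1509) (.e (nat_lit 7263) (nat_lit 384) (.e (nat_lit 57427) (nat_lit 15) (.e (nat_lit 360449) (nat_lit 0) (.e (nat_lit 7261) (nat_lit 384) (.e (nat_lit 57412) (nat_lit 12) (.e (nat_lit 336176) (nat_lit 10) (.e (nat_lit 344095) (nat_lit 18) .nil))))))) (.g (nat_lit 4) .nil .nil)))) (.nd (nat_lit 5) 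
(.lf (nat_lit 124310) (.g (nat_lit 1933) (.e (nat_lit 7263) (nat_lit 384) (.e (nat_lit 57426) (nat_lit 15) (.e (nat_lit 360488) (nat_lit 20) (.e (nat_lit 761868) (nat_lit 5) (.e (nat_lit 1597) (nat_lit 111) (.e (nat_lit 360449) (nat_lit 0) .nil)))))) (.g (nat_lit 0) .nil .nil))) 
(.lf (nat_lit 124342) (.g (nat_lit 2247) (.e (nat_lit 7263) (nat_lit 384) (.e (nat_lit 57427) (nat_lit 15) (.e (nat_lit 360450) (nat_lit 0) (.e (nat_lit 7266) (nat_lit 384) (.e (nat_lit 57427) (nat_lit 15) (.e (nat_lit 360449) (nat_lit 0) .nil)))))) (.g (nat_lit 4) .nil .nil))))) (.nd (nat_lit 4) (.nd (nat_lit 5) 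
(.lf (nat_lit 124302) (.g (nat_lit 3954) (.e (nat_lit 7263) (nat_lit 384) (.e (nat_lit 57426) (nat_lit 15) (.e (nat_lit 360452) (nat_lit 0) (.e (nat_lit 7272) (nat_lit 385) (.e (nat_lit 122919) (nat_lit 15) (.e (nat_lit 360451) (nat_lit 0) .nil)))))) (.g (nat_lit 6) .nil .nil))) 
(.lf (nat_lit 124334) (.g (nat_lit 1877) (.e (nat_lit 7263) (nat_lit 384) (.e (nat_lit 57427) (nat_lit 15) (.e (nat_lit 360450) (nat_lit 0) (.e (nat_lit 7125) (nat_lit 382) (.e (nat_lit 1224) (nat_lit 90) .nil))))) .nil))) (.nd (nat_lit 5) 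
(.lf (nat_lit 124318) (.g (nat_lit 1319) (.e (nat_lit 7263) (nat_lit 384) (.e (nat_lit 57426) (nat_lit 15) (.e (nat_lit 360490) (nat_lit 22) (.e (nat_lit 778337) (nat_lit 9) (.e (nat_lit 323) (nat_lit 24) (.e (nat_lit 360449) (nat_lit 0) .nil)))))) (.g (nat_lit 0) .nil .nil))) 
(.lf (nat_lit 124350) (.g (nat_lit 4202) (.e (nat_lit 7263) (nat_lit 384) (.e (nat_lit 57427) (nat_lit 15) (.e (nat_lit 360451) (nat_lit 0) (.e (nat_lit 7125) (nat_lit 382) (.e (nat_lit 1201) (nat_lit 88) (.e (nat_lit 65617) (nat_lit 10) (.e (nat_lit 344091) (nat_lit 18) .nil))))))) (.g (nat_lit 7) .nil .nil)))))))) 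
(.nd (nat_lit 1) (.nd (nat_lit 2) (.nd (nat_lit 3) (.nd (nat_lit 4) (.nd (nat_lit 5) 
(.lf (nat_lit 124289) (.g (nat_lit 3156) (.e (nat_lit 7263) (nat_lit 384) (.e (nat_lit 57426) (nat_lit 15) (.e (nat_lit 360451) (nat_lit 0) (.e (nat_lit 7266) (nat_lit 384) (.e (nat_lit 57427) (nat_lit 15) (.e (nat_lit 360451) (nat_lit 0) .nil)))))) (.g (nat_lit 6) .nil .nil))) 
(.lf (nat_lit 124321) (.g (nat_lit 1820) (.e (nat_lit 7263) (nat_lit 384) (.e (nat_lit 57426) (nat_lit 15) (.e (nat_lit 360491) (nat_lit 22) (.e (nat_lit 778361) (nat_lit 9) (.e (nat_lit 324) (nat_lit 24) (.e (nat_lit 360449) (nat_lit 0) .nil)))))) (.g (nat_lit 0) .nil .nil)))) (.nd (nat_lit 5) 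
(.lf (nat_lit 124305) (.g (nat_lit 2045) (.e (nat_lit 7263) (nat_lit 384) (.e (nat_lit 57426) (nat_lit 15) (.e (nat_lit 360452) (nat_lit 0) (.e (nat_lit 7273) (nat_lit 385) (.e (nat_lit 122919) (nat_lit 15) (.e (nat_lit 360449) (nat_lit 0) .nil)))))) (.g (nat_lit 5) .nil .nil))) 
(.lf (nat_lit 124337) (.g (nat_lit 3483) (.e (nat_lit 7263) (nat_lit 384) (.e (nat_lit 57427) (nat_lit 15) (.e (nat_lit 360450) (nat_lit 0) (.e (nat_lit 7261) (nat_lit 384) (.e (nat_lit 57427) (nat_lit 15) (.e (nat_lit 360450) (nat_lit 0) .nil)))))) (.g (nat_lit 0) .nil .nil))))) (.nd (nat_lit 4) (.nd (nat_lit 5) 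
(.lf (nat_lit 124297) (.g (nat_lit 3688) (.e (nat_lit 7263) (nat_lit 384) (.e (nat_lit 57426) (nat_lit 15) (.e (nat_lit 360452) (nat_lit 0) (.e (nat_lit 7271) (nat_lit 385) (.e (nat_lit 122919) (nat_lit 15) (.e (nat_lit 360451) (nat_lit 0) .nil)))))) (.g (nat_lit 6) .nil .nil))) 
(.lf (nat_lit 124329) (.g (nat_lit 2248) (.e (nat_lit 7263) (nat_lit 384) (.e (nat_lit 57427) (nat_lit 15) (.e (nat_lit 360449) (nat_lit 0) (.e (nat_lit 7265) (nat_lit 384) (.e (nat_lit 57412) (nat_lit 12) (.e (nat_lit 336176) (nat_lit 10) (.e (nat_lit 344096) (nat_lit 18) .nil))))))) (.g (nat_lit 5) .nil .nil)))) (.nd (nat_lit 5) 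
(.lf (nat_lit 124313) (.g (nat_lit 2209) (.e (nat_lit 7263) (nat_lit 384) (.e (nat_lit 57426) (nat_lit 15) (.e (nat_lit 360489) (nat_lit 21) (.e (nat_lit 770071) (nat_lit 8) (.e (nat_lit 65617) (nat_lit 10) (.e (nat_lit 344095) (nat_lit 18) .nil)))))) (.g (nat_lit 0) .nil .nil))) 
(.lf (nat_lit 124345) (.g (nat_lit 3633) (.e (nat_lit 7263) (nat_lit 384) (.e (nat_lit 57427) (nat_lit 15) (.e (nat_lit 360451) (nat_lit 0) (.e (nat_lit 7122) (nat_lit 382) (.e (nat_lit 1201) (nat_lit 88) (.e (nat_lit 65617) (nat_lit 10) (.e (nat_lit 344095) (nat_lit 18) .nil))))))) (.g (nat_lit 0) .nil .nil)))))) (.nd (nat_lit 3) (.nd (nat_lit 4) (.nd (nat_lit 5) 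
(.lf (nat_lit 124293) (.g (nat_lit 2794) (.e (nat_lit 7263) (nat_lit 384) (.e (nat_lit 57426) (nat_lit 15) (.e (nat_lit 360452) (nat_lit 0) (.e (nat_lit 7271) (nat_lit 385) (.e (nat_lit 122917) (nat_lit 15) (.e (nat_lit 360449) (nat_lit 0) .nil)))))) (.g (nat_lit 0) .nil .nil))) 
(.lf (nat_lit 124325) (.g (nat_lit 1914) (.e (nat_lit 7263) (nat_lit 384) (.e (nat_lit 57426) (nat_lit 15) (.e (nat_lit 360491) (nat_lit 22) (.e (nat_lit 778466) (nat_lit 11) (.e (nat_lit 24641) (nat_lit 10) (.e (nat_lit 344095) (nat_lit 18) .nil)))))) (.g (nat_lit 6) .nil .nil)))) (.nd (nat_lit 5) 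
(.lf (nat_lit 124309) (.g (nat_lit 1903) (.e (nat_lit 7263) (nat_lit 384) (.e (nat_lit 57426) (nat_lit 15) (.e (nat_lit 360488) (nat_lit 20) (.e (nat_lit 761866) (nat_lit 5) (.e (nat_lit 1597) (nat_lit 111) (.e (nat_lit 360449) (nat_lit 0) .nil)))))) (.g (nat_lit 0) .nil .nil))) 
(.lf (nat_lit 124341) (.g (nat_lit 1817) (.e (nat_lit 7263) (nat_lit 384) (.e (nat_lit 57427) (nat_lit 15) (.e (nat_lit 360450) (nat_lit 0) (.e (nat_lit 7265) (nat_lit 384) (.e (nat_lit 57427) (nat_lit 15) (.e (nat_lit 360449) (nat_lit 0) .nil)))))) (.g (nat_lit 4) .nil .nil))))) (.nd (nat_lit 4) (.nd (nat_lit 5) 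
(.lf (nat_lit 124301) (.g (nat_lit 3565) (.e (nat_lit 7263) (nat_lit 384) (.e (nat_lit 57426) (nat_lit 15) (.e (nat_lit 360452) (nat_lit 0) (.e (nat_lit 7272) (nat_lit 385) (.e (nat_lit 122919) (nat_lit 15) (.e (nat_lit 360450) (nat_lit 0) .nil)))))) (.g (nat_lit 0) .nil .nil))) 
(.lf (nat_lit 124333) (.g (nat_lit 4096) (.e (nat_lit 7263) (nat_lit 384) (.e (nat_lit 57427) (nat_lit 15) (.e (nat_lit 360450) (nat_lit 0) (.e (nat_lit 7125) (nat_lit 382) (.e (nat_lit 1201) (nat_lit 88) (.e (nat_lit 65617) (nat_lit 10) (.e (nat_lit 344091) (nat_lit 18) .nil))))))) (.g (nat_lit 6) .nil .nil)))) (.nd (nat_lit 5) 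
(.lf (nat_lit 124317) (.g (nat_lit 1419) (.e (nat_lit 7263) (nat_lit 384) (.e (nat_lit 57426) (nat_lit 15) (.e (nat_lit 360490) (nat_lit 22) (.e (nat_lit 778334) (nat_lit 9) (.e (nat_lit 323) (nat_lit 24) (.e (nat_lit 360449) (nat_lit 0) .nil)))))) (.g (nat_lit 0) .nil .nil))) 
(.lf (nat_lit 124349) (.g (nat_lit 3821) (.e (nat_lit 7263) (nat_lit 384) (.e (nat_lit 57427) (nat_lit 15) (.e (nat_lit 360451) (nat_lit 0) (.e (nat_lit 7125) (nat_lit 382) (.e (nat_lit 1201) (nat_lit 88) (.e (nat_lit 65610) (nat_lit 10) (.e (nat_lit 344090) (nat_lit 18) .nil))))))) (.g (nat_lit 7) .nil .nil))))))) (.nd (nat_lit 2) (.nd (nat_lit 3) (.nd (nat_lit 4) (.nd (nat_lit 5) 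
(.lf (nat_lit 124291) (.g (nat_lit 3581) (.e (nat_lit 7263) (nat_lit 384) (.e (nat_lit 57426) (nat_lit 15) (.e (nat_lit 360452) (nat_lit 0) (.e (nat_lit 7270) (nat_lit 385) (.e (nat_lit 122917) (nat_lit 15) (.e (nat_lit 360449) (nat_lit 0) .nil)))))) (.g (nat_lit 0) .nil .nil))) 
(.lf (nat_lit 124323) (.g (nat_lit 2300) (.e (nat_lit 7263) (nat_lit 384) (.e (nat_lit 57426) (nat_lit 15) (.e (nat_lit 360491) (nat_lit 22) (.e (nat_lit 778466) (nat_lit 11) (.e (nat_lit 24640) (nat_lit 10) (.e (nat_lit 344088) (nat_lit 18) .nil)))))) (.g (nat_lit 6) .nil .nil)))) (.nd (nat_lit 5) 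
(.lf (nat_lit 124307) (.g (nat_lit 3383) (.e (nat_lit 7263) (nat_lit 384) (.e (nat_lit 57426) (nat_lit 15) (.e (nat_lit 360452) (nat_lit 0) (.e (nat_lit 7273) (nat_lit 385) (.e (nat_lit 122919) (nat_lit 15) (.e (nat_lit 360451) (nat_lit 0) .nil)))))) (.g (nat_lit 6) .nil .nil))) 
(.lf (nat_lit 124339) (.g (nat_lit 3254) (.e (nat_lit 7263) (nat_lit 384) (.e (nat_lit 57427) (nat_lit 15) (.e (nat_lit 360450) (nat_lit 0) (.e (nat_lit 7263) (nat_lit 384) (.e (nat_lit 57427) (nat_lit 15) (.e (nat_lit 360451) (nat_lit 0) .nil)))))) (.g (nat_lit 0) .nil .nil))))) (.nd (nat_lit 4) (.nd (nat_lit 5) 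
(.lf (nat_lit 124299) (.g (nat_lit 3460) (.e (nat_lit 7263) (nat_lit 384) (.e (nat_lit 57426) (nat_lit 15) (.e (nat_lit 360452) (nat_lit 0) (.e (nat_lit 7272) (nat_lit 385) (.e (nat_lit 122917) (nat_lit 15) (.e (nat_lit 360449) (nat_lit 0) .nil)))))) (.g (nat_lit 0) .nil .nil))) 
(.lf (nat_lit 124331) (.g (nat_lit 1706) (.e (nat_lit 7263) (nat_lit 384) (.e (nat_lit 57427) (nat_lit 15) (.e (nat_lit 360450) (nat_lit 0) (.e (nat_lit 7119) (nat_lit 382) .nil)))) .nil))) (.nd (nat_lit 5) 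
(.lf (nat_lit 124315) (.g (nat_lit 2621) (.e (nat_lit 7263) (nat_lit 384) (.e (nat_lit 57426) (nat_lit 15) (.e (nat_lit 360489) (nat_lit 21) (.e (nat_lit 770072) (nat_lit 8) (.e (nat_lit 65617) (nat_lit 10) (.e (nat_lit 344091) (nat_lit 18) .nil)))))) (.g (nat_lit 6) .nil .nil))) 
(.lf (nat_lit 124347) (.g (nat_lit 3630) (.e (nat_lit 7263) (nat_lit 384) (.e (nat_lit 57427) (nat_lit 15) (.e (nat_lit 360451) (nat_lit 0) (.e (nat_lit 7124) (nat_lit 382) (.e (nat_lit 1201) (nat_lit 88) (.e (nat_lit 65617) (nat_lit 10) (.e (nat_lit 344091) (nat_lit 18) .nil))))))) (.g (nat_lit 7) .nil .nil)))))) (.nd (nat_lit 3) (.nd (nat_lit 4) (.nd (nat_lit 5) 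
(.lf (nat_lit 124295) (.g (nat_lit 1462) (.e (nat_lit 7263) (nat_lit 384) (.e (nat_lit 57426) (nat_lit 15) (.e (nat_lit 360452) (nat_lit 0) (.e (nat_lit 7271) (nat_lit 385) (.e (nat_lit 122918) (nat_lit 15) (.e (nat_lit 360451) (nat_lit 0) .nil)))))) (.g (nat_lit 4) .nil .nil))) 
(.lf (nat_lit 124327) (.g (nat_lit 1271) (.e (nat_lit 7263) (nat_lit 384) (.e (nat_lit 57427) (nat_lit 15) (.e (nat_lit 360449) (nat_lit 0) (.e (nat_lit 7261) (nat_lit 384) (.e (nat_lit 57426) (nat_lit 15) .nil))))) .nil))) (.nd (nat_lit 5) 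
(.lf (nat_lit 124311) (.g (nat_lit 2155) (.e (nat_lit 7263) (nat_lit 384) (.e (nat_lit 57426) (nat_lit 15) (.e (nat_lit 360489) (nat_lit 21) (.e (nat_lit 770071) (nat_lit 8) (.e (nat_lit 65610) (nat_lit 10) (.e (nat_lit 344090) (nat_lit 18) .nil)))))) (.g (nat_lit 6) .nil .nil))) 
(.lf (nat_lit 124343) (.g (nat_lit 1580) (.e (nat_lit 7263) (nat_lit 384) (.e (nat_lit 57427) (nat_lit 15) (.e (nat_lit 360451) (nat_lit 0) (.e (nat_lit 7119) (nat_lit 382) .nil)))) .nil)))) (.nd (nat_lit 4) (.nd (nat_lit 5) 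
(.lf (nat_lit 124303) (.g (nat_lit 988) (.e (nat_lit 7263) (nat_lit 384) (.e (nat_lit 57426) (nat_lit 15) (.e (nat_lit 360452) (nat_lit 0) (.e (nat_lit 7273) (nat_lit 385) .nil)))) .nil)) 
(.lf (nat_lit 124335) (.g (nat_lit 1811) (.e (nat_lit 7263) (nat_lit 384) (.e (nat_lit 57427) (nat_lit 15) (.e (nat_lit 360450) (nat_lit 0) (.e (nat_lit 7128) (nat_lit 382) .nil)))) .nil))) (.nd (nat_lit 5) 
(.lf (nat_lit 124319) (.g (nat_lit 1401) (.e (nat_lit 7263) (nat_lit 384) (.e (nat_lit 57426) (nat_lit 15) (.e (nat_lit 360490) (nat_lit 22) (.e (nat_lit 778339) (nat_lit 9) (.e (nat_lit 323) (nat_lit 24) (.e (nat_lit 360449) (nat_lit 0) .nil)))))) (.g (nat_lit 0) .nil .nil))) 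
(.lf (nat_lit 124351) (.g (nat_lit 3778) (.e (nat_lit 7263) (nat_lit 384) (.e (nat_lit 57427) (nat_lit 15) (.e (nat_lit 360451) (nat_lit 0) (.e (nat_lit 7125) (nat_lit 382) (.e (nat_lit 1201) (nat_lit 88) (.e (nat_lit 65617) (nat_lit 10) (.e (nat_lit 344095) (nat_lit 18) .nil))))))) (.g (nat_lit 0) .nil .nil)))))))))

noncomputable def tv1665 : DT := (.nd (nat_lit 0) (.nd (nat_lit 1) (.nd (nat_lit 2) (.nd (nat_lit 3) (.nd (nat_lit 4) (.nd (nat_lit 5) 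
(.lf (nat_lit 124352) (.g (nat_lit 3060) (.e (nat_lit 7263) (nat_lit 384) (.e (nat_lit 57427) (nat_lit 15) (.e (nat_lit 360451) (nat_lit 0) (.e (nat_lit 7263) (nat_lit 384) (.e (nat_lit 57427) (nat_lit 15) (.e (nat_lit 360451) (nat_lit 0) .nil)))))) (.g (nat_lit 0) .nil .nil))) 
(.lf (nat_lit 124384) (.g (nat_lit 1634) (.e (nat_lit 7263) (nat_lit 384) (.e (nat_lit 57435) (nat_lit 17) (.e (nat_lit 376842) (nat_lit 11) (.e (nat_lit 426010) (nat_lit 0) .nil)))) .nil))) (.nd (nat_lit 5) 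
(.lf (nat_lit 124368) (.g (nat_lit 1938) (.e (nat_lit 7263) (nat_lit 384) (.e (nat_lit 57427) (nat_lit 15) (.e (nat_lit 360491) (nat_lit 22) (.e (nat_lit 778465) (nat_lit 11) (.e (nat_lit 24639) (nat_lit 10) (.e (nat_lit 344095) (nat_lit 18) .nil)))))) (.g (nat_lit 5) .nil .nil))) 
(.lf (nat_lit 124400) (.g (nat_lit 1966) (.e (nat_lit 7263) (nat_lit 384) (.e (nat_lit 57436) (nat_lit 17) (.e (nat_lit 376842) (nat_lit 11) (.e (nat_lit 426342) (nat_lit 14) (.e (nat_lit 491558) (nat_lit 10) (.e (nat_lit 344096) (nat_lit 18) .nil)))))) (.g (nat_lit 4) .nil .nil))))) (.nd (nat_lit 4) (.nd (nat_lit 5) 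
(.lf (nat_lit 124360) (.g (nat_lit 3432) (.e (nat_lit 7263) (nat_lit 384) (.e (nat_lit 57427) (nat_lit 15) (.e (nat_lit 360451) (nat_lit 0) (.e (nat_lit 7266) (nat_lit 384) (.e (nat_lit 57427) (nat_lit 15) (.e (nat_lit 360451) (nat_lit 0) .nil)))))) (.g (nat_lit 6) .nil .nil))) 
(.lf (nat_lit 124392) (.g (nat_lit 1758) (.e (nat_lit 7263) (nat_lit 384) (.e (nat_lit 57436) (nat_lit 17) (.e (nat_lit 376842) (nat_lit 11) (.e (nat_lit 426003) (nat_lit 0) .nil)))) .nil))) (.nd (nat_lit 5) 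
(.lf (nat_lit 124376) (.g (nat_lit 1437) (.e (nat_lit 7263) (nat_lit 384) (.e (nat_lit 57427) (nat_lit 15) (.e (nat_lit 360492) (nat_lit 22) (.e (nat_lit 778466) (nat_lit 11) (.e (nat_lit 24640) (nat_lit 10) (.e (nat_lit 344088) (nat_lit 18) .nil)))))) (.g (nat_lit 4) .nil .nil))) 
(.lf (nat_lit 124408) (.g (nat_lit 2392) (.e (nat_lit 7264) (nat_lit 384) (.e (nat_lit 57426) (nat_lit 15) (.e (nat_lit 360491) (nat_lit 22) (.e (nat_lit 778466) (nat_lit 11) (.e (nat_lit 24640) (nat_lit 10) (.e (nat_lit 344088) (nat_lit 18) .nil)))))) (.g (nat_lit 0) .nil .nil)))))) (.nd (nat_lit 3) (.nd (nat_lit 4) (.nd (nat_lit 5) 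
(.lf (nat_lit 124356) (.g (nat_lit 2990) (.e (nat_lit 7263) (nat_lit 384) (.e (nat_lit 57427) (nat_lit 15) (.e (nat_lit 360451) (nat_lit 0) (.e (nat_lit 7265) (nat_lit 384) (.e (nat_lit 57426) (nat_lit 15) (.e (nat_lit 360449) (nat_lit 0) .nil)))))) (.g (nat_lit 0) .nil .nil))) 
(.lf (nat_lit 124388) (.g (nat_lit 1371) (.e (nat_lit 7263) (nat_lit 384) (.e (nat_lit 57435) (nat_lit 17) (.e (nat_lit 376842) (nat_lit 11) (.e (nat_lit 426343) (nat_lit 14) .nil)))) .nil))) (.nd (nat_lit 5) 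
(.lf (nat_lit 124372) (.g (nat_lit 2501) (.e (nat_lit 7263) (nat_lit 384) (.e (nat_lit 57427) (nat_lit 15) (.e (nat_lit 360491) (nat_lit 22) (.e (nat_lit 778466) (nat_lit 11) (.e (nat_lit 24640) (nat_lit 10) (.e (nat_lit 344095) (nat_lit 18) .nil)))))) (.g (nat_lit 6) .nil .nil))) 
(.lf (nat_lit 124404) (.g (nat_lit 2380) (.e (nat_lit 7263) (nat_lit 384) (.e (nat_lit 57436) (nat_lit 17) (.e (nat_lit 376842) (nat_lit 11) (.e (nat_lit 426344) (nat_lit 14) (.e (nat_lit 491558) (nat_lit 10) (.e (nat_lit 344095) (nat_lit 18) .nil)))))) (.g (nat_lit 4) .nil .nil))))) (.nd (nat_lit 4) (.nd (nat_lit 5) 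
(.lf (nat_lit 124364) (.g (nat_lit 2446) (.e (nat_lit 7263) (nat_lit 384) (.e (nat_lit 57427) (nat_lit 15) (.e (nat_lit 360489) (nat_lit 21) (.e (nat_lit 770072) (nat_lit 8) (.e (nat_lit 65610) (nat_lit 10) (.e (nat_lit 344090) (nat_lit 18) .nil)))))) (.g (nat_lit 6) .nil .nil))) 
(.lf (nat_lit 124396) (.g (nat_lit 2397) (.e (nat_lit 7263) (nat_lit 384) (.e (nat_lit 57436) (nat_lit 17) (.e (nat_lit 376842) (nat_lit 11) (.e (nat_lit 426012) (nat_lit 0) (.e (nat_lit 7593) (nat_lit 407) (.e (nat_lit 73729) (nat_lit 0) .nil)))))) (.g (nat_lit 4) .nil .nil)))) (.nd (nat_lit 5) 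
(.lf (nat_lit 124380) (.g (nat_lit 2237) (.e (nat_lit 7263) (nat_lit 384) (.e (nat_lit 57428) (nat_lit 15) (.e (nat_lit 360489) (nat_lit 21) (.e (nat_lit 770071) (nat_lit 8) (.e (nat_lit 65617) (nat_lit 10) (.e (nat_lit 344096) (nat_lit 18) .nil)))))) (.g (nat_lit 5) .nil .nil))) 
(.lf (nat_lit 124412) (.g (nat_lit 2327) (.e (nat_lit 7265) (nat_lit 384) (.e (nat_lit 57347) (nat_lit 0) (.e (nat_lit 2029) (nat_lit 140) (.e (nat_lit 688182) (nat_lit 17) (.e (nat_lit 73755) (nat_lit 8) (.e (nat_lit 557089) (nat_lit 12) (.e (nat_lit 171776) (nat_lit 192) (.e (nat_lit 73730) (nat_lit 0) .nil)))))))) (.g (nat_lit 5) .nil .nil))))))) 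
(.nd (nat_lit 2) (.nd (nat_lit 3) (.nd (nat_lit 4) (.nd (nat_lit 5) 
(.lf (nat_lit 124354) (.g (nat_lit 3023) (.e (nat_lit 7263) (nat_lit 384) (.e (nat_lit 57427) (nat_lit 15) (.e (nat_lit 360451) (nat_lit 0) (.e (nat_lit 7265) (nat_lit 384) (.e (nat_lit 57412) (nat_lit 12) (.e (nat_lit 336176) (nat_lit 10) (.e (nat_lit 344095) (nat_lit 18) .nil))))))) (.g (nat_lit 0) .nil .nil))) 
(.lf (nat_lit 124386) (.g (nat_lit 1973) (.e (nat_lit 7263) (nat_lit 384) (.e (nat_lit 57435) (nat_lit 17) (.e (nat_lit 376842) (nat_lit 11) (.e (nat_lit 426011) (nat_lit 0) (.e (nat_lit 7593) (nat_lit 407) .nil))))) .nil))) (.nd (nat_lit 5) 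
(.lf (nat_lit 124370) (.g (nat_lit 2440) (.e (nat_lit 7263) (nat_lit 384) (.e (nat_lit 57427) (nat_lit 15) (.e (nat_lit 360491) (nat_lit 22) (.e (nat_lit 778466) (nat_lit 11) (.e (nat_lit 24640) (nat_lit 10) (.e (nat_lit 344090) (nat_lit 18) .nil)))))) (.g (nat_lit 6) .nil .nil))) 
(.lf (nat_lit 124402) (.g (nat_lit 1997) (.e (nat_lit 7263) (nat_lit 384) (.e (nat_lit 57436) (nat_lit 17) (.e (nat_lit 376842) (nat_lit 11) (.e (nat_lit 426343) (nat_lit 14) (.e (nat_lit 491558) (nat_lit 10) .nil))))) .nil)))) (.nd (nat_lit 4) (.nd (nat_lit 5) 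
(.lf (nat_lit 124362) (.g (nat_lit 2795) (.e (nat_lit 7263) (nat_lit 384) (.e (nat_lit 57427) (nat_lit 15) (.e (nat_lit 360489) (nat_lit 21) (.e (nat_lit 770071) (nat_lit 8) (.e (nat_lit 65617) (nat_lit 10) (.e (nat_lit 344091) (nat_lit 18) .nil)))))) (.g (nat_lit 6) .nil .nil))) 
(.lf (nat_lit 124394) (.g (nat_lit 2961) (.e (nat_lit 7263) (nat_lit 384) (.e (nat_lit 57436) (nat_lit 17) (.e (nat_lit 376842) (nat_lit 11) (.e (nat_lit 426011) (nat_lit 0) (.e (nat_lit 7593) (nat_lit 407) (.e (nat_lit 73729) (nat_lit 0) .nil)))))) (.g (nat_lit 5) .nil .nil)))) (.nd (nat_lit 5) 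
(.lf (nat_lit 124378) (.g (nat_lit 1637) (.e (nat_lit 7263) (nat_lit 384) (.e (nat_lit 57428) (nat_lit 15) (.e (nat_lit 360489) (nat_lit 21) (.e (nat_lit 770071) (nat_lit 8) (.e (nat_lit 65610) (nat_lit 10) (.e (nat_lit 344090) (nat_lit 18) .nil)))))) (.g (nat_lit 4) .nil .nil))) 
(.lf (nat_lit 124410) (.g (nat_lit 2514) (.e (nat_lit 7265) (nat_lit 384) (.e (nat_lit 57347) (nat_lit 0) (.e (nat_lit 2029) (nat_lit 140) (.e (nat_lit 688181) (nat_lit 17) (.e (nat_lit 73755) (nat_lit 8) (.e (nat_lit 557090) (nat_lit 12) (.e (nat_lit 171776) (nat_lit 192) (.e (nat_lit 73731) (nat_lit 0) .nil)))))))) (.g (nat_lit 5) .nil .nil)))))) 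
(.nd (nat_lit 3) (.nd (nat_lit 4) (.nd (nat_lit 5) 
(.lf (nat_lit 124358) (.g (nat_lit 3541) (.e (nat_lit 7263) (nat_lit 384) (.e (nat_lit 57427) (nat_lit 15) (.e (nat_lit 360451) (nat_lit 0) (.e (nat_lit 7265) (nat_lit 384) (.e (nat_lit 57427) (nat_lit 15) (.e (nat_lit 360451) (nat_lit 0) .nil)))))) (.g (nat_lit 0) .nil .nil))) 
(.lf (nat_lit 124390) (.g (nat_lit 1646) (.e (nat_lit 7263) (nat_lit 384) (.e (nat_lit 57435) (nat_lit 17) (.e (nat_lit 376842) (nat_lit 11) (.e (nat_lit 426344) (nat_lit 14) .nil)))) .nil))) (.nd (nat_lit 5) 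
(.lf (nat_lit 124374) (.g (nat_lit 1371) (.e (nat_lit 7263) (nat_lit 384) (.e (nat_lit 57427) (nat_lit 15) (.e (nat_lit 360492) (nat_lit 22) (.e (nat_lit 778465) (nat_lit 11) (.e (nat_lit 24639) (nat_lit 10) .nil))))) .nil)) 
(.lf (nat_lit 124406) (.g (nat_lit 955) (.e (nat_lit 7263) (nat_lit 384) (.e (nat_lit 57436) (nat_lit 17) (.e (nat_lit 376855) (nat_lit 20) (.e (nat_lit 2276) (nat_lit 150) .nil)))) .nil)))) (.nd (nat_lit 4) (.nd (nat_lit 5) 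
(.lf (nat_lit 124366) (.g (nat_lit 2248) (.e (nat_lit 7263) (nat_lit 384) (.e (nat_lit 57427) (nat_lit 15) (.e (nat_lit 360489) (nat_lit 21) (.e (nat_lit 770072) (nat_lit 8) (.e (nat_lit 65617) (nat_lit 10) (.e (nat_lit 344095) (nat_lit 18) .nil)))))) (.g (nat_lit 0) .nil .nil))) 
(.lf (nat_lit 124398) (.g (nat_lit 1519) (.e (nat_lit 7263) (nat_lit 384) (.e (nat_lit 57436) (nat_lit 17) (.e (nat_lit 376842) (nat_lit 11) (.e (nat_lit 426342) (nat_lit 14) .nil)))) .nil))) (.nd (nat_lit 5) 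
(.lf (nat_lit 124382) (.g (nat_lit 2093) (.e (nat_lit 7263) (nat_lit 384) (.e (nat_lit 57428) (nat_lit 15) (.e (nat_lit 360489) (nat_lit 21) (.e (nat_lit 770072) (nat_lit 8) (.e (nat_lit 65617) (nat_lit 10) (.e (nat_lit 344096) (nat_lit 18) .nil)))))) (.g (nat_lit 5) .nil .nil))) 
(.lf (nat_lit 124414) (.g (nat_lit 2872) (.e (nat_lit 7265) (nat_lit 384) (.e (nat_lit 57347) (nat_lit 0) (.e (nat_lit 2031) (nat_lit 140) (.e (nat_lit 688182) (nat_lit 17) (.e (nat_lit 73755) (nat_lit 8) (.e (nat_lit 557089) (nat_lit 12) (.e (nat_lit 171776) (nat_lit 192) (.e (nat_lit 73730) (nat_lit 0) .nil)))))))) (.g (nat_lit 5) .nil .nil)))))))) 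
(.nd (nat_lit 1) (.nd (nat_lit 2) (.nd (nat_lit 3) (.nd (nat_lit 4) (.nd (nat_lit 5) 
(.lf (nat_lit 124353) (.g (nat_lit 3367) (.e (nat_lit 7263) (nat_lit 384) (.e (nat_lit 57427) (nat_lit 15) (.e (nat_lit 360451) (nat_lit 0) (.e (nat_lit 7265) (nat_lit 384) (.e (nat_lit 57412) (nat_lit 12) (.e (nat_lit 336176) (nat_lit 10) (.e (nat_lit 344091) (nat_lit 18) .nil))))))) (.g (nat_lit 7) .nil .nil))) 
(.lf (nat_lit 124385) (.g (nat_lit 1372) (.e (nat_lit 7263) (nat_lit 384) (.e (nat_lit 57435) (nat_lit 17) (.e (nat_lit 376842) (nat_lit 11) (.e (nat_lit 426011) (nat_lit 0) .nil)))) .nil))) (.nd (nat_lit 5) 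
(.lf (nat_lit 124369) (.g (nat_lit 2439) (.e (nat_lit 7263) (nat_lit 384) (.e (nat_lit 57427) (nat_lit 15) (.e (nat_lit 360491) (nat_lit 22) (.e (nat_lit 778466) (nat_lit 11) (.e (nat_lit 24640) (nat_lit 10) (.e (nat_lit 344088) (nat_lit 18) .nil)))))) (.g (nat_lit 6) .nil .nil))) 
(.lf (nat_lit 124401) (.g (nat_lit 1878) (.e (nat_lit 7263) (nat_lit 384) (.e (nat_lit 57436) (nat_lit 17) (.e (nat_lit 376842) (nat_lit 11) (.e (nat_lit 426342) (nat_lit 14) (.e (nat_lit 491560) (nat_lit 10) (.e (nat_lit 344096) (nat_lit 18) .nil)))))) (.g (nat_lit 4) .nil .nil))))) (.nd (nat_lit 4) (.nd (nat_lit 5) 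
(.lf (nat_lit 124361) (.g (nat_lit 2318) (.e (nat_lit 7263) (nat_lit 384) (.e (nat_lit 57427) (nat_lit 15) (.e (nat_lit 360489) (nat_lit 21) (.e (nat_lit 770071) (nat_lit 8) (.e (nat_lit 65610) (nat_lit 10) (.e (nat_lit 344090) (nat_lit 18) .nil)))))) (.g (nat_lit 6) .nil .nil))) 
(.lf (nat_lit 124393) (.g (nat_lit 2287) (.e (nat_lit 7263) (nat_lit 384) (.e (nat_lit 57436) (nat_lit 17) (.e (nat_lit 376842) (nat_lit 11) (.e (nat_lit 426011) (nat_lit 0) (.e (nat_lit 7591) (nat_lit 407) (.e (nat_lit 73730) (nat_lit 0) .nil)))))) (.g (nat_lit 4) .nil .nil)))) (.nd (nat_lit 5) 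
(.lf (nat_lit 124377) (.g (nat_lit 1564) (.e (nat_lit 7263) (nat_lit 384) (.e (nat_lit 57428) (nat_lit 15) (.e (nat_lit 360449) (nat_lit 0) (.e (nat_lit 7125) (nat_lit 382) (.e (nat_lit 1201) (nat_lit 88) .nil))))) .nil)) 
(.lf (nat_lit 124409) (.g (nat_lit 1430) (.e (nat_lit 7264) (nat_lit 384) (.e (nat_lit 57427) (nat_lit 15) (.e (nat_lit 360492) (nat_lit 22) (.e (nat_lit 778466) (nat_lit 11) (.e (nat_lit 24640) (nat_lit 10) .nil))))) .nil))))) (.nd (nat_lit 3) (.nd (nat_lit 4) (.nd (nat_lit 5) 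
(.lf (nat_lit 124357) (.g (nat_lit 3746) (.e (nat_lit 7263) (nat_lit 384) (.e (nat_lit 57427) (nat_lit 15) (.e (nat_lit 360451) (nat_lit 0) (.e (nat_lit 7265) (nat_lit 384) (.e (nat_lit 57427) (nat_lit 15) (.e (nat_lit 360450) (nat_lit 0) .nil)))))) (.g (nat_lit 0) .nil .nil))) 
(.lf (nat_lit 124389) (.g (nat_lit 1992) (.e (nat_lit 7263) (nat_lit 384) (.e (nat_lit 57435) (nat_lit 17) (.e (nat_lit 376842) (nat_lit 11) (.e (nat_lit 426343) (nat_lit 14) (.e (nat_lit 491558) (nat_lit 10) .nil))))) .nil))) (.nd (nat_lit 5) 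
(.lf (nat_lit 124373) (.g (nat_lit 2032) (.e (nat_lit 7263) (nat_lit 384) (.e (nat_lit 57427) (nat_lit 15) (.e (nat_lit 360491) (nat_lit 22) (.e (nat_lit 778466) (nat_lit 11) (.e (nat_lit 24641) (nat_lit 10) (.e (nat_lit 344095) (nat_lit 18) .nil)))))) (.g (nat_lit 6) .nil .nil))) 
(.lf (nat_lit 124405) (.g (nat_lit 2378) (.e (nat_lit 7263) (nat_lit 384) (.e (nat_lit 57436) (nat_lit 17) (.e (nat_lit 376842) (nat_lit 11) (.e (nat_lit 426344) (nat_lit 14) (.e (nat_lit 491560) (nat_lit 10) (.e (nat_lit 344091) (nat_lit 18) .nil)))))) (.g (nat_lit 4) .nil .nil))))) (.nd (nat_lit 4) (.nd (nat_lit 5) 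
(.lf (nat_lit 124365) (.g (nat_lit 2699) (.e (nat_lit 7263) (nat_lit 384) (.e (nat_lit 57427) (nat_lit 15) (.e (nat_lit 360489) (nat_lit 21) (.e (nat_lit 770072) (nat_lit 8) (.e (nat_lit 65617) (nat_lit 10) (.e (nat_lit 344091) (nat_lit 18) .nil)))))) (.g (nat_lit 6) .nil .nil))) 
(.lf (nat_lit 124397) (.g (nat_lit 1977) (.e (nat_lit 7263) (nat_lit 384) (.e (nat_lit 57436) (nat_lit 17) (.e (nat_lit 376842) (nat_lit 11) (.e (nat_lit 426341) (nat_lit 14) (.e (nat_lit 491560) (nat_lit 10) .nil))))) .nil))) (.nd (nat_lit 5) 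
(.lf (nat_lit 124381) (.g (nat_lit 1602) (.e (nat_lit 7263) (nat_lit 384) (.e (nat_lit 57428) (nat_lit 15) (.e (nat_lit 360489) (nat_lit 21) (.e (nat_lit 770072) (nat_lit 8) (.e (nat_lit 65617) (nat_lit 10) (.e (nat_lit 344095) (nat_lit 18) .nil)))))) (.g (nat_lit 4) .nil .nil))) 
(.lf (nat_lit 124413) (.g (nat_lit 2379) (.e (nat_lit 7265) (nat_lit 384) (.e (nat_lit 57347) (nat_lit 0) (.e (nat_lit 2029) (nat_lit 140) (.e (nat_lit 688182) (nat_lit 17) (.e (nat_lit 73755) (nat_lit 8) (.e (nat_lit 557091) (nat_lit 12) (.e (nat_lit 171776) (nat_lit 192) (.e (nat_lit 73731) (nat_lit 0) .nil)))))))) (.g (nat_lit 5) .nil .nil))))))) 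
(.nd (nat_lit 2) (.nd (nat_lit 3) (.nd (nat_lit 4) (.nd (nat_lit 5) 
(.lf (nat_lit 124355) (.g (nat_lit 3302) (.e (nat_lit 7263) (nat_lit 384) (.e (nat_lit 57427) (nat_lit 15) (.e (nat_lit 360451) (nat_lit 0) (.e (nat_lit 7265) (nat_lit 384) (.e (nat_lit 57412) (nat_lit 12) (.e (nat_lit 336176) (nat_lit 10) (.e (nat_lit 344096) (nat_lit 18) .nil))))))) (.g (nat_lit 7) .nil .nil))) 
(.lf (nat_lit 124387) (.g (nat_lit 1563) (.e (nat_lit 7263) (nat_lit 384) (.e (nat_lit 57435) (nat_lit 17) (.e (nat_lit 376842) (nat_lit 11) (.e (nat_lit 426342) (nat_lit 14) .nil)))) .nil))) (.nd (nat_lit 5) 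
(.lf (nat_lit 124371) (.g (nat_lit 2752) (.e (nat_lit 7263) (nat_lit 384) (.e (nat_lit 57427) (nat_lit 15) (.e (nat_lit 360491) (nat_lit 22) (.e (nat_lit 778466) (nat_lit 11) (.e (nat_lit 24640) (nat_lit 10) (.e (nat_lit 344094) (nat_lit 18) .nil)))))) (.g (nat_lit 6) .nil .nil))) 
(.lf (nat_lit 124403) (.g (nat_lit 2233) (.e (nat_lit 7263) (nat_lit 384) (.e (nat_lit 57436) (nat_lit 17) (.e (nat_lit 376842) (nat_lit 11) (.e (nat_lit 426343) (nat_lit 14) (.e (nat_lit 491560) (nat_lit 10) (.e (nat_lit 344094) (nat_lit 18) .nil)))))) (.g (nat_lit 4) .nil .nil))))) (.nd (nat_lit 4) (.nd (nat_lit 5) 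
(.lf (nat_lit 124363) (.g (nat_lit 2348) (.e (nat_lit 7263) (nat_lit 384) (.e (nat_lit 57427) (nat_lit 15) (.e (nat_lit 360489) (nat_lit 21) (.e (nat_lit 770071) (nat_lit 8) (.e (nat_lit 65617) (nat_lit 10) (.e (nat_lit 344095) (nat_lit 18) .nil)))))) (.g (nat_lit 0) .nil .nil))) 
(.lf (nat_lit 124395) (.g (nat_lit 1723) (.e (nat_lit 7263) (nat_lit 384) (.e (nat_lit 57436) (nat_lit 17) (.e (nat_lit 376842) (nat_lit 11) (.e (nat_lit 426012) (nat_lit 0) .nil)))) .nil))) (.nd (nat_lit 5) 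
(.lf (nat_lit 124379) (.g (nat_lit 1739) (.e (nat_lit 7263) (nat_lit 384) (.e (nat_lit 57428) (nat_lit 15) (.e (nat_lit 360489) (nat_lit 21) (.e (nat_lit 770071) (nat_lit 8) (.e (nat_lit 65617) (nat_lit 10) (.e (nat_lit 344095) (nat_lit 18) .nil)))))) (.g (nat_lit 4) .nil .nil))) 
(.lf (nat_lit 124411) (.g (nat_lit 2271) (.e (nat_lit 7265) (nat_lit 384) (.e (nat_lit 57347) (nat_lit 0) (.e (nat_lit 2029) (nat_lit 140) (.e (nat_lit 688181) (nat_lit 17) (.e (nat_lit 73755) (nat_lit 8) (.e (nat_lit 557091) (nat_lit 12) (.e (nat_lit 171776) (nat_lit 192) (.e (nat_lit 73731) (nat_lit 0) .nil)))))))) (.g (nat_lit 5) .nil .nil)))))) 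
(.nd (nat_lit 3) (.nd (nat_lit 4) (.nd (nat_lit 5) 
(.lf (nat_lit 124359) (.g (nat_lit 2822) (.e (nat_lit 7263) (nat_lit 384) (.e (nat_lit 57427) (nat_lit 15) (.e (nat_lit 360451) (nat_lit 0) (.e (nat_lit 7266) (nat_lit 384) (.e (nat_lit 57426) (nat_lit 15) (.e (nat_lit 360449) (nat_lit 0) .nil)))))) (.g (nat_lit 0) .nil .nil))) 
(.lf (nat_lit 124391) (.g (nat_lit 597) (.e (nat_lit 7263) (nat_lit 384) (.e (nat_lit 57436) (nat_lit 17) (.e (nat_lit 376842) (nat_lit 11) .nil))) .nil))) (.nd (nat_lit 5) 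
(.lf (nat_lit 124375) (.g (nat_lit 1199) (.e (nat_lit 7263) (nat_lit 384) (.e (nat_lit 57427) (nat_lit 15) (.e (nat_lit 360492) (nat_lit 22) (.e (nat_lit 778466) (nat_lit 11) (.e (nat_lit 24639) (nat_lit 10) .nil))))) .nil)) 
(.lf (nat_lit 124407) (.g (nat_lit 577) (.e (nat_lit 7264) (nat_lit 384) (.e (nat_lit 57377) (nat_lit 3) (.e (nat_lit 98317) (nat_lit 9) .nil))) .nil)))) (.nd (nat_lit 4) (.nd (nat_lit 5) 
(.lf (nat_lit 124367) (.g (nat_lit 997) (.e (nat_lit 7263) (nat_lit 384) (.e (nat_lit 57427) (nat_lit 15) (.e (nat_lit 360491) (nat_lit 22) (.e (nat_lit 778464) (nat_lit 11) (.e (nat_lit 24639) (nat_lit 10) .nil))))) .nil)) 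
(.lf (nat_lit 124399) (.g (nat_lit 1852) (.e (nat_lit 7263) (nat_lit 384) (.e (nat_lit 57436) (nat_lit 17) (.e (nat_lit 376842) (nat_lit 11) (.e (nat_lit 426342) (nat_lit 14) (.e (nat_lit 491558) (nat_lit 10) (.e (nat_lit 344095) (nat_lit 18) .nil)))))) (.g (nat_lit 4) .nil .nil)))) (.nd (nat_lit 5) 
(.lf (nat_lit 124383) (.g (nat_lit 2069) (.e (nat_lit 7263) (nat_lit 384) (.e (nat_lit 57430) (nat_lit 16) (.e (nat_lit 368676) (nat_lit 21) (.e (nat_lit 516176) (nat_lit 14) (.e (nat_lit 466967) (nat_lit 20) (.e (nat_lit 3305) (nat_lit 202) (.e (nat_lit 573477) (nat_lit 12) (.e (nat_lit 57351) (nat_lit 0) .nil)))))))) (.g (nat_lit 4) .nil .nil))) 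
(.lf (nat_lit 124415) (.g (nat_lit 2938) (.e (nat_lit 7265) (nat_lit 384) (.e (nat_lit 57347) (nat_lit 0) (.e (nat_lit 2031) (nat_lit 140) (.e (nat_lit 688182) (nat_lit 17) (.e (nat_lit 73755) (nat_lit 8) (.e (nat_lit 557091) (nat_lit 12) (.e (nat_lit 171776) (nat_lit 192) (.e (nat_lit 73731) (nat_lit 0) .nil)))))))) (.g (nat_lit 5) .nil .nil)))))))))

noncomputable def tv1666 : DT := (.nd (nat_lit 0) (.nd (nat_lit 1) (.nd (nat_lit 2) (.nd (nat_lit 3) (.nd (nat_lit 4) (.nd (nat_lit 5) 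
(.lf (nat_lit 124416) (.g (nat_lit 2487) (.e (nat_lit 7265) (nat_lit 384) (.e (nat_lit 57347) (nat_lit 0) (.e (nat_lit 2032) (nat_lit 140) (.e (nat_lit 688182) (nat_lit 17) (.e (nat_lit 73755) (nat_lit 8) (.e (nat_lit 557089) (nat_lit 12) (.e (nat_lit 171776) (nat_lit 192) (.e (nat_lit 73730) (nat_lit 0) .nil)))))))) (.g (nat_lit 5) .nil .nil))) 
(.lf (nat_lit 124448) (.g (nat_lit 4215) (.e (nat_lit 7265) (nat_lit 384) (.e (nat_lit 57404) (nat_lit 12) (.e (nat_lit 336013) (nat_lit 2) (.e (nat_lit 90170) (nat_lit 13) (.e (nat_lit 172113) (nat_lit 10) (.e (nat_lit 434248) (nat_lit 28) (.e (nat_lit 573473) (nat_lit 12) (.e (nat_lit 57348) (nat_lit 0) .nil)))))))) (.g (nat_lit 0) .nil .nil)))) (.nd (nat_lit 5) 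
(.lf (nat_lit 124432) (.g (nat_lit 2475) (.e (nat_lit 7265) (nat_lit 384) (.e (nat_lit 57364) (nat_lit 1) (.e (nat_lit 57830) (nat_lit 250) (.e (nat_lit 1201) (nat_lit 88) (.e (nat_lit 65586) (nat_lit 7) (.e (nat_lit 319531) (nat_lit 16) (.e (nat_lit 286748) (nat_lit 9) (.e (nat_lit 336295) (nat_lit 15) (.e (nat_lit 7936) (nat_lit 157) .nil))))))))) (.g (nat_lit 6) .nil .nil))) 
(.lf (nat_lit 124464) (.g (nat_lit 934) (.e (nat_lit 7265) (nat_lit 384) (.e (nat_lit 57406) (nat_lit 12) (.e (nat_lit 336117) (nat_lit 9) .nil))) .nil)))) (.nd (nat_lit 4) (.nd (nat_lit 5) 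
(.lf (nat_lit 124424) (.g (nat_lit 3696) (.e (nat_lit 7265) (nat_lit 384) (.e (nat_lit 57347) (nat_lit 0) (.e (nat_lit 6481) (nat_lit 343) (.e (nat_lit 1234) (nat_lit 91) (.e (nat_lit 90170) (nat_lit 13) (.e (nat_lit 172113) (nat_lit 10) (.e (nat_lit 434247) (nat_lit 28) (.e (nat_lit 573478) (nat_lit 12) (.e (nat_lit 57351) (nat_lit 0) .nil))))))))) (.g (nat_lit 7) .nil .nil))) 
(.lf (nat_lit 124456) (.g (nat_lit 2972) (.e (nat_lit 7265) (nat_lit 384) (.e (nat_lit 57404) (nat_lit 12) (.e (nat_lit 336028) (nat_lit 3) (.e (nat_lit 98373) (nat_lit 29) (.e (nat_lit 450587) (nat_lit 10) (.e (nat_lit 573478) (nat_lit 12) (.e (nat_lit 57353) (nat_lit 0) .nil))))))) (.g (nat_lit 6) .nil .nil)))) (.nd (nat_lit 5) 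
(.lf (nat_lit 124440) (.g (nat_lit 4962) (.e (nat_lit 7265) (nat_lit 384) (.e (nat_lit 57371) (nat_lit 2) (.e (nat_lit 90128) (nat_lit 9) (.e (nat_lit 297) (nat_lit 22) (.e (nat_lit 344133) (nat_lit 26) (.e (nat_lit 557098) (nat_lit 13) (.e (nat_lit 172064) (nat_lit 2) (.e (nat_lit 196661) (nat_lit 12) (.e (nat_lit 57353) (nat_lit 0) .nil))))))))) (.g (nat_lit 7) .nil .nil))) 
(.lf (nat_lit 124472) (.g (nat_lit 875) (.e (nat_lit 7265) (nat_lit 384) (.e (nat_lit 57406) (nat_lit 12) (.e (nat_lit 336136) (nat_lit 9) .nil))) .nil))))) (.nd (nat_lit 3) (.nd (nat_lit 4) (.nd (nat_lit 5) 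
(.lf (nat_lit 124420) (.g (nat_lit 2251) (.e (nat_lit 7265) (nat_lit 384) (.e (nat_lit 57347) (nat_lit 0) (.e (nat_lit 2200) (nat_lit 144) (.e (nat_lit 720956) (nat_lit 25) (.e (nat_lit 114716) (nat_lit 22) (.e (nat_lit 90181) (nat_lit 16) (.e (nat_lit 237312) (nat_lit 192) (.e (nat_lit 73731) (nat_lit 0) .nil)))))))) (.g (nat_lit 5) .nil .nil))) 
(.lf (nat_lit 124452) (.g (nat_lit 3127) (.e (nat_lit 7265) (nat_lit 384) (.e (nat_lit 57404) (nat_lit 12) (.e (nat_lit 336028) (nat_lit 3) (.e (nat_lit 98359) (nat_lit 26) (.e (nat_lit 426286) (nat_lit 10) (.e (nat_lit 434247) (nat_lit 28) (.e (nat_lit 573478) (nat_lit 12) (.e (nat_lit 57353) (nat_lit 0) .nil)))))))) (.g (nat_lit 7) .nil .nil)))) (.nd (nat_lit 5) 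
(.lf (nat_lit 124436) (.g (nat_lit 2097) (.e (nat_lit 7265) (nat_lit 384) (.e (nat_lit 57371) (nat_lit 2) (.e (nat_lit 90128) (nat_lit 9) (.e (nat_lit 297) (nat_lit 22) (.e (nat_lit 344132) (nat_lit 26) .nil))))) .nil)) 
(.lf (nat_lit 124468) (.g (nat_lit 844) (.e (nat_lit 7265) (nat_lit 384) (.e (nat_lit 57406) (nat_lit 12) (.e (nat_lit 336130) (nat_lit 9) .nil))) .nil)))) (.nd (nat_lit 4) (.nd (nat_lit 5) 
(.lf (nat_lit 124428) (.g (nat_lit 3029) (.e (nat_lit 7265) (nat_lit 384) (.e (nat_lit 57347) (nat_lit 0) (.e (nat_lit 7936) (nat_lit 347) (.e (nat_lit 65653) (nat_lit 27) (.e (nat_lit 426011) (nat_lit 0) (.e (nat_lit 7591) (nat_lit 407) (.e (nat_lit 73731) (nat_lit 0) .nil))))))) (.g (nat_lit 6) .nil .nil))) 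
(.lf (nat_lit 124460) (.g (nat_lit 3608) (.e (nat_lit 7265) (nat_lit 384) (.e (nat_lit 57406) (nat_lit 12) (.e (nat_lit 336016) (nat_lit 2) (.e (nat_lit 90178) (nat_lit 15) (.e (nat_lit 188440) (nat_lit 20) (.e (nat_lit 3307) (nat_lit 202) (.e (nat_lit 573473) (nat_lit 12) (.e (nat_lit 57353) (nat_lit 0) .nil)))))))) (.g (nat_lit 6) .nil .nil)))) (.nd (nat_lit 5) 
(.lf (nat_lit 124444) (.g (nat_lit 3264) (.e (nat_lit 7265) (nat_lit 384) (.e (nat_lit 57371) (nat_lit 2) (.e (nat_lit 90160) (nat_lit 11) (.e (nat_lit 24665) (nat_lit 14) (.e (nat_lit 409344) (nat_lit 27) .nil))))) .nil)) 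
(.lf (nat_lit 124476) (.g (nat_lit 894) (.e (nat_lit 7265) (nat_lit 384) (.e (nat_lit 57406) (nat_lit 12) (.e (nat_lit 336160) (nat_lit 10) .nil))) .nil)))))) (.nd (nat_lit 2) (.nd (nat_lit 3) (.nd (nat_lit 4) (.nd (nat_lit 5) 
(.lf (nat_lit 124418) (.g (nat_lit 4192) (.e (nat_lit 7265) (nat_lit 384) (.e (nat_lit 57347) (nat_lit 0) (.e (nat_lit 2160) (nat_lit 143) (.e (nat_lit 712755) (nat_lit 30) (.e (nat_lit 450588) (nat_lit 10) (.e (nat_lit 573475) (nat_lit 12) (.e (nat_lit 57507) (nat_lit 39) (.e (nat_lit 647201) (nat_lit 12) (.e (nat_lit 57351) (nat_lit 0) .nil))))))))) (.g (nat_lit 6) .nil .nil))) 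
(.lf (nat_lit 124450) (.g (nat_lit 3931) (.e (nat_lit 7265) (nat_lit 384) (.e (nat_lit 57404) (nat_lit 12) (.e (nat_lit 336013) (nat_lit 2) (.e (nat_lit 90170) (nat_lit 13) (.e (nat_lit 172113) (nat_lit 10) (.e (nat_lit 434248) (nat_lit 28) (.e (nat_lit 573475) (nat_lit 12) (.e (nat_lit 57353) (nat_lit 0) .nil)))))))) (.g (nat_lit 7) .nil .nil)))) (.nd (nat_lit 5) 
(.lf (nat_lit 124434) (.g (nat_lit 1508) (.e (nat_lit 7265) (nat_lit 384) (.e (nat_lit 57371) (nat_lit 2) (.e (nat_lit 90128) (nat_lit 9) (.e (nat_lit 297) (nat_lit 22) .nil)))) .nil)) 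
(.lf (nat_lit 124466) (.g (nat_lit 934) (.e (nat_lit 7265) (nat_lit 384) (.e (nat_lit 57406) (nat_lit 12) (.e (nat_lit 336122) (nat_lit 9) .nil))) .nil)))) (.nd (nat_lit 4) (.nd (nat_lit 5) 
(.lf (nat_lit 124426) (.g (nat_lit 4112) (.e (nat_lit 7265) (nat_lit 384) (.e (nat_lit 57347) (nat_lit 0) (.e (nat_lit 6481) (nat_lit 343) (.e (nat_lit 1234) (nat_lit 91) (.e (nat_lit 90170) (nat_lit 13) (.e (nat_lit 172113) (nat_lit 10) (.e (nat_lit 434248) (nat_lit 28) (.e (nat_lit 573473) (nat_lit 12) (.e (nat_lit 57353) (nat_lit 0) .nil))))))))) (.g (nat_lit 7) .nil .nil))) 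
(.lf (nat_lit 124458) (.g (nat_lit 934) (.e (nat_lit 7265) (nat_lit 384) (.e (nat_lit 57406) (nat_lit 12) (.e (nat_lit 335875) (nat_lit 0) .nil))) .nil))) (.nd (nat_lit 5) 
(.lf (nat_lit 124442) (.g (nat_lit 1672) (.e (nat_lit 7265) (nat_lit 384) (.e (nat_lit 57371) (nat_lit 2) (.e (nat_lit 90160) (nat_lit 11) (.e (nat_lit 24617) (nat_lit 7) .nil)))) .nil)) 
(.lf (nat_lit 124474) (.g (nat_lit 1665) (.e (nat_lit 7265) (nat_lit 384) (.e (nat_lit 57406) (nat_lit 12) (.e (nat_lit 336138) (nat_lit 9) (.e (nat_lit 336389) (nat_lit 27) (.e (nat_lit 426343) (nat_lit 14) .nil))))) .nil))))) (.nd (nat_lit 3) (.nd (nat_lit 4) (.nd (nat_lit 5) 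
(.lf (nat_lit 124422) (.g (nat_lit 3918) (.e (nat_lit 7265) (nat_lit 384) (.e (nat_lit 57347) (nat_lit 0) (.e (nat_lit 6481) (nat_lit 343) (.e (nat_lit 1234) (nat_lit 91) (.e (nat_lit 90170) (nat_lit 13) (.e (nat_lit 172113) (nat_lit 10) (.e (nat_lit 434245) (nat_lit 28) (.e (nat_lit 573473) (nat_lit 12) (.e (nat_lit 57353) (nat_lit 0) .nil))))))))) (.g (nat_lit 7) .nil .nil))) 
(.lf (nat_lit 124454) (.g (nat_lit 2694) (.e (nat_lit 7265) (nat_lit 384) (.e (nat_lit 57404) (nat_lit 12) (.e (nat_lit 336028) (nat_lit 3) (.e (nat_lit 98372) (nat_lit 29) (.e (nat_lit 450586) (nat_lit 10) (.e (nat_lit 573477) (nat_lit 12) (.e (nat_lit 57353) (nat_lit 0) .nil))))))) (.g (nat_lit 0) .nil .nil)))) (.nd (nat_lit 5) 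
(.lf (nat_lit 124438) (.g (nat_lit 3925) (.e (nat_lit 7265) (nat_lit 384) (.e (nat_lit 57371) (nat_lit 2) (.e (nat_lit 90128) (nat_lit 9) (.e (nat_lit 297) (nat_lit 22) (.e (nat_lit 344132) (nat_lit 26) (.e (nat_lit 557100) (nat_lit 13) (.e (nat_lit 172064) (nat_lit 2) (.e (nat_lit 196661) (nat_lit 12) (.e (nat_lit 57353) (nat_lit 0) .nil))))))))) (.g (nat_lit 6) .nil .nil))) 
(.lf (nat_lit 124470) (.g (nat_lit 904) (.e (nat_lit 7265) (nat_lit 384) (.e (nat_lit 57406) (nat_lit 12) (.e (nat_lit 336134) (nat_lit 9) .nil))) .nil)))) (.nd (nat_lit 4) (.nd (nat_lit 5) 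
(.lf (nat_lit 124430) (.g (nat_lit 2064) (.e (nat_lit 7265) (nat_lit 384) (.e (nat_lit 57354) (nat_lit 0) (.e (nat_lit 6114) (nat_lit 332) (.e (nat_lit 2507) (nat_lit 157) (.e (nat_lit 5293) (nat_lit 298) .nil))))) .nil)) 
(.lf (nat_lit 124462) (.g (nat_lit 3048) (.e (nat_lit 7265) (nat_lit 384) (.e (nat_lit 57406) (nat_lit 12) (.e (nat_lit 336016) (nat_lit 2) (.e (nat_lit 90178) (nat_lit 15) (.e (nat_lit 188440) (nat_lit 20) (.e (nat_lit 3307) (nat_lit 202) (.e (nat_lit 573478) (nat_lit 12) (.e (nat_lit 57351) (nat_lit 0) .nil)))))))) (.g (nat_lit 5) .nil .nil)))) (.nd (nat_lit 5) 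
(.lf (nat_lit 124446) (.g (nat_lit 4102) (.e (nat_lit 7265) (nat_lit 384) (.e (nat_lit 57404) (nat_lit 12) (.e (nat_lit 336013) (nat_lit 2) (.e (nat_lit 90170) (nat_lit 13) (.e (nat_lit 172113) (nat_lit 10) (.e (nat_lit 434247) (nat_lit 28) (.e (nat_lit 573477) (nat_lit 12) (.e (nat_lit 57353) (nat_lit 0) .nil)))))))) (.g (nat_lit 0) .nil .nil))) 
(.lf (nat_lit 124478) (.g (nat_lit 934) (.e (nat_lit 7265) (nat_lit 384) (.e (nat_lit 57406) (nat_lit 12) (.e (nat_lit 336181) (nat_lit 11) .nil))) .nil))))))) (.nd (nat_lit 1) (.nd (nat_lit 2) (.nd (nat_lit 3) (.nd (nat_lit 4) (.nd (nat_lit 5) 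
(.lf (nat_lit 124417) (.g (nat_lit 2556) (.e (nat_lit 7265) (nat_lit 384) (.e (nat_lit 57347) (nat_lit 0) (.e (nat_lit 2032) (nat_lit 140) (.e (nat_lit 688182) (nat_lit 17) (.e (nat_lit 73755) (nat_lit 8) (.e (nat_lit 557091) (nat_lit 12) (.e (nat_lit 171776) (nat_lit 192) (.e (nat_lit 73731) (nat_lit 0) .nil)))))))) (.g (nat_lit 5) .nil .nil))) 
(.lf (nat_lit 124449) (.g (nat_lit 4437) (.e (nat_lit 7265) (nat_lit 384) (.e (nat_lit 57404) (nat_lit 12) (.e (nat_lit 336013) (nat_lit 2) (.e (nat_lit 90170) (nat_lit 13) (.e (nat_lit 172113) (nat_lit 10) (.e (nat_lit 434248) (nat_lit 28) (.e (nat_lit 573475) (nat_lit 12) (.e (nat_lit 57348) (nat_lit 0) .nil)))))))) (.g (nat_lit 8) .nil .nil)))) (.nd (nat_lit 5) 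
(.lf (nat_lit 124433) (.g (nat_lit 778) (.e (nat_lit 7265) (nat_lit 384) (.e (nat_lit 57371) (nat_lit 2) (.e (nat_lit 90128) (nat_lit 9) .nil))) .nil)) 
(.lf (nat_lit 124465) (.g (nat_lit 738) (.e (nat_lit 7265) (nat_lit 384) (.e (nat_lit 57406) (nat_lit 12) (.e (nat_lit 336120) (nat_lit 9) .nil))) .nil)))) (.nd (nat_lit 4) (.nd (nat_lit 5) 
(.lf (nat_lit 124425) (.g (nat_lit 4212) (.e (nat_lit 7265) (nat_lit 384) (.e (nat_lit 57347) (nat_lit 0) (.e (nat_lit 6481) (nat_lit 343) (.e (nat_lit 1234) (nat_lit 91) (.e (nat_lit 90170) (nat_lit 13) (.e (nat_lit 172113) (nat_lit 10) (.e (nat_lit 434248) (nat_lit 28) (.e (nat_lit 573473) (nat_lit 12) (.e (nat_lit 57348) (nat_lit 0) .nil))))))))) (.g (nat_lit 7) .nil .nil))) 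
(.lf (nat_lit 124457) (.g (nat_lit 4057) (.e (nat_lit 7265) (nat_lit 384) (.e (nat_lit 57404) (nat_lit 12) (.e (nat_lit 336028) (nat_lit 3) (.e (nat_lit 98373) (nat_lit 29) (.e (nat_lit 450588) (nat_lit 10) (.e (nat_lit 573473) (nat_lit 12) (.e (nat_lit 57348) (nat_lit 0) .nil))))))) (.g (nat_lit 0) .nil .nil)))) (.nd (nat_lit 5) 
(.lf (nat_lit 124441) (.g (nat_lit 1857) (.e (nat_lit 7265) (nat_lit 384) (.e (nat_lit 57371) (nat_lit 2) (.e (nat_lit 90128) (nat_lit 9) (.e (nat_lit 304) (nat_lit 22) .nil)))) .nil)) 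
(.lf (nat_lit 124473) (.g (nat_lit 934) (.e (nat_lit 7265) (nat_lit 384) (.e (nat_lit 57406) (nat_lit 12) (.e (nat_lit 336138) (nat_lit 9) .nil))) .nil))))) (.nd (nat_lit 3) (.nd (nat_lit 4) (.nd (nat_lit 5) 
(.lf (nat_lit 124421) (.g (nat_lit 4004) (.e (nat_lit 7265) (nat_lit 384) (.e (nat_lit 57347) (nat_lit 0) (.e (nat_lit 6481) (nat_lit 343) (.e (nat_lit 1234) (nat_lit 91) (.e (nat_lit 90170) (nat_lit 13) (.e (nat_lit 172113) (nat_lit 10) (.e (nat_lit 434245) (nat_lit 28) (.e (nat_lit 573473) (nat_lit 12) (.e (nat_lit 57348) (nat_lit 0) .nil))))))))) (.g (nat_lit 7) .nil .nil))) 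
(.lf (nat_lit 124453) (.g (nat_lit 3823) (.e (nat_lit 7265) (nat_lit 384) (.e (nat_lit 57404) (nat_lit 12) (.e (nat_lit 336028) (nat_lit 3) (.e (nat_lit 98359) (nat_lit 26) (.e (nat_lit 426286) (nat_lit 10) (.e (nat_lit 434248) (nat_lit 28) (.e (nat_lit 573473) (nat_lit 12) (.e (nat_lit 57348) (nat_lit 0) .nil)))))))) (.g (nat_lit 0) .nil .nil)))) (.nd (nat_lit 5) 
(.lf (nat_lit 124437) (.g (nat_lit 4160) (.e (nat_lit 7265) (nat_lit 384) (.e (nat_lit 57371) (nat_lit 2) (.e (nat_lit 90128) (nat_lit 9) (.e (nat_lit 297) (nat_lit 22) (.e (nat_lit 344132) (nat_lit 26) (.e (nat_lit 557100) (nat_lit 13) (.e (nat_lit 172062) (nat_lit 2) (.e (nat_lit 196661) (nat_lit 12) (.e (nat_lit 57353) (nat_lit 0) .nil))))))))) (.g (nat_lit 6) .nil .nil))) 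
(.lf (nat_lit 124469) (.g (nat_lit 2664) (.e (nat_lit 7265) (nat_lit 384) (.e (nat_lit 57406) (nat_lit 12) (.e (nat_lit 336130) (nat_lit 9) (.e (nat_lit 335996) (nat_lit 1) (.e (nat_lit 57680) (nat_lit 155) (.e (nat_lit 122919) (nat_lit 15) (.e (nat_lit 360451) (nat_lit 0) .nil))))))) (.g (nat_lit 4) .nil .nil))))) (.nd (nat_lit 4) (.nd (nat_lit 5) 
(.lf (nat_lit 124429) (.g (nat_lit 354) (.e (nat_lit 7265) (nat_lit 384) (.e (nat_lit 57347) (nat_lit 0) (.e (nat_lit 7936) (nat_lit 348) .nil))) .nil)) 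
(.lf (nat_lit 124461) (.g (nat_lit 4537) (.e (nat_lit 7265) (nat_lit 384) (.e (nat_lit 57406) (nat_lit 12) (.e (nat_lit 336016) (nat_lit 2) (.e (nat_lit 90178) (nat_lit 15) (.e (nat_lit 188440) (nat_lit 20) (.e (nat_lit 3307) (nat_lit 202) (.e (nat_lit 573477) (nat_lit 12) (.e (nat_lit 57353) (nat_lit 0) .nil)))))))) (.g (nat_lit 6) .nil .nil)))) (.nd (nat_lit 5) 
(.lf (nat_lit 124445) (.g (nat_lit 3579) (.e (nat_lit 7265) (nat_lit 384) (.e (nat_lit 57371) (nat_lit 2) (.e (nat_lit 90160) (nat_lit 11) (.e (nat_lit 24665) (nat_lit 14) (.e (nat_lit 409344) (nat_lit 27) (.e (nat_lit 336446) (nat_lit 33) (.e (nat_lit 475157) (nat_lit 21) .nil))))))) (.g (nat_lit 4) .nil .nil))) 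
(.lf (nat_lit 124477) (.g (nat_lit 904) (.e (nat_lit 7265) (nat_lit 384) (.e (nat_lit 57406) (nat_lit 12) (.e (nat_lit 336161) (nat_lit 10) .nil))) .nil)))))) (.nd (nat_lit 2) (.nd (nat_lit 3) (.nd (nat_lit 4) (.nd (nat_lit 5) 
(.lf (nat_lit 124419) (.g (nat_lit 4267) (.e (nat_lit 7265) (nat_lit 384) (.e (nat_lit 57347) (nat_lit 0) (.e (nat_lit 2160) (nat_lit 143) (.e (nat_lit 712755) (nat_lit 30) (.e (nat_lit 450588) (nat_lit 10) (.e (nat_lit 573475) (nat_lit 12) (.e (nat_lit 57508) (nat_lit 39) (.e (nat_lit 647201) (nat_lit 12) (.e (nat_lit 57351) (nat_lit 0) .nil))))))))) (.g (nat_lit 6) .nil .nil))) 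
(.lf (nat_lit 124451) (.g (nat_lit 3484) (.e (nat_lit 7265) (nat_lit 384) (.e (nat_lit 57404) (nat_lit 12) (.e (nat_lit 336028) (nat_lit 3) (.e (nat_lit 98359) (nat_lit 26) (.e (nat_lit 426286) (nat_lit 10) (.e (nat_lit 434247) (nat_lit 28) (.e (nat_lit 573477) (nat_lit 12) (.e (nat_lit 57353) (nat_lit 0) .nil)))))))) (.g (nat_lit 0) .nil .nil)))) (.nd (nat_lit 5) 
(.lf (nat_lit 124435) (.g (nat_lit 2141) (.e (nat_lit 7265) (nat_lit 384) (.e (nat_lit 57371) (nat_lit 2) (.e (nat_lit 90128) (nat_lit 9) (.e (nat_lit 297) (nat_lit 22) (.e (nat_lit 344131) (nat_lit 26) .nil))))) .nil)) 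
(.lf (nat_lit 124467) (.g (nat_lit 934) (.e (nat_lit 7265) (nat_lit 384) (.e (nat_lit 57406) (nat_lit 12) (.e (nat_lit 336124) (nat_lit 9) .nil))) .nil)))) (.nd (nat_lit 4) (.nd (nat_lit 5) 
(.lf (nat_lit 124427) (.g (nat_lit 354) (.e (nat_lit 7265) (nat_lit 384) (.e (nat_lit 57347) (nat_lit 0) (.e (nat_lit 7936) (nat_lit 347) .nil))) .nil)) 
(.lf (nat_lit 124459) (.g (nat_lit 3595) (.e (nat_lit 7265) (nat_lit 384) (.e (nat_lit 57406) (nat_lit 12) (.e (nat_lit 336016) (nat_lit 2) (.e (nat_lit 90178) (nat_lit 15) (.e (nat_lit 188440) (nat_lit 20) (.e (nat_lit 3307) (nat_lit 202) (.e (nat_lit 573473) (nat_lit 12) (.e (nat_lit 57348) (nat_lit 0) .nil)))))))) (.g (nat_lit 6) .nil .nil)))) (.nd (nat_lit 5) 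
(.lf (nat_lit 124443) (.g (nat_lit 3630) (.e (nat_lit 7265) (nat_lit 384) (.e (nat_lit 57371) (nat_lit 2) (.e (nat_lit 90160) (nat_lit 11) (.e (nat_lit 24665) (nat_lit 14) (.e (nat_lit 401470) (nat_lit 27) .nil))))) .nil)) 
(.lf (nat_lit 124475) (.g (nat_lit 934) (.e (nat_lit 7265) (nat_lit 384) (.e (nat_lit 57406) (nat_lit 12) (.e (nat_lit 336146) (nat_lit 9) .nil))) .nil))))) (.nd (nat_lit 3) (.nd (nat_lit 4) (.nd (nat_lit 5) 
(.lf (nat_lit 124423) (.g (nat_lit 4027) (.e (nat_lit 7265) (nat_lit 384) (.e (nat_lit 57347) (nat_lit 0) (.e (nat_lit 6481) (nat_lit 343) (.e (nat_lit 1234) (nat_lit 91) (.e (nat_lit 90170) (nat_lit 13) (.e (nat_lit 172113) (nat_lit 10) (.e (nat_lit 434247) (nat_lit 28) (.e (nat_lit 573477) (nat_lit 12) (.e (nat_lit 57353) (nat_lit 0) .nil))))))))) (.g (nat_lit 7) .nil .nil))) 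
(.lf (nat_lit 124455) (.g (nat_lit 3232) (.e (nat_lit 7265) (nat_lit 384) (.e (nat_lit 57404) (nat_lit 12) (.e (nat_lit 336028) (nat_lit 3) (.e (nat_lit 98373) (nat_lit 29) (.e (nat_lit 450587) (nat_lit 10) (.e (nat_lit 573477) (nat_lit 12) (.e (nat_lit 57353) (nat_lit 0) .nil))))))) (.g (nat_lit 0) .nil .nil)))) (.nd (nat_lit 5) 
(.lf (nat_lit 124439) (.g (nat_lit 3741) (.e (nat_lit 7265) (nat_lit 384) (.e (nat_lit 57371) (nat_lit 2) (.e (nat_lit 90128) (nat_lit 9) (.e (nat_lit 297) (nat_lit 22) (.e (nat_lit 344132) (nat_lit 26) (.e (nat_lit 557101) (nat_lit 13) (.e (nat_lit 172064) (nat_lit 2) (.e (nat_lit 196661) (nat_lit 12) (.e (nat_lit 57353) (nat_lit 0) .nil))))))))) (.g (nat_lit 6) .nil .nil))) 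
(.lf (nat_lit 124471) (.g (nat_lit 1774) (.e (nat_lit 7265) (nat_lit 384) (.e (nat_lit 57406) (nat_lit 12) (.e (nat_lit 336134) (nat_lit 9) (.e (nat_lit 336389) (nat_lit 27) (.e (nat_lit 426343) (nat_lit 14) .nil))))) .nil)))) (.nd (nat_lit 4) (.nd (nat_lit 5) 
(.lf (nat_lit 124431) (.g (nat_lit 412) (.e (nat_lit 7265) (nat_lit 384) (.e (nat_lit 57354) (nat_lit 0) (.e (nat_lit 7936) (nat_lit 343) .nil))) .nil)) 
(.lf (nat_lit 124463) (.g (nat_lit 921) (.e (nat_lit 7265) (nat_lit 384) (.e (nat_lit 57406) (nat_lit 12) (.e (nat_lit 336114) (nat_lit 9) .nil))) .nil))) (.nd (nat_lit 5) 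
(.lf (nat_lit 124447) (.g (nat_lit 3708) (.e (nat_lit 7265) (nat_lit 384) (.e (nat_lit 57404) (nat_lit 12) (.e (nat_lit 336013) (nat_lit 2) (.e (nat_lit 90170) (nat_lit 13) (.e (nat_lit 172113) (nat_lit 10) (.e (nat_lit 434247) (nat_lit 28) (.e (nat_lit 573478) (nat_lit 12) (.e (nat_lit 57353) (nat_lit 0) .nil)))))))) (.g (nat_lit 7) .nil .nil))) 
(.lf (nat_lit 124479) (.g (nat_lit 813) (.e (nat_lit 7265) (nat_lit 384) (.e (nat_lit 57406) (nat_lit 12) (.e (nat_lit 336182) (nat_lit 11) .nil))) .nil))))))))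

noncomputable def tv1667 : DT := (.nd (nat_lit 0) (.nd (nat_lit 1) (.nd (nat_lit 2) (.nd (nat_lit 3) (.nd (nat_lit 4) (.nd (nat_lit 5) 
(.lf (nat_lit 124480) (.g (nat_lit 1834) (.e (nat_lit 7265) (nat_lit 384) (.e (nat_lit 57406) (nat_lit 12) (.e (nat_lit 336210) (nat_lit 13) (.e (nat_lit 393232) (nat_lit 17) (.e (nat_lit 7593) (nat_lit 407) (.e (nat_lit 73729) (nat_lit 0) .nil)))))) (.g (nat_lit 4) .nil .nil))) 
(.lf (nat_lit 124512) (.g (nat_lit 3041) (.e (nat_lit 7265) (nat_lit 384) (.e (nat_lit 57406) (nat_lit 12) (.e (nat_lit 336211) (nat_lit 13) (.e (nat_lit 393300) (nat_lit 27) (.e (nat_lit 491560) (nat_lit 10) (.e (nat_lit 344091) (nat_lit 18) .nil)))))) (.g (nat_lit 6) .nil .nil)))) (.nd (nat_lit 5) 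
(.lf (nat_lit 124496) (.g (nat_lit 2748) (.e (nat_lit 7265) (nat_lit 384) (.e (nat_lit 57406) (nat_lit 12) (.e (nat_lit 336211) (nat_lit 13) (.e (nat_lit 393233) (nat_lit 17) (.e (nat_lit 7591) (nat_lit 407) (.e (nat_lit 73731) (nat_lit 0) .nil)))))) (.g (nat_lit 5) .nil .nil))) 
(.lf (nat_lit 124528) (.g (nat_lit 2552) (.e (nat_lit 7265) (nat_lit 384) (.e (nat_lit 57406) (nat_lit 12) (.e (nat_lit 336326) (nat_lit 18) (.e (nat_lit 204861) (nat_lit 26) (.e (nat_lit 336231) (nat_lit 14) (.e (nat_lit 401472) (nat_lit 28) (.e (nat_lit 344094) (nat_lit 18) .nil))))))) (.g (nat_lit 5) .nil .nil))))) (.nd (nat_lit 4) (.nd (nat_lit 5) 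
(.lf (nat_lit 124488) (.g (nat_lit 1890) (.e (nat_lit 7265) (nat_lit 384) (.e (nat_lit 57406) (nat_lit 12) (.e (nat_lit 336210) (nat_lit 13) (.e (nat_lit 393300) (nat_lit 27) (.e (nat_lit 491560) (nat_lit 10) (.e (nat_lit 344094) (nat_lit 18) .nil)))))) (.g (nat_lit 4) .nil .nil))) 
(.lf (nat_lit 124520) (.g (nat_lit 4229) (.e (nat_lit 7265) (nat_lit 384) (.e (nat_lit 57406) (nat_lit 12) (.e (nat_lit 336211) (nat_lit 13) (.e (nat_lit 393301) (nat_lit 27) (.e (nat_lit 491560) (nat_lit 10) (.e (nat_lit 344096) (nat_lit 18) .nil)))))) (.g (nat_lit 5) .nil .nil)))) (.nd (nat_lit 5) 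
(.lf (nat_lit 124504) (.g (nat_lit 3041) (.e (nat_lit 7265) (nat_lit 384) (.e (nat_lit 57406) (nat_lit 12) (.e (nat_lit 336211) (nat_lit 13) (.e (nat_lit 393299) (nat_lit 27) (.e (nat_lit 491558) (nat_lit 10) (.e (nat_lit 344090) (nat_lit 18) .nil)))))) (.g (nat_lit 5) .nil .nil))) 
(.lf (nat_lit 124536) (.g (nat_lit 900) (.e (nat_lit 7265) (nat_lit 384) (.e (nat_lit 57406) (nat_lit 12) (.e (nat_lit 336367) (nat_lit 27) (.e (nat_lit 426546) (nat_lit 30) (.e (nat_lit 368384) (nat_lit 1) (.e (nat_lit 500056) (nat_lit 17) (.e (nat_lit 57353) (nat_lit 0) .nil))))))) (.g (nat_lit 4) .nil .nil)))))) (.nd (nat_lit 3) (.nd (nat_lit 4) (.nd (nat_lit 5) 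
(.lf (nat_lit 124484) (.g (nat_lit 2700) (.e (nat_lit 7265) (nat_lit 384) (.e (nat_lit 57406) (nat_lit 12) (.e (nat_lit 336210) (nat_lit 13) (.e (nat_lit 393234) (nat_lit 17) (.e (nat_lit 7593) (nat_lit 407) (.e (nat_lit 73729) (nat_lit 0) .nil)))))) (.g (nat_lit 5) .nil .nil))) 
(.lf (nat_lit 124516) (.g (nat_lit 4187) (.e (nat_lit 7265) (nat_lit 384) (.e (nat_lit 57406) (nat_lit 12) (.e (nat_lit 336211) (nat_lit 13) (.e (nat_lit 393301) (nat_lit 27) (.e (nat_lit 491558) (nat_lit 10) (.e (nat_lit 344091) (nat_lit 18) .nil)))))) (.g (nat_lit 6) .nil .nil)))) (.nd (nat_lit 5) 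
(.lf (nat_lit 124500) (.g (nat_lit 3029) (.e (nat_lit 7265) (nat_lit 384) (.e (nat_lit 57406) (nat_lit 12) (.e (nat_lit 336211) (nat_lit 13) (.e (nat_lit 393234) (nat_lit 17) (.e (nat_lit 7591) (nat_lit 407) (.e (nat_lit 73731) (nat_lit 0) .nil)))))) (.g (nat_lit 5) .nil .nil))) 
(.lf (nat_lit 124532) (.g (nat_lit 1043) (.e (nat_lit 7265) (nat_lit 384) (.e (nat_lit 57406) (nat_lit 12) (.e (nat_lit 336367) (nat_lit 27) (.e (nat_lit 426544) (nat_lit 30) (.e (nat_lit 368384) (nat_lit 1) (.e (nat_lit 500056) (nat_lit 17) (.e (nat_lit 57351) (nat_lit 0) .nil))))))) (.g (nat_lit 4) .nil .nil))))) (.nd (nat_lit 4) (.nd (nat_lit 5) 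
(.lf (nat_lit 124492) (.g (nat_lit 2942) (.e (nat_lit 7265) (nat_lit 384) (.e (nat_lit 57406) (nat_lit 12) (.e (nat_lit 336211) (nat_lit 13) (.e (nat_lit 393232) (nat_lit 17) (.e (nat_lit 7591) (nat_lit 407) (.e (nat_lit 73731) (nat_lit 0) .nil)))))) (.g (nat_lit 5) .nil .nil))) 
(.lf (nat_lit 124524) (.g (nat_lit 831) (.e (nat_lit 7265) (nat_lit 384) (.e (nat_lit 57406) (nat_lit 12) (.e (nat_lit 336322) (nat_lit 18) .nil))) .nil))) (.nd (nat_lit 5) 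
(.lf (nat_lit 124508) (.g (nat_lit 2872) (.e (nat_lit 7265) (nat_lit 384) (.e (nat_lit 57406) (nat_lit 12) (.e (nat_lit 336211) (nat_lit 13) (.e (nat_lit 393299) (nat_lit 27) (.e (nat_lit 491560) (nat_lit 10) (.e (nat_lit 344096) (nat_lit 18) .nil)))))) (.g (nat_lit 5) .nil .nil))) 
(.lf (nat_lit 124540) (.g (nat_lit 2345) (.e (nat_lit 7265) (nat_lit 384) (.e (nat_lit 57406) (nat_lit 12) (.e (nat_lit 336456) (nat_lit 34) (.e (nat_lit 483372) (nat_lit 21) (.e (nat_lit 319492) (nat_lit 0) (.e (nat_lit 595) (nat_lit 45) (.e (nat_lit 532490) (nat_lit 0) (.e (nat_lit 1008) (nat_lit 81) .nil)))))))) (.g (nat_lit 4) .nil .nil))))))) 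
(.nd (nat_lit 2) (.nd (nat_lit 3) (.nd (nat_lit 4) (.nd (nat_lit 5) 
(.lf (nat_lit 124482) (.g (nat_lit 2488) (.e (nat_lit 7265) (nat_lit 384) (.e (nat_lit 57406) (nat_lit 12) (.e (nat_lit 336210) (nat_lit 13) (.e (nat_lit 393233) (nat_lit 17) (.e (nat_lit 7593) (nat_lit 407) (.e (nat_lit 73729) (nat_lit 0) .nil)))))) (.g (nat_lit 5) .nil .nil))) 
(.lf (nat_lit 124514) (.g (nat_lit 3282) (.e (nat_lit 7265) (nat_lit 384) (.e (nat_lit 57406) (nat_lit 12) (.e (nat_lit 336211) (nat_lit 13) (.e (nat_lit 393300) (nat_lit 27) (.e (nat_lit 491560) (nat_lit 10) (.e (nat_lit 344096) (nat_lit 18) .nil)))))) (.g (nat_lit 6) .nil .nil)))) (.nd (nat_lit 5) 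
(.lf (nat_lit 124498) (.g (nat_lit 2370) (.e (nat_lit 7265) (nat_lit 384) (.e (nat_lit 57406) (nat_lit 12) (.e (nat_lit 336211) (nat_lit 13) (.e (nat_lit 393233) (nat_lit 17) (.e (nat_lit 7593) (nat_lit 407) (.e (nat_lit 73731) (nat_lit 0) .nil)))))) (.g (nat_lit 5) .nil .nil))) 
(.lf (nat_lit 124530) (.g (nat_lit 1504) (.e (nat_lit 7265) (nat_lit 384) (.e (nat_lit 57406) (nat_lit 12) (.e (nat_lit 336367) (nat_lit 27) (.e (nat_lit 426542) (nat_lit 29) (.e (nat_lit 352321) (nat_lit 25) (.e (nat_lit 139277) (nat_lit 3) (.e (nat_lit 57348) (nat_lit 0) .nil))))))) (.g (nat_lit 4) .nil .nil))))) (.nd (nat_lit 4) (.nd (nat_lit 5) 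
(.lf (nat_lit 124490) (.g (nat_lit 3290) (.e (nat_lit 7265) (nat_lit 384) (.e (nat_lit 57406) (nat_lit 12) (.e (nat_lit 336210) (nat_lit 13) (.e (nat_lit 393301) (nat_lit 27) (.e (nat_lit 491558) (nat_lit 10) (.e (nat_lit 344096) (nat_lit 18) .nil)))))) (.g (nat_lit 5) .nil .nil))) 
(.lf (nat_lit 124522) (.g (nat_lit 3148) (.e (nat_lit 7265) (nat_lit 384) (.e (nat_lit 57406) (nat_lit 12) (.e (nat_lit 343808) (nat_lit 13) (.e (nat_lit 393301) (nat_lit 27) (.e (nat_lit 491560) (nat_lit 10) (.e (nat_lit 344091) (nat_lit 18) .nil)))))) (.g (nat_lit 5) .nil .nil)))) (.nd (nat_lit 5) 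
(.lf (nat_lit 124506) (.g (nat_lit 3634) (.e (nat_lit 7265) (nat_lit 384) (.e (nat_lit 57406) (nat_lit 12) (.e (nat_lit 336211) (nat_lit 13) (.e (nat_lit 393299) (nat_lit 27) (.e (nat_lit 491558) (nat_lit 10) (.e (nat_lit 344096) (nat_lit 18) .nil)))))) (.g (nat_lit 6) .nil .nil))) 
(.lf (nat_lit 124538) (.g (nat_lit 3693) (.e (nat_lit 7265) (nat_lit 384) (.e (nat_lit 57406) (nat_lit 12) (.e (nat_lit 336456) (nat_lit 34) (.e (nat_lit 483372) (nat_lit 21) (.e (nat_lit 319490) (nat_lit 0) (.e (nat_lit 539) (nat_lit 41) (.e (nat_lit 500056) (nat_lit 17) (.e (nat_lit 57351) (nat_lit 0) .nil)))))))) (.g (nat_lit 6) .nil .nil)))))) 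
(.nd (nat_lit 3) (.nd (nat_lit 4) (.nd (nat_lit 5) 
(.lf (nat_lit 124486) (.g (nat_lit 2491) (.e (nat_lit 7265) (nat_lit 384) (.e (nat_lit 57406) (nat_lit 12) (.e (nat_lit 336210) (nat_lit 13) (.e (nat_lit 393299) (nat_lit 27) (.e (nat_lit 491560) (nat_lit 10) (.e (nat_lit 344094) (nat_lit 18) .nil)))))) (.g (nat_lit 4) .nil .nil))) 
(.lf (nat_lit 124518) (.g (nat_lit 4518) (.e (nat_lit 7265) (nat_lit 384) (.e (nat_lit 57406) (nat_lit 12) (.e (nat_lit 336211) (nat_lit 13) (.e (nat_lit 393301) (nat_lit 27) (.e (nat_lit 491560) (nat_lit 10) (.e (nat_lit 344090) (nat_lit 18) .nil)))))) (.g (nat_lit 6) .nil .nil)))) (.nd (nat_lit 5) 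
(.lf (nat_lit 124502) (.g (nat_lit 2502) (.e (nat_lit 7265) (nat_lit 384) (.e (nat_lit 57406) (nat_lit 12) (.e (nat_lit 336211) (nat_lit 13) (.e (nat_lit 393234) (nat_lit 17) (.e (nat_lit 7593) (nat_lit 407) (.e (nat_lit 73731) (nat_lit 0) .nil)))))) (.g (nat_lit 4) .nil .nil))) 
(.lf (nat_lit 124534) (.g (nat_lit 1191) (.e (nat_lit 7265) (nat_lit 384) (.e (nat_lit 57406) (nat_lit 12) (.e (nat_lit 336367) (nat_lit 27) (.e (nat_lit 426544) (nat_lit 30) (.e (nat_lit 368384) (nat_lit 5) (.e (nat_lit 532481) (nat_lit 0) (.e (nat_lit 996) (nat_lit 81) .nil))))))) (.g (nat_lit 4) .nil .nil))))) (.nd (nat_lit 4) (.nd (nat_lit 5) 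
(.lf (nat_lit 124494) (.g (nat_lit 2653) (.e (nat_lit 7265) (nat_lit 384) (.e (nat_lit 57406) (nat_lit 12) (.e (nat_lit 336211) (nat_lit 13) (.e (nat_lit 393232) (nat_lit 17) (.e (nat_lit 7593) (nat_lit 407) (.e (nat_lit 73731) (nat_lit 0) .nil)))))) (.g (nat_lit 5) .nil .nil))) 
(.lf (nat_lit 124526) (.g (nat_lit 1864) (.e (nat_lit 7265) (nat_lit 384) (.e (nat_lit 57406) (nat_lit 12) (.e (nat_lit 336326) (nat_lit 18) (.e (nat_lit 204849) (nat_lit 25) (.e (nat_lit 327698) (nat_lit 8) (.e (nat_lit 303154) (nat_lit 28) (.e (nat_lit 344096) (nat_lit 18) .nil))))))) (.g (nat_lit 5) .nil .nil)))) (.nd (nat_lit 5) 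
(.lf (nat_lit 124510) (.g (nat_lit 3495) (.e (nat_lit 7265) (nat_lit 384) (.e (nat_lit 57406) (nat_lit 12) (.e (nat_lit 336211) (nat_lit 13) (.e (nat_lit 393300) (nat_lit 27) (.e (nat_lit 491558) (nat_lit 10) (.e (nat_lit 344096) (nat_lit 18) .nil)))))) (.g (nat_lit 0) .nil .nil))) 
(.lf (nat_lit 124542) (.g (nat_lit 1392) (.e (nat_lit 7265) (nat_lit 384) (.e (nat_lit 57406) (nat_lit 12) (.e (nat_lit 336456) (nat_lit 34) (.e (nat_lit 483376) (nat_lit 22) .nil)))) .nil))))))) (.nd (nat_lit 1) (.nd (nat_lit 2) (.nd (nat_lit 3) (.nd (nat_lit 4) (.nd (nat_lit 5) 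
(.lf (nat_lit 124481) (.g (nat_lit 1883) (.e (nat_lit 7265) (nat_lit 384) (.e (nat_lit 57406) (nat_lit 12) (.e (nat_lit 336210) (nat_lit 13) (.e (nat_lit 393233) (nat_lit 17) (.e (nat_lit 7591) (nat_lit 407) (.e (nat_lit 73731) (nat_lit 0) .nil)))))) (.g (nat_lit 4) .nil .nil))) 
(.lf (nat_lit 124513) (.g (nat_lit 3146) (.e (nat_lit 7265) (nat_lit 384) (.e (nat_lit 57406) (nat_lit 12) (.e (nat_lit 336211) (nat_lit 13) (.e (nat_lit 393300) (nat_lit 27) (.e (nat_lit 491560) (nat_lit 10) (.e (nat_lit 344094) (nat_lit 18) .nil)))))) (.g (nat_lit 6) .nil .nil)))) (.nd (nat_lit 5) 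
(.lf (nat_lit 124497) (.g (nat_lit 3427) (.e (nat_lit 7265) (nat_lit 384) (.e (nat_lit 57406) (nat_lit 12) (.e (nat_lit 336211) (nat_lit 13) (.e (nat_lit 393233) (nat_lit 17) (.e (nat_lit 7593) (nat_lit 407) (.e (nat_lit 73729) (nat_lit 0) .nil)))))) (.g (nat_lit 0) .nil .nil))) 
(.lf (nat_lit 124529) (.g (nat_lit 1119) (.e (nat_lit 7265) (nat_lit 384) (.e (nat_lit 57406) (nat_lit 12) (.e (nat_lit 336367) (nat_lit 27) (.e (nat_lit 426542) (nat_lit 29) (.e (nat_lit 352320) (nat_lit 25) .nil))))) .nil)))) (.nd (nat_lit 4) (.nd (nat_lit 5) 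
(.lf (nat_lit 124489) (.g (nat_lit 3334) (.e (nat_lit 7265) (nat_lit 384) (.e (nat_lit 57406) (nat_lit 12) (.e (nat_lit 336210) (nat_lit 13) (.e (nat_lit 393301) (nat_lit 27) (.e (nat_lit 491558) (nat_lit 10) (.e (nat_lit 344091) (nat_lit 18) .nil)))))) (.g (nat_lit 5) .nil .nil))) 
(.lf (nat_lit 124521) (.g (nat_lit 2122) (.e (nat_lit 7265) (nat_lit 384) (.e (nat_lit 57406) (nat_lit 12) (.e (nat_lit 343808) (nat_lit 13) (.e (nat_lit 393234) (nat_lit 17) (.e (nat_lit 7591) (nat_lit 407) (.e (nat_lit 73731) (nat_lit 0) .nil)))))) (.g (nat_lit 5) .nil .nil)))) (.nd (nat_lit 5) 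
(.lf (nat_lit 124505) (.g (nat_lit 3591) (.e (nat_lit 7265) (nat_lit 384) (.e (nat_lit 57406) (nat_lit 12) (.e (nat_lit 336211) (nat_lit 13) (.e (nat_lit 393299) (nat_lit 27) (.e (nat_lit 491558) (nat_lit 10) (.e (nat_lit 344091) (nat_lit 18) .nil)))))) (.g (nat_lit 6) .nil .nil))) 
(.lf (nat_lit 124537) (.g (nat_lit 3106) (.e (nat_lit 7265) (nat_lit 384) (.e (nat_lit 57406) (nat_lit 12) (.e (nat_lit 336454) (nat_lit 34) (.e (nat_lit 483376) (nat_lit 22) .nil)))) .nil))))) (.nd (nat_lit 3) (.nd (nat_lit 4) (.nd (nat_lit 5) 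
(.lf (nat_lit 124485) (.g (nat_lit 3229) (.e (nat_lit 7265) (nat_lit 384) (.e (nat_lit 57406) (nat_lit 12) (.e (nat_lit 336210) (nat_lit 13) (.e (nat_lit 393299) (nat_lit 27) (.e (nat_lit 491560) (nat_lit 10) (.e (nat_lit 344090) (nat_lit 18) .nil)))))) (.g (nat_lit 5) .nil .nil))) 
(.lf (nat_lit 124517) (.g (nat_lit 4260) (.e (nat_lit 7265) (nat_lit 384) (.e (nat_lit 57406) (nat_lit 12) (.e (nat_lit 336211) (nat_lit 13) (.e (nat_lit 393301) (nat_lit 27) (.e (nat_lit 491558) (nat_lit 10) (.e (nat_lit 344096) (nat_lit 18) .nil)))))) (.g (nat_lit 6) .nil .nil)))) (.nd (nat_lit 5) 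
(.lf (nat_lit 124501) (.g (nat_lit 3563) (.e (nat_lit 7265) (nat_lit 384) (.e (nat_lit 57406) (nat_lit 12) (.e (nat_lit 336211) (nat_lit 13) (.e (nat_lit 393234) (nat_lit 17) (.e (nat_lit 7593) (nat_lit 407) (.e (nat_lit 73729) (nat_lit 0) .nil)))))) (.g (nat_lit 6) .nil .nil))) 
(.lf (nat_lit 124533) (.g (nat_lit 1227) (.e (nat_lit 7265) (nat_lit 384) (.e (nat_lit 57406) (nat_lit 12) (.e (nat_lit 336367) (nat_lit 27) (.e (nat_lit 426544) (nat_lit 30) (.e (nat_lit 368384) (nat_lit 5) (.e (nat_lit 532481) (nat_lit 0) (.e (nat_lit 974) (nat_lit 81) .nil))))))) (.g (nat_lit 4) .nil .nil))))) (.nd (nat_lit 4) (.nd (nat_lit 5) 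
(.lf (nat_lit 124493) (.g (nat_lit 3677) (.e (nat_lit 7265) (nat_lit 384) (.e (nat_lit 57406) (nat_lit 12) (.e (nat_lit 336211) (nat_lit 13) (.e (nat_lit 393232) (nat_lit 17) (.e (nat_lit 7593) (nat_lit 407) (.e (nat_lit 73729) (nat_lit 0) .nil)))))) (.g (nat_lit 0) .nil .nil))) 
(.lf (nat_lit 124525) (.g (nat_lit 2529) (.e (nat_lit 7265) (nat_lit 384) (.e (nat_lit 57406) (nat_lit 12) (.e (nat_lit 336325) (nat_lit 18) (.e (nat_lit 204855) (nat_lit 26) (.e (nat_lit 336226) (nat_lit 14) (.e (nat_lit 401472) (nat_lit 28) (.e (nat_lit 344096) (nat_lit 18) .nil))))))) (.g (nat_lit 4) .nil .nil)))) (.nd (nat_lit 5) 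
(.lf (nat_lit 124509) (.g (nat_lit 3478) (.e (nat_lit 7265) (nat_lit 384) (.e (nat_lit 57406) (nat_lit 12) (.e (nat_lit 336211) (nat_lit 13) (.e (nat_lit 393300) (nat_lit 27) (.e (nat_lit 491558) (nat_lit 10) (.e (nat_lit 344091) (nat_lit 18) .nil)))))) (.g (nat_lit 0) .nil .nil))) 
(.lf (nat_lit 124541) (.g (nat_lit 1483) (.e (nat_lit 7265) (nat_lit 384) (.e (nat_lit 57406) (nat_lit 12) (.e (nat_lit 336456) (nat_lit 34) (.e (nat_lit 483374) (nat_lit 22) .nil)))) .nil)))))) (.nd (nat_lit 2) (.nd (nat_lit 3) (.nd (nat_lit 4) (.nd (nat_lit 5) 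
(.lf (nat_lit 124483) (.g (nat_lit 2289) (.e (nat_lit 7265) (nat_lit 384) (.e (nat_lit 57406) (nat_lit 12) (.e (nat_lit 336210) (nat_lit 13) (.e (nat_lit 393234) (nat_lit 17) (.e (nat_lit 7591) (nat_lit 407) (.e (nat_lit 73731) (nat_lit 0) .nil)))))) (.g (nat_lit 4) .nil .nil))) 
(.lf (nat_lit 124515) (.g (nat_lit 3638) (.e (nat_lit 7265) (nat_lit 384) (.e (nat_lit 57406) (nat_lit 12) (.e (nat_lit 336211) (nat_lit 13) (.e (nat_lit 393301) (nat_lit 27) (.e (nat_lit 491558) (nat_lit 10) (.e (nat_lit 344090) (nat_lit 18) .nil)))))) (.g (nat_lit 5) .nil .nil)))) (.nd (nat_lit 5) 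
(.lf (nat_lit 124499) (.g (nat_lit 3511) (.e (nat_lit 7265) (nat_lit 384) (.e (nat_lit 57406) (nat_lit 12) (.e (nat_lit 336211) (nat_lit 13) (.e (nat_lit 393234) (nat_lit 17) (.e (nat_lit 7591) (nat_lit 407) (.e (nat_lit 73729) (nat_lit 0) .nil)))))) (.g (nat_lit 6) .nil .nil))) 
(.lf (nat_lit 124531) (.g (nat_lit 1707) (.e (nat_lit 7265) (nat_lit 384) (.e (nat_lit 57406) (nat_lit 12) (.e (nat_lit 336367) (nat_lit 27) (.e (nat_lit 426542) (nat_lit 29) (.e (nat_lit 352321) (nat_lit 25) (.e (nat_lit 139277) (nat_lit 3) (.e (nat_lit 57353) (nat_lit 0) .nil))))))) (.g (nat_lit 5) .nil .nil))))) (.nd (nat_lit 4) (.nd (nat_lit 5) 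
(.lf (nat_lit 124491) (.g (nat_lit 3957) (.e (nat_lit 7265) (nat_lit 384) (.e (nat_lit 57406) (nat_lit 12) (.e (nat_lit 336210) (nat_lit 13) (.e (nat_lit 393301) (nat_lit 27) (.e (nat_lit 491560) (nat_lit 10) (.e (nat_lit 344096) (nat_lit 18) .nil)))))) (.g (nat_lit 5) .nil .nil))) 
(.lf (nat_lit 124523) (.g (nat_lit 934) (.e (nat_lit 7265) (nat_lit 384) (.e (nat_lit 57406) (nat_lit 12) (.e (nat_lit 336314) (nat_lit 16) .nil))) .nil))) (.nd (nat_lit 5) 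
(.lf (nat_lit 124507) (.g (nat_lit 2862) (.e (nat_lit 7265) (nat_lit 384) (.e (nat_lit 57406) (nat_lit 12) (.e (nat_lit 336211) (nat_lit 13) (.e (nat_lit 393299) (nat_lit 27) (.e (nat_lit 491560) (nat_lit 10) (.e (nat_lit 344091) (nat_lit 18) .nil)))))) (.g (nat_lit 5) .nil .nil))) 
(.lf (nat_lit 124539) (.g (nat_lit 3196) (.e (nat_lit 7265) (nat_lit 384) (.e (nat_lit 57406) (nat_lit 12) (.e (nat_lit 336456) (nat_lit 34) (.e (nat_lit 483372) (nat_lit 21) (.e (nat_lit 319490) (nat_lit 0) (.e (nat_lit 595) (nat_lit 45) (.e (nat_lit 532490) (nat_lit 0) (.e (nat_lit 7936) (nat_lit 81) .nil)))))))) (.g (nat_lit 5) .nil .nil)))))) (.nd (nat_lit 3) (.nd (nat_lit 4) (.nd (nat_lit 5) 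
(.lf (nat_lit 124487) (.g (nat_lit 1842) (.e (nat_lit 7265) (nat_lit 384) (.e (nat_lit 57406) (nat_lit 12) (.e (nat_lit 336210) (nat_lit 13) (.e (nat_lit 393300) (nat_lit 27) (.e (nat_lit 491560) (nat_lit 10) (.e (nat_lit 344091) (nat_lit 18) .nil)))))) (.g (nat_lit 4) .nil .nil))) 
(.lf (nat_lit 124519) (.g (nat_lit 4125) (.e (nat_lit 7265) (nat_lit 384) (.e (nat_lit 57406) (nat_lit 12) (.e (nat_lit 336211) (nat_lit 13) (.e (nat_lit 393301) (nat_lit 27) (.e (nat_lit 491560) (nat_lit 10) (.e (nat_lit 344094) (nat_lit 18) .nil)))))) (.g (nat_lit 6) .nil .nil)))) (.nd (nat_lit 5) 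
(.lf (nat_lit 124503) (.g (nat_lit 2350) (.e (nat_lit 7265) (nat_lit 384) (.e (nat_lit 57406) (nat_lit 12) (.e (nat_lit 336211) (nat_lit 13) (.e (nat_lit 393298) (nat_lit 27) (.e (nat_lit 491560) (nat_lit 10) .nil))))) .nil)) 
(.lf (nat_lit 124535) (.g (nat_lit 1568) (.e (nat_lit 7265) (nat_lit 384) (.e (nat_lit 57406) (nat_lit 12) (.e (nat_lit 336367) (nat_lit 27) (.e (nat_lit 426544) (nat_lit 30) (.e (nat_lit 368384) (nat_lit 5) (.e (nat_lit 532490) (nat_lit 0) (.e (nat_lit 7936) (nat_lit 81) .nil))))))) (.g (nat_lit 4) .nil .nil))))) (.nd (nat_lit 4) (.nd (nat_lit 5) 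
(.lf (nat_lit 124495) (.g (nat_lit 3232) (.e (nat_lit 7265) (nat_lit 384) (.e (nat_lit 57406) (nat_lit 12) (.e (nat_lit 336211) (nat_lit 13) (.e (nat_lit 393233) (nat_lit 17) (.e (nat_lit 7591) (nat_lit 407) (.e (nat_lit 73729) (nat_lit 0) .nil)))))) (.g (nat_lit 6) .nil .nil))) 
(.lf (nat_lit 124527) (.g (nat_lit 2539) (.e (nat_lit 7265) (nat_lit 384) (.e (nat_lit 57406) (nat_lit 12) (.e (nat_lit 336326) (nat_lit 18) (.e (nat_lit 204849) (nat_lit 25) (.e (nat_lit 327701) (nat_lit 9) (.e (nat_lit 311357) (nat_lit 28) (.e (nat_lit 344096) (nat_lit 18) .nil))))))) (.g (nat_lit 0) .nil .nil)))) (.nd (nat_lit 5) 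
(.lf (nat_lit 124511) (.g (nat_lit 3417) (.e (nat_lit 7265) (nat_lit 384) (.e (nat_lit 57406) (nat_lit 12) (.e (nat_lit 336211) (nat_lit 13) (.e (nat_lit 393300) (nat_lit 27) (.e (nat_lit 491560) (nat_lit 10) (.e (nat_lit 344090) (nat_lit 18) .nil)))))) (.g (nat_lit 0) .nil .nil))) 
(.lf (nat_lit 124543) (.g (nat_lit 1997) (.e (nat_lit 7265) (nat_lit 384) (.e (nat_lit 57406) (nat_lit 12) (.e (nat_lit 336456) (nat_lit 34) (.e (nat_lit 483377) (nat_lit 22) (.e (nat_lit 327683) (nat_lit 0) .nil))))) .nil))))))))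

noncomputable def tv1668 : DT := (.nd (nat_lit 0) (.nd (nat_lit 1) (.nd (nat_lit 2) (.nd (nat_lit 3) (.nd (nat_lit 4) (.nd (nat_lit 5) 
(.lf (nat_lit 124544) (.g (nat_lit 987) (.e (nat_lit 7265) (nat_lit 384) (.e (nat_lit 57406) (nat_lit 12) (.e (nat_lit 336456) (nat_lit 34) (.e (nat_lit 483387) (nat_lit 23) .nil)))) .nil)) 
(.lf (nat_lit 124576) (.g (nat_lit 4738) (.e (nat_lit 7265) (nat_lit 384) (.e (nat_lit 57412) (nat_lit 12) (.e (nat_lit 336024) (nat_lit 3) (.e (nat_lit 98373) (nat_lit 29) (.e (nat_lit 450588) (nat_lit 10) (.e (nat_lit 573473) (nat_lit 12) (.e (nat_lit 57353) (nat_lit 0) .nil))))))) (.g (nat_lit 0) .nil .nil)))) (.nd (nat_lit 5) 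
(.lf (nat_lit 124560) (.g (nat_lit 3544) (.e (nat_lit 7265) (nat_lit 384) (.e (nat_lit 57409) (nat_lit 12) (.e (nat_lit 336211) (nat_lit 13) (.e (nat_lit 393301) (nat_lit 27) (.e (nat_lit 491560) (nat_lit 10) (.e (nat_lit 344090) (nat_lit 18) .nil)))))) (.g (nat_lit 5) .nil .nil))) 
(.lf (nat_lit 124592) (.g (nat_lit 2188) (.e (nat_lit 7265) (nat_lit 384) (.e (nat_lit 57412) (nat_lit 12) (.e (nat_lit 336061) (nat_lit 7) (.e (nat_lit 319531) (nat_lit 16) (.e (nat_lit 286755) (nat_lit 10) (.e (nat_lit 344160) (nat_lit 37) (.e (nat_lit 647201) (nat_lit 12) (.e (nat_lit 57351) (nat_lit 0) .nil)))))))) (.g (nat_lit 4) .nil .nil))))) (.nd (nat_lit 4) (.nd (nat_lit 5) 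
(.lf (nat_lit 124552) (.g (nat_lit 2534) (.e (nat_lit 7265) (nat_lit 384) (.e (nat_lit 57409) (nat_lit 12) (.e (nat_lit 336211) (nat_lit 13) (.e (nat_lit 393234) (nat_lit 17) (.e (nat_lit 7593) (nat_lit 407) (.e (nat_lit 73729) (nat_lit 0) .nil)))))) (.g (nat_lit 5) .nil .nil))) 
(.lf (nat_lit 124584) (.g (nat_lit 3640) (.e (nat_lit 7265) (nat_lit 384) (.e (nat_lit 57412) (nat_lit 12) (.e (nat_lit 336060) (nat_lit 7) (.e (nat_lit 319533) (nat_lit 16) (.e (nat_lit 286753) (nat_lit 10) (.e (nat_lit 344160) (nat_lit 37) (.e (nat_lit 647201) (nat_lit 12) (.e (nat_lit 57351) (nat_lit 0) .nil)))))))) (.g (nat_lit 0) .nil .nil)))) (.nd (nat_lit 5) 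
(.lf (nat_lit 124568) (.g (nat_lit 2478) (.e (nat_lit 7265) (nat_lit 384) (.e (nat_lit 57412) (nat_lit 12) (.e (nat_lit 336020) (nat_lit 3) (.e (nat_lit 98372) (nat_lit 29) (.e (nat_lit 450586) (nat_lit 10) (.e (nat_lit 573478) (nat_lit 12) (.e (nat_lit 57353) (nat_lit 0) .nil))))))) (.g (nat_lit 6) .nil .nil))) 
(.lf (nat_lit 124600) (.g (nat_lit 1153) (.e (nat_lit 7265) (nat_lit 384) (.e (nat_lit 57412) (nat_lit 12) (.e (nat_lit 336173) (nat_lit 10) (.e (nat_lit 344175) (nat_lit 43) .nil)))) .nil))))) (.nd (nat_lit 3) (.nd (nat_lit 4) (.nd (nat_lit 5) 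
(.lf (nat_lit 124548) (.g (nat_lit 980) (.e (nat_lit 7265) (nat_lit 384) (.e (nat_lit 57409) (nat_lit 12) (.e (nat_lit 336211) (nat_lit 13) (.e (nat_lit 393231) (nat_lit 17) .nil)))) .nil)) 
(.lf (nat_lit 124580) (.g (nat_lit 3544) (.e (nat_lit 7265) (nat_lit 384) (.e (nat_lit 57412) (nat_lit 12) (.e (nat_lit 336058) (nat_lit 7) (.e (nat_lit 319533) (nat_lit 16) (.e (nat_lit 286753) (nat_lit 10) (.e (nat_lit 344160) (nat_lit 37) (.e (nat_lit 647201) (nat_lit 12) (.e (nat_lit 57351) (nat_lit 0) .nil)))))))) (.g (nat_lit 7) .nil .nil)))) (.nd (nat_lit 5) 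
(.lf (nat_lit 124564) (.g (nat_lit 3162) (.e (nat_lit 7265) (nat_lit 384) (.e (nat_lit 57412) (nat_lit 12) (.e (nat_lit 336020) (nat_lit 3) (.e (nat_lit 98359) (nat_lit 26) (.e (nat_lit 426286) (nat_lit 10) (.e (nat_lit 434247) (nat_lit 28) (.e (nat_lit 573478) (nat_lit 12) (.e (nat_lit 57353) (nat_lit 0) .nil)))))))) (.g (nat_lit 7) .nil .nil))) 
(.lf (nat_lit 124596) (.g (nat_lit 2369) (.e (nat_lit 7265) (nat_lit 384) (.e (nat_lit 57412) (nat_lit 12) (.e (nat_lit 336061) (nat_lit 7) (.e (nat_lit 319533) (nat_lit 16) (.e (nat_lit 286753) (nat_lit 10) (.e (nat_lit 344160) (nat_lit 37) (.e (nat_lit 647201) (nat_lit 12) (.e (nat_lit 57353) (nat_lit 0) .nil)))))))) (.g (nat_lit 4) .nil .nil))))) (.nd (nat_lit 4) (.nd (nat_lit 5) 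
(.lf (nat_lit 124556) (.g (nat_lit 2480) (.e (nat_lit 7265) (nat_lit 384) (.e (nat_lit 57409) (nat_lit 12) (.e (nat_lit 336211) (nat_lit 13) (.e (nat_lit 393300) (nat_lit 27) (.e (nat_lit 491558) (nat_lit 10) (.e (nat_lit 344096) (nat_lit 18) .nil)))))) (.g (nat_lit 5) .nil .nil))) 
(.lf (nat_lit 124588) (.g (nat_lit 3358) (.e (nat_lit 7265) (nat_lit 384) (.e (nat_lit 57412) (nat_lit 12) (.e (nat_lit 336060) (nat_lit 7) (.e (nat_lit 319534) (nat_lit 16) (.e (nat_lit 286756) (nat_lit 10) (.e (nat_lit 344160) (nat_lit 37) (.e (nat_lit 647201) (nat_lit 12) (.e (nat_lit 57351) (nat_lit 0) .nil)))))))) (.g (nat_lit 8) .nil .nil)))) (.nd (nat_lit 5) 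
(.lf (nat_lit 124572) (.g (nat_lit 3264) (.e (nat_lit 7265) (nat_lit 384) (.e (nat_lit 57412) (nat_lit 12) (.e (nat_lit 336024) (nat_lit 3) (.e (nat_lit 98373) (nat_lit 29) (.e (nat_lit 450587) (nat_lit 10) (.e (nat_lit 573477) (nat_lit 12) (.e (nat_lit 57353) (nat_lit 0) .nil))))))) (.g (nat_lit 6) .nil .nil))) 
(.lf (nat_lit 124604) (.g (nat_lit 4006) (.e (nat_lit 7265) (nat_lit 384) (.e (nat_lit 57412) (nat_lit 12) (.e (nat_lit 336173) (nat_lit 10) (.e (nat_lit 344177) (nat_lit 43) (.e (nat_lit 770072) (nat_lit 8) (.e (nat_lit 65610) (nat_lit 10) (.e (nat_lit 344090) (nat_lit 18) .nil))))))) (.g (nat_lit 0) .nil .nil))))))) (.nd (nat_lit 2) (.nd (nat_lit 3) (.nd (nat_lit 4) (.nd (nat_lit 5) 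
(.lf (nat_lit 124546) (.g (nat_lit 632) (.e (nat_lit 7265) (nat_lit 384) (.e (nat_lit 57409) (nat_lit 12) (.e (nat_lit 336182) (nat_lit 11) .nil))) .nil)) 
(.lf (nat_lit 124578) (.g (nat_lit 4651) (.e (nat_lit 7265) (nat_lit 384) (.e (nat_lit 57412) (nat_lit 12) (.e (nat_lit 336024) (nat_lit 3) (.e (nat_lit 98373) (nat_lit 29) (.e (nat_lit 450588) (nat_lit 10) (.e (nat_lit 573475) (nat_lit 12) (.e (nat_lit 57351) (nat_lit 0) .nil))))))) (.g (nat_lit 7) .nil .nil)))) (.nd (nat_lit 5) 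
(.lf (nat_lit 124562) (.g (nat_lit 4428) (.e (nat_lit 7265) (nat_lit 384) (.e (nat_lit 57412) (nat_lit 12) (.e (nat_lit 336020) (nat_lit 3) (.e (nat_lit 98359) (nat_lit 26) (.e (nat_lit 426286) (nat_lit 10) (.e (nat_lit 434245) (nat_lit 28) (.e (nat_lit 573474) (nat_lit 12) (.e (nat_lit 57348) (nat_lit 0) .nil)))))))) (.g (nat_lit 8) .nil .nil))) 
(.lf (nat_lit 124594) (.g (nat_lit 3096) (.e (nat_lit 7265) (nat_lit 384) (.e (nat_lit 57412) (nat_lit 12) (.e (nat_lit 336061) (nat_lit 7) (.e (nat_lit 319533) (nat_lit 16) (.e (nat_lit 286753) (nat_lit 10) (.e (nat_lit 344160) (nat_lit 37) (.e (nat_lit 647200) (nat_lit 12) (.e (nat_lit 57348) (nat_lit 0) .nil)))))))) (.g (nat_lit 5) .nil .nil))))) (.nd (nat_lit 4) (.nd (nat_lit 5) 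
(.lf (nat_lit 124554) (.g (nat_lit 2716) (.e (nat_lit 7265) (nat_lit 384) (.e (nat_lit 57409) (nat_lit 12) (.e (nat_lit 336211) (nat_lit 13) (.e (nat_lit 393299) (nat_lit 27) (.e (nat_lit 491558) (nat_lit 10) (.e (nat_lit 344096) (nat_lit 18) .nil)))))) (.g (nat_lit 5) .nil .nil))) 
(.lf (nat_lit 124586) (.g (nat_lit 2496) (.e (nat_lit 7265) (nat_lit 384) (.e (nat_lit 57412) (nat_lit 12) (.e (nat_lit 336060) (nat_lit 7) (.e (nat_lit 319534) (nat_lit 16) (.e (nat_lit 286756) (nat_lit 10) (.e (nat_lit 344160) (nat_lit 37) (.e (nat_lit 647200) (nat_lit 12) (.e (nat_lit 57348) (nat_lit 0) .nil)))))))) (.g (nat_lit 5) .nil .nil)))) (.nd (nat_lit 5) 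
(.lf (nat_lit 124570) (.g (nat_lit 2975) (.e (nat_lit 7265) (nat_lit 384) (.e (nat_lit 57412) (nat_lit 12) (.e (nat_lit 336020) (nat_lit 3) (.e (nat_lit 98373) (nat_lit 29) (.e (nat_lit 450587) (nat_lit 10) (.e (nat_lit 573478) (nat_lit 12) (.e (nat_lit 57353) (nat_lit 0) .nil))))))) (.g (nat_lit 6) .nil .nil))) 
(.lf (nat_lit 124602) (.g (nat_lit 3619) (.e (nat_lit 7265) (nat_lit 384) (.e (nat_lit 57412) (nat_lit 12) (.e (nat_lit 336173) (nat_lit 10) (.e (nat_lit 344177) (nat_lit 43) (.e (nat_lit 770071) (nat_lit 8) (.e (nat_lit 65610) (nat_lit 10) (.e (nat_lit 344090) (nat_lit 18) .nil))))))) (.g (nat_lit 0) .nil .nil)))))) (.nd (nat_lit 3) (.nd (nat_lit 4) (.nd (nat_lit 5) 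
(.lf (nat_lit 124550) (.g (nat_lit 1623) (.e (nat_lit 7265) (nat_lit 384) (.e (nat_lit 57409) (nat_lit 12) (.e (nat_lit 336211) (nat_lit 13) (.e (nat_lit 393232) (nat_lit 17) (.e (nat_lit 7593) (nat_lit 407) (.e (nat_lit 73731) (nat_lit 0) .nil)))))) (.g (nat_lit 4) .nil .nil))) 
(.lf (nat_lit 124582) (.g (nat_lit 387) (.e (nat_lit 7265) (nat_lit 384) (.e (nat_lit 57412) (nat_lit 12) (.e (nat_lit 336060) (nat_lit 7) .nil))) .nil))) (.nd (nat_lit 5) 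
(.lf (nat_lit 124566) (.g (nat_lit 2896) (.e (nat_lit 7265) (nat_lit 384) (.e (nat_lit 57412) (nat_lit 12) (.e (nat_lit 336020) (nat_lit 3) (.e (nat_lit 98372) (nat_lit 29) (.e (nat_lit 450586) (nat_lit 10) (.e (nat_lit 573475) (nat_lit 12) (.e (nat_lit 57348) (nat_lit 0) .nil))))))) (.g (nat_lit 6) .nil .nil))) 
(.lf (nat_lit 124598) (.g (nat_lit 4093) (.e (nat_lit 7265) (nat_lit 384) (.e (nat_lit 57412) (nat_lit 12) (.e (nat_lit 336061) (nat_lit 7) (.e (nat_lit 319534) (nat_lit 16) (.e (nat_lit 286756) (nat_lit 10) (.e (nat_lit 344160) (nat_lit 37) (.e (nat_lit 647201) (nat_lit 12) (.e (nat_lit 57351) (nat_lit 0) .nil)))))))) (.g (nat_lit 8) .nil .nil))))) (.nd (nat_lit 4) (.nd (nat_lit 5) 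
(.lf (nat_lit 124558) (.g (nat_lit 3146) (.e (nat_lit 7265) (nat_lit 384) (.e (nat_lit 57409) (nat_lit 12) (.e (nat_lit 336211) (nat_lit 13) (.e (nat_lit 393301) (nat_lit 27) (.e (nat_lit 491558) (nat_lit 10) (.e (nat_lit 344091) (nat_lit 18) .nil)))))) (.g (nat_lit 5) .nil .nil))) 
(.lf (nat_lit 124590) (.g (nat_lit 2342) (.e (nat_lit 7265) (nat_lit 384) (.e (nat_lit 57412) (nat_lit 12) (.e (nat_lit 336061) (nat_lit 7) (.e (nat_lit 319531) (nat_lit 16) (.e (nat_lit 286752) (nat_lit 10) (.e (nat_lit 344160) (nat_lit 37) (.e (nat_lit 647201) (nat_lit 12) (.e (nat_lit 57351) (nat_lit 0) .nil)))))))) (.g (nat_lit 4) .nil .nil)))) (.nd (nat_lit 5) 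
(.lf (nat_lit 124574) (.g (nat_lit 2626) (.e (nat_lit 7265) (nat_lit 384) (.e (nat_lit 57412) (nat_lit 12) (.e (nat_lit 336024) (nat_lit 3) (.e (nat_lit 98373) (nat_lit 29) (.e (nat_lit 450587) (nat_lit 10) (.e (nat_lit 573478) (nat_lit 12) (.e (nat_lit 57353) (nat_lit 0) .nil))))))) (.g (nat_lit 5) .nil .nil))) 
(.lf (nat_lit 124606) (.g (nat_lit 319) (.e (nat_lit 7265) (nat_lit 384) (.e (nat_lit 57412) (nat_lit 12) (.e (nat_lit 336176) (nat_lit 10) .nil))) .nil))))))) (.nd (nat_lit 1) (.nd (nat_lit 2) (.nd (nat_lit 3) (.nd (nat_lit 4) (.nd (nat_lit 5) 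
(.lf (nat_lit 124545) (.g (nat_lit 1483) (.e (nat_lit 7265) (nat_lit 384) (.e (nat_lit 57406) (nat_lit 12) (.e (nat_lit 336456) (nat_lit 34) (.e (nat_lit 483401) (nat_lit 25) .nil)))) .nil)) 
(.lf (nat_lit 124577) (.g (nat_lit 5432) (.e (nat_lit 7265) (nat_lit 384) (.e (nat_lit 57412) (nat_lit 12) (.e (nat_lit 336024) (nat_lit 3) (.e (nat_lit 98373) (nat_lit 29) (.e (nat_lit 450588) (nat_lit 10) (.e (nat_lit 573475) (nat_lit 12) (.e (nat_lit 57347) (nat_lit 0) .nil))))))) (.g (nat_lit 7) .nil .nil)))) (.nd (nat_lit 5) 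
(.lf (nat_lit 124561) (.g (nat_lit 3169) (.e (nat_lit 7265) (nat_lit 384) (.e (nat_lit 57409) (nat_lit 12) (.e (nat_lit 336211) (nat_lit 13) (.e (nat_lit 393301) (nat_lit 27) (.e (nat_lit 491560) (nat_lit 10) (.e (nat_lit 344094) (nat_lit 18) .nil)))))) (.g (nat_lit 5) .nil .nil))) 
(.lf (nat_lit 124593) (.g (nat_lit 2934) (.e (nat_lit 7265) (nat_lit 384) (.e (nat_lit 57412) (nat_lit 12) (.e (nat_lit 336061) (nat_lit 7) (.e (nat_lit 319531) (nat_lit 16) (.e (nat_lit 286756) (nat_lit 10) (.e (nat_lit 344160) (nat_lit 37) (.e (nat_lit 647200) (nat_lit 12) (.e (nat_lit 57353) (nat_lit 0) .nil)))))))) (.g (nat_lit 5) .nil .nil))))) (.nd (nat_lit 4) (.nd (nat_lit 5) 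
(.lf (nat_lit 124553) (.g (nat_lit 2634) (.e (nat_lit 7265) (nat_lit 384) (.e (nat_lit 57409) (nat_lit 12) (.e (nat_lit 336211) (nat_lit 13) (.e (nat_lit 393299) (nat_lit 27) (.e (nat_lit 491558) (nat_lit 10) (.e (nat_lit 344091) (nat_lit 18) .nil)))))) (.g (nat_lit 5) .nil .nil))) 
(.lf (nat_lit 124585) (.g (nat_lit 1577) (.e (nat_lit 7265) (nat_lit 384) (.e (nat_lit 57412) (nat_lit 12) (.e (nat_lit 336060) (nat_lit 7) (.e (nat_lit 319533) (nat_lit 16) (.e (nat_lit 286753) (nat_lit 10) (.e (nat_lit 344160) (nat_lit 37) (.e (nat_lit 647201) (nat_lit 12) (.e (nat_lit 57353) (nat_lit 0) .nil)))))))) (.g (nat_lit 4) .nil .nil)))) (.nd (nat_lit 5) 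
(.lf (nat_lit 124569) (.g (nat_lit 3236) (.e (nat_lit 7265) (nat_lit 384) (.e (nat_lit 57412) (nat_lit 12) (.e (nat_lit 336020) (nat_lit 3) (.e (nat_lit 98373) (nat_lit 29) (.e (nat_lit 450587) (nat_lit 10) (.e (nat_lit 573477) (nat_lit 12) (.e (nat_lit 57353) (nat_lit 0) .nil))))))) (.g (nat_lit 0) .nil .nil))) 
(.lf (nat_lit 124601) (.g (nat_lit 1066) (.e (nat_lit 7265) (nat_lit 384) (.e (nat_lit 57412) (nat_lit 12) (.e (nat_lit 336173) (nat_lit 10) (.e (nat_lit 344177) (nat_lit 43) .nil)))) .nil))))) (.nd (nat_lit 3) (.nd (nat_lit 4) (.nd (nat_lit 5) 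
(.lf (nat_lit 124549) (.g (nat_lit 2650) (.e (nat_lit 7265) (nat_lit 384) (.e (nat_lit 57409) (nat_lit 12) (.e (nat_lit 336211) (nat_lit 13) (.e (nat_lit 393232) (nat_lit 17) (.e (nat_lit 7593) (nat_lit 407) (.e (nat_lit 73729) (nat_lit 0) .nil)))))) (.g (nat_lit 6) .nil .nil))) 
(.lf (nat_lit 124581) (.g (nat_lit 3464) (.e (nat_lit 7265) (nat_lit 384) (.e (nat_lit 57412) (nat_lit 12) (.e (nat_lit 336058) (nat_lit 7) (.e (nat_lit 319534) (nat_lit 16) (.e (nat_lit 286756) (nat_lit 10) (.e (nat_lit 344160) (nat_lit 37) (.e (nat_lit 647201) (nat_lit 12) (.e (nat_lit 57351) (nat_lit 0) .nil)))))))) (.g (nat_lit 6) .nil .nil)))) (.nd (nat_lit 5) 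
(.lf (nat_lit 124565) (.g (nat_lit 3537) (.e (nat_lit 7265) (nat_lit 384) (.e (nat_lit 57412) (nat_lit 12) (.e (nat_lit 336020) (nat_lit 3) (.e (nat_lit 98359) (nat_lit 26) (.e (nat_lit 426286) (nat_lit 10) (.e (nat_lit 434248) (nat_lit 28) (.e (nat_lit 573475) (nat_lit 12) (.e (nat_lit 57353) (nat_lit 0) .nil)))))))) (.g (nat_lit 7) .nil .nil))) 
(.lf (nat_lit 124597) (.g (nat_lit 3234) (.e (nat_lit 7265) (nat_lit 384) (.e (nat_lit 57412) (nat_lit 12) (.e (nat_lit 336061) (nat_lit 7) (.e (nat_lit 319534) (nat_lit 16) (.e (nat_lit 286756) (nat_lit 10) (.e (nat_lit 344160) (nat_lit 37) (.e (nat_lit 647200) (nat_lit 12) (.e (nat_lit 57348) (nat_lit 0) .nil)))))))) (.g (nat_lit 5) .nil .nil))))) (.nd (nat_lit 4) (.nd (nat_lit 5) 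
(.lf (nat_lit 124557) (.g (nat_lit 2408) (.e (nat_lit 7265) (nat_lit 384) (.e (nat_lit 57409) (nat_lit 12) (.e (nat_lit 336211) (nat_lit 13) (.e (nat_lit 393300) (nat_lit 27) (.e (nat_lit 491560) (nat_lit 10) (.e (nat_lit 344090) (nat_lit 18) .nil)))))) (.g (nat_lit 5) .nil .nil))) 
(.lf (nat_lit 124589) (.g (nat_lit 2363) (.e (nat_lit 7265) (nat_lit 384) (.e (nat_lit 57412) (nat_lit 12) (.e (nat_lit 336061) (nat_lit 7) (.e (nat_lit 319531) (nat_lit 16) (.e (nat_lit 286751) (nat_lit 10) (.e (nat_lit 344161) (nat_lit 37) (.e (nat_lit 647201) (nat_lit 12) (.e (nat_lit 57351) (nat_lit 0) .nil)))))))) (.g (nat_lit 5) .nil .nil)))) (.nd (nat_lit 5) 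
(.lf (nat_lit 124573) (.g (nat_lit 2782) (.e (nat_lit 7265) (nat_lit 384) (.e (nat_lit 57412) (nat_lit 12) (.e (nat_lit 336024) (nat_lit 3) (.e (nat_lit 98373) (nat_lit 29) (.e (nat_lit 450587) (nat_lit 10) (.e (nat_lit 573478) (nat_lit 12) (.e (nat_lit 57351) (nat_lit 0) .nil))))))) (.g (nat_lit 5) .nil .nil))) 
(.lf (nat_lit 124605) (.g (nat_lit 4008) (.e (nat_lit 7265) (nat_lit 384) (.e (nat_lit 57412) (nat_lit 12) (.e (nat_lit 336173) (nat_lit 10) (.e (nat_lit 344177) (nat_lit 43) (.e (nat_lit 770072) (nat_lit 8) (.e (nat_lit 65617) (nat_lit 10) (.e (nat_lit 344091) (nat_lit 18) .nil))))))) (.g (nat_lit 0) .nil .nil))))))) (.nd (nat_lit 2) (.nd (nat_lit 3) (.nd (nat_lit 4) (.nd (nat_lit 5) 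
(.lf (nat_lit 124547) (.g (nat_lit 819) (.e (nat_lit 7265) (nat_lit 384) (.e (nat_lit 57409) (nat_lit 12) (.e (nat_lit 336182) (nat_lit 11) (.e (nat_lit 376576) (nat_lit 44) .nil)))) .nil)) 
(.lf (nat_lit 124579) (.g (nat_lit 2790) (.e (nat_lit 7265) (nat_lit 384) (.e (nat_lit 57412) (nat_lit 12) (.e (nat_lit 336054) (nat_lit 7) (.e (nat_lit 319534) (nat_lit 16) (.e (nat_lit 286756) (nat_lit 10) (.e (nat_lit 344160) (nat_lit 37) (.e (nat_lit 647201) (nat_lit 12) (.e (nat_lit 57351) (nat_lit 0) .nil)))))))) (.g (nat_lit 5) .nil .nil)))) (.nd (nat_lit 5) 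
(.lf (nat_lit 124563) (.g (nat_lit 3519) (.e (nat_lit 7265) (nat_lit 384) (.e (nat_lit 57412) (nat_lit 12) (.e (nat_lit 336020) (nat_lit 3) (.e (nat_lit 98359) (nat_lit 26) (.e (nat_lit 426286) (nat_lit 10) (.e (nat_lit 434247) (nat_lit 28) (.e (nat_lit 573477) (nat_lit 12) (.e (nat_lit 57353) (nat_lit 0) .nil)))))))) (.g (nat_lit 0) .nil .nil))) 
(.lf (nat_lit 124595) (.g (nat_lit 4428) (.e (nat_lit 7265) (nat_lit 384) (.e (nat_lit 57412) (nat_lit 12) (.e (nat_lit 336061) (nat_lit 7) (.e (nat_lit 319533) (nat_lit 16) (.e (nat_lit 286753) (nat_lit 10) (.e (nat_lit 344160) (nat_lit 37) (.e (nat_lit 647201) (nat_lit 12) (.e (nat_lit 57351) (nat_lit 0) .nil)))))))) (.g (nat_lit 8) .nil .nil))))) (.nd (nat_lit 4) (.nd (nat_lit 5) 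
(.lf (nat_lit 124555) (.g (nat_lit 2424) (.e (nat_lit 7265) (nat_lit 384) (.e (nat_lit 57409) (nat_lit 12) (.e (nat_lit 336211) (nat_lit 13) (.e (nat_lit 393300) (nat_lit 27) (.e (nat_lit 491558) (nat_lit 10) (.e (nat_lit 344091) (nat_lit 18) .nil)))))) (.g (nat_lit 5) .nil .nil))) 
(.lf (nat_lit 124587) (.g (nat_lit 2271) (.e (nat_lit 7265) (nat_lit 384) (.e (nat_lit 57412) (nat_lit 12) (.e (nat_lit 336060) (nat_lit 7) (.e (nat_lit 319534) (nat_lit 16) (.e (nat_lit 286756) (nat_lit 10) (.e (nat_lit 344160) (nat_lit 37) (.e (nat_lit 647200) (nat_lit 12) (.e (nat_lit 57353) (nat_lit 0) .nil)))))))) (.g (nat_lit 5) .nil .nil)))) (.nd (nat_lit 5) 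
(.lf (nat_lit 124571) (.g (nat_lit 4037) (.e (nat_lit 7265) (nat_lit 384) (.e (nat_lit 57412) (nat_lit 12) (.e (nat_lit 336020) (nat_lit 3) (.e (nat_lit 98373) (nat_lit 29) (.e (nat_lit 450588) (nat_lit 10) (.e (nat_lit 573473) (nat_lit 12) (.e (nat_lit 57348) (nat_lit 0) .nil))))))) (.g (nat_lit 0) .nil .nil))) 
(.lf (nat_lit 124603) (.g (nat_lit 3858) (.e (nat_lit 7265) (nat_lit 384) (.e (nat_lit 57412) (nat_lit 12) (.e (nat_lit 336173) (nat_lit 10) (.e (nat_lit 344177) (nat_lit 43) (.e (nat_lit 770071) (nat_lit 8) (.e (nat_lit 65617) (nat_lit 10) (.e (nat_lit 344091) (nat_lit 18) .nil))))))) (.g (nat_lit 0) .nil .nil)))))) (.nd (nat_lit 3) (.nd (nat_lit 4) (.nd (nat_lit 5) 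
(.lf (nat_lit 124551) (.g (nat_lit 1382) (.e (nat_lit 7265) (nat_lit 384) (.e (nat_lit 57409) (nat_lit 12) (.e (nat_lit 336211) (nat_lit 13) (.e (nat_lit 393233) (nat_lit 17) (.e (nat_lit 7593) (nat_lit 407) (.e (nat_lit 73731) (nat_lit 0) .nil)))))) (.g (nat_lit 4) .nil .nil))) 
(.lf (nat_lit 124583) (.g (nat_lit 2305) (.e (nat_lit 7265) (nat_lit 384) (.e (nat_lit 57412) (nat_lit 12) (.e (nat_lit 336060) (nat_lit 7) (.e (nat_lit 319533) (nat_lit 16) (.e (nat_lit 286753) (nat_lit 10) (.e (nat_lit 344160) (nat_lit 37) (.e (nat_lit 647200) (nat_lit 12) (.e (nat_lit 57348) (nat_lit 0) .nil)))))))) (.g (nat_lit 5) .nil .nil)))) (.nd (nat_lit 5) 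
(.lf (nat_lit 124567) (.g (nat_lit 2685) (.e (nat_lit 7265) (nat_lit 384) (.e (nat_lit 57412) (nat_lit 12) (.e (nat_lit 336020) (nat_lit 3) (.e (nat_lit 98372) (nat_lit 29) (.e (nat_lit 450586) (nat_lit 10) (.e (nat_lit 573477) (nat_lit 12) (.e (nat_lit 57353) (nat_lit 0) .nil))))))) (.g (nat_lit 0) .nil .nil))) 
(.lf (nat_lit 124599) (.g (nat_lit 1129) (.e (nat_lit 7265) (nat_lit 384) (.e (nat_lit 57412) (nat_lit 12) (.e (nat_lit 336173) (nat_lit 10) (.e (nat_lit 344174) (nat_lit 42) .nil)))) .nil)))) (.nd (nat_lit 4) (.nd (nat_lit 5) 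
(.lf (nat_lit 124559) (.g (nat_lit 3258) (.e (nat_lit 7265) (nat_lit 384) (.e (nat_lit 57409) (nat_lit 12) (.e (nat_lit 336211) (nat_lit 13) (.e (nat_lit 393301) (nat_lit 27) (.e (nat_lit 491558) (nat_lit 10) (.e (nat_lit 344096) (nat_lit 18) .nil)))))) (.g (nat_lit 5) .nil .nil))) 
(.lf (nat_lit 124591) (.g (nat_lit 2443) (.e (nat_lit 7265) (nat_lit 384) (.e (nat_lit 57412) (nat_lit 12) (.e (nat_lit 336061) (nat_lit 7) (.e (nat_lit 319531) (nat_lit 16) (.e (nat_lit 286753) (nat_lit 10) (.e (nat_lit 344160) (nat_lit 37) (.e (nat_lit 647200) (nat_lit 12) (.e (nat_lit 57348) (nat_lit 0) .nil)))))))) (.g (nat_lit 4) .nil .nil)))) (.nd (nat_lit 5) 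
(.lf (nat_lit 124575) (.g (nat_lit 4838) (.e (nat_lit 7265) (nat_lit 384) (.e (nat_lit 57412) (nat_lit 12) (.e (nat_lit 336024) (nat_lit 3) (.e (nat_lit 98373) (nat_lit 29) (.e (nat_lit 450588) (nat_lit 10) (.e (nat_lit 573473) (nat_lit 12) (.e (nat_lit 57348) (nat_lit 0) .nil))))))) (.g (nat_lit 0) .nil .nil))) 
(.lf (nat_lit 124607) (.g (nat_lit 3586) (.e (nat_lit 7265) (nat_lit 384) (.e (nat_lit 57412) (nat_lit 12) (.e (nat_lit 336176) (nat_lit 10) (.e (nat_lit 344091) (nat_lit 18) (.e (nat_lit 7122) (nat_lit 382) (.e (nat_lit 1201) (nat_lit 88) (.e (nat_lit 65610) (nat_lit 10) (.e (nat_lit 344090) (nat_lit 18) .nil)))))))) (.g (nat_lit 7) .nil .nil)))))))))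

noncomputable def tv1669 : DT := (.nd (nat_lit 0) (.nd (nat_lit 1) (.nd (nat_lit 2) (.nd (nat_lit 3) (.nd (nat_lit 4) 
(.lf (nat_lit 124608) (.g (nat_lit 3918) (.e (nat_lit 7265) (nat_lit 384) (.e (nat_lit 57412) (nat_lit 12) (.e (nat_lit 336176) (nat_lit 10) (.e (nat_lit 344091) (nat_lit 18) (.e (nat_lit 7124) (nat_lit 382) (.e (nat_lit 1201) (nat_lit 88) (.e (nat_lit 65617) (nat_lit 10) (.e (nat_lit 344091) (nat_lit 18) .nil)))))))) (.g (nat_lit 0) .nil .nil))) 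
(.lf (nat_lit 124624) (.g (nat_lit 922) (.e (nat_lit 7265) (nat_lit 384) (.e (nat_lit 57412) (nat_lit 12) (.e (nat_lit 336176) (nat_lit 10) (.e (nat_lit 344173) (nat_lit 42) .nil)))) .nil))) (.nd (nat_lit 4) 
(.lf (nat_lit 124616) (.g (nat_lit 3920) (.e (nat_lit 7265) (nat_lit 384) (.e (nat_lit 57412) (nat_lit 12) (.e (nat_lit 336176) (nat_lit 10) (.e (nat_lit 344096) (nat_lit 18) (.e (nat_lit 7124) (nat_lit 382) (.e (nat_lit 1201) (nat_lit 88) (.e (nat_lit 65617) (nat_lit 10) (.e (nat_lit 344091) (nat_lit 18) .nil)))))))) (.g (nat_lit 0) .nil .nil))) 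
(.lf (nat_lit 124632) (.g (nat_lit 2219) (.e (nat_lit 7265) (nat_lit 384) (.e (nat_lit 57412) (nat_lit 12) (.e (nat_lit 336212) (nat_lit 13) (.e (nat_lit 393232) (nat_lit 17) (.e (nat_lit 7591) (nat_lit 407) (.e (nat_lit 73731) (nat_lit 0) .nil)))))) (.g (nat_lit 6) .nil .nil))))) (.nd (nat_lit 3) (.nd (nat_lit 4) 
(.lf (nat_lit 124612) (.g (nat_lit 3829) (.e (nat_lit 7265) (nat_lit 384) (.e (nat_lit 57412) (nat_lit 12) (.e (nat_lit 336176) (nat_lit 10) (.e (nat_lit 344091) (nat_lit 18) (.e (nat_lit 7265) (nat_lit 384) (.e (nat_lit 57427) (nat_lit 15) (.e (nat_lit 360451) (nat_lit 0) .nil))))))) (.g (nat_lit 0) .nil .nil))) 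
(.lf (nat_lit 124628) (.g (nat_lit 842) (.e (nat_lit 7265) (nat_lit 384) (.e (nat_lit 57412) (nat_lit 12) (.e (nat_lit 336176) (nat_lit 10) (.e (nat_lit 344177) (nat_lit 43) .nil)))) .nil))) (.nd (nat_lit 4) 
(.lf (nat_lit 124620) (.g (nat_lit 3882) (.e (nat_lit 7265) (nat_lit 384) (.e (nat_lit 57412) (nat_lit 12) (.e (nat_lit 336176) (nat_lit 10) (.e (nat_lit 344096) (nat_lit 18) (.e (nat_lit 7265) (nat_lit 384) (.e (nat_lit 57427) (nat_lit 15) (.e (nat_lit 360451) (nat_lit 0) .nil))))))) (.g (nat_lit 0) .nil .nil))) 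
(.lf (nat_lit 124636) (.g (nat_lit 2460) (.e (nat_lit 7265) (nat_lit 384) (.e (nat_lit 57412) (nat_lit 12) (.e (nat_lit 336212) (nat_lit 13) (.e (nat_lit 393234) (nat_lit 17) (.e (nat_lit 7591) (nat_lit 407) (.e (nat_lit 73731) (nat_lit 0) .nil)))))) (.g (nat_lit 0) .nil .nil)))))) (.nd (nat_lit 2) (.nd (nat_lit 3) (.nd (nat_lit 4) 
(.lf (nat_lit 124610) (.g (nat_lit 3612) (.e (nat_lit 7265) (nat_lit 384) (.e (nat_lit 57412) (nat_lit 12) (.e (nat_lit 336176) (nat_lit 10) (.e (nat_lit 344091) (nat_lit 18) (.e (nat_lit 7265) (nat_lit 384) (.e (nat_lit 57412) (nat_lit 12) (.e (nat_lit 336176) (nat_lit 10) (.e (nat_lit 344091) (nat_lit 18) .nil)))))))) (.g (nat_lit 0) .nil .nil))) 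
(.lf (nat_lit 124626) (.g (nat_lit 919) (.e (nat_lit 7265) (nat_lit 384) (.e (nat_lit 57412) (nat_lit 12) (.e (nat_lit 336176) (nat_lit 10) (.e (nat_lit 344175) (nat_lit 43) .nil)))) .nil))) (.nd (nat_lit 4) 
(.lf (nat_lit 124618) (.g (nat_lit 3487) (.e (nat_lit 7265) (nat_lit 384) (.e (nat_lit 57412) (nat_lit 12) (.e (nat_lit 336176) (nat_lit 10) (.e (nat_lit 344096) (nat_lit 18) (.e (nat_lit 7261) (nat_lit 384) (.e (nat_lit 57427) (nat_lit 15) (.e (nat_lit 360451) (nat_lit 0) .nil))))))) (.g (nat_lit 0) .nil .nil))) 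
(.lf (nat_lit 124634) (.g (nat_lit 2155) (.e (nat_lit 7265) (nat_lit 384) (.e (nat_lit 57412) (nat_lit 12) (.e (nat_lit 336212) (nat_lit 13) (.e (nat_lit 393233) (nat_lit 17) (.e (nat_lit 7591) (nat_lit 407) (.e (nat_lit 73731) (nat_lit 0) .nil)))))) (.g (nat_lit 0) .nil .nil))))) (.nd (nat_lit 3) (.nd (nat_lit 4) 
(.lf (nat_lit 124614) (.g (nat_lit 3175) (.e (nat_lit 7265) (nat_lit 384) (.e (nat_lit 57412) (nat_lit 12) (.e (nat_lit 336176) (nat_lit 10) (.e (nat_lit 344091) (nat_lit 18) (.e (nat_lit 7266) (nat_lit 384) (.e (nat_lit 57427) (nat_lit 15) (.e (nat_lit 360450) (nat_lit 0) .nil))))))) (.g (nat_lit 7) .nil .nil))) 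
(.lf (nat_lit 124630) (.g (nat_lit 1829) (.e (nat_lit 7265) (nat_lit 384) (.e (nat_lit 57412) (nat_lit 12) (.e (nat_lit 336212) (nat_lit 13) (.e (nat_lit 393231) (nat_lit 17) (.e (nat_lit 7591) (nat_lit 407) (.e (nat_lit 73731) (nat_lit 0) .nil)))))) (.g (nat_lit 0) .nil .nil)))) (.nd (nat_lit 4) 
(.lf (nat_lit 124622) (.g (nat_lit 3335) (.e (nat_lit 7265) (nat_lit 384) (.e (nat_lit 57412) (nat_lit 12) (.e (nat_lit 336176) (nat_lit 10) (.e (nat_lit 344096) (nat_lit 18) (.e (nat_lit 7266) (nat_lit 384) (.e (nat_lit 57427) (nat_lit 15) (.e (nat_lit 360450) (nat_lit 0) .nil))))))) (.g (nat_lit 7) .nil .nil))) 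
(.lf (nat_lit 124638) (.g (nat_lit 2954) (.e (nat_lit 7265) (nat_lit 384) (.e (nat_lit 57412) (nat_lit 12) (.e (nat_lit 336212) (nat_lit 13) (.e (nat_lit 393299) (nat_lit 27) (.e (nat_lit 491560) (nat_lit 10) (.e (nat_lit 344090) (nat_lit 18) .nil)))))) (.g (nat_lit 6) .nil .nil))))))) (.nd (nat_lit 1) (.nd (nat_lit 2) (.nd (nat_lit 3) (.nd (nat_lit 4) 
(.lf (nat_lit 124609) (.g (nat_lit 4134) (.e (nat_lit 7265) (nat_lit 384) (.e (nat_lit 57412) (nat_lit 12) (.e (nat_lit 336176) (nat_lit 10) (.e (nat_lit 344091) (nat_lit 18) (.e (nat_lit 7125) (nat_lit 382) (.e (nat_lit 1201) (nat_lit 88) (.e (nat_lit 65617) (nat_lit 10) (.e (nat_lit 344091) (nat_lit 18) .nil)))))))) (.g (nat_lit 0) .nil .nil))) 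
(.lf (nat_lit 124625) (.g (nat_lit 900) (.e (nat_lit 7265) (nat_lit 384) (.e (nat_lit 57412) (nat_lit 12) (.e (nat_lit 336176) (nat_lit 10) (.e (nat_lit 344174) (nat_lit 42) .nil)))) .nil))) (.nd (nat_lit 4) 
(.lf (nat_lit 124617) (.g (nat_lit 4351) (.e (nat_lit 7265) (nat_lit 384) (.e (nat_lit 57412) (nat_lit 12) (.e (nat_lit 336176) (nat_lit 10) (.e (nat_lit 344096) (nat_lit 18) (.e (nat_lit 7125) (nat_lit 382) (.e (nat_lit 1201) (nat_lit 88) (.e (nat_lit 65617) (nat_lit 10) (.e (nat_lit 344091) (nat_lit 18) .nil)))))))) (.g (nat_lit 0) .nil .nil))) 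
(.lf (nat_lit 124633) (.g (nat_lit 1945) (.e (nat_lit 7265) (nat_lit 384) (.e (nat_lit 57412) (nat_lit 12) (.e (nat_lit 336212) (nat_lit 13) (.e (nat_lit 393232) (nat_lit 17) (.e (nat_lit 7593) (nat_lit 407) (.e (nat_lit 73731) (nat_lit 0) .nil)))))) (.g (nat_lit 5) .nil .nil))))) (.nd (nat_lit 3) (.nd (nat_lit 4) 
(.lf (nat_lit 124613) (.g (nat_lit 3404) (.e (nat_lit 7265) (nat_lit 384) (.e (nat_lit 57412) (nat_lit 12) (.e (nat_lit 336176) (nat_lit 10) (.e (nat_lit 344091) (nat_lit 18) (.e (nat_lit 7266) (nat_lit 384) (.e (nat_lit 57426) (nat_lit 15) (.e (nat_lit 360449) (nat_lit 0) .nil))))))) (.g (nat_lit 0) .nil .nil))) 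
(.lf (nat_lit 124629) (.g (nat_lit 848) (.e (nat_lit 7265) (nat_lit 384) (.e (nat_lit 57412) (nat_lit 12) (.e (nat_lit 336178) (nat_lit 10) (.e (nat_lit 344177) (nat_lit 43) .nil)))) .nil))) (.nd (nat_lit 4) 
(.lf (nat_lit 124621) (.g (nat_lit 3243) (.e (nat_lit 7265) (nat_lit 384) (.e (nat_lit 57412) (nat_lit 12) (.e (nat_lit 336176) (nat_lit 10) (.e (nat_lit 344096) (nat_lit 18) (.e (nat_lit 7266) (nat_lit 384) (.e (nat_lit 57427) (nat_lit 15) (.e (nat_lit 360449) (nat_lit 0) .nil))))))) (.g (nat_lit 6) .nil .nil))) 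
(.lf (nat_lit 124637) (.g (nat_lit 2034) (.e (nat_lit 7265) (nat_lit 384) (.e (nat_lit 57412) (nat_lit 12) (.e (nat_lit 336212) (nat_lit 13) (.e (nat_lit 393234) (nat_lit 17) (.e (nat_lit 7593) (nat_lit 407) (.e (nat_lit 73731) (nat_lit 0) .nil)))))) (.g (nat_lit 5) .nil .nil)))))) (.nd (nat_lit 2) (.nd (nat_lit 3) (.nd (nat_lit 4) 
(.lf (nat_lit 124611) (.g (nat_lit 3462) (.e (nat_lit 7265) (nat_lit 384) (.e (nat_lit 57412) (nat_lit 12) (.e (nat_lit 336176) (nat_lit 10) (.e (nat_lit 344091) (nat_lit 18) (.e (nat_lit 7265) (nat_lit 384) (.e (nat_lit 57426) (nat_lit 15) (.e (nat_lit 360449) (nat_lit 0) .nil))))))) (.g (nat_lit 0) .nil .nil))) 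
(.lf (nat_lit 124627) (.g (nat_lit 1645) (.e (nat_lit 7265) (nat_lit 384) (.e (nat_lit 57412) (nat_lit 12) (.e (nat_lit 336176) (nat_lit 10) (.e (nat_lit 344176) (nat_lit 43) (.e (nat_lit 770072) (nat_lit 8) (.e (nat_lit 65610) (nat_lit 10) (.e (nat_lit 344090) (nat_lit 18) .nil))))))) (.g (nat_lit 4) .nil .nil)))) (.nd (nat_lit 4) 
(.lf (nat_lit 124619) (.g (nat_lit 3513) (.e (nat_lit 7265) (nat_lit 384) (.e (nat_lit 57412) (nat_lit 12) (.e (nat_lit 336176) (nat_lit 10) (.e (nat_lit 344096) (nat_lit 18) (.e (nat_lit 7265) (nat_lit 384) (.e (nat_lit 57426) (nat_lit 15) (.e (nat_lit 360449) (nat_lit 0) .nil))))))) (.g (nat_lit 0) .nil .nil))) 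
(.lf (nat_lit 124635) (.g (nat_lit 1887) (.e (nat_lit 7265) (nat_lit 384) (.e (nat_lit 57412) (nat_lit 12) (.e (nat_lit 336212) (nat_lit 13) (.e (nat_lit 393233) (nat_lit 17) (.e (nat_lit 7593) (nat_lit 407) (.e (nat_lit 73731) (nat_lit 0) .nil)))))) (.g (nat_lit 5) .nil .nil))))) (.nd (nat_lit 3) (.nd (nat_lit 4) 
(.lf (nat_lit 124615) (.g (nat_lit 3803) (.e (nat_lit 7265) (nat_lit 384) (.e (nat_lit 57412) (nat_lit 12) (.e (nat_lit 336176) (nat_lit 10) (.e (nat_lit 344091) (nat_lit 18) (.e (nat_lit 7266) (nat_lit 384) (.e (nat_lit 57427) (nat_lit 15) (.e (nat_lit 360451) (nat_lit 0) .nil))))))) (.g (nat_lit 0) .nil .nil))) 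
(.lf (nat_lit 124631) (.g (nat_lit 1614) (.e (nat_lit 7265) (nat_lit 384) (.e (nat_lit 57412) (nat_lit 12) (.e (nat_lit 336212) (nat_lit 13) (.e (nat_lit 393231) (nat_lit 17) (.e (nat_lit 7593) (nat_lit 407) (.e (nat_lit 73731) (nat_lit 0) .nil)))))) (.g (nat_lit 5) .nil .nil)))) (.nd (nat_lit 4) 
(.lf (nat_lit 124623) (.g (nat_lit 3998) (.e (nat_lit 7265) (nat_lit 384) (.e (nat_lit 57412) (nat_lit 12) (.e (nat_lit 336176) (nat_lit 10) (.e (nat_lit 344096) (nat_lit 18) (.e (nat_lit 7266) (nat_lit 384) (.e (nat_lit 57427) (nat_lit 15) (.e (nat_lit 360451) (nat_lit 0) .nil))))))) (.g (nat_lit 0) .nil .nil))) 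
(.lf (nat_lit 124639) (.g (nat_lit 2305) (.e (nat_lit 7265) (nat_lit 384) (.e (nat_lit 57412) (nat_lit 12) (.e (nat_lit 336212) (nat_lit 13) (.e (nat_lit 393299) (nat_lit 27) (.e (nat_lit 491560) (nat_lit 10) (.e (nat_lit 344094) (nat_lit 18) .nil)))))) (.g (nat_lit 5) .nil .nil))))))))

noncomputable def tv1670 : DT := (.nd (nat_lit 0) (.nd (nat_lit 1) (.nd (nat_lit 2) (.nd (nat_lit 3) (.nd (nat_lit 4) 
(.lf (nat_lit 124640) (.g (nat_lit 2343) (.e (nat_lit 7265) (nat_lit 384) (.e (nat_lit 57412) (nat_lit 12) (.e (nat_lit 336212) (nat_lit 13) (.e (nat_lit 393300) (nat_lit 27) (.e (nat_lit 491558) (nat_lit 10) (.e (nat_lit 344090) (nat_lit 18) .nil)))))) (.g (nat_lit 6) .nil .nil))) 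
(.lf (nat_lit 124656) (.g (nat_lit 1959) (.e (nat_lit 7265) (nat_lit 384) (.e (nat_lit 57412) (nat_lit 12) (.e (nat_lit 336219) (nat_lit 13) (.e (nat_lit 393234) (nat_lit 17) (.e (nat_lit 7593) (nat_lit 407) (.e (nat_lit 73731) (nat_lit 0) .nil)))))) (.g (nat_lit 5) .nil .nil)))) (.nd (nat_lit 4) 
(.lf (nat_lit 124648) (.g (nat_lit 3885) (.e (nat_lit 7265) (nat_lit 384) (.e (nat_lit 57412) (nat_lit 12) (.e (nat_lit 336212) (nat_lit 13) (.e (nat_lit 393301) (nat_lit 27) (.e (nat_lit 491559) (nat_lit 10) (.e (nat_lit 344091) (nat_lit 18) .nil)))))) (.g (nat_lit 0) .nil .nil))) 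
(.lf (nat_lit 124664) (.g (nat_lit 3642) (.e (nat_lit 7265) (nat_lit 384) (.e (nat_lit 57412) (nat_lit 12) (.e (nat_lit 336219) (nat_lit 13) (.e (nat_lit 393301) (nat_lit 27) (.e (nat_lit 491560) (nat_lit 10) (.e (nat_lit 344090) (nat_lit 18) .nil)))))) (.g (nat_lit 6) .nil .nil))))) (.nd (nat_lit 3) (.nd (nat_lit 4) 
(.lf (nat_lit 124644) (.g (nat_lit 2537) (.e (nat_lit 7265) (nat_lit 384) (.e (nat_lit 57412) (nat_lit 12) (.e (nat_lit 336212) (nat_lit 13) (.e (nat_lit 393300) (nat_lit 27) (.e (nat_lit 491560) (nat_lit 10) (.e (nat_lit 344094) (nat_lit 18) .nil)))))) (.g (nat_lit 6) .nil .nil))) 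
(.lf (nat_lit 124660) (.g (nat_lit 2480) (.e (nat_lit 7265) (nat_lit 384) (.e (nat_lit 57412) (nat_lit 12) (.e (nat_lit 336219) (nat_lit 13) (.e (nat_lit 393300) (nat_lit 27) (.e (nat_lit 491560) (nat_lit 10) (.e (nat_lit 344091) (nat_lit 18) .nil)))))) (.g (nat_lit 6) .nil .nil)))) (.nd (nat_lit 4) 
(.lf (nat_lit 124652) (.g (nat_lit 2642) (.e (nat_lit 7265) (nat_lit 384) (.e (nat_lit 57412) (nat_lit 12) (.e (nat_lit 336217) (nat_lit 13) (.e (nat_lit 393301) (nat_lit 27) (.e (nat_lit 491560) (nat_lit 10) (.e (nat_lit 344094) (nat_lit 18) .nil)))))) (.g (nat_lit 5) .nil .nil))) 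
(.lf (nat_lit 124668) (.g (nat_lit 1529) (.e (nat_lit 7265) (nat_lit 384) (.e (nat_lit 57419) (nat_lit 12) (.e (nat_lit 336213) (nat_lit 13) (.e (nat_lit 393231) (nat_lit 17) .nil)))) .nil))))) (.nd (nat_lit 2) (.nd (nat_lit 3) (.nd (nat_lit 4) 
(.lf (nat_lit 124642) (.g (nat_lit 2917) (.e (nat_lit 7265) (nat_lit 384) (.e (nat_lit 57412) (nat_lit 12) (.e (nat_lit 336212) (nat_lit 13) (.e (nat_lit 393300) (nat_lit 27) (.e (nat_lit 491558) (nat_lit 10) (.e (nat_lit 344096) (nat_lit 18) .nil)))))) (.g (nat_lit 0) .nil .nil))) 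
(.lf (nat_lit 124658) (.g (nat_lit 2915) (.e (nat_lit 7265) (nat_lit 384) (.e (nat_lit 57412) (nat_lit 12) (.e (nat_lit 336219) (nat_lit 13) (.e (nat_lit 393300) (nat_lit 27) (.e (nat_lit 491558) (nat_lit 10) (.e (nat_lit 344096) (nat_lit 18) .nil)))))) (.g (nat_lit 0) .nil .nil)))) (.nd (nat_lit 4) 
(.lf (nat_lit 124650) (.g (nat_lit 1235) (.e (nat_lit 7265) (nat_lit 384) (.e (nat_lit 57412) (nat_lit 12) (.e (nat_lit 336217) (nat_lit 13) (.e (nat_lit 393232) (nat_lit 17) (.e (nat_lit 7591) (nat_lit 407) (.e (nat_lit 73731) (nat_lit 0) .nil)))))) (.g (nat_lit 4) .nil .nil))) 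
(.lf (nat_lit 124666) (.g (nat_lit 1212) (.e (nat_lit 7265) (nat_lit 384) (.e (nat_lit 57417) (nat_lit 12) (.e (nat_lit 336209) (nat_lit 13) (.e (nat_lit 393300) (nat_lit 27) (.e (nat_lit 491560) (nat_lit 10) .nil))))) .nil)))) (.nd (nat_lit 3) (.nd (nat_lit 4) 
(.lf (nat_lit 124646) (.g (nat_lit 3453) (.e (nat_lit 7265) (nat_lit 384) (.e (nat_lit 57412) (nat_lit 12) (.e (nat_lit 336212) (nat_lit 13) (.e (nat_lit 393301) (nat_lit 27) (.e (nat_lit 491558) (nat_lit 10) (.e (nat_lit 344096) (nat_lit 18) .nil)))))) (.g (nat_lit 0) .nil .nil))) 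
(.lf (nat_lit 124662) (.g (nat_lit 3628) (.e (nat_lit 7265) (nat_lit 384) (.e (nat_lit 57412) (nat_lit 12) (.e (nat_lit 336219) (nat_lit 13) (.e (nat_lit 393301) (nat_lit 27) (.e (nat_lit 491558) (nat_lit 10) (.e (nat_lit 344091) (nat_lit 18) .nil)))))) (.g (nat_lit 0) .nil .nil)))) (.nd (nat_lit 4) 
(.lf (nat_lit 124654) (.g (nat_lit 1813) (.e (nat_lit 7265) (nat_lit 384) (.e (nat_lit 57412) (nat_lit 12) (.e (nat_lit 336219) (nat_lit 13) (.e (nat_lit 393233) (nat_lit 17) (.e (nat_lit 7591) (nat_lit 407) (.e (nat_lit 73731) (nat_lit 0) .nil)))))) (.g (nat_lit 5) .nil .nil))) 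
(.lf (nat_lit 124670) (.g (nat_lit 2411) (.e (nat_lit 7265) (nat_lit 384) (.e (nat_lit 57419) (nat_lit 12) (.e (nat_lit 336213) (nat_lit 13) (.e (nat_lit 393232) (nat_lit 17) (.e (nat_lit 7593) (nat_lit 407) (.e (nat_lit 73729) (nat_lit 0) .nil)))))) (.g (nat_lit 5) .nil .nil))))))) (.nd (nat_lit 1) (.nd (nat_lit 2) (.nd (nat_lit 3) (.nd (nat_lit 4) 
(.lf (nat_lit 124641) (.g (nat_lit 2885) (.e (nat_lit 7265) (nat_lit 384) (.e (nat_lit 57412) (nat_lit 12) (.e (nat_lit 336212) (nat_lit 13) (.e (nat_lit 393300) (nat_lit 27) (.e (nat_lit 491558) (nat_lit 10) (.e (nat_lit 344091) (nat_lit 18) .nil)))))) (.g (nat_lit 0) .nil .nil))) 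
(.lf (nat_lit 124657) (.g (nat_lit 2879) (.e (nat_lit 7265) (nat_lit 384) (.e (nat_lit 57412) (nat_lit 12) (.e (nat_lit 336219) (nat_lit 13) (.e (nat_lit 393300) (nat_lit 27) (.e (nat_lit 491558) (nat_lit 10) (.e (nat_lit 344091) (nat_lit 18) .nil)))))) (.g (nat_lit 0) .nil .nil)))) (.nd (nat_lit 4) 
(.lf (nat_lit 124649) (.g (nat_lit 2720) (.e (nat_lit 7265) (nat_lit 384) (.e (nat_lit 57412) (nat_lit 12) (.e (nat_lit 336212) (nat_lit 13) (.e (nat_lit 393301) (nat_lit 27) (.e (nat_lit 491560) (nat_lit 10) (.e (nat_lit 344091) (nat_lit 18) .nil)))))) (.g (nat_lit 5) .nil .nil))) 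
(.lf (nat_lit 124665) (.g (nat_lit 2994) (.e (nat_lit 7265) (nat_lit 384) (.e (nat_lit 57412) (nat_lit 12) (.e (nat_lit 336219) (nat_lit 13) (.e (nat_lit 393301) (nat_lit 27) (.e (nat_lit 491560) (nat_lit 10) (.e (nat_lit 344091) (nat_lit 18) .nil)))))) (.g (nat_lit 5) .nil .nil))))) (.nd (nat_lit 3) (.nd (nat_lit 4) 
(.lf (nat_lit 124645) (.g (nat_lit 2884) (.e (nat_lit 7265) (nat_lit 384) (.e (nat_lit 57412) (nat_lit 12) (.e (nat_lit 336212) (nat_lit 13) (.e (nat_lit 393301) (nat_lit 27) (.e (nat_lit 491558) (nat_lit 10) (.e (nat_lit 344090) (nat_lit 18) .nil)))))) (.g (nat_lit 6) .nil .nil))) 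
(.lf (nat_lit 124661) (.g (nat_lit 2543) (.e (nat_lit 7265) (nat_lit 384) (.e (nat_lit 57412) (nat_lit 12) (.e (nat_lit 336219) (nat_lit 13) (.e (nat_lit 393300) (nat_lit 27) (.e (nat_lit 491560) (nat_lit 10) (.e (nat_lit 344094) (nat_lit 18) .nil)))))) (.g (nat_lit 6) .nil .nil)))) (.nd (nat_lit 4) 
(.lf (nat_lit 124653) (.g (nat_lit 456) (.e (nat_lit 7265) (nat_lit 384) (.e (nat_lit 57412) (nat_lit 12) (.e (nat_lit 336218) (nat_lit 13) .nil))) .nil)) 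
(.lf (nat_lit 124669) (.g (nat_lit 1691) (.e (nat_lit 7265) (nat_lit 384) (.e (nat_lit 57419) (nat_lit 12) (.e (nat_lit 336213) (nat_lit 13) (.e (nat_lit 393231) (nat_lit 17) (.e (nat_lit 7593) (nat_lit 407) .nil))))) .nil))))) (.nd (nat_lit 2) (.nd (nat_lit 3) (.nd (nat_lit 4) 
(.lf (nat_lit 124643) (.g (nat_lit 2480) (.e (nat_lit 7265) (nat_lit 384) (.e (nat_lit 57412) (nat_lit 12) (.e (nat_lit 336212) (nat_lit 13) (.e (nat_lit 393300) (nat_lit 27) (.e (nat_lit 491560) (nat_lit 10) (.e (nat_lit 344091) (nat_lit 18) .nil)))))) (.g (nat_lit 6) .nil .nil))) 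
(.lf (nat_lit 124659) (.g (nat_lit 2764) (.e (nat_lit 7265) (nat_lit 384) (.e (nat_lit 57412) (nat_lit 12) (.e (nat_lit 336219) (nat_lit 13) (.e (nat_lit 393300) (nat_lit 27) (.e (nat_lit 491560) (nat_lit 10) (.e (nat_lit 344090) (nat_lit 18) .nil)))))) (.g (nat_lit 0) .nil .nil)))) (.nd (nat_lit 4) 
(.lf (nat_lit 124651) (.g (nat_lit 2865) (.e (nat_lit 7265) (nat_lit 384) (.e (nat_lit 57412) (nat_lit 12) (.e (nat_lit 336217) (nat_lit 13) (.e (nat_lit 393301) (nat_lit 27) (.e (nat_lit 491558) (nat_lit 10) (.e (nat_lit 344091) (nat_lit 18) .nil)))))) (.g (nat_lit 5) .nil .nil))) 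
(.lf (nat_lit 124667) (.g (nat_lit 1497) (.e (nat_lit 7265) (nat_lit 384) (.e (nat_lit 57418) (nat_lit 12) (.e (nat_lit 336213) (nat_lit 13) (.e (nat_lit 393299) (nat_lit 27) .nil)))) .nil)))) (.nd (nat_lit 3) (.nd (nat_lit 4) 
(.lf (nat_lit 124647) (.g (nat_lit 3114) (.e (nat_lit 7265) (nat_lit 384) (.e (nat_lit 57412) (nat_lit 12) (.e (nat_lit 336212) (nat_lit 13) (.e (nat_lit 393301) (nat_lit 27) (.e (nat_lit 491559) (nat_lit 10) (.e (nat_lit 344090) (nat_lit 18) .nil)))))) (.g (nat_lit 5) .nil .nil))) 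
(.lf (nat_lit 124663) (.g (nat_lit 3675) (.e (nat_lit 7265) (nat_lit 384) (.e (nat_lit 57412) (nat_lit 12) (.e (nat_lit 336219) (nat_lit 13) (.e (nat_lit 393301) (nat_lit 27) (.e (nat_lit 491558) (nat_lit 10) (.e (nat_lit 344096) (nat_lit 18) .nil)))))) (.g (nat_lit 0) .nil .nil)))) (.nd (nat_lit 4) 
(.lf (nat_lit 124655) (.g (nat_lit 2389) (.e (nat_lit 7265) (nat_lit 384) (.e (nat_lit 57412) (nat_lit 12) (.e (nat_lit 336219) (nat_lit 13) (.e (nat_lit 393234) (nat_lit 17) (.e (nat_lit 7591) (nat_lit 407) (.e (nat_lit 73731) (nat_lit 0) .nil)))))) (.g (nat_lit 0) .nil .nil))) 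
(.lf (nat_lit 124671) (.g (nat_lit 924) (.e (nat_lit 7265) (nat_lit 384) (.e (nat_lit 57419) (nat_lit 12) (.e (nat_lit 336213) (nat_lit 13) (.e (nat_lit 393233) (nat_lit 17) .nil)))) .nil)))))))

noncomputable def tv1671 : DT := (.nd (nat_lit 0) (.nd (nat_lit 1) (.nd (nat_lit 2) (.nd (nat_lit 3) (.nd (nat_lit 4) (.nd (nat_lit 5) 
(.lf (nat_lit 124672) (.g (nat_lit 2037) (.e (nat_lit 7265) (nat_lit 384) (.e (nat_lit 57419) (nat_lit 12) (.e (nat_lit 336213) (nat_lit 13) (.e (nat_lit 393233) (nat_lit 17) (.e (nat_lit 7593) (nat_lit 407) (.e (nat_lit 73731) (nat_lit 0) .nil)))))) (.g (nat_lit 5) .nil .nil))) 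
(.lf (nat_lit 124704) (.g (nat_lit 2856) (.e (nat_lit 7265) (nat_lit 384) (.e (nat_lit 57423) (nat_lit 14) (.e (nat_lit 352277) (nat_lit 11) (.e (nat_lit 426342) (nat_lit 14) (.e (nat_lit 491560) (nat_lit 10) (.e (nat_lit 344091) (nat_lit 18) .nil)))))) (.g (nat_lit 6) .nil .nil)))) (.nd (nat_lit 5) 
(.lf (nat_lit 124688) (.g (nat_lit 1871) (.e (nat_lit 7265) (nat_lit 384) (.e (nat_lit 57421) (nat_lit 13) (.e (nat_lit 344117) (nat_lit 21) (.e (nat_lit 516151) (nat_lit 9) (.e (nat_lit 426286) (nat_lit 10) (.e (nat_lit 434247) (nat_lit 28) (.e (nat_lit 573477) (nat_lit 12) (.e (nat_lit 57352) (nat_lit 0) .nil)))))))) (.g (nat_lit 4) .nil .nil))) 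
(.lf (nat_lit 124720) (.g (nat_lit 1669) (.e (nat_lit 7265) (nat_lit 384) (.e (nat_lit 57424) (nat_lit 14) (.e (nat_lit 360192) (nat_lit 10) (.e (nat_lit 417796) (nat_lit 0) (.e (nat_lit 5409) (nat_lit 303) (.e (nat_lit 73729) (nat_lit 0) .nil)))))) (.g (nat_lit 5) .nil .nil))))) (.nd (nat_lit 4) (.nd (nat_lit 5) 
(.lf (nat_lit 124680) (.g (nat_lit 3548) (.e (nat_lit 7265) (nat_lit 384) (.e (nat_lit 57420) (nat_lit 13) (.e (nat_lit 344117) (nat_lit 21) (.e (nat_lit 516151) (nat_lit 9) (.e (nat_lit 426286) (nat_lit 10) (.e (nat_lit 434247) (nat_lit 28) (.e (nat_lit 573478) (nat_lit 12) (.e (nat_lit 57353) (nat_lit 0) .nil)))))))) (.g (nat_lit 7) .nil .nil))) 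
(.lf (nat_lit 124712) (.g (nat_lit 3017) (.e (nat_lit 7265) (nat_lit 384) (.e (nat_lit 57423) (nat_lit 14) (.e (nat_lit 352277) (nat_lit 11) (.e (nat_lit 426344) (nat_lit 14) (.e (nat_lit 491560) (nat_lit 10) (.e (nat_lit 344091) (nat_lit 18) .nil)))))) (.g (nat_lit 6) .nil .nil)))) (.nd (nat_lit 5) 
(.lf (nat_lit 124696) (.g (nat_lit 2853) (.e (nat_lit 7265) (nat_lit 384) (.e (nat_lit 57421) (nat_lit 13) (.e (nat_lit 344117) (nat_lit 21) (.e (nat_lit 516166) (nat_lit 12) (.e (nat_lit 450587) (nat_lit 10) (.e (nat_lit 573478) (nat_lit 12) (.e (nat_lit 57353) (nat_lit 0) .nil))))))) (.g (nat_lit 6) .nil .nil))) 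
(.lf (nat_lit 124728) (.g (nat_lit 2916) (.e (nat_lit 7265) (nat_lit 384) (.e (nat_lit 57424) (nat_lit 14) (.e (nat_lit 352273) (nat_lit 11) (.e (nat_lit 426343) (nat_lit 14) (.e (nat_lit 491560) (nat_lit 10) (.e (nat_lit 344096) (nat_lit 18) .nil)))))) (.g (nat_lit 5) .nil .nil)))))) (.nd (nat_lit 3) (.nd (nat_lit 4) (.nd (nat_lit 5) 
(.lf (nat_lit 124676) (.g (nat_lit 2680) (.e (nat_lit 7265) (nat_lit 384) (.e (nat_lit 57419) (nat_lit 12) (.e (nat_lit 336213) (nat_lit 13) (.e (nat_lit 393300) (nat_lit 27) (.e (nat_lit 491560) (nat_lit 10) (.e (nat_lit 344091) (nat_lit 18) .nil)))))) (.g (nat_lit 6) .nil .nil))) 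
(.lf (nat_lit 124708) (.g (nat_lit 3150) (.e (nat_lit 7265) (nat_lit 384) (.e (nat_lit 57423) (nat_lit 14) (.e (nat_lit 352277) (nat_lit 11) (.e (nat_lit 426343) (nat_lit 14) (.e (nat_lit 491560) (nat_lit 10) (.e (nat_lit 344094) (nat_lit 18) .nil)))))) (.g (nat_lit 5) .nil .nil)))) (.nd (nat_lit 5) 
(.lf (nat_lit 124692) (.g (nat_lit 3855) (.e (nat_lit 7265) (nat_lit 384) (.e (nat_lit 57421) (nat_lit 13) (.e (nat_lit 344117) (nat_lit 21) (.e (nat_lit 516151) (nat_lit 9) (.e (nat_lit 426286) (nat_lit 10) (.e (nat_lit 434248) (nat_lit 28) (.e (nat_lit 573475) (nat_lit 12) (.e (nat_lit 57353) (nat_lit 0) .nil)))))))) (.g (nat_lit 7) .nil .nil))) 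
(.lf (nat_lit 124724) (.g (nat_lit 3000) (.e (nat_lit 7265) (nat_lit 384) (.e (nat_lit 57424) (nat_lit 14) (.e (nat_lit 352273) (nat_lit 11) (.e (nat_lit 426343) (nat_lit 14) (.e (nat_lit 491558) (nat_lit 10) (.e (nat_lit 344091) (nat_lit 18) .nil)))))) (.g (nat_lit 5) .nil .nil))))) (.nd (nat_lit 4) (.nd (nat_lit 5) 
(.lf (nat_lit 124684) (.g (nat_lit 3205) (.e (nat_lit 7265) (nat_lit 384) (.e (nat_lit 57420) (nat_lit 13) (.e (nat_lit 344117) (nat_lit 21) (.e (nat_lit 516166) (nat_lit 12) (.e (nat_lit 450587) (nat_lit 10) (.e (nat_lit 573477) (nat_lit 12) (.e (nat_lit 57353) (nat_lit 0) .nil))))))) (.g (nat_lit 0) .nil .nil))) 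
(.lf (nat_lit 124716) (.g (nat_lit 749) (.e (nat_lit 7265) (nat_lit 384) (.e (nat_lit 57424) (nat_lit 14) (.e (nat_lit 352263) (nat_lit 0) .nil))) .nil))) (.nd (nat_lit 5) 
(.lf (nat_lit 124700) (.g (nat_lit 2084) (.e (nat_lit 7265) (nat_lit 384) (.e (nat_lit 57423) (nat_lit 14) (.e (nat_lit 352277) (nat_lit 11) (.e (nat_lit 426010) (nat_lit 0) (.e (nat_lit 7593) (nat_lit 407) (.e (nat_lit 73731) (nat_lit 0) .nil)))))) (.g (nat_lit 5) .nil .nil))) 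
(.lf (nat_lit 124732) (.g (nat_lit 2091) (.e (nat_lit 7265) (nat_lit 384) (.e (nat_lit 57424) (nat_lit 14) (.e (nat_lit 352277) (nat_lit 11) (.e (nat_lit 426010) (nat_lit 0) (.e (nat_lit 7593) (nat_lit 407) (.e (nat_lit 73731) (nat_lit 0) .nil)))))) (.g (nat_lit 5) .nil .nil))))))) (.nd (nat_lit 2) (.nd (nat_lit 3) (.nd (nat_lit 4) (.nd (nat_lit 5) 
(.lf (nat_lit 124674) (.g (nat_lit 2579) (.e (nat_lit 7265) (nat_lit 384) (.e (nat_lit 57419) (nat_lit 12) (.e (nat_lit 336213) (nat_lit 13) (.e (nat_lit 393299) (nat_lit 27) (.e (nat_lit 491558) (nat_lit 10) (.e (nat_lit 344096) (nat_lit 18) .nil)))))) (.g (nat_lit 5) .nil .nil))) 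
(.lf (nat_lit 124706) (.g (nat_lit 2955) (.e (nat_lit 7265) (nat_lit 384) (.e (nat_lit 57423) (nat_lit 14) (.e (nat_lit 352277) (nat_lit 11) (.e (nat_lit 426343) (nat_lit 14) (.e (nat_lit 491558) (nat_lit 10) (.e (nat_lit 344090) (nat_lit 18) .nil)))))) (.g (nat_lit 6) .nil .nil)))) (.nd (nat_lit 5) 
(.lf (nat_lit 124690) (.g (nat_lit 3474) (.e (nat_lit 7265) (nat_lit 384) (.e (nat_lit 57421) (nat_lit 13) (.e (nat_lit 344117) (nat_lit 21) (.e (nat_lit 516151) (nat_lit 9) (.e (nat_lit 426286) (nat_lit 10) (.e (nat_lit 434247) (nat_lit 28) (.e (nat_lit 573478) (nat_lit 12) (.e (nat_lit 57353) (nat_lit 0) .nil)))))))) (.g (nat_lit 7) .nil .nil))) 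
(.lf (nat_lit 124722) (.g (nat_lit 2723) (.e (nat_lit 7265) (nat_lit 384) (.e (nat_lit 57424) (nat_lit 14) (.e (nat_lit 352273) (nat_lit 11) (.e (nat_lit 426011) (nat_lit 0) (.e (nat_lit 7593) (nat_lit 407) (.e (nat_lit 73729) (nat_lit 0) .nil)))))) (.g (nat_lit 5) .nil .nil))))) (.nd (nat_lit 4) (.nd (nat_lit 5) 
(.lf (nat_lit 124682) (.g (nat_lit 3152) (.e (nat_lit 7265) (nat_lit 384) (.e (nat_lit 57420) (nat_lit 13) (.e (nat_lit 344117) (nat_lit 21) (.e (nat_lit 516165) (nat_lit 12) (.e (nat_lit 450586) (nat_lit 10) (.e (nat_lit 573477) (nat_lit 12) (.e (nat_lit 57353) (nat_lit 0) .nil))))))) (.g (nat_lit 0) .nil .nil))) 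
(.lf (nat_lit 124714) (.g (nat_lit 660) (.e (nat_lit 7265) (nat_lit 384) (.e (nat_lit 57424) (nat_lit 14) (.e (nat_lit 352256) (nat_lit 0) .nil))) .nil))) (.nd (nat_lit 5) 
(.lf (nat_lit 124698) (.g (nat_lit 2191) (.e (nat_lit 7265) (nat_lit 384) (.e (nat_lit 57423) (nat_lit 14) (.e (nat_lit 352277) (nat_lit 11) (.e (nat_lit 426009) (nat_lit 0) (.e (nat_lit 7591) (nat_lit 407) (.e (nat_lit 73731) (nat_lit 0) .nil)))))) (.g (nat_lit 0) .nil .nil))) 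
(.lf (nat_lit 124730) (.g (nat_lit 1941) (.e (nat_lit 7265) (nat_lit 384) (.e (nat_lit 57424) (nat_lit 14) (.e (nat_lit 352277) (nat_lit 11) (.e (nat_lit 426009) (nat_lit 0) (.e (nat_lit 7593) (nat_lit 407) (.e (nat_lit 73731) (nat_lit 0) .nil)))))) (.g (nat_lit 5) .nil .nil)))))) (.nd (nat_lit 3) (.nd (nat_lit 4) (.nd (nat_lit 5) 
(.lf (nat_lit 124678) (.g (nat_lit 4792) (.e (nat_lit 7265) (nat_lit 384) (.e (nat_lit 57420) (nat_lit 13) (.e (nat_lit 344117) (nat_lit 21) (.e (nat_lit 516151) (nat_lit 9) (.e (nat_lit 426286) (nat_lit 10) (.e (nat_lit 434245) (nat_lit 28) (.e (nat_lit 573474) (nat_lit 12) (.e (nat_lit 57348) (nat_lit 0) .nil)))))))) (.g (nat_lit 8) .nil .nil))) 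
(.lf (nat_lit 124710) (.g (nat_lit 2731) (.e (nat_lit 7265) (nat_lit 384) (.e (nat_lit 57423) (nat_lit 14) (.e (nat_lit 352277) (nat_lit 11) (.e (nat_lit 426344) (nat_lit 14) (.e (nat_lit 491558) (nat_lit 10) (.e (nat_lit 344090) (nat_lit 18) .nil)))))) (.g (nat_lit 6) .nil .nil)))) (.nd (nat_lit 5) 
(.lf (nat_lit 124694) (.g (nat_lit 2976) (.e (nat_lit 7265) (nat_lit 384) (.e (nat_lit 57421) (nat_lit 13) (.e (nat_lit 344117) (nat_lit 21) (.e (nat_lit 516165) (nat_lit 12) (.e (nat_lit 450586) (nat_lit 10) (.e (nat_lit 573478) (nat_lit 12) (.e (nat_lit 57353) (nat_lit 0) .nil))))))) (.g (nat_lit 7) .nil .nil))) 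
(.lf (nat_lit 124726) (.g (nat_lit 3135) (.e (nat_lit 7265) (nat_lit 384) (.e (nat_lit 57424) (nat_lit 14) (.e (nat_lit 352273) (nat_lit 11) (.e (nat_lit 426343) (nat_lit 14) (.e (nat_lit 491560) (nat_lit 10) (.e (nat_lit 344090) (nat_lit 18) .nil)))))) (.g (nat_lit 5) .nil .nil))))) (.nd (nat_lit 4) (.nd (nat_lit 5) 
(.lf (nat_lit 124686) (.g (nat_lit 4053) (.e (nat_lit 7265) (nat_lit 384) (.e (nat_lit 57420) (nat_lit 13) (.e (nat_lit 344117) (nat_lit 21) (.e (nat_lit 516166) (nat_lit 12) (.e (nat_lit 450588) (nat_lit 10) (.e (nat_lit 573473) (nat_lit 12) (.e (nat_lit 57348) (nat_lit 0) .nil))))))) (.g (nat_lit 0) .nil .nil))) 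
(.lf (nat_lit 124718) (.g (nat_lit 621) (.e (nat_lit 7265) (nat_lit 384) (.e (nat_lit 57424) (nat_lit 14) (.e (nat_lit 352271) (nat_lit 9) .nil))) .nil))) (.nd (nat_lit 5) 
(.lf (nat_lit 124702) (.g (nat_lit 2909) (.e (nat_lit 7265) (nat_lit 384) (.e (nat_lit 57423) (nat_lit 14) (.e (nat_lit 352277) (nat_lit 11) (.e (nat_lit 426011) (nat_lit 0) (.e (nat_lit 7593) (nat_lit 407) (.e (nat_lit 73731) (nat_lit 0) .nil)))))) (.g (nat_lit 5) .nil .nil))) 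
(.lf (nat_lit 124734) (.g (nat_lit 2900) (.e (nat_lit 7265) (nat_lit 384) (.e (nat_lit 57424) (nat_lit 14) (.e (nat_lit 352277) (nat_lit 11) (.e (nat_lit 426011) (nat_lit 0) (.e (nat_lit 7593) (nat_lit 407) (.e (nat_lit 73731) (nat_lit 0) .nil)))))) (.g (nat_lit 5) .nil .nil)))))))) (.nd (nat_lit 1) (.nd (nat_lit 2) (.nd (nat_lit 3) (.nd (nat_lit 4) (.nd (nat_lit 5) 
(.lf (nat_lit 124673) (.g (nat_lit 2537) (.e (nat_lit 7265) (nat_lit 384) (.e (nat_lit 57419) (nat_lit 12) (.e (nat_lit 336213) (nat_lit 13) (.e (nat_lit 393299) (nat_lit 27) (.e (nat_lit 491558) (nat_lit 10) (.e (nat_lit 344091) (nat_lit 18) .nil)))))) (.g (nat_lit 5) .nil .nil))) 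
(.lf (nat_lit 124705) (.g (nat_lit 2776) (.e (nat_lit 7265) (nat_lit 384) (.e (nat_lit 57423) (nat_lit 14) (.e (nat_lit 352277) (nat_lit 11) (.e (nat_lit 426342) (nat_lit 14) (.e (nat_lit 491560) (nat_lit 10) (.e (nat_lit 344094) (nat_lit 18) .nil)))))) (.g (nat_lit 6) .nil .nil)))) (.nd (nat_lit 5) 
(.lf (nat_lit 124689) (.g (nat_lit 3833) (.e (nat_lit 7265) (nat_lit 384) (.e (nat_lit 57421) (nat_lit 13) (.e (nat_lit 344117) (nat_lit 21) (.e (nat_lit 516151) (nat_lit 9) (.e (nat_lit 426286) (nat_lit 10) (.e (nat_lit 434247) (nat_lit 28) (.e (nat_lit 573477) (nat_lit 12) (.e (nat_lit 57353) (nat_lit 0) .nil)))))))) (.g (nat_lit 0) .nil .nil))) 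
(.lf (nat_lit 124721) (.g (nat_lit 2144) (.e (nat_lit 7265) (nat_lit 384) (.e (nat_lit 57424) (nat_lit 14) (.e (nat_lit 352273) (nat_lit 11) (.e (nat_lit 426011) (nat_lit 0) (.e (nat_lit 7591) (nat_lit 407) (.e (nat_lit 73731) (nat_lit 0) .nil)))))) (.g (nat_lit 4) .nil .nil))))) (.nd (nat_lit 4) (.nd (nat_lit 5) 
(.lf (nat_lit 124681) (.g (nat_lit 3920) (.e (nat_lit 7265) (nat_lit 384) (.e (nat_lit 57420) (nat_lit 13) (.e (nat_lit 344117) (nat_lit 21) (.e (nat_lit 516151) (nat_lit 9) (.e (nat_lit 426286) (nat_lit 10) (.e (nat_lit 434248) (nat_lit 28) (.e (nat_lit 573475) (nat_lit 12) (.e (nat_lit 57353) (nat_lit 0) .nil)))))))) (.g (nat_lit 7) .nil .nil))) 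
(.lf (nat_lit 124713) (.g (nat_lit 2810) (.e (nat_lit 7265) (nat_lit 384) (.e (nat_lit 57423) (nat_lit 14) (.e (nat_lit 352309) (nat_lit 21) (.e (nat_lit 57681) (nat_lit 155) (.e (nat_lit 122919) (nat_lit 15) (.e (nat_lit 360451) (nat_lit 0) .nil)))))) (.g (nat_lit 5) .nil .nil)))) (.nd (nat_lit 5) 
(.lf (nat_lit 124697) (.g (nat_lit 4077) (.e (nat_lit 7265) (nat_lit 384) (.e (nat_lit 57421) (nat_lit 13) (.e (nat_lit 344117) (nat_lit 21) (.e (nat_lit 516166) (nat_lit 12) (.e (nat_lit 450588) (nat_lit 10) (.e (nat_lit 573473) (nat_lit 12) (.e (nat_lit 57348) (nat_lit 0) .nil))))))) (.g (nat_lit 0) .nil .nil))) 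
(.lf (nat_lit 124729) (.g (nat_lit 2195) (.e (nat_lit 7265) (nat_lit 384) (.e (nat_lit 57424) (nat_lit 14) (.e (nat_lit 352277) (nat_lit 11) (.e (nat_lit 426009) (nat_lit 0) (.e (nat_lit 7591) (nat_lit 407) (.e (nat_lit 73731) (nat_lit 0) .nil)))))) (.g (nat_lit 0) .nil .nil)))))) (.nd (nat_lit 3) (.nd (nat_lit 4) (.nd (nat_lit 5) 
(.lf (nat_lit 124677) (.g (nat_lit 2775) (.e (nat_lit 7265) (nat_lit 384) (.e (nat_lit 57419) (nat_lit 12) (.e (nat_lit 336213) (nat_lit 13) (.e (nat_lit 393300) (nat_lit 27) (.e (nat_lit 491560) (nat_lit 10) (.e (nat_lit 344094) (nat_lit 18) .nil)))))) (.g (nat_lit 6) .nil .nil))) 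
(.lf (nat_lit 124709) (.g (nat_lit 3164) (.e (nat_lit 7265) (nat_lit 384) (.e (nat_lit 57423) (nat_lit 14) (.e (nat_lit 352277) (nat_lit 11) (.e (nat_lit 426343) (nat_lit 14) (.e (nat_lit 491560) (nat_lit 10) (.e (nat_lit 344096) (nat_lit 18) .nil)))))) (.g (nat_lit 6) .nil .nil)))) (.nd (nat_lit 5) 
(.lf (nat_lit 124693) (.g (nat_lit 3192) (.e (nat_lit 7265) (nat_lit 384) (.e (nat_lit 57421) (nat_lit 13) (.e (nat_lit 344117) (nat_lit 21) (.e (nat_lit 516165) (nat_lit 12) (.e (nat_lit 450586) (nat_lit 10) (.e (nat_lit 573477) (nat_lit 12) (.e (nat_lit 57353) (nat_lit 0) .nil))))))) (.g (nat_lit 0) .nil .nil))) 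
(.lf (nat_lit 124725) (.g (nat_lit 3063) (.e (nat_lit 7265) (nat_lit 384) (.e (nat_lit 57424) (nat_lit 14) (.e (nat_lit 352273) (nat_lit 11) (.e (nat_lit 426343) (nat_lit 14) (.e (nat_lit 491558) (nat_lit 10) (.e (nat_lit 344096) (nat_lit 18) .nil)))))) (.g (nat_lit 5) .nil .nil))))) (.nd (nat_lit 4) (.nd (nat_lit 5) 
(.lf (nat_lit 124685) (.g (nat_lit 2841) (.e (nat_lit 7265) (nat_lit 384) (.e (nat_lit 57420) (nat_lit 13) (.e (nat_lit 344117) (nat_lit 21) (.e (nat_lit 516166) (nat_lit 12) (.e (nat_lit 450587) (nat_lit 10) (.e (nat_lit 573478) (nat_lit 12) (.e (nat_lit 57353) (nat_lit 0) .nil))))))) (.g (nat_lit 6) .nil .nil))) 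
(.lf (nat_lit 124717) (.g (nat_lit 749) (.e (nat_lit 7265) (nat_lit 384) (.e (nat_lit 57424) (nat_lit 14) (.e (nat_lit 352268) (nat_lit 6) .nil))) .nil))) (.nd (nat_lit 5) 
(.lf (nat_lit 124701) (.g (nat_lit 3238) (.e (nat_lit 7265) (nat_lit 384) (.e (nat_lit 57423) (nat_lit 14) (.e (nat_lit 352277) (nat_lit 11) (.e (nat_lit 426011) (nat_lit 0) (.e (nat_lit 7591) (nat_lit 407) (.e (nat_lit 73731) (nat_lit 0) .nil)))))) (.g (nat_lit 0) .nil .nil))) 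
(.lf (nat_lit 124733) (.g (nat_lit 3240) (.e (nat_lit 7265) (nat_lit 384) (.e (nat_lit 57424) (nat_lit 14) (.e (nat_lit 352277) (nat_lit 11) (.e (nat_lit 426011) (nat_lit 0) (.e (nat_lit 7591) (nat_lit 407) (.e (nat_lit 73731) (nat_lit 0) .nil)))))) (.g (nat_lit 0) .nil .nil))))))) (.nd (nat_lit 2) (.nd (nat_lit 3) (.nd (nat_lit 4) (.nd (nat_lit 5) 
(.lf (nat_lit 124675) (.g (nat_lit 3159) (.e (nat_lit 7265) (nat_lit 384) (.e (nat_lit 57419) (nat_lit 12) (.e (nat_lit 336213) (nat_lit 13) (.e (nat_lit 393300) (nat_lit 27) (.e (nat_lit 491558) (nat_lit 10) (.e (nat_lit 344096) (nat_lit 18) .nil)))))) (.g (nat_lit 0) .nil .nil))) 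
(.lf (nat_lit 124707) (.g (nat_lit 3242) (.e (nat_lit 7265) (nat_lit 384) (.e (nat_lit 57423) (nat_lit 14) (.e (nat_lit 352277) (nat_lit 11) (.e (nat_lit 426343) (nat_lit 14) (.e (nat_lit 491560) (nat_lit 10) (.e (nat_lit 344091) (nat_lit 18) .nil)))))) (.g (nat_lit 6) .nil .nil)))) (.nd (nat_lit 5) 
(.lf (nat_lit 124691) (.g (nat_lit 4354) (.e (nat_lit 7265) (nat_lit 384) (.e (nat_lit 57421) (nat_lit 13) (.e (nat_lit 344117) (nat_lit 21) (.e (nat_lit 516151) (nat_lit 9) (.e (nat_lit 426286) (nat_lit 10) (.e (nat_lit 434248) (nat_lit 28) (.e (nat_lit 573475) (nat_lit 12) (.e (nat_lit 57348) (nat_lit 0) .nil)))))))) (.g (nat_lit 8) .nil .nil))) 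
(.lf (nat_lit 124723) (.g (nat_lit 2609) (.e (nat_lit 7265) (nat_lit 384) (.e (nat_lit 57424) (nat_lit 14) (.e (nat_lit 352273) (nat_lit 11) (.e (nat_lit 426343) (nat_lit 14) (.e (nat_lit 491558) (nat_lit 10) (.e (nat_lit 344090) (nat_lit 18) .nil)))))) (.g (nat_lit 5) .nil .nil))))) (.nd (nat_lit 4) (.nd (nat_lit 5) 
(.lf (nat_lit 124683) (.g (nat_lit 2950) (.e (nat_lit 7265) (nat_lit 384) (.e (nat_lit 57420) (nat_lit 13) (.e (nat_lit 344117) (nat_lit 21) (.e (nat_lit 516165) (nat_lit 12) (.e (nat_lit 450586) (nat_lit 10) (.e (nat_lit 573478) (nat_lit 12) (.e (nat_lit 57353) (nat_lit 0) .nil))))))) (.g (nat_lit 7) .nil .nil))) 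
(.lf (nat_lit 124715) (.g (nat_lit 555) (.e (nat_lit 7265) (nat_lit 384) (.e (nat_lit 57424) (nat_lit 14) (.e (nat_lit 352258) (nat_lit 0) .nil))) .nil))) (.nd (nat_lit 5) 
(.lf (nat_lit 124699) (.g (nat_lit 1938) (.e (nat_lit 7265) (nat_lit 384) (.e (nat_lit 57423) (nat_lit 14) (.e (nat_lit 352277) (nat_lit 11) (.e (nat_lit 426009) (nat_lit 0) (.e (nat_lit 7593) (nat_lit 407) (.e (nat_lit 73731) (nat_lit 0) .nil)))))) (.g (nat_lit 5) .nil .nil))) 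
(.lf (nat_lit 124731) (.g (nat_lit 2363) (.e (nat_lit 7265) (nat_lit 384) (.e (nat_lit 57424) (nat_lit 14) (.e (nat_lit 352277) (nat_lit 11) (.e (nat_lit 426010) (nat_lit 0) (.e (nat_lit 7591) (nat_lit 407) (.e (nat_lit 73731) (nat_lit 0) .nil)))))) (.g (nat_lit 0) .nil .nil)))))) (.nd (nat_lit 3) (.nd (nat_lit 4) (.nd (nat_lit 5) 
(.lf (nat_lit 124679) (.g (nat_lit 3893) (.e (nat_lit 7265) (nat_lit 384) (.e (nat_lit 57420) (nat_lit 13) (.e (nat_lit 344117) (nat_lit 21) (.e (nat_lit 516151) (nat_lit 9) (.e (nat_lit 426286) (nat_lit 10) (.e (nat_lit 434247) (nat_lit 28) (.e (nat_lit 573477) (nat_lit 12) (.e (nat_lit 57353) (nat_lit 0) .nil)))))))) (.g (nat_lit 0) .nil .nil))) 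
(.lf (nat_lit 124711) (.g (nat_lit 2575) (.e (nat_lit 7265) (nat_lit 384) (.e (nat_lit 57423) (nat_lit 14) (.e (nat_lit 352277) (nat_lit 11) (.e (nat_lit 426344) (nat_lit 14) (.e (nat_lit 491560) (nat_lit 10) (.e (nat_lit 344087) (nat_lit 18) .nil)))))) (.g (nat_lit 5) .nil .nil)))) (.nd (nat_lit 5) 
(.lf (nat_lit 124695) (.g (nat_lit 3231) (.e (nat_lit 7265) (nat_lit 384) (.e (nat_lit 57421) (nat_lit 13) (.e (nat_lit 344117) (nat_lit 21) (.e (nat_lit 516166) (nat_lit 12) (.e (nat_lit 450587) (nat_lit 10) (.e (nat_lit 573477) (nat_lit 12) (.e (nat_lit 57353) (nat_lit 0) .nil))))))) (.g (nat_lit 0) .nil .nil))) 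
(.lf (nat_lit 124727) (.g (nat_lit 2896) (.e (nat_lit 7265) (nat_lit 384) (.e (nat_lit 57424) (nat_lit 14) (.e (nat_lit 352273) (nat_lit 11) (.e (nat_lit 426343) (nat_lit 14) (.e (nat_lit 491560) (nat_lit 10) (.e (nat_lit 344091) (nat_lit 18) .nil)))))) (.g (nat_lit 5) .nil .nil))))) (.nd (nat_lit 4) (.nd (nat_lit 5) 
(.lf (nat_lit 124687) (.g (nat_lit 4724) (.e (nat_lit 7265) (nat_lit 384) (.e (nat_lit 57421) (nat_lit 13) (.e (nat_lit 344117) (nat_lit 21) (.e (nat_lit 516151) (nat_lit 9) (.e (nat_lit 426286) (nat_lit 10) (.e (nat_lit 434245) (nat_lit 28) (.e (nat_lit 573474) (nat_lit 12) (.e (nat_lit 57348) (nat_lit 0) .nil)))))))) (.g (nat_lit 8) .nil .nil))) 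
(.lf (nat_lit 124719) (.g (nat_lit 1303) (.e (nat_lit 7265) (nat_lit 384) (.e (nat_lit 57424) (nat_lit 14) (.e (nat_lit 360192) (nat_lit 10) (.e (nat_lit 417795) (nat_lit 0) (.e (nat_lit 5409) (nat_lit 303) (.e (nat_lit 73729) (nat_lit 0) .nil)))))) (.g (nat_lit 5) .nil .nil)))) (.nd (nat_lit 5) 
(.lf (nat_lit 124703) (.g (nat_lit 2476) (.e (nat_lit 7265) (nat_lit 384) (.e (nat_lit 57423) (nat_lit 14) (.e (nat_lit 352277) (nat_lit 11) (.e (nat_lit 426012) (nat_lit 0) (.e (nat_lit 7593) (nat_lit 407) (.e (nat_lit 73731) (nat_lit 0) .nil)))))) (.g (nat_lit 5) .nil .nil))) 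
(.lf (nat_lit 124735) (.g (nat_lit 2771) (.e (nat_lit 7265) (nat_lit 384) (.e (nat_lit 57424) (nat_lit 14) (.e (nat_lit 352277) (nat_lit 11) (.e (nat_lit 426012) (nat_lit 0) (.e (nat_lit 7591) (nat_lit 407) (.e (nat_lit 73731) (nat_lit 0) .nil)))))) (.g (nat_lit 0) .nil .nil)))))))))

noncomputable def tv1672 : DT := (.nd (nat_lit 0) (.nd (nat_lit 1) (.nd (nat_lit 2) (.nd (nat_lit 3) (.nd (nat_lit 4) (.nd (nat_lit 5) 
(.lf (nat_lit 124736) (.g (nat_lit 2494) (.e (nat_lit 7265) (nat_lit 384) (.e (nat_lit 57424) (nat_lit 14) (.e (nat_lit 352277) (nat_lit 11) (.e (nat_lit 426012) (nat_lit 0) (.e (nat_lit 7593) (nat_lit 407) (.e (nat_lit 73731) (nat_lit 0) .nil)))))) (.g (nat_lit 5) .nil .nil))) 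
(.lf (nat_lit 124768) (.g (nat_lit 2768) (.e (nat_lit 7265) (nat_lit 384) (.e (nat_lit 57424) (nat_lit 14) (.e (nat_lit 352322) (nat_lit 26) (.e (nat_lit 147496) (nat_lit 11) (.e (nat_lit 24639) (nat_lit 10) (.e (nat_lit 344096) (nat_lit 18) .nil)))))) (.g (nat_lit 5) .nil .nil)))) (.nd (nat_lit 5) 
(.lf (nat_lit 124752) (.g (nat_lit 749) (.e (nat_lit 7265) (nat_lit 384) (.e (nat_lit 57424) (nat_lit 14) (.e (nat_lit 352305) (nat_lit 20) .nil))) .nil)) 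
(.lf (nat_lit 124784) (.g (nat_lit 1577) (.e (nat_lit 7265) (nat_lit 384) (.e (nat_lit 57424) (nat_lit 14) (.e (nat_lit 352324) (nat_lit 26) (.e (nat_lit 147491) (nat_lit 10) .nil)))) .nil)))) (.nd (nat_lit 4) (.nd (nat_lit 5) 
(.lf (nat_lit 124744) (.g (nat_lit 3061) (.e (nat_lit 7265) (nat_lit 384) (.e (nat_lit 57424) (nat_lit 14) (.e (nat_lit 352277) (nat_lit 11) (.e (nat_lit 426344) (nat_lit 14) (.e (nat_lit 491560) (nat_lit 10) (.e (nat_lit 344091) (nat_lit 18) .nil)))))) (.g (nat_lit 6) .nil .nil))) 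
(.lf (nat_lit 124776) (.g (nat_lit 2493) (.e (nat_lit 7265) (nat_lit 384) (.e (nat_lit 57424) (nat_lit 14) (.e (nat_lit 352323) (nat_lit 26) (.e (nat_lit 147495) (nat_lit 11) (.e (nat_lit 24640) (nat_lit 10) (.e (nat_lit 344096) (nat_lit 18) .nil)))))) (.g (nat_lit 5) .nil .nil)))) (.nd (nat_lit 5) 
(.lf (nat_lit 124760) (.g (nat_lit 2714) (.e (nat_lit 7265) (nat_lit 384) (.e (nat_lit 57424) (nat_lit 14) (.e (nat_lit 352322) (nat_lit 26) (.e (nat_lit 147495) (nat_lit 11) (.e (nat_lit 24639) (nat_lit 10) (.e (nat_lit 344091) (nat_lit 18) .nil)))))) (.g (nat_lit 5) .nil .nil))) 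
(.lf (nat_lit 124792) (.g (nat_lit 3621) (.e (nat_lit 7265) (nat_lit 384) (.e (nat_lit 57424) (nat_lit 14) (.e (nat_lit 352324) (nat_lit 26) (.e (nat_lit 147495) (nat_lit 11) (.e (nat_lit 24640) (nat_lit 10) (.e (nat_lit 344094) (nat_lit 18) .nil)))))) (.g (nat_lit 5) .nil .nil)))))) (.nd (nat_lit 3) (.nd (nat_lit 4) (.nd (nat_lit 5) 
(.lf (nat_lit 124740) (.g (nat_lit 3250) (.e (nat_lit 7265) (nat_lit 384) (.e (nat_lit 57424) (nat_lit 14) (.e (nat_lit 352277) (nat_lit 11) (.e (nat_lit 426343) (nat_lit 14) (.e (nat_lit 491560) (nat_lit 10) (.e (nat_lit 344091) (nat_lit 18) .nil)))))) (.g (nat_lit 6) .nil .nil))) 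
(.lf (nat_lit 124772) (.g (nat_lit 3535) (.e (nat_lit 7265) (nat_lit 384) (.e (nat_lit 57424) (nat_lit 14) (.e (nat_lit 352322) (nat_lit 26) (.e (nat_lit 147496) (nat_lit 11) (.e (nat_lit 24640) (nat_lit 10) (.e (nat_lit 344096) (nat_lit 18) .nil)))))) (.g (nat_lit 6) .nil .nil)))) (.nd (nat_lit 5) 
(.lf (nat_lit 124756) (.g (nat_lit 1926) (.e (nat_lit 7265) (nat_lit 384) (.e (nat_lit 57424) (nat_lit 14) (.e (nat_lit 352309) (nat_lit 21) (.e (nat_lit 57683) (nat_lit 155) (.e (nat_lit 122917) (nat_lit 15) .nil))))) .nil)) 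
(.lf (nat_lit 124788) (.g (nat_lit 2966) (.e (nat_lit 7265) (nat_lit 384) (.e (nat_lit 57424) (nat_lit 14) (.e (nat_lit 352324) (nat_lit 26) (.e (nat_lit 147495) (nat_lit 11) (.e (nat_lit 24639) (nat_lit 10) (.e (nat_lit 344091) (nat_lit 18) .nil)))))) (.g (nat_lit 5) .nil .nil))))) (.nd (nat_lit 4) (.nd (nat_lit 5) 
(.lf (nat_lit 124748) (.g (nat_lit 749) (.e (nat_lit 7265) (nat_lit 384) (.e (nat_lit 57424) (nat_lit 14) (.e (nat_lit 352284) (nat_lit 20) .nil))) .nil)) 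
(.lf (nat_lit 124780) (.g (nat_lit 2740) (.e (nat_lit 7265) (nat_lit 384) (.e (nat_lit 57424) (nat_lit 14) (.e (nat_lit 352323) (nat_lit 26) (.e (nat_lit 147496) (nat_lit 11) (.e (nat_lit 24640) (nat_lit 10) (.e (nat_lit 344094) (nat_lit 18) .nil)))))) (.g (nat_lit 5) .nil .nil)))) (.nd (nat_lit 5) 
(.lf (nat_lit 124764) (.g (nat_lit 3171) (.e (nat_lit 7265) (nat_lit 384) (.e (nat_lit 57424) (nat_lit 14) (.e (nat_lit 352322) (nat_lit 26) (.e (nat_lit 147495) (nat_lit 11) (.e (nat_lit 24640) (nat_lit 10) (.e (nat_lit 344094) (nat_lit 18) .nil)))))) (.g (nat_lit 5) .nil .nil))) 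
(.lf (nat_lit 124796) (.g (nat_lit 1221) (.e (nat_lit 7265) (nat_lit 384) (.e (nat_lit 57424) (nat_lit 14) (.e (nat_lit 352324) (nat_lit 26) (.e (nat_lit 147496) (nat_lit 11) .nil)))) .nil)))))) (.nd (nat_lit 2) (.nd (nat_lit 3) (.nd (nat_lit 4) (.nd (nat_lit 5) 
(.lf (nat_lit 124738) (.g (nat_lit 2793) (.e (nat_lit 7265) (nat_lit 384) (.e (nat_lit 57424) (nat_lit 14) (.e (nat_lit 352277) (nat_lit 11) (.e (nat_lit 426342) (nat_lit 14) (.e (nat_lit 491560) (nat_lit 10) (.e (nat_lit 344094) (nat_lit 18) .nil)))))) (.g (nat_lit 6) .nil .nil))) 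
(.lf (nat_lit 124770) (.g (nat_lit 2981) (.e (nat_lit 7265) (nat_lit 384) (.e (nat_lit 57424) (nat_lit 14) (.e (nat_lit 352322) (nat_lit 26) (.e (nat_lit 147496) (nat_lit 11) (.e (nat_lit 24640) (nat_lit 10) (.e (nat_lit 344091) (nat_lit 18) .nil)))))) (.g (nat_lit 5) .nil .nil)))) (.nd (nat_lit 5) 
(.lf (nat_lit 124754) (.g (nat_lit 2092) (.e (nat_lit 7265) (nat_lit 384) (.e (nat_lit 57424) (nat_lit 14) (.e (nat_lit 352307) (nat_lit 21) (.e (nat_lit 57684) (nat_lit 155) (.e (nat_lit 122919) (nat_lit 15) (.e (nat_lit 360451) (nat_lit 0) .nil)))))) (.g (nat_lit 4) .nil .nil))) 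
(.lf (nat_lit 124786) (.g (nat_lit 2576) (.e (nat_lit 7265) (nat_lit 384) (.e (nat_lit 57424) (nat_lit 14) (.e (nat_lit 352324) (nat_lit 26) (.e (nat_lit 147494) (nat_lit 11) (.e (nat_lit 24640) (nat_lit 10) (.e (nat_lit 344094) (nat_lit 18) .nil)))))) (.g (nat_lit 5) .nil .nil))))) (.nd (nat_lit 4) (.nd (nat_lit 5) 
(.lf (nat_lit 124746) (.g (nat_lit 749) (.e (nat_lit 7265) (nat_lit 384) (.e (nat_lit 57424) (nat_lit 14) (.e (nat_lit 352282) (nat_lit 20) .nil))) .nil)) 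
(.lf (nat_lit 124778) (.g (nat_lit 3294) (.e (nat_lit 7265) (nat_lit 384) (.e (nat_lit 57424) (nat_lit 14) (.e (nat_lit 352323) (nat_lit 26) (.e (nat_lit 147496) (nat_lit 11) (.e (nat_lit 24640) (nat_lit 10) (.e (nat_lit 344090) (nat_lit 18) .nil)))))) (.g (nat_lit 0) .nil .nil)))) (.nd (nat_lit 5) 
(.lf (nat_lit 124762) (.g (nat_lit 3420) (.e (nat_lit 7265) (nat_lit 384) (.e (nat_lit 57424) (nat_lit 14) (.e (nat_lit 352322) (nat_lit 26) (.e (nat_lit 147495) (nat_lit 11) (.e (nat_lit 24640) (nat_lit 10) (.e (nat_lit 344090) (nat_lit 18) .nil)))))) (.g (nat_lit 6) .nil .nil))) 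
(.lf (nat_lit 124794) (.g (nat_lit 2138) (.e (nat_lit 7265) (nat_lit 384) (.e (nat_lit 57424) (nat_lit 14) (.e (nat_lit 352324) (nat_lit 26) (.e (nat_lit 147495) (nat_lit 11) (.e (nat_lit 24641) (nat_lit 10) .nil))))) .nil))))) (.nd (nat_lit 3) (.nd (nat_lit 4) (.nd (nat_lit 5) 
(.lf (nat_lit 124742) (.g (nat_lit 3163) (.e (nat_lit 7265) (nat_lit 384) (.e (nat_lit 57424) (nat_lit 14) (.e (nat_lit 352277) (nat_lit 11) (.e (nat_lit 426343) (nat_lit 14) (.e (nat_lit 491560) (nat_lit 10) (.e (nat_lit 344096) (nat_lit 18) .nil)))))) (.g (nat_lit 6) .nil .nil))) 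
(.lf (nat_lit 124774) (.g (nat_lit 373) (.e (nat_lit 7265) (nat_lit 384) (.e (nat_lit 57424) (nat_lit 14) (.e (nat_lit 352323) (nat_lit 26) .nil))) .nil))) (.nd (nat_lit 5) 
(.lf (nat_lit 124758) (.g (nat_lit 1118) (.e (nat_lit 7265) (nat_lit 384) (.e (nat_lit 57424) (nat_lit 14) (.e (nat_lit 352318) (nat_lit 24) (.e (nat_lit 123050) (nat_lit 152) .nil)))) .nil)) 
(.lf (nat_lit 124790) (.g (nat_lit 3939) (.e (nat_lit 7265) (nat_lit 384) (.e (nat_lit 57424) (nat_lit 14) (.e (nat_lit 352324) (nat_lit 26) (.e (nat_lit 147495) (nat_lit 11) (.e (nat_lit 24640) (nat_lit 10) (.e (nat_lit 344090) (nat_lit 18) .nil)))))) (.g (nat_lit 6) .nil .nil))))) (.nd (nat_lit 4) (.nd (nat_lit 5) 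
(.lf (nat_lit 124750) (.g (nat_lit 749) (.e (nat_lit 7265) (nat_lit 384) (.e (nat_lit 57424) (nat_lit 14) (.e (nat_lit 352290) (nat_lit 20) .nil))) .nil)) 
(.lf (nat_lit 124782) (.g (nat_lit 1505) (.e (nat_lit 7265) (nat_lit 384) (.e (nat_lit 57424) (nat_lit 14) (.e (nat_lit 352324) (nat_lit 26) (.e (nat_lit 147476) (nat_lit 9) (.e (nat_lit 7936) (nat_lit 24) .nil))))) .nil))) (.nd (nat_lit 5) 
(.lf (nat_lit 124766) (.g (nat_lit 2644) (.e (nat_lit 7265) (nat_lit 384) (.e (nat_lit 57424) (nat_lit 14) (.e (nat_lit 352322) (nat_lit 26) (.e (nat_lit 147496) (nat_lit 11) (.e (nat_lit 24639) (nat_lit 10) (.e (nat_lit 344090) (nat_lit 18) .nil)))))) (.g (nat_lit 5) .nil .nil))) 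
(.lf (nat_lit 124798) (.g (nat_lit 2712) (.e (nat_lit 7265) (nat_lit 384) (.e (nat_lit 57424) (nat_lit 14) (.e (nat_lit 352324) (nat_lit 26) (.e (nat_lit 147496) (nat_lit 11) (.e (nat_lit 24639) (nat_lit 10) (.e (nat_lit 344091) (nat_lit 18) .nil)))))) (.g (nat_lit 5) .nil .nil)))))))) (.nd (nat_lit 1) (.nd (nat_lit 2) (.nd (nat_lit 3) (.nd (nat_lit 4) (.nd (nat_lit 5) 
(.lf (nat_lit 124737) (.g (nat_lit 2875) (.e (nat_lit 7265) (nat_lit 384) (.e (nat_lit 57424) (nat_lit 14) (.e (nat_lit 352277) (nat_lit 11) (.e (nat_lit 426342) (nat_lit 14) (.e (nat_lit 491560) (nat_lit 10) (.e (nat_lit 344091) (nat_lit 18) .nil)))))) (.g (nat_lit 6) .nil .nil))) 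
(.lf (nat_lit 124769) (.g (nat_lit 3417) (.e (nat_lit 7265) (nat_lit 384) (.e (nat_lit 57424) (nat_lit 14) (.e (nat_lit 352322) (nat_lit 26) (.e (nat_lit 147496) (nat_lit 11) (.e (nat_lit 24640) (nat_lit 10) (.e (nat_lit 344090) (nat_lit 18) .nil)))))) (.g (nat_lit 6) .nil .nil)))) (.nd (nat_lit 5) 
(.lf (nat_lit 124753) (.g (nat_lit 2198) (.e (nat_lit 7265) (nat_lit 384) (.e (nat_lit 57424) (nat_lit 14) (.e (nat_lit 352307) (nat_lit 21) (.e (nat_lit 57681) (nat_lit 155) (.e (nat_lit 122917) (nat_lit 15) .nil))))) .nil)) 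
(.lf (nat_lit 124785) (.g (nat_lit 2988) (.e (nat_lit 7265) (nat_lit 384) (.e (nat_lit 57424) (nat_lit 14) (.e (nat_lit 352324) (nat_lit 26) (.e (nat_lit 147494) (nat_lit 11) (.e (nat_lit 24640) (nat_lit 10) (.e (nat_lit 344090) (nat_lit 18) .nil)))))) (.g (nat_lit 6) .nil .nil))))) (.nd (nat_lit 4) (.nd (nat_lit 5) 
(.lf (nat_lit 124745) (.g (nat_lit 749) (.e (nat_lit 7265) (nat_lit 384) (.e (nat_lit 57424) (nat_lit 14) (.e (nat_lit 352278) (nat_lit 11) .nil))) .nil)) 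
(.lf (nat_lit 124777) (.g (nat_lit 1891) (.e (nat_lit 7265) (nat_lit 384) (.e (nat_lit 57424) (nat_lit 14) (.e (nat_lit 352323) (nat_lit 26) (.e (nat_lit 147496) (nat_lit 11) (.e (nat_lit 24639) (nat_lit 10) (.e (nat_lit 344091) (nat_lit 18) .nil)))))) (.g (nat_lit 4) .nil .nil)))) (.nd (nat_lit 5) 
(.lf (nat_lit 124761) (.g (nat_lit 3460) (.e (nat_lit 7265) (nat_lit 384) (.e (nat_lit 57424) (nat_lit 14) (.e (nat_lit 352322) (nat_lit 26) (.e (nat_lit 147495) (nat_lit 11) (.e (nat_lit 24639) (nat_lit 10) (.e (nat_lit 344096) (nat_lit 18) .nil)))))) (.g (nat_lit 6) .nil .nil))) 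
(.lf (nat_lit 124793) (.g (nat_lit 4080) (.e (nat_lit 7265) (nat_lit 384) (.e (nat_lit 57424) (nat_lit 14) (.e (nat_lit 352324) (nat_lit 26) (.e (nat_lit 147495) (nat_lit 11) (.e (nat_lit 24640) (nat_lit 10) (.e (nat_lit 344096) (nat_lit 18) .nil)))))) (.g (nat_lit 6) .nil .nil)))))) (.nd (nat_lit 3) (.nd (nat_lit 4) (.nd (nat_lit 5) 
(.lf (nat_lit 124741) (.g (nat_lit 3156) (.e (nat_lit 7265) (nat_lit 384) (.e (nat_lit 57424) (nat_lit 14) (.e (nat_lit 352277) (nat_lit 11) (.e (nat_lit 426343) (nat_lit 14) (.e (nat_lit 491560) (nat_lit 10) (.e (nat_lit 344094) (nat_lit 18) .nil)))))) (.g (nat_lit 5) .nil .nil))) 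
(.lf (nat_lit 124773) (.g (nat_lit 1960) (.e (nat_lit 7265) (nat_lit 384) (.e (nat_lit 57424) (nat_lit 14) (.e (nat_lit 352322) (nat_lit 26) (.e (nat_lit 147496) (nat_lit 11) (.e (nat_lit 24641) (nat_lit 10) (.e (nat_lit 344096) (nat_lit 18) .nil)))))) (.g (nat_lit 4) .nil .nil)))) (.nd (nat_lit 5) 
(.lf (nat_lit 124757) (.g (nat_lit 1804) (.e (nat_lit 7265) (nat_lit 384) (.e (nat_lit 57424) (nat_lit 14) (.e (nat_lit 352309) (nat_lit 21) (.e (nat_lit 57684) (nat_lit 155) (.e (nat_lit 122917) (nat_lit 15) .nil))))) .nil)) 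
(.lf (nat_lit 124789) (.g (nat_lit 3920) (.e (nat_lit 7265) (nat_lit 384) (.e (nat_lit 57424) (nat_lit 14) (.e (nat_lit 352324) (nat_lit 26) (.e (nat_lit 147495) (nat_lit 11) (.e (nat_lit 24639) (nat_lit 10) (.e (nat_lit 344096) (nat_lit 18) .nil)))))) (.g (nat_lit 0) .nil .nil))))) (.nd (nat_lit 4) (.nd (nat_lit 5) 
(.lf (nat_lit 124749) (.g (nat_lit 328) (.e (nat_lit 7265) (nat_lit 384) (.e (nat_lit 57424) (nat_lit 14) (.e (nat_lit 352285) (nat_lit 20) .nil))) .nil)) 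
(.lf (nat_lit 124781) (.g (nat_lit 365) (.e (nat_lit 7265) (nat_lit 384) (.e (nat_lit 57424) (nat_lit 14) (.e (nat_lit 352324) (nat_lit 26) .nil))) .nil))) (.nd (nat_lit 5) 
(.lf (nat_lit 124765) (.g (nat_lit 3777) (.e (nat_lit 7265) (nat_lit 384) (.e (nat_lit 57424) (nat_lit 14) (.e (nat_lit 352322) (nat_lit 26) (.e (nat_lit 147495) (nat_lit 11) (.e (nat_lit 24640) (nat_lit 10) (.e (nat_lit 344096) (nat_lit 18) .nil)))))) (.g (nat_lit 6) .nil .nil))) 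
(.lf (nat_lit 124797) (.g (nat_lit 3504) (.e (nat_lit 7265) (nat_lit 384) (.e (nat_lit 57424) (nat_lit 14) (.e (nat_lit 352324) (nat_lit 26) (.e (nat_lit 147496) (nat_lit 11) (.e (nat_lit 24639) (nat_lit 10) (.e (nat_lit 344090) (nat_lit 18) .nil)))))) (.g (nat_lit 6) .nil .nil))))))) (.nd (nat_lit 2) (.nd (nat_lit 3) (.nd (nat_lit 4) (.nd (nat_lit 5) 
(.lf (nat_lit 124739) (.g (nat_lit 2966) (.e (nat_lit 7265) (nat_lit 384) (.e (nat_lit 57424) (nat_lit 14) (.e (nat_lit 352277) (nat_lit 11) (.e (nat_lit 426343) (nat_lit 14) (.e (nat_lit 491558) (nat_lit 10) (.e (nat_lit 344090) (nat_lit 18) .nil)))))) (.g (nat_lit 6) .nil .nil))) 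
(.lf (nat_lit 124771) (.g (nat_lit 2869) (.e (nat_lit 7265) (nat_lit 384) (.e (nat_lit 57424) (nat_lit 14) (.e (nat_lit 352322) (nat_lit 26) (.e (nat_lit 147496) (nat_lit 11) (.e (nat_lit 24640) (nat_lit 10) (.e (nat_lit 344094) (nat_lit 18) .nil)))))) (.g (nat_lit 5) .nil .nil)))) (.nd (nat_lit 5) 
(.lf (nat_lit 124755) (.g (nat_lit 1013) (.e (nat_lit 7265) (nat_lit 384) (.e (nat_lit 57424) (nat_lit 14) (.e (nat_lit 352309) (nat_lit 21) (.e (nat_lit 57681) (nat_lit 155) .nil)))) .nil)) 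
(.lf (nat_lit 124787) (.g (nat_lit 3767) (.e (nat_lit 7265) (nat_lit 384) (.e (nat_lit 57424) (nat_lit 14) (.e (nat_lit 352324) (nat_lit 26) (.e (nat_lit 147495) (nat_lit 11) (.e (nat_lit 24639) (nat_lit 10) (.e (nat_lit 344090) (nat_lit 18) .nil)))))) (.g (nat_lit 0) .nil .nil))))) (.nd (nat_lit 4) (.nd (nat_lit 5) 
(.lf (nat_lit 124747) (.g (nat_lit 677) (.e (nat_lit 7265) (nat_lit 384) (.e (nat_lit 57424) (nat_lit 14) (.e (nat_lit 352283) (nat_lit 20) .nil))) .nil)) 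
(.lf (nat_lit 124779) (.g (nat_lit 2852) (.e (nat_lit 7265) (nat_lit 384) (.e (nat_lit 57424) (nat_lit 14) (.e (nat_lit 352323) (nat_lit 26) (.e (nat_lit 147496) (nat_lit 11) (.e (nat_lit 24640) (nat_lit 10) (.e (nat_lit 344091) (nat_lit 18) .nil)))))) (.g (nat_lit 5) .nil .nil)))) (.nd (nat_lit 5) 
(.lf (nat_lit 124763) (.g (nat_lit 3292) (.e (nat_lit 7265) (nat_lit 384) (.e (nat_lit 57424) (nat_lit 14) (.e (nat_lit 352322) (nat_lit 26) (.e (nat_lit 147495) (nat_lit 11) (.e (nat_lit 24640) (nat_lit 10) (.e (nat_lit 344091) (nat_lit 18) .nil)))))) (.g (nat_lit 5) .nil .nil))) 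
(.lf (nat_lit 124795) (.g (nat_lit 2447) (.e (nat_lit 7265) (nat_lit 384) (.e (nat_lit 57424) (nat_lit 14) (.e (nat_lit 352324) (nat_lit 26) (.e (nat_lit 147495) (nat_lit 11) (.e (nat_lit 24641) (nat_lit 10) (.e (nat_lit 344096) (nat_lit 18) .nil)))))) (.g (nat_lit 4) .nil .nil)))))) (.nd (nat_lit 3) (.nd (nat_lit 4) (.nd (nat_lit 5) 
(.lf (nat_lit 124743) (.g (nat_lit 2790) (.e (nat_lit 7265) (nat_lit 384) (.e (nat_lit 57424) (nat_lit 14) (.e (nat_lit 352277) (nat_lit 11) (.e (nat_lit 426344) (nat_lit 14) (.e (nat_lit 491558) (nat_lit 10) (.e (nat_lit 344090) (nat_lit 18) .nil)))))) (.g (nat_lit 6) .nil .nil))) 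
(.lf (nat_lit 124775) (.g (nat_lit 2256) (.e (nat_lit 7265) (nat_lit 384) (.e (nat_lit 57424) (nat_lit 14) (.e (nat_lit 352323) (nat_lit 26) (.e (nat_lit 147495) (nat_lit 11) (.e (nat_lit 24640) (nat_lit 10) (.e (nat_lit 344090) (nat_lit 18) .nil)))))) (.g (nat_lit 5) .nil .nil)))) (.nd (nat_lit 5) 
(.lf (nat_lit 124759) (.g (nat_lit 3324) (.e (nat_lit 7265) (nat_lit 384) (.e (nat_lit 57424) (nat_lit 14) (.e (nat_lit 352322) (nat_lit 26) (.e (nat_lit 147495) (nat_lit 11) (.e (nat_lit 24639) (nat_lit 10) (.e (nat_lit 344090) (nat_lit 18) .nil)))))) (.g (nat_lit 6) .nil .nil))) 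
(.lf (nat_lit 124791) (.g (nat_lit 3547) (.e (nat_lit 7265) (nat_lit 384) (.e (nat_lit 57424) (nat_lit 14) (.e (nat_lit 352324) (nat_lit 26) (.e (nat_lit 147495) (nat_lit 11) (.e (nat_lit 24640) (nat_lit 10) (.e (nat_lit 344091) (nat_lit 18) .nil)))))) (.g (nat_lit 5) .nil .nil))))) (.nd (nat_lit 4) (.nd (nat_lit 5) 
(.lf (nat_lit 124751) (.g (nat_lit 1824) (.e (nat_lit 7265) (nat_lit 384) (.e (nat_lit 57424) (nat_lit 14) (.e (nat_lit 352292) (nat_lit 20) (.e (nat_lit 2270) (nat_lit 149) (.e (nat_lit 761868) (nat_lit 5) .nil))))) .nil)) 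
(.lf (nat_lit 124783) (.g (nat_lit 1365) (.e (nat_lit 7265) (nat_lit 384) (.e (nat_lit 57424) (nat_lit 14) (.e (nat_lit 352324) (nat_lit 26) (.e (nat_lit 147483) (nat_lit 9) .nil)))) .nil))) (.nd (nat_lit 5) 
(.lf (nat_lit 124767) (.g (nat_lit 1983) (.e (nat_lit 7265) (nat_lit 384) (.e (nat_lit 57424) (nat_lit 14) (.e (nat_lit 352322) (nat_lit 26) (.e (nat_lit 147496) (nat_lit 11) (.e (nat_lit 24639) (nat_lit 10) (.e (nat_lit 344091) (nat_lit 18) .nil)))))) (.g (nat_lit 4) .nil .nil))) 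
(.lf (nat_lit 124799) (.g (nat_lit 3833) (.e (nat_lit 7265) (nat_lit 384) (.e (nat_lit 57424) (nat_lit 14) (.e (nat_lit 352324) (nat_lit 26) (.e (nat_lit 147496) (nat_lit 11) (.e (nat_lit 24640) (nat_lit 10) (.e (nat_lit 344090) (nat_lit 18) .nil)))))) (.g (nat_lit 0) .nil .nil)))))))))

noncomputable def tv1673 : DT := (.nd (nat_lit 0) (.nd (nat_lit 1) (.nd (nat_lit 2) (.nd (nat_lit 3) (.nd (nat_lit 4) (.nd (nat_lit 5) 
(.lf (nat_lit 124800) (.g (nat_lit 3353) (.e (nat_lit 7265) (nat_lit 384) (.e (nat_lit 57424) (nat_lit 14) (.e (nat_lit 352324) (nat_lit 26) (.e (nat_lit 147496) (nat_lit 11) (.e (nat_lit 24640) (nat_lit 10) (.e (nat_lit 344091) (nat_lit 18) .nil)))))) (.g (nat_lit 5) .nil .nil))) 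
(.lf (nat_lit 124832) (.g (nat_lit 3189) (.e (nat_lit 7265) (nat_lit 384) (.e (nat_lit 57427) (nat_lit 15) (.e (nat_lit 360449) (nat_lit 0) (.e (nat_lit 7265) (nat_lit 384) (.e (nat_lit 57427) (nat_lit 15) (.e (nat_lit 360451) (nat_lit 0) .nil)))))) (.g (nat_lit 6) .nil .nil)))) (.nd (nat_lit 5) 
(.lf (nat_lit 124816) (.g (nat_lit 2897) (.e (nat_lit 7265) (nat_lit 384) (.e (nat_lit 57426) (nat_lit 15) (.e (nat_lit 360451) (nat_lit 0) (.e (nat_lit 7266) (nat_lit 384) (.e (nat_lit 57427) (nat_lit 15) (.e (nat_lit 360449) (nat_lit 0) .nil)))))) (.g (nat_lit 5) .nil .nil))) 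
(.lf (nat_lit 124848) (.g (nat_lit 3539) (.e (nat_lit 7265) (nat_lit 384) (.e (nat_lit 57427) (nat_lit 15) (.e (nat_lit 360450) (nat_lit 0) (.e (nat_lit 7277) (nat_lit 385) (.e (nat_lit 122919) (nat_lit 15) (.e (nat_lit 360451) (nat_lit 0) .nil)))))) (.g (nat_lit 6) .nil .nil))))) (.nd (nat_lit 4) (.nd (nat_lit 5) 
(.lf (nat_lit 124808) (.g (nat_lit 2033) (.e (nat_lit 7265) (nat_lit 384) (.e (nat_lit 57426) (nat_lit 15) (.e (nat_lit 360450) (nat_lit 0) (.e (nat_lit 7125) (nat_lit 382) (.e (nat_lit 1201) (nat_lit 88) .nil))))) .nil)) 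
(.lf (nat_lit 124840) (.g (nat_lit 1802) (.e (nat_lit 7265) (nat_lit 384) (.e (nat_lit 57427) (nat_lit 15) (.e (nat_lit 360450) (nat_lit 0) (.e (nat_lit 7128) (nat_lit 382) .nil)))) .nil))) (.nd (nat_lit 5) 
(.lf (nat_lit 124824) (.g (nat_lit 2871) (.e (nat_lit 7265) (nat_lit 384) (.e (nat_lit 57426) (nat_lit 15) (.e (nat_lit 360491) (nat_lit 22) (.e (nat_lit 778465) (nat_lit 11) (.e (nat_lit 24640) (nat_lit 10) (.e (nat_lit 344094) (nat_lit 18) .nil)))))) (.g (nat_lit 6) .nil .nil))) 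
(.lf (nat_lit 124856) (.g (nat_lit 2090) (.e (nat_lit 7265) (nat_lit 384) (.e (nat_lit 57427) (nat_lit 15) (.e (nat_lit 360452) (nat_lit 0) (.e (nat_lit 7271) (nat_lit 385) (.e (nat_lit 122917) (nat_lit 15) (.e (nat_lit 360449) (nat_lit 0) .nil)))))) (.g (nat_lit 4) .nil .nil)))))) (.nd (nat_lit 3) (.nd (nat_lit 4) (.nd (nat_lit 5) 
(.lf (nat_lit 124804) (.g (nat_lit 3369) (.e (nat_lit 7265) (nat_lit 384) (.e (nat_lit 57424) (nat_lit 14) (.e (nat_lit 352324) (nat_lit 26) (.e (nat_lit 147496) (nat_lit 11) (.e (nat_lit 24641) (nat_lit 10) (.e (nat_lit 344096) (nat_lit 18) .nil)))))) (.g (nat_lit 6) .nil .nil))) 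
(.lf (nat_lit 124836) (.g (nat_lit 1687) (.e (nat_lit 7265) (nat_lit 384) (.e (nat_lit 57427) (nat_lit 15) (.e (nat_lit 360450) (nat_lit 0) (.e (nat_lit 7119) (nat_lit 382) .nil)))) .nil))) (.nd (nat_lit 5) 
(.lf (nat_lit 124820) (.g (nat_lit 2850) (.e (nat_lit 7265) (nat_lit 384) (.e (nat_lit 57426) (nat_lit 15) (.e (nat_lit 360489) (nat_lit 21) (.e (nat_lit 770072) (nat_lit 8) (.e (nat_lit 65617) (nat_lit 10) (.e (nat_lit 344091) (nat_lit 18) .nil)))))) (.g (nat_lit 0) .nil .nil))) 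
(.lf (nat_lit 124852) (.g (nat_lit 1739) (.e (nat_lit 7265) (nat_lit 384) (.e (nat_lit 57427) (nat_lit 15) (.e (nat_lit 360451) (nat_lit 0) (.e (nat_lit 7266) (nat_lit 384) (.e (nat_lit 57428) (nat_lit 15) .nil))))) .nil)))) (.nd (nat_lit 4) (.nd (nat_lit 5) 
(.lf (nat_lit 124812) (.g (nat_lit 2260) (.e (nat_lit 7265) (nat_lit 384) (.e (nat_lit 57426) (nat_lit 15) (.e (nat_lit 360451) (nat_lit 0) (.e (nat_lit 7122) (nat_lit 382) (.e (nat_lit 1201) (nat_lit 88) (.e (nat_lit 65617) (nat_lit 10) (.e (nat_lit 344096) (nat_lit 18) .nil))))))) (.g (nat_lit 4) .nil .nil))) 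
(.lf (nat_lit 124844) (.g (nat_lit 3405) (.e (nat_lit 7265) (nat_lit 384) (.e (nat_lit 57427) (nat_lit 15) (.e (nat_lit 360450) (nat_lit 0) (.e (nat_lit 7266) (nat_lit 384) (.e (nat_lit 57426) (nat_lit 15) (.e (nat_lit 360449) (nat_lit 0) .nil)))))) (.g (nat_lit 6) .nil .nil)))) (.nd (nat_lit 5) 
(.lf (nat_lit 124828) (.g (nat_lit 2518) (.e (nat_lit 7265) (nat_lit 384) (.e (nat_lit 57426) (nat_lit 15) (.e (nat_lit 360491) (nat_lit 22) (.e (nat_lit 778466) (nat_lit 11) (.e (nat_lit 24641) (nat_lit 10) (.e (nat_lit 344091) (nat_lit 18) .nil)))))) (.g (nat_lit 6) .nil .nil))) 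
(.lf (nat_lit 124860) (.g (nat_lit 2936) (.e (nat_lit 7265) (nat_lit 384) (.e (nat_lit 57427) (nat_lit 15) (.e (nat_lit 360457) (nat_lit 0) (.e (nat_lit 7267) (nat_lit 385) (.e (nat_lit 122919) (nat_lit 15) (.e (nat_lit 360451) (nat_lit 0) .nil)))))) (.g (nat_lit 6) .nil .nil))))))) (.nd (nat_lit 2) (.nd (nat_lit 3) (.nd (nat_lit 4) (.nd (nat_lit 5) 
(.lf (nat_lit 124802) (.g (nat_lit 4114) (.e (nat_lit 7265) (nat_lit 384) (.e (nat_lit 57424) (nat_lit 14) (.e (nat_lit 352324) (nat_lit 26) (.e (nat_lit 147496) (nat_lit 11) (.e (nat_lit 24640) (nat_lit 10) (.e (nat_lit 344096) (nat_lit 18) .nil)))))) (.g (nat_lit 6) .nil .nil))) 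
(.lf (nat_lit 124834) (.g (nat_lit 2684) (.e (nat_lit 7265) (nat_lit 384) (.e (nat_lit 57427) (nat_lit 15) (.e (nat_lit 360449) (nat_lit 0) (.e (nat_lit 7266) (nat_lit 384) (.e (nat_lit 57427) (nat_lit 15) (.e (nat_lit 360450) (nat_lit 0) .nil)))))) (.g (nat_lit 5) .nil .nil)))) (.nd (nat_lit 5) 
(.lf (nat_lit 124818) (.g (nat_lit 1780) (.e (nat_lit 7265) (nat_lit 384) (.e (nat_lit 57426) (nat_lit 15) (.e (nat_lit 360452) (nat_lit 0) (.e (nat_lit 7270) (nat_lit 385) (.e (nat_lit 122918) (nat_lit 15) (.e (nat_lit 360449) (nat_lit 0) .nil)))))) (.g (nat_lit 4) .nil .nil))) 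
(.lf (nat_lit 124850) (.g (nat_lit 4391) (.e (nat_lit 7265) (nat_lit 384) (.e (nat_lit 57427) (nat_lit 15) (.e (nat_lit 360451) (nat_lit 0) (.e (nat_lit 7122) (nat_lit 382) (.e (nat_lit 1201) (nat_lit 88) (.e (nat_lit 65617) (nat_lit 10) (.e (nat_lit 344091) (nat_lit 18) .nil))))))) (.g (nat_lit 0) .nil .nil))))) (.nd (nat_lit 4) (.nd (nat_lit 5) 
(.lf (nat_lit 124810) (.g (nat_lit 1437) (.e (nat_lit 7265) (nat_lit 384) (.e (nat_lit 57426) (nat_lit 15) (.e (nat_lit 360450) (nat_lit 0) (.e (nat_lit 7263) (nat_lit 384) (.e (nat_lit 57426) (nat_lit 15) .nil))))) .nil)) 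
(.lf (nat_lit 124842) (.g (nat_lit 3062) (.e (nat_lit 7265) (nat_lit 384) (.e (nat_lit 57427) (nat_lit 15) (.e (nat_lit 360450) (nat_lit 0) (.e (nat_lit 7265) (nat_lit 384) (.e (nat_lit 57427) (nat_lit 15) (.e (nat_lit 360450) (nat_lit 0) .nil)))))) (.g (nat_lit 5) .nil .nil)))) (.nd (nat_lit 5) 
(.lf (nat_lit 124826) (.g (nat_lit 3059) (.e (nat_lit 7265) (nat_lit 384) (.e (nat_lit 57426) (nat_lit 15) (.e (nat_lit 360491) (nat_lit 22) (.e (nat_lit 778466) (nat_lit 11) (.e (nat_lit 24640) (nat_lit 10) (.e (nat_lit 344094) (nat_lit 18) .nil)))))) (.g (nat_lit 0) .nil .nil))) 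
(.lf (nat_lit 124858) (.g (nat_lit 1969) (.e (nat_lit 7265) (nat_lit 384) (.e (nat_lit 57427) (nat_lit 15) (.e (nat_lit 360452) (nat_lit 0) (.e (nat_lit 7273) (nat_lit 385) (.e (nat_lit 122917) (nat_lit 15) (.e (nat_lit 360449) (nat_lit 0) .nil)))))) (.g (nat_lit 4) .nil .nil)))))) (.nd (nat_lit 3) (.nd (nat_lit 4) (.nd (nat_lit 5) 
(.lf (nat_lit 124806) (.g (nat_lit 3276) (.e (nat_lit 7265) (nat_lit 384) (.e (nat_lit 57426) (nat_lit 15) (.e (nat_lit 360449) (nat_lit 0) (.e (nat_lit 7265) (nat_lit 384) (.e (nat_lit 57427) (nat_lit 15) (.e (nat_lit 360450) (nat_lit 0) .nil)))))) (.g (nat_lit 6) .nil .nil))) 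
(.lf (nat_lit 124838) (.g (nat_lit 4159) (.e (nat_lit 7265) (nat_lit 384) (.e (nat_lit 57427) (nat_lit 15) (.e (nat_lit 360450) (nat_lit 0) (.e (nat_lit 7125) (nat_lit 382) (.e (nat_lit 1201) (nat_lit 88) (.e (nat_lit 65610) (nat_lit 10) (.e (nat_lit 344090) (nat_lit 18) .nil))))))) (.g (nat_lit 6) .nil .nil)))) (.nd (nat_lit 5) 
(.lf (nat_lit 124822) (.g (nat_lit 2284) (.e (nat_lit 7265) (nat_lit 384) (.e (nat_lit 57426) (nat_lit 15) (.e (nat_lit 360491) (nat_lit 22) (.e (nat_lit 778464) (nat_lit 11) (.e (nat_lit 24640) (nat_lit 10) (.e (nat_lit 344094) (nat_lit 18) .nil)))))) (.g (nat_lit 5) .nil .nil))) 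
(.lf (nat_lit 124854) (.g (nat_lit 1197) (.e (nat_lit 7265) (nat_lit 384) (.e (nat_lit 57427) (nat_lit 15) (.e (nat_lit 360451) (nat_lit 0) (.e (nat_lit 7936) (nat_lit 385) .nil)))) .nil)))) (.nd (nat_lit 4) (.nd (nat_lit 5) 
(.lf (nat_lit 124814) (.g (nat_lit 3096) (.e (nat_lit 7265) (nat_lit 384) (.e (nat_lit 57426) (nat_lit 15) (.e (nat_lit 360451) (nat_lit 0) (.e (nat_lit 7265) (nat_lit 384) (.e (nat_lit 57426) (nat_lit 15) (.e (nat_lit 360451) (nat_lit 0) .nil)))))) (.g (nat_lit 5) .nil .nil))) 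
(.lf (nat_lit 124846) (.g (nat_lit 3354) (.e (nat_lit 7265) (nat_lit 384) (.e (nat_lit 57427) (nat_lit 15) (.e (nat_lit 360450) (nat_lit 0) (.e (nat_lit 7266) (nat_lit 384) (.e (nat_lit 57427) (nat_lit 15) (.e (nat_lit 360450) (nat_lit 0) .nil)))))) (.g (nat_lit 5) .nil .nil)))) (.nd (nat_lit 5) 
(.lf (nat_lit 124830) (.g (nat_lit 1534) (.e (nat_lit 7265) (nat_lit 384) (.e (nat_lit 57426) (nat_lit 15) (.e (nat_lit 360492) (nat_lit 22) (.e (nat_lit 778466) (nat_lit 11) (.e (nat_lit 24641) (nat_lit 10) (.e (nat_lit 344096) (nat_lit 18) .nil)))))) (.g (nat_lit 4) .nil .nil))) 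
(.lf (nat_lit 124862) (.g (nat_lit 2510) (.e (nat_lit 7265) (nat_lit 384) (.e (nat_lit 57427) (nat_lit 15) (.e (nat_lit 360491) (nat_lit 22) (.e (nat_lit 778464) (nat_lit 11) (.e (nat_lit 24640) (nat_lit 10) (.e (nat_lit 344091) (nat_lit 18) .nil)))))) (.g (nat_lit 5) .nil .nil)))))))) (.nd (nat_lit 1) (.nd (nat_lit 2) (.nd (nat_lit 3) (.nd (nat_lit 4) (.nd (nat_lit 5) 
(.lf (nat_lit 124801) (.g (nat_lit 3501) (.e (nat_lit 7265) (nat_lit 384) (.e (nat_lit 57424) (nat_lit 14) (.e (nat_lit 352324) (nat_lit 26) (.e (nat_lit 147496) (nat_lit 11) (.e (nat_lit 24640) (nat_lit 10) (.e (nat_lit 344094) (nat_lit 18) .nil)))))) (.g (nat_lit 5) .nil .nil))) 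
(.lf (nat_lit 124833) (.g (nat_lit 2802) (.e (nat_lit 7265) (nat_lit 384) (.e (nat_lit 57427) (nat_lit 15) (.e (nat_lit 360449) (nat_lit 0) (.e (nat_lit 7266) (nat_lit 384) (.e (nat_lit 57426) (nat_lit 15) (.e (nat_lit 360449) (nat_lit 0) .nil)))))) (.g (nat_lit 6) .nil .nil)))) (.nd (nat_lit 5) 
(.lf (nat_lit 124817) (.g (nat_lit 3169) (.e (nat_lit 7265) (nat_lit 384) (.e (nat_lit 57426) (nat_lit 15) (.e (nat_lit 360451) (nat_lit 0) (.e (nat_lit 7266) (nat_lit 384) (.e (nat_lit 57427) (nat_lit 15) (.e (nat_lit 360450) (nat_lit 0) .nil)))))) (.g (nat_lit 6) .nil .nil))) 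
(.lf (nat_lit 124849) (.g (nat_lit 1920) (.e (nat_lit 7265) (nat_lit 384) (.e (nat_lit 57427) (nat_lit 15) (.e (nat_lit 360451) (nat_lit 0) (.e (nat_lit 7119) (nat_lit 382) (.e (nat_lit 1201) (nat_lit 88) .nil))))) .nil)))) (.nd (nat_lit 4) (.nd (nat_lit 5) 
(.lf (nat_lit 124809) (.g (nat_lit 1453) (.e (nat_lit 7265) (nat_lit 384) (.e (nat_lit 57426) (nat_lit 15) (.e (nat_lit 360450) (nat_lit 0) (.e (nat_lit 7261) (nat_lit 384) (.e (nat_lit 57426) (nat_lit 15) .nil))))) .nil)) 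
(.lf (nat_lit 124841) (.g (nat_lit 1831) (.e (nat_lit 7265) (nat_lit 384) (.e (nat_lit 57427) (nat_lit 15) (.e (nat_lit 360450) (nat_lit 0) (.e (nat_lit 7220) (nat_lit 382) .nil)))) .nil))) (.nd (nat_lit 5) 
(.lf (nat_lit 124825) (.g (nat_lit 2721) (.e (nat_lit 7265) (nat_lit 384) (.e (nat_lit 57426) (nat_lit 15) (.e (nat_lit 360491) (nat_lit 22) (.e (nat_lit 778466) (nat_lit 11) (.e (nat_lit 24640) (nat_lit 10) (.e (nat_lit 344088) (nat_lit 18) .nil)))))) (.g (nat_lit 6) .nil .nil))) 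
(.lf (nat_lit 124857) (.g (nat_lit 2554) (.e (nat_lit 7265) (nat_lit 384) (.e (nat_lit 57427) (nat_lit 15) (.e (nat_lit 360452) (nat_lit 0) (.e (nat_lit 7272) (nat_lit 385) (.e (nat_lit 122917) (nat_lit 15) (.e (nat_lit 360449) (nat_lit 0) .nil)))))) (.g (nat_lit 4) .nil .nil)))))) (.nd (nat_lit 3) (.nd (nat_lit 4) (.nd (nat_lit 5) 
(.lf (nat_lit 124805) (.g (nat_lit 128) (.e (nat_lit 7265) (nat_lit 384) (.e (nat_lit 57425) (nat_lit 14) (.e (nat_lit 360192) (nat_lit 15) .nil))) .nil)) 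
(.lf (nat_lit 124837) (.g (nat_lit 1896) (.e (nat_lit 7265) (nat_lit 384) (.e (nat_lit 57427) (nat_lit 15) (.e (nat_lit 360450) (nat_lit 0) (.e (nat_lit 7122) (nat_lit 382) (.e (nat_lit 1201) (nat_lit 88) .nil))))) .nil))) (.nd (nat_lit 5) 
(.lf (nat_lit 124821) (.g (nat_lit 2538) (.e (nat_lit 7265) (nat_lit 384) (.e (nat_lit 57426) (nat_lit 15) (.e (nat_lit 360491) (nat_lit 22) (.e (nat_lit 778464) (nat_lit 11) (.e (nat_lit 24640) (nat_lit 10) (.e (nat_lit 344090) (nat_lit 18) .nil)))))) (.g (nat_lit 6) .nil .nil))) 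
(.lf (nat_lit 124853) (.g (nat_lit 3138) (.e (nat_lit 7265) (nat_lit 384) (.e (nat_lit 57427) (nat_lit 15) (.e (nat_lit 360451) (nat_lit 0) (.e (nat_lit 7277) (nat_lit 385) (.e (nat_lit 122919) (nat_lit 15) (.e (nat_lit 360451) (nat_lit 0) .nil)))))) (.g (nat_lit 0) .nil .nil))))) (.nd (nat_lit 4) (.nd (nat_lit 5) 
(.lf (nat_lit 124813) (.g (nat_lit 933) (.e (nat_lit 7265) (nat_lit 384) (.e (nat_lit 57426) (nat_lit 15) (.e (nat_lit 360451) (nat_lit 0) (.e (nat_lit 7263) (nat_lit 384) .nil)))) .nil)) 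
(.lf (nat_lit 124845) (.g (nat_lit 3294) (.e (nat_lit 7265) (nat_lit 384) (.e (nat_lit 57427) (nat_lit 15) (.e (nat_lit 360450) (nat_lit 0) (.e (nat_lit 7266) (nat_lit 384) (.e (nat_lit 57426) (nat_lit 15) (.e (nat_lit 360451) (nat_lit 0) .nil)))))) (.g (nat_lit 5) .nil .nil)))) (.nd (nat_lit 5) 
(.lf (nat_lit 124829) (.g (nat_lit 1719) (.e (nat_lit 7265) (nat_lit 384) (.e (nat_lit 57426) (nat_lit 15) (.e (nat_lit 360492) (nat_lit 22) (.e (nat_lit 778465) (nat_lit 11) (.e (nat_lit 24640) (nat_lit 10) (.e (nat_lit 344090) (nat_lit 18) .nil)))))) (.g (nat_lit 4) .nil .nil))) 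
(.lf (nat_lit 124861) (.g (nat_lit 432) (.e (nat_lit 7265) (nat_lit 384) (.e (nat_lit 57427) (nat_lit 15) (.e (nat_lit 360489) (nat_lit 21) .nil))) .nil)))))) (.nd (nat_lit 2) (.nd (nat_lit 3) (.nd (nat_lit 4) (.nd (nat_lit 5) 
(.lf (nat_lit 124803) (.g (nat_lit 2781) (.e (nat_lit 7265) (nat_lit 384) (.e (nat_lit 57424) (nat_lit 14) (.e (nat_lit 352324) (nat_lit 26) (.e (nat_lit 147496) (nat_lit 11) (.e (nat_lit 24641) (nat_lit 10) (.e (nat_lit 344091) (nat_lit 18) .nil)))))) (.g (nat_lit 4) .nil .nil))) 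
(.lf (nat_lit 124835) (.g (nat_lit 3169) (.e (nat_lit 7265) (nat_lit 384) (.e (nat_lit 57427) (nat_lit 15) (.e (nat_lit 360449) (nat_lit 0) (.e (nat_lit 7266) (nat_lit 384) (.e (nat_lit 57427) (nat_lit 15) (.e (nat_lit 360451) (nat_lit 0) .nil)))))) (.g (nat_lit 6) .nil .nil)))) (.nd (nat_lit 5) 
(.lf (nat_lit 124819) (.g (nat_lit 1994) (.e (nat_lit 7265) (nat_lit 384) (.e (nat_lit 57426) (nat_lit 15) (.e (nat_lit 360452) (nat_lit 0) (.e (nat_lit 7272) (nat_lit 385) (.e (nat_lit 122918) (nat_lit 15) (.e (nat_lit 360449) (nat_lit 0) .nil)))))) (.g (nat_lit 4) .nil .nil))) 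
(.lf (nat_lit 124851) (.g (nat_lit 3248) (.e (nat_lit 7265) (nat_lit 384) (.e (nat_lit 57427) (nat_lit 15) (.e (nat_lit 360451) (nat_lit 0) (.e (nat_lit 7266) (nat_lit 384) (.e (nat_lit 57427) (nat_lit 15) (.e (nat_lit 360449) (nat_lit 0) .nil)))))) (.g (nat_lit 6) .nil .nil))))) (.nd (nat_lit 4) (.nd (nat_lit 5) 
(.lf (nat_lit 124811) (.g (nat_lit 2104) (.e (nat_lit 7265) (nat_lit 384) (.e (nat_lit 57426) (nat_lit 15) (.e (nat_lit 360451) (nat_lit 0) (.e (nat_lit 7122) (nat_lit 382) (.e (nat_lit 1201) (nat_lit 88) (.e (nat_lit 65610) (nat_lit 10) (.e (nat_lit 344090) (nat_lit 18) .nil))))))) (.g (nat_lit 4) .nil .nil))) 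
(.lf (nat_lit 124843) (.g (nat_lit 3484) (.e (nat_lit 7265) (nat_lit 384) (.e (nat_lit 57427) (nat_lit 15) (.e (nat_lit 360450) (nat_lit 0) (.e (nat_lit 7265) (nat_lit 384) (.e (nat_lit 57427) (nat_lit 15) (.e (nat_lit 360451) (nat_lit 0) .nil)))))) (.g (nat_lit 6) .nil .nil)))) (.nd (nat_lit 5) 
(.lf (nat_lit 124827) (.g (nat_lit 3180) (.e (nat_lit 7265) (nat_lit 384) (.e (nat_lit 57426) (nat_lit 15) (.e (nat_lit 360491) (nat_lit 22) (.e (nat_lit 778466) (nat_lit 11) (.e (nat_lit 24640) (nat_lit 10) (.e (nat_lit 344096) (nat_lit 18) .nil)))))) (.g (nat_lit 6) .nil .nil))) 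
(.lf (nat_lit 124859) (.g (nat_lit 1804) (.e (nat_lit 7265) (nat_lit 384) (.e (nat_lit 57427) (nat_lit 15) (.e (nat_lit 360454) (nat_lit 0) (.e (nat_lit 7273) (nat_lit 385) (.e (nat_lit 122917) (nat_lit 15) (.e (nat_lit 360449) (nat_lit 0) .nil)))))) (.g (nat_lit 4) .nil .nil)))))) (.nd (nat_lit 3) (.nd (nat_lit 4) (.nd (nat_lit 5) 
(.lf (nat_lit 124807) (.g (nat_lit 2356) (.e (nat_lit 7265) (nat_lit 384) (.e (nat_lit 57426) (nat_lit 15) (.e (nat_lit 360450) (nat_lit 0) (.e (nat_lit 7122) (nat_lit 382) (.e (nat_lit 1201) (nat_lit 88) (.e (nat_lit 65610) (nat_lit 10) (.e (nat_lit 344090) (nat_lit 18) .nil))))))) (.g (nat_lit 4) .nil .nil))) 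
(.lf (nat_lit 124839) (.g (nat_lit 4403) (.e (nat_lit 7265) (nat_lit 384) (.e (nat_lit 57427) (nat_lit 15) (.e (nat_lit 360450) (nat_lit 0) (.e (nat_lit 7125) (nat_lit 382) (.e (nat_lit 1201) (nat_lit 88) (.e (nat_lit 65617) (nat_lit 10) (.e (nat_lit 344091) (nat_lit 18) .nil))))))) (.g (nat_lit 6) .nil .nil)))) (.nd (nat_lit 5) 
(.lf (nat_lit 124823) (.g (nat_lit 2364) (.e (nat_lit 7265) (nat_lit 384) (.e (nat_lit 57426) (nat_lit 15) (.e (nat_lit 360491) (nat_lit 22) (.e (nat_lit 778465) (nat_lit 11) (.e (nat_lit 24640) (nat_lit 10) (.e (nat_lit 344091) (nat_lit 18) .nil)))))) (.g (nat_lit 5) .nil .nil))) 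
(.lf (nat_lit 124855) (.g (nat_lit 2999) (.e (nat_lit 7265) (nat_lit 384) (.e (nat_lit 57427) (nat_lit 15) (.e (nat_lit 360452) (nat_lit 0) (.e (nat_lit 7270) (nat_lit 385) (.e (nat_lit 122917) (nat_lit 15) (.e (nat_lit 360449) (nat_lit 0) .nil)))))) (.g (nat_lit 4) .nil .nil))))) (.nd (nat_lit 4) (.nd (nat_lit 5) 
(.lf (nat_lit 124815) (.g (nat_lit 2738) (.e (nat_lit 7265) (nat_lit 384) (.e (nat_lit 57426) (nat_lit 15) (.e (nat_lit 360451) (nat_lit 0) (.e (nat_lit 7265) (nat_lit 384) (.e (nat_lit 57427) (nat_lit 15) (.e (nat_lit 360449) (nat_lit 0) .nil)))))) (.g (nat_lit 5) .nil .nil))) 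
(.lf (nat_lit 124847) (.g (nat_lit 3804) (.e (nat_lit 7265) (nat_lit 384) (.e (nat_lit 57427) (nat_lit 15) (.e (nat_lit 360450) (nat_lit 0) (.e (nat_lit 7266) (nat_lit 384) (.e (nat_lit 57427) (nat_lit 15) (.e (nat_lit 360451) (nat_lit 0) .nil)))))) (.g (nat_lit 6) .nil .nil)))) (.nd (nat_lit 5) 
(.lf (nat_lit 124831) (.g (nat_lit 3384) (.e (nat_lit 7265) (nat_lit 384) (.e (nat_lit 57427) (nat_lit 15) (.e (nat_lit 360449) (nat_lit 0) (.e (nat_lit 7125) (nat_lit 382) (.e (nat_lit 1201) (nat_lit 88) (.e (nat_lit 65610) (nat_lit 10) (.e (nat_lit 344090) (nat_lit 18) .nil))))))) (.g (nat_lit 6) .nil .nil))) 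
(.lf (nat_lit 124863) (.g (nat_lit 2398) (.e (nat_lit 7265) (nat_lit 384) (.e (nat_lit 57427) (nat_lit 15) (.e (nat_lit 360491) (nat_lit 22) (.e (nat_lit 778464) (nat_lit 11) (.e (nat_lit 24640) (nat_lit 10) (.e (nat_lit 344094) (nat_lit 18) .nil)))))) (.g (nat_lit 5) .nil .nil)))))))))


end

end Pool.Agent.Lib.MP_5854e1_co.Cz
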