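import Pool.Agent.Lib.MP_5854e1_co.DtD

/-!
# Windows and cells of the rings
-/

set_option autoImplicit false
set_option maxRecDepth 100000
set_option deprecated.oldSectionVars true

namespace Pool.Agent.Lib.MP_5854e1_co.Cz

open Pool.Agent.Lib.MP_5854e1_co

noncomputable section

noncomputable def tv1674 : DT := (.nd (nat_lit 0) (.nd (nat_lit 1) (.nd (nat_lit 2) (.nd (nat_lit 3) (.nd (nat_lit 4) (.nd (nat_lit 5) 
(.lf (nat_lit 124864) (.g (nat_lit 2992) (.e (nat_lit 7265) (nat_lit 384) (.e (nat_lit 57427) (nat_lit 15) (.e (nat_lit 360491) (nat_lit 22) (.e (nat_lit 778465) (nat_lit 11) (.e (nat_lit 24640) (nat_lit 10) (.e (nat_lit 344090) (nat_lit 18) .nil)))))) (.g (nat_lit 0) .nil .nil))) 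
(.lf (nat_lit 124896) (.g (nat_lit 3742) (.e (nat_lit 7265) (nat_lit 384) (.e (nat_lit 57435) (nat_lit 17) (.e (nat_lit 376842) (nat_lit 11) (.e (nat_lit 426011) (nat_lit 0) (.e (nat_lit 7593) (nat_lit 407) (.e (nat_lit 73729) (nat_lit 0) .nil)))))) (.g (nat_lit 0) .nil .nil)))) (.nd (nat_lit 5) 
(.lf (nat_lit 124880) (.g (nat_lit 1965) (.e (nat_lit 7265) (nat_lit 384) (.e (nat_lit 57428) (nat_lit 15) (.e (nat_lit 360489) (nat_lit 21) (.e (nat_lit 770071) (nat_lit 8) (.e (nat_lit 65610) (nat_lit 10) (.e (nat_lit 344090) (nat_lit 18) .nil)))))) (.g (nat_lit 5) .nil .nil))) 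
(.lf (nat_lit 124912) (.g (nat_lit 3258) (.e (nat_lit 7265) (nat_lit 384) (.e (nat_lit 57435) (nat_lit 17) (.e (nat_lit 376842) (nat_lit 11) (.e (nat_lit 426343) (nat_lit 14) (.e (nat_lit 491560) (nat_lit 10) (.e (nat_lit 344094) (nat_lit 18) .nil)))))) (.g (nat_lit 6) .nil .nil))))) (.nd (nat_lit 4) (.nd (nat_lit 5) 
(.lf (nat_lit 124872) (.g (nat_lit 1979) (.e (nat_lit 7265) (nat_lit 384) (.e (nat_lit 57427) (nat_lit 15) (.e (nat_lit 360492) (nat_lit 22) (.e (nat_lit 778465) (nat_lit 11) (.e (nat_lit 24639) (nat_lit 10) (.e (nat_lit 344090) (nat_lit 18) .nil)))))) (.g (nat_lit 4) .nil .nil))) 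
(.lf (nat_lit 124904) (.g (nat_lit 3117) (.e (nat_lit 7265) (nat_lit 384) (.e (nat_lit 57435) (nat_lit 17) (.e (nat_lit 376842) (nat_lit 11) (.e (nat_lit 426342) (nat_lit 14) (.e (nat_lit 491558) (nat_lit 10) (.e (nat_lit 344091) (nat_lit 18) .nil)))))) (.g (nat_lit 6) .nil .nil)))) (.nd (nat_lit 5) 
(.lf (nat_lit 124888) (.g (nat_lit 3125) (.e (nat_lit 7265) (nat_lit 384) (.e (nat_lit 57431) (nat_lit 16) (.e (nat_lit 368676) (nat_lit 21) (.e (nat_lit 516176) (nat_lit 14) (.e (nat_lit 466967) (nat_lit 20) (.e (nat_lit 3304) (nat_lit 202) (.e (nat_lit 573477) (nat_lit 12) (.e (nat_lit 57351) (nat_lit 0) .nil)))))))) (.g (nat_lit 7) .nil .nil))) 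
(.lf (nat_lit 124920) (.g (nat_lit 383) (.e (nat_lit 7265) (nat_lit 384) (.e (nat_lit 57436) (nat_lit 17) (.e (nat_lit 384768) (nat_lit 9) .nil))) .nil))))) (.nd (nat_lit 3) (.nd (nat_lit 4) (.nd (nat_lit 5) 
(.lf (nat_lit 124868) (.g (nat_lit 3161) (.e (nat_lit 7265) (nat_lit 384) (.e (nat_lit 57427) (nat_lit 15) (.e (nat_lit 360491) (nat_lit 22) (.e (nat_lit 778466) (nat_lit 11) (.e (nat_lit 24640) (nat_lit 10) (.e (nat_lit 344094) (nat_lit 18) .nil)))))) (.g (nat_lit 6) .nil .nil))) 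
(.lf (nat_lit 124900) (.g (nat_lit 1958) (.e (nat_lit 7265) (nat_lit 384) (.e (nat_lit 57435) (nat_lit 17) (.e (nat_lit 376842) (nat_lit 11) (.e (nat_lit 426341) (nat_lit 14) (.e (nat_lit 491558) (nat_lit 10) .nil))))) .nil))) (.nd (nat_lit 5) 
(.lf (nat_lit 124884) (.g (nat_lit 3599) (.e (nat_lit 7265) (nat_lit 384) (.e (nat_lit 57430) (nat_lit 16) (.e (nat_lit 368676) (nat_lit 21) (.e (nat_lit 516176) (nat_lit 14) (.e (nat_lit 466967) (nat_lit 20) (.e (nat_lit 3304) (nat_lit 202) (.e (nat_lit 573477) (nat_lit 12) (.e (nat_lit 57353) (nat_lit 0) .nil)))))))) (.g (nat_lit 7) .nil .nil))) 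
(.lf (nat_lit 124916) (.g (nat_lit 3563) (.e (nat_lit 7265) (nat_lit 384) (.e (nat_lit 57435) (nat_lit 17) (.e (nat_lit 376842) (nat_lit 11) (.e (nat_lit 426344) (nat_lit 14) (.e (nat_lit 491560) (nat_lit 10) (.e (nat_lit 344090) (nat_lit 18) .nil)))))) (.g (nat_lit 6) .nil .nil))))) (.nd (nat_lit 4) (.nd (nat_lit 5) 
(.lf (nat_lit 124876) (.g (nat_lit 1943) (.e (nat_lit 7265) (nat_lit 384) (.e (nat_lit 57427) (nat_lit 15) (.e (nat_lit 360492) (nat_lit 22) (.e (nat_lit 778466) (nat_lit 11) (.e (nat_lit 24640) (nat_lit 10) (.e (nat_lit 344088) (nat_lit 18) .nil)))))) (.g (nat_lit 5) .nil .nil))) 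
(.lf (nat_lit 124908) (.g (nat_lit 3588) (.e (nat_lit 7265) (nat_lit 384) (.e (nat_lit 57435) (nat_lit 17) (.e (nat_lit 376842) (nat_lit 11) (.e (nat_lit 426343) (nat_lit 14) (.e (nat_lit 491558) (nat_lit 10) (.e (nat_lit 344091) (nat_lit 18) .nil)))))) (.g (nat_lit 0) .nil .nil)))) (.nd (nat_lit 5) 
(.lf (nat_lit 124892) (.g (nat_lit 2367) (.e (nat_lit 7265) (nat_lit 384) (.e (nat_lit 57435) (nat_lit 17) (.e (nat_lit 376842) (nat_lit 11) (.e (nat_lit 426010) (nat_lit 0) (.e (nat_lit 7591) (nat_lit 407) (.e (nat_lit 73731) (nat_lit 0) .nil)))))) (.g (nat_lit 5) .nil .nil))) 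
(.lf (nat_lit 124924) (.g (nat_lit 538) (.e (nat_lit 7265) (nat_lit 384) (.e (nat_lit 57436) (nat_lit 17) (.e (nat_lit 376841) (nat_lit 11) .nil))) .nil)))))) (.nd (nat_lit 2) (.nd (nat_lit 3) (.nd (nat_lit 4) (.nd (nat_lit 5) 
(.lf (nat_lit 124866) (.g (nat_lit 2780) (.e (nat_lit 7265) (nat_lit 384) (.e (nat_lit 57427) (nat_lit 15) (.e (nat_lit 360491) (nat_lit 22) (.e (nat_lit 778466) (nat_lit 11) (.e (nat_lit 24640) (nat_lit 10) (.e (nat_lit 344088) (nat_lit 18) .nil)))))) (.g (nat_lit 6) .nil .nil))) 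
(.lf (nat_lit 124898) (.g (nat_lit 3295) (.e (nat_lit 7265) (nat_lit 384) (.e (nat_lit 57435) (nat_lit 17) (.e (nat_lit 376842) (nat_lit 11) (.e (nat_lit 426012) (nat_lit 0) (.e (nat_lit 7593) (nat_lit 407) (.e (nat_lit 73729) (nat_lit 0) .nil)))))) (.g (nat_lit 6) .nil .nil)))) (.nd (nat_lit 5) 
(.lf (nat_lit 124882) (.g (nat_lit 346) (.e (nat_lit 7265) (nat_lit 384) (.e (nat_lit 57428) (nat_lit 15) (.e (nat_lit 360492) (nat_lit 22) .nil))) .nil)) 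
(.lf (nat_lit 124914) (.g (nat_lit 3529) (.e (nat_lit 7265) (nat_lit 384) (.e (nat_lit 57435) (nat_lit 17) (.e (nat_lit 376842) (nat_lit 11) (.e (nat_lit 426344) (nat_lit 14) (.e (nat_lit 491558) (nat_lit 10) (.e (nat_lit 344091) (nat_lit 18) .nil)))))) (.g (nat_lit 6) .nil .nil))))) (.nd (nat_lit 4) (.nd (nat_lit 5) 
(.lf (nat_lit 124874) (.g (nat_lit 2662) (.e (nat_lit 7265) (nat_lit 384) (.e (nat_lit 57427) (nat_lit 15) (.e (nat_lit 360492) (nat_lit 22) (.e (nat_lit 778465) (nat_lit 11) (.e (nat_lit 24640) (nat_lit 10) (.e (nat_lit 344094) (nat_lit 18) .nil)))))) (.g (nat_lit 5) .nil .nil))) 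
(.lf (nat_lit 124906) (.g (nat_lit 3052) (.e (nat_lit 7265) (nat_lit 384) (.e (nat_lit 57435) (nat_lit 17) (.e (nat_lit 376842) (nat_lit 11) (.e (nat_lit 426342) (nat_lit 14) (.e (nat_lit 491560) (nat_lit 10) (.e (nat_lit 344091) (nat_lit 18) .nil)))))) (.g (nat_lit 6) .nil .nil)))) (.nd (nat_lit 5) 
(.lf (nat_lit 124890) (.g (nat_lit 1663) (.e (nat_lit 7265) (nat_lit 384) (.e (nat_lit 57435) (nat_lit 17) (.e (nat_lit 376842) (nat_lit 11) (.e (nat_lit 426003) (nat_lit 0) .nil)))) .nil)) 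
(.lf (nat_lit 124922) (.g (nat_lit 1553) (.e (nat_lit 7265) (nat_lit 384) (.e (nat_lit 57436) (nat_lit 17) (.e (nat_lit 384768) (nat_lit 10) (.e (nat_lit 417796) (nat_lit 0) (.e (nat_lit 5409) (nat_lit 303) (.e (nat_lit 73729) (nat_lit 0) .nil)))))) (.g (nat_lit 5) .nil .nil)))))) (.nd (nat_lit 3) (.nd (nat_lit 4) (.nd (nat_lit 5) 
(.lf (nat_lit 124870) (.g (nat_lit 2655) (.e (nat_lit 7265) (nat_lit 384) (.e (nat_lit 57427) (nat_lit 15) (.e (nat_lit 360491) (nat_lit 22) (.e (nat_lit 778466) (nat_lit 11) (.e (nat_lit 24641) (nat_lit 10) (.e (nat_lit 344091) (nat_lit 18) .nil)))))) (.g (nat_lit 6) .nil .nil))) 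
(.lf (nat_lit 124902) (.g (nat_lit 2693) (.e (nat_lit 7265) (nat_lit 384) (.e (nat_lit 57435) (nat_lit 17) (.e (nat_lit 376842) (nat_lit 11) (.e (nat_lit 426341) (nat_lit 14) (.e (nat_lit 491560) (nat_lit 10) (.e (nat_lit 344096) (nat_lit 18) .nil)))))) (.g (nat_lit 5) .nil .nil)))) (.nd (nat_lit 5) 
(.lf (nat_lit 124886) (.g (nat_lit 3705) (.e (nat_lit 7265) (nat_lit 384) (.e (nat_lit 57430) (nat_lit 16) (.e (nat_lit 368676) (nat_lit 21) (.e (nat_lit 516176) (nat_lit 14) (.e (nat_lit 466967) (nat_lit 20) (.e (nat_lit 3305) (nat_lit 202) (.e (nat_lit 573477) (nat_lit 12) (.e (nat_lit 57351) (nat_lit 0) .nil)))))))) (.g (nat_lit 7) .nil .nil))) 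
(.lf (nat_lit 124918) (.g (nat_lit 3378) (.e (nat_lit 7265) (nat_lit 384) (.e (nat_lit 57435) (nat_lit 17) (.e (nat_lit 376842) (nat_lit 11) (.e (nat_lit 426344) (nat_lit 14) (.e (nat_lit 491560) (nat_lit 10) (.e (nat_lit 344094) (nat_lit 18) .nil)))))) (.g (nat_lit 6) .nil .nil))))) (.nd (nat_lit 4) (.nd (nat_lit 5) 
(.lf (nat_lit 124878) (.g (nat_lit 2894) (.e (nat_lit 7265) (nat_lit 384) (.e (nat_lit 57427) (nat_lit 15) (.e (nat_lit 360492) (nat_lit 22) (.e (nat_lit 778466) (nat_lit 11) (.e (nat_lit 24640) (nat_lit 10) (.e (nat_lit 344094) (nat_lit 18) .nil)))))) (.g (nat_lit 5) .nil .nil))) 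
(.lf (nat_lit 124910) (.g (nat_lit 3539) (.e (nat_lit 7265) (nat_lit 384) (.e (nat_lit 57435) (nat_lit 17) (.e (nat_lit 376842) (nat_lit 11) (.e (nat_lit 426343) (nat_lit 14) (.e (nat_lit 491560) (nat_lit 10) (.e (nat_lit 344090) (nat_lit 18) .nil)))))) (.g (nat_lit 0) .nil .nil)))) (.nd (nat_lit 5) 
(.lf (nat_lit 124894) (.g (nat_lit 3464) (.e (nat_lit 7265) (nat_lit 384) (.e (nat_lit 57435) (nat_lit 17) (.e (nat_lit 376842) (nat_lit 11) (.e (nat_lit 426011) (nat_lit 0) (.e (nat_lit 7591) (nat_lit 407) (.e (nat_lit 73729) (nat_lit 0) .nil)))))) (.g (nat_lit 6) .nil .nil))) 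
(.lf (nat_lit 124926) (.g (nat_lit 2141) (.e (nat_lit 7265) (nat_lit 384) (.e (nat_lit 57436) (nat_lit 17) (.e (nat_lit 376842) (nat_lit 11) (.e (nat_lit 426009) (nat_lit 0) (.e (nat_lit 7591) (nat_lit 407) (.e (nat_lit 73731) (nat_lit 0) .nil)))))) (.g (nat_lit 5) .nil .nil)))))))) (.nd (nat_lit 1) (.nd (nat_lit 2) (.nd (nat_lit 3) (.nd (nat_lit 4) (.nd (nat_lit 5) 
(.lf (nat_lit 124865) (.g (nat_lit 2493) (.e (nat_lit 7265) (nat_lit 384) (.e (nat_lit 57427) (nat_lit 15) (.e (nat_lit 360491) (nat_lit 22) (.e (nat_lit 778465) (nat_lit 11) (.e (nat_lit 24640) (nat_lit 10) (.e (nat_lit 344091) (nat_lit 18) .nil)))))) (.g (nat_lit 5) .nil .nil))) 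
(.lf (nat_lit 124897) (.g (nat_lit 2343) (.e (nat_lit 7265) (nat_lit 384) (.e (nat_lit 57435) (nat_lit 17) (.e (nat_lit 376842) (nat_lit 11) (.e (nat_lit 426012) (nat_lit 0) (.e (nat_lit 7591) (nat_lit 407) (.e (nat_lit 73731) (nat_lit 0) .nil)))))) (.g (nat_lit 4) .nil .nil)))) (.nd (nat_lit 5) 
(.lf (nat_lit 124881) (.g (nat_lit 2026) (.e (nat_lit 7265) (nat_lit 384) (.e (nat_lit 57428) (nat_lit 15) (.e (nat_lit 360489) (nat_lit 21) (.e (nat_lit 770072) (nat_lit 8) (.e (nat_lit 65610) (nat_lit 10) (.e (nat_lit 344090) (nat_lit 18) .nil)))))) (.g (nat_lit 5) .nil .nil))) 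
(.lf (nat_lit 124913) (.g (nat_lit 2890) (.e (nat_lit 7265) (nat_lit 384) (.e (nat_lit 57435) (nat_lit 17) (.e (nat_lit 376842) (nat_lit 11) (.e (nat_lit 426344) (nat_lit 14) (.e (nat_lit 491558) (nat_lit 10) (.e (nat_lit 344090) (nat_lit 18) .nil)))))) (.g (nat_lit 5) .nil .nil))))) (.nd (nat_lit 4) (.nd (nat_lit 5) 
(.lf (nat_lit 124873) (.g (nat_lit 2496) (.e (nat_lit 7265) (nat_lit 384) (.e (nat_lit 57427) (nat_lit 15) (.e (nat_lit 360492) (nat_lit 22) (.e (nat_lit 778465) (nat_lit 11) (.e (nat_lit 24640) (nat_lit 10) (.e (nat_lit 344090) (nat_lit 18) .nil)))))) (.g (nat_lit 5) .nil .nil))) 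
(.lf (nat_lit 124905) (.g (nat_lit 3314) (.e (nat_lit 7265) (nat_lit 384) (.e (nat_lit 57435) (nat_lit 17) (.e (nat_lit 376842) (nat_lit 11) (.e (nat_lit 426342) (nat_lit 14) (.e (nat_lit 491560) (nat_lit 10) (.e (nat_lit 344090) (nat_lit 18) .nil)))))) (.g (nat_lit 6) .nil .nil)))) (.nd (nat_lit 5) 
(.lf (nat_lit 124889) (.g (nat_lit 1933) (.e (nat_lit 7265) (nat_lit 384) (.e (nat_lit 57431) (nat_lit 16) (.e (nat_lit 368676) (nat_lit 21) (.e (nat_lit 516176) (nat_lit 14) (.e (nat_lit 466967) (nat_lit 20) (.e (nat_lit 3305) (nat_lit 202) (.e (nat_lit 573477) (nat_lit 12) (.e (nat_lit 57352) (nat_lit 0) .nil)))))))) (.g (nat_lit 4) .nil .nil))) 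
(.lf (nat_lit 124921) (.g (nat_lit 1186) (.e (nat_lit 7265) (nat_lit 384) (.e (nat_lit 57436) (nat_lit 17) (.e (nat_lit 384768) (nat_lit 10) (.e (nat_lit 417795) (nat_lit 0) (.e (nat_lit 5409) (nat_lit 303) (.e (nat_lit 73729) (nat_lit 0) .nil)))))) (.g (nat_lit 5) .nil .nil)))))) (.nd (nat_lit 3) (.nd (nat_lit 4) (.nd (nat_lit 5) 
(.lf (nat_lit 124869) (.g (nat_lit 3251) (.e (nat_lit 7265) (nat_lit 384) (.e (nat_lit 57427) (nat_lit 15) (.e (nat_lit 360491) (nat_lit 22) (.e (nat_lit 778466) (nat_lit 11) (.e (nat_lit 24640) (nat_lit 10) (.e (nat_lit 344096) (nat_lit 18) .nil)))))) (.g (nat_lit 6) .nil .nil))) 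
(.lf (nat_lit 124901) (.g (nat_lit 3292) (.e (nat_lit 7265) (nat_lit 384) (.e (nat_lit 57435) (nat_lit 17) (.e (nat_lit 376842) (nat_lit 11) (.e (nat_lit 426341) (nat_lit 14) (.e (nat_lit 491560) (nat_lit 10) (.e (nat_lit 344094) (nat_lit 18) .nil)))))) (.g (nat_lit 6) .nil .nil)))) (.nd (nat_lit 5) 
(.lf (nat_lit 124885) (.g (nat_lit 2088) (.e (nat_lit 7265) (nat_lit 384) (.e (nat_lit 57430) (nat_lit 16) (.e (nat_lit 368676) (nat_lit 21) (.e (nat_lit 516176) (nat_lit 14) (.e (nat_lit 466967) (nat_lit 20) (.e (nat_lit 3304) (nat_lit 202) (.e (nat_lit 573478) (nat_lit 12) (.e (nat_lit 57353) (nat_lit 0) .nil)))))))) (.g (nat_lit 4) .nil .nil))) 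
(.lf (nat_lit 124917) (.g (nat_lit 3217) (.e (nat_lit 7265) (nat_lit 384) (.e (nat_lit 57435) (nat_lit 17) (.e (nat_lit 376842) (nat_lit 11) (.e (nat_lit 426344) (nat_lit 14) (.e (nat_lit 491560) (nat_lit 10) (.e (nat_lit 344091) (nat_lit 18) .nil)))))) (.g (nat_lit 5) .nil .nil))))) (.nd (nat_lit 4) (.nd (nat_lit 5) 
(.lf (nat_lit 124877) (.g (nat_lit 2888) (.e (nat_lit 7265) (nat_lit 384) (.e (nat_lit 57427) (nat_lit 15) (.e (nat_lit 360492) (nat_lit 22) (.e (nat_lit 778466) (nat_lit 11) (.e (nat_lit 24640) (nat_lit 10) (.e (nat_lit 344091) (nat_lit 18) .nil)))))) (.g (nat_lit 5) .nil .nil))) 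
(.lf (nat_lit 124909) (.g (nat_lit 3648) (.e (nat_lit 7265) (nat_lit 384) (.e (nat_lit 57435) (nat_lit 17) (.e (nat_lit 376842) (nat_lit 11) (.e (nat_lit 426343) (nat_lit 14) (.e (nat_lit 491558) (nat_lit 10) (.e (nat_lit 344096) (nat_lit 18) .nil)))))) (.g (nat_lit 0) .nil .nil)))) (.nd (nat_lit 5) 
(.lf (nat_lit 124893) (.g (nat_lit 2139) (.e (nat_lit 7265) (nat_lit 384) (.e (nat_lit 57435) (nat_lit 17) (.e (nat_lit 376842) (nat_lit 11) (.e (nat_lit 426010) (nat_lit 0) (.e (nat_lit 7593) (nat_lit 407) (.e (nat_lit 73731) (nat_lit 0) .nil)))))) (.g (nat_lit 4) .nil .nil))) 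
(.lf (nat_lit 124925) (.g (nat_lit 1591) (.e (nat_lit 7265) (nat_lit 384) (.e (nat_lit 57436) (nat_lit 17) (.e (nat_lit 376842) (nat_lit 11) (.e (nat_lit 426003) (nat_lit 0) .nil)))) .nil)))))) (.nd (nat_lit 2) (.nd (nat_lit 3) (.nd (nat_lit 4) (.nd (nat_lit 5) 
(.lf (nat_lit 124867) (.g (nat_lit 3039) (.e (nat_lit 7265) (nat_lit 384) (.e (nat_lit 57427) (nat_lit 15) (.e (nat_lit 360491) (nat_lit 22) (.e (nat_lit 778466) (nat_lit 11) (.e (nat_lit 24640) (nat_lit 10) (.e (nat_lit 344091) (nat_lit 18) .nil)))))) (.g (nat_lit 6) .nil .nil))) 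
(.lf (nat_lit 124899) (.g (nat_lit 2142) (.e (nat_lit 7265) (nat_lit 384) (.e (nat_lit 57435) (nat_lit 17) (.e (nat_lit 376842) (nat_lit 11) (.e (nat_lit 426012) (nat_lit 0) (.e (nat_lit 7593) (nat_lit 407) (.e (nat_lit 73731) (nat_lit 0) .nil)))))) (.g (nat_lit 4) .nil .nil)))) (.nd (nat_lit 5) 
(.lf (nat_lit 124883) (.g (nat_lit 2154) (.e (nat_lit 7265) (nat_lit 384) (.e (nat_lit 57430) (nat_lit 16) (.e (nat_lit 368676) (nat_lit 21) (.e (nat_lit 516176) (nat_lit 14) (.e (nat_lit 466967) (nat_lit 20) (.e (nat_lit 3304) (nat_lit 202) (.e (nat_lit 573475) (nat_lit 12) (.e (nat_lit 57351) (nat_lit 0) .nil)))))))) (.g (nat_lit 4) .nil .nil))) 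
(.lf (nat_lit 124915) (.g (nat_lit 3620) (.e (nat_lit 7265) (nat_lit 384) (.e (nat_lit 57435) (nat_lit 17) (.e (nat_lit 376842) (nat_lit 11) (.e (nat_lit 426344) (nat_lit 14) (.e (nat_lit 491558) (nat_lit 10) (.e (nat_lit 344096) (nat_lit 18) .nil)))))) (.g (nat_lit 6) .nil .nil))))) (.nd (nat_lit 4) (.nd (nat_lit 5) 
(.lf (nat_lit 124875) (.g (nat_lit 1829) (.e (nat_lit 7265) (nat_lit 384) (.e (nat_lit 57427) (nat_lit 15) (.e (nat_lit 360492) (nat_lit 22) (.e (nat_lit 778466) (nat_lit 11) (.e (nat_lit 24639) (nat_lit 10) (.e (nat_lit 344090) (nat_lit 18) .nil)))))) (.g (nat_lit 4) .nil .nil))) 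
(.lf (nat_lit 124907) (.g (nat_lit 3151) (.e (nat_lit 7265) (nat_lit 384) (.e (nat_lit 57435) (nat_lit 17) (.e (nat_lit 376842) (nat_lit 11) (.e (nat_lit 426342) (nat_lit 14) (.e (nat_lit 491560) (nat_lit 10) (.e (nat_lit 344094) (nat_lit 18) .nil)))))) (.g (nat_lit 6) .nil .nil)))) (.nd (nat_lit 5) 
(.lf (nat_lit 124891) (.g (nat_lit 2172) (.e (nat_lit 7265) (nat_lit 384) (.e (nat_lit 57435) (nat_lit 17) (.e (nat_lit 376842) (nat_lit 11) (.e (nat_lit 426009) (nat_lit 0) (.e (nat_lit 7591) (nat_lit 407) (.e (nat_lit 73731) (nat_lit 0) .nil)))))) (.g (nat_lit 5) .nil .nil))) 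
(.lf (nat_lit 124923) (.g (nat_lit 1131) (.e (nat_lit 7265) (nat_lit 384) (.e (nat_lit 57436) (nat_lit 17) (.e (nat_lit 376838) (nat_lit 11) (.e (nat_lit 426344) (nat_lit 14) (.e (nat_lit 491560) (nat_lit 10) .nil))))) .nil))))) (.nd (nat_lit 3) (.nd (nat_lit 4) (.nd (nat_lit 5) 
(.lf (nat_lit 124871) (.g (nat_lit 390) (.e (nat_lit 7265) (nat_lit 384) (.e (nat_lit 57427) (nat_lit 15) (.e (nat_lit 360492) (nat_lit 22) .nil))) .nil)) 
(.lf (nat_lit 124903) (.g (nat_lit 2403) (.e (nat_lit 7265) (nat_lit 384) (.e (nat_lit 57435) (nat_lit 17) (.e (nat_lit 376842) (nat_lit 11) (.e (nat_lit 426342) (nat_lit 14) (.e (nat_lit 491558) (nat_lit 10) (.e (nat_lit 344090) (nat_lit 18) .nil)))))) (.g (nat_lit 5) .nil .nil)))) (.nd (nat_lit 5) 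
(.lf (nat_lit 124887) (.g (nat_lit 2044) (.e (nat_lit 7265) (nat_lit 384) (.e (nat_lit 57430) (nat_lit 16) (.e (nat_lit 368676) (nat_lit 21) (.e (nat_lit 516176) (nat_lit 14) (.e (nat_lit 466967) (nat_lit 20) (.e (nat_lit 3305) (nat_lit 202) (.e (nat_lit 573477) (nat_lit 12) (.e (nat_lit 57352) (nat_lit 0) .nil)))))))) (.g (nat_lit 4) .nil .nil))) 
(.lf (nat_lit 124919) (.g (nat_lit 3195) (.e (nat_lit 7265) (nat_lit 384) (.e (nat_lit 57435) (nat_lit 17) (.e (nat_lit 376842) (nat_lit 11) (.e (nat_lit 426344) (nat_lit 14) (.e (nat_lit 491560) (nat_lit 10) (.e (nat_lit 344096) (nat_lit 18) .nil)))))) (.g (nat_lit 5) .nil .nil))))) (.nd (nat_lit 4) (.nd (nat_lit 5) 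
(.lf (nat_lit 124879) (.g (nat_lit 2304) (.e (nat_lit 7265) (nat_lit 384) (.e (nat_lit 57427) (nat_lit 15) (.e (nat_lit 360492) (nat_lit 22) (.e (nat_lit 778466) (nat_lit 11) (.e (nat_lit 24641) (nat_lit 10) (.e (nat_lit 344096) (nat_lit 18) .nil)))))) (.g (nat_lit 5) .nil .nil))) 
(.lf (nat_lit 124911) (.g (nat_lit 3193) (.e (nat_lit 7265) (nat_lit 384) (.e (nat_lit 57435) (nat_lit 17) (.e (nat_lit 376842) (nat_lit 11) (.e (nat_lit 426343) (nat_lit 14) (.e (nat_lit 491560) (nat_lit 10) (.e (nat_lit 344091) (nat_lit 18) .nil)))))) (.g (nat_lit 6) .nil .nil)))) (.nd (nat_lit 5) 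
(.lf (nat_lit 124895) (.g (nat_lit 2900) (.e (nat_lit 7265) (nat_lit 384) (.e (nat_lit 57435) (nat_lit 17) (.e (nat_lit 376842) (nat_lit 11) (.e (nat_lit 426011) (nat_lit 0) (.e (nat_lit 7591) (nat_lit 407) (.e (nat_lit 73731) (nat_lit 0) .nil)))))) (.g (nat_lit 5) .nil .nil))) 
(.lf (nat_lit 124927) (.g (nat_lit 2402) (.e (nat_lit 7265) (nat_lit 384) (.e (nat_lit 57436) (nat_lit 17) (.e (nat_lit 376842) (nat_lit 11) (.e (nat_lit 426010) (nat_lit 0) (.e (nat_lit 7591) (nat_lit 407) (.e (nat_lit 73731) (nat_lit 0) .nil)))))) (.g (nat_lit 5) .nil .nil)))))))))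

noncomputable def tv1675 : DT := (.nd (nat_lit 0) (.nd (nat_lit 1) (.nd (nat_lit 2) (.nd (nat_lit 3) (.nd (nat_lit 4) (.nd (nat_lit 5) 
(.lf (nat_lit 124928) (.g (nat_lit 3552) (.e (nat_lit 7265) (nat_lit 384) (.e (nat_lit 57436) (nat_lit 17) (.e (nat_lit 376842) (nat_lit 11) (.e (nat_lit 426011) (nat_lit 0) (.e (nat_lit 7591) (nat_lit 407) (.e (nat_lit 73729) (nat_lit 0) .nil)))))) (.g (nat_lit 6) .nil .nil))) 
(.lf (nat_lit 124960) (.g (nat_lit 2534) (.e (nat_lit 7265) (nat_lit 384) (.e (nat_lit 57436) (nat_lit 17) (.e (nat_lit 376859) (nat_lit 21) (.e (nat_lit 57681) (nat_lit 155) (.e (nat_lit 122917) (nat_lit 15) (.e (nat_lit 360449) (nat_lit 0) .nil)))))) (.g (nat_lit 4) .nil .nil)))) (.nd (nat_lit 5) 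
(.lf (nat_lit 124944) (.g (nat_lit 3186) (.e (nat_lit 7265) (nat_lit 384) (.e (nat_lit 57436) (nat_lit 17) (.e (nat_lit 376842) (nat_lit 11) (.e (nat_lit 426342) (nat_lit 14) (.e (nat_lit 491560) (nat_lit 10) (.e (nat_lit 344094) (nat_lit 18) .nil)))))) (.g (nat_lit 6) .nil .nil))) 
(.lf (nat_lit 124976) (.g (nat_lit 4335) (.e (nat_lit 7266) (nat_lit 384) (.e (nat_lit 57404) (nat_lit 12) (.e (nat_lit 336013) (nat_lit 2) (.e (nat_lit 90170) (nat_lit 13) (.e (nat_lit 172113) (nat_lit 10) (.e (nat_lit 434248) (nat_lit 28) (.e (nat_lit 573473) (nat_lit 12) (.e (nat_lit 57353) (nat_lit 0) .nil)))))))) (.g (nat_lit 0) .nil .nil))))) (.nd (nat_lit 4) (.nd (nat_lit 5) 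
(.lf (nat_lit 124936) (.g (nat_lit 2909) (.e (nat_lit 7265) (nat_lit 384) (.e (nat_lit 57436) (nat_lit 17) (.e (nat_lit 376842) (nat_lit 11) (.e (nat_lit 426341) (nat_lit 14) (.e (nat_lit 491560) (nat_lit 10) (.e (nat_lit 344091) (nat_lit 18) .nil)))))) (.g (nat_lit 5) .nil .nil))) 
(.lf (nat_lit 124968) (.g (nat_lit 4337) (.e (nat_lit 7265) (nat_lit 384) (.e (nat_lit 57445) (nat_lit 19) (.e (nat_lit 393229) (nat_lit 9) (.e (nat_lit 336188) (nat_lit 11) .nil)))) .nil))) (.nd (nat_lit 5) 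
(.lf (nat_lit 124952) (.g (nat_lit 3668) (.e (nat_lit 7265) (nat_lit 384) (.e (nat_lit 57436) (nat_lit 17) (.e (nat_lit 376842) (nat_lit 11) (.e (nat_lit 426344) (nat_lit 14) (.e (nat_lit 491558) (nat_lit 10) (.e (nat_lit 344091) (nat_lit 18) .nil)))))) (.g (nat_lit 6) .nil .nil))) 
(.lf (nat_lit 124984) (.g (nat_lit 3228) (.e (nat_lit 7266) (nat_lit 384) (.e (nat_lit 57404) (nat_lit 12) (.e (nat_lit 336028) (nat_lit 3) (.e (nat_lit 98372) (nat_lit 29) (.e (nat_lit 450586) (nat_lit 10) (.e (nat_lit 573475) (nat_lit 12) (.e (nat_lit 57348) (nat_lit 0) .nil))))))) (.g (nat_lit 6) .nil .nil)))))) (.nd (nat_lit 3) (.nd (nat_lit 4) (.nd (nat_lit 5) 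
(.lf (nat_lit 124932) (.g (nat_lit 2300) (.e (nat_lit 7265) (nat_lit 384) (.e (nat_lit 57436) (nat_lit 17) (.e (nat_lit 376842) (nat_lit 11) (.e (nat_lit 426012) (nat_lit 0) (.e (nat_lit 7591) (nat_lit 407) (.e (nat_lit 73731) (nat_lit 0) .nil)))))) (.g (nat_lit 4) .nil .nil))) 
(.lf (nat_lit 124964) (.g (nat_lit 1112) (.e (nat_lit 7265) (nat_lit 384) (.e (nat_lit 57436) (nat_lit 17) (.e (nat_lit 376872) (nat_lit 26) (.e (nat_lit 147496) (nat_lit 11) (.e (nat_lit 24640) (nat_lit 10) .nil))))) .nil))) (.nd (nat_lit 5) 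
(.lf (nat_lit 124948) (.g (nat_lit 3581) (.e (nat_lit 7265) (nat_lit 384) (.e (nat_lit 57436) (nat_lit 17) (.e (nat_lit 376842) (nat_lit 11) (.e (nat_lit 426343) (nat_lit 14) (.e (nat_lit 491560) (nat_lit 10) (.e (nat_lit 344090) (nat_lit 18) .nil)))))) (.g (nat_lit 0) .nil .nil))) 
(.lf (nat_lit 124980) (.g (nat_lit 3962) (.e (nat_lit 7266) (nat_lit 384) (.e (nat_lit 57404) (nat_lit 12) (.e (nat_lit 336028) (nat_lit 3) (.e (nat_lit 98359) (nat_lit 26) (.e (nat_lit 426286) (nat_lit 10) (.e (nat_lit 434248) (nat_lit 28) (.e (nat_lit 573473) (nat_lit 12) (.e (nat_lit 57353) (nat_lit 0) .nil)))))))) (.g (nat_lit 0) .nil .nil))))) (.nd (nat_lit 4) (.nd (nat_lit 5) 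
(.lf (nat_lit 124940) (.g (nat_lit 3137) (.e (nat_lit 7265) (nat_lit 384) (.e (nat_lit 57436) (nat_lit 17) (.e (nat_lit 376842) (nat_lit 11) (.e (nat_lit 426342) (nat_lit 14) (.e (nat_lit 491558) (nat_lit 10) (.e (nat_lit 344091) (nat_lit 18) .nil)))))) (.g (nat_lit 0) .nil .nil))) 
(.lf (nat_lit 124972) (.g (nat_lit 3750) (.e (nat_lit 7266) (nat_lit 384) (.e (nat_lit 57404) (nat_lit 12) (.e (nat_lit 336013) (nat_lit 2) (.e (nat_lit 90170) (nat_lit 13) (.e (nat_lit 172106) (nat_lit 10) (.e (nat_lit 434244) (nat_lit 28) (.e (nat_lit 573474) (nat_lit 12) (.e (nat_lit 57344) (nat_lit 0) .nil)))))))) (.g (nat_lit 7) .nil .nil)))) (.nd (nat_lit 5) 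
(.lf (nat_lit 124956) (.g (nat_lit 3558) (.e (nat_lit 7265) (nat_lit 384) (.e (nat_lit 57436) (nat_lit 17) (.e (nat_lit 376842) (nat_lit 11) (.e (nat_lit 426344) (nat_lit 14) (.e (nat_lit 491560) (nat_lit 10) (.e (nat_lit 344094) (nat_lit 18) .nil)))))) (.g (nat_lit 6) .nil .nil))) 
(.lf (nat_lit 124988) (.g (nat_lit 3711) (.e (nat_lit 7266) (nat_lit 384) (.e (nat_lit 57404) (nat_lit 12) (.e (nat_lit 336028) (nat_lit 3) (.e (nat_lit 98373) (nat_lit 29) (.e (nat_lit 450588) (nat_lit 10) (.e (nat_lit 573475) (nat_lit 12) (.e (nat_lit 57353) (nat_lit 0) .nil))))))) (.g (nat_lit 6) .nil .nil))))))) (.nd (nat_lit 2) (.nd (nat_lit 3) (.nd (nat_lit 4) (.nd (nat_lit 5) 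
(.lf (nat_lit 124930) (.g (nat_lit 3845) (.e (nat_lit 7265) (nat_lit 384) (.e (nat_lit 57436) (nat_lit 17) (.e (nat_lit 376842) (nat_lit 11) (.e (nat_lit 426011) (nat_lit 0) (.e (nat_lit 7593) (nat_lit 407) (.e (nat_lit 73729) (nat_lit 0) .nil)))))) (.g (nat_lit 0) .nil .nil))) 
(.lf (nat_lit 124962) (.g (nat_lit 1216) (.e (nat_lit 7265) (nat_lit 384) (.e (nat_lit 57436) (nat_lit 17) (.e (nat_lit 376872) (nat_lit 26) (.e (nat_lit 147495) (nat_lit 11) (.e (nat_lit 24639) (nat_lit 10) .nil))))) .nil))) (.nd (nat_lit 5) 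
(.lf (nat_lit 124946) (.g (nat_lit 3658) (.e (nat_lit 7265) (nat_lit 384) (.e (nat_lit 57436) (nat_lit 17) (.e (nat_lit 376842) (nat_lit 11) (.e (nat_lit 426343) (nat_lit 14) (.e (nat_lit 491558) (nat_lit 10) (.e (nat_lit 344091) (nat_lit 18) .nil)))))) (.g (nat_lit 0) .nil .nil))) 
(.lf (nat_lit 124978) (.g (nat_lit 3856) (.e (nat_lit 7266) (nat_lit 384) (.e (nat_lit 57404) (nat_lit 12) (.e (nat_lit 336028) (nat_lit 3) (.e (nat_lit 98359) (nat_lit 26) (.e (nat_lit 426286) (nat_lit 10) (.e (nat_lit 434245) (nat_lit 28) (.e (nat_lit 573473) (nat_lit 12) (.e (nat_lit 57353) (nat_lit 0) .nil)))))))) (.g (nat_lit 0) .nil .nil))))) (.nd (nat_lit 4) (.nd (nat_lit 5) 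
(.lf (nat_lit 124938) (.g (nat_lit 2838) (.e (nat_lit 7265) (nat_lit 384) (.e (nat_lit 57436) (nat_lit 17) (.e (nat_lit 376842) (nat_lit 11) (.e (nat_lit 426341) (nat_lit 14) (.e (nat_lit 491560) (nat_lit 10) (.e (nat_lit 344096) (nat_lit 18) .nil)))))) (.g (nat_lit 5) .nil .nil))) 
(.lf (nat_lit 124970) (.g (nat_lit 4556) (.e (nat_lit 7266) (nat_lit 384) (.e (nat_lit 57377) (nat_lit 3) (.e (nat_lit 98317) (nat_lit 9) (.e (nat_lit 336196) (nat_lit 12) .nil)))) .nil))) (.nd (nat_lit 5) 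
(.lf (nat_lit 124954) (.g (nat_lit 3702) (.e (nat_lit 7265) (nat_lit 384) (.e (nat_lit 57436) (nat_lit 17) (.e (nat_lit 376842) (nat_lit 11) (.e (nat_lit 426344) (nat_lit 14) (.e (nat_lit 491560) (nat_lit 10) (.e (nat_lit 344090) (nat_lit 18) .nil)))))) (.g (nat_lit 6) .nil .nil))) 
(.lf (nat_lit 124986) (.g (nat_lit 4298) (.e (nat_lit 7266) (nat_lit 384) (.e (nat_lit 57404) (nat_lit 12) (.e (nat_lit 336028) (nat_lit 3) (.e (nat_lit 98373) (nat_lit 29) (.e (nat_lit 450588) (nat_lit 10) (.e (nat_lit 573473) (nat_lit 12) (.e (nat_lit 57348) (nat_lit 0) .nil))))))) (.g (nat_lit 0) .nil .nil)))))) (.nd (nat_lit 3) (.nd (nat_lit 4) (.nd (nat_lit 5) 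
(.lf (nat_lit 124934) (.g (nat_lit 2144) (.e (nat_lit 7265) (nat_lit 384) (.e (nat_lit 57436) (nat_lit 17) (.e (nat_lit 376842) (nat_lit 11) (.e (nat_lit 426012) (nat_lit 0) (.e (nat_lit 7593) (nat_lit 407) (.e (nat_lit 73731) (nat_lit 0) .nil)))))) (.g (nat_lit 4) .nil .nil))) 
(.lf (nat_lit 124966) (.g (nat_lit 4311) (.e (nat_lit 7265) (nat_lit 384) (.e (nat_lit 57445) (nat_lit 19) (.e (nat_lit 393229) (nat_lit 9) (.e (nat_lit 336067) (nat_lit 8) .nil)))) .nil))) (.nd (nat_lit 5) 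
(.lf (nat_lit 124950) (.g (nat_lit 3341) (.e (nat_lit 7265) (nat_lit 384) (.e (nat_lit 57436) (nat_lit 17) (.e (nat_lit 376842) (nat_lit 11) (.e (nat_lit 426343) (nat_lit 14) (.e (nat_lit 491560) (nat_lit 10) (.e (nat_lit 344094) (nat_lit 18) .nil)))))) (.g (nat_lit 5) .nil .nil))) 
(.lf (nat_lit 124982) (.g (nat_lit 3930) (.e (nat_lit 7266) (nat_lit 384) (.e (nat_lit 57404) (nat_lit 12) (.e (nat_lit 336028) (nat_lit 3) (.e (nat_lit 98359) (nat_lit 26) (.e (nat_lit 426286) (nat_lit 10) (.e (nat_lit 434248) (nat_lit 28) (.e (nat_lit 573475) (nat_lit 12) (.e (nat_lit 57353) (nat_lit 0) .nil)))))))) (.g (nat_lit 7) .nil .nil))))) (.nd (nat_lit 4) (.nd (nat_lit 5) 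
(.lf (nat_lit 124942) (.g (nat_lit 3308) (.e (nat_lit 7265) (nat_lit 384) (.e (nat_lit 57436) (nat_lit 17) (.e (nat_lit 376842) (nat_lit 11) (.e (nat_lit 426342) (nat_lit 14) (.e (nat_lit 491560) (nat_lit 10) (.e (nat_lit 344090) (nat_lit 18) .nil)))))) (.g (nat_lit 6) .nil .nil))) 
(.lf (nat_lit 124974) (.g (nat_lit 4197) (.e (nat_lit 7266) (nat_lit 384) (.e (nat_lit 57404) (nat_lit 12) (.e (nat_lit 336013) (nat_lit 2) (.e (nat_lit 90170) (nat_lit 13) (.e (nat_lit 172113) (nat_lit 10) (.e (nat_lit 434245) (nat_lit 28) (.e (nat_lit 573473) (nat_lit 12) (.e (nat_lit 57353) (nat_lit 0) .nil)))))))) (.g (nat_lit 0) .nil .nil)))) (.nd (nat_lit 5) 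
(.lf (nat_lit 124958) (.g (nat_lit 472) (.e (nat_lit 7265) (nat_lit 384) (.e (nat_lit 57436) (nat_lit 17) (.e (nat_lit 376855) (nat_lit 20) .nil))) .nil)) 
(.lf (nat_lit 124990) (.g (nat_lit 2901) (.e (nat_lit 7266) (nat_lit 384) (.e (nat_lit 57404) (nat_lit 12) (.e (nat_lit 336224) (nat_lit 13) (.e (nat_lit 393301) (nat_lit 27) (.e (nat_lit 491558) (nat_lit 10) (.e (nat_lit 344090) (nat_lit 18) .nil)))))) (.g (nat_lit 0) .nil .nil)))))))) (.nd (nat_lit 1) (.nd (nat_lit 2) (.nd (nat_lit 3) (.nd (nat_lit 4) (.nd (nat_lit 5) 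
(.lf (nat_lit 124929) (.g (nat_lit 2953) (.e (nat_lit 7265) (nat_lit 384) (.e (nat_lit 57436) (nat_lit 17) (.e (nat_lit 376842) (nat_lit 11) (.e (nat_lit 426011) (nat_lit 0) (.e (nat_lit 7591) (nat_lit 407) (.e (nat_lit 73731) (nat_lit 0) .nil)))))) (.g (nat_lit 5) .nil .nil))) 
(.lf (nat_lit 124961) (.g (nat_lit 877) (.e (nat_lit 7265) (nat_lit 384) (.e (nat_lit 57436) (nat_lit 17) (.e (nat_lit 376860) (nat_lit 21) (.e (nat_lit 57671) (nat_lit 152) .nil)))) .nil))) (.nd (nat_lit 5) 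
(.lf (nat_lit 124945) (.g (nat_lit 2954) (.e (nat_lit 7265) (nat_lit 384) (.e (nat_lit 57436) (nat_lit 17) (.e (nat_lit 376842) (nat_lit 11) (.e (nat_lit 426343) (nat_lit 14) (.e (nat_lit 491558) (nat_lit 10) (.e (nat_lit 344090) (nat_lit 18) .nil)))))) (.g (nat_lit 5) .nil .nil))) 
(.lf (nat_lit 124977) (.g (nat_lit 4748) (.e (nat_lit 7266) (nat_lit 384) (.e (nat_lit 57404) (nat_lit 12) (.e (nat_lit 336013) (nat_lit 2) (.e (nat_lit 90170) (nat_lit 13) (.e (nat_lit 172113) (nat_lit 10) (.e (nat_lit 434248) (nat_lit 28) (.e (nat_lit 573475) (nat_lit 12) (.e (nat_lit 57348) (nat_lit 0) .nil)))))))) (.g (nat_lit 0) .nil .nil))))) (.nd (nat_lit 4) (.nd (nat_lit 5) 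
(.lf (nat_lit 124937) (.g (nat_lit 3481) (.e (nat_lit 7265) (nat_lit 384) (.e (nat_lit 57436) (nat_lit 17) (.e (nat_lit 376842) (nat_lit 11) (.e (nat_lit 426341) (nat_lit 14) (.e (nat_lit 491560) (nat_lit 10) (.e (nat_lit 344094) (nat_lit 18) .nil)))))) (.g (nat_lit 6) .nil .nil))) 
(.lf (nat_lit 124969) (.g (nat_lit 5213) (.e (nat_lit 7266) (nat_lit 384) (.e (nat_lit 57377) (nat_lit 3) (.e (nat_lit 98317) (nat_lit 9) (.e (nat_lit 336078) (nat_lit 9) .nil)))) .nil))) (.nd (nat_lit 5) 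
(.lf (nat_lit 124953) (.g (nat_lit 3707) (.e (nat_lit 7265) (nat_lit 384) (.e (nat_lit 57436) (nat_lit 17) (.e (nat_lit 376842) (nat_lit 11) (.e (nat_lit 426344) (nat_lit 14) (.e (nat_lit 491558) (nat_lit 10) (.e (nat_lit 344096) (nat_lit 18) .nil)))))) (.g (nat_lit 0) .nil .nil))) 
(.lf (nat_lit 124985) (.g (nat_lit 3371) (.e (nat_lit 7266) (nat_lit 384) (.e (nat_lit 57404) (nat_lit 12) (.e (nat_lit 336028) (nat_lit 3) (.e (nat_lit 98373) (nat_lit 29) (.e (nat_lit 450587) (nat_lit 10) (.e (nat_lit 573478) (nat_lit 12) (.e (nat_lit 57353) (nat_lit 0) .nil))))))) (.g (nat_lit 7) .nil .nil)))))) (.nd (nat_lit 3) (.nd (nat_lit 4) (.nd (nat_lit 5) 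
(.lf (nat_lit 124933) (.g (nat_lit 3315) (.e (nat_lit 7265) (nat_lit 384) (.e (nat_lit 57436) (nat_lit 17) (.e (nat_lit 376842) (nat_lit 11) (.e (nat_lit 426012) (nat_lit 0) (.e (nat_lit 7593) (nat_lit 407) (.e (nat_lit 73729) (nat_lit 0) .nil)))))) (.g (nat_lit 6) .nil .nil))) 
(.lf (nat_lit 124965) (.g (nat_lit 2050) (.e (nat_lit 7265) (nat_lit 384) (.e (nat_lit 57438) (nat_lit 17) (.e (nat_lit 376842) (nat_lit 11) (.e (nat_lit 426343) (nat_lit 14) (.e (nat_lit 491560) (nat_lit 10) .nil))))) .nil))) (.nd (nat_lit 5) 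
(.lf (nat_lit 124949) (.g (nat_lit 3253) (.e (nat_lit 7265) (nat_lit 384) (.e (nat_lit 57436) (nat_lit 17) (.e (nat_lit 376842) (nat_lit 11) (.e (nat_lit 426343) (nat_lit 14) (.e (nat_lit 491560) (nat_lit 10) (.e (nat_lit 344091) (nat_lit 18) .nil)))))) (.g (nat_lit 6) .nil .nil))) 
(.lf (nat_lit 124981) (.g (nat_lit 4327) (.e (nat_lit 7266) (nat_lit 384) (.e (nat_lit 57404) (nat_lit 12) (.e (nat_lit 336028) (nat_lit 3) (.e (nat_lit 98359) (nat_lit 26) (.e (nat_lit 426286) (nat_lit 10) (.e (nat_lit 434248) (nat_lit 28) (.e (nat_lit 573475) (nat_lit 12) (.e (nat_lit 57348) (nat_lit 0) .nil)))))))) (.g (nat_lit 8) .nil .nil))))) (.nd (nat_lit 4) (.nd (nat_lit 5) 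
(.lf (nat_lit 124941) (.g (nat_lit 3134) (.e (nat_lit 7265) (nat_lit 384) (.e (nat_lit 57436) (nat_lit 17) (.e (nat_lit 376842) (nat_lit 11) (.e (nat_lit 426342) (nat_lit 14) (.e (nat_lit 491558) (nat_lit 10) (.e (nat_lit 344096) (nat_lit 18) .nil)))))) (.g (nat_lit 0) .nil .nil))) 
(.lf (nat_lit 124973) (.g (nat_lit 4003) (.e (nat_lit 7266) (nat_lit 384) (.e (nat_lit 57404) (nat_lit 12) (.e (nat_lit 336013) (nat_lit 2) (.e (nat_lit 90170) (nat_lit 13) (.e (nat_lit 172106) (nat_lit 10) (.e (nat_lit 434244) (nat_lit 28) (.e (nat_lit 573474) (nat_lit 12) (.e (nat_lit 57353) (nat_lit 0) .nil)))))))) (.g (nat_lit 7) .nil .nil)))) (.nd (nat_lit 5) 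
(.lf (nat_lit 124957) (.g (nat_lit 3331) (.e (nat_lit 7265) (nat_lit 384) (.e (nat_lit 57436) (nat_lit 17) (.e (nat_lit 376842) (nat_lit 11) (.e (nat_lit 426344) (nat_lit 14) (.e (nat_lit 491560) (nat_lit 10) (.e (nat_lit 344096) (nat_lit 18) .nil)))))) (.g (nat_lit 5) .nil .nil))) 
(.lf (nat_lit 124989) (.g (nat_lit 1284) (.e (nat_lit 7266) (nat_lit 384) (.e (nat_lit 57404) (nat_lit 12) (.e (nat_lit 336224) (nat_lit 13) (.e (nat_lit 393300) (nat_lit 27) (.e (nat_lit 491560) (nat_lit 10) .nil))))) .nil)))))) (.nd (nat_lit 2) (.nd (nat_lit 3) (.nd (nat_lit 4) (.nd (nat_lit 5) 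
(.lf (nat_lit 124931) (.g (nat_lit 2663) (.e (nat_lit 7265) (nat_lit 384) (.e (nat_lit 57436) (nat_lit 17) (.e (nat_lit 376842) (nat_lit 11) (.e (nat_lit 426011) (nat_lit 0) (.e (nat_lit 7593) (nat_lit 407) (.e (nat_lit 73731) (nat_lit 0) .nil)))))) (.g (nat_lit 5) .nil .nil))) 
(.lf (nat_lit 124963) (.g (nat_lit 1184) (.e (nat_lit 7265) (nat_lit 384) (.e (nat_lit 57436) (nat_lit 17) (.e (nat_lit 376872) (nat_lit 26) (.e (nat_lit 147495) (nat_lit 11) (.e (nat_lit 24640) (nat_lit 10) .nil))))) .nil))) (.nd (nat_lit 5) 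
(.lf (nat_lit 124947) (.g (nat_lit 3666) (.e (nat_lit 7265) (nat_lit 384) (.e (nat_lit 57436) (nat_lit 17) (.e (nat_lit 376842) (nat_lit 11) (.e (nat_lit 426343) (nat_lit 14) (.e (nat_lit 491558) (nat_lit 10) (.e (nat_lit 344096) (nat_lit 18) .nil)))))) (.g (nat_lit 0) .nil .nil))) 
(.lf (nat_lit 124979) (.g (nat_lit 4063) (.e (nat_lit 7266) (nat_lit 384) (.e (nat_lit 57404) (nat_lit 12) (.e (nat_lit 336028) (nat_lit 3) (.e (nat_lit 98359) (nat_lit 26) (.e (nat_lit 426286) (nat_lit 10) (.e (nat_lit 434248) (nat_lit 28) (.e (nat_lit 573473) (nat_lit 12) (.e (nat_lit 57348) (nat_lit 0) .nil)))))))) (.g (nat_lit 0) .nil .nil))))) (.nd (nat_lit 4) (.nd (nat_lit 5) 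
(.lf (nat_lit 124939) (.g (nat_lit 2391) (.e (nat_lit 7265) (nat_lit 384) (.e (nat_lit 57436) (nat_lit 17) (.e (nat_lit 376842) (nat_lit 11) (.e (nat_lit 426342) (nat_lit 14) (.e (nat_lit 491558) (nat_lit 10) (.e (nat_lit 344090) (nat_lit 18) .nil)))))) (.g (nat_lit 5) .nil .nil))) 
(.lf (nat_lit 124971) (.g (nat_lit 4580) (.e (nat_lit 7266) (nat_lit 384) (.e (nat_lit 57377) (nat_lit 3) (.e (nat_lit 98317) (nat_lit 9) (.e (nat_lit 336203) (nat_lit 12) .nil)))) .nil))) (.nd (nat_lit 5) 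
(.lf (nat_lit 124955) (.g (nat_lit 3374) (.e (nat_lit 7265) (nat_lit 384) (.e (nat_lit 57436) (nat_lit 17) (.e (nat_lit 376842) (nat_lit 11) (.e (nat_lit 426344) (nat_lit 14) (.e (nat_lit 491560) (nat_lit 10) (.e (nat_lit 344091) (nat_lit 18) .nil)))))) (.g (nat_lit 5) .nil .nil))) 
(.lf (nat_lit 124987) (.g (nat_lit 4196) (.e (nat_lit 7266) (nat_lit 384) (.e (nat_lit 57404) (nat_lit 12) (.e (nat_lit 336028) (nat_lit 3) (.e (nat_lit 98373) (nat_lit 29) (.e (nat_lit 450588) (nat_lit 10) (.e (nat_lit 573473) (nat_lit 12) (.e (nat_lit 57353) (nat_lit 0) .nil))))))) (.g (nat_lit 0) .nil .nil)))))) (.nd (nat_lit 3) (.nd (nat_lit 4) (.nd (nat_lit 5) 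
(.lf (nat_lit 124935) (.g (nat_lit 2087) (.e (nat_lit 7265) (nat_lit 384) (.e (nat_lit 57436) (nat_lit 17) (.e (nat_lit 376842) (nat_lit 11) (.e (nat_lit 426341) (nat_lit 14) (.e (nat_lit 491558) (nat_lit 10) (.e (nat_lit 344091) (nat_lit 18) .nil)))))) (.g (nat_lit 4) .nil .nil))) 
(.lf (nat_lit 124967) (.g (nat_lit 4367) (.e (nat_lit 7265) (nat_lit 384) (.e (nat_lit 57445) (nat_lit 19) (.e (nat_lit 393229) (nat_lit 9) (.e (nat_lit 336069) (nat_lit 8) .nil)))) .nil))) (.nd (nat_lit 5) 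
(.lf (nat_lit 124951) (.g (nat_lit 2997) (.e (nat_lit 7265) (nat_lit 384) (.e (nat_lit 57436) (nat_lit 17) (.e (nat_lit 376842) (nat_lit 11) (.e (nat_lit 426344) (nat_lit 14) (.e (nat_lit 491558) (nat_lit 10) (.e (nat_lit 344090) (nat_lit 18) .nil)))))) (.g (nat_lit 5) .nil .nil))) 
(.lf (nat_lit 124983) (.g (nat_lit 3349) (.e (nat_lit 7266) (nat_lit 384) (.e (nat_lit 57404) (nat_lit 12) (.e (nat_lit 336028) (nat_lit 3) (.e (nat_lit 98372) (nat_lit 29) (.e (nat_lit 450586) (nat_lit 10) (.e (nat_lit 573473) (nat_lit 12) (.e (nat_lit 57353) (nat_lit 0) .nil))))))) (.g (nat_lit 0) .nil .nil))))) (.nd (nat_lit 4) (.nd (nat_lit 5) 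
(.lf (nat_lit 124943) (.g (nat_lit 3064) (.e (nat_lit 7265) (nat_lit 384) (.e (nat_lit 57436) (nat_lit 17) (.e (nat_lit 376842) (nat_lit 11) (.e (nat_lit 426342) (nat_lit 14) (.e (nat_lit 491560) (nat_lit 10) (.e (nat_lit 344091) (nat_lit 18) .nil)))))) (.g (nat_lit 6) .nil .nil))) 
(.lf (nat_lit 124975) (.g (nat_lit 4441) (.e (nat_lit 7266) (nat_lit 384) (.e (nat_lit 57404) (nat_lit 12) (.e (nat_lit 336013) (nat_lit 2) (.e (nat_lit 90170) (nat_lit 13) (.e (nat_lit 172113) (nat_lit 10) (.e (nat_lit 434248) (nat_lit 28) (.e (nat_lit 573473) (nat_lit 12) (.e (nat_lit 57348) (nat_lit 0) .nil)))))))) (.g (nat_lit 0) .nil .nil)))) (.nd (nat_lit 5) 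
(.lf (nat_lit 124959) (.g (nat_lit 1407) (.e (nat_lit 7265) (nat_lit 384) (.e (nat_lit 57436) (nat_lit 17) (.e (nat_lit 376859) (nat_lit 21) (.e (nat_lit 57666) (nat_lit 152) (.e (nat_lit 1077) (nat_lit 81) .nil))))) .nil)) 
(.lf (nat_lit 124991) (.g (nat_lit 741) (.e (nat_lit 7266) (nat_lit 384) (.e (nat_lit 57406) (nat_lit 12) (.e (nat_lit 336210) (nat_lit 13) .nil))) .nil))))))))

noncomputable def tv1676 : DT := (.nd (nat_lit 0) (.nd (nat_lit 1) (.nd (nat_lit 2) (.nd (nat_lit 3) (.nd (nat_lit 4) (.nd (nat_lit 5) 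
(.lf (nat_lit 124992) (.g (nat_lit 1352) (.e (nat_lit 7266) (nat_lit 384) (.e (nat_lit 57406) (nat_lit 12) (.e (nat_lit 336211) (nat_lit 13) (.e (nat_lit 393299) (nat_lit 27) .nil)))) .nil)) 
(.lf (nat_lit 125024) (.g (nat_lit 1663) (.e (nat_lit 7266) (nat_lit 384) (.e (nat_lit 57409) (nat_lit 12) (.e (nat_lit 336211) (nat_lit 13) (.e (nat_lit 393300) (nat_lit 27) (.e (nat_lit 491558) (nat_lit 10) (.e (nat_lit 344095) (nat_lit 18) .nil)))))) (.g (nat_lit 4) .nil .nil)))) (.nd (nat_lit 5) 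
(.lf (nat_lit 125008) (.g (nat_lit 2190) (.e (nat_lit 7266) (nat_lit 384) (.e (nat_lit 57409) (nat_lit 12) (.e (nat_lit 336211) (nat_lit 13) (.e (nat_lit 393232) (nat_lit 17) (.e (nat_lit 7593) (nat_lit 407) (.e (nat_lit 73730) (nat_lit 0) .nil)))))) (.g (nat_lit 4) .nil .nil))) 
(.lf (nat_lit 125040) (.g (nat_lit 2649) (.e (nat_lit 7266) (nat_lit 384) (.e (nat_lit 57413) (nat_lit 12) (.e (nat_lit 336028) (nat_lit 3) (.e (nat_lit 98359) (nat_lit 26) (.e (nat_lit 426286) (nat_lit 10) (.e (nat_lit 434245) (nat_lit 28) (.e (nat_lit 573473) (nat_lit 12) (.e (nat_lit 57348) (nat_lit 0) .nil)))))))) (.g (nat_lit 5) .nil .nil))))) (.nd (nat_lit 4) (.nd (nat_lit 5) 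
(.lf (nat_lit 125000) (.g (nat_lit 1834) (.e (nat_lit 7266) (nat_lit 384) (.e (nat_lit 57406) (nat_lit 12) (.e (nat_lit 336456) (nat_lit 34) (.e (nat_lit 483387) (nat_lit 23) .nil)))) .nil)) 
(.lf (nat_lit 125032) (.g (nat_lit 4287) (.e (nat_lit 7266) (nat_lit 384) (.e (nat_lit 57409) (nat_lit 12) (.e (nat_lit 336211) (nat_lit 13) (.e (nat_lit 393301) (nat_lit 27) (.e (nat_lit 491560) (nat_lit 10) (.e (nat_lit 344096) (nat_lit 18) .nil)))))) (.g (nat_lit 6) .nil .nil)))) (.nd (nat_lit 5) 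
(.lf (nat_lit 125016) (.g (nat_lit 955) (.e (nat_lit 7266) (nat_lit 384) (.e (nat_lit 57409) (nat_lit 12) (.e (nat_lit 336211) (nat_lit 13) (.e (nat_lit 393240) (nat_lit 17) .nil)))) .nil)) 
(.lf (nat_lit 125048) (.g (nat_lit 2322) (.e (nat_lit 7266) (nat_lit 384) (.e (nat_lit 57415) (nat_lit 12) (.e (nat_lit 336217) (nat_lit 13) (.e (nat_lit 393233) (nat_lit 17) (.e (nat_lit 7593) (nat_lit 407) (.e (nat_lit 73729) (nat_lit 0) .nil)))))) (.g (nat_lit 0) .nil .nil)))))) (.nd (nat_lit 3) (.nd (nat_lit 4) (.nd (nat_lit 5) 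
(.lf (nat_lit 124996) (.g (nat_lit 733) (.e (nat_lit 7266) (nat_lit 384) (.e (nat_lit 57406) (nat_lit 12) (.e (nat_lit 343808) (nat_lit 13) .nil))) .nil)) 
(.lf (nat_lit 125028) (.g (nat_lit 3909) (.e (nat_lit 7266) (nat_lit 384) (.e (nat_lit 57409) (nat_lit 12) (.e (nat_lit 336211) (nat_lit 13) (.e (nat_lit 393301) (nat_lit 27) (.e (nat_lit 491558) (nat_lit 10) (.e (nat_lit 344096) (nat_lit 18) .nil)))))) (.g (nat_lit 6) .nil .nil)))) (.nd (nat_lit 5) 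
(.lf (nat_lit 125012) (.g (nat_lit 2142) (.e (nat_lit 7266) (nat_lit 384) (.e (nat_lit 57409) (nat_lit 12) (.e (nat_lit 336211) (nat_lit 13) (.e (nat_lit 393233) (nat_lit 17) (.e (nat_lit 7593) (nat_lit 407) (.e (nat_lit 73730) (nat_lit 0) .nil)))))) (.g (nat_lit 5) .nil .nil))) 
(.lf (nat_lit 125044) (.g (nat_lit 2194) (.e (nat_lit 7266) (nat_lit 384) (.e (nat_lit 57413) (nat_lit 12) (.e (nat_lit 336028) (nat_lit 3) (.e (nat_lit 98372) (nat_lit 29) (.e (nat_lit 450586) (nat_lit 10) (.e (nat_lit 573475) (nat_lit 12) (.e (nat_lit 57348) (nat_lit 0) .nil))))))) (.g (nat_lit 4) .nil .nil))))) (.nd (nat_lit 4) (.nd (nat_lit 5) 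
(.lf (nat_lit 125004) (.g (nat_lit 1957) (.e (nat_lit 7266) (nat_lit 384) (.e (nat_lit 57409) (nat_lit 12) (.e (nat_lit 336211) (nat_lit 13) (.e (nat_lit 393231) (nat_lit 17) (.e (nat_lit 7591) (nat_lit 407) (.e (nat_lit 73731) (nat_lit 0) .nil)))))) (.g (nat_lit 5) .nil .nil))) 
(.lf (nat_lit 125036) (.g (nat_lit 862) (.e (nat_lit 7266) (nat_lit 384) (.e (nat_lit 57412) (nat_lit 12) (.e (nat_lit 336212) (nat_lit 13) (.e (nat_lit 393301) (nat_lit 27) .nil)))) .nil))) (.nd (nat_lit 5) 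
(.lf (nat_lit 125020) (.g (nat_lit 3323) (.e (nat_lit 7266) (nat_lit 384) (.e (nat_lit 57409) (nat_lit 12) (.e (nat_lit 336211) (nat_lit 13) (.e (nat_lit 393299) (nat_lit 27) (.e (nat_lit 491558) (nat_lit 10) (.e (nat_lit 344096) (nat_lit 18) .nil)))))) (.g (nat_lit 6) .nil .nil))) 
(.lf (nat_lit 125052) (.g (nat_lit 1899) (.e (nat_lit 7266) (nat_lit 384) (.e (nat_lit 57417) (nat_lit 12) (.e (nat_lit 336017) (nat_lit 3) (.e (nat_lit 98359) (nat_lit 26) (.e (nat_lit 426286) (nat_lit 10) .nil))))) .nil)))))) (.nd (nat_lit 2) (.nd (nat_lit 3) (.nd (nat_lit 4) (.nd (nat_lit 5) 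
(.lf (nat_lit 124994) (.g (nat_lit 1756) (.e (nat_lit 7266) (nat_lit 384) (.e (nat_lit 57406) (nat_lit 12) (.e (nat_lit 336211) (nat_lit 13) (.e (nat_lit 393300) (nat_lit 27) (.e (nat_lit 491560) (nat_lit 10) .nil))))) .nil)) 
(.lf (nat_lit 125026) (.g (nat_lit 2696) (.e (nat_lit 7266) (nat_lit 384) (.e (nat_lit 57409) (nat_lit 12) (.e (nat_lit 336211) (nat_lit 13) (.e (nat_lit 393300) (nat_lit 27) (.e (nat_lit 491560) (nat_lit 10) (.e (nat_lit 344094) (nat_lit 18) .nil)))))) (.g (nat_lit 5) .nil .nil)))) (.nd (nat_lit 5) 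
(.lf (nat_lit 125010) (.g (nat_lit 2128) (.e (nat_lit 7266) (nat_lit 384) (.e (nat_lit 57409) (nat_lit 12) (.e (nat_lit 336211) (nat_lit 13) (.e (nat_lit 393233) (nat_lit 17) (.e (nat_lit 7591) (nat_lit 407) (.e (nat_lit 73730) (nat_lit 0) .nil)))))) (.g (nat_lit 5) .nil .nil))) 
(.lf (nat_lit 125042) (.g (nat_lit 2783) (.e (nat_lit 7266) (nat_lit 384) (.e (nat_lit 57413) (nat_lit 12) (.e (nat_lit 336028) (nat_lit 3) (.e (nat_lit 98359) (nat_lit 26) (.e (nat_lit 426286) (nat_lit 10) (.e (nat_lit 434248) (nat_lit 28) (.e (nat_lit 573473) (nat_lit 12) (.e (nat_lit 57348) (nat_lit 0) .nil)))))))) (.g (nat_lit 5) .nil .nil))))) (.nd (nat_lit 4) (.nd (nat_lit 5) 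
(.lf (nat_lit 125002) (.g (nat_lit 2660) (.e (nat_lit 7266) (nat_lit 384) (.e (nat_lit 57409) (nat_lit 12) (.e (nat_lit 336019) (nat_lit 3) (.e (nat_lit 98359) (nat_lit 26) (.e (nat_lit 426286) (nat_lit 10) (.e (nat_lit 434248) (nat_lit 28) (.e (nat_lit 573475) (nat_lit 12) (.e (nat_lit 57347) (nat_lit 0) .nil)))))))) (.g (nat_lit 4) .nil .nil))) 
(.lf (nat_lit 125034) (.g (nat_lit 1184) (.e (nat_lit 7266) (nat_lit 384) (.e (nat_lit 57412) (nat_lit 12) (.e (nat_lit 336173) (nat_lit 10) (.e (nat_lit 344177) (nat_lit 43) .nil)))) .nil))) (.nd (nat_lit 5) 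
(.lf (nat_lit 125018) (.g (nat_lit 3134) (.e (nat_lit 7266) (nat_lit 384) (.e (nat_lit 57409) (nat_lit 12) (.e (nat_lit 336211) (nat_lit 13) (.e (nat_lit 393299) (nat_lit 27) (.e (nat_lit 491558) (nat_lit 10) (.e (nat_lit 344090) (nat_lit 18) .nil)))))) (.g (nat_lit 6) .nil .nil))) 
(.lf (nat_lit 125050) (.g (nat_lit 2340) (.e (nat_lit 7266) (nat_lit 384) (.e (nat_lit 57415) (nat_lit 12) (.e (nat_lit 336217) (nat_lit 13) (.e (nat_lit 393300) (nat_lit 27) (.e (nat_lit 491560) (nat_lit 10) (.e (nat_lit 344090) (nat_lit 18) .nil)))))) (.g (nat_lit 0) .nil .nil)))))) (.nd (nat_lit 3) (.nd (nat_lit 4) (.nd (nat_lit 5) 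
(.lf (nat_lit 124998) (.g (nat_lit 2598) (.e (nat_lit 7266) (nat_lit 384) (.e (nat_lit 57406) (nat_lit 12) (.e (nat_lit 336456) (nat_lit 34) (.e (nat_lit 483372) (nat_lit 21) (.e (nat_lit 319490) (nat_lit 0) (.e (nat_lit 595) (nat_lit 45) (.e (nat_lit 532490) (nat_lit 0) (.e (nat_lit 7936) (nat_lit 81) .nil)))))))) (.g (nat_lit 4) .nil .nil))) 
(.lf (nat_lit 125030) (.g (nat_lit 3684) (.e (nat_lit 7266) (nat_lit 384) (.e (nat_lit 57409) (nat_lit 12) (.e (nat_lit 336211) (nat_lit 13) (.e (nat_lit 393301) (nat_lit 27) (.e (nat_lit 491560) (nat_lit 10) (.e (nat_lit 344091) (nat_lit 18) .nil)))))) (.g (nat_lit 5) .nil .nil)))) (.nd (nat_lit 5) 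
(.lf (nat_lit 125014) (.g (nat_lit 2152) (.e (nat_lit 7266) (nat_lit 384) (.e (nat_lit 57409) (nat_lit 12) (.e (nat_lit 336211) (nat_lit 13) (.e (nat_lit 393234) (nat_lit 17) (.e (nat_lit 7593) (nat_lit 407) (.e (nat_lit 73730) (nat_lit 0) .nil)))))) (.g (nat_lit 4) .nil .nil))) 
(.lf (nat_lit 125046) (.g (nat_lit 2018) (.e (nat_lit 7266) (nat_lit 384) (.e (nat_lit 57415) (nat_lit 12) (.e (nat_lit 336028) (nat_lit 3) (.e (nat_lit 98372) (nat_lit 29) (.e (nat_lit 450586) (nat_lit 10) (.e (nat_lit 573473) (nat_lit 12) (.e (nat_lit 57353) (nat_lit 0) .nil))))))) (.g (nat_lit 4) .nil .nil))))) (.nd (nat_lit 4) (.nd (nat_lit 5) 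
(.lf (nat_lit 125006) (.g (nat_lit 2247) (.e (nat_lit 7266) (nat_lit 384) (.e (nat_lit 57409) (nat_lit 12) (.e (nat_lit 336211) (nat_lit 13) (.e (nat_lit 393232) (nat_lit 17) (.e (nat_lit 7591) (nat_lit 407) (.e (nat_lit 73730) (nat_lit 0) .nil)))))) (.g (nat_lit 4) .nil .nil))) 
(.lf (nat_lit 125038) (.g (nat_lit 1919) (.e (nat_lit 7266) (nat_lit 384) (.e (nat_lit 57413) (nat_lit 12) (.e (nat_lit 336013) (nat_lit 2) (.e (nat_lit 90170) (nat_lit 13) (.e (nat_lit 172106) (nat_lit 10) (.e (nat_lit 434244) (nat_lit 28) (.e (nat_lit 573474) (nat_lit 12) (.e (nat_lit 57344) (nat_lit 0) .nil)))))))) (.g (nat_lit 4) .nil .nil)))) (.nd (nat_lit 5) 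
(.lf (nat_lit 125022) (.g (nat_lit 2787) (.e (nat_lit 7266) (nat_lit 384) (.e (nat_lit 57409) (nat_lit 12) (.e (nat_lit 336211) (nat_lit 13) (.e (nat_lit 393299) (nat_lit 27) (.e (nat_lit 491560) (nat_lit 10) (.e (nat_lit 344091) (nat_lit 18) .nil)))))) (.g (nat_lit 6) .nil .nil))) 
(.lf (nat_lit 125054) (.g (nat_lit 2313) (.e (nat_lit 7266) (nat_lit 384) (.e (nat_lit 57417) (nat_lit 12) (.e (nat_lit 336017) (nat_lit 3) (.e (nat_lit 98359) (nat_lit 26) (.e (nat_lit 426286) (nat_lit 10) (.e (nat_lit 434245) (nat_lit 28) (.e (nat_lit 573474) (nat_lit 12) (.e (nat_lit 57351) (nat_lit 0) .nil)))))))) (.g (nat_lit 4) .nil .nil)))))))) 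
(.nd (nat_lit 1) (.nd (nat_lit 2) (.nd (nat_lit 3) (.nd (nat_lit 4) (.nd (nat_lit 5) 
(.lf (nat_lit 124993) (.g (nat_lit 1248) (.e (nat_lit 7266) (nat_lit 384) (.e (nat_lit 57406) (nat_lit 12) (.e (nat_lit 336211) (nat_lit 13) (.e (nat_lit 393300) (nat_lit 27) .nil)))) .nil)) 
(.lf (nat_lit 125025) (.g (nat_lit 3108) (.e (nat_lit 7266) (nat_lit 384) (.e (nat_lit 57409) (nat_lit 12) (.e (nat_lit 336211) (nat_lit 13) (.e (nat_lit 393300) (nat_lit 27) (.e (nat_lit 491558) (nat_lit 10) (.e (nat_lit 344096) (nat_lit 18) .nil)))))) (.g (nat_lit 6) .nil .nil)))) (.nd (nat_lit 5) 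
(.lf (nat_lit 125009) (.g (nat_lit 3003) (.e (nat_lit 7266) (nat_lit 384) (.e (nat_lit 57409) (nat_lit 12) (.e (nat_lit 336211) (nat_lit 13) (.e (nat_lit 393232) (nat_lit 17) (.e (nat_lit 7593) (nat_lit 407) (.e (nat_lit 73731) (nat_lit 0) .nil)))))) (.g (nat_lit 0) .nil .nil))) 
(.lf (nat_lit 125041) (.g (nat_lit 1896) (.e (nat_lit 7266) (nat_lit 384) (.e (nat_lit 57413) (nat_lit 12) (.e (nat_lit 336028) (nat_lit 3) (.e (nat_lit 98359) (nat_lit 26) (.e (nat_lit 426286) (nat_lit 10) (.e (nat_lit 434247) (nat_lit 28) (.e (nat_lit 573478) (nat_lit 12) (.e (nat_lit 57353) (nat_lit 0) .nil)))))))) (.g (nat_lit 4) .nil .nil))))) (.nd (nat_lit 4) (.nd (nat_lit 5) 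
(.lf (nat_lit 125001) (.g (nat_lit 2684) (.e (nat_lit 7266) (nat_lit 384) (.e (nat_lit 57409) (nat_lit 12) (.e (nat_lit 336019) (nat_lit 3) (.e (nat_lit 98359) (nat_lit 26) (.e (nat_lit 426286) (nat_lit 10) (.e (nat_lit 434245) (nat_lit 28) (.e (nat_lit 573474) (nat_lit 12) (.e (nat_lit 57347) (nat_lit 0) .nil)))))))) (.g (nat_lit 4) .nil .nil))) 
(.lf (nat_lit 125033) (.g (nat_lit 1660) (.e (nat_lit 7266) (nat_lit 384) (.e (nat_lit 57412) (nat_lit 12) (.e (nat_lit 336060) (nat_lit 7) (.e (nat_lit 319533) (nat_lit 16) (.e (nat_lit 286753) (nat_lit 10) (.e (nat_lit 344160) (nat_lit 37) (.e (nat_lit 647201) (nat_lit 12) (.e (nat_lit 57351) (nat_lit 0) .nil)))))))) (.g (nat_lit 4) .nil .nil)))) (.nd (nat_lit 5) 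
(.lf (nat_lit 125017) (.g (nat_lit 1974) (.e (nat_lit 7266) (nat_lit 384) (.e (nat_lit 57409) (nat_lit 12) (.e (nat_lit 336211) (nat_lit 13) (.e (nat_lit 393298) (nat_lit 27) (.e (nat_lit 491560) (nat_lit 10) .nil))))) .nil)) 
(.lf (nat_lit 125049) (.g (nat_lit 1977) (.e (nat_lit 7266) (nat_lit 384) (.e (nat_lit 57415) (nat_lit 12) (.e (nat_lit 336217) (nat_lit 13) (.e (nat_lit 393233) (nat_lit 17) (.e (nat_lit 7593) (nat_lit 407) (.e (nat_lit 73731) (nat_lit 0) .nil)))))) (.g (nat_lit 0) .nil .nil)))))) (.nd (nat_lit 3) (.nd (nat_lit 4) (.nd (nat_lit 5) 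
(.lf (nat_lit 124997) (.g (nat_lit 3222) (.e (nat_lit 7266) (nat_lit 384) (.e (nat_lit 57406) (nat_lit 12) (.e (nat_lit 336454) (nat_lit 34) (.e (nat_lit 483376) (nat_lit 22) .nil)))) .nil)) 
(.lf (nat_lit 125029) (.g (nat_lit 3626) (.e (nat_lit 7266) (nat_lit 384) (.e (nat_lit 57409) (nat_lit 12) (.e (nat_lit 336211) (nat_lit 13) (.e (nat_lit 393301) (nat_lit 27) (.e (nat_lit 491559) (nat_lit 10) (.e (nat_lit 344091) (nat_lit 18) .nil)))))) (.g (nat_lit 5) .nil .nil)))) (.nd (nat_lit 5) 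
(.lf (nat_lit 125013) (.g (nat_lit 2419) (.e (nat_lit 7266) (nat_lit 384) (.e (nat_lit 57409) (nat_lit 12) (.e (nat_lit 336211) (nat_lit 13) (.e (nat_lit 393234) (nat_lit 17) (.e (nat_lit 7591) (nat_lit 407) (.e (nat_lit 73730) (nat_lit 0) .nil)))))) (.g (nat_lit 5) .nil .nil))) 
(.lf (nat_lit 125045) (.g (nat_lit 2292) (.e (nat_lit 7266) (nat_lit 384) (.e (nat_lit 57413) (nat_lit 12) (.e (nat_lit 336028) (nat_lit 3) (.e (nat_lit 98372) (nat_lit 29) (.e (nat_lit 450586) (nat_lit 10) (.e (nat_lit 573475) (nat_lit 12) (.e (nat_lit 57351) (nat_lit 0) .nil))))))) (.g (nat_lit 4) .nil .nil))))) (.nd (nat_lit 4) (.nd (nat_lit 5) 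
(.lf (nat_lit 125005) (.g (nat_lit 2000) (.e (nat_lit 7266) (nat_lit 384) (.e (nat_lit 57409) (nat_lit 12) (.e (nat_lit 336211) (nat_lit 13) (.e (nat_lit 393231) (nat_lit 17) (.e (nat_lit 7593) (nat_lit 407) (.e (nat_lit 73731) (nat_lit 0) .nil)))))) (.g (nat_lit 5) .nil .nil))) 
(.lf (nat_lit 125037) (.g (nat_lit 1303) (.e (nat_lit 7266) (nat_lit 384) (.e (nat_lit 57412) (nat_lit 12) (.e (nat_lit 336219) (nat_lit 13) (.e (nat_lit 393301) (nat_lit 27) (.e (nat_lit 491560) (nat_lit 10) .nil))))) .nil))) (.nd (nat_lit 5) 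
(.lf (nat_lit 125021) (.g (nat_lit 3024) (.e (nat_lit 7266) (nat_lit 384) (.e (nat_lit 57409) (nat_lit 12) (.e (nat_lit 336211) (nat_lit 13) (.e (nat_lit 393299) (nat_lit 27) (.e (nat_lit 491560) (nat_lit 10) (.e (nat_lit 344090) (nat_lit 18) .nil)))))) (.g (nat_lit 0) .nil .nil))) 
(.lf (nat_lit 125053) (.g (nat_lit 2510) (.e (nat_lit 7266) (nat_lit 384) (.e (nat_lit 57417) (nat_lit 12) (.e (nat_lit 336017) (nat_lit 3) (.e (nat_lit 98359) (nat_lit 26) (.e (nat_lit 426286) (nat_lit 10) (.e (nat_lit 434245) (nat_lit 28) (.e (nat_lit 573474) (nat_lit 12) (.e (nat_lit 57348) (nat_lit 0) .nil)))))))) (.g (nat_lit 4) .nil .nil))))))) 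
(.nd (nat_lit 2) (.nd (nat_lit 3) (.nd (nat_lit 4) (.nd (nat_lit 5) 
(.lf (nat_lit 124995) (.g (nat_lit 2164) (.e (nat_lit 7266) (nat_lit 384) (.e (nat_lit 57406) (nat_lit 12) (.e (nat_lit 336211) (nat_lit 13) (.e (nat_lit 393301) (nat_lit 27) (.e (nat_lit 491558) (nat_lit 10) .nil))))) .nil)) 
(.lf (nat_lit 125027) (.g (nat_lit 3929) (.e (nat_lit 7266) (nat_lit 384) (.e (nat_lit 57409) (nat_lit 12) (.e (nat_lit 336211) (nat_lit 13) (.e (nat_lit 393301) (nat_lit 27) (.e (nat_lit 491558) (nat_lit 10) (.e (nat_lit 344091) (nat_lit 18) .nil)))))) (.g (nat_lit 0) .nil .nil)))) (.nd (nat_lit 5) 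
(.lf (nat_lit 125011) (.g (nat_lit 3147) (.e (nat_lit 7266) (nat_lit 384) (.e (nat_lit 57409) (nat_lit 12) (.e (nat_lit 336211) (nat_lit 13) (.e (nat_lit 393233) (nat_lit 17) (.e (nat_lit 7593) (nat_lit 407) (.e (nat_lit 73729) (nat_lit 0) .nil)))))) (.g (nat_lit 0) .nil .nil))) 
(.lf (nat_lit 125043) (.g (nat_lit 2067) (.e (nat_lit 7266) (nat_lit 384) (.e (nat_lit 57413) (nat_lit 12) (.e (nat_lit 336028) (nat_lit 3) (.e (nat_lit 98372) (nat_lit 29) (.e (nat_lit 450586) (nat_lit 10) (.e (nat_lit 573473) (nat_lit 12) (.e (nat_lit 57353) (nat_lit 0) .nil))))))) (.g (nat_lit 4) .nil .nil))))) (.nd (nat_lit 4) (.nd (nat_lit 5) 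
(.lf (nat_lit 125003) (.g (nat_lit 468) (.e (nat_lit 7266) (nat_lit 384) (.e (nat_lit 57409) (nat_lit 12) (.e (nat_lit 336182) (nat_lit 11) .nil))) .nil)) 
(.lf (nat_lit 125035) (.g (nat_lit 486) (.e (nat_lit 7266) (nat_lit 384) (.e (nat_lit 57412) (nat_lit 12) (.e (nat_lit 336176) (nat_lit 10) .nil))) .nil))) (.nd (nat_lit 5) 
(.lf (nat_lit 125019) (.g (nat_lit 1869) (.e (nat_lit 7266) (nat_lit 384) (.e (nat_lit 57409) (nat_lit 12) (.e (nat_lit 336211) (nat_lit 13) (.e (nat_lit 393299) (nat_lit 27) (.e (nat_lit 491558) (nat_lit 10) (.e (nat_lit 344095) (nat_lit 18) .nil)))))) (.g (nat_lit 4) .nil .nil))) 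
(.lf (nat_lit 125051) (.g (nat_lit 596) (.e (nat_lit 7266) (nat_lit 384) (.e (nat_lit 57417) (nat_lit 12) (.e (nat_lit 336017) (nat_lit 3) .nil))) .nil))))) (.nd (nat_lit 3) (.nd (nat_lit 4) (.nd (nat_lit 5) 
(.lf (nat_lit 124999) (.g (nat_lit 2298) (.e (nat_lit 7266) (nat_lit 384) (.e (nat_lit 57406) (nat_lit 12) (.e (nat_lit 336456) (nat_lit 34) (.e (nat_lit 483376) (nat_lit 22) .nil)))) .nil)) 
(.lf (nat_lit 125031) (.g (nat_lit 3734) (.e (nat_lit 7266) (nat_lit 384) (.e (nat_lit 57409) (nat_lit 12) (.e (nat_lit 336211) (nat_lit 13) (.e (nat_lit 393301) (nat_lit 27) (.e (nat_lit 491560) (nat_lit 10) (.e (nat_lit 344094) (nat_lit 18) .nil)))))) (.g (nat_lit 6) .nil .nil)))) (.nd (nat_lit 5) 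
(.lf (nat_lit 125015) (.g (nat_lit 2932) (.e (nat_lit 7266) (nat_lit 384) (.e (nat_lit 57409) (nat_lit 12) (.e (nat_lit 336211) (nat_lit 13) (.e (nat_lit 393234) (nat_lit 17) (.e (nat_lit 7593) (nat_lit 407) (.e (nat_lit 73731) (nat_lit 0) .nil)))))) (.g (nat_lit 6) .nil .nil))) 
(.lf (nat_lit 125047) (.g (nat_lit 1097) (.e (nat_lit 7266) (nat_lit 384) (.e (nat_lit 57415) (nat_lit 12) (.e (nat_lit 336217) (nat_lit 13) (.e (nat_lit 393233) (nat_lit 17) (.e (nat_lit 7591) (nat_lit 407) (.e (nat_lit 73730) (nat_lit 0) .nil)))))) (.g (nat_lit 4) .nil .nil))))) (.nd (nat_lit 4) (.nd (nat_lit 5) 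
(.lf (nat_lit 125007) (.g (nat_lit 3303) (.e (nat_lit 7266) (nat_lit 384) (.e (nat_lit 57409) (nat_lit 12) (.e (nat_lit 336211) (nat_lit 13) (.e (nat_lit 393232) (nat_lit 17) (.e (nat_lit 7593) (nat_lit 407) (.e (nat_lit 73729) (nat_lit 0) .nil)))))) (.g (nat_lit 0) .nil .nil))) 
(.lf (nat_lit 125039) (.g (nat_lit 4010) (.e (nat_lit 7266) (nat_lit 384) (.e (nat_lit 57413) (nat_lit 12) (.e (nat_lit 336013) (nat_lit 2) (.e (nat_lit 90170) (nat_lit 13) (.e (nat_lit 172113) (nat_lit 10) (.e (nat_lit 434245) (nat_lit 28) (.e (nat_lit 573473) (nat_lit 12) (.e (nat_lit 57348) (nat_lit 0) .nil)))))))) (.g (nat_lit 5) .nil .nil)))) (.nd (nat_lit 5) 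
(.lf (nat_lit 125023) (.g (nat_lit 3166) (.e (nat_lit 7266) (nat_lit 384) (.e (nat_lit 57409) (nat_lit 12) (.e (nat_lit 336211) (nat_lit 13) (.e (nat_lit 393300) (nat_lit 27) (.e (nat_lit 491558) (nat_lit 10) (.e (nat_lit 344091) (nat_lit 18) .nil)))))) (.g (nat_lit 0) .nil .nil))) 
(.lf (nat_lit 125055) (.g (nat_lit 2522) (.e (nat_lit 7266) (nat_lit 384) (.e (nat_lit 57417) (nat_lit 12) (.e (nat_lit 336017) (nat_lit 3) (.e (nat_lit 98359) (nat_lit 26) (.e (nat_lit 426286) (nat_lit 10) (.e (nat_lit 434248) (nat_lit 28) (.e (nat_lit 573473) (nat_lit 12) (.e (nat_lit 57347) (nat_lit 0) .nil)))))))) (.g (nat_lit 4) .nil .nil)))))))))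

noncomputable def tv1677 : DT := (.nd (nat_lit 0) (.nd (nat_lit 1) (.nd (nat_lit 2) (.nd (nat_lit 3) (.nd (nat_lit 4) (.nd (nat_lit 5) 
(.lf (nat_lit 125056) (.g (nat_lit 3384) (.e (nat_lit 7266) (nat_lit 384) (.e (nat_lit 57417) (nat_lit 12) (.e (nat_lit 336017) (nat_lit 3) (.e (nat_lit 98359) (nat_lit 26) (.e (nat_lit 426286) (nat_lit 10) (.e (nat_lit 434248) (nat_lit 28) (.e (nat_lit 573475) (nat_lit 12) (.e (nat_lit 57347) (nat_lit 0) .nil)))))))) (.g (nat_lit 5) .nil .nil))) 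
(.lf (nat_lit 125088) (.g (nat_lit 3914) (.e (nat_lit 7266) (nat_lit 384) (.e (nat_lit 57417) (nat_lit 12) (.e (nat_lit 336209) (nat_lit 13) (.e (nat_lit 393301) (nat_lit 27) (.e (nat_lit 491558) (nat_lit 10) (.e (nat_lit 344091) (nat_lit 18) .nil)))))) (.g (nat_lit 6) .nil .nil)))) (.nd (nat_lit 5) 
(.lf (nat_lit 125072) (.g (nat_lit 1824) (.e (nat_lit 7266) (nat_lit 384) (.e (nat_lit 57417) (nat_lit 12) (.e (nat_lit 336209) (nat_lit 13) (.e (nat_lit 393232) (nat_lit 17) (.e (nat_lit 7591) (nat_lit 407) (.e (nat_lit 73730) (nat_lit 0) .nil)))))) (.g (nat_lit 4) .nil .nil))) 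
(.lf (nat_lit 125104) (.g (nat_lit 2100) (.e (nat_lit 7266) (nat_lit 384) (.e (nat_lit 57419) (nat_lit 12) (.e (nat_lit 336213) (nat_lit 13) (.e (nat_lit 393249) (nat_lit 17) (.e (nat_lit 7936) (nat_lit 407) (.e (nat_lit 73731) (nat_lit 0) .nil)))))) (.g (nat_lit 4) .nil .nil))))) (.nd (nat_lit 4) (.nd (nat_lit 5) 
(.lf (nat_lit 125064) (.g (nat_lit 3837) (.e (nat_lit 7266) (nat_lit 384) (.e (nat_lit 57417) (nat_lit 12) (.e (nat_lit 336017) (nat_lit 3) (.e (nat_lit 98373) (nat_lit 29) (.e (nat_lit 450587) (nat_lit 10) (.e (nat_lit 573477) (nat_lit 12) (.e (nat_lit 57351) (nat_lit 0) .nil))))))) (.g (nat_lit 5) .nil .nil))) 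
(.lf (nat_lit 125096) (.g (nat_lit 1887) (.e (nat_lit 7266) (nat_lit 384) (.e (nat_lit 57419) (nat_lit 12) (.e (nat_lit 336213) (nat_lit 13) (.e (nat_lit 393231) (nat_lit 17) (.e (nat_lit 7593) (nat_lit 407) (.e (nat_lit 73729) (nat_lit 0) .nil)))))) (.g (nat_lit 4) .nil .nil)))) (.nd (nat_lit 5) 
(.lf (nat_lit 125080) (.g (nat_lit 3131) (.e (nat_lit 7266) (nat_lit 384) (.e (nat_lit 57417) (nat_lit 12) (.e (nat_lit 336209) (nat_lit 13) (.e (nat_lit 393299) (nat_lit 27) (.e (nat_lit 491558) (nat_lit 10) (.e (nat_lit 344091) (nat_lit 18) .nil)))))) (.g (nat_lit 6) .nil .nil))) 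
(.lf (nat_lit 125112) (.g (nat_lit 3587) (.e (nat_lit 7266) (nat_lit 384) (.e (nat_lit 57419) (nat_lit 12) (.e (nat_lit 336213) (nat_lit 13) (.e (nat_lit 393300) (nat_lit 27) (.e (nat_lit 491558) (nat_lit 10) (.e (nat_lit 344096) (nat_lit 18) .nil)))))) (.g (nat_lit 0) .nil .nil)))))) (.nd (nat_lit 3) (.nd (nat_lit 4) (.nd (nat_lit 5) 
(.lf (nat_lit 125060) (.g (nat_lit 2175) (.e (nat_lit 7266) (nat_lit 384) (.e (nat_lit 57417) (nat_lit 12) (.e (nat_lit 336017) (nat_lit 3) (.e (nat_lit 98372) (nat_lit 29) (.e (nat_lit 450586) (nat_lit 10) (.e (nat_lit 573477) (nat_lit 12) (.e (nat_lit 57353) (nat_lit 0) .nil))))))) (.g (nat_lit 4) .nil .nil))) 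
(.lf (nat_lit 125092) (.g (nat_lit 3689) (.e (nat_lit 7266) (nat_lit 384) (.e (nat_lit 57417) (nat_lit 12) (.e (nat_lit 336209) (nat_lit 13) (.e (nat_lit 393301) (nat_lit 27) (.e (nat_lit 491560) (nat_lit 10) (.e (nat_lit 344094) (nat_lit 18) .nil)))))) (.g (nat_lit 6) .nil .nil)))) (.nd (nat_lit 5) 
(.lf (nat_lit 125076) (.g (nat_lit 2061) (.e (nat_lit 7266) (nat_lit 384) (.e (nat_lit 57417) (nat_lit 12) (.e (nat_lit 336209) (nat_lit 13) (.e (nat_lit 393233) (nat_lit 17) (.e (nat_lit 7593) (nat_lit 407) (.e (nat_lit 73730) (nat_lit 0) .nil)))))) (.g (nat_lit 5) .nil .nil))) 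
(.lf (nat_lit 125108) (.g (nat_lit 2687) (.e (nat_lit 7266) (nat_lit 384) (.e (nat_lit 57419) (nat_lit 12) (.e (nat_lit 336213) (nat_lit 13) (.e (nat_lit 393299) (nat_lit 27) (.e (nat_lit 491560) (nat_lit 10) (.e (nat_lit 344090) (nat_lit 18) .nil)))))) (.g (nat_lit 6) .nil .nil))))) (.nd (nat_lit 4) (.nd (nat_lit 5) 
(.lf (nat_lit 125068) (.g (nat_lit 3713) (.e (nat_lit 7266) (nat_lit 384) (.e (nat_lit 57417) (nat_lit 12) (.e (nat_lit 336017) (nat_lit 3) (.e (nat_lit 98373) (nat_lit 29) (.e (nat_lit 450588) (nat_lit 10) (.e (nat_lit 573473) (nat_lit 12) (.e (nat_lit 57352) (nat_lit 0) .nil))))))) (.g (nat_lit 5) .nil .nil))) 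
(.lf (nat_lit 125100) (.g (nat_lit 2331) (.e (nat_lit 7266) (nat_lit 384) (.e (nat_lit 57419) (nat_lit 12) (.e (nat_lit 336213) (nat_lit 13) (.e (nat_lit 393233) (nat_lit 17) (.e (nat_lit 7593) (nat_lit 407) (.e (nat_lit 73730) (nat_lit 0) .nil)))))) (.g (nat_lit 5) .nil .nil)))) (.nd (nat_lit 5) 
(.lf (nat_lit 125084) (.g (nat_lit 3181) (.e (nat_lit 7266) (nat_lit 384) (.e (nat_lit 57417) (nat_lit 12) (.e (nat_lit 336209) (nat_lit 13) (.e (nat_lit 393300) (nat_lit 27) (.e (nat_lit 491560) (nat_lit 10) (.e (nat_lit 344090) (nat_lit 18) .nil)))))) (.g (nat_lit 0) .nil .nil))) 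
(.lf (nat_lit 125116) (.g (nat_lit 4018) (.e (nat_lit 7266) (nat_lit 384) (.e (nat_lit 57419) (nat_lit 12) (.e (nat_lit 336213) (nat_lit 13) (.e (nat_lit 393301) (nat_lit 27) (.e (nat_lit 491560) (nat_lit 10) (.e (nat_lit 344090) (nat_lit 18) .nil)))))) (.g (nat_lit 5) .nil .nil))))))) (.nd (nat_lit 2) (.nd (nat_lit 3) (.nd (nat_lit 4) (.nd (nat_lit 5) 
(.lf (nat_lit 125058) (.g (nat_lit 2704) (.e (nat_lit 7266) (nat_lit 384) (.e (nat_lit 57417) (nat_lit 12) (.e (nat_lit 336017) (nat_lit 3) (.e (nat_lit 98372) (nat_lit 29) (.e (nat_lit 450586) (nat_lit 10) (.e (nat_lit 573473) (nat_lit 12) (.e (nat_lit 57348) (nat_lit 0) .nil))))))) (.g (nat_lit 5) .nil .nil))) 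
(.lf (nat_lit 125090) (.g (nat_lit 4024) (.e (nat_lit 7266) (nat_lit 384) (.e (nat_lit 57417) (nat_lit 12) (.e (nat_lit 336209) (nat_lit 13) (.e (nat_lit 393301) (nat_lit 27) (.e (nat_lit 491560) (nat_lit 10) (.e (nat_lit 344090) (nat_lit 18) .nil)))))) (.g (nat_lit 6) .nil .nil)))) (.nd (nat_lit 5) 
(.lf (nat_lit 125074) (.g (nat_lit 2074) (.e (nat_lit 7266) (nat_lit 384) (.e (nat_lit 57417) (nat_lit 12) (.e (nat_lit 336209) (nat_lit 13) (.e (nat_lit 393233) (nat_lit 17) (.e (nat_lit 7591) (nat_lit 407) (.e (nat_lit 73730) (nat_lit 0) .nil)))))) (.g (nat_lit 5) .nil .nil))) 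
(.lf (nat_lit 125106) (.g (nat_lit 2857) (.e (nat_lit 7266) (nat_lit 384) (.e (nat_lit 57419) (nat_lit 12) (.e (nat_lit 336213) (nat_lit 13) (.e (nat_lit 393299) (nat_lit 27) (.e (nat_lit 491558) (nat_lit 10) (.e (nat_lit 344091) (nat_lit 18) .nil)))))) (.g (nat_lit 5) .nil .nil))))) (.nd (nat_lit 4) (.nd (nat_lit 5) 
(.lf (nat_lit 125066) (.g (nat_lit 4384) (.e (nat_lit 7266) (nat_lit 384) (.e (nat_lit 57417) (nat_lit 12) (.e (nat_lit 336017) (nat_lit 3) (.e (nat_lit 98373) (nat_lit 29) (.e (nat_lit 450587) (nat_lit 10) (.e (nat_lit 573478) (nat_lit 12) (.e (nat_lit 57351) (nat_lit 0) .nil))))))) (.g (nat_lit 6) .nil .nil))) 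
(.lf (nat_lit 125098) (.g (nat_lit 2630) (.e (nat_lit 7266) (nat_lit 384) (.e (nat_lit 57419) (nat_lit 12) (.e (nat_lit 336213) (nat_lit 13) (.e (nat_lit 393232) (nat_lit 17) (.e (nat_lit 7593) (nat_lit 407) (.e (nat_lit 73729) (nat_lit 0) .nil)))))) (.g (nat_lit 5) .nil .nil)))) (.nd (nat_lit 5) 
(.lf (nat_lit 125082) (.g (nat_lit 3041) (.e (nat_lit 7266) (nat_lit 384) (.e (nat_lit 57417) (nat_lit 12) (.e (nat_lit 336209) (nat_lit 13) (.e (nat_lit 393299) (nat_lit 27) (.e (nat_lit 491560) (nat_lit 10) (.e (nat_lit 344090) (nat_lit 18) .nil)))))) (.g (nat_lit 0) .nil .nil))) 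
(.lf (nat_lit 125114) (.g (nat_lit 3144) (.e (nat_lit 7266) (nat_lit 384) (.e (nat_lit 57419) (nat_lit 12) (.e (nat_lit 336213) (nat_lit 13) (.e (nat_lit 393300) (nat_lit 27) (.e (nat_lit 491560) (nat_lit 10) (.e (nat_lit 344091) (nat_lit 18) .nil)))))) (.g (nat_lit 0) .nil .nil)))))) (.nd (nat_lit 3) (.nd (nat_lit 4) (.nd (nat_lit 5) 
(.lf (nat_lit 125062) (.g (nat_lit 5104) (.e (nat_lit 7266) (nat_lit 384) (.e (nat_lit 57417) (nat_lit 12) (.e (nat_lit 336017) (nat_lit 3) (.e (nat_lit 98373) (nat_lit 29) (.e (nat_lit 450587) (nat_lit 10) (.e (nat_lit 573472) (nat_lit 12) (.e (nat_lit 57347) (nat_lit 0) .nil))))))) (.g (nat_lit 5) .nil .nil))) 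
(.lf (nat_lit 125094) (.g (nat_lit 1750) (.e (nat_lit 7266) (nat_lit 384) (.e (nat_lit 57419) (nat_lit 12) (.e (nat_lit 336088) (nat_lit 9) (.e (nat_lit 336438) (nat_lit 31) (.e (nat_lit 466688) (nat_lit 5) (.e (nat_lit 73729) (nat_lit 0) .nil)))))) (.g (nat_lit 4) .nil .nil)))) (.nd (nat_lit 5) 
(.lf (nat_lit 125078) (.g (nat_lit 1983) (.e (nat_lit 7266) (nat_lit 384) (.e (nat_lit 57417) (nat_lit 12) (.e (nat_lit 336209) (nat_lit 13) (.e (nat_lit 393234) (nat_lit 17) (.e (nat_lit 7593) (nat_lit 407) (.e (nat_lit 73730) (nat_lit 0) .nil)))))) (.g (nat_lit 4) .nil .nil))) 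
(.lf (nat_lit 125110) (.g (nat_lit 2805) (.e (nat_lit 7266) (nat_lit 384) (.e (nat_lit 57419) (nat_lit 12) (.e (nat_lit 336213) (nat_lit 13) (.e (nat_lit 393299) (nat_lit 27) (.e (nat_lit 491560) (nat_lit 10) (.e (nat_lit 344096) (nat_lit 18) .nil)))))) (.g (nat_lit 5) .nil .nil))))) (.nd (nat_lit 4) (.nd (nat_lit 5) 
(.lf (nat_lit 125070) (.g (nat_lit 4897) (.e (nat_lit 7266) (nat_lit 384) (.e (nat_lit 57417) (nat_lit 12) (.e (nat_lit 336017) (nat_lit 3) (.e (nat_lit 98373) (nat_lit 29) (.e (nat_lit 450588) (nat_lit 10) (.e (nat_lit 573475) (nat_lit 12) (.e (nat_lit 57351) (nat_lit 0) .nil))))))) (.g (nat_lit 6) .nil .nil))) 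
(.lf (nat_lit 125102) (.g (nat_lit 2238) (.e (nat_lit 7266) (nat_lit 384) (.e (nat_lit 57419) (nat_lit 12) (.e (nat_lit 336213) (nat_lit 13) (.e (nat_lit 393234) (nat_lit 17) (.e (nat_lit 7593) (nat_lit 407) (.e (nat_lit 73729) (nat_lit 0) .nil)))))) (.g (nat_lit 4) .nil .nil)))) (.nd (nat_lit 5) 
(.lf (nat_lit 125086) (.g (nat_lit 2881) (.e (nat_lit 7266) (nat_lit 384) (.e (nat_lit 57417) (nat_lit 12) (.e (nat_lit 336209) (nat_lit 13) (.e (nat_lit 393300) (nat_lit 27) (.e (nat_lit 491560) (nat_lit 10) (.e (nat_lit 344094) (nat_lit 18) .nil)))))) (.g (nat_lit 6) .nil .nil))) 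
(.lf (nat_lit 125118) (.g (nat_lit 1753) (.e (nat_lit 7266) (nat_lit 384) (.e (nat_lit 57419) (nat_lit 12) (.e (nat_lit 336223) (nat_lit 13) (.e (nat_lit 393234) (nat_lit 17) (.e (nat_lit 7591) (nat_lit 407) .nil))))) .nil))))))) (.nd (nat_lit 1) (.nd (nat_lit 2) (.nd (nat_lit 3) (.nd (nat_lit 4) (.nd (nat_lit 5) 
(.lf (nat_lit 125057) (.g (nat_lit 3197) (.e (nat_lit 7266) (nat_lit 384) (.e (nat_lit 57417) (nat_lit 12) (.e (nat_lit 336017) (nat_lit 3) (.e (nat_lit 98372) (nat_lit 29) (.e (nat_lit 450586) (nat_lit 10) (.e (nat_lit 573473) (nat_lit 12) (.e (nat_lit 57347) (nat_lit 0) .nil))))))) (.g (nat_lit 5) .nil .nil))) 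
(.lf (nat_lit 125089) (.g (nat_lit 3849) (.e (nat_lit 7266) (nat_lit 384) (.e (nat_lit 57417) (nat_lit 12) (.e (nat_lit 336209) (nat_lit 13) (.e (nat_lit 393301) (nat_lit 27) (.e (nat_lit 491559) (nat_lit 10) (.e (nat_lit 344090) (nat_lit 18) .nil)))))) (.g (nat_lit 5) .nil .nil)))) (.nd (nat_lit 5) 
(.lf (nat_lit 125073) (.g (nat_lit 1722) (.e (nat_lit 7266) (nat_lit 384) (.e (nat_lit 57417) (nat_lit 12) (.e (nat_lit 336209) (nat_lit 13) (.e (nat_lit 393232) (nat_lit 17) (.e (nat_lit 7593) (nat_lit 407) (.e (nat_lit 73730) (nat_lit 0) .nil)))))) (.g (nat_lit 4) .nil .nil))) 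
(.lf (nat_lit 125105) (.g (nat_lit 2636) (.e (nat_lit 7266) (nat_lit 384) (.e (nat_lit 57419) (nat_lit 12) (.e (nat_lit 336213) (nat_lit 13) (.e (nat_lit 393299) (nat_lit 27) (.e (nat_lit 491558) (nat_lit 10) (.e (nat_lit 344090) (nat_lit 18) .nil)))))) (.g (nat_lit 5) .nil .nil))))) (.nd (nat_lit 4) (.nd (nat_lit 5) 
(.lf (nat_lit 125065) (.g (nat_lit 4359) (.e (nat_lit 7266) (nat_lit 384) (.e (nat_lit 57417) (nat_lit 12) (.e (nat_lit 336017) (nat_lit 3) (.e (nat_lit 98373) (nat_lit 29) (.e (nat_lit 450587) (nat_lit 10) (.e (nat_lit 573477) (nat_lit 12) (.e (nat_lit 57353) (nat_lit 0) .nil))))))) (.g (nat_lit 6) .nil .nil))) 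
(.lf (nat_lit 125097) (.g (nat_lit 2538) (.e (nat_lit 7266) (nat_lit 384) (.e (nat_lit 57419) (nat_lit 12) (.e (nat_lit 336213) (nat_lit 13) (.e (nat_lit 393232) (nat_lit 17) (.e (nat_lit 7591) (nat_lit 407) (.e (nat_lit 73729) (nat_lit 0) .nil)))))) (.g (nat_lit 5) .nil .nil)))) (.nd (nat_lit 5) 
(.lf (nat_lit 125081) (.g (nat_lit 1784) (.e (nat_lit 7266) (nat_lit 384) (.e (nat_lit 57417) (nat_lit 12) (.e (nat_lit 336209) (nat_lit 13) (.e (nat_lit 393299) (nat_lit 27) (.e (nat_lit 491558) (nat_lit 10) (.e (nat_lit 344095) (nat_lit 18) .nil)))))) (.g (nat_lit 4) .nil .nil))) 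
(.lf (nat_lit 125113) (.g (nat_lit 3360) (.e (nat_lit 7266) (nat_lit 384) (.e (nat_lit 57419) (nat_lit 12) (.e (nat_lit 336213) (nat_lit 13) (.e (nat_lit 393300) (nat_lit 27) (.e (nat_lit 491560) (nat_lit 10) (.e (nat_lit 344090) (nat_lit 18) .nil)))))) (.g (nat_lit 0) .nil .nil)))))) (.nd (nat_lit 3) (.nd (nat_lit 4) (.nd (nat_lit 5) 
(.lf (nat_lit 125061) (.g (nat_lit 1975) (.e (nat_lit 7266) (nat_lit 384) (.e (nat_lit 57417) (nat_lit 12) (.e (nat_lit 336017) (nat_lit 3) (.e (nat_lit 98372) (nat_lit 29) (.e (nat_lit 450586) (nat_lit 10) (.e (nat_lit 573478) (nat_lit 12) (.e (nat_lit 57351) (nat_lit 0) .nil))))))) (.g (nat_lit 4) .nil .nil))) 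
(.lf (nat_lit 125093) (.g (nat_lit 1819) (.e (nat_lit 7266) (nat_lit 384) (.e (nat_lit 57419) (nat_lit 12) (.e (nat_lit 336027) (nat_lit 3) (.e (nat_lit 98372) (nat_lit 29) (.e (nat_lit 450586) (nat_lit 10) .nil))))) .nil))) (.nd (nat_lit 5) 
(.lf (nat_lit 125077) (.g (nat_lit 2199) (.e (nat_lit 7266) (nat_lit 384) (.e (nat_lit 57417) (nat_lit 12) (.e (nat_lit 336209) (nat_lit 13) (.e (nat_lit 393234) (nat_lit 17) (.e (nat_lit 7591) (nat_lit 407) (.e (nat_lit 73730) (nat_lit 0) .nil)))))) (.g (nat_lit 5) .nil .nil))) 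
(.lf (nat_lit 125109) (.g (nat_lit 2448) (.e (nat_lit 7266) (nat_lit 384) (.e (nat_lit 57419) (nat_lit 12) (.e (nat_lit 336213) (nat_lit 13) (.e (nat_lit 393299) (nat_lit 27) (.e (nat_lit 491560) (nat_lit 10) (.e (nat_lit 344091) (nat_lit 18) .nil)))))) (.g (nat_lit 5) .nil .nil))))) (.nd (nat_lit 4) (.nd (nat_lit 5) 
(.lf (nat_lit 125069) (.g (nat_lit 4711) (.e (nat_lit 7266) (nat_lit 384) (.e (nat_lit 57417) (nat_lit 12) (.e (nat_lit 336017) (nat_lit 3) (.e (nat_lit 98373) (nat_lit 29) (.e (nat_lit 450588) (nat_lit 10) (.e (nat_lit 573475) (nat_lit 12) (.e (nat_lit 57348) (nat_lit 0) .nil))))))) (.g (nat_lit 6) .nil .nil))) 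
(.lf (nat_lit 125101) (.g (nat_lit 2064) (.e (nat_lit 7266) (nat_lit 384) (.e (nat_lit 57419) (nat_lit 12) (.e (nat_lit 336213) (nat_lit 13) (.e (nat_lit 393234) (nat_lit 17) (.e (nat_lit 7591) (nat_lit 407) (.e (nat_lit 73731) (nat_lit 0) .nil)))))) (.g (nat_lit 4) .nil .nil)))) (.nd (nat_lit 5) 
(.lf (nat_lit 125085) (.g (nat_lit 2970) (.e (nat_lit 7266) (nat_lit 384) (.e (nat_lit 57417) (nat_lit 12) (.e (nat_lit 336209) (nat_lit 13) (.e (nat_lit 393300) (nat_lit 27) (.e (nat_lit 491560) (nat_lit 10) (.e (nat_lit 344091) (nat_lit 18) .nil)))))) (.g (nat_lit 0) .nil .nil))) 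
(.lf (nat_lit 125117) (.g (nat_lit 3646) (.e (nat_lit 7266) (nat_lit 384) (.e (nat_lit 57419) (nat_lit 12) (.e (nat_lit 336213) (nat_lit 13) (.e (nat_lit 393301) (nat_lit 27) (.e (nat_lit 491560) (nat_lit 10) (.e (nat_lit 344094) (nat_lit 18) .nil)))))) (.g (nat_lit 5) .nil .nil))))))) (.nd (nat_lit 2) (.nd (nat_lit 3) (.nd (nat_lit 4) (.nd (nat_lit 5) 
(.lf (nat_lit 125059) (.g (nat_lit 2668) (.e (nat_lit 7266) (nat_lit 384) (.e (nat_lit 57417) (nat_lit 12) (.e (nat_lit 336017) (nat_lit 3) (.e (nat_lit 98372) (nat_lit 29) (.e (nat_lit 450586) (nat_lit 10) (.e (nat_lit 573473) (nat_lit 12) (.e (nat_lit 57353) (nat_lit 0) .nil))))))) (.g (nat_lit 5) .nil .nil))) 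
(.lf (nat_lit 125091) (.g (nat_lit 3166) (.e (nat_lit 7266) (nat_lit 384) (.e (nat_lit 57417) (nat_lit 12) (.e (nat_lit 336209) (nat_lit 13) (.e (nat_lit 393301) (nat_lit 27) (.e (nat_lit 491560) (nat_lit 10) (.e (nat_lit 344091) (nat_lit 18) .nil)))))) (.g (nat_lit 5) .nil .nil)))) (.nd (nat_lit 5) 
(.lf (nat_lit 125075) (.g (nat_lit 3065) (.e (nat_lit 7266) (nat_lit 384) (.e (nat_lit 57417) (nat_lit 12) (.e (nat_lit 336209) (nat_lit 13) (.e (nat_lit 393233) (nat_lit 17) (.e (nat_lit 7593) (nat_lit 407) (.e (nat_lit 73729) (nat_lit 0) .nil)))))) (.g (nat_lit 0) .nil .nil))) 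
(.lf (nat_lit 125107) (.g (nat_lit 3023) (.e (nat_lit 7266) (nat_lit 384) (.e (nat_lit 57419) (nat_lit 12) (.e (nat_lit 336213) (nat_lit 13) (.e (nat_lit 393299) (nat_lit 27) (.e (nat_lit 491558) (nat_lit 10) (.e (nat_lit 344096) (nat_lit 18) .nil)))))) (.g (nat_lit 5) .nil .nil))))) (.nd (nat_lit 4) (.nd (nat_lit 5) 
(.lf (nat_lit 125067) (.g (nat_lit 4103) (.e (nat_lit 7266) (nat_lit 384) (.e (nat_lit 57417) (nat_lit 12) (.e (nat_lit 336017) (nat_lit 3) (.e (nat_lit 98373) (nat_lit 29) (.e (nat_lit 450587) (nat_lit 10) (.e (nat_lit 573478) (nat_lit 12) (.e (nat_lit 57353) (nat_lit 0) .nil))))))) (.g (nat_lit 6) .nil .nil))) 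
(.lf (nat_lit 125099) (.g (nat_lit 2361) (.e (nat_lit 7266) (nat_lit 384) (.e (nat_lit 57419) (nat_lit 12) (.e (nat_lit 336213) (nat_lit 13) (.e (nat_lit 393233) (nat_lit 17) (.e (nat_lit 7591) (nat_lit 407) (.e (nat_lit 73730) (nat_lit 0) .nil)))))) (.g (nat_lit 5) .nil .nil)))) (.nd (nat_lit 5) 
(.lf (nat_lit 125083) (.g (nat_lit 2571) (.e (nat_lit 7266) (nat_lit 384) (.e (nat_lit 57417) (nat_lit 12) (.e (nat_lit 336209) (nat_lit 13) (.e (nat_lit 393299) (nat_lit 27) (.e (nat_lit 491560) (nat_lit 10) (.e (nat_lit 344094) (nat_lit 18) .nil)))))) (.g (nat_lit 5) .nil .nil))) 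
(.lf (nat_lit 125115) (.g (nat_lit 3134) (.e (nat_lit 7266) (nat_lit 384) (.e (nat_lit 57419) (nat_lit 12) (.e (nat_lit 336213) (nat_lit 13) (.e (nat_lit 393300) (nat_lit 27) (.e (nat_lit 491560) (nat_lit 10) (.e (nat_lit 344094) (nat_lit 18) .nil)))))) (.g (nat_lit 0) .nil .nil)))))) (.nd (nat_lit 3) (.nd (nat_lit 4) (.nd (nat_lit 5) 
(.lf (nat_lit 125063) (.g (nat_lit 5950) (.e (nat_lit 7266) (nat_lit 384) (.e (nat_lit 57417) (nat_lit 12) (.e (nat_lit 336017) (nat_lit 3) (.e (nat_lit 98373) (nat_lit 29) (.e (nat_lit 450587) (nat_lit 10) (.e (nat_lit 573473) (nat_lit 12) (.e (nat_lit 57347) (nat_lit 0) .nil))))))) (.g (nat_lit 6) .nil .nil))) 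
(.lf (nat_lit 125095) (.g (nat_lit 1456) (.e (nat_lit 7266) (nat_lit 384) (.e (nat_lit 57419) (nat_lit 12) (.e (nat_lit 336213) (nat_lit 13) (.e (nat_lit 393231) (nat_lit 17) .nil)))) .nil))) (.nd (nat_lit 5) 
(.lf (nat_lit 125079) (.g (nat_lit 637) (.e (nat_lit 7266) (nat_lit 384) (.e (nat_lit 57417) (nat_lit 12) (.e (nat_lit 336209) (nat_lit 13) (.e (nat_lit 393240) (nat_lit 17) .nil)))) .nil)) 
(.lf (nat_lit 125111) (.g (nat_lit 2386) (.e (nat_lit 7266) (nat_lit 384) (.e (nat_lit 57419) (nat_lit 12) (.e (nat_lit 336213) (nat_lit 13) (.e (nat_lit 393300) (nat_lit 27) (.e (nat_lit 491558) (nat_lit 10) (.e (nat_lit 344095) (nat_lit 18) .nil)))))) (.g (nat_lit 5) .nil .nil))))) (.nd (nat_lit 4) (.nd (nat_lit 5) 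
(.lf (nat_lit 125071) (.g (nat_lit 762) (.e (nat_lit 7266) (nat_lit 384) (.e (nat_lit 57417) (nat_lit 12) (.e (nat_lit 336118) (nat_lit 9) (.e (nat_lit 336435) (nat_lit 31) .nil)))) .nil)) 
(.lf (nat_lit 125103) (.g (nat_lit 2012) (.e (nat_lit 7266) (nat_lit 384) (.e (nat_lit 57419) (nat_lit 12) (.e (nat_lit 336213) (nat_lit 13) (.e (nat_lit 393249) (nat_lit 17) (.e (nat_lit 7936) (nat_lit 407) (.e (nat_lit 73729) (nat_lit 0) .nil)))))) (.g (nat_lit 4) .nil .nil)))) (.nd (nat_lit 5) 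
(.lf (nat_lit 125087) (.g (nat_lit 1510) (.e (nat_lit 7266) (nat_lit 384) (.e (nat_lit 57417) (nat_lit 12) (.e (nat_lit 336209) (nat_lit 13) (.e (nat_lit 393301) (nat_lit 27) (.e (nat_lit 491558) (nat_lit 10) .nil))))) .nil)) 
(.lf (nat_lit 125119) (.g (nat_lit 1729) (.e (nat_lit 7266) (nat_lit 384) (.e (nat_lit 57419) (nat_lit 12) (.e (nat_lit 336223) (nat_lit 13) (.e (nat_lit 393234) (nat_lit 17) (.e (nat_lit 7593) (nat_lit 407) .nil))))) .nil))))))))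

noncomputable def tv1678 : DT := (.nd (nat_lit 0) (.nd (nat_lit 1) (.nd (nat_lit 2) (.nd (nat_lit 3) (.nd (nat_lit 4) (.nd (nat_lit 5) 
(.lf (nat_lit 125120) (.g (nat_lit 2537) (.e (nat_lit 7266) (nat_lit 384) (.e (nat_lit 65280) (nat_lit 12) (.e (nat_lit 336027) (nat_lit 3) (.e (nat_lit 98372) (nat_lit 29) (.e (nat_lit 450586) (nat_lit 10) (.e (nat_lit 573478) (nat_lit 12) (.e (nat_lit 57353) (nat_lit 0) .nil))))))) (.g (nat_lit 6) .nil .nil))) 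
(.lf (nat_lit 125152) (.g (nat_lit 2633) (.e (nat_lit 7266) (nat_lit 384) (.e (nat_lit 57421) (nat_lit 13) (.e (nat_lit 344117) (nat_lit 21) (.e (nat_lit 516166) (nat_lit 12) (.e (nat_lit 450587) (nat_lit 10) (.e (nat_lit 573477) (nat_lit 12) (.e (nat_lit 57351) (nat_lit 0) .nil))))))) (.g (nat_lit 5) .nil .nil)))) (.nd (nat_lit 5) 
(.lf (nat_lit 125136) (.g (nat_lit 4302) (.e (nat_lit 7266) (nat_lit 384) (.e (nat_lit 57420) (nat_lit 13) (.e (nat_lit 344117) (nat_lit 21) (.e (nat_lit 516166) (nat_lit 12) (.e (nat_lit 450588) (nat_lit 10) (.e (nat_lit 573473) (nat_lit 12) (.e (nat_lit 57348) (nat_lit 0) .nil))))))) (.g (nat_lit 0) .nil .nil))) 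
(.lf (nat_lit 125168) (.g (nat_lit 1668) (.e (nat_lit 7266) (nat_lit 384) (.e (nat_lit 57423) (nat_lit 14) (.e (nat_lit 352272) (nat_lit 10) (.e (nat_lit 417796) (nat_lit 0) (.e (nat_lit 5413) (nat_lit 303) (.e (nat_lit 73730) (nat_lit 0) .nil)))))) (.g (nat_lit 4) .nil .nil))))) (.nd (nat_lit 4) (.nd (nat_lit 5) 
(.lf (nat_lit 125128) (.g (nat_lit 4344) (.e (nat_lit 7266) (nat_lit 384) (.e (nat_lit 57420) (nat_lit 13) (.e (nat_lit 344117) (nat_lit 21) (.e (nat_lit 516151) (nat_lit 9) (.e (nat_lit 426286) (nat_lit 10) (.e (nat_lit 434248) (nat_lit 28) (.e (nat_lit 573473) (nat_lit 12) (.e (nat_lit 57353) (nat_lit 0) .nil)))))))) (.g (nat_lit 0) .nil .nil))) 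
(.lf (nat_lit 125160) (.g (nat_lit 1493) (.e (nat_lit 7266) (nat_lit 384) (.e (nat_lit 57423) (nat_lit 14) (.e (nat_lit 352272) (nat_lit 10) (.e (nat_lit 417794) (nat_lit 0) (.e (nat_lit 5412) (nat_lit 303) (.e (nat_lit 81664) (nat_lit 0) .nil)))))) (.g (nat_lit 5) .nil .nil)))) (.nd (nat_lit 5) 
(.lf (nat_lit 125144) (.g (nat_lit 4415) (.e (nat_lit 7266) (nat_lit 384) (.e (nat_lit 57421) (nat_lit 13) (.e (nat_lit 344117) (nat_lit 21) (.e (nat_lit 516151) (nat_lit 9) (.e (nat_lit 426286) (nat_lit 10) (.e (nat_lit 434248) (nat_lit 28) (.e (nat_lit 573473) (nat_lit 12) (.e (nat_lit 57348) (nat_lit 0) .nil)))))))) (.g (nat_lit 0) .nil .nil))) 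
(.lf (nat_lit 125176) (.g (nat_lit 1989) (.e (nat_lit 7266) (nat_lit 384) (.e (nat_lit 57423) (nat_lit 14) (.e (nat_lit 352277) (nat_lit 11) (.e (nat_lit 426009) (nat_lit 0) (.e (nat_lit 7591) (nat_lit 407) (.e (nat_lit 73730) (nat_lit 0) .nil)))))) (.g (nat_lit 4) .nil .nil)))))) (.nd (nat_lit 3) (.nd (nat_lit 4) (.nd (nat_lit 5) 
(.lf (nat_lit 125124) (.g (nat_lit 3202) (.e (nat_lit 7266) (nat_lit 384) (.e (nat_lit 65280) (nat_lit 12) (.e (nat_lit 336027) (nat_lit 3) (.e (nat_lit 98373) (nat_lit 29) (.e (nat_lit 450587) (nat_lit 10) (.e (nat_lit 573478) (nat_lit 12) (.e (nat_lit 57353) (nat_lit 0) .nil))))))) (.g (nat_lit 6) .nil .nil))) 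
(.lf (nat_lit 125156) (.g (nat_lit 4194) (.e (nat_lit 7266) (nat_lit 384) (.e (nat_lit 57421) (nat_lit 13) (.e (nat_lit 344117) (nat_lit 21) (.e (nat_lit 516166) (nat_lit 12) (.e (nat_lit 450588) (nat_lit 10) (.e (nat_lit 573473) (nat_lit 12) (.e (nat_lit 57353) (nat_lit 0) .nil))))))) (.g (nat_lit 0) .nil .nil)))) (.nd (nat_lit 5) 
(.lf (nat_lit 125140) (.g (nat_lit 4187) (.e (nat_lit 7266) (nat_lit 384) (.e (nat_lit 57421) (nat_lit 13) (.e (nat_lit 344117) (nat_lit 21) (.e (nat_lit 516151) (nat_lit 9) (.e (nat_lit 426286) (nat_lit 10) (.e (nat_lit 434245) (nat_lit 28) (.e (nat_lit 573473) (nat_lit 12) (.e (nat_lit 57353) (nat_lit 0) .nil)))))))) (.g (nat_lit 0) .nil .nil))) 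
(.lf (nat_lit 125172) (.g (nat_lit 1606) (.e (nat_lit 7266) (nat_lit 384) (.e (nat_lit 57423) (nat_lit 14) (.e (nat_lit 352273) (nat_lit 11) (.e (nat_lit 426343) (nat_lit 14) (.e (nat_lit 491558) (nat_lit 10) .nil))))) .nil)))) (.nd (nat_lit 4) (.nd (nat_lit 5) 
(.lf (nat_lit 125132) (.g (nat_lit 3699) (.e (nat_lit 7266) (nat_lit 384) (.e (nat_lit 57420) (nat_lit 13) (.e (nat_lit 344117) (nat_lit 21) (.e (nat_lit 516165) (nat_lit 12) (.e (nat_lit 450586) (nat_lit 10) (.e (nat_lit 573475) (nat_lit 12) (.e (nat_lit 57348) (nat_lit 0) .nil))))))) (.g (nat_lit 6) .nil .nil))) 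
(.lf (nat_lit 125164) (.g (nat_lit 1521) (.e (nat_lit 7266) (nat_lit 384) (.e (nat_lit 57423) (nat_lit 14) (.e (nat_lit 352272) (nat_lit 10) (.e (nat_lit 417795) (nat_lit 0) (.e (nat_lit 5413) (nat_lit 303) (.e (nat_lit 73730) (nat_lit 0) .nil)))))) (.g (nat_lit 4) .nil .nil)))) (.nd (nat_lit 5) 
(.lf (nat_lit 125148) (.g (nat_lit 3844) (.e (nat_lit 7266) (nat_lit 384) (.e (nat_lit 57421) (nat_lit 13) (.e (nat_lit 344117) (nat_lit 21) (.e (nat_lit 516165) (nat_lit 12) (.e (nat_lit 450586) (nat_lit 10) (.e (nat_lit 573473) (nat_lit 12) (.e (nat_lit 57353) (nat_lit 0) .nil))))))) (.g (nat_lit 0) .nil .nil))) 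
(.lf (nat_lit 125180) (.g (nat_lit 3025) (.e (nat_lit 7266) (nat_lit 384) (.e (nat_lit 57423) (nat_lit 14) (.e (nat_lit 352277) (nat_lit 11) (.e (nat_lit 426011) (nat_lit 0) (.e (nat_lit 7591) (nat_lit 407) (.e (nat_lit 73730) (nat_lit 0) .nil)))))) (.g (nat_lit 5) .nil .nil))))))) (.nd (nat_lit 2) (.nd (nat_lit 3) (.nd (nat_lit 4) (.nd (nat_lit 5) 
(.lf (nat_lit 125122) (.g (nat_lit 4001) (.e (nat_lit 7266) (nat_lit 384) (.e (nat_lit 65280) (nat_lit 12) (.e (nat_lit 336027) (nat_lit 3) (.e (nat_lit 98373) (nat_lit 29) (.e (nat_lit 450587) (nat_lit 10) (.e (nat_lit 573475) (nat_lit 12) (.e (nat_lit 57345) (nat_lit 0) .nil))))))) (.g (nat_lit 6) .nil .nil))) 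
(.lf (nat_lit 125154) (.g (nat_lit 3193) (.e (nat_lit 7266) (nat_lit 384) (.e (nat_lit 57421) (nat_lit 13) (.e (nat_lit 344117) (nat_lit 21) (.e (nat_lit 516166) (nat_lit 12) (.e (nat_lit 450587) (nat_lit 10) (.e (nat_lit 573478) (nat_lit 12) (.e (nat_lit 57353) (nat_lit 0) .nil))))))) (.g (nat_lit 7) .nil .nil)))) (.nd (nat_lit 5) 
(.lf (nat_lit 125138) (.g (nat_lit 4359) (.e (nat_lit 7266) (nat_lit 384) (.e (nat_lit 57420) (nat_lit 13) (.e (nat_lit 344117) (nat_lit 21) (.e (nat_lit 516166) (nat_lit 12) (.e (nat_lit 450588) (nat_lit 10) (.e (nat_lit 573475) (nat_lit 12) (.e (nat_lit 57348) (nat_lit 0) .nil))))))) (.g (nat_lit 7) .nil .nil))) 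
(.lf (nat_lit 125170) (.g (nat_lit 1619) (.e (nat_lit 7266) (nat_lit 384) (.e (nat_lit 57423) (nat_lit 14) (.e (nat_lit 352272) (nat_lit 10) (.e (nat_lit 417811) (nat_lit 6) (.e (nat_lit 286751) (nat_lit 10) (.e (nat_lit 344096) (nat_lit 18) .nil)))))) (.g (nat_lit 4) .nil .nil))))) (.nd (nat_lit 4) (.nd (nat_lit 5) 
(.lf (nat_lit 125130) (.g (nat_lit 4285) (.e (nat_lit 7266) (nat_lit 384) (.e (nat_lit 57420) (nat_lit 13) (.e (nat_lit 344117) (nat_lit 21) (.e (nat_lit 516151) (nat_lit 9) (.e (nat_lit 426286) (nat_lit 10) (.e (nat_lit 434248) (nat_lit 28) (.e (nat_lit 573475) (nat_lit 12) (.e (nat_lit 57353) (nat_lit 0) .nil)))))))) (.g (nat_lit 7) .nil .nil))) 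
(.lf (nat_lit 125162) (.g (nat_lit 1518) (.e (nat_lit 7266) (nat_lit 384) (.e (nat_lit 57423) (nat_lit 14) (.e (nat_lit 352272) (nat_lit 10) (.e (nat_lit 417795) (nat_lit 0) (.e (nat_lit 5410) (nat_lit 303) (.e (nat_lit 81664) (nat_lit 0) .nil)))))) (.g (nat_lit 5) .nil .nil)))) (.nd (nat_lit 5) 
(.lf (nat_lit 125146) (.g (nat_lit 4681) (.e (nat_lit 7266) (nat_lit 384) (.e (nat_lit 57421) (nat_lit 13) (.e (nat_lit 344117) (nat_lit 21) (.e (nat_lit 516151) (nat_lit 9) (.e (nat_lit 426286) (nat_lit 10) (.e (nat_lit 434248) (nat_lit 28) (.e (nat_lit 573475) (nat_lit 12) (.e (nat_lit 57348) (nat_lit 0) .nil)))))))) (.g (nat_lit 8) .nil .nil))) 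
(.lf (nat_lit 125178) (.g (nat_lit 2145) (.e (nat_lit 7266) (nat_lit 384) (.e (nat_lit 57423) (nat_lit 14) (.e (nat_lit 352277) (nat_lit 11) (.e (nat_lit 426010) (nat_lit 0) (.e (nat_lit 7591) (nat_lit 407) (.e (nat_lit 73730) (nat_lit 0) .nil)))))) (.g (nat_lit 4) .nil .nil)))))) (.nd (nat_lit 3) (.nd (nat_lit 4) (.nd (nat_lit 5) 
(.lf (nat_lit 125126) (.g (nat_lit 2808) (.e (nat_lit 7266) (nat_lit 384) (.e (nat_lit 57420) (nat_lit 13) (.e (nat_lit 344117) (nat_lit 21) (.e (nat_lit 516151) (nat_lit 9) (.e (nat_lit 426286) (nat_lit 10) (.e (nat_lit 434247) (nat_lit 28) (.e (nat_lit 573477) (nat_lit 12) (.e (nat_lit 57352) (nat_lit 0) .nil)))))))) (.g (nat_lit 5) .nil .nil))) 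
(.lf (nat_lit 125158) (.g (nat_lit 1745) (.e (nat_lit 7266) (nat_lit 384) (.e (nat_lit 57421) (nat_lit 13) (.e (nat_lit 344130) (nat_lit 26) (.e (nat_lit 557104) (nat_lit 14) (.e (nat_lit 180233) (nat_lit 0) .nil))))) .nil))) (.nd (nat_lit 5) 
(.lf (nat_lit 125142) (.g (nat_lit 2082) (.e (nat_lit 7266) (nat_lit 384) (.e (nat_lit 57421) (nat_lit 13) (.e (nat_lit 344117) (nat_lit 21) (.e (nat_lit 516151) (nat_lit 9) (.e (nat_lit 426286) (nat_lit 10) (.e (nat_lit 434247) (nat_lit 28) (.e (nat_lit 573478) (nat_lit 12) (.e (nat_lit 57352) (nat_lit 0) .nil)))))))) (.g (nat_lit 4) .nil .nil))) 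
(.lf (nat_lit 125174) (.g (nat_lit 2320) (.e (nat_lit 7266) (nat_lit 384) (.e (nat_lit 57423) (nat_lit 14) (.e (nat_lit 352275) (nat_lit 11) (.e (nat_lit 426343) (nat_lit 14) (.e (nat_lit 491560) (nat_lit 10) .nil))))) .nil)))) (.nd (nat_lit 4) (.nd (nat_lit 5) 
(.lf (nat_lit 125134) (.g (nat_lit 3170) (.e (nat_lit 7266) (nat_lit 384) (.e (nat_lit 57420) (nat_lit 13) (.e (nat_lit 344117) (nat_lit 21) (.e (nat_lit 516166) (nat_lit 12) (.e (nat_lit 450587) (nat_lit 10) (.e (nat_lit 573478) (nat_lit 12) (.e (nat_lit 57353) (nat_lit 0) .nil))))))) (.g (nat_lit 7) .nil .nil))) 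
(.lf (nat_lit 125166) (.g (nat_lit 1650) (.e (nat_lit 7266) (nat_lit 384) (.e (nat_lit 57423) (nat_lit 14) (.e (nat_lit 352272) (nat_lit 10) (.e (nat_lit 417796) (nat_lit 0) (.e (nat_lit 5410) (nat_lit 303) (.e (nat_lit 81664) (nat_lit 0) .nil)))))) (.g (nat_lit 5) .nil .nil)))) (.nd (nat_lit 5) 
(.lf (nat_lit 125150) (.g (nat_lit 2098) (.e (nat_lit 7266) (nat_lit 384) (.e (nat_lit 57421) (nat_lit 13) (.e (nat_lit 344117) (nat_lit 21) (.e (nat_lit 516165) (nat_lit 12) (.e (nat_lit 450586) (nat_lit 10) (.e (nat_lit 573477) (nat_lit 12) (.e (nat_lit 57352) (nat_lit 0) .nil))))))) (.g (nat_lit 4) .nil .nil))) 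
(.lf (nat_lit 125182) (.g (nat_lit 2523) (.e (nat_lit 7266) (nat_lit 384) (.e (nat_lit 57423) (nat_lit 14) (.e (nat_lit 352277) (nat_lit 11) (.e (nat_lit 426012) (nat_lit 0) (.e (nat_lit 7591) (nat_lit 407) (.e (nat_lit 73730) (nat_lit 0) .nil)))))) (.g (nat_lit 5) .nil .nil)))))))) (.nd (nat_lit 1) (.nd (nat_lit 2) (.nd (nat_lit 3) (.nd (nat_lit 4) (.nd (nat_lit 5) 
(.lf (nat_lit 125121) (.g (nat_lit 4288) (.e (nat_lit 7266) (nat_lit 384) (.e (nat_lit 65280) (nat_lit 12) (.e (nat_lit 336027) (nat_lit 3) (.e (nat_lit 98373) (nat_lit 29) (.e (nat_lit 450587) (nat_lit 10) (.e (nat_lit 573473) (nat_lit 12) (.e (nat_lit 57353) (nat_lit 0) .nil))))))) (.g (nat_lit 6) .nil .nil))) 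
(.lf (nat_lit 125153) (.g (nat_lit 2126) (.e (nat_lit 7266) (nat_lit 384) (.e (nat_lit 57421) (nat_lit 13) (.e (nat_lit 344117) (nat_lit 21) (.e (nat_lit 516166) (nat_lit 12) (.e (nat_lit 450587) (nat_lit 10) (.e (nat_lit 573477) (nat_lit 12) (.e (nat_lit 57352) (nat_lit 0) .nil))))))) (.g (nat_lit 4) .nil .nil)))) (.nd (nat_lit 5) 
(.lf (nat_lit 125137) (.g (nat_lit 4162) (.e (nat_lit 7266) (nat_lit 384) (.e (nat_lit 57420) (nat_lit 13) (.e (nat_lit 344117) (nat_lit 21) (.e (nat_lit 516166) (nat_lit 12) (.e (nat_lit 450588) (nat_lit 10) (.e (nat_lit 573473) (nat_lit 12) (.e (nat_lit 57353) (nat_lit 0) .nil))))))) (.g (nat_lit 0) .nil .nil))) 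
(.lf (nat_lit 125169) (.g (nat_lit 1179) (.e (nat_lit 7266) (nat_lit 384) (.e (nat_lit 57423) (nat_lit 14) (.e (nat_lit 352272) (nat_lit 10) (.e (nat_lit 417796) (nat_lit 0) (.e (nat_lit 5413) (nat_lit 303) (.e (nat_lit 81664) (nat_lit 0) .nil)))))) (.g (nat_lit 4) .nil .nil))))) (.nd (nat_lit 4) (.nd (nat_lit 5) 
(.lf (nat_lit 125129) (.g (nat_lit 4726) (.e (nat_lit 7266) (nat_lit 384) (.e (nat_lit 57420) (nat_lit 13) (.e (nat_lit 344117) (nat_lit 21) (.e (nat_lit 516151) (nat_lit 9) (.e (nat_lit 426286) (nat_lit 10) (.e (nat_lit 434248) (nat_lit 28) (.e (nat_lit 573475) (nat_lit 12) (.e (nat_lit 57348) (nat_lit 0) .nil)))))))) (.g (nat_lit 8) .nil .nil))) 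
(.lf (nat_lit 125161) (.g (nat_lit 1349) (.e (nat_lit 7266) (nat_lit 384) (.e (nat_lit 57423) (nat_lit 14) (.e (nat_lit 352272) (nat_lit 10) (.e (nat_lit 417795) (nat_lit 0) (.e (nat_lit 5409) (nat_lit 303) (.e (nat_lit 81664) (nat_lit 0) .nil)))))) (.g (nat_lit 4) .nil .nil)))) (.nd (nat_lit 5) 
(.lf (nat_lit 125145) (.g (nat_lit 4300) (.e (nat_lit 7266) (nat_lit 384) (.e (nat_lit 57421) (nat_lit 13) (.e (nat_lit 344117) (nat_lit 21) (.e (nat_lit 516151) (nat_lit 9) (.e (nat_lit 426286) (nat_lit 10) (.e (nat_lit 434248) (nat_lit 28) (.e (nat_lit 573473) (nat_lit 12) (.e (nat_lit 57353) (nat_lit 0) .nil)))))))) (.g (nat_lit 0) .nil .nil))) 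
(.lf (nat_lit 125177) (.g (nat_lit 1973) (.e (nat_lit 7266) (nat_lit 384) (.e (nat_lit 57423) (nat_lit 14) (.e (nat_lit 352277) (nat_lit 11) (.e (nat_lit 426009) (nat_lit 0) (.e (nat_lit 7593) (nat_lit 407) (.e (nat_lit 73730) (nat_lit 0) .nil)))))) (.g (nat_lit 4) .nil .nil)))))) (.nd (nat_lit 3) (.nd (nat_lit 4) (.nd (nat_lit 5) 
(.lf (nat_lit 125125) (.g (nat_lit 4231) (.e (nat_lit 7266) (nat_lit 384) (.e (nat_lit 57420) (nat_lit 13) (.e (nat_lit 344117) (nat_lit 21) (.e (nat_lit 516151) (nat_lit 9) (.e (nat_lit 426286) (nat_lit 10) (.e (nat_lit 434245) (nat_lit 28) (.e (nat_lit 573473) (nat_lit 12) (.e (nat_lit 57353) (nat_lit 0) .nil)))))))) (.g (nat_lit 0) .nil .nil))) 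
(.lf (nat_lit 125157) (.g (nat_lit 4390) (.e (nat_lit 7266) (nat_lit 384) (.e (nat_lit 57421) (nat_lit 13) (.e (nat_lit 344117) (nat_lit 21) (.e (nat_lit 516166) (nat_lit 12) (.e (nat_lit 450588) (nat_lit 10) (.e (nat_lit 573475) (nat_lit 12) (.e (nat_lit 57348) (nat_lit 0) .nil))))))) (.g (nat_lit 7) .nil .nil)))) (.nd (nat_lit 5) 
(.lf (nat_lit 125141) (.g (nat_lit 2714) (.e (nat_lit 7266) (nat_lit 384) (.e (nat_lit 57421) (nat_lit 13) (.e (nat_lit 344117) (nat_lit 21) (.e (nat_lit 516151) (nat_lit 9) (.e (nat_lit 426286) (nat_lit 10) (.e (nat_lit 434247) (nat_lit 28) (.e (nat_lit 573477) (nat_lit 12) (.e (nat_lit 57352) (nat_lit 0) .nil)))))))) (.g (nat_lit 5) .nil .nil))) 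
(.lf (nat_lit 125173) (.g (nat_lit 2285) (.e (nat_lit 7266) (nat_lit 384) (.e (nat_lit 57423) (nat_lit 14) (.e (nat_lit 352275) (nat_lit 11) (.e (nat_lit 426343) (nat_lit 14) (.e (nat_lit 491558) (nat_lit 10) .nil))))) .nil)))) (.nd (nat_lit 4) (.nd (nat_lit 5) 
(.lf (nat_lit 125133) (.g (nat_lit 2100) (.e (nat_lit 7266) (nat_lit 384) (.e (nat_lit 57420) (nat_lit 13) (.e (nat_lit 344117) (nat_lit 21) (.e (nat_lit 516165) (nat_lit 12) (.e (nat_lit 450586) (nat_lit 10) (.e (nat_lit 573477) (nat_lit 12) (.e (nat_lit 57352) (nat_lit 0) .nil))))))) (.g (nat_lit 4) .nil .nil))) 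
(.lf (nat_lit 125165) (.g (nat_lit 1642) (.e (nat_lit 7266) (nat_lit 384) (.e (nat_lit 57423) (nat_lit 14) (.e (nat_lit 352272) (nat_lit 10) (.e (nat_lit 417796) (nat_lit 0) (.e (nat_lit 5409) (nat_lit 303) (.e (nat_lit 81664) (nat_lit 0) .nil)))))) (.g (nat_lit 5) .nil .nil)))) (.nd (nat_lit 5) 
(.lf (nat_lit 125149) (.g (nat_lit 3746) (.e (nat_lit 7266) (nat_lit 384) (.e (nat_lit 57421) (nat_lit 13) (.e (nat_lit 344117) (nat_lit 21) (.e (nat_lit 516165) (nat_lit 12) (.e (nat_lit 450586) (nat_lit 10) (.e (nat_lit 573475) (nat_lit 12) (.e (nat_lit 57348) (nat_lit 0) .nil))))))) (.g (nat_lit 6) .nil .nil))) 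
(.lf (nat_lit 125181) (.g (nat_lit 3323) (.e (nat_lit 7266) (nat_lit 384) (.e (nat_lit 57423) (nat_lit 14) (.e (nat_lit 352277) (nat_lit 11) (.e (nat_lit 426011) (nat_lit 0) (.e (nat_lit 7593) (nat_lit 407) (.e (nat_lit 73730) (nat_lit 0) .nil)))))) (.g (nat_lit 5) .nil .nil))))))) (.nd (nat_lit 2) (.nd (nat_lit 3) (.nd (nat_lit 4) (.nd (nat_lit 5) 
(.lf (nat_lit 125123) (.g (nat_lit 4200) (.e (nat_lit 7266) (nat_lit 384) (.e (nat_lit 65280) (nat_lit 12) (.e (nat_lit 336027) (nat_lit 3) (.e (nat_lit 98373) (nat_lit 29) (.e (nat_lit 450587) (nat_lit 10) (.e (nat_lit 573475) (nat_lit 12) (.e (nat_lit 57353) (nat_lit 0) .nil))))))) (.g (nat_lit 6) .nil .nil))) 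
(.lf (nat_lit 125155) (.g (nat_lit 4317) (.e (nat_lit 7266) (nat_lit 384) (.e (nat_lit 57421) (nat_lit 13) (.e (nat_lit 344117) (nat_lit 21) (.e (nat_lit 516166) (nat_lit 12) (.e (nat_lit 450588) (nat_lit 10) (.e (nat_lit 573473) (nat_lit 12) (.e (nat_lit 57348) (nat_lit 0) .nil))))))) (.g (nat_lit 0) .nil .nil)))) (.nd (nat_lit 5) 
(.lf (nat_lit 125139) (.g (nat_lit 2849) (.e (nat_lit 7266) (nat_lit 384) (.e (nat_lit 57421) (nat_lit 13) (.e (nat_lit 344117) (nat_lit 21) (.e (nat_lit 516151) (nat_lit 9) (.e (nat_lit 426286) (nat_lit 10) (.e (nat_lit 434245) (nat_lit 28) (.e (nat_lit 573473) (nat_lit 12) (.e (nat_lit 57352) (nat_lit 0) .nil)))))))) (.g (nat_lit 5) .nil .nil))) 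
(.lf (nat_lit 125171) (.g (nat_lit 2427) (.e (nat_lit 7266) (nat_lit 384) (.e (nat_lit 57423) (nat_lit 14) (.e (nat_lit 352272) (nat_lit 10) (.e (nat_lit 417811) (nat_lit 6) (.e (nat_lit 286755) (nat_lit 10) (.e (nat_lit 344096) (nat_lit 18) .nil)))))) (.g (nat_lit 0) .nil .nil))))) (.nd (nat_lit 4) (.nd (nat_lit 5) 
(.lf (nat_lit 125131) (.g (nat_lit 3796) (.e (nat_lit 7266) (nat_lit 384) (.e (nat_lit 57420) (nat_lit 13) (.e (nat_lit 344117) (nat_lit 21) (.e (nat_lit 516165) (nat_lit 12) (.e (nat_lit 450586) (nat_lit 10) (.e (nat_lit 573473) (nat_lit 12) (.e (nat_lit 57353) (nat_lit 0) .nil))))))) (.g (nat_lit 0) .nil .nil))) 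
(.lf (nat_lit 125163) (.g (nat_lit 1880) (.e (nat_lit 7266) (nat_lit 384) (.e (nat_lit 57423) (nat_lit 14) (.e (nat_lit 352272) (nat_lit 10) (.e (nat_lit 417795) (nat_lit 0) (.e (nat_lit 5412) (nat_lit 303) (.e (nat_lit 81664) (nat_lit 0) .nil)))))) (.g (nat_lit 5) .nil .nil)))) (.nd (nat_lit 5) 
(.lf (nat_lit 125147) (.g (nat_lit 4188) (.e (nat_lit 7266) (nat_lit 384) (.e (nat_lit 57421) (nat_lit 13) (.e (nat_lit 344117) (nat_lit 21) (.e (nat_lit 516151) (nat_lit 9) (.e (nat_lit 426286) (nat_lit 10) (.e (nat_lit 434248) (nat_lit 28) (.e (nat_lit 573475) (nat_lit 12) (.e (nat_lit 57353) (nat_lit 0) .nil)))))))) (.g (nat_lit 7) .nil .nil))) 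
(.lf (nat_lit 125179) (.g (nat_lit 2158) (.e (nat_lit 7266) (nat_lit 384) (.e (nat_lit 57423) (nat_lit 14) (.e (nat_lit 352277) (nat_lit 11) (.e (nat_lit 426010) (nat_lit 0) (.e (nat_lit 7593) (nat_lit 407) (.e (nat_lit 73730) (nat_lit 0) .nil)))))) (.g (nat_lit 4) .nil .nil)))))) (.nd (nat_lit 3) (.nd (nat_lit 4) (.nd (nat_lit 5) 
(.lf (nat_lit 125127) (.g (nat_lit 3868) (.e (nat_lit 7266) (nat_lit 384) (.e (nat_lit 57420) (nat_lit 13) (.e (nat_lit 344117) (nat_lit 21) (.e (nat_lit 516151) (nat_lit 9) (.e (nat_lit 426286) (nat_lit 10) (.e (nat_lit 434247) (nat_lit 28) (.e (nat_lit 573478) (nat_lit 12) (.e (nat_lit 57353) (nat_lit 0) .nil)))))))) (.g (nat_lit 8) .nil .nil))) 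
(.lf (nat_lit 125159) (.g (nat_lit 1486) (.e (nat_lit 7266) (nat_lit 384) (.e (nat_lit 57423) (nat_lit 14) (.e (nat_lit 352272) (nat_lit 10) (.e (nat_lit 417793) (nat_lit 0) (.e (nat_lit 5412) (nat_lit 303) (.e (nat_lit 81664) (nat_lit 0) .nil)))))) (.g (nat_lit 5) .nil .nil)))) (.nd (nat_lit 5) 
(.lf (nat_lit 125143) (.g (nat_lit 3817) (.e (nat_lit 7266) (nat_lit 384) (.e (nat_lit 57421) (nat_lit 13) (.e (nat_lit 344117) (nat_lit 21) (.e (nat_lit 516151) (nat_lit 9) (.e (nat_lit 426286) (nat_lit 10) (.e (nat_lit 434247) (nat_lit 28) (.e (nat_lit 573478) (nat_lit 12) (.e (nat_lit 57353) (nat_lit 0) .nil)))))))) (.g (nat_lit 8) .nil .nil))) 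
(.lf (nat_lit 125175) (.g (nat_lit 390) (.e (nat_lit 7266) (nat_lit 384) (.e (nat_lit 57423) (nat_lit 14) (.e (nat_lit 352277) (nat_lit 11) .nil))) .nil)))) (.nd (nat_lit 4) (.nd (nat_lit 5) 
(.lf (nat_lit 125135) (.g (nat_lit 4478) (.e (nat_lit 7266) (nat_lit 384) (.e (nat_lit 57420) (nat_lit 13) (.e (nat_lit 344117) (nat_lit 21) (.e (nat_lit 516166) (nat_lit 12) (.e (nat_lit 450588) (nat_lit 10) (.e (nat_lit 573473) (nat_lit 12) (.e (nat_lit 57347) (nat_lit 0) .nil))))))) (.g (nat_lit 0) .nil .nil))) 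
(.lf (nat_lit 125167) (.g (nat_lit 1796) (.e (nat_lit 7266) (nat_lit 384) (.e (nat_lit 57423) (nat_lit 14) (.e (nat_lit 352272) (nat_lit 10) (.e (nat_lit 417796) (nat_lit 0) (.e (nat_lit 5412) (nat_lit 303) (.e (nat_lit 81664) (nat_lit 0) .nil)))))) (.g (nat_lit 5) .nil .nil)))) (.nd (nat_lit 5) 
(.lf (nat_lit 125151) (.g (nat_lit 3313) (.e (nat_lit 7266) (nat_lit 384) (.e (nat_lit 57421) (nat_lit 13) (.e (nat_lit 344117) (nat_lit 21) (.e (nat_lit 516165) (nat_lit 12) (.e (nat_lit 450586) (nat_lit 10) (.e (nat_lit 573478) (nat_lit 12) (.e (nat_lit 57353) (nat_lit 0) .nil))))))) (.g (nat_lit 7) .nil .nil))) 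
(.lf (nat_lit 125183) (.g (nat_lit 2593) (.e (nat_lit 7266) (nat_lit 384) (.e (nat_lit 57423) (nat_lit 14) (.e (nat_lit 352277) (nat_lit 11) (.e (nat_lit 426012) (nat_lit 0) (.e (nat_lit 7593) (nat_lit 407) (.e (nat_lit 73730) (nat_lit 0) .nil)))))) (.g (nat_lit 5) .nil .nil)))))))))

noncomputable def tv1679 : DT := (.nd (nat_lit 0) (.nd (nat_lit 1) (.nd (nat_lit 2) (.nd (nat_lit 3) (.nd (nat_lit 4) (.nd (nat_lit 5) 
(.lf (nat_lit 125184) (.g (nat_lit 2997) (.e (nat_lit 7266) (nat_lit 384) (.e (nat_lit 57423) (nat_lit 14) (.e (nat_lit 352277) (nat_lit 11) (.e (nat_lit 426342) (nat_lit 14) (.e (nat_lit 491558) (nat_lit 10) (.e (nat_lit 344090) (nat_lit 18) .nil)))))) (.g (nat_lit 6) .nil .nil))) 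
(.lf (nat_lit 125216) (.g (nat_lit 466) (.e (nat_lit 7266) (nat_lit 384) (.e (nat_lit 57424) (nat_lit 14) (.e (nat_lit 352277) (nat_lit 11) .nil))) .nil))) (.nd (nat_lit 5) 
(.lf (nat_lit 125200) (.g (nat_lit 1279) (.e (nat_lit 7266) (nat_lit 384) (.e (nat_lit 57423) (nat_lit 14) (.e (nat_lit 352322) (nat_lit 26) (.e (nat_lit 147496) (nat_lit 11) .nil)))) .nil)) 
(.lf (nat_lit 125232) (.g (nat_lit 2115) (.e (nat_lit 7266) (nat_lit 384) (.e (nat_lit 57424) (nat_lit 14) (.e (nat_lit 352277) (nat_lit 11) (.e (nat_lit 426344) (nat_lit 14) (.e (nat_lit 491558) (nat_lit 10) (.e (nat_lit 344095) (nat_lit 18) .nil)))))) (.g (nat_lit 4) .nil .nil))))) (.nd (nat_lit 4) (.nd (nat_lit 5) 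
(.lf (nat_lit 125192) (.g (nat_lit 2083) (.e (nat_lit 7266) (nat_lit 384) (.e (nat_lit 57423) (nat_lit 14) (.e (nat_lit 352277) (nat_lit 11) (.e (nat_lit 426344) (nat_lit 14) (.e (nat_lit 491560) (nat_lit 10) (.e (nat_lit 344087) (nat_lit 18) .nil)))))) (.g (nat_lit 4) .nil .nil))) 
(.lf (nat_lit 125224) (.g (nat_lit 2788) (.e (nat_lit 7266) (nat_lit 384) (.e (nat_lit 57424) (nat_lit 14) (.e (nat_lit 352277) (nat_lit 11) (.e (nat_lit 426342) (nat_lit 14) (.e (nat_lit 491558) (nat_lit 10) (.e (nat_lit 344090) (nat_lit 18) .nil)))))) (.g (nat_lit 6) .nil .nil)))) (.nd (nat_lit 5) 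
(.lf (nat_lit 125208) (.g (nat_lit 1610) (.e (nat_lit 7266) (nat_lit 384) (.e (nat_lit 57424) (nat_lit 14) (.e (nat_lit 352272) (nat_lit 10) (.e (nat_lit 417795) (nat_lit 0) (.e (nat_lit 5413) (nat_lit 303) (.e (nat_lit 73730) (nat_lit 0) .nil)))))) (.g (nat_lit 4) .nil .nil))) 
(.lf (nat_lit 125240) (.g (nat_lit 2901) (.e (nat_lit 7266) (nat_lit 384) (.e (nat_lit 57424) (nat_lit 14) (.e (nat_lit 352309) (nat_lit 21) (.e (nat_lit 57681) (nat_lit 155) (.e (nat_lit 122919) (nat_lit 15) (.e (nat_lit 360451) (nat_lit 0) .nil)))))) (.g (nat_lit 4) .nil .nil)))))) (.nd (nat_lit 3) (.nd (nat_lit 4) (.nd (nat_lit 5) 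
(.lf (nat_lit 125188) (.g (nat_lit 2663) (.e (nat_lit 7266) (nat_lit 384) (.e (nat_lit 57423) (nat_lit 14) (.e (nat_lit 352277) (nat_lit 11) (.e (nat_lit 426343) (nat_lit 14) (.e (nat_lit 491558) (nat_lit 10) (.e (nat_lit 344095) (nat_lit 18) .nil)))))) (.g (nat_lit 4) .nil .nil))) 
(.lf (nat_lit 125220) (.g (nat_lit 3150) (.e (nat_lit 7266) (nat_lit 384) (.e (nat_lit 57424) (nat_lit 14) (.e (nat_lit 352277) (nat_lit 11) (.e (nat_lit 426011) (nat_lit 0) (.e (nat_lit 7593) (nat_lit 407) (.e (nat_lit 73730) (nat_lit 0) .nil)))))) (.g (nat_lit 5) .nil .nil)))) (.nd (nat_lit 5) 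
(.lf (nat_lit 125204) (.g (nat_lit 1561) (.e (nat_lit 7266) (nat_lit 384) (.e (nat_lit 57424) (nat_lit 14) (.e (nat_lit 352272) (nat_lit 10) (.e (nat_lit 417794) (nat_lit 0) (.e (nat_lit 5412) (nat_lit 303) (.e (nat_lit 81664) (nat_lit 0) .nil)))))) (.g (nat_lit 5) .nil .nil))) 
(.lf (nat_lit 125236) (.g (nat_lit 919) (.e (nat_lit 7266) (nat_lit 384) (.e (nat_lit 57424) (nat_lit 14) (.e (nat_lit 352302) (nat_lit 20) .nil))) .nil)))) (.nd (nat_lit 4) (.nd (nat_lit 5) 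
(.lf (nat_lit 125196) (.g (nat_lit 680) (.e (nat_lit 7266) (nat_lit 384) (.e (nat_lit 57423) (nat_lit 14) (.e (nat_lit 352301) (nat_lit 20) .nil))) .nil)) 
(.lf (nat_lit 125228) (.g (nat_lit 2326) (.e (nat_lit 7266) (nat_lit 384) (.e (nat_lit 57424) (nat_lit 14) (.e (nat_lit 352277) (nat_lit 11) (.e (nat_lit 426343) (nat_lit 14) (.e (nat_lit 491558) (nat_lit 10) (.e (nat_lit 344095) (nat_lit 18) .nil)))))) (.g (nat_lit 4) .nil .nil)))) (.nd (nat_lit 5) 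
(.lf (nat_lit 125212) (.g (nat_lit 1274) (.e (nat_lit 7266) (nat_lit 384) (.e (nat_lit 57424) (nat_lit 14) (.e (nat_lit 352272) (nat_lit 10) (.e (nat_lit 417796) (nat_lit 0) (.e (nat_lit 5413) (nat_lit 303) (.e (nat_lit 81664) (nat_lit 0) .nil)))))) (.g (nat_lit 4) .nil .nil))) 
(.lf (nat_lit 125244) (.g (nat_lit 3055) (.e (nat_lit 7266) (nat_lit 384) (.e (nat_lit 57424) (nat_lit 14) (.e (nat_lit 352322) (nat_lit 26) (.e (nat_lit 147495) (nat_lit 11) (.e (nat_lit 24639) (nat_lit 10) (.e (nat_lit 344090) (nat_lit 18) .nil)))))) (.g (nat_lit 5) .nil .nil))))))) (.nd (nat_lit 2) (.nd (nat_lit 3) (.nd (nat_lit 4) (.nd (nat_lit 5) 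
(.lf (nat_lit 125186) (.g (nat_lit 3007) (.e (nat_lit 7266) (nat_lit 384) (.e (nat_lit 57423) (nat_lit 14) (.e (nat_lit 352277) (nat_lit 11) (.e (nat_lit 426342) (nat_lit 14) (.e (nat_lit 491560) (nat_lit 10) (.e (nat_lit 344094) (nat_lit 18) .nil)))))) (.g (nat_lit 6) .nil .nil))) 
(.lf (nat_lit 125218) (.g (nat_lit 1994) (.e (nat_lit 7266) (nat_lit 384) (.e (nat_lit 57424) (nat_lit 14) (.e (nat_lit 352277) (nat_lit 11) (.e (nat_lit 426010) (nat_lit 0) (.e (nat_lit 7593) (nat_lit 407) (.e (nat_lit 73730) (nat_lit 0) .nil)))))) (.g (nat_lit 4) .nil .nil)))) (.nd (nat_lit 5) 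
(.lf (nat_lit 125202) (.g (nat_lit 903) (.e (nat_lit 7266) (nat_lit 384) (.e (nat_lit 57424) (nat_lit 14) (.e (nat_lit 352256) (nat_lit 0) .nil))) .nil)) 
(.lf (nat_lit 125234) (.g (nat_lit 3322) (.e (nat_lit 7266) (nat_lit 384) (.e (nat_lit 57424) (nat_lit 14) (.e (nat_lit 352277) (nat_lit 11) (.e (nat_lit 426344) (nat_lit 14) (.e (nat_lit 491560) (nat_lit 10) (.e (nat_lit 344091) (nat_lit 18) .nil)))))) (.g (nat_lit 6) .nil .nil))))) (.nd (nat_lit 4) (.nd (nat_lit 5) 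
(.lf (nat_lit 125194) (.g (nat_lit 3507) (.e (nat_lit 7266) (nat_lit 384) (.e (nat_lit 57423) (nat_lit 14) (.e (nat_lit 352277) (nat_lit 11) (.e (nat_lit 426344) (nat_lit 14) (.e (nat_lit 491560) (nat_lit 10) (.e (nat_lit 344091) (nat_lit 18) .nil)))))) (.g (nat_lit 6) .nil .nil))) 
(.lf (nat_lit 125226) (.g (nat_lit 3152) (.e (nat_lit 7266) (nat_lit 384) (.e (nat_lit 57424) (nat_lit 14) (.e (nat_lit 352277) (nat_lit 11) (.e (nat_lit 426342) (nat_lit 14) (.e (nat_lit 491560) (nat_lit 10) (.e (nat_lit 344091) (nat_lit 18) .nil)))))) (.g (nat_lit 0) .nil .nil)))) (.nd (nat_lit 5) 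
(.lf (nat_lit 125210) (.g (nat_lit 1744) (.e (nat_lit 7266) (nat_lit 384) (.e (nat_lit 57424) (nat_lit 14) (.e (nat_lit 352272) (nat_lit 10) (.e (nat_lit 417796) (nat_lit 0) (.e (nat_lit 5410) (nat_lit 303) (.e (nat_lit 81664) (nat_lit 0) .nil)))))) (.g (nat_lit 5) .nil .nil))) 
(.lf (nat_lit 125242) (.g (nat_lit 788) (.e (nat_lit 7266) (nat_lit 384) (.e (nat_lit 57424) (nat_lit 14) (.e (nat_lit 352322) (nat_lit 26) .nil))) .nil))))) (.nd (nat_lit 3) (.nd (nat_lit 4) (.nd (nat_lit 5) 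
(.lf (nat_lit 125190) (.g (nat_lit 3977) (.e (nat_lit 7266) (nat_lit 384) (.e (nat_lit 57423) (nat_lit 14) (.e (nat_lit 352277) (nat_lit 11) (.e (nat_lit 426343) (nat_lit 14) (.e (nat_lit 491560) (nat_lit 10) (.e (nat_lit 344096) (nat_lit 18) .nil)))))) (.g (nat_lit 0) .nil .nil))) 
(.lf (nat_lit 125222) (.g (nat_lit 2437) (.e (nat_lit 7266) (nat_lit 384) (.e (nat_lit 57424) (nat_lit 14) (.e (nat_lit 352277) (nat_lit 11) (.e (nat_lit 426012) (nat_lit 0) (.e (nat_lit 7593) (nat_lit 407) (.e (nat_lit 73730) (nat_lit 0) .nil)))))) (.g (nat_lit 5) .nil .nil)))) (.nd (nat_lit 5) 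
(.lf (nat_lit 125206) (.g (nat_lit 1587) (.e (nat_lit 7266) (nat_lit 384) (.e (nat_lit 57424) (nat_lit 14) (.e (nat_lit 352272) (nat_lit 10) (.e (nat_lit 417795) (nat_lit 0) (.e (nat_lit 5410) (nat_lit 303) (.e (nat_lit 81664) (nat_lit 0) .nil)))))) (.g (nat_lit 5) .nil .nil))) 
(.lf (nat_lit 125238) (.g (nat_lit 2802) (.e (nat_lit 7266) (nat_lit 384) (.e (nat_lit 57424) (nat_lit 14) (.e (nat_lit 352307) (nat_lit 21) (.e (nat_lit 57682) (nat_lit 155) (.e (nat_lit 122919) (nat_lit 15) (.e (nat_lit 360451) (nat_lit 0) .nil)))))) (.g (nat_lit 4) .nil .nil))))) (.nd (nat_lit 4) (.nd (nat_lit 5) 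
(.lf (nat_lit 125198) (.g (nat_lit 1919) (.e (nat_lit 7266) (nat_lit 384) (.e (nat_lit 57423) (nat_lit 14) (.e (nat_lit 352322) (nat_lit 26) (.e (nat_lit 147495) (nat_lit 11) (.e (nat_lit 24640) (nat_lit 10) .nil))))) .nil)) 
(.lf (nat_lit 125230) (.g (nat_lit 3554) (.e (nat_lit 7266) (nat_lit 384) (.e (nat_lit 57424) (nat_lit 14) (.e (nat_lit 352277) (nat_lit 11) (.e (nat_lit 426343) (nat_lit 14) (.e (nat_lit 491560) (nat_lit 10) (.e (nat_lit 344091) (nat_lit 18) .nil)))))) (.g (nat_lit 0) .nil .nil)))) (.nd (nat_lit 5) 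
(.lf (nat_lit 125214) (.g (nat_lit 1243) (.e (nat_lit 7266) (nat_lit 384) (.e (nat_lit 57424) (nat_lit 14) (.e (nat_lit 352272) (nat_lit 10) (.e (nat_lit 417811) (nat_lit 6) (.e (nat_lit 286754) (nat_lit 10) (.e (nat_lit 344091) (nat_lit 18) .nil)))))) (.g (nat_lit 4) .nil .nil))) 
(.lf (nat_lit 125246) (.g (nat_lit 2788) (.e (nat_lit 7266) (nat_lit 384) (.e (nat_lit 57424) (nat_lit 14) (.e (nat_lit 352322) (nat_lit 26) (.e (nat_lit 147495) (nat_lit 11) (.e (nat_lit 24640) (nat_lit 10) (.e (nat_lit 344090) (nat_lit 18) .nil)))))) (.g (nat_lit 4) .nil .nil)))))))) (.nd (nat_lit 1) (.nd (nat_lit 2) (.nd (nat_lit 3) (.nd (nat_lit 4) (.nd (nat_lit 5) 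
(.lf (nat_lit 125185) (.g (nat_lit 3341) (.e (nat_lit 7266) (nat_lit 384) (.e (nat_lit 57423) (nat_lit 14) (.e (nat_lit 352277) (nat_lit 11) (.e (nat_lit 426342) (nat_lit 14) (.e (nat_lit 491560) (nat_lit 10) (.e (nat_lit 344091) (nat_lit 18) .nil)))))) (.g (nat_lit 0) .nil .nil))) 
(.lf (nat_lit 125217) (.g (nat_lit 1982) (.e (nat_lit 7266) (nat_lit 384) (.e (nat_lit 57424) (nat_lit 14) (.e (nat_lit 352277) (nat_lit 11) (.e (nat_lit 426010) (nat_lit 0) (.e (nat_lit 7591) (nat_lit 407) (.e (nat_lit 73730) (nat_lit 0) .nil)))))) (.g (nat_lit 4) .nil .nil)))) (.nd (nat_lit 5) 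
(.lf (nat_lit 125201) (.g (nat_lit 1974) (.e (nat_lit 7266) (nat_lit 384) (.e (nat_lit 57423) (nat_lit 14) (.e (nat_lit 352322) (nat_lit 26) (.e (nat_lit 147496) (nat_lit 11) (.e (nat_lit 24640) (nat_lit 10) .nil))))) .nil)) 
(.lf (nat_lit 125233) (.g (nat_lit 3729) (.e (nat_lit 7266) (nat_lit 384) (.e (nat_lit 57424) (nat_lit 14) (.e (nat_lit 352277) (nat_lit 11) (.e (nat_lit 426344) (nat_lit 14) (.e (nat_lit 491558) (nat_lit 10) (.e (nat_lit 344096) (nat_lit 18) .nil)))))) (.g (nat_lit 0) .nil .nil))))) (.nd (nat_lit 4) (.nd (nat_lit 5) 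
(.lf (nat_lit 125193) (.g (nat_lit 2458) (.e (nat_lit 7266) (nat_lit 384) (.e (nat_lit 57423) (nat_lit 14) (.e (nat_lit 352277) (nat_lit 11) (.e (nat_lit 426344) (nat_lit 14) (.e (nat_lit 491560) (nat_lit 10) (.e (nat_lit 344088) (nat_lit 18) .nil)))))) (.g (nat_lit 4) .nil .nil))) 
(.lf (nat_lit 125225) (.g (nat_lit 3251) (.e (nat_lit 7266) (nat_lit 384) (.e (nat_lit 57424) (nat_lit 14) (.e (nat_lit 352277) (nat_lit 11) (.e (nat_lit 426342) (nat_lit 14) (.e (nat_lit 491558) (nat_lit 10) (.e (nat_lit 344096) (nat_lit 18) .nil)))))) (.g (nat_lit 0) .nil .nil)))) (.nd (nat_lit 5) 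
(.lf (nat_lit 125209) (.g (nat_lit 1741) (.e (nat_lit 7266) (nat_lit 384) (.e (nat_lit 57424) (nat_lit 14) (.e (nat_lit 352272) (nat_lit 10) (.e (nat_lit 417796) (nat_lit 0) (.e (nat_lit 5409) (nat_lit 303) (.e (nat_lit 81664) (nat_lit 0) .nil)))))) (.g (nat_lit 5) .nil .nil))) 
(.lf (nat_lit 125241) (.g (nat_lit 2632) (.e (nat_lit 7266) (nat_lit 384) (.e (nat_lit 57424) (nat_lit 14) (.e (nat_lit 352309) (nat_lit 21) (.e (nat_lit 57682) (nat_lit 155) (.e (nat_lit 122919) (nat_lit 15) (.e (nat_lit 360451) (nat_lit 0) .nil)))))) (.g (nat_lit 4) .nil .nil)))))) (.nd (nat_lit 3) (.nd (nat_lit 4) (.nd (nat_lit 5) 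
(.lf (nat_lit 125189) (.g (nat_lit 3384) (.e (nat_lit 7266) (nat_lit 384) (.e (nat_lit 57423) (nat_lit 14) (.e (nat_lit 352277) (nat_lit 11) (.e (nat_lit 426343) (nat_lit 14) (.e (nat_lit 491560) (nat_lit 10) (.e (nat_lit 344094) (nat_lit 18) .nil)))))) (.g (nat_lit 5) .nil .nil))) 
(.lf (nat_lit 125221) (.g (nat_lit 2365) (.e (nat_lit 7266) (nat_lit 384) (.e (nat_lit 57424) (nat_lit 14) (.e (nat_lit 352277) (nat_lit 11) (.e (nat_lit 426012) (nat_lit 0) (.e (nat_lit 7591) (nat_lit 407) (.e (nat_lit 73730) (nat_lit 0) .nil)))))) (.g (nat_lit 5) .nil .nil)))) (.nd (nat_lit 5) 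
(.lf (nat_lit 125205) (.g (nat_lit 1424) (.e (nat_lit 7266) (nat_lit 384) (.e (nat_lit 57424) (nat_lit 14) (.e (nat_lit 352272) (nat_lit 10) (.e (nat_lit 417795) (nat_lit 0) (.e (nat_lit 5409) (nat_lit 303) (.e (nat_lit 81664) (nat_lit 0) .nil)))))) (.g (nat_lit 5) .nil .nil))) 
(.lf (nat_lit 125237) (.g (nat_lit 3348) (.e (nat_lit 7266) (nat_lit 384) (.e (nat_lit 57424) (nat_lit 14) (.e (nat_lit 352307) (nat_lit 21) (.e (nat_lit 57681) (nat_lit 155) (.e (nat_lit 122919) (nat_lit 15) (.e (nat_lit 360451) (nat_lit 0) .nil)))))) (.g (nat_lit 4) .nil .nil))))) (.nd (nat_lit 4) (.nd (nat_lit 5) 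
(.lf (nat_lit 125197) (.g (nat_lit 2734) (.e (nat_lit 7266) (nat_lit 384) (.e (nat_lit 57423) (nat_lit 14) (.e (nat_lit 352307) (nat_lit 21) (.e (nat_lit 57681) (nat_lit 155) (.e (nat_lit 122919) (nat_lit 15) (.e (nat_lit 360451) (nat_lit 0) .nil)))))) (.g (nat_lit 4) .nil .nil))) 
(.lf (nat_lit 125229) (.g (nat_lit 3922) (.e (nat_lit 7266) (nat_lit 384) (.e (nat_lit 57424) (nat_lit 14) (.e (nat_lit 352277) (nat_lit 11) (.e (nat_lit 426343) (nat_lit 14) (.e (nat_lit 491558) (nat_lit 10) (.e (nat_lit 344096) (nat_lit 18) .nil)))))) (.g (nat_lit 0) .nil .nil)))) (.nd (nat_lit 5) 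
(.lf (nat_lit 125213) (.g (nat_lit 1674) (.e (nat_lit 7266) (nat_lit 384) (.e (nat_lit 57424) (nat_lit 14) (.e (nat_lit 352272) (nat_lit 10) (.e (nat_lit 417811) (nat_lit 6) (.e (nat_lit 286751) (nat_lit 10) (.e (nat_lit 344096) (nat_lit 18) .nil)))))) (.g (nat_lit 4) .nil .nil))) 
(.lf (nat_lit 125245) (.g (nat_lit 3101) (.e (nat_lit 7266) (nat_lit 384) (.e (nat_lit 57424) (nat_lit 14) (.e (nat_lit 352322) (nat_lit 26) (.e (nat_lit 147495) (nat_lit 11) (.e (nat_lit 24639) (nat_lit 10) (.e (nat_lit 344096) (nat_lit 18) .nil)))))) (.g (nat_lit 5) .nil .nil))))))) (.nd (nat_lit 2) (.nd (nat_lit 3) (.nd (nat_lit 4) (.nd (nat_lit 5) 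
(.lf (nat_lit 125187) (.g (nat_lit 3641) (.e (nat_lit 7266) (nat_lit 384) (.e (nat_lit 57423) (nat_lit 14) (.e (nat_lit 352277) (nat_lit 11) (.e (nat_lit 426342) (nat_lit 14) (.e (nat_lit 491560) (nat_lit 10) (.e (nat_lit 344096) (nat_lit 18) .nil)))))) (.g (nat_lit 0) .nil .nil))) 
(.lf (nat_lit 125219) (.g (nat_lit 2861) (.e (nat_lit 7266) (nat_lit 384) (.e (nat_lit 57424) (nat_lit 14) (.e (nat_lit 352277) (nat_lit 11) (.e (nat_lit 426011) (nat_lit 0) (.e (nat_lit 7591) (nat_lit 407) (.e (nat_lit 73730) (nat_lit 0) .nil)))))) (.g (nat_lit 5) .nil .nil)))) (.nd (nat_lit 5) 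
(.lf (nat_lit 125203) (.g (nat_lit 1542) (.e (nat_lit 7266) (nat_lit 384) (.e (nat_lit 57424) (nat_lit 14) (.e (nat_lit 352272) (nat_lit 10) (.e (nat_lit 417793) (nat_lit 0) (.e (nat_lit 5412) (nat_lit 303) (.e (nat_lit 81664) (nat_lit 0) .nil)))))) (.g (nat_lit 5) .nil .nil))) 
(.lf (nat_lit 125235) (.g (nat_lit 878) (.e (nat_lit 7266) (nat_lit 384) (.e (nat_lit 57424) (nat_lit 14) (.e (nat_lit 352283) (nat_lit 20) .nil))) .nil)))) (.nd (nat_lit 4) (.nd (nat_lit 5) 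
(.lf (nat_lit 125195) (.g (nat_lit 3705) (.e (nat_lit 7266) (nat_lit 384) (.e (nat_lit 57423) (nat_lit 14) (.e (nat_lit 352277) (nat_lit 11) (.e (nat_lit 426344) (nat_lit 14) (.e (nat_lit 491560) (nat_lit 10) (.e (nat_lit 344096) (nat_lit 18) .nil)))))) (.g (nat_lit 0) .nil .nil))) 
(.lf (nat_lit 125227) (.g (nat_lit 2796) (.e (nat_lit 7266) (nat_lit 384) (.e (nat_lit 57424) (nat_lit 14) (.e (nat_lit 352277) (nat_lit 11) (.e (nat_lit 426342) (nat_lit 14) (.e (nat_lit 491560) (nat_lit 10) (.e (nat_lit 344094) (nat_lit 18) .nil)))))) (.g (nat_lit 6) .nil .nil)))) (.nd (nat_lit 5) 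
(.lf (nat_lit 125211) (.g (nat_lit 1885) (.e (nat_lit 7266) (nat_lit 384) (.e (nat_lit 57424) (nat_lit 14) (.e (nat_lit 352272) (nat_lit 10) (.e (nat_lit 417796) (nat_lit 0) (.e (nat_lit 5412) (nat_lit 303) (.e (nat_lit 81664) (nat_lit 0) .nil)))))) (.g (nat_lit 5) .nil .nil))) 
(.lf (nat_lit 125243) (.g (nat_lit 1846) (.e (nat_lit 7266) (nat_lit 384) (.e (nat_lit 57424) (nat_lit 14) (.e (nat_lit 352322) (nat_lit 26) (.e (nat_lit 147466) (nat_lit 9) (.e (nat_lit 324) (nat_lit 24) .nil))))) .nil))))) (.nd (nat_lit 3) (.nd (nat_lit 4) (.nd (nat_lit 5) 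
(.lf (nat_lit 125191) (.g (nat_lit 2430) (.e (nat_lit 7266) (nat_lit 384) (.e (nat_lit 57423) (nat_lit 14) (.e (nat_lit 352277) (nat_lit 11) (.e (nat_lit 426344) (nat_lit 14) (.e (nat_lit 491558) (nat_lit 10) (.e (nat_lit 344095) (nat_lit 18) .nil)))))) (.g (nat_lit 4) .nil .nil))) 
(.lf (nat_lit 125223) (.g (nat_lit 1225) (.e (nat_lit 7266) (nat_lit 384) (.e (nat_lit 57424) (nat_lit 14) (.e (nat_lit 352277) (nat_lit 11) (.e (nat_lit 426016) (nat_lit 0) (.e (nat_lit 7936) (nat_lit 407) .nil))))) .nil))) (.nd (nat_lit 5) 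
(.lf (nat_lit 125207) (.g (nat_lit 1939) (.e (nat_lit 7266) (nat_lit 384) (.e (nat_lit 57424) (nat_lit 14) (.e (nat_lit 352272) (nat_lit 10) (.e (nat_lit 417795) (nat_lit 0) (.e (nat_lit 5412) (nat_lit 303) (.e (nat_lit 81664) (nat_lit 0) .nil)))))) (.g (nat_lit 5) .nil .nil))) 
(.lf (nat_lit 125239) (.g (nat_lit 2736) (.e (nat_lit 7266) (nat_lit 384) (.e (nat_lit 57424) (nat_lit 14) (.e (nat_lit 352309) (nat_lit 21) (.e (nat_lit 57680) (nat_lit 155) (.e (nat_lit 122919) (nat_lit 15) (.e (nat_lit 360451) (nat_lit 0) .nil)))))) (.g (nat_lit 4) .nil .nil))))) (.nd (nat_lit 4) (.nd (nat_lit 5) 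
(.lf (nat_lit 125199) (.g (nat_lit 2434) (.e (nat_lit 7266) (nat_lit 384) (.e (nat_lit 57423) (nat_lit 14) (.e (nat_lit 352322) (nat_lit 26) (.e (nat_lit 147495) (nat_lit 11) (.e (nat_lit 24640) (nat_lit 10) (.e (nat_lit 344096) (nat_lit 18) .nil)))))) (.g (nat_lit 4) .nil .nil))) 
(.lf (nat_lit 125231) (.g (nat_lit 3167) (.e (nat_lit 7266) (nat_lit 384) (.e (nat_lit 57424) (nat_lit 14) (.e (nat_lit 352277) (nat_lit 11) (.e (nat_lit 426343) (nat_lit 14) (.e (nat_lit 491560) (nat_lit 10) (.e (nat_lit 344094) (nat_lit 18) .nil)))))) (.g (nat_lit 5) .nil .nil)))) (.nd (nat_lit 5) 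
(.lf (nat_lit 125215) (.g (nat_lit 903) (.e (nat_lit 7266) (nat_lit 384) (.e (nat_lit 57424) (nat_lit 14) (.e (nat_lit 352273) (nat_lit 11) .nil))) .nil)) 
(.lf (nat_lit 125247) (.g (nat_lit 2345) (.e (nat_lit 7266) (nat_lit 384) (.e (nat_lit 57424) (nat_lit 14) (.e (nat_lit 352322) (nat_lit 26) (.e (nat_lit 147495) (nat_lit 11) (.e (nat_lit 24640) (nat_lit 10) (.e (nat_lit 344091) (nat_lit 18) .nil)))))) (.g (nat_lit 4) .nil .nil)))))))))

noncomputable def tv1680 : DT := (.nd (nat_lit 0) (.nd (nat_lit 1) (.nd (nat_lit 2) (.nd (nat_lit 3) (.nd (nat_lit 4) (.nd (nat_lit 5) 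
(.lf (nat_lit 125248) (.g (nat_lit 3461) (.e (nat_lit 7266) (nat_lit 384) (.e (nat_lit 57424) (nat_lit 14) (.e (nat_lit 352322) (nat_lit 26) (.e (nat_lit 147495) (nat_lit 11) (.e (nat_lit 24640) (nat_lit 10) (.e (nat_lit 344096) (nat_lit 18) .nil)))))) (.g (nat_lit 5) .nil .nil))) 
(.lf (nat_lit 125280) (.g (nat_lit 3421) (.e (nat_lit 7266) (nat_lit 384) (.e (nat_lit 57426) (nat_lit 15) (.e (nat_lit 360451) (nat_lit 0) (.e (nat_lit 7266) (nat_lit 384) (.e (nat_lit 57427) (nat_lit 15) (.e (nat_lit 360450) (nat_lit 0) .nil)))))) (.g (nat_lit 6) .nil .nil)))) (.nd (nat_lit 5) 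
(.lf (nat_lit 125264) (.g (nat_lit 3234) (.e (nat_lit 7266) (nat_lit 384) (.e (nat_lit 57424) (nat_lit 14) (.e (nat_lit 352324) (nat_lit 26) (.e (nat_lit 147496) (nat_lit 11) (.e (nat_lit 24639) (nat_lit 10) (.e (nat_lit 344090) (nat_lit 18) .nil)))))) (.g (nat_lit 4) .nil .nil))) 
(.lf (nat_lit 125296) (.g (nat_lit 2517) (.e (nat_lit 7266) (nat_lit 384) (.e (nat_lit 57426) (nat_lit 15) (.e (nat_lit 360489) (nat_lit 21) (.e (nat_lit 770071) (nat_lit 8) (.e (nat_lit 65619) (nat_lit 10) (.e (nat_lit 344090) (nat_lit 18) .nil)))))) (.g (nat_lit 6) .nil .nil))))) (.nd (nat_lit 4) (.nd (nat_lit 5) 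
(.lf (nat_lit 125256) (.g (nat_lit 1904) (.e (nat_lit 7266) (nat_lit 384) (.e (nat_lit 57424) (nat_lit 14) (.e (nat_lit 352324) (nat_lit 26) (.e (nat_lit 147491) (nat_lit 10) .nil)))) .nil)) 
(.lf (nat_lit 125288) (.g (nat_lit 2191) (.e (nat_lit 7266) (nat_lit 384) (.e (nat_lit 57426) (nat_lit 15) (.e (nat_lit 360452) (nat_lit 0) (.e (nat_lit 7271) (nat_lit 385) (.e (nat_lit 122919) (nat_lit 15) (.e (nat_lit 368384) (nat_lit 0) .nil)))))) (.g (nat_lit 5) .nil .nil)))) (.nd (nat_lit 5) 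
(.lf (nat_lit 125272) (.g (nat_lit 1832) (.e (nat_lit 7266) (nat_lit 384) (.e (nat_lit 57426) (nat_lit 15) (.e (nat_lit 360449) (nat_lit 0) (.e (nat_lit 7265) (nat_lit 384) (.e (nat_lit 57427) (nat_lit 15) (.e (nat_lit 368384) (nat_lit 0) .nil)))))) (.g (nat_lit 4) .nil .nil))) 
(.lf (nat_lit 125304) (.g (nat_lit 2940) (.e (nat_lit 7266) (nat_lit 384) (.e (nat_lit 57426) (nat_lit 15) (.e (nat_lit 360491) (nat_lit 22) (.e (nat_lit 778466) (nat_lit 11) (.e (nat_lit 24640) (nat_lit 10) (.e (nat_lit 344091) (nat_lit 18) .nil)))))) (.g (nat_lit 0) .nil .nil)))))) (.nd (nat_lit 3) (.nd (nat_lit 4) (.nd (nat_lit 5) 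
(.lf (nat_lit 125252) (.g (nat_lit 2390) (.e (nat_lit 7266) (nat_lit 384) (.e (nat_lit 57424) (nat_lit 14) (.e (nat_lit 352323) (nat_lit 26) (.e (nat_lit 147495) (nat_lit 11) (.e (nat_lit 24639) (nat_lit 10) (.e (nat_lit 344090) (nat_lit 18) .nil)))))) (.g (nat_lit 4) .nil .nil))) 
(.lf (nat_lit 125284) (.g (nat_lit 2475) (.e (nat_lit 7266) (nat_lit 384) (.e (nat_lit 57426) (nat_lit 15) (.e (nat_lit 360452) (nat_lit 0) (.e (nat_lit 7270) (nat_lit 385) (.e (nat_lit 122918) (nat_lit 15) (.e (nat_lit 360451) (nat_lit 0) .nil)))))) (.g (nat_lit 5) .nil .nil)))) (.nd (nat_lit 5) 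
(.lf (nat_lit 125268) (.g (nat_lit 2578) (.e (nat_lit 7266) (nat_lit 384) (.e (nat_lit 57424) (nat_lit 14) (.e (nat_lit 352324) (nat_lit 26) (.e (nat_lit 147496) (nat_lit 11) (.e (nat_lit 24640) (nat_lit 10) (.e (nat_lit 344094) (nat_lit 18) .nil)))))) (.g (nat_lit 4) .nil .nil))) 
(.lf (nat_lit 125300) (.g (nat_lit 2356) (.e (nat_lit 7266) (nat_lit 384) (.e (nat_lit 57426) (nat_lit 15) (.e (nat_lit 360491) (nat_lit 22) (.e (nat_lit 778465) (nat_lit 11) (.e (nat_lit 24640) (nat_lit 10) (.e (nat_lit 344091) (nat_lit 18) .nil)))))) (.g (nat_lit 5) .nil .nil))))) (.nd (nat_lit 4) (.nd (nat_lit 5) 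
(.lf (nat_lit 125260) (.g (nat_lit 3294) (.e (nat_lit 7266) (nat_lit 384) (.e (nat_lit 57424) (nat_lit 14) (.e (nat_lit 352324) (nat_lit 26) (.e (nat_lit 147495) (nat_lit 11) (.e (nat_lit 24640) (nat_lit 10) (.e (nat_lit 344090) (nat_lit 18) .nil)))))) (.g (nat_lit 4) .nil .nil))) 
(.lf (nat_lit 125292) (.g (nat_lit 1640) (.e (nat_lit 7266) (nat_lit 384) (.e (nat_lit 57426) (nat_lit 15) (.e (nat_lit 360452) (nat_lit 0) (.e (nat_lit 7272) (nat_lit 385) (.e (nat_lit 122919) (nat_lit 15) .nil))))) .nil))) (.nd (nat_lit 5) 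
(.lf (nat_lit 125276) (.g (nat_lit 1051) (.e (nat_lit 7266) (nat_lit 384) (.e (nat_lit 57426) (nat_lit 15) (.e (nat_lit 360451) (nat_lit 0) (.e (nat_lit 7265) (nat_lit 384) .nil)))) .nil)) 
(.lf (nat_lit 125308) (.g (nat_lit 2944) (.e (nat_lit 7266) (nat_lit 384) (.e (nat_lit 57426) (nat_lit 15) (.e (nat_lit 360491) (nat_lit 22) (.e (nat_lit 778466) (nat_lit 11) (.e (nat_lit 24641) (nat_lit 10) (.e (nat_lit 344096) (nat_lit 18) .nil)))))) (.g (nat_lit 0) .nil .nil))))))) (.nd (nat_lit 2) (.nd (nat_lit 3) (.nd (nat_lit 4) (.nd (nat_lit 5) 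
(.lf (nat_lit 125250) (.g (nat_lit 2794) (.e (nat_lit 7266) (nat_lit 384) (.e (nat_lit 57424) (nat_lit 14) (.e (nat_lit 352322) (nat_lit 26) (.e (nat_lit 147496) (nat_lit 11) (.e (nat_lit 24640) (nat_lit 10) (.e (nat_lit 344090) (nat_lit 18) .nil)))))) (.g (nat_lit 4) .nil .nil))) 
(.lf (nat_lit 125282) (.g (nat_lit 1504) (.e (nat_lit 7266) (nat_lit 384) (.e (nat_lit 57426) (nat_lit 15) (.e (nat_lit 360452) (nat_lit 0) (.e (nat_lit 7270) (nat_lit 385) (.e (nat_lit 122916) (nat_lit 14) .nil))))) .nil))) (.nd (nat_lit 5) 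
(.lf (nat_lit 125266) (.g (nat_lit 3191) (.e (nat_lit 7266) (nat_lit 384) (.e (nat_lit 57424) (nat_lit 14) (.e (nat_lit 352324) (nat_lit 26) (.e (nat_lit 147496) (nat_lit 11) (.e (nat_lit 24640) (nat_lit 10) (.e (nat_lit 344090) (nat_lit 18) .nil)))))) (.g (nat_lit 4) .nil .nil))) 
(.lf (nat_lit 125298) (.g (nat_lit 2289) (.e (nat_lit 7266) (nat_lit 384) (.e (nat_lit 57426) (nat_lit 15) (.e (nat_lit 360491) (nat_lit 22) (.e (nat_lit 778464) (nat_lit 11) (.e (nat_lit 24640) (nat_lit 10) (.e (nat_lit 344094) (nat_lit 18) .nil)))))) (.g (nat_lit 5) .nil .nil))))) (.nd (nat_lit 4) (.nd (nat_lit 5) 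
(.lf (nat_lit 125258) (.g (nat_lit 3485) (.e (nat_lit 7266) (nat_lit 384) (.e (nat_lit 57424) (nat_lit 14) (.e (nat_lit 352324) (nat_lit 26) (.e (nat_lit 147495) (nat_lit 11) (.e (nat_lit 24639) (nat_lit 10) (.e (nat_lit 344090) (nat_lit 18) .nil)))))) (.g (nat_lit 5) .nil .nil))) 
(.lf (nat_lit 125290) (.g (nat_lit 1577) (.e (nat_lit 7266) (nat_lit 384) (.e (nat_lit 57426) (nat_lit 15) (.e (nat_lit 360452) (nat_lit 0) (.e (nat_lit 7272) (nat_lit 385) (.e (nat_lit 122916) (nat_lit 14) .nil))))) .nil))) (.nd (nat_lit 5) 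
(.lf (nat_lit 125274) (.g (nat_lit 2045) (.e (nat_lit 7266) (nat_lit 384) (.e (nat_lit 57426) (nat_lit 15) (.e (nat_lit 360451) (nat_lit 0) (.e (nat_lit 7122) (nat_lit 382) (.e (nat_lit 1201) (nat_lit 88) .nil))))) .nil)) 
(.lf (nat_lit 125306) (.g (nat_lit 1670) (.e (nat_lit 7266) (nat_lit 384) (.e (nat_lit 57426) (nat_lit 15) (.e (nat_lit 360491) (nat_lit 22) (.e (nat_lit 778466) (nat_lit 11) (.e (nat_lit 24640) (nat_lit 10) (.e (nat_lit 344095) (nat_lit 18) .nil)))))) (.g (nat_lit 4) .nil .nil)))))) (.nd (nat_lit 3) (.nd (nat_lit 4) (.nd (nat_lit 5) 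
(.lf (nat_lit 125254) (.g (nat_lit 647) (.e (nat_lit 7266) (nat_lit 384) (.e (nat_lit 57424) (nat_lit 14) (.e (nat_lit 352324) (nat_lit 26) .nil))) .nil)) 
(.lf (nat_lit 125286) (.g (nat_lit 2584) (.e (nat_lit 7266) (nat_lit 384) (.e (nat_lit 57426) (nat_lit 15) (.e (nat_lit 360452) (nat_lit 0) (.e (nat_lit 7270) (nat_lit 385) (.e (nat_lit 122919) (nat_lit 15) (.e (nat_lit 368384) (nat_lit 0) .nil)))))) (.g (nat_lit 5) .nil .nil)))) (.nd (nat_lit 5) 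
(.lf (nat_lit 125270) (.g (nat_lit 2738) (.e (nat_lit 7266) (nat_lit 384) (.e (nat_lit 57424) (nat_lit 14) (.e (nat_lit 352324) (nat_lit 26) (.e (nat_lit 147496) (nat_lit 11) (.e (nat_lit 24641) (nat_lit 10) (.e (nat_lit 344096) (nat_lit 18) .nil)))))) (.g (nat_lit 4) .nil .nil))) 
(.lf (nat_lit 125302) (.g (nat_lit 2656) (.e (nat_lit 7266) (nat_lit 384) (.e (nat_lit 57426) (nat_lit 15) (.e (nat_lit 360491) (nat_lit 22) (.e (nat_lit 778466) (nat_lit 11) (.e (nat_lit 24639) (nat_lit 10) (.e (nat_lit 344096) (nat_lit 18) .nil)))))) (.g (nat_lit 6) .nil .nil))))) (.nd (nat_lit 4) (.nd (nat_lit 5) 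
(.lf (nat_lit 125262) (.g (nat_lit 2678) (.e (nat_lit 7266) (nat_lit 384) (.e (nat_lit 57424) (nat_lit 14) (.e (nat_lit 352324) (nat_lit 26) (.e (nat_lit 147495) (nat_lit 11) (.e (nat_lit 24640) (nat_lit 10) (.e (nat_lit 344094) (nat_lit 18) .nil)))))) (.g (nat_lit 4) .nil .nil))) 
(.lf (nat_lit 125294) (.g (nat_lit 1449) (.e (nat_lit 7266) (nat_lit 384) (.e (nat_lit 57426) (nat_lit 15) (.e (nat_lit 360452) (nat_lit 0) (.e (nat_lit 7273) (nat_lit 385) (.e (nat_lit 122918) (nat_lit 15) .nil))))) .nil))) (.nd (nat_lit 5) 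
(.lf (nat_lit 125278) (.g (nat_lit 2990) (.e (nat_lit 7266) (nat_lit 384) (.e (nat_lit 57426) (nat_lit 15) (.e (nat_lit 360451) (nat_lit 0) (.e (nat_lit 7266) (nat_lit 384) (.e (nat_lit 57426) (nat_lit 15) (.e (nat_lit 360451) (nat_lit 0) .nil)))))) (.g (nat_lit 5) .nil .nil))) 
(.lf (nat_lit 125310) (.g (nat_lit 3524) (.e (nat_lit 7266) (nat_lit 384) (.e (nat_lit 57427) (nat_lit 15) (.e (nat_lit 360449) (nat_lit 0) (.e (nat_lit 7125) (nat_lit 382) (.e (nat_lit 1201) (nat_lit 88) (.e (nat_lit 65610) (nat_lit 10) (.e (nat_lit 344090) (nat_lit 18) .nil))))))) (.g (nat_lit 6) .nil .nil)))))))) 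
(.nd (nat_lit 1) (.nd (nat_lit 2) (.nd (nat_lit 3) (.nd (nat_lit 4) (.nd (nat_lit 5) 
(.lf (nat_lit 125249) (.g (nat_lit 2393) (.e (nat_lit 7266) (nat_lit 384) (.e (nat_lit 57424) (nat_lit 14) (.e (nat_lit 352322) (nat_lit 26) (.e (nat_lit 147496) (nat_lit 11) (.e (nat_lit 24639) (nat_lit 10) (.e (nat_lit 344090) (nat_lit 18) .nil)))))) (.g (nat_lit 4) .nil .nil))) 
(.lf (nat_lit 125281) (.g (nat_lit 3419) (.e (nat_lit 7266) (nat_lit 384) (.e (nat_lit 57426) (nat_lit 15) (.e (nat_lit 360451) (nat_lit 0) (.e (nat_lit 7266) (nat_lit 384) (.e (nat_lit 57427) (nat_lit 15) (.e (nat_lit 360451) (nat_lit 0) .nil)))))) (.g (nat_lit 6) .nil .nil)))) (.nd (nat_lit 5) 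
(.lf (nat_lit 125265) (.g (nat_lit 3317) (.e (nat_lit 7266) (nat_lit 384) (.e (nat_lit 57424) (nat_lit 14) (.e (nat_lit 352324) (nat_lit 26) (.e (nat_lit 147496) (nat_lit 11) (.e (nat_lit 24639) (nat_lit 10) (.e (nat_lit 344096) (nat_lit 18) .nil)))))) (.g (nat_lit 4) .nil .nil))) 
(.lf (nat_lit 125297) (.g (nat_lit 1374) (.e (nat_lit 7266) (nat_lit 384) (.e (nat_lit 57426) (nat_lit 15) (.e (nat_lit 360489) (nat_lit 21) (.e (nat_lit 770072) (nat_lit 8) (.e (nat_lit 65617) (nat_lit 10) (.e (nat_lit 344095) (nat_lit 18) .nil)))))) (.g (nat_lit 4) .nil .nil))))) (.nd (nat_lit 4) (.nd (nat_lit 5) 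
(.lf (nat_lit 125257) (.g (nat_lit 2708) (.e (nat_lit 7266) (nat_lit 384) (.e (nat_lit 57424) (nat_lit 14) (.e (nat_lit 352324) (nat_lit 26) (.e (nat_lit 147494) (nat_lit 11) (.e (nat_lit 24640) (nat_lit 10) (.e (nat_lit 344096) (nat_lit 18) .nil)))))) (.g (nat_lit 4) .nil .nil))) 
(.lf (nat_lit 125289) (.g (nat_lit 1916) (.e (nat_lit 7266) (nat_lit 384) (.e (nat_lit 57426) (nat_lit 15) (.e (nat_lit 360452) (nat_lit 0) (.e (nat_lit 7272) (nat_lit 385) (.e (nat_lit 122906) (nat_lit 12) (.e (nat_lit 336172) (nat_lit 10) (.e (nat_lit 344096) (nat_lit 18) .nil))))))) (.g (nat_lit 4) .nil .nil)))) (.nd (nat_lit 5) 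
(.lf (nat_lit 125273) (.g (nat_lit 1899) (.e (nat_lit 7266) (nat_lit 384) (.e (nat_lit 57426) (nat_lit 15) (.e (nat_lit 360450) (nat_lit 0) (.e (nat_lit 7122) (nat_lit 382) (.e (nat_lit 1201) (nat_lit 88) .nil))))) .nil)) 
(.lf (nat_lit 125305) (.g (nat_lit 3023) (.e (nat_lit 7266) (nat_lit 384) (.e (nat_lit 57426) (nat_lit 15) (.e (nat_lit 360491) (nat_lit 22) (.e (nat_lit 778466) (nat_lit 11) (.e (nat_lit 24640) (nat_lit 10) (.e (nat_lit 344094) (nat_lit 18) .nil)))))) (.g (nat_lit 0) .nil .nil)))))) (.nd (nat_lit 3) (.nd (nat_lit 4) (.nd (nat_lit 5) 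
(.lf (nat_lit 125253) (.g (nat_lit 2237) (.e (nat_lit 7266) (nat_lit 384) (.e (nat_lit 57424) (nat_lit 14) (.e (nat_lit 352323) (nat_lit 26) (.e (nat_lit 147496) (nat_lit 11) (.e (nat_lit 24639) (nat_lit 10) (.e (nat_lit 344090) (nat_lit 18) .nil)))))) (.g (nat_lit 4) .nil .nil))) 
(.lf (nat_lit 125285) (.g (nat_lit 3196) (.e (nat_lit 7266) (nat_lit 384) (.e (nat_lit 57426) (nat_lit 15) (.e (nat_lit 360452) (nat_lit 0) (.e (nat_lit 7270) (nat_lit 385) (.e (nat_lit 122919) (nat_lit 15) (.e (nat_lit 360450) (nat_lit 0) .nil)))))) (.g (nat_lit 5) .nil .nil)))) (.nd (nat_lit 5) 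
(.lf (nat_lit 125269) (.g (nat_lit 3765) (.e (nat_lit 7266) (nat_lit 384) (.e (nat_lit 57424) (nat_lit 14) (.e (nat_lit 352324) (nat_lit 26) (.e (nat_lit 147496) (nat_lit 11) (.e (nat_lit 24640) (nat_lit 10) (.e (nat_lit 344096) (nat_lit 18) .nil)))))) (.g (nat_lit 5) .nil .nil))) 
(.lf (nat_lit 125301) (.g (nat_lit 2656) (.e (nat_lit 7266) (nat_lit 384) (.e (nat_lit 57426) (nat_lit 15) (.e (nat_lit 360491) (nat_lit 22) (.e (nat_lit 778465) (nat_lit 11) (.e (nat_lit 24640) (nat_lit 10) (.e (nat_lit 344094) (nat_lit 18) .nil)))))) (.g (nat_lit 5) .nil .nil))))) (.nd (nat_lit 4) (.nd (nat_lit 5) 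
(.lf (nat_lit 125261) (.g (nat_lit 2813) (.e (nat_lit 7266) (nat_lit 384) (.e (nat_lit 57424) (nat_lit 14) (.e (nat_lit 352324) (nat_lit 26) (.e (nat_lit 147495) (nat_lit 11) (.e (nat_lit 24640) (nat_lit 10) (.e (nat_lit 344091) (nat_lit 18) .nil)))))) (.g (nat_lit 4) .nil .nil))) 
(.lf (nat_lit 125293) (.g (nat_lit 2298) (.e (nat_lit 7266) (nat_lit 384) (.e (nat_lit 57426) (nat_lit 15) (.e (nat_lit 360452) (nat_lit 0) (.e (nat_lit 7272) (nat_lit 385) (.e (nat_lit 122919) (nat_lit 15) (.e (nat_lit 368384) (nat_lit 0) .nil)))))) (.g (nat_lit 4) .nil .nil)))) (.nd (nat_lit 5) 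
(.lf (nat_lit 125277) (.g (nat_lit 1845) (.e (nat_lit 7266) (nat_lit 384) (.e (nat_lit 57426) (nat_lit 15) (.e (nat_lit 360451) (nat_lit 0) (.e (nat_lit 7265) (nat_lit 384) (.e (nat_lit 57427) (nat_lit 15) .nil))))) .nil)) 
(.lf (nat_lit 125309) (.g (nat_lit 1928) (.e (nat_lit 7266) (nat_lit 384) (.e (nat_lit 57426) (nat_lit 15) (.e (nat_lit 360492) (nat_lit 22) (.e (nat_lit 778465) (nat_lit 11) (.e (nat_lit 24640) (nat_lit 10) (.e (nat_lit 344096) (nat_lit 18) .nil)))))) (.g (nat_lit 4) .nil .nil))))))) (.nd (nat_lit 2) (.nd (nat_lit 3) (.nd (nat_lit 4) (.nd (nat_lit 5) 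
(.lf (nat_lit 125251) (.g (nat_lit 807) (.e (nat_lit 7266) (nat_lit 384) (.e (nat_lit 57424) (nat_lit 14) (.e (nat_lit 352323) (nat_lit 26) .nil))) .nil)) 
(.lf (nat_lit 125283) (.g (nat_lit 2772) (.e (nat_lit 7266) (nat_lit 384) (.e (nat_lit 57426) (nat_lit 15) (.e (nat_lit 360452) (nat_lit 0) (.e (nat_lit 7270) (nat_lit 385) (.e (nat_lit 122917) (nat_lit 15) (.e (nat_lit 368384) (nat_lit 0) .nil)))))) (.g (nat_lit 5) .nil .nil)))) (.nd (nat_lit 5) 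
(.lf (nat_lit 125267) (.g (nat_lit 2588) (.e (nat_lit 7266) (nat_lit 384) (.e (nat_lit 57424) (nat_lit 14) (.e (nat_lit 352324) (nat_lit 26) (.e (nat_lit 147496) (nat_lit 11) (.e (nat_lit 24640) (nat_lit 10) (.e (nat_lit 344091) (nat_lit 18) .nil)))))) (.g (nat_lit 4) .nil .nil))) 
(.lf (nat_lit 125299) (.g (nat_lit 2777) (.e (nat_lit 7266) (nat_lit 384) (.e (nat_lit 57426) (nat_lit 15) (.e (nat_lit 360491) (nat_lit 22) (.e (nat_lit 778465) (nat_lit 11) (.e (nat_lit 24639) (nat_lit 10) (.e (nat_lit 344096) (nat_lit 18) .nil)))))) (.g (nat_lit 6) .nil .nil))))) (.nd (nat_lit 4) (.nd (nat_lit 5) 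
(.lf (nat_lit 125259) (.g (nat_lit 3567) (.e (nat_lit 7266) (nat_lit 384) (.e (nat_lit 57424) (nat_lit 14) (.e (nat_lit 352324) (nat_lit 26) (.e (nat_lit 147495) (nat_lit 11) (.e (nat_lit 24639) (nat_lit 10) (.e (nat_lit 344096) (nat_lit 18) .nil)))))) (.g (nat_lit 5) .nil .nil))) 
(.lf (nat_lit 125291) (.g (nat_lit 2523) (.e (nat_lit 7266) (nat_lit 384) (.e (nat_lit 57426) (nat_lit 15) (.e (nat_lit 360452) (nat_lit 0) (.e (nat_lit 7272) (nat_lit 385) (.e (nat_lit 122917) (nat_lit 15) (.e (nat_lit 368384) (nat_lit 0) .nil)))))) (.g (nat_lit 5) .nil .nil)))) (.nd (nat_lit 5) 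
(.lf (nat_lit 125275) (.g (nat_lit 1163) (.e (nat_lit 7266) (nat_lit 384) (.e (nat_lit 57426) (nat_lit 15) (.e (nat_lit 360451) (nat_lit 0) (.e (nat_lit 7263) (nat_lit 384) .nil)))) .nil)) 
(.lf (nat_lit 125307) (.g (nat_lit 2611) (.e (nat_lit 7266) (nat_lit 384) (.e (nat_lit 57426) (nat_lit 15) (.e (nat_lit 360491) (nat_lit 22) (.e (nat_lit 778466) (nat_lit 11) (.e (nat_lit 24641) (nat_lit 10) (.e (nat_lit 344091) (nat_lit 18) .nil)))))) (.g (nat_lit 6) .nil .nil)))))) (.nd (nat_lit 3) (.nd (nat_lit 4) (.nd (nat_lit 5) 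
(.lf (nat_lit 125255) (.g (nat_lit 1894) (.e (nat_lit 7266) (nat_lit 384) (.e (nat_lit 57424) (nat_lit 14) (.e (nat_lit 352324) (nat_lit 26) (.e (nat_lit 147489) (nat_lit 10) .nil)))) .nil)) 
(.lf (nat_lit 125287) (.g (nat_lit 2146) (.e (nat_lit 7266) (nat_lit 384) (.e (nat_lit 57426) (nat_lit 15) (.e (nat_lit 360452) (nat_lit 0) (.e (nat_lit 7271) (nat_lit 385) (.e (nat_lit 122917) (nat_lit 15) (.e (nat_lit 368384) (nat_lit 0) .nil)))))) (.g (nat_lit 5) .nil .nil)))) (.nd (nat_lit 5) 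
(.lf (nat_lit 125271) (.g (nat_lit 1934) (.e (nat_lit 7266) (nat_lit 384) (.e (nat_lit 57426) (nat_lit 15) (.e (nat_lit 360449) (nat_lit 0) (.e (nat_lit 7265) (nat_lit 384) (.e (nat_lit 57412) (nat_lit 12) (.e (nat_lit 336176) (nat_lit 10) (.e (nat_lit 344095) (nat_lit 18) .nil))))))) (.g (nat_lit 4) .nil .nil))) 
(.lf (nat_lit 125303) (.g (nat_lit 2985) (.e (nat_lit 7266) (nat_lit 384) (.e (nat_lit 57426) (nat_lit 15) (.e (nat_lit 360491) (nat_lit 22) (.e (nat_lit 778466) (nat_lit 11) (.e (nat_lit 24640) (nat_lit 10) (.e (nat_lit 344088) (nat_lit 18) .nil)))))) (.g (nat_lit 0) .nil .nil))))) (.nd (nat_lit 4) (.nd (nat_lit 5) 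
(.lf (nat_lit 125263) (.g (nat_lit 3770) (.e (nat_lit 7266) (nat_lit 384) (.e (nat_lit 57424) (nat_lit 14) (.e (nat_lit 352324) (nat_lit 26) (.e (nat_lit 147495) (nat_lit 11) (.e (nat_lit 24640) (nat_lit 10) (.e (nat_lit 344096) (nat_lit 18) .nil)))))) (.g (nat_lit 5) .nil .nil))) 
(.lf (nat_lit 125295) (.g (nat_lit 1422) (.e (nat_lit 7266) (nat_lit 384) (.e (nat_lit 57426) (nat_lit 15) (.e (nat_lit 360489) (nat_lit 21) (.e (nat_lit 770071) (nat_lit 8) (.e (nat_lit 65617) (nat_lit 10) (.e (nat_lit 344095) (nat_lit 18) .nil)))))) (.g (nat_lit 4) .nil .nil)))) (.nd (nat_lit 5) 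
(.lf (nat_lit 125279) (.g (nat_lit 2762) (.e (nat_lit 7266) (nat_lit 384) (.e (nat_lit 57426) (nat_lit 15) (.e (nat_lit 360451) (nat_lit 0) (.e (nat_lit 7266) (nat_lit 384) (.e (nat_lit 57427) (nat_lit 15) (.e (nat_lit 360449) (nat_lit 0) .nil)))))) (.g (nat_lit 5) .nil .nil))) 
(.lf (nat_lit 125311) (.g (nat_lit 3551) (.e (nat_lit 7266) (nat_lit 384) (.e (nat_lit 57427) (nat_lit 15) (.e (nat_lit 360449) (nat_lit 0) (.e (nat_lit 7125) (nat_lit 382) (.e (nat_lit 1201) (nat_lit 88) (.e (nat_lit 65617) (nat_lit 10) (.e (nat_lit 344091) (nat_lit 18) .nil))))))) (.g (nat_lit 6) .nil .nil)))))))))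

noncomputable def tv1681 : DT := (.nd (nat_lit 0) (.nd (nat_lit 1) (.nd (nat_lit 2) (.nd (nat_lit 3) (.nd (nat_lit 4) (.nd (nat_lit 5) 
(.lf (nat_lit 125312) (.g (nat_lit 1846) (.e (nat_lit 7266) (nat_lit 384) (.e (nat_lit 57427) (nat_lit 15) (.e (nat_lit 360449) (nat_lit 0) (.e (nat_lit 7265) (nat_lit 384) (.e (nat_lit 57427) (nat_lit 15) .nil))))) .nil)) 
(.lf (nat_lit 125344) (.g (nat_lit 2078) (.e (nat_lit 7266) (nat_lit 384) (.e (nat_lit 57427) (nat_lit 15) (.e (nat_lit 360451) (nat_lit 0) (.e (nat_lit 7266) (nat_lit 384) (.e (nat_lit 57428) (nat_lit 15) (.e (nat_lit 360449) (nat_lit 0) .nil)))))) (.g (nat_lit 4) .nil .nil)))) (.nd (nat_lit 5) 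
(.lf (nat_lit 125328) (.g (nat_lit 1349) (.e (nat_lit 7266) (nat_lit 384) (.e (nat_lit 57427) (nat_lit 15) (.e (nat_lit 360450) (nat_lit 0) (.e (nat_lit 7263) (nat_lit 384) .nil)))) .nil)) 
(.lf (nat_lit 125360) (.g (nat_lit 3111) (.e (nat_lit 7266) (nat_lit 384) (.e (nat_lit 57427) (nat_lit 15) (.e (nat_lit 360491) (nat_lit 22) (.e (nat_lit 778466) (nat_lit 11) (.e (nat_lit 24640) (nat_lit 10) (.e (nat_lit 344094) (nat_lit 18) .nil)))))) (.g (nat_lit 0) .nil .nil))))) (.nd (nat_lit 4) (.nd (nat_lit 5) 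
(.lf (nat_lit 125320) (.g (nat_lit 3101) (.e (nat_lit 7266) (nat_lit 384) (.e (nat_lit 57427) (nat_lit 15) (.e (nat_lit 360450) (nat_lit 0) (.e (nat_lit 7125) (nat_lit 382) (.e (nat_lit 1201) (nat_lit 88) (.e (nat_lit 65617) (nat_lit 10) (.e (nat_lit 344095) (nat_lit 18) .nil))))))) (.g (nat_lit 5) .nil .nil))) 
(.lf (nat_lit 125352) (.g (nat_lit 2692) (.e (nat_lit 7266) (nat_lit 384) (.e (nat_lit 57427) (nat_lit 15) (.e (nat_lit 360489) (nat_lit 21) (.e (nat_lit 770071) (nat_lit 8) (.e (nat_lit 65619) (nat_lit 10) (.e (nat_lit 344090) (nat_lit 18) .nil)))))) (.g (nat_lit 6) .nil .nil)))) (.nd (nat_lit 5) 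
(.lf (nat_lit 125336) (.g (nat_lit 1493) (.e (nat_lit 7266) (nat_lit 384) (.e (nat_lit 57427) (nat_lit 15) (.e (nat_lit 360451) (nat_lit 0) (.e (nat_lit 7122) (nat_lit 382) (.e (nat_lit 1222) (nat_lit 90) .nil))))) .nil)) 
(.lf (nat_lit 125368) (.g (nat_lit 1983) (.e (nat_lit 7266) (nat_lit 384) (.e (nat_lit 57427) (nat_lit 15) (.e (nat_lit 360492) (nat_lit 22) (.e (nat_lit 778466) (nat_lit 11) (.e (nat_lit 24639) (nat_lit 10) (.e (nat_lit 344090) (nat_lit 18) .nil)))))) (.g (nat_lit 4) .nil .nil)))))) (.nd (nat_lit 3) (.nd (nat_lit 4) (.nd (nat_lit 5) 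
(.lf (nat_lit 125316) (.g (nat_lit 235) (.e (nat_lit 7266) (nat_lit 384) (.e (nat_lit 57427) (nat_lit 15) (.e (nat_lit 360450) (nat_lit 0) .nil))) .nil)) 
(.lf (nat_lit 125348) (.g (nat_lit 610) (.e (nat_lit 7266) (nat_lit 384) (.e (nat_lit 57427) (nat_lit 15) (.e (nat_lit 360487) (nat_lit 19) .nil))) .nil))) (.nd (nat_lit 5) 
(.lf (nat_lit 125332) (.g (nat_lit 412) (.e (nat_lit 7266) (nat_lit 384) (.e (nat_lit 57427) (nat_lit 15) (.e (nat_lit 360451) (nat_lit 0) .nil))) .nil)) 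
(.lf (nat_lit 125364) (.g (nat_lit 1950) (.e (nat_lit 7266) (nat_lit 384) (.e (nat_lit 57427) (nat_lit 15) (.e (nat_lit 360492) (nat_lit 22) (.e (nat_lit 778362) (nat_lit 9) (.e (nat_lit 324) (nat_lit 24) (.e (nat_lit 360449) (nat_lit 0) .nil)))))) (.g (nat_lit 4) .nil .nil))))) (.nd (nat_lit 4) (.nd (nat_lit 5) 
(.lf (nat_lit 125324) (.g (nat_lit 1493) (.e (nat_lit 7266) (nat_lit 384) (.e (nat_lit 57427) (nat_lit 15) (.e (nat_lit 360450) (nat_lit 0) (.e (nat_lit 7220) (nat_lit 382) .nil)))) .nil)) 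
(.lf (nat_lit 125356) (.g (nat_lit 2433) (.e (nat_lit 7266) (nat_lit 384) (.e (nat_lit 57427) (nat_lit 15) (.e (nat_lit 360491) (nat_lit 22) (.e (nat_lit 778465) (nat_lit 11) (.e (nat_lit 24640) (nat_lit 10) (.e (nat_lit 344091) (nat_lit 18) .nil)))))) (.g (nat_lit 5) .nil .nil)))) (.nd (nat_lit 5) 
(.lf (nat_lit 125340) (.g (nat_lit 1498) (.e (nat_lit 7266) (nat_lit 384) (.e (nat_lit 57427) (nat_lit 15) (.e (nat_lit 360451) (nat_lit 0) (.e (nat_lit 7263) (nat_lit 384) .nil)))) .nil)) 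
(.lf (nat_lit 125372) (.g (nat_lit 2855) (.e (nat_lit 7266) (nat_lit 384) (.e (nat_lit 57427) (nat_lit 15) (.e (nat_lit 360492) (nat_lit 22) (.e (nat_lit 778466) (nat_lit 11) (.e (nat_lit 24640) (nat_lit 10) (.e (nat_lit 344096) (nat_lit 18) .nil)))))) (.g (nat_lit 5) .nil .nil))))))) (.nd (nat_lit 2) (.nd (nat_lit 3) (.nd (nat_lit 4) (.nd (nat_lit 5) 
(.lf (nat_lit 125314) (.g (nat_lit 3217) (.e (nat_lit 7266) (nat_lit 384) (.e (nat_lit 57427) (nat_lit 15) (.e (nat_lit 360449) (nat_lit 0) (.e (nat_lit 7266) (nat_lit 384) (.e (nat_lit 57427) (nat_lit 15) (.e (nat_lit 360450) (nat_lit 0) .nil)))))) (.g (nat_lit 6) .nil .nil))) 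
(.lf (nat_lit 125346) (.g (nat_lit 2091) (.e (nat_lit 7266) (nat_lit 384) (.e (nat_lit 57427) (nat_lit 15) (.e (nat_lit 360452) (nat_lit 0) (.e (nat_lit 7272) (nat_lit 385) (.e (nat_lit 122917) (nat_lit 15) .nil))))) .nil))) (.nd (nat_lit 5) 
(.lf (nat_lit 125330) (.g (nat_lit 1783) (.e (nat_lit 7266) (nat_lit 384) (.e (nat_lit 57427) (nat_lit 15) (.e (nat_lit 360450) (nat_lit 0) (.e (nat_lit 7263) (nat_lit 384) (.e (nat_lit 57428) (nat_lit 15) .nil))))) .nil)) 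
(.lf (nat_lit 125362) (.g (nat_lit 565) (.e (nat_lit 7266) (nat_lit 384) (.e (nat_lit 57427) (nat_lit 15) (.e (nat_lit 360492) (nat_lit 22) .nil))) .nil)))) (.nd (nat_lit 4) (.nd (nat_lit 5) 
(.lf (nat_lit 125322) (.g (nat_lit 1410) (.e (nat_lit 7266) (nat_lit 384) (.e (nat_lit 57427) (nat_lit 15) (.e (nat_lit 360450) (nat_lit 0) (.e (nat_lit 7128) (nat_lit 382) (.e (nat_lit 1187) (nat_lit 88) .nil))))) .nil)) 
(.lf (nat_lit 125354) (.g (nat_lit 2381) (.e (nat_lit 7266) (nat_lit 384) (.e (nat_lit 57427) (nat_lit 15) (.e (nat_lit 360491) (nat_lit 22) (.e (nat_lit 778464) (nat_lit 11) (.e (nat_lit 24640) (nat_lit 10) (.e (nat_lit 344094) (nat_lit 18) .nil)))))) (.g (nat_lit 5) .nil .nil)))) (.nd (nat_lit 5) 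
(.lf (nat_lit 125338) (.g (nat_lit 3201) (.e (nat_lit 7266) (nat_lit 384) (.e (nat_lit 57427) (nat_lit 15) (.e (nat_lit 360451) (nat_lit 0) (.e (nat_lit 7125) (nat_lit 382) (.e (nat_lit 1201) (nat_lit 88) (.e (nat_lit 65617) (nat_lit 10) (.e (nat_lit 344095) (nat_lit 18) .nil))))))) (.g (nat_lit 5) .nil .nil))) 
(.lf (nat_lit 125370) (.g (nat_lit 2513) (.e (nat_lit 7266) (nat_lit 384) (.e (nat_lit 57427) (nat_lit 15) (.e (nat_lit 360492) (nat_lit 22) (.e (nat_lit 778466) (nat_lit 11) (.e (nat_lit 24640) (nat_lit 10) (.e (nat_lit 344090) (nat_lit 18) .nil)))))) (.g (nat_lit 5) .nil .nil)))))) (.nd (nat_lit 3) (.nd (nat_lit 4) (.nd (nat_lit 5) 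
(.lf (nat_lit 125318) (.g (nat_lit 2132) (.e (nat_lit 7266) (nat_lit 384) (.e (nat_lit 57427) (nat_lit 15) (.e (nat_lit 360450) (nat_lit 0) (.e (nat_lit 7122) (nat_lit 382) (.e (nat_lit 1201) (nat_lit 88) .nil))))) .nil)) 
(.lf (nat_lit 125350) (.g (nat_lit 2897) (.e (nat_lit 7266) (nat_lit 384) (.e (nat_lit 57427) (nat_lit 15) (.e (nat_lit 360489) (nat_lit 21) (.e (nat_lit 770057) (nat_lit 5) (.e (nat_lit 1589) (nat_lit 111) (.e (nat_lit 360451) (nat_lit 0) .nil)))))) (.g (nat_lit 0) .nil .nil)))) (.nd (nat_lit 5) 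
(.lf (nat_lit 125334) (.g (nat_lit 2195) (.e (nat_lit 7266) (nat_lit 384) (.e (nat_lit 57427) (nat_lit 15) (.e (nat_lit 360451) (nat_lit 0) (.e (nat_lit 7122) (nat_lit 382) (.e (nat_lit 1016) (nat_lit 81) .nil))))) .nil)) 
(.lf (nat_lit 125366) (.g (nat_lit 2419) (.e (nat_lit 7266) (nat_lit 384) (.e (nat_lit 57427) (nat_lit 15) (.e (nat_lit 360492) (nat_lit 22) (.e (nat_lit 778465) (nat_lit 11) (.e (nat_lit 24639) (nat_lit 10) (.e (nat_lit 344096) (nat_lit 18) .nil)))))) (.g (nat_lit 5) .nil .nil))))) (.nd (nat_lit 4) (.nd (nat_lit 5) 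
(.lf (nat_lit 125326) (.g (nat_lit 2482) (.e (nat_lit 7266) (nat_lit 384) (.e (nat_lit 57427) (nat_lit 15) (.e (nat_lit 360450) (nat_lit 0) (.e (nat_lit 7261) (nat_lit 384) (.e (nat_lit 57412) (nat_lit 12) (.e (nat_lit 336176) (nat_lit 10) (.e (nat_lit 344095) (nat_lit 18) .nil))))))) (.g (nat_lit 4) .nil .nil))) 
(.lf (nat_lit 125358) (.g (nat_lit 3091) (.e (nat_lit 7266) (nat_lit 384) (.e (nat_lit 57427) (nat_lit 15) (.e (nat_lit 360491) (nat_lit 22) (.e (nat_lit 778466) (nat_lit 11) (.e (nat_lit 24640) (nat_lit 10) (.e (nat_lit 344088) (nat_lit 18) .nil)))))) (.g (nat_lit 0) .nil .nil)))) (.nd (nat_lit 5) 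
(.lf (nat_lit 125342) (.g (nat_lit 2312) (.e (nat_lit 7266) (nat_lit 384) (.e (nat_lit 57427) (nat_lit 15) (.e (nat_lit 360451) (nat_lit 0) (.e (nat_lit 7265) (nat_lit 384) (.e (nat_lit 57427) (nat_lit 15) (.e (nat_lit 368384) (nat_lit 0) .nil)))))) (.g (nat_lit 4) .nil .nil))) 
(.lf (nat_lit 125374) (.g (nat_lit 2414) (.e (nat_lit 7266) (nat_lit 384) (.e (nat_lit 57428) (nat_lit 15) (.e (nat_lit 360449) (nat_lit 0) (.e (nat_lit 7125) (nat_lit 382) (.e (nat_lit 1201) (nat_lit 88) (.e (nat_lit 65617) (nat_lit 10) (.e (nat_lit 344091) (nat_lit 18) .nil))))))) (.g (nat_lit 4) .nil .nil)))))))) 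
(.nd (nat_lit 1) (.nd (nat_lit 2) (.nd (nat_lit 3) (.nd (nat_lit 4) (.nd (nat_lit 5) 
(.lf (nat_lit 125313) (.g (nat_lit 2483) (.e (nat_lit 7266) (nat_lit 384) (.e (nat_lit 57427) (nat_lit 15) (.e (nat_lit 360449) (nat_lit 0) (.e (nat_lit 7265) (nat_lit 384) (.e (nat_lit 57427) (nat_lit 15) (.e (nat_lit 360449) (nat_lit 0) .nil)))))) (.g (nat_lit 4) .nil .nil))) 
(.lf (nat_lit 125345) (.g (nat_lit 2906) (.e (nat_lit 7266) (nat_lit 384) (.e (nat_lit 57427) (nat_lit 15) (.e (nat_lit 360452) (nat_lit 0) (.e (nat_lit 7270) (nat_lit 385) (.e (nat_lit 122919) (nat_lit 15) (.e (nat_lit 360451) (nat_lit 0) .nil)))))) (.g (nat_lit 4) .nil .nil)))) (.nd (nat_lit 5) 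
(.lf (nat_lit 125329) (.g (nat_lit 2464) (.e (nat_lit 7266) (nat_lit 384) (.e (nat_lit 57427) (nat_lit 15) (.e (nat_lit 360450) (nat_lit 0) (.e (nat_lit 7263) (nat_lit 384) (.e (nat_lit 57412) (nat_lit 12) (.e (nat_lit 336176) (nat_lit 10) (.e (nat_lit 344095) (nat_lit 18) .nil))))))) (.g (nat_lit 4) .nil .nil))) 
(.lf (nat_lit 125361) (.g (nat_lit 1776) (.e (nat_lit 7266) (nat_lit 384) (.e (nat_lit 57427) (nat_lit 15) (.e (nat_lit 360491) (nat_lit 22) (.e (nat_lit 778466) (nat_lit 11) (.e (nat_lit 24640) (nat_lit 10) (.e (nat_lit 344095) (nat_lit 18) .nil)))))) (.g (nat_lit 4) .nil .nil))))) (.nd (nat_lit 4) (.nd (nat_lit 5) 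
(.lf (nat_lit 125321) (.g (nat_lit 1372) (.e (nat_lit 7266) (nat_lit 384) (.e (nat_lit 57427) (nat_lit 15) (.e (nat_lit 360450) (nat_lit 0) (.e (nat_lit 7128) (nat_lit 382) .nil)))) .nil)) 
(.lf (nat_lit 125353) (.g (nat_lit 1495) (.e (nat_lit 7266) (nat_lit 384) (.e (nat_lit 57427) (nat_lit 15) (.e (nat_lit 360489) (nat_lit 21) (.e (nat_lit 770072) (nat_lit 8) (.e (nat_lit 65617) (nat_lit 10) (.e (nat_lit 344095) (nat_lit 18) .nil)))))) (.g (nat_lit 4) .nil .nil)))) (.nd (nat_lit 5) 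
(.lf (nat_lit 125337) (.g (nat_lit 1026) (.e (nat_lit 7266) (nat_lit 384) (.e (nat_lit 57427) (nat_lit 15) (.e (nat_lit 360451) (nat_lit 0) (.e (nat_lit 7125) (nat_lit 382) .nil)))) .nil)) 
(.lf (nat_lit 125369) (.g (nat_lit 2040) (.e (nat_lit 7266) (nat_lit 384) (.e (nat_lit 57427) (nat_lit 15) (.e (nat_lit 360492) (nat_lit 22) (.e (nat_lit 778466) (nat_lit 11) (.e (nat_lit 24640) (nat_lit 10) (.e (nat_lit 344088) (nat_lit 18) .nil)))))) (.g (nat_lit 4) .nil .nil)))))) (.nd (nat_lit 3) (.nd (nat_lit 4) (.nd (nat_lit 5) 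
(.lf (nat_lit 125317) (.g (nat_lit 1655) (.e (nat_lit 7266) (nat_lit 384) (.e (nat_lit 57427) (nat_lit 15) (.e (nat_lit 360450) (nat_lit 0) (.e (nat_lit 7119) (nat_lit 382) .nil)))) .nil)) 
(.lf (nat_lit 125349) (.g (nat_lit 567) (.e (nat_lit 7266) (nat_lit 384) (.e (nat_lit 57427) (nat_lit 15) (.e (nat_lit 360488) (nat_lit 20) .nil))) .nil))) (.nd (nat_lit 5) 
(.lf (nat_lit 125333) (.g (nat_lit 2118) (.e (nat_lit 7266) (nat_lit 384) (.e (nat_lit 57427) (nat_lit 15) (.e (nat_lit 360451) (nat_lit 0) (.e (nat_lit 7119) (nat_lit 382) (.e (nat_lit 1201) (nat_lit 88) .nil))))) .nil)) 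
(.lf (nat_lit 125365) (.g (nat_lit 2126) (.e (nat_lit 7266) (nat_lit 384) (.e (nat_lit 57427) (nat_lit 15) (.e (nat_lit 360492) (nat_lit 22) (.e (nat_lit 778465) (nat_lit 11) (.e (nat_lit 24639) (nat_lit 10) (.e (nat_lit 344090) (nat_lit 18) .nil)))))) (.g (nat_lit 4) .nil .nil))))) (.nd (nat_lit 4) (.nd (nat_lit 5) 
(.lf (nat_lit 125325) (.g (nat_lit 1358) (.e (nat_lit 7266) (nat_lit 384) (.e (nat_lit 57427) (nat_lit 15) (.e (nat_lit 360450) (nat_lit 0) (.e (nat_lit 7261) (nat_lit 384) .nil)))) .nil)) 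
(.lf (nat_lit 125357) (.g (nat_lit 2678) (.e (nat_lit 7266) (nat_lit 384) (.e (nat_lit 57427) (nat_lit 15) (.e (nat_lit 360491) (nat_lit 22) (.e (nat_lit 778466) (nat_lit 11) (.e (nat_lit 24639) (nat_lit 10) (.e (nat_lit 344096) (nat_lit 18) .nil)))))) (.g (nat_lit 6) .nil .nil)))) (.nd (nat_lit 5) 
(.lf (nat_lit 125341) (.g (nat_lit 2402) (.e (nat_lit 7266) (nat_lit 384) (.e (nat_lit 57427) (nat_lit 15) (.e (nat_lit 360451) (nat_lit 0) (.e (nat_lit 7265) (nat_lit 384) (.e (nat_lit 57412) (nat_lit 12) (.e (nat_lit 336176) (nat_lit 10) (.e (nat_lit 344095) (nat_lit 18) .nil))))))) (.g (nat_lit 4) .nil .nil))) 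
(.lf (nat_lit 125373) (.g (nat_lit 1838) (.e (nat_lit 7266) (nat_lit 384) (.e (nat_lit 57427) (nat_lit 15) (.e (nat_lit 360492) (nat_lit 22) (.e (nat_lit 778466) (nat_lit 11) (.e (nat_lit 24641) (nat_lit 10) (.e (nat_lit 344091) (nat_lit 18) .nil)))))) (.g (nat_lit 4) .nil .nil))))))) (.nd (nat_lit 2) (.nd (nat_lit 3) (.nd (nat_lit 4) (.nd (nat_lit 5) 
(.lf (nat_lit 125315) (.g (nat_lit 3230) (.e (nat_lit 7266) (nat_lit 384) (.e (nat_lit 57427) (nat_lit 15) (.e (nat_lit 360449) (nat_lit 0) (.e (nat_lit 7266) (nat_lit 384) (.e (nat_lit 57427) (nat_lit 15) (.e (nat_lit 360451) (nat_lit 0) .nil)))))) (.g (nat_lit 6) .nil .nil))) 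
(.lf (nat_lit 125347) (.g (nat_lit 2145) (.e (nat_lit 7266) (nat_lit 384) (.e (nat_lit 57427) (nat_lit 15) (.e (nat_lit 360452) (nat_lit 0) (.e (nat_lit 7272) (nat_lit 385) (.e (nat_lit 122919) (nat_lit 15) .nil))))) .nil))) (.nd (nat_lit 5) 
(.lf (nat_lit 125331) (.g (nat_lit 1766) (.e (nat_lit 7266) (nat_lit 384) (.e (nat_lit 57427) (nat_lit 15) (.e (nat_lit 360450) (nat_lit 0) (.e (nat_lit 7265) (nat_lit 384) (.e (nat_lit 57427) (nat_lit 15) (.e (nat_lit 368384) (nat_lit 0) .nil)))))) (.g (nat_lit 4) .nil .nil))) 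
(.lf (nat_lit 125363) (.g (nat_lit 1935) (.e (nat_lit 7266) (nat_lit 384) (.e (nat_lit 57427) (nat_lit 15) (.e (nat_lit 360492) (nat_lit 22) (.e (nat_lit 778362) (nat_lit 9) (.e (nat_lit 321) (nat_lit 24) (.e (nat_lit 360449) (nat_lit 0) .nil)))))) (.g (nat_lit 4) .nil .nil))))) (.nd (nat_lit 4) (.nd (nat_lit 5) 
(.lf (nat_lit 125323) (.g (nat_lit 1664) (.e (nat_lit 7266) (nat_lit 384) (.e (nat_lit 57427) (nat_lit 15) (.e (nat_lit 360450) (nat_lit 0) (.e (nat_lit 7200) (nat_lit 382) .nil)))) .nil)) 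
(.lf (nat_lit 125355) (.g (nat_lit 2786) (.e (nat_lit 7266) (nat_lit 384) (.e (nat_lit 57427) (nat_lit 15) (.e (nat_lit 360491) (nat_lit 22) (.e (nat_lit 778465) (nat_lit 11) (.e (nat_lit 24639) (nat_lit 10) (.e (nat_lit 344096) (nat_lit 18) .nil)))))) (.g (nat_lit 6) .nil .nil)))) (.nd (nat_lit 5) 
(.lf (nat_lit 125339) (.g (nat_lit 2173) (.e (nat_lit 7266) (nat_lit 384) (.e (nat_lit 57427) (nat_lit 15) (.e (nat_lit 360451) (nat_lit 0) (.e (nat_lit 7261) (nat_lit 384) (.e (nat_lit 57412) (nat_lit 12) (.e (nat_lit 336176) (nat_lit 10) (.e (nat_lit 344095) (nat_lit 18) .nil))))))) (.g (nat_lit 4) .nil .nil))) 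
(.lf (nat_lit 125371) (.g (nat_lit 2653) (.e (nat_lit 7266) (nat_lit 384) (.e (nat_lit 57427) (nat_lit 15) (.e (nat_lit 360492) (nat_lit 22) (.e (nat_lit 778466) (nat_lit 11) (.e (nat_lit 24640) (nat_lit 10) (.e (nat_lit 344091) (nat_lit 18) .nil)))))) (.g (nat_lit 5) .nil .nil)))))) (.nd (nat_lit 3) (.nd (nat_lit 4) (.nd (nat_lit 5) 
(.lf (nat_lit 125319) (.g (nat_lit 3236) (.e (nat_lit 7266) (nat_lit 384) (.e (nat_lit 57427) (nat_lit 15) (.e (nat_lit 360450) (nat_lit 0) (.e (nat_lit 7122) (nat_lit 382) (.e (nat_lit 1201) (nat_lit 88) (.e (nat_lit 65617) (nat_lit 10) (.e (nat_lit 344095) (nat_lit 18) .nil))))))) (.g (nat_lit 5) .nil .nil))) 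
(.lf (nat_lit 125351) (.g (nat_lit 1579) (.e (nat_lit 7266) (nat_lit 384) (.e (nat_lit 57427) (nat_lit 15) (.e (nat_lit 360489) (nat_lit 21) (.e (nat_lit 770071) (nat_lit 8) (.e (nat_lit 65617) (nat_lit 10) (.e (nat_lit 344095) (nat_lit 18) .nil)))))) (.g (nat_lit 4) .nil .nil)))) (.nd (nat_lit 5) 
(.lf (nat_lit 125335) (.g (nat_lit 2481) (.e (nat_lit 7266) (nat_lit 384) (.e (nat_lit 57427) (nat_lit 15) (.e (nat_lit 360451) (nat_lit 0) (.e (nat_lit 7122) (nat_lit 382) (.e (nat_lit 1016) (nat_lit 81) (.e (nat_lit 1586) (nat_lit 111) (.e (nat_lit 360451) (nat_lit 0) .nil))))))) (.g (nat_lit 4) .nil .nil))) 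
(.lf (nat_lit 125367) (.g (nat_lit 2812) (.e (nat_lit 7266) (nat_lit 384) (.e (nat_lit 57427) (nat_lit 15) (.e (nat_lit 360492) (nat_lit 22) (.e (nat_lit 778465) (nat_lit 11) (.e (nat_lit 24640) (nat_lit 10) (.e (nat_lit 344096) (nat_lit 18) .nil)))))) (.g (nat_lit 5) .nil .nil))))) (.nd (nat_lit 4) (.nd (nat_lit 5) 
(.lf (nat_lit 125327) (.g (nat_lit 4081) (.e (nat_lit 7266) (nat_lit 384) (.e (nat_lit 57427) (nat_lit 15) (.e (nat_lit 360450) (nat_lit 0) (.e (nat_lit 7261) (nat_lit 384) (.e (nat_lit 57412) (nat_lit 12) (.e (nat_lit 336176) (nat_lit 10) (.e (nat_lit 344096) (nat_lit 18) .nil))))))) (.g (nat_lit 0) .nil .nil))) 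
(.lf (nat_lit 125359) (.g (nat_lit 3030) (.e (nat_lit 7266) (nat_lit 384) (.e (nat_lit 57427) (nat_lit 15) (.e (nat_lit 360491) (nat_lit 22) (.e (nat_lit 778466) (nat_lit 11) (.e (nat_lit 24640) (nat_lit 10) (.e (nat_lit 344091) (nat_lit 18) .nil)))))) (.g (nat_lit 0) .nil .nil)))) (.nd (nat_lit 5) 
(.lf (nat_lit 125343) (.g (nat_lit 1946) (.e (nat_lit 7266) (nat_lit 384) (.e (nat_lit 57427) (nat_lit 15) (.e (nat_lit 360451) (nat_lit 0) (.e (nat_lit 7265) (nat_lit 384) (.e (nat_lit 57428) (nat_lit 15) .nil))))) .nil)) 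
(.lf (nat_lit 125375) (.g (nat_lit 1676) (.e (nat_lit 7266) (nat_lit 384) (.e (nat_lit 57428) (nat_lit 15) (.e (nat_lit 360449) (nat_lit 0) (.e (nat_lit 7266) (nat_lit 384) (.e (nat_lit 57426) (nat_lit 15) .nil))))) .nil))))))))

noncomputable def tv1682 : DT := (.nd (nat_lit 0) (.nd (nat_lit 1) (.nd (nat_lit 2) (.nd (nat_lit 3) (.nd (nat_lit 4) (.nd (nat_lit 5) 
(.lf (nat_lit 125376) (.g (nat_lit 2459) (.e (nat_lit 7266) (nat_lit 384) (.e (nat_lit 57428) (nat_lit 15) (.e (nat_lit 360489) (nat_lit 21) (.e (nat_lit 770071) (nat_lit 8) (.e (nat_lit 65610) (nat_lit 10) (.e (nat_lit 344090) (nat_lit 18) .nil)))))) (.g (nat_lit 5) .nil .nil))) 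
(.lf (nat_lit 125408) (.g (nat_lit 1913) (.e (nat_lit 7266) (nat_lit 384) (.e (nat_lit 57435) (nat_lit 17) (.e (nat_lit 376842) (nat_lit 11) (.e (nat_lit 426338) (nat_lit 14) (.e (nat_lit 491560) (nat_lit 10) .nil))))) .nil))) (.nd (nat_lit 5) 
(.lf (nat_lit 125392) (.g (nat_lit 1836) (.e (nat_lit 7266) (nat_lit 384) (.e (nat_lit 57431) (nat_lit 16) (.e (nat_lit 368676) (nat_lit 21) (.e (nat_lit 516176) (nat_lit 14) (.e (nat_lit 466967) (nat_lit 20) (.e (nat_lit 3304) (nat_lit 202) (.e (nat_lit 573478) (nat_lit 12) (.e (nat_lit 57353) (nat_lit 0) .nil)))))))) (.g (nat_lit 4) .nil .nil))) 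
(.lf (nat_lit 125424) (.g (nat_lit 3566) (.e (nat_lit 7266) (nat_lit 384) (.e (nat_lit 57435) (nat_lit 17) (.e (nat_lit 376842) (nat_lit 11) (.e (nat_lit 426343) (nat_lit 14) (.e (nat_lit 491560) (nat_lit 10) (.e (nat_lit 344091) (nat_lit 18) .nil)))))) (.g (nat_lit 0) .nil .nil))))) (.nd (nat_lit 4) (.nd (nat_lit 5) 
(.lf (nat_lit 125384) (.g (nat_lit 1685) (.e (nat_lit 7266) (nat_lit 384) (.e (nat_lit 57430) (nat_lit 16) (.e (nat_lit 368676) (nat_lit 21) (.e (nat_lit 516174) (nat_lit 14) (.e (nat_lit 466967) (nat_lit 20) (.e (nat_lit 3304) (nat_lit 202) (.e (nat_lit 573478) (nat_lit 12) (.e (nat_lit 57351) (nat_lit 0) .nil)))))))) (.g (nat_lit 4) .nil .nil))) 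
(.lf (nat_lit 125416) (.g (nat_lit 3309) (.e (nat_lit 7266) (nat_lit 384) (.e (nat_lit 57435) (nat_lit 17) (.e (nat_lit 376842) (nat_lit 11) (.e (nat_lit 426342) (nat_lit 14) (.e (nat_lit 491558) (nat_lit 10) (.e (nat_lit 344091) (nat_lit 18) .nil)))))) (.g (nat_lit 0) .nil .nil)))) (.nd (nat_lit 5) 
(.lf (nat_lit 125400) (.g (nat_lit 2938) (.e (nat_lit 7266) (nat_lit 384) (.e (nat_lit 57435) (nat_lit 17) (.e (nat_lit 376842) (nat_lit 11) (.e (nat_lit 426011) (nat_lit 0) (.e (nat_lit 7593) (nat_lit 407) (.e (nat_lit 73730) (nat_lit 0) .nil)))))) (.g (nat_lit 5) .nil .nil))) 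
(.lf (nat_lit 125432) (.g (nat_lit 3545) (.e (nat_lit 7266) (nat_lit 384) (.e (nat_lit 57435) (nat_lit 17) (.e (nat_lit 376842) (nat_lit 11) (.e (nat_lit 426344) (nat_lit 14) (.e (nat_lit 491560) (nat_lit 10) (.e (nat_lit 344091) (nat_lit 18) .nil)))))) (.g (nat_lit 6) .nil .nil)))))) (.nd (nat_lit 3) (.nd (nat_lit 4) (.nd (nat_lit 5) 
(.lf (nat_lit 125380) (.g (nat_lit 1672) (.e (nat_lit 7266) (nat_lit 384) (.e (nat_lit 57428) (nat_lit 15) (.e (nat_lit 360492) (nat_lit 22) (.e (nat_lit 778466) (nat_lit 11) (.e (nat_lit 24639) (nat_lit 10) (.e (nat_lit 344090) (nat_lit 18) .nil)))))) (.g (nat_lit 4) .nil .nil))) 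
(.lf (nat_lit 125412) (.g (nat_lit 3080) (.e (nat_lit 7266) (nat_lit 384) (.e (nat_lit 57435) (nat_lit 17) (.e (nat_lit 376842) (nat_lit 11) (.e (nat_lit 426341) (nat_lit 14) (.e (nat_lit 491560) (nat_lit 10) (.e (nat_lit 344091) (nat_lit 18) .nil)))))) (.g (nat_lit 5) .nil .nil)))) (.nd (nat_lit 5) 
(.lf (nat_lit 125396) (.g (nat_lit 1441) (.e (nat_lit 7266) (nat_lit 384) (.e (nat_lit 57435) (nat_lit 17) (.e (nat_lit 376842) (nat_lit 11) (.e (nat_lit 426003) (nat_lit 0) .nil)))) .nil)) 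
(.lf (nat_lit 125428) (.g (nat_lit 3726) (.e (nat_lit 7266) (nat_lit 384) (.e (nat_lit 57435) (nat_lit 17) (.e (nat_lit 376842) (nat_lit 11) (.e (nat_lit 426344) (nat_lit 14) (.e (nat_lit 491558) (nat_lit 10) (.e (nat_lit 344091) (nat_lit 18) .nil)))))) (.g (nat_lit 6) .nil .nil))))) (.nd (nat_lit 4) (.nd (nat_lit 5) 
(.lf (nat_lit 125388) (.g (nat_lit 2376) (.e (nat_lit 7266) (nat_lit 384) (.e (nat_lit 57430) (nat_lit 16) (.e (nat_lit 368676) (nat_lit 21) (.e (nat_lit 516176) (nat_lit 14) (.e (nat_lit 466967) (nat_lit 20) (.e (nat_lit 3304) (nat_lit 202) (.e (nat_lit 573478) (nat_lit 12) (.e (nat_lit 57353) (nat_lit 0) .nil)))))))) (.g (nat_lit 4) .nil .nil))) 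
(.lf (nat_lit 125420) (.g (nat_lit 3809) (.e (nat_lit 7266) (nat_lit 384) (.e (nat_lit 57435) (nat_lit 17) (.e (nat_lit 376842) (nat_lit 11) (.e (nat_lit 426343) (nat_lit 14) (.e (nat_lit 491558) (nat_lit 10) (.e (nat_lit 344091) (nat_lit 18) .nil)))))) (.g (nat_lit 0) .nil .nil)))) (.nd (nat_lit 5) 
(.lf (nat_lit 125404) (.g (nat_lit 3057) (.e (nat_lit 7266) (nat_lit 384) (.e (nat_lit 57435) (nat_lit 17) (.e (nat_lit 376842) (nat_lit 11) (.e (nat_lit 426012) (nat_lit 0) (.e (nat_lit 7593) (nat_lit 407) (.e (nat_lit 73731) (nat_lit 0) .nil)))))) (.g (nat_lit 5) .nil .nil))) 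
(.lf (nat_lit 125436) (.g (nat_lit 469) (.e (nat_lit 7266) (nat_lit 384) (.e (nat_lit 57436) (nat_lit 17) (.e (nat_lit 376838) (nat_lit 11) .nil))) .nil)))))) (.nd (nat_lit 2) (.nd (nat_lit 3) (.nd (nat_lit 4) (.nd (nat_lit 5) 
(.lf (nat_lit 125378) (.g (nat_lit 1841) (.e (nat_lit 7266) (nat_lit 384) (.e (nat_lit 57428) (nat_lit 15) (.e (nat_lit 360492) (nat_lit 22) (.e (nat_lit 778465) (nat_lit 11) (.e (nat_lit 24639) (nat_lit 10) (.e (nat_lit 344090) (nat_lit 18) .nil)))))) (.g (nat_lit 4) .nil .nil))) 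
(.lf (nat_lit 125410) (.g (nat_lit 2128) (.e (nat_lit 7266) (nat_lit 384) (.e (nat_lit 57435) (nat_lit 17) (.e (nat_lit 376842) (nat_lit 11) (.e (nat_lit 426341) (nat_lit 14) (.e (nat_lit 491558) (nat_lit 10) (.e (nat_lit 344096) (nat_lit 18) .nil)))))) (.g (nat_lit 4) .nil .nil)))) (.nd (nat_lit 5) 
(.lf (nat_lit 125394) (.g (nat_lit 3741) (.e (nat_lit 7266) (nat_lit 384) (.e (nat_lit 57431) (nat_lit 16) (.e (nat_lit 368676) (nat_lit 21) (.e (nat_lit 516176) (nat_lit 14) (.e (nat_lit 466967) (nat_lit 20) (.e (nat_lit 3305) (nat_lit 202) (.e (nat_lit 573477) (nat_lit 12) (.e (nat_lit 57353) (nat_lit 0) .nil)))))))) (.g (nat_lit 7) .nil .nil))) 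
(.lf (nat_lit 125426) (.g (nat_lit 1230) (.e (nat_lit 7266) (nat_lit 384) (.e (nat_lit 57435) (nat_lit 17) (.e (nat_lit 376842) (nat_lit 11) (.e (nat_lit 426344) (nat_lit 14) .nil)))) .nil)))) (.nd (nat_lit 4) (.nd (nat_lit 5) 
(.lf (nat_lit 125386) (.g (nat_lit 2345) (.e (nat_lit 7266) (nat_lit 384) (.e (nat_lit 57430) (nat_lit 16) (.e (nat_lit 368676) (nat_lit 21) (.e (nat_lit 516176) (nat_lit 14) (.e (nat_lit 466967) (nat_lit 20) (.e (nat_lit 3304) (nat_lit 202) (.e (nat_lit 573477) (nat_lit 12) (.e (nat_lit 57352) (nat_lit 0) .nil)))))))) (.g (nat_lit 4) .nil .nil))) 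
(.lf (nat_lit 125418) (.g (nat_lit 3379) (.e (nat_lit 7266) (nat_lit 384) (.e (nat_lit 57435) (nat_lit 17) (.e (nat_lit 376842) (nat_lit 11) (.e (nat_lit 426342) (nat_lit 14) (.e (nat_lit 491560) (nat_lit 10) (.e (nat_lit 344091) (nat_lit 18) .nil)))))) (.g (nat_lit 0) .nil .nil)))) (.nd (nat_lit 5) 
(.lf (nat_lit 125402) (.g (nat_lit 2940) (.e (nat_lit 7266) (nat_lit 384) (.e (nat_lit 57435) (nat_lit 17) (.e (nat_lit 376842) (nat_lit 11) (.e (nat_lit 426012) (nat_lit 0) (.e (nat_lit 7591) (nat_lit 407) (.e (nat_lit 73731) (nat_lit 0) .nil)))))) (.g (nat_lit 5) .nil .nil))) 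
(.lf (nat_lit 125434) (.g (nat_lit 3875) (.e (nat_lit 7266) (nat_lit 384) (.e (nat_lit 57435) (nat_lit 17) (.e (nat_lit 376842) (nat_lit 11) (.e (nat_lit 426344) (nat_lit 14) (.e (nat_lit 491560) (nat_lit 10) (.e (nat_lit 344096) (nat_lit 18) .nil)))))) (.g (nat_lit 6) .nil .nil)))))) (.nd (nat_lit 3) (.nd (nat_lit 4) (.nd (nat_lit 5) 
(.lf (nat_lit 125382) (.g (nat_lit 1652) (.e (nat_lit 7266) (nat_lit 384) (.e (nat_lit 57428) (nat_lit 15) (.e (nat_lit 360492) (nat_lit 22) (.e (nat_lit 778466) (nat_lit 11) (.e (nat_lit 24641) (nat_lit 10) (.e (nat_lit 344091) (nat_lit 18) .nil)))))) (.g (nat_lit 4) .nil .nil))) 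
(.lf (nat_lit 125414) (.g (nat_lit 3373) (.e (nat_lit 7266) (nat_lit 384) (.e (nat_lit 57435) (nat_lit 17) (.e (nat_lit 376842) (nat_lit 11) (.e (nat_lit 426341) (nat_lit 14) (.e (nat_lit 491560) (nat_lit 10) (.e (nat_lit 344096) (nat_lit 18) .nil)))))) (.g (nat_lit 6) .nil .nil)))) (.nd (nat_lit 5) 
(.lf (nat_lit 125398) (.g (nat_lit 2156) (.e (nat_lit 7266) (nat_lit 384) (.e (nat_lit 57435) (nat_lit 17) (.e (nat_lit 376842) (nat_lit 11) (.e (nat_lit 426010) (nat_lit 0) (.e (nat_lit 7593) (nat_lit 407) (.e (nat_lit 73730) (nat_lit 0) .nil)))))) (.g (nat_lit 4) .nil .nil))) 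
(.lf (nat_lit 125430) (.g (nat_lit 3897) (.e (nat_lit 7266) (nat_lit 384) (.e (nat_lit 57435) (nat_lit 17) (.e (nat_lit 376842) (nat_lit 11) (.e (nat_lit 426344) (nat_lit 14) (.e (nat_lit 491558) (nat_lit 10) (.e (nat_lit 344096) (nat_lit 18) .nil)))))) (.g (nat_lit 6) .nil .nil))))) (.nd (nat_lit 4) (.nd (nat_lit 5) 
(.lf (nat_lit 125390) (.g (nat_lit 2998) (.e (nat_lit 7266) (nat_lit 384) (.e (nat_lit 57431) (nat_lit 16) (.e (nat_lit 368676) (nat_lit 21) (.e (nat_lit 516176) (nat_lit 14) (.e (nat_lit 466967) (nat_lit 20) (.e (nat_lit 3304) (nat_lit 202) (.e (nat_lit 573477) (nat_lit 12) (.e (nat_lit 57351) (nat_lit 0) .nil)))))))) (.g (nat_lit 6) .nil .nil))) 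
(.lf (nat_lit 125422) (.g (nat_lit 3955) (.e (nat_lit 7266) (nat_lit 384) (.e (nat_lit 57435) (nat_lit 17) (.e (nat_lit 376842) (nat_lit 11) (.e (nat_lit 426343) (nat_lit 14) (.e (nat_lit 491558) (nat_lit 10) (.e (nat_lit 344096) (nat_lit 18) .nil)))))) (.g (nat_lit 0) .nil .nil)))) (.nd (nat_lit 5) 
(.lf (nat_lit 125406) (.g (nat_lit 1542) (.e (nat_lit 7266) (nat_lit 384) (.e (nat_lit 57435) (nat_lit 17) (.e (nat_lit 376842) (nat_lit 11) (.e (nat_lit 426044) (nat_lit 0) (.e (nat_lit 7936) (nat_lit 407) .nil))))) .nil)) 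
(.lf (nat_lit 125438) (.g (nat_lit 1919) (.e (nat_lit 7266) (nat_lit 384) (.e (nat_lit 57436) (nat_lit 17) (.e (nat_lit 376840) (nat_lit 11) (.e (nat_lit 425989) (nat_lit 0) (.e (nat_lit 7592) (nat_lit 407) (.e (nat_lit 73729) (nat_lit 0) .nil)))))) (.g (nat_lit 0) .nil .nil)))))))) (.nd (nat_lit 1) (.nd (nat_lit 2) (.nd (nat_lit 3) (.nd (nat_lit 4) (.nd (nat_lit 5) 
(.lf (nat_lit 125377) (.g (nat_lit 2426) (.e (nat_lit 7266) (nat_lit 384) (.e (nat_lit 57428) (nat_lit 15) (.e (nat_lit 360489) (nat_lit 21) (.e (nat_lit 770072) (nat_lit 8) (.e (nat_lit 65619) (nat_lit 10) (.e (nat_lit 344090) (nat_lit 18) .nil)))))) (.g (nat_lit 5) .nil .nil))) 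
(.lf (nat_lit 125409) (.g (nat_lit 1137) (.e (nat_lit 7266) (nat_lit 384) (.e (nat_lit 57435) (nat_lit 17) (.e (nat_lit 376842) (nat_lit 11) (.e (nat_lit 426341) (nat_lit 14) .nil)))) .nil))) (.nd (nat_lit 5) 
(.lf (nat_lit 125393) (.g (nat_lit 2175) (.e (nat_lit 7266) (nat_lit 384) (.e (nat_lit 57431) (nat_lit 16) (.e (nat_lit 368676) (nat_lit 21) (.e (nat_lit 516176) (nat_lit 14) (.e (nat_lit 466967) (nat_lit 20) (.e (nat_lit 3305) (nat_lit 202) (.e (nat_lit 573477) (nat_lit 12) (.e (nat_lit 57352) (nat_lit 0) .nil)))))))) (.g (nat_lit 4) .nil .nil))) 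
(.lf (nat_lit 125425) (.g (nat_lit 3442) (.e (nat_lit 7266) (nat_lit 384) (.e (nat_lit 57435) (nat_lit 17) (.e (nat_lit 376842) (nat_lit 11) (.e (nat_lit 426343) (nat_lit 14) (.e (nat_lit 491560) (nat_lit 10) (.e (nat_lit 344094) (nat_lit 18) .nil)))))) (.g (nat_lit 6) .nil .nil))))) (.nd (nat_lit 4) (.nd (nat_lit 5) 
(.lf (nat_lit 125385) (.g (nat_lit 2231) (.e (nat_lit 7266) (nat_lit 384) (.e (nat_lit 57430) (nat_lit 16) (.e (nat_lit 368676) (nat_lit 21) (.e (nat_lit 516176) (nat_lit 14) (.e (nat_lit 466967) (nat_lit 20) (.e (nat_lit 3304) (nat_lit 202) (.e (nat_lit 573473) (nat_lit 12) (.e (nat_lit 57348) (nat_lit 0) .nil)))))))) (.g (nat_lit 4) .nil .nil))) 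
(.lf (nat_lit 125417) (.g (nat_lit 3513) (.e (nat_lit 7266) (nat_lit 384) (.e (nat_lit 57435) (nat_lit 17) (.e (nat_lit 376842) (nat_lit 11) (.e (nat_lit 426342) (nat_lit 14) (.e (nat_lit 491560) (nat_lit 10) (.e (nat_lit 344090) (nat_lit 18) .nil)))))) (.g (nat_lit 0) .nil .nil)))) (.nd (nat_lit 5) 
(.lf (nat_lit 125401) (.g (nat_lit 3202) (.e (nat_lit 7266) (nat_lit 384) (.e (nat_lit 57435) (nat_lit 17) (.e (nat_lit 376842) (nat_lit 11) (.e (nat_lit 426012) (nat_lit 0) (.e (nat_lit 7591) (nat_lit 407) (.e (nat_lit 73729) (nat_lit 0) .nil)))))) (.g (nat_lit 6) .nil .nil))) 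
(.lf (nat_lit 125433) (.g (nat_lit 3530) (.e (nat_lit 7266) (nat_lit 384) (.e (nat_lit 57435) (nat_lit 17) (.e (nat_lit 376842) (nat_lit 11) (.e (nat_lit 426344) (nat_lit 14) (.e (nat_lit 491560) (nat_lit 10) (.e (nat_lit 344094) (nat_lit 18) .nil)))))) (.g (nat_lit 6) .nil .nil)))))) (.nd (nat_lit 3) (.nd (nat_lit 4) (.nd (nat_lit 5) 
(.lf (nat_lit 125381) (.g (nat_lit 2025) (.e (nat_lit 7266) (nat_lit 384) (.e (nat_lit 57428) (nat_lit 15) (.e (nat_lit 360492) (nat_lit 22) (.e (nat_lit 778466) (nat_lit 11) (.e (nat_lit 24639) (nat_lit 10) (.e (nat_lit 344096) (nat_lit 18) .nil)))))) (.g (nat_lit 4) .nil .nil))) 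
(.lf (nat_lit 125413) (.g (nat_lit 3444) (.e (nat_lit 7266) (nat_lit 384) (.e (nat_lit 57435) (nat_lit 17) (.e (nat_lit 376842) (nat_lit 11) (.e (nat_lit 426341) (nat_lit 14) (.e (nat_lit 491560) (nat_lit 10) (.e (nat_lit 344094) (nat_lit 18) .nil)))))) (.g (nat_lit 6) .nil .nil)))) (.nd (nat_lit 5) 
(.lf (nat_lit 125397) (.g (nat_lit 1956) (.e (nat_lit 7266) (nat_lit 384) (.e (nat_lit 57435) (nat_lit 17) (.e (nat_lit 376842) (nat_lit 11) (.e (nat_lit 426003) (nat_lit 0) (.e (nat_lit 7936) (nat_lit 407) (.e (nat_lit 73731) (nat_lit 0) .nil)))))) (.g (nat_lit 4) .nil .nil))) 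
(.lf (nat_lit 125429) (.g (nat_lit 2308) (.e (nat_lit 7266) (nat_lit 384) (.e (nat_lit 57435) (nat_lit 17) (.e (nat_lit 376842) (nat_lit 11) (.e (nat_lit 426344) (nat_lit 14) (.e (nat_lit 491558) (nat_lit 10) (.e (nat_lit 344095) (nat_lit 18) .nil)))))) (.g (nat_lit 4) .nil .nil))))) (.nd (nat_lit 4) (.nd (nat_lit 5) 
(.lf (nat_lit 125389) (.g (nat_lit 4122) (.e (nat_lit 7266) (nat_lit 384) (.e (nat_lit 57430) (nat_lit 16) (.e (nat_lit 368676) (nat_lit 21) (.e (nat_lit 516176) (nat_lit 14) (.e (nat_lit 466967) (nat_lit 20) (.e (nat_lit 3305) (nat_lit 202) (.e (nat_lit 573477) (nat_lit 12) (.e (nat_lit 57351) (nat_lit 0) .nil)))))))) (.g (nat_lit 7) .nil .nil))) 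
(.lf (nat_lit 125421) (.g (nat_lit 2375) (.e (nat_lit 7266) (nat_lit 384) (.e (nat_lit 57435) (nat_lit 17) (.e (nat_lit 376842) (nat_lit 11) (.e (nat_lit 426343) (nat_lit 14) (.e (nat_lit 491558) (nat_lit 10) (.e (nat_lit 344095) (nat_lit 18) .nil)))))) (.g (nat_lit 4) .nil .nil)))) (.nd (nat_lit 5) 
(.lf (nat_lit 125405) (.g (nat_lit 1471) (.e (nat_lit 7266) (nat_lit 384) (.e (nat_lit 57435) (nat_lit 17) (.e (nat_lit 376842) (nat_lit 11) (.e (nat_lit 426015) (nat_lit 0) .nil)))) .nil)) 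
(.lf (nat_lit 125437) (.g (nat_lit 885) (.e (nat_lit 7266) (nat_lit 384) (.e (nat_lit 57436) (nat_lit 17) (.e (nat_lit 376838) (nat_lit 11) (.e (nat_lit 426342) (nat_lit 14) (.e (nat_lit 491558) (nat_lit 10) .nil))))) .nil)))))) (.nd (nat_lit 2) (.nd (nat_lit 3) (.nd (nat_lit 4) (.nd (nat_lit 5) 
(.lf (nat_lit 125379) (.g (nat_lit 2823) (.e (nat_lit 7266) (nat_lit 384) (.e (nat_lit 57428) (nat_lit 15) (.e (nat_lit 360492) (nat_lit 22) (.e (nat_lit 778465) (nat_lit 11) (.e (nat_lit 24640) (nat_lit 10) (.e (nat_lit 344096) (nat_lit 18) .nil)))))) (.g (nat_lit 5) .nil .nil))) 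
(.lf (nat_lit 125411) (.g (nat_lit 3460) (.e (nat_lit 7266) (nat_lit 384) (.e (nat_lit 57435) (nat_lit 17) (.e (nat_lit 376842) (nat_lit 11) (.e (nat_lit 426341) (nat_lit 14) (.e (nat_lit 491560) (nat_lit 10) (.e (nat_lit 344090) (nat_lit 18) .nil)))))) (.g (nat_lit 6) .nil .nil)))) (.nd (nat_lit 5) 
(.lf (nat_lit 125395) (.g (nat_lit 495) (.e (nat_lit 7266) (nat_lit 384) (.e (nat_lit 57435) (nat_lit 17) (.e (nat_lit 376839) (nat_lit 11) .nil))) .nil)) 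
(.lf (nat_lit 125427) (.g (nat_lit 3450) (.e (nat_lit 7266) (nat_lit 384) (.e (nat_lit 57435) (nat_lit 17) (.e (nat_lit 376842) (nat_lit 11) (.e (nat_lit 426344) (nat_lit 14) (.e (nat_lit 491558) (nat_lit 10) (.e (nat_lit 344090) (nat_lit 18) .nil)))))) (.g (nat_lit 6) .nil .nil))))) (.nd (nat_lit 4) (.nd (nat_lit 5) 
(.lf (nat_lit 125387) (.g (nat_lit 3881) (.e (nat_lit 7266) (nat_lit 384) (.e (nat_lit 57430) (nat_lit 16) (.e (nat_lit 368676) (nat_lit 21) (.e (nat_lit 516176) (nat_lit 14) (.e (nat_lit 466967) (nat_lit 20) (.e (nat_lit 3304) (nat_lit 202) (.e (nat_lit 573477) (nat_lit 12) (.e (nat_lit 57353) (nat_lit 0) .nil)))))))) (.g (nat_lit 7) .nil .nil))) 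
(.lf (nat_lit 125419) (.g (nat_lit 3308) (.e (nat_lit 7266) (nat_lit 384) (.e (nat_lit 57435) (nat_lit 17) (.e (nat_lit 376842) (nat_lit 11) (.e (nat_lit 426342) (nat_lit 14) (.e (nat_lit 491560) (nat_lit 10) (.e (nat_lit 344094) (nat_lit 18) .nil)))))) (.g (nat_lit 6) .nil .nil)))) (.nd (nat_lit 5) 
(.lf (nat_lit 125403) (.g (nat_lit 3409) (.e (nat_lit 7266) (nat_lit 384) (.e (nat_lit 57435) (nat_lit 17) (.e (nat_lit 376842) (nat_lit 11) (.e (nat_lit 426012) (nat_lit 0) (.e (nat_lit 7593) (nat_lit 407) (.e (nat_lit 73729) (nat_lit 0) .nil)))))) (.g (nat_lit 6) .nil .nil))) 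
(.lf (nat_lit 125435) (.g (nat_lit 412) (.e (nat_lit 7266) (nat_lit 384) (.e (nat_lit 57436) (nat_lit 17) (.e (nat_lit 384768) (nat_lit 9) .nil))) .nil))))) (.nd (nat_lit 3) (.nd (nat_lit 4) (.nd (nat_lit 5) 
(.lf (nat_lit 125383) (.g (nat_lit 1984) (.e (nat_lit 7266) (nat_lit 384) (.e (nat_lit 57428) (nat_lit 15) (.e (nat_lit 360492) (nat_lit 22) (.e (nat_lit 778466) (nat_lit 11) (.e (nat_lit 24641) (nat_lit 10) (.e (nat_lit 344096) (nat_lit 18) .nil)))))) (.g (nat_lit 4) .nil .nil))) 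
(.lf (nat_lit 125415) (.g (nat_lit 2980) (.e (nat_lit 7266) (nat_lit 384) (.e (nat_lit 57435) (nat_lit 17) (.e (nat_lit 376842) (nat_lit 11) (.e (nat_lit 426342) (nat_lit 14) (.e (nat_lit 491558) (nat_lit 10) (.e (nat_lit 344090) (nat_lit 18) .nil)))))) (.g (nat_lit 6) .nil .nil)))) (.nd (nat_lit 5) 
(.lf (nat_lit 125399) (.g (nat_lit 2739) (.e (nat_lit 7266) (nat_lit 384) (.e (nat_lit 57435) (nat_lit 17) (.e (nat_lit 376842) (nat_lit 11) (.e (nat_lit 426011) (nat_lit 0) (.e (nat_lit 7591) (nat_lit 407) (.e (nat_lit 73730) (nat_lit 0) .nil)))))) (.g (nat_lit 5) .nil .nil))) 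
(.lf (nat_lit 125431) (.g (nat_lit 3769) (.e (nat_lit 7266) (nat_lit 384) (.e (nat_lit 57435) (nat_lit 17) (.e (nat_lit 376842) (nat_lit 11) (.e (nat_lit 426344) (nat_lit 14) (.e (nat_lit 491560) (nat_lit 10) (.e (nat_lit 344090) (nat_lit 18) .nil)))))) (.g (nat_lit 6) .nil .nil))))) (.nd (nat_lit 4) (.nd (nat_lit 5) 
(.lf (nat_lit 125391) (.g (nat_lit 2170) (.e (nat_lit 7266) (nat_lit 384) (.e (nat_lit 57431) (nat_lit 16) (.e (nat_lit 368676) (nat_lit 21) (.e (nat_lit 516176) (nat_lit 14) (.e (nat_lit 466967) (nat_lit 20) (.e (nat_lit 3304) (nat_lit 202) (.e (nat_lit 573478) (nat_lit 12) (.e (nat_lit 57351) (nat_lit 0) .nil)))))))) (.g (nat_lit 4) .nil .nil))) 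
(.lf (nat_lit 125423) (.g (nat_lit 3779) (.e (nat_lit 7266) (nat_lit 384) (.e (nat_lit 57435) (nat_lit 17) (.e (nat_lit 376842) (nat_lit 11) (.e (nat_lit 426343) (nat_lit 14) (.e (nat_lit 491560) (nat_lit 10) (.e (nat_lit 344090) (nat_lit 18) .nil)))))) (.g (nat_lit 0) .nil .nil)))) (.nd (nat_lit 5) 
(.lf (nat_lit 125407) (.g (nat_lit 2030) (.e (nat_lit 7266) (nat_lit 384) (.e (nat_lit 57435) (nat_lit 17) (.e (nat_lit 376842) (nat_lit 11) (.e (nat_lit 426054) (nat_lit 0) (.e (nat_lit 7936) (nat_lit 407) (.e (nat_lit 73729) (nat_lit 0) .nil)))))) (.g (nat_lit 4) .nil .nil))) 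
(.lf (nat_lit 125439) (.g (nat_lit 328) (.e (nat_lit 7266) (nat_lit 384) (.e (nat_lit 57436) (nat_lit 17) (.e (nat_lit 376842) (nat_lit 11) .nil))) .nil))))))))

noncomputable def tv1683 : DT := (.nd (nat_lit 0) (.nd (nat_lit 1) (.nd (nat_lit 2) (.nd (nat_lit 3) (.nd (nat_lit 4) (.nd (nat_lit 5) 
(.lf (nat_lit 125440) (.g (nat_lit 1348) (.e (nat_lit 7266) (nat_lit 384) (.e (nat_lit 57436) (nat_lit 17) (.e (nat_lit 376842) (nat_lit 11) (.e (nat_lit 426003) (nat_lit 0) .nil)))) .nil)) 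
(.lf (nat_lit 125472) (.g (nat_lit 3575) (.e (nat_lit 7266) (nat_lit 384) (.e (nat_lit 57436) (nat_lit 17) (.e (nat_lit 376842) (nat_lit 11) (.e (nat_lit 426343) (nat_lit 14) (.e (nat_lit 491560) (nat_lit 10) (.e (nat_lit 344096) (nat_lit 18) .nil)))))) (.g (nat_lit 6) .nil .nil)))) (.nd (nat_lit 5) 
(.lf (nat_lit 125456) (.g (nat_lit 3542) (.e (nat_lit 7266) (nat_lit 384) (.e (nat_lit 57436) (nat_lit 17) (.e (nat_lit 376842) (nat_lit 11) (.e (nat_lit 426341) (nat_lit 14) (.e (nat_lit 491560) (nat_lit 10) (.e (nat_lit 344090) (nat_lit 18) .nil)))))) (.g (nat_lit 6) .nil .nil))) 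
(.lf (nat_lit 125488) (.g (nat_lit 3805) (.e (nat_lit 7266) (nat_lit 384) (.e (nat_lit 57445) (nat_lit 19) (.e (nat_lit 393229) (nat_lit 9) (.e (nat_lit 336107) (nat_lit 9) .nil)))) .nil)))) (.nd (nat_lit 4) (.nd (nat_lit 5) 
(.lf (nat_lit 125448) (.g (nat_lit 3041) (.e (nat_lit 7266) (nat_lit 384) (.e (nat_lit 57436) (nat_lit 17) (.e (nat_lit 376842) (nat_lit 11) (.e (nat_lit 426012) (nat_lit 0) (.e (nat_lit 7591) (nat_lit 407) (.e (nat_lit 73729) (nat_lit 0) .nil)))))) (.g (nat_lit 6) .nil .nil))) 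
(.lf (nat_lit 125480) (.g (nat_lit 474) (.e (nat_lit 7266) (nat_lit 384) (.e (nat_lit 57436) (nat_lit 17) (.e (nat_lit 376848) (nat_lit 20) .nil))) .nil))) (.nd (nat_lit 5) 
(.lf (nat_lit 125464) (.g (nat_lit 3304) (.e (nat_lit 7266) (nat_lit 384) (.e (nat_lit 57436) (nat_lit 17) (.e (nat_lit 376842) (nat_lit 11) (.e (nat_lit 426342) (nat_lit 14) (.e (nat_lit 491560) (nat_lit 10) (.e (nat_lit 344091) (nat_lit 18) .nil)))))) (.g (nat_lit 0) .nil .nil))) 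
(.lf (nat_lit 125496) (.g (nat_lit 555) (.e (nat_lit 7936) (nat_lit 384) (.e (nat_lit 57409) (nat_lit 12) (.e (nat_lit 336211) (nat_lit 13) .nil))) .nil))))) (.nd (nat_lit 3) (.nd (nat_lit 4) (.nd (nat_lit 5) 
(.lf (nat_lit 125444) (.g (nat_lit 2216) (.e (nat_lit 7266) (nat_lit 384) (.e (nat_lit 57436) (nat_lit 17) (.e (nat_lit 376842) (nat_lit 11) (.e (nat_lit 426010) (nat_lit 0) (.e (nat_lit 7591) (nat_lit 407) (.e (nat_lit 73730) (nat_lit 0) .nil)))))) (.g (nat_lit 4) .nil .nil))) 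
(.lf (nat_lit 125476) (.g (nat_lit 3838) (.e (nat_lit 7266) (nat_lit 384) (.e (nat_lit 57436) (nat_lit 17) (.e (nat_lit 376842) (nat_lit 11) (.e (nat_lit 426344) (nat_lit 14) (.e (nat_lit 491560) (nat_lit 10) (.e (nat_lit 344090) (nat_lit 18) .nil)))))) (.g (nat_lit 0) .nil .nil)))) (.nd (nat_lit 5) 
(.lf (nat_lit 125460) (.g (nat_lit 2922) (.e (nat_lit 7266) (nat_lit 384) (.e (nat_lit 57436) (nat_lit 17) (.e (nat_lit 376842) (nat_lit 11) (.e (nat_lit 426342) (nat_lit 14) (.e (nat_lit 491558) (nat_lit 10) (.e (nat_lit 344090) (nat_lit 18) .nil)))))) (.g (nat_lit 6) .nil .nil))) 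
(.lf (nat_lit 125492) (.g (nat_lit 4273) (.e (nat_lit 7266) (nat_lit 384) (.e (nat_lit 57445) (nat_lit 19) (.e (nat_lit 393229) (nat_lit 9) (.e (nat_lit 336187) (nat_lit 11) .nil)))) .nil)))) (.nd (nat_lit 4) (.nd (nat_lit 5) 
(.lf (nat_lit 125452) (.g (nat_lit 1424) (.e (nat_lit 7266) (nat_lit 384) (.e (nat_lit 57436) (nat_lit 17) (.e (nat_lit 376842) (nat_lit 11) (.e (nat_lit 426015) (nat_lit 0) (.e (nat_lit 7936) (nat_lit 407) .nil))))) .nil)) 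
(.lf (nat_lit 125484) (.g (nat_lit 4232) (.e (nat_lit 7266) (nat_lit 384) (.e (nat_lit 57445) (nat_lit 19) (.e (nat_lit 393229) (nat_lit 9) (.e (nat_lit 336067) (nat_lit 8) .nil)))) .nil))) (.nd (nat_lit 5) 
(.lf (nat_lit 125468) (.g (nat_lit 2261) (.e (nat_lit 7266) (nat_lit 384) (.e (nat_lit 57436) (nat_lit 17) (.e (nat_lit 376842) (nat_lit 11) (.e (nat_lit 426343) (nat_lit 14) (.e (nat_lit 491558) (nat_lit 10) (.e (nat_lit 344095) (nat_lit 18) .nil)))))) (.g (nat_lit 4) .nil .nil))) 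
(.lf (nat_lit 125500) (.g (nat_lit 1120) (.e (nat_lit 7936) (nat_lit 384) (.e (nat_lit 57411) (nat_lit 12) (.e (nat_lit 336211) (nat_lit 13) (.e (nat_lit 393233) (nat_lit 17) .nil)))) .nil)))))) (.nd (nat_lit 2) (.nd (nat_lit 3) (.nd (nat_lit 4) (.nd (nat_lit 5) 
(.lf (nat_lit 125442) (.g (nat_lit 2021) (.e (nat_lit 7266) (nat_lit 384) (.e (nat_lit 57436) (nat_lit 17) (.e (nat_lit 376842) (nat_lit 11) (.e (nat_lit 426009) (nat_lit 0) (.e (nat_lit 7591) (nat_lit 407) (.e (nat_lit 73730) (nat_lit 0) .nil)))))) (.g (nat_lit 4) .nil .nil))) 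
(.lf (nat_lit 125474) (.g (nat_lit 2280) (.e (nat_lit 7266) (nat_lit 384) (.e (nat_lit 57436) (nat_lit 17) (.e (nat_lit 376842) (nat_lit 11) (.e (nat_lit 426344) (nat_lit 14) (.e (nat_lit 491558) (nat_lit 10) (.e (nat_lit 344095) (nat_lit 18) .nil)))))) (.g (nat_lit 4) .nil .nil)))) (.nd (nat_lit 5) 
(.lf (nat_lit 125458) (.g (nat_lit 3567) (.e (nat_lit 7266) (nat_lit 384) (.e (nat_lit 57436) (nat_lit 17) (.e (nat_lit 376842) (nat_lit 11) (.e (nat_lit 426341) (nat_lit 14) (.e (nat_lit 491560) (nat_lit 10) (.e (nat_lit 344094) (nat_lit 18) .nil)))))) (.g (nat_lit 6) .nil .nil))) 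
(.lf (nat_lit 125490) (.g (nat_lit 4076) (.e (nat_lit 7266) (nat_lit 384) (.e (nat_lit 57445) (nat_lit 19) (.e (nat_lit 393229) (nat_lit 9) (.e (nat_lit 336184) (nat_lit 11) .nil)))) .nil)))) (.nd (nat_lit 4) (.nd (nat_lit 5) 
(.lf (nat_lit 125450) (.g (nat_lit 3259) (.e (nat_lit 7266) (nat_lit 384) (.e (nat_lit 57436) (nat_lit 17) (.e (nat_lit 376842) (nat_lit 11) (.e (nat_lit 426012) (nat_lit 0) (.e (nat_lit 7593) (nat_lit 407) (.e (nat_lit 73729) (nat_lit 0) .nil)))))) (.g (nat_lit 6) .nil .nil))) 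
(.lf (nat_lit 125482) (.g (nat_lit 1489) (.e (nat_lit 7266) (nat_lit 384) (.e (nat_lit 57436) (nat_lit 17) (.e (nat_lit 376860) (nat_lit 21) (.e (nat_lit 57665) (nat_lit 152) .nil)))) .nil))) (.nd (nat_lit 5) 
(.lf (nat_lit 125466) (.g (nat_lit 3451) (.e (nat_lit 7266) (nat_lit 384) (.e (nat_lit 57436) (nat_lit 17) (.e (nat_lit 376842) (nat_lit 11) (.e (nat_lit 426342) (nat_lit 14) (.e (nat_lit 491560) (nat_lit 10) (.e (nat_lit 344096) (nat_lit 18) .nil)))))) (.g (nat_lit 6) .nil .nil))) 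
(.lf (nat_lit 125498) (.g (nat_lit 525) (.e (nat_lit 7936) (nat_lit 384) (.e (nat_lit 57411) (nat_lit 12) (.e (nat_lit 336211) (nat_lit 13) .nil))) .nil))))) (.nd (nat_lit 3) (.nd (nat_lit 4) (.nd (nat_lit 5) 
(.lf (nat_lit 125446) (.g (nat_lit 2796) (.e (nat_lit 7266) (nat_lit 384) (.e (nat_lit 57436) (nat_lit 17) (.e (nat_lit 376842) (nat_lit 11) (.e (nat_lit 426011) (nat_lit 0) (.e (nat_lit 7591) (nat_lit 407) (.e (nat_lit 73730) (nat_lit 0) .nil)))))) (.g (nat_lit 5) .nil .nil))) 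
(.lf (nat_lit 125478) (.g (nat_lit 3640) (.e (nat_lit 7266) (nat_lit 384) (.e (nat_lit 57436) (nat_lit 17) (.e (nat_lit 376842) (nat_lit 11) (.e (nat_lit 426344) (nat_lit 14) (.e (nat_lit 491560) (nat_lit 10) (.e (nat_lit 344094) (nat_lit 18) .nil)))))) (.g (nat_lit 0) .nil .nil)))) (.nd (nat_lit 5) 
(.lf (nat_lit 125462) (.g (nat_lit 3212) (.e (nat_lit 7266) (nat_lit 384) (.e (nat_lit 57436) (nat_lit 17) (.e (nat_lit 376842) (nat_lit 11) (.e (nat_lit 426342) (nat_lit 14) (.e (nat_lit 491558) (nat_lit 10) (.e (nat_lit 344096) (nat_lit 18) .nil)))))) (.g (nat_lit 6) .nil .nil))) 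
(.lf (nat_lit 125494) (.g (nat_lit 662) (.e (nat_lit 7266) (nat_lit 384) (.e (nat_lit 57445) (nat_lit 19) (.e (nat_lit 401152) (nat_lit 11) (.e (nat_lit 352321) (nat_lit 25) (.e (nat_lit 139277) (nat_lit 3) .nil))))) .nil)))) (.nd (nat_lit 4) (.nd (nat_lit 5) 
(.lf (nat_lit 125454) (.g (nat_lit 1927) (.e (nat_lit 7266) (nat_lit 384) (.e (nat_lit 57436) (nat_lit 17) (.e (nat_lit 376842) (nat_lit 11) (.e (nat_lit 426338) (nat_lit 14) (.e (nat_lit 491560) (nat_lit 10) .nil))))) .nil)) 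
(.lf (nat_lit 125486) (.g (nat_lit 2814) (.e (nat_lit 7266) (nat_lit 384) (.e (nat_lit 57445) (nat_lit 19) (.e (nat_lit 393229) (nat_lit 9) (.e (nat_lit 336073) (nat_lit 9) .nil)))) .nil))) (.nd (nat_lit 5) 
(.lf (nat_lit 125470) (.g (nat_lit 3734) (.e (nat_lit 7266) (nat_lit 384) (.e (nat_lit 57436) (nat_lit 17) (.e (nat_lit 376842) (nat_lit 11) (.e (nat_lit 426343) (nat_lit 14) (.e (nat_lit 491560) (nat_lit 10) (.e (nat_lit 344090) (nat_lit 18) .nil)))))) (.g (nat_lit 0) .nil .nil))) 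
(.lf (nat_lit 125502) (.g (nat_lit 1161) (.e (nat_lit 7936) (nat_lit 384) (.e (nat_lit 57411) (nat_lit 12) (.e (nat_lit 336211) (nat_lit 13) (.e (nat_lit 393299) (nat_lit 27) .nil)))) .nil))))))) (.nd (nat_lit 1) (.nd (nat_lit 2) (.nd (nat_lit 3) (.nd (nat_lit 4) (.nd (nat_lit 5) 
(.lf (nat_lit 125441) (.g (nat_lit 1904) (.e (nat_lit 7266) (nat_lit 384) (.e (nat_lit 57436) (nat_lit 17) (.e (nat_lit 376842) (nat_lit 11) (.e (nat_lit 426003) (nat_lit 0) (.e (nat_lit 7936) (nat_lit 407) (.e (nat_lit 73731) (nat_lit 0) .nil)))))) (.g (nat_lit 4) .nil .nil))) 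
(.lf (nat_lit 125473) (.g (nat_lit 3752) (.e (nat_lit 7266) (nat_lit 384) (.e (nat_lit 57436) (nat_lit 17) (.e (nat_lit 376842) (nat_lit 11) (.e (nat_lit 426344) (nat_lit 14) (.e (nat_lit 491558) (nat_lit 10) (.e (nat_lit 344091) (nat_lit 18) .nil)))))) (.g (nat_lit 6) .nil .nil)))) (.nd (nat_lit 5) 
(.lf (nat_lit 125457) (.g (nat_lit 3149) (.e (nat_lit 7266) (nat_lit 384) (.e (nat_lit 57436) (nat_lit 17) (.e (nat_lit 376842) (nat_lit 11) (.e (nat_lit 426341) (nat_lit 14) (.e (nat_lit 491560) (nat_lit 10) (.e (nat_lit 344091) (nat_lit 18) .nil)))))) (.g (nat_lit 6) .nil .nil))) 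
(.lf (nat_lit 125489) (.g (nat_lit 4273) (.e (nat_lit 7266) (nat_lit 384) (.e (nat_lit 57445) (nat_lit 19) (.e (nat_lit 393229) (nat_lit 9) (.e (nat_lit 336174) (nat_lit 10) .nil)))) .nil)))) (.nd (nat_lit 4) (.nd (nat_lit 5) 
(.lf (nat_lit 125449) (.g (nat_lit 2787) (.e (nat_lit 7266) (nat_lit 384) (.e (nat_lit 57436) (nat_lit 17) (.e (nat_lit 376842) (nat_lit 11) (.e (nat_lit 426012) (nat_lit 0) (.e (nat_lit 7591) (nat_lit 407) (.e (nat_lit 73731) (nat_lit 0) .nil)))))) (.g (nat_lit 5) .nil .nil))) 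
(.lf (nat_lit 125481) (.g (nat_lit 680) (.e (nat_lit 7266) (nat_lit 384) (.e (nat_lit 57436) (nat_lit 17) (.e (nat_lit 376855) (nat_lit 20) (.e (nat_lit 2276) (nat_lit 150) .nil)))) .nil))) (.nd (nat_lit 5) 
(.lf (nat_lit 125465) (.g (nat_lit 3287) (.e (nat_lit 7266) (nat_lit 384) (.e (nat_lit 57436) (nat_lit 17) (.e (nat_lit 376842) (nat_lit 11) (.e (nat_lit 426342) (nat_lit 14) (.e (nat_lit 491560) (nat_lit 10) (.e (nat_lit 344094) (nat_lit 18) .nil)))))) (.g (nat_lit 6) .nil .nil))) 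
(.lf (nat_lit 125497) (.g (nat_lit 649) (.e (nat_lit 7936) (nat_lit 384) (.e (nat_lit 57411) (nat_lit 12) (.e (nat_lit 336115) (nat_lit 9) .nil))) .nil))))) (.nd (nat_lit 3) (.nd (nat_lit 4) (.nd (nat_lit 5) 
(.lf (nat_lit 125445) (.g (nat_lit 2207) (.e (nat_lit 7266) (nat_lit 384) (.e (nat_lit 57436) (nat_lit 17) (.e (nat_lit 376842) (nat_lit 11) (.e (nat_lit 426010) (nat_lit 0) (.e (nat_lit 7593) (nat_lit 407) (.e (nat_lit 73730) (nat_lit 0) .nil)))))) (.g (nat_lit 4) .nil .nil))) 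
(.lf (nat_lit 125477) (.g (nat_lit 3601) (.e (nat_lit 7266) (nat_lit 384) (.e (nat_lit 57436) (nat_lit 17) (.e (nat_lit 376842) (nat_lit 11) (.e (nat_lit 426344) (nat_lit 14) (.e (nat_lit 491560) (nat_lit 10) (.e (nat_lit 344091) (nat_lit 18) .nil)))))) (.g (nat_lit 6) .nil .nil)))) (.nd (nat_lit 5) 
(.lf (nat_lit 125461) (.g (nat_lit 3230) (.e (nat_lit 7266) (nat_lit 384) (.e (nat_lit 57436) (nat_lit 17) (.e (nat_lit 376842) (nat_lit 11) (.e (nat_lit 426342) (nat_lit 14) (.e (nat_lit 491558) (nat_lit 10) (.e (nat_lit 344091) (nat_lit 18) .nil)))))) (.g (nat_lit 0) .nil .nil))) 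
(.lf (nat_lit 125493) (.g (nat_lit 3990) (.e (nat_lit 7266) (nat_lit 384) (.e (nat_lit 57445) (nat_lit 19) (.e (nat_lit 393229) (nat_lit 9) (.e (nat_lit 336188) (nat_lit 11) .nil)))) .nil)))) (.nd (nat_lit 4) (.nd (nat_lit 5) 
(.lf (nat_lit 125453) (.g (nat_lit 1348) (.e (nat_lit 7266) (nat_lit 384) (.e (nat_lit 57436) (nat_lit 17) (.e (nat_lit 376842) (nat_lit 11) (.e (nat_lit 426044) (nat_lit 0) .nil)))) .nil)) 
(.lf (nat_lit 125485) (.g (nat_lit 4140) (.e (nat_lit 7266) (nat_lit 384) (.e (nat_lit 57445) (nat_lit 19) (.e (nat_lit 393229) (nat_lit 9) (.e (nat_lit 336069) (nat_lit 8) .nil)))) .nil))) (.nd (nat_lit 5) 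
(.lf (nat_lit 125469) (.g (nat_lit 3740) (.e (nat_lit 7266) (nat_lit 384) (.e (nat_lit 57436) (nat_lit 17) (.e (nat_lit 376842) (nat_lit 11) (.e (nat_lit 426343) (nat_lit 14) (.e (nat_lit 491558) (nat_lit 10) (.e (nat_lit 344096) (nat_lit 18) .nil)))))) (.g (nat_lit 6) .nil .nil))) 
(.lf (nat_lit 125501) (.g (nat_lit 1216) (.e (nat_lit 7936) (nat_lit 384) (.e (nat_lit 57411) (nat_lit 12) (.e (nat_lit 336211) (nat_lit 13) (.e (nat_lit 393234) (nat_lit 17) .nil)))) .nil)))))) (.nd (nat_lit 2) (.nd (nat_lit 3) (.nd (nat_lit 4) (.nd (nat_lit 5) 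
(.lf (nat_lit 125443) (.g (nat_lit 2017) (.e (nat_lit 7266) (nat_lit 384) (.e (nat_lit 57436) (nat_lit 17) (.e (nat_lit 376842) (nat_lit 11) (.e (nat_lit 426009) (nat_lit 0) (.e (nat_lit 7593) (nat_lit 407) (.e (nat_lit 73730) (nat_lit 0) .nil)))))) (.g (nat_lit 4) .nil .nil))) 
(.lf (nat_lit 125475) (.g (nat_lit 3768) (.e (nat_lit 7266) (nat_lit 384) (.e (nat_lit 57436) (nat_lit 17) (.e (nat_lit 376842) (nat_lit 11) (.e (nat_lit 426344) (nat_lit 14) (.e (nat_lit 491558) (nat_lit 10) (.e (nat_lit 344096) (nat_lit 18) .nil)))))) (.g (nat_lit 6) .nil .nil)))) (.nd (nat_lit 5) 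
(.lf (nat_lit 125459) (.g (nat_lit 3280) (.e (nat_lit 7266) (nat_lit 384) (.e (nat_lit 57436) (nat_lit 17) (.e (nat_lit 376842) (nat_lit 11) (.e (nat_lit 426341) (nat_lit 14) (.e (nat_lit 491560) (nat_lit 10) (.e (nat_lit 344096) (nat_lit 18) .nil)))))) (.g (nat_lit 6) .nil .nil))) 
(.lf (nat_lit 125491) (.g (nat_lit 3770) (.e (nat_lit 7266) (nat_lit 384) (.e (nat_lit 57445) (nat_lit 19) (.e (nat_lit 393229) (nat_lit 9) (.e (nat_lit 336186) (nat_lit 11) .nil)))) .nil)))) (.nd (nat_lit 4) (.nd (nat_lit 5) 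
(.lf (nat_lit 125451) (.g (nat_lit 2910) (.e (nat_lit 7266) (nat_lit 384) (.e (nat_lit 57436) (nat_lit 17) (.e (nat_lit 376842) (nat_lit 11) (.e (nat_lit 426012) (nat_lit 0) (.e (nat_lit 7593) (nat_lit 407) (.e (nat_lit 73731) (nat_lit 0) .nil)))))) (.g (nat_lit 5) .nil .nil))) 
(.lf (nat_lit 125483) (.g (nat_lit 470) (.e (nat_lit 7266) (nat_lit 384) (.e (nat_lit 57445) (nat_lit 19) (.e (nat_lit 393229) (nat_lit 9) .nil))) .nil))) (.nd (nat_lit 5) 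
(.lf (nat_lit 125467) (.g (nat_lit 3749) (.e (nat_lit 7266) (nat_lit 384) (.e (nat_lit 57436) (nat_lit 17) (.e (nat_lit 376842) (nat_lit 11) (.e (nat_lit 426343) (nat_lit 14) (.e (nat_lit 491558) (nat_lit 10) (.e (nat_lit 344091) (nat_lit 18) .nil)))))) (.g (nat_lit 0) .nil .nil))) 
(.lf (nat_lit 125499) (.g (nat_lit 1207) (.e (nat_lit 7936) (nat_lit 384) (.e (nat_lit 57411) (nat_lit 12) (.e (nat_lit 336211) (nat_lit 13) (.e (nat_lit 393232) (nat_lit 17) .nil)))) .nil))))) (.nd (nat_lit 3) (.nd (nat_lit 4) (.nd (nat_lit 5) 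
(.lf (nat_lit 125447) (.g (nat_lit 2990) (.e (nat_lit 7266) (nat_lit 384) (.e (nat_lit 57436) (nat_lit 17) (.e (nat_lit 376842) (nat_lit 11) (.e (nat_lit 426011) (nat_lit 0) (.e (nat_lit 7593) (nat_lit 407) (.e (nat_lit 73730) (nat_lit 0) .nil)))))) (.g (nat_lit 5) .nil .nil))) 
(.lf (nat_lit 125479) (.g (nat_lit 3769) (.e (nat_lit 7266) (nat_lit 384) (.e (nat_lit 57436) (nat_lit 17) (.e (nat_lit 376842) (nat_lit 11) (.e (nat_lit 426344) (nat_lit 14) (.e (nat_lit 491560) (nat_lit 10) (.e (nat_lit 344096) (nat_lit 18) .nil)))))) (.g (nat_lit 6) .nil .nil)))) (.nd (nat_lit 5) 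
(.lf (nat_lit 125463) (.g (nat_lit 3451) (.e (nat_lit 7266) (nat_lit 384) (.e (nat_lit 57436) (nat_lit 17) (.e (nat_lit 376842) (nat_lit 11) (.e (nat_lit 426342) (nat_lit 14) (.e (nat_lit 491560) (nat_lit 10) (.e (nat_lit 344090) (nat_lit 18) .nil)))))) (.g (nat_lit 0) .nil .nil))) 
(.lf (nat_lit 125495) (.g (nat_lit 4274) (.e (nat_lit 7936) (nat_lit 384) (.e (nat_lit 57377) (nat_lit 3) (.e (nat_lit 98317) (nat_lit 9) (.e (nat_lit 336215) (nat_lit 13) .nil)))) .nil)))) (.nd (nat_lit 4) (.nd (nat_lit 5) 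
(.lf (nat_lit 125455) (.g (nat_lit 2172) (.e (nat_lit 7266) (nat_lit 384) (.e (nat_lit 57436) (nat_lit 17) (.e (nat_lit 376842) (nat_lit 11) (.e (nat_lit 426341) (nat_lit 14) (.e (nat_lit 491558) (nat_lit 10) (.e (nat_lit 344091) (nat_lit 18) .nil)))))) (.g (nat_lit 4) .nil .nil))) 
(.lf (nat_lit 125487) (.g (nat_lit 4250) (.e (nat_lit 7266) (nat_lit 384) (.e (nat_lit 57445) (nat_lit 19) (.e (nat_lit 393229) (nat_lit 9) (.e (nat_lit 336105) (nat_lit 9) .nil)))) .nil))) (.nd (nat_lit 5) 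
(.lf (nat_lit 125471) (.g (nat_lit 3438) (.e (nat_lit 7266) (nat_lit 384) (.e (nat_lit 57436) (nat_lit 17) (.e (nat_lit 376842) (nat_lit 11) (.e (nat_lit 426343) (nat_lit 14) (.e (nat_lit 491560) (nat_lit 10) (.e (nat_lit 344094) (nat_lit 18) .nil)))))) (.g (nat_lit 6) .nil .nil))) 
(.lf (nat_lit 125503) (.g (nat_lit 1106) (.e (nat_lit 7936) (nat_lit 384) (.e (nat_lit 57411) (nat_lit 12) (.e (nat_lit 336211) (nat_lit 13) (.e (nat_lit 393300) (nat_lit 27) .nil)))) .nil))))))))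

noncomputable def tv1684 : DT := (.nd (nat_lit 0) (.nd (nat_lit 1) (.nd (nat_lit 2) (.nd (nat_lit 3) (.nd (nat_lit 4) (.nd (nat_lit 5) 
(.lf (nat_lit 125504) (.g (nat_lit 1143) (.e (nat_lit 7936) (nat_lit 384) (.e (nat_lit 57411) (nat_lit 12) (.e (nat_lit 336211) (nat_lit 13) (.e (nat_lit 393301) (nat_lit 27) .nil)))) .nil)) 
(.lf (nat_lit 125536) (.g (nat_lit 1844) (.e (nat_lit 7268) (nat_lit 385) (.e (nat_lit 122919) (nat_lit 15) (.e (nat_lit 360451) (nat_lit 0) (.e (nat_lit 7261) (nat_lit 384) .nil)))) .nil))) (.nd (nat_lit 5) 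
(.lf (nat_lit 125520) (.g (nat_lit 2517) (.e (nat_lit 7267) (nat_lit 385) (.e (nat_lit 122919) (nat_lit 15) (.e (nat_lit 360451) (nat_lit 0) (.e (nat_lit 7125) (nat_lit 382) (.e (nat_lit 1201) (nat_lit 88) .nil))))) .nil)) 
(.lf (nat_lit 125552) (.g (nat_lit 2183) (.e (nat_lit 7270) (nat_lit 385) (.e (nat_lit 122903) (nat_lit 12) (.e (nat_lit 336028) (nat_lit 3) (.e (nat_lit 98372) (nat_lit 29) (.e (nat_lit 450586) (nat_lit 10) (.e (nat_lit 573478) (nat_lit 12) (.e (nat_lit 57344) (nat_lit 0) .nil))))))) (.g (nat_lit 5) .nil .nil))))) (.nd (nat_lit 4) (.nd (nat_lit 5) 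
(.lf (nat_lit 125512) (.g (nat_lit 1554) (.e (nat_lit 7936) (nat_lit 384) (.e (nat_lit 57437) (nat_lit 17) (.e (nat_lit 376859) (nat_lit 21) (.e (nat_lit 57684) (nat_lit 155) (.e (nat_lit 122917) (nat_lit 15) .nil))))) .nil)) 
(.lf (nat_lit 125544) (.g (nat_lit 3881) (.e (nat_lit 7270) (nat_lit 385) (.e (nat_lit 122903) (nat_lit 12) (.e (nat_lit 336013) (nat_lit 2) (.e (nat_lit 90170) (nat_lit 13) (.e (nat_lit 172115) (nat_lit 10) (.e (nat_lit 434244) (nat_lit 28) (.e (nat_lit 573474) (nat_lit 12) (.e (nat_lit 57354) (nat_lit 0) .nil)))))))) (.g (nat_lit 4) .nil .nil)))) (.nd (nat_lit 5) 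
(.lf (nat_lit 125528) (.g (nat_lit 1806) (.e (nat_lit 7267) (nat_lit 385) (.e (nat_lit 122919) (nat_lit 15) (.e (nat_lit 360451) (nat_lit 0) (.e (nat_lit 7265) (nat_lit 384) (.e (nat_lit 57426) (nat_lit 15) (.e (nat_lit 368384) (nat_lit 0) .nil)))))) (.g (nat_lit 4) .nil .nil))) 
(.lf (nat_lit 125560) (.g (nat_lit 3055) (.e (nat_lit 7270) (nat_lit 385) (.e (nat_lit 122906) (nat_lit 12) (.e (nat_lit 336054) (nat_lit 7) (.e (nat_lit 319533) (nat_lit 16) (.e (nat_lit 286753) (nat_lit 10) (.e (nat_lit 344160) (nat_lit 37) (.e (nat_lit 647201) (nat_lit 12) (.e (nat_lit 57357) (nat_lit 0) .nil)))))))) (.g (nat_lit 7) .nil .nil)))))) 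
(.nd (nat_lit 3) (.nd (nat_lit 4) (.nd (nat_lit 5) 
(.lf (nat_lit 125508) (.g (nat_lit 440) (.e (nat_lit 7936) (nat_lit 384) (.e (nat_lit 57437) (nat_lit 17) (.e (nat_lit 376842) (nat_lit 11) .nil))) .nil)) 
(.lf (nat_lit 125540) (.g (nat_lit 3583) (.e (nat_lit 7270) (nat_lit 385) (.e (nat_lit 122903) (nat_lit 12) (.e (nat_lit 336013) (nat_lit 2) (.e (nat_lit 90170) (nat_lit 13) (.e (nat_lit 172113) (nat_lit 10) (.e (nat_lit 434245) (nat_lit 28) (.e (nat_lit 573473) (nat_lit 12) (.e (nat_lit 57357) (nat_lit 0) .nil)))))))) (.g (nat_lit 7) .nil .nil)))) (.nd (nat_lit 5) 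
(.lf (nat_lit 125524) (.g (nat_lit 1888) (.e (nat_lit 7267) (nat_lit 385) (.e (nat_lit 122919) (nat_lit 15) (.e (nat_lit 360451) (nat_lit 0) (.e (nat_lit 7261) (nat_lit 384) (.e (nat_lit 57427) (nat_lit 15) .nil))))) .nil)) 
(.lf (nat_lit 125556) (.g (nat_lit 2976) (.e (nat_lit 7270) (nat_lit 385) (.e (nat_lit 122903) (nat_lit 12) (.e (nat_lit 336060) (nat_lit 7) (.e (nat_lit 319533) (nat_lit 16) (.e (nat_lit 286753) (nat_lit 10) (.e (nat_lit 344160) (nat_lit 37) (.e (nat_lit 647201) (nat_lit 12) (.e (nat_lit 57357) (nat_lit 0) .nil)))))))) (.g (nat_lit 6) .nil .nil))))) (.nd (nat_lit 4) (.nd (nat_lit 5) 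
(.lf (nat_lit 125516) (.g (nat_lit 656) (.e (nat_lit 7267) (nat_lit 385) (.e (nat_lit 122917) (nat_lit 15) (.e (nat_lit 360453) (nat_lit 0) .nil))) .nil)) 
(.lf (nat_lit 125548) (.g (nat_lit 3352) (.e (nat_lit 7270) (nat_lit 385) (.e (nat_lit 122903) (nat_lit 12) (.e (nat_lit 336028) (nat_lit 3) (.e (nat_lit 98359) (nat_lit 26) (.e (nat_lit 426286) (nat_lit 10) (.e (nat_lit 434248) (nat_lit 28) (.e (nat_lit 573473) (nat_lit 12) (.e (nat_lit 57357) (nat_lit 0) .nil)))))))) (.g (nat_lit 7) .nil .nil)))) (.nd (nat_lit 5) 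
(.lf (nat_lit 125532) (.g (nat_lit 2364) (.e (nat_lit 7267) (nat_lit 385) (.e (nat_lit 122919) (nat_lit 15) (.e (nat_lit 360451) (nat_lit 0) (.e (nat_lit 7266) (nat_lit 384) (.e (nat_lit 57427) (nat_lit 15) .nil))))) .nil)) 
(.lf (nat_lit 125564) (.g (nat_lit 3197) (.e (nat_lit 7270) (nat_lit 385) (.e (nat_lit 122906) (nat_lit 12) (.e (nat_lit 336061) (nat_lit 7) (.e (nat_lit 319533) (nat_lit 16) (.e (nat_lit 286753) (nat_lit 10) (.e (nat_lit 344160) (nat_lit 37) (.e (nat_lit 647200) (nat_lit 12) (.e (nat_lit 57354) (nat_lit 0) .nil)))))))) (.g (nat_lit 5) .nil .nil))))))) 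
(.nd (nat_lit 2) (.nd (nat_lit 3) (.nd (nat_lit 4) (.nd (nat_lit 5) 
(.lf (nat_lit 125506) (.g (nat_lit 1201) (.e (nat_lit 7936) (nat_lit 384) (.e (nat_lit 57424) (nat_lit 14) (.e (nat_lit 352272) (nat_lit 10) (.e (nat_lit 417795) (nat_lit 0) (.e (nat_lit 5412) (nat_lit 303) .nil))))) .nil)) 
(.lf (nat_lit 125538) (.g (nat_lit 1094) (.e (nat_lit 7269) (nat_lit 385) (.e (nat_lit 122914) (nat_lit 14) (.e (nat_lit 352277) (nat_lit 11) (.e (nat_lit 426343) (nat_lit 14) .nil)))) .nil))) (.nd (nat_lit 5) 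
(.lf (nat_lit 125522) (.g (nat_lit 1518) (.e (nat_lit 7267) (nat_lit 385) (.e (nat_lit 122919) (nat_lit 15) (.e (nat_lit 360451) (nat_lit 0) (.e (nat_lit 7261) (nat_lit 384) .nil)))) .nil)) 
(.lf (nat_lit 125554) (.g (nat_lit 3610) (.e (nat_lit 7270) (nat_lit 385) (.e (nat_lit 122903) (nat_lit 12) (.e (nat_lit 336028) (nat_lit 3) (.e (nat_lit 98373) (nat_lit 29) (.e (nat_lit 450588) (nat_lit 10) (.e (nat_lit 573473) (nat_lit 12) (.e (nat_lit 57357) (nat_lit 0) .nil))))))) (.g (nat_lit 6) .nil .nil))))) (.nd (nat_lit 4) (.nd (nat_lit 5) 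
(.lf (nat_lit 125514) (.g (nat_lit 1632) (.e (nat_lit 7267) (nat_lit 385) (.e (nat_lit 122914) (nat_lit 14) (.e (nat_lit 352277) (nat_lit 11) (.e (nat_lit 426344) (nat_lit 14) (.e (nat_lit 491560) (nat_lit 10) .nil))))) .nil)) 
(.lf (nat_lit 125546) (.g (nat_lit 3207) (.e (nat_lit 7270) (nat_lit 385) (.e (nat_lit 122903) (nat_lit 12) (.e (nat_lit 336028) (nat_lit 3) (.e (nat_lit 98359) (nat_lit 26) (.e (nat_lit 426286) (nat_lit 10) (.e (nat_lit 434245) (nat_lit 28) (.e (nat_lit 573473) (nat_lit 12) (.e (nat_lit 57357) (nat_lit 0) .nil)))))))) (.g (nat_lit 6) .nil .nil)))) (.nd (nat_lit 5) 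
(.lf (nat_lit 125530) (.g (nat_lit 1830) (.e (nat_lit 7267) (nat_lit 385) (.e (nat_lit 122919) (nat_lit 15) (.e (nat_lit 360451) (nat_lit 0) (.e (nat_lit 7265) (nat_lit 384) (.e (nat_lit 57436) (nat_lit 17) .nil))))) .nil)) 
(.lf (nat_lit 125562) (.g (nat_lit 2463) (.e (nat_lit 7270) (nat_lit 385) (.e (nat_lit 122906) (nat_lit 12) (.e (nat_lit 336058) (nat_lit 7) (.e (nat_lit 319533) (nat_lit 16) (.e (nat_lit 286753) (nat_lit 10) (.e (nat_lit 344160) (nat_lit 37) (.e (nat_lit 647201) (nat_lit 12) (.e (nat_lit 57357) (nat_lit 0) .nil)))))))) (.g (nat_lit 5) .nil .nil)))))) 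
(.nd (nat_lit 3) (.nd (nat_lit 4) (.nd (nat_lit 5) 
(.lf (nat_lit 125510) (.g (nat_lit 539) (.e (nat_lit 7936) (nat_lit 384) (.e (nat_lit 57437) (nat_lit 17) (.e (nat_lit 376859) (nat_lit 21) .nil))) .nil)) 
(.lf (nat_lit 125542) (.g (nat_lit 3689) (.e (nat_lit 7270) (nat_lit 385) (.e (nat_lit 122903) (nat_lit 12) (.e (nat_lit 336013) (nat_lit 2) (.e (nat_lit 90170) (nat_lit 13) (.e (nat_lit 172113) (nat_lit 10) (.e (nat_lit 434248) (nat_lit 28) (.e (nat_lit 573473) (nat_lit 12) (.e (nat_lit 57357) (nat_lit 0) .nil)))))))) (.g (nat_lit 7) .nil .nil)))) (.nd (nat_lit 5) 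
(.lf (nat_lit 125526) (.g (nat_lit 1785) (.e (nat_lit 7267) (nat_lit 385) (.e (nat_lit 122919) (nat_lit 15) (.e (nat_lit 360451) (nat_lit 0) (.e (nat_lit 7265) (nat_lit 384) (.e (nat_lit 57412) (nat_lit 12) .nil))))) .nil)) 
(.lf (nat_lit 125558) (.g (nat_lit 1961) (.e (nat_lit 7270) (nat_lit 385) (.e (nat_lit 122905) (nat_lit 12) (.e (nat_lit 336060) (nat_lit 7) (.e (nat_lit 319533) (nat_lit 16) (.e (nat_lit 286753) (nat_lit 10) (.e (nat_lit 344160) (nat_lit 37) (.e (nat_lit 647200) (nat_lit 12) (.e (nat_lit 57357) (nat_lit 0) .nil)))))))) (.g (nat_lit 4) .nil .nil))))) (.nd (nat_lit 4) (.nd (nat_lit 5) 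
(.lf (nat_lit 125518) (.g (nat_lit 2450) (.e (nat_lit 7267) (nat_lit 385) (.e (nat_lit 122919) (nat_lit 15) (.e (nat_lit 360451) (nat_lit 0) (.e (nat_lit 7122) (nat_lit 382) (.e (nat_lit 1201) (nat_lit 88) .nil))))) .nil)) 
(.lf (nat_lit 125550) (.g (nat_lit 2927) (.e (nat_lit 7270) (nat_lit 385) (.e (nat_lit 122903) (nat_lit 12) (.e (nat_lit 336028) (nat_lit 3) (.e (nat_lit 98372) (nat_lit 29) (.e (nat_lit 450586) (nat_lit 10) (.e (nat_lit 573473) (nat_lit 12) (.e (nat_lit 57357) (nat_lit 0) .nil))))))) (.g (nat_lit 6) .nil .nil)))) (.nd (nat_lit 5) 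
(.lf (nat_lit 125534) (.g (nat_lit 2136) (.e (nat_lit 7268) (nat_lit 385) (.e (nat_lit 122919) (nat_lit 15) (.e (nat_lit 360451) (nat_lit 0) (.e (nat_lit 7124) (nat_lit 382) (.e (nat_lit 1201) (nat_lit 88) .nil))))) .nil)) 
(.lf (nat_lit 125566) (.g (nat_lit 1666) (.e (nat_lit 7270) (nat_lit 385) (.e (nat_lit 122906) (nat_lit 12) (.e (nat_lit 336212) (nat_lit 13) (.e (nat_lit 393234) (nat_lit 17) (.e (nat_lit 7593) (nat_lit 407) (.e (nat_lit 73732) (nat_lit 0) .nil)))))) (.g (nat_lit 4) .nil .nil)))))))) (.nd (nat_lit 1) (.nd (nat_lit 2) (.nd (nat_lit 3) (.nd (nat_lit 4) (.nd (nat_lit 5) 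
(.lf (nat_lit 125505) (.g (nat_lit 1131) (.e (nat_lit 7936) (nat_lit 384) (.e (nat_lit 57424) (nat_lit 14) (.e (nat_lit 352272) (nat_lit 10) (.e (nat_lit 417795) (nat_lit 0) (.e (nat_lit 5409) (nat_lit 303) .nil))))) .nil)) 
(.lf (nat_lit 125537) (.g (nat_lit 600) (.e (nat_lit 7269) (nat_lit 385) (.e (nat_lit 122914) (nat_lit 14) (.e (nat_lit 352277) (nat_lit 11) .nil))) .nil))) (.nd (nat_lit 5) 
(.lf (nat_lit 125521) (.g (nat_lit 2816) (.e (nat_lit 7267) (nat_lit 385) (.e (nat_lit 122919) (nat_lit 15) (.e (nat_lit 360451) (nat_lit 0) (.e (nat_lit 7125) (nat_lit 382) (.e (nat_lit 1201) (nat_lit 88) (.e (nat_lit 65610) (nat_lit 10) (.e (nat_lit 344093) (nat_lit 18) .nil))))))) (.g (nat_lit 4) .nil .nil))) 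
(.lf (nat_lit 125553) (.g (nat_lit 2751) (.e (nat_lit 7270) (nat_lit 385) (.e (nat_lit 122903) (nat_lit 12) (.e (nat_lit 336028) (nat_lit 3) (.e (nat_lit 98373) (nat_lit 29) (.e (nat_lit 450587) (nat_lit 10) (.e (nat_lit 573478) (nat_lit 12) (.e (nat_lit 57344) (nat_lit 0) .nil))))))) (.g (nat_lit 5) .nil .nil))))) (.nd (nat_lit 4) (.nd (nat_lit 5) 
(.lf (nat_lit 125513) (.g (nat_lit 1560) (.e (nat_lit 7936) (nat_lit 384) (.e (nat_lit 57437) (nat_lit 17) (.e (nat_lit 376859) (nat_lit 21) (.e (nat_lit 57684) (nat_lit 155) (.e (nat_lit 122919) (nat_lit 15) .nil))))) .nil)) 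
(.lf (nat_lit 125545) (.g (nat_lit 3728) (.e (nat_lit 7270) (nat_lit 385) (.e (nat_lit 122903) (nat_lit 12) (.e (nat_lit 336024) (nat_lit 3) (.e (nat_lit 98373) (nat_lit 29) (.e (nat_lit 450588) (nat_lit 10) (.e (nat_lit 573473) (nat_lit 12) (.e (nat_lit 57354) (nat_lit 0) .nil))))))) (.g (nat_lit 5) .nil .nil)))) (.nd (nat_lit 5) 
(.lf (nat_lit 125529) (.g (nat_lit 2476) (.e (nat_lit 7267) (nat_lit 385) (.e (nat_lit 122919) (nat_lit 15) (.e (nat_lit 360451) (nat_lit 0) (.e (nat_lit 7265) (nat_lit 384) (.e (nat_lit 57427) (nat_lit 15) (.e (nat_lit 368384) (nat_lit 0) .nil)))))) (.g (nat_lit 5) .nil .nil))) 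
(.lf (nat_lit 125561) (.g (nat_lit 3154) (.e (nat_lit 7270) (nat_lit 385) (.e (nat_lit 122906) (nat_lit 12) (.e (nat_lit 336054) (nat_lit 7) (.e (nat_lit 319534) (nat_lit 16) (.e (nat_lit 286756) (nat_lit 10) (.e (nat_lit 344160) (nat_lit 37) (.e (nat_lit 647201) (nat_lit 12) (.e (nat_lit 57357) (nat_lit 0) .nil)))))))) (.g (nat_lit 6) .nil .nil)))))) 
(.nd (nat_lit 3) (.nd (nat_lit 4) (.nd (nat_lit 5) 
(.lf (nat_lit 125509) (.g (nat_lit 1271) (.e (nat_lit 7936) (nat_lit 384) (.e (nat_lit 57437) (nat_lit 17) (.e (nat_lit 376842) (nat_lit 11) (.e (nat_lit 426343) (nat_lit 14) .nil)))) .nil)) 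
(.lf (nat_lit 125541) (.g (nat_lit 3298) (.e (nat_lit 7270) (nat_lit 385) (.e (nat_lit 122903) (nat_lit 12) (.e (nat_lit 336013) (nat_lit 2) (.e (nat_lit 90170) (nat_lit 13) (.e (nat_lit 172113) (nat_lit 10) (.e (nat_lit 434247) (nat_lit 28) (.e (nat_lit 573478) (nat_lit 12) (.e (nat_lit 57344) (nat_lit 0) .nil)))))))) (.g (nat_lit 6) .nil .nil)))) (.nd (nat_lit 5) 
(.lf (nat_lit 125525) (.g (nat_lit 1641) (.e (nat_lit 7267) (nat_lit 385) (.e (nat_lit 122919) (nat_lit 15) (.e (nat_lit 360451) (nat_lit 0) (.e (nat_lit 7263) (nat_lit 384) .nil)))) .nil)) 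
(.lf (nat_lit 125557) (.g (nat_lit 2635) (.e (nat_lit 7270) (nat_lit 385) (.e (nat_lit 122903) (nat_lit 12) (.e (nat_lit 336060) (nat_lit 7) (.e (nat_lit 319534) (nat_lit 16) (.e (nat_lit 286756) (nat_lit 10) (.e (nat_lit 344160) (nat_lit 37) (.e (nat_lit 647201) (nat_lit 12) (.e (nat_lit 57357) (nat_lit 0) .nil)))))))) (.g (nat_lit 5) .nil .nil))))) (.nd (nat_lit 4) (.nd (nat_lit 5) 
(.lf (nat_lit 125517) (.g (nat_lit 643) (.e (nat_lit 7267) (nat_lit 385) (.e (nat_lit 122917) (nat_lit 15) (.e (nat_lit 360489) (nat_lit 21) .nil))) .nil)) 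
(.lf (nat_lit 125549) (.g (nat_lit 3891) (.e (nat_lit 7270) (nat_lit 385) (.e (nat_lit 122903) (nat_lit 12) (.e (nat_lit 336028) (nat_lit 3) (.e (nat_lit 98359) (nat_lit 26) (.e (nat_lit 426286) (nat_lit 10) (.e (nat_lit 434248) (nat_lit 28) (.e (nat_lit 573475) (nat_lit 12) (.e (nat_lit 57344) (nat_lit 0) .nil)))))))) (.g (nat_lit 7) .nil .nil)))) (.nd (nat_lit 5) 
(.lf (nat_lit 125533) (.g (nat_lit 615) (.e (nat_lit 7268) (nat_lit 385) (.e (nat_lit 122919) (nat_lit 15) (.e (nat_lit 360451) (nat_lit 0) .nil))) .nil)) 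
(.lf (nat_lit 125565) (.g (nat_lit 1728) (.e (nat_lit 7270) (nat_lit 385) (.e (nat_lit 122906) (nat_lit 12) (.e (nat_lit 336212) (nat_lit 13) (.e (nat_lit 393232) (nat_lit 17) (.e (nat_lit 7591) (nat_lit 407) (.e (nat_lit 73733) (nat_lit 0) .nil)))))) (.g (nat_lit 4) .nil .nil))))))) (.nd (nat_lit 2) (.nd (nat_lit 3) (.nd (nat_lit 4) (.nd (nat_lit 5) 
(.lf (nat_lit 125507) (.g (nat_lit 485) (.e (nat_lit 7936) (nat_lit 384) (.e (nat_lit 57435) (nat_lit 17) (.e (nat_lit 376842) (nat_lit 11) .nil))) .nil)) 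
(.lf (nat_lit 125539) (.g (nat_lit 1931) (.e (nat_lit 7270) (nat_lit 385) (.e (nat_lit 122892) (nat_lit 3) (.e (nat_lit 98342) (nat_lit 20) (.e (nat_lit 221212) (nat_lit 22) (.e (nat_lit 196669) (nat_lit 14) (.e (nat_lit 81664) (nat_lit 5) (.e (nat_lit 532490) (nat_lit 0) (.e (nat_lit 1040) (nat_lit 81) .nil)))))))) (.g (nat_lit 4) .nil .nil)))) (.nd (nat_lit 5) 
(.lf (nat_lit 125523) (.g (nat_lit 2165) (.e (nat_lit 7267) (nat_lit 385) (.e (nat_lit 122919) (nat_lit 15) (.e (nat_lit 360451) (nat_lit 0) (.e (nat_lit 7261) (nat_lit 384) (.e (nat_lit 57412) (nat_lit 12) (.e (nat_lit 336176) (nat_lit 10) (.e (nat_lit 344093) (nat_lit 18) .nil))))))) (.g (nat_lit 4) .nil .nil))) 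
(.lf (nat_lit 125555) (.g (nat_lit 3726) (.e (nat_lit 7270) (nat_lit 385) (.e (nat_lit 122903) (nat_lit 12) (.e (nat_lit 336028) (nat_lit 3) (.e (nat_lit 98373) (nat_lit 29) (.e (nat_lit 450588) (nat_lit 10) (.e (nat_lit 573475) (nat_lit 12) (.e (nat_lit 57344) (nat_lit 0) .nil))))))) (.g (nat_lit 6) .nil .nil))))) (.nd (nat_lit 4) (.nd (nat_lit 5) 
(.lf (nat_lit 125515) (.g (nat_lit 648) (.e (nat_lit 7267) (nat_lit 385) (.e (nat_lit 122917) (nat_lit 15) (.e (nat_lit 360452) (nat_lit 0) .nil))) .nil)) 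
(.lf (nat_lit 125547) (.g (nat_lit 2792) (.e (nat_lit 7270) (nat_lit 385) (.e (nat_lit 122903) (nat_lit 12) (.e (nat_lit 336028) (nat_lit 3) (.e (nat_lit 98359) (nat_lit 26) (.e (nat_lit 426286) (nat_lit 10) (.e (nat_lit 434247) (nat_lit 28) (.e (nat_lit 573478) (nat_lit 12) (.e (nat_lit 57344) (nat_lit 0) .nil)))))))) (.g (nat_lit 6) .nil .nil)))) (.nd (nat_lit 5) 
(.lf (nat_lit 125531) (.g (nat_lit 1781) (.e (nat_lit 7267) (nat_lit 385) (.e (nat_lit 122919) (nat_lit 15) (.e (nat_lit 360451) (nat_lit 0) (.e (nat_lit 7266) (nat_lit 384) .nil)))) .nil)) 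
(.lf (nat_lit 125563) (.g (nat_lit 3461) (.e (nat_lit 7270) (nat_lit 385) (.e (nat_lit 122906) (nat_lit 12) (.e (nat_lit 336060) (nat_lit 7) (.e (nat_lit 319534) (nat_lit 16) (.e (nat_lit 286756) (nat_lit 10) (.e (nat_lit 344160) (nat_lit 37) (.e (nat_lit 647201) (nat_lit 12) (.e (nat_lit 57357) (nat_lit 0) .nil)))))))) (.g (nat_lit 7) .nil .nil)))))) 
(.nd (nat_lit 3) (.nd (nat_lit 4) (.nd (nat_lit 5) 
(.lf (nat_lit 125511) (.g (nat_lit 1715) (.e (nat_lit 7936) (nat_lit 384) (.e (nat_lit 57437) (nat_lit 17) (.e (nat_lit 376859) (nat_lit 21) (.e (nat_lit 57683) (nat_lit 155) (.e (nat_lit 122919) (nat_lit 15) .nil))))) .nil)) 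
(.lf (nat_lit 125543) (.g (nat_lit 4255) (.e (nat_lit 7270) (nat_lit 385) (.e (nat_lit 122903) (nat_lit 12) (.e (nat_lit 336013) (nat_lit 2) (.e (nat_lit 90170) (nat_lit 13) (.e (nat_lit 172113) (nat_lit 10) (.e (nat_lit 434248) (nat_lit 28) (.e (nat_lit 573475) (nat_lit 12) (.e (nat_lit 57344) (nat_lit 0) .nil)))))))) (.g (nat_lit 7) .nil .nil)))) (.nd (nat_lit 5) 
(.lf (nat_lit 125527) (.g (nat_lit 2486) (.e (nat_lit 7267) (nat_lit 385) (.e (nat_lit 122919) (nat_lit 15) (.e (nat_lit 360451) (nat_lit 0) (.e (nat_lit 7265) (nat_lit 384) (.e (nat_lit 57412) (nat_lit 12) (.e (nat_lit 336176) (nat_lit 10) (.e (nat_lit 344093) (nat_lit 18) .nil))))))) (.g (nat_lit 5) .nil .nil))) 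
(.lf (nat_lit 125559) (.g (nat_lit 3843) (.e (nat_lit 7270) (nat_lit 385) (.e (nat_lit 122905) (nat_lit 12) (.e (nat_lit 336060) (nat_lit 7) (.e (nat_lit 319534) (nat_lit 16) (.e (nat_lit 286756) (nat_lit 10) (.e (nat_lit 344160) (nat_lit 37) (.e (nat_lit 647201) (nat_lit 12) (.e (nat_lit 57357) (nat_lit 0) .nil)))))))) (.g (nat_lit 7) .nil .nil))))) (.nd (nat_lit 4) (.nd (nat_lit 5) 
(.lf (nat_lit 125519) (.g (nat_lit 3378) (.e (nat_lit 7267) (nat_lit 385) (.e (nat_lit 122919) (nat_lit 15) (.e (nat_lit 360451) (nat_lit 0) (.e (nat_lit 7124) (nat_lit 382) (.e (nat_lit 1201) (nat_lit 88) (.e (nat_lit 65617) (nat_lit 10) (.e (nat_lit 344087) (nat_lit 18) .nil))))))) (.g (nat_lit 6) .nil .nil))) 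
(.lf (nat_lit 125551) (.g (nat_lit 2899) (.e (nat_lit 7270) (nat_lit 385) (.e (nat_lit 122903) (nat_lit 12) (.e (nat_lit 336028) (nat_lit 3) (.e (nat_lit 98372) (nat_lit 29) (.e (nat_lit 450586) (nat_lit 10) (.e (nat_lit 573475) (nat_lit 12) (.e (nat_lit 57344) (nat_lit 0) .nil))))))) (.g (nat_lit 6) .nil .nil)))) (.nd (nat_lit 5) 
(.lf (nat_lit 125535) (.g (nat_lit 2819) (.e (nat_lit 7268) (nat_lit 385) (.e (nat_lit 122919) (nat_lit 15) (.e (nat_lit 360451) (nat_lit 0) (.e (nat_lit 7125) (nat_lit 382) (.e (nat_lit 1201) (nat_lit 88) .nil))))) .nil)) 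
(.lf (nat_lit 125567) (.g (nat_lit 1896) (.e (nat_lit 7270) (nat_lit 385) (.e (nat_lit 122906) (nat_lit 12) (.e (nat_lit 336212) (nat_lit 13) (.e (nat_lit 393300) (nat_lit 27) (.e (nat_lit 491558) (nat_lit 10) (.e (nat_lit 344100) (nat_lit 18) .nil)))))) (.g (nat_lit 4) .nil .nil)))))))))

noncomputable def tv1685 : DT := (.nd (nat_lit 0) (.nd (nat_lit 1) (.nd (nat_lit 2) (.nd (nat_lit 3) (.nd (nat_lit 4) (.nd (nat_lit 5) 
(.lf (nat_lit 125568) (.g (nat_lit 1659) (.e (nat_lit 7270) (nat_lit 385) (.e (nat_lit 122907) (nat_lit 12) (.e (nat_lit 336013) (nat_lit 2) (.e (nat_lit 90170) (nat_lit 13) (.e (nat_lit 172106) (nat_lit 10) (.e (nat_lit 434244) (nat_lit 28) (.e (nat_lit 573474) (nat_lit 12) (.e (nat_lit 57356) (nat_lit 0) .nil)))))))) (.g (nat_lit 4) .nil .nil))) 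
(.lf (nat_lit 125600) (.g (nat_lit 3618) (.e (nat_lit 7270) (nat_lit 385) (.e (nat_lit 122913) (nat_lit 13) (.e (nat_lit 344117) (nat_lit 21) (.e (nat_lit 516151) (nat_lit 9) (.e (nat_lit 426286) (nat_lit 10) (.e (nat_lit 434248) (nat_lit 28) (.e (nat_lit 573473) (nat_lit 12) (.e (nat_lit 57357) (nat_lit 0) .nil)))))))) (.g (nat_lit 6) .nil .nil)))) (.nd (nat_lit 5) 
(.lf (nat_lit 125584) (.g (nat_lit 2448) (.e (nat_lit 7270) (nat_lit 385) (.e (nat_lit 122911) (nat_lit 13) (.e (nat_lit 344117) (nat_lit 21) (.e (nat_lit 516165) (nat_lit 12) (.e (nat_lit 450586) (nat_lit 10) (.e (nat_lit 573478) (nat_lit 12) (.e (nat_lit 57344) (nat_lit 0) .nil))))))) (.g (nat_lit 5) .nil .nil))) 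
(.lf (nat_lit 125616) (.g (nat_lit 1712) (.e (nat_lit 7270) (nat_lit 385) (.e (nat_lit 122913) (nat_lit 13) (.e (nat_lit 344130) (nat_lit 26) (.e (nat_lit 557103) (nat_lit 14) (.e (nat_lit 180229) (nat_lit 0) .nil))))) .nil)))) (.nd (nat_lit 4) (.nd (nat_lit 5) 
(.lf (nat_lit 125576) (.g (nat_lit 3203) (.e (nat_lit 7270) (nat_lit 385) (.e (nat_lit 122910) (nat_lit 12) (.e (nat_lit 336027) (nat_lit 3) (.e (nat_lit 98372) (nat_lit 29) (.e (nat_lit 450586) (nat_lit 10) (.e (nat_lit 573473) (nat_lit 12) (.e (nat_lit 57354) (nat_lit 0) .nil))))))) (.g (nat_lit 5) .nil .nil))) 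
(.lf (nat_lit 125608) (.g (nat_lit 2884) (.e (nat_lit 7270) (nat_lit 385) (.e (nat_lit 122913) (nat_lit 13) (.e (nat_lit 344117) (nat_lit 21) (.e (nat_lit 516165) (nat_lit 12) (.e (nat_lit 450587) (nat_lit 10) (.e (nat_lit 573477) (nat_lit 12) (.e (nat_lit 57357) (nat_lit 0) .nil))))))) (.g (nat_lit 4) .nil .nil)))) (.nd (nat_lit 5) 
(.lf (nat_lit 125592) (.g (nat_lit 3940) (.e (nat_lit 7270) (nat_lit 385) (.e (nat_lit 122913) (nat_lit 13) (.e (nat_lit 344117) (nat_lit 21) (.e (nat_lit 516151) (nat_lit 9) (.e (nat_lit 426285) (nat_lit 10) .nil))))) .nil)) 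
(.lf (nat_lit 125624) (.g (nat_lit 2243) (.e (nat_lit 7270) (nat_lit 385) (.e (nat_lit 122915) (nat_lit 14) (.e (nat_lit 352277) (nat_lit 11) (.e (nat_lit 426012) (nat_lit 0) (.e (nat_lit 7593) (nat_lit 407) (.e (nat_lit 73732) (nat_lit 0) .nil)))))) (.g (nat_lit 5) .nil .nil)))))) (.nd (nat_lit 3) (.nd (nat_lit 4) (.nd (nat_lit 5) 
(.lf (nat_lit 125572) (.g (nat_lit 2365) (.e (nat_lit 7270) (nat_lit 385) (.e (nat_lit 122907) (nat_lit 12) (.e (nat_lit 336028) (nat_lit 3) (.e (nat_lit 98372) (nat_lit 29) (.e (nat_lit 450586) (nat_lit 10) (.e (nat_lit 573473) (nat_lit 12) (.e (nat_lit 57354) (nat_lit 0) .nil))))))) (.g (nat_lit 4) .nil .nil))) 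
(.lf (nat_lit 125604) (.g (nat_lit 3415) (.e (nat_lit 7270) (nat_lit 385) (.e (nat_lit 122913) (nat_lit 13) (.e (nat_lit 344117) (nat_lit 21) (.e (nat_lit 516165) (nat_lit 12) (.e (nat_lit 450586) (nat_lit 10) (.e (nat_lit 573475) (nat_lit 12) (.e (nat_lit 57344) (nat_lit 0) .nil))))))) (.g (nat_lit 6) .nil .nil)))) (.nd (nat_lit 5) 
(.lf (nat_lit 125588) (.g (nat_lit 3684) (.e (nat_lit 7270) (nat_lit 385) (.e (nat_lit 122911) (nat_lit 13) (.e (nat_lit 344117) (nat_lit 21) (.e (nat_lit 516166) (nat_lit 12) (.e (nat_lit 450588) (nat_lit 10) (.e (nat_lit 573475) (nat_lit 12) (.e (nat_lit 57344) (nat_lit 0) .nil))))))) (.g (nat_lit 6) .nil .nil))) 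
(.lf (nat_lit 125620) (.g (nat_lit 2467) (.e (nat_lit 7270) (nat_lit 385) (.e (nat_lit 122914) (nat_lit 14) (.e (nat_lit 352324) (nat_lit 26) (.e (nat_lit 147495) (nat_lit 11) (.e (nat_lit 24640) (nat_lit 10) (.e (nat_lit 344097) (nat_lit 18) .nil)))))) (.g (nat_lit 4) .nil .nil))))) (.nd (nat_lit 4) (.nd (nat_lit 5) 
(.lf (nat_lit 125580) (.g (nat_lit 3554) (.e (nat_lit 7270) (nat_lit 385) (.e (nat_lit 122911) (nat_lit 13) (.e (nat_lit 344117) (nat_lit 21) (.e (nat_lit 516151) (nat_lit 9) (.e (nat_lit 426286) (nat_lit 10) (.e (nat_lit 434248) (nat_lit 28) (.e (nat_lit 573473) (nat_lit 12) (.e (nat_lit 57357) (nat_lit 0) .nil)))))))) (.g (nat_lit 6) .nil .nil))) 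
(.lf (nat_lit 125612) (.g (nat_lit 2608) (.e (nat_lit 7270) (nat_lit 385) (.e (nat_lit 122913) (nat_lit 13) (.e (nat_lit 344117) (nat_lit 21) (.e (nat_lit 516166) (nat_lit 12) (.e (nat_lit 450587) (nat_lit 10) (.e (nat_lit 573478) (nat_lit 12) (.e (nat_lit 57344) (nat_lit 0) .nil))))))) (.g (nat_lit 5) .nil .nil)))) (.nd (nat_lit 5) 
(.lf (nat_lit 125596) (.g (nat_lit 4331) (.e (nat_lit 7270) (nat_lit 385) (.e (nat_lit 122913) (nat_lit 13) (.e (nat_lit 344117) (nat_lit 21) (.e (nat_lit 516151) (nat_lit 9) (.e (nat_lit 426286) (nat_lit 10) (.e (nat_lit 434247) (nat_lit 28) (.e (nat_lit 573477) (nat_lit 12) (.e (nat_lit 57357) (nat_lit 0) .nil)))))))) (.g (nat_lit 8) .nil .nil))) 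
(.lf (nat_lit 125628) (.g (nat_lit 2514) (.e (nat_lit 7270) (nat_lit 385) (.e (nat_lit 122916) (nat_lit 14) (.e (nat_lit 352273) (nat_lit 11) (.e (nat_lit 426343) (nat_lit 14) (.e (nat_lit 491560) (nat_lit 10) (.e (nat_lit 344099) (nat_lit 18) .nil)))))) (.g (nat_lit 5) .nil .nil))))))) (.nd (nat_lit 2) (.nd (nat_lit 3) (.nd (nat_lit 4) (.nd (nat_lit 5) 
(.lf (nat_lit 125570) (.g (nat_lit 4319) (.e (nat_lit 7270) (nat_lit 385) (.e (nat_lit 122907) (nat_lit 12) (.e (nat_lit 336013) (nat_lit 2) (.e (nat_lit 90170) (nat_lit 13) (.e (nat_lit 172113) (nat_lit 10) (.e (nat_lit 434245) (nat_lit 28) (.e (nat_lit 573474) (nat_lit 12) (.e (nat_lit 57354) (nat_lit 0) .nil)))))))) (.g (nat_lit 5) .nil .nil))) 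
(.lf (nat_lit 125602) (.g (nat_lit 4393) (.e (nat_lit 7270) (nat_lit 385) (.e (nat_lit 122913) (nat_lit 13) (.e (nat_lit 344117) (nat_lit 21) (.e (nat_lit 516151) (nat_lit 9) (.e (nat_lit 426286) (nat_lit 10) (.e (nat_lit 434248) (nat_lit 28) (.e (nat_lit 573475) (nat_lit 12) (.e (nat_lit 57356) (nat_lit 0) .nil)))))))) (.g (nat_lit 8) .nil .nil)))) (.nd (nat_lit 5) 
(.lf (nat_lit 125586) (.g (nat_lit 2489) (.e (nat_lit 7270) (nat_lit 385) (.e (nat_lit 122911) (nat_lit 13) (.e (nat_lit 344117) (nat_lit 21) (.e (nat_lit 516166) (nat_lit 12) (.e (nat_lit 450587) (nat_lit 10) (.e (nat_lit 573478) (nat_lit 12) (.e (nat_lit 57344) (nat_lit 0) .nil))))))) (.g (nat_lit 5) .nil .nil))) 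
(.lf (nat_lit 125618) (.g (nat_lit 2340) (.e (nat_lit 7270) (nat_lit 385) (.e (nat_lit 122913) (nat_lit 13) (.e (nat_lit 344130) (nat_lit 26) (.e (nat_lit 557103) (nat_lit 14) (.e (nat_lit 180263) (nat_lit 21) (.e (nat_lit 663568) (nat_lit 5) (.e (nat_lit 73733) (nat_lit 0) .nil))))))) (.g (nat_lit 4) .nil .nil))))) (.nd (nat_lit 4) (.nd (nat_lit 5) 
(.lf (nat_lit 125578) (.g (nat_lit 3402) (.e (nat_lit 7270) (nat_lit 385) (.e (nat_lit 122911) (nat_lit 13) (.e (nat_lit 344117) (nat_lit 21) (.e (nat_lit 516151) (nat_lit 9) (.e (nat_lit 426286) (nat_lit 10) (.e (nat_lit 434245) (nat_lit 28) (.e (nat_lit 573473) (nat_lit 12) (.e (nat_lit 57357) (nat_lit 0) .nil)))))))) (.g (nat_lit 6) .nil .nil))) 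
(.lf (nat_lit 125610) (.g (nat_lit 5747) (.e (nat_lit 7270) (nat_lit 385) (.e (nat_lit 122913) (nat_lit 13) (.e (nat_lit 344117) (nat_lit 21) (.e (nat_lit 516165) (nat_lit 12) (.e (nat_lit 450588) (nat_lit 10) (.e (nat_lit 573475) (nat_lit 12) (.e (nat_lit 57354) (nat_lit 0) .nil))))))) (.g (nat_lit 6) .nil .nil)))) (.nd (nat_lit 5) 
(.lf (nat_lit 125594) (.g (nat_lit 4502) (.e (nat_lit 7270) (nat_lit 385) (.e (nat_lit 122913) (nat_lit 13) (.e (nat_lit 344117) (nat_lit 21) (.e (nat_lit 516151) (nat_lit 9) (.e (nat_lit 426286) (nat_lit 10) (.e (nat_lit 434245) (nat_lit 28) (.e (nat_lit 573474) (nat_lit 12) (.e (nat_lit 57356) (nat_lit 0) .nil)))))))) (.g (nat_lit 0) .nil .nil))) 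
(.lf (nat_lit 125626) (.g (nat_lit 3259) (.e (nat_lit 7270) (nat_lit 385) (.e (nat_lit 122916) (nat_lit 14) (.e (nat_lit 352273) (nat_lit 11) (.e (nat_lit 426011) (nat_lit 0) (.e (nat_lit 7591) (nat_lit 407) (.e (nat_lit 73733) (nat_lit 0) .nil)))))) (.g (nat_lit 6) .nil .nil)))))) (.nd (nat_lit 3) (.nd (nat_lit 4) (.nd (nat_lit 5) 
(.lf (nat_lit 125574) (.g (nat_lit 2689) (.e (nat_lit 7270) (nat_lit 385) (.e (nat_lit 122907) (nat_lit 12) (.e (nat_lit 336060) (nat_lit 7) (.e (nat_lit 319534) (nat_lit 16) (.e (nat_lit 286756) (nat_lit 10) (.e (nat_lit 344160) (nat_lit 37) (.e (nat_lit 647201) (nat_lit 12) (.e (nat_lit 57357) (nat_lit 0) .nil)))))))) (.g (nat_lit 5) .nil .nil))) 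
(.lf (nat_lit 125606) (.g (nat_lit 3802) (.e (nat_lit 7270) (nat_lit 385) (.e (nat_lit 122913) (nat_lit 13) (.e (nat_lit 344117) (nat_lit 21) (.e (nat_lit 516165) (nat_lit 12) (.e (nat_lit 450586) (nat_lit 10) (.e (nat_lit 573477) (nat_lit 12) (.e (nat_lit 57357) (nat_lit 0) .nil))))))) (.g (nat_lit 7) .nil .nil)))) (.nd (nat_lit 5) 
(.lf (nat_lit 125590) (.g (nat_lit 3641) (.e (nat_lit 7270) (nat_lit 385) (.e (nat_lit 122912) (nat_lit 13) (.e (nat_lit 344117) (nat_lit 21) (.e (nat_lit 516151) (nat_lit 9) (.e (nat_lit 426286) (nat_lit 10) (.e (nat_lit 434247) (nat_lit 28) (.e (nat_lit 573477) (nat_lit 12) (.e (nat_lit 57357) (nat_lit 0) .nil)))))))) (.g (nat_lit 6) .nil .nil))) 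
(.lf (nat_lit 125622) (.g (nat_lit 2835) (.e (nat_lit 7270) (nat_lit 385) (.e (nat_lit 122915) (nat_lit 14) (.e (nat_lit 352277) (nat_lit 11) (.e (nat_lit 426011) (nat_lit 0) (.e (nat_lit 7593) (nat_lit 407) (.e (nat_lit 73732) (nat_lit 0) .nil)))))) (.g (nat_lit 5) .nil .nil))))) (.nd (nat_lit 4) (.nd (nat_lit 5) 
(.lf (nat_lit 125582) (.g (nat_lit 3153) (.e (nat_lit 7270) (nat_lit 385) (.e (nat_lit 122911) (nat_lit 13) (.e (nat_lit 344117) (nat_lit 21) (.e (nat_lit 516165) (nat_lit 12) (.e (nat_lit 450586) (nat_lit 10) (.e (nat_lit 573473) (nat_lit 12) (.e (nat_lit 57357) (nat_lit 0) .nil))))))) (.g (nat_lit 6) .nil .nil))) 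
(.lf (nat_lit 125614) (.g (nat_lit 3829) (.e (nat_lit 7270) (nat_lit 385) (.e (nat_lit 122913) (nat_lit 13) (.e (nat_lit 344117) (nat_lit 21) (.e (nat_lit 516166) (nat_lit 12) (.e (nat_lit 450588) (nat_lit 10) (.e (nat_lit 573475) (nat_lit 12) (.e (nat_lit 57344) (nat_lit 0) .nil))))))) (.g (nat_lit 6) .nil .nil)))) (.nd (nat_lit 5) 
(.lf (nat_lit 125598) (.g (nat_lit 3024) (.e (nat_lit 7270) (nat_lit 385) (.e (nat_lit 122913) (nat_lit 13) (.e (nat_lit 344117) (nat_lit 21) (.e (nat_lit 516151) (nat_lit 9) (.e (nat_lit 426286) (nat_lit 10) (.e (nat_lit 434247) (nat_lit 28) (.e (nat_lit 573478) (nat_lit 12) (.e (nat_lit 57344) (nat_lit 0) .nil)))))))) (.g (nat_lit 6) .nil .nil))) 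
(.lf (nat_lit 125630) (.g (nat_lit 2903) (.e (nat_lit 7270) (nat_lit 385) (.e (nat_lit 122916) (nat_lit 14) (.e (nat_lit 352277) (nat_lit 11) (.e (nat_lit 426010) (nat_lit 0) (.e (nat_lit 7593) (nat_lit 407) (.e (nat_lit 73732) (nat_lit 0) .nil)))))) (.g (nat_lit 0) .nil .nil)))))))) (.nd (nat_lit 1) (.nd (nat_lit 2) (.nd (nat_lit 3) (.nd (nat_lit 4) (.nd (nat_lit 5) 
(.lf (nat_lit 125569) (.g (nat_lit 3499) (.e (nat_lit 7270) (nat_lit 385) (.e (nat_lit 122907) (nat_lit 12) (.e (nat_lit 336013) (nat_lit 2) (.e (nat_lit 90170) (nat_lit 13) (.e (nat_lit 172113) (nat_lit 10) (.e (nat_lit 434242) (nat_lit 28) (.e (nat_lit 573474) (nat_lit 12) (.e (nat_lit 57354) (nat_lit 0) .nil)))))))) (.g (nat_lit 4) .nil .nil))) 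
(.lf (nat_lit 125601) (.g (nat_lit 4209) (.e (nat_lit 7270) (nat_lit 385) (.e (nat_lit 122913) (nat_lit 13) (.e (nat_lit 344117) (nat_lit 21) (.e (nat_lit 516151) (nat_lit 9) (.e (nat_lit 426286) (nat_lit 10) (.e (nat_lit 434248) (nat_lit 28) (.e (nat_lit 573475) (nat_lit 12) (.e (nat_lit 57344) (nat_lit 0) .nil)))))))) (.g (nat_lit 7) .nil .nil)))) (.nd (nat_lit 5) 
(.lf (nat_lit 125585) (.g (nat_lit 5404) (.e (nat_lit 7270) (nat_lit 385) (.e (nat_lit 122911) (nat_lit 13) (.e (nat_lit 344117) (nat_lit 21) (.e (nat_lit 516165) (nat_lit 12) (.e (nat_lit 450588) (nat_lit 10) (.e (nat_lit 573473) (nat_lit 12) (.e (nat_lit 57354) (nat_lit 0) .nil))))))) (.g (nat_lit 6) .nil .nil))) 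
(.lf (nat_lit 125617) (.g (nat_lit 1745) (.e (nat_lit 7270) (nat_lit 385) (.e (nat_lit 122913) (nat_lit 13) (.e (nat_lit 344130) (nat_lit 26) (.e (nat_lit 557103) (nat_lit 14) (.e (nat_lit 180263) (nat_lit 21) .nil))))) .nil)))) (.nd (nat_lit 4) (.nd (nat_lit 5) 
(.lf (nat_lit 125577) (.g (nat_lit 5258) (.e (nat_lit 7270) (nat_lit 385) (.e (nat_lit 122910) (nat_lit 12) (.e (nat_lit 336027) (nat_lit 3) (.e (nat_lit 98373) (nat_lit 29) (.e (nat_lit 450587) (nat_lit 10) (.e (nat_lit 573473) (nat_lit 12) (.e (nat_lit 57354) (nat_lit 0) .nil))))))) (.g (nat_lit 6) .nil .nil))) 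
(.lf (nat_lit 125609) (.g (nat_lit 5722) (.e (nat_lit 7270) (nat_lit 385) (.e (nat_lit 122913) (nat_lit 13) (.e (nat_lit 344117) (nat_lit 21) (.e (nat_lit 516165) (nat_lit 12) (.e (nat_lit 450588) (nat_lit 10) (.e (nat_lit 573473) (nat_lit 12) (.e (nat_lit 57354) (nat_lit 0) .nil))))))) (.g (nat_lit 6) .nil .nil)))) (.nd (nat_lit 5) 
(.lf (nat_lit 125593) (.g (nat_lit 3466) (.e (nat_lit 7270) (nat_lit 385) (.e (nat_lit 122913) (nat_lit 13) (.e (nat_lit 344117) (nat_lit 21) (.e (nat_lit 516151) (nat_lit 9) (.e (nat_lit 426286) (nat_lit 10) (.e (nat_lit 434245) (nat_lit 28) (.e (nat_lit 573473) (nat_lit 12) (.e (nat_lit 57357) (nat_lit 0) .nil)))))))) (.g (nat_lit 6) .nil .nil))) 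
(.lf (nat_lit 125625) (.g (nat_lit 3458) (.e (nat_lit 7270) (nat_lit 385) (.e (nat_lit 122915) (nat_lit 14) (.e (nat_lit 352277) (nat_lit 11) (.e (nat_lit 426343) (nat_lit 14) (.e (nat_lit 491558) (nat_lit 10) (.e (nat_lit 344100) (nat_lit 18) .nil)))))) (.g (nat_lit 5) .nil .nil)))))) (.nd (nat_lit 3) (.nd (nat_lit 4) (.nd (nat_lit 5) 
(.lf (nat_lit 125573) (.g (nat_lit 2868) (.e (nat_lit 7270) (nat_lit 385) (.e (nat_lit 122907) (nat_lit 12) (.e (nat_lit 336060) (nat_lit 7) (.e (nat_lit 319533) (nat_lit 16) (.e (nat_lit 286753) (nat_lit 10) (.e (nat_lit 344160) (nat_lit 37) (.e (nat_lit 647201) (nat_lit 12) (.e (nat_lit 57357) (nat_lit 0) .nil)))))))) (.g (nat_lit 6) .nil .nil))) 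
(.lf (nat_lit 125605) (.g (nat_lit 3760) (.e (nat_lit 7270) (nat_lit 385) (.e (nat_lit 122913) (nat_lit 13) (.e (nat_lit 344117) (nat_lit 21) (.e (nat_lit 516165) (nat_lit 12) (.e (nat_lit 450586) (nat_lit 10) (.e (nat_lit 573475) (nat_lit 12) (.e (nat_lit 57356) (nat_lit 0) .nil))))))) (.g (nat_lit 7) .nil .nil)))) (.nd (nat_lit 5) 
(.lf (nat_lit 125589) (.g (nat_lit 3946) (.e (nat_lit 7270) (nat_lit 385) (.e (nat_lit 122912) (nat_lit 13) (.e (nat_lit 344117) (nat_lit 21) (.e (nat_lit 516151) (nat_lit 9) (.e (nat_lit 426286) (nat_lit 10) (.e (nat_lit 434245) (nat_lit 28) (.e (nat_lit 573474) (nat_lit 12) (.e (nat_lit 57356) (nat_lit 0) .nil)))))))) (.g (nat_lit 7) .nil .nil))) 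
(.lf (nat_lit 125621) (.g (nat_lit 1456) (.e (nat_lit 7270) (nat_lit 385) (.e (nat_lit 122915) (nat_lit 14) (.e (nat_lit 352272) (nat_lit 10) (.e (nat_lit 417796) (nat_lit 0) (.e (nat_lit 5412) (nat_lit 303) (.e (nat_lit 73732) (nat_lit 0) .nil)))))) (.g (nat_lit 4) .nil .nil))))) (.nd (nat_lit 4) (.nd (nat_lit 5) 
(.lf (nat_lit 125581) (.g (nat_lit 4181) (.e (nat_lit 7270) (nat_lit 385) (.e (nat_lit 122911) (nat_lit 13) (.e (nat_lit 344117) (nat_lit 21) (.e (nat_lit 516151) (nat_lit 9) (.e (nat_lit 426286) (nat_lit 10) (.e (nat_lit 434248) (nat_lit 28) (.e (nat_lit 573475) (nat_lit 12) (.e (nat_lit 57344) (nat_lit 0) .nil)))))))) (.g (nat_lit 7) .nil .nil))) 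
(.lf (nat_lit 125613) (.g (nat_lit 3590) (.e (nat_lit 7270) (nat_lit 385) (.e (nat_lit 122913) (nat_lit 13) (.e (nat_lit 344117) (nat_lit 21) (.e (nat_lit 516166) (nat_lit 12) (.e (nat_lit 450588) (nat_lit 10) (.e (nat_lit 573473) (nat_lit 12) (.e (nat_lit 57357) (nat_lit 0) .nil))))))) (.g (nat_lit 6) .nil .nil)))) (.nd (nat_lit 5) 
(.lf (nat_lit 125597) (.g (nat_lit 1951) (.e (nat_lit 7270) (nat_lit 385) (.e (nat_lit 122913) (nat_lit 13) (.e (nat_lit 344117) (nat_lit 21) (.e (nat_lit 516151) (nat_lit 9) (.e (nat_lit 426286) (nat_lit 10) (.e (nat_lit 434247) (nat_lit 28) (.e (nat_lit 573477) (nat_lit 12) (.e (nat_lit 57358) (nat_lit 0) .nil)))))))) (.g (nat_lit 4) .nil .nil))) 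
(.lf (nat_lit 125629) (.g (nat_lit 1758) (.e (nat_lit 7270) (nat_lit 385) (.e (nat_lit 122916) (nat_lit 14) (.e (nat_lit 352277) (nat_lit 11) (.e (nat_lit 426010) (nat_lit 0) (.e (nat_lit 7591) (nat_lit 407) (.e (nat_lit 73732) (nat_lit 0) .nil)))))) (.g (nat_lit 4) .nil .nil))))))) (.nd (nat_lit 2) (.nd (nat_lit 3) (.nd (nat_lit 4) (.nd (nat_lit 5) 
(.lf (nat_lit 125571) (.g (nat_lit 3693) (.e (nat_lit 7270) (nat_lit 385) (.e (nat_lit 122907) (nat_lit 12) (.e (nat_lit 336013) (nat_lit 2) (.e (nat_lit 90170) (nat_lit 13) (.e (nat_lit 172113) (nat_lit 10) (.e (nat_lit 434248) (nat_lit 28) (.e (nat_lit 573473) (nat_lit 12) (.e (nat_lit 57354) (nat_lit 0) .nil)))))))) (.g (nat_lit 4) .nil .nil))) 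
(.lf (nat_lit 125603) (.g (nat_lit 3419) (.e (nat_lit 7270) (nat_lit 385) (.e (nat_lit 122913) (nat_lit 13) (.e (nat_lit 344117) (nat_lit 21) (.e (nat_lit 516165) (nat_lit 12) (.e (nat_lit 450586) (nat_lit 10) (.e (nat_lit 573473) (nat_lit 12) (.e (nat_lit 57357) (nat_lit 0) .nil))))))) (.g (nat_lit 6) .nil .nil)))) (.nd (nat_lit 5) 
(.lf (nat_lit 125587) (.g (nat_lit 3409) (.e (nat_lit 7270) (nat_lit 385) (.e (nat_lit 122911) (nat_lit 13) (.e (nat_lit 344117) (nat_lit 21) (.e (nat_lit 516166) (nat_lit 12) (.e (nat_lit 450588) (nat_lit 10) (.e (nat_lit 573473) (nat_lit 12) (.e (nat_lit 57357) (nat_lit 0) .nil))))))) (.g (nat_lit 6) .nil .nil))) 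
(.lf (nat_lit 125619) (.g (nat_lit 1575) (.e (nat_lit 7270) (nat_lit 385) (.e (nat_lit 122914) (nat_lit 14) (.e (nat_lit 352277) (nat_lit 11) (.e (nat_lit 426010) (nat_lit 0) (.e (nat_lit 7591) (nat_lit 407) (.e (nat_lit 73732) (nat_lit 0) .nil)))))) (.g (nat_lit 4) .nil .nil))))) (.nd (nat_lit 4) (.nd (nat_lit 5) 
(.lf (nat_lit 125579) (.g (nat_lit 3043) (.e (nat_lit 7270) (nat_lit 385) (.e (nat_lit 122911) (nat_lit 13) (.e (nat_lit 344117) (nat_lit 21) (.e (nat_lit 516151) (nat_lit 9) (.e (nat_lit 426286) (nat_lit 10) (.e (nat_lit 434247) (nat_lit 28) (.e (nat_lit 573478) (nat_lit 12) (.e (nat_lit 57344) (nat_lit 0) .nil)))))))) (.g (nat_lit 6) .nil .nil))) 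
(.lf (nat_lit 125611) (.g (nat_lit 3816) (.e (nat_lit 7270) (nat_lit 385) (.e (nat_lit 122913) (nat_lit 13) (.e (nat_lit 344117) (nat_lit 21) (.e (nat_lit 516166) (nat_lit 12) (.e (nat_lit 450587) (nat_lit 10) (.e (nat_lit 573477) (nat_lit 12) (.e (nat_lit 57357) (nat_lit 0) .nil))))))) (.g (nat_lit 7) .nil .nil)))) (.nd (nat_lit 5) 
(.lf (nat_lit 125595) (.g (nat_lit 1893) (.e (nat_lit 7270) (nat_lit 385) (.e (nat_lit 122913) (nat_lit 13) (.e (nat_lit 344117) (nat_lit 21) (.e (nat_lit 516151) (nat_lit 9) (.e (nat_lit 426286) (nat_lit 10) (.e (nat_lit 434247) (nat_lit 28) (.e (nat_lit 573477) (nat_lit 12) (.e (nat_lit 57344) (nat_lit 0) .nil)))))))) (.g (nat_lit 4) .nil .nil))) 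
(.lf (nat_lit 125627) (.g (nat_lit 1884) (.e (nat_lit 7270) (nat_lit 385) (.e (nat_lit 122916) (nat_lit 14) (.e (nat_lit 352273) (nat_lit 11) (.e (nat_lit 426342) (nat_lit 14) (.e (nat_lit 491558) (nat_lit 10) (.e (nat_lit 344100) (nat_lit 18) .nil)))))) (.g (nat_lit 4) .nil .nil)))))) (.nd (nat_lit 3) (.nd (nat_lit 4) (.nd (nat_lit 5) 
(.lf (nat_lit 125575) (.g (nat_lit 3599) (.e (nat_lit 7270) (nat_lit 385) (.e (nat_lit 122910) (nat_lit 12) (.e (nat_lit 336011) (nat_lit 2) (.e (nat_lit 90170) (nat_lit 13) (.e (nat_lit 172113) (nat_lit 10) (.e (nat_lit 434248) (nat_lit 28) (.e (nat_lit 573475) (nat_lit 12) (.e (nat_lit 57354) (nat_lit 0) .nil)))))))) (.g (nat_lit 4) .nil .nil))) 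
(.lf (nat_lit 125607) (.g (nat_lit 2631) (.e (nat_lit 7270) (nat_lit 385) (.e (nat_lit 122913) (nat_lit 13) (.e (nat_lit 344117) (nat_lit 21) (.e (nat_lit 516165) (nat_lit 12) (.e (nat_lit 450586) (nat_lit 10) (.e (nat_lit 573478) (nat_lit 12) (.e (nat_lit 57344) (nat_lit 0) .nil))))))) (.g (nat_lit 5) .nil .nil)))) (.nd (nat_lit 5) 
(.lf (nat_lit 125591) (.g (nat_lit 3105) (.e (nat_lit 7270) (nat_lit 385) (.e (nat_lit 122912) (nat_lit 13) (.e (nat_lit 344117) (nat_lit 21) (.e (nat_lit 516151) (nat_lit 9) (.e (nat_lit 426286) (nat_lit 10) (.e (nat_lit 434247) (nat_lit 28) (.e (nat_lit 573478) (nat_lit 12) (.e (nat_lit 57356) (nat_lit 0) .nil)))))))) (.g (nat_lit 6) .nil .nil))) 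
(.lf (nat_lit 125623) (.g (nat_lit 2584) (.e (nat_lit 7270) (nat_lit 385) (.e (nat_lit 122915) (nat_lit 14) (.e (nat_lit 352277) (nat_lit 11) (.e (nat_lit 426012) (nat_lit 0) (.e (nat_lit 7591) (nat_lit 407) (.e (nat_lit 73733) (nat_lit 0) .nil)))))) (.g (nat_lit 5) .nil .nil))))) (.nd (nat_lit 4) (.nd (nat_lit 5) 
(.lf (nat_lit 125583) (.g (nat_lit 3185) (.e (nat_lit 7270) (nat_lit 385) (.e (nat_lit 122911) (nat_lit 13) (.e (nat_lit 344117) (nat_lit 21) (.e (nat_lit 516165) (nat_lit 12) (.e (nat_lit 450586) (nat_lit 10) (.e (nat_lit 573475) (nat_lit 12) (.e (nat_lit 57344) (nat_lit 0) .nil))))))) (.g (nat_lit 6) .nil .nil))) 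
(.lf (nat_lit 125615) (.g (nat_lit 215) (.e (nat_lit 7270) (nat_lit 385) (.e (nat_lit 122913) (nat_lit 13) (.e (nat_lit 344129) (nat_lit 26) .nil))) .nil))) (.nd (nat_lit 5) 
(.lf (nat_lit 125599) (.g (nat_lit 1864) (.e (nat_lit 7270) (nat_lit 385) (.e (nat_lit 122913) (nat_lit 13) (.e (nat_lit 344117) (nat_lit 21) (.e (nat_lit 516151) (nat_lit 9) (.e (nat_lit 426286) (nat_lit 10) (.e (nat_lit 434247) (nat_lit 28) (.e (nat_lit 573478) (nat_lit 12) (.e (nat_lit 57358) (nat_lit 0) .nil)))))))) (.g (nat_lit 4) .nil .nil))) 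
(.lf (nat_lit 125631) (.g (nat_lit 2855) (.e (nat_lit 7270) (nat_lit 385) (.e (nat_lit 122916) (nat_lit 14) (.e (nat_lit 352277) (nat_lit 11) (.e (nat_lit 426011) (nat_lit 0) (.e (nat_lit 7591) (nat_lit 407) (.e (nat_lit 73732) (nat_lit 0) .nil)))))) (.g (nat_lit 5) .nil .nil)))))))))

noncomputable def tv1686 : DT := (.nd (nat_lit 0) (.nd (nat_lit 1) (.nd (nat_lit 2) (.nd (nat_lit 3) (.nd (nat_lit 4) (.nd (nat_lit 5) 
(.lf (nat_lit 125632) (.g (nat_lit 1894) (.e (nat_lit 7270) (nat_lit 385) (.e (nat_lit 122916) (nat_lit 14) (.e (nat_lit 352277) (nat_lit 11) (.e (nat_lit 426012) (nat_lit 0) (.e (nat_lit 7591) (nat_lit 407) (.e (nat_lit 73732) (nat_lit 0) .nil)))))) (.g (nat_lit 4) .nil .nil))) 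
(.lf (nat_lit 125664) (.g (nat_lit 2553) (.e (nat_lit 7270) (nat_lit 385) (.e (nat_lit 122916) (nat_lit 14) (.e (nat_lit 352324) (nat_lit 26) (.e (nat_lit 147496) (nat_lit 11) (.e (nat_lit 24639) (nat_lit 10) (.e (nat_lit 344100) (nat_lit 18) .nil)))))) (.g (nat_lit 4) .nil .nil)))) (.nd (nat_lit 5) 
(.lf (nat_lit 125648) (.g (nat_lit 1579) (.e (nat_lit 7270) (nat_lit 385) (.e (nat_lit 122916) (nat_lit 14) (.e (nat_lit 352309) (nat_lit 21) (.e (nat_lit 57668) (nat_lit 152) .nil)))) .nil)) 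
(.lf (nat_lit 125680) (.g (nat_lit 3334) (.e (nat_lit 7270) (nat_lit 385) (.e (nat_lit 122917) (nat_lit 15) (.e (nat_lit 360453) (nat_lit 0) (.e (nat_lit 7272) (nat_lit 385) (.e (nat_lit 122917) (nat_lit 15) (.e (nat_lit 360453) (nat_lit 0) .nil)))))) (.g (nat_lit 5) .nil .nil))))) (.nd (nat_lit 4) (.nd (nat_lit 5) 
(.lf (nat_lit 125640) (.g (nat_lit 2889) (.e (nat_lit 7270) (nat_lit 385) (.e (nat_lit 122916) (nat_lit 14) (.e (nat_lit 352307) (nat_lit 21) (.e (nat_lit 57683) (nat_lit 155) (.e (nat_lit 122919) (nat_lit 15) (.e (nat_lit 360453) (nat_lit 0) .nil)))))) (.g (nat_lit 4) .nil .nil))) 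
(.lf (nat_lit 125672) (.g (nat_lit 3820) (.e (nat_lit 7270) (nat_lit 385) (.e (nat_lit 122917) (nat_lit 15) (.e (nat_lit 360452) (nat_lit 0) (.e (nat_lit 7270) (nat_lit 385) (.e (nat_lit 122919) (nat_lit 15) (.e (nat_lit 360448) (nat_lit 0) .nil)))))) (.g (nat_lit 5) .nil .nil)))) (.nd (nat_lit 5) 
(.lf (nat_lit 125656) (.g (nat_lit 3234) (.e (nat_lit 7270) (nat_lit 385) (.e (nat_lit 122916) (nat_lit 14) (.e (nat_lit 352309) (nat_lit 21) (.e (nat_lit 57681) (nat_lit 155) (.e (nat_lit 122919) (nat_lit 15) (.e (nat_lit 360454) (nat_lit 0) .nil)))))) (.g (nat_lit 5) .nil .nil))) 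
(.lf (nat_lit 125688) (.g (nat_lit 2776) (.e (nat_lit 7270) (nat_lit 385) (.e (nat_lit 122917) (nat_lit 15) (.e (nat_lit 360491) (nat_lit 22) (.e (nat_lit 778465) (nat_lit 11) (.e (nat_lit 24640) (nat_lit 10) (.e (nat_lit 344101) (nat_lit 18) .nil)))))) (.g (nat_lit 5) .nil .nil)))))) (.nd (nat_lit 3) (.nd (nat_lit 4) (.nd (nat_lit 5) 
(.lf (nat_lit 125636) (.g (nat_lit 701) (.e (nat_lit 7270) (nat_lit 385) (.e (nat_lit 122916) (nat_lit 14) (.e (nat_lit 352283) (nat_lit 20) (.e (nat_lit 2375) (nat_lit 154) .nil)))) .nil)) 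
(.lf (nat_lit 125668) (.g (nat_lit 3640) (.e (nat_lit 7270) (nat_lit 385) (.e (nat_lit 122917) (nat_lit 15) (.e (nat_lit 360449) (nat_lit 0) (.e (nat_lit 7261) (nat_lit 384) (.e (nat_lit 57426) (nat_lit 15) (.e (nat_lit 360452) (nat_lit 0) .nil)))))) (.g (nat_lit 0) .nil .nil)))) (.nd (nat_lit 5) 
(.lf (nat_lit 125652) (.g (nat_lit 2562) (.e (nat_lit 7270) (nat_lit 385) (.e (nat_lit 122916) (nat_lit 14) (.e (nat_lit 352309) (nat_lit 21) (.e (nat_lit 57680) (nat_lit 155) (.e (nat_lit 122919) (nat_lit 15) (.e (nat_lit 360448) (nat_lit 0) .nil)))))) (.g (nat_lit 4) .nil .nil))) 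
(.lf (nat_lit 125684) (.g (nat_lit 3502) (.e (nat_lit 7270) (nat_lit 385) (.e (nat_lit 122917) (nat_lit 15) (.e (nat_lit 360489) (nat_lit 21) (.e (nat_lit 770055) (nat_lit 5) (.e (nat_lit 1598) (nat_lit 111) (.e (nat_lit 360452) (nat_lit 0) .nil)))))) (.g (nat_lit 0) .nil .nil))))) (.nd (nat_lit 4) (.nd (nat_lit 5) 
(.lf (nat_lit 125644) (.g (nat_lit 1561) (.e (nat_lit 7270) (nat_lit 385) (.e (nat_lit 122916) (nat_lit 14) (.e (nat_lit 352309) (nat_lit 21) (.e (nat_lit 57666) (nat_lit 152) .nil)))) .nil)) 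
(.lf (nat_lit 125676) (.g (nat_lit 4052) (.e (nat_lit 7270) (nat_lit 385) (.e (nat_lit 122917) (nat_lit 15) (.e (nat_lit 360453) (nat_lit 0) (.e (nat_lit 7270) (nat_lit 385) (.e (nat_lit 122917) (nat_lit 15) (.e (nat_lit 360453) (nat_lit 0) .nil)))))) (.g (nat_lit 5) .nil .nil)))) (.nd (nat_lit 5) 
(.lf (nat_lit 125660) (.g (nat_lit 3654) (.e (nat_lit 7270) (nat_lit 385) (.e (nat_lit 122916) (nat_lit 14) (.e (nat_lit 352309) (nat_lit 21) (.e (nat_lit 57684) (nat_lit 155) (.e (nat_lit 122919) (nat_lit 15) (.e (nat_lit 360452) (nat_lit 0) .nil)))))) (.g (nat_lit 6) .nil .nil))) 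
(.lf (nat_lit 125692) (.g (nat_lit 3261) (.e (nat_lit 7270) (nat_lit 385) (.e (nat_lit 122917) (nat_lit 15) (.e (nat_lit 360491) (nat_lit 22) (.e (nat_lit 778466) (nat_lit 11) (.e (nat_lit 24640) (nat_lit 10) (.e (nat_lit 344101) (nat_lit 18) .nil)))))) (.g (nat_lit 5) .nil .nil))))))) (.nd (nat_lit 2) (.nd (nat_lit 3) (.nd (nat_lit 4) (.nd (nat_lit 5) 
(.lf (nat_lit 125634) (.g (nat_lit 3140) (.e (nat_lit 7270) (nat_lit 385) (.e (nat_lit 122916) (nat_lit 14) (.e (nat_lit 352277) (nat_lit 11) (.e (nat_lit 426343) (nat_lit 14) (.e (nat_lit 491560) (nat_lit 10) (.e (nat_lit 344099) (nat_lit 18) .nil)))))) (.g (nat_lit 5) .nil .nil))) 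
(.lf (nat_lit 125666) (.g (nat_lit 2613) (.e (nat_lit 7270) (nat_lit 385) (.e (nat_lit 122916) (nat_lit 14) (.e (nat_lit 352324) (nat_lit 26) (.e (nat_lit 147496) (nat_lit 11) (.e (nat_lit 24641) (nat_lit 10) (.e (nat_lit 344100) (nat_lit 18) .nil)))))) (.g (nat_lit 4) .nil .nil)))) (.nd (nat_lit 5) 
(.lf (nat_lit 125650) (.g (nat_lit 1881) (.e (nat_lit 7270) (nat_lit 385) (.e (nat_lit 122916) (nat_lit 14) (.e (nat_lit 352309) (nat_lit 21) (.e (nat_lit 57679) (nat_lit 153) (.e (nat_lit 8202) (nat_lit 0) .nil))))) .nil)) 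
(.lf (nat_lit 125682) (.g (nat_lit 929) (.e (nat_lit 7270) (nat_lit 385) (.e (nat_lit 122917) (nat_lit 15) (.e (nat_lit 360454) (nat_lit 0) (.e (nat_lit 7273) (nat_lit 385) .nil)))) .nil)))) (.nd (nat_lit 4) (.nd (nat_lit 5) 
(.lf (nat_lit 125642) (.g (nat_lit 3446) (.e (nat_lit 7270) (nat_lit 385) (.e (nat_lit 122916) (nat_lit 14) (.e (nat_lit 352308) (nat_lit 21) (.e (nat_lit 57681) (nat_lit 155) (.e (nat_lit 122919) (nat_lit 15) (.e (nat_lit 360453) (nat_lit 0) .nil)))))) (.g (nat_lit 5) .nil .nil))) 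
(.lf (nat_lit 125674) (.g (nat_lit 2353) (.e (nat_lit 7270) (nat_lit 385) (.e (nat_lit 122917) (nat_lit 15) (.e (nat_lit 360452) (nat_lit 0) (.e (nat_lit 7272) (nat_lit 385) (.e (nat_lit 122919) (nat_lit 15) (.e (nat_lit 360448) (nat_lit 0) .nil)))))) (.g (nat_lit 4) .nil .nil)))) (.nd (nat_lit 5) 
(.lf (nat_lit 125658) (.g (nat_lit 3457) (.e (nat_lit 7270) (nat_lit 385) (.e (nat_lit 122916) (nat_lit 14) (.e (nat_lit 352309) (nat_lit 21) (.e (nat_lit 57683) (nat_lit 155) (.e (nat_lit 122917) (nat_lit 15) (.e (nat_lit 360453) (nat_lit 0) .nil)))))) (.g (nat_lit 5) .nil .nil))) 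
(.lf (nat_lit 125690) (.g (nat_lit 2427) (.e (nat_lit 7270) (nat_lit 385) (.e (nat_lit 122917) (nat_lit 15) (.e (nat_lit 360491) (nat_lit 22) (.e (nat_lit 778466) (nat_lit 11) (.e (nat_lit 24640) (nat_lit 10) (.e (nat_lit 344087) (nat_lit 18) .nil)))))) (.g (nat_lit 4) .nil .nil)))))) (.nd (nat_lit 3) (.nd (nat_lit 4) (.nd (nat_lit 5) 
(.lf (nat_lit 125638) (.g (nat_lit 3619) (.e (nat_lit 7270) (nat_lit 385) (.e (nat_lit 122916) (nat_lit 14) (.e (nat_lit 352307) (nat_lit 21) (.e (nat_lit 57681) (nat_lit 155) (.e (nat_lit 122919) (nat_lit 15) (.e (nat_lit 360453) (nat_lit 0) .nil)))))) (.g (nat_lit 5) .nil .nil))) 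
(.lf (nat_lit 125670) (.g (nat_lit 4115) (.e (nat_lit 7270) (nat_lit 385) (.e (nat_lit 122917) (nat_lit 15) (.e (nat_lit 360449) (nat_lit 0) (.e (nat_lit 7266) (nat_lit 384) (.e (nat_lit 57426) (nat_lit 15) (.e (nat_lit 360452) (nat_lit 0) .nil)))))) (.g (nat_lit 0) .nil .nil)))) (.nd (nat_lit 5) 
(.lf (nat_lit 125654) (.g (nat_lit 4166) (.e (nat_lit 7270) (nat_lit 385) (.e (nat_lit 122916) (nat_lit 14) (.e (nat_lit 352309) (nat_lit 21) (.e (nat_lit 57681) (nat_lit 155) (.e (nat_lit 122917) (nat_lit 15) (.e (nat_lit 360453) (nat_lit 0) .nil)))))) (.g (nat_lit 6) .nil .nil))) 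
(.lf (nat_lit 125686) (.g (nat_lit 4714) (.e (nat_lit 7270) (nat_lit 385) (.e (nat_lit 122917) (nat_lit 15) (.e (nat_lit 360489) (nat_lit 21) (.e (nat_lit 770072) (nat_lit 8) (.e (nat_lit 65610) (nat_lit 10) (.e (nat_lit 344097) (nat_lit 18) .nil)))))) (.g (nat_lit 0) .nil .nil))))) (.nd (nat_lit 4) (.nd (nat_lit 5) 
(.lf (nat_lit 125646) (.g (nat_lit 2168) (.e (nat_lit 7270) (nat_lit 385) (.e (nat_lit 122916) (nat_lit 14) (.e (nat_lit 352309) (nat_lit 21) (.e (nat_lit 57666) (nat_lit 152) (.e (nat_lit 1079) (nat_lit 81) .nil))))) .nil)) 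
(.lf (nat_lit 125678) (.g (nat_lit 4380) (.e (nat_lit 7270) (nat_lit 385) (.e (nat_lit 122917) (nat_lit 15) (.e (nat_lit 360453) (nat_lit 0) (.e (nat_lit 7270) (nat_lit 385) (.e (nat_lit 122919) (nat_lit 15) (.e (nat_lit 360453) (nat_lit 0) .nil)))))) (.g (nat_lit 6) .nil .nil)))) (.nd (nat_lit 5) 
(.lf (nat_lit 125662) (.g (nat_lit 2738) (.e (nat_lit 7270) (nat_lit 385) (.e (nat_lit 122916) (nat_lit 14) (.e (nat_lit 352322) (nat_lit 26) (.e (nat_lit 147495) (nat_lit 11) (.e (nat_lit 24639) (nat_lit 10) (.e (nat_lit 344100) (nat_lit 18) .nil)))))) (.g (nat_lit 5) .nil .nil))) 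
(.lf (nat_lit 125694) (.g (nat_lit 2641) (.e (nat_lit 7270) (nat_lit 385) (.e (nat_lit 122917) (nat_lit 15) (.e (nat_lit 360492) (nat_lit 22) (.e (nat_lit 778465) (nat_lit 11) (.e (nat_lit 24640) (nat_lit 10) (.e (nat_lit 344101) (nat_lit 18) .nil)))))) (.g (nat_lit 5) .nil .nil)))))))) (.nd (nat_lit 1) (.nd (nat_lit 2) (.nd (nat_lit 3) (.nd (nat_lit 4) (.nd (nat_lit 5) 
(.lf (nat_lit 125633) (.g (nat_lit 2241) (.e (nat_lit 7270) (nat_lit 385) (.e (nat_lit 122916) (nat_lit 14) (.e (nat_lit 352277) (nat_lit 11) (.e (nat_lit 426342) (nat_lit 14) (.e (nat_lit 491560) (nat_lit 10) (.e (nat_lit 344099) (nat_lit 18) .nil)))))) (.g (nat_lit 5) .nil .nil))) 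
(.lf (nat_lit 125665) (.g (nat_lit 2443) (.e (nat_lit 7270) (nat_lit 385) (.e (nat_lit 122916) (nat_lit 14) (.e (nat_lit 352324) (nat_lit 26) (.e (nat_lit 147496) (nat_lit 11) (.e (nat_lit 24640) (nat_lit 10) (.e (nat_lit 344101) (nat_lit 18) .nil)))))) (.g (nat_lit 4) .nil .nil)))) (.nd (nat_lit 5) 
(.lf (nat_lit 125649) (.g (nat_lit 1552) (.e (nat_lit 7270) (nat_lit 385) (.e (nat_lit 122916) (nat_lit 14) (.e (nat_lit 352309) (nat_lit 21) (.e (nat_lit 57679) (nat_lit 153) .nil)))) .nil)) 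
(.lf (nat_lit 125681) (.g (nat_lit 3164) (.e (nat_lit 7270) (nat_lit 385) (.e (nat_lit 122917) (nat_lit 15) (.e (nat_lit 360453) (nat_lit 0) (.e (nat_lit 7273) (nat_lit 385) (.e (nat_lit 122919) (nat_lit 15) (.e (nat_lit 360453) (nat_lit 0) .nil)))))) (.g (nat_lit 6) .nil .nil))))) (.nd (nat_lit 4) (.nd (nat_lit 5) 
(.lf (nat_lit 125641) (.g (nat_lit 2314) (.e (nat_lit 7270) (nat_lit 385) (.e (nat_lit 122916) (nat_lit 14) (.e (nat_lit 352307) (nat_lit 21) (.e (nat_lit 57684) (nat_lit 155) (.e (nat_lit 122919) (nat_lit 15) (.e (nat_lit 360453) (nat_lit 0) .nil)))))) (.g (nat_lit 4) .nil .nil))) 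
(.lf (nat_lit 125673) (.g (nat_lit 3568) (.e (nat_lit 7270) (nat_lit 385) (.e (nat_lit 122917) (nat_lit 15) (.e (nat_lit 360452) (nat_lit 0) (.e (nat_lit 7272) (nat_lit 385) (.e (nat_lit 122917) (nat_lit 15) (.e (nat_lit 360453) (nat_lit 0) .nil)))))) (.g (nat_lit 6) .nil .nil)))) (.nd (nat_lit 5) 
(.lf (nat_lit 125657) (.g (nat_lit 1052) (.e (nat_lit 7270) (nat_lit 385) (.e (nat_lit 122916) (nat_lit 14) (.e (nat_lit 352309) (nat_lit 21) (.e (nat_lit 57683) (nat_lit 155) .nil)))) .nil)) 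
(.lf (nat_lit 125689) (.g (nat_lit 2249) (.e (nat_lit 7270) (nat_lit 385) (.e (nat_lit 122917) (nat_lit 15) (.e (nat_lit 360491) (nat_lit 22) (.e (nat_lit 778465) (nat_lit 11) (.e (nat_lit 24641) (nat_lit 10) (.e (nat_lit 344100) (nat_lit 18) .nil)))))) (.g (nat_lit 4) .nil .nil)))))) (.nd (nat_lit 3) (.nd (nat_lit 4) (.nd (nat_lit 5) 
(.lf (nat_lit 125637) (.g (nat_lit 2819) (.e (nat_lit 7270) (nat_lit 385) (.e (nat_lit 122916) (nat_lit 14) (.e (nat_lit 352307) (nat_lit 21) (.e (nat_lit 57681) (nat_lit 155) (.e (nat_lit 122917) (nat_lit 15) (.e (nat_lit 360452) (nat_lit 0) .nil)))))) (.g (nat_lit 4) .nil .nil))) 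
(.lf (nat_lit 125669) (.g (nat_lit 4373) (.e (nat_lit 7270) (nat_lit 385) (.e (nat_lit 122917) (nat_lit 15) (.e (nat_lit 360449) (nat_lit 0) (.e (nat_lit 7265) (nat_lit 384) (.e (nat_lit 57426) (nat_lit 15) (.e (nat_lit 360452) (nat_lit 0) .nil)))))) (.g (nat_lit 0) .nil .nil)))) (.nd (nat_lit 5) 
(.lf (nat_lit 125653) (.g (nat_lit 2351) (.e (nat_lit 7270) (nat_lit 385) (.e (nat_lit 122916) (nat_lit 14) (.e (nat_lit 352309) (nat_lit 21) (.e (nat_lit 57680) (nat_lit 155) (.e (nat_lit 122919) (nat_lit 15) (.e (nat_lit 360454) (nat_lit 0) .nil)))))) (.g (nat_lit 4) .nil .nil))) 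
(.lf (nat_lit 125685) (.g (nat_lit 4445) (.e (nat_lit 7270) (nat_lit 385) (.e (nat_lit 122917) (nat_lit 15) (.e (nat_lit 360489) (nat_lit 21) (.e (nat_lit 770071) (nat_lit 8) (.e (nat_lit 65610) (nat_lit 10) (.e (nat_lit 344097) (nat_lit 18) .nil)))))) (.g (nat_lit 0) .nil .nil))))) (.nd (nat_lit 4) (.nd (nat_lit 5) 
(.lf (nat_lit 125645) (.g (nat_lit 2185) (.e (nat_lit 7270) (nat_lit 385) (.e (nat_lit 122916) (nat_lit 14) (.e (nat_lit 352309) (nat_lit 21) (.e (nat_lit 57666) (nat_lit 152) (.e (nat_lit 1077) (nat_lit 81) .nil))))) .nil)) 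
(.lf (nat_lit 125677) (.g (nat_lit 3303) (.e (nat_lit 7270) (nat_lit 385) (.e (nat_lit 122917) (nat_lit 15) (.e (nat_lit 360453) (nat_lit 0) (.e (nat_lit 7270) (nat_lit 385) (.e (nat_lit 122919) (nat_lit 15) (.e (nat_lit 360448) (nat_lit 0) .nil)))))) (.g (nat_lit 5) .nil .nil)))) (.nd (nat_lit 5) 
(.lf (nat_lit 125661) (.g (nat_lit 3488) (.e (nat_lit 7270) (nat_lit 385) (.e (nat_lit 122916) (nat_lit 14) (.e (nat_lit 352309) (nat_lit 21) (.e (nat_lit 57684) (nat_lit 155) (.e (nat_lit 122919) (nat_lit 15) (.e (nat_lit 360453) (nat_lit 0) .nil)))))) (.g (nat_lit 5) .nil .nil))) 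
(.lf (nat_lit 125693) (.g (nat_lit 3187) (.e (nat_lit 7270) (nat_lit 385) (.e (nat_lit 122917) (nat_lit 15) (.e (nat_lit 360491) (nat_lit 22) (.e (nat_lit 778466) (nat_lit 11) (.e (nat_lit 24641) (nat_lit 10) (.e (nat_lit 344100) (nat_lit 18) .nil)))))) (.g (nat_lit 0) .nil .nil))))))) (.nd (nat_lit 2) (.nd (nat_lit 3) (.nd (nat_lit 4) (.nd (nat_lit 5) 
(.lf (nat_lit 125635) (.g (nat_lit 2301) (.e (nat_lit 7270) (nat_lit 385) (.e (nat_lit 122916) (nat_lit 14) (.e (nat_lit 352277) (nat_lit 11) (.e (nat_lit 426344) (nat_lit 14) (.e (nat_lit 491560) (nat_lit 10) (.e (nat_lit 344087) (nat_lit 18) .nil)))))) (.g (nat_lit 4) .nil .nil))) 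
(.lf (nat_lit 125667) (.g (nat_lit 5486) (.e (nat_lit 7270) (nat_lit 385) (.e (nat_lit 122917) (nat_lit 15) (.e (nat_lit 360449) (nat_lit 0) (.e (nat_lit 7125) (nat_lit 382) (.e (nat_lit 1201) (nat_lit 88) (.e (nat_lit 65610) (nat_lit 10) (.e (nat_lit 344097) (nat_lit 18) .nil))))))) (.g (nat_lit 0) .nil .nil)))) (.nd (nat_lit 5) 
(.lf (nat_lit 125651) (.g (nat_lit 3085) (.e (nat_lit 7270) (nat_lit 385) (.e (nat_lit 122916) (nat_lit 14) (.e (nat_lit 352309) (nat_lit 21) (.e (nat_lit 57680) (nat_lit 155) (.e (nat_lit 122917) (nat_lit 15) (.e (nat_lit 360453) (nat_lit 0) .nil)))))) (.g (nat_lit 5) .nil .nil))) 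
(.lf (nat_lit 125683) (.g (nat_lit 3264) (.e (nat_lit 7270) (nat_lit 385) (.e (nat_lit 122917) (nat_lit 15) (.e (nat_lit 368384) (nat_lit 0) (.e (nat_lit 7270) (nat_lit 385) (.e (nat_lit 122919) (nat_lit 15) (.e (nat_lit 360453) (nat_lit 0) .nil)))))) (.g (nat_lit 5) .nil .nil))))) (.nd (nat_lit 4) (.nd (nat_lit 5) 
(.lf (nat_lit 125643) (.g (nat_lit 1579) (.e (nat_lit 7270) (nat_lit 385) (.e (nat_lit 122916) (nat_lit 14) (.e (nat_lit 352309) (nat_lit 21) (.e (nat_lit 57659) (nat_lit 152) .nil)))) .nil)) 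
(.lf (nat_lit 125675) (.g (nat_lit 2962) (.e (nat_lit 7270) (nat_lit 385) (.e (nat_lit 122917) (nat_lit 15) (.e (nat_lit 360452) (nat_lit 0) (.e (nat_lit 7273) (nat_lit 385) (.e (nat_lit 122919) (nat_lit 15) (.e (nat_lit 360453) (nat_lit 0) .nil)))))) (.g (nat_lit 6) .nil .nil)))) (.nd (nat_lit 5) 
(.lf (nat_lit 125659) (.g (nat_lit 3126) (.e (nat_lit 7270) (nat_lit 385) (.e (nat_lit 122916) (nat_lit 14) (.e (nat_lit 352309) (nat_lit 21) (.e (nat_lit 57684) (nat_lit 155) (.e (nat_lit 122917) (nat_lit 15) (.e (nat_lit 360453) (nat_lit 0) .nil)))))) (.g (nat_lit 5) .nil .nil))) 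
(.lf (nat_lit 125691) (.g (nat_lit 4685) (.e (nat_lit 7270) (nat_lit 385) (.e (nat_lit 122917) (nat_lit 15) (.e (nat_lit 360491) (nat_lit 22) (.e (nat_lit 778466) (nat_lit 11) (.e (nat_lit 24640) (nat_lit 10) (.e (nat_lit 344097) (nat_lit 18) .nil)))))) (.g (nat_lit 0) .nil .nil)))))) (.nd (nat_lit 3) (.nd (nat_lit 4) (.nd (nat_lit 5) 
(.lf (nat_lit 125639) (.g (nat_lit 2723) (.e (nat_lit 7270) (nat_lit 385) (.e (nat_lit 122916) (nat_lit 14) (.e (nat_lit 352307) (nat_lit 21) (.e (nat_lit 57683) (nat_lit 155) (.e (nat_lit 122917) (nat_lit 15) (.e (nat_lit 360453) (nat_lit 0) .nil)))))) (.g (nat_lit 4) .nil .nil))) 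
(.lf (nat_lit 125671) (.g (nat_lit 3983) (.e (nat_lit 7270) (nat_lit 385) (.e (nat_lit 122917) (nat_lit 15) (.e (nat_lit 360452) (nat_lit 0) (.e (nat_lit 7270) (nat_lit 385) (.e (nat_lit 122917) (nat_lit 15) (.e (nat_lit 360453) (nat_lit 0) .nil)))))) (.g (nat_lit 6) .nil .nil)))) (.nd (nat_lit 5) 
(.lf (nat_lit 125655) (.g (nat_lit 3678) (.e (nat_lit 7270) (nat_lit 385) (.e (nat_lit 122916) (nat_lit 14) (.e (nat_lit 352309) (nat_lit 21) (.e (nat_lit 57681) (nat_lit 155) (.e (nat_lit 122919) (nat_lit 15) (.e (nat_lit 360448) (nat_lit 0) .nil)))))) (.g (nat_lit 5) .nil .nil))) 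
(.lf (nat_lit 125687) (.g (nat_lit 2020) (.e (nat_lit 7270) (nat_lit 385) (.e (nat_lit 122917) (nat_lit 15) (.e (nat_lit 360491) (nat_lit 22) (.e (nat_lit 778465) (nat_lit 11) (.e (nat_lit 24640) (nat_lit 10) (.e (nat_lit 344099) (nat_lit 18) .nil)))))) (.g (nat_lit 4) .nil .nil))))) (.nd (nat_lit 4) (.nd (nat_lit 5) 
(.lf (nat_lit 125647) (.g (nat_lit 1435) (.e (nat_lit 7270) (nat_lit 385) (.e (nat_lit 122916) (nat_lit 14) (.e (nat_lit 352309) (nat_lit 21) (.e (nat_lit 57667) (nat_lit 152) .nil)))) .nil)) 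
(.lf (nat_lit 125679) (.g (nat_lit 2664) (.e (nat_lit 7270) (nat_lit 385) (.e (nat_lit 122917) (nat_lit 15) (.e (nat_lit 360453) (nat_lit 0) (.e (nat_lit 7270) (nat_lit 385) (.e (nat_lit 122919) (nat_lit 15) (.e (nat_lit 360454) (nat_lit 0) .nil)))))) (.g (nat_lit 4) .nil .nil)))) (.nd (nat_lit 5) 
(.lf (nat_lit 125663) (.g (nat_lit 2856) (.e (nat_lit 7270) (nat_lit 385) (.e (nat_lit 122916) (nat_lit 14) (.e (nat_lit 352324) (nat_lit 26) (.e (nat_lit 147495) (nat_lit 11) (.e (nat_lit 24639) (nat_lit 10) (.e (nat_lit 344100) (nat_lit 18) .nil)))))) (.g (nat_lit 5) .nil .nil))) 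
(.lf (nat_lit 125695) (.g (nat_lit 2356) (.e (nat_lit 7270) (nat_lit 385) (.e (nat_lit 122917) (nat_lit 15) (.e (nat_lit 360492) (nat_lit 22) (.e (nat_lit 778465) (nat_lit 11) (.e (nat_lit 24641) (nat_lit 10) (.e (nat_lit 344100) (nat_lit 18) .nil)))))) (.g (nat_lit 5) .nil .nil)))))))))

noncomputable def tv1687 : DT := (.nd (nat_lit 0) (.nd (nat_lit 1) (.nd (nat_lit 2) (.nd (nat_lit 3) (.nd (nat_lit 4) (.nd (nat_lit 5) 
(.lf (nat_lit 125696) (.g (nat_lit 2860) (.e (nat_lit 7270) (nat_lit 385) (.e (nat_lit 122917) (nat_lit 15) (.e (nat_lit 360492) (nat_lit 22) (.e (nat_lit 778466) (nat_lit 11) (.e (nat_lit 24639) (nat_lit 10) (.e (nat_lit 344100) (nat_lit 18) .nil)))))) (.g (nat_lit 6) .nil .nil))) 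
(.lf (nat_lit 125728) (.g (nat_lit 2542) (.e (nat_lit 7270) (nat_lit 385) (.e (nat_lit 122919) (nat_lit 15) (.e (nat_lit 360451) (nat_lit 0) (.e (nat_lit 7122) (nat_lit 382) (.e (nat_lit 7936) (nat_lit 90) .nil))))) .nil))) (.nd (nat_lit 5) 
(.lf (nat_lit 125712) (.g (nat_lit 1065) (.e (nat_lit 7270) (nat_lit 385) (.e (nat_lit 122919) (nat_lit 15) (.e (nat_lit 360450) (nat_lit 0) (.e (nat_lit 7263) (nat_lit 384) .nil)))) .nil)) 
(.lf (nat_lit 125744) (.g (nat_lit 2342) (.e (nat_lit 7270) (nat_lit 385) (.e (nat_lit 122919) (nat_lit 15) (.e (nat_lit 360451) (nat_lit 0) (.e (nat_lit 7261) (nat_lit 384) (.e (nat_lit 57412) (nat_lit 12) (.e (nat_lit 336176) (nat_lit 10) (.e (nat_lit 344101) (nat_lit 18) .nil))))))) (.g (nat_lit 5) .nil .nil))))) (.nd (nat_lit 4) (.nd (nat_lit 5) 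
(.lf (nat_lit 125704) (.g (nat_lit 1709) (.e (nat_lit 7270) (nat_lit 385) (.e (nat_lit 122919) (nat_lit 15) (.e (nat_lit 360450) (nat_lit 0) (.e (nat_lit 6927) (nat_lit 372) .nil)))) .nil)) 
(.lf (nat_lit 125736) (.g (nat_lit 1898) (.e (nat_lit 7270) (nat_lit 385) (.e (nat_lit 122919) (nat_lit 15) (.e (nat_lit 360451) (nat_lit 0) (.e (nat_lit 7126) (nat_lit 382) .nil)))) .nil))) (.nd (nat_lit 5) 
(.lf (nat_lit 125720) (.g (nat_lit 1645) (.e (nat_lit 7270) (nat_lit 385) (.e (nat_lit 122919) (nat_lit 15) (.e (nat_lit 360451) (nat_lit 0) (.e (nat_lit 7122) (nat_lit 382) .nil)))) .nil)) 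
(.lf (nat_lit 125752) (.g (nat_lit 3060) (.e (nat_lit 7270) (nat_lit 385) (.e (nat_lit 122919) (nat_lit 15) (.e (nat_lit 360451) (nat_lit 0) (.e (nat_lit 7265) (nat_lit 384) (.e (nat_lit 57406) (nat_lit 12) (.e (nat_lit 336162) (nat_lit 10) (.e (nat_lit 344100) (nat_lit 18) .nil))))))) (.g (nat_lit 5) .nil .nil)))))) (.nd (nat_lit 3) (.nd (nat_lit 4) (.nd (nat_lit 5) 
(.lf (nat_lit 125700) (.g (nat_lit 2910) (.e (nat_lit 7270) (nat_lit 385) (.e (nat_lit 122919) (nat_lit 15) (.e (nat_lit 360448) (nat_lit 0) (.e (nat_lit 7270) (nat_lit 385) (.e (nat_lit 122919) (nat_lit 15) (.e (nat_lit 360448) (nat_lit 0) .nil)))))) (.g (nat_lit 4) .nil .nil))) 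
(.lf (nat_lit 125732) (.g (nat_lit 2368) (.e (nat_lit 7270) (nat_lit 385) (.e (nat_lit 122919) (nat_lit 15) (.e (nat_lit 360451) (nat_lit 0) (.e (nat_lit 7125) (nat_lit 382) (.e (nat_lit 1187) (nat_lit 88) .nil))))) .nil))) (.nd (nat_lit 5) 
(.lf (nat_lit 125716) (.g (nat_lit 1720) (.e (nat_lit 7270) (nat_lit 385) (.e (nat_lit 122919) (nat_lit 15) (.e (nat_lit 360451) (nat_lit 0) (.e (nat_lit 6923) (nat_lit 371) .nil)))) .nil)) 
(.lf (nat_lit 125748) (.g (nat_lit 2682) (.e (nat_lit 7270) (nat_lit 385) (.e (nat_lit 122919) (nat_lit 15) (.e (nat_lit 360451) (nat_lit 0) (.e (nat_lit 7261) (nat_lit 384) (.e (nat_lit 57437) (nat_lit 17) (.e (nat_lit 376855) (nat_lit 20) (.e (nat_lit 1041) (nat_lit 81) .nil))))))) (.g (nat_lit 5) .nil .nil))))) (.nd (nat_lit 4) (.nd (nat_lit 5) 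
(.lf (nat_lit 125708) (.g (nat_lit 2228) (.e (nat_lit 7270) (nat_lit 385) (.e (nat_lit 122919) (nat_lit 15) (.e (nat_lit 360450) (nat_lit 0) (.e (nat_lit 7122) (nat_lit 382) (.e (nat_lit 1201) (nat_lit 88) (.e (nat_lit 65617) (nat_lit 10) (.e (nat_lit 344101) (nat_lit 18) .nil))))))) (.g (nat_lit 4) .nil .nil))) 
(.lf (nat_lit 125740) (.g (nat_lit 1902) (.e (nat_lit 7270) (nat_lit 385) (.e (nat_lit 122919) (nat_lit 15) (.e (nat_lit 360451) (nat_lit 0) (.e (nat_lit 7247) (nat_lit 383) .nil)))) .nil))) (.nd (nat_lit 5) 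
(.lf (nat_lit 125724) (.g (nat_lit 2709) (.e (nat_lit 7270) (nat_lit 385) (.e (nat_lit 122919) (nat_lit 15) (.e (nat_lit 360451) (nat_lit 0) (.e (nat_lit 7122) (nat_lit 382) (.e (nat_lit 1187) (nat_lit 88) .nil))))) .nil)) 
(.lf (nat_lit 125756) (.g (nat_lit 2006) (.e (nat_lit 7270) (nat_lit 385) (.e (nat_lit 122919) (nat_lit 15) (.e (nat_lit 360451) (nat_lit 0) (.e (nat_lit 7265) (nat_lit 384) (.e (nat_lit 57412) (nat_lit 12) (.e (nat_lit 336176) (nat_lit 10) (.e (nat_lit 352000) (nat_lit 18) .nil))))))) (.g (nat_lit 4) .nil .nil))))))) (.nd (nat_lit 2) (.nd (nat_lit 3) (.nd (nat_lit 4) (.nd (nat_lit 5) 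
(.lf (nat_lit 125698) (.g (nat_lit 2411) (.e (nat_lit 7270) (nat_lit 385) (.e (nat_lit 122917) (nat_lit 15) (.e (nat_lit 360492) (nat_lit 22) (.e (nat_lit 778466) (nat_lit 11) (.e (nat_lit 24640) (nat_lit 10) (.e (nat_lit 344099) (nat_lit 18) .nil)))))) (.g (nat_lit 5) .nil .nil))) 
(.lf (nat_lit 125730) (.g (nat_lit 1592) (.e (nat_lit 7270) (nat_lit 385) (.e (nat_lit 122919) (nat_lit 15) (.e (nat_lit 360451) (nat_lit 0) (.e (nat_lit 7124) (nat_lit 382) (.e (nat_lit 1030) (nat_lit 81) .nil))))) .nil))) (.nd (nat_lit 5) 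
(.lf (nat_lit 125714) (.g (nat_lit 1462) (.e (nat_lit 7270) (nat_lit 385) (.e (nat_lit 122919) (nat_lit 15) (.e (nat_lit 360450) (nat_lit 0) (.e (nat_lit 7266) (nat_lit 384) .nil)))) .nil)) 
(.lf (nat_lit 125746) (.g (nat_lit 2280) (.e (nat_lit 7270) (nat_lit 385) (.e (nat_lit 122919) (nat_lit 15) (.e (nat_lit 360451) (nat_lit 0) (.e (nat_lit 7261) (nat_lit 384) (.e (nat_lit 57436) (nat_lit 17) (.e (nat_lit 376855) (nat_lit 20) (.e (nat_lit 982) (nat_lit 81) .nil))))))) (.g (nat_lit 4) .nil .nil))))) (.nd (nat_lit 4) (.nd (nat_lit 5) 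
(.lf (nat_lit 125706) (.g (nat_lit 1674) (.e (nat_lit 7270) (nat_lit 385) (.e (nat_lit 122919) (nat_lit 15) (.e (nat_lit 360450) (nat_lit 0) (.e (nat_lit 7122) (nat_lit 382) (.e (nat_lit 1201) (nat_lit 88) .nil))))) .nil)) 
(.lf (nat_lit 125738) (.g (nat_lit 1466) (.e (nat_lit 7270) (nat_lit 385) (.e (nat_lit 122919) (nat_lit 15) (.e (nat_lit 360451) (nat_lit 0) (.e (nat_lit 7132) (nat_lit 382) .nil)))) .nil))) (.nd (nat_lit 5) 
(.lf (nat_lit 125722) (.g (nat_lit 2709) (.e (nat_lit 7270) (nat_lit 385) (.e (nat_lit 122919) (nat_lit 15) (.e (nat_lit 360451) (nat_lit 0) (.e (nat_lit 7122) (nat_lit 382) (.e (nat_lit 998) (nat_lit 81) .nil))))) .nil)) 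
(.lf (nat_lit 125754) (.g (nat_lit 2358) (.e (nat_lit 7270) (nat_lit 385) (.e (nat_lit 122919) (nat_lit 15) (.e (nat_lit 360451) (nat_lit 0) (.e (nat_lit 7265) (nat_lit 384) (.e (nat_lit 57412) (nat_lit 12) (.e (nat_lit 336163) (nat_lit 10) (.e (nat_lit 344100) (nat_lit 18) .nil))))))) (.g (nat_lit 5) .nil .nil)))))) (.nd (nat_lit 3) (.nd (nat_lit 4) (.nd (nat_lit 5) 
(.lf (nat_lit 125702) (.g (nat_lit 3371) (.e (nat_lit 7270) (nat_lit 385) (.e (nat_lit 122919) (nat_lit 15) (.e (nat_lit 360448) (nat_lit 0) (.e (nat_lit 7270) (nat_lit 385) (.e (nat_lit 122919) (nat_lit 15) (.e (nat_lit 360453) (nat_lit 0) .nil)))))) (.g (nat_lit 5) .nil .nil))) 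
(.lf (nat_lit 125734) (.g (nat_lit 3464) (.e (nat_lit 7270) (nat_lit 385) (.e (nat_lit 122919) (nat_lit 15) (.e (nat_lit 360451) (nat_lit 0) (.e (nat_lit 7125) (nat_lit 382) (.e (nat_lit 1201) (nat_lit 88) (.e (nat_lit 65617) (nat_lit 10) (.e (nat_lit 344101) (nat_lit 18) .nil))))))) (.g (nat_lit 4) .nil .nil)))) (.nd (nat_lit 5) 
(.lf (nat_lit 125718) (.g (nat_lit 1910) (.e (nat_lit 7270) (nat_lit 385) (.e (nat_lit 122919) (nat_lit 15) (.e (nat_lit 360451) (nat_lit 0) (.e (nat_lit 6940) (nat_lit 375) .nil)))) .nil)) 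
(.lf (nat_lit 125750) (.g (nat_lit 2066) (.e (nat_lit 7270) (nat_lit 385) (.e (nat_lit 122919) (nat_lit 15) (.e (nat_lit 360451) (nat_lit 0) (.e (nat_lit 7263) (nat_lit 384) (.e (nat_lit 57412) (nat_lit 12) .nil))))) .nil)))) (.nd (nat_lit 4) (.nd (nat_lit 5) 
(.lf (nat_lit 125710) (.g (nat_lit 1829) (.e (nat_lit 7270) (nat_lit 385) (.e (nat_lit 122919) (nat_lit 15) (.e (nat_lit 360450) (nat_lit 0) (.e (nat_lit 7126) (nat_lit 382) (.e (nat_lit 1187) (nat_lit 88) .nil))))) .nil)) 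
(.lf (nat_lit 125742) (.g (nat_lit 2195) (.e (nat_lit 7270) (nat_lit 385) (.e (nat_lit 122919) (nat_lit 15) (.e (nat_lit 360451) (nat_lit 0) (.e (nat_lit 7261) (nat_lit 384) (.e (nat_lit 57412) (nat_lit 12) (.e (nat_lit 336163) (nat_lit 10) (.e (nat_lit 344100) (nat_lit 18) .nil))))))) (.g (nat_lit 5) .nil .nil)))) (.nd (nat_lit 5) 
(.lf (nat_lit 125726) (.g (nat_lit 3153) (.e (nat_lit 7270) (nat_lit 385) (.e (nat_lit 122919) (nat_lit 15) (.e (nat_lit 360451) (nat_lit 0) (.e (nat_lit 7122) (nat_lit 382) (.e (nat_lit 1201) (nat_lit 88) (.e (nat_lit 65617) (nat_lit 10) (.e (nat_lit 344087) (nat_lit 18) .nil))))))) (.g (nat_lit 4) .nil .nil))) 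
(.lf (nat_lit 125758) (.g (nat_lit 3338) (.e (nat_lit 7270) (nat_lit 385) (.e (nat_lit 122919) (nat_lit 15) (.e (nat_lit 360451) (nat_lit 0) (.e (nat_lit 7265) (nat_lit 384) (.e (nat_lit 57424) (nat_lit 14) (.e (nat_lit 352280) (nat_lit 20) (.e (nat_lit 1036) (nat_lit 81) .nil))))))) (.g (nat_lit 5) .nil .nil)))))))) 
(.nd (nat_lit 1) (.nd (nat_lit 2) (.nd (nat_lit 3) (.nd (nat_lit 4) (.nd (nat_lit 5) 
(.lf (nat_lit 125697) (.g (nat_lit 2145) (.e (nat_lit 7270) (nat_lit 385) (.e (nat_lit 122917) (nat_lit 15) (.e (nat_lit 360492) (nat_lit 22) (.e (nat_lit 778466) (nat_lit 11) (.e (nat_lit 24640) (nat_lit 10) (.e (nat_lit 344087) (nat_lit 18) .nil)))))) (.g (nat_lit 4) .nil .nil))) 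
(.lf (nat_lit 125729) (.g (nat_lit 1898) (.e (nat_lit 7270) (nat_lit 385) (.e (nat_lit 122919) (nat_lit 15) (.e (nat_lit 360451) (nat_lit 0) (.e (nat_lit 7124) (nat_lit 382) (.e (nat_lit 1016) (nat_lit 81) (.e (nat_lit 1580) (nat_lit 111) (.e (nat_lit 360453) (nat_lit 0) .nil))))))) (.g (nat_lit 4) .nil .nil)))) (.nd (nat_lit 5) 
(.lf (nat_lit 125713) (.g (nat_lit 1582) (.e (nat_lit 7270) (nat_lit 385) (.e (nat_lit 122919) (nat_lit 15) (.e (nat_lit 360450) (nat_lit 0) (.e (nat_lit 7265) (nat_lit 384) .nil)))) .nil)) 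
(.lf (nat_lit 125745) (.g (nat_lit 2160) (.e (nat_lit 7270) (nat_lit 385) (.e (nat_lit 122919) (nat_lit 15) (.e (nat_lit 360451) (nat_lit 0) (.e (nat_lit 7261) (nat_lit 384) (.e (nat_lit 57426) (nat_lit 15) (.e (nat_lit 368384) (nat_lit 0) .nil)))))) (.g (nat_lit 4) .nil .nil))))) (.nd (nat_lit 4) (.nd (nat_lit 5) 
(.lf (nat_lit 125705) (.g (nat_lit 2145) (.e (nat_lit 7270) (nat_lit 385) (.e (nat_lit 122919) (nat_lit 15) (.e (nat_lit 360450) (nat_lit 0) (.e (nat_lit 7122) (nat_lit 382) (.e (nat_lit 1187) (nat_lit 88) .nil))))) .nil)) 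
(.lf (nat_lit 125737) (.g (nat_lit 2018) (.e (nat_lit 7270) (nat_lit 385) (.e (nat_lit 122919) (nat_lit 15) (.e (nat_lit 360451) (nat_lit 0) (.e (nat_lit 7126) (nat_lit 382) (.e (nat_lit 1006) (nat_lit 81) .nil))))) .nil))) (.nd (nat_lit 5) 
(.lf (nat_lit 125721) (.g (nat_lit 2709) (.e (nat_lit 7270) (nat_lit 385) (.e (nat_lit 122919) (nat_lit 15) (.e (nat_lit 360451) (nat_lit 0) (.e (nat_lit 7122) (nat_lit 382) (.e (nat_lit 982) (nat_lit 81) .nil))))) .nil)) 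
(.lf (nat_lit 125753) (.g (nat_lit 2367) (.e (nat_lit 7270) (nat_lit 385) (.e (nat_lit 122919) (nat_lit 15) (.e (nat_lit 360451) (nat_lit 0) (.e (nat_lit 7265) (nat_lit 384) (.e (nat_lit 57406) (nat_lit 12) (.e (nat_lit 336182) (nat_lit 11) (.e (nat_lit 368659) (nat_lit 18) .nil))))))) (.g (nat_lit 4) .nil .nil)))))) (.nd (nat_lit 3) (.nd (nat_lit 4) (.nd (nat_lit 5) 
(.lf (nat_lit 125701) (.g (nat_lit 4120) (.e (nat_lit 7270) (nat_lit 385) (.e (nat_lit 122919) (nat_lit 15) (.e (nat_lit 360448) (nat_lit 0) (.e (nat_lit 7270) (nat_lit 385) (.e (nat_lit 122919) (nat_lit 15) (.e (nat_lit 360452) (nat_lit 0) .nil)))))) (.g (nat_lit 5) .nil .nil))) 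
(.lf (nat_lit 125733) (.g (nat_lit 2916) (.e (nat_lit 7270) (nat_lit 385) (.e (nat_lit 122919) (nat_lit 15) (.e (nat_lit 360451) (nat_lit 0) (.e (nat_lit 7125) (nat_lit 382) (.e (nat_lit 1201) (nat_lit 88) (.e (nat_lit 65610) (nat_lit 10) (.e (nat_lit 344101) (nat_lit 18) .nil))))))) (.g (nat_lit 4) .nil .nil)))) (.nd (nat_lit 5) 
(.lf (nat_lit 125717) (.g (nat_lit 1991) (.e (nat_lit 7270) (nat_lit 385) (.e (nat_lit 122919) (nat_lit 15) (.e (nat_lit 360451) (nat_lit 0) (.e (nat_lit 6938) (nat_lit 375) .nil)))) .nil)) 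
(.lf (nat_lit 125749) (.g (nat_lit 1795) (.e (nat_lit 7270) (nat_lit 385) (.e (nat_lit 122919) (nat_lit 15) (.e (nat_lit 360451) (nat_lit 0) (.e (nat_lit 7263) (nat_lit 384) .nil)))) .nil)))) (.nd (nat_lit 4) (.nd (nat_lit 5) 
(.lf (nat_lit 125709) (.g (nat_lit 1741) (.e (nat_lit 7270) (nat_lit 385) (.e (nat_lit 122919) (nat_lit 15) (.e (nat_lit 360450) (nat_lit 0) (.e (nat_lit 7124) (nat_lit 382) .nil)))) .nil)) 
(.lf (nat_lit 125741) (.g (nat_lit 962) (.e (nat_lit 7270) (nat_lit 385) (.e (nat_lit 122919) (nat_lit 15) (.e (nat_lit 360451) (nat_lit 0) (.e (nat_lit 7261) (nat_lit 384) .nil)))) .nil))) (.nd (nat_lit 5) 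
(.lf (nat_lit 125725) (.g (nat_lit 2465) (.e (nat_lit 7270) (nat_lit 385) (.e (nat_lit 122919) (nat_lit 15) (.e (nat_lit 360451) (nat_lit 0) (.e (nat_lit 7122) (nat_lit 382) (.e (nat_lit 1201) (nat_lit 88) .nil))))) .nil)) 
(.lf (nat_lit 125757) (.g (nat_lit 3776) (.e (nat_lit 7270) (nat_lit 385) (.e (nat_lit 122919) (nat_lit 15) (.e (nat_lit 360451) (nat_lit 0) (.e (nat_lit 7265) (nat_lit 384) (.e (nat_lit 57424) (nat_lit 14) (.e (nat_lit 352280) (nat_lit 20) (.e (nat_lit 1023) (nat_lit 81) .nil))))))) (.g (nat_lit 5) .nil .nil))))))) (.nd (nat_lit 2) (.nd (nat_lit 3) (.nd (nat_lit 4) (.nd (nat_lit 5) 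
(.lf (nat_lit 125699) (.g (nat_lit 2832) (.e (nat_lit 7270) (nat_lit 385) (.e (nat_lit 122917) (nat_lit 15) (.e (nat_lit 360492) (nat_lit 22) (.e (nat_lit 778466) (nat_lit 11) (.e (nat_lit 24640) (nat_lit 10) (.e (nat_lit 344101) (nat_lit 18) .nil)))))) (.g (nat_lit 5) .nil .nil))) 
(.lf (nat_lit 125731) (.g (nat_lit 1320) (.e (nat_lit 7270) (nat_lit 385) (.e (nat_lit 122919) (nat_lit 15) (.e (nat_lit 360451) (nat_lit 0) (.e (nat_lit 7125) (nat_lit 382) .nil)))) .nil))) (.nd (nat_lit 5) 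
(.lf (nat_lit 125715) (.g (nat_lit 338) (.e (nat_lit 7270) (nat_lit 385) (.e (nat_lit 122919) (nat_lit 15) (.e (nat_lit 360451) (nat_lit 0) .nil))) .nil)) 
(.lf (nat_lit 125747) (.g (nat_lit 2886) (.e (nat_lit 7270) (nat_lit 385) (.e (nat_lit 122919) (nat_lit 15) (.e (nat_lit 360451) (nat_lit 0) (.e (nat_lit 7261) (nat_lit 384) (.e (nat_lit 57436) (nat_lit 17) (.e (nat_lit 376855) (nat_lit 20) (.e (nat_lit 1041) (nat_lit 81) .nil))))))) (.g (nat_lit 5) .nil .nil))))) (.nd (nat_lit 4) (.nd (nat_lit 5) 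
(.lf (nat_lit 125707) (.g (nat_lit 3589) (.e (nat_lit 7270) (nat_lit 385) (.e (nat_lit 122919) (nat_lit 15) (.e (nat_lit 360450) (nat_lit 0) (.e (nat_lit 7122) (nat_lit 382) (.e (nat_lit 1201) (nat_lit 88) (.e (nat_lit 65617) (nat_lit 10) (.e (nat_lit 344087) (nat_lit 18) .nil))))))) (.g (nat_lit 5) .nil .nil))) 
(.lf (nat_lit 125739) (.g (nat_lit 1905) (.e (nat_lit 7270) (nat_lit 385) (.e (nat_lit 122919) (nat_lit 15) (.e (nat_lit 360451) (nat_lit 0) (.e (nat_lit 7227) (nat_lit 382) .nil)))) .nil))) (.nd (nat_lit 5) 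
(.lf (nat_lit 125723) (.g (nat_lit 2732) (.e (nat_lit 7270) (nat_lit 385) (.e (nat_lit 122919) (nat_lit 15) (.e (nat_lit 360451) (nat_lit 0) (.e (nat_lit 7122) (nat_lit 382) (.e (nat_lit 1016) (nat_lit 81) .nil))))) .nil)) 
(.lf (nat_lit 125755) (.g (nat_lit 2732) (.e (nat_lit 7270) (nat_lit 385) (.e (nat_lit 122919) (nat_lit 15) (.e (nat_lit 360451) (nat_lit 0) (.e (nat_lit 7265) (nat_lit 384) (.e (nat_lit 57412) (nat_lit 12) (.e (nat_lit 336176) (nat_lit 10) (.e (nat_lit 344101) (nat_lit 18) .nil))))))) (.g (nat_lit 6) .nil .nil)))))) (.nd (nat_lit 3) (.nd (nat_lit 4) (.nd (nat_lit 5) 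
(.lf (nat_lit 125703) (.g (nat_lit 2774) (.e (nat_lit 7270) (nat_lit 385) (.e (nat_lit 122919) (nat_lit 15) (.e (nat_lit 360448) (nat_lit 0) (.e (nat_lit 7270) (nat_lit 385) (.e (nat_lit 122919) (nat_lit 15) (.e (nat_lit 368384) (nat_lit 0) .nil)))))) (.g (nat_lit 4) .nil .nil))) 
(.lf (nat_lit 125735) (.g (nat_lit 3840) (.e (nat_lit 7270) (nat_lit 385) (.e (nat_lit 122919) (nat_lit 15) (.e (nat_lit 360451) (nat_lit 0) (.e (nat_lit 7125) (nat_lit 382) (.e (nat_lit 1201) (nat_lit 88) (.e (nat_lit 65619) (nat_lit 10) (.e (nat_lit 344097) (nat_lit 18) .nil))))))) (.g (nat_lit 5) .nil .nil)))) (.nd (nat_lit 5) 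
(.lf (nat_lit 125719) (.g (nat_lit 1828) (.e (nat_lit 7270) (nat_lit 385) (.e (nat_lit 122919) (nat_lit 15) (.e (nat_lit 360451) (nat_lit 0) (.e (nat_lit 7119) (nat_lit 382) .nil)))) .nil)) 
(.lf (nat_lit 125751) (.g (nat_lit 3597) (.e (nat_lit 7270) (nat_lit 385) (.e (nat_lit 122919) (nat_lit 15) (.e (nat_lit 360451) (nat_lit 0) (.e (nat_lit 7265) (nat_lit 384) (.e (nat_lit 57347) (nat_lit 0) (.e (nat_lit 7936) (nat_lit 348) (.e (nat_lit 73732) (nat_lit 0) .nil))))))) (.g (nat_lit 5) .nil .nil))))) (.nd (nat_lit 4) (.nd (nat_lit 5) 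
(.lf (nat_lit 125711) (.g (nat_lit 1042) (.e (nat_lit 7270) (nat_lit 385) (.e (nat_lit 122919) (nat_lit 15) (.e (nat_lit 360450) (nat_lit 0) (.e (nat_lit 7261) (nat_lit 384) .nil)))) .nil)) 
(.lf (nat_lit 125743) (.g (nat_lit 2294) (.e (nat_lit 7270) (nat_lit 385) (.e (nat_lit 122919) (nat_lit 15) (.e (nat_lit 360451) (nat_lit 0) (.e (nat_lit 7261) (nat_lit 384) (.e (nat_lit 57412) (nat_lit 12) (.e (nat_lit 336169) (nat_lit 10) (.e (nat_lit 344100) (nat_lit 18) .nil))))))) (.g (nat_lit 5) .nil .nil)))) (.nd (nat_lit 5) 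
(.lf (nat_lit 125727) (.g (nat_lit 2525) (.e (nat_lit 7270) (nat_lit 385) (.e (nat_lit 122919) (nat_lit 15) (.e (nat_lit 360451) (nat_lit 0) (.e (nat_lit 7122) (nat_lit 382) (.e (nat_lit 1201) (nat_lit 88) (.e (nat_lit 65617) (nat_lit 10) (.e (nat_lit 344100) (nat_lit 18) .nil))))))) (.g (nat_lit 4) .nil .nil))) 
(.lf (nat_lit 125759) (.g (nat_lit 3888) (.e (nat_lit 7270) (nat_lit 385) (.e (nat_lit 122919) (nat_lit 15) (.e (nat_lit 360451) (nat_lit 0) (.e (nat_lit 7265) (nat_lit 384) (.e (nat_lit 57424) (nat_lit 14) (.e (nat_lit 352288) (nat_lit 20) (.e (nat_lit 1036) (nat_lit 81) .nil))))))) (.g (nat_lit 7) .nil .nil)))))))))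

noncomputable def tv1688 : DT := (.nd (nat_lit 0) (.nd (nat_lit 1) (.nd (nat_lit 2) (.nd (nat_lit 3) (.nd (nat_lit 4) (.nd (nat_lit 5) 
(.lf (nat_lit 125760) (.g (nat_lit 3332) (.e (nat_lit 7270) (nat_lit 385) (.e (nat_lit 122919) (nat_lit 15) (.e (nat_lit 360451) (nat_lit 0) (.e (nat_lit 7265) (nat_lit 384) (.e (nat_lit 57424) (nat_lit 14) (.e (nat_lit 352292) (nat_lit 20) (.e (nat_lit 1023) (nat_lit 81) .nil))))))) (.g (nat_lit 5) .nil .nil))) 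
(.lf (nat_lit 125792) (.g (nat_lit 3280) (.e (nat_lit 7270) (nat_lit 385) (.e (nat_lit 122919) (nat_lit 15) (.e (nat_lit 360452) (nat_lit 0) (.e (nat_lit 7273) (nat_lit 385) (.e (nat_lit 122919) (nat_lit 15) (.e (nat_lit 360453) (nat_lit 0) .nil)))))) (.g (nat_lit 5) .nil .nil)))) (.nd (nat_lit 5) 
(.lf (nat_lit 125776) (.g (nat_lit 1779) (.e (nat_lit 7270) (nat_lit 385) (.e (nat_lit 122919) (nat_lit 15) (.e (nat_lit 360451) (nat_lit 0) (.e (nat_lit 7265) (nat_lit 384) (.e (nat_lit 57438) (nat_lit 17) (.e (nat_lit 376855) (nat_lit 20) (.e (nat_lit 1041) (nat_lit 81) .nil))))))) (.g (nat_lit 4) .nil .nil))) 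
(.lf (nat_lit 125808) (.g (nat_lit 3363) (.e (nat_lit 7270) (nat_lit 385) (.e (nat_lit 122919) (nat_lit 15) (.e (nat_lit 360492) (nat_lit 22) (.e (nat_lit 778464) (nat_lit 11) (.e (nat_lit 24640) (nat_lit 10) (.e (nat_lit 344101) (nat_lit 18) .nil)))))) (.g (nat_lit 5) .nil .nil))))) (.nd (nat_lit 4) (.nd (nat_lit 5) 
(.lf (nat_lit 125768) (.g (nat_lit 2115) (.e (nat_lit 7270) (nat_lit 385) (.e (nat_lit 122919) (nat_lit 15) (.e (nat_lit 360451) (nat_lit 0) (.e (nat_lit 7265) (nat_lit 384) (.e (nat_lit 57436) (nat_lit 17) (.e (nat_lit 376843) (nat_lit 20) (.e (nat_lit 1023) (nat_lit 81) .nil))))))) (.g (nat_lit 4) .nil .nil))) 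
(.lf (nat_lit 125800) (.g (nat_lit 2562) (.e (nat_lit 7270) (nat_lit 385) (.e (nat_lit 122919) (nat_lit 15) (.e (nat_lit 360488) (nat_lit 20) (.e (nat_lit 761868) (nat_lit 5) (.e (nat_lit 1597) (nat_lit 111) (.e (nat_lit 368384) (nat_lit 0) .nil)))))) (.g (nat_lit 4) .nil .nil)))) (.nd (nat_lit 5) 
(.lf (nat_lit 125784) (.g (nat_lit 3072) (.e (nat_lit 7270) (nat_lit 385) (.e (nat_lit 122919) (nat_lit 15) (.e (nat_lit 360452) (nat_lit 0) (.e (nat_lit 7270) (nat_lit 385) (.e (nat_lit 122917) (nat_lit 15) (.e (nat_lit 368384) (nat_lit 0) .nil)))))) (.g (nat_lit 4) .nil .nil))) 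
(.lf (nat_lit 125816) (.g (nat_lit 2033) (.e (nat_lit 7270) (nat_lit 385) (.e (nat_lit 122921) (nat_lit 17) (.e (nat_lit 376842) (nat_lit 11) (.e (nat_lit 426009) (nat_lit 0) (.e (nat_lit 7591) (nat_lit 407) (.e (nat_lit 73733) (nat_lit 0) .nil)))))) (.g (nat_lit 4) .nil .nil)))))) (.nd (nat_lit 3) (.nd (nat_lit 4) (.nd (nat_lit 5) 
(.lf (nat_lit 125764) (.g (nat_lit 3642) (.e (nat_lit 7270) (nat_lit 385) (.e (nat_lit 122919) (nat_lit 15) (.e (nat_lit 360451) (nat_lit 0) (.e (nat_lit 7265) (nat_lit 384) (.e (nat_lit 57424) (nat_lit 14) (.e (nat_lit 352302) (nat_lit 20) (.e (nat_lit 1023) (nat_lit 81) .nil))))))) (.g (nat_lit 5) .nil .nil))) 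
(.lf (nat_lit 125796) (.g (nat_lit 3214) (.e (nat_lit 7270) (nat_lit 385) (.e (nat_lit 122919) (nat_lit 15) (.e (nat_lit 360454) (nat_lit 0) (.e (nat_lit 7273) (nat_lit 385) (.e (nat_lit 122917) (nat_lit 15) (.e (nat_lit 360453) (nat_lit 0) .nil)))))) (.g (nat_lit 6) .nil .nil)))) (.nd (nat_lit 5) 
(.lf (nat_lit 125780) (.g (nat_lit 1369) (.e (nat_lit 7270) (nat_lit 385) (.e (nat_lit 122919) (nat_lit 15) (.e (nat_lit 360451) (nat_lit 0) (.e (nat_lit 7277) (nat_lit 385) .nil)))) .nil)) 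
(.lf (nat_lit 125812) (.g (nat_lit 4058) (.e (nat_lit 7270) (nat_lit 385) (.e (nat_lit 122919) (nat_lit 15) (.e (nat_lit 360492) (nat_lit 22) (.e (nat_lit 778465) (nat_lit 11) (.e (nat_lit 24640) (nat_lit 10) (.e (nat_lit 344101) (nat_lit 18) .nil)))))) (.g (nat_lit 5) .nil .nil))))) (.nd (nat_lit 4) (.nd (nat_lit 5) 
(.lf (nat_lit 125772) (.g (nat_lit 2883) (.e (nat_lit 7270) (nat_lit 385) (.e (nat_lit 122919) (nat_lit 15) (.e (nat_lit 360451) (nat_lit 0) (.e (nat_lit 7265) (nat_lit 384) (.e (nat_lit 57436) (nat_lit 17) (.e (nat_lit 376848) (nat_lit 20) (.e (nat_lit 1036) (nat_lit 81) .nil))))))) (.g (nat_lit 5) .nil .nil))) 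
(.lf (nat_lit 125804) (.g (nat_lit 3629) (.e (nat_lit 7270) (nat_lit 385) (.e (nat_lit 122919) (nat_lit 15) (.e (nat_lit 360491) (nat_lit 22) (.e (nat_lit 778464) (nat_lit 11) (.e (nat_lit 24640) (nat_lit 10) (.e (nat_lit 344101) (nat_lit 18) .nil)))))) (.g (nat_lit 5) .nil .nil)))) (.nd (nat_lit 5) 
(.lf (nat_lit 125788) (.g (nat_lit 3182) (.e (nat_lit 7270) (nat_lit 385) (.e (nat_lit 122919) (nat_lit 15) (.e (nat_lit 360452) (nat_lit 0) (.e (nat_lit 7270) (nat_lit 385) (.e (nat_lit 122919) (nat_lit 15) (.e (nat_lit 368384) (nat_lit 0) .nil)))))) (.g (nat_lit 4) .nil .nil))) 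
(.lf (nat_lit 125820) (.g (nat_lit 3259) (.e (nat_lit 7270) (nat_lit 385) (.e (nat_lit 122921) (nat_lit 17) (.e (nat_lit 376842) (nat_lit 11) (.e (nat_lit 426343) (nat_lit 14) (.e (nat_lit 491558) (nat_lit 10) (.e (nat_lit 344100) (nat_lit 18) .nil)))))) (.g (nat_lit 5) .nil .nil))))))) (.nd (nat_lit 2) (.nd (nat_lit 3) (.nd (nat_lit 4) (.nd (nat_lit 5) 
(.lf (nat_lit 125762) (.g (nat_lit 3158) (.e (nat_lit 7270) (nat_lit 385) (.e (nat_lit 122919) (nat_lit 15) (.e (nat_lit 360451) (nat_lit 0) (.e (nat_lit 7265) (nat_lit 384) (.e (nat_lit 57424) (nat_lit 14) (.e (nat_lit 352299) (nat_lit 20) (.e (nat_lit 1042) (nat_lit 81) .nil))))))) (.g (nat_lit 5) .nil .nil))) 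
(.lf (nat_lit 125794) (.g (nat_lit 2224) (.e (nat_lit 7270) (nat_lit 385) (.e (nat_lit 122919) (nat_lit 15) (.e (nat_lit 360453) (nat_lit 0) (.e (nat_lit 7271) (nat_lit 385) (.e (nat_lit 122919) (nat_lit 15) (.e (nat_lit 360453) (nat_lit 0) .nil)))))) (.g (nat_lit 4) .nil .nil)))) (.nd (nat_lit 5) 
(.lf (nat_lit 125778) (.g (nat_lit 4322) (.e (nat_lit 7270) (nat_lit 385) (.e (nat_lit 122919) (nat_lit 15) (.e (nat_lit 360451) (nat_lit 0) (.e (nat_lit 7266) (nat_lit 384) (.e (nat_lit 57426) (nat_lit 15) (.e (nat_lit 360452) (nat_lit 0) .nil)))))) (.g (nat_lit 0) .nil .nil))) 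
(.lf (nat_lit 125810) (.g (nat_lit 2729) (.e (nat_lit 7270) (nat_lit 385) (.e (nat_lit 122919) (nat_lit 15) (.e (nat_lit 360492) (nat_lit 22) (.e (nat_lit 778465) (nat_lit 11) (.e (nat_lit 24640) (nat_lit 10) (.e (nat_lit 344087) (nat_lit 18) .nil)))))) (.g (nat_lit 4) .nil .nil))))) (.nd (nat_lit 4) (.nd (nat_lit 5) 
(.lf (nat_lit 125770) (.g (nat_lit 2954) (.e (nat_lit 7270) (nat_lit 385) (.e (nat_lit 122919) (nat_lit 15) (.e (nat_lit 360451) (nat_lit 0) (.e (nat_lit 7265) (nat_lit 384) (.e (nat_lit 57436) (nat_lit 17) (.e (nat_lit 376847) (nat_lit 20) (.e (nat_lit 1036) (nat_lit 81) .nil))))))) (.g (nat_lit 5) .nil .nil))) 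
(.lf (nat_lit 125802) (.g (nat_lit 322) (.e (nat_lit 7270) (nat_lit 385) (.e (nat_lit 122919) (nat_lit 15) (.e (nat_lit 360491) (nat_lit 22) .nil))) .nil))) (.nd (nat_lit 5) 
(.lf (nat_lit 125786) (.g (nat_lit 4532) (.e (nat_lit 7270) (nat_lit 385) (.e (nat_lit 122919) (nat_lit 15) (.e (nat_lit 360452) (nat_lit 0) (.e (nat_lit 7270) (nat_lit 385) (.e (nat_lit 122919) (nat_lit 15) (.e (nat_lit 360453) (nat_lit 0) .nil)))))) (.g (nat_lit 6) .nil .nil))) 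
(.lf (nat_lit 125818) (.g (nat_lit 2316) (.e (nat_lit 7270) (nat_lit 385) (.e (nat_lit 122921) (nat_lit 17) (.e (nat_lit 376842) (nat_lit 11) (.e (nat_lit 426010) (nat_lit 0) (.e (nat_lit 7591) (nat_lit 407) (.e (nat_lit 73733) (nat_lit 0) .nil)))))) (.g (nat_lit 4) .nil .nil)))))) (.nd (nat_lit 3) (.nd (nat_lit 4) (.nd (nat_lit 5) 
(.lf (nat_lit 125766) (.g (nat_lit 3269) (.e (nat_lit 7270) (nat_lit 385) (.e (nat_lit 122919) (nat_lit 15) (.e (nat_lit 360451) (nat_lit 0) (.e (nat_lit 7265) (nat_lit 384) (.e (nat_lit 57427) (nat_lit 15) (.e (nat_lit 360448) (nat_lit 0) .nil)))))) (.g (nat_lit 6) .nil .nil))) 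
(.lf (nat_lit 125798) (.g (nat_lit 477) (.e (nat_lit 7270) (nat_lit 385) (.e (nat_lit 122919) (nat_lit 15) (.e (nat_lit 360456) (nat_lit 0) .nil))) .nil))) (.nd (nat_lit 5) 
(.lf (nat_lit 125782) (.g (nat_lit 3139) (.e (nat_lit 7270) (nat_lit 385) (.e (nat_lit 122919) (nat_lit 15) (.e (nat_lit 360451) (nat_lit 0) (.e (nat_lit 7277) (nat_lit 385) (.e (nat_lit 122919) (nat_lit 15) (.e (nat_lit 360453) (nat_lit 0) .nil)))))) (.g (nat_lit 6) .nil .nil))) 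
(.lf (nat_lit 125814) (.g (nat_lit 3322) (.e (nat_lit 7270) (nat_lit 385) (.e (nat_lit 122919) (nat_lit 15) (.e (nat_lit 360492) (nat_lit 22) (.e (nat_lit 778466) (nat_lit 11) (.e (nat_lit 24638) (nat_lit 9) (.e (nat_lit 335892) (nat_lit 0) (.e (nat_lit 1095) (nat_lit 81) .nil))))))) (.g (nat_lit 5) .nil .nil))))) (.nd (nat_lit 4) (.nd (nat_lit 5) 
(.lf (nat_lit 125774) (.g (nat_lit 2906) (.e (nat_lit 7270) (nat_lit 385) (.e (nat_lit 122919) (nat_lit 15) (.e (nat_lit 360451) (nat_lit 0) (.e (nat_lit 7265) (nat_lit 384) (.e (nat_lit 57436) (nat_lit 17) (.e (nat_lit 376855) (nat_lit 20) (.e (nat_lit 982) (nat_lit 81) .nil))))))) (.g (nat_lit 5) .nil .nil))) 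
(.lf (nat_lit 125806) (.g (nat_lit 2797) (.e (nat_lit 7270) (nat_lit 385) (.e (nat_lit 122919) (nat_lit 15) (.e (nat_lit 360491) (nat_lit 22) (.e (nat_lit 778465) (nat_lit 11) (.e (nat_lit 24641) (nat_lit 10) (.e (nat_lit 344100) (nat_lit 18) .nil)))))) (.g (nat_lit 5) .nil .nil)))) (.nd (nat_lit 5) 
(.lf (nat_lit 125790) (.g (nat_lit 3723) (.e (nat_lit 7270) (nat_lit 385) (.e (nat_lit 122919) (nat_lit 15) (.e (nat_lit 360452) (nat_lit 0) (.e (nat_lit 7272) (nat_lit 385) (.e (nat_lit 122917) (nat_lit 15) (.e (nat_lit 360453) (nat_lit 0) .nil)))))) (.g (nat_lit 5) .nil .nil))) 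
(.lf (nat_lit 125822) (.g (nat_lit 3564) (.e (nat_lit 7271) (nat_lit 385) (.e (nat_lit 122903) (nat_lit 12) (.e (nat_lit 336013) (nat_lit 2) (.e (nat_lit 90170) (nat_lit 13) (.e (nat_lit 172113) (nat_lit 10) (.e (nat_lit 434247) (nat_lit 28) (.e (nat_lit 573478) (nat_lit 12) (.e (nat_lit 57356) (nat_lit 0) .nil)))))))) (.g (nat_lit 0) .nil .nil)))))))) 
(.nd (nat_lit 1) (.nd (nat_lit 2) (.nd (nat_lit 3) (.nd (nat_lit 4) (.nd (nat_lit 5) 
(.lf (nat_lit 125761) (.g (nat_lit 3869) (.e (nat_lit 7270) (nat_lit 385) (.e (nat_lit 122919) (nat_lit 15) (.e (nat_lit 360451) (nat_lit 0) (.e (nat_lit 7265) (nat_lit 384) (.e (nat_lit 57424) (nat_lit 14) (.e (nat_lit 352295) (nat_lit 20) (.e (nat_lit 1023) (nat_lit 81) .nil))))))) (.g (nat_lit 5) .nil .nil))) 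
(.lf (nat_lit 125793) (.g (nat_lit 3593) (.e (nat_lit 7270) (nat_lit 385) (.e (nat_lit 122919) (nat_lit 15) (.e (nat_lit 360453) (nat_lit 0) (.e (nat_lit 7270) (nat_lit 385) (.e (nat_lit 122919) (nat_lit 15) (.e (nat_lit 368384) (nat_lit 0) .nil)))))) (.g (nat_lit 5) .nil .nil)))) (.nd (nat_lit 5) 
(.lf (nat_lit 125777) (.g (nat_lit 1362) (.e (nat_lit 7270) (nat_lit 385) (.e (nat_lit 122919) (nat_lit 15) (.e (nat_lit 360451) (nat_lit 0) (.e (nat_lit 7266) (nat_lit 384) .nil)))) .nil)) 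
(.lf (nat_lit 125809) (.g (nat_lit 2961) (.e (nat_lit 7270) (nat_lit 385) (.e (nat_lit 122919) (nat_lit 15) (.e (nat_lit 360492) (nat_lit 22) (.e (nat_lit 778465) (nat_lit 11) (.e (nat_lit 24638) (nat_lit 9) (.e (nat_lit 335892) (nat_lit 0) (.e (nat_lit 1095) (nat_lit 81) .nil))))))) (.g (nat_lit 4) .nil .nil))))) (.nd (nat_lit 4) (.nd (nat_lit 5) 
(.lf (nat_lit 125769) (.g (nat_lit 2678) (.e (nat_lit 7270) (nat_lit 385) (.e (nat_lit 122919) (nat_lit 15) (.e (nat_lit 360451) (nat_lit 0) (.e (nat_lit 7265) (nat_lit 384) (.e (nat_lit 57436) (nat_lit 17) (.e (nat_lit 376845) (nat_lit 20) (.e (nat_lit 1036) (nat_lit 81) .nil))))))) (.g (nat_lit 5) .nil .nil))) 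
(.lf (nat_lit 125801) (.g (nat_lit 4264) (.e (nat_lit 7270) (nat_lit 385) (.e (nat_lit 122919) (nat_lit 15) (.e (nat_lit 360489) (nat_lit 21) (.e (nat_lit 770071) (nat_lit 8) (.e (nat_lit 65610) (nat_lit 10) (.e (nat_lit 344097) (nat_lit 18) .nil)))))) (.g (nat_lit 0) .nil .nil)))) (.nd (nat_lit 5) 
(.lf (nat_lit 125785) (.g (nat_lit 4318) (.e (nat_lit 7270) (nat_lit 385) (.e (nat_lit 122919) (nat_lit 15) (.e (nat_lit 360452) (nat_lit 0) (.e (nat_lit 7270) (nat_lit 385) (.e (nat_lit 122919) (nat_lit 15) (.e (nat_lit 360452) (nat_lit 0) .nil)))))) (.g (nat_lit 5) .nil .nil))) 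
(.lf (nat_lit 125817) (.g (nat_lit 1941) (.e (nat_lit 7270) (nat_lit 385) (.e (nat_lit 122921) (nat_lit 17) (.e (nat_lit 376842) (nat_lit 11) (.e (nat_lit 426009) (nat_lit 0) (.e (nat_lit 7593) (nat_lit 407) (.e (nat_lit 73732) (nat_lit 0) .nil)))))) (.g (nat_lit 4) .nil .nil)))))) (.nd (nat_lit 3) (.nd (nat_lit 4) (.nd (nat_lit 5) 
(.lf (nat_lit 125765) (.g (nat_lit 3135) (.e (nat_lit 7270) (nat_lit 385) (.e (nat_lit 122919) (nat_lit 15) (.e (nat_lit 360451) (nat_lit 0) (.e (nat_lit 7265) (nat_lit 384) (.e (nat_lit 57424) (nat_lit 14) (.e (nat_lit 352303) (nat_lit 20) (.e (nat_lit 1023) (nat_lit 81) .nil))))))) (.g (nat_lit 5) .nil .nil))) 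
(.lf (nat_lit 125797) (.g (nat_lit 3438) (.e (nat_lit 7270) (nat_lit 385) (.e (nat_lit 122919) (nat_lit 15) (.e (nat_lit 360454) (nat_lit 0) (.e (nat_lit 7273) (nat_lit 385) (.e (nat_lit 122919) (nat_lit 15) (.e (nat_lit 360453) (nat_lit 0) .nil)))))) (.g (nat_lit 6) .nil .nil)))) (.nd (nat_lit 5) 
(.lf (nat_lit 125781) (.g (nat_lit 1797) (.e (nat_lit 7270) (nat_lit 385) (.e (nat_lit 122919) (nat_lit 15) (.e (nat_lit 360451) (nat_lit 0) (.e (nat_lit 7277) (nat_lit 385) (.e (nat_lit 122917) (nat_lit 15) (.e (nat_lit 360453) (nat_lit 0) .nil)))))) (.g (nat_lit 4) .nil .nil))) 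
(.lf (nat_lit 125813) (.g (nat_lit 3225) (.e (nat_lit 7270) (nat_lit 385) (.e (nat_lit 122919) (nat_lit 15) (.e (nat_lit 360492) (nat_lit 22) (.e (nat_lit 778465) (nat_lit 11) (.e (nat_lit 24641) (nat_lit 10) (.e (nat_lit 344100) (nat_lit 18) .nil)))))) (.g (nat_lit 5) .nil .nil))))) (.nd (nat_lit 4) (.nd (nat_lit 5) 
(.lf (nat_lit 125773) (.g (nat_lit 2244) (.e (nat_lit 7270) (nat_lit 385) (.e (nat_lit 122919) (nat_lit 15) (.e (nat_lit 360451) (nat_lit 0) (.e (nat_lit 7265) (nat_lit 384) (.e (nat_lit 57436) (nat_lit 17) (.e (nat_lit 376852) (nat_lit 20) (.e (nat_lit 1042) (nat_lit 81) .nil))))))) (.g (nat_lit 4) .nil .nil))) 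
(.lf (nat_lit 125805) (.g (nat_lit 3844) (.e (nat_lit 7270) (nat_lit 385) (.e (nat_lit 122919) (nat_lit 15) (.e (nat_lit 360491) (nat_lit 22) (.e (nat_lit 778465) (nat_lit 11) (.e (nat_lit 24640) (nat_lit 10) (.e (nat_lit 344099) (nat_lit 18) .nil)))))) (.g (nat_lit 5) .nil .nil)))) (.nd (nat_lit 5) 
(.lf (nat_lit 125789) (.g (nat_lit 4064) (.e (nat_lit 7270) (nat_lit 385) (.e (nat_lit 122919) (nat_lit 15) (.e (nat_lit 360452) (nat_lit 0) (.e (nat_lit 7271) (nat_lit 385) (.e (nat_lit 122919) (nat_lit 15) (.e (nat_lit 360453) (nat_lit 0) .nil)))))) (.g (nat_lit 6) .nil .nil))) 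
(.lf (nat_lit 125821) (.g (nat_lit 4154) (.e (nat_lit 7271) (nat_lit 385) (.e (nat_lit 122903) (nat_lit 12) (.e (nat_lit 336013) (nat_lit 2) (.e (nat_lit 90170) (nat_lit 13) (.e (nat_lit 172113) (nat_lit 10) (.e (nat_lit 434245) (nat_lit 28) (.e (nat_lit 573474) (nat_lit 12) (.e (nat_lit 57356) (nat_lit 0) .nil)))))))) (.g (nat_lit 0) .nil .nil))))))) 
(.nd (nat_lit 2) (.nd (nat_lit 3) (.nd (nat_lit 4) (.nd (nat_lit 5) 
(.lf (nat_lit 125763) (.g (nat_lit 3581) (.e (nat_lit 7270) (nat_lit 385) (.e (nat_lit 122919) (nat_lit 15) (.e (nat_lit 360451) (nat_lit 0) (.e (nat_lit 7265) (nat_lit 384) (.e (nat_lit 57424) (nat_lit 14) (.e (nat_lit 352301) (nat_lit 20) (.e (nat_lit 1023) (nat_lit 81) .nil))))))) (.g (nat_lit 5) .nil .nil))) 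
(.lf (nat_lit 125795) (.g (nat_lit 3905) (.e (nat_lit 7270) (nat_lit 385) (.e (nat_lit 122919) (nat_lit 15) (.e (nat_lit 360454) (nat_lit 0) (.e (nat_lit 7270) (nat_lit 385) (.e (nat_lit 122919) (nat_lit 15) (.e (nat_lit 360453) (nat_lit 0) .nil)))))) (.g (nat_lit 5) .nil .nil)))) (.nd (nat_lit 5) 
(.lf (nat_lit 125779) (.g (nat_lit 2108) (.e (nat_lit 7270) (nat_lit 385) (.e (nat_lit 122919) (nat_lit 15) (.e (nat_lit 360451) (nat_lit 0) (.e (nat_lit 7266) (nat_lit 384) (.e (nat_lit 57436) (nat_lit 17) .nil))))) .nil)) 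
(.lf (nat_lit 125811) (.g (nat_lit 3902) (.e (nat_lit 7270) (nat_lit 385) (.e (nat_lit 122919) (nat_lit 15) (.e (nat_lit 360492) (nat_lit 22) (.e (nat_lit 778465) (nat_lit 11) (.e (nat_lit 24640) (nat_lit 10) (.e (nat_lit 344099) (nat_lit 18) .nil)))))) (.g (nat_lit 5) .nil .nil))))) (.nd (nat_lit 4) (.nd (nat_lit 5) 
(.lf (nat_lit 125771) (.g (nat_lit 3003) (.e (nat_lit 7270) (nat_lit 385) (.e (nat_lit 122919) (nat_lit 15) (.e (nat_lit 360451) (nat_lit 0) (.e (nat_lit 7265) (nat_lit 384) (.e (nat_lit 57436) (nat_lit 17) (.e (nat_lit 376848) (nat_lit 20) (.e (nat_lit 982) (nat_lit 81) .nil))))))) (.g (nat_lit 5) .nil .nil))) 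
(.lf (nat_lit 125803) (.g (nat_lit 2258) (.e (nat_lit 7270) (nat_lit 385) (.e (nat_lit 122919) (nat_lit 15) (.e (nat_lit 360491) (nat_lit 22) (.e (nat_lit 778464) (nat_lit 11) (.e (nat_lit 24639) (nat_lit 10) (.e (nat_lit 344100) (nat_lit 18) .nil)))))) (.g (nat_lit 4) .nil .nil)))) (.nd (nat_lit 5) 
(.lf (nat_lit 125787) (.g (nat_lit 3045) (.e (nat_lit 7270) (nat_lit 385) (.e (nat_lit 122919) (nat_lit 15) (.e (nat_lit 360452) (nat_lit 0) (.e (nat_lit 7270) (nat_lit 385) (.e (nat_lit 122919) (nat_lit 15) (.e (nat_lit 360454) (nat_lit 0) .nil)))))) (.g (nat_lit 4) .nil .nil))) 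
(.lf (nat_lit 125819) (.g (nat_lit 2059) (.e (nat_lit 7270) (nat_lit 385) (.e (nat_lit 122921) (nat_lit 17) (.e (nat_lit 376842) (nat_lit 11) (.e (nat_lit 426010) (nat_lit 0) (.e (nat_lit 7593) (nat_lit 407) (.e (nat_lit 73732) (nat_lit 0) .nil)))))) (.g (nat_lit 4) .nil .nil)))))) (.nd (nat_lit 3) (.nd (nat_lit 4) (.nd (nat_lit 5) 
(.lf (nat_lit 125767) (.g (nat_lit 2316) (.e (nat_lit 7270) (nat_lit 385) (.e (nat_lit 122919) (nat_lit 15) (.e (nat_lit 360451) (nat_lit 0) (.e (nat_lit 7265) (nat_lit 384) (.e (nat_lit 57435) (nat_lit 17) (.e (nat_lit 376855) (nat_lit 20) (.e (nat_lit 1041) (nat_lit 81) .nil))))))) (.g (nat_lit 5) .nil .nil))) 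
(.lf (nat_lit 125799) (.g (nat_lit 2078) (.e (nat_lit 7270) (nat_lit 385) (.e (nat_lit 122919) (nat_lit 15) (.e (nat_lit 368384) (nat_lit 0) (.e (nat_lit 7270) (nat_lit 385) (.e (nat_lit 122919) (nat_lit 15) (.e (nat_lit 368384) (nat_lit 0) .nil)))))) (.g (nat_lit 4) .nil .nil)))) (.nd (nat_lit 5) 
(.lf (nat_lit 125783) (.g (nat_lit 1638) (.e (nat_lit 7270) (nat_lit 385) (.e (nat_lit 122919) (nat_lit 15) (.e (nat_lit 360451) (nat_lit 0) (.e (nat_lit 7454) (nat_lit 396) .nil)))) .nil)) 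
(.lf (nat_lit 125815) (.g (nat_lit 2839) (.e (nat_lit 7270) (nat_lit 385) (.e (nat_lit 122920) (nat_lit 16) (.e (nat_lit 368676) (nat_lit 21) (.e (nat_lit 516176) (nat_lit 14) (.e (nat_lit 466967) (nat_lit 20) (.e (nat_lit 3304) (nat_lit 202) (.e (nat_lit 573477) (nat_lit 12) (.e (nat_lit 57357) (nat_lit 0) .nil)))))))) (.g (nat_lit 4) .nil .nil))))) (.nd (nat_lit 4) (.nd (nat_lit 5) 
(.lf (nat_lit 125775) (.g (nat_lit 2523) (.e (nat_lit 7270) (nat_lit 385) (.e (nat_lit 122919) (nat_lit 15) (.e (nat_lit 360451) (nat_lit 0) (.e (nat_lit 7265) (nat_lit 384) (.e (nat_lit 57436) (nat_lit 17) (.e (nat_lit 376855) (nat_lit 20) (.e (nat_lit 1039) (nat_lit 81) .nil))))))) (.g (nat_lit 4) .nil .nil))) 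
(.lf (nat_lit 125807) (.g (nat_lit 333) (.e (nat_lit 7270) (nat_lit 385) (.e (nat_lit 122919) (nat_lit 15) (.e (nat_lit 360492) (nat_lit 22) .nil))) .nil))) (.nd (nat_lit 5) 
(.lf (nat_lit 125791) (.g (nat_lit 4160) (.e (nat_lit 7270) (nat_lit 385) (.e (nat_lit 122919) (nat_lit 15) (.e (nat_lit 360452) (nat_lit 0) (.e (nat_lit 7272) (nat_lit 385) (.e (nat_lit 122919) (nat_lit 15) (.e (nat_lit 360453) (nat_lit 0) .nil)))))) (.g (nat_lit 6) .nil .nil))) 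
(.lf (nat_lit 125823) (.g (nat_lit 4163) (.e (nat_lit 7271) (nat_lit 385) (.e (nat_lit 122903) (nat_lit 12) (.e (nat_lit 336013) (nat_lit 2) (.e (nat_lit 90170) (nat_lit 13) (.e (nat_lit 172113) (nat_lit 10) (.e (nat_lit 434248) (nat_lit 28) (.e (nat_lit 573475) (nat_lit 12) (.e (nat_lit 57356) (nat_lit 0) .nil)))))))) (.g (nat_lit 0) .nil .nil)))))))))

noncomputable def tv1689 : DT := (.nd (nat_lit 0) (.nd (nat_lit 1) (.nd (nat_lit 2) (.nd (nat_lit 3) (.nd (nat_lit 4) (.nd (nat_lit 5) 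
(.lf (nat_lit 125824) (.g (nat_lit 3872) (.e (nat_lit 7271) (nat_lit 385) (.e (nat_lit 122903) (nat_lit 12) (.e (nat_lit 336028) (nat_lit 3) (.e (nat_lit 98359) (nat_lit 26) (.e (nat_lit 426286) (nat_lit 10) (.e (nat_lit 434245) (nat_lit 28) (.e (nat_lit 573474) (nat_lit 12) (.e (nat_lit 57356) (nat_lit 0) .nil)))))))) (.g (nat_lit 0) .nil .nil))) 
(.lf (nat_lit 125856) (.g (nat_lit 1586) (.e (nat_lit 7271) (nat_lit 385) (.e (nat_lit 122914) (nat_lit 14) (.e (nat_lit 352258) (nat_lit 0) (.e (nat_lit 7086) (nat_lit 379) (.e (nat_lit 123214) (nat_lit 275) (.e (nat_lit 73732) (nat_lit 0) .nil)))))) (.g (nat_lit 0) .nil .nil)))) (.nd (nat_lit 5) 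
(.lf (nat_lit 125840) (.g (nat_lit 3326) (.e (nat_lit 7271) (nat_lit 385) (.e (nat_lit 122911) (nat_lit 13) (.e (nat_lit 344117) (nat_lit 21) (.e (nat_lit 516165) (nat_lit 12) (.e (nat_lit 450586) (nat_lit 10) (.e (nat_lit 573475) (nat_lit 12) (.e (nat_lit 57356) (nat_lit 0) .nil))))))) (.g (nat_lit 0) .nil .nil))) 
(.lf (nat_lit 125872) (.g (nat_lit 3063) (.e (nat_lit 7271) (nat_lit 385) (.e (nat_lit 122914) (nat_lit 14) (.e (nat_lit 352277) (nat_lit 11) (.e (nat_lit 426342) (nat_lit 14) (.e (nat_lit 491560) (nat_lit 10) (.e (nat_lit 344097) (nat_lit 18) .nil)))))) (.g (nat_lit 6) .nil .nil))))) (.nd (nat_lit 4) (.nd (nat_lit 5) 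
(.lf (nat_lit 125832) (.g (nat_lit 2312) (.e (nat_lit 7271) (nat_lit 385) (.e (nat_lit 122903) (nat_lit 12) (.e (nat_lit 336224) (nat_lit 13) (.e (nat_lit 393301) (nat_lit 27) (.e (nat_lit 491560) (nat_lit 10) (.e (nat_lit 344099) (nat_lit 18) .nil)))))) (.g (nat_lit 0) .nil .nil))) 
(.lf (nat_lit 125864) (.g (nat_lit 1667) (.e (nat_lit 7271) (nat_lit 385) (.e (nat_lit 122914) (nat_lit 14) (.e (nat_lit 352276) (nat_lit 11) (.e (nat_lit 425989) (nat_lit 0) (.e (nat_lit 7592) (nat_lit 407) (.e (nat_lit 73732) (nat_lit 0) .nil)))))) (.g (nat_lit 0) .nil .nil)))) (.nd (nat_lit 5) 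
(.lf (nat_lit 125848) (.g (nat_lit 3601) (.e (nat_lit 7271) (nat_lit 385) (.e (nat_lit 122912) (nat_lit 13) (.e (nat_lit 344117) (nat_lit 21) (.e (nat_lit 516166) (nat_lit 12) (.e (nat_lit 450588) (nat_lit 10) (.e (nat_lit 573475) (nat_lit 12) (.e (nat_lit 57356) (nat_lit 0) .nil))))))) (.g (nat_lit 6) .nil .nil))) 
(.lf (nat_lit 125880) (.g (nat_lit 1708) (.e (nat_lit 7271) (nat_lit 385) (.e (nat_lit 122916) (nat_lit 14) (.e (nat_lit 352277) (nat_lit 11) (.e (nat_lit 426010) (nat_lit 0) (.e (nat_lit 7591) (nat_lit 407) (.e (nat_lit 73733) (nat_lit 0) .nil)))))) (.g (nat_lit 4) .nil .nil)))))) (.nd (nat_lit 3) (.nd (nat_lit 4) (.nd (nat_lit 5) 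
(.lf (nat_lit 125828) (.g (nat_lit 2399) (.e (nat_lit 7271) (nat_lit 385) (.e (nat_lit 122903) (nat_lit 12) (.e (nat_lit 336028) (nat_lit 3) (.e (nat_lit 98372) (nat_lit 29) (.e (nat_lit 450586) (nat_lit 10) (.e (nat_lit 573478) (nat_lit 12) (.e (nat_lit 57356) (nat_lit 0) .nil))))))) (.g (nat_lit 0) .nil .nil))) 
(.lf (nat_lit 125860) (.g (nat_lit 2023) (.e (nat_lit 7271) (nat_lit 385) (.e (nat_lit 122914) (nat_lit 14) (.e (nat_lit 352271) (nat_lit 9) (.e (nat_lit 409602) (nat_lit 0) (.e (nat_lit 5411) (nat_lit 303) (.e (nat_lit 73732) (nat_lit 0) .nil)))))) (.g (nat_lit 0) .nil .nil)))) (.nd (nat_lit 5) 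
(.lf (nat_lit 125844) (.g (nat_lit 4514) (.e (nat_lit 7271) (nat_lit 385) (.e (nat_lit 122912) (nat_lit 13) (.e (nat_lit 344117) (nat_lit 21) (.e (nat_lit 516151) (nat_lit 9) (.e (nat_lit 426286) (nat_lit 10) (.e (nat_lit 434245) (nat_lit 28) (.e (nat_lit 573474) (nat_lit 12) (.e (nat_lit 57356) (nat_lit 0) .nil)))))))) (.g (nat_lit 0) .nil .nil))) 
(.lf (nat_lit 125876) (.g (nat_lit 3172) (.e (nat_lit 7271) (nat_lit 385) (.e (nat_lit 122916) (nat_lit 14) (.e (nat_lit 352273) (nat_lit 11) (.e (nat_lit 426011) (nat_lit 0) (.e (nat_lit 7593) (nat_lit 407) (.e (nat_lit 73732) (nat_lit 0) .nil)))))) (.g (nat_lit 6) .nil .nil))))) (.nd (nat_lit 4) (.nd (nat_lit 5) 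
(.lf (nat_lit 125836) (.g (nat_lit 1660) (.e (nat_lit 7271) (nat_lit 385) (.e (nat_lit 122906) (nat_lit 12) (.e (nat_lit 336173) (nat_lit 10) (.e (nat_lit 344177) (nat_lit 43) (.e (nat_lit 770056) (nat_lit 5) (.e (nat_lit 1598) (nat_lit 111) (.e (nat_lit 360452) (nat_lit 0) .nil))))))) (.g (nat_lit 4) .nil .nil))) 
(.lf (nat_lit 125868) (.g (nat_lit 1564) (.e (nat_lit 7271) (nat_lit 385) (.e (nat_lit 122914) (nat_lit 14) (.e (nat_lit 352277) (nat_lit 11) (.e (nat_lit 426010) (nat_lit 0) (.e (nat_lit 7591) (nat_lit 407) (.e (nat_lit 73733) (nat_lit 0) .nil)))))) (.g (nat_lit 4) .nil .nil)))) (.nd (nat_lit 5) 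
(.lf (nat_lit 125852) (.g (nat_lit 1958) (.e (nat_lit 7271) (nat_lit 385) (.e (nat_lit 122913) (nat_lit 13) (.e (nat_lit 344117) (nat_lit 21) (.e (nat_lit 516165) (nat_lit 12) (.e (nat_lit 450586) (nat_lit 10) (.e (nat_lit 573478) (nat_lit 12) (.e (nat_lit 57344) (nat_lit 0) .nil))))))) (.g (nat_lit 4) .nil .nil))) 
(.lf (nat_lit 125884) (.g (nat_lit 1792) (.e (nat_lit 7271) (nat_lit 385) (.e (nat_lit 122916) (nat_lit 14) (.e (nat_lit 352277) (nat_lit 11) (.e (nat_lit 426012) (nat_lit 0) (.e (nat_lit 7591) (nat_lit 407) (.e (nat_lit 73732) (nat_lit 0) .nil)))))) (.g (nat_lit 4) .nil .nil))))))) (.nd (nat_lit 2) (.nd (nat_lit 3) (.nd (nat_lit 4) (.nd (nat_lit 5) 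
(.lf (nat_lit 125826) (.g (nat_lit 3786) (.e (nat_lit 7271) (nat_lit 385) (.e (nat_lit 122903) (nat_lit 12) (.e (nat_lit 336028) (nat_lit 3) (.e (nat_lit 98359) (nat_lit 26) (.e (nat_lit 426286) (nat_lit 10) (.e (nat_lit 434248) (nat_lit 28) (.e (nat_lit 573475) (nat_lit 12) (.e (nat_lit 57356) (nat_lit 0) .nil)))))))) (.g (nat_lit 0) .nil .nil))) 
(.lf (nat_lit 125858) (.g (nat_lit 1654) (.e (nat_lit 7271) (nat_lit 385) (.e (nat_lit 122914) (nat_lit 14) (.e (nat_lit 352258) (nat_lit 0) (.e (nat_lit 7089) (nat_lit 379) (.e (nat_lit 123214) (nat_lit 275) (.e (nat_lit 73732) (nat_lit 0) .nil)))))) (.g (nat_lit 0) .nil .nil)))) (.nd (nat_lit 5) 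
(.lf (nat_lit 125842) (.g (nat_lit 2816) (.e (nat_lit 7271) (nat_lit 385) (.e (nat_lit 122911) (nat_lit 13) (.e (nat_lit 344117) (nat_lit 21) (.e (nat_lit 516166) (nat_lit 12) (.e (nat_lit 450587) (nat_lit 10) (.e (nat_lit 573478) (nat_lit 12) (.e (nat_lit 57356) (nat_lit 0) .nil))))))) (.g (nat_lit 0) .nil .nil))) 
(.lf (nat_lit 125874) (.g (nat_lit 3347) (.e (nat_lit 7271) (nat_lit 385) (.e (nat_lit 122914) (nat_lit 14) (.e (nat_lit 352277) (nat_lit 11) (.e (nat_lit 426344) (nat_lit 14) (.e (nat_lit 491560) (nat_lit 10) (.e (nat_lit 344097) (nat_lit 18) .nil)))))) (.g (nat_lit 6) .nil .nil))))) (.nd (nat_lit 4) (.nd (nat_lit 5) 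
(.lf (nat_lit 125834) (.g (nat_lit 2085) (.e (nat_lit 7271) (nat_lit 385) (.e (nat_lit 122906) (nat_lit 12) (.e (nat_lit 336060) (nat_lit 7) (.e (nat_lit 319533) (nat_lit 16) (.e (nat_lit 286753) (nat_lit 10) (.e (nat_lit 344160) (nat_lit 37) (.e (nat_lit 647201) (nat_lit 12) (.e (nat_lit 57357) (nat_lit 0) .nil)))))))) (.g (nat_lit 5) .nil .nil))) 
(.lf (nat_lit 125866) (.g (nat_lit 2500) (.e (nat_lit 7271) (nat_lit 385) (.e (nat_lit 122914) (nat_lit 14) (.e (nat_lit 352277) (nat_lit 11) (.e (nat_lit 426009) (nat_lit 0) (.e (nat_lit 7593) (nat_lit 407) (.e (nat_lit 73732) (nat_lit 0) .nil)))))) (.g (nat_lit 0) .nil .nil)))) (.nd (nat_lit 5) 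
(.lf (nat_lit 125850) (.g (nat_lit 2362) (.e (nat_lit 7271) (nat_lit 385) (.e (nat_lit 122913) (nat_lit 13) (.e (nat_lit 344117) (nat_lit 21) (.e (nat_lit 516151) (nat_lit 9) (.e (nat_lit 426286) (nat_lit 10) (.e (nat_lit 434247) (nat_lit 28) (.e (nat_lit 573478) (nat_lit 12) (.e (nat_lit 57344) (nat_lit 0) .nil)))))))) (.g (nat_lit 5) .nil .nil))) 
(.lf (nat_lit 125882) (.g (nat_lit 2590) (.e (nat_lit 7271) (nat_lit 385) (.e (nat_lit 122916) (nat_lit 14) (.e (nat_lit 352277) (nat_lit 11) (.e (nat_lit 426011) (nat_lit 0) (.e (nat_lit 7591) (nat_lit 407) (.e (nat_lit 73733) (nat_lit 0) .nil)))))) (.g (nat_lit 5) .nil .nil)))))) (.nd (nat_lit 3) (.nd (nat_lit 4) (.nd (nat_lit 5) 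
(.lf (nat_lit 125830) (.g (nat_lit 3673) (.e (nat_lit 7271) (nat_lit 385) (.e (nat_lit 122903) (nat_lit 12) (.e (nat_lit 336028) (nat_lit 3) (.e (nat_lit 98373) (nat_lit 29) (.e (nat_lit 450588) (nat_lit 10) (.e (nat_lit 573475) (nat_lit 12) (.e (nat_lit 57356) (nat_lit 0) .nil))))))) (.g (nat_lit 0) .nil .nil))) 
(.lf (nat_lit 125862) (.g (nat_lit 1703) (.e (nat_lit 7271) (nat_lit 385) (.e (nat_lit 122914) (nat_lit 14) (.e (nat_lit 352276) (nat_lit 11) (.e (nat_lit 425984) (nat_lit 0) (.e (nat_lit 7592) (nat_lit 407) (.e (nat_lit 73732) (nat_lit 0) .nil)))))) (.g (nat_lit 0) .nil .nil)))) (.nd (nat_lit 5) 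
(.lf (nat_lit 125846) (.g (nat_lit 3087) (.e (nat_lit 7271) (nat_lit 385) (.e (nat_lit 122912) (nat_lit 13) (.e (nat_lit 344117) (nat_lit 21) (.e (nat_lit 516165) (nat_lit 12) (.e (nat_lit 450586) (nat_lit 10) (.e (nat_lit 573478) (nat_lit 12) (.e (nat_lit 57356) (nat_lit 0) .nil))))))) (.g (nat_lit 6) .nil .nil))) 
(.lf (nat_lit 125878) (.g (nat_lit 2669) (.e (nat_lit 7271) (nat_lit 385) (.e (nat_lit 122916) (nat_lit 14) (.e (nat_lit 352277) (nat_lit 11) (.e (nat_lit 426009) (nat_lit 0) (.e (nat_lit 7593) (nat_lit 407) (.e (nat_lit 73732) (nat_lit 0) .nil)))))) (.g (nat_lit 0) .nil .nil))))) (.nd (nat_lit 4) (.nd (nat_lit 5) 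
(.lf (nat_lit 125838) (.g (nat_lit 3383) (.e (nat_lit 7271) (nat_lit 385) (.e (nat_lit 122911) (nat_lit 13) (.e (nat_lit 344117) (nat_lit 21) (.e (nat_lit 516151) (nat_lit 9) (.e (nat_lit 426286) (nat_lit 10) (.e (nat_lit 434247) (nat_lit 28) (.e (nat_lit 573478) (nat_lit 12) (.e (nat_lit 57356) (nat_lit 0) .nil)))))))) (.g (nat_lit 0) .nil .nil))) 
(.lf (nat_lit 125870) (.g (nat_lit 3513) (.e (nat_lit 7271) (nat_lit 385) (.e (nat_lit 122914) (nat_lit 14) (.e (nat_lit 352277) (nat_lit 11) (.e (nat_lit 426011) (nat_lit 0) (.e (nat_lit 7593) (nat_lit 407) (.e (nat_lit 73732) (nat_lit 0) .nil)))))) (.g (nat_lit 0) .nil .nil)))) (.nd (nat_lit 5) 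
(.lf (nat_lit 125854) (.g (nat_lit 2949) (.e (nat_lit 7271) (nat_lit 385) (.e (nat_lit 122913) (nat_lit 13) (.e (nat_lit 344117) (nat_lit 21) (.e (nat_lit 516166) (nat_lit 12) (.e (nat_lit 450588) (nat_lit 10) (.e (nat_lit 573475) (nat_lit 12) (.e (nat_lit 57354) (nat_lit 0) .nil))))))) (.g (nat_lit 5) .nil .nil))) 
(.lf (nat_lit 125886) (.g (nat_lit 3245) (.e (nat_lit 7271) (nat_lit 385) (.e (nat_lit 122916) (nat_lit 14) (.e (nat_lit 352277) (nat_lit 11) (.e (nat_lit 426012) (nat_lit 0) (.e (nat_lit 7593) (nat_lit 407) (.e (nat_lit 73732) (nat_lit 0) .nil)))))) (.g (nat_lit 0) .nil .nil)))))))) (.nd (nat_lit 1) (.nd (nat_lit 2) (.nd (nat_lit 3) (.nd (nat_lit 4) (.nd (nat_lit 5) 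
(.lf (nat_lit 125825) (.g (nat_lit 3010) (.e (nat_lit 7271) (nat_lit 385) (.e (nat_lit 122903) (nat_lit 12) (.e (nat_lit 336028) (nat_lit 3) (.e (nat_lit 98359) (nat_lit 26) (.e (nat_lit 426286) (nat_lit 10) (.e (nat_lit 434247) (nat_lit 28) (.e (nat_lit 573478) (nat_lit 12) (.e (nat_lit 57356) (nat_lit 0) .nil)))))))) (.g (nat_lit 0) .nil .nil))) 
(.lf (nat_lit 125857) (.g (nat_lit 1642) (.e (nat_lit 7271) (nat_lit 385) (.e (nat_lit 122914) (nat_lit 14) (.e (nat_lit 352258) (nat_lit 0) (.e (nat_lit 7088) (nat_lit 379) (.e (nat_lit 123214) (nat_lit 275) (.e (nat_lit 73732) (nat_lit 0) .nil)))))) (.g (nat_lit 0) .nil .nil)))) (.nd (nat_lit 5) 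
(.lf (nat_lit 125841) (.g (nat_lit 2774) (.e (nat_lit 7271) (nat_lit 385) (.e (nat_lit 122911) (nat_lit 13) (.e (nat_lit 344117) (nat_lit 21) (.e (nat_lit 516165) (nat_lit 12) (.e (nat_lit 450586) (nat_lit 10) (.e (nat_lit 573478) (nat_lit 12) (.e (nat_lit 57356) (nat_lit 0) .nil))))))) (.g (nat_lit 0) .nil .nil))) 
(.lf (nat_lit 125873) (.g (nat_lit 3547) (.e (nat_lit 7271) (nat_lit 385) (.e (nat_lit 122914) (nat_lit 14) (.e (nat_lit 352277) (nat_lit 11) (.e (nat_lit 426343) (nat_lit 14) (.e (nat_lit 491560) (nat_lit 10) (.e (nat_lit 344097) (nat_lit 18) .nil)))))) (.g (nat_lit 6) .nil .nil))))) (.nd (nat_lit 4) (.nd (nat_lit 5) 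
(.lf (nat_lit 125833) (.g (nat_lit 2151) (.e (nat_lit 7271) (nat_lit 385) (.e (nat_lit 122905) (nat_lit 12) (.e (nat_lit 336060) (nat_lit 7) (.e (nat_lit 319533) (nat_lit 16) (.e (nat_lit 286753) (nat_lit 10) (.e (nat_lit 344160) (nat_lit 37) (.e (nat_lit 647201) (nat_lit 12) (.e (nat_lit 57357) (nat_lit 0) .nil)))))))) (.g (nat_lit 4) .nil .nil))) 
(.lf (nat_lit 125865) (.g (nat_lit 1615) (.e (nat_lit 7271) (nat_lit 385) (.e (nat_lit 122914) (nat_lit 14) (.e (nat_lit 352276) (nat_lit 11) (.e (nat_lit 425990) (nat_lit 0) (.e (nat_lit 7592) (nat_lit 407) (.e (nat_lit 73732) (nat_lit 0) .nil)))))) (.g (nat_lit 0) .nil .nil)))) (.nd (nat_lit 5) 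
(.lf (nat_lit 125849) (.g (nat_lit 4405) (.e (nat_lit 7271) (nat_lit 385) (.e (nat_lit 122913) (nat_lit 13) (.e (nat_lit 344117) (nat_lit 21) (.e (nat_lit 516151) (nat_lit 9) (.e (nat_lit 426286) (nat_lit 10) (.e (nat_lit 434245) (nat_lit 28) (.e (nat_lit 573474) (nat_lit 12) (.e (nat_lit 57356) (nat_lit 0) .nil)))))))) (.g (nat_lit 0) .nil .nil))) 
(.lf (nat_lit 125881) (.g (nat_lit 2840) (.e (nat_lit 7271) (nat_lit 385) (.e (nat_lit 122916) (nat_lit 14) (.e (nat_lit 352277) (nat_lit 11) (.e (nat_lit 426010) (nat_lit 0) (.e (nat_lit 7593) (nat_lit 407) (.e (nat_lit 73732) (nat_lit 0) .nil)))))) (.g (nat_lit 0) .nil .nil)))))) (.nd (nat_lit 3) (.nd (nat_lit 4) (.nd (nat_lit 5) 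
(.lf (nat_lit 125829) (.g (nat_lit 2943) (.e (nat_lit 7271) (nat_lit 385) (.e (nat_lit 122903) (nat_lit 12) (.e (nat_lit 336028) (nat_lit 3) (.e (nat_lit 98373) (nat_lit 29) (.e (nat_lit 450587) (nat_lit 10) (.e (nat_lit 573478) (nat_lit 12) (.e (nat_lit 57356) (nat_lit 0) .nil))))))) (.g (nat_lit 0) .nil .nil))) 
(.lf (nat_lit 125861) (.g (nat_lit 1644) (.e (nat_lit 7271) (nat_lit 385) (.e (nat_lit 122914) (nat_lit 14) (.e (nat_lit 352271) (nat_lit 9) (.e (nat_lit 409604) (nat_lit 0) (.e (nat_lit 5411) (nat_lit 303) (.e (nat_lit 73732) (nat_lit 0) .nil)))))) (.g (nat_lit 0) .nil .nil)))) (.nd (nat_lit 5) 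
(.lf (nat_lit 125845) (.g (nat_lit 3641) (.e (nat_lit 7271) (nat_lit 385) (.e (nat_lit 122912) (nat_lit 13) (.e (nat_lit 344117) (nat_lit 21) (.e (nat_lit 516165) (nat_lit 12) (.e (nat_lit 450586) (nat_lit 10) (.e (nat_lit 573475) (nat_lit 12) (.e (nat_lit 57356) (nat_lit 0) .nil))))))) (.g (nat_lit 6) .nil .nil))) 
(.lf (nat_lit 125877) (.g (nat_lit 2371) (.e (nat_lit 7271) (nat_lit 385) (.e (nat_lit 122916) (nat_lit 14) (.e (nat_lit 352273) (nat_lit 11) (.e (nat_lit 426012) (nat_lit 0) (.e (nat_lit 7593) (nat_lit 407) (.e (nat_lit 73732) (nat_lit 0) .nil)))))) (.g (nat_lit 5) .nil .nil))))) (.nd (nat_lit 4) (.nd (nat_lit 5) 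
(.lf (nat_lit 125837) (.g (nat_lit 4243) (.e (nat_lit 7271) (nat_lit 385) (.e (nat_lit 122911) (nat_lit 13) (.e (nat_lit 344117) (nat_lit 21) (.e (nat_lit 516151) (nat_lit 9) (.e (nat_lit 426286) (nat_lit 10) (.e (nat_lit 434245) (nat_lit 28) (.e (nat_lit 573474) (nat_lit 12) (.e (nat_lit 57356) (nat_lit 0) .nil)))))))) (.g (nat_lit 0) .nil .nil))) 
(.lf (nat_lit 125869) (.g (nat_lit 2659) (.e (nat_lit 7271) (nat_lit 385) (.e (nat_lit 122914) (nat_lit 14) (.e (nat_lit 352277) (nat_lit 11) (.e (nat_lit 426010) (nat_lit 0) (.e (nat_lit 7593) (nat_lit 407) (.e (nat_lit 73732) (nat_lit 0) .nil)))))) (.g (nat_lit 0) .nil .nil)))) (.nd (nat_lit 5) 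
(.lf (nat_lit 125853) (.g (nat_lit 1942) (.e (nat_lit 7271) (nat_lit 385) (.e (nat_lit 122913) (nat_lit 13) (.e (nat_lit 344117) (nat_lit 21) (.e (nat_lit 516166) (nat_lit 12) (.e (nat_lit 450587) (nat_lit 10) (.e (nat_lit 573478) (nat_lit 12) (.e (nat_lit 57344) (nat_lit 0) .nil))))))) (.g (nat_lit 4) .nil .nil))) 
(.lf (nat_lit 125885) (.g (nat_lit 2092) (.e (nat_lit 7271) (nat_lit 385) (.e (nat_lit 122916) (nat_lit 14) (.e (nat_lit 352277) (nat_lit 11) (.e (nat_lit 426012) (nat_lit 0) (.e (nat_lit 7591) (nat_lit 407) (.e (nat_lit 73733) (nat_lit 0) .nil)))))) (.g (nat_lit 4) .nil .nil))))))) (.nd (nat_lit 2) (.nd (nat_lit 3) (.nd (nat_lit 4) (.nd (nat_lit 5) 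
(.lf (nat_lit 125827) (.g (nat_lit 2958) (.e (nat_lit 7271) (nat_lit 385) (.e (nat_lit 122903) (nat_lit 12) (.e (nat_lit 336028) (nat_lit 3) (.e (nat_lit 98372) (nat_lit 29) (.e (nat_lit 450586) (nat_lit 10) (.e (nat_lit 573475) (nat_lit 12) (.e (nat_lit 57356) (nat_lit 0) .nil))))))) (.g (nat_lit 0) .nil .nil))) 
(.lf (nat_lit 125859) (.g (nat_lit 257) (.e (nat_lit 7271) (nat_lit 385) (.e (nat_lit 122914) (nat_lit 14) (.e (nat_lit 360192) (nat_lit 0) .nil))) .nil))) (.nd (nat_lit 5) 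
(.lf (nat_lit 125843) (.g (nat_lit 3648) (.e (nat_lit 7271) (nat_lit 385) (.e (nat_lit 122911) (nat_lit 13) (.e (nat_lit 344117) (nat_lit 21) (.e (nat_lit 516166) (nat_lit 12) (.e (nat_lit 450588) (nat_lit 10) (.e (nat_lit 573475) (nat_lit 12) (.e (nat_lit 57356) (nat_lit 0) .nil))))))) (.g (nat_lit 0) .nil .nil))) 
(.lf (nat_lit 125875) (.g (nat_lit 2348) (.e (nat_lit 7271) (nat_lit 385) (.e (nat_lit 122915) (nat_lit 14) (.e (nat_lit 352277) (nat_lit 11) (.e (nat_lit 426344) (nat_lit 14) (.e (nat_lit 491560) (nat_lit 10) (.e (nat_lit 344099) (nat_lit 18) .nil)))))) (.g (nat_lit 5) .nil .nil))))) (.nd (nat_lit 4) (.nd (nat_lit 5) 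
(.lf (nat_lit 125835) (.g (nat_lit 1592) (.e (nat_lit 7271) (nat_lit 385) (.e (nat_lit 122906) (nat_lit 12) (.e (nat_lit 336173) (nat_lit 10) (.e (nat_lit 344177) (nat_lit 43) (.e (nat_lit 770055) (nat_lit 5) (.e (nat_lit 1598) (nat_lit 111) (.e (nat_lit 360452) (nat_lit 0) .nil))))))) (.g (nat_lit 4) .nil .nil))) 
(.lf (nat_lit 125867) (.g (nat_lit 1476) (.e (nat_lit 7271) (nat_lit 385) (.e (nat_lit 122914) (nat_lit 14) (.e (nat_lit 352277) (nat_lit 11) (.e (nat_lit 426010) (nat_lit 0) (.e (nat_lit 7591) (nat_lit 407) (.e (nat_lit 73732) (nat_lit 0) .nil)))))) (.g (nat_lit 4) .nil .nil)))) (.nd (nat_lit 5) 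
(.lf (nat_lit 125851) (.g (nat_lit 3322) (.e (nat_lit 7271) (nat_lit 385) (.e (nat_lit 122913) (nat_lit 13) (.e (nat_lit 344117) (nat_lit 21) (.e (nat_lit 516151) (nat_lit 9) (.e (nat_lit 426286) (nat_lit 10) (.e (nat_lit 434248) (nat_lit 28) (.e (nat_lit 573475) (nat_lit 12) (.e (nat_lit 57354) (nat_lit 0) .nil)))))))) (.g (nat_lit 6) .nil .nil))) 
(.lf (nat_lit 125883) (.g (nat_lit 3661) (.e (nat_lit 7271) (nat_lit 385) (.e (nat_lit 122916) (nat_lit 14) (.e (nat_lit 352277) (nat_lit 11) (.e (nat_lit 426011) (nat_lit 0) (.e (nat_lit 7593) (nat_lit 407) (.e (nat_lit 73732) (nat_lit 0) .nil)))))) (.g (nat_lit 0) .nil .nil)))))) (.nd (nat_lit 3) (.nd (nat_lit 4) (.nd (nat_lit 5) 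
(.lf (nat_lit 125831) (.g (nat_lit 2332) (.e (nat_lit 7271) (nat_lit 385) (.e (nat_lit 122903) (nat_lit 12) (.e (nat_lit 336224) (nat_lit 13) (.e (nat_lit 393234) (nat_lit 17) (.e (nat_lit 7593) (nat_lit 407) (.e (nat_lit 73732) (nat_lit 0) .nil)))))) (.g (nat_lit 0) .nil .nil))) 
(.lf (nat_lit 125863) (.g (nat_lit 1665) (.e (nat_lit 7271) (nat_lit 385) (.e (nat_lit 122914) (nat_lit 14) (.e (nat_lit 352276) (nat_lit 11) (.e (nat_lit 425987) (nat_lit 0) (.e (nat_lit 7592) (nat_lit 407) (.e (nat_lit 73732) (nat_lit 0) .nil)))))) (.g (nat_lit 0) .nil .nil)))) (.nd (nat_lit 5) 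
(.lf (nat_lit 125847) (.g (nat_lit 3232) (.e (nat_lit 7271) (nat_lit 385) (.e (nat_lit 122912) (nat_lit 13) (.e (nat_lit 344117) (nat_lit 21) (.e (nat_lit 516166) (nat_lit 12) (.e (nat_lit 450587) (nat_lit 10) (.e (nat_lit 573478) (nat_lit 12) (.e (nat_lit 57356) (nat_lit 0) .nil))))))) (.g (nat_lit 6) .nil .nil))) 
(.lf (nat_lit 125879) (.g (nat_lit 1660) (.e (nat_lit 7271) (nat_lit 385) (.e (nat_lit 122916) (nat_lit 14) (.e (nat_lit 352277) (nat_lit 11) (.e (nat_lit 426010) (nat_lit 0) (.e (nat_lit 7591) (nat_lit 407) (.e (nat_lit 73732) (nat_lit 0) .nil)))))) (.g (nat_lit 4) .nil .nil))))) (.nd (nat_lit 4) (.nd (nat_lit 5) 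
(.lf (nat_lit 125839) (.g (nat_lit 4161) (.e (nat_lit 7271) (nat_lit 385) (.e (nat_lit 122911) (nat_lit 13) (.e (nat_lit 344117) (nat_lit 21) (.e (nat_lit 516151) (nat_lit 9) (.e (nat_lit 426286) (nat_lit 10) (.e (nat_lit 434248) (nat_lit 28) (.e (nat_lit 573475) (nat_lit 12) (.e (nat_lit 57356) (nat_lit 0) .nil)))))))) (.g (nat_lit 0) .nil .nil))) 
(.lf (nat_lit 125871) (.g (nat_lit 3093) (.e (nat_lit 7271) (nat_lit 385) (.e (nat_lit 122914) (nat_lit 14) (.e (nat_lit 352277) (nat_lit 11) (.e (nat_lit 426012) (nat_lit 0) (.e (nat_lit 7593) (nat_lit 407) (.e (nat_lit 73732) (nat_lit 0) .nil)))))) (.g (nat_lit 0) .nil .nil)))) (.nd (nat_lit 5) 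
(.lf (nat_lit 125855) (.g (nat_lit 1646) (.e (nat_lit 7271) (nat_lit 385) (.e (nat_lit 122914) (nat_lit 14) (.e (nat_lit 352257) (nat_lit 0) (.e (nat_lit 7081) (nat_lit 378) (.e (nat_lit 57898) (nat_lit 275) (.e (nat_lit 73732) (nat_lit 0) .nil)))))) (.g (nat_lit 0) .nil .nil))) 
(.lf (nat_lit 125887) (.g (nat_lit 3211) (.e (nat_lit 7271) (nat_lit 385) (.e (nat_lit 122916) (nat_lit 14) (.e (nat_lit 352277) (nat_lit 11) (.e (nat_lit 426342) (nat_lit 14) (.e (nat_lit 491560) (nat_lit 10) (.e (nat_lit 344097) (nat_lit 18) .nil)))))) (.g (nat_lit 6) .nil .nil)))))))))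

noncomputable def tv1690 : DT := (.nd (nat_lit 0) (.nd (nat_lit 1) (.nd (nat_lit 2) (.nd (nat_lit 3) (.nd (nat_lit 4) (.nd (nat_lit 5) 
(.lf (nat_lit 125888) (.g (nat_lit 3671) (.e (nat_lit 7271) (nat_lit 385) (.e (nat_lit 122916) (nat_lit 14) (.e (nat_lit 352277) (nat_lit 11) (.e (nat_lit 426343) (nat_lit 14) (.e (nat_lit 491560) (nat_lit 10) (.e (nat_lit 344097) (nat_lit 18) .nil)))))) (.g (nat_lit 6) .nil .nil))) 
(.lf (nat_lit 125920) (.g (nat_lit 3016) (.e (nat_lit 7271) (nat_lit 385) (.e (nat_lit 122916) (nat_lit 14) (.e (nat_lit 352324) (nat_lit 26) (.e (nat_lit 147466) (nat_lit 9) (.e (nat_lit 324) (nat_lit 24) (.e (nat_lit 360452) (nat_lit 0) .nil)))))) (.g (nat_lit 6) .nil .nil)))) (.nd (nat_lit 5) 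
(.lf (nat_lit 125904) (.g (nat_lit 1199) (.e (nat_lit 7271) (nat_lit 385) (.e (nat_lit 122916) (nat_lit 14) (.e (nat_lit 352309) (nat_lit 21) (.e (nat_lit 57682) (nat_lit 155) .nil)))) .nil)) 
(.lf (nat_lit 125936) (.g (nat_lit 2021) (.e (nat_lit 7271) (nat_lit 385) (.e (nat_lit 122917) (nat_lit 15) (.e (nat_lit 360450) (nat_lit 0) (.e (nat_lit 7122) (nat_lit 382) (.e (nat_lit 1201) (nat_lit 88) .nil))))) .nil)))) (.nd (nat_lit 4) (.nd (nat_lit 5) 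
(.lf (nat_lit 125896) (.g (nat_lit 2133) (.e (nat_lit 7271) (nat_lit 385) (.e (nat_lit 122916) (nat_lit 14) (.e (nat_lit 352309) (nat_lit 21) (.e (nat_lit 57666) (nat_lit 152) (.e (nat_lit 1077) (nat_lit 81) .nil))))) .nil)) 
(.lf (nat_lit 125928) (.g (nat_lit 1949) (.e (nat_lit 7271) (nat_lit 385) (.e (nat_lit 122916) (nat_lit 14) (.e (nat_lit 352324) (nat_lit 26) (.e (nat_lit 147495) (nat_lit 11) (.e (nat_lit 24644) (nat_lit 11) (.e (nat_lit 368662) (nat_lit 18) .nil)))))) (.g (nat_lit 4) .nil .nil)))) (.nd (nat_lit 5) 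
(.lf (nat_lit 125912) (.g (nat_lit 2709) (.e (nat_lit 7271) (nat_lit 385) (.e (nat_lit 122916) (nat_lit 14) (.e (nat_lit 352322) (nat_lit 26) (.e (nat_lit 147495) (nat_lit 11) (.e (nat_lit 24639) (nat_lit 10) (.e (nat_lit 344097) (nat_lit 18) .nil)))))) (.g (nat_lit 5) .nil .nil))) 
(.lf (nat_lit 125944) (.g (nat_lit 3259) (.e (nat_lit 7271) (nat_lit 385) (.e (nat_lit 122917) (nat_lit 15) (.e (nat_lit 360452) (nat_lit 0) (.e (nat_lit 7272) (nat_lit 385) (.e (nat_lit 122917) (nat_lit 15) (.e (nat_lit 360452) (nat_lit 0) .nil)))))) (.g (nat_lit 0) .nil .nil)))))) (.nd (nat_lit 3) (.nd (nat_lit 4) (.nd (nat_lit 5) 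
(.lf (nat_lit 125892) (.g (nat_lit 2093) (.e (nat_lit 7271) (nat_lit 385) (.e (nat_lit 122916) (nat_lit 14) (.e (nat_lit 352307) (nat_lit 21) (.e (nat_lit 57683) (nat_lit 155) (.e (nat_lit 122919) (nat_lit 15) (.e (nat_lit 360452) (nat_lit 0) .nil)))))) (.g (nat_lit 4) .nil .nil))) 
(.lf (nat_lit 125924) (.g (nat_lit 1505) (.e (nat_lit 7271) (nat_lit 385) (.e (nat_lit 122916) (nat_lit 14) (.e (nat_lit 352324) (nat_lit 26) (.e (nat_lit 147494) (nat_lit 11) (.e (nat_lit 24646) (nat_lit 11) .nil))))) .nil))) (.nd (nat_lit 5) 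
(.lf (nat_lit 125908) (.g (nat_lit 3174) (.e (nat_lit 7271) (nat_lit 385) (.e (nat_lit 122916) (nat_lit 14) (.e (nat_lit 352309) (nat_lit 21) (.e (nat_lit 57683) (nat_lit 155) (.e (nat_lit 122919) (nat_lit 15) (.e (nat_lit 360452) (nat_lit 0) .nil)))))) (.g (nat_lit 6) .nil .nil))) 
(.lf (nat_lit 125940) (.g (nat_lit 1415) (.e (nat_lit 7271) (nat_lit 385) (.e (nat_lit 122917) (nat_lit 15) (.e (nat_lit 360452) (nat_lit 0) (.e (nat_lit 7270) (nat_lit 385) (.e (nat_lit 122917) (nat_lit 15) .nil))))) .nil)))) (.nd (nat_lit 4) (.nd (nat_lit 5) 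
(.lf (nat_lit 125900) (.g (nat_lit 3277) (.e (nat_lit 7271) (nat_lit 385) (.e (nat_lit 122916) (nat_lit 14) (.e (nat_lit 352309) (nat_lit 21) (.e (nat_lit 57680) (nat_lit 155) (.e (nat_lit 122917) (nat_lit 15) (.e (nat_lit 360452) (nat_lit 0) .nil)))))) (.g (nat_lit 0) .nil .nil))) 
(.lf (nat_lit 125932) (.g (nat_lit 1917) (.e (nat_lit 7271) (nat_lit 385) (.e (nat_lit 122916) (nat_lit 14) (.e (nat_lit 352324) (nat_lit 26) (.e (nat_lit 147496) (nat_lit 11) (.e (nat_lit 24644) (nat_lit 11) (.e (nat_lit 368662) (nat_lit 18) .nil)))))) (.g (nat_lit 4) .nil .nil)))) (.nd (nat_lit 5) 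
(.lf (nat_lit 125916) (.g (nat_lit 2126) (.e (nat_lit 7271) (nat_lit 385) (.e (nat_lit 122916) (nat_lit 14) (.e (nat_lit 352322) (nat_lit 26) (.e (nat_lit 147496) (nat_lit 11) (.e (nat_lit 24639) (nat_lit 10) (.e (nat_lit 344097) (nat_lit 18) .nil)))))) (.g (nat_lit 4) .nil .nil))) 
(.lf (nat_lit 125948) (.g (nat_lit 2448) (.e (nat_lit 7271) (nat_lit 385) (.e (nat_lit 122917) (nat_lit 15) (.e (nat_lit 360453) (nat_lit 0) (.e (nat_lit 7273) (nat_lit 385) (.e (nat_lit 122917) (nat_lit 15) (.e (nat_lit 360452) (nat_lit 0) .nil)))))) (.g (nat_lit 0) .nil .nil))))))) (.nd (nat_lit 2) (.nd (nat_lit 3) (.nd (nat_lit 4) (.nd (nat_lit 5) 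
(.lf (nat_lit 125890) (.g (nat_lit 3421) (.e (nat_lit 7271) (nat_lit 385) (.e (nat_lit 122916) (nat_lit 14) (.e (nat_lit 352277) (nat_lit 11) (.e (nat_lit 426344) (nat_lit 14) (.e (nat_lit 491560) (nat_lit 10) (.e (nat_lit 344097) (nat_lit 18) .nil)))))) (.g (nat_lit 6) .nil .nil))) 
(.lf (nat_lit 125922) (.g (nat_lit 1644) (.e (nat_lit 7271) (nat_lit 385) (.e (nat_lit 122916) (nat_lit 14) (.e (nat_lit 352324) (nat_lit 26) (.e (nat_lit 147494) (nat_lit 11) (.e (nat_lit 24643) (nat_lit 11) (.e (nat_lit 368662) (nat_lit 18) .nil)))))) (.g (nat_lit 4) .nil .nil)))) (.nd (nat_lit 5) 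
(.lf (nat_lit 125906) (.g (nat_lit 3767) (.e (nat_lit 7271) (nat_lit 385) (.e (nat_lit 122916) (nat_lit 14) (.e (nat_lit 352309) (nat_lit 21) (.e (nat_lit 57683) (nat_lit 155) (.e (nat_lit 122917) (nat_lit 15) (.e (nat_lit 360452) (nat_lit 0) .nil)))))) (.g (nat_lit 0) .nil .nil))) 
(.lf (nat_lit 125938) (.g (nat_lit 3561) (.e (nat_lit 7271) (nat_lit 385) (.e (nat_lit 122917) (nat_lit 15) (.e (nat_lit 360451) (nat_lit 0) (.e (nat_lit 7265) (nat_lit 384) (.e (nat_lit 57426) (nat_lit 15) (.e (nat_lit 360452) (nat_lit 0) .nil)))))) (.g (nat_lit 6) .nil .nil))))) (.nd (nat_lit 4) (.nd (nat_lit 5) 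
(.lf (nat_lit 125898) (.g (nat_lit 1834) (.e (nat_lit 7271) (nat_lit 385) (.e (nat_lit 122916) (nat_lit 14) (.e (nat_lit 352309) (nat_lit 21) (.e (nat_lit 57679) (nat_lit 153) (.e (nat_lit 8202) (nat_lit 0) .nil))))) .nil)) 
(.lf (nat_lit 125930) (.g (nat_lit 3390) (.e (nat_lit 7271) (nat_lit 385) (.e (nat_lit 122916) (nat_lit 14) (.e (nat_lit 352324) (nat_lit 26) (.e (nat_lit 147496) (nat_lit 11) (.e (nat_lit 24640) (nat_lit 10) (.e (nat_lit 344097) (nat_lit 18) .nil)))))) (.g (nat_lit 6) .nil .nil)))) (.nd (nat_lit 5) 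
(.lf (nat_lit 125914) (.g (nat_lit 1701) (.e (nat_lit 7271) (nat_lit 385) (.e (nat_lit 122916) (nat_lit 14) (.e (nat_lit 352322) (nat_lit 26) (.e (nat_lit 147495) (nat_lit 11) (.e (nat_lit 24643) (nat_lit 11) .nil))))) .nil)) 
(.lf (nat_lit 125946) (.g (nat_lit 3039) (.e (nat_lit 7271) (nat_lit 385) (.e (nat_lit 122917) (nat_lit 15) (.e (nat_lit 360453) (nat_lit 0) (.e (nat_lit 7270) (nat_lit 385) (.e (nat_lit 122917) (nat_lit 15) (.e (nat_lit 360452) (nat_lit 0) .nil)))))) (.g (nat_lit 5) .nil .nil)))))) (.nd (nat_lit 3) (.nd (nat_lit 4) (.nd (nat_lit 5) 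
(.lf (nat_lit 125894) (.g (nat_lit 938) (.e (nat_lit 7271) (nat_lit 385) (.e (nat_lit 122916) (nat_lit 14) (.e (nat_lit 352309) (nat_lit 21) (.e (nat_lit 57660) (nat_lit 152) .nil)))) .nil)) 
(.lf (nat_lit 125926) (.g (nat_lit 3542) (.e (nat_lit 7271) (nat_lit 385) (.e (nat_lit 122916) (nat_lit 14) (.e (nat_lit 352324) (nat_lit 26) (.e (nat_lit 147495) (nat_lit 11) (.e (nat_lit 24640) (nat_lit 10) (.e (nat_lit 344097) (nat_lit 18) .nil)))))) (.g (nat_lit 6) .nil .nil)))) (.nd (nat_lit 5) 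
(.lf (nat_lit 125910) (.g (nat_lit 3499) (.e (nat_lit 7271) (nat_lit 385) (.e (nat_lit 122916) (nat_lit 14) (.e (nat_lit 352309) (nat_lit 21) (.e (nat_lit 57684) (nat_lit 155) (.e (nat_lit 122917) (nat_lit 15) (.e (nat_lit 360452) (nat_lit 0) .nil)))))) (.g (nat_lit 0) .nil .nil))) 
(.lf (nat_lit 125942) (.g (nat_lit 840) (.e (nat_lit 7271) (nat_lit 385) (.e (nat_lit 122917) (nat_lit 15) (.e (nat_lit 360452) (nat_lit 0) (.e (nat_lit 7271) (nat_lit 385) .nil)))) .nil)))) (.nd (nat_lit 4) (.nd (nat_lit 5) 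
(.lf (nat_lit 125902) (.g (nat_lit 3896) (.e (nat_lit 7271) (nat_lit 385) (.e (nat_lit 122916) (nat_lit 14) (.e (nat_lit 352309) (nat_lit 21) (.e (nat_lit 57681) (nat_lit 155) (.e (nat_lit 122917) (nat_lit 15) (.e (nat_lit 360452) (nat_lit 0) .nil)))))) (.g (nat_lit 0) .nil .nil))) 
(.lf (nat_lit 125934) (.g (nat_lit 3602) (.e (nat_lit 7271) (nat_lit 385) (.e (nat_lit 122917) (nat_lit 15) (.e (nat_lit 360449) (nat_lit 0) (.e (nat_lit 7265) (nat_lit 384) (.e (nat_lit 57426) (nat_lit 15) (.e (nat_lit 360452) (nat_lit 0) .nil)))))) (.g (nat_lit 0) .nil .nil)))) (.nd (nat_lit 5) 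
(.lf (nat_lit 125918) (.g (nat_lit 1896) (.e (nat_lit 7271) (nat_lit 385) (.e (nat_lit 122916) (nat_lit 14) (.e (nat_lit 352322) (nat_lit 26) (.e (nat_lit 147496) (nat_lit 11) (.e (nat_lit 24643) (nat_lit 11) (.e (nat_lit 368662) (nat_lit 18) .nil)))))) (.g (nat_lit 4) .nil .nil))) 
(.lf (nat_lit 125950) (.g (nat_lit 2343) (.e (nat_lit 7271) (nat_lit 385) (.e (nat_lit 122917) (nat_lit 15) (.e (nat_lit 360488) (nat_lit 20) (.e (nat_lit 761868) (nat_lit 5) (.e (nat_lit 1597) (nat_lit 111) (.e (nat_lit 360452) (nat_lit 0) .nil)))))) (.g (nat_lit 0) .nil .nil)))))))) (.nd (nat_lit 1) (.nd (nat_lit 2) (.nd (nat_lit 3) (.nd (nat_lit 4) (.nd (nat_lit 5) 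
(.lf (nat_lit 125889) (.g (nat_lit 3013) (.e (nat_lit 7271) (nat_lit 385) (.e (nat_lit 122916) (nat_lit 14) (.e (nat_lit 352277) (nat_lit 11) (.e (nat_lit 426343) (nat_lit 14) (.e (nat_lit 491560) (nat_lit 10) (.e (nat_lit 344099) (nat_lit 18) .nil)))))) (.g (nat_lit 5) .nil .nil))) 
(.lf (nat_lit 125921) (.g (nat_lit 2114) (.e (nat_lit 7271) (nat_lit 385) (.e (nat_lit 122916) (nat_lit 14) (.e (nat_lit 352324) (nat_lit 26) (.e (nat_lit 147492) (nat_lit 11) (.e (nat_lit 24646) (nat_lit 11) (.e (nat_lit 368662) (nat_lit 18) .nil)))))) (.g (nat_lit 4) .nil .nil)))) (.nd (nat_lit 5) 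
(.lf (nat_lit 125905) (.g (nat_lit 2910) (.e (nat_lit 7271) (nat_lit 385) (.e (nat_lit 122916) (nat_lit 14) (.e (nat_lit 352309) (nat_lit 21) (.e (nat_lit 57682) (nat_lit 155) (.e (nat_lit 122917) (nat_lit 15) (.e (nat_lit 360452) (nat_lit 0) .nil)))))) (.g (nat_lit 0) .nil .nil))) 
(.lf (nat_lit 125937) (.g (nat_lit 1701) (.e (nat_lit 7271) (nat_lit 385) (.e (nat_lit 122917) (nat_lit 15) (.e (nat_lit 360451) (nat_lit 0) (.e (nat_lit 7263) (nat_lit 384) (.e (nat_lit 57426) (nat_lit 15) .nil))))) .nil)))) (.nd (nat_lit 4) (.nd (nat_lit 5) 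
(.lf (nat_lit 125897) (.g (nat_lit 2126) (.e (nat_lit 7271) (nat_lit 385) (.e (nat_lit 122916) (nat_lit 14) (.e (nat_lit 352309) (nat_lit 21) (.e (nat_lit 57666) (nat_lit 152) (.e (nat_lit 1078) (nat_lit 81) .nil))))) .nil)) 
(.lf (nat_lit 125929) (.g (nat_lit 2440) (.e (nat_lit 7271) (nat_lit 385) (.e (nat_lit 122916) (nat_lit 14) (.e (nat_lit 352324) (nat_lit 26) (.e (nat_lit 147496) (nat_lit 11) (.e (nat_lit 24639) (nat_lit 10) (.e (nat_lit 344097) (nat_lit 18) .nil)))))) (.g (nat_lit 5) .nil .nil)))) (.nd (nat_lit 5) 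
(.lf (nat_lit 125913) (.g (nat_lit 3495) (.e (nat_lit 7271) (nat_lit 385) (.e (nat_lit 122916) (nat_lit 14) (.e (nat_lit 352322) (nat_lit 26) (.e (nat_lit 147495) (nat_lit 11) (.e (nat_lit 24640) (nat_lit 10) (.e (nat_lit 344097) (nat_lit 18) .nil)))))) (.g (nat_lit 6) .nil .nil))) 
(.lf (nat_lit 125945) (.g (nat_lit 2515) (.e (nat_lit 7271) (nat_lit 385) (.e (nat_lit 122917) (nat_lit 15) (.e (nat_lit 360452) (nat_lit 0) (.e (nat_lit 7273) (nat_lit 385) (.e (nat_lit 122917) (nat_lit 15) (.e (nat_lit 360452) (nat_lit 0) .nil)))))) (.g (nat_lit 0) .nil .nil)))))) (.nd (nat_lit 3) (.nd (nat_lit 4) (.nd (nat_lit 5) 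
(.lf (nat_lit 125893) (.g (nat_lit 2381) (.e (nat_lit 7271) (nat_lit 385) (.e (nat_lit 122916) (nat_lit 14) (.e (nat_lit 352307) (nat_lit 21) (.e (nat_lit 57684) (nat_lit 155) (.e (nat_lit 122917) (nat_lit 15) (.e (nat_lit 360452) (nat_lit 0) .nil)))))) (.g (nat_lit 5) .nil .nil))) 
(.lf (nat_lit 125925) (.g (nat_lit 2762) (.e (nat_lit 7271) (nat_lit 385) (.e (nat_lit 122916) (nat_lit 14) (.e (nat_lit 352324) (nat_lit 26) (.e (nat_lit 147495) (nat_lit 11) (.e (nat_lit 24639) (nat_lit 10) (.e (nat_lit 344097) (nat_lit 18) .nil)))))) (.g (nat_lit 5) .nil .nil)))) (.nd (nat_lit 5) 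
(.lf (nat_lit 125909) (.g (nat_lit 1227) (.e (nat_lit 7271) (nat_lit 385) (.e (nat_lit 122916) (nat_lit 14) (.e (nat_lit 352309) (nat_lit 21) (.e (nat_lit 57684) (nat_lit 155) .nil)))) .nil)) 
(.lf (nat_lit 125941) (.g (nat_lit 3451) (.e (nat_lit 7271) (nat_lit 385) (.e (nat_lit 122917) (nat_lit 15) (.e (nat_lit 360452) (nat_lit 0) (.e (nat_lit 7270) (nat_lit 385) (.e (nat_lit 122917) (nat_lit 15) (.e (nat_lit 360452) (nat_lit 0) .nil)))))) (.g (nat_lit 0) .nil .nil))))) (.nd (nat_lit 4) (.nd (nat_lit 5) 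
(.lf (nat_lit 125901) (.g (nat_lit 2139) (.e (nat_lit 7271) (nat_lit 385) (.e (nat_lit 122916) (nat_lit 14) (.e (nat_lit 352309) (nat_lit 21) (.e (nat_lit 57680) (nat_lit 155) (.e (nat_lit 122919) (nat_lit 15) (.e (nat_lit 360453) (nat_lit 0) .nil)))))) (.g (nat_lit 4) .nil .nil))) 
(.lf (nat_lit 125933) (.g (nat_lit 2844) (.e (nat_lit 7271) (nat_lit 385) (.e (nat_lit 122917) (nat_lit 15) (.e (nat_lit 360449) (nat_lit 0) (.e (nat_lit 7261) (nat_lit 384) (.e (nat_lit 57426) (nat_lit 15) (.e (nat_lit 360452) (nat_lit 0) .nil)))))) (.g (nat_lit 0) .nil .nil)))) (.nd (nat_lit 5) 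
(.lf (nat_lit 125917) (.g (nat_lit 3477) (.e (nat_lit 7271) (nat_lit 385) (.e (nat_lit 122916) (nat_lit 14) (.e (nat_lit 352322) (nat_lit 26) (.e (nat_lit 147496) (nat_lit 11) (.e (nat_lit 24640) (nat_lit 10) (.e (nat_lit 344097) (nat_lit 18) .nil)))))) (.g (nat_lit 6) .nil .nil))) 
(.lf (nat_lit 125949) (.g (nat_lit 2321) (.e (nat_lit 7271) (nat_lit 385) (.e (nat_lit 122917) (nat_lit 15) (.e (nat_lit 360488) (nat_lit 20) (.e (nat_lit 761866) (nat_lit 5) (.e (nat_lit 1597) (nat_lit 111) (.e (nat_lit 360452) (nat_lit 0) .nil)))))) (.g (nat_lit 0) .nil .nil))))))) (.nd (nat_lit 2) (.nd (nat_lit 3) (.nd (nat_lit 4) (.nd (nat_lit 5) 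
(.lf (nat_lit 125891) (.g (nat_lit 2874) (.e (nat_lit 7271) (nat_lit 385) (.e (nat_lit 122916) (nat_lit 14) (.e (nat_lit 352307) (nat_lit 21) (.e (nat_lit 57683) (nat_lit 155) (.e (nat_lit 122917) (nat_lit 15) (.e (nat_lit 360452) (nat_lit 0) .nil)))))) (.g (nat_lit 5) .nil .nil))) 
(.lf (nat_lit 125923) (.g (nat_lit 1855) (.e (nat_lit 7271) (nat_lit 385) (.e (nat_lit 122916) (nat_lit 14) (.e (nat_lit 352324) (nat_lit 26) (.e (nat_lit 147494) (nat_lit 11) (.e (nat_lit 24644) (nat_lit 11) (.e (nat_lit 368662) (nat_lit 18) .nil)))))) (.g (nat_lit 4) .nil .nil)))) (.nd (nat_lit 5) 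
(.lf (nat_lit 125907) (.g (nat_lit 1811) (.e (nat_lit 7271) (nat_lit 385) (.e (nat_lit 122916) (nat_lit 14) (.e (nat_lit 352309) (nat_lit 21) (.e (nat_lit 57683) (nat_lit 155) (.e (nat_lit 122919) (nat_lit 15) .nil))))) .nil)) 
(.lf (nat_lit 125939) (.g (nat_lit 3329) (.e (nat_lit 7271) (nat_lit 385) (.e (nat_lit 122917) (nat_lit 15) (.e (nat_lit 360451) (nat_lit 0) (.e (nat_lit 7266) (nat_lit 384) (.e (nat_lit 57426) (nat_lit 15) (.e (nat_lit 360452) (nat_lit 0) .nil)))))) (.g (nat_lit 6) .nil .nil))))) (.nd (nat_lit 4) (.nd (nat_lit 5) 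
(.lf (nat_lit 125899) (.g (nat_lit 1268) (.e (nat_lit 7271) (nat_lit 385) (.e (nat_lit 122916) (nat_lit 14) (.e (nat_lit 352309) (nat_lit 21) (.e (nat_lit 57680) (nat_lit 155) .nil)))) .nil)) 
(.lf (nat_lit 125931) (.g (nat_lit 1826) (.e (nat_lit 7271) (nat_lit 385) (.e (nat_lit 122916) (nat_lit 14) (.e (nat_lit 352324) (nat_lit 26) (.e (nat_lit 147496) (nat_lit 11) (.e (nat_lit 24643) (nat_lit 11) (.e (nat_lit 368662) (nat_lit 18) .nil)))))) (.g (nat_lit 4) .nil .nil)))) (.nd (nat_lit 5) 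
(.lf (nat_lit 125915) (.g (nat_lit 1696) (.e (nat_lit 7271) (nat_lit 385) (.e (nat_lit 122916) (nat_lit 14) (.e (nat_lit 352322) (nat_lit 26) (.e (nat_lit 147495) (nat_lit 11) (.e (nat_lit 24644) (nat_lit 11) .nil))))) .nil)) 
(.lf (nat_lit 125947) (.g (nat_lit 2735) (.e (nat_lit 7271) (nat_lit 385) (.e (nat_lit 122917) (nat_lit 15) (.e (nat_lit 360453) (nat_lit 0) (.e (nat_lit 7272) (nat_lit 385) (.e (nat_lit 122917) (nat_lit 15) (.e (nat_lit 360452) (nat_lit 0) .nil)))))) (.g (nat_lit 6) .nil .nil)))))) (.nd (nat_lit 3) (.nd (nat_lit 4) (.nd (nat_lit 5) 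
(.lf (nat_lit 125895) (.g (nat_lit 1510) (.e (nat_lit 7271) (nat_lit 385) (.e (nat_lit 122916) (nat_lit 14) (.e (nat_lit 352309) (nat_lit 21) (.e (nat_lit 57666) (nat_lit 152) .nil)))) .nil)) 
(.lf (nat_lit 125927) (.g (nat_lit 1962) (.e (nat_lit 7271) (nat_lit 385) (.e (nat_lit 122916) (nat_lit 14) (.e (nat_lit 352324) (nat_lit 26) (.e (nat_lit 147495) (nat_lit 11) (.e (nat_lit 24643) (nat_lit 11) (.e (nat_lit 368662) (nat_lit 18) .nil)))))) (.g (nat_lit 4) .nil .nil)))) (.nd (nat_lit 5) 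
(.lf (nat_lit 125911) (.g (nat_lit 1861) (.e (nat_lit 7271) (nat_lit 385) (.e (nat_lit 122916) (nat_lit 14) (.e (nat_lit 352309) (nat_lit 21) (.e (nat_lit 57684) (nat_lit 155) (.e (nat_lit 122919) (nat_lit 15) .nil))))) .nil)) 
(.lf (nat_lit 125943) (.g (nat_lit 2628) (.e (nat_lit 7271) (nat_lit 385) (.e (nat_lit 122917) (nat_lit 15) (.e (nat_lit 360452) (nat_lit 0) (.e (nat_lit 7271) (nat_lit 385) (.e (nat_lit 122917) (nat_lit 15) (.e (nat_lit 360452) (nat_lit 0) .nil)))))) (.g (nat_lit 0) .nil .nil))))) (.nd (nat_lit 4) (.nd (nat_lit 5) 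
(.lf (nat_lit 125903) (.g (nat_lit 4672) (.e (nat_lit 7271) (nat_lit 385) (.e (nat_lit 122916) (nat_lit 14) (.e (nat_lit 352309) (nat_lit 21) (.e (nat_lit 57681) (nat_lit 155) (.e (nat_lit 122919) (nat_lit 15) (.e (nat_lit 360452) (nat_lit 0) .nil)))))) (.g (nat_lit 0) .nil .nil))) 
(.lf (nat_lit 125935) (.g (nat_lit 3330) (.e (nat_lit 7271) (nat_lit 385) (.e (nat_lit 122917) (nat_lit 15) (.e (nat_lit 360449) (nat_lit 0) (.e (nat_lit 7266) (nat_lit 384) (.e (nat_lit 57426) (nat_lit 15) (.e (nat_lit 360452) (nat_lit 0) .nil)))))) (.g (nat_lit 0) .nil .nil)))) (.nd (nat_lit 5) 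
(.lf (nat_lit 125919) (.g (nat_lit 1978) (.e (nat_lit 7271) (nat_lit 385) (.e (nat_lit 122916) (nat_lit 14) (.e (nat_lit 352322) (nat_lit 26) (.e (nat_lit 147496) (nat_lit 11) (.e (nat_lit 24644) (nat_lit 11) (.e (nat_lit 368662) (nat_lit 18) .nil)))))) (.g (nat_lit 4) .nil .nil))) 
(.lf (nat_lit 125951) (.g (nat_lit 2614) (.e (nat_lit 7271) (nat_lit 385) (.e (nat_lit 122917) (nat_lit 15) (.e (nat_lit 360489) (nat_lit 21) (.e (nat_lit 770055) (nat_lit 5) (.e (nat_lit 1598) (nat_lit 111) (.e (nat_lit 360452) (nat_lit 0) .nil)))))) (.g (nat_lit 0) .nil .nil)))))))))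

noncomputable def tv1691 : DT := (.nd (nat_lit 0) (.nd (nat_lit 1) (.nd (nat_lit 2) (.nd (nat_lit 3) (.nd (nat_lit 4) (.nd (nat_lit 5) 
(.lf (nat_lit 125952) (.g (nat_lit 2563) (.e (nat_lit 7271) (nat_lit 385) (.e (nat_lit 122917) (nat_lit 15) (.e (nat_lit 360489) (nat_lit 21) (.e (nat_lit 770056) (nat_lit 5) (.e (nat_lit 1598) (nat_lit 111) (.e (nat_lit 360452) (nat_lit 0) .nil)))))) (.g (nat_lit 0) .nil .nil))) 
(.lf (nat_lit 125984) (.g (nat_lit 1954) (.e (nat_lit 7271) (nat_lit 385) (.e (nat_lit 122919) (nat_lit 15) (.e (nat_lit 360489) (nat_lit 21) (.e (nat_lit 770072) (nat_lit 8) (.e (nat_lit 65619) (nat_lit 10) (.e (nat_lit 344097) (nat_lit 18) .nil)))))) (.g (nat_lit 4) .nil .nil)))) (.nd (nat_lit 5) 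
(.lf (nat_lit 125968) (.g (nat_lit 3256) (.e (nat_lit 7271) (nat_lit 385) (.e (nat_lit 122919) (nat_lit 15) (.e (nat_lit 360450) (nat_lit 0) (.e (nat_lit 7261) (nat_lit 384) (.e (nat_lit 57426) (nat_lit 15) (.e (nat_lit 360452) (nat_lit 0) .nil)))))) (.g (nat_lit 0) .nil .nil))) 
(.lf (nat_lit 126000) (.g (nat_lit 2967) (.e (nat_lit 7272) (nat_lit 385) (.e (nat_lit 122906) (nat_lit 12) (.e (nat_lit 336060) (nat_lit 7) (.e (nat_lit 319533) (nat_lit 16) (.e (nat_lit 286753) (nat_lit 10) (.e (nat_lit 344160) (nat_lit 37) (.e (nat_lit 647201) (nat_lit 12) (.e (nat_lit 57357) (nat_lit 0) .nil)))))))) (.g (nat_lit 7) .nil .nil))))) (.nd (nat_lit 4) (.nd (nat_lit 5) 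
(.lf (nat_lit 125960) (.g (nat_lit 2665) (.e (nat_lit 7271) (nat_lit 385) (.e (nat_lit 122917) (nat_lit 15) (.e (nat_lit 360491) (nat_lit 22) (.e (nat_lit 778361) (nat_lit 9) (.e (nat_lit 324) (nat_lit 24) (.e (nat_lit 360452) (nat_lit 0) .nil)))))) (.g (nat_lit 0) .nil .nil))) 
(.lf (nat_lit 125992) (.g (nat_lit 2731) (.e (nat_lit 7271) (nat_lit 385) (.e (nat_lit 122919) (nat_lit 15) (.e (nat_lit 360492) (nat_lit 22) (.e (nat_lit 778464) (nat_lit 11) (.e (nat_lit 24640) (nat_lit 10) (.e (nat_lit 344097) (nat_lit 18) .nil)))))) (.g (nat_lit 5) .nil .nil)))) (.nd (nat_lit 5) 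
(.lf (nat_lit 125976) (.g (nat_lit 2763) (.e (nat_lit 7271) (nat_lit 385) (.e (nat_lit 122919) (nat_lit 15) (.e (nat_lit 360452) (nat_lit 0) (.e (nat_lit 7272) (nat_lit 385) (.e (nat_lit 122917) (nat_lit 15) (.e (nat_lit 360452) (nat_lit 0) .nil)))))) (.g (nat_lit 5) .nil .nil))) 
(.lf (nat_lit 126008) (.g (nat_lit 2120) (.e (nat_lit 7272) (nat_lit 385) (.e (nat_lit 122913) (nat_lit 13) (.e (nat_lit 344117) (nat_lit 21) (.e (nat_lit 516151) (nat_lit 9) (.e (nat_lit 426286) (nat_lit 10) (.e (nat_lit 434245) (nat_lit 28) (.e (nat_lit 573474) (nat_lit 12) (.e (nat_lit 57344) (nat_lit 0) .nil)))))))) (.g (nat_lit 4) .nil .nil)))))) 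
(.nd (nat_lit 3) (.nd (nat_lit 4) (.nd (nat_lit 5) 
(.lf (nat_lit 125956) (.g (nat_lit 3232) (.e (nat_lit 7271) (nat_lit 385) (.e (nat_lit 122917) (nat_lit 15) (.e (nat_lit 360489) (nat_lit 21) (.e (nat_lit 770072) (nat_lit 8) (.e (nat_lit 65610) (nat_lit 10) (.e (nat_lit 344097) (nat_lit 18) .nil)))))) (.g (nat_lit 6) .nil .nil))) 
(.lf (nat_lit 125988) (.g (nat_lit 3270) (.e (nat_lit 7271) (nat_lit 385) (.e (nat_lit 122919) (nat_lit 15) (.e (nat_lit 360491) (nat_lit 22) (.e (nat_lit 778465) (nat_lit 11) (.e (nat_lit 24640) (nat_lit 10) (.e (nat_lit 344097) (nat_lit 18) .nil)))))) (.g (nat_lit 6) .nil .nil)))) (.nd (nat_lit 5) 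
(.lf (nat_lit 125972) (.g (nat_lit 1894) (.e (nat_lit 7271) (nat_lit 385) (.e (nat_lit 122919) (nat_lit 15) (.e (nat_lit 360451) (nat_lit 0) (.e (nat_lit 7263) (nat_lit 384) .nil)))) .nil)) 
(.lf (nat_lit 126004) (.g (nat_lit 2741) (.e (nat_lit 7272) (nat_lit 385) (.e (nat_lit 122906) (nat_lit 12) (.e (nat_lit 336212) (nat_lit 13) (.e (nat_lit 393300) (nat_lit 27) (.e (nat_lit 491560) (nat_lit 10) (.e (nat_lit 344097) (nat_lit 18) .nil)))))) (.g (nat_lit 6) .nil .nil))))) (.nd (nat_lit 4) (.nd (nat_lit 5) 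
(.lf (nat_lit 125964) (.g (nat_lit 3213) (.e (nat_lit 7271) (nat_lit 385) (.e (nat_lit 122917) (nat_lit 15) (.e (nat_lit 360492) (nat_lit 22) (.e (nat_lit 778465) (nat_lit 11) (.e (nat_lit 24640) (nat_lit 10) (.e (nat_lit 344097) (nat_lit 18) .nil)))))) (.g (nat_lit 0) .nil .nil))) 
(.lf (nat_lit 125996) (.g (nat_lit 1772) (.e (nat_lit 7272) (nat_lit 385) (.e (nat_lit 122905) (nat_lit 12) (.e (nat_lit 336060) (nat_lit 7) (.e (nat_lit 319533) (nat_lit 16) (.e (nat_lit 286753) (nat_lit 10) (.e (nat_lit 344160) (nat_lit 37) (.e (nat_lit 647201) (nat_lit 12) (.e (nat_lit 57357) (nat_lit 0) .nil)))))))) (.g (nat_lit 4) .nil .nil)))) (.nd (nat_lit 5) 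
(.lf (nat_lit 125980) (.g (nat_lit 1336) (.e (nat_lit 7271) (nat_lit 385) (.e (nat_lit 122919) (nat_lit 15) (.e (nat_lit 360453) (nat_lit 0) (.e (nat_lit 7272) (nat_lit 385) (.e (nat_lit 122919) (nat_lit 15) .nil))))) .nil)) 
(.lf (nat_lit 126012) (.g (nat_lit 4722) (.e (nat_lit 7272) (nat_lit 385) (.e (nat_lit 122913) (nat_lit 13) (.e (nat_lit 344117) (nat_lit 21) (.e (nat_lit 516151) (nat_lit 9) (.e (nat_lit 426286) (nat_lit 10) (.e (nat_lit 434248) (nat_lit 28) (.e (nat_lit 573475) (nat_lit 12) (.e (nat_lit 57354) (nat_lit 0) .nil)))))))) (.g (nat_lit 8) .nil .nil))))))) 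
(.nd (nat_lit 2) (.nd (nat_lit 3) (.nd (nat_lit 4) (.nd (nat_lit 5) 
(.lf (nat_lit 125954) (.g (nat_lit 2951) (.e (nat_lit 7271) (nat_lit 385) (.e (nat_lit 122917) (nat_lit 15) (.e (nat_lit 360489) (nat_lit 21) (.e (nat_lit 770058) (nat_lit 5) (.e (nat_lit 1598) (nat_lit 111) (.e (nat_lit 360452) (nat_lit 0) .nil)))))) (.g (nat_lit 0) .nil .nil))) 
(.lf (nat_lit 125986) (.g (nat_lit 2850) (.e (nat_lit 7271) (nat_lit 385) (.e (nat_lit 122919) (nat_lit 15) (.e (nat_lit 360491) (nat_lit 22) (.e (nat_lit 778362) (nat_lit 9) (.e (nat_lit 324) (nat_lit 24) (.e (nat_lit 360452) (nat_lit 0) .nil)))))) (.g (nat_lit 0) .nil .nil)))) (.nd (nat_lit 5) 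
(.lf (nat_lit 125970) (.g (nat_lit 1443) (.e (nat_lit 7271) (nat_lit 385) (.e (nat_lit 122919) (nat_lit 15) (.e (nat_lit 360451) (nat_lit 0) (.e (nat_lit 7261) (nat_lit 384) .nil)))) .nil)) 
(.lf (nat_lit 126002) (.g (nat_lit 4020) (.e (nat_lit 7272) (nat_lit 385) (.e (nat_lit 122906) (nat_lit 12) (.e (nat_lit 336173) (nat_lit 10) (.e (nat_lit 344177) (nat_lit 43) (.e (nat_lit 770072) (nat_lit 8) (.e (nat_lit 65610) (nat_lit 10) (.e (nat_lit 344097) (nat_lit 18) .nil))))))) (.g (nat_lit 7) .nil .nil))))) (.nd (nat_lit 4) (.nd (nat_lit 5) 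
(.lf (nat_lit 125962) (.g (nat_lit 3239) (.e (nat_lit 7271) (nat_lit 385) (.e (nat_lit 122917) (nat_lit 15) (.e (nat_lit 360491) (nat_lit 22) (.e (nat_lit 778465) (nat_lit 11) (.e (nat_lit 24640) (nat_lit 10) (.e (nat_lit 344097) (nat_lit 18) .nil)))))) (.g (nat_lit 0) .nil .nil))) 
(.lf (nat_lit 125994) (.g (nat_lit 1858) (.e (nat_lit 7271) (nat_lit 385) (.e (nat_lit 122919) (nat_lit 15) (.e (nat_lit 360492) (nat_lit 22) (.e (nat_lit 778466) (nat_lit 11) (.e (nat_lit 24640) (nat_lit 10) (.e (nat_lit 344101) (nat_lit 18) .nil)))))) (.g (nat_lit 4) .nil .nil)))) (.nd (nat_lit 5) 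
(.lf (nat_lit 125978) (.g (nat_lit 1194) (.e (nat_lit 7271) (nat_lit 385) (.e (nat_lit 122919) (nat_lit 15) (.e (nat_lit 360453) (nat_lit 0) (.e (nat_lit 7271) (nat_lit 385) (.e (nat_lit 122917) (nat_lit 15) .nil))))) .nil)) 
(.lf (nat_lit 126010) (.g (nat_lit 2486) (.e (nat_lit 7272) (nat_lit 385) (.e (nat_lit 122913) (nat_lit 13) (.e (nat_lit 344117) (nat_lit 21) (.e (nat_lit 516151) (nat_lit 9) (.e (nat_lit 426286) (nat_lit 10) (.e (nat_lit 434247) (nat_lit 28) (.e (nat_lit 573477) (nat_lit 12) (.e (nat_lit 57357) (nat_lit 0) .nil)))))))) (.g (nat_lit 5) .nil .nil)))))) 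
(.nd (nat_lit 3) (.nd (nat_lit 4) (.nd (nat_lit 5) 
(.lf (nat_lit 125958) (.g (nat_lit 2166) (.e (nat_lit 7271) (nat_lit 385) (.e (nat_lit 122917) (nat_lit 15) (.e (nat_lit 360490) (nat_lit 22) (.e (nat_lit 778337) (nat_lit 9) (.e (nat_lit 323) (nat_lit 24) (.e (nat_lit 360452) (nat_lit 0) .nil)))))) (.g (nat_lit 0) .nil .nil))) 
(.lf (nat_lit 125990) (.g (nat_lit 398) (.e (nat_lit 7271) (nat_lit 385) (.e (nat_lit 122919) (nat_lit 15) (.e (nat_lit 360492) (nat_lit 22) .nil))) .nil))) (.nd (nat_lit 5) 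
(.lf (nat_lit 125974) (.g (nat_lit 2577) (.e (nat_lit 7271) (nat_lit 385) (.e (nat_lit 122919) (nat_lit 15) (.e (nat_lit 360451) (nat_lit 0) (.e (nat_lit 7265) (nat_lit 384) (.e (nat_lit 57427) (nat_lit 15) (.e (nat_lit 368384) (nat_lit 0) .nil)))))) (.g (nat_lit 5) .nil .nil))) 
(.lf (nat_lit 126006) (.g (nat_lit 3085) (.e (nat_lit 7272) (nat_lit 385) (.e (nat_lit 122906) (nat_lit 12) (.e (nat_lit 336216) (nat_lit 13) (.e (nat_lit 393301) (nat_lit 27) (.e (nat_lit 491560) (nat_lit 10) (.e (nat_lit 344099) (nat_lit 18) .nil)))))) (.g (nat_lit 5) .nil .nil))))) (.nd (nat_lit 4) (.nd (nat_lit 5) 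
(.lf (nat_lit 125966) (.g (nat_lit 3196) (.e (nat_lit 7271) (nat_lit 385) (.e (nat_lit 122918) (nat_lit 15) (.e (nat_lit 360451) (nat_lit 0) (.e (nat_lit 7265) (nat_lit 384) (.e (nat_lit 57426) (nat_lit 15) (.e (nat_lit 360452) (nat_lit 0) .nil)))))) (.g (nat_lit 0) .nil .nil))) 
(.lf (nat_lit 125998) (.g (nat_lit 4287) (.e (nat_lit 7272) (nat_lit 385) (.e (nat_lit 122906) (nat_lit 12) (.e (nat_lit 336024) (nat_lit 3) (.e (nat_lit 98373) (nat_lit 29) (.e (nat_lit 450588) (nat_lit 10) (.e (nat_lit 573475) (nat_lit 12) (.e (nat_lit 57356) (nat_lit 0) .nil))))))) (.g (nat_lit 6) .nil .nil)))) (.nd (nat_lit 5) 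
(.lf (nat_lit 125982) (.g (nat_lit 2925) (.e (nat_lit 7271) (nat_lit 385) (.e (nat_lit 122919) (nat_lit 15) (.e (nat_lit 360489) (nat_lit 21) (.e (nat_lit 770058) (nat_lit 5) (.e (nat_lit 1598) (nat_lit 111) (.e (nat_lit 360452) (nat_lit 0) .nil)))))) (.g (nat_lit 0) .nil .nil))) 
(.lf (nat_lit 126014) (.g (nat_lit 1970) (.e (nat_lit 7272) (nat_lit 385) (.e (nat_lit 122913) (nat_lit 13) (.e (nat_lit 344117) (nat_lit 21) (.e (nat_lit 516166) (nat_lit 12) (.e (nat_lit 450587) (nat_lit 10) (.e (nat_lit 573477) (nat_lit 12) (.e (nat_lit 57357) (nat_lit 0) .nil))))))) (.g (nat_lit 4) .nil .nil)))))))) 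
(.nd (nat_lit 1) (.nd (nat_lit 2) (.nd (nat_lit 3) (.nd (nat_lit 4) (.nd (nat_lit 5) 
(.lf (nat_lit 125953) (.g (nat_lit 963) (.e (nat_lit 7271) (nat_lit 385) (.e (nat_lit 122917) (nat_lit 15) (.e (nat_lit 360489) (nat_lit 21) (.e (nat_lit 770058) (nat_lit 5) .nil)))) .nil)) 
(.lf (nat_lit 125985) (.g (nat_lit 2771) (.e (nat_lit 7271) (nat_lit 385) (.e (nat_lit 122919) (nat_lit 15) (.e (nat_lit 360491) (nat_lit 22) (.e (nat_lit 778361) (nat_lit 9) (.e (nat_lit 324) (nat_lit 24) (.e (nat_lit 360452) (nat_lit 0) .nil)))))) (.g (nat_lit 0) .nil .nil)))) (.nd (nat_lit 5) 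
(.lf (nat_lit 125969) (.g (nat_lit 2774) (.e (nat_lit 7271) (nat_lit 385) (.e (nat_lit 122919) (nat_lit 15) (.e (nat_lit 360450) (nat_lit 0) (.e (nat_lit 7266) (nat_lit 384) (.e (nat_lit 57426) (nat_lit 15) (.e (nat_lit 360452) (nat_lit 0) .nil)))))) (.g (nat_lit 4) .nil .nil))) 
(.lf (nat_lit 126001) (.g (nat_lit 2713) (.e (nat_lit 7272) (nat_lit 385) (.e (nat_lit 122906) (nat_lit 12) (.e (nat_lit 336060) (nat_lit 7) (.e (nat_lit 319534) (nat_lit 16) (.e (nat_lit 286756) (nat_lit 10) (.e (nat_lit 344160) (nat_lit 37) (.e (nat_lit 647201) (nat_lit 12) (.e (nat_lit 57357) (nat_lit 0) .nil)))))))) (.g (nat_lit 6) .nil .nil))))) (.nd (nat_lit 4) (.nd (nat_lit 5) 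
(.lf (nat_lit 125961) (.g (nat_lit 2809) (.e (nat_lit 7271) (nat_lit 385) (.e (nat_lit 122917) (nat_lit 15) (.e (nat_lit 360491) (nat_lit 22) (.e (nat_lit 778362) (nat_lit 9) (.e (nat_lit 324) (nat_lit 24) (.e (nat_lit 360452) (nat_lit 0) .nil)))))) (.g (nat_lit 0) .nil .nil))) 
(.lf (nat_lit 125993) (.g (nat_lit 2153) (.e (nat_lit 7271) (nat_lit 385) (.e (nat_lit 122919) (nat_lit 15) (.e (nat_lit 360492) (nat_lit 22) (.e (nat_lit 778465) (nat_lit 11) (.e (nat_lit 24639) (nat_lit 10) (.e (nat_lit 344097) (nat_lit 18) .nil)))))) (.g (nat_lit 4) .nil .nil)))) (.nd (nat_lit 5) 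
(.lf (nat_lit 125977) (.g (nat_lit 2072) (.e (nat_lit 7271) (nat_lit 385) (.e (nat_lit 122919) (nat_lit 15) (.e (nat_lit 360452) (nat_lit 0) (.e (nat_lit 7273) (nat_lit 385) (.e (nat_lit 122917) (nat_lit 15) (.e (nat_lit 360452) (nat_lit 0) .nil)))))) (.g (nat_lit 4) .nil .nil))) 
(.lf (nat_lit 126009) (.g (nat_lit 4954) (.e (nat_lit 7272) (nat_lit 385) (.e (nat_lit 122913) (nat_lit 13) (.e (nat_lit 344117) (nat_lit 21) (.e (nat_lit 516151) (nat_lit 9) (.e (nat_lit 426286) (nat_lit 10) (.e (nat_lit 434245) (nat_lit 28) (.e (nat_lit 573474) (nat_lit 12) (.e (nat_lit 57354) (nat_lit 0) .nil)))))))) (.g (nat_lit 8) .nil .nil)))))) 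
(.nd (nat_lit 3) (.nd (nat_lit 4) (.nd (nat_lit 5) 
(.lf (nat_lit 125957) (.g (nat_lit 2267) (.e (nat_lit 7271) (nat_lit 385) (.e (nat_lit 122917) (nat_lit 15) (.e (nat_lit 360490) (nat_lit 22) (.e (nat_lit 778334) (nat_lit 9) (.e (nat_lit 323) (nat_lit 24) (.e (nat_lit 360452) (nat_lit 0) .nil)))))) (.g (nat_lit 0) .nil .nil))) 
(.lf (nat_lit 125989) (.g (nat_lit 3244) (.e (nat_lit 7271) (nat_lit 385) (.e (nat_lit 122919) (nat_lit 15) (.e (nat_lit 360491) (nat_lit 22) (.e (nat_lit 778466) (nat_lit 11) (.e (nat_lit 24640) (nat_lit 10) (.e (nat_lit 344097) (nat_lit 18) .nil)))))) (.g (nat_lit 6) .nil .nil)))) (.nd (nat_lit 5) 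
(.lf (nat_lit 125973) (.g (nat_lit 1907) (.e (nat_lit 7271) (nat_lit 385) (.e (nat_lit 122919) (nat_lit 15) (.e (nat_lit 360451) (nat_lit 0) (.e (nat_lit 7265) (nat_lit 384) (.e (nat_lit 57426) (nat_lit 15) (.e (nat_lit 368384) (nat_lit 0) .nil)))))) (.g (nat_lit 4) .nil .nil))) 
(.lf (nat_lit 126005) (.g (nat_lit 2870) (.e (nat_lit 7272) (nat_lit 385) (.e (nat_lit 122906) (nat_lit 12) (.e (nat_lit 336212) (nat_lit 13) (.e (nat_lit 393301) (nat_lit 27) (.e (nat_lit 491560) (nat_lit 10) (.e (nat_lit 344099) (nat_lit 18) .nil)))))) (.g (nat_lit 6) .nil .nil))))) (.nd (nat_lit 4) (.nd (nat_lit 5) 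
(.lf (nat_lit 125965) (.g (nat_lit 3062) (.e (nat_lit 7271) (nat_lit 385) (.e (nat_lit 122917) (nat_lit 15) (.e (nat_lit 360492) (nat_lit 22) (.e (nat_lit 778466) (nat_lit 11) (.e (nat_lit 24640) (nat_lit 10) (.e (nat_lit 344097) (nat_lit 18) .nil)))))) (.g (nat_lit 0) .nil .nil))) 
(.lf (nat_lit 125997) (.g (nat_lit 2333) (.e (nat_lit 7272) (nat_lit 385) (.e (nat_lit 122906) (nat_lit 12) (.e (nat_lit 336024) (nat_lit 3) (.e (nat_lit 98373) (nat_lit 29) (.e (nat_lit 450587) (nat_lit 10) (.e (nat_lit 573478) (nat_lit 12) (.e (nat_lit 57356) (nat_lit 0) .nil))))))) (.g (nat_lit 5) .nil .nil)))) (.nd (nat_lit 5) 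
(.lf (nat_lit 125981) (.g (nat_lit 758) (.e (nat_lit 7271) (nat_lit 385) (.e (nat_lit 122919) (nat_lit 15) (.e (nat_lit 360453) (nat_lit 0) (.e (nat_lit 7273) (nat_lit 385) .nil)))) .nil)) 
(.lf (nat_lit 126013) (.g (nat_lit 2219) (.e (nat_lit 7272) (nat_lit 385) (.e (nat_lit 122913) (nat_lit 13) (.e (nat_lit 344117) (nat_lit 21) (.e (nat_lit 516165) (nat_lit 12) (.e (nat_lit 450586) (nat_lit 10) (.e (nat_lit 573475) (nat_lit 12) (.e (nat_lit 57344) (nat_lit 0) .nil))))))) (.g (nat_lit 4) .nil .nil))))))) (.nd (nat_lit 2) (.nd (nat_lit 3) (.nd (nat_lit 4) (.nd (nat_lit 5) 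
(.lf (nat_lit 125955) (.g (nat_lit 3041) (.e (nat_lit 7271) (nat_lit 385) (.e (nat_lit 122917) (nat_lit 15) (.e (nat_lit 360489) (nat_lit 21) (.e (nat_lit 770071) (nat_lit 8) (.e (nat_lit 65610) (nat_lit 10) (.e (nat_lit 344097) (nat_lit 18) .nil)))))) (.g (nat_lit 6) .nil .nil))) 
(.lf (nat_lit 125987) (.g (nat_lit 3048) (.e (nat_lit 7271) (nat_lit 385) (.e (nat_lit 122919) (nat_lit 15) (.e (nat_lit 360491) (nat_lit 22) (.e (nat_lit 778464) (nat_lit 11) (.e (nat_lit 24640) (nat_lit 10) (.e (nat_lit 344097) (nat_lit 18) .nil)))))) (.g (nat_lit 6) .nil .nil)))) (.nd (nat_lit 5) 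
(.lf (nat_lit 125971) (.g (nat_lit 1827) (.e (nat_lit 7271) (nat_lit 385) (.e (nat_lit 122919) (nat_lit 15) (.e (nat_lit 360451) (nat_lit 0) (.e (nat_lit 7261) (nat_lit 384) (.e (nat_lit 57427) (nat_lit 15) .nil))))) .nil)) 
(.lf (nat_lit 126003) (.g (nat_lit 1773) (.e (nat_lit 7272) (nat_lit 385) (.e (nat_lit 122906) (nat_lit 12) (.e (nat_lit 336178) (nat_lit 10) (.e (nat_lit 344177) (nat_lit 43) (.e (nat_lit 770057) (nat_lit 5) (.e (nat_lit 1595) (nat_lit 111) (.e (nat_lit 360453) (nat_lit 0) .nil))))))) (.g (nat_lit 4) .nil .nil))))) (.nd (nat_lit 4) (.nd (nat_lit 5) 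
(.lf (nat_lit 125963) (.g (nat_lit 3255) (.e (nat_lit 7271) (nat_lit 385) (.e (nat_lit 122917) (nat_lit 15) (.e (nat_lit 360491) (nat_lit 22) (.e (nat_lit 778466) (nat_lit 11) (.e (nat_lit 24640) (nat_lit 10) (.e (nat_lit 344097) (nat_lit 18) .nil)))))) (.g (nat_lit 0) .nil .nil))) 
(.lf (nat_lit 125995) (.g (nat_lit 292) (.e (nat_lit 7271) (nat_lit 385) (.e (nat_lit 122919) (nat_lit 15) (.e (nat_lit 368384) (nat_lit 24) .nil))) .nil))) (.nd (nat_lit 5) 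
(.lf (nat_lit 125979) (.g (nat_lit 3201) (.e (nat_lit 7271) (nat_lit 385) (.e (nat_lit 122919) (nat_lit 15) (.e (nat_lit 360453) (nat_lit 0) (.e (nat_lit 7272) (nat_lit 385) (.e (nat_lit 122917) (nat_lit 15) (.e (nat_lit 360452) (nat_lit 0) .nil)))))) (.g (nat_lit 6) .nil .nil))) 
(.lf (nat_lit 126011) (.g (nat_lit 1842) (.e (nat_lit 7272) (nat_lit 385) (.e (nat_lit 122913) (nat_lit 13) (.e (nat_lit 344117) (nat_lit 21) (.e (nat_lit 516151) (nat_lit 9) (.e (nat_lit 426286) (nat_lit 10) (.e (nat_lit 434247) (nat_lit 28) (.e (nat_lit 573478) (nat_lit 12) (.e (nat_lit 57344) (nat_lit 0) .nil)))))))) (.g (nat_lit 4) .nil .nil)))))) 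
(.nd (nat_lit 3) (.nd (nat_lit 4) (.nd (nat_lit 5) 
(.lf (nat_lit 125959) (.g (nat_lit 2232) (.e (nat_lit 7271) (nat_lit 385) (.e (nat_lit 122917) (nat_lit 15) (.e (nat_lit 360490) (nat_lit 22) (.e (nat_lit 778339) (nat_lit 9) (.e (nat_lit 323) (nat_lit 24) (.e (nat_lit 360452) (nat_lit 0) .nil)))))) (.g (nat_lit 0) .nil .nil))) 
(.lf (nat_lit 125991) (.g (nat_lit 2900) (.e (nat_lit 7271) (nat_lit 385) (.e (nat_lit 122919) (nat_lit 15) (.e (nat_lit 360492) (nat_lit 22) (.e (nat_lit 778362) (nat_lit 9) (.e (nat_lit 324) (nat_lit 24) (.e (nat_lit 360452) (nat_lit 0) .nil)))))) (.g (nat_lit 0) .nil .nil)))) (.nd (nat_lit 5) 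
(.lf (nat_lit 125975) (.g (nat_lit 3807) (.e (nat_lit 7271) (nat_lit 385) (.e (nat_lit 122919) (nat_lit 15) (.e (nat_lit 360451) (nat_lit 0) (.e (nat_lit 7266) (nat_lit 384) (.e (nat_lit 57426) (nat_lit 15) (.e (nat_lit 360452) (nat_lit 0) .nil)))))) (.g (nat_lit 0) .nil .nil))) 
(.lf (nat_lit 126007) (.g (nat_lit 3296) (.e (nat_lit 7272) (nat_lit 385) (.e (nat_lit 122913) (nat_lit 13) (.e (nat_lit 344117) (nat_lit 21) (.e (nat_lit 516151) (nat_lit 9) (.e (nat_lit 426286) (nat_lit 10) (.e (nat_lit 434245) (nat_lit 28) (.e (nat_lit 573473) (nat_lit 12) (.e (nat_lit 57354) (nat_lit 0) .nil)))))))) (.g (nat_lit 6) .nil .nil))))) (.nd (nat_lit 4) (.nd (nat_lit 5) 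
(.lf (nat_lit 125967) (.g (nat_lit 2118) (.e (nat_lit 7271) (nat_lit 385) (.e (nat_lit 122918) (nat_lit 15) (.e (nat_lit 360491) (nat_lit 22) (.e (nat_lit 778361) (nat_lit 9) (.e (nat_lit 324) (nat_lit 24) (.e (nat_lit 360452) (nat_lit 0) .nil)))))) (.g (nat_lit 6) .nil .nil))) 
(.lf (nat_lit 125999) (.g (nat_lit 2174) (.e (nat_lit 7272) (nat_lit 385) (.e (nat_lit 122906) (nat_lit 12) (.e (nat_lit 336054) (nat_lit 7) (.e (nat_lit 319533) (nat_lit 16) (.e (nat_lit 286753) (nat_lit 10) (.e (nat_lit 344160) (nat_lit 37) (.e (nat_lit 647201) (nat_lit 12) (.e (nat_lit 57357) (nat_lit 0) .nil)))))))) (.g (nat_lit 6) .nil .nil)))) (.nd (nat_lit 5) 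
(.lf (nat_lit 125983) (.g (nat_lit 3141) (.e (nat_lit 7271) (nat_lit 385) (.e (nat_lit 122919) (nat_lit 15) (.e (nat_lit 360489) (nat_lit 21) (.e (nat_lit 770072) (nat_lit 8) (.e (nat_lit 65610) (nat_lit 10) (.e (nat_lit 344097) (nat_lit 18) .nil)))))) (.g (nat_lit 6) .nil .nil))) 
(.lf (nat_lit 126015) (.g (nat_lit 4349) (.e (nat_lit 7272) (nat_lit 385) (.e (nat_lit 122913) (nat_lit 13) (.e (nat_lit 344117) (nat_lit 21) (.e (nat_lit 516166) (nat_lit 12) (.e (nat_lit 450588) (nat_lit 10) (.e (nat_lit 573475) (nat_lit 12) (.e (nat_lit 57354) (nat_lit 0) .nil))))))) (.g (nat_lit 7) .nil .nil)))))))))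

noncomputable def tv1692 : DT := (.nd (nat_lit 0) (.nd (nat_lit 1) (.nd (nat_lit 2) (.nd (nat_lit 3) (.nd (nat_lit 4) (.nd (nat_lit 5) 
(.lf (nat_lit 126016) (.g (nat_lit 1686) (.e (nat_lit 7272) (nat_lit 385) (.e (nat_lit 122913) (nat_lit 13) (.e (nat_lit 344130) (nat_lit 26) (.e (nat_lit 557103) (nat_lit 14) (.e (nat_lit 180229) (nat_lit 0) .nil))))) .nil)) 
(.lf (nat_lit 126048) (.g (nat_lit 193) (.e (nat_lit 7272) (nat_lit 385) (.e (nat_lit 122916) (nat_lit 14) (.e (nat_lit 352309) (nat_lit 21) .nil))) .nil))) (.nd (nat_lit 5) 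
(.lf (nat_lit 126032) (.g (nat_lit 2995) (.e (nat_lit 7272) (nat_lit 385) (.e (nat_lit 122916) (nat_lit 14) (.e (nat_lit 352277) (nat_lit 11) (.e (nat_lit 426012) (nat_lit 0) (.e (nat_lit 7591) (nat_lit 407) (.e (nat_lit 73733) (nat_lit 0) .nil)))))) (.g (nat_lit 6) .nil .nil))) 
(.lf (nat_lit 126064) (.g (nat_lit 3244) (.e (nat_lit 7272) (nat_lit 385) (.e (nat_lit 122916) (nat_lit 14) (.e (nat_lit 352309) (nat_lit 21) (.e (nat_lit 57684) (nat_lit 155) (.e (nat_lit 122917) (nat_lit 15) (.e (nat_lit 360453) (nat_lit 0) .nil)))))) (.g (nat_lit 6) .nil .nil))))) (.nd (nat_lit 4) (.nd (nat_lit 5) 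
(.lf (nat_lit 126024) (.g (nat_lit 1868) (.e (nat_lit 7272) (nat_lit 385) (.e (nat_lit 122916) (nat_lit 14) (.e (nat_lit 360192) (nat_lit 10) (.e (nat_lit 417796) (nat_lit 0) (.e (nat_lit 5409) (nat_lit 303) (.e (nat_lit 73733) (nat_lit 0) .nil)))))) (.g (nat_lit 5) .nil .nil))) 
(.lf (nat_lit 126056) (.g (nat_lit 2032) (.e (nat_lit 7272) (nat_lit 385) (.e (nat_lit 122916) (nat_lit 14) (.e (nat_lit 352309) (nat_lit 21) (.e (nat_lit 57680) (nat_lit 155) (.e (nat_lit 122918) (nat_lit 15) (.e (nat_lit 360453) (nat_lit 0) .nil)))))) (.g (nat_lit 4) .nil .nil)))) (.nd (nat_lit 5) 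
(.lf (nat_lit 126040) (.g (nat_lit 382) (.e (nat_lit 7272) (nat_lit 385) (.e (nat_lit 122916) (nat_lit 14) (.e (nat_lit 352302) (nat_lit 20) .nil))) .nil)) 
(.lf (nat_lit 126072) (.g (nat_lit 3775) (.e (nat_lit 7272) (nat_lit 385) (.e (nat_lit 122916) (nat_lit 14) (.e (nat_lit 352322) (nat_lit 26) (.e (nat_lit 147495) (nat_lit 11) (.e (nat_lit 24640) (nat_lit 10) (.e (nat_lit 344097) (nat_lit 18) .nil)))))) (.g (nat_lit 0) .nil .nil)))))) (.nd (nat_lit 3) (.nd (nat_lit 4) (.nd (nat_lit 5) 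
(.lf (nat_lit 126020) (.g (nat_lit 2296) (.e (nat_lit 7272) (nat_lit 385) (.e (nat_lit 122914) (nat_lit 14) (.e (nat_lit 352277) (nat_lit 11) (.e (nat_lit 426010) (nat_lit 0) (.e (nat_lit 7591) (nat_lit 407) (.e (nat_lit 73733) (nat_lit 0) .nil)))))) (.g (nat_lit 6) .nil .nil))) 
(.lf (nat_lit 126052) (.g (nat_lit 2168) (.e (nat_lit 7272) (nat_lit 385) (.e (nat_lit 122916) (nat_lit 14) (.e (nat_lit 352309) (nat_lit 21) (.e (nat_lit 57666) (nat_lit 152) (.e (nat_lit 1078) (nat_lit 81) .nil))))) .nil))) (.nd (nat_lit 5) 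
(.lf (nat_lit 126036) (.g (nat_lit 3050) (.e (nat_lit 7272) (nat_lit 385) (.e (nat_lit 122916) (nat_lit 14) (.e (nat_lit 352277) (nat_lit 11) (.e (nat_lit 426343) (nat_lit 14) (.e (nat_lit 491560) (nat_lit 10) (.e (nat_lit 344099) (nat_lit 18) .nil)))))) (.g (nat_lit 5) .nil .nil))) 
(.lf (nat_lit 126068) (.g (nat_lit 426) (.e (nat_lit 7272) (nat_lit 385) (.e (nat_lit 122916) (nat_lit 14) (.e (nat_lit 352322) (nat_lit 26) .nil))) .nil)))) (.nd (nat_lit 4) (.nd (nat_lit 5) 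
(.lf (nat_lit 126028) (.g (nat_lit 2619) (.e (nat_lit 7272) (nat_lit 385) (.e (nat_lit 122916) (nat_lit 14) (.e (nat_lit 352277) (nat_lit 11) (.e (nat_lit 426010) (nat_lit 0) (.e (nat_lit 7591) (nat_lit 407) (.e (nat_lit 73733) (nat_lit 0) .nil)))))) (.g (nat_lit 6) .nil .nil))) 
(.lf (nat_lit 126060) (.g (nat_lit 1028) (.e (nat_lit 7272) (nat_lit 385) (.e (nat_lit 122916) (nat_lit 14) (.e (nat_lit 352309) (nat_lit 21) (.e (nat_lit 57683) (nat_lit 155) .nil)))) .nil))) (.nd (nat_lit 5) 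
(.lf (nat_lit 126044) (.g (nat_lit 2527) (.e (nat_lit 7272) (nat_lit 385) (.e (nat_lit 122916) (nat_lit 14) (.e (nat_lit 352307) (nat_lit 21) (.e (nat_lit 57683) (nat_lit 155) (.e (nat_lit 122919) (nat_lit 15) (.e (nat_lit 360453) (nat_lit 0) .nil)))))) (.g (nat_lit 5) .nil .nil))) 
(.lf (nat_lit 126076) (.g (nat_lit 2684) (.e (nat_lit 7272) (nat_lit 385) (.e (nat_lit 122916) (nat_lit 14) (.e (nat_lit 352322) (nat_lit 26) (.e (nat_lit 147496) (nat_lit 11) (.e (nat_lit 24639) (nat_lit 10) (.e (nat_lit 344097) (nat_lit 18) .nil)))))) (.g (nat_lit 5) .nil .nil))))))) (.nd (nat_lit 2) (.nd (nat_lit 3) (.nd (nat_lit 4) (.nd (nat_lit 5) 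
(.lf (nat_lit 126018) (.g (nat_lit 2076) (.e (nat_lit 7272) (nat_lit 385) (.e (nat_lit 122913) (nat_lit 13) (.e (nat_lit 344130) (nat_lit 26) (.e (nat_lit 557103) (nat_lit 14) (.e (nat_lit 180263) (nat_lit 21) (.e (nat_lit 663568) (nat_lit 5) (.e (nat_lit 73733) (nat_lit 0) .nil))))))) (.g (nat_lit 4) .nil .nil))) 
(.lf (nat_lit 126050) (.g (nat_lit 2175) (.e (nat_lit 7272) (nat_lit 385) (.e (nat_lit 122916) (nat_lit 14) (.e (nat_lit 352309) (nat_lit 21) (.e (nat_lit 57666) (nat_lit 152) (.e (nat_lit 1077) (nat_lit 81) .nil))))) .nil))) (.nd (nat_lit 5) 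
(.lf (nat_lit 126034) (.g (nat_lit 2160) (.e (nat_lit 7272) (nat_lit 385) (.e (nat_lit 122916) (nat_lit 14) (.e (nat_lit 352277) (nat_lit 11) (.e (nat_lit 426342) (nat_lit 14) (.e (nat_lit 491560) (nat_lit 10) (.e (nat_lit 344099) (nat_lit 18) .nil)))))) (.g (nat_lit 5) .nil .nil))) 
(.lf (nat_lit 126066) (.g (nat_lit 3555) (.e (nat_lit 7272) (nat_lit 385) (.e (nat_lit 122916) (nat_lit 14) (.e (nat_lit 352309) (nat_lit 21) (.e (nat_lit 57684) (nat_lit 155) (.e (nat_lit 122919) (nat_lit 15) (.e (nat_lit 360452) (nat_lit 0) .nil)))))) (.g (nat_lit 6) .nil .nil))))) (.nd (nat_lit 4) (.nd (nat_lit 5) 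
(.lf (nat_lit 126026) (.g (nat_lit 2719) (.e (nat_lit 7272) (nat_lit 385) (.e (nat_lit 122916) (nat_lit 14) (.e (nat_lit 352273) (nat_lit 11) (.e (nat_lit 426343) (nat_lit 14) (.e (nat_lit 491560) (nat_lit 10) (.e (nat_lit 344099) (nat_lit 18) .nil)))))) (.g (nat_lit 5) .nil .nil))) 
(.lf (nat_lit 126058) (.g (nat_lit 4977) (.e (nat_lit 7272) (nat_lit 385) (.e (nat_lit 122916) (nat_lit 14) (.e (nat_lit 352309) (nat_lit 21) (.e (nat_lit 57681) (nat_lit 155) (.e (nat_lit 122919) (nat_lit 15) (.e (nat_lit 360452) (nat_lit 0) .nil)))))) (.g (nat_lit 0) .nil .nil)))) (.nd (nat_lit 5) 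
(.lf (nat_lit 126042) (.g (nat_lit 1621) (.e (nat_lit 7272) (nat_lit 385) (.e (nat_lit 122916) (nat_lit 14) (.e (nat_lit 352302) (nat_lit 20) (.e (nat_lit 2270) (nat_lit 149) (.e (nat_lit 761868) (nat_lit 5) (.e (nat_lit 1597) (nat_lit 111) (.e (nat_lit 368384) (nat_lit 0) .nil))))))) (.g (nat_lit 4) .nil .nil))) 
(.lf (nat_lit 126074) (.g (nat_lit 2730) (.e (nat_lit 7272) (nat_lit 385) (.e (nat_lit 122916) (nat_lit 14) (.e (nat_lit 352322) (nat_lit 26) (.e (nat_lit 147495) (nat_lit 11) (.e (nat_lit 24644) (nat_lit 11) (.e (nat_lit 368662) (nat_lit 18) .nil)))))) (.g (nat_lit 6) .nil .nil)))))) (.nd (nat_lit 3) (.nd (nat_lit 4) (.nd (nat_lit 5) 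
(.lf (nat_lit 126022) (.g (nat_lit 464) (.e (nat_lit 7272) (nat_lit 385) (.e (nat_lit 122916) (nat_lit 14) (.e (nat_lit 352263) (nat_lit 0) .nil))) .nil)) 
(.lf (nat_lit 126054) (.g (nat_lit 1583) (.e (nat_lit 7272) (nat_lit 385) (.e (nat_lit 122916) (nat_lit 14) (.e (nat_lit 352309) (nat_lit 21) (.e (nat_lit 57668) (nat_lit 152) .nil)))) .nil))) (.nd (nat_lit 5) 
(.lf (nat_lit 126038) (.g (nat_lit 1235) (.e (nat_lit 7272) (nat_lit 385) (.e (nat_lit 122916) (nat_lit 14) (.e (nat_lit 352293) (nat_lit 20) (.e (nat_lit 2270) (nat_lit 149) (.e (nat_lit 761868) (nat_lit 5) (.e (nat_lit 1585) (nat_lit 111) (.e (nat_lit 368384) (nat_lit 0) .nil))))))) (.g (nat_lit 4) .nil .nil))) 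
(.lf (nat_lit 126070) (.g (nat_lit 1794) (.e (nat_lit 7272) (nat_lit 385) (.e (nat_lit 122916) (nat_lit 14) (.e (nat_lit 352322) (nat_lit 26) (.e (nat_lit 147494) (nat_lit 11) (.e (nat_lit 24644) (nat_lit 11) (.e (nat_lit 368662) (nat_lit 18) .nil)))))) (.g (nat_lit 4) .nil .nil))))) (.nd (nat_lit 4) (.nd (nat_lit 5) 
(.lf (nat_lit 126030) (.g (nat_lit 3498) (.e (nat_lit 7272) (nat_lit 385) (.e (nat_lit 122916) (nat_lit 14) (.e (nat_lit 352277) (nat_lit 11) (.e (nat_lit 426011) (nat_lit 0) (.e (nat_lit 7591) (nat_lit 407) (.e (nat_lit 73733) (nat_lit 0) .nil)))))) (.g (nat_lit 6) .nil .nil))) 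
(.lf (nat_lit 126062) (.g (nat_lit 3511) (.e (nat_lit 7272) (nat_lit 385) (.e (nat_lit 122916) (nat_lit 14) (.e (nat_lit 352309) (nat_lit 21) (.e (nat_lit 57683) (nat_lit 155) (.e (nat_lit 122917) (nat_lit 15) (.e (nat_lit 360453) (nat_lit 0) .nil)))))) (.g (nat_lit 6) .nil .nil)))) (.nd (nat_lit 5) 
(.lf (nat_lit 126046) (.g (nat_lit 2489) (.e (nat_lit 7272) (nat_lit 385) (.e (nat_lit 122916) (nat_lit 14) (.e (nat_lit 352308) (nat_lit 21) (.e (nat_lit 57681) (nat_lit 155) (.e (nat_lit 122917) (nat_lit 15) (.e (nat_lit 360453) (nat_lit 0) .nil)))))) (.g (nat_lit 5) .nil .nil))) 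
(.lf (nat_lit 126078) (.g (nat_lit 3089) (.e (nat_lit 7272) (nat_lit 385) (.e (nat_lit 122916) (nat_lit 14) (.e (nat_lit 352322) (nat_lit 26) (.e (nat_lit 147496) (nat_lit 11) (.e (nat_lit 24644) (nat_lit 11) (.e (nat_lit 368662) (nat_lit 18) .nil)))))) (.g (nat_lit 0) .nil .nil)))))))) (.nd (nat_lit 1) (.nd (nat_lit 2) (.nd (nat_lit 3) (.nd (nat_lit 4) (.nd (nat_lit 5) 
(.lf (nat_lit 126017) (.g (nat_lit 1828) (.e (nat_lit 7272) (nat_lit 385) (.e (nat_lit 122913) (nat_lit 13) (.e (nat_lit 344130) (nat_lit 26) (.e (nat_lit 557103) (nat_lit 14) (.e (nat_lit 180263) (nat_lit 21) (.e (nat_lit 663568) (nat_lit 5) (.e (nat_lit 73732) (nat_lit 0) .nil))))))) (.g (nat_lit 4) .nil .nil))) 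
(.lf (nat_lit 126049) (.g (nat_lit 1583) (.e (nat_lit 7272) (nat_lit 385) (.e (nat_lit 122916) (nat_lit 14) (.e (nat_lit 352309) (nat_lit 21) (.e (nat_lit 57659) (nat_lit 152) .nil)))) .nil))) (.nd (nat_lit 5) 
(.lf (nat_lit 126033) (.g (nat_lit 3338) (.e (nat_lit 7272) (nat_lit 385) (.e (nat_lit 122916) (nat_lit 14) (.e (nat_lit 352277) (nat_lit 11) (.e (nat_lit 426342) (nat_lit 14) (.e (nat_lit 491560) (nat_lit 10) (.e (nat_lit 344097) (nat_lit 18) .nil)))))) (.g (nat_lit 0) .nil .nil))) 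
(.lf (nat_lit 126065) (.g (nat_lit 1930) (.e (nat_lit 7272) (nat_lit 385) (.e (nat_lit 122916) (nat_lit 14) (.e (nat_lit 352309) (nat_lit 21) (.e (nat_lit 57684) (nat_lit 155) (.e (nat_lit 122919) (nat_lit 15) .nil))))) .nil)))) (.nd (nat_lit 4) (.nd (nat_lit 5) 
(.lf (nat_lit 126025) (.g (nat_lit 3202) (.e (nat_lit 7272) (nat_lit 385) (.e (nat_lit 122916) (nat_lit 14) (.e (nat_lit 352273) (nat_lit 11) (.e (nat_lit 426011) (nat_lit 0) (.e (nat_lit 7591) (nat_lit 407) (.e (nat_lit 73733) (nat_lit 0) .nil)))))) (.g (nat_lit 0) .nil .nil))) 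
(.lf (nat_lit 126057) (.g (nat_lit 2098) (.e (nat_lit 7272) (nat_lit 385) (.e (nat_lit 122916) (nat_lit 14) (.e (nat_lit 352309) (nat_lit 21) (.e (nat_lit 57681) (nat_lit 155) (.e (nat_lit 122918) (nat_lit 15) (.e (nat_lit 360453) (nat_lit 0) .nil)))))) (.g (nat_lit 4) .nil .nil)))) (.nd (nat_lit 5) 
(.lf (nat_lit 126041) (.g (nat_lit 692) (.e (nat_lit 7272) (nat_lit 385) (.e (nat_lit 122916) (nat_lit 14) (.e (nat_lit 352302) (nat_lit 20) (.e (nat_lit 1023) (nat_lit 81) .nil)))) .nil)) 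
(.lf (nat_lit 126073) (.g (nat_lit 2703) (.e (nat_lit 7272) (nat_lit 385) (.e (nat_lit 122916) (nat_lit 14) (.e (nat_lit 352322) (nat_lit 26) (.e (nat_lit 147495) (nat_lit 11) (.e (nat_lit 24643) (nat_lit 11) (.e (nat_lit 368662) (nat_lit 18) .nil)))))) (.g (nat_lit 6) .nil .nil)))))) (.nd (nat_lit 3) (.nd (nat_lit 4) (.nd (nat_lit 5) 
(.lf (nat_lit 126021) (.g (nat_lit 2507) (.e (nat_lit 7272) (nat_lit 385) (.e (nat_lit 122915) (nat_lit 14) (.e (nat_lit 352277) (nat_lit 11) (.e (nat_lit 426344) (nat_lit 14) (.e (nat_lit 491560) (nat_lit 10) (.e (nat_lit 344099) (nat_lit 18) .nil)))))) (.g (nat_lit 5) .nil .nil))) 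
(.lf (nat_lit 126053) (.g (nat_lit 2159) (.e (nat_lit 7272) (nat_lit 385) (.e (nat_lit 122916) (nat_lit 14) (.e (nat_lit 352309) (nat_lit 21) (.e (nat_lit 57666) (nat_lit 152) (.e (nat_lit 1079) (nat_lit 81) .nil))))) .nil))) (.nd (nat_lit 5) 
(.lf (nat_lit 126037) (.g (nat_lit 440) (.e (nat_lit 7272) (nat_lit 385) (.e (nat_lit 122916) (nat_lit 14) (.e (nat_lit 352283) (nat_lit 20) .nil))) .nil)) 
(.lf (nat_lit 126069) (.g (nat_lit 1791) (.e (nat_lit 7272) (nat_lit 385) (.e (nat_lit 122916) (nat_lit 14) (.e (nat_lit 352322) (nat_lit 26) (.e (nat_lit 147494) (nat_lit 11) (.e (nat_lit 24643) (nat_lit 11) (.e (nat_lit 368662) (nat_lit 18) .nil)))))) (.g (nat_lit 4) .nil .nil))))) (.nd (nat_lit 4) (.nd (nat_lit 5) 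
(.lf (nat_lit 126029) (.g (nat_lit 2772) (.e (nat_lit 7272) (nat_lit 385) (.e (nat_lit 122916) (nat_lit 14) (.e (nat_lit 352277) (nat_lit 11) (.e (nat_lit 426011) (nat_lit 0) (.e (nat_lit 7591) (nat_lit 407) (.e (nat_lit 73732) (nat_lit 0) .nil)))))) (.g (nat_lit 5) .nil .nil))) 
(.lf (nat_lit 126061) (.g (nat_lit 1957) (.e (nat_lit 7272) (nat_lit 385) (.e (nat_lit 122916) (nat_lit 14) (.e (nat_lit 352309) (nat_lit 21) (.e (nat_lit 57683) (nat_lit 155) (.e (nat_lit 122917) (nat_lit 15) .nil))))) .nil))) (.nd (nat_lit 5) 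
(.lf (nat_lit 126045) (.g (nat_lit 1952) (.e (nat_lit 7272) (nat_lit 385) (.e (nat_lit 122916) (nat_lit 14) (.e (nat_lit 352307) (nat_lit 21) (.e (nat_lit 57684) (nat_lit 155) (.e (nat_lit 122919) (nat_lit 15) (.e (nat_lit 360453) (nat_lit 0) .nil)))))) (.g (nat_lit 4) .nil .nil))) 
(.lf (nat_lit 126077) (.g (nat_lit 2928) (.e (nat_lit 7272) (nat_lit 385) (.e (nat_lit 122916) (nat_lit 14) (.e (nat_lit 352322) (nat_lit 26) (.e (nat_lit 147496) (nat_lit 11) (.e (nat_lit 24643) (nat_lit 11) (.e (nat_lit 368662) (nat_lit 18) .nil)))))) (.g (nat_lit 0) .nil .nil))))))) (.nd (nat_lit 2) (.nd (nat_lit 3) (.nd (nat_lit 4) (.nd (nat_lit 5) 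
(.lf (nat_lit 126019) (.g (nat_lit 1510) (.e (nat_lit 7272) (nat_lit 385) (.e (nat_lit 122913) (nat_lit 13) (.e (nat_lit 344130) (nat_lit 26) (.e (nat_lit 557104) (nat_lit 14) (.e (nat_lit 180264) (nat_lit 21) .nil))))) .nil)) 
(.lf (nat_lit 126051) (.g (nat_lit 2370) (.e (nat_lit 7272) (nat_lit 385) (.e (nat_lit 122916) (nat_lit 14) (.e (nat_lit 352309) (nat_lit 21) (.e (nat_lit 57666) (nat_lit 152) (.e (nat_lit 1077) (nat_lit 81) (.e (nat_lit 1597) (nat_lit 111) (.e (nat_lit 368384) (nat_lit 0) .nil))))))) (.g (nat_lit 4) .nil .nil)))) (.nd (nat_lit 5) 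
(.lf (nat_lit 126035) (.g (nat_lit 3804) (.e (nat_lit 7272) (nat_lit 385) (.e (nat_lit 122916) (nat_lit 14) (.e (nat_lit 352277) (nat_lit 11) (.e (nat_lit 426343) (nat_lit 14) (.e (nat_lit 491560) (nat_lit 10) (.e (nat_lit 344097) (nat_lit 18) .nil)))))) (.g (nat_lit 0) .nil .nil))) 
(.lf (nat_lit 126067) (.g (nat_lit 3349) (.e (nat_lit 7272) (nat_lit 385) (.e (nat_lit 122916) (nat_lit 14) (.e (nat_lit 352309) (nat_lit 21) (.e (nat_lit 57684) (nat_lit 155) (.e (nat_lit 122919) (nat_lit 15) (.e (nat_lit 360453) (nat_lit 0) .nil)))))) (.g (nat_lit 6) .nil .nil))))) (.nd (nat_lit 4) (.nd (nat_lit 5) 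
(.lf (nat_lit 126027) (.g (nat_lit 1699) (.e (nat_lit 7272) (nat_lit 385) (.e (nat_lit 122916) (nat_lit 14) (.e (nat_lit 352277) (nat_lit 11) (.e (nat_lit 426010) (nat_lit 0) (.e (nat_lit 7591) (nat_lit 407) (.e (nat_lit 73732) (nat_lit 0) .nil)))))) (.g (nat_lit 4) .nil .nil))) 
(.lf (nat_lit 126059) (.g (nat_lit 3385) (.e (nat_lit 7272) (nat_lit 385) (.e (nat_lit 122916) (nat_lit 14) (.e (nat_lit 352309) (nat_lit 21) (.e (nat_lit 57681) (nat_lit 155) (.e (nat_lit 122919) (nat_lit 15) (.e (nat_lit 368384) (nat_lit 0) .nil)))))) (.g (nat_lit 5) .nil .nil)))) (.nd (nat_lit 5) 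
(.lf (nat_lit 126043) (.g (nat_lit 2375) (.e (nat_lit 7272) (nat_lit 385) (.e (nat_lit 122916) (nat_lit 14) (.e (nat_lit 352307) (nat_lit 21) (.e (nat_lit 57683) (nat_lit 155) (.e (nat_lit 122919) (nat_lit 15) (.e (nat_lit 360452) (nat_lit 0) .nil)))))) (.g (nat_lit 4) .nil .nil))) 
(.lf (nat_lit 126075) (.g (nat_lit 1748) (.e (nat_lit 7272) (nat_lit 385) (.e (nat_lit 122916) (nat_lit 14) (.e (nat_lit 352322) (nat_lit 26) (.e (nat_lit 147495) (nat_lit 11) (.e (nat_lit 24645) (nat_lit 11) (.e (nat_lit 368662) (nat_lit 18) .nil)))))) (.g (nat_lit 4) .nil .nil)))))) (.nd (nat_lit 3) (.nd (nat_lit 4) (.nd (nat_lit 5) 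
(.lf (nat_lit 126023) (.g (nat_lit 1504) (.e (nat_lit 7272) (nat_lit 385) (.e (nat_lit 122916) (nat_lit 14) (.e (nat_lit 360192) (nat_lit 10) (.e (nat_lit 417795) (nat_lit 0) (.e (nat_lit 5409) (nat_lit 303) (.e (nat_lit 73733) (nat_lit 0) .nil)))))) (.g (nat_lit 5) .nil .nil))) 
(.lf (nat_lit 126055) (.g (nat_lit 1893) (.e (nat_lit 7272) (nat_lit 385) (.e (nat_lit 122916) (nat_lit 14) (.e (nat_lit 352309) (nat_lit 21) (.e (nat_lit 57679) (nat_lit 153) (.e (nat_lit 8202) (nat_lit 0) .nil))))) .nil))) (.nd (nat_lit 5) 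
(.lf (nat_lit 126039) (.g (nat_lit 1516) (.e (nat_lit 7272) (nat_lit 385) (.e (nat_lit 122916) (nat_lit 14) (.e (nat_lit 352293) (nat_lit 20) (.e (nat_lit 2270) (nat_lit 149) (.e (nat_lit 761868) (nat_lit 5) (.e (nat_lit 1597) (nat_lit 111) (.e (nat_lit 368384) (nat_lit 0) .nil))))))) (.g (nat_lit 4) .nil .nil))) 
(.lf (nat_lit 126071) (.g (nat_lit 3226) (.e (nat_lit 7272) (nat_lit 385) (.e (nat_lit 122916) (nat_lit 14) (.e (nat_lit 352322) (nat_lit 26) (.e (nat_lit 147495) (nat_lit 11) (.e (nat_lit 24639) (nat_lit 10) (.e (nat_lit 344097) (nat_lit 18) .nil)))))) (.g (nat_lit 6) .nil .nil))))) (.nd (nat_lit 4) (.nd (nat_lit 5) 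
(.lf (nat_lit 126031) (.g (nat_lit 1826) (.e (nat_lit 7272) (nat_lit 385) (.e (nat_lit 122916) (nat_lit 14) (.e (nat_lit 352277) (nat_lit 11) (.e (nat_lit 426012) (nat_lit 0) (.e (nat_lit 7591) (nat_lit 407) (.e (nat_lit 73732) (nat_lit 0) .nil)))))) (.g (nat_lit 4) .nil .nil))) 
(.lf (nat_lit 126063) (.g (nat_lit 1865) (.e (nat_lit 7272) (nat_lit 385) (.e (nat_lit 122916) (nat_lit 14) (.e (nat_lit 352309) (nat_lit 21) (.e (nat_lit 57683) (nat_lit 155) (.e (nat_lit 122919) (nat_lit 15) .nil))))) .nil))) (.nd (nat_lit 5) 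
(.lf (nat_lit 126047) (.g (nat_lit 2249) (.e (nat_lit 7272) (nat_lit 385) (.e (nat_lit 122916) (nat_lit 14) (.e (nat_lit 352308) (nat_lit 21) (.e (nat_lit 57683) (nat_lit 155) (.e (nat_lit 122917) (nat_lit 15) (.e (nat_lit 360452) (nat_lit 0) .nil)))))) (.g (nat_lit 5) .nil .nil))) 
(.lf (nat_lit 126079) (.g (nat_lit 335) (.e (nat_lit 7272) (nat_lit 385) (.e (nat_lit 122916) (nat_lit 14) (.e (nat_lit 352324) (nat_lit 26) .nil))) .nil))))))))

noncomputable def tv1693 : DT := (.nd (nat_lit 0) (.nd (nat_lit 1) (.nd (nat_lit 2) (.nd (nat_lit 3) (.nd (nat_lit 4) (.nd (nat_lit 5) 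
(.lf (nat_lit 126080) (.g (nat_lit 1141) (.e (nat_lit 7272) (nat_lit 385) (.e (nat_lit 122916) (nat_lit 14) (.e (nat_lit 352324) (nat_lit 26) (.e (nat_lit 147463) (nat_lit 9) .nil)))) .nil)) 
(.lf (nat_lit 126112) (.g (nat_lit 1028) (.e (nat_lit 7272) (nat_lit 385) (.e (nat_lit 122917) (nat_lit 15) (.e (nat_lit 360489) (nat_lit 21) (.e (nat_lit 770070) (nat_lit 8) .nil)))) .nil))) (.nd (nat_lit 5) 
(.lf (nat_lit 126096) (.g (nat_lit 3006) (.e (nat_lit 7272) (nat_lit 385) (.e (nat_lit 122916) (nat_lit 14) (.e (nat_lit 352324) (nat_lit 26) (.e (nat_lit 147496) (nat_lit 11) (.e (nat_lit 24644) (nat_lit 11) (.e (nat_lit 368662) (nat_lit 18) .nil)))))) (.g (nat_lit 0) .nil .nil))) 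
(.lf (nat_lit 126128) (.g (nat_lit 1992) (.e (nat_lit 7272) (nat_lit 385) (.e (nat_lit 122917) (nat_lit 15) (.e (nat_lit 360492) (nat_lit 22) (.e (nat_lit 778466) (nat_lit 11) (.e (nat_lit 24640) (nat_lit 10) (.e (nat_lit 344101) (nat_lit 18) .nil)))))) (.g (nat_lit 4) .nil .nil))))) (.nd (nat_lit 4) (.nd (nat_lit 5) 
(.lf (nat_lit 126088) (.g (nat_lit 3804) (.e (nat_lit 7272) (nat_lit 385) (.e (nat_lit 122916) (nat_lit 14) (.e (nat_lit 352324) (nat_lit 26) (.e (nat_lit 147495) (nat_lit 11) (.e (nat_lit 24640) (nat_lit 10) (.e (nat_lit 344097) (nat_lit 18) .nil)))))) (.g (nat_lit 6) .nil .nil))) 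
(.lf (nat_lit 126120) (.g (nat_lit 2476) (.e (nat_lit 7272) (nat_lit 385) (.e (nat_lit 122917) (nat_lit 15) (.e (nat_lit 360491) (nat_lit 22) (.e (nat_lit 778466) (nat_lit 11) (.e (nat_lit 24639) (nat_lit 10) (.e (nat_lit 344097) (nat_lit 18) .nil)))))) (.g (nat_lit 5) .nil .nil)))) (.nd (nat_lit 5) 
(.lf (nat_lit 126104) (.g (nat_lit 3258) (.e (nat_lit 7272) (nat_lit 385) (.e (nat_lit 122917) (nat_lit 15) (.e (nat_lit 360452) (nat_lit 0) (.e (nat_lit 7272) (nat_lit 385) (.e (nat_lit 122917) (nat_lit 15) (.e (nat_lit 360453) (nat_lit 0) .nil)))))) (.g (nat_lit 6) .nil .nil))) 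
(.lf (nat_lit 126136) (.g (nat_lit 2259) (.e (nat_lit 7272) (nat_lit 385) (.e (nat_lit 122918) (nat_lit 15) (.e (nat_lit 360492) (nat_lit 22) (.e (nat_lit 778466) (nat_lit 11) (.e (nat_lit 24640) (nat_lit 10) (.e (nat_lit 344097) (nat_lit 18) .nil)))))) (.g (nat_lit 5) .nil .nil)))))) (.nd (nat_lit 3) (.nd (nat_lit 4) (.nd (nat_lit 5) 
(.lf (nat_lit 126084) (.g (nat_lit 2671) (.e (nat_lit 7272) (nat_lit 385) (.e (nat_lit 122916) (nat_lit 14) (.e (nat_lit 352324) (nat_lit 26) (.e (nat_lit 147494) (nat_lit 11) (.e (nat_lit 24643) (nat_lit 11) (.e (nat_lit 368662) (nat_lit 18) .nil)))))) (.g (nat_lit 0) .nil .nil))) 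
(.lf (nat_lit 126116) (.g (nat_lit 2710) (.e (nat_lit 7272) (nat_lit 385) (.e (nat_lit 122917) (nat_lit 15) (.e (nat_lit 360491) (nat_lit 22) (.e (nat_lit 778362) (nat_lit 9) (.e (nat_lit 321) (nat_lit 24) (.e (nat_lit 360453) (nat_lit 0) .nil)))))) (.g (nat_lit 0) .nil .nil)))) (.nd (nat_lit 5) 
(.lf (nat_lit 126100) (.g (nat_lit 627) (.e (nat_lit 7272) (nat_lit 385) (.e (nat_lit 122917) (nat_lit 15) (.e (nat_lit 360451) (nat_lit 0) .nil))) .nil)) 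
(.lf (nat_lit 126132) (.g (nat_lit 1927) (.e (nat_lit 7272) (nat_lit 385) (.e (nat_lit 122917) (nat_lit 15) (.e (nat_lit 360492) (nat_lit 22) (.e (nat_lit 778466) (nat_lit 11) (.e (nat_lit 24645) (nat_lit 11) (.e (nat_lit 368662) (nat_lit 18) .nil)))))) (.g (nat_lit 4) .nil .nil))))) (.nd (nat_lit 4) (.nd (nat_lit 5) 
(.lf (nat_lit 126092) (.g (nat_lit 2082) (.e (nat_lit 7272) (nat_lit 385) (.e (nat_lit 122916) (nat_lit 14) (.e (nat_lit 352324) (nat_lit 26) (.e (nat_lit 147495) (nat_lit 11) (.e (nat_lit 24645) (nat_lit 11) (.e (nat_lit 368662) (nat_lit 18) .nil)))))) (.g (nat_lit 4) .nil .nil))) 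
(.lf (nat_lit 126124) (.g (nat_lit 2128) (.e (nat_lit 7272) (nat_lit 385) (.e (nat_lit 122917) (nat_lit 15) (.e (nat_lit 360491) (nat_lit 22) (.e (nat_lit 778466) (nat_lit 11) (.e (nat_lit 24645) (nat_lit 11) (.e (nat_lit 368662) (nat_lit 18) .nil)))))) (.g (nat_lit 5) .nil .nil)))) (.nd (nat_lit 5) 
(.lf (nat_lit 126108) (.g (nat_lit 771) (.e (nat_lit 7272) (nat_lit 385) (.e (nat_lit 122917) (nat_lit 15) (.e (nat_lit 360452) (nat_lit 0) (.e (nat_lit 7273) (nat_lit 385) .nil)))) .nil)) 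
(.lf (nat_lit 126140) (.g (nat_lit 1735) (.e (nat_lit 7272) (nat_lit 385) (.e (nat_lit 122919) (nat_lit 15) (.e (nat_lit 360451) (nat_lit 0) (.e (nat_lit 7119) (nat_lit 382) .nil)))) .nil)))))) (.nd (nat_lit 2) (.nd (nat_lit 3) (.nd (nat_lit 4) (.nd (nat_lit 5) 
(.lf (nat_lit 126082) (.g (nat_lit 1816) (.e (nat_lit 7272) (nat_lit 385) (.e (nat_lit 122916) (nat_lit 14) (.e (nat_lit 352324) (nat_lit 26) (.e (nat_lit 147493) (nat_lit 11) (.e (nat_lit 24644) (nat_lit 11) (.e (nat_lit 368662) (nat_lit 18) .nil)))))) (.g (nat_lit 4) .nil .nil))) 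
(.lf (nat_lit 126114) (.g (nat_lit 3829) (.e (nat_lit 7272) (nat_lit 385) (.e (nat_lit 122917) (nat_lit 15) (.e (nat_lit 360489) (nat_lit 21) (.e (nat_lit 770072) (nat_lit 8) (.e (nat_lit 65610) (nat_lit 10) (.e (nat_lit 344097) (nat_lit 18) .nil)))))) (.g (nat_lit 0) .nil .nil)))) (.nd (nat_lit 5) 
(.lf (nat_lit 126098) (.g (nat_lit 2005) (.e (nat_lit 7272) (nat_lit 385) (.e (nat_lit 122917) (nat_lit 15) (.e (nat_lit 360449) (nat_lit 0) (.e (nat_lit 7265) (nat_lit 384) (.e (nat_lit 57427) (nat_lit 15) (.e (nat_lit 368384) (nat_lit 0) .nil)))))) (.g (nat_lit 5) .nil .nil))) 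
(.lf (nat_lit 126130) (.g (nat_lit 2402) (.e (nat_lit 7272) (nat_lit 385) (.e (nat_lit 122917) (nat_lit 15) (.e (nat_lit 360492) (nat_lit 22) (.e (nat_lit 778466) (nat_lit 11) (.e (nat_lit 24643) (nat_lit 11) (.e (nat_lit 368662) (nat_lit 18) .nil)))))) (.g (nat_lit 0) .nil .nil))))) (.nd (nat_lit 4) (.nd (nat_lit 5) 
(.lf (nat_lit 126090) (.g (nat_lit 3008) (.e (nat_lit 7272) (nat_lit 385) (.e (nat_lit 122916) (nat_lit 14) (.e (nat_lit 352324) (nat_lit 26) (.e (nat_lit 147495) (nat_lit 11) (.e (nat_lit 24643) (nat_lit 11) (.e (nat_lit 368662) (nat_lit 18) .nil)))))) (.g (nat_lit 0) .nil .nil))) 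
(.lf (nat_lit 126122) (.g (nat_lit 2551) (.e (nat_lit 7272) (nat_lit 385) (.e (nat_lit 122917) (nat_lit 15) (.e (nat_lit 360491) (nat_lit 22) (.e (nat_lit 778466) (nat_lit 11) (.e (nat_lit 24643) (nat_lit 11) (.e (nat_lit 368662) (nat_lit 18) .nil)))))) (.g (nat_lit 0) .nil .nil)))) (.nd (nat_lit 5) 
(.lf (nat_lit 126106) (.g (nat_lit 3424) (.e (nat_lit 7272) (nat_lit 385) (.e (nat_lit 122917) (nat_lit 15) (.e (nat_lit 360452) (nat_lit 0) (.e (nat_lit 7272) (nat_lit 385) (.e (nat_lit 122919) (nat_lit 15) (.e (nat_lit 360453) (nat_lit 0) .nil)))))) (.g (nat_lit 6) .nil .nil))) 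
(.lf (nat_lit 126138) (.g (nat_lit 1415) (.e (nat_lit 7272) (nat_lit 385) (.e (nat_lit 122918) (nat_lit 15) (.e (nat_lit 360492) (nat_lit 22) (.e (nat_lit 778466) (nat_lit 11) (.e (nat_lit 24644) (nat_lit 11) (.e (nat_lit 368662) (nat_lit 18) .nil)))))) (.g (nat_lit 4) .nil .nil)))))) (.nd (nat_lit 3) (.nd (nat_lit 4) (.nd (nat_lit 5) 
(.lf (nat_lit 126086) (.g (nat_lit 1985) (.e (nat_lit 7272) (nat_lit 385) (.e (nat_lit 122916) (nat_lit 14) (.e (nat_lit 352324) (nat_lit 26) (.e (nat_lit 147494) (nat_lit 11) (.e (nat_lit 24646) (nat_lit 11) (.e (nat_lit 368662) (nat_lit 18) .nil)))))) (.g (nat_lit 4) .nil .nil))) 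
(.lf (nat_lit 126118) (.g (nat_lit 1753) (.e (nat_lit 7272) (nat_lit 385) (.e (nat_lit 122917) (nat_lit 15) (.e (nat_lit 360491) (nat_lit 22) (.e (nat_lit 778465) (nat_lit 11) (.e (nat_lit 24643) (nat_lit 11) (.e (nat_lit 368662) (nat_lit 18) .nil)))))) (.g (nat_lit 4) .nil .nil)))) (.nd (nat_lit 5) 
(.lf (nat_lit 126102) (.g (nat_lit 1947) (.e (nat_lit 7272) (nat_lit 385) (.e (nat_lit 122917) (nat_lit 15) (.e (nat_lit 360451) (nat_lit 0) (.e (nat_lit 7265) (nat_lit 384) (.e (nat_lit 57427) (nat_lit 15) .nil))))) .nil)) 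
(.lf (nat_lit 126134) (.g (nat_lit 1653) (.e (nat_lit 7272) (nat_lit 385) (.e (nat_lit 122918) (nat_lit 15) (.e (nat_lit 360491) (nat_lit 22) (.e (nat_lit 778466) (nat_lit 11) (.e (nat_lit 24644) (nat_lit 11) (.e (nat_lit 368662) (nat_lit 18) .nil)))))) (.g (nat_lit 4) .nil .nil))))) (.nd (nat_lit 4) (.nd (nat_lit 5) 
(.lf (nat_lit 126094) (.g (nat_lit 2082) (.e (nat_lit 7272) (nat_lit 385) (.e (nat_lit 122916) (nat_lit 14) (.e (nat_lit 352324) (nat_lit 26) (.e (nat_lit 147496) (nat_lit 11) (.e (nat_lit 24642) (nat_lit 11) .nil))))) .nil)) 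
(.lf (nat_lit 126126) (.g (nat_lit 1950) (.e (nat_lit 7272) (nat_lit 385) (.e (nat_lit 122917) (nat_lit 15) (.e (nat_lit 360492) (nat_lit 22) (.e (nat_lit 778465) (nat_lit 11) (.e (nat_lit 24643) (nat_lit 11) (.e (nat_lit 368662) (nat_lit 18) .nil)))))) (.g (nat_lit 5) .nil .nil)))) (.nd (nat_lit 5) 
(.lf (nat_lit 126110) (.g (nat_lit 2616) (.e (nat_lit 7272) (nat_lit 385) (.e (nat_lit 122917) (nat_lit 15) (.e (nat_lit 360453) (nat_lit 0) (.e (nat_lit 7272) (nat_lit 385) (.e (nat_lit 122917) (nat_lit 15) (.e (nat_lit 360453) (nat_lit 0) .nil)))))) (.g (nat_lit 5) .nil .nil))) 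
(.lf (nat_lit 126142) (.g (nat_lit 1745) (.e (nat_lit 7272) (nat_lit 385) (.e (nat_lit 122919) (nat_lit 15) (.e (nat_lit 360451) (nat_lit 0) (.e (nat_lit 7261) (nat_lit 384) (.e (nat_lit 57412) (nat_lit 12) .nil))))) .nil))))))) (.nd (nat_lit 1) (.nd (nat_lit 2) (.nd (nat_lit 3) (.nd (nat_lit 4) (.nd (nat_lit 5) 
(.lf (nat_lit 126081) (.g (nat_lit 2001) (.e (nat_lit 7272) (nat_lit 385) (.e (nat_lit 122916) (nat_lit 14) (.e (nat_lit 352324) (nat_lit 26) (.e (nat_lit 147492) (nat_lit 11) (.e (nat_lit 24643) (nat_lit 11) (.e (nat_lit 368662) (nat_lit 18) .nil)))))) (.g (nat_lit 4) .nil .nil))) 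
(.lf (nat_lit 126113) (.g (nat_lit 3673) (.e (nat_lit 7272) (nat_lit 385) (.e (nat_lit 122917) (nat_lit 15) (.e (nat_lit 360489) (nat_lit 21) (.e (nat_lit 770071) (nat_lit 8) (.e (nat_lit 65610) (nat_lit 10) (.e (nat_lit 344097) (nat_lit 18) .nil)))))) (.g (nat_lit 0) .nil .nil)))) (.nd (nat_lit 5) 
(.lf (nat_lit 126097) (.g (nat_lit 2298) (.e (nat_lit 7272) (nat_lit 385) (.e (nat_lit 122916) (nat_lit 14) (.e (nat_lit 352324) (nat_lit 26) (.e (nat_lit 147496) (nat_lit 11) (.e (nat_lit 24645) (nat_lit 11) (.e (nat_lit 368662) (nat_lit 18) .nil)))))) (.g (nat_lit 4) .nil .nil))) 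
(.lf (nat_lit 126129) (.g (nat_lit 1893) (.e (nat_lit 7272) (nat_lit 385) (.e (nat_lit 122917) (nat_lit 15) (.e (nat_lit 360492) (nat_lit 22) (.e (nat_lit 778466) (nat_lit 11) (.e (nat_lit 24642) (nat_lit 11) (.e (nat_lit 368662) (nat_lit 18) .nil)))))) (.g (nat_lit 4) .nil .nil))))) (.nd (nat_lit 4) (.nd (nat_lit 5) 
(.lf (nat_lit 126089) (.g (nat_lit 1893) (.e (nat_lit 7272) (nat_lit 385) (.e (nat_lit 122916) (nat_lit 14) (.e (nat_lit 352324) (nat_lit 26) (.e (nat_lit 147495) (nat_lit 11) (.e (nat_lit 24642) (nat_lit 11) .nil))))) .nil)) 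
(.lf (nat_lit 126121) (.g (nat_lit 2397) (.e (nat_lit 7272) (nat_lit 385) (.e (nat_lit 122917) (nat_lit 15) (.e (nat_lit 360491) (nat_lit 22) (.e (nat_lit 778466) (nat_lit 11) (.e (nat_lit 24642) (nat_lit 11) (.e (nat_lit 368662) (nat_lit 18) .nil)))))) (.g (nat_lit 4) .nil .nil)))) (.nd (nat_lit 5) 
(.lf (nat_lit 126105) (.g (nat_lit 1800) (.e (nat_lit 7272) (nat_lit 385) (.e (nat_lit 122917) (nat_lit 15) (.e (nat_lit 360452) (nat_lit 0) (.e (nat_lit 7272) (nat_lit 385) (.e (nat_lit 122917) (nat_lit 15) (.e (nat_lit 368384) (nat_lit 0) .nil)))))) (.g (nat_lit 4) .nil .nil))) 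
(.lf (nat_lit 126137) (.g (nat_lit 1366) (.e (nat_lit 7272) (nat_lit 385) (.e (nat_lit 122918) (nat_lit 15) (.e (nat_lit 360492) (nat_lit 22) (.e (nat_lit 778466) (nat_lit 11) (.e (nat_lit 24643) (nat_lit 11) .nil))))) .nil))))) (.nd (nat_lit 3) (.nd (nat_lit 4) (.nd (nat_lit 5) 
(.lf (nat_lit 126085) (.g (nat_lit 2986) (.e (nat_lit 7272) (nat_lit 385) (.e (nat_lit 122916) (nat_lit 14) (.e (nat_lit 352324) (nat_lit 26) (.e (nat_lit 147494) (nat_lit 11) (.e (nat_lit 24644) (nat_lit 11) (.e (nat_lit 368662) (nat_lit 18) .nil)))))) (.g (nat_lit 0) .nil .nil))) 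
(.lf (nat_lit 126117) (.g (nat_lit 1844) (.e (nat_lit 7272) (nat_lit 385) (.e (nat_lit 122917) (nat_lit 15) (.e (nat_lit 360491) (nat_lit 22) (.e (nat_lit 778465) (nat_lit 11) (.e (nat_lit 24640) (nat_lit 10) (.e (nat_lit 344101) (nat_lit 18) .nil)))))) (.g (nat_lit 4) .nil .nil)))) (.nd (nat_lit 5) 
(.lf (nat_lit 126101) (.g (nat_lit 2975) (.e (nat_lit 7272) (nat_lit 385) (.e (nat_lit 122917) (nat_lit 15) (.e (nat_lit 360451) (nat_lit 0) (.e (nat_lit 7122) (nat_lit 382) (.e (nat_lit 1201) (nat_lit 88) (.e (nat_lit 65610) (nat_lit 10) (.e (nat_lit 344097) (nat_lit 18) .nil))))))) (.g (nat_lit 4) .nil .nil))) 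
(.lf (nat_lit 126133) (.g (nat_lit 1485) (.e (nat_lit 7272) (nat_lit 385) (.e (nat_lit 122918) (nat_lit 15) (.e (nat_lit 360491) (nat_lit 22) (.e (nat_lit 778466) (nat_lit 11) (.e (nat_lit 24643) (nat_lit 11) (.e (nat_lit 368662) (nat_lit 18) .nil)))))) (.g (nat_lit 4) .nil .nil))))) (.nd (nat_lit 4) (.nd (nat_lit 5) 
(.lf (nat_lit 126093) (.g (nat_lit 3663) (.e (nat_lit 7272) (nat_lit 385) (.e (nat_lit 122916) (nat_lit 14) (.e (nat_lit 352324) (nat_lit 26) (.e (nat_lit 147496) (nat_lit 11) (.e (nat_lit 24640) (nat_lit 10) (.e (nat_lit 344097) (nat_lit 18) .nil)))))) (.g (nat_lit 0) .nil .nil))) 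
(.lf (nat_lit 126125) (.g (nat_lit 2529) (.e (nat_lit 7272) (nat_lit 385) (.e (nat_lit 122917) (nat_lit 15) (.e (nat_lit 360492) (nat_lit 22) (.e (nat_lit 778362) (nat_lit 9) (.e (nat_lit 321) (nat_lit 24) (.e (nat_lit 360453) (nat_lit 0) .nil)))))) (.g (nat_lit 0) .nil .nil)))) (.nd (nat_lit 5) 
(.lf (nat_lit 126109) (.g (nat_lit 2414) (.e (nat_lit 7272) (nat_lit 385) (.e (nat_lit 122917) (nat_lit 15) (.e (nat_lit 360452) (nat_lit 0) (.e (nat_lit 7273) (nat_lit 385) (.e (nat_lit 122919) (nat_lit 15) (.e (nat_lit 360453) (nat_lit 0) .nil)))))) (.g (nat_lit 5) .nil .nil))) 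
(.lf (nat_lit 126141) (.g (nat_lit 1346) (.e (nat_lit 7272) (nat_lit 385) (.e (nat_lit 122919) (nat_lit 15) (.e (nat_lit 360451) (nat_lit 0) (.e (nat_lit 7261) (nat_lit 384) .nil)))) .nil)))))) (.nd (nat_lit 2) (.nd (nat_lit 3) (.nd (nat_lit 4) (.nd (nat_lit 5) 
(.lf (nat_lit 126083) (.g (nat_lit 2920) (.e (nat_lit 7272) (nat_lit 385) (.e (nat_lit 122916) (nat_lit 14) (.e (nat_lit 352324) (nat_lit 26) (.e (nat_lit 147493) (nat_lit 11) (.e (nat_lit 24646) (nat_lit 11) (.e (nat_lit 368662) (nat_lit 18) .nil)))))) (.g (nat_lit 0) .nil .nil))) 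
(.lf (nat_lit 126115) (.g (nat_lit 647) (.e (nat_lit 7272) (nat_lit 385) (.e (nat_lit 122917) (nat_lit 15) (.e (nat_lit 360490) (nat_lit 22) (.e (nat_lit 778334) (nat_lit 9) .nil)))) .nil))) (.nd (nat_lit 5) 
(.lf (nat_lit 126099) (.g (nat_lit 2787) (.e (nat_lit 7272) (nat_lit 385) (.e (nat_lit 122917) (nat_lit 15) (.e (nat_lit 360450) (nat_lit 0) (.e (nat_lit 7122) (nat_lit 382) (.e (nat_lit 1201) (nat_lit 88) (.e (nat_lit 65610) (nat_lit 10) (.e (nat_lit 344097) (nat_lit 18) .nil))))))) (.g (nat_lit 4) .nil .nil))) 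
(.lf (nat_lit 126131) (.g (nat_lit 2560) (.e (nat_lit 7272) (nat_lit 385) (.e (nat_lit 122917) (nat_lit 15) (.e (nat_lit 360492) (nat_lit 22) (.e (nat_lit 778466) (nat_lit 11) (.e (nat_lit 24644) (nat_lit 11) (.e (nat_lit 368662) (nat_lit 18) .nil)))))) (.g (nat_lit 0) .nil .nil))))) (.nd (nat_lit 4) (.nd (nat_lit 5) 
(.lf (nat_lit 126091) (.g (nat_lit 3097) (.e (nat_lit 7272) (nat_lit 385) (.e (nat_lit 122916) (nat_lit 14) (.e (nat_lit 352324) (nat_lit 26) (.e (nat_lit 147495) (nat_lit 11) (.e (nat_lit 24644) (nat_lit 11) (.e (nat_lit 368662) (nat_lit 18) .nil)))))) (.g (nat_lit 6) .nil .nil))) 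
(.lf (nat_lit 126123) (.g (nat_lit 2711) (.e (nat_lit 7272) (nat_lit 385) (.e (nat_lit 122917) (nat_lit 15) (.e (nat_lit 360491) (nat_lit 22) (.e (nat_lit 778466) (nat_lit 11) (.e (nat_lit 24644) (nat_lit 11) (.e (nat_lit 368662) (nat_lit 18) .nil)))))) (.g (nat_lit 0) .nil .nil)))) (.nd (nat_lit 5) 
(.lf (nat_lit 126107) (.g (nat_lit 1548) (.e (nat_lit 7272) (nat_lit 385) (.e (nat_lit 122917) (nat_lit 15) (.e (nat_lit 360452) (nat_lit 0) (.e (nat_lit 7272) (nat_lit 385) (.e (nat_lit 122919) (nat_lit 15) (.e (nat_lit 368384) (nat_lit 0) .nil)))))) (.g (nat_lit 4) .nil .nil))) 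
(.lf (nat_lit 126139) (.g (nat_lit 1100) (.e (nat_lit 7272) (nat_lit 385) (.e (nat_lit 122919) (nat_lit 15) (.e (nat_lit 360450) (nat_lit 0) (.e (nat_lit 7261) (nat_lit 384) .nil)))) .nil))))) (.nd (nat_lit 3) (.nd (nat_lit 4) (.nd (nat_lit 5) 
(.lf (nat_lit 126087) (.g (nat_lit 3261) (.e (nat_lit 7272) (nat_lit 385) (.e (nat_lit 122916) (nat_lit 14) (.e (nat_lit 352324) (nat_lit 26) (.e (nat_lit 147495) (nat_lit 11) (.e (nat_lit 24639) (nat_lit 10) (.e (nat_lit 344097) (nat_lit 18) .nil)))))) (.g (nat_lit 6) .nil .nil))) 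
(.lf (nat_lit 126119) (.g (nat_lit 1858) (.e (nat_lit 7272) (nat_lit 385) (.e (nat_lit 122917) (nat_lit 15) (.e (nat_lit 360491) (nat_lit 22) (.e (nat_lit 778465) (nat_lit 11) (.e (nat_lit 24644) (nat_lit 11) (.e (nat_lit 368662) (nat_lit 18) .nil)))))) (.g (nat_lit 4) .nil .nil)))) (.nd (nat_lit 5) 
(.lf (nat_lit 126103) (.g (nat_lit 2092) (.e (nat_lit 7272) (nat_lit 385) (.e (nat_lit 122917) (nat_lit 15) (.e (nat_lit 360452) (nat_lit 0) (.e (nat_lit 7270) (nat_lit 385) (.e (nat_lit 122917) (nat_lit 15) (.e (nat_lit 368384) (nat_lit 0) .nil)))))) (.g (nat_lit 4) .nil .nil))) 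
(.lf (nat_lit 126135) (.g (nat_lit 1146) (.e (nat_lit 7272) (nat_lit 385) (.e (nat_lit 122918) (nat_lit 15) (.e (nat_lit 360492) (nat_lit 22) (.e (nat_lit 778362) (nat_lit 9) (.e (nat_lit 321) (nat_lit 24) .nil))))) .nil)))) (.nd (nat_lit 4) (.nd (nat_lit 5) 
(.lf (nat_lit 126095) (.g (nat_lit 2836) (.e (nat_lit 7272) (nat_lit 385) (.e (nat_lit 122916) (nat_lit 14) (.e (nat_lit 352324) (nat_lit 26) (.e (nat_lit 147496) (nat_lit 11) (.e (nat_lit 24643) (nat_lit 11) (.e (nat_lit 368662) (nat_lit 18) .nil)))))) (.g (nat_lit 0) .nil .nil))) 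
(.lf (nat_lit 126127) (.g (nat_lit 2055) (.e (nat_lit 7272) (nat_lit 385) (.e (nat_lit 122917) (nat_lit 15) (.e (nat_lit 360492) (nat_lit 22) (.e (nat_lit 778465) (nat_lit 11) (.e (nat_lit 24644) (nat_lit 11) (.e (nat_lit 368662) (nat_lit 18) .nil)))))) (.g (nat_lit 5) .nil .nil)))) (.nd (nat_lit 5) 
(.lf (nat_lit 126111) (.g (nat_lit 399) (.e (nat_lit 7272) (nat_lit 385) (.e (nat_lit 122917) (nat_lit 15) (.e (nat_lit 360489) (nat_lit 21) .nil))) .nil)) 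
(.lf (nat_lit 126143) (.g (nat_lit 1931) (.e (nat_lit 7272) (nat_lit 385) (.e (nat_lit 122919) (nat_lit 15) (.e (nat_lit 360451) (nat_lit 0) (.e (nat_lit 7263) (nat_lit 384) .nil)))) .nil))))))))

noncomputable def tv1694 : DT := (.nd (nat_lit 0) (.nd (nat_lit 1) (.nd (nat_lit 2) (.nd (nat_lit 3) (.nd (nat_lit 4) (.nd (nat_lit 5) 
(.lf (nat_lit 126144) (.g (nat_lit 2095) (.e (nat_lit 7272) (nat_lit 385) (.e (nat_lit 122919) (nat_lit 15) (.e (nat_lit 360451) (nat_lit 0) (.e (nat_lit 7265) (nat_lit 384) (.e (nat_lit 57427) (nat_lit 15) (.e (nat_lit 368384) (nat_lit 0) .nil)))))) (.g (nat_lit 4) .nil .nil))) 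
(.lf (nat_lit 126176) (.g (nat_lit 4265) (.e (nat_lit 7273) (nat_lit 385) (.e (nat_lit 122903) (nat_lit 12) (.e (nat_lit 336013) (nat_lit 2) (.e (nat_lit 90170) (nat_lit 13) (.e (nat_lit 172113) (nat_lit 10) (.e (nat_lit 434245) (nat_lit 28) (.e (nat_lit 573473) (nat_lit 12) (.e (nat_lit 57354) (nat_lit 0) .nil)))))))) (.g (nat_lit 0) .nil .nil)))) (.nd (nat_lit 5) 
(.lf (nat_lit 126160) (.g (nat_lit 1549) (.e (nat_lit 7272) (nat_lit 385) (.e (nat_lit 122919) (nat_lit 15) (.e (nat_lit 360491) (nat_lit 22) (.e (nat_lit 778465) (nat_lit 11) (.e (nat_lit 24644) (nat_lit 11) (.e (nat_lit 368662) (nat_lit 18) .nil)))))) (.g (nat_lit 4) .nil .nil))) 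
(.lf (nat_lit 126192) (.g (nat_lit 3995) (.e (nat_lit 7273) (nat_lit 385) (.e (nat_lit 122913) (nat_lit 13) (.e (nat_lit 344117) (nat_lit 21) (.e (nat_lit 516151) (nat_lit 9) (.e (nat_lit 426286) (nat_lit 10) (.e (nat_lit 434245) (nat_lit 28) (.e (nat_lit 573474) (nat_lit 12) (.e (nat_lit 57356) (nat_lit 0) .nil)))))))) (.g (nat_lit 0) .nil .nil))))) (.nd (nat_lit 4) (.nd (nat_lit 5) 
(.lf (nat_lit 126152) (.g (nat_lit 2898) (.e (nat_lit 7272) (nat_lit 385) (.e (nat_lit 122919) (nat_lit 15) (.e (nat_lit 360453) (nat_lit 0) (.e (nat_lit 7272) (nat_lit 385) (.e (nat_lit 122919) (nat_lit 15) (.e (nat_lit 360453) (nat_lit 0) .nil)))))) (.g (nat_lit 6) .nil .nil))) 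
(.lf (nat_lit 126184) (.g (nat_lit 4325) (.e (nat_lit 7273) (nat_lit 385) (.e (nat_lit 122911) (nat_lit 13) (.e (nat_lit 344117) (nat_lit 21) (.e (nat_lit 516151) (nat_lit 9) (.e (nat_lit 426286) (nat_lit 10) (.e (nat_lit 434245) (nat_lit 28) (.e (nat_lit 573473) (nat_lit 12) (.e (nat_lit 57354) (nat_lit 0) .nil)))))))) (.g (nat_lit 0) .nil .nil)))) (.nd (nat_lit 5) 
(.lf (nat_lit 126168) (.g (nat_lit 1754) (.e (nat_lit 7272) (nat_lit 385) (.e (nat_lit 122919) (nat_lit 15) (.e (nat_lit 360492) (nat_lit 22) (.e (nat_lit 778465) (nat_lit 11) (.e (nat_lit 24643) (nat_lit 11) (.e (nat_lit 368662) (nat_lit 18) .nil)))))) (.g (nat_lit 4) .nil .nil))) 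
(.lf (nat_lit 126200) (.g (nat_lit 1187) (.e (nat_lit 7273) (nat_lit 385) (.e (nat_lit 122913) (nat_lit 13) (.e (nat_lit 344177) (nat_lit 43) (.e (nat_lit 770091) (nat_lit 18) .nil)))) .nil))))) (.nd (nat_lit 3) (.nd (nat_lit 4) (.nd (nat_lit 5) 
(.lf (nat_lit 126148) (.g (nat_lit 2413) (.e (nat_lit 7272) (nat_lit 385) (.e (nat_lit 122919) (nat_lit 15) (.e (nat_lit 360452) (nat_lit 0) (.e (nat_lit 7273) (nat_lit 385) (.e (nat_lit 122917) (nat_lit 15) (.e (nat_lit 360452) (nat_lit 0) .nil)))))) (.g (nat_lit 5) .nil .nil))) 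
(.lf (nat_lit 126180) (.g (nat_lit 2648) (.e (nat_lit 7273) (nat_lit 385) (.e (nat_lit 122903) (nat_lit 12) (.e (nat_lit 336028) (nat_lit 3) (.e (nat_lit 98372) (nat_lit 29) (.e (nat_lit 450586) (nat_lit 10) (.e (nat_lit 573477) (nat_lit 12) (.e (nat_lit 57357) (nat_lit 0) .nil))))))) (.g (nat_lit 0) .nil .nil)))) (.nd (nat_lit 5) 
(.lf (nat_lit 126164) (.g (nat_lit 1820) (.e (nat_lit 7272) (nat_lit 385) (.e (nat_lit 122919) (nat_lit 15) (.e (nat_lit 360491) (nat_lit 22) (.e (nat_lit 778466) (nat_lit 11) (.e (nat_lit 24645) (nat_lit 11) (.e (nat_lit 368662) (nat_lit 18) .nil)))))) (.g (nat_lit 4) .nil .nil))) 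
(.lf (nat_lit 126196) (.g (nat_lit 3251) (.e (nat_lit 7273) (nat_lit 385) (.e (nat_lit 122913) (nat_lit 13) (.e (nat_lit 344117) (nat_lit 21) (.e (nat_lit 516166) (nat_lit 12) (.e (nat_lit 450587) (nat_lit 10) (.e (nat_lit 573477) (nat_lit 12) (.e (nat_lit 57357) (nat_lit 0) .nil))))))) (.g (nat_lit 0) .nil .nil))))) (.nd (nat_lit 4) (.nd (nat_lit 5) 
(.lf (nat_lit 126156) (.g (nat_lit 3457) (.e (nat_lit 7272) (nat_lit 385) (.e (nat_lit 122919) (nat_lit 15) (.e (nat_lit 360489) (nat_lit 21) (.e (nat_lit 770072) (nat_lit 8) (.e (nat_lit 65610) (nat_lit 10) (.e (nat_lit 344097) (nat_lit 18) .nil)))))) (.g (nat_lit 0) .nil .nil))) 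
(.lf (nat_lit 126188) (.g (nat_lit 3022) (.e (nat_lit 7273) (nat_lit 385) (.e (nat_lit 122911) (nat_lit 13) (.e (nat_lit 344117) (nat_lit 21) (.e (nat_lit 516165) (nat_lit 12) (.e (nat_lit 450586) (nat_lit 10) (.e (nat_lit 573477) (nat_lit 12) (.e (nat_lit 57357) (nat_lit 0) .nil))))))) (.g (nat_lit 0) .nil .nil)))) (.nd (nat_lit 5) 
(.lf (nat_lit 126172) (.g (nat_lit 2264) (.e (nat_lit 7272) (nat_lit 385) (.e (nat_lit 122919) (nat_lit 15) (.e (nat_lit 360492) (nat_lit 22) (.e (nat_lit 778466) (nat_lit 11) (.e (nat_lit 24643) (nat_lit 11) (.e (nat_lit 368662) (nat_lit 18) .nil)))))) (.g (nat_lit 0) .nil .nil))) 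
(.lf (nat_lit 126204) (.g (nat_lit 1084) (.e (nat_lit 7273) (nat_lit 385) (.e (nat_lit 122914) (nat_lit 14) (.e (nat_lit 352272) (nat_lit 10) (.e (nat_lit 417795) (nat_lit 0) (.e (nat_lit 5409) (nat_lit 303) (.e (nat_lit 81664) (nat_lit 0) .nil)))))) (.g (nat_lit 5) .nil .nil))))))) (.nd (nat_lit 2) (.nd (nat_lit 3) (.nd (nat_lit 4) (.nd (nat_lit 5) 
(.lf (nat_lit 126146) (.g (nat_lit 2292) (.e (nat_lit 7272) (nat_lit 385) (.e (nat_lit 122919) (nat_lit 15) (.e (nat_lit 360452) (nat_lit 0) (.e (nat_lit 7272) (nat_lit 385) (.e (nat_lit 122919) (nat_lit 15) (.e (nat_lit 360452) (nat_lit 0) .nil)))))) (.g (nat_lit 4) .nil .nil))) 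
(.lf (nat_lit 126178) (.g (nat_lit 4431) (.e (nat_lit 7273) (nat_lit 385) (.e (nat_lit 122903) (nat_lit 12) (.e (nat_lit 336013) (nat_lit 2) (.e (nat_lit 90170) (nat_lit 13) (.e (nat_lit 172113) (nat_lit 10) (.e (nat_lit 434248) (nat_lit 28) (.e (nat_lit 573473) (nat_lit 12) (.e (nat_lit 57354) (nat_lit 0) .nil)))))))) (.g (nat_lit 0) .nil .nil)))) (.nd (nat_lit 5) 
(.lf (nat_lit 126162) (.g (nat_lit 2251) (.e (nat_lit 7272) (nat_lit 385) (.e (nat_lit 122919) (nat_lit 15) (.e (nat_lit 360491) (nat_lit 22) (.e (nat_lit 778466) (nat_lit 11) (.e (nat_lit 24643) (nat_lit 11) (.e (nat_lit 368662) (nat_lit 18) .nil)))))) (.g (nat_lit 0) .nil .nil))) 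
(.lf (nat_lit 126194) (.g (nat_lit 5087) (.e (nat_lit 7273) (nat_lit 385) (.e (nat_lit 122913) (nat_lit 13) (.e (nat_lit 344117) (nat_lit 21) (.e (nat_lit 516151) (nat_lit 9) (.e (nat_lit 426286) (nat_lit 10) (.e (nat_lit 434248) (nat_lit 28) (.e (nat_lit 573475) (nat_lit 12) (.e (nat_lit 57354) (nat_lit 0) .nil)))))))) (.g (nat_lit 0) .nil .nil))))) (.nd (nat_lit 4) (.nd (nat_lit 5) 
(.lf (nat_lit 126154) (.g (nat_lit 2766) (.e (nat_lit 7272) (nat_lit 385) (.e (nat_lit 122919) (nat_lit 15) (.e (nat_lit 360454) (nat_lit 0) (.e (nat_lit 7273) (nat_lit 385) (.e (nat_lit 122917) (nat_lit 15) (.e (nat_lit 360452) (nat_lit 0) .nil)))))) (.g (nat_lit 0) .nil .nil))) 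
(.lf (nat_lit 126186) (.g (nat_lit 4543) (.e (nat_lit 7273) (nat_lit 385) (.e (nat_lit 122911) (nat_lit 13) (.e (nat_lit 344117) (nat_lit 21) (.e (nat_lit 516151) (nat_lit 9) (.e (nat_lit 426286) (nat_lit 10) (.e (nat_lit 434248) (nat_lit 28) (.e (nat_lit 573473) (nat_lit 12) (.e (nat_lit 57354) (nat_lit 0) .nil)))))))) (.g (nat_lit 0) .nil .nil)))) (.nd (nat_lit 5) 
(.lf (nat_lit 126170) (.g (nat_lit 3290) (.e (nat_lit 7272) (nat_lit 385) (.e (nat_lit 122919) (nat_lit 15) (.e (nat_lit 360492) (nat_lit 22) (.e (nat_lit 778466) (nat_lit 11) (.e (nat_lit 24640) (nat_lit 10) (.e (nat_lit 344097) (nat_lit 18) .nil)))))) (.g (nat_lit 0) .nil .nil))) 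
(.lf (nat_lit 126202) (.g (nat_lit 903) (.e (nat_lit 7273) (nat_lit 385) (.e (nat_lit 122914) (nat_lit 14) (.e (nat_lit 352272) (nat_lit 10) (.e (nat_lit 417793) (nat_lit 0) (.e (nat_lit 5412) (nat_lit 303) (.e (nat_lit 81664) (nat_lit 0) .nil)))))) (.g (nat_lit 5) .nil .nil)))))) (.nd (nat_lit 3) (.nd (nat_lit 4) (.nd (nat_lit 5) 
(.lf (nat_lit 126150) (.g (nat_lit 1967) (.e (nat_lit 7272) (nat_lit 385) (.e (nat_lit 122919) (nat_lit 15) (.e (nat_lit 360453) (nat_lit 0) (.e (nat_lit 7270) (nat_lit 385) (.e (nat_lit 122917) (nat_lit 15) (.e (nat_lit 368384) (nat_lit 0) .nil)))))) (.g (nat_lit 4) .nil .nil))) 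
(.lf (nat_lit 126182) (.g (nat_lit 2763) (.e (nat_lit 7273) (nat_lit 385) (.e (nat_lit 122906) (nat_lit 12) (.e (nat_lit 336060) (nat_lit 7) (.e (nat_lit 319533) (nat_lit 16) (.e (nat_lit 286753) (nat_lit 10) (.e (nat_lit 344160) (nat_lit 37) (.e (nat_lit 647201) (nat_lit 12) (.e (nat_lit 57357) (nat_lit 0) .nil)))))))) (.g (nat_lit 7) .nil .nil)))) (.nd (nat_lit 5) 
(.lf (nat_lit 126166) (.g (nat_lit 2555) (.e (nat_lit 7272) (nat_lit 385) (.e (nat_lit 122919) (nat_lit 15) (.e (nat_lit 360492) (nat_lit 22) (.e (nat_lit 778465) (nat_lit 11) (.e (nat_lit 24639) (nat_lit 10) (.e (nat_lit 344097) (nat_lit 18) .nil)))))) (.g (nat_lit 5) .nil .nil))) 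
(.lf (nat_lit 126198) (.g (nat_lit 4704) (.e (nat_lit 7273) (nat_lit 385) (.e (nat_lit 122913) (nat_lit 13) (.e (nat_lit 344117) (nat_lit 21) (.e (nat_lit 516166) (nat_lit 12) (.e (nat_lit 450588) (nat_lit 10) (.e (nat_lit 573475) (nat_lit 12) (.e (nat_lit 57354) (nat_lit 0) .nil))))))) (.g (nat_lit 0) .nil .nil))))) (.nd (nat_lit 4) (.nd (nat_lit 5) 
(.lf (nat_lit 126158) (.g (nat_lit 2400) (.e (nat_lit 7272) (nat_lit 385) (.e (nat_lit 122919) (nat_lit 15) (.e (nat_lit 360491) (nat_lit 22) (.e (nat_lit 778362) (nat_lit 9) (.e (nat_lit 321) (nat_lit 24) (.e (nat_lit 360453) (nat_lit 0) .nil)))))) (.g (nat_lit 0) .nil .nil))) 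
(.lf (nat_lit 126190) (.g (nat_lit 4164) (.e (nat_lit 7273) (nat_lit 385) (.e (nat_lit 122911) (nat_lit 13) (.e (nat_lit 344117) (nat_lit 21) (.e (nat_lit 516166) (nat_lit 12) (.e (nat_lit 450588) (nat_lit 10) (.e (nat_lit 573473) (nat_lit 12) (.e (nat_lit 57354) (nat_lit 0) .nil))))))) (.g (nat_lit 0) .nil .nil)))) (.nd (nat_lit 5) 
(.lf (nat_lit 126174) (.g (nat_lit 1784) (.e (nat_lit 7272) (nat_lit 385) (.e (nat_lit 122919) (nat_lit 15) (.e (nat_lit 360492) (nat_lit 22) (.e (nat_lit 778466) (nat_lit 11) (.e (nat_lit 24645) (nat_lit 11) (.e (nat_lit 368662) (nat_lit 18) .nil)))))) (.g (nat_lit 4) .nil .nil))) 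
(.lf (nat_lit 126206) (.g (nat_lit 1297) (.e (nat_lit 7273) (nat_lit 385) (.e (nat_lit 122914) (nat_lit 14) (.e (nat_lit 352272) (nat_lit 10) (.e (nat_lit 417795) (nat_lit 0) (.e (nat_lit 5412) (nat_lit 303) (.e (nat_lit 81664) (nat_lit 0) .nil)))))) (.g (nat_lit 5) .nil .nil)))))))) (.nd (nat_lit 1) (.nd (nat_lit 2) (.nd (nat_lit 3) (.nd (nat_lit 4) (.nd (nat_lit 5) 
(.lf (nat_lit 126145) (.g (nat_lit 995) (.e (nat_lit 7272) (nat_lit 385) (.e (nat_lit 122919) (nat_lit 15) (.e (nat_lit 360452) (nat_lit 0) (.e (nat_lit 7272) (nat_lit 385) .nil)))) .nil)) 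
(.lf (nat_lit 126177) (.g (nat_lit 3950) (.e (nat_lit 7273) (nat_lit 385) (.e (nat_lit 122903) (nat_lit 12) (.e (nat_lit 336013) (nat_lit 2) (.e (nat_lit 90170) (nat_lit 13) (.e (nat_lit 172113) (nat_lit 10) (.e (nat_lit 434247) (nat_lit 28) (.e (nat_lit 573477) (nat_lit 12) (.e (nat_lit 57357) (nat_lit 0) .nil)))))))) (.g (nat_lit 0) .nil .nil)))) (.nd (nat_lit 5) 
(.lf (nat_lit 126161) (.g (nat_lit 2100) (.e (nat_lit 7272) (nat_lit 385) (.e (nat_lit 122919) (nat_lit 15) (.e (nat_lit 360491) (nat_lit 22) (.e (nat_lit 778466) (nat_lit 11) (.e (nat_lit 24642) (nat_lit 11) (.e (nat_lit 368662) (nat_lit 18) .nil)))))) (.g (nat_lit 4) .nil .nil))) 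
(.lf (nat_lit 126193) (.g (nat_lit 3772) (.e (nat_lit 7273) (nat_lit 385) (.e (nat_lit 122913) (nat_lit 13) (.e (nat_lit 344117) (nat_lit 21) (.e (nat_lit 516151) (nat_lit 9) (.e (nat_lit 426286) (nat_lit 10) (.e (nat_lit 434247) (nat_lit 28) (.e (nat_lit 573477) (nat_lit 12) (.e (nat_lit 57357) (nat_lit 0) .nil)))))))) (.g (nat_lit 0) .nil .nil))))) (.nd (nat_lit 4) (.nd (nat_lit 5) 
(.lf (nat_lit 126153) (.g (nat_lit 2224) (.e (nat_lit 7272) (nat_lit 385) (.e (nat_lit 122919) (nat_lit 15) (.e (nat_lit 360453) (nat_lit 0) (.e (nat_lit 7273) (nat_lit 385) (.e (nat_lit 122919) (nat_lit 15) (.e (nat_lit 360453) (nat_lit 0) .nil)))))) (.g (nat_lit 5) .nil .nil))) 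
(.lf (nat_lit 126185) (.g (nat_lit 3752) (.e (nat_lit 7273) (nat_lit 385) (.e (nat_lit 122911) (nat_lit 13) (.e (nat_lit 344117) (nat_lit 21) (.e (nat_lit 516151) (nat_lit 9) (.e (nat_lit 426286) (nat_lit 10) (.e (nat_lit 434247) (nat_lit 28) (.e (nat_lit 573477) (nat_lit 12) (.e (nat_lit 57357) (nat_lit 0) .nil)))))))) (.g (nat_lit 0) .nil .nil)))) (.nd (nat_lit 5) 
(.lf (nat_lit 126169) (.g (nat_lit 1864) (.e (nat_lit 7272) (nat_lit 385) (.e (nat_lit 122919) (nat_lit 15) (.e (nat_lit 360492) (nat_lit 22) (.e (nat_lit 778465) (nat_lit 11) (.e (nat_lit 24644) (nat_lit 11) (.e (nat_lit 368662) (nat_lit 18) .nil)))))) (.g (nat_lit 4) .nil .nil))) 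
(.lf (nat_lit 126201) (.g (nat_lit 371) (.e (nat_lit 7273) (nat_lit 385) (.e (nat_lit 122914) (nat_lit 14) (.e (nat_lit 352271) (nat_lit 9) .nil))) .nil))))) (.nd (nat_lit 3) (.nd (nat_lit 4) (.nd (nat_lit 5) 
(.lf (nat_lit 126149) (.g (nat_lit 1747) (.e (nat_lit 7272) (nat_lit 385) (.e (nat_lit 122919) (nat_lit 15) (.e (nat_lit 360452) (nat_lit 0) (.e (nat_lit 7273) (nat_lit 385) (.e (nat_lit 122917) (nat_lit 15) (.e (nat_lit 360453) (nat_lit 0) .nil)))))) (.g (nat_lit 4) .nil .nil))) 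
(.lf (nat_lit 126181) (.g (nat_lit 2308) (.e (nat_lit 7273) (nat_lit 385) (.e (nat_lit 122905) (nat_lit 12) (.e (nat_lit 336060) (nat_lit 7) (.e (nat_lit 319533) (nat_lit 16) (.e (nat_lit 286753) (nat_lit 10) (.e (nat_lit 344160) (nat_lit 37) (.e (nat_lit 647201) (nat_lit 12) (.e (nat_lit 57357) (nat_lit 0) .nil)))))))) (.g (nat_lit 5) .nil .nil)))) (.nd (nat_lit 5) 
(.lf (nat_lit 126165) (.g (nat_lit 2424) (.e (nat_lit 7272) (nat_lit 385) (.e (nat_lit 122919) (nat_lit 15) (.e (nat_lit 360492) (nat_lit 22) (.e (nat_lit 778362) (nat_lit 9) (.e (nat_lit 321) (nat_lit 24) (.e (nat_lit 360453) (nat_lit 0) .nil)))))) (.g (nat_lit 0) .nil .nil))) 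
(.lf (nat_lit 126197) (.g (nat_lit 2703) (.e (nat_lit 7273) (nat_lit 385) (.e (nat_lit 122913) (nat_lit 13) (.e (nat_lit 344117) (nat_lit 21) (.e (nat_lit 516166) (nat_lit 12) (.e (nat_lit 450587) (nat_lit 10) (.e (nat_lit 573478) (nat_lit 12) (.e (nat_lit 57356) (nat_lit 0) .nil))))))) (.g (nat_lit 0) .nil .nil))))) (.nd (nat_lit 4) (.nd (nat_lit 5) 
(.lf (nat_lit 126157) (.g (nat_lit 471) (.e (nat_lit 7272) (nat_lit 385) (.e (nat_lit 122919) (nat_lit 15) (.e (nat_lit 360490) (nat_lit 22) .nil))) .nil)) 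
(.lf (nat_lit 126189) (.g (nat_lit 3099) (.e (nat_lit 7273) (nat_lit 385) (.e (nat_lit 122911) (nat_lit 13) (.e (nat_lit 344117) (nat_lit 21) (.e (nat_lit 516166) (nat_lit 12) (.e (nat_lit 450587) (nat_lit 10) (.e (nat_lit 573477) (nat_lit 12) (.e (nat_lit 57357) (nat_lit 0) .nil))))))) (.g (nat_lit 0) .nil .nil)))) (.nd (nat_lit 5) 
(.lf (nat_lit 126173) (.g (nat_lit 2427) (.e (nat_lit 7272) (nat_lit 385) (.e (nat_lit 122919) (nat_lit 15) (.e (nat_lit 360492) (nat_lit 22) (.e (nat_lit 778466) (nat_lit 11) (.e (nat_lit 24644) (nat_lit 11) (.e (nat_lit 368662) (nat_lit 18) .nil)))))) (.g (nat_lit 0) .nil .nil))) 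
(.lf (nat_lit 126205) (.g (nat_lit 940) (.e (nat_lit 7273) (nat_lit 385) (.e (nat_lit 122914) (nat_lit 14) (.e (nat_lit 352272) (nat_lit 10) (.e (nat_lit 417795) (nat_lit 0) (.e (nat_lit 5410) (nat_lit 303) (.e (nat_lit 81664) (nat_lit 0) .nil)))))) (.g (nat_lit 5) .nil .nil))))))) (.nd (nat_lit 2) (.nd (nat_lit 3) (.nd (nat_lit 4) (.nd (nat_lit 5) 
(.lf (nat_lit 126147) (.g (nat_lit 2578) (.e (nat_lit 7272) (nat_lit 385) (.e (nat_lit 122919) (nat_lit 15) (.e (nat_lit 360452) (nat_lit 0) (.e (nat_lit 7272) (nat_lit 385) (.e (nat_lit 122919) (nat_lit 15) (.e (nat_lit 360453) (nat_lit 0) .nil)))))) (.g (nat_lit 5) .nil .nil))) 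
(.lf (nat_lit 126179) (.g (nat_lit 3354) (.e (nat_lit 7273) (nat_lit 385) (.e (nat_lit 122903) (nat_lit 12) (.e (nat_lit 336028) (nat_lit 3) (.e (nat_lit 98372) (nat_lit 29) (.e (nat_lit 450586) (nat_lit 10) (.e (nat_lit 573473) (nat_lit 12) (.e (nat_lit 57354) (nat_lit 0) .nil))))))) (.g (nat_lit 0) .nil .nil)))) (.nd (nat_lit 5) 
(.lf (nat_lit 126163) (.g (nat_lit 2416) (.e (nat_lit 7272) (nat_lit 385) (.e (nat_lit 122919) (nat_lit 15) (.e (nat_lit 360491) (nat_lit 22) (.e (nat_lit 778466) (nat_lit 11) (.e (nat_lit 24644) (nat_lit 11) (.e (nat_lit 368662) (nat_lit 18) .nil)))))) (.g (nat_lit 0) .nil .nil))) 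
(.lf (nat_lit 126195) (.g (nat_lit 3231) (.e (nat_lit 7273) (nat_lit 385) (.e (nat_lit 122913) (nat_lit 13) (.e (nat_lit 344117) (nat_lit 21) (.e (nat_lit 516165) (nat_lit 12) (.e (nat_lit 450586) (nat_lit 10) (.e (nat_lit 573477) (nat_lit 12) (.e (nat_lit 57357) (nat_lit 0) .nil))))))) (.g (nat_lit 0) .nil .nil))))) (.nd (nat_lit 4) (.nd (nat_lit 5) 
(.lf (nat_lit 126155) (.g (nat_lit 3411) (.e (nat_lit 7272) (nat_lit 385) (.e (nat_lit 122919) (nat_lit 15) (.e (nat_lit 360489) (nat_lit 21) (.e (nat_lit 770071) (nat_lit 8) (.e (nat_lit 65610) (nat_lit 10) (.e (nat_lit 344097) (nat_lit 18) .nil)))))) (.g (nat_lit 0) .nil .nil))) 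
(.lf (nat_lit 126187) (.g (nat_lit 3733) (.e (nat_lit 7273) (nat_lit 385) (.e (nat_lit 122911) (nat_lit 13) (.e (nat_lit 344117) (nat_lit 21) (.e (nat_lit 516165) (nat_lit 12) (.e (nat_lit 450586) (nat_lit 10) (.e (nat_lit 573473) (nat_lit 12) (.e (nat_lit 57354) (nat_lit 0) .nil))))))) (.g (nat_lit 0) .nil .nil)))) (.nd (nat_lit 5) 
(.lf (nat_lit 126171) (.g (nat_lit 1742) (.e (nat_lit 7272) (nat_lit 385) (.e (nat_lit 122919) (nat_lit 15) (.e (nat_lit 360492) (nat_lit 22) (.e (nat_lit 778466) (nat_lit 11) (.e (nat_lit 24642) (nat_lit 11) (.e (nat_lit 368662) (nat_lit 18) .nil)))))) (.g (nat_lit 4) .nil .nil))) 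
(.lf (nat_lit 126203) (.g (nat_lit 891) (.e (nat_lit 7273) (nat_lit 385) (.e (nat_lit 122914) (nat_lit 14) (.e (nat_lit 352272) (nat_lit 10) (.e (nat_lit 417794) (nat_lit 0) (.e (nat_lit 5412) (nat_lit 303) (.e (nat_lit 81664) (nat_lit 0) .nil)))))) (.g (nat_lit 5) .nil .nil)))))) (.nd (nat_lit 3) (.nd (nat_lit 4) (.nd (nat_lit 5) 
(.lf (nat_lit 126151) (.g (nat_lit 2780) (.e (nat_lit 7272) (nat_lit 385) (.e (nat_lit 122919) (nat_lit 15) (.e (nat_lit 360453) (nat_lit 0) (.e (nat_lit 7272) (nat_lit 385) (.e (nat_lit 122917) (nat_lit 15) (.e (nat_lit 360453) (nat_lit 0) .nil)))))) (.g (nat_lit 5) .nil .nil))) 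
(.lf (nat_lit 126183) (.g (nat_lit 1373) (.e (nat_lit 7273) (nat_lit 385) (.e (nat_lit 122908) (nat_lit 12) (.e (nat_lit 336213) (nat_lit 13) (.e (nat_lit 393301) (nat_lit 27) .nil)))) .nil))) (.nd (nat_lit 5) 
(.lf (nat_lit 126167) (.g (nat_lit 3397) (.e (nat_lit 7272) (nat_lit 385) (.e (nat_lit 122919) (nat_lit 15) (.e (nat_lit 360492) (nat_lit 22) (.e (nat_lit 778465) (nat_lit 11) (.e (nat_lit 24640) (nat_lit 10) (.e (nat_lit 344097) (nat_lit 18) .nil)))))) (.g (nat_lit 0) .nil .nil))) 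
(.lf (nat_lit 126199) (.g (nat_lit 1080) (.e (nat_lit 7273) (nat_lit 385) (.e (nat_lit 122913) (nat_lit 13) (.e (nat_lit 344133) (nat_lit 26) (.e (nat_lit 557098) (nat_lit 13) .nil)))) .nil)))) (.nd (nat_lit 4) (.nd (nat_lit 5) 
(.lf (nat_lit 126159) (.g (nat_lit 1442) (.e (nat_lit 7272) (nat_lit 385) (.e (nat_lit 122919) (nat_lit 15) (.e (nat_lit 360491) (nat_lit 22) (.e (nat_lit 778465) (nat_lit 11) (.e (nat_lit 24643) (nat_lit 11) .nil))))) .nil)) 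
(.lf (nat_lit 126191) (.g (nat_lit 5148) (.e (nat_lit 7273) (nat_lit 385) (.e (nat_lit 122913) (nat_lit 13) (.e (nat_lit 344117) (nat_lit 21) (.e (nat_lit 516151) (nat_lit 9) (.e (nat_lit 426286) (nat_lit 10) (.e (nat_lit 434245) (nat_lit 28) (.e (nat_lit 573474) (nat_lit 12) (.e (nat_lit 57354) (nat_lit 0) .nil)))))))) (.g (nat_lit 0) .nil .nil)))) (.nd (nat_lit 5) 
(.lf (nat_lit 126175) (.g (nat_lit 2225) (.e (nat_lit 7273) (nat_lit 385) (.e (nat_lit 122892) (nat_lit 3) (.e (nat_lit 98341) (nat_lit 20) (.e (nat_lit 221210) (nat_lit 22) (.e (nat_lit 196668) (nat_lit 14) (.e (nat_lit 81664) (nat_lit 5) (.e (nat_lit 532490) (nat_lit 0) (.e (nat_lit 1040) (nat_lit 81) .nil)))))))) (.g (nat_lit 5) .nil .nil))) 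
(.lf (nat_lit 126207) (.g (nat_lit 920) (.e (nat_lit 7273) (nat_lit 385) (.e (nat_lit 122914) (nat_lit 14) (.e (nat_lit 352272) (nat_lit 10) (.e (nat_lit 417795) (nat_lit 0) (.e (nat_lit 5413) (nat_lit 303) (.e (nat_lit 73734) (nat_lit 0) .nil)))))) (.g (nat_lit 5) .nil .nil)))))))))

noncomputable def tv1695 : DT := (.nd (nat_lit 0) (.nd (nat_lit 1) (.nd (nat_lit 2) (.nd (nat_lit 3) (.nd (nat_lit 4) (.nd (nat_lit 5) 
(.lf (nat_lit 126208) (.g (nat_lit 857) (.e (nat_lit 7273) (nat_lit 385) (.e (nat_lit 122914) (nat_lit 14) (.e (nat_lit 352272) (nat_lit 10) (.e (nat_lit 417795) (nat_lit 0) (.e (nat_lit 5413) (nat_lit 303) (.e (nat_lit 81664) (nat_lit 0) .nil)))))) (.g (nat_lit 5) .nil .nil))) 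
(.lf (nat_lit 126240) (.g (nat_lit 1221) (.e (nat_lit 7273) (nat_lit 385) (.e (nat_lit 122916) (nat_lit 14) (.e (nat_lit 352272) (nat_lit 10) (.e (nat_lit 417796) (nat_lit 0) (.e (nat_lit 5410) (nat_lit 303) (.e (nat_lit 81664) (nat_lit 0) .nil)))))) (.g (nat_lit 5) .nil .nil)))) (.nd (nat_lit 5) 
(.lf (nat_lit 126224) (.g (nat_lit 1819) (.e (nat_lit 7273) (nat_lit 385) (.e (nat_lit 122914) (nat_lit 14) (.e (nat_lit 352324) (nat_lit 26) (.e (nat_lit 147467) (nat_lit 9) (.e (nat_lit 324) (nat_lit 24) .nil))))) .nil)) 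
(.lf (nat_lit 126256) (.g (nat_lit 2277) (.e (nat_lit 7273) (nat_lit 385) (.e (nat_lit 122916) (nat_lit 14) (.e (nat_lit 352277) (nat_lit 11) (.e (nat_lit 426342) (nat_lit 14) (.e (nat_lit 491558) (nat_lit 10) (.e (nat_lit 344100) (nat_lit 18) .nil)))))) (.g (nat_lit 5) .nil .nil))))) (.nd (nat_lit 4) (.nd (nat_lit 5) 
(.lf (nat_lit 126216) (.g (nat_lit 1952) (.e (nat_lit 7273) (nat_lit 385) (.e (nat_lit 122914) (nat_lit 14) (.e (nat_lit 352277) (nat_lit 11) (.e (nat_lit 426009) (nat_lit 0) (.e (nat_lit 7591) (nat_lit 407) (.e (nat_lit 73733) (nat_lit 0) .nil)))))) (.g (nat_lit 6) .nil .nil))) 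
(.lf (nat_lit 126248) (.g (nat_lit 2409) (.e (nat_lit 7273) (nat_lit 385) (.e (nat_lit 122916) (nat_lit 14) (.e (nat_lit 352273) (nat_lit 11) (.e (nat_lit 426343) (nat_lit 14) (.e (nat_lit 491558) (nat_lit 10) (.e (nat_lit 344097) (nat_lit 18) .nil)))))) (.g (nat_lit 5) .nil .nil)))) (.nd (nat_lit 5) 
(.lf (nat_lit 126232) (.g (nat_lit 1029) (.e (nat_lit 7273) (nat_lit 385) (.e (nat_lit 122916) (nat_lit 14) (.e (nat_lit 352272) (nat_lit 10) (.e (nat_lit 417793) (nat_lit 0) (.e (nat_lit 5412) (nat_lit 303) (.e (nat_lit 81664) (nat_lit 0) .nil)))))) (.g (nat_lit 5) .nil .nil))) 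
(.lf (nat_lit 126264) (.g (nat_lit 1493) (.e (nat_lit 7273) (nat_lit 385) (.e (nat_lit 122916) (nat_lit 14) (.e (nat_lit 352293) (nat_lit 20) (.e (nat_lit 2270) (nat_lit 149) (.e (nat_lit 761868) (nat_lit 5) (.e (nat_lit 1585) (nat_lit 111) (.e (nat_lit 368384) (nat_lit 0) .nil))))))) (.g (nat_lit 4) .nil .nil)))))) (.nd (nat_lit 3) (.nd (nat_lit 4) (.nd (nat_lit 5) 
(.lf (nat_lit 126212) (.g (nat_lit 1062) (.e (nat_lit 7273) (nat_lit 385) (.e (nat_lit 122914) (nat_lit 14) (.e (nat_lit 352272) (nat_lit 10) (.e (nat_lit 417796) (nat_lit 0) (.e (nat_lit 5413) (nat_lit 303) (.e (nat_lit 73734) (nat_lit 0) .nil)))))) (.g (nat_lit 5) .nil .nil))) 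
(.lf (nat_lit 126244) (.g (nat_lit 1595) (.e (nat_lit 7273) (nat_lit 385) (.e (nat_lit 122916) (nat_lit 14) (.e (nat_lit 352272) (nat_lit 10) (.e (nat_lit 417811) (nat_lit 6) (.e (nat_lit 286756) (nat_lit 10) (.e (nat_lit 344100) (nat_lit 18) .nil)))))) (.g (nat_lit 5) .nil .nil)))) (.nd (nat_lit 5) 
(.lf (nat_lit 126228) (.g (nat_lit 1929) (.e (nat_lit 7273) (nat_lit 385) (.e (nat_lit 122914) (nat_lit 14) (.e (nat_lit 352324) (nat_lit 26) (.e (nat_lit 147496) (nat_lit 11) (.e (nat_lit 24639) (nat_lit 10) (.e (nat_lit 344097) (nat_lit 18) .nil)))))) (.g (nat_lit 4) .nil .nil))) 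
(.lf (nat_lit 126260) (.g (nat_lit 635) (.e (nat_lit 7273) (nat_lit 385) (.e (nat_lit 122916) (nat_lit 14) (.e (nat_lit 352283) (nat_lit 20) .nil))) .nil)))) (.nd (nat_lit 4) (.nd (nat_lit 5) 
(.lf (nat_lit 126220) (.g (nat_lit 727) (.e (nat_lit 7273) (nat_lit 385) (.e (nat_lit 122914) (nat_lit 14) (.e (nat_lit 352287) (nat_lit 20) (.e (nat_lit 2375) (nat_lit 154) .nil)))) .nil)) 
(.lf (nat_lit 126252) (.g (nat_lit 1997) (.e (nat_lit 7273) (nat_lit 385) (.e (nat_lit 122916) (nat_lit 14) (.e (nat_lit 352277) (nat_lit 11) (.e (nat_lit 426009) (nat_lit 0) (.e (nat_lit 7591) (nat_lit 407) (.e (nat_lit 73733) (nat_lit 0) .nil)))))) (.g (nat_lit 6) .nil .nil)))) (.nd (nat_lit 5) 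
(.lf (nat_lit 126236) (.g (nat_lit 1416) (.e (nat_lit 7273) (nat_lit 385) (.e (nat_lit 122916) (nat_lit 14) (.e (nat_lit 352272) (nat_lit 10) (.e (nat_lit 417795) (nat_lit 0) (.e (nat_lit 5412) (nat_lit 303) (.e (nat_lit 81664) (nat_lit 0) .nil)))))) (.g (nat_lit 5) .nil .nil))) 
(.lf (nat_lit 126268) (.g (nat_lit 1451) (.e (nat_lit 7273) (nat_lit 385) (.e (nat_lit 122916) (nat_lit 14) (.e (nat_lit 352302) (nat_lit 20) (.e (nat_lit 2270) (nat_lit 149) (.e (nat_lit 761868) (nat_lit 5) .nil))))) .nil)))))) (.nd (nat_lit 2) (.nd (nat_lit 3) (.nd (nat_lit 4) (.nd (nat_lit 5) 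
(.lf (nat_lit 126210) (.g (nat_lit 1087) (.e (nat_lit 7273) (nat_lit 385) (.e (nat_lit 122914) (nat_lit 14) (.e (nat_lit 352272) (nat_lit 10) (.e (nat_lit 417796) (nat_lit 0) (.e (nat_lit 5410) (nat_lit 303) (.e (nat_lit 81664) (nat_lit 0) .nil)))))) (.g (nat_lit 5) .nil .nil))) 
(.lf (nat_lit 126242) (.g (nat_lit 1132) (.e (nat_lit 7273) (nat_lit 385) (.e (nat_lit 122916) (nat_lit 14) (.e (nat_lit 352272) (nat_lit 10) (.e (nat_lit 417796) (nat_lit 0) (.e (nat_lit 5413) (nat_lit 303) (.e (nat_lit 81664) (nat_lit 0) .nil)))))) (.g (nat_lit 5) .nil .nil)))) (.nd (nat_lit 5) 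
(.lf (nat_lit 126226) (.g (nat_lit 2092) (.e (nat_lit 7273) (nat_lit 385) (.e (nat_lit 122914) (nat_lit 14) (.e (nat_lit 352324) (nat_lit 26) (.e (nat_lit 147495) (nat_lit 11) (.e (nat_lit 24639) (nat_lit 10) (.e (nat_lit 344097) (nat_lit 18) .nil)))))) (.g (nat_lit 4) .nil .nil))) 
(.lf (nat_lit 126258) (.g (nat_lit 2701) (.e (nat_lit 7273) (nat_lit 385) (.e (nat_lit 122916) (nat_lit 14) (.e (nat_lit 352277) (nat_lit 11) (.e (nat_lit 426344) (nat_lit 14) (.e (nat_lit 491560) (nat_lit 10) (.e (nat_lit 344099) (nat_lit 18) .nil)))))) (.g (nat_lit 6) .nil .nil))))) (.nd (nat_lit 4) (.nd (nat_lit 5) 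
(.lf (nat_lit 126218) (.g (nat_lit 2218) (.e (nat_lit 7273) (nat_lit 385) (.e (nat_lit 122914) (nat_lit 14) (.e (nat_lit 352277) (nat_lit 11) (.e (nat_lit 426342) (nat_lit 14) (.e (nat_lit 491558) (nat_lit 10) (.e (nat_lit 344100) (nat_lit 18) .nil)))))) (.g (nat_lit 5) .nil .nil))) 
(.lf (nat_lit 126250) (.g (nat_lit 1415) (.e (nat_lit 7273) (nat_lit 385) (.e (nat_lit 122916) (nat_lit 14) (.e (nat_lit 352273) (nat_lit 11) (.e (nat_lit 426344) (nat_lit 14) (.e (nat_lit 491558) (nat_lit 10) .nil))))) .nil))) (.nd (nat_lit 5) 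
(.lf (nat_lit 126234) (.g (nat_lit 1225) (.e (nat_lit 7273) (nat_lit 385) (.e (nat_lit 122916) (nat_lit 14) (.e (nat_lit 352272) (nat_lit 10) (.e (nat_lit 417795) (nat_lit 0) (.e (nat_lit 5409) (nat_lit 303) (.e (nat_lit 81664) (nat_lit 0) .nil)))))) (.g (nat_lit 5) .nil .nil))) 
(.lf (nat_lit 126266) (.g (nat_lit 592) (.e (nat_lit 7273) (nat_lit 385) (.e (nat_lit 122916) (nat_lit 14) (.e (nat_lit 352302) (nat_lit 20) .nil))) .nil))))) (.nd (nat_lit 3) (.nd (nat_lit 4) (.nd (nat_lit 5) 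
(.lf (nat_lit 126214) (.g (nat_lit 1563) (.e (nat_lit 7273) (nat_lit 385) (.e (nat_lit 122914) (nat_lit 14) (.e (nat_lit 352276) (nat_lit 11) (.e (nat_lit 425984) (nat_lit 0) (.e (nat_lit 7590) (nat_lit 407) (.e (nat_lit 73733) (nat_lit 0) .nil)))))) (.g (nat_lit 0) .nil .nil))) 
(.lf (nat_lit 126246) (.g (nat_lit 784) (.e (nat_lit 7273) (nat_lit 385) (.e (nat_lit 122916) (nat_lit 14) (.e (nat_lit 352273) (nat_lit 11) (.e (nat_lit 426010) (nat_lit 0) .nil)))) .nil))) (.nd (nat_lit 5) 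
(.lf (nat_lit 126230) (.g (nat_lit 643) (.e (nat_lit 7273) (nat_lit 385) (.e (nat_lit 122916) (nat_lit 14) (.e (nat_lit 352258) (nat_lit 0) .nil))) .nil)) 
(.lf (nat_lit 126262) (.g (nat_lit 633) (.e (nat_lit 7273) (nat_lit 385) (.e (nat_lit 122916) (nat_lit 14) (.e (nat_lit 352292) (nat_lit 20) .nil))) .nil)))) (.nd (nat_lit 4) (.nd (nat_lit 5) 
(.lf (nat_lit 126222) (.g (nat_lit 582) (.e (nat_lit 7273) (nat_lit 385) (.e (nat_lit 122914) (nat_lit 14) (.e (nat_lit 352324) (nat_lit 26) .nil))) .nil)) 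
(.lf (nat_lit 126254) (.g (nat_lit 2310) (.e (nat_lit 7273) (nat_lit 385) (.e (nat_lit 122916) (nat_lit 14) (.e (nat_lit 352277) (nat_lit 11) (.e (nat_lit 426010) (nat_lit 0) (.e (nat_lit 7591) (nat_lit 407) (.e (nat_lit 73733) (nat_lit 0) .nil)))))) (.g (nat_lit 0) .nil .nil)))) (.nd (nat_lit 5) 
(.lf (nat_lit 126238) (.g (nat_lit 492) (.e (nat_lit 7273) (nat_lit 385) (.e (nat_lit 122916) (nat_lit 14) (.e (nat_lit 352272) (nat_lit 10) (.e (nat_lit 417796) (nat_lit 0) .nil)))) .nil)) 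
(.lf (nat_lit 126270) (.g (nat_lit 629) (.e (nat_lit 7273) (nat_lit 385) (.e (nat_lit 122916) (nat_lit 14) (.e (nat_lit 352303) (nat_lit 20) .nil))) .nil))))))) (.nd (nat_lit 1) (.nd (nat_lit 2) (.nd (nat_lit 3) (.nd (nat_lit 4) (.nd (nat_lit 5) 
(.lf (nat_lit 126209) (.g (nat_lit 1402) (.e (nat_lit 7273) (nat_lit 385) (.e (nat_lit 122914) (nat_lit 14) (.e (nat_lit 352272) (nat_lit 10) (.e (nat_lit 417796) (nat_lit 0) (.e (nat_lit 5409) (nat_lit 303) (.e (nat_lit 81664) (nat_lit 0) .nil)))))) (.g (nat_lit 5) .nil .nil))) 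
(.lf (nat_lit 126241) (.g (nat_lit 1359) (.e (nat_lit 7273) (nat_lit 385) (.e (nat_lit 122916) (nat_lit 14) (.e (nat_lit 352272) (nat_lit 10) (.e (nat_lit 417796) (nat_lit 0) (.e (nat_lit 5412) (nat_lit 303) (.e (nat_lit 81664) (nat_lit 0) .nil)))))) (.g (nat_lit 5) .nil .nil)))) (.nd (nat_lit 5) 
(.lf (nat_lit 126225) (.g (nat_lit 1197) (.e (nat_lit 7273) (nat_lit 385) (.e (nat_lit 122914) (nat_lit 14) (.e (nat_lit 352324) (nat_lit 26) (.e (nat_lit 147495) (nat_lit 11) .nil)))) .nil)) 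
(.lf (nat_lit 126257) (.g (nat_lit 3194) (.e (nat_lit 7273) (nat_lit 385) (.e (nat_lit 122916) (nat_lit 14) (.e (nat_lit 352277) (nat_lit 11) (.e (nat_lit 426344) (nat_lit 14) (.e (nat_lit 491558) (nat_lit 10) (.e (nat_lit 344100) (nat_lit 18) .nil)))))) (.g (nat_lit 6) .nil .nil))))) (.nd (nat_lit 4) (.nd (nat_lit 5) 
(.lf (nat_lit 126217) (.g (nat_lit 2256) (.e (nat_lit 7273) (nat_lit 385) (.e (nat_lit 122914) (nat_lit 14) (.e (nat_lit 352277) (nat_lit 11) (.e (nat_lit 426342) (nat_lit 14) (.e (nat_lit 491558) (nat_lit 10) (.e (nat_lit 344097) (nat_lit 18) .nil)))))) (.g (nat_lit 6) .nil .nil))) 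
(.lf (nat_lit 126249) (.g (nat_lit 2581) (.e (nat_lit 7273) (nat_lit 385) (.e (nat_lit 122916) (nat_lit 14) (.e (nat_lit 352273) (nat_lit 11) (.e (nat_lit 426343) (nat_lit 14) (.e (nat_lit 491560) (nat_lit 10) (.e (nat_lit 344097) (nat_lit 18) .nil)))))) (.g (nat_lit 5) .nil .nil)))) (.nd (nat_lit 5) 
(.lf (nat_lit 126233) (.g (nat_lit 1013) (.e (nat_lit 7273) (nat_lit 385) (.e (nat_lit 122916) (nat_lit 14) (.e (nat_lit 352272) (nat_lit 10) (.e (nat_lit 417794) (nat_lit 0) (.e (nat_lit 5412) (nat_lit 303) (.e (nat_lit 81664) (nat_lit 0) .nil)))))) (.g (nat_lit 5) .nil .nil))) 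
(.lf (nat_lit 126265) (.g (nat_lit 1774) (.e (nat_lit 7273) (nat_lit 385) (.e (nat_lit 122916) (nat_lit 14) (.e (nat_lit 352293) (nat_lit 20) (.e (nat_lit 2270) (nat_lit 149) (.e (nat_lit 761868) (nat_lit 5) (.e (nat_lit 1597) (nat_lit 111) (.e (nat_lit 368384) (nat_lit 0) .nil))))))) (.g (nat_lit 5) .nil .nil)))))) (.nd (nat_lit 3) (.nd (nat_lit 4) (.nd (nat_lit 5) 
(.lf (nat_lit 126213) (.g (nat_lit 995) (.e (nat_lit 7273) (nat_lit 385) (.e (nat_lit 122914) (nat_lit 14) (.e (nat_lit 352272) (nat_lit 10) (.e (nat_lit 417796) (nat_lit 0) (.e (nat_lit 5413) (nat_lit 303) (.e (nat_lit 81664) (nat_lit 0) .nil)))))) (.g (nat_lit 5) .nil .nil))) 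
(.lf (nat_lit 126245) (.g (nat_lit 488) (.e (nat_lit 7273) (nat_lit 385) (.e (nat_lit 122916) (nat_lit 14) (.e (nat_lit 352273) (nat_lit 11) .nil))) .nil))) (.nd (nat_lit 5) 
(.lf (nat_lit 126229) (.g (nat_lit 622) (.e (nat_lit 7273) (nat_lit 385) (.e (nat_lit 122916) (nat_lit 14) (.e (nat_lit 352257) (nat_lit 0) .nil))) .nil)) 
(.lf (nat_lit 126261) (.g (nat_lit 634) (.e (nat_lit 7273) (nat_lit 385) (.e (nat_lit 122916) (nat_lit 14) (.e (nat_lit 352288) (nat_lit 20) .nil))) .nil)))) (.nd (nat_lit 4) (.nd (nat_lit 5) 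
(.lf (nat_lit 126221) (.g (nat_lit 2286) (.e (nat_lit 7273) (nat_lit 385) (.e (nat_lit 122914) (nat_lit 14) (.e (nat_lit 352309) (nat_lit 21) (.e (nat_lit 57684) (nat_lit 155) (.e (nat_lit 122919) (nat_lit 15) .nil))))) .nil)) 
(.lf (nat_lit 126253) (.g (nat_lit 899) (.e (nat_lit 7273) (nat_lit 385) (.e (nat_lit 122916) (nat_lit 14) (.e (nat_lit 352277) (nat_lit 11) (.e (nat_lit 426010) (nat_lit 0) .nil)))) .nil))) (.nd (nat_lit 5) 
(.lf (nat_lit 126237) (.g (nat_lit 983) (.e (nat_lit 7273) (nat_lit 385) (.e (nat_lit 122916) (nat_lit 14) (.e (nat_lit 352272) (nat_lit 10) (.e (nat_lit 417795) (nat_lit 0) (.e (nat_lit 5413) (nat_lit 303) (.e (nat_lit 81664) (nat_lit 0) .nil)))))) (.g (nat_lit 5) .nil .nil))) 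
(.lf (nat_lit 126269) (.g (nat_lit 1685) (.e (nat_lit 7273) (nat_lit 385) (.e (nat_lit 122916) (nat_lit 14) (.e (nat_lit 352302) (nat_lit 20) (.e (nat_lit 2270) (nat_lit 149) (.e (nat_lit 761868) (nat_lit 5) (.e (nat_lit 1597) (nat_lit 111) (.e (nat_lit 368384) (nat_lit 0) .nil))))))) (.g (nat_lit 4) .nil .nil))))))) (.nd (nat_lit 2) (.nd (nat_lit 3) (.nd (nat_lit 4) (.nd (nat_lit 5) 
(.lf (nat_lit 126211) (.g (nat_lit 1233) (.e (nat_lit 7273) (nat_lit 385) (.e (nat_lit 122914) (nat_lit 14) (.e (nat_lit 352272) (nat_lit 10) (.e (nat_lit 417796) (nat_lit 0) (.e (nat_lit 5412) (nat_lit 303) (.e (nat_lit 81664) (nat_lit 0) .nil)))))) (.g (nat_lit 5) .nil .nil))) 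
(.lf (nat_lit 126243) (.g (nat_lit 1703) (.e (nat_lit 7273) (nat_lit 385) (.e (nat_lit 122916) (nat_lit 14) (.e (nat_lit 352272) (nat_lit 10) (.e (nat_lit 417811) (nat_lit 6) (.e (nat_lit 286755) (nat_lit 10) (.e (nat_lit 344100) (nat_lit 18) .nil)))))) (.g (nat_lit 0) .nil .nil)))) (.nd (nat_lit 5) 
(.lf (nat_lit 126227) (.g (nat_lit 2283) (.e (nat_lit 7273) (nat_lit 385) (.e (nat_lit 122914) (nat_lit 14) (.e (nat_lit 352324) (nat_lit 26) (.e (nat_lit 147495) (nat_lit 11) (.e (nat_lit 24640) (nat_lit 10) (.e (nat_lit 344097) (nat_lit 18) .nil)))))) (.g (nat_lit 4) .nil .nil))) 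
(.lf (nat_lit 126259) (.g (nat_lit 636) (.e (nat_lit 7273) (nat_lit 385) (.e (nat_lit 122916) (nat_lit 14) (.e (nat_lit 352278) (nat_lit 11) .nil))) .nil)))) (.nd (nat_lit 4) (.nd (nat_lit 5) 
(.lf (nat_lit 126219) (.g (nat_lit 582) (.e (nat_lit 7273) (nat_lit 385) (.e (nat_lit 122914) (nat_lit 14) (.e (nat_lit 352278) (nat_lit 11) .nil))) .nil)) 
(.lf (nat_lit 126251) (.g (nat_lit 449) (.e (nat_lit 7273) (nat_lit 385) (.e (nat_lit 122916) (nat_lit 14) (.e (nat_lit 352277) (nat_lit 11) .nil))) .nil))) (.nd (nat_lit 5) 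
(.lf (nat_lit 126235) (.g (nat_lit 1062) (.e (nat_lit 7273) (nat_lit 385) (.e (nat_lit 122916) (nat_lit 14) (.e (nat_lit 352272) (nat_lit 10) (.e (nat_lit 417795) (nat_lit 0) (.e (nat_lit 5410) (nat_lit 303) (.e (nat_lit 81664) (nat_lit 0) .nil)))))) (.g (nat_lit 5) .nil .nil))) 
(.lf (nat_lit 126267) (.g (nat_lit 1554) (.e (nat_lit 7273) (nat_lit 385) (.e (nat_lit 122916) (nat_lit 14) (.e (nat_lit 352302) (nat_lit 20) (.e (nat_lit 2270) (nat_lit 149) (.e (nat_lit 761867) (nat_lit 5) .nil))))) .nil))))) (.nd (nat_lit 3) (.nd (nat_lit 4) (.nd (nat_lit 5) 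
(.lf (nat_lit 126215) (.g (nat_lit 445) (.e (nat_lit 7273) (nat_lit 385) (.e (nat_lit 122914) (nat_lit 14) (.e (nat_lit 352277) (nat_lit 11) .nil))) .nil)) 
(.lf (nat_lit 126247) (.g (nat_lit 757) (.e (nat_lit 7273) (nat_lit 385) (.e (nat_lit 122916) (nat_lit 14) (.e (nat_lit 352273) (nat_lit 11) (.e (nat_lit 426172) (nat_lit 7) .nil)))) .nil))) (.nd (nat_lit 5) 
(.lf (nat_lit 126231) (.g (nat_lit 643) (.e (nat_lit 7273) (nat_lit 385) (.e (nat_lit 122916) (nat_lit 14) (.e (nat_lit 352271) (nat_lit 9) .nil))) .nil)) 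
(.lf (nat_lit 126263) (.g (nat_lit 651) (.e (nat_lit 7273) (nat_lit 385) (.e (nat_lit 122916) (nat_lit 14) (.e (nat_lit 352293) (nat_lit 20) .nil))) .nil)))) (.nd (nat_lit 4) (.nd (nat_lit 5) 
(.lf (nat_lit 126223) (.g (nat_lit 2083) (.e (nat_lit 7273) (nat_lit 385) (.e (nat_lit 122914) (nat_lit 14) (.e (nat_lit 352324) (nat_lit 26) (.e (nat_lit 147466) (nat_lit 9) (.e (nat_lit 324) (nat_lit 24) .nil))))) .nil)) 
(.lf (nat_lit 126255) (.g (nat_lit 2312) (.e (nat_lit 7273) (nat_lit 385) (.e (nat_lit 122916) (nat_lit 14) (.e (nat_lit 352277) (nat_lit 11) (.e (nat_lit 426342) (nat_lit 14) (.e (nat_lit 491558) (nat_lit 10) (.e (nat_lit 344097) (nat_lit 18) .nil)))))) (.g (nat_lit 6) .nil .nil)))) (.nd (nat_lit 5) 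
(.lf (nat_lit 126239) (.g (nat_lit 1537) (.e (nat_lit 7273) (nat_lit 385) (.e (nat_lit 122916) (nat_lit 14) (.e (nat_lit 352272) (nat_lit 10) (.e (nat_lit 417796) (nat_lit 0) (.e (nat_lit 5409) (nat_lit 303) (.e (nat_lit 81664) (nat_lit 0) .nil)))))) (.g (nat_lit 5) .nil .nil))) 
(.lf (nat_lit 126271) (.g (nat_lit 2433) (.e (nat_lit 7273) (nat_lit 385) (.e (nat_lit 122916) (nat_lit 14) (.e (nat_lit 352307) (nat_lit 21) (.e (nat_lit 57681) (nat_lit 155) (.e (nat_lit 122917) (nat_lit 15) .nil))))) .nil))))))))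

noncomputable def tv1696 : DT := (.nd (nat_lit 0) (.nd (nat_lit 1) (.nd (nat_lit 2) (.nd (nat_lit 3) (.nd (nat_lit 4) (.nd (nat_lit 5) 
(.lf (nat_lit 126272) (.g (nat_lit 1139) (.e (nat_lit 7273) (nat_lit 385) (.e (nat_lit 122916) (nat_lit 14) (.e (nat_lit 352307) (nat_lit 21) (.e (nat_lit 57683) (nat_lit 155) .nil)))) .nil)) 
(.lf (nat_lit 126304) (.g (nat_lit 3089) (.e (nat_lit 7273) (nat_lit 385) (.e (nat_lit 122916) (nat_lit 14) (.e (nat_lit 352309) (nat_lit 21) (.e (nat_lit 57683) (nat_lit 155) (.e (nat_lit 122917) (nat_lit 15) (.e (nat_lit 360453) (nat_lit 0) .nil)))))) (.g (nat_lit 5) .nil .nil)))) (.nd (nat_lit 5) 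
(.lf (nat_lit 126288) (.g (nat_lit 1716) (.e (nat_lit 7273) (nat_lit 385) (.e (nat_lit 122916) (nat_lit 14) (.e (nat_lit 352309) (nat_lit 21) (.e (nat_lit 57680) (nat_lit 155) .nil)))) .nil)) 
(.lf (nat_lit 126320) (.g (nat_lit 1902) (.e (nat_lit 7273) (nat_lit 385) (.e (nat_lit 122916) (nat_lit 14) (.e (nat_lit 352324) (nat_lit 26) (.e (nat_lit 147466) (nat_lit 9) (.e (nat_lit 321) (nat_lit 24) (.e (nat_lit 360453) (nat_lit 0) .nil)))))) (.g (nat_lit 4) .nil .nil))))) (.nd (nat_lit 4) (.nd (nat_lit 5) 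
(.lf (nat_lit 126280) (.g (nat_lit 2413) (.e (nat_lit 7273) (nat_lit 385) (.e (nat_lit 122916) (nat_lit 14) (.e (nat_lit 352308) (nat_lit 21) (.e (nat_lit 57681) (nat_lit 155) (.e (nat_lit 122917) (nat_lit 15) (.e (nat_lit 360453) (nat_lit 0) .nil)))))) (.g (nat_lit 5) .nil .nil))) 
(.lf (nat_lit 126312) (.g (nat_lit 920) (.e (nat_lit 7273) (nat_lit 385) (.e (nat_lit 122916) (nat_lit 14) (.e (nat_lit 352322) (nat_lit 26) (.e (nat_lit 147492) (nat_lit 11) .nil)))) .nil))) (.nd (nat_lit 5) 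
(.lf (nat_lit 126296) (.g (nat_lit 2331) (.e (nat_lit 7273) (nat_lit 385) (.e (nat_lit 122916) (nat_lit 14) (.e (nat_lit 352309) (nat_lit 21) (.e (nat_lit 57681) (nat_lit 155) (.e (nat_lit 122917) (nat_lit 15) (.e (nat_lit 368384) (nat_lit 0) .nil)))))) (.g (nat_lit 4) .nil .nil))) 
(.lf (nat_lit 126328) (.g (nat_lit 1674) (.e (nat_lit 7273) (nat_lit 385) (.e (nat_lit 122916) (nat_lit 14) (.e (nat_lit 352324) (nat_lit 26) (.e (nat_lit 147494) (nat_lit 11) (.e (nat_lit 24646) (nat_lit 11) .nil))))) .nil))))) (.nd (nat_lit 3) (.nd (nat_lit 4) (.nd (nat_lit 5) 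
(.lf (nat_lit 126276) (.g (nat_lit 2015) (.e (nat_lit 7273) (nat_lit 385) (.e (nat_lit 122916) (nat_lit 14) (.e (nat_lit 352307) (nat_lit 21) (.e (nat_lit 57683) (nat_lit 155) (.e (nat_lit 122919) (nat_lit 15) (.e (nat_lit 360454) (nat_lit 0) .nil)))))) (.g (nat_lit 4) .nil .nil))) 
(.lf (nat_lit 126308) (.g (nat_lit 3132) (.e (nat_lit 7273) (nat_lit 385) (.e (nat_lit 122916) (nat_lit 14) (.e (nat_lit 352309) (nat_lit 21) (.e (nat_lit 57684) (nat_lit 155) (.e (nat_lit 122917) (nat_lit 15) (.e (nat_lit 360452) (nat_lit 0) .nil)))))) (.g (nat_lit 6) .nil .nil)))) (.nd (nat_lit 5) 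
(.lf (nat_lit 126292) (.g (nat_lit 2378) (.e (nat_lit 7273) (nat_lit 385) (.e (nat_lit 122916) (nat_lit 14) (.e (nat_lit 352309) (nat_lit 21) (.e (nat_lit 57680) (nat_lit 155) (.e (nat_lit 122919) (nat_lit 15) (.e (nat_lit 368384) (nat_lit 0) .nil)))))) (.g (nat_lit 4) .nil .nil))) 
(.lf (nat_lit 126324) (.g (nat_lit 1405) (.e (nat_lit 7273) (nat_lit 385) (.e (nat_lit 122916) (nat_lit 14) (.e (nat_lit 352324) (nat_lit 26) (.e (nat_lit 147493) (nat_lit 11) .nil)))) .nil)))) (.nd (nat_lit 4) (.nd (nat_lit 5) 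
(.lf (nat_lit 126284) (.g (nat_lit 1362) (.e (nat_lit 7273) (nat_lit 385) (.e (nat_lit 122916) (nat_lit 14) (.e (nat_lit 352308) (nat_lit 21) (.e (nat_lit 57683) (nat_lit 155) (.e (nat_lit 122919) (nat_lit 15) (.e (nat_lit 360453) (nat_lit 0) .nil)))))) (.g (nat_lit 4) .nil .nil))) 
(.lf (nat_lit 126316) (.g (nat_lit 2356) (.e (nat_lit 7273) (nat_lit 385) (.e (nat_lit 122916) (nat_lit 14) (.e (nat_lit 352322) (nat_lit 26) (.e (nat_lit 147496) (nat_lit 11) (.e (nat_lit 24639) (nat_lit 10) (.e (nat_lit 344097) (nat_lit 18) .nil)))))) (.g (nat_lit 5) .nil .nil)))) (.nd (nat_lit 5) 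
(.lf (nat_lit 126300) (.g (nat_lit 1761) (.e (nat_lit 7273) (nat_lit 385) (.e (nat_lit 122916) (nat_lit 14) (.e (nat_lit 352309) (nat_lit 21) (.e (nat_lit 57682) (nat_lit 155) .nil)))) .nil)) 
(.lf (nat_lit 126332) (.g (nat_lit 2370) (.e (nat_lit 7273) (nat_lit 385) (.e (nat_lit 122916) (nat_lit 14) (.e (nat_lit 352324) (nat_lit 26) (.e (nat_lit 147495) (nat_lit 11) (.e (nat_lit 24644) (nat_lit 11) (.e (nat_lit 368662) (nat_lit 18) .nil)))))) (.g (nat_lit 5) .nil .nil))))))) (.nd (nat_lit 2) (.nd (nat_lit 3) (.nd (nat_lit 4) (.nd (nat_lit 5) 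
(.lf (nat_lit 126274) (.g (nat_lit 1985) (.e (nat_lit 7273) (nat_lit 385) (.e (nat_lit 122916) (nat_lit 14) (.e (nat_lit 352307) (nat_lit 21) (.e (nat_lit 57683) (nat_lit 155) (.e (nat_lit 122919) (nat_lit 15) .nil))))) .nil)) 
(.lf (nat_lit 126306) (.g (nat_lit 2870) (.e (nat_lit 7273) (nat_lit 385) (.e (nat_lit 122916) (nat_lit 14) (.e (nat_lit 352309) (nat_lit 21) (.e (nat_lit 57683) (nat_lit 155) (.e (nat_lit 122919) (nat_lit 15) (.e (nat_lit 360454) (nat_lit 0) .nil)))))) (.g (nat_lit 5) .nil .nil)))) (.nd (nat_lit 5) 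
(.lf (nat_lit 126290) (.g (nat_lit 3680) (.e (nat_lit 7273) (nat_lit 385) (.e (nat_lit 122916) (nat_lit 14) (.e (nat_lit 352309) (nat_lit 21) (.e (nat_lit 57680) (nat_lit 155) (.e (nat_lit 122919) (nat_lit 15) (.e (nat_lit 360453) (nat_lit 0) .nil)))))) (.g (nat_lit 6) .nil .nil))) 
(.lf (nat_lit 126322) (.g (nat_lit 1354) (.e (nat_lit 7273) (nat_lit 385) (.e (nat_lit 122916) (nat_lit 14) (.e (nat_lit 352324) (nat_lit 26) (.e (nat_lit 147492) (nat_lit 11) .nil)))) .nil)))) (.nd (nat_lit 4) (.nd (nat_lit 5) 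
(.lf (nat_lit 126282) (.g (nat_lit 2803) (.e (nat_lit 7273) (nat_lit 385) (.e (nat_lit 122916) (nat_lit 14) (.e (nat_lit 352308) (nat_lit 21) (.e (nat_lit 57681) (nat_lit 155) (.e (nat_lit 122919) (nat_lit 15) (.e (nat_lit 360454) (nat_lit 0) .nil)))))) (.g (nat_lit 5) .nil .nil))) 
(.lf (nat_lit 126314) (.g (nat_lit 1985) (.e (nat_lit 7273) (nat_lit 385) (.e (nat_lit 122916) (nat_lit 14) (.e (nat_lit 352322) (nat_lit 26) (.e (nat_lit 147495) (nat_lit 11) (.e (nat_lit 24643) (nat_lit 11) (.e (nat_lit 368662) (nat_lit 18) .nil)))))) (.g (nat_lit 4) .nil .nil)))) (.nd (nat_lit 5) 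
(.lf (nat_lit 126298) (.g (nat_lit 3936) (.e (nat_lit 7273) (nat_lit 385) (.e (nat_lit 122916) (nat_lit 14) (.e (nat_lit 352309) (nat_lit 21) (.e (nat_lit 57681) (nat_lit 155) (.e (nat_lit 122919) (nat_lit 15) (.e (nat_lit 360453) (nat_lit 0) .nil)))))) (.g (nat_lit 6) .nil .nil))) 
(.lf (nat_lit 126330) (.g (nat_lit 2933) (.e (nat_lit 7273) (nat_lit 385) (.e (nat_lit 122916) (nat_lit 14) (.e (nat_lit 352324) (nat_lit 26) (.e (nat_lit 147495) (nat_lit 11) (.e (nat_lit 24640) (nat_lit 10) (.e (nat_lit 344097) (nat_lit 18) .nil)))))) (.g (nat_lit 5) .nil .nil)))))) (.nd (nat_lit 3) (.nd (nat_lit 4) (.nd (nat_lit 5) 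
(.lf (nat_lit 126278) (.g (nat_lit 1696) (.e (nat_lit 7273) (nat_lit 385) (.e (nat_lit 122916) (nat_lit 14) (.e (nat_lit 352307) (nat_lit 21) (.e (nat_lit 57684) (nat_lit 155) (.e (nat_lit 122919) (nat_lit 15) (.e (nat_lit 360453) (nat_lit 0) .nil)))))) (.g (nat_lit 4) .nil .nil))) 
(.lf (nat_lit 126310) (.g (nat_lit 2867) (.e (nat_lit 7273) (nat_lit 385) (.e (nat_lit 122916) (nat_lit 14) (.e (nat_lit 352309) (nat_lit 21) (.e (nat_lit 57684) (nat_lit 155) (.e (nat_lit 122919) (nat_lit 15) (.e (nat_lit 360453) (nat_lit 0) .nil)))))) (.g (nat_lit 5) .nil .nil)))) (.nd (nat_lit 5) 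
(.lf (nat_lit 126294) (.g (nat_lit 3489) (.e (nat_lit 7273) (nat_lit 385) (.e (nat_lit 122916) (nat_lit 14) (.e (nat_lit 352309) (nat_lit 21) (.e (nat_lit 57681) (nat_lit 155) (.e (nat_lit 122917) (nat_lit 15) (.e (nat_lit 360452) (nat_lit 0) .nil)))))) (.g (nat_lit 5) .nil .nil))) 
(.lf (nat_lit 126326) (.g (nat_lit 1954) (.e (nat_lit 7273) (nat_lit 385) (.e (nat_lit 122916) (nat_lit 14) (.e (nat_lit 352324) (nat_lit 26) (.e (nat_lit 147494) (nat_lit 11) (.e (nat_lit 24643) (nat_lit 11) (.e (nat_lit 368662) (nat_lit 18) .nil)))))) (.g (nat_lit 5) .nil .nil))))) (.nd (nat_lit 4) (.nd (nat_lit 5) 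
(.lf (nat_lit 126286) (.g (nat_lit 1898) (.e (nat_lit 7273) (nat_lit 385) (.e (nat_lit 122916) (nat_lit 14) (.e (nat_lit 352309) (nat_lit 21) (.e (nat_lit 57666) (nat_lit 152) .nil)))) .nil)) 
(.lf (nat_lit 126318) (.g (nat_lit 450) (.e (nat_lit 7273) (nat_lit 385) (.e (nat_lit 122916) (nat_lit 14) (.e (nat_lit 352324) (nat_lit 26) .nil))) .nil))) (.nd (nat_lit 5) 
(.lf (nat_lit 126302) (.g (nat_lit 3049) (.e (nat_lit 7273) (nat_lit 385) (.e (nat_lit 122916) (nat_lit 14) (.e (nat_lit 352309) (nat_lit 21) (.e (nat_lit 57682) (nat_lit 155) (.e (nat_lit 122919) (nat_lit 15) (.e (nat_lit 360454) (nat_lit 0) .nil)))))) (.g (nat_lit 6) .nil .nil))) 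
(.lf (nat_lit 126334) (.g (nat_lit 1047) (.e (nat_lit 7273) (nat_lit 385) (.e (nat_lit 122916) (nat_lit 14) (.e (nat_lit 352324) (nat_lit 26) (.e (nat_lit 147496) (nat_lit 11) .nil)))) .nil))))))) (.nd (nat_lit 1) (.nd (nat_lit 2) (.nd (nat_lit 3) (.nd (nat_lit 4) (.nd (nat_lit 5) 
(.lf (nat_lit 126273) (.g (nat_lit 2803) (.e (nat_lit 7273) (nat_lit 385) (.e (nat_lit 122916) (nat_lit 14) (.e (nat_lit 352307) (nat_lit 21) (.e (nat_lit 57683) (nat_lit 155) (.e (nat_lit 122917) (nat_lit 15) (.e (nat_lit 360452) (nat_lit 0) .nil)))))) (.g (nat_lit 5) .nil .nil))) 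
(.lf (nat_lit 126305) (.g (nat_lit 2251) (.e (nat_lit 7273) (nat_lit 385) (.e (nat_lit 122916) (nat_lit 14) (.e (nat_lit 352309) (nat_lit 21) (.e (nat_lit 57683) (nat_lit 155) (.e (nat_lit 122919) (nat_lit 15) .nil))))) .nil))) (.nd (nat_lit 5) 
(.lf (nat_lit 126289) (.g (nat_lit 2852) (.e (nat_lit 7273) (nat_lit 385) (.e (nat_lit 122916) (nat_lit 14) (.e (nat_lit 352309) (nat_lit 21) (.e (nat_lit 57680) (nat_lit 155) (.e (nat_lit 122917) (nat_lit 15) (.e (nat_lit 360452) (nat_lit 0) .nil)))))) (.g (nat_lit 5) .nil .nil))) 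
(.lf (nat_lit 126321) (.g (nat_lit 1835) (.e (nat_lit 7273) (nat_lit 385) (.e (nat_lit 122916) (nat_lit 14) (.e (nat_lit 352324) (nat_lit 26) (.e (nat_lit 147467) (nat_lit 9) (.e (nat_lit 321) (nat_lit 24) (.e (nat_lit 360453) (nat_lit 0) .nil)))))) (.g (nat_lit 4) .nil .nil))))) (.nd (nat_lit 4) (.nd (nat_lit 5) 
(.lf (nat_lit 126281) (.g (nat_lit 3060) (.e (nat_lit 7273) (nat_lit 385) (.e (nat_lit 122916) (nat_lit 14) (.e (nat_lit 352308) (nat_lit 21) (.e (nat_lit 57681) (nat_lit 155) (.e (nat_lit 122919) (nat_lit 15) (.e (nat_lit 360453) (nat_lit 0) .nil)))))) (.g (nat_lit 5) .nil .nil))) 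
(.lf (nat_lit 126313) (.g (nat_lit 2888) (.e (nat_lit 7273) (nat_lit 385) (.e (nat_lit 122916) (nat_lit 14) (.e (nat_lit 352322) (nat_lit 26) (.e (nat_lit 147495) (nat_lit 11) (.e (nat_lit 24639) (nat_lit 10) (.e (nat_lit 344097) (nat_lit 18) .nil)))))) (.g (nat_lit 6) .nil .nil)))) (.nd (nat_lit 5) 
(.lf (nat_lit 126297) (.g (nat_lit 2365) (.e (nat_lit 7273) (nat_lit 385) (.e (nat_lit 122916) (nat_lit 14) (.e (nat_lit 352309) (nat_lit 21) (.e (nat_lit 57681) (nat_lit 155) (.e (nat_lit 122918) (nat_lit 15) .nil))))) .nil)) 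
(.lf (nat_lit 126329) (.g (nat_lit 2912) (.e (nat_lit 7273) (nat_lit 385) (.e (nat_lit 122916) (nat_lit 14) (.e (nat_lit 352324) (nat_lit 26) (.e (nat_lit 147495) (nat_lit 11) (.e (nat_lit 24639) (nat_lit 10) (.e (nat_lit 344097) (nat_lit 18) .nil)))))) (.g (nat_lit 6) .nil .nil)))))) (.nd (nat_lit 3) (.nd (nat_lit 4) (.nd (nat_lit 5) 
(.lf (nat_lit 126277) (.g (nat_lit 2304) (.e (nat_lit 7273) (nat_lit 385) (.e (nat_lit 122916) (nat_lit 14) (.e (nat_lit 352307) (nat_lit 21) (.e (nat_lit 57684) (nat_lit 155) (.e (nat_lit 122917) (nat_lit 15) (.e (nat_lit 360452) (nat_lit 0) .nil)))))) (.g (nat_lit 5) .nil .nil))) 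
(.lf (nat_lit 126309) (.g (nat_lit 2827) (.e (nat_lit 7273) (nat_lit 385) (.e (nat_lit 122916) (nat_lit 14) (.e (nat_lit 352309) (nat_lit 21) (.e (nat_lit 57684) (nat_lit 155) (.e (nat_lit 122917) (nat_lit 15) (.e (nat_lit 360453) (nat_lit 0) .nil)))))) (.g (nat_lit 5) .nil .nil)))) (.nd (nat_lit 5) 
(.lf (nat_lit 126293) (.g (nat_lit 1427) (.e (nat_lit 7273) (nat_lit 385) (.e (nat_lit 122916) (nat_lit 14) (.e (nat_lit 352309) (nat_lit 21) (.e (nat_lit 57681) (nat_lit 155) .nil)))) .nil)) 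
(.lf (nat_lit 126325) (.g (nat_lit 1729) (.e (nat_lit 7273) (nat_lit 385) (.e (nat_lit 122916) (nat_lit 14) (.e (nat_lit 352324) (nat_lit 26) (.e (nat_lit 147493) (nat_lit 11) (.e (nat_lit 24645) (nat_lit 11) (.e (nat_lit 368662) (nat_lit 18) .nil)))))) (.g (nat_lit 4) .nil .nil))))) (.nd (nat_lit 4) (.nd (nat_lit 5) 
(.lf (nat_lit 126285) (.g (nat_lit 416) (.e (nat_lit 7273) (nat_lit 385) (.e (nat_lit 122916) (nat_lit 14) (.e (nat_lit 352309) (nat_lit 21) .nil))) .nil)) 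
(.lf (nat_lit 126317) (.g (nat_lit 2216) (.e (nat_lit 7273) (nat_lit 385) (.e (nat_lit 122916) (nat_lit 14) (.e (nat_lit 352322) (nat_lit 26) (.e (nat_lit 147496) (nat_lit 11) (.e (nat_lit 24643) (nat_lit 11) (.e (nat_lit 368662) (nat_lit 18) .nil)))))) (.g (nat_lit 5) .nil .nil)))) (.nd (nat_lit 5) 
(.lf (nat_lit 126301) (.g (nat_lit 2727) (.e (nat_lit 7273) (nat_lit 385) (.e (nat_lit 122916) (nat_lit 14) (.e (nat_lit 352309) (nat_lit 21) (.e (nat_lit 57682) (nat_lit 155) (.e (nat_lit 122917) (nat_lit 15) (.e (nat_lit 360453) (nat_lit 0) .nil)))))) (.g (nat_lit 5) .nil .nil))) 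
(.lf (nat_lit 126333) (.g (nat_lit 1999) (.e (nat_lit 7273) (nat_lit 385) (.e (nat_lit 122916) (nat_lit 14) (.e (nat_lit 352324) (nat_lit 26) (.e (nat_lit 147495) (nat_lit 11) (.e (nat_lit 24645) (nat_lit 11) .nil))))) .nil)))))) (.nd (nat_lit 2) (.nd (nat_lit 3) (.nd (nat_lit 4) (.nd (nat_lit 5) 
(.lf (nat_lit 126275) (.g (nat_lit 2271) (.e (nat_lit 7273) (nat_lit 385) (.e (nat_lit 122916) (nat_lit 14) (.e (nat_lit 352307) (nat_lit 21) (.e (nat_lit 57683) (nat_lit 155) (.e (nat_lit 122919) (nat_lit 15) (.e (nat_lit 360453) (nat_lit 0) .nil)))))) (.g (nat_lit 4) .nil .nil))) 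
(.lf (nat_lit 126307) (.g (nat_lit 1415) (.e (nat_lit 7273) (nat_lit 385) (.e (nat_lit 122916) (nat_lit 14) (.e (nat_lit 352309) (nat_lit 21) (.e (nat_lit 57684) (nat_lit 155) .nil)))) .nil))) (.nd (nat_lit 5) 
(.lf (nat_lit 126291) (.g (nat_lit 3556) (.e (nat_lit 7273) (nat_lit 385) (.e (nat_lit 122916) (nat_lit 14) (.e (nat_lit 352309) (nat_lit 21) (.e (nat_lit 57680) (nat_lit 155) (.e (nat_lit 122919) (nat_lit 15) (.e (nat_lit 360454) (nat_lit 0) .nil)))))) (.g (nat_lit 5) .nil .nil))) 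
(.lf (nat_lit 126323) (.g (nat_lit 1764) (.e (nat_lit 7273) (nat_lit 385) (.e (nat_lit 122916) (nat_lit 14) (.e (nat_lit 352324) (nat_lit 26) (.e (nat_lit 147492) (nat_lit 11) (.e (nat_lit 24645) (nat_lit 11) (.e (nat_lit 368662) (nat_lit 18) .nil)))))) (.g (nat_lit 4) .nil .nil))))) (.nd (nat_lit 4) (.nd (nat_lit 5) 
(.lf (nat_lit 126283) (.g (nat_lit 1513) (.e (nat_lit 7273) (nat_lit 385) (.e (nat_lit 122916) (nat_lit 14) (.e (nat_lit 352308) (nat_lit 21) (.e (nat_lit 57683) (nat_lit 155) (.e (nat_lit 122917) (nat_lit 15) (.e (nat_lit 360453) (nat_lit 0) .nil)))))) (.g (nat_lit 4) .nil .nil))) 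
(.lf (nat_lit 126315) (.g (nat_lit 1715) (.e (nat_lit 7273) (nat_lit 385) (.e (nat_lit 122916) (nat_lit 14) (.e (nat_lit 352322) (nat_lit 26) (.e (nat_lit 147495) (nat_lit 11) (.e (nat_lit 24645) (nat_lit 11) .nil))))) .nil))) (.nd (nat_lit 5) 
(.lf (nat_lit 126299) (.g (nat_lit 4439) (.e (nat_lit 7273) (nat_lit 385) (.e (nat_lit 122916) (nat_lit 14) (.e (nat_lit 352309) (nat_lit 21) (.e (nat_lit 57681) (nat_lit 155) (.e (nat_lit 122919) (nat_lit 15) (.e (nat_lit 360454) (nat_lit 0) .nil)))))) (.g (nat_lit 0) .nil .nil))) 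
(.lf (nat_lit 126331) (.g (nat_lit 2269) (.e (nat_lit 7273) (nat_lit 385) (.e (nat_lit 122916) (nat_lit 14) (.e (nat_lit 352324) (nat_lit 26) (.e (nat_lit 147495) (nat_lit 11) (.e (nat_lit 24643) (nat_lit 11) (.e (nat_lit 368662) (nat_lit 18) .nil)))))) (.g (nat_lit 4) .nil .nil)))))) (.nd (nat_lit 3) (.nd (nat_lit 4) (.nd (nat_lit 5) 
(.lf (nat_lit 126279) (.g (nat_lit 595) (.e (nat_lit 7273) (nat_lit 385) (.e (nat_lit 122916) (nat_lit 14) (.e (nat_lit 352308) (nat_lit 21) .nil))) .nil)) 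
(.lf (nat_lit 126311) (.g (nat_lit 440) (.e (nat_lit 7273) (nat_lit 385) (.e (nat_lit 122916) (nat_lit 14) (.e (nat_lit 352322) (nat_lit 26) .nil))) .nil))) (.nd (nat_lit 5) 
(.lf (nat_lit 126295) (.g (nat_lit 3822) (.e (nat_lit 7273) (nat_lit 385) (.e (nat_lit 122916) (nat_lit 14) (.e (nat_lit 352309) (nat_lit 21) (.e (nat_lit 57681) (nat_lit 155) (.e (nat_lit 122917) (nat_lit 15) (.e (nat_lit 360453) (nat_lit 0) .nil)))))) (.g (nat_lit 6) .nil .nil))) 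
(.lf (nat_lit 126327) (.g (nat_lit 2279) (.e (nat_lit 7273) (nat_lit 385) (.e (nat_lit 122916) (nat_lit 14) (.e (nat_lit 352324) (nat_lit 26) (.e (nat_lit 147494) (nat_lit 11) (.e (nat_lit 24644) (nat_lit 11) (.e (nat_lit 368662) (nat_lit 18) .nil)))))) (.g (nat_lit 5) .nil .nil))))) (.nd (nat_lit 4) (.nd (nat_lit 5) 
(.lf (nat_lit 126287) (.g (nat_lit 2537) (.e (nat_lit 7273) (nat_lit 385) (.e (nat_lit 122916) (nat_lit 14) (.e (nat_lit 352309) (nat_lit 21) (.e (nat_lit 57666) (nat_lit 152) (.e (nat_lit 1077) (nat_lit 81) .nil))))) .nil)) 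
(.lf (nat_lit 126319) (.g (nat_lit 1582) (.e (nat_lit 7273) (nat_lit 385) (.e (nat_lit 122916) (nat_lit 14) (.e (nat_lit 352324) (nat_lit 26) (.e (nat_lit 147464) (nat_lit 9) (.e (nat_lit 321) (nat_lit 24) .nil))))) .nil))) (.nd (nat_lit 5) 
(.lf (nat_lit 126303) (.g (nat_lit 2238) (.e (nat_lit 7273) (nat_lit 385) (.e (nat_lit 122916) (nat_lit 14) (.e (nat_lit 352309) (nat_lit 21) (.e (nat_lit 57683) (nat_lit 155) (.e (nat_lit 122917) (nat_lit 15) .nil))))) .nil)) 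
(.lf (nat_lit 126335) (.g (nat_lit 2186) (.e (nat_lit 7273) (nat_lit 385) (.e (nat_lit 122916) (nat_lit 14) (.e (nat_lit 352324) (nat_lit 26) (.e (nat_lit 147496) (nat_lit 11) (.e (nat_lit 24642) (nat_lit 11) .nil))))) .nil))))))))

noncomputable def tv1697 : DT := (.nd (nat_lit 0) (.nd (nat_lit 1) (.nd (nat_lit 2) (.nd (nat_lit 3) (.nd (nat_lit 4) (.nd (nat_lit 5) 
(.lf (nat_lit 126336) (.g (nat_lit 2121) (.e (nat_lit 7273) (nat_lit 385) (.e (nat_lit 122916) (nat_lit 14) (.e (nat_lit 352324) (nat_lit 26) (.e (nat_lit 147496) (nat_lit 11) (.e (nat_lit 24643) (nat_lit 11) (.e (nat_lit 368662) (nat_lit 18) .nil)))))) (.g (nat_lit 5) .nil .nil))) 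
(.lf (nat_lit 126368) (.g (nat_lit 1660) (.e (nat_lit 7273) (nat_lit 385) (.e (nat_lit 122917) (nat_lit 15) (.e (nat_lit 360491) (nat_lit 22) (.e (nat_lit 778465) (nat_lit 11) (.e (nat_lit 24643) (nat_lit 11) .nil))))) .nil))) (.nd (nat_lit 5) 
(.lf (nat_lit 126352) (.g (nat_lit 826) (.e (nat_lit 7273) (nat_lit 385) (.e (nat_lit 122917) (nat_lit 15) (.e (nat_lit 360452) (nat_lit 0) (.e (nat_lit 7273) (nat_lit 385) .nil)))) .nil)) 
(.lf (nat_lit 126384) (.g (nat_lit 1419) (.e (nat_lit 7273) (nat_lit 385) (.e (nat_lit 122919) (nat_lit 15) (.e (nat_lit 360450) (nat_lit 0) (.e (nat_lit 7261) (nat_lit 384) (.e (nat_lit 57427) (nat_lit 15) .nil))))) .nil)))) (.nd (nat_lit 4) (.nd (nat_lit 5) 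
(.lf (nat_lit 126344) (.g (nat_lit 2379) (.e (nat_lit 7273) (nat_lit 385) (.e (nat_lit 122917) (nat_lit 15) (.e (nat_lit 360449) (nat_lit 0) (.e (nat_lit 7266) (nat_lit 384) (.e (nat_lit 57427) (nat_lit 15) (.e (nat_lit 360454) (nat_lit 0) .nil)))))) (.g (nat_lit 0) .nil .nil))) 
(.lf (nat_lit 126376) (.g (nat_lit 1909) (.e (nat_lit 7273) (nat_lit 385) (.e (nat_lit 122917) (nat_lit 15) (.e (nat_lit 360492) (nat_lit 22) (.e (nat_lit 778466) (nat_lit 11) (.e (nat_lit 24643) (nat_lit 11) (.e (nat_lit 368662) (nat_lit 18) .nil)))))) (.g (nat_lit 0) .nil .nil)))) (.nd (nat_lit 5) 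
(.lf (nat_lit 126360) (.g (nat_lit 1428) (.e (nat_lit 7273) (nat_lit 385) (.e (nat_lit 122917) (nat_lit 15) (.e (nat_lit 360488) (nat_lit 20) (.e (nat_lit 761868) (nat_lit 5) (.e (nat_lit 1597) (nat_lit 111) (.e (nat_lit 368384) (nat_lit 0) .nil)))))) (.g (nat_lit 5) .nil .nil))) 
(.lf (nat_lit 126392) (.g (nat_lit 1664) (.e (nat_lit 7273) (nat_lit 385) (.e (nat_lit 122919) (nat_lit 15) (.e (nat_lit 360451) (nat_lit 0) (.e (nat_lit 7265) (nat_lit 384) (.e (nat_lit 57426) (nat_lit 15) (.e (nat_lit 368384) (nat_lit 0) .nil)))))) (.g (nat_lit 4) .nil .nil)))))) (.nd (nat_lit 3) (.nd (nat_lit 4) (.nd (nat_lit 5) 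
(.lf (nat_lit 126340) (.g (nat_lit 1325) (.e (nat_lit 7273) (nat_lit 385) (.e (nat_lit 122917) (nat_lit 15) (.e (nat_lit 360449) (nat_lit 0) (.e (nat_lit 7261) (nat_lit 384) (.e (nat_lit 57427) (nat_lit 15) .nil))))) .nil)) 
(.lf (nat_lit 126372) (.g (nat_lit 2252) (.e (nat_lit 7273) (nat_lit 385) (.e (nat_lit 122917) (nat_lit 15) (.e (nat_lit 360491) (nat_lit 22) (.e (nat_lit 778466) (nat_lit 11) (.e (nat_lit 24644) (nat_lit 11) (.e (nat_lit 368662) (nat_lit 18) .nil)))))) (.g (nat_lit 0) .nil .nil)))) (.nd (nat_lit 5) 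
(.lf (nat_lit 126356) (.g (nat_lit 2081) (.e (nat_lit 7273) (nat_lit 385) (.e (nat_lit 122917) (nat_lit 15) (.e (nat_lit 360453) (nat_lit 0) (.e (nat_lit 7272) (nat_lit 385) (.e (nat_lit 122919) (nat_lit 15) (.e (nat_lit 360454) (nat_lit 0) .nil)))))) (.g (nat_lit 5) .nil .nil))) 
(.lf (nat_lit 126388) (.g (nat_lit 1187) (.e (nat_lit 7273) (nat_lit 385) (.e (nat_lit 122919) (nat_lit 15) (.e (nat_lit 360451) (nat_lit 0) (.e (nat_lit 7261) (nat_lit 384) .nil)))) .nil)))) (.nd (nat_lit 4) (.nd (nat_lit 5) 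
(.lf (nat_lit 126348) (.g (nat_lit 1912) (.e (nat_lit 7273) (nat_lit 385) (.e (nat_lit 122917) (nat_lit 15) (.e (nat_lit 360451) (nat_lit 0) (.e (nat_lit 7266) (nat_lit 384) (.e (nat_lit 57427) (nat_lit 15) (.e (nat_lit 360454) (nat_lit 0) .nil)))))) (.g (nat_lit 4) .nil .nil))) 
(.lf (nat_lit 126380) (.g (nat_lit 554) (.e (nat_lit 7273) (nat_lit 385) (.e (nat_lit 122919) (nat_lit 15) (.e (nat_lit 360448) (nat_lit 0) .nil))) .nil))) (.nd (nat_lit 5) 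
(.lf (nat_lit 126364) (.g (nat_lit 906) (.e (nat_lit 7273) (nat_lit 385) (.e (nat_lit 122917) (nat_lit 15) (.e (nat_lit 360489) (nat_lit 21) (.e (nat_lit 770058) (nat_lit 5) .nil)))) .nil)) 
(.lf (nat_lit 126396) (.g (nat_lit 1908) (.e (nat_lit 7273) (nat_lit 385) (.e (nat_lit 122919) (nat_lit 15) (.e (nat_lit 360452) (nat_lit 0) (.e (nat_lit 7271) (nat_lit 385) (.e (nat_lit 122917) (nat_lit 15) (.e (nat_lit 360453) (nat_lit 0) .nil)))))) (.g (nat_lit 4) .nil .nil))))))) (.nd (nat_lit 2) (.nd (nat_lit 3) (.nd (nat_lit 4) (.nd (nat_lit 5) 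
(.lf (nat_lit 126338) (.g (nat_lit 2167) (.e (nat_lit 7273) (nat_lit 385) (.e (nat_lit 122916) (nat_lit 14) (.e (nat_lit 352324) (nat_lit 26) (.e (nat_lit 147496) (nat_lit 11) (.e (nat_lit 24645) (nat_lit 11) .nil))))) .nil)) 
(.lf (nat_lit 126370) (.g (nat_lit 1362) (.e (nat_lit 7273) (nat_lit 385) (.e (nat_lit 122917) (nat_lit 15) (.e (nat_lit 360491) (nat_lit 22) (.e (nat_lit 778466) (nat_lit 11) (.e (nat_lit 24641) (nat_lit 10) (.e (nat_lit 344100) (nat_lit 18) .nil)))))) (.g (nat_lit 4) .nil .nil)))) (.nd (nat_lit 5) 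
(.lf (nat_lit 126354) (.g (nat_lit 2802) (.e (nat_lit 7273) (nat_lit 385) (.e (nat_lit 122917) (nat_lit 15) (.e (nat_lit 360453) (nat_lit 0) (.e (nat_lit 7270) (nat_lit 385) (.e (nat_lit 122917) (nat_lit 15) (.e (nat_lit 360452) (nat_lit 0) .nil)))))) (.g (nat_lit 5) .nil .nil))) 
(.lf (nat_lit 126386) (.g (nat_lit 1646) (.e (nat_lit 7273) (nat_lit 385) (.e (nat_lit 122919) (nat_lit 15) (.e (nat_lit 360450) (nat_lit 0) (.e (nat_lit 7265) (nat_lit 384) .nil)))) .nil)))) (.nd (nat_lit 4) (.nd (nat_lit 5) 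
(.lf (nat_lit 126346) (.g (nat_lit 2274) (.e (nat_lit 7273) (nat_lit 385) (.e (nat_lit 122917) (nat_lit 15) (.e (nat_lit 360451) (nat_lit 0) (.e (nat_lit 7122) (nat_lit 382) (.e (nat_lit 1201) (nat_lit 88) (.e (nat_lit 65610) (nat_lit 10) (.e (nat_lit 344097) (nat_lit 18) .nil))))))) (.g (nat_lit 4) .nil .nil))) 
(.lf (nat_lit 126378) (.g (nat_lit 434) (.e (nat_lit 7273) (nat_lit 385) (.e (nat_lit 122917) (nat_lit 15) (.e (nat_lit 368384) (nat_lit 22) .nil))) .nil))) (.nd (nat_lit 5) 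
(.lf (nat_lit 126362) (.g (nat_lit 1246) (.e (nat_lit 7273) (nat_lit 385) (.e (nat_lit 122917) (nat_lit 15) (.e (nat_lit 360488) (nat_lit 20) (.e (nat_lit 761869) (nat_lit 5) (.e (nat_lit 1585) (nat_lit 111) (.e (nat_lit 368384) (nat_lit 0) .nil)))))) (.g (nat_lit 4) .nil .nil))) 
(.lf (nat_lit 126394) (.g (nat_lit 2176) (.e (nat_lit 7273) (nat_lit 385) (.e (nat_lit 122919) (nat_lit 15) (.e (nat_lit 360452) (nat_lit 0) (.e (nat_lit 7270) (nat_lit 385) (.e (nat_lit 122919) (nat_lit 15) .nil))))) .nil))))) (.nd (nat_lit 3) (.nd (nat_lit 4) (.nd (nat_lit 5) 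
(.lf (nat_lit 126342) (.g (nat_lit 1355) (.e (nat_lit 7273) (nat_lit 385) (.e (nat_lit 122917) (nat_lit 15) (.e (nat_lit 360449) (nat_lit 0) (.e (nat_lit 7265) (nat_lit 384) (.e (nat_lit 57412) (nat_lit 12) .nil))))) .nil)) 
(.lf (nat_lit 126374) (.g (nat_lit 1442) (.e (nat_lit 7273) (nat_lit 385) (.e (nat_lit 122917) (nat_lit 15) (.e (nat_lit 360492) (nat_lit 22) (.e (nat_lit 778465) (nat_lit 11) (.e (nat_lit 24643) (nat_lit 11) (.e (nat_lit 368662) (nat_lit 18) .nil)))))) (.g (nat_lit 5) .nil .nil)))) (.nd (nat_lit 5) 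
(.lf (nat_lit 126358) (.g (nat_lit 405) (.e (nat_lit 7273) (nat_lit 385) (.e (nat_lit 122917) (nat_lit 15) (.e (nat_lit 360488) (nat_lit 20) .nil))) .nil)) 
(.lf (nat_lit 126390) (.g (nat_lit 1557) (.e (nat_lit 7273) (nat_lit 385) (.e (nat_lit 122919) (nat_lit 15) (.e (nat_lit 360451) (nat_lit 0) (.e (nat_lit 7261) (nat_lit 384) (.e (nat_lit 57427) (nat_lit 15) .nil))))) .nil)))) (.nd (nat_lit 4) (.nd (nat_lit 5) 
(.lf (nat_lit 126350) (.g (nat_lit 2501) (.e (nat_lit 7273) (nat_lit 385) (.e (nat_lit 122917) (nat_lit 15) (.e (nat_lit 360452) (nat_lit 0) (.e (nat_lit 7271) (nat_lit 385) (.e (nat_lit 122919) (nat_lit 15) (.e (nat_lit 360454) (nat_lit 0) .nil)))))) (.g (nat_lit 5) .nil .nil))) 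
(.lf (nat_lit 126382) (.g (nat_lit 1964) (.e (nat_lit 7273) (nat_lit 385) (.e (nat_lit 122919) (nat_lit 15) (.e (nat_lit 360449) (nat_lit 0) (.e (nat_lit 7266) (nat_lit 384) (.e (nat_lit 57427) (nat_lit 15) (.e (nat_lit 360454) (nat_lit 0) .nil)))))) (.g (nat_lit 4) .nil .nil)))) (.nd (nat_lit 5) 
(.lf (nat_lit 126366) (.g (nat_lit 426) (.e (nat_lit 7273) (nat_lit 385) (.e (nat_lit 122917) (nat_lit 15) (.e (nat_lit 360490) (nat_lit 22) .nil))) .nil)) 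
(.lf (nat_lit 126398) (.g (nat_lit 2292) (.e (nat_lit 7273) (nat_lit 385) (.e (nat_lit 122919) (nat_lit 15) (.e (nat_lit 360452) (nat_lit 0) (.e (nat_lit 7272) (nat_lit 385) (.e (nat_lit 122917) (nat_lit 15) (.e (nat_lit 360453) (nat_lit 0) .nil)))))) (.g (nat_lit 4) .nil .nil)))))))) (.nd (nat_lit 1) (.nd (nat_lit 2) (.nd (nat_lit 3) (.nd (nat_lit 4) (.nd (nat_lit 5) 
(.lf (nat_lit 126337) (.g (nat_lit 2299) (.e (nat_lit 7273) (nat_lit 385) (.e (nat_lit 122916) (nat_lit 14) (.e (nat_lit 352324) (nat_lit 26) (.e (nat_lit 147496) (nat_lit 11) (.e (nat_lit 24644) (nat_lit 11) (.e (nat_lit 368662) (nat_lit 18) .nil)))))) (.g (nat_lit 5) .nil .nil))) 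
(.lf (nat_lit 126369) (.g (nat_lit 2776) (.e (nat_lit 7273) (nat_lit 385) (.e (nat_lit 122917) (nat_lit 15) (.e (nat_lit 360491) (nat_lit 22) (.e (nat_lit 778466) (nat_lit 11) (.e (nat_lit 24640) (nat_lit 10) (.e (nat_lit 344101) (nat_lit 18) .nil)))))) (.g (nat_lit 5) .nil .nil)))) (.nd (nat_lit 5) 
(.lf (nat_lit 126353) (.g (nat_lit 2172) (.e (nat_lit 7273) (nat_lit 385) (.e (nat_lit 122917) (nat_lit 15) (.e (nat_lit 360452) (nat_lit 0) (.e (nat_lit 7273) (nat_lit 385) (.e (nat_lit 122919) (nat_lit 15) (.e (nat_lit 360454) (nat_lit 0) .nil)))))) (.g (nat_lit 6) .nil .nil))) 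
(.lf (nat_lit 126385) (.g (nat_lit 1119) (.e (nat_lit 7273) (nat_lit 385) (.e (nat_lit 122919) (nat_lit 15) (.e (nat_lit 360450) (nat_lit 0) (.e (nat_lit 7263) (nat_lit 384) .nil)))) .nil)))) (.nd (nat_lit 4) (.nd (nat_lit 5) 
(.lf (nat_lit 126345) (.g (nat_lit 1241) (.e (nat_lit 7273) (nat_lit 385) (.e (nat_lit 122917) (nat_lit 15) (.e (nat_lit 360450) (nat_lit 0) (.e (nat_lit 7261) (nat_lit 384) .nil)))) .nil)) 
(.lf (nat_lit 126377) (.g (nat_lit 2072) (.e (nat_lit 7273) (nat_lit 385) (.e (nat_lit 122917) (nat_lit 15) (.e (nat_lit 360492) (nat_lit 22) (.e (nat_lit 778466) (nat_lit 11) (.e (nat_lit 24644) (nat_lit 11) (.e (nat_lit 368662) (nat_lit 18) .nil)))))) (.g (nat_lit 0) .nil .nil)))) (.nd (nat_lit 5) 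
(.lf (nat_lit 126361) (.g (nat_lit 1095) (.e (nat_lit 7273) (nat_lit 385) (.e (nat_lit 122917) (nat_lit 15) (.e (nat_lit 360488) (nat_lit 20) (.e (nat_lit 761869) (nat_lit 5) (.e (nat_lit 1582) (nat_lit 111) .nil))))) .nil)) 
(.lf (nat_lit 126393) (.g (nat_lit 2334) (.e (nat_lit 7273) (nat_lit 385) (.e (nat_lit 122919) (nat_lit 15) (.e (nat_lit 360451) (nat_lit 0) (.e (nat_lit 7265) (nat_lit 384) (.e (nat_lit 57427) (nat_lit 15) (.e (nat_lit 368384) (nat_lit 0) .nil)))))) (.g (nat_lit 5) .nil .nil)))))) (.nd (nat_lit 3) (.nd (nat_lit 4) (.nd (nat_lit 5) 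
(.lf (nat_lit 126341) (.g (nat_lit 993) (.e (nat_lit 7273) (nat_lit 385) (.e (nat_lit 122917) (nat_lit 15) (.e (nat_lit 360449) (nat_lit 0) (.e (nat_lit 7263) (nat_lit 384) .nil)))) .nil)) 
(.lf (nat_lit 126373) (.g (nat_lit 3081) (.e (nat_lit 7273) (nat_lit 385) (.e (nat_lit 122917) (nat_lit 15) (.e (nat_lit 360492) (nat_lit 22) (.e (nat_lit 778465) (nat_lit 11) (.e (nat_lit 24640) (nat_lit 10) (.e (nat_lit 344097) (nat_lit 18) .nil)))))) (.g (nat_lit 0) .nil .nil)))) (.nd (nat_lit 5) 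
(.lf (nat_lit 126357) (.g (nat_lit 1908) (.e (nat_lit 7273) (nat_lit 385) (.e (nat_lit 122917) (nat_lit 15) (.e (nat_lit 360453) (nat_lit 0) (.e (nat_lit 7273) (nat_lit 385) (.e (nat_lit 122919) (nat_lit 15) (.e (nat_lit 360454) (nat_lit 0) .nil)))))) (.g (nat_lit 6) .nil .nil))) 
(.lf (nat_lit 126389) (.g (nat_lit 1572) (.e (nat_lit 7273) (nat_lit 385) (.e (nat_lit 122919) (nat_lit 15) (.e (nat_lit 360451) (nat_lit 0) (.e (nat_lit 7261) (nat_lit 384) (.e (nat_lit 57412) (nat_lit 12) .nil))))) .nil)))) (.nd (nat_lit 4) (.nd (nat_lit 5) 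
(.lf (nat_lit 126349) (.g (nat_lit 1374) (.e (nat_lit 7273) (nat_lit 385) (.e (nat_lit 122917) (nat_lit 15) (.e (nat_lit 360452) (nat_lit 0) (.e (nat_lit 7271) (nat_lit 385) (.e (nat_lit 122917) (nat_lit 15) (.e (nat_lit 368384) (nat_lit 0) .nil)))))) (.g (nat_lit 4) .nil .nil))) 
(.lf (nat_lit 126381) (.g (nat_lit 1682) (.e (nat_lit 7273) (nat_lit 385) (.e (nat_lit 122919) (nat_lit 15) (.e (nat_lit 360449) (nat_lit 0) (.e (nat_lit 7265) (nat_lit 384) (.e (nat_lit 57427) (nat_lit 15) .nil))))) .nil))) (.nd (nat_lit 5) 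
(.lf (nat_lit 126365) (.g (nat_lit 1346) (.e (nat_lit 7273) (nat_lit 385) (.e (nat_lit 122917) (nat_lit 15) (.e (nat_lit 360489) (nat_lit 21) (.e (nat_lit 770070) (nat_lit 8) (.e (nat_lit 65619) (nat_lit 10) (.e (nat_lit 344097) (nat_lit 18) .nil)))))) (.g (nat_lit 4) .nil .nil))) 
(.lf (nat_lit 126397) (.g (nat_lit 1166) (.e (nat_lit 7273) (nat_lit 385) (.e (nat_lit 122919) (nat_lit 15) (.e (nat_lit 360452) (nat_lit 0) (.e (nat_lit 7272) (nat_lit 385) .nil)))) .nil)))))) (.nd (nat_lit 2) (.nd (nat_lit 3) (.nd (nat_lit 4) (.nd (nat_lit 5) 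
(.lf (nat_lit 126339) (.g (nat_lit 1014) (.e (nat_lit 7273) (nat_lit 385) (.e (nat_lit 122917) (nat_lit 15) (.e (nat_lit 360449) (nat_lit 0) (.e (nat_lit 7261) (nat_lit 384) .nil)))) .nil)) 
(.lf (nat_lit 126371) (.g (nat_lit 2087) (.e (nat_lit 7273) (nat_lit 385) (.e (nat_lit 122917) (nat_lit 15) (.e (nat_lit 360491) (nat_lit 22) (.e (nat_lit 778466) (nat_lit 11) (.e (nat_lit 24643) (nat_lit 11) (.e (nat_lit 368662) (nat_lit 18) .nil)))))) (.g (nat_lit 0) .nil .nil)))) (.nd (nat_lit 5) 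
(.lf (nat_lit 126355) (.g (nat_lit 2308) (.e (nat_lit 7273) (nat_lit 385) (.e (nat_lit 122917) (nat_lit 15) (.e (nat_lit 360453) (nat_lit 0) (.e (nat_lit 7272) (nat_lit 385) (.e (nat_lit 122917) (nat_lit 15) (.e (nat_lit 360453) (nat_lit 0) .nil)))))) (.g (nat_lit 5) .nil .nil))) 
(.lf (nat_lit 126387) (.g (nat_lit 1674) (.e (nat_lit 7273) (nat_lit 385) (.e (nat_lit 122919) (nat_lit 15) (.e (nat_lit 360451) (nat_lit 0) (.e (nat_lit 7119) (nat_lit 382) .nil)))) .nil)))) (.nd (nat_lit 4) (.nd (nat_lit 5) 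
(.lf (nat_lit 126347) (.g (nat_lit 1987) (.e (nat_lit 7273) (nat_lit 385) (.e (nat_lit 122917) (nat_lit 15) (.e (nat_lit 360451) (nat_lit 0) (.e (nat_lit 7265) (nat_lit 384) (.e (nat_lit 57427) (nat_lit 15) .nil))))) .nil)) 
(.lf (nat_lit 126379) (.g (nat_lit 1248) (.e (nat_lit 7273) (nat_lit 385) (.e (nat_lit 122918) (nat_lit 15) (.e (nat_lit 360451) (nat_lit 0) (.e (nat_lit 7261) (nat_lit 384) (.e (nat_lit 57426) (nat_lit 15) .nil))))) .nil))) (.nd (nat_lit 5) 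
(.lf (nat_lit 126363) (.g (nat_lit 801) (.e (nat_lit 7273) (nat_lit 385) (.e (nat_lit 122917) (nat_lit 15) (.e (nat_lit 360489) (nat_lit 21) (.e (nat_lit 770057) (nat_lit 5) .nil)))) .nil)) 
(.lf (nat_lit 126395) (.g (nat_lit 1163) (.e (nat_lit 7273) (nat_lit 385) (.e (nat_lit 122919) (nat_lit 15) (.e (nat_lit 360452) (nat_lit 0) (.e (nat_lit 7271) (nat_lit 385) .nil)))) .nil))))) (.nd (nat_lit 3) (.nd (nat_lit 4) (.nd (nat_lit 5) 
(.lf (nat_lit 126343) (.g (nat_lit 2160) (.e (nat_lit 7273) (nat_lit 385) (.e (nat_lit 122917) (nat_lit 15) (.e (nat_lit 360449) (nat_lit 0) (.e (nat_lit 7265) (nat_lit 384) (.e (nat_lit 57427) (nat_lit 15) (.e (nat_lit 368384) (nat_lit 0) .nil)))))) (.g (nat_lit 5) .nil .nil))) 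
(.lf (nat_lit 126375) (.g (nat_lit 2331) (.e (nat_lit 7273) (nat_lit 385) (.e (nat_lit 122917) (nat_lit 15) (.e (nat_lit 360492) (nat_lit 22) (.e (nat_lit 778466) (nat_lit 11) (.e (nat_lit 24640) (nat_lit 10) (.e (nat_lit 344101) (nat_lit 18) .nil)))))) (.g (nat_lit 5) .nil .nil)))) (.nd (nat_lit 5) 
(.lf (nat_lit 126359) (.g (nat_lit 1168) (.e (nat_lit 7273) (nat_lit 385) (.e (nat_lit 122917) (nat_lit 15) (.e (nat_lit 360488) (nat_lit 20) (.e (nat_lit 761868) (nat_lit 5) (.e (nat_lit 1585) (nat_lit 111) (.e (nat_lit 368384) (nat_lit 0) .nil)))))) (.g (nat_lit 5) .nil .nil))) 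
(.lf (nat_lit 126391) (.g (nat_lit 1673) (.e (nat_lit 7273) (nat_lit 385) (.e (nat_lit 122919) (nat_lit 15) (.e (nat_lit 360451) (nat_lit 0) (.e (nat_lit 7263) (nat_lit 384) .nil)))) .nil)))) (.nd (nat_lit 4) (.nd (nat_lit 5) 
(.lf (nat_lit 126351) (.g (nat_lit 1577) (.e (nat_lit 7273) (nat_lit 385) (.e (nat_lit 122917) (nat_lit 15) (.e (nat_lit 360452) (nat_lit 0) (.e (nat_lit 7272) (nat_lit 385) (.e (nat_lit 122919) (nat_lit 15) .nil))))) .nil)) 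
(.lf (nat_lit 126383) (.g (nat_lit 1104) (.e (nat_lit 7273) (nat_lit 385) (.e (nat_lit 122919) (nat_lit 15) (.e (nat_lit 360450) (nat_lit 0) (.e (nat_lit 7261) (nat_lit 384) .nil)))) .nil))) (.nd (nat_lit 5) 
(.lf (nat_lit 126367) (.g (nat_lit 1016) (.e (nat_lit 7273) (nat_lit 385) (.e (nat_lit 122917) (nat_lit 15) (.e (nat_lit 360490) (nat_lit 22) (.e (nat_lit 778339) (nat_lit 9) (.e (nat_lit 320) (nat_lit 24) .nil))))) .nil)) 
(.lf (nat_lit 126399) (.g (nat_lit 2349) (.e (nat_lit 7273) (nat_lit 385) (.e (nat_lit 122919) (nat_lit 15) (.e (nat_lit 360452) (nat_lit 0) (.e (nat_lit 7272) (nat_lit 385) (.e (nat_lit 122919) (nat_lit 15) (.e (nat_lit 360453) (nat_lit 0) .nil)))))) (.g (nat_lit 4) .nil .nil)))))))))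

noncomputable def tv1698 : DT := (.nd (nat_lit 0) (.nd (nat_lit 1) (.nd (nat_lit 2) (.nd (nat_lit 3) (.nd (nat_lit 4) (.nd (nat_lit 5) 
(.lf (nat_lit 126400) (.g (nat_lit 2137) (.e (nat_lit 7273) (nat_lit 385) (.e (nat_lit 122919) (nat_lit 15) (.e (nat_lit 360452) (nat_lit 0) (.e (nat_lit 7272) (nat_lit 385) (.e (nat_lit 122919) (nat_lit 15) (.e (nat_lit 360454) (nat_lit 0) .nil)))))) (.g (nat_lit 4) .nil .nil))) 
(.lf (nat_lit 126432) (.g (nat_lit 2186) (.e (nat_lit 7276) (nat_lit 385) (.e (nat_lit 122919) (nat_lit 15) (.e (nat_lit 360451) (nat_lit 0) (.e (nat_lit 7122) (nat_lit 382) .nil)))) .nil))) (.nd (nat_lit 5) 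
(.lf (nat_lit 126416) (.g (nat_lit 2139) (.e (nat_lit 7273) (nat_lit 385) (.e (nat_lit 122919) (nat_lit 15) (.e (nat_lit 360491) (nat_lit 22) (.e (nat_lit 778466) (nat_lit 11) (.e (nat_lit 24644) (nat_lit 11) (.e (nat_lit 368662) (nat_lit 18) .nil)))))) (.g (nat_lit 0) .nil .nil))) 
(.lf (nat_lit 126448) (.g (nat_lit 1335) (.e (nat_lit 7277) (nat_lit 385) (.e (nat_lit 122919) (nat_lit 15) (.e (nat_lit 360451) (nat_lit 0) (.e (nat_lit 7124) (nat_lit 382) .nil)))) .nil)))) (.nd (nat_lit 4) (.nd (nat_lit 5) 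
(.lf (nat_lit 126408) (.g (nat_lit 810) (.e (nat_lit 7273) (nat_lit 385) (.e (nat_lit 122919) (nat_lit 15) (.e (nat_lit 360488) (nat_lit 20) (.e (nat_lit 761869) (nat_lit 5) .nil)))) .nil)) 
(.lf (nat_lit 126440) (.g (nat_lit 2391) (.e (nat_lit 7276) (nat_lit 385) (.e (nat_lit 122919) (nat_lit 15) (.e (nat_lit 360492) (nat_lit 22) (.e (nat_lit 778466) (nat_lit 11) (.e (nat_lit 24640) (nat_lit 10) (.e (nat_lit 344088) (nat_lit 18) .nil)))))) (.g (nat_lit 6) .nil .nil)))) (.nd (nat_lit 5) 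
(.lf (nat_lit 126424) (.g (nat_lit 936) (.e (nat_lit 7275) (nat_lit 385) (.e (nat_lit 122919) (nat_lit 15) (.e (nat_lit 360451) (nat_lit 0) .nil))) .nil)) 
(.lf (nat_lit 126456) (.g (nat_lit 1904) (.e (nat_lit 7277) (nat_lit 385) (.e (nat_lit 122919) (nat_lit 15) (.e (nat_lit 360451) (nat_lit 0) (.e (nat_lit 7263) (nat_lit 384) (.e (nat_lit 57412) (nat_lit 12) .nil))))) .nil))))) (.nd (nat_lit 3) (.nd (nat_lit 4) (.nd (nat_lit 5) 
(.lf (nat_lit 126404) (.g (nat_lit 1914) (.e (nat_lit 7273) (nat_lit 385) (.e (nat_lit 122919) (nat_lit 15) (.e (nat_lit 360454) (nat_lit 0) (.e (nat_lit 7273) (nat_lit 385) (.e (nat_lit 122919) (nat_lit 15) (.e (nat_lit 360454) (nat_lit 0) .nil)))))) (.g (nat_lit 5) .nil .nil))) 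
(.lf (nat_lit 126436) (.g (nat_lit 2139) (.e (nat_lit 7276) (nat_lit 385) (.e (nat_lit 122919) (nat_lit 15) (.e (nat_lit 360451) (nat_lit 0) (.e (nat_lit 7261) (nat_lit 384) .nil)))) .nil))) (.nd (nat_lit 5) 
(.lf (nat_lit 126420) (.g (nat_lit 1991) (.e (nat_lit 7273) (nat_lit 385) (.e (nat_lit 122919) (nat_lit 15) (.e (nat_lit 360492) (nat_lit 22) (.e (nat_lit 778466) (nat_lit 11) (.e (nat_lit 24643) (nat_lit 11) (.e (nat_lit 368662) (nat_lit 18) .nil)))))) (.g (nat_lit 0) .nil .nil))) 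
(.lf (nat_lit 126452) (.g (nat_lit 3172) (.e (nat_lit 7277) (nat_lit 385) (.e (nat_lit 122919) (nat_lit 15) (.e (nat_lit 360451) (nat_lit 0) (.e (nat_lit 7125) (nat_lit 382) (.e (nat_lit 1201) (nat_lit 88) (.e (nat_lit 65617) (nat_lit 10) (.e (nat_lit 344095) (nat_lit 18) .nil))))))) (.g (nat_lit 5) .nil .nil))))) (.nd (nat_lit 4) (.nd (nat_lit 5) 
(.lf (nat_lit 126412) (.g (nat_lit 1413) (.e (nat_lit 7273) (nat_lit 385) (.e (nat_lit 122919) (nat_lit 15) (.e (nat_lit 360491) (nat_lit 22) (.e (nat_lit 778465) (nat_lit 11) (.e (nat_lit 24643) (nat_lit 11) .nil))))) .nil)) 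
(.lf (nat_lit 126444) (.g (nat_lit 1850) (.e (nat_lit 7277) (nat_lit 385) (.e (nat_lit 122919) (nat_lit 15) (.e (nat_lit 360450) (nat_lit 0) (.e (nat_lit 7122) (nat_lit 382) (.e (nat_lit 1201) (nat_lit 88) .nil))))) .nil))) (.nd (nat_lit 5) 
(.lf (nat_lit 126428) (.g (nat_lit 643) (.e (nat_lit 7276) (nat_lit 385) (.e (nat_lit 122917) (nat_lit 15) (.e (nat_lit 360491) (nat_lit 22) .nil))) .nil)) 
(.lf (nat_lit 126460) (.g (nat_lit 2164) (.e (nat_lit 7277) (nat_lit 385) (.e (nat_lit 122919) (nat_lit 15) (.e (nat_lit 360451) (nat_lit 0) (.e (nat_lit 7266) (nat_lit 384) (.e (nat_lit 57426) (nat_lit 15) .nil))))) .nil)))))) (.nd (nat_lit 2) (.nd (nat_lit 3) (.nd (nat_lit 4) (.nd (nat_lit 5) 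
(.lf (nat_lit 126402) (.g (nat_lit 1770) (.e (nat_lit 7273) (nat_lit 385) (.e (nat_lit 122919) (nat_lit 15) (.e (nat_lit 360453) (nat_lit 0) (.e (nat_lit 7273) (nat_lit 385) (.e (nat_lit 122919) (nat_lit 15) (.e (nat_lit 360454) (nat_lit 0) .nil)))))) (.g (nat_lit 5) .nil .nil))) 
(.lf (nat_lit 126434) (.g (nat_lit 2725) (.e (nat_lit 7276) (nat_lit 385) (.e (nat_lit 122919) (nat_lit 15) (.e (nat_lit 360451) (nat_lit 0) (.e (nat_lit 7125) (nat_lit 382) (.e (nat_lit 1201) (nat_lit 88) .nil))))) .nil))) (.nd (nat_lit 5) 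
(.lf (nat_lit 126418) (.g (nat_lit 2234) (.e (nat_lit 7273) (nat_lit 385) (.e (nat_lit 122919) (nat_lit 15) (.e (nat_lit 360492) (nat_lit 22) (.e (nat_lit 778466) (nat_lit 11) (.e (nat_lit 24640) (nat_lit 10) (.e (nat_lit 344101) (nat_lit 18) .nil)))))) (.g (nat_lit 5) .nil .nil))) 
(.lf (nat_lit 126450) (.g (nat_lit 1760) (.e (nat_lit 7277) (nat_lit 385) (.e (nat_lit 122919) (nat_lit 15) (.e (nat_lit 360451) (nat_lit 0) (.e (nat_lit 7125) (nat_lit 382) .nil)))) .nil)))) (.nd (nat_lit 4) (.nd (nat_lit 5) 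
(.lf (nat_lit 126410) (.g (nat_lit 1133) (.e (nat_lit 7273) (nat_lit 385) (.e (nat_lit 122919) (nat_lit 15) (.e (nat_lit 360488) (nat_lit 20) (.e (nat_lit 761869) (nat_lit 5) (.e (nat_lit 1597) (nat_lit 111) (.e (nat_lit 368384) (nat_lit 0) .nil)))))) (.g (nat_lit 4) .nil .nil))) 
(.lf (nat_lit 126442) (.g (nat_lit 713) (.e (nat_lit 7277) (nat_lit 385) (.e (nat_lit 122916) (nat_lit 14) (.e (nat_lit 352309) (nat_lit 21) .nil))) .nil))) (.nd (nat_lit 5) 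
(.lf (nat_lit 126426) (.g (nat_lit 2978) (.e (nat_lit 7275) (nat_lit 385) (.e (nat_lit 122919) (nat_lit 15) (.e (nat_lit 360451) (nat_lit 0) (.e (nat_lit 7125) (nat_lit 382) (.e (nat_lit 1201) (nat_lit 88) .nil))))) .nil)) 
(.lf (nat_lit 126458) (.g (nat_lit 2847) (.e (nat_lit 7277) (nat_lit 385) (.e (nat_lit 122919) (nat_lit 15) (.e (nat_lit 360451) (nat_lit 0) (.e (nat_lit 7265) (nat_lit 384) (.e (nat_lit 57412) (nat_lit 12) (.e (nat_lit 336176) (nat_lit 10) (.e (nat_lit 344095) (nat_lit 18) .nil))))))) (.g (nat_lit 6) .nil .nil)))))) (.nd (nat_lit 3) (.nd (nat_lit 4) (.nd (nat_lit 5) 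
(.lf (nat_lit 126406) (.g (nat_lit 987) (.e (nat_lit 7273) (nat_lit 385) (.e (nat_lit 122919) (nat_lit 15) (.e (nat_lit 360488) (nat_lit 20) (.e (nat_lit 761868) (nat_lit 5) (.e (nat_lit 1585) (nat_lit 111) .nil))))) .nil)) 
(.lf (nat_lit 126438) (.g (nat_lit 2407) (.e (nat_lit 7276) (nat_lit 385) (.e (nat_lit 122919) (nat_lit 15) (.e (nat_lit 360491) (nat_lit 22) (.e (nat_lit 778466) (nat_lit 11) (.e (nat_lit 24640) (nat_lit 10) (.e (nat_lit 344088) (nat_lit 18) .nil)))))) (.g (nat_lit 6) .nil .nil)))) (.nd (nat_lit 5) 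
(.lf (nat_lit 126422) (.g (nat_lit 2001) (.e (nat_lit 7273) (nat_lit 385) (.e (nat_lit 122921) (nat_lit 17) (.e (nat_lit 376842) (nat_lit 11) (.e (nat_lit 426344) (nat_lit 14) (.e (nat_lit 491558) (nat_lit 10) .nil))))) .nil)) 
(.lf (nat_lit 126454) (.g (nat_lit 1833) (.e (nat_lit 7277) (nat_lit 385) (.e (nat_lit 122919) (nat_lit 15) (.e (nat_lit 360451) (nat_lit 0) (.e (nat_lit 7261) (nat_lit 384) (.e (nat_lit 57426) (nat_lit 15) .nil))))) .nil)))) (.nd (nat_lit 4) (.nd (nat_lit 5) 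
(.lf (nat_lit 126414) (.g (nat_lit 1297) (.e (nat_lit 7273) (nat_lit 385) (.e (nat_lit 122919) (nat_lit 15) (.e (nat_lit 360491) (nat_lit 22) (.e (nat_lit 778466) (nat_lit 11) (.e (nat_lit 24641) (nat_lit 10) (.e (nat_lit 344100) (nat_lit 18) .nil)))))) (.g (nat_lit 4) .nil .nil))) 
(.lf (nat_lit 126446) (.g (nat_lit 1238) (.e (nat_lit 7277) (nat_lit 385) (.e (nat_lit 122919) (nat_lit 15) (.e (nat_lit 360450) (nat_lit 0) (.e (nat_lit 7263) (nat_lit 384) .nil)))) .nil))) (.nd (nat_lit 5) 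
(.lf (nat_lit 126430) (.g (nat_lit 1367) (.e (nat_lit 7276) (nat_lit 385) (.e (nat_lit 122917) (nat_lit 15) (.e (nat_lit 360492) (nat_lit 22) (.e (nat_lit 778466) (nat_lit 11) (.e (nat_lit 24640) (nat_lit 10) (.e (nat_lit 344088) (nat_lit 18) .nil)))))) (.g (nat_lit 4) .nil .nil))) 
(.lf (nat_lit 126462) (.g (nat_lit 930) (.e (nat_lit 7278) (nat_lit 385) (.e (nat_lit 122919) (nat_lit 15) (.e (nat_lit 360451) (nat_lit 0) .nil))) .nil))))))) (.nd (nat_lit 1) (.nd (nat_lit 2) (.nd (nat_lit 3) (.nd (nat_lit 4) (.nd (nat_lit 5) 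
(.lf (nat_lit 126401) (.g (nat_lit 385) (.e (nat_lit 7273) (nat_lit 385) (.e (nat_lit 122919) (nat_lit 15) (.e (nat_lit 360453) (nat_lit 0) .nil))) .nil)) 
(.lf (nat_lit 126433) (.g (nat_lit 3084) (.e (nat_lit 7276) (nat_lit 385) (.e (nat_lit 122919) (nat_lit 15) (.e (nat_lit 360451) (nat_lit 0) (.e (nat_lit 7124) (nat_lit 382) (.e (nat_lit 1201) (nat_lit 88) (.e (nat_lit 65610) (nat_lit 10) (.e (nat_lit 344089) (nat_lit 18) .nil))))))) (.g (nat_lit 5) .nil .nil)))) (.nd (nat_lit 5) 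
(.lf (nat_lit 126417) (.g (nat_lit 1451) (.e (nat_lit 7273) (nat_lit 385) (.e (nat_lit 122919) (nat_lit 15) (.e (nat_lit 360492) (nat_lit 22) (.e (nat_lit 778465) (nat_lit 11) (.e (nat_lit 24643) (nat_lit 11) (.e (nat_lit 368662) (nat_lit 18) .nil)))))) (.g (nat_lit 4) .nil .nil))) 
(.lf (nat_lit 126449) (.g (nat_lit 3005) (.e (nat_lit 7277) (nat_lit 385) (.e (nat_lit 122919) (nat_lit 15) (.e (nat_lit 360451) (nat_lit 0) (.e (nat_lit 7124) (nat_lit 382) (.e (nat_lit 1201) (nat_lit 88) (.e (nat_lit 65617) (nat_lit 10) (.e (nat_lit 344095) (nat_lit 18) .nil))))))) (.g (nat_lit 6) .nil .nil))))) (.nd (nat_lit 4) (.nd (nat_lit 5) 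
(.lf (nat_lit 126409) (.g (nat_lit 1087) (.e (nat_lit 7273) (nat_lit 385) (.e (nat_lit 122919) (nat_lit 15) (.e (nat_lit 360488) (nat_lit 20) (.e (nat_lit 761869) (nat_lit 5) (.e (nat_lit 1585) (nat_lit 111) .nil))))) .nil)) 
(.lf (nat_lit 126441) (.g (nat_lit 845) (.e (nat_lit 7277) (nat_lit 385) (.e (nat_lit 122914) (nat_lit 14) (.e (nat_lit 352272) (nat_lit 10) .nil))) .nil))) (.nd (nat_lit 5) 
(.lf (nat_lit 126425) (.g (nat_lit 2664) (.e (nat_lit 7275) (nat_lit 385) (.e (nat_lit 122919) (nat_lit 15) (.e (nat_lit 360451) (nat_lit 0) (.e (nat_lit 7124) (nat_lit 382) (.e (nat_lit 1201) (nat_lit 88) .nil))))) .nil)) 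
(.lf (nat_lit 126457) (.g (nat_lit 1893) (.e (nat_lit 7277) (nat_lit 385) (.e (nat_lit 122919) (nat_lit 15) (.e (nat_lit 360451) (nat_lit 0) (.e (nat_lit 7263) (nat_lit 384) (.e (nat_lit 57427) (nat_lit 15) .nil))))) .nil))))) (.nd (nat_lit 3) (.nd (nat_lit 4) (.nd (nat_lit 5) 
(.lf (nat_lit 126405) (.g (nat_lit 429) (.e (nat_lit 7273) (nat_lit 385) (.e (nat_lit 122919) (nat_lit 15) (.e (nat_lit 360488) (nat_lit 20) .nil))) .nil)) 
(.lf (nat_lit 126437) (.g (nat_lit 1704) (.e (nat_lit 7276) (nat_lit 385) (.e (nat_lit 122919) (nat_lit 15) (.e (nat_lit 360451) (nat_lit 0) (.e (nat_lit 7265) (nat_lit 384) .nil)))) .nil))) (.nd (nat_lit 5) 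
(.lf (nat_lit 126421) (.g (nat_lit 2159) (.e (nat_lit 7273) (nat_lit 385) (.e (nat_lit 122919) (nat_lit 15) (.e (nat_lit 360492) (nat_lit 22) (.e (nat_lit 778466) (nat_lit 11) (.e (nat_lit 24644) (nat_lit 11) (.e (nat_lit 368662) (nat_lit 18) .nil)))))) (.g (nat_lit 0) .nil .nil))) 
(.lf (nat_lit 126453) (.g (nat_lit 1469) (.e (nat_lit 7277) (nat_lit 385) (.e (nat_lit 122919) (nat_lit 15) (.e (nat_lit 360451) (nat_lit 0) (.e (nat_lit 7261) (nat_lit 384) .nil)))) .nil)))) (.nd (nat_lit 4) (.nd (nat_lit 5) 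
(.lf (nat_lit 126413) (.g (nat_lit 2533) (.e (nat_lit 7273) (nat_lit 385) (.e (nat_lit 122919) (nat_lit 15) (.e (nat_lit 360491) (nat_lit 22) (.e (nat_lit 778466) (nat_lit 11) (.e (nat_lit 24640) (nat_lit 10) (.e (nat_lit 344101) (nat_lit 18) .nil)))))) (.g (nat_lit 5) .nil .nil))) 
(.lf (nat_lit 126445) (.g (nat_lit 1226) (.e (nat_lit 7277) (nat_lit 385) (.e (nat_lit 122919) (nat_lit 15) (.e (nat_lit 360450) (nat_lit 0) (.e (nat_lit 7261) (nat_lit 384) .nil)))) .nil))) (.nd (nat_lit 5) 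
(.lf (nat_lit 126429) (.g (nat_lit 1609) (.e (nat_lit 7276) (nat_lit 385) (.e (nat_lit 122917) (nat_lit 15) (.e (nat_lit 360491) (nat_lit 22) (.e (nat_lit 778466) (nat_lit 11) (.e (nat_lit 24640) (nat_lit 10) (.e (nat_lit 344088) (nat_lit 18) .nil)))))) (.g (nat_lit 4) .nil .nil))) 
(.lf (nat_lit 126461) (.g (nat_lit 1705) (.e (nat_lit 7277) (nat_lit 385) (.e (nat_lit 122919) (nat_lit 15) (.e (nat_lit 360492) (nat_lit 22) (.e (nat_lit 778466) (nat_lit 11) (.e (nat_lit 24640) (nat_lit 10) (.e (nat_lit 344088) (nat_lit 18) .nil)))))) (.g (nat_lit 4) .nil .nil))))))) (.nd (nat_lit 2) (.nd (nat_lit 3) (.nd (nat_lit 4) (.nd (nat_lit 5) 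
(.lf (nat_lit 126403) (.g (nat_lit 715) (.e (nat_lit 7273) (nat_lit 385) (.e (nat_lit 122919) (nat_lit 15) (.e (nat_lit 360454) (nat_lit 0) (.e (nat_lit 7273) (nat_lit 385) .nil)))) .nil)) 
(.lf (nat_lit 126435) (.g (nat_lit 3296) (.e (nat_lit 7276) (nat_lit 385) (.e (nat_lit 122919) (nat_lit 15) (.e (nat_lit 360451) (nat_lit 0) (.e (nat_lit 7125) (nat_lit 382) (.e (nat_lit 1201) (nat_lit 88) (.e (nat_lit 65610) (nat_lit 10) (.e (nat_lit 344089) (nat_lit 18) .nil))))))) (.g (nat_lit 5) .nil .nil)))) (.nd (nat_lit 5) 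
(.lf (nat_lit 126419) (.g (nat_lit 1799) (.e (nat_lit 7273) (nat_lit 385) (.e (nat_lit 122919) (nat_lit 15) (.e (nat_lit 360492) (nat_lit 22) (.e (nat_lit 778466) (nat_lit 11) (.e (nat_lit 24642) (nat_lit 11) (.e (nat_lit 368662) (nat_lit 18) .nil)))))) (.g (nat_lit 4) .nil .nil))) 
(.lf (nat_lit 126451) (.g (nat_lit 3809) (.e (nat_lit 7277) (nat_lit 385) (.e (nat_lit 122919) (nat_lit 15) (.e (nat_lit 360451) (nat_lit 0) (.e (nat_lit 7125) (nat_lit 382) (.e (nat_lit 1201) (nat_lit 88) (.e (nat_lit 65610) (nat_lit 10) (.e (nat_lit 344090) (nat_lit 18) .nil))))))) (.g (nat_lit 6) .nil .nil))))) (.nd (nat_lit 4) (.nd (nat_lit 5) 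
(.lf (nat_lit 126411) (.g (nat_lit 2647) (.e (nat_lit 7273) (nat_lit 385) (.e (nat_lit 122919) (nat_lit 15) (.e (nat_lit 360489) (nat_lit 21) (.e (nat_lit 770072) (nat_lit 8) (.e (nat_lit 65619) (nat_lit 10) (.e (nat_lit 344097) (nat_lit 18) .nil)))))) (.g (nat_lit 0) .nil .nil))) 
(.lf (nat_lit 126443) (.g (nat_lit 1800) (.e (nat_lit 7277) (nat_lit 385) (.e (nat_lit 122916) (nat_lit 14) (.e (nat_lit 352309) (nat_lit 21) (.e (nat_lit 57681) (nat_lit 155) .nil)))) .nil))) (.nd (nat_lit 5) 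
(.lf (nat_lit 126427) (.g (nat_lit 2266) (.e (nat_lit 7275) (nat_lit 385) (.e (nat_lit 122919) (nat_lit 15) (.e (nat_lit 360451) (nat_lit 0) (.e (nat_lit 7265) (nat_lit 384) (.e (nat_lit 57427) (nat_lit 15) .nil))))) .nil)) 
(.lf (nat_lit 126459) (.g (nat_lit 1608) (.e (nat_lit 7277) (nat_lit 385) (.e (nat_lit 122919) (nat_lit 15) (.e (nat_lit 360451) (nat_lit 0) (.e (nat_lit 7266) (nat_lit 384) .nil)))) .nil))))) (.nd (nat_lit 3) (.nd (nat_lit 4) (.nd (nat_lit 5) 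
(.lf (nat_lit 126407) (.g (nat_lit 1172) (.e (nat_lit 7273) (nat_lit 385) (.e (nat_lit 122919) (nat_lit 15) (.e (nat_lit 360488) (nat_lit 20) (.e (nat_lit 761868) (nat_lit 5) (.e (nat_lit 1597) (nat_lit 111) (.e (nat_lit 368384) (nat_lit 0) .nil)))))) (.g (nat_lit 4) .nil .nil))) 
(.lf (nat_lit 126439) (.g (nat_lit 547) (.e (nat_lit 7276) (nat_lit 385) (.e (nat_lit 122919) (nat_lit 15) (.e (nat_lit 360492) (nat_lit 22) .nil))) .nil))) (.nd (nat_lit 5) 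
(.lf (nat_lit 126423) (.g (nat_lit 1685) (.e (nat_lit 7274) (nat_lit 385) (.e (nat_lit 122919) (nat_lit 15) (.e (nat_lit 360451) (nat_lit 0) (.e (nat_lit 7261) (nat_lit 384) .nil)))) .nil)) 
(.lf (nat_lit 126455) (.g (nat_lit 1633) (.e (nat_lit 7277) (nat_lit 385) (.e (nat_lit 122919) (nat_lit 15) (.e (nat_lit 360451) (nat_lit 0) (.e (nat_lit 7263) (nat_lit 384) .nil)))) .nil)))) (.nd (nat_lit 4) (.nd (nat_lit 5) 
(.lf (nat_lit 126415) (.g (nat_lit 1969) (.e (nat_lit 7273) (nat_lit 385) (.e (nat_lit 122919) (nat_lit 15) (.e (nat_lit 360491) (nat_lit 22) (.e (nat_lit 778466) (nat_lit 11) (.e (nat_lit 24643) (nat_lit 11) (.e (nat_lit 368662) (nat_lit 18) .nil)))))) (.g (nat_lit 0) .nil .nil))) 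
(.lf (nat_lit 126447) (.g (nat_lit 2442) (.e (nat_lit 7277) (nat_lit 385) (.e (nat_lit 122919) (nat_lit 15) (.e (nat_lit 360451) (nat_lit 0) (.e (nat_lit 7122) (nat_lit 382) (.e (nat_lit 1201) (nat_lit 88) .nil))))) .nil))) (.nd (nat_lit 5) 
(.lf (nat_lit 126431) (.g (nat_lit 638) (.e (nat_lit 7276) (nat_lit 385) (.e (nat_lit 122919) (nat_lit 15) (.e (nat_lit 360451) (nat_lit 0) .nil))) .nil)) 
(.lf (nat_lit 126463) (.g (nat_lit 1635) (.e (nat_lit 7936) (nat_lit 385) (.e (nat_lit 122919) (nat_lit 15) (.e (nat_lit 360451) (nat_lit 0) (.e (nat_lit 7261) (nat_lit 384) (.e (nat_lit 57427) (nat_lit 15) .nil))))) .nil))))))))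

noncomputable def tv1699 : DT := (.nd (nat_lit 0) (.nd (nat_lit 1) (.nd (nat_lit 2) (.nd (nat_lit 3) (.nd (nat_lit 4) (.nd (nat_lit 5) (.nd (nat_lit 6) 
(.lf (nat_lit 126464) (.g (nat_lit 2040) (.e (nat_lit 7936) (nat_lit 385) (.e (nat_lit 122919) (nat_lit 15) (.e (nat_lit 360451) (nat_lit 0) (.e (nat_lit 7266) (nat_lit 384) (.e (nat_lit 57427) (nat_lit 15) .nil))))) .nil)) 
(.lf (nat_lit 126528) (.g (nat_lit 2743) (.e (nat_lit 7374) (nat_lit 389) (.e (nat_lit 8326) (nat_lit 69) (.e (nat_lit 557100) (nat_lit 13) (.e (nat_lit 172113) (nat_lit 10) (.e (nat_lit 434245) (nat_lit 28) .nil))))) .nil))) (.nd (nat_lit 6) 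
(.lf (nat_lit 126496) (.g (nat_lit 1129) (.e (nat_lit 7290) (nat_lit 386) (.e (nat_lit 163874) (nat_lit 3) (.e (nat_lit 204829) (nat_lit 18) .nil))) .nil)) 
(.lf (nat_lit 126560) (.g (nat_lit 3307) (.e (nat_lit 7429) (nat_lit 396) (.e (nat_lit 1179) (nat_lit 87) (.e (nat_lit 57480) (nat_lit 28) (.e (nat_lit 557108) (nat_lit 15) (.e (nat_lit 188452) (nat_lit 23) (.e (nat_lit 204881) (nat_lit 32) (.e (nat_lit 385053) (nat_lit 21) .nil))))))) (.g (nat_lit 7) .nil .nil))))) (.nd (nat_lit 5) (.nd (nat_lit 6) 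
(.lf (nat_lit 126480) (.g (nat_lit 499) (.e (nat_lit 7285) (nat_lit 386) (.e (nat_lit 163843) (nat_lit 0) (.e (nat_lit 3222) (nat_lit 196) .nil))) .nil)) 
(.lf (nat_lit 126544) (.g (nat_lit 2302) (.e (nat_lit 7377) (nat_lit 390) (.e (nat_lit 24665) (nat_lit 14) (.e (nat_lit 401448) (nat_lit 10) (.e (nat_lit 434291) (nat_lit 44) (.e (nat_lit 704737) (nat_lit 11) .nil))))) .nil))) (.nd (nat_lit 6) 
(.lf (nat_lit 126512) (.g (nat_lit 598) (.e (nat_lit 7309) (nat_lit 388) (.e (nat_lit 2613) (nat_lit 163) (.e (nat_lit 164403) (nat_lit 256) (.e (nat_lit 57400) (nat_lit 10) .nil)))) .nil)) 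
(.lf (nat_lit 126576) (.g (nat_lit 1751) (.e (nat_lit 7454) (nat_lit 396) (.e (nat_lit 1190) (nat_lit 88) (.e (nat_lit 65619) (nat_lit 10) (.e (nat_lit 344117) (nat_lit 21) (.e (nat_lit 516097) (nat_lit 0) .nil))))) .nil))))) (.nd (nat_lit 4) (.nd (nat_lit 5) (.nd (nat_lit 6) 
(.lf (nat_lit 126472) (.g (nat_lit 2119) (.e (nat_lit 7281) (nat_lit 386) (.e (nat_lit 163874) (nat_lit 3) (.e (nat_lit 204830) (nat_lit 18) (.e (nat_lit 57852) (nat_lit 252) .nil)))) .nil)) 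
(.lf (nat_lit 126536) (.g (nat_lit 2237) (.e (nat_lit 7376) (nat_lit 389) (.e (nat_lit 8326) (nat_lit 69) (.e (nat_lit 557100) (nat_lit 13) (.e (nat_lit 172106) (nat_lit 10) (.e (nat_lit 434244) (nat_lit 28) .nil))))) .nil))) (.nd (nat_lit 6) 
(.lf (nat_lit 126504) (.g (nat_lit 1128) (.e (nat_lit 7291) (nat_lit 386) (.e (nat_lit 163907) (nat_lit 12) (.e (nat_lit 426479) (nat_lit 27) .nil))) .nil)) 
(.lf (nat_lit 126568) (.g (nat_lit 1593) (.e (nat_lit 7450) (nat_lit 396) (.e (nat_lit 1221) (nat_lit 90) (.e (nat_lit 81959) (nat_lit 24) (.e (nat_lit 123196) (nat_lit 266) .nil)))) .nil)))) (.nd (nat_lit 5) (.nd (nat_lit 6) 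
(.lf (nat_lit 126488) (.g (nat_lit 1128) (.e (nat_lit 7288) (nat_lit 386) (.e (nat_lit 163907) (nat_lit 12) (.e (nat_lit 426479) (nat_lit 27) .nil))) .nil)) 
(.lf (nat_lit 126552) (.g (nat_lit 806) (.e (nat_lit 7389) (nat_lit 393) (.e (nat_lit 180252) (nat_lit 10) (.e (nat_lit 573474) (nat_lit 12) .nil))) .nil))) (.nd (nat_lit 6) 
(.lf (nat_lit 126520) (.g (nat_lit 759) (.e (nat_lit 7371) (nat_lit 388) (.e (nat_lit 2601) (nat_lit 163) (.e (nat_lit 164403) (nat_lit 256) (.e (nat_lit 57400) (nat_lit 10) .nil)))) .nil)) 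
(.lf (nat_lit 126584) (.g (nat_lit 439) (.e (nat_lit 7454) (nat_lit 396) (.e (nat_lit 1219) (nat_lit 90) (.e (nat_lit 81954) (nat_lit 23) .nil))) .nil)))))) (.nd (nat_lit 3) (.nd (nat_lit 4) (.nd (nat_lit 5) (.nd (nat_lit 6) 
(.lf (nat_lit 126468) (.g (nat_lit 1151) (.e (nat_lit 7280) (nat_lit 386) (.e (nat_lit 163874) (nat_lit 3) (.e (nat_lit 204831) (nat_lit 18) .nil))) .nil)) 
(.lf (nat_lit 126532) (.g (nat_lit 2671) (.e (nat_lit 7374) (nat_lit 389) (.e (nat_lit 8326) (nat_lit 69) (.e (nat_lit 557100) (nat_lit 13) (.e (nat_lit 172113) (nat_lit 10) (.e (nat_lit 434248) (nat_lit 28) .nil))))) .nil))) (.nd (nat_lit 6) 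
(.lf (nat_lit 126500) (.g (nat_lit 2327) (.e (nat_lit 7290) (nat_lit 386) (.e (nat_lit 163907) (nat_lit 12) (.e (nat_lit 426479) (nat_lit 27) (.e (nat_lit 336430) (nat_lit 29) (.e (nat_lit 442425) (nat_lit 23) .nil))))) .nil)) 
(.lf (nat_lit 126564) (.g (nat_lit 2050) (.e (nat_lit 7450) (nat_lit 396) (.e (nat_lit 1190) (nat_lit 88) (.e (nat_lit 65619) (nat_lit 10) (.e (nat_lit 344160) (nat_lit 37) (.e (nat_lit 647203) (nat_lit 14) (.e (nat_lit 1349) (nat_lit 102) (.e (nat_lit 286748) (nat_lit 9) (.e (nat_lit 336295) (nat_lit 15) (.e (nat_lit 2442) (nat_lit 157) .nil))))))))) (.g (nat_lit 4) .nil .nil))))) 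
(.nd (nat_lit 5) (.nd (nat_lit 6) 
(.lf (nat_lit 126484) (.g (nat_lit 2063) (.e (nat_lit 7287) (nat_lit 386) (.e (nat_lit 163875) (nat_lit 3) (.e (nat_lit 204830) (nat_lit 18) (.e (nat_lit 57852) (nat_lit 252) .nil)))) .nil)) 
(.lf (nat_lit 126548) (.g (nat_lit 1285) (.e (nat_lit 7936) (nat_lit 392) (.e (nat_lit 172065) (nat_lit 3) (.e (nat_lit 204846) (nat_lit 24) (.e (nat_lit 319534) (nat_lit 16) .nil)))) .nil))) (.nd (nat_lit 6) 
(.lf (nat_lit 126516) (.g (nat_lit 453) (.e (nat_lit 7349) (nat_lit 388) (.e (nat_lit 2682) (nat_lit 168) (.e (nat_lit 204831) (nat_lit 18) .nil))) .nil)) 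
(.lf (nat_lit 126580) (.g (nat_lit 2026) (.e (nat_lit 7454) (nat_lit 396) (.e (nat_lit 1200) (nat_lit 88) (.e (nat_lit 65619) (nat_lit 10) (.e (nat_lit 344117) (nat_lit 21) (.e (nat_lit 516115) (nat_lit 1) .nil))))) .nil))))) (.nd (nat_lit 4) (.nd (nat_lit 5) (.nd (nat_lit 6) 
(.lf (nat_lit 126476) (.g (nat_lit 1010) (.e (nat_lit 7282) (nat_lit 386) (.e (nat_lit 163874) (nat_lit 3) (.e (nat_lit 204830) (nat_lit 18) .nil))) .nil)) 
(.lf (nat_lit 126540) (.g (nat_lit 2668) (.e (nat_lit 7376) (nat_lit 389) (.e (nat_lit 8326) (nat_lit 69) (.e (nat_lit 557100) (nat_lit 13) (.e (nat_lit 172113) (nat_lit 10) (.e (nat_lit 434248) (nat_lit 28) .nil))))) .nil))) (.nd (nat_lit 6) 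
(.lf (nat_lit 126508) (.g (nat_lit 2713) (.e (nat_lit 7304) (nat_lit 388) (.e (nat_lit 2685) (nat_lit 168) (.e (nat_lit 204846) (nat_lit 24) (.e (nat_lit 319530) (nat_lit 16) (.e (nat_lit 286735) (nat_lit 3) .nil))))) .nil)) 
(.lf (nat_lit 126572) (.g (nat_lit 3597) (.e (nat_lit 7454) (nat_lit 396) (.e (nat_lit 1188) (nat_lit 88) (.e (nat_lit 65630) (nat_lit 14) (.e (nat_lit 401459) (nat_lit 13) (.e (nat_lit 483410) (nat_lit 27) (.e (nat_lit 401463) (nat_lit 15) (.e (nat_lit 1014) (nat_lit 81) .nil))))))) (.g (nat_lit 6) .nil .nil))))) (.nd (nat_lit 5) (.nd (nat_lit 6) 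
(.lf (nat_lit 126492) (.g (nat_lit 1704) (.e (nat_lit 7289) (nat_lit 386) (.e (nat_lit 163907) (nat_lit 12) (.e (nat_lit 426438) (nat_lit 18) (.e (nat_lit 98381) (nat_lit 31) .nil)))) .nil)) 
(.lf (nat_lit 126556) (.g (nat_lit 2309) (.e (nat_lit 7420) (nat_lit 396) (.e (nat_lit 1179) (nat_lit 87) (.e (nat_lit 57479) (nat_lit 28) (.e (nat_lit 557100) (nat_lit 13) (.e (nat_lit 172106) (nat_lit 10) .nil))))) .nil))) (.nd (nat_lit 6) 
(.lf (nat_lit 126524) (.g (nat_lit 1950) (.e (nat_lit 7936) (nat_lit 388) (.e (nat_lit 2684) (nat_lit 168) (.e (nat_lit 204869) (nat_lit 29) (.e (nat_lit 360474) (nat_lit 8) (.e (nat_lit 557089) (nat_lit 12) .nil))))) .nil)) 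
(.lf (nat_lit 126588) (.g (nat_lit 1472) (.e (nat_lit 7454) (nat_lit 396) (.e (nat_lit 1219) (nat_lit 90) (.e (nat_lit 81954) (nat_lit 23) (.e (nat_lit 98321) (nat_lit 17) (.e (nat_lit 7936) (nat_lit 216) (.e (nat_lit 688182) (nat_lit 17) (.e (nat_lit 73730) (nat_lit 0) .nil))))))) (.g (nat_lit 4) .nil .nil)))))))) 
(.nd (nat_lit 2) (.nd (nat_lit 3) (.nd (nat_lit 4) (.nd (nat_lit 5) (.nd (nat_lit 6) 
(.lf (nat_lit 126466) (.g (nat_lit 2735) (.e (nat_lit 7280) (nat_lit 386) (.e (nat_lit 163874) (nat_lit 3) (.e (nat_lit 204829) (nat_lit 18) (.e (nat_lit 57847) (nat_lit 252) (.e (nat_lit 57411) (nat_lit 12) (.e (nat_lit 336019) (nat_lit 3) (.e (nat_lit 98384) (nat_lit 32) (.e (nat_lit 475163) (nat_lit 21) .nil)))))))) (.g (nat_lit 4) .nil .nil))) 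
(.lf (nat_lit 126530) (.g (nat_lit 3571) (.e (nat_lit 7374) (nat_lit 389) (.e (nat_lit 8326) (nat_lit 69) (.e (nat_lit 557100) (nat_lit 13) (.e (nat_lit 172113) (nat_lit 10) (.e (nat_lit 434247) (nat_lit 28) (.e (nat_lit 573456) (nat_lit 9) (.e (nat_lit 430) (nat_lit 32) (.e (nat_lit 426012) (nat_lit 0) .nil)))))))) (.g (nat_lit 5) .nil .nil)))) (.nd (nat_lit 6) 
(.lf (nat_lit 126498) (.g (nat_lit 1885) (.e (nat_lit 7290) (nat_lit 386) (.e (nat_lit 163905) (nat_lit 12) (.e (nat_lit 426479) (nat_lit 27) (.e (nat_lit 336430) (nat_lit 29) (.e (nat_lit 442425) (nat_lit 23) .nil))))) .nil)) 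
(.lf (nat_lit 126562) (.g (nat_lit 2767) (.e (nat_lit 7442) (nat_lit 396) (.e (nat_lit 1196) (nat_lit 88) (.e (nat_lit 65630) (nat_lit 14) (.e (nat_lit 401459) (nat_lit 13) (.e (nat_lit 483403) (nat_lit 26) .nil))))) .nil)))) (.nd (nat_lit 5) (.nd (nat_lit 6) 
(.lf (nat_lit 126482) (.g (nat_lit 2679) (.e (nat_lit 7287) (nat_lit 386) (.e (nat_lit 163874) (nat_lit 3) (.e (nat_lit 204829) (nat_lit 18) (.e (nat_lit 57847) (nat_lit 252) (.e (nat_lit 57411) (nat_lit 12) (.e (nat_lit 336019) (nat_lit 3) (.e (nat_lit 98384) (nat_lit 32) (.e (nat_lit 475161) (nat_lit 21) .nil)))))))) (.g (nat_lit 4) .nil .nil))) 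
(.lf (nat_lit 126546) (.g (nat_lit 556) (.e (nat_lit 7387) (nat_lit 392) (.e (nat_lit 172065) (nat_lit 3) (.e (nat_lit 204846) (nat_lit 24) .nil))) .nil))) (.nd (nat_lit 6) 
(.lf (nat_lit 126514) (.g (nat_lit 2889) (.e (nat_lit 7343) (nat_lit 388) (.e (nat_lit 3062) (nat_lit 190) (.e (nat_lit 475185) (nat_lit 29) (.e (nat_lit 557100) (nat_lit 13) (.e (nat_lit 172113) (nat_lit 10) .nil))))) .nil)) 
(.lf (nat_lit 126578) (.g (nat_lit 989) (.e (nat_lit 7454) (nat_lit 396) (.e (nat_lit 1196) (nat_lit 88) (.e (nat_lit 65610) (nat_lit 10) (.e (nat_lit 344117) (nat_lit 21) .nil)))) .nil))))) (.nd (nat_lit 4) (.nd (nat_lit 5) (.nd (nat_lit 6) 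
(.lf (nat_lit 126474) (.g (nat_lit 3526) (.e (nat_lit 7281) (nat_lit 386) (.e (nat_lit 163875) (nat_lit 3) (.e (nat_lit 204829) (nat_lit 18) (.e (nat_lit 57847) (nat_lit 252) (.e (nat_lit 57411) (nat_lit 12) (.e (nat_lit 336019) (nat_lit 3) (.e (nat_lit 98384) (nat_lit 32) (.e (nat_lit 475161) (nat_lit 21) .nil)))))))) (.g (nat_lit 5) .nil .nil))) 
(.lf (nat_lit 126538) (.g (nat_lit 2715) (.e (nat_lit 7376) (nat_lit 389) (.e (nat_lit 8326) (nat_lit 69) (.e (nat_lit 557100) (nat_lit 13) (.e (nat_lit 172113) (nat_lit 10) (.e (nat_lit 434247) (nat_lit 28) .nil))))) .nil))) (.nd (nat_lit 6) 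
(.lf (nat_lit 126506) (.g (nat_lit 2238) (.e (nat_lit 7303) (nat_lit 388) (.e (nat_lit 351) (nat_lit 28) (.e (nat_lit 393251) (nat_lit 18) (.e (nat_lit 164332) (nat_lit 230) (.e (nat_lit 163867) (nat_lit 2) .nil))))) .nil)) 
(.lf (nat_lit 126570) (.g (nat_lit 2883) (.e (nat_lit 7454) (nat_lit 396) (.e (nat_lit 1178) (nat_lit 87) (.e (nat_lit 57480) (nat_lit 28) (.e (nat_lit 557108) (nat_lit 15) (.e (nat_lit 188452) (nat_lit 23) (.e (nat_lit 204885) (nat_lit 33) (.e (nat_lit 401463) (nat_lit 15) (.e (nat_lit 1014) (nat_lit 81) .nil)))))))) (.g (nat_lit 6) .nil .nil))))) (.nd (nat_lit 5) (.nd (nat_lit 6) 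
(.lf (nat_lit 126490) (.g (nat_lit 1345) (.e (nat_lit 7289) (nat_lit 386) (.e (nat_lit 163905) (nat_lit 12) (.e (nat_lit 426479) (nat_lit 27) (.e (nat_lit 336430) (nat_lit 29) .nil)))) .nil)) 
(.lf (nat_lit 126554) (.g (nat_lit 1366) (.e (nat_lit 7936) (nat_lit 393) (.e (nat_lit 180244) (nat_lit 5) (.e (nat_lit 532523) (nat_lit 7) (.e (nat_lit 319511) (nat_lit 10) .nil)))) .nil))) (.nd (nat_lit 6) 
(.lf (nat_lit 126522) (.g (nat_lit 1524) (.e (nat_lit 7936) (nat_lit 388) (.e (nat_lit 2668) (nat_lit 167) (.e (nat_lit 196666) (nat_lit 13) (.e (nat_lit 65617) (nat_lit 10) (.e (nat_lit 344130) (nat_lit 26) .nil))))) .nil)) 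
(.lf (nat_lit 126586) (.g (nat_lit 1318) (.e (nat_lit 7454) (nat_lit 396) (.e (nat_lit 1219) (nat_lit 90) (.e (nat_lit 81954) (nat_lit 23) (.e (nat_lit 98321) (nat_lit 17) (.e (nat_lit 7936) (nat_lit 216) .nil))))) .nil)))))) (.nd (nat_lit 3) (.nd (nat_lit 4) (.nd (nat_lit 5) (.nd (nat_lit 6) 
(.lf (nat_lit 126470) (.g (nat_lit 2244) (.e (nat_lit 7280) (nat_lit 386) (.e (nat_lit 163903) (nat_lit 12) (.e (nat_lit 426568) (nat_lit 34) (.e (nat_lit 393282) (nat_lit 24) (.e (nat_lit 434231) (nat_lit 23) (.e (nat_lit 532490) (nat_lit 0) (.e (nat_lit 1040) (nat_lit 81) .nil))))))) (.g (nat_lit 4) .nil .nil))) 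
(.lf (nat_lit 126534) (.g (nat_lit 2991) (.e (nat_lit 7375) (nat_lit 389) (.e (nat_lit 8326) (nat_lit 69) (.e (nat_lit 557100) (nat_lit 13) (.e (nat_lit 172113) (nat_lit 10) (.e (nat_lit 434245) (nat_lit 28) .nil))))) .nil))) (.nd (nat_lit 6) 
(.lf (nat_lit 126502) (.g (nat_lit 1164) (.e (nat_lit 7291) (nat_lit 386) (.e (nat_lit 163907) (nat_lit 12) (.e (nat_lit 426428) (nat_lit 17) .nil))) .nil)) 
(.lf (nat_lit 126566) (.g (nat_lit 2773) (.e (nat_lit 7450) (nat_lit 396) (.e (nat_lit 1196) (nat_lit 88) (.e (nat_lit 65630) (nat_lit 14) (.e (nat_lit 401459) (nat_lit 13) (.e (nat_lit 483380) (nat_lit 23) .nil))))) .nil)))) (.nd (nat_lit 5) (.nd (nat_lit 6) 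
(.lf (nat_lit 126486) (.g (nat_lit 1759) (.e (nat_lit 7287) (nat_lit 386) (.e (nat_lit 163907) (nat_lit 12) (.e (nat_lit 426479) (nat_lit 27) (.e (nat_lit 336430) (nat_lit 29) .nil)))) .nil)) 
(.lf (nat_lit 126550) (.g (nat_lit 1867) (.e (nat_lit 7936) (nat_lit 392) (.e (nat_lit 172150) (nat_lit 27) (.e (nat_lit 335894) (nat_lit 0) (.e (nat_lit 6722) (nat_lit 362) (.e (nat_lit 180226) (nat_lit 0) .nil))))) .nil))) (.nd (nat_lit 6) 
(.lf (nat_lit 126518) (.g (nat_lit 4282) (.e (nat_lit 7355) (nat_lit 388) (.e (nat_lit 2608) (nat_lit 163) (.e (nat_lit 164403) (nat_lit 256) (.e (nat_lit 57400) (nat_lit 10) (.e (nat_lit 319531) (nat_lit 16) (.e (nat_lit 286761) (nat_lit 13) (.e (nat_lit 393234) (nat_lit 17) .nil))))))) (.g (nat_lit 7) .nil .nil))) 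
(.lf (nat_lit 126582) (.g (nat_lit 2538) (.e (nat_lit 7454) (nat_lit 396) (.e (nat_lit 1200) (nat_lit 88) (.e (nat_lit 65630) (nat_lit 14) (.e (nat_lit 401459) (nat_lit 13) (.e (nat_lit 483410) (nat_lit 27) .nil))))) .nil))))) (.nd (nat_lit 4) (.nd (nat_lit 5) (.nd (nat_lit 6) 
(.lf (nat_lit 126478) (.g (nat_lit 1466) (.e (nat_lit 7282) (nat_lit 386) (.e (nat_lit 163886) (nat_lit 5) (.e (nat_lit 229120) (nat_lit 17) (.e (nat_lit 385068) (nat_lit 26) (.e (nat_lit 532551) (nat_lit 12) (.e (nat_lit 368384) (nat_lit 0) .nil)))))) (.g (nat_lit 5) .nil .nil))) 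
(.lf (nat_lit 126542) (.g (nat_lit 3382) (.e (nat_lit 7376) (nat_lit 389) (.e (nat_lit 8326) (nat_lit 69) (.e (nat_lit 557100) (nat_lit 13) (.e (nat_lit 172113) (nat_lit 10) (.e (nat_lit 434248) (nat_lit 28) (.e (nat_lit 573470) (nat_lit 11) (.e (nat_lit 16388) (nat_lit 0) .nil))))))) (.g (nat_lit 5) .nil .nil)))) (.nd (nat_lit 6) 
(.lf (nat_lit 126510) (.g (nat_lit 1381) (.e (nat_lit 7309) (nat_lit 388) (.e (nat_lit 348) (nat_lit 28) (.e (nat_lit 393253) (nat_lit 18) (.e (nat_lit 164326) (nat_lit 230) (.e (nat_lit 163871) (nat_lit 2) .nil))))) .nil)) 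
(.lf (nat_lit 126574) (.g (nat_lit 1867) (.e (nat_lit 7454) (nat_lit 396) (.e (nat_lit 1189) (nat_lit 88) (.e (nat_lit 65619) (nat_lit 10) (.e (nat_lit 344117) (nat_lit 21) (.e (nat_lit 516116) (nat_lit 1) .nil))))) .nil)))) (.nd (nat_lit 5) (.nd (nat_lit 6) 
(.lf (nat_lit 126494) (.g (nat_lit 1755) (.e (nat_lit 7289) (nat_lit 386) (.e (nat_lit 163907) (nat_lit 12) (.e (nat_lit 426479) (nat_lit 27) (.e (nat_lit 336434) (nat_lit 30) .nil)))) .nil)) 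
(.lf (nat_lit 126558) (.g (nat_lit 3551) (.e (nat_lit 7423) (nat_lit 396) (.e (nat_lit 1179) (nat_lit 87) (.e (nat_lit 57480) (nat_lit 28) (.e (nat_lit 557108) (nat_lit 15) (.e (nat_lit 188452) (nat_lit 23) (.e (nat_lit 204852) (nat_lit 26) (.e (nat_lit 336258) (nat_lit 15) (.e (nat_lit 2456) (nat_lit 157) .nil)))))))) (.g (nat_lit 5) .nil .nil)))) (.nd (nat_lit 6) 
(.lf (nat_lit 126526) (.g (nat_lit 2176) (.e (nat_lit 7936) (nat_lit 388) (.e (nat_lit 2685) (nat_lit 168) (.e (nat_lit 204869) (nat_lit 29) (.e (nat_lit 360474) (nat_lit 8) (.e (nat_lit 557094) (nat_lit 12) .nil))))) .nil)) 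
(.lf (nat_lit 126590) (.g (nat_lit 2323) (.e (nat_lit 7454) (nat_lit 396) (.e (nat_lit 1219) (nat_lit 90) (.e (nat_lit 81954) (nat_lit 23) (.e (nat_lit 98333) (nat_lit 18) (.e (nat_lit 164153) (nat_lit 152) .nil))))) .nil)))))))) (.nd (nat_lit 1) (.nd (nat_lit 2) (.nd (nat_lit 3) (.nd (nat_lit 4) (.nd (nat_lit 5) (.nd (nat_lit 6) 
(.lf (nat_lit 126465) (.g (nat_lit 1806) (.e (nat_lit 7280) (nat_lit 386) (.e (nat_lit 163874) (nat_lit 3) (.e (nat_lit 204829) (nat_lit 18) (.e (nat_lit 57847) (nat_lit 252) .nil)))) .nil)) 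
(.lf (nat_lit 126529) (.g (nat_lit 2718) (.e (nat_lit 7374) (nat_lit 389) (.e (nat_lit 8326) (nat_lit 69) (.e (nat_lit 557100) (nat_lit 13) (.e (nat_lit 172113) (nat_lit 10) (.e (nat_lit 434247) (nat_lit 28) .nil))))) .nil))) (.nd (nat_lit 6) 
(.lf (nat_lit 126497) (.g (nat_lit 2562) (.e (nat_lit 7290) (nat_lit 386) (.e (nat_lit 163874) (nat_lit 3) (.e (nat_lit 204829) (nat_lit 18) (.e (nat_lit 57847) (nat_lit 252) (.e (nat_lit 57411) (nat_lit 12) .nil))))) .nil)) 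
(.lf (nat_lit 126561) (.g (nat_lit 1856) (.e (nat_lit 7431) (nat_lit 396) (.e (nat_lit 1218) (nat_lit 90) (.e (nat_lit 81956) (nat_lit 23) (.e (nat_lit 98333) (nat_lit 18) .nil)))) .nil)))) (.nd (nat_lit 5) (.nd (nat_lit 6) 
(.lf (nat_lit 126481) (.g (nat_lit 1821) (.e (nat_lit 7287) (nat_lit 386) (.e (nat_lit 163874) (nat_lit 3) (.e (nat_lit 204829) (nat_lit 18) (.e (nat_lit 57847) (nat_lit 252) .nil)))) .nil)) 
(.lf (nat_lit 126545) (.g (nat_lit 1747) (.e (nat_lit 7936) (nat_lit 390) (.e (nat_lit 24663) (nat_lit 14) (.e (nat_lit 401448) (nat_lit 10) (.e (nat_lit 434289) (nat_lit 43) .nil)))) .nil))) (.nd (nat_lit 6) 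
(.lf (nat_lit 126513) (.g (nat_lit 1339) (.e (nat_lit 7324) (nat_lit 388) (.e (nat_lit 2608) (nat_lit 163) (.e (nat_lit 164403) (nat_lit 256) (.e (nat_lit 57399) (nat_lit 10) .nil)))) .nil)) 
(.lf (nat_lit 126577) (.g (nat_lit 2027) (.e (nat_lit 7454) (nat_lit 396) (.e (nat_lit 1190) (nat_lit 88) (.e (nat_lit 65619) (nat_lit 10) (.e (nat_lit 344117) (nat_lit 21) (.e (nat_lit 516115) (nat_lit 1) .nil))))) .nil))))) (.nd (nat_lit 4) (.nd (nat_lit 5) (.nd (nat_lit 6) 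
(.lf (nat_lit 126473) (.g (nat_lit 1152) (.e (nat_lit 7281) (nat_lit 386) (.e (nat_lit 163874) (nat_lit 3) (.e (nat_lit 204831) (nat_lit 18) .nil))) .nil)) 
(.lf (nat_lit 126537) (.g (nat_lit 2741) (.e (nat_lit 7376) (nat_lit 389) (.e (nat_lit 8326) (nat_lit 69) (.e (nat_lit 557100) (nat_lit 13) (.e (nat_lit 172113) (nat_lit 10) (.e (nat_lit 434245) (nat_lit 28) .nil))))) .nil))) (.nd (nat_lit 6) 
(.lf (nat_lit 126505) (.g (nat_lit 637) (.e (nat_lit 7291) (nat_lit 386) (.e (nat_lit 163913) (nat_lit 12) (.e (nat_lit 426435) (nat_lit 18) .nil))) .nil)) 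
(.lf (nat_lit 126569) (.g (nat_lit 1811) (.e (nat_lit 7454) (nat_lit 396) (.e (nat_lit 1178) (nat_lit 87) (.e (nat_lit 57480) (nat_lit 28) (.e (nat_lit 557108) (nat_lit 15) (.e (nat_lit 188452) (nat_lit 23) (.e (nat_lit 204885) (nat_lit 33) (.e (nat_lit 401461) (nat_lit 15) (.e (nat_lit 1006) (nat_lit 81) .nil)))))))) (.g (nat_lit 4) .nil .nil))))) (.nd (nat_lit 5) (.nd (nat_lit 6) 
(.lf (nat_lit 126489) (.g (nat_lit 1874) (.e (nat_lit 7289) (nat_lit 386) (.e (nat_lit 163875) (nat_lit 3) (.e (nat_lit 204837) (nat_lit 20) (.e (nat_lit 114719) (nat_lit 23) .nil)))) .nil)) 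
(.lf (nat_lit 126553) (.g (nat_lit 751) (.e (nat_lit 7936) (nat_lit 393) (.e (nat_lit 180243) (nat_lit 5) (.e (nat_lit 532486) (nat_lit 0) .nil))) .nil))) (.nd (nat_lit 6) 
(.lf (nat_lit 126521) (.g (nat_lit 2064) (.e (nat_lit 7936) (nat_lit 388) (.e (nat_lit 351) (nat_lit 28) (.e (nat_lit 393253) (nat_lit 18) (.e (nat_lit 164327) (nat_lit 230) (.e (nat_lit 163868) (nat_lit 2) .nil))))) .nil)) 
(.lf (nat_lit 126585) (.g (nat_lit 1154) (.e (nat_lit 7454) (nat_lit 396) (.e (nat_lit 1219) (nat_lit 90) (.e (nat_lit 81954) (nat_lit 23) (.e (nat_lit 98319) (nat_lit 17) .nil)))) .nil)))))) (.nd (nat_lit 3) (.nd (nat_lit 4) (.nd (nat_lit 5) (.nd (nat_lit 6) 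
(.lf (nat_lit 126469) (.g (nat_lit 2485) (.e (nat_lit 7280) (nat_lit 386) (.e (nat_lit 163875) (nat_lit 3) (.e (nat_lit 204830) (nat_lit 18) (.e (nat_lit 57830) (nat_lit 250) (.e (nat_lit 1296) (nat_lit 96) (.e (nat_lit 131096) (nat_lit 3) (.e (nat_lit 98384) (nat_lit 32) (.e (nat_lit 475161) (nat_lit 21) .nil)))))))) (.g (nat_lit 4) .nil .nil))) 
(.lf (nat_lit 126533) (.g (nat_lit 2180) (.e (nat_lit 7375) (nat_lit 389) (.e (nat_lit 8326) (nat_lit 69) (.e (nat_lit 557100) (nat_lit 13) (.e (nat_lit 172113) (nat_lit 10) .nil)))) .nil))) (.nd (nat_lit 6) 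
(.lf (nat_lit 126501) (.g (nat_lit 2599) (.e (nat_lit 7290) (nat_lit 386) (.e (nat_lit 163907) (nat_lit 12) (.e (nat_lit 426479) (nat_lit 27) (.e (nat_lit 336430) (nat_lit 29) (.e (nat_lit 442427) (nat_lit 23) (.e (nat_lit 204821) (nat_lit 17) (.e (nat_lit 1040) (nat_lit 81) .nil))))))) (.g (nat_lit 4) .nil .nil))) 
(.lf (nat_lit 126565) (.g (nat_lit 3012) (.e (nat_lit 7450) (nat_lit 396) (.e (nat_lit 1190) (nat_lit 88) (.e (nat_lit 65630) (nat_lit 14) (.e (nat_lit 401459) (nat_lit 13) (.e (nat_lit 483403) (nat_lit 26) .nil))))) .nil)))) (.nd (nat_lit 5) (.nd (nat_lit 6) 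
(.lf (nat_lit 126485) (.g (nat_lit 735) (.e (nat_lit 7287) (nat_lit 386) (.e (nat_lit 163905) (nat_lit 12) (.e (nat_lit 426479) (nat_lit 27) .nil))) .nil)) 
(.lf (nat_lit 126549) (.g (nat_lit 2125) (.e (nat_lit 7936) (nat_lit 392) (.e (nat_lit 172066) (nat_lit 3) (.e (nat_lit 204846) (nat_lit 24) (.e (nat_lit 319533) (nat_lit 16) (.e (nat_lit 286734) (nat_lit 3) .nil))))) .nil))) (.nd (nat_lit 6) 
(.lf (nat_lit 126517) (.g (nat_lit 707) (.e (nat_lit 7355) (nat_lit 388) (.e (nat_lit 2608) (nat_lit 163) (.e (nat_lit 164402) (nat_lit 256) (.e (nat_lit 57400) (nat_lit 10) .nil)))) .nil)) 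
(.lf (nat_lit 126581) (.g (nat_lit 2065) (.e (nat_lit 7454) (nat_lit 396) (.e (nat_lit 1200) (nat_lit 88) (.e (nat_lit 65628) (nat_lit 14) (.e (nat_lit 401459) (nat_lit 13) (.e (nat_lit 483411) (nat_lit 27) .nil))))) .nil))))) (.nd (nat_lit 4) (.nd (nat_lit 5) (.nd (nat_lit 6) 
(.lf (nat_lit 126477) (.g (nat_lit 2417) (.e (nat_lit 7282) (nat_lit 386) (.e (nat_lit 163875) (nat_lit 3) (.e (nat_lit 204837) (nat_lit 20) (.e (nat_lit 114719) (nat_lit 23) (.e (nat_lit 98365) (nat_lit 26) .nil))))) .nil)) 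
(.lf (nat_lit 126541) (.g (nat_lit 2703) (.e (nat_lit 7376) (nat_lit 389) (.e (nat_lit 8326) (nat_lit 69) (.e (nat_lit 557100) (nat_lit 13) (.e (nat_lit 172113) (nat_lit 10) (.e (nat_lit 434248) (nat_lit 28) (.e (nat_lit 573469) (nat_lit 11) (.e (nat_lit 16388) (nat_lit 0) .nil))))))) (.g (nat_lit 4) .nil .nil)))) (.nd (nat_lit 6) 
(.lf (nat_lit 126509) (.g (nat_lit 3997) (.e (nat_lit 7306) (nat_lit 388) (.e (nat_lit 3062) (nat_lit 190) (.e (nat_lit 475185) (nat_lit 29) (.e (nat_lit 557100) (nat_lit 13) (.e (nat_lit 172106) (nat_lit 10) (.e (nat_lit 434244) (nat_lit 28) (.e (nat_lit 573451) (nat_lit 9) (.e (nat_lit 11) (nat_lit 0) .nil)))))))) (.g (nat_lit 7) .nil .nil))) 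
(.lf (nat_lit 126573) (.g (nat_lit 1746) (.e (nat_lit 7454) (nat_lit 396) (.e (nat_lit 1189) (nat_lit 88) (.e (nat_lit 65619) (nat_lit 10) (.e (nat_lit 344117) (nat_lit 21) (.e (nat_lit 516115) (nat_lit 1) .nil))))) .nil)))) (.nd (nat_lit 5) (.nd (nat_lit 6) 
(.lf (nat_lit 126493) (.g (nat_lit 2307) (.e (nat_lit 7289) (nat_lit 386) (.e (nat_lit 163907) (nat_lit 12) (.e (nat_lit 426479) (nat_lit 27) (.e (nat_lit 336430) (nat_lit 29) (.e (nat_lit 442425) (nat_lit 23) .nil))))) .nil)) 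
(.lf (nat_lit 126557) (.g (nat_lit 3861) (.e (nat_lit 7420) (nat_lit 396) (.e (nat_lit 1179) (nat_lit 87) (.e (nat_lit 57480) (nat_lit 28) (.e (nat_lit 557108) (nat_lit 15) (.e (nat_lit 188452) (nat_lit 23) (.e (nat_lit 204880) (nat_lit 32) (.e (nat_lit 385049) (nat_lit 21) .nil))))))) (.g (nat_lit 7) .nil .nil)))) (.nd (nat_lit 6) 
(.lf (nat_lit 126525) (.g (nat_lit 2188) (.e (nat_lit 7936) (nat_lit 388) (.e (nat_lit 2685) (nat_lit 168) (.e (nat_lit 204869) (nat_lit 29) (.e (nat_lit 360474) (nat_lit 8) (.e (nat_lit 557093) (nat_lit 12) .nil))))) .nil)) 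
(.lf (nat_lit 126589) (.g (nat_lit 1232) (.e (nat_lit 7454) (nat_lit 396) (.e (nat_lit 1219) (nat_lit 90) (.e (nat_lit 81954) (nat_lit 23) (.e (nat_lit 98333) (nat_lit 18) .nil)))) .nil))))))) (.nd (nat_lit 2) (.nd (nat_lit 3) (.nd (nat_lit 4) (.nd (nat_lit 5) (.nd (nat_lit 6) 
(.lf (nat_lit 126467) (.g (nat_lit 2119) (.e (nat_lit 7280) (nat_lit 386) (.e (nat_lit 163874) (nat_lit 3) (.e (nat_lit 204830) (nat_lit 18) (.e (nat_lit 57852) (nat_lit 252) .nil)))) .nil)) 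
(.lf (nat_lit 126531) (.g (nat_lit 2735) (.e (nat_lit 7374) (nat_lit 389) (.e (nat_lit 8326) (nat_lit 69) (.e (nat_lit 557100) (nat_lit 13) (.e (nat_lit 172113) (nat_lit 10) (.e (nat_lit 434247) (nat_lit 28) (.e (nat_lit 573469) (nat_lit 11) (.e (nat_lit 16388) (nat_lit 0) .nil))))))) (.g (nat_lit 4) .nil .nil)))) (.nd (nat_lit 6) 
(.lf (nat_lit 126499) (.g (nat_lit 1146) (.e (nat_lit 7290) (nat_lit 386) (.e (nat_lit 163907) (nat_lit 12) (.e (nat_lit 426438) (nat_lit 18) .nil))) .nil)) 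
(.lf (nat_lit 126563) (.g (nat_lit 2651) (.e (nat_lit 7450) (nat_lit 396) (.e (nat_lit 1182) (nat_lit 87) (.e (nat_lit 57520) (nat_lit 44) (.e (nat_lit 688177) (nat_lit 16) (.e (nat_lit 65586) (nat_lit 7) (.e (nat_lit 319531) (nat_lit 16) (.e (nat_lit 286748) (nat_lit 9) (.e (nat_lit 336295) (nat_lit 15) (.e (nat_lit 2443) (nat_lit 157) .nil))))))))) (.g (nat_lit 6) .nil .nil))))) 
(.nd (nat_lit 5) (.nd (nat_lit 6) 
(.lf (nat_lit 126483) (.g (nat_lit 2668) (.e (nat_lit 7287) (nat_lit 386) (.e (nat_lit 163875) (nat_lit 3) (.e (nat_lit 204829) (nat_lit 18) (.e (nat_lit 57847) (nat_lit 252) (.e (nat_lit 57432) (nat_lit 16) .nil))))) .nil)) 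
(.lf (nat_lit 126547) (.g (nat_lit 2046) (.e (nat_lit 7936) (nat_lit 392) (.e (nat_lit 172065) (nat_lit 3) (.e (nat_lit 204846) (nat_lit 24) (.e (nat_lit 319528) (nat_lit 16) (.e (nat_lit 286735) (nat_lit 3) .nil))))) .nil))) (.nd (nat_lit 6) 
(.lf (nat_lit 126515) (.g (nat_lit 418) (.e (nat_lit 7349) (nat_lit 388) (.e (nat_lit 2664) (nat_lit 167) (.e (nat_lit 196628) (nat_lit 9) .nil))) .nil)) 
(.lf (nat_lit 126579) (.g (nat_lit 1772) (.e (nat_lit 7454) (nat_lit 396) (.e (nat_lit 1200) (nat_lit 88) (.e (nat_lit 65619) (nat_lit 10) (.e (nat_lit 344117) (nat_lit 21) (.e (nat_lit 516097) (nat_lit 0) .nil))))) .nil))))) (.nd (nat_lit 4) (.nd (nat_lit 5) (.nd (nat_lit 6) 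
(.lf (nat_lit 126475) (.g (nat_lit 2063) (.e (nat_lit 7281) (nat_lit 386) (.e (nat_lit 163875) (nat_lit 3) (.e (nat_lit 204830) (nat_lit 18) (.e (nat_lit 57852) (nat_lit 252) .nil)))) .nil)) 
(.lf (nat_lit 126539) (.g (nat_lit 3378) (.e (nat_lit 7376) (nat_lit 389) (.e (nat_lit 8326) (nat_lit 69) (.e (nat_lit 557100) (nat_lit 13) (.e (nat_lit 172113) (nat_lit 10) (.e (nat_lit 434247) (nat_lit 28) (.e (nat_lit 573469) (nat_lit 11) (.e (nat_lit 16388) (nat_lit 0) .nil))))))) (.g (nat_lit 5) .nil .nil)))) (.nd (nat_lit 6) 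
(.lf (nat_lit 126507) (.g (nat_lit 1177) (.e (nat_lit 7304) (nat_lit 388) (.e (nat_lit 2685) (nat_lit 168) (.e (nat_lit 204846) (nat_lit 24) (.e (nat_lit 319528) (nat_lit 16) .nil)))) .nil)) 
(.lf (nat_lit 126571) (.g (nat_lit 1000) (.e (nat_lit 7454) (nat_lit 396) (.e (nat_lit 1188) (nat_lit 88) (.e (nat_lit 65630) (nat_lit 14) (.e (nat_lit 401425) (nat_lit 2) .nil)))) .nil)))) (.nd (nat_lit 5) (.nd (nat_lit 6) 
(.lf (nat_lit 126491) (.g (nat_lit 1707) (.e (nat_lit 7289) (nat_lit 386) (.e (nat_lit 163907) (nat_lit 12) (.e (nat_lit 426438) (nat_lit 18) (.e (nat_lit 98380) (nat_lit 31) .nil)))) .nil)) 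
(.lf (nat_lit 126555) (.g (nat_lit 3170) (.e (nat_lit 7404) (nat_lit 396) (.e (nat_lit 1201) (nat_lit 88) (.e (nat_lit 65630) (nat_lit 14) (.e (nat_lit 401459) (nat_lit 13) (.e (nat_lit 483403) (nat_lit 26) .nil))))) .nil))) (.nd (nat_lit 6) 
(.lf (nat_lit 126523) (.g (nat_lit 1519) (.e (nat_lit 7936) (nat_lit 388) (.e (nat_lit 2668) (nat_lit 167) (.e (nat_lit 196666) (nat_lit 13) (.e (nat_lit 65617) (nat_lit 10) (.e (nat_lit 344133) (nat_lit 26) .nil))))) .nil)) 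
(.lf (nat_lit 126587) (.g (nat_lit 1516) (.e (nat_lit 7454) (nat_lit 396) (.e (nat_lit 1219) (nat_lit 90) (.e (nat_lit 81954) (nat_lit 23) (.e (nat_lit 98321) (nat_lit 17) (.e (nat_lit 7936) (nat_lit 216) (.e (nat_lit 688181) (nat_lit 17) (.e (nat_lit 73730) (nat_lit 0) .nil))))))) (.g (nat_lit 4) .nil .nil))))))) (.nd (nat_lit 3) (.nd (nat_lit 4) (.nd (nat_lit 5) (.nd (nat_lit 6) 
(.lf (nat_lit 126471) (.g (nat_lit 2643) (.e (nat_lit 7281) (nat_lit 386) (.e (nat_lit 163873) (nat_lit 3) (.e (nat_lit 204829) (nat_lit 18) (.e (nat_lit 57847) (nat_lit 252) (.e (nat_lit 57411) (nat_lit 12) (.e (nat_lit 336019) (nat_lit 3) (.e (nat_lit 98384) (nat_lit 32) (.e (nat_lit 475161) (nat_lit 21) .nil)))))))) (.g (nat_lit 4) .nil .nil))) 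
(.lf (nat_lit 126535) (.g (nat_lit 2918) (.e (nat_lit 7375) (nat_lit 389) (.e (nat_lit 8326) (nat_lit 69) (.e (nat_lit 557100) (nat_lit 13) (.e (nat_lit 172113) (nat_lit 10) (.e (nat_lit 434248) (nat_lit 28) .nil))))) .nil))) (.nd (nat_lit 6) 
(.lf (nat_lit 126503) (.g (nat_lit 1136) (.e (nat_lit 7291) (nat_lit 386) (.e (nat_lit 163907) (nat_lit 12) (.e (nat_lit 426438) (nat_lit 18) .nil))) .nil)) 
(.lf (nat_lit 126567) (.g (nat_lit 585) (.e (nat_lit 7450) (nat_lit 396) (.e (nat_lit 1209) (nat_lit 89) (.e (nat_lit 73782) (nat_lit 32) .nil))) .nil)))) (.nd (nat_lit 5) (.nd (nat_lit 6) 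
(.lf (nat_lit 126487) (.g (nat_lit 2739) (.e (nat_lit 7288) (nat_lit 386) (.e (nat_lit 163875) (nat_lit 3) (.e (nat_lit 204837) (nat_lit 20) (.e (nat_lit 114719) (nat_lit 23) (.e (nat_lit 98366) (nat_lit 27) .nil))))) .nil)) 
(.lf (nat_lit 126551) (.g (nat_lit 1239) (.e (nat_lit 7389) (nat_lit 393) (.e (nat_lit 180250) (nat_lit 10) (.e (nat_lit 573474) (nat_lit 12) (.e (nat_lit 57572) (nat_lit 54) .nil)))) .nil))) (.nd (nat_lit 6) 
(.lf (nat_lit 126519) (.g (nat_lit 3866) (.e (nat_lit 7366) (nat_lit 388) (.e (nat_lit 2666) (nat_lit 167) (.e (nat_lit 196666) (nat_lit 13) (.e (nat_lit 65617) (nat_lit 10) (.e (nat_lit 344127) (nat_lit 26) .nil))))) .nil)) 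
(.lf (nat_lit 126583) (.g (nat_lit 491) (.e (nat_lit 7454) (nat_lit 396) (.e (nat_lit 1209) (nat_lit 89) (.e (nat_lit 81664) (nat_lit 37) .nil))) .nil))))) (.nd (nat_lit 4) (.nd (nat_lit 5) (.nd (nat_lit 6) 
(.lf (nat_lit 126479) (.g (nat_lit 499) (.e (nat_lit 7284) (nat_lit 386) (.e (nat_lit 163843) (nat_lit 0) (.e (nat_lit 3222) (nat_lit 196) .nil))) .nil)) 
(.lf (nat_lit 126543) (.g (nat_lit 2414) (.e (nat_lit 7377) (nat_lit 390) (.e (nat_lit 24665) (nat_lit 14) (.e (nat_lit 401448) (nat_lit 10) (.e (nat_lit 434291) (nat_lit 44) (.e (nat_lit 704736) (nat_lit 11) .nil))))) .nil))) (.nd (nat_lit 6) 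
(.lf (nat_lit 126511) (.g (nat_lit 2119) (.e (nat_lit 7309) (nat_lit 388) (.e (nat_lit 351) (nat_lit 28) (.e (nat_lit 393253) (nat_lit 18) (.e (nat_lit 164331) (nat_lit 230) (.e (nat_lit 163867) (nat_lit 2) .nil))))) .nil)) 
(.lf (nat_lit 126575) (.g (nat_lit 1096) (.e (nat_lit 7454) (nat_lit 396) (.e (nat_lit 1190) (nat_lit 88) (.e (nat_lit 65619) (nat_lit 10) (.e (nat_lit 344117) (nat_lit 21) .nil)))) .nil)))) (.nd (nat_lit 5) (.nd (nat_lit 6) 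
(.lf (nat_lit 126495) (.g (nat_lit 929) (.e (nat_lit 7289) (nat_lit 386) (.e (nat_lit 163907) (nat_lit 12) (.e (nat_lit 426568) (nat_lit 34) .nil))) .nil)) 
(.lf (nat_lit 126559) (.g (nat_lit 3874) (.e (nat_lit 7423) (nat_lit 396) (.e (nat_lit 1197) (nat_lit 88) (.e (nat_lit 65630) (nat_lit 14) (.e (nat_lit 401459) (nat_lit 13) (.e (nat_lit 483403) (nat_lit 26) (.e (nat_lit 385049) (nat_lit 21) .nil)))))) (.g (nat_lit 6) .nil .nil)))) (.nd (nat_lit 6) 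
(.lf (nat_lit 126527) (.g (nat_lit 3303) (.e (nat_lit 7936) (nat_lit 388) (.e (nat_lit 2685) (nat_lit 168) (.e (nat_lit 204869) (nat_lit 29) (.e (nat_lit 360475) (nat_lit 8) (.e (nat_lit 557091) (nat_lit 12) .nil))))) .nil)) 
(.lf (nat_lit 126591) (.g (nat_lit 2393) (.e (nat_lit 7454) (nat_lit 396) (.e (nat_lit 1219) (nat_lit 90) (.e (nat_lit 81954) (nat_lit 23) (.e (nat_lit 98333) (nat_lit 18) (.e (nat_lit 164155) (nat_lit 152) .nil))))) .nil)))))))))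

noncomputable def tv1700 : DT := (.nd (nat_lit 0) (.nd (nat_lit 1) (.nd (nat_lit 2) (.nd (nat_lit 3) (.nd (nat_lit 4) (.nd (nat_lit 5) (.nd (nat_lit 6) 
(.lf (nat_lit 126592) (.g (nat_lit 978) (.e (nat_lit 7454) (nat_lit 396) (.e (nat_lit 1219) (nat_lit 90) (.e (nat_lit 81954) (nat_lit 23) (.e (nat_lit 98334) (nat_lit 18) .nil)))) .nil)) 
(.lf (nat_lit 126656) (.g (nat_lit 633) (.e (nat_lit 7454) (nat_lit 396) (.e (nat_lit 1221) (nat_lit 90) (.e (nat_lit 81954) (nat_lit 23) .nil))) .nil))) (.nd (nat_lit 6) 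
(.lf (nat_lit 126624) (.g (nat_lit 3374) (.e (nat_lit 7454) (nat_lit 396) (.e (nat_lit 1220) (nat_lit 90) (.e (nat_lit 81956) (nat_lit 23) (.e (nat_lit 98332) (nat_lit 18) .nil)))) .nil)) 
(.lf (nat_lit 126688) (.g (nat_lit 3175) (.e (nat_lit 7454) (nat_lit 396) (.e (nat_lit 1221) (nat_lit 90) (.e (nat_lit 81956) (nat_lit 23) (.e (nat_lit 98334) (nat_lit 18) (.e (nat_lit 164159) (nat_lit 152) .nil))))) .nil)))) (.nd (nat_lit 5) (.nd (nat_lit 6) 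
(.lf (nat_lit 126608) (.g (nat_lit 1769) (.e (nat_lit 7454) (nat_lit 396) (.e (nat_lit 1220) (nat_lit 90) (.e (nat_lit 81953) (nat_lit 22) (.e (nat_lit 98048) (nat_lit 2) .nil)))) .nil)) 
(.lf (nat_lit 126672) (.g (nat_lit 2932) (.e (nat_lit 7454) (nat_lit 396) (.e (nat_lit 1221) (nat_lit 90) (.e (nat_lit 81956) (nat_lit 23) (.e (nat_lit 98333) (nat_lit 18) .nil)))) .nil))) (.nd (nat_lit 6) 
(.lf (nat_lit 126640) (.g (nat_lit 4082) (.e (nat_lit 7454) (nat_lit 396) (.e (nat_lit 1220) (nat_lit 90) (.e (nat_lit 81956) (nat_lit 23) (.e (nat_lit 98333) (nat_lit 18) (.e (nat_lit 164185) (nat_lit 155) .nil))))) .nil)) 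
(.lf (nat_lit 126704) (.g (nat_lit 2065) (.e (nat_lit 7472) (nat_lit 398) (.e (nat_lit 57373) (nat_lit 2) (.e (nat_lit 90174) (nat_lit 14) (.e (nat_lit 180250) (nat_lit 10) .nil)))) .nil))))) (.nd (nat_lit 4) (.nd (nat_lit 5) (.nd (nat_lit 6) 
(.lf (nat_lit 126600) (.g (nat_lit 2045) (.e (nat_lit 7454) (nat_lit 396) (.e (nat_lit 1219) (nat_lit 90) (.e (nat_lit 81956) (nat_lit 23) (.e (nat_lit 98321) (nat_lit 17) (.e (nat_lit 7936) (nat_lit 216) .nil))))) .nil)) 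
(.lf (nat_lit 126664) (.g (nat_lit 3069) (.e (nat_lit 7454) (nat_lit 396) (.e (nat_lit 1221) (nat_lit 90) (.e (nat_lit 81956) (nat_lit 23) (.e (nat_lit 98319) (nat_lit 17) (.e (nat_lit 3455) (nat_lit 216) .nil))))) .nil))) (.nd (nat_lit 6) 
(.lf (nat_lit 126632) (.g (nat_lit 4169) (.e (nat_lit 7454) (nat_lit 396) (.e (nat_lit 1220) (nat_lit 90) (.e (nat_lit 81956) (nat_lit 23) (.e (nat_lit 98333) (nat_lit 18) (.e (nat_lit 164154) (nat_lit 152) .nil))))) .nil)) 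
(.lf (nat_lit 126696) (.g (nat_lit 501) (.e (nat_lit 7454) (nat_lit 396) (.e (nat_lit 1221) (nat_lit 90) (.e (nat_lit 81959) (nat_lit 24) .nil))) .nil)))) (.nd (nat_lit 5) (.nd (nat_lit 6) 
(.lf (nat_lit 126616) (.g (nat_lit 2982) (.e (nat_lit 7454) (nat_lit 396) (.e (nat_lit 1220) (nat_lit 90) (.e (nat_lit 81956) (nat_lit 23) (.e (nat_lit 98319) (nat_lit 17) (.e (nat_lit 3455) (nat_lit 216) .nil))))) .nil)) 
(.lf (nat_lit 126680) (.g (nat_lit 4202) (.e (nat_lit 7454) (nat_lit 396) (.e (nat_lit 1221) (nat_lit 90) (.e (nat_lit 81956) (nat_lit 23) (.e (nat_lit 98333) (nat_lit 18) (.e (nat_lit 164161) (nat_lit 152) .nil))))) .nil))) (.nd (nat_lit 6) 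
(.lf (nat_lit 126648) (.g (nat_lit 3454) (.e (nat_lit 7454) (nat_lit 396) (.e (nat_lit 1220) (nat_lit 90) (.e (nat_lit 81956) (nat_lit 23) (.e (nat_lit 98334) (nat_lit 18) (.e (nat_lit 164161) (nat_lit 152) (.e (nat_lit 1208) (nat_lit 89) (.e (nat_lit 73729) (nat_lit 0) .nil))))))) (.g (nat_lit 4) .nil .nil))) 
(.lf (nat_lit 126712) (.g (nat_lit 698) (.e (nat_lit 7474) (nat_lit 398) (.e (nat_lit 57427) (nat_lit 15) (.e (nat_lit 360474) (nat_lit 8) .nil))) .nil)))))) (.nd (nat_lit 3) (.nd (nat_lit 4) (.nd (nat_lit 5) (.nd (nat_lit 6) 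
(.lf (nat_lit 126596) (.g (nat_lit 1883) (.e (nat_lit 7454) (nat_lit 396) (.e (nat_lit 1219) (nat_lit 90) (.e (nat_lit 81954) (nat_lit 23) (.e (nat_lit 98334) (nat_lit 18) (.e (nat_lit 164161) (nat_lit 152) .nil))))) .nil)) 
(.lf (nat_lit 126660) (.g (nat_lit 2568) (.e (nat_lit 7454) (nat_lit 396) (.e (nat_lit 1221) (nat_lit 90) (.e (nat_lit 81956) (nat_lit 23) (.e (nat_lit 106240) (nat_lit 7) .nil)))) .nil))) (.nd (nat_lit 6) 
(.lf (nat_lit 126628) (.g (nat_lit 4172) (.e (nat_lit 7454) (nat_lit 396) (.e (nat_lit 1220) (nat_lit 90) (.e (nat_lit 81956) (nat_lit 23) (.e (nat_lit 98333) (nat_lit 18) (.e (nat_lit 164150) (nat_lit 152) .nil))))) .nil)) 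
(.lf (nat_lit 126692) (.g (nat_lit 3651) (.e (nat_lit 7454) (nat_lit 396) (.e (nat_lit 1221) (nat_lit 90) (.e (nat_lit 81956) (nat_lit 23) (.e (nat_lit 98334) (nat_lit 18) (.e (nat_lit 164161) (nat_lit 152) (.e (nat_lit 7936) (nat_lit 89) (.e (nat_lit 73729) (nat_lit 0) .nil))))))) (.g (nat_lit 4) .nil .nil))))) (.nd (nat_lit 5) (.nd (nat_lit 6) 
(.lf (nat_lit 126612) (.g (nat_lit 2681) (.e (nat_lit 7454) (nat_lit 396) (.e (nat_lit 1220) (nat_lit 90) (.e (nat_lit 81956) (nat_lit 23) (.e (nat_lit 98309) (nat_lit 0) .nil)))) .nil)) 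
(.lf (nat_lit 126676) (.g (nat_lit 4160) (.e (nat_lit 7454) (nat_lit 396) (.e (nat_lit 1221) (nat_lit 90) (.e (nat_lit 81956) (nat_lit 23) (.e (nat_lit 98333) (nat_lit 18) (.e (nat_lit 164153) (nat_lit 152) .nil))))) .nil))) (.nd (nat_lit 6) 
(.lf (nat_lit 126644) (.g (nat_lit 3089) (.e (nat_lit 7454) (nat_lit 396) (.e (nat_lit 1220) (nat_lit 90) (.e (nat_lit 81956) (nat_lit 23) (.e (nat_lit 98334) (nat_lit 18) (.e (nat_lit 164159) (nat_lit 152) .nil))))) .nil)) 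
(.lf (nat_lit 126708) (.g (nat_lit 685) (.e (nat_lit 7472) (nat_lit 398) (.e (nat_lit 57375) (nat_lit 2) (.e (nat_lit 90174) (nat_lit 14) .nil))) .nil))))) (.nd (nat_lit 4) (.nd (nat_lit 5) (.nd (nat_lit 6) 
(.lf (nat_lit 126604) (.g (nat_lit 3345) (.e (nat_lit 7454) (nat_lit 396) (.e (nat_lit 1219) (nat_lit 90) (.e (nat_lit 81956) (nat_lit 23) (.e (nat_lit 98333) (nat_lit 18) (.e (nat_lit 164183) (nat_lit 154) .nil))))) .nil)) 
(.lf (nat_lit 126668) (.g (nat_lit 2747) (.e (nat_lit 7454) (nat_lit 396) (.e (nat_lit 1221) (nat_lit 90) (.e (nat_lit 81956) (nat_lit 23) (.e (nat_lit 98321) (nat_lit 17) (.e (nat_lit 7936) (nat_lit 216) .nil))))) .nil))) (.nd (nat_lit 6) 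
(.lf (nat_lit 126636) (.g (nat_lit 4169) (.e (nat_lit 7454) (nat_lit 396) (.e (nat_lit 1220) (nat_lit 90) (.e (nat_lit 81956) (nat_lit 23) (.e (nat_lit 98333) (nat_lit 18) (.e (nat_lit 164162) (nat_lit 152) .nil))))) .nil)) 
(.lf (nat_lit 126700) (.g (nat_lit 2049) (.e (nat_lit 7462) (nat_lit 396) (.e (nat_lit 1197) (nat_lit 88) (.e (nat_lit 65629) (nat_lit 14) (.e (nat_lit 401459) (nat_lit 13) (.e (nat_lit 483403) (nat_lit 26) .nil))))) .nil)))) (.nd (nat_lit 5) (.nd (nat_lit 6) 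
(.lf (nat_lit 126620) (.g (nat_lit 2802) (.e (nat_lit 7454) (nat_lit 396) (.e (nat_lit 1220) (nat_lit 90) (.e (nat_lit 81956) (nat_lit 23) (.e (nat_lit 98321) (nat_lit 17) (.e (nat_lit 7936) (nat_lit 216) (.e (nat_lit 688181) (nat_lit 17) (.e (nat_lit 73730) (nat_lit 0) .nil))))))) (.g (nat_lit 4) .nil .nil))) 
(.lf (nat_lit 126684) (.g (nat_lit 4206) (.e (nat_lit 7454) (nat_lit 396) (.e (nat_lit 1221) (nat_lit 90) (.e (nat_lit 81956) (nat_lit 23) (.e (nat_lit 98333) (nat_lit 18) (.e (nat_lit 164182) (nat_lit 154) .nil))))) .nil))) (.nd (nat_lit 6) 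
(.lf (nat_lit 126652) (.g (nat_lit 3325) (.e (nat_lit 7454) (nat_lit 396) (.e (nat_lit 1220) (nat_lit 90) (.e (nat_lit 81956) (nat_lit 23) (.e (nat_lit 98335) (nat_lit 18) .nil)))) .nil)) 
(.lf (nat_lit 126716) (.g (nat_lit 3472) (.e (nat_lit 7481) (nat_lit 400) (.e (nat_lit 164084) (nat_lit 73) (.e (nat_lit 336223) (nat_lit 13) (.e (nat_lit 393301) (nat_lit 27) (.e (nat_lit 491560) (nat_lit 10) (.e (nat_lit 344087) (nat_lit 18) .nil)))))) (.g (nat_lit 5) .nil .nil)))))))) (.nd (nat_lit 2) (.nd (nat_lit 3) (.nd (nat_lit 4) (.nd (nat_lit 5) (.nd (nat_lit 6) 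
(.lf (nat_lit 126594) (.g (nat_lit 1637) (.e (nat_lit 7454) (nat_lit 396) (.e (nat_lit 1219) (nat_lit 90) (.e (nat_lit 81954) (nat_lit 23) (.e (nat_lit 98334) (nat_lit 18) (.e (nat_lit 164147) (nat_lit 152) (.e (nat_lit 1211) (nat_lit 89) (.e (nat_lit 73731) (nat_lit 0) .nil))))))) (.g (nat_lit 4) .nil .nil))) 
(.lf (nat_lit 126658) (.g (nat_lit 564) (.e (nat_lit 7454) (nat_lit 396) (.e (nat_lit 1221) (nat_lit 90) (.e (nat_lit 81956) (nat_lit 23) .nil))) .nil))) (.nd (nat_lit 6) 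
(.lf (nat_lit 126626) (.g (nat_lit 4175) (.e (nat_lit 7454) (nat_lit 396) (.e (nat_lit 1220) (nat_lit 90) (.e (nat_lit 81956) (nat_lit 23) (.e (nat_lit 98333) (nat_lit 18) (.e (nat_lit 164148) (nat_lit 152) .nil))))) .nil)) 
(.lf (nat_lit 126690) (.g (nat_lit 3396) (.e (nat_lit 7454) (nat_lit 396) (.e (nat_lit 1221) (nat_lit 90) (.e (nat_lit 81956) (nat_lit 23) (.e (nat_lit 98334) (nat_lit 18) (.e (nat_lit 164161) (nat_lit 152) .nil))))) .nil)))) (.nd (nat_lit 5) (.nd (nat_lit 6) 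
(.lf (nat_lit 126610) (.g (nat_lit 1659) (.e (nat_lit 7454) (nat_lit 396) (.e (nat_lit 1220) (nat_lit 90) (.e (nat_lit 81954) (nat_lit 23) (.e (nat_lit 98321) (nat_lit 17) .nil)))) .nil)) 
(.lf (nat_lit 126674) (.g (nat_lit 4233) (.e (nat_lit 7454) (nat_lit 396) (.e (nat_lit 1221) (nat_lit 90) (.e (nat_lit 81956) (nat_lit 23) (.e (nat_lit 98333) (nat_lit 18) (.e (nat_lit 164150) (nat_lit 152) .nil))))) .nil))) (.nd (nat_lit 6) 
(.lf (nat_lit 126642) (.g (nat_lit 2891) (.e (nat_lit 7454) (nat_lit 396) (.e (nat_lit 1220) (nat_lit 90) (.e (nat_lit 81956) (nat_lit 23) (.e (nat_lit 98334) (nat_lit 18) (.e (nat_lit 164147) (nat_lit 152) .nil))))) .nil)) 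
(.lf (nat_lit 126706) (.g (nat_lit 1698) (.e (nat_lit 7472) (nat_lit 398) (.e (nat_lit 57375) (nat_lit 2) (.e (nat_lit 90172) (nat_lit 14) (.e (nat_lit 180244) (nat_lit 5) .nil)))) .nil))))) (.nd (nat_lit 4) (.nd (nat_lit 5) (.nd (nat_lit 6) 
(.lf (nat_lit 126602) (.g (nat_lit 3399) (.e (nat_lit 7454) (nat_lit 396) (.e (nat_lit 1219) (nat_lit 90) (.e (nat_lit 81956) (nat_lit 23) (.e (nat_lit 98333) (nat_lit 18) (.e (nat_lit 164151) (nat_lit 152) (.e (nat_lit 1207) (nat_lit 89) (.e (nat_lit 73729) (nat_lit 0) .nil))))))) (.g (nat_lit 4) .nil .nil))) 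
(.lf (nat_lit 126666) (.g (nat_lit 3335) (.e (nat_lit 7454) (nat_lit 396) (.e (nat_lit 1221) (nat_lit 90) (.e (nat_lit 81956) (nat_lit 23) (.e (nat_lit 98320) (nat_lit 17) .nil)))) .nil))) (.nd (nat_lit 6) 
(.lf (nat_lit 126634) (.g (nat_lit 4165) (.e (nat_lit 7454) (nat_lit 396) (.e (nat_lit 1220) (nat_lit 90) (.e (nat_lit 81956) (nat_lit 23) (.e (nat_lit 98333) (nat_lit 18) (.e (nat_lit 164156) (nat_lit 152) .nil))))) .nil)) 
(.lf (nat_lit 126698) (.g (nat_lit 3058) (.e (nat_lit 7460) (nat_lit 396) (.e (nat_lit 2601) (nat_lit 163) (.e (nat_lit 164034) (nat_lit 54) (.e (nat_lit 770071) (nat_lit 8) (.e (nat_lit 65586) (nat_lit 7) (.e (nat_lit 319531) (nat_lit 16) (.e (nat_lit 286748) (nat_lit 9) (.e (nat_lit 336295) (nat_lit 15) (.e (nat_lit 2443) (nat_lit 157) .nil))))))))) (.g (nat_lit 9) .nil .nil))))) 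
(.nd (nat_lit 5) (.nd (nat_lit 6) 
(.lf (nat_lit 126618) (.g (nat_lit 2114) (.e (nat_lit 7454) (nat_lit 396) (.e (nat_lit 1220) (nat_lit 90) (.e (nat_lit 81956) (nat_lit 23) (.e (nat_lit 98321) (nat_lit 17) .nil)))) .nil)) 
(.lf (nat_lit 126682) (.g (nat_lit 4236) (.e (nat_lit 7454) (nat_lit 396) (.e (nat_lit 1221) (nat_lit 90) (.e (nat_lit 81956) (nat_lit 23) (.e (nat_lit 98333) (nat_lit 18) (.e (nat_lit 164163) (nat_lit 152) .nil))))) .nil))) (.nd (nat_lit 6) 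
(.lf (nat_lit 126650) (.g (nat_lit 3326) (.e (nat_lit 7454) (nat_lit 396) (.e (nat_lit 1220) (nat_lit 90) (.e (nat_lit 81956) (nat_lit 23) (.e (nat_lit 98334) (nat_lit 18) (.e (nat_lit 164183) (nat_lit 154) (.e (nat_lit 57411) (nat_lit 12) (.e (nat_lit 335878) (nat_lit 0) (.e (nat_lit 1016) (nat_lit 81) .nil)))))))) (.g (nat_lit 4) .nil .nil))) 
(.lf (nat_lit 126714) (.g (nat_lit 3999) (.e (nat_lit 7478) (nat_lit 400) (.e (nat_lit 164084) (nat_lit 73) (.e (nat_lit 336223) (nat_lit 13) (.e (nat_lit 393301) (nat_lit 27) (.e (nat_lit 491560) (nat_lit 10) (.e (nat_lit 344089) (nat_lit 18) .nil)))))) (.g (nat_lit 0) .nil .nil))))))) (.nd (nat_lit 3) (.nd (nat_lit 4) (.nd (nat_lit 5) (.nd (nat_lit 6) 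
(.lf (nat_lit 126598) (.g (nat_lit 1495) (.e (nat_lit 7454) (nat_lit 396) (.e (nat_lit 1219) (nat_lit 90) (.e (nat_lit 81956) (nat_lit 23) (.e (nat_lit 98319) (nat_lit 17) .nil)))) .nil)) 
(.lf (nat_lit 126662) (.g (nat_lit 3069) (.e (nat_lit 7454) (nat_lit 396) (.e (nat_lit 1221) (nat_lit 90) (.e (nat_lit 81956) (nat_lit 23) (.e (nat_lit 98319) (nat_lit 17) (.e (nat_lit 3453) (nat_lit 216) .nil))))) .nil))) (.nd (nat_lit 6) 
(.lf (nat_lit 126630) (.g (nat_lit 4099) (.e (nat_lit 7454) (nat_lit 396) (.e (nat_lit 1220) (nat_lit 90) (.e (nat_lit 81956) (nat_lit 23) (.e (nat_lit 98333) (nat_lit 18) (.e (nat_lit 164153) (nat_lit 152) .nil))))) .nil)) 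
(.lf (nat_lit 126694) (.g (nat_lit 3157) (.e (nat_lit 7454) (nat_lit 396) (.e (nat_lit 1221) (nat_lit 90) (.e (nat_lit 81956) (nat_lit 23) (.e (nat_lit 98334) (nat_lit 18) (.e (nat_lit 164184) (nat_lit 155) .nil))))) .nil)))) (.nd (nat_lit 5) (.nd (nat_lit 6) 
(.lf (nat_lit 126614) (.g (nat_lit 2339) (.e (nat_lit 7454) (nat_lit 396) (.e (nat_lit 1220) (nat_lit 90) (.e (nat_lit 81956) (nat_lit 23) (.e (nat_lit 98319) (nat_lit 17) .nil)))) .nil)) 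
(.lf (nat_lit 126678) (.g (nat_lit 4333) (.e (nat_lit 7454) (nat_lit 396) (.e (nat_lit 1221) (nat_lit 90) (.e (nat_lit 81956) (nat_lit 23) (.e (nat_lit 98333) (nat_lit 18) (.e (nat_lit 164155) (nat_lit 152) (.e (nat_lit 1212) (nat_lit 89) (.e (nat_lit 73729) (nat_lit 0) .nil))))))) (.g (nat_lit 4) .nil .nil)))) (.nd (nat_lit 6) 
(.lf (nat_lit 126646) (.g (nat_lit 3139) (.e (nat_lit 7454) (nat_lit 396) (.e (nat_lit 1220) (nat_lit 90) (.e (nat_lit 81956) (nat_lit 23) (.e (nat_lit 98334) (nat_lit 18) (.e (nat_lit 164159) (nat_lit 152) (.e (nat_lit 1296) (nat_lit 96) (.e (nat_lit 131073) (nat_lit 0) (.e (nat_lit 1016) (nat_lit 81) .nil)))))))) (.g (nat_lit 4) .nil .nil))) 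
(.lf (nat_lit 126710) (.g (nat_lit 1551) (.e (nat_lit 7472) (nat_lit 398) (.e (nat_lit 57375) (nat_lit 2) (.e (nat_lit 90176) (nat_lit 15) (.e (nat_lit 188423) (nat_lit 11) .nil)))) .nil))))) (.nd (nat_lit 4) (.nd (nat_lit 5) (.nd (nat_lit 6) 
(.lf (nat_lit 126606) (.g (nat_lit 2272) (.e (nat_lit 7454) (nat_lit 396) (.e (nat_lit 1219) (nat_lit 90) (.e (nat_lit 81956) (nat_lit 23) (.e (nat_lit 98334) (nat_lit 18) (.e (nat_lit 164147) (nat_lit 152) .nil))))) .nil)) 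
(.lf (nat_lit 126670) (.g (nat_lit 2112) (.e (nat_lit 7454) (nat_lit 396) (.e (nat_lit 1221) (nat_lit 90) (.e (nat_lit 81956) (nat_lit 23) (.e (nat_lit 98325) (nat_lit 17) .nil)))) .nil))) (.nd (nat_lit 6) 
(.lf (nat_lit 126638) (.g (nat_lit 3791) (.e (nat_lit 7454) (nat_lit 396) (.e (nat_lit 1220) (nat_lit 90) (.e (nat_lit 81956) (nat_lit 23) (.e (nat_lit 98333) (nat_lit 18) (.e (nat_lit 164179) (nat_lit 154) .nil))))) .nil)) 
(.lf (nat_lit 126702) (.g (nat_lit 2707) (.e (nat_lit 7464) (nat_lit 396) (.e (nat_lit 2555) (nat_lit 159) (.e (nat_lit 24658) (nat_lit 13) (.e (nat_lit 393301) (nat_lit 27) (.e (nat_lit 491559) (nat_lit 10) .nil))))) .nil)))) (.nd (nat_lit 5) (.nd (nat_lit 6) 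
(.lf (nat_lit 126622) (.g (nat_lit 3454) (.e (nat_lit 7454) (nat_lit 396) (.e (nat_lit 1220) (nat_lit 90) (.e (nat_lit 81956) (nat_lit 23) (.e (nat_lit 98322) (nat_lit 17) .nil)))) .nil)) 
(.lf (nat_lit 126686) (.g (nat_lit 3014) (.e (nat_lit 7454) (nat_lit 396) (.e (nat_lit 1221) (nat_lit 90) (.e (nat_lit 81956) (nat_lit 23) (.e (nat_lit 98334) (nat_lit 18) (.e (nat_lit 164147) (nat_lit 152) .nil))))) .nil))) (.nd (nat_lit 6) 
(.lf (nat_lit 126654) (.g (nat_lit 624) (.e (nat_lit 7454) (nat_lit 396) (.e (nat_lit 1221) (nat_lit 90) (.e (nat_lit 81953) (nat_lit 22) .nil))) .nil)) 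
(.lf (nat_lit 126718) (.g (nat_lit 2017) (.e (nat_lit 7485) (nat_lit 402) (.e (nat_lit 1256) (nat_lit 92) (.e (nat_lit 98359) (nat_lit 26) (.e (nat_lit 426286) (nat_lit 10) (.e (nat_lit 434247) (nat_lit 28) (.e (nat_lit 573457) (nat_lit 9) (.e (nat_lit 428) (nat_lit 32) (.e (nat_lit 425989) (nat_lit 0) .nil)))))))) (.g (nat_lit 5) .nil .nil))))))))) 
(.nd (nat_lit 1) (.nd (nat_lit 2) (.nd (nat_lit 3) (.nd (nat_lit 4) (.nd (nat_lit 5) 
(.nd (nat_lit 6) 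
(.lf (nat_lit 126593) (.g (nat_lit 1570) (.e (nat_lit 7454) (nat_lit 396) (.e (nat_lit 1219) (nat_lit 90) (.e (nat_lit 81954) (nat_lit 23) (.e (nat_lit 98334) (nat_lit 18) (.e (nat_lit 164147) (nat_lit 152) .nil))))) .nil)) 
(.lf (nat_lit 126657) (.g (nat_lit 1217) (.e (nat_lit 7454) (nat_lit 396) (.e (nat_lit 1221) (nat_lit 90) (.e (nat_lit 81954) (nat_lit 23) (.e (nat_lit 98321) (nat_lit 17) .nil)))) .nil))) (.nd (nat_lit 6) 
(.lf (nat_lit 126625) (.g (nat_lit 2877) (.e (nat_lit 7454) (nat_lit 396) (.e (nat_lit 1220) (nat_lit 90) (.e (nat_lit 81956) (nat_lit 23) (.e (nat_lit 98333) (nat_lit 18) .nil)))) .nil)) 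
(.lf (nat_lit 126689) (.g (nat_lit 3633) (.e (nat_lit 7454) (nat_lit 396) (.e (nat_lit 1221) (nat_lit 90) (.e (nat_lit 81956) (nat_lit 23) (.e (nat_lit 98334) (nat_lit 18) (.e (nat_lit 164159) (nat_lit 152) (.e (nat_lit 1208) (nat_lit 89) (.e (nat_lit 73730) (nat_lit 0) .nil))))))) (.g (nat_lit 5) .nil .nil))))) (.nd (nat_lit 5) (.nd (nat_lit 6) 
(.lf (nat_lit 126609) (.g (nat_lit 525) (.e (nat_lit 7454) (nat_lit 396) (.e (nat_lit 1220) (nat_lit 90) (.e (nat_lit 81954) (nat_lit 23) .nil))) .nil)) 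
(.lf (nat_lit 126673) (.g (nat_lit 4236) (.e (nat_lit 7454) (nat_lit 396) (.e (nat_lit 1221) (nat_lit 90) (.e (nat_lit 81956) (nat_lit 23) (.e (nat_lit 98333) (nat_lit 18) (.e (nat_lit 164148) (nat_lit 152) .nil))))) .nil))) (.nd (nat_lit 6) 
(.lf (nat_lit 126641) (.g (nat_lit 2147) (.e (nat_lit 7454) (nat_lit 396) (.e (nat_lit 1220) (nat_lit 90) (.e (nat_lit 81956) (nat_lit 23) (.e (nat_lit 98334) (nat_lit 18) .nil)))) .nil)) 
(.lf (nat_lit 126705) (.g (nat_lit 772) (.e (nat_lit 7472) (nat_lit 398) (.e (nat_lit 57375) (nat_lit 2) (.e (nat_lit 90172) (nat_lit 14) .nil))) .nil))))) (.nd (nat_lit 4) (.nd (nat_lit 5) (.nd (nat_lit 6) 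
(.lf (nat_lit 126601) (.g (nat_lit 2176) (.e (nat_lit 7454) (nat_lit 396) (.e (nat_lit 1219) (nat_lit 90) (.e (nat_lit 81956) (nat_lit 23) (.e (nat_lit 98333) (nat_lit 18) .nil)))) .nil)) 
(.lf (nat_lit 126665) (.g (nat_lit 3185) (.e (nat_lit 7454) (nat_lit 396) (.e (nat_lit 1221) (nat_lit 90) (.e (nat_lit 81956) (nat_lit 23) (.e (nat_lit 98319) (nat_lit 17) (.e (nat_lit 3455) (nat_lit 216) (.e (nat_lit 688181) (nat_lit 17) (.e (nat_lit 73731) (nat_lit 0) .nil))))))) (.g (nat_lit 4) .nil .nil)))) (.nd (nat_lit 6) 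
(.lf (nat_lit 126633) (.g (nat_lit 4165) (.e (nat_lit 7454) (nat_lit 396) (.e (nat_lit 1220) (nat_lit 90) (.e (nat_lit 81956) (nat_lit 23) (.e (nat_lit 98333) (nat_lit 18) (.e (nat_lit 164155) (nat_lit 152) .nil))))) .nil)) 
(.lf (nat_lit 126697) (.g (nat_lit 1638) (.e (nat_lit 7454) (nat_lit 396) (.e (nat_lit 1221) (nat_lit 90) (.e (nat_lit 81959) (nat_lit 24) (.e (nat_lit 123182) (nat_lit 264) .nil)))) .nil)))) (.nd (nat_lit 5) (.nd (nat_lit 6) 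
(.lf (nat_lit 126617) (.g (nat_lit 3496) (.e (nat_lit 7454) (nat_lit 396) (.e (nat_lit 1220) (nat_lit 90) (.e (nat_lit 81956) (nat_lit 23) (.e (nat_lit 98320) (nat_lit 17) .nil)))) .nil)) 
(.lf (nat_lit 126681) (.g (nat_lit 4229) (.e (nat_lit 7454) (nat_lit 396) (.e (nat_lit 1221) (nat_lit 90) (.e (nat_lit 81956) (nat_lit 23) (.e (nat_lit 98333) (nat_lit 18) (.e (nat_lit 164162) (nat_lit 152) .nil))))) .nil))) (.nd (nat_lit 6) 
(.lf (nat_lit 126649) (.g (nat_lit 3054) (.e (nat_lit 7454) (nat_lit 396) (.e (nat_lit 1220) (nat_lit 90) (.e (nat_lit 81956) (nat_lit 23) (.e (nat_lit 98334) (nat_lit 18) (.e (nat_lit 171776) (nat_lit 152) .nil))))) .nil)) 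
(.lf (nat_lit 126713) (.g (nat_lit 4162) (.e (nat_lit 7478) (nat_lit 400) (.e (nat_lit 164084) (nat_lit 73) (.e (nat_lit 336027) (nat_lit 3) (.e (nat_lit 98373) (nat_lit 29) (.e (nat_lit 450587) (nat_lit 10) (.e (nat_lit 573475) (nat_lit 12) (.e (nat_lit 57346) (nat_lit 0) .nil))))))) (.g (nat_lit 7) .nil .nil))))))) (.nd (nat_lit 3) (.nd (nat_lit 4) (.nd (nat_lit 5) (.nd (nat_lit 6) 
(.lf (nat_lit 126597) (.g (nat_lit 1287) (.e (nat_lit 7454) (nat_lit 396) (.e (nat_lit 1219) (nat_lit 90) (.e (nat_lit 81954) (nat_lit 23) (.e (nat_lit 98335) (nat_lit 18) .nil)))) .nil)) 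
(.lf (nat_lit 126661) (.g (nat_lit 2420) (.e (nat_lit 7454) (nat_lit 396) (.e (nat_lit 1221) (nat_lit 90) (.e (nat_lit 81956) (nat_lit 23) (.e (nat_lit 98319) (nat_lit 17) .nil)))) .nil))) (.nd (nat_lit 6) 
(.lf (nat_lit 126629) (.g (nat_lit 3893) (.e (nat_lit 7454) (nat_lit 396) (.e (nat_lit 1220) (nat_lit 90) (.e (nat_lit 81956) (nat_lit 23) (.e (nat_lit 98333) (nat_lit 18) (.e (nat_lit 164151) (nat_lit 152) .nil))))) .nil)) 
(.lf (nat_lit 126693) (.g (nat_lit 3403) (.e (nat_lit 7454) (nat_lit 396) (.e (nat_lit 1221) (nat_lit 90) (.e (nat_lit 81956) (nat_lit 23) (.e (nat_lit 98334) (nat_lit 18) (.e (nat_lit 164183) (nat_lit 154) .nil))))) .nil)))) (.nd (nat_lit 5) (.nd (nat_lit 6) 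
(.lf (nat_lit 126613) (.g (nat_lit 2673) (.e (nat_lit 7454) (nat_lit 396) (.e (nat_lit 1220) (nat_lit 90) (.e (nat_lit 81956) (nat_lit 23) (.e (nat_lit 106240) (nat_lit 7) .nil)))) .nil)) 
(.lf (nat_lit 126677) (.g (nat_lit 4229) (.e (nat_lit 7454) (nat_lit 396) (.e (nat_lit 1221) (nat_lit 90) (.e (nat_lit 81956) (nat_lit 23) (.e (nat_lit 98333) (nat_lit 18) (.e (nat_lit 164154) (nat_lit 152) .nil))))) .nil))) (.nd (nat_lit 6) 
(.lf (nat_lit 126645) (.g (nat_lit 3608) (.e (nat_lit 7454) (nat_lit 396) (.e (nat_lit 1220) (nat_lit 90) (.e (nat_lit 81956) (nat_lit 23) (.e (nat_lit 98334) (nat_lit 18) (.e (nat_lit 164159) (nat_lit 152) (.e (nat_lit 1208) (nat_lit 89) (.e (nat_lit 73730) (nat_lit 0) .nil))))))) (.g (nat_lit 5) .nil .nil))) 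
(.lf (nat_lit 126709) (.g (nat_lit 1741) (.e (nat_lit 7472) (nat_lit 398) (.e (nat_lit 57375) (nat_lit 2) (.e (nat_lit 90176) (nat_lit 15) (.e (nat_lit 188421) (nat_lit 11) .nil)))) .nil))))) (.nd (nat_lit 4) (.nd (nat_lit 5) (.nd (nat_lit 6) 
(.lf (nat_lit 126605) (.g (nat_lit 1436) (.e (nat_lit 7454) (nat_lit 396) (.e (nat_lit 1219) (nat_lit 90) (.e (nat_lit 81956) (nat_lit 23) (.e (nat_lit 98334) (nat_lit 18) .nil)))) .nil)) 
(.lf (nat_lit 126669) (.g (nat_lit 3466) (.e (nat_lit 7454) (nat_lit 396) (.e (nat_lit 1221) (nat_lit 90) (.e (nat_lit 81956) (nat_lit 23) (.e (nat_lit 98322) (nat_lit 17) .nil)))) .nil))) (.nd (nat_lit 6) 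
(.lf (nat_lit 126637) (.g (nat_lit 4175) (.e (nat_lit 7454) (nat_lit 396) (.e (nat_lit 1220) (nat_lit 90) (.e (nat_lit 81956) (nat_lit 23) (.e (nat_lit 98333) (nat_lit 18) (.e (nat_lit 164163) (nat_lit 152) .nil))))) .nil)) 
(.lf (nat_lit 126701) (.g (nat_lit 2131) (.e (nat_lit 7464) (nat_lit 396) (.e (nat_lit 2555) (nat_lit 159) (.e (nat_lit 24617) (nat_lit 7) (.e (nat_lit 319533) (nat_lit 16) (.e (nat_lit 286753) (nat_lit 10) .nil))))) .nil)))) (.nd (nat_lit 5) (.nd (nat_lit 6) 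
(.lf (nat_lit 126621) (.g (nat_lit 2758) (.e (nat_lit 7454) (nat_lit 396) (.e (nat_lit 1220) (nat_lit 90) (.e (nat_lit 81956) (nat_lit 23) (.e (nat_lit 98321) (nat_lit 17) (.e (nat_lit 7936) (nat_lit 216) (.e (nat_lit 688182) (nat_lit 17) (.e (nat_lit 73730) (nat_lit 0) .nil))))))) (.g (nat_lit 4) .nil .nil))) 
(.lf (nat_lit 126685) (.g (nat_lit 2222) (.e (nat_lit 7454) (nat_lit 396) (.e (nat_lit 1221) (nat_lit 90) (.e (nat_lit 81956) (nat_lit 23) (.e (nat_lit 98334) (nat_lit 18) .nil)))) .nil))) (.nd (nat_lit 6) 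
(.lf (nat_lit 126653) (.g (nat_lit 1449) (.e (nat_lit 7454) (nat_lit 396) (.e (nat_lit 1220) (nat_lit 90) (.e (nat_lit 81959) (nat_lit 24) (.e (nat_lit 123195) (nat_lit 266) .nil)))) .nil)) 
(.lf (nat_lit 126717) (.g (nat_lit 4048) (.e (nat_lit 7481) (nat_lit 400) (.e (nat_lit 164084) (nat_lit 73) (.e (nat_lit 336223) (nat_lit 13) (.e (nat_lit 393301) (nat_lit 27) (.e (nat_lit 491560) (nat_lit 10) (.e (nat_lit 344088) (nat_lit 18) .nil)))))) (.g (nat_lit 6) .nil .nil)))))))) (.nd (nat_lit 2) (.nd (nat_lit 3) (.nd (nat_lit 4) (.nd (nat_lit 5) (.nd (nat_lit 6) 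
(.lf (nat_lit 126595) (.g (nat_lit 1703) (.e (nat_lit 7454) (nat_lit 396) (.e (nat_lit 1219) (nat_lit 90) (.e (nat_lit 81954) (nat_lit 23) (.e (nat_lit 98334) (nat_lit 18) (.e (nat_lit 164159) (nat_lit 152) (.e (nat_lit 1208) (nat_lit 89) (.e (nat_lit 73730) (nat_lit 0) .nil))))))) (.g (nat_lit 4) .nil .nil))) 
(.lf (nat_lit 126659) (.g (nat_lit 2334) (.e (nat_lit 7454) (nat_lit 396) (.e (nat_lit 1221) (nat_lit 90) (.e (nat_lit 81956) (nat_lit 23) (.e (nat_lit 98309) (nat_lit 0) .nil)))) .nil))) (.nd (nat_lit 6) 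
(.lf (nat_lit 126627) (.g (nat_lit 4306) (.e (nat_lit 7454) (nat_lit 396) (.e (nat_lit 1220) (nat_lit 90) (.e (nat_lit 81956) (nat_lit 23) (.e (nat_lit 98333) (nat_lit 18) (.e (nat_lit 164148) (nat_lit 152) (.e (nat_lit 1214) (nat_lit 89) (.e (nat_lit 73729) (nat_lit 0) .nil))))))) (.g (nat_lit 4) .nil .nil))) 
(.lf (nat_lit 126691) (.g (nat_lit 3514) (.e (nat_lit 7454) (nat_lit 396) (.e (nat_lit 1221) (nat_lit 90) (.e (nat_lit 81956) (nat_lit 23) (.e (nat_lit 98334) (nat_lit 18) (.e (nat_lit 164161) (nat_lit 152) (.e (nat_lit 1208) (nat_lit 89) (.e (nat_lit 73729) (nat_lit 0) .nil))))))) (.g (nat_lit 4) .nil .nil))))) (.nd (nat_lit 5) (.nd (nat_lit 6) 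
(.lf (nat_lit 126611) (.g (nat_lit 422) (.e (nat_lit 7454) (nat_lit 396) (.e (nat_lit 1220) (nat_lit 90) (.e (nat_lit 81956) (nat_lit 23) .nil))) .nil)) 
(.lf (nat_lit 126675) (.g (nat_lit 3954) (.e (nat_lit 7454) (nat_lit 396) (.e (nat_lit 1221) (nat_lit 90) (.e (nat_lit 81956) (nat_lit 23) (.e (nat_lit 98333) (nat_lit 18) (.e (nat_lit 164151) (nat_lit 152) .nil))))) .nil))) (.nd (nat_lit 6) 
(.lf (nat_lit 126643) (.g (nat_lit 2927) (.e (nat_lit 7454) (nat_lit 396) (.e (nat_lit 1220) (nat_lit 90) (.e (nat_lit 81956) (nat_lit 23) (.e (nat_lit 98334) (nat_lit 18) (.e (nat_lit 164147) (nat_lit 152) (.e (nat_lit 1211) (nat_lit 89) (.e (nat_lit 73730) (nat_lit 0) .nil))))))) (.g (nat_lit 4) .nil .nil))) 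
(.lf (nat_lit 126707) (.g (nat_lit 1478) (.e (nat_lit 7472) (nat_lit 398) (.e (nat_lit 57375) (nat_lit 2) (.e (nat_lit 90172) (nat_lit 14) (.e (nat_lit 188160) (nat_lit 34) .nil)))) .nil))))) (.nd (nat_lit 4) (.nd (nat_lit 5) (.nd (nat_lit 6) 
(.lf (nat_lit 126603) (.g (nat_lit 3555) (.e (nat_lit 7454) (nat_lit 396) (.e (nat_lit 1219) (nat_lit 90) (.e (nat_lit 81956) (nat_lit 23) (.e (nat_lit 98333) (nat_lit 18) (.e (nat_lit 164155) (nat_lit 152) .nil))))) .nil)) 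
(.lf (nat_lit 126667) (.g (nat_lit 2176) (.e (nat_lit 7454) (nat_lit 396) (.e (nat_lit 1221) (nat_lit 90) (.e (nat_lit 81956) (nat_lit 23) (.e (nat_lit 98321) (nat_lit 17) .nil)))) .nil))) (.nd (nat_lit 6) 
(.lf (nat_lit 126635) (.g (nat_lit 4141) (.e (nat_lit 7454) (nat_lit 396) (.e (nat_lit 1220) (nat_lit 90) (.e (nat_lit 81956) (nat_lit 23) (.e (nat_lit 98333) (nat_lit 18) (.e (nat_lit 164161) (nat_lit 152) .nil))))) .nil)) 
(.lf (nat_lit 126699) (.g (nat_lit 2767) (.e (nat_lit 7462) (nat_lit 396) (.e (nat_lit 1196) (nat_lit 88) (.e (nat_lit 65630) (nat_lit 14) (.e (nat_lit 401459) (nat_lit 13) (.e (nat_lit 483403) (nat_lit 26) .nil))))) .nil)))) (.nd (nat_lit 5) (.nd (nat_lit 6) 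
(.lf (nat_lit 126619) (.g (nat_lit 2719) (.e (nat_lit 7454) (nat_lit 396) (.e (nat_lit 1220) (nat_lit 90) (.e (nat_lit 81956) (nat_lit 23) (.e (nat_lit 98321) (nat_lit 17) (.e (nat_lit 7936) (nat_lit 216) .nil))))) .nil)) 
(.lf (nat_lit 126683) (.g (nat_lit 3878) (.e (nat_lit 7454) (nat_lit 396) (.e (nat_lit 1221) (nat_lit 90) (.e (nat_lit 81956) (nat_lit 23) (.e (nat_lit 98333) (nat_lit 18) (.e (nat_lit 164179) (nat_lit 154) .nil))))) .nil))) (.nd (nat_lit 6) 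
(.lf (nat_lit 126651) (.g (nat_lit 3076) (.e (nat_lit 7454) (nat_lit 396) (.e (nat_lit 1220) (nat_lit 90) (.e (nat_lit 81956) (nat_lit 23) (.e (nat_lit 98334) (nat_lit 18) (.e (nat_lit 164184) (nat_lit 155) .nil))))) .nil)) 
(.lf (nat_lit 126715) (.g (nat_lit 3578) (.e (nat_lit 7481) (nat_lit 400) (.e (nat_lit 164084) (nat_lit 73) (.e (nat_lit 336223) (nat_lit 13) (.e (nat_lit 393301) (nat_lit 27) (.e (nat_lit 491558) (nat_lit 10) (.e (nat_lit 344088) (nat_lit 18) .nil)))))) (.g (nat_lit 5) .nil .nil))))))) (.nd (nat_lit 3) (.nd (nat_lit 4) (.nd (nat_lit 5) (.nd (nat_lit 6) 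
(.lf (nat_lit 126599) (.g (nat_lit 2722) (.e (nat_lit 7454) (nat_lit 396) (.e (nat_lit 1219) (nat_lit 90) (.e (nat_lit 81956) (nat_lit 23) (.e (nat_lit 98320) (nat_lit 17) .nil)))) .nil)) 
(.lf (nat_lit 126663) (.g (nat_lit 3069) (.e (nat_lit 7454) (nat_lit 396) (.e (nat_lit 1221) (nat_lit 90) (.e (nat_lit 81956) (nat_lit 23) (.e (nat_lit 98319) (nat_lit 17) (.e (nat_lit 3454) (nat_lit 216) .nil))))) .nil))) (.nd (nat_lit 6) 
(.lf (nat_lit 126631) (.g (nat_lit 4200) (.e (nat_lit 7454) (nat_lit 396) (.e (nat_lit 1220) (nat_lit 90) (.e (nat_lit 81956) (nat_lit 23) (.e (nat_lit 98333) (nat_lit 18) (.e (nat_lit 164153) (nat_lit 152) (.e (nat_lit 1212) (nat_lit 89) (.e (nat_lit 73729) (nat_lit 0) .nil))))))) (.g (nat_lit 4) .nil .nil))) 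
(.lf (nat_lit 126695) (.g (nat_lit 3451) (.e (nat_lit 7454) (nat_lit 396) (.e (nat_lit 1221) (nat_lit 90) (.e (nat_lit 81956) (nat_lit 23) (.e (nat_lit 98335) (nat_lit 18) .nil)))) .nil)))) (.nd (nat_lit 5) (.nd (nat_lit 6) 
(.lf (nat_lit 126615) (.g (nat_lit 2982) (.e (nat_lit 7454) (nat_lit 396) (.e (nat_lit 1220) (nat_lit 90) (.e (nat_lit 81956) (nat_lit 23) (.e (nat_lit 98319) (nat_lit 17) (.e (nat_lit 3453) (nat_lit 216) .nil))))) .nil)) 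
(.lf (nat_lit 126679) (.g (nat_lit 4226) (.e (nat_lit 7454) (nat_lit 396) (.e (nat_lit 1221) (nat_lit 90) (.e (nat_lit 81956) (nat_lit 23) (.e (nat_lit 98333) (nat_lit 18) (.e (nat_lit 164156) (nat_lit 152) .nil))))) .nil))) (.nd (nat_lit 6) 
(.lf (nat_lit 126647) (.g (nat_lit 3267) (.e (nat_lit 7454) (nat_lit 396) (.e (nat_lit 1220) (nat_lit 90) (.e (nat_lit 81956) (nat_lit 23) (.e (nat_lit 98334) (nat_lit 18) (.e (nat_lit 164161) (nat_lit 152) .nil))))) .nil)) 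
(.lf (nat_lit 126711) (.g (nat_lit 656) (.e (nat_lit 7472) (nat_lit 398) (.e (nat_lit 57375) (nat_lit 2) (.e (nat_lit 90178) (nat_lit 15) .nil))) .nil))))) (.nd (nat_lit 4) (.nd (nat_lit 5) (.nd (nat_lit 6) 
(.lf (nat_lit 126607) (.g (nat_lit 449) (.e (nat_lit 7454) (nat_lit 396) (.e (nat_lit 1220) (nat_lit 90) (.e (nat_lit 81953) (nat_lit 22) .nil))) .nil)) 
(.lf (nat_lit 126671) (.g (nat_lit 3451) (.e (nat_lit 7454) (nat_lit 396) (.e (nat_lit 1221) (nat_lit 90) (.e (nat_lit 81956) (nat_lit 23) (.e (nat_lit 98332) (nat_lit 18) .nil)))) .nil))) (.nd (nat_lit 6) 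
(.lf (nat_lit 126639) (.g (nat_lit 4143) (.e (nat_lit 7454) (nat_lit 396) (.e (nat_lit 1220) (nat_lit 90) (.e (nat_lit 81956) (nat_lit 23) (.e (nat_lit 98333) (nat_lit 18) (.e (nat_lit 164182) (nat_lit 154) .nil))))) .nil)) 
(.lf (nat_lit 126703) (.g (nat_lit 698) (.e (nat_lit 7471) (nat_lit 398) (.e (nat_lit 57427) (nat_lit 15) (.e (nat_lit 360474) (nat_lit 8) .nil))) .nil)))) (.nd (nat_lit 5) (.nd (nat_lit 6) 
(.lf (nat_lit 126623) (.g (nat_lit 2095) (.e (nat_lit 7454) (nat_lit 396) (.e (nat_lit 1220) (nat_lit 90) (.e (nat_lit 81956) (nat_lit 23) (.e (nat_lit 98325) (nat_lit 17) .nil)))) .nil)) 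
(.lf (nat_lit 126687) (.g (nat_lit 3019) (.e (nat_lit 7454) (nat_lit 396) (.e (nat_lit 1221) (nat_lit 90) (.e (nat_lit 81956) (nat_lit 23) (.e (nat_lit 98334) (nat_lit 18) (.e (nat_lit 164147) (nat_lit 152) (.e (nat_lit 1211) (nat_lit 89) (.e (nat_lit 73730) (nat_lit 0) .nil))))))) (.g (nat_lit 4) .nil .nil)))) (.nd (nat_lit 6) 
(.lf (nat_lit 126655) (.g (nat_lit 1466) (.e (nat_lit 7454) (nat_lit 396) (.e (nat_lit 1221) (nat_lit 90) (.e (nat_lit 81953) (nat_lit 22) (.e (nat_lit 98048) (nat_lit 2) .nil)))) .nil)) 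
(.lf (nat_lit 126719) (.g (nat_lit 1448) (.e (nat_lit 7485) (nat_lit 402) (.e (nat_lit 1256) (nat_lit 92) (.e (nat_lit 98372) (nat_lit 29) (.e (nat_lit 450586) (nat_lit 10) (.e (nat_lit 573450) (nat_lit 9) .nil))))) .nil)))))))))

noncomputable def tv1701 : DT := (.nd (nat_lit 0) (.nd (nat_lit 1) (.nd (nat_lit 2) (.nd (nat_lit 3) (.nd (nat_lit 4) (.nd (nat_lit 5) (.nd (nat_lit 6) 
(.lf (nat_lit 126720) (.g (nat_lit 1484) (.e (nat_lit 7485) (nat_lit 402) (.e (nat_lit 1256) (nat_lit 92) (.e (nat_lit 98372) (nat_lit 29) (.e (nat_lit 450586) (nat_lit 10) (.e (nat_lit 573452) (nat_lit 9) .nil))))) .nil)) 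
(.lf (nat_lit 126784) (.g (nat_lit 2309) (.e (nat_lit 7486) (nat_lit 402) (.e (nat_lit 1633) (nat_lit 114) (.e (nat_lit 385074) (nat_lit 31) (.e (nat_lit 573491) (nat_lit 15) .nil)))) .nil))) (.nd (nat_lit 6) 
(.lf (nat_lit 126752) (.g (nat_lit 2348) (.e (nat_lit 7485) (nat_lit 402) (.e (nat_lit 1401) (nat_lit 106) (.e (nat_lit 319534) (nat_lit 16) (.e (nat_lit 286756) (nat_lit 10) (.e (nat_lit 344157) (nat_lit 36) .nil))))) .nil)) 
(.lf (nat_lit 126816) (.g (nat_lit 2703) (.e (nat_lit 7489) (nat_lit 402) (.e (nat_lit 1400) (nat_lit 106) (.e (nat_lit 319534) (nat_lit 16) (.e (nat_lit 286756) (nat_lit 10) (.e (nat_lit 344153) (nat_lit 35) .nil))))) .nil)))) (.nd (nat_lit 5) (.nd (nat_lit 6) 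
(.lf (nat_lit 126736) (.g (nat_lit 3277) (.e (nat_lit 7485) (nat_lit 402) (.e (nat_lit 1400) (nat_lit 106) (.e (nat_lit 319533) (nat_lit 16) (.e (nat_lit 286753) (nat_lit 10) (.e (nat_lit 344157) (nat_lit 36) (.e (nat_lit 646912) (nat_lit 5) (.e (nat_lit 2936) (nat_lit 184) (.e (nat_lit 425987) (nat_lit 0) .nil)))))))) (.g (nat_lit 5) .nil .nil))) 
(.lf (nat_lit 126800) (.g (nat_lit 1465) (.e (nat_lit 7486) (nat_lit 402) (.e (nat_lit 1665) (nat_lit 115) (.e (nat_lit 393301) (nat_lit 27) (.e (nat_lit 491567) (nat_lit 13) (.e (nat_lit 393231) (nat_lit 17) .nil))))) .nil))) (.nd (nat_lit 6) 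
(.lf (nat_lit 126768) (.g (nat_lit 3950) (.e (nat_lit 7486) (nat_lit 402) (.e (nat_lit 1256) (nat_lit 92) (.e (nat_lit 98373) (nat_lit 29) (.e (nat_lit 450588) (nat_lit 10) (.e (nat_lit 573471) (nat_lit 11) (.e (nat_lit 16385) (nat_lit 0) .nil)))))) (.g (nat_lit 6) .nil .nil))) 
(.lf (nat_lit 126832) (.g (nat_lit 1351) (.e (nat_lit 7490) (nat_lit 402) (.e (nat_lit 1239) (nat_lit 91) (.e (nat_lit 90170) (nat_lit 13) (.e (nat_lit 172113) (nat_lit 10) .nil)))) .nil))))) (.nd (nat_lit 4) (.nd (nat_lit 5) (.nd (nat_lit 6) 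
(.lf (nat_lit 126728) (.g (nat_lit 2128) (.e (nat_lit 7485) (nat_lit 402) (.e (nat_lit 1256) (nat_lit 92) (.e (nat_lit 98373) (nat_lit 29) (.e (nat_lit 450588) (nat_lit 10) (.e (nat_lit 573452) (nat_lit 9) .nil))))) .nil)) 
(.lf (nat_lit 126792) (.g (nat_lit 555) (.e (nat_lit 7486) (nat_lit 402) (.e (nat_lit 1656) (nat_lit 115) (.e (nat_lit 393301) (nat_lit 27) .nil))) .nil))) (.nd (nat_lit 6) 
(.lf (nat_lit 126760) (.g (nat_lit 2804) (.e (nat_lit 7486) (nat_lit 402) (.e (nat_lit 1256) (nat_lit 92) (.e (nat_lit 98359) (nat_lit 26) (.e (nat_lit 426286) (nat_lit 10) (.e (nat_lit 434247) (nat_lit 28) (.e (nat_lit 573456) (nat_lit 9) (.e (nat_lit 430) (nat_lit 32) (.e (nat_lit 426010) (nat_lit 0) .nil)))))))) (.g (nat_lit 6) .nil .nil))) 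
(.lf (nat_lit 126824) (.g (nat_lit 2014) (.e (nat_lit 7489) (nat_lit 402) (.e (nat_lit 1665) (nat_lit 115) (.e (nat_lit 393291) (nat_lit 26) (.e (nat_lit 475211) (nat_lit 41) (.e (nat_lit 712745) (nat_lit 27) .nil))))) .nil)))) (.nd (nat_lit 5) (.nd (nat_lit 6) 
(.lf (nat_lit 126744) (.g (nat_lit 2636) (.e (nat_lit 7485) (nat_lit 402) (.e (nat_lit 1400) (nat_lit 106) (.e (nat_lit 319534) (nat_lit 16) (.e (nat_lit 286756) (nat_lit 10) (.e (nat_lit 344160) (nat_lit 37) .nil))))) .nil)) 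
(.lf (nat_lit 126808) (.g (nat_lit 3034) (.e (nat_lit 7489) (nat_lit 402) (.e (nat_lit 1256) (nat_lit 92) (.e (nat_lit 98359) (nat_lit 26) (.e (nat_lit 426286) (nat_lit 10) (.e (nat_lit 434245) (nat_lit 28) (.e (nat_lit 573458) (nat_lit 9) (.e (nat_lit 420) (nat_lit 32) (.e (nat_lit 425987) (nat_lit 0) .nil)))))))) (.g (nat_lit 7) .nil .nil)))) (.nd (nat_lit 6) 
(.lf (nat_lit 126776) (.g (nat_lit 2265) (.e (nat_lit 7486) (nat_lit 402) (.e (nat_lit 1400) (nat_lit 106) (.e (nat_lit 319534) (nat_lit 16) (.e (nat_lit 286756) (nat_lit 10) (.e (nat_lit 344160) (nat_lit 37) (.e (nat_lit 647195) (nat_lit 9) (.e (nat_lit 426) (nat_lit 32) (.e (nat_lit 426010) (nat_lit 0) .nil)))))))) (.g (nat_lit 4) .nil .nil))) 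
(.lf (nat_lit 126840) (.g (nat_lit 1724) (.e (nat_lit 7490) (nat_lit 402) (.e (nat_lit 1400) (nat_lit 106) (.e (nat_lit 319534) (nat_lit 16) (.e (nat_lit 286749) (nat_lit 9) (.e (nat_lit 335997) (nat_lit 1) .nil))))) .nil)))))) (.nd (nat_lit 3) (.nd (nat_lit 4) (.nd (nat_lit 5) (.nd (nat_lit 6) 
(.lf (nat_lit 126724) (.g (nat_lit 1921) (.e (nat_lit 7485) (nat_lit 402) (.e (nat_lit 1256) (nat_lit 92) (.e (nat_lit 98373) (nat_lit 29) (.e (nat_lit 450587) (nat_lit 10) (.e (nat_lit 573456) (nat_lit 9) .nil))))) .nil)) 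
(.lf (nat_lit 126788) (.g (nat_lit 1584) (.e (nat_lit 7486) (nat_lit 402) (.e (nat_lit 1656) (nat_lit 115) (.e (nat_lit 393298) (nat_lit 27) (.e (nat_lit 491569) (nat_lit 13) .nil)))) .nil))) (.nd (nat_lit 6) 
(.lf (nat_lit 126756) (.g (nat_lit 907) (.e (nat_lit 7485) (nat_lit 402) (.e (nat_lit 1665) (nat_lit 115) (.e (nat_lit 393296) (nat_lit 26) (.e (nat_lit 475210) (nat_lit 41) .nil)))) .nil)) 
(.lf (nat_lit 126820) (.g (nat_lit 2652) (.e (nat_lit 7489) (nat_lit 402) (.e (nat_lit 1400) (nat_lit 106) (.e (nat_lit 319534) (nat_lit 16) (.e (nat_lit 286756) (nat_lit 10) (.e (nat_lit 344160) (nat_lit 37) (.e (nat_lit 647195) (nat_lit 9) (.e (nat_lit 420) (nat_lit 32) (.e (nat_lit 425984) (nat_lit 0) .nil)))))))) (.g (nat_lit 4) .nil .nil))))) (.nd (nat_lit 5) (.nd (nat_lit 6) 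
(.lf (nat_lit 126740) (.g (nat_lit 2627) (.e (nat_lit 7485) (nat_lit 402) (.e (nat_lit 1400) (nat_lit 106) (.e (nat_lit 319534) (nat_lit 16) (.e (nat_lit 286756) (nat_lit 10) (.e (nat_lit 344154) (nat_lit 35) .nil))))) .nil)) 
(.lf (nat_lit 126804) (.g (nat_lit 1695) (.e (nat_lit 7489) (nat_lit 402) (.e (nat_lit 1239) (nat_lit 91) (.e (nat_lit 90170) (nat_lit 13) (.e (nat_lit 172113) (nat_lit 10) (.e (nat_lit 434238) (nat_lit 25) .nil))))) .nil))) (.nd (nat_lit 6) 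
(.lf (nat_lit 126772) (.g (nat_lit 1379) (.e (nat_lit 7486) (nat_lit 402) (.e (nat_lit 1400) (nat_lit 106) (.e (nat_lit 319533) (nat_lit 16) (.e (nat_lit 286753) (nat_lit 10) .nil)))) .nil)) 
(.lf (nat_lit 126836) (.g (nat_lit 3285) (.e (nat_lit 7490) (nat_lit 402) (.e (nat_lit 1400) (nat_lit 106) (.e (nat_lit 319533) (nat_lit 16) (.e (nat_lit 286753) (nat_lit 10) (.e (nat_lit 344156) (nat_lit 36) (.e (nat_lit 638998) (nat_lit 8) (.e (nat_lit 172034) (nat_lit 0) .nil))))))) (.g (nat_lit 6) .nil .nil)))))) (.nd (nat_lit 4) (.nd (nat_lit 5) (.nd (nat_lit 6) 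
(.lf (nat_lit 126732) (.g (nat_lit 1920) (.e (nat_lit 7485) (nat_lit 402) (.e (nat_lit 1400) (nat_lit 106) (.e (nat_lit 319533) (nat_lit 16) (.e (nat_lit 286753) (nat_lit 10) .nil)))) .nil)) 
(.lf (nat_lit 126796) (.g (nat_lit 1275) (.e (nat_lit 7486) (nat_lit 402) (.e (nat_lit 1665) (nat_lit 115) (.e (nat_lit 393234) (nat_lit 17) (.e (nat_lit 7589) (nat_lit 406) (.e (nat_lit 65653) (nat_lit 27) .nil))))) .nil))) (.nd (nat_lit 6) 
(.lf (nat_lit 126764) (.g (nat_lit 1987) (.e (nat_lit 7486) (nat_lit 402) (.e (nat_lit 1256) (nat_lit 92) (.e (nat_lit 98372) (nat_lit 29) (.e (nat_lit 450586) (nat_lit 10) (.e (nat_lit 573456) (nat_lit 9) (.e (nat_lit 430) (nat_lit 32) (.e (nat_lit 426010) (nat_lit 0) .nil))))))) (.g (nat_lit 5) .nil .nil))) 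
(.lf (nat_lit 126828) (.g (nat_lit 947) (.e (nat_lit 7489) (nat_lit 402) (.e (nat_lit 1665) (nat_lit 115) (.e (nat_lit 393301) (nat_lit 27) (.e (nat_lit 491555) (nat_lit 9) .nil)))) .nil)))) (.nd (nat_lit 5) (.nd (nat_lit 6) 
(.lf (nat_lit 126748) (.g (nat_lit 2995) (.e (nat_lit 7485) (nat_lit 402) (.e (nat_lit 1400) (nat_lit 106) (.e (nat_lit 319534) (nat_lit 16) (.e (nat_lit 286756) (nat_lit 10) (.e (nat_lit 344160) (nat_lit 37) (.e (nat_lit 647195) (nat_lit 9) (.e (nat_lit 7936) (nat_lit 32) (.e (nat_lit 425989) (nat_lit 0) .nil)))))))) (.g (nat_lit 4) .nil .nil))) 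
(.lf (nat_lit 126812) (.g (nat_lit 2041) (.e (nat_lit 7489) (nat_lit 402) (.e (nat_lit 1256) (nat_lit 92) (.e (nat_lit 98373) (nat_lit 29) (.e (nat_lit 450588) (nat_lit 10) (.e (nat_lit 573471) (nat_lit 11) .nil))))) .nil))) (.nd (nat_lit 6) 
(.lf (nat_lit 126780) (.g (nat_lit 2777) (.e (nat_lit 7486) (nat_lit 402) (.e (nat_lit 1535) (nat_lit 109) (.e (nat_lit 344126) (nat_lit 25) (.e (nat_lit 548889) (nat_lit 9) (.e (nat_lit 65610) (nat_lit 10) .nil))))) .nil)) 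
(.lf (nat_lit 126844) (.g (nat_lit 2062) (.e (nat_lit 7490) (nat_lit 402) (.e (nat_lit 1400) (nat_lit 106) (.e (nat_lit 319534) (nat_lit 16) (.e (nat_lit 286756) (nat_lit 10) (.e (nat_lit 344160) (nat_lit 37) (.e (nat_lit 647195) (nat_lit 9) (.e (nat_lit 426) (nat_lit 32) (.e (nat_lit 426003) (nat_lit 0) .nil)))))))) (.g (nat_lit 4) .nil .nil)))))))) 
(.nd (nat_lit 2) (.nd (nat_lit 3) (.nd (nat_lit 4) (.nd (nat_lit 5) (.nd (nat_lit 6) 
(.lf (nat_lit 126722) (.g (nat_lit 1491) (.e (nat_lit 7485) (nat_lit 402) (.e (nat_lit 1256) (nat_lit 92) (.e (nat_lit 98372) (nat_lit 29) (.e (nat_lit 450586) (nat_lit 10) (.e (nat_lit 573457) (nat_lit 9) .nil))))) .nil)) 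
(.lf (nat_lit 126786) (.g (nat_lit 1945) (.e (nat_lit 7486) (nat_lit 402) (.e (nat_lit 1656) (nat_lit 115) (.e (nat_lit 393234) (nat_lit 17) (.e (nat_lit 7587) (nat_lit 406) (.e (nat_lit 65653) (nat_lit 27) .nil))))) .nil))) (.nd (nat_lit 6) 
(.lf (nat_lit 126754) (.g (nat_lit 2225) (.e (nat_lit 7485) (nat_lit 402) (.e (nat_lit 1656) (nat_lit 115) (.e (nat_lit 393300) (nat_lit 27) (.e (nat_lit 491549) (nat_lit 9) (.e (nat_lit 336414) (nat_lit 27) .nil))))) .nil)) 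
(.lf (nat_lit 126818) (.g (nat_lit 2661) (.e (nat_lit 7489) (nat_lit 402) (.e (nat_lit 1400) (nat_lit 106) (.e (nat_lit 319534) (nat_lit 16) (.e (nat_lit 286756) (nat_lit 10) (.e (nat_lit 344157) (nat_lit 36) .nil))))) .nil)))) (.nd (nat_lit 5) (.nd (nat_lit 6) 
(.lf (nat_lit 126738) (.g (nat_lit 1854) (.e (nat_lit 7485) (nat_lit 402) (.e (nat_lit 1400) (nat_lit 106) (.e (nat_lit 319534) (nat_lit 16) (.e (nat_lit 286756) (nat_lit 10) .nil)))) .nil)) 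
(.lf (nat_lit 126802) (.g (nat_lit 2100) (.e (nat_lit 7486) (nat_lit 402) (.e (nat_lit 1669) (nat_lit 116) (.e (nat_lit 401425) (nat_lit 2) (.e (nat_lit 196672) (nat_lit 15) (.e (nat_lit 81954) (nat_lit 23) .nil))))) .nil))) (.nd (nat_lit 6) 
(.lf (nat_lit 126770) (.g (nat_lit 3493) (.e (nat_lit 7486) (nat_lit 402) (.e (nat_lit 1256) (nat_lit 92) (.e (nat_lit 98373) (nat_lit 29) (.e (nat_lit 450588) (nat_lit 10) (.e (nat_lit 573471) (nat_lit 11) (.e (nat_lit 16387) (nat_lit 0) .nil)))))) (.g (nat_lit 6) .nil .nil))) 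
(.lf (nat_lit 126834) (.g (nat_lit 1319) (.e (nat_lit 7490) (nat_lit 402) (.e (nat_lit 1400) (nat_lit 106) (.e (nat_lit 319533) (nat_lit 16) (.e (nat_lit 286753) (nat_lit 10) .nil)))) .nil))))) (.nd (nat_lit 4) (.nd (nat_lit 5) (.nd (nat_lit 6) 
(.lf (nat_lit 126730) (.g (nat_lit 2662) (.e (nat_lit 7485) (nat_lit 402) (.e (nat_lit 1256) (nat_lit 92) (.e (nat_lit 98373) (nat_lit 29) (.e (nat_lit 450588) (nat_lit 10) (.e (nat_lit 573457) (nat_lit 9) .nil))))) .nil)) 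
(.lf (nat_lit 126794) (.g (nat_lit 2691) (.e (nat_lit 7486) (nat_lit 402) (.e (nat_lit 1656) (nat_lit 115) (.e (nat_lit 393301) (nat_lit 27) (.e (nat_lit 491568) (nat_lit 13) (.e (nat_lit 393234) (nat_lit 17) .nil))))) .nil))) (.nd (nat_lit 6) 
(.lf (nat_lit 126762) (.g (nat_lit 1544) (.e (nat_lit 7486) (nat_lit 402) (.e (nat_lit 1256) (nat_lit 92) (.e (nat_lit 98372) (nat_lit 29) (.e (nat_lit 450586) (nat_lit 10) (.e (nat_lit 573452) (nat_lit 9) (.e (nat_lit 430) (nat_lit 32) (.e (nat_lit 426009) (nat_lit 0) .nil))))))) (.g (nat_lit 4) .nil .nil))) 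
(.lf (nat_lit 126826) (.g (nat_lit 2175) (.e (nat_lit 7489) (nat_lit 402) (.e (nat_lit 1665) (nat_lit 115) (.e (nat_lit 393300) (nat_lit 27) (.e (nat_lit 491547) (nat_lit 9) (.e (nat_lit 336414) (nat_lit 27) .nil))))) .nil)))) (.nd (nat_lit 5) (.nd (nat_lit 6) 
(.lf (nat_lit 126746) (.g (nat_lit 2762) (.e (nat_lit 7485) (nat_lit 402) (.e (nat_lit 1400) (nat_lit 106) (.e (nat_lit 319534) (nat_lit 16) (.e (nat_lit 286756) (nat_lit 10) (.e (nat_lit 344160) (nat_lit 37) (.e (nat_lit 647195) (nat_lit 9) (.e (nat_lit 420) (nat_lit 32) (.e (nat_lit 425987) (nat_lit 0) .nil)))))))) (.g (nat_lit 4) .nil .nil))) 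
(.lf (nat_lit 126810) (.g (nat_lit 927) (.e (nat_lit 7489) (nat_lit 402) (.e (nat_lit 1256) (nat_lit 92) (.e (nat_lit 98373) (nat_lit 29) (.e (nat_lit 450583) (nat_lit 7) .nil)))) .nil))) (.nd (nat_lit 6) 
(.lf (nat_lit 126778) (.g (nat_lit 2698) (.e (nat_lit 7486) (nat_lit 402) (.e (nat_lit 1401) (nat_lit 106) (.e (nat_lit 319534) (nat_lit 16) (.e (nat_lit 286756) (nat_lit 10) (.e (nat_lit 344160) (nat_lit 37) (.e (nat_lit 647195) (nat_lit 9) (.e (nat_lit 426) (nat_lit 32) (.e (nat_lit 426011) (nat_lit 0) .nil)))))))) (.g (nat_lit 4) .nil .nil))) 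
(.lf (nat_lit 126842) (.g (nat_lit 2086) (.e (nat_lit 7490) (nat_lit 402) (.e (nat_lit 1400) (nat_lit 106) (.e (nat_lit 319534) (nat_lit 16) (.e (nat_lit 286756) (nat_lit 10) (.e (nat_lit 344154) (nat_lit 35) (.e (nat_lit 630802) (nat_lit 8) (.e (nat_lit 172034) (nat_lit 0) .nil))))))) (.g (nat_lit 4) .nil .nil))))))) (.nd (nat_lit 3) (.nd (nat_lit 4) (.nd (nat_lit 5) (.nd (nat_lit 6) 
(.lf (nat_lit 126726) (.g (nat_lit 1878) (.e (nat_lit 7485) (nat_lit 402) (.e (nat_lit 1256) (nat_lit 92) (.e (nat_lit 98373) (nat_lit 29) (.e (nat_lit 450587) (nat_lit 10) (.e (nat_lit 573457) (nat_lit 9) .nil))))) .nil)) 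
(.lf (nat_lit 126790) (.g (nat_lit 2297) (.e (nat_lit 7486) (nat_lit 402) (.e (nat_lit 1656) (nat_lit 115) (.e (nat_lit 393300) (nat_lit 27) (.e (nat_lit 491568) (nat_lit 13) (.e (nat_lit 393233) (nat_lit 17) .nil))))) .nil))) (.nd (nat_lit 6) 
(.lf (nat_lit 126758) (.g (nat_lit 1813) (.e (nat_lit 7485) (nat_lit 402) (.e (nat_lit 1665) (nat_lit 115) (.e (nat_lit 393301) (nat_lit 27) (.e (nat_lit 491552) (nat_lit 9) (.e (nat_lit 336410) (nat_lit 27) .nil))))) .nil)) 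
(.lf (nat_lit 126822) (.g (nat_lit 1250) (.e (nat_lit 7489) (nat_lit 402) (.e (nat_lit 1642) (nat_lit 114) (.e (nat_lit 385074) (nat_lit 31) (.e (nat_lit 573485) (nat_lit 13) .nil)))) .nil)))) (.nd (nat_lit 5) (.nd (nat_lit 6) 
(.lf (nat_lit 126742) (.g (nat_lit 2676) (.e (nat_lit 7485) (nat_lit 402) (.e (nat_lit 1400) (nat_lit 106) (.e (nat_lit 319534) (nat_lit 16) (.e (nat_lit 286756) (nat_lit 10) (.e (nat_lit 344157) (nat_lit 36) .nil))))) .nil)) 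
(.lf (nat_lit 126806) (.g (nat_lit 3206) (.e (nat_lit 7489) (nat_lit 402) (.e (nat_lit 1239) (nat_lit 91) (.e (nat_lit 90170) (nat_lit 13) (.e (nat_lit 172126) (nat_lit 14) (.e (nat_lit 491539) (nat_lit 3) .nil))))) .nil))) (.nd (nat_lit 6) 
(.lf (nat_lit 126774) (.g (nat_lit 1418) (.e (nat_lit 7486) (nat_lit 402) (.e (nat_lit 1400) (nat_lit 106) (.e (nat_lit 319534) (nat_lit 16) (.e (nat_lit 286749) (nat_lit 9) .nil)))) .nil)) 
(.lf (nat_lit 126838) (.g (nat_lit 2324) (.e (nat_lit 7490) (nat_lit 402) (.e (nat_lit 1400) (nat_lit 106) (.e (nat_lit 319533) (nat_lit 16) (.e (nat_lit 286753) (nat_lit 10) (.e (nat_lit 344160) (nat_lit 37) (.e (nat_lit 647195) (nat_lit 9) (.e (nat_lit 426) (nat_lit 32) (.e (nat_lit 426003) (nat_lit 0) .nil)))))))) (.g (nat_lit 5) .nil .nil)))))) 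
(.nd (nat_lit 4) (.nd (nat_lit 5) (.nd (nat_lit 6) 
(.lf (nat_lit 126734) (.g (nat_lit 2817) (.e (nat_lit 7485) (nat_lit 402) (.e (nat_lit 1400) (nat_lit 106) (.e (nat_lit 319533) (nat_lit 16) (.e (nat_lit 286753) (nat_lit 10) (.e (nat_lit 344154) (nat_lit 35) (.e (nat_lit 630792) (nat_lit 5) (.e (nat_lit 2936) (nat_lit 184) (.e (nat_lit 425987) (nat_lit 0) .nil)))))))) (.g (nat_lit 4) .nil .nil))) 
(.lf (nat_lit 126798) (.g (nat_lit 1608) (.e (nat_lit 7486) (nat_lit 402) (.e (nat_lit 1665) (nat_lit 115) (.e (nat_lit 393298) (nat_lit 27) (.e (nat_lit 491571) (nat_lit 13) (.e (nat_lit 393231) (nat_lit 17) .nil))))) .nil))) (.nd (nat_lit 6) 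
(.lf (nat_lit 126766) (.g (nat_lit 3129) (.e (nat_lit 7486) (nat_lit 402) (.e (nat_lit 1256) (nat_lit 92) (.e (nat_lit 98372) (nat_lit 29) (.e (nat_lit 450586) (nat_lit 10) (.e (nat_lit 573469) (nat_lit 11) (.e (nat_lit 16388) (nat_lit 0) .nil)))))) (.g (nat_lit 6) .nil .nil))) 
(.lf (nat_lit 126830) (.g (nat_lit 2222) (.e (nat_lit 7489) (nat_lit 402) (.e (nat_lit 1669) (nat_lit 116) (.e (nat_lit 401425) (nat_lit 2) (.e (nat_lit 196672) (nat_lit 15) (.e (nat_lit 81951) (nat_lit 22) .nil))))) .nil)))) (.nd (nat_lit 5) (.nd (nat_lit 6) 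
(.lf (nat_lit 126750) (.g (nat_lit 1602) (.e (nat_lit 7485) (nat_lit 402) (.e (nat_lit 1401) (nat_lit 106) (.e (nat_lit 319533) (nat_lit 16) (.e (nat_lit 286753) (nat_lit 10) (.e (nat_lit 344157) (nat_lit 36) .nil))))) .nil)) 
(.lf (nat_lit 126814) (.g (nat_lit 2399) (.e (nat_lit 7489) (nat_lit 402) (.e (nat_lit 1400) (nat_lit 106) (.e (nat_lit 319533) (nat_lit 16) (.e (nat_lit 286753) (nat_lit 10) (.e (nat_lit 344154) (nat_lit 35) .nil))))) .nil))) (.nd (nat_lit 6) 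
(.lf (nat_lit 126782) (.g (nat_lit 2373) (.e (nat_lit 7486) (nat_lit 402) (.e (nat_lit 1545) (nat_lit 109) (.e (nat_lit 344126) (nat_lit 25) (.e (nat_lit 548889) (nat_lit 9) (.e (nat_lit 65610) (nat_lit 10) .nil))))) .nil)) 
(.lf (nat_lit 126846) (.g (nat_lit 2482) (.e (nat_lit 7490) (nat_lit 402) (.e (nat_lit 1400) (nat_lit 106) (.e (nat_lit 319534) (nat_lit 16) (.e (nat_lit 286756) (nat_lit 10) (.e (nat_lit 344160) (nat_lit 37) (.e (nat_lit 647195) (nat_lit 9) (.e (nat_lit 426) (nat_lit 32) (.e (nat_lit 426010) (nat_lit 0) .nil)))))))) (.g (nat_lit 5) .nil .nil))))))))) 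
(.nd (nat_lit 1) (.nd (nat_lit 2) (.nd (nat_lit 3) (.nd (nat_lit 4) (.nd (nat_lit 5) 
(.nd (nat_lit 6) 
(.lf (nat_lit 126721) (.g (nat_lit 1516) (.e (nat_lit 7485) (nat_lit 402) (.e (nat_lit 1256) (nat_lit 92) (.e (nat_lit 98372) (nat_lit 29) (.e (nat_lit 450586) (nat_lit 10) (.e (nat_lit 573456) (nat_lit 9) .nil))))) .nil)) 
(.lf (nat_lit 126785) (.g (nat_lit 1674) (.e (nat_lit 7486) (nat_lit 402) (.e (nat_lit 1656) (nat_lit 115) (.e (nat_lit 393234) (nat_lit 17) (.e (nat_lit 7490) (nat_lit 402) .nil)))) .nil))) (.nd (nat_lit 6) 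
(.lf (nat_lit 126753) (.g (nat_lit 2575) (.e (nat_lit 7485) (nat_lit 402) (.e (nat_lit 1454) (nat_lit 108) (.e (nat_lit 336389) (nat_lit 27) (.e (nat_lit 426305) (nat_lit 12) (.e (nat_lit 475210) (nat_lit 41) .nil))))) .nil)) 
(.lf (nat_lit 126817) (.g (nat_lit 2612) (.e (nat_lit 7489) (nat_lit 402) (.e (nat_lit 1400) (nat_lit 106) (.e (nat_lit 319534) (nat_lit 16) (.e (nat_lit 286756) (nat_lit 10) (.e (nat_lit 344154) (nat_lit 35) .nil))))) .nil)))) (.nd (nat_lit 5) (.nd (nat_lit 6) 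
(.lf (nat_lit 126737) (.g (nat_lit 3008) (.e (nat_lit 7485) (nat_lit 402) (.e (nat_lit 1400) (nat_lit 106) (.e (nat_lit 319533) (nat_lit 16) (.e (nat_lit 286753) (nat_lit 10) (.e (nat_lit 344160) (nat_lit 37) (.e (nat_lit 647195) (nat_lit 9) (.e (nat_lit 7936) (nat_lit 32) (.e (nat_lit 425989) (nat_lit 0) .nil)))))))) (.g (nat_lit 5) .nil .nil))) 
(.lf (nat_lit 126801) (.g (nat_lit 1554) (.e (nat_lit 7486) (nat_lit 402) (.e (nat_lit 1665) (nat_lit 115) (.e (nat_lit 393301) (nat_lit 27) (.e (nat_lit 491568) (nat_lit 13) (.e (nat_lit 393231) (nat_lit 17) .nil))))) .nil))) (.nd (nat_lit 6) 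
(.lf (nat_lit 126769) (.g (nat_lit 3453) (.e (nat_lit 7486) (nat_lit 402) (.e (nat_lit 1256) (nat_lit 92) (.e (nat_lit 98373) (nat_lit 29) (.e (nat_lit 450588) (nat_lit 10) (.e (nat_lit 573471) (nat_lit 11) (.e (nat_lit 16386) (nat_lit 0) .nil)))))) (.g (nat_lit 6) .nil .nil))) 
(.lf (nat_lit 126833) (.g (nat_lit 3608) (.e (nat_lit 7490) (nat_lit 402) (.e (nat_lit 1256) (nat_lit 92) (.e (nat_lit 98372) (nat_lit 29) (.e (nat_lit 450588) (nat_lit 10) (.e (nat_lit 573452) (nat_lit 9) (.e (nat_lit 430) (nat_lit 32) (.e (nat_lit 426011) (nat_lit 0) .nil))))))) (.g (nat_lit 5) .nil .nil)))))) (.nd (nat_lit 4) (.nd (nat_lit 5) (.nd (nat_lit 6) 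
(.lf (nat_lit 126729) (.g (nat_lit 2474) (.e (nat_lit 7485) (nat_lit 402) (.e (nat_lit 1256) (nat_lit 92) (.e (nat_lit 98373) (nat_lit 29) (.e (nat_lit 450588) (nat_lit 10) (.e (nat_lit 573452) (nat_lit 9) (.e (nat_lit 7936) (nat_lit 32) (.e (nat_lit 425989) (nat_lit 0) .nil))))))) (.g (nat_lit 4) .nil .nil))) 
(.lf (nat_lit 126793) (.g (nat_lit 1804) (.e (nat_lit 7486) (nat_lit 402) (.e (nat_lit 1656) (nat_lit 115) (.e (nat_lit 393301) (nat_lit 27) (.e (nat_lit 491567) (nat_lit 13) .nil)))) .nil))) (.nd (nat_lit 6) 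
(.lf (nat_lit 126761) (.g (nat_lit 2117) (.e (nat_lit 7486) (nat_lit 402) (.e (nat_lit 1256) (nat_lit 92) (.e (nat_lit 98359) (nat_lit 26) (.e (nat_lit 426286) (nat_lit 10) (.e (nat_lit 434247) (nat_lit 28) (.e (nat_lit 573457) (nat_lit 9) (.e (nat_lit 430) (nat_lit 32) (.e (nat_lit 426009) (nat_lit 0) .nil)))))))) (.g (nat_lit 5) .nil .nil))) 
(.lf (nat_lit 126825) (.g (nat_lit 1903) (.e (nat_lit 7489) (nat_lit 402) (.e (nat_lit 1665) (nat_lit 115) (.e (nat_lit 393298) (nat_lit 27) (.e (nat_lit 491549) (nat_lit 9) (.e (nat_lit 336414) (nat_lit 27) .nil))))) .nil)))) (.nd (nat_lit 5) (.nd (nat_lit 6) 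
(.lf (nat_lit 126745) (.g (nat_lit 2660) (.e (nat_lit 7485) (nat_lit 402) (.e (nat_lit 1400) (nat_lit 106) (.e (nat_lit 319534) (nat_lit 16) (.e (nat_lit 286756) (nat_lit 10) (.e (nat_lit 344160) (nat_lit 37) (.e (nat_lit 647195) (nat_lit 9) (.e (nat_lit 417) (nat_lit 32) (.e (nat_lit 425987) (nat_lit 0) .nil)))))))) (.g (nat_lit 4) .nil .nil))) 
(.lf (nat_lit 126809) (.g (nat_lit 2423) (.e (nat_lit 7489) (nat_lit 402) (.e (nat_lit 1256) (nat_lit 92) (.e (nat_lit 98373) (nat_lit 29) (.e (nat_lit 450562) (nat_lit 0) (.e (nat_lit 4284) (nat_lit 253) .nil))))) .nil))) (.nd (nat_lit 6) 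
(.lf (nat_lit 126777) (.g (nat_lit 2370) (.e (nat_lit 7486) (nat_lit 402) (.e (nat_lit 1401) (nat_lit 106) (.e (nat_lit 319534) (nat_lit 16) (.e (nat_lit 286756) (nat_lit 10) (.e (nat_lit 344160) (nat_lit 37) .nil))))) .nil)) 
(.lf (nat_lit 126841) (.g (nat_lit 2075) (.e (nat_lit 7490) (nat_lit 402) (.e (nat_lit 1400) (nat_lit 106) (.e (nat_lit 319534) (nat_lit 16) (.e (nat_lit 286756) (nat_lit 10) (.e (nat_lit 344154) (nat_lit 35) (.e (nat_lit 630802) (nat_lit 8) (.e (nat_lit 172033) (nat_lit 0) .nil))))))) (.g (nat_lit 4) .nil .nil))))))) (.nd (nat_lit 3) (.nd (nat_lit 4) (.nd (nat_lit 5) (.nd (nat_lit 6) 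
(.lf (nat_lit 126725) (.g (nat_lit 2120) (.e (nat_lit 7485) (nat_lit 402) (.e (nat_lit 1256) (nat_lit 92) (.e (nat_lit 98373) (nat_lit 29) (.e (nat_lit 450587) (nat_lit 10) (.e (nat_lit 573456) (nat_lit 9) (.e (nat_lit 7936) (nat_lit 32) (.e (nat_lit 425989) (nat_lit 0) .nil))))))) (.g (nat_lit 4) .nil .nil))) 
(.lf (nat_lit 126789) (.g (nat_lit 530) (.e (nat_lit 7486) (nat_lit 402) (.e (nat_lit 1656) (nat_lit 115) (.e (nat_lit 393300) (nat_lit 27) .nil))) .nil))) (.nd (nat_lit 6) 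
(.lf (nat_lit 126757) (.g (nat_lit 1868) (.e (nat_lit 7485) (nat_lit 402) (.e (nat_lit 1665) (nat_lit 115) (.e (nat_lit 393301) (nat_lit 27) (.e (nat_lit 491547) (nat_lit 9) (.e (nat_lit 336414) (nat_lit 27) .nil))))) .nil)) 
(.lf (nat_lit 126821) (.g (nat_lit 2679) (.e (nat_lit 7489) (nat_lit 402) (.e (nat_lit 1400) (nat_lit 106) (.e (nat_lit 319534) (nat_lit 16) (.e (nat_lit 286756) (nat_lit 10) (.e (nat_lit 344160) (nat_lit 37) (.e (nat_lit 647195) (nat_lit 9) (.e (nat_lit 420) (nat_lit 32) (.e (nat_lit 425987) (nat_lit 0) .nil)))))))) (.g (nat_lit 4) .nil .nil))))) (.nd (nat_lit 5) (.nd (nat_lit 6) 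
(.lf (nat_lit 126741) (.g (nat_lit 2848) (.e (nat_lit 7485) (nat_lit 402) (.e (nat_lit 1400) (nat_lit 106) (.e (nat_lit 319534) (nat_lit 16) (.e (nat_lit 286756) (nat_lit 10) (.e (nat_lit 344154) (nat_lit 35) (.e (nat_lit 630793) (nat_lit 5) (.e (nat_lit 2936) (nat_lit 184) (.e (nat_lit 425984) (nat_lit 0) .nil)))))))) (.g (nat_lit 4) .nil .nil))) 
(.lf (nat_lit 126805) (.g (nat_lit 1969) (.e (nat_lit 7489) (nat_lit 402) (.e (nat_lit 1239) (nat_lit 91) (.e (nat_lit 90170) (nat_lit 13) (.e (nat_lit 172126) (nat_lit 14) .nil)))) .nil))) (.nd (nat_lit 6) 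
(.lf (nat_lit 126773) (.g (nat_lit 2591) (.e (nat_lit 7486) (nat_lit 402) (.e (nat_lit 1400) (nat_lit 106) (.e (nat_lit 319533) (nat_lit 16) (.e (nat_lit 286753) (nat_lit 10) (.e (nat_lit 344160) (nat_lit 37) (.e (nat_lit 647195) (nat_lit 9) (.e (nat_lit 426) (nat_lit 32) (.e (nat_lit 426010) (nat_lit 0) .nil)))))))) (.g (nat_lit 5) .nil .nil))) 
(.lf (nat_lit 126837) (.g (nat_lit 1896) (.e (nat_lit 7490) (nat_lit 402) (.e (nat_lit 1400) (nat_lit 106) (.e (nat_lit 319533) (nat_lit 16) (.e (nat_lit 286753) (nat_lit 10) (.e (nat_lit 344157) (nat_lit 36) .nil))))) .nil))))) (.nd (nat_lit 4) (.nd (nat_lit 5) (.nd (nat_lit 6) 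
(.lf (nat_lit 126733) (.g (nat_lit 2427) (.e (nat_lit 7485) (nat_lit 402) (.e (nat_lit 1400) (nat_lit 106) (.e (nat_lit 319533) (nat_lit 16) (.e (nat_lit 286753) (nat_lit 10) (.e (nat_lit 344154) (nat_lit 35) .nil))))) .nil)) 
(.lf (nat_lit 126797) (.g (nat_lit 1294) (.e (nat_lit 7486) (nat_lit 402) (.e (nat_lit 1665) (nat_lit 115) (.e (nat_lit 393260) (nat_lit 21) (.e (nat_lit 409616) (nat_lit 10) .nil)))) .nil))) (.nd (nat_lit 6) 
(.lf (nat_lit 126765) (.g (nat_lit 1496) (.e (nat_lit 7486) (nat_lit 402) (.e (nat_lit 1256) (nat_lit 92) (.e (nat_lit 98372) (nat_lit 29) (.e (nat_lit 450586) (nat_lit 10) (.e (nat_lit 573457) (nat_lit 9) .nil))))) .nil)) 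
(.lf (nat_lit 126829) (.g (nat_lit 2362) (.e (nat_lit 7489) (nat_lit 402) (.e (nat_lit 1665) (nat_lit 115) (.e (nat_lit 393301) (nat_lit 27) (.e (nat_lit 491556) (nat_lit 9) (.e (nat_lit 336402) (nat_lit 27) .nil))))) .nil)))) (.nd (nat_lit 5) (.nd (nat_lit 6) 
(.lf (nat_lit 126749) (.g (nat_lit 1083) (.e (nat_lit 7485) (nat_lit 402) (.e (nat_lit 1401) (nat_lit 106) (.e (nat_lit 319533) (nat_lit 16) (.e (nat_lit 286753) (nat_lit 10) .nil)))) .nil)) 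
(.lf (nat_lit 126813) (.g (nat_lit 1893) (.e (nat_lit 7489) (nat_lit 402) (.e (nat_lit 1400) (nat_lit 106) (.e (nat_lit 319533) (nat_lit 16) (.e (nat_lit 286753) (nat_lit 10) .nil)))) .nil))) (.nd (nat_lit 6) 
(.lf (nat_lit 126781) (.g (nat_lit 2520) (.e (nat_lit 7486) (nat_lit 402) (.e (nat_lit 1535) (nat_lit 109) (.e (nat_lit 344126) (nat_lit 25) (.e (nat_lit 548889) (nat_lit 9) (.e (nat_lit 65619) (nat_lit 10) .nil))))) .nil)) 
(.lf (nat_lit 126845) (.g (nat_lit 2031) (.e (nat_lit 7490) (nat_lit 402) (.e (nat_lit 1400) (nat_lit 106) (.e (nat_lit 319534) (nat_lit 16) (.e (nat_lit 286756) (nat_lit 10) (.e (nat_lit 344160) (nat_lit 37) (.e (nat_lit 647195) (nat_lit 9) (.e (nat_lit 426) (nat_lit 32) (.e (nat_lit 426009) (nat_lit 0) .nil)))))))) (.g (nat_lit 4) .nil .nil)))))))) 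
(.nd (nat_lit 2) (.nd (nat_lit 3) (.nd (nat_lit 4) (.nd (nat_lit 5) (.nd (nat_lit 6) 
(.lf (nat_lit 126723) (.g (nat_lit 1984) (.e (nat_lit 7485) (nat_lit 402) (.e (nat_lit 1256) (nat_lit 92) (.e (nat_lit 98373) (nat_lit 29) (.e (nat_lit 450587) (nat_lit 10) (.e (nat_lit 573454) (nat_lit 9) .nil))))) .nil)) 
(.lf (nat_lit 126787) (.g (nat_lit 1595) (.e (nat_lit 7486) (nat_lit 402) (.e (nat_lit 1656) (nat_lit 115) (.e (nat_lit 393234) (nat_lit 17) (.e (nat_lit 7589) (nat_lit 406) .nil)))) .nil))) (.nd (nat_lit 6) 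
(.lf (nat_lit 126755) (.g (nat_lit 1300) (.e (nat_lit 7485) (nat_lit 402) (.e (nat_lit 1665) (nat_lit 115) (.e (nat_lit 393234) (nat_lit 17) (.e (nat_lit 7589) (nat_lit 406) (.e (nat_lit 65652) (nat_lit 27) .nil))))) .nil)) 
(.lf (nat_lit 126819) (.g (nat_lit 2620) (.e (nat_lit 7489) (nat_lit 402) (.e (nat_lit 1400) (nat_lit 106) (.e (nat_lit 319534) (nat_lit 16) (.e (nat_lit 286756) (nat_lit 10) (.e (nat_lit 344160) (nat_lit 37) .nil))))) .nil)))) (.nd (nat_lit 5) (.nd (nat_lit 6) 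
(.lf (nat_lit 126739) (.g (nat_lit 2718) (.e (nat_lit 7485) (nat_lit 402) (.e (nat_lit 1400) (nat_lit 106) (.e (nat_lit 319534) (nat_lit 16) (.e (nat_lit 286756) (nat_lit 10) (.e (nat_lit 344153) (nat_lit 35) .nil))))) .nil)) 
(.lf (nat_lit 126803) (.g (nat_lit 2950) (.e (nat_lit 7489) (nat_lit 402) (.e (nat_lit 1239) (nat_lit 91) (.e (nat_lit 90170) (nat_lit 13) (.e (nat_lit 172106) (nat_lit 10) (.e (nat_lit 434238) (nat_lit 25) .nil))))) .nil))) (.nd (nat_lit 6) 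
(.lf (nat_lit 126771) (.g (nat_lit 2689) (.e (nat_lit 7486) (nat_lit 402) (.e (nat_lit 1394) (nat_lit 106) (.e (nat_lit 319534) (nat_lit 16) (.e (nat_lit 286756) (nat_lit 10) (.e (nat_lit 344160) (nat_lit 37) (.e (nat_lit 647195) (nat_lit 9) (.e (nat_lit 426) (nat_lit 32) (.e (nat_lit 426011) (nat_lit 0) .nil)))))))) (.g (nat_lit 4) .nil .nil))) 
(.lf (nat_lit 126835) (.g (nat_lit 1825) (.e (nat_lit 7490) (nat_lit 402) (.e (nat_lit 1400) (nat_lit 106) (.e (nat_lit 319533) (nat_lit 16) (.e (nat_lit 286753) (nat_lit 10) (.e (nat_lit 344154) (nat_lit 35) .nil))))) .nil))))) (.nd (nat_lit 4) (.nd (nat_lit 5) (.nd (nat_lit 6) 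
(.lf (nat_lit 126731) (.g (nat_lit 2777) (.e (nat_lit 7485) (nat_lit 402) (.e (nat_lit 1256) (nat_lit 92) (.e (nat_lit 98373) (nat_lit 29) (.e (nat_lit 450588) (nat_lit 10) (.e (nat_lit 573457) (nat_lit 9) (.e (nat_lit 428) (nat_lit 32) (.e (nat_lit 425989) (nat_lit 0) .nil))))))) (.g (nat_lit 4) .nil .nil))) 
(.lf (nat_lit 126795) (.g (nat_lit 1070) (.e (nat_lit 7486) (nat_lit 402) (.e (nat_lit 1665) (nat_lit 115) (.e (nat_lit 393234) (nat_lit 17) (.e (nat_lit 7587) (nat_lit 406) (.e (nat_lit 65653) (nat_lit 27) .nil))))) .nil))) (.nd (nat_lit 6) 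
(.lf (nat_lit 126763) (.g (nat_lit 1627) (.e (nat_lit 7486) (nat_lit 402) (.e (nat_lit 1256) (nat_lit 92) (.e (nat_lit 98372) (nat_lit 29) (.e (nat_lit 450586) (nat_lit 10) (.e (nat_lit 573456) (nat_lit 9) (.e (nat_lit 430) (nat_lit 32) (.e (nat_lit 426009) (nat_lit 0) .nil))))))) (.g (nat_lit 4) .nil .nil))) 
(.lf (nat_lit 126827) (.g (nat_lit 1950) (.e (nat_lit 7489) (nat_lit 402) (.e (nat_lit 1665) (nat_lit 115) (.e (nat_lit 393301) (nat_lit 27) (.e (nat_lit 491546) (nat_lit 9) (.e (nat_lit 336414) (nat_lit 27) .nil))))) .nil)))) (.nd (nat_lit 5) (.nd (nat_lit 6) 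
(.lf (nat_lit 126747) (.g (nat_lit 2798) (.e (nat_lit 7485) (nat_lit 402) (.e (nat_lit 1400) (nat_lit 106) (.e (nat_lit 319534) (nat_lit 16) (.e (nat_lit 286756) (nat_lit 10) (.e (nat_lit 344160) (nat_lit 37) (.e (nat_lit 647195) (nat_lit 9) (.e (nat_lit 420) (nat_lit 32) (.e (nat_lit 425989) (nat_lit 0) .nil)))))))) (.g (nat_lit 4) .nil .nil))) 
(.lf (nat_lit 126811) (.g (nat_lit 2800) (.e (nat_lit 7489) (nat_lit 402) (.e (nat_lit 1256) (nat_lit 92) (.e (nat_lit 98373) (nat_lit 29) (.e (nat_lit 450587) (nat_lit 10) (.e (nat_lit 573456) (nat_lit 9) (.e (nat_lit 428) (nat_lit 32) (.e (nat_lit 425987) (nat_lit 0) .nil))))))) (.g (nat_lit 5) .nil .nil)))) (.nd (nat_lit 6) 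
(.lf (nat_lit 126779) (.g (nat_lit 1915) (.e (nat_lit 7486) (nat_lit 402) (.e (nat_lit 1535) (nat_lit 109) (.e (nat_lit 344126) (nat_lit 25) (.e (nat_lit 548874) (nat_lit 5) (.e (nat_lit 1598) (nat_lit 111) .nil))))) .nil)) 
(.lf (nat_lit 126843) (.g (nat_lit 3420) (.e (nat_lit 7490) (nat_lit 402) (.e (nat_lit 1400) (nat_lit 106) (.e (nat_lit 319534) (nat_lit 16) (.e (nat_lit 286756) (nat_lit 10) (.e (nat_lit 344156) (nat_lit 36) (.e (nat_lit 638998) (nat_lit 8) (.e (nat_lit 172034) (nat_lit 0) .nil))))))) (.g (nat_lit 6) .nil .nil))))))) (.nd (nat_lit 3) (.nd (nat_lit 4) (.nd (nat_lit 5) (.nd (nat_lit 6) 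
(.lf (nat_lit 126727) (.g (nat_lit 2178) (.e (nat_lit 7485) (nat_lit 402) (.e (nat_lit 1256) (nat_lit 92) (.e (nat_lit 98373) (nat_lit 29) (.e (nat_lit 450587) (nat_lit 10) (.e (nat_lit 573457) (nat_lit 9) (.e (nat_lit 428) (nat_lit 32) (.e (nat_lit 425989) (nat_lit 0) .nil))))))) (.g (nat_lit 4) .nil .nil))) 
(.lf (nat_lit 126791) (.g (nat_lit 2239) (.e (nat_lit 7486) (nat_lit 402) (.e (nat_lit 1656) (nat_lit 115) (.e (nat_lit 393300) (nat_lit 27) (.e (nat_lit 491568) (nat_lit 13) (.e (nat_lit 393234) (nat_lit 17) .nil))))) .nil))) (.nd (nat_lit 6) 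
(.lf (nat_lit 126759) (.g (nat_lit 2081) (.e (nat_lit 7485) (nat_lit 402) (.e (nat_lit 1665) (nat_lit 115) (.e (nat_lit 393301) (nat_lit 27) (.e (nat_lit 491552) (nat_lit 9) (.e (nat_lit 336410) (nat_lit 27) (.e (nat_lit 425989) (nat_lit 0) .nil)))))) (.g (nat_lit 4) .nil .nil))) 
(.lf (nat_lit 126823) (.g (nat_lit 1268) (.e (nat_lit 7489) (nat_lit 402) (.e (nat_lit 1665) (nat_lit 115) (.e (nat_lit 393273) (nat_lit 23) (.e (nat_lit 426364) (nat_lit 15) (.e (nat_lit 2160) (nat_lit 143) .nil))))) .nil)))) (.nd (nat_lit 5) (.nd (nat_lit 6) 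
(.lf (nat_lit 126743) (.g (nat_lit 3307) (.e (nat_lit 7485) (nat_lit 402) (.e (nat_lit 1400) (nat_lit 106) (.e (nat_lit 319534) (nat_lit 16) (.e (nat_lit 286756) (nat_lit 10) (.e (nat_lit 344157) (nat_lit 36) (.e (nat_lit 646912) (nat_lit 5) (.e (nat_lit 2936) (nat_lit 184) (.e (nat_lit 425987) (nat_lit 0) .nil)))))))) (.g (nat_lit 5) .nil .nil))) 
(.lf (nat_lit 126807) (.g (nat_lit 3549) (.e (nat_lit 7489) (nat_lit 402) (.e (nat_lit 1256) (nat_lit 92) (.e (nat_lit 98359) (nat_lit 26) (.e (nat_lit 426286) (nat_lit 10) (.e (nat_lit 434245) (nat_lit 28) (.e (nat_lit 573450) (nat_lit 9) (.e (nat_lit 433) (nat_lit 32) (.e (nat_lit 425987) (nat_lit 0) .nil)))))))) (.g (nat_lit 0) .nil .nil)))) (.nd (nat_lit 6) 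
(.lf (nat_lit 126775) (.g (nat_lit 2024) (.e (nat_lit 7486) (nat_lit 402) (.e (nat_lit 1400) (nat_lit 106) (.e (nat_lit 319534) (nat_lit 16) (.e (nat_lit 286756) (nat_lit 10) (.e (nat_lit 344160) (nat_lit 37) .nil))))) .nil)) 
(.lf (nat_lit 126839) (.g (nat_lit 2293) (.e (nat_lit 7490) (nat_lit 402) (.e (nat_lit 1400) (nat_lit 106) (.e (nat_lit 319533) (nat_lit 16) (.e (nat_lit 286753) (nat_lit 10) (.e (nat_lit 344160) (nat_lit 37) (.e (nat_lit 647195) (nat_lit 9) (.e (nat_lit 426) (nat_lit 32) (.e (nat_lit 426009) (nat_lit 0) .nil)))))))) (.g (nat_lit 5) .nil .nil)))))) 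
(.nd (nat_lit 4) (.nd (nat_lit 5) (.nd (nat_lit 6) 
(.lf (nat_lit 126735) (.g (nat_lit 2497) (.e (nat_lit 7485) (nat_lit 402) (.e (nat_lit 1400) (nat_lit 106) (.e (nat_lit 319533) (nat_lit 16) (.e (nat_lit 286753) (nat_lit 10) (.e (nat_lit 344157) (nat_lit 36) .nil))))) .nil)) 
(.lf (nat_lit 126799) (.g (nat_lit 1951) (.e (nat_lit 7486) (nat_lit 402) (.e (nat_lit 1665) (nat_lit 115) (.e (nat_lit 393300) (nat_lit 27) (.e (nat_lit 491569) (nat_lit 13) (.e (nat_lit 393234) (nat_lit 17) .nil))))) .nil))) (.nd (nat_lit 6) 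
(.lf (nat_lit 126767) (.g (nat_lit 3318) (.e (nat_lit 7486) (nat_lit 402) (.e (nat_lit 1256) (nat_lit 92) (.e (nat_lit 98373) (nat_lit 29) (.e (nat_lit 450588) (nat_lit 10) (.e (nat_lit 573470) (nat_lit 11) (.e (nat_lit 16387) (nat_lit 0) .nil)))))) (.g (nat_lit 6) .nil .nil))) 
(.lf (nat_lit 126831) (.g (nat_lit 2333) (.e (nat_lit 7490) (nat_lit 402) (.e (nat_lit 1239) (nat_lit 91) (.e (nat_lit 90170) (nat_lit 13) (.e (nat_lit 172110) (nat_lit 10) (.e (nat_lit 434248) (nat_lit 28) .nil))))) .nil)))) (.nd (nat_lit 5) (.nd (nat_lit 6) 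
(.lf (nat_lit 126751) (.g (nat_lit 1284) (.e (nat_lit 7485) (nat_lit 402) (.e (nat_lit 1401) (nat_lit 106) (.e (nat_lit 319534) (nat_lit 16) (.e (nat_lit 286756) (nat_lit 10) .nil)))) .nil)) 
(.lf (nat_lit 126815) (.g (nat_lit 2470) (.e (nat_lit 7489) (nat_lit 402) (.e (nat_lit 1400) (nat_lit 106) (.e (nat_lit 319533) (nat_lit 16) (.e (nat_lit 286753) (nat_lit 10) (.e (nat_lit 344157) (nat_lit 36) .nil))))) .nil))) (.nd (nat_lit 6) 
(.lf (nat_lit 126783) (.g (nat_lit 779) (.e (nat_lit 7486) (nat_lit 402) (.e (nat_lit 1550) (nat_lit 109) (.e (nat_lit 344126) (nat_lit 25) (.e (nat_lit 548891) (nat_lit 11) .nil)))) .nil)) 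
(.lf (nat_lit 126847) (.g (nat_lit 1961) (.e (nat_lit 7490) (nat_lit 402) (.e (nat_lit 1422) (nat_lit 108) (.e (nat_lit 336369) (nat_lit 27) (.e (nat_lit 426173) (nat_lit 7) (.e (nat_lit 409617) (nat_lit 10) .nil))))) .nil)))))))))

noncomputable def tv1702 : DT := (.nd (nat_lit 0) (.nd (nat_lit 1) (.nd (nat_lit 2) (.nd (nat_lit 3) (.nd (nat_lit 4) (.nd (nat_lit 5) (.nd (nat_lit 6) 
(.lf (nat_lit 126848) (.g (nat_lit 2485) (.e (nat_lit 7490) (nat_lit 402) (.e (nat_lit 1642) (nat_lit 114) (.e (nat_lit 385074) (nat_lit 31) (.e (nat_lit 573482) (nat_lit 13) (.e (nat_lit 65619) (nat_lit 10) .nil))))) .nil)) 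
(.lf (nat_lit 126912) (.g (nat_lit 2123) (.e (nat_lit 7496) (nat_lit 402) (.e (nat_lit 1400) (nat_lit 106) (.e (nat_lit 319534) (nat_lit 16) (.e (nat_lit 286756) (nat_lit 10) (.e (nat_lit 344156) (nat_lit 36) .nil))))) .nil))) (.nd (nat_lit 6) 
(.lf (nat_lit 126880) (.g (nat_lit 2295) (.e (nat_lit 7491) (nat_lit 402) (.e (nat_lit 1656) (nat_lit 115) (.e (nat_lit 393300) (nat_lit 27) (.e (nat_lit 491569) (nat_lit 13) (.e (nat_lit 393233) (nat_lit 17) .nil))))) .nil)) 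
(.lf (nat_lit 126944) (.g (nat_lit 2037) (.e (nat_lit 7513) (nat_lit 402) (.e (nat_lit 1660) (nat_lit 115) (.e (nat_lit 393297) (nat_lit 27) (.e (nat_lit 491571) (nat_lit 13) (.e (nat_lit 393231) (nat_lit 17) .nil))))) .nil)))) (.nd (nat_lit 5) (.nd (nat_lit 6) 
(.lf (nat_lit 126864) (.g (nat_lit 1559) (.e (nat_lit 7491) (nat_lit 402) (.e (nat_lit 1656) (nat_lit 115) (.e (nat_lit 393234) (nat_lit 17) (.e (nat_lit 7486) (nat_lit 402) .nil)))) .nil)) 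
(.lf (nat_lit 126928) (.g (nat_lit 2229) (.e (nat_lit 7501) (nat_lit 402) (.e (nat_lit 1646) (nat_lit 115) (.e (nat_lit 393298) (nat_lit 27) (.e (nat_lit 491571) (nat_lit 13) (.e (nat_lit 393238) (nat_lit 17) .nil))))) .nil))) (.nd (nat_lit 6) 
(.lf (nat_lit 126896) (.g (nat_lit 1568) (.e (nat_lit 7493) (nat_lit 402) (.e (nat_lit 1656) (nat_lit 115) (.e (nat_lit 393234) (nat_lit 17) (.e (nat_lit 7589) (nat_lit 406) .nil)))) .nil)) 
(.lf (nat_lit 126960) (.g (nat_lit 2033) (.e (nat_lit 7517) (nat_lit 402) (.e (nat_lit 1658) (nat_lit 115) (.e (nat_lit 393301) (nat_lit 27) (.e (nat_lit 491567) (nat_lit 13) (.e (nat_lit 393237) (nat_lit 17) .nil))))) .nil))))) (.nd (nat_lit 4) (.nd (nat_lit 5) (.nd (nat_lit 6) 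
(.lf (nat_lit 126856) (.g (nat_lit 1086) (.e (nat_lit 7490) (nat_lit 402) (.e (nat_lit 1665) (nat_lit 115) (.e (nat_lit 393301) (nat_lit 27) (.e (nat_lit 491546) (nat_lit 9) .nil)))) .nil)) 
(.lf (nat_lit 126920) (.g (nat_lit 445) (.e (nat_lit 7497) (nat_lit 402) (.e (nat_lit 1401) (nat_lit 106) (.e (nat_lit 319534) (nat_lit 16) .nil))) .nil))) (.nd (nat_lit 6) 
(.lf (nat_lit 126888) (.g (nat_lit 2456) (.e (nat_lit 7491) (nat_lit 402) (.e (nat_lit 1656) (nat_lit 115) (.e (nat_lit 393301) (nat_lit 27) (.e (nat_lit 491567) (nat_lit 13) (.e (nat_lit 393234) (nat_lit 17) .nil))))) .nil)) 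
(.lf (nat_lit 126952) (.g (nat_lit 2734) (.e (nat_lit 7513) (nat_lit 402) (.e (nat_lit 1661) (nat_lit 115) (.e (nat_lit 393260) (nat_lit 21) (.e (nat_lit 409617) (nat_lit 10) (.e (nat_lit 7936) (nat_lit 300) .nil))))) .nil)))) (.nd (nat_lit 5) (.nd (nat_lit 6) 
(.lf (nat_lit 126872) (.g (nat_lit 2403) (.e (nat_lit 7491) (nat_lit 402) (.e (nat_lit 1656) (nat_lit 115) (.e (nat_lit 393298) (nat_lit 27) (.e (nat_lit 491569) (nat_lit 13) (.e (nat_lit 393234) (nat_lit 17) .nil))))) .nil)) 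
(.lf (nat_lit 126936) (.g (nat_lit 2318) (.e (nat_lit 7511) (nat_lit 402) (.e (nat_lit 1661) (nat_lit 115) (.e (nat_lit 393297) (nat_lit 27) (.e (nat_lit 491571) (nat_lit 13) (.e (nat_lit 393231) (nat_lit 17) .nil))))) .nil))) (.nd (nat_lit 6) 
(.lf (nat_lit 126904) (.g (nat_lit 2727) (.e (nat_lit 7493) (nat_lit 402) (.e (nat_lit 1656) (nat_lit 115) (.e (nat_lit 393301) (nat_lit 27) (.e (nat_lit 491568) (nat_lit 13) (.e (nat_lit 393233) (nat_lit 17) .nil))))) .nil)) 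
(.lf (nat_lit 126968) (.g (nat_lit 1953) (.e (nat_lit 7521) (nat_lit 402) (.e (nat_lit 1658) (nat_lit 115) (.e (nat_lit 393298) (nat_lit 27) (.e (nat_lit 491570) (nat_lit 13) (.e (nat_lit 393238) (nat_lit 17) .nil))))) .nil)))))) (.nd (nat_lit 3) (.nd (nat_lit 4) (.nd (nat_lit 5) (.nd (nat_lit 6) 
(.lf (nat_lit 126852) (.g (nat_lit 1522) (.e (nat_lit 7490) (nat_lit 402) (.e (nat_lit 1654) (nat_lit 115) (.e (nat_lit 393301) (nat_lit 27) (.e (nat_lit 491552) (nat_lit 9) .nil)))) .nil)) 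
(.lf (nat_lit 126916) (.g (nat_lit 2348) (.e (nat_lit 7496) (nat_lit 402) (.e (nat_lit 1401) (nat_lit 106) (.e (nat_lit 319534) (nat_lit 16) (.e (nat_lit 286756) (nat_lit 10) (.e (nat_lit 344157) (nat_lit 36) .nil))))) .nil))) (.nd (nat_lit 6) 
(.lf (nat_lit 126884) (.g (nat_lit 1996) (.e (nat_lit 7491) (nat_lit 402) (.e (nat_lit 1656) (nat_lit 115) (.e (nat_lit 393301) (nat_lit 27) (.e (nat_lit 491552) (nat_lit 9) .nil)))) .nil)) 
(.lf (nat_lit 126948) (.g (nat_lit 519) (.e (nat_lit 7513) (nat_lit 402) (.e (nat_lit 1661) (nat_lit 115) (.e (nat_lit 393238) (nat_lit 17) .nil))) .nil)))) (.nd (nat_lit 5) (.nd (nat_lit 6) 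
(.lf (nat_lit 126868) (.g (nat_lit 2556) (.e (nat_lit 7491) (nat_lit 402) (.e (nat_lit 1656) (nat_lit 115) (.e (nat_lit 393291) (nat_lit 26) (.e (nat_lit 475210) (nat_lit 41) (.e (nat_lit 712745) (nat_lit 27) .nil))))) .nil)) 
(.lf (nat_lit 126932) (.g (nat_lit 2361) (.e (nat_lit 7511) (nat_lit 402) (.e (nat_lit 1660) (nat_lit 115) (.e (nat_lit 393260) (nat_lit 21) (.e (nat_lit 409616) (nat_lit 10) (.e (nat_lit 7936) (nat_lit 300) .nil))))) .nil))) (.nd (nat_lit 6) 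
(.lf (nat_lit 126900) (.g (nat_lit 2213) (.e (nat_lit 7493) (nat_lit 402) (.e (nat_lit 1656) (nat_lit 115) (.e (nat_lit 393300) (nat_lit 27) (.e (nat_lit 491568) (nat_lit 13) (.e (nat_lit 393230) (nat_lit 17) .nil))))) .nil)) 
(.lf (nat_lit 126964) (.g (nat_lit 1453) (.e (nat_lit 7518) (nat_lit 402) (.e (nat_lit 1659) (nat_lit 115) (.e (nat_lit 393301) (nat_lit 27) (.e (nat_lit 491568) (nat_lit 13) .nil)))) .nil))))) (.nd (nat_lit 4) (.nd (nat_lit 5) (.nd (nat_lit 6) 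
(.lf (nat_lit 126860) (.g (nat_lit 3006) (.e (nat_lit 7491) (nat_lit 402) (.e (nat_lit 1454) (nat_lit 108) (.e (nat_lit 336295) (nat_lit 15) (.e (nat_lit 3305) (nat_lit 202) (.e (nat_lit 573491) (nat_lit 15) .nil))))) .nil)) 
(.lf (nat_lit 126924) (.g (nat_lit 1674) (.e (nat_lit 7499) (nat_lit 402) (.e (nat_lit 1664) (nat_lit 115) (.e (nat_lit 393301) (nat_lit 27) (.e (nat_lit 491552) (nat_lit 9) (.e (nat_lit 336412) (nat_lit 27) .nil))))) .nil))) (.nd (nat_lit 6) 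
(.lf (nat_lit 126892) (.g (nat_lit 3096) (.e (nat_lit 7493) (nat_lit 402) (.e (nat_lit 1454) (nat_lit 108) (.e (nat_lit 336295) (nat_lit 15) (.e (nat_lit 3305) (nat_lit 202) (.e (nat_lit 573479) (nat_lit 13) .nil))))) .nil)) 
(.lf (nat_lit 126956) (.g (nat_lit 1305) (.e (nat_lit 7515) (nat_lit 402) (.e (nat_lit 1659) (nat_lit 115) (.e (nat_lit 393301) (nat_lit 27) (.e (nat_lit 491567) (nat_lit 13) .nil)))) .nil)))) (.nd (nat_lit 5) (.nd (nat_lit 6) 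
(.lf (nat_lit 126876) (.g (nat_lit 1346) (.e (nat_lit 7491) (nat_lit 402) (.e (nat_lit 1656) (nat_lit 115) (.e (nat_lit 393300) (nat_lit 27) (.e (nat_lit 491567) (nat_lit 13) .nil)))) .nil)) 
(.lf (nat_lit 126940) (.g (nat_lit 793) (.e (nat_lit 7513) (nat_lit 402) (.e (nat_lit 1428) (nat_lit 108) (.e (nat_lit 336369) (nat_lit 27) (.e (nat_lit 426173) (nat_lit 7) .nil)))) .nil))) (.nd (nat_lit 6) 
(.lf (nat_lit 126908) (.g (nat_lit 1180) (.e (nat_lit 7496) (nat_lit 402) (.e (nat_lit 1399) (nat_lit 106) (.e (nat_lit 319533) (nat_lit 16) (.e (nat_lit 286753) (nat_lit 10) (.e (nat_lit 344157) (nat_lit 36) .nil))))) .nil)) 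
(.lf (nat_lit 126972) (.g (nat_lit 1337) (.e (nat_lit 7522) (nat_lit 402) (.e (nat_lit 1427) (nat_lit 108) (.e (nat_lit 336369) (nat_lit 27) (.e (nat_lit 426173) (nat_lit 7) .nil)))) .nil))))))) (.nd (nat_lit 2) (.nd (nat_lit 3) (.nd (nat_lit 4) (.nd (nat_lit 5) (.nd (nat_lit 6) 
(.lf (nat_lit 126850) (.g (nat_lit 2617) (.e (nat_lit 7490) (nat_lit 402) (.e (nat_lit 1654) (nat_lit 115) (.e (nat_lit 393260) (nat_lit 21) (.e (nat_lit 409616) (nat_lit 10) (.e (nat_lit 7936) (nat_lit 300) (.e (nat_lit 16388) (nat_lit 0) .nil)))))) (.g (nat_lit 4) .nil .nil))) 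
(.lf (nat_lit 126914) (.g (nat_lit 1602) (.e (nat_lit 7496) (nat_lit 402) (.e (nat_lit 1401) (nat_lit 106) (.e (nat_lit 319533) (nat_lit 16) (.e (nat_lit 286753) (nat_lit 10) (.e (nat_lit 344157) (nat_lit 36) .nil))))) .nil))) (.nd (nat_lit 6) 
(.lf (nat_lit 126882) (.g (nat_lit 3075) (.e (nat_lit 7491) (nat_lit 402) (.e (nat_lit 1656) (nat_lit 115) (.e (nat_lit 393300) (nat_lit 27) (.e (nat_lit 491570) (nat_lit 13) (.e (nat_lit 393231) (nat_lit 17) .nil))))) .nil)) 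
(.lf (nat_lit 126946) (.g (nat_lit 2379) (.e (nat_lit 7513) (nat_lit 402) (.e (nat_lit 1660) (nat_lit 115) (.e (nat_lit 393298) (nat_lit 27) (.e (nat_lit 491571) (nat_lit 13) (.e (nat_lit 393232) (nat_lit 17) .nil))))) .nil)))) (.nd (nat_lit 5) (.nd (nat_lit 6) 
(.lf (nat_lit 126866) (.g (nat_lit 1634) (.e (nat_lit 7491) (nat_lit 402) (.e (nat_lit 1656) (nat_lit 115) (.e (nat_lit 393234) (nat_lit 17) (.e (nat_lit 7491) (nat_lit 402) .nil)))) .nil)) 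
(.lf (nat_lit 126930) (.g (nat_lit 2589) (.e (nat_lit 7510) (nat_lit 402) (.e (nat_lit 1661) (nat_lit 115) (.e (nat_lit 393260) (nat_lit 21) (.e (nat_lit 409616) (nat_lit 10) .nil)))) .nil))) (.nd (nat_lit 6) 
(.lf (nat_lit 126898) (.g (nat_lit 1380) (.e (nat_lit 7493) (nat_lit 402) (.e (nat_lit 1656) (nat_lit 115) (.e (nat_lit 393300) (nat_lit 27) (.e (nat_lit 491567) (nat_lit 13) .nil)))) .nil)) 
(.lf (nat_lit 126962) (.g (nat_lit 3224) (.e (nat_lit 7517) (nat_lit 402) (.e (nat_lit 1659) (nat_lit 115) (.e (nat_lit 393301) (nat_lit 27) (.e (nat_lit 491568) (nat_lit 13) (.e (nat_lit 393230) (nat_lit 17) .nil))))) .nil))))) (.nd (nat_lit 4) (.nd (nat_lit 5) (.nd (nat_lit 6) 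
(.lf (nat_lit 126858) (.g (nat_lit 1761) (.e (nat_lit 7490) (nat_lit 402) (.e (nat_lit 1669) (nat_lit 116) (.e (nat_lit 401425) (nat_lit 2) (.e (nat_lit 204544) (nat_lit 15) .nil)))) .nil)) 
(.lf (nat_lit 126922) (.g (nat_lit 1563) (.e (nat_lit 7497) (nat_lit 402) (.e (nat_lit 1669) (nat_lit 116) (.e (nat_lit 401425) (nat_lit 2) (.e (nat_lit 196672) (nat_lit 15) .nil)))) .nil))) (.nd (nat_lit 6) 
(.lf (nat_lit 126890) (.g (nat_lit 1657) (.e (nat_lit 7491) (nat_lit 402) (.e (nat_lit 1656) (nat_lit 115) (.e (nat_lit 393301) (nat_lit 27) (.e (nat_lit 499456) (nat_lit 13) .nil)))) .nil)) 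
(.lf (nat_lit 126954) (.g (nat_lit 2363) (.e (nat_lit 7514) (nat_lit 402) (.e (nat_lit 1660) (nat_lit 115) (.e (nat_lit 393260) (nat_lit 21) (.e (nat_lit 409616) (nat_lit 10) (.e (nat_lit 7936) (nat_lit 300) .nil))))) .nil)))) (.nd (nat_lit 5) (.nd (nat_lit 6) 
(.lf (nat_lit 126874) (.g (nat_lit 2792) (.e (nat_lit 7491) (nat_lit 402) (.e (nat_lit 1656) (nat_lit 115) (.e (nat_lit 393298) (nat_lit 27) (.e (nat_lit 491571) (nat_lit 13) (.e (nat_lit 393231) (nat_lit 17) .nil))))) .nil)) 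
(.lf (nat_lit 126938) (.g (nat_lit 2253) (.e (nat_lit 7512) (nat_lit 402) (.e (nat_lit 1661) (nat_lit 115) (.e (nat_lit 393260) (nat_lit 21) (.e (nat_lit 409617) (nat_lit 10) .nil)))) .nil))) (.nd (nat_lit 6) 
(.lf (nat_lit 126906) (.g (nat_lit 1625) (.e (nat_lit 7495) (nat_lit 402) (.e (nat_lit 1530) (nat_lit 109) (.e (nat_lit 344126) (nat_lit 25) (.e (nat_lit 548874) (nat_lit 5) (.e (nat_lit 1598) (nat_lit 111) .nil))))) .nil)) 
(.lf (nat_lit 126970) (.g (nat_lit 2055) (.e (nat_lit 7521) (nat_lit 402) (.e (nat_lit 1659) (nat_lit 115) (.e (nat_lit 393299) (nat_lit 27) (.e (nat_lit 491570) (nat_lit 13) (.e (nat_lit 393238) (nat_lit 17) .nil))))) .nil)))))) (.nd (nat_lit 3) (.nd (nat_lit 4) (.nd (nat_lit 5) (.nd (nat_lit 6) 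
(.lf (nat_lit 126854) (.g (nat_lit 1038) (.e (nat_lit 7490) (nat_lit 402) (.e (nat_lit 1665) (nat_lit 115) (.e (nat_lit 393234) (nat_lit 17) (.e (nat_lit 7545) (nat_lit 402) (.e (nat_lit 1664) (nat_lit 115) .nil))))) .nil)) 
(.lf (nat_lit 126918) (.g (nat_lit 1212) (.e (nat_lit 7496) (nat_lit 402) (.e (nat_lit 1648) (nat_lit 115) (.e (nat_lit 393294) (nat_lit 26) (.e (nat_lit 475210) (nat_lit 41) .nil)))) .nil))) (.nd (nat_lit 6) 
(.lf (nat_lit 126886) (.g (nat_lit 2766) (.e (nat_lit 7491) (nat_lit 402) (.e (nat_lit 1656) (nat_lit 115) (.e (nat_lit 393301) (nat_lit 27) (.e (nat_lit 491556) (nat_lit 9) (.e (nat_lit 336390) (nat_lit 27) .nil))))) .nil)) 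
(.lf (nat_lit 126950) (.g (nat_lit 1784) (.e (nat_lit 7513) (nat_lit 402) (.e (nat_lit 1661) (nat_lit 115) (.e (nat_lit 393260) (nat_lit 21) (.e (nat_lit 409616) (nat_lit 10) .nil)))) .nil)))) (.nd (nat_lit 5) (.nd (nat_lit 6) 
(.lf (nat_lit 126870) (.g (nat_lit 473) (.e (nat_lit 7491) (nat_lit 402) (.e (nat_lit 1656) (nat_lit 115) (.e (nat_lit 393298) (nat_lit 27) .nil))) .nil)) 
(.lf (nat_lit 126934) (.g (nat_lit 3035) (.e (nat_lit 7511) (nat_lit 402) (.e (nat_lit 1661) (nat_lit 115) (.e (nat_lit 393260) (nat_lit 21) (.e (nat_lit 409617) (nat_lit 10) (.e (nat_lit 5353) (nat_lit 298) .nil))))) .nil))) (.nd (nat_lit 6) 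
(.lf (nat_lit 126902) (.g (nat_lit 1515) (.e (nat_lit 7493) (nat_lit 402) (.e (nat_lit 1656) (nat_lit 115) (.e (nat_lit 393301) (nat_lit 27) (.e (nat_lit 491568) (nat_lit 13) .nil)))) .nil)) 
(.lf (nat_lit 126966) (.g (nat_lit 3525) (.e (nat_lit 7521) (nat_lit 402) (.e (nat_lit 1235) (nat_lit 91) (.e (nat_lit 90170) (nat_lit 13) (.e (nat_lit 172113) (nat_lit 10) (.e (nat_lit 434245) (nat_lit 28) (.e (nat_lit 573471) (nat_lit 11) (.e (nat_lit 16392) (nat_lit 0) .nil))))))) (.g (nat_lit 7) .nil .nil)))))) (.nd (nat_lit 4) (.nd (nat_lit 5) (.nd (nat_lit 6) 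
(.lf (nat_lit 126862) (.g (nat_lit 2387) (.e (nat_lit 7491) (nat_lit 402) (.e (nat_lit 1633) (nat_lit 114) (.e (nat_lit 385074) (nat_lit 31) (.e (nat_lit 573491) (nat_lit 15) (.e (nat_lit 81954) (nat_lit 23) .nil))))) .nil)) 
(.lf (nat_lit 126926) (.g (nat_lit 2164) (.e (nat_lit 7500) (nat_lit 402) (.e (nat_lit 1658) (nat_lit 115) (.e (nat_lit 393297) (nat_lit 27) (.e (nat_lit 491571) (nat_lit 13) (.e (nat_lit 393231) (nat_lit 17) .nil))))) (.g (nat_lit 5) .nil .nil)))) (.nd (nat_lit 6) 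
(.lf (nat_lit 126894) (.g (nat_lit 2464) (.e (nat_lit 7493) (nat_lit 402) (.e (nat_lit 1633) (nat_lit 114) (.e (nat_lit 385074) (nat_lit 31) (.e (nat_lit 573491) (nat_lit 15) .nil)))) .nil)) 
(.lf (nat_lit 126958) (.g (nat_lit 1179) (.e (nat_lit 7517) (nat_lit 402) (.e (nat_lit 1252) (nat_lit 92) (.e (nat_lit 98372) (nat_lit 29) (.e (nat_lit 450586) (nat_lit 10) (.e (nat_lit 573471) (nat_lit 11) .nil))))) .nil)))) (.nd (nat_lit 5) (.nd (nat_lit 6) 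
(.lf (nat_lit 126878) (.g (nat_lit 1681) (.e (nat_lit 7491) (nat_lit 402) (.e (nat_lit 1656) (nat_lit 115) (.e (nat_lit 393300) (nat_lit 27) (.e (nat_lit 491567) (nat_lit 13) (.e (nat_lit 393234) (nat_lit 17) .nil))))) .nil)) 
(.lf (nat_lit 126942) (.g (nat_lit 1170) (.e (nat_lit 7513) (nat_lit 402) (.e (nat_lit 1658) (nat_lit 115) (.e (nat_lit 393301) (nat_lit 27) (.e (nat_lit 491567) (nat_lit 13) .nil)))) .nil))) (.nd (nat_lit 6) 
(.lf (nat_lit 126910) (.g (nat_lit 1840) (.e (nat_lit 7496) (nat_lit 402) (.e (nat_lit 1400) (nat_lit 106) (.e (nat_lit 319533) (nat_lit 16) (.e (nat_lit 286753) (nat_lit 10) (.e (nat_lit 344154) (nat_lit 35) .nil))))) .nil)) 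
(.lf (nat_lit 126974) (.g (nat_lit 1607) (.e (nat_lit 7523) (nat_lit 402) (.e (nat_lit 1427) (nat_lit 108) (.e (nat_lit 336421) (nat_lit 28) (.e (nat_lit 442112) (nat_lit 4) .nil)))) .nil)))))))) (.nd (nat_lit 1) (.nd (nat_lit 2) (.nd (nat_lit 3) (.nd (nat_lit 4) (.nd (nat_lit 5) (.nd (nat_lit 6) 
(.lf (nat_lit 126849) (.g (nat_lit 1450) (.e (nat_lit 7490) (nat_lit 402) (.e (nat_lit 1653) (nat_lit 115) (.e (nat_lit 393301) (nat_lit 27) (.e (nat_lit 491552) (nat_lit 9) .nil)))) .nil)) 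
(.lf (nat_lit 126913) (.g (nat_lit 2053) (.e (nat_lit 7496) (nat_lit 402) (.e (nat_lit 1400) (nat_lit 106) (.e (nat_lit 319534) (nat_lit 16) (.e (nat_lit 286756) (nat_lit 10) (.e (nat_lit 344157) (nat_lit 36) .nil))))) .nil))) (.nd (nat_lit 6) 
(.lf (nat_lit 126881) (.g (nat_lit 3041) (.e (nat_lit 7491) (nat_lit 402) (.e (nat_lit 1656) (nat_lit 115) (.e (nat_lit 393300) (nat_lit 27) (.e (nat_lit 491570) (nat_lit 13) (.e (nat_lit 393230) (nat_lit 17) .nil))))) .nil)) 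
(.lf (nat_lit 126945) (.g (nat_lit 1068) (.e (nat_lit 7513) (nat_lit 402) (.e (nat_lit 1660) (nat_lit 115) (.e (nat_lit 393298) (nat_lit 27) (.e (nat_lit 491570) (nat_lit 13) .nil)))) .nil)))) (.nd (nat_lit 5) (.nd (nat_lit 6) 
(.lf (nat_lit 126865) (.g (nat_lit 1996) (.e (nat_lit 7491) (nat_lit 402) (.e (nat_lit 1656) (nat_lit 115) (.e (nat_lit 393234) (nat_lit 17) (.e (nat_lit 7490) (nat_lit 402) (.e (nat_lit 1665) (nat_lit 115) .nil))))) .nil)) 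
(.lf (nat_lit 126929) (.g (nat_lit 901) (.e (nat_lit 7501) (nat_lit 402) (.e (nat_lit 1647) (nat_lit 115) (.e (nat_lit 393298) (nat_lit 27) (.e (nat_lit 491570) (nat_lit 13) .nil)))) .nil))) (.nd (nat_lit 6) 
(.lf (nat_lit 126897) (.g (nat_lit 535) (.e (nat_lit 7493) (nat_lit 402) (.e (nat_lit 1656) (nat_lit 115) (.e (nat_lit 393300) (nat_lit 27) .nil))) .nil)) 
(.lf (nat_lit 126961) (.g (nat_lit 2526) (.e (nat_lit 7517) (nat_lit 402) (.e (nat_lit 1658) (nat_lit 115) (.e (nat_lit 393301) (nat_lit 27) (.e (nat_lit 491568) (nat_lit 13) (.e (nat_lit 393230) (nat_lit 17) .nil))))) .nil))))) (.nd (nat_lit 4) (.nd (nat_lit 5) (.nd (nat_lit 6) 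
(.lf (nat_lit 126857) (.g (nat_lit 2314) (.e (nat_lit 7490) (nat_lit 402) (.e (nat_lit 1669) (nat_lit 116) (.e (nat_lit 401425) (nat_lit 2) (.e (nat_lit 196671) (nat_lit 15) .nil)))) .nil)) 
(.lf (nat_lit 126921) (.g (nat_lit 2400) (.e (nat_lit 7497) (nat_lit 402) (.e (nat_lit 1401) (nat_lit 106) (.e (nat_lit 319534) (nat_lit 16) (.e (nat_lit 286756) (nat_lit 10) (.e (nat_lit 344156) (nat_lit 36) .nil))))) .nil))) (.nd (nat_lit 6) 
(.lf (nat_lit 126889) (.g (nat_lit 2749) (.e (nat_lit 7491) (nat_lit 402) (.e (nat_lit 1656) (nat_lit 115) (.e (nat_lit 393301) (nat_lit 27) (.e (nat_lit 491568) (nat_lit 13) (.e (nat_lit 393231) (nat_lit 17) .nil))))) .nil)) 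
(.lf (nat_lit 126953) (.g (nat_lit 1411) (.e (nat_lit 7513) (nat_lit 402) (.e (nat_lit 1661) (nat_lit 115) (.e (nat_lit 393299) (nat_lit 27) (.e (nat_lit 491568) (nat_lit 13) .nil)))) .nil)))) (.nd (nat_lit 5) (.nd (nat_lit 6) 
(.lf (nat_lit 126873) (.g (nat_lit 2238) (.e (nat_lit 7491) (nat_lit 402) (.e (nat_lit 1656) (nat_lit 115) (.e (nat_lit 393298) (nat_lit 27) (.e (nat_lit 491570) (nat_lit 13) (.e (nat_lit 393232) (nat_lit 17) .nil))))) .nil)) 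
(.lf (nat_lit 126937) (.g (nat_lit 2674) (.e (nat_lit 7512) (nat_lit 402) (.e (nat_lit 1661) (nat_lit 115) (.e (nat_lit 393260) (nat_lit 21) (.e (nat_lit 409616) (nat_lit 10) .nil)))) .nil))) (.nd (nat_lit 6) 
(.lf (nat_lit 126905) (.g (nat_lit 925) (.e (nat_lit 7495) (nat_lit 402) (.e (nat_lit 1437) (nat_lit 108) (.e (nat_lit 336295) (nat_lit 15) (.e (nat_lit 7936) (nat_lit 377) .nil)))) .nil)) 
(.lf (nat_lit 126969) (.g (nat_lit 957) (.e (nat_lit 7521) (nat_lit 402) (.e (nat_lit 1658) (nat_lit 115) (.e (nat_lit 393300) (nat_lit 27) (.e (nat_lit 491570) (nat_lit 13) .nil)))) .nil)))))) (.nd (nat_lit 3) (.nd (nat_lit 4) (.nd (nat_lit 5) (.nd (nat_lit 6) 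
(.lf (nat_lit 126853) (.g (nat_lit 2541) (.e (nat_lit 7490) (nat_lit 402) (.e (nat_lit 1655) (nat_lit 115) (.e (nat_lit 393298) (nat_lit 27) (.e (nat_lit 491571) (nat_lit 13) (.e (nat_lit 393232) (nat_lit 17) .nil))))) .nil)) 
(.lf (nat_lit 126917) (.g (nat_lit 1394) (.e (nat_lit 7496) (nat_lit 402) (.e (nat_lit 1535) (nat_lit 109) (.e (nat_lit 344117) (nat_lit 21) (.e (nat_lit 516139) (nat_lit 7) .nil)))) .nil))) (.nd (nat_lit 6) 
(.lf (nat_lit 126885) (.g (nat_lit 2723) (.e (nat_lit 7491) (nat_lit 402) (.e (nat_lit 1656) (nat_lit 115) (.e (nat_lit 393301) (nat_lit 27) (.e (nat_lit 491552) (nat_lit 9) (.e (nat_lit 336412) (nat_lit 27) .nil))))) .nil)) 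
(.lf (nat_lit 126949) (.g (nat_lit 1492) (.e (nat_lit 7513) (nat_lit 402) (.e (nat_lit 1661) (nat_lit 115) (.e (nat_lit 393238) (nat_lit 17) (.e (nat_lit 7537) (nat_lit 402) .nil)))) .nil)))) (.nd (nat_lit 5) (.nd (nat_lit 6) 
(.lf (nat_lit 126869) (.g (nat_lit 2468) (.e (nat_lit 7491) (nat_lit 402) (.e (nat_lit 1656) (nat_lit 115) (.e (nat_lit 393297) (nat_lit 27) (.e (nat_lit 491571) (nat_lit 13) (.e (nat_lit 393231) (nat_lit 17) .nil))))) .nil)) 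
(.lf (nat_lit 126933) (.g (nat_lit 2796) (.e (nat_lit 7511) (nat_lit 402) (.e (nat_lit 1661) (nat_lit 115) (.e (nat_lit 393260) (nat_lit 21) (.e (nat_lit 409616) (nat_lit 10) (.e (nat_lit 7936) (nat_lit 300) .nil))))) .nil))) (.nd (nat_lit 6) 
(.lf (nat_lit 126901) (.g (nat_lit 1883) (.e (nat_lit 7493) (nat_lit 402) (.e (nat_lit 1656) (nat_lit 115) (.e (nat_lit 393301) (nat_lit 27) (.e (nat_lit 491567) (nat_lit 13) .nil)))) .nil)) 
(.lf (nat_lit 126965) (.g (nat_lit 1167) (.e (nat_lit 7519) (nat_lit 402) (.e (nat_lit 1658) (nat_lit 115) (.e (nat_lit 393301) (nat_lit 27) (.e (nat_lit 491567) (nat_lit 13) .nil)))) .nil))))) (.nd (nat_lit 4) (.nd (nat_lit 5) (.nd (nat_lit 6) 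
(.lf (nat_lit 126861) (.g (nat_lit 819) (.e (nat_lit 7491) (nat_lit 402) (.e (nat_lit 1530) (nat_lit 109) (.e (nat_lit 344126) (nat_lit 25) (.e (nat_lit 548872) (nat_lit 5) .nil)))) .nil)) 
(.lf (nat_lit 126925) (.g (nat_lit 2386) (.e (nat_lit 7500) (nat_lit 402) (.e (nat_lit 1641) (nat_lit 114) (.e (nat_lit 385074) (nat_lit 31) (.e (nat_lit 573482) (nat_lit 13) (.e (nat_lit 65619) (nat_lit 10) .nil))))) .nil))) (.nd (nat_lit 6) 
(.lf (nat_lit 126893) (.g (nat_lit 1387) (.e (nat_lit 7493) (nat_lit 402) (.e (nat_lit 1454) (nat_lit 108) (.e (nat_lit 336389) (nat_lit 27) (.e (nat_lit 426343) (nat_lit 14) .nil)))) .nil)) 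
(.lf (nat_lit 126957) (.g (nat_lit 2299) (.e (nat_lit 7515) (nat_lit 402) (.e (nat_lit 1660) (nat_lit 115) (.e (nat_lit 393260) (nat_lit 21) (.e (nat_lit 409616) (nat_lit 10) (.e (nat_lit 7936) (nat_lit 300) .nil))))) .nil)))) (.nd (nat_lit 5) (.nd (nat_lit 6) 
(.lf (nat_lit 126877) (.g (nat_lit 1859) (.e (nat_lit 7491) (nat_lit 402) (.e (nat_lit 1656) (nat_lit 115) (.e (nat_lit 393300) (nat_lit 27) (.e (nat_lit 491567) (nat_lit 13) (.e (nat_lit 393231) (nat_lit 17) .nil))))) .nil)) 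
(.lf (nat_lit 126941) (.g (nat_lit 1245) (.e (nat_lit 7513) (nat_lit 402) (.e (nat_lit 1428) (nat_lit 108) (.e (nat_lit 336369) (nat_lit 27) (.e (nat_lit 426339) (nat_lit 14) .nil)))) .nil))) (.nd (nat_lit 6) 
(.lf (nat_lit 126909) (.g (nat_lit 1334) (.e (nat_lit 7496) (nat_lit 402) (.e (nat_lit 1400) (nat_lit 106) (.e (nat_lit 319533) (nat_lit 16) (.e (nat_lit 286753) (nat_lit 10) .nil)))) .nil)) 
(.lf (nat_lit 126973) (.g (nat_lit 797) (.e (nat_lit 7523) (nat_lit 402) (.e (nat_lit 1427) (nat_lit 108) (.e (nat_lit 336421) (nat_lit 28) .nil))) .nil))))))) (.nd (nat_lit 2) (.nd (nat_lit 3) (.nd (nat_lit 4) (.nd (nat_lit 5) (.nd (nat_lit 6) 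
(.lf (nat_lit 126851) (.g (nat_lit 2585) (.e (nat_lit 7490) (nat_lit 402) (.e (nat_lit 1654) (nat_lit 115) (.e (nat_lit 393298) (nat_lit 27) (.e (nat_lit 491571) (nat_lit 13) (.e (nat_lit 393232) (nat_lit 17) .nil))))) .nil)) 
(.lf (nat_lit 126915) (.g (nat_lit 1284) (.e (nat_lit 7496) (nat_lit 402) (.e (nat_lit 1401) (nat_lit 106) (.e (nat_lit 319534) (nat_lit 16) (.e (nat_lit 286756) (nat_lit 10) .nil)))) .nil))) (.nd (nat_lit 6) 
(.lf (nat_lit 126883) (.g (nat_lit 1703) (.e (nat_lit 7491) (nat_lit 402) (.e (nat_lit 1656) (nat_lit 115) (.e (nat_lit 393301) (nat_lit 27) (.e (nat_lit 491546) (nat_lit 9) .nil)))) .nil)) 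
(.lf (nat_lit 126947) (.g (nat_lit 353) (.e (nat_lit 7513) (nat_lit 402) (.e (nat_lit 1660) (nat_lit 115) (.e (nat_lit 401152) (nat_lit 27) .nil))) .nil)))) (.nd (nat_lit 5) (.nd (nat_lit 6) 
(.lf (nat_lit 126867) (.g (nat_lit 1649) (.e (nat_lit 7491) (nat_lit 402) (.e (nat_lit 1656) (nat_lit 115) (.e (nat_lit 393234) (nat_lit 17) (.e (nat_lit 7538) (nat_lit 402) (.e (nat_lit 1661) (nat_lit 115) .nil))))) .nil)) 
(.lf (nat_lit 126931) (.g (nat_lit 2369) (.e (nat_lit 7511) (nat_lit 402) (.e (nat_lit 1638) (nat_lit 114) (.e (nat_lit 385074) (nat_lit 31) (.e (nat_lit 573491) (nat_lit 15) .nil)))) .nil))) (.nd (nat_lit 6) 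
(.lf (nat_lit 126899) (.g (nat_lit 1424) (.e (nat_lit 7493) (nat_lit 402) (.e (nat_lit 1656) (nat_lit 115) (.e (nat_lit 393300) (nat_lit 27) (.e (nat_lit 491568) (nat_lit 13) .nil)))) .nil)) 
(.lf (nat_lit 126963) (.g (nat_lit 1192) (.e (nat_lit 7518) (nat_lit 402) (.e (nat_lit 1234) (nat_lit 91) (.e (nat_lit 90176) (nat_lit 15) (.e (nat_lit 188439) (nat_lit 20) .nil)))) .nil))))) (.nd (nat_lit 4) (.nd (nat_lit 5) (.nd (nat_lit 6) 
(.lf (nat_lit 126859) (.g (nat_lit 3280) (.e (nat_lit 7491) (nat_lit 402) (.e (nat_lit 1454) (nat_lit 108) (.e (nat_lit 336295) (nat_lit 15) (.e (nat_lit 3305) (nat_lit 202) (.e (nat_lit 573490) (nat_lit 15) .nil))))) .nil)) 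
(.lf (nat_lit 126923) (.g (nat_lit 1734) (.e (nat_lit 7499) (nat_lit 402) (.e (nat_lit 1663) (nat_lit 115) (.e (nat_lit 393260) (nat_lit 21) (.e (nat_lit 409617) (nat_lit 10) (.e (nat_lit 5353) (nat_lit 298) .nil))))) .nil))) (.nd (nat_lit 6) 
(.lf (nat_lit 126891) (.g (nat_lit 1269) (.e (nat_lit 7492) (nat_lit 402) (.e (nat_lit 1656) (nat_lit 115) (.e (nat_lit 393300) (nat_lit 27) (.e (nat_lit 491569) (nat_lit 13) .nil)))) .nil)) 
(.lf (nat_lit 126955) (.g (nat_lit 1398) (.e (nat_lit 7515) (nat_lit 402) (.e (nat_lit 1532) (nat_lit 109) (.e (nat_lit 344126) (nat_lit 25) (.e (nat_lit 548874) (nat_lit 5) (.e (nat_lit 1598) (nat_lit 111) .nil))))) .nil)))) (.nd (nat_lit 5) (.nd (nat_lit 6) 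
(.lf (nat_lit 126875) (.g (nat_lit 2633) (.e (nat_lit 7491) (nat_lit 402) (.e (nat_lit 1656) (nat_lit 115) (.e (nat_lit 393300) (nat_lit 27) (.e (nat_lit 491556) (nat_lit 9) (.e (nat_lit 336390) (nat_lit 27) .nil))))) .nil)) 
(.lf (nat_lit 126939) (.g (nat_lit 1561) (.e (nat_lit 7513) (nat_lit 402) (.e (nat_lit 1427) (nat_lit 108) (.e (nat_lit 336421) (nat_lit 28) (.e (nat_lit 442112) (nat_lit 4) .nil)))) .nil))) (.nd (nat_lit 6) 
(.lf (nat_lit 126907) (.g (nat_lit 2159) (.e (nat_lit 7495) (nat_lit 402) (.e (nat_lit 1533) (nat_lit 109) (.e (nat_lit 344129) (nat_lit 26) (.e (nat_lit 557087) (nat_lit 11) (.e (nat_lit 24640) (nat_lit 10) .nil))))) .nil)) 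
(.lf (nat_lit 126971) (.g (nat_lit 2158) (.e (nat_lit 7521) (nat_lit 402) (.e (nat_lit 1659) (nat_lit 115) (.e (nat_lit 393301) (nat_lit 27) (.e (nat_lit 491567) (nat_lit 13) (.e (nat_lit 393238) (nat_lit 17) .nil))))) .nil)))))) (.nd (nat_lit 3) (.nd (nat_lit 4) (.nd (nat_lit 5) (.nd (nat_lit 6) 
(.lf (nat_lit 126855) (.g (nat_lit 2534) (.e (nat_lit 7490) (nat_lit 402) (.e (nat_lit 1665) (nat_lit 115) (.e (nat_lit 393260) (nat_lit 21) (.e (nat_lit 409616) (nat_lit 10) (.e (nat_lit 7936) (nat_lit 300) .nil))))) .nil)) 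
(.lf (nat_lit 126919) (.g (nat_lit 1646) (.e (nat_lit 7497) (nat_lit 402) (.e (nat_lit 1401) (nat_lit 106) (.e (nat_lit 319533) (nat_lit 16) (.e (nat_lit 286753) (nat_lit 10) (.e (nat_lit 344156) (nat_lit 36) .nil))))) .nil))) (.nd (nat_lit 6) 
(.lf (nat_lit 126887) (.g (nat_lit 2599) (.e (nat_lit 7491) (nat_lit 402) (.e (nat_lit 1656) (nat_lit 115) (.e (nat_lit 393301) (nat_lit 27) (.e (nat_lit 491567) (nat_lit 13) (.e (nat_lit 393232) (nat_lit 17) .nil))))) .nil)) 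
(.lf (nat_lit 126951) (.g (nat_lit 2993) (.e (nat_lit 7513) (nat_lit 402) (.e (nat_lit 1661) (nat_lit 115) (.e (nat_lit 393260) (nat_lit 21) (.e (nat_lit 409617) (nat_lit 10) (.e (nat_lit 5353) (nat_lit 298) .nil))))) .nil)))) (.nd (nat_lit 5) (.nd (nat_lit 6) 
(.lf (nat_lit 126871) (.g (nat_lit 1504) (.e (nat_lit 7491) (nat_lit 402) (.e (nat_lit 1656) (nat_lit 115) (.e (nat_lit 393298) (nat_lit 27) (.e (nat_lit 491569) (nat_lit 13) .nil)))) .nil)) 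
(.lf (nat_lit 126935) (.g (nat_lit 2798) (.e (nat_lit 7511) (nat_lit 402) (.e (nat_lit 1661) (nat_lit 115) (.e (nat_lit 393260) (nat_lit 21) (.e (nat_lit 409617) (nat_lit 10) (.e (nat_lit 7936) (nat_lit 300) .nil))))) .nil))) (.nd (nat_lit 6) 
(.lf (nat_lit 126903) (.g (nat_lit 2786) (.e (nat_lit 7493) (nat_lit 402) (.e (nat_lit 1656) (nat_lit 115) (.e (nat_lit 393301) (nat_lit 27) (.e (nat_lit 491568) (nat_lit 13) (.e (nat_lit 393230) (nat_lit 17) .nil))))) .nil)) 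
(.lf (nat_lit 126967) (.g (nat_lit 1791) (.e (nat_lit 7521) (nat_lit 402) (.e (nat_lit 1649) (nat_lit 115) (.e (nat_lit 393298) (nat_lit 27) (.e (nat_lit 491571) (nat_lit 13) (.e (nat_lit 393238) (nat_lit 17) .nil))))) .nil))))) (.nd (nat_lit 4) (.nd (nat_lit 5) (.nd (nat_lit 6) 
(.lf (nat_lit 126863) (.g (nat_lit 368) (.e (nat_lit 7491) (nat_lit 402) (.e (nat_lit 1656) (nat_lit 115) (.e (nat_lit 393234) (nat_lit 17) .nil))) .nil)) 
(.lf (nat_lit 126927) (.g (nat_lit 2164) (.e (nat_lit 7500) (nat_lit 402) (.e (nat_lit 1658) (nat_lit 115) (.e (nat_lit 393301) (nat_lit 27) (.e (nat_lit 491567) (nat_lit 13) (.e (nat_lit 393231) (nat_lit 17) .nil))))) (.g (nat_lit 5) .nil .nil)))) (.nd (nat_lit 6) 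
(.lf (nat_lit 126895) (.g (nat_lit 1531) (.e (nat_lit 7493) (nat_lit 402) (.e (nat_lit 1656) (nat_lit 115) (.e (nat_lit 393234) (nat_lit 17) (.e (nat_lit 7587) (nat_lit 406) .nil)))) .nil)) 
(.lf (nat_lit 126959) (.g (nat_lit 1030) (.e (nat_lit 7517) (nat_lit 402) (.e (nat_lit 1658) (nat_lit 115) (.e (nat_lit 393298) (nat_lit 27) (.e (nat_lit 491570) (nat_lit 13) .nil)))) .nil)))) (.nd (nat_lit 5) (.nd (nat_lit 6) 
(.lf (nat_lit 126879) (.g (nat_lit 1219) (.e (nat_lit 7491) (nat_lit 402) (.e (nat_lit 1656) (nat_lit 115) (.e (nat_lit 393300) (nat_lit 27) (.e (nat_lit 491569) (nat_lit 13) .nil)))) .nil)) 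
(.lf (nat_lit 126943) (.g (nat_lit 1453) (.e (nat_lit 7513) (nat_lit 402) (.e (nat_lit 1659) (nat_lit 115) (.e (nat_lit 393301) (nat_lit 27) (.e (nat_lit 491568) (nat_lit 13) .nil)))) .nil))) (.nd (nat_lit 6) 
(.lf (nat_lit 126911) (.g (nat_lit 1910) (.e (nat_lit 7496) (nat_lit 402) (.e (nat_lit 1400) (nat_lit 106) (.e (nat_lit 319533) (nat_lit 16) (.e (nat_lit 286753) (nat_lit 10) (.e (nat_lit 344157) (nat_lit 36) .nil))))) .nil)) 
(.lf (nat_lit 126975) (.g (nat_lit 369) (.e (nat_lit 7523) (nat_lit 402) (.e (nat_lit 1428) (nat_lit 108) (.e (nat_lit 336369) (nat_lit 27) .nil))) .nil)))))))))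

noncomputable def tv1703 : DT := (.nd (nat_lit 0) (.nd (nat_lit 1) (.nd (nat_lit 2) (.nd (nat_lit 3) (.nd (nat_lit 4) (.nd (nat_lit 5) (.nd (nat_lit 6) 
(.lf (nat_lit 126976) (.g (nat_lit 1908) (.e (nat_lit 7523) (nat_lit 402) (.e (nat_lit 1658) (nat_lit 115) (.e (nat_lit 393301) (nat_lit 27) (.e (nat_lit 491567) (nat_lit 13) (.e (nat_lit 393233) (nat_lit 17) .nil))))) .nil)) 
(.lf (nat_lit 127040) (.g (nat_lit 2001) (.e (nat_lit 7533) (nat_lit 402) (.e (nat_lit 1656) (nat_lit 115) (.e (nat_lit 393297) (nat_lit 27) (.e (nat_lit 491571) (nat_lit 13) (.e (nat_lit 393232) (nat_lit 17) .nil))))) .nil))) (.nd (nat_lit 6) 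
(.lf (nat_lit 127008) (.g (nat_lit 2475) (.e (nat_lit 7524) (nat_lit 402) (.e (nat_lit 1656) (nat_lit 115) (.e (nat_lit 393300) (nat_lit 27) (.e (nat_lit 491569) (nat_lit 13) (.e (nat_lit 393249) (nat_lit 17) .nil))))) (.g (nat_lit 5) .nil .nil))) 
(.lf (nat_lit 127072) (.g (nat_lit 5825) (.e (nat_lit 7536) (nat_lit 402) (.e (nat_lit 1633) (nat_lit 114) (.e (nat_lit 385074) (nat_lit 31) (.e (nat_lit 573493) (nat_lit 15) (.e (nat_lit 81956) (nat_lit 23) (.e (nat_lit 98320) (nat_lit 17) .nil)))))) (.g (nat_lit 6) .nil .nil))))) (.nd (nat_lit 5) (.nd (nat_lit 6) 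
(.lf (nat_lit 126992) (.g (nat_lit 616) (.e (nat_lit 7523) (nat_lit 402) (.e (nat_lit 1661) (nat_lit 115) (.e (nat_lit 393232) (nat_lit 17) .nil))) .nil)) 
(.lf (nat_lit 127056) (.g (nat_lit 3272) (.e (nat_lit 7534) (nat_lit 402) (.e (nat_lit 1661) (nat_lit 115) (.e (nat_lit 393260) (nat_lit 21) (.e (nat_lit 409616) (nat_lit 10) (.e (nat_lit 7936) (nat_lit 300) .nil))))) .nil))) (.nd (nat_lit 6) 
(.lf (nat_lit 127024) (.g (nat_lit 1500) (.e (nat_lit 7528) (nat_lit 402) (.e (nat_lit 1659) (nat_lit 115) (.e (nat_lit 393301) (nat_lit 27) (.e (nat_lit 491555) (nat_lit 9) .nil)))) .nil)) 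
(.lf (nat_lit 127088) (.g (nat_lit 4654) (.e (nat_lit 7537) (nat_lit 402) (.e (nat_lit 1638) (nat_lit 114) (.e (nat_lit 385072) (nat_lit 31) (.e (nat_lit 573492) (nat_lit 15) (.e (nat_lit 81956) (nat_lit 23) (.e (nat_lit 106240) (nat_lit 17) .nil)))))) (.g (nat_lit 5) .nil .nil)))))) (.nd (nat_lit 4) (.nd (nat_lit 5) (.nd (nat_lit 6) 
(.lf (nat_lit 126984) (.g (nat_lit 1153) (.e (nat_lit 7523) (nat_lit 402) (.e (nat_lit 1659) (nat_lit 115) (.e (nat_lit 393298) (nat_lit 27) (.e (nat_lit 491571) (nat_lit 13) .nil)))) .nil)) 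
(.lf (nat_lit 127048) (.g (nat_lit 1270) (.e (nat_lit 7533) (nat_lit 402) (.e (nat_lit 1656) (nat_lit 115) (.e (nat_lit 393300) (nat_lit 27) (.e (nat_lit 499456) (nat_lit 13) .nil)))) .nil))) (.nd (nat_lit 6) 
(.lf (nat_lit 127016) (.g (nat_lit 481) (.e (nat_lit 7525) (nat_lit 402) (.e (nat_lit 1656) (nat_lit 115) (.e (nat_lit 393300) (nat_lit 27) .nil))) .nil)) 
(.lf (nat_lit 127080) (.g (nat_lit 2166) (.e (nat_lit 7536) (nat_lit 402) (.e (nat_lit 1656) (nat_lit 115) (.e (nat_lit 393300) (nat_lit 27) (.e (nat_lit 491569) (nat_lit 13) (.e (nat_lit 393232) (nat_lit 17) .nil))))) .nil)))) (.nd (nat_lit 5) (.nd (nat_lit 6) 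
(.lf (nat_lit 127000) (.g (nat_lit 499) (.e (nat_lit 7524) (nat_lit 402) (.e (nat_lit 1656) (nat_lit 115) (.e (nat_lit 393293) (nat_lit 26) .nil))) .nil)) 
(.lf (nat_lit 127064) (.g (nat_lit 2514) (.e (nat_lit 7535) (nat_lit 402) (.e (nat_lit 1656) (nat_lit 115) (.e (nat_lit 393301) (nat_lit 27) (.e (nat_lit 491567) (nat_lit 13) (.e (nat_lit 393238) (nat_lit 17) .nil))))) .nil))) (.nd (nat_lit 6) 
(.lf (nat_lit 127032) (.g (nat_lit 2653) (.e (nat_lit 7531) (nat_lit 402) (.e (nat_lit 1661) (nat_lit 115) (.e (nat_lit 393260) (nat_lit 21) (.e (nat_lit 409616) (nat_lit 10) .nil)))) .nil)) 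
(.lf (nat_lit 127096) (.g (nat_lit 2159) (.e (nat_lit 7537) (nat_lit 402) (.e (nat_lit 1659) (nat_lit 115) (.e (nat_lit 393301) (nat_lit 27) (.e (nat_lit 491567) (nat_lit 13) (.e (nat_lit 393238) (nat_lit 17) .nil))))) .nil)))))) (.nd (nat_lit 3) (.nd (nat_lit 4) (.nd (nat_lit 5) (.nd (nat_lit 6) 
(.lf (nat_lit 126980) (.g (nat_lit 1750) (.e (nat_lit 7523) (nat_lit 402) (.e (nat_lit 1659) (nat_lit 115) (.e (nat_lit 393234) (nat_lit 17) (.e (nat_lit 7589) (nat_lit 406) (.e (nat_lit 65653) (nat_lit 27) .nil))))) .nil)) 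
(.lf (nat_lit 127044) (.g (nat_lit 2580) (.e (nat_lit 7533) (nat_lit 402) (.e (nat_lit 1656) (nat_lit 115) (.e (nat_lit 393300) (nat_lit 27) (.e (nat_lit 491568) (nat_lit 13) (.e (nat_lit 393231) (nat_lit 17) .nil))))) .nil))) (.nd (nat_lit 6) 
(.lf (nat_lit 127012) (.g (nat_lit 1769) (.e (nat_lit 7524) (nat_lit 402) (.e (nat_lit 1656) (nat_lit 115) (.e (nat_lit 393301) (nat_lit 27) (.e (nat_lit 491567) (nat_lit 13) .nil)))) .nil)) 
(.lf (nat_lit 127076) (.g (nat_lit 3311) (.e (nat_lit 7536) (nat_lit 402) (.e (nat_lit 1656) (nat_lit 115) (.e (nat_lit 393260) (nat_lit 21) (.e (nat_lit 409616) (nat_lit 10) (.e (nat_lit 7936) (nat_lit 300) .nil))))) .nil)))) (.nd (nat_lit 5) (.nd (nat_lit 6) 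
(.lf (nat_lit 126996) (.g (nat_lit 2856) (.e (nat_lit 7523) (nat_lit 402) (.e (nat_lit 1661) (nat_lit 115) (.e (nat_lit 393260) (nat_lit 21) (.e (nat_lit 409617) (nat_lit 10) (.e (nat_lit 7936) (nat_lit 300) .nil))))) .nil)) 
(.lf (nat_lit 127060) (.g (nat_lit 882) (.e (nat_lit 7535) (nat_lit 402) (.e (nat_lit 1656) (nat_lit 115) (.e (nat_lit 393297) (nat_lit 27) (.e (nat_lit 491570) (nat_lit 13) .nil)))) .nil))) (.nd (nat_lit 6) 
(.lf (nat_lit 127028) (.g (nat_lit 2957) (.e (nat_lit 7528) (nat_lit 402) (.e (nat_lit 1661) (nat_lit 115) (.e (nat_lit 393260) (nat_lit 21) (.e (nat_lit 409617) (nat_lit 10) (.e (nat_lit 5353) (nat_lit 298) .nil))))) .nil)) 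
(.lf (nat_lit 127092) (.g (nat_lit 1415) (.e (nat_lit 7537) (nat_lit 402) (.e (nat_lit 1659) (nat_lit 115) (.e (nat_lit 393298) (nat_lit 27) (.e (nat_lit 491549) (nat_lit 9) .nil)))) .nil))))) (.nd (nat_lit 4) (.nd (nat_lit 5) (.nd (nat_lit 6) 
(.lf (nat_lit 126988) (.g (nat_lit 1523) (.e (nat_lit 7523) (nat_lit 402) (.e (nat_lit 1659) (nat_lit 115) (.e (nat_lit 393301) (nat_lit 27) (.e (nat_lit 491556) (nat_lit 9) .nil)))) .nil)) 
(.lf (nat_lit 127052) (.g (nat_lit 2778) (.e (nat_lit 7533) (nat_lit 402) (.e (nat_lit 1656) (nat_lit 115) (.e (nat_lit 393301) (nat_lit 27) (.e (nat_lit 491568) (nat_lit 13) (.e (nat_lit 393230) (nat_lit 17) .nil))))) .nil))) (.nd (nat_lit 6) 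
(.lf (nat_lit 127020) (.g (nat_lit 2203) (.e (nat_lit 7526) (nat_lit 402) (.e (nat_lit 1633) (nat_lit 114) (.e (nat_lit 385074) (nat_lit 31) (.e (nat_lit 573485) (nat_lit 13) (.e (nat_lit 65604) (nat_lit 9) .nil))))) .nil)) 
(.lf (nat_lit 127084) (.g (nat_lit 2351) (.e (nat_lit 7536) (nat_lit 402) (.e (nat_lit 1656) (nat_lit 115) (.e (nat_lit 393301) (nat_lit 27) (.e (nat_lit 491568) (nat_lit 13) (.e (nat_lit 393232) (nat_lit 17) .nil))))) .nil)))) (.nd (nat_lit 5) (.nd (nat_lit 6) 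
(.lf (nat_lit 127004) (.g (nat_lit 1181) (.e (nat_lit 7524) (nat_lit 402) (.e (nat_lit 1656) (nat_lit 115) (.e (nat_lit 393300) (nat_lit 27) (.e (nat_lit 491567) (nat_lit 13) .nil)))) .nil)) 
(.lf (nat_lit 127068) (.g (nat_lit 1559) (.e (nat_lit 7536) (nat_lit 402) (.e (nat_lit 1454) (nat_lit 108) (.e (nat_lit 336389) (nat_lit 27) (.e (nat_lit 426012) (nat_lit 0) (.e (nat_lit 7491) (nat_lit 402) .nil))))) .nil))) (.nd (nat_lit 6) 
(.lf (nat_lit 127036) (.g (nat_lit 3403) (.e (nat_lit 7532) (nat_lit 402) (.e (nat_lit 1661) (nat_lit 115) (.e (nat_lit 393260) (nat_lit 21) (.e (nat_lit 409617) (nat_lit 10) (.e (nat_lit 5353) (nat_lit 298) (.e (nat_lit 418) (nat_lit 32) (.e (nat_lit 425984) (nat_lit 0) .nil))))))) (.g (nat_lit 7) .nil .nil))) 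
(.lf (nat_lit 127100) (.g (nat_lit 329) (.e (nat_lit 7537) (nat_lit 402) (.e (nat_lit 1661) (nat_lit 115) (.e (nat_lit 393260) (nat_lit 21) .nil))) .nil))))))) (.nd (nat_lit 2) (.nd (nat_lit 3) (.nd (nat_lit 4) (.nd (nat_lit 5) (.nd (nat_lit 6) 
(.lf (nat_lit 126978) (.g (nat_lit 1444) (.e (nat_lit 7523) (nat_lit 402) (.e (nat_lit 1659) (nat_lit 115) (.e (nat_lit 393234) (nat_lit 17) (.e (nat_lit 7490) (nat_lit 402) .nil)))) .nil)) 
(.lf (nat_lit 127042) (.g (nat_lit 1320) (.e (nat_lit 7533) (nat_lit 402) (.e (nat_lit 1656) (nat_lit 115) (.e (nat_lit 393300) (nat_lit 27) (.e (nat_lit 491567) (nat_lit 13) .nil)))) .nil))) (.nd (nat_lit 6) 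
(.lf (nat_lit 127010) (.g (nat_lit 2789) (.e (nat_lit 7524) (nat_lit 402) (.e (nat_lit 1656) (nat_lit 115) (.e (nat_lit 393300) (nat_lit 27) (.e (nat_lit 491570) (nat_lit 13) (.e (nat_lit 393249) (nat_lit 17) .nil))))) .nil)) 
(.lf (nat_lit 127074) (.g (nat_lit 1381) (.e (nat_lit 7536) (nat_lit 402) (.e (nat_lit 1656) (nat_lit 115) (.e (nat_lit 393234) (nat_lit 17) (.e (nat_lit 7536) (nat_lit 402) .nil)))) .nil)))) (.nd (nat_lit 5) (.nd (nat_lit 6) 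
(.lf (nat_lit 126994) (.g (nat_lit 1601) (.e (nat_lit 7523) (nat_lit 402) (.e (nat_lit 1661) (nat_lit 115) (.e (nat_lit 393260) (nat_lit 21) (.e (nat_lit 409616) (nat_lit 10) .nil)))) .nil)) 
(.lf (nat_lit 127058) (.g (nat_lit 3025) (.e (nat_lit 7534) (nat_lit 402) (.e (nat_lit 1661) (nat_lit 115) (.e (nat_lit 393260) (nat_lit 21) (.e (nat_lit 409617) (nat_lit 10) (.e (nat_lit 5353) (nat_lit 298) .nil))))) .nil))) (.nd (nat_lit 6) 
(.lf (nat_lit 127026) (.g (nat_lit 3118) (.e (nat_lit 7528) (nat_lit 402) (.e (nat_lit 1661) (nat_lit 115) (.e (nat_lit 393260) (nat_lit 21) (.e (nat_lit 409616) (nat_lit 10) (.e (nat_lit 7936) (nat_lit 300) .nil))))) .nil)) 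
(.lf (nat_lit 127090) (.g (nat_lit 4159) (.e (nat_lit 7537) (nat_lit 402) (.e (nat_lit 1638) (nat_lit 114) (.e (nat_lit 385074) (nat_lit 31) (.e (nat_lit 573491) (nat_lit 15) (.e (nat_lit 81954) (nat_lit 23) (.e (nat_lit 106240) (nat_lit 17) .nil)))))) (.g (nat_lit 5) .nil .nil)))))) (.nd (nat_lit 4) (.nd (nat_lit 5) (.nd (nat_lit 6) 
(.lf (nat_lit 126986) (.g (nat_lit 1212) (.e (nat_lit 7523) (nat_lit 402) (.e (nat_lit 1659) (nat_lit 115) (.e (nat_lit 393301) (nat_lit 27) (.e (nat_lit 491551) (nat_lit 9) .nil)))) .nil)) 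
(.lf (nat_lit 127050) (.g (nat_lit 1875) (.e (nat_lit 7533) (nat_lit 402) (.e (nat_lit 1656) (nat_lit 115) (.e (nat_lit 393301) (nat_lit 27) (.e (nat_lit 491567) (nat_lit 13) .nil)))) .nil))) (.nd (nat_lit 6) 
(.lf (nat_lit 127018) (.g (nat_lit 2133) (.e (nat_lit 7525) (nat_lit 402) (.e (nat_lit 1656) (nat_lit 115) (.e (nat_lit 393300) (nat_lit 27) (.e (nat_lit 491569) (nat_lit 13) (.e (nat_lit 401152) (nat_lit 17) .nil))))) .nil)) 
(.lf (nat_lit 127082) (.g (nat_lit 2011) (.e (nat_lit 7536) (nat_lit 402) (.e (nat_lit 1656) (nat_lit 115) (.e (nat_lit 393301) (nat_lit 27) (.e (nat_lit 491552) (nat_lit 9) .nil)))) .nil)))) (.nd (nat_lit 5) (.nd (nat_lit 6) 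
(.lf (nat_lit 127002) (.g (nat_lit 2552) (.e (nat_lit 7524) (nat_lit 402) (.e (nat_lit 1656) (nat_lit 115) (.e (nat_lit 393300) (nat_lit 27) (.e (nat_lit 491549) (nat_lit 9) (.e (nat_lit 336379) (nat_lit 27) .nil))))) .nil)) 
(.lf (nat_lit 127066) (.g (nat_lit 1826) (.e (nat_lit 7536) (nat_lit 402) (.e (nat_lit 1454) (nat_lit 108) (.e (nat_lit 336295) (nat_lit 15) (.e (nat_lit 6966) (nat_lit 377) .nil)))) .nil))) (.nd (nat_lit 6) 
(.lf (nat_lit 127034) (.g (nat_lit 2145) (.e (nat_lit 7532) (nat_lit 402) (.e (nat_lit 1661) (nat_lit 115) (.e (nat_lit 393260) (nat_lit 21) (.e (nat_lit 409616) (nat_lit 10) .nil)))) .nil)) 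
(.lf (nat_lit 127098) (.g (nat_lit 2254) (.e (nat_lit 7537) (nat_lit 402) (.e (nat_lit 1660) (nat_lit 115) (.e (nat_lit 393298) (nat_lit 27) (.e (nat_lit 491571) (nat_lit 13) (.e (nat_lit 393238) (nat_lit 17) .nil))))) .nil)))))) (.nd (nat_lit 3) (.nd (nat_lit 4) (.nd (nat_lit 5) (.nd (nat_lit 6) 
(.lf (nat_lit 126982) (.g (nat_lit 573) (.e (nat_lit 7523) (nat_lit 402) (.e (nat_lit 1659) (nat_lit 115) (.e (nat_lit 393297) (nat_lit 27) .nil))) .nil)) 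
(.lf (nat_lit 127046) (.g (nat_lit 2269) (.e (nat_lit 7533) (nat_lit 402) (.e (nat_lit 1656) (nat_lit 115) (.e (nat_lit 393300) (nat_lit 27) (.e (nat_lit 491569) (nat_lit 13) (.e (nat_lit 393233) (nat_lit 17) .nil))))) .nil))) (.nd (nat_lit 6) 
(.lf (nat_lit 127014) (.g (nat_lit 2787) (.e (nat_lit 7524) (nat_lit 402) (.e (nat_lit 1656) (nat_lit 115) (.e (nat_lit 393301) (nat_lit 27) (.e (nat_lit 491568) (nat_lit 13) (.e (nat_lit 393249) (nat_lit 17) .nil))))) .nil)) 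
(.lf (nat_lit 127078) (.g (nat_lit 572) (.e (nat_lit 7536) (nat_lit 402) (.e (nat_lit 1656) (nat_lit 115) (.e (nat_lit 393299) (nat_lit 27) .nil))) .nil)))) (.nd (nat_lit 5) (.nd (nat_lit 6) 
(.lf (nat_lit 126998) (.g (nat_lit 1413) (.e (nat_lit 7523) (nat_lit 402) (.e (nat_lit 1661) (nat_lit 115) (.e (nat_lit 393299) (nat_lit 27) (.e (nat_lit 491568) (nat_lit 13) .nil)))) .nil)) 
(.lf (nat_lit 127062) (.g (nat_lit 1298) (.e (nat_lit 7535) (nat_lit 402) (.e (nat_lit 1656) (nat_lit 115) (.e (nat_lit 393298) (nat_lit 27) (.e (nat_lit 491569) (nat_lit 13) .nil)))) .nil))) (.nd (nat_lit 6) 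
(.lf (nat_lit 127030) (.g (nat_lit 2641) (.e (nat_lit 7529) (nat_lit 402) (.e (nat_lit 1661) (nat_lit 115) (.e (nat_lit 393260) (nat_lit 21) (.e (nat_lit 409616) (nat_lit 10) .nil)))) .nil)) 
(.lf (nat_lit 127094) (.g (nat_lit 2096) (.e (nat_lit 7537) (nat_lit 402) (.e (nat_lit 1659) (nat_lit 115) (.e (nat_lit 393299) (nat_lit 27) (.e (nat_lit 491570) (nat_lit 13) (.e (nat_lit 393238) (nat_lit 17) .nil))))) .nil))))) (.nd (nat_lit 4) (.nd (nat_lit 5) (.nd (nat_lit 6) 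
(.lf (nat_lit 126990) (.g (nat_lit 2781) (.e (nat_lit 7523) (nat_lit 402) (.e (nat_lit 1659) (nat_lit 115) (.e (nat_lit 393301) (nat_lit 27) (.e (nat_lit 491568) (nat_lit 13) (.e (nat_lit 393233) (nat_lit 17) .nil))))) .nil)) 
(.lf (nat_lit 127054) (.g (nat_lit 2719) (.e (nat_lit 7533) (nat_lit 402) (.e (nat_lit 1656) (nat_lit 115) (.e (nat_lit 393301) (nat_lit 27) (.e (nat_lit 491568) (nat_lit 13) (.e (nat_lit 393233) (nat_lit 17) .nil))))) .nil))) (.nd (nat_lit 6) 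
(.lf (nat_lit 127022) (.g (nat_lit 1584) (.e (nat_lit 7526) (nat_lit 402) (.e (nat_lit 1656) (nat_lit 115) (.e (nat_lit 393234) (nat_lit 17) (.e (nat_lit 7589) (nat_lit 406) .nil)))) .nil)) 
(.lf (nat_lit 127086) (.g (nat_lit 1725) (.e (nat_lit 7536) (nat_lit 402) (.e (nat_lit 1656) (nat_lit 115) (.e (nat_lit 393301) (nat_lit 27) (.e (nat_lit 499456) (nat_lit 13) .nil)))) .nil)))) (.nd (nat_lit 5) (.nd (nat_lit 6) 
(.lf (nat_lit 127006) (.g (nat_lit 2682) (.e (nat_lit 7524) (nat_lit 402) (.e (nat_lit 1656) (nat_lit 115) (.e (nat_lit 393300) (nat_lit 27) (.e (nat_lit 491568) (nat_lit 13) (.e (nat_lit 393249) (nat_lit 17) .nil))))) (.g (nat_lit 5) .nil .nil))) 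
(.lf (nat_lit 127070) (.g (nat_lit 1279) (.e (nat_lit 7536) (nat_lit 402) (.e (nat_lit 1454) (nat_lit 108) (.e (nat_lit 336389) (nat_lit 27) (.e (nat_lit 426344) (nat_lit 14) .nil)))) .nil))) (.nd (nat_lit 6) 
(.lf (nat_lit 127038) (.g (nat_lit 1790) (.e (nat_lit 7533) (nat_lit 402) (.e (nat_lit 1656) (nat_lit 115) (.e (nat_lit 393234) (nat_lit 17) (.e (nat_lit 7587) (nat_lit 406) (.e (nat_lit 65653) (nat_lit 27) .nil))))) .nil)) 
(.lf (nat_lit 127102) (.g (nat_lit 1501) (.e (nat_lit 7537) (nat_lit 402) (.e (nat_lit 1661) (nat_lit 115) (.e (nat_lit 393260) (nat_lit 21) (.e (nat_lit 409617) (nat_lit 10) .nil)))) .nil)))))))) (.nd (nat_lit 1) (.nd (nat_lit 2) (.nd (nat_lit 3) (.nd (nat_lit 4) (.nd (nat_lit 5) (.nd (nat_lit 6) 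
(.lf (nat_lit 126977) (.g (nat_lit 458) (.e (nat_lit 7523) (nat_lit 402) (.e (nat_lit 1659) (nat_lit 115) (.e (nat_lit 393234) (nat_lit 17) .nil))) .nil)) 
(.lf (nat_lit 127041) (.g (nat_lit 2149) (.e (nat_lit 7533) (nat_lit 402) (.e (nat_lit 1656) (nat_lit 115) (.e (nat_lit 393300) (nat_lit 27) (.e (nat_lit 491549) (nat_lit 9) (.e (nat_lit 336414) (nat_lit 27) .nil))))) .nil))) (.nd (nat_lit 6) 
(.lf (nat_lit 127009) (.g (nat_lit 2865) (.e (nat_lit 7524) (nat_lit 402) (.e (nat_lit 1656) (nat_lit 115) (.e (nat_lit 393300) (nat_lit 27) (.e (nat_lit 491570) (nat_lit 13) (.e (nat_lit 393247) (nat_lit 17) .nil))))) .nil)) 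
(.lf (nat_lit 127073) (.g (nat_lit 1492) (.e (nat_lit 7536) (nat_lit 402) (.e (nat_lit 1656) (nat_lit 115) (.e (nat_lit 393234) (nat_lit 17) (.e (nat_lit 7523) (nat_lit 402) .nil)))) .nil)))) (.nd (nat_lit 5) (.nd (nat_lit 6) 
(.lf (nat_lit 126993) (.g (nat_lit 523) (.e (nat_lit 7523) (nat_lit 402) (.e (nat_lit 1661) (nat_lit 115) (.e (nat_lit 393238) (nat_lit 17) .nil))) .nil)) 
(.lf (nat_lit 127057) (.g (nat_lit 2127) (.e (nat_lit 7534) (nat_lit 402) (.e (nat_lit 1661) (nat_lit 115) (.e (nat_lit 393260) (nat_lit 21) (.e (nat_lit 409617) (nat_lit 10) .nil)))) .nil))) (.nd (nat_lit 6) 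
(.lf (nat_lit 127025) (.g (nat_lit 2367) (.e (nat_lit 7528) (nat_lit 402) (.e (nat_lit 1661) (nat_lit 115) (.e (nat_lit 393260) (nat_lit 21) (.e (nat_lit 409616) (nat_lit 10) .nil)))) .nil)) 
(.lf (nat_lit 127089) (.g (nat_lit 4097) (.e (nat_lit 7537) (nat_lit 402) (.e (nat_lit 1638) (nat_lit 114) (.e (nat_lit 385073) (nat_lit 31) (.e (nat_lit 573493) (nat_lit 15) (.e (nat_lit 81956) (nat_lit 23) (.e (nat_lit 106240) (nat_lit 17) .nil)))))) (.g (nat_lit 5) .nil .nil)))))) (.nd (nat_lit 4) (.nd (nat_lit 5) (.nd (nat_lit 6) 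
(.lf (nat_lit 126985) (.g (nat_lit 1240) (.e (nat_lit 7523) (nat_lit 402) (.e (nat_lit 1659) (nat_lit 115) (.e (nat_lit 393300) (nat_lit 27) (.e (nat_lit 491568) (nat_lit 13) .nil)))) .nil)) 
(.lf (nat_lit 127049) (.g (nat_lit 2958) (.e (nat_lit 7533) (nat_lit 402) (.e (nat_lit 1656) (nat_lit 115) (.e (nat_lit 393301) (nat_lit 27) (.e (nat_lit 491556) (nat_lit 9) (.e (nat_lit 336390) (nat_lit 27) .nil))))) .nil))) (.nd (nat_lit 6) 
(.lf (nat_lit 127017) (.g (nat_lit 2720) (.e (nat_lit 7525) (nat_lit 402) (.e (nat_lit 1656) (nat_lit 115) (.e (nat_lit 393300) (nat_lit 27) (.e (nat_lit 491549) (nat_lit 9) (.e (nat_lit 336379) (nat_lit 27) .nil))))) .nil)) 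
(.lf (nat_lit 127081) (.g (nat_lit 2711) (.e (nat_lit 7536) (nat_lit 402) (.e (nat_lit 1656) (nat_lit 115) (.e (nat_lit 393300) (nat_lit 27) (.e (nat_lit 491570) (nat_lit 13) (.e (nat_lit 393232) (nat_lit 17) .nil))))) .nil)))) (.nd (nat_lit 5) (.nd (nat_lit 6) 
(.lf (nat_lit 127001) (.g (nat_lit 420) (.e (nat_lit 7524) (nat_lit 402) (.e (nat_lit 1656) (nat_lit 115) (.e (nat_lit 393300) (nat_lit 27) .nil))) .nil)) 
(.lf (nat_lit 127065) (.g (nat_lit 1144) (.e (nat_lit 7536) (nat_lit 402) (.e (nat_lit 1232) (nat_lit 91) (.e (nat_lit 90170) (nat_lit 13) (.e (nat_lit 172113) (nat_lit 10) .nil)))) .nil))) (.nd (nat_lit 6) 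
(.lf (nat_lit 127033) (.g (nat_lit 3117) (.e (nat_lit 7531) (nat_lit 402) (.e (nat_lit 1661) (nat_lit 115) (.e (nat_lit 393260) (nat_lit 21) (.e (nat_lit 409617) (nat_lit 10) (.e (nat_lit 5353) (nat_lit 298) .nil))))) .nil)) 
(.lf (nat_lit 127097) (.g (nat_lit 3202) (.e (nat_lit 7537) (nat_lit 402) (.e (nat_lit 1659) (nat_lit 115) (.e (nat_lit 393301) (nat_lit 27) (.e (nat_lit 491568) (nat_lit 13) (.e (nat_lit 393230) (nat_lit 17) .nil))))) .nil)))))) (.nd (nat_lit 3) (.nd (nat_lit 4) (.nd (nat_lit 5) (.nd (nat_lit 6) 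
(.lf (nat_lit 126981) (.g (nat_lit 1888) (.e (nat_lit 7523) (nat_lit 402) (.e (nat_lit 1659) (nat_lit 115) (.e (nat_lit 393260) (nat_lit 21) (.e (nat_lit 409616) (nat_lit 10) .nil)))) .nil)) 
(.lf (nat_lit 127045) (.g (nat_lit 2359) (.e (nat_lit 7533) (nat_lit 402) (.e (nat_lit 1656) (nat_lit 115) (.e (nat_lit 393300) (nat_lit 27) (.e (nat_lit 491569) (nat_lit 13) (.e (nat_lit 393232) (nat_lit 17) .nil))))) .nil))) (.nd (nat_lit 6) 
(.lf (nat_lit 127013) (.g (nat_lit 3157) (.e (nat_lit 7524) (nat_lit 402) (.e (nat_lit 1656) (nat_lit 115) (.e (nat_lit 393301) (nat_lit 27) (.e (nat_lit 491568) (nat_lit 13) (.e (nat_lit 393247) (nat_lit 17) .nil))))) .nil)) 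
(.lf (nat_lit 127077) (.g (nat_lit 947) (.e (nat_lit 7536) (nat_lit 402) (.e (nat_lit 1656) (nat_lit 115) (.e (nat_lit 393265) (nat_lit 22) (.e (nat_lit 417820) (nat_lit 10) .nil)))) .nil)))) (.nd (nat_lit 5) (.nd (nat_lit 6) 
(.lf (nat_lit 126997) (.g (nat_lit 544) (.e (nat_lit 7523) (nat_lit 402) (.e (nat_lit 1661) (nat_lit 115) (.e (nat_lit 393297) (nat_lit 27) .nil))) .nil)) 
(.lf (nat_lit 127061) (.g (nat_lit 2118) (.e (nat_lit 7535) (nat_lit 402) (.e (nat_lit 1656) (nat_lit 115) (.e (nat_lit 393297) (nat_lit 27) (.e (nat_lit 491571) (nat_lit 13) (.e (nat_lit 393238) (nat_lit 17) .nil))))) .nil))) (.nd (nat_lit 6) 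
(.lf (nat_lit 127029) (.g (nat_lit 624) (.e (nat_lit 7528) (nat_lit 402) (.e (nat_lit 1661) (nat_lit 115) (.e (nat_lit 393298) (nat_lit 27) .nil))) .nil)) 
(.lf (nat_lit 127093) (.g (nat_lit 2253) (.e (nat_lit 7537) (nat_lit 402) (.e (nat_lit 1659) (nat_lit 115) (.e (nat_lit 393298) (nat_lit 27) (.e (nat_lit 491571) (nat_lit 13) (.e (nat_lit 393238) (nat_lit 17) .nil))))) .nil))))) (.nd (nat_lit 4) (.nd (nat_lit 5) (.nd (nat_lit 6) 
(.lf (nat_lit 126989) (.g (nat_lit 2049) (.e (nat_lit 7523) (nat_lit 402) (.e (nat_lit 1659) (nat_lit 115) (.e (nat_lit 393301) (nat_lit 27) (.e (nat_lit 491567) (nat_lit 13) (.e (nat_lit 393231) (nat_lit 17) .nil))))) .nil)) 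
(.lf (nat_lit 127053) (.g (nat_lit 2602) (.e (nat_lit 7533) (nat_lit 402) (.e (nat_lit 1656) (nat_lit 115) (.e (nat_lit 393301) (nat_lit 27) (.e (nat_lit 491568) (nat_lit 13) (.e (nat_lit 393232) (nat_lit 17) .nil))))) .nil))) (.nd (nat_lit 6) 
(.lf (nat_lit 127021) (.g (nat_lit 1541) (.e (nat_lit 7526) (nat_lit 402) (.e (nat_lit 1656) (nat_lit 115) (.e (nat_lit 393234) (nat_lit 17) (.e (nat_lit 7587) (nat_lit 406) .nil)))) .nil)) 
(.lf (nat_lit 127085) (.g (nat_lit 2469) (.e (nat_lit 7536) (nat_lit 402) (.e (nat_lit 1656) (nat_lit 115) (.e (nat_lit 393301) (nat_lit 27) (.e (nat_lit 491568) (nat_lit 13) (.e (nat_lit 393233) (nat_lit 17) .nil))))) .nil)))) (.nd (nat_lit 5) (.nd (nat_lit 6) 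
(.lf (nat_lit 127005) (.g (nat_lit 2516) (.e (nat_lit 7524) (nat_lit 402) (.e (nat_lit 1656) (nat_lit 115) (.e (nat_lit 393300) (nat_lit 27) (.e (nat_lit 491568) (nat_lit 13) (.e (nat_lit 393247) (nat_lit 17) .nil))))) .nil)) 
(.lf (nat_lit 127069) (.g (nat_lit 2506) (.e (nat_lit 7536) (nat_lit 402) (.e (nat_lit 1454) (nat_lit 108) (.e (nat_lit 336389) (nat_lit 27) (.e (nat_lit 426341) (nat_lit 14) (.e (nat_lit 491569) (nat_lit 13) .nil))))) .nil))) (.nd (nat_lit 6) 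
(.lf (nat_lit 127037) (.g (nat_lit 2652) (.e (nat_lit 7533) (nat_lit 402) (.e (nat_lit 1633) (nat_lit 114) (.e (nat_lit 385074) (nat_lit 31) (.e (nat_lit 573491) (nat_lit 15) (.e (nat_lit 81954) (nat_lit 23) .nil))))) .nil)) 
(.lf (nat_lit 127101) (.g (nat_lit 2566) (.e (nat_lit 7537) (nat_lit 402) (.e (nat_lit 1661) (nat_lit 115) (.e (nat_lit 393260) (nat_lit 21) (.e (nat_lit 409614) (nat_lit 10) .nil)))) .nil))))))) (.nd (nat_lit 2) (.nd (nat_lit 3) (.nd (nat_lit 4) (.nd (nat_lit 5) (.nd (nat_lit 6) 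
(.lf (nat_lit 126979) (.g (nat_lit 1712) (.e (nat_lit 7523) (nat_lit 402) (.e (nat_lit 1659) (nat_lit 115) (.e (nat_lit 393234) (nat_lit 17) (.e (nat_lit 7587) (nat_lit 406) (.e (nat_lit 65653) (nat_lit 27) .nil))))) .nil)) 
(.lf (nat_lit 127043) (.g (nat_lit 2153) (.e (nat_lit 7533) (nat_lit 402) (.e (nat_lit 1656) (nat_lit 115) (.e (nat_lit 393300) (nat_lit 27) (.e (nat_lit 491568) (nat_lit 13) (.e (nat_lit 393230) (nat_lit 17) .nil))))) .nil))) (.nd (nat_lit 6) 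
(.lf (nat_lit 127011) (.g (nat_lit 1390) (.e (nat_lit 7524) (nat_lit 402) (.e (nat_lit 1656) (nat_lit 115) (.e (nat_lit 393301) (nat_lit 27) (.e (nat_lit 491547) (nat_lit 9) .nil)))) .nil)) 
(.lf (nat_lit 127075) (.g (nat_lit 4540) (.e (nat_lit 7536) (nat_lit 402) (.e (nat_lit 1656) (nat_lit 115) (.e (nat_lit 393234) (nat_lit 17) (.e (nat_lit 7536) (nat_lit 402) (.e (nat_lit 1656) (nat_lit 115) (.e (nat_lit 393234) (nat_lit 17) .nil)))))) (.g (nat_lit 0) .nil .nil))))) (.nd (nat_lit 5) (.nd (nat_lit 6) 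
(.lf (nat_lit 126995) (.g (nat_lit 3115) (.e (nat_lit 7523) (nat_lit 402) (.e (nat_lit 1661) (nat_lit 115) (.e (nat_lit 393260) (nat_lit 21) (.e (nat_lit 409617) (nat_lit 10) (.e (nat_lit 5353) (nat_lit 298) .nil))))) .nil)) 
(.lf (nat_lit 127059) (.g (nat_lit 2009) (.e (nat_lit 7535) (nat_lit 402) (.e (nat_lit 1633) (nat_lit 114) (.e (nat_lit 385074) (nat_lit 31) (.e (nat_lit 573492) (nat_lit 15) .nil)))) .nil))) (.nd (nat_lit 6) 
(.lf (nat_lit 127027) (.g (nat_lit 2059) (.e (nat_lit 7528) (nat_lit 402) (.e (nat_lit 1661) (nat_lit 115) (.e (nat_lit 393260) (nat_lit 21) (.e (nat_lit 409617) (nat_lit 10) .nil)))) .nil)) 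
(.lf (nat_lit 127091) (.g (nat_lit 4243) (.e (nat_lit 7537) (nat_lit 402) (.e (nat_lit 1638) (nat_lit 114) (.e (nat_lit 385074) (nat_lit 31) (.e (nat_lit 573493) (nat_lit 15) (.e (nat_lit 81956) (nat_lit 23) (.e (nat_lit 106240) (nat_lit 17) .nil)))))) (.g (nat_lit 5) .nil .nil)))))) (.nd (nat_lit 4) (.nd (nat_lit 5) (.nd (nat_lit 6) 
(.lf (nat_lit 126987) (.g (nat_lit 2488) (.e (nat_lit 7523) (nat_lit 402) (.e (nat_lit 1659) (nat_lit 115) (.e (nat_lit 393301) (nat_lit 27) (.e (nat_lit 491552) (nat_lit 9) (.e (nat_lit 336412) (nat_lit 27) .nil))))) .nil)) 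
(.lf (nat_lit 127051) (.g (nat_lit 2719) (.e (nat_lit 7533) (nat_lit 402) (.e (nat_lit 1656) (nat_lit 115) (.e (nat_lit 393301) (nat_lit 27) (.e (nat_lit 491567) (nat_lit 13) (.e (nat_lit 393233) (nat_lit 17) .nil))))) .nil))) (.nd (nat_lit 6) 
(.lf (nat_lit 127019) (.g (nat_lit 555) (.e (nat_lit 7525) (nat_lit 402) (.e (nat_lit 1656) (nat_lit 115) (.e (nat_lit 393301) (nat_lit 27) .nil))) .nil)) 
(.lf (nat_lit 127083) (.g (nat_lit 1679) (.e (nat_lit 7536) (nat_lit 402) (.e (nat_lit 1656) (nat_lit 115) (.e (nat_lit 393301) (nat_lit 27) (.e (nat_lit 491567) (nat_lit 13) .nil)))) .nil)))) (.nd (nat_lit 5) (.nd (nat_lit 6) 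
(.lf (nat_lit 127003) (.g (nat_lit 1303) (.e (nat_lit 7524) (nat_lit 402) (.e (nat_lit 1656) (nat_lit 115) (.e (nat_lit 393300) (nat_lit 27) (.e (nat_lit 491555) (nat_lit 9) .nil)))) .nil)) 
(.lf (nat_lit 127067) (.g (nat_lit 1823) (.e (nat_lit 7536) (nat_lit 402) (.e (nat_lit 1454) (nat_lit 108) (.e (nat_lit 336295) (nat_lit 15) (.e (nat_lit 7936) (nat_lit 377) .nil)))) .nil))) (.nd (nat_lit 6) 
(.lf (nat_lit 127035) (.g (nat_lit 1604) (.e (nat_lit 7532) (nat_lit 402) (.e (nat_lit 1661) (nat_lit 115) (.e (nat_lit 393260) (nat_lit 21) (.e (nat_lit 409617) (nat_lit 10) .nil)))) .nil)) 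
(.lf (nat_lit 127099) (.g (nat_lit 1381) (.e (nat_lit 7537) (nat_lit 402) (.e (nat_lit 1661) (nat_lit 115) (.e (nat_lit 393238) (nat_lit 17) (.e (nat_lit 7537) (nat_lit 402) .nil)))) .nil)))))) (.nd (nat_lit 3) (.nd (nat_lit 4) (.nd (nat_lit 5) (.nd (nat_lit 6) 
(.lf (nat_lit 126983) (.g (nat_lit 1215) (.e (nat_lit 7523) (nat_lit 402) (.e (nat_lit 1659) (nat_lit 115) (.e (nat_lit 393298) (nat_lit 27) (.e (nat_lit 491569) (nat_lit 13) .nil)))) .nil)) 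
(.lf (nat_lit 127047) (.g (nat_lit 2916) (.e (nat_lit 7533) (nat_lit 402) (.e (nat_lit 1656) (nat_lit 115) (.e (nat_lit 393300) (nat_lit 27) (.e (nat_lit 491570) (nat_lit 13) (.e (nat_lit 393232) (nat_lit 17) .nil))))) .nil))) (.nd (nat_lit 6) 
(.lf (nat_lit 127015) (.g (nat_lit 797) (.e (nat_lit 7525) (nat_lit 402) (.e (nat_lit 1633) (nat_lit 114) (.e (nat_lit 385094) (nat_lit 49) .nil))) .nil)) 
(.lf (nat_lit 127079) (.g (nat_lit 1122) (.e (nat_lit 7536) (nat_lit 402) (.e (nat_lit 1656) (nat_lit 115) (.e (nat_lit 393300) (nat_lit 27) (.e (nat_lit 491567) (nat_lit 13) .nil)))) .nil)))) (.nd (nat_lit 5) (.nd (nat_lit 6) 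
(.lf (nat_lit 126999) (.g (nat_lit 781) (.e (nat_lit 7524) (nat_lit 402) (.e (nat_lit 1633) (nat_lit 114) (.e (nat_lit 392960) (nat_lit 24) .nil))) .nil)) 
(.lf (nat_lit 127063) (.g (nat_lit 1447) (.e (nat_lit 7535) (nat_lit 402) (.e (nat_lit 1656) (nat_lit 115) (.e (nat_lit 393299) (nat_lit 27) (.e (nat_lit 491568) (nat_lit 13) .nil)))) .nil))) (.nd (nat_lit 6) 
(.lf (nat_lit 127031) (.g (nat_lit 3069) (.e (nat_lit 7529) (nat_lit 402) (.e (nat_lit 1661) (nat_lit 115) (.e (nat_lit 393260) (nat_lit 21) (.e (nat_lit 409617) (nat_lit 10) (.e (nat_lit 5353) (nat_lit 298) .nil))))) .nil)) 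
(.lf (nat_lit 127095) (.g (nat_lit 2760) (.e (nat_lit 7537) (nat_lit 402) (.e (nat_lit 1659) (nat_lit 115) (.e (nat_lit 393301) (nat_lit 27) (.e (nat_lit 491547) (nat_lit 9) (.e (nat_lit 336369) (nat_lit 27) .nil))))) .nil))))) (.nd (nat_lit 4) (.nd (nat_lit 5) (.nd (nat_lit 6) 
(.lf (nat_lit 126991) (.g (nat_lit 2361) (.e (nat_lit 7523) (nat_lit 402) (.e (nat_lit 1660) (nat_lit 115) (.e (nat_lit 393260) (nat_lit 21) (.e (nat_lit 409616) (nat_lit 10) (.e (nat_lit 7936) (nat_lit 300) .nil))))) .nil)) 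
(.lf (nat_lit 127055) (.g (nat_lit 441) (.e (nat_lit 7534) (nat_lit 402) (.e (nat_lit 1659) (nat_lit 115) (.e (nat_lit 393234) (nat_lit 17) .nil))) .nil))) (.nd (nat_lit 6) 
(.lf (nat_lit 127023) (.g (nat_lit 1351) (.e (nat_lit 7526) (nat_lit 402) (.e (nat_lit 1656) (nat_lit 115) (.e (nat_lit 393300) (nat_lit 27) (.e (nat_lit 491547) (nat_lit 9) .nil)))) .nil)) 
(.lf (nat_lit 127087) (.g (nat_lit 797) (.e (nat_lit 7537) (nat_lit 402) (.e (nat_lit 1427) (nat_lit 108) (.e (nat_lit 336421) (nat_lit 28) .nil))) .nil)))) (.nd (nat_lit 5) (.nd (nat_lit 6) 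
(.lf (nat_lit 127007) (.g (nat_lit 2334) (.e (nat_lit 7524) (nat_lit 402) (.e (nat_lit 1656) (nat_lit 115) (.e (nat_lit 393300) (nat_lit 27) (.e (nat_lit 491569) (nat_lit 13) (.e (nat_lit 393247) (nat_lit 17) .nil))))) .nil)) 
(.lf (nat_lit 127071) (.g (nat_lit 1703) (.e (nat_lit 7536) (nat_lit 402) (.e (nat_lit 1530) (nat_lit 109) (.e (nat_lit 344177) (nat_lit 43) (.e (nat_lit 770072) (nat_lit 8) (.e (nat_lit 65626) (nat_lit 13) .nil))))) .nil))) (.nd (nat_lit 6) 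
(.lf (nat_lit 127039) (.g (nat_lit 1370) (.e (nat_lit 7533) (nat_lit 402) (.e (nat_lit 1656) (nat_lit 115) (.e (nat_lit 393234) (nat_lit 17) (.e (nat_lit 7589) (nat_lit 406) .nil)))) .nil)) 
(.lf (nat_lit 127103) (.g (nat_lit 2785) (.e (nat_lit 7537) (nat_lit 402) (.e (nat_lit 1661) (nat_lit 115) (.e (nat_lit 393260) (nat_lit 21) (.e (nat_lit 409617) (nat_lit 10) (.e (nat_lit 5353) (nat_lit 298) (.e (nat_lit 418) (nat_lit 32) (.e (nat_lit 433920) (nat_lit 0) .nil))))))) (.g (nat_lit 4) .nil .nil))))))))))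

noncomputable def tv1704 : DT := (.nd (nat_lit 0) (.nd (nat_lit 1) (.nd (nat_lit 2) (.nd (nat_lit 3) (.nd (nat_lit 4) (.nd (nat_lit 5) (.nd (nat_lit 6) 
(.lf (nat_lit 127104) (.g (nat_lit 2738) (.e (nat_lit 7537) (nat_lit 402) (.e (nat_lit 1661) (nat_lit 115) (.e (nat_lit 393260) (nat_lit 21) (.e (nat_lit 409617) (nat_lit 10) (.e (nat_lit 7936) (nat_lit 300) (.e (nat_lit 24320) (nat_lit 0) .nil)))))) (.g (nat_lit 4) .nil .nil))) 
(.lf (nat_lit 127168) (.g (nat_lit 667) (.e (nat_lit 7545) (nat_lit 402) (.e (nat_lit 1238) (nat_lit 91) (.e (nat_lit 90176) (nat_lit 15) (.e (nat_lit 188439) (nat_lit 20) .nil)))) .nil))) (.nd (nat_lit 6) 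
(.lf (nat_lit 127136) (.g (nat_lit 2531) (.e (nat_lit 7540) (nat_lit 402) (.e (nat_lit 1234) (nat_lit 91) (.e (nat_lit 90170) (nat_lit 13) (.e (nat_lit 172126) (nat_lit 14) (.e (nat_lit 491537) (nat_lit 2) .nil))))) .nil)) 
(.lf (nat_lit 127200) (.g (nat_lit 2457) (.e (nat_lit 7554) (nat_lit 402) (.e (nat_lit 1638) (nat_lit 114) (.e (nat_lit 385074) (nat_lit 31) (.e (nat_lit 573479) (nat_lit 13) (.e (nat_lit 65619) (nat_lit 10) .nil))))) .nil)))) (.nd (nat_lit 5) (.nd (nat_lit 6) 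
(.lf (nat_lit 127120) (.g (nat_lit 2398) (.e (nat_lit 7538) (nat_lit 402) (.e (nat_lit 1661) (nat_lit 115) (.e (nat_lit 393260) (nat_lit 21) (.e (nat_lit 409617) (nat_lit 10) (.e (nat_lit 5353) (nat_lit 298) .nil))))) .nil)) 
(.lf (nat_lit 127184) (.g (nat_lit 2509) (.e (nat_lit 7548) (nat_lit 402) (.e (nat_lit 1661) (nat_lit 115) (.e (nat_lit 393260) (nat_lit 21) (.e (nat_lit 409616) (nat_lit 10) .nil)))) .nil))) (.nd (nat_lit 6) 
(.lf (nat_lit 127152) (.g (nat_lit 2145) (.e (nat_lit 7541) (nat_lit 402) (.e (nat_lit 1234) (nat_lit 91) (.e (nat_lit 90170) (nat_lit 13) (.e (nat_lit 172113) (nat_lit 10) (.e (nat_lit 434248) (nat_lit 28) .nil))))) .nil)) 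
(.lf (nat_lit 127216) (.g (nat_lit 1391) (.e (nat_lit 7554) (nat_lit 402) (.e (nat_lit 1661) (nat_lit 115) (.e (nat_lit 393260) (nat_lit 21) (.e (nat_lit 409617) (nat_lit 10) .nil)))) .nil))))) (.nd (nat_lit 4) (.nd (nat_lit 5) (.nd (nat_lit 6) 
(.lf (nat_lit 127112) (.g (nat_lit 2379) (.e (nat_lit 7537) (nat_lit 402) (.e (nat_lit 1661) (nat_lit 115) (.e (nat_lit 393298) (nat_lit 27) (.e (nat_lit 491570) (nat_lit 13) (.e (nat_lit 393230) (nat_lit 17) .nil))))) .nil)) 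
(.lf (nat_lit 127176) (.g (nat_lit 2555) (.e (nat_lit 7545) (nat_lit 402) (.e (nat_lit 1650) (nat_lit 115) (.e (nat_lit 393298) (nat_lit 27) (.e (nat_lit 491571) (nat_lit 13) (.e (nat_lit 393232) (nat_lit 17) .nil))))) .nil))) (.nd (nat_lit 6) 
(.lf (nat_lit 127144) (.g (nat_lit 762) (.e (nat_lit 7541) (nat_lit 402) (.e (nat_lit 1227) (nat_lit 91) (.e (nat_lit 90176) (nat_lit 15) (.e (nat_lit 188439) (nat_lit 20) (.e (nat_lit 3271) (nat_lit 199) .nil))))) .nil)) 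
(.lf (nat_lit 127208) (.g (nat_lit 686) (.e (nat_lit 7554) (nat_lit 402) (.e (nat_lit 1661) (nat_lit 115) (.e (nat_lit 393235) (nat_lit 17) .nil))) .nil)))) (.nd (nat_lit 5) (.nd (nat_lit 6) 
(.lf (nat_lit 127128) (.g (nat_lit 1936) (.e (nat_lit 7538) (nat_lit 402) (.e (nat_lit 1661) (nat_lit 115) (.e (nat_lit 393299) (nat_lit 27) (.e (nat_lit 491569) (nat_lit 13) .nil)))) .nil)) 
(.lf (nat_lit 127192) (.g (nat_lit 1192) (.e (nat_lit 7554) (nat_lit 402) (.e (nat_lit 1234) (nat_lit 91) (.e (nat_lit 90176) (nat_lit 15) (.e (nat_lit 188439) (nat_lit 20) .nil)))) .nil))) (.nd (nat_lit 6) 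
(.lf (nat_lit 127160) (.g (nat_lit 4375) (.e (nat_lit 7545) (nat_lit 402) (.e (nat_lit 1228) (nat_lit 91) (.e (nat_lit 90167) (nat_lit 13) (.e (nat_lit 172126) (nat_lit 14) (.e (nat_lit 491537) (nat_lit 2) (.e (nat_lit 90185) (nat_lit 17) (.e (nat_lit 237568) (nat_lit 0) .nil))))))) (.g (nat_lit 6) .nil .nil))) 
(.lf (nat_lit 127224) (.g (nat_lit 3343) (.e (nat_lit 7555) (nat_lit 402) (.e (nat_lit 1234) (nat_lit 91) (.e (nat_lit 90170) (nat_lit 13) (.e (nat_lit 172106) (nat_lit 10) (.e (nat_lit 434238) (nat_lit 25) .nil))))) .nil)))))) (.nd (nat_lit 3) (.nd (nat_lit 4) (.nd (nat_lit 5) (.nd (nat_lit 6) 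
(.lf (nat_lit 127108) (.g (nat_lit 1070) (.e (nat_lit 7537) (nat_lit 402) (.e (nat_lit 1661) (nat_lit 115) (.e (nat_lit 393290) (nat_lit 26) (.e (nat_lit 475210) (nat_lit 41) .nil)))) .nil)) 
(.lf (nat_lit 127172) (.g (nat_lit 3017) (.e (nat_lit 7545) (nat_lit 402) (.e (nat_lit 1255) (nat_lit 92) (.e (nat_lit 98373) (nat_lit 29) (.e (nat_lit 450588) (nat_lit 10) (.e (nat_lit 573452) (nat_lit 9) (.e (nat_lit 430) (nat_lit 32) (.e (nat_lit 426011) (nat_lit 0) .nil))))))) (.g (nat_lit 4) .nil .nil)))) (.nd (nat_lit 6) 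
(.lf (nat_lit 127140) (.g (nat_lit 1738) (.e (nat_lit 7540) (nat_lit 402) (.e (nat_lit 1529) (nat_lit 109) (.e (nat_lit 344126) (nat_lit 25) (.e (nat_lit 548874) (nat_lit 5) (.e (nat_lit 1598) (nat_lit 111) .nil))))) .nil)) 
(.lf (nat_lit 127204) (.g (nat_lit 1729) (.e (nat_lit 7554) (nat_lit 402) (.e (nat_lit 1658) (nat_lit 115) (.e (nat_lit 393301) (nat_lit 27) (.e (nat_lit 491568) (nat_lit 13) (.e (nat_lit 393242) (nat_lit 17) .nil))))) .nil)))) (.nd (nat_lit 5) (.nd (nat_lit 6) 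
(.lf (nat_lit 127124) (.g (nat_lit 2657) (.e (nat_lit 7538) (nat_lit 402) (.e (nat_lit 1661) (nat_lit 115) (.e (nat_lit 393298) (nat_lit 27) (.e (nat_lit 491569) (nat_lit 13) (.e (nat_lit 393234) (nat_lit 17) .nil))))) .nil)) 
(.lf (nat_lit 127188) (.g (nat_lit 1909) (.e (nat_lit 7550) (nat_lit 402) (.e (nat_lit 1520) (nat_lit 108) (.e (nat_lit 336021) (nat_lit 3) (.e (nat_lit 98389) (nat_lit 33) (.e (nat_lit 491546) (nat_lit 9) .nil))))) .nil))) (.nd (nat_lit 6) 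
(.lf (nat_lit 127156) (.g (nat_lit 516) (.e (nat_lit 7541) (nat_lit 402) (.e (nat_lit 1234) (nat_lit 91) (.e (nat_lit 90176) (nat_lit 15) .nil))) .nil)) 
(.lf (nat_lit 127220) (.g (nat_lit 888) (.e (nat_lit 7554) (nat_lit 402) (.e (nat_lit 1661) (nat_lit 115) (.e (nat_lit 393297) (nat_lit 27) (.e (nat_lit 491570) (nat_lit 13) .nil)))) .nil))))) (.nd (nat_lit 4) (.nd (nat_lit 5) (.nd (nat_lit 6) 
(.lf (nat_lit 127116) (.g (nat_lit 1942) (.e (nat_lit 7538) (nat_lit 402) (.e (nat_lit 1659) (nat_lit 115) (.e (nat_lit 393301) (nat_lit 27) (.e (nat_lit 491567) (nat_lit 13) (.e (nat_lit 393234) (nat_lit 17) .nil))))) .nil)) 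
(.lf (nat_lit 127180) (.g (nat_lit 1750) (.e (nat_lit 7545) (nat_lit 402) (.e (nat_lit 1664) (nat_lit 115) (.e (nat_lit 393301) (nat_lit 27) (.e (nat_lit 491552) (nat_lit 9) (.e (nat_lit 336412) (nat_lit 27) .nil))))) .nil))) (.nd (nat_lit 6) 
(.lf (nat_lit 127148) (.g (nat_lit 2092) (.e (nat_lit 7541) (nat_lit 402) (.e (nat_lit 1234) (nat_lit 91) (.e (nat_lit 90170) (nat_lit 13) (.e (nat_lit 172113) (nat_lit 10) (.e (nat_lit 434245) (nat_lit 28) .nil))))) .nil)) 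
(.lf (nat_lit 127212) (.g (nat_lit 1559) (.e (nat_lit 7554) (nat_lit 402) (.e (nat_lit 1661) (nat_lit 115) (.e (nat_lit 393238) (nat_lit 17) (.e (nat_lit 7555) (nat_lit 402) .nil)))) .nil)))) (.nd (nat_lit 5) (.nd (nat_lit 6) 
(.lf (nat_lit 127132) (.g (nat_lit 2442) (.e (nat_lit 7540) (nat_lit 402) (.e (nat_lit 1234) (nat_lit 91) (.e (nat_lit 90170) (nat_lit 13) (.e (nat_lit 172113) (nat_lit 10) (.e (nat_lit 434245) (nat_lit 28) (.e (nat_lit 573458) (nat_lit 9) (.e (nat_lit 426) (nat_lit 32) (.e (nat_lit 426028) (nat_lit 0) .nil)))))))) (.g (nat_lit 4) .nil .nil))) 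
(.lf (nat_lit 127196) (.g (nat_lit 2741) (.e (nat_lit 7554) (nat_lit 402) (.e (nat_lit 1253) (nat_lit 92) (.e (nat_lit 98373) (nat_lit 29) (.e (nat_lit 450583) (nat_lit 7) (.e (nat_lit 548913) (nat_lit 18) .nil))))) .nil))) (.nd (nat_lit 6) 
(.lf (nat_lit 127164) (.g (nat_lit 1438) (.e (nat_lit 7545) (nat_lit 402) (.e (nat_lit 1228) (nat_lit 91) (.e (nat_lit 90172) (nat_lit 14) (.e (nat_lit 180285) (nat_lit 45) (.e (nat_lit 2571) (nat_lit 160) (.e (nat_lit 32807) (nat_lit 18) (.e (nat_lit 172034) (nat_lit 0) .nil))))))) (.g (nat_lit 6) .nil .nil))) 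
(.lf (nat_lit 127228) (.g (nat_lit 3473) (.e (nat_lit 7555) (nat_lit 402) (.e (nat_lit 1253) (nat_lit 92) (.e (nat_lit 98373) (nat_lit 29) (.e (nat_lit 450586) (nat_lit 10) (.e (nat_lit 573450) (nat_lit 9) (.e (nat_lit 375) (nat_lit 32) (.e (nat_lit 426025) (nat_lit 0) .nil))))))) (.g (nat_lit 4) .nil .nil)))))))) 
(.nd (nat_lit 2) (.nd (nat_lit 3) (.nd (nat_lit 4) (.nd (nat_lit 5) (.nd (nat_lit 6) 
(.lf (nat_lit 127106) (.g (nat_lit 1131) (.e (nat_lit 7537) (nat_lit 402) (.e (nat_lit 1661) (nat_lit 115) (.e (nat_lit 393274) (nat_lit 23) (.e (nat_lit 426043) (nat_lit 0) .nil)))) .nil)) 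
(.lf (nat_lit 127170) (.g (nat_lit 2571) (.e (nat_lit 7545) (nat_lit 402) (.e (nat_lit 1238) (nat_lit 91) (.e (nat_lit 90178) (nat_lit 15) (.e (nat_lit 188440) (nat_lit 20) (.e (nat_lit 3307) (nat_lit 202) (.e (nat_lit 573456) (nat_lit 9) (.e (nat_lit 430) (nat_lit 32) (.e (nat_lit 426012) (nat_lit 0) .nil)))))))) (.g (nat_lit 5) .nil .nil)))) (.nd (nat_lit 6) 
(.lf (nat_lit 127138) (.g (nat_lit 1414) (.e (nat_lit 7540) (nat_lit 402) (.e (nat_lit 1238) (nat_lit 91) (.e (nat_lit 90176) (nat_lit 15) (.e (nat_lit 188450) (nat_lit 23) (.e (nat_lit 204885) (nat_lit 33) .nil))))) .nil)) 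
(.lf (nat_lit 127202) (.g (nat_lit 1496) (.e (nat_lit 7554) (nat_lit 402) (.e (nat_lit 1658) (nat_lit 115) (.e (nat_lit 393298) (nat_lit 27) (.e (nat_lit 491571) (nat_lit 13) (.e (nat_lit 393242) (nat_lit 17) .nil))))) .nil)))) (.nd (nat_lit 5) (.nd (nat_lit 6) 
(.lf (nat_lit 127122) (.g (nat_lit 2316) (.e (nat_lit 7538) (nat_lit 402) (.e (nat_lit 1661) (nat_lit 115) (.e (nat_lit 393297) (nat_lit 27) (.e (nat_lit 491571) (nat_lit 13) (.e (nat_lit 393231) (nat_lit 17) .nil))))) .nil)) 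
(.lf (nat_lit 127186) (.g (nat_lit 1952) (.e (nat_lit 7550) (nat_lit 402) (.e (nat_lit 1512) (nat_lit 108) (.e (nat_lit 336051) (nat_lit 6) (.e (nat_lit 147495) (nat_lit 11) (.e (nat_lit 24659) (nat_lit 13) .nil))))) .nil))) (.nd (nat_lit 6) 
(.lf (nat_lit 127154) (.g (nat_lit 2707) (.e (nat_lit 7541) (nat_lit 402) (.e (nat_lit 1234) (nat_lit 91) (.e (nat_lit 90170) (nat_lit 13) (.e (nat_lit 172120) (nat_lit 12) (.e (nat_lit 475185) (nat_lit 29) .nil))))) .nil)) 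
(.lf (nat_lit 127218) (.g (nat_lit 2213) (.e (nat_lit 7554) (nat_lit 402) (.e (nat_lit 1661) (nat_lit 115) (.e (nat_lit 393260) (nat_lit 21) (.e (nat_lit 409617) (nat_lit 10) (.e (nat_lit 7936) (nat_lit 300) (.e (nat_lit 16397) (nat_lit 0) .nil)))))) (.g (nat_lit 4) .nil .nil)))))) (.nd (nat_lit 4) (.nd (nat_lit 5) (.nd (nat_lit 6) 
(.lf (nat_lit 127114) (.g (nat_lit 1382) (.e (nat_lit 7537) (nat_lit 402) (.e (nat_lit 1661) (nat_lit 115) (.e (nat_lit 393299) (nat_lit 27) (.e (nat_lit 491569) (nat_lit 13) .nil)))) .nil)) 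
(.lf (nat_lit 127178) (.g (nat_lit 1814) (.e (nat_lit 7545) (nat_lit 402) (.e (nat_lit 1658) (nat_lit 115) (.e (nat_lit 393301) (nat_lit 27) (.e (nat_lit 491567) (nat_lit 13) (.e (nat_lit 393234) (nat_lit 17) .nil))))) .nil))) (.nd (nat_lit 6) 
(.lf (nat_lit 127146) (.g (nat_lit 3081) (.e (nat_lit 7541) (nat_lit 402) (.e (nat_lit 1234) (nat_lit 91) (.e (nat_lit 90170) (nat_lit 13) (.e (nat_lit 172106) (nat_lit 10) (.e (nat_lit 434244) (nat_lit 28) (.e (nat_lit 573450) (nat_lit 9) (.e (nat_lit 375) (nat_lit 32) (.e (nat_lit 426005) (nat_lit 0) .nil)))))))) (.g (nat_lit 4) .nil .nil))) 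
(.lf (nat_lit 127210) (.g (nat_lit 2125) (.e (nat_lit 7554) (nat_lit 402) (.e (nat_lit 1661) (nat_lit 115) (.e (nat_lit 393238) (nat_lit 17) (.e (nat_lit 6989) (nat_lit 377) (.e (nat_lit 2777) (nat_lit 178) .nil))))) .nil)))) (.nd (nat_lit 5) (.nd (nat_lit 6) 
(.lf (nat_lit 127130) (.g (nat_lit 495) (.e (nat_lit 7540) (nat_lit 402) (.e (nat_lit 1234) (nat_lit 91) (.e (nat_lit 90170) (nat_lit 13) .nil))) .nil)) 
(.lf (nat_lit 127194) (.g (nat_lit 1951) (.e (nat_lit 7554) (nat_lit 402) (.e (nat_lit 1234) (nat_lit 91) (.e (nat_lit 90178) (nat_lit 15) (.e (nat_lit 188441) (nat_lit 20) (.e (nat_lit 3271) (nat_lit 199) .nil))))) .nil))) (.nd (nat_lit 6) 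
(.lf (nat_lit 127162) (.g (nat_lit 1219) (.e (nat_lit 7545) (nat_lit 402) (.e (nat_lit 1228) (nat_lit 91) (.e (nat_lit 90172) (nat_lit 14) (.e (nat_lit 180278) (nat_lit 32) (.e (nat_lit 1253) (nat_lit 92) .nil))))) .nil)) 
(.lf (nat_lit 127226) (.g (nat_lit 3887) (.e (nat_lit 7555) (nat_lit 402) (.e (nat_lit 1235) (nat_lit 91) (.e (nat_lit 90170) (nat_lit 13) (.e (nat_lit 172106) (nat_lit 10) (.e (nat_lit 434244) (nat_lit 28) (.e (nat_lit 573471) (nat_lit 11) (.e (nat_lit 16392) (nat_lit 0) .nil))))))) (.g (nat_lit 7) .nil .nil))))))) (.nd (nat_lit 3) (.nd (nat_lit 4) (.nd (nat_lit 5) (.nd (nat_lit 6) 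
(.lf (nat_lit 127110) (.g (nat_lit 778) (.e (nat_lit 7537) (nat_lit 402) (.e (nat_lit 1661) (nat_lit 115) (.e (nat_lit 393297) (nat_lit 27) (.e (nat_lit 491550) (nat_lit 9) .nil)))) .nil)) 
(.lf (nat_lit 127174) (.g (nat_lit 1921) (.e (nat_lit 7545) (nat_lit 402) (.e (nat_lit 1416) (nat_lit 108) (.e (nat_lit 336369) (nat_lit 27) (.e (nat_lit 426173) (nat_lit 7) (.e (nat_lit 409617) (nat_lit 10) .nil))))) .nil))) (.nd (nat_lit 6) 
(.lf (nat_lit 127142) (.g (nat_lit 805) (.e (nat_lit 7540) (nat_lit 402) (.e (nat_lit 1536) (nat_lit 109) (.e (nat_lit 344126) (nat_lit 25) (.e (nat_lit 548873) (nat_lit 5) .nil)))) .nil)) 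
(.lf (nat_lit 127206) (.g (nat_lit 1297) (.e (nat_lit 7554) (nat_lit 402) (.e (nat_lit 1659) (nat_lit 115) (.e (nat_lit 393301) (nat_lit 27) (.e (nat_lit 491567) (nat_lit 13) .nil)))) .nil)))) (.nd (nat_lit 5) (.nd (nat_lit 6) 
(.lf (nat_lit 127126) (.g (nat_lit 2590) (.e (nat_lit 7538) (nat_lit 402) (.e (nat_lit 1661) (nat_lit 115) (.e (nat_lit 393299) (nat_lit 27) (.e (nat_lit 491567) (nat_lit 13) (.e (nat_lit 393234) (nat_lit 17) .nil))))) .nil)) 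
(.lf (nat_lit 127190) (.g (nat_lit 1281) (.e (nat_lit 7554) (nat_lit 402) (.e (nat_lit 1234) (nat_lit 91) (.e (nat_lit 90170) (nat_lit 13) (.e (nat_lit 172113) (nat_lit 10) .nil)))) .nil))) (.nd (nat_lit 6) 
(.lf (nat_lit 127158) (.g (nat_lit 2762) (.e (nat_lit 7544) (nat_lit 402) (.e (nat_lit 1237) (nat_lit 91) (.e (nat_lit 90170) (nat_lit 13) (.e (nat_lit 172106) (nat_lit 10) (.e (nat_lit 434244) (nat_lit 28) (.e (nat_lit 573451) (nat_lit 9) (.e (nat_lit 428) (nat_lit 32) (.e (nat_lit 425990) (nat_lit 0) .nil)))))))) (.g (nat_lit 6) .nil .nil))) 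
(.lf (nat_lit 127222) (.g (nat_lit 2698) (.e (nat_lit 7554) (nat_lit 402) (.e (nat_lit 1661) (nat_lit 115) (.e (nat_lit 393298) (nat_lit 27) (.e (nat_lit 491571) (nat_lit 13) (.e (nat_lit 393238) (nat_lit 17) .nil))))) .nil))))) (.nd (nat_lit 4) (.nd (nat_lit 5) (.nd (nat_lit 6) 
(.lf (nat_lit 127118) (.g (nat_lit 648) (.e (nat_lit 7538) (nat_lit 402) (.e (nat_lit 1661) (nat_lit 115) (.e (nat_lit 393242) (nat_lit 17) .nil))) .nil)) 
(.lf (nat_lit 127182) (.g (nat_lit 1137) (.e (nat_lit 7548) (nat_lit 402) (.e (nat_lit 1428) (nat_lit 108) (.e (nat_lit 336369) (nat_lit 27) (.e (nat_lit 426173) (nat_lit 7) (.e (nat_lit 409617) (nat_lit 10) .nil))))) .nil))) (.nd (nat_lit 6) 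
(.lf (nat_lit 127150) (.g (nat_lit 3723) (.e (nat_lit 7541) (nat_lit 402) (.e (nat_lit 1234) (nat_lit 91) (.e (nat_lit 90170) (nat_lit 13) (.e (nat_lit 172113) (nat_lit 10) (.e (nat_lit 434245) (nat_lit 28) (.e (nat_lit 573451) (nat_lit 9) (.e (nat_lit 430) (nat_lit 32) (.e (nat_lit 426009) (nat_lit 0) .nil)))))))) (.g (nat_lit 6) .nil .nil))) 
(.lf (nat_lit 127214) (.g (nat_lit 578) (.e (nat_lit 7554) (nat_lit 402) (.e (nat_lit 1661) (nat_lit 115) (.e (nat_lit 393242) (nat_lit 17) .nil))) .nil)))) (.nd (nat_lit 5) (.nd (nat_lit 6) 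
(.lf (nat_lit 127134) (.g (nat_lit 2210) (.e (nat_lit 7540) (nat_lit 402) (.e (nat_lit 1234) (nat_lit 91) (.e (nat_lit 90170) (nat_lit 13) (.e (nat_lit 172113) (nat_lit 10) (.e (nat_lit 434245) (nat_lit 28) (.e (nat_lit 573458) (nat_lit 9) (.e (nat_lit 426) (nat_lit 32) (.e (nat_lit 426031) (nat_lit 0) .nil)))))))) (.g (nat_lit 4) .nil .nil))) 
(.lf (nat_lit 127198) (.g (nat_lit 512) (.e (nat_lit 7554) (nat_lit 402) (.e (nat_lit 1638) (nat_lit 114) (.e (nat_lit 392960) (nat_lit 24) .nil))) .nil))) (.nd (nat_lit 6) 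
(.lf (nat_lit 127166) (.g (nat_lit 1527) (.e (nat_lit 7545) (nat_lit 402) (.e (nat_lit 1228) (nat_lit 91) (.e (nat_lit 90178) (nat_lit 15) (.e (nat_lit 188440) (nat_lit 20) (.e (nat_lit 3307) (nat_lit 202) .nil))))) .nil)) 
(.lf (nat_lit 127230) (.g (nat_lit 1559) (.e (nat_lit 7555) (nat_lit 402) (.e (nat_lit 1428) (nat_lit 108) (.e (nat_lit 336369) (nat_lit 27) (.e (nat_lit 426025) (nat_lit 0) (.e (nat_lit 7537) (nat_lit 402) .nil))))) .nil)))))))) (.nd (nat_lit 1) (.nd (nat_lit 2) (.nd (nat_lit 3) (.nd (nat_lit 4) (.nd (nat_lit 5) (.nd (nat_lit 6) 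
(.lf (nat_lit 127105) (.g (nat_lit 2449) (.e (nat_lit 7537) (nat_lit 402) (.e (nat_lit 1661) (nat_lit 115) (.e (nat_lit 393260) (nat_lit 21) (.e (nat_lit 409641) (nat_lit 17) .nil)))) .nil)) 
(.lf (nat_lit 127169) (.g (nat_lit 177) (.e (nat_lit 7545) (nat_lit 402) (.e (nat_lit 1238) (nat_lit 91) (.e (nat_lit 90178) (nat_lit 15) .nil))) .nil))) (.nd (nat_lit 6) 
(.lf (nat_lit 127137) (.g (nat_lit 673) (.e (nat_lit 7540) (nat_lit 402) (.e (nat_lit 1238) (nat_lit 91) (.e (nat_lit 90176) (nat_lit 15) (.e (nat_lit 188439) (nat_lit 20) .nil)))) .nil)) 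
(.lf (nat_lit 127201) (.g (nat_lit 3020) (.e (nat_lit 7554) (nat_lit 402) (.e (nat_lit 1638) (nat_lit 114) (.e (nat_lit 385074) (nat_lit 31) (.e (nat_lit 573484) (nat_lit 13) (.e (nat_lit 65610) (nat_lit 10) .nil))))) .nil)))) (.nd (nat_lit 5) (.nd (nat_lit 6) 
(.lf (nat_lit 127121) (.g (nat_lit 2156) (.e (nat_lit 7538) (nat_lit 402) (.e (nat_lit 1661) (nat_lit 115) (.e (nat_lit 393260) (nat_lit 21) (.e (nat_lit 409617) (nat_lit 10) (.e (nat_lit 7936) (nat_lit 300) .nil))))) .nil)) 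
(.lf (nat_lit 127185) (.g (nat_lit 2811) (.e (nat_lit 7548) (nat_lit 402) (.e (nat_lit 1661) (nat_lit 115) (.e (nat_lit 393260) (nat_lit 21) (.e (nat_lit 409617) (nat_lit 10) (.e (nat_lit 7936) (nat_lit 300) .nil))))) .nil))) (.nd (nat_lit 6) 
(.lf (nat_lit 127153) (.g (nat_lit 3757) (.e (nat_lit 7541) (nat_lit 402) (.e (nat_lit 1234) (nat_lit 91) (.e (nat_lit 90170) (nat_lit 13) (.e (nat_lit 172113) (nat_lit 10) (.e (nat_lit 434248) (nat_lit 28) (.e (nat_lit 573452) (nat_lit 9) (.e (nat_lit 430) (nat_lit 32) (.e (nat_lit 426009) (nat_lit 0) .nil)))))))) (.g (nat_lit 6) .nil .nil))) 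
(.lf (nat_lit 127217) (.g (nat_lit 1938) (.e (nat_lit 7554) (nat_lit 402) (.e (nat_lit 1661) (nat_lit 115) (.e (nat_lit 393260) (nat_lit 21) (.e (nat_lit 409617) (nat_lit 10) (.e (nat_lit 7936) (nat_lit 300) .nil))))) .nil))))) (.nd (nat_lit 4) (.nd (nat_lit 5) (.nd (nat_lit 6) 
(.lf (nat_lit 127113) (.g (nat_lit 1540) (.e (nat_lit 7537) (nat_lit 402) (.e (nat_lit 1661) (nat_lit 115) (.e (nat_lit 393299) (nat_lit 27) (.e (nat_lit 491567) (nat_lit 13) .nil)))) .nil)) 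
(.lf (nat_lit 127177) (.g (nat_lit 844) (.e (nat_lit 7545) (nat_lit 402) (.e (nat_lit 1650) (nat_lit 115) (.e (nat_lit 393300) (nat_lit 27) (.e (nat_lit 491567) (nat_lit 13) .nil)))) .nil))) (.nd (nat_lit 6) 
(.lf (nat_lit 127145) (.g (nat_lit 2971) (.e (nat_lit 7541) (nat_lit 402) (.e (nat_lit 1234) (nat_lit 91) (.e (nat_lit 90170) (nat_lit 13) (.e (nat_lit 172106) (nat_lit 10) (.e (nat_lit 434244) (nat_lit 28) .nil))))) .nil)) 
(.lf (nat_lit 127209) (.g (nat_lit 1536) (.e (nat_lit 7554) (nat_lit 402) (.e (nat_lit 1661) (nat_lit 115) (.e (nat_lit 393238) (nat_lit 17) (.e (nat_lit 6989) (nat_lit 377) .nil)))) .nil)))) (.nd (nat_lit 5) (.nd (nat_lit 6) 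
(.lf (nat_lit 127129) (.g (nat_lit 3656) (.e (nat_lit 7539) (nat_lit 402) (.e (nat_lit 1512) (nat_lit 108) (.e (nat_lit 336241) (nat_lit 15) (.e (nat_lit 7064) (nat_lit 377) (.e (nat_lit 1349) (nat_lit 102) (.e (nat_lit 286761) (nat_lit 13) (.e (nat_lit 393234) (nat_lit 17) .nil))))))) (.g (nat_lit 7) .nil .nil))) 
(.lf (nat_lit 127193) (.g (nat_lit 2146) (.e (nat_lit 7554) (nat_lit 402) (.e (nat_lit 1234) (nat_lit 91) (.e (nat_lit 90178) (nat_lit 15) (.e (nat_lit 188440) (nat_lit 20) (.e (nat_lit 3271) (nat_lit 199) .nil))))) .nil))) (.nd (nat_lit 6) 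
(.lf (nat_lit 127161) (.g (nat_lit 772) (.e (nat_lit 7545) (nat_lit 402) (.e (nat_lit 1228) (nat_lit 91) (.e (nat_lit 90172) (nat_lit 14) (.e (nat_lit 180278) (nat_lit 32) .nil)))) .nil)) 
(.lf (nat_lit 127225) (.g (nat_lit 514) (.e (nat_lit 7555) (nat_lit 402) (.e (nat_lit 1234) (nat_lit 91) (.e (nat_lit 90176) (nat_lit 15) .nil))) .nil)))))) (.nd (nat_lit 3) (.nd (nat_lit 4) (.nd (nat_lit 5) (.nd (nat_lit 6) 
(.lf (nat_lit 127109) (.g (nat_lit 2806) (.e (nat_lit 7537) (nat_lit 402) (.e (nat_lit 1661) (nat_lit 115) (.e (nat_lit 393291) (nat_lit 26) (.e (nat_lit 475210) (nat_lit 41) (.e (nat_lit 712745) (nat_lit 27) .nil))))) .nil)) 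
(.lf (nat_lit 127173) (.g (nat_lit 1801) (.e (nat_lit 7545) (nat_lit 402) (.e (nat_lit 1415) (nat_lit 108) (.e (nat_lit 336369) (nat_lit 27) (.e (nat_lit 426173) (nat_lit 7) (.e (nat_lit 409617) (nat_lit 10) .nil))))) .nil))) (.nd (nat_lit 6) 
(.lf (nat_lit 127141) (.g (nat_lit 933) (.e (nat_lit 7540) (nat_lit 402) (.e (nat_lit 1536) (nat_lit 109) (.e (nat_lit 344126) (nat_lit 25) (.e (nat_lit 548872) (nat_lit 5) .nil)))) .nil)) 
(.lf (nat_lit 127205) (.g (nat_lit 1246) (.e (nat_lit 7554) (nat_lit 402) (.e (nat_lit 1659) (nat_lit 115) (.e (nat_lit 393298) (nat_lit 27) (.e (nat_lit 491570) (nat_lit 13) .nil)))) .nil)))) (.nd (nat_lit 5) (.nd (nat_lit 6) 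
(.lf (nat_lit 127125) (.g (nat_lit 1508) (.e (nat_lit 7538) (nat_lit 402) (.e (nat_lit 1661) (nat_lit 115) (.e (nat_lit 393298) (nat_lit 27) (.e (nat_lit 491571) (nat_lit 13) .nil)))) .nil)) 
(.lf (nat_lit 127189) (.g (nat_lit 3337) (.e (nat_lit 7554) (nat_lit 402) (.e (nat_lit 1234) (nat_lit 91) (.e (nat_lit 90170) (nat_lit 13) (.e (nat_lit 172106) (nat_lit 10) (.e (nat_lit 434238) (nat_lit 25) .nil))))) .nil))) (.nd (nat_lit 6) 
(.lf (nat_lit 127157) (.g (nat_lit 2413) (.e (nat_lit 7544) (nat_lit 402) (.e (nat_lit 1237) (nat_lit 91) (.e (nat_lit 90170) (nat_lit 13) (.e (nat_lit 172106) (nat_lit 10) (.e (nat_lit 434244) (nat_lit 28) (.e (nat_lit 573451) (nat_lit 9) (.e (nat_lit 428) (nat_lit 32) (.e (nat_lit 425989) (nat_lit 0) .nil)))))))) (.g (nat_lit 5) .nil .nil))) 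
(.lf (nat_lit 127221) (.g (nat_lit 2380) (.e (nat_lit 7554) (nat_lit 402) (.e (nat_lit 1661) (nat_lit 115) (.e (nat_lit 393298) (nat_lit 27) (.e (nat_lit 491570) (nat_lit 13) (.e (nat_lit 393238) (nat_lit 17) .nil))))) .nil))))) (.nd (nat_lit 4) (.nd (nat_lit 5) (.nd (nat_lit 6) 
(.lf (nat_lit 127117) (.g (nat_lit 614) (.e (nat_lit 7538) (nat_lit 402) (.e (nat_lit 1661) (nat_lit 115) (.e (nat_lit 393235) (nat_lit 17) .nil))) .nil)) 
(.lf (nat_lit 127181) (.g (nat_lit 799) (.e (nat_lit 7548) (nat_lit 402) (.e (nat_lit 1427) (nat_lit 108) (.e (nat_lit 336421) (nat_lit 28) .nil))) .nil))) (.nd (nat_lit 6) 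
(.lf (nat_lit 127149) (.g (nat_lit 2182) (.e (nat_lit 7541) (nat_lit 402) (.e (nat_lit 1234) (nat_lit 91) (.e (nat_lit 90170) (nat_lit 13) (.e (nat_lit 172113) (nat_lit 10) (.e (nat_lit 434245) (nat_lit 28) (.e (nat_lit 573450) (nat_lit 9) (.e (nat_lit 433) (nat_lit 32) (.e (nat_lit 425984) (nat_lit 0) .nil)))))))) (.g (nat_lit 4) .nil .nil))) 
(.lf (nat_lit 127213) (.g (nat_lit 1564) (.e (nat_lit 7554) (nat_lit 402) (.e (nat_lit 1661) (nat_lit 115) (.e (nat_lit 393238) (nat_lit 17) (.e (nat_lit 7936) (nat_lit 402) .nil)))) .nil)))) (.nd (nat_lit 5) (.nd (nat_lit 6) 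
(.lf (nat_lit 127133) (.g (nat_lit 2290) (.e (nat_lit 7540) (nat_lit 402) (.e (nat_lit 1234) (nat_lit 91) (.e (nat_lit 90170) (nat_lit 13) (.e (nat_lit 172113) (nat_lit 10) (.e (nat_lit 434245) (nat_lit 28) (.e (nat_lit 573458) (nat_lit 9) (.e (nat_lit 426) (nat_lit 32) (.e (nat_lit 426030) (nat_lit 0) .nil)))))))) (.g (nat_lit 4) .nil .nil))) 
(.lf (nat_lit 127197) (.g (nat_lit 2706) (.e (nat_lit 7554) (nat_lit 402) (.e (nat_lit 1428) (nat_lit 108) (.e (nat_lit 336421) (nat_lit 28) (.e (nat_lit 434181) (nat_lit 0) (.e (nat_lit 1661) (nat_lit 115) (.e (nat_lit 393242) (nat_lit 17) .nil)))))) (.g (nat_lit 0) .nil .nil)))) (.nd (nat_lit 6) 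
(.lf (nat_lit 127165) (.g (nat_lit 1818) (.e (nat_lit 7545) (nat_lit 402) (.e (nat_lit 1228) (nat_lit 91) (.e (nat_lit 90176) (nat_lit 15) (.e (nat_lit 188439) (nat_lit 20) (.e (nat_lit 3271) (nat_lit 199) (.e (nat_lit 548913) (nat_lit 18) (.e (nat_lit 172034) (nat_lit 0) .nil))))))) (.g (nat_lit 6) .nil .nil))) 
(.lf (nat_lit 127229) (.g (nat_lit 3593) (.e (nat_lit 7555) (nat_lit 402) (.e (nat_lit 1253) (nat_lit 92) (.e (nat_lit 98373) (nat_lit 29) (.e (nat_lit 450588) (nat_lit 10) (.e (nat_lit 573449) (nat_lit 9) .nil))))) .nil))))))) (.nd (nat_lit 2) (.nd (nat_lit 3) (.nd (nat_lit 4) (.nd (nat_lit 5) (.nd (nat_lit 6) 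
(.lf (nat_lit 127107) (.g (nat_lit 1693) (.e (nat_lit 7537) (nat_lit 402) (.e (nat_lit 1661) (nat_lit 115) (.e (nat_lit 393284) (nat_lit 24) (.e (nat_lit 434272) (nat_lit 38) (.e (nat_lit 655378) (nat_lit 4) .nil))))) .nil)) 
(.lf (nat_lit 127171) (.g (nat_lit 2318) (.e (nat_lit 7545) (nat_lit 402) (.e (nat_lit 1255) (nat_lit 92) (.e (nat_lit 98373) (nat_lit 29) (.e (nat_lit 450587) (nat_lit 10) (.e (nat_lit 573457) (nat_lit 9) (.e (nat_lit 430) (nat_lit 32) (.e (nat_lit 426011) (nat_lit 0) .nil))))))) (.g (nat_lit 4) .nil .nil)))) (.nd (nat_lit 6) 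
(.lf (nat_lit 127139) (.g (nat_lit 1104) (.e (nat_lit 7540) (nat_lit 402) (.e (nat_lit 1524) (nat_lit 108) (.e (nat_lit 336021) (nat_lit 3) (.e (nat_lit 98320) (nat_lit 17) .nil)))) .nil)) 
(.lf (nat_lit 127203) (.g (nat_lit 1170) (.e (nat_lit 7554) (nat_lit 402) (.e (nat_lit 1658) (nat_lit 115) (.e (nat_lit 393301) (nat_lit 27) (.e (nat_lit 491567) (nat_lit 13) .nil)))) .nil)))) (.nd (nat_lit 5) (.nd (nat_lit 6) 
(.lf (nat_lit 127123) (.g (nat_lit 1851) (.e (nat_lit 7538) (nat_lit 402) (.e (nat_lit 1661) (nat_lit 115) (.e (nat_lit 393297) (nat_lit 27) (.e (nat_lit 491571) (nat_lit 13) (.e (nat_lit 393232) (nat_lit 17) .nil))))) .nil)) 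
(.lf (nat_lit 127187) (.g (nat_lit 1561) (.e (nat_lit 7550) (nat_lit 402) (.e (nat_lit 1517) (nat_lit 108) (.e (nat_lit 336420) (nat_lit 28) (.e (nat_lit 434181) (nat_lit 0) (.e (nat_lit 1661) (nat_lit 115) (.e (nat_lit 393242) (nat_lit 17) .nil)))))) (.g (nat_lit 0) .nil .nil)))) (.nd (nat_lit 6) 
(.lf (nat_lit 127155) (.g (nat_lit 1653) (.e (nat_lit 7541) (nat_lit 402) (.e (nat_lit 1234) (nat_lit 91) (.e (nat_lit 90172) (nat_lit 14) (.e (nat_lit 180278) (nat_lit 32) .nil)))) .nil)) 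
(.lf (nat_lit 127219) (.g (nat_lit 1807) (.e (nat_lit 7554) (nat_lit 402) (.e (nat_lit 1661) (nat_lit 115) (.e (nat_lit 393260) (nat_lit 21) (.e (nat_lit 417536) (nat_lit 16) .nil)))) .nil))))) (.nd (nat_lit 4) (.nd (nat_lit 5) (.nd (nat_lit 6) 
(.lf (nat_lit 127115) (.g (nat_lit 767) (.e (nat_lit 7538) (nat_lit 402) (.e (nat_lit 1658) (nat_lit 115) (.e (nat_lit 393301) (nat_lit 27) (.e (nat_lit 491568) (nat_lit 13) .nil)))) .nil)) 
(.lf (nat_lit 127179) (.g (nat_lit 750) (.e (nat_lit 7545) (nat_lit 402) (.e (nat_lit 1664) (nat_lit 115) (.e (nat_lit 393300) (nat_lit 27) (.e (nat_lit 491568) (nat_lit 13) .nil)))) .nil))) (.nd (nat_lit 6) 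
(.lf (nat_lit 127147) (.g (nat_lit 1951) (.e (nat_lit 7541) (nat_lit 402) (.e (nat_lit 1234) (nat_lit 91) (.e (nat_lit 90170) (nat_lit 13) (.e (nat_lit 172113) (nat_lit 10) (.e (nat_lit 434242) (nat_lit 28) .nil))))) .nil)) 
(.lf (nat_lit 127211) (.g (nat_lit 1935) (.e (nat_lit 7554) (nat_lit 402) (.e (nat_lit 1661) (nat_lit 115) (.e (nat_lit 393238) (nat_lit 17) (.e (nat_lit 7537) (nat_lit 402) (.e (nat_lit 1661) (nat_lit 115) .nil))))) .nil)))) (.nd (nat_lit 5) (.nd (nat_lit 6) 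
(.lf (nat_lit 127131) (.g (nat_lit 2952) (.e (nat_lit 7540) (nat_lit 402) (.e (nat_lit 1234) (nat_lit 91) (.e (nat_lit 90170) (nat_lit 13) (.e (nat_lit 172113) (nat_lit 10) (.e (nat_lit 434245) (nat_lit 28) (.e (nat_lit 573451) (nat_lit 9) (.e (nat_lit 430) (nat_lit 32) (.e (nat_lit 426009) (nat_lit 0) .nil)))))))) (.g (nat_lit 5) .nil .nil))) 
(.lf (nat_lit 127195) (.g (nat_lit 2280) (.e (nat_lit 7554) (nat_lit 402) (.e (nat_lit 1235) (nat_lit 91) (.e (nat_lit 90170) (nat_lit 13) (.e (nat_lit 172106) (nat_lit 10) (.e (nat_lit 434227) (nat_lit 20) .nil))))) .nil))) (.nd (nat_lit 6) 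
(.lf (nat_lit 127163) (.g (nat_lit 1431) (.e (nat_lit 7545) (nat_lit 402) (.e (nat_lit 1228) (nat_lit 91) (.e (nat_lit 90172) (nat_lit 14) (.e (nat_lit 180285) (nat_lit 45) (.e (nat_lit 2570) (nat_lit 160) (.e (nat_lit 32807) (nat_lit 18) (.e (nat_lit 172034) (nat_lit 0) .nil))))))) (.g (nat_lit 6) .nil .nil))) 
(.lf (nat_lit 127227) (.g (nat_lit 2348) (.e (nat_lit 7555) (nat_lit 402) (.e (nat_lit 1252) (nat_lit 92) (.e (nat_lit 98372) (nat_lit 29) (.e (nat_lit 450588) (nat_lit 10) (.e (nat_lit 573471) (nat_lit 11) .nil))))) .nil)))))) (.nd (nat_lit 3) (.nd (nat_lit 4) (.nd (nat_lit 5) (.nd (nat_lit 6) 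
(.lf (nat_lit 127111) (.g (nat_lit 2176) (.e (nat_lit 7537) (nat_lit 402) (.e (nat_lit 1661) (nat_lit 115) (.e (nat_lit 393297) (nat_lit 27) (.e (nat_lit 491571) (nat_lit 13) (.e (nat_lit 393230) (nat_lit 17) .nil))))) .nil)) 
(.lf (nat_lit 127175) (.g (nat_lit 1901) (.e (nat_lit 7545) (nat_lit 402) (.e (nat_lit 1536) (nat_lit 109) (.e (nat_lit 344126) (nat_lit 25) (.e (nat_lit 548874) (nat_lit 5) (.e (nat_lit 1586) (nat_lit 111) .nil))))) .nil))) (.nd (nat_lit 6) 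
(.lf (nat_lit 127143) (.g (nat_lit 648) (.e (nat_lit 7540) (nat_lit 402) (.e (nat_lit 1546) (nat_lit 109) (.e (nat_lit 344126) (nat_lit 25) (.e (nat_lit 548874) (nat_lit 5) .nil)))) .nil)) 
(.lf (nat_lit 127207) (.g (nat_lit 1779) (.e (nat_lit 7554) (nat_lit 402) (.e (nat_lit 1660) (nat_lit 115) (.e (nat_lit 393298) (nat_lit 27) (.e (nat_lit 491570) (nat_lit 13) (.e (nat_lit 393238) (nat_lit 17) .nil))))) .nil)))) (.nd (nat_lit 5) (.nd (nat_lit 6) 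
(.lf (nat_lit 127127) (.g (nat_lit 2767) (.e (nat_lit 7538) (nat_lit 402) (.e (nat_lit 1661) (nat_lit 115) (.e (nat_lit 393299) (nat_lit 27) (.e (nat_lit 491568) (nat_lit 13) (.e (nat_lit 393234) (nat_lit 17) .nil))))) .nil)) 
(.lf (nat_lit 127191) (.g (nat_lit 392) (.e (nat_lit 7554) (nat_lit 402) (.e (nat_lit 1234) (nat_lit 91) (.e (nat_lit 90172) (nat_lit 14) .nil))) .nil))) (.nd (nat_lit 6) 
(.lf (nat_lit 127159) (.g (nat_lit 1144) (.e (nat_lit 7544) (nat_lit 402) (.e (nat_lit 1664) (nat_lit 115) (.e (nat_lit 393301) (nat_lit 27) (.e (nat_lit 491552) (nat_lit 9) .nil)))) .nil)) 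
(.lf (nat_lit 127223) (.g (nat_lit 2809) (.e (nat_lit 7554) (nat_lit 402) (.e (nat_lit 1661) (nat_lit 115) (.e (nat_lit 393299) (nat_lit 27) (.e (nat_lit 491570) (nat_lit 13) (.e (nat_lit 393242) (nat_lit 17) .nil))))) .nil))))) (.nd (nat_lit 4) (.nd (nat_lit 5) (.nd (nat_lit 6) 
(.lf (nat_lit 127119) (.g (nat_lit 1478) (.e (nat_lit 7538) (nat_lit 402) (.e (nat_lit 1661) (nat_lit 115) (.e (nat_lit 393260) (nat_lit 21) (.e (nat_lit 409616) (nat_lit 10) .nil)))) .nil)) 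
(.lf (nat_lit 127183) (.g (nat_lit 1276) (.e (nat_lit 7548) (nat_lit 402) (.e (nat_lit 1659) (nat_lit 115) (.e (nat_lit 393301) (nat_lit 27) (.e (nat_lit 491567) (nat_lit 13) .nil)))) .nil))) (.nd (nat_lit 6) 
(.lf (nat_lit 127151) (.g (nat_lit 3713) (.e (nat_lit 7541) (nat_lit 402) (.e (nat_lit 1234) (nat_lit 91) (.e (nat_lit 90170) (nat_lit 13) (.e (nat_lit 172113) (nat_lit 10) (.e (nat_lit 434247) (nat_lit 28) (.e (nat_lit 573456) (nat_lit 9) (.e (nat_lit 430) (nat_lit 32) (.e (nat_lit 426009) (nat_lit 0) .nil)))))))) (.g (nat_lit 6) .nil .nil))) 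
(.lf (nat_lit 127215) (.g (nat_lit 2031) (.e (nat_lit 7554) (nat_lit 402) (.e (nat_lit 1661) (nat_lit 115) (.e (nat_lit 393260) (nat_lit 21) (.e (nat_lit 409616) (nat_lit 10) (.e (nat_lit 7936) (nat_lit 300) .nil))))) .nil)))) (.nd (nat_lit 5) (.nd (nat_lit 6) 
(.lf (nat_lit 127135) (.g (nat_lit 2312) (.e (nat_lit 7540) (nat_lit 402) (.e (nat_lit 1234) (nat_lit 91) (.e (nat_lit 90170) (nat_lit 13) (.e (nat_lit 172124) (nat_lit 14) (.e (nat_lit 491537) (nat_lit 2) .nil))))) .nil)) 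
(.lf (nat_lit 127199) (.g (nat_lit 1955) (.e (nat_lit 7554) (nat_lit 402) (.e (nat_lit 1638) (nat_lit 114) (.e (nat_lit 385074) (nat_lit 31) (.e (nat_lit 573479) (nat_lit 13) .nil)))) .nil))) (.nd (nat_lit 6) 
(.lf (nat_lit 127167) (.g (nat_lit 1434) (.e (nat_lit 7545) (nat_lit 402) (.e (nat_lit 1238) (nat_lit 91) (.e (nat_lit 90172) (nat_lit 14) (.e (nat_lit 180278) (nat_lit 32) (.e (nat_lit 1253) (nat_lit 92) .nil))))) .nil)) 
(.lf (nat_lit 127231) (.g (nat_lit 413) (.e (nat_lit 7555) (nat_lit 402) (.e (nat_lit 1428) (nat_lit 108) (.e (nat_lit 336421) (nat_lit 28) .nil))) .nil)))))))))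

noncomputable def tv1705 : DT := (.nd (nat_lit 0) (.nd (nat_lit 1) (.nd (nat_lit 2) (.nd (nat_lit 3) (.nd (nat_lit 4) (.nd (nat_lit 5) (.nd (nat_lit 6) 
(.lf (nat_lit 127232) (.g (nat_lit 1982) (.e (nat_lit 7555) (nat_lit 402) (.e (nat_lit 1512) (nat_lit 108) (.e (nat_lit 336051) (nat_lit 6) (.e (nat_lit 147495) (nat_lit 11) (.e (nat_lit 24658) (nat_lit 13) .nil))))) .nil)) 
(.lf (nat_lit 127296) (.g (nat_lit 949) (.e (nat_lit 7557) (nat_lit 402) (.e (nat_lit 1235) (nat_lit 91) (.e (nat_lit 90169) (nat_lit 13) (.e (nat_lit 172119) (nat_lit 12) .nil)))) .nil))) (.nd (nat_lit 6) 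
(.lf (nat_lit 127264) (.g (nat_lit 2354) (.e (nat_lit 7556) (nat_lit 402) (.e (nat_lit 1659) (nat_lit 115) (.e (nat_lit 393301) (nat_lit 27) (.e (nat_lit 491559) (nat_lit 10) (.e (nat_lit 344096) (nat_lit 18) .nil))))) .nil)) 
(.lf (nat_lit 127328) (.g (nat_lit 1680) (.e (nat_lit 7557) (nat_lit 402) (.e (nat_lit 1661) (nat_lit 115) (.e (nat_lit 393291) (nat_lit 26) (.e (nat_lit 475201) (nat_lit 40) .nil)))) .nil)))) (.nd (nat_lit 5) (.nd (nat_lit 6) 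
(.lf (nat_lit 127248) (.g (nat_lit 2296) (.e (nat_lit 7556) (nat_lit 402) (.e (nat_lit 1252) (nat_lit 92) (.e (nat_lit 98372) (nat_lit 29) (.e (nat_lit 450588) (nat_lit 10) (.e (nat_lit 573471) (nat_lit 11) .nil))))) .nil)) 
(.lf (nat_lit 127312) (.g (nat_lit 1936) (.e (nat_lit 7557) (nat_lit 402) (.e (nat_lit 1659) (nat_lit 115) (.e (nat_lit 393301) (nat_lit 27) (.e (nat_lit 491552) (nat_lit 9) .nil)))) .nil))) (.nd (nat_lit 6) 
(.lf (nat_lit 127280) (.g (nat_lit 2100) (.e (nat_lit 7556) (nat_lit 402) (.e (nat_lit 1661) (nat_lit 115) (.e (nat_lit 393260) (nat_lit 21) (.e (nat_lit 409617) (nat_lit 10) (.e (nat_lit 5353) (nat_lit 298) (.e (nat_lit 424) (nat_lit 32) (.e (nat_lit 426051) (nat_lit 0) .nil))))))) (.g (nat_lit 4) .nil .nil))) 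
(.lf (nat_lit 127344) (.g (nat_lit 2317) (.e (nat_lit 7562) (nat_lit 402) (.e (nat_lit 1413) (nat_lit 108) (.e (nat_lit 336013) (nat_lit 2) (.e (nat_lit 90165) (nat_lit 12) (.e (nat_lit 171776) (nat_lit 192) .nil))))) .nil))))) (.nd (nat_lit 4) (.nd (nat_lit 5) (.nd (nat_lit 6) 
(.lf (nat_lit 127240) (.g (nat_lit 2028) (.e (nat_lit 7555) (nat_lit 402) (.e (nat_lit 1659) (nat_lit 115) (.e (nat_lit 393300) (nat_lit 27) (.e (nat_lit 491568) (nat_lit 13) (.e (nat_lit 393238) (nat_lit 17) .nil))))) .nil)) 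
(.lf (nat_lit 127304) (.g (nat_lit 1063) (.e (nat_lit 7557) (nat_lit 402) (.e (nat_lit 1428) (nat_lit 108) (.e (nat_lit 336430) (nat_lit 29) (.e (nat_lit 442402) (nat_lit 20) .nil)))) .nil))) (.nd (nat_lit 6) 
(.lf (nat_lit 127272) (.g (nat_lit 440) (.e (nat_lit 7556) (nat_lit 402) (.e (nat_lit 1661) (nat_lit 115) (.e (nat_lit 393235) (nat_lit 17) .nil))) .nil)) 
(.lf (nat_lit 127336) (.g (nat_lit 2253) (.e (nat_lit 7559) (nat_lit 402) (.e (nat_lit 1661) (nat_lit 115) (.e (nat_lit 393260) (nat_lit 21) (.e (nat_lit 409617) (nat_lit 10) .nil)))) .nil)))) (.nd (nat_lit 5) (.nd (nat_lit 6) 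
(.lf (nat_lit 127256) (.g (nat_lit 903) (.e (nat_lit 7556) (nat_lit 402) (.e (nat_lit 1638) (nat_lit 114) (.e (nat_lit 385105) (nat_lit 50) (.e (nat_lit 786483) (nat_lit 30) .nil)))) .nil)) 
(.lf (nat_lit 127320) (.g (nat_lit 591) (.e (nat_lit 7557) (nat_lit 402) (.e (nat_lit 1661) (nat_lit 115) (.e (nat_lit 393282) (nat_lit 24) .nil))) .nil))) (.nd (nat_lit 6) 
(.lf (nat_lit 127288) (.g (nat_lit 1035) (.e (nat_lit 7556) (nat_lit 402) (.e (nat_lit 1661) (nat_lit 115) (.e (nat_lit 393260) (nat_lit 21) (.e (nat_lit 409649) (nat_lit 18) .nil)))) .nil)) 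
(.lf (nat_lit 127352) (.g (nat_lit 2785) (.e (nat_lit 7562) (nat_lit 402) (.e (nat_lit 1638) (nat_lit 114) (.e (nat_lit 385074) (nat_lit 31) (.e (nat_lit 573456) (nat_lit 9) (.e (nat_lit 1598) (nat_lit 111) (.e (nat_lit 360466) (nat_lit 3) (.e (nat_lit 516100) (nat_lit 0) .nil))))))) (.g (nat_lit 4) .nil .nil))))))) (.nd (nat_lit 3) (.nd (nat_lit 4) (.nd (nat_lit 5) (.nd (nat_lit 6) 
(.lf (nat_lit 127236) (.g (nat_lit 1946) (.e (nat_lit 7555) (nat_lit 402) (.e (nat_lit 1659) (nat_lit 115) (.e (nat_lit 393234) (nat_lit 17) (.e (nat_lit 7538) (nat_lit 402) (.e (nat_lit 1661) (nat_lit 115) .nil))))) .nil)) 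
(.lf (nat_lit 127300) (.g (nat_lit 2552) (.e (nat_lit 7557) (nat_lit 402) (.e (nat_lit 1253) (nat_lit 92) (.e (nat_lit 98373) (nat_lit 29) (.e (nat_lit 450583) (nat_lit 7) (.e (nat_lit 548911) (nat_lit 18) .nil))))) .nil))) (.nd (nat_lit 6) 
(.lf (nat_lit 127268) (.g (nat_lit 1872) (.e (nat_lit 7556) (nat_lit 402) (.e (nat_lit 1659) (nat_lit 115) (.e (nat_lit 393301) (nat_lit 27) (.e (nat_lit 491567) (nat_lit 13) (.e (nat_lit 393246) (nat_lit 17) .nil))))) .nil)) 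
(.lf (nat_lit 127332) (.g (nat_lit 1192) (.e (nat_lit 7559) (nat_lit 402) (.e (nat_lit 1234) (nat_lit 91) (.e (nat_lit 90176) (nat_lit 15) (.e (nat_lit 188439) (nat_lit 20) .nil)))) .nil)))) (.nd (nat_lit 5) (.nd (nat_lit 6) 
(.lf (nat_lit 127252) (.g (nat_lit 4020) (.e (nat_lit 7556) (nat_lit 402) (.e (nat_lit 1638) (nat_lit 114) (.e (nat_lit 385072) (nat_lit 31) (.e (nat_lit 573484) (nat_lit 13) (.e (nat_lit 65610) (nat_lit 10) (.e (nat_lit 344117) (nat_lit 21) (.e (nat_lit 516106) (nat_lit 0) .nil))))))) (.g (nat_lit 6) .nil .nil))) 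
(.lf (nat_lit 127316) (.g (nat_lit 2920) (.e (nat_lit 7557) (nat_lit 402) (.e (nat_lit 1661) (nat_lit 115) (.e (nat_lit 393260) (nat_lit 21) (.e (nat_lit 409642) (nat_lit 17) .nil)))) .nil))) (.nd (nat_lit 6) 
(.lf (nat_lit 127284) (.g (nat_lit 1963) (.e (nat_lit 7556) (nat_lit 402) (.e (nat_lit 1661) (nat_lit 115) (.e (nat_lit 393260) (nat_lit 21) (.e (nat_lit 409617) (nat_lit 10) (.e (nat_lit 7936) (nat_lit 300) (.e (nat_lit 16398) (nat_lit 0) .nil)))))) (.g (nat_lit 4) .nil .nil))) 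
(.lf (nat_lit 127348) (.g (nat_lit 2402) (.e (nat_lit 7562) (nat_lit 402) (.e (nat_lit 1638) (nat_lit 114) (.e (nat_lit 385074) (nat_lit 31) (.e (nat_lit 573451) (nat_lit 9) (.e (nat_lit 1595) (nat_lit 111) .nil))))) .nil))))) (.nd (nat_lit 4) (.nd (nat_lit 5) (.nd (nat_lit 6) 
(.lf (nat_lit 127244) (.g (nat_lit 2379) (.e (nat_lit 7555) (nat_lit 402) (.e (nat_lit 1661) (nat_lit 115) (.e (nat_lit 393260) (nat_lit 21) (.e (nat_lit 409617) (nat_lit 10) (.e (nat_lit 7936) (nat_lit 298) .nil))))) .nil)) 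
(.lf (nat_lit 127308) (.g (nat_lit 2265) (.e (nat_lit 7557) (nat_lit 402) (.e (nat_lit 1638) (nat_lit 114) (.e (nat_lit 385074) (nat_lit 31) (.e (nat_lit 573485) (nat_lit 13) (.e (nat_lit 65604) (nat_lit 9) .nil))))) .nil))) (.nd (nat_lit 6) 
(.lf (nat_lit 127276) (.g (nat_lit 1762) (.e (nat_lit 7556) (nat_lit 402) (.e (nat_lit 1661) (nat_lit 115) (.e (nat_lit 393260) (nat_lit 21) (.e (nat_lit 409616) (nat_lit 10) (.e (nat_lit 7936) (nat_lit 300) (.e (nat_lit 16384) (nat_lit 0) .nil)))))) (.g (nat_lit 4) .nil .nil))) 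
(.lf (nat_lit 127340) (.g (nat_lit 2531) (.e (nat_lit 7562) (nat_lit 402) (.e (nat_lit 1234) (nat_lit 91) (.e (nat_lit 90170) (nat_lit 13) (.e (nat_lit 172126) (nat_lit 14) (.e (nat_lit 491537) (nat_lit 2) .nil))))) .nil)))) (.nd (nat_lit 5) (.nd (nat_lit 6) 
(.lf (nat_lit 127260) (.g (nat_lit 480) (.e (nat_lit 7556) (nat_lit 402) (.e (nat_lit 1659) (nat_lit 115) (.e (nat_lit 393299) (nat_lit 27) .nil))) .nil)) 
(.lf (nat_lit 127324) (.g (nat_lit 633) (.e (nat_lit 7557) (nat_lit 402) (.e (nat_lit 1661) (nat_lit 115) (.e (nat_lit 393284) (nat_lit 24) .nil))) .nil))) (.nd (nat_lit 6) 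
(.lf (nat_lit 127292) (.g (nat_lit 2694) (.e (nat_lit 7557) (nat_lit 402) (.e (nat_lit 1234) (nat_lit 91) (.e (nat_lit 90170) (nat_lit 13) (.e (nat_lit 172120) (nat_lit 12) (.e (nat_lit 475185) (nat_lit 29) .nil))))) .nil)) 
(.lf (nat_lit 127356) (.g (nat_lit 1177) (.e (nat_lit 7562) (nat_lit 402) (.e (nat_lit 1659) (nat_lit 115) (.e (nat_lit 393301) (nat_lit 27) (.e (nat_lit 491551) (nat_lit 9) .nil)))) .nil))))))) (.nd (nat_lit 2) (.nd (nat_lit 3) (.nd (nat_lit 4) (.nd (nat_lit 5) (.nd (nat_lit 6) 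
(.lf (nat_lit 127234) (.g (nat_lit 828) (.e (nat_lit 7555) (nat_lit 402) (.e (nat_lit 1649) (nat_lit 115) (.e (nat_lit 393299) (nat_lit 27) (.e (nat_lit 491570) (nat_lit 13) .nil)))) .nil)) 
(.lf (nat_lit 127298) (.g (nat_lit 345) (.e (nat_lit 7557) (nat_lit 402) (.e (nat_lit 1253) (nat_lit 92) (.e (nat_lit 98367) (nat_lit 27) .nil))) .nil))) (.nd (nat_lit 6) 
(.lf (nat_lit 127266) (.g (nat_lit 1872) (.e (nat_lit 7556) (nat_lit 402) (.e (nat_lit 1659) (nat_lit 115) (.e (nat_lit 393301) (nat_lit 27) (.e (nat_lit 491567) (nat_lit 13) (.e (nat_lit 393242) (nat_lit 17) .nil))))) .nil)) 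
(.lf (nat_lit 127330) (.g (nat_lit 1084) (.e (nat_lit 7557) (nat_lit 402) (.e (nat_lit 1661) (nat_lit 115) (.e (nat_lit 393299) (nat_lit 27) (.e (nat_lit 491552) (nat_lit 9) .nil)))) .nil)))) (.nd (nat_lit 5) (.nd (nat_lit 6) 
(.lf (nat_lit 127250) (.g (nat_lit 3537) (.e (nat_lit 7556) (nat_lit 402) (.e (nat_lit 1253) (nat_lit 92) (.e (nat_lit 98373) (nat_lit 29) (.e (nat_lit 450580) (nat_lit 5) (.e (nat_lit 532569) (nat_lit 16) .nil))))) .nil)) 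
(.lf (nat_lit 127314) (.g (nat_lit 1950) (.e (nat_lit 7557) (nat_lit 402) (.e (nat_lit 1661) (nat_lit 115) (.e (nat_lit 393260) (nat_lit 21) (.e (nat_lit 409623) (nat_lit 10) .nil)))) .nil))) (.nd (nat_lit 6) 
(.lf (nat_lit 127282) (.g (nat_lit 1905) (.e (nat_lit 7556) (nat_lit 402) (.e (nat_lit 1661) (nat_lit 115) (.e (nat_lit 393260) (nat_lit 21) (.e (nat_lit 409617) (nat_lit 10) (.e (nat_lit 5355) (nat_lit 298) .nil))))) .nil)) 
(.lf (nat_lit 127346) (.g (nat_lit 2341) (.e (nat_lit 7562) (nat_lit 402) (.e (nat_lit 1458) (nat_lit 108) (.e (nat_lit 336013) (nat_lit 2) (.e (nat_lit 90165) (nat_lit 12) (.e (nat_lit 171776) (nat_lit 192) .nil))))) .nil))))) (.nd (nat_lit 4) (.nd (nat_lit 5) (.nd (nat_lit 6) 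
(.lf (nat_lit 127242) (.g (nat_lit 2166) (.e (nat_lit 7555) (nat_lit 402) (.e (nat_lit 1661) (nat_lit 115) (.e (nat_lit 393260) (nat_lit 21) (.e (nat_lit 409616) (nat_lit 10) .nil)))) .nil)) 
(.lf (nat_lit 127306) (.g (nat_lit 1332) (.e (nat_lit 7557) (nat_lit 402) (.e (nat_lit 1428) (nat_lit 108) (.e (nat_lit 336432) (nat_lit 30) (.e (nat_lit 450593) (nat_lit 16) (.e (nat_lit 655376) (nat_lit 4) .nil))))) .nil))) (.nd (nat_lit 6) 
(.lf (nat_lit 127274) (.g (nat_lit 1674) (.e (nat_lit 7556) (nat_lit 402) (.e (nat_lit 1661) (nat_lit 115) (.e (nat_lit 393238) (nat_lit 17) (.e (nat_lit 7554) (nat_lit 402) .nil)))) .nil)) 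
(.lf (nat_lit 127338) (.g (nat_lit 1195) (.e (nat_lit 7560) (nat_lit 402) (.e (nat_lit 1522) (nat_lit 108) (.e (nat_lit 336021) (nat_lit 3) (.e (nat_lit 98389) (nat_lit 33) .nil)))) .nil)))) (.nd (nat_lit 5) (.nd (nat_lit 6) 
(.lf (nat_lit 127258) (.g (nat_lit 1945) (.e (nat_lit 7556) (nat_lit 402) (.e (nat_lit 1658) (nat_lit 115) (.e (nat_lit 393301) (nat_lit 27) (.e (nat_lit 491567) (nat_lit 13) (.e (nat_lit 393245) (nat_lit 17) .nil))))) .nil)) 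
(.lf (nat_lit 127322) (.g (nat_lit 472) (.e (nat_lit 7557) (nat_lit 402) (.e (nat_lit 1661) (nat_lit 115) (.e (nat_lit 393283) (nat_lit 24) .nil))) .nil))) (.nd (nat_lit 6) 
(.lf (nat_lit 127290) (.g (nat_lit 3357) (.e (nat_lit 7557) (nat_lit 402) (.e (nat_lit 1234) (nat_lit 91) (.e (nat_lit 90170) (nat_lit 13) (.e (nat_lit 172106) (nat_lit 10) (.e (nat_lit 434238) (nat_lit 25) .nil))))) .nil)) 
(.lf (nat_lit 127354) (.g (nat_lit 2466) (.e (nat_lit 7562) (nat_lit 402) (.e (nat_lit 1638) (nat_lit 114) (.e (nat_lit 385074) (nat_lit 31) (.e (nat_lit 573479) (nat_lit 13) (.e (nat_lit 65619) (nat_lit 10) .nil))))) .nil)))))) (.nd (nat_lit 3) (.nd (nat_lit 4) (.nd (nat_lit 5) (.nd (nat_lit 6) 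
(.lf (nat_lit 127238) (.g (nat_lit 1774) (.e (nat_lit 7555) (nat_lit 402) (.e (nat_lit 1659) (nat_lit 115) (.e (nat_lit 393299) (nat_lit 27) (.e (nat_lit 491568) (nat_lit 13) .nil)))) .nil)) 
(.lf (nat_lit 127302) (.g (nat_lit 1424) (.e (nat_lit 7557) (nat_lit 402) (.e (nat_lit 1253) (nat_lit 92) (.e (nat_lit 98374) (nat_lit 29) (.e (nat_lit 450583) (nat_lit 7) (.e (nat_lit 548913) (nat_lit 18) .nil))))) .nil))) (.nd (nat_lit 6) 
(.lf (nat_lit 127270) (.g (nat_lit 3181) (.e (nat_lit 7556) (nat_lit 402) (.e (nat_lit 1659) (nat_lit 115) (.e (nat_lit 393301) (nat_lit 27) (.e (nat_lit 491568) (nat_lit 13) (.e (nat_lit 393246) (nat_lit 17) .nil))))) .nil)) 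
(.lf (nat_lit 127334) (.g (nat_lit 2256) (.e (nat_lit 7559) (nat_lit 402) (.e (nat_lit 1660) (nat_lit 115) (.e (nat_lit 393298) (nat_lit 27) (.e (nat_lit 491571) (nat_lit 13) (.e (nat_lit 393238) (nat_lit 17) .nil))))) .nil)))) (.nd (nat_lit 5) (.nd (nat_lit 6) 
(.lf (nat_lit 127254) (.g (nat_lit 4481) (.e (nat_lit 7556) (nat_lit 402) (.e (nat_lit 1638) (nat_lit 114) (.e (nat_lit 385072) (nat_lit 31) (.e (nat_lit 573485) (nat_lit 13) (.e (nat_lit 65619) (nat_lit 10) (.e (nat_lit 344117) (nat_lit 21) (.e (nat_lit 516106) (nat_lit 0) .nil))))))) (.g (nat_lit 7) .nil .nil))) 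
(.lf (nat_lit 127318) (.g (nat_lit 1790) (.e (nat_lit 7557) (nat_lit 402) (.e (nat_lit 1661) (nat_lit 115) (.e (nat_lit 393268) (nat_lit 23) (.e (nat_lit 426444) (nat_lit 19) .nil)))) .nil))) (.nd (nat_lit 6) 
(.lf (nat_lit 127286) (.g (nat_lit 1846) (.e (nat_lit 7556) (nat_lit 402) (.e (nat_lit 1661) (nat_lit 115) (.e (nat_lit 393260) (nat_lit 21) (.e (nat_lit 409640) (nat_lit 17) .nil)))) .nil)) 
(.lf (nat_lit 127350) (.g (nat_lit 1988) (.e (nat_lit 7562) (nat_lit 402) (.e (nat_lit 1638) (nat_lit 114) (.e (nat_lit 385074) (nat_lit 31) (.e (nat_lit 573456) (nat_lit 9) .nil)))) .nil))))) (.nd (nat_lit 4) (.nd (nat_lit 5) (.nd (nat_lit 6) 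
(.lf (nat_lit 127246) (.g (nat_lit 2589) (.e (nat_lit 7555) (nat_lit 402) (.e (nat_lit 1661) (nat_lit 115) (.e (nat_lit 393299) (nat_lit 27) (.e (nat_lit 491568) (nat_lit 13) (.e (nat_lit 393238) (nat_lit 17) .nil))))) .nil)) 
(.lf (nat_lit 127310) (.g (nat_lit 1893) (.e (nat_lit 7557) (nat_lit 402) (.e (nat_lit 1659) (nat_lit 115) (.e (nat_lit 393283) (nat_lit 24) (.e (nat_lit 434271) (nat_lit 38) (.e (nat_lit 655376) (nat_lit 4) .nil))))) .nil))) (.nd (nat_lit 6) 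
(.lf (nat_lit 127278) (.g (nat_lit 2012) (.e (nat_lit 7556) (nat_lit 402) (.e (nat_lit 1661) (nat_lit 115) (.e (nat_lit 393260) (nat_lit 21) (.e (nat_lit 409617) (nat_lit 10) (.e (nat_lit 5353) (nat_lit 298) .nil))))) .nil)) 
(.lf (nat_lit 127342) (.g (nat_lit 4300) (.e (nat_lit 7562) (nat_lit 402) (.e (nat_lit 1235) (nat_lit 91) (.e (nat_lit 90170) (nat_lit 13) (.e (nat_lit 172126) (nat_lit 14) (.e (nat_lit 491537) (nat_lit 2) (.e (nat_lit 90185) (nat_lit 17) (.e (nat_lit 237569) (nat_lit 0) .nil))))))) (.g (nat_lit 6) .nil .nil))))) (.nd (nat_lit 5) (.nd (nat_lit 6) 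
(.lf (nat_lit 127262) (.g (nat_lit 232) (.e (nat_lit 7556) (nat_lit 402) (.e (nat_lit 1659) (nat_lit 115) (.e (nat_lit 393301) (nat_lit 27) .nil))) .nil)) 
(.lf (nat_lit 127326) (.g (nat_lit 2555) (.e (nat_lit 7557) (nat_lit 402) (.e (nat_lit 1661) (nat_lit 115) (.e (nat_lit 393284) (nat_lit 24) (.e (nat_lit 434272) (nat_lit 38) (.e (nat_lit 655376) (nat_lit 4) (.e (nat_lit 172037) (nat_lit 0) .nil)))))) (.g (nat_lit 5) .nil .nil)))) (.nd (nat_lit 6) 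
(.lf (nat_lit 127294) (.g (nat_lit 1192) (.e (nat_lit 7557) (nat_lit 402) (.e (nat_lit 1234) (nat_lit 91) (.e (nat_lit 90176) (nat_lit 15) (.e (nat_lit 188439) (nat_lit 20) .nil)))) .nil)) 
(.lf (nat_lit 127358) (.g (nat_lit 1713) (.e (nat_lit 7562) (nat_lit 402) (.e (nat_lit 1659) (nat_lit 115) (.e (nat_lit 393301) (nat_lit 27) (.e (nat_lit 491553) (nat_lit 9) .nil)))) .nil)))))))) (.nd (nat_lit 1) (.nd (nat_lit 2) (.nd (nat_lit 3) (.nd (nat_lit 4) (.nd (nat_lit 5) (.nd (nat_lit 6) 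
(.lf (nat_lit 127233) (.g (nat_lit 473) (.e (nat_lit 7555) (nat_lit 402) (.e (nat_lit 1638) (nat_lit 114) (.e (nat_lit 385074) (nat_lit 31) .nil))) .nil)) 
(.lf (nat_lit 127297) (.g (nat_lit 1028) (.e (nat_lit 7557) (nat_lit 402) (.e (nat_lit 1253) (nat_lit 92) (.e (nat_lit 98358) (nat_lit 26) (.e (nat_lit 426294) (nat_lit 11) .nil)))) .nil))) (.nd (nat_lit 6) 
(.lf (nat_lit 127265) (.g (nat_lit 2267) (.e (nat_lit 7556) (nat_lit 402) (.e (nat_lit 1659) (nat_lit 115) (.e (nat_lit 393301) (nat_lit 27) (.e (nat_lit 491560) (nat_lit 10) (.e (nat_lit 344096) (nat_lit 18) .nil))))) .nil)) 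
(.lf (nat_lit 127329) (.g (nat_lit 2489) (.e (nat_lit 7557) (nat_lit 402) (.e (nat_lit 1661) (nat_lit 115) (.e (nat_lit 393298) (nat_lit 27) (.e (nat_lit 491570) (nat_lit 13) (.e (nat_lit 393230) (nat_lit 17) .nil))))) .nil)))) (.nd (nat_lit 5) (.nd (nat_lit 6) 
(.lf (nat_lit 127249) (.g (nat_lit 3541) (.e (nat_lit 7556) (nat_lit 402) (.e (nat_lit 1253) (nat_lit 92) (.e (nat_lit 98373) (nat_lit 29) (.e (nat_lit 450579) (nat_lit 5) (.e (nat_lit 532569) (nat_lit 16) .nil))))) .nil)) 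
(.lf (nat_lit 127313) (.g (nat_lit 3221) (.e (nat_lit 7557) (nat_lit 402) (.e (nat_lit 1659) (nat_lit 115) (.e (nat_lit 393301) (nat_lit 27) (.e (nat_lit 491568) (nat_lit 13) (.e (nat_lit 393230) (nat_lit 17) .nil))))) .nil))) (.nd (nat_lit 6) 
(.lf (nat_lit 127281) (.g (nat_lit 2571) (.e (nat_lit 7556) (nat_lit 402) (.e (nat_lit 1661) (nat_lit 115) (.e (nat_lit 393260) (nat_lit 21) (.e (nat_lit 409617) (nat_lit 10) (.e (nat_lit 5353) (nat_lit 298) (.e (nat_lit 424) (nat_lit 32) (.e (nat_lit 426054) (nat_lit 0) .nil))))))) (.g (nat_lit 5) .nil .nil))) 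
(.lf (nat_lit 127345) (.g (nat_lit 806) (.e (nat_lit 7562) (nat_lit 402) (.e (nat_lit 1427) (nat_lit 108) (.e (nat_lit 336421) (nat_lit 28) .nil))) .nil))))) (.nd (nat_lit 4) (.nd (nat_lit 5) (.nd (nat_lit 6) 
(.lf (nat_lit 127241) (.g (nat_lit 1634) (.e (nat_lit 7555) (nat_lit 402) (.e (nat_lit 1661) (nat_lit 115) (.e (nat_lit 393238) (nat_lit 17) (.e (nat_lit 7555) (nat_lit 402) .nil)))) .nil)) 
(.lf (nat_lit 127305) (.g (nat_lit 1069) (.e (nat_lit 7557) (nat_lit 402) (.e (nat_lit 1428) (nat_lit 108) (.e (nat_lit 336430) (nat_lit 29) (.e (nat_lit 442409) (nat_lit 20) .nil)))) .nil))) (.nd (nat_lit 6) 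
(.lf (nat_lit 127273) (.g (nat_lit 3198) (.e (nat_lit 7556) (nat_lit 402) (.e (nat_lit 1661) (nat_lit 115) (.e (nat_lit 393238) (nat_lit 17) (.e (nat_lit 7537) (nat_lit 402) (.e (nat_lit 1661) (nat_lit 115) (.e (nat_lit 393242) (nat_lit 17) .nil)))))) (.g (nat_lit 6) .nil .nil))) 
(.lf (nat_lit 127337) (.g (nat_lit 1809) (.e (nat_lit 7559) (nat_lit 402) (.e (nat_lit 1661) (nat_lit 115) (.e (nat_lit 393299) (nat_lit 27) (.e (nat_lit 491570) (nat_lit 13) .nil)))) .nil)))) (.nd (nat_lit 5) (.nd (nat_lit 6) 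
(.lf (nat_lit 127257) (.g (nat_lit 1013) (.e (nat_lit 7556) (nat_lit 402) (.e (nat_lit 1658) (nat_lit 115) (.e (nat_lit 393298) (nat_lit 27) (.e (nat_lit 491570) (nat_lit 13) .nil)))) .nil)) 
(.lf (nat_lit 127321) (.g (nat_lit 2209) (.e (nat_lit 7557) (nat_lit 402) (.e (nat_lit 1661) (nat_lit 115) (.e (nat_lit 393282) (nat_lit 24) (.e (nat_lit 434271) (nat_lit 38) (.e (nat_lit 655376) (nat_lit 4) (.e (nat_lit 172037) (nat_lit 0) .nil)))))) (.g (nat_lit 5) .nil .nil)))) (.nd (nat_lit 6) 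
(.lf (nat_lit 127289) (.g (nat_lit 2678) (.e (nat_lit 7556) (nat_lit 402) (.e (nat_lit 1661) (nat_lit 115) (.e (nat_lit 393298) (nat_lit 27) (.e (nat_lit 491570) (nat_lit 13) (.e (nat_lit 393242) (nat_lit 17) .nil))))) .nil)) 
(.lf (nat_lit 127353) (.g (nat_lit 3034) (.e (nat_lit 7562) (nat_lit 402) (.e (nat_lit 1638) (nat_lit 114) (.e (nat_lit 385074) (nat_lit 31) (.e (nat_lit 573456) (nat_lit 9) (.e (nat_lit 1598) (nat_lit 111) (.e (nat_lit 360466) (nat_lit 3) (.e (nat_lit 516105) (nat_lit 0) .nil))))))) (.g (nat_lit 5) .nil .nil))))))) (.nd (nat_lit 3) (.nd (nat_lit 4) (.nd (nat_lit 5) (.nd (nat_lit 6) 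
(.lf (nat_lit 127237) (.g (nat_lit 2174) (.e (nat_lit 7555) (nat_lit 402) (.e (nat_lit 1659) (nat_lit 115) (.e (nat_lit 393297) (nat_lit 27) (.e (nat_lit 491571) (nat_lit 13) (.e (nat_lit 393238) (nat_lit 17) .nil))))) .nil)) 
(.lf (nat_lit 127301) (.g (nat_lit 1613) (.e (nat_lit 7557) (nat_lit 402) (.e (nat_lit 1253) (nat_lit 92) (.e (nat_lit 98373) (nat_lit 29) (.e (nat_lit 458496) (nat_lit 7) .nil)))) .nil))) (.nd (nat_lit 6) 
(.lf (nat_lit 127269) (.g (nat_lit 3207) (.e (nat_lit 7556) (nat_lit 402) (.e (nat_lit 1659) (nat_lit 115) (.e (nat_lit 393301) (nat_lit 27) (.e (nat_lit 491568) (nat_lit 13) (.e (nat_lit 393245) (nat_lit 17) .nil))))) .nil)) 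
(.lf (nat_lit 127333) (.g (nat_lit 1791) (.e (nat_lit 7559) (nat_lit 402) (.e (nat_lit 1649) (nat_lit 115) (.e (nat_lit 393298) (nat_lit 27) (.e (nat_lit 491571) (nat_lit 13) (.e (nat_lit 393238) (nat_lit 17) .nil))))) .nil)))) (.nd (nat_lit 5) (.nd (nat_lit 6) 
(.lf (nat_lit 127253) (.g (nat_lit 3799) (.e (nat_lit 7556) (nat_lit 402) (.e (nat_lit 1638) (nat_lit 114) (.e (nat_lit 385072) (nat_lit 31) (.e (nat_lit 573485) (nat_lit 13) (.e (nat_lit 65604) (nat_lit 9) (.e (nat_lit 336028) (nat_lit 3) (.e (nat_lit 98325) (nat_lit 17) .nil))))))) (.g (nat_lit 6) .nil .nil))) 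
(.lf (nat_lit 127317) (.g (nat_lit 683) (.e (nat_lit 7557) (nat_lit 402) (.e (nat_lit 1661) (nat_lit 115) (.e (nat_lit 393267) (nat_lit 23) .nil))) .nil))) (.nd (nat_lit 6) 
(.lf (nat_lit 127285) (.g (nat_lit 2051) (.e (nat_lit 7556) (nat_lit 402) (.e (nat_lit 1661) (nat_lit 115) (.e (nat_lit 393260) (nat_lit 21) (.e (nat_lit 409617) (nat_lit 10) (.e (nat_lit 7936) (nat_lit 300) (.e (nat_lit 16400) (nat_lit 0) .nil)))))) (.g (nat_lit 4) .nil .nil))) 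
(.lf (nat_lit 127349) (.g (nat_lit 1716) (.e (nat_lit 7562) (nat_lit 402) (.e (nat_lit 1638) (nat_lit 114) (.e (nat_lit 385074) (nat_lit 31) (.e (nat_lit 573452) (nat_lit 9) .nil)))) .nil))))) (.nd (nat_lit 4) (.nd (nat_lit 5) (.nd (nat_lit 6) 
(.lf (nat_lit 127245) (.g (nat_lit 1643) (.e (nat_lit 7555) (nat_lit 402) (.e (nat_lit 1661) (nat_lit 115) (.e (nat_lit 393297) (nat_lit 27) (.e (nat_lit 491570) (nat_lit 13) (.e (nat_lit 393238) (nat_lit 17) .nil))))) .nil)) 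
(.lf (nat_lit 127309) (.g (nat_lit 1137) (.e (nat_lit 7557) (nat_lit 402) (.e (nat_lit 1659) (nat_lit 115) (.e (nat_lit 393282) (nat_lit 24) (.e (nat_lit 434271) (nat_lit 38) .nil)))) .nil))) (.nd (nat_lit 6) 
(.lf (nat_lit 127277) (.g (nat_lit 2024) (.e (nat_lit 7556) (nat_lit 402) (.e (nat_lit 1661) (nat_lit 115) (.e (nat_lit 393260) (nat_lit 21) (.e (nat_lit 409616) (nat_lit 10) (.e (nat_lit 7936) (nat_lit 300) (.e (nat_lit 16398) (nat_lit 0) .nil)))))) (.g (nat_lit 4) .nil .nil))) 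
(.lf (nat_lit 127341) (.g (nat_lit 1192) (.e (nat_lit 7562) (nat_lit 402) (.e (nat_lit 1234) (nat_lit 91) (.e (nat_lit 90176) (nat_lit 15) (.e (nat_lit 188439) (nat_lit 20) .nil)))) .nil)))) (.nd (nat_lit 5) (.nd (nat_lit 6) 
(.lf (nat_lit 127261) (.g (nat_lit 2543) (.e (nat_lit 7556) (nat_lit 402) (.e (nat_lit 1659) (nat_lit 115) (.e (nat_lit 393300) (nat_lit 27) (.e (nat_lit 491570) (nat_lit 13) (.e (nat_lit 393242) (nat_lit 17) .nil))))) .nil)) 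
(.lf (nat_lit 127325) (.g (nat_lit 1847) (.e (nat_lit 7557) (nat_lit 402) (.e (nat_lit 1661) (nat_lit 115) (.e (nat_lit 393284) (nat_lit 24) (.e (nat_lit 434271) (nat_lit 38) (.e (nat_lit 655378) (nat_lit 4) .nil))))) .nil))) (.nd (nat_lit 6) 
(.lf (nat_lit 127293) (.g (nat_lit 1151) (.e (nat_lit 7557) (nat_lit 402) (.e (nat_lit 1234) (nat_lit 91) (.e (nat_lit 90172) (nat_lit 14) (.e (nat_lit 180285) (nat_lit 45) .nil)))) .nil)) 
(.lf (nat_lit 127357) (.g (nat_lit 1903) (.e (nat_lit 7562) (nat_lit 402) (.e (nat_lit 1659) (nat_lit 115) (.e (nat_lit 393301) (nat_lit 27) (.e (nat_lit 491552) (nat_lit 9) .nil)))) .nil))))))) (.nd (nat_lit 2) (.nd (nat_lit 3) (.nd (nat_lit 4) (.nd (nat_lit 5) (.nd (nat_lit 6) 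
(.lf (nat_lit 127235) (.g (nat_lit 2029) (.e (nat_lit 7555) (nat_lit 402) (.e (nat_lit 1658) (nat_lit 115) (.e (nat_lit 393301) (nat_lit 27) (.e (nat_lit 491567) (nat_lit 13) (.e (nat_lit 393238) (nat_lit 17) .nil))))) .nil)) 
(.lf (nat_lit 127299) (.g (nat_lit 1716) (.e (nat_lit 7557) (nat_lit 402) (.e (nat_lit 1253) (nat_lit 92) (.e (nat_lit 98372) (nat_lit 29) (.e (nat_lit 450583) (nat_lit 7) (.e (nat_lit 548911) (nat_lit 18) .nil))))) .nil))) (.nd (nat_lit 6) 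
(.lf (nat_lit 127267) (.g (nat_lit 1872) (.e (nat_lit 7556) (nat_lit 402) (.e (nat_lit 1659) (nat_lit 115) (.e (nat_lit 393301) (nat_lit 27) (.e (nat_lit 491567) (nat_lit 13) (.e (nat_lit 393245) (nat_lit 17) .nil))))) .nil)) 
(.lf (nat_lit 127331) (.g (nat_lit 2927) (.e (nat_lit 7557) (nat_lit 402) (.e (nat_lit 1661) (nat_lit 115) (.e (nat_lit 393299) (nat_lit 27) (.e (nat_lit 491570) (nat_lit 13) (.e (nat_lit 393230) (nat_lit 17) .nil))))) .nil)))) (.nd (nat_lit 5) (.nd (nat_lit 6) 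
(.lf (nat_lit 127251) (.g (nat_lit 3530) (.e (nat_lit 7556) (nat_lit 402) (.e (nat_lit 1530) (nat_lit 109) (.e (nat_lit 344126) (nat_lit 25) (.e (nat_lit 548889) (nat_lit 9) (.e (nat_lit 65610) (nat_lit 10) (.e (nat_lit 344117) (nat_lit 21) (.e (nat_lit 516106) (nat_lit 0) .nil))))))) (.g (nat_lit 6) .nil .nil))) 
(.lf (nat_lit 127315) (.g (nat_lit 2675) (.e (nat_lit 7557) (nat_lit 402) (.e (nat_lit 1661) (nat_lit 115) (.e (nat_lit 393260) (nat_lit 21) (.e (nat_lit 409641) (nat_lit 17) .nil)))) .nil))) (.nd (nat_lit 6) 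
(.lf (nat_lit 127283) (.g (nat_lit 1995) (.e (nat_lit 7556) (nat_lit 402) (.e (nat_lit 1661) (nat_lit 115) (.e (nat_lit 393260) (nat_lit 21) (.e (nat_lit 409617) (nat_lit 10) (.e (nat_lit 7936) (nat_lit 300) (.e (nat_lit 16384) (nat_lit 0) .nil)))))) (.g (nat_lit 4) .nil .nil))) 
(.lf (nat_lit 127347) (.g (nat_lit 1962) (.e (nat_lit 7562) (nat_lit 402) (.e (nat_lit 1532) (nat_lit 109) (.e (nat_lit 344117) (nat_lit 21) (.e (nat_lit 516185) (nat_lit 16) (.e (nat_lit 491560) (nat_lit 10) .nil))))) .nil))))) (.nd (nat_lit 4) (.nd (nat_lit 5) (.nd (nat_lit 6) 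
(.lf (nat_lit 127243) (.g (nat_lit 2918) (.e (nat_lit 7555) (nat_lit 402) (.e (nat_lit 1661) (nat_lit 115) (.e (nat_lit 393260) (nat_lit 21) (.e (nat_lit 409616) (nat_lit 10) (.e (nat_lit 7936) (nat_lit 298) .nil))))) .nil)) 
(.lf (nat_lit 127307) (.g (nat_lit 1766) (.e (nat_lit 7557) (nat_lit 402) (.e (nat_lit 1638) (nat_lit 114) (.e (nat_lit 385074) (nat_lit 31) (.e (nat_lit 573479) (nat_lit 13) .nil)))) .nil))) (.nd (nat_lit 6) 
(.lf (nat_lit 127275) (.g (nat_lit 1555) (.e (nat_lit 7556) (nat_lit 402) (.e (nat_lit 1661) (nat_lit 115) (.e (nat_lit 393238) (nat_lit 17) (.e (nat_lit 7936) (nat_lit 402) .nil)))) .nil)) 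
(.lf (nat_lit 127339) (.g (nat_lit 3357) (.e (nat_lit 7562) (nat_lit 402) (.e (nat_lit 1234) (nat_lit 91) (.e (nat_lit 90170) (nat_lit 13) (.e (nat_lit 172106) (nat_lit 10) (.e (nat_lit 434238) (nat_lit 25) .nil))))) .nil)))) (.nd (nat_lit 5) (.nd (nat_lit 6) 
(.lf (nat_lit 127259) (.g (nat_lit 1191) (.e (nat_lit 7556) (nat_lit 402) (.e (nat_lit 1659) (nat_lit 115) (.e (nat_lit 393298) (nat_lit 27) (.e (nat_lit 491570) (nat_lit 13) .nil)))) .nil)) 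
(.lf (nat_lit 127323) (.g (nat_lit 2138) (.e (nat_lit 7557) (nat_lit 402) (.e (nat_lit 1661) (nat_lit 115) (.e (nat_lit 393283) (nat_lit 24) (.e (nat_lit 434272) (nat_lit 38) (.e (nat_lit 655376) (nat_lit 4) (.e (nat_lit 172037) (nat_lit 0) .nil)))))) (.g (nat_lit 5) .nil .nil)))) (.nd (nat_lit 6) 
(.lf (nat_lit 127291) (.g (nat_lit 2254) (.e (nat_lit 7557) (nat_lit 402) (.e (nat_lit 1234) (nat_lit 91) (.e (nat_lit 90170) (nat_lit 13) (.e (nat_lit 172113) (nat_lit 10) (.e (nat_lit 434238) (nat_lit 25) .nil))))) .nil)) 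
(.lf (nat_lit 127355) (.g (nat_lit 1105) (.e (nat_lit 7562) (nat_lit 402) (.e (nat_lit 1658) (nat_lit 115) (.e (nat_lit 393301) (nat_lit 27) (.e (nat_lit 491552) (nat_lit 9) .nil)))) .nil)))))) (.nd (nat_lit 3) (.nd (nat_lit 4) (.nd (nat_lit 5) (.nd (nat_lit 6) 
(.lf (nat_lit 127239) (.g (nat_lit 2374) (.e (nat_lit 7555) (nat_lit 402) (.e (nat_lit 1659) (nat_lit 115) (.e (nat_lit 393300) (nat_lit 27) (.e (nat_lit 491549) (nat_lit 9) (.e (nat_lit 336369) (nat_lit 27) .nil))))) .nil)) 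
(.lf (nat_lit 127303) (.g (nat_lit 498) (.e (nat_lit 7557) (nat_lit 402) (.e (nat_lit 1427) (nat_lit 108) (.e (nat_lit 336434) (nat_lit 30) .nil))) .nil))) (.nd (nat_lit 6) 
(.lf (nat_lit 127271) (.g (nat_lit 1444) (.e (nat_lit 7556) (nat_lit 402) (.e (nat_lit 1661) (nat_lit 115) (.e (nat_lit 393232) (nat_lit 17) (.e (nat_lit 7513) (nat_lit 402) .nil)))) .nil)) 
(.lf (nat_lit 127335) (.g (nat_lit 2674) (.e (nat_lit 7559) (nat_lit 402) (.e (nat_lit 1661) (nat_lit 115) (.e (nat_lit 393260) (nat_lit 21) (.e (nat_lit 409616) (nat_lit 10) .nil)))) .nil)))) (.nd (nat_lit 5) (.nd (nat_lit 6) 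
(.lf (nat_lit 127255) (.g (nat_lit 1753) (.e (nat_lit 7556) (nat_lit 402) (.e (nat_lit 1638) (nat_lit 114) (.e (nat_lit 385074) (nat_lit 31) (.e (nat_lit 573479) (nat_lit 13) .nil)))) .nil)) 
(.lf (nat_lit 127319) (.g (nat_lit 1218) (.e (nat_lit 7557) (nat_lit 402) (.e (nat_lit 1661) (nat_lit 115) (.e (nat_lit 393274) (nat_lit 23) (.e (nat_lit 426043) (nat_lit 0) (.e (nat_lit 3407) (nat_lit 212) (.e (nat_lit 655376) (nat_lit 4) (.e (nat_lit 172037) (nat_lit 0) .nil))))))) (.g (nat_lit 4) .nil .nil)))) (.nd (nat_lit 6) 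
(.lf (nat_lit 127287) (.g (nat_lit 2498) (.e (nat_lit 7556) (nat_lit 402) (.e (nat_lit 1661) (nat_lit 115) (.e (nat_lit 393260) (nat_lit 21) (.e (nat_lit 409641) (nat_lit 17) .nil)))) .nil)) 
(.lf (nat_lit 127351) (.g (nat_lit 2565) (.e (nat_lit 7562) (nat_lit 402) (.e (nat_lit 1638) (nat_lit 114) (.e (nat_lit 385074) (nat_lit 31) (.e (nat_lit 573456) (nat_lit 9) (.e (nat_lit 1598) (nat_lit 111) .nil))))) .nil))))) (.nd (nat_lit 4) (.nd (nat_lit 5) (.nd (nat_lit 6) 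
(.lf (nat_lit 127247) (.g (nat_lit 5139) (.e (nat_lit 7556) (nat_lit 402) (.e (nat_lit 1235) (nat_lit 91) (.e (nat_lit 90170) (nat_lit 13) (.e (nat_lit 172106) (nat_lit 10) (.e (nat_lit 434231) (nat_lit 23) (.e (nat_lit 532569) (nat_lit 16) (.e (nat_lit 401416) (nat_lit 0) .nil))))))) (.g (nat_lit 7) .nil .nil))) 
(.lf (nat_lit 127311) (.g (nat_lit 1806) (.e (nat_lit 7557) (nat_lit 402) (.e (nat_lit 1659) (nat_lit 115) (.e (nat_lit 393283) (nat_lit 24) (.e (nat_lit 434271) (nat_lit 38) (.e (nat_lit 655378) (nat_lit 4) .nil))))) .nil))) (.nd (nat_lit 6) 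
(.lf (nat_lit 127279) (.g (nat_lit 2065) (.e (nat_lit 7556) (nat_lit 402) (.e (nat_lit 1661) (nat_lit 115) (.e (nat_lit 393260) (nat_lit 21) (.e (nat_lit 409617) (nat_lit 10) (.e (nat_lit 5353) (nat_lit 298) (.e (nat_lit 424) (nat_lit 32) (.e (nat_lit 426035) (nat_lit 0) .nil))))))) (.g (nat_lit 4) .nil .nil))) 
(.lf (nat_lit 127343) (.g (nat_lit 421) (.e (nat_lit 7562) (nat_lit 402) (.e (nat_lit 1235) (nat_lit 91) (.e (nat_lit 90185) (nat_lit 17) .nil))) .nil)))) (.nd (nat_lit 5) (.nd (nat_lit 6) 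
(.lf (nat_lit 127263) (.g (nat_lit 1683) (.e (nat_lit 7556) (nat_lit 402) (.e (nat_lit 1659) (nat_lit 115) (.e (nat_lit 393301) (nat_lit 27) (.e (nat_lit 491552) (nat_lit 9) .nil)))) .nil)) 
(.lf (nat_lit 127327) (.g (nat_lit 1816) (.e (nat_lit 7557) (nat_lit 402) (.e (nat_lit 1661) (nat_lit 115) (.e (nat_lit 393284) (nat_lit 24) (.e (nat_lit 434272) (nat_lit 38) (.e (nat_lit 655378) (nat_lit 4) .nil))))) .nil))) (.nd (nat_lit 6) 
(.lf (nat_lit 127295) (.g (nat_lit 1328) (.e (nat_lit 7557) (nat_lit 402) (.e (nat_lit 1234) (nat_lit 91) (.e (nat_lit 90178) (nat_lit 15) (.e (nat_lit 188441) (nat_lit 20) .nil)))) .nil)) 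
(.lf (nat_lit 127359) (.g (nat_lit 1501) (.e (nat_lit 7562) (nat_lit 402) (.e (nat_lit 1659) (nat_lit 115) (.e (nat_lit 393301) (nat_lit 27) (.e (nat_lit 491555) (nat_lit 9) .nil)))) .nil)))))))))

noncomputable def tv1706 : DT := (.nd (nat_lit 0) (.nd (nat_lit 1) (.nd (nat_lit 2) (.nd (nat_lit 3) (.nd (nat_lit 4) (.nd (nat_lit 5) (.nd (nat_lit 6) 
(.lf (nat_lit 127360) (.g (nat_lit 2035) (.e (nat_lit 7562) (nat_lit 402) (.e (nat_lit 1659) (nat_lit 115) (.e (nat_lit 393301) (nat_lit 27) (.e (nat_lit 491555) (nat_lit 9) (.e (nat_lit 336408) (nat_lit 27) .nil))))) .nil)) 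
(.lf (nat_lit 127424) (.g (nat_lit 1555) (.e (nat_lit 7936) (nat_lit 402) (.e (nat_lit 1656) (nat_lit 115) (.e (nat_lit 393234) (nat_lit 17) (.e (nat_lit 7490) (nat_lit 402) .nil)))) .nil))) (.nd (nat_lit 6) 
(.lf (nat_lit 127392) (.g (nat_lit 518) (.e (nat_lit 7936) (nat_lit 402) (.e (nat_lit 1228) (nat_lit 91) (.e (nat_lit 90172) (nat_lit 14) (.e (nat_lit 180285) (nat_lit 45) .nil)))) .nil)) 
(.lf (nat_lit 127456) (.g (nat_lit 2936) (.e (nat_lit 7936) (nat_lit 402) (.e (nat_lit 1656) (nat_lit 115) (.e (nat_lit 393301) (nat_lit 27) (.e (nat_lit 491568) (nat_lit 13) (.e (nat_lit 393239) (nat_lit 17) .nil))))) .nil)))) (.nd (nat_lit 5) (.nd (nat_lit 6) 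
(.lf (nat_lit 127376) (.g (nat_lit 2925) (.e (nat_lit 7562) (nat_lit 402) (.e (nat_lit 1661) (nat_lit 115) (.e (nat_lit 393260) (nat_lit 21) (.e (nat_lit 409616) (nat_lit 10) (.e (nat_lit 7936) (nat_lit 300) (.e (nat_lit 16385) (nat_lit 0) .nil)))))) (.g (nat_lit 4) .nil .nil))) 
(.lf (nat_lit 127440) (.g (nat_lit 1899) (.e (nat_lit 7936) (nat_lit 402) (.e (nat_lit 1656) (nat_lit 115) (.e (nat_lit 393300) (nat_lit 27) (.e (nat_lit 491569) (nat_lit 13) (.e (nat_lit 393238) (nat_lit 17) .nil))))) .nil))) (.nd (nat_lit 6) 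
(.lf (nat_lit 127408) (.g (nat_lit 1915) (.e (nat_lit 7936) (nat_lit 402) (.e (nat_lit 1535) (nat_lit 109) (.e (nat_lit 344126) (nat_lit 25) (.e (nat_lit 548874) (nat_lit 5) (.e (nat_lit 1598) (nat_lit 111) .nil))))) .nil)) 
(.lf (nat_lit 127472) (.g (nat_lit 1447) (.e (nat_lit 7936) (nat_lit 402) (.e (nat_lit 1661) (nat_lit 115) (.e (nat_lit 393299) (nat_lit 27) (.e (nat_lit 491568) (nat_lit 13) (.e (nat_lit 393235) (nat_lit 17) .nil))))) .nil))))) (.nd (nat_lit 4) (.nd (nat_lit 5) (.nd (nat_lit 6) 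
(.lf (nat_lit 127368) (.g (nat_lit 3368) (.e (nat_lit 7562) (nat_lit 402) (.e (nat_lit 1659) (nat_lit 115) (.e (nat_lit 393301) (nat_lit 27) (.e (nat_lit 491568) (nat_lit 13) (.e (nat_lit 393239) (nat_lit 17) .nil))))) .nil)) 
(.lf (nat_lit 127432) (.g (nat_lit 1920) (.e (nat_lit 7936) (nat_lit 402) (.e (nat_lit 1656) (nat_lit 115) (.e (nat_lit 393299) (nat_lit 27) (.e (nat_lit 491570) (nat_lit 13) (.e (nat_lit 393238) (nat_lit 17) .nil))))) .nil))) (.nd (nat_lit 6) 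
(.lf (nat_lit 127400) (.g (nat_lit 1287) (.e (nat_lit 7936) (nat_lit 402) (.e (nat_lit 1427) (nat_lit 108) (.e (nat_lit 336421) (nat_lit 28) (.e (nat_lit 434180) (nat_lit 0) .nil)))) .nil)) 
(.lf (nat_lit 127464) (.g (nat_lit 1708) (.e (nat_lit 7936) (nat_lit 402) (.e (nat_lit 1660) (nat_lit 115) (.e (nat_lit 393297) (nat_lit 27) (.e (nat_lit 491571) (nat_lit 13) (.e (nat_lit 393238) (nat_lit 17) .nil))))) .nil)))) (.nd (nat_lit 5) (.nd (nat_lit 6) 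
(.lf (nat_lit 127384) (.g (nat_lit 3214) (.e (nat_lit 7562) (nat_lit 402) (.e (nat_lit 1661) (nat_lit 115) (.e (nat_lit 393299) (nat_lit 27) (.e (nat_lit 491570) (nat_lit 13) (.e (nat_lit 393239) (nat_lit 17) .nil))))) .nil)) 
(.lf (nat_lit 127448) (.g (nat_lit 1659) (.e (nat_lit 7936) (nat_lit 402) (.e (nat_lit 1656) (nat_lit 115) (.e (nat_lit 393301) (nat_lit 27) (.e (nat_lit 491567) (nat_lit 13) .nil)))) .nil))) (.nd (nat_lit 6) 
(.lf (nat_lit 127416) (.g (nat_lit 3468) (.e (nat_lit 7936) (nat_lit 402) (.e (nat_lit 1633) (nat_lit 114) (.e (nat_lit 385074) (nat_lit 31) (.e (nat_lit 573482) (nat_lit 13) (.e (nat_lit 65604) (nat_lit 9) .nil))))) .nil)) 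
(.lf (nat_lit 127480) (.g (nat_lit 77) (.e (nat_lit 7936) (nat_lit 402) (.e (nat_lit 1665) (nat_lit 115) (.e (nat_lit 393301) (nat_lit 27) .nil))) .nil)))))) (.nd (nat_lit 3) (.nd (nat_lit 4) (.nd (nat_lit 5) (.nd (nat_lit 6) 
(.lf (nat_lit 127364) (.g (nat_lit 2179) (.e (nat_lit 7562) (nat_lit 402) (.e (nat_lit 1659) (nat_lit 115) (.e (nat_lit 393301) (nat_lit 27) (.e (nat_lit 491558) (nat_lit 10) (.e (nat_lit 344091) (nat_lit 18) .nil))))) .nil)) 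
(.lf (nat_lit 127428) (.g (nat_lit 2257) (.e (nat_lit 7936) (nat_lit 402) (.e (nat_lit 1656) (nat_lit 115) (.e (nat_lit 393298) (nat_lit 27) (.e (nat_lit 491569) (nat_lit 13) (.e (nat_lit 393234) (nat_lit 17) .nil))))) .nil))) (.nd (nat_lit 6) 
(.lf (nat_lit 127396) (.g (nat_lit 1793) (.e (nat_lit 7936) (nat_lit 402) (.e (nat_lit 1239) (nat_lit 91) (.e (nat_lit 90170) (nat_lit 13) (.e (nat_lit 172113) (nat_lit 10) (.e (nat_lit 434238) (nat_lit 25) .nil))))) .nil)) 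
(.lf (nat_lit 127460) (.g (nat_lit 2145) (.e (nat_lit 7936) (nat_lit 402) (.e (nat_lit 1659) (nat_lit 115) (.e (nat_lit 393301) (nat_lit 27) (.e (nat_lit 491558) (nat_lit 10) (.e (nat_lit 344096) (nat_lit 18) .nil))))) .nil)))) (.nd (nat_lit 5) (.nd (nat_lit 6) 
(.lf (nat_lit 127380) (.g (nat_lit 2944) (.e (nat_lit 7562) (nat_lit 402) (.e (nat_lit 1661) (nat_lit 115) (.e (nat_lit 393298) (nat_lit 27) (.e (nat_lit 491570) (nat_lit 13) (.e (nat_lit 393239) (nat_lit 17) .nil))))) .nil)) 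
(.lf (nat_lit 127444) (.g (nat_lit 2620) (.e (nat_lit 7936) (nat_lit 402) (.e (nat_lit 1656) (nat_lit 115) (.e (nat_lit 393300) (nat_lit 27) (.e (nat_lit 491570) (nat_lit 13) (.e (nat_lit 393239) (nat_lit 17) .nil))))) .nil))) (.nd (nat_lit 6) 
(.lf (nat_lit 127412) (.g (nat_lit 1098) (.e (nat_lit 7936) (nat_lit 402) (.e (nat_lit 1544) (nat_lit 109) (.e (nat_lit 344126) (nat_lit 25) (.e (nat_lit 548872) (nat_lit 5) (.e (nat_lit 1598) (nat_lit 111) .nil))))) .nil)) 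
(.lf (nat_lit 127476) (.g (nat_lit 1844) (.e (nat_lit 7936) (nat_lit 402) (.e (nat_lit 1664) (nat_lit 115) (.e (nat_lit 393298) (nat_lit 27) (.e (nat_lit 491549) (nat_lit 9) (.e (nat_lit 336369) (nat_lit 27) .nil))))) .nil))))) (.nd (nat_lit 4) (.nd (nat_lit 5) (.nd (nat_lit 6) 
(.lf (nat_lit 127372) (.g (nat_lit 2057) (.e (nat_lit 7562) (nat_lit 402) (.e (nat_lit 1661) (nat_lit 115) (.e (nat_lit 393238) (nat_lit 17) (.e (nat_lit 7537) (nat_lit 402) (.e (nat_lit 1661) (nat_lit 115) .nil))))) .nil)) 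
(.lf (nat_lit 127436) (.g (nat_lit 1080) (.e (nat_lit 7936) (nat_lit 402) (.e (nat_lit 1656) (nat_lit 115) (.e (nat_lit 393300) (nat_lit 27) (.e (nat_lit 491568) (nat_lit 13) .nil)))) .nil))) (.nd (nat_lit 6) 
(.lf (nat_lit 127404) (.g (nat_lit 2315) (.e (nat_lit 7936) (nat_lit 402) (.e (nat_lit 1454) (nat_lit 108) (.e (nat_lit 336389) (nat_lit 27) (.e (nat_lit 426343) (nat_lit 14) (.e (nat_lit 491549) (nat_lit 9) .nil))))) .nil)) 
(.lf (nat_lit 127468) (.g (nat_lit 1846) (.e (nat_lit 7936) (nat_lit 402) (.e (nat_lit 1661) (nat_lit 115) (.e (nat_lit 393260) (nat_lit 21) (.e (nat_lit 409617) (nat_lit 10) .nil)))) .nil)))) (.nd (nat_lit 5) (.nd (nat_lit 6) 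
(.lf (nat_lit 127388) (.g (nat_lit 1562) (.e (nat_lit 7567) (nat_lit 402) (.e (nat_lit 1661) (nat_lit 115) (.e (nat_lit 393260) (nat_lit 21) (.e (nat_lit 409616) (nat_lit 10) .nil)))) .nil)) 
(.lf (nat_lit 127452) (.g (nat_lit 2476) (.e (nat_lit 7936) (nat_lit 402) (.e (nat_lit 1656) (nat_lit 115) (.e (nat_lit 393301) (nat_lit 27) (.e (nat_lit 491568) (nat_lit 13) (.e (nat_lit 393230) (nat_lit 17) .nil))))) .nil))) (.nd (nat_lit 6) 
(.lf (nat_lit 127420) (.g (nat_lit 1380) (.e (nat_lit 7936) (nat_lit 402) (.e (nat_lit 1638) (nat_lit 114) (.e (nat_lit 385074) (nat_lit 31) (.e (nat_lit 573491) (nat_lit 15) .nil)))) .nil)) 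
(.lf (nat_lit 127484) (.g (nat_lit 1151) (.e (nat_lit 7573) (nat_lit 404) (.e (nat_lit 16456) (nat_lit 12) (.e (nat_lit 475169) (nat_lit 22) (.e (nat_lit 507648) (nat_lit 14) .nil)))) .nil))))))) (.nd (nat_lit 2) (.nd (nat_lit 3) (.nd (nat_lit 4) (.nd (nat_lit 5) (.nd (nat_lit 6) 
(.lf (nat_lit 127362) (.g (nat_lit 2342) (.e (nat_lit 7562) (nat_lit 402) (.e (nat_lit 1659) (nat_lit 115) (.e (nat_lit 393301) (nat_lit 27) (.e (nat_lit 491558) (nat_lit 10) (.e (nat_lit 344088) (nat_lit 18) .nil))))) .nil)) 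
(.lf (nat_lit 127426) (.g (nat_lit 1490) (.e (nat_lit 7936) (nat_lit 402) (.e (nat_lit 1656) (nat_lit 115) (.e (nat_lit 393234) (nat_lit 17) (.e (nat_lit 7589) (nat_lit 406) (.e (nat_lit 65653) (nat_lit 27) .nil))))) .nil))) (.nd (nat_lit 6) 
(.lf (nat_lit 127394) (.g (nat_lit 732) (.e (nat_lit 7936) (nat_lit 402) (.e (nat_lit 1228) (nat_lit 91) (.e (nat_lit 90172) (nat_lit 14) (.e (nat_lit 180285) (nat_lit 45) (.e (nat_lit 2570) (nat_lit 160) .nil))))) .nil)) 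
(.lf (nat_lit 127458) (.g (nat_lit 1875) (.e (nat_lit 7936) (nat_lit 402) (.e (nat_lit 1659) (nat_lit 115) (.e (nat_lit 393298) (nat_lit 27) (.e (nat_lit 491571) (nat_lit 13) (.e (nat_lit 393242) (nat_lit 17) .nil))))) .nil)))) (.nd (nat_lit 5) (.nd (nat_lit 6) 
(.lf (nat_lit 127378) (.g (nat_lit 2538) (.e (nat_lit 7562) (nat_lit 402) (.e (nat_lit 1661) (nat_lit 115) (.e (nat_lit 393260) (nat_lit 21) (.e (nat_lit 409617) (nat_lit 10) (.e (nat_lit 7936) (nat_lit 300) .nil))))) .nil)) 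
(.lf (nat_lit 127442) (.g (nat_lit 2552) (.e (nat_lit 7936) (nat_lit 402) (.e (nat_lit 1656) (nat_lit 115) (.e (nat_lit 393300) (nat_lit 27) (.e (nat_lit 491570) (nat_lit 13) (.e (nat_lit 393232) (nat_lit 17) .nil))))) .nil))) (.nd (nat_lit 6) 
(.lf (nat_lit 127410) (.g (nat_lit 1077) (.e (nat_lit 7936) (nat_lit 402) (.e (nat_lit 1536) (nat_lit 109) (.e (nat_lit 344126) (nat_lit 25) (.e (nat_lit 548891) (nat_lit 11) .nil)))) .nil)) 
(.lf (nat_lit 127474) (.g (nat_lit 1095) (.e (nat_lit 7936) (nat_lit 402) (.e (nat_lit 1663) (nat_lit 115) (.e (nat_lit 393260) (nat_lit 21) (.e (nat_lit 409616) (nat_lit 10) .nil)))) .nil))))) (.nd (nat_lit 4) (.nd (nat_lit 5) (.nd (nat_lit 6) 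
(.lf (nat_lit 127370) (.g (nat_lit 805) (.e (nat_lit 7562) (nat_lit 402) (.e (nat_lit 1660) (nat_lit 115) (.e (nat_lit 393298) (nat_lit 27) (.e (nat_lit 491570) (nat_lit 13) .nil)))) .nil)) 
(.lf (nat_lit 127434) (.g (nat_lit 944) (.e (nat_lit 7936) (nat_lit 402) (.e (nat_lit 1656) (nat_lit 115) (.e (nat_lit 393300) (nat_lit 27) (.e (nat_lit 491549) (nat_lit 9) .nil)))) .nil))) (.nd (nat_lit 6) 
(.lf (nat_lit 127402) (.g (nat_lit 2508) (.e (nat_lit 7936) (nat_lit 402) (.e (nat_lit 1454) (nat_lit 108) (.e (nat_lit 336295) (nat_lit 15) (.e (nat_lit 3305) (nat_lit 202) (.e (nat_lit 573485) (nat_lit 13) .nil))))) .nil)) 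
(.lf (nat_lit 127466) (.g (nat_lit 1878) (.e (nat_lit 7936) (nat_lit 402) (.e (nat_lit 1661) (nat_lit 115) (.e (nat_lit 393260) (nat_lit 21) (.e (nat_lit 409616) (nat_lit 10) .nil)))) .nil)))) (.nd (nat_lit 5) (.nd (nat_lit 6) 
(.lf (nat_lit 127386) (.g (nat_lit 3148) (.e (nat_lit 7563) (nat_lit 402) (.e (nat_lit 1661) (nat_lit 115) (.e (nat_lit 393260) (nat_lit 21) (.e (nat_lit 409617) (nat_lit 10) (.e (nat_lit 5353) (nat_lit 298) .nil))))) .nil)) 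
(.lf (nat_lit 127450) (.g (nat_lit 2478) (.e (nat_lit 7936) (nat_lit 402) (.e (nat_lit 1656) (nat_lit 115) (.e (nat_lit 393301) (nat_lit 27) (.e (nat_lit 491567) (nat_lit 13) (.e (nat_lit 393234) (nat_lit 17) .nil))))) .nil))) (.nd (nat_lit 6) 
(.lf (nat_lit 127418) (.g (nat_lit 2236) (.e (nat_lit 7936) (nat_lit 402) (.e (nat_lit 1635) (nat_lit 114) (.e (nat_lit 385074) (nat_lit 31) (.e (nat_lit 573484) (nat_lit 13) (.e (nat_lit 65610) (nat_lit 10) .nil))))) .nil)) 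
(.lf (nat_lit 127482) (.g (nat_lit 884) (.e (nat_lit 7573) (nat_lit 404) (.e (nat_lit 16433) (nat_lit 9) (.e (nat_lit 426428) (nat_lit 17) .nil))) .nil)))))) (.nd (nat_lit 3) (.nd (nat_lit 4) (.nd (nat_lit 5) (.nd (nat_lit 6) 
(.lf (nat_lit 127366) (.g (nat_lit 2571) (.e (nat_lit 7562) (nat_lit 402) (.e (nat_lit 1659) (nat_lit 115) (.e (nat_lit 393301) (nat_lit 27) (.e (nat_lit 491560) (nat_lit 10) (.e (nat_lit 344091) (nat_lit 18) .nil))))) .nil)) 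
(.lf (nat_lit 127430) (.g (nat_lit 2512) (.e (nat_lit 7936) (nat_lit 402) (.e (nat_lit 1656) (nat_lit 115) (.e (nat_lit 393298) (nat_lit 27) (.e (nat_lit 491571) (nat_lit 13) (.e (nat_lit 393232) (nat_lit 17) .nil))))) .nil))) (.nd (nat_lit 6) 
(.lf (nat_lit 127398) (.g (nat_lit 1906) (.e (nat_lit 7936) (nat_lit 402) (.e (nat_lit 1239) (nat_lit 91) (.e (nat_lit 90174) (nat_lit 14) (.e (nat_lit 180288) (nat_lit 45) .nil)))) .nil)) 
(.lf (nat_lit 127462) (.g (nat_lit 2371) (.e (nat_lit 7936) (nat_lit 402) (.e (nat_lit 1659) (nat_lit 115) (.e (nat_lit 393301) (nat_lit 27) (.e (nat_lit 491568) (nat_lit 13) (.e (nat_lit 393235) (nat_lit 17) .nil))))) .nil)))) (.nd (nat_lit 5) (.nd (nat_lit 6) 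
(.lf (nat_lit 127382) (.g (nat_lit 2130) (.e (nat_lit 7562) (nat_lit 402) (.e (nat_lit 1661) (nat_lit 115) (.e (nat_lit 393299) (nat_lit 27) (.e (nat_lit 491568) (nat_lit 13) (.e (nat_lit 393235) (nat_lit 17) .nil))))) .nil)) 
(.lf (nat_lit 127446) (.g (nat_lit 414) (.e (nat_lit 7936) (nat_lit 402) (.e (nat_lit 1656) (nat_lit 115) (.e (nat_lit 393301) (nat_lit 27) .nil))) .nil))) (.nd (nat_lit 6) 
(.lf (nat_lit 127414) (.g (nat_lit 785) (.e (nat_lit 7936) (nat_lit 402) (.e (nat_lit 1551) (nat_lit 109) (.e (nat_lit 344126) (nat_lit 25) (.e (nat_lit 548891) (nat_lit 11) .nil)))) .nil)) 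
(.lf (nat_lit 127478) (.g (nat_lit 1028) (.e (nat_lit 7936) (nat_lit 402) (.e (nat_lit 1664) (nat_lit 115) (.e (nat_lit 393301) (nat_lit 27) (.e (nat_lit 491546) (nat_lit 9) .nil)))) .nil))))) (.nd (nat_lit 4) (.nd (nat_lit 5) (.nd (nat_lit 6) 
(.lf (nat_lit 127374) (.g (nat_lit 460) (.e (nat_lit 7562) (nat_lit 402) (.e (nat_lit 1661) (nat_lit 115) (.e (nat_lit 393260) (nat_lit 21) .nil))) .nil)) 
(.lf (nat_lit 127438) (.g (nat_lit 2391) (.e (nat_lit 7936) (nat_lit 402) (.e (nat_lit 1656) (nat_lit 115) (.e (nat_lit 393300) (nat_lit 27) (.e (nat_lit 491568) (nat_lit 13) (.e (nat_lit 393237) (nat_lit 17) .nil))))) .nil))) (.nd (nat_lit 6) 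
(.lf (nat_lit 127406) (.g (nat_lit 991) (.e (nat_lit 7936) (nat_lit 402) (.e (nat_lit 1535) (nat_lit 109) (.e (nat_lit 344126) (nat_lit 25) (.e (nat_lit 548872) (nat_lit 5) .nil)))) .nil)) 
(.lf (nat_lit 127470) (.g (nat_lit 1709) (.e (nat_lit 7936) (nat_lit 402) (.e (nat_lit 1661) (nat_lit 115) (.e (nat_lit 393297) (nat_lit 27) (.e (nat_lit 491571) (nat_lit 13) (.e (nat_lit 393235) (nat_lit 17) .nil))))) .nil)))) (.nd (nat_lit 5) (.nd (nat_lit 6) 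
(.lf (nat_lit 127390) (.g (nat_lit 1009) (.e (nat_lit 7567) (nat_lit 402) (.e (nat_lit 1661) (nat_lit 115) (.e (nat_lit 393297) (nat_lit 27) (.e (nat_lit 491571) (nat_lit 13) .nil)))) .nil)) 
(.lf (nat_lit 127454) (.g (nat_lit 2417) (.e (nat_lit 7936) (nat_lit 402) (.e (nat_lit 1656) (nat_lit 115) (.e (nat_lit 393301) (nat_lit 27) (.e (nat_lit 491568) (nat_lit 13) (.e (nat_lit 393233) (nat_lit 17) .nil))))) .nil))) (.nd (nat_lit 6) 
(.lf (nat_lit 127422) (.g (nat_lit 900) (.e (nat_lit 7936) (nat_lit 402) (.e (nat_lit 1648) (nat_lit 115) (.e (nat_lit 393298) (nat_lit 27) (.e (nat_lit 491571) (nat_lit 13) .nil)))) .nil)) 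
(.lf (nat_lit 127486) (.g (nat_lit 886) (.e (nat_lit 7575) (nat_lit 404) (.e (nat_lit 16433) (nat_lit 9) (.e (nat_lit 426432) (nat_lit 17) .nil))) .nil)))))))) (.nd (nat_lit 1) (.nd (nat_lit 2) (.nd (nat_lit 3) (.nd (nat_lit 4) (.nd (nat_lit 5) (.nd (nat_lit 6) 
(.lf (nat_lit 127361) (.g (nat_lit 2171) (.e (nat_lit 7562) (nat_lit 402) (.e (nat_lit 1659) (nat_lit 115) (.e (nat_lit 393301) (nat_lit 27) (.e (nat_lit 491555) (nat_lit 9) (.e (nat_lit 336408) (nat_lit 27) (.e (nat_lit 426031) (nat_lit 0) .nil)))))) (.g (nat_lit 4) .nil .nil))) 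
(.lf (nat_lit 127425) (.g (nat_lit 1623) (.e (nat_lit 7936) (nat_lit 402) (.e (nat_lit 1656) (nat_lit 115) (.e (nat_lit 393234) (nat_lit 17) (.e (nat_lit 7587) (nat_lit 406) (.e (nat_lit 65653) (nat_lit 27) .nil))))) .nil))) (.nd (nat_lit 6) 
(.lf (nat_lit 127393) (.g (nat_lit 791) (.e (nat_lit 7936) (nat_lit 402) (.e (nat_lit 1228) (nat_lit 91) (.e (nat_lit 90172) (nat_lit 14) (.e (nat_lit 180285) (nat_lit 45) (.e (nat_lit 2569) (nat_lit 160) .nil))))) .nil)) 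
(.lf (nat_lit 127457) (.g (nat_lit 2236) (.e (nat_lit 7936) (nat_lit 402) (.e (nat_lit 1656) (nat_lit 115) (.e (nat_lit 393301) (nat_lit 27) (.e (nat_lit 491568) (nat_lit 13) (.e (nat_lit 393242) (nat_lit 17) .nil))))) .nil)))) (.nd (nat_lit 5) (.nd (nat_lit 6) 
(.lf (nat_lit 127377) (.g (nat_lit 2916) (.e (nat_lit 7562) (nat_lit 402) (.e (nat_lit 1661) (nat_lit 115) (.e (nat_lit 393260) (nat_lit 21) (.e (nat_lit 409617) (nat_lit 10) (.e (nat_lit 5353) (nat_lit 298) .nil))))) .nil)) 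
(.lf (nat_lit 127441) (.g (nat_lit 1315) (.e (nat_lit 7936) (nat_lit 402) (.e (nat_lit 1656) (nat_lit 115) (.e (nat_lit 393300) (nat_lit 27) (.e (nat_lit 491570) (nat_lit 13) .nil)))) .nil))) (.nd (nat_lit 6) 
(.lf (nat_lit 127409) (.g (nat_lit 1437) (.e (nat_lit 7936) (nat_lit 402) (.e (nat_lit 1536) (nat_lit 109) (.e (nat_lit 344126) (nat_lit 25) (.e (nat_lit 548872) (nat_lit 5) (.e (nat_lit 1598) (nat_lit 111) .nil))))) .nil)) 
(.lf (nat_lit 127473) (.g (nat_lit 1837) (.e (nat_lit 7936) (nat_lit 402) (.e (nat_lit 1661) (nat_lit 115) (.e (nat_lit 393299) (nat_lit 27) (.e (nat_lit 491568) (nat_lit 13) (.e (nat_lit 393238) (nat_lit 17) .nil))))) .nil))))) (.nd (nat_lit 4) (.nd (nat_lit 5) (.nd (nat_lit 6) 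
(.lf (nat_lit 127369) (.g (nat_lit 2007) (.e (nat_lit 7562) (nat_lit 402) (.e (nat_lit 1660) (nat_lit 115) (.e (nat_lit 393260) (nat_lit 21) (.e (nat_lit 409617) (nat_lit 10) (.e (nat_lit 7936) (nat_lit 300) .nil))))) .nil)) 
(.lf (nat_lit 127433) (.g (nat_lit 296) (.e (nat_lit 7936) (nat_lit 402) (.e (nat_lit 1656) (nat_lit 115) (.e (nat_lit 393300) (nat_lit 27) .nil))) .nil))) (.nd (nat_lit 6) 
(.lf (nat_lit 127401) (.g (nat_lit 743) (.e (nat_lit 7936) (nat_lit 402) (.e (nat_lit 1436) (nat_lit 108) (.e (nat_lit 336389) (nat_lit 27) (.e (nat_lit 426343) (nat_lit 14) .nil)))) .nil)) 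
(.lf (nat_lit 127465) (.g (nat_lit 2173) (.e (nat_lit 7936) (nat_lit 402) (.e (nat_lit 1660) (nat_lit 115) (.e (nat_lit 393298) (nat_lit 27) (.e (nat_lit 491571) (nat_lit 13) (.e (nat_lit 393238) (nat_lit 17) .nil))))) .nil)))) (.nd (nat_lit 5) (.nd (nat_lit 6) 
(.lf (nat_lit 127385) (.g (nat_lit 2673) (.e (nat_lit 7563) (nat_lit 402) (.e (nat_lit 1661) (nat_lit 115) (.e (nat_lit 393260) (nat_lit 21) (.e (nat_lit 409616) (nat_lit 10) .nil)))) .nil)) 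
(.lf (nat_lit 127449) (.g (nat_lit 2504) (.e (nat_lit 7936) (nat_lit 402) (.e (nat_lit 1656) (nat_lit 115) (.e (nat_lit 393301) (nat_lit 27) (.e (nat_lit 491567) (nat_lit 13) (.e (nat_lit 393233) (nat_lit 17) .nil))))) .nil))) (.nd (nat_lit 6) 
(.lf (nat_lit 127417) (.g (nat_lit 2513) (.e (nat_lit 7936) (nat_lit 402) (.e (nat_lit 1634) (nat_lit 114) (.e (nat_lit 385074) (nat_lit 31) (.e (nat_lit 573493) (nat_lit 15) (.e (nat_lit 81956) (nat_lit 23) .nil))))) .nil)) 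
(.lf (nat_lit 127481) (.g (nat_lit 1688) (.e (nat_lit 7936) (nat_lit 402) (.e (nat_lit 1665) (nat_lit 115) (.e (nat_lit 393301) (nat_lit 27) (.e (nat_lit 491568) (nat_lit 13) (.e (nat_lit 393232) (nat_lit 17) .nil))))) .nil)))))) (.nd (nat_lit 3) (.nd (nat_lit 4) (.nd (nat_lit 5) (.nd (nat_lit 6) 
(.lf (nat_lit 127365) (.g (nat_lit 2631) (.e (nat_lit 7562) (nat_lit 402) (.e (nat_lit 1659) (nat_lit 115) (.e (nat_lit 393301) (nat_lit 27) (.e (nat_lit 491559) (nat_lit 10) (.e (nat_lit 344091) (nat_lit 18) .nil))))) .nil)) 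
(.lf (nat_lit 127429) (.g (nat_lit 946) (.e (nat_lit 7936) (nat_lit 402) (.e (nat_lit 1656) (nat_lit 115) (.e (nat_lit 393298) (nat_lit 27) (.e (nat_lit 491570) (nat_lit 13) .nil)))) .nil))) (.nd (nat_lit 6) 
(.lf (nat_lit 127397) (.g (nat_lit 1647) (.e (nat_lit 7936) (nat_lit 402) (.e (nat_lit 1239) (nat_lit 91) (.e (nat_lit 90170) (nat_lit 13) (.e (nat_lit 172126) (nat_lit 14) .nil)))) .nil)) 
(.lf (nat_lit 127461) (.g (nat_lit 2230) (.e (nat_lit 7936) (nat_lit 402) (.e (nat_lit 1659) (nat_lit 115) (.e (nat_lit 393301) (nat_lit 27) (.e (nat_lit 491567) (nat_lit 13) (.e (nat_lit 393238) (nat_lit 17) .nil))))) .nil)))) (.nd (nat_lit 5) (.nd (nat_lit 6) 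
(.lf (nat_lit 127381) (.g (nat_lit 1428) (.e (nat_lit 7562) (nat_lit 402) (.e (nat_lit 1661) (nat_lit 115) (.e (nat_lit 393299) (nat_lit 27) (.e (nat_lit 491552) (nat_lit 9) .nil)))) .nil)) 
(.lf (nat_lit 127445) (.g (nat_lit 1022) (.e (nat_lit 7936) (nat_lit 402) (.e (nat_lit 1656) (nat_lit 115) (.e (nat_lit 393300) (nat_lit 27) (.e (nat_lit 499456) (nat_lit 13) .nil)))) .nil))) (.nd (nat_lit 6) 
(.lf (nat_lit 127413) (.g (nat_lit 775) (.e (nat_lit 7936) (nat_lit 402) (.e (nat_lit 1550) (nat_lit 109) (.e (nat_lit 344126) (nat_lit 25) (.e (nat_lit 548891) (nat_lit 11) .nil)))) .nil)) 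
(.lf (nat_lit 127477) (.g (nat_lit 1768) (.e (nat_lit 7936) (nat_lit 402) (.e (nat_lit 1664) (nat_lit 115) (.e (nat_lit 393300) (nat_lit 27) (.e (nat_lit 491570) (nat_lit 13) (.e (nat_lit 393238) (nat_lit 17) .nil))))) .nil))))) (.nd (nat_lit 4) (.nd (nat_lit 5) (.nd (nat_lit 6) 
(.lf (nat_lit 127373) (.g (nat_lit 1132) (.e (nat_lit 7562) (nat_lit 402) (.e (nat_lit 1661) (nat_lit 115) (.e (nat_lit 393242) (nat_lit 17) (.e (nat_lit 7556) (nat_lit 402) (.e (nat_lit 1661) (nat_lit 115) .nil))))) .nil)) 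
(.lf (nat_lit 127437) (.g (nat_lit 1941) (.e (nat_lit 7936) (nat_lit 402) (.e (nat_lit 1656) (nat_lit 115) (.e (nat_lit 393300) (nat_lit 27) (.e (nat_lit 491568) (nat_lit 13) (.e (nat_lit 393233) (nat_lit 17) .nil))))) .nil))) (.nd (nat_lit 6) 
(.lf (nat_lit 127405) (.g (nat_lit 2157) (.e (nat_lit 7936) (nat_lit 402) (.e (nat_lit 1454) (nat_lit 108) (.e (nat_lit 336389) (nat_lit 27) (.e (nat_lit 426343) (nat_lit 14) (.e (nat_lit 491568) (nat_lit 13) .nil))))) .nil)) 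
(.lf (nat_lit 127469) (.g (nat_lit 2479) (.e (nat_lit 7936) (nat_lit 402) (.e (nat_lit 1661) (nat_lit 115) (.e (nat_lit 393260) (nat_lit 21) (.e (nat_lit 409617) (nat_lit 10) (.e (nat_lit 7936) (nat_lit 300) .nil))))) .nil)))) (.nd (nat_lit 5) (.nd (nat_lit 6) 
(.lf (nat_lit 127389) (.g (nat_lit 2039) (.e (nat_lit 7567) (nat_lit 402) (.e (nat_lit 1661) (nat_lit 115) (.e (nat_lit 393260) (nat_lit 21) (.e (nat_lit 409617) (nat_lit 10) .nil)))) .nil)) 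
(.lf (nat_lit 127453) (.g (nat_lit 2299) (.e (nat_lit 7936) (nat_lit 402) (.e (nat_lit 1656) (nat_lit 115) (.e (nat_lit 393301) (nat_lit 27) (.e (nat_lit 491568) (nat_lit 13) (.e (nat_lit 393232) (nat_lit 17) .nil))))) .nil))) (.nd (nat_lit 6) 
(.lf (nat_lit 127421) (.g (nat_lit 2697) (.e (nat_lit 7936) (nat_lit 402) (.e (nat_lit 1644) (nat_lit 114) (.e (nat_lit 385074) (nat_lit 31) (.e (nat_lit 573491) (nat_lit 15) (.e (nat_lit 81954) (nat_lit 23) .nil))))) .nil)) 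
(.lf (nat_lit 127485) (.g (nat_lit 886) (.e (nat_lit 7574) (nat_lit 404) (.e (nat_lit 16433) (nat_lit 9) (.e (nat_lit 426432) (nat_lit 17) .nil))) .nil))))))) (.nd (nat_lit 2) (.nd (nat_lit 3) (.nd (nat_lit 4) (.nd (nat_lit 5) (.nd (nat_lit 6) 
(.lf (nat_lit 127363) (.g (nat_lit 1952) (.e (nat_lit 7562) (nat_lit 402) (.e (nat_lit 1659) (nat_lit 115) (.e (nat_lit 393301) (nat_lit 27) (.e (nat_lit 491558) (nat_lit 10) (.e (nat_lit 344090) (nat_lit 18) .nil))))) .nil)) 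
(.lf (nat_lit 127427) (.g (nat_lit 1956) (.e (nat_lit 7936) (nat_lit 402) (.e (nat_lit 1656) (nat_lit 115) (.e (nat_lit 393297) (nat_lit 27) (.e (nat_lit 491571) (nat_lit 13) (.e (nat_lit 393232) (nat_lit 17) .nil))))) .nil))) (.nd (nat_lit 6) 
(.lf (nat_lit 127395) (.g (nat_lit 2624) (.e (nat_lit 7936) (nat_lit 402) (.e (nat_lit 1239) (nat_lit 91) (.e (nat_lit 90170) (nat_lit 13) (.e (nat_lit 172106) (nat_lit 10) (.e (nat_lit 434238) (nat_lit 25) .nil))))) .nil)) 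
(.lf (nat_lit 127459) (.g (nat_lit 1791) (.e (nat_lit 7936) (nat_lit 402) (.e (nat_lit 1659) (nat_lit 115) (.e (nat_lit 393299) (nat_lit 27) (.e (nat_lit 491570) (nat_lit 13) (.e (nat_lit 393238) (nat_lit 17) .nil))))) .nil)))) (.nd (nat_lit 5) (.nd (nat_lit 6) 
(.lf (nat_lit 127379) (.g (nat_lit 2374) (.e (nat_lit 7562) (nat_lit 402) (.e (nat_lit 1661) (nat_lit 115) (.e (nat_lit 393297) (nat_lit 27) (.e (nat_lit 491571) (nat_lit 13) (.e (nat_lit 393231) (nat_lit 17) .nil))))) .nil)) 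
(.lf (nat_lit 127443) (.g (nat_lit 2677) (.e (nat_lit 7936) (nat_lit 402) (.e (nat_lit 1656) (nat_lit 115) (.e (nat_lit 393300) (nat_lit 27) (.e (nat_lit 491570) (nat_lit 13) (.e (nat_lit 393235) (nat_lit 17) .nil))))) .nil))) (.nd (nat_lit 6) 
(.lf (nat_lit 127411) (.g (nat_lit 1561) (.e (nat_lit 7936) (nat_lit 402) (.e (nat_lit 1538) (nat_lit 109) (.e (nat_lit 344126) (nat_lit 25) (.e (nat_lit 548874) (nat_lit 5) (.e (nat_lit 1598) (nat_lit 111) .nil))))) .nil)) 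
(.lf (nat_lit 127475) (.g (nat_lit 1856) (.e (nat_lit 7936) (nat_lit 402) (.e (nat_lit 1663) (nat_lit 115) (.e (nat_lit 393298) (nat_lit 27) (.e (nat_lit 491570) (nat_lit 13) (.e (nat_lit 393238) (nat_lit 17) .nil))))) .nil))))) (.nd (nat_lit 4) (.nd (nat_lit 5) (.nd (nat_lit 6) 
(.lf (nat_lit 127371) (.g (nat_lit 352) (.e (nat_lit 7562) (nat_lit 402) (.e (nat_lit 1660) (nat_lit 115) (.e (nat_lit 401152) (nat_lit 27) .nil))) .nil)) 
(.lf (nat_lit 127435) (.g (nat_lit 1069) (.e (nat_lit 7936) (nat_lit 402) (.e (nat_lit 1656) (nat_lit 115) (.e (nat_lit 393300) (nat_lit 27) (.e (nat_lit 491567) (nat_lit 13) .nil)))) .nil))) (.nd (nat_lit 6) 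
(.lf (nat_lit 127403) (.g (nat_lit 2770) (.e (nat_lit 7936) (nat_lit 402) (.e (nat_lit 1454) (nat_lit 108) (.e (nat_lit 336295) (nat_lit 15) (.e (nat_lit 3305) (nat_lit 202) (.e (nat_lit 573491) (nat_lit 15) .nil))))) .nil)) 
(.lf (nat_lit 127467) (.g (nat_lit 2637) (.e (nat_lit 7936) (nat_lit 402) (.e (nat_lit 1661) (nat_lit 115) (.e (nat_lit 393260) (nat_lit 21) (.e (nat_lit 409616) (nat_lit 10) (.e (nat_lit 7936) (nat_lit 300) .nil))))) .nil)))) (.nd (nat_lit 5) (.nd (nat_lit 6) 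
(.lf (nat_lit 127387) (.g (nat_lit 2137) (.e (nat_lit 7566) (nat_lit 402) (.e (nat_lit 1661) (nat_lit 115) (.e (nat_lit 393260) (nat_lit 21) (.e (nat_lit 409616) (nat_lit 10) .nil)))) .nil)) 
(.lf (nat_lit 127451) (.g (nat_lit 1205) (.e (nat_lit 7936) (nat_lit 402) (.e (nat_lit 1656) (nat_lit 115) (.e (nat_lit 393301) (nat_lit 27) (.e (nat_lit 491568) (nat_lit 13) .nil)))) .nil))) (.nd (nat_lit 6) 
(.lf (nat_lit 127419) (.g (nat_lit 1444) (.e (nat_lit 7936) (nat_lit 402) (.e (nat_lit 1637) (nat_lit 114) (.e (nat_lit 385074) (nat_lit 31) (.e (nat_lit 573491) (nat_lit 15) .nil)))) .nil)) 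
(.lf (nat_lit 127483) (.g (nat_lit 1455) (.e (nat_lit 7573) (nat_lit 404) (.e (nat_lit 16456) (nat_lit 12) (.e (nat_lit 475169) (nat_lit 22) (.e (nat_lit 500008) (nat_lit 14) .nil)))) .nil)))))) (.nd (nat_lit 3) (.nd (nat_lit 4) (.nd (nat_lit 5) (.nd (nat_lit 6) 
(.lf (nat_lit 127367) (.g (nat_lit 2337) (.e (nat_lit 7562) (nat_lit 402) (.e (nat_lit 1659) (nat_lit 115) (.e (nat_lit 393301) (nat_lit 27) (.e (nat_lit 491568) (nat_lit 13) (.e (nat_lit 393235) (nat_lit 17) .nil))))) .nil)) 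
(.lf (nat_lit 127431) (.g (nat_lit 2132) (.e (nat_lit 7936) (nat_lit 402) (.e (nat_lit 1656) (nat_lit 115) (.e (nat_lit 393298) (nat_lit 27) (.e (nat_lit 491571) (nat_lit 13) (.e (nat_lit 393242) (nat_lit 17) .nil))))) .nil))) (.nd (nat_lit 6) 
(.lf (nat_lit 127399) (.g (nat_lit 2853) (.e (nat_lit 7936) (nat_lit 402) (.e (nat_lit 1255) (nat_lit 92) (.e (nat_lit 98372) (nat_lit 29) (.e (nat_lit 450588) (nat_lit 10) (.e (nat_lit 573452) (nat_lit 9) .nil))))) .nil)) 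
(.lf (nat_lit 127463) (.g (nat_lit 2748) (.e (nat_lit 7936) (nat_lit 402) (.e (nat_lit 1659) (nat_lit 115) (.e (nat_lit 393301) (nat_lit 27) (.e (nat_lit 491568) (nat_lit 13) (.e (nat_lit 393238) (nat_lit 17) .nil))))) .nil)))) (.nd (nat_lit 5) (.nd (nat_lit 6) 
(.lf (nat_lit 127383) (.g (nat_lit 2932) (.e (nat_lit 7562) (nat_lit 402) (.e (nat_lit 1661) (nat_lit 115) (.e (nat_lit 393299) (nat_lit 27) (.e (nat_lit 491568) (nat_lit 13) (.e (nat_lit 393239) (nat_lit 17) .nil))))) .nil)) 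
(.lf (nat_lit 127447) (.g (nat_lit 1828) (.e (nat_lit 7936) (nat_lit 402) (.e (nat_lit 1656) (nat_lit 115) (.e (nat_lit 393301) (nat_lit 27) (.e (nat_lit 491552) (nat_lit 9) .nil)))) .nil))) (.nd (nat_lit 6) 
(.lf (nat_lit 127415) (.g (nat_lit 2548) (.e (nat_lit 7936) (nat_lit 402) (.e (nat_lit 1631) (nat_lit 114) (.e (nat_lit 385074) (nat_lit 31) (.e (nat_lit 573491) (nat_lit 15) (.e (nat_lit 81954) (nat_lit 23) .nil))))) .nil)) 
(.lf (nat_lit 127479) (.g (nat_lit 1568) (.e (nat_lit 7936) (nat_lit 402) (.e (nat_lit 1664) (nat_lit 115) (.e (nat_lit 393301) (nat_lit 27) (.e (nat_lit 491552) (nat_lit 9) (.e (nat_lit 336412) (nat_lit 27) .nil))))) .nil))))) (.nd (nat_lit 4) (.nd (nat_lit 5) (.nd (nat_lit 6) 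
(.lf (nat_lit 127375) (.g (nat_lit 2881) (.e (nat_lit 7562) (nat_lit 402) (.e (nat_lit 1661) (nat_lit 115) (.e (nat_lit 393260) (nat_lit 21) (.e (nat_lit 409616) (nat_lit 10) (.e (nat_lit 7936) (nat_lit 300) .nil))))) .nil)) 
(.lf (nat_lit 127439) (.g (nat_lit 1996) (.e (nat_lit 7936) (nat_lit 402) (.e (nat_lit 1656) (nat_lit 115) (.e (nat_lit 393300) (nat_lit 27) (.e (nat_lit 491569) (nat_lit 13) (.e (nat_lit 393232) (nat_lit 17) .nil))))) .nil))) (.nd (nat_lit 6) 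
(.lf (nat_lit 127407) (.g (nat_lit 864) (.e (nat_lit 7936) (nat_lit 402) (.e (nat_lit 1535) (nat_lit 109) (.e (nat_lit 344126) (nat_lit 25) (.e (nat_lit 548873) (nat_lit 5) .nil)))) .nil)) 
(.lf (nat_lit 127471) (.g (nat_lit 639) (.e (nat_lit 7936) (nat_lit 402) (.e (nat_lit 1661) (nat_lit 115) (.e (nat_lit 393298) (nat_lit 27) (.e (nat_lit 491571) (nat_lit 13) .nil)))) .nil)))) (.nd (nat_lit 5) (.nd (nat_lit 6) 
(.lf (nat_lit 127391) (.g (nat_lit 603) (.e (nat_lit 7936) (nat_lit 402) (.e (nat_lit 1227) (nat_lit 91) (.e (nat_lit 90172) (nat_lit 14) (.e (nat_lit 180285) (nat_lit 45) (.e (nat_lit 2570) (nat_lit 160) .nil))))) .nil)) 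
(.lf (nat_lit 127455) (.g (nat_lit 2282) (.e (nat_lit 7936) (nat_lit 402) (.e (nat_lit 1656) (nat_lit 115) (.e (nat_lit 393301) (nat_lit 27) (.e (nat_lit 491568) (nat_lit 13) (.e (nat_lit 393235) (nat_lit 17) .nil))))) .nil))) (.nd (nat_lit 6) 
(.lf (nat_lit 127423) (.g (nat_lit 1564) (.e (nat_lit 7936) (nat_lit 402) (.e (nat_lit 1656) (nat_lit 115) (.e (nat_lit 393234) (nat_lit 17) (.e (nat_lit 7486) (nat_lit 402) .nil)))) .nil)) 
(.lf (nat_lit 127487) (.g (nat_lit 924) (.e (nat_lit 7575) (nat_lit 404) (.e (nat_lit 16436) (nat_lit 9) (.e (nat_lit 426432) (nat_lit 17) .nil))) .nil)))))))))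

noncomputable def tv1707 : DT := (.nd (nat_lit 0) (.nd (nat_lit 1) (.nd (nat_lit 2) (.nd (nat_lit 3) (.nd (nat_lit 4) (.nd (nat_lit 5) 
(.lf (nat_lit 127488) (.g (nat_lit 1077) (.e (nat_lit 7575) (nat_lit 404) (.e (nat_lit 16456) (nat_lit 12) (.e (nat_lit 475169) (nat_lit 22) (.e (nat_lit 507648) (nat_lit 20) .nil)))) .nil)) 
(.lf (nat_lit 127520) (.g (nat_lit 2381) (.e (nat_lit 7580) (nat_lit 405) (.e (nat_lit 57464) (nat_lit 23) (.e (nat_lit 516151) (nat_lit 9) (.e (nat_lit 426171) (nat_lit 7) (.e (nat_lit 409631) (nat_lit 12) .nil))))) .nil))) (.nd (nat_lit 5) 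
(.lf (nat_lit 127504) (.g (nat_lit 2857) (.e (nat_lit 7579) (nat_lit 405) (.e (nat_lit 57479) (nat_lit 28) (.e (nat_lit 557100) (nat_lit 13) (.e (nat_lit 172061) (nat_lit 1) .nil)))) .nil)) 
(.lf (nat_lit 127536) (.g (nat_lit 3157) (.e (nat_lit 7580) (nat_lit 405) (.e (nat_lit 57464) (nat_lit 23) (.e (nat_lit 516151) (nat_lit 9) (.e (nat_lit 426286) (nat_lit 10) (.e (nat_lit 434247) (nat_lit 28) (.e (nat_lit 573456) (nat_lit 9) (.e (nat_lit 428) (nat_lit 32) (.e (nat_lit 425987) (nat_lit 0) .nil)))))))) (.g (nat_lit 6) .nil .nil))))) (.nd (nat_lit 4) (.nd (nat_lit 5) 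
(.lf (nat_lit 127496) (.g (nat_lit 1687) (.e (nat_lit 7936) (nat_lit 404) (.e (nat_lit 16449) (nat_lit 10) (.e (nat_lit 434241) (nat_lit 27) (.e (nat_lit 565269) (nat_lit 6) (.e (nat_lit 81922) (nat_lit 0) .nil))))) .nil)) 
(.lf (nat_lit 127528) (.g (nat_lit 3953) (.e (nat_lit 7580) (nat_lit 405) (.e (nat_lit 57464) (nat_lit 23) (.e (nat_lit 516151) (nat_lit 9) (.e (nat_lit 426286) (nat_lit 10) (.e (nat_lit 434245) (nat_lit 28) (.e (nat_lit 573450) (nat_lit 9) (.e (nat_lit 433) (nat_lit 32) (.e (nat_lit 425987) (nat_lit 0) .nil)))))))) (.g (nat_lit 8) .nil .nil)))) (.nd (nat_lit 5) 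
(.lf (nat_lit 127512) (.g (nat_lit 2318) (.e (nat_lit 7580) (nat_lit 405) (.e (nat_lit 57464) (nat_lit 23) (.e (nat_lit 516151) (nat_lit 9) (.e (nat_lit 426170) (nat_lit 7) (.e (nat_lit 409631) (nat_lit 12) .nil))))) .nil)) 
(.lf (nat_lit 127544) (.g (nat_lit 1735) (.e (nat_lit 7580) (nat_lit 405) (.e (nat_lit 57464) (nat_lit 23) (.e (nat_lit 516151) (nat_lit 9) (.e (nat_lit 426286) (nat_lit 10) (.e (nat_lit 434247) (nat_lit 28) (.e (nat_lit 573457) (nat_lit 9) (.e (nat_lit 7936) (nat_lit 32) (.e (nat_lit 425990) (nat_lit 0) .nil)))))))) (.g (nat_lit 4) .nil .nil)))))) 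
(.nd (nat_lit 3) (.nd (nat_lit 4) (.nd (nat_lit 5) 
(.lf (nat_lit 127492) (.g (nat_lit 462) (.e (nat_lit 7936) (nat_lit 404) (.e (nat_lit 16435) (nat_lit 9) (.e (nat_lit 426430) (nat_lit 17) .nil))) .nil)) 
(.lf (nat_lit 127524) (.g (nat_lit 2431) (.e (nat_lit 7580) (nat_lit 405) (.e (nat_lit 57464) (nat_lit 23) (.e (nat_lit 516151) (nat_lit 9) (.e (nat_lit 426171) (nat_lit 7) (.e (nat_lit 409631) (nat_lit 12) (.e (nat_lit 32798) (nat_lit 14) (.e (nat_lit 2936) (nat_lit 184) (.e (nat_lit 425987) (nat_lit 0) .nil)))))))) (.g (nat_lit 4) .nil .nil)))) (.nd (nat_lit 5) 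
(.lf (nat_lit 127508) (.g (nat_lit 978) (.e (nat_lit 7579) (nat_lit 405) (.e (nat_lit 57480) (nat_lit 28) (.e (nat_lit 557104) (nat_lit 14) .nil))) .nil)) 
(.lf (nat_lit 127540) (.g (nat_lit 1783) (.e (nat_lit 7580) (nat_lit 405) (.e (nat_lit 57464) (nat_lit 23) (.e (nat_lit 516151) (nat_lit 9) (.e (nat_lit 426286) (nat_lit 10) (.e (nat_lit 434247) (nat_lit 28) (.e (nat_lit 573456) (nat_lit 9) (.e (nat_lit 7936) (nat_lit 32) (.e (nat_lit 425990) (nat_lit 0) .nil)))))))) (.g (nat_lit 4) .nil .nil))))) (.nd (nat_lit 4) (.nd (nat_lit 5) 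
(.lf (nat_lit 127500) (.g (nat_lit 409) (.e (nat_lit 7936) (nat_lit 404) (.e (nat_lit 16458) (nat_lit 12) (.e (nat_lit 475181) (nat_lit 27) (.e (nat_lit 540702) (nat_lit 11) .nil)))) .nil)) 
(.lf (nat_lit 127532) (.g (nat_lit 3411) (.e (nat_lit 7580) (nat_lit 405) (.e (nat_lit 57464) (nat_lit 23) (.e (nat_lit 516151) (nat_lit 9) (.e (nat_lit 426286) (nat_lit 10) (.e (nat_lit 434245) (nat_lit 28) (.e (nat_lit 573458) (nat_lit 9) (.e (nat_lit 420) (nat_lit 32) (.e (nat_lit 425987) (nat_lit 0) .nil)))))))) (.g (nat_lit 7) .nil .nil)))) (.nd (nat_lit 5) 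
(.lf (nat_lit 127516) (.g (nat_lit 2578) (.e (nat_lit 7580) (nat_lit 405) (.e (nat_lit 57464) (nat_lit 23) (.e (nat_lit 516151) (nat_lit 9) (.e (nat_lit 426170) (nat_lit 7) (.e (nat_lit 409631) (nat_lit 12) (.e (nat_lit 40704) (nat_lit 14) (.e (nat_lit 2936) (nat_lit 184) (.e (nat_lit 425984) (nat_lit 0) .nil)))))))) (.g (nat_lit 4) .nil .nil))) 
(.lf (nat_lit 127548) (.g (nat_lit 2148) (.e (nat_lit 7580) (nat_lit 405) (.e (nat_lit 57464) (nat_lit 23) (.e (nat_lit 516151) (nat_lit 9) (.e (nat_lit 426338) (nat_lit 14) (.e (nat_lit 491540) (nat_lit 3) .nil))))) .nil)))))) (.nd (nat_lit 2) (.nd (nat_lit 3) (.nd (nat_lit 4) (.nd (nat_lit 5) 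
(.lf (nat_lit 127490) (.g (nat_lit 635) (.e (nat_lit 7936) (nat_lit 404) (.e (nat_lit 16433) (nat_lit 9) (.e (nat_lit 426428) (nat_lit 17) .nil))) .nil)) 
(.lf (nat_lit 127522) (.g (nat_lit 2488) (.e (nat_lit 7580) (nat_lit 405) (.e (nat_lit 57464) (nat_lit 23) (.e (nat_lit 516151) (nat_lit 9) (.e (nat_lit 426171) (nat_lit 7) (.e (nat_lit 409631) (nat_lit 12) (.e (nat_lit 32793) (nat_lit 14) (.e (nat_lit 2936) (nat_lit 184) (.e (nat_lit 425987) (nat_lit 0) .nil)))))))) (.g (nat_lit 4) .nil .nil)))) (.nd (nat_lit 5) 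
(.lf (nat_lit 127506) (.g (nat_lit 2104) (.e (nat_lit 7579) (nat_lit 405) (.e (nat_lit 57479) (nat_lit 28) (.e (nat_lit 557105) (nat_lit 14) (.e (nat_lit 180227) (nat_lit 0) .nil)))) .nil)) 
(.lf (nat_lit 127538) (.g (nat_lit 3110) (.e (nat_lit 7580) (nat_lit 405) (.e (nat_lit 57464) (nat_lit 23) (.e (nat_lit 516151) (nat_lit 9) (.e (nat_lit 426286) (nat_lit 10) (.e (nat_lit 434247) (nat_lit 28) (.e (nat_lit 573456) (nat_lit 9) (.e (nat_lit 428) (nat_lit 32) (.e (nat_lit 425990) (nat_lit 0) .nil)))))))) (.g (nat_lit 6) .nil .nil))))) (.nd (nat_lit 4) (.nd (nat_lit 5) 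
(.lf (nat_lit 127498) (.g (nat_lit 420) (.e (nat_lit 7936) (nat_lit 404) (.e (nat_lit 16458) (nat_lit 12) (.e (nat_lit 475181) (nat_lit 27) (.e (nat_lit 540701) (nat_lit 11) .nil)))) .nil)) 
(.lf (nat_lit 127530) (.g (nat_lit 3691) (.e (nat_lit 7580) (nat_lit 405) (.e (nat_lit 57464) (nat_lit 23) (.e (nat_lit 516151) (nat_lit 9) (.e (nat_lit 426286) (nat_lit 10) (.e (nat_lit 434245) (nat_lit 28) (.e (nat_lit 573451) (nat_lit 9) (.e (nat_lit 428) (nat_lit 32) (.e (nat_lit 425990) (nat_lit 0) .nil)))))))) (.g (nat_lit 8) .nil .nil)))) (.nd (nat_lit 5) 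
(.lf (nat_lit 127514) (.g (nat_lit 3012) (.e (nat_lit 7580) (nat_lit 405) (.e (nat_lit 57464) (nat_lit 23) (.e (nat_lit 516151) (nat_lit 9) (.e (nat_lit 426170) (nat_lit 7) (.e (nat_lit 409631) (nat_lit 12) (.e (nat_lit 32793) (nat_lit 14) (.e (nat_lit 2936) (nat_lit 184) (.e (nat_lit 425987) (nat_lit 0) .nil)))))))) (.g (nat_lit 5) .nil .nil))) 
(.lf (nat_lit 127546) (.g (nat_lit 3536) (.e (nat_lit 7580) (nat_lit 405) (.e (nat_lit 57464) (nat_lit 23) (.e (nat_lit 516151) (nat_lit 9) (.e (nat_lit 426286) (nat_lit 10) (.e (nat_lit 434248) (nat_lit 28) (.e (nat_lit 573452) (nat_lit 9) (.e (nat_lit 428) (nat_lit 32) (.e (nat_lit 425987) (nat_lit 0) .nil)))))))) (.g (nat_lit 8) .nil .nil)))))) 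
(.nd (nat_lit 3) (.nd (nat_lit 4) (.nd (nat_lit 5) 
(.lf (nat_lit 127494) (.g (nat_lit 1001) (.e (nat_lit 7936) (nat_lit 404) (.e (nat_lit 16438) (nat_lit 9) (.e (nat_lit 426432) (nat_lit 17) (.e (nat_lit 98048) (nat_lit 6) .nil)))) .nil)) 
(.lf (nat_lit 127526) (.g (nat_lit 1886) (.e (nat_lit 7580) (nat_lit 405) (.e (nat_lit 57464) (nat_lit 23) (.e (nat_lit 516151) (nat_lit 9) (.e (nat_lit 426286) (nat_lit 10) (.e (nat_lit 434238) (nat_lit 25) (.e (nat_lit 556800) (nat_lit 14) (.e (nat_lit 2939) (nat_lit 184) (.e (nat_lit 425987) (nat_lit 0) .nil)))))))) (.g (nat_lit 4) .nil .nil)))) (.nd (nat_lit 5) 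
(.lf (nat_lit 127510) (.g (nat_lit 2616) (.e (nat_lit 7580) (nat_lit 405) (.e (nat_lit 57464) (nat_lit 23) (.e (nat_lit 516097) (nat_lit 0) (.e (nat_lit 7065) (nat_lit 377) (.e (nat_lit 1349) (nat_lit 102) (.e (nat_lit 286735) (nat_lit 3) (.e (nat_lit 98363) (nat_lit 26) (.e (nat_lit 425984) (nat_lit 0) .nil)))))))) (.g (nat_lit 5) .nil .nil))) 
(.lf (nat_lit 127542) (.g (nat_lit 2976) (.e (nat_lit 7580) (nat_lit 405) (.e (nat_lit 57464) (nat_lit 23) (.e (nat_lit 516151) (nat_lit 9) (.e (nat_lit 426286) (nat_lit 10) (.e (nat_lit 434247) (nat_lit 28) (.e (nat_lit 573457) (nat_lit 9) (.e (nat_lit 428) (nat_lit 32) (.e (nat_lit 425990) (nat_lit 0) .nil)))))))) (.g (nat_lit 8) .nil .nil))))) (.nd (nat_lit 4) (.nd (nat_lit 5) 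
(.lf (nat_lit 127502) (.g (nat_lit 855) (.e (nat_lit 7578) (nat_lit 405) (.e (nat_lit 57479) (nat_lit 28) (.e (nat_lit 557105) (nat_lit 14) .nil))) .nil)) 
(.lf (nat_lit 127534) (.g (nat_lit 2473) (.e (nat_lit 7580) (nat_lit 405) (.e (nat_lit 57464) (nat_lit 23) (.e (nat_lit 516151) (nat_lit 9) (.e (nat_lit 426286) (nat_lit 10) (.e (nat_lit 434245) (nat_lit 28) (.e (nat_lit 573458) (nat_lit 9) (.e (nat_lit 7936) (nat_lit 32) (.e (nat_lit 425990) (nat_lit 0) .nil)))))))) (.g (nat_lit 5) .nil .nil)))) (.nd (nat_lit 5) 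
(.lf (nat_lit 127518) (.g (nat_lit 2973) (.e (nat_lit 7580) (nat_lit 405) (.e (nat_lit 57464) (nat_lit 23) (.e (nat_lit 516151) (nat_lit 9) (.e (nat_lit 426170) (nat_lit 7) (.e (nat_lit 409631) (nat_lit 12) (.e (nat_lit 40704) (nat_lit 14) (.e (nat_lit 2939) (nat_lit 184) (.e (nat_lit 425987) (nat_lit 0) .nil)))))))) (.g (nat_lit 5) .nil .nil))) 
(.lf (nat_lit 127550) (.g (nat_lit 3718) (.e (nat_lit 7580) (nat_lit 405) (.e (nat_lit 57464) (nat_lit 23) (.e (nat_lit 516151) (nat_lit 9) (.e (nat_lit 426338) (nat_lit 14) (.e (nat_lit 491540) (nat_lit 3) (.e (nat_lit 98363) (nat_lit 26) (.e (nat_lit 425984) (nat_lit 0) .nil))))))) (.g (nat_lit 0) .nil .nil)))))))) 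
(.nd (nat_lit 1) (.nd (nat_lit 2) (.nd (nat_lit 3) (.nd (nat_lit 4) (.nd (nat_lit 5) 
(.lf (nat_lit 127489) (.g (nat_lit 884) (.e (nat_lit 7577) (nat_lit 404) (.e (nat_lit 16433) (nat_lit 9) (.e (nat_lit 426428) (nat_lit 17) .nil))) .nil)) 
(.lf (nat_lit 127521) (.g (nat_lit 2511) (.e (nat_lit 7580) (nat_lit 405) (.e (nat_lit 57464) (nat_lit 23) (.e (nat_lit 516151) (nat_lit 9) (.e (nat_lit 426171) (nat_lit 7) (.e (nat_lit 409631) (nat_lit 12) (.e (nat_lit 32793) (nat_lit 14) (.e (nat_lit 2936) (nat_lit 184) (.e (nat_lit 425984) (nat_lit 0) .nil)))))))) (.g (nat_lit 4) .nil .nil)))) (.nd (nat_lit 5) 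
(.lf (nat_lit 127505) (.g (nat_lit 855) (.e (nat_lit 7579) (nat_lit 405) (.e (nat_lit 57479) (nat_lit 28) (.e (nat_lit 557105) (nat_lit 14) .nil))) .nil)) 
(.lf (nat_lit 127537) (.g (nat_lit 3171) (.e (nat_lit 7580) (nat_lit 405) (.e (nat_lit 57464) (nat_lit 23) (.e (nat_lit 516151) (nat_lit 9) (.e (nat_lit 426286) (nat_lit 10) (.e (nat_lit 434247) (nat_lit 28) (.e (nat_lit 573456) (nat_lit 9) (.e (nat_lit 428) (nat_lit 32) (.e (nat_lit 425989) (nat_lit 0) .nil)))))))) (.g (nat_lit 6) .nil .nil))))) (.nd (nat_lit 4) (.nd (nat_lit 5) 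
(.lf (nat_lit 127497) (.g (nat_lit 1165) (.e (nat_lit 7936) (nat_lit 404) (.e (nat_lit 16456) (nat_lit 12) (.e (nat_lit 475169) (nat_lit 22) (.e (nat_lit 507648) (nat_lit 20) .nil)))) .nil)) 
(.lf (nat_lit 127529) (.g (nat_lit 3751) (.e (nat_lit 7580) (nat_lit 405) (.e (nat_lit 57464) (nat_lit 23) (.e (nat_lit 516151) (nat_lit 9) (.e (nat_lit 426286) (nat_lit 10) (.e (nat_lit 434245) (nat_lit 28) (.e (nat_lit 573451) (nat_lit 9) (.e (nat_lit 428) (nat_lit 32) (.e (nat_lit 425987) (nat_lit 0) .nil)))))))) (.g (nat_lit 8) .nil .nil)))) (.nd (nat_lit 5) 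
(.lf (nat_lit 127513) (.g (nat_lit 3035) (.e (nat_lit 7580) (nat_lit 405) (.e (nat_lit 57464) (nat_lit 23) (.e (nat_lit 516151) (nat_lit 9) (.e (nat_lit 426170) (nat_lit 7) (.e (nat_lit 409631) (nat_lit 12) (.e (nat_lit 32793) (nat_lit 14) (.e (nat_lit 2936) (nat_lit 184) (.e (nat_lit 425984) (nat_lit 0) .nil)))))))) (.g (nat_lit 5) .nil .nil))) 
(.lf (nat_lit 127545) (.g (nat_lit 3784) (.e (nat_lit 7580) (nat_lit 405) (.e (nat_lit 57464) (nat_lit 23) (.e (nat_lit 516151) (nat_lit 9) (.e (nat_lit 426286) (nat_lit 10) (.e (nat_lit 434248) (nat_lit 28) (.e (nat_lit 573450) (nat_lit 9) (.e (nat_lit 433) (nat_lit 32) (.e (nat_lit 425984) (nat_lit 0) .nil)))))))) (.g (nat_lit 7) .nil .nil)))))) 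
(.nd (nat_lit 3) (.nd (nat_lit 4) (.nd (nat_lit 5) 
(.lf (nat_lit 127493) (.g (nat_lit 995) (.e (nat_lit 7936) (nat_lit 404) (.e (nat_lit 16435) (nat_lit 9) (.e (nat_lit 426432) (nat_lit 17) (.e (nat_lit 98048) (nat_lit 6) .nil)))) .nil)) 
(.lf (nat_lit 127525) (.g (nat_lit 3287) (.e (nat_lit 7580) (nat_lit 405) (.e (nat_lit 57464) (nat_lit 23) (.e (nat_lit 516151) (nat_lit 9) (.e (nat_lit 426285) (nat_lit 10) (.e (nat_lit 434238) (nat_lit 25) .nil))))) .nil))) (.nd (nat_lit 5) 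
(.lf (nat_lit 127509) (.g (nat_lit 1802) (.e (nat_lit 7579) (nat_lit 405) (.e (nat_lit 57480) (nat_lit 28) (.e (nat_lit 557105) (nat_lit 14) (.e (nat_lit 180227) (nat_lit 0) .nil)))) .nil)) 
(.lf (nat_lit 127541) (.g (nat_lit 3032) (.e (nat_lit 7580) (nat_lit 405) (.e (nat_lit 57464) (nat_lit 23) (.e (nat_lit 516151) (nat_lit 9) (.e (nat_lit 426286) (nat_lit 10) (.e (nat_lit 434247) (nat_lit 28) (.e (nat_lit 573457) (nat_lit 9) (.e (nat_lit 428) (nat_lit 32) (.e (nat_lit 425987) (nat_lit 0) .nil)))))))) (.g (nat_lit 8) .nil .nil))))) (.nd (nat_lit 4) (.nd (nat_lit 5) 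
(.lf (nat_lit 127501) (.g (nat_lit 1277) (.e (nat_lit 7936) (nat_lit 404) (.e (nat_lit 16487) (nat_lit 27) (.e (nat_lit 336203) (nat_lit 12) (.e (nat_lit 392960) (nat_lit 24) .nil)))) .nil)) 
(.lf (nat_lit 127533) (.g (nat_lit 2468) (.e (nat_lit 7580) (nat_lit 405) (.e (nat_lit 57464) (nat_lit 23) (.e (nat_lit 516151) (nat_lit 9) (.e (nat_lit 426286) (nat_lit 10) (.e (nat_lit 434245) (nat_lit 28) (.e (nat_lit 573458) (nat_lit 9) (.e (nat_lit 7936) (nat_lit 32) (.e (nat_lit 425989) (nat_lit 0) .nil)))))))) (.g (nat_lit 5) .nil .nil)))) (.nd (nat_lit 5) 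
(.lf (nat_lit 127517) (.g (nat_lit 2558) (.e (nat_lit 7580) (nat_lit 405) (.e (nat_lit 57464) (nat_lit 23) (.e (nat_lit 516151) (nat_lit 9) (.e (nat_lit 426170) (nat_lit 7) (.e (nat_lit 409631) (nat_lit 12) (.e (nat_lit 40704) (nat_lit 14) (.e (nat_lit 2936) (nat_lit 184) (.e (nat_lit 425987) (nat_lit 0) .nil)))))))) (.g (nat_lit 4) .nil .nil))) 
(.lf (nat_lit 127549) (.g (nat_lit 2657) (.e (nat_lit 7580) (nat_lit 405) (.e (nat_lit 57464) (nat_lit 23) (.e (nat_lit 516151) (nat_lit 9) (.e (nat_lit 426338) (nat_lit 14) (.e (nat_lit 491540) (nat_lit 3) (.e (nat_lit 98358) (nat_lit 26) (.e (nat_lit 425988) (nat_lit 0) .nil))))))) (.g (nat_lit 5) .nil .nil))))))) (.nd (nat_lit 2) (.nd (nat_lit 3) (.nd (nat_lit 4) (.nd (nat_lit 5) 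
(.lf (nat_lit 127491) (.g (nat_lit 939) (.e (nat_lit 7936) (nat_lit 404) (.e (nat_lit 16435) (nat_lit 9) (.e (nat_lit 426428) (nat_lit 17) (.e (nat_lit 98048) (nat_lit 6) .nil)))) .nil)) 
(.lf (nat_lit 127523) (.g (nat_lit 2454) (.e (nat_lit 7580) (nat_lit 405) (.e (nat_lit 57464) (nat_lit 23) (.e (nat_lit 516151) (nat_lit 9) (.e (nat_lit 426171) (nat_lit 7) (.e (nat_lit 409631) (nat_lit 12) (.e (nat_lit 32798) (nat_lit 14) (.e (nat_lit 2936) (nat_lit 184) (.e (nat_lit 425984) (nat_lit 0) .nil)))))))) (.g (nat_lit 4) .nil .nil)))) (.nd (nat_lit 5) 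
(.lf (nat_lit 127507) (.g (nat_lit 1963) (.e (nat_lit 7579) (nat_lit 405) (.e (nat_lit 57479) (nat_lit 28) (.e (nat_lit 557105) (nat_lit 14) (.e (nat_lit 180265) (nat_lit 21) .nil)))) .nil)) 
(.lf (nat_lit 127539) (.g (nat_lit 1887) (.e (nat_lit 7580) (nat_lit 405) (.e (nat_lit 57464) (nat_lit 23) (.e (nat_lit 516151) (nat_lit 9) (.e (nat_lit 426286) (nat_lit 10) (.e (nat_lit 434247) (nat_lit 28) (.e (nat_lit 573456) (nat_lit 9) (.e (nat_lit 7936) (nat_lit 32) (.e (nat_lit 425987) (nat_lit 0) .nil)))))))) (.g (nat_lit 4) .nil .nil))))) (.nd (nat_lit 4) (.nd (nat_lit 5) 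
(.lf (nat_lit 127499) (.g (nat_lit 527) (.e (nat_lit 7936) (nat_lit 404) (.e (nat_lit 16458) (nat_lit 12) (.e (nat_lit 475181) (nat_lit 27) (.e (nat_lit 540701) (nat_lit 11) (.e (nat_lit 352261) (nat_lit 0) .nil))))) .nil)) 
(.lf (nat_lit 127531) (.g (nat_lit 2419) (.e (nat_lit 7580) (nat_lit 405) (.e (nat_lit 57464) (nat_lit 23) (.e (nat_lit 516151) (nat_lit 9) (.e (nat_lit 426286) (nat_lit 10) (.e (nat_lit 434245) (nat_lit 28) (.e (nat_lit 573451) (nat_lit 9) (.e (nat_lit 7936) (nat_lit 32) (.e (nat_lit 425987) (nat_lit 0) .nil)))))))) (.g (nat_lit 5) .nil .nil)))) (.nd (nat_lit 5) 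
(.lf (nat_lit 127515) (.g (nat_lit 2526) (.e (nat_lit 7580) (nat_lit 405) (.e (nat_lit 57464) (nat_lit 23) (.e (nat_lit 516151) (nat_lit 9) (.e (nat_lit 426170) (nat_lit 7) (.e (nat_lit 409631) (nat_lit 12) (.e (nat_lit 32793) (nat_lit 14) (.e (nat_lit 2937) (nat_lit 184) (.e (nat_lit 425984) (nat_lit 0) .nil)))))))) (.g (nat_lit 4) .nil .nil))) 
(.lf (nat_lit 127547) (.g (nat_lit 3486) (.e (nat_lit 7580) (nat_lit 405) (.e (nat_lit 57464) (nat_lit 23) (.e (nat_lit 516151) (nat_lit 9) (.e (nat_lit 426286) (nat_lit 10) (.e (nat_lit 434248) (nat_lit 28) (.e (nat_lit 573452) (nat_lit 9) (.e (nat_lit 428) (nat_lit 32) (.e (nat_lit 425990) (nat_lit 0) .nil)))))))) (.g (nat_lit 8) .nil .nil)))))) 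
(.nd (nat_lit 3) (.nd (nat_lit 4) (.nd (nat_lit 5) 
(.lf (nat_lit 127495) (.g (nat_lit 1803) (.e (nat_lit 7936) (nat_lit 404) (.e (nat_lit 16448) (nat_lit 10) (.e (nat_lit 434244) (nat_lit 28) (.e (nat_lit 573503) (nat_lit 18) (.e (nat_lit 1349) (nat_lit 102) .nil))))) .nil)) 
(.lf (nat_lit 127527) (.g (nat_lit 1854) (.e (nat_lit 7580) (nat_lit 405) (.e (nat_lit 57464) (nat_lit 23) (.e (nat_lit 516151) (nat_lit 9) (.e (nat_lit 426286) (nat_lit 10) (.e (nat_lit 434242) (nat_lit 28) (.e (nat_lit 573450) (nat_lit 9) (.e (nat_lit 433) (nat_lit 32) (.e (nat_lit 425984) (nat_lit 0) .nil)))))))) (.g (nat_lit 4) .nil .nil)))) (.nd (nat_lit 5) 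
(.lf (nat_lit 127511) (.g (nat_lit 3926) (.e (nat_lit 7580) (nat_lit 405) (.e (nat_lit 57464) (nat_lit 23) (.e (nat_lit 516098) (nat_lit 0) (.e (nat_lit 7065) (nat_lit 377) (.e (nat_lit 1349) (nat_lit 102) (.e (nat_lit 286735) (nat_lit 3) (.e (nat_lit 98363) (nat_lit 26) (.e (nat_lit 425984) (nat_lit 0) .nil)))))))) (.g (nat_lit 8) .nil .nil))) 
(.lf (nat_lit 127543) (.g (nat_lit 1907) (.e (nat_lit 7580) (nat_lit 405) (.e (nat_lit 57464) (nat_lit 23) (.e (nat_lit 516151) (nat_lit 9) (.e (nat_lit 426286) (nat_lit 10) (.e (nat_lit 434247) (nat_lit 28) (.e (nat_lit 573457) (nat_lit 9) (.e (nat_lit 7936) (nat_lit 32) (.e (nat_lit 425984) (nat_lit 0) .nil)))))))) (.g (nat_lit 4) .nil .nil))))) (.nd (nat_lit 4) (.nd (nat_lit 5) 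
(.lf (nat_lit 127503) (.g (nat_lit 3037) (.e (nat_lit 7579) (nat_lit 405) (.e (nat_lit 57479) (nat_lit 28) (.e (nat_lit 557100) (nat_lit 13) (.e (nat_lit 172059) (nat_lit 1) .nil)))) .nil)) 
(.lf (nat_lit 127535) (.g (nat_lit 3285) (.e (nat_lit 7580) (nat_lit 405) (.e (nat_lit 57464) (nat_lit 23) (.e (nat_lit 516151) (nat_lit 9) (.e (nat_lit 426286) (nat_lit 10) (.e (nat_lit 434247) (nat_lit 28) (.e (nat_lit 573456) (nat_lit 9) (.e (nat_lit 428) (nat_lit 32) (.e (nat_lit 425984) (nat_lit 0) .nil)))))))) (.g (nat_lit 6) .nil .nil)))) (.nd (nat_lit 5) 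
(.lf (nat_lit 127519) (.g (nat_lit 1633) (.e (nat_lit 7580) (nat_lit 405) (.e (nat_lit 57464) (nat_lit 23) (.e (nat_lit 516151) (nat_lit 9) (.e (nat_lit 426171) (nat_lit 7) .nil)))) .nil)) 
(.lf (nat_lit 127551) (.g (nat_lit 3604) (.e (nat_lit 7580) (nat_lit 405) (.e (nat_lit 57464) (nat_lit 23) (.e (nat_lit 516151) (nat_lit 9) (.e (nat_lit 426338) (nat_lit 14) (.e (nat_lit 491540) (nat_lit 3) (.e (nat_lit 98363) (nat_lit 26) (.e (nat_lit 425987) (nat_lit 0) .nil))))))) (.g (nat_lit 7) .nil .nil)))))))))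

noncomputable def tv1708 : DT := (.nd (nat_lit 0) (.nd (nat_lit 1) (.nd (nat_lit 2) (.nd (nat_lit 3) (.nd (nat_lit 4) (.nd (nat_lit 5) 
(.lf (nat_lit 127552) (.g (nat_lit 2719) (.e (nat_lit 7580) (nat_lit 405) (.e (nat_lit 57464) (nat_lit 23) (.e (nat_lit 516165) (nat_lit 12) (.e (nat_lit 450586) (nat_lit 10) (.e (nat_lit 573450) (nat_lit 9) (.e (nat_lit 433) (nat_lit 32) (.e (nat_lit 425987) (nat_lit 0) .nil))))))) (.g (nat_lit 7) .nil .nil))) 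
(.lf (nat_lit 127584) (.g (nat_lit 2142) (.e (nat_lit 7581) (nat_lit 405) (.e (nat_lit 57476) (nat_lit 28) (.e (nat_lit 557104) (nat_lit 14) (.e (nat_lit 180229) (nat_lit 0) (.e (nat_lit 5953) (nat_lit 322) .nil))))) .nil))) (.nd (nat_lit 5) 
(.lf (nat_lit 127568) (.g (nat_lit 2453) (.e (nat_lit 7580) (nat_lit 405) (.e (nat_lit 57464) (nat_lit 23) (.e (nat_lit 516166) (nat_lit 12) (.e (nat_lit 450587) (nat_lit 10) (.e (nat_lit 573456) (nat_lit 9) (.e (nat_lit 428) (nat_lit 32) (.e (nat_lit 425984) (nat_lit 0) .nil))))))) (.g (nat_lit 5) .nil .nil))) 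
(.lf (nat_lit 127600) (.g (nat_lit 1077) (.e (nat_lit 7581) (nat_lit 405) (.e (nat_lit 57477) (nat_lit 28) (.e (nat_lit 557104) (nat_lit 14) (.e (nat_lit 180265) (nat_lit 21) (.e (nat_lit 663561) (nat_lit 0) .nil))))) .nil)))) (.nd (nat_lit 4) (.nd (nat_lit 5) 
(.lf (nat_lit 127560) (.g (nat_lit 2138) (.e (nat_lit 7580) (nat_lit 405) (.e (nat_lit 57464) (nat_lit 23) (.e (nat_lit 516165) (nat_lit 12) (.e (nat_lit 450586) (nat_lit 10) (.e (nat_lit 573457) (nat_lit 9) (.e (nat_lit 428) (nat_lit 32) (.e (nat_lit 425990) (nat_lit 0) .nil))))))) (.g (nat_lit 7) .nil .nil))) 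
(.lf (nat_lit 127592) (.g (nat_lit 3056) (.e (nat_lit 7581) (nat_lit 405) (.e (nat_lit 57477) (nat_lit 28) (.e (nat_lit 557103) (nat_lit 14) (.e (nat_lit 180244) (nat_lit 5) (.e (nat_lit 532579) (nat_lit 26) (.e (nat_lit 426133) (nat_lit 3) (.e (nat_lit 212736) (nat_lit 0) .nil))))))) (.g (nat_lit 6) .nil .nil)))) (.nd (nat_lit 5) 
(.lf (nat_lit 127576) (.g (nat_lit 3061) (.e (nat_lit 7581) (nat_lit 405) (.e (nat_lit 57464) (nat_lit 23) (.e (nat_lit 516151) (nat_lit 9) (.e (nat_lit 426275) (nat_lit 10) (.e (nat_lit 434248) (nat_lit 28) (.e (nat_lit 573471) (nat_lit 11) (.e (nat_lit 16388) (nat_lit 0) .nil))))))) (.g (nat_lit 4) .nil .nil))) 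
(.lf (nat_lit 127608) (.g (nat_lit 2222) (.e (nat_lit 7581) (nat_lit 405) (.e (nat_lit 57479) (nat_lit 28) (.e (nat_lit 557100) (nat_lit 13) (.e (nat_lit 172068) (nat_lit 4) .nil)))) .nil))))) (.nd (nat_lit 3) (.nd (nat_lit 4) (.nd (nat_lit 5) 
(.lf (nat_lit 127556) (.g (nat_lit 2209) (.e (nat_lit 7580) (nat_lit 405) (.e (nat_lit 57464) (nat_lit 23) (.e (nat_lit 516165) (nat_lit 12) (.e (nat_lit 450586) (nat_lit 10) (.e (nat_lit 573456) (nat_lit 9) (.e (nat_lit 428) (nat_lit 32) (.e (nat_lit 425987) (nat_lit 0) .nil))))))) (.g (nat_lit 5) .nil .nil))) 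
(.lf (nat_lit 127588) (.g (nat_lit 2368) (.e (nat_lit 7581) (nat_lit 405) (.e (nat_lit 57477) (nat_lit 28) (.e (nat_lit 557090) (nat_lit 12) (.e (nat_lit 164238) (nat_lit 187) (.e (nat_lit 1638) (nat_lit 114) (.e (nat_lit 392960) (nat_lit 2) (.e (nat_lit 16388) (nat_lit 0) .nil))))))) (.g (nat_lit 4) .nil .nil)))) (.nd (nat_lit 5) 
(.lf (nat_lit 127572) (.g (nat_lit 2283) (.e (nat_lit 7580) (nat_lit 405) (.e (nat_lit 57464) (nat_lit 23) (.e (nat_lit 516166) (nat_lit 12) (.e (nat_lit 450587) (nat_lit 10) (.e (nat_lit 573457) (nat_lit 9) (.e (nat_lit 428) (nat_lit 32) (.e (nat_lit 425990) (nat_lit 0) .nil))))))) (.g (nat_lit 7) .nil .nil))) 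
(.lf (nat_lit 127604) (.g (nat_lit 2212) (.e (nat_lit 7581) (nat_lit 405) (.e (nat_lit 57479) (nat_lit 28) (.e (nat_lit 557100) (nat_lit 13) (.e (nat_lit 172060) (nat_lit 1) .nil)))) .nil)))) (.nd (nat_lit 4) (.nd (nat_lit 5) 
(.lf (nat_lit 127564) (.g (nat_lit 2865) (.e (nat_lit 7580) (nat_lit 405) (.e (nat_lit 57464) (nat_lit 23) (.e (nat_lit 516166) (nat_lit 12) (.e (nat_lit 450562) (nat_lit 0) (.e (nat_lit 4284) (nat_lit 253) (.e (nat_lit 57590) (nat_lit 73) (.e (nat_lit 425987) (nat_lit 0) .nil))))))) (.g (nat_lit 5) .nil .nil))) 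
(.lf (nat_lit 127596) (.g (nat_lit 1852) (.e (nat_lit 7581) (nat_lit 405) (.e (nat_lit 57477) (nat_lit 28) (.e (nat_lit 557104) (nat_lit 14) (.e (nat_lit 180229) (nat_lit 0) (.e (nat_lit 5951) (nat_lit 322) .nil))))) .nil))) (.nd (nat_lit 5) 
(.lf (nat_lit 127580) (.g (nat_lit 1859) (.e (nat_lit 7581) (nat_lit 405) (.e (nat_lit 57476) (nat_lit 28) (.e (nat_lit 557103) (nat_lit 14) (.e (nat_lit 180229) (nat_lit 0) (.e (nat_lit 5951) (nat_lit 322) .nil))))) .nil)) 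
(.lf (nat_lit 127612) (.g (nat_lit 3348) (.e (nat_lit 7581) (nat_lit 405) (.e (nat_lit 57479) (nat_lit 28) (.e (nat_lit 557103) (nat_lit 14) (.e (nat_lit 180225) (nat_lit 0) (.e (nat_lit 5954) (nat_lit 322) .nil))))) .nil)))))) (.nd (nat_lit 2) (.nd (nat_lit 3) (.nd (nat_lit 4) (.nd (nat_lit 5) 
(.lf (nat_lit 127554) (.g (nat_lit 2230) (.e (nat_lit 7580) (nat_lit 405) (.e (nat_lit 57464) (nat_lit 23) (.e (nat_lit 516165) (nat_lit 12) (.e (nat_lit 450586) (nat_lit 10) (.e (nat_lit 573452) (nat_lit 9) (.e (nat_lit 428) (nat_lit 32) (.e (nat_lit 425990) (nat_lit 0) .nil))))))) (.g (nat_lit 7) .nil .nil))) 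
(.lf (nat_lit 127586) (.g (nat_lit 1048) (.e (nat_lit 7581) (nat_lit 405) (.e (nat_lit 57476) (nat_lit 28) (.e (nat_lit 557104) (nat_lit 14) (.e (nat_lit 180265) (nat_lit 21) .nil)))) .nil))) (.nd (nat_lit 5) 
(.lf (nat_lit 127570) (.g (nat_lit 2346) (.e (nat_lit 7580) (nat_lit 405) (.e (nat_lit 57464) (nat_lit 23) (.e (nat_lit 516166) (nat_lit 12) (.e (nat_lit 450587) (nat_lit 10) (.e (nat_lit 573456) (nat_lit 9) (.e (nat_lit 428) (nat_lit 32) (.e (nat_lit 425989) (nat_lit 0) .nil))))))) (.g (nat_lit 5) .nil .nil))) 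
(.lf (nat_lit 127602) (.g (nat_lit 1525) (.e (nat_lit 7581) (nat_lit 405) (.e (nat_lit 57479) (nat_lit 28) (.e (nat_lit 557093) (nat_lit 12) (.e (nat_lit 164238) (nat_lit 187) .nil)))) .nil)))) (.nd (nat_lit 4) (.nd (nat_lit 5) 
(.lf (nat_lit 127562) (.g (nat_lit 2304) (.e (nat_lit 7580) (nat_lit 405) (.e (nat_lit 57464) (nat_lit 23) (.e (nat_lit 516166) (nat_lit 12) (.e (nat_lit 450562) (nat_lit 0) (.e (nat_lit 4284) (nat_lit 253) (.e (nat_lit 57589) (nat_lit 73) (.e (nat_lit 425987) (nat_lit 0) .nil))))))) (.g (nat_lit 4) .nil .nil))) 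
(.lf (nat_lit 127594) (.g (nat_lit 1152) (.e (nat_lit 7581) (nat_lit 405) (.e (nat_lit 57477) (nat_lit 28) (.e (nat_lit 557103) (nat_lit 14) (.e (nat_lit 180263) (nat_lit 21) .nil)))) .nil))) (.nd (nat_lit 5) 
(.lf (nat_lit 127578) (.g (nat_lit 2678) (.e (nat_lit 7581) (nat_lit 405) (.e (nat_lit 57464) (nat_lit 23) (.e (nat_lit 516151) (nat_lit 9) (.e (nat_lit 426338) (nat_lit 14) (.e (nat_lit 491540) (nat_lit 3) .nil))))) .nil)) 
(.lf (nat_lit 127610) (.g (nat_lit 2523) (.e (nat_lit 7581) (nat_lit 405) (.e (nat_lit 57479) (nat_lit 28) (.e (nat_lit 557103) (nat_lit 14) (.e (nat_lit 180224) (nat_lit 0) .nil)))) .nil))))) (.nd (nat_lit 3) (.nd (nat_lit 4) (.nd (nat_lit 5) 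
(.lf (nat_lit 127558) (.g (nat_lit 2155) (.e (nat_lit 7580) (nat_lit 405) (.e (nat_lit 57464) (nat_lit 23) (.e (nat_lit 516165) (nat_lit 12) (.e (nat_lit 450586) (nat_lit 10) (.e (nat_lit 573456) (nat_lit 9) (.e (nat_lit 428) (nat_lit 32) (.e (nat_lit 425990) (nat_lit 0) .nil))))))) (.g (nat_lit 5) .nil .nil))) 
(.lf (nat_lit 127590) (.g (nat_lit 1839) (.e (nat_lit 7581) (nat_lit 405) (.e (nat_lit 57477) (nat_lit 28) (.e (nat_lit 557103) (nat_lit 14) (.e (nat_lit 180225) (nat_lit 0) (.e (nat_lit 7936) (nat_lit 322) .nil))))) .nil))) (.nd (nat_lit 5) 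
(.lf (nat_lit 127574) (.g (nat_lit 2978) (.e (nat_lit 7580) (nat_lit 405) (.e (nat_lit 57464) (nat_lit 23) (.e (nat_lit 516166) (nat_lit 12) (.e (nat_lit 450588) (nat_lit 10) (.e (nat_lit 573452) (nat_lit 9) (.e (nat_lit 428) (nat_lit 32) (.e (nat_lit 425987) (nat_lit 0) .nil))))))) (.g (nat_lit 7) .nil .nil))) 
(.lf (nat_lit 127606) (.g (nat_lit 3141) (.e (nat_lit 7581) (nat_lit 405) (.e (nat_lit 57479) (nat_lit 28) (.e (nat_lit 557100) (nat_lit 13) (.e (nat_lit 172061) (nat_lit 1) (.e (nat_lit 164403) (nat_lit 256) (.e (nat_lit 57447) (nat_lit 19) (.e (nat_lit 393232) (nat_lit 17) .nil))))))) (.g (nat_lit 4) .nil .nil))))) (.nd (nat_lit 4) (.nd (nat_lit 5) 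
(.lf (nat_lit 127566) (.g (nat_lit 1954) (.e (nat_lit 7580) (nat_lit 405) (.e (nat_lit 57464) (nat_lit 23) (.e (nat_lit 516166) (nat_lit 12) (.e (nat_lit 450563) (nat_lit 0) (.e (nat_lit 3926) (nat_lit 239) .nil))))) .nil)) 
(.lf (nat_lit 127598) (.g (nat_lit 2107) (.e (nat_lit 7581) (nat_lit 405) (.e (nat_lit 57477) (nat_lit 28) (.e (nat_lit 557104) (nat_lit 14) (.e (nat_lit 180244) (nat_lit 5) (.e (nat_lit 532579) (nat_lit 26) (.e (nat_lit 426133) (nat_lit 3) (.e (nat_lit 212736) (nat_lit 0) .nil))))))) (.g (nat_lit 4) .nil .nil)))) (.nd (nat_lit 5) 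
(.lf (nat_lit 127582) (.g (nat_lit 2382) (.e (nat_lit 7581) (nat_lit 405) (.e (nat_lit 57476) (nat_lit 28) (.e (nat_lit 557103) (nat_lit 14) (.e (nat_lit 180244) (nat_lit 5) (.e (nat_lit 532579) (nat_lit 26) (.e (nat_lit 426133) (nat_lit 3) (.e (nat_lit 212736) (nat_lit 0) .nil))))))) (.g (nat_lit 4) .nil .nil))) 
(.lf (nat_lit 127614) (.g (nat_lit 2387) (.e (nat_lit 7581) (nat_lit 405) (.e (nat_lit 57479) (nat_lit 28) (.e (nat_lit 557103) (nat_lit 14) (.e (nat_lit 188160) (nat_lit 0) .nil)))) .nil))))))) (.nd (nat_lit 1) (.nd (nat_lit 2) (.nd (nat_lit 3) (.nd (nat_lit 4) (.nd (nat_lit 5) 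
(.lf (nat_lit 127553) (.g (nat_lit 2277) (.e (nat_lit 7580) (nat_lit 405) (.e (nat_lit 57464) (nat_lit 23) (.e (nat_lit 516165) (nat_lit 12) (.e (nat_lit 450586) (nat_lit 10) (.e (nat_lit 573452) (nat_lit 9) (.e (nat_lit 428) (nat_lit 32) (.e (nat_lit 425987) (nat_lit 0) .nil))))))) (.g (nat_lit 7) .nil .nil))) 
(.lf (nat_lit 127585) (.g (nat_lit 1143) (.e (nat_lit 7581) (nat_lit 405) (.e (nat_lit 57476) (nat_lit 28) (.e (nat_lit 557104) (nat_lit 14) (.e (nat_lit 180264) (nat_lit 21) .nil)))) .nil))) (.nd (nat_lit 5) 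
(.lf (nat_lit 127569) (.g (nat_lit 2343) (.e (nat_lit 7580) (nat_lit 405) (.e (nat_lit 57464) (nat_lit 23) (.e (nat_lit 516166) (nat_lit 12) (.e (nat_lit 450587) (nat_lit 10) (.e (nat_lit 573456) (nat_lit 9) (.e (nat_lit 428) (nat_lit 32) (.e (nat_lit 425987) (nat_lit 0) .nil))))))) (.g (nat_lit 5) .nil .nil))) 
(.lf (nat_lit 127601) (.g (nat_lit 876) (.e (nat_lit 7581) (nat_lit 405) (.e (nat_lit 57479) (nat_lit 28) (.e (nat_lit 557091) (nat_lit 12) .nil))) .nil)))) (.nd (nat_lit 4) (.nd (nat_lit 5) 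
(.lf (nat_lit 127561) (.g (nat_lit 2157) (.e (nat_lit 7580) (nat_lit 405) (.e (nat_lit 57464) (nat_lit 23) (.e (nat_lit 516166) (nat_lit 12) (.e (nat_lit 450562) (nat_lit 0) (.e (nat_lit 4284) (nat_lit 253) .nil))))) .nil)) 
(.lf (nat_lit 127593) (.g (nat_lit 2513) (.e (nat_lit 7581) (nat_lit 405) (.e (nat_lit 57477) (nat_lit 28) (.e (nat_lit 557103) (nat_lit 14) (.e (nat_lit 180244) (nat_lit 5) (.e (nat_lit 532579) (nat_lit 26) (.e (nat_lit 426139) (nat_lit 3) (.e (nat_lit 212736) (nat_lit 0) .nil))))))) (.g (nat_lit 5) .nil .nil)))) (.nd (nat_lit 5) 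
(.lf (nat_lit 127577) (.g (nat_lit 2194) (.e (nat_lit 7581) (nat_lit 405) (.e (nat_lit 57464) (nat_lit 23) (.e (nat_lit 516151) (nat_lit 9) (.e (nat_lit 426282) (nat_lit 10) .nil)))) .nil)) 
(.lf (nat_lit 127609) (.g (nat_lit 1170) (.e (nat_lit 7581) (nat_lit 405) (.e (nat_lit 57479) (nat_lit 28) (.e (nat_lit 557101) (nat_lit 13) (.e (nat_lit 172070) (nat_lit 4) .nil)))) .nil))))) (.nd (nat_lit 3) (.nd (nat_lit 4) (.nd (nat_lit 5) 
(.lf (nat_lit 127557) (.g (nat_lit 2198) (.e (nat_lit 7580) (nat_lit 405) (.e (nat_lit 57464) (nat_lit 23) (.e (nat_lit 516165) (nat_lit 12) (.e (nat_lit 450586) (nat_lit 10) (.e (nat_lit 573456) (nat_lit 9) (.e (nat_lit 428) (nat_lit 32) (.e (nat_lit 425989) (nat_lit 0) .nil))))))) (.g (nat_lit 5) .nil .nil))) 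
(.lf (nat_lit 127589) (.g (nat_lit 1991) (.e (nat_lit 7581) (nat_lit 405) (.e (nat_lit 57477) (nat_lit 28) (.e (nat_lit 557103) (nat_lit 14) (.e (nat_lit 180225) (nat_lit 0) (.e (nat_lit 5945) (nat_lit 322) .nil))))) .nil))) (.nd (nat_lit 5) 
(.lf (nat_lit 127573) (.g (nat_lit 3200) (.e (nat_lit 7580) (nat_lit 405) (.e (nat_lit 57464) (nat_lit 23) (.e (nat_lit 516166) (nat_lit 12) (.e (nat_lit 450588) (nat_lit 10) (.e (nat_lit 573450) (nat_lit 9) (.e (nat_lit 433) (nat_lit 32) (.e (nat_lit 425987) (nat_lit 0) .nil))))))) (.g (nat_lit 7) .nil .nil))) 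
(.lf (nat_lit 127605) (.g (nat_lit 3281) (.e (nat_lit 7581) (nat_lit 405) (.e (nat_lit 57479) (nat_lit 28) (.e (nat_lit 557100) (nat_lit 13) (.e (nat_lit 172061) (nat_lit 1) (.e (nat_lit 164401) (nat_lit 256) (.e (nat_lit 57447) (nat_lit 19) (.e (nat_lit 393234) (nat_lit 17) .nil))))))) (.g (nat_lit 4) .nil .nil))))) (.nd (nat_lit 4) (.nd (nat_lit 5) 
(.lf (nat_lit 127565) (.g (nat_lit 2652) (.e (nat_lit 7580) (nat_lit 405) (.e (nat_lit 57464) (nat_lit 23) (.e (nat_lit 516166) (nat_lit 12) (.e (nat_lit 450562) (nat_lit 0) (.e (nat_lit 4284) (nat_lit 253) (.e (nat_lit 57590) (nat_lit 73) (.e (nat_lit 425989) (nat_lit 0) .nil))))))) (.g (nat_lit 5) .nil .nil))) 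
(.lf (nat_lit 127597) (.g (nat_lit 2339) (.e (nat_lit 7581) (nat_lit 405) (.e (nat_lit 57477) (nat_lit 28) (.e (nat_lit 557104) (nat_lit 14) (.e (nat_lit 180229) (nat_lit 0) (.e (nat_lit 5953) (nat_lit 322) (.e (nat_lit 57445) (nat_lit 19) (.e (nat_lit 393233) (nat_lit 17) .nil))))))) (.g (nat_lit 4) .nil .nil)))) (.nd (nat_lit 5) 
(.lf (nat_lit 127581) (.g (nat_lit 1994) (.e (nat_lit 7581) (nat_lit 405) (.e (nat_lit 57476) (nat_lit 28) (.e (nat_lit 557103) (nat_lit 14) (.e (nat_lit 180244) (nat_lit 5) (.e (nat_lit 532579) (nat_lit 26) .nil))))) .nil)) 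
(.lf (nat_lit 127613) (.g (nat_lit 2725) (.e (nat_lit 7581) (nat_lit 405) (.e (nat_lit 57479) (nat_lit 28) (.e (nat_lit 557103) (nat_lit 14) (.e (nat_lit 180233) (nat_lit 0) (.e (nat_lit 5948) (nat_lit 322) .nil))))) .nil)))))) (.nd (nat_lit 2) (.nd (nat_lit 3) (.nd (nat_lit 4) (.nd (nat_lit 5) 
(.lf (nat_lit 127555) (.g (nat_lit 2329) (.e (nat_lit 7580) (nat_lit 405) (.e (nat_lit 57464) (nat_lit 23) (.e (nat_lit 516165) (nat_lit 12) (.e (nat_lit 450586) (nat_lit 10) (.e (nat_lit 573456) (nat_lit 9) (.e (nat_lit 428) (nat_lit 32) (.e (nat_lit 425984) (nat_lit 0) .nil))))))) (.g (nat_lit 5) .nil .nil))) 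
(.lf (nat_lit 127587) (.g (nat_lit 1440) (.e (nat_lit 7581) (nat_lit 405) (.e (nat_lit 57476) (nat_lit 28) (.e (nat_lit 557104) (nat_lit 14) (.e (nat_lit 180265) (nat_lit 21) (.e (nat_lit 663555) (nat_lit 0) .nil))))) .nil))) (.nd (nat_lit 5) 
(.lf (nat_lit 127571) (.g (nat_lit 2342) (.e (nat_lit 7580) (nat_lit 405) (.e (nat_lit 57464) (nat_lit 23) (.e (nat_lit 516166) (nat_lit 12) (.e (nat_lit 450587) (nat_lit 10) (.e (nat_lit 573457) (nat_lit 9) (.e (nat_lit 428) (nat_lit 32) (.e (nat_lit 425987) (nat_lit 0) .nil))))))) (.g (nat_lit 7) .nil .nil))) 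
(.lf (nat_lit 127603) (.g (nat_lit 3206) (.e (nat_lit 7581) (nat_lit 405) (.e (nat_lit 57479) (nat_lit 28) (.e (nat_lit 557100) (nat_lit 13) (.e (nat_lit 172059) (nat_lit 1) (.e (nat_lit 164403) (nat_lit 256) (.e (nat_lit 57447) (nat_lit 19) (.e (nat_lit 393232) (nat_lit 17) .nil))))))) (.g (nat_lit 4) .nil .nil))))) (.nd (nat_lit 4) (.nd (nat_lit 5) 
(.lf (nat_lit 127563) (.g (nat_lit 2899) (.e (nat_lit 7580) (nat_lit 405) (.e (nat_lit 57464) (nat_lit 23) (.e (nat_lit 516166) (nat_lit 12) (.e (nat_lit 450562) (nat_lit 0) (.e (nat_lit 4284) (nat_lit 253) (.e (nat_lit 57590) (nat_lit 73) (.e (nat_lit 425984) (nat_lit 0) .nil))))))) (.g (nat_lit 5) .nil .nil))) 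
(.lf (nat_lit 127595) (.g (nat_lit 1430) (.e (nat_lit 7581) (nat_lit 405) (.e (nat_lit 57477) (nat_lit 28) (.e (nat_lit 557103) (nat_lit 14) (.e (nat_lit 180263) (nat_lit 21) (.e (nat_lit 663556) (nat_lit 0) .nil))))) .nil))) (.nd (nat_lit 5) 
(.lf (nat_lit 127579) (.g (nat_lit 1131) (.e (nat_lit 7581) (nat_lit 405) (.e (nat_lit 57476) (nat_lit 28) (.e (nat_lit 557065) (nat_lit 9) (.e (nat_lit 2830) (nat_lit 182) .nil)))) .nil)) 
(.lf (nat_lit 127611) (.g (nat_lit 3348) (.e (nat_lit 7581) (nat_lit 405) (.e (nat_lit 57479) (nat_lit 28) (.e (nat_lit 557103) (nat_lit 14) (.e (nat_lit 180225) (nat_lit 0) (.e (nat_lit 5945) (nat_lit 322) .nil))))) .nil))))) (.nd (nat_lit 3) (.nd (nat_lit 4) (.nd (nat_lit 5) 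
(.lf (nat_lit 127559) (.g (nat_lit 2185) (.e (nat_lit 7580) (nat_lit 405) (.e (nat_lit 57464) (nat_lit 23) (.e (nat_lit 516165) (nat_lit 12) (.e (nat_lit 450586) (nat_lit 10) (.e (nat_lit 573457) (nat_lit 9) (.e (nat_lit 428) (nat_lit 32) (.e (nat_lit 425987) (nat_lit 0) .nil))))))) (.g (nat_lit 7) .nil .nil))) 
(.lf (nat_lit 127591) (.g (nat_lit 1836) (.e (nat_lit 7581) (nat_lit 405) (.e (nat_lit 57477) (nat_lit 28) (.e (nat_lit 557103) (nat_lit 14) (.e (nat_lit 180228) (nat_lit 0) (.e (nat_lit 5951) (nat_lit 322) .nil))))) .nil))) (.nd (nat_lit 5) 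
(.lf (nat_lit 127575) (.g (nat_lit 2920) (.e (nat_lit 7580) (nat_lit 405) (.e (nat_lit 57464) (nat_lit 23) (.e (nat_lit 516166) (nat_lit 12) (.e (nat_lit 450588) (nat_lit 10) (.e (nat_lit 573452) (nat_lit 9) (.e (nat_lit 428) (nat_lit 32) (.e (nat_lit 425990) (nat_lit 0) .nil))))))) (.g (nat_lit 7) .nil .nil))) 
(.lf (nat_lit 127607) (.g (nat_lit 2206) (.e (nat_lit 7581) (nat_lit 405) (.e (nat_lit 57479) (nat_lit 28) (.e (nat_lit 557100) (nat_lit 13) (.e (nat_lit 179968) (nat_lit 1) .nil)))) .nil)))) (.nd (nat_lit 4) (.nd (nat_lit 5) 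
(.lf (nat_lit 127567) (.g (nat_lit 2607) (.e (nat_lit 7580) (nat_lit 405) (.e (nat_lit 57464) (nat_lit 23) (.e (nat_lit 516166) (nat_lit 12) (.e (nat_lit 450587) (nat_lit 10) (.e (nat_lit 573454) (nat_lit 9) (.e (nat_lit 419) (nat_lit 32) (.e (nat_lit 425984) (nat_lit 0) .nil))))))) (.g (nat_lit 5) .nil .nil))) 
(.lf (nat_lit 127599) (.g (nat_lit 1136) (.e (nat_lit 7581) (nat_lit 405) (.e (nat_lit 57477) (nat_lit 28) (.e (nat_lit 557104) (nat_lit 14) (.e (nat_lit 180265) (nat_lit 21) (.e (nat_lit 663555) (nat_lit 0) .nil))))) .nil))) (.nd (nat_lit 5) 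
(.lf (nat_lit 127583) (.g (nat_lit 1362) (.e (nat_lit 7581) (nat_lit 405) (.e (nat_lit 57476) (nat_lit 28) (.e (nat_lit 557103) (nat_lit 14) (.e (nat_lit 180263) (nat_lit 21) .nil)))) .nil)) 
(.lf (nat_lit 127615) (.g (nat_lit 2524) (.e (nat_lit 7581) (nat_lit 405) (.e (nat_lit 57479) (nat_lit 28) (.e (nat_lit 557103) (nat_lit 14) (.e (nat_lit 180244) (nat_lit 5) .nil)))) .nil))))))))

noncomputable def tv1709 : DT := (.nd (nat_lit 0) (.nd (nat_lit 1) (.nd (nat_lit 2) (.nd (nat_lit 3) (.nd (nat_lit 4) (.nd (nat_lit 5) (.nd (nat_lit 6) 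
(.lf (nat_lit 127616) (.g (nat_lit 2524) (.e (nat_lit 7581) (nat_lit 405) (.e (nat_lit 57479) (nat_lit 28) (.e (nat_lit 557103) (nat_lit 14) (.e (nat_lit 180263) (nat_lit 21) .nil)))) .nil)) 
(.lf (nat_lit 127680) (.g (nat_lit 1689) (.e (nat_lit 7581) (nat_lit 405) (.e (nat_lit 57480) (nat_lit 28) (.e (nat_lit 557105) (nat_lit 14) (.e (nat_lit 180227) (nat_lit 0) (.e (nat_lit 5934) (nat_lit 322) .nil))))) .nil))) (.nd (nat_lit 6) 
(.lf (nat_lit 127648) (.g (nat_lit 2346) (.e (nat_lit 7581) (nat_lit 405) (.e (nat_lit 57480) (nat_lit 28) (.e (nat_lit 557098) (nat_lit 13) (.e (nat_lit 172070) (nat_lit 4) (.e (nat_lit 229707) (nat_lit 256) (.e (nat_lit 57448) (nat_lit 19) (.e (nat_lit 393234) (nat_lit 17) .nil))))))) (.g (nat_lit 4) .nil .nil))) 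
(.lf (nat_lit 127712) (.g (nat_lit 1966) (.e (nat_lit 7582) (nat_lit 405) (.e (nat_lit 57464) (nat_lit 23) (.e (nat_lit 516166) (nat_lit 12) (.e (nat_lit 450563) (nat_lit 0) (.e (nat_lit 3926) (nat_lit 239) .nil))))) .nil)))) (.nd (nat_lit 5) (.nd (nat_lit 6) 
(.lf (nat_lit 127632) (.g (nat_lit 2447) (.e (nat_lit 7581) (nat_lit 405) (.e (nat_lit 57479) (nat_lit 28) (.e (nat_lit 557105) (nat_lit 14) (.e (nat_lit 180265) (nat_lit 21) (.e (nat_lit 663566) (nat_lit 4) .nil))))) .nil)) 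
(.lf (nat_lit 127696) (.g (nat_lit 1777) (.e (nat_lit 7582) (nat_lit 405) (.e (nat_lit 57464) (nat_lit 23) (.e (nat_lit 516151) (nat_lit 9) (.e (nat_lit 426171) (nat_lit 7) .nil)))) .nil))) (.nd (nat_lit 6) 
(.lf (nat_lit 127664) (.g (nat_lit 2792) (.e (nat_lit 7581) (nat_lit 405) (.e (nat_lit 57480) (nat_lit 28) (.e (nat_lit 557104) (nat_lit 14) (.e (nat_lit 180227) (nat_lit 0) (.e (nat_lit 5945) (nat_lit 322) .nil))))) .nil)) 
(.lf (nat_lit 127728) (.g (nat_lit 1901) (.e (nat_lit 7583) (nat_lit 405) (.e (nat_lit 57476) (nat_lit 28) (.e (nat_lit 557103) (nat_lit 14) (.e (nat_lit 180229) (nat_lit 0) (.e (nat_lit 5951) (nat_lit 322) .nil))))) .nil))))) (.nd (nat_lit 4) (.nd (nat_lit 5) (.nd (nat_lit 6) 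
(.lf (nat_lit 127624) (.g (nat_lit 2350) (.e (nat_lit 7581) (nat_lit 405) (.e (nat_lit 57479) (nat_lit 28) (.e (nat_lit 557105) (nat_lit 14) (.e (nat_lit 180262) (nat_lit 21) .nil)))) .nil)) 
(.lf (nat_lit 127688) (.g (nat_lit 1274) (.e (nat_lit 7581) (nat_lit 405) (.e (nat_lit 57480) (nat_lit 28) (.e (nat_lit 557105) (nat_lit 14) (.e (nat_lit 180265) (nat_lit 21) .nil)))) .nil))) (.nd (nat_lit 6) 
(.lf (nat_lit 127656) (.g (nat_lit 1990) (.e (nat_lit 7581) (nat_lit 405) (.e (nat_lit 57480) (nat_lit 28) (.e (nat_lit 557103) (nat_lit 14) (.e (nat_lit 180229) (nat_lit 0) (.e (nat_lit 5951) (nat_lit 322) .nil))))) .nil)) 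
(.lf (nat_lit 127720) (.g (nat_lit 994) (.e (nat_lit 7583) (nat_lit 405) (.e (nat_lit 57476) (nat_lit 28) (.e (nat_lit 557097) (nat_lit 13) (.e (nat_lit 172051) (nat_lit 0) .nil)))) .nil)))) (.nd (nat_lit 5) (.nd (nat_lit 6) 
(.lf (nat_lit 127640) (.g (nat_lit 2443) (.e (nat_lit 7581) (nat_lit 405) (.e (nat_lit 57480) (nat_lit 28) (.e (nat_lit 557098) (nat_lit 13) (.e (nat_lit 172061) (nat_lit 1) (.e (nat_lit 164401) (nat_lit 256) (.e (nat_lit 57447) (nat_lit 19) (.e (nat_lit 393232) (nat_lit 17) .nil))))))) (.g (nat_lit 4) .nil .nil))) 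
(.lf (nat_lit 127704) (.g (nat_lit 3047) (.e (nat_lit 7582) (nat_lit 405) (.e (nat_lit 57464) (nat_lit 23) (.e (nat_lit 516151) (nat_lit 9) (.e (nat_lit 426286) (nat_lit 10) (.e (nat_lit 434247) (nat_lit 28) (.e (nat_lit 573456) (nat_lit 9) (.e (nat_lit 428) (nat_lit 32) (.e (nat_lit 425984) (nat_lit 0) .nil)))))))) (.g (nat_lit 6) .nil .nil)))) (.nd (nat_lit 6) 
(.lf (nat_lit 127672) (.g (nat_lit 2483) (.e (nat_lit 7581) (nat_lit 405) (.e (nat_lit 57480) (nat_lit 28) (.e (nat_lit 557104) (nat_lit 14) (.e (nat_lit 180265) (nat_lit 21) .nil)))) .nil)) 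
(.lf (nat_lit 127736) (.g (nat_lit 1165) (.e (nat_lit 7583) (nat_lit 405) (.e (nat_lit 57476) (nat_lit 28) (.e (nat_lit 557104) (nat_lit 14) (.e (nat_lit 180227) (nat_lit 0) .nil)))) .nil)))))) (.nd (nat_lit 3) (.nd (nat_lit 4) (.nd (nat_lit 5) (.nd (nat_lit 6) 
(.lf (nat_lit 127620) (.g (nat_lit 2634) (.e (nat_lit 7581) (nat_lit 405) (.e (nat_lit 57479) (nat_lit 28) (.e (nat_lit 557105) (nat_lit 14) (.e (nat_lit 180227) (nat_lit 0) (.e (nat_lit 5958) (nat_lit 323) .nil))))) .nil)) 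
(.lf (nat_lit 127684) (.g (nat_lit 2350) (.e (nat_lit 7581) (nat_lit 405) (.e (nat_lit 57480) (nat_lit 28) (.e (nat_lit 557105) (nat_lit 14) (.e (nat_lit 180252) (nat_lit 10) (.e (nat_lit 573475) (nat_lit 12) .nil))))) .nil))) (.nd (nat_lit 6) 
(.lf (nat_lit 127652) (.g (nat_lit 2700) (.e (nat_lit 7581) (nat_lit 405) (.e (nat_lit 57480) (nat_lit 28) (.e (nat_lit 557103) (nat_lit 14) (.e (nat_lit 180225) (nat_lit 0) (.e (nat_lit 5945) (nat_lit 322) (.e (nat_lit 57445) (nat_lit 19) (.e (nat_lit 393233) (nat_lit 17) .nil))))))) (.g (nat_lit 4) .nil .nil))) 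
(.lf (nat_lit 127716) (.g (nat_lit 1123) (.e (nat_lit 7583) (nat_lit 405) (.e (nat_lit 57476) (nat_lit 28) (.e (nat_lit 557065) (nat_lit 9) (.e (nat_lit 2830) (nat_lit 182) .nil)))) .nil)))) (.nd (nat_lit 5) (.nd (nat_lit 6) 
(.lf (nat_lit 127636) (.g (nat_lit 3315) (.e (nat_lit 7581) (nat_lit 405) (.e (nat_lit 57480) (nat_lit 28) (.e (nat_lit 557098) (nat_lit 13) (.e (nat_lit 172059) (nat_lit 1) (.e (nat_lit 164398) (nat_lit 256) (.e (nat_lit 57448) (nat_lit 19) (.e (nat_lit 393234) (nat_lit 17) .nil))))))) (.g (nat_lit 5) .nil .nil))) 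
(.lf (nat_lit 127700) (.g (nat_lit 3302) (.e (nat_lit 7582) (nat_lit 405) (.e (nat_lit 57464) (nat_lit 23) (.e (nat_lit 516151) (nat_lit 9) (.e (nat_lit 426285) (nat_lit 10) (.e (nat_lit 434238) (nat_lit 25) .nil))))) .nil))) (.nd (nat_lit 6) 
(.lf (nat_lit 127668) (.g (nat_lit 1706) (.e (nat_lit 7581) (nat_lit 405) (.e (nat_lit 57480) (nat_lit 28) (.e (nat_lit 557104) (nat_lit 14) (.e (nat_lit 180233) (nat_lit 0) .nil)))) .nil)) 
(.lf (nat_lit 127732) (.g (nat_lit 1416) (.e (nat_lit 7583) (nat_lit 405) (.e (nat_lit 57476) (nat_lit 28) (.e (nat_lit 557103) (nat_lit 14) (.e (nat_lit 180263) (nat_lit 21) .nil)))) .nil))))) (.nd (nat_lit 4) (.nd (nat_lit 5) (.nd (nat_lit 6) 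
(.lf (nat_lit 127628) (.g (nat_lit 2344) (.e (nat_lit 7581) (nat_lit 405) (.e (nat_lit 57479) (nat_lit 28) (.e (nat_lit 557105) (nat_lit 14) (.e (nat_lit 180264) (nat_lit 21) (.e (nat_lit 663561) (nat_lit 0) .nil))))) .nil)) 
(.lf (nat_lit 127692) (.g (nat_lit 2464) (.e (nat_lit 7581) (nat_lit 405) (.e (nat_lit 57480) (nat_lit 28) (.e (nat_lit 557105) (nat_lit 14) (.e (nat_lit 180265) (nat_lit 21) (.e (nat_lit 671488) (nat_lit 0) (.e (nat_lit 1661) (nat_lit 115) (.e (nat_lit 393231) (nat_lit 17) .nil))))))) (.g (nat_lit 4) .nil .nil)))) (.nd (nat_lit 6) 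
(.lf (nat_lit 127660) (.g (nat_lit 2186) (.e (nat_lit 7581) (nat_lit 405) (.e (nat_lit 57480) (nat_lit 28) (.e (nat_lit 557104) (nat_lit 14) (.e (nat_lit 180224) (nat_lit 0) .nil)))) .nil)) 
(.lf (nat_lit 127724) (.g (nat_lit 372) (.e (nat_lit 7583) (nat_lit 405) (.e (nat_lit 57476) (nat_lit 28) (.e (nat_lit 557103) (nat_lit 14) .nil))) .nil)))) (.nd (nat_lit 5) (.nd (nat_lit 6) 
(.lf (nat_lit 127644) (.g (nat_lit 2413) (.e (nat_lit 7581) (nat_lit 405) (.e (nat_lit 57480) (nat_lit 28) (.e (nat_lit 557098) (nat_lit 13) (.e (nat_lit 172061) (nat_lit 1) (.e (nat_lit 164402) (nat_lit 256) (.e (nat_lit 57445) (nat_lit 19) (.e (nat_lit 393234) (nat_lit 17) .nil))))))) (.g (nat_lit 4) .nil .nil))) 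
(.lf (nat_lit 127708) (.g (nat_lit 3374) (.e (nat_lit 7582) (nat_lit 405) (.e (nat_lit 57464) (nat_lit 23) (.e (nat_lit 516151) (nat_lit 9) (.e (nat_lit 426338) (nat_lit 14) (.e (nat_lit 491540) (nat_lit 3) (.e (nat_lit 98363) (nat_lit 26) (.e (nat_lit 425987) (nat_lit 0) .nil))))))) (.g (nat_lit 7) .nil .nil)))) (.nd (nat_lit 6) 
(.lf (nat_lit 127676) (.g (nat_lit 1121) (.e (nat_lit 7581) (nat_lit 405) (.e (nat_lit 57480) (nat_lit 28) (.e (nat_lit 557105) (nat_lit 14) (.e (nat_lit 180224) (nat_lit 0) .nil)))) .nil)) 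
(.lf (nat_lit 127740) (.g (nat_lit 1284) (.e (nat_lit 7583) (nat_lit 405) (.e (nat_lit 57476) (nat_lit 28) (.e (nat_lit 557104) (nat_lit 14) (.e (nat_lit 180229) (nat_lit 0) .nil)))) .nil))))))) (.nd (nat_lit 2) (.nd (nat_lit 3) (.nd (nat_lit 4) (.nd (nat_lit 5) (.nd (nat_lit 6) 
(.lf (nat_lit 127618) (.g (nat_lit 1794) (.e (nat_lit 7581) (nat_lit 405) (.e (nat_lit 57479) (nat_lit 28) (.e (nat_lit 557105) (nat_lit 14) (.e (nat_lit 180227) (nat_lit 0) .nil)))) .nil)) 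
(.lf (nat_lit 127682) (.g (nat_lit 1520) (.e (nat_lit 7581) (nat_lit 405) (.e (nat_lit 57480) (nat_lit 28) (.e (nat_lit 557105) (nat_lit 14) (.e (nat_lit 180232) (nat_lit 0) (.e (nat_lit 5948) (nat_lit 322) .nil))))) .nil))) (.nd (nat_lit 6) 
(.lf (nat_lit 127650) (.g (nat_lit 2298) (.e (nat_lit 7581) (nat_lit 405) (.e (nat_lit 57480) (nat_lit 28) (.e (nat_lit 557103) (nat_lit 14) (.e (nat_lit 180225) (nat_lit 0) (.e (nat_lit 5934) (nat_lit 322) .nil))))) .nil)) 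
(.lf (nat_lit 127714) (.g (nat_lit 2236) (.e (nat_lit 7583) (nat_lit 405) (.e (nat_lit 57464) (nat_lit 23) (.e (nat_lit 516151) (nat_lit 9) (.e (nat_lit 426282) (nat_lit 10) .nil)))) .nil)))) (.nd (nat_lit 5) (.nd (nat_lit 6) 
(.lf (nat_lit 127634) (.g (nat_lit 2123) (.e (nat_lit 7581) (nat_lit 405) (.e (nat_lit 57480) (nat_lit 28) (.e (nat_lit 557091) (nat_lit 12) (.e (nat_lit 164218) (nat_lit 179) .nil)))) .nil)) 
(.lf (nat_lit 127698) (.g (nat_lit 2525) (.e (nat_lit 7582) (nat_lit 405) (.e (nat_lit 57464) (nat_lit 23) (.e (nat_lit 516151) (nat_lit 9) (.e (nat_lit 426171) (nat_lit 7) (.e (nat_lit 409631) (nat_lit 12) .nil))))) .nil))) (.nd (nat_lit 6) 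
(.lf (nat_lit 127666) (.g (nat_lit 2854) (.e (nat_lit 7581) (nat_lit 405) (.e (nat_lit 57480) (nat_lit 28) (.e (nat_lit 557104) (nat_lit 14) (.e (nat_lit 180229) (nat_lit 0) (.e (nat_lit 5951) (nat_lit 322) .nil))))) .nil)) 
(.lf (nat_lit 127730) (.g (nat_lit 1376) (.e (nat_lit 7583) (nat_lit 405) (.e (nat_lit 57476) (nat_lit 28) (.e (nat_lit 557103) (nat_lit 14) (.e (nat_lit 180232) (nat_lit 0) .nil)))) .nil))))) (.nd (nat_lit 4) (.nd (nat_lit 5) (.nd (nat_lit 6) 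
(.lf (nat_lit 127626) (.g (nat_lit 2345) (.e (nat_lit 7581) (nat_lit 405) (.e (nat_lit 57479) (nat_lit 28) (.e (nat_lit 557105) (nat_lit 14) (.e (nat_lit 180264) (nat_lit 21) (.e (nat_lit 663552) (nat_lit 0) .nil))))) .nil)) 
(.lf (nat_lit 127690) (.g (nat_lit 2380) (.e (nat_lit 7581) (nat_lit 405) (.e (nat_lit 57480) (nat_lit 28) (.e (nat_lit 557105) (nat_lit 14) (.e (nat_lit 180265) (nat_lit 21) (.e (nat_lit 663555) (nat_lit 0) (.e (nat_lit 1652) (nat_lit 115) (.e (nat_lit 393231) (nat_lit 17) .nil))))))) (.g (nat_lit 4) .nil .nil)))) (.nd (nat_lit 6) 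
(.lf (nat_lit 127658) (.g (nat_lit 3598) (.e (nat_lit 7581) (nat_lit 405) (.e (nat_lit 57480) (nat_lit 28) (.e (nat_lit 557103) (nat_lit 14) (.e (nat_lit 180244) (nat_lit 5) (.e (nat_lit 532579) (nat_lit 26) (.e (nat_lit 426133) (nat_lit 3) (.e (nat_lit 212736) (nat_lit 0) .nil))))))) (.g (nat_lit 6) .nil .nil))) 
(.lf (nat_lit 127722) (.g (nat_lit 4057) (.e (nat_lit 7583) (nat_lit 405) (.e (nat_lit 57476) (nat_lit 28) (.e (nat_lit 557097) (nat_lit 13) (.e (nat_lit 172061) (nat_lit 1) (.e (nat_lit 164403) (nat_lit 256) (.e (nat_lit 57447) (nat_lit 19) (.e (nat_lit 393234) (nat_lit 17) .nil))))))) (.g (nat_lit 7) .nil .nil))))) (.nd (nat_lit 5) (.nd (nat_lit 6) 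
(.lf (nat_lit 127642) (.g (nat_lit 2414) (.e (nat_lit 7581) (nat_lit 405) (.e (nat_lit 57480) (nat_lit 28) (.e (nat_lit 557098) (nat_lit 13) (.e (nat_lit 172061) (nat_lit 1) (.e (nat_lit 164402) (nat_lit 256) (.e (nat_lit 57445) (nat_lit 19) (.e (nat_lit 393232) (nat_lit 17) .nil))))))) (.g (nat_lit 4) .nil .nil))) 
(.lf (nat_lit 127706) (.g (nat_lit 2099) (.e (nat_lit 7582) (nat_lit 405) (.e (nat_lit 57464) (nat_lit 23) (.e (nat_lit 516151) (nat_lit 9) (.e (nat_lit 426338) (nat_lit 14) (.e (nat_lit 491540) (nat_lit 3) .nil))))) .nil))) (.nd (nat_lit 6) 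
(.lf (nat_lit 127674) (.g (nat_lit 2245) (.e (nat_lit 7581) (nat_lit 405) (.e (nat_lit 57480) (nat_lit 28) (.e (nat_lit 557104) (nat_lit 14) (.e (nat_lit 180266) (nat_lit 22) .nil)))) .nil)) 
(.lf (nat_lit 127738) (.g (nat_lit 2035) (.e (nat_lit 7583) (nat_lit 405) (.e (nat_lit 57476) (nat_lit 28) (.e (nat_lit 557104) (nat_lit 14) (.e (nat_lit 180228) (nat_lit 0) (.e (nat_lit 5946) (nat_lit 322) .nil))))) .nil)))))) (.nd (nat_lit 3) (.nd (nat_lit 4) (.nd (nat_lit 5) (.nd (nat_lit 6) 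
(.lf (nat_lit 127622) (.g (nat_lit 2345) (.e (nat_lit 7581) (nat_lit 405) (.e (nat_lit 57479) (nat_lit 28) (.e (nat_lit 557105) (nat_lit 14) (.e (nat_lit 180233) (nat_lit 0) .nil)))) .nil)) 
(.lf (nat_lit 127686) (.g (nat_lit 1172) (.e (nat_lit 7581) (nat_lit 405) (.e (nat_lit 57480) (nat_lit 28) (.e (nat_lit 557105) (nat_lit 14) (.e (nat_lit 180264) (nat_lit 21) .nil)))) .nil))) (.nd (nat_lit 6) 
(.lf (nat_lit 127654) (.g (nat_lit 4430) (.e (nat_lit 7581) (nat_lit 405) (.e (nat_lit 57480) (nat_lit 28) (.e (nat_lit 557103) (nat_lit 14) (.e (nat_lit 180225) (nat_lit 0) (.e (nat_lit 5954) (nat_lit 322) (.e (nat_lit 57445) (nat_lit 19) (.e (nat_lit 393233) (nat_lit 17) .nil))))))) (.g (nat_lit 6) .nil .nil))) 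
(.lf (nat_lit 127718) (.g (nat_lit 324) (.e (nat_lit 7583) (nat_lit 405) (.e (nat_lit 57476) (nat_lit 28) (.e (nat_lit 557097) (nat_lit 13) .nil))) .nil)))) (.nd (nat_lit 5) (.nd (nat_lit 6) 
(.lf (nat_lit 127638) (.g (nat_lit 2395) (.e (nat_lit 7581) (nat_lit 405) (.e (nat_lit 57480) (nat_lit 28) (.e (nat_lit 557098) (nat_lit 13) (.e (nat_lit 172059) (nat_lit 1) (.e (nat_lit 164403) (nat_lit 256) (.e (nat_lit 57445) (nat_lit 19) (.e (nat_lit 393233) (nat_lit 17) .nil))))))) (.g (nat_lit 4) .nil .nil))) 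
(.lf (nat_lit 127702) (.g (nat_lit 3281) (.e (nat_lit 7582) (nat_lit 405) (.e (nat_lit 57464) (nat_lit 23) (.e (nat_lit 516151) (nat_lit 9) (.e (nat_lit 426286) (nat_lit 10) (.e (nat_lit 434245) (nat_lit 28) (.e (nat_lit 573458) (nat_lit 9) (.e (nat_lit 420) (nat_lit 32) (.e (nat_lit 425984) (nat_lit 0) .nil)))))))) (.g (nat_lit 7) .nil .nil)))) (.nd (nat_lit 6) 
(.lf (nat_lit 127670) (.g (nat_lit 2433) (.e (nat_lit 7581) (nat_lit 405) (.e (nat_lit 57480) (nat_lit 28) (.e (nat_lit 557104) (nat_lit 14) (.e (nat_lit 180262) (nat_lit 21) .nil)))) .nil)) 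
(.lf (nat_lit 127734) (.g (nat_lit 1222) (.e (nat_lit 7583) (nat_lit 405) (.e (nat_lit 57476) (nat_lit 28) (.e (nat_lit 557104) (nat_lit 14) (.e (nat_lit 180224) (nat_lit 0) .nil)))) .nil))))) (.nd (nat_lit 4) (.nd (nat_lit 5) (.nd (nat_lit 6) 
(.lf (nat_lit 127630) (.g (nat_lit 2455) (.e (nat_lit 7581) (nat_lit 405) (.e (nat_lit 57479) (nat_lit 28) (.e (nat_lit 557105) (nat_lit 14) (.e (nat_lit 180265) (nat_lit 21) (.e (nat_lit 663555) (nat_lit 0) .nil))))) .nil)) 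
(.lf (nat_lit 127694) (.g (nat_lit 2803) (.e (nat_lit 7581) (nat_lit 405) (.e (nat_lit 57480) (nat_lit 28) (.e (nat_lit 557105) (nat_lit 14) (.e (nat_lit 180266) (nat_lit 22) (.e (nat_lit 671762) (nat_lit 4) (.e (nat_lit 65651) (nat_lit 27) (.e (nat_lit 426012) (nat_lit 0) .nil))))))) (.g (nat_lit 5) .nil .nil)))) (.nd (nat_lit 6) 
(.lf (nat_lit 127662) (.g (nat_lit 2483) (.e (nat_lit 7581) (nat_lit 405) (.e (nat_lit 57480) (nat_lit 28) (.e (nat_lit 557104) (nat_lit 14) (.e (nat_lit 180226) (nat_lit 0) .nil)))) .nil)) 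
(.lf (nat_lit 127726) (.g (nat_lit 1403) (.e (nat_lit 7583) (nat_lit 405) (.e (nat_lit 57476) (nat_lit 28) (.e (nat_lit 557103) (nat_lit 14) (.e (nat_lit 180225) (nat_lit 0) .nil)))) .nil)))) (.nd (nat_lit 5) (.nd (nat_lit 6) 
(.lf (nat_lit 127646) (.g (nat_lit 4694) (.e (nat_lit 7581) (nat_lit 405) (.e (nat_lit 57480) (nat_lit 28) (.e (nat_lit 557098) (nat_lit 13) (.e (nat_lit 172061) (nat_lit 1) (.e (nat_lit 164403) (nat_lit 256) (.e (nat_lit 57447) (nat_lit 19) (.e (nat_lit 393232) (nat_lit 17) .nil))))))) (.g (nat_lit 6) .nil .nil))) 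
(.lf (nat_lit 127710) (.g (nat_lit 2110) (.e (nat_lit 7582) (nat_lit 405) (.e (nat_lit 57464) (nat_lit 23) (.e (nat_lit 516166) (nat_lit 12) (.e (nat_lit 450562) (nat_lit 0) (.e (nat_lit 4284) (nat_lit 253) .nil))))) .nil))) (.nd (nat_lit 6) 
(.lf (nat_lit 127678) (.g (nat_lit 1077) (.e (nat_lit 7581) (nat_lit 405) (.e (nat_lit 57480) (nat_lit 28) (.e (nat_lit 557105) (nat_lit 14) (.e (nat_lit 180227) (nat_lit 0) .nil)))) .nil)) 
(.lf (nat_lit 127742) (.g (nat_lit 2154) (.e (nat_lit 7583) (nat_lit 405) (.e (nat_lit 57476) (nat_lit 28) (.e (nat_lit 557104) (nat_lit 14) (.e (nat_lit 180229) (nat_lit 0) (.e (nat_lit 5952) (nat_lit 322) .nil))))) .nil)))))))) (.nd (nat_lit 1) (.nd (nat_lit 2) (.nd (nat_lit 3) (.nd (nat_lit 4) (.nd (nat_lit 5) (.nd (nat_lit 6) 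
(.lf (nat_lit 127617) (.g (nat_lit 2090) (.e (nat_lit 7581) (nat_lit 405) (.e (nat_lit 57479) (nat_lit 28) (.e (nat_lit 557105) (nat_lit 14) (.e (nat_lit 180224) (nat_lit 0) .nil)))) .nil)) 
(.lf (nat_lit 127681) (.g (nat_lit 1743) (.e (nat_lit 7581) (nat_lit 405) (.e (nat_lit 57480) (nat_lit 28) (.e (nat_lit 557105) (nat_lit 14) (.e (nat_lit 180227) (nat_lit 0) (.e (nat_lit 5945) (nat_lit 322) .nil))))) .nil))) (.nd (nat_lit 6) 
(.lf (nat_lit 127649) (.g (nat_lit 440) (.e (nat_lit 7581) (nat_lit 405) (.e (nat_lit 57480) (nat_lit 28) (.e (nat_lit 557103) (nat_lit 14) .nil))) .nil)) 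
(.lf (nat_lit 127713) (.g (nat_lit 2866) (.e (nat_lit 7582) (nat_lit 405) (.e (nat_lit 57464) (nat_lit 23) (.e (nat_lit 516166) (nat_lit 12) (.e (nat_lit 450588) (nat_lit 10) (.e (nat_lit 573457) (nat_lit 9) (.e (nat_lit 428) (nat_lit 32) (.e (nat_lit 425990) (nat_lit 0) .nil))))))) (.g (nat_lit 6) .nil .nil))))) (.nd (nat_lit 5) (.nd (nat_lit 6) 
(.lf (nat_lit 127633) (.g (nat_lit 2410) (.e (nat_lit 7581) (nat_lit 405) (.e (nat_lit 57479) (nat_lit 28) (.e (nat_lit 557105) (nat_lit 14) (.e (nat_lit 180265) (nat_lit 21) (.e (nat_lit 663571) (nat_lit 8) .nil))))) .nil)) 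
(.lf (nat_lit 127697) (.g (nat_lit 2454) (.e (nat_lit 7582) (nat_lit 405) (.e (nat_lit 57464) (nat_lit 23) (.e (nat_lit 516151) (nat_lit 9) (.e (nat_lit 426171) (nat_lit 7) (.e (nat_lit 409629) (nat_lit 12) .nil))))) .nil))) (.nd (nat_lit 6) 
(.lf (nat_lit 127665) (.g (nat_lit 2114) (.e (nat_lit 7581) (nat_lit 405) (.e (nat_lit 57480) (nat_lit 28) (.e (nat_lit 557104) (nat_lit 14) (.e (nat_lit 180229) (nat_lit 0) .nil)))) .nil)) 
(.lf (nat_lit 127729) (.g (nat_lit 1900) (.e (nat_lit 7583) (nat_lit 405) (.e (nat_lit 57476) (nat_lit 28) (.e (nat_lit 557103) (nat_lit 14) (.e (nat_lit 180229) (nat_lit 0) (.e (nat_lit 5952) (nat_lit 322) .nil))))) .nil))))) (.nd (nat_lit 4) (.nd (nat_lit 5) (.nd (nat_lit 6) 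
(.lf (nat_lit 127625) (.g (nat_lit 1818) (.e (nat_lit 7581) (nat_lit 405) (.e (nat_lit 57479) (nat_lit 28) (.e (nat_lit 557105) (nat_lit 14) (.e (nat_lit 180264) (nat_lit 21) .nil)))) .nil)) 
(.lf (nat_lit 127689) (.g (nat_lit 2109) (.e (nat_lit 7581) (nat_lit 405) (.e (nat_lit 57480) (nat_lit 28) (.e (nat_lit 557105) (nat_lit 14) (.e (nat_lit 180265) (nat_lit 21) (.e (nat_lit 663555) (nat_lit 0) .nil))))) .nil))) (.nd (nat_lit 6) 
(.lf (nat_lit 127657) (.g (nat_lit 1545) (.e (nat_lit 7581) (nat_lit 405) (.e (nat_lit 57480) (nat_lit 28) (.e (nat_lit 557103) (nat_lit 14) (.e (nat_lit 180232) (nat_lit 0) (.e (nat_lit 5948) (nat_lit 322) .nil))))) .nil)) 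
(.lf (nat_lit 127721) (.g (nat_lit 1124) (.e (nat_lit 7583) (nat_lit 405) (.e (nat_lit 57476) (nat_lit 28) (.e (nat_lit 557097) (nat_lit 13) (.e (nat_lit 172060) (nat_lit 1) .nil)))) .nil)))) (.nd (nat_lit 5) (.nd (nat_lit 6) 
(.lf (nat_lit 127641) (.g (nat_lit 2632) (.e (nat_lit 7581) (nat_lit 405) (.e (nat_lit 57480) (nat_lit 28) (.e (nat_lit 557098) (nat_lit 13) (.e (nat_lit 172061) (nat_lit 1) (.e (nat_lit 164401) (nat_lit 256) (.e (nat_lit 57447) (nat_lit 19) (.e (nat_lit 393233) (nat_lit 17) .nil))))))) (.g (nat_lit 4) .nil .nil))) 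
(.lf (nat_lit 127705) (.g (nat_lit 3558) (.e (nat_lit 7582) (nat_lit 405) (.e (nat_lit 57464) (nat_lit 23) (.e (nat_lit 516151) (nat_lit 9) (.e (nat_lit 426286) (nat_lit 10) (.e (nat_lit 434248) (nat_lit 28) (.e (nat_lit 573450) (nat_lit 9) (.e (nat_lit 433) (nat_lit 32) (.e (nat_lit 425984) (nat_lit 0) .nil)))))))) (.g (nat_lit 7) .nil .nil)))) (.nd (nat_lit 6) 
(.lf (nat_lit 127673) (.g (nat_lit 2770) (.e (nat_lit 7581) (nat_lit 405) (.e (nat_lit 57480) (nat_lit 28) (.e (nat_lit 557104) (nat_lit 14) (.e (nat_lit 180265) (nat_lit 21) (.e (nat_lit 663555) (nat_lit 0) .nil))))) .nil)) 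
(.lf (nat_lit 127737) (.g (nat_lit 1572) (.e (nat_lit 7583) (nat_lit 405) (.e (nat_lit 57476) (nat_lit 28) (.e (nat_lit 557104) (nat_lit 14) (.e (nat_lit 180227) (nat_lit 0) (.e (nat_lit 5934) (nat_lit 322) .nil))))) .nil)))))) (.nd (nat_lit 3) (.nd (nat_lit 4) (.nd (nat_lit 5) (.nd (nat_lit 6) 
(.lf (nat_lit 127621) (.g (nat_lit 2360) (.e (nat_lit 7581) (nat_lit 405) (.e (nat_lit 57479) (nat_lit 28) (.e (nat_lit 557105) (nat_lit 14) (.e (nat_lit 180230) (nat_lit 0) .nil)))) .nil)) 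
(.lf (nat_lit 127685) (.g (nat_lit 1248) (.e (nat_lit 7581) (nat_lit 405) (.e (nat_lit 57480) (nat_lit 28) (.e (nat_lit 557105) (nat_lit 14) (.e (nat_lit 180262) (nat_lit 21) .nil)))) .nil))) (.nd (nat_lit 6) 
(.lf (nat_lit 127653) (.g (nat_lit 3376) (.e (nat_lit 7581) (nat_lit 405) (.e (nat_lit 57480) (nat_lit 28) (.e (nat_lit 557103) (nat_lit 14) (.e (nat_lit 180225) (nat_lit 0) (.e (nat_lit 5954) (nat_lit 322) (.e (nat_lit 57445) (nat_lit 19) (.e (nat_lit 393231) (nat_lit 17) .nil))))))) (.g (nat_lit 5) .nil .nil))) 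
(.lf (nat_lit 127717) (.g (nat_lit 1795) (.e (nat_lit 7583) (nat_lit 405) (.e (nat_lit 57476) (nat_lit 28) (.e (nat_lit 557067) (nat_lit 9) (.e (nat_lit 2975) (nat_lit 185) .nil)))) .nil)))) (.nd (nat_lit 5) (.nd (nat_lit 6) 
(.lf (nat_lit 127637) (.g (nat_lit 2252) (.e (nat_lit 7581) (nat_lit 405) (.e (nat_lit 57480) (nat_lit 28) (.e (nat_lit 557098) (nat_lit 13) (.e (nat_lit 172059) (nat_lit 1) (.e (nat_lit 164399) (nat_lit 256) (.e (nat_lit 57447) (nat_lit 19) (.e (nat_lit 393231) (nat_lit 17) .nil))))))) (.g (nat_lit 4) .nil .nil))) 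
(.lf (nat_lit 127701) (.g (nat_lit 3756) (.e (nat_lit 7582) (nat_lit 405) (.e (nat_lit 57464) (nat_lit 23) (.e (nat_lit 516151) (nat_lit 9) (.e (nat_lit 426286) (nat_lit 10) (.e (nat_lit 434245) (nat_lit 28) (.e (nat_lit 573450) (nat_lit 9) (.e (nat_lit 433) (nat_lit 32) (.e (nat_lit 425987) (nat_lit 0) .nil)))))))) (.g (nat_lit 0) .nil .nil)))) (.nd (nat_lit 6) 
(.lf (nat_lit 127669) (.g (nat_lit 2097) (.e (nat_lit 7581) (nat_lit 405) (.e (nat_lit 57480) (nat_lit 28) (.e (nat_lit 557104) (nat_lit 14) (.e (nat_lit 180244) (nat_lit 5) .nil)))) .nil)) 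
(.lf (nat_lit 127733) (.g (nat_lit 329) (.e (nat_lit 7583) (nat_lit 405) (.e (nat_lit 57476) (nat_lit 28) (.e (nat_lit 557104) (nat_lit 14) .nil))) .nil))))) (.nd (nat_lit 4) (.nd (nat_lit 5) (.nd (nat_lit 6) 
(.lf (nat_lit 127629) (.g (nat_lit 1636) (.e (nat_lit 7581) (nat_lit 405) (.e (nat_lit 57479) (nat_lit 28) (.e (nat_lit 557105) (nat_lit 14) (.e (nat_lit 180265) (nat_lit 21) .nil)))) .nil)) 
(.lf (nat_lit 127693) (.g (nat_lit 2538) (.e (nat_lit 7581) (nat_lit 405) (.e (nat_lit 57480) (nat_lit 28) (.e (nat_lit 557105) (nat_lit 14) (.e (nat_lit 180265) (nat_lit 21) (.e (nat_lit 663566) (nat_lit 4) (.e (nat_lit 65651) (nat_lit 27) (.e (nat_lit 426012) (nat_lit 0) .nil))))))) (.g (nat_lit 4) .nil .nil)))) (.nd (nat_lit 6) 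
(.lf (nat_lit 127661) (.g (nat_lit 2483) (.e (nat_lit 7581) (nat_lit 405) (.e (nat_lit 57480) (nat_lit 28) (.e (nat_lit 557104) (nat_lit 14) (.e (nat_lit 180225) (nat_lit 0) .nil)))) .nil)) 
(.lf (nat_lit 127725) (.g (nat_lit 1332) (.e (nat_lit 7583) (nat_lit 405) (.e (nat_lit 57476) (nat_lit 28) (.e (nat_lit 557103) (nat_lit 14) (.e (nat_lit 180224) (nat_lit 0) .nil)))) .nil)))) (.nd (nat_lit 5) (.nd (nat_lit 6) 
(.lf (nat_lit 127645) (.g (nat_lit 3234) (.e (nat_lit 7581) (nat_lit 405) (.e (nat_lit 57480) (nat_lit 28) (.e (nat_lit 557098) (nat_lit 13) (.e (nat_lit 172061) (nat_lit 1) (.e (nat_lit 164403) (nat_lit 256) (.e (nat_lit 57445) (nat_lit 19) (.e (nat_lit 393233) (nat_lit 17) .nil))))))) (.g (nat_lit 5) .nil .nil))) 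
(.lf (nat_lit 127709) (.g (nat_lit 2116) (.e (nat_lit 7582) (nat_lit 405) (.e (nat_lit 57464) (nat_lit 23) (.e (nat_lit 516165) (nat_lit 12) (.e (nat_lit 450586) (nat_lit 10) (.e (nat_lit 573456) (nat_lit 9) (.e (nat_lit 428) (nat_lit 32) (.e (nat_lit 425984) (nat_lit 0) .nil))))))) (.g (nat_lit 5) .nil .nil)))) (.nd (nat_lit 6) 
(.lf (nat_lit 127677) (.g (nat_lit 2030) (.e (nat_lit 7581) (nat_lit 405) (.e (nat_lit 57480) (nat_lit 28) (.e (nat_lit 557105) (nat_lit 14) (.e (nat_lit 180225) (nat_lit 0) (.e (nat_lit 5954) (nat_lit 322) .nil))))) .nil)) 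
(.lf (nat_lit 127741) (.g (nat_lit 2397) (.e (nat_lit 7583) (nat_lit 405) (.e (nat_lit 57476) (nat_lit 28) (.e (nat_lit 557104) (nat_lit 14) (.e (nat_lit 180229) (nat_lit 0) (.e (nat_lit 5951) (nat_lit 322) (.e (nat_lit 57445) (nat_lit 19) (.e (nat_lit 393233) (nat_lit 17) .nil))))))) (.g (nat_lit 4) .nil .nil)))))))) 
(.nd (nat_lit 2) (.nd (nat_lit 3) (.nd (nat_lit 4) (.nd (nat_lit 5) (.nd (nat_lit 6) 
(.lf (nat_lit 127619) (.g (nat_lit 2555) (.e (nat_lit 7581) (nat_lit 405) (.e (nat_lit 57479) (nat_lit 28) (.e (nat_lit 557105) (nat_lit 14) (.e (nat_lit 180227) (nat_lit 0) (.e (nat_lit 5945) (nat_lit 322) .nil))))) .nil)) 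
(.lf (nat_lit 127683) (.g (nat_lit 2466) (.e (nat_lit 7581) (nat_lit 405) (.e (nat_lit 57480) (nat_lit 28) (.e (nat_lit 557105) (nat_lit 14) (.e (nat_lit 180252) (nat_lit 10) (.e (nat_lit 573474) (nat_lit 12) (.e (nat_lit 57508) (nat_lit 39) (.e (nat_lit 647201) (nat_lit 12) (.e (nat_lit 57466) (nat_lit 23) (.e (nat_lit 516098) (nat_lit 0) .nil))))))))) (.g (nat_lit 4) .nil .nil)))) 
(.nd (nat_lit 6) 
(.lf (nat_lit 127651) (.g (nat_lit 2291) (.e (nat_lit 7581) (nat_lit 405) (.e (nat_lit 57480) (nat_lit 28) (.e (nat_lit 557103) (nat_lit 14) (.e (nat_lit 180225) (nat_lit 0) (.e (nat_lit 5945) (nat_lit 322) .nil))))) .nil)) 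
(.lf (nat_lit 127715) (.g (nat_lit 1763) (.e (nat_lit 7583) (nat_lit 405) (.e (nat_lit 57464) (nat_lit 23) (.e (nat_lit 516151) (nat_lit 9) (.e (nat_lit 426338) (nat_lit 14) .nil)))) .nil)))) (.nd (nat_lit 5) (.nd (nat_lit 6) 
(.lf (nat_lit 127635) (.g (nat_lit 1472) (.e (nat_lit 7581) (nat_lit 405) (.e (nat_lit 57480) (nat_lit 28) (.e (nat_lit 557098) (nat_lit 13) (.e (nat_lit 172059) (nat_lit 1) .nil)))) .nil)) 
(.lf (nat_lit 127699) (.g (nat_lit 2605) (.e (nat_lit 7582) (nat_lit 405) (.e (nat_lit 57464) (nat_lit 23) (.e (nat_lit 516151) (nat_lit 9) (.e (nat_lit 426171) (nat_lit 7) (.e (nat_lit 409631) (nat_lit 12) (.e (nat_lit 32798) (nat_lit 14) (.e (nat_lit 2936) (nat_lit 184) (.e (nat_lit 425987) (nat_lit 0) .nil)))))))) (.g (nat_lit 4) .nil .nil)))) (.nd (nat_lit 6) 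
(.lf (nat_lit 127667) (.g (nat_lit 2853) (.e (nat_lit 7581) (nat_lit 405) (.e (nat_lit 57480) (nat_lit 28) (.e (nat_lit 557104) (nat_lit 14) (.e (nat_lit 180229) (nat_lit 0) (.e (nat_lit 5953) (nat_lit 322) .nil))))) .nil)) 
(.lf (nat_lit 127731) (.g (nat_lit 1332) (.e (nat_lit 7583) (nat_lit 405) (.e (nat_lit 57476) (nat_lit 28) (.e (nat_lit 557103) (nat_lit 14) (.e (nat_lit 180233) (nat_lit 0) .nil)))) .nil))))) (.nd (nat_lit 4) (.nd (nat_lit 5) (.nd (nat_lit 6) 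
(.lf (nat_lit 127627) (.g (nat_lit 2333) (.e (nat_lit 7581) (nat_lit 405) (.e (nat_lit 57479) (nat_lit 28) (.e (nat_lit 557105) (nat_lit 14) (.e (nat_lit 180264) (nat_lit 21) (.e (nat_lit 663557) (nat_lit 0) .nil))))) .nil)) 
(.lf (nat_lit 127691) (.g (nat_lit 2040) (.e (nat_lit 7581) (nat_lit 405) (.e (nat_lit 57480) (nat_lit 28) (.e (nat_lit 557105) (nat_lit 14) (.e (nat_lit 180265) (nat_lit 21) (.e (nat_lit 663556) (nat_lit 0) .nil))))) .nil))) (.nd (nat_lit 6) 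
(.lf (nat_lit 127659) (.g (nat_lit 3055) (.e (nat_lit 7581) (nat_lit 405) (.e (nat_lit 57480) (nat_lit 28) (.e (nat_lit 557103) (nat_lit 14) (.e (nat_lit 180244) (nat_lit 5) (.e (nat_lit 532579) (nat_lit 26) (.e (nat_lit 426139) (nat_lit 3) (.e (nat_lit 212736) (nat_lit 0) .nil))))))) (.g (nat_lit 5) .nil .nil))) 
(.lf (nat_lit 127723) (.g (nat_lit 1200) (.e (nat_lit 7583) (nat_lit 405) (.e (nat_lit 57476) (nat_lit 28) (.e (nat_lit 557097) (nat_lit 13) (.e (nat_lit 172070) (nat_lit 4) .nil)))) .nil)))) (.nd (nat_lit 5) (.nd (nat_lit 6) 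
(.lf (nat_lit 127643) (.g (nat_lit 2617) (.e (nat_lit 7581) (nat_lit 405) (.e (nat_lit 57480) (nat_lit 28) (.e (nat_lit 557098) (nat_lit 13) (.e (nat_lit 172061) (nat_lit 1) (.e (nat_lit 164402) (nat_lit 256) (.e (nat_lit 57445) (nat_lit 19) (.e (nat_lit 393233) (nat_lit 17) .nil))))))) (.g (nat_lit 4) .nil .nil))) 
(.lf (nat_lit 127707) (.g (nat_lit 3507) (.e (nat_lit 7582) (nat_lit 405) (.e (nat_lit 57464) (nat_lit 23) (.e (nat_lit 516151) (nat_lit 9) (.e (nat_lit 426338) (nat_lit 14) (.e (nat_lit 491540) (nat_lit 3) (.e (nat_lit 98363) (nat_lit 26) (.e (nat_lit 425984) (nat_lit 0) .nil))))))) (.g (nat_lit 0) .nil .nil)))) (.nd (nat_lit 6) 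
(.lf (nat_lit 127675) (.g (nat_lit 230) (.e (nat_lit 7581) (nat_lit 405) (.e (nat_lit 57480) (nat_lit 28) (.e (nat_lit 557105) (nat_lit 14) .nil))) .nil)) 
(.lf (nat_lit 127739) (.g (nat_lit 2035) (.e (nat_lit 7583) (nat_lit 405) (.e (nat_lit 57476) (nat_lit 28) (.e (nat_lit 557104) (nat_lit 14) (.e (nat_lit 180228) (nat_lit 0) (.e (nat_lit 5953) (nat_lit 322) .nil))))) .nil)))))) (.nd (nat_lit 3) (.nd (nat_lit 4) (.nd (nat_lit 5) (.nd (nat_lit 6) 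
(.lf (nat_lit 127623) (.g (nat_lit 2792) (.e (nat_lit 7581) (nat_lit 405) (.e (nat_lit 57479) (nat_lit 28) (.e (nat_lit 557105) (nat_lit 14) (.e (nat_lit 180233) (nat_lit 0) (.e (nat_lit 5948) (nat_lit 322) .nil))))) .nil)) 
(.lf (nat_lit 127687) (.g (nat_lit 2163) (.e (nat_lit 7581) (nat_lit 405) (.e (nat_lit 57480) (nat_lit 28) (.e (nat_lit 557105) (nat_lit 14) (.e (nat_lit 180264) (nat_lit 21) (.e (nat_lit 663561) (nat_lit 0) (.e (nat_lit 1661) (nat_lit 115) (.e (nat_lit 393231) (nat_lit 17) .nil))))))) (.g (nat_lit 4) .nil .nil)))) (.nd (nat_lit 6) 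
(.lf (nat_lit 127655) (.g (nat_lit 2141) (.e (nat_lit 7581) (nat_lit 405) (.e (nat_lit 57480) (nat_lit 28) (.e (nat_lit 557103) (nat_lit 14) (.e (nat_lit 180228) (nat_lit 0) (.e (nat_lit 5951) (nat_lit 322) .nil))))) .nil)) 
(.lf (nat_lit 127719) (.g (nat_lit 1111) (.e (nat_lit 7583) (nat_lit 405) (.e (nat_lit 57476) (nat_lit 28) (.e (nat_lit 557097) (nat_lit 13) (.e (nat_lit 172045) (nat_lit 0) .nil)))) .nil)))) (.nd (nat_lit 5) (.nd (nat_lit 6) 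
(.lf (nat_lit 127639) (.g (nat_lit 1472) (.e (nat_lit 7581) (nat_lit 405) (.e (nat_lit 57480) (nat_lit 28) (.e (nat_lit 557098) (nat_lit 13) (.e (nat_lit 172060) (nat_lit 1) .nil)))) .nil)) 
(.lf (nat_lit 127703) (.g (nat_lit 3239) (.e (nat_lit 7582) (nat_lit 405) (.e (nat_lit 57464) (nat_lit 23) (.e (nat_lit 516151) (nat_lit 9) (.e (nat_lit 426286) (nat_lit 10) (.e (nat_lit 434245) (nat_lit 28) (.e (nat_lit 573458) (nat_lit 9) (.e (nat_lit 420) (nat_lit 32) (.e (nat_lit 425987) (nat_lit 0) .nil)))))))) (.g (nat_lit 7) .nil .nil)))) (.nd (nat_lit 6) 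
(.lf (nat_lit 127671) (.g (nat_lit 2484) (.e (nat_lit 7581) (nat_lit 405) (.e (nat_lit 57480) (nat_lit 28) (.e (nat_lit 557104) (nat_lit 14) (.e (nat_lit 180264) (nat_lit 21) .nil)))) .nil)) 
(.lf (nat_lit 127735) (.g (nat_lit 1150) (.e (nat_lit 7583) (nat_lit 405) (.e (nat_lit 57476) (nat_lit 28) (.e (nat_lit 557104) (nat_lit 14) (.e (nat_lit 180226) (nat_lit 0) .nil)))) .nil))))) (.nd (nat_lit 4) (.nd (nat_lit 5) (.nd (nat_lit 6) 
(.lf (nat_lit 127631) (.g (nat_lit 2385) (.e (nat_lit 7581) (nat_lit 405) (.e (nat_lit 57479) (nat_lit 28) (.e (nat_lit 557105) (nat_lit 14) (.e (nat_lit 180265) (nat_lit 21) (.e (nat_lit 663556) (nat_lit 0) .nil))))) .nil)) 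
(.lf (nat_lit 127695) (.g (nat_lit 2407) (.e (nat_lit 7582) (nat_lit 405) (.e (nat_lit 57464) (nat_lit 23) (.e (nat_lit 516151) (nat_lit 9) (.e (nat_lit 426170) (nat_lit 7) (.e (nat_lit 409631) (nat_lit 12) .nil))))) .nil))) (.nd (nat_lit 6) 
(.lf (nat_lit 127663) (.g (nat_lit 2458) (.e (nat_lit 7581) (nat_lit 405) (.e (nat_lit 57480) (nat_lit 28) (.e (nat_lit 557104) (nat_lit 14) (.e (nat_lit 180227) (nat_lit 0) .nil)))) .nil)) 
(.lf (nat_lit 127727) (.g (nat_lit 1376) (.e (nat_lit 7583) (nat_lit 405) (.e (nat_lit 57476) (nat_lit 28) (.e (nat_lit 557103) (nat_lit 14) (.e (nat_lit 180228) (nat_lit 0) .nil)))) .nil)))) (.nd (nat_lit 5) (.nd (nat_lit 6) 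
(.lf (nat_lit 127647) (.g (nat_lit 1459) (.e (nat_lit 7581) (nat_lit 405) (.e (nat_lit 57480) (nat_lit 28) (.e (nat_lit 557098) (nat_lit 13) (.e (nat_lit 172070) (nat_lit 4) .nil)))) .nil)) 
(.lf (nat_lit 127711) (.g (nat_lit 2187) (.e (nat_lit 7582) (nat_lit 405) (.e (nat_lit 57464) (nat_lit 23) (.e (nat_lit 516166) (nat_lit 12) (.e (nat_lit 450562) (nat_lit 0) (.e (nat_lit 4284) (nat_lit 253) (.e (nat_lit 57589) (nat_lit 73) (.e (nat_lit 425987) (nat_lit 0) .nil))))))) (.g (nat_lit 4) .nil .nil)))) (.nd (nat_lit 6) 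
(.lf (nat_lit 127679) (.g (nat_lit 1861) (.e (nat_lit 7581) (nat_lit 405) (.e (nat_lit 57480) (nat_lit 28) (.e (nat_lit 557105) (nat_lit 14) (.e (nat_lit 180227) (nat_lit 0) (.e (nat_lit 5811) (nat_lit 320) .nil))))) .nil)) 
(.lf (nat_lit 127743) (.g (nat_lit 2156) (.e (nat_lit 7583) (nat_lit 405) (.e (nat_lit 57476) (nat_lit 28) (.e (nat_lit 557104) (nat_lit 14) (.e (nat_lit 180229) (nat_lit 0) (.e (nat_lit 5953) (nat_lit 322) .nil))))) .nil)))))))))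

noncomputable def tv1710 : DT := (.nd (nat_lit 0) (.nd (nat_lit 1) (.nd (nat_lit 2) (.nd (nat_lit 3) (.nd (nat_lit 4) (.nd (nat_lit 5) 
(.lf (nat_lit 127744) (.g (nat_lit 1591) (.e (nat_lit 7583) (nat_lit 405) (.e (nat_lit 57476) (nat_lit 28) (.e (nat_lit 557104) (nat_lit 14) (.e (nat_lit 180233) (nat_lit 0) (.e (nat_lit 5949) (nat_lit 322) .nil))))) .nil)) 
(.lf (nat_lit 127776) (.g (nat_lit 1581) (.e (nat_lit 7585) (nat_lit 406) (.e (nat_lit 65571) (nat_lit 3) (.e (nat_lit 98320) (nat_lit 17) (.e (nat_lit 7591) (nat_lit 407) .nil)))) .nil))) (.nd (nat_lit 5) 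
(.lf (nat_lit 127760) (.g (nat_lit 2638) (.e (nat_lit 7936) (nat_lit 405) (.e (nat_lit 57478) (nat_lit 28) (.e (nat_lit 557098) (nat_lit 13) (.e (nat_lit 172067) (nat_lit 3) (.e (nat_lit 204809) (nat_lit 9) .nil))))) .nil)) 
(.lf (nat_lit 127792) (.g (nat_lit 1109) (.e (nat_lit 7586) (nat_lit 406) (.e (nat_lit 65653) (nat_lit 27) (.e (nat_lit 426010) (nat_lit 0) (.e (nat_lit 7587) (nat_lit 406) (.e (nat_lit 65652) (nat_lit 27) (.e (nat_lit 425987) (nat_lit 0) .nil)))))) (.g (nat_lit 4) .nil .nil))))) (.nd (nat_lit 4) (.nd (nat_lit 5) 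
(.lf (nat_lit 127752) (.g (nat_lit 1862) (.e (nat_lit 7936) (nat_lit 405) (.e (nat_lit 57464) (nat_lit 23) (.e (nat_lit 516151) (nat_lit 9) (.e (nat_lit 426338) (nat_lit 14) (.e (nat_lit 491537) (nat_lit 2) .nil))))) .nil)) 
(.lf (nat_lit 127784) (.g (nat_lit 1031) (.e (nat_lit 7586) (nat_lit 406) (.e (nat_lit 65653) (nat_lit 27) (.e (nat_lit 426009) (nat_lit 0) (.e (nat_lit 7587) (nat_lit 406) (.e (nat_lit 65652) (nat_lit 27) (.e (nat_lit 425984) (nat_lit 0) .nil)))))) (.g (nat_lit 5) .nil .nil)))) (.nd (nat_lit 5) 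
(.lf (nat_lit 127768) (.g (nat_lit 2480) (.e (nat_lit 7936) (nat_lit 405) (.e (nat_lit 57479) (nat_lit 28) (.e (nat_lit 557105) (nat_lit 14) (.e (nat_lit 180265) (nat_lit 21) (.e (nat_lit 663555) (nat_lit 0) .nil))))) .nil)) 
(.lf (nat_lit 127800) (.g (nat_lit 2349) (.e (nat_lit 7586) (nat_lit 406) (.e (nat_lit 65653) (nat_lit 27) (.e (nat_lit 426011) (nat_lit 0) (.e (nat_lit 7587) (nat_lit 406) (.e (nat_lit 65652) (nat_lit 27) (.e (nat_lit 425987) (nat_lit 0) .nil)))))) (.g (nat_lit 6) .nil .nil)))))) (.nd (nat_lit 3) (.nd (nat_lit 4) (.nd (nat_lit 5) 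
(.lf (nat_lit 127748) (.g (nat_lit 1368) (.e (nat_lit 7583) (nat_lit 405) (.e (nat_lit 57476) (nat_lit 28) (.e (nat_lit 557104) (nat_lit 14) (.e (nat_lit 180265) (nat_lit 21) (.e (nat_lit 663552) (nat_lit 0) .nil))))) .nil)) 
(.lf (nat_lit 127780) (.g (nat_lit 2239) (.e (nat_lit 7585) (nat_lit 406) (.e (nat_lit 65571) (nat_lit 3) (.e (nat_lit 98389) (nat_lit 33) (.e (nat_lit 491560) (nat_lit 10) (.e (nat_lit 344118) (nat_lit 21) .nil))))) .nil))) (.nd (nat_lit 5) 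
(.lf (nat_lit 127764) (.g (nat_lit 2810) (.e (nat_lit 7936) (nat_lit 405) (.e (nat_lit 57479) (nat_lit 28) (.e (nat_lit 557100) (nat_lit 13) (.e (nat_lit 172065) (nat_lit 3) (.e (nat_lit 204809) (nat_lit 9) .nil))))) .nil)) 
(.lf (nat_lit 127796) (.g (nat_lit 1226) (.e (nat_lit 7586) (nat_lit 406) (.e (nat_lit 65653) (nat_lit 27) (.e (nat_lit 426010) (nat_lit 0) (.e (nat_lit 7589) (nat_lit 406) (.e (nat_lit 65652) (nat_lit 27) (.e (nat_lit 425987) (nat_lit 0) .nil)))))) (.g (nat_lit 6) .nil .nil))))) (.nd (nat_lit 4) (.nd (nat_lit 5) 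
(.lf (nat_lit 127756) (.g (nat_lit 1920) (.e (nat_lit 7936) (nat_lit 405) (.e (nat_lit 57476) (nat_lit 28) (.e (nat_lit 557103) (nat_lit 14) (.e (nat_lit 180244) (nat_lit 5) (.e (nat_lit 532579) (nat_lit 26) .nil))))) .nil)) 
(.lf (nat_lit 127788) (.g (nat_lit 1150) (.e (nat_lit 7586) (nat_lit 406) (.e (nat_lit 65653) (nat_lit 27) (.e (nat_lit 426009) (nat_lit 0) (.e (nat_lit 7589) (nat_lit 406) (.e (nat_lit 65652) (nat_lit 27) (.e (nat_lit 425984) (nat_lit 0) .nil)))))) (.g (nat_lit 0) .nil .nil)))) (.nd (nat_lit 5) 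
(.lf (nat_lit 127772) (.g (nat_lit 1630) (.e (nat_lit 7936) (nat_lit 405) (.e (nat_lit 57480) (nat_lit 28) (.e (nat_lit 557104) (nat_lit 14) (.e (nat_lit 180244) (nat_lit 5) .nil)))) .nil)) 
(.lf (nat_lit 127804) (.g (nat_lit 2022) (.e (nat_lit 7586) (nat_lit 406) (.e (nat_lit 65653) (nat_lit 27) (.e (nat_lit 426011) (nat_lit 0) (.e (nat_lit 7589) (nat_lit 406) (.e (nat_lit 65652) (nat_lit 27) (.e (nat_lit 425987) (nat_lit 0) .nil)))))) (.g (nat_lit 0) .nil .nil))))))) (.nd (nat_lit 2) (.nd (nat_lit 3) (.nd (nat_lit 4) (.nd (nat_lit 5) 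
(.lf (nat_lit 127746) (.g (nat_lit 1255) (.e (nat_lit 7583) (nat_lit 405) (.e (nat_lit 57476) (nat_lit 28) (.e (nat_lit 557104) (nat_lit 14) (.e (nat_lit 180263) (nat_lit 21) .nil)))) .nil)) 
(.lf (nat_lit 127778) (.g (nat_lit 1741) (.e (nat_lit 7585) (nat_lit 406) (.e (nat_lit 65571) (nat_lit 3) (.e (nat_lit 98350) (nat_lit 24) (.e (nat_lit 409617) (nat_lit 10) .nil)))) .nil))) (.nd (nat_lit 5) 
(.lf (nat_lit 127762) (.g (nat_lit 1447) (.e (nat_lit 7936) (nat_lit 405) (.e (nat_lit 57478) (nat_lit 28) (.e (nat_lit 557105) (nat_lit 14) (.e (nat_lit 180264) (nat_lit 21) .nil)))) .nil)) 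
(.lf (nat_lit 127794) (.g (nat_lit 1091) (.e (nat_lit 7586) (nat_lit 406) (.e (nat_lit 65653) (nat_lit 27) (.e (nat_lit 426010) (nat_lit 0) (.e (nat_lit 7587) (nat_lit 406) (.e (nat_lit 65652) (nat_lit 27) (.e (nat_lit 425990) (nat_lit 0) .nil)))))) (.g (nat_lit 4) .nil .nil))))) (.nd (nat_lit 4) (.nd (nat_lit 5) 
(.lf (nat_lit 127754) (.g (nat_lit 2010) (.e (nat_lit 7936) (nat_lit 405) (.e (nat_lit 57464) (nat_lit 23) (.e (nat_lit 516165) (nat_lit 12) (.e (nat_lit 450588) (nat_lit 10) (.e (nat_lit 573471) (nat_lit 11) .nil))))) .nil)) 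
(.lf (nat_lit 127786) (.g (nat_lit 1000) (.e (nat_lit 7586) (nat_lit 406) (.e (nat_lit 65653) (nat_lit 27) (.e (nat_lit 426009) (nat_lit 0) (.e (nat_lit 7587) (nat_lit 406) (.e (nat_lit 65652) (nat_lit 27) (.e (nat_lit 425989) (nat_lit 0) .nil)))))) (.g (nat_lit 4) .nil .nil)))) (.nd (nat_lit 5) 
(.lf (nat_lit 127770) (.g (nat_lit 1972) (.e (nat_lit 7936) (nat_lit 405) (.e (nat_lit 57480) (nat_lit 28) (.e (nat_lit 557098) (nat_lit 13) (.e (nat_lit 172067) (nat_lit 3) (.e (nat_lit 204809) (nat_lit 9) .nil))))) .nil)) 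
(.lf (nat_lit 127802) (.g (nat_lit 2329) (.e (nat_lit 7586) (nat_lit 406) (.e (nat_lit 65653) (nat_lit 27) (.e (nat_lit 426011) (nat_lit 0) (.e (nat_lit 7587) (nat_lit 406) (.e (nat_lit 65652) (nat_lit 27) (.e (nat_lit 425990) (nat_lit 0) .nil)))))) (.g (nat_lit 6) .nil .nil)))))) (.nd (nat_lit 3) (.nd (nat_lit 4) (.nd (nat_lit 5) 
(.lf (nat_lit 127750) (.g (nat_lit 2645) (.e (nat_lit 7936) (nat_lit 405) (.e (nat_lit 57464) (nat_lit 23) (.e (nat_lit 516151) (nat_lit 9) (.e (nat_lit 426285) (nat_lit 10) (.e (nat_lit 434238) (nat_lit 25) .nil))))) .nil)) 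
(.lf (nat_lit 127782) (.g (nat_lit 1147) (.e (nat_lit 7586) (nat_lit 406) (.e (nat_lit 65568) (nat_lit 2) (.e (nat_lit 98048) (nat_lit 2) (.e (nat_lit 16465) (nat_lit 13) (.e (nat_lit 491264) (nat_lit 0) .nil))))) (.g (nat_lit 4) .nil .nil)))) (.nd (nat_lit 5) 
(.lf (nat_lit 127766) (.g (nat_lit 2185) (.e (nat_lit 7936) (nat_lit 405) (.e (nat_lit 57479) (nat_lit 28) (.e (nat_lit 557103) (nat_lit 14) (.e (nat_lit 180244) (nat_lit 5) .nil)))) .nil)) 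
(.lf (nat_lit 127798) (.g (nat_lit 1217) (.e (nat_lit 7586) (nat_lit 406) (.e (nat_lit 65653) (nat_lit 27) (.e (nat_lit 426010) (nat_lit 0) (.e (nat_lit 7589) (nat_lit 406) (.e (nat_lit 65652) (nat_lit 27) (.e (nat_lit 425990) (nat_lit 0) .nil)))))) (.g (nat_lit 6) .nil .nil))))) (.nd (nat_lit 4) (.nd (nat_lit 5) 
(.lf (nat_lit 127758) (.g (nat_lit 1997) (.e (nat_lit 7936) (nat_lit 405) (.e (nat_lit 57477) (nat_lit 28) (.e (nat_lit 557104) (nat_lit 14) (.e (nat_lit 180244) (nat_lit 5) (.e (nat_lit 532579) (nat_lit 26) .nil))))) .nil)) 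
(.lf (nat_lit 127790) (.g (nat_lit 1132) (.e (nat_lit 7586) (nat_lit 406) (.e (nat_lit 65653) (nat_lit 27) (.e (nat_lit 426009) (nat_lit 0) (.e (nat_lit 7589) (nat_lit 406) (.e (nat_lit 65652) (nat_lit 27) (.e (nat_lit 425989) (nat_lit 0) .nil)))))) (.g (nat_lit 0) .nil .nil)))) (.nd (nat_lit 5) 
(.lf (nat_lit 127774) (.g (nat_lit 1097) (.e (nat_lit 7585) (nat_lit 406) (.e (nat_lit 65568) (nat_lit 2) (.e (nat_lit 98048) (nat_lit 2) (.e (nat_lit 16465) (nat_lit 13) (.e (nat_lit 491264) (nat_lit 0) .nil))))) (.g (nat_lit 4) .nil .nil))) 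
(.lf (nat_lit 127806) (.g (nat_lit 2017) (.e (nat_lit 7586) (nat_lit 406) (.e (nat_lit 65653) (nat_lit 27) (.e (nat_lit 426011) (nat_lit 0) (.e (nat_lit 7589) (nat_lit 406) (.e (nat_lit 65652) (nat_lit 27) (.e (nat_lit 425990) (nat_lit 0) .nil)))))) (.g (nat_lit 6) .nil .nil)))))))) (.nd (nat_lit 1) (.nd (nat_lit 2) (.nd (nat_lit 3) (.nd (nat_lit 4) (.nd (nat_lit 5) 
(.lf (nat_lit 127745) (.g (nat_lit 1255) (.e (nat_lit 7583) (nat_lit 405) (.e (nat_lit 57476) (nat_lit 28) (.e (nat_lit 557104) (nat_lit 14) (.e (nat_lit 180262) (nat_lit 21) .nil)))) .nil)) 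
(.lf (nat_lit 127777) (.g (nat_lit 1607) (.e (nat_lit 7585) (nat_lit 406) (.e (nat_lit 65571) (nat_lit 3) (.e (nat_lit 98320) (nat_lit 17) (.e (nat_lit 7593) (nat_lit 407) .nil)))) .nil))) (.nd (nat_lit 5) 
(.lf (nat_lit 127761) (.g (nat_lit 2305) (.e (nat_lit 7936) (nat_lit 405) (.e (nat_lit 57478) (nat_lit 28) (.e (nat_lit 557100) (nat_lit 13) (.e (nat_lit 172065) (nat_lit 3) (.e (nat_lit 204809) (nat_lit 9) .nil))))) .nil)) 
(.lf (nat_lit 127793) (.g (nat_lit 1160) (.e (nat_lit 7586) (nat_lit 406) (.e (nat_lit 65653) (nat_lit 27) (.e (nat_lit 426010) (nat_lit 0) (.e (nat_lit 7587) (nat_lit 406) (.e (nat_lit 65652) (nat_lit 27) (.e (nat_lit 425989) (nat_lit 0) .nil)))))) (.g (nat_lit 5) .nil .nil))))) (.nd (nat_lit 4) (.nd (nat_lit 5) 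
(.lf (nat_lit 127753) (.g (nat_lit 1547) (.e (nat_lit 7936) (nat_lit 405) (.e (nat_lit 57464) (nat_lit 23) (.e (nat_lit 516165) (nat_lit 12) (.e (nat_lit 450579) (nat_lit 5) (.e (nat_lit 532568) (nat_lit 16) .nil))))) .nil)) 
(.lf (nat_lit 127785) (.g (nat_lit 950) (.e (nat_lit 7586) (nat_lit 406) (.e (nat_lit 65653) (nat_lit 27) (.e (nat_lit 426009) (nat_lit 0) (.e (nat_lit 7587) (nat_lit 406) (.e (nat_lit 65652) (nat_lit 27) (.e (nat_lit 425987) (nat_lit 0) .nil)))))) (.g (nat_lit 4) .nil .nil)))) (.nd (nat_lit 5) 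
(.lf (nat_lit 127769) (.g (nat_lit 2410) (.e (nat_lit 7936) (nat_lit 405) (.e (nat_lit 57479) (nat_lit 28) (.e (nat_lit 557105) (nat_lit 14) (.e (nat_lit 180265) (nat_lit 21) (.e (nat_lit 663561) (nat_lit 0) .nil))))) .nil)) 
(.lf (nat_lit 127801) (.g (nat_lit 2394) (.e (nat_lit 7586) (nat_lit 406) (.e (nat_lit 65653) (nat_lit 27) (.e (nat_lit 426011) (nat_lit 0) (.e (nat_lit 7587) (nat_lit 406) (.e (nat_lit 65652) (nat_lit 27) (.e (nat_lit 425989) (nat_lit 0) .nil)))))) (.g (nat_lit 6) .nil .nil)))))) (.nd (nat_lit 3) (.nd (nat_lit 4) (.nd (nat_lit 5) 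
(.lf (nat_lit 127749) (.g (nat_lit 1899) (.e (nat_lit 7936) (nat_lit 405) (.e (nat_lit 57464) (nat_lit 23) (.e (nat_lit 516151) (nat_lit 9) (.e (nat_lit 426170) (nat_lit 7) (.e (nat_lit 409631) (nat_lit 12) .nil))))) .nil)) 
(.lf (nat_lit 127781) (.g (nat_lit 1798) (.e (nat_lit 7585) (nat_lit 406) (.e (nat_lit 65580) (nat_lit 6) (.e (nat_lit 147463) (nat_lit 9) (.e (nat_lit 249) (nat_lit 21) (.e (nat_lit 336215) (nat_lit 13) (.e (nat_lit 401152) (nat_lit 17) .nil)))))) (.g (nat_lit 5) .nil .nil)))) (.nd (nat_lit 5) 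
(.lf (nat_lit 127765) (.g (nat_lit 3166) (.e (nat_lit 7936) (nat_lit 405) (.e (nat_lit 57479) (nat_lit 28) (.e (nat_lit 557100) (nat_lit 13) (.e (nat_lit 172067) (nat_lit 3) (.e (nat_lit 204809) (nat_lit 9) .nil))))) .nil)) 
(.lf (nat_lit 127797) (.g (nat_lit 1280) (.e (nat_lit 7586) (nat_lit 406) (.e (nat_lit 65653) (nat_lit 27) (.e (nat_lit 426010) (nat_lit 0) (.e (nat_lit 7589) (nat_lit 406) (.e (nat_lit 65652) (nat_lit 27) (.e (nat_lit 425989) (nat_lit 0) .nil)))))) (.g (nat_lit 6) .nil .nil))))) (.nd (nat_lit 4) (.nd (nat_lit 5) 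
(.lf (nat_lit 127757) (.g (nat_lit 1691) (.e (nat_lit 7936) (nat_lit 405) (.e (nat_lit 57477) (nat_lit 28) (.e (nat_lit 557103) (nat_lit 14) (.e (nat_lit 180244) (nat_lit 5) (.e (nat_lit 532579) (nat_lit 26) .nil))))) .nil)) 
(.lf (nat_lit 127789) (.g (nat_lit 1079) (.e (nat_lit 7586) (nat_lit 406) (.e (nat_lit 65653) (nat_lit 27) (.e (nat_lit 426009) (nat_lit 0) (.e (nat_lit 7589) (nat_lit 406) (.e (nat_lit 65652) (nat_lit 27) (.e (nat_lit 425987) (nat_lit 0) .nil)))))) (.g (nat_lit 0) .nil .nil)))) (.nd (nat_lit 5) 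
(.lf (nat_lit 127773) (.g (nat_lit 1426) (.e (nat_lit 7584) (nat_lit 406) (.e (nat_lit 65568) (nat_lit 2) (.e (nat_lit 98048) (nat_lit 2) (.e (nat_lit 16465) (nat_lit 13) (.e (nat_lit 491264) (nat_lit 0) .nil))))) (.g (nat_lit 4) .nil .nil))) 
(.lf (nat_lit 127805) (.g (nat_lit 2072) (.e (nat_lit 7586) (nat_lit 406) (.e (nat_lit 65653) (nat_lit 27) (.e (nat_lit 426011) (nat_lit 0) (.e (nat_lit 7589) (nat_lit 406) (.e (nat_lit 65652) (nat_lit 27) (.e (nat_lit 425989) (nat_lit 0) .nil)))))) (.g (nat_lit 0) .nil .nil))))))) (.nd (nat_lit 2) (.nd (nat_lit 3) (.nd (nat_lit 4) (.nd (nat_lit 5) 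
(.lf (nat_lit 127747) (.g (nat_lit 1062) (.e (nat_lit 7583) (nat_lit 405) (.e (nat_lit 57476) (nat_lit 28) (.e (nat_lit 557104) (nat_lit 14) (.e (nat_lit 180265) (nat_lit 21) .nil)))) .nil)) 
(.lf (nat_lit 127779) (.g (nat_lit 2926) (.e (nat_lit 7585) (nat_lit 406) (.e (nat_lit 65571) (nat_lit 3) (.e (nat_lit 98389) (nat_lit 33) (.e (nat_lit 491558) (nat_lit 10) (.e (nat_lit 344117) (nat_lit 21) (.e (nat_lit 516098) (nat_lit 0) .nil)))))) (.g (nat_lit 5) .nil .nil)))) (.nd (nat_lit 5) 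
(.lf (nat_lit 127763) (.g (nat_lit 1627) (.e (nat_lit 7936) (nat_lit 405) (.e (nat_lit 57478) (nat_lit 28) (.e (nat_lit 557105) (nat_lit 14) (.e (nat_lit 180265) (nat_lit 21) (.e (nat_lit 663556) (nat_lit 0) .nil))))) .nil)) 
(.lf (nat_lit 127795) (.g (nat_lit 1291) (.e (nat_lit 7586) (nat_lit 406) (.e (nat_lit 65653) (nat_lit 27) (.e (nat_lit 426010) (nat_lit 0) (.e (nat_lit 7589) (nat_lit 406) (.e (nat_lit 65652) (nat_lit 27) (.e (nat_lit 425984) (nat_lit 0) .nil)))))) (.g (nat_lit 6) .nil .nil))))) (.nd (nat_lit 4) (.nd (nat_lit 5) 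
(.lf (nat_lit 127755) (.g (nat_lit 4493) (.e (nat_lit 7936) (nat_lit 405) (.e (nat_lit 57476) (nat_lit 28) (.e (nat_lit 557087) (nat_lit 11) (.e (nat_lit 24625) (nat_lit 9) (.e (nat_lit 336324) (nat_lit 18) .nil))))) .nil)) 
(.lf (nat_lit 127787) (.g (nat_lit 934) (.e (nat_lit 7586) (nat_lit 406) (.e (nat_lit 65653) (nat_lit 27) (.e (nat_lit 426009) (nat_lit 0) (.e (nat_lit 7587) (nat_lit 406) (.e (nat_lit 65652) (nat_lit 27) (.e (nat_lit 425990) (nat_lit 0) .nil)))))) (.g (nat_lit 4) .nil .nil)))) (.nd (nat_lit 5) 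
(.lf (nat_lit 127771) (.g (nat_lit 2067) (.e (nat_lit 7936) (nat_lit 405) (.e (nat_lit 57480) (nat_lit 28) (.e (nat_lit 557103) (nat_lit 14) (.e (nat_lit 180244) (nat_lit 5) (.e (nat_lit 532579) (nat_lit 26) .nil))))) .nil)) 
(.lf (nat_lit 127803) (.g (nat_lit 2083) (.e (nat_lit 7586) (nat_lit 406) (.e (nat_lit 65653) (nat_lit 27) (.e (nat_lit 426011) (nat_lit 0) (.e (nat_lit 7589) (nat_lit 406) (.e (nat_lit 65652) (nat_lit 27) (.e (nat_lit 425984) (nat_lit 0) .nil)))))) (.g (nat_lit 0) .nil .nil)))))) (.nd (nat_lit 3) (.nd (nat_lit 4) (.nd (nat_lit 5) 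
(.lf (nat_lit 127751) (.g (nat_lit 1438) (.e (nat_lit 7936) (nat_lit 405) (.e (nat_lit 57464) (nat_lit 23) (.e (nat_lit 516151) (nat_lit 9) (.e (nat_lit 426286) (nat_lit 10) (.e (nat_lit 434245) (nat_lit 28) .nil))))) .nil)) 
(.lf (nat_lit 127783) (.g (nat_lit 230) (.e (nat_lit 7586) (nat_lit 406) (.e (nat_lit 65653) (nat_lit 27) (.e (nat_lit 426009) (nat_lit 0) .nil))) .nil))) (.nd (nat_lit 5) 
(.lf (nat_lit 127767) (.g (nat_lit 1661) (.e (nat_lit 7936) (nat_lit 405) (.e (nat_lit 57479) (nat_lit 28) (.e (nat_lit 557105) (nat_lit 14) (.e (nat_lit 180265) (nat_lit 21) .nil)))) .nil)) 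
(.lf (nat_lit 127799) (.g (nat_lit 1160) (.e (nat_lit 7586) (nat_lit 406) (.e (nat_lit 65653) (nat_lit 27) (.e (nat_lit 426011) (nat_lit 0) (.e (nat_lit 7587) (nat_lit 406) .nil)))) .nil)))) (.nd (nat_lit 4) (.nd (nat_lit 5) 
(.lf (nat_lit 127759) (.g (nat_lit 1304) (.e (nat_lit 7936) (nat_lit 405) (.e (nat_lit 57478) (nat_lit 28) (.e (nat_lit 557098) (nat_lit 13) (.e (nat_lit 172065) (nat_lit 3) .nil)))) .nil)) 
(.lf (nat_lit 127791) (.g (nat_lit 1072) (.e (nat_lit 7586) (nat_lit 406) (.e (nat_lit 65653) (nat_lit 27) (.e (nat_lit 426009) (nat_lit 0) (.e (nat_lit 7589) (nat_lit 406) (.e (nat_lit 65652) (nat_lit 27) (.e (nat_lit 425990) (nat_lit 0) .nil)))))) (.g (nat_lit 6) .nil .nil)))) (.nd (nat_lit 5) 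
(.lf (nat_lit 127775) (.g (nat_lit 859) (.e (nat_lit 7585) (nat_lit 406) (.e (nat_lit 65571) (nat_lit 3) (.e (nat_lit 98319) (nat_lit 17) .nil))) .nil)) 
(.lf (nat_lit 127807) (.g (nat_lit 1461) (.e (nat_lit 7586) (nat_lit 406) (.e (nat_lit 65653) (nat_lit 27) (.e (nat_lit 426011) (nat_lit 0) (.e (nat_lit 7589) (nat_lit 406) (.e (nat_lit 73472) (nat_lit 27) .nil))))) .nil))))))))

noncomputable def tv1711 : DT := (.nd (nat_lit 0) (.nd (nat_lit 1) (.nd (nat_lit 2) (.nd (nat_lit 3) (.nd (nat_lit 4) (.nd (nat_lit 5) 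
(.lf (nat_lit 127808) (.g (nat_lit 1892) (.e (nat_lit 7586) (nat_lit 406) (.e (nat_lit 65653) (nat_lit 27) (.e (nat_lit 426012) (nat_lit 0) (.e (nat_lit 7587) (nat_lit 406) (.e (nat_lit 65652) (nat_lit 27) (.e (nat_lit 425984) (nat_lit 0) .nil)))))) (.g (nat_lit 6) .nil .nil))) 
(.lf (nat_lit 127840) (.g (nat_lit 1879) (.e (nat_lit 7586) (nat_lit 406) (.e (nat_lit 65653) (nat_lit 27) (.e (nat_lit 426344) (nat_lit 14) (.e (nat_lit 491556) (nat_lit 9) (.e (nat_lit 343808) (nat_lit 27) .nil))))) .nil))) (.nd (nat_lit 5) 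
(.lf (nat_lit 127824) (.g (nat_lit 2518) (.e (nat_lit 7586) (nat_lit 406) (.e (nat_lit 65653) (nat_lit 27) (.e (nat_lit 426342) (nat_lit 14) (.e (nat_lit 491549) (nat_lit 9) (.e (nat_lit 336414) (nat_lit 27) (.e (nat_lit 425987) (nat_lit 0) .nil)))))) (.g (nat_lit 5) .nil .nil))) 
(.lf (nat_lit 127856) (.g (nat_lit 2099) (.e (nat_lit 7587) (nat_lit 406) (.e (nat_lit 65571) (nat_lit 3) (.e (nat_lit 98350) (nat_lit 24) (.e (nat_lit 409640) (nat_lit 17) .nil)))) .nil)))) (.nd (nat_lit 4) (.nd (nat_lit 5) 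
(.lf (nat_lit 127816) (.g (nat_lit 2133) (.e (nat_lit 7586) (nat_lit 406) (.e (nat_lit 65653) (nat_lit 27) (.e (nat_lit 426012) (nat_lit 0) (.e (nat_lit 7589) (nat_lit 406) (.e (nat_lit 65652) (nat_lit 27) (.e (nat_lit 425990) (nat_lit 0) .nil)))))) (.g (nat_lit 6) .nil .nil))) 
(.lf (nat_lit 127848) (.g (nat_lit 3151) (.e (nat_lit 7587) (nat_lit 406) (.e (nat_lit 65571) (nat_lit 3) (.e (nat_lit 98350) (nat_lit 24) (.e (nat_lit 409616) (nat_lit 10) (.e (nat_lit 5345) (nat_lit 298) .nil))))) .nil))) (.nd (nat_lit 5) 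
(.lf (nat_lit 127832) (.g (nat_lit 1617) (.e (nat_lit 7586) (nat_lit 406) (.e (nat_lit 65653) (nat_lit 27) (.e (nat_lit 426343) (nat_lit 14) (.e (nat_lit 491556) (nat_lit 9) (.e (nat_lit 343808) (nat_lit 27) .nil))))) .nil)) 
(.lf (nat_lit 127864) (.g (nat_lit 4731) (.e (nat_lit 7587) (nat_lit 406) (.e (nat_lit 65571) (nat_lit 3) (.e (nat_lit 98388) (nat_lit 33) (.e (nat_lit 491560) (nat_lit 10) (.e (nat_lit 344117) (nat_lit 21) (.e (nat_lit 516098) (nat_lit 0) .nil)))))) (.g (nat_lit 6) .nil .nil)))))) (.nd (nat_lit 3) (.nd (nat_lit 4) (.nd (nat_lit 5) 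
(.lf (nat_lit 127812) (.g (nat_lit 1244) (.e (nat_lit 7586) (nat_lit 406) (.e (nat_lit 65653) (nat_lit 27) (.e (nat_lit 426012) (nat_lit 0) (.e (nat_lit 7587) (nat_lit 406) (.e (nat_lit 73472) (nat_lit 27) .nil))))) .nil)) 
(.lf (nat_lit 127844) (.g (nat_lit 4022) (.e (nat_lit 7587) (nat_lit 406) (.e (nat_lit 65571) (nat_lit 3) (.e (nat_lit 98320) (nat_lit 17) (.e (nat_lit 7593) (nat_lit 407) (.e (nat_lit 73746) (nat_lit 3) (.e (nat_lit 516097) (nat_lit 0) .nil)))))) (.g (nat_lit 0) .nil .nil)))) (.nd (nat_lit 5) 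
(.lf (nat_lit 127828) (.g (nat_lit 3518) (.e (nat_lit 7586) (nat_lit 406) (.e (nat_lit 65653) (nat_lit 27) (.e (nat_lit 426343) (nat_lit 14) (.e (nat_lit 491549) (nat_lit 9) (.e (nat_lit 336414) (nat_lit 27) (.e (nat_lit 425987) (nat_lit 0) .nil)))))) (.g (nat_lit 6) .nil .nil))) 
(.lf (nat_lit 127860) (.g (nat_lit 3689) (.e (nat_lit 7587) (nat_lit 406) (.e (nat_lit 65571) (nat_lit 3) (.e (nat_lit 98350) (nat_lit 24) (.e (nat_lit 409641) (nat_lit 17) (.e (nat_lit 294931) (nat_lit 3) (.e (nat_lit 98320) (nat_lit 17) .nil)))))) (.g (nat_lit 4) .nil .nil))))) (.nd (nat_lit 4) (.nd (nat_lit 5) 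
(.lf (nat_lit 127820) (.g (nat_lit 2766) (.e (nat_lit 7586) (nat_lit 406) (.e (nat_lit 65653) (nat_lit 27) (.e (nat_lit 426341) (nat_lit 14) (.e (nat_lit 491549) (nat_lit 9) (.e (nat_lit 336414) (nat_lit 27) (.e (nat_lit 425987) (nat_lit 0) .nil)))))) (.g (nat_lit 5) .nil .nil))) 
(.lf (nat_lit 127852) (.g (nat_lit 3801) (.e (nat_lit 7587) (nat_lit 406) (.e (nat_lit 65571) (nat_lit 3) (.e (nat_lit 98350) (nat_lit 24) (.e (nat_lit 409616) (nat_lit 10) (.e (nat_lit 5355) (nat_lit 298) (.e (nat_lit 1253) (nat_lit 92) (.e (nat_lit 98319) (nat_lit 17) .nil))))))) (.g (nat_lit 5) .nil .nil)))) (.nd (nat_lit 5) 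
(.lf (nat_lit 127836) (.g (nat_lit 1800) (.e (nat_lit 7586) (nat_lit 406) (.e (nat_lit 65653) (nat_lit 27) (.e (nat_lit 426344) (nat_lit 14) (.e (nat_lit 491552) (nat_lit 9) (.e (nat_lit 336410) (nat_lit 27) (.e (nat_lit 425987) (nat_lit 0) .nil)))))) (.g (nat_lit 0) .nil .nil))) 
(.lf (nat_lit 127868) (.g (nat_lit 4397) (.e (nat_lit 7587) (nat_lit 406) (.e (nat_lit 65571) (nat_lit 3) (.e (nat_lit 98389) (nat_lit 33) (.e (nat_lit 491558) (nat_lit 10) (.e (nat_lit 344117) (nat_lit 21) (.e (nat_lit 516097) (nat_lit 0) .nil)))))) (.g (nat_lit 0) .nil .nil))))))) (.nd (nat_lit 2) (.nd (nat_lit 3) (.nd (nat_lit 4) (.nd (nat_lit 5) 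
(.lf (nat_lit 127810) (.g (nat_lit 1865) (.e (nat_lit 7586) (nat_lit 406) (.e (nat_lit 65653) (nat_lit 27) (.e (nat_lit 426012) (nat_lit 0) (.e (nat_lit 7587) (nat_lit 406) (.e (nat_lit 65652) (nat_lit 27) (.e (nat_lit 425989) (nat_lit 0) .nil)))))) (.g (nat_lit 6) .nil .nil))) 
(.lf (nat_lit 127842) (.g (nat_lit 929) (.e (nat_lit 7587) (nat_lit 406) (.e (nat_lit 65571) (nat_lit 3) (.e (nat_lit 98319) (nat_lit 17) .nil))) .nil))) (.nd (nat_lit 5) 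
(.lf (nat_lit 127826) (.g (nat_lit 2803) (.e (nat_lit 7586) (nat_lit 406) (.e (nat_lit 65653) (nat_lit 27) (.e (nat_lit 426343) (nat_lit 14) (.e (nat_lit 491547) (nat_lit 9) (.e (nat_lit 336414) (nat_lit 27) (.e (nat_lit 425987) (nat_lit 0) .nil)))))) (.g (nat_lit 6) .nil .nil))) 
(.lf (nat_lit 127858) (.g (nat_lit 3259) (.e (nat_lit 7587) (nat_lit 406) (.e (nat_lit 65571) (nat_lit 3) (.e (nat_lit 98350) (nat_lit 24) (.e (nat_lit 409641) (nat_lit 17) (.e (nat_lit 294928) (nat_lit 2) .nil))))) .nil)))) (.nd (nat_lit 4) (.nd (nat_lit 5) 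
(.lf (nat_lit 127818) (.g (nat_lit 2128) (.e (nat_lit 7586) (nat_lit 406) (.e (nat_lit 65653) (nat_lit 27) (.e (nat_lit 426338) (nat_lit 14) (.e (nat_lit 491549) (nat_lit 9) (.e (nat_lit 336414) (nat_lit 27) .nil))))) .nil)) 
(.lf (nat_lit 127850) (.g (nat_lit 3092) (.e (nat_lit 7587) (nat_lit 406) (.e (nat_lit 65571) (nat_lit 3) (.e (nat_lit 98350) (nat_lit 24) (.e (nat_lit 409616) (nat_lit 10) (.e (nat_lit 5353) (nat_lit 298) (.e (nat_lit 1077) (nat_lit 81) (.e (nat_lit 1796) (nat_lit 119) (.e (nat_lit 516098) (nat_lit 0) .nil)))))))) (.g (nat_lit 4) .nil .nil)))) (.nd (nat_lit 5) 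
(.lf (nat_lit 127834) (.g (nat_lit 3070) (.e (nat_lit 7586) (nat_lit 406) (.e (nat_lit 65653) (nat_lit 27) (.e (nat_lit 426344) (nat_lit 14) (.e (nat_lit 491547) (nat_lit 9) (.e (nat_lit 336414) (nat_lit 27) (.e (nat_lit 425987) (nat_lit 0) .nil)))))) (.g (nat_lit 0) .nil .nil))) 
(.lf (nat_lit 127866) (.g (nat_lit 2812) (.e (nat_lit 7587) (nat_lit 406) (.e (nat_lit 65571) (nat_lit 3) (.e (nat_lit 98388) (nat_lit 33) (.e (nat_lit 491560) (nat_lit 10) (.e (nat_lit 344118) (nat_lit 21) (.e (nat_lit 516097) (nat_lit 0) .nil)))))) (.g (nat_lit 4) .nil .nil)))))) (.nd (nat_lit 3) (.nd (nat_lit 4) (.nd (nat_lit 5) 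
(.lf (nat_lit 127814) (.g (nat_lit 2142) (.e (nat_lit 7586) (nat_lit 406) (.e (nat_lit 65653) (nat_lit 27) (.e (nat_lit 426012) (nat_lit 0) (.e (nat_lit 7589) (nat_lit 406) (.e (nat_lit 65652) (nat_lit 27) (.e (nat_lit 425987) (nat_lit 0) .nil)))))) (.g (nat_lit 0) .nil .nil))) 
(.lf (nat_lit 127846) (.g (nat_lit 662) (.e (nat_lit 7587) (nat_lit 406) (.e (nat_lit 65571) (nat_lit 3) (.e (nat_lit 98350) (nat_lit 24) .nil))) .nil))) (.nd (nat_lit 5) 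
(.lf (nat_lit 127830) (.g (nat_lit 1512) (.e (nat_lit 7586) (nat_lit 406) (.e (nat_lit 65653) (nat_lit 27) (.e (nat_lit 426343) (nat_lit 14) (.e (nat_lit 491552) (nat_lit 9) (.e (nat_lit 336410) (nat_lit 27) (.e (nat_lit 425990) (nat_lit 0) .nil)))))) (.g (nat_lit 4) .nil .nil))) 
(.lf (nat_lit 127862) (.g (nat_lit 2014) (.e (nat_lit 7587) (nat_lit 406) (.e (nat_lit 65571) (nat_lit 3) (.e (nat_lit 98387) (nat_lit 33) (.e (nat_lit 491560) (nat_lit 10) (.e (nat_lit 344117) (nat_lit 21) .nil))))) .nil)))) (.nd (nat_lit 4) (.nd (nat_lit 5) 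
(.lf (nat_lit 127822) (.g (nat_lit 2703) (.e (nat_lit 7586) (nat_lit 406) (.e (nat_lit 65653) (nat_lit 27) (.e (nat_lit 426341) (nat_lit 14) (.e (nat_lit 491550) (nat_lit 9) (.e (nat_lit 336414) (nat_lit 27) (.e (nat_lit 425987) (nat_lit 0) .nil)))))) (.g (nat_lit 0) .nil .nil))) 
(.lf (nat_lit 127854) (.g (nat_lit 3534) (.e (nat_lit 7587) (nat_lit 406) (.e (nat_lit 65571) (nat_lit 3) (.e (nat_lit 98350) (nat_lit 24) (.e (nat_lit 409617) (nat_lit 10) (.e (nat_lit 5355) (nat_lit 298) (.e (nat_lit 1253) (nat_lit 92) (.e (nat_lit 98320) (nat_lit 17) .nil))))))) (.g (nat_lit 5) .nil .nil)))) (.nd (nat_lit 5) 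
(.lf (nat_lit 127838) (.g (nat_lit 1749) (.e (nat_lit 7586) (nat_lit 406) (.e (nat_lit 65653) (nat_lit 27) (.e (nat_lit 426344) (nat_lit 14) (.e (nat_lit 491552) (nat_lit 9) (.e (nat_lit 336410) (nat_lit 27) (.e (nat_lit 425990) (nat_lit 0) .nil)))))) (.g (nat_lit 6) .nil .nil))) 
(.lf (nat_lit 127870) (.g (nat_lit 4500) (.e (nat_lit 7587) (nat_lit 406) (.e (nat_lit 65571) (nat_lit 3) (.e (nat_lit 98389) (nat_lit 33) (.e (nat_lit 491560) (nat_lit 10) (.e (nat_lit 344117) (nat_lit 21) (.e (nat_lit 516097) (nat_lit 0) .nil)))))) (.g (nat_lit 6) .nil .nil)))))))) (.nd (nat_lit 1) (.nd (nat_lit 2) (.nd (nat_lit 3) (.nd (nat_lit 4) (.nd (nat_lit 5) 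
(.lf (nat_lit 127809) (.g (nat_lit 1813) (.e (nat_lit 7586) (nat_lit 406) (.e (nat_lit 65653) (nat_lit 27) (.e (nat_lit 426012) (nat_lit 0) (.e (nat_lit 7587) (nat_lit 406) (.e (nat_lit 65652) (nat_lit 27) (.e (nat_lit 425987) (nat_lit 0) .nil)))))) (.g (nat_lit 6) .nil .nil))) 
(.lf (nat_lit 127841) (.g (nat_lit 1470) (.e (nat_lit 7587) (nat_lit 406) (.e (nat_lit 65568) (nat_lit 2) (.e (nat_lit 98048) (nat_lit 2) (.e (nat_lit 16465) (nat_lit 13) (.e (nat_lit 491264) (nat_lit 0) .nil))))) (.g (nat_lit 4) .nil .nil)))) (.nd (nat_lit 5) 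
(.lf (nat_lit 127825) (.g (nat_lit 2927) (.e (nat_lit 7586) (nat_lit 406) (.e (nat_lit 65653) (nat_lit 27) (.e (nat_lit 426343) (nat_lit 14) (.e (nat_lit 491547) (nat_lit 9) (.e (nat_lit 336414) (nat_lit 27) (.e (nat_lit 425984) (nat_lit 0) .nil)))))) (.g (nat_lit 6) .nil .nil))) 
(.lf (nat_lit 127857) (.g (nat_lit 2898) (.e (nat_lit 7587) (nat_lit 406) (.e (nat_lit 65571) (nat_lit 3) (.e (nat_lit 98350) (nat_lit 24) (.e (nat_lit 409640) (nat_lit 17) (.e (nat_lit 294931) (nat_lit 3) .nil))))) .nil)))) (.nd (nat_lit 4) (.nd (nat_lit 5) 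
(.lf (nat_lit 127817) (.g (nat_lit 1437) (.e (nat_lit 7586) (nat_lit 406) (.e (nat_lit 65653) (nat_lit 27) (.e (nat_lit 426012) (nat_lit 0) (.e (nat_lit 7589) (nat_lit 406) (.e (nat_lit 73472) (nat_lit 27) .nil))))) .nil)) 
(.lf (nat_lit 127849) (.g (nat_lit 2761) (.e (nat_lit 7587) (nat_lit 406) (.e (nat_lit 65571) (nat_lit 3) (.e (nat_lit 98350) (nat_lit 24) (.e (nat_lit 409616) (nat_lit 10) (.e (nat_lit 5353) (nat_lit 298) .nil))))) .nil))) (.nd (nat_lit 5) 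
(.lf (nat_lit 127833) (.g (nat_lit 3190) (.e (nat_lit 7586) (nat_lit 406) (.e (nat_lit 65653) (nat_lit 27) (.e (nat_lit 426344) (nat_lit 14) (.e (nat_lit 491547) (nat_lit 9) (.e (nat_lit 336414) (nat_lit 27) (.e (nat_lit 425984) (nat_lit 0) .nil)))))) (.g (nat_lit 0) .nil .nil))) 
(.lf (nat_lit 127865) (.g (nat_lit 2557) (.e (nat_lit 7587) (nat_lit 406) (.e (nat_lit 65571) (nat_lit 3) (.e (nat_lit 98388) (nat_lit 33) (.e (nat_lit 491560) (nat_lit 10) (.e (nat_lit 344118) (nat_lit 21) .nil))))) .nil))))) (.nd (nat_lit 3) (.nd (nat_lit 4) (.nd (nat_lit 5) 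
(.lf (nat_lit 127813) (.g (nat_lit 2216) (.e (nat_lit 7586) (nat_lit 406) (.e (nat_lit 65653) (nat_lit 27) (.e (nat_lit 426012) (nat_lit 0) (.e (nat_lit 7589) (nat_lit 406) (.e (nat_lit 65652) (nat_lit 27) (.e (nat_lit 425984) (nat_lit 0) .nil)))))) (.g (nat_lit 0) .nil .nil))) 
(.lf (nat_lit 127845) (.g (nat_lit 685) (.e (nat_lit 7587) (nat_lit 406) (.e (nat_lit 65571) (nat_lit 3) (.e (nat_lit 98349) (nat_lit 24) .nil))) .nil))) (.nd (nat_lit 5) 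
(.lf (nat_lit 127829) (.g (nat_lit 1579) (.e (nat_lit 7586) (nat_lit 406) (.e (nat_lit 65653) (nat_lit 27) (.e (nat_lit 426343) (nat_lit 14) (.e (nat_lit 491552) (nat_lit 9) (.e (nat_lit 336410) (nat_lit 27) (.e (nat_lit 425989) (nat_lit 0) .nil)))))) (.g (nat_lit 5) .nil .nil))) 
(.lf (nat_lit 127861) (.g (nat_lit 917) (.e (nat_lit 7587) (nat_lit 406) (.e (nat_lit 65571) (nat_lit 3) (.e (nat_lit 98353) (nat_lit 25) .nil))) .nil)))) (.nd (nat_lit 4) (.nd (nat_lit 5) 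
(.lf (nat_lit 127821) (.g (nat_lit 2804) (.e (nat_lit 7586) (nat_lit 406) (.e (nat_lit 65653) (nat_lit 27) (.e (nat_lit 426341) (nat_lit 14) (.e (nat_lit 491550) (nat_lit 9) (.e (nat_lit 336414) (nat_lit 27) (.e (nat_lit 425984) (nat_lit 0) .nil)))))) (.g (nat_lit 6) .nil .nil))) 
(.lf (nat_lit 127853) (.g (nat_lit 2338) (.e (nat_lit 7587) (nat_lit 406) (.e (nat_lit 65571) (nat_lit 3) (.e (nat_lit 98350) (nat_lit 24) (.e (nat_lit 409617) (nat_lit 10) (.e (nat_lit 5353) (nat_lit 298) .nil))))) .nil))) (.nd (nat_lit 5) 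
(.lf (nat_lit 127837) (.g (nat_lit 1819) (.e (nat_lit 7586) (nat_lit 406) (.e (nat_lit 65653) (nat_lit 27) (.e (nat_lit 426344) (nat_lit 14) (.e (nat_lit 491552) (nat_lit 9) (.e (nat_lit 336410) (nat_lit 27) (.e (nat_lit 425989) (nat_lit 0) .nil)))))) (.g (nat_lit 0) .nil .nil))) 
(.lf (nat_lit 127869) (.g (nat_lit 1958) (.e (nat_lit 7587) (nat_lit 406) (.e (nat_lit 65571) (nat_lit 3) (.e (nat_lit 98389) (nat_lit 33) (.e (nat_lit 491558) (nat_lit 10) (.e (nat_lit 344119) (nat_lit 21) .nil))))) .nil)))))) (.nd (nat_lit 2) (.nd (nat_lit 3) (.nd (nat_lit 4) (.nd (nat_lit 5) 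
(.lf (nat_lit 127811) (.g (nat_lit 1796) (.e (nat_lit 7586) (nat_lit 406) (.e (nat_lit 65653) (nat_lit 27) (.e (nat_lit 426012) (nat_lit 0) (.e (nat_lit 7587) (nat_lit 406) (.e (nat_lit 65652) (nat_lit 27) (.e (nat_lit 425990) (nat_lit 0) .nil)))))) (.g (nat_lit 6) .nil .nil))) 
(.lf (nat_lit 127843) (.g (nat_lit 2247) (.e (nat_lit 7587) (nat_lit 406) (.e (nat_lit 65571) (nat_lit 3) (.e (nat_lit 98319) (nat_lit 17) (.e (nat_lit 7593) (nat_lit 407) (.e (nat_lit 73746) (nat_lit 3) (.e (nat_lit 516098) (nat_lit 0) .nil)))))) (.g (nat_lit 4) .nil .nil)))) (.nd (nat_lit 5) 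
(.lf (nat_lit 127827) (.g (nat_lit 3588) (.e (nat_lit 7586) (nat_lit 406) (.e (nat_lit 65653) (nat_lit 27) (.e (nat_lit 426343) (nat_lit 14) (.e (nat_lit 491549) (nat_lit 9) (.e (nat_lit 336414) (nat_lit 27) (.e (nat_lit 425984) (nat_lit 0) .nil)))))) (.g (nat_lit 6) .nil .nil))) 
(.lf (nat_lit 127859) (.g (nat_lit 3363) (.e (nat_lit 7587) (nat_lit 406) (.e (nat_lit 65571) (nat_lit 3) (.e (nat_lit 98350) (nat_lit 24) (.e (nat_lit 409641) (nat_lit 17) (.e (nat_lit 294931) (nat_lit 3) (.e (nat_lit 98319) (nat_lit 17) .nil)))))) (.g (nat_lit 4) .nil .nil))))) (.nd (nat_lit 4) (.nd (nat_lit 5) 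
(.lf (nat_lit 127819) (.g (nat_lit 2870) (.e (nat_lit 7586) (nat_lit 406) (.e (nat_lit 65653) (nat_lit 27) (.e (nat_lit 426341) (nat_lit 14) (.e (nat_lit 491549) (nat_lit 9) (.e (nat_lit 336414) (nat_lit 27) (.e (nat_lit 425984) (nat_lit 0) .nil)))))) (.g (nat_lit 6) .nil .nil))) 
(.lf (nat_lit 127851) (.g (nat_lit 3066) (.e (nat_lit 7587) (nat_lit 406) (.e (nat_lit 65571) (nat_lit 3) (.e (nat_lit 98350) (nat_lit 24) (.e (nat_lit 409616) (nat_lit 10) (.e (nat_lit 5355) (nat_lit 298) (.e (nat_lit 1235) (nat_lit 91) (.e (nat_lit 90133) (nat_lit 9) (.e (nat_lit 2397) (nat_lit 157) .nil)))))))) (.g (nat_lit 4) .nil .nil)))) (.nd (nat_lit 5) 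
(.lf (nat_lit 127835) (.g (nat_lit 1836) (.e (nat_lit 7586) (nat_lit 406) (.e (nat_lit 65653) (nat_lit 27) (.e (nat_lit 426344) (nat_lit 14) (.e (nat_lit 491552) (nat_lit 9) (.e (nat_lit 336410) (nat_lit 27) (.e (nat_lit 425984) (nat_lit 0) .nil)))))) (.g (nat_lit 0) .nil .nil))) 
(.lf (nat_lit 127867) (.g (nat_lit 2696) (.e (nat_lit 7587) (nat_lit 406) (.e (nat_lit 65571) (nat_lit 3) (.e (nat_lit 98389) (nat_lit 33) (.e (nat_lit 491546) (nat_lit 9) (.e (nat_lit 336028) (nat_lit 3) (.e (nat_lit 98320) (nat_lit 17) .nil)))))) (.g (nat_lit 4) .nil .nil)))))) (.nd (nat_lit 3) (.nd (nat_lit 4) (.nd (nat_lit 5) 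
(.lf (nat_lit 127815) (.g (nat_lit 2200) (.e (nat_lit 7586) (nat_lit 406) (.e (nat_lit 65653) (nat_lit 27) (.e (nat_lit 426012) (nat_lit 0) (.e (nat_lit 7589) (nat_lit 406) (.e (nat_lit 65652) (nat_lit 27) (.e (nat_lit 425989) (nat_lit 0) .nil)))))) (.g (nat_lit 0) .nil .nil))) 
(.lf (nat_lit 127847) (.g (nat_lit 1798) (.e (nat_lit 7587) (nat_lit 406) (.e (nat_lit 65571) (nat_lit 3) (.e (nat_lit 98350) (nat_lit 24) (.e (nat_lit 409616) (nat_lit 10) .nil)))) .nil))) (.nd (nat_lit 5) 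
(.lf (nat_lit 127831) (.g (nat_lit 1665) (.e (nat_lit 7586) (nat_lit 406) (.e (nat_lit 65653) (nat_lit 27) (.e (nat_lit 426343) (nat_lit 14) (.e (nat_lit 491556) (nat_lit 9) (.e (nat_lit 336402) (nat_lit 27) (.e (nat_lit 425984) (nat_lit 0) .nil)))))) (.g (nat_lit 4) .nil .nil))) 
(.lf (nat_lit 127863) (.g (nat_lit 5022) (.e (nat_lit 7587) (nat_lit 406) (.e (nat_lit 65571) (nat_lit 3) (.e (nat_lit 98388) (nat_lit 33) (.e (nat_lit 491560) (nat_lit 10) (.e (nat_lit 344117) (nat_lit 21) (.e (nat_lit 516097) (nat_lit 0) .nil)))))) (.g (nat_lit 6) .nil .nil))))) (.nd (nat_lit 4) (.nd (nat_lit 5) 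
(.lf (nat_lit 127823) (.g (nat_lit 2624) (.e (nat_lit 7586) (nat_lit 406) (.e (nat_lit 65653) (nat_lit 27) (.e (nat_lit 426342) (nat_lit 14) (.e (nat_lit 491549) (nat_lit 9) (.e (nat_lit 336414) (nat_lit 27) (.e (nat_lit 425984) (nat_lit 0) .nil)))))) (.g (nat_lit 6) .nil .nil))) 
(.lf (nat_lit 127855) (.g (nat_lit 2157) (.e (nat_lit 7587) (nat_lit 406) (.e (nat_lit 65571) (nat_lit 3) (.e (nat_lit 98350) (nat_lit 24) (.e (nat_lit 417536) (nat_lit 16) .nil)))) .nil))) (.nd (nat_lit 5) 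
(.lf (nat_lit 127839) (.g (nat_lit 3049) (.e (nat_lit 7586) (nat_lit 406) (.e (nat_lit 65653) (nat_lit 27) (.e (nat_lit 426344) (nat_lit 14) (.e (nat_lit 491556) (nat_lit 9) (.e (nat_lit 336402) (nat_lit 27) (.e (nat_lit 425987) (nat_lit 0) .nil)))))) (.g (nat_lit 6) .nil .nil))) 
(.lf (nat_lit 127871) (.g (nat_lit 4026) (.e (nat_lit 7587) (nat_lit 406) (.e (nat_lit 65571) (nat_lit 3) (.e (nat_lit 98389) (nat_lit 33) (.e (nat_lit 491560) (nat_lit 10) (.e (nat_lit 344117) (nat_lit 21) (.e (nat_lit 516098) (nat_lit 0) .nil)))))) (.g (nat_lit 6) .nil .nil)))))))))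

noncomputable def tv1712 : DT := (.nd (nat_lit 0) (.nd (nat_lit 1) (.nd (nat_lit 2) (.nd (nat_lit 3) (.nd (nat_lit 4) (.nd (nat_lit 5) 
(.lf (nat_lit 127872) (.g (nat_lit 3022) (.e (nat_lit 7587) (nat_lit 406) (.e (nat_lit 65571) (nat_lit 3) (.e (nat_lit 98389) (nat_lit 33) (.e (nat_lit 491560) (nat_lit 10) (.e (nat_lit 344118) (nat_lit 21) (.e (nat_lit 516097) (nat_lit 0) .nil)))))) (.g (nat_lit 5) .nil .nil))) 
(.lf (nat_lit 127904) (.g (nat_lit 2301) (.e (nat_lit 7587) (nat_lit 406) (.e (nat_lit 65653) (nat_lit 27) (.e (nat_lit 426011) (nat_lit 0) (.e (nat_lit 7545) (nat_lit 402) (.e (nat_lit 1664) (nat_lit 115) .nil))))) .nil))) (.nd (nat_lit 5) 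
(.lf (nat_lit 127888) (.g (nat_lit 2929) (.e (nat_lit 7587) (nat_lit 406) (.e (nat_lit 65648) (nat_lit 26) (.e (nat_lit 417810) (nat_lit 6) (.e (nat_lit 286761) (nat_lit 13) (.e (nat_lit 393233) (nat_lit 17) .nil))))) (.g (nat_lit 0) .nil .nil))) 
(.lf (nat_lit 127920) (.g (nat_lit 3230) (.e (nat_lit 7587) (nat_lit 406) (.e (nat_lit 65653) (nat_lit 27) (.e (nat_lit 426343) (nat_lit 14) (.e (nat_lit 491568) (nat_lit 13) (.e (nat_lit 393234) (nat_lit 17) .nil))))) (.g (nat_lit 0) .nil .nil))))) (.nd (nat_lit 4) (.nd (nat_lit 5) 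
(.lf (nat_lit 127880) (.g (nat_lit 3005) (.e (nat_lit 7587) (nat_lit 406) (.e (nat_lit 65580) (nat_lit 6) (.e (nat_lit 147495) (nat_lit 11) (.e (nat_lit 24654) (nat_lit 13) (.e (nat_lit 393234) (nat_lit 17) .nil))))) (.g (nat_lit 0) .nil .nil))) 
(.lf (nat_lit 127912) (.g (nat_lit 2374) (.e (nat_lit 7587) (nat_lit 406) (.e (nat_lit 65653) (nat_lit 27) (.e (nat_lit 426012) (nat_lit 0) (.e (nat_lit 7589) (nat_lit 406) (.e (nat_lit 65653) (nat_lit 27) (.e (nat_lit 426010) (nat_lit 0) .nil)))))) (.g (nat_lit 0) .nil .nil)))) (.nd (nat_lit 5) 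
(.lf (nat_lit 127896) (.g (nat_lit 1490) (.e (nat_lit 7587) (nat_lit 406) (.e (nat_lit 65653) (nat_lit 27) (.e (nat_lit 426009) (nat_lit 0) (.e (nat_lit 7589) (nat_lit 406) (.e (nat_lit 65653) (nat_lit 27) (.e (nat_lit 426010) (nat_lit 0) .nil)))))) (.g (nat_lit 0) .nil .nil))) 
(.lf (nat_lit 127928) (.g (nat_lit 798) (.e (nat_lit 7588) (nat_lit 406) (.e (nat_lit 65633) (nat_lit 15) (.e (nat_lit 7089) (nat_lit 379) (.e (nat_lit 123213) (nat_lit 274) (.e (nat_lit 65652) (nat_lit 27) (.e (nat_lit 425990) (nat_lit 0) .nil)))))) (.g (nat_lit 0) .nil .nil)))))) (.nd (nat_lit 3) (.nd (nat_lit 4) (.nd (nat_lit 5) 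
(.lf (nat_lit 127876) (.g (nat_lit 2270) (.e (nat_lit 7587) (nat_lit 406) (.e (nat_lit 65580) (nat_lit 6) (.e (nat_lit 147493) (nat_lit 11) (.e (nat_lit 24655) (nat_lit 13) (.e (nat_lit 393233) (nat_lit 17) .nil))))) (.g (nat_lit 5) .nil .nil))) 
(.lf (nat_lit 127908) (.g (nat_lit 2287) (.e (nat_lit 7587) (nat_lit 406) (.e (nat_lit 65653) (nat_lit 27) (.e (nat_lit 426011) (nat_lit 0) (.e (nat_lit 7589) (nat_lit 406) (.e (nat_lit 65653) (nat_lit 27) (.e (nat_lit 426009) (nat_lit 0) .nil)))))) (.g (nat_lit 0) .nil .nil)))) (.nd (nat_lit 5) 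
(.lf (nat_lit 127892) (.g (nat_lit 1516) (.e (nat_lit 7587) (nat_lit 406) (.e (nat_lit 65653) (nat_lit 27) (.e (nat_lit 426009) (nat_lit 0) (.e (nat_lit 7587) (nat_lit 406) (.e (nat_lit 65653) (nat_lit 27) (.e (nat_lit 426009) (nat_lit 0) .nil)))))) (.g (nat_lit 0) .nil .nil))) 
(.lf (nat_lit 127924) (.g (nat_lit 494) (.e (nat_lit 7588) (nat_lit 406) (.e (nat_lit 65632) (nat_lit 15) (.e (nat_lit 7081) (nat_lit 378) (.e (nat_lit 57897) (nat_lit 274) (.e (nat_lit 65652) (nat_lit 27) (.e (nat_lit 425990) (nat_lit 0) .nil)))))) (.g (nat_lit 0) .nil .nil))))) (.nd (nat_lit 4) (.nd (nat_lit 5) 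
(.lf (nat_lit 127884) (.g (nat_lit 2484) (.e (nat_lit 7587) (nat_lit 406) (.e (nat_lit 65580) (nat_lit 6) (.e (nat_lit 147496) (nat_lit 11) (.e (nat_lit 24654) (nat_lit 13) (.e (nat_lit 393234) (nat_lit 17) .nil))))) (.g (nat_lit 5) .nil .nil))) 
(.lf (nat_lit 127916) (.g (nat_lit 3775) (.e (nat_lit 7587) (nat_lit 406) (.e (nat_lit 65653) (nat_lit 27) (.e (nat_lit 426343) (nat_lit 14) (.e (nat_lit 491556) (nat_lit 9) (.e (nat_lit 336390) (nat_lit 27) (.e (nat_lit 426011) (nat_lit 0) .nil)))))) (.g (nat_lit 6) .nil .nil)))) (.nd (nat_lit 5) 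
(.lf (nat_lit 127900) (.g (nat_lit 1535) (.e (nat_lit 7587) (nat_lit 406) (.e (nat_lit 65653) (nat_lit 27) (.e (nat_lit 426010) (nat_lit 0) (.e (nat_lit 7589) (nat_lit 406) (.e (nat_lit 65653) (nat_lit 27) (.e (nat_lit 426009) (nat_lit 0) .nil)))))) (.g (nat_lit 0) .nil .nil))) 
(.lf (nat_lit 127932) (.g (nat_lit 398) (.e (nat_lit 7588) (nat_lit 406) (.e (nat_lit 65647) (nat_lit 25) (.e (nat_lit 409605) (nat_lit 0) (.e (nat_lit 5404) (nat_lit 302) (.e (nat_lit 65652) (nat_lit 27) (.e (nat_lit 425990) (nat_lit 0) .nil)))))) (.g (nat_lit 0) .nil .nil))))))) (.nd (nat_lit 2) (.nd (nat_lit 3) (.nd (nat_lit 4) (.nd (nat_lit 5) 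
(.lf (nat_lit 127874) (.g (nat_lit 2321) (.e (nat_lit 7587) (nat_lit 406) (.e (nat_lit 65574) (nat_lit 4) (.e (nat_lit 123195) (nat_lit 266) (.e (nat_lit 57389) (nat_lit 5) (.e (nat_lit 114723) (nat_lit 24) (.e (nat_lit 106534) (nat_lit 11) (.e (nat_lit 16388) (nat_lit 0) .nil))))))) (.g (nat_lit 4) .nil .nil))) 
(.lf (nat_lit 127906) (.g (nat_lit 2567) (.e (nat_lit 7587) (nat_lit 406) (.e (nat_lit 65653) (nat_lit 27) (.e (nat_lit 426011) (nat_lit 0) (.e (nat_lit 7587) (nat_lit 406) (.e (nat_lit 65653) (nat_lit 27) (.e (nat_lit 426009) (nat_lit 0) .nil)))))) (.g (nat_lit 0) .nil .nil)))) (.nd (nat_lit 5) 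
(.lf (nat_lit 127890) (.g (nat_lit 1174) (.e (nat_lit 7587) (nat_lit 406) (.e (nat_lit 65648) (nat_lit 26) (.e (nat_lit 417811) (nat_lit 6) (.e (nat_lit 286760) (nat_lit 13) (.e (nat_lit 393231) (nat_lit 17) .nil))))) (.g (nat_lit 4) .nil .nil))) 
(.lf (nat_lit 127922) (.g (nat_lit 876) (.e (nat_lit 7587) (nat_lit 406) (.e (nat_lit 65653) (nat_lit 27) (.e (nat_lit 426344) (nat_lit 14) (.e (nat_lit 499456) (nat_lit 13) .nil)))) .nil)))) (.nd (nat_lit 4) (.nd (nat_lit 5) 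
(.lf (nat_lit 127882) (.g (nat_lit 2522) (.e (nat_lit 7587) (nat_lit 406) (.e (nat_lit 65580) (nat_lit 6) (.e (nat_lit 147495) (nat_lit 11) (.e (nat_lit 24658) (nat_lit 13) (.e (nat_lit 393233) (nat_lit 17) .nil))))) (.g (nat_lit 0) .nil .nil))) 
(.lf (nat_lit 127914) (.g (nat_lit 1982) (.e (nat_lit 7587) (nat_lit 406) (.e (nat_lit 65653) (nat_lit 27) (.e (nat_lit 426342) (nat_lit 14) (.e (nat_lit 491568) (nat_lit 13) (.e (nat_lit 393233) (nat_lit 17) .nil))))) (.g (nat_lit 5) .nil .nil)))) (.nd (nat_lit 5) 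
(.lf (nat_lit 127898) (.g (nat_lit 1720) (.e (nat_lit 7587) (nat_lit 406) (.e (nat_lit 65653) (nat_lit 27) (.e (nat_lit 426010) (nat_lit 0) (.e (nat_lit 7587) (nat_lit 406) (.e (nat_lit 65653) (nat_lit 27) (.e (nat_lit 426010) (nat_lit 0) .nil)))))) (.g (nat_lit 0) .nil .nil))) 
(.lf (nat_lit 127930) (.g (nat_lit 404) (.e (nat_lit 7588) (nat_lit 406) (.e (nat_lit 65647) (nat_lit 25) (.e (nat_lit 409603) (nat_lit 0) (.e (nat_lit 5404) (nat_lit 302) (.e (nat_lit 65652) (nat_lit 27) (.e (nat_lit 425990) (nat_lit 0) .nil)))))) (.g (nat_lit 0) .nil .nil)))))) (.nd (nat_lit 3) (.nd (nat_lit 4) (.nd (nat_lit 5) 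
(.lf (nat_lit 127878) (.g (nat_lit 2584) (.e (nat_lit 7587) (nat_lit 406) (.e (nat_lit 65580) (nat_lit 6) (.e (nat_lit 147495) (nat_lit 11) (.e (nat_lit 24654) (nat_lit 13) (.e (nat_lit 393232) (nat_lit 17) .nil))))) (.g (nat_lit 5) .nil .nil))) 
(.lf (nat_lit 127910) (.g (nat_lit 2971) (.e (nat_lit 7587) (nat_lit 406) (.e (nat_lit 65653) (nat_lit 27) (.e (nat_lit 426011) (nat_lit 0) (.e (nat_lit 7589) (nat_lit 406) (.e (nat_lit 65653) (nat_lit 27) (.e (nat_lit 426012) (nat_lit 0) .nil)))))) (.g (nat_lit 0) .nil .nil)))) (.nd (nat_lit 5) 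
(.lf (nat_lit 127894) (.g (nat_lit 2168) (.e (nat_lit 7587) (nat_lit 406) (.e (nat_lit 65653) (nat_lit 27) (.e (nat_lit 426009) (nat_lit 0) (.e (nat_lit 7587) (nat_lit 406) (.e (nat_lit 65653) (nat_lit 27) (.e (nat_lit 426012) (nat_lit 0) .nil)))))) (.g (nat_lit 0) .nil .nil))) 
(.lf (nat_lit 127926) (.g (nat_lit 686) (.e (nat_lit 7588) (nat_lit 406) (.e (nat_lit 65633) (nat_lit 15) (.e (nat_lit 7086) (nat_lit 379) (.e (nat_lit 123213) (nat_lit 274) (.e (nat_lit 65652) (nat_lit 27) (.e (nat_lit 425990) (nat_lit 0) .nil)))))) (.g (nat_lit 0) .nil .nil))))) (.nd (nat_lit 4) (.nd (nat_lit 5) 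
(.lf (nat_lit 127886) (.g (nat_lit 2549) (.e (nat_lit 7587) (nat_lit 406) (.e (nat_lit 65580) (nat_lit 6) (.e (nat_lit 147496) (nat_lit 11) (.e (nat_lit 24658) (nat_lit 13) (.e (nat_lit 393233) (nat_lit 17) .nil))))) (.g (nat_lit 5) .nil .nil))) 
(.lf (nat_lit 127918) (.g (nat_lit 2232) (.e (nat_lit 7587) (nat_lit 406) (.e (nat_lit 65653) (nat_lit 27) (.e (nat_lit 426343) (nat_lit 14) (.e (nat_lit 491568) (nat_lit 13) (.e (nat_lit 393231) (nat_lit 17) .nil))))) (.g (nat_lit 4) .nil .nil)))) (.nd (nat_lit 5) 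
(.lf (nat_lit 127902) (.g (nat_lit 2222) (.e (nat_lit 7587) (nat_lit 406) (.e (nat_lit 65653) (nat_lit 27) (.e (nat_lit 426010) (nat_lit 0) (.e (nat_lit 7589) (nat_lit 406) (.e (nat_lit 65653) (nat_lit 27) (.e (nat_lit 426012) (nat_lit 0) .nil)))))) (.g (nat_lit 0) .nil .nil))) 
(.lf (nat_lit 127934) (.g (nat_lit 584) (.e (nat_lit 7588) (nat_lit 406) (.e (nat_lit 65648) (nat_lit 26) (.e (nat_lit 417795) (nat_lit 0) (.e (nat_lit 5405) (nat_lit 302) (.e (nat_lit 65652) (nat_lit 27) (.e (nat_lit 425990) (nat_lit 0) .nil)))))) (.g (nat_lit 0) .nil .nil)))))))) (.nd (nat_lit 1) (.nd (nat_lit 2) (.nd (nat_lit 3) (.nd (nat_lit 4) (.nd (nat_lit 5) 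
(.lf (nat_lit 127873) (.g (nat_lit 2699) (.e (nat_lit 7587) (nat_lit 406) (.e (nat_lit 65571) (nat_lit 3) (.e (nat_lit 98389) (nat_lit 33) (.e (nat_lit 491560) (nat_lit 10) (.e (nat_lit 344118) (nat_lit 21) (.e (nat_lit 516098) (nat_lit 0) .nil)))))) (.g (nat_lit 5) .nil .nil))) 
(.lf (nat_lit 127905) (.g (nat_lit 1287) (.e (nat_lit 7587) (nat_lit 406) (.e (nat_lit 65653) (nat_lit 27) (.e (nat_lit 426011) (nat_lit 0) (.e (nat_lit 7936) (nat_lit 402) .nil)))) .nil))) (.nd (nat_lit 5) 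
(.lf (nat_lit 127889) (.g (nat_lit 2967) (.e (nat_lit 7587) (nat_lit 406) (.e (nat_lit 65648) (nat_lit 26) (.e (nat_lit 417810) (nat_lit 6) (.e (nat_lit 286761) (nat_lit 13) (.e (nat_lit 393234) (nat_lit 17) .nil))))) (.g (nat_lit 0) .nil .nil))) 
(.lf (nat_lit 127921) (.g (nat_lit 2104) (.e (nat_lit 7587) (nat_lit 406) (.e (nat_lit 65653) (nat_lit 27) (.e (nat_lit 426344) (nat_lit 14) (.e (nat_lit 491556) (nat_lit 9) (.e (nat_lit 336390) (nat_lit 27) (.e (nat_lit 426009) (nat_lit 0) .nil)))))) (.g (nat_lit 4) .nil .nil))))) (.nd (nat_lit 4) (.nd (nat_lit 5) 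
(.lf (nat_lit 127881) (.g (nat_lit 2658) (.e (nat_lit 7587) (nat_lit 406) (.e (nat_lit 65580) (nat_lit 6) (.e (nat_lit 147495) (nat_lit 11) (.e (nat_lit 24655) (nat_lit 13) (.e (nat_lit 393233) (nat_lit 17) .nil))))) (.g (nat_lit 4) .nil .nil))) 
(.lf (nat_lit 127913) (.g (nat_lit 2802) (.e (nat_lit 7587) (nat_lit 406) (.e (nat_lit 65653) (nat_lit 27) (.e (nat_lit 426341) (nat_lit 14) (.e (nat_lit 491569) (nat_lit 13) (.e (nat_lit 393234) (nat_lit 17) .nil))))) (.g (nat_lit 0) .nil .nil)))) (.nd (nat_lit 5) 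
(.lf (nat_lit 127897) (.g (nat_lit 2083) (.e (nat_lit 7587) (nat_lit 406) (.e (nat_lit 65653) (nat_lit 27) (.e (nat_lit 426009) (nat_lit 0) (.e (nat_lit 7589) (nat_lit 406) (.e (nat_lit 65653) (nat_lit 27) (.e (nat_lit 426012) (nat_lit 0) .nil)))))) (.g (nat_lit 0) .nil .nil))) 
(.lf (nat_lit 127929) (.g (nat_lit 919) (.e (nat_lit 7588) (nat_lit 406) (.e (nat_lit 65647) (nat_lit 25) (.e (nat_lit 409602) (nat_lit 0) (.e (nat_lit 5404) (nat_lit 302) (.e (nat_lit 65652) (nat_lit 27) (.e (nat_lit 425990) (nat_lit 0) .nil)))))) (.g (nat_lit 0) .nil .nil)))))) (.nd (nat_lit 3) (.nd (nat_lit 4) (.nd (nat_lit 5) 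
(.lf (nat_lit 127877) (.g (nat_lit 2058) (.e (nat_lit 7587) (nat_lit 406) (.e (nat_lit 65580) (nat_lit 6) (.e (nat_lit 147494) (nat_lit 11) (.e (nat_lit 24655) (nat_lit 13) (.e (nat_lit 393233) (nat_lit 17) .nil))))) (.g (nat_lit 5) .nil .nil))) 
(.lf (nat_lit 127909) (.g (nat_lit 2389) (.e (nat_lit 7587) (nat_lit 406) (.e (nat_lit 65653) (nat_lit 27) (.e (nat_lit 426011) (nat_lit 0) (.e (nat_lit 7589) (nat_lit 406) (.e (nat_lit 65653) (nat_lit 27) (.e (nat_lit 426010) (nat_lit 0) .nil)))))) (.g (nat_lit 0) .nil .nil)))) (.nd (nat_lit 5) 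
(.lf (nat_lit 127893) (.g (nat_lit 1607) (.e (nat_lit 7587) (nat_lit 406) (.e (nat_lit 65653) (nat_lit 27) (.e (nat_lit 426009) (nat_lit 0) (.e (nat_lit 7587) (nat_lit 406) (.e (nat_lit 65653) (nat_lit 27) (.e (nat_lit 426010) (nat_lit 0) .nil)))))) (.g (nat_lit 0) .nil .nil))) 
(.lf (nat_lit 127925) (.g (nat_lit 442) (.e (nat_lit 7588) (nat_lit 406) (.e (nat_lit 65632) (nat_lit 15) (.e (nat_lit 7082) (nat_lit 378) (.e (nat_lit 57897) (nat_lit 274) (.e (nat_lit 65652) (nat_lit 27) (.e (nat_lit 425990) (nat_lit 0) .nil)))))) (.g (nat_lit 0) .nil .nil))))) (.nd (nat_lit 4) (.nd (nat_lit 5) 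
(.lf (nat_lit 127885) (.g (nat_lit 2464) (.e (nat_lit 7587) (nat_lit 406) (.e (nat_lit 65580) (nat_lit 6) (.e (nat_lit 147496) (nat_lit 11) (.e (nat_lit 24655) (nat_lit 13) (.e (nat_lit 393233) (nat_lit 17) .nil))))) (.g (nat_lit 5) .nil .nil))) 
(.lf (nat_lit 127917) (.g (nat_lit 1848) (.e (nat_lit 7587) (nat_lit 406) (.e (nat_lit 65653) (nat_lit 27) (.e (nat_lit 426343) (nat_lit 14) (.e (nat_lit 491568) (nat_lit 13) (.e (nat_lit 393230) (nat_lit 17) .nil))))) .nil))) (.nd (nat_lit 5) 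
(.lf (nat_lit 127901) (.g (nat_lit 1641) (.e (nat_lit 7587) (nat_lit 406) (.e (nat_lit 65653) (nat_lit 27) (.e (nat_lit 426010) (nat_lit 0) (.e (nat_lit 7589) (nat_lit 406) (.e (nat_lit 65653) (nat_lit 27) (.e (nat_lit 426010) (nat_lit 0) .nil)))))) (.g (nat_lit 0) .nil .nil))) 
(.lf (nat_lit 127933) (.g (nat_lit 435) (.e (nat_lit 7588) (nat_lit 406) (.e (nat_lit 65648) (nat_lit 26) (.e (nat_lit 417793) (nat_lit 0) (.e (nat_lit 5405) (nat_lit 302) (.e (nat_lit 65652) (nat_lit 27) (.e (nat_lit 425990) (nat_lit 0) .nil)))))) (.g (nat_lit 0) .nil .nil))))))) (.nd (nat_lit 2) (.nd (nat_lit 3) (.nd (nat_lit 4) (.nd (nat_lit 5) 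
(.lf (nat_lit 127875) (.g (nat_lit 1799) (.e (nat_lit 7587) (nat_lit 406) (.e (nat_lit 65578) (nat_lit 6) (.e (nat_lit 147495) (nat_lit 11) (.e (nat_lit 24658) (nat_lit 13) (.e (nat_lit 393233) (nat_lit 17) .nil))))) .nil)) 
(.lf (nat_lit 127907) (.g (nat_lit 3215) (.e (nat_lit 7587) (nat_lit 406) (.e (nat_lit 65653) (nat_lit 27) (.e (nat_lit 426011) (nat_lit 0) (.e (nat_lit 7587) (nat_lit 406) (.e (nat_lit 65653) (nat_lit 27) (.e (nat_lit 426012) (nat_lit 0) .nil)))))) (.g (nat_lit 0) .nil .nil)))) (.nd (nat_lit 5) 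
(.lf (nat_lit 127891) (.g (nat_lit 2099) (.e (nat_lit 7587) (nat_lit 406) (.e (nat_lit 65648) (nat_lit 26) (.e (nat_lit 417811) (nat_lit 6) (.e (nat_lit 286761) (nat_lit 13) (.e (nat_lit 393233) (nat_lit 17) .nil))))) (.g (nat_lit 5) .nil .nil))) 
(.lf (nat_lit 127923) (.g (nat_lit 469) (.e (nat_lit 7588) (nat_lit 406) (.e (nat_lit 65632) (nat_lit 15) (.e (nat_lit 7077) (nat_lit 378) (.e (nat_lit 57897) (nat_lit 274) (.e (nat_lit 65652) (nat_lit 27) (.e (nat_lit 425990) (nat_lit 0) .nil)))))) (.g (nat_lit 0) .nil .nil))))) (.nd (nat_lit 4) (.nd (nat_lit 5) 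
(.lf (nat_lit 127883) (.g (nat_lit 1610) (.e (nat_lit 7587) (nat_lit 406) (.e (nat_lit 65580) (nat_lit 6) (.e (nat_lit 147496) (nat_lit 11) (.e (nat_lit 24654) (nat_lit 13) (.e (nat_lit 393233) (nat_lit 17) .nil))))) (.g (nat_lit 4) .nil .nil))) 
(.lf (nat_lit 127915) (.g (nat_lit 2697) (.e (nat_lit 7587) (nat_lit 406) (.e (nat_lit 65653) (nat_lit 27) (.e (nat_lit 426342) (nat_lit 14) (.e (nat_lit 491569) (nat_lit 13) (.e (nat_lit 393234) (nat_lit 17) .nil))))) (.g (nat_lit 0) .nil .nil)))) (.nd (nat_lit 5) 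
(.lf (nat_lit 127899) (.g (nat_lit 2267) (.e (nat_lit 7587) (nat_lit 406) (.e (nat_lit 65653) (nat_lit 27) (.e (nat_lit 426010) (nat_lit 0) (.e (nat_lit 7587) (nat_lit 406) (.e (nat_lit 65653) (nat_lit 27) (.e (nat_lit 426012) (nat_lit 0) .nil)))))) (.g (nat_lit 0) .nil .nil))) 
(.lf (nat_lit 127931) (.g (nat_lit 455) (.e (nat_lit 7588) (nat_lit 406) (.e (nat_lit 65647) (nat_lit 25) (.e (nat_lit 409604) (nat_lit 0) (.e (nat_lit 5404) (nat_lit 302) (.e (nat_lit 65652) (nat_lit 27) (.e (nat_lit 425990) (nat_lit 0) .nil)))))) (.g (nat_lit 0) .nil .nil)))))) (.nd (nat_lit 3) (.nd (nat_lit 4) (.nd (nat_lit 5) 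
(.lf (nat_lit 127879) (.g (nat_lit 1768) (.e (nat_lit 7587) (nat_lit 406) (.e (nat_lit 65580) (nat_lit 6) (.e (nat_lit 147495) (nat_lit 11) (.e (nat_lit 24654) (nat_lit 13) (.e (nat_lit 393233) (nat_lit 17) .nil))))) (.g (nat_lit 4) .nil .nil))) 
(.lf (nat_lit 127911) (.g (nat_lit 2270) (.e (nat_lit 7587) (nat_lit 406) (.e (nat_lit 65653) (nat_lit 27) (.e (nat_lit 426012) (nat_lit 0) (.e (nat_lit 7589) (nat_lit 406) (.e (nat_lit 65653) (nat_lit 27) (.e (nat_lit 426009) (nat_lit 0) .nil)))))) (.g (nat_lit 0) .nil .nil)))) (.nd (nat_lit 5) 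
(.lf (nat_lit 127895) (.g (nat_lit 1394) (.e (nat_lit 7587) (nat_lit 406) (.e (nat_lit 65653) (nat_lit 27) (.e (nat_lit 426009) (nat_lit 0) (.e (nat_lit 7589) (nat_lit 406) (.e (nat_lit 65653) (nat_lit 27) (.e (nat_lit 426009) (nat_lit 0) .nil)))))) (.g (nat_lit 0) .nil .nil))) 
(.lf (nat_lit 127927) (.g (nat_lit 808) (.e (nat_lit 7588) (nat_lit 406) (.e (nat_lit 65633) (nat_lit 15) (.e (nat_lit 7088) (nat_lit 379) (.e (nat_lit 123213) (nat_lit 274) (.e (nat_lit 65652) (nat_lit 27) (.e (nat_lit 425990) (nat_lit 0) .nil)))))) (.g (nat_lit 0) .nil .nil))))) (.nd (nat_lit 4) (.nd (nat_lit 5) 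
(.lf (nat_lit 127887) (.g (nat_lit 2459) (.e (nat_lit 7587) (nat_lit 406) (.e (nat_lit 65648) (nat_lit 26) (.e (nat_lit 417809) (nat_lit 6) (.e (nat_lit 286761) (nat_lit 13) (.e (nat_lit 393234) (nat_lit 17) .nil))))) (.g (nat_lit 0) .nil .nil))) 
(.lf (nat_lit 127919) (.g (nat_lit 2735) (.e (nat_lit 7587) (nat_lit 406) (.e (nat_lit 65653) (nat_lit 27) (.e (nat_lit 426343) (nat_lit 14) (.e (nat_lit 491568) (nat_lit 13) (.e (nat_lit 393233) (nat_lit 17) .nil))))) (.g (nat_lit 0) .nil .nil)))) (.nd (nat_lit 5) 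
(.lf (nat_lit 127903) (.g (nat_lit 1635) (.e (nat_lit 7587) (nat_lit 406) (.e (nat_lit 65653) (nat_lit 27) (.e (nat_lit 426011) (nat_lit 0) (.e (nat_lit 7500) (nat_lit 402) .nil)))) .nil)) 
(.lf (nat_lit 127935) (.g (nat_lit 902) (.e (nat_lit 7588) (nat_lit 406) (.e (nat_lit 65648) (nat_lit 26) (.e (nat_lit 417796) (nat_lit 0) (.e (nat_lit 5405) (nat_lit 302) (.e (nat_lit 65652) (nat_lit 27) (.e (nat_lit 425990) (nat_lit 0) .nil)))))) (.g (nat_lit 0) .nil .nil)))))))))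

noncomputable def tv1713 : DT := (.nd (nat_lit 0) (.nd (nat_lit 1) (.nd (nat_lit 2) (.nd (nat_lit 3) (.nd (nat_lit 4) 
(.lf (nat_lit 127936) (.g (nat_lit 564) (.e (nat_lit 7588) (nat_lit 406) (.e (nat_lit 65652) (nat_lit 27) (.e (nat_lit 425984) (nat_lit 0) (.e (nat_lit 7588) (nat_lit 406) (.e (nat_lit 65652) (nat_lit 27) (.e (nat_lit 425984) (nat_lit 0) .nil)))))) (.g (nat_lit 0) .nil .nil))) 
(.lf (nat_lit 127952) (.g (nat_lit 1025) (.e (nat_lit 7588) (nat_lit 406) (.e (nat_lit 65653) (nat_lit 27) (.e (nat_lit 426011) (nat_lit 0) (.e (nat_lit 7589) (nat_lit 406) .nil)))) .nil))) (.nd (nat_lit 4) 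
(.lf (nat_lit 127944) (.g (nat_lit 826) (.e (nat_lit 7588) (nat_lit 406) (.e (nat_lit 65653) (nat_lit 27) (.e (nat_lit 426009) (nat_lit 0) (.e (nat_lit 7587) (nat_lit 406) (.e (nat_lit 65652) (nat_lit 27) (.e (nat_lit 425984) (nat_lit 0) .nil)))))) (.g (nat_lit 4) .nil .nil))) 
(.lf (nat_lit 127960) (.g (nat_lit 308) (.e (nat_lit 7588) (nat_lit 406) (.e (nat_lit 65653) (nat_lit 27) (.e (nat_lit 426213) (nat_lit 9) .nil))) .nil)))) (.nd (nat_lit 3) (.nd (nat_lit 4) 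
(.lf (nat_lit 127940) (.g (nat_lit 437) (.e (nat_lit 7588) (nat_lit 406) (.e (nat_lit 65652) (nat_lit 27) (.e (nat_lit 425989) (nat_lit 0) (.e (nat_lit 7588) (nat_lit 406) (.e (nat_lit 65652) (nat_lit 27) (.e (nat_lit 425990) (nat_lit 0) .nil)))))) (.g (nat_lit 0) .nil .nil))) 
(.lf (nat_lit 127956) (.g (nat_lit 1549) (.e (nat_lit 7588) (nat_lit 406) (.e (nat_lit 65653) (nat_lit 27) (.e (nat_lit 426012) (nat_lit 0) (.e (nat_lit 7587) (nat_lit 406) (.e (nat_lit 65652) (nat_lit 27) (.e (nat_lit 425990) (nat_lit 0) .nil)))))) (.g (nat_lit 6) .nil .nil)))) (.nd (nat_lit 4) 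
(.lf (nat_lit 127948) (.g (nat_lit 862) (.e (nat_lit 7588) (nat_lit 406) (.e (nat_lit 65653) (nat_lit 27) (.e (nat_lit 426009) (nat_lit 0) (.e (nat_lit 7589) (nat_lit 406) (.e (nat_lit 65652) (nat_lit 27) (.e (nat_lit 425990) (nat_lit 0) .nil)))))) (.g (nat_lit 0) .nil .nil))) 
(.lf (nat_lit 127964) (.g (nat_lit 2583) (.e (nat_lit 7588) (nat_lit 406) (.e (nat_lit 65653) (nat_lit 27) (.e (nat_lit 426341) (nat_lit 14) (.e (nat_lit 491550) (nat_lit 9) (.e (nat_lit 336414) (nat_lit 27) (.e (nat_lit 425984) (nat_lit 0) .nil)))))) (.g (nat_lit 0) .nil .nil)))))) (.nd (nat_lit 2) (.nd (nat_lit 3) (.nd (nat_lit 4) 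
(.lf (nat_lit 127938) (.g (nat_lit 440) (.e (nat_lit 7588) (nat_lit 406) (.e (nat_lit 65652) (nat_lit 27) (.e (nat_lit 425987) (nat_lit 0) (.e (nat_lit 7588) (nat_lit 406) (.e (nat_lit 65652) (nat_lit 27) (.e (nat_lit 425990) (nat_lit 0) .nil)))))) (.g (nat_lit 0) .nil .nil))) 
(.lf (nat_lit 127954) (.g (nat_lit 1821) (.e (nat_lit 7588) (nat_lit 406) (.e (nat_lit 65653) (nat_lit 27) (.e (nat_lit 426011) (nat_lit 0) (.e (nat_lit 7589) (nat_lit 406) (.e (nat_lit 65652) (nat_lit 27) (.e (nat_lit 425990) (nat_lit 0) .nil)))))) (.g (nat_lit 0) .nil .nil)))) (.nd (nat_lit 4) 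
(.lf (nat_lit 127946) (.g (nat_lit 784) (.e (nat_lit 7588) (nat_lit 406) (.e (nat_lit 65653) (nat_lit 27) (.e (nat_lit 426009) (nat_lit 0) (.e (nat_lit 7587) (nat_lit 406) (.e (nat_lit 65652) (nat_lit 27) (.e (nat_lit 425989) (nat_lit 0) .nil)))))) (.g (nat_lit 4) .nil .nil))) 
(.lf (nat_lit 127962) (.g (nat_lit 2732) (.e (nat_lit 7588) (nat_lit 406) (.e (nat_lit 65653) (nat_lit 27) (.e (nat_lit 426341) (nat_lit 14) (.e (nat_lit 491549) (nat_lit 9) (.e (nat_lit 336414) (nat_lit 27) (.e (nat_lit 425984) (nat_lit 0) .nil)))))) (.g (nat_lit 6) .nil .nil))))) (.nd (nat_lit 3) (.nd (nat_lit 4) 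
(.lf (nat_lit 127942) (.g (nat_lit 390) (.e (nat_lit 7588) (nat_lit 406) (.e (nat_lit 65652) (nat_lit 27) (.e (nat_lit 425990) (nat_lit 0) (.e (nat_lit 7588) (nat_lit 406) (.e (nat_lit 65652) (nat_lit 27) (.e (nat_lit 425990) (nat_lit 0) .nil)))))) (.g (nat_lit 0) .nil .nil))) 
(.lf (nat_lit 127958) (.g (nat_lit 1294) (.e (nat_lit 7588) (nat_lit 406) (.e (nat_lit 65653) (nat_lit 27) (.e (nat_lit 426012) (nat_lit 0) (.e (nat_lit 7589) (nat_lit 406) (.e (nat_lit 73472) (nat_lit 27) .nil))))) .nil))) (.nd (nat_lit 4) 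
(.lf (nat_lit 127950) (.g (nat_lit 1011) (.e (nat_lit 7588) (nat_lit 406) (.e (nat_lit 65653) (nat_lit 27) (.e (nat_lit 426010) (nat_lit 0) (.e (nat_lit 7589) (nat_lit 406) (.e (nat_lit 65652) (nat_lit 27) (.e (nat_lit 425990) (nat_lit 0) .nil)))))) (.g (nat_lit 0) .nil .nil))) 
(.lf (nat_lit 127966) (.g (nat_lit 2439) (.e (nat_lit 7588) (nat_lit 406) (.e (nat_lit 65653) (nat_lit 27) (.e (nat_lit 426342) (nat_lit 14) (.e (nat_lit 491549) (nat_lit 9) (.e (nat_lit 336414) (nat_lit 27) (.e (nat_lit 425984) (nat_lit 0) .nil)))))) (.g (nat_lit 6) .nil .nil))))))) (.nd (nat_lit 1) (.nd (nat_lit 2) (.nd (nat_lit 3) (.nd (nat_lit 4) 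
(.lf (nat_lit 127937) (.g (nat_lit 476) (.e (nat_lit 7588) (nat_lit 406) (.e (nat_lit 65652) (nat_lit 27) (.e (nat_lit 425984) (nat_lit 0) (.e (nat_lit 7588) (nat_lit 406) (.e (nat_lit 65652) (nat_lit 27) (.e (nat_lit 425990) (nat_lit 0) .nil)))))) (.g (nat_lit 0) .nil .nil))) 
(.lf (nat_lit 127953) (.g (nat_lit 1896) (.e (nat_lit 7588) (nat_lit 406) (.e (nat_lit 65653) (nat_lit 27) (.e (nat_lit 426011) (nat_lit 0) (.e (nat_lit 7589) (nat_lit 406) (.e (nat_lit 65652) (nat_lit 27) (.e (nat_lit 425984) (nat_lit 0) .nil)))))) (.g (nat_lit 0) .nil .nil)))) (.nd (nat_lit 4) 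
(.lf (nat_lit 127945) (.g (nat_lit 780) (.e (nat_lit 7588) (nat_lit 406) (.e (nat_lit 65653) (nat_lit 27) (.e (nat_lit 426009) (nat_lit 0) (.e (nat_lit 7587) (nat_lit 406) (.e (nat_lit 65652) (nat_lit 27) (.e (nat_lit 425987) (nat_lit 0) .nil)))))) (.g (nat_lit 4) .nil .nil))) 
(.lf (nat_lit 127961) (.g (nat_lit 2015) (.e (nat_lit 7588) (nat_lit 406) (.e (nat_lit 65653) (nat_lit 27) (.e (nat_lit 426338) (nat_lit 14) (.e (nat_lit 491549) (nat_lit 9) (.e (nat_lit 336414) (nat_lit 27) .nil))))) .nil)))) (.nd (nat_lit 3) (.nd (nat_lit 4) 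
(.lf (nat_lit 127941) (.g (nat_lit 250) (.e (nat_lit 7588) (nat_lit 406) (.e (nat_lit 65652) (nat_lit 27) (.e (nat_lit 425990) (nat_lit 0) (.e (nat_lit 7586) (nat_lit 406) (.e (nat_lit 65652) (nat_lit 27) .nil))))) .nil)) 
(.lf (nat_lit 127957) (.g (nat_lit 1880) (.e (nat_lit 7588) (nat_lit 406) (.e (nat_lit 65653) (nat_lit 27) (.e (nat_lit 426012) (nat_lit 0) (.e (nat_lit 7589) (nat_lit 406) (.e (nat_lit 65652) (nat_lit 27) (.e (nat_lit 425990) (nat_lit 0) .nil)))))) (.g (nat_lit 0) .nil .nil)))) (.nd (nat_lit 4) 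
(.lf (nat_lit 127949) (.g (nat_lit 889) (.e (nat_lit 7588) (nat_lit 406) (.e (nat_lit 65653) (nat_lit 27) (.e (nat_lit 426010) (nat_lit 0) (.e (nat_lit 7587) (nat_lit 406) (.e (nat_lit 65652) (nat_lit 27) (.e (nat_lit 425990) (nat_lit 0) .nil)))))) (.g (nat_lit 4) .nil .nil))) 
(.lf (nat_lit 127965) (.g (nat_lit 2454) (.e (nat_lit 7588) (nat_lit 406) (.e (nat_lit 65653) (nat_lit 27) (.e (nat_lit 426341) (nat_lit 14) (.e (nat_lit 491550) (nat_lit 9) (.e (nat_lit 336414) (nat_lit 27) (.e (nat_lit 425987) (nat_lit 0) .nil)))))) (.g (nat_lit 0) .nil .nil)))))) (.nd (nat_lit 2) (.nd (nat_lit 3) (.nd (nat_lit 4) 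
(.lf (nat_lit 127939) (.g (nat_lit 335) (.e (nat_lit 7588) (nat_lit 406) (.e (nat_lit 65652) (nat_lit 27) (.e (nat_lit 425989) (nat_lit 0) (.e (nat_lit 7586) (nat_lit 406) (.e (nat_lit 65652) (nat_lit 27) .nil))))) .nil)) 
(.lf (nat_lit 127955) (.g (nat_lit 754) (.e (nat_lit 7588) (nat_lit 406) (.e (nat_lit 65653) (nat_lit 27) (.e (nat_lit 426012) (nat_lit 0) (.e (nat_lit 7587) (nat_lit 406) .nil)))) .nil))) (.nd (nat_lit 4) 
(.lf (nat_lit 127947) (.g (nat_lit 945) (.e (nat_lit 7588) (nat_lit 406) (.e (nat_lit 65653) (nat_lit 27) (.e (nat_lit 426009) (nat_lit 0) (.e (nat_lit 7589) (nat_lit 406) (.e (nat_lit 65652) (nat_lit 27) (.e (nat_lit 425984) (nat_lit 0) .nil)))))) (.g (nat_lit 0) .nil .nil))) 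
(.lf (nat_lit 127963) (.g (nat_lit 2591) (.e (nat_lit 7588) (nat_lit 406) (.e (nat_lit 65653) (nat_lit 27) (.e (nat_lit 426341) (nat_lit 14) (.e (nat_lit 491549) (nat_lit 9) (.e (nat_lit 336414) (nat_lit 27) (.e (nat_lit 425987) (nat_lit 0) .nil)))))) (.g (nat_lit 5) .nil .nil))))) (.nd (nat_lit 3) (.nd (nat_lit 4) 
(.lf (nat_lit 127943) (.g (nat_lit 756) (.e (nat_lit 7588) (nat_lit 406) (.e (nat_lit 65653) (nat_lit 27) (.e (nat_lit 426009) (nat_lit 0) (.e (nat_lit 7587) (nat_lit 406) (.e (nat_lit 65652) (nat_lit 27) .nil))))) .nil)) 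
(.lf (nat_lit 127959) (.g (nat_lit 1729) (.e (nat_lit 7588) (nat_lit 406) (.e (nat_lit 65653) (nat_lit 27) (.e (nat_lit 426190) (nat_lit 9) (.e (nat_lit 426382) (nat_lit 15) (.e (nat_lit 2175) (nat_lit 143) (.e (nat_lit 712745) (nat_lit 27) (.e (nat_lit 425984) (nat_lit 0) .nil))))))) (.g (nat_lit 5) .nil .nil)))) (.nd (nat_lit 4) 
(.lf (nat_lit 127951) (.g (nat_lit 1032) (.e (nat_lit 7588) (nat_lit 406) (.e (nat_lit 65653) (nat_lit 27) (.e (nat_lit 426011) (nat_lit 0) (.e (nat_lit 7587) (nat_lit 406) .nil)))) .nil)) 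
(.lf (nat_lit 127967) (.g (nat_lit 2305) (.e (nat_lit 7588) (nat_lit 406) (.e (nat_lit 65653) (nat_lit 27) (.e (nat_lit 426342) (nat_lit 14) (.e (nat_lit 491549) (nat_lit 9) (.e (nat_lit 336414) (nat_lit 27) (.e (nat_lit 425987) (nat_lit 0) .nil)))))) (.g (nat_lit 5) .nil .nil))))))))

noncomputable def tv1714 : DT := (.nd (nat_lit 0) (.nd (nat_lit 1) (.nd (nat_lit 2) (.nd (nat_lit 3) (.nd (nat_lit 4) 
(.lf (nat_lit 127968) (.g (nat_lit 3360) (.e (nat_lit 7588) (nat_lit 406) (.e (nat_lit 65653) (nat_lit 27) (.e (nat_lit 426343) (nat_lit 14) (.e (nat_lit 491549) (nat_lit 9) (.e (nat_lit 336414) (nat_lit 27) (.e (nat_lit 425984) (nat_lit 0) .nil)))))) (.g (nat_lit 0) .nil .nil))) 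
(.lf (nat_lit 127984) (.g (nat_lit 1067) (.e (nat_lit 7589) (nat_lit 406) (.e (nat_lit 65648) (nat_lit 26) (.e (nat_lit 417795) (nat_lit 0) (.e (nat_lit 5405) (nat_lit 302) (.e (nat_lit 65653) (nat_lit 27) (.e (nat_lit 426009) (nat_lit 0) .nil)))))) (.g (nat_lit 0) .nil .nil)))) (.nd (nat_lit 4) 
(.lf (nat_lit 127976) (.g (nat_lit 1904) (.e (nat_lit 7589) (nat_lit 406) (.e (nat_lit 65578) (nat_lit 6) (.e (nat_lit 147495) (nat_lit 11) (.e (nat_lit 24658) (nat_lit 13) (.e (nat_lit 393233) (nat_lit 17) .nil))))) (.g (nat_lit 4) .nil .nil))) 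
(.lf (nat_lit 127992) (.g (nat_lit 1922) (.e (nat_lit 7589) (nat_lit 406) (.e (nat_lit 65652) (nat_lit 27) (.e (nat_lit 425989) (nat_lit 0) (.e (nat_lit 7588) (nat_lit 406) (.e (nat_lit 65653) (nat_lit 27) (.e (nat_lit 426012) (nat_lit 0) .nil)))))) (.g (nat_lit 0) .nil .nil))))) (.nd (nat_lit 3) (.nd (nat_lit 4) 
(.lf (nat_lit 127972) (.g (nat_lit 2693) (.e (nat_lit 7589) (nat_lit 406) (.e (nat_lit 65569) (nat_lit 3) (.e (nat_lit 98389) (nat_lit 33) (.e (nat_lit 491558) (nat_lit 10) (.e (nat_lit 344117) (nat_lit 21) (.e (nat_lit 516098) (nat_lit 0) .nil)))))) (.g (nat_lit 5) .nil .nil))) 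
(.lf (nat_lit 127988) (.g (nat_lit 2984) (.e (nat_lit 7589) (nat_lit 406) (.e (nat_lit 65648) (nat_lit 26) (.e (nat_lit 417810) (nat_lit 6) (.e (nat_lit 286761) (nat_lit 13) (.e (nat_lit 393234) (nat_lit 17) .nil))))) (.g (nat_lit 0) .nil .nil)))) (.nd (nat_lit 4) 
(.lf (nat_lit 127980) (.g (nat_lit 2384) (.e (nat_lit 7589) (nat_lit 406) (.e (nat_lit 65647) (nat_lit 25) (.e (nat_lit 409603) (nat_lit 0) (.e (nat_lit 5293) (nat_lit 298) (.e (nat_lit 1656) (nat_lit 115) (.e (nat_lit 393233) (nat_lit 17) .nil)))))) (.g (nat_lit 0) .nil .nil))) 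
(.lf (nat_lit 127996) (.g (nat_lit 882) (.e (nat_lit 7589) (nat_lit 406) (.e (nat_lit 65653) (nat_lit 27) (.e (nat_lit 426011) (nat_lit 0) (.e (nat_lit 7587) (nat_lit 406) .nil)))) .nil))))) (.nd (nat_lit 2) (.nd (nat_lit 3) (.nd (nat_lit 4) 
(.lf (nat_lit 127970) (.g (nat_lit 3136) (.e (nat_lit 7588) (nat_lit 406) (.e (nat_lit 65653) (nat_lit 27) (.e (nat_lit 426343) (nat_lit 14) (.e (nat_lit 491570) (nat_lit 13) (.e (nat_lit 401152) (nat_lit 17) .nil))))) .nil)) 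
(.lf (nat_lit 127986) (.g (nat_lit 2617) (.e (nat_lit 7589) (nat_lit 406) (.e (nat_lit 65648) (nat_lit 26) (.e (nat_lit 417809) (nat_lit 6) (.e (nat_lit 286761) (nat_lit 13) (.e (nat_lit 393234) (nat_lit 17) .nil))))) (.g (nat_lit 0) .nil .nil)))) (.nd (nat_lit 4) 
(.lf (nat_lit 127978) (.g (nat_lit 2953) (.e (nat_lit 7589) (nat_lit 406) (.e (nat_lit 65647) (nat_lit 25) (.e (nat_lit 409602) (nat_lit 0) (.e (nat_lit 5293) (nat_lit 298) (.e (nat_lit 1656) (nat_lit 115) (.e (nat_lit 393233) (nat_lit 17) .nil)))))) (.g (nat_lit 0) .nil .nil))) 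
(.lf (nat_lit 127994) (.g (nat_lit 1904) (.e (nat_lit 7589) (nat_lit 406) (.e (nat_lit 65653) (nat_lit 27) (.e (nat_lit 426011) (nat_lit 0) (.e (nat_lit 7493) (nat_lit 402) (.e (nat_lit 1656) (nat_lit 115) .nil))))) .nil)))) (.nd (nat_lit 3) (.nd (nat_lit 4) 
(.lf (nat_lit 127974) (.g (nat_lit 1988) (.e (nat_lit 7589) (nat_lit 406) (.e (nat_lit 65578) (nat_lit 6) (.e (nat_lit 147463) (nat_lit 9) (.e (nat_lit 249) (nat_lit 21) (.e (nat_lit 336215) (nat_lit 13) (.e (nat_lit 401152) (nat_lit 17) .nil)))))) (.g (nat_lit 5) .nil .nil))) 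
(.lf (nat_lit 127990) (.g (nat_lit 2713) (.e (nat_lit 7589) (nat_lit 406) (.e (nat_lit 65648) (nat_lit 26) (.e (nat_lit 417811) (nat_lit 6) (.e (nat_lit 286761) (nat_lit 13) (.e (nat_lit 393234) (nat_lit 17) .nil))))) (.g (nat_lit 0) .nil .nil)))) (.nd (nat_lit 4) 
(.lf (nat_lit 127982) (.g (nat_lit 913) (.e (nat_lit 7589) (nat_lit 406) (.e (nat_lit 65647) (nat_lit 25) (.e (nat_lit 409605) (nat_lit 0) (.e (nat_lit 5404) (nat_lit 302) (.e (nat_lit 65653) (nat_lit 27) (.e (nat_lit 426009) (nat_lit 0) .nil)))))) (.g (nat_lit 0) .nil .nil))) 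
(.lf (nat_lit 127998) (.g (nat_lit 1903) (.e (nat_lit 7589) (nat_lit 406) (.e (nat_lit 65653) (nat_lit 27) (.e (nat_lit 426342) (nat_lit 14) (.e (nat_lit 491568) (nat_lit 13) (.e (nat_lit 393233) (nat_lit 17) .nil))))) (.g (nat_lit 5) .nil .nil))))))) (.nd (nat_lit 1) (.nd (nat_lit 2) (.nd (nat_lit 3) (.nd (nat_lit 4) 
(.lf (nat_lit 127969) (.g (nat_lit 1269) (.e (nat_lit 7588) (nat_lit 406) (.e (nat_lit 65653) (nat_lit 27) (.e (nat_lit 426343) (nat_lit 14) (.e (nat_lit 491552) (nat_lit 9) (.e (nat_lit 336410) (nat_lit 27) (.e (nat_lit 425990) (nat_lit 0) .nil)))))) (.g (nat_lit 6) .nil .nil))) 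
(.lf (nat_lit 127985) (.g (nat_lit 1345) (.e (nat_lit 7589) (nat_lit 406) (.e (nat_lit 65648) (nat_lit 26) (.e (nat_lit 417796) (nat_lit 0) (.e (nat_lit 5405) (nat_lit 302) (.e (nat_lit 65653) (nat_lit 27) (.e (nat_lit 426009) (nat_lit 0) .nil)))))) (.g (nat_lit 0) .nil .nil)))) (.nd (nat_lit 4) 
(.lf (nat_lit 127977) (.g (nat_lit 2888) (.e (nat_lit 7589) (nat_lit 406) (.e (nat_lit 65637) (nat_lit 15) (.e (nat_lit 3305) (nat_lit 202) (.e (nat_lit 573479) (nat_lit 13) (.e (nat_lit 65619) (nat_lit 10) (.e (nat_lit 344117) (nat_lit 21) (.e (nat_lit 516098) (nat_lit 0) .nil))))))) (.g (nat_lit 6) .nil .nil))) 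
(.lf (nat_lit 127993) (.g (nat_lit 1270) (.e (nat_lit 7589) (nat_lit 406) (.e (nat_lit 65653) (nat_lit 27) (.e (nat_lit 426009) (nat_lit 0) (.e (nat_lit 7589) (nat_lit 406) (.e (nat_lit 65653) (nat_lit 27) (.e (nat_lit 426009) (nat_lit 0) .nil)))))) (.g (nat_lit 0) .nil .nil))))) (.nd (nat_lit 3) (.nd (nat_lit 4) 
(.lf (nat_lit 127973) (.g (nat_lit 2658) (.e (nat_lit 7589) (nat_lit 406) (.e (nat_lit 65569) (nat_lit 3) (.e (nat_lit 98389) (nat_lit 33) (.e (nat_lit 491560) (nat_lit 10) (.e (nat_lit 344117) (nat_lit 21) (.e (nat_lit 516098) (nat_lit 0) .nil)))))) (.g (nat_lit 5) .nil .nil))) 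
(.lf (nat_lit 127989) (.g (nat_lit 2141) (.e (nat_lit 7589) (nat_lit 406) (.e (nat_lit 65648) (nat_lit 26) (.e (nat_lit 417811) (nat_lit 6) (.e (nat_lit 286761) (nat_lit 13) (.e (nat_lit 393233) (nat_lit 17) .nil))))) (.g (nat_lit 0) .nil .nil)))) (.nd (nat_lit 4) 
(.lf (nat_lit 127981) (.g (nat_lit 971) (.e (nat_lit 7589) (nat_lit 406) (.e (nat_lit 65647) (nat_lit 25) (.e (nat_lit 409604) (nat_lit 0) (.e (nat_lit 5404) (nat_lit 302) (.e (nat_lit 65653) (nat_lit 27) (.e (nat_lit 426009) (nat_lit 0) .nil)))))) (.g (nat_lit 0) .nil .nil))) 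
(.lf (nat_lit 127997) (.g (nat_lit 2833) (.e (nat_lit 7589) (nat_lit 406) (.e (nat_lit 65653) (nat_lit 27) (.e (nat_lit 426341) (nat_lit 14) (.e (nat_lit 491569) (nat_lit 13) (.e (nat_lit 393234) (nat_lit 17) .nil))))) (.g (nat_lit 0) .nil .nil)))))) (.nd (nat_lit 2) (.nd (nat_lit 3) (.nd (nat_lit 4) 
(.lf (nat_lit 127971) (.g (nat_lit 2846) (.e (nat_lit 7588) (nat_lit 406) (.e (nat_lit 65653) (nat_lit 27) (.e (nat_lit 426344) (nat_lit 14) (.e (nat_lit 491556) (nat_lit 9) (.e (nat_lit 336402) (nat_lit 27) (.e (nat_lit 425987) (nat_lit 0) .nil)))))) (.g (nat_lit 0) .nil .nil))) 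
(.lf (nat_lit 127987) (.g (nat_lit 2688) (.e (nat_lit 7589) (nat_lit 406) (.e (nat_lit 65648) (nat_lit 26) (.e (nat_lit 417810) (nat_lit 6) (.e (nat_lit 286761) (nat_lit 13) (.e (nat_lit 393233) (nat_lit 17) .nil))))) (.g (nat_lit 0) .nil .nil)))) (.nd (nat_lit 4) 
(.lf (nat_lit 127979) (.g (nat_lit 1432) (.e (nat_lit 7589) (nat_lit 406) (.e (nat_lit 65647) (nat_lit 25) (.e (nat_lit 409602) (nat_lit 0) (.e (nat_lit 5404) (nat_lit 302) (.e (nat_lit 65653) (nat_lit 27) (.e (nat_lit 426009) (nat_lit 0) .nil)))))) (.g (nat_lit 0) .nil .nil))) 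
(.lf (nat_lit 127995) (.g (nat_lit 1562) (.e (nat_lit 7589) (nat_lit 406) (.e (nat_lit 65653) (nat_lit 27) (.e (nat_lit 426011) (nat_lit 0) (.e (nat_lit 7500) (nat_lit 402) .nil)))) .nil)))) (.nd (nat_lit 3) (.nd (nat_lit 4) 
(.lf (nat_lit 127975) (.g (nat_lit 741) (.e (nat_lit 7589) (nat_lit 406) (.e (nat_lit 65578) (nat_lit 6) (.e (nat_lit 147467) (nat_lit 9) (.e (nat_lit 314) (nat_lit 23) .nil)))) .nil)) 
(.lf (nat_lit 127991) (.g (nat_lit 909) (.e (nat_lit 7589) (nat_lit 406) (.e (nat_lit 65652) (nat_lit 27) (.e (nat_lit 425989) (nat_lit 0) (.e (nat_lit 7588) (nat_lit 406) (.e (nat_lit 65653) (nat_lit 27) (.e (nat_lit 426009) (nat_lit 0) .nil)))))) (.g (nat_lit 0) .nil .nil)))) (.nd (nat_lit 4) 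
(.lf (nat_lit 127983) (.g (nat_lit 912) (.e (nat_lit 7589) (nat_lit 406) (.e (nat_lit 65648) (nat_lit 26) (.e (nat_lit 417793) (nat_lit 0) (.e (nat_lit 5405) (nat_lit 302) (.e (nat_lit 65653) (nat_lit 27) (.e (nat_lit 426009) (nat_lit 0) .nil)))))) (.g (nat_lit 0) .nil .nil))) 
(.lf (nat_lit 127999) (.g (nat_lit 1881) (.e (nat_lit 7589) (nat_lit 406) (.e (nat_lit 65653) (nat_lit 27) (.e (nat_lit 426343) (nat_lit 14) (.e (nat_lit 491568) (nat_lit 13) (.e (nat_lit 393230) (nat_lit 17) .nil))))) (.g (nat_lit 4) .nil .nil))))))))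

noncomputable def tv1715 : DT := (.nd (nat_lit 0) (.nd (nat_lit 1) (.nd (nat_lit 2) (.nd (nat_lit 3) (.nd (nat_lit 4) (.nd (nat_lit 5) (.nd (nat_lit 6) 
(.lf (nat_lit 128000) (.g (nat_lit 2129) (.e (nat_lit 7589) (nat_lit 406) (.e (nat_lit 65653) (nat_lit 27) (.e (nat_lit 426343) (nat_lit 14) (.e (nat_lit 491568) (nat_lit 13) (.e (nat_lit 393231) (nat_lit 17) .nil))))) (.g (nat_lit 4) .nil .nil))) 
(.lf (nat_lit 128064) (.g (nat_lit 1666) (.e (nat_lit 7590) (nat_lit 407) (.e (nat_lit 73733) (nat_lit 0) (.e (nat_lit 7272) (nat_lit 385) (.e (nat_lit 122916) (nat_lit 14) (.e (nat_lit 352276) (nat_lit 11) (.e (nat_lit 425987) (nat_lit 0) .nil)))))) (.g (nat_lit 4) .nil .nil)))) (.nd (nat_lit 6) 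
(.lf (nat_lit 128032) (.g (nat_lit 2565) (.e (nat_lit 7936) (nat_lit 406) (.e (nat_lit 65653) (nat_lit 27) (.e (nat_lit 426343) (nat_lit 14) (.e (nat_lit 491570) (nat_lit 13) (.e (nat_lit 393243) (nat_lit 17) .nil))))) .nil)) 
(.lf (nat_lit 128096) (.g (nat_lit 1711) (.e (nat_lit 7590) (nat_lit 407) (.e (nat_lit 73755) (nat_lit 8) (.e (nat_lit 557066) (nat_lit 9) (.e (nat_lit 310) (nat_lit 23) (.e (nat_lit 352312) (nat_lit 22) .nil))))) .nil)))) (.nd (nat_lit 5) (.nd (nat_lit 6) 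
(.lf (nat_lit 128016) (.g (nat_lit 1564) (.e (nat_lit 7936) (nat_lit 406) (.e (nat_lit 65571) (nat_lit 3) (.e (nat_lit 98350) (nat_lit 24) (.e (nat_lit 409617) (nat_lit 10) .nil)))) .nil)) 
(.lf (nat_lit 128080) (.g (nat_lit 1849) (.e (nat_lit 7590) (nat_lit 407) (.e (nat_lit 73753) (nat_lit 8) (.e (nat_lit 557066) (nat_lit 9) (.e (nat_lit 334) (nat_lit 26) (.e (nat_lit 376864) (nat_lit 22) .nil))))) .nil))) (.nd (nat_lit 6) 
(.lf (nat_lit 128048) (.g (nat_lit 427) (.e (nat_lit 7590) (nat_lit 407) (.e (nat_lit 73732) (nat_lit 0) (.e (nat_lit 7271) (nat_lit 385) .nil))) .nil)) 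
(.lf (nat_lit 128112) (.g (nat_lit 1045) (.e (nat_lit 7590) (nat_lit 407) (.e (nat_lit 73775) (nat_lit 26) (.e (nat_lit 778360) (nat_lit 9) (.e (nat_lit 312) (nat_lit 23) (.e (nat_lit 352276) (nat_lit 11) (.e (nat_lit 425990) (nat_lit 0) .nil)))))) (.g (nat_lit 4) .nil .nil)))))) (.nd (nat_lit 4) (.nd (nat_lit 5) (.nd (nat_lit 6) 
(.lf (nat_lit 128008) (.g (nat_lit 841) (.e (nat_lit 7936) (nat_lit 406) (.e (nat_lit 65568) (nat_lit 2) (.e (nat_lit 98048) (nat_lit 2) (.e (nat_lit 16468) (nat_lit 13) (.e (nat_lit 483330) (nat_lit 0) .nil))))) .nil)) 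
(.lf (nat_lit 128072) (.g (nat_lit 2663) (.e (nat_lit 7590) (nat_lit 407) (.e (nat_lit 73747) (nat_lit 3) (.e (nat_lit 516195) (nat_lit 26) (.e (nat_lit 335995) (nat_lit 1) (.e (nat_lit 57872) (nat_lit 264) (.e (nat_lit 1190) (nat_lit 88) (.e (nat_lit 65632) (nat_lit 15) .nil))))))) (.g (nat_lit 6) .nil .nil)))) (.nd (nat_lit 6) 
(.lf (nat_lit 128040) (.g (nat_lit 101) (.e (nat_lit 7590) (nat_lit 407) (.e (nat_lit 73730) (nat_lit 0) (.e (nat_lit 7265) (nat_lit 384) .nil))) .nil)) 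
(.lf (nat_lit 128104) (.g (nat_lit 551) (.e (nat_lit 7590) (nat_lit 407) (.e (nat_lit 73772) (nat_lit 24) (.e (nat_lit 761868) (nat_lit 5) (.e (nat_lit 1558) (nat_lit 110) (.e (nat_lit 352276) (nat_lit 11) (.e (nat_lit 425990) (nat_lit 0) .nil)))))) (.g (nat_lit 4) .nil .nil))))) (.nd (nat_lit 5) (.nd (nat_lit 6) 
(.lf (nat_lit 128024) (.g (nat_lit 2103) (.e (nat_lit 7936) (nat_lit 406) (.e (nat_lit 65578) (nat_lit 6) (.e (nat_lit 147496) (nat_lit 11) (.e (nat_lit 24655) (nat_lit 13) (.e (nat_lit 393237) (nat_lit 17) .nil))))) .nil)) 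
(.lf (nat_lit 128088) (.g (nat_lit 914) (.e (nat_lit 7590) (nat_lit 407) (.e (nat_lit 73753) (nat_lit 8) (.e (nat_lit 557074) (nat_lit 9) .nil))) .nil))) (.nd (nat_lit 6) 
(.lf (nat_lit 128056) (.g (nat_lit 2011) (.e (nat_lit 7590) (nat_lit 407) (.e (nat_lit 73733) (nat_lit 0) (.e (nat_lit 7270) (nat_lit 385) (.e (nat_lit 122916) (nat_lit 14) (.e (nat_lit 352276) (nat_lit 11) (.e (nat_lit 425984) (nat_lit 0) .nil)))))) (.g (nat_lit 4) .nil .nil))) 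
(.lf (nat_lit 128120) (.g (nat_lit 1546) (.e (nat_lit 7590) (nat_lit 407) (.e (nat_lit 73775) (nat_lit 26) (.e (nat_lit 778465) (nat_lit 11) (.e (nat_lit 24657) (nat_lit 13) (.e (nat_lit 401152) (nat_lit 17) .nil))))) (.g (nat_lit 4) .nil .nil))))))) (.nd (nat_lit 3) (.nd (nat_lit 4) (.nd (nat_lit 5) (.nd (nat_lit 6) 
(.lf (nat_lit 128004) (.g (nat_lit 880) (.e (nat_lit 7589) (nat_lit 406) (.e (nat_lit 65653) (nat_lit 27) (.e (nat_lit 426344) (nat_lit 14) (.e (nat_lit 499456) (nat_lit 13) .nil)))) .nil)) 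
(.lf (nat_lit 128068) (.g (nat_lit 1301) (.e (nat_lit 7590) (nat_lit 407) (.e (nat_lit 73733) (nat_lit 0) (.e (nat_lit 7273) (nat_lit 385) (.e (nat_lit 122916) (nat_lit 14) (.e (nat_lit 360192) (nat_lit 11) .nil))))) .nil))) (.nd (nat_lit 6) 
(.lf (nat_lit 128036) (.g (nat_lit 1097) (.e (nat_lit 7590) (nat_lit 407) (.e (nat_lit 73729) (nat_lit 0) (.e (nat_lit 7265) (nat_lit 384) (.e (nat_lit 57435) (nat_lit 17) .nil)))) .nil)) 
(.lf (nat_lit 128100) (.g (nat_lit 1524) (.e (nat_lit 7590) (nat_lit 407) (.e (nat_lit 73755) (nat_lit 8) (.e (nat_lit 557070) (nat_lit 9) (.e (nat_lit 333) (nat_lit 26) .nil)))) .nil)))) (.nd (nat_lit 5) (.nd (nat_lit 6) 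
(.lf (nat_lit 128020) (.g (nat_lit 645) (.e (nat_lit 7936) (nat_lit 406) (.e (nat_lit 65571) (nat_lit 3) (.e (nat_lit 98388) (nat_lit 33) .nil))) .nil)) 
(.lf (nat_lit 128084) (.g (nat_lit 1219) (.e (nat_lit 7590) (nat_lit 407) (.e (nat_lit 73753) (nat_lit 8) (.e (nat_lit 557068) (nat_lit 9) (.e (nat_lit 7936) (nat_lit 23) .nil)))) .nil))) (.nd (nat_lit 6) 
(.lf (nat_lit 128052) (.g (nat_lit 1693) (.e (nat_lit 7590) (nat_lit 407) (.e (nat_lit 73733) (nat_lit 0) (.e (nat_lit 7270) (nat_lit 385) (.e (nat_lit 122914) (nat_lit 14) (.e (nat_lit 360192) (nat_lit 11) (.e (nat_lit 425984) (nat_lit 0) .nil)))))) (.g (nat_lit 4) .nil .nil))) 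
(.lf (nat_lit 128116) (.g (nat_lit 1821) (.e (nat_lit 7590) (nat_lit 407) (.e (nat_lit 73775) (nat_lit 26) (.e (nat_lit 778362) (nat_lit 9) (.e (nat_lit 314) (nat_lit 23) (.e (nat_lit 360192) (nat_lit 11) .nil))))) .nil))))) (.nd (nat_lit 4) (.nd (nat_lit 5) (.nd (nat_lit 6) 
(.lf (nat_lit 128012) (.g (nat_lit 914) (.e (nat_lit 7936) (nat_lit 406) (.e (nat_lit 65571) (nat_lit 3) (.e (nat_lit 98319) (nat_lit 17) .nil))) .nil)) 
(.lf (nat_lit 128076) (.g (nat_lit 2000) (.e (nat_lit 7590) (nat_lit 407) (.e (nat_lit 73753) (nat_lit 8) (.e (nat_lit 557065) (nat_lit 9) (.e (nat_lit 334) (nat_lit 26) .nil)))) .nil))) (.nd (nat_lit 6) 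
(.lf (nat_lit 128044) (.g (nat_lit 1544) (.e (nat_lit 7590) (nat_lit 407) (.e (nat_lit 73731) (nat_lit 0) (.e (nat_lit 7265) (nat_lit 384) (.e (nat_lit 57423) (nat_lit 14) (.e (nat_lit 352276) (nat_lit 11) (.e (nat_lit 425987) (nat_lit 0) .nil)))))) (.g (nat_lit 6) .nil .nil))) 
(.lf (nat_lit 128108) (.g (nat_lit 642) (.e (nat_lit 7590) (nat_lit 407) (.e (nat_lit 73773) (nat_lit 25) (.e (nat_lit 770055) (nat_lit 5) (.e (nat_lit 1559) (nat_lit 110) (.e (nat_lit 352276) (nat_lit 11) .nil))))) .nil)))) (.nd (nat_lit 5) (.nd (nat_lit 6) 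
(.lf (nat_lit 128028) (.g (nat_lit 1538) (.e (nat_lit 7936) (nat_lit 406) (.e (nat_lit 65580) (nat_lit 6) (.e (nat_lit 147496) (nat_lit 11) (.e (nat_lit 24656) (nat_lit 13) (.e (nat_lit 393249) (nat_lit 17) .nil))))) .nil)) 
(.lf (nat_lit 128092) (.g (nat_lit 1063) (.e (nat_lit 7590) (nat_lit 407) (.e (nat_lit 73754) (nat_lit 8) (.e (nat_lit 557072) (nat_lit 9) (.e (nat_lit 7936) (nat_lit 26) .nil)))) .nil))) (.nd (nat_lit 6) 
(.lf (nat_lit 128060) (.g (nat_lit 1312) (.e (nat_lit 7590) (nat_lit 407) (.e (nat_lit 73733) (nat_lit 0) (.e (nat_lit 7272) (nat_lit 385) (.e (nat_lit 122914) (nat_lit 14) (.e (nat_lit 360192) (nat_lit 11) (.e (nat_lit 425987) (nat_lit 0) .nil)))))) (.g (nat_lit 4) .nil .nil))) 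
(.lf (nat_lit 128124) (.g (nat_lit 1990) (.e (nat_lit 7590) (nat_lit 407) (.e (nat_lit 73775) (nat_lit 26) (.e (nat_lit 778466) (nat_lit 11) (.e (nat_lit 24632) (nat_lit 9) (.e (nat_lit 336410) (nat_lit 27) (.e (nat_lit 425990) (nat_lit 0) .nil)))))) (.g (nat_lit 6) .nil .nil)))))))) (.nd (nat_lit 2) (.nd (nat_lit 3) (.nd (nat_lit 4) (.nd (nat_lit 5) (.nd (nat_lit 6) 
(.lf (nat_lit 128002) (.g (nat_lit 1330) (.e (nat_lit 7589) (nat_lit 406) (.e (nat_lit 65653) (nat_lit 27) (.e (nat_lit 426343) (nat_lit 14) (.e (nat_lit 499456) (nat_lit 13) .nil)))) .nil)) 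
(.lf (nat_lit 128066) (.g (nat_lit 1138) (.e (nat_lit 7590) (nat_lit 407) (.e (nat_lit 73733) (nat_lit 0) (.e (nat_lit 7273) (nat_lit 385) (.e (nat_lit 122914) (nat_lit 14) (.e (nat_lit 360192) (nat_lit 11) .nil))))) .nil))) (.nd (nat_lit 6) 
(.lf (nat_lit 128034) (.g (nat_lit 448) (.e (nat_lit 7590) (nat_lit 407) (.e (nat_lit 73729) (nat_lit 0) (.e (nat_lit 7263) (nat_lit 384) .nil))) .nil)) 
(.lf (nat_lit 128098) (.g (nat_lit 2219) (.e (nat_lit 7590) (nat_lit 407) (.e (nat_lit 73755) (nat_lit 8) (.e (nat_lit 557066) (nat_lit 9) (.e (nat_lit 314) (nat_lit 23) (.e (nat_lit 352312) (nat_lit 22) (.e (nat_lit 90133) (nat_lit 9) (.e (nat_lit 2400) (nat_lit 157) .nil))))))) (.g (nat_lit 5) .nil .nil))))) (.nd (nat_lit 5) (.nd (nat_lit 6) 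
(.lf (nat_lit 128018) (.g (nat_lit 3114) (.e (nat_lit 7936) (nat_lit 406) (.e (nat_lit 65571) (nat_lit 3) (.e (nat_lit 98350) (nat_lit 24) (.e (nat_lit 409641) (nat_lit 17) (.e (nat_lit 294931) (nat_lit 3) .nil))))) .nil)) 
(.lf (nat_lit 128082) (.g (nat_lit 1789) (.e (nat_lit 7590) (nat_lit 407) (.e (nat_lit 73753) (nat_lit 8) (.e (nat_lit 557067) (nat_lit 9) (.e (nat_lit 7936) (nat_lit 26) .nil)))) .nil))) (.nd (nat_lit 6) 
(.lf (nat_lit 128050) (.g (nat_lit 374) (.e (nat_lit 7590) (nat_lit 407) (.e (nat_lit 73733) (nat_lit 0) (.e (nat_lit 7147) (nat_lit 382) .nil))) .nil)) 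
(.lf (nat_lit 128114) (.g (nat_lit 2702) (.e (nat_lit 7590) (nat_lit 407) (.e (nat_lit 73775) (nat_lit 26) (.e (nat_lit 778362) (nat_lit 9) (.e (nat_lit 232) (nat_lit 21) (.e (nat_lit 336089) (nat_lit 9) (.e (nat_lit 336414) (nat_lit 27) (.e (nat_lit 425984) (nat_lit 0) .nil))))))) (.g (nat_lit 4) .nil .nil)))))) (.nd (nat_lit 4) (.nd (nat_lit 5) (.nd (nat_lit 6) 
(.lf (nat_lit 128010) (.g (nat_lit 1394) (.e (nat_lit 7936) (nat_lit 406) (.e (nat_lit 65569) (nat_lit 3) (.e (nat_lit 98320) (nat_lit 17) (.e (nat_lit 7593) (nat_lit 407) (.e (nat_lit 73746) (nat_lit 3) .nil))))) .nil)) 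
(.lf (nat_lit 128074) (.g (nat_lit 1475) (.e (nat_lit 7590) (nat_lit 407) (.e (nat_lit 73751) (nat_lit 7) (.e (nat_lit 548874) (nat_lit 5) (.e (nat_lit 1595) (nat_lit 111) (.e (nat_lit 360460) (nat_lit 1) .nil))))) .nil))) (.nd (nat_lit 6) 
(.lf (nat_lit 128042) (.g (nat_lit 1156) (.e (nat_lit 7590) (nat_lit 407) (.e (nat_lit 73731) (nat_lit 0) (.e (nat_lit 7261) (nat_lit 384) (.e (nat_lit 57436) (nat_lit 17) (.e (nat_lit 376840) (nat_lit 11) .nil))))) .nil)) 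
(.lf (nat_lit 128106) (.g (nat_lit 773) (.e (nat_lit 7590) (nat_lit 407) (.e (nat_lit 73772) (nat_lit 24) (.e (nat_lit 761869) (nat_lit 5) (.e (nat_lit 1558) (nat_lit 110) (.e (nat_lit 352276) (nat_lit 11) (.e (nat_lit 425990) (nat_lit 0) .nil)))))) (.g (nat_lit 4) .nil .nil))))) (.nd (nat_lit 5) (.nd (nat_lit 6) 
(.lf (nat_lit 128026) (.g (nat_lit 266) (.e (nat_lit 7936) (nat_lit 406) (.e (nat_lit 65580) (nat_lit 6) (.e (nat_lit 147472) (nat_lit 9) .nil))) .nil)) 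
(.lf (nat_lit 128090) (.g (nat_lit 1411) (.e (nat_lit 7590) (nat_lit 407) (.e (nat_lit 73754) (nat_lit 8) (.e (nat_lit 557070) (nat_lit 9) (.e (nat_lit 333) (nat_lit 26) .nil)))) .nil))) (.nd (nat_lit 6) 
(.lf (nat_lit 128058) (.g (nat_lit 1233) (.e (nat_lit 7590) (nat_lit 407) (.e (nat_lit 73733) (nat_lit 0) (.e (nat_lit 7272) (nat_lit 385) (.e (nat_lit 122914) (nat_lit 14) (.e (nat_lit 360192) (nat_lit 11) .nil))))) .nil)) 
(.lf (nat_lit 128122) (.g (nat_lit 1829) (.e (nat_lit 7590) (nat_lit 407) (.e (nat_lit 73775) (nat_lit 26) (.e (nat_lit 778466) (nat_lit 11) (.e (nat_lit 24632) (nat_lit 9) (.e (nat_lit 336410) (nat_lit 27) (.e (nat_lit 425987) (nat_lit 0) .nil)))))) (.g (nat_lit 5) .nil .nil))))))) (.nd (nat_lit 3) (.nd (nat_lit 4) (.nd (nat_lit 5) (.nd (nat_lit 6) 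
(.lf (nat_lit 128006) (.g (nat_lit 1359) (.e (nat_lit 7936) (nat_lit 406) (.e (nat_lit 65568) (nat_lit 2) (.e (nat_lit 98048) (nat_lit 2) (.e (nat_lit 16463) (nat_lit 13) (.e (nat_lit 483335) (nat_lit 0) .nil))))) .nil)) 
(.lf (nat_lit 128070) (.g (nat_lit 1858) (.e (nat_lit 7590) (nat_lit 407) (.e (nat_lit 73747) (nat_lit 3) (.e (nat_lit 516195) (nat_lit 26) (.e (nat_lit 335995) (nat_lit 1) (.e (nat_lit 57870) (nat_lit 264) .nil))))) .nil))) (.nd (nat_lit 6) 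
(.lf (nat_lit 128038) (.g (nat_lit 927) (.e (nat_lit 7590) (nat_lit 407) (.e (nat_lit 73730) (nat_lit 0) (.e (nat_lit 7261) (nat_lit 384) (.e (nat_lit 57424) (nat_lit 14) (.e (nat_lit 352276) (nat_lit 11) (.e (nat_lit 425990) (nat_lit 0) .nil)))))) (.g (nat_lit 4) .nil .nil))) 
(.lf (nat_lit 128102) (.g (nat_lit 668) (.e (nat_lit 7590) (nat_lit 407) (.e (nat_lit 73772) (nat_lit 24) (.e (nat_lit 761866) (nat_lit 5) (.e (nat_lit 1555) (nat_lit 110) (.e (nat_lit 360192) (nat_lit 11) .nil))))) .nil)))) (.nd (nat_lit 5) (.nd (nat_lit 6) 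
(.lf (nat_lit 128022) (.g (nat_lit 1123) (.e (nat_lit 7936) (nat_lit 406) (.e (nat_lit 65578) (nat_lit 6) (.e (nat_lit 147494) (nat_lit 11) (.e (nat_lit 24657) (nat_lit 13) (.e (nat_lit 401152) (nat_lit 17) .nil))))) .nil)) 
(.lf (nat_lit 128086) (.g (nat_lit 660) (.e (nat_lit 7590) (nat_lit 407) (.e (nat_lit 73753) (nat_lit 8) (.e (nat_lit 557072) (nat_lit 9) .nil))) .nil))) (.nd (nat_lit 6) 
(.lf (nat_lit 128054) (.g (nat_lit 1300) (.e (nat_lit 7590) (nat_lit 407) (.e (nat_lit 73733) (nat_lit 0) (.e (nat_lit 7270) (nat_lit 385) (.e (nat_lit 122915) (nat_lit 14) .nil)))) .nil)) 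
(.lf (nat_lit 128118) (.g (nat_lit 1623) (.e (nat_lit 7590) (nat_lit 407) (.e (nat_lit 73775) (nat_lit 26) (.e (nat_lit 778362) (nat_lit 9) (.e (nat_lit 334) (nat_lit 26) (.e (nat_lit 376839) (nat_lit 11) .nil))))) .nil))))) (.nd (nat_lit 4) (.nd (nat_lit 5) (.nd (nat_lit 6) 
(.lf (nat_lit 128014) (.g (nat_lit 457) (.e (nat_lit 7936) (nat_lit 406) (.e (nat_lit 65571) (nat_lit 3) (.e (nat_lit 98350) (nat_lit 24) .nil))) .nil)) 
(.lf (nat_lit 128078) (.g (nat_lit 2122) (.e (nat_lit 7590) (nat_lit 407) (.e (nat_lit 73753) (nat_lit 8) (.e (nat_lit 557066) (nat_lit 9) (.e (nat_lit 314) (nat_lit 23) (.e (nat_lit 352312) (nat_lit 22) .nil))))) .nil))) (.nd (nat_lit 6) 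
(.lf (nat_lit 128046) (.g (nat_lit 1198) (.e (nat_lit 7590) (nat_lit 407) (.e (nat_lit 73731) (nat_lit 0) (.e (nat_lit 7265) (nat_lit 384) (.e (nat_lit 57435) (nat_lit 17) (.e (nat_lit 376840) (nat_lit 11) (.e (nat_lit 425984) (nat_lit 0) .nil)))))) (.g (nat_lit 4) .nil .nil))) 
(.lf (nat_lit 128110) (.g (nat_lit 734) (.e (nat_lit 7590) (nat_lit 407) (.e (nat_lit 73773) (nat_lit 25) (.e (nat_lit 770058) (nat_lit 5) (.e (nat_lit 1559) (nat_lit 110) (.e (nat_lit 352276) (nat_lit 11) .nil))))) .nil)))) (.nd (nat_lit 5) (.nd (nat_lit 6) 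
(.lf (nat_lit 128030) (.g (nat_lit 1136) (.e (nat_lit 7936) (nat_lit 406) (.e (nat_lit 65653) (nat_lit 27) (.e (nat_lit 426343) (nat_lit 14) (.e (nat_lit 491570) (nat_lit 13) .nil)))) .nil)) 
(.lf (nat_lit 128094) (.g (nat_lit 435) (.e (nat_lit 7590) (nat_lit 407) (.e (nat_lit 73755) (nat_lit 8) (.e (nat_lit 557065) (nat_lit 9) .nil))) .nil))) (.nd (nat_lit 6) 
(.lf (nat_lit 128062) (.g (nat_lit 1659) (.e (nat_lit 7590) (nat_lit 407) (.e (nat_lit 73733) (nat_lit 0) (.e (nat_lit 7272) (nat_lit 385) (.e (nat_lit 122916) (nat_lit 14) (.e (nat_lit 352276) (nat_lit 11) .nil))))) .nil)) 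
(.lf (nat_lit 128126) (.g (nat_lit 390) (.e (nat_lit 7590) (nat_lit 407) (.e (nat_lit 73776) (nat_lit 26) (.e (nat_lit 778465) (nat_lit 11) .nil))) .nil)))))))) (.nd (nat_lit 1) (.nd (nat_lit 2) (.nd (nat_lit 3) (.nd (nat_lit 4) (.nd (nat_lit 5) (.nd (nat_lit 6) 
(.lf (nat_lit 128001) (.g (nat_lit 3280) (.e (nat_lit 7589) (nat_lit 406) (.e (nat_lit 65653) (nat_lit 27) (.e (nat_lit 426343) (nat_lit 14) (.e (nat_lit 491569) (nat_lit 13) (.e (nat_lit 393234) (nat_lit 17) .nil))))) (.g (nat_lit 0) .nil .nil))) 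
(.lf (nat_lit 128065) (.g (nat_lit 1777) (.e (nat_lit 7590) (nat_lit 407) (.e (nat_lit 73733) (nat_lit 0) (.e (nat_lit 7272) (nat_lit 385) (.e (nat_lit 122916) (nat_lit 14) (.e (nat_lit 360192) (nat_lit 11) (.e (nat_lit 425987) (nat_lit 0) .nil)))))) (.g (nat_lit 4) .nil .nil)))) (.nd (nat_lit 6) 
(.lf (nat_lit 128033) (.g (nat_lit 445) (.e (nat_lit 7590) (nat_lit 407) (.e (nat_lit 73729) (nat_lit 0) (.e (nat_lit 7261) (nat_lit 384) .nil))) .nil)) 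
(.lf (nat_lit 128097) (.g (nat_lit 2260) (.e (nat_lit 7590) (nat_lit 407) (.e (nat_lit 73755) (nat_lit 8) (.e (nat_lit 557066) (nat_lit 9) (.e (nat_lit 314) (nat_lit 23) (.e (nat_lit 352312) (nat_lit 22) (.e (nat_lit 90133) (nat_lit 9) (.e (nat_lit 2397) (nat_lit 157) .nil))))))) (.g (nat_lit 5) .nil .nil))))) (.nd (nat_lit 5) (.nd (nat_lit 6) 
(.lf (nat_lit 128017) (.g (nat_lit 1935) (.e (nat_lit 7936) (nat_lit 406) (.e (nat_lit 65571) (nat_lit 3) (.e (nat_lit 98350) (nat_lit 24) (.e (nat_lit 409640) (nat_lit 17) .nil)))) .nil)) 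
(.lf (nat_lit 128081) (.g (nat_lit 1789) (.e (nat_lit 7590) (nat_lit 407) (.e (nat_lit 73753) (nat_lit 8) (.e (nat_lit 557067) (nat_lit 9) (.e (nat_lit 7936) (nat_lit 23) .nil)))) .nil))) (.nd (nat_lit 6) 
(.lf (nat_lit 128049) (.g (nat_lit 427) (.e (nat_lit 7590) (nat_lit 407) (.e (nat_lit 73732) (nat_lit 0) (.e (nat_lit 7272) (nat_lit 385) .nil))) .nil)) 
(.lf (nat_lit 128113) (.g (nat_lit 1080) (.e (nat_lit 7590) (nat_lit 407) (.e (nat_lit 73775) (nat_lit 26) (.e (nat_lit 778361) (nat_lit 9) (.e (nat_lit 309) (nat_lit 23) .nil)))) .nil))))) (.nd (nat_lit 4) (.nd (nat_lit 5) (.nd (nat_lit 6) 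
(.lf (nat_lit 128009) (.g (nat_lit 1182) (.e (nat_lit 7936) (nat_lit 406) (.e (nat_lit 65569) (nat_lit 3) (.e (nat_lit 98319) (nat_lit 17) (.e (nat_lit 7593) (nat_lit 407) (.e (nat_lit 73746) (nat_lit 3) .nil))))) .nil)) 
(.lf (nat_lit 128073) (.g (nat_lit 1208) (.e (nat_lit 7590) (nat_lit 407) (.e (nat_lit 73751) (nat_lit 7) (.e (nat_lit 548870) (nat_lit 5) (.e (nat_lit 1615) (nat_lit 113) (.e (nat_lit 376864) (nat_lit 22) (.e (nat_lit 90133) (nat_lit 9) (.e (nat_lit 2400) (nat_lit 157) .nil))))))) (.g (nat_lit 6) .nil .nil)))) (.nd (nat_lit 6) 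
(.lf (nat_lit 128041) (.g (nat_lit 1075) (.e (nat_lit 7590) (nat_lit 407) (.e (nat_lit 73731) (nat_lit 0) (.e (nat_lit 7261) (nat_lit 384) (.e (nat_lit 57424) (nat_lit 14) (.e (nat_lit 352276) (nat_lit 11) (.e (nat_lit 425990) (nat_lit 0) .nil)))))) (.g (nat_lit 4) .nil .nil))) 
(.lf (nat_lit 128105) (.g (nat_lit 547) (.e (nat_lit 7590) (nat_lit 407) (.e (nat_lit 73772) (nat_lit 24) (.e (nat_lit 761869) (nat_lit 5) (.e (nat_lit 1558) (nat_lit 110) .nil)))) .nil)))) (.nd (nat_lit 5) (.nd (nat_lit 6) 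
(.lf (nat_lit 128025) (.g (nat_lit 761) (.e (nat_lit 7936) (nat_lit 406) (.e (nat_lit 65580) (nat_lit 6) (.e (nat_lit 147463) (nat_lit 9) (.e (nat_lit 249) (nat_lit 21) (.e (nat_lit 336215) (nat_lit 13) .nil))))) .nil)) 
(.lf (nat_lit 128089) (.g (nat_lit 1880) (.e (nat_lit 7590) (nat_lit 407) (.e (nat_lit 73753) (nat_lit 8) (.e (nat_lit 557074) (nat_lit 9) (.e (nat_lit 7936) (nat_lit 26) .nil)))) .nil))) (.nd (nat_lit 6) 
(.lf (nat_lit 128057) (.g (nat_lit 1967) (.e (nat_lit 7590) (nat_lit 407) (.e (nat_lit 73733) (nat_lit 0) (.e (nat_lit 7270) (nat_lit 385) (.e (nat_lit 122916) (nat_lit 14) (.e (nat_lit 360192) (nat_lit 11) (.e (nat_lit 425987) (nat_lit 0) .nil)))))) (.g (nat_lit 4) .nil .nil))) 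
(.lf (nat_lit 128121) (.g (nat_lit 2067) (.e (nat_lit 7590) (nat_lit 407) (.e (nat_lit 73775) (nat_lit 26) (.e (nat_lit 778466) (nat_lit 11) (.e (nat_lit 24632) (nat_lit 9) (.e (nat_lit 336410) (nat_lit 27) (.e (nat_lit 425984) (nat_lit 0) .nil)))))) (.g (nat_lit 6) .nil .nil))))))) (.nd (nat_lit 3) (.nd (nat_lit 4) (.nd (nat_lit 5) (.nd (nat_lit 6) 
(.lf (nat_lit 128005) (.g (nat_lit 486) (.e (nat_lit 7936) (nat_lit 406) (.e (nat_lit 65568) (nat_lit 2) (.e (nat_lit 98048) (nat_lit 2) .nil))) .nil)) 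
(.lf (nat_lit 128069) (.g (nat_lit 1123) (.e (nat_lit 7590) (nat_lit 407) (.e (nat_lit 73747) (nat_lit 3) (.e (nat_lit 516195) (nat_lit 26) (.e (nat_lit 335995) (nat_lit 1) .nil)))) .nil))) (.nd (nat_lit 6) 
(.lf (nat_lit 128037) (.g (nat_lit 1131) (.e (nat_lit 7590) (nat_lit 407) (.e (nat_lit 73729) (nat_lit 0) (.e (nat_lit 7265) (nat_lit 384) (.e (nat_lit 57436) (nat_lit 17) .nil)))) .nil)) 
(.lf (nat_lit 128101) (.g (nat_lit 1258) (.e (nat_lit 7590) (nat_lit 407) (.e (nat_lit 73755) (nat_lit 8) (.e (nat_lit 557074) (nat_lit 9) (.e (nat_lit 7936) (nat_lit 26) .nil)))) .nil)))) (.nd (nat_lit 5) (.nd (nat_lit 6) 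
(.lf (nat_lit 128021) (.g (nat_lit 1975) (.e (nat_lit 7936) (nat_lit 406) (.e (nat_lit 65571) (nat_lit 3) (.e (nat_lit 98389) (nat_lit 33) (.e (nat_lit 491560) (nat_lit 10) (.e (nat_lit 344118) (nat_lit 21) .nil))))) .nil)) 
(.lf (nat_lit 128085) (.g (nat_lit 686) (.e (nat_lit 7590) (nat_lit 407) (.e (nat_lit 73753) (nat_lit 8) (.e (nat_lit 557070) (nat_lit 9) .nil))) .nil))) (.nd (nat_lit 6) 
(.lf (nat_lit 128053) (.g (nat_lit 1629) (.e (nat_lit 7590) (nat_lit 407) (.e (nat_lit 73733) (nat_lit 0) (.e (nat_lit 7270) (nat_lit 385) (.e (nat_lit 122914) (nat_lit 14) (.e (nat_lit 360192) (nat_lit 11) (.e (nat_lit 425987) (nat_lit 0) .nil)))))) (.g (nat_lit 4) .nil .nil))) 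
(.lf (nat_lit 128117) (.g (nat_lit 1207) (.e (nat_lit 7590) (nat_lit 407) (.e (nat_lit 73775) (nat_lit 26) (.e (nat_lit 778362) (nat_lit 9) (.e (nat_lit 332) (nat_lit 26) .nil)))) .nil))))) (.nd (nat_lit 4) (.nd (nat_lit 5) (.nd (nat_lit 6) 
(.lf (nat_lit 128013) (.g (nat_lit 1197) (.e (nat_lit 7936) (nat_lit 406) (.e (nat_lit 65571) (nat_lit 3) (.e (nat_lit 98320) (nat_lit 17) (.e (nat_lit 7591) (nat_lit 407) .nil)))) .nil)) 
(.lf (nat_lit 128077) (.g (nat_lit 1718) (.e (nat_lit 7590) (nat_lit 407) (.e (nat_lit 73753) (nat_lit 8) (.e (nat_lit 557066) (nat_lit 9) (.e (nat_lit 309) (nat_lit 23) .nil)))) .nil))) (.nd (nat_lit 6) 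
(.lf (nat_lit 128045) (.g (nat_lit 1128) (.e (nat_lit 7590) (nat_lit 407) (.e (nat_lit 73731) (nat_lit 0) (.e (nat_lit 7265) (nat_lit 384) (.e (nat_lit 57435) (nat_lit 17) (.e (nat_lit 376840) (nat_lit 11) .nil))))) .nil)) 
(.lf (nat_lit 128109) (.g (nat_lit 548) (.e (nat_lit 7590) (nat_lit 407) (.e (nat_lit 73773) (nat_lit 25) (.e (nat_lit 770057) (nat_lit 5) (.e (nat_lit 1559) (nat_lit 110) (.e (nat_lit 352276) (nat_lit 11) .nil))))) .nil)))) (.nd (nat_lit 5) (.nd (nat_lit 6) 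
(.lf (nat_lit 128029) (.g (nat_lit 210) (.e (nat_lit 7936) (nat_lit 406) (.e (nat_lit 65633) (nat_lit 15) (.e (nat_lit 7089) (nat_lit 379) .nil))) .nil)) 
(.lf (nat_lit 128093) (.g (nat_lit 784) (.e (nat_lit 7590) (nat_lit 407) (.e (nat_lit 73754) (nat_lit 8) (.e (nat_lit 557074) (nat_lit 9) .nil))) .nil))) (.nd (nat_lit 6) 
(.lf (nat_lit 128061) (.g (nat_lit 930) (.e (nat_lit 7590) (nat_lit 407) (.e (nat_lit 73733) (nat_lit 0) (.e (nat_lit 7272) (nat_lit 385) (.e (nat_lit 122915) (nat_lit 14) .nil)))) .nil)) 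
(.lf (nat_lit 128125) (.g (nat_lit 1517) (.e (nat_lit 7590) (nat_lit 407) (.e (nat_lit 73775) (nat_lit 26) (.e (nat_lit 778466) (nat_lit 11) (.e (nat_lit 24656) (nat_lit 13) (.e (nat_lit 401152) (nat_lit 17) .nil))))) .nil))))))) (.nd (nat_lit 2) (.nd (nat_lit 3) (.nd (nat_lit 4) (.nd (nat_lit 5) (.nd (nat_lit 6) 
(.lf (nat_lit 128003) (.g (nat_lit 2642) (.e (nat_lit 7589) (nat_lit 406) (.e (nat_lit 65653) (nat_lit 27) (.e (nat_lit 426344) (nat_lit 14) (.e (nat_lit 491568) (nat_lit 13) (.e (nat_lit 393230) (nat_lit 17) .nil))))) .nil)) 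
(.lf (nat_lit 128067) (.g (nat_lit 1298) (.e (nat_lit 7590) (nat_lit 407) (.e (nat_lit 73733) (nat_lit 0) (.e (nat_lit 7273) (nat_lit 385) (.e (nat_lit 122916) (nat_lit 14) (.e (nat_lit 352276) (nat_lit 11) .nil))))) .nil))) (.nd (nat_lit 6) 
(.lf (nat_lit 128035) (.g (nat_lit 1108) (.e (nat_lit 7590) (nat_lit 407) (.e (nat_lit 73729) (nat_lit 0) (.e (nat_lit 7265) (nat_lit 384) (.e (nat_lit 57423) (nat_lit 14) .nil)))) .nil)) 
(.lf (nat_lit 128099) (.g (nat_lit 1801) (.e (nat_lit 7590) (nat_lit 407) (.e (nat_lit 73755) (nat_lit 8) (.e (nat_lit 557066) (nat_lit 9) (.e (nat_lit 321) (nat_lit 24) (.e (nat_lit 360460) (nat_lit 1) .nil))))) .nil)))) (.nd (nat_lit 5) (.nd (nat_lit 6) 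
(.lf (nat_lit 128019) (.g (nat_lit 1973) (.e (nat_lit 7936) (nat_lit 406) (.e (nat_lit 65571) (nat_lit 3) (.e (nat_lit 98387) (nat_lit 33) (.e (nat_lit 491560) (nat_lit 10) (.e (nat_lit 344117) (nat_lit 21) .nil))))) .nil)) 
(.lf (nat_lit 128083) (.g (nat_lit 688) (.e (nat_lit 7590) (nat_lit 407) (.e (nat_lit 73753) (nat_lit 8) (.e (nat_lit 557068) (nat_lit 9) .nil))) .nil))) (.nd (nat_lit 6) 
(.lf (nat_lit 128051) (.g (nat_lit 1564) (.e (nat_lit 7590) (nat_lit 407) (.e (nat_lit 73733) (nat_lit 0) (.e (nat_lit 7270) (nat_lit 385) (.e (nat_lit 122914) (nat_lit 14) (.e (nat_lit 360192) (nat_lit 11) .nil))))) .nil)) 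
(.lf (nat_lit 128115) (.g (nat_lit 1218) (.e (nat_lit 7590) (nat_lit 407) (.e (nat_lit 73775) (nat_lit 26) (.e (nat_lit 778362) (nat_lit 9) (.e (nat_lit 309) (nat_lit 23) .nil)))) .nil))))) (.nd (nat_lit 4) (.nd (nat_lit 5) (.nd (nat_lit 6) 
(.lf (nat_lit 128011) (.g (nat_lit 1733) (.e (nat_lit 7936) (nat_lit 406) (.e (nat_lit 65570) (nat_lit 3) (.e (nat_lit 98389) (nat_lit 33) (.e (nat_lit 491560) (nat_lit 10) (.e (nat_lit 344118) (nat_lit 21) .nil))))) .nil)) 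
(.lf (nat_lit 128075) (.g (nat_lit 2070) (.e (nat_lit 7590) (nat_lit 407) (.e (nat_lit 73751) (nat_lit 7) (.e (nat_lit 548891) (nat_lit 11) (.e (nat_lit 81953) (nat_lit 22) (.e (nat_lit 90133) (nat_lit 9) (.e (nat_lit 2400) (nat_lit 157) .nil)))))) (.g (nat_lit 6) .nil .nil)))) (.nd (nat_lit 6) 
(.lf (nat_lit 128043) (.g (nat_lit 1205) (.e (nat_lit 7590) (nat_lit 407) (.e (nat_lit 73731) (nat_lit 0) (.e (nat_lit 7261) (nat_lit 384) (.e (nat_lit 57437) (nat_lit 17) (.e (nat_lit 376840) (nat_lit 11) .nil))))) .nil)) 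
(.lf (nat_lit 128107) (.g (nat_lit 299) (.e (nat_lit 7590) (nat_lit 407) (.e (nat_lit 73772) (nat_lit 24) (.e (nat_lit 769792) (nat_lit 10) .nil))) .nil)))) (.nd (nat_lit 5) (.nd (nat_lit 6) 
(.lf (nat_lit 128027) (.g (nat_lit 1093) (.e (nat_lit 7936) (nat_lit 406) (.e (nat_lit 65580) (nat_lit 6) (.e (nat_lit 147494) (nat_lit 11) (.e (nat_lit 24657) (nat_lit 13) (.e (nat_lit 401152) (nat_lit 17) .nil))))) .nil)) 
(.lf (nat_lit 128091) (.g (nat_lit 1362) (.e (nat_lit 7590) (nat_lit 407) (.e (nat_lit 73754) (nat_lit 8) (.e (nat_lit 557070) (nat_lit 9) (.e (nat_lit 7936) (nat_lit 26) .nil)))) .nil))) (.nd (nat_lit 6) 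
(.lf (nat_lit 128059) (.g (nat_lit 1369) (.e (nat_lit 7590) (nat_lit 407) (.e (nat_lit 73733) (nat_lit 0) (.e (nat_lit 7272) (nat_lit 385) (.e (nat_lit 122914) (nat_lit 14) (.e (nat_lit 360192) (nat_lit 11) (.e (nat_lit 425984) (nat_lit 0) .nil)))))) (.g (nat_lit 4) .nil .nil))) 
(.lf (nat_lit 128123) (.g (nat_lit 1793) (.e (nat_lit 7590) (nat_lit 407) (.e (nat_lit 73775) (nat_lit 26) (.e (nat_lit 778466) (nat_lit 11) (.e (nat_lit 24632) (nat_lit 9) (.e (nat_lit 336410) (nat_lit 27) (.e (nat_lit 425989) (nat_lit 0) .nil)))))) (.g (nat_lit 4) .nil .nil))))))) (.nd (nat_lit 3) (.nd (nat_lit 4) (.nd (nat_lit 5) (.nd (nat_lit 6) 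
(.lf (nat_lit 128007) (.g (nat_lit 1198) (.e (nat_lit 7936) (nat_lit 406) (.e (nat_lit 65568) (nat_lit 2) (.e (nat_lit 98048) (nat_lit 2) (.e (nat_lit 16466) (nat_lit 13) (.e (nat_lit 483329) (nat_lit 0) .nil))))) .nil)) 
(.lf (nat_lit 128071) (.g (nat_lit 2627) (.e (nat_lit 7590) (nat_lit 407) (.e (nat_lit 73747) (nat_lit 3) (.e (nat_lit 516195) (nat_lit 26) (.e (nat_lit 335995) (nat_lit 1) (.e (nat_lit 57872) (nat_lit 264) (.e (nat_lit 1188) (nat_lit 88) (.e (nat_lit 65632) (nat_lit 15) .nil))))))) (.g (nat_lit 6) .nil .nil)))) (.nd (nat_lit 6) 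
(.lf (nat_lit 128039) (.g (nat_lit 1014) (.e (nat_lit 7590) (nat_lit 407) (.e (nat_lit 73730) (nat_lit 0) (.e (nat_lit 7261) (nat_lit 384) (.e (nat_lit 57436) (nat_lit 17) (.e (nat_lit 376840) (nat_lit 11) .nil))))) .nil)) 
(.lf (nat_lit 128103) (.g (nat_lit 199) (.e (nat_lit 7590) (nat_lit 407) (.e (nat_lit 73772) (nat_lit 24) (.e (nat_lit 761868) (nat_lit 5) .nil))) .nil)))) (.nd (nat_lit 5) (.nd (nat_lit 6) 
(.lf (nat_lit 128023) (.g (nat_lit 130) (.e (nat_lit 7936) (nat_lit 406) (.e (nat_lit 65578) (nat_lit 6) (.e (nat_lit 147495) (nat_lit 11) .nil))) .nil)) 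
(.lf (nat_lit 128087) (.g (nat_lit 703) (.e (nat_lit 7590) (nat_lit 407) (.e (nat_lit 73753) (nat_lit 8) (.e (nat_lit 557073) (nat_lit 9) .nil))) .nil))) (.nd (nat_lit 6) 
(.lf (nat_lit 128055) (.g (nat_lit 1968) (.e (nat_lit 7590) (nat_lit 407) (.e (nat_lit 73733) (nat_lit 0) (.e (nat_lit 7270) (nat_lit 385) (.e (nat_lit 122916) (nat_lit 14) (.e (nat_lit 352276) (nat_lit 11) .nil))))) .nil)) 
(.lf (nat_lit 128119) (.g (nat_lit 1274) (.e (nat_lit 7590) (nat_lit 407) (.e (nat_lit 73775) (nat_lit 26) (.e (nat_lit 778464) (nat_lit 11) (.e (nat_lit 24657) (nat_lit 13) (.e (nat_lit 401152) (nat_lit 17) .nil))))) .nil))))) (.nd (nat_lit 4) (.nd (nat_lit 5) (.nd (nat_lit 6) 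
(.lf (nat_lit 128015) (.g (nat_lit 2278) (.e (nat_lit 7936) (nat_lit 406) (.e (nat_lit 65571) (nat_lit 3) (.e (nat_lit 98350) (nat_lit 24) (.e (nat_lit 409616) (nat_lit 10) (.e (nat_lit 7936) (nat_lit 301) .nil))))) .nil)) 
(.lf (nat_lit 128079) (.g (nat_lit 1446) (.e (nat_lit 7590) (nat_lit 407) (.e (nat_lit 73753) (nat_lit 8) (.e (nat_lit 557066) (nat_lit 9) (.e (nat_lit 334) (nat_lit 26) .nil)))) .nil))) (.nd (nat_lit 6) 
(.lf (nat_lit 128047) (.g (nat_lit 1177) (.e (nat_lit 7590) (nat_lit 407) (.e (nat_lit 73731) (nat_lit 0) (.e (nat_lit 7265) (nat_lit 384) (.e (nat_lit 57435) (nat_lit 17) (.e (nat_lit 376840) (nat_lit 11) (.e (nat_lit 425987) (nat_lit 0) .nil)))))) (.g (nat_lit 4) .nil .nil))) 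
(.lf (nat_lit 128111) (.g (nat_lit 345) (.e (nat_lit 7590) (nat_lit 407) (.e (nat_lit 73775) (nat_lit 26) (.e (nat_lit 778360) (nat_lit 9) .nil))) .nil)))) (.nd (nat_lit 5) (.nd (nat_lit 6) 
(.lf (nat_lit 128031) (.g (nat_lit 2772) (.e (nat_lit 7936) (nat_lit 406) (.e (nat_lit 65653) (nat_lit 27) (.e (nat_lit 426343) (nat_lit 14) (.e (nat_lit 491570) (nat_lit 13) (.e (nat_lit 393242) (nat_lit 17) .nil))))) .nil)) 
(.lf (nat_lit 128095) (.g (nat_lit 2176) (.e (nat_lit 7590) (nat_lit 407) (.e (nat_lit 73755) (nat_lit 8) (.e (nat_lit 557066) (nat_lit 9) (.e (nat_lit 309) (nat_lit 23) (.e (nat_lit 352312) (nat_lit 22) (.e (nat_lit 90133) (nat_lit 9) (.e (nat_lit 2397) (nat_lit 157) .nil))))))) (.g (nat_lit 5) .nil .nil)))) (.nd (nat_lit 6) 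
(.lf (nat_lit 128063) (.g (nat_lit 1729) (.e (nat_lit 7590) (nat_lit 407) (.e (nat_lit 73733) (nat_lit 0) (.e (nat_lit 7272) (nat_lit 385) (.e (nat_lit 122916) (nat_lit 14) (.e (nat_lit 352276) (nat_lit 11) (.e (nat_lit 425984) (nat_lit 0) .nil)))))) (.g (nat_lit 4) .nil .nil))) 
(.lf (nat_lit 128127) (.g (nat_lit 642) (.e (nat_lit 7591) (nat_lit 407) (.e (nat_lit 73729) (nat_lit 0) (.e (nat_lit 4153) (nat_lit 249) .nil))) .nil)))))))))

noncomputable def tv1716 : DT := (.nd (nat_lit 0) (.nd (nat_lit 1) (.nd (nat_lit 2) (.nd (nat_lit 3) (.nd (nat_lit 4) (.nd (nat_lit 5) (.nd (nat_lit 6) 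
(.lf (nat_lit 128128) (.g (nat_lit 640) (.e (nat_lit 7591) (nat_lit 407) (.e (nat_lit 73729) (nat_lit 0) (.e (nat_lit 4159) (nat_lit 250) .nil))) .nil)) 
(.lf (nat_lit 128192) (.g (nat_lit 2741) (.e (nat_lit 7591) (nat_lit 407) (.e (nat_lit 73729) (nat_lit 0) (.e (nat_lit 7265) (nat_lit 384) (.e (nat_lit 57423) (nat_lit 14) (.e (nat_lit 352277) (nat_lit 11) (.e (nat_lit 426010) (nat_lit 0) .nil)))))) (.g (nat_lit 5) .nil .nil)))) (.nd (nat_lit 6) 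
(.lf (nat_lit 128160) (.g (nat_lit 3222) (.e (nat_lit 7591) (nat_lit 407) (.e (nat_lit 73729) (nat_lit 0) (.e (nat_lit 7125) (nat_lit 382) (.e (nat_lit 1222) (nat_lit 90) (.e (nat_lit 81927) (nat_lit 11) (.e (nat_lit 426012) (nat_lit 0) .nil)))))) (.g (nat_lit 0) .nil .nil))) 
(.lf (nat_lit 128224) (.g (nat_lit 511) (.e (nat_lit 7591) (nat_lit 407) (.e (nat_lit 73732) (nat_lit 0) (.e (nat_lit 7147) (nat_lit 382) .nil))) .nil)))) (.nd (nat_lit 5) (.nd (nat_lit 6) 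
(.lf (nat_lit 128144) (.g (nat_lit 557) (.e (nat_lit 7591) (nat_lit 407) (.e (nat_lit 73729) (nat_lit 0) (.e (nat_lit 7124) (nat_lit 382) .nil))) .nil)) 
(.lf (nat_lit 128208) (.g (nat_lit 1595) (.e (nat_lit 7591) (nat_lit 407) (.e (nat_lit 73730) (nat_lit 0) (.e (nat_lit 7125) (nat_lit 382) (.e (nat_lit 1222) (nat_lit 90) (.e (nat_lit 81927) (nat_lit 11) (.e (nat_lit 426009) (nat_lit 0) .nil)))))) (.g (nat_lit 4) .nil .nil)))) (.nd (nat_lit 6) 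
(.lf (nat_lit 128176) (.g (nat_lit 897) (.e (nat_lit 7591) (nat_lit 407) (.e (nat_lit 73729) (nat_lit 0) (.e (nat_lit 7263) (nat_lit 384) (.e (nat_lit 57412) (nat_lit 12) .nil)))) .nil)) 
(.lf (nat_lit 128240) (.g (nat_lit 1630) (.e (nat_lit 7591) (nat_lit 407) (.e (nat_lit 73733) (nat_lit 0) (.e (nat_lit 7270) (nat_lit 385) (.e (nat_lit 122906) (nat_lit 12) (.e (nat_lit 336217) (nat_lit 13) .nil))))) .nil))))) (.nd (nat_lit 4) (.nd (nat_lit 5) (.nd (nat_lit 6) 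
(.lf (nat_lit 128136) (.g (nat_lit 2050) (.e (nat_lit 7591) (nat_lit 407) (.e (nat_lit 73729) (nat_lit 0) (.e (nat_lit 7122) (nat_lit 382) (.e (nat_lit 1201) (nat_lit 88) (.e (nat_lit 65596) (nat_lit 9) .nil))))) .nil)) 
(.lf (nat_lit 128200) (.g (nat_lit 3005) (.e (nat_lit 7591) (nat_lit 407) (.e (nat_lit 73729) (nat_lit 0) (.e (nat_lit 7266) (nat_lit 384) (.e (nat_lit 57423) (nat_lit 14) (.e (nat_lit 352277) (nat_lit 11) (.e (nat_lit 426009) (nat_lit 0) .nil)))))) (.g (nat_lit 5) .nil .nil)))) (.nd (nat_lit 6) 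
(.lf (nat_lit 128168) (.g (nat_lit 1397) (.e (nat_lit 7591) (nat_lit 407) (.e (nat_lit 73729) (nat_lit 0) (.e (nat_lit 7261) (nat_lit 384) (.e (nat_lit 57406) (nat_lit 12) (.e (nat_lit 343808) (nat_lit 13) .nil))))) .nil)) 
(.lf (nat_lit 128232) (.g (nat_lit 812) (.e (nat_lit 7591) (nat_lit 407) (.e (nat_lit 73732) (nat_lit 0) (.e (nat_lit 7273) (nat_lit 385) (.e (nat_lit 122916) (nat_lit 14) .nil)))) .nil)))) (.nd (nat_lit 5) (.nd (nat_lit 6) 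
(.lf (nat_lit 128152) (.g (nat_lit 2253) (.e (nat_lit 7591) (nat_lit 407) (.e (nat_lit 73729) (nat_lit 0) (.e (nat_lit 7124) (nat_lit 382) (.e (nat_lit 1222) (nat_lit 90) (.e (nat_lit 81927) (nat_lit 11) .nil))))) .nil)) 
(.lf (nat_lit 128216) (.g (nat_lit 2249) (.e (nat_lit 7591) (nat_lit 407) (.e (nat_lit 73731) (nat_lit 0) (.e (nat_lit 7125) (nat_lit 382) (.e (nat_lit 1224) (nat_lit 90) (.e (nat_lit 81925) (nat_lit 11) (.e (nat_lit 426009) (nat_lit 0) .nil)))))) (.g (nat_lit 5) .nil .nil)))) (.nd (nat_lit 6) 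
(.lf (nat_lit 128184) (.g (nat_lit 2487) (.e (nat_lit 7591) (nat_lit 407) (.e (nat_lit 73729) (nat_lit 0) (.e (nat_lit 7265) (nat_lit 384) (.e (nat_lit 57406) (nat_lit 12) (.e (nat_lit 336137) (nat_lit 9) .nil))))) .nil)) 
(.lf (nat_lit 128248) (.g (nat_lit 1542) (.e (nat_lit 7591) (nat_lit 407) (.e (nat_lit 73733) (nat_lit 0) (.e (nat_lit 7271) (nat_lit 385) (.e (nat_lit 122916) (nat_lit 14) (.e (nat_lit 352273) (nat_lit 11) .nil))))) .nil)))))) (.nd (nat_lit 3) (.nd (nat_lit 4) (.nd (nat_lit 5) (.nd (nat_lit 6) 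
(.lf (nat_lit 128132) (.g (nat_lit 2010) (.e (nat_lit 7591) (nat_lit 407) (.e (nat_lit 73729) (nat_lit 0) (.e (nat_lit 7122) (nat_lit 382) (.e (nat_lit 1036) (nat_lit 81) .nil)))) .nil)) 
(.lf (nat_lit 128196) (.g (nat_lit 1688) (.e (nat_lit 7591) (nat_lit 407) (.e (nat_lit 73729) (nat_lit 0) (.e (nat_lit 7265) (nat_lit 384) (.e (nat_lit 57436) (nat_lit 17) (.e (nat_lit 376838) (nat_lit 11) .nil))))) .nil))) (.nd (nat_lit 6) 
(.lf (nat_lit 128164) (.g (nat_lit 1524) (.e (nat_lit 7591) (nat_lit 407) (.e (nat_lit 73729) (nat_lit 0) (.e (nat_lit 7125) (nat_lit 382) (.e (nat_lit 1296) (nat_lit 96) (.e (nat_lit 131125) (nat_lit 13) .nil))))) .nil)) 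
(.lf (nat_lit 128228) (.g (nat_lit 869) (.e (nat_lit 7591) (nat_lit 407) (.e (nat_lit 73732) (nat_lit 0) (.e (nat_lit 7272) (nat_lit 385) (.e (nat_lit 122906) (nat_lit 12) .nil)))) .nil)))) (.nd (nat_lit 5) (.nd (nat_lit 6) 
(.lf (nat_lit 128148) (.g (nat_lit 2124) (.e (nat_lit 7591) (nat_lit 407) (.e (nat_lit 73729) (nat_lit 0) (.e (nat_lit 7124) (nat_lit 382) (.e (nat_lit 1201) (nat_lit 88) (.e (nat_lit 65596) (nat_lit 9) (.e (nat_lit 336412) (nat_lit 27) (.e (nat_lit 426011) (nat_lit 0) .nil))))))) (.g (nat_lit 4) .nil .nil))) 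
(.lf (nat_lit 128212) (.g (nat_lit 1056) (.e (nat_lit 7591) (nat_lit 407) (.e (nat_lit 73731) (nat_lit 0) (.e (nat_lit 7124) (nat_lit 382) (.e (nat_lit 1193) (nat_lit 88) (.e (nat_lit 65625) (nat_lit 13) .nil))))) .nil))) (.nd (nat_lit 6) 
(.lf (nat_lit 128180) (.g (nat_lit 508) (.e (nat_lit 7591) (nat_lit 407) (.e (nat_lit 73729) (nat_lit 0) (.e (nat_lit 7265) (nat_lit 384) .nil))) .nil)) 
(.lf (nat_lit 128244) (.g (nat_lit 1681) (.e (nat_lit 7591) (nat_lit 407) (.e (nat_lit 73733) (nat_lit 0) (.e (nat_lit 7270) (nat_lit 385) (.e (nat_lit 122916) (nat_lit 14) (.e (nat_lit 352273) (nat_lit 11) .nil))))) .nil))))) (.nd (nat_lit 4) (.nd (nat_lit 5) (.nd (nat_lit 6) 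
(.lf (nat_lit 128140) (.g (nat_lit 1192) (.e (nat_lit 7591) (nat_lit 407) (.e (nat_lit 73729) (nat_lit 0) (.e (nat_lit 7122) (nat_lit 382) (.e (nat_lit 7936) (nat_lit 90) .nil)))) .nil)) 
(.lf (nat_lit 128204) (.g (nat_lit 2847) (.e (nat_lit 7591) (nat_lit 407) (.e (nat_lit 73729) (nat_lit 0) (.e (nat_lit 7266) (nat_lit 384) (.e (nat_lit 57435) (nat_lit 17) (.e (nat_lit 376842) (nat_lit 11) (.e (nat_lit 426009) (nat_lit 0) .nil)))))) (.g (nat_lit 5) .nil .nil)))) (.nd (nat_lit 6) 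
(.lf (nat_lit 128172) (.g (nat_lit 2235) (.e (nat_lit 7591) (nat_lit 407) (.e (nat_lit 73729) (nat_lit 0) (.e (nat_lit 7261) (nat_lit 384) (.e (nat_lit 57424) (nat_lit 14) (.e (nat_lit 352277) (nat_lit 11) (.e (nat_lit 426010) (nat_lit 0) .nil)))))) (.g (nat_lit 5) .nil .nil))) 
(.lf (nat_lit 128236) (.g (nat_lit 405) (.e (nat_lit 7591) (nat_lit 407) (.e (nat_lit 73733) (nat_lit 0) (.e (nat_lit 7270) (nat_lit 385) .nil))) .nil)))) (.nd (nat_lit 5) (.nd (nat_lit 6) 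
(.lf (nat_lit 128156) (.g (nat_lit 1667) (.e (nat_lit 7591) (nat_lit 407) (.e (nat_lit 73729) (nat_lit 0) (.e (nat_lit 7125) (nat_lit 382) (.e (nat_lit 1193) (nat_lit 88) (.e (nat_lit 65625) (nat_lit 13) .nil))))) .nil)) 
(.lf (nat_lit 128220) (.g (nat_lit 1488) (.e (nat_lit 7591) (nat_lit 407) (.e (nat_lit 73731) (nat_lit 0) (.e (nat_lit 7125) (nat_lit 382) (.e (nat_lit 1296) (nat_lit 96) (.e (nat_lit 131128) (nat_lit 13) (.e (nat_lit 393231) (nat_lit 17) .nil)))))) (.g (nat_lit 4) .nil .nil)))) (.nd (nat_lit 6) 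
(.lf (nat_lit 128188) (.g (nat_lit 1263) (.e (nat_lit 7591) (nat_lit 407) (.e (nat_lit 73729) (nat_lit 0) (.e (nat_lit 7265) (nat_lit 384) (.e (nat_lit 57409) (nat_lit 12) .nil)))) .nil)) 
(.lf (nat_lit 128252) (.g (nat_lit 932) (.e (nat_lit 7591) (nat_lit 407) (.e (nat_lit 73733) (nat_lit 0) (.e (nat_lit 7272) (nat_lit 385) (.e (nat_lit 122916) (nat_lit 14) .nil)))) .nil))))))) (.nd (nat_lit 2) (.nd (nat_lit 3) (.nd (nat_lit 4) (.nd (nat_lit 5) (.nd (nat_lit 6) 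
(.lf (nat_lit 128130) (.g (nat_lit 523) (.e (nat_lit 7591) (nat_lit 407) (.e (nat_lit 73729) (nat_lit 0) (.e (nat_lit 7122) (nat_lit 382) .nil))) .nil)) 
(.lf (nat_lit 128194) (.g (nat_lit 2770) (.e (nat_lit 7591) (nat_lit 407) (.e (nat_lit 73729) (nat_lit 0) (.e (nat_lit 7265) (nat_lit 384) (.e (nat_lit 57424) (nat_lit 14) (.e (nat_lit 352277) (nat_lit 11) (.e (nat_lit 426010) (nat_lit 0) .nil)))))) (.g (nat_lit 5) .nil .nil)))) (.nd (nat_lit 6) 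
(.lf (nat_lit 128162) (.g (nat_lit 1218) (.e (nat_lit 7591) (nat_lit 407) (.e (nat_lit 73729) (nat_lit 0) (.e (nat_lit 7125) (nat_lit 382) (.e (nat_lit 7936) (nat_lit 90) .nil)))) .nil)) 
(.lf (nat_lit 128226) (.g (nat_lit 1452) (.e (nat_lit 7591) (nat_lit 407) (.e (nat_lit 73732) (nat_lit 0) (.e (nat_lit 7270) (nat_lit 385) (.e (nat_lit 122914) (nat_lit 14) (.e (nat_lit 352277) (nat_lit 11) .nil))))) .nil)))) (.nd (nat_lit 5) (.nd (nat_lit 6) 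
(.lf (nat_lit 128146) (.g (nat_lit 2256) (.e (nat_lit 7591) (nat_lit 407) (.e (nat_lit 73729) (nat_lit 0) (.e (nat_lit 7124) (nat_lit 382) (.e (nat_lit 1183) (nat_lit 87) (.e (nat_lit 65280) (nat_lit 191) .nil))))) .nil)) 
(.lf (nat_lit 128210) (.g (nat_lit 2766) (.e (nat_lit 7591) (nat_lit 407) (.e (nat_lit 73731) (nat_lit 0) (.e (nat_lit 7122) (nat_lit 382) (.e (nat_lit 1201) (nat_lit 88) (.e (nat_lit 65625) (nat_lit 13) (.e (nat_lit 393232) (nat_lit 17) .nil)))))) (.g (nat_lit 5) .nil .nil)))) (.nd (nat_lit 6) 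
(.lf (nat_lit 128178) (.g (nat_lit 2092) (.e (nat_lit 7591) (nat_lit 407) (.e (nat_lit 73729) (nat_lit 0) (.e (nat_lit 7263) (nat_lit 384) (.e (nat_lit 57424) (nat_lit 14) (.e (nat_lit 352277) (nat_lit 11) (.e (nat_lit 426009) (nat_lit 0) .nil)))))) (.g (nat_lit 4) .nil .nil))) 
(.lf (nat_lit 128242) (.g (nat_lit 2486) (.e (nat_lit 7591) (nat_lit 407) (.e (nat_lit 73733) (nat_lit 0) (.e (nat_lit 7270) (nat_lit 385) (.e (nat_lit 122914) (nat_lit 14) (.e (nat_lit 352277) (nat_lit 11) (.e (nat_lit 426009) (nat_lit 0) .nil)))))) (.g (nat_lit 5) .nil .nil)))))) (.nd (nat_lit 4) (.nd (nat_lit 5) (.nd (nat_lit 6) 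
(.lf (nat_lit 128138) (.g (nat_lit 2606) (.e (nat_lit 7591) (nat_lit 407) (.e (nat_lit 73729) (nat_lit 0) (.e (nat_lit 7122) (nat_lit 382) (.e (nat_lit 1201) (nat_lit 88) (.e (nat_lit 65627) (nat_lit 13) (.e (nat_lit 393231) (nat_lit 17) .nil)))))) (.g (nat_lit 5) .nil .nil))) 
(.lf (nat_lit 128202) (.g (nat_lit 2751) (.e (nat_lit 7591) (nat_lit 407) (.e (nat_lit 73729) (nat_lit 0) (.e (nat_lit 7266) (nat_lit 384) (.e (nat_lit 57424) (nat_lit 14) (.e (nat_lit 352277) (nat_lit 11) (.e (nat_lit 426009) (nat_lit 0) .nil)))))) (.g (nat_lit 5) .nil .nil)))) (.nd (nat_lit 6) 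
(.lf (nat_lit 128170) (.g (nat_lit 914) (.e (nat_lit 7591) (nat_lit 407) (.e (nat_lit 73729) (nat_lit 0) (.e (nat_lit 7261) (nat_lit 384) (.e (nat_lit 57412) (nat_lit 12) .nil)))) .nil)) 
(.lf (nat_lit 128234) (.g (nat_lit 1459) (.e (nat_lit 7591) (nat_lit 407) (.e (nat_lit 73733) (nat_lit 0) (.e (nat_lit 7147) (nat_lit 382) (.e (nat_lit 1217) (nat_lit 90) (.e (nat_lit 81925) (nat_lit 11) (.e (nat_lit 426009) (nat_lit 0) .nil)))))) (.g (nat_lit 4) .nil .nil))))) (.nd (nat_lit 5) (.nd (nat_lit 6) 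
(.lf (nat_lit 128154) (.g (nat_lit 2038) (.e (nat_lit 7591) (nat_lit 407) (.e (nat_lit 73729) (nat_lit 0) (.e (nat_lit 7124) (nat_lit 382) (.e (nat_lit 1296) (nat_lit 96) (.e (nat_lit 131128) (nat_lit 13) .nil))))) .nil)) 
(.lf (nat_lit 128218) (.g (nat_lit 3025) (.e (nat_lit 7591) (nat_lit 407) (.e (nat_lit 73731) (nat_lit 0) (.e (nat_lit 7125) (nat_lit 382) (.e (nat_lit 1224) (nat_lit 90) (.e (nat_lit 81925) (nat_lit 11) (.e (nat_lit 426012) (nat_lit 0) .nil)))))) (.g (nat_lit 0) .nil .nil)))) (.nd (nat_lit 6) 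
(.lf (nat_lit 128186) (.g (nat_lit 2090) (.e (nat_lit 7591) (nat_lit 407) (.e (nat_lit 73729) (nat_lit 0) (.e (nat_lit 7265) (nat_lit 384) (.e (nat_lit 57406) (nat_lit 12) (.e (nat_lit 343808) (nat_lit 13) .nil))))) .nil)) 
(.lf (nat_lit 128250) (.g (nat_lit 926) (.e (nat_lit 7591) (nat_lit 407) (.e (nat_lit 73733) (nat_lit 0) (.e (nat_lit 7272) (nat_lit 385) (.e (nat_lit 122906) (nat_lit 12) .nil)))) .nil)))))) (.nd (nat_lit 3) (.nd (nat_lit 4) (.nd (nat_lit 5) (.nd (nat_lit 6) 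
(.lf (nat_lit 128134) (.g (nat_lit 2010) (.e (nat_lit 7591) (nat_lit 407) (.e (nat_lit 73729) (nat_lit 0) (.e (nat_lit 7122) (nat_lit 382) (.e (nat_lit 1191) (nat_lit 88) .nil)))) .nil)) 
(.lf (nat_lit 128198) (.g (nat_lit 2425) (.e (nat_lit 7591) (nat_lit 407) (.e (nat_lit 73729) (nat_lit 0) (.e (nat_lit 7266) (nat_lit 384) (.e (nat_lit 57406) (nat_lit 12) (.e (nat_lit 336211) (nat_lit 13) .nil))))) .nil))) (.nd (nat_lit 6) 
(.lf (nat_lit 128166) (.g (nat_lit 663) (.e (nat_lit 7591) (nat_lit 407) (.e (nat_lit 73729) (nat_lit 0) (.e (nat_lit 7132) (nat_lit 382) .nil))) .nil)) 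
(.lf (nat_lit 128230) (.g (nat_lit 1444) (.e (nat_lit 7591) (nat_lit 407) (.e (nat_lit 73732) (nat_lit 0) (.e (nat_lit 7272) (nat_lit 385) (.e (nat_lit 122916) (nat_lit 14) (.e (nat_lit 352277) (nat_lit 11) .nil))))) .nil)))) (.nd (nat_lit 5) (.nd (nat_lit 6) 
(.lf (nat_lit 128150) (.g (nat_lit 2023) (.e (nat_lit 7591) (nat_lit 407) (.e (nat_lit 73729) (nat_lit 0) (.e (nat_lit 7124) (nat_lit 382) (.e (nat_lit 1201) (nat_lit 88) (.e (nat_lit 65626) (nat_lit 13) .nil))))) .nil)) 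
(.lf (nat_lit 128214) (.g (nat_lit 2190) (.e (nat_lit 7591) (nat_lit 407) (.e (nat_lit 73731) (nat_lit 0) (.e (nat_lit 7125) (nat_lit 382) (.e (nat_lit 1201) (nat_lit 88) (.e (nat_lit 65596) (nat_lit 9) (.e (nat_lit 336412) (nat_lit 27) (.e (nat_lit 426011) (nat_lit 0) .nil))))))) (.g (nat_lit 4) .nil .nil)))) (.nd (nat_lit 6) 
(.lf (nat_lit 128182) (.g (nat_lit 2417) (.e (nat_lit 7591) (nat_lit 407) (.e (nat_lit 73729) (nat_lit 0) (.e (nat_lit 7265) (nat_lit 384) (.e (nat_lit 57347) (nat_lit 0) (.e (nat_lit 7936) (nat_lit 343) (.e (nat_lit 1656) (nat_lit 115) (.e (nat_lit 393234) (nat_lit 17) .nil))))))) (.g (nat_lit 4) .nil .nil))) 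
(.lf (nat_lit 128246) (.g (nat_lit 1270) (.e (nat_lit 7591) (nat_lit 407) (.e (nat_lit 73733) (nat_lit 0) (.e (nat_lit 7270) (nat_lit 385) (.e (nat_lit 122921) (nat_lit 17) .nil)))) .nil))))) (.nd (nat_lit 4) (.nd (nat_lit 5) (.nd (nat_lit 6) 
(.lf (nat_lit 128142) (.g (nat_lit 2802) (.e (nat_lit 7591) (nat_lit 407) (.e (nat_lit 73729) (nat_lit 0) (.e (nat_lit 7122) (nat_lit 382) (.e (nat_lit 1296) (nat_lit 96) (.e (nat_lit 131125) (nat_lit 13) .nil))))) .nil)) 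
(.lf (nat_lit 128206) (.g (nat_lit 1509) (.e (nat_lit 7591) (nat_lit 407) (.e (nat_lit 73730) (nat_lit 0) (.e (nat_lit 7122) (nat_lit 382) (.e (nat_lit 1183) (nat_lit 87) (.e (nat_lit 65280) (nat_lit 187) .nil))))) .nil))) (.nd (nat_lit 6) 
(.lf (nat_lit 128174) (.g (nat_lit 2612) (.e (nat_lit 7591) (nat_lit 407) (.e (nat_lit 73729) (nat_lit 0) (.e (nat_lit 7261) (nat_lit 384) (.e (nat_lit 57436) (nat_lit 17) (.e (nat_lit 376842) (nat_lit 11) (.e (nat_lit 426010) (nat_lit 0) .nil)))))) (.g (nat_lit 5) .nil .nil))) 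
(.lf (nat_lit 128238) (.g (nat_lit 1262) (.e (nat_lit 7591) (nat_lit 407) (.e (nat_lit 73733) (nat_lit 0) (.e (nat_lit 7270) (nat_lit 385) (.e (nat_lit 122906) (nat_lit 12) .nil)))) .nil)))) (.nd (nat_lit 5) (.nd (nat_lit 6) 
(.lf (nat_lit 128158) (.g (nat_lit 2933) (.e (nat_lit 7591) (nat_lit 407) (.e (nat_lit 73729) (nat_lit 0) (.e (nat_lit 7125) (nat_lit 382) (.e (nat_lit 1201) (nat_lit 88) (.e (nat_lit 65625) (nat_lit 13) (.e (nat_lit 393231) (nat_lit 17) .nil)))))) (.g (nat_lit 5) .nil .nil))) 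
(.lf (nat_lit 128222) (.g (nat_lit 1599) (.e (nat_lit 7591) (nat_lit 407) (.e (nat_lit 73731) (nat_lit 0) (.e (nat_lit 7265) (nat_lit 384) (.e (nat_lit 57406) (nat_lit 12) (.e (nat_lit 343808) (nat_lit 13) .nil))))) .nil))) (.nd (nat_lit 6) 
(.lf (nat_lit 128190) (.g (nat_lit 1280) (.e (nat_lit 7591) (nat_lit 407) (.e (nat_lit 73729) (nat_lit 0) (.e (nat_lit 7265) (nat_lit 384) (.e (nat_lit 57415) (nat_lit 12) .nil)))) .nil)) 
(.lf (nat_lit 128254) (.g (nat_lit 317) (.e (nat_lit 7591) (nat_lit 407) (.e (nat_lit 73733) (nat_lit 0) (.e (nat_lit 7273) (nat_lit 385) .nil))) .nil)))))))) (.nd (nat_lit 1) (.nd (nat_lit 2) (.nd (nat_lit 3) (.nd (nat_lit 4) (.nd (nat_lit 5) (.nd (nat_lit 6) 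
(.lf (nat_lit 128129) (.g (nat_lit 858) (.e (nat_lit 7591) (nat_lit 407) (.e (nat_lit 73729) (nat_lit 0) (.e (nat_lit 7119) (nat_lit 382) (.e (nat_lit 7936) (nat_lit 90) .nil)))) .nil)) 
(.lf (nat_lit 128193) (.g (nat_lit 2740) (.e (nat_lit 7591) (nat_lit 407) (.e (nat_lit 73729) (nat_lit 0) (.e (nat_lit 7265) (nat_lit 384) (.e (nat_lit 57424) (nat_lit 14) (.e (nat_lit 352273) (nat_lit 11) (.e (nat_lit 426011) (nat_lit 0) .nil)))))) (.g (nat_lit 4) .nil .nil)))) (.nd (nat_lit 6) 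
(.lf (nat_lit 128161) (.g (nat_lit 3442) (.e (nat_lit 7591) (nat_lit 407) (.e (nat_lit 73729) (nat_lit 0) (.e (nat_lit 7125) (nat_lit 382) (.e (nat_lit 1224) (nat_lit 90) (.e (nat_lit 81925) (nat_lit 11) (.e (nat_lit 426011) (nat_lit 0) .nil)))))) (.g (nat_lit 0) .nil .nil))) 
(.lf (nat_lit 128225) (.g (nat_lit 428) (.e (nat_lit 7591) (nat_lit 407) (.e (nat_lit 73732) (nat_lit 0) (.e (nat_lit 7270) (nat_lit 385) .nil))) .nil)))) (.nd (nat_lit 5) (.nd (nat_lit 6) 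
(.lf (nat_lit 128145) (.g (nat_lit 1286) (.e (nat_lit 7591) (nat_lit 407) (.e (nat_lit 73729) (nat_lit 0) (.e (nat_lit 7124) (nat_lit 382) (.e (nat_lit 1016) (nat_lit 81) .nil)))) .nil)) 
(.lf (nat_lit 128209) (.g (nat_lit 2286) (.e (nat_lit 7591) (nat_lit 407) (.e (nat_lit 73731) (nat_lit 0) (.e (nat_lit 7122) (nat_lit 382) (.e (nat_lit 1201) (nat_lit 88) (.e (nat_lit 65625) (nat_lit 13) (.e (nat_lit 393231) (nat_lit 17) .nil)))))) (.g (nat_lit 5) .nil .nil)))) (.nd (nat_lit 6) 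
(.lf (nat_lit 128177) (.g (nat_lit 2489) (.e (nat_lit 7591) (nat_lit 407) (.e (nat_lit 73729) (nat_lit 0) (.e (nat_lit 7263) (nat_lit 384) (.e (nat_lit 57423) (nat_lit 14) (.e (nat_lit 352277) (nat_lit 11) (.e (nat_lit 426010) (nat_lit 0) .nil)))))) (.g (nat_lit 5) .nil .nil))) 
(.lf (nat_lit 128241) (.g (nat_lit 1305) (.e (nat_lit 7591) (nat_lit 407) (.e (nat_lit 73733) (nat_lit 0) (.e (nat_lit 7270) (nat_lit 385) (.e (nat_lit 122908) (nat_lit 12) .nil)))) .nil))))) (.nd (nat_lit 4) (.nd (nat_lit 5) (.nd (nat_lit 6) 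
(.lf (nat_lit 128137) (.g (nat_lit 2787) (.e (nat_lit 7591) (nat_lit 407) (.e (nat_lit 73729) (nat_lit 0) (.e (nat_lit 7122) (nat_lit 382) (.e (nat_lit 1201) (nat_lit 88) (.e (nat_lit 65625) (nat_lit 13) (.e (nat_lit 393231) (nat_lit 17) .nil)))))) (.g (nat_lit 5) .nil .nil))) 
(.lf (nat_lit 128201) (.g (nat_lit 3292) (.e (nat_lit 7591) (nat_lit 407) (.e (nat_lit 73729) (nat_lit 0) (.e (nat_lit 7266) (nat_lit 384) (.e (nat_lit 57423) (nat_lit 14) (.e (nat_lit 352277) (nat_lit 11) (.e (nat_lit 426010) (nat_lit 0) .nil)))))) (.g (nat_lit 6) .nil .nil)))) (.nd (nat_lit 6) 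
(.lf (nat_lit 128169) (.g (nat_lit 1251) (.e (nat_lit 7591) (nat_lit 407) (.e (nat_lit 73729) (nat_lit 0) (.e (nat_lit 7261) (nat_lit 384) (.e (nat_lit 57410) (nat_lit 12) (.e (nat_lit 336211) (nat_lit 13) .nil))))) .nil)) 
(.lf (nat_lit 128233) (.g (nat_lit 898) (.e (nat_lit 7591) (nat_lit 407) (.e (nat_lit 73733) (nat_lit 0) (.e (nat_lit 7147) (nat_lit 382) (.e (nat_lit 1216) (nat_lit 90) (.e (nat_lit 81925) (nat_lit 11) .nil))))) .nil)))) (.nd (nat_lit 5) (.nd (nat_lit 6) 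
(.lf (nat_lit 128153) (.g (nat_lit 1498) (.e (nat_lit 7591) (nat_lit 407) (.e (nat_lit 73729) (nat_lit 0) (.e (nat_lit 7124) (nat_lit 382) (.e (nat_lit 1296) (nat_lit 96) .nil)))) .nil)) 
(.lf (nat_lit 128217) (.g (nat_lit 2269) (.e (nat_lit 7591) (nat_lit 407) (.e (nat_lit 73731) (nat_lit 0) (.e (nat_lit 7125) (nat_lit 382) (.e (nat_lit 1224) (nat_lit 90) (.e (nat_lit 81925) (nat_lit 11) (.e (nat_lit 426010) (nat_lit 0) .nil)))))) (.g (nat_lit 5) .nil .nil)))) (.nd (nat_lit 6) 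
(.lf (nat_lit 128185) (.g (nat_lit 2160) (.e (nat_lit 7591) (nat_lit 407) (.e (nat_lit 73729) (nat_lit 0) (.e (nat_lit 7265) (nat_lit 384) (.e (nat_lit 57406) (nat_lit 12) (.e (nat_lit 336211) (nat_lit 13) (.e (nat_lit 393231) (nat_lit 17) .nil)))))) (.g (nat_lit 4) .nil .nil))) 
(.lf (nat_lit 128249) (.g (nat_lit 428) (.e (nat_lit 7591) (nat_lit 407) (.e (nat_lit 73733) (nat_lit 0) (.e (nat_lit 7272) (nat_lit 385) .nil))) .nil)))))) (.nd (nat_lit 3) (.nd (nat_lit 4) (.nd (nat_lit 5) (.nd (nat_lit 6) 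
(.lf (nat_lit 128133) (.g (nat_lit 2377) (.e (nat_lit 7591) (nat_lit 407) (.e (nat_lit 73729) (nat_lit 0) (.e (nat_lit 7122) (nat_lit 382) (.e (nat_lit 1183) (nat_lit 87) (.e (nat_lit 65280) (nat_lit 191) .nil))))) .nil)) 
(.lf (nat_lit 128197) (.g (nat_lit 2907) (.e (nat_lit 7591) (nat_lit 407) (.e (nat_lit 73729) (nat_lit 0) (.e (nat_lit 7265) (nat_lit 384) (.e (nat_lit 57436) (nat_lit 17) (.e (nat_lit 376842) (nat_lit 11) (.e (nat_lit 426010) (nat_lit 0) .nil)))))) (.g (nat_lit 5) .nil .nil)))) (.nd (nat_lit 6) 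
(.lf (nat_lit 128165) (.g (nat_lit 640) (.e (nat_lit 7591) (nat_lit 407) (.e (nat_lit 73729) (nat_lit 0) (.e (nat_lit 7128) (nat_lit 382) .nil))) .nil)) 
(.lf (nat_lit 128229) (.g (nat_lit 1251) (.e (nat_lit 7591) (nat_lit 407) (.e (nat_lit 73732) (nat_lit 0) (.e (nat_lit 7272) (nat_lit 385) (.e (nat_lit 122914) (nat_lit 14) (.e (nat_lit 352277) (nat_lit 11) .nil))))) .nil)))) (.nd (nat_lit 5) (.nd (nat_lit 6) 
(.lf (nat_lit 128149) (.g (nat_lit 2732) (.e (nat_lit 7591) (nat_lit 407) (.e (nat_lit 73729) (nat_lit 0) (.e (nat_lit 7124) (nat_lit 382) (.e (nat_lit 1201) (nat_lit 88) (.e (nat_lit 65625) (nat_lit 13) (.e (nat_lit 393231) (nat_lit 17) .nil)))))) (.g (nat_lit 5) .nil .nil))) 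
(.lf (nat_lit 128213) (.g (nat_lit 1451) (.e (nat_lit 7591) (nat_lit 407) (.e (nat_lit 73731) (nat_lit 0) (.e (nat_lit 7125) (nat_lit 382) (.e (nat_lit 1193) (nat_lit 88) (.e (nat_lit 65625) (nat_lit 13) .nil))))) .nil))) (.nd (nat_lit 6) 
(.lf (nat_lit 128181) (.g (nat_lit 2376) (.e (nat_lit 7591) (nat_lit 407) (.e (nat_lit 73729) (nat_lit 0) (.e (nat_lit 7265) (nat_lit 384) (.e (nat_lit 57347) (nat_lit 0) (.e (nat_lit 2203) (nat_lit 144) .nil))))) .nil)) 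
(.lf (nat_lit 128245) (.g (nat_lit 2632) (.e (nat_lit 7591) (nat_lit 407) (.e (nat_lit 73733) (nat_lit 0) (.e (nat_lit 7270) (nat_lit 385) (.e (nat_lit 122916) (nat_lit 14) (.e (nat_lit 352277) (nat_lit 11) (.e (nat_lit 426009) (nat_lit 0) .nil)))))) (.g (nat_lit 5) .nil .nil)))))) (.nd (nat_lit 4) (.nd (nat_lit 5) (.nd (nat_lit 6) 
(.lf (nat_lit 128141) (.g (nat_lit 2003) (.e (nat_lit 7591) (nat_lit 407) (.e (nat_lit 73729) (nat_lit 0) (.e (nat_lit 7122) (nat_lit 382) (.e (nat_lit 1296) (nat_lit 96) .nil)))) .nil)) 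
(.lf (nat_lit 128205) (.g (nat_lit 2789) (.e (nat_lit 7591) (nat_lit 407) (.e (nat_lit 73729) (nat_lit 0) (.e (nat_lit 7266) (nat_lit 384) (.e (nat_lit 57436) (nat_lit 17) (.e (nat_lit 376842) (nat_lit 11) (.e (nat_lit 426009) (nat_lit 0) .nil)))))) (.g (nat_lit 5) .nil .nil)))) (.nd (nat_lit 6) 
(.lf (nat_lit 128173) (.g (nat_lit 2715) (.e (nat_lit 7591) (nat_lit 407) (.e (nat_lit 73729) (nat_lit 0) (.e (nat_lit 7261) (nat_lit 384) (.e (nat_lit 57435) (nat_lit 17) (.e (nat_lit 376842) (nat_lit 11) (.e (nat_lit 426010) (nat_lit 0) .nil)))))) (.g (nat_lit 5) .nil .nil))) 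
(.lf (nat_lit 128237) (.g (nat_lit 1128) (.e (nat_lit 7591) (nat_lit 407) (.e (nat_lit 73733) (nat_lit 0) (.e (nat_lit 7270) (nat_lit 385) (.e (nat_lit 122903) (nat_lit 12) .nil)))) .nil)))) (.nd (nat_lit 5) (.nd (nat_lit 6) 
(.lf (nat_lit 128157) (.g (nat_lit 2385) (.e (nat_lit 7591) (nat_lit 407) (.e (nat_lit 73729) (nat_lit 0) (.e (nat_lit 7125) (nat_lit 382) (.e (nat_lit 1201) (nat_lit 88) (.e (nat_lit 65596) (nat_lit 9) (.e (nat_lit 336412) (nat_lit 27) (.e (nat_lit 426011) (nat_lit 0) .nil))))))) (.g (nat_lit 4) .nil .nil))) 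
(.lf (nat_lit 128221) (.g (nat_lit 1978) (.e (nat_lit 7591) (nat_lit 407) (.e (nat_lit 73731) (nat_lit 0) (.e (nat_lit 7265) (nat_lit 384) (.e (nat_lit 57347) (nat_lit 0) (.e (nat_lit 7936) (nat_lit 343) (.e (nat_lit 1656) (nat_lit 115) (.e (nat_lit 393234) (nat_lit 17) .nil))))))) (.g (nat_lit 4) .nil .nil)))) (.nd (nat_lit 6) 
(.lf (nat_lit 128189) (.g (nat_lit 1101) (.e (nat_lit 7591) (nat_lit 407) (.e (nat_lit 73729) (nat_lit 0) (.e (nat_lit 7265) (nat_lit 384) (.e (nat_lit 57412) (nat_lit 12) .nil)))) .nil)) 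
(.lf (nat_lit 128253) (.g (nat_lit 2310) (.e (nat_lit 7591) (nat_lit 407) (.e (nat_lit 73733) (nat_lit 0) (.e (nat_lit 7272) (nat_lit 385) (.e (nat_lit 122916) (nat_lit 14) (.e (nat_lit 352277) (nat_lit 11) (.e (nat_lit 426009) (nat_lit 0) .nil)))))) (.g (nat_lit 5) .nil .nil)))))))) (.nd (nat_lit 2) (.nd (nat_lit 3) (.nd (nat_lit 4) (.nd (nat_lit 5) (.nd (nat_lit 6) 
(.lf (nat_lit 128131) (.g (nat_lit 1484) (.e (nat_lit 7591) (nat_lit 407) (.e (nat_lit 73729) (nat_lit 0) (.e (nat_lit 7122) (nat_lit 382) (.e (nat_lit 1016) (nat_lit 81) .nil)))) .nil)) 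
(.lf (nat_lit 128195) (.g (nat_lit 2837) (.e (nat_lit 7591) (nat_lit 407) (.e (nat_lit 73729) (nat_lit 0) (.e (nat_lit 7265) (nat_lit 384) (.e (nat_lit 57435) (nat_lit 17) (.e (nat_lit 376842) (nat_lit 11) (.e (nat_lit 426010) (nat_lit 0) .nil)))))) (.g (nat_lit 5) .nil .nil)))) (.nd (nat_lit 6) 
(.lf (nat_lit 128163) (.g (nat_lit 1776) (.e (nat_lit 7591) (nat_lit 407) (.e (nat_lit 73729) (nat_lit 0) (.e (nat_lit 7125) (nat_lit 382) (.e (nat_lit 1296) (nat_lit 96) (.e (nat_lit 131124) (nat_lit 13) .nil))))) .nil)) 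
(.lf (nat_lit 128227) (.g (nat_lit 427) (.e (nat_lit 7591) (nat_lit 407) (.e (nat_lit 73732) (nat_lit 0) (.e (nat_lit 7272) (nat_lit 385) .nil))) .nil)))) (.nd (nat_lit 5) (.nd (nat_lit 6) 
(.lf (nat_lit 128147) (.g (nat_lit 1545) (.e (nat_lit 7591) (nat_lit 407) (.e (nat_lit 73729) (nat_lit 0) (.e (nat_lit 7124) (nat_lit 382) (.e (nat_lit 1193) (nat_lit 88) .nil)))) .nil)) 
(.lf (nat_lit 128211) (.g (nat_lit 1943) (.e (nat_lit 7591) (nat_lit 407) (.e (nat_lit 73731) (nat_lit 0) (.e (nat_lit 7122) (nat_lit 382) (.e (nat_lit 1222) (nat_lit 90) (.e (nat_lit 81927) (nat_lit 11) (.e (nat_lit 426009) (nat_lit 0) .nil)))))) (.g (nat_lit 5) .nil .nil)))) (.nd (nat_lit 6) 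
(.lf (nat_lit 128179) (.g (nat_lit 2385) (.e (nat_lit 7591) (nat_lit 407) (.e (nat_lit 73729) (nat_lit 0) (.e (nat_lit 7263) (nat_lit 384) (.e (nat_lit 57424) (nat_lit 14) (.e (nat_lit 352277) (nat_lit 11) (.e (nat_lit 426010) (nat_lit 0) .nil)))))) (.g (nat_lit 5) .nil .nil))) 
(.lf (nat_lit 128243) (.g (nat_lit 2054) (.e (nat_lit 7591) (nat_lit 407) (.e (nat_lit 73733) (nat_lit 0) (.e (nat_lit 7270) (nat_lit 385) (.e (nat_lit 122915) (nat_lit 14) (.e (nat_lit 352277) (nat_lit 11) (.e (nat_lit 426010) (nat_lit 0) .nil)))))) (.g (nat_lit 4) .nil .nil)))))) (.nd (nat_lit 4) (.nd (nat_lit 5) (.nd (nat_lit 6) 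
(.lf (nat_lit 128139) (.g (nat_lit 2670) (.e (nat_lit 7591) (nat_lit 407) (.e (nat_lit 73729) (nat_lit 0) (.e (nat_lit 7122) (nat_lit 382) (.e (nat_lit 1222) (nat_lit 90) (.e (nat_lit 81927) (nat_lit 11) .nil))))) .nil)) 
(.lf (nat_lit 128203) (.g (nat_lit 3045) (.e (nat_lit 7591) (nat_lit 407) (.e (nat_lit 73729) (nat_lit 0) (.e (nat_lit 7266) (nat_lit 384) (.e (nat_lit 57424) (nat_lit 14) (.e (nat_lit 352277) (nat_lit 11) (.e (nat_lit 426010) (nat_lit 0) .nil)))))) (.g (nat_lit 6) .nil .nil)))) (.nd (nat_lit 6) 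
(.lf (nat_lit 128171) (.g (nat_lit 2286) (.e (nat_lit 7591) (nat_lit 407) (.e (nat_lit 73729) (nat_lit 0) (.e (nat_lit 7261) (nat_lit 384) (.e (nat_lit 57423) (nat_lit 14) (.e (nat_lit 352277) (nat_lit 11) (.e (nat_lit 426010) (nat_lit 0) .nil)))))) (.g (nat_lit 5) .nil .nil))) 
(.lf (nat_lit 128235) (.g (nat_lit 431) (.e (nat_lit 7591) (nat_lit 407) (.e (nat_lit 73733) (nat_lit 0) (.e (nat_lit 7167) (nat_lit 382) .nil))) .nil)))) (.nd (nat_lit 5) (.nd (nat_lit 6) 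
(.lf (nat_lit 128155) (.g (nat_lit 1945) (.e (nat_lit 7591) (nat_lit 407) (.e (nat_lit 73729) (nat_lit 0) (.e (nat_lit 7125) (nat_lit 382) (.e (nat_lit 1183) (nat_lit 87) (.e (nat_lit 65280) (nat_lit 191) .nil))))) .nil)) 
(.lf (nat_lit 128219) (.g (nat_lit 1345) (.e (nat_lit 7591) (nat_lit 407) (.e (nat_lit 73731) (nat_lit 0) (.e (nat_lit 7125) (nat_lit 382) (.e (nat_lit 1296) (nat_lit 96) (.e (nat_lit 131125) (nat_lit 13) .nil))))) .nil))) (.nd (nat_lit 6) 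
(.lf (nat_lit 128187) (.g (nat_lit 2498) (.e (nat_lit 7591) (nat_lit 407) (.e (nat_lit 73729) (nat_lit 0) (.e (nat_lit 7265) (nat_lit 384) (.e (nat_lit 57406) (nat_lit 12) (.e (nat_lit 343808) (nat_lit 13) (.e (nat_lit 393234) (nat_lit 17) .nil)))))) (.g (nat_lit 4) .nil .nil))) 
(.lf (nat_lit 128251) (.g (nat_lit 966) (.e (nat_lit 7591) (nat_lit 407) (.e (nat_lit 73733) (nat_lit 0) (.e (nat_lit 7272) (nat_lit 385) (.e (nat_lit 130816) (nat_lit 12) .nil)))) .nil)))))) (.nd (nat_lit 3) (.nd (nat_lit 4) (.nd (nat_lit 5) (.nd (nat_lit 6) 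
(.lf (nat_lit 128135) (.g (nat_lit 2010) (.e (nat_lit 7591) (nat_lit 407) (.e (nat_lit 73729) (nat_lit 0) (.e (nat_lit 7122) (nat_lit 382) (.e (nat_lit 1193) (nat_lit 88) .nil)))) .nil)) 
(.lf (nat_lit 128199) (.g (nat_lit 1413) (.e (nat_lit 7591) (nat_lit 407) (.e (nat_lit 73729) (nat_lit 0) (.e (nat_lit 7266) (nat_lit 384) (.e (nat_lit 57412) (nat_lit 12) .nil)))) .nil))) (.nd (nat_lit 6) 
(.lf (nat_lit 128167) (.g (nat_lit 1581) (.e (nat_lit 7591) (nat_lit 407) (.e (nat_lit 73729) (nat_lit 0) (.e (nat_lit 7261) (nat_lit 384) (.e (nat_lit 57354) (nat_lit 0) (.e (nat_lit 7936) (nat_lit 343) .nil))))) .nil)) 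
(.lf (nat_lit 128231) (.g (nat_lit 1328) (.e (nat_lit 7591) (nat_lit 407) (.e (nat_lit 73732) (nat_lit 0) (.e (nat_lit 7273) (nat_lit 385) (.e (nat_lit 122914) (nat_lit 14) (.e (nat_lit 352277) (nat_lit 11) .nil))))) .nil)))) (.nd (nat_lit 5) (.nd (nat_lit 6) 
(.lf (nat_lit 128151) (.g (nat_lit 2560) (.e (nat_lit 7591) (nat_lit 407) (.e (nat_lit 73729) (nat_lit 0) (.e (nat_lit 7124) (nat_lit 382) (.e (nat_lit 1201) (nat_lit 88) (.e (nat_lit 65627) (nat_lit 13) (.e (nat_lit 393231) (nat_lit 17) .nil)))))) (.g (nat_lit 5) .nil .nil))) 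
(.lf (nat_lit 128215) (.g (nat_lit 3030) (.e (nat_lit 7591) (nat_lit 407) (.e (nat_lit 73731) (nat_lit 0) (.e (nat_lit 7125) (nat_lit 382) (.e (nat_lit 1222) (nat_lit 90) (.e (nat_lit 81927) (nat_lit 11) (.e (nat_lit 426012) (nat_lit 0) .nil)))))) (.g (nat_lit 0) .nil .nil)))) (.nd (nat_lit 6) 
(.lf (nat_lit 128183) (.g (nat_lit 1280) (.e (nat_lit 7591) (nat_lit 407) (.e (nat_lit 73729) (nat_lit 0) (.e (nat_lit 7265) (nat_lit 384) (.e (nat_lit 57405) (nat_lit 12) .nil)))) .nil)) 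
(.lf (nat_lit 128247) (.g (nat_lit 431) (.e (nat_lit 7591) (nat_lit 407) (.e (nat_lit 73733) (nat_lit 0) (.e (nat_lit 7271) (nat_lit 385) .nil))) .nil))))) (.nd (nat_lit 4) (.nd (nat_lit 5) (.nd (nat_lit 6) 
(.lf (nat_lit 128143) (.g (nat_lit 2689) (.e (nat_lit 7591) (nat_lit 407) (.e (nat_lit 73729) (nat_lit 0) (.e (nat_lit 7122) (nat_lit 382) (.e (nat_lit 1296) (nat_lit 96) (.e (nat_lit 131128) (nat_lit 13) .nil))))) .nil)) 
(.lf (nat_lit 128207) (.g (nat_lit 1729) (.e (nat_lit 7591) (nat_lit 407) (.e (nat_lit 73730) (nat_lit 0) (.e (nat_lit 7122) (nat_lit 382) (.e (nat_lit 1222) (nat_lit 90) (.e (nat_lit 81927) (nat_lit 11) (.e (nat_lit 426009) (nat_lit 0) .nil)))))) (.g (nat_lit 5) .nil .nil)))) (.nd (nat_lit 6) 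
(.lf (nat_lit 128175) (.g (nat_lit 1625) (.e (nat_lit 7591) (nat_lit 407) (.e (nat_lit 73729) (nat_lit 0) (.e (nat_lit 7263) (nat_lit 384) (.e (nat_lit 57409) (nat_lit 12) (.e (nat_lit 336211) (nat_lit 13) .nil))))) .nil)) 
(.lf (nat_lit 128239) (.g (nat_lit 1630) (.e (nat_lit 7591) (nat_lit 407) (.e (nat_lit 73733) (nat_lit 0) (.e (nat_lit 7270) (nat_lit 385) (.e (nat_lit 122906) (nat_lit 12) (.e (nat_lit 336097) (nat_lit 9) .nil))))) .nil)))) (.nd (nat_lit 5) (.nd (nat_lit 6) 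
(.lf (nat_lit 128159) (.g (nat_lit 2136) (.e (nat_lit 7591) (nat_lit 407) (.e (nat_lit 73729) (nat_lit 0) (.e (nat_lit 7125) (nat_lit 382) (.e (nat_lit 1201) (nat_lit 88) (.e (nat_lit 65626) (nat_lit 13) .nil))))) .nil)) 
(.lf (nat_lit 128223) (.g (nat_lit 1591) (.e (nat_lit 7591) (nat_lit 407) (.e (nat_lit 73731) (nat_lit 0) (.e (nat_lit 7266) (nat_lit 384) (.e (nat_lit 57417) (nat_lit 12) (.e (nat_lit 336209) (nat_lit 13) (.e (nat_lit 393231) (nat_lit 17) .nil)))))) (.g (nat_lit 4) .nil .nil)))) (.nd (nat_lit 6) 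
(.lf (nat_lit 128191) (.g (nat_lit 1280) (.e (nat_lit 7591) (nat_lit 407) (.e (nat_lit 73729) (nat_lit 0) (.e (nat_lit 7265) (nat_lit 384) (.e (nat_lit 57418) (nat_lit 12) .nil)))) .nil)) 
(.lf (nat_lit 128255) (.g (nat_lit 664) (.e (nat_lit 7591) (nat_lit 407) (.e (nat_lit 73733) (nat_lit 0) (.e (nat_lit 7273) (nat_lit 385) (.e (nat_lit 122909) (nat_lit 12) .nil)))) .nil)))))))))

noncomputable def tv1717 : DT := (.nd (nat_lit 0) (.nd (nat_lit 1) (.nd (nat_lit 2) (.nd (nat_lit 3) (.nd (nat_lit 4) (.nd (nat_lit 5) (.nd (nat_lit 6) 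
(.lf (nat_lit 128256) (.g (nat_lit 1081) (.e (nat_lit 7591) (nat_lit 407) (.e (nat_lit 81664) (nat_lit 1) (.e (nat_lit 500046) (nat_lit 16) (.e (nat_lit 16466) (nat_lit 13) (.e (nat_lit 491264) (nat_lit 0) .nil))))) (.g (nat_lit 4) .nil .nil))) 
(.lf (nat_lit 128320) (.g (nat_lit 1168) (.e (nat_lit 7591) (nat_lit 407) (.e (nat_lit 73753) (nat_lit 8) (.e (nat_lit 557068) (nat_lit 9) (.e (nat_lit 7936) (nat_lit 24) .nil)))) .nil))) (.nd (nat_lit 6) 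
(.lf (nat_lit 128288) (.g (nat_lit 2241) (.e (nat_lit 7591) (nat_lit 407) (.e (nat_lit 73747) (nat_lit 3) (.e (nat_lit 516185) (nat_lit 16) (.e (nat_lit 491552) (nat_lit 9) (.e (nat_lit 336022) (nat_lit 3) (.e (nat_lit 98320) (nat_lit 17) .nil)))))) (.g (nat_lit 5) .nil .nil))) 
(.lf (nat_lit 128352) (.g (nat_lit 2938) (.e (nat_lit 7591) (nat_lit 407) (.e (nat_lit 73753) (nat_lit 8) (.e (nat_lit 557087) (nat_lit 11) (.e (nat_lit 24641) (nat_lit 10) (.e (nat_lit 344117) (nat_lit 21) .nil))))) .nil)))) (.nd (nat_lit 5) (.nd (nat_lit 6) 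
(.lf (nat_lit 128272) (.g (nat_lit 3683) (.e (nat_lit 7591) (nat_lit 407) (.e (nat_lit 73747) (nat_lit 3) (.e (nat_lit 516098) (nat_lit 0) (.e (nat_lit 7593) (nat_lit 407) (.e (nat_lit 73746) (nat_lit 3) (.e (nat_lit 516097) (nat_lit 0) .nil)))))) (.g (nat_lit 0) .nil .nil))) 
(.lf (nat_lit 128336) (.g (nat_lit 1972) (.e (nat_lit 7591) (nat_lit 407) (.e (nat_lit 73753) (nat_lit 8) (.e (nat_lit 557085) (nat_lit 11) (.e (nat_lit 24644) (nat_lit 11) .nil)))) .nil))) (.nd (nat_lit 6) 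
(.lf (nat_lit 128304) (.g (nat_lit 1913) (.e (nat_lit 7591) (nat_lit 407) (.e (nat_lit 73751) (nat_lit 7) (.e (nat_lit 548891) (nat_lit 11) (.e (nat_lit 81954) (nat_lit 23) (.e (nat_lit 98319) (nat_lit 17) .nil))))) (.g (nat_lit 0) .nil .nil))) 
(.lf (nat_lit 128368) (.g (nat_lit 2294) (.e (nat_lit 7591) (nat_lit 407) (.e (nat_lit 73754) (nat_lit 8) (.e (nat_lit 557085) (nat_lit 11) (.e (nat_lit 24627) (nat_lit 9) (.e (nat_lit 336019) (nat_lit 3) .nil))))) .nil))))) (.nd (nat_lit 4) (.nd (nat_lit 5) (.nd (nat_lit 6) 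
(.lf (nat_lit 128264) (.g (nat_lit 2238) (.e (nat_lit 7591) (nat_lit 407) (.e (nat_lit 73746) (nat_lit 3) (.e (nat_lit 516185) (nat_lit 16) (.e (nat_lit 491558) (nat_lit 10) (.e (nat_lit 344117) (nat_lit 21) .nil))))) .nil)) 
(.lf (nat_lit 128328) (.g (nat_lit 1375) (.e (nat_lit 7591) (nat_lit 407) (.e (nat_lit 73753) (nat_lit 8) (.e (nat_lit 557072) (nat_lit 9) (.e (nat_lit 7936) (nat_lit 26) .nil)))) .nil))) (.nd (nat_lit 6) 
(.lf (nat_lit 128296) (.g (nat_lit 2842) (.e (nat_lit 7591) (nat_lit 407) (.e (nat_lit 73748) (nat_lit 3) (.e (nat_lit 516139) (nat_lit 7) (.e (nat_lit 409616) (nat_lit 10) (.e (nat_lit 5355) (nat_lit 298) (.e (nat_lit 1252) (nat_lit 92) (.e (nat_lit 98319) (nat_lit 17) .nil))))))) (.g (nat_lit 5) .nil .nil))) 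
(.lf (nat_lit 128360) (.g (nat_lit 696) (.e (nat_lit 7591) (nat_lit 407) (.e (nat_lit 73754) (nat_lit 8) (.e (nat_lit 557066) (nat_lit 9) .nil))) .nil)))) (.nd (nat_lit 5) (.nd (nat_lit 6) 
(.lf (nat_lit 128280) (.g (nat_lit 1864) (.e (nat_lit 7591) (nat_lit 407) (.e (nat_lit 73747) (nat_lit 3) (.e (nat_lit 516179) (nat_lit 15) (.e (nat_lit 475209) (nat_lit 41) .nil)))) .nil)) 
(.lf (nat_lit 128344) (.g (nat_lit 3199) (.e (nat_lit 7591) (nat_lit 407) (.e (nat_lit 73753) (nat_lit 8) (.e (nat_lit 557087) (nat_lit 11) (.e (nat_lit 24628) (nat_lit 9) (.e (nat_lit 336019) (nat_lit 3) (.e (nat_lit 98319) (nat_lit 17) .nil)))))) (.g (nat_lit 6) .nil .nil)))) (.nd (nat_lit 6) 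
(.lf (nat_lit 128312) (.g (nat_lit 2554) (.e (nat_lit 7591) (nat_lit 407) (.e (nat_lit 73753) (nat_lit 8) (.e (nat_lit 557065) (nat_lit 9) (.e (nat_lit 334) (nat_lit 26) (.e (nat_lit 376867) (nat_lit 23) (.e (nat_lit 98320) (nat_lit 17) .nil)))))) (.g (nat_lit 4) .nil .nil))) 
(.lf (nat_lit 128376) (.g (nat_lit 1295) (.e (nat_lit 7591) (nat_lit 407) (.e (nat_lit 73754) (nat_lit 8) (.e (nat_lit 557085) (nat_lit 11) (.e (nat_lit 24646) (nat_lit 11) .nil)))) .nil)))))) (.nd (nat_lit 3) (.nd (nat_lit 4) (.nd (nat_lit 5) (.nd (nat_lit 6) 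
(.lf (nat_lit 128260) (.g (nat_lit 2066) (.e (nat_lit 7591) (nat_lit 407) (.e (nat_lit 73744) (nat_lit 2) (.e (nat_lit 507922) (nat_lit 6) (.e (nat_lit 286756) (nat_lit 10) (.e (nat_lit 344117) (nat_lit 21) (.e (nat_lit 516098) (nat_lit 0) .nil)))))) (.g (nat_lit 6) .nil .nil))) 
(.lf (nat_lit 128324) (.g (nat_lit 1607) (.e (nat_lit 7591) (nat_lit 407) (.e (nat_lit 73753) (nat_lit 8) (.e (nat_lit 557070) (nat_lit 9) (.e (nat_lit 7936) (nat_lit 23) .nil)))) .nil))) (.nd (nat_lit 6) 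
(.lf (nat_lit 128292) (.g (nat_lit 4277) (.e (nat_lit 7591) (nat_lit 407) (.e (nat_lit 73747) (nat_lit 3) (.e (nat_lit 516185) (nat_lit 16) (.e (nat_lit 491560) (nat_lit 10) (.e (nat_lit 344117) (nat_lit 21) (.e (nat_lit 516097) (nat_lit 0) .nil)))))) (.g (nat_lit 6) .nil .nil))) 
(.lf (nat_lit 128356) (.g (nat_lit 485) (.e (nat_lit 7591) (nat_lit 407) (.e (nat_lit 73754) (nat_lit 8) (.e (nat_lit 557064) (nat_lit 9) .nil))) .nil)))) (.nd (nat_lit 5) (.nd (nat_lit 6) 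
(.lf (nat_lit 128276) (.g (nat_lit 3201) (.e (nat_lit 7591) (nat_lit 407) (.e (nat_lit 73747) (nat_lit 3) (.e (nat_lit 516139) (nat_lit 7) (.e (nat_lit 409616) (nat_lit 10) (.e (nat_lit 5355) (nat_lit 298) (.e (nat_lit 1253) (nat_lit 92) (.e (nat_lit 98319) (nat_lit 17) .nil))))))) (.g (nat_lit 5) .nil .nil))) 
(.lf (nat_lit 128340) (.g (nat_lit 2435) (.e (nat_lit 7591) (nat_lit 407) (.e (nat_lit 73753) (nat_lit 8) (.e (nat_lit 557086) (nat_lit 11) (.e (nat_lit 24628) (nat_lit 9) (.e (nat_lit 336019) (nat_lit 3) (.e (nat_lit 98320) (nat_lit 17) .nil)))))) (.g (nat_lit 4) .nil .nil)))) (.nd (nat_lit 6) 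
(.lf (nat_lit 128308) (.g (nat_lit 1952) (.e (nat_lit 7591) (nat_lit 407) (.e (nat_lit 73753) (nat_lit 8) (.e (nat_lit 557065) (nat_lit 9) (.e (nat_lit 309) (nat_lit 23) .nil)))) .nil)) 
(.lf (nat_lit 128372) (.g (nat_lit 1759) (.e (nat_lit 7591) (nat_lit 407) (.e (nat_lit 73754) (nat_lit 8) (.e (nat_lit 557085) (nat_lit 11) (.e (nat_lit 24636) (nat_lit 9) (.e (nat_lit 336017) (nat_lit 3) (.e (nat_lit 98320) (nat_lit 17) .nil)))))) (.g (nat_lit 4) .nil .nil)))))) (.nd (nat_lit 4) (.nd (nat_lit 5) (.nd (nat_lit 6) 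
(.lf (nat_lit 128268) (.g (nat_lit 1721) (.e (nat_lit 7591) (nat_lit 407) (.e (nat_lit 73747) (nat_lit 3) (.e (nat_lit 516097) (nat_lit 0) (.e (nat_lit 7591) (nat_lit 407) .nil)))) .nil)) 
(.lf (nat_lit 128332) (.g (nat_lit 877) (.e (nat_lit 7591) (nat_lit 407) (.e (nat_lit 73753) (nat_lit 8) (.e (nat_lit 557081) (nat_lit 9) .nil))) .nil))) (.nd (nat_lit 6) 
(.lf (nat_lit 128300) (.g (nat_lit 2828) (.e (nat_lit 7591) (nat_lit 407) (.e (nat_lit 73748) (nat_lit 3) (.e (nat_lit 516185) (nat_lit 16) (.e (nat_lit 491560) (nat_lit 10) (.e (nat_lit 344118) (nat_lit 21) .nil))))) .nil)) 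
(.lf (nat_lit 128364) (.g (nat_lit 1354) (.e (nat_lit 7591) (nat_lit 407) (.e (nat_lit 73754) (nat_lit 8) (.e (nat_lit 557070) (nat_lit 9) (.e (nat_lit 7936) (nat_lit 23) .nil)))) .nil)))) (.nd (nat_lit 5) (.nd (nat_lit 6) 
(.lf (nat_lit 128284) (.g (nat_lit 719) (.e (nat_lit 7591) (nat_lit 407) (.e (nat_lit 73747) (nat_lit 3) (.e (nat_lit 516183) (nat_lit 16) .nil))) .nil)) 
(.lf (nat_lit 128348) (.g (nat_lit 2545) (.e (nat_lit 7591) (nat_lit 407) (.e (nat_lit 73753) (nat_lit 8) (.e (nat_lit 557087) (nat_lit 11) (.e (nat_lit 24636) (nat_lit 9) (.e (nat_lit 336017) (nat_lit 3) (.e (nat_lit 98319) (nat_lit 17) .nil)))))) (.g (nat_lit 5) .nil .nil)))) (.nd (nat_lit 6) 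
(.lf (nat_lit 128316) (.g (nat_lit 2622) (.e (nat_lit 7591) (nat_lit 407) (.e (nat_lit 73753) (nat_lit 8) (.e (nat_lit 557066) (nat_lit 9) (.e (nat_lit 314) (nat_lit 23) (.e (nat_lit 352315) (nat_lit 23) (.e (nat_lit 98319) (nat_lit 17) .nil)))))) (.g (nat_lit 5) .nil .nil))) 
(.lf (nat_lit 128380) (.g (nat_lit 1744) (.e (nat_lit 7591) (nat_lit 407) (.e (nat_lit 73754) (nat_lit 8) (.e (nat_lit 557087) (nat_lit 11) (.e (nat_lit 24628) (nat_lit 9) .nil)))) .nil))))))) (.nd (nat_lit 2) (.nd (nat_lit 3) (.nd (nat_lit 4) (.nd (nat_lit 5) (.nd (nat_lit 6) 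
(.lf (nat_lit 128258) (.g (nat_lit 2253) (.e (nat_lit 7591) (nat_lit 407) (.e (nat_lit 73744) (nat_lit 2) (.e (nat_lit 507921) (nat_lit 6) (.e (nat_lit 286752) (nat_lit 10) (.e (nat_lit 344117) (nat_lit 21) (.e (nat_lit 516098) (nat_lit 0) .nil)))))) (.g (nat_lit 6) .nil .nil))) 
(.lf (nat_lit 128322) (.g (nat_lit 1694) (.e (nat_lit 7591) (nat_lit 407) (.e (nat_lit 73753) (nat_lit 8) (.e (nat_lit 557070) (nat_lit 9) (.e (nat_lit 313) (nat_lit 23) .nil)))) .nil))) (.nd (nat_lit 6) 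
(.lf (nat_lit 128290) (.g (nat_lit 3800) (.e (nat_lit 7591) (nat_lit 407) (.e (nat_lit 73747) (nat_lit 3) (.e (nat_lit 516185) (nat_lit 16) (.e (nat_lit 491558) (nat_lit 10) (.e (nat_lit 344117) (nat_lit 21) (.e (nat_lit 516097) (nat_lit 0) .nil)))))) (.g (nat_lit 6) .nil .nil))) 
(.lf (nat_lit 128354) (.g (nat_lit 2822) (.e (nat_lit 7591) (nat_lit 407) (.e (nat_lit 73753) (nat_lit 8) (.e (nat_lit 557087) (nat_lit 11) (.e (nat_lit 24644) (nat_lit 11) (.e (nat_lit 368676) (nat_lit 21) (.e (nat_lit 516097) (nat_lit 0) .nil)))))) (.g (nat_lit 6) .nil .nil))))) (.nd (nat_lit 5) (.nd (nat_lit 6) 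
(.lf (nat_lit 128274) (.g (nat_lit 2355) (.e (nat_lit 7591) (nat_lit 407) (.e (nat_lit 73747) (nat_lit 3) (.e (nat_lit 516139) (nat_lit 7) (.e (nat_lit 409616) (nat_lit 10) (.e (nat_lit 5345) (nat_lit 298) .nil))))) .nil)) 
(.lf (nat_lit 128338) (.g (nat_lit 1438) (.e (nat_lit 7591) (nat_lit 407) (.e (nat_lit 73753) (nat_lit 8) (.e (nat_lit 557086) (nat_lit 11) (.e (nat_lit 24627) (nat_lit 9) .nil)))) .nil))) (.nd (nat_lit 6) 
(.lf (nat_lit 128306) (.g (nat_lit 2342) (.e (nat_lit 7591) (nat_lit 407) (.e (nat_lit 73751) (nat_lit 7) (.e (nat_lit 548891) (nat_lit 11) (.e (nat_lit 81956) (nat_lit 23) (.e (nat_lit 98319) (nat_lit 17) .nil))))) (.g (nat_lit 0) .nil .nil))) 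
(.lf (nat_lit 128370) (.g (nat_lit 3058) (.e (nat_lit 7591) (nat_lit 407) (.e (nat_lit 73754) (nat_lit 8) (.e (nat_lit 557085) (nat_lit 11) (.e (nat_lit 24628) (nat_lit 9) (.e (nat_lit 336019) (nat_lit 3) (.e (nat_lit 98320) (nat_lit 17) .nil)))))) (.g (nat_lit 6) .nil .nil)))))) (.nd (nat_lit 4) (.nd (nat_lit 5) (.nd (nat_lit 6) 
(.lf (nat_lit 128266) (.g (nat_lit 1883) (.e (nat_lit 7591) (nat_lit 407) (.e (nat_lit 73747) (nat_lit 3) (.e (nat_lit 516097) (nat_lit 0) (.e (nat_lit 7585) (nat_lit 406) .nil)))) .nil)) 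
(.lf (nat_lit 128330) (.g (nat_lit 878) (.e (nat_lit 7591) (nat_lit 407) (.e (nat_lit 73753) (nat_lit 8) (.e (nat_lit 557074) (nat_lit 9) .nil))) .nil))) (.nd (nat_lit 6) 
(.lf (nat_lit 128298) (.g (nat_lit 3246) (.e (nat_lit 7591) (nat_lit 407) (.e (nat_lit 73748) (nat_lit 3) (.e (nat_lit 516139) (nat_lit 7) (.e (nat_lit 409617) (nat_lit 10) (.e (nat_lit 5355) (nat_lit 298) (.e (nat_lit 1252) (nat_lit 92) (.e (nat_lit 98319) (nat_lit 17) .nil))))))) (.g (nat_lit 6) .nil .nil))) 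
(.lf (nat_lit 128362) (.g (nat_lit 1764) (.e (nat_lit 7591) (nat_lit 407) (.e (nat_lit 73754) (nat_lit 8) (.e (nat_lit 557066) (nat_lit 9) (.e (nat_lit 324) (nat_lit 24) (.e (nat_lit 360466) (nat_lit 3) .nil))))) .nil)))) (.nd (nat_lit 5) (.nd (nat_lit 6) 
(.lf (nat_lit 128282) (.g (nat_lit 2710) (.e (nat_lit 7591) (nat_lit 407) (.e (nat_lit 73747) (nat_lit 3) (.e (nat_lit 516179) (nat_lit 15) (.e (nat_lit 475210) (nat_lit 41) (.e (nat_lit 720640) (nat_lit 3) .nil))))) .nil)) 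
(.lf (nat_lit 128346) (.g (nat_lit 2265) (.e (nat_lit 7591) (nat_lit 407) (.e (nat_lit 73753) (nat_lit 8) (.e (nat_lit 557087) (nat_lit 11) (.e (nat_lit 24631) (nat_lit 9) (.e (nat_lit 336020) (nat_lit 3) (.e (nat_lit 98319) (nat_lit 17) .nil)))))) (.g (nat_lit 5) .nil .nil)))) (.nd (nat_lit 6) 
(.lf (nat_lit 128314) (.g (nat_lit 2592) (.e (nat_lit 7591) (nat_lit 407) (.e (nat_lit 73753) (nat_lit 8) (.e (nat_lit 557065) (nat_lit 9) (.e (nat_lit 334) (nat_lit 26) (.e (nat_lit 376869) (nat_lit 23) (.e (nat_lit 98320) (nat_lit 17) .nil)))))) (.g (nat_lit 4) .nil .nil))) 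
(.lf (nat_lit 128378) (.g (nat_lit 1131) (.e (nat_lit 7591) (nat_lit 407) (.e (nat_lit 73754) (nat_lit 8) (.e (nat_lit 557086) (nat_lit 11) (.e (nat_lit 24638) (nat_lit 9) .nil)))) .nil)))))) (.nd (nat_lit 3) (.nd (nat_lit 4) (.nd (nat_lit 5) (.nd (nat_lit 6) 
(.lf (nat_lit 128262) (.g (nat_lit 1838) (.e (nat_lit 7591) (nat_lit 407) (.e (nat_lit 73746) (nat_lit 3) (.e (nat_lit 516097) (nat_lit 0) (.e (nat_lit 7587) (nat_lit 406) .nil)))) .nil)) 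
(.lf (nat_lit 128326) (.g (nat_lit 1607) (.e (nat_lit 7591) (nat_lit 407) (.e (nat_lit 73753) (nat_lit 8) (.e (nat_lit 557070) (nat_lit 9) (.e (nat_lit 7936) (nat_lit 26) .nil)))) .nil))) (.nd (nat_lit 6) 
(.lf (nat_lit 128294) (.g (nat_lit 2545) (.e (nat_lit 7591) (nat_lit 407) (.e (nat_lit 73748) (nat_lit 3) (.e (nat_lit 516139) (nat_lit 7) (.e (nat_lit 409616) (nat_lit 10) (.e (nat_lit 5345) (nat_lit 298) (.e (nat_lit 1255) (nat_lit 92) (.e (nat_lit 98319) (nat_lit 17) .nil))))))) (.g (nat_lit 4) .nil .nil))) 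
(.lf (nat_lit 128358) (.g (nat_lit 2060) (.e (nat_lit 7591) (nat_lit 407) (.e (nat_lit 73754) (nat_lit 8) (.e (nat_lit 557065) (nat_lit 9) (.e (nat_lit 334) (nat_lit 26) (.e (nat_lit 376867) (nat_lit 23) .nil))))) .nil)))) (.nd (nat_lit 5) (.nd (nat_lit 6) 
(.lf (nat_lit 128278) (.g (nat_lit 719) (.e (nat_lit 7591) (nat_lit 407) (.e (nat_lit 73747) (nat_lit 3) (.e (nat_lit 516141) (nat_lit 8) .nil))) .nil)) 
(.lf (nat_lit 128342) (.g (nat_lit 3160) (.e (nat_lit 7591) (nat_lit 407) (.e (nat_lit 73753) (nat_lit 8) (.e (nat_lit 557087) (nat_lit 11) (.e (nat_lit 24625) (nat_lit 9) (.e (nat_lit 336019) (nat_lit 3) (.e (nat_lit 98320) (nat_lit 17) .nil)))))) (.g (nat_lit 6) .nil .nil)))) (.nd (nat_lit 6) 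
(.lf (nat_lit 128310) (.g (nat_lit 1869) (.e (nat_lit 7591) (nat_lit 407) (.e (nat_lit 73753) (nat_lit 8) (.e (nat_lit 557065) (nat_lit 9) (.e (nat_lit 324) (nat_lit 24) .nil)))) .nil)) 
(.lf (nat_lit 128374) (.g (nat_lit 1295) (.e (nat_lit 7591) (nat_lit 407) (.e (nat_lit 73754) (nat_lit 8) (.e (nat_lit 557085) (nat_lit 11) (.e (nat_lit 24639) (nat_lit 10) .nil)))) .nil))))) (.nd (nat_lit 4) (.nd (nat_lit 5) (.nd (nat_lit 6) 
(.lf (nat_lit 128270) (.g (nat_lit 3227) (.e (nat_lit 7591) (nat_lit 407) (.e (nat_lit 73747) (nat_lit 3) (.e (nat_lit 516097) (nat_lit 0) (.e (nat_lit 7593) (nat_lit 407) (.e (nat_lit 73746) (nat_lit 3) (.e (nat_lit 516097) (nat_lit 0) .nil)))))) (.g (nat_lit 5) .nil .nil))) 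
(.lf (nat_lit 128334) (.g (nat_lit 2542) (.e (nat_lit 7591) (nat_lit 407) (.e (nat_lit 73753) (nat_lit 8) (.e (nat_lit 557085) (nat_lit 11) (.e (nat_lit 24628) (nat_lit 9) (.e (nat_lit 336019) (nat_lit 3) .nil))))) .nil))) (.nd (nat_lit 6) 
(.lf (nat_lit 128302) (.g (nat_lit 2393) (.e (nat_lit 7591) (nat_lit 407) (.e (nat_lit 73751) (nat_lit 7) (.e (nat_lit 548887) (nat_lit 9) (.e (nat_lit 65619) (nat_lit 10) (.e (nat_lit 344117) (nat_lit 21) (.e (nat_lit 516098) (nat_lit 0) .nil)))))) (.g (nat_lit 6) .nil .nil))) 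
(.lf (nat_lit 128366) (.g (nat_lit 1252) (.e (nat_lit 7591) (nat_lit 407) (.e (nat_lit 73754) (nat_lit 8) (.e (nat_lit 557081) (nat_lit 9) (.e (nat_lit 316) (nat_lit 23) .nil)))) .nil)))) (.nd (nat_lit 5) (.nd (nat_lit 6) 
(.lf (nat_lit 128286) (.g (nat_lit 2789) (.e (nat_lit 7591) (nat_lit 407) (.e (nat_lit 73747) (nat_lit 3) (.e (nat_lit 516184) (nat_lit 16) (.e (nat_lit 491560) (nat_lit 10) (.e (nat_lit 344117) (nat_lit 21) (.e (nat_lit 516098) (nat_lit 0) .nil)))))) (.g (nat_lit 4) .nil .nil))) 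
(.lf (nat_lit 128350) (.g (nat_lit 3252) (.e (nat_lit 7591) (nat_lit 407) (.e (nat_lit 73753) (nat_lit 8) (.e (nat_lit 557087) (nat_lit 11) (.e (nat_lit 24639) (nat_lit 10) (.e (nat_lit 344117) (nat_lit 21) (.e (nat_lit 516097) (nat_lit 0) .nil)))))) (.g (nat_lit 6) .nil .nil)))) (.nd (nat_lit 6) 
(.lf (nat_lit 128318) (.g (nat_lit 2183) (.e (nat_lit 7591) (nat_lit 407) (.e (nat_lit 73753) (nat_lit 8) (.e (nat_lit 557067) (nat_lit 9) (.e (nat_lit 20) (nat_lit 0) .nil)))) .nil)) 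
(.lf (nat_lit 128382) (.g (nat_lit 2653) (.e (nat_lit 7591) (nat_lit 407) (.e (nat_lit 73754) (nat_lit 8) (.e (nat_lit 557087) (nat_lit 11) (.e (nat_lit 24638) (nat_lit 9) (.e (nat_lit 336021) (nat_lit 3) .nil))))) .nil)))))))) (.nd (nat_lit 1) (.nd (nat_lit 2) (.nd (nat_lit 3) (.nd (nat_lit 4) (.nd (nat_lit 5) (.nd (nat_lit 6) 
(.lf (nat_lit 128257) (.g (nat_lit 2030) (.e (nat_lit 7591) (nat_lit 407) (.e (nat_lit 73744) (nat_lit 2) (.e (nat_lit 507908) (nat_lit 0) (.e (nat_lit 5401) (nat_lit 302) (.e (nat_lit 65571) (nat_lit 3) (.e (nat_lit 98320) (nat_lit 17) .nil)))))) (.g (nat_lit 6) .nil .nil))) 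
(.lf (nat_lit 128321) (.g (nat_lit 1168) (.e (nat_lit 7591) (nat_lit 407) (.e (nat_lit 73753) (nat_lit 8) (.e (nat_lit 557068) (nat_lit 9) (.e (nat_lit 7936) (nat_lit 26) .nil)))) .nil))) (.nd (nat_lit 6) 
(.lf (nat_lit 128289) (.g (nat_lit 2165) (.e (nat_lit 7591) (nat_lit 407) (.e (nat_lit 73747) (nat_lit 3) (.e (nat_lit 516185) (nat_lit 16) (.e (nat_lit 491552) (nat_lit 9) (.e (nat_lit 336023) (nat_lit 3) (.e (nat_lit 98320) (nat_lit 17) .nil)))))) (.g (nat_lit 4) .nil .nil))) 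
(.lf (nat_lit 128353) (.g (nat_lit 2587) (.e (nat_lit 7591) (nat_lit 407) (.e (nat_lit 73753) (nat_lit 8) (.e (nat_lit 557087) (nat_lit 11) (.e (nat_lit 24641) (nat_lit 10) (.e (nat_lit 344119) (nat_lit 21) .nil))))) .nil)))) (.nd (nat_lit 5) (.nd (nat_lit 6) 
(.lf (nat_lit 128273) (.g (nat_lit 732) (.e (nat_lit 7591) (nat_lit 407) (.e (nat_lit 73747) (nat_lit 3) (.e (nat_lit 516106) (nat_lit 0) .nil))) .nil)) 
(.lf (nat_lit 128337) (.g (nat_lit 703) (.e (nat_lit 7591) (nat_lit 407) (.e (nat_lit 73753) (nat_lit 8) (.e (nat_lit 557086) (nat_lit 11) .nil))) .nil))) (.nd (nat_lit 6) 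
(.lf (nat_lit 128305) (.g (nat_lit 1787) (.e (nat_lit 7591) (nat_lit 407) (.e (nat_lit 73751) (nat_lit 7) (.e (nat_lit 548891) (nat_lit 11) (.e (nat_lit 81955) (nat_lit 23) (.e (nat_lit 98320) (nat_lit 17) .nil))))) (.g (nat_lit 5) .nil .nil))) 
(.lf (nat_lit 128369) (.g (nat_lit 2908) (.e (nat_lit 7591) (nat_lit 407) (.e (nat_lit 73754) (nat_lit 8) (.e (nat_lit 557085) (nat_lit 11) (.e (nat_lit 24628) (nat_lit 9) (.e (nat_lit 336019) (nat_lit 3) (.e (nat_lit 98319) (nat_lit 17) .nil)))))) (.g (nat_lit 5) .nil .nil)))))) (.nd (nat_lit 4) (.nd (nat_lit 5) (.nd (nat_lit 6) 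
(.lf (nat_lit 128265) (.g (nat_lit 2780) (.e (nat_lit 7591) (nat_lit 407) (.e (nat_lit 73746) (nat_lit 3) (.e (nat_lit 516185) (nat_lit 16) (.e (nat_lit 491560) (nat_lit 10) (.e (nat_lit 344118) (nat_lit 21) .nil))))) .nil)) 
(.lf (nat_lit 128329) (.g (nat_lit 726) (.e (nat_lit 7591) (nat_lit 407) (.e (nat_lit 73753) (nat_lit 8) (.e (nat_lit 557073) (nat_lit 9) .nil))) .nil))) (.nd (nat_lit 6) 
(.lf (nat_lit 128297) (.g (nat_lit 2382) (.e (nat_lit 7591) (nat_lit 407) (.e (nat_lit 73748) (nat_lit 3) (.e (nat_lit 516139) (nat_lit 7) (.e (nat_lit 409616) (nat_lit 10) (.e (nat_lit 5355) (nat_lit 298) (.e (nat_lit 1253) (nat_lit 92) (.e (nat_lit 98319) (nat_lit 17) .nil))))))) (.g (nat_lit 4) .nil .nil))) 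
(.lf (nat_lit 128361) (.g (nat_lit 1810) (.e (nat_lit 7591) (nat_lit 407) (.e (nat_lit 73754) (nat_lit 8) (.e (nat_lit 557066) (nat_lit 9) (.e (nat_lit 321) (nat_lit 24) (.e (nat_lit 360467) (nat_lit 3) .nil))))) .nil)))) (.nd (nat_lit 5) (.nd (nat_lit 6) 
(.lf (nat_lit 128281) (.g (nat_lit 1737) (.e (nat_lit 7591) (nat_lit 407) (.e (nat_lit 73747) (nat_lit 3) (.e (nat_lit 516179) (nat_lit 15) (.e (nat_lit 475210) (nat_lit 41) .nil)))) .nil)) 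
(.lf (nat_lit 128345) (.g (nat_lit 1963) (.e (nat_lit 7591) (nat_lit 407) (.e (nat_lit 73753) (nat_lit 8) (.e (nat_lit 557087) (nat_lit 11) (.e (nat_lit 24631) (nat_lit 9) (.e (nat_lit 335923) (nat_lit 0) .nil))))) .nil))) (.nd (nat_lit 6) 
(.lf (nat_lit 128313) (.g (nat_lit 2475) (.e (nat_lit 7591) (nat_lit 407) (.e (nat_lit 73753) (nat_lit 8) (.e (nat_lit 557065) (nat_lit 9) (.e (nat_lit 334) (nat_lit 26) (.e (nat_lit 376869) (nat_lit 23) .nil))))) .nil)) 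
(.lf (nat_lit 128377) (.g (nat_lit 696) (.e (nat_lit 7591) (nat_lit 407) (.e (nat_lit 73754) (nat_lit 8) (.e (nat_lit 557086) (nat_lit 11) .nil))) .nil)))))) (.nd (nat_lit 3) (.nd (nat_lit 4) (.nd (nat_lit 5) (.nd (nat_lit 6) 
(.lf (nat_lit 128261) (.g (nat_lit 2383) (.e (nat_lit 7591) (nat_lit 407) (.e (nat_lit 73745) (nat_lit 3) (.e (nat_lit 516185) (nat_lit 16) (.e (nat_lit 491560) (nat_lit 10) (.e (nat_lit 344117) (nat_lit 21) .nil))))) .nil)) 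
(.lf (nat_lit 128325) (.g (nat_lit 1734) (.e (nat_lit 7591) (nat_lit 407) (.e (nat_lit 73753) (nat_lit 8) (.e (nat_lit 557070) (nat_lit 9) (.e (nat_lit 333) (nat_lit 26) .nil)))) .nil))) (.nd (nat_lit 6) 
(.lf (nat_lit 128293) (.g (nat_lit 1391) (.e (nat_lit 7591) (nat_lit 407) (.e (nat_lit 73747) (nat_lit 3) (.e (nat_lit 516185) (nat_lit 16) (.e (nat_lit 491561) (nat_lit 11) .nil)))) .nil)) 
(.lf (nat_lit 128357) (.g (nat_lit 696) (.e (nat_lit 7591) (nat_lit 407) (.e (nat_lit 73754) (nat_lit 8) (.e (nat_lit 557065) (nat_lit 9) .nil))) .nil)))) (.nd (nat_lit 5) (.nd (nat_lit 6) 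
(.lf (nat_lit 128277) (.g (nat_lit 2195) (.e (nat_lit 7591) (nat_lit 407) (.e (nat_lit 73747) (nat_lit 3) (.e (nat_lit 516139) (nat_lit 7) (.e (nat_lit 409617) (nat_lit 10) (.e (nat_lit 5355) (nat_lit 298) .nil))))) .nil)) 
(.lf (nat_lit 128341) (.g (nat_lit 2882) (.e (nat_lit 7591) (nat_lit 407) (.e (nat_lit 73753) (nat_lit 8) (.e (nat_lit 557087) (nat_lit 11) (.e (nat_lit 24625) (nat_lit 9) (.e (nat_lit 336019) (nat_lit 3) (.e (nat_lit 98319) (nat_lit 17) .nil)))))) (.g (nat_lit 5) .nil .nil)))) (.nd (nat_lit 6) 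
(.lf (nat_lit 128309) (.g (nat_lit 1945) (.e (nat_lit 7591) (nat_lit 407) (.e (nat_lit 73753) (nat_lit 8) (.e (nat_lit 557065) (nat_lit 9) (.e (nat_lit 315) (nat_lit 23) .nil)))) .nil)) 
(.lf (nat_lit 128373) (.g (nat_lit 2862) (.e (nat_lit 7591) (nat_lit 407) (.e (nat_lit 73754) (nat_lit 8) (.e (nat_lit 557085) (nat_lit 11) (.e (nat_lit 24638) (nat_lit 9) (.e (nat_lit 336021) (nat_lit 3) (.e (nat_lit 98320) (nat_lit 17) .nil)))))) (.g (nat_lit 5) .nil .nil)))))) (.nd (nat_lit 4) (.nd (nat_lit 5) (.nd (nat_lit 6) 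
(.lf (nat_lit 128269) (.g (nat_lit 2864) (.e (nat_lit 7591) (nat_lit 407) (.e (nat_lit 73747) (nat_lit 3) (.e (nat_lit 516097) (nat_lit 0) (.e (nat_lit 7591) (nat_lit 407) (.e (nat_lit 73747) (nat_lit 3) (.e (nat_lit 516098) (nat_lit 0) .nil)))))) (.g (nat_lit 5) .nil .nil))) 
(.lf (nat_lit 128333) (.g (nat_lit 809) (.e (nat_lit 7591) (nat_lit 407) (.e (nat_lit 73753) (nat_lit 8) (.e (nat_lit 557085) (nat_lit 11) .nil))) .nil))) (.nd (nat_lit 6) 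
(.lf (nat_lit 128301) (.g (nat_lit 2386) (.e (nat_lit 7591) (nat_lit 407) (.e (nat_lit 73751) (nat_lit 7) (.e (nat_lit 548887) (nat_lit 9) (.e (nat_lit 65619) (nat_lit 10) (.e (nat_lit 344117) (nat_lit 21) (.e (nat_lit 516097) (nat_lit 0) .nil)))))) (.g (nat_lit 6) .nil .nil))) 
(.lf (nat_lit 128365) (.g (nat_lit 702) (.e (nat_lit 7591) (nat_lit 407) (.e (nat_lit 73754) (nat_lit 8) (.e (nat_lit 557071) (nat_lit 9) .nil))) .nil)))) (.nd (nat_lit 5) (.nd (nat_lit 6) 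
(.lf (nat_lit 128285) (.g (nat_lit 744) (.e (nat_lit 7591) (nat_lit 407) (.e (nat_lit 73747) (nat_lit 3) (.e (nat_lit 516184) (nat_lit 16) .nil))) .nil)) 
(.lf (nat_lit 128349) (.g (nat_lit 3367) (.e (nat_lit 7591) (nat_lit 407) (.e (nat_lit 73753) (nat_lit 8) (.e (nat_lit 557087) (nat_lit 11) (.e (nat_lit 24638) (nat_lit 9) (.e (nat_lit 336021) (nat_lit 3) (.e (nat_lit 98320) (nat_lit 17) .nil)))))) (.g (nat_lit 0) .nil .nil)))) (.nd (nat_lit 6) 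
(.lf (nat_lit 128317) (.g (nat_lit 622) (.e (nat_lit 7591) (nat_lit 407) (.e (nat_lit 73753) (nat_lit 8) (.e (nat_lit 557067) (nat_lit 9) .nil))) .nil)) 
(.lf (nat_lit 128381) (.g (nat_lit 1732) (.e (nat_lit 7591) (nat_lit 407) (.e (nat_lit 73754) (nat_lit 8) (.e (nat_lit 557087) (nat_lit 11) (.e (nat_lit 24636) (nat_lit 9) .nil)))) .nil))))))) (.nd (nat_lit 2) (.nd (nat_lit 3) (.nd (nat_lit 4) (.nd (nat_lit 5) (.nd (nat_lit 6) 
(.lf (nat_lit 128259) (.g (nat_lit 2185) (.e (nat_lit 7591) (nat_lit 407) (.e (nat_lit 73744) (nat_lit 2) (.e (nat_lit 507921) (nat_lit 6) (.e (nat_lit 286756) (nat_lit 10) (.e (nat_lit 344117) (nat_lit 21) (.e (nat_lit 516098) (nat_lit 0) .nil)))))) (.g (nat_lit 6) .nil .nil))) 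
(.lf (nat_lit 128323) (.g (nat_lit 1841) (.e (nat_lit 7591) (nat_lit 407) (.e (nat_lit 73753) (nat_lit 8) (.e (nat_lit 557070) (nat_lit 9) (.e (nat_lit 313) (nat_lit 23) (.e (nat_lit 352315) (nat_lit 23) .nil))))) .nil))) (.nd (nat_lit 6) 
(.lf (nat_lit 128291) (.g (nat_lit 2851) (.e (nat_lit 7591) (nat_lit 407) (.e (nat_lit 73747) (nat_lit 3) (.e (nat_lit 516185) (nat_lit 16) (.e (nat_lit 491559) (nat_lit 10) (.e (nat_lit 344117) (nat_lit 21) .nil))))) .nil)) 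
(.lf (nat_lit 128355) (.g (nat_lit 2254) (.e (nat_lit 7591) (nat_lit 407) (.e (nat_lit 73753) (nat_lit 8) (.e (nat_lit 557087) (nat_lit 11) (.e (nat_lit 24645) (nat_lit 11) (.e (nat_lit 368676) (nat_lit 21) (.e (nat_lit 516097) (nat_lit 0) .nil)))))) (.g (nat_lit 4) .nil .nil))))) (.nd (nat_lit 5) (.nd (nat_lit 6) 
(.lf (nat_lit 128275) (.g (nat_lit 2585) (.e (nat_lit 7591) (nat_lit 407) (.e (nat_lit 73747) (nat_lit 3) (.e (nat_lit 516139) (nat_lit 7) (.e (nat_lit 409616) (nat_lit 10) (.e (nat_lit 5353) (nat_lit 298) (.e (nat_lit 1077) (nat_lit 81) (.e (nat_lit 1796) (nat_lit 119) (.e (nat_lit 516098) (nat_lit 0) .nil)))))))) (.g (nat_lit 4) .nil .nil))) 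
(.lf (nat_lit 128339) (.g (nat_lit 2174) (.e (nat_lit 7591) (nat_lit 407) (.e (nat_lit 73753) (nat_lit 8) (.e (nat_lit 557086) (nat_lit 11) (.e (nat_lit 24627) (nat_lit 9) (.e (nat_lit 336019) (nat_lit 3) (.e (nat_lit 98320) (nat_lit 17) .nil)))))) (.g (nat_lit 4) .nil .nil)))) (.nd (nat_lit 6) 
(.lf (nat_lit 128307) (.g (nat_lit 2885) (.e (nat_lit 7591) (nat_lit 407) (.e (nat_lit 73751) (nat_lit 7) (.e (nat_lit 548891) (nat_lit 11) (.e (nat_lit 81956) (nat_lit 23) (.e (nat_lit 98320) (nat_lit 17) .nil))))) (.g (nat_lit 0) .nil .nil))) 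
(.lf (nat_lit 128371) (.g (nat_lit 1295) (.e (nat_lit 7591) (nat_lit 407) (.e (nat_lit 73754) (nat_lit 8) (.e (nat_lit 557085) (nat_lit 11) (.e (nat_lit 24631) (nat_lit 9) .nil)))) .nil))))) (.nd (nat_lit 4) (.nd (nat_lit 5) (.nd (nat_lit 6) 
(.lf (nat_lit 128267) (.g (nat_lit 2312) (.e (nat_lit 7591) (nat_lit 407) (.e (nat_lit 73747) (nat_lit 3) (.e (nat_lit 516097) (nat_lit 0) (.e (nat_lit 7587) (nat_lit 406) (.e (nat_lit 65571) (nat_lit 3) .nil))))) .nil)) 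
(.lf (nat_lit 128331) (.g (nat_lit 1816) (.e (nat_lit 7591) (nat_lit 407) (.e (nat_lit 73753) (nat_lit 8) (.e (nat_lit 557074) (nat_lit 9) (.e (nat_lit 7936) (nat_lit 24) .nil)))) .nil))) (.nd (nat_lit 6) 
(.lf (nat_lit 128299) (.g (nat_lit 2527) (.e (nat_lit 7591) (nat_lit 407) (.e (nat_lit 73748) (nat_lit 3) (.e (nat_lit 516139) (nat_lit 7) (.e (nat_lit 409641) (nat_lit 17) (.e (nat_lit 294930) (nat_lit 3) .nil))))) .nil)) 
(.lf (nat_lit 128363) (.g (nat_lit 1530) (.e (nat_lit 7591) (nat_lit 407) (.e (nat_lit 73754) (nat_lit 8) (.e (nat_lit 557066) (nat_lit 9) (.e (nat_lit 334) (nat_lit 26) .nil)))) .nil)))) (.nd (nat_lit 5) (.nd (nat_lit 6) 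
(.lf (nat_lit 128283) (.g (nat_lit 2890) (.e (nat_lit 7591) (nat_lit 407) (.e (nat_lit 73747) (nat_lit 3) (.e (nat_lit 516179) (nat_lit 15) (.e (nat_lit 475211) (nat_lit 41) (.e (nat_lit 712706) (nat_lit 0) .nil))))) .nil)) 
(.lf (nat_lit 128347) (.g (nat_lit 2608) (.e (nat_lit 7591) (nat_lit 407) (.e (nat_lit 73753) (nat_lit 8) (.e (nat_lit 557087) (nat_lit 11) (.e (nat_lit 24631) (nat_lit 9) (.e (nat_lit 336020) (nat_lit 3) (.e (nat_lit 98320) (nat_lit 17) .nil)))))) (.g (nat_lit 0) .nil .nil)))) (.nd (nat_lit 6) 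
(.lf (nat_lit 128315) (.g (nat_lit 1668) (.e (nat_lit 7591) (nat_lit 407) (.e (nat_lit 73753) (nat_lit 8) (.e (nat_lit 557066) (nat_lit 9) (.e (nat_lit 309) (nat_lit 23) (.e (nat_lit 352315) (nat_lit 23) .nil))))) .nil)) 
(.lf (nat_lit 128379) (.g (nat_lit 677) (.e (nat_lit 7591) (nat_lit 407) (.e (nat_lit 73754) (nat_lit 8) (.e (nat_lit 557087) (nat_lit 11) .nil))) .nil)))))) (.nd (nat_lit 3) (.nd (nat_lit 4) (.nd (nat_lit 5) (.nd (nat_lit 6) 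
(.lf (nat_lit 128263) (.g (nat_lit 1425) (.e (nat_lit 7591) (nat_lit 407) (.e (nat_lit 73746) (nat_lit 3) (.e (nat_lit 516139) (nat_lit 7) (.e (nat_lit 409617) (nat_lit 10) .nil)))) .nil)) 
(.lf (nat_lit 128327) (.g (nat_lit 1375) (.e (nat_lit 7591) (nat_lit 407) (.e (nat_lit 73753) (nat_lit 8) (.e (nat_lit 557072) (nat_lit 9) (.e (nat_lit 7936) (nat_lit 23) .nil)))) .nil))) (.nd (nat_lit 6) 
(.lf (nat_lit 128295) (.g (nat_lit 2041) (.e (nat_lit 7591) (nat_lit 407) (.e (nat_lit 73748) (nat_lit 3) (.e (nat_lit 516139) (nat_lit 7) (.e (nat_lit 409616) (nat_lit 10) (.e (nat_lit 5353) (nat_lit 298) (.e (nat_lit 1077) (nat_lit 81) (.e (nat_lit 1796) (nat_lit 119) (.e (nat_lit 516098) (nat_lit 0) .nil)))))))) (.g (nat_lit 4) .nil .nil))) 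
(.lf (nat_lit 128359) (.g (nat_lit 2022) (.e (nat_lit 7591) (nat_lit 407) (.e (nat_lit 73754) (nat_lit 8) (.e (nat_lit 557065) (nat_lit 9) (.e (nat_lit 334) (nat_lit 26) (.e (nat_lit 376869) (nat_lit 23) .nil))))) .nil)))) (.nd (nat_lit 5) (.nd (nat_lit 6) 
(.lf (nat_lit 128279) (.g (nat_lit 1187) (.e (nat_lit 7591) (nat_lit 407) (.e (nat_lit 73747) (nat_lit 3) (.e (nat_lit 516142) (nat_lit 8) (.e (nat_lit 417827) (nat_lit 17) .nil)))) .nil)) 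
(.lf (nat_lit 128343) (.g (nat_lit 1699) (.e (nat_lit 7591) (nat_lit 407) (.e (nat_lit 73753) (nat_lit 8) (.e (nat_lit 557087) (nat_lit 11) (.e (nat_lit 24625) (nat_lit 9) (.e (nat_lit 343808) (nat_lit 3) .nil))))) .nil))) (.nd (nat_lit 6) 
(.lf (nat_lit 128311) (.g (nat_lit 2456) (.e (nat_lit 7591) (nat_lit 407) (.e (nat_lit 73753) (nat_lit 8) (.e (nat_lit 557065) (nat_lit 9) (.e (nat_lit 334) (nat_lit 26) (.e (nat_lit 376867) (nat_lit 23) .nil))))) .nil)) 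
(.lf (nat_lit 128375) (.g (nat_lit 1579) (.e (nat_lit 7591) (nat_lit 407) (.e (nat_lit 73754) (nat_lit 8) (.e (nat_lit 557085) (nat_lit 11) (.e (nat_lit 24643) (nat_lit 11) (.e (nat_lit 368676) (nat_lit 21) .nil))))) .nil))))) (.nd (nat_lit 4) (.nd (nat_lit 5) (.nd (nat_lit 6) 
(.lf (nat_lit 128271) (.g (nat_lit 1562) (.e (nat_lit 7591) (nat_lit 407) (.e (nat_lit 73747) (nat_lit 3) (.e (nat_lit 516098) (nat_lit 0) (.e (nat_lit 7591) (nat_lit 407) (.e (nat_lit 73746) (nat_lit 3) .nil))))) .nil)) 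
(.lf (nat_lit 128335) (.g (nat_lit 1961) (.e (nat_lit 7591) (nat_lit 407) (.e (nat_lit 73753) (nat_lit 8) (.e (nat_lit 557085) (nat_lit 11) (.e (nat_lit 24636) (nat_lit 9) .nil)))) .nil))) (.nd (nat_lit 6) 
(.lf (nat_lit 128303) (.g (nat_lit 2708) (.e (nat_lit 7591) (nat_lit 407) (.e (nat_lit 73751) (nat_lit 7) (.e (nat_lit 548889) (nat_lit 9) (.e (nat_lit 65619) (nat_lit 10) (.e (nat_lit 344117) (nat_lit 21) (.e (nat_lit 516097) (nat_lit 0) .nil)))))) (.g (nat_lit 0) .nil .nil))) 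
(.lf (nat_lit 128367) (.g (nat_lit 696) (.e (nat_lit 7591) (nat_lit 407) (.e (nat_lit 73754) (nat_lit 8) (.e (nat_lit 564992) (nat_lit 9) .nil))) .nil)))) (.nd (nat_lit 5) (.nd (nat_lit 6) 
(.lf (nat_lit 128287) (.g (nat_lit 1857) (.e (nat_lit 7591) (nat_lit 407) (.e (nat_lit 73747) (nat_lit 3) (.e (nat_lit 516185) (nat_lit 16) (.e (nat_lit 491552) (nat_lit 9) (.e (nat_lit 336022) (nat_lit 3) .nil))))) .nil)) 
(.lf (nat_lit 128351) (.g (nat_lit 3932) (.e (nat_lit 7591) (nat_lit 407) (.e (nat_lit 73753) (nat_lit 8) (.e (nat_lit 557087) (nat_lit 11) (.e (nat_lit 24640) (nat_lit 10) (.e (nat_lit 344117) (nat_lit 21) (.e (nat_lit 516097) (nat_lit 0) .nil)))))) (.g (nat_lit 6) .nil .nil)))) (.nd (nat_lit 6) 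
(.lf (nat_lit 128319) (.g (nat_lit 1168) (.e (nat_lit 7591) (nat_lit 407) (.e (nat_lit 73753) (nat_lit 8) (.e (nat_lit 557068) (nat_lit 9) (.e (nat_lit 7936) (nat_lit 23) .nil)))) .nil)) 
(.lf (nat_lit 128383) (.g (nat_lit 2546) (.e (nat_lit 7591) (nat_lit 407) (.e (nat_lit 73754) (nat_lit 8) (.e (nat_lit 557087) (nat_lit 11) (.e (nat_lit 24639) (nat_lit 10) (.e (nat_lit 344117) (nat_lit 21) .nil))))) .nil)))))))))

noncomputable def tv1718 : DT := (.nd (nat_lit 0) (.nd (nat_lit 1) (.nd (nat_lit 2) (.nd (nat_lit 3) (.nd (nat_lit 4) (.nd (nat_lit 5) 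
(.lf (nat_lit 128384) (.g (nat_lit 3133) (.e (nat_lit 7591) (nat_lit 407) (.e (nat_lit 73754) (nat_lit 8) (.e (nat_lit 557087) (nat_lit 11) (.e (nat_lit 24640) (nat_lit 10) (.e (nat_lit 344117) (nat_lit 21) (.e (nat_lit 516097) (nat_lit 0) .nil)))))) (.g (nat_lit 4) .nil .nil))) 
(.lf (nat_lit 128416) (.g (nat_lit 3302) (.e (nat_lit 7591) (nat_lit 407) (.e (nat_lit 73755) (nat_lit 8) (.e (nat_lit 557087) (nat_lit 11) (.e (nat_lit 24638) (nat_lit 9) (.e (nat_lit 336021) (nat_lit 3) (.e (nat_lit 98320) (nat_lit 17) .nil)))))) (.g (nat_lit 0) .nil .nil)))) (.nd (nat_lit 5) 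
(.lf (nat_lit 128400) (.g (nat_lit 664) (.e (nat_lit 7591) (nat_lit 407) (.e (nat_lit 73755) (nat_lit 8) (.e (nat_lit 557085) (nat_lit 11) .nil))) .nil)) 
(.lf (nat_lit 128432) (.g (nat_lit 1695) (.e (nat_lit 7591) (nat_lit 407) (.e (nat_lit 73773) (nat_lit 25) (.e (nat_lit 770058) (nat_lit 5) (.e (nat_lit 1575) (nat_lit 110) (.e (nat_lit 352277) (nat_lit 11) (.e (nat_lit 426009) (nat_lit 0) .nil)))))) (.g (nat_lit 0) .nil .nil))))) (.nd (nat_lit 4) (.nd (nat_lit 5) 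
(.lf (nat_lit 128392) (.g (nat_lit 2501) (.e (nat_lit 7591) (nat_lit 407) (.e (nat_lit 73755) (nat_lit 8) (.e (nat_lit 557066) (nat_lit 9) (.e (nat_lit 334) (nat_lit 26) (.e (nat_lit 376869) (nat_lit 23) (.e (nat_lit 98319) (nat_lit 17) .nil)))))) (.g (nat_lit 0) .nil .nil))) 
(.lf (nat_lit 128424) (.g (nat_lit 1651) (.e (nat_lit 7591) (nat_lit 407) (.e (nat_lit 73772) (nat_lit 24) (.e (nat_lit 761869) (nat_lit 5) (.e (nat_lit 1574) (nat_lit 110) (.e (nat_lit 352277) (nat_lit 11) (.e (nat_lit 426009) (nat_lit 0) .nil)))))) (.g (nat_lit 5) .nil .nil)))) (.nd (nat_lit 5) 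
(.lf (nat_lit 128408) (.g (nat_lit 1713) (.e (nat_lit 7591) (nat_lit 407) (.e (nat_lit 73755) (nat_lit 8) (.e (nat_lit 557087) (nat_lit 11) (.e (nat_lit 24625) (nat_lit 9) (.e (nat_lit 336018) (nat_lit 3) .nil))))) .nil)) 
(.lf (nat_lit 128440) (.g (nat_lit 2221) (.e (nat_lit 7591) (nat_lit 407) (.e (nat_lit 73773) (nat_lit 25) (.e (nat_lit 770074) (nat_lit 10) (.e (nat_lit 81927) (nat_lit 11) (.e (nat_lit 426011) (nat_lit 0) .nil))))) (.g (nat_lit 0) .nil .nil)))))) (.nd (nat_lit 3) (.nd (nat_lit 4) (.nd (nat_lit 5) 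
(.lf (nat_lit 128388) (.g (nat_lit 927) (.e (nat_lit 7591) (nat_lit 407) (.e (nat_lit 73755) (nat_lit 8) (.e (nat_lit 557064) (nat_lit 9) (.e (nat_lit 315) (nat_lit 23) .nil)))) .nil)) 
(.lf (nat_lit 128420) (.g (nat_lit 2725) (.e (nat_lit 7591) (nat_lit 407) (.e (nat_lit 73755) (nat_lit 8) (.e (nat_lit 557087) (nat_lit 11) (.e (nat_lit 24643) (nat_lit 11) (.e (nat_lit 368676) (nat_lit 21) (.e (nat_lit 516097) (nat_lit 0) .nil)))))) (.g (nat_lit 0) .nil .nil)))) (.nd (nat_lit 5) 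
(.lf (nat_lit 128404) (.g (nat_lit 2875) (.e (nat_lit 7591) (nat_lit 407) (.e (nat_lit 73755) (nat_lit 8) (.e (nat_lit 557086) (nat_lit 11) (.e (nat_lit 24627) (nat_lit 9) (.e (nat_lit 336019) (nat_lit 3) (.e (nat_lit 98320) (nat_lit 17) .nil)))))) (.g (nat_lit 6) .nil .nil))) 
(.lf (nat_lit 128436) (.g (nat_lit 1356) (.e (nat_lit 7591) (nat_lit 407) (.e (nat_lit 73773) (nat_lit 25) (.e (nat_lit 770074) (nat_lit 10) (.e (nat_lit 81925) (nat_lit 11) (.e (nat_lit 426010) (nat_lit 0) .nil))))) (.g (nat_lit 4) .nil .nil))))) (.nd (nat_lit 4) (.nd (nat_lit 5) 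
(.lf (nat_lit 128396) (.g (nat_lit 973) (.e (nat_lit 7591) (nat_lit 407) (.e (nat_lit 73755) (nat_lit 8) (.e (nat_lit 557070) (nat_lit 9) (.e (nat_lit 7936) (nat_lit 23) .nil)))) .nil)) 
(.lf (nat_lit 128428) (.g (nat_lit 1408) (.e (nat_lit 7591) (nat_lit 407) (.e (nat_lit 73773) (nat_lit 25) (.e (nat_lit 770056) (nat_lit 5) (.e (nat_lit 1575) (nat_lit 110) (.e (nat_lit 352277) (nat_lit 11) (.e (nat_lit 426009) (nat_lit 0) .nil)))))) (.g (nat_lit 0) .nil .nil)))) (.nd (nat_lit 5) 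
(.lf (nat_lit 128412) (.g (nat_lit 1761) (.e (nat_lit 7591) (nat_lit 407) (.e (nat_lit 73755) (nat_lit 8) (.e (nat_lit 557087) (nat_lit 11) (.e (nat_lit 24631) (nat_lit 9) (.e (nat_lit 335923) (nat_lit 0) .nil))))) .nil)) 
(.lf (nat_lit 128444) (.g (nat_lit 285) (.e (nat_lit 7591) (nat_lit 407) (.e (nat_lit 73775) (nat_lit 26) (.e (nat_lit 778361) (nat_lit 9) .nil))) .nil)))))) (.nd (nat_lit 2) (.nd (nat_lit 3) (.nd (nat_lit 4) (.nd (nat_lit 5) 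
(.lf (nat_lit 128386) (.g (nat_lit 1914) (.e (nat_lit 7591) (nat_lit 407) (.e (nat_lit 73754) (nat_lit 8) (.e (nat_lit 557087) (nat_lit 11) (.e (nat_lit 24644) (nat_lit 11) .nil)))) .nil)) 
(.lf (nat_lit 128418) (.g (nat_lit 4102) (.e (nat_lit 7591) (nat_lit 407) (.e (nat_lit 73755) (nat_lit 8) (.e (nat_lit 557087) (nat_lit 11) (.e (nat_lit 24640) (nat_lit 10) (.e (nat_lit 344117) (nat_lit 21) (.e (nat_lit 516097) (nat_lit 0) .nil)))))) (.g (nat_lit 0) .nil .nil)))) (.nd (nat_lit 5) 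
(.lf (nat_lit 128402) (.g (nat_lit 2237) (.e (nat_lit 7591) (nat_lit 407) (.e (nat_lit 73755) (nat_lit 8) (.e (nat_lit 557085) (nat_lit 11) (.e (nat_lit 24638) (nat_lit 9) (.e (nat_lit 336021) (nat_lit 3) (.e (nat_lit 98320) (nat_lit 17) .nil)))))) (.g (nat_lit 4) .nil .nil))) 
(.lf (nat_lit 128434) (.g (nat_lit 2546) (.e (nat_lit 7591) (nat_lit 407) (.e (nat_lit 73773) (nat_lit 25) (.e (nat_lit 770071) (nat_lit 8) (.e (nat_lit 65627) (nat_lit 13) (.e (nat_lit 393232) (nat_lit 17) .nil))))) (.g (nat_lit 0) .nil .nil))))) (.nd (nat_lit 4) (.nd (nat_lit 5) 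
(.lf (nat_lit 128394) (.g (nat_lit 1164) (.e (nat_lit 7591) (nat_lit 407) (.e (nat_lit 73755) (nat_lit 8) (.e (nat_lit 557067) (nat_lit 9) (.e (nat_lit 7936) (nat_lit 23) .nil)))) .nil)) 
(.lf (nat_lit 128426) (.g (nat_lit 1547) (.e (nat_lit 7591) (nat_lit 407) (.e (nat_lit 73773) (nat_lit 25) (.e (nat_lit 770055) (nat_lit 5) (.e (nat_lit 1559) (nat_lit 110) (.e (nat_lit 352277) (nat_lit 11) (.e (nat_lit 426009) (nat_lit 0) .nil)))))) (.g (nat_lit 0) .nil .nil)))) (.nd (nat_lit 5) 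
(.lf (nat_lit 128410) (.g (nat_lit 3075) (.e (nat_lit 7591) (nat_lit 407) (.e (nat_lit 73755) (nat_lit 8) (.e (nat_lit 557087) (nat_lit 11) (.e (nat_lit 24625) (nat_lit 9) (.e (nat_lit 336019) (nat_lit 3) (.e (nat_lit 98320) (nat_lit 17) .nil)))))) (.g (nat_lit 0) .nil .nil))) 
(.lf (nat_lit 128442) (.g (nat_lit 933) (.e (nat_lit 7591) (nat_lit 407) (.e (nat_lit 73775) (nat_lit 26) (.e (nat_lit 778359) (nat_lit 9) (.e (nat_lit 334) (nat_lit 26) (.e (nat_lit 376838) (nat_lit 11) .nil))))) .nil))))) (.nd (nat_lit 3) (.nd (nat_lit 4) (.nd (nat_lit 5) 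
(.lf (nat_lit 128390) (.g (nat_lit 2881) (.e (nat_lit 7591) (nat_lit 407) (.e (nat_lit 73755) (nat_lit 8) (.e (nat_lit 557066) (nat_lit 9) (.e (nat_lit 324) (nat_lit 24) (.e (nat_lit 360466) (nat_lit 3) (.e (nat_lit 516098) (nat_lit 0) .nil)))))) (.g (nat_lit 0) .nil .nil))) 
(.lf (nat_lit 128422) (.g (nat_lit 2657) (.e (nat_lit 7591) (nat_lit 407) (.e (nat_lit 73755) (nat_lit 8) (.e (nat_lit 557090) (nat_lit 12) (.e (nat_lit 164015) (nat_lit 43) .nil)))) .nil))) (.nd (nat_lit 5) 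
(.lf (nat_lit 128406) (.g (nat_lit 3076) (.e (nat_lit 7591) (nat_lit 407) (.e (nat_lit 73755) (nat_lit 8) (.e (nat_lit 557086) (nat_lit 11) (.e (nat_lit 24628) (nat_lit 9) (.e (nat_lit 336019) (nat_lit 3) (.e (nat_lit 98320) (nat_lit 17) .nil)))))) (.g (nat_lit 6) .nil .nil))) 
(.lf (nat_lit 128438) (.g (nat_lit 1441) (.e (nat_lit 7591) (nat_lit 407) (.e (nat_lit 73773) (nat_lit 25) (.e (nat_lit 770074) (nat_lit 10) (.e (nat_lit 81927) (nat_lit 11) (.e (nat_lit 426009) (nat_lit 0) .nil))))) (.g (nat_lit 5) .nil .nil))))) (.nd (nat_lit 4) (.nd (nat_lit 5) 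
(.lf (nat_lit 128398) (.g (nat_lit 1000) (.e (nat_lit 7591) (nat_lit 407) (.e (nat_lit 73755) (nat_lit 8) (.e (nat_lit 557074) (nat_lit 9) (.e (nat_lit 7936) (nat_lit 23) .nil)))) .nil)) 
(.lf (nat_lit 128430) (.g (nat_lit 1525) (.e (nat_lit 7591) (nat_lit 407) (.e (nat_lit 73773) (nat_lit 25) (.e (nat_lit 770057) (nat_lit 5) (.e (nat_lit 1575) (nat_lit 110) (.e (nat_lit 352277) (nat_lit 11) (.e (nat_lit 426009) (nat_lit 0) .nil)))))) (.g (nat_lit 0) .nil .nil)))) (.nd (nat_lit 5) 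
(.lf (nat_lit 128414) (.g (nat_lit 2669) (.e (nat_lit 7591) (nat_lit 407) (.e (nat_lit 73755) (nat_lit 8) (.e (nat_lit 557087) (nat_lit 11) (.e (nat_lit 24636) (nat_lit 9) (.e (nat_lit 336017) (nat_lit 3) (.e (nat_lit 98319) (nat_lit 17) .nil)))))) (.g (nat_lit 6) .nil .nil))) 
(.lf (nat_lit 128446) (.g (nat_lit 2374) (.e (nat_lit 7591) (nat_lit 407) (.e (nat_lit 73775) (nat_lit 26) (.e (nat_lit 778361) (nat_lit 9) (.e (nat_lit 312) (nat_lit 23) (.e (nat_lit 352277) (nat_lit 11) (.e (nat_lit 426009) (nat_lit 0) .nil)))))) (.g (nat_lit 6) .nil .nil)))))))) (.nd (nat_lit 1) (.nd (nat_lit 2) (.nd (nat_lit 3) (.nd (nat_lit 4) (.nd (nat_lit 5) 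
(.lf (nat_lit 128385) (.g (nat_lit 2949) (.e (nat_lit 7591) (nat_lit 407) (.e (nat_lit 73754) (nat_lit 8) (.e (nat_lit 557087) (nat_lit 11) (.e (nat_lit 24640) (nat_lit 10) (.e (nat_lit 344117) (nat_lit 21) (.e (nat_lit 516098) (nat_lit 0) .nil)))))) (.g (nat_lit 4) .nil .nil))) 
(.lf (nat_lit 128417) (.g (nat_lit 3395) (.e (nat_lit 7591) (nat_lit 407) (.e (nat_lit 73755) (nat_lit 8) (.e (nat_lit 557087) (nat_lit 11) (.e (nat_lit 24639) (nat_lit 10) (.e (nat_lit 344117) (nat_lit 21) (.e (nat_lit 516097) (nat_lit 0) .nil)))))) (.g (nat_lit 0) .nil .nil)))) (.nd (nat_lit 5) 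
(.lf (nat_lit 128401) (.g (nat_lit 1436) (.e (nat_lit 7591) (nat_lit 407) (.e (nat_lit 73755) (nat_lit 8) (.e (nat_lit 557085) (nat_lit 11) (.e (nat_lit 24636) (nat_lit 9) .nil)))) .nil)) 
(.lf (nat_lit 128433) (.g (nat_lit 1900) (.e (nat_lit 7591) (nat_lit 407) (.e (nat_lit 73773) (nat_lit 25) (.e (nat_lit 770071) (nat_lit 8) (.e (nat_lit 65627) (nat_lit 13) (.e (nat_lit 393231) (nat_lit 17) .nil))))) (.g (nat_lit 0) .nil .nil))))) (.nd (nat_lit 4) (.nd (nat_lit 5) 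
(.lf (nat_lit 128393) (.g (nat_lit 1164) (.e (nat_lit 7591) (nat_lit 407) (.e (nat_lit 73755) (nat_lit 8) (.e (nat_lit 557067) (nat_lit 9) (.e (nat_lit 7936) (nat_lit 21) .nil)))) .nil)) 
(.lf (nat_lit 128425) (.g (nat_lit 2434) (.e (nat_lit 7591) (nat_lit 407) (.e (nat_lit 73772) (nat_lit 24) (.e (nat_lit 761869) (nat_lit 5) (.e (nat_lit 1574) (nat_lit 110) (.e (nat_lit 352277) (nat_lit 11) (.e (nat_lit 426012) (nat_lit 0) .nil)))))) (.g (nat_lit 0) .nil .nil)))) (.nd (nat_lit 5) 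
(.lf (nat_lit 128409) (.g (nat_lit 2947) (.e (nat_lit 7591) (nat_lit 407) (.e (nat_lit 73755) (nat_lit 8) (.e (nat_lit 557087) (nat_lit 11) (.e (nat_lit 24625) (nat_lit 9) (.e (nat_lit 336019) (nat_lit 3) (.e (nat_lit 98319) (nat_lit 17) .nil)))))) (.g (nat_lit 6) .nil .nil))) 
(.lf (nat_lit 128441) (.g (nat_lit 315) (.e (nat_lit 7591) (nat_lit 407) (.e (nat_lit 73775) (nat_lit 26) (.e (nat_lit 778359) (nat_lit 9) .nil))) .nil))))) (.nd (nat_lit 3) (.nd (nat_lit 4) (.nd (nat_lit 5) 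
(.lf (nat_lit 128389) (.g (nat_lit 1535) (.e (nat_lit 7591) (nat_lit 407) (.e (nat_lit 73755) (nat_lit 8) (.e (nat_lit 557065) (nat_lit 9) (.e (nat_lit 321) (nat_lit 24) (.e (nat_lit 360467) (nat_lit 3) .nil))))) .nil)) 
(.lf (nat_lit 128421) (.g (nat_lit 2952) (.e (nat_lit 7591) (nat_lit 407) (.e (nat_lit 73755) (nat_lit 8) (.e (nat_lit 557087) (nat_lit 11) (.e (nat_lit 24644) (nat_lit 11) (.e (nat_lit 368676) (nat_lit 21) (.e (nat_lit 516097) (nat_lit 0) .nil)))))) (.g (nat_lit 0) .nil .nil)))) (.nd (nat_lit 5) 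
(.lf (nat_lit 128405) (.g (nat_lit 2779) (.e (nat_lit 7591) (nat_lit 407) (.e (nat_lit 73755) (nat_lit 8) (.e (nat_lit 557086) (nat_lit 11) (.e (nat_lit 24628) (nat_lit 9) (.e (nat_lit 336019) (nat_lit 3) (.e (nat_lit 98319) (nat_lit 17) .nil)))))) (.g (nat_lit 6) .nil .nil))) 
(.lf (nat_lit 128437) (.g (nat_lit 2277) (.e (nat_lit 7591) (nat_lit 407) (.e (nat_lit 73773) (nat_lit 25) (.e (nat_lit 770074) (nat_lit 10) (.e (nat_lit 81925) (nat_lit 11) (.e (nat_lit 426011) (nat_lit 0) .nil))))) (.g (nat_lit 0) .nil .nil))))) (.nd (nat_lit 4) (.nd (nat_lit 5) 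
(.lf (nat_lit 128397) (.g (nat_lit 973) (.e (nat_lit 7591) (nat_lit 407) (.e (nat_lit 73755) (nat_lit 8) (.e (nat_lit 557070) (nat_lit 9) (.e (nat_lit 7936) (nat_lit 26) .nil)))) .nil)) 
(.lf (nat_lit 128429) (.g (nat_lit 1507) (.e (nat_lit 7591) (nat_lit 407) (.e (nat_lit 73773) (nat_lit 25) (.e (nat_lit 770057) (nat_lit 5) (.e (nat_lit 1559) (nat_lit 110) (.e (nat_lit 352277) (nat_lit 11) (.e (nat_lit 426009) (nat_lit 0) .nil)))))) (.g (nat_lit 0) .nil .nil)))) (.nd (nat_lit 5) 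
(.lf (nat_lit 128413) (.g (nat_lit 2406) (.e (nat_lit 7591) (nat_lit 407) (.e (nat_lit 73755) (nat_lit 8) (.e (nat_lit 557087) (nat_lit 11) (.e (nat_lit 24631) (nat_lit 9) (.e (nat_lit 336020) (nat_lit 3) (.e (nat_lit 98319) (nat_lit 17) .nil)))))) (.g (nat_lit 0) .nil .nil))) 
(.lf (nat_lit 128445) (.g (nat_lit 1035) (.e (nat_lit 7591) (nat_lit 407) (.e (nat_lit 73775) (nat_lit 26) (.e (nat_lit 778361) (nat_lit 9) (.e (nat_lit 225) (nat_lit 21) .nil)))) .nil)))))) (.nd (nat_lit 2) (.nd (nat_lit 3) (.nd (nat_lit 4) (.nd (nat_lit 5) 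
(.lf (nat_lit 128387) (.g (nat_lit 663) (.e (nat_lit 7591) (nat_lit 407) (.e (nat_lit 73755) (nat_lit 8) (.e (nat_lit 557064) (nat_lit 9) .nil))) .nil)) 
(.lf (nat_lit 128419) (.g (nat_lit 2403) (.e (nat_lit 7591) (nat_lit 407) (.e (nat_lit 73755) (nat_lit 8) (.e (nat_lit 557087) (nat_lit 11) (.e (nat_lit 24641) (nat_lit 10) (.e (nat_lit 344119) (nat_lit 21) .nil))))) .nil))) (.nd (nat_lit 5) 
(.lf (nat_lit 128403) (.g (nat_lit 1823) (.e (nat_lit 7591) (nat_lit 407) (.e (nat_lit 73755) (nat_lit 8) (.e (nat_lit 557085) (nat_lit 11) (.e (nat_lit 24644) (nat_lit 11) (.e (nat_lit 368676) (nat_lit 21) .nil))))) .nil)) 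
(.lf (nat_lit 128435) (.g (nat_lit 1318) (.e (nat_lit 7591) (nat_lit 407) (.e (nat_lit 73773) (nat_lit 25) (.e (nat_lit 770074) (nat_lit 10) (.e (nat_lit 81925) (nat_lit 11) (.e (nat_lit 426009) (nat_lit 0) .nil))))) (.g (nat_lit 4) .nil .nil))))) (.nd (nat_lit 4) (.nd (nat_lit 5) 
(.lf (nat_lit 128395) (.g (nat_lit 1164) (.e (nat_lit 7591) (nat_lit 407) (.e (nat_lit 73755) (nat_lit 8) (.e (nat_lit 557067) (nat_lit 9) (.e (nat_lit 7936) (nat_lit 26) .nil)))) .nil)) 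
(.lf (nat_lit 128427) (.g (nat_lit 1504) (.e (nat_lit 7591) (nat_lit 407) (.e (nat_lit 73773) (nat_lit 25) (.e (nat_lit 770055) (nat_lit 5) (.e (nat_lit 1575) (nat_lit 110) (.e (nat_lit 352277) (nat_lit 11) (.e (nat_lit 426009) (nat_lit 0) .nil)))))) (.g (nat_lit 0) .nil .nil)))) (.nd (nat_lit 5) 
(.lf (nat_lit 128411) (.g (nat_lit 1485) (.e (nat_lit 7591) (nat_lit 407) (.e (nat_lit 73755) (nat_lit 8) (.e (nat_lit 557087) (nat_lit 11) (.e (nat_lit 24625) (nat_lit 9) (.e (nat_lit 343808) (nat_lit 3) (.e (nat_lit 98319) (nat_lit 17) .nil)))))) (.g (nat_lit 4) .nil .nil))) 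
(.lf (nat_lit 128443) (.g (nat_lit 955) (.e (nat_lit 7591) (nat_lit 407) (.e (nat_lit 73775) (nat_lit 26) (.e (nat_lit 778359) (nat_lit 9) (.e (nat_lit 334) (nat_lit 26) (.e (nat_lit 376841) (nat_lit 11) .nil))))) .nil))))) (.nd (nat_lit 3) (.nd (nat_lit 4) (.nd (nat_lit 5) 
(.lf (nat_lit 128391) (.g (nat_lit 2608) (.e (nat_lit 7591) (nat_lit 407) (.e (nat_lit 73755) (nat_lit 8) (.e (nat_lit 557066) (nat_lit 9) (.e (nat_lit 334) (nat_lit 26) (.e (nat_lit 376867) (nat_lit 23) (.e (nat_lit 98320) (nat_lit 17) .nil)))))) (.g (nat_lit 0) .nil .nil))) 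
(.lf (nat_lit 128423) (.g (nat_lit 424) (.e (nat_lit 7591) (nat_lit 407) (.e (nat_lit 73772) (nat_lit 24) (.e (nat_lit 761866) (nat_lit 5) (.e (nat_lit 1454) (nat_lit 108) .nil)))) .nil))) (.nd (nat_lit 5) 
(.lf (nat_lit 128407) (.g (nat_lit 836) (.e (nat_lit 7591) (nat_lit 407) (.e (nat_lit 73755) (nat_lit 8) (.e (nat_lit 557086) (nat_lit 11) (.e (nat_lit 24644) (nat_lit 11) .nil)))) .nil)) 
(.lf (nat_lit 128439) (.g (nat_lit 1551) (.e (nat_lit 7591) (nat_lit 407) (.e (nat_lit 73773) (nat_lit 25) (.e (nat_lit 770074) (nat_lit 10) (.e (nat_lit 81927) (nat_lit 11) (.e (nat_lit 426010) (nat_lit 0) .nil))))) (.g (nat_lit 5) .nil .nil))))) (.nd (nat_lit 4) (.nd (nat_lit 5) 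
(.lf (nat_lit 128399) (.g (nat_lit 387) (.e (nat_lit 7591) (nat_lit 407) (.e (nat_lit 73755) (nat_lit 8) (.e (nat_lit 564992) (nat_lit 9) .nil))) .nil)) 
(.lf (nat_lit 128431) (.g (nat_lit 1697) (.e (nat_lit 7591) (nat_lit 407) (.e (nat_lit 73773) (nat_lit 25) (.e (nat_lit 770058) (nat_lit 5) (.e (nat_lit 1559) (nat_lit 110) (.e (nat_lit 352277) (nat_lit 11) (.e (nat_lit 426009) (nat_lit 0) .nil)))))) (.g (nat_lit 0) .nil .nil)))) (.nd (nat_lit 5) 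
(.lf (nat_lit 128415) (.g (nat_lit 2702) (.e (nat_lit 7591) (nat_lit 407) (.e (nat_lit 73755) (nat_lit 8) (.e (nat_lit 557087) (nat_lit 11) (.e (nat_lit 24636) (nat_lit 9) (.e (nat_lit 336017) (nat_lit 3) (.e (nat_lit 98320) (nat_lit 17) .nil)))))) (.g (nat_lit 0) .nil .nil))) 
(.lf (nat_lit 128447) (.g (nat_lit 2557) (.e (nat_lit 7591) (nat_lit 407) (.e (nat_lit 73775) (nat_lit 26) (.e (nat_lit 778361) (nat_lit 9) (.e (nat_lit 312) (nat_lit 23) (.e (nat_lit 352277) (nat_lit 11) (.e (nat_lit 426010) (nat_lit 0) .nil)))))) (.g (nat_lit 6) .nil .nil)))))))))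

noncomputable def tv1719 : DT := (.nd (nat_lit 0) (.nd (nat_lit 1) (.nd (nat_lit 2) (.nd (nat_lit 3) (.nd (nat_lit 4) (.nd (nat_lit 5) 
(.lf (nat_lit 128448) (.g (nat_lit 1780) (.e (nat_lit 7591) (nat_lit 407) (.e (nat_lit 73775) (nat_lit 26) (.e (nat_lit 778361) (nat_lit 9) (.e (nat_lit 334) (nat_lit 26) (.e (nat_lit 376838) (nat_lit 11) .nil))))) .nil)) 
(.lf (nat_lit 128480) (.g (nat_lit 1426) (.e (nat_lit 7591) (nat_lit 407) (.e (nat_lit 73775) (nat_lit 26) (.e (nat_lit 778465) (nat_lit 11) (.e (nat_lit 24576) (nat_lit 0) .nil)))) .nil))) (.nd (nat_lit 5) 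
(.lf (nat_lit 128464) (.g (nat_lit 2304) (.e (nat_lit 7591) (nat_lit 407) (.e (nat_lit 73775) (nat_lit 26) (.e (nat_lit 778362) (nat_lit 9) (.e (nat_lit 314) (nat_lit 23) (.e (nat_lit 352273) (nat_lit 11) (.e (nat_lit 426009) (nat_lit 0) .nil)))))) (.g (nat_lit 4) .nil .nil))) 
(.lf (nat_lit 128496) (.g (nat_lit 2785) (.e (nat_lit 7591) (nat_lit 407) (.e (nat_lit 73775) (nat_lit 26) (.e (nat_lit 778465) (nat_lit 11) (.e (nat_lit 24657) (nat_lit 13) (.e (nat_lit 393232) (nat_lit 17) .nil))))) (.g (nat_lit 0) .nil .nil))))) (.nd (nat_lit 4) (.nd (nat_lit 5) 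
(.lf (nat_lit 128456) (.g (nat_lit 1233) (.e (nat_lit 7591) (nat_lit 407) (.e (nat_lit 73775) (nat_lit 26) (.e (nat_lit 778362) (nat_lit 9) (.e (nat_lit 237) (nat_lit 21) .nil)))) .nil)) 
(.lf (nat_lit 128488) (.g (nat_lit 2270) (.e (nat_lit 7591) (nat_lit 407) (.e (nat_lit 73775) (nat_lit 26) (.e (nat_lit 778465) (nat_lit 11) (.e (nat_lit 24638) (nat_lit 9) (.e (nat_lit 336387) (nat_lit 27) (.e (nat_lit 426012) (nat_lit 0) .nil)))))) (.g (nat_lit 4) .nil .nil)))) (.nd (nat_lit 5) 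
(.lf (nat_lit 128472) (.g (nat_lit 1690) (.e (nat_lit 7591) (nat_lit 407) (.e (nat_lit 73775) (nat_lit 26) (.e (nat_lit 778362) (nat_lit 9) (.e (nat_lit 334) (nat_lit 26) (.e (nat_lit 376841) (nat_lit 11) (.e (nat_lit 426010) (nat_lit 0) .nil)))))) (.g (nat_lit 4) .nil .nil))) 
(.lf (nat_lit 128504) (.g (nat_lit 262) (.e (nat_lit 7591) (nat_lit 407) (.e (nat_lit 73775) (nat_lit 26) (.e (nat_lit 778466) (nat_lit 11) .nil))) .nil))))) (.nd (nat_lit 3) (.nd (nat_lit 4) (.nd (nat_lit 5) 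
(.lf (nat_lit 128452) (.g (nat_lit 2786) (.e (nat_lit 7591) (nat_lit 407) (.e (nat_lit 73775) (nat_lit 26) (.e (nat_lit 778362) (nat_lit 9) (.e (nat_lit 232) (nat_lit 21) (.e (nat_lit 336217) (nat_lit 13) .nil))))) .nil)) 
(.lf (nat_lit 128484) (.g (nat_lit 951) (.e (nat_lit 7591) (nat_lit 407) (.e (nat_lit 73775) (nat_lit 26) (.e (nat_lit 778465) (nat_lit 11) (.e (nat_lit 24631) (nat_lit 9) .nil)))) .nil))) (.nd (nat_lit 5) 
(.lf (nat_lit 128468) (.g (nat_lit 1233) (.e (nat_lit 7591) (nat_lit 407) (.e (nat_lit 73775) (nat_lit 26) (.e (nat_lit 778362) (nat_lit 9) (.e (nat_lit 332) (nat_lit 26) .nil)))) .nil)) 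
(.lf (nat_lit 128500) (.g (nat_lit 2675) (.e (nat_lit 7591) (nat_lit 407) (.e (nat_lit 73775) (nat_lit 26) (.e (nat_lit 778465) (nat_lit 11) (.e (nat_lit 24659) (nat_lit 13) (.e (nat_lit 393234) (nat_lit 17) .nil))))) (.g (nat_lit 0) .nil .nil))))) (.nd (nat_lit 4) (.nd (nat_lit 5) 
(.lf (nat_lit 128460) (.g (nat_lit 2439) (.e (nat_lit 7591) (nat_lit 407) (.e (nat_lit 73775) (nat_lit 26) (.e (nat_lit 778362) (nat_lit 9) (.e (nat_lit 268) (nat_lit 21) (.e (nat_lit 336212) (nat_lit 13) (.e (nat_lit 393234) (nat_lit 17) .nil)))))) (.g (nat_lit 4) .nil .nil))) 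
(.lf (nat_lit 128492) (.g (nat_lit 2206) (.e (nat_lit 7591) (nat_lit 407) (.e (nat_lit 73775) (nat_lit 26) (.e (nat_lit 778465) (nat_lit 11) (.e (nat_lit 24655) (nat_lit 13) (.e (nat_lit 393231) (nat_lit 17) .nil))))) (.g (nat_lit 4) .nil .nil)))) (.nd (nat_lit 5) 
(.lf (nat_lit 128476) (.g (nat_lit 2228) (.e (nat_lit 7591) (nat_lit 407) (.e (nat_lit 73775) (nat_lit 26) (.e (nat_lit 778464) (nat_lit 11) (.e (nat_lit 24657) (nat_lit 13) (.e (nat_lit 393232) (nat_lit 17) .nil))))) (.g (nat_lit 5) .nil .nil))) 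
(.lf (nat_lit 128508) (.g (nat_lit 1356) (.e (nat_lit 7591) (nat_lit 407) (.e (nat_lit 73775) (nat_lit 26) (.e (nat_lit 778466) (nat_lit 11) (.e (nat_lit 24624) (nat_lit 9) .nil)))) .nil)))))) (.nd (nat_lit 2) (.nd (nat_lit 3) (.nd (nat_lit 4) (.nd (nat_lit 5) 
(.lf (nat_lit 128450) (.g (nat_lit 1249) (.e (nat_lit 7591) (nat_lit 407) (.e (nat_lit 73775) (nat_lit 26) (.e (nat_lit 778362) (nat_lit 9) (.e (nat_lit 225) (nat_lit 21) .nil)))) .nil)) 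
(.lf (nat_lit 128482) (.g (nat_lit 1863) (.e (nat_lit 7591) (nat_lit 407) (.e (nat_lit 73775) (nat_lit 26) (.e (nat_lit 778465) (nat_lit 11) (.e (nat_lit 24578) (nat_lit 0) (.e (nat_lit 6510) (nat_lit 345) .nil))))) .nil))) (.nd (nat_lit 5) 
(.lf (nat_lit 128466) (.g (nat_lit 2050) (.e (nat_lit 7591) (nat_lit 407) (.e (nat_lit 73775) (nat_lit 26) (.e (nat_lit 778362) (nat_lit 9) (.e (nat_lit 314) (nat_lit 23) (.e (nat_lit 352274) (nat_lit 11) .nil))))) .nil)) 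
(.lf (nat_lit 128498) (.g (nat_lit 2055) (.e (nat_lit 7591) (nat_lit 407) (.e (nat_lit 73775) (nat_lit 26) (.e (nat_lit 778465) (nat_lit 11) (.e (nat_lit 24658) (nat_lit 13) (.e (nat_lit 393231) (nat_lit 17) .nil))))) (.g (nat_lit 4) .nil .nil))))) (.nd (nat_lit 4) (.nd (nat_lit 5) 
(.lf (nat_lit 128458) (.g (nat_lit 1233) (.e (nat_lit 7591) (nat_lit 407) (.e (nat_lit 73775) (nat_lit 26) (.e (nat_lit 778362) (nat_lit 9) (.e (nat_lit 245) (nat_lit 21) .nil)))) .nil)) 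
(.lf (nat_lit 128490) (.g (nat_lit 2171) (.e (nat_lit 7591) (nat_lit 407) (.e (nat_lit 73775) (nat_lit 26) (.e (nat_lit 778465) (nat_lit 11) (.e (nat_lit 24654) (nat_lit 13) (.e (nat_lit 393233) (nat_lit 17) .nil))))) (.g (nat_lit 5) .nil .nil)))) (.nd (nat_lit 5) 
(.lf (nat_lit 128474) (.g (nat_lit 1478) (.e (nat_lit 7591) (nat_lit 407) (.e (nat_lit 73775) (nat_lit 26) (.e (nat_lit 778463) (nat_lit 11) (.e (nat_lit 24660) (nat_lit 13) (.e (nat_lit 393231) (nat_lit 17) .nil))))) (.g (nat_lit 5) .nil .nil))) 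
(.lf (nat_lit 128506) (.g (nat_lit 1536) (.e (nat_lit 7591) (nat_lit 407) (.e (nat_lit 73775) (nat_lit 26) (.e (nat_lit 778466) (nat_lit 11) (.e (nat_lit 24578) (nat_lit 0) .nil)))) .nil))))) (.nd (nat_lit 3) (.nd (nat_lit 4) (.nd (nat_lit 5) 
(.lf (nat_lit 128454) (.g (nat_lit 2237) (.e (nat_lit 7591) (nat_lit 407) (.e (nat_lit 73775) (nat_lit 26) (.e (nat_lit 778362) (nat_lit 9) (.e (nat_lit 232) (nat_lit 21) (.e (nat_lit 336224) (nat_lit 13) (.e (nat_lit 393233) (nat_lit 17) .nil)))))) (.g (nat_lit 4) .nil .nil))) 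
(.lf (nat_lit 128486) (.g (nat_lit 2192) (.e (nat_lit 7591) (nat_lit 407) (.e (nat_lit 73775) (nat_lit 26) (.e (nat_lit 778465) (nat_lit 11) (.e (nat_lit 24634) (nat_lit 9) (.e (nat_lit 336389) (nat_lit 27) (.e (nat_lit 426012) (nat_lit 0) .nil)))))) (.g (nat_lit 4) .nil .nil)))) (.nd (nat_lit 5) 
(.lf (nat_lit 128470) (.g (nat_lit 1787) (.e (nat_lit 7591) (nat_lit 407) (.e (nat_lit 73775) (nat_lit 26) (.e (nat_lit 778362) (nat_lit 9) (.e (nat_lit 334) (nat_lit 26) (.e (nat_lit 376838) (nat_lit 11) (.e (nat_lit 426010) (nat_lit 0) .nil)))))) (.g (nat_lit 4) .nil .nil))) 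
(.lf (nat_lit 128502) (.g (nat_lit 2449) (.e (nat_lit 7591) (nat_lit 407) (.e (nat_lit 73775) (nat_lit 26) (.e (nat_lit 778465) (nat_lit 11) (.e (nat_lit 24660) (nat_lit 13) (.e (nat_lit 393232) (nat_lit 17) .nil))))) (.g (nat_lit 5) .nil .nil))))) (.nd (nat_lit 4) (.nd (nat_lit 5) 
(.lf (nat_lit 128462) (.g (nat_lit 3005) (.e (nat_lit 7591) (nat_lit 407) (.e (nat_lit 73775) (nat_lit 26) (.e (nat_lit 778362) (nat_lit 9) (.e (nat_lit 312) (nat_lit 23) (.e (nat_lit 352277) (nat_lit 11) (.e (nat_lit 426009) (nat_lit 0) .nil)))))) (.g (nat_lit 6) .nil .nil))) 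
(.lf (nat_lit 128494) (.g (nat_lit 1839) (.e (nat_lit 7591) (nat_lit 407) (.e (nat_lit 73775) (nat_lit 26) (.e (nat_lit 778465) (nat_lit 11) (.e (nat_lit 24656) (nat_lit 13) (.e (nat_lit 393232) (nat_lit 17) .nil))))) (.g (nat_lit 4) .nil .nil)))) (.nd (nat_lit 5) 
(.lf (nat_lit 128478) (.g (nat_lit 2743) (.e (nat_lit 7591) (nat_lit 407) (.e (nat_lit 73775) (nat_lit 26) (.e (nat_lit 778464) (nat_lit 11) (.e (nat_lit 24658) (nat_lit 13) (.e (nat_lit 393234) (nat_lit 17) .nil))))) (.g (nat_lit 5) .nil .nil))) 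
(.lf (nat_lit 128510) (.g (nat_lit 2536) (.e (nat_lit 7591) (nat_lit 407) (.e (nat_lit 73775) (nat_lit 26) (.e (nat_lit 778466) (nat_lit 11) (.e (nat_lit 24631) (nat_lit 9) (.e (nat_lit 336389) (nat_lit 27) (.e (nat_lit 426009) (nat_lit 0) .nil)))))) (.g (nat_lit 5) .nil .nil)))))))) (.nd (nat_lit 1) (.nd (nat_lit 2) (.nd (nat_lit 3) (.nd (nat_lit 4) (.nd (nat_lit 5) 
(.lf (nat_lit 128449) (.g (nat_lit 309) (.e (nat_lit 7591) (nat_lit 407) (.e (nat_lit 73775) (nat_lit 26) (.e (nat_lit 778362) (nat_lit 9) .nil))) .nil)) 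
(.lf (nat_lit 128481) (.g (nat_lit 1491) (.e (nat_lit 7591) (nat_lit 407) (.e (nat_lit 73775) (nat_lit 26) (.e (nat_lit 778465) (nat_lit 11) (.e (nat_lit 24578) (nat_lit 0) .nil)))) .nil))) (.nd (nat_lit 5) 
(.lf (nat_lit 128465) (.g (nat_lit 2488) (.e (nat_lit 7591) (nat_lit 407) (.e (nat_lit 73775) (nat_lit 26) (.e (nat_lit 778362) (nat_lit 9) (.e (nat_lit 314) (nat_lit 23) (.e (nat_lit 352273) (nat_lit 11) (.e (nat_lit 426010) (nat_lit 0) .nil)))))) (.g (nat_lit 4) .nil .nil))) 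
(.lf (nat_lit 128497) (.g (nat_lit 1882) (.e (nat_lit 7591) (nat_lit 407) (.e (nat_lit 73775) (nat_lit 26) (.e (nat_lit 778465) (nat_lit 11) (.e (nat_lit 24657) (nat_lit 13) (.e (nat_lit 401152) (nat_lit 17) .nil))))) (.g (nat_lit 4) .nil .nil))))) (.nd (nat_lit 4) (.nd (nat_lit 5) 
(.lf (nat_lit 128457) (.g (nat_lit 1253) (.e (nat_lit 7591) (nat_lit 407) (.e (nat_lit 73775) (nat_lit 26) (.e (nat_lit 778362) (nat_lit 9) (.e (nat_lit 239) (nat_lit 21) .nil)))) .nil)) 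
(.lf (nat_lit 128489) (.g (nat_lit 1961) (.e (nat_lit 7591) (nat_lit 407) (.e (nat_lit 73775) (nat_lit 26) (.e (nat_lit 778465) (nat_lit 11) (.e (nat_lit 24654) (nat_lit 13) (.e (nat_lit 393231) (nat_lit 17) .nil))))) (.g (nat_lit 4) .nil .nil)))) (.nd (nat_lit 5) 
(.lf (nat_lit 128473) (.g (nat_lit 1237) (.e (nat_lit 7591) (nat_lit 407) (.e (nat_lit 73775) (nat_lit 26) (.e (nat_lit 778362) (nat_lit 9) (.e (nat_lit 336) (nat_lit 26) .nil)))) .nil)) 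
(.lf (nat_lit 128505) (.g (nat_lit 1696) (.e (nat_lit 7591) (nat_lit 407) (.e (nat_lit 73775) (nat_lit 26) (.e (nat_lit 778466) (nat_lit 11) (.e (nat_lit 24576) (nat_lit 0) (.e (nat_lit 7936) (nat_lit 345) .nil))))) .nil))))) (.nd (nat_lit 3) (.nd (nat_lit 4) (.nd (nat_lit 5) 
(.lf (nat_lit 128453) (.g (nat_lit 2048) (.e (nat_lit 7591) (nat_lit 407) (.e (nat_lit 73775) (nat_lit 26) (.e (nat_lit 778362) (nat_lit 9) (.e (nat_lit 232) (nat_lit 21) (.e (nat_lit 336224) (nat_lit 13) (.e (nat_lit 393231) (nat_lit 17) .nil)))))) (.g (nat_lit 4) .nil .nil))) 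
(.lf (nat_lit 128485) (.g (nat_lit 2694) (.e (nat_lit 7591) (nat_lit 407) (.e (nat_lit 73775) (nat_lit 26) (.e (nat_lit 778465) (nat_lit 11) (.e (nat_lit 24631) (nat_lit 9) (.e (nat_lit 336389) (nat_lit 27) (.e (nat_lit 426009) (nat_lit 0) .nil)))))) (.g (nat_lit 5) .nil .nil)))) (.nd (nat_lit 5) 
(.lf (nat_lit 128469) (.g (nat_lit 1817) (.e (nat_lit 7591) (nat_lit 407) (.e (nat_lit 73775) (nat_lit 26) (.e (nat_lit 778362) (nat_lit 9) (.e (nat_lit 334) (nat_lit 26) (.e (nat_lit 376838) (nat_lit 11) (.e (nat_lit 426009) (nat_lit 0) .nil)))))) (.g (nat_lit 4) .nil .nil))) 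
(.lf (nat_lit 128501) (.g (nat_lit 2255) (.e (nat_lit 7591) (nat_lit 407) (.e (nat_lit 73775) (nat_lit 26) (.e (nat_lit 778465) (nat_lit 11) (.e (nat_lit 24660) (nat_lit 13) (.e (nat_lit 393231) (nat_lit 17) .nil))))) (.g (nat_lit 5) .nil .nil))))) (.nd (nat_lit 4) (.nd (nat_lit 5) 
(.lf (nat_lit 128461) (.g (nat_lit 2025) (.e (nat_lit 7591) (nat_lit 407) (.e (nat_lit 73775) (nat_lit 26) (.e (nat_lit 778362) (nat_lit 9) (.e (nat_lit 293) (nat_lit 21) (.e (nat_lit 336209) (nat_lit 13) (.e (nat_lit 393231) (nat_lit 17) .nil)))))) (.g (nat_lit 4) .nil .nil))) 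
(.lf (nat_lit 128493) (.g (nat_lit 3164) (.e (nat_lit 7591) (nat_lit 407) (.e (nat_lit 73775) (nat_lit 26) (.e (nat_lit 778465) (nat_lit 11) (.e (nat_lit 24655) (nat_lit 13) (.e (nat_lit 393232) (nat_lit 17) .nil))))) (.g (nat_lit 5) .nil .nil)))) (.nd (nat_lit 5) 
(.lf (nat_lit 128477) (.g (nat_lit 1349) (.e (nat_lit 7591) (nat_lit 407) (.e (nat_lit 73775) (nat_lit 26) (.e (nat_lit 778464) (nat_lit 11) (.e (nat_lit 24657) (nat_lit 13) (.e (nat_lit 401152) (nat_lit 17) .nil))))) (.g (nat_lit 4) .nil .nil))) 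
(.lf (nat_lit 128509) (.g (nat_lit 870) (.e (nat_lit 7591) (nat_lit 407) (.e (nat_lit 73775) (nat_lit 26) (.e (nat_lit 778466) (nat_lit 11) (.e (nat_lit 24631) (nat_lit 9) .nil)))) .nil)))))) (.nd (nat_lit 2) (.nd (nat_lit 3) (.nd (nat_lit 4) (.nd (nat_lit 5) 
(.lf (nat_lit 128451) (.g (nat_lit 1334) (.e (nat_lit 7591) (nat_lit 407) (.e (nat_lit 73775) (nat_lit 26) (.e (nat_lit 778362) (nat_lit 9) (.e (nat_lit 227) (nat_lit 21) (.e (nat_lit 336211) (nat_lit 13) .nil))))) .nil)) 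
(.lf (nat_lit 128483) (.g (nat_lit 2056) (.e (nat_lit 7591) (nat_lit 407) (.e (nat_lit 73775) (nat_lit 26) (.e (nat_lit 778465) (nat_lit 11) (.e (nat_lit 24584) (nat_lit 0) (.e (nat_lit 7936) (nat_lit 345) .nil))))) .nil))) (.nd (nat_lit 5) 
(.lf (nat_lit 128467) (.g (nat_lit 1278) (.e (nat_lit 7591) (nat_lit 407) (.e (nat_lit 73775) (nat_lit 26) (.e (nat_lit 778362) (nat_lit 9) (.e (nat_lit 328) (nat_lit 25) .nil)))) .nil)) 
(.lf (nat_lit 128499) (.g (nat_lit 3160) (.e (nat_lit 7591) (nat_lit 407) (.e (nat_lit 73775) (nat_lit 26) (.e (nat_lit 778465) (nat_lit 11) (.e (nat_lit 24658) (nat_lit 13) (.e (nat_lit 393234) (nat_lit 17) .nil))))) (.g (nat_lit 0) .nil .nil))))) (.nd (nat_lit 4) (.nd (nat_lit 5) 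
(.lf (nat_lit 128459) (.g (nat_lit 2113) (.e (nat_lit 7591) (nat_lit 407) (.e (nat_lit 73775) (nat_lit 26) (.e (nat_lit 778362) (nat_lit 9) (.e (nat_lit 268) (nat_lit 21) (.e (nat_lit 336212) (nat_lit 13) .nil))))) .nil)) 
(.lf (nat_lit 128491) (.g (nat_lit 2869) (.e (nat_lit 7591) (nat_lit 407) (.e (nat_lit 73775) (nat_lit 26) (.e (nat_lit 778465) (nat_lit 11) (.e (nat_lit 24654) (nat_lit 13) (.e (nat_lit 393234) (nat_lit 17) .nil))))) (.g (nat_lit 0) .nil .nil)))) (.nd (nat_lit 5) 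
(.lf (nat_lit 128475) (.g (nat_lit 1756) (.e (nat_lit 7591) (nat_lit 407) (.e (nat_lit 73775) (nat_lit 26) (.e (nat_lit 778464) (nat_lit 11) (.e (nat_lit 24657) (nat_lit 13) (.e (nat_lit 393231) (nat_lit 17) .nil))))) (.g (nat_lit 4) .nil .nil))) 
(.lf (nat_lit 128507) (.g (nat_lit 1555) (.e (nat_lit 7591) (nat_lit 407) (.e (nat_lit 73775) (nat_lit 26) (.e (nat_lit 778466) (nat_lit 11) (.e (nat_lit 24584) (nat_lit 0) (.e (nat_lit 7936) (nat_lit 345) .nil))))) .nil))))) (.nd (nat_lit 3) (.nd (nat_lit 4) (.nd (nat_lit 5) 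
(.lf (nat_lit 128455) (.g (nat_lit 1233) (.e (nat_lit 7591) (nat_lit 407) (.e (nat_lit 73775) (nat_lit 26) (.e (nat_lit 778362) (nat_lit 9) (.e (nat_lit 236) (nat_lit 21) .nil)))) .nil)) 
(.lf (nat_lit 128487) (.g (nat_lit 1830) (.e (nat_lit 7591) (nat_lit 407) (.e (nat_lit 73775) (nat_lit 26) (.e (nat_lit 778465) (nat_lit 11) (.e (nat_lit 24638) (nat_lit 9) (.e (nat_lit 336387) (nat_lit 27) .nil))))) .nil))) (.nd (nat_lit 5) 
(.lf (nat_lit 128471) (.g (nat_lit 1688) (.e (nat_lit 7591) (nat_lit 407) (.e (nat_lit 73775) (nat_lit 26) (.e (nat_lit 778362) (nat_lit 9) (.e (nat_lit 334) (nat_lit 26) (.e (nat_lit 376841) (nat_lit 11) (.e (nat_lit 426009) (nat_lit 0) .nil)))))) (.g (nat_lit 4) .nil .nil))) 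
(.lf (nat_lit 128503) (.g (nat_lit 1000) (.e (nat_lit 7591) (nat_lit 407) (.e (nat_lit 73775) (nat_lit 26) (.e (nat_lit 778465) (nat_lit 11) (.e (nat_lit 32512) (nat_lit 13) .nil)))) .nil)))) (.nd (nat_lit 4) (.nd (nat_lit 5) 
(.lf (nat_lit 128463) (.g (nat_lit 3207) (.e (nat_lit 7591) (nat_lit 407) (.e (nat_lit 73775) (nat_lit 26) (.e (nat_lit 778362) (nat_lit 9) (.e (nat_lit 312) (nat_lit 23) (.e (nat_lit 352277) (nat_lit 11) (.e (nat_lit 426010) (nat_lit 0) .nil)))))) (.g (nat_lit 6) .nil .nil))) 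
(.lf (nat_lit 128495) (.g (nat_lit 2298) (.e (nat_lit 7591) (nat_lit 407) (.e (nat_lit 73775) (nat_lit 26) (.e (nat_lit 778465) (nat_lit 11) (.e (nat_lit 24657) (nat_lit 13) (.e (nat_lit 393231) (nat_lit 17) .nil))))) (.g (nat_lit 5) .nil .nil)))) (.nd (nat_lit 5) 
(.lf (nat_lit 128479) (.g (nat_lit 1424) (.e (nat_lit 7591) (nat_lit 407) (.e (nat_lit 73775) (nat_lit 26) (.e (nat_lit 778464) (nat_lit 11) (.e (nat_lit 24660) (nat_lit 13) (.e (nat_lit 393231) (nat_lit 17) .nil))))) .nil)) 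
(.lf (nat_lit 128511) (.g (nat_lit 3186) (.e (nat_lit 7591) (nat_lit 407) (.e (nat_lit 73775) (nat_lit 26) (.e (nat_lit 778466) (nat_lit 11) (.e (nat_lit 24631) (nat_lit 9) (.e (nat_lit 336389) (nat_lit 27) (.e (nat_lit 426012) (nat_lit 0) .nil)))))) (.g (nat_lit 0) .nil .nil)))))))))

noncomputable def tv1720 : DT := (.nd (nat_lit 0) (.nd (nat_lit 1) (.nd (nat_lit 2) (.nd (nat_lit 3) (.nd (nat_lit 4) (.nd (nat_lit 5) (.nd (nat_lit 6) 
(.lf (nat_lit 128512) (.g (nat_lit 801) (.e (nat_lit 7591) (nat_lit 407) (.e (nat_lit 73775) (nat_lit 26) (.e (nat_lit 778466) (nat_lit 11) (.e (nat_lit 24636) (nat_lit 9) .nil)))) .nil)) 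
(.lf (nat_lit 128576) (.g (nat_lit 1404) (.e (nat_lit 7591) (nat_lit 407) (.e (nat_lit 73776) (nat_lit 26) (.e (nat_lit 778466) (nat_lit 11) (.e (nat_lit 24633) (nat_lit 9) .nil)))) .nil))) (.nd (nat_lit 6) 
(.lf (nat_lit 128544) (.g (nat_lit 2888) (.e (nat_lit 7591) (nat_lit 407) (.e (nat_lit 73776) (nat_lit 26) (.e (nat_lit 778362) (nat_lit 9) (.e (nat_lit 312) (nat_lit 23) (.e (nat_lit 352277) (nat_lit 11) (.e (nat_lit 426010) (nat_lit 0) .nil)))))) (.g (nat_lit 6) .nil .nil))) 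
(.lf (nat_lit 128608) (.g (nat_lit 1342) (.e (nat_lit 7592) (nat_lit 407) (.e (nat_lit 73731) (nat_lit 0) (.e (nat_lit 7265) (nat_lit 384) (.e (nat_lit 57423) (nat_lit 14) (.e (nat_lit 352276) (nat_lit 11) .nil))))) .nil)))) (.nd (nat_lit 5) (.nd (nat_lit 6) 
(.lf (nat_lit 128528) (.g (nat_lit 150) (.e (nat_lit 7591) (nat_lit 407) (.e (nat_lit 73776) (nat_lit 26) (.e (nat_lit 778362) (nat_lit 9) .nil))) .nil)) 
(.lf (nat_lit 128592) (.g (nat_lit 426) (.e (nat_lit 7592) (nat_lit 407) (.e (nat_lit 73729) (nat_lit 0) (.e (nat_lit 7261) (nat_lit 384) .nil))) .nil))) (.nd (nat_lit 6) 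
(.lf (nat_lit 128560) (.g (nat_lit 1822) (.e (nat_lit 7591) (nat_lit 407) (.e (nat_lit 73776) (nat_lit 26) (.e (nat_lit 778465) (nat_lit 11) (.e (nat_lit 24638) (nat_lit 9) (.e (nat_lit 336387) (nat_lit 27) .nil))))) .nil)) 
(.lf (nat_lit 128624) (.g (nat_lit 1568) (.e (nat_lit 7592) (nat_lit 407) (.e (nat_lit 73732) (nat_lit 0) (.e (nat_lit 7271) (nat_lit 385) (.e (nat_lit 122916) (nat_lit 14) (.e (nat_lit 360192) (nat_lit 11) .nil))))) .nil))))) (.nd (nat_lit 4) (.nd (nat_lit 5) (.nd (nat_lit 6) 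
(.lf (nat_lit 128520) (.g (nat_lit 2052) (.e (nat_lit 7591) (nat_lit 407) (.e (nat_lit 73775) (nat_lit 26) (.e (nat_lit 778466) (nat_lit 11) (.e (nat_lit 24656) (nat_lit 13) (.e (nat_lit 393231) (nat_lit 17) .nil))))) (.g (nat_lit 0) .nil .nil))) 
(.lf (nat_lit 128584) (.g (nat_lit 1570) (.e (nat_lit 7591) (nat_lit 407) (.e (nat_lit 73776) (nat_lit 26) (.e (nat_lit 778466) (nat_lit 11) (.e (nat_lit 24656) (nat_lit 13) (.e (nat_lit 393231) (nat_lit 17) .nil))))) (.g (nat_lit 4) .nil .nil)))) (.nd (nat_lit 6) 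
(.lf (nat_lit 128552) (.g (nat_lit 2079) (.e (nat_lit 7591) (nat_lit 407) (.e (nat_lit 73776) (nat_lit 26) (.e (nat_lit 778463) (nat_lit 11) (.e (nat_lit 24660) (nat_lit 13) (.e (nat_lit 393232) (nat_lit 17) .nil))))) (.g (nat_lit 0) .nil .nil))) 
(.lf (nat_lit 128616) (.g (nat_lit 1664) (.e (nat_lit 7592) (nat_lit 407) (.e (nat_lit 73732) (nat_lit 0) (.e (nat_lit 7270) (nat_lit 385) (.e (nat_lit 122914) (nat_lit 14) (.e (nat_lit 352276) (nat_lit 11) (.e (nat_lit 425990) (nat_lit 0) .nil)))))) (.g (nat_lit 0) .nil .nil))))) (.nd (nat_lit 5) (.nd (nat_lit 6) 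
(.lf (nat_lit 128536) (.g (nat_lit 1136) (.e (nat_lit 7591) (nat_lit 407) (.e (nat_lit 73776) (nat_lit 26) (.e (nat_lit 778362) (nat_lit 9) (.e (nat_lit 234) (nat_lit 21) .nil)))) .nil)) 
(.lf (nat_lit 128600) (.g (nat_lit 1665) (.e (nat_lit 7592) (nat_lit 407) (.e (nat_lit 73729) (nat_lit 0) (.e (nat_lit 7265) (nat_lit 384) (.e (nat_lit 57424) (nat_lit 14) (.e (nat_lit 360192) (nat_lit 11) .nil))))) .nil))) (.nd (nat_lit 6) 
(.lf (nat_lit 128568) (.g (nat_lit 1876) (.e (nat_lit 7591) (nat_lit 407) (.e (nat_lit 73776) (nat_lit 26) (.e (nat_lit 778465) (nat_lit 11) (.e (nat_lit 24658) (nat_lit 13) (.e (nat_lit 393231) (nat_lit 17) .nil))))) (.g (nat_lit 4) .nil .nil))) 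
(.lf (nat_lit 128632) (.g (nat_lit 1198) (.e (nat_lit 7592) (nat_lit 407) (.e (nat_lit 73732) (nat_lit 0) (.e (nat_lit 7273) (nat_lit 385) (.e (nat_lit 122914) (nat_lit 14) (.e (nat_lit 352276) (nat_lit 11) (.e (nat_lit 425990) (nat_lit 0) .nil)))))) (.g (nat_lit 0) .nil .nil))))))) (.nd (nat_lit 3) (.nd (nat_lit 4) (.nd (nat_lit 5) (.nd (nat_lit 6) 
(.lf (nat_lit 128516) (.g (nat_lit 1841) (.e (nat_lit 7591) (nat_lit 407) (.e (nat_lit 73775) (nat_lit 26) (.e (nat_lit 778466) (nat_lit 11) (.e (nat_lit 24654) (nat_lit 13) (.e (nat_lit 393231) (nat_lit 17) .nil))))) (.g (nat_lit 5) .nil .nil))) 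
(.lf (nat_lit 128580) (.g (nat_lit 1406) (.e (nat_lit 7591) (nat_lit 407) (.e (nat_lit 73776) (nat_lit 26) (.e (nat_lit 778466) (nat_lit 11) (.e (nat_lit 24638) (nat_lit 9) (.e (nat_lit 336405) (nat_lit 27) (.e (nat_lit 426012) (nat_lit 0) .nil)))))) (.g (nat_lit 4) .nil .nil)))) (.nd (nat_lit 6) 
(.lf (nat_lit 128548) (.g (nat_lit 1132) (.e (nat_lit 7591) (nat_lit 407) (.e (nat_lit 73776) (nat_lit 26) (.e (nat_lit 778362) (nat_lit 9) (.e (nat_lit 332) (nat_lit 26) .nil)))) .nil)) 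
(.lf (nat_lit 128612) (.g (nat_lit 1805) (.e (nat_lit 7592) (nat_lit 407) (.e (nat_lit 73731) (nat_lit 0) (.e (nat_lit 7266) (nat_lit 384) (.e (nat_lit 57424) (nat_lit 14) (.e (nat_lit 352276) (nat_lit 11) .nil))))) .nil)))) (.nd (nat_lit 5) (.nd (nat_lit 6) 
(.lf (nat_lit 128532) (.g (nat_lit 2457) (.e (nat_lit 7591) (nat_lit 407) (.e (nat_lit 73776) (nat_lit 26) (.e (nat_lit 778362) (nat_lit 9) (.e (nat_lit 232) (nat_lit 21) (.e (nat_lit 336216) (nat_lit 13) .nil))))) .nil)) 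
(.lf (nat_lit 128596) (.g (nat_lit 418) (.e (nat_lit 7592) (nat_lit 407) (.e (nat_lit 73729) (nat_lit 0) (.e (nat_lit 7263) (nat_lit 384) .nil))) .nil))) (.nd (nat_lit 6) 
(.lf (nat_lit 128564) (.g (nat_lit 2561) (.e (nat_lit 7591) (nat_lit 407) (.e (nat_lit 73776) (nat_lit 26) (.e (nat_lit 778465) (nat_lit 11) (.e (nat_lit 24655) (nat_lit 13) (.e (nat_lit 393234) (nat_lit 17) .nil))))) (.g (nat_lit 4) .nil .nil))) 
(.lf (nat_lit 128628) (.g (nat_lit 982) (.e (nat_lit 7592) (nat_lit 407) (.e (nat_lit 73732) (nat_lit 0) (.e (nat_lit 7272) (nat_lit 385) (.e (nat_lit 122915) (nat_lit 14) .nil)))) .nil))))) (.nd (nat_lit 4) (.nd (nat_lit 5) (.nd (nat_lit 6) 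
(.lf (nat_lit 128524) (.g (nat_lit 2632) (.e (nat_lit 7591) (nat_lit 407) (.e (nat_lit 73775) (nat_lit 26) (.e (nat_lit 778466) (nat_lit 11) (.e (nat_lit 24658) (nat_lit 13) (.e (nat_lit 393233) (nat_lit 17) .nil))))) (.g (nat_lit 0) .nil .nil))) 
(.lf (nat_lit 128588) (.g (nat_lit 898) (.e (nat_lit 7591) (nat_lit 407) (.e (nat_lit 81664) (nat_lit 28) (.e (nat_lit 794637) (nat_lit 11) (.e (nat_lit 336215) (nat_lit 13) (.e (nat_lit 401152) (nat_lit 17) .nil))))) (.g (nat_lit 4) .nil .nil)))) (.nd (nat_lit 6) 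
(.lf (nat_lit 128556) (.g (nat_lit 1054) (.e (nat_lit 7591) (nat_lit 407) (.e (nat_lit 73776) (nat_lit 26) (.e (nat_lit 778465) (nat_lit 11) (.e (nat_lit 24631) (nat_lit 9) .nil)))) .nil)) 
(.lf (nat_lit 128620) (.g (nat_lit 1620) (.e (nat_lit 7592) (nat_lit 407) (.e (nat_lit 73732) (nat_lit 0) (.e (nat_lit 7270) (nat_lit 385) (.e (nat_lit 122916) (nat_lit 14) (.e (nat_lit 360192) (nat_lit 11) (.e (nat_lit 425984) (nat_lit 0) .nil)))))) (.g (nat_lit 4) .nil .nil))))) (.nd (nat_lit 5) (.nd (nat_lit 6) 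
(.lf (nat_lit 128540) (.g (nat_lit 1929) (.e (nat_lit 7591) (nat_lit 407) (.e (nat_lit 73776) (nat_lit 26) (.e (nat_lit 778362) (nat_lit 9) (.e (nat_lit 268) (nat_lit 21) (.e (nat_lit 336212) (nat_lit 13) .nil))))) .nil)) 
(.lf (nat_lit 128604) (.g (nat_lit 2101) (.e (nat_lit 7592) (nat_lit 407) (.e (nat_lit 73729) (nat_lit 0) (.e (nat_lit 7266) (nat_lit 384) (.e (nat_lit 57424) (nat_lit 14) (.e (nat_lit 352276) (nat_lit 11) (.e (nat_lit 425987) (nat_lit 0) .nil)))))) (.g (nat_lit 6) .nil .nil)))) (.nd (nat_lit 6) 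
(.lf (nat_lit 128572) (.g (nat_lit 1075) (.e (nat_lit 7591) (nat_lit 407) (.e (nat_lit 73776) (nat_lit 26) (.e (nat_lit 778465) (nat_lit 11) (.e (nat_lit 32512) (nat_lit 13) .nil)))) .nil)) 
(.lf (nat_lit 128636) (.g (nat_lit 1061) (.e (nat_lit 7592) (nat_lit 407) (.e (nat_lit 73751) (nat_lit 7) (.e (nat_lit 548873) (nat_lit 5) (.e (nat_lit 1595) (nat_lit 111) (.e (nat_lit 360460) (nat_lit 1) .nil))))) .nil))))))) (.nd (nat_lit 2) (.nd (nat_lit 3) (.nd (nat_lit 4) (.nd (nat_lit 5) (.nd (nat_lit 6) 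
(.lf (nat_lit 128514) (.g (nat_lit 2101) (.e (nat_lit 7591) (nat_lit 407) (.e (nat_lit 73775) (nat_lit 26) (.e (nat_lit 778466) (nat_lit 11) (.e (nat_lit 24638) (nat_lit 9) (.e (nat_lit 336387) (nat_lit 27) (.e (nat_lit 426010) (nat_lit 0) .nil)))))) (.g (nat_lit 5) .nil .nil))) 
(.lf (nat_lit 128578) (.g (nat_lit 1814) (.e (nat_lit 7591) (nat_lit 407) (.e (nat_lit 73776) (nat_lit 26) (.e (nat_lit 778466) (nat_lit 11) (.e (nat_lit 24638) (nat_lit 9) (.e (nat_lit 336387) (nat_lit 27) (.e (nat_lit 426009) (nat_lit 0) .nil)))))) (.g (nat_lit 4) .nil .nil)))) (.nd (nat_lit 6) 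
(.lf (nat_lit 128546) (.g (nat_lit 2007) (.e (nat_lit 7591) (nat_lit 407) (.e (nat_lit 73776) (nat_lit 26) (.e (nat_lit 778362) (nat_lit 9) (.e (nat_lit 314) (nat_lit 23) (.e (nat_lit 352274) (nat_lit 11) .nil))))) .nil)) 
(.lf (nat_lit 128610) (.g (nat_lit 1506) (.e (nat_lit 7592) (nat_lit 407) (.e (nat_lit 73731) (nat_lit 0) (.e (nat_lit 7265) (nat_lit 384) (.e (nat_lit 57436) (nat_lit 17) (.e (nat_lit 376840) (nat_lit 11) .nil))))) .nil)))) (.nd (nat_lit 5) (.nd (nat_lit 6) 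
(.lf (nat_lit 128530) (.g (nat_lit 1132) (.e (nat_lit 7591) (nat_lit 407) (.e (nat_lit 73776) (nat_lit 26) (.e (nat_lit 778362) (nat_lit 9) (.e (nat_lit 227) (nat_lit 21) .nil)))) .nil)) 
(.lf (nat_lit 128594) (.g (nat_lit 1551) (.e (nat_lit 7592) (nat_lit 407) (.e (nat_lit 73729) (nat_lit 0) (.e (nat_lit 7261) (nat_lit 384) (.e (nat_lit 57436) (nat_lit 17) (.e (nat_lit 376840) (nat_lit 11) (.e (nat_lit 425989) (nat_lit 0) .nil)))))) (.g (nat_lit 4) .nil .nil)))) (.nd (nat_lit 6) 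
(.lf (nat_lit 128562) (.g (nat_lit 1587) (.e (nat_lit 7591) (nat_lit 407) (.e (nat_lit 73776) (nat_lit 26) (.e (nat_lit 778465) (nat_lit 11) (.e (nat_lit 24654) (nat_lit 13) (.e (nat_lit 393231) (nat_lit 17) .nil))))) (.g (nat_lit 4) .nil .nil))) 
(.lf (nat_lit 128626) (.g (nat_lit 1545) (.e (nat_lit 7592) (nat_lit 407) (.e (nat_lit 73732) (nat_lit 0) (.e (nat_lit 7272) (nat_lit 385) (.e (nat_lit 122914) (nat_lit 14) (.e (nat_lit 352276) (nat_lit 11) (.e (nat_lit 425990) (nat_lit 0) .nil)))))) (.g (nat_lit 0) .nil .nil)))))) (.nd (nat_lit 4) (.nd (nat_lit 5) (.nd (nat_lit 6) 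
(.lf (nat_lit 128522) (.g (nat_lit 2299) (.e (nat_lit 7591) (nat_lit 407) (.e (nat_lit 73775) (nat_lit 26) (.e (nat_lit 778466) (nat_lit 11) (.e (nat_lit 24658) (nat_lit 13) (.e (nat_lit 393231) (nat_lit 17) .nil))))) (.g (nat_lit 5) .nil .nil))) 
(.lf (nat_lit 128586) (.g (nat_lit 1294) (.e (nat_lit 7591) (nat_lit 407) (.e (nat_lit 73776) (nat_lit 26) (.e (nat_lit 778466) (nat_lit 11) (.e (nat_lit 24656) (nat_lit 13) (.e (nat_lit 401152) (nat_lit 17) .nil))))) (.g (nat_lit 4) .nil .nil)))) (.nd (nat_lit 6) 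
(.lf (nat_lit 128554) (.g (nat_lit 2047) (.e (nat_lit 7591) (nat_lit 407) (.e (nat_lit 73776) (nat_lit 26) (.e (nat_lit 778465) (nat_lit 11) (.e (nat_lit 24580) (nat_lit 0) (.e (nat_lit 6508) (nat_lit 345) .nil))))) .nil)) 
(.lf (nat_lit 128618) (.g (nat_lit 1711) (.e (nat_lit 7592) (nat_lit 407) (.e (nat_lit 73732) (nat_lit 0) (.e (nat_lit 7270) (nat_lit 385) (.e (nat_lit 122916) (nat_lit 14) (.e (nat_lit 352276) (nat_lit 11) .nil))))) .nil)))) (.nd (nat_lit 5) (.nd (nat_lit 6) 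
(.lf (nat_lit 128538) (.g (nat_lit 1126) (.e (nat_lit 7591) (nat_lit 407) (.e (nat_lit 73776) (nat_lit 26) (.e (nat_lit 778362) (nat_lit 9) (.e (nat_lit 237) (nat_lit 21) .nil)))) .nil)) 
(.lf (nat_lit 128602) (.g (nat_lit 2269) (.e (nat_lit 7592) (nat_lit 407) (.e (nat_lit 73729) (nat_lit 0) (.e (nat_lit 7266) (nat_lit 384) (.e (nat_lit 57423) (nat_lit 14) (.e (nat_lit 352276) (nat_lit 11) (.e (nat_lit 425990) (nat_lit 0) .nil)))))) (.g (nat_lit 0) .nil .nil)))) (.nd (nat_lit 6) 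
(.lf (nat_lit 128570) (.g (nat_lit 2280) (.e (nat_lit 7591) (nat_lit 407) (.e (nat_lit 73776) (nat_lit 26) (.e (nat_lit 778465) (nat_lit 11) (.e (nat_lit 24660) (nat_lit 13) (.e (nat_lit 393231) (nat_lit 17) .nil))))) (.g (nat_lit 5) .nil .nil))) 
(.lf (nat_lit 128634) (.g (nat_lit 1133) (.e (nat_lit 7592) (nat_lit 407) (.e (nat_lit 73732) (nat_lit 0) (.e (nat_lit 7273) (nat_lit 385) (.e (nat_lit 122916) (nat_lit 14) (.e (nat_lit 352276) (nat_lit 11) .nil))))) .nil)))))) (.nd (nat_lit 3) (.nd (nat_lit 4) (.nd (nat_lit 5) (.nd (nat_lit 6) 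
(.lf (nat_lit 128518) (.g (nat_lit 2266) (.e (nat_lit 7591) (nat_lit 407) (.e (nat_lit 73775) (nat_lit 26) (.e (nat_lit 778466) (nat_lit 11) (.e (nat_lit 24655) (nat_lit 13) (.e (nat_lit 393231) (nat_lit 17) .nil))))) (.g (nat_lit 5) .nil .nil))) 
(.lf (nat_lit 128582) (.g (nat_lit 2205) (.e (nat_lit 7591) (nat_lit 407) (.e (nat_lit 73776) (nat_lit 26) (.e (nat_lit 778466) (nat_lit 11) (.e (nat_lit 24654) (nat_lit 13) (.e (nat_lit 393232) (nat_lit 17) .nil))))) (.g (nat_lit 0) .nil .nil)))) (.nd (nat_lit 6) 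
(.lf (nat_lit 128550) (.g (nat_lit 1409) (.e (nat_lit 7591) (nat_lit 407) (.e (nat_lit 73776) (nat_lit 26) (.e (nat_lit 778362) (nat_lit 9) (.e (nat_lit 334) (nat_lit 26) (.e (nat_lit 376841) (nat_lit 11) .nil))))) .nil)) 
(.lf (nat_lit 128614) (.g (nat_lit 1634) (.e (nat_lit 7592) (nat_lit 407) (.e (nat_lit 73731) (nat_lit 0) (.e (nat_lit 7266) (nat_lit 384) (.e (nat_lit 57436) (nat_lit 17) (.e (nat_lit 376840) (nat_lit 11) .nil))))) .nil)))) (.nd (nat_lit 5) (.nd (nat_lit 6) 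
(.lf (nat_lit 128534) (.g (nat_lit 2657) (.e (nat_lit 7591) (nat_lit 407) (.e (nat_lit 73776) (nat_lit 26) (.e (nat_lit 778362) (nat_lit 9) (.e (nat_lit 232) (nat_lit 21) (.e (nat_lit 336217) (nat_lit 13) (.e (nat_lit 393233) (nat_lit 17) .nil)))))) (.g (nat_lit 4) .nil .nil))) 
(.lf (nat_lit 128598) (.g (nat_lit 1021) (.e (nat_lit 7592) (nat_lit 407) (.e (nat_lit 73729) (nat_lit 0) (.e (nat_lit 7265) (nat_lit 384) (.e (nat_lit 57423) (nat_lit 14) .nil)))) .nil))) (.nd (nat_lit 6) 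
(.lf (nat_lit 128566) (.g (nat_lit 2736) (.e (nat_lit 7591) (nat_lit 407) (.e (nat_lit 73776) (nat_lit 26) (.e (nat_lit 778465) (nat_lit 11) (.e (nat_lit 24657) (nat_lit 13) (.e (nat_lit 393232) (nat_lit 17) .nil))))) (.g (nat_lit 0) .nil .nil))) 
(.lf (nat_lit 128630) (.g (nat_lit 1607) (.e (nat_lit 7592) (nat_lit 407) (.e (nat_lit 73732) (nat_lit 0) (.e (nat_lit 7272) (nat_lit 385) (.e (nat_lit 122916) (nat_lit 14) (.e (nat_lit 360192) (nat_lit 11) .nil))))) .nil))))) (.nd (nat_lit 4) (.nd (nat_lit 5) (.nd (nat_lit 6) 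
(.lf (nat_lit 128526) (.g (nat_lit 858) (.e (nat_lit 7591) (nat_lit 407) (.e (nat_lit 73776) (nat_lit 26) (.e (nat_lit 778360) (nat_lit 9) (.e (nat_lit 312) (nat_lit 23) (.e (nat_lit 352277) (nat_lit 11) .nil))))) .nil)) 
(.lf (nat_lit 128590) (.g (nat_lit 1823) (.e (nat_lit 7592) (nat_lit 407) (.e (nat_lit 73729) (nat_lit 0) (.e (nat_lit 7125) (nat_lit 382) (.e (nat_lit 1222) (nat_lit 90) (.e (nat_lit 89856) (nat_lit 11) .nil))))) .nil))) (.nd (nat_lit 6) 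
(.lf (nat_lit 128558) (.g (nat_lit 2994) (.e (nat_lit 7591) (nat_lit 407) (.e (nat_lit 73776) (nat_lit 26) (.e (nat_lit 778465) (nat_lit 11) (.e (nat_lit 24631) (nat_lit 9) (.e (nat_lit 336389) (nat_lit 27) (.e (nat_lit 426012) (nat_lit 0) .nil)))))) (.g (nat_lit 5) .nil .nil))) 
(.lf (nat_lit 128622) (.g (nat_lit 832) (.e (nat_lit 7592) (nat_lit 407) (.e (nat_lit 73732) (nat_lit 0) (.e (nat_lit 7271) (nat_lit 385) (.e (nat_lit 122915) (nat_lit 14) .nil)))) .nil)))) (.nd (nat_lit 5) (.nd (nat_lit 6) 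
(.lf (nat_lit 128542) (.g (nat_lit 1126) (.e (nat_lit 7591) (nat_lit 407) (.e (nat_lit 73776) (nat_lit 26) (.e (nat_lit 778362) (nat_lit 9) (.e (nat_lit 310) (nat_lit 23) .nil)))) .nil)) 
(.lf (nat_lit 128606) (.g (nat_lit 2046) (.e (nat_lit 7592) (nat_lit 407) (.e (nat_lit 73729) (nat_lit 0) (.e (nat_lit 7266) (nat_lit 384) (.e (nat_lit 57424) (nat_lit 14) (.e (nat_lit 352276) (nat_lit 11) (.e (nat_lit 425990) (nat_lit 0) .nil)))))) (.g (nat_lit 6) .nil .nil)))) (.nd (nat_lit 6) 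
(.lf (nat_lit 128574) (.g (nat_lit 3007) (.e (nat_lit 7591) (nat_lit 407) (.e (nat_lit 73776) (nat_lit 26) (.e (nat_lit 778466) (nat_lit 11) (.e (nat_lit 24631) (nat_lit 9) (.e (nat_lit 336389) (nat_lit 27) (.e (nat_lit 426012) (nat_lit 0) .nil)))))) (.g (nat_lit 0) .nil .nil))) 
(.lf (nat_lit 128638) (.g (nat_lit 1440) (.e (nat_lit 7592) (nat_lit 407) (.e (nat_lit 73751) (nat_lit 7) (.e (nat_lit 548874) (nat_lit 5) (.e (nat_lit 1595) (nat_lit 111) (.e (nat_lit 360460) (nat_lit 1) .nil))))) .nil)))))))) (.nd (nat_lit 1) (.nd (nat_lit 2) (.nd (nat_lit 3) (.nd (nat_lit 4) (.nd (nat_lit 5) (.nd (nat_lit 6) 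
(.lf (nat_lit 128513) (.g (nat_lit 2196) (.e (nat_lit 7591) (nat_lit 407) (.e (nat_lit 73775) (nat_lit 26) (.e (nat_lit 778466) (nat_lit 11) (.e (nat_lit 24638) (nat_lit 9) (.e (nat_lit 336387) (nat_lit 27) (.e (nat_lit 426009) (nat_lit 0) .nil)))))) (.g (nat_lit 5) .nil .nil))) 
(.lf (nat_lit 128577) (.g (nat_lit 3399) (.e (nat_lit 7591) (nat_lit 407) (.e (nat_lit 73776) (nat_lit 26) (.e (nat_lit 778466) (nat_lit 11) (.e (nat_lit 24634) (nat_lit 9) (.e (nat_lit 336389) (nat_lit 27) (.e (nat_lit 426012) (nat_lit 0) .nil)))))) (.g (nat_lit 0) .nil .nil)))) (.nd (nat_lit 6) 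
(.lf (nat_lit 128545) (.g (nat_lit 2229) (.e (nat_lit 7591) (nat_lit 407) (.e (nat_lit 73776) (nat_lit 26) (.e (nat_lit 778362) (nat_lit 9) (.e (nat_lit 314) (nat_lit 23) (.e (nat_lit 352273) (nat_lit 11) (.e (nat_lit 426010) (nat_lit 0) .nil)))))) (.g (nat_lit 4) .nil .nil))) 
(.lf (nat_lit 128609) (.g (nat_lit 1541) (.e (nat_lit 7592) (nat_lit 407) (.e (nat_lit 73731) (nat_lit 0) (.e (nat_lit 7265) (nat_lit 384) (.e (nat_lit 57424) (nat_lit 14) (.e (nat_lit 352276) (nat_lit 11) .nil))))) .nil)))) (.nd (nat_lit 5) (.nd (nat_lit 6) 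
(.lf (nat_lit 128529) (.g (nat_lit 1125) (.e (nat_lit 7591) (nat_lit 407) (.e (nat_lit 73776) (nat_lit 26) (.e (nat_lit 778362) (nat_lit 9) (.e (nat_lit 225) (nat_lit 21) .nil)))) .nil)) 
(.lf (nat_lit 128593) (.g (nat_lit 1600) (.e (nat_lit 7592) (nat_lit 407) (.e (nat_lit 73729) (nat_lit 0) (.e (nat_lit 7261) (nat_lit 384) (.e (nat_lit 57423) (nat_lit 14) (.e (nat_lit 352276) (nat_lit 11) (.e (nat_lit 425990) (nat_lit 0) .nil)))))) (.g (nat_lit 0) .nil .nil)))) (.nd (nat_lit 6) 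
(.lf (nat_lit 128561) (.g (nat_lit 2004) (.e (nat_lit 7591) (nat_lit 407) (.e (nat_lit 73776) (nat_lit 26) (.e (nat_lit 778465) (nat_lit 11) (.e (nat_lit 24638) (nat_lit 9) (.e (nat_lit 336387) (nat_lit 27) (.e (nat_lit 426012) (nat_lit 0) .nil)))))) (.g (nat_lit 4) .nil .nil))) 
(.lf (nat_lit 128625) (.g (nat_lit 1596) (.e (nat_lit 7592) (nat_lit 407) (.e (nat_lit 73732) (nat_lit 0) (.e (nat_lit 7271) (nat_lit 385) (.e (nat_lit 122916) (nat_lit 14) (.e (nat_lit 360192) (nat_lit 11) (.e (nat_lit 425984) (nat_lit 0) .nil)))))) (.g (nat_lit 4) .nil .nil)))))) (.nd (nat_lit 4) (.nd (nat_lit 5) (.nd (nat_lit 6) 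
(.lf (nat_lit 128521) (.g (nat_lit 2372) (.e (nat_lit 7591) (nat_lit 407) (.e (nat_lit 73775) (nat_lit 26) (.e (nat_lit 778466) (nat_lit 11) (.e (nat_lit 24656) (nat_lit 13) (.e (nat_lit 393232) (nat_lit 17) .nil))))) (.g (nat_lit 0) .nil .nil))) 
(.lf (nat_lit 128585) (.g (nat_lit 2241) (.e (nat_lit 7591) (nat_lit 407) (.e (nat_lit 73776) (nat_lit 26) (.e (nat_lit 778466) (nat_lit 11) (.e (nat_lit 24656) (nat_lit 13) (.e (nat_lit 393232) (nat_lit 17) .nil))))) (.g (nat_lit 0) .nil .nil)))) (.nd (nat_lit 6) 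
(.lf (nat_lit 128553) (.g (nat_lit 1661) (.e (nat_lit 7591) (nat_lit 407) (.e (nat_lit 73776) (nat_lit 26) (.e (nat_lit 778464) (nat_lit 11) (.e (nat_lit 24657) (nat_lit 13) (.e (nat_lit 393232) (nat_lit 17) .nil))))) (.g (nat_lit 4) .nil .nil))) 
(.lf (nat_lit 128617) (.g (nat_lit 1337) (.e (nat_lit 7592) (nat_lit 407) (.e (nat_lit 73732) (nat_lit 0) (.e (nat_lit 7270) (nat_lit 385) (.e (nat_lit 122914) (nat_lit 14) (.e (nat_lit 360192) (nat_lit 11) .nil))))) .nil)))) (.nd (nat_lit 5) (.nd (nat_lit 6) 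
(.lf (nat_lit 128537) (.g (nat_lit 1126) (.e (nat_lit 7591) (nat_lit 407) (.e (nat_lit 73776) (nat_lit 26) (.e (nat_lit 778362) (nat_lit 9) (.e (nat_lit 236) (nat_lit 21) .nil)))) .nil)) 
(.lf (nat_lit 128601) (.g (nat_lit 1102) (.e (nat_lit 7592) (nat_lit 407) (.e (nat_lit 73729) (nat_lit 0) (.e (nat_lit 7266) (nat_lit 384) (.e (nat_lit 57409) (nat_lit 12) .nil)))) .nil))) (.nd (nat_lit 6) 
(.lf (nat_lit 128569) (.g (nat_lit 1972) (.e (nat_lit 7591) (nat_lit 407) (.e (nat_lit 73776) (nat_lit 26) (.e (nat_lit 778465) (nat_lit 11) (.e (nat_lit 24658) (nat_lit 13) (.e (nat_lit 393232) (nat_lit 17) .nil))))) (.g (nat_lit 4) .nil .nil))) 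
(.lf (nat_lit 128633) (.g (nat_lit 1006) (.e (nat_lit 7592) (nat_lit 407) (.e (nat_lit 73732) (nat_lit 0) (.e (nat_lit 7273) (nat_lit 385) (.e (nat_lit 122914) (nat_lit 14) (.e (nat_lit 360192) (nat_lit 11) .nil))))) .nil)))))) (.nd (nat_lit 3) (.nd (nat_lit 4) (.nd (nat_lit 5) (.nd (nat_lit 6) 
(.lf (nat_lit 128517) (.g (nat_lit 2375) (.e (nat_lit 7591) (nat_lit 407) (.e (nat_lit 73775) (nat_lit 26) (.e (nat_lit 778466) (nat_lit 11) (.e (nat_lit 24654) (nat_lit 13) (.e (nat_lit 393232) (nat_lit 17) .nil))))) (.g (nat_lit 0) .nil .nil))) 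
(.lf (nat_lit 128581) (.g (nat_lit 1311) (.e (nat_lit 7591) (nat_lit 407) (.e (nat_lit 73776) (nat_lit 26) (.e (nat_lit 778466) (nat_lit 11) (.e (nat_lit 24654) (nat_lit 13) (.e (nat_lit 393231) (nat_lit 17) .nil))))) (.g (nat_lit 4) .nil .nil)))) (.nd (nat_lit 6) 
(.lf (nat_lit 128549) (.g (nat_lit 1513) (.e (nat_lit 7591) (nat_lit 407) (.e (nat_lit 73776) (nat_lit 26) (.e (nat_lit 778362) (nat_lit 9) (.e (nat_lit 334) (nat_lit 26) (.e (nat_lit 376838) (nat_lit 11) (.e (nat_lit 426010) (nat_lit 0) .nil)))))) (.g (nat_lit 4) .nil .nil))) 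
(.lf (nat_lit 128613) (.g (nat_lit 1504) (.e (nat_lit 7592) (nat_lit 407) (.e (nat_lit 73731) (nat_lit 0) (.e (nat_lit 7266) (nat_lit 384) (.e (nat_lit 57435) (nat_lit 17) (.e (nat_lit 376840) (nat_lit 11) .nil))))) .nil)))) (.nd (nat_lit 5) (.nd (nat_lit 6) 
(.lf (nat_lit 128533) (.g (nat_lit 2457) (.e (nat_lit 7591) (nat_lit 407) (.e (nat_lit 73776) (nat_lit 26) (.e (nat_lit 778362) (nat_lit 9) (.e (nat_lit 232) (nat_lit 21) (.e (nat_lit 336217) (nat_lit 13) .nil))))) .nil)) 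
(.lf (nat_lit 128597) (.g (nat_lit 432) (.e (nat_lit 7592) (nat_lit 407) (.e (nat_lit 73729) (nat_lit 0) (.e (nat_lit 7265) (nat_lit 384) .nil))) .nil))) (.nd (nat_lit 6) 
(.lf (nat_lit 128565) (.g (nat_lit 1911) (.e (nat_lit 7591) (nat_lit 407) (.e (nat_lit 73776) (nat_lit 26) (.e (nat_lit 778465) (nat_lit 11) (.e (nat_lit 24657) (nat_lit 13) (.e (nat_lit 393231) (nat_lit 17) .nil))))) (.g (nat_lit 4) .nil .nil))) 
(.lf (nat_lit 128629) (.g (nat_lit 1618) (.e (nat_lit 7592) (nat_lit 407) (.e (nat_lit 73732) (nat_lit 0) (.e (nat_lit 7272) (nat_lit 385) (.e (nat_lit 122916) (nat_lit 14) (.e (nat_lit 352276) (nat_lit 11) .nil))))) .nil))))) (.nd (nat_lit 4) (.nd (nat_lit 5) (.nd (nat_lit 6) 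
(.lf (nat_lit 128525) (.g (nat_lit 3232) (.e (nat_lit 7591) (nat_lit 407) (.e (nat_lit 73775) (nat_lit 26) (.e (nat_lit 778466) (nat_lit 11) (.e (nat_lit 24658) (nat_lit 13) (.e (nat_lit 393234) (nat_lit 17) .nil))))) (.g (nat_lit 0) .nil .nil))) 
(.lf (nat_lit 128589) (.g (nat_lit 557) (.e (nat_lit 7592) (nat_lit 407) (.e (nat_lit 73729) (nat_lit 0) (.e (nat_lit 4153) (nat_lit 249) .nil))) .nil))) (.nd (nat_lit 6) 
(.lf (nat_lit 128557) (.g (nat_lit 3105) (.e (nat_lit 7591) (nat_lit 407) (.e (nat_lit 73776) (nat_lit 26) (.e (nat_lit 778465) (nat_lit 11) (.e (nat_lit 24631) (nat_lit 9) (.e (nat_lit 336389) (nat_lit 27) (.e (nat_lit 426011) (nat_lit 0) .nil)))))) (.g (nat_lit 5) .nil .nil))) 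
(.lf (nat_lit 128621) (.g (nat_lit 1259) (.e (nat_lit 7592) (nat_lit 407) (.e (nat_lit 73732) (nat_lit 0) (.e (nat_lit 7271) (nat_lit 385) (.e (nat_lit 122914) (nat_lit 14) (.e (nat_lit 360192) (nat_lit 11) .nil))))) .nil)))) (.nd (nat_lit 5) (.nd (nat_lit 6) 
(.lf (nat_lit 128541) (.g (nat_lit 1806) (.e (nat_lit 7591) (nat_lit 407) (.e (nat_lit 73776) (nat_lit 26) (.e (nat_lit 778362) (nat_lit 9) (.e (nat_lit 268) (nat_lit 21) (.e (nat_lit 336224) (nat_lit 13) .nil))))) .nil)) 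
(.lf (nat_lit 128605) (.g (nat_lit 2090) (.e (nat_lit 7592) (nat_lit 407) (.e (nat_lit 73729) (nat_lit 0) (.e (nat_lit 7266) (nat_lit 384) (.e (nat_lit 57424) (nat_lit 14) (.e (nat_lit 352276) (nat_lit 11) (.e (nat_lit 425989) (nat_lit 0) .nil)))))) (.g (nat_lit 6) .nil .nil)))) (.nd (nat_lit 6) 
(.lf (nat_lit 128573) (.g (nat_lit 1342) (.e (nat_lit 7591) (nat_lit 407) (.e (nat_lit 73776) (nat_lit 26) (.e (nat_lit 778466) (nat_lit 11) (.e (nat_lit 24584) (nat_lit 0) (.e (nat_lit 7936) (nat_lit 345) (.e (nat_lit 16385) (nat_lit 0) .nil)))))) (.g (nat_lit 4) .nil .nil))) 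
(.lf (nat_lit 128637) (.g (nat_lit 2240) (.e (nat_lit 7592) (nat_lit 407) (.e (nat_lit 73751) (nat_lit 7) (.e (nat_lit 548874) (nat_lit 5) (.e (nat_lit 1562) (nat_lit 110) (.e (nat_lit 352312) (nat_lit 22) (.e (nat_lit 90133) (nat_lit 9) (.e (nat_lit 2400) (nat_lit 157) .nil))))))) (.g (nat_lit 6) .nil .nil)))))))) 
(.nd (nat_lit 2) (.nd (nat_lit 3) (.nd (nat_lit 4) (.nd (nat_lit 5) (.nd (nat_lit 6) 
(.lf (nat_lit 128515) (.g (nat_lit 2707) (.e (nat_lit 7591) (nat_lit 407) (.e (nat_lit 73775) (nat_lit 26) (.e (nat_lit 778466) (nat_lit 11) (.e (nat_lit 24638) (nat_lit 9) (.e (nat_lit 336387) (nat_lit 27) (.e (nat_lit 426012) (nat_lit 0) .nil)))))) (.g (nat_lit 6) .nil .nil))) 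
(.lf (nat_lit 128579) (.g (nat_lit 1968) (.e (nat_lit 7591) (nat_lit 407) (.e (nat_lit 73776) (nat_lit 26) (.e (nat_lit 778466) (nat_lit 11) (.e (nat_lit 24638) (nat_lit 9) (.e (nat_lit 336387) (nat_lit 27) (.e (nat_lit 426010) (nat_lit 0) .nil)))))) (.g (nat_lit 5) .nil .nil)))) (.nd (nat_lit 6) 
(.lf (nat_lit 128547) (.g (nat_lit 2099) (.e (nat_lit 7591) (nat_lit 407) (.e (nat_lit 73776) (nat_lit 26) (.e (nat_lit 778362) (nat_lit 9) (.e (nat_lit 314) (nat_lit 23) (.e (nat_lit 352274) (nat_lit 11) (.e (nat_lit 426012) (nat_lit 0) .nil)))))) (.g (nat_lit 4) .nil .nil))) 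
(.lf (nat_lit 128611) (.g (nat_lit 2000) (.e (nat_lit 7592) (nat_lit 407) (.e (nat_lit 73731) (nat_lit 0) (.e (nat_lit 7266) (nat_lit 384) (.e (nat_lit 57423) (nat_lit 14) (.e (nat_lit 352276) (nat_lit 11) .nil))))) .nil)))) (.nd (nat_lit 5) (.nd (nat_lit 6) 
(.lf (nat_lit 128531) (.g (nat_lit 3359) (.e (nat_lit 7591) (nat_lit 407) (.e (nat_lit 73776) (nat_lit 26) (.e (nat_lit 778362) (nat_lit 9) (.e (nat_lit 232) (nat_lit 21) (.e (nat_lit 335907) (nat_lit 0) (.e (nat_lit 7936) (nat_lit 345) (.e (nat_lit 16388) (nat_lit 0) .nil))))))) (.g (nat_lit 5) .nil .nil))) 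
(.lf (nat_lit 128595) (.g (nat_lit 1481) (.e (nat_lit 7592) (nat_lit 407) (.e (nat_lit 73729) (nat_lit 0) (.e (nat_lit 7261) (nat_lit 384) (.e (nat_lit 57437) (nat_lit 17) (.e (nat_lit 376840) (nat_lit 11) .nil))))) .nil))) (.nd (nat_lit 6) 
(.lf (nat_lit 128563) (.g (nat_lit 2612) (.e (nat_lit 7591) (nat_lit 407) (.e (nat_lit 73776) (nat_lit 26) (.e (nat_lit 778465) (nat_lit 11) (.e (nat_lit 24655) (nat_lit 13) (.e (nat_lit 393233) (nat_lit 17) .nil))))) (.g (nat_lit 5) .nil .nil))) 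
(.lf (nat_lit 128627) (.g (nat_lit 1184) (.e (nat_lit 7592) (nat_lit 407) (.e (nat_lit 73732) (nat_lit 0) (.e (nat_lit 7272) (nat_lit 385) (.e (nat_lit 122914) (nat_lit 14) (.e (nat_lit 360192) (nat_lit 11) .nil))))) .nil))))) (.nd (nat_lit 4) (.nd (nat_lit 5) (.nd (nat_lit 6) 
(.lf (nat_lit 128523) (.g (nat_lit 2405) (.e (nat_lit 7591) (nat_lit 407) (.e (nat_lit 73775) (nat_lit 26) (.e (nat_lit 778466) (nat_lit 11) (.e (nat_lit 24658) (nat_lit 13) (.e (nat_lit 393232) (nat_lit 17) .nil))))) (.g (nat_lit 4) .nil .nil))) 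
(.lf (nat_lit 128587) (.g (nat_lit 2011) (.e (nat_lit 7591) (nat_lit 407) (.e (nat_lit 73776) (nat_lit 26) (.e (nat_lit 778466) (nat_lit 11) (.e (nat_lit 24658) (nat_lit 13) (.e (nat_lit 393231) (nat_lit 17) .nil))))) (.g (nat_lit 4) .nil .nil)))) (.nd (nat_lit 6) 
(.lf (nat_lit 128555) (.g (nat_lit 2106) (.e (nat_lit 7591) (nat_lit 407) (.e (nat_lit 73776) (nat_lit 26) (.e (nat_lit 778465) (nat_lit 11) (.e (nat_lit 24580) (nat_lit 0) (.e (nat_lit 6510) (nat_lit 345) .nil))))) .nil)) 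
(.lf (nat_lit 128619) (.g (nat_lit 1609) (.e (nat_lit 7592) (nat_lit 407) (.e (nat_lit 73732) (nat_lit 0) (.e (nat_lit 7270) (nat_lit 385) (.e (nat_lit 122916) (nat_lit 14) (.e (nat_lit 360192) (nat_lit 11) .nil))))) .nil)))) (.nd (nat_lit 5) (.nd (nat_lit 6) 
(.lf (nat_lit 128539) (.g (nat_lit 1146) (.e (nat_lit 7591) (nat_lit 407) (.e (nat_lit 73776) (nat_lit 26) (.e (nat_lit 778362) (nat_lit 9) (.e (nat_lit 239) (nat_lit 21) .nil)))) .nil)) 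
(.lf (nat_lit 128603) (.g (nat_lit 2130) (.e (nat_lit 7592) (nat_lit 407) (.e (nat_lit 73729) (nat_lit 0) (.e (nat_lit 7266) (nat_lit 384) (.e (nat_lit 57424) (nat_lit 14) (.e (nat_lit 352276) (nat_lit 11) (.e (nat_lit 425984) (nat_lit 0) .nil)))))) (.g (nat_lit 6) .nil .nil)))) (.nd (nat_lit 6) 
(.lf (nat_lit 128571) (.g (nat_lit 2733) (.e (nat_lit 7591) (nat_lit 407) (.e (nat_lit 73776) (nat_lit 26) (.e (nat_lit 778465) (nat_lit 11) (.e (nat_lit 24660) (nat_lit 13) (.e (nat_lit 393232) (nat_lit 17) .nil))))) (.g (nat_lit 0) .nil .nil))) 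
(.lf (nat_lit 128635) (.g (nat_lit 1132) (.e (nat_lit 7592) (nat_lit 407) (.e (nat_lit 73732) (nat_lit 0) (.e (nat_lit 7273) (nat_lit 385) (.e (nat_lit 122916) (nat_lit 14) (.e (nat_lit 360192) (nat_lit 11) .nil))))) .nil)))))) (.nd (nat_lit 3) (.nd (nat_lit 4) (.nd (nat_lit 5) (.nd (nat_lit 6) 
(.lf (nat_lit 128519) (.g (nat_lit 2970) (.e (nat_lit 7591) (nat_lit 407) (.e (nat_lit 73775) (nat_lit 26) (.e (nat_lit 778466) (nat_lit 11) (.e (nat_lit 24655) (nat_lit 13) (.e (nat_lit 393232) (nat_lit 17) .nil))))) (.g (nat_lit 0) .nil .nil))) 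
(.lf (nat_lit 128583) (.g (nat_lit 1767) (.e (nat_lit 7591) (nat_lit 407) (.e (nat_lit 73776) (nat_lit 26) (.e (nat_lit 778466) (nat_lit 11) (.e (nat_lit 24655) (nat_lit 13) (.e (nat_lit 393231) (nat_lit 17) .nil))))) (.g (nat_lit 4) .nil .nil)))) (.nd (nat_lit 6) 
(.lf (nat_lit 128551) (.g (nat_lit 1133) (.e (nat_lit 7591) (nat_lit 407) (.e (nat_lit 73776) (nat_lit 26) (.e (nat_lit 778362) (nat_lit 9) (.e (nat_lit 336) (nat_lit 26) .nil)))) .nil)) 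
(.lf (nat_lit 128615) (.g (nat_lit 254) (.e (nat_lit 7592) (nat_lit 407) (.e (nat_lit 73732) (nat_lit 0) (.e (nat_lit 7147) (nat_lit 382) .nil))) .nil)))) (.nd (nat_lit 5) (.nd (nat_lit 6) 
(.lf (nat_lit 128535) (.g (nat_lit 2517) (.e (nat_lit 7591) (nat_lit 407) (.e (nat_lit 73776) (nat_lit 26) (.e (nat_lit 778362) (nat_lit 9) (.e (nat_lit 232) (nat_lit 21) (.e (nat_lit 336217) (nat_lit 13) (.e (nat_lit 393234) (nat_lit 17) .nil)))))) (.g (nat_lit 4) .nil .nil))) 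
(.lf (nat_lit 128599) (.g (nat_lit 1996) (.e (nat_lit 7592) (nat_lit 407) (.e (nat_lit 73729) (nat_lit 0) (.e (nat_lit 7265) (nat_lit 384) (.e (nat_lit 57423) (nat_lit 14) (.e (nat_lit 352276) (nat_lit 11) (.e (nat_lit 425990) (nat_lit 0) .nil)))))) (.g (nat_lit 0) .nil .nil)))) (.nd (nat_lit 6) 
(.lf (nat_lit 128567) (.g (nat_lit 1834) (.e (nat_lit 7591) (nat_lit 407) (.e (nat_lit 73776) (nat_lit 26) (.e (nat_lit 778465) (nat_lit 11) (.e (nat_lit 24657) (nat_lit 13) (.e (nat_lit 401152) (nat_lit 17) .nil))))) (.g (nat_lit 4) .nil .nil))) 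
(.lf (nat_lit 128631) (.g (nat_lit 1629) (.e (nat_lit 7592) (nat_lit 407) (.e (nat_lit 73732) (nat_lit 0) (.e (nat_lit 7272) (nat_lit 385) (.e (nat_lit 122916) (nat_lit 14) (.e (nat_lit 360192) (nat_lit 11) (.e (nat_lit 425984) (nat_lit 0) .nil)))))) (.g (nat_lit 4) .nil .nil)))))) (.nd (nat_lit 4) (.nd (nat_lit 5) (.nd (nat_lit 6) 
(.lf (nat_lit 128527) (.g (nat_lit 1613) (.e (nat_lit 7591) (nat_lit 407) (.e (nat_lit 73776) (nat_lit 26) (.e (nat_lit 778361) (nat_lit 9) (.e (nat_lit 314) (nat_lit 23) (.e (nat_lit 352275) (nat_lit 11) .nil))))) .nil)) 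
(.lf (nat_lit 128591) (.g (nat_lit 1867) (.e (nat_lit 7592) (nat_lit 407) (.e (nat_lit 73729) (nat_lit 0) (.e (nat_lit 7125) (nat_lit 382) (.e (nat_lit 1224) (nat_lit 90) (.e (nat_lit 89856) (nat_lit 11) .nil))))) .nil))) (.nd (nat_lit 6) 
(.lf (nat_lit 128559) (.g (nat_lit 1790) (.e (nat_lit 7591) (nat_lit 407) (.e (nat_lit 73776) (nat_lit 26) (.e (nat_lit 778465) (nat_lit 11) (.e (nat_lit 24636) (nat_lit 9) (.e (nat_lit 336390) (nat_lit 27) (.e (nat_lit 426012) (nat_lit 0) .nil)))))) (.g (nat_lit 4) .nil .nil))) 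
(.lf (nat_lit 128623) (.g (nat_lit 1583) (.e (nat_lit 7592) (nat_lit 407) (.e (nat_lit 73732) (nat_lit 0) (.e (nat_lit 7271) (nat_lit 385) (.e (nat_lit 122916) (nat_lit 14) (.e (nat_lit 352276) (nat_lit 11) .nil))))) .nil)))) (.nd (nat_lit 5) (.nd (nat_lit 6) 
(.lf (nat_lit 128543) (.g (nat_lit 2446) (.e (nat_lit 7591) (nat_lit 407) (.e (nat_lit 73776) (nat_lit 26) (.e (nat_lit 778362) (nat_lit 9) (.e (nat_lit 312) (nat_lit 23) (.e (nat_lit 352277) (nat_lit 11) (.e (nat_lit 426009) (nat_lit 0) .nil)))))) (.g (nat_lit 5) .nil .nil))) 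
(.lf (nat_lit 128607) (.g (nat_lit 632) (.e (nat_lit 7592) (nat_lit 407) (.e (nat_lit 73731) (nat_lit 0) (.e (nat_lit 7261) (nat_lit 384) (.e (nat_lit 57424) (nat_lit 14) .nil)))) .nil))) (.nd (nat_lit 6) 
(.lf (nat_lit 128575) (.g (nat_lit 815) (.e (nat_lit 7591) (nat_lit 407) (.e (nat_lit 73776) (nat_lit 26) (.e (nat_lit 778466) (nat_lit 11) (.e (nat_lit 24632) (nat_lit 9) .nil)))) .nil)) 
(.lf (nat_lit 128639) (.g (nat_lit 866) (.e (nat_lit 7592) (nat_lit 407) (.e (nat_lit 73751) (nat_lit 7) (.e (nat_lit 548891) (nat_lit 11) (.e (nat_lit 81952) (nat_lit 22) .nil)))) .nil)))))))))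

noncomputable def tv1721 : DT := (.nd (nat_lit 0) (.nd (nat_lit 1) (.nd (nat_lit 2) (.nd (nat_lit 3) (.nd (nat_lit 4) (.nd (nat_lit 5) (.nd (nat_lit 6) 
(.lf (nat_lit 128640) (.g (nat_lit 1954) (.e (nat_lit 7592) (nat_lit 407) (.e (nat_lit 73751) (nat_lit 7) (.e (nat_lit 548891) (nat_lit 11) (.e (nat_lit 81953) (nat_lit 22) (.e (nat_lit 90133) (nat_lit 9) (.e (nat_lit 2400) (nat_lit 157) .nil)))))) (.g (nat_lit 6) .nil .nil))) 
(.lf (nat_lit 128704) (.g (nat_lit 1016) (.e (nat_lit 7592) (nat_lit 407) (.e (nat_lit 73775) (nat_lit 26) (.e (nat_lit 778359) (nat_lit 9) (.e (nat_lit 312) (nat_lit 23) (.e (nat_lit 352276) (nat_lit 11) (.e (nat_lit 425990) (nat_lit 0) .nil)))))) (.g (nat_lit 0) .nil .nil)))) (.nd (nat_lit 6) 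
(.lf (nat_lit 128672) (.g (nat_lit 1469) (.e (nat_lit 7592) (nat_lit 407) (.e (nat_lit 73755) (nat_lit 8) (.e (nat_lit 557066) (nat_lit 9) (.e (nat_lit 321) (nat_lit 24) .nil)))) .nil)) 
(.lf (nat_lit 128736) (.g (nat_lit 1421) (.e (nat_lit 7593) (nat_lit 407) (.e (nat_lit 73729) (nat_lit 0) (.e (nat_lit 7124) (nat_lit 382) (.e (nat_lit 1193) (nat_lit 88) .nil)))) .nil)))) (.nd (nat_lit 5) (.nd (nat_lit 6) 
(.lf (nat_lit 128656) (.g (nat_lit 647) (.e (nat_lit 7592) (nat_lit 407) (.e (nat_lit 73753) (nat_lit 8) (.e (nat_lit 557081) (nat_lit 9) .nil))) .nil)) 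
(.lf (nat_lit 128720) (.g (nat_lit 1920) (.e (nat_lit 7593) (nat_lit 407) (.e (nat_lit 73729) (nat_lit 0) (.e (nat_lit 7122) (nat_lit 382) (.e (nat_lit 1036) (nat_lit 81) .nil)))) .nil))) (.nd (nat_lit 6) 
(.lf (nat_lit 128688) (.g (nat_lit 1091) (.e (nat_lit 7592) (nat_lit 407) (.e (nat_lit 73772) (nat_lit 24) (.e (nat_lit 761869) (nat_lit 5) (.e (nat_lit 1574) (nat_lit 110) (.e (nat_lit 352276) (nat_lit 11) (.e (nat_lit 425984) (nat_lit 0) .nil)))))) (.g (nat_lit 0) .nil .nil))) 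
(.lf (nat_lit 128752) (.g (nat_lit 2610) (.e (nat_lit 7593) (nat_lit 407) (.e (nat_lit 73729) (nat_lit 0) (.e (nat_lit 7125) (nat_lit 382) (.e (nat_lit 1224) (nat_lit 90) (.e (nat_lit 81925) (nat_lit 11) (.e (nat_lit 426010) (nat_lit 0) .nil)))))) (.g (nat_lit 5) .nil .nil)))))) (.nd (nat_lit 4) (.nd (nat_lit 5) (.nd (nat_lit 6) 
(.lf (nat_lit 128648) (.g (nat_lit 1944) (.e (nat_lit 7592) (nat_lit 407) (.e (nat_lit 73753) (nat_lit 8) (.e (nat_lit 557065) (nat_lit 9) (.e (nat_lit 336) (nat_lit 26) .nil)))) .nil)) 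
(.lf (nat_lit 128712) (.g (nat_lit 1182) (.e (nat_lit 7592) (nat_lit 407) (.e (nat_lit 73775) (nat_lit 26) (.e (nat_lit 778362) (nat_lit 9) (.e (nat_lit 332) (nat_lit 26) .nil)))) .nil))) (.nd (nat_lit 6) 
(.lf (nat_lit 128680) (.g (nat_lit 1604) (.e (nat_lit 7592) (nat_lit 407) (.e (nat_lit 73755) (nat_lit 8) (.e (nat_lit 557070) (nat_lit 9) (.e (nat_lit 313) (nat_lit 23) .nil)))) .nil)) 
(.lf (nat_lit 128744) (.g (nat_lit 1267) (.e (nat_lit 7593) (nat_lit 407) (.e (nat_lit 73729) (nat_lit 0) (.e (nat_lit 7125) (nat_lit 382) (.e (nat_lit 1183) (nat_lit 87) .nil)))) .nil)))) (.nd (nat_lit 5) (.nd (nat_lit 6) 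
(.lf (nat_lit 128664) (.g (nat_lit 1028) (.e (nat_lit 7592) (nat_lit 407) (.e (nat_lit 73754) (nat_lit 8) (.e (nat_lit 557073) (nat_lit 9) (.e (nat_lit 7936) (nat_lit 26) .nil)))) .nil)) 
(.lf (nat_lit 128728) (.g (nat_lit 1912) (.e (nat_lit 7593) (nat_lit 407) (.e (nat_lit 73729) (nat_lit 0) (.e (nat_lit 7122) (nat_lit 382) (.e (nat_lit 1296) (nat_lit 96) .nil)))) .nil))) (.nd (nat_lit 6) 
(.lf (nat_lit 128696) (.g (nat_lit 577) (.e (nat_lit 7592) (nat_lit 407) (.e (nat_lit 73773) (nat_lit 25) (.e (nat_lit 770057) (nat_lit 5) (.e (nat_lit 1575) (nat_lit 110) (.e (nat_lit 352276) (nat_lit 11) (.e (nat_lit 425990) (nat_lit 0) .nil)))))) (.g (nat_lit 0) .nil .nil))) 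
(.lf (nat_lit 128760) (.g (nat_lit 1322) (.e (nat_lit 7593) (nat_lit 407) (.e (nat_lit 73729) (nat_lit 0) (.e (nat_lit 7261) (nat_lit 384) (.e (nat_lit 57409) (nat_lit 12) (.e (nat_lit 336211) (nat_lit 13) .nil))))) .nil)))))) (.nd (nat_lit 3) (.nd (nat_lit 4) (.nd (nat_lit 5) (.nd (nat_lit 6) 
(.lf (nat_lit 128644) (.g (nat_lit 1718) (.e (nat_lit 7592) (nat_lit 407) (.e (nat_lit 73753) (nat_lit 8) (.e (nat_lit 557065) (nat_lit 9) (.e (nat_lit 7936) (nat_lit 23) .nil)))) .nil)) 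
(.lf (nat_lit 128708) (.g (nat_lit 2679) (.e (nat_lit 7592) (nat_lit 407) (.e (nat_lit 73775) (nat_lit 26) (.e (nat_lit 778362) (nat_lit 9) (.e (nat_lit 232) (nat_lit 21) (.e (nat_lit 336089) (nat_lit 9) .nil))))) .nil))) (.nd (nat_lit 6) 
(.lf (nat_lit 128676) (.g (nat_lit 1712) (.e (nat_lit 7592) (nat_lit 407) (.e (nat_lit 73755) (nat_lit 8) (.e (nat_lit 557067) (nat_lit 9) (.e (nat_lit 7936) (nat_lit 26) .nil)))) .nil)) 
(.lf (nat_lit 128740) (.g (nat_lit 2090) (.e (nat_lit 7593) (nat_lit 407) (.e (nat_lit 73729) (nat_lit 0) (.e (nat_lit 7124) (nat_lit 382) (.e (nat_lit 1222) (nat_lit 90) (.e (nat_lit 81927) (nat_lit 11) .nil))))) .nil)))) (.nd (nat_lit 5) (.nd (nat_lit 6) 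
(.lf (nat_lit 128660) (.g (nat_lit 2131) (.e (nat_lit 7592) (nat_lit 407) (.e (nat_lit 73754) (nat_lit 8) (.e (nat_lit 557070) (nat_lit 9) (.e (nat_lit 313) (nat_lit 23) (.e (nat_lit 352312) (nat_lit 22) (.e (nat_lit 90133) (nat_lit 9) (.e (nat_lit 2400) (nat_lit 157) .nil))))))) (.g (nat_lit 5) .nil .nil))) 
(.lf (nat_lit 128724) (.g (nat_lit 2448) (.e (nat_lit 7593) (nat_lit 407) (.e (nat_lit 73729) (nat_lit 0) (.e (nat_lit 7122) (nat_lit 382) (.e (nat_lit 1193) (nat_lit 88) (.e (nat_lit 65626) (nat_lit 13) .nil))))) .nil))) (.nd (nat_lit 6) 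
(.lf (nat_lit 128692) (.g (nat_lit 767) (.e (nat_lit 7592) (nat_lit 407) (.e (nat_lit 73773) (nat_lit 25) (.e (nat_lit 770055) (nat_lit 5) (.e (nat_lit 1575) (nat_lit 110) (.e (nat_lit 352276) (nat_lit 11) (.e (nat_lit 425984) (nat_lit 0) .nil)))))) (.g (nat_lit 0) .nil .nil))) 
(.lf (nat_lit 128756) (.g (nat_lit 608) (.e (nat_lit 7593) (nat_lit 407) (.e (nat_lit 73729) (nat_lit 0) (.e (nat_lit 7132) (nat_lit 382) .nil))) .nil))))) (.nd (nat_lit 4) (.nd (nat_lit 5) (.nd (nat_lit 6) 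
(.lf (nat_lit 128652) (.g (nat_lit 449) (.e (nat_lit 7592) (nat_lit 407) (.e (nat_lit 73753) (nat_lit 8) (.e (nat_lit 557068) (nat_lit 9) .nil))) .nil)) 
(.lf (nat_lit 128716) (.g (nat_lit 585) (.e (nat_lit 7593) (nat_lit 407) (.e (nat_lit 73729) (nat_lit 0) (.e (nat_lit 4159) (nat_lit 250) .nil))) .nil))) (.nd (nat_lit 6) 
(.lf (nat_lit 128684) (.g (nat_lit 614) (.e (nat_lit 7592) (nat_lit 407) (.e (nat_lit 73772) (nat_lit 24) (.e (nat_lit 761866) (nat_lit 5) (.e (nat_lit 1555) (nat_lit 110) (.e (nat_lit 360192) (nat_lit 11) .nil))))) .nil)) 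
(.lf (nat_lit 128748) (.g (nat_lit 1885) (.e (nat_lit 7593) (nat_lit 407) (.e (nat_lit 73729) (nat_lit 0) (.e (nat_lit 7125) (nat_lit 382) (.e (nat_lit 1222) (nat_lit 90) (.e (nat_lit 81927) (nat_lit 11) .nil))))) .nil)))) (.nd (nat_lit 5) (.nd (nat_lit 6) 
(.lf (nat_lit 128668) (.g (nat_lit 2110) (.e (nat_lit 7592) (nat_lit 407) (.e (nat_lit 73755) (nat_lit 8) (.e (nat_lit 557065) (nat_lit 9) (.e (nat_lit 334) (nat_lit 26) (.e (nat_lit 376864) (nat_lit 22) .nil))))) .nil)) 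
(.lf (nat_lit 128732) (.g (nat_lit 457) (.e (nat_lit 7593) (nat_lit 407) (.e (nat_lit 73729) (nat_lit 0) (.e (nat_lit 7124) (nat_lit 382) .nil))) .nil))) (.nd (nat_lit 6) 
(.lf (nat_lit 128700) (.g (nat_lit 578) (.e (nat_lit 7592) (nat_lit 407) (.e (nat_lit 73774) (nat_lit 26) (.e (nat_lit 778334) (nat_lit 9) (.e (nat_lit 311) (nat_lit 23) (.e (nat_lit 352276) (nat_lit 11) (.e (nat_lit 425990) (nat_lit 0) .nil)))))) (.g (nat_lit 0) .nil .nil))) 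
(.lf (nat_lit 128764) (.g (nat_lit 2945) (.e (nat_lit 7593) (nat_lit 407) (.e (nat_lit 73729) (nat_lit 0) (.e (nat_lit 7261) (nat_lit 384) (.e (nat_lit 57437) (nat_lit 17) (.e (nat_lit 376842) (nat_lit 11) (.e (nat_lit 426010) (nat_lit 0) .nil)))))) (.g (nat_lit 5) .nil .nil)))))))) (.nd (nat_lit 2) (.nd (nat_lit 3) (.nd (nat_lit 4) (.nd (nat_lit 5) (.nd (nat_lit 6) 
(.lf (nat_lit 128642) (.g (nat_lit 2624) (.e (nat_lit 7592) (nat_lit 407) (.e (nat_lit 73753) (nat_lit 8) (.e (nat_lit 557065) (nat_lit 9) (.e (nat_lit 309) (nat_lit 23) (.e (nat_lit 352312) (nat_lit 22) (.e (nat_lit 90133) (nat_lit 9) (.e (nat_lit 2400) (nat_lit 157) .nil))))))) (.g (nat_lit 5) .nil .nil))) 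
(.lf (nat_lit 128706) (.g (nat_lit 1003) (.e (nat_lit 7592) (nat_lit 407) (.e (nat_lit 73775) (nat_lit 26) (.e (nat_lit 778360) (nat_lit 9) (.e (nat_lit 312) (nat_lit 23) (.e (nat_lit 352276) (nat_lit 11) (.e (nat_lit 425990) (nat_lit 0) .nil)))))) (.g (nat_lit 0) .nil .nil)))) (.nd (nat_lit 6) 
(.lf (nat_lit 128674) (.g (nat_lit 1662) (.e (nat_lit 7592) (nat_lit 407) (.e (nat_lit 73755) (nat_lit 8) (.e (nat_lit 557066) (nat_lit 9) (.e (nat_lit 334) (nat_lit 26) (.e (nat_lit 376865) (nat_lit 22) .nil))))) .nil)) 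
(.lf (nat_lit 128738) (.g (nat_lit 2298) (.e (nat_lit 7593) (nat_lit 407) (.e (nat_lit 73729) (nat_lit 0) (.e (nat_lit 7124) (nat_lit 382) (.e (nat_lit 1201) (nat_lit 88) (.e (nat_lit 65596) (nat_lit 9) (.e (nat_lit 336412) (nat_lit 27) (.e (nat_lit 426011) (nat_lit 0) .nil))))))) (.g (nat_lit 4) .nil .nil))))) (.nd (nat_lit 5) (.nd (nat_lit 6) 
(.lf (nat_lit 128658) (.g (nat_lit 1000) (.e (nat_lit 7592) (nat_lit 407) (.e (nat_lit 73754) (nat_lit 8) (.e (nat_lit 557064) (nat_lit 9) (.e (nat_lit 314) (nat_lit 23) .nil)))) .nil)) 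
(.lf (nat_lit 128722) (.g (nat_lit 1920) (.e (nat_lit 7593) (nat_lit 407) (.e (nat_lit 73729) (nat_lit 0) (.e (nat_lit 7122) (nat_lit 382) (.e (nat_lit 1191) (nat_lit 88) .nil)))) .nil))) (.nd (nat_lit 6) 
(.lf (nat_lit 128690) (.g (nat_lit 259) (.e (nat_lit 7592) (nat_lit 407) (.e (nat_lit 73772) (nat_lit 24) (.e (nat_lit 769792) (nat_lit 10) .nil))) .nil)) 
(.lf (nat_lit 128754) (.g (nat_lit 1501) (.e (nat_lit 7593) (nat_lit 407) (.e (nat_lit 73729) (nat_lit 0) (.e (nat_lit 7125) (nat_lit 382) (.e (nat_lit 1296) (nat_lit 96) (.e (nat_lit 131125) (nat_lit 13) .nil))))) .nil))))) (.nd (nat_lit 4) (.nd (nat_lit 5) (.nd (nat_lit 6) 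
(.lf (nat_lit 128650) (.g (nat_lit 1837) (.e (nat_lit 7592) (nat_lit 407) (.e (nat_lit 73753) (nat_lit 8) (.e (nat_lit 557066) (nat_lit 9) (.e (nat_lit 310) (nat_lit 23) (.e (nat_lit 352312) (nat_lit 22) .nil))))) .nil)) 
(.lf (nat_lit 128714) (.g (nat_lit 4867) (.e (nat_lit 7593) (nat_lit 407) (.e (nat_lit 73728) (nat_lit 0) (.e (nat_lit 3975) (nat_lit 239) (.e (nat_lit 1221) (nat_lit 90) (.e (nat_lit 81956) (nat_lit 23) (.e (nat_lit 98320) (nat_lit 17) .nil)))))) (.g (nat_lit 6) .nil .nil)))) (.nd (nat_lit 6) 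
(.lf (nat_lit 128682) (.g (nat_lit 1517) (.e (nat_lit 7592) (nat_lit 407) (.e (nat_lit 73755) (nat_lit 8) (.e (nat_lit 557074) (nat_lit 9) (.e (nat_lit 7936) (nat_lit 23) .nil)))) .nil)) 
(.lf (nat_lit 128746) (.g (nat_lit 2066) (.e (nat_lit 7593) (nat_lit 407) (.e (nat_lit 73729) (nat_lit 0) (.e (nat_lit 7125) (nat_lit 382) (.e (nat_lit 1201) (nat_lit 88) (.e (nat_lit 65626) (nat_lit 13) .nil))))) .nil)))) (.nd (nat_lit 5) (.nd (nat_lit 6) 
(.lf (nat_lit 128666) (.g (nat_lit 1197) (.e (nat_lit 7592) (nat_lit 407) (.e (nat_lit 73754) (nat_lit 8) (.e (nat_lit 557074) (nat_lit 9) (.e (nat_lit 7936) (nat_lit 26) .nil)))) .nil)) 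
(.lf (nat_lit 128730) (.g (nat_lit 2571) (.e (nat_lit 7593) (nat_lit 407) (.e (nat_lit 73729) (nat_lit 0) (.e (nat_lit 7122) (nat_lit 382) (.e (nat_lit 1296) (nat_lit 96) (.e (nat_lit 131128) (nat_lit 13) .nil))))) .nil))) (.nd (nat_lit 6) 
(.lf (nat_lit 128698) (.g (nat_lit 867) (.e (nat_lit 7592) (nat_lit 407) (.e (nat_lit 73773) (nat_lit 25) (.e (nat_lit 770058) (nat_lit 5) (.e (nat_lit 1575) (nat_lit 110) (.e (nat_lit 352276) (nat_lit 11) (.e (nat_lit 425984) (nat_lit 0) .nil)))))) (.g (nat_lit 0) .nil .nil))) 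
(.lf (nat_lit 128762) (.g (nat_lit 1505) (.e (nat_lit 7593) (nat_lit 407) (.e (nat_lit 73729) (nat_lit 0) (.e (nat_lit 7261) (nat_lit 384) (.e (nat_lit 57436) (nat_lit 17) (.e (nat_lit 376838) (nat_lit 11) .nil))))) .nil)))))) (.nd (nat_lit 3) (.nd (nat_lit 4) (.nd (nat_lit 5) (.nd (nat_lit 6) 
(.lf (nat_lit 128646) (.g (nat_lit 2533) (.e (nat_lit 7592) (nat_lit 407) (.e (nat_lit 73753) (nat_lit 8) (.e (nat_lit 557065) (nat_lit 9) (.e (nat_lit 334) (nat_lit 26) (.e (nat_lit 376865) (nat_lit 22) .nil))))) .nil)) 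
(.lf (nat_lit 128710) (.g (nat_lit 2013) (.e (nat_lit 7592) (nat_lit 407) (.e (nat_lit 73775) (nat_lit 26) (.e (nat_lit 778362) (nat_lit 9) (.e (nat_lit 312) (nat_lit 23) (.e (nat_lit 352276) (nat_lit 11) (.e (nat_lit 425990) (nat_lit 0) .nil)))))) (.g (nat_lit 0) .nil .nil)))) (.nd (nat_lit 6) 
(.lf (nat_lit 128678) (.g (nat_lit 960) (.e (nat_lit 7592) (nat_lit 407) (.e (nat_lit 73755) (nat_lit 8) (.e (nat_lit 557068) (nat_lit 9) (.e (nat_lit 7936) (nat_lit 26) .nil)))) .nil)) 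
(.lf (nat_lit 128742) (.g (nat_lit 1883) (.e (nat_lit 7593) (nat_lit 407) (.e (nat_lit 73729) (nat_lit 0) (.e (nat_lit 7124) (nat_lit 382) (.e (nat_lit 1296) (nat_lit 96) (.e (nat_lit 131125) (nat_lit 13) .nil))))) .nil)))) (.nd (nat_lit 5) (.nd (nat_lit 6) 
(.lf (nat_lit 128662) (.g (nat_lit 1453) (.e (nat_lit 7592) (nat_lit 407) (.e (nat_lit 73754) (nat_lit 8) (.e (nat_lit 557070) (nat_lit 9) (.e (nat_lit 7936) (nat_lit 26) .nil)))) .nil)) 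
(.lf (nat_lit 128726) (.g (nat_lit 1976) (.e (nat_lit 7593) (nat_lit 407) (.e (nat_lit 73729) (nat_lit 0) (.e (nat_lit 7122) (nat_lit 382) (.e (nat_lit 1201) (nat_lit 88) (.e (nat_lit 65626) (nat_lit 13) .nil))))) .nil))) (.nd (nat_lit 6) 
(.lf (nat_lit 128694) (.g (nat_lit 505) (.e (nat_lit 7592) (nat_lit 407) (.e (nat_lit 73773) (nat_lit 25) (.e (nat_lit 770057) (nat_lit 5) (.e (nat_lit 1559) (nat_lit 110) (.e (nat_lit 352276) (nat_lit 11) .nil))))) .nil)) 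
(.lf (nat_lit 128758) (.g (nat_lit 3025) (.e (nat_lit 7593) (nat_lit 407) (.e (nat_lit 73729) (nat_lit 0) (.e (nat_lit 7261) (nat_lit 384) (.e (nat_lit 57406) (nat_lit 12) (.e (nat_lit 336211) (nat_lit 13) (.e (nat_lit 393232) (nat_lit 17) .nil)))))) (.g (nat_lit 5) .nil .nil)))))) (.nd (nat_lit 4) (.nd (nat_lit 5) (.nd (nat_lit 6) 
(.lf (nat_lit 128654) (.g (nat_lit 1308) (.e (nat_lit 7592) (nat_lit 407) (.e (nat_lit 73753) (nat_lit 8) (.e (nat_lit 557070) (nat_lit 9) (.e (nat_lit 7936) (nat_lit 26) .nil)))) .nil)) 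
(.lf (nat_lit 128718) (.g (nat_lit 489) (.e (nat_lit 7593) (nat_lit 407) (.e (nat_lit 73729) (nat_lit 0) (.e (nat_lit 7122) (nat_lit 382) .nil))) .nil))) (.nd (nat_lit 6) 
(.lf (nat_lit 128686) (.g (nat_lit 757) (.e (nat_lit 7592) (nat_lit 407) (.e (nat_lit 73772) (nat_lit 24) (.e (nat_lit 761866) (nat_lit 5) (.e (nat_lit 1574) (nat_lit 110) (.e (nat_lit 352276) (nat_lit 11) (.e (nat_lit 425990) (nat_lit 0) .nil)))))) (.g (nat_lit 0) .nil .nil))) 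
(.lf (nat_lit 128750) (.g (nat_lit 1744) (.e (nat_lit 7593) (nat_lit 407) (.e (nat_lit 73729) (nat_lit 0) (.e (nat_lit 7125) (nat_lit 382) (.e (nat_lit 1224) (nat_lit 90) (.e (nat_lit 81925) (nat_lit 11) .nil))))) .nil)))) (.nd (nat_lit 5) (.nd (nat_lit 6) 
(.lf (nat_lit 128670) (.g (nat_lit 1572) (.e (nat_lit 7592) (nat_lit 407) (.e (nat_lit 73755) (nat_lit 8) (.e (nat_lit 557066) (nat_lit 9) (.e (nat_lit 310) (nat_lit 23) .nil)))) .nil)) 
(.lf (nat_lit 128734) (.g (nat_lit 1417) (.e (nat_lit 7593) (nat_lit 407) (.e (nat_lit 73729) (nat_lit 0) (.e (nat_lit 7124) (nat_lit 382) (.e (nat_lit 1036) (nat_lit 81) .nil)))) .nil))) (.nd (nat_lit 6) 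
(.lf (nat_lit 128702) (.g (nat_lit 682) (.e (nat_lit 7592) (nat_lit 407) (.e (nat_lit 73774) (nat_lit 26) (.e (nat_lit 778339) (nat_lit 9) (.e (nat_lit 311) (nat_lit 23) (.e (nat_lit 352276) (nat_lit 11) (.e (nat_lit 425984) (nat_lit 0) .nil)))))) (.g (nat_lit 0) .nil .nil))) 
(.lf (nat_lit 128766) (.g (nat_lit 1707) (.e (nat_lit 7593) (nat_lit 407) (.e (nat_lit 73729) (nat_lit 0) (.e (nat_lit 7263) (nat_lit 384) (.e (nat_lit 57435) (nat_lit 17) (.e (nat_lit 376842) (nat_lit 11) .nil))))) .nil)))))))) (.nd (nat_lit 1) (.nd (nat_lit 2) (.nd (nat_lit 3) (.nd (nat_lit 4) (.nd (nat_lit 5) (.nd (nat_lit 6) 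
(.lf (nat_lit 128641) (.g (nat_lit 647) (.e (nat_lit 7592) (nat_lit 407) (.e (nat_lit 73753) (nat_lit 8) (.e (nat_lit 557064) (nat_lit 9) .nil))) .nil)) 
(.lf (nat_lit 128705) (.g (nat_lit 310) (.e (nat_lit 7592) (nat_lit 407) (.e (nat_lit 73775) (nat_lit 26) (.e (nat_lit 778360) (nat_lit 9) .nil))) .nil))) (.nd (nat_lit 6) 
(.lf (nat_lit 128673) (.g (nat_lit 1662) (.e (nat_lit 7592) (nat_lit 407) (.e (nat_lit 73755) (nat_lit 8) (.e (nat_lit 557066) (nat_lit 9) (.e (nat_lit 334) (nat_lit 26) (.e (nat_lit 376862) (nat_lit 22) .nil))))) .nil)) 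
(.lf (nat_lit 128737) (.g (nat_lit 1781) (.e (nat_lit 7593) (nat_lit 407) (.e (nat_lit 73729) (nat_lit 0) (.e (nat_lit 7124) (nat_lit 382) (.e (nat_lit 1193) (nat_lit 88) (.e (nat_lit 65626) (nat_lit 13) .nil))))) .nil)))) (.nd (nat_lit 5) (.nd (nat_lit 6) 
(.lf (nat_lit 128657) (.g (nat_lit 630) (.e (nat_lit 7592) (nat_lit 407) (.e (nat_lit 73753) (nat_lit 8) (.e (nat_lit 564992) (nat_lit 9) .nil))) .nil)) 
(.lf (nat_lit 128721) (.g (nat_lit 2259) (.e (nat_lit 7593) (nat_lit 407) (.e (nat_lit 73729) (nat_lit 0) (.e (nat_lit 7122) (nat_lit 382) (.e (nat_lit 1183) (nat_lit 87) (.e (nat_lit 65280) (nat_lit 191) .nil))))) .nil))) (.nd (nat_lit 6) 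
(.lf (nat_lit 128689) (.g (nat_lit 1002) (.e (nat_lit 7592) (nat_lit 407) (.e (nat_lit 73772) (nat_lit 24) (.e (nat_lit 761869) (nat_lit 5) (.e (nat_lit 1574) (nat_lit 110) (.e (nat_lit 352276) (nat_lit 11) (.e (nat_lit 425990) (nat_lit 0) .nil)))))) (.g (nat_lit 0) .nil .nil))) 
(.lf (nat_lit 128753) (.g (nat_lit 966) (.e (nat_lit 7593) (nat_lit 407) (.e (nat_lit 73729) (nat_lit 0) (.e (nat_lit 7125) (nat_lit 382) (.e (nat_lit 1296) (nat_lit 96) .nil)))) .nil))))) (.nd (nat_lit 4) (.nd (nat_lit 5) (.nd (nat_lit 6) 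
(.lf (nat_lit 128649) (.g (nat_lit 1718) (.e (nat_lit 7592) (nat_lit 407) (.e (nat_lit 73753) (nat_lit 8) (.e (nat_lit 557065) (nat_lit 9) (.e (nat_lit 7936) (nat_lit 26) .nil)))) .nil)) 
(.lf (nat_lit 128713) (.g (nat_lit 1595) (.e (nat_lit 7592) (nat_lit 407) (.e (nat_lit 73775) (nat_lit 26) (.e (nat_lit 778362) (nat_lit 9) (.e (nat_lit 334) (nat_lit 26) (.e (nat_lit 376839) (nat_lit 11) .nil))))) .nil))) (.nd (nat_lit 6) 
(.lf (nat_lit 128681) (.g (nat_lit 1412) (.e (nat_lit 7592) (nat_lit 407) (.e (nat_lit 73755) (nat_lit 8) (.e (nat_lit 557070) (nat_lit 9) (.e (nat_lit 7936) (nat_lit 23) .nil)))) .nil)) 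
(.lf (nat_lit 128745) (.g (nat_lit 2529) (.e (nat_lit 7593) (nat_lit 407) (.e (nat_lit 73729) (nat_lit 0) (.e (nat_lit 7125) (nat_lit 382) (.e (nat_lit 1201) (nat_lit 88) (.e (nat_lit 65596) (nat_lit 9) (.e (nat_lit 336412) (nat_lit 27) (.e (nat_lit 426011) (nat_lit 0) .nil))))))) (.g (nat_lit 4) .nil .nil))))) (.nd (nat_lit 5) (.nd (nat_lit 6) 
(.lf (nat_lit 128665) (.g (nat_lit 1197) (.e (nat_lit 7592) (nat_lit 407) (.e (nat_lit 73754) (nat_lit 8) (.e (nat_lit 557074) (nat_lit 9) (.e (nat_lit 7936) (nat_lit 23) .nil)))) .nil)) 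
(.lf (nat_lit 128729) (.g (nat_lit 2685) (.e (nat_lit 7593) (nat_lit 407) (.e (nat_lit 73729) (nat_lit 0) (.e (nat_lit 7122) (nat_lit 382) (.e (nat_lit 1296) (nat_lit 96) (.e (nat_lit 131125) (nat_lit 13) .nil))))) .nil))) (.nd (nat_lit 6) 
(.lf (nat_lit 128697) (.g (nat_lit 697) (.e (nat_lit 7592) (nat_lit 407) (.e (nat_lit 73773) (nat_lit 25) (.e (nat_lit 770058) (nat_lit 5) (.e (nat_lit 1559) (nat_lit 110) (.e (nat_lit 352276) (nat_lit 11) .nil))))) .nil)) 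
(.lf (nat_lit 128761) (.g (nat_lit 865) (.e (nat_lit 7593) (nat_lit 407) (.e (nat_lit 73729) (nat_lit 0) (.e (nat_lit 7261) (nat_lit 384) (.e (nat_lit 57415) (nat_lit 12) .nil)))) .nil)))))) (.nd (nat_lit 3) (.nd (nat_lit 4) (.nd (nat_lit 5) (.nd (nat_lit 6) 
(.lf (nat_lit 128645) (.g (nat_lit 2534) (.e (nat_lit 7592) (nat_lit 407) (.e (nat_lit 73753) (nat_lit 8) (.e (nat_lit 557065) (nat_lit 9) (.e (nat_lit 334) (nat_lit 26) (.e (nat_lit 376862) (nat_lit 22) (.e (nat_lit 90133) (nat_lit 9) (.e (nat_lit 2400) (nat_lit 157) .nil))))))) (.g (nat_lit 4) .nil .nil))) 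
(.lf (nat_lit 128709) (.g (nat_lit 1195) (.e (nat_lit 7592) (nat_lit 407) (.e (nat_lit 73775) (nat_lit 26) (.e (nat_lit 778362) (nat_lit 9) (.e (nat_lit 309) (nat_lit 23) .nil)))) .nil))) (.nd (nat_lit 6) 
(.lf (nat_lit 128677) (.g (nat_lit 960) (.e (nat_lit 7592) (nat_lit 407) (.e (nat_lit 73755) (nat_lit 8) (.e (nat_lit 557068) (nat_lit 9) (.e (nat_lit 7936) (nat_lit 23) .nil)))) .nil)) 
(.lf (nat_lit 128741) (.g (nat_lit 1343) (.e (nat_lit 7593) (nat_lit 407) (.e (nat_lit 73729) (nat_lit 0) (.e (nat_lit 7124) (nat_lit 382) (.e (nat_lit 1296) (nat_lit 96) .nil)))) .nil)))) (.nd (nat_lit 5) (.nd (nat_lit 6) 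
(.lf (nat_lit 128661) (.g (nat_lit 1502) (.e (nat_lit 7592) (nat_lit 407) (.e (nat_lit 73754) (nat_lit 8) (.e (nat_lit 557070) (nat_lit 9) (.e (nat_lit 333) (nat_lit 26) .nil)))) .nil)) 
(.lf (nat_lit 128725) (.g (nat_lit 2212) (.e (nat_lit 7593) (nat_lit 407) (.e (nat_lit 73729) (nat_lit 0) (.e (nat_lit 7122) (nat_lit 382) (.e (nat_lit 1201) (nat_lit 88) (.e (nat_lit 65596) (nat_lit 9) (.e (nat_lit 336412) (nat_lit 27) (.e (nat_lit 426011) (nat_lit 0) .nil))))))) (.g (nat_lit 4) .nil .nil)))) (.nd (nat_lit 6) 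
(.lf (nat_lit 128693) (.g (nat_lit 672) (.e (nat_lit 7592) (nat_lit 407) (.e (nat_lit 73773) (nat_lit 25) (.e (nat_lit 770055) (nat_lit 5) (.e (nat_lit 1575) (nat_lit 110) (.e (nat_lit 352276) (nat_lit 11) (.e (nat_lit 425990) (nat_lit 0) .nil)))))) (.g (nat_lit 0) .nil .nil))) 
(.lf (nat_lit 128757) (.g (nat_lit 408) (.e (nat_lit 7593) (nat_lit 407) (.e (nat_lit 73729) (nat_lit 0) (.e (nat_lit 7261) (nat_lit 384) .nil))) .nil))))) (.nd (nat_lit 4) (.nd (nat_lit 5) (.nd (nat_lit 6) 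
(.lf (nat_lit 128653) (.g (nat_lit 1579) (.e (nat_lit 7592) (nat_lit 407) (.e (nat_lit 73753) (nat_lit 8) (.e (nat_lit 557070) (nat_lit 9) (.e (nat_lit 333) (nat_lit 26) (.e (nat_lit 376865) (nat_lit 22) .nil))))) .nil)) 
(.lf (nat_lit 128717) (.g (nat_lit 460) (.e (nat_lit 7593) (nat_lit 407) (.e (nat_lit 73729) (nat_lit 0) (.e (nat_lit 7119) (nat_lit 382) .nil))) .nil))) (.nd (nat_lit 6) 
(.lf (nat_lit 128685) (.g (nat_lit 844) (.e (nat_lit 7592) (nat_lit 407) (.e (nat_lit 73772) (nat_lit 24) (.e (nat_lit 761866) (nat_lit 5) (.e (nat_lit 1574) (nat_lit 110) (.e (nat_lit 352276) (nat_lit 11) (.e (nat_lit 425984) (nat_lit 0) .nil)))))) (.g (nat_lit 0) .nil .nil))) 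
(.lf (nat_lit 128749) (.g (nat_lit 3355) (.e (nat_lit 7593) (nat_lit 407) (.e (nat_lit 73729) (nat_lit 0) (.e (nat_lit 7125) (nat_lit 382) (.e (nat_lit 1222) (nat_lit 90) (.e (nat_lit 81927) (nat_lit 11) (.e (nat_lit 426012) (nat_lit 0) .nil)))))) (.g (nat_lit 0) .nil .nil))))) (.nd (nat_lit 5) (.nd (nat_lit 6) 
(.lf (nat_lit 128669) (.g (nat_lit 1880) (.e (nat_lit 7592) (nat_lit 407) (.e (nat_lit 73755) (nat_lit 8) (.e (nat_lit 557066) (nat_lit 9) (.e (nat_lit 309) (nat_lit 23) (.e (nat_lit 352312) (nat_lit 22) .nil))))) .nil)) 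
(.lf (nat_lit 128733) (.g (nat_lit 1123) (.e (nat_lit 7593) (nat_lit 407) (.e (nat_lit 73729) (nat_lit 0) (.e (nat_lit 7124) (nat_lit 382) (.e (nat_lit 1016) (nat_lit 81) .nil)))) .nil))) (.nd (nat_lit 6) 
(.lf (nat_lit 128701) (.g (nat_lit 475) (.e (nat_lit 7592) (nat_lit 407) (.e (nat_lit 73774) (nat_lit 26) (.e (nat_lit 778337) (nat_lit 9) (.e (nat_lit 311) (nat_lit 23) (.e (nat_lit 352276) (nat_lit 11) (.e (nat_lit 425990) (nat_lit 0) .nil)))))) (.g (nat_lit 0) .nil .nil))) 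
(.lf (nat_lit 128765) (.g (nat_lit 1975) (.e (nat_lit 7593) (nat_lit 407) (.e (nat_lit 73729) (nat_lit 0) (.e (nat_lit 7263) (nat_lit 384) (.e (nat_lit 57409) (nat_lit 12) (.e (nat_lit 336211) (nat_lit 13) (.e (nat_lit 393231) (nat_lit 17) .nil)))))) (.g (nat_lit 4) .nil .nil)))))))) (.nd (nat_lit 2) (.nd (nat_lit 3) (.nd (nat_lit 4) (.nd (nat_lit 5) (.nd (nat_lit 6) 
(.lf (nat_lit 128643) (.g (nat_lit 1930) (.e (nat_lit 7592) (nat_lit 407) (.e (nat_lit 73753) (nat_lit 8) (.e (nat_lit 557065) (nat_lit 9) (.e (nat_lit 310) (nat_lit 23) .nil)))) .nil)) 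
(.lf (nat_lit 128707) (.g (nat_lit 1447) (.e (nat_lit 7592) (nat_lit 407) (.e (nat_lit 73775) (nat_lit 26) (.e (nat_lit 778361) (nat_lit 9) (.e (nat_lit 312) (nat_lit 23) (.e (nat_lit 352276) (nat_lit 11) (.e (nat_lit 425990) (nat_lit 0) .nil)))))) (.g (nat_lit 0) .nil .nil)))) (.nd (nat_lit 6) 
(.lf (nat_lit 128675) (.g (nat_lit 1712) (.e (nat_lit 7592) (nat_lit 407) (.e (nat_lit 73755) (nat_lit 8) (.e (nat_lit 557067) (nat_lit 9) (.e (nat_lit 7936) (nat_lit 23) .nil)))) .nil)) 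
(.lf (nat_lit 128739) (.g (nat_lit 1913) (.e (nat_lit 7593) (nat_lit 407) (.e (nat_lit 73729) (nat_lit 0) (.e (nat_lit 7124) (nat_lit 382) (.e (nat_lit 1201) (nat_lit 88) (.e (nat_lit 65626) (nat_lit 13) .nil))))) .nil)))) (.nd (nat_lit 5) (.nd (nat_lit 6) 
(.lf (nat_lit 128659) (.g (nat_lit 1000) (.e (nat_lit 7592) (nat_lit 407) (.e (nat_lit 73754) (nat_lit 8) (.e (nat_lit 557064) (nat_lit 9) (.e (nat_lit 334) (nat_lit 26) .nil)))) .nil)) 
(.lf (nat_lit 128723) (.g (nat_lit 1920) (.e (nat_lit 7593) (nat_lit 407) (.e (nat_lit 73729) (nat_lit 0) (.e (nat_lit 7122) (nat_lit 382) (.e (nat_lit 1193) (nat_lit 88) .nil)))) .nil))) (.nd (nat_lit 6) 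
(.lf (nat_lit 128691) (.g (nat_lit 597) (.e (nat_lit 7592) (nat_lit 407) (.e (nat_lit 73773) (nat_lit 25) (.e (nat_lit 770055) (nat_lit 5) (.e (nat_lit 1559) (nat_lit 110) (.e (nat_lit 352276) (nat_lit 11) .nil))))) .nil)) 
(.lf (nat_lit 128755) (.g (nat_lit 585) (.e (nat_lit 7593) (nat_lit 407) (.e (nat_lit 73729) (nat_lit 0) (.e (nat_lit 7128) (nat_lit 382) .nil))) .nil))))) (.nd (nat_lit 4) (.nd (nat_lit 5) (.nd (nat_lit 6) 
(.lf (nat_lit 128651) (.g (nat_lit 1860) (.e (nat_lit 7592) (nat_lit 407) (.e (nat_lit 73753) (nat_lit 8) (.e (nat_lit 557066) (nat_lit 9) (.e (nat_lit 321) (nat_lit 24) (.e (nat_lit 360460) (nat_lit 1) .nil))))) .nil)) 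
(.lf (nat_lit 128715) (.g (nat_lit 587) (.e (nat_lit 7593) (nat_lit 407) (.e (nat_lit 73729) (nat_lit 0) (.e (nat_lit 4153) (nat_lit 249) .nil))) .nil))) (.nd (nat_lit 6) 
(.lf (nat_lit 128683) (.g (nat_lit 1517) (.e (nat_lit 7592) (nat_lit 407) (.e (nat_lit 73755) (nat_lit 8) (.e (nat_lit 557074) (nat_lit 9) (.e (nat_lit 7936) (nat_lit 26) .nil)))) .nil)) 
(.lf (nat_lit 128747) (.g (nat_lit 2236) (.e (nat_lit 7593) (nat_lit 407) (.e (nat_lit 73729) (nat_lit 0) (.e (nat_lit 7125) (nat_lit 382) (.e (nat_lit 1222) (nat_lit 90) (.e (nat_lit 81925) (nat_lit 11) .nil))))) .nil)))) (.nd (nat_lit 5) (.nd (nat_lit 6) 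
(.lf (nat_lit 128667) (.g (nat_lit 1746) (.e (nat_lit 7592) (nat_lit 407) (.e (nat_lit 73755) (nat_lit 8) (.e (nat_lit 557065) (nat_lit 9) (.e (nat_lit 309) (nat_lit 23) (.e (nat_lit 352312) (nat_lit 22) .nil))))) .nil)) 
(.lf (nat_lit 128731) (.g (nat_lit 1920) (.e (nat_lit 7593) (nat_lit 407) (.e (nat_lit 73729) (nat_lit 0) (.e (nat_lit 7122) (nat_lit 382) (.e (nat_lit 1298) (nat_lit 96) .nil)))) .nil))) (.nd (nat_lit 6) 
(.lf (nat_lit 128699) (.g (nat_lit 784) (.e (nat_lit 7592) (nat_lit 407) (.e (nat_lit 73773) (nat_lit 25) (.e (nat_lit 770058) (nat_lit 5) (.e (nat_lit 1575) (nat_lit 110) (.e (nat_lit 352276) (nat_lit 11) (.e (nat_lit 425990) (nat_lit 0) .nil)))))) (.g (nat_lit 0) .nil .nil))) 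
(.lf (nat_lit 128763) (.g (nat_lit 2856) (.e (nat_lit 7593) (nat_lit 407) (.e (nat_lit 73729) (nat_lit 0) (.e (nat_lit 7261) (nat_lit 384) (.e (nat_lit 57437) (nat_lit 17) (.e (nat_lit 376842) (nat_lit 11) (.e (nat_lit 426009) (nat_lit 0) .nil)))))) (.g (nat_lit 5) .nil .nil))))))) (.nd (nat_lit 3) (.nd (nat_lit 4) (.nd (nat_lit 5) (.nd (nat_lit 6) 
(.lf (nat_lit 128647) (.g (nat_lit 2599) (.e (nat_lit 7592) (nat_lit 407) (.e (nat_lit 73753) (nat_lit 8) (.e (nat_lit 557065) (nat_lit 9) (.e (nat_lit 334) (nat_lit 26) (.e (nat_lit 376865) (nat_lit 22) (.e (nat_lit 90133) (nat_lit 9) (.e (nat_lit 2397) (nat_lit 157) .nil))))))) (.g (nat_lit 4) .nil .nil))) 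
(.lf (nat_lit 128711) (.g (nat_lit 1756) (.e (nat_lit 7592) (nat_lit 407) (.e (nat_lit 73775) (nat_lit 26) (.e (nat_lit 778362) (nat_lit 9) (.e (nat_lit 314) (nat_lit 23) (.e (nat_lit 360192) (nat_lit 11) .nil))))) .nil))) (.nd (nat_lit 6) 
(.lf (nat_lit 128679) (.g (nat_lit 748) (.e (nat_lit 7592) (nat_lit 407) (.e (nat_lit 73755) (nat_lit 8) (.e (nat_lit 557070) (nat_lit 9) .nil))) .nil)) 
(.lf (nat_lit 128743) (.g (nat_lit 1417) (.e (nat_lit 7593) (nat_lit 407) (.e (nat_lit 73729) (nat_lit 0) (.e (nat_lit 7124) (nat_lit 382) (.e (nat_lit 1298) (nat_lit 96) .nil)))) .nil)))) (.nd (nat_lit 5) (.nd (nat_lit 6) 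
(.lf (nat_lit 128663) (.g (nat_lit 1242) (.e (nat_lit 7592) (nat_lit 407) (.e (nat_lit 73754) (nat_lit 8) (.e (nat_lit 557072) (nat_lit 9) (.e (nat_lit 7936) (nat_lit 26) .nil)))) .nil)) 
(.lf (nat_lit 128727) (.g (nat_lit 2579) (.e (nat_lit 7593) (nat_lit 407) (.e (nat_lit 73729) (nat_lit 0) (.e (nat_lit 7122) (nat_lit 382) (.e (nat_lit 1222) (nat_lit 90) (.e (nat_lit 81927) (nat_lit 11) .nil))))) .nil))) (.nd (nat_lit 6) 
(.lf (nat_lit 128695) (.g (nat_lit 671) (.e (nat_lit 7592) (nat_lit 407) (.e (nat_lit 73773) (nat_lit 25) (.e (nat_lit 770057) (nat_lit 5) (.e (nat_lit 1575) (nat_lit 110) (.e (nat_lit 352276) (nat_lit 11) (.e (nat_lit 425984) (nat_lit 0) .nil)))))) (.g (nat_lit 0) .nil .nil))) 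
(.lf (nat_lit 128759) (.g (nat_lit 2820) (.e (nat_lit 7593) (nat_lit 407) (.e (nat_lit 73729) (nat_lit 0) (.e (nat_lit 7261) (nat_lit 384) (.e (nat_lit 57406) (nat_lit 12) (.e (nat_lit 336211) (nat_lit 13) (.e (nat_lit 393233) (nat_lit 17) .nil)))))) (.g (nat_lit 5) .nil .nil)))))) (.nd (nat_lit 4) (.nd (nat_lit 5) (.nd (nat_lit 6) 
(.lf (nat_lit 128655) (.g (nat_lit 452) (.e (nat_lit 7592) (nat_lit 407) (.e (nat_lit 73753) (nat_lit 8) (.e (nat_lit 557072) (nat_lit 9) .nil))) .nil)) 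
(.lf (nat_lit 128719) (.g (nat_lit 1367) (.e (nat_lit 7593) (nat_lit 407) (.e (nat_lit 73729) (nat_lit 0) (.e (nat_lit 7122) (nat_lit 382) (.e (nat_lit 1016) (nat_lit 81) .nil)))) .nil))) (.nd (nat_lit 6) 
(.lf (nat_lit 128687) (.g (nat_lit 638) (.e (nat_lit 7592) (nat_lit 407) (.e (nat_lit 73772) (nat_lit 24) (.e (nat_lit 761868) (nat_lit 5) (.e (nat_lit 1574) (nat_lit 110) (.e (nat_lit 352276) (nat_lit 11) (.e (nat_lit 425990) (nat_lit 0) .nil)))))) (.g (nat_lit 0) .nil .nil))) 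
(.lf (nat_lit 128751) (.g (nat_lit 2624) (.e (nat_lit 7593) (nat_lit 407) (.e (nat_lit 73729) (nat_lit 0) (.e (nat_lit 7125) (nat_lit 382) (.e (nat_lit 1224) (nat_lit 90) (.e (nat_lit 81925) (nat_lit 11) (.e (nat_lit 426009) (nat_lit 0) .nil)))))) (.g (nat_lit 5) .nil .nil))))) (.nd (nat_lit 5) (.nd (nat_lit 6) 
(.lf (nat_lit 128671) (.g (nat_lit 1923) (.e (nat_lit 7592) (nat_lit 407) (.e (nat_lit 73755) (nat_lit 8) (.e (nat_lit 557066) (nat_lit 9) (.e (nat_lit 314) (nat_lit 23) (.e (nat_lit 352312) (nat_lit 22) .nil))))) .nil)) 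
(.lf (nat_lit 128735) (.g (nat_lit 2100) (.e (nat_lit 7593) (nat_lit 407) (.e (nat_lit 73729) (nat_lit 0) (.e (nat_lit 7124) (nat_lit 382) (.e (nat_lit 1183) (nat_lit 87) (.e (nat_lit 65280) (nat_lit 191) .nil))))) .nil))) (.nd (nat_lit 6) 
(.lf (nat_lit 128703) (.g (nat_lit 585) (.e (nat_lit 7592) (nat_lit 407) (.e (nat_lit 73774) (nat_lit 26) (.e (nat_lit 778339) (nat_lit 9) (.e (nat_lit 311) (nat_lit 23) (.e (nat_lit 352276) (nat_lit 11) (.e (nat_lit 425990) (nat_lit 0) .nil)))))) (.g (nat_lit 0) .nil .nil))) 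
(.lf (nat_lit 128767) (.g (nat_lit 365) (.e (nat_lit 7593) (nat_lit 407) (.e (nat_lit 73729) (nat_lit 0) (.e (nat_lit 7265) (nat_lit 384) .nil))) .nil)))))))))

noncomputable def tv1722 : DT := (.nd (nat_lit 0) (.nd (nat_lit 1) (.nd (nat_lit 2) (.nd (nat_lit 3) (.nd (nat_lit 4) (.nd (nat_lit 5) (.nd (nat_lit 6) 
(.lf (nat_lit 128768) (.g (nat_lit 1017) (.e (nat_lit 7593) (nat_lit 407) (.e (nat_lit 73729) (nat_lit 0) (.e (nat_lit 7265) (nat_lit 384) (.e (nat_lit 57346) (nat_lit 0) .nil)))) .nil)) 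
(.lf (nat_lit 128832) (.g (nat_lit 295) (.e (nat_lit 7593) (nat_lit 407) (.e (nat_lit 73732) (nat_lit 0) (.e (nat_lit 7273) (nat_lit 385) .nil))) .nil))) (.nd (nat_lit 6) 
(.lf (nat_lit 128800) (.g (nat_lit 1540) (.e (nat_lit 7593) (nat_lit 407) (.e (nat_lit 73731) (nat_lit 0) (.e (nat_lit 7125) (nat_lit 382) (.e (nat_lit 1224) (nat_lit 90) (.e (nat_lit 81925) (nat_lit 11) .nil))))) .nil)) 
(.lf (nat_lit 128864) (.g (nat_lit 1799) (.e (nat_lit 7593) (nat_lit 407) (.e (nat_lit 73746) (nat_lit 3) (.e (nat_lit 516179) (nat_lit 15) (.e (nat_lit 475209) (nat_lit 41) .nil)))) .nil)))) (.nd (nat_lit 5) (.nd (nat_lit 6) 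
(.lf (nat_lit 128784) (.g (nat_lit 1918) (.e (nat_lit 7593) (nat_lit 407) (.e (nat_lit 73729) (nat_lit 0) (.e (nat_lit 7266) (nat_lit 384) (.e (nat_lit 57417) (nat_lit 12) (.e (nat_lit 336209) (nat_lit 13) (.e (nat_lit 393231) (nat_lit 17) .nil)))))) (.g (nat_lit 4) .nil .nil))) 
(.lf (nat_lit 128848) (.g (nat_lit 2274) (.e (nat_lit 7593) (nat_lit 407) (.e (nat_lit 73746) (nat_lit 3) (.e (nat_lit 516097) (nat_lit 0) (.e (nat_lit 7591) (nat_lit 407) (.e (nat_lit 73746) (nat_lit 3) .nil))))) .nil))) (.nd (nat_lit 6) 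
(.lf (nat_lit 128816) (.g (nat_lit 1747) (.e (nat_lit 7593) (nat_lit 407) (.e (nat_lit 73732) (nat_lit 0) (.e (nat_lit 7270) (nat_lit 385) (.e (nat_lit 122916) (nat_lit 14) (.e (nat_lit 352278) (nat_lit 11) .nil))))) .nil)) 
(.lf (nat_lit 128880) (.g (nat_lit 2454) (.e (nat_lit 7593) (nat_lit 407) (.e (nat_lit 73746) (nat_lit 3) (.e (nat_lit 516184) (nat_lit 16) (.e (nat_lit 491549) (nat_lit 9) (.e (nat_lit 336019) (nat_lit 3) .nil))))) .nil))))) (.nd (nat_lit 4) (.nd (nat_lit 5) (.nd (nat_lit 6) 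
(.lf (nat_lit 128776) (.g (nat_lit 2055) (.e (nat_lit 7593) (nat_lit 407) (.e (nat_lit 73729) (nat_lit 0) (.e (nat_lit 7265) (nat_lit 384) (.e (nat_lit 57424) (nat_lit 14) (.e (nat_lit 352273) (nat_lit 11) .nil))))) .nil)) 
(.lf (nat_lit 128840) (.g (nat_lit 2232) (.e (nat_lit 7593) (nat_lit 407) (.e (nat_lit 73744) (nat_lit 2) (.e (nat_lit 507922) (nat_lit 6) (.e (nat_lit 286756) (nat_lit 10) (.e (nat_lit 344117) (nat_lit 21) (.e (nat_lit 516098) (nat_lit 0) .nil)))))) (.g (nat_lit 0) .nil .nil)))) (.nd (nat_lit 6) 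
(.lf (nat_lit 128808) (.g (nat_lit 481) (.e (nat_lit 7593) (nat_lit 407) (.e (nat_lit 73732) (nat_lit 0) (.e (nat_lit 7144) (nat_lit 382) .nil))) .nil)) 
(.lf (nat_lit 128872) (.g (nat_lit 3470) (.e (nat_lit 7593) (nat_lit 407) (.e (nat_lit 73746) (nat_lit 3) (.e (nat_lit 516183) (nat_lit 16) (.e (nat_lit 491547) (nat_lit 9) (.e (nat_lit 336019) (nat_lit 3) (.e (nat_lit 98320) (nat_lit 17) .nil)))))) (.g (nat_lit 5) .nil .nil))))) (.nd (nat_lit 5) (.nd (nat_lit 6) 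
(.lf (nat_lit 128792) (.g (nat_lit 2281) (.e (nat_lit 7593) (nat_lit 407) (.e (nat_lit 73730) (nat_lit 0) (.e (nat_lit 7263) (nat_lit 384) (.e (nat_lit 57423) (nat_lit 14) (.e (nat_lit 352277) (nat_lit 11) (.e (nat_lit 426009) (nat_lit 0) .nil)))))) (.g (nat_lit 5) .nil .nil))) 
(.lf (nat_lit 128856) (.g (nat_lit 2571) (.e (nat_lit 7593) (nat_lit 407) (.e (nat_lit 73746) (nat_lit 3) (.e (nat_lit 516139) (nat_lit 7) (.e (nat_lit 409616) (nat_lit 10) (.e (nat_lit 5355) (nat_lit 298) (.e (nat_lit 1253) (nat_lit 92) (.e (nat_lit 98320) (nat_lit 17) .nil))))))) (.g (nat_lit 4) .nil .nil)))) (.nd (nat_lit 6) 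
(.lf (nat_lit 128824) (.g (nat_lit 452) (.e (nat_lit 7593) (nat_lit 407) (.e (nat_lit 73732) (nat_lit 0) (.e (nat_lit 7272) (nat_lit 385) .nil))) .nil)) 
(.lf (nat_lit 128888) (.g (nat_lit 664) (.e (nat_lit 7593) (nat_lit 407) (.e (nat_lit 73746) (nat_lit 3) (.e (nat_lit 516195) (nat_lit 26) .nil))) .nil)))))) (.nd (nat_lit 3) (.nd (nat_lit 4) (.nd (nat_lit 5) (.nd (nat_lit 6) 
(.lf (nat_lit 128772) (.g (nat_lit 2220) (.e (nat_lit 7593) (nat_lit 407) (.e (nat_lit 73729) (nat_lit 0) (.e (nat_lit 7265) (nat_lit 384) (.e (nat_lit 57406) (nat_lit 12) (.e (nat_lit 343808) (nat_lit 13) (.e (nat_lit 393232) (nat_lit 17) .nil)))))) (.g (nat_lit 4) .nil .nil))) 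
(.lf (nat_lit 128836) (.g (nat_lit 1426) (.e (nat_lit 7593) (nat_lit 407) (.e (nat_lit 73744) (nat_lit 2) (.e (nat_lit 507908) (nat_lit 0) (.e (nat_lit 5412) (nat_lit 303) (.e (nat_lit 73746) (nat_lit 3) (.e (nat_lit 516096) (nat_lit 0) .nil)))))) (.g (nat_lit 5) .nil .nil)))) (.nd (nat_lit 6) 
(.lf (nat_lit 128804) (.g (nat_lit 947) (.e (nat_lit 7593) (nat_lit 407) (.e (nat_lit 73731) (nat_lit 0) (.e (nat_lit 7261) (nat_lit 384) (.e (nat_lit 57406) (nat_lit 12) (.e (nat_lit 343808) (nat_lit 13) .nil))))) .nil)) 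
(.lf (nat_lit 128868) (.g (nat_lit 818) (.e (nat_lit 7593) (nat_lit 407) (.e (nat_lit 73746) (nat_lit 3) (.e (nat_lit 516181) (nat_lit 15) .nil))) .nil)))) (.nd (nat_lit 5) (.nd (nat_lit 6) 
(.lf (nat_lit 128788) (.g (nat_lit 1581) (.e (nat_lit 7593) (nat_lit 407) (.e (nat_lit 73730) (nat_lit 0) (.e (nat_lit 7125) (nat_lit 382) (.e (nat_lit 1222) (nat_lit 90) (.e (nat_lit 81927) (nat_lit 11) (.e (nat_lit 426009) (nat_lit 0) .nil)))))) (.g (nat_lit 4) .nil .nil))) 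
(.lf (nat_lit 128852) (.g (nat_lit 2215) (.e (nat_lit 7593) (nat_lit 407) (.e (nat_lit 73746) (nat_lit 3) (.e (nat_lit 516139) (nat_lit 7) (.e (nat_lit 409616) (nat_lit 10) (.e (nat_lit 5353) (nat_lit 298) (.e (nat_lit 1077) (nat_lit 81) (.e (nat_lit 1796) (nat_lit 119) (.e (nat_lit 516098) (nat_lit 0) .nil)))))))) (.g (nat_lit 4) .nil .nil)))) (.nd (nat_lit 6) 
(.lf (nat_lit 128820) (.g (nat_lit 1816) (.e (nat_lit 7593) (nat_lit 407) (.e (nat_lit 73732) (nat_lit 0) (.e (nat_lit 7271) (nat_lit 385) (.e (nat_lit 122916) (nat_lit 14) (.e (nat_lit 352273) (nat_lit 11) (.e (nat_lit 426003) (nat_lit 0) .nil)))))) (.g (nat_lit 4) .nil .nil))) 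
(.lf (nat_lit 128884) (.g (nat_lit 1860) (.e (nat_lit 7593) (nat_lit 407) (.e (nat_lit 73746) (nat_lit 3) (.e (nat_lit 516185) (nat_lit 16) (.e (nat_lit 491552) (nat_lit 9) (.e (nat_lit 336023) (nat_lit 3) (.e (nat_lit 98319) (nat_lit 17) .nil)))))) (.g (nat_lit 4) .nil .nil)))))) (.nd (nat_lit 4) (.nd (nat_lit 5) (.nd (nat_lit 6) 
(.lf (nat_lit 128780) (.g (nat_lit 1145) (.e (nat_lit 7593) (nat_lit 407) (.e (nat_lit 73729) (nat_lit 0) (.e (nat_lit 7266) (nat_lit 384) (.e (nat_lit 57404) (nat_lit 12) .nil)))) .nil)) 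
(.lf (nat_lit 128844) (.g (nat_lit 1653) (.e (nat_lit 7593) (nat_lit 407) (.e (nat_lit 73746) (nat_lit 3) (.e (nat_lit 516097) (nat_lit 0) (.e (nat_lit 7542) (nat_lit 402) .nil)))) .nil))) (.nd (nat_lit 6) 
(.lf (nat_lit 128812) (.g (nat_lit 902) (.e (nat_lit 7593) (nat_lit 407) (.e (nat_lit 73732) (nat_lit 0) (.e (nat_lit 7936) (nat_lit 384) (.e (nat_lit 57437) (nat_lit 17) (.e (nat_lit 376842) (nat_lit 11) .nil))))) .nil)) 
(.lf (nat_lit 128876) (.g (nat_lit 2237) (.e (nat_lit 7593) (nat_lit 407) (.e (nat_lit 73746) (nat_lit 3) (.e (nat_lit 516183) (nat_lit 16) (.e (nat_lit 491550) (nat_lit 9) (.e (nat_lit 336019) (nat_lit 3) .nil))))) .nil)))) (.nd (nat_lit 5) (.nd (nat_lit 6) 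
(.lf (nat_lit 128796) (.g (nat_lit 1513) (.e (nat_lit 7593) (nat_lit 407) (.e (nat_lit 73731) (nat_lit 0) (.e (nat_lit 7124) (nat_lit 382) (.e (nat_lit 1201) (nat_lit 88) (.e (nat_lit 65596) (nat_lit 9) .nil))))) .nil)) 
(.lf (nat_lit 128860) (.g (nat_lit 1637) (.e (nat_lit 7593) (nat_lit 407) (.e (nat_lit 73746) (nat_lit 3) (.e (nat_lit 516139) (nat_lit 7) (.e (nat_lit 417536) (nat_lit 16) .nil)))) .nil))) (.nd (nat_lit 6) 
(.lf (nat_lit 128828) (.g (nat_lit 1716) (.e (nat_lit 7593) (nat_lit 407) (.e (nat_lit 73732) (nat_lit 0) (.e (nat_lit 7272) (nat_lit 385) (.e (nat_lit 122916) (nat_lit 14) (.e (nat_lit 352273) (nat_lit 11) (.e (nat_lit 426009) (nat_lit 0) .nil)))))) (.g (nat_lit 4) .nil .nil))) 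
(.lf (nat_lit 128892) (.g (nat_lit 1745) (.e (nat_lit 7593) (nat_lit 407) (.e (nat_lit 73748) (nat_lit 3) (.e (nat_lit 516139) (nat_lit 7) (.e (nat_lit 409617) (nat_lit 10) (.e (nat_lit 5353) (nat_lit 298) .nil))))) .nil))))))) (.nd (nat_lit 2) (.nd (nat_lit 3) (.nd (nat_lit 4) (.nd (nat_lit 5) (.nd (nat_lit 6) 
(.lf (nat_lit 128770) (.g (nat_lit 2217) (.e (nat_lit 7593) (nat_lit 407) (.e (nat_lit 73729) (nat_lit 0) (.e (nat_lit 7265) (nat_lit 384) (.e (nat_lit 57406) (nat_lit 12) (.e (nat_lit 336137) (nat_lit 9) .nil))))) .nil)) 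
(.lf (nat_lit 128834) (.g (nat_lit 2329) (.e (nat_lit 7593) (nat_lit 407) (.e (nat_lit 73744) (nat_lit 2) (.e (nat_lit 507907) (nat_lit 0) (.e (nat_lit 5401) (nat_lit 302) (.e (nat_lit 65571) (nat_lit 3) (.e (nat_lit 98319) (nat_lit 17) .nil)))))) (.g (nat_lit 6) .nil .nil)))) (.nd (nat_lit 6) 
(.lf (nat_lit 128802) (.g (nat_lit 2369) (.e (nat_lit 7593) (nat_lit 407) (.e (nat_lit 73731) (nat_lit 0) (.e (nat_lit 7125) (nat_lit 382) (.e (nat_lit 1224) (nat_lit 90) (.e (nat_lit 81925) (nat_lit 11) (.e (nat_lit 426010) (nat_lit 0) .nil)))))) (.g (nat_lit 5) .nil .nil))) 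
(.lf (nat_lit 128866) (.g (nat_lit 3311) (.e (nat_lit 7593) (nat_lit 407) (.e (nat_lit 73746) (nat_lit 3) (.e (nat_lit 516179) (nat_lit 15) (.e (nat_lit 475210) (nat_lit 41) (.e (nat_lit 720640) (nat_lit 3) (.e (nat_lit 98319) (nat_lit 17) .nil)))))) (.g (nat_lit 4) .nil .nil))))) (.nd (nat_lit 5) (.nd (nat_lit 6) 
(.lf (nat_lit 128786) (.g (nat_lit 585) (.e (nat_lit 7593) (nat_lit 407) (.e (nat_lit 73729) (nat_lit 0) (.e (nat_lit 7464) (nat_lit 396) .nil))) .nil)) 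
(.lf (nat_lit 128850) (.g (nat_lit 772) (.e (nat_lit 7593) (nat_lit 407) (.e (nat_lit 73746) (nat_lit 3) (.e (nat_lit 516105) (nat_lit 0) (.e (nat_lit 7562) (nat_lit 402) .nil)))) .nil))) (.nd (nat_lit 6) 
(.lf (nat_lit 128818) (.g (nat_lit 455) (.e (nat_lit 7593) (nat_lit 407) (.e (nat_lit 73732) (nat_lit 0) (.e (nat_lit 7271) (nat_lit 385) .nil))) .nil)) 
(.lf (nat_lit 128882) (.g (nat_lit 2047) (.e (nat_lit 7593) (nat_lit 407) (.e (nat_lit 73746) (nat_lit 3) (.e (nat_lit 516184) (nat_lit 16) (.e (nat_lit 491558) (nat_lit 10) (.e (nat_lit 344117) (nat_lit 21) (.e (nat_lit 516097) (nat_lit 0) .nil)))))) (.g (nat_lit 4) .nil .nil)))))) (.nd (nat_lit 4) (.nd (nat_lit 5) (.nd (nat_lit 6) 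
(.lf (nat_lit 128778) (.g (nat_lit 1753) (.e (nat_lit 7593) (nat_lit 407) (.e (nat_lit 73729) (nat_lit 0) (.e (nat_lit 7265) (nat_lit 384) (.e (nat_lit 57436) (nat_lit 17) (.e (nat_lit 376838) (nat_lit 11) (.e (nat_lit 426010) (nat_lit 0) .nil)))))) (.g (nat_lit 4) .nil .nil))) 
(.lf (nat_lit 128842) (.g (nat_lit 2044) (.e (nat_lit 7593) (nat_lit 407) (.e (nat_lit 73744) (nat_lit 2) (.e (nat_lit 507923) (nat_lit 6) (.e (nat_lit 286751) (nat_lit 10) (.e (nat_lit 344117) (nat_lit 21) (.e (nat_lit 516097) (nat_lit 0) .nil)))))) (.g (nat_lit 5) .nil .nil)))) (.nd (nat_lit 6) 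
(.lf (nat_lit 128810) (.g (nat_lit 1667) (.e (nat_lit 7593) (nat_lit 407) (.e (nat_lit 73732) (nat_lit 0) (.e (nat_lit 7147) (nat_lit 382) (.e (nat_lit 1217) (nat_lit 90) (.e (nat_lit 81925) (nat_lit 11) (.e (nat_lit 426009) (nat_lit 0) .nil)))))) (.g (nat_lit 5) .nil .nil))) 
(.lf (nat_lit 128874) (.g (nat_lit 3344) (.e (nat_lit 7593) (nat_lit 407) (.e (nat_lit 73746) (nat_lit 3) (.e (nat_lit 516183) (nat_lit 16) (.e (nat_lit 491548) (nat_lit 9) (.e (nat_lit 336019) (nat_lit 3) (.e (nat_lit 98320) (nat_lit 17) .nil)))))) (.g (nat_lit 0) .nil .nil))))) (.nd (nat_lit 5) (.nd (nat_lit 6) 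
(.lf (nat_lit 128794) (.g (nat_lit 1729) (.e (nat_lit 7593) (nat_lit 407) (.e (nat_lit 73731) (nat_lit 0) (.e (nat_lit 7122) (nat_lit 382) (.e (nat_lit 1183) (nat_lit 87) (.e (nat_lit 65280) (nat_lit 191) .nil))))) .nil)) 
(.lf (nat_lit 128858) (.g (nat_lit 2502) (.e (nat_lit 7593) (nat_lit 407) (.e (nat_lit 73746) (nat_lit 3) (.e (nat_lit 516139) (nat_lit 7) (.e (nat_lit 409617) (nat_lit 10) (.e (nat_lit 5355) (nat_lit 298) (.e (nat_lit 1252) (nat_lit 92) (.e (nat_lit 98320) (nat_lit 17) .nil))))))) (.g (nat_lit 4) .nil .nil)))) (.nd (nat_lit 6) 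
(.lf (nat_lit 128826) (.g (nat_lit 971) (.e (nat_lit 7593) (nat_lit 407) (.e (nat_lit 73732) (nat_lit 0) (.e (nat_lit 7272) (nat_lit 385) (.e (nat_lit 122906) (nat_lit 12) .nil)))) .nil)) 
(.lf (nat_lit 128890) (.g (nat_lit 2088) (.e (nat_lit 7593) (nat_lit 407) (.e (nat_lit 73748) (nat_lit 3) (.e (nat_lit 516139) (nat_lit 7) (.e (nat_lit 409616) (nat_lit 10) (.e (nat_lit 5345) (nat_lit 298) .nil))))) .nil)))))) (.nd (nat_lit 3) (.nd (nat_lit 4) (.nd (nat_lit 5) (.nd (nat_lit 6) 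
(.lf (nat_lit 128774) (.g (nat_lit 1147) (.e (nat_lit 7593) (nat_lit 407) (.e (nat_lit 73729) (nat_lit 0) (.e (nat_lit 7265) (nat_lit 384) (.e (nat_lit 57415) (nat_lit 12) (.e (nat_lit 336217) (nat_lit 13) .nil))))) .nil)) 
(.lf (nat_lit 128838) (.g (nat_lit 2510) (.e (nat_lit 7593) (nat_lit 407) (.e (nat_lit 73744) (nat_lit 2) (.e (nat_lit 507921) (nat_lit 6) (.e (nat_lit 286756) (nat_lit 10) (.e (nat_lit 344117) (nat_lit 21) (.e (nat_lit 516097) (nat_lit 0) .nil)))))) (.g (nat_lit 6) .nil .nil)))) (.nd (nat_lit 6) 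
(.lf (nat_lit 128806) (.g (nat_lit 1745) (.e (nat_lit 7593) (nat_lit 407) (.e (nat_lit 73731) (nat_lit 0) (.e (nat_lit 7265) (nat_lit 384) (.e (nat_lit 57406) (nat_lit 12) (.e (nat_lit 343808) (nat_lit 13) .nil))))) .nil)) 
(.lf (nat_lit 128870) (.g (nat_lit 1872) (.e (nat_lit 7593) (nat_lit 407) (.e (nat_lit 73746) (nat_lit 3) (.e (nat_lit 516182) (nat_lit 15) (.e (nat_lit 475211) (nat_lit 41) (.e (nat_lit 720640) (nat_lit 3) (.e (nat_lit 98320) (nat_lit 17) .nil)))))) (.g (nat_lit 4) .nil .nil))))) (.nd (nat_lit 5) (.nd (nat_lit 6) 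
(.lf (nat_lit 128790) (.g (nat_lit 1689) (.e (nat_lit 7593) (nat_lit 407) (.e (nat_lit 73730) (nat_lit 0) (.e (nat_lit 7125) (nat_lit 382) (.e (nat_lit 1296) (nat_lit 96) (.e (nat_lit 131128) (nat_lit 13) (.e (nat_lit 393233) (nat_lit 17) .nil)))))) (.g (nat_lit 4) .nil .nil))) 
(.lf (nat_lit 128854) (.g (nat_lit 2370) (.e (nat_lit 7593) (nat_lit 407) (.e (nat_lit 73746) (nat_lit 3) (.e (nat_lit 516139) (nat_lit 7) (.e (nat_lit 409616) (nat_lit 10) (.e (nat_lit 5355) (nat_lit 298) (.e (nat_lit 1252) (nat_lit 92) (.e (nat_lit 98320) (nat_lit 17) .nil))))))) (.g (nat_lit 4) .nil .nil)))) (.nd (nat_lit 6) 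
(.lf (nat_lit 128822) (.g (nat_lit 1784) (.e (nat_lit 7593) (nat_lit 407) (.e (nat_lit 73732) (nat_lit 0) (.e (nat_lit 7271) (nat_lit 385) (.e (nat_lit 122916) (nat_lit 14) (.e (nat_lit 352273) (nat_lit 11) (.e (nat_lit 426010) (nat_lit 0) .nil)))))) (.g (nat_lit 4) .nil .nil))) 
(.lf (nat_lit 128886) (.g (nat_lit 2800) (.e (nat_lit 7593) (nat_lit 407) (.e (nat_lit 73746) (nat_lit 3) (.e (nat_lit 516185) (nat_lit 16) (.e (nat_lit 491558) (nat_lit 10) (.e (nat_lit 344119) (nat_lit 21) .nil))))) .nil))))) (.nd (nat_lit 4) (.nd (nat_lit 5) (.nd (nat_lit 6) 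
(.lf (nat_lit 128782) (.g (nat_lit 2304) (.e (nat_lit 7593) (nat_lit 407) (.e (nat_lit 73729) (nat_lit 0) (.e (nat_lit 7266) (nat_lit 384) (.e (nat_lit 57409) (nat_lit 12) (.e (nat_lit 336211) (nat_lit 13) (.e (nat_lit 393231) (nat_lit 17) .nil)))))) (.g (nat_lit 5) .nil .nil))) 
(.lf (nat_lit 128846) (.g (nat_lit 1654) (.e (nat_lit 7593) (nat_lit 407) (.e (nat_lit 73746) (nat_lit 3) (.e (nat_lit 516097) (nat_lit 0) (.e (nat_lit 7589) (nat_lit 406) .nil)))) .nil))) (.nd (nat_lit 6) 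
(.lf (nat_lit 128814) (.g (nat_lit 1110) (.e (nat_lit 7593) (nat_lit 407) (.e (nat_lit 73732) (nat_lit 0) (.e (nat_lit 7270) (nat_lit 385) (.e (nat_lit 122906) (nat_lit 12) .nil)))) .nil)) 
(.lf (nat_lit 128878) (.g (nat_lit 2105) (.e (nat_lit 7593) (nat_lit 407) (.e (nat_lit 73746) (nat_lit 3) (.e (nat_lit 516183) (nat_lit 16) (.e (nat_lit 491558) (nat_lit 10) (.e (nat_lit 344117) (nat_lit 21) .nil))))) .nil)))) (.nd (nat_lit 5) (.nd (nat_lit 6) 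
(.lf (nat_lit 128798) (.g (nat_lit 1419) (.e (nat_lit 7593) (nat_lit 407) (.e (nat_lit 73731) (nat_lit 0) (.e (nat_lit 7125) (nat_lit 382) (.e (nat_lit 1193) (nat_lit 88) (.e (nat_lit 65625) (nat_lit 13) .nil))))) .nil)) 
(.lf (nat_lit 128862) (.g (nat_lit 1794) (.e (nat_lit 7593) (nat_lit 407) (.e (nat_lit 73746) (nat_lit 3) (.e (nat_lit 516146) (nat_lit 9) (.e (nat_lit 426392) (nat_lit 15) .nil)))) .nil))) (.nd (nat_lit 6) 
(.lf (nat_lit 128830) (.g (nat_lit 1611) (.e (nat_lit 7593) (nat_lit 407) (.e (nat_lit 73732) (nat_lit 0) (.e (nat_lit 7272) (nat_lit 385) (.e (nat_lit 122916) (nat_lit 14) (.e (nat_lit 352278) (nat_lit 11) .nil))))) .nil)) 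
(.lf (nat_lit 128894) (.g (nat_lit 2774) (.e (nat_lit 7593) (nat_lit 407) (.e (nat_lit 73748) (nat_lit 3) (.e (nat_lit 516139) (nat_lit 7) (.e (nat_lit 409617) (nat_lit 10) (.e (nat_lit 5355) (nat_lit 298) (.e (nat_lit 1252) (nat_lit 92) (.e (nat_lit 98319) (nat_lit 17) .nil))))))) (.g (nat_lit 5) .nil .nil))))))))) 
(.nd (nat_lit 1) (.nd (nat_lit 2) (.nd (nat_lit 3) (.nd (nat_lit 4) (.nd (nat_lit 5) 
(.nd (nat_lit 6) 
(.lf (nat_lit 128769) (.g (nat_lit 2243) (.e (nat_lit 7593) (nat_lit 407) (.e (nat_lit 73729) (nat_lit 0) (.e (nat_lit 7265) (nat_lit 384) (.e (nat_lit 57347) (nat_lit 0) (.e (nat_lit 2203) (nat_lit 144) (.e (nat_lit 720956) (nat_lit 25) (.e (nat_lit 114719) (nat_lit 23) (.e (nat_lit 98320) (nat_lit 17) .nil)))))))) (.g (nat_lit 4) .nil .nil))) 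
(.lf (nat_lit 128833) (.g (nat_lit 1146) (.e (nat_lit 7593) (nat_lit 407) (.e (nat_lit 81664) (nat_lit 1) (.e (nat_lit 500046) (nat_lit 16) (.e (nat_lit 16466) (nat_lit 13) (.e (nat_lit 491264) (nat_lit 0) .nil))))) (.g (nat_lit 4) .nil .nil)))) (.nd (nat_lit 6) 
(.lf (nat_lit 128801) (.g (nat_lit 2379) (.e (nat_lit 7593) (nat_lit 407) (.e (nat_lit 73731) (nat_lit 0) (.e (nat_lit 7125) (nat_lit 382) (.e (nat_lit 1224) (nat_lit 90) (.e (nat_lit 81925) (nat_lit 11) (.e (nat_lit 426009) (nat_lit 0) .nil)))))) (.g (nat_lit 5) .nil .nil))) 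
(.lf (nat_lit 128865) (.g (nat_lit 2937) (.e (nat_lit 7593) (nat_lit 407) (.e (nat_lit 73746) (nat_lit 3) (.e (nat_lit 516179) (nat_lit 15) (.e (nat_lit 475210) (nat_lit 41) (.e (nat_lit 712706) (nat_lit 0) (.e (nat_lit 1788) (nat_lit 119) (.e (nat_lit 516098) (nat_lit 0) .nil))))))) (.g (nat_lit 4) .nil .nil))))) (.nd (nat_lit 5) (.nd (nat_lit 6) 
(.lf (nat_lit 128785) (.g (nat_lit 1531) (.e (nat_lit 7593) (nat_lit 407) (.e (nat_lit 73729) (nat_lit 0) (.e (nat_lit 7266) (nat_lit 384) (.e (nat_lit 65280) (nat_lit 12) .nil)))) .nil)) 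
(.lf (nat_lit 128849) (.g (nat_lit 1652) (.e (nat_lit 7593) (nat_lit 407) (.e (nat_lit 73746) (nat_lit 3) (.e (nat_lit 516097) (nat_lit 0) (.e (nat_lit 7601) (nat_lit 409) .nil)))) .nil))) (.nd (nat_lit 6) 
(.lf (nat_lit 128817) (.g (nat_lit 1128) (.e (nat_lit 7593) (nat_lit 407) (.e (nat_lit 73732) (nat_lit 0) (.e (nat_lit 7270) (nat_lit 385) (.e (nat_lit 122921) (nat_lit 17) .nil)))) .nil)) 
(.lf (nat_lit 128881) (.g (nat_lit 1498) (.e (nat_lit 7593) (nat_lit 407) (.e (nat_lit 73746) (nat_lit 3) (.e (nat_lit 516184) (nat_lit 16) (.e (nat_lit 491554) (nat_lit 9) (.e (nat_lit 336023) (nat_lit 3) .nil))))) .nil))))) (.nd (nat_lit 4) (.nd (nat_lit 5) (.nd (nat_lit 6) 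
(.lf (nat_lit 128777) (.g (nat_lit 1814) (.e (nat_lit 7593) (nat_lit 407) (.e (nat_lit 73729) (nat_lit 0) (.e (nat_lit 7265) (nat_lit 384) (.e (nat_lit 57436) (nat_lit 17) (.e (nat_lit 376838) (nat_lit 11) (.e (nat_lit 426009) (nat_lit 0) .nil)))))) (.g (nat_lit 4) .nil .nil))) 
(.lf (nat_lit 128841) (.g (nat_lit 2826) (.e (nat_lit 7593) (nat_lit 407) (.e (nat_lit 73744) (nat_lit 2) (.e (nat_lit 507923) (nat_lit 6) (.e (nat_lit 286747) (nat_lit 9) (.e (nat_lit 336013) (nat_lit 2) (.e (nat_lit 90133) (nat_lit 9) (.e (nat_lit 2397) (nat_lit 157) .nil))))))) (.g (nat_lit 5) .nil .nil)))) (.nd (nat_lit 6) 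
(.lf (nat_lit 128809) (.g (nat_lit 623) (.e (nat_lit 7593) (nat_lit 407) (.e (nat_lit 73732) (nat_lit 0) (.e (nat_lit 7147) (nat_lit 382) (.e (nat_lit 1203) (nat_lit 88) .nil)))) .nil)) 
(.lf (nat_lit 128873) (.g (nat_lit 3238) (.e (nat_lit 7593) (nat_lit 407) (.e (nat_lit 73746) (nat_lit 3) (.e (nat_lit 516183) (nat_lit 16) (.e (nat_lit 491548) (nat_lit 9) (.e (nat_lit 336019) (nat_lit 3) (.e (nat_lit 98319) (nat_lit 17) .nil)))))) (.g (nat_lit 6) .nil .nil))))) (.nd (nat_lit 5) (.nd (nat_lit 6) 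
(.lf (nat_lit 128793) (.g (nat_lit 2075) (.e (nat_lit 7593) (nat_lit 407) (.e (nat_lit 73730) (nat_lit 0) (.e (nat_lit 7263) (nat_lit 384) (.e (nat_lit 57424) (nat_lit 14) (.e (nat_lit 352277) (nat_lit 11) (.e (nat_lit 426009) (nat_lit 0) .nil)))))) (.g (nat_lit 5) .nil .nil))) 
(.lf (nat_lit 128857) (.g (nat_lit 2275) (.e (nat_lit 7593) (nat_lit 407) (.e (nat_lit 73746) (nat_lit 3) (.e (nat_lit 516139) (nat_lit 7) (.e (nat_lit 409617) (nat_lit 10) (.e (nat_lit 5353) (nat_lit 298) .nil))))) .nil))) (.nd (nat_lit 6) 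
(.lf (nat_lit 128825) (.g (nat_lit 945) (.e (nat_lit 7593) (nat_lit 407) (.e (nat_lit 73732) (nat_lit 0) (.e (nat_lit 7272) (nat_lit 385) (.e (nat_lit 122903) (nat_lit 12) .nil)))) .nil)) 
(.lf (nat_lit 128889) (.g (nat_lit 3180) (.e (nat_lit 7593) (nat_lit 407) (.e (nat_lit 73746) (nat_lit 3) (.e (nat_lit 516195) (nat_lit 26) (.e (nat_lit 335995) (nat_lit 1) (.e (nat_lit 57870) (nat_lit 264) (.e (nat_lit 1189) (nat_lit 88) (.e (nat_lit 65631) (nat_lit 15) .nil))))))) (.g (nat_lit 5) .nil .nil))))))) (.nd (nat_lit 3) (.nd (nat_lit 4) (.nd (nat_lit 5) (.nd (nat_lit 6) 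
(.lf (nat_lit 128773) (.g (nat_lit 2066) (.e (nat_lit 7593) (nat_lit 407) (.e (nat_lit 73729) (nat_lit 0) (.e (nat_lit 7265) (nat_lit 384) (.e (nat_lit 57406) (nat_lit 12) (.e (nat_lit 343808) (nat_lit 13) (.e (nat_lit 393233) (nat_lit 17) .nil)))))) (.g (nat_lit 4) .nil .nil))) 
(.lf (nat_lit 128837) (.g (nat_lit 2402) (.e (nat_lit 7593) (nat_lit 407) (.e (nat_lit 73744) (nat_lit 2) (.e (nat_lit 507921) (nat_lit 6) (.e (nat_lit 286752) (nat_lit 10) (.e (nat_lit 344117) (nat_lit 21) (.e (nat_lit 516098) (nat_lit 0) .nil)))))) (.g (nat_lit 6) .nil .nil)))) (.nd (nat_lit 6) 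
(.lf (nat_lit 128805) (.g (nat_lit 1530) (.e (nat_lit 7593) (nat_lit 407) (.e (nat_lit 73731) (nat_lit 0) (.e (nat_lit 7261) (nat_lit 384) (.e (nat_lit 57424) (nat_lit 14) (.e (nat_lit 352277) (nat_lit 11) (.e (nat_lit 426009) (nat_lit 0) .nil)))))) (.g (nat_lit 4) .nil .nil))) 
(.lf (nat_lit 128869) (.g (nat_lit 1622) (.e (nat_lit 7593) (nat_lit 407) (.e (nat_lit 73746) (nat_lit 3) (.e (nat_lit 516182) (nat_lit 15) (.e (nat_lit 475211) (nat_lit 41) (.e (nat_lit 720640) (nat_lit 3) .nil))))) .nil)))) (.nd (nat_lit 5) (.nd (nat_lit 6) 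
(.lf (nat_lit 128789) (.g (nat_lit 1676) (.e (nat_lit 7593) (nat_lit 407) (.e (nat_lit 73730) (nat_lit 0) (.e (nat_lit 7125) (nat_lit 382) (.e (nat_lit 1222) (nat_lit 90) (.e (nat_lit 81927) (nat_lit 11) (.e (nat_lit 426010) (nat_lit 0) .nil)))))) (.g (nat_lit 4) .nil .nil))) 
(.lf (nat_lit 128853) (.g (nat_lit 3598) (.e (nat_lit 7593) (nat_lit 407) (.e (nat_lit 73746) (nat_lit 3) (.e (nat_lit 516139) (nat_lit 7) (.e (nat_lit 409616) (nat_lit 10) (.e (nat_lit 5355) (nat_lit 298) (.e (nat_lit 1252) (nat_lit 92) (.e (nat_lit 98319) (nat_lit 17) .nil))))))) (.g (nat_lit 6) .nil .nil)))) (.nd (nat_lit 6) 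
(.lf (nat_lit 128821) (.g (nat_lit 1637) (.e (nat_lit 7593) (nat_lit 407) (.e (nat_lit 73732) (nat_lit 0) (.e (nat_lit 7271) (nat_lit 385) (.e (nat_lit 122916) (nat_lit 14) (.e (nat_lit 352273) (nat_lit 11) (.e (nat_lit 426009) (nat_lit 0) .nil)))))) (.g (nat_lit 4) .nil .nil))) 
(.lf (nat_lit 128885) (.g (nat_lit 2235) (.e (nat_lit 7593) (nat_lit 407) (.e (nat_lit 73746) (nat_lit 3) (.e (nat_lit 516185) (nat_lit 16) (.e (nat_lit 491552) (nat_lit 9) (.e (nat_lit 336023) (nat_lit 3) (.e (nat_lit 98320) (nat_lit 17) .nil)))))) (.g (nat_lit 5) .nil .nil)))))) (.nd (nat_lit 4) (.nd (nat_lit 5) (.nd (nat_lit 6) 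
(.lf (nat_lit 128781) (.g (nat_lit 2292) (.e (nat_lit 7593) (nat_lit 407) (.e (nat_lit 73729) (nat_lit 0) (.e (nat_lit 7266) (nat_lit 384) (.e (nat_lit 57406) (nat_lit 12) (.e (nat_lit 336211) (nat_lit 13) .nil))))) .nil)) 
(.lf (nat_lit 128845) (.g (nat_lit 1592) (.e (nat_lit 7593) (nat_lit 407) (.e (nat_lit 73746) (nat_lit 3) (.e (nat_lit 516097) (nat_lit 0) (.e (nat_lit 7587) (nat_lit 406) .nil)))) .nil))) (.nd (nat_lit 6) 
(.lf (nat_lit 128813) (.g (nat_lit 409) (.e (nat_lit 7593) (nat_lit 407) (.e (nat_lit 73732) (nat_lit 0) (.e (nat_lit 7270) (nat_lit 385) .nil))) .nil)) 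
(.lf (nat_lit 128877) (.g (nat_lit 2208) (.e (nat_lit 7593) (nat_lit 407) (.e (nat_lit 73746) (nat_lit 3) (.e (nat_lit 516183) (nat_lit 16) (.e (nat_lit 491556) (nat_lit 9) (.e (nat_lit 336017) (nat_lit 3) .nil))))) .nil)))) (.nd (nat_lit 5) (.nd (nat_lit 6) 
(.lf (nat_lit 128797) (.g (nat_lit 2063) (.e (nat_lit 7593) (nat_lit 407) (.e (nat_lit 73731) (nat_lit 0) (.e (nat_lit 7124) (nat_lit 382) (.e (nat_lit 1201) (nat_lit 88) (.e (nat_lit 65627) (nat_lit 13) (.e (nat_lit 393231) (nat_lit 17) .nil)))))) (.g (nat_lit 5) .nil .nil))) 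
(.lf (nat_lit 128861) (.g (nat_lit 524) (.e (nat_lit 7593) (nat_lit 407) (.e (nat_lit 73746) (nat_lit 3) (.e (nat_lit 516146) (nat_lit 9) .nil))) .nil))) (.nd (nat_lit 6) 
(.lf (nat_lit 128829) (.g (nat_lit 3261) (.e (nat_lit 7593) (nat_lit 407) (.e (nat_lit 73732) (nat_lit 0) (.e (nat_lit 7272) (nat_lit 385) (.e (nat_lit 122916) (nat_lit 14) (.e (nat_lit 352273) (nat_lit 11) (.e (nat_lit 426011) (nat_lit 0) .nil)))))) (.g (nat_lit 0) .nil .nil))) 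
(.lf (nat_lit 128893) (.g (nat_lit 2149) (.e (nat_lit 7593) (nat_lit 407) (.e (nat_lit 73748) (nat_lit 3) (.e (nat_lit 516139) (nat_lit 7) (.e (nat_lit 409617) (nat_lit 10) (.e (nat_lit 5353) (nat_lit 298) (.e (nat_lit 1077) (nat_lit 81) (.e (nat_lit 1796) (nat_lit 119) (.e (nat_lit 516098) (nat_lit 0) .nil)))))))) (.g (nat_lit 4) .nil .nil)))))))) 
(.nd (nat_lit 2) (.nd (nat_lit 3) (.nd (nat_lit 4) (.nd (nat_lit 5) (.nd (nat_lit 6) 
(.lf (nat_lit 128771) (.g (nat_lit 2557) (.e (nat_lit 7593) (nat_lit 407) (.e (nat_lit 73729) (nat_lit 0) (.e (nat_lit 7265) (nat_lit 384) (.e (nat_lit 57406) (nat_lit 12) (.e (nat_lit 336211) (nat_lit 13) (.e (nat_lit 393231) (nat_lit 17) .nil)))))) (.g (nat_lit 5) .nil .nil))) 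
(.lf (nat_lit 128835) (.g (nat_lit 2421) (.e (nat_lit 7593) (nat_lit 407) (.e (nat_lit 73744) (nat_lit 2) (.e (nat_lit 507908) (nat_lit 0) (.e (nat_lit 5401) (nat_lit 302) (.e (nat_lit 65571) (nat_lit 3) (.e (nat_lit 98319) (nat_lit 17) .nil)))))) (.g (nat_lit 6) .nil .nil)))) (.nd (nat_lit 6) 
(.lf (nat_lit 128803) (.g (nat_lit 1320) (.e (nat_lit 7593) (nat_lit 407) (.e (nat_lit 73731) (nat_lit 0) (.e (nat_lit 7125) (nat_lit 382) (.e (nat_lit 1296) (nat_lit 96) (.e (nat_lit 131125) (nat_lit 13) .nil))))) .nil)) 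
(.lf (nat_lit 128867) (.g (nat_lit 2598) (.e (nat_lit 7593) (nat_lit 407) (.e (nat_lit 73746) (nat_lit 3) (.e (nat_lit 516179) (nat_lit 15) (.e (nat_lit 475211) (nat_lit 41) (.e (nat_lit 720640) (nat_lit 3) .nil))))) .nil)))) (.nd (nat_lit 5) (.nd (nat_lit 6) 
(.lf (nat_lit 128787) (.g (nat_lit 1854) (.e (nat_lit 7593) (nat_lit 407) (.e (nat_lit 73730) (nat_lit 0) (.e (nat_lit 7122) (nat_lit 382) (.e (nat_lit 1222) (nat_lit 90) (.e (nat_lit 81927) (nat_lit 11) (.e (nat_lit 426009) (nat_lit 0) .nil)))))) (.g (nat_lit 4) .nil .nil))) 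
(.lf (nat_lit 128851) (.g (nat_lit 2266) (.e (nat_lit 7593) (nat_lit 407) (.e (nat_lit 73746) (nat_lit 3) (.e (nat_lit 516139) (nat_lit 7) (.e (nat_lit 409616) (nat_lit 10) (.e (nat_lit 5345) (nat_lit 298) .nil))))) .nil))) (.nd (nat_lit 6) 
(.lf (nat_lit 128819) (.g (nat_lit 1149) (.e (nat_lit 7593) (nat_lit 407) (.e (nat_lit 73732) (nat_lit 0) (.e (nat_lit 7271) (nat_lit 385) (.e (nat_lit 122906) (nat_lit 12) (.e (nat_lit 336097) (nat_lit 9) .nil))))) .nil)) 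
(.lf (nat_lit 128883) (.g (nat_lit 2224) (.e (nat_lit 7593) (nat_lit 407) (.e (nat_lit 73746) (nat_lit 3) (.e (nat_lit 516184) (nat_lit 16) (.e (nat_lit 491559) (nat_lit 10) (.e (nat_lit 344117) (nat_lit 21) .nil))))) .nil))))) (.nd (nat_lit 4) (.nd (nat_lit 5) (.nd (nat_lit 6) 
(.lf (nat_lit 128779) (.g (nat_lit 3072) (.e (nat_lit 7593) (nat_lit 407) (.e (nat_lit 73729) (nat_lit 0) (.e (nat_lit 7265) (nat_lit 384) (.e (nat_lit 57436) (nat_lit 17) (.e (nat_lit 376842) (nat_lit 11) (.e (nat_lit 426009) (nat_lit 0) .nil)))))) (.g (nat_lit 0) .nil .nil))) 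
(.lf (nat_lit 128843) (.g (nat_lit 3330) (.e (nat_lit 7593) (nat_lit 407) (.e (nat_lit 73744) (nat_lit 2) (.e (nat_lit 507923) (nat_lit 6) (.e (nat_lit 286753) (nat_lit 10) (.e (nat_lit 344117) (nat_lit 21) (.e (nat_lit 516097) (nat_lit 0) .nil)))))) (.g (nat_lit 0) .nil .nil)))) (.nd (nat_lit 6) 
(.lf (nat_lit 128811) (.g (nat_lit 463) (.e (nat_lit 7593) (nat_lit 407) (.e (nat_lit 73732) (nat_lit 0) (.e (nat_lit 7255) (nat_lit 383) .nil))) .nil)) 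
(.lf (nat_lit 128875) (.g (nat_lit 2887) (.e (nat_lit 7593) (nat_lit 407) (.e (nat_lit 73746) (nat_lit 3) (.e (nat_lit 516183) (nat_lit 16) (.e (nat_lit 491549) (nat_lit 9) (.e (nat_lit 336019) (nat_lit 3) (.e (nat_lit 98320) (nat_lit 17) .nil)))))) (.g (nat_lit 4) .nil .nil))))) (.nd (nat_lit 5) (.nd (nat_lit 6) 
(.lf (nat_lit 128795) (.g (nat_lit 2558) (.e (nat_lit 7593) (nat_lit 407) (.e (nat_lit 73731) (nat_lit 0) (.e (nat_lit 7122) (nat_lit 382) (.e (nat_lit 1201) (nat_lit 88) (.e (nat_lit 65625) (nat_lit 13) (.e (nat_lit 393233) (nat_lit 17) .nil)))))) (.g (nat_lit 5) .nil .nil))) 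
(.lf (nat_lit 128859) (.g (nat_lit 3401) (.e (nat_lit 7593) (nat_lit 407) (.e (nat_lit 73746) (nat_lit 3) (.e (nat_lit 516139) (nat_lit 7) (.e (nat_lit 409617) (nat_lit 10) (.e (nat_lit 5355) (nat_lit 298) (.e (nat_lit 1253) (nat_lit 92) (.e (nat_lit 98319) (nat_lit 17) .nil))))))) (.g (nat_lit 5) .nil .nil)))) (.nd (nat_lit 6) 
(.lf (nat_lit 128827) (.g (nat_lit 1894) (.e (nat_lit 7593) (nat_lit 407) (.e (nat_lit 73732) (nat_lit 0) (.e (nat_lit 7272) (nat_lit 385) (.e (nat_lit 122916) (nat_lit 14) (.e (nat_lit 352273) (nat_lit 11) (.e (nat_lit 426003) (nat_lit 0) .nil)))))) (.g (nat_lit 4) .nil .nil))) 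
(.lf (nat_lit 128891) (.g (nat_lit 2370) (.e (nat_lit 7593) (nat_lit 407) (.e (nat_lit 73748) (nat_lit 3) (.e (nat_lit 516139) (nat_lit 7) (.e (nat_lit 409616) (nat_lit 10) (.e (nat_lit 5355) (nat_lit 298) (.e (nat_lit 1252) (nat_lit 92) (.e (nat_lit 98319) (nat_lit 17) .nil))))))) (.g (nat_lit 4) .nil .nil))))))) (.nd (nat_lit 3) (.nd (nat_lit 4) (.nd (nat_lit 5) (.nd (nat_lit 6) 
(.lf (nat_lit 128775) (.g (nat_lit 1055) (.e (nat_lit 7593) (nat_lit 407) (.e (nat_lit 73729) (nat_lit 0) (.e (nat_lit 7265) (nat_lit 384) (.e (nat_lit 57417) (nat_lit 12) .nil)))) .nil)) 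
(.lf (nat_lit 128839) (.g (nat_lit 2393) (.e (nat_lit 7593) (nat_lit 407) (.e (nat_lit 73744) (nat_lit 2) (.e (nat_lit 507922) (nat_lit 6) (.e (nat_lit 286756) (nat_lit 10) (.e (nat_lit 344117) (nat_lit 21) (.e (nat_lit 516097) (nat_lit 0) .nil)))))) (.g (nat_lit 6) .nil .nil)))) (.nd (nat_lit 6) 
(.lf (nat_lit 128807) (.g (nat_lit 1628) (.e (nat_lit 7593) (nat_lit 407) (.e (nat_lit 73731) (nat_lit 0) (.e (nat_lit 7266) (nat_lit 384) (.e (nat_lit 57417) (nat_lit 12) (.e (nat_lit 336209) (nat_lit 13) (.e (nat_lit 393231) (nat_lit 17) .nil)))))) (.g (nat_lit 4) .nil .nil))) 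
(.lf (nat_lit 128871) (.g (nat_lit 528) (.e (nat_lit 7593) (nat_lit 407) (.e (nat_lit 73746) (nat_lit 3) (.e (nat_lit 516183) (nat_lit 16) .nil))) .nil)))) (.nd (nat_lit 5) (.nd (nat_lit 6) 
(.lf (nat_lit 128791) (.g (nat_lit 1970) (.e (nat_lit 7593) (nat_lit 407) (.e (nat_lit 73730) (nat_lit 0) (.e (nat_lit 7261) (nat_lit 384) (.e (nat_lit 57423) (nat_lit 14) (.e (nat_lit 352277) (nat_lit 11) (.e (nat_lit 426009) (nat_lit 0) .nil)))))) (.g (nat_lit 5) .nil .nil))) 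
(.lf (nat_lit 128855) (.g (nat_lit 3092) (.e (nat_lit 7593) (nat_lit 407) (.e (nat_lit 73746) (nat_lit 3) (.e (nat_lit 516139) (nat_lit 7) (.e (nat_lit 409616) (nat_lit 10) (.e (nat_lit 5355) (nat_lit 298) (.e (nat_lit 1253) (nat_lit 92) (.e (nat_lit 98319) (nat_lit 17) .nil))))))) (.g (nat_lit 5) .nil .nil)))) (.nd (nat_lit 6) 
(.lf (nat_lit 128823) (.g (nat_lit 1605) (.e (nat_lit 7593) (nat_lit 407) (.e (nat_lit 73732) (nat_lit 0) (.e (nat_lit 7271) (nat_lit 385) (.e (nat_lit 122916) (nat_lit 14) (.e (nat_lit 352278) (nat_lit 11) .nil))))) .nil)) 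
(.lf (nat_lit 128887) (.g (nat_lit 3111) (.e (nat_lit 7593) (nat_lit 407) (.e (nat_lit 73746) (nat_lit 3) (.e (nat_lit 516185) (nat_lit 16) (.e (nat_lit 491559) (nat_lit 10) (.e (nat_lit 344117) (nat_lit 21) .nil))))) .nil))))) (.nd (nat_lit 4) (.nd (nat_lit 5) (.nd (nat_lit 6) 
(.lf (nat_lit 128783) (.g (nat_lit 1835) (.e (nat_lit 7593) (nat_lit 407) (.e (nat_lit 73729) (nat_lit 0) (.e (nat_lit 7266) (nat_lit 384) (.e (nat_lit 57413) (nat_lit 12) (.e (nat_lit 336224) (nat_lit 13) .nil))))) .nil)) 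
(.lf (nat_lit 128847) (.g (nat_lit 1481) (.e (nat_lit 7593) (nat_lit 407) (.e (nat_lit 73746) (nat_lit 3) (.e (nat_lit 516097) (nat_lit 0) (.e (nat_lit 7591) (nat_lit 407) .nil)))) .nil))) (.nd (nat_lit 6) 
(.lf (nat_lit 128815) (.g (nat_lit 1351) (.e (nat_lit 7593) (nat_lit 407) (.e (nat_lit 73732) (nat_lit 0) (.e (nat_lit 7270) (nat_lit 385) (.e (nat_lit 122906) (nat_lit 12) (.e (nat_lit 336212) (nat_lit 13) .nil))))) .nil)) 
(.lf (nat_lit 128879) (.g (nat_lit 1848) (.e (nat_lit 7593) (nat_lit 407) (.e (nat_lit 73746) (nat_lit 3) (.e (nat_lit 516184) (nat_lit 16) (.e (nat_lit 491548) (nat_lit 9) (.e (nat_lit 336019) (nat_lit 3) .nil))))) .nil)))) (.nd (nat_lit 5) (.nd (nat_lit 6) 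
(.lf (nat_lit 128799) (.g (nat_lit 2239) (.e (nat_lit 7593) (nat_lit 407) (.e (nat_lit 73731) (nat_lit 0) (.e (nat_lit 7125) (nat_lit 382) (.e (nat_lit 1201) (nat_lit 88) (.e (nat_lit 65596) (nat_lit 9) (.e (nat_lit 336412) (nat_lit 27) (.e (nat_lit 426011) (nat_lit 0) .nil))))))) (.g (nat_lit 4) .nil .nil))) 
(.lf (nat_lit 128863) (.g (nat_lit 1985) (.e (nat_lit 7593) (nat_lit 407) (.e (nat_lit 73746) (nat_lit 3) (.e (nat_lit 516178) (nat_lit 15) (.e (nat_lit 475210) (nat_lit 41) (.e (nat_lit 720640) (nat_lit 3) (.e (nat_lit 98319) (nat_lit 17) .nil)))))) (.g (nat_lit 4) .nil .nil)))) (.nd (nat_lit 6) 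
(.lf (nat_lit 128831) (.g (nat_lit 1001) (.e (nat_lit 7593) (nat_lit 407) (.e (nat_lit 73732) (nat_lit 0) (.e (nat_lit 7272) (nat_lit 385) (.e (nat_lit 130816) (nat_lit 17) .nil)))) .nil)) 
(.lf (nat_lit 128895) (.g (nat_lit 988) (.e (nat_lit 7593) (nat_lit 407) (.e (nat_lit 73748) (nat_lit 3) (.e (nat_lit 516139) (nat_lit 7) (.e (nat_lit 417536) (nat_lit 16) .nil)))) .nil)))))))))

noncomputable def tv1723 : DT := (.nd (nat_lit 0) (.nd (nat_lit 1) (.nd (nat_lit 2) (.nd (nat_lit 3) (.nd (nat_lit 4) (.nd (nat_lit 5) 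
(.lf (nat_lit 128896) (.g (nat_lit 1808) (.e (nat_lit 7593) (nat_lit 407) (.e (nat_lit 73751) (nat_lit 7) (.e (nat_lit 548891) (nat_lit 11) (.e (nat_lit 81955) (nat_lit 23) (.e (nat_lit 98320) (nat_lit 17) .nil))))) (.g (nat_lit 5) .nil .nil))) 
(.lf (nat_lit 128928) (.g (nat_lit 1720) (.e (nat_lit 7593) (nat_lit 407) (.e (nat_lit 73753) (nat_lit 8) (.e (nat_lit 557087) (nat_lit 11) (.e (nat_lit 24625) (nat_lit 9) (.e (nat_lit 343808) (nat_lit 3) (.e (nat_lit 98319) (nat_lit 17) .nil)))))) (.g (nat_lit 4) .nil .nil)))) (.nd (nat_lit 5) 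
(.lf (nat_lit 128912) (.g (nat_lit 2082) (.e (nat_lit 7593) (nat_lit 407) (.e (nat_lit 73753) (nat_lit 8) (.e (nat_lit 557074) (nat_lit 9) (.e (nat_lit 284) (nat_lit 21) (.e (nat_lit 336186) (nat_lit 11) .nil))))) .nil)) 
(.lf (nat_lit 128944) (.g (nat_lit 579) (.e (nat_lit 7593) (nat_lit 407) (.e (nat_lit 73754) (nat_lit 8) (.e (nat_lit 557072) (nat_lit 9) .nil))) .nil)))) (.nd (nat_lit 4) (.nd (nat_lit 5) 
(.lf (nat_lit 128904) (.g (nat_lit 2159) (.e (nat_lit 7593) (nat_lit 407) (.e (nat_lit 73753) (nat_lit 8) (.e (nat_lit 557065) (nat_lit 9) (.e (nat_lit 321) (nat_lit 24) (.e (nat_lit 360467) (nat_lit 3) .nil))))) .nil)) 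
(.lf (nat_lit 128936) (.g (nat_lit 2504) (.e (nat_lit 7593) (nat_lit 407) (.e (nat_lit 73753) (nat_lit 8) (.e (nat_lit 557087) (nat_lit 11) (.e (nat_lit 24645) (nat_lit 11) (.e (nat_lit 368676) (nat_lit 21) (.e (nat_lit 516097) (nat_lit 0) .nil)))))) (.g (nat_lit 4) .nil .nil)))) (.nd (nat_lit 5) 
(.lf (nat_lit 128920) (.g (nat_lit 1840) (.e (nat_lit 7593) (nat_lit 407) (.e (nat_lit 73753) (nat_lit 8) (.e (nat_lit 557085) (nat_lit 11) (.e (nat_lit 24646) (nat_lit 11) (.e (nat_lit 368676) (nat_lit 21) .nil))))) .nil)) 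
(.lf (nat_lit 128952) (.g (nat_lit 2463) (.e (nat_lit 7593) (nat_lit 407) (.e (nat_lit 73754) (nat_lit 8) (.e (nat_lit 557085) (nat_lit 11) (.e (nat_lit 24636) (nat_lit 9) (.e (nat_lit 336017) (nat_lit 3) (.e (nat_lit 98319) (nat_lit 17) .nil)))))) (.g (nat_lit 4) .nil .nil)))))) (.nd (nat_lit 3) (.nd (nat_lit 4) (.nd (nat_lit 5) 
(.lf (nat_lit 128900) (.g (nat_lit 624) (.e (nat_lit 7593) (nat_lit 407) (.e (nat_lit 73753) (nat_lit 8) (.e (nat_lit 557065) (nat_lit 9) .nil))) .nil)) 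
(.lf (nat_lit 128932) (.g (nat_lit 2871) (.e (nat_lit 7593) (nat_lit 407) (.e (nat_lit 73753) (nat_lit 8) (.e (nat_lit 557087) (nat_lit 11) (.e (nat_lit 24636) (nat_lit 9) (.e (nat_lit 336017) (nat_lit 3) (.e (nat_lit 98319) (nat_lit 17) .nil)))))) (.g (nat_lit 6) .nil .nil)))) (.nd (nat_lit 5) 
(.lf (nat_lit 128916) (.g (nat_lit 1520) (.e (nat_lit 7593) (nat_lit 407) (.e (nat_lit 73753) (nat_lit 8) (.e (nat_lit 557085) (nat_lit 11) (.e (nat_lit 24631) (nat_lit 9) .nil)))) .nil)) 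
(.lf (nat_lit 128948) (.g (nat_lit 1902) (.e (nat_lit 7593) (nat_lit 407) (.e (nat_lit 73754) (nat_lit 8) (.e (nat_lit 557074) (nat_lit 9) (.e (nat_lit 284) (nat_lit 21) (.e (nat_lit 336186) (nat_lit 11) .nil))))) .nil)))) (.nd (nat_lit 4) (.nd (nat_lit 5) 
(.lf (nat_lit 128908) (.g (nat_lit 1870) (.e (nat_lit 7593) (nat_lit 407) (.e (nat_lit 73753) (nat_lit 8) (.e (nat_lit 557067) (nat_lit 9) (.e (nat_lit 290) (nat_lit 21) .nil)))) .nil)) 
(.lf (nat_lit 128940) (.g (nat_lit 2016) (.e (nat_lit 7593) (nat_lit 407) (.e (nat_lit 73754) (nat_lit 8) (.e (nat_lit 557066) (nat_lit 9) (.e (nat_lit 314) (nat_lit 23) (.e (nat_lit 352313) (nat_lit 23) .nil))))) .nil))) (.nd (nat_lit 5) 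
(.lf (nat_lit 128924) (.g (nat_lit 3235) (.e (nat_lit 7593) (nat_lit 407) (.e (nat_lit 73753) (nat_lit 8) (.e (nat_lit 557086) (nat_lit 11) (.e (nat_lit 24638) (nat_lit 9) (.e (nat_lit 336021) (nat_lit 3) (.e (nat_lit 98320) (nat_lit 17) .nil)))))) (.g (nat_lit 0) .nil .nil))) 
(.lf (nat_lit 128956) (.g (nat_lit 3714) (.e (nat_lit 7593) (nat_lit 407) (.e (nat_lit 73754) (nat_lit 8) (.e (nat_lit 557085) (nat_lit 11) (.e (nat_lit 24640) (nat_lit 10) (.e (nat_lit 344117) (nat_lit 21) (.e (nat_lit 516098) (nat_lit 0) .nil)))))) (.g (nat_lit 5) .nil .nil))))))) (.nd (nat_lit 2) (.nd (nat_lit 3) (.nd (nat_lit 4) (.nd (nat_lit 5) 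
(.lf (nat_lit 128898) (.g (nat_lit 2031) (.e (nat_lit 7593) (nat_lit 407) (.e (nat_lit 73751) (nat_lit 7) (.e (nat_lit 548893) (nat_lit 13) (.e (nat_lit 131116) (nat_lit 9) (.e (nat_lit 336021) (nat_lit 3) (.e (nat_lit 98320) (nat_lit 17) .nil)))))) (.g (nat_lit 0) .nil .nil))) 
(.lf (nat_lit 128930) (.g (nat_lit 3520) (.e (nat_lit 7593) (nat_lit 407) (.e (nat_lit 73753) (nat_lit 8) (.e (nat_lit 557087) (nat_lit 11) (.e (nat_lit 24628) (nat_lit 9) (.e (nat_lit 336019) (nat_lit 3) (.e (nat_lit 98319) (nat_lit 17) .nil)))))) (.g (nat_lit 0) .nil .nil)))) (.nd (nat_lit 5) 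
(.lf (nat_lit 128914) (.g (nat_lit 3629) (.e (nat_lit 7593) (nat_lit 407) (.e (nat_lit 73753) (nat_lit 8) (.e (nat_lit 557085) (nat_lit 11) (.e (nat_lit 24628) (nat_lit 9) (.e (nat_lit 336019) (nat_lit 3) (.e (nat_lit 98319) (nat_lit 17) .nil)))))) (.g (nat_lit 6) .nil .nil))) 
(.lf (nat_lit 128946) (.g (nat_lit 523) (.e (nat_lit 7593) (nat_lit 407) (.e (nat_lit 73754) (nat_lit 8) (.e (nat_lit 557073) (nat_lit 9) .nil))) .nil)))) (.nd (nat_lit 4) (.nd (nat_lit 5) 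
(.lf (nat_lit 128906) (.g (nat_lit 1540) (.e (nat_lit 7593) (nat_lit 407) (.e (nat_lit 73753) (nat_lit 8) (.e (nat_lit 557065) (nat_lit 9) (.e (nat_lit 7936) (nat_lit 26) .nil)))) .nil)) 
(.lf (nat_lit 128938) (.g (nat_lit 2586) (.e (nat_lit 7593) (nat_lit 407) (.e (nat_lit 73754) (nat_lit 8) (.e (nat_lit 557064) (nat_lit 9) (.e (nat_lit 314) (nat_lit 23) (.e (nat_lit 352315) (nat_lit 23) (.e (nat_lit 98320) (nat_lit 17) .nil)))))) (.g (nat_lit 5) .nil .nil)))) (.nd (nat_lit 5) 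
(.lf (nat_lit 128922) (.g (nat_lit 3289) (.e (nat_lit 7593) (nat_lit 407) (.e (nat_lit 73753) (nat_lit 8) (.e (nat_lit 557086) (nat_lit 11) (.e (nat_lit 24628) (nat_lit 9) (.e (nat_lit 336019) (nat_lit 3) (.e (nat_lit 98320) (nat_lit 17) .nil)))))) (.g (nat_lit 6) .nil .nil))) 
(.lf (nat_lit 128954) (.g (nat_lit 2075) (.e (nat_lit 7593) (nat_lit 407) (.e (nat_lit 73754) (nat_lit 8) (.e (nat_lit 557085) (nat_lit 11) (.e (nat_lit 24639) (nat_lit 10) (.e (nat_lit 344117) (nat_lit 21) (.e (nat_lit 516097) (nat_lit 0) .nil)))))) (.g (nat_lit 4) .nil .nil)))))) (.nd (nat_lit 3) (.nd (nat_lit 4) (.nd (nat_lit 5) 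
(.lf (nat_lit 128902) (.g (nat_lit 1840) (.e (nat_lit 7593) (nat_lit 407) (.e (nat_lit 73753) (nat_lit 8) (.e (nat_lit 557065) (nat_lit 9) (.e (nat_lit 310) (nat_lit 23) (.e (nat_lit 352315) (nat_lit 23) .nil))))) .nil)) 
(.lf (nat_lit 128934) (.g (nat_lit 2690) (.e (nat_lit 7593) (nat_lit 407) (.e (nat_lit 73753) (nat_lit 8) (.e (nat_lit 557087) (nat_lit 11) (.e (nat_lit 24641) (nat_lit 10) (.e (nat_lit 344119) (nat_lit 21) .nil))))) .nil))) (.nd (nat_lit 5) 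
(.lf (nat_lit 128918) (.g (nat_lit 3381) (.e (nat_lit 7593) (nat_lit 407) (.e (nat_lit 73753) (nat_lit 8) (.e (nat_lit 557085) (nat_lit 11) (.e (nat_lit 24638) (nat_lit 9) (.e (nat_lit 336021) (nat_lit 3) (.e (nat_lit 98320) (nat_lit 17) .nil)))))) (.g (nat_lit 6) .nil .nil))) 
(.lf (nat_lit 128950) (.g (nat_lit 3828) (.e (nat_lit 7593) (nat_lit 407) (.e (nat_lit 73754) (nat_lit 8) (.e (nat_lit 557085) (nat_lit 11) (.e (nat_lit 24628) (nat_lit 9) (.e (nat_lit 336019) (nat_lit 3) (.e (nat_lit 98319) (nat_lit 17) .nil)))))) (.g (nat_lit 0) .nil .nil))))) (.nd (nat_lit 4) (.nd (nat_lit 5) 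
(.lf (nat_lit 128910) (.g (nat_lit 1233) (.e (nat_lit 7593) (nat_lit 407) (.e (nat_lit 73753) (nat_lit 8) (.e (nat_lit 557070) (nat_lit 9) (.e (nat_lit 313) (nat_lit 23) .nil)))) .nil)) 
(.lf (nat_lit 128942) (.g (nat_lit 1580) (.e (nat_lit 7593) (nat_lit 407) (.e (nat_lit 73754) (nat_lit 8) (.e (nat_lit 557066) (nat_lit 9) (.e (nat_lit 321) (nat_lit 24) (.e (nat_lit 360466) (nat_lit 3) .nil))))) .nil))) (.nd (nat_lit 5) 
(.lf (nat_lit 128926) (.g (nat_lit 1175) (.e (nat_lit 7593) (nat_lit 407) (.e (nat_lit 73753) (nat_lit 8) (.e (nat_lit 557086) (nat_lit 11) (.e (nat_lit 24644) (nat_lit 11) .nil)))) .nil)) 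
(.lf (nat_lit 128958) (.g (nat_lit 2233) (.e (nat_lit 7593) (nat_lit 407) (.e (nat_lit 73754) (nat_lit 8) (.e (nat_lit 557085) (nat_lit 11) (.e (nat_lit 24643) (nat_lit 11) (.e (nat_lit 368676) (nat_lit 21) (.e (nat_lit 516098) (nat_lit 0) .nil)))))) (.g (nat_lit 5) .nil .nil)))))))) (.nd (nat_lit 1) (.nd (nat_lit 2) (.nd (nat_lit 3) (.nd (nat_lit 4) (.nd (nat_lit 5) 
(.lf (nat_lit 128897) (.g (nat_lit 2422) (.e (nat_lit 7593) (nat_lit 407) (.e (nat_lit 73751) (nat_lit 7) (.e (nat_lit 548891) (nat_lit 11) (.e (nat_lit 81956) (nat_lit 23) (.e (nat_lit 98319) (nat_lit 17) .nil))))) (.g (nat_lit 0) .nil .nil))) 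
(.lf (nat_lit 128929) (.g (nat_lit 2065) (.e (nat_lit 7593) (nat_lit 407) (.e (nat_lit 73753) (nat_lit 8) (.e (nat_lit 557087) (nat_lit 11) (.e (nat_lit 24625) (nat_lit 9) (.e (nat_lit 343808) (nat_lit 3) (.e (nat_lit 98320) (nat_lit 17) .nil)))))) (.g (nat_lit 4) .nil .nil)))) (.nd (nat_lit 5) 
(.lf (nat_lit 128913) (.g (nat_lit 1457) (.e (nat_lit 7593) (nat_lit 407) (.e (nat_lit 73753) (nat_lit 8) (.e (nat_lit 557081) (nat_lit 9) (.e (nat_lit 316) (nat_lit 23) (.e (nat_lit 352315) (nat_lit 23) .nil))))) .nil)) 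
(.lf (nat_lit 128945) (.g (nat_lit 1268) (.e (nat_lit 7593) (nat_lit 407) (.e (nat_lit 73754) (nat_lit 8) (.e (nat_lit 557072) (nat_lit 9) (.e (nat_lit 290) (nat_lit 21) .nil)))) .nil)))) (.nd (nat_lit 4) (.nd (nat_lit 5) 
(.lf (nat_lit 128905) (.g (nat_lit 1540) (.e (nat_lit 7593) (nat_lit 407) (.e (nat_lit 73753) (nat_lit 8) (.e (nat_lit 557065) (nat_lit 9) (.e (nat_lit 7936) (nat_lit 24) .nil)))) .nil)) 
(.lf (nat_lit 128937) (.g (nat_lit 2430) (.e (nat_lit 7593) (nat_lit 407) (.e (nat_lit 73754) (nat_lit 8) (.e (nat_lit 557064) (nat_lit 9) (.e (nat_lit 314) (nat_lit 23) (.e (nat_lit 352315) (nat_lit 23) (.e (nat_lit 98319) (nat_lit 17) .nil)))))) (.g (nat_lit 5) .nil .nil)))) (.nd (nat_lit 5) 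
(.lf (nat_lit 128921) (.g (nat_lit 3074) (.e (nat_lit 7593) (nat_lit 407) (.e (nat_lit 73753) (nat_lit 8) (.e (nat_lit 557086) (nat_lit 11) (.e (nat_lit 24628) (nat_lit 9) (.e (nat_lit 336019) (nat_lit 3) (.e (nat_lit 98319) (nat_lit 17) .nil)))))) (.g (nat_lit 5) .nil .nil))) 
(.lf (nat_lit 128953) (.g (nat_lit 2608) (.e (nat_lit 7593) (nat_lit 407) (.e (nat_lit 73754) (nat_lit 8) (.e (nat_lit 557085) (nat_lit 11) (.e (nat_lit 24636) (nat_lit 9) (.e (nat_lit 336017) (nat_lit 3) (.e (nat_lit 98320) (nat_lit 17) .nil)))))) (.g (nat_lit 5) .nil .nil)))))) (.nd (nat_lit 3) (.nd (nat_lit 4) (.nd (nat_lit 5) 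
(.lf (nat_lit 128901) (.g (nat_lit 1760) (.e (nat_lit 7593) (nat_lit 407) (.e (nat_lit 73753) (nat_lit 8) (.e (nat_lit 557065) (nat_lit 9) (.e (nat_lit 265) (nat_lit 21) .nil)))) .nil)) 
(.lf (nat_lit 128933) (.g (nat_lit 3041) (.e (nat_lit 7593) (nat_lit 407) (.e (nat_lit 73753) (nat_lit 8) (.e (nat_lit 557087) (nat_lit 11) (.e (nat_lit 24641) (nat_lit 10) (.e (nat_lit 344117) (nat_lit 21) .nil))))) .nil))) (.nd (nat_lit 5) 
(.lf (nat_lit 128917) (.g (nat_lit 2250) (.e (nat_lit 7593) (nat_lit 407) (.e (nat_lit 73753) (nat_lit 8) (.e (nat_lit 557085) (nat_lit 11) (.e (nat_lit 24636) (nat_lit 9) (.e (nat_lit 336017) (nat_lit 3) (.e (nat_lit 98320) (nat_lit 17) .nil)))))) (.g (nat_lit 4) .nil .nil))) 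
(.lf (nat_lit 128949) (.g (nat_lit 2039) (.e (nat_lit 7593) (nat_lit 407) (.e (nat_lit 73754) (nat_lit 8) (.e (nat_lit 557074) (nat_lit 9) (.e (nat_lit 284) (nat_lit 21) (.e (nat_lit 336186) (nat_lit 11) (.e (nat_lit 368676) (nat_lit 21) (.e (nat_lit 516098) (nat_lit 0) .nil))))))) (.g (nat_lit 4) .nil .nil))))) (.nd (nat_lit 4) (.nd (nat_lit 5) 
(.lf (nat_lit 128909) (.g (nat_lit 1496) (.e (nat_lit 7593) (nat_lit 407) (.e (nat_lit 73753) (nat_lit 8) (.e (nat_lit 557067) (nat_lit 9) (.e (nat_lit 7936) (nat_lit 23) .nil)))) .nil)) 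
(.lf (nat_lit 128941) (.g (nat_lit 1991) (.e (nat_lit 7593) (nat_lit 407) (.e (nat_lit 73754) (nat_lit 8) (.e (nat_lit 557066) (nat_lit 9) (.e (nat_lit 314) (nat_lit 23) (.e (nat_lit 352315) (nat_lit 23) .nil))))) .nil))) (.nd (nat_lit 5) 
(.lf (nat_lit 128925) (.g (nat_lit 1739) (.e (nat_lit 7593) (nat_lit 407) (.e (nat_lit 73753) (nat_lit 8) (.e (nat_lit 557086) (nat_lit 11) (.e (nat_lit 24639) (nat_lit 10) (.e (nat_lit 344117) (nat_lit 21) .nil))))) .nil)) 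
(.lf (nat_lit 128957) (.g (nat_lit 2589) (.e (nat_lit 7593) (nat_lit 407) (.e (nat_lit 73754) (nat_lit 8) (.e (nat_lit 557085) (nat_lit 11) (.e (nat_lit 24643) (nat_lit 11) (.e (nat_lit 368676) (nat_lit 21) (.e (nat_lit 516097) (nat_lit 0) .nil)))))) (.g (nat_lit 5) .nil .nil))))))) (.nd (nat_lit 2) (.nd (nat_lit 3) (.nd (nat_lit 4) (.nd (nat_lit 5) 
(.lf (nat_lit 128899) (.g (nat_lit 594) (.e (nat_lit 7593) (nat_lit 407) (.e (nat_lit 73753) (nat_lit 8) (.e (nat_lit 557064) (nat_lit 9) .nil))) .nil)) 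
(.lf (nat_lit 128931) (.g (nat_lit 1901) (.e (nat_lit 7593) (nat_lit 407) (.e (nat_lit 73753) (nat_lit 8) (.e (nat_lit 557087) (nat_lit 11) (.e (nat_lit 24631) (nat_lit 9) (.e (nat_lit 335923) (nat_lit 0) .nil))))) .nil))) (.nd (nat_lit 5) 
(.lf (nat_lit 128915) (.g (nat_lit 3726) (.e (nat_lit 7593) (nat_lit 407) (.e (nat_lit 73753) (nat_lit 8) (.e (nat_lit 557085) (nat_lit 11) (.e (nat_lit 24628) (nat_lit 9) (.e (nat_lit 336019) (nat_lit 3) (.e (nat_lit 98320) (nat_lit 17) .nil)))))) (.g (nat_lit 6) .nil .nil))) 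
(.lf (nat_lit 128947) (.g (nat_lit 1028) (.e (nat_lit 7593) (nat_lit 407) (.e (nat_lit 73754) (nat_lit 8) (.e (nat_lit 557073) (nat_lit 9) (.e (nat_lit 290) (nat_lit 21) .nil)))) .nil)))) (.nd (nat_lit 4) (.nd (nat_lit 5) 
(.lf (nat_lit 128907) (.g (nat_lit 2070) (.e (nat_lit 7593) (nat_lit 407) (.e (nat_lit 73753) (nat_lit 8) (.e (nat_lit 557066) (nat_lit 9) (.e (nat_lit 314) (nat_lit 23) (.e (nat_lit 352294) (nat_lit 20) .nil))))) .nil)) 
(.lf (nat_lit 128939) (.g (nat_lit 1118) (.e (nat_lit 7593) (nat_lit 407) (.e (nat_lit 73754) (nat_lit 8) (.e (nat_lit 557065) (nat_lit 9) (.e (nat_lit 321) (nat_lit 24) .nil)))) .nil))) (.nd (nat_lit 5) 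
(.lf (nat_lit 128923) (.g (nat_lit 1483) (.e (nat_lit 7593) (nat_lit 407) (.e (nat_lit 73753) (nat_lit 8) (.e (nat_lit 557086) (nat_lit 11) (.e (nat_lit 24636) (nat_lit 9) (.e (nat_lit 336017) (nat_lit 3) .nil))))) .nil)) 
(.lf (nat_lit 128955) (.g (nat_lit 3935) (.e (nat_lit 7593) (nat_lit 407) (.e (nat_lit 73754) (nat_lit 8) (.e (nat_lit 557085) (nat_lit 11) (.e (nat_lit 24640) (nat_lit 10) (.e (nat_lit 344117) (nat_lit 21) (.e (nat_lit 516097) (nat_lit 0) .nil)))))) (.g (nat_lit 5) .nil .nil)))))) (.nd (nat_lit 3) (.nd (nat_lit 4) (.nd (nat_lit 5) 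
(.lf (nat_lit 128903) (.g (nat_lit 1540) (.e (nat_lit 7593) (nat_lit 407) (.e (nat_lit 73753) (nat_lit 8) (.e (nat_lit 557065) (nat_lit 9) (.e (nat_lit 7936) (nat_lit 23) .nil)))) .nil)) 
(.lf (nat_lit 128935) (.g (nat_lit 2518) (.e (nat_lit 7593) (nat_lit 407) (.e (nat_lit 73753) (nat_lit 8) (.e (nat_lit 557087) (nat_lit 11) (.e (nat_lit 24642) (nat_lit 11) (.e (nat_lit 368676) (nat_lit 21) (.e (nat_lit 516097) (nat_lit 0) .nil)))))) (.g (nat_lit 4) .nil .nil)))) (.nd (nat_lit 5) 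
(.lf (nat_lit 128919) (.g (nat_lit 2185) (.e (nat_lit 7593) (nat_lit 407) (.e (nat_lit 73753) (nat_lit 8) (.e (nat_lit 557085) (nat_lit 11) (.e (nat_lit 24639) (nat_lit 10) (.e (nat_lit 344117) (nat_lit 21) .nil))))) .nil)) 
(.lf (nat_lit 128951) (.g (nat_lit 1928) (.e (nat_lit 7593) (nat_lit 407) (.e (nat_lit 73754) (nat_lit 8) (.e (nat_lit 557085) (nat_lit 11) (.e (nat_lit 24631) (nat_lit 9) (.e (nat_lit 336020) (nat_lit 3) .nil))))) .nil)))) (.nd (nat_lit 4) (.nd (nat_lit 5) 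
(.lf (nat_lit 128911) (.g (nat_lit 594) (.e (nat_lit 7593) (nat_lit 407) (.e (nat_lit 73753) (nat_lit 8) (.e (nat_lit 557071) (nat_lit 9) .nil))) .nil)) 
(.lf (nat_lit 128943) (.g (nat_lit 1611) (.e (nat_lit 7593) (nat_lit 407) (.e (nat_lit 73754) (nat_lit 8) (.e (nat_lit 557070) (nat_lit 9) (.e (nat_lit 331) (nat_lit 26) .nil)))) .nil))) (.nd (nat_lit 5) 
(.lf (nat_lit 128927) (.g (nat_lit 2220) (.e (nat_lit 7593) (nat_lit 407) (.e (nat_lit 73753) (nat_lit 8) (.e (nat_lit 557087) (nat_lit 11) (.e (nat_lit 24625) (nat_lit 9) (.e (nat_lit 335969) (nat_lit 0) .nil))))) .nil)) 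
(.lf (nat_lit 128959) (.g (nat_lit 2910) (.e (nat_lit 7593) (nat_lit 407) (.e (nat_lit 73754) (nat_lit 8) (.e (nat_lit 557085) (nat_lit 11) (.e (nat_lit 24644) (nat_lit 11) (.e (nat_lit 368676) (nat_lit 21) (.e (nat_lit 516098) (nat_lit 0) .nil)))))) (.g (nat_lit 5) .nil .nil)))))))))

noncomputable def tv1724 : DT := (.nd (nat_lit 0) (.nd (nat_lit 1) (.nd (nat_lit 2) (.nd (nat_lit 3) (.nd (nat_lit 4) (.nd (nat_lit 5) 
(.lf (nat_lit 128960) (.g (nat_lit 1760) (.e (nat_lit 7593) (nat_lit 407) (.e (nat_lit 73754) (nat_lit 8) (.e (nat_lit 557086) (nat_lit 11) (.e (nat_lit 24628) (nat_lit 9) (.e (nat_lit 336019) (nat_lit 3) (.e (nat_lit 98319) (nat_lit 17) .nil)))))) (.g (nat_lit 4) .nil .nil))) 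
(.lf (nat_lit 128992) (.g (nat_lit 757) (.e (nat_lit 7593) (nat_lit 407) (.e (nat_lit 73755) (nat_lit 8) (.e (nat_lit 557085) (nat_lit 11) .nil))) .nil))) (.nd (nat_lit 5) 
(.lf (nat_lit 128976) (.g (nat_lit 1817) (.e (nat_lit 7593) (nat_lit 407) (.e (nat_lit 73754) (nat_lit 8) (.e (nat_lit 557087) (nat_lit 11) (.e (nat_lit 24646) (nat_lit 11) .nil)))) .nil)) 
(.lf (nat_lit 129008) (.g (nat_lit 2708) (.e (nat_lit 7593) (nat_lit 407) (.e (nat_lit 73755) (nat_lit 8) (.e (nat_lit 557087) (nat_lit 11) (.e (nat_lit 24636) (nat_lit 9) (.e (nat_lit 336017) (nat_lit 3) (.e (nat_lit 98319) (nat_lit 17) .nil)))))) (.g (nat_lit 6) .nil .nil))))) (.nd (nat_lit 4) (.nd (nat_lit 5) 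
(.lf (nat_lit 128968) (.g (nat_lit 3695) (.e (nat_lit 7593) (nat_lit 407) (.e (nat_lit 73754) (nat_lit 8) (.e (nat_lit 557087) (nat_lit 11) (.e (nat_lit 24638) (nat_lit 9) (.e (nat_lit 336021) (nat_lit 3) (.e (nat_lit 98320) (nat_lit 17) .nil)))))) (.g (nat_lit 5) .nil .nil))) 
(.lf (nat_lit 129000) (.g (nat_lit 1547) (.e (nat_lit 7593) (nat_lit 407) (.e (nat_lit 73755) (nat_lit 8) (.e (nat_lit 557086) (nat_lit 11) (.e (nat_lit 24639) (nat_lit 10) (.e (nat_lit 344117) (nat_lit 21) .nil))))) .nil))) (.nd (nat_lit 5) 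
(.lf (nat_lit 128984) (.g (nat_lit 2699) (.e (nat_lit 7593) (nat_lit 407) (.e (nat_lit 73755) (nat_lit 8) (.e (nat_lit 557067) (nat_lit 9) (.e (nat_lit 290) (nat_lit 21) (.e (nat_lit 336186) (nat_lit 11) .nil))))) .nil)) 
(.lf (nat_lit 129016) (.g (nat_lit 1111) (.e (nat_lit 7593) (nat_lit 407) (.e (nat_lit 73772) (nat_lit 24) (.e (nat_lit 761868) (nat_lit 5) (.e (nat_lit 1574) (nat_lit 110) (.e (nat_lit 352276) (nat_lit 11) (.e (nat_lit 425984) (nat_lit 0) .nil)))))) (.g (nat_lit 4) .nil .nil)))))) (.nd (nat_lit 3) (.nd (nat_lit 4) (.nd (nat_lit 5) 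
(.lf (nat_lit 128964) (.g (nat_lit 3076) (.e (nat_lit 7593) (nat_lit 407) (.e (nat_lit 73754) (nat_lit 8) (.e (nat_lit 557087) (nat_lit 11) (.e (nat_lit 24628) (nat_lit 9) (.e (nat_lit 336019) (nat_lit 3) (.e (nat_lit 98320) (nat_lit 17) .nil)))))) (.g (nat_lit 4) .nil .nil))) 
(.lf (nat_lit 128996) (.g (nat_lit 2809) (.e (nat_lit 7593) (nat_lit 407) (.e (nat_lit 73755) (nat_lit 8) (.e (nat_lit 557086) (nat_lit 11) (.e (nat_lit 24628) (nat_lit 9) (.e (nat_lit 336019) (nat_lit 3) (.e (nat_lit 98319) (nat_lit 17) .nil)))))) (.g (nat_lit 5) .nil .nil)))) (.nd (nat_lit 5) 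
(.lf (nat_lit 128980) (.g (nat_lit 1142) (.e (nat_lit 7593) (nat_lit 407) (.e (nat_lit 73755) (nat_lit 8) (.e (nat_lit 557065) (nat_lit 9) (.e (nat_lit 7936) (nat_lit 24) .nil)))) .nil)) 
(.lf (nat_lit 129012) (.g (nat_lit 1233) (.e (nat_lit 7593) (nat_lit 407) (.e (nat_lit 73772) (nat_lit 24) (.e (nat_lit 761866) (nat_lit 5) (.e (nat_lit 1574) (nat_lit 110) (.e (nat_lit 352276) (nat_lit 11) (.e (nat_lit 425984) (nat_lit 0) .nil)))))) (.g (nat_lit 4) .nil .nil))))) (.nd (nat_lit 4) (.nd (nat_lit 5) 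
(.lf (nat_lit 128972) (.g (nat_lit 4395) (.e (nat_lit 7593) (nat_lit 407) (.e (nat_lit 73754) (nat_lit 8) (.e (nat_lit 557087) (nat_lit 11) (.e (nat_lit 24640) (nat_lit 10) (.e (nat_lit 344117) (nat_lit 21) (.e (nat_lit 516098) (nat_lit 0) .nil)))))) (.g (nat_lit 6) .nil .nil))) 
(.lf (nat_lit 129004) (.g (nat_lit 3383) (.e (nat_lit 7593) (nat_lit 407) (.e (nat_lit 73755) (nat_lit 8) (.e (nat_lit 557087) (nat_lit 11) (.e (nat_lit 24628) (nat_lit 9) (.e (nat_lit 336019) (nat_lit 3) (.e (nat_lit 98319) (nat_lit 17) .nil)))))) (.g (nat_lit 0) .nil .nil)))) (.nd (nat_lit 5) 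
(.lf (nat_lit 128988) (.g (nat_lit 1464) (.e (nat_lit 7593) (nat_lit 407) (.e (nat_lit 73755) (nat_lit 8) (.e (nat_lit 557067) (nat_lit 9) (.e (nat_lit 7936) (nat_lit 26) .nil)))) .nil)) 
(.lf (nat_lit 129020) (.g (nat_lit 2408) (.e (nat_lit 7593) (nat_lit 407) (.e (nat_lit 73772) (nat_lit 24) (.e (nat_lit 761869) (nat_lit 5) (.e (nat_lit 1555) (nat_lit 110) (.e (nat_lit 352277) (nat_lit 11) (.e (nat_lit 426012) (nat_lit 0) .nil)))))) (.g (nat_lit 0) .nil .nil))))))) (.nd (nat_lit 2) (.nd (nat_lit 3) (.nd (nat_lit 4) (.nd (nat_lit 5) 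
(.lf (nat_lit 128962) (.g (nat_lit 2391) (.e (nat_lit 7593) (nat_lit 407) (.e (nat_lit 73754) (nat_lit 8) (.e (nat_lit 557086) (nat_lit 11) (.e (nat_lit 24638) (nat_lit 9) (.e (nat_lit 336021) (nat_lit 3) (.e (nat_lit 98320) (nat_lit 17) .nil)))))) (.g (nat_lit 5) .nil .nil))) 
(.lf (nat_lit 128994) (.g (nat_lit 2484) (.e (nat_lit 7593) (nat_lit 407) (.e (nat_lit 73755) (nat_lit 8) (.e (nat_lit 557085) (nat_lit 11) (.e (nat_lit 24628) (nat_lit 9) (.e (nat_lit 336019) (nat_lit 3) (.e (nat_lit 98320) (nat_lit 17) .nil)))))) (.g (nat_lit 4) .nil .nil)))) (.nd (nat_lit 5) 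
(.lf (nat_lit 128978) (.g (nat_lit 1490) (.e (nat_lit 7593) (nat_lit 407) (.e (nat_lit 73755) (nat_lit 8) (.e (nat_lit 557065) (nat_lit 9) (.e (nat_lit 315) (nat_lit 23) (.e (nat_lit 352315) (nat_lit 23) .nil))))) .nil)) 
(.lf (nat_lit 129010) (.g (nat_lit 2451) (.e (nat_lit 7593) (nat_lit 407) (.e (nat_lit 73755) (nat_lit 8) (.e (nat_lit 557087) (nat_lit 11) (.e (nat_lit 24641) (nat_lit 10) (.e (nat_lit 344119) (nat_lit 21) .nil))))) .nil)))) (.nd (nat_lit 4) (.nd (nat_lit 5) 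
(.lf (nat_lit 128970) (.g (nat_lit 3510) (.e (nat_lit 7593) (nat_lit 407) (.e (nat_lit 73754) (nat_lit 8) (.e (nat_lit 557087) (nat_lit 11) (.e (nat_lit 24639) (nat_lit 10) (.e (nat_lit 344117) (nat_lit 21) (.e (nat_lit 516098) (nat_lit 0) .nil)))))) (.g (nat_lit 6) .nil .nil))) 
(.lf (nat_lit 129002) (.g (nat_lit 1538) (.e (nat_lit 7593) (nat_lit 407) (.e (nat_lit 73755) (nat_lit 8) (.e (nat_lit 557087) (nat_lit 11) (.e (nat_lit 24625) (nat_lit 9) (.e (nat_lit 343808) (nat_lit 3) .nil))))) .nil))) (.nd (nat_lit 5) 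
(.lf (nat_lit 128986) (.g (nat_lit 1464) (.e (nat_lit 7593) (nat_lit 407) (.e (nat_lit 73755) (nat_lit 8) (.e (nat_lit 557067) (nat_lit 9) (.e (nat_lit 7936) (nat_lit 23) .nil)))) .nil)) 
(.lf (nat_lit 129018) (.g (nat_lit 2228) (.e (nat_lit 7593) (nat_lit 407) (.e (nat_lit 73772) (nat_lit 24) (.e (nat_lit 761868) (nat_lit 5) (.e (nat_lit 1574) (nat_lit 110) (.e (nat_lit 352277) (nat_lit 11) (.e (nat_lit 426012) (nat_lit 0) .nil)))))) (.g (nat_lit 0) .nil .nil)))))) (.nd (nat_lit 3) (.nd (nat_lit 4) (.nd (nat_lit 5) 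
(.lf (nat_lit 128966) (.g (nat_lit 2691) (.e (nat_lit 7593) (nat_lit 407) (.e (nat_lit 73754) (nat_lit 8) (.e (nat_lit 557087) (nat_lit 11) (.e (nat_lit 24636) (nat_lit 9) (.e (nat_lit 336017) (nat_lit 3) (.e (nat_lit 98319) (nat_lit 17) .nil)))))) (.g (nat_lit 4) .nil .nil))) 
(.lf (nat_lit 128998) (.g (nat_lit 1365) (.e (nat_lit 7593) (nat_lit 407) (.e (nat_lit 73755) (nat_lit 8) (.e (nat_lit 557086) (nat_lit 11) (.e (nat_lit 24636) (nat_lit 9) (.e (nat_lit 336017) (nat_lit 3) .nil))))) .nil))) (.nd (nat_lit 5) 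
(.lf (nat_lit 128982) (.g (nat_lit 2707) (.e (nat_lit 7593) (nat_lit 407) (.e (nat_lit 73755) (nat_lit 8) (.e (nat_lit 557067) (nat_lit 9) (.e (nat_lit 20) (nat_lit 0) (.e (nat_lit 6516) (nat_lit 347) .nil))))) .nil)) 
(.lf (nat_lit 129014) (.g (nat_lit 2335) (.e (nat_lit 7593) (nat_lit 407) (.e (nat_lit 73772) (nat_lit 24) (.e (nat_lit 761866) (nat_lit 5) (.e (nat_lit 1574) (nat_lit 110) (.e (nat_lit 352277) (nat_lit 11) (.e (nat_lit 426012) (nat_lit 0) .nil)))))) (.g (nat_lit 0) .nil .nil))))) (.nd (nat_lit 4) (.nd (nat_lit 5) 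
(.lf (nat_lit 128974) (.g (nat_lit 3325) (.e (nat_lit 7593) (nat_lit 407) (.e (nat_lit 73754) (nat_lit 8) (.e (nat_lit 557087) (nat_lit 11) (.e (nat_lit 24644) (nat_lit 11) (.e (nat_lit 368676) (nat_lit 21) (.e (nat_lit 516097) (nat_lit 0) .nil)))))) (.g (nat_lit 5) .nil .nil))) 
(.lf (nat_lit 129006) (.g (nat_lit 2456) (.e (nat_lit 7593) (nat_lit 407) (.e (nat_lit 73755) (nat_lit 8) (.e (nat_lit 557087) (nat_lit 11) (.e (nat_lit 24631) (nat_lit 9) (.e (nat_lit 336020) (nat_lit 3) (.e (nat_lit 98319) (nat_lit 17) .nil)))))) (.g (nat_lit 6) .nil .nil)))) (.nd (nat_lit 5) 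
(.lf (nat_lit 128990) (.g (nat_lit 1667) (.e (nat_lit 7593) (nat_lit 407) (.e (nat_lit 73755) (nat_lit 8) (.e (nat_lit 557070) (nat_lit 9) (.e (nat_lit 333) (nat_lit 26) (.e (nat_lit 376869) (nat_lit 23) .nil))))) .nil)) 
(.lf (nat_lit 129022) (.g (nat_lit 1147) (.e (nat_lit 7593) (nat_lit 407) (.e (nat_lit 73772) (nat_lit 24) (.e (nat_lit 761870) (nat_lit 5) (.e (nat_lit 1427) (nat_lit 108) (.e (nat_lit 336211) (nat_lit 13) .nil))))) .nil))))))) (.nd (nat_lit 1) (.nd (nat_lit 2) (.nd (nat_lit 3) (.nd (nat_lit 4) (.nd (nat_lit 5) 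
(.lf (nat_lit 128961) (.g (nat_lit 2008) (.e (nat_lit 7593) (nat_lit 407) (.e (nat_lit 73754) (nat_lit 8) (.e (nat_lit 557086) (nat_lit 11) (.e (nat_lit 24628) (nat_lit 9) (.e (nat_lit 336019) (nat_lit 3) (.e (nat_lit 98320) (nat_lit 17) .nil)))))) (.g (nat_lit 4) .nil .nil))) 
(.lf (nat_lit 128993) (.g (nat_lit 2381) (.e (nat_lit 7593) (nat_lit 407) (.e (nat_lit 73755) (nat_lit 8) (.e (nat_lit 557085) (nat_lit 11) (.e (nat_lit 24628) (nat_lit 9) (.e (nat_lit 336019) (nat_lit 3) (.e (nat_lit 98319) (nat_lit 17) .nil)))))) (.g (nat_lit 4) .nil .nil)))) (.nd (nat_lit 5) 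
(.lf (nat_lit 128977) (.g (nat_lit 757) (.e (nat_lit 7593) (nat_lit 407) (.e (nat_lit 73755) (nat_lit 8) (.e (nat_lit 557064) (nat_lit 9) .nil))) .nil)) 
(.lf (nat_lit 129009) (.g (nat_lit 2723) (.e (nat_lit 7593) (nat_lit 407) (.e (nat_lit 73755) (nat_lit 8) (.e (nat_lit 557087) (nat_lit 11) (.e (nat_lit 24636) (nat_lit 9) (.e (nat_lit 336017) (nat_lit 3) (.e (nat_lit 98320) (nat_lit 17) .nil)))))) (.g (nat_lit 0) .nil .nil))))) (.nd (nat_lit 4) (.nd (nat_lit 5) 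
(.lf (nat_lit 128969) (.g (nat_lit 3873) (.e (nat_lit 7593) (nat_lit 407) (.e (nat_lit 73754) (nat_lit 8) (.e (nat_lit 557087) (nat_lit 11) (.e (nat_lit 24639) (nat_lit 10) (.e (nat_lit 344117) (nat_lit 21) (.e (nat_lit 516097) (nat_lit 0) .nil)))))) (.g (nat_lit 0) .nil .nil))) 
(.lf (nat_lit 129001) (.g (nat_lit 997) (.e (nat_lit 7593) (nat_lit 407) (.e (nat_lit 73755) (nat_lit 8) (.e (nat_lit 557086) (nat_lit 11) (.e (nat_lit 24644) (nat_lit 11) .nil)))) .nil))) (.nd (nat_lit 5) 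
(.lf (nat_lit 128985) (.g (nat_lit 1464) (.e (nat_lit 7593) (nat_lit 407) (.e (nat_lit 73755) (nat_lit 8) (.e (nat_lit 557067) (nat_lit 9) (.e (nat_lit 7936) (nat_lit 21) .nil)))) .nil)) 
(.lf (nat_lit 129017) (.g (nat_lit 1660) (.e (nat_lit 7593) (nat_lit 407) (.e (nat_lit 73772) (nat_lit 24) (.e (nat_lit 761868) (nat_lit 5) (.e (nat_lit 1574) (nat_lit 110) (.e (nat_lit 352277) (nat_lit 11) (.e (nat_lit 426009) (nat_lit 0) .nil)))))) (.g (nat_lit 0) .nil .nil)))))) (.nd (nat_lit 3) (.nd (nat_lit 4) (.nd (nat_lit 5) 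
(.lf (nat_lit 128965) (.g (nat_lit 1763) (.e (nat_lit 7593) (nat_lit 407) (.e (nat_lit 73754) (nat_lit 8) (.e (nat_lit 557087) (nat_lit 11) (.e (nat_lit 24634) (nat_lit 9) (.e (nat_lit 336023) (nat_lit 3) .nil))))) .nil)) 
(.lf (nat_lit 128997) (.g (nat_lit 3035) (.e (nat_lit 7593) (nat_lit 407) (.e (nat_lit 73755) (nat_lit 8) (.e (nat_lit 557086) (nat_lit 11) (.e (nat_lit 24628) (nat_lit 9) (.e (nat_lit 336019) (nat_lit 3) (.e (nat_lit 98320) (nat_lit 17) .nil)))))) (.g (nat_lit 6) .nil .nil)))) (.nd (nat_lit 5) 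
(.lf (nat_lit 128981) (.g (nat_lit 1966) (.e (nat_lit 7593) (nat_lit 407) (.e (nat_lit 73755) (nat_lit 8) (.e (nat_lit 557066) (nat_lit 9) (.e (nat_lit 314) (nat_lit 23) (.e (nat_lit 352294) (nat_lit 20) .nil))))) .nil)) 
(.lf (nat_lit 129013) (.g (nat_lit 1774) (.e (nat_lit 7593) (nat_lit 407) (.e (nat_lit 73772) (nat_lit 24) (.e (nat_lit 761866) (nat_lit 5) (.e (nat_lit 1574) (nat_lit 110) (.e (nat_lit 352277) (nat_lit 11) (.e (nat_lit 426009) (nat_lit 0) .nil)))))) (.g (nat_lit 0) .nil .nil))))) (.nd (nat_lit 4) (.nd (nat_lit 5) 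
(.lf (nat_lit 128973) (.g (nat_lit 2304) (.e (nat_lit 7593) (nat_lit 407) (.e (nat_lit 73754) (nat_lit 8) (.e (nat_lit 557087) (nat_lit 11) (.e (nat_lit 24643) (nat_lit 11) (.e (nat_lit 368676) (nat_lit 21) (.e (nat_lit 516097) (nat_lit 0) .nil)))))) (.g (nat_lit 4) .nil .nil))) 
(.lf (nat_lit 129005) (.g (nat_lit 1824) (.e (nat_lit 7593) (nat_lit 407) (.e (nat_lit 73755) (nat_lit 8) (.e (nat_lit 557087) (nat_lit 11) (.e (nat_lit 24631) (nat_lit 9) (.e (nat_lit 335923) (nat_lit 0) .nil))))) .nil))) (.nd (nat_lit 5) 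
(.lf (nat_lit 128989) (.g (nat_lit 1662) (.e (nat_lit 7593) (nat_lit 407) (.e (nat_lit 73755) (nat_lit 8) (.e (nat_lit 557070) (nat_lit 9) (.e (nat_lit 333) (nat_lit 26) (.e (nat_lit 376867) (nat_lit 23) .nil))))) .nil)) 
(.lf (nat_lit 129021) (.g (nat_lit 2613) (.e (nat_lit 7593) (nat_lit 407) (.e (nat_lit 73772) (nat_lit 24) (.e (nat_lit 761869) (nat_lit 5) (.e (nat_lit 1574) (nat_lit 110) (.e (nat_lit 352277) (nat_lit 11) (.e (nat_lit 426012) (nat_lit 0) .nil)))))) (.g (nat_lit 0) .nil .nil))))))) (.nd (nat_lit 2) (.nd (nat_lit 3) (.nd (nat_lit 4) (.nd (nat_lit 5) 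
(.lf (nat_lit 128963) (.g (nat_lit 3074) (.e (nat_lit 7593) (nat_lit 407) (.e (nat_lit 73754) (nat_lit 8) (.e (nat_lit 557087) (nat_lit 11) (.e (nat_lit 24628) (nat_lit 9) (.e (nat_lit 336019) (nat_lit 3) (.e (nat_lit 98319) (nat_lit 17) .nil)))))) (.g (nat_lit 4) .nil .nil))) 
(.lf (nat_lit 128995) (.g (nat_lit 1678) (.e (nat_lit 7593) (nat_lit 407) (.e (nat_lit 73755) (nat_lit 8) (.e (nat_lit 557085) (nat_lit 11) (.e (nat_lit 24644) (nat_lit 11) .nil)))) .nil))) (.nd (nat_lit 5) 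
(.lf (nat_lit 128979) (.g (nat_lit 1740) (.e (nat_lit 7593) (nat_lit 407) (.e (nat_lit 73755) (nat_lit 8) (.e (nat_lit 557065) (nat_lit 9) (.e (nat_lit 321) (nat_lit 24) (.e (nat_lit 360467) (nat_lit 3) .nil))))) .nil)) 
(.lf (nat_lit 129011) (.g (nat_lit 2079) (.e (nat_lit 7593) (nat_lit 407) (.e (nat_lit 73755) (nat_lit 8) (.e (nat_lit 557087) (nat_lit 11) (.e (nat_lit 24645) (nat_lit 11) (.e (nat_lit 368676) (nat_lit 21) (.e (nat_lit 516097) (nat_lit 0) .nil)))))) (.g (nat_lit 4) .nil .nil))))) (.nd (nat_lit 4) (.nd (nat_lit 5) 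
(.lf (nat_lit 128971) (.g (nat_lit 4761) (.e (nat_lit 7593) (nat_lit 407) (.e (nat_lit 73754) (nat_lit 8) (.e (nat_lit 557087) (nat_lit 11) (.e (nat_lit 24640) (nat_lit 10) (.e (nat_lit 344117) (nat_lit 21) (.e (nat_lit 516097) (nat_lit 0) .nil)))))) (.g (nat_lit 0) .nil .nil))) 
(.lf (nat_lit 129003) (.g (nat_lit 1818) (.e (nat_lit 7593) (nat_lit 407) (.e (nat_lit 73755) (nat_lit 8) (.e (nat_lit 557087) (nat_lit 11) (.e (nat_lit 24625) (nat_lit 9) (.e (nat_lit 343808) (nat_lit 3) (.e (nat_lit 98320) (nat_lit 17) .nil)))))) (.g (nat_lit 4) .nil .nil)))) (.nd (nat_lit 5) 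
(.lf (nat_lit 128987) (.g (nat_lit 1464) (.e (nat_lit 7593) (nat_lit 407) (.e (nat_lit 73755) (nat_lit 8) (.e (nat_lit 557067) (nat_lit 9) (.e (nat_lit 7936) (nat_lit 24) .nil)))) .nil)) 
(.lf (nat_lit 129019) (.g (nat_lit 1822) (.e (nat_lit 7593) (nat_lit 407) (.e (nat_lit 73772) (nat_lit 24) (.e (nat_lit 761869) (nat_lit 5) (.e (nat_lit 1555) (nat_lit 110) (.e (nat_lit 352277) (nat_lit 11) (.e (nat_lit 426009) (nat_lit 0) .nil)))))) (.g (nat_lit 0) .nil .nil)))))) (.nd (nat_lit 3) (.nd (nat_lit 4) (.nd (nat_lit 5) 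
(.lf (nat_lit 128967) (.g (nat_lit 2732) (.e (nat_lit 7593) (nat_lit 407) (.e (nat_lit 73754) (nat_lit 8) (.e (nat_lit 557087) (nat_lit 11) (.e (nat_lit 24636) (nat_lit 9) (.e (nat_lit 336017) (nat_lit 3) (.e (nat_lit 98320) (nat_lit 17) .nil)))))) (.g (nat_lit 4) .nil .nil))) 
(.lf (nat_lit 128999) (.g (nat_lit 2877) (.e (nat_lit 7593) (nat_lit 407) (.e (nat_lit 73755) (nat_lit 8) (.e (nat_lit 557086) (nat_lit 11) (.e (nat_lit 24638) (nat_lit 9) (.e (nat_lit 336021) (nat_lit 3) (.e (nat_lit 98320) (nat_lit 17) .nil)))))) (.g (nat_lit 6) .nil .nil)))) (.nd (nat_lit 5) 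
(.lf (nat_lit 128983) (.g (nat_lit 2137) (.e (nat_lit 7593) (nat_lit 407) (.e (nat_lit 73755) (nat_lit 8) (.e (nat_lit 557067) (nat_lit 9) (.e (nat_lit 290) (nat_lit 21) .nil)))) .nil)) 
(.lf (nat_lit 129015) (.g (nat_lit 1095) (.e (nat_lit 7593) (nat_lit 407) (.e (nat_lit 73772) (nat_lit 24) (.e (nat_lit 761867) (nat_lit 5) (.e (nat_lit 1574) (nat_lit 110) (.e (nat_lit 352276) (nat_lit 11) (.e (nat_lit 425984) (nat_lit 0) .nil)))))) (.g (nat_lit 4) .nil .nil))))) (.nd (nat_lit 4) (.nd (nat_lit 5) 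
(.lf (nat_lit 128975) (.g (nat_lit 2988) (.e (nat_lit 7593) (nat_lit 407) (.e (nat_lit 73754) (nat_lit 8) (.e (nat_lit 557087) (nat_lit 11) (.e (nat_lit 24644) (nat_lit 11) (.e (nat_lit 368676) (nat_lit 21) (.e (nat_lit 516098) (nat_lit 0) .nil)))))) (.g (nat_lit 5) .nil .nil))) 
(.lf (nat_lit 129007) (.g (nat_lit 2609) (.e (nat_lit 7593) (nat_lit 407) (.e (nat_lit 73755) (nat_lit 8) (.e (nat_lit 557087) (nat_lit 11) (.e (nat_lit 24631) (nat_lit 9) (.e (nat_lit 336020) (nat_lit 3) (.e (nat_lit 98320) (nat_lit 17) .nil)))))) (.g (nat_lit 6) .nil .nil)))) (.nd (nat_lit 5) 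
(.lf (nat_lit 128991) (.g (nat_lit 1317) (.e (nat_lit 7593) (nat_lit 407) (.e (nat_lit 73755) (nat_lit 8) (.e (nat_lit 557070) (nat_lit 9) (.e (nat_lit 7936) (nat_lit 26) .nil)))) .nil)) 
(.lf (nat_lit 129023) (.g (nat_lit 2622) (.e (nat_lit 7593) (nat_lit 407) (.e (nat_lit 73773) (nat_lit 25) (.e (nat_lit 770071) (nat_lit 8) (.e (nat_lit 65627) (nat_lit 13) (.e (nat_lit 393232) (nat_lit 17) .nil))))) (.g (nat_lit 0) .nil .nil)))))))))

noncomputable def tv1725 : DT := (.nd (nat_lit 0) (.nd (nat_lit 1) (.nd (nat_lit 2) (.nd (nat_lit 3) (.nd (nat_lit 4) (.nd (nat_lit 5) (.nd (nat_lit 6) 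
(.lf (nat_lit 129024) (.g (nat_lit 1439) (.e (nat_lit 7593) (nat_lit 407) (.e (nat_lit 73773) (nat_lit 25) (.e (nat_lit 770074) (nat_lit 10) (.e (nat_lit 81925) (nat_lit 11) (.e (nat_lit 426009) (nat_lit 0) .nil))))) (.g (nat_lit 5) .nil .nil))) 
(.lf (nat_lit 129088) (.g (nat_lit 2160) (.e (nat_lit 7593) (nat_lit 407) (.e (nat_lit 73775) (nat_lit 26) (.e (nat_lit 778465) (nat_lit 11) (.e (nat_lit 24580) (nat_lit 0) (.e (nat_lit 6510) (nat_lit 345) (.e (nat_lit 16388) (nat_lit 0) .nil)))))) (.g (nat_lit 4) .nil .nil)))) (.nd (nat_lit 6) 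
(.lf (nat_lit 129056) (.g (nat_lit 2091) (.e (nat_lit 7593) (nat_lit 407) (.e (nat_lit 73775) (nat_lit 26) (.e (nat_lit 778362) (nat_lit 9) (.e (nat_lit 268) (nat_lit 21) (.e (nat_lit 336212) (nat_lit 13) .nil))))) .nil)) 
(.lf (nat_lit 129120) (.g (nat_lit 461) (.e (nat_lit 7936) (nat_lit 407) (.e (nat_lit 73729) (nat_lit 0) (.e (nat_lit 3959) (nat_lit 239) .nil))) .nil)))) (.nd (nat_lit 5) (.nd (nat_lit 6) 
(.lf (nat_lit 129040) (.g (nat_lit 1700) (.e (nat_lit 7593) (nat_lit 407) (.e (nat_lit 73775) (nat_lit 26) (.e (nat_lit 778361) (nat_lit 9) (.e (nat_lit 334) (nat_lit 26) (.e (nat_lit 376838) (nat_lit 11) .nil))))) .nil)) 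
(.lf (nat_lit 129104) (.g (nat_lit 1680) (.e (nat_lit 7593) (nat_lit 407) (.e (nat_lit 73775) (nat_lit 26) (.e (nat_lit 778466) (nat_lit 11) (.e (nat_lit 24584) (nat_lit 0) (.e (nat_lit 7936) (nat_lit 345) .nil))))) .nil))) (.nd (nat_lit 6) 
(.lf (nat_lit 129072) (.g (nat_lit 1903) (.e (nat_lit 7593) (nat_lit 407) (.e (nat_lit 73775) (nat_lit 26) (.e (nat_lit 778362) (nat_lit 9) (.e (nat_lit 334) (nat_lit 26) (.e (nat_lit 376841) (nat_lit 11) (.e (nat_lit 426010) (nat_lit 0) .nil)))))) (.g (nat_lit 4) .nil .nil))) 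
(.lf (nat_lit 129136) (.g (nat_lit 548) (.e (nat_lit 7936) (nat_lit 407) (.e (nat_lit 73729) (nat_lit 0) (.e (nat_lit 7263) (nat_lit 384) .nil))) .nil))))) (.nd (nat_lit 4) (.nd (nat_lit 5) (.nd (nat_lit 6) 
(.lf (nat_lit 129032) (.g (nat_lit 285) (.e (nat_lit 7593) (nat_lit 407) (.e (nat_lit 73775) (nat_lit 26) (.e (nat_lit 778361) (nat_lit 9) .nil))) .nil)) 
(.lf (nat_lit 129096) (.g (nat_lit 2844) (.e (nat_lit 7593) (nat_lit 407) (.e (nat_lit 73775) (nat_lit 26) (.e (nat_lit 778465) (nat_lit 11) (.e (nat_lit 24655) (nat_lit 13) (.e (nat_lit 393234) (nat_lit 17) .nil))))) (.g (nat_lit 5) .nil .nil)))) (.nd (nat_lit 6) 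
(.lf (nat_lit 129064) (.g (nat_lit 2310) (.e (nat_lit 7593) (nat_lit 407) (.e (nat_lit 73775) (nat_lit 26) (.e (nat_lit 778362) (nat_lit 9) (.e (nat_lit 314) (nat_lit 23) (.e (nat_lit 352273) (nat_lit 11) (.e (nat_lit 426003) (nat_lit 0) .nil)))))) (.g (nat_lit 4) .nil .nil))) 
(.lf (nat_lit 129128) (.g (nat_lit 1015) (.e (nat_lit 7936) (nat_lit 407) (.e (nat_lit 73729) (nat_lit 0) (.e (nat_lit 7125) (nat_lit 382) (.e (nat_lit 1201) (nat_lit 88) (.e (nat_lit 65625) (nat_lit 13) .nil))))) .nil)))) (.nd (nat_lit 5) (.nd (nat_lit 6) 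
(.lf (nat_lit 129048) (.g (nat_lit 2233) (.e (nat_lit 7593) (nat_lit 407) (.e (nat_lit 73775) (nat_lit 26) (.e (nat_lit 778362) (nat_lit 9) (.e (nat_lit 232) (nat_lit 21) (.e (nat_lit 336224) (nat_lit 13) (.e (nat_lit 393233) (nat_lit 17) .nil)))))) (.g (nat_lit 4) .nil .nil))) 
(.lf (nat_lit 129112) (.g (nat_lit 2432) (.e (nat_lit 7593) (nat_lit 407) (.e (nat_lit 73775) (nat_lit 26) (.e (nat_lit 778466) (nat_lit 11) (.e (nat_lit 24654) (nat_lit 13) (.e (nat_lit 393232) (nat_lit 17) .nil))))) (.g (nat_lit 0) .nil .nil)))) (.nd (nat_lit 6) 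
(.lf (nat_lit 129080) (.g (nat_lit 2626) (.e (nat_lit 7593) (nat_lit 407) (.e (nat_lit 73775) (nat_lit 26) (.e (nat_lit 778464) (nat_lit 11) (.e (nat_lit 24655) (nat_lit 13) (.e (nat_lit 393232) (nat_lit 17) .nil))))) (.g (nat_lit 5) .nil .nil))) 
(.lf (nat_lit 129144) (.g (nat_lit 1765) (.e (nat_lit 7936) (nat_lit 407) (.e (nat_lit 73729) (nat_lit 0) (.e (nat_lit 7266) (nat_lit 384) (.e (nat_lit 57436) (nat_lit 17) (.e (nat_lit 376838) (nat_lit 11) .nil))))) .nil)))))) (.nd (nat_lit 3) (.nd (nat_lit 4) (.nd (nat_lit 5) (.nd (nat_lit 6) 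
(.lf (nat_lit 129028) (.g (nat_lit 277) (.e (nat_lit 7593) (nat_lit 407) (.e (nat_lit 73775) (nat_lit 26) (.e (nat_lit 778359) (nat_lit 9) .nil))) .nil)) 
(.lf (nat_lit 129092) (.g (nat_lit 3607) (.e (nat_lit 7593) (nat_lit 407) (.e (nat_lit 73775) (nat_lit 26) (.e (nat_lit 778465) (nat_lit 11) (.e (nat_lit 24631) (nat_lit 9) (.e (nat_lit 336389) (nat_lit 27) (.e (nat_lit 426012) (nat_lit 0) .nil)))))) (.g (nat_lit 0) .nil .nil)))) (.nd (nat_lit 6) 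
(.lf (nat_lit 129060) (.g (nat_lit 1254) (.e (nat_lit 7593) (nat_lit 407) (.e (nat_lit 73775) (nat_lit 26) (.e (nat_lit 778362) (nat_lit 9) (.e (nat_lit 309) (nat_lit 23) .nil)))) .nil)) 
(.lf (nat_lit 129124) (.g (nat_lit 1178) (.e (nat_lit 7936) (nat_lit 407) (.e (nat_lit 73729) (nat_lit 0) (.e (nat_lit 7122) (nat_lit 382) (.e (nat_lit 7936) (nat_lit 90) .nil)))) .nil)))) (.nd (nat_lit 5) (.nd (nat_lit 6) 
(.lf (nat_lit 129044) (.g (nat_lit 1190) (.e (nat_lit 7593) (nat_lit 407) (.e (nat_lit 73775) (nat_lit 26) (.e (nat_lit 778362) (nat_lit 9) (.e (nat_lit 227) (nat_lit 21) .nil)))) .nil)) 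
(.lf (nat_lit 129108) (.g (nat_lit 2746) (.e (nat_lit 7593) (nat_lit 407) (.e (nat_lit 73775) (nat_lit 26) (.e (nat_lit 778466) (nat_lit 11) (.e (nat_lit 24631) (nat_lit 9) (.e (nat_lit 336389) (nat_lit 27) (.e (nat_lit 426009) (nat_lit 0) .nil)))))) (.g (nat_lit 6) .nil .nil)))) (.nd (nat_lit 6) 
(.lf (nat_lit 129076) (.g (nat_lit 1275) (.e (nat_lit 7593) (nat_lit 407) (.e (nat_lit 73775) (nat_lit 26) (.e (nat_lit 778464) (nat_lit 11) (.e (nat_lit 24654) (nat_lit 13) (.e (nat_lit 393231) (nat_lit 17) .nil))))) (.g (nat_lit 4) .nil .nil))) 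
(.lf (nat_lit 129140) (.g (nat_lit 1899) (.e (nat_lit 7936) (nat_lit 407) (.e (nat_lit 73729) (nat_lit 0) (.e (nat_lit 7265) (nat_lit 384) (.e (nat_lit 57436) (nat_lit 17) (.e (nat_lit 376838) (nat_lit 11) .nil))))) .nil))))) (.nd (nat_lit 4) (.nd (nat_lit 5) (.nd (nat_lit 6) 
(.lf (nat_lit 129036) (.g (nat_lit 960) (.e (nat_lit 7593) (nat_lit 407) (.e (nat_lit 73775) (nat_lit 26) (.e (nat_lit 778361) (nat_lit 9) (.e (nat_lit 234) (nat_lit 21) .nil)))) .nil)) 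
(.lf (nat_lit 129100) (.g (nat_lit 910) (.e (nat_lit 7593) (nat_lit 407) (.e (nat_lit 73775) (nat_lit 26) (.e (nat_lit 778465) (nat_lit 11) (.e (nat_lit 32512) (nat_lit 13) .nil)))) .nil))) (.nd (nat_lit 6) 
(.lf (nat_lit 129068) (.g (nat_lit 2263) (.e (nat_lit 7593) (nat_lit 407) (.e (nat_lit 73775) (nat_lit 26) (.e (nat_lit 778362) (nat_lit 9) (.e (nat_lit 314) (nat_lit 23) (.e (nat_lit 352275) (nat_lit 11) (.e (nat_lit 426003) (nat_lit 0) .nil)))))) (.g (nat_lit 4) .nil .nil))) 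
(.lf (nat_lit 129132) (.g (nat_lit 1598) (.e (nat_lit 7936) (nat_lit 407) (.e (nat_lit 73729) (nat_lit 0) (.e (nat_lit 7261) (nat_lit 384) (.e (nat_lit 57435) (nat_lit 17) (.e (nat_lit 376840) (nat_lit 11) .nil))))) .nil)))) (.nd (nat_lit 5) (.nd (nat_lit 6) 
(.lf (nat_lit 129052) (.g (nat_lit 1245) (.e (nat_lit 7593) (nat_lit 407) (.e (nat_lit 73775) (nat_lit 26) (.e (nat_lit 778362) (nat_lit 9) (.e (nat_lit 237) (nat_lit 21) .nil)))) .nil)) 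
(.lf (nat_lit 129116) (.g (nat_lit 992) (.e (nat_lit 7593) (nat_lit 407) (.e (nat_lit 81664) (nat_lit 28) (.e (nat_lit 794637) (nat_lit 11) (.e (nat_lit 336215) (nat_lit 13) (.e (nat_lit 401152) (nat_lit 17) .nil))))) (.g (nat_lit 4) .nil .nil)))) (.nd (nat_lit 6) 
(.lf (nat_lit 129084) (.g (nat_lit 2737) (.e (nat_lit 7593) (nat_lit 407) (.e (nat_lit 73775) (nat_lit 26) (.e (nat_lit 778464) (nat_lit 11) (.e (nat_lit 24658) (nat_lit 13) (.e (nat_lit 393234) (nat_lit 17) .nil))))) (.g (nat_lit 0) .nil .nil))) 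
(.lf (nat_lit 129148) (.g (nat_lit 1460) (.e (nat_lit 7936) (nat_lit 407) (.e (nat_lit 73731) (nat_lit 0) (.e (nat_lit 7125) (nat_lit 382) (.e (nat_lit 1201) (nat_lit 88) (.e (nat_lit 65625) (nat_lit 13) .nil))))) .nil))))))) (.nd (nat_lit 2) (.nd (nat_lit 3) (.nd (nat_lit 4) (.nd (nat_lit 5) (.nd (nat_lit 6) 
(.lf (nat_lit 129026) (.g (nat_lit 1604) (.e (nat_lit 7593) (nat_lit 407) (.e (nat_lit 73773) (nat_lit 25) (.e (nat_lit 770074) (nat_lit 10) (.e (nat_lit 81927) (nat_lit 11) (.e (nat_lit 426009) (nat_lit 0) .nil))))) (.g (nat_lit 0) .nil .nil))) 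
(.lf (nat_lit 129090) (.g (nat_lit 2173) (.e (nat_lit 7593) (nat_lit 407) (.e (nat_lit 73775) (nat_lit 26) (.e (nat_lit 778465) (nat_lit 11) (.e (nat_lit 24631) (nat_lit 9) (.e (nat_lit 336385) (nat_lit 27) (.e (nat_lit 426011) (nat_lit 0) .nil)))))) (.g (nat_lit 4) .nil .nil)))) (.nd (nat_lit 6) 
(.lf (nat_lit 129058) (.g (nat_lit 2004) (.e (nat_lit 7593) (nat_lit 407) (.e (nat_lit 73775) (nat_lit 26) (.e (nat_lit 778362) (nat_lit 9) (.e (nat_lit 268) (nat_lit 21) (.e (nat_lit 336219) (nat_lit 13) .nil))))) .nil)) 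
(.lf (nat_lit 129122) (.g (nat_lit 462) (.e (nat_lit 7936) (nat_lit 407) (.e (nat_lit 73729) (nat_lit 0) (.e (nat_lit 4157) (nat_lit 250) .nil))) .nil)))) (.nd (nat_lit 5) (.nd (nat_lit 6) 
(.lf (nat_lit 129042) (.g (nat_lit 1699) (.e (nat_lit 7593) (nat_lit 407) (.e (nat_lit 73775) (nat_lit 26) (.e (nat_lit 778361) (nat_lit 9) (.e (nat_lit 334) (nat_lit 26) (.e (nat_lit 376841) (nat_lit 11) .nil))))) .nil)) 
(.lf (nat_lit 129106) (.g (nat_lit 1143) (.e (nat_lit 7593) (nat_lit 407) (.e (nat_lit 73775) (nat_lit 26) (.e (nat_lit 778466) (nat_lit 11) (.e (nat_lit 24626) (nat_lit 9) .nil)))) .nil))) (.nd (nat_lit 6) 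
(.lf (nat_lit 129074) (.g (nat_lit 1658) (.e (nat_lit 7593) (nat_lit 407) (.e (nat_lit 73775) (nat_lit 26) (.e (nat_lit 778463) (nat_lit 11) (.e (nat_lit 24660) (nat_lit 13) (.e (nat_lit 393231) (nat_lit 17) .nil))))) (.g (nat_lit 5) .nil .nil))) 
(.lf (nat_lit 129138) (.g (nat_lit 1287) (.e (nat_lit 7936) (nat_lit 407) (.e (nat_lit 73729) (nat_lit 0) (.e (nat_lit 7265) (nat_lit 384) (.e (nat_lit 57435) (nat_lit 17) .nil)))) .nil))))) (.nd (nat_lit 4) (.nd (nat_lit 5) (.nd (nat_lit 6) 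
(.lf (nat_lit 129034) (.g (nat_lit 1160) (.e (nat_lit 7593) (nat_lit 407) (.e (nat_lit 73775) (nat_lit 26) (.e (nat_lit 778361) (nat_lit 9) (.e (nat_lit 227) (nat_lit 21) .nil)))) .nil)) 
(.lf (nat_lit 129098) (.g (nat_lit 2589) (.e (nat_lit 7593) (nat_lit 407) (.e (nat_lit 73775) (nat_lit 26) (.e (nat_lit 778465) (nat_lit 11) (.e (nat_lit 24659) (nat_lit 13) (.e (nat_lit 393234) (nat_lit 17) .nil))))) (.g (nat_lit 0) .nil .nil)))) (.nd (nat_lit 6) 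
(.lf (nat_lit 129066) (.g (nat_lit 2242) (.e (nat_lit 7593) (nat_lit 407) (.e (nat_lit 73775) (nat_lit 26) (.e (nat_lit 778362) (nat_lit 9) (.e (nat_lit 314) (nat_lit 23) (.e (nat_lit 352274) (nat_lit 11) (.e (nat_lit 426009) (nat_lit 0) .nil)))))) (.g (nat_lit 4) .nil .nil))) 
(.lf (nat_lit 129130) (.g (nat_lit 809) (.e (nat_lit 7936) (nat_lit 407) (.e (nat_lit 73729) (nat_lit 0) (.e (nat_lit 7125) (nat_lit 382) (.e (nat_lit 1296) (nat_lit 96) .nil)))) .nil)))) (.nd (nat_lit 5) (.nd (nat_lit 6) 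
(.lf (nat_lit 129050) (.g (nat_lit 1666) (.e (nat_lit 7593) (nat_lit 407) (.e (nat_lit 73775) (nat_lit 26) (.e (nat_lit 778362) (nat_lit 9) (.e (nat_lit 234) (nat_lit 21) (.e (nat_lit 336211) (nat_lit 13) .nil))))) .nil)) 
(.lf (nat_lit 129114) (.g (nat_lit 957) (.e (nat_lit 7593) (nat_lit 407) (.e (nat_lit 73775) (nat_lit 26) (.e (nat_lit 778466) (nat_lit 11) (.e (nat_lit 24656) (nat_lit 13) .nil)))) .nil))) (.nd (nat_lit 6) 
(.lf (nat_lit 129082) (.g (nat_lit 1258) (.e (nat_lit 7593) (nat_lit 407) (.e (nat_lit 73775) (nat_lit 26) (.e (nat_lit 778464) (nat_lit 11) (.e (nat_lit 24657) (nat_lit 13) (.e (nat_lit 401152) (nat_lit 17) .nil))))) (.g (nat_lit 4) .nil .nil))) 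
(.lf (nat_lit 129146) (.g (nat_lit 992) (.e (nat_lit 7936) (nat_lit 407) (.e (nat_lit 73731) (nat_lit 0) (.e (nat_lit 7122) (nat_lit 382) (.e (nat_lit 7936) (nat_lit 96) .nil)))) .nil)))))) (.nd (nat_lit 3) (.nd (nat_lit 4) (.nd (nat_lit 5) (.nd (nat_lit 6) 
(.lf (nat_lit 129030) (.g (nat_lit 894) (.e (nat_lit 7593) (nat_lit 407) (.e (nat_lit 73775) (nat_lit 26) (.e (nat_lit 778359) (nat_lit 9) (.e (nat_lit 334) (nat_lit 26) (.e (nat_lit 376841) (nat_lit 11) .nil))))) .nil)) 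
(.lf (nat_lit 129094) (.g (nat_lit 2648) (.e (nat_lit 7593) (nat_lit 407) (.e (nat_lit 73775) (nat_lit 26) (.e (nat_lit 778465) (nat_lit 11) (.e (nat_lit 24654) (nat_lit 13) (.e (nat_lit 393232) (nat_lit 17) .nil))))) (.g (nat_lit 0) .nil .nil)))) (.nd (nat_lit 6) 
(.lf (nat_lit 129062) (.g (nat_lit 3125) (.e (nat_lit 7593) (nat_lit 407) (.e (nat_lit 73775) (nat_lit 26) (.e (nat_lit 778362) (nat_lit 9) (.e (nat_lit 312) (nat_lit 23) (.e (nat_lit 352277) (nat_lit 11) (.e (nat_lit 426009) (nat_lit 0) .nil)))))) (.g (nat_lit 0) .nil .nil))) 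
(.lf (nat_lit 129126) (.g (nat_lit 2160) (.e (nat_lit 7936) (nat_lit 407) (.e (nat_lit 73729) (nat_lit 0) (.e (nat_lit 7124) (nat_lit 382) (.e (nat_lit 1296) (nat_lit 96) (.e (nat_lit 131127) (nat_lit 13) .nil))))) .nil)))) (.nd (nat_lit 5) (.nd (nat_lit 6) 
(.lf (nat_lit 129046) (.g (nat_lit 2709) (.e (nat_lit 7593) (nat_lit 407) (.e (nat_lit 73775) (nat_lit 26) (.e (nat_lit 778362) (nat_lit 9) (.e (nat_lit 232) (nat_lit 21) (.e (nat_lit 336217) (nat_lit 13) (.e (nat_lit 393233) (nat_lit 17) .nil)))))) (.g (nat_lit 4) .nil .nil))) 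
(.lf (nat_lit 129110) (.g (nat_lit 3327) (.e (nat_lit 7593) (nat_lit 407) (.e (nat_lit 73775) (nat_lit 26) (.e (nat_lit 778466) (nat_lit 11) (.e (nat_lit 24631) (nat_lit 9) (.e (nat_lit 336389) (nat_lit 27) (.e (nat_lit 426012) (nat_lit 0) .nil)))))) (.g (nat_lit 0) .nil .nil)))) (.nd (nat_lit 6) 
(.lf (nat_lit 129078) (.g (nat_lit 1329) (.e (nat_lit 7593) (nat_lit 407) (.e (nat_lit 73775) (nat_lit 26) (.e (nat_lit 778464) (nat_lit 11) (.e (nat_lit 24654) (nat_lit 13) (.e (nat_lit 393233) (nat_lit 17) .nil))))) (.g (nat_lit 4) .nil .nil))) 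
(.lf (nat_lit 129142) (.g (nat_lit 2490) (.e (nat_lit 7936) (nat_lit 407) (.e (nat_lit 73729) (nat_lit 0) (.e (nat_lit 7266) (nat_lit 384) (.e (nat_lit 57424) (nat_lit 14) (.e (nat_lit 352278) (nat_lit 11) .nil))))) .nil))))) (.nd (nat_lit 4) (.nd (nat_lit 5) (.nd (nat_lit 6) 
(.lf (nat_lit 129038) (.g (nat_lit 1160) (.e (nat_lit 7593) (nat_lit 407) (.e (nat_lit 73775) (nat_lit 26) (.e (nat_lit 778361) (nat_lit 9) (.e (nat_lit 252) (nat_lit 21) .nil)))) .nil)) 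
(.lf (nat_lit 129102) (.g (nat_lit 1722) (.e (nat_lit 7593) (nat_lit 407) (.e (nat_lit 73775) (nat_lit 26) (.e (nat_lit 778466) (nat_lit 11) (.e (nat_lit 24576) (nat_lit 0) (.e (nat_lit 7936) (nat_lit 345) .nil))))) .nil))) (.nd (nat_lit 6) 
(.lf (nat_lit 129070) (.g (nat_lit 1241) (.e (nat_lit 7593) (nat_lit 407) (.e (nat_lit 73775) (nat_lit 26) (.e (nat_lit 778362) (nat_lit 9) (.e (nat_lit 332) (nat_lit 26) .nil)))) .nil)) 
(.lf (nat_lit 129134) (.g (nat_lit 1653) (.e (nat_lit 7936) (nat_lit 407) (.e (nat_lit 73729) (nat_lit 0) (.e (nat_lit 7261) (nat_lit 384) (.e (nat_lit 57436) (nat_lit 17) (.e (nat_lit 376840) (nat_lit 11) .nil))))) .nil)))) (.nd (nat_lit 5) (.nd (nat_lit 6) 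
(.lf (nat_lit 129054) (.g (nat_lit 1245) (.e (nat_lit 7593) (nat_lit 407) (.e (nat_lit 73775) (nat_lit 26) (.e (nat_lit 778362) (nat_lit 9) (.e (nat_lit 243) (nat_lit 21) .nil)))) .nil)) 
(.lf (nat_lit 129118) (.g (nat_lit 602) (.e (nat_lit 7594) (nat_lit 407) (.e (nat_lit 73775) (nat_lit 26) (.e (nat_lit 778466) (nat_lit 11) .nil))) .nil))) (.nd (nat_lit 6) 
(.lf (nat_lit 129086) (.g (nat_lit 1361) (.e (nat_lit 7593) (nat_lit 407) (.e (nat_lit 73775) (nat_lit 26) (.e (nat_lit 778465) (nat_lit 11) (.e (nat_lit 24576) (nat_lit 0) .nil)))) .nil)) 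
(.lf (nat_lit 129150) (.g (nat_lit 662) (.e (nat_lit 7936) (nat_lit 407) (.e (nat_lit 73731) (nat_lit 0) (.e (nat_lit 7125) (nat_lit 382) (.e (nat_lit 1296) (nat_lit 96) .nil)))) .nil)))))))) (.nd (nat_lit 1) (.nd (nat_lit 2) (.nd (nat_lit 3) (.nd (nat_lit 4) (.nd (nat_lit 5) (.nd (nat_lit 6) 
(.lf (nat_lit 129025) (.g (nat_lit 1433) (.e (nat_lit 7593) (nat_lit 407) (.e (nat_lit 73773) (nat_lit 25) (.e (nat_lit 770074) (nat_lit 10) (.e (nat_lit 81925) (nat_lit 11) (.e (nat_lit 426010) (nat_lit 0) .nil))))) (.g (nat_lit 4) .nil .nil))) 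
(.lf (nat_lit 129089) (.g (nat_lit 1954) (.e (nat_lit 7593) (nat_lit 407) (.e (nat_lit 73775) (nat_lit 26) (.e (nat_lit 778465) (nat_lit 11) (.e (nat_lit 24584) (nat_lit 0) (.e (nat_lit 7936) (nat_lit 345) .nil))))) .nil))) (.nd (nat_lit 6) 
(.lf (nat_lit 129057) (.g (nat_lit 2427) (.e (nat_lit 7593) (nat_lit 407) (.e (nat_lit 73775) (nat_lit 26) (.e (nat_lit 778362) (nat_lit 9) (.e (nat_lit 268) (nat_lit 21) (.e (nat_lit 336212) (nat_lit 13) (.e (nat_lit 393234) (nat_lit 17) .nil)))))) (.g (nat_lit 4) .nil .nil))) 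
(.lf (nat_lit 129121) (.g (nat_lit 719) (.e (nat_lit 7936) (nat_lit 407) (.e (nat_lit 73729) (nat_lit 0) (.e (nat_lit 4153) (nat_lit 249) (.e (nat_lit 171776) (nat_lit 75) .nil)))) .nil)))) (.nd (nat_lit 5) (.nd (nat_lit 6) 
(.lf (nat_lit 129041) (.g (nat_lit 1821) (.e (nat_lit 7593) (nat_lit 407) (.e (nat_lit 73775) (nat_lit 26) (.e (nat_lit 778361) (nat_lit 9) (.e (nat_lit 334) (nat_lit 26) (.e (nat_lit 376838) (nat_lit 11) (.e (nat_lit 426009) (nat_lit 0) .nil)))))) (.g (nat_lit 4) .nil .nil))) 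
(.lf (nat_lit 129105) (.g (nat_lit 1324) (.e (nat_lit 7593) (nat_lit 407) (.e (nat_lit 73775) (nat_lit 26) (.e (nat_lit 778466) (nat_lit 11) (.e (nat_lit 24624) (nat_lit 9) .nil)))) .nil))) (.nd (nat_lit 6) 
(.lf (nat_lit 129073) (.g (nat_lit 1216) (.e (nat_lit 7593) (nat_lit 407) (.e (nat_lit 73775) (nat_lit 26) (.e (nat_lit 778362) (nat_lit 9) (.e (nat_lit 336) (nat_lit 26) .nil)))) .nil)) 
(.lf (nat_lit 129137) (.g (nat_lit 503) (.e (nat_lit 7936) (nat_lit 407) (.e (nat_lit 73729) (nat_lit 0) (.e (nat_lit 7265) (nat_lit 384) .nil))) .nil))))) (.nd (nat_lit 4) (.nd (nat_lit 5) (.nd (nat_lit 6) 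
(.lf (nat_lit 129033) (.g (nat_lit 1035) (.e (nat_lit 7593) (nat_lit 407) (.e (nat_lit 73775) (nat_lit 26) (.e (nat_lit 778361) (nat_lit 9) (.e (nat_lit 225) (nat_lit 21) (.e (nat_lit 336211) (nat_lit 13) .nil))))) .nil)) 
(.lf (nat_lit 129097) (.g (nat_lit 1654) (.e (nat_lit 7593) (nat_lit 407) (.e (nat_lit 73775) (nat_lit 26) (.e (nat_lit 778465) (nat_lit 11) (.e (nat_lit 24657) (nat_lit 13) (.e (nat_lit 401152) (nat_lit 17) .nil))))) (.g (nat_lit 4) .nil .nil)))) (.nd (nat_lit 6) 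
(.lf (nat_lit 129065) (.g (nat_lit 1968) (.e (nat_lit 7593) (nat_lit 407) (.e (nat_lit 73775) (nat_lit 26) (.e (nat_lit 778362) (nat_lit 9) (.e (nat_lit 314) (nat_lit 23) (.e (nat_lit 352274) (nat_lit 11) .nil))))) .nil)) 
(.lf (nat_lit 129129) (.g (nat_lit 1499) (.e (nat_lit 7936) (nat_lit 407) (.e (nat_lit 73729) (nat_lit 0) (.e (nat_lit 7125) (nat_lit 382) (.e (nat_lit 1224) (nat_lit 90) (.e (nat_lit 81925) (nat_lit 11) .nil))))) .nil)))) (.nd (nat_lit 5) (.nd (nat_lit 6) 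
(.lf (nat_lit 129049) (.g (nat_lit 1191) (.e (nat_lit 7593) (nat_lit 407) (.e (nat_lit 73775) (nat_lit 26) (.e (nat_lit 778362) (nat_lit 9) (.e (nat_lit 234) (nat_lit 21) .nil)))) .nil)) 
(.lf (nat_lit 129113) (.g (nat_lit 2747) (.e (nat_lit 7593) (nat_lit 407) (.e (nat_lit 73775) (nat_lit 26) (.e (nat_lit 778466) (nat_lit 11) (.e (nat_lit 24655) (nat_lit 13) (.e (nat_lit 393234) (nat_lit 17) .nil))))) (.g (nat_lit 0) .nil .nil)))) (.nd (nat_lit 6) 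
(.lf (nat_lit 129081) (.g (nat_lit 2340) (.e (nat_lit 7593) (nat_lit 407) (.e (nat_lit 73775) (nat_lit 26) (.e (nat_lit 778464) (nat_lit 11) (.e (nat_lit 24655) (nat_lit 13) (.e (nat_lit 393234) (nat_lit 17) .nil))))) (.g (nat_lit 5) .nil .nil))) 
(.lf (nat_lit 129145) (.g (nat_lit 1616) (.e (nat_lit 7936) (nat_lit 407) (.e (nat_lit 73729) (nat_lit 0) (.e (nat_lit 7266) (nat_lit 384) (.e (nat_lit 57436) (nat_lit 17) (.e (nat_lit 376840) (nat_lit 11) .nil))))) .nil)))))) (.nd (nat_lit 3) (.nd (nat_lit 4) (.nd (nat_lit 5) (.nd (nat_lit 6) 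
(.lf (nat_lit 129029) (.g (nat_lit 1230) (.e (nat_lit 7593) (nat_lit 407) (.e (nat_lit 73775) (nat_lit 26) (.e (nat_lit 778359) (nat_lit 9) (.e (nat_lit 334) (nat_lit 26) (.e (nat_lit 376838) (nat_lit 11) (.e (nat_lit 426009) (nat_lit 0) .nil)))))) (.g (nat_lit 4) .nil .nil))) 
(.lf (nat_lit 129093) (.g (nat_lit 2352) (.e (nat_lit 7593) (nat_lit 407) (.e (nat_lit 73775) (nat_lit 26) (.e (nat_lit 778465) (nat_lit 11) (.e (nat_lit 24638) (nat_lit 9) (.e (nat_lit 336387) (nat_lit 27) (.e (nat_lit 426012) (nat_lit 0) .nil)))))) (.g (nat_lit 5) .nil .nil)))) (.nd (nat_lit 6) 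
(.lf (nat_lit 129061) (.g (nat_lit 1550) (.e (nat_lit 7593) (nat_lit 407) (.e (nat_lit 73775) (nat_lit 26) (.e (nat_lit 778362) (nat_lit 9) (.e (nat_lit 310) (nat_lit 23) (.e (nat_lit 352277) (nat_lit 11) .nil))))) .nil)) 
(.lf (nat_lit 129125) (.g (nat_lit 484) (.e (nat_lit 7936) (nat_lit 407) (.e (nat_lit 73729) (nat_lit 0) (.e (nat_lit 7124) (nat_lit 382) .nil))) .nil)))) (.nd (nat_lit 5) (.nd (nat_lit 6) 
(.lf (nat_lit 129045) (.g (nat_lit 2705) (.e (nat_lit 7593) (nat_lit 407) (.e (nat_lit 73775) (nat_lit 26) (.e (nat_lit 778362) (nat_lit 9) (.e (nat_lit 232) (nat_lit 21) (.e (nat_lit 336217) (nat_lit 13) .nil))))) .nil)) 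
(.lf (nat_lit 129109) (.g (nat_lit 3661) (.e (nat_lit 7593) (nat_lit 407) (.e (nat_lit 73775) (nat_lit 26) (.e (nat_lit 778466) (nat_lit 11) (.e (nat_lit 24631) (nat_lit 9) (.e (nat_lit 336389) (nat_lit 27) (.e (nat_lit 426011) (nat_lit 0) .nil)))))) (.g (nat_lit 0) .nil .nil)))) (.nd (nat_lit 6) 
(.lf (nat_lit 129077) (.g (nat_lit 1974) (.e (nat_lit 7593) (nat_lit 407) (.e (nat_lit 73775) (nat_lit 26) (.e (nat_lit 778464) (nat_lit 11) (.e (nat_lit 24654) (nat_lit 13) (.e (nat_lit 393232) (nat_lit 17) .nil))))) (.g (nat_lit 5) .nil .nil))) 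
(.lf (nat_lit 129141) (.g (nat_lit 1964) (.e (nat_lit 7936) (nat_lit 407) (.e (nat_lit 73729) (nat_lit 0) (.e (nat_lit 7265) (nat_lit 384) (.e (nat_lit 57436) (nat_lit 17) (.e (nat_lit 376840) (nat_lit 11) .nil))))) .nil))))) (.nd (nat_lit 4) (.nd (nat_lit 5) (.nd (nat_lit 6) 
(.lf (nat_lit 129037) (.g (nat_lit 1299) (.e (nat_lit 7593) (nat_lit 407) (.e (nat_lit 73775) (nat_lit 26) (.e (nat_lit 778361) (nat_lit 9) (.e (nat_lit 244) (nat_lit 21) (.e (nat_lit 336220) (nat_lit 13) .nil))))) .nil)) 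
(.lf (nat_lit 129101) (.g (nat_lit 254) (.e (nat_lit 7593) (nat_lit 407) (.e (nat_lit 73775) (nat_lit 26) (.e (nat_lit 778466) (nat_lit 11) .nil))) .nil))) (.nd (nat_lit 6) 
(.lf (nat_lit 129069) (.g (nat_lit 1291) (.e (nat_lit 7593) (nat_lit 407) (.e (nat_lit 73775) (nat_lit 26) (.e (nat_lit 778362) (nat_lit 9) (.e (nat_lit 328) (nat_lit 25) .nil)))) .nil)) 
(.lf (nat_lit 129133) (.g (nat_lit 1036) (.e (nat_lit 7936) (nat_lit 407) (.e (nat_lit 73729) (nat_lit 0) (.e (nat_lit 7261) (nat_lit 384) (.e (nat_lit 57436) (nat_lit 17) .nil)))) .nil)))) (.nd (nat_lit 5) (.nd (nat_lit 6) 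
(.lf (nat_lit 129053) (.g (nat_lit 1265) (.e (nat_lit 7593) (nat_lit 407) (.e (nat_lit 73775) (nat_lit 26) (.e (nat_lit 778362) (nat_lit 9) (.e (nat_lit 239) (nat_lit 21) .nil)))) .nil)) 
(.lf (nat_lit 129117) (.g (nat_lit 547) (.e (nat_lit 7594) (nat_lit 407) (.e (nat_lit 73775) (nat_lit 26) (.e (nat_lit 778465) (nat_lit 11) .nil))) .nil))) (.nd (nat_lit 6) 
(.lf (nat_lit 129085) (.g (nat_lit 1514) (.e (nat_lit 7593) (nat_lit 407) (.e (nat_lit 73775) (nat_lit 26) (.e (nat_lit 778464) (nat_lit 11) (.e (nat_lit 24660) (nat_lit 13) (.e (nat_lit 393231) (nat_lit 17) .nil))))) (.g (nat_lit 4) .nil .nil))) 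
(.lf (nat_lit 129149) (.g (nat_lit 1315) (.e (nat_lit 7936) (nat_lit 407) (.e (nat_lit 73731) (nat_lit 0) (.e (nat_lit 7125) (nat_lit 382) (.e (nat_lit 1224) (nat_lit 90) (.e (nat_lit 81925) (nat_lit 11) .nil))))) .nil))))))) (.nd (nat_lit 2) (.nd (nat_lit 3) (.nd (nat_lit 4) (.nd (nat_lit 5) (.nd (nat_lit 6) 
(.lf (nat_lit 129027) (.g (nat_lit 1482) (.e (nat_lit 7593) (nat_lit 407) (.e (nat_lit 73774) (nat_lit 26) (.e (nat_lit 778339) (nat_lit 9) (.e (nat_lit 311) (nat_lit 23) (.e (nat_lit 352277) (nat_lit 11) (.e (nat_lit 426009) (nat_lit 0) .nil)))))) (.g (nat_lit 0) .nil .nil))) 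
(.lf (nat_lit 129091) (.g (nat_lit 2940) (.e (nat_lit 7593) (nat_lit 407) (.e (nat_lit 73775) (nat_lit 26) (.e (nat_lit 778465) (nat_lit 11) (.e (nat_lit 24631) (nat_lit 9) (.e (nat_lit 336389) (nat_lit 27) (.e (nat_lit 426009) (nat_lit 0) .nil)))))) (.g (nat_lit 5) .nil .nil)))) (.nd (nat_lit 6) 
(.lf (nat_lit 129059) (.g (nat_lit 2040) (.e (nat_lit 7593) (nat_lit 407) (.e (nat_lit 73775) (nat_lit 26) (.e (nat_lit 778362) (nat_lit 9) (.e (nat_lit 268) (nat_lit 21) (.e (nat_lit 336224) (nat_lit 13) (.e (nat_lit 393231) (nat_lit 17) .nil)))))) (.g (nat_lit 4) .nil .nil))) 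
(.lf (nat_lit 129123) (.g (nat_lit 433) (.e (nat_lit 7936) (nat_lit 407) (.e (nat_lit 73729) (nat_lit 0) (.e (nat_lit 7119) (nat_lit 382) .nil))) .nil)))) (.nd (nat_lit 5) (.nd (nat_lit 6) 
(.lf (nat_lit 129043) (.g (nat_lit 292) (.e (nat_lit 7593) (nat_lit 407) (.e (nat_lit 73775) (nat_lit 26) (.e (nat_lit 778362) (nat_lit 9) .nil))) .nil)) 
(.lf (nat_lit 129107) (.g (nat_lit 858) (.e (nat_lit 7593) (nat_lit 407) (.e (nat_lit 73775) (nat_lit 26) (.e (nat_lit 778466) (nat_lit 11) (.e (nat_lit 24631) (nat_lit 9) .nil)))) .nil))) (.nd (nat_lit 6) 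
(.lf (nat_lit 129075) (.g (nat_lit 252) (.e (nat_lit 7593) (nat_lit 407) (.e (nat_lit 73775) (nat_lit 26) (.e (nat_lit 778464) (nat_lit 11) .nil))) .nil)) 
(.lf (nat_lit 129139) (.g (nat_lit 1249) (.e (nat_lit 7936) (nat_lit 407) (.e (nat_lit 73729) (nat_lit 0) (.e (nat_lit 7265) (nat_lit 384) (.e (nat_lit 57436) (nat_lit 17) .nil)))) .nil))))) (.nd (nat_lit 4) (.nd (nat_lit 5) (.nd (nat_lit 6) 
(.lf (nat_lit 129035) (.g (nat_lit 1161) (.e (nat_lit 7593) (nat_lit 407) (.e (nat_lit 73775) (nat_lit 26) (.e (nat_lit 778361) (nat_lit 9) (.e (nat_lit 230) (nat_lit 21) .nil)))) .nil)) 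
(.lf (nat_lit 129099) (.g (nat_lit 2304) (.e (nat_lit 7593) (nat_lit 407) (.e (nat_lit 73775) (nat_lit 26) (.e (nat_lit 778465) (nat_lit 11) (.e (nat_lit 24660) (nat_lit 13) (.e (nat_lit 393231) (nat_lit 17) .nil))))) (.g (nat_lit 0) .nil .nil)))) (.nd (nat_lit 6) 
(.lf (nat_lit 129067) (.g (nat_lit 2135) (.e (nat_lit 7593) (nat_lit 407) (.e (nat_lit 73775) (nat_lit 26) (.e (nat_lit 778362) (nat_lit 9) (.e (nat_lit 314) (nat_lit 23) (.e (nat_lit 352274) (nat_lit 11) (.e (nat_lit 426010) (nat_lit 0) .nil)))))) (.g (nat_lit 4) .nil .nil))) 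
(.lf (nat_lit 129131) (.g (nat_lit 1079) (.e (nat_lit 7936) (nat_lit 407) (.e (nat_lit 73729) (nat_lit 0) (.e (nat_lit 7261) (nat_lit 384) (.e (nat_lit 57435) (nat_lit 17) .nil)))) .nil)))) (.nd (nat_lit 5) (.nd (nat_lit 6) 
(.lf (nat_lit 129051) (.g (nat_lit 1245) (.e (nat_lit 7593) (nat_lit 407) (.e (nat_lit 73775) (nat_lit 26) (.e (nat_lit 778362) (nat_lit 9) (.e (nat_lit 236) (nat_lit 21) .nil)))) .nil)) 
(.lf (nat_lit 129115) (.g (nat_lit 1593) (.e (nat_lit 7593) (nat_lit 407) (.e (nat_lit 73775) (nat_lit 26) (.e (nat_lit 778466) (nat_lit 11) (.e (nat_lit 24656) (nat_lit 13) (.e (nat_lit 401152) (nat_lit 17) .nil))))) (.g (nat_lit 4) .nil .nil)))) (.nd (nat_lit 6) 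
(.lf (nat_lit 129083) (.g (nat_lit 1847) (.e (nat_lit 7593) (nat_lit 407) (.e (nat_lit 73775) (nat_lit 26) (.e (nat_lit 778464) (nat_lit 11) (.e (nat_lit 24658) (nat_lit 13) (.e (nat_lit 393233) (nat_lit 17) .nil))))) (.g (nat_lit 4) .nil .nil))) 
(.lf (nat_lit 129147) (.g (nat_lit 644) (.e (nat_lit 7936) (nat_lit 407) (.e (nat_lit 73731) (nat_lit 0) (.e (nat_lit 7124) (nat_lit 382) (.e (nat_lit 7936) (nat_lit 96) .nil)))) .nil)))))) (.nd (nat_lit 3) (.nd (nat_lit 4) (.nd (nat_lit 5) (.nd (nat_lit 6) 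
(.lf (nat_lit 129031) (.g (nat_lit 280) (.e (nat_lit 7593) (nat_lit 407) (.e (nat_lit 73775) (nat_lit 26) (.e (nat_lit 778360) (nat_lit 9) .nil))) .nil)) 
(.lf (nat_lit 129095) (.g (nat_lit 2112) (.e (nat_lit 7593) (nat_lit 407) (.e (nat_lit 73775) (nat_lit 26) (.e (nat_lit 778465) (nat_lit 11) (.e (nat_lit 24654) (nat_lit 13) (.e (nat_lit 393233) (nat_lit 17) .nil))))) (.g (nat_lit 5) .nil .nil)))) (.nd (nat_lit 6) 
(.lf (nat_lit 129063) (.g (nat_lit 3284) (.e (nat_lit 7593) (nat_lit 407) (.e (nat_lit 73775) (nat_lit 26) (.e (nat_lit 778362) (nat_lit 9) (.e (nat_lit 312) (nat_lit 23) (.e (nat_lit 352277) (nat_lit 11) (.e (nat_lit 426010) (nat_lit 0) .nil)))))) (.g (nat_lit 0) .nil .nil))) 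
(.lf (nat_lit 129127) (.g (nat_lit 1139) (.e (nat_lit 7936) (nat_lit 407) (.e (nat_lit 73729) (nat_lit 0) (.e (nat_lit 7124) (nat_lit 382) (.e (nat_lit 7936) (nat_lit 96) .nil)))) .nil)))) (.nd (nat_lit 5) (.nd (nat_lit 6) 
(.lf (nat_lit 129047) (.g (nat_lit 2195) (.e (nat_lit 7593) (nat_lit 407) (.e (nat_lit 73775) (nat_lit 26) (.e (nat_lit 778362) (nat_lit 9) (.e (nat_lit 232) (nat_lit 21) (.e (nat_lit 336224) (nat_lit 13) (.e (nat_lit 393231) (nat_lit 17) .nil)))))) (.g (nat_lit 4) .nil .nil))) 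
(.lf (nat_lit 129111) (.g (nat_lit 2011) (.e (nat_lit 7593) (nat_lit 407) (.e (nat_lit 73775) (nat_lit 26) (.e (nat_lit 778466) (nat_lit 11) (.e (nat_lit 24654) (nat_lit 13) (.e (nat_lit 393231) (nat_lit 17) .nil))))) (.g (nat_lit 0) .nil .nil)))) (.nd (nat_lit 6) 
(.lf (nat_lit 129079) (.g (nat_lit 1833) (.e (nat_lit 7593) (nat_lit 407) (.e (nat_lit 73775) (nat_lit 26) (.e (nat_lit 778464) (nat_lit 11) (.e (nat_lit 24655) (nat_lit 13) (.e (nat_lit 393231) (nat_lit 17) .nil))))) (.g (nat_lit 4) .nil .nil))) 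
(.lf (nat_lit 129143) (.g (nat_lit 1489) (.e (nat_lit 7936) (nat_lit 407) (.e (nat_lit 73729) (nat_lit 0) (.e (nat_lit 7266) (nat_lit 384) (.e (nat_lit 57435) (nat_lit 17) (.e (nat_lit 376840) (nat_lit 11) .nil))))) .nil))))) (.nd (nat_lit 4) (.nd (nat_lit 5) (.nd (nat_lit 6) 
(.lf (nat_lit 129039) (.g (nat_lit 2461) (.e (nat_lit 7593) (nat_lit 407) (.e (nat_lit 73775) (nat_lit 26) (.e (nat_lit 778361) (nat_lit 9) (.e (nat_lit 314) (nat_lit 23) (.e (nat_lit 352275) (nat_lit 11) (.e (nat_lit 426009) (nat_lit 0) .nil)))))) (.g (nat_lit 5) .nil .nil))) 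
(.lf (nat_lit 129103) (.g (nat_lit 1562) (.e (nat_lit 7593) (nat_lit 407) (.e (nat_lit 73775) (nat_lit 26) (.e (nat_lit 778466) (nat_lit 11) (.e (nat_lit 24578) (nat_lit 0) .nil)))) .nil))) (.nd (nat_lit 6) 
(.lf (nat_lit 129071) (.g (nat_lit 1924) (.e (nat_lit 7593) (nat_lit 407) (.e (nat_lit 73775) (nat_lit 26) (.e (nat_lit 778362) (nat_lit 9) (.e (nat_lit 334) (nat_lit 26) (.e (nat_lit 376841) (nat_lit 11) (.e (nat_lit 426009) (nat_lit 0) .nil)))))) (.g (nat_lit 4) .nil .nil))) 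
(.lf (nat_lit 129135) (.g (nat_lit 1026) (.e (nat_lit 7936) (nat_lit 407) (.e (nat_lit 73729) (nat_lit 0) (.e (nat_lit 7261) (nat_lit 384) (.e (nat_lit 57437) (nat_lit 17) .nil)))) .nil)))) (.nd (nat_lit 5) (.nd (nat_lit 6) 
(.lf (nat_lit 129055) (.g (nat_lit 1245) (.e (nat_lit 7593) (nat_lit 407) (.e (nat_lit 73775) (nat_lit 26) (.e (nat_lit 778362) (nat_lit 9) (.e (nat_lit 245) (nat_lit 21) .nil)))) .nil)) 
(.lf (nat_lit 129119) (.g (nat_lit 462) (.e (nat_lit 7936) (nat_lit 407) (.e (nat_lit 73729) (nat_lit 0) (.e (nat_lit 3928) (nat_lit 239) .nil))) .nil))) (.nd (nat_lit 6) 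
(.lf (nat_lit 129087) (.g (nat_lit 1470) (.e (nat_lit 7593) (nat_lit 407) (.e (nat_lit 73775) (nat_lit 26) (.e (nat_lit 778465) (nat_lit 11) (.e (nat_lit 24578) (nat_lit 0) .nil)))) .nil)) 
(.lf (nat_lit 129151) (.g (nat_lit 159) (.e (nat_lit 7936) (nat_lit 407) (.e (nat_lit 73731) (nat_lit 0) (.e (nat_lit 7265) (nat_lit 384) .nil))) .nil)))))))))

noncomputable def tv1726 : DT := (.nd (nat_lit 0) (.nd (nat_lit 1) (.nd (nat_lit 2) (.nd (nat_lit 3) (.nd (nat_lit 4) (.nd (nat_lit 5) (.nd (nat_lit 6) 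
(.lf (nat_lit 129152) (.g (nat_lit 746) (.e (nat_lit 7936) (nat_lit 407) (.e (nat_lit 73731) (nat_lit 0) (.e (nat_lit 7266) (nat_lit 384) (.e (nat_lit 57435) (nat_lit 17) .nil)))) .nil)) 
(.lf (nat_lit 129216) (.g (nat_lit 1170) (.e (nat_lit 7936) (nat_lit 407) (.e (nat_lit 73753) (nat_lit 8) (.e (nat_lit 557072) (nat_lit 9) (.e (nat_lit 7936) (nat_lit 23) .nil)))) .nil))) (.nd (nat_lit 6) 
(.lf (nat_lit 129184) (.g (nat_lit 1465) (.e (nat_lit 7936) (nat_lit 407) (.e (nat_lit 73746) (nat_lit 3) (.e (nat_lit 524032) (nat_lit 33) (.e (nat_lit 401459) (nat_lit 13) (.e (nat_lit 483334) (nat_lit 0) .nil))))) .nil)) 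
(.lf (nat_lit 129248) (.g (nat_lit 359) (.e (nat_lit 7936) (nat_lit 407) (.e (nat_lit 73754) (nat_lit 8) (.e (nat_lit 557073) (nat_lit 9) .nil))) .nil)))) (.nd (nat_lit 5) (.nd (nat_lit 6) 
(.lf (nat_lit 129168) (.g (nat_lit 2379) (.e (nat_lit 7936) (nat_lit 407) (.e (nat_lit 73746) (nat_lit 3) (.e (nat_lit 516097) (nat_lit 0) (.e (nat_lit 7593) (nat_lit 407) (.e (nat_lit 73746) (nat_lit 3) .nil))))) .nil)) 
(.lf (nat_lit 129232) (.g (nat_lit 2667) (.e (nat_lit 7936) (nat_lit 407) (.e (nat_lit 73753) (nat_lit 8) (.e (nat_lit 557087) (nat_lit 11) (.e (nat_lit 24640) (nat_lit 10) (.e (nat_lit 344120) (nat_lit 21) .nil))))) .nil))) (.nd (nat_lit 6) 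
(.lf (nat_lit 129200) (.g (nat_lit 991) (.e (nat_lit 7936) (nat_lit 407) (.e (nat_lit 73753) (nat_lit 8) (.e (nat_lit 557064) (nat_lit 9) (.e (nat_lit 315) (nat_lit 23) .nil)))) .nil)) 
(.lf (nat_lit 129264) (.g (nat_lit 1642) (.e (nat_lit 7936) (nat_lit 407) (.e (nat_lit 73755) (nat_lit 8) (.e (nat_lit 557065) (nat_lit 9) (.e (nat_lit 334) (nat_lit 26) (.e (nat_lit 376869) (nat_lit 23) .nil))))) .nil))))) (.nd (nat_lit 4) (.nd (nat_lit 5) (.nd (nat_lit 6) 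
(.lf (nat_lit 129160) (.g (nat_lit 493) (.e (nat_lit 7936) (nat_lit 407) (.e (nat_lit 73733) (nat_lit 0) (.e (nat_lit 7270) (nat_lit 385) .nil))) .nil)) 
(.lf (nat_lit 129224) (.g (nat_lit 231) (.e (nat_lit 7936) (nat_lit 407) (.e (nat_lit 73753) (nat_lit 8) (.e (nat_lit 557087) (nat_lit 11) .nil))) .nil))) (.nd (nat_lit 6) 
(.lf (nat_lit 129192) (.g (nat_lit 2995) (.e (nat_lit 7936) (nat_lit 407) (.e (nat_lit 73747) (nat_lit 3) (.e (nat_lit 516139) (nat_lit 7) (.e (nat_lit 409641) (nat_lit 17) (.e (nat_lit 294931) (nat_lit 3) .nil))))) .nil)) 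
(.lf (nat_lit 129256) (.g (nat_lit 1710) (.e (nat_lit 7936) (nat_lit 407) (.e (nat_lit 73754) (nat_lit 8) (.e (nat_lit 557087) (nat_lit 11) (.e (nat_lit 24623) (nat_lit 9) .nil)))) .nil)))) (.nd (nat_lit 5) (.nd (nat_lit 6) 
(.lf (nat_lit 129176) (.g (nat_lit 551) (.e (nat_lit 7936) (nat_lit 407) (.e (nat_lit 73746) (nat_lit 3) (.e (nat_lit 524032) (nat_lit 33) .nil))) .nil)) 
(.lf (nat_lit 129240) (.g (nat_lit 307) (.e (nat_lit 7936) (nat_lit 407) (.e (nat_lit 73754) (nat_lit 8) (.e (nat_lit 557070) (nat_lit 9) .nil))) .nil))) (.nd (nat_lit 6) 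
(.lf (nat_lit 129208) (.g (nat_lit 1084) (.e (nat_lit 7936) (nat_lit 407) (.e (nat_lit 73753) (nat_lit 8) (.e (nat_lit 557066) (nat_lit 9) (.e (nat_lit 334) (nat_lit 26) (.e (nat_lit 376867) (nat_lit 23) .nil))))) .nil)) 
(.lf (nat_lit 129272) (.g (nat_lit 696) (.e (nat_lit 7936) (nat_lit 407) (.e (nat_lit 73755) (nat_lit 8) (.e (nat_lit 557085) (nat_lit 11) .nil))) .nil)))))) (.nd (nat_lit 3) (.nd (nat_lit 4) (.nd (nat_lit 5) (.nd (nat_lit 6) 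
(.lf (nat_lit 129156) (.g (nat_lit 498) (.e (nat_lit 7936) (nat_lit 407) (.e (nat_lit 73732) (nat_lit 0) (.e (nat_lit 7271) (nat_lit 385) .nil))) .nil)) 
(.lf (nat_lit 129220) (.g (nat_lit 1516) (.e (nat_lit 7936) (nat_lit 407) (.e (nat_lit 73753) (nat_lit 8) (.e (nat_lit 557081) (nat_lit 9) (.e (nat_lit 316) (nat_lit 23) (.e (nat_lit 352313) (nat_lit 23) .nil))))) .nil))) (.nd (nat_lit 6) 
(.lf (nat_lit 129188) (.g (nat_lit 1552) (.e (nat_lit 7936) (nat_lit 407) (.e (nat_lit 73747) (nat_lit 3) (.e (nat_lit 516098) (nat_lit 0) (.e (nat_lit 7591) (nat_lit 407) (.e (nat_lit 73748) (nat_lit 3) .nil))))) .nil)) 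
(.lf (nat_lit 129252) (.g (nat_lit 582) (.e (nat_lit 7936) (nat_lit 407) (.e (nat_lit 73754) (nat_lit 8) (.e (nat_lit 557077) (nat_lit 9) .nil))) .nil)))) (.nd (nat_lit 5) (.nd (nat_lit 6) 
(.lf (nat_lit 129172) (.g (nat_lit 672) (.e (nat_lit 7936) (nat_lit 407) (.e (nat_lit 73746) (nat_lit 3) (.e (nat_lit 516105) (nat_lit 0) (.e (nat_lit 7936) (nat_lit 407) .nil)))) .nil)) 
(.lf (nat_lit 129236) (.g (nat_lit 748) (.e (nat_lit 7936) (nat_lit 407) (.e (nat_lit 73754) (nat_lit 8) (.e (nat_lit 557064) (nat_lit 9) (.e (nat_lit 309) (nat_lit 23) .nil)))) .nil))) (.nd (nat_lit 6) 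
(.lf (nat_lit 129204) (.g (nat_lit 2314) (.e (nat_lit 7936) (nat_lit 407) (.e (nat_lit 73753) (nat_lit 8) (.e (nat_lit 557065) (nat_lit 9) (.e (nat_lit 334) (nat_lit 26) (.e (nat_lit 376869) (nat_lit 23) .nil))))) .nil)) 
(.lf (nat_lit 129268) (.g (nat_lit 1234) (.e (nat_lit 7936) (nat_lit 407) (.e (nat_lit 73755) (nat_lit 8) (.e (nat_lit 557067) (nat_lit 9) (.e (nat_lit 7936) (nat_lit 23) .nil)))) .nil))))) (.nd (nat_lit 4) (.nd (nat_lit 5) (.nd (nat_lit 6) 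
(.lf (nat_lit 129164) (.g (nat_lit 1435) (.e (nat_lit 7936) (nat_lit 407) (.e (nat_lit 73733) (nat_lit 0) (.e (nat_lit 7273) (nat_lit 385) (.e (nat_lit 122916) (nat_lit 14) (.e (nat_lit 352278) (nat_lit 11) .nil))))) .nil)) 
(.lf (nat_lit 129228) (.g (nat_lit 1515) (.e (nat_lit 7936) (nat_lit 407) (.e (nat_lit 73753) (nat_lit 8) (.e (nat_lit 557087) (nat_lit 11) (.e (nat_lit 24631) (nat_lit 9) (.e (nat_lit 336020) (nat_lit 3) .nil))))) .nil))) (.nd (nat_lit 6) 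
(.lf (nat_lit 129196) (.g (nat_lit 2370) (.e (nat_lit 7936) (nat_lit 407) (.e (nat_lit 73747) (nat_lit 3) (.e (nat_lit 516185) (nat_lit 16) (.e (nat_lit 491560) (nat_lit 10) (.e (nat_lit 344118) (nat_lit 21) .nil))))) .nil)) 
(.lf (nat_lit 129260) (.g (nat_lit 1157) (.e (nat_lit 7936) (nat_lit 407) (.e (nat_lit 73755) (nat_lit 8) (.e (nat_lit 557064) (nat_lit 9) (.e (nat_lit 315) (nat_lit 23) (.e (nat_lit 352315) (nat_lit 23) .nil))))) .nil)))) (.nd (nat_lit 5) (.nd (nat_lit 6) 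
(.lf (nat_lit 129180) (.g (nat_lit 928) (.e (nat_lit 7936) (nat_lit 407) (.e (nat_lit 73746) (nat_lit 3) (.e (nat_lit 524032) (nat_lit 33) (.e (nat_lit 401458) (nat_lit 13) (.e (nat_lit 483331) (nat_lit 0) .nil))))) .nil)) 
(.lf (nat_lit 129244) (.g (nat_lit 1286) (.e (nat_lit 7936) (nat_lit 407) (.e (nat_lit 73754) (nat_lit 8) (.e (nat_lit 557070) (nat_lit 9) (.e (nat_lit 333) (nat_lit 26) .nil)))) .nil))) (.nd (nat_lit 6) 
(.lf (nat_lit 129212) (.g (nat_lit 865) (.e (nat_lit 7936) (nat_lit 407) (.e (nat_lit 73753) (nat_lit 8) (.e (nat_lit 557068) (nat_lit 9) (.e (nat_lit 7936) (nat_lit 21) .nil)))) .nil)) 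
(.lf (nat_lit 129276) (.g (nat_lit 1012) (.e (nat_lit 7936) (nat_lit 407) (.e (nat_lit 73755) (nat_lit 8) (.e (nat_lit 557087) (nat_lit 11) (.e (nat_lit 24631) (nat_lit 9) .nil)))) .nil))))))) (.nd (nat_lit 2) (.nd (nat_lit 3) (.nd (nat_lit 4) (.nd (nat_lit 5) (.nd (nat_lit 6) 
(.lf (nat_lit 129154) (.g (nat_lit 1488) (.e (nat_lit 7936) (nat_lit 407) (.e (nat_lit 73731) (nat_lit 0) (.e (nat_lit 7266) (nat_lit 384) (.e (nat_lit 57436) (nat_lit 17) (.e (nat_lit 376838) (nat_lit 11) .nil))))) .nil)) 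
(.lf (nat_lit 129218) (.g (nat_lit 530) (.e (nat_lit 7936) (nat_lit 407) (.e (nat_lit 73753) (nat_lit 8) (.e (nat_lit 557074) (nat_lit 9) .nil))) .nil))) (.nd (nat_lit 6) 
(.lf (nat_lit 129186) (.g (nat_lit 1765) (.e (nat_lit 7936) (nat_lit 407) (.e (nat_lit 73747) (nat_lit 3) (.e (nat_lit 516097) (nat_lit 0) (.e (nat_lit 7591) (nat_lit 407) .nil)))) .nil)) 
(.lf (nat_lit 129250) (.g (nat_lit 1197) (.e (nat_lit 7936) (nat_lit 407) (.e (nat_lit 73754) (nat_lit 8) (.e (nat_lit 557074) (nat_lit 9) (.e (nat_lit 7936) (nat_lit 24) .nil)))) .nil)))) (.nd (nat_lit 5) (.nd (nat_lit 6) 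
(.lf (nat_lit 129170) (.g (nat_lit 751) (.e (nat_lit 7936) (nat_lit 407) (.e (nat_lit 73746) (nat_lit 3) (.e (nat_lit 516102) (nat_lit 0) .nil))) .nil)) 
(.lf (nat_lit 129234) (.g (nat_lit 1534) (.e (nat_lit 7936) (nat_lit 407) (.e (nat_lit 73753) (nat_lit 8) (.e (nat_lit 557087) (nat_lit 11) (.e (nat_lit 24645) (nat_lit 11) .nil)))) .nil))) (.nd (nat_lit 6) 
(.lf (nat_lit 129202) (.g (nat_lit 1684) (.e (nat_lit 7936) (nat_lit 407) (.e (nat_lit 73753) (nat_lit 8) (.e (nat_lit 557065) (nat_lit 9) (.e (nat_lit 324) (nat_lit 24) .nil)))) .nil)) 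
(.lf (nat_lit 129266) (.g (nat_lit 1546) (.e (nat_lit 7936) (nat_lit 407) (.e (nat_lit 73755) (nat_lit 8) (.e (nat_lit 557066) (nat_lit 9) (.e (nat_lit 321) (nat_lit 24) (.e (nat_lit 360467) (nat_lit 3) .nil))))) .nil))))) (.nd (nat_lit 4) (.nd (nat_lit 5) (.nd (nat_lit 6) 
(.lf (nat_lit 129162) (.g (nat_lit 421) (.e (nat_lit 7936) (nat_lit 407) (.e (nat_lit 73733) (nat_lit 0) (.e (nat_lit 7272) (nat_lit 385) .nil))) .nil)) 
(.lf (nat_lit 129226) (.g (nat_lit 2018) (.e (nat_lit 7936) (nat_lit 407) (.e (nat_lit 73753) (nat_lit 8) (.e (nat_lit 557087) (nat_lit 11) (.e (nat_lit 24628) (nat_lit 9) (.e (nat_lit 336019) (nat_lit 3) .nil))))) .nil))) (.nd (nat_lit 6) 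
(.lf (nat_lit 129194) (.g (nat_lit 1126) (.e (nat_lit 7936) (nat_lit 407) (.e (nat_lit 73747) (nat_lit 3) (.e (nat_lit 516142) (nat_lit 8) (.e (nat_lit 417827) (nat_lit 17) .nil)))) .nil)) 
(.lf (nat_lit 129258) (.g (nat_lit 2482) (.e (nat_lit 7936) (nat_lit 407) (.e (nat_lit 73754) (nat_lit 8) (.e (nat_lit 557087) (nat_lit 11) (.e (nat_lit 24639) (nat_lit 10) (.e (nat_lit 344117) (nat_lit 21) .nil))))) .nil)))) (.nd (nat_lit 5) (.nd (nat_lit 6) 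
(.lf (nat_lit 129178) (.g (nat_lit 974) (.e (nat_lit 7936) (nat_lit 407) (.e (nat_lit 73746) (nat_lit 3) (.e (nat_lit 524032) (nat_lit 33) (.e (nat_lit 401458) (nat_lit 13) (.e (nat_lit 483329) (nat_lit 0) .nil))))) .nil)) 
(.lf (nat_lit 129242) (.g (nat_lit 1255) (.e (nat_lit 7936) (nat_lit 407) (.e (nat_lit 73754) (nat_lit 8) (.e (nat_lit 557070) (nat_lit 9) (.e (nat_lit 7936) (nat_lit 23) .nil)))) .nil))) (.nd (nat_lit 6) 
(.lf (nat_lit 129210) (.g (nat_lit 1677) (.e (nat_lit 7936) (nat_lit 407) (.e (nat_lit 73753) (nat_lit 8) (.e (nat_lit 557067) (nat_lit 9) (.e (nat_lit 7936) (nat_lit 23) .nil)))) .nil)) 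
(.lf (nat_lit 129274) (.g (nat_lit 338) (.e (nat_lit 7936) (nat_lit 407) (.e (nat_lit 73755) (nat_lit 8) (.e (nat_lit 557087) (nat_lit 11) .nil))) .nil)))))) (.nd (nat_lit 3) (.nd (nat_lit 4) (.nd (nat_lit 5) (.nd (nat_lit 6) 
(.lf (nat_lit 129158) (.g (nat_lit 1269) (.e (nat_lit 7936) (nat_lit 407) (.e (nat_lit 73732) (nat_lit 0) (.e (nat_lit 7273) (nat_lit 385) (.e (nat_lit 122916) (nat_lit 14) (.e (nat_lit 352278) (nat_lit 11) .nil))))) .nil)) 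
(.lf (nat_lit 129222) (.g (nat_lit 1488) (.e (nat_lit 7936) (nat_lit 407) (.e (nat_lit 73753) (nat_lit 8) (.e (nat_lit 557085) (nat_lit 11) (.e (nat_lit 24628) (nat_lit 9) .nil)))) .nil))) (.nd (nat_lit 6) 
(.lf (nat_lit 129190) (.g (nat_lit 2222) (.e (nat_lit 7936) (nat_lit 407) (.e (nat_lit 73747) (nat_lit 3) (.e (nat_lit 516139) (nat_lit 7) (.e (nat_lit 409617) (nat_lit 10) (.e (nat_lit 5355) (nat_lit 298) .nil))))) .nil)) 
(.lf (nat_lit 129254) (.g (nat_lit 1243) (.e (nat_lit 7936) (nat_lit 407) (.e (nat_lit 73754) (nat_lit 8) (.e (nat_lit 557085) (nat_lit 11) (.e (nat_lit 24639) (nat_lit 10) .nil)))) .nil)))) (.nd (nat_lit 5) (.nd (nat_lit 6) 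
(.lf (nat_lit 129174) (.g (nat_lit 2164) (.e (nat_lit 7936) (nat_lit 407) (.e (nat_lit 73746) (nat_lit 3) (.e (nat_lit 516139) (nat_lit 7) (.e (nat_lit 409642) (nat_lit 17) .nil)))) .nil)) 
(.lf (nat_lit 129238) (.g (nat_lit 1317) (.e (nat_lit 7936) (nat_lit 407) (.e (nat_lit 73754) (nat_lit 8) (.e (nat_lit 557066) (nat_lit 9) (.e (nat_lit 321) (nat_lit 24) .nil)))) .nil))) (.nd (nat_lit 6) 
(.lf (nat_lit 129206) (.g (nat_lit 1158) (.e (nat_lit 7936) (nat_lit 407) (.e (nat_lit 73753) (nat_lit 8) (.e (nat_lit 557066) (nat_lit 9) (.e (nat_lit 268) (nat_lit 21) .nil)))) .nil)) 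
(.lf (nat_lit 129270) (.g (nat_lit 1234) (.e (nat_lit 7936) (nat_lit 407) (.e (nat_lit 73755) (nat_lit 8) (.e (nat_lit 557070) (nat_lit 9) (.e (nat_lit 313) (nat_lit 23) .nil)))) .nil))))) (.nd (nat_lit 4) (.nd (nat_lit 5) (.nd (nat_lit 6) 
(.lf (nat_lit 129166) (.g (nat_lit 1445) (.e (nat_lit 7936) (nat_lit 407) (.e (nat_lit 73746) (nat_lit 3) (.e (nat_lit 516097) (nat_lit 0) (.e (nat_lit 7591) (nat_lit 407) .nil)))) .nil)) 
(.lf (nat_lit 129230) (.g (nat_lit 1128) (.e (nat_lit 7936) (nat_lit 407) (.e (nat_lit 73753) (nat_lit 8) (.e (nat_lit 557087) (nat_lit 11) (.e (nat_lit 24634) (nat_lit 9) .nil)))) .nil))) (.nd (nat_lit 6) 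
(.lf (nat_lit 129198) (.g (nat_lit 1378) (.e (nat_lit 7936) (nat_lit 407) (.e (nat_lit 73751) (nat_lit 7) (.e (nat_lit 548874) (nat_lit 5) (.e (nat_lit 1595) (nat_lit 111) (.e (nat_lit 360467) (nat_lit 3) .nil))))) .nil)) 
(.lf (nat_lit 129262) (.g (nat_lit 1423) (.e (nat_lit 7936) (nat_lit 407) (.e (nat_lit 73755) (nat_lit 8) (.e (nat_lit 557065) (nat_lit 9) (.e (nat_lit 324) (nat_lit 24) (.e (nat_lit 360466) (nat_lit 3) .nil))))) .nil)))) (.nd (nat_lit 5) (.nd (nat_lit 6) 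
(.lf (nat_lit 129182) (.g (nat_lit 1471) (.e (nat_lit 7936) (nat_lit 407) (.e (nat_lit 73746) (nat_lit 3) (.e (nat_lit 524032) (nat_lit 33) (.e (nat_lit 401459) (nat_lit 13) (.e (nat_lit 483328) (nat_lit 0) .nil))))) .nil)) 
(.lf (nat_lit 129246) (.g (nat_lit 362) (.e (nat_lit 7936) (nat_lit 407) (.e (nat_lit 73754) (nat_lit 8) (.e (nat_lit 557072) (nat_lit 9) .nil))) .nil))) (.nd (nat_lit 6) 
(.lf (nat_lit 129214) (.g (nat_lit 1294) (.e (nat_lit 7936) (nat_lit 407) (.e (nat_lit 73753) (nat_lit 8) (.e (nat_lit 557070) (nat_lit 9) (.e (nat_lit 7936) (nat_lit 23) .nil)))) .nil)) 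
(.lf (nat_lit 129278) (.g (nat_lit 1063) (.e (nat_lit 7936) (nat_lit 407) (.e (nat_lit 73755) (nat_lit 8) (.e (nat_lit 557087) (nat_lit 11) (.e (nat_lit 24634) (nat_lit 9) .nil)))) .nil)))))))) (.nd (nat_lit 1) (.nd (nat_lit 2) (.nd (nat_lit 3) (.nd (nat_lit 4) (.nd (nat_lit 5) (.nd (nat_lit 6) 
(.lf (nat_lit 129153) (.g (nat_lit 751) (.e (nat_lit 7936) (nat_lit 407) (.e (nat_lit 73731) (nat_lit 0) (.e (nat_lit 7266) (nat_lit 384) (.e (nat_lit 57436) (nat_lit 17) .nil)))) .nil)) 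
(.lf (nat_lit 129217) (.g (nat_lit 484) (.e (nat_lit 7936) (nat_lit 407) (.e (nat_lit 73753) (nat_lit 8) (.e (nat_lit 557073) (nat_lit 9) .nil))) .nil))) (.nd (nat_lit 6) 
(.lf (nat_lit 129185) (.g (nat_lit 1215) (.e (nat_lit 7936) (nat_lit 407) (.e (nat_lit 73746) (nat_lit 3) (.e (nat_lit 524032) (nat_lit 33) (.e (nat_lit 401459) (nat_lit 13) (.e (nat_lit 483335) (nat_lit 0) .nil))))) .nil)) 
(.lf (nat_lit 129249) (.g (nat_lit 688) (.e (nat_lit 7936) (nat_lit 407) (.e (nat_lit 73754) (nat_lit 8) (.e (nat_lit 557073) (nat_lit 9) (.e (nat_lit 7936) (nat_lit 26) .nil)))) .nil)))) (.nd (nat_lit 5) (.nd (nat_lit 6) 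
(.lf (nat_lit 129169) (.g (nat_lit 835) (.e (nat_lit 7936) (nat_lit 407) (.e (nat_lit 73746) (nat_lit 3) (.e (nat_lit 516100) (nat_lit 0) (.e (nat_lit 7936) (nat_lit 407) .nil)))) .nil)) 
(.lf (nat_lit 129233) (.g (nat_lit 2475) (.e (nat_lit 7936) (nat_lit 407) (.e (nat_lit 73753) (nat_lit 8) (.e (nat_lit 557087) (nat_lit 11) (.e (nat_lit 24641) (nat_lit 10) (.e (nat_lit 344119) (nat_lit 21) .nil))))) .nil))) (.nd (nat_lit 6) 
(.lf (nat_lit 129201) (.g (nat_lit 1580) (.e (nat_lit 7936) (nat_lit 407) (.e (nat_lit 73753) (nat_lit 8) (.e (nat_lit 557065) (nat_lit 9) (.e (nat_lit 7936) (nat_lit 23) .nil)))) .nil)) 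
(.lf (nat_lit 129265) (.g (nat_lit 329) (.e (nat_lit 7936) (nat_lit 407) (.e (nat_lit 73755) (nat_lit 8) (.e (nat_lit 557066) (nat_lit 9) .nil))) .nil))))) (.nd (nat_lit 4) (.nd (nat_lit 5) (.nd (nat_lit 6) 
(.lf (nat_lit 129161) (.g (nat_lit 2102) (.e (nat_lit 7936) (nat_lit 407) (.e (nat_lit 73733) (nat_lit 0) (.e (nat_lit 7270) (nat_lit 385) (.e (nat_lit 122916) (nat_lit 14) (.e (nat_lit 352278) (nat_lit 11) .nil))))) .nil)) 
(.lf (nat_lit 129225) (.g (nat_lit 788) (.e (nat_lit 7936) (nat_lit 407) (.e (nat_lit 73753) (nat_lit 8) (.e (nat_lit 557087) (nat_lit 11) (.e (nat_lit 24625) (nat_lit 9) .nil)))) .nil))) (.nd (nat_lit 6) 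
(.lf (nat_lit 129193) (.g (nat_lit 1319) (.e (nat_lit 7936) (nat_lit 407) (.e (nat_lit 73747) (nat_lit 3) (.e (nat_lit 516141) (nat_lit 8) (.e (nat_lit 417827) (nat_lit 17) .nil)))) .nil)) 
(.lf (nat_lit 129257) (.g (nat_lit 1866) (.e (nat_lit 7936) (nat_lit 407) (.e (nat_lit 73754) (nat_lit 8) (.e (nat_lit 557087) (nat_lit 11) (.e (nat_lit 24632) (nat_lit 9) .nil)))) .nil)))) (.nd (nat_lit 5) (.nd (nat_lit 6) 
(.lf (nat_lit 129177) (.g (nat_lit 1186) (.e (nat_lit 7936) (nat_lit 407) (.e (nat_lit 73746) (nat_lit 3) (.e (nat_lit 524032) (nat_lit 33) (.e (nat_lit 401458) (nat_lit 13) (.e (nat_lit 483328) (nat_lit 0) .nil))))) .nil)) 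
(.lf (nat_lit 129241) (.g (nat_lit 1215) (.e (nat_lit 7936) (nat_lit 407) (.e (nat_lit 73754) (nat_lit 8) (.e (nat_lit 557070) (nat_lit 9) (.e (nat_lit 313) (nat_lit 23) .nil)))) .nil))) (.nd (nat_lit 6) 
(.lf (nat_lit 129209) (.g (nat_lit 626) (.e (nat_lit 7936) (nat_lit 407) (.e (nat_lit 73753) (nat_lit 8) (.e (nat_lit 557067) (nat_lit 9) .nil))) .nil)) 
(.lf (nat_lit 129273) (.g (nat_lit 928) (.e (nat_lit 7936) (nat_lit 407) (.e (nat_lit 73755) (nat_lit 8) (.e (nat_lit 557086) (nat_lit 11) (.e (nat_lit 24639) (nat_lit 10) .nil)))) .nil)))))) (.nd (nat_lit 3) (.nd (nat_lit 4) (.nd (nat_lit 5) (.nd (nat_lit 6) 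
(.lf (nat_lit 129157) (.g (nat_lit 491) (.e (nat_lit 7936) (nat_lit 407) (.e (nat_lit 73732) (nat_lit 0) (.e (nat_lit 7272) (nat_lit 385) .nil))) .nil)) 
(.lf (nat_lit 129221) (.g (nat_lit 631) (.e (nat_lit 7936) (nat_lit 407) (.e (nat_lit 73753) (nat_lit 8) (.e (nat_lit 557085) (nat_lit 11) .nil))) .nil))) (.nd (nat_lit 6) 
(.lf (nat_lit 129189) (.g (nat_lit 1537) (.e (nat_lit 7936) (nat_lit 407) (.e (nat_lit 73747) (nat_lit 3) (.e (nat_lit 516098) (nat_lit 0) (.e (nat_lit 7593) (nat_lit 407) (.e (nat_lit 73746) (nat_lit 3) .nil))))) .nil)) 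
(.lf (nat_lit 129253) (.g (nat_lit 426) (.e (nat_lit 7936) (nat_lit 407) (.e (nat_lit 73754) (nat_lit 8) (.e (nat_lit 557085) (nat_lit 11) .nil))) .nil)))) (.nd (nat_lit 5) (.nd (nat_lit 6) 
(.lf (nat_lit 129173) (.g (nat_lit 1624) (.e (nat_lit 7936) (nat_lit 407) (.e (nat_lit 73746) (nat_lit 3) (.e (nat_lit 516139) (nat_lit 7) (.e (nat_lit 417536) (nat_lit 16) .nil)))) .nil)) 
(.lf (nat_lit 129237) (.g (nat_lit 1169) (.e (nat_lit 7936) (nat_lit 407) (.e (nat_lit 73754) (nat_lit 8) (.e (nat_lit 557065) (nat_lit 9) (.e (nat_lit 324) (nat_lit 24) .nil)))) .nil))) (.nd (nat_lit 6) 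
(.lf (nat_lit 129205) (.g (nat_lit 265) (.e (nat_lit 7936) (nat_lit 407) (.e (nat_lit 73753) (nat_lit 8) (.e (nat_lit 557066) (nat_lit 9) .nil))) .nil)) 
(.lf (nat_lit 129269) (.g (nat_lit 409) (.e (nat_lit 7936) (nat_lit 407) (.e (nat_lit 73755) (nat_lit 8) (.e (nat_lit 557068) (nat_lit 9) .nil))) .nil))))) (.nd (nat_lit 4) (.nd (nat_lit 5) (.nd (nat_lit 6) 
(.lf (nat_lit 129165) (.g (nat_lit 1560) (.e (nat_lit 7936) (nat_lit 407) (.e (nat_lit 73746) (nat_lit 3) (.e (nat_lit 516097) (nat_lit 0) (.e (nat_lit 7587) (nat_lit 406) .nil)))) .nil)) 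
(.lf (nat_lit 129229) (.g (nat_lit 2302) (.e (nat_lit 7936) (nat_lit 407) (.e (nat_lit 73753) (nat_lit 8) (.e (nat_lit 557087) (nat_lit 11) (.e (nat_lit 24633) (nat_lit 9) (.e (nat_lit 336028) (nat_lit 3) .nil))))) .nil))) (.nd (nat_lit 6) 
(.lf (nat_lit 129197) (.g (nat_lit 1515) (.e (nat_lit 7936) (nat_lit 407) (.e (nat_lit 73751) (nat_lit 7) (.e (nat_lit 548874) (nat_lit 5) (.e (nat_lit 1586) (nat_lit 111) (.e (nat_lit 360468) (nat_lit 3) .nil))))) .nil)) 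
(.lf (nat_lit 129261) (.g (nat_lit 958) (.e (nat_lit 7936) (nat_lit 407) (.e (nat_lit 73755) (nat_lit 8) (.e (nat_lit 557065) (nat_lit 9) (.e (nat_lit 7936) (nat_lit 23) .nil)))) .nil)))) (.nd (nat_lit 5) (.nd (nat_lit 6) 
(.lf (nat_lit 129181) (.g (nat_lit 1168) (.e (nat_lit 7936) (nat_lit 407) (.e (nat_lit 73746) (nat_lit 3) (.e (nat_lit 524032) (nat_lit 33) (.e (nat_lit 401458) (nat_lit 13) (.e (nat_lit 483335) (nat_lit 0) .nil))))) .nil)) 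
(.lf (nat_lit 129245) (.g (nat_lit 785) (.e (nat_lit 7936) (nat_lit 407) (.e (nat_lit 73754) (nat_lit 8) (.e (nat_lit 557071) (nat_lit 9) (.e (nat_lit 7936) (nat_lit 24) .nil)))) .nil))) (.nd (nat_lit 6) 
(.lf (nat_lit 129213) (.g (nat_lit 1361) (.e (nat_lit 7936) (nat_lit 407) (.e (nat_lit 73753) (nat_lit 8) (.e (nat_lit 557070) (nat_lit 9) (.e (nat_lit 313) (nat_lit 23) .nil)))) .nil)) 
(.lf (nat_lit 129277) (.g (nat_lit 1548) (.e (nat_lit 7936) (nat_lit 407) (.e (nat_lit 73755) (nat_lit 8) (.e (nat_lit 557087) (nat_lit 11) (.e (nat_lit 24631) (nat_lit 9) (.e (nat_lit 336020) (nat_lit 3) .nil))))) .nil))))))) (.nd (nat_lit 2) (.nd (nat_lit 3) (.nd (nat_lit 4) (.nd (nat_lit 5) (.nd (nat_lit 6) 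
(.lf (nat_lit 129155) (.g (nat_lit 1384) (.e (nat_lit 7936) (nat_lit 407) (.e (nat_lit 73731) (nat_lit 0) (.e (nat_lit 7266) (nat_lit 384) (.e (nat_lit 57436) (nat_lit 17) (.e (nat_lit 376840) (nat_lit 11) .nil))))) .nil)) 
(.lf (nat_lit 129219) (.g (nat_lit 1216) (.e (nat_lit 7936) (nat_lit 407) (.e (nat_lit 73753) (nat_lit 8) (.e (nat_lit 557081) (nat_lit 9) (.e (nat_lit 316) (nat_lit 23) .nil)))) .nil))) (.nd (nat_lit 6) 
(.lf (nat_lit 129187) (.g (nat_lit 1760) (.e (nat_lit 7936) (nat_lit 407) (.e (nat_lit 73747) (nat_lit 3) (.e (nat_lit 516097) (nat_lit 0) (.e (nat_lit 7593) (nat_lit 407) .nil)))) .nil)) 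
(.lf (nat_lit 129251) (.g (nat_lit 582) (.e (nat_lit 7936) (nat_lit 407) (.e (nat_lit 73754) (nat_lit 8) (.e (nat_lit 557076) (nat_lit 9) .nil))) .nil)))) (.nd (nat_lit 5) (.nd (nat_lit 6) 
(.lf (nat_lit 129171) (.g (nat_lit 474) (.e (nat_lit 7936) (nat_lit 407) (.e (nat_lit 73746) (nat_lit 3) (.e (nat_lit 516104) (nat_lit 0) .nil))) .nil)) 
(.lf (nat_lit 129235) (.g (nat_lit 398) (.e (nat_lit 7936) (nat_lit 407) (.e (nat_lit 73754) (nat_lit 8) (.e (nat_lit 557064) (nat_lit 9) .nil))) .nil))) (.nd (nat_lit 6) 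
(.lf (nat_lit 129203) (.g (nat_lit 2295) (.e (nat_lit 7936) (nat_lit 407) (.e (nat_lit 73753) (nat_lit 8) (.e (nat_lit 557065) (nat_lit 9) (.e (nat_lit 334) (nat_lit 26) (.e (nat_lit 376867) (nat_lit 23) .nil))))) .nil)) 
(.lf (nat_lit 129267) (.g (nat_lit 1167) (.e (nat_lit 7936) (nat_lit 407) (.e (nat_lit 73755) (nat_lit 8) (.e (nat_lit 557066) (nat_lit 9) (.e (nat_lit 324) (nat_lit 24) .nil)))) .nil))))) (.nd (nat_lit 4) (.nd (nat_lit 5) (.nd (nat_lit 6) 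
(.lf (nat_lit 129163) (.g (nat_lit 1698) (.e (nat_lit 7936) (nat_lit 407) (.e (nat_lit 73733) (nat_lit 0) (.e (nat_lit 7272) (nat_lit 385) (.e (nat_lit 122916) (nat_lit 14) (.e (nat_lit 352278) (nat_lit 11) .nil))))) .nil)) 
(.lf (nat_lit 129227) (.g (nat_lit 985) (.e (nat_lit 7936) (nat_lit 407) (.e (nat_lit 73753) (nat_lit 8) (.e (nat_lit 557087) (nat_lit 11) (.e (nat_lit 24631) (nat_lit 9) .nil)))) .nil))) (.nd (nat_lit 6) 
(.lf (nat_lit 129195) (.g (nat_lit 1708) (.e (nat_lit 7936) (nat_lit 407) (.e (nat_lit 73747) (nat_lit 3) (.e (nat_lit 516184) (nat_lit 16) (.e (nat_lit 491554) (nat_lit 9) (.e (nat_lit 336028) (nat_lit 3) .nil))))) .nil)) 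
(.lf (nat_lit 129259) (.g (nat_lit 2573) (.e (nat_lit 7936) (nat_lit 407) (.e (nat_lit 73754) (nat_lit 8) (.e (nat_lit 557087) (nat_lit 11) (.e (nat_lit 24640) (nat_lit 10) (.e (nat_lit 344117) (nat_lit 21) .nil))))) .nil)))) (.nd (nat_lit 5) (.nd (nat_lit 6) 
(.lf (nat_lit 129179) (.g (nat_lit 936) (.e (nat_lit 7936) (nat_lit 407) (.e (nat_lit 73746) (nat_lit 3) (.e (nat_lit 524032) (nat_lit 33) (.e (nat_lit 401458) (nat_lit 13) (.e (nat_lit 483330) (nat_lit 0) .nil))))) .nil)) 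
(.lf (nat_lit 129243) (.g (nat_lit 1255) (.e (nat_lit 7936) (nat_lit 407) (.e (nat_lit 73754) (nat_lit 8) (.e (nat_lit 557070) (nat_lit 9) (.e (nat_lit 7936) (nat_lit 24) .nil)))) .nil))) (.nd (nat_lit 6) 
(.lf (nat_lit 129211) (.g (nat_lit 419) (.e (nat_lit 7936) (nat_lit 407) (.e (nat_lit 73753) (nat_lit 8) (.e (nat_lit 557068) (nat_lit 9) .nil))) .nil)) 
(.lf (nat_lit 129275) (.g (nat_lit 1888) (.e (nat_lit 7936) (nat_lit 407) (.e (nat_lit 73755) (nat_lit 8) (.e (nat_lit 557087) (nat_lit 11) (.e (nat_lit 24628) (nat_lit 9) (.e (nat_lit 336019) (nat_lit 3) .nil))))) .nil)))))) (.nd (nat_lit 3) (.nd (nat_lit 4) (.nd (nat_lit 5) (.nd (nat_lit 6) 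
(.lf (nat_lit 129159) (.g (nat_lit 2078) (.e (nat_lit 7936) (nat_lit 407) (.e (nat_lit 73733) (nat_lit 0) (.e (nat_lit 5907) (nat_lit 320) (.e (nat_lit 1221) (nat_lit 90) (.e (nat_lit 81959) (nat_lit 24) .nil))))) .nil)) 
(.lf (nat_lit 129223) (.g (nat_lit 569) (.e (nat_lit 7936) (nat_lit 407) (.e (nat_lit 73753) (nat_lit 8) (.e (nat_lit 557086) (nat_lit 11) .nil))) .nil))) (.nd (nat_lit 6) 
(.lf (nat_lit 129191) (.g (nat_lit 1664) (.e (nat_lit 7936) (nat_lit 407) (.e (nat_lit 73747) (nat_lit 3) (.e (nat_lit 516139) (nat_lit 7) (.e (nat_lit 417536) (nat_lit 16) .nil)))) .nil)) 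
(.lf (nat_lit 129255) (.g (nat_lit 563) (.e (nat_lit 7936) (nat_lit 407) (.e (nat_lit 73754) (nat_lit 8) (.e (nat_lit 557087) (nat_lit 11) .nil))) .nil)))) (.nd (nat_lit 5) (.nd (nat_lit 6) 
(.lf (nat_lit 129175) (.g (nat_lit 1134) (.e (nat_lit 7936) (nat_lit 407) (.e (nat_lit 73746) (nat_lit 3) (.e (nat_lit 516183) (nat_lit 16) (.e (nat_lit 491554) (nat_lit 9) .nil)))) .nil)) 
(.lf (nat_lit 129239) (.g (nat_lit 1700) (.e (nat_lit 7936) (nat_lit 407) (.e (nat_lit 73754) (nat_lit 8) (.e (nat_lit 557066) (nat_lit 9) (.e (nat_lit 324) (nat_lit 24) (.e (nat_lit 360466) (nat_lit 3) .nil))))) .nil))) (.nd (nat_lit 6) 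
(.lf (nat_lit 129207) (.g (nat_lit 1591) (.e (nat_lit 7936) (nat_lit 407) (.e (nat_lit 73753) (nat_lit 8) (.e (nat_lit 557066) (nat_lit 9) (.e (nat_lit 321) (nat_lit 24) (.e (nat_lit 360467) (nat_lit 3) .nil))))) .nil)) 
(.lf (nat_lit 129271) (.g (nat_lit 1043) (.e (nat_lit 7936) (nat_lit 407) (.e (nat_lit 73755) (nat_lit 8) (.e (nat_lit 557070) (nat_lit 9) (.e (nat_lit 7936) (nat_lit 23) .nil)))) .nil))))) (.nd (nat_lit 4) (.nd (nat_lit 5) (.nd (nat_lit 6) 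
(.lf (nat_lit 129167) (.g (nat_lit 1546) (.e (nat_lit 7936) (nat_lit 407) (.e (nat_lit 73746) (nat_lit 3) (.e (nat_lit 516097) (nat_lit 0) (.e (nat_lit 7593) (nat_lit 407) .nil)))) .nil)) 
(.lf (nat_lit 129231) (.g (nat_lit 1775) (.e (nat_lit 7936) (nat_lit 407) (.e (nat_lit 73753) (nat_lit 8) (.e (nat_lit 557087) (nat_lit 11) (.e (nat_lit 24635) (nat_lit 9) .nil)))) .nil))) (.nd (nat_lit 6) 
(.lf (nat_lit 129199) (.g (nat_lit 568) (.e (nat_lit 7936) (nat_lit 407) (.e (nat_lit 73753) (nat_lit 8) (.e (nat_lit 564992) (nat_lit 0) .nil))) .nil)) 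
(.lf (nat_lit 129263) (.g (nat_lit 1615) (.e (nat_lit 7936) (nat_lit 407) (.e (nat_lit 73755) (nat_lit 8) (.e (nat_lit 557065) (nat_lit 9) (.e (nat_lit 334) (nat_lit 26) (.e (nat_lit 376867) (nat_lit 23) .nil))))) .nil)))) (.nd (nat_lit 5) (.nd (nat_lit 6) 
(.lf (nat_lit 129183) (.g (nat_lit 1443) (.e (nat_lit 7936) (nat_lit 407) (.e (nat_lit 73746) (nat_lit 3) (.e (nat_lit 524032) (nat_lit 33) (.e (nat_lit 401459) (nat_lit 13) (.e (nat_lit 483330) (nat_lit 0) .nil))))) .nil)) 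
(.lf (nat_lit 129247) (.g (nat_lit 880) (.e (nat_lit 7936) (nat_lit 407) (.e (nat_lit 73754) (nat_lit 8) (.e (nat_lit 557072) (nat_lit 9) (.e (nat_lit 7936) (nat_lit 26) .nil)))) .nil))) (.nd (nat_lit 6) 
(.lf (nat_lit 129215) (.g (nat_lit 520) (.e (nat_lit 7936) (nat_lit 407) (.e (nat_lit 73753) (nat_lit 8) (.e (nat_lit 557072) (nat_lit 9) .nil))) .nil)) 
(.lf (nat_lit 129279) (.g (nat_lit 2595) (.e (nat_lit 7936) (nat_lit 407) (.e (nat_lit 73755) (nat_lit 8) (.e (nat_lit 557087) (nat_lit 11) (.e (nat_lit 24640) (nat_lit 10) (.e (nat_lit 344120) (nat_lit 21) .nil))))) .nil)))))))))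

noncomputable def tv1727 : DT := (.nd (nat_lit 0) (.nd (nat_lit 1) (.nd (nat_lit 2) (.nd (nat_lit 3) (.nd (nat_lit 4) (.nd (nat_lit 5) (.nd (nat_lit 6) 
(.lf (nat_lit 129280) (.g (nat_lit 2361) (.e (nat_lit 7936) (nat_lit 407) (.e (nat_lit 73755) (nat_lit 8) (.e (nat_lit 557087) (nat_lit 11) (.e (nat_lit 24641) (nat_lit 10) (.e (nat_lit 344119) (nat_lit 21) .nil))))) .nil)) 
(.lf (nat_lit 129344) (.g (nat_lit 1596) (.e (nat_lit 7936) (nat_lit 407) (.e (nat_lit 73776) (nat_lit 26) (.e (nat_lit 778466) (nat_lit 11) (.e (nat_lit 24632) (nat_lit 9) (.e (nat_lit 336388) (nat_lit 27) .nil))))) .nil))) (.nd (nat_lit 6) 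
(.lf (nat_lit 129312) (.g (nat_lit 841) (.e (nat_lit 7936) (nat_lit 407) (.e (nat_lit 73775) (nat_lit 26) (.e (nat_lit 778465) (nat_lit 11) (.e (nat_lit 24631) (nat_lit 9) .nil)))) .nil)) 
(.lf (nat_lit 129376) (.g (nat_lit 2316) (.e (nat_lit 7685) (nat_lit 410) (.e (nat_lit 2649) (nat_lit 166) (.e (nat_lit 188434) (nat_lit 20) (.e (nat_lit 3289) (nat_lit 201) (.e (nat_lit 565251) (nat_lit 0) (.e (nat_lit 1586) (nat_lit 111) (.e (nat_lit 368384) (nat_lit 0) .nil))))))) (.g (nat_lit 6) .nil .nil))))) (.nd (nat_lit 5) (.nd (nat_lit 6) 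
(.lf (nat_lit 129296) (.g (nat_lit 1704) (.e (nat_lit 7936) (nat_lit 407) (.e (nat_lit 73775) (nat_lit 26) (.e (nat_lit 778362) (nat_lit 9) (.e (nat_lit 312) (nat_lit 23) (.e (nat_lit 352276) (nat_lit 11) .nil))))) .nil)) 
(.lf (nat_lit 129360) (.g (nat_lit 1552) (.e (nat_lit 7607) (nat_lit 410) (.e (nat_lit 2651) (nat_lit 166) (.e (nat_lit 188455) (nat_lit 24) (.e (nat_lit 229519) (nat_lit 125) .nil)))) .nil))) (.nd (nat_lit 6) 
(.lf (nat_lit 129328) (.g (nat_lit 1636) (.e (nat_lit 7936) (nat_lit 407) (.e (nat_lit 73775) (nat_lit 26) (.e (nat_lit 778466) (nat_lit 11) (.e (nat_lit 24638) (nat_lit 9) (.e (nat_lit 336387) (nat_lit 27) .nil))))) .nil)) 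
(.lf (nat_lit 129392) (.g (nat_lit 555) (.e (nat_lit 7685) (nat_lit 410) (.e (nat_lit 2650) (nat_lit 166) (.e (nat_lit 188458) (nat_lit 25) .nil))) .nil))))) (.nd (nat_lit 4) (.nd (nat_lit 5) (.nd (nat_lit 6) 
(.lf (nat_lit 129288) (.g (nat_lit 861) (.e (nat_lit 7936) (nat_lit 407) (.e (nat_lit 73775) (nat_lit 26) (.e (nat_lit 778361) (nat_lit 9) (.e (nat_lit 309) (nat_lit 23) .nil)))) .nil)) 
(.lf (nat_lit 129352) (.g (nat_lit 670) (.e (nat_lit 7602) (nat_lit 409) (.e (nat_lit 131094) (nat_lit 2) (.e (nat_lit 98048) (nat_lit 2) (.e (nat_lit 16465) (nat_lit 13) (.e (nat_lit 491264) (nat_lit 0) .nil))))) .nil))) (.nd (nat_lit 6) 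
(.lf (nat_lit 129320) (.g (nat_lit 842) (.e (nat_lit 7936) (nat_lit 407) (.e (nat_lit 73775) (nat_lit 26) (.e (nat_lit 778465) (nat_lit 11) (.e (nat_lit 24658) (nat_lit 13) .nil)))) .nil)) 
(.lf (nat_lit 129384) (.g (nat_lit 1097) (.e (nat_lit 7685) (nat_lit 410) (.e (nat_lit 2650) (nat_lit 166) (.e (nat_lit 188427) (nat_lit 20) (.e (nat_lit 3282) (nat_lit 200) (.e (nat_lit 557061) (nat_lit 0) (.e (nat_lit 1585) (nat_lit 111) (.e (nat_lit 368384) (nat_lit 0) .nil))))))) (.g (nat_lit 6) .nil .nil))))) (.nd (nat_lit 5) (.nd (nat_lit 6) 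
(.lf (nat_lit 129304) (.g (nat_lit 1198) (.e (nat_lit 7936) (nat_lit 407) (.e (nat_lit 73775) (nat_lit 26) (.e (nat_lit 778362) (nat_lit 9) (.e (nat_lit 336) (nat_lit 26) .nil)))) .nil)) 
(.lf (nat_lit 129368) (.g (nat_lit 1066) (.e (nat_lit 7685) (nat_lit 410) (.e (nat_lit 2649) (nat_lit 166) (.e (nat_lit 188427) (nat_lit 20) (.e (nat_lit 3279) (nat_lit 200) (.e (nat_lit 557061) (nat_lit 0) .nil))))) .nil))) (.nd (nat_lit 6) 
(.lf (nat_lit 129336) (.g (nat_lit 1017) (.e (nat_lit 7936) (nat_lit 407) (.e (nat_lit 73776) (nat_lit 26) (.e (nat_lit 778465) (nat_lit 11) (.e (nat_lit 24656) (nat_lit 13) .nil)))) .nil)) 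
(.lf (nat_lit 129400) (.g (nat_lit 2355) (.e (nat_lit 7693) (nat_lit 412) (.e (nat_lit 57375) (nat_lit 2) (.e (nat_lit 90172) (nat_lit 14) (.e (nat_lit 180244) (nat_lit 5) (.e (nat_lit 532579) (nat_lit 26) .nil))))) .nil)))))) (.nd (nat_lit 3) (.nd (nat_lit 4) (.nd (nat_lit 5) (.nd (nat_lit 6) 
(.lf (nat_lit 129284) (.g (nat_lit 295) (.e (nat_lit 7936) (nat_lit 407) (.e (nat_lit 73775) (nat_lit 26) (.e (nat_lit 778359) (nat_lit 9) .nil))) .nil)) 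
(.lf (nat_lit 129348) (.g (nat_lit 668) (.e (nat_lit 7601) (nat_lit 409) (.e (nat_lit 131094) (nat_lit 2) (.e (nat_lit 98048) (nat_lit 2) (.e (nat_lit 16465) (nat_lit 13) (.e (nat_lit 491264) (nat_lit 0) .nil))))) .nil))) (.nd (nat_lit 6) 
(.lf (nat_lit 129316) (.g (nat_lit 1270) (.e (nat_lit 7936) (nat_lit 407) (.e (nat_lit 73775) (nat_lit 26) (.e (nat_lit 778465) (nat_lit 11) (.e (nat_lit 24656) (nat_lit 13) .nil)))) .nil)) 
(.lf (nat_lit 129380) (.g (nat_lit 786) (.e (nat_lit 7685) (nat_lit 410) (.e (nat_lit 2650) (nat_lit 166) (.e (nat_lit 188427) (nat_lit 20) (.e (nat_lit 3279) (nat_lit 200) .nil)))) .nil)))) (.nd (nat_lit 5) (.nd (nat_lit 6) 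
(.lf (nat_lit 129300) (.g (nat_lit 1287) (.e (nat_lit 7936) (nat_lit 407) (.e (nat_lit 73775) (nat_lit 26) (.e (nat_lit 778362) (nat_lit 9) (.e (nat_lit 314) (nat_lit 23) (.e (nat_lit 352275) (nat_lit 11) .nil))))) .nil)) 
(.lf (nat_lit 129364) (.g (nat_lit 1775) (.e (nat_lit 7648) (nat_lit 410) (.e (nat_lit 1122) (nat_lit 83) (.e (nat_lit 16438) (nat_lit 9) (.e (nat_lit 426482) (nat_lit 27) (.e (nat_lit 336060) (nat_lit 7) (.e (nat_lit 319534) (nat_lit 16) (.e (nat_lit 286728) (nat_lit 0) (.e (nat_lit 995) (nat_lit 81) .nil)))))))) (.g (nat_lit 4) .nil .nil)))) (.nd (nat_lit 6) 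
(.lf (nat_lit 129332) (.g (nat_lit 2149) (.e (nat_lit 7936) (nat_lit 407) (.e (nat_lit 73775) (nat_lit 26) (.e (nat_lit 778466) (nat_lit 11) (.e (nat_lit 24658) (nat_lit 13) (.e (nat_lit 393242) (nat_lit 17) .nil))))) .nil)) 
(.lf (nat_lit 129396) (.g (nat_lit 1067) (.e (nat_lit 7685) (nat_lit 410) (.e (nat_lit 2650) (nat_lit 166) (.e (nat_lit 188458) (nat_lit 25) (.e (nat_lit 245767) (nat_lit 0) .nil)))) .nil))))) (.nd (nat_lit 4) (.nd (nat_lit 5) (.nd (nat_lit 6) 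
(.lf (nat_lit 129292) (.g (nat_lit 1005) (.e (nat_lit 7936) (nat_lit 407) (.e (nat_lit 73775) (nat_lit 26) (.e (nat_lit 778361) (nat_lit 9) (.e (nat_lit 334) (nat_lit 26) .nil)))) .nil)) 
(.lf (nat_lit 129356) (.g (nat_lit 2936) (.e (nat_lit 7606) (nat_lit 410) (.e (nat_lit 1129) (nat_lit 83) (.e (nat_lit 16473) (nat_lit 14) (.e (nat_lit 491544) (nat_lit 7) (.e (nat_lit 319531) (nat_lit 16) .nil))))) .nil))) (.nd (nat_lit 6) 
(.lf (nat_lit 129324) (.g (nat_lit 875) (.e (nat_lit 7936) (nat_lit 407) (.e (nat_lit 73775) (nat_lit 26) (.e (nat_lit 778466) (nat_lit 11) (.e (nat_lit 24628) (nat_lit 9) .nil)))) .nil)) 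
(.lf (nat_lit 129388) (.g (nat_lit 1880) (.e (nat_lit 7685) (nat_lit 410) (.e (nat_lit 2650) (nat_lit 166) (.e (nat_lit 188434) (nat_lit 20) (.e (nat_lit 3289) (nat_lit 201) (.e (nat_lit 565251) (nat_lit 0) (.e (nat_lit 1598) (nat_lit 111) (.e (nat_lit 368384) (nat_lit 0) .nil))))))) (.g (nat_lit 4) .nil .nil))))) (.nd (nat_lit 5) (.nd (nat_lit 6) 
(.lf (nat_lit 129308) (.g (nat_lit 1844) (.e (nat_lit 7936) (nat_lit 407) (.e (nat_lit 73775) (nat_lit 26) (.e (nat_lit 778464) (nat_lit 11) (.e (nat_lit 24657) (nat_lit 13) (.e (nat_lit 393244) (nat_lit 17) .nil))))) .nil)) 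
(.lf (nat_lit 129372) (.g (nat_lit 1569) (.e (nat_lit 7685) (nat_lit 410) (.e (nat_lit 2649) (nat_lit 166) (.e (nat_lit 188427) (nat_lit 20) (.e (nat_lit 3282) (nat_lit 200) (.e (nat_lit 557060) (nat_lit 0) (.e (nat_lit 1597) (nat_lit 111) (.e (nat_lit 368384) (nat_lit 0) .nil))))))) (.g (nat_lit 6) .nil .nil)))) (.nd (nat_lit 6) 
(.lf (nat_lit 129340) (.g (nat_lit 1577) (.e (nat_lit 7936) (nat_lit 407) (.e (nat_lit 73776) (nat_lit 26) (.e (nat_lit 778465) (nat_lit 11) (.e (nat_lit 24660) (nat_lit 13) (.e (nat_lit 393243) (nat_lit 17) .nil))))) .nil)) 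
(.lf (nat_lit 129404) (.g (nat_lit 2355) (.e (nat_lit 7694) (nat_lit 412) (.e (nat_lit 57375) (nat_lit 2) (.e (nat_lit 90172) (nat_lit 14) (.e (nat_lit 180244) (nat_lit 5) (.e (nat_lit 532579) (nat_lit 26) .nil))))) .nil))))))) (.nd (nat_lit 2) (.nd (nat_lit 3) (.nd (nat_lit 4) (.nd (nat_lit 5) (.nd (nat_lit 6) 
(.lf (nat_lit 129282) (.g (nat_lit 968) (.e (nat_lit 7936) (nat_lit 407) (.e (nat_lit 73773) (nat_lit 25) (.e (nat_lit 770058) (nat_lit 5) (.e (nat_lit 1572) (nat_lit 110) (.e (nat_lit 352278) (nat_lit 11) .nil))))) .nil)) 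
(.lf (nat_lit 129346) (.g (nat_lit 1005) (.e (nat_lit 7936) (nat_lit 407) (.e (nat_lit 73776) (nat_lit 26) (.e (nat_lit 778466) (nat_lit 11) (.e (nat_lit 24656) (nat_lit 13) .nil)))) .nil))) (.nd (nat_lit 6) 
(.lf (nat_lit 129314) (.g (nat_lit 1655) (.e (nat_lit 7936) (nat_lit 407) (.e (nat_lit 73775) (nat_lit 26) (.e (nat_lit 778465) (nat_lit 11) (.e (nat_lit 24654) (nat_lit 13) (.e (nat_lit 393242) (nat_lit 17) .nil))))) .nil)) 
(.lf (nat_lit 129378) (.g (nat_lit 3272) (.e (nat_lit 7685) (nat_lit 410) (.e (nat_lit 2649) (nat_lit 166) (.e (nat_lit 188449) (nat_lit 22) (.e (nat_lit 196612) (nat_lit 0) (.e (nat_lit 7936) (nat_lit 24) (.e (nat_lit 368384) (nat_lit 0) .nil)))))) (.g (nat_lit 4) .nil .nil))))) (.nd (nat_lit 5) (.nd (nat_lit 6) 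
(.lf (nat_lit 129298) (.g (nat_lit 2212) (.e (nat_lit 7936) (nat_lit 407) (.e (nat_lit 73775) (nat_lit 26) (.e (nat_lit 778362) (nat_lit 9) (.e (nat_lit 314) (nat_lit 23) (.e (nat_lit 352273) (nat_lit 11) .nil))))) .nil)) 
(.lf (nat_lit 129362) (.g (nat_lit 5067) (.e (nat_lit 7635) (nat_lit 410) (.e (nat_lit 1122) (nat_lit 83) (.e (nat_lit 16473) (nat_lit 14) (.e (nat_lit 491544) (nat_lit 7) (.e (nat_lit 319531) (nat_lit 16) (.e (nat_lit 286759) (nat_lit 12) (.e (nat_lit 385047) (nat_lit 21) .nil))))))) (.g (nat_lit 7) .nil .nil)))) (.nd (nat_lit 6) 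
(.lf (nat_lit 129330) (.g (nat_lit 1140) (.e (nat_lit 7936) (nat_lit 407) (.e (nat_lit 73775) (nat_lit 26) (.e (nat_lit 778466) (nat_lit 11) (.e (nat_lit 24656) (nat_lit 13) .nil)))) .nil)) 
(.lf (nat_lit 129394) (.g (nat_lit 1398) (.e (nat_lit 7685) (nat_lit 410) (.e (nat_lit 2650) (nat_lit 166) (.e (nat_lit 188458) (nat_lit 25) (.e (nat_lit 245762) (nat_lit 0) (.e (nat_lit 7936) (nat_lit 24) (.e (nat_lit 368384) (nat_lit 0) .nil)))))) (.g (nat_lit 4) .nil .nil)))))) (.nd (nat_lit 4) (.nd (nat_lit 5) (.nd (nat_lit 6) 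
(.lf (nat_lit 129290) (.g (nat_lit 779) (.e (nat_lit 7936) (nat_lit 407) (.e (nat_lit 73775) (nat_lit 26) (.e (nat_lit 778361) (nat_lit 9) (.e (nat_lit 312) (nat_lit 23) .nil)))) .nil)) 
(.lf (nat_lit 129354) (.g (nat_lit 504) (.e (nat_lit 7602) (nat_lit 409) (.e (nat_lit 131140) (nat_lit 27) (.e (nat_lit 426341) (nat_lit 14) .nil))) .nil))) (.nd (nat_lit 6) 
(.lf (nat_lit 129322) (.g (nat_lit 1804) (.e (nat_lit 7936) (nat_lit 407) (.e (nat_lit 73775) (nat_lit 26) (.e (nat_lit 778465) (nat_lit 11) (.e (nat_lit 24660) (nat_lit 13) (.e (nat_lit 393245) (nat_lit 17) .nil))))) .nil)) 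
(.lf (nat_lit 129386) (.g (nat_lit 667) (.e (nat_lit 7685) (nat_lit 410) (.e (nat_lit 2650) (nat_lit 166) (.e (nat_lit 188428) (nat_lit 20) .nil))) .nil)))) (.nd (nat_lit 5) (.nd (nat_lit 6) 
(.lf (nat_lit 129306) (.g (nat_lit 315) (.e (nat_lit 7936) (nat_lit 407) (.e (nat_lit 73775) (nat_lit 26) (.e (nat_lit 778464) (nat_lit 11) .nil))) .nil)) 
(.lf (nat_lit 129370) (.g (nat_lit 1321) (.e (nat_lit 7685) (nat_lit 410) (.e (nat_lit 2649) (nat_lit 166) (.e (nat_lit 188427) (nat_lit 20) (.e (nat_lit 3281) (nat_lit 200) (.e (nat_lit 557061) (nat_lit 0) (.e (nat_lit 1585) (nat_lit 111) (.e (nat_lit 368384) (nat_lit 0) .nil))))))) (.g (nat_lit 5) .nil .nil)))) (.nd (nat_lit 6) 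
(.lf (nat_lit 129338) (.g (nat_lit 1395) (.e (nat_lit 7936) (nat_lit 407) (.e (nat_lit 73776) (nat_lit 26) (.e (nat_lit 778465) (nat_lit 11) (.e (nat_lit 24657) (nat_lit 13) (.e (nat_lit 401152) (nat_lit 17) .nil))))) .nil)) 
(.lf (nat_lit 129402) (.g (nat_lit 2778) (.e (nat_lit 7693) (nat_lit 412) (.e (nat_lit 57378) (nat_lit 3) (.e (nat_lit 98365) (nat_lit 26) (.e (nat_lit 426116) (nat_lit 2) (.e (nat_lit 196654) (nat_lit 11) .nil))))) .nil)))))) (.nd (nat_lit 3) (.nd (nat_lit 4) (.nd (nat_lit 5) (.nd (nat_lit 6) 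
(.lf (nat_lit 129286) (.g (nat_lit 706) (.e (nat_lit 7936) (nat_lit 407) (.e (nat_lit 73775) (nat_lit 26) (.e (nat_lit 778360) (nat_lit 9) (.e (nat_lit 310) (nat_lit 23) (.e (nat_lit 352278) (nat_lit 11) .nil))))) .nil)) 
(.lf (nat_lit 129350) (.g (nat_lit 796) (.e (nat_lit 7602) (nat_lit 409) (.e (nat_lit 131091) (nat_lit 2) (.e (nat_lit 98048) (nat_lit 2) (.e (nat_lit 16465) (nat_lit 13) (.e (nat_lit 491264) (nat_lit 0) .nil))))) .nil))) (.nd (nat_lit 6) 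
(.lf (nat_lit 129318) (.g (nat_lit 2098) (.e (nat_lit 7936) (nat_lit 407) (.e (nat_lit 73775) (nat_lit 26) (.e (nat_lit 778465) (nat_lit 11) (.e (nat_lit 24657) (nat_lit 13) (.e (nat_lit 393244) (nat_lit 17) .nil))))) .nil)) 
(.lf (nat_lit 129382) (.g (nat_lit 1120) (.e (nat_lit 7685) (nat_lit 410) (.e (nat_lit 2650) (nat_lit 166) (.e (nat_lit 188427) (nat_lit 20) (.e (nat_lit 3281) (nat_lit 200) (.e (nat_lit 557061) (nat_lit 0) (.e (nat_lit 1585) (nat_lit 111) (.e (nat_lit 368384) (nat_lit 0) .nil))))))) (.g (nat_lit 5) .nil .nil))))) (.nd (nat_lit 5) (.nd (nat_lit 6) 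
(.lf (nat_lit 129302) (.g (nat_lit 1707) (.e (nat_lit 7936) (nat_lit 407) (.e (nat_lit 73775) (nat_lit 26) (.e (nat_lit 778362) (nat_lit 9) (.e (nat_lit 334) (nat_lit 26) (.e (nat_lit 376838) (nat_lit 11) .nil))))) .nil)) 
(.lf (nat_lit 129366) (.g (nat_lit 1479) (.e (nat_lit 7684) (nat_lit 410) (.e (nat_lit 2649) (nat_lit 166) (.e (nat_lit 188434) (nat_lit 20) (.e (nat_lit 3289) (nat_lit 201) .nil)))) .nil))) (.nd (nat_lit 6) 
(.lf (nat_lit 129334) (.g (nat_lit 218) (.e (nat_lit 7936) (nat_lit 407) (.e (nat_lit 73776) (nat_lit 26) (.e (nat_lit 778360) (nat_lit 9) .nil))) .nil)) 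
(.lf (nat_lit 129398) (.g (nat_lit 1359) (.e (nat_lit 7685) (nat_lit 410) (.e (nat_lit 2650) (nat_lit 166) (.e (nat_lit 188458) (nat_lit 25) (.e (nat_lit 245769) (nat_lit 0) (.e (nat_lit 7936) (nat_lit 24) (.e (nat_lit 368384) (nat_lit 0) .nil)))))) (.g (nat_lit 4) .nil .nil)))))) (.nd (nat_lit 4) (.nd (nat_lit 5) (.nd (nat_lit 6) 
(.lf (nat_lit 129294) (.g (nat_lit 1201) (.e (nat_lit 7936) (nat_lit 407) (.e (nat_lit 73775) (nat_lit 26) (.e (nat_lit 778362) (nat_lit 9) (.e (nat_lit 310) (nat_lit 23) .nil)))) .nil)) 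
(.lf (nat_lit 129358) (.g (nat_lit 1207) (.e (nat_lit 7607) (nat_lit 410) (.e (nat_lit 2630) (nat_lit 164) (.e (nat_lit 172113) (nat_lit 10) (.e (nat_lit 434203) (nat_lit 18) .nil)))) .nil))) (.nd (nat_lit 6) 
(.lf (nat_lit 129326) (.g (nat_lit 1729) (.e (nat_lit 7936) (nat_lit 407) (.e (nat_lit 73775) (nat_lit 26) (.e (nat_lit 778466) (nat_lit 11) (.e (nat_lit 24631) (nat_lit 9) (.e (nat_lit 336388) (nat_lit 27) .nil))))) .nil)) 
(.lf (nat_lit 129390) (.g (nat_lit 1394) (.e (nat_lit 7685) (nat_lit 410) (.e (nat_lit 2650) (nat_lit 166) (.e (nat_lit 188441) (nat_lit 20) (.e (nat_lit 3289) (nat_lit 201) .nil)))) .nil)))) (.nd (nat_lit 5) (.nd (nat_lit 6) 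
(.lf (nat_lit 129310) (.g (nat_lit 666) (.e (nat_lit 7936) (nat_lit 407) (.e (nat_lit 73775) (nat_lit 26) (.e (nat_lit 778465) (nat_lit 11) (.e (nat_lit 24623) (nat_lit 9) .nil)))) .nil)) 
(.lf (nat_lit 129374) (.g (nat_lit 1528) (.e (nat_lit 7685) (nat_lit 410) (.e (nat_lit 2649) (nat_lit 166) (.e (nat_lit 188427) (nat_lit 20) (.e (nat_lit 3282) (nat_lit 200) (.e (nat_lit 557061) (nat_lit 0) (.e (nat_lit 1597) (nat_lit 111) (.e (nat_lit 368384) (nat_lit 0) .nil))))))) (.g (nat_lit 6) .nil .nil)))) (.nd (nat_lit 6) 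
(.lf (nat_lit 129342) (.g (nat_lit 814) (.e (nat_lit 7936) (nat_lit 407) (.e (nat_lit 73776) (nat_lit 26) (.e (nat_lit 778466) (nat_lit 11) (.e (nat_lit 24631) (nat_lit 9) .nil)))) .nil)) 
(.lf (nat_lit 129406) (.g (nat_lit 2778) (.e (nat_lit 7694) (nat_lit 412) (.e (nat_lit 57378) (nat_lit 3) (.e (nat_lit 98365) (nat_lit 26) (.e (nat_lit 426116) (nat_lit 2) (.e (nat_lit 196654) (nat_lit 11) .nil))))) .nil)))))))) (.nd (nat_lit 1) (.nd (nat_lit 2) (.nd (nat_lit 3) (.nd (nat_lit 4) (.nd (nat_lit 5) (.nd (nat_lit 6) 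
(.lf (nat_lit 129281) (.g (nat_lit 1249) (.e (nat_lit 7936) (nat_lit 407) (.e (nat_lit 73764) (nat_lit 18) (.e (nat_lit 638998) (nat_lit 8) (.e (nat_lit 172082) (nat_lit 7) (.e (nat_lit 409646) (nat_lit 18) .nil))))) .nil)) 
(.lf (nat_lit 129345) (.g (nat_lit 860) (.e (nat_lit 7936) (nat_lit 407) (.e (nat_lit 73776) (nat_lit 26) (.e (nat_lit 778466) (nat_lit 11) (.e (nat_lit 24638) (nat_lit 9) .nil)))) .nil))) (.nd (nat_lit 6) 
(.lf (nat_lit 129313) (.g (nat_lit 1555) (.e (nat_lit 7936) (nat_lit 407) (.e (nat_lit 73775) (nat_lit 26) (.e (nat_lit 778465) (nat_lit 11) (.e (nat_lit 24631) (nat_lit 9) (.e (nat_lit 336388) (nat_lit 27) .nil))))) .nil)) 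
(.lf (nat_lit 129377) (.g (nat_lit 1765) (.e (nat_lit 7685) (nat_lit 410) (.e (nat_lit 2649) (nat_lit 166) (.e (nat_lit 188434) (nat_lit 20) (.e (nat_lit 3289) (nat_lit 201) (.e (nat_lit 565251) (nat_lit 0) (.e (nat_lit 1595) (nat_lit 111) (.e (nat_lit 368384) (nat_lit 0) .nil))))))) (.g (nat_lit 4) .nil .nil))))) (.nd (nat_lit 5) (.nd (nat_lit 6) 
(.lf (nat_lit 129297) (.g (nat_lit 2157) (.e (nat_lit 7936) (nat_lit 407) (.e (nat_lit 73775) (nat_lit 26) (.e (nat_lit 778362) (nat_lit 9) (.e (nat_lit 312) (nat_lit 23) (.e (nat_lit 352278) (nat_lit 11) .nil))))) .nil)) 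
(.lf (nat_lit 129361) (.g (nat_lit 1407) (.e (nat_lit 7616) (nat_lit 410) (.e (nat_lit 1130) (nat_lit 83) (.e (nat_lit 16438) (nat_lit 9) (.e (nat_lit 426482) (nat_lit 27) (.e (nat_lit 336060) (nat_lit 7) .nil))))) .nil))) (.nd (nat_lit 6) 
(.lf (nat_lit 129329) (.g (nat_lit 1334) (.e (nat_lit 7936) (nat_lit 407) (.e (nat_lit 73775) (nat_lit 26) (.e (nat_lit 778466) (nat_lit 11) (.e (nat_lit 24654) (nat_lit 13) (.e (nat_lit 393242) (nat_lit 17) .nil))))) .nil)) 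
(.lf (nat_lit 129393) (.g (nat_lit 1348) (.e (nat_lit 7685) (nat_lit 410) (.e (nat_lit 2650) (nat_lit 166) (.e (nat_lit 188458) (nat_lit 25) (.e (nat_lit 245761) (nat_lit 0) (.e (nat_lit 7936) (nat_lit 24) (.e (nat_lit 368384) (nat_lit 0) .nil)))))) (.g (nat_lit 4) .nil .nil)))))) (.nd (nat_lit 4) (.nd (nat_lit 5) (.nd (nat_lit 6) 
(.lf (nat_lit 129289) (.g (nat_lit 1017) (.e (nat_lit 7936) (nat_lit 407) (.e (nat_lit 73775) (nat_lit 26) (.e (nat_lit 778361) (nat_lit 9) (.e (nat_lit 310) (nat_lit 23) .nil)))) .nil)) 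
(.lf (nat_lit 129353) (.g (nat_lit 2413) (.e (nat_lit 7602) (nat_lit 409) (.e (nat_lit 131098) (nat_lit 3) (.e (nat_lit 98350) (nat_lit 24) (.e (nat_lit 409641) (nat_lit 17) (.e (nat_lit 294930) (nat_lit 3) .nil))))) .nil))) (.nd (nat_lit 6) 
(.lf (nat_lit 129321) (.g (nat_lit 977) (.e (nat_lit 7936) (nat_lit 407) (.e (nat_lit 73775) (nat_lit 26) (.e (nat_lit 778465) (nat_lit 11) (.e (nat_lit 24660) (nat_lit 13) .nil)))) .nil)) 
(.lf (nat_lit 129385) (.g (nat_lit 1364) (.e (nat_lit 7685) (nat_lit 410) (.e (nat_lit 2650) (nat_lit 166) (.e (nat_lit 188427) (nat_lit 20) (.e (nat_lit 3282) (nat_lit 200) (.e (nat_lit 557061) (nat_lit 0) (.e (nat_lit 1597) (nat_lit 111) (.e (nat_lit 368384) (nat_lit 0) .nil))))))) (.g (nat_lit 6) .nil .nil))))) (.nd (nat_lit 5) (.nd (nat_lit 6) 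
(.lf (nat_lit 129305) (.g (nat_lit 1128) (.e (nat_lit 7936) (nat_lit 407) (.e (nat_lit 73775) (nat_lit 26) (.e (nat_lit 778463) (nat_lit 11) (.e (nat_lit 24660) (nat_lit 13) (.e (nat_lit 393242) (nat_lit 17) .nil))))) .nil)) 
(.lf (nat_lit 129369) (.g (nat_lit 1187) (.e (nat_lit 7685) (nat_lit 410) (.e (nat_lit 2649) (nat_lit 166) (.e (nat_lit 188427) (nat_lit 20) (.e (nat_lit 3279) (nat_lit 200) (.e (nat_lit 557061) (nat_lit 0) (.e (nat_lit 1597) (nat_lit 111) (.e (nat_lit 368384) (nat_lit 0) .nil))))))) (.g (nat_lit 4) .nil .nil)))) (.nd (nat_lit 6) 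
(.lf (nat_lit 129337) (.g (nat_lit 1697) (.e (nat_lit 7936) (nat_lit 407) (.e (nat_lit 73776) (nat_lit 26) (.e (nat_lit 778465) (nat_lit 11) (.e (nat_lit 24657) (nat_lit 13) (.e (nat_lit 393242) (nat_lit 17) .nil))))) .nil)) 
(.lf (nat_lit 129401) (.g (nat_lit 2998) (.e (nat_lit 7693) (nat_lit 412) (.e (nat_lit 57375) (nat_lit 2) (.e (nat_lit 90172) (nat_lit 14) (.e (nat_lit 180244) (nat_lit 5) (.e (nat_lit 532579) (nat_lit 26) (.e (nat_lit 426139) (nat_lit 3) (.e (nat_lit 204819) (nat_lit 17) (.e (nat_lit 968) (nat_lit 81) .nil)))))))) (.g (nat_lit 5) .nil .nil))))))) 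
(.nd (nat_lit 3) (.nd (nat_lit 4) (.nd (nat_lit 5) (.nd (nat_lit 6) 
(.lf (nat_lit 129285) (.g (nat_lit 301) (.e (nat_lit 7936) (nat_lit 407) (.e (nat_lit 73775) (nat_lit 26) (.e (nat_lit 778360) (nat_lit 9) .nil))) .nil)) 
(.lf (nat_lit 129349) (.g (nat_lit 2315) (.e (nat_lit 7601) (nat_lit 409) (.e (nat_lit 131097) (nat_lit 3) (.e (nat_lit 98350) (nat_lit 24) (.e (nat_lit 409641) (nat_lit 17) (.e (nat_lit 294930) (nat_lit 3) .nil))))) .nil))) (.nd (nat_lit 6) 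
(.lf (nat_lit 129317) (.g (nat_lit 998) (.e (nat_lit 7936) (nat_lit 407) (.e (nat_lit 73775) (nat_lit 26) (.e (nat_lit 778465) (nat_lit 11) (.e (nat_lit 24657) (nat_lit 13) .nil)))) .nil)) 
(.lf (nat_lit 129381) (.g (nat_lit 912) (.e (nat_lit 7685) (nat_lit 410) (.e (nat_lit 2650) (nat_lit 166) (.e (nat_lit 188427) (nat_lit 20) (.e (nat_lit 3281) (nat_lit 200) (.e (nat_lit 557061) (nat_lit 0) .nil))))) .nil)))) (.nd (nat_lit 5) (.nd (nat_lit 6) 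
(.lf (nat_lit 129301) (.g (nat_lit 1210) (.e (nat_lit 7936) (nat_lit 407) (.e (nat_lit 73775) (nat_lit 26) (.e (nat_lit 778362) (nat_lit 9) (.e (nat_lit 332) (nat_lit 26) .nil)))) .nil)) 
(.lf (nat_lit 129365) (.g (nat_lit 1286) (.e (nat_lit 7660) (nat_lit 410) (.e (nat_lit 1126) (nat_lit 83) (.e (nat_lit 16473) (nat_lit 14) (.e (nat_lit 491544) (nat_lit 7) .nil)))) .nil))) (.nd (nat_lit 6) 
(.lf (nat_lit 129333) (.g (nat_lit 2289) (.e (nat_lit 7936) (nat_lit 407) (.e (nat_lit 73775) (nat_lit 26) (.e (nat_lit 778466) (nat_lit 11) (.e (nat_lit 24658) (nat_lit 13) (.e (nat_lit 393246) (nat_lit 17) .nil))))) .nil)) 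
(.lf (nat_lit 129397) (.g (nat_lit 1450) (.e (nat_lit 7685) (nat_lit 410) (.e (nat_lit 2650) (nat_lit 166) (.e (nat_lit 188458) (nat_lit 25) (.e (nat_lit 245768) (nat_lit 0) (.e (nat_lit 7936) (nat_lit 24) (.e (nat_lit 368384) (nat_lit 0) .nil)))))) (.g (nat_lit 4) .nil .nil)))))) (.nd (nat_lit 4) (.nd (nat_lit 5) (.nd (nat_lit 6) 
(.lf (nat_lit 129293) (.g (nat_lit 1477) (.e (nat_lit 7936) (nat_lit 407) (.e (nat_lit 73775) (nat_lit 26) (.e (nat_lit 778362) (nat_lit 9) (.e (nat_lit 309) (nat_lit 23) (.e (nat_lit 352278) (nat_lit 11) .nil))))) .nil)) 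
(.lf (nat_lit 129357) (.g (nat_lit 1635) (.e (nat_lit 7607) (nat_lit 410) (.e (nat_lit 2630) (nat_lit 164) (.e (nat_lit 172106) (nat_lit 10) (.e (nat_lit 434241) (nat_lit 27) (.e (nat_lit 565267) (nat_lit 4) .nil))))) .nil))) (.nd (nat_lit 6) 
(.lf (nat_lit 129325) (.g (nat_lit 1024) (.e (nat_lit 7936) (nat_lit 407) (.e (nat_lit 73775) (nat_lit 26) (.e (nat_lit 778466) (nat_lit 11) (.e (nat_lit 24631) (nat_lit 9) .nil)))) .nil)) 
(.lf (nat_lit 129389) (.g (nat_lit 1806) (.e (nat_lit 7685) (nat_lit 410) (.e (nat_lit 2650) (nat_lit 166) (.e (nat_lit 188434) (nat_lit 20) (.e (nat_lit 3289) (nat_lit 201) (.e (nat_lit 565252) (nat_lit 0) (.e (nat_lit 1599) (nat_lit 111) (.e (nat_lit 368384) (nat_lit 0) .nil))))))) (.g (nat_lit 4) .nil .nil))))) (.nd (nat_lit 5) (.nd (nat_lit 6) 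
(.lf (nat_lit 129309) (.g (nat_lit 283) (.e (nat_lit 7936) (nat_lit 407) (.e (nat_lit 73775) (nat_lit 26) (.e (nat_lit 778465) (nat_lit 11) .nil))) .nil)) 
(.lf (nat_lit 129373) (.g (nat_lit 1261) (.e (nat_lit 7685) (nat_lit 410) (.e (nat_lit 2649) (nat_lit 166) (.e (nat_lit 188427) (nat_lit 20) (.e (nat_lit 3282) (nat_lit 200) (.e (nat_lit 557061) (nat_lit 0) (.e (nat_lit 1585) (nat_lit 111) (.e (nat_lit 368384) (nat_lit 0) .nil))))))) (.g (nat_lit 6) .nil .nil)))) (.nd (nat_lit 6) 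
(.lf (nat_lit 129341) (.g (nat_lit 184) (.e (nat_lit 7936) (nat_lit 407) (.e (nat_lit 73776) (nat_lit 26) (.e (nat_lit 778466) (nat_lit 11) .nil))) .nil)) 
(.lf (nat_lit 129405) (.g (nat_lit 2496) (.e (nat_lit 7694) (nat_lit 412) (.e (nat_lit 57375) (nat_lit 2) (.e (nat_lit 90172) (nat_lit 14) (.e (nat_lit 180244) (nat_lit 5) (.e (nat_lit 532579) (nat_lit 26) (.e (nat_lit 426139) (nat_lit 3) (.e (nat_lit 204821) (nat_lit 17) (.e (nat_lit 7936) (nat_lit 81) .nil)))))))) (.g (nat_lit 4) .nil .nil)))))))) 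
(.nd (nat_lit 2) (.nd (nat_lit 3) (.nd (nat_lit 4) (.nd (nat_lit 5) (.nd (nat_lit 6) 
(.lf (nat_lit 129283) (.g (nat_lit 700) (.e (nat_lit 7936) (nat_lit 407) (.e (nat_lit 73773) (nat_lit 25) (.e (nat_lit 770058) (nat_lit 5) (.e (nat_lit 1575) (nat_lit 110) (.e (nat_lit 352278) (nat_lit 11) .nil))))) .nil)) 
(.lf (nat_lit 129347) (.g (nat_lit 1423) (.e (nat_lit 7599) (nat_lit 408) (.e (nat_lit 122934) (nat_lit 23) (.e (nat_lit 516166) (nat_lit 12) (.e (nat_lit 450587) (nat_lit 10) .nil)))) .nil))) (.nd (nat_lit 6) 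
(.lf (nat_lit 129315) (.g (nat_lit 2154) (.e (nat_lit 7936) (nat_lit 407) (.e (nat_lit 73775) (nat_lit 26) (.e (nat_lit 778465) (nat_lit 11) (.e (nat_lit 24655) (nat_lit 13) (.e (nat_lit 393242) (nat_lit 17) .nil))))) .nil)) 
(.lf (nat_lit 129379) (.g (nat_lit 469) (.e (nat_lit 7685) (nat_lit 410) (.e (nat_lit 2649) (nat_lit 166) (.e (nat_lit 188458) (nat_lit 25) .nil))) .nil)))) (.nd (nat_lit 5) (.nd (nat_lit 6) 
(.lf (nat_lit 129299) (.g (nat_lit 2121) (.e (nat_lit 7936) (nat_lit 407) (.e (nat_lit 73775) (nat_lit 26) (.e (nat_lit 778362) (nat_lit 9) (.e (nat_lit 314) (nat_lit 23) (.e (nat_lit 352274) (nat_lit 11) .nil))))) .nil)) 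
(.lf (nat_lit 129363) (.g (nat_lit 4931) (.e (nat_lit 7637) (nat_lit 410) (.e (nat_lit 1122) (nat_lit 83) (.e (nat_lit 16473) (nat_lit 14) (.e (nat_lit 491544) (nat_lit 7) (.e (nat_lit 319531) (nat_lit 16) (.e (nat_lit 286759) (nat_lit 12) (.e (nat_lit 385047) (nat_lit 21) .nil))))))) (.g (nat_lit 7) .nil .nil)))) (.nd (nat_lit 6) 
(.lf (nat_lit 129331) (.g (nat_lit 1449) (.e (nat_lit 7936) (nat_lit 407) (.e (nat_lit 73775) (nat_lit 26) (.e (nat_lit 778466) (nat_lit 11) (.e (nat_lit 24656) (nat_lit 13) (.e (nat_lit 393244) (nat_lit 17) .nil))))) .nil)) 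
(.lf (nat_lit 129395) (.g (nat_lit 1380) (.e (nat_lit 7685) (nat_lit 410) (.e (nat_lit 2650) (nat_lit 166) (.e (nat_lit 188458) (nat_lit 25) (.e (nat_lit 245764) (nat_lit 0) (.e (nat_lit 7936) (nat_lit 24) (.e (nat_lit 368384) (nat_lit 0) .nil)))))) (.g (nat_lit 4) .nil .nil)))))) (.nd (nat_lit 4) (.nd (nat_lit 5) (.nd (nat_lit 6) 
(.lf (nat_lit 129291) (.g (nat_lit 1653) (.e (nat_lit 7936) (nat_lit 407) (.e (nat_lit 73775) (nat_lit 26) (.e (nat_lit 778361) (nat_lit 9) (.e (nat_lit 314) (nat_lit 23) (.e (nat_lit 352275) (nat_lit 11) .nil))))) .nil)) 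
(.lf (nat_lit 129355) (.g (nat_lit 371) (.e (nat_lit 7936) (nat_lit 409) (.e (nat_lit 131140) (nat_lit 27) (.e (nat_lit 426031) (nat_lit 0) .nil))) .nil))) (.nd (nat_lit 6) 
(.lf (nat_lit 129323) (.g (nat_lit 294) (.e (nat_lit 7936) (nat_lit 407) (.e (nat_lit 73775) (nat_lit 26) (.e (nat_lit 778466) (nat_lit 11) .nil))) .nil)) 
(.lf (nat_lit 129387) (.g (nat_lit 1503) (.e (nat_lit 7685) (nat_lit 410) (.e (nat_lit 2650) (nat_lit 166) (.e (nat_lit 188434) (nat_lit 20) (.e (nat_lit 3224) (nat_lit 196) .nil)))) .nil)))) (.nd (nat_lit 5) (.nd (nat_lit 6) 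
(.lf (nat_lit 129307) (.g (nat_lit 1718) (.e (nat_lit 7936) (nat_lit 407) (.e (nat_lit 73775) (nat_lit 26) (.e (nat_lit 778464) (nat_lit 11) (.e (nat_lit 24657) (nat_lit 13) (.e (nat_lit 393239) (nat_lit 17) .nil))))) .nil)) 
(.lf (nat_lit 129371) (.g (nat_lit 1247) (.e (nat_lit 7685) (nat_lit 410) (.e (nat_lit 2649) (nat_lit 166) (.e (nat_lit 188427) (nat_lit 20) (.e (nat_lit 3282) (nat_lit 200) (.e (nat_lit 557060) (nat_lit 0) (.e (nat_lit 1585) (nat_lit 111) (.e (nat_lit 368384) (nat_lit 0) .nil))))))) (.g (nat_lit 5) .nil .nil)))) (.nd (nat_lit 6) 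
(.lf (nat_lit 129339) (.g (nat_lit 861) (.e (nat_lit 7936) (nat_lit 407) (.e (nat_lit 73776) (nat_lit 26) (.e (nat_lit 778465) (nat_lit 11) (.e (nat_lit 24660) (nat_lit 13) .nil)))) .nil)) 
(.lf (nat_lit 129403) (.g (nat_lit 2611) (.e (nat_lit 7693) (nat_lit 412) (.e (nat_lit 57379) (nat_lit 3) (.e (nat_lit 98365) (nat_lit 26) (.e (nat_lit 426116) (nat_lit 2) (.e (nat_lit 196654) (nat_lit 11) (.e (nat_lit 16416) (nat_lit 3) (.e (nat_lit 204819) (nat_lit 17) (.e (nat_lit 968) (nat_lit 81) .nil)))))))) (.g (nat_lit 4) .nil .nil))))))) 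
(.nd (nat_lit 3) (.nd (nat_lit 4) (.nd (nat_lit 5) (.nd (nat_lit 6) 
(.lf (nat_lit 129287) (.g (nat_lit 236) (.e (nat_lit 7936) (nat_lit 407) (.e (nat_lit 73775) (nat_lit 26) (.e (nat_lit 778361) (nat_lit 9) .nil))) .nil)) 
(.lf (nat_lit 129351) (.g (nat_lit 731) (.e (nat_lit 7602) (nat_lit 409) (.e (nat_lit 131093) (nat_lit 2) (.e (nat_lit 98048) (nat_lit 2) (.e (nat_lit 16465) (nat_lit 13) (.e (nat_lit 491264) (nat_lit 0) .nil))))) (.g (nat_lit 4) .nil .nil)))) (.nd (nat_lit 6) 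
(.lf (nat_lit 129319) (.g (nat_lit 2158) (.e (nat_lit 7936) (nat_lit 407) (.e (nat_lit 73775) (nat_lit 26) (.e (nat_lit 778465) (nat_lit 11) (.e (nat_lit 24657) (nat_lit 13) (.e (nat_lit 393248) (nat_lit 17) .nil))))) .nil)) 
(.lf (nat_lit 129383) (.g (nat_lit 1081) (.e (nat_lit 7685) (nat_lit 410) (.e (nat_lit 2650) (nat_lit 166) (.e (nat_lit 188427) (nat_lit 20) (.e (nat_lit 3282) (nat_lit 200) (.e (nat_lit 557060) (nat_lit 0) (.e (nat_lit 1585) (nat_lit 111) (.e (nat_lit 368384) (nat_lit 0) .nil))))))) (.g (nat_lit 5) .nil .nil))))) (.nd (nat_lit 5) (.nd (nat_lit 6) 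
(.lf (nat_lit 129303) (.g (nat_lit 1746) (.e (nat_lit 7936) (nat_lit 407) (.e (nat_lit 73775) (nat_lit 26) (.e (nat_lit 778362) (nat_lit 9) (.e (nat_lit 334) (nat_lit 26) (.e (nat_lit 376839) (nat_lit 11) .nil))))) .nil)) 
(.lf (nat_lit 129367) (.g (nat_lit 1424) (.e (nat_lit 7684) (nat_lit 410) (.e (nat_lit 2650) (nat_lit 166) (.e (nat_lit 188434) (nat_lit 20) (.e (nat_lit 3289) (nat_lit 201) .nil)))) .nil))) (.nd (nat_lit 6) 
(.lf (nat_lit 129335) (.g (nat_lit 1110) (.e (nat_lit 7936) (nat_lit 407) (.e (nat_lit 73776) (nat_lit 26) (.e (nat_lit 778362) (nat_lit 9) (.e (nat_lit 310) (nat_lit 23) .nil)))) .nil)) 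
(.lf (nat_lit 129399) (.g (nat_lit 696) (.e (nat_lit 7693) (nat_lit 412) (.e (nat_lit 57374) (nat_lit 2) (.e (nat_lit 90170) (nat_lit 13) .nil))) .nil))))) (.nd (nat_lit 4) (.nd (nat_lit 5) (.nd (nat_lit 6) 
(.lf (nat_lit 129295) (.g (nat_lit 971) (.e (nat_lit 7936) (nat_lit 407) (.e (nat_lit 73775) (nat_lit 26) (.e (nat_lit 778362) (nat_lit 9) (.e (nat_lit 312) (nat_lit 23) .nil)))) .nil)) 
(.lf (nat_lit 129359) (.g (nat_lit 1287) (.e (nat_lit 7607) (nat_lit 410) (.e (nat_lit 2630) (nat_lit 164) (.e (nat_lit 172113) (nat_lit 10) (.e (nat_lit 434239) (nat_lit 27) .nil)))) .nil))) (.nd (nat_lit 6) 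
(.lf (nat_lit 129327) (.g (nat_lit 1180) (.e (nat_lit 7936) (nat_lit 407) (.e (nat_lit 73775) (nat_lit 26) (.e (nat_lit 778466) (nat_lit 11) (.e (nat_lit 24632) (nat_lit 9) .nil)))) .nil)) 
(.lf (nat_lit 129391) (.g (nat_lit 1532) (.e (nat_lit 7685) (nat_lit 410) (.e (nat_lit 2650) (nat_lit 166) (.e (nat_lit 188455) (nat_lit 24) (.e (nat_lit 229515) (nat_lit 122) .nil)))) .nil)))) (.nd (nat_lit 5) (.nd (nat_lit 6) 
(.lf (nat_lit 129311) (.g (nat_lit 1946) (.e (nat_lit 7936) (nat_lit 407) (.e (nat_lit 73775) (nat_lit 26) (.e (nat_lit 778465) (nat_lit 11) (.e (nat_lit 24623) (nat_lit 9) (.e (nat_lit 336379) (nat_lit 27) .nil))))) .nil)) 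
(.lf (nat_lit 129375) (.g (nat_lit 1259) (.e (nat_lit 7685) (nat_lit 410) (.e (nat_lit 2649) (nat_lit 166) (.e (nat_lit 188434) (nat_lit 20) (.e (nat_lit 3288) (nat_lit 201) .nil)))) .nil))) (.nd (nat_lit 6) 
(.lf (nat_lit 129343) (.g (nat_lit 1518) (.e (nat_lit 7936) (nat_lit 407) (.e (nat_lit 73776) (nat_lit 26) (.e (nat_lit 778466) (nat_lit 11) (.e (nat_lit 24631) (nat_lit 9) (.e (nat_lit 336417) (nat_lit 27) .nil))))) .nil)) 
(.lf (nat_lit 129407) (.g (nat_lit 2498) (.e (nat_lit 7694) (nat_lit 412) (.e (nat_lit 57379) (nat_lit 3) (.e (nat_lit 98365) (nat_lit 26) (.e (nat_lit 426116) (nat_lit 2) (.e (nat_lit 196654) (nat_lit 11) (.e (nat_lit 16416) (nat_lit 3) (.e (nat_lit 204819) (nat_lit 17) (.e (nat_lit 968) (nat_lit 81) .nil)))))))) (.g (nat_lit 4) .nil .nil))))))))))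

noncomputable def tv1728 : DT := (.nd (nat_lit 0) (.nd (nat_lit 1) (.nd (nat_lit 2) (.nd (nat_lit 3) (.nd (nat_lit 4) (.nd (nat_lit 5) (.nd (nat_lit 6) 
(.lf (nat_lit 129408) (.g (nat_lit 1881) (.e (nat_lit 7695) (nat_lit 412) (.e (nat_lit 57372) (nat_lit 2) (.e (nat_lit 90172) (nat_lit 14) (.e (nat_lit 180244) (nat_lit 5) .nil)))) .nil)) 
(.lf (nat_lit 129472) (.g (nat_lit 758) (.e (nat_lit 7695) (nat_lit 412) (.e (nat_lit 57389) (nat_lit 5) (.e (nat_lit 114719) (nat_lit 23) .nil))) .nil))) (.nd (nat_lit 6) 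
(.lf (nat_lit 129440) (.g (nat_lit 3345) (.e (nat_lit 7695) (nat_lit 412) (.e (nat_lit 57375) (nat_lit 2) (.e (nat_lit 90185) (nat_lit 17) (.e (nat_lit 237592) (nat_lit 3) (.e (nat_lit 204809) (nat_lit 9) (.e (nat_lit 426139) (nat_lit 3) (.e (nat_lit 204815) (nat_lit 17) (.e (nat_lit 974) (nat_lit 81) .nil)))))))) (.g (nat_lit 6) .nil .nil))) 
(.lf (nat_lit 129504) (.g (nat_lit 3186) (.e (nat_lit 7697) (nat_lit 412) (.e (nat_lit 57378) (nat_lit 3) (.e (nat_lit 98365) (nat_lit 26) (.e (nat_lit 426116) (nat_lit 2) (.e (nat_lit 196654) (nat_lit 11) (.e (nat_lit 16412) (nat_lit 2) (.e (nat_lit 196660) (nat_lit 12) (.e (nat_lit 57347) (nat_lit 0) .nil)))))))) (.g (nat_lit 5) .nil .nil))))) (.nd (nat_lit 5) (.nd (nat_lit 6) 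
(.lf (nat_lit 129424) (.g (nat_lit 4007) (.e (nat_lit 7695) (nat_lit 412) (.e (nat_lit 57373) (nat_lit 2) (.e (nat_lit 90185) (nat_lit 17) (.e (nat_lit 237594) (nat_lit 3) (.e (nat_lit 204809) (nat_lit 9) (.e (nat_lit 426139) (nat_lit 3) (.e (nat_lit 204815) (nat_lit 17) (.e (nat_lit 974) (nat_lit 81) .nil)))))))) (.g (nat_lit 6) .nil .nil))) 
(.lf (nat_lit 129488) (.g (nat_lit 3667) (.e (nat_lit 7697) (nat_lit 412) (.e (nat_lit 57373) (nat_lit 2) (.e (nat_lit 90172) (nat_lit 14) (.e (nat_lit 180244) (nat_lit 5) (.e (nat_lit 532579) (nat_lit 26) (.e (nat_lit 426124) (nat_lit 2) (.e (nat_lit 196677) (nat_lit 16) (.e (nat_lit 122880) (nat_lit 0) .nil)))))))) (.g (nat_lit 7) .nil .nil)))) (.nd (nat_lit 6) 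
(.lf (nat_lit 129456) (.g (nat_lit 2491) (.e (nat_lit 7695) (nat_lit 412) (.e (nat_lit 57378) (nat_lit 3) (.e (nat_lit 98365) (nat_lit 26) (.e (nat_lit 426133) (nat_lit 3) (.e (nat_lit 204809) (nat_lit 9) .nil))))) .nil)) 
(.lf (nat_lit 129520) (.g (nat_lit 701) (.e (nat_lit 7697) (nat_lit 412) (.e (nat_lit 57388) (nat_lit 5) (.e (nat_lit 114714) (nat_lit 22) .nil))) .nil))))) (.nd (nat_lit 4) (.nd (nat_lit 5) (.nd (nat_lit 6) 
(.lf (nat_lit 129416) (.g (nat_lit 2372) (.e (nat_lit 7695) (nat_lit 412) (.e (nat_lit 57373) (nat_lit 2) (.e (nat_lit 90185) (nat_lit 17) (.e (nat_lit 237587) (nat_lit 2) (.e (nat_lit 196654) (nat_lit 11) (.e (nat_lit 16412) (nat_lit 2) (.e (nat_lit 196661) (nat_lit 12) (.e (nat_lit 57351) (nat_lit 0) .nil)))))))) (.g (nat_lit 4) .nil .nil))) 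
(.lf (nat_lit 129480) (.g (nat_lit 2778) (.e (nat_lit 7696) (nat_lit 412) (.e (nat_lit 57378) (nat_lit 3) (.e (nat_lit 98365) (nat_lit 26) (.e (nat_lit 426116) (nat_lit 2) (.e (nat_lit 196654) (nat_lit 11) .nil))))) .nil))) (.nd (nat_lit 6) 
(.lf (nat_lit 129448) (.g (nat_lit 3282) (.e (nat_lit 7695) (nat_lit 412) (.e (nat_lit 57378) (nat_lit 3) (.e (nat_lit 98365) (nat_lit 26) (.e (nat_lit 426116) (nat_lit 2) (.e (nat_lit 196654) (nat_lit 11) (.e (nat_lit 16412) (nat_lit 2) (.e (nat_lit 196661) (nat_lit 12) (.e (nat_lit 57353) (nat_lit 0) .nil)))))))) (.g (nat_lit 5) .nil .nil))) 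
(.lf (nat_lit 129512) (.g (nat_lit 2408) (.e (nat_lit 7697) (nat_lit 412) (.e (nat_lit 57378) (nat_lit 3) (.e (nat_lit 98365) (nat_lit 26) (.e (nat_lit 426133) (nat_lit 3) (.e (nat_lit 204809) (nat_lit 9) .nil))))) .nil)))) (.nd (nat_lit 5) (.nd (nat_lit 6) 
(.lf (nat_lit 129432) (.g (nat_lit 4004) (.e (nat_lit 7695) (nat_lit 412) (.e (nat_lit 57375) (nat_lit 2) (.e (nat_lit 90172) (nat_lit 14) (.e (nat_lit 180244) (nat_lit 5) (.e (nat_lit 532579) (nat_lit 26) (.e (nat_lit 426124) (nat_lit 2) (.e (nat_lit 196658) (nat_lit 12) (.e (nat_lit 57348) (nat_lit 0) .nil)))))))) (.g (nat_lit 7) .nil .nil))) 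
(.lf (nat_lit 129496) (.g (nat_lit 2463) (.e (nat_lit 7697) (nat_lit 412) (.e (nat_lit 57373) (nat_lit 2) (.e (nat_lit 90185) (nat_lit 17) (.e (nat_lit 237592) (nat_lit 3) (.e (nat_lit 204809) (nat_lit 9) (.e (nat_lit 426124) (nat_lit 2) (.e (nat_lit 196677) (nat_lit 16) (.e (nat_lit 122880) (nat_lit 0) .nil)))))))) (.g (nat_lit 5) .nil .nil)))) (.nd (nat_lit 6) 
(.lf (nat_lit 129464) (.g (nat_lit 2068) (.e (nat_lit 7695) (nat_lit 412) (.e (nat_lit 57379) (nat_lit 3) (.e (nat_lit 98365) (nat_lit 26) (.e (nat_lit 426133) (nat_lit 3) (.e (nat_lit 204809) (nat_lit 9) .nil))))) .nil)) 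
(.lf (nat_lit 129528) (.g (nat_lit 1890) (.e (nat_lit 7698) (nat_lit 412) (.e (nat_lit 57373) (nat_lit 2) (.e (nat_lit 90172) (nat_lit 14) (.e (nat_lit 180244) (nat_lit 5) .nil)))) .nil)))))) (.nd (nat_lit 3) (.nd (nat_lit 4) (.nd (nat_lit 5) (.nd (nat_lit 6) 
(.lf (nat_lit 129412) (.g (nat_lit 2702) (.e (nat_lit 7695) (nat_lit 412) (.e (nat_lit 57373) (nat_lit 2) (.e (nat_lit 90172) (nat_lit 14) (.e (nat_lit 180244) (nat_lit 5) (.e (nat_lit 532579) (nat_lit 26) (.e (nat_lit 426123) (nat_lit 2) (.e (nat_lit 196661) (nat_lit 12) (.e (nat_lit 57351) (nat_lit 0) .nil)))))))) (.g (nat_lit 4) .nil .nil))) 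
(.lf (nat_lit 129476) (.g (nat_lit 1619) (.e (nat_lit 7695) (nat_lit 412) (.e (nat_lit 57390) (nat_lit 5) (.e (nat_lit 114719) (nat_lit 23) (.e (nat_lit 98365) (nat_lit 26) (.e (nat_lit 426100) (nat_lit 1) .nil))))) .nil))) (.nd (nat_lit 6) 
(.lf (nat_lit 129444) (.g (nat_lit 882) (.e (nat_lit 7695) (nat_lit 412) (.e (nat_lit 57378) (nat_lit 3) (.e (nat_lit 98350) (nat_lit 24) .nil))) .nil)) 
(.lf (nat_lit 129508) (.g (nat_lit 2638) (.e (nat_lit 7697) (nat_lit 412) (.e (nat_lit 57378) (nat_lit 3) (.e (nat_lit 98365) (nat_lit 26) (.e (nat_lit 426116) (nat_lit 2) (.e (nat_lit 196654) (nat_lit 11) (.e (nat_lit 16416) (nat_lit 3) (.e (nat_lit 204815) (nat_lit 17) (.e (nat_lit 999) (nat_lit 81) .nil)))))))) (.g (nat_lit 4) .nil .nil))))) (.nd (nat_lit 5) (.nd (nat_lit 6) 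
(.lf (nat_lit 129428) (.g (nat_lit 2181) (.e (nat_lit 7695) (nat_lit 412) (.e (nat_lit 57375) (nat_lit 2) (.e (nat_lit 90172) (nat_lit 14) (.e (nat_lit 180244) (nat_lit 5) (.e (nat_lit 532579) (nat_lit 26) .nil))))) .nil)) 
(.lf (nat_lit 129492) (.g (nat_lit 3103) (.e (nat_lit 7697) (nat_lit 412) (.e (nat_lit 57373) (nat_lit 2) (.e (nat_lit 90185) (nat_lit 17) (.e (nat_lit 237587) (nat_lit 2) (.e (nat_lit 196654) (nat_lit 11) (.e (nat_lit 16412) (nat_lit 2) (.e (nat_lit 196677) (nat_lit 16) (.e (nat_lit 122881) (nat_lit 0) .nil)))))))) (.g (nat_lit 5) .nil .nil)))) (.nd (nat_lit 6) 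
(.lf (nat_lit 129460) (.g (nat_lit 1496) (.e (nat_lit 7695) (nat_lit 412) (.e (nat_lit 57379) (nat_lit 3) (.e (nat_lit 98365) (nat_lit 26) (.e (nat_lit 426115) (nat_lit 2) .nil)))) .nil)) 
(.lf (nat_lit 129524) (.g (nat_lit 655) (.e (nat_lit 7697) (nat_lit 412) (.e (nat_lit 57389) (nat_lit 5) (.e (nat_lit 114716) (nat_lit 22) .nil))) .nil))))) (.nd (nat_lit 4) (.nd (nat_lit 5) (.nd (nat_lit 6) 
(.lf (nat_lit 129420) (.g (nat_lit 1820) (.e (nat_lit 7695) (nat_lit 412) (.e (nat_lit 57373) (nat_lit 2) (.e (nat_lit 90185) (nat_lit 17) (.e (nat_lit 237592) (nat_lit 3) .nil)))) .nil)) 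
(.lf (nat_lit 129484) (.g (nat_lit 2881) (.e (nat_lit 7697) (nat_lit 412) (.e (nat_lit 57373) (nat_lit 2) (.e (nat_lit 90170) (nat_lit 13) (.e (nat_lit 172067) (nat_lit 3) (.e (nat_lit 204809) (nat_lit 9) .nil))))) .nil))) (.nd (nat_lit 6) 
(.lf (nat_lit 129452) (.g (nat_lit 2626) (.e (nat_lit 7695) (nat_lit 412) (.e (nat_lit 57378) (nat_lit 3) (.e (nat_lit 98365) (nat_lit 26) (.e (nat_lit 426116) (nat_lit 2) (.e (nat_lit 196654) (nat_lit 11) (.e (nat_lit 16416) (nat_lit 3) (.e (nat_lit 204818) (nat_lit 17) (.e (nat_lit 1016) (nat_lit 81) .nil)))))))) (.g (nat_lit 4) .nil .nil))) 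
(.lf (nat_lit 129516) (.g (nat_lit 2310) (.e (nat_lit 7697) (nat_lit 412) (.e (nat_lit 57378) (nat_lit 3) (.e (nat_lit 98366) (nat_lit 27) (.e (nat_lit 434231) (nat_lit 23) (.e (nat_lit 532579) (nat_lit 26) (.e (nat_lit 426124) (nat_lit 2) (.e (nat_lit 196677) (nat_lit 16) (.e (nat_lit 122881) (nat_lit 0) .nil)))))))) (.g (nat_lit 4) .nil .nil))))) (.nd (nat_lit 5) (.nd (nat_lit 6) 
(.lf (nat_lit 129436) (.g (nat_lit 2042) (.e (nat_lit 7695) (nat_lit 412) (.e (nat_lit 57375) (nat_lit 2) (.e (nat_lit 90174) (nat_lit 14) (.e (nat_lit 180243) (nat_lit 5) (.e (nat_lit 532579) (nat_lit 26) .nil))))) .nil)) 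
(.lf (nat_lit 129500) (.g (nat_lit 1725) (.e (nat_lit 7697) (nat_lit 412) (.e (nat_lit 57378) (nat_lit 3) (.e (nat_lit 98363) (nat_lit 26) (.e (nat_lit 426129) (nat_lit 3) (.e (nat_lit 204809) (nat_lit 9) .nil))))) .nil))) (.nd (nat_lit 6) 
(.lf (nat_lit 129468) (.g (nat_lit 2432) (.e (nat_lit 7695) (nat_lit 412) (.e (nat_lit 57379) (nat_lit 3) (.e (nat_lit 98377) (nat_lit 30) (.e (nat_lit 458789) (nat_lit 23) (.e (nat_lit 532579) (nat_lit 26) .nil))))) .nil)) 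
(.lf (nat_lit 129532) (.g (nat_lit 1379) (.e (nat_lit 7936) (nat_lit 412) (.e (nat_lit 57368) (nat_lit 1) (.e (nat_lit 57854) (nat_lit 252) (.e (nat_lit 57442) (nat_lit 18) .nil)))) .nil))))))) (.nd (nat_lit 2) (.nd (nat_lit 3) (.nd (nat_lit 4) (.nd (nat_lit 5) (.nd (nat_lit 6) 
(.lf (nat_lit 129410) (.g (nat_lit 2898) (.e (nat_lit 7695) (nat_lit 412) (.e (nat_lit 57373) (nat_lit 2) (.e (nat_lit 90170) (nat_lit 13) (.e (nat_lit 172067) (nat_lit 3) (.e (nat_lit 204809) (nat_lit 9) .nil))))) .nil)) 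
(.lf (nat_lit 129474) (.g (nat_lit 1670) (.e (nat_lit 7695) (nat_lit 412) (.e (nat_lit 57389) (nat_lit 5) (.e (nat_lit 114719) (nat_lit 23) (.e (nat_lit 98366) (nat_lit 27) .nil)))) .nil))) (.nd (nat_lit 6) 
(.lf (nat_lit 129442) (.g (nat_lit 1865) (.e (nat_lit 7695) (nat_lit 412) (.e (nat_lit 57375) (nat_lit 2) (.e (nat_lit 90185) (nat_lit 17) (.e (nat_lit 237594) (nat_lit 3) (.e (nat_lit 204809) (nat_lit 9) .nil))))) .nil)) 
(.lf (nat_lit 129506) (.g (nat_lit 4836) (.e (nat_lit 7697) (nat_lit 412) (.e (nat_lit 57378) (nat_lit 3) (.e (nat_lit 98365) (nat_lit 26) (.e (nat_lit 426116) (nat_lit 2) (.e (nat_lit 196654) (nat_lit 11) (.e (nat_lit 16416) (nat_lit 3) (.e (nat_lit 204815) (nat_lit 17) (.e (nat_lit 974) (nat_lit 81) .nil)))))))) (.g (nat_lit 6) .nil .nil))))) (.nd (nat_lit 5) (.nd (nat_lit 6) 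
(.lf (nat_lit 129426) (.g (nat_lit 2668) (.e (nat_lit 7695) (nat_lit 412) (.e (nat_lit 57374) (nat_lit 2) (.e (nat_lit 90170) (nat_lit 13) (.e (nat_lit 172067) (nat_lit 3) (.e (nat_lit 204809) (nat_lit 9) .nil))))) .nil)) 
(.lf (nat_lit 129490) (.g (nat_lit 2543) (.e (nat_lit 7697) (nat_lit 412) (.e (nat_lit 57373) (nat_lit 2) (.e (nat_lit 90174) (nat_lit 14) (.e (nat_lit 180243) (nat_lit 5) (.e (nat_lit 532579) (nat_lit 26) .nil))))) .nil))) (.nd (nat_lit 6) 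
(.lf (nat_lit 129458) (.g (nat_lit 2355) (.e (nat_lit 7695) (nat_lit 412) (.e (nat_lit 57378) (nat_lit 3) (.e (nat_lit 98377) (nat_lit 30) (.e (nat_lit 458789) (nat_lit 23) (.e (nat_lit 532579) (nat_lit 26) .nil))))) .nil)) 
(.lf (nat_lit 129522) (.g (nat_lit 798) (.e (nat_lit 7697) (nat_lit 412) (.e (nat_lit 57389) (nat_lit 5) (.e (nat_lit 114711) (nat_lit 21) .nil))) .nil))))) (.nd (nat_lit 4) (.nd (nat_lit 5) (.nd (nat_lit 6) 
(.lf (nat_lit 129418) (.g (nat_lit 1836) (.e (nat_lit 7695) (nat_lit 412) (.e (nat_lit 57373) (nat_lit 2) (.e (nat_lit 90185) (nat_lit 17) (.e (nat_lit 237590) (nat_lit 2) .nil)))) .nil)) 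
(.lf (nat_lit 129482) (.g (nat_lit 4613) (.e (nat_lit 7697) (nat_lit 412) (.e (nat_lit 57364) (nat_lit 1) (.e (nat_lit 57851) (nat_lit 252) (.e (nat_lit 57406) (nat_lit 12) (.e (nat_lit 336326) (nat_lit 18) (.e (nat_lit 204869) (nat_lit 29) (.e (nat_lit 360451) (nat_lit 0) .nil))))))) (.g (nat_lit 7) .nil .nil)))) (.nd (nat_lit 6) 
(.lf (nat_lit 129450) (.g (nat_lit 3276) (.e (nat_lit 7695) (nat_lit 412) (.e (nat_lit 57378) (nat_lit 3) (.e (nat_lit 98365) (nat_lit 26) (.e (nat_lit 426116) (nat_lit 2) (.e (nat_lit 196654) (nat_lit 11) (.e (nat_lit 16416) (nat_lit 3) (.e (nat_lit 204815) (nat_lit 17) (.e (nat_lit 996) (nat_lit 81) .nil)))))))) (.g (nat_lit 5) .nil .nil))) 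
(.lf (nat_lit 129514) (.g (nat_lit 3507) (.e (nat_lit 7697) (nat_lit 412) (.e (nat_lit 57378) (nat_lit 3) (.e (nat_lit 98365) (nat_lit 26) (.e (nat_lit 426133) (nat_lit 3) (.e (nat_lit 204809) (nat_lit 9) (.e (nat_lit 426124) (nat_lit 2) (.e (nat_lit 196677) (nat_lit 16) (.e (nat_lit 122880) (nat_lit 0) .nil)))))))) (.g (nat_lit 6) .nil .nil))))) (.nd (nat_lit 5) (.nd (nat_lit 6) 
(.lf (nat_lit 129434) (.g (nat_lit 2667) (.e (nat_lit 7695) (nat_lit 412) (.e (nat_lit 57375) (nat_lit 2) (.e (nat_lit 90172) (nat_lit 14) (.e (nat_lit 180244) (nat_lit 5) (.e (nat_lit 532579) (nat_lit 26) (.e (nat_lit 426124) (nat_lit 2) (.e (nat_lit 196658) (nat_lit 12) (.e (nat_lit 57353) (nat_lit 0) .nil)))))))) (.g (nat_lit 5) .nil .nil))) 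
(.lf (nat_lit 129498) (.g (nat_lit 2164) (.e (nat_lit 7697) (nat_lit 412) (.e (nat_lit 57373) (nat_lit 2) (.e (nat_lit 90185) (nat_lit 17) (.e (nat_lit 237594) (nat_lit 3) (.e (nat_lit 204809) (nat_lit 9) (.e (nat_lit 426124) (nat_lit 2) (.e (nat_lit 196660) (nat_lit 12) (.e (nat_lit 57347) (nat_lit 0) .nil)))))))) (.g (nat_lit 4) .nil .nil)))) (.nd (nat_lit 6) 
(.lf (nat_lit 129466) (.g (nat_lit 2091) (.e (nat_lit 7695) (nat_lit 412) (.e (nat_lit 57379) (nat_lit 3) (.e (nat_lit 98365) (nat_lit 26) (.e (nat_lit 426133) (nat_lit 3) (.e (nat_lit 204809) (nat_lit 9) (.e (nat_lit 426139) (nat_lit 3) (.e (nat_lit 204827) (nat_lit 17) (.e (nat_lit 1008) (nat_lit 81) .nil)))))))) (.g (nat_lit 4) .nil .nil))) 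
(.lf (nat_lit 129530) (.g (nat_lit 1082) (.e (nat_lit 7936) (nat_lit 412) (.e (nat_lit 57368) (nat_lit 1) (.e (nat_lit 57854) (nat_lit 252) (.e (nat_lit 57409) (nat_lit 12) .nil)))) .nil)))))) (.nd (nat_lit 3) (.nd (nat_lit 4) (.nd (nat_lit 5) (.nd (nat_lit 6) 
(.lf (nat_lit 129414) (.g (nat_lit 2533) (.e (nat_lit 7695) (nat_lit 412) (.e (nat_lit 57373) (nat_lit 2) (.e (nat_lit 90174) (nat_lit 14) (.e (nat_lit 180243) (nat_lit 5) (.e (nat_lit 532579) (nat_lit 26) .nil))))) .nil)) 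
(.lf (nat_lit 129478) (.g (nat_lit 2355) (.e (nat_lit 7696) (nat_lit 412) (.e (nat_lit 57375) (nat_lit 2) (.e (nat_lit 90172) (nat_lit 14) (.e (nat_lit 180244) (nat_lit 5) (.e (nat_lit 532579) (nat_lit 26) .nil))))) .nil))) (.nd (nat_lit 6) 
(.lf (nat_lit 129446) (.g (nat_lit 1880) (.e (nat_lit 7695) (nat_lit 412) (.e (nat_lit 57378) (nat_lit 3) (.e (nat_lit 98365) (nat_lit 26) (.e (nat_lit 426115) (nat_lit 2) .nil)))) .nil)) 
(.lf (nat_lit 129510) (.g (nat_lit 2718) (.e (nat_lit 7697) (nat_lit 412) (.e (nat_lit 57378) (nat_lit 3) (.e (nat_lit 98365) (nat_lit 26) (.e (nat_lit 426116) (nat_lit 2) (.e (nat_lit 196654) (nat_lit 11) (.e (nat_lit 16416) (nat_lit 3) (.e (nat_lit 204818) (nat_lit 17) (.e (nat_lit 1016) (nat_lit 81) .nil)))))))) (.g (nat_lit 4) .nil .nil))))) (.nd (nat_lit 5) (.nd (nat_lit 6) 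
(.lf (nat_lit 129430) (.g (nat_lit 3013) (.e (nat_lit 7695) (nat_lit 412) (.e (nat_lit 57375) (nat_lit 2) (.e (nat_lit 90172) (nat_lit 14) (.e (nat_lit 180244) (nat_lit 5) (.e (nat_lit 532579) (nat_lit 26) (.e (nat_lit 426123) (nat_lit 2) (.e (nat_lit 196661) (nat_lit 12) (.e (nat_lit 57351) (nat_lit 0) .nil)))))))) (.g (nat_lit 5) .nil .nil))) 
(.lf (nat_lit 129494) (.g (nat_lit 2839) (.e (nat_lit 7697) (nat_lit 412) (.e (nat_lit 57373) (nat_lit 2) (.e (nat_lit 90185) (nat_lit 17) (.e (nat_lit 237590) (nat_lit 2) (.e (nat_lit 196654) (nat_lit 11) (.e (nat_lit 16412) (nat_lit 2) (.e (nat_lit 196677) (nat_lit 16) (.e (nat_lit 122881) (nat_lit 0) .nil)))))))) (.g (nat_lit 5) .nil .nil)))) (.nd (nat_lit 6) 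
(.lf (nat_lit 129462) (.g (nat_lit 2238) (.e (nat_lit 7695) (nat_lit 412) (.e (nat_lit 57379) (nat_lit 3) (.e (nat_lit 98365) (nat_lit 26) (.e (nat_lit 426116) (nat_lit 2) (.e (nat_lit 196654) (nat_lit 11) (.e (nat_lit 16412) (nat_lit 2) (.e (nat_lit 196661) (nat_lit 12) (.e (nat_lit 57352) (nat_lit 0) .nil)))))))) (.g (nat_lit 4) .nil .nil))) 
(.lf (nat_lit 129526) (.g (nat_lit 2027) (.e (nat_lit 7697) (nat_lit 412) (.e (nat_lit 57389) (nat_lit 5) (.e (nat_lit 114719) (nat_lit 23) (.e (nat_lit 98365) (nat_lit 26) (.e (nat_lit 426100) (nat_lit 1) .nil))))) .nil))))) (.nd (nat_lit 4) (.nd (nat_lit 5) (.nd (nat_lit 6) 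
(.lf (nat_lit 129422) (.g (nat_lit 2241) (.e (nat_lit 7695) (nat_lit 412) (.e (nat_lit 57373) (nat_lit 2) (.e (nat_lit 90185) (nat_lit 17) (.e (nat_lit 237594) (nat_lit 3) (.e (nat_lit 204809) (nat_lit 9) .nil))))) .nil)) 
(.lf (nat_lit 129486) (.g (nat_lit 2907) (.e (nat_lit 7697) (nat_lit 412) (.e (nat_lit 57373) (nat_lit 2) (.e (nat_lit 90170) (nat_lit 13) (.e (nat_lit 172067) (nat_lit 3) (.e (nat_lit 204809) (nat_lit 9) (.e (nat_lit 426139) (nat_lit 3) (.e (nat_lit 204815) (nat_lit 17) (.e (nat_lit 974) (nat_lit 81) .nil)))))))) (.g (nat_lit 4) .nil .nil)))) (.nd (nat_lit 6) 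
(.lf (nat_lit 129454) (.g (nat_lit 2613) (.e (nat_lit 7695) (nat_lit 412) (.e (nat_lit 57378) (nat_lit 3) (.e (nat_lit 98365) (nat_lit 26) (.e (nat_lit 426116) (nat_lit 2) (.e (nat_lit 196654) (nat_lit 11) (.e (nat_lit 16416) (nat_lit 3) (.e (nat_lit 204822) (nat_lit 17) (.e (nat_lit 1014) (nat_lit 81) .nil)))))))) (.g (nat_lit 4) .nil .nil))) 
(.lf (nat_lit 129518) (.g (nat_lit 2157) (.e (nat_lit 7697) (nat_lit 412) (.e (nat_lit 57378) (nat_lit 3) (.e (nat_lit 98376) (nat_lit 30) (.e (nat_lit 458789) (nat_lit 23) (.e (nat_lit 532579) (nat_lit 26) (.e (nat_lit 426124) (nat_lit 2) (.e (nat_lit 196677) (nat_lit 16) (.e (nat_lit 122880) (nat_lit 0) .nil)))))))) (.g (nat_lit 4) .nil .nil))))) (.nd (nat_lit 5) (.nd (nat_lit 6) 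
(.lf (nat_lit 129438) (.g (nat_lit 1533) (.e (nat_lit 7695) (nat_lit 412) (.e (nat_lit 57375) (nat_lit 2) (.e (nat_lit 90185) (nat_lit 17) (.e (nat_lit 237590) (nat_lit 2) .nil)))) .nil)) 
(.lf (nat_lit 129502) (.g (nat_lit 2577) (.e (nat_lit 7697) (nat_lit 412) (.e (nat_lit 57378) (nat_lit 3) (.e (nat_lit 98365) (nat_lit 26) (.e (nat_lit 426116) (nat_lit 2) (.e (nat_lit 196654) (nat_lit 11) .nil))))) .nil))) (.nd (nat_lit 6) 
(.lf (nat_lit 129470) (.g (nat_lit 701) (.e (nat_lit 7695) (nat_lit 412) (.e (nat_lit 57388) (nat_lit 5) (.e (nat_lit 114714) (nat_lit 22) .nil))) .nil)) 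
(.lf (nat_lit 129534) (.g (nat_lit 2359) (.e (nat_lit 7702) (nat_lit 413) (.e (nat_lit 122893) (nat_lit 3) (.e (nat_lit 98367) (nat_lit 27) (.e (nat_lit 434231) (nat_lit 23) (.e (nat_lit 532579) (nat_lit 26) .nil))))) .nil)))))))) (.nd (nat_lit 1) (.nd (nat_lit 2) (.nd (nat_lit 3) (.nd (nat_lit 4) (.nd (nat_lit 5) (.nd (nat_lit 6) 
(.lf (nat_lit 129409) (.g (nat_lit 2479) (.e (nat_lit 7695) (nat_lit 412) (.e (nat_lit 57373) (nat_lit 2) (.e (nat_lit 90170) (nat_lit 13) (.e (nat_lit 172065) (nat_lit 3) .nil)))) .nil)) 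
(.lf (nat_lit 129473) (.g (nat_lit 2027) (.e (nat_lit 7695) (nat_lit 412) (.e (nat_lit 57389) (nat_lit 5) (.e (nat_lit 114719) (nat_lit 23) (.e (nat_lit 98365) (nat_lit 26) (.e (nat_lit 426100) (nat_lit 1) .nil))))) .nil))) (.nd (nat_lit 6) 
(.lf (nat_lit 129441) (.g (nat_lit 1592) (.e (nat_lit 7695) (nat_lit 412) (.e (nat_lit 57375) (nat_lit 2) (.e (nat_lit 90185) (nat_lit 17) (.e (nat_lit 237594) (nat_lit 3) .nil)))) .nil)) 
(.lf (nat_lit 129505) (.g (nat_lit 3154) (.e (nat_lit 7697) (nat_lit 412) (.e (nat_lit 57378) (nat_lit 3) (.e (nat_lit 98365) (nat_lit 26) (.e (nat_lit 426116) (nat_lit 2) (.e (nat_lit 196654) (nat_lit 11) (.e (nat_lit 16412) (nat_lit 2) (.e (nat_lit 196661) (nat_lit 12) (.e (nat_lit 57353) (nat_lit 0) .nil)))))))) (.g (nat_lit 5) .nil .nil))))) (.nd (nat_lit 5) (.nd (nat_lit 6) 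
(.lf (nat_lit 129425) (.g (nat_lit 2947) (.e (nat_lit 7695) (nat_lit 412) (.e (nat_lit 57374) (nat_lit 2) (.e (nat_lit 90170) (nat_lit 13) (.e (nat_lit 172065) (nat_lit 3) (.e (nat_lit 204809) (nat_lit 9) .nil))))) .nil)) 
(.lf (nat_lit 129489) (.g (nat_lit 2805) (.e (nat_lit 7697) (nat_lit 412) (.e (nat_lit 57373) (nat_lit 2) (.e (nat_lit 90172) (nat_lit 14) (.e (nat_lit 180244) (nat_lit 5) (.e (nat_lit 532579) (nat_lit 26) (.e (nat_lit 426139) (nat_lit 3) (.e (nat_lit 204815) (nat_lit 17) (.e (nat_lit 996) (nat_lit 81) .nil)))))))) (.g (nat_lit 4) .nil .nil)))) (.nd (nat_lit 6) 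
(.lf (nat_lit 129457) (.g (nat_lit 2028) (.e (nat_lit 7695) (nat_lit 412) (.e (nat_lit 57378) (nat_lit 3) (.e (nat_lit 98376) (nat_lit 30) (.e (nat_lit 458789) (nat_lit 23) (.e (nat_lit 532579) (nat_lit 26) .nil))))) .nil)) 
(.lf (nat_lit 129521) (.g (nat_lit 2154) (.e (nat_lit 7697) (nat_lit 412) (.e (nat_lit 57388) (nat_lit 5) (.e (nat_lit 114714) (nat_lit 22) (.e (nat_lit 90172) (nat_lit 14) (.e (nat_lit 180229) (nat_lit 0) .nil))))) .nil))))) (.nd (nat_lit 4) (.nd (nat_lit 5) (.nd (nat_lit 6) 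
(.lf (nat_lit 129417) (.g (nat_lit 4752) (.e (nat_lit 7695) (nat_lit 412) (.e (nat_lit 57373) (nat_lit 2) (.e (nat_lit 90185) (nat_lit 17) (.e (nat_lit 237587) (nat_lit 2) (.e (nat_lit 196654) (nat_lit 11) (.e (nat_lit 16416) (nat_lit 3) (.e (nat_lit 204815) (nat_lit 17) (.e (nat_lit 974) (nat_lit 81) .nil)))))))) (.g (nat_lit 6) .nil .nil))) 
(.lf (nat_lit 129481) (.g (nat_lit 4617) (.e (nat_lit 7697) (nat_lit 412) (.e (nat_lit 57364) (nat_lit 1) (.e (nat_lit 57851) (nat_lit 252) (.e (nat_lit 57406) (nat_lit 12) (.e (nat_lit 336326) (nat_lit 18) (.e (nat_lit 204869) (nat_lit 29) (.e (nat_lit 360450) (nat_lit 0) .nil))))))) (.g (nat_lit 7) .nil .nil)))) (.nd (nat_lit 6) 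
(.lf (nat_lit 129449) (.g (nat_lit 3234) (.e (nat_lit 7695) (nat_lit 412) (.e (nat_lit 57378) (nat_lit 3) (.e (nat_lit 98365) (nat_lit 26) (.e (nat_lit 426116) (nat_lit 2) (.e (nat_lit 196654) (nat_lit 11) (.e (nat_lit 16412) (nat_lit 2) (.e (nat_lit 196677) (nat_lit 16) (.e (nat_lit 122880) (nat_lit 0) .nil)))))))) (.g (nat_lit 5) .nil .nil))) 
(.lf (nat_lit 129513) (.g (nat_lit 2531) (.e (nat_lit 7697) (nat_lit 412) (.e (nat_lit 57378) (nat_lit 3) (.e (nat_lit 98365) (nat_lit 26) (.e (nat_lit 426133) (nat_lit 3) (.e (nat_lit 204809) (nat_lit 9) (.e (nat_lit 426124) (nat_lit 2) (.e (nat_lit 196660) (nat_lit 12) (.e (nat_lit 57347) (nat_lit 0) .nil)))))))) (.g (nat_lit 4) .nil .nil))))) (.nd (nat_lit 5) (.nd (nat_lit 6) 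
(.lf (nat_lit 129433) (.g (nat_lit 2287) (.e (nat_lit 7695) (nat_lit 412) (.e (nat_lit 57375) (nat_lit 2) (.e (nat_lit 90172) (nat_lit 14) (.e (nat_lit 180244) (nat_lit 5) (.e (nat_lit 532579) (nat_lit 26) (.e (nat_lit 426124) (nat_lit 2) (.e (nat_lit 196658) (nat_lit 12) (.e (nat_lit 57352) (nat_lit 0) .nil)))))))) (.g (nat_lit 4) .nil .nil))) 
(.lf (nat_lit 129497) (.g (nat_lit 1822) (.e (nat_lit 7697) (nat_lit 412) (.e (nat_lit 57373) (nat_lit 2) (.e (nat_lit 90185) (nat_lit 17) (.e (nat_lit 237594) (nat_lit 3) .nil)))) .nil))) (.nd (nat_lit 6) 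
(.lf (nat_lit 129465) (.g (nat_lit 2131) (.e (nat_lit 7695) (nat_lit 412) (.e (nat_lit 57379) (nat_lit 3) (.e (nat_lit 98365) (nat_lit 26) (.e (nat_lit 426133) (nat_lit 3) (.e (nat_lit 204809) (nat_lit 9) (.e (nat_lit 426124) (nat_lit 2) (.e (nat_lit 196658) (nat_lit 12) (.e (nat_lit 57353) (nat_lit 0) .nil)))))))) (.g (nat_lit 4) .nil .nil))) 
(.lf (nat_lit 129529) (.g (nat_lit 2070) (.e (nat_lit 7698) (nat_lit 412) (.e (nat_lit 57378) (nat_lit 3) (.e (nat_lit 98365) (nat_lit 26) (.e (nat_lit 426133) (nat_lit 3) .nil)))) .nil)))))) (.nd (nat_lit 3) (.nd (nat_lit 4) (.nd (nat_lit 5) (.nd (nat_lit 6) 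
(.lf (nat_lit 129413) (.g (nat_lit 3338) (.e (nat_lit 7695) (nat_lit 412) (.e (nat_lit 57373) (nat_lit 2) (.e (nat_lit 90172) (nat_lit 14) (.e (nat_lit 180244) (nat_lit 5) (.e (nat_lit 532579) (nat_lit 26) (.e (nat_lit 426123) (nat_lit 2) (.e (nat_lit 196661) (nat_lit 12) (.e (nat_lit 57353) (nat_lit 0) .nil)))))))) (.g (nat_lit 5) .nil .nil))) 
(.lf (nat_lit 129477) (.g (nat_lit 2917) (.e (nat_lit 7696) (nat_lit 412) (.e (nat_lit 57374) (nat_lit 2) (.e (nat_lit 90170) (nat_lit 13) (.e (nat_lit 172067) (nat_lit 3) (.e (nat_lit 204809) (nat_lit 9) .nil))))) .nil))) (.nd (nat_lit 6) 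
(.lf (nat_lit 129445) (.g (nat_lit 1295) (.e (nat_lit 7695) (nat_lit 412) (.e (nat_lit 57378) (nat_lit 3) (.e (nat_lit 98363) (nat_lit 26) (.e (nat_lit 426129) (nat_lit 3) .nil)))) .nil)) 
(.lf (nat_lit 129509) (.g (nat_lit 2640) (.e (nat_lit 7697) (nat_lit 412) (.e (nat_lit 57378) (nat_lit 3) (.e (nat_lit 98365) (nat_lit 26) (.e (nat_lit 426116) (nat_lit 2) (.e (nat_lit 196654) (nat_lit 11) (.e (nat_lit 16416) (nat_lit 3) (.e (nat_lit 204815) (nat_lit 17) (.e (nat_lit 1016) (nat_lit 81) .nil)))))))) (.g (nat_lit 4) .nil .nil))))) (.nd (nat_lit 5) (.nd (nat_lit 6) 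
(.lf (nat_lit 129429) (.g (nat_lit 2357) (.e (nat_lit 7695) (nat_lit 412) (.e (nat_lit 57375) (nat_lit 2) (.e (nat_lit 90172) (nat_lit 14) (.e (nat_lit 180244) (nat_lit 5) (.e (nat_lit 532579) (nat_lit 26) (.e (nat_lit 426123) (nat_lit 2) (.e (nat_lit 196661) (nat_lit 12) (.e (nat_lit 57344) (nat_lit 0) .nil)))))))) (.g (nat_lit 4) .nil .nil))) 
(.lf (nat_lit 129493) (.g (nat_lit 1737) (.e (nat_lit 7697) (nat_lit 412) (.e (nat_lit 57373) (nat_lit 2) (.e (nat_lit 90185) (nat_lit 17) (.e (nat_lit 237590) (nat_lit 2) .nil)))) .nil))) (.nd (nat_lit 6) 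
(.lf (nat_lit 129461) (.g (nat_lit 2189) (.e (nat_lit 7695) (nat_lit 412) (.e (nat_lit 57379) (nat_lit 3) (.e (nat_lit 98365) (nat_lit 26) (.e (nat_lit 426116) (nat_lit 2) (.e (nat_lit 196654) (nat_lit 11) .nil))))) .nil)) 
(.lf (nat_lit 129525) (.g (nat_lit 758) (.e (nat_lit 7697) (nat_lit 412) (.e (nat_lit 57389) (nat_lit 5) (.e (nat_lit 114719) (nat_lit 23) .nil))) .nil))))) (.nd (nat_lit 4) (.nd (nat_lit 5) (.nd (nat_lit 6) 
(.lf (nat_lit 129421) (.g (nat_lit 1921) (.e (nat_lit 7695) (nat_lit 412) (.e (nat_lit 57373) (nat_lit 2) (.e (nat_lit 90185) (nat_lit 17) (.e (nat_lit 237594) (nat_lit 3) .nil)))) .nil)) 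
(.lf (nat_lit 129485) (.g (nat_lit 3006) (.e (nat_lit 7697) (nat_lit 412) (.e (nat_lit 57373) (nat_lit 2) (.e (nat_lit 90170) (nat_lit 13) (.e (nat_lit 172067) (nat_lit 3) (.e (nat_lit 204809) (nat_lit 9) (.e (nat_lit 426124) (nat_lit 2) (.e (nat_lit 196677) (nat_lit 16) (.e (nat_lit 122881) (nat_lit 0) .nil)))))))) (.g (nat_lit 4) .nil .nil)))) (.nd (nat_lit 6) 
(.lf (nat_lit 129453) (.g (nat_lit 2658) (.e (nat_lit 7695) (nat_lit 412) (.e (nat_lit 57378) (nat_lit 3) (.e (nat_lit 98365) (nat_lit 26) (.e (nat_lit 426116) (nat_lit 2) (.e (nat_lit 196654) (nat_lit 11) (.e (nat_lit 16416) (nat_lit 3) (.e (nat_lit 204822) (nat_lit 17) (.e (nat_lit 992) (nat_lit 81) .nil)))))))) (.g (nat_lit 4) .nil .nil))) 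
(.lf (nat_lit 129517) (.g (nat_lit 2743) (.e (nat_lit 7697) (nat_lit 412) (.e (nat_lit 57378) (nat_lit 3) (.e (nat_lit 98367) (nat_lit 27) (.e (nat_lit 434231) (nat_lit 23) (.e (nat_lit 532579) (nat_lit 26) .nil))))) .nil)))) (.nd (nat_lit 5) (.nd (nat_lit 6) 
(.lf (nat_lit 129437) (.g (nat_lit 1615) (.e (nat_lit 7695) (nat_lit 412) (.e (nat_lit 57375) (nat_lit 2) (.e (nat_lit 90185) (nat_lit 17) (.e (nat_lit 237587) (nat_lit 2) .nil)))) .nil)) 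
(.lf (nat_lit 129501) (.g (nat_lit 1868) (.e (nat_lit 7697) (nat_lit 412) (.e (nat_lit 57378) (nat_lit 3) (.e (nat_lit 98365) (nat_lit 26) (.e (nat_lit 426115) (nat_lit 2) .nil)))) .nil))) (.nd (nat_lit 6) 
(.lf (nat_lit 129469) (.g (nat_lit 3467) (.e (nat_lit 7695) (nat_lit 412) (.e (nat_lit 57379) (nat_lit 3) (.e (nat_lit 98377) (nat_lit 30) (.e (nat_lit 458789) (nat_lit 23) (.e (nat_lit 532579) (nat_lit 26) (.e (nat_lit 426139) (nat_lit 3) (.e (nat_lit 204815) (nat_lit 17) (.e (nat_lit 974) (nat_lit 81) .nil)))))))) (.g (nat_lit 5) .nil .nil))) 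
(.lf (nat_lit 129533) (.g (nat_lit 1242) (.e (nat_lit 7936) (nat_lit 412) (.e (nat_lit 57379) (nat_lit 3) (.e (nat_lit 98365) (nat_lit 26) (.e (nat_lit 426133) (nat_lit 3) .nil)))) .nil))))))) (.nd (nat_lit 2) (.nd (nat_lit 3) (.nd (nat_lit 4) (.nd (nat_lit 5) (.nd (nat_lit 6) 
(.lf (nat_lit 129411) (.g (nat_lit 2647) (.e (nat_lit 7695) (nat_lit 412) (.e (nat_lit 57373) (nat_lit 2) (.e (nat_lit 90172) (nat_lit 14) (.e (nat_lit 180244) (nat_lit 5) (.e (nat_lit 532579) (nat_lit 26) .nil))))) .nil)) 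
(.lf (nat_lit 129475) (.g (nat_lit 395) (.e (nat_lit 7695) (nat_lit 412) (.e (nat_lit 57390) (nat_lit 5) (.e (nat_lit 114719) (nat_lit 23) .nil))) .nil))) (.nd (nat_lit 6) 
(.lf (nat_lit 129443) (.g (nat_lit 1933) (.e (nat_lit 7695) (nat_lit 412) (.e (nat_lit 57375) (nat_lit 2) (.e (nat_lit 90185) (nat_lit 17) (.e (nat_lit 237594) (nat_lit 3) (.e (nat_lit 204809) (nat_lit 9) (.e (nat_lit 426124) (nat_lit 2) (.e (nat_lit 196658) (nat_lit 12) (.e (nat_lit 57353) (nat_lit 0) .nil)))))))) (.g (nat_lit 4) .nil .nil))) 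
(.lf (nat_lit 129507) (.g (nat_lit 3244) (.e (nat_lit 7697) (nat_lit 412) (.e (nat_lit 57378) (nat_lit 3) (.e (nat_lit 98365) (nat_lit 26) (.e (nat_lit 426116) (nat_lit 2) (.e (nat_lit 196654) (nat_lit 11) (.e (nat_lit 16416) (nat_lit 3) (.e (nat_lit 204815) (nat_lit 17) (.e (nat_lit 996) (nat_lit 81) .nil)))))))) (.g (nat_lit 5) .nil .nil))))) (.nd (nat_lit 5) (.nd (nat_lit 6) 
(.lf (nat_lit 129427) (.g (nat_lit 3083) (.e (nat_lit 7695) (nat_lit 412) (.e (nat_lit 57374) (nat_lit 2) (.e (nat_lit 90170) (nat_lit 13) (.e (nat_lit 172067) (nat_lit 3) (.e (nat_lit 204809) (nat_lit 9) (.e (nat_lit 426124) (nat_lit 2) (.e (nat_lit 196658) (nat_lit 12) (.e (nat_lit 57348) (nat_lit 0) .nil)))))))) (.g (nat_lit 5) .nil .nil))) 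
(.lf (nat_lit 129491) (.g (nat_lit 1808) (.e (nat_lit 7697) (nat_lit 412) (.e (nat_lit 57373) (nat_lit 2) (.e (nat_lit 90185) (nat_lit 17) (.e (nat_lit 237587) (nat_lit 2) .nil)))) .nil))) (.nd (nat_lit 6) 
(.lf (nat_lit 129459) (.g (nat_lit 1222) (.e (nat_lit 7695) (nat_lit 412) (.e (nat_lit 57379) (nat_lit 3) (.e (nat_lit 98363) (nat_lit 26) (.e (nat_lit 426129) (nat_lit 3) .nil)))) .nil)) 
(.lf (nat_lit 129523) (.g (nat_lit 1352) (.e (nat_lit 7697) (nat_lit 412) (.e (nat_lit 57389) (nat_lit 5) (.e (nat_lit 114714) (nat_lit 22) (.e (nat_lit 90172) (nat_lit 14) .nil)))) .nil))))) (.nd (nat_lit 4) (.nd (nat_lit 5) (.nd (nat_lit 6) 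
(.lf (nat_lit 129419) (.g (nat_lit 4479) (.e (nat_lit 7695) (nat_lit 412) (.e (nat_lit 57373) (nat_lit 2) (.e (nat_lit 90185) (nat_lit 17) (.e (nat_lit 237590) (nat_lit 2) (.e (nat_lit 196654) (nat_lit 11) (.e (nat_lit 16416) (nat_lit 3) (.e (nat_lit 204815) (nat_lit 17) (.e (nat_lit 974) (nat_lit 81) .nil)))))))) (.g (nat_lit 6) .nil .nil))) 
(.lf (nat_lit 129483) (.g (nat_lit 2484) (.e (nat_lit 7697) (nat_lit 412) (.e (nat_lit 57373) (nat_lit 2) (.e (nat_lit 90170) (nat_lit 13) (.e (nat_lit 172065) (nat_lit 3) .nil)))) .nil))) (.nd (nat_lit 6) 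
(.lf (nat_lit 129451) (.g (nat_lit 2717) (.e (nat_lit 7695) (nat_lit 412) (.e (nat_lit 57378) (nat_lit 3) (.e (nat_lit 98365) (nat_lit 26) (.e (nat_lit 426116) (nat_lit 2) (.e (nat_lit 196654) (nat_lit 11) (.e (nat_lit 16416) (nat_lit 3) (.e (nat_lit 204816) (nat_lit 17) (.e (nat_lit 969) (nat_lit 81) .nil)))))))) (.g (nat_lit 4) .nil .nil))) 
(.lf (nat_lit 129515) (.g (nat_lit 2153) (.e (nat_lit 7697) (nat_lit 412) (.e (nat_lit 57378) (nat_lit 3) (.e (nat_lit 98366) (nat_lit 27) (.e (nat_lit 434231) (nat_lit 23) (.e (nat_lit 532579) (nat_lit 26) .nil))))) .nil)))) (.nd (nat_lit 5) (.nd (nat_lit 6) 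
(.lf (nat_lit 129435) (.g (nat_lit 2319) (.e (nat_lit 7695) (nat_lit 412) (.e (nat_lit 57375) (nat_lit 2) (.e (nat_lit 90172) (nat_lit 14) (.e (nat_lit 180244) (nat_lit 5) (.e (nat_lit 532579) (nat_lit 26) (.e (nat_lit 426139) (nat_lit 3) (.e (nat_lit 204827) (nat_lit 17) (.e (nat_lit 1009) (nat_lit 81) .nil)))))))) (.g (nat_lit 4) .nil .nil))) 
(.lf (nat_lit 129499) (.g (nat_lit 3443) (.e (nat_lit 7697) (nat_lit 412) (.e (nat_lit 57373) (nat_lit 2) (.e (nat_lit 90185) (nat_lit 17) (.e (nat_lit 237594) (nat_lit 3) (.e (nat_lit 204809) (nat_lit 9) (.e (nat_lit 426124) (nat_lit 2) (.e (nat_lit 196677) (nat_lit 16) (.e (nat_lit 122881) (nat_lit 0) .nil)))))))) (.g (nat_lit 6) .nil .nil)))) (.nd (nat_lit 6) 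
(.lf (nat_lit 129467) (.g (nat_lit 2105) (.e (nat_lit 7695) (nat_lit 412) (.e (nat_lit 57379) (nat_lit 3) (.e (nat_lit 98376) (nat_lit 30) (.e (nat_lit 458789) (nat_lit 23) (.e (nat_lit 532579) (nat_lit 26) .nil))))) .nil)) 
(.lf (nat_lit 129531) (.g (nat_lit 1427) (.e (nat_lit 7936) (nat_lit 412) (.e (nat_lit 57368) (nat_lit 1) (.e (nat_lit 57854) (nat_lit 252) (.e (nat_lit 57440) (nat_lit 18) (.e (nat_lit 385066) (nat_lit 26) .nil))))) .nil)))))) (.nd (nat_lit 3) (.nd (nat_lit 4) (.nd (nat_lit 5) (.nd (nat_lit 6) 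
(.lf (nat_lit 129415) (.g (nat_lit 1907) (.e (nat_lit 7695) (nat_lit 412) (.e (nat_lit 57373) (nat_lit 2) (.e (nat_lit 90185) (nat_lit 17) (.e (nat_lit 237587) (nat_lit 2) .nil)))) .nil)) 
(.lf (nat_lit 129479) (.g (nat_lit 1933) (.e (nat_lit 7696) (nat_lit 412) (.e (nat_lit 57375) (nat_lit 2) (.e (nat_lit 90185) (nat_lit 17) (.e (nat_lit 237594) (nat_lit 3) (.e (nat_lit 204809) (nat_lit 9) .nil))))) .nil))) (.nd (nat_lit 6) 
(.lf (nat_lit 129447) (.g (nat_lit 2589) (.e (nat_lit 7695) (nat_lit 412) (.e (nat_lit 57378) (nat_lit 3) (.e (nat_lit 98365) (nat_lit 26) (.e (nat_lit 426116) (nat_lit 2) (.e (nat_lit 196654) (nat_lit 11) .nil))))) .nil)) 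
(.lf (nat_lit 129511) (.g (nat_lit 2602) (.e (nat_lit 7697) (nat_lit 412) (.e (nat_lit 57378) (nat_lit 3) (.e (nat_lit 98365) (nat_lit 26) (.e (nat_lit 426116) (nat_lit 2) (.e (nat_lit 196654) (nat_lit 11) (.e (nat_lit 16416) (nat_lit 3) (.e (nat_lit 204822) (nat_lit 17) (.e (nat_lit 1014) (nat_lit 81) .nil)))))))) (.g (nat_lit 4) .nil .nil))))) (.nd (nat_lit 5) (.nd (nat_lit 6) 
(.lf (nat_lit 129431) (.g (nat_lit 2301) (.e (nat_lit 7695) (nat_lit 412) (.e (nat_lit 57375) (nat_lit 2) (.e (nat_lit 90172) (nat_lit 14) (.e (nat_lit 180244) (nat_lit 5) (.e (nat_lit 532579) (nat_lit 26) (.e (nat_lit 426124) (nat_lit 2) (.e (nat_lit 196658) (nat_lit 12) (.e (nat_lit 57347) (nat_lit 0) .nil)))))))) (.g (nat_lit 4) .nil .nil))) 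
(.lf (nat_lit 129495) (.g (nat_lit 1721) (.e (nat_lit 7697) (nat_lit 412) (.e (nat_lit 57373) (nat_lit 2) (.e (nat_lit 90185) (nat_lit 17) (.e (nat_lit 237592) (nat_lit 3) .nil)))) .nil))) (.nd (nat_lit 6) 
(.lf (nat_lit 129463) (.g (nat_lit 1485) (.e (nat_lit 7695) (nat_lit 412) (.e (nat_lit 57379) (nat_lit 3) (.e (nat_lit 98365) (nat_lit 26) (.e (nat_lit 426133) (nat_lit 3) .nil)))) .nil)) 
(.lf (nat_lit 129527) (.g (nat_lit 1670) (.e (nat_lit 7697) (nat_lit 412) (.e (nat_lit 57389) (nat_lit 5) (.e (nat_lit 114719) (nat_lit 23) (.e (nat_lit 98366) (nat_lit 27) .nil)))) .nil))))) (.nd (nat_lit 4) (.nd (nat_lit 5) (.nd (nat_lit 6) 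
(.lf (nat_lit 129423) (.g (nat_lit 2250) (.e (nat_lit 7695) (nat_lit 412) (.e (nat_lit 57373) (nat_lit 2) (.e (nat_lit 90185) (nat_lit 17) (.e (nat_lit 237594) (nat_lit 3) (.e (nat_lit 204809) (nat_lit 9) (.e (nat_lit 426124) (nat_lit 2) (.e (nat_lit 196660) (nat_lit 12) (.e (nat_lit 57347) (nat_lit 0) .nil)))))))) (.g (nat_lit 4) .nil .nil))) 
(.lf (nat_lit 129487) (.g (nat_lit 2662) (.e (nat_lit 7697) (nat_lit 412) (.e (nat_lit 57373) (nat_lit 2) (.e (nat_lit 90172) (nat_lit 14) (.e (nat_lit 180244) (nat_lit 5) (.e (nat_lit 532579) (nat_lit 26) .nil))))) .nil))) (.nd (nat_lit 6) 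
(.lf (nat_lit 129455) (.g (nat_lit 1881) (.e (nat_lit 7695) (nat_lit 412) (.e (nat_lit 57378) (nat_lit 3) (.e (nat_lit 98365) (nat_lit 26) (.e (nat_lit 426133) (nat_lit 3) .nil)))) .nil)) 
(.lf (nat_lit 129519) (.g (nat_lit 2355) (.e (nat_lit 7697) (nat_lit 412) (.e (nat_lit 57378) (nat_lit 3) (.e (nat_lit 98377) (nat_lit 30) (.e (nat_lit 458789) (nat_lit 23) (.e (nat_lit 532579) (nat_lit 26) .nil))))) .nil)))) (.nd (nat_lit 5) (.nd (nat_lit 6) 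
(.lf (nat_lit 129439) (.g (nat_lit 1535) (.e (nat_lit 7695) (nat_lit 412) (.e (nat_lit 57375) (nat_lit 2) (.e (nat_lit 90185) (nat_lit 17) (.e (nat_lit 237592) (nat_lit 3) .nil)))) .nil)) 
(.lf (nat_lit 129503) (.g (nat_lit 3241) (.e (nat_lit 7697) (nat_lit 412) (.e (nat_lit 57378) (nat_lit 3) (.e (nat_lit 98365) (nat_lit 26) (.e (nat_lit 426116) (nat_lit 2) (.e (nat_lit 196654) (nat_lit 11) (.e (nat_lit 16412) (nat_lit 2) (.e (nat_lit 196658) (nat_lit 12) (.e (nat_lit 57348) (nat_lit 0) .nil)))))))) (.g (nat_lit 5) .nil .nil)))) (.nd (nat_lit 6) 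
(.lf (nat_lit 129471) (.g (nat_lit 1951) (.e (nat_lit 7695) (nat_lit 412) (.e (nat_lit 57388) (nat_lit 5) (.e (nat_lit 114719) (nat_lit 23) (.e (nat_lit 98365) (nat_lit 26) (.e (nat_lit 426100) (nat_lit 1) .nil))))) .nil)) 
(.lf (nat_lit 129535) (.g (nat_lit 2513) (.e (nat_lit 7708) (nat_lit 414) (.e (nat_lit 163875) (nat_lit 3) (.e (nat_lit 204862) (nat_lit 27) (.e (nat_lit 344129) (nat_lit 26) (.e (nat_lit 557097) (nat_lit 13) (.e (nat_lit 172066) (nat_lit 3) (.e (nat_lit 204815) (nat_lit 17) (.e (nat_lit 974) (nat_lit 81) .nil)))))))) (.g (nat_lit 4) .nil .nil))))))))))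

noncomputable def tv1729 : DT := (.nd (nat_lit 0) (.nd (nat_lit 1) (.nd (nat_lit 2) (.nd (nat_lit 3) (.nd (nat_lit 4) (.nd (nat_lit 5) 
(.lf (nat_lit 129536) (.g (nat_lit 2221) (.e (nat_lit 7708) (nat_lit 414) (.e (nat_lit 163875) (nat_lit 3) (.e (nat_lit 204862) (nat_lit 27) (.e (nat_lit 344132) (nat_lit 26) (.e (nat_lit 557100) (nat_lit 13) (.e (nat_lit 172067) (nat_lit 3) (.e (nat_lit 204815) (nat_lit 17) (.e (nat_lit 974) (nat_lit 81) .nil)))))))) (.g (nat_lit 4) .nil .nil))) 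
(.lf (nat_lit 129568) (.g (nat_lit 2743) (.e (nat_lit 8192) (nat_lit 0) (.e (nat_lit 5355) (nat_lit 298) (.e (nat_lit 1661) (nat_lit 115) (.e (nat_lit 393260) (nat_lit 21) (.e (nat_lit 409649) (nat_lit 18) (.e (nat_lit 303114) (nat_lit 1) (.e (nat_lit 164175) (nat_lit 153) .nil))))))) (.g (nat_lit 5) .nil .nil)))) (.nd (nat_lit 5) 
(.lf (nat_lit 129552) (.g (nat_lit 2149) (.e (nat_lit 8192) (nat_lit 0) (.e (nat_lit 5355) (nat_lit 298) (.e (nat_lit 1661) (nat_lit 115) (.e (nat_lit 393260) (nat_lit 21) (.e (nat_lit 409617) (nat_lit 10) (.e (nat_lit 5355) (nat_lit 298) (.e (nat_lit 1179) (nat_lit 87) (.e (nat_lit 57678) (nat_lit 153) .nil)))))))) (.g (nat_lit 4) .nil .nil))) 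
(.lf (nat_lit 129584) (.g (nat_lit 2777) (.e (nat_lit 8193) (nat_lit 0) (.e (nat_lit 5355) (nat_lit 298) (.e (nat_lit 1661) (nat_lit 115) (.e (nat_lit 393260) (nat_lit 21) (.e (nat_lit 409649) (nat_lit 18) (.e (nat_lit 303114) (nat_lit 1) (.e (nat_lit 164172) (nat_lit 153) .nil))))))) (.g (nat_lit 5) .nil .nil))))) (.nd (nat_lit 4) (.nd (nat_lit 5) 
(.lf (nat_lit 129544) (.g (nat_lit 689) (.e (nat_lit 7710) (nat_lit 414) (.e (nat_lit 163920) (nat_lit 14) (.e (nat_lit 442400) (nat_lit 20) .nil))) .nil)) 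
(.lf (nat_lit 129576) (.g (nat_lit 1750) (.e (nat_lit 8193) (nat_lit 0) (.e (nat_lit 5355) (nat_lit 298) (.e (nat_lit 1661) (nat_lit 115) (.e (nat_lit 393260) (nat_lit 21) (.e (nat_lit 409648) (nat_lit 18) .nil))))) .nil))) (.nd (nat_lit 5) 
(.lf (nat_lit 129560) (.g (nat_lit 2927) (.e (nat_lit 8192) (nat_lit 0) (.e (nat_lit 5355) (nat_lit 298) (.e (nat_lit 1661) (nat_lit 115) (.e (nat_lit 393260) (nat_lit 21) (.e (nat_lit 409648) (nat_lit 18) (.e (nat_lit 303115) (nat_lit 1) (.e (nat_lit 164172) (nat_lit 153) .nil))))))) (.g (nat_lit 6) .nil .nil))) 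
(.lf (nat_lit 129592) (.g (nat_lit 1966) (.e (nat_lit 8194) (nat_lit 0) (.e (nat_lit 5355) (nat_lit 298) (.e (nat_lit 1661) (nat_lit 115) (.e (nat_lit 393260) (nat_lit 21) (.e (nat_lit 409643) (nat_lit 18) (.e (nat_lit 303115) (nat_lit 1) (.e (nat_lit 164172) (nat_lit 153) .nil))))))) (.g (nat_lit 4) .nil .nil)))))) (.nd (nat_lit 3) (.nd (nat_lit 4) (.nd (nat_lit 5) 
(.lf (nat_lit 129540) (.g (nat_lit 2665) (.e (nat_lit 7710) (nat_lit 414) (.e (nat_lit 163874) (nat_lit 3) (.e (nat_lit 204864) (nat_lit 27) (.e (nat_lit 344130) (nat_lit 26) (.e (nat_lit 557097) (nat_lit 13) (.e (nat_lit 172067) (nat_lit 3) (.e (nat_lit 204815) (nat_lit 17) (.e (nat_lit 974) (nat_lit 81) .nil)))))))) (.g (nat_lit 4) .nil .nil))) 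
(.lf (nat_lit 129572) (.g (nat_lit 1833) (.e (nat_lit 8193) (nat_lit 0) (.e (nat_lit 5355) (nat_lit 298) (.e (nat_lit 1661) (nat_lit 115) (.e (nat_lit 393260) (nat_lit 21) (.e (nat_lit 409643) (nat_lit 18) .nil))))) .nil))) (.nd (nat_lit 5) 
(.lf (nat_lit 129556) (.g (nat_lit 2476) (.e (nat_lit 8192) (nat_lit 0) (.e (nat_lit 5355) (nat_lit 298) (.e (nat_lit 1661) (nat_lit 115) (.e (nat_lit 393260) (nat_lit 21) (.e (nat_lit 409645) (nat_lit 18) .nil))))) .nil)) 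
(.lf (nat_lit 129588) (.g (nat_lit 2564) (.e (nat_lit 8193) (nat_lit 0) (.e (nat_lit 5355) (nat_lit 298) (.e (nat_lit 1661) (nat_lit 115) (.e (nat_lit 393260) (nat_lit 21) (.e (nat_lit 409649) (nat_lit 18) (.e (nat_lit 303115) (nat_lit 1) (.e (nat_lit 164174) (nat_lit 153) .nil))))))) (.g (nat_lit 5) .nil .nil))))) (.nd (nat_lit 4) (.nd (nat_lit 5) 
(.lf (nat_lit 129548) (.g (nat_lit 1069) (.e (nat_lit 7710) (nat_lit 414) (.e (nat_lit 163924) (nat_lit 15) (.e (nat_lit 450584) (nat_lit 9) (.e (nat_lit 565251) (nat_lit 0) .nil)))) .nil)) 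
(.lf (nat_lit 129580) (.g (nat_lit 2978) (.e (nat_lit 8193) (nat_lit 0) (.e (nat_lit 5355) (nat_lit 298) (.e (nat_lit 1661) (nat_lit 115) (.e (nat_lit 393260) (nat_lit 21) (.e (nat_lit 409648) (nat_lit 18) (.e (nat_lit 303115) (nat_lit 1) (.e (nat_lit 164172) (nat_lit 153) .nil))))))) (.g (nat_lit 6) .nil .nil)))) (.nd (nat_lit 5) 
(.lf (nat_lit 129564) (.g (nat_lit 2115) (.e (nat_lit 8192) (nat_lit 0) (.e (nat_lit 5355) (nat_lit 298) (.e (nat_lit 1661) (nat_lit 115) (.e (nat_lit 393260) (nat_lit 21) (.e (nat_lit 409649) (nat_lit 18) (.e (nat_lit 303114) (nat_lit 1) (.e (nat_lit 164171) (nat_lit 153) .nil))))))) (.g (nat_lit 4) .nil .nil))) 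
(.lf (nat_lit 129596) (.g (nat_lit 3528) (.e (nat_lit 8194) (nat_lit 0) (.e (nat_lit 5355) (nat_lit 298) (.e (nat_lit 1661) (nat_lit 115) (.e (nat_lit 393299) (nat_lit 27) (.e (nat_lit 491560) (nat_lit 10) (.e (nat_lit 344091) (nat_lit 18) (.e (nat_lit 7247) (nat_lit 383) .nil))))))) (.g (nat_lit 5) .nil .nil))))))) (.nd (nat_lit 2) (.nd (nat_lit 3) (.nd (nat_lit 4) (.nd (nat_lit 5) 
(.lf (nat_lit 129538) (.g (nat_lit 1606) (.e (nat_lit 7708) (nat_lit 414) (.e (nat_lit 163933) (nat_lit 17) (.e (nat_lit 466971) (nat_lit 21) (.e (nat_lit 171776) (nat_lit 125) .nil)))) .nil)) 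
(.lf (nat_lit 129570) (.g (nat_lit 719) (.e (nat_lit 8193) (nat_lit 0) (.e (nat_lit 5353) (nat_lit 298) (.e (nat_lit 1512) (nat_lit 108) (.e (nat_lit 336051) (nat_lit 6) (.e (nat_lit 147466) (nat_lit 9) .nil))))) .nil))) (.nd (nat_lit 5) 
(.lf (nat_lit 129554) (.g (nat_lit 1834) (.e (nat_lit 8192) (nat_lit 0) (.e (nat_lit 5355) (nat_lit 298) (.e (nat_lit 1661) (nat_lit 115) (.e (nat_lit 393260) (nat_lit 21) (.e (nat_lit 409643) (nat_lit 18) .nil))))) .nil)) 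
(.lf (nat_lit 129586) (.g (nat_lit 2811) (.e (nat_lit 8193) (nat_lit 0) (.e (nat_lit 5355) (nat_lit 298) (.e (nat_lit 1661) (nat_lit 115) (.e (nat_lit 393260) (nat_lit 21) (.e (nat_lit 409649) (nat_lit 18) (.e (nat_lit 303114) (nat_lit 1) (.e (nat_lit 164174) (nat_lit 153) .nil))))))) (.g (nat_lit 5) .nil .nil))))) (.nd (nat_lit 4) (.nd (nat_lit 5) 
(.lf (nat_lit 129546) (.g (nat_lit 688) (.e (nat_lit 7710) (nat_lit 414) (.e (nat_lit 163920) (nat_lit 14) (.e (nat_lit 442424) (nat_lit 22) .nil))) .nil)) 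
(.lf (nat_lit 129578) (.g (nat_lit 1806) (.e (nat_lit 8193) (nat_lit 0) (.e (nat_lit 5355) (nat_lit 298) (.e (nat_lit 1661) (nat_lit 115) (.e (nat_lit 393260) (nat_lit 21) (.e (nat_lit 409648) (nat_lit 18) (.e (nat_lit 303104) (nat_lit 0) (.e (nat_lit 2472) (nat_lit 157) (.e (nat_lit 6385) (nat_lit 338) .nil)))))))) (.g (nat_lit 4) .nil .nil)))) (.nd (nat_lit 5) 
(.lf (nat_lit 129562) (.g (nat_lit 2805) (.e (nat_lit 8192) (nat_lit 0) (.e (nat_lit 5355) (nat_lit 298) (.e (nat_lit 1661) (nat_lit 115) (.e (nat_lit 393260) (nat_lit 21) (.e (nat_lit 409649) (nat_lit 18) (.e (nat_lit 303111) (nat_lit 0) (.e (nat_lit 2449) (nat_lit 157) (.e (nat_lit 6378) (nat_lit 338) .nil)))))))) (.g (nat_lit 5) .nil .nil))) 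
(.lf (nat_lit 129594) (.g (nat_lit 2490) (.e (nat_lit 8194) (nat_lit 0) (.e (nat_lit 5355) (nat_lit 298) (.e (nat_lit 1661) (nat_lit 115) (.e (nat_lit 393260) (nat_lit 21) (.e (nat_lit 409648) (nat_lit 18) (.e (nat_lit 303114) (nat_lit 1) (.e (nat_lit 164172) (nat_lit 153) .nil))))))) (.g (nat_lit 5) .nil .nil)))))) (.nd (nat_lit 3) (.nd (nat_lit 4) (.nd (nat_lit 5) 
(.lf (nat_lit 129542) (.g (nat_lit 641) (.e (nat_lit 7710) (nat_lit 414) (.e (nat_lit 163905) (nat_lit 12) (.e (nat_lit 426294) (nat_lit 11) .nil))) .nil)) 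
(.lf (nat_lit 129574) (.g (nat_lit 2476) (.e (nat_lit 8193) (nat_lit 0) (.e (nat_lit 5355) (nat_lit 298) (.e (nat_lit 1661) (nat_lit 115) (.e (nat_lit 393260) (nat_lit 21) (.e (nat_lit 409645) (nat_lit 18) .nil))))) .nil))) (.nd (nat_lit 5) 
(.lf (nat_lit 129558) (.g (nat_lit 1851) (.e (nat_lit 8192) (nat_lit 0) (.e (nat_lit 5355) (nat_lit 298) (.e (nat_lit 1661) (nat_lit 115) (.e (nat_lit 393260) (nat_lit 21) (.e (nat_lit 409648) (nat_lit 18) (.e (nat_lit 303104) (nat_lit 0) (.e (nat_lit 2449) (nat_lit 157) (.e (nat_lit 6378) (nat_lit 338) .nil)))))))) (.g (nat_lit 4) .nil .nil))) 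
(.lf (nat_lit 129590) (.g (nat_lit 4416) (.e (nat_lit 8194) (nat_lit 0) (.e (nat_lit 5355) (nat_lit 298) (.e (nat_lit 1659) (nat_lit 115) (.e (nat_lit 393301) (nat_lit 27) (.e (nat_lit 491560) (nat_lit 10) (.e (nat_lit 344096) (nat_lit 18) (.e (nat_lit 7247) (nat_lit 383) .nil))))))) (.g (nat_lit 6) .nil .nil))))) (.nd (nat_lit 4) (.nd (nat_lit 5) 
(.lf (nat_lit 129550) (.g (nat_lit 2065) (.e (nat_lit 8192) (nat_lit 0) (.e (nat_lit 5355) (nat_lit 298) (.e (nat_lit 1661) (nat_lit 115) (.e (nat_lit 393260) (nat_lit 21) (.e (nat_lit 409617) (nat_lit 10) (.e (nat_lit 5355) (nat_lit 298) (.e (nat_lit 1178) (nat_lit 87) (.e (nat_lit 57678) (nat_lit 153) .nil)))))))) (.g (nat_lit 4) .nil .nil))) 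
(.lf (nat_lit 129582) (.g (nat_lit 1875) (.e (nat_lit 8193) (nat_lit 0) (.e (nat_lit 5355) (nat_lit 298) (.e (nat_lit 1661) (nat_lit 115) (.e (nat_lit 393260) (nat_lit 21) (.e (nat_lit 409649) (nat_lit 18) .nil))))) .nil))) (.nd (nat_lit 5) 
(.lf (nat_lit 129566) (.g (nat_lit 2871) (.e (nat_lit 8192) (nat_lit 0) (.e (nat_lit 5355) (nat_lit 298) (.e (nat_lit 1661) (nat_lit 115) (.e (nat_lit 393260) (nat_lit 21) (.e (nat_lit 409649) (nat_lit 18) (.e (nat_lit 303114) (nat_lit 1) (.e (nat_lit 164173) (nat_lit 153) .nil))))))) (.g (nat_lit 5) .nil .nil))) 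
(.lf (nat_lit 129598) (.g (nat_lit 2771) (.e (nat_lit 8195) (nat_lit 0) (.e (nat_lit 5321) (nat_lit 298) (.e (nat_lit 1659) (nat_lit 115) (.e (nat_lit 393301) (nat_lit 27) (.e (nat_lit 491558) (nat_lit 10) (.e (nat_lit 344093) (nat_lit 18) (.e (nat_lit 7251) (nat_lit 383) .nil))))))) (.g (nat_lit 5) .nil .nil)))))))) 
(.nd (nat_lit 1) (.nd (nat_lit 2) (.nd (nat_lit 3) (.nd (nat_lit 4) (.nd (nat_lit 5) 
(.lf (nat_lit 129537) (.g (nat_lit 637) (.e (nat_lit 7708) (nat_lit 414) (.e (nat_lit 163923) (nat_lit 15) (.e (nat_lit 450562) (nat_lit 0) .nil))) .nil)) 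
(.lf (nat_lit 129569) (.g (nat_lit 2663) (.e (nat_lit 8192) (nat_lit 0) (.e (nat_lit 5355) (nat_lit 298) (.e (nat_lit 1661) (nat_lit 115) (.e (nat_lit 393260) (nat_lit 21) (.e (nat_lit 409649) (nat_lit 18) (.e (nat_lit 303115) (nat_lit 1) (.e (nat_lit 164174) (nat_lit 153) .nil))))))) (.g (nat_lit 5) .nil .nil)))) (.nd (nat_lit 5) 
(.lf (nat_lit 129553) (.g (nat_lit 2933) (.e (nat_lit 8192) (nat_lit 0) (.e (nat_lit 5355) (nat_lit 298) (.e (nat_lit 1661) (nat_lit 115) (.e (nat_lit 393260) (nat_lit 21) (.e (nat_lit 409617) (nat_lit 10) (.e (nat_lit 5355) (nat_lit 298) (.e (nat_lit 1179) (nat_lit 87) (.e (nat_lit 57679) (nat_lit 153) .nil)))))))) (.g (nat_lit 5) .nil .nil))) 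
(.lf (nat_lit 129585) (.g (nat_lit 2694) (.e (nat_lit 8193) (nat_lit 0) (.e (nat_lit 5355) (nat_lit 298) (.e (nat_lit 1661) (nat_lit 115) (.e (nat_lit 393260) (nat_lit 21) (.e (nat_lit 409649) (nat_lit 18) (.e (nat_lit 303114) (nat_lit 1) (.e (nat_lit 164173) (nat_lit 153) .nil))))))) (.g (nat_lit 5) .nil .nil))))) (.nd (nat_lit 4) (.nd (nat_lit 5) 
(.lf (nat_lit 129545) (.g (nat_lit 1021) (.e (nat_lit 7710) (nat_lit 414) (.e (nat_lit 163920) (nat_lit 14) (.e (nat_lit 442411) (nat_lit 20) (.e (nat_lit 3224) (nat_lit 196) .nil)))) .nil)) 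
(.lf (nat_lit 129577) (.g (nat_lit 1760) (.e (nat_lit 8193) (nat_lit 0) (.e (nat_lit 5355) (nat_lit 298) (.e (nat_lit 1661) (nat_lit 115) (.e (nat_lit 393260) (nat_lit 21) (.e (nat_lit 409648) (nat_lit 18) (.e (nat_lit 303104) (nat_lit 0) (.e (nat_lit 2458) (nat_lit 157) (.e (nat_lit 6385) (nat_lit 338) .nil)))))))) (.g (nat_lit 4) .nil .nil)))) (.nd (nat_lit 5) 
(.lf (nat_lit 129561) (.g (nat_lit 2454) (.e (nat_lit 8192) (nat_lit 0) (.e (nat_lit 5355) (nat_lit 298) (.e (nat_lit 1661) (nat_lit 115) (.e (nat_lit 393260) (nat_lit 21) (.e (nat_lit 409648) (nat_lit 18) (.e (nat_lit 303115) (nat_lit 1) (.e (nat_lit 164173) (nat_lit 153) .nil))))))) (.g (nat_lit 5) .nil .nil))) 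
(.lf (nat_lit 129593) (.g (nat_lit 1675) (.e (nat_lit 8194) (nat_lit 0) (.e (nat_lit 5355) (nat_lit 298) (.e (nat_lit 1661) (nat_lit 115) (.e (nat_lit 393260) (nat_lit 21) (.e (nat_lit 409648) (nat_lit 18) .nil))))) .nil))))) (.nd (nat_lit 3) (.nd (nat_lit 4) (.nd (nat_lit 5) 
(.lf (nat_lit 129541) (.g (nat_lit 3089) (.e (nat_lit 7710) (nat_lit 414) (.e (nat_lit 163874) (nat_lit 3) (.e (nat_lit 204864) (nat_lit 27) (.e (nat_lit 344133) (nat_lit 26) (.e (nat_lit 557098) (nat_lit 13) (.e (nat_lit 172067) (nat_lit 3) (.e (nat_lit 204815) (nat_lit 17) (.e (nat_lit 974) (nat_lit 81) .nil)))))))) (.g (nat_lit 4) .nil .nil))) 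
(.lf (nat_lit 129573) (.g (nat_lit 2987) (.e (nat_lit 8193) (nat_lit 0) (.e (nat_lit 5355) (nat_lit 298) (.e (nat_lit 1661) (nat_lit 115) (.e (nat_lit 393260) (nat_lit 21) (.e (nat_lit 409643) (nat_lit 18) (.e (nat_lit 303112) (nat_lit 0) (.e (nat_lit 2478) (nat_lit 157) (.e (nat_lit 6387) (nat_lit 338) .nil)))))))) (.g (nat_lit 6) .nil .nil)))) (.nd (nat_lit 5) 
(.lf (nat_lit 129557) (.g (nat_lit 1750) (.e (nat_lit 8192) (nat_lit 0) (.e (nat_lit 5355) (nat_lit 298) (.e (nat_lit 1661) (nat_lit 115) (.e (nat_lit 393260) (nat_lit 21) (.e (nat_lit 409648) (nat_lit 18) .nil))))) .nil)) 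
(.lf (nat_lit 129589) (.g (nat_lit 217) (.e (nat_lit 8194) (nat_lit 0) (.e (nat_lit 5353) (nat_lit 298) (.e (nat_lit 1516) (nat_lit 108) .nil))) .nil)))) (.nd (nat_lit 4) (.nd (nat_lit 5) 
(.lf (nat_lit 129549) (.g (nat_lit 1167) (.e (nat_lit 7715) (nat_lit 415) (.e (nat_lit 229415) (nat_lit 15) (.e (nat_lit 450563) (nat_lit 0) (.e (nat_lit 7936) (nat_lit 248) .nil)))) .nil)) 
(.lf (nat_lit 129581) (.g (nat_lit 2283) (.e (nat_lit 8193) (nat_lit 0) (.e (nat_lit 5355) (nat_lit 298) (.e (nat_lit 1661) (nat_lit 115) (.e (nat_lit 393260) (nat_lit 21) (.e (nat_lit 409648) (nat_lit 18) (.e (nat_lit 303115) (nat_lit 1) (.e (nat_lit 164173) (nat_lit 153) .nil))))))) (.g (nat_lit 5) .nil .nil)))) (.nd (nat_lit 5) 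
(.lf (nat_lit 129565) (.g (nat_lit 2726) (.e (nat_lit 8192) (nat_lit 0) (.e (nat_lit 5355) (nat_lit 298) (.e (nat_lit 1661) (nat_lit 115) (.e (nat_lit 393260) (nat_lit 21) (.e (nat_lit 409649) (nat_lit 18) (.e (nat_lit 303114) (nat_lit 1) (.e (nat_lit 164172) (nat_lit 153) .nil))))))) (.g (nat_lit 5) .nil .nil))) 
(.lf (nat_lit 129597) (.g (nat_lit 2129) (.e (nat_lit 8195) (nat_lit 0) (.e (nat_lit 4203) (nat_lit 251) (.e (nat_lit 1221) (nat_lit 90) (.e (nat_lit 81956) (nat_lit 23) (.e (nat_lit 98350) (nat_lit 24) (.e (nat_lit 409616) (nat_lit 10) (.e (nat_lit 7936) (nat_lit 299) .nil))))))) (.g (nat_lit 6) .nil .nil))))))) (.nd (nat_lit 2) (.nd (nat_lit 3) (.nd (nat_lit 4) (.nd (nat_lit 5) 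
(.lf (nat_lit 129539) (.g (nat_lit 2994) (.e (nat_lit 7710) (nat_lit 414) (.e (nat_lit 163874) (nat_lit 3) (.e (nat_lit 204863) (nat_lit 27) (.e (nat_lit 344133) (nat_lit 26) (.e (nat_lit 557098) (nat_lit 13) (.e (nat_lit 172067) (nat_lit 3) (.e (nat_lit 204815) (nat_lit 17) (.e (nat_lit 974) (nat_lit 81) .nil)))))))) (.g (nat_lit 4) .nil .nil))) 
(.lf (nat_lit 129571) (.g (nat_lit 1959) (.e (nat_lit 8193) (nat_lit 0) (.e (nat_lit 5355) (nat_lit 298) (.e (nat_lit 1661) (nat_lit 115) (.e (nat_lit 393260) (nat_lit 21) (.e (nat_lit 409617) (nat_lit 10) .nil))))) .nil))) (.nd (nat_lit 5) 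
(.lf (nat_lit 129555) (.g (nat_lit 1959) (.e (nat_lit 8192) (nat_lit 0) (.e (nat_lit 5355) (nat_lit 298) (.e (nat_lit 1661) (nat_lit 115) (.e (nat_lit 393260) (nat_lit 21) (.e (nat_lit 409643) (nat_lit 18) (.e (nat_lit 303115) (nat_lit 1) (.e (nat_lit 164173) (nat_lit 153) .nil))))))) (.g (nat_lit 4) .nil .nil))) 
(.lf (nat_lit 129587) (.g (nat_lit 2440) (.e (nat_lit 8193) (nat_lit 0) (.e (nat_lit 5355) (nat_lit 298) (.e (nat_lit 1661) (nat_lit 115) (.e (nat_lit 393260) (nat_lit 21) (.e (nat_lit 409649) (nat_lit 18) (.e (nat_lit 303115) (nat_lit 1) (.e (nat_lit 164171) (nat_lit 153) .nil))))))) (.g (nat_lit 5) .nil .nil))))) (.nd (nat_lit 4) (.nd (nat_lit 5) 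
(.lf (nat_lit 129547) (.g (nat_lit 1880) (.e (nat_lit 7710) (nat_lit 414) (.e (nat_lit 163923) (nat_lit 15) (.e (nat_lit 450562) (nat_lit 0) (.e (nat_lit 4275) (nat_lit 252) .nil)))) .nil)) 
(.lf (nat_lit 129579) (.g (nat_lit 2581) (.e (nat_lit 8193) (nat_lit 0) (.e (nat_lit 5355) (nat_lit 298) (.e (nat_lit 1661) (nat_lit 115) (.e (nat_lit 393260) (nat_lit 21) (.e (nat_lit 409648) (nat_lit 18) (.e (nat_lit 303114) (nat_lit 1) (.e (nat_lit 164171) (nat_lit 153) .nil))))))) (.g (nat_lit 5) .nil .nil)))) (.nd (nat_lit 5) 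
(.lf (nat_lit 129563) (.g (nat_lit 3545) (.e (nat_lit 8192) (nat_lit 0) (.e (nat_lit 5355) (nat_lit 298) (.e (nat_lit 1661) (nat_lit 115) (.e (nat_lit 393260) (nat_lit 21) (.e (nat_lit 409649) (nat_lit 18) (.e (nat_lit 303112) (nat_lit 0) (.e (nat_lit 2478) (nat_lit 157) (.e (nat_lit 6387) (nat_lit 338) .nil)))))))) (.g (nat_lit 6) .nil .nil))) 
(.lf (nat_lit 129595) (.g (nat_lit 1801) (.e (nat_lit 8194) (nat_lit 0) (.e (nat_lit 5355) (nat_lit 298) (.e (nat_lit 1661) (nat_lit 115) (.e (nat_lit 393260) (nat_lit 21) (.e (nat_lit 409649) (nat_lit 18) .nil))))) .nil))))) (.nd (nat_lit 3) (.nd (nat_lit 4) (.nd (nat_lit 5) 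
(.lf (nat_lit 129543) (.g (nat_lit 1151) (.e (nat_lit 7710) (nat_lit 414) (.e (nat_lit 163919) (nat_lit 14) (.e (nat_lit 442381) (nat_lit 7) (.e (nat_lit 139266) (nat_lit 0) .nil)))) .nil)) 
(.lf (nat_lit 129575) (.g (nat_lit 2495) (.e (nat_lit 8193) (nat_lit 0) (.e (nat_lit 5355) (nat_lit 298) (.e (nat_lit 1661) (nat_lit 115) (.e (nat_lit 393260) (nat_lit 21) (.e (nat_lit 409645) (nat_lit 18) (.e (nat_lit 303112) (nat_lit 0) (.e (nat_lit 2478) (nat_lit 157) (.e (nat_lit 6385) (nat_lit 338) .nil)))))))) (.g (nat_lit 4) .nil .nil)))) (.nd (nat_lit 5) 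
(.lf (nat_lit 129559) (.g (nat_lit 2744) (.e (nat_lit 8192) (nat_lit 0) (.e (nat_lit 5355) (nat_lit 298) (.e (nat_lit 1661) (nat_lit 115) (.e (nat_lit 393260) (nat_lit 21) (.e (nat_lit 409648) (nat_lit 18) (.e (nat_lit 303109) (nat_lit 0) (.e (nat_lit 2478) (nat_lit 157) (.e (nat_lit 6387) (nat_lit 338) .nil)))))))) (.g (nat_lit 5) .nil .nil))) 
(.lf (nat_lit 129591) (.g (nat_lit 1411) (.e (nat_lit 8194) (nat_lit 0) (.e (nat_lit 5355) (nat_lit 298) (.e (nat_lit 1661) (nat_lit 115) (.e (nat_lit 393232) (nat_lit 17) .nil)))) .nil)))) (.nd (nat_lit 4) (.nd (nat_lit 5) 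
(.lf (nat_lit 129551) (.g (nat_lit 2227) (.e (nat_lit 8192) (nat_lit 0) (.e (nat_lit 5355) (nat_lit 298) (.e (nat_lit 1661) (nat_lit 115) (.e (nat_lit 393260) (nat_lit 21) (.e (nat_lit 409617) (nat_lit 10) (.e (nat_lit 5355) (nat_lit 298) (.e (nat_lit 1178) (nat_lit 87) (.e (nat_lit 57679) (nat_lit 153) .nil)))))))) (.g (nat_lit 4) .nil .nil))) 
(.lf (nat_lit 129583) (.g (nat_lit 2027) (.e (nat_lit 8193) (nat_lit 0) (.e (nat_lit 5355) (nat_lit 298) (.e (nat_lit 1661) (nat_lit 115) (.e (nat_lit 393260) (nat_lit 21) (.e (nat_lit 409649) (nat_lit 18) (.e (nat_lit 303111) (nat_lit 0) (.e (nat_lit 2481) (nat_lit 157) (.e (nat_lit 6385) (nat_lit 338) .nil)))))))) (.g (nat_lit 4) .nil .nil)))) (.nd (nat_lit 5) 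
(.lf (nat_lit 129567) (.g (nat_lit 2910) (.e (nat_lit 8192) (nat_lit 0) (.e (nat_lit 5355) (nat_lit 298) (.e (nat_lit 1661) (nat_lit 115) (.e (nat_lit 393260) (nat_lit 21) (.e (nat_lit 409649) (nat_lit 18) (.e (nat_lit 303114) (nat_lit 1) (.e (nat_lit 164174) (nat_lit 153) .nil))))))) (.g (nat_lit 5) .nil .nil))) 
(.lf (nat_lit 129599) (.g (nat_lit 3669) (.e (nat_lit 8195) (nat_lit 0) (.e (nat_lit 5322) (nat_lit 298) (.e (nat_lit 1659) (nat_lit 115) (.e (nat_lit 393301) (nat_lit 27) (.e (nat_lit 491560) (nat_lit 10) (.e (nat_lit 344093) (nat_lit 18) (.e (nat_lit 7251) (nat_lit 383) .nil))))))) (.g (nat_lit 5) .nil .nil)))))))))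

noncomputable def tv1730 : DT := (.nd (nat_lit 0) (.nd (nat_lit 1) (.nd (nat_lit 2) (.nd (nat_lit 3) (.nd (nat_lit 4) (.nd (nat_lit 5) 
(.lf (nat_lit 129600) (.g (nat_lit 2842) (.e (nat_lit 8195) (nat_lit 0) (.e (nat_lit 5779) (nat_lit 317) (.e (nat_lit 180273) (nat_lit 31) (.e (nat_lit 745476) (nat_lit 0) (.e (nat_lit 1586) (nat_lit 111) (.e (nat_lit 360450) (nat_lit 0) (.e (nat_lit 4132) (nat_lit 246) .nil))))))) (.g (nat_lit 6) .nil .nil))) 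
(.lf (nat_lit 129632) (.g (nat_lit 3758) (.e (nat_lit 16128) (nat_lit 7) (.e (nat_lit 286761) (nat_lit 13) (.e (nat_lit 393301) (nat_lit 27) (.e (nat_lit 491546) (nat_lit 9) (.e (nat_lit 335997) (nat_lit 1) .nil))))) .nil))) (.nd (nat_lit 5) 
(.lf (nat_lit 129616) (.g (nat_lit 2323) (.e (nat_lit 8202) (nat_lit 0) (.e (nat_lit 5293) (nat_lit 298) (.e (nat_lit 1656) (nat_lit 115) (.e (nat_lit 393301) (nat_lit 27) (.e (nat_lit 491558) (nat_lit 10) .nil))))) .nil)) 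
(.lf (nat_lit 129648) (.g (nat_lit 3361) (.e (nat_lit 16128) (nat_lit 7) (.e (nat_lit 286761) (nat_lit 13) (.e (nat_lit 393301) (nat_lit 27) (.e (nat_lit 491560) (nat_lit 10) (.e (nat_lit 344094) (nat_lit 18) .nil))))) .nil)))) (.nd (nat_lit 4) (.nd (nat_lit 5) 
(.lf (nat_lit 129608) (.g (nat_lit 2331) (.e (nat_lit 8199) (nat_lit 0) (.e (nat_lit 4214) (nat_lit 251) (.e (nat_lit 1220) (nat_lit 90) (.e (nat_lit 81956) (nat_lit 23) (.e (nat_lit 98350) (nat_lit 24) (.e (nat_lit 409616) (nat_lit 10) (.e (nat_lit 7936) (nat_lit 299) .nil))))))) (.g (nat_lit 6) .nil .nil))) 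
(.lf (nat_lit 129640) (.g (nat_lit 5125) (.e (nat_lit 16128) (nat_lit 7) (.e (nat_lit 286761) (nat_lit 13) (.e (nat_lit 393301) (nat_lit 27) (.e (nat_lit 491559) (nat_lit 10) (.e (nat_lit 344093) (nat_lit 18) .nil))))) .nil))) (.nd (nat_lit 5) 
(.lf (nat_lit 129624) (.g (nat_lit 1294) (.e (nat_lit 16128) (nat_lit 7) (.e (nat_lit 286760) (nat_lit 13) (.e (nat_lit 393301) (nat_lit 27) (.e (nat_lit 491560) (nat_lit 10) .nil)))) .nil)) 
(.lf (nat_lit 129656) (.g (nat_lit 2289) (.e (nat_lit 8210) (nat_lit 8) (.e (nat_lit 294930) (nat_lit 3) (.e (nat_lit 98373) (nat_lit 29) (.e (nat_lit 450587) (nat_lit 10) (.e (nat_lit 573475) (nat_lit 12) .nil))))) .nil))))) (.nd (nat_lit 3) (.nd (nat_lit 4) (.nd (nat_lit 5) 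
(.lf (nat_lit 129604) (.g (nat_lit 2035) (.e (nat_lit 8197) (nat_lit 0) (.e (nat_lit 4214) (nat_lit 251) (.e (nat_lit 1221) (nat_lit 90) (.e (nat_lit 81956) (nat_lit 23) (.e (nat_lit 98350) (nat_lit 24) (.e (nat_lit 409616) (nat_lit 10) (.e (nat_lit 7936) (nat_lit 299) .nil))))))) (.g (nat_lit 6) .nil .nil))) 
(.lf (nat_lit 129636) (.g (nat_lit 3676) (.e (nat_lit 16128) (nat_lit 7) (.e (nat_lit 286761) (nat_lit 13) (.e (nat_lit 393301) (nat_lit 27) (.e (nat_lit 491558) (nat_lit 10) (.e (nat_lit 344100) (nat_lit 18) .nil))))) .nil))) (.nd (nat_lit 5) 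
(.lf (nat_lit 129620) (.g (nat_lit 1351) (.e (nat_lit 8206) (nat_lit 3) (.e (nat_lit 40972) (nat_lit 9) (.e (nat_lit 232) (nat_lit 21) (.e (nat_lit 336060) (nat_lit 7) (.e (nat_lit 319534) (nat_lit 16) .nil))))) .nil)) 
(.lf (nat_lit 129652) (.g (nat_lit 1615) (.e (nat_lit 8210) (nat_lit 8) (.e (nat_lit 294928) (nat_lit 2) (.e (nat_lit 90170) (nat_lit 13) (.e (nat_lit 172113) (nat_lit 10) .nil)))) .nil)))) (.nd (nat_lit 4) (.nd (nat_lit 5) 
(.lf (nat_lit 129612) (.g (nat_lit 2374) (.e (nat_lit 8200) (nat_lit 0) (.e (nat_lit 5369) (nat_lit 298) (.e (nat_lit 1661) (nat_lit 115) (.e (nat_lit 393260) (nat_lit 21) (.e (nat_lit 409649) (nat_lit 18) .nil))))) .nil)) 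
(.lf (nat_lit 129644) (.g (nat_lit 3663) (.e (nat_lit 16128) (nat_lit 7) (.e (nat_lit 286761) (nat_lit 13) (.e (nat_lit 393301) (nat_lit 27) (.e (nat_lit 491560) (nat_lit 10) (.e (nat_lit 344087) (nat_lit 18) .nil))))) .nil))) (.nd (nat_lit 5) 
(.lf (nat_lit 129628) (.g (nat_lit 1693) (.e (nat_lit 16128) (nat_lit 7) (.e (nat_lit 286761) (nat_lit 13) (.e (nat_lit 393234) (nat_lit 17) (.e (nat_lit 7593) (nat_lit 407) (.e (nat_lit 73732) (nat_lit 0) .nil))))) .nil)) 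
(.lf (nat_lit 129660) (.g (nat_lit 4092) (.e (nat_lit 8210) (nat_lit 8) (.e (nat_lit 294931) (nat_lit 3) (.e (nat_lit 98373) (nat_lit 29) (.e (nat_lit 450587) (nat_lit 10) (.e (nat_lit 573475) (nat_lit 12) (.e (nat_lit 57344) (nat_lit 0) (.e (nat_lit 7255) (nat_lit 383) .nil))))))) (.g (nat_lit 5) .nil .nil))))))) (.nd (nat_lit 2) (.nd (nat_lit 3) (.nd (nat_lit 4) (.nd (nat_lit 5) 
(.lf (nat_lit 129602) (.g (nat_lit 2572) (.e (nat_lit 8197) (nat_lit 0) (.e (nat_lit 4194) (nat_lit 251) (.e (nat_lit 1220) (nat_lit 90) (.e (nat_lit 81956) (nat_lit 23) (.e (nat_lit 98350) (nat_lit 24) (.e (nat_lit 409616) (nat_lit 10) (.e (nat_lit 7936) (nat_lit 299) .nil))))))) (.g (nat_lit 6) .nil .nil))) 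
(.lf (nat_lit 129634) (.g (nat_lit 3549) (.e (nat_lit 16128) (nat_lit 7) (.e (nat_lit 286761) (nat_lit 13) (.e (nat_lit 393301) (nat_lit 27) (.e (nat_lit 491558) (nat_lit 10) (.e (nat_lit 344093) (nat_lit 18) .nil))))) .nil))) (.nd (nat_lit 5) 
(.lf (nat_lit 129618) (.g (nat_lit 4626) (.e (nat_lit 8202) (nat_lit 0) (.e (nat_lit 5293) (nat_lit 298) (.e (nat_lit 1656) (nat_lit 115) (.e (nat_lit 393301) (nat_lit 27) (.e (nat_lit 491560) (nat_lit 10) (.e (nat_lit 344097) (nat_lit 18) (.e (nat_lit 7253) (nat_lit 383) .nil))))))) (.g (nat_lit 7) .nil .nil))) 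
(.lf (nat_lit 129650) (.g (nat_lit 3623) (.e (nat_lit 16128) (nat_lit 7) (.e (nat_lit 286761) (nat_lit 13) (.e (nat_lit 393301) (nat_lit 27) (.e (nat_lit 491561) (nat_lit 11) .nil)))) .nil)))) (.nd (nat_lit 4) (.nd (nat_lit 5) 
(.lf (nat_lit 129610) (.g (nat_lit 3236) (.e (nat_lit 8200) (nat_lit 0) (.e (nat_lit 5369) (nat_lit 298) (.e (nat_lit 1659) (nat_lit 115) (.e (nat_lit 393301) (nat_lit 27) (.e (nat_lit 491560) (nat_lit 10) (.e (nat_lit 344099) (nat_lit 18) (.e (nat_lit 7252) (nat_lit 383) .nil))))))) (.g (nat_lit 5) .nil .nil))) 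
(.lf (nat_lit 129642) (.g (nat_lit 5139) (.e (nat_lit 16128) (nat_lit 7) (.e (nat_lit 286761) (nat_lit 13) (.e (nat_lit 393301) (nat_lit 27) (.e (nat_lit 491559) (nat_lit 10) (.e (nat_lit 344097) (nat_lit 18) .nil))))) .nil))) (.nd (nat_lit 5) 
(.lf (nat_lit 129626) (.g (nat_lit 1760) (.e (nat_lit 16128) (nat_lit 7) (.e (nat_lit 286761) (nat_lit 13) (.e (nat_lit 393234) (nat_lit 17) (.e (nat_lit 7591) (nat_lit 407) (.e (nat_lit 73733) (nat_lit 0) .nil))))) .nil)) 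
(.lf (nat_lit 129658) (.g (nat_lit 1712) (.e (nat_lit 8210) (nat_lit 8) (.e (nat_lit 294931) (nat_lit 3) (.e (nat_lit 98373) (nat_lit 29) (.e (nat_lit 458496) (nat_lit 3) .nil)))) .nil))))) (.nd (nat_lit 3) (.nd (nat_lit 4) (.nd (nat_lit 5) 
(.lf (nat_lit 129606) (.g (nat_lit 2345) (.e (nat_lit 8198) (nat_lit 0) (.e (nat_lit 4214) (nat_lit 251) (.e (nat_lit 1220) (nat_lit 90) (.e (nat_lit 81956) (nat_lit 23) (.e (nat_lit 98350) (nat_lit 24) (.e (nat_lit 409616) (nat_lit 10) (.e (nat_lit 7936) (nat_lit 299) .nil))))))) (.g (nat_lit 6) .nil .nil))) 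
(.lf (nat_lit 129638) (.g (nat_lit 5146) (.e (nat_lit 16128) (nat_lit 7) (.e (nat_lit 286761) (nat_lit 13) (.e (nat_lit 393301) (nat_lit 27) (.e (nat_lit 491559) (nat_lit 10) (.e (nat_lit 344090) (nat_lit 18) .nil))))) .nil))) (.nd (nat_lit 5) 
(.lf (nat_lit 129622) (.g (nat_lit 1845) (.e (nat_lit 8206) (nat_lit 3) (.e (nat_lit 40997) (nat_lit 11) (.e (nat_lit 24617) (nat_lit 7) (.e (nat_lit 319533) (nat_lit 16) (.e (nat_lit 286753) (nat_lit 10) .nil))))) .nil)) 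
(.lf (nat_lit 129654) (.g (nat_lit 2376) (.e (nat_lit 8210) (nat_lit 8) (.e (nat_lit 294928) (nat_lit 2) (.e (nat_lit 90170) (nat_lit 13) (.e (nat_lit 172113) (nat_lit 10) (.e (nat_lit 434248) (nat_lit 28) .nil))))) .nil)))) (.nd (nat_lit 4) (.nd (nat_lit 5) 
(.lf (nat_lit 129614) (.g (nat_lit 1976) (.e (nat_lit 8202) (nat_lit 0) (.e (nat_lit 4211) (nat_lit 251) (.e (nat_lit 1221) (nat_lit 90) (.e (nat_lit 81956) (nat_lit 23) (.e (nat_lit 98350) (nat_lit 24) (.e (nat_lit 409616) (nat_lit 10) (.e (nat_lit 7936) (nat_lit 299) .nil))))))) (.g (nat_lit 6) .nil .nil))) 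
(.lf (nat_lit 129646) (.g (nat_lit 3274) (.e (nat_lit 16128) (nat_lit 7) (.e (nat_lit 286761) (nat_lit 13) (.e (nat_lit 393301) (nat_lit 27) (.e (nat_lit 491560) (nat_lit 10) (.e (nat_lit 344091) (nat_lit 18) .nil))))) .nil))) (.nd (nat_lit 5) 
(.lf (nat_lit 129630) (.g (nat_lit 1360) (.e (nat_lit 16128) (nat_lit 7) (.e (nat_lit 286761) (nat_lit 13) (.e (nat_lit 393300) (nat_lit 27) (.e (nat_lit 491560) (nat_lit 10) .nil)))) .nil)) 
(.lf (nat_lit 129662) (.g (nat_lit 3824) (.e (nat_lit 8210) (nat_lit 8) (.e (nat_lit 294931) (nat_lit 3) (.e (nat_lit 98373) (nat_lit 29) (.e (nat_lit 450587) (nat_lit 10) (.e (nat_lit 573477) (nat_lit 12) (.e (nat_lit 57353) (nat_lit 0) (.e (nat_lit 7247) (nat_lit 383) .nil))))))) (.g (nat_lit 4) .nil .nil)))))))) 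
(.nd (nat_lit 1) (.nd (nat_lit 2) (.nd (nat_lit 3) (.nd (nat_lit 4) (.nd (nat_lit 5) 
(.lf (nat_lit 129601) (.g (nat_lit 2057) (.e (nat_lit 8196) (nat_lit 0) (.e (nat_lit 4168) (nat_lit 251) (.e (nat_lit 1221) (nat_lit 90) (.e (nat_lit 81956) (nat_lit 23) (.e (nat_lit 98350) (nat_lit 24) (.e (nat_lit 409616) (nat_lit 10) (.e (nat_lit 7936) (nat_lit 299) .nil))))))) (.g (nat_lit 6) .nil .nil))) 
(.lf (nat_lit 129633) (.g (nat_lit 2283) (.e (nat_lit 16128) (nat_lit 7) (.e (nat_lit 286761) (nat_lit 13) (.e (nat_lit 393301) (nat_lit 27) (.e (nat_lit 491558) (nat_lit 10) .nil)))) .nil))) (.nd (nat_lit 5) 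
(.lf (nat_lit 129617) (.g (nat_lit 3643) (.e (nat_lit 8202) (nat_lit 0) (.e (nat_lit 5293) (nat_lit 298) (.e (nat_lit 1656) (nat_lit 115) (.e (nat_lit 393301) (nat_lit 27) (.e (nat_lit 491560) (nat_lit 10) (.e (nat_lit 344090) (nat_lit 18) (.e (nat_lit 7247) (nat_lit 383) .nil))))))) (.g (nat_lit 5) .nil .nil))) 
(.lf (nat_lit 129649) (.g (nat_lit 3442) (.e (nat_lit 16128) (nat_lit 7) (.e (nat_lit 286761) (nat_lit 13) (.e (nat_lit 393301) (nat_lit 27) (.e (nat_lit 491560) (nat_lit 10) (.e (nat_lit 344099) (nat_lit 18) .nil))))) .nil)))) (.nd (nat_lit 4) (.nd (nat_lit 5) 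
(.lf (nat_lit 129609) (.g (nat_lit 2328) (.e (nat_lit 8200) (nat_lit 0) (.e (nat_lit 4214) (nat_lit 251) (.e (nat_lit 1220) (nat_lit 90) (.e (nat_lit 81956) (nat_lit 23) (.e (nat_lit 98350) (nat_lit 24) (.e (nat_lit 409616) (nat_lit 10) (.e (nat_lit 7936) (nat_lit 299) .nil))))))) (.g (nat_lit 6) .nil .nil))) 
(.lf (nat_lit 129641) (.g (nat_lit 5109) (.e (nat_lit 16128) (nat_lit 7) (.e (nat_lit 286761) (nat_lit 13) (.e (nat_lit 393301) (nat_lit 27) (.e (nat_lit 491559) (nat_lit 10) (.e (nat_lit 344096) (nat_lit 18) .nil))))) .nil))) (.nd (nat_lit 5) 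
(.lf (nat_lit 129625) (.g (nat_lit 1077) (.e (nat_lit 16128) (nat_lit 7) (.e (nat_lit 286761) (nat_lit 13) (.e (nat_lit 393234) (nat_lit 17) (.e (nat_lit 7591) (nat_lit 407) .nil)))) .nil)) 
(.lf (nat_lit 129657) (.g (nat_lit 4139) (.e (nat_lit 8210) (nat_lit 8) (.e (nat_lit 294930) (nat_lit 3) (.e (nat_lit 98373) (nat_lit 29) (.e (nat_lit 450588) (nat_lit 10) (.e (nat_lit 573475) (nat_lit 12) .nil))))) .nil))))) (.nd (nat_lit 3) (.nd (nat_lit 4) (.nd (nat_lit 5) 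
(.lf (nat_lit 129605) (.g (nat_lit 2418) (.e (nat_lit 8198) (nat_lit 0) (.e (nat_lit 4194) (nat_lit 251) (.e (nat_lit 1220) (nat_lit 90) (.e (nat_lit 81956) (nat_lit 23) (.e (nat_lit 98350) (nat_lit 24) (.e (nat_lit 409616) (nat_lit 10) (.e (nat_lit 7936) (nat_lit 299) .nil))))))) (.g (nat_lit 6) .nil .nil))) 
(.lf (nat_lit 129637) (.g (nat_lit 3123) (.e (nat_lit 16128) (nat_lit 7) (.e (nat_lit 286761) (nat_lit 13) (.e (nat_lit 393301) (nat_lit 27) (.e (nat_lit 491559) (nat_lit 10) .nil)))) .nil))) (.nd (nat_lit 5) 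
(.lf (nat_lit 129621) (.g (nat_lit 3375) (.e (nat_lit 8206) (nat_lit 3) (.e (nat_lit 40996) (nat_lit 11) (.e (nat_lit 24608) (nat_lit 3) (.e (nat_lit 98373) (nat_lit 29) (.e (nat_lit 450562) (nat_lit 0) .nil))))) .nil)) 
(.lf (nat_lit 129653) (.g (nat_lit 2511) (.e (nat_lit 8210) (nat_lit 8) (.e (nat_lit 294928) (nat_lit 2) (.e (nat_lit 90170) (nat_lit 13) (.e (nat_lit 172113) (nat_lit 10) (.e (nat_lit 434245) (nat_lit 28) .nil))))) .nil)))) (.nd (nat_lit 4) (.nd (nat_lit 5) 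
(.lf (nat_lit 129613) (.g (nat_lit 960) (.e (nat_lit 8201) (nat_lit 0) (.e (nat_lit 5399) (nat_lit 302) (.e (nat_lit 65653) (nat_lit 27) (.e (nat_lit 426343) (nat_lit 14) (.e (nat_lit 491560) (nat_lit 10) .nil))))) .nil)) 
(.lf (nat_lit 129645) (.g (nat_lit 3287) (.e (nat_lit 16128) (nat_lit 7) (.e (nat_lit 286761) (nat_lit 13) (.e (nat_lit 393301) (nat_lit 27) (.e (nat_lit 491560) (nat_lit 10) (.e (nat_lit 344089) (nat_lit 18) .nil))))) .nil))) (.nd (nat_lit 5) 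
(.lf (nat_lit 129629) (.g (nat_lit 771) (.e (nat_lit 16128) (nat_lit 7) (.e (nat_lit 286761) (nat_lit 13) (.e (nat_lit 393265) (nat_lit 22) (.e (nat_lit 417820) (nat_lit 10) .nil)))) .nil)) 
(.lf (nat_lit 129661) (.g (nat_lit 4434) (.e (nat_lit 8210) (nat_lit 8) (.e (nat_lit 294931) (nat_lit 3) (.e (nat_lit 98373) (nat_lit 29) (.e (nat_lit 450587) (nat_lit 10) (.e (nat_lit 573475) (nat_lit 12) (.e (nat_lit 57354) (nat_lit 0) (.e (nat_lit 7254) (nat_lit 383) .nil))))))) (.g (nat_lit 6) .nil .nil))))))) (.nd (nat_lit 2) (.nd (nat_lit 3) (.nd (nat_lit 4) (.nd (nat_lit 5) 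
(.lf (nat_lit 129603) (.g (nat_lit 2446) (.e (nat_lit 8197) (nat_lit 0) (.e (nat_lit 4214) (nat_lit 251) (.e (nat_lit 1220) (nat_lit 90) (.e (nat_lit 81956) (nat_lit 23) (.e (nat_lit 98350) (nat_lit 24) (.e (nat_lit 409616) (nat_lit 10) (.e (nat_lit 7936) (nat_lit 299) .nil))))))) (.g (nat_lit 6) .nil .nil))) 
(.lf (nat_lit 129635) (.g (nat_lit 3165) (.e (nat_lit 16128) (nat_lit 7) (.e (nat_lit 286761) (nat_lit 13) (.e (nat_lit 393301) (nat_lit 27) (.e (nat_lit 491558) (nat_lit 10) (.e (nat_lit 344097) (nat_lit 18) .nil))))) .nil))) (.nd (nat_lit 5) 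
(.lf (nat_lit 129619) (.g (nat_lit 4641) (.e (nat_lit 8202) (nat_lit 0) (.e (nat_lit 5293) (nat_lit 298) (.e (nat_lit 1656) (nat_lit 115) (.e (nat_lit 393301) (nat_lit 27) (.e (nat_lit 491560) (nat_lit 10) (.e (nat_lit 344097) (nat_lit 18) (.e (nat_lit 7255) (nat_lit 383) .nil))))))) (.g (nat_lit 7) .nil .nil))) 
(.lf (nat_lit 129651) (.g (nat_lit 1658) (.e (nat_lit 8210) (nat_lit 8) (.e (nat_lit 294927) (nat_lit 2) (.e (nat_lit 90170) (nat_lit 13) (.e (nat_lit 172113) (nat_lit 10) (.e (nat_lit 434245) (nat_lit 28) .nil))))) .nil)))) (.nd (nat_lit 4) (.nd (nat_lit 5) 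
(.lf (nat_lit 129611) (.g (nat_lit 2371) (.e (nat_lit 8200) (nat_lit 0) (.e (nat_lit 5369) (nat_lit 298) (.e (nat_lit 1661) (nat_lit 115) (.e (nat_lit 393260) (nat_lit 21) (.e (nat_lit 409648) (nat_lit 18) .nil))))) .nil)) 
(.lf (nat_lit 129643) (.g (nat_lit 5132) (.e (nat_lit 16128) (nat_lit 7) (.e (nat_lit 286761) (nat_lit 13) (.e (nat_lit 393301) (nat_lit 27) (.e (nat_lit 491559) (nat_lit 10) (.e (nat_lit 344098) (nat_lit 18) .nil))))) .nil))) (.nd (nat_lit 5) 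
(.lf (nat_lit 129627) (.g (nat_lit 1110) (.e (nat_lit 16128) (nat_lit 7) (.e (nat_lit 286761) (nat_lit 13) (.e (nat_lit 393234) (nat_lit 17) (.e (nat_lit 7593) (nat_lit 407) .nil)))) .nil)) 
(.lf (nat_lit 129659) (.g (nat_lit 2498) (.e (nat_lit 8210) (nat_lit 8) (.e (nat_lit 294931) (nat_lit 3) (.e (nat_lit 98373) (nat_lit 29) (.e (nat_lit 450587) (nat_lit 10) (.e (nat_lit 573475) (nat_lit 12) .nil))))) .nil))))) (.nd (nat_lit 3) (.nd (nat_lit 4) (.nd (nat_lit 5) 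
(.lf (nat_lit 129607) (.g (nat_lit 1360) (.e (nat_lit 8198) (nat_lit 0) (.e (nat_lit 5939) (nat_lit 322) (.e (nat_lit 57379) (nat_lit 3) (.e (nat_lit 98356) (nat_lit 26) .nil)))) .nil)) 
(.lf (nat_lit 129639) (.g (nat_lit 4580) (.e (nat_lit 16128) (nat_lit 7) (.e (nat_lit 286761) (nat_lit 13) (.e (nat_lit 393301) (nat_lit 27) (.e (nat_lit 491559) (nat_lit 10) (.e (nat_lit 344091) (nat_lit 18) .nil))))) .nil))) (.nd (nat_lit 5) 
(.lf (nat_lit 129623) (.g (nat_lit 1837) (.e (nat_lit 8207) (nat_lit 4) (.e (nat_lit 49189) (nat_lit 11) (.e (nat_lit 16425) (nat_lit 7) (.e (nat_lit 409648) (nat_lit 18) (.e (nat_lit 303137) (nat_lit 10) .nil))))) .nil)) 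
(.lf (nat_lit 129655) (.g (nat_lit 627) (.e (nat_lit 8210) (nat_lit 8) (.e (nat_lit 294928) (nat_lit 2) (.e (nat_lit 90185) (nat_lit 17) .nil))) .nil)))) (.nd (nat_lit 4) (.nd (nat_lit 5) 
(.lf (nat_lit 129615) (.g (nat_lit 1998) (.e (nat_lit 8202) (nat_lit 0) (.e (nat_lit 5293) (nat_lit 298) (.e (nat_lit 1656) (nat_lit 115) (.e (nat_lit 393300) (nat_lit 27) (.e (nat_lit 491546) (nat_lit 9) .nil))))) .nil)) 
(.lf (nat_lit 129647) (.g (nat_lit 4068) (.e (nat_lit 16128) (nat_lit 7) (.e (nat_lit 286761) (nat_lit 13) (.e (nat_lit 393301) (nat_lit 27) (.e (nat_lit 491560) (nat_lit 10) (.e (nat_lit 344093) (nat_lit 18) .nil))))) .nil))) (.nd (nat_lit 5) 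
(.lf (nat_lit 129631) (.g (nat_lit 4062) (.e (nat_lit 16128) (nat_lit 7) (.e (nat_lit 286761) (nat_lit 13) (.e (nat_lit 393301) (nat_lit 27) (.e (nat_lit 491544) (nat_lit 7) .nil)))) .nil)) 
(.lf (nat_lit 129663) (.g (nat_lit 3720) (.e (nat_lit 8210) (nat_lit 8) (.e (nat_lit 294931) (nat_lit 3) (.e (nat_lit 98373) (nat_lit 29) (.e (nat_lit 450587) (nat_lit 10) (.e (nat_lit 573477) (nat_lit 12) (.e (nat_lit 57357) (nat_lit 0) (.e (nat_lit 7255) (nat_lit 383) .nil))))))) (.g (nat_lit 4) .nil .nil)))))))))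

noncomputable def tv1731 : DT := (.nd (nat_lit 0) (.nd (nat_lit 1) (.nd (nat_lit 2) (.nd (nat_lit 3) (.nd (nat_lit 4) (.nd (nat_lit 5) (.nd (nat_lit 6) 
(.lf (nat_lit 129664) (.g (nat_lit 3501) (.e (nat_lit 8210) (nat_lit 8) (.e (nat_lit 294931) (nat_lit 3) (.e (nat_lit 98373) (nat_lit 29) (.e (nat_lit 450587) (nat_lit 10) (.e (nat_lit 573478) (nat_lit 12) .nil))))) .nil)) 
(.lf (nat_lit 129728) (.g (nat_lit 1076) (.e (nat_lit 16128) (nat_lit 8) (.e (nat_lit 294958) (nat_lit 13) (.e (nat_lit 393301) (nat_lit 27) (.e (nat_lit 491559) (nat_lit 10) .nil)))) .nil))) (.nd (nat_lit 6) 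
(.lf (nat_lit 129696) (.g (nat_lit 3781) (.e (nat_lit 8210) (nat_lit 8) (.e (nat_lit 294958) (nat_lit 13) (.e (nat_lit 393301) (nat_lit 27) (.e (nat_lit 491560) (nat_lit 10) (.e (nat_lit 344097) (nat_lit 18) (.e (nat_lit 7252) (nat_lit 383) .nil)))))) (.g (nat_lit 5) .nil .nil))) 
(.lf (nat_lit 129760) (.g (nat_lit 2463) (.e (nat_lit 8223) (nat_lit 14) (.e (nat_lit 524322) (nat_lit 12) (.e (nat_lit 450588) (nat_lit 10) (.e (nat_lit 573475) (nat_lit 12) .nil)))) .nil)))) (.nd (nat_lit 5) (.nd (nat_lit 6) 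
(.lf (nat_lit 129680) (.g (nat_lit 3605) (.e (nat_lit 8210) (nat_lit 8) (.e (nat_lit 294958) (nat_lit 13) (.e (nat_lit 393301) (nat_lit 27) (.e (nat_lit 491558) (nat_lit 10) (.e (nat_lit 344091) (nat_lit 18) (.e (nat_lit 7247) (nat_lit 383) .nil)))))) (.g (nat_lit 5) .nil .nil))) 
(.lf (nat_lit 129744) (.g (nat_lit 1709) (.e (nat_lit 8213) (nat_lit 9) (.e (nat_lit 303143) (nat_lit 12) (.e (nat_lit 475211) (nat_lit 41) (.e (nat_lit 712753) (nat_lit 30) .nil)))) .nil))) (.nd (nat_lit 6) 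
(.lf (nat_lit 129712) (.g (nat_lit 956) (.e (nat_lit 8210) (nat_lit 8) (.e (nat_lit 294960) (nat_lit 13) (.e (nat_lit 393238) (nat_lit 17) (.e (nat_lit 7936) (nat_lit 407) .nil)))) .nil)) 
(.lf (nat_lit 129776) (.g (nat_lit 4286) (.e (nat_lit 8226) (nat_lit 15) (.e (nat_lit 532499) (nat_lit 1) (.e (nat_lit 57847) (nat_lit 252) (.e (nat_lit 57407) (nat_lit 12) (.e (nat_lit 336456) (nat_lit 34) (.e (nat_lit 483346) (nat_lit 17) (.e (nat_lit 6506) (nat_lit 344) .nil))))))) (.g (nat_lit 5) .nil .nil)))))) (.nd (nat_lit 4) (.nd (nat_lit 5) (.nd (nat_lit 6) 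
(.lf (nat_lit 129672) (.g (nat_lit 749) (.e (nat_lit 8210) (nat_lit 8) (.e (nat_lit 294941) (nat_lit 9) (.e (nat_lit 336421) (nat_lit 28) (.e (nat_lit 442112) (nat_lit 5) .nil)))) .nil)) 
(.lf (nat_lit 129736) (.g (nat_lit 2189) (.e (nat_lit 8211) (nat_lit 9) (.e (nat_lit 303143) (nat_lit 12) (.e (nat_lit 475199) (nat_lit 40) (.e (nat_lit 704598) (nat_lit 6) (.e (nat_lit 188455) (nat_lit 24) (.e (nat_lit 237312) (nat_lit 255) .nil)))))) (.g (nat_lit 5) .nil .nil)))) (.nd (nat_lit 6) 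
(.lf (nat_lit 129704) (.g (nat_lit 2266) (.e (nat_lit 8210) (nat_lit 8) (.e (nat_lit 294959) (nat_lit 13) (.e (nat_lit 393260) (nat_lit 21) (.e (nat_lit 409646) (nat_lit 18) (.e (nat_lit 303115) (nat_lit 1) (.e (nat_lit 164175) (nat_lit 153) .nil)))))) (.g (nat_lit 0) .nil .nil))) 
(.lf (nat_lit 129768) (.g (nat_lit 4042) (.e (nat_lit 8226) (nat_lit 15) (.e (nat_lit 532481) (nat_lit 0) (.e (nat_lit 2031) (nat_lit 140) (.e (nat_lit 688177) (nat_lit 16) (.e (nat_lit 65569) (nat_lit 3) (.e (nat_lit 98367) (nat_lit 27) (.e (nat_lit 442112) (nat_lit 1) .nil))))))) (.g (nat_lit 6) .nil .nil))))) (.nd (nat_lit 5) (.nd (nat_lit 6) 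
(.lf (nat_lit 129688) (.g (nat_lit 3772) (.e (nat_lit 8210) (nat_lit 8) (.e (nat_lit 294958) (nat_lit 13) (.e (nat_lit 393301) (nat_lit 27) (.e (nat_lit 491559) (nat_lit 10) (.e (nat_lit 344090) (nat_lit 18) (.e (nat_lit 7247) (nat_lit 383) .nil)))))) (.g (nat_lit 5) .nil .nil))) 
(.lf (nat_lit 129752) (.g (nat_lit 2578) (.e (nat_lit 8213) (nat_lit 9) (.e (nat_lit 303145) (nat_lit 13) (.e (nat_lit 483346) (nat_lit 17) (.e (nat_lit 6724) (nat_lit 362) (.e (nat_lit 180226) (nat_lit 0) .nil))))) .nil))) (.nd (nat_lit 6) 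
(.lf (nat_lit 129720) (.g (nat_lit 1500) (.e (nat_lit 8210) (nat_lit 8) (.e (nat_lit 294960) (nat_lit 13) (.e (nat_lit 393260) (nat_lit 21) (.e (nat_lit 409646) (nat_lit 18) (.e (nat_lit 303115) (nat_lit 1) .nil))))) .nil)) 
(.lf (nat_lit 129784) (.g (nat_lit 2668) (.e (nat_lit 8226) (nat_lit 15) (.e (nat_lit 532534) (nat_lit 9) (.e (nat_lit 336019) (nat_lit 3) (.e (nat_lit 98342) (nat_lit 20) (.e (nat_lit 221211) (nat_lit 22) (.e (nat_lit 196697) (nat_lit 19) (.e (nat_lit 57893) (nat_lit 271) .nil))))))) (.g (nat_lit 4) .nil .nil))))))) (.nd (nat_lit 3) (.nd (nat_lit 4) (.nd (nat_lit 5) (.nd (nat_lit 6) 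
(.lf (nat_lit 129668) (.g (nat_lit 3941) (.e (nat_lit 8210) (nat_lit 8) (.e (nat_lit 294931) (nat_lit 3) (.e (nat_lit 98373) (nat_lit 29) (.e (nat_lit 450588) (nat_lit 10) (.e (nat_lit 573475) (nat_lit 12) .nil))))) .nil)) 
(.lf (nat_lit 129732) (.g (nat_lit 2595) (.e (nat_lit 8211) (nat_lit 9) (.e (nat_lit 303117) (nat_lit 2) (.e (nat_lit 196666) (nat_lit 13) (.e (nat_lit 65610) (nat_lit 10) .nil)))) .nil))) (.nd (nat_lit 6) 
(.lf (nat_lit 129700) (.g (nat_lit 959) (.e (nat_lit 8210) (nat_lit 8) (.e (nat_lit 294959) (nat_lit 13) (.e (nat_lit 393260) (nat_lit 21) (.e (nat_lit 409644) (nat_lit 18) .nil)))) .nil)) 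
(.lf (nat_lit 129764) (.g (nat_lit 469) (.e (nat_lit 8226) (nat_lit 15) (.e (nat_lit 532481) (nat_lit 0) (.e (nat_lit 2031) (nat_lit 140) .nil))) .nil)))) (.nd (nat_lit 5) (.nd (nat_lit 6) 
(.lf (nat_lit 129684) (.g (nat_lit 2855) (.e (nat_lit 8210) (nat_lit 8) (.e (nat_lit 294958) (nat_lit 13) (.e (nat_lit 393301) (nat_lit 27) (.e (nat_lit 491558) (nat_lit 10) (.e (nat_lit 344097) (nat_lit 18) (.e (nat_lit 7249) (nat_lit 383) .nil)))))) (.g (nat_lit 4) .nil .nil))) 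
(.lf (nat_lit 129748) (.g (nat_lit 2518) (.e (nat_lit 8213) (nat_lit 9) (.e (nat_lit 303145) (nat_lit 13) (.e (nat_lit 483346) (nat_lit 17) (.e (nat_lit 6722) (nat_lit 362) (.e (nat_lit 180225) (nat_lit 0) .nil))))) .nil))) (.nd (nat_lit 6) 
(.lf (nat_lit 129716) (.g (nat_lit 711) (.e (nat_lit 8210) (nat_lit 8) (.e (nat_lit 294960) (nat_lit 13) (.e (nat_lit 393260) (nat_lit 21) (.e (nat_lit 417536) (nat_lit 16) .nil)))) .nil)) 
(.lf (nat_lit 129780) (.g (nat_lit 2486) (.e (nat_lit 8226) (nat_lit 15) (.e (nat_lit 532500) (nat_lit 1) (.e (nat_lit 57851) (nat_lit 252) (.e (nat_lit 57406) (nat_lit 12) (.e (nat_lit 336456) (nat_lit 34) .nil))))) .nil))))) (.nd (nat_lit 4) (.nd (nat_lit 5) (.nd (nat_lit 6) 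
(.lf (nat_lit 129676) (.g (nat_lit 2715) (.e (nat_lit 8210) (nat_lit 8) (.e (nat_lit 294958) (nat_lit 13) (.e (nat_lit 393301) (nat_lit 27) (.e (nat_lit 491546) (nat_lit 9) (.e (nat_lit 335997) (nat_lit 1) (.e (nat_lit 57676) (nat_lit 153) .nil)))))) (.g (nat_lit 4) .nil .nil))) 
(.lf (nat_lit 129740) (.g (nat_lit 1931) (.e (nat_lit 8213) (nat_lit 9) (.e (nat_lit 303133) (nat_lit 9) (.e (nat_lit 426412) (nat_lit 15) (.e (nat_lit 2160) (nat_lit 143) .nil)))) .nil))) (.nd (nat_lit 6) 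
(.lf (nat_lit 129708) (.g (nat_lit 2098) (.e (nat_lit 8210) (nat_lit 8) (.e (nat_lit 294959) (nat_lit 13) (.e (nat_lit 393260) (nat_lit 21) (.e (nat_lit 409648) (nat_lit 18) (.e (nat_lit 303115) (nat_lit 1) (.e (nat_lit 164175) (nat_lit 153) .nil)))))) (.g (nat_lit 0) .nil .nil))) 
(.lf (nat_lit 129772) (.g (nat_lit 3087) (.e (nat_lit 8226) (nat_lit 15) (.e (nat_lit 532484) (nat_lit 0) (.e (nat_lit 2031) (nat_lit 140) (.e (nat_lit 688177) (nat_lit 16) (.e (nat_lit 65566) (nat_lit 2) (.e (nat_lit 90172) (nat_lit 14) (.e (nat_lit 188160) (nat_lit 33) .nil))))))) (.g (nat_lit 6) .nil .nil))))) (.nd (nat_lit 5) (.nd (nat_lit 6) 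
(.lf (nat_lit 129692) (.g (nat_lit 2953) (.e (nat_lit 8210) (nat_lit 8) (.e (nat_lit 294958) (nat_lit 13) (.e (nat_lit 393301) (nat_lit 27) (.e (nat_lit 491560) (nat_lit 10) (.e (nat_lit 344087) (nat_lit 18) .nil))))) .nil)) 
(.lf (nat_lit 129756) (.g (nat_lit 608) (.e (nat_lit 16128) (nat_lit 13) (.e (nat_lit 516151) (nat_lit 9) (.e (nat_lit 426211) (nat_lit 9) (.e (nat_lit 426125) (nat_lit 2) .nil)))) .nil))) (.nd (nat_lit 6) 
(.lf (nat_lit 129724) (.g (nat_lit 1710) (.e (nat_lit 8210) (nat_lit 8) (.e (nat_lit 294960) (nat_lit 13) (.e (nat_lit 393260) (nat_lit 21) (.e (nat_lit 409649) (nat_lit 18) (.e (nat_lit 303115) (nat_lit 1) .nil))))) .nil)) 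
(.lf (nat_lit 129788) (.g (nat_lit 3435) (.e (nat_lit 8226) (nat_lit 15) (.e (nat_lit 532563) (nat_lit 15) (.e (nat_lit 385066) (nat_lit 26) (.e (nat_lit 532543) (nat_lit 10) (.e (nat_lit 344129) (nat_lit 26) (.e (nat_lit 557090) (nat_lit 12) (.e (nat_lit 171776) (nat_lit 188) .nil))))))) (.g (nat_lit 5) .nil .nil)))))))) 
(.nd (nat_lit 2) (.nd (nat_lit 3) (.nd (nat_lit 4) (.nd (nat_lit 5) (.nd (nat_lit 6) 
(.lf (nat_lit 129666) (.g (nat_lit 4199) (.e (nat_lit 8210) (nat_lit 8) (.e (nat_lit 294931) (nat_lit 3) (.e (nat_lit 98373) (nat_lit 29) (.e (nat_lit 450588) (nat_lit 10) (.e (nat_lit 573473) (nat_lit 12) .nil))))) .nil)) 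
(.lf (nat_lit 129730) (.g (nat_lit 2709) (.e (nat_lit 16128) (nat_lit 8) (.e (nat_lit 294958) (nat_lit 13) (.e (nat_lit 393301) (nat_lit 27) (.e (nat_lit 491560) (nat_lit 10) (.e (nat_lit 344094) (nat_lit 18) .nil))))) .nil))) (.nd (nat_lit 6) 
(.lf (nat_lit 129698) (.g (nat_lit 2561) (.e (nat_lit 8210) (nat_lit 8) (.e (nat_lit 294958) (nat_lit 13) (.e (nat_lit 393301) (nat_lit 27) (.e (nat_lit 491560) (nat_lit 10) (.e (nat_lit 344099) (nat_lit 18) (.e (nat_lit 7253) (nat_lit 383) .nil)))))) (.g (nat_lit 4) .nil .nil))) 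
(.lf (nat_lit 129762) (.g (nat_lit 2914) (.e (nat_lit 8225) (nat_lit 15) (.e (nat_lit 532504) (nat_lit 1) (.e (nat_lit 57851) (nat_lit 252) (.e (nat_lit 57406) (nat_lit 12) (.e (nat_lit 336456) (nat_lit 34) (.e (nat_lit 483346) (nat_lit 17) (.e (nat_lit 6506) (nat_lit 344) .nil))))))) (.g (nat_lit 4) .nil .nil))))) (.nd (nat_lit 5) (.nd (nat_lit 6) 
(.lf (nat_lit 129682) (.g (nat_lit 3127) (.e (nat_lit 8210) (nat_lit 8) (.e (nat_lit 294958) (nat_lit 13) (.e (nat_lit 393301) (nat_lit 27) (.e (nat_lit 491558) (nat_lit 10) (.e (nat_lit 344093) (nat_lit 18) (.e (nat_lit 7250) (nat_lit 383) .nil)))))) (.g (nat_lit 4) .nil .nil))) 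
(.lf (nat_lit 129746) (.g (nat_lit 1234) (.e (nat_lit 8213) (nat_lit 9) (.e (nat_lit 303143) (nat_lit 12) (.e (nat_lit 475211) (nat_lit 41) (.e (nat_lit 712755) (nat_lit 30) .nil)))) .nil))) (.nd (nat_lit 6) 
(.lf (nat_lit 129714) (.g (nat_lit 311) (.e (nat_lit 8210) (nat_lit 8) (.e (nat_lit 294960) (nat_lit 13) (.e (nat_lit 393260) (nat_lit 21) .nil))) .nil)) 
(.lf (nat_lit 129778) (.g (nat_lit 3592) (.e (nat_lit 8226) (nat_lit 15) (.e (nat_lit 532499) (nat_lit 1) (.e (nat_lit 57847) (nat_lit 252) (.e (nat_lit 57411) (nat_lit 12) (.e (nat_lit 336456) (nat_lit 34) (.e (nat_lit 483346) (nat_lit 17) (.e (nat_lit 6506) (nat_lit 344) .nil))))))) (.g (nat_lit 5) .nil .nil)))))) (.nd (nat_lit 4) (.nd (nat_lit 5) (.nd (nat_lit 6) 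
(.lf (nat_lit 129674) (.g (nat_lit 2471) (.e (nat_lit 8210) (nat_lit 8) (.e (nat_lit 294957) (nat_lit 13) (.e (nat_lit 393301) (nat_lit 27) (.e (nat_lit 491560) (nat_lit 10) (.e (nat_lit 344099) (nat_lit 18) .nil))))) .nil)) 
(.lf (nat_lit 129738) (.g (nat_lit 6502) (.e (nat_lit 8213) (nat_lit 9) (.e (nat_lit 303119) (nat_lit 3) (.e (nat_lit 204869) (nat_lit 29) (.e (nat_lit 360474) (nat_lit 8) (.e (nat_lit 557091) (nat_lit 12) .nil))))) .nil))) (.nd (nat_lit 6) 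
(.lf (nat_lit 129706) (.g (nat_lit 1471) (.e (nat_lit 8210) (nat_lit 8) (.e (nat_lit 294959) (nat_lit 13) (.e (nat_lit 393260) (nat_lit 21) (.e (nat_lit 409648) (nat_lit 18) (.e (nat_lit 303114) (nat_lit 1) (.e (nat_lit 164174) (nat_lit 153) .nil)))))) (.g (nat_lit 4) .nil .nil))) 
(.lf (nat_lit 129770) (.g (nat_lit 1087) (.e (nat_lit 8226) (nat_lit 15) (.e (nat_lit 532481) (nat_lit 0) (.e (nat_lit 2031) (nat_lit 140) (.e (nat_lit 688178) (nat_lit 16) .nil)))) .nil)))) (.nd (nat_lit 5) (.nd (nat_lit 6) 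
(.lf (nat_lit 129690) (.g (nat_lit 3230) (.e (nat_lit 8210) (nat_lit 8) (.e (nat_lit 294958) (nat_lit 13) (.e (nat_lit 393301) (nat_lit 27) (.e (nat_lit 491559) (nat_lit 10) (.e (nat_lit 344093) (nat_lit 18) .nil))))) .nil)) 
(.lf (nat_lit 129754) (.g (nat_lit 1952) (.e (nat_lit 8213) (nat_lit 9) (.e (nat_lit 303147) (nat_lit 15) (.e (nat_lit 1858) (nat_lit 124) (.e (nat_lit 557100) (nat_lit 13) .nil)))) .nil))) (.nd (nat_lit 6) 
(.lf (nat_lit 129722) (.g (nat_lit 1782) (.e (nat_lit 8210) (nat_lit 8) (.e (nat_lit 294960) (nat_lit 13) (.e (nat_lit 393260) (nat_lit 21) (.e (nat_lit 409648) (nat_lit 18) (.e (nat_lit 303114) (nat_lit 1) (.e (nat_lit 164174) (nat_lit 153) .nil)))))) (.g (nat_lit 4) .nil .nil))) 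
(.lf (nat_lit 129786) (.g (nat_lit 3863) (.e (nat_lit 8226) (nat_lit 15) (.e (nat_lit 532534) (nat_lit 9) (.e (nat_lit 336019) (nat_lit 3) (.e (nat_lit 98342) (nat_lit 20) (.e (nat_lit 221212) (nat_lit 22) (.e (nat_lit 204544) (nat_lit 19) (.e (nat_lit 57893) (nat_lit 271) .nil))))))) (.g (nat_lit 5) .nil .nil))))))) (.nd (nat_lit 3) (.nd (nat_lit 4) (.nd (nat_lit 5) (.nd (nat_lit 6) 
(.lf (nat_lit 129670) (.g (nat_lit 4176) (.e (nat_lit 8210) (nat_lit 8) (.e (nat_lit 294931) (nat_lit 3) (.e (nat_lit 98373) (nat_lit 29) (.e (nat_lit 450588) (nat_lit 10) (.e (nat_lit 573475) (nat_lit 12) (.e (nat_lit 57356) (nat_lit 0) (.e (nat_lit 7253) (nat_lit 383) .nil))))))) (.g (nat_lit 4) .nil .nil))) 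
(.lf (nat_lit 129734) (.g (nat_lit 3797) (.e (nat_lit 8211) (nat_lit 9) (.e (nat_lit 303119) (nat_lit 3) (.e (nat_lit 204868) (nat_lit 29) (.e (nat_lit 360466) (nat_lit 3) (.e (nat_lit 516117) (nat_lit 1) .nil))))) .nil))) (.nd (nat_lit 6) 
(.lf (nat_lit 129702) (.g (nat_lit 2460) (.e (nat_lit 8210) (nat_lit 8) (.e (nat_lit 294959) (nat_lit 13) (.e (nat_lit 393260) (nat_lit 21) (.e (nat_lit 409646) (nat_lit 18) (.e (nat_lit 303112) (nat_lit 0) (.e (nat_lit 2478) (nat_lit 157) (.e (nat_lit 6387) (nat_lit 338) .nil))))))) (.g (nat_lit 5) .nil .nil))) 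
(.lf (nat_lit 129766) (.g (nat_lit 4128) (.e (nat_lit 8226) (nat_lit 15) (.e (nat_lit 532481) (nat_lit 0) (.e (nat_lit 2031) (nat_lit 140) (.e (nat_lit 688177) (nat_lit 16) (.e (nat_lit 65568) (nat_lit 2) (.e (nat_lit 90172) (nat_lit 14) (.e (nat_lit 188160) (nat_lit 33) .nil))))))) (.g (nat_lit 6) .nil .nil))))) (.nd (nat_lit 5) (.nd (nat_lit 6) 
(.lf (nat_lit 129686) (.g (nat_lit 4030) (.e (nat_lit 8210) (nat_lit 8) (.e (nat_lit 294958) (nat_lit 13) (.e (nat_lit 393301) (nat_lit 27) (.e (nat_lit 491558) (nat_lit 10) (.e (nat_lit 344097) (nat_lit 18) (.e (nat_lit 7254) (nat_lit 383) .nil)))))) (.g (nat_lit 6) .nil .nil))) 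
(.lf (nat_lit 129750) (.g (nat_lit 2366) (.e (nat_lit 8213) (nat_lit 9) (.e (nat_lit 303145) (nat_lit 13) (.e (nat_lit 483346) (nat_lit 17) (.e (nat_lit 6722) (nat_lit 362) (.e (nat_lit 180227) (nat_lit 0) .nil))))) .nil))) (.nd (nat_lit 6) 
(.lf (nat_lit 129718) (.g (nat_lit 1535) (.e (nat_lit 8210) (nat_lit 8) (.e (nat_lit 294960) (nat_lit 13) (.e (nat_lit 393260) (nat_lit 21) (.e (nat_lit 409645) (nat_lit 18) (.e (nat_lit 303115) (nat_lit 1) .nil))))) .nil)) 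
(.lf (nat_lit 129782) (.g (nat_lit 1933) (.e (nat_lit 8226) (nat_lit 15) (.e (nat_lit 532513) (nat_lit 3) (.e (nat_lit 114714) (nat_lit 22) (.e (nat_lit 90172) (nat_lit 14) (.e (nat_lit 188160) (nat_lit 3) .nil))))) .nil))))) (.nd (nat_lit 4) (.nd (nat_lit 5) (.nd (nat_lit 6) 
(.lf (nat_lit 129678) (.g (nat_lit 1621) (.e (nat_lit 8210) (nat_lit 8) (.e (nat_lit 294958) (nat_lit 13) (.e (nat_lit 393301) (nat_lit 27) (.e (nat_lit 491558) (nat_lit 10) .nil)))) .nil)) 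
(.lf (nat_lit 129742) (.g (nat_lit 1235) (.e (nat_lit 8213) (nat_lit 9) (.e (nat_lit 303137) (nat_lit 10) (.e (nat_lit 434272) (nat_lit 38) (.e (nat_lit 655367) (nat_lit 0) .nil)))) .nil))) (.nd (nat_lit 6) 
(.lf (nat_lit 129710) (.g (nat_lit 2061) (.e (nat_lit 8210) (nat_lit 8) (.e (nat_lit 294959) (nat_lit 13) (.e (nat_lit 393260) (nat_lit 21) (.e (nat_lit 409649) (nat_lit 18) (.e (nat_lit 303115) (nat_lit 1) (.e (nat_lit 164175) (nat_lit 153) .nil)))))) (.g (nat_lit 0) .nil .nil))) 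
(.lf (nat_lit 129774) (.g (nat_lit 588) (.e (nat_lit 8226) (nat_lit 15) (.e (nat_lit 532499) (nat_lit 1) (.e (nat_lit 57847) (nat_lit 252) .nil))) .nil)))) (.nd (nat_lit 5) (.nd (nat_lit 6) 
(.lf (nat_lit 129694) (.g (nat_lit 3312) (.e (nat_lit 8210) (nat_lit 8) (.e (nat_lit 294958) (nat_lit 13) (.e (nat_lit 393301) (nat_lit 27) (.e (nat_lit 491560) (nat_lit 10) (.e (nat_lit 344093) (nat_lit 18) .nil))))) .nil)) 
(.lf (nat_lit 129758) (.g (nat_lit 2353) (.e (nat_lit 16128) (nat_lit 13) (.e (nat_lit 516185) (nat_lit 16) (.e (nat_lit 491560) (nat_lit 10) (.e (nat_lit 344118) (nat_lit 21) .nil)))) .nil))) (.nd (nat_lit 6) 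
(.lf (nat_lit 129726) (.g (nat_lit 2650) (.e (nat_lit 16128) (nat_lit 8) (.e (nat_lit 294958) (nat_lit 13) (.e (nat_lit 393301) (nat_lit 27) (.e (nat_lit 491558) (nat_lit 10) (.e (nat_lit 344091) (nat_lit 18) .nil))))) .nil)) 
(.lf (nat_lit 129790) (.g (nat_lit 4071) (.e (nat_lit 8227) (nat_lit 15) (.e (nat_lit 532504) (nat_lit 1) (.e (nat_lit 57851) (nat_lit 252) (.e (nat_lit 57406) (nat_lit 12) (.e (nat_lit 336456) (nat_lit 34) (.e (nat_lit 483346) (nat_lit 17) (.e (nat_lit 6505) (nat_lit 344) .nil))))))) (.g (nat_lit 6) .nil .nil))))))))) 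
(.nd (nat_lit 1) (.nd (nat_lit 2) (.nd (nat_lit 3) (.nd (nat_lit 4) (.nd (nat_lit 5) 
(.nd (nat_lit 6) 
(.lf (nat_lit 129665) (.g (nat_lit 3827) (.e (nat_lit 8210) (nat_lit 8) (.e (nat_lit 294931) (nat_lit 3) (.e (nat_lit 98373) (nat_lit 29) (.e (nat_lit 450588) (nat_lit 10) (.e (nat_lit 573449) (nat_lit 9) .nil))))) .nil)) 
(.lf (nat_lit 129729) (.g (nat_lit 2456) (.e (nat_lit 16128) (nat_lit 8) (.e (nat_lit 294958) (nat_lit 13) (.e (nat_lit 393301) (nat_lit 27) (.e (nat_lit 491560) (nat_lit 10) (.e (nat_lit 344090) (nat_lit 18) .nil))))) .nil))) (.nd (nat_lit 6) 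
(.lf (nat_lit 129697) (.g (nat_lit 2369) (.e (nat_lit 8210) (nat_lit 8) (.e (nat_lit 294958) (nat_lit 13) (.e (nat_lit 393301) (nat_lit 27) (.e (nat_lit 491560) (nat_lit 10) (.e (nat_lit 344099) (nat_lit 18) .nil))))) .nil)) 
(.lf (nat_lit 129761) (.g (nat_lit 2489) (.e (nat_lit 8224) (nat_lit 15) (.e (nat_lit 532501) (nat_lit 1) (.e (nat_lit 57851) (nat_lit 252) (.e (nat_lit 57406) (nat_lit 12) .nil)))) .nil)))) (.nd (nat_lit 5) (.nd (nat_lit 6) 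
(.lf (nat_lit 129681) (.g (nat_lit 3065) (.e (nat_lit 8210) (nat_lit 8) (.e (nat_lit 294958) (nat_lit 13) (.e (nat_lit 393301) (nat_lit 27) (.e (nat_lit 491558) (nat_lit 10) (.e (nat_lit 344093) (nat_lit 18) .nil))))) .nil)) 
(.lf (nat_lit 129745) (.g (nat_lit 2531) (.e (nat_lit 8213) (nat_lit 9) (.e (nat_lit 303143) (nat_lit 12) (.e (nat_lit 475211) (nat_lit 41) (.e (nat_lit 712753) (nat_lit 30) (.e (nat_lit 450561) (nat_lit 0) .nil))))) .nil))) (.nd (nat_lit 6) 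
(.lf (nat_lit 129713) (.g (nat_lit 1296) (.e (nat_lit 8210) (nat_lit 8) (.e (nat_lit 294960) (nat_lit 13) (.e (nat_lit 393259) (nat_lit 21) (.e (nat_lit 409645) (nat_lit 18) (.e (nat_lit 303115) (nat_lit 1) .nil))))) .nil)) 
(.lf (nat_lit 129777) (.g (nat_lit 2118) (.e (nat_lit 8226) (nat_lit 15) (.e (nat_lit 532499) (nat_lit 1) (.e (nat_lit 57847) (nat_lit 252) (.e (nat_lit 57411) (nat_lit 12) .nil)))) .nil))))) (.nd (nat_lit 4) (.nd (nat_lit 5) (.nd (nat_lit 6) 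
(.lf (nat_lit 129673) (.g (nat_lit 676) (.e (nat_lit 8210) (nat_lit 8) (.e (nat_lit 294957) (nat_lit 13) (.e (nat_lit 393301) (nat_lit 27) (.e (nat_lit 491559) (nat_lit 10) .nil)))) .nil)) 
(.lf (nat_lit 129737) (.g (nat_lit 1386) (.e (nat_lit 8211) (nat_lit 9) (.e (nat_lit 303147) (nat_lit 15) (.e (nat_lit 1859) (nat_lit 124) .nil))) .nil))) (.nd (nat_lit 6) 
(.lf (nat_lit 129705) (.g (nat_lit 1348) (.e (nat_lit 8210) (nat_lit 8) (.e (nat_lit 294959) (nat_lit 13) (.e (nat_lit 393260) (nat_lit 21) (.e (nat_lit 409648) (nat_lit 18) (.e (nat_lit 303114) (nat_lit 1) (.e (nat_lit 164173) (nat_lit 153) .nil)))))) (.g (nat_lit 4) .nil .nil))) 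
(.lf (nat_lit 129769) (.g (nat_lit 3962) (.e (nat_lit 8226) (nat_lit 15) (.e (nat_lit 532481) (nat_lit 0) (.e (nat_lit 2031) (nat_lit 140) (.e (nat_lit 688177) (nat_lit 16) (.e (nat_lit 65571) (nat_lit 3) (.e (nat_lit 98367) (nat_lit 27) (.e (nat_lit 442112) (nat_lit 1) .nil))))))) (.g (nat_lit 6) .nil .nil))))) (.nd (nat_lit 5) (.nd (nat_lit 6) 
(.lf (nat_lit 129689) (.g (nat_lit 4018) (.e (nat_lit 8210) (nat_lit 8) (.e (nat_lit 294958) (nat_lit 13) (.e (nat_lit 393301) (nat_lit 27) (.e (nat_lit 491559) (nat_lit 10) (.e (nat_lit 344091) (nat_lit 18) (.e (nat_lit 7247) (nat_lit 383) .nil)))))) (.g (nat_lit 5) .nil .nil))) 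
(.lf (nat_lit 129753) (.g (nat_lit 4793) (.e (nat_lit 8213) (nat_lit 9) (.e (nat_lit 303145) (nat_lit 13) (.e (nat_lit 483413) (nat_lit 27) (.e (nat_lit 401449) (nat_lit 11) .nil)))) .nil))) (.nd (nat_lit 6) 
(.lf (nat_lit 129721) (.g (nat_lit 1659) (.e (nat_lit 8210) (nat_lit 8) (.e (nat_lit 294960) (nat_lit 13) (.e (nat_lit 393260) (nat_lit 21) (.e (nat_lit 409648) (nat_lit 18) (.e (nat_lit 303114) (nat_lit 1) (.e (nat_lit 164173) (nat_lit 153) .nil)))))) (.g (nat_lit 4) .nil .nil))) 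
(.lf (nat_lit 129785) (.g (nat_lit 3216) (.e (nat_lit 8226) (nat_lit 15) (.e (nat_lit 532534) (nat_lit 9) (.e (nat_lit 336019) (nat_lit 3) (.e (nat_lit 98342) (nat_lit 20) (.e (nat_lit 221211) (nat_lit 22) (.e (nat_lit 204544) (nat_lit 19) (.e (nat_lit 57893) (nat_lit 271) .nil))))))) (.g (nat_lit 5) .nil .nil))))))) (.nd (nat_lit 3) (.nd (nat_lit 4) (.nd (nat_lit 5) (.nd (nat_lit 6) 
(.lf (nat_lit 129669) (.g (nat_lit 3992) (.e (nat_lit 8210) (nat_lit 8) (.e (nat_lit 294931) (nat_lit 3) (.e (nat_lit 98373) (nat_lit 29) (.e (nat_lit 450588) (nat_lit 10) (.e (nat_lit 573475) (nat_lit 12) (.e (nat_lit 57354) (nat_lit 0) (.e (nat_lit 7254) (nat_lit 383) .nil))))))) (.g (nat_lit 4) .nil .nil))) 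
(.lf (nat_lit 129733) (.g (nat_lit 2864) (.e (nat_lit 8211) (nat_lit 9) (.e (nat_lit 303119) (nat_lit 3) (.e (nat_lit 204868) (nat_lit 29) (.e (nat_lit 360466) (nat_lit 3) .nil)))) .nil))) (.nd (nat_lit 6) 
(.lf (nat_lit 129701) (.g (nat_lit 1654) (.e (nat_lit 8210) (nat_lit 8) (.e (nat_lit 294959) (nat_lit 13) (.e (nat_lit 393260) (nat_lit 21) (.e (nat_lit 409644) (nat_lit 18) (.e (nat_lit 303115) (nat_lit 1) (.e (nat_lit 164175) (nat_lit 153) .nil)))))) (.g (nat_lit 4) .nil .nil))) 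
(.lf (nat_lit 129765) (.g (nat_lit 3869) (.e (nat_lit 8226) (nat_lit 15) (.e (nat_lit 532481) (nat_lit 0) (.e (nat_lit 2031) (nat_lit 140) (.e (nat_lit 688177) (nat_lit 16) (.e (nat_lit 65566) (nat_lit 2) (.e (nat_lit 90172) (nat_lit 14) (.e (nat_lit 188160) (nat_lit 33) .nil))))))) (.g (nat_lit 6) .nil .nil))))) (.nd (nat_lit 5) (.nd (nat_lit 6) 
(.lf (nat_lit 129685) (.g (nat_lit 3903) (.e (nat_lit 8210) (nat_lit 8) (.e (nat_lit 294958) (nat_lit 13) (.e (nat_lit 393301) (nat_lit 27) (.e (nat_lit 491558) (nat_lit 10) (.e (nat_lit 344097) (nat_lit 18) (.e (nat_lit 7253) (nat_lit 383) .nil)))))) (.g (nat_lit 6) .nil .nil))) 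
(.lf (nat_lit 129749) (.g (nat_lit 2554) (.e (nat_lit 8213) (nat_lit 9) (.e (nat_lit 303145) (nat_lit 13) (.e (nat_lit 483346) (nat_lit 17) (.e (nat_lit 6722) (nat_lit 362) (.e (nat_lit 180226) (nat_lit 0) (.e (nat_lit 6058) (nat_lit 327) .nil)))))) (.g (nat_lit 4) .nil .nil)))) (.nd (nat_lit 6) 
(.lf (nat_lit 129717) (.g (nat_lit 878) (.e (nat_lit 8210) (nat_lit 8) (.e (nat_lit 294960) (nat_lit 13) (.e (nat_lit 393260) (nat_lit 21) (.e (nat_lit 409643) (nat_lit 18) .nil)))) .nil)) 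
(.lf (nat_lit 129781) (.g (nat_lit 930) (.e (nat_lit 8226) (nat_lit 15) (.e (nat_lit 532501) (nat_lit 1) (.e (nat_lit 57730) (nat_lit 181) .nil))) .nil))))) (.nd (nat_lit 4) (.nd (nat_lit 5) (.nd (nat_lit 6) 
(.lf (nat_lit 129677) (.g (nat_lit 2668) (.e (nat_lit 8210) (nat_lit 8) (.e (nat_lit 294958) (nat_lit 13) (.e (nat_lit 393301) (nat_lit 27) (.e (nat_lit 491546) (nat_lit 9) (.e (nat_lit 335997) (nat_lit 1) (.e (nat_lit 57677) (nat_lit 153) .nil)))))) (.g (nat_lit 4) .nil .nil))) 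
(.lf (nat_lit 129741) (.g (nat_lit 766) (.e (nat_lit 8213) (nat_lit 9) (.e (nat_lit 303133) (nat_lit 9) (.e (nat_lit 426499) (nat_lit 27) .nil))) .nil))) (.nd (nat_lit 6) 
(.lf (nat_lit 129709) (.g (nat_lit 1626) (.e (nat_lit 8210) (nat_lit 8) (.e (nat_lit 294959) (nat_lit 13) (.e (nat_lit 393260) (nat_lit 21) (.e (nat_lit 409649) (nat_lit 18) (.e (nat_lit 303114) (nat_lit 1) (.e (nat_lit 164175) (nat_lit 153) .nil)))))) (.g (nat_lit 4) .nil .nil))) 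
(.lf (nat_lit 129773) (.g (nat_lit 3324) (.e (nat_lit 8226) (nat_lit 15) (.e (nat_lit 532484) (nat_lit 0) (.e (nat_lit 2031) (nat_lit 140) (.e (nat_lit 688177) (nat_lit 16) (.e (nat_lit 65571) (nat_lit 3) (.e (nat_lit 98367) (nat_lit 27) (.e (nat_lit 442112) (nat_lit 1) .nil))))))) (.g (nat_lit 5) .nil .nil))))) (.nd (nat_lit 5) (.nd (nat_lit 6) 
(.lf (nat_lit 129693) (.g (nat_lit 3018) (.e (nat_lit 8210) (nat_lit 8) (.e (nat_lit 294958) (nat_lit 13) (.e (nat_lit 393301) (nat_lit 27) (.e (nat_lit 491560) (nat_lit 10) (.e (nat_lit 344091) (nat_lit 18) .nil))))) .nil)) 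
(.lf (nat_lit 129757) (.g (nat_lit 806) (.e (nat_lit 16128) (nat_lit 13) (.e (nat_lit 516151) (nat_lit 9) (.e (nat_lit 426211) (nat_lit 9) (.e (nat_lit 426125) (nat_lit 2) (.e (nat_lit 204544) (nat_lit 0) .nil))))) .nil))) (.nd (nat_lit 6) 
(.lf (nat_lit 129725) (.g (nat_lit 1621) (.e (nat_lit 16128) (nat_lit 8) (.e (nat_lit 294958) (nat_lit 13) (.e (nat_lit 393301) (nat_lit 27) (.e (nat_lit 491558) (nat_lit 10) .nil)))) .nil)) 
(.lf (nat_lit 129789) (.g (nat_lit 3179) (.e (nat_lit 8227) (nat_lit 15) (.e (nat_lit 532499) (nat_lit 1) (.e (nat_lit 57847) (nat_lit 252) (.e (nat_lit 57446) (nat_lit 19) .nil)))) .nil))))))) (.nd (nat_lit 2) (.nd (nat_lit 3) (.nd (nat_lit 4) (.nd (nat_lit 5) (.nd (nat_lit 6) 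
(.lf (nat_lit 129667) (.g (nat_lit 5417) (.e (nat_lit 8210) (nat_lit 8) (.e (nat_lit 294931) (nat_lit 3) (.e (nat_lit 98373) (nat_lit 29) (.e (nat_lit 450588) (nat_lit 10) (.e (nat_lit 573473) (nat_lit 12) (.e (nat_lit 57348) (nat_lit 0) (.e (nat_lit 7247) (nat_lit 383) .nil))))))) (.g (nat_lit 6) .nil .nil))) 
(.lf (nat_lit 129731) (.g (nat_lit 2389) (.e (nat_lit 8211) (nat_lit 9) (.e (nat_lit 303117) (nat_lit 2) (.e (nat_lit 196656) (nat_lit 11) (.e (nat_lit 16392) (nat_lit 0) .nil)))) .nil))) (.nd (nat_lit 6) 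
(.lf (nat_lit 129699) (.g (nat_lit 1815) (.e (nat_lit 8210) (nat_lit 8) (.e (nat_lit 294959) (nat_lit 13) (.e (nat_lit 393260) (nat_lit 21) (.e (nat_lit 409643) (nat_lit 18) (.e (nat_lit 303115) (nat_lit 1) (.e (nat_lit 164175) (nat_lit 153) .nil)))))) (.g (nat_lit 0) .nil .nil))) 
(.lf (nat_lit 129763) (.g (nat_lit 1604) (.e (nat_lit 8225) (nat_lit 15) (.e (nat_lit 532513) (nat_lit 3) (.e (nat_lit 114714) (nat_lit 22) (.e (nat_lit 90173) (nat_lit 14) .nil)))) .nil)))) (.nd (nat_lit 5) (.nd (nat_lit 6) 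
(.lf (nat_lit 129683) (.g (nat_lit 3622) (.e (nat_lit 8210) (nat_lit 8) (.e (nat_lit 294958) (nat_lit 13) (.e (nat_lit 393301) (nat_lit 27) (.e (nat_lit 491558) (nat_lit 10) (.e (nat_lit 344096) (nat_lit 18) (.e (nat_lit 7247) (nat_lit 383) .nil)))))) (.g (nat_lit 5) .nil .nil))) 
(.lf (nat_lit 129747) (.g (nat_lit 2689) (.e (nat_lit 8213) (nat_lit 9) (.e (nat_lit 303145) (nat_lit 13) (.e (nat_lit 483346) (nat_lit 17) (.e (nat_lit 6722) (nat_lit 362) (.e (nat_lit 180224) (nat_lit 0) .nil))))) .nil))) (.nd (nat_lit 6) 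
(.lf (nat_lit 129715) (.g (nat_lit 1936) (.e (nat_lit 8210) (nat_lit 8) (.e (nat_lit 294960) (nat_lit 13) (.e (nat_lit 393260) (nat_lit 21) (.e (nat_lit 409623) (nat_lit 10) (.e (nat_lit 5293) (nat_lit 298) (.e (nat_lit 1176) (nat_lit 87) (.e (nat_lit 57677) (nat_lit 153) .nil))))))) (.g (nat_lit 6) .nil .nil))) 
(.lf (nat_lit 129779) (.g (nat_lit 3713) (.e (nat_lit 8226) (nat_lit 15) (.e (nat_lit 532499) (nat_lit 1) (.e (nat_lit 57847) (nat_lit 252) (.e (nat_lit 57446) (nat_lit 19) .nil)))) .nil))))) (.nd (nat_lit 4) (.nd (nat_lit 5) (.nd (nat_lit 6) 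
(.lf (nat_lit 129675) (.g (nat_lit 2623) (.e (nat_lit 8210) (nat_lit 8) (.e (nat_lit 294958) (nat_lit 13) (.e (nat_lit 393301) (nat_lit 27) (.e (nat_lit 491546) (nat_lit 9) (.e (nat_lit 335997) (nat_lit 1) .nil))))) .nil)) 
(.lf (nat_lit 129739) (.g (nat_lit 3478) (.e (nat_lit 8213) (nat_lit 9) (.e (nat_lit 303119) (nat_lit 3) (.e (nat_lit 204869) (nat_lit 29) (.e (nat_lit 360475) (nat_lit 8) (.e (nat_lit 557091) (nat_lit 12) .nil))))) .nil))) (.nd (nat_lit 6) 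
(.lf (nat_lit 129707) (.g (nat_lit 1845) (.e (nat_lit 8210) (nat_lit 8) (.e (nat_lit 294959) (nat_lit 13) (.e (nat_lit 393260) (nat_lit 21) (.e (nat_lit 409648) (nat_lit 18) (.e (nat_lit 303114) (nat_lit 1) (.e (nat_lit 164175) (nat_lit 153) .nil)))))) (.g (nat_lit 0) .nil .nil))) 
(.lf (nat_lit 129771) (.g (nat_lit 1872) (.e (nat_lit 8226) (nat_lit 15) (.e (nat_lit 532481) (nat_lit 0) (.e (nat_lit 2031) (nat_lit 140) (.e (nat_lit 688178) (nat_lit 16) (.e (nat_lit 65570) (nat_lit 3) .nil))))) .nil)))) (.nd (nat_lit 5) (.nd (nat_lit 6) 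
(.lf (nat_lit 129691) (.g (nat_lit 3617) (.e (nat_lit 8210) (nat_lit 8) (.e (nat_lit 294958) (nat_lit 13) (.e (nat_lit 393301) (nat_lit 27) (.e (nat_lit 491559) (nat_lit 10) (.e (nat_lit 344098) (nat_lit 18) (.e (nat_lit 7249) (nat_lit 383) .nil)))))) (.g (nat_lit 5) .nil .nil))) 
(.lf (nat_lit 129755) (.g (nat_lit 147) (.e (nat_lit 8219) (nat_lit 11) (.e (nat_lit 500077) (nat_lit 20) (.e (nat_lit 89856) (nat_lit 19) (.e (nat_lit 491584) (nat_lit 28) (.e (nat_lit 442112) (nat_lit 1) .nil))))) (.g (nat_lit 4) .nil .nil)))) (.nd (nat_lit 6) 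
(.lf (nat_lit 129723) (.g (nat_lit 2048) (.e (nat_lit 8210) (nat_lit 8) (.e (nat_lit 294960) (nat_lit 13) (.e (nat_lit 393260) (nat_lit 21) (.e (nat_lit 409649) (nat_lit 18) (.e (nat_lit 303114) (nat_lit 1) .nil))))) .nil)) 
(.lf (nat_lit 129787) (.g (nat_lit 466) (.e (nat_lit 8226) (nat_lit 15) (.e (nat_lit 532534) (nat_lit 9) (.e (nat_lit 336211) (nat_lit 13) .nil))) .nil)))))) (.nd (nat_lit 3) (.nd (nat_lit 4) (.nd (nat_lit 5) (.nd (nat_lit 6) 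
(.lf (nat_lit 129671) (.g (nat_lit 2465) (.e (nat_lit 8210) (nat_lit 8) (.e (nat_lit 294941) (nat_lit 9) (.e (nat_lit 336369) (nat_lit 27) (.e (nat_lit 426173) (nat_lit 7) (.e (nat_lit 409646) (nat_lit 18) .nil))))) .nil)) 
(.lf (nat_lit 129735) (.g (nat_lit 3847) (.e (nat_lit 8211) (nat_lit 9) (.e (nat_lit 303119) (nat_lit 3) (.e (nat_lit 204868) (nat_lit 29) (.e (nat_lit 360466) (nat_lit 3) (.e (nat_lit 516120) (nat_lit 1) .nil))))) .nil))) (.nd (nat_lit 6) 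
(.lf (nat_lit 129703) (.g (nat_lit 1290) (.e (nat_lit 8210) (nat_lit 8) (.e (nat_lit 294959) (nat_lit 13) (.e (nat_lit 393260) (nat_lit 21) (.e (nat_lit 409646) (nat_lit 18) (.e (nat_lit 303115) (nat_lit 1) .nil))))) .nil)) 
(.lf (nat_lit 129767) (.g (nat_lit 3249) (.e (nat_lit 8226) (nat_lit 15) (.e (nat_lit 532481) (nat_lit 0) (.e (nat_lit 2031) (nat_lit 140) (.e (nat_lit 688177) (nat_lit 16) (.e (nat_lit 65568) (nat_lit 2) (.e (nat_lit 90174) (nat_lit 14) (.e (nat_lit 188160) (nat_lit 33) .nil))))))) (.g (nat_lit 5) .nil .nil))))) (.nd (nat_lit 5) (.nd (nat_lit 6) 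
(.lf (nat_lit 129687) (.g (nat_lit 1108) (.e (nat_lit 8210) (nat_lit 8) (.e (nat_lit 294958) (nat_lit 13) (.e (nat_lit 393301) (nat_lit 27) (.e (nat_lit 491559) (nat_lit 10) .nil)))) .nil)) 
(.lf (nat_lit 129751) (.g (nat_lit 2374) (.e (nat_lit 8213) (nat_lit 9) (.e (nat_lit 303145) (nat_lit 13) (.e (nat_lit 483346) (nat_lit 17) (.e (nat_lit 6724) (nat_lit 362) (.e (nat_lit 180225) (nat_lit 0) .nil))))) .nil))) (.nd (nat_lit 6) 
(.lf (nat_lit 129719) (.g (nat_lit 2628) (.e (nat_lit 8210) (nat_lit 8) (.e (nat_lit 294960) (nat_lit 13) (.e (nat_lit 393260) (nat_lit 21) (.e (nat_lit 409646) (nat_lit 18) (.e (nat_lit 303112) (nat_lit 0) (.e (nat_lit 2478) (nat_lit 157) (.e (nat_lit 6387) (nat_lit 338) .nil))))))) (.g (nat_lit 5) .nil .nil))) 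
(.lf (nat_lit 129783) (.g (nat_lit 2254) (.e (nat_lit 8226) (nat_lit 15) (.e (nat_lit 532532) (nat_lit 9) (.e (nat_lit 336019) (nat_lit 3) (.e (nat_lit 98342) (nat_lit 20) (.e (nat_lit 221211) (nat_lit 22) (.e (nat_lit 204544) (nat_lit 19) (.e (nat_lit 57893) (nat_lit 271) .nil))))))) (.g (nat_lit 4) .nil .nil)))))) (.nd (nat_lit 4) (.nd (nat_lit 5) (.nd (nat_lit 6) 
(.lf (nat_lit 129679) (.g (nat_lit 3519) (.e (nat_lit 8210) (nat_lit 8) (.e (nat_lit 294958) (nat_lit 13) (.e (nat_lit 393301) (nat_lit 27) (.e (nat_lit 491558) (nat_lit 10) (.e (nat_lit 344090) (nat_lit 18) (.e (nat_lit 7247) (nat_lit 383) .nil)))))) (.g (nat_lit 5) .nil .nil))) 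
(.lf (nat_lit 129743) (.g (nat_lit 1658) (.e (nat_lit 8213) (nat_lit 9) (.e (nat_lit 303143) (nat_lit 12) (.e (nat_lit 475207) (nat_lit 41) (.e (nat_lit 712755) (nat_lit 30) .nil)))) .nil))) (.nd (nat_lit 6) 
(.lf (nat_lit 129711) (.g (nat_lit 1651) (.e (nat_lit 8210) (nat_lit 8) (.e (nat_lit 294960) (nat_lit 13) (.e (nat_lit 393238) (nat_lit 17) (.e (nat_lit 7101) (nat_lit 380) (.e (nat_lit 164375) (nat_lit 252) (.e (nat_lit 229379) (nat_lit 0) (.e (nat_lit 6387) (nat_lit 338) .nil))))))) (.g (nat_lit 4) .nil .nil))) 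
(.lf (nat_lit 129775) (.g (nat_lit 3071) (.e (nat_lit 8226) (nat_lit 15) (.e (nat_lit 532499) (nat_lit 1) (.e (nat_lit 57847) (nat_lit 252) (.e (nat_lit 57407) (nat_lit 12) (.e (nat_lit 336456) (nat_lit 34) .nil))))) .nil)))) (.nd (nat_lit 5) (.nd (nat_lit 6) 
(.lf (nat_lit 129695) (.g (nat_lit 3453) (.e (nat_lit 8210) (nat_lit 8) (.e (nat_lit 294958) (nat_lit 13) (.e (nat_lit 393301) (nat_lit 27) (.e (nat_lit 491560) (nat_lit 10) (.e (nat_lit 344094) (nat_lit 18) (.e (nat_lit 7247) (nat_lit 383) .nil)))))) (.g (nat_lit 6) .nil .nil))) 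
(.lf (nat_lit 129759) (.g (nat_lit 677) (.e (nat_lit 8223) (nat_lit 14) (.e (nat_lit 524320) (nat_lit 12) (.e (nat_lit 450579) (nat_lit 5) (.e (nat_lit 532534) (nat_lit 9) .nil)))) .nil))) (.nd (nat_lit 6) 
(.lf (nat_lit 129727) (.g (nat_lit 2691) (.e (nat_lit 16128) (nat_lit 8) (.e (nat_lit 294958) (nat_lit 13) (.e (nat_lit 393301) (nat_lit 27) (.e (nat_lit 491558) (nat_lit 10) (.e (nat_lit 344096) (nat_lit 18) .nil))))) .nil)) 
(.lf (nat_lit 129791) (.g (nat_lit 1934) (.e (nat_lit 8228) (nat_lit 15) (.e (nat_lit 532481) (nat_lit 0) (.e (nat_lit 2031) (nat_lit 140) (.e (nat_lit 688178) (nat_lit 16) (.e (nat_lit 65567) (nat_lit 2) .nil))))) .nil)))))))))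

noncomputable def tv1732 : DT := (.nd (nat_lit 0) (.nd (nat_lit 1) (.nd (nat_lit 2) (.nd (nat_lit 3) (.nd (nat_lit 4) (.nd (nat_lit 5) 
(.lf (nat_lit 129792) (.g (nat_lit 3230) (.e (nat_lit 8228) (nat_lit 15) (.e (nat_lit 532484) (nat_lit 0) (.e (nat_lit 2031) (nat_lit 140) (.e (nat_lit 688177) (nat_lit 16) (.e (nat_lit 65566) (nat_lit 2) (.e (nat_lit 90172) (nat_lit 14) (.e (nat_lit 188160) (nat_lit 33) .nil))))))) (.g (nat_lit 6) .nil .nil))) 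
(.lf (nat_lit 129824) (.g (nat_lit 102) (.e (nat_lit 8228) (nat_lit 15) (.e (nat_lit 532533) (nat_lit 9) (.e (nat_lit 336211) (nat_lit 13) .nil))) .nil))) (.nd (nat_lit 5) 
(.lf (nat_lit 129808) (.g (nat_lit 1998) (.e (nat_lit 8228) (nat_lit 15) (.e (nat_lit 532503) (nat_lit 1) (.e (nat_lit 57724) (nat_lit 181) (.e (nat_lit 1296) (nat_lit 96) (.e (nat_lit 131092) (nat_lit 2) .nil))))) .nil)) 
(.lf (nat_lit 129840) (.g (nat_lit 982) (.e (nat_lit 8232) (nat_lit 20) (.e (nat_lit 573493) (nat_lit 15) (.e (nat_lit 81956) (nat_lit 23) .nil))) .nil)))) (.nd (nat_lit 4) (.nd (nat_lit 5) 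
(.lf (nat_lit 129800) (.g (nat_lit 816) (.e (nat_lit 8228) (nat_lit 15) (.e (nat_lit 532501) (nat_lit 1) (.e (nat_lit 57728) (nat_lit 181) (.e (nat_lit 1294) (nat_lit 96) .nil)))) .nil)) 
(.lf (nat_lit 129832) (.g (nat_lit 3343) (.e (nat_lit 16128) (nat_lit 18) (.e (nat_lit 557109) (nat_lit 15) (.e (nat_lit 188452) (nat_lit 23) (.e (nat_lit 204849) (nat_lit 25) .nil)))) .nil))) (.nd (nat_lit 5) 
(.lf (nat_lit 129816) (.g (nat_lit 1040) (.e (nat_lit 8228) (nat_lit 15) (.e (nat_lit 532504) (nat_lit 1) (.e (nat_lit 57730) (nat_lit 181) .nil))) .nil)) 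
(.lf (nat_lit 129848) (.g (nat_lit 2891) (.e (nat_lit 8233) (nat_lit 20) (.e (nat_lit 573492) (nat_lit 15) (.e (nat_lit 81956) (nat_lit 23) (.e (nat_lit 98350) (nat_lit 24) (.e (nat_lit 409616) (nat_lit 10) .nil))))) .nil))))) (.nd (nat_lit 3) (.nd (nat_lit 4) (.nd (nat_lit 5) 
(.lf (nat_lit 129796) (.g (nat_lit 2574) (.e (nat_lit 8228) (nat_lit 15) (.e (nat_lit 532499) (nat_lit 1) (.e (nat_lit 57847) (nat_lit 252) (.e (nat_lit 57440) (nat_lit 18) .nil)))) .nil)) 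
(.lf (nat_lit 129828) (.g (nat_lit 1911) (.e (nat_lit 16128) (nat_lit 18) (.e (nat_lit 557108) (nat_lit 15) (.e (nat_lit 188452) (nat_lit 23) (.e (nat_lit 204846) (nat_lit 24) .nil)))) .nil))) (.nd (nat_lit 5) 
(.lf (nat_lit 129812) (.g (nat_lit 869) (.e (nat_lit 8228) (nat_lit 15) (.e (nat_lit 532503) (nat_lit 1) (.e (nat_lit 57728) (nat_lit 181) .nil))) .nil)) 
(.lf (nat_lit 129844) (.g (nat_lit 2209) (.e (nat_lit 8233) (nat_lit 20) (.e (nat_lit 573451) (nat_lit 9) (.e (nat_lit 1595) (nat_lit 111) (.e (nat_lit 360467) (nat_lit 3) (.e (nat_lit 516171) (nat_lit 13) (.e (nat_lit 458774) (nat_lit 18) (.e (nat_lit 4806) (nat_lit 281) (.e (nat_lit 1116) (nat_lit 82) .nil)))))))) (.g (nat_lit 4) .nil .nil))))) (.nd (nat_lit 4) (.nd (nat_lit 5) 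
(.lf (nat_lit 129804) (.g (nat_lit 2858) (.e (nat_lit 8228) (nat_lit 15) (.e (nat_lit 532501) (nat_lit 1) (.e (nat_lit 57730) (nat_lit 181) (.e (nat_lit 1297) (nat_lit 96) (.e (nat_lit 131091) (nat_lit 2) (.e (nat_lit 90172) (nat_lit 14) (.e (nat_lit 188160) (nat_lit 33) .nil))))))) (.g (nat_lit 6) .nil .nil))) 
(.lf (nat_lit 129836) (.g (nat_lit 3283) (.e (nat_lit 8232) (nat_lit 20) (.e (nat_lit 573489) (nat_lit 14) (.e (nat_lit 73755) (nat_lit 8) (.e (nat_lit 557105) (nat_lit 14) (.e (nat_lit 180252) (nat_lit 10) (.e (nat_lit 573474) (nat_lit 12) (.e (nat_lit 57508) (nat_lit 39) (.e (nat_lit 647198) (nat_lit 10) .nil)))))))) (.g (nat_lit 5) .nil .nil)))) (.nd (nat_lit 5) 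
(.lf (nat_lit 129820) (.g (nat_lit 1858) (.e (nat_lit 8228) (nat_lit 15) (.e (nat_lit 532504) (nat_lit 1) (.e (nat_lit 57852) (nat_lit 252) (.e (nat_lit 57445) (nat_lit 19) (.e (nat_lit 393229) (nat_lit 9) .nil))))) .nil)) 
(.lf (nat_lit 129852) (.g (nat_lit 3211) (.e (nat_lit 8233) (nat_lit 20) (.e (nat_lit 573493) (nat_lit 15) (.e (nat_lit 81956) (nat_lit 23) (.e (nat_lit 98350) (nat_lit 24) (.e (nat_lit 409617) (nat_lit 10) (.e (nat_lit 7936) (nat_lit 299) .nil)))))) (.g (nat_lit 5) .nil .nil))))))) (.nd (nat_lit 2) (.nd (nat_lit 3) (.nd (nat_lit 4) (.nd (nat_lit 5) 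
(.lf (nat_lit 129794) (.g (nat_lit 2911) (.e (nat_lit 8228) (nat_lit 15) (.e (nat_lit 532499) (nat_lit 1) (.e (nat_lit 57847) (nat_lit 252) (.e (nat_lit 57407) (nat_lit 12) (.e (nat_lit 336456) (nat_lit 34) .nil))))) .nil)) 
(.lf (nat_lit 129826) (.g (nat_lit 873) (.e (nat_lit 8228) (nat_lit 15) (.e (nat_lit 532533) (nat_lit 9) (.e (nat_lit 336211) (nat_lit 13) (.e (nat_lit 393221) (nat_lit 0) (.e (nat_lit 6217) (nat_lit 333) (.e (nat_lit 65280) (nat_lit 271) .nil)))))) (.g (nat_lit 4) .nil .nil)))) (.nd (nat_lit 5) 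
(.lf (nat_lit 129810) (.g (nat_lit 2042) (.e (nat_lit 8228) (nat_lit 15) (.e (nat_lit 532503) (nat_lit 1) (.e (nat_lit 57724) (nat_lit 181) (.e (nat_lit 1296) (nat_lit 96) (.e (nat_lit 131094) (nat_lit 2) (.e (nat_lit 90174) (nat_lit 14) (.e (nat_lit 188160) (nat_lit 33) .nil))))))) (.g (nat_lit 4) .nil .nil))) 
(.lf (nat_lit 129842) (.g (nat_lit 2062) (.e (nat_lit 8233) (nat_lit 20) (.e (nat_lit 573451) (nat_lit 9) (.e (nat_lit 1595) (nat_lit 111) (.e (nat_lit 360467) (nat_lit 3) (.e (nat_lit 516169) (nat_lit 13) .nil))))) .nil)))) (.nd (nat_lit 4) (.nd (nat_lit 5) 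
(.lf (nat_lit 129802) (.g (nat_lit 1832) (.e (nat_lit 8228) (nat_lit 15) (.e (nat_lit 532501) (nat_lit 1) (.e (nat_lit 57730) (nat_lit 181) (.e (nat_lit 1209) (nat_lit 89) (.e (nat_lit 73747) (nat_lit 3) .nil))))) .nil)) 
(.lf (nat_lit 129834) (.g (nat_lit 2979) (.e (nat_lit 8232) (nat_lit 20) (.e (nat_lit 573489) (nat_lit 14) (.e (nat_lit 73755) (nat_lit 8) (.e (nat_lit 557105) (nat_lit 14) (.e (nat_lit 180252) (nat_lit 10) (.e (nat_lit 573474) (nat_lit 12) (.e (nat_lit 57505) (nat_lit 39) (.e (nat_lit 647198) (nat_lit 10) .nil)))))))) (.g (nat_lit 5) .nil .nil)))) (.nd (nat_lit 5) 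
(.lf (nat_lit 129818) (.g (nat_lit 2031) (.e (nat_lit 8228) (nat_lit 15) (.e (nat_lit 532504) (nat_lit 1) (.e (nat_lit 57852) (nat_lit 252) (.e (nat_lit 57440) (nat_lit 18) .nil)))) .nil)) 
(.lf (nat_lit 129850) (.g (nat_lit 4420) (.e (nat_lit 8233) (nat_lit 20) (.e (nat_lit 573493) (nat_lit 15) (.e (nat_lit 81956) (nat_lit 23) (.e (nat_lit 98350) (nat_lit 24) (.e (nat_lit 409614) (nat_lit 10) .nil))))) .nil))))) (.nd (nat_lit 3) (.nd (nat_lit 4) (.nd (nat_lit 5) 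
(.lf (nat_lit 129798) (.g (nat_lit 2580) (.e (nat_lit 8228) (nat_lit 15) (.e (nat_lit 532499) (nat_lit 1) (.e (nat_lit 57847) (nat_lit 252) (.e (nat_lit 57443) (nat_lit 18) .nil)))) .nil)) 
(.lf (nat_lit 129830) (.g (nat_lit 4098) (.e (nat_lit 16128) (nat_lit 18) (.e (nat_lit 557109) (nat_lit 15) (.e (nat_lit 188452) (nat_lit 23) (.e (nat_lit 204816) (nat_lit 17) .nil)))) .nil))) (.nd (nat_lit 5) 
(.lf (nat_lit 129814) (.g (nat_lit 659) (.e (nat_lit 8228) (nat_lit 15) (.e (nat_lit 532503) (nat_lit 1) (.e (nat_lit 57844) (nat_lit 252) .nil))) .nil)) 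
(.lf (nat_lit 129846) (.g (nat_lit 2754) (.e (nat_lit 8233) (nat_lit 20) (.e (nat_lit 573482) (nat_lit 13) (.e (nat_lit 65604) (nat_lit 9) (.e (nat_lit 336028) (nat_lit 3) (.e (nat_lit 98367) (nat_lit 27) .nil))))) .nil)))) (.nd (nat_lit 4) (.nd (nat_lit 5) 
(.lf (nat_lit 129806) (.g (nat_lit 2583) (.e (nat_lit 8228) (nat_lit 15) (.e (nat_lit 532501) (nat_lit 1) (.e (nat_lit 57730) (nat_lit 181) (.e (nat_lit 1297) (nat_lit 96) (.e (nat_lit 131094) (nat_lit 2) (.e (nat_lit 90172) (nat_lit 14) (.e (nat_lit 188160) (nat_lit 33) .nil))))))) (.g (nat_lit 6) .nil .nil))) 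
(.lf (nat_lit 129838) (.g (nat_lit 3182) (.e (nat_lit 8232) (nat_lit 20) (.e (nat_lit 573489) (nat_lit 14) (.e (nat_lit 73755) (nat_lit 8) (.e (nat_lit 557105) (nat_lit 14) (.e (nat_lit 180252) (nat_lit 10) (.e (nat_lit 573474) (nat_lit 12) (.e (nat_lit 57511) (nat_lit 39) (.e (nat_lit 647198) (nat_lit 10) .nil)))))))) (.g (nat_lit 5) .nil .nil)))) (.nd (nat_lit 5) 
(.lf (nat_lit 129822) (.g (nat_lit 1934) (.e (nat_lit 8228) (nat_lit 15) (.e (nat_lit 532513) (nat_lit 3) (.e (nat_lit 114714) (nat_lit 22) (.e (nat_lit 90172) (nat_lit 14) (.e (nat_lit 188160) (nat_lit 3) .nil))))) .nil)) 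
(.lf (nat_lit 129854) (.g (nat_lit 2542) (.e (nat_lit 8234) (nat_lit 20) (.e (nat_lit 573482) (nat_lit 13) (.e (nat_lit 65604) (nat_lit 9) (.e (nat_lit 336013) (nat_lit 2) (.e (nat_lit 90165) (nat_lit 12) .nil))))) .nil))))))) (.nd (nat_lit 1) (.nd (nat_lit 2) (.nd (nat_lit 3) (.nd (nat_lit 4) (.nd (nat_lit 5) 
(.lf (nat_lit 129793) (.g (nat_lit 843) (.e (nat_lit 8228) (nat_lit 15) (.e (nat_lit 532499) (nat_lit 1) (.e (nat_lit 57847) (nat_lit 252) .nil))) .nil)) 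
(.lf (nat_lit 129825) (.g (nat_lit 1596) (.e (nat_lit 8228) (nat_lit 15) (.e (nat_lit 532533) (nat_lit 9) (.e (nat_lit 336211) (nat_lit 13) (.e (nat_lit 393221) (nat_lit 0) (.e (nat_lit 6209) (nat_lit 333) (.e (nat_lit 65280) (nat_lit 271) .nil)))))) (.g (nat_lit 5) .nil .nil)))) (.nd (nat_lit 5) 
(.lf (nat_lit 129809) (.g (nat_lit 3128) (.e (nat_lit 8228) (nat_lit 15) (.e (nat_lit 532503) (nat_lit 1) (.e (nat_lit 57724) (nat_lit 181) (.e (nat_lit 1296) (nat_lit 96) (.e (nat_lit 131094) (nat_lit 2) (.e (nat_lit 90172) (nat_lit 14) (.e (nat_lit 188160) (nat_lit 33) .nil))))))) (.g (nat_lit 6) .nil .nil))) 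
(.lf (nat_lit 129841) (.g (nat_lit 3923) (.e (nat_lit 8232) (nat_lit 20) (.e (nat_lit 573493) (nat_lit 15) (.e (nat_lit 81956) (nat_lit 23) (.e (nat_lit 98350) (nat_lit 24) (.e (nat_lit 409616) (nat_lit 10) (.e (nat_lit 7936) (nat_lit 299) .nil)))))) (.g (nat_lit 5) .nil .nil))))) (.nd (nat_lit 4) (.nd (nat_lit 5) 
(.lf (nat_lit 129801) (.g (nat_lit 796) (.e (nat_lit 8228) (nat_lit 15) (.e (nat_lit 532501) (nat_lit 1) (.e (nat_lit 57730) (nat_lit 181) .nil))) .nil)) 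
(.lf (nat_lit 129833) (.g (nat_lit 2908) (.e (nat_lit 8232) (nat_lit 20) (.e (nat_lit 573451) (nat_lit 9) (.e (nat_lit 1401) (nat_lit 106) (.e (nat_lit 319531) (nat_lit 16) (.e (nat_lit 286735) (nat_lit 3) (.e (nat_lit 98350) (nat_lit 24) (.e (nat_lit 409602) (nat_lit 0) (.e (nat_lit 5373) (nat_lit 299) .nil)))))))) (.g (nat_lit 4) .nil .nil)))) (.nd (nat_lit 5) 
(.lf (nat_lit 129817) (.g (nat_lit 2290) (.e (nat_lit 8228) (nat_lit 15) (.e (nat_lit 532504) (nat_lit 1) (.e (nat_lit 57730) (nat_lit 181) (.e (nat_lit 1209) (nat_lit 89) (.e (nat_lit 73747) (nat_lit 3) .nil))))) .nil)) 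
(.lf (nat_lit 129849) (.g (nat_lit 3318) (.e (nat_lit 8233) (nat_lit 20) (.e (nat_lit 573492) (nat_lit 15) (.e (nat_lit 81956) (nat_lit 23) (.e (nat_lit 98350) (nat_lit 24) (.e (nat_lit 409617) (nat_lit 10) (.e (nat_lit 7936) (nat_lit 299) .nil)))))) (.g (nat_lit 4) .nil .nil)))))) (.nd (nat_lit 3) (.nd (nat_lit 4) (.nd (nat_lit 5) 
(.lf (nat_lit 129797) (.g (nat_lit 3140) (.e (nat_lit 8228) (nat_lit 15) (.e (nat_lit 532499) (nat_lit 1) (.e (nat_lit 57847) (nat_lit 252) (.e (nat_lit 57440) (nat_lit 18) (.e (nat_lit 385068) (nat_lit 26) .nil))))) .nil)) 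
(.lf (nat_lit 129829) (.g (nat_lit 558) (.e (nat_lit 16128) (nat_lit 18) (.e (nat_lit 557109) (nat_lit 15) (.e (nat_lit 188452) (nat_lit 23) .nil))) .nil))) (.nd (nat_lit 5) 
(.lf (nat_lit 129813) (.g (nat_lit 3252) (.e (nat_lit 8228) (nat_lit 15) (.e (nat_lit 532503) (nat_lit 1) (.e (nat_lit 57735) (nat_lit 183) (.e (nat_lit 57419) (nat_lit 12) (.e (nat_lit 336012) (nat_lit 2) (.e (nat_lit 90172) (nat_lit 14) (.e (nat_lit 188160) (nat_lit 33) .nil))))))) (.g (nat_lit 6) .nil .nil))) 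
(.lf (nat_lit 129845) (.g (nat_lit 2412) (.e (nat_lit 8233) (nat_lit 20) (.e (nat_lit 573451) (nat_lit 9) (.e (nat_lit 1595) (nat_lit 111) (.e (nat_lit 360467) (nat_lit 3) (.e (nat_lit 516171) (nat_lit 13) (.e (nat_lit 458774) (nat_lit 18) (.e (nat_lit 4807) (nat_lit 281) (.e (nat_lit 1116) (nat_lit 82) .nil)))))))) (.g (nat_lit 4) .nil .nil))))) (.nd (nat_lit 4) (.nd (nat_lit 5) 
(.lf (nat_lit 129805) (.g (nat_lit 2391) (.e (nat_lit 8228) (nat_lit 15) (.e (nat_lit 532501) (nat_lit 1) (.e (nat_lit 57730) (nat_lit 181) (.e (nat_lit 1297) (nat_lit 96) (.e (nat_lit 131092) (nat_lit 2) (.e (nat_lit 90172) (nat_lit 14) (.e (nat_lit 188160) (nat_lit 33) .nil))))))) (.g (nat_lit 6) .nil .nil))) 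
(.lf (nat_lit 129837) (.g (nat_lit 2752) (.e (nat_lit 8232) (nat_lit 20) (.e (nat_lit 573489) (nat_lit 14) (.e (nat_lit 73755) (nat_lit 8) (.e (nat_lit 557105) (nat_lit 14) (.e (nat_lit 180252) (nat_lit 10) (.e (nat_lit 573474) (nat_lit 12) (.e (nat_lit 57510) (nat_lit 39) (.e (nat_lit 647198) (nat_lit 10) .nil)))))))) (.g (nat_lit 4) .nil .nil)))) (.nd (nat_lit 5) 
(.lf (nat_lit 129821) (.g (nat_lit 1824) (.e (nat_lit 8228) (nat_lit 15) (.e (nat_lit 532511) (nat_lit 2) (.e (nat_lit 106534) (nat_lit 11) (.e (nat_lit 16413) (nat_lit 2) (.e (nat_lit 196668) (nat_lit 14) (.e (nat_lit 81664) (nat_lit 41) .nil)))))) (.g (nat_lit 5) .nil .nil))) 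
(.lf (nat_lit 129853) (.g (nat_lit 4234) (.e (nat_lit 8234) (nat_lit 20) (.e (nat_lit 573451) (nat_lit 9) (.e (nat_lit 1595) (nat_lit 111) (.e (nat_lit 360467) (nat_lit 3) (.e (nat_lit 516139) (nat_lit 7) (.e (nat_lit 409616) (nat_lit 10) (.e (nat_lit 7936) (nat_lit 299) .nil))))))) (.g (nat_lit 6) .nil .nil))))))) (.nd (nat_lit 2) (.nd (nat_lit 3) (.nd (nat_lit 4) (.nd (nat_lit 5) 
(.lf (nat_lit 129795) (.g (nat_lit 2640) (.e (nat_lit 8228) (nat_lit 15) (.e (nat_lit 532499) (nat_lit 1) (.e (nat_lit 57847) (nat_lit 252) (.e (nat_lit 57411) (nat_lit 12) (.e (nat_lit 336456) (nat_lit 34) (.e (nat_lit 483346) (nat_lit 17) (.e (nat_lit 6506) (nat_lit 344) .nil))))))) (.g (nat_lit 4) .nil .nil))) 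
(.lf (nat_lit 129827) (.g (nat_lit 1209) (.e (nat_lit 16128) (nat_lit 17) (.e (nat_lit 548889) (nat_lit 9) (.e (nat_lit 65610) (nat_lit 10) (.e (nat_lit 344117) (nat_lit 21) .nil)))) .nil))) (.nd (nat_lit 5) 
(.lf (nat_lit 129811) (.g (nat_lit 869) (.e (nat_lit 8228) (nat_lit 15) (.e (nat_lit 532503) (nat_lit 1) (.e (nat_lit 57727) (nat_lit 181) .nil))) .nil)) 
(.lf (nat_lit 129843) (.g (nat_lit 2258) (.e (nat_lit 8233) (nat_lit 20) (.e (nat_lit 573451) (nat_lit 9) (.e (nat_lit 1595) (nat_lit 111) (.e (nat_lit 360467) (nat_lit 3) (.e (nat_lit 516169) (nat_lit 13) (.e (nat_lit 458774) (nat_lit 18) (.e (nat_lit 4807) (nat_lit 281) (.e (nat_lit 1116) (nat_lit 82) .nil)))))))) (.g (nat_lit 4) .nil .nil))))) (.nd (nat_lit 4) (.nd (nat_lit 5) 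
(.lf (nat_lit 129803) (.g (nat_lit 1991) (.e (nat_lit 8228) (nat_lit 15) (.e (nat_lit 532501) (nat_lit 1) (.e (nat_lit 57730) (nat_lit 181) (.e (nat_lit 1209) (nat_lit 89) (.e (nat_lit 73747) (nat_lit 3) (.e (nat_lit 516172) (nat_lit 13) (.e (nat_lit 466688) (nat_lit 1) .nil))))))) (.g (nat_lit 4) .nil .nil))) 
(.lf (nat_lit 129835) (.g (nat_lit 3150) (.e (nat_lit 8232) (nat_lit 20) (.e (nat_lit 573489) (nat_lit 14) (.e (nat_lit 73755) (nat_lit 8) (.e (nat_lit 557105) (nat_lit 14) (.e (nat_lit 180252) (nat_lit 10) (.e (nat_lit 573474) (nat_lit 12) (.e (nat_lit 57506) (nat_lit 39) (.e (nat_lit 647198) (nat_lit 10) .nil)))))))) (.g (nat_lit 5) .nil .nil)))) (.nd (nat_lit 5) 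
(.lf (nat_lit 129819) (.g (nat_lit 2464) (.e (nat_lit 8228) (nat_lit 15) (.e (nat_lit 532504) (nat_lit 1) (.e (nat_lit 57852) (nat_lit 252) (.e (nat_lit 57440) (nat_lit 18) (.e (nat_lit 385068) (nat_lit 26) .nil))))) .nil)) 
(.lf (nat_lit 129851) (.g (nat_lit 2939) (.e (nat_lit 8233) (nat_lit 20) (.e (nat_lit 573493) (nat_lit 15) (.e (nat_lit 81956) (nat_lit 23) (.e (nat_lit 98350) (nat_lit 24) (.e (nat_lit 409616) (nat_lit 10) (.e (nat_lit 7936) (nat_lit 299) .nil)))))) (.g (nat_lit 5) .nil .nil)))))) (.nd (nat_lit 3) (.nd (nat_lit 4) (.nd (nat_lit 5) 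
(.lf (nat_lit 129799) (.g (nat_lit 3968) (.e (nat_lit 8228) (nat_lit 15) (.e (nat_lit 532499) (nat_lit 1) (.e (nat_lit 57847) (nat_lit 252) (.e (nat_lit 57446) (nat_lit 19) .nil)))) .nil)) 
(.lf (nat_lit 129831) (.g (nat_lit 1874) (.e (nat_lit 16128) (nat_lit 18) (.e (nat_lit 557109) (nat_lit 15) (.e (nat_lit 188452) (nat_lit 23) (.e (nat_lit 204846) (nat_lit 24) .nil)))) .nil))) (.nd (nat_lit 5) 
(.lf (nat_lit 129815) (.g (nat_lit 2194) (.e (nat_lit 8228) (nat_lit 15) (.e (nat_lit 532504) (nat_lit 1) (.e (nat_lit 57724) (nat_lit 181) (.e (nat_lit 1296) (nat_lit 96) (.e (nat_lit 131094) (nat_lit 2) (.e (nat_lit 90172) (nat_lit 14) (.e (nat_lit 188160) (nat_lit 33) .nil))))))) (.g (nat_lit 4) .nil .nil))) 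
(.lf (nat_lit 129847) (.g (nat_lit 2634) (.e (nat_lit 8233) (nat_lit 20) (.e (nat_lit 573482) (nat_lit 13) (.e (nat_lit 65619) (nat_lit 10) (.e (nat_lit 344117) (nat_lit 21) (.e (nat_lit 516106) (nat_lit 0) .nil))))) .nil)))) (.nd (nat_lit 4) (.nd (nat_lit 5) 
(.lf (nat_lit 129807) (.g (nat_lit 1965) (.e (nat_lit 8228) (nat_lit 15) (.e (nat_lit 532501) (nat_lit 1) (.e (nat_lit 57851) (nat_lit 252) (.e (nat_lit 57445) (nat_lit 19) .nil)))) .nil)) 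
(.lf (nat_lit 129839) (.g (nat_lit 3098) (.e (nat_lit 8232) (nat_lit 20) (.e (nat_lit 573492) (nat_lit 15) (.e (nat_lit 81956) (nat_lit 23) (.e (nat_lit 98350) (nat_lit 24) (.e (nat_lit 409616) (nat_lit 10) (.e (nat_lit 7936) (nat_lit 299) .nil)))))) (.g (nat_lit 5) .nil .nil)))) (.nd (nat_lit 5) 
(.lf (nat_lit 129823) (.g (nat_lit 1804) (.e (nat_lit 8228) (nat_lit 15) (.e (nat_lit 532523) (nat_lit 7) (.e (nat_lit 319490) (nat_lit 0) (.e (nat_lit 5629) (nat_lit 312) .nil)))) .nil)) 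
(.lf (nat_lit 129855) (.g (nat_lit 2968) (.e (nat_lit 8234) (nat_lit 20) (.e (nat_lit 573482) (nat_lit 13) (.e (nat_lit 65604) (nat_lit 9) (.e (nat_lit 336028) (nat_lit 3) (.e (nat_lit 98349) (nat_lit 24) (.e (nat_lit 409616) (nat_lit 10) (.e (nat_lit 7936) (nat_lit 299) .nil))))))) (.g (nat_lit 4) .nil .nil)))))))))

noncomputable def tv1733 : DT := (.nd (nat_lit 0) (.nd (nat_lit 1) (.nd (nat_lit 2) (.nd (nat_lit 3) (.nd (nat_lit 4) (.nd (nat_lit 5) 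
(.lf (nat_lit 129856) (.g (nat_lit 5099) (.e (nat_lit 8234) (nat_lit 20) (.e (nat_lit 573482) (nat_lit 13) (.e (nat_lit 65604) (nat_lit 9) (.e (nat_lit 336028) (nat_lit 3) (.e (nat_lit 98350) (nat_lit 24) (.e (nat_lit 409616) (nat_lit 10) (.e (nat_lit 7936) (nat_lit 299) .nil))))))) (.g (nat_lit 6) .nil .nil))) 
(.lf (nat_lit 129888) (.g (nat_lit 4121) (.e (nat_lit 8234) (nat_lit 20) (.e (nat_lit 573489) (nat_lit 14) (.e (nat_lit 73755) (nat_lit 8) (.e (nat_lit 557105) (nat_lit 14) (.e (nat_lit 180252) (nat_lit 10) (.e (nat_lit 573474) (nat_lit 12) (.e (nat_lit 57507) (nat_lit 39) (.e (nat_lit 655104) (nat_lit 10) .nil)))))))) (.g (nat_lit 7) .nil .nil)))) (.nd (nat_lit 5) 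
(.lf (nat_lit 129872) (.g (nat_lit 4003) (.e (nat_lit 8234) (nat_lit 20) (.e (nat_lit 573485) (nat_lit 13) (.e (nat_lit 65604) (nat_lit 9) (.e (nat_lit 336028) (nat_lit 3) (.e (nat_lit 98349) (nat_lit 24) (.e (nat_lit 409616) (nat_lit 10) (.e (nat_lit 7936) (nat_lit 299) .nil))))))) (.g (nat_lit 6) .nil .nil))) 
(.lf (nat_lit 129904) (.g (nat_lit 1548) (.e (nat_lit 8249) (nat_lit 34) (.e (nat_lit 688175) (nat_lit 16) (.e (nat_lit 65571) (nat_lit 3) (.e (nat_lit 98381) (nat_lit 31) .nil)))) .nil)))) (.nd (nat_lit 4) (.nd (nat_lit 5) 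
(.lf (nat_lit 129864) (.g (nat_lit 2946) (.e (nat_lit 8234) (nat_lit 20) (.e (nat_lit 573482) (nat_lit 13) (.e (nat_lit 65619) (nat_lit 10) (.e (nat_lit 344129) (nat_lit 26) (.e (nat_lit 557087) (nat_lit 11) (.e (nat_lit 24588) (nat_lit 0) (.e (nat_lit 7936) (nat_lit 344) .nil))))))) (.g (nat_lit 4) .nil .nil))) 
(.lf (nat_lit 129896) (.g (nat_lit 4687) (.e (nat_lit 8234) (nat_lit 20) (.e (nat_lit 573491) (nat_lit 15) (.e (nat_lit 81956) (nat_lit 23) (.e (nat_lit 98350) (nat_lit 24) (.e (nat_lit 409616) (nat_lit 10) (.e (nat_lit 7936) (nat_lit 299) .nil)))))) (.g (nat_lit 5) .nil .nil)))) (.nd (nat_lit 5) 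
(.lf (nat_lit 129880) (.g (nat_lit 4264) (.e (nat_lit 8234) (nat_lit 20) (.e (nat_lit 573485) (nat_lit 13) (.e (nat_lit 65619) (nat_lit 10) (.e (nat_lit 344129) (nat_lit 26) (.e (nat_lit 557087) (nat_lit 11) (.e (nat_lit 24584) (nat_lit 0) (.e (nat_lit 7936) (nat_lit 344) .nil))))))) (.g (nat_lit 6) .nil .nil))) 
(.lf (nat_lit 129912) (.g (nat_lit 3331) (.e (nat_lit 8249) (nat_lit 34) (.e (nat_lit 688181) (nat_lit 17) (.e (nat_lit 73745) (nat_lit 3) (.e (nat_lit 516151) (nat_lit 9) (.e (nat_lit 426211) (nat_lit 9) (.e (nat_lit 426125) (nat_lit 2) (.e (nat_lit 204544) (nat_lit 10) .nil))))))) (.g (nat_lit 6) .nil .nil)))))) (.nd (nat_lit 3) (.nd (nat_lit 4) (.nd (nat_lit 5) 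
(.lf (nat_lit 129860) (.g (nat_lit 3037) (.e (nat_lit 8234) (nat_lit 20) (.e (nat_lit 573482) (nat_lit 13) (.e (nat_lit 65619) (nat_lit 10) (.e (nat_lit 344129) (nat_lit 26) (.e (nat_lit 557066) (nat_lit 9) (.e (nat_lit 232) (nat_lit 21) (.e (nat_lit 335907) (nat_lit 0) (.e (nat_lit 7936) (nat_lit 344) .nil)))))))) (.g (nat_lit 4) .nil .nil))) 
(.lf (nat_lit 129892) (.g (nat_lit 4449) (.e (nat_lit 8234) (nat_lit 20) (.e (nat_lit 573489) (nat_lit 14) (.e (nat_lit 73755) (nat_lit 8) (.e (nat_lit 557105) (nat_lit 14) (.e (nat_lit 180252) (nat_lit 10) (.e (nat_lit 573474) (nat_lit 12) (.e (nat_lit 57511) (nat_lit 39) (.e (nat_lit 647198) (nat_lit 10) .nil)))))))) (.g (nat_lit 6) .nil .nil)))) (.nd (nat_lit 5) 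
(.lf (nat_lit 129876) (.g (nat_lit 5478) (.e (nat_lit 8234) (nat_lit 20) (.e (nat_lit 573485) (nat_lit 13) (.e (nat_lit 65619) (nat_lit 10) (.e (nat_lit 344117) (nat_lit 21) (.e (nat_lit 516139) (nat_lit 7) (.e (nat_lit 409616) (nat_lit 10) (.e (nat_lit 7936) (nat_lit 299) .nil))))))) (.g (nat_lit 6) .nil .nil))) 
(.lf (nat_lit 129908) (.g (nat_lit 2573) (.e (nat_lit 8249) (nat_lit 34) (.e (nat_lit 688178) (nat_lit 16) (.e (nat_lit 65569) (nat_lit 3) (.e (nat_lit 98381) (nat_lit 31) (.e (nat_lit 466977) (nat_lit 22) (.e (nat_lit 196651) (nat_lit 10) .nil)))))) (.g (nat_lit 6) .nil .nil))))) (.nd (nat_lit 4) (.nd (nat_lit 5) 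
(.lf (nat_lit 129868) (.g (nat_lit 2293) (.e (nat_lit 8234) (nat_lit 20) (.e (nat_lit 573484) (nat_lit 13) (.e (nat_lit 65610) (nat_lit 10) (.e (nat_lit 344117) (nat_lit 21) (.e (nat_lit 516139) (nat_lit 7) .nil))))) .nil)) 
(.lf (nat_lit 129900) (.g (nat_lit 6129) (.e (nat_lit 8234) (nat_lit 20) (.e (nat_lit 573493) (nat_lit 15) (.e (nat_lit 81954) (nat_lit 23) (.e (nat_lit 98350) (nat_lit 24) (.e (nat_lit 409616) (nat_lit 10) (.e (nat_lit 7936) (nat_lit 299) .nil)))))) (.g (nat_lit 5) .nil .nil)))) (.nd (nat_lit 5) 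
(.lf (nat_lit 129884) (.g (nat_lit 2938) (.e (nat_lit 8234) (nat_lit 20) (.e (nat_lit 573489) (nat_lit 14) (.e (nat_lit 73755) (nat_lit 8) (.e (nat_lit 557105) (nat_lit 14) (.e (nat_lit 180252) (nat_lit 10) (.e (nat_lit 573473) (nat_lit 12) (.e (nat_lit 57507) (nat_lit 39) (.e (nat_lit 647198) (nat_lit 10) .nil)))))))) (.g (nat_lit 5) .nil .nil))) 
(.lf (nat_lit 129916) (.g (nat_lit 2982) (.e (nat_lit 8251) (nat_lit 36) (.e (nat_lit 704738) (nat_lit 11) (.e (nat_lit 16425) (nat_lit 7) (.e (nat_lit 409649) (nat_lit 18) (.e (nat_lit 303140) (nat_lit 10) (.e (nat_lit 434269) (nat_lit 36) (.e (nat_lit 639015) (nat_lit 14) .nil))))))) (.g (nat_lit 4) .nil .nil))))))) (.nd (nat_lit 2) (.nd (nat_lit 3) (.nd (nat_lit 4) (.nd (nat_lit 5) 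
(.lf (nat_lit 129858) (.g (nat_lit 5904) (.e (nat_lit 8234) (nat_lit 20) (.e (nat_lit 573482) (nat_lit 13) (.e (nat_lit 65619) (nat_lit 10) (.e (nat_lit 344117) (nat_lit 21) (.e (nat_lit 516139) (nat_lit 7) (.e (nat_lit 409616) (nat_lit 10) (.e (nat_lit 7936) (nat_lit 299) .nil))))))) (.g (nat_lit 6) .nil .nil))) 
(.lf (nat_lit 129890) (.g (nat_lit 4226) (.e (nat_lit 8234) (nat_lit 20) (.e (nat_lit 573489) (nat_lit 14) (.e (nat_lit 73755) (nat_lit 8) (.e (nat_lit 557105) (nat_lit 14) (.e (nat_lit 180252) (nat_lit 10) (.e (nat_lit 573474) (nat_lit 12) (.e (nat_lit 57509) (nat_lit 39) (.e (nat_lit 647198) (nat_lit 10) .nil)))))))) (.g (nat_lit 6) .nil .nil)))) (.nd (nat_lit 5) 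
(.lf (nat_lit 129874) (.g (nat_lit 2075) (.e (nat_lit 8234) (nat_lit 20) (.e (nat_lit 573485) (nat_lit 13) (.e (nat_lit 65619) (nat_lit 10) (.e (nat_lit 344117) (nat_lit 21) (.e (nat_lit 516138) (nat_lit 7) .nil))))) .nil)) 
(.lf (nat_lit 129906) (.g (nat_lit 3304) (.e (nat_lit 8249) (nat_lit 34) (.e (nat_lit 688176) (nat_lit 16) (.e (nat_lit 65571) (nat_lit 3) (.e (nat_lit 98359) (nat_lit 26) (.e (nat_lit 426211) (nat_lit 9) (.e (nat_lit 426125) (nat_lit 2) (.e (nat_lit 204544) (nat_lit 10) .nil))))))) (.g (nat_lit 6) .nil .nil))))) (.nd (nat_lit 4) (.nd (nat_lit 5) 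
(.lf (nat_lit 129866) (.g (nat_lit 2750) (.e (nat_lit 8234) (nat_lit 20) (.e (nat_lit 573484) (nat_lit 13) (.e (nat_lit 65610) (nat_lit 10) (.e (nat_lit 344117) (nat_lit 21) (.e (nat_lit 516138) (nat_lit 7) .nil))))) .nil)) 
(.lf (nat_lit 129898) (.g (nat_lit 6772) (.e (nat_lit 8234) (nat_lit 20) (.e (nat_lit 573492) (nat_lit 15) (.e (nat_lit 81956) (nat_lit 23) (.e (nat_lit 98350) (nat_lit 24) (.e (nat_lit 409616) (nat_lit 10) (.e (nat_lit 7936) (nat_lit 299) .nil)))))) (.g (nat_lit 5) .nil .nil)))) (.nd (nat_lit 5) 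
(.lf (nat_lit 129882) (.g (nat_lit 2983) (.e (nat_lit 8234) (nat_lit 20) (.e (nat_lit 573489) (nat_lit 14) (.e (nat_lit 73754) (nat_lit 8) (.e (nat_lit 557105) (nat_lit 14) (.e (nat_lit 188160) (nat_lit 3) .nil))))) .nil)) 
(.lf (nat_lit 129914) (.g (nat_lit 1846) (.e (nat_lit 16128) (nat_lit 34) (.e (nat_lit 688177) (nat_lit 16) (.e (nat_lit 65571) (nat_lit 3) (.e (nat_lit 98381) (nat_lit 31) (.e (nat_lit 466977) (nat_lit 22) .nil))))) .nil))))) (.nd (nat_lit 3) (.nd (nat_lit 4) (.nd (nat_lit 5) 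
(.lf (nat_lit 129862) (.g (nat_lit 4463) (.e (nat_lit 8234) (nat_lit 20) (.e (nat_lit 573482) (nat_lit 13) (.e (nat_lit 65619) (nat_lit 10) (.e (nat_lit 344129) (nat_lit 26) (.e (nat_lit 557087) (nat_lit 11) (.e (nat_lit 24580) (nat_lit 0) (.e (nat_lit 6505) (nat_lit 344) .nil))))))) (.g (nat_lit 5) .nil .nil))) 
(.lf (nat_lit 129894) (.g (nat_lit 4566) (.e (nat_lit 8234) (nat_lit 20) (.e (nat_lit 573491) (nat_lit 15) (.e (nat_lit 81954) (nat_lit 23) (.e (nat_lit 98350) (nat_lit 24) (.e (nat_lit 409616) (nat_lit 10) (.e (nat_lit 7936) (nat_lit 299) .nil)))))) (.g (nat_lit 5) .nil .nil)))) (.nd (nat_lit 5) 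
(.lf (nat_lit 129878) (.g (nat_lit 3505) (.e (nat_lit 8234) (nat_lit 20) (.e (nat_lit 573485) (nat_lit 13) (.e (nat_lit 65619) (nat_lit 10) (.e (nat_lit 344119) (nat_lit 21) (.e (nat_lit 516139) (nat_lit 7) (.e (nat_lit 409616) (nat_lit 10) (.e (nat_lit 7936) (nat_lit 299) .nil))))))) (.g (nat_lit 6) .nil .nil))) 
(.lf (nat_lit 129910) (.g (nat_lit 2148) (.e (nat_lit 8249) (nat_lit 34) (.e (nat_lit 688180) (nat_lit 17) (.e (nat_lit 73746) (nat_lit 3) (.e (nat_lit 516176) (nat_lit 14) (.e (nat_lit 466977) (nat_lit 22) (.e (nat_lit 196651) (nat_lit 10) .nil)))))) (.g (nat_lit 6) .nil .nil))))) (.nd (nat_lit 4) (.nd (nat_lit 5) 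
(.lf (nat_lit 129870) (.g (nat_lit 2155) (.e (nat_lit 8234) (nat_lit 20) (.e (nat_lit 573484) (nat_lit 13) (.e (nat_lit 65610) (nat_lit 10) (.e (nat_lit 344118) (nat_lit 21) (.e (nat_lit 516139) (nat_lit 7) .nil))))) .nil)) 
(.lf (nat_lit 129902) (.g (nat_lit 3209) (.e (nat_lit 8249) (nat_lit 34) (.e (nat_lit 688174) (nat_lit 16) (.e (nat_lit 65571) (nat_lit 3) (.e (nat_lit 98359) (nat_lit 26) (.e (nat_lit 426211) (nat_lit 9) (.e (nat_lit 426125) (nat_lit 2) (.e (nat_lit 204544) (nat_lit 10) .nil))))))) (.g (nat_lit 6) .nil .nil)))) (.nd (nat_lit 5) 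
(.lf (nat_lit 129886) (.g (nat_lit 4246) (.e (nat_lit 8234) (nat_lit 20) (.e (nat_lit 573489) (nat_lit 14) (.e (nat_lit 73755) (nat_lit 8) (.e (nat_lit 557105) (nat_lit 14) (.e (nat_lit 180252) (nat_lit 10) (.e (nat_lit 573474) (nat_lit 12) (.e (nat_lit 57505) (nat_lit 39) (.e (nat_lit 647198) (nat_lit 10) .nil)))))))) (.g (nat_lit 6) .nil .nil))) 
(.lf (nat_lit 129918) (.g (nat_lit 2311) (.e (nat_lit 8253) (nat_lit 36) (.e (nat_lit 704738) (nat_lit 11) (.e (nat_lit 16425) (nat_lit 7) (.e (nat_lit 409649) (nat_lit 18) (.e (nat_lit 303140) (nat_lit 10) .nil))))) .nil))))))) (.nd (nat_lit 1) (.nd (nat_lit 2) (.nd (nat_lit 3) (.nd (nat_lit 4) (.nd (nat_lit 5) 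
(.lf (nat_lit 129857) (.g (nat_lit 2715) (.e (nat_lit 8234) (nat_lit 20) (.e (nat_lit 573482) (nat_lit 13) (.e (nat_lit 65619) (nat_lit 10) (.e (nat_lit 344117) (nat_lit 21) (.e (nat_lit 516106) (nat_lit 0) .nil))))) .nil)) 
(.lf (nat_lit 129889) (.g (nat_lit 3820) (.e (nat_lit 8234) (nat_lit 20) (.e (nat_lit 573489) (nat_lit 14) (.e (nat_lit 73755) (nat_lit 8) (.e (nat_lit 557105) (nat_lit 14) (.e (nat_lit 180252) (nat_lit 10) (.e (nat_lit 573474) (nat_lit 12) (.e (nat_lit 57508) (nat_lit 39) (.e (nat_lit 655104) (nat_lit 10) .nil)))))))) (.g (nat_lit 7) .nil .nil)))) (.nd (nat_lit 5) 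
(.lf (nat_lit 129873) (.g (nat_lit 5196) (.e (nat_lit 8234) (nat_lit 20) (.e (nat_lit 573485) (nat_lit 13) (.e (nat_lit 65604) (nat_lit 9) (.e (nat_lit 336028) (nat_lit 3) (.e (nat_lit 98350) (nat_lit 24) (.e (nat_lit 409616) (nat_lit 10) (.e (nat_lit 7936) (nat_lit 299) .nil))))))) (.g (nat_lit 6) .nil .nil))) 
(.lf (nat_lit 129905) (.g (nat_lit 1566) (.e (nat_lit 8249) (nat_lit 34) (.e (nat_lit 688176) (nat_lit 16) (.e (nat_lit 65569) (nat_lit 3) (.e (nat_lit 98359) (nat_lit 26) (.e (nat_lit 426211) (nat_lit 9) .nil))))) .nil)))) (.nd (nat_lit 4) (.nd (nat_lit 5) 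
(.lf (nat_lit 129865) (.g (nat_lit 1922) (.e (nat_lit 8234) (nat_lit 20) (.e (nat_lit 573484) (nat_lit 13) (.e (nat_lit 65610) (nat_lit 10) (.e (nat_lit 344116) (nat_lit 21) (.e (nat_lit 516139) (nat_lit 7) .nil))))) .nil)) 
(.lf (nat_lit 129897) (.g (nat_lit 3841) (.e (nat_lit 8234) (nat_lit 20) (.e (nat_lit 573492) (nat_lit 15) (.e (nat_lit 81956) (nat_lit 23) (.e (nat_lit 98350) (nat_lit 24) .nil)))) .nil))) (.nd (nat_lit 5) 
(.lf (nat_lit 129881) (.g (nat_lit 3221) (.e (nat_lit 8234) (nat_lit 20) (.e (nat_lit 573485) (nat_lit 13) (.e (nat_lit 65619) (nat_lit 10) (.e (nat_lit 344129) (nat_lit 26) (.e (nat_lit 557087) (nat_lit 11) (.e (nat_lit 24588) (nat_lit 0) (.e (nat_lit 7936) (nat_lit 344) .nil))))))) (.g (nat_lit 6) .nil .nil))) 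
(.lf (nat_lit 129913) (.g (nat_lit 1216) (.e (nat_lit 16128) (nat_lit 34) (.e (nat_lit 688177) (nat_lit 16) (.e (nat_lit 65569) (nat_lit 3) (.e (nat_lit 98381) (nat_lit 31) .nil)))) .nil))))) (.nd (nat_lit 3) (.nd (nat_lit 4) (.nd (nat_lit 5) 
(.lf (nat_lit 129861) (.g (nat_lit 3117) (.e (nat_lit 8234) (nat_lit 20) (.e (nat_lit 573482) (nat_lit 13) (.e (nat_lit 65619) (nat_lit 10) (.e (nat_lit 344129) (nat_lit 26) (.e (nat_lit 557087) (nat_lit 11) (.e (nat_lit 24576) (nat_lit 0) (.e (nat_lit 6505) (nat_lit 344) .nil))))))) (.g (nat_lit 4) .nil .nil))) 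
(.lf (nat_lit 129893) (.g (nat_lit 4099) (.e (nat_lit 8234) (nat_lit 20) (.e (nat_lit 573490) (nat_lit 15) (.e (nat_lit 81956) (nat_lit 23) (.e (nat_lit 98350) (nat_lit 24) (.e (nat_lit 409616) (nat_lit 10) (.e (nat_lit 7936) (nat_lit 299) .nil)))))) (.g (nat_lit 5) .nil .nil)))) (.nd (nat_lit 5) 
(.lf (nat_lit 129877) (.g (nat_lit 2780) (.e (nat_lit 8234) (nat_lit 20) (.e (nat_lit 573485) (nat_lit 13) (.e (nat_lit 65619) (nat_lit 10) (.e (nat_lit 344117) (nat_lit 21) (.e (nat_lit 516185) (nat_lit 16) (.e (nat_lit 491526) (nat_lit 0) (.e (nat_lit 7936) (nat_lit 344) .nil))))))) (.g (nat_lit 5) .nil .nil))) 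
(.lf (nat_lit 129909) (.g (nat_lit 2014) (.e (nat_lit 8249) (nat_lit 34) (.e (nat_lit 688179) (nat_lit 17) (.e (nat_lit 73746) (nat_lit 3) (.e (nat_lit 516176) (nat_lit 14) (.e (nat_lit 466977) (nat_lit 22) (.e (nat_lit 196651) (nat_lit 10) .nil)))))) (.g (nat_lit 6) .nil .nil))))) (.nd (nat_lit 4) (.nd (nat_lit 5) 
(.lf (nat_lit 129869) (.g (nat_lit 5181) (.e (nat_lit 8234) (nat_lit 20) (.e (nat_lit 573484) (nat_lit 13) (.e (nat_lit 65610) (nat_lit 10) (.e (nat_lit 344117) (nat_lit 21) (.e (nat_lit 516139) (nat_lit 7) (.e (nat_lit 409616) (nat_lit 10) (.e (nat_lit 7936) (nat_lit 299) .nil))))))) (.g (nat_lit 6) .nil .nil))) 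
(.lf (nat_lit 129901) (.g (nat_lit 8018) (.e (nat_lit 8234) (nat_lit 20) (.e (nat_lit 573493) (nat_lit 15) (.e (nat_lit 81956) (nat_lit 23) (.e (nat_lit 98350) (nat_lit 24) (.e (nat_lit 409616) (nat_lit 10) (.e (nat_lit 7936) (nat_lit 299) .nil)))))) (.g (nat_lit 5) .nil .nil)))) (.nd (nat_lit 5) 
(.lf (nat_lit 129885) (.g (nat_lit 2326) (.e (nat_lit 8234) (nat_lit 20) (.e (nat_lit 573489) (nat_lit 14) (.e (nat_lit 73755) (nat_lit 8) (.e (nat_lit 557105) (nat_lit 14) (.e (nat_lit 180252) (nat_lit 10) (.e (nat_lit 573473) (nat_lit 12) (.e (nat_lit 57507) (nat_lit 39) (.e (nat_lit 655104) (nat_lit 10) .nil)))))))) (.g (nat_lit 4) .nil .nil))) 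
(.lf (nat_lit 129917) (.g (nat_lit 3059) (.e (nat_lit 8253) (nat_lit 36) (.e (nat_lit 704738) (nat_lit 11) (.e (nat_lit 16412) (nat_lit 2) (.e (nat_lit 196663) (nat_lit 13) (.e (nat_lit 65630) (nat_lit 14) .nil))))) .nil)))))) (.nd (nat_lit 2) (.nd (nat_lit 3) (.nd (nat_lit 4) (.nd (nat_lit 5) 
(.lf (nat_lit 129859) (.g (nat_lit 3521) (.e (nat_lit 8234) (nat_lit 20) (.e (nat_lit 573482) (nat_lit 13) (.e (nat_lit 65619) (nat_lit 10) (.e (nat_lit 344119) (nat_lit 21) (.e (nat_lit 516139) (nat_lit 7) (.e (nat_lit 409616) (nat_lit 10) (.e (nat_lit 7936) (nat_lit 299) .nil))))))) (.g (nat_lit 4) .nil .nil))) 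
(.lf (nat_lit 129891) (.g (nat_lit 2674) (.e (nat_lit 8234) (nat_lit 20) (.e (nat_lit 573489) (nat_lit 14) (.e (nat_lit 73755) (nat_lit 8) (.e (nat_lit 557105) (nat_lit 14) (.e (nat_lit 180252) (nat_lit 10) (.e (nat_lit 573474) (nat_lit 12) (.e (nat_lit 57509) (nat_lit 39) (.e (nat_lit 655104) (nat_lit 10) .nil)))))))) (.g (nat_lit 5) .nil .nil)))) (.nd (nat_lit 5) 
(.lf (nat_lit 129875) (.g (nat_lit 4124) (.e (nat_lit 8234) (nat_lit 20) (.e (nat_lit 573485) (nat_lit 13) (.e (nat_lit 65619) (nat_lit 10) (.e (nat_lit 344117) (nat_lit 21) (.e (nat_lit 516138) (nat_lit 7) (.e (nat_lit 409616) (nat_lit 10) (.e (nat_lit 7936) (nat_lit 299) .nil))))))) (.g (nat_lit 6) .nil .nil))) 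
(.lf (nat_lit 129907) (.g (nat_lit 2248) (.e (nat_lit 8249) (nat_lit 34) (.e (nat_lit 688177) (nat_lit 16) (.e (nat_lit 65569) (nat_lit 3) (.e (nat_lit 98359) (nat_lit 26) (.e (nat_lit 426211) (nat_lit 9) (.e (nat_lit 426125) (nat_lit 2) (.e (nat_lit 204544) (nat_lit 10) .nil))))))) (.g (nat_lit 4) .nil .nil))))) (.nd (nat_lit 4) (.nd (nat_lit 5) 
(.lf (nat_lit 129867) (.g (nat_lit 4293) (.e (nat_lit 8234) (nat_lit 20) (.e (nat_lit 573484) (nat_lit 13) (.e (nat_lit 65610) (nat_lit 10) (.e (nat_lit 344117) (nat_lit 21) (.e (nat_lit 516138) (nat_lit 7) (.e (nat_lit 409616) (nat_lit 10) (.e (nat_lit 7936) (nat_lit 299) .nil))))))) (.g (nat_lit 6) .nil .nil))) 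
(.lf (nat_lit 129899) (.g (nat_lit 2877) (.e (nat_lit 8234) (nat_lit 20) (.e (nat_lit 573493) (nat_lit 15) (.e (nat_lit 81954) (nat_lit 23) (.e (nat_lit 98350) (nat_lit 24) .nil)))) .nil))) (.nd (nat_lit 5) 
(.lf (nat_lit 129883) (.g (nat_lit 3147) (.e (nat_lit 8234) (nat_lit 20) (.e (nat_lit 573489) (nat_lit 14) (.e (nat_lit 73755) (nat_lit 8) (.e (nat_lit 557104) (nat_lit 14) (.e (nat_lit 188160) (nat_lit 3) .nil))))) .nil)) 
(.lf (nat_lit 129915) (.g (nat_lit 2349) (.e (nat_lit 8251) (nat_lit 36) (.e (nat_lit 704738) (nat_lit 11) (.e (nat_lit 16425) (nat_lit 7) (.e (nat_lit 409649) (nat_lit 18) .nil)))) .nil))))) (.nd (nat_lit 3) (.nd (nat_lit 4) (.nd (nat_lit 5) 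
(.lf (nat_lit 129863) (.g (nat_lit 4770) (.e (nat_lit 8234) (nat_lit 20) (.e (nat_lit 573482) (nat_lit 13) (.e (nat_lit 65619) (nat_lit 10) (.e (nat_lit 344129) (nat_lit 26) (.e (nat_lit 557087) (nat_lit 11) (.e (nat_lit 24580) (nat_lit 0) (.e (nat_lit 6506) (nat_lit 344) .nil))))))) (.g (nat_lit 5) .nil .nil))) 
(.lf (nat_lit 129895) (.g (nat_lit 3935) (.e (nat_lit 8234) (nat_lit 20) (.e (nat_lit 573491) (nat_lit 15) (.e (nat_lit 81955) (nat_lit 23) (.e (nat_lit 98350) (nat_lit 24) (.e (nat_lit 409616) (nat_lit 10) (.e (nat_lit 7936) (nat_lit 299) .nil)))))) (.g (nat_lit 5) .nil .nil)))) (.nd (nat_lit 5) 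
(.lf (nat_lit 129879) (.g (nat_lit 4995) (.e (nat_lit 8234) (nat_lit 20) (.e (nat_lit 573485) (nat_lit 13) (.e (nat_lit 65619) (nat_lit 10) (.e (nat_lit 344129) (nat_lit 26) (.e (nat_lit 557087) (nat_lit 11) (.e (nat_lit 24580) (nat_lit 0) (.e (nat_lit 6506) (nat_lit 344) .nil))))))) (.g (nat_lit 6) .nil .nil))) 
(.lf (nat_lit 129911) (.g (nat_lit 2556) (.e (nat_lit 8249) (nat_lit 34) (.e (nat_lit 688180) (nat_lit 17) (.e (nat_lit 73747) (nat_lit 3) (.e (nat_lit 516176) (nat_lit 14) (.e (nat_lit 466977) (nat_lit 22) (.e (nat_lit 196651) (nat_lit 10) .nil)))))) (.g (nat_lit 5) .nil .nil))))) (.nd (nat_lit 4) (.nd (nat_lit 5) 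
(.lf (nat_lit 129871) (.g (nat_lit 1969) (.e (nat_lit 8234) (nat_lit 20) (.e (nat_lit 573485) (nat_lit 13) (.e (nat_lit 65604) (nat_lit 9) (.e (nat_lit 336028) (nat_lit 3) (.e (nat_lit 98349) (nat_lit 24) .nil))))) .nil)) 
(.lf (nat_lit 129903) (.g (nat_lit 2272) (.e (nat_lit 8249) (nat_lit 34) (.e (nat_lit 688175) (nat_lit 16) (.e (nat_lit 65571) (nat_lit 3) (.e (nat_lit 98359) (nat_lit 26) (.e (nat_lit 426211) (nat_lit 9) .nil))))) .nil))) (.nd (nat_lit 5) 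
(.lf (nat_lit 129887) (.g (nat_lit 2502) (.e (nat_lit 8234) (nat_lit 20) (.e (nat_lit 573489) (nat_lit 14) (.e (nat_lit 73755) (nat_lit 8) (.e (nat_lit 557105) (nat_lit 14) (.e (nat_lit 180252) (nat_lit 10) (.e (nat_lit 573474) (nat_lit 12) (.e (nat_lit 57506) (nat_lit 39) (.e (nat_lit 655104) (nat_lit 10) .nil)))))))) (.g (nat_lit 4) .nil .nil))) 
(.lf (nat_lit 129919) (.g (nat_lit 2476) (.e (nat_lit 8253) (nat_lit 36) (.e (nat_lit 704738) (nat_lit 11) (.e (nat_lit 16425) (nat_lit 7) (.e (nat_lit 409649) (nat_lit 18) (.e (nat_lit 303140) (nat_lit 10) (.e (nat_lit 434265) (nat_lit 35) (.e (nat_lit 630817) (nat_lit 14) .nil))))))) (.g (nat_lit 4) .nil .nil)))))))))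

noncomputable def tv1734 : DT := (.nd (nat_lit 0) (.nd (nat_lit 1) (.nd (nat_lit 2) (.nd (nat_lit 3) (.nd (nat_lit 4) (.nd (nat_lit 5) (.nd (nat_lit 6) 
(.lf (nat_lit 129920) (.g (nat_lit 3241) (.e (nat_lit 8259) (nat_lit 45) (.e (nat_lit 778317) (nat_lit 3) (.e (nat_lit 57480) (nat_lit 28) (.e (nat_lit 557108) (nat_lit 15) (.e (nat_lit 188452) (nat_lit 23) (.e (nat_lit 204816) (nat_lit 17) (.e (nat_lit 6506) (nat_lit 344) .nil))))))) (.g (nat_lit 5) .nil .nil))) 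
(.lf (nat_lit 129984) (.g (nat_lit 2964) (.e (nat_lit 8271) (nat_lit 46) (.e (nat_lit 786483) (nat_lit 30) (.e (nat_lit 360475) (nat_lit 8) (.e (nat_lit 557091) (nat_lit 12) (.e (nat_lit 164006) (nat_lit 41) .nil))))) .nil))) (.nd (nat_lit 6) 
(.lf (nat_lit 129952) (.g (nat_lit 2964) (.e (nat_lit 8262) (nat_lit 45) (.e (nat_lit 778317) (nat_lit 3) (.e (nat_lit 57521) (nat_lit 44) (.e (nat_lit 688168) (nat_lit 15) (.e (nat_lit 57478) (nat_lit 28) (.e (nat_lit 557109) (nat_lit 15) (.e (nat_lit 188461) (nat_lit 26) (.e (nat_lit 253983) (nat_lit 10) .nil)))))))) (.g (nat_lit 5) .nil .nil))) 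
(.lf (nat_lit 130016) (.g (nat_lit 3213) (.e (nat_lit 8303) (nat_lit 58) (.e (nat_lit 286761) (nat_lit 13) (.e (nat_lit 393301) (nat_lit 27) (.e (nat_lit 491560) (nat_lit 10) .nil)))) .nil)))) (.nd (nat_lit 5) (.nd (nat_lit 6) 
(.lf (nat_lit 129936) (.g (nat_lit 2259) (.e (nat_lit 8261) (nat_lit 45) (.e (nat_lit 778318) (nat_lit 3) (.e (nat_lit 57454) (nat_lit 21) (.e (nat_lit 507648) (nat_lit 19) (.e (nat_lit 73746) (nat_lit 3) (.e (nat_lit 516131) (nat_lit 3) (.e (nat_lit 221212) (nat_lit 22) (.e (nat_lit 196648) (nat_lit 10) .nil)))))))) (.g (nat_lit 6) .nil .nil))) 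
(.lf (nat_lit 130000) (.g (nat_lit 515) (.e (nat_lit 8303) (nat_lit 58) (.e (nat_lit 286759) (nat_lit 12) (.e (nat_lit 385074) (nat_lit 31) .nil))) .nil))) (.nd (nat_lit 6) 
(.lf (nat_lit 129968) (.g (nat_lit 329) (.e (nat_lit 8262) (nat_lit 45) (.e (nat_lit 778323) (nat_lit 5) (.e (nat_lit 81664) (nat_lit 36) .nil))) .nil)) 
(.lf (nat_lit 130032) (.g (nat_lit 4633) (.e (nat_lit 8304) (nat_lit 58) (.e (nat_lit 286761) (nat_lit 13) (.e (nat_lit 393301) (nat_lit 27) (.e (nat_lit 491558) (nat_lit 10) .nil)))) .nil))))) (.nd (nat_lit 4) (.nd (nat_lit 5) (.nd (nat_lit 6) 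
(.lf (nat_lit 129928) (.g (nat_lit 216) (.e (nat_lit 8259) (nat_lit 45) (.e (nat_lit 778324) (nat_lit 5) (.e (nat_lit 81664) (nat_lit 36) .nil))) .nil)) 
(.lf (nat_lit 129992) (.g (nat_lit 3151) (.e (nat_lit 8295) (nat_lit 51) (.e (nat_lit 5293) (nat_lit 298) (.e (nat_lit 1656) (nat_lit 115) (.e (nat_lit 393301) (nat_lit 27) (.e (nat_lit 491559) (nat_lit 10) .nil))))) .nil))) (.nd (nat_lit 6) 
(.lf (nat_lit 129960) (.g (nat_lit 2812) (.e (nat_lit 8262) (nat_lit 45) (.e (nat_lit 778320) (nat_lit 4) (.e (nat_lit 65630) (nat_lit 14) (.e (nat_lit 401459) (nat_lit 13) (.e (nat_lit 483343) (nat_lit 17) (.e (nat_lit 6505) (nat_lit 344) .nil)))))) (.g (nat_lit 5) .nil .nil))) 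
(.lf (nat_lit 130024) (.g (nat_lit 982) (.e (nat_lit 8304) (nat_lit 58) (.e (nat_lit 286735) (nat_lit 3) (.e (nat_lit 98372) (nat_lit 29) .nil))) .nil)))) (.nd (nat_lit 5) (.nd (nat_lit 6) 
(.lf (nat_lit 129944) (.g (nat_lit 1419) (.e (nat_lit 8261) (nat_lit 45) (.e (nat_lit 778324) (nat_lit 5) (.e (nat_lit 81664) (nat_lit 38) (.e (nat_lit 229433) (nat_lit 25) (.e (nat_lit 532515) (nat_lit 3) (.e (nat_lit 114723) (nat_lit 24) (.e (nat_lit 106533) (nat_lit 10) .nil))))))) (.g (nat_lit 6) .nil .nil))) 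
(.lf (nat_lit 130008) (.g (nat_lit 2041) (.e (nat_lit 8303) (nat_lit 58) (.e (nat_lit 286761) (nat_lit 13) (.e (nat_lit 393234) (nat_lit 17) (.e (nat_lit 7593) (nat_lit 407) .nil)))) .nil))) (.nd (nat_lit 6) 
(.lf (nat_lit 129976) (.g (nat_lit 3213) (.e (nat_lit 8270) (nat_lit 46) (.e (nat_lit 786483) (nat_lit 30) (.e (nat_lit 360475) (nat_lit 8) (.e (nat_lit 557090) (nat_lit 12) (.e (nat_lit 164003) (nat_lit 40) .nil))))) .nil)) 
(.lf (nat_lit 130040) (.g (nat_lit 2085) (.e (nat_lit 8305) (nat_lit 58) (.e (nat_lit 286734) (nat_lit 3) (.e (nat_lit 106240) (nat_lit 16) (.e (nat_lit 401459) (nat_lit 13) (.e (nat_lit 483363) (nat_lit 18) (.e (nat_lit 57676) (nat_lit 153) .nil)))))) (.g (nat_lit 5) .nil .nil))))))) (.nd (nat_lit 3) (.nd (nat_lit 4) (.nd (nat_lit 5) (.nd (nat_lit 6) 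
(.lf (nat_lit 129924) (.g (nat_lit 3264) (.e (nat_lit 8259) (nat_lit 45) (.e (nat_lit 778318) (nat_lit 3) (.e (nat_lit 57454) (nat_lit 21) (.e (nat_lit 507648) (nat_lit 19) (.e (nat_lit 73746) (nat_lit 3) (.e (nat_lit 516131) (nat_lit 3) (.e (nat_lit 221212) (nat_lit 22) (.e (nat_lit 196651) (nat_lit 10) .nil)))))))) (.g (nat_lit 7) .nil .nil))) 
(.lf (nat_lit 129988) (.g (nat_lit 3100) (.e (nat_lit 8287) (nat_lit 51) (.e (nat_lit 7454) (nat_lit 396) (.e (nat_lit 1188) (nat_lit 88) (.e (nat_lit 65630) (nat_lit 14) (.e (nat_lit 401454) (nat_lit 12) (.e (nat_lit 475154) (nat_lit 20) (.e (nat_lit 229691) (nat_lit 247) .nil))))))) (.g (nat_lit 5) .nil .nil)))) (.nd (nat_lit 6) 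
(.lf (nat_lit 129956) (.g (nat_lit 1166) (.e (nat_lit 8262) (nat_lit 45) (.e (nat_lit 778318) (nat_lit 3) (.e (nat_lit 57454) (nat_lit 21) (.e (nat_lit 507648) (nat_lit 19) .nil)))) .nil)) 
(.lf (nat_lit 130020) (.g (nat_lit 4640) (.e (nat_lit 8303) (nat_lit 58) (.e (nat_lit 286761) (nat_lit 13) (.e (nat_lit 393301) (nat_lit 27) (.e (nat_lit 491560) (nat_lit 10) (.e (nat_lit 344094) (nat_lit 18) .nil))))) .nil)))) (.nd (nat_lit 5) (.nd (nat_lit 6) 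
(.lf (nat_lit 129940) (.g (nat_lit 4055) (.e (nat_lit 8261) (nat_lit 45) (.e (nat_lit 778320) (nat_lit 4) (.e (nat_lit 65630) (nat_lit 14) (.e (nat_lit 401459) (nat_lit 13) (.e (nat_lit 483344) (nat_lit 17) (.e (nat_lit 6506) (nat_lit 344) .nil)))))) (.g (nat_lit 6) .nil .nil))) 
(.lf (nat_lit 130004) (.g (nat_lit 462) (.e (nat_lit 8303) (nat_lit 58) (.e (nat_lit 286759) (nat_lit 12) (.e (nat_lit 385094) (nat_lit 49) .nil))) .nil))) (.nd (nat_lit 6) 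
(.lf (nat_lit 129972) (.g (nat_lit 1663) (.e (nat_lit 8267) (nat_lit 45) (.e (nat_lit 778362) (nat_lit 9) (.e (nat_lit 232) (nat_lit 21) (.e (nat_lit 336060) (nat_lit 7) .nil)))) .nil)) 
(.lf (nat_lit 130036) (.g (nat_lit 5851) (.e (nat_lit 8304) (nat_lit 58) (.e (nat_lit 286761) (nat_lit 13) (.e (nat_lit 393301) (nat_lit 27) (.e (nat_lit 491560) (nat_lit 10) (.e (nat_lit 344089) (nat_lit 18) .nil))))) .nil))))) (.nd (nat_lit 4) (.nd (nat_lit 5) (.nd (nat_lit 6) 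
(.lf (nat_lit 129932) (.g (nat_lit 1597) (.e (nat_lit 8260) (nat_lit 45) (.e (nat_lit 778324) (nat_lit 5) (.e (nat_lit 73781) (nat_lit 32) (.e (nat_lit 2856) (nat_lit 184) (.e (nat_lit 426533) (nat_lit 28) .nil))))) .nil)) 
(.lf (nat_lit 129996) (.g (nat_lit 1210) (.e (nat_lit 8303) (nat_lit 58) (.e (nat_lit 286735) (nat_lit 3) (.e (nat_lit 98333) (nat_lit 18) .nil))) .nil))) (.nd (nat_lit 6) 
(.lf (nat_lit 129964) (.g (nat_lit 3475) (.e (nat_lit 8262) (nat_lit 45) (.e (nat_lit 778320) (nat_lit 4) (.e (nat_lit 65630) (nat_lit 14) (.e (nat_lit 401459) (nat_lit 13) (.e (nat_lit 483344) (nat_lit 17) (.e (nat_lit 6507) (nat_lit 344) .nil)))))) (.g (nat_lit 5) .nil .nil))) 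
(.lf (nat_lit 130028) (.g (nat_lit 1525) (.e (nat_lit 8304) (nat_lit 58) (.e (nat_lit 286759) (nat_lit 12) (.e (nat_lit 385094) (nat_lit 49) (.e (nat_lit 778326) (nat_lit 6) .nil)))) .nil)))) (.nd (nat_lit 5) (.nd (nat_lit 6) 
(.lf (nat_lit 129948) (.g (nat_lit 3906) (.e (nat_lit 8262) (nat_lit 45) (.e (nat_lit 778317) (nat_lit 3) (.e (nat_lit 57479) (nat_lit 28) (.e (nat_lit 557109) (nat_lit 15) (.e (nat_lit 188452) (nat_lit 23) .nil))))) .nil)) 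
(.lf (nat_lit 130012) (.g (nat_lit 4624) (.e (nat_lit 8303) (nat_lit 58) (.e (nat_lit 286761) (nat_lit 13) (.e (nat_lit 393301) (nat_lit 27) (.e (nat_lit 491558) (nat_lit 10) (.e (nat_lit 344088) (nat_lit 18) .nil))))) .nil))) (.nd (nat_lit 6) 
(.lf (nat_lit 129980) (.g (nat_lit 3104) (.e (nat_lit 8270) (nat_lit 46) (.e (nat_lit 786483) (nat_lit 30) (.e (nat_lit 360475) (nat_lit 8) (.e (nat_lit 557091) (nat_lit 12) (.e (nat_lit 164007) (nat_lit 41) .nil))))) .nil)) 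
(.lf (nat_lit 130044) (.g (nat_lit 890) (.e (nat_lit 8305) (nat_lit 58) (.e (nat_lit 286735) (nat_lit 3) (.e (nat_lit 98372) (nat_lit 29) .nil))) .nil))))))) (.nd (nat_lit 2) (.nd (nat_lit 3) (.nd (nat_lit 4) (.nd (nat_lit 5) (.nd (nat_lit 6) 
(.lf (nat_lit 129922) (.g (nat_lit 1103) (.e (nat_lit 8259) (nat_lit 45) (.e (nat_lit 778318) (nat_lit 3) (.e (nat_lit 57454) (nat_lit 21) (.e (nat_lit 507648) (nat_lit 19) .nil)))) .nil)) 
(.lf (nat_lit 129986) (.g (nat_lit 2028) (.e (nat_lit 8286) (nat_lit 51) (.e (nat_lit 720) (nat_lit 64) (.e (nat_lit 688177) (nat_lit 16) (.e (nat_lit 65569) (nat_lit 3) (.e (nat_lit 98370) (nat_lit 28) .nil))))) .nil))) (.nd (nat_lit 6) 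
(.lf (nat_lit 129954) (.g (nat_lit 2203) (.e (nat_lit 8262) (nat_lit 45) (.e (nat_lit 778317) (nat_lit 3) (.e (nat_lit 57521) (nat_lit 44) (.e (nat_lit 688171) (nat_lit 15) .nil)))) .nil)) 
(.lf (nat_lit 130018) (.g (nat_lit 4610) (.e (nat_lit 8303) (nat_lit 58) (.e (nat_lit 286761) (nat_lit 13) (.e (nat_lit 393301) (nat_lit 27) (.e (nat_lit 491560) (nat_lit 10) (.e (nat_lit 344088) (nat_lit 18) .nil))))) .nil)))) (.nd (nat_lit 5) (.nd (nat_lit 6) 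
(.lf (nat_lit 129938) (.g (nat_lit 2959) (.e (nat_lit 8261) (nat_lit 45) (.e (nat_lit 778320) (nat_lit 4) (.e (nat_lit 65630) (nat_lit 14) (.e (nat_lit 401459) (nat_lit 13) (.e (nat_lit 483343) (nat_lit 17) (.e (nat_lit 6505) (nat_lit 344) .nil)))))) (.g (nat_lit 5) .nil .nil))) 
(.lf (nat_lit 130002) (.g (nat_lit 2252) (.e (nat_lit 8303) (nat_lit 58) (.e (nat_lit 286759) (nat_lit 12) (.e (nat_lit 385074) (nat_lit 31) (.e (nat_lit 573484) (nat_lit 13) (.e (nat_lit 65617) (nat_lit 10) (.e (nat_lit 344087) (nat_lit 18) (.e (nat_lit 3898) (nat_lit 234) .nil))))))) (.g (nat_lit 4) .nil .nil)))) (.nd (nat_lit 6) 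
(.lf (nat_lit 129970) (.g (nat_lit 2026) (.e (nat_lit 8262) (nat_lit 45) (.e (nat_lit 778324) (nat_lit 5) (.e (nat_lit 73781) (nat_lit 32) (.e (nat_lit 2856) (nat_lit 184) (.e (nat_lit 426533) (nat_lit 28) (.e (nat_lit 352000) (nat_lit 9) .nil)))))) (.g (nat_lit 5) .nil .nil))) 
(.lf (nat_lit 130034) (.g (nat_lit 4169) (.e (nat_lit 8304) (nat_lit 58) (.e (nat_lit 286761) (nat_lit 13) (.e (nat_lit 393301) (nat_lit 27) (.e (nat_lit 491560) (nat_lit 10) .nil)))) .nil))))) (.nd (nat_lit 4) (.nd (nat_lit 5) (.nd (nat_lit 6) 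
(.lf (nat_lit 129930) (.g (nat_lit 2465) (.e (nat_lit 8260) (nat_lit 45) (.e (nat_lit 778320) (nat_lit 4) (.e (nat_lit 65630) (nat_lit 14) (.e (nat_lit 401459) (nat_lit 13) (.e (nat_lit 483343) (nat_lit 17) .nil))))) .nil)) 
(.lf (nat_lit 129994) (.g (nat_lit 2171) (.e (nat_lit 8303) (nat_lit 58) (.e (nat_lit 286733) (nat_lit 2) (.e (nat_lit 90134) (nat_lit 9) (.e (nat_lit 353) (nat_lit 29) .nil)))) .nil))) (.nd (nat_lit 6) 
(.lf (nat_lit 129962) (.g (nat_lit 3533) (.e (nat_lit 8262) (nat_lit 45) (.e (nat_lit 778320) (nat_lit 4) (.e (nat_lit 65630) (nat_lit 14) (.e (nat_lit 401459) (nat_lit 13) (.e (nat_lit 483344) (nat_lit 17) (.e (nat_lit 6505) (nat_lit 344) .nil)))))) (.g (nat_lit 5) .nil .nil))) 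
(.lf (nat_lit 130026) (.g (nat_lit 900) (.e (nat_lit 8304) (nat_lit 58) (.e (nat_lit 286759) (nat_lit 12) (.e (nat_lit 385074) (nat_lit 31) .nil))) .nil)))) (.nd (nat_lit 5) (.nd (nat_lit 6) 
(.lf (nat_lit 129946) (.g (nat_lit 2430) (.e (nat_lit 8262) (nat_lit 45) (.e (nat_lit 778317) (nat_lit 3) (.e (nat_lit 57454) (nat_lit 21) (.e (nat_lit 507648) (nat_lit 19) (.e (nat_lit 73746) (nat_lit 3) (.e (nat_lit 516131) (nat_lit 3) (.e (nat_lit 221212) (nat_lit 22) (.e (nat_lit 196650) (nat_lit 10) .nil)))))))) (.g (nat_lit 6) .nil .nil))) 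
(.lf (nat_lit 130010) (.g (nat_lit 1037) (.e (nat_lit 8303) (nat_lit 58) (.e (nat_lit 286761) (nat_lit 13) (.e (nat_lit 393300) (nat_lit 27) .nil))) .nil))) (.nd (nat_lit 6) 
(.lf (nat_lit 129978) (.g (nat_lit 3583) (.e (nat_lit 8270) (nat_lit 46) (.e (nat_lit 786483) (nat_lit 30) (.e (nat_lit 360475) (nat_lit 8) (.e (nat_lit 557090) (nat_lit 12) (.e (nat_lit 164012) (nat_lit 42) .nil))))) .nil)) 
(.lf (nat_lit 130042) (.g (nat_lit 4323) (.e (nat_lit 8305) (nat_lit 58) (.e (nat_lit 286734) (nat_lit 3) (.e (nat_lit 98373) (nat_lit 29) (.e (nat_lit 450588) (nat_lit 10) (.e (nat_lit 573475) (nat_lit 12) (.e (nat_lit 57347) (nat_lit 0) (.e (nat_lit 6927) (nat_lit 372) .nil))))))) (.g (nat_lit 4) .nil .nil))))))) (.nd (nat_lit 3) (.nd (nat_lit 4) (.nd (nat_lit 5) (.nd (nat_lit 6) 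
(.lf (nat_lit 129926) (.g (nat_lit 2972) (.e (nat_lit 8259) (nat_lit 45) (.e (nat_lit 778320) (nat_lit 4) (.e (nat_lit 65630) (nat_lit 14) (.e (nat_lit 401459) (nat_lit 13) (.e (nat_lit 483343) (nat_lit 17) (.e (nat_lit 6505) (nat_lit 344) .nil)))))) (.g (nat_lit 5) .nil .nil))) 
(.lf (nat_lit 129990) (.g (nat_lit 505) (.e (nat_lit 8291) (nat_lit 51) (.e (nat_lit 5195) (nat_lit 294) (.e (nat_lit 57432) (nat_lit 16) .nil))) .nil))) (.nd (nat_lit 6) 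
(.lf (nat_lit 129958) (.g (nat_lit 1712) (.e (nat_lit 8262) (nat_lit 45) (.e (nat_lit 778318) (nat_lit 3) (.e (nat_lit 57454) (nat_lit 21) (.e (nat_lit 507648) (nat_lit 19) (.e (nat_lit 73746) (nat_lit 3) (.e (nat_lit 516131) (nat_lit 3) (.e (nat_lit 221211) (nat_lit 22) (.e (nat_lit 196648) (nat_lit 10) .nil)))))))) (.g (nat_lit 5) .nil .nil))) 
(.lf (nat_lit 130022) (.g (nat_lit 2397) (.e (nat_lit 8303) (nat_lit 58) (.e (nat_lit 286768) (nat_lit 27) (.e (nat_lit 426171) (nat_lit 7) (.e (nat_lit 409646) (nat_lit 18) (.e (nat_lit 303151) (nat_lit 27) .nil))))) .nil)))) (.nd (nat_lit 5) (.nd (nat_lit 6) 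
(.lf (nat_lit 129942) (.g (nat_lit 3369) (.e (nat_lit 8261) (nat_lit 45) (.e (nat_lit 778320) (nat_lit 4) (.e (nat_lit 65630) (nat_lit 14) (.e (nat_lit 401459) (nat_lit 13) (.e (nat_lit 483344) (nat_lit 17) (.e (nat_lit 7936) (nat_lit 344) .nil)))))) (.g (nat_lit 5) .nil .nil))) 
(.lf (nat_lit 130006) (.g (nat_lit 2462) (.e (nat_lit 8303) (nat_lit 58) (.e (nat_lit 286759) (nat_lit 12) (.e (nat_lit 385106) (nat_lit 50) (.e (nat_lit 786483) (nat_lit 30) (.e (nat_lit 360451) (nat_lit 0) (.e (nat_lit 7936) (nat_lit 307) .nil)))))) (.g (nat_lit 5) .nil .nil)))) (.nd (nat_lit 6) 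
(.lf (nat_lit 129974) (.g (nat_lit 1605) (.e (nat_lit 8270) (nat_lit 46) (.e (nat_lit 786483) (nat_lit 30) (.e (nat_lit 360475) (nat_lit 8) (.e (nat_lit 557089) (nat_lit 12) .nil)))) .nil)) 
(.lf (nat_lit 130038) (.g (nat_lit 858) (.e (nat_lit 8305) (nat_lit 58) (.e (nat_lit 286733) (nat_lit 2) (.e (nat_lit 90165) (nat_lit 12) .nil))) .nil))))) (.nd (nat_lit 4) (.nd (nat_lit 5) (.nd (nat_lit 6) 
(.lf (nat_lit 129934) (.g (nat_lit 4816) (.e (nat_lit 8261) (nat_lit 45) (.e (nat_lit 778317) (nat_lit 3) (.e (nat_lit 57477) (nat_lit 28) (.e (nat_lit 557108) (nat_lit 15) (.e (nat_lit 188449) (nat_lit 22) (.e (nat_lit 196700) (nat_lit 22) (.e (nat_lit 229655) (nat_lit 233) .nil))))))) (.g (nat_lit 5) .nil .nil))) 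
(.lf (nat_lit 129998) (.g (nat_lit 2935) (.e (nat_lit 8303) (nat_lit 58) (.e (nat_lit 286735) (nat_lit 3) (.e (nat_lit 98373) (nat_lit 29) (.e (nat_lit 450588) (nat_lit 10) .nil)))) .nil))) (.nd (nat_lit 6) 
(.lf (nat_lit 129966) (.g (nat_lit 2722) (.e (nat_lit 8262) (nat_lit 45) (.e (nat_lit 778320) (nat_lit 4) (.e (nat_lit 65630) (nat_lit 14) (.e (nat_lit 401459) (nat_lit 13) (.e (nat_lit 483354) (nat_lit 17) .nil))))) .nil)) 
(.lf (nat_lit 130030) (.g (nat_lit 1101) (.e (nat_lit 8304) (nat_lit 58) (.e (nat_lit 286761) (nat_lit 13) (.e (nat_lit 393234) (nat_lit 17) .nil))) .nil)))) (.nd (nat_lit 5) (.nd (nat_lit 6) 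
(.lf (nat_lit 129950) (.g (nat_lit 5206) (.e (nat_lit 8262) (nat_lit 45) (.e (nat_lit 778317) (nat_lit 3) (.e (nat_lit 57480) (nat_lit 28) (.e (nat_lit 557109) (nat_lit 15) (.e (nat_lit 188449) (nat_lit 22) (.e (nat_lit 196700) (nat_lit 22) (.e (nat_lit 229655) (nat_lit 233) .nil))))))) (.g (nat_lit 5) .nil .nil))) 
(.lf (nat_lit 130014) (.g (nat_lit 4234) (.e (nat_lit 8303) (nat_lit 58) (.e (nat_lit 286761) (nat_lit 13) (.e (nat_lit 393301) (nat_lit 27) (.e (nat_lit 491558) (nat_lit 10) (.e (nat_lit 344091) (nat_lit 18) .nil))))) .nil))) (.nd (nat_lit 6) 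
(.lf (nat_lit 129982) (.g (nat_lit 3399) (.e (nat_lit 8270) (nat_lit 46) (.e (nat_lit 786483) (nat_lit 30) (.e (nat_lit 360475) (nat_lit 8) (.e (nat_lit 557091) (nat_lit 12) (.e (nat_lit 164012) (nat_lit 42) .nil))))) .nil)) 
(.lf (nat_lit 130046) (.g (nat_lit 3033) (.e (nat_lit 8305) (nat_lit 58) (.e (nat_lit 286735) (nat_lit 3) (.e (nat_lit 98373) (nat_lit 29) (.e (nat_lit 450587) (nat_lit 10) (.e (nat_lit 573478) (nat_lit 12) (.e (nat_lit 57344) (nat_lit 0) (.e (nat_lit 6927) (nat_lit 372) .nil))))))) (.g (nat_lit 5) .nil .nil))))))))) 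
(.nd (nat_lit 1) (.nd (nat_lit 2) (.nd (nat_lit 3) (.nd (nat_lit 4) (.nd (nat_lit 5) 
(.nd (nat_lit 6) 
(.lf (nat_lit 129921) (.g (nat_lit 5205) (.e (nat_lit 8259) (nat_lit 45) (.e (nat_lit 778317) (nat_lit 3) (.e (nat_lit 57480) (nat_lit 28) (.e (nat_lit 557109) (nat_lit 15) (.e (nat_lit 188449) (nat_lit 22) (.e (nat_lit 196700) (nat_lit 22) (.e (nat_lit 229655) (nat_lit 233) .nil))))))) (.g (nat_lit 5) .nil .nil))) 
(.lf (nat_lit 129985) (.g (nat_lit 2352) (.e (nat_lit 8285) (nat_lit 51) (.e (nat_lit 580) (nat_lit 43) (.e (nat_lit 516151) (nat_lit 9) (.e (nat_lit 426211) (nat_lit 9) (.e (nat_lit 426140) (nat_lit 3) .nil))))) .nil))) (.nd (nat_lit 6) 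
(.lf (nat_lit 129953) (.g (nat_lit 2204) (.e (nat_lit 8262) (nat_lit 45) (.e (nat_lit 778317) (nat_lit 3) (.e (nat_lit 57521) (nat_lit 44) (.e (nat_lit 688170) (nat_lit 15) .nil)))) .nil)) 
(.lf (nat_lit 130017) (.g (nat_lit 4942) (.e (nat_lit 8303) (nat_lit 58) (.e (nat_lit 286761) (nat_lit 13) (.e (nat_lit 393301) (nat_lit 27) (.e (nat_lit 491560) (nat_lit 10) (.e (nat_lit 344087) (nat_lit 18) .nil))))) .nil)))) (.nd (nat_lit 5) (.nd (nat_lit 6) 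
(.lf (nat_lit 129937) (.g (nat_lit 2317) (.e (nat_lit 8261) (nat_lit 45) (.e (nat_lit 778318) (nat_lit 3) (.e (nat_lit 57454) (nat_lit 21) (.e (nat_lit 507648) (nat_lit 19) (.e (nat_lit 73746) (nat_lit 3) (.e (nat_lit 516131) (nat_lit 3) (.e (nat_lit 221212) (nat_lit 22) (.e (nat_lit 196650) (nat_lit 10) .nil)))))))) (.g (nat_lit 6) .nil .nil))) 
(.lf (nat_lit 130001) (.g (nat_lit 2234) (.e (nat_lit 8303) (nat_lit 58) (.e (nat_lit 286759) (nat_lit 12) (.e (nat_lit 385074) (nat_lit 31) (.e (nat_lit 573484) (nat_lit 13) (.e (nat_lit 65617) (nat_lit 10) .nil))))) .nil))) (.nd (nat_lit 6) 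
(.lf (nat_lit 129969) (.g (nat_lit 1456) (.e (nat_lit 8262) (nat_lit 45) (.e (nat_lit 778323) (nat_lit 5) (.e (nat_lit 81664) (nat_lit 38) (.e (nat_lit 229433) (nat_lit 25) (.e (nat_lit 532515) (nat_lit 3) (.e (nat_lit 114723) (nat_lit 24) (.e (nat_lit 106531) (nat_lit 10) .nil))))))) (.g (nat_lit 6) .nil .nil))) 
(.lf (nat_lit 130033) (.g (nat_lit 4883) (.e (nat_lit 8304) (nat_lit 58) (.e (nat_lit 286761) (nat_lit 13) (.e (nat_lit 393301) (nat_lit 27) (.e (nat_lit 491559) (nat_lit 10) .nil)))) .nil))))) (.nd (nat_lit 4) (.nd (nat_lit 5) (.nd (nat_lit 6) 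
(.lf (nat_lit 129929) (.g (nat_lit 2872) (.e (nat_lit 8260) (nat_lit 45) (.e (nat_lit 778320) (nat_lit 4) (.e (nat_lit 65630) (nat_lit 14) (.e (nat_lit 401454) (nat_lit 12) (.e (nat_lit 475154) (nat_lit 20) .nil))))) .nil)) 
(.lf (nat_lit 129993) (.g (nat_lit 1377) (.e (nat_lit 8295) (nat_lit 51) (.e (nat_lit 5629) (nat_lit 312) (.e (nat_lit 226) (nat_lit 21) (.e (nat_lit 336434) (nat_lit 30) (.e (nat_lit 450579) (nat_lit 5) .nil))))) .nil))) (.nd (nat_lit 6) 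
(.lf (nat_lit 129961) (.g (nat_lit 2461) (.e (nat_lit 8262) (nat_lit 45) (.e (nat_lit 778320) (nat_lit 4) (.e (nat_lit 65630) (nat_lit 14) (.e (nat_lit 401459) (nat_lit 13) (.e (nat_lit 483343) (nat_lit 17) (.e (nat_lit 6506) (nat_lit 344) .nil)))))) (.g (nat_lit 4) .nil .nil))) 
(.lf (nat_lit 130025) (.g (nat_lit 3077) (.e (nat_lit 8304) (nat_lit 58) (.e (nat_lit 286735) (nat_lit 3) (.e (nat_lit 98373) (nat_lit 29) (.e (nat_lit 450588) (nat_lit 10) .nil)))) .nil)))) (.nd (nat_lit 5) (.nd (nat_lit 6) 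
(.lf (nat_lit 129945) (.g (nat_lit 1128) (.e (nat_lit 8262) (nat_lit 45) (.e (nat_lit 778317) (nat_lit 3) (.e (nat_lit 57454) (nat_lit 21) (.e (nat_lit 507648) (nat_lit 19) .nil)))) .nil)) 
(.lf (nat_lit 130009) (.g (nat_lit 825) (.e (nat_lit 8303) (nat_lit 58) (.e (nat_lit 286761) (nat_lit 13) (.e (nat_lit 393293) (nat_lit 26) .nil))) .nil))) (.nd (nat_lit 6) 
(.lf (nat_lit 129977) (.g (nat_lit 3545) (.e (nat_lit 8270) (nat_lit 46) (.e (nat_lit 786483) (nat_lit 30) (.e (nat_lit 360475) (nat_lit 8) (.e (nat_lit 557090) (nat_lit 12) (.e (nat_lit 164010) (nat_lit 41) .nil))))) .nil)) 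
(.lf (nat_lit 130041) (.g (nat_lit 4318) (.e (nat_lit 8305) (nat_lit 58) (.e (nat_lit 286734) (nat_lit 3) (.e (nat_lit 98373) (nat_lit 29) (.e (nat_lit 450588) (nat_lit 10) (.e (nat_lit 573475) (nat_lit 12) .nil))))) .nil)))))) (.nd (nat_lit 3) (.nd (nat_lit 4) (.nd (nat_lit 5) (.nd (nat_lit 6) 
(.lf (nat_lit 129925) (.g (nat_lit 1685) (.e (nat_lit 8259) (nat_lit 45) (.e (nat_lit 778318) (nat_lit 3) (.e (nat_lit 57454) (nat_lit 21) (.e (nat_lit 507648) (nat_lit 19) (.e (nat_lit 73748) (nat_lit 3) (.e (nat_lit 516131) (nat_lit 3) (.e (nat_lit 221212) (nat_lit 22) (.e (nat_lit 196651) (nat_lit 10) .nil)))))))) (.g (nat_lit 5) .nil .nil))) 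
(.lf (nat_lit 129989) (.g (nat_lit 406) (.e (nat_lit 8289) (nat_lit 51) (.e (nat_lit 5412) (nat_lit 303) (.e (nat_lit 73777) (nat_lit 31) .nil))) .nil))) (.nd (nat_lit 6) 
(.lf (nat_lit 129957) (.g (nat_lit 3158) (.e (nat_lit 8262) (nat_lit 45) (.e (nat_lit 778318) (nat_lit 3) (.e (nat_lit 57454) (nat_lit 21) (.e (nat_lit 507648) (nat_lit 19) (.e (nat_lit 73746) (nat_lit 3) (.e (nat_lit 516129) (nat_lit 3) (.e (nat_lit 221210) (nat_lit 22) (.e (nat_lit 196650) (nat_lit 10) .nil)))))))) (.g (nat_lit 7) .nil .nil))) 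
(.lf (nat_lit 130021) (.g (nat_lit 4893) (.e (nat_lit 8303) (nat_lit 58) (.e (nat_lit 286761) (nat_lit 13) (.e (nat_lit 393301) (nat_lit 27) (.e (nat_lit 491560) (nat_lit 10) (.e (nat_lit 344096) (nat_lit 18) .nil))))) .nil)))) (.nd (nat_lit 5) (.nd (nat_lit 6) 
(.lf (nat_lit 129941) (.g (nat_lit 3456) (.e (nat_lit 8261) (nat_lit 45) (.e (nat_lit 778320) (nat_lit 4) (.e (nat_lit 65630) (nat_lit 14) (.e (nat_lit 401459) (nat_lit 13) (.e (nat_lit 483344) (nat_lit 17) (.e (nat_lit 6507) (nat_lit 344) .nil)))))) (.g (nat_lit 5) .nil .nil))) 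
(.lf (nat_lit 130005) (.g (nat_lit 1450) (.e (nat_lit 8303) (nat_lit 58) (.e (nat_lit 286759) (nat_lit 12) (.e (nat_lit 385094) (nat_lit 49) (.e (nat_lit 778326) (nat_lit 6) .nil)))) .nil))) (.nd (nat_lit 6) 
(.lf (nat_lit 129973) (.g (nat_lit 1999) (.e (nat_lit 8268) (nat_lit 45) (.e (nat_lit 778319) (nat_lit 4) (.e (nat_lit 65630) (nat_lit 14) (.e (nat_lit 401459) (nat_lit 13) (.e (nat_lit 483343) (nat_lit 17) .nil))))) .nil)) 
(.lf (nat_lit 130037) (.g (nat_lit 734) (.e (nat_lit 8305) (nat_lit 58) (.e (nat_lit 286731) (nat_lit 1) (.e (nat_lit 57871) (nat_lit 264) (.e (nat_lit 1210) (nat_lit 89) .nil)))) .nil))))) (.nd (nat_lit 4) (.nd (nat_lit 5) (.nd (nat_lit 6) 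
(.lf (nat_lit 129933) (.g (nat_lit 5110) (.e (nat_lit 8261) (nat_lit 45) (.e (nat_lit 778317) (nat_lit 3) (.e (nat_lit 57476) (nat_lit 28) (.e (nat_lit 557108) (nat_lit 15) (.e (nat_lit 188449) (nat_lit 22) (.e (nat_lit 196700) (nat_lit 22) (.e (nat_lit 229655) (nat_lit 233) .nil))))))) (.g (nat_lit 5) .nil .nil))) 
(.lf (nat_lit 129997) (.g (nat_lit 870) (.e (nat_lit 8303) (nat_lit 58) (.e (nat_lit 286735) (nat_lit 3) (.e (nat_lit 98373) (nat_lit 29) .nil))) .nil))) (.nd (nat_lit 6) 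
(.lf (nat_lit 129965) (.g (nat_lit 3429) (.e (nat_lit 8262) (nat_lit 45) (.e (nat_lit 778320) (nat_lit 4) (.e (nat_lit 65630) (nat_lit 14) (.e (nat_lit 401459) (nat_lit 13) (.e (nat_lit 483344) (nat_lit 17) (.e (nat_lit 7936) (nat_lit 344) .nil)))))) (.g (nat_lit 5) .nil .nil))) 
(.lf (nat_lit 130029) (.g (nat_lit 1762) (.e (nat_lit 8304) (nat_lit 58) (.e (nat_lit 286759) (nat_lit 12) (.e (nat_lit 385094) (nat_lit 49) (.e (nat_lit 778327) (nat_lit 6) .nil)))) .nil)))) (.nd (nat_lit 5) (.nd (nat_lit 6) 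
(.lf (nat_lit 129949) (.g (nat_lit 3786) (.e (nat_lit 8262) (nat_lit 45) (.e (nat_lit 778317) (nat_lit 3) (.e (nat_lit 57480) (nat_lit 28) (.e (nat_lit 557108) (nat_lit 15) (.e (nat_lit 188452) (nat_lit 23) (.e (nat_lit 204816) (nat_lit 17) (.e (nat_lit 6505) (nat_lit 344) .nil))))))) (.g (nat_lit 6) .nil .nil))) 
(.lf (nat_lit 130013) (.g (nat_lit 4430) (.e (nat_lit 8303) (nat_lit 58) (.e (nat_lit 286761) (nat_lit 13) (.e (nat_lit 393301) (nat_lit 27) (.e (nat_lit 491558) (nat_lit 10) (.e (nat_lit 344090) (nat_lit 18) .nil))))) .nil))) (.nd (nat_lit 6) 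
(.lf (nat_lit 129981) (.g (nat_lit 2825) (.e (nat_lit 8270) (nat_lit 46) (.e (nat_lit 786483) (nat_lit 30) (.e (nat_lit 360475) (nat_lit 8) (.e (nat_lit 557091) (nat_lit 12) (.e (nat_lit 164008) (nat_lit 41) .nil))))) .nil)) 
(.lf (nat_lit 130045) (.g (nat_lit 2356) (.e (nat_lit 8305) (nat_lit 58) (.e (nat_lit 286735) (nat_lit 3) (.e (nat_lit 98373) (nat_lit 29) (.e (nat_lit 450587) (nat_lit 10) .nil)))) .nil))))))) (.nd (nat_lit 2) (.nd (nat_lit 3) (.nd (nat_lit 4) (.nd (nat_lit 5) (.nd (nat_lit 6) 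
(.lf (nat_lit 129923) (.g (nat_lit 3222) (.e (nat_lit 8259) (nat_lit 45) (.e (nat_lit 778318) (nat_lit 3) (.e (nat_lit 57454) (nat_lit 21) (.e (nat_lit 507648) (nat_lit 19) (.e (nat_lit 73746) (nat_lit 3) (.e (nat_lit 516129) (nat_lit 3) (.e (nat_lit 221210) (nat_lit 22) (.e (nat_lit 196651) (nat_lit 10) .nil)))))))) (.g (nat_lit 7) .nil .nil))) 
(.lf (nat_lit 129987) (.g (nat_lit 2382) (.e (nat_lit 8287) (nat_lit 51) (.e (nat_lit 618) (nat_lit 48) (.e (nat_lit 557105) (nat_lit 14) (.e (nat_lit 180252) (nat_lit 10) (.e (nat_lit 573489) (nat_lit 14) .nil))))) .nil))) (.nd (nat_lit 6) 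
(.lf (nat_lit 129955) (.g (nat_lit 4552) (.e (nat_lit 8262) (nat_lit 45) (.e (nat_lit 778317) (nat_lit 3) (.e (nat_lit 57521) (nat_lit 44) (.e (nat_lit 688171) (nat_lit 15) (.e (nat_lit 57480) (nat_lit 28) (.e (nat_lit 557109) (nat_lit 15) (.e (nat_lit 188461) (nat_lit 26) (.e (nat_lit 253983) (nat_lit 10) .nil)))))))) (.g (nat_lit 6) .nil .nil))) 
(.lf (nat_lit 130019) (.g (nat_lit 4710) (.e (nat_lit 8303) (nat_lit 58) (.e (nat_lit 286761) (nat_lit 13) (.e (nat_lit 393301) (nat_lit 27) (.e (nat_lit 491560) (nat_lit 10) (.e (nat_lit 344090) (nat_lit 18) .nil))))) .nil)))) (.nd (nat_lit 5) (.nd (nat_lit 6) 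
(.lf (nat_lit 129939) (.g (nat_lit 2565) (.e (nat_lit 8261) (nat_lit 45) (.e (nat_lit 778320) (nat_lit 4) (.e (nat_lit 65630) (nat_lit 14) (.e (nat_lit 401459) (nat_lit 13) (.e (nat_lit 483343) (nat_lit 17) (.e (nat_lit 6506) (nat_lit 344) .nil)))))) (.g (nat_lit 4) .nil .nil))) 
(.lf (nat_lit 130003) (.g (nat_lit 3214) (.e (nat_lit 8303) (nat_lit 58) (.e (nat_lit 286759) (nat_lit 12) (.e (nat_lit 385074) (nat_lit 31) (.e (nat_lit 573493) (nat_lit 15) .nil)))) .nil))) (.nd (nat_lit 6) 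
(.lf (nat_lit 129971) (.g (nat_lit 1391) (.e (nat_lit 8262) (nat_lit 45) (.e (nat_lit 778324) (nat_lit 5) (.e (nat_lit 81664) (nat_lit 38) (.e (nat_lit 229433) (nat_lit 25) (.e (nat_lit 532515) (nat_lit 3) (.e (nat_lit 114723) (nat_lit 24) (.e (nat_lit 106531) (nat_lit 10) .nil))))))) (.g (nat_lit 6) .nil .nil))) 
(.lf (nat_lit 130035) (.g (nat_lit 5895) (.e (nat_lit 8304) (nat_lit 58) (.e (nat_lit 286761) (nat_lit 13) (.e (nat_lit 393301) (nat_lit 27) (.e (nat_lit 491560) (nat_lit 10) (.e (nat_lit 344088) (nat_lit 18) .nil))))) .nil))))) (.nd (nat_lit 4) (.nd (nat_lit 5) (.nd (nat_lit 6) 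
(.lf (nat_lit 129931) (.g (nat_lit 334) (.e (nat_lit 8260) (nat_lit 45) (.e (nat_lit 778323) (nat_lit 5) (.e (nat_lit 81664) (nat_lit 36) .nil))) .nil)) 
(.lf (nat_lit 129995) (.g (nat_lit 998) (.e (nat_lit 8303) (nat_lit 58) (.e (nat_lit 286735) (nat_lit 3) (.e (nat_lit 98313) (nat_lit 9) .nil))) .nil))) (.nd (nat_lit 6) 
(.lf (nat_lit 129963) (.g (nat_lit 3867) (.e (nat_lit 8262) (nat_lit 45) (.e (nat_lit 778320) (nat_lit 4) (.e (nat_lit 65630) (nat_lit 14) (.e (nat_lit 401459) (nat_lit 13) (.e (nat_lit 483344) (nat_lit 17) (.e (nat_lit 6506) (nat_lit 344) .nil)))))) (.g (nat_lit 6) .nil .nil))) 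
(.lf (nat_lit 130027) (.g (nat_lit 2383) (.e (nat_lit 8304) (nat_lit 58) (.e (nat_lit 286759) (nat_lit 12) (.e (nat_lit 385074) (nat_lit 31) (.e (nat_lit 573484) (nat_lit 13) .nil)))) .nil)))) (.nd (nat_lit 5) (.nd (nat_lit 6) 
(.lf (nat_lit 129947) (.g (nat_lit 1307) (.e (nat_lit 8262) (nat_lit 45) (.e (nat_lit 778317) (nat_lit 3) (.e (nat_lit 57464) (nat_lit 23) (.e (nat_lit 516160) (nat_lit 10) .nil)))) .nil)) 
(.lf (nat_lit 130011) (.g (nat_lit 3360) (.e (nat_lit 8303) (nat_lit 58) (.e (nat_lit 286761) (nat_lit 13) (.e (nat_lit 393301) (nat_lit 27) (.e (nat_lit 491558) (nat_lit 10) .nil)))) .nil))) (.nd (nat_lit 6) 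
(.lf (nat_lit 129979) (.g (nat_lit 2697) (.e (nat_lit 8270) (nat_lit 46) (.e (nat_lit 786483) (nat_lit 30) (.e (nat_lit 360475) (nat_lit 8) (.e (nat_lit 557091) (nat_lit 12) (.e (nat_lit 164006) (nat_lit 41) (.e (nat_lit 663585) (nat_lit 12) (.e (nat_lit 164023) (nat_lit 46) (.e (nat_lit 704728) (nat_lit 10) .nil)))))))) (.g (nat_lit 4) .nil .nil))) 
(.lf (nat_lit 130043) (.g (nat_lit 998) (.e (nat_lit 8305) (nat_lit 58) (.e (nat_lit 286735) (nat_lit 3) (.e (nat_lit 98313) (nat_lit 9) .nil))) .nil)))))) (.nd (nat_lit 3) (.nd (nat_lit 4) (.nd (nat_lit 5) (.nd (nat_lit 6) 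
(.lf (nat_lit 129927) (.g (nat_lit 3694) (.e (nat_lit 8259) (nat_lit 45) (.e (nat_lit 778320) (nat_lit 4) (.e (nat_lit 65630) (nat_lit 14) (.e (nat_lit 401459) (nat_lit 13) (.e (nat_lit 483344) (nat_lit 17) (.e (nat_lit 6505) (nat_lit 344) .nil)))))) (.g (nat_lit 5) .nil .nil))) 
(.lf (nat_lit 129991) (.g (nat_lit 2633) (.e (nat_lit 8295) (nat_lit 51) (.e (nat_lit 5293) (nat_lit 298) (.e (nat_lit 1656) (nat_lit 115) (.e (nat_lit 393301) (nat_lit 27) (.e (nat_lit 491558) (nat_lit 10) .nil))))) .nil))) (.nd (nat_lit 6) 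
(.lf (nat_lit 129959) (.g (nat_lit 3045) (.e (nat_lit 8262) (nat_lit 45) (.e (nat_lit 778320) (nat_lit 4) (.e (nat_lit 65630) (nat_lit 14) (.e (nat_lit 401454) (nat_lit 12) (.e (nat_lit 475154) (nat_lit 20) (.e (nat_lit 229655) (nat_lit 233) .nil)))))) (.g (nat_lit 4) .nil .nil))) 
(.lf (nat_lit 130023) (.g (nat_lit 998) (.e (nat_lit 8304) (nat_lit 58) (.e (nat_lit 286735) (nat_lit 3) (.e (nat_lit 98313) (nat_lit 9) .nil))) .nil)))) (.nd (nat_lit 5) (.nd (nat_lit 6) 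
(.lf (nat_lit 129943) (.g (nat_lit 334) (.e (nat_lit 8261) (nat_lit 45) (.e (nat_lit 778323) (nat_lit 5) (.e (nat_lit 81664) (nat_lit 36) .nil))) .nil)) 
(.lf (nat_lit 130007) (.g (nat_lit 1984) (.e (nat_lit 8303) (nat_lit 58) (.e (nat_lit 286761) (nat_lit 13) (.e (nat_lit 393234) (nat_lit 17) (.e (nat_lit 7591) (nat_lit 407) .nil)))) .nil))) (.nd (nat_lit 6) 
(.lf (nat_lit 129975) (.g (nat_lit 3068) (.e (nat_lit 8270) (nat_lit 46) (.e (nat_lit 786483) (nat_lit 30) (.e (nat_lit 360475) (nat_lit 8) (.e (nat_lit 557089) (nat_lit 12) (.e (nat_lit 164005) (nat_lit 41) .nil))))) .nil)) 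
(.lf (nat_lit 130039) (.g (nat_lit 3918) (.e (nat_lit 8305) (nat_lit 58) (.e (nat_lit 286733) (nat_lit 2) (.e (nat_lit 90170) (nat_lit 13) (.e (nat_lit 172113) (nat_lit 10) .nil)))) .nil))))) (.nd (nat_lit 4) (.nd (nat_lit 5) (.nd (nat_lit 6) 
(.lf (nat_lit 129935) (.g (nat_lit 1148) (.e (nat_lit 8261) (nat_lit 45) (.e (nat_lit 778318) (nat_lit 3) (.e (nat_lit 57454) (nat_lit 21) (.e (nat_lit 507648) (nat_lit 19) .nil)))) .nil)) 
(.lf (nat_lit 129999) (.g (nat_lit 3607) (.e (nat_lit 8303) (nat_lit 58) (.e (nat_lit 286735) (nat_lit 3) (.e (nat_lit 98373) (nat_lit 29) (.e (nat_lit 450588) (nat_lit 10) (.e (nat_lit 573475) (nat_lit 12) .nil))))) .nil))) (.nd (nat_lit 6) 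
(.lf (nat_lit 129967) (.g (nat_lit 2749) (.e (nat_lit 8262) (nat_lit 45) (.e (nat_lit 778320) (nat_lit 4) (.e (nat_lit 65630) (nat_lit 14) (.e (nat_lit 401459) (nat_lit 13) (.e (nat_lit 483364) (nat_lit 18) .nil))))) .nil)) 
(.lf (nat_lit 130031) (.g (nat_lit 2434) (.e (nat_lit 8304) (nat_lit 58) (.e (nat_lit 286761) (nat_lit 13) (.e (nat_lit 393234) (nat_lit 17) (.e (nat_lit 7591) (nat_lit 407) .nil)))) .nil)))) (.nd (nat_lit 5) (.nd (nat_lit 6) 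
(.lf (nat_lit 129951) (.g (nat_lit 1035) (.e (nat_lit 8262) (nat_lit 45) (.e (nat_lit 778317) (nat_lit 3) (.e (nat_lit 57521) (nat_lit 44) .nil))) .nil)) 
(.lf (nat_lit 130015) (.g (nat_lit 4036) (.e (nat_lit 8303) (nat_lit 58) (.e (nat_lit 286761) (nat_lit 13) (.e (nat_lit 393301) (nat_lit 27) (.e (nat_lit 491559) (nat_lit 10) .nil)))) .nil))) (.nd (nat_lit 6) 
(.lf (nat_lit 129983) (.g (nat_lit 2863) (.e (nat_lit 8271) (nat_lit 46) (.e (nat_lit 786483) (nat_lit 30) (.e (nat_lit 360475) (nat_lit 8) (.e (nat_lit 557089) (nat_lit 12) (.e (nat_lit 164007) (nat_lit 41) .nil))))) .nil)) 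
(.lf (nat_lit 130047) (.g (nat_lit 3616) (.e (nat_lit 8305) (nat_lit 58) (.e (nat_lit 286735) (nat_lit 3) (.e (nat_lit 98373) (nat_lit 29) (.e (nat_lit 450588) (nat_lit 10) (.e (nat_lit 573473) (nat_lit 12) .nil))))) .nil)))))))))

noncomputable def tv1735 : DT := (.nd (nat_lit 0) (.nd (nat_lit 1) (.nd (nat_lit 2) (.nd (nat_lit 3) (.nd (nat_lit 4) (.nd (nat_lit 5) (.nd (nat_lit 6) 
(.lf (nat_lit 130048) (.g (nat_lit 3689) (.e (nat_lit 8305) (nat_lit 58) (.e (nat_lit 286735) (nat_lit 3) (.e (nat_lit 98373) (nat_lit 29) (.e (nat_lit 450588) (nat_lit 10) (.e (nat_lit 573473) (nat_lit 12) (.e (nat_lit 57345) (nat_lit 0) (.e (nat_lit 6927) (nat_lit 372) .nil))))))) (.g (nat_lit 4) .nil .nil))) 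
(.lf (nat_lit 130112) (.g (nat_lit 1933) (.e (nat_lit 8318) (nat_lit 64) (.e (nat_lit 516129) (nat_lit 3) (.e (nat_lit 221210) (nat_lit 22) (.e (nat_lit 196668) (nat_lit 14) (.e (nat_lit 81664) (nat_lit 1) .nil))))) .nil))) (.nd (nat_lit 6) 
(.lf (nat_lit 130080) (.g (nat_lit 2314) (.e (nat_lit 8316) (nat_lit 64) (.e (nat_lit 516145) (nat_lit 9) (.e (nat_lit 426428) (nat_lit 17) (.e (nat_lit 90174) (nat_lit 14) (.e (nat_lit 180250) (nat_lit 10) .nil))))) .nil)) 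
(.lf (nat_lit 130144) (.g (nat_lit 3826) (.e (nat_lit 8318) (nat_lit 64) (.e (nat_lit 516166) (nat_lit 12) (.e (nat_lit 450563) (nat_lit 0) (.e (nat_lit 6808) (nat_lit 365) .nil)))) .nil)))) (.nd (nat_lit 5) (.nd (nat_lit 6) 
(.lf (nat_lit 130064) (.g (nat_lit 4675) (.e (nat_lit 8305) (nat_lit 58) (.e (nat_lit 286761) (nat_lit 13) (.e (nat_lit 393301) (nat_lit 27) (.e (nat_lit 491558) (nat_lit 10) (.e (nat_lit 344095) (nat_lit 18) .nil))))) .nil)) 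
(.lf (nat_lit 130128) (.g (nat_lit 485) (.e (nat_lit 8318) (nat_lit 64) (.e (nat_lit 516146) (nat_lit 9) (.e (nat_lit 426438) (nat_lit 18) .nil))) .nil))) (.nd (nat_lit 6) 
(.lf (nat_lit 130096) (.g (nat_lit 1615) (.e (nat_lit 8317) (nat_lit 64) (.e (nat_lit 516150) (nat_lit 9) (.e (nat_lit 426428) (nat_lit 17) (.e (nat_lit 90174) (nat_lit 14) (.e (nat_lit 180250) (nat_lit 10) .nil))))) .nil)) 
(.lf (nat_lit 130160) (.g (nat_lit 2582) (.e (nat_lit 8318) (nat_lit 64) (.e (nat_lit 516176) (nat_lit 14) (.e (nat_lit 466981) (nat_lit 23) (.e (nat_lit 204861) (nat_lit 26) (.e (nat_lit 335988) (nat_lit 1) (.e (nat_lit 57905) (nat_lit 278) (.e (nat_lit 2540) (nat_lit 158) .nil))))))) (.g (nat_lit 4) .nil .nil)))))) (.nd (nat_lit 4) (.nd (nat_lit 5) (.nd (nat_lit 6) 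
(.lf (nat_lit 130056) (.g (nat_lit 1986) (.e (nat_lit 8305) (nat_lit 58) (.e (nat_lit 286759) (nat_lit 12) (.e (nat_lit 385094) (nat_lit 49) (.e (nat_lit 778327) (nat_lit 6) .nil)))) .nil)) 
(.lf (nat_lit 130120) (.g (nat_lit 2000) (.e (nat_lit 8318) (nat_lit 64) (.e (nat_lit 516131) (nat_lit 3) (.e (nat_lit 221212) (nat_lit 22) (.e (nat_lit 196668) (nat_lit 14) (.e (nat_lit 81664) (nat_lit 5) .nil))))) .nil))) (.nd (nat_lit 6) 
(.lf (nat_lit 130088) (.g (nat_lit 1353) (.e (nat_lit 8317) (nat_lit 64) (.e (nat_lit 516130) (nat_lit 3) (.e (nat_lit 221212) (nat_lit 22) (.e (nat_lit 196668) (nat_lit 14) (.e (nat_lit 81664) (nat_lit 5) .nil))))) .nil)) 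
(.lf (nat_lit 130152) (.g (nat_lit 1744) (.e (nat_lit 8318) (nat_lit 64) (.e (nat_lit 516176) (nat_lit 14) (.e (nat_lit 466972) (nat_lit 21) (.e (nat_lit 164195) (nat_lit 158) .nil)))) .nil)))) (.nd (nat_lit 5) (.nd (nat_lit 6) 
(.lf (nat_lit 130072) (.g (nat_lit 4194) (.e (nat_lit 8305) (nat_lit 58) (.e (nat_lit 286761) (nat_lit 13) (.e (nat_lit 393301) (nat_lit 27) (.e (nat_lit 491560) (nat_lit 10) (.e (nat_lit 344094) (nat_lit 18) .nil))))) .nil)) 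
(.lf (nat_lit 130136) (.g (nat_lit 4022) (.e (nat_lit 8318) (nat_lit 64) (.e (nat_lit 516151) (nat_lit 9) (.e (nat_lit 426286) (nat_lit 10) (.e (nat_lit 434295) (nat_lit 49) .nil)))) .nil))) (.nd (nat_lit 6) 
(.lf (nat_lit 130104) (.g (nat_lit 3378) (.e (nat_lit 8317) (nat_lit 64) (.e (nat_lit 516166) (nat_lit 12) (.e (nat_lit 450563) (nat_lit 0) (.e (nat_lit 6806) (nat_lit 365) .nil)))) .nil)) 
(.lf (nat_lit 130168) (.g (nat_lit 1523) (.e (nat_lit 8318) (nat_lit 64) (.e (nat_lit 516179) (nat_lit 15) (.e (nat_lit 475177) (nat_lit 24) (.e (nat_lit 516150) (nat_lit 9) .nil)))) .nil)))))) (.nd (nat_lit 3) (.nd (nat_lit 4) (.nd (nat_lit 5) (.nd (nat_lit 6) 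
(.lf (nat_lit 130052) (.g (nat_lit 1852) (.e (nat_lit 8305) (nat_lit 58) (.e (nat_lit 286753) (nat_lit 10) (.e (nat_lit 344169) (nat_lit 40) (.e (nat_lit 671748) (nat_lit 0) (.e (nat_lit 1598) (nat_lit 111) .nil))))) .nil)) 
(.lf (nat_lit 130116) (.g (nat_lit 1300) (.e (nat_lit 8318) (nat_lit 64) (.e (nat_lit 516131) (nat_lit 3) (.e (nat_lit 221212) (nat_lit 22) (.e (nat_lit 196668) (nat_lit 14) .nil)))) .nil))) (.nd (nat_lit 6) 
(.lf (nat_lit 130084) (.g (nat_lit 1189) (.e (nat_lit 8316) (nat_lit 64) (.e (nat_lit 516166) (nat_lit 12) (.e (nat_lit 450563) (nat_lit 0) .nil))) .nil)) 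
(.lf (nat_lit 130148) (.g (nat_lit 1996) (.e (nat_lit 8318) (nat_lit 64) (.e (nat_lit 516171) (nat_lit 13) (.e (nat_lit 458789) (nat_lit 23) (.e (nat_lit 532515) (nat_lit 3) (.e (nat_lit 114716) (nat_lit 22) (.e (nat_lit 98048) (nat_lit 21) (.e (nat_lit 164368) (nat_lit 247) .nil))))))) (.g (nat_lit 5) .nil .nil))))) (.nd (nat_lit 5) (.nd (nat_lit 6) 
(.lf (nat_lit 130068) (.g (nat_lit 2839) (.e (nat_lit 8305) (nat_lit 58) (.e (nat_lit 286761) (nat_lit 13) (.e (nat_lit 393301) (nat_lit 27) (.e (nat_lit 491560) (nat_lit 10) .nil)))) .nil)) 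
(.lf (nat_lit 130132) (.g (nat_lit 1017) (.e (nat_lit 8318) (nat_lit 64) (.e (nat_lit 516150) (nat_lit 9) (.e (nat_lit 426323) (nat_lit 13) (.e (nat_lit 491264) (nat_lit 7) .nil)))) .nil))) (.nd (nat_lit 6) 
(.lf (nat_lit 130100) (.g (nat_lit 1133) (.e (nat_lit 8317) (nat_lit 64) (.e (nat_lit 516166) (nat_lit 12) (.e (nat_lit 450563) (nat_lit 0) .nil))) .nil)) 
(.lf (nat_lit 130164) (.g (nat_lit 2646) (.e (nat_lit 8318) (nat_lit 64) (.e (nat_lit 516176) (nat_lit 14) (.e (nat_lit 466981) (nat_lit 23) (.e (nat_lit 204863) (nat_lit 27) (.e (nat_lit 344159) (nat_lit 37) .nil))))) .nil))))) (.nd (nat_lit 4) (.nd (nat_lit 5) (.nd (nat_lit 6) 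
(.lf (nat_lit 130060) (.g (nat_lit 3250) (.e (nat_lit 8305) (nat_lit 58) (.e (nat_lit 286760) (nat_lit 13) (.e (nat_lit 393301) (nat_lit 27) (.e (nat_lit 491560) (nat_lit 10) (.e (nat_lit 344094) (nat_lit 18) .nil))))) .nil)) 
(.lf (nat_lit 130124) (.g (nat_lit 3437) (.e (nat_lit 8318) (nat_lit 64) (.e (nat_lit 516145) (nat_lit 9) (.e (nat_lit 426428) (nat_lit 17) (.e (nat_lit 90174) (nat_lit 14) (.e (nat_lit 180250) (nat_lit 10) (.e (nat_lit 573473) (nat_lit 12) (.e (nat_lit 65280) (nat_lit 202) .nil))))))) (.g (nat_lit 5) .nil .nil)))) (.nd (nat_lit 6) 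
(.lf (nat_lit 130092) (.g (nat_lit 1862) (.e (nat_lit 8317) (nat_lit 64) (.e (nat_lit 516145) (nat_lit 9) (.e (nat_lit 426428) (nat_lit 17) (.e (nat_lit 90174) (nat_lit 14) .nil)))) .nil)) 
(.lf (nat_lit 130156) (.g (nat_lit 2399) (.e (nat_lit 8318) (nat_lit 64) (.e (nat_lit 516176) (nat_lit 14) (.e (nat_lit 466977) (nat_lit 22) (.e (nat_lit 196681) (nat_lit 17) (.e (nat_lit 131086) (nat_lit 1) .nil))))) .nil)))) (.nd (nat_lit 5) (.nd (nat_lit 6) 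
(.lf (nat_lit 130076) (.g (nat_lit 2913) (.e (nat_lit 8316) (nat_lit 64) (.e (nat_lit 516120) (nat_lit 1) (.e (nat_lit 164329) (nat_lit 230) (.e (nat_lit 163902) (nat_lit 12) (.e (nat_lit 426568) (nat_lit 34) .nil))))) .nil)) 
(.lf (nat_lit 130140) (.g (nat_lit 3838) (.e (nat_lit 8318) (nat_lit 64) (.e (nat_lit 516166) (nat_lit 12) (.e (nat_lit 450563) (nat_lit 0) (.e (nat_lit 6736) (nat_lit 365) .nil)))) .nil))) (.nd (nat_lit 6) 
(.lf (nat_lit 130108) (.g (nat_lit 2754) (.e (nat_lit 8318) (nat_lit 64) (.e (nat_lit 516115) (nat_lit 1) (.e (nat_lit 164325) (nat_lit 230) (.e (nat_lit 163902) (nat_lit 12) .nil)))) .nil)) 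
(.lf (nat_lit 130172) (.g (nat_lit 2010) (.e (nat_lit 8318) (nat_lit 64) (.e (nat_lit 516195) (nat_lit 26) (.e (nat_lit 336223) (nat_lit 13) (.e (nat_lit 393234) (nat_lit 17) (.e (nat_lit 3566) (nat_lit 222) .nil))))) .nil))))))) (.nd (nat_lit 2) (.nd (nat_lit 3) (.nd (nat_lit 4) (.nd (nat_lit 5) (.nd (nat_lit 6) 
(.lf (nat_lit 130050) (.g (nat_lit 366) (.e (nat_lit 8305) (nat_lit 58) (.e (nat_lit 286753) (nat_lit 10) (.e (nat_lit 344169) (nat_lit 40) .nil))) .nil)) 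
(.lf (nat_lit 130114) (.g (nat_lit 1584) (.e (nat_lit 8318) (nat_lit 64) (.e (nat_lit 516129) (nat_lit 3) (.e (nat_lit 221210) (nat_lit 22) (.e (nat_lit 196669) (nat_lit 14) .nil)))) .nil))) (.nd (nat_lit 6) 
(.lf (nat_lit 130082) (.g (nat_lit 3018) (.e (nat_lit 8316) (nat_lit 64) (.e (nat_lit 516151) (nat_lit 9) (.e (nat_lit 426285) (nat_lit 10) (.e (nat_lit 434295) (nat_lit 49) .nil)))) .nil)) 
(.lf (nat_lit 130146) (.g (nat_lit 1262) (.e (nat_lit 8318) (nat_lit 64) (.e (nat_lit 516166) (nat_lit 12) (.e (nat_lit 450605) (nat_lit 27) .nil))) .nil)))) (.nd (nat_lit 5) (.nd (nat_lit 6) 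
(.lf (nat_lit 130066) (.g (nat_lit 4338) (.e (nat_lit 8305) (nat_lit 58) (.e (nat_lit 286761) (nat_lit 13) (.e (nat_lit 393301) (nat_lit 27) (.e (nat_lit 491559) (nat_lit 10) .nil)))) .nil)) 
(.lf (nat_lit 130130) (.g (nat_lit 2512) (.e (nat_lit 8318) (nat_lit 64) (.e (nat_lit 516148) (nat_lit 9) (.e (nat_lit 426428) (nat_lit 17) (.e (nat_lit 90174) (nat_lit 14) (.e (nat_lit 180250) (nat_lit 10) (.e (nat_lit 573473) (nat_lit 12) (.e (nat_lit 65280) (nat_lit 202) .nil))))))) (.g (nat_lit 5) .nil .nil)))) (.nd (nat_lit 6) 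
(.lf (nat_lit 130098) (.g (nat_lit 2152) (.e (nat_lit 8317) (nat_lit 64) (.e (nat_lit 516151) (nat_lit 9) (.e (nat_lit 426286) (nat_lit 10) .nil))) .nil)) 
(.lf (nat_lit 130162) (.g (nat_lit 2170) (.e (nat_lit 8318) (nat_lit 64) (.e (nat_lit 516176) (nat_lit 14) (.e (nat_lit 466981) (nat_lit 23) (.e (nat_lit 204862) (nat_lit 27) (.e (nat_lit 344160) (nat_lit 37) (.e (nat_lit 647178) (nat_lit 1) .nil)))))) (.g (nat_lit 4) .nil .nil)))))) (.nd (nat_lit 4) (.nd (nat_lit 5) (.nd (nat_lit 6) 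
(.lf (nat_lit 130058) (.g (nat_lit 1568) (.e (nat_lit 8305) (nat_lit 58) (.e (nat_lit 286760) (nat_lit 13) (.e (nat_lit 393301) (nat_lit 27) (.e (nat_lit 491559) (nat_lit 10) .nil)))) .nil)) 
(.lf (nat_lit 130122) (.g (nat_lit 2409) (.e (nat_lit 8318) (nat_lit 64) (.e (nat_lit 516131) (nat_lit 3) (.e (nat_lit 221212) (nat_lit 22) (.e (nat_lit 196668) (nat_lit 14) (.e (nat_lit 81664) (nat_lit 5) (.e (nat_lit 532519) (nat_lit 5) (.e (nat_lit 147489) (nat_lit 10) .nil))))))) (.g (nat_lit 4) .nil .nil)))) (.nd (nat_lit 6) 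
(.lf (nat_lit 130090) (.g (nat_lit 1293) (.e (nat_lit 8317) (nat_lit 64) (.e (nat_lit 516131) (nat_lit 3) (.e (nat_lit 221212) (nat_lit 22) (.e (nat_lit 196669) (nat_lit 14) .nil)))) .nil)) 
(.lf (nat_lit 130154) (.g (nat_lit 897) (.e (nat_lit 8318) (nat_lit 64) (.e (nat_lit 516176) (nat_lit 14) (.e (nat_lit 466974) (nat_lit 22) .nil))) .nil)))) (.nd (nat_lit 5) (.nd (nat_lit 6) 
(.lf (nat_lit 130074) (.g (nat_lit 4873) (.e (nat_lit 8305) (nat_lit 58) (.e (nat_lit 286761) (nat_lit 13) (.e (nat_lit 393301) (nat_lit 27) (.e (nat_lit 491560) (nat_lit 10) (.e (nat_lit 344096) (nat_lit 18) .nil))))) .nil)) 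
(.lf (nat_lit 130138) (.g (nat_lit 1244) (.e (nat_lit 8318) (nat_lit 64) (.e (nat_lit 516166) (nat_lit 12) (.e (nat_lit 450562) (nat_lit 0) .nil))) .nil))) (.nd (nat_lit 6) 
(.lf (nat_lit 130106) (.g (nat_lit 1108) (.e (nat_lit 8317) (nat_lit 64) (.e (nat_lit 516166) (nat_lit 12) (.e (nat_lit 450605) (nat_lit 27) .nil))) .nil)) 
(.lf (nat_lit 130170) (.g (nat_lit 449) (.e (nat_lit 8318) (nat_lit 64) (.e (nat_lit 516195) (nat_lit 26) (.e (nat_lit 336223) (nat_lit 13) .nil))) .nil)))))) (.nd (nat_lit 3) (.nd (nat_lit 4) (.nd (nat_lit 5) (.nd (nat_lit 6) 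
(.lf (nat_lit 130054) (.g (nat_lit 2882) (.e (nat_lit 8305) (nat_lit 58) (.e (nat_lit 286759) (nat_lit 12) (.e (nat_lit 385074) (nat_lit 31) (.e (nat_lit 573484) (nat_lit 13) .nil)))) .nil)) 
(.lf (nat_lit 130118) (.g (nat_lit 3562) (.e (nat_lit 8318) (nat_lit 64) (.e (nat_lit 516131) (nat_lit 3) (.e (nat_lit 221212) (nat_lit 22) (.e (nat_lit 196668) (nat_lit 14) (.e (nat_lit 81664) (nat_lit 1) (.e (nat_lit 500056) (nat_lit 17) (.e (nat_lit 57575) (nat_lit 55) (.e (nat_lit 778454) (nat_lit 10) .nil)))))))) (.g (nat_lit 7) .nil .nil)))) (.nd (nat_lit 6) 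
(.lf (nat_lit 130086) (.g (nat_lit 2802) (.e (nat_lit 8317) (nat_lit 64) (.e (nat_lit 516120) (nat_lit 1) (.e (nat_lit 164329) (nat_lit 230) (.e (nat_lit 163902) (nat_lit 12) (.e (nat_lit 426568) (nat_lit 34) .nil))))) .nil)) 
(.lf (nat_lit 130150) (.g (nat_lit 441) (.e (nat_lit 8318) (nat_lit 64) (.e (nat_lit 516176) (nat_lit 14) (.e (nat_lit 474880) (nat_lit 17) .nil))) .nil)))) (.nd (nat_lit 5) (.nd (nat_lit 6) 
(.lf (nat_lit 130070) (.g (nat_lit 5147) (.e (nat_lit 8305) (nat_lit 58) (.e (nat_lit 286761) (nat_lit 13) (.e (nat_lit 393301) (nat_lit 27) (.e (nat_lit 491560) (nat_lit 10) (.e (nat_lit 344088) (nat_lit 18) (.e (nat_lit 6927) (nat_lit 372) .nil)))))) (.g (nat_lit 5) .nil .nil))) 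
(.lf (nat_lit 130134) (.g (nat_lit 1360) (.e (nat_lit 8318) (nat_lit 64) (.e (nat_lit 516151) (nat_lit 9) (.e (nat_lit 426211) (nat_lit 9) .nil))) .nil))) (.nd (nat_lit 6) 
(.lf (nat_lit 130102) (.g (nat_lit 3267) (.e (nat_lit 8317) (nat_lit 64) (.e (nat_lit 516166) (nat_lit 12) (.e (nat_lit 450563) (nat_lit 0) (.e (nat_lit 6740) (nat_lit 365) .nil)))) .nil)) 
(.lf (nat_lit 130166) (.g (nat_lit 769) (.e (nat_lit 8318) (nat_lit 64) (.e (nat_lit 516179) (nat_lit 15) (.e (nat_lit 475169) (nat_lit 22) .nil))) .nil))))) (.nd (nat_lit 4) (.nd (nat_lit 5) (.nd (nat_lit 6) 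
(.lf (nat_lit 130062) (.g (nat_lit 2426) (.e (nat_lit 8305) (nat_lit 58) (.e (nat_lit 286761) (nat_lit 13) (.e (nat_lit 393300) (nat_lit 27) (.e (nat_lit 491560) (nat_lit 10) .nil)))) .nil)) 
(.lf (nat_lit 130126) (.g (nat_lit 1342) (.e (nat_lit 8318) (nat_lit 64) (.e (nat_lit 516146) (nat_lit 9) (.e (nat_lit 426323) (nat_lit 13) (.e (nat_lit 483333) (nat_lit 0) .nil)))) .nil))) (.nd (nat_lit 6) 
(.lf (nat_lit 130094) (.g (nat_lit 2248) (.e (nat_lit 8317) (nat_lit 64) (.e (nat_lit 516146) (nat_lit 9) (.e (nat_lit 426428) (nat_lit 17) (.e (nat_lit 90174) (nat_lit 14) (.e (nat_lit 180250) (nat_lit 10) (.e (nat_lit 573478) (nat_lit 12) (.e (nat_lit 65280) (nat_lit 202) .nil))))))) (.g (nat_lit 4) .nil .nil))) 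
(.lf (nat_lit 130158) (.g (nat_lit 2252) (.e (nat_lit 8318) (nat_lit 64) (.e (nat_lit 516176) (nat_lit 14) (.e (nat_lit 466977) (nat_lit 22) (.e (nat_lit 196681) (nat_lit 17) (.e (nat_lit 131089) (nat_lit 1) (.e (nat_lit 57910) (nat_lit 278) (.e (nat_lit 7936) (nat_lit 158) .nil))))))) (.g (nat_lit 4) .nil .nil))))) (.nd (nat_lit 5) (.nd (nat_lit 6) 
(.lf (nat_lit 130078) (.g (nat_lit 2127) (.e (nat_lit 8316) (nat_lit 64) (.e (nat_lit 516131) (nat_lit 3) (.e (nat_lit 221212) (nat_lit 22) (.e (nat_lit 196668) (nat_lit 14) (.e (nat_lit 81664) (nat_lit 5) .nil))))) .nil)) 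
(.lf (nat_lit 130142) (.g (nat_lit 3838) (.e (nat_lit 8318) (nat_lit 64) (.e (nat_lit 516166) (nat_lit 12) (.e (nat_lit 450563) (nat_lit 0) (.e (nat_lit 6745) (nat_lit 365) .nil)))) .nil))) (.nd (nat_lit 6) 
(.lf (nat_lit 130110) (.g (nat_lit 538) (.e (nat_lit 8318) (nat_lit 64) (.e (nat_lit 516129) (nat_lit 3) (.e (nat_lit 221210) (nat_lit 22) .nil))) .nil)) 
(.lf (nat_lit 130174) (.g (nat_lit 2022) (.e (nat_lit 8318) (nat_lit 64) (.e (nat_lit 516195) (nat_lit 26) (.e (nat_lit 336223) (nat_lit 13) (.e (nat_lit 393234) (nat_lit 17) (.e (nat_lit 3568) (nat_lit 222) (.e (nat_lit 737294) (nat_lit 3) (.e (nat_lit 40991) (nat_lit 10) .nil))))))) (.g (nat_lit 4) .nil .nil))))))))) 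
(.nd (nat_lit 1) (.nd (nat_lit 2) (.nd (nat_lit 3) (.nd (nat_lit 4) (.nd (nat_lit 5) 
(.nd (nat_lit 6) 
(.lf (nat_lit 130049) (.g (nat_lit 4682) (.e (nat_lit 8305) (nat_lit 58) (.e (nat_lit 286735) (nat_lit 3) (.e (nat_lit 98373) (nat_lit 29) (.e (nat_lit 450588) (nat_lit 10) (.e (nat_lit 573475) (nat_lit 12) (.e (nat_lit 57344) (nat_lit 0) (.e (nat_lit 6927) (nat_lit 372) .nil))))))) (.g (nat_lit 5) .nil .nil))) 
(.lf (nat_lit 130113) (.g (nat_lit 2054) (.e (nat_lit 8318) (nat_lit 64) (.e (nat_lit 516129) (nat_lit 3) (.e (nat_lit 221210) (nat_lit 22) (.e (nat_lit 196668) (nat_lit 14) (.e (nat_lit 81664) (nat_lit 5) (.e (nat_lit 532518) (nat_lit 5) (.e (nat_lit 147489) (nat_lit 10) .nil))))))) (.g (nat_lit 4) .nil .nil)))) (.nd (nat_lit 6) 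
(.lf (nat_lit 130081) (.g (nat_lit 2002) (.e (nat_lit 8316) (nat_lit 64) (.e (nat_lit 516146) (nat_lit 9) (.e (nat_lit 426428) (nat_lit 17) (.e (nat_lit 90174) (nat_lit 14) (.e (nat_lit 180250) (nat_lit 10) .nil))))) .nil)) 
(.lf (nat_lit 130145) (.g (nat_lit 3662) (.e (nat_lit 8318) (nat_lit 64) (.e (nat_lit 516166) (nat_lit 12) (.e (nat_lit 450563) (nat_lit 0) (.e (nat_lit 6830) (nat_lit 367) .nil)))) .nil)))) (.nd (nat_lit 5) (.nd (nat_lit 6) 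
(.lf (nat_lit 130065) (.g (nat_lit 5446) (.e (nat_lit 8305) (nat_lit 58) (.e (nat_lit 286761) (nat_lit 13) (.e (nat_lit 393301) (nat_lit 27) (.e (nat_lit 491558) (nat_lit 10) (.e (nat_lit 344096) (nat_lit 18) (.e (nat_lit 6927) (nat_lit 372) .nil)))))) (.g (nat_lit 5) .nil .nil))) 
(.lf (nat_lit 130129) (.g (nat_lit 2142) (.e (nat_lit 8318) (nat_lit 64) (.e (nat_lit 516148) (nat_lit 9) (.e (nat_lit 426131) (nat_lit 3) (.e (nat_lit 204838) (nat_lit 20) (.e (nat_lit 114702) (nat_lit 20) (.e (nat_lit 1776) (nat_lit 118) (.e (nat_lit 507932) (nat_lit 10) (.e (nat_lit 5742) (nat_lit 313) .nil)))))))) (.g (nat_lit 4) .nil .nil)))) (.nd (nat_lit 6) 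
(.lf (nat_lit 130097) (.g (nat_lit 1282) (.e (nat_lit 8317) (nat_lit 64) (.e (nat_lit 516151) (nat_lit 9) (.e (nat_lit 426285) (nat_lit 10) .nil))) .nil)) 
(.lf (nat_lit 130161) (.g (nat_lit 2060) (.e (nat_lit 8318) (nat_lit 64) (.e (nat_lit 516176) (nat_lit 14) (.e (nat_lit 466981) (nat_lit 23) (.e (nat_lit 204862) (nat_lit 27) (.e (nat_lit 344160) (nat_lit 37) .nil))))) .nil))))) (.nd (nat_lit 4) (.nd (nat_lit 5) (.nd (nat_lit 6) 
(.lf (nat_lit 130057) (.g (nat_lit 2895) (.e (nat_lit 8305) (nat_lit 58) (.e (nat_lit 286760) (nat_lit 13) (.e (nat_lit 393301) (nat_lit 27) (.e (nat_lit 491558) (nat_lit 10) (.e (nat_lit 344088) (nat_lit 18) .nil))))) .nil)) 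
(.lf (nat_lit 130121) (.g (nat_lit 2442) (.e (nat_lit 8318) (nat_lit 64) (.e (nat_lit 516131) (nat_lit 3) (.e (nat_lit 221212) (nat_lit 22) (.e (nat_lit 196668) (nat_lit 14) (.e (nat_lit 81664) (nat_lit 5) (.e (nat_lit 532490) (nat_lit 0) (.e (nat_lit 2346) (nat_lit 151) (.e (nat_lit 778454) (nat_lit 10) .nil)))))))) (.g (nat_lit 4) .nil .nil)))) (.nd (nat_lit 6) 
(.lf (nat_lit 130089) (.g (nat_lit 2013) (.e (nat_lit 8317) (nat_lit 64) (.e (nat_lit 516131) (nat_lit 3) (.e (nat_lit 221212) (nat_lit 22) (.e (nat_lit 196668) (nat_lit 14) (.e (nat_lit 81664) (nat_lit 5) .nil))))) .nil)) 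
(.lf (nat_lit 130153) (.g (nat_lit 2117) (.e (nat_lit 8318) (nat_lit 64) (.e (nat_lit 516176) (nat_lit 14) (.e (nat_lit 466972) (nat_lit 21) (.e (nat_lit 164195) (nat_lit 158) (.e (nat_lit 1209) (nat_lit 89) .nil))))) .nil)))) (.nd (nat_lit 5) (.nd (nat_lit 6) 
(.lf (nat_lit 130073) (.g (nat_lit 5188) (.e (nat_lit 8305) (nat_lit 58) (.e (nat_lit 286761) (nat_lit 13) (.e (nat_lit 393301) (nat_lit 27) (.e (nat_lit 491560) (nat_lit 10) (.e (nat_lit 344095) (nat_lit 18) .nil))))) .nil)) 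
(.lf (nat_lit 130137) (.g (nat_lit 846) (.e (nat_lit 8318) (nat_lit 64) (.e (nat_lit 516163) (nat_lit 11) (.e (nat_lit 442421) (nat_lit 21) .nil))) .nil))) (.nd (nat_lit 6) 
(.lf (nat_lit 130105) (.g (nat_lit 3268) (.e (nat_lit 8317) (nat_lit 64) (.e (nat_lit 516166) (nat_lit 12) (.e (nat_lit 450563) (nat_lit 0) (.e (nat_lit 6830) (nat_lit 367) .nil)))) .nil)) 
(.lf (nat_lit 130169) (.g (nat_lit 2113) (.e (nat_lit 8318) (nat_lit 64) (.e (nat_lit 516185) (nat_lit 16) (.e (nat_lit 491560) (nat_lit 10) (.e (nat_lit 344118) (nat_lit 21) .nil)))) .nil)))))) (.nd (nat_lit 3) (.nd (nat_lit 4) (.nd (nat_lit 5) (.nd (nat_lit 6) 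
(.lf (nat_lit 130053) (.g (nat_lit 1197) (.e (nat_lit 8305) (nat_lit 58) (.e (nat_lit 286759) (nat_lit 12) (.e (nat_lit 385074) (nat_lit 31) .nil))) .nil)) 
(.lf (nat_lit 130117) (.g (nat_lit 2000) (.e (nat_lit 8318) (nat_lit 64) (.e (nat_lit 516131) (nat_lit 3) (.e (nat_lit 221212) (nat_lit 22) (.e (nat_lit 196668) (nat_lit 14) (.e (nat_lit 81664) (nat_lit 1) .nil))))) .nil))) (.nd (nat_lit 6) 
(.lf (nat_lit 130085) (.g (nat_lit 2489) (.e (nat_lit 8317) (nat_lit 64) (.e (nat_lit 516117) (nat_lit 1) (.e (nat_lit 164329) (nat_lit 230) (.e (nat_lit 163902) (nat_lit 12) .nil)))) .nil)) 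
(.lf (nat_lit 130149) (.g (nat_lit 1185) (.e (nat_lit 8318) (nat_lit 64) (.e (nat_lit 516176) (nat_lit 14) (.e (nat_lit 466954) (nat_lit 11) (.e (nat_lit 343808) (nat_lit 25) .nil)))) .nil)))) (.nd (nat_lit 5) (.nd (nat_lit 6) 
(.lf (nat_lit 130069) (.g (nat_lit 4548) (.e (nat_lit 8305) (nat_lit 58) (.e (nat_lit 286761) (nat_lit 13) (.e (nat_lit 393301) (nat_lit 27) (.e (nat_lit 491560) (nat_lit 10) (.e (nat_lit 344087) (nat_lit 18) .nil))))) .nil)) 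
(.lf (nat_lit 130133) (.g (nat_lit 3135) (.e (nat_lit 8318) (nat_lit 64) (.e (nat_lit 516150) (nat_lit 9) (.e (nat_lit 426428) (nat_lit 17) (.e (nat_lit 90174) (nat_lit 14) (.e (nat_lit 180250) (nat_lit 10) (.e (nat_lit 573473) (nat_lit 12) (.e (nat_lit 65280) (nat_lit 202) .nil))))))) (.g (nat_lit 6) .nil .nil)))) (.nd (nat_lit 6) 
(.lf (nat_lit 130101) (.g (nat_lit 3444) (.e (nat_lit 8317) (nat_lit 64) (.e (nat_lit 516166) (nat_lit 12) (.e (nat_lit 450563) (nat_lit 0) (.e (nat_lit 6736) (nat_lit 365) .nil)))) .nil)) 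
(.lf (nat_lit 130165) (.g (nat_lit 2630) (.e (nat_lit 8318) (nat_lit 64) (.e (nat_lit 516176) (nat_lit 14) (.e (nat_lit 466981) (nat_lit 23) (.e (nat_lit 204863) (nat_lit 27) (.e (nat_lit 344163) (nat_lit 37) .nil))))) .nil))))) (.nd (nat_lit 4) (.nd (nat_lit 5) (.nd (nat_lit 6) 
(.lf (nat_lit 130061) (.g (nat_lit 2526) (.e (nat_lit 8305) (nat_lit 58) (.e (nat_lit 286761) (nat_lit 13) (.e (nat_lit 393300) (nat_lit 27) (.e (nat_lit 491558) (nat_lit 10) .nil)))) .nil)) 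
(.lf (nat_lit 130125) (.g (nat_lit 2468) (.e (nat_lit 8318) (nat_lit 64) (.e (nat_lit 516145) (nat_lit 9) (.e (nat_lit 426428) (nat_lit 17) (.e (nat_lit 90174) (nat_lit 14) (.e (nat_lit 180250) (nat_lit 10) (.e (nat_lit 573475) (nat_lit 12) (.e (nat_lit 65280) (nat_lit 202) .nil))))))) (.g (nat_lit 4) .nil .nil)))) (.nd (nat_lit 6) 
(.lf (nat_lit 130093) (.g (nat_lit 3660) (.e (nat_lit 8317) (nat_lit 64) (.e (nat_lit 516146) (nat_lit 9) (.e (nat_lit 426428) (nat_lit 17) (.e (nat_lit 90174) (nat_lit 14) (.e (nat_lit 180250) (nat_lit 10) (.e (nat_lit 573473) (nat_lit 12) (.e (nat_lit 65280) (nat_lit 202) .nil))))))) (.g (nat_lit 6) .nil .nil))) 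
(.lf (nat_lit 130157) (.g (nat_lit 2135) (.e (nat_lit 8318) (nat_lit 64) (.e (nat_lit 516176) (nat_lit 14) (.e (nat_lit 466977) (nat_lit 22) (.e (nat_lit 196681) (nat_lit 17) (.e (nat_lit 131089) (nat_lit 1) .nil))))) .nil)))) (.nd (nat_lit 5) (.nd (nat_lit 6) 
(.lf (nat_lit 130077) (.g (nat_lit 1427) (.e (nat_lit 8316) (nat_lit 64) (.e (nat_lit 516131) (nat_lit 3) (.e (nat_lit 221212) (nat_lit 22) (.e (nat_lit 196668) (nat_lit 14) .nil)))) .nil)) 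
(.lf (nat_lit 130141) (.g (nat_lit 3661) (.e (nat_lit 8318) (nat_lit 64) (.e (nat_lit 516166) (nat_lit 12) (.e (nat_lit 450563) (nat_lit 0) (.e (nat_lit 6740) (nat_lit 365) .nil)))) .nil))) (.nd (nat_lit 6) 
(.lf (nat_lit 130109) (.g (nat_lit 2750) (.e (nat_lit 8318) (nat_lit 64) (.e (nat_lit 516115) (nat_lit 1) (.e (nat_lit 164325) (nat_lit 230) (.e (nat_lit 163936) (nat_lit 18) .nil)))) .nil)) 
(.lf (nat_lit 130173) (.g (nat_lit 2020) (.e (nat_lit 8318) (nat_lit 64) (.e (nat_lit 516195) (nat_lit 26) (.e (nat_lit 336223) (nat_lit 13) (.e (nat_lit 393234) (nat_lit 17) (.e (nat_lit 3568) (nat_lit 222) .nil))))) .nil))))))) (.nd (nat_lit 2) (.nd (nat_lit 3) (.nd (nat_lit 4) (.nd (nat_lit 5) (.nd (nat_lit 6) 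
(.lf (nat_lit 130051) (.g (nat_lit 1871) (.e (nat_lit 8305) (nat_lit 58) (.e (nat_lit 286753) (nat_lit 10) (.e (nat_lit 344169) (nat_lit 40) (.e (nat_lit 671748) (nat_lit 0) (.e (nat_lit 1586) (nat_lit 111) (.e (nat_lit 360456) (nat_lit 0) (.e (nat_lit 5557) (nat_lit 307) .nil))))))) (.g (nat_lit 4) .nil .nil))) 
(.lf (nat_lit 130115) (.g (nat_lit 516) (.e (nat_lit 8318) (nat_lit 64) (.e (nat_lit 516131) (nat_lit 3) (.e (nat_lit 221212) (nat_lit 22) .nil))) .nil))) (.nd (nat_lit 6) 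
(.lf (nat_lit 130083) (.g (nat_lit 2044) (.e (nat_lit 8316) (nat_lit 64) (.e (nat_lit 516151) (nat_lit 9) (.e (nat_lit 426286) (nat_lit 10) .nil))) .nil)) 
(.lf (nat_lit 130147) (.g (nat_lit 2462) (.e (nat_lit 8318) (nat_lit 64) (.e (nat_lit 516169) (nat_lit 13) (.e (nat_lit 458789) (nat_lit 23) (.e (nat_lit 532515) (nat_lit 3) (.e (nat_lit 114716) (nat_lit 22) (.e (nat_lit 98048) (nat_lit 21) (.e (nat_lit 164368) (nat_lit 247) .nil))))))) (.g (nat_lit 5) .nil .nil))))) (.nd (nat_lit 5) (.nd (nat_lit 6) 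
(.lf (nat_lit 130067) (.g (nat_lit 6416) (.e (nat_lit 8305) (nat_lit 58) (.e (nat_lit 286761) (nat_lit 13) (.e (nat_lit 393301) (nat_lit 27) (.e (nat_lit 491559) (nat_lit 10) (.e (nat_lit 344090) (nat_lit 18) .nil))))) .nil)) 
(.lf (nat_lit 130131) (.g (nat_lit 1319) (.e (nat_lit 8318) (nat_lit 64) (.e (nat_lit 516150) (nat_lit 9) (.e (nat_lit 426131) (nat_lit 3) (.e (nat_lit 204837) (nat_lit 20) .nil)))) .nil))) (.nd (nat_lit 6) 
(.lf (nat_lit 130099) (.g (nat_lit 1151) (.e (nat_lit 8317) (nat_lit 64) (.e (nat_lit 516166) (nat_lit 12) (.e (nat_lit 450562) (nat_lit 0) .nil))) .nil)) 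
(.lf (nat_lit 130163) (.g (nat_lit 2213) (.e (nat_lit 8318) (nat_lit 64) (.e (nat_lit 516176) (nat_lit 14) (.e (nat_lit 466981) (nat_lit 23) (.e (nat_lit 204862) (nat_lit 27) (.e (nat_lit 344161) (nat_lit 37) (.e (nat_lit 647178) (nat_lit 1) .nil)))))) (.g (nat_lit 4) .nil .nil)))))) (.nd (nat_lit 4) (.nd (nat_lit 5) (.nd (nat_lit 6) 
(.lf (nat_lit 130059) (.g (nat_lit 3527) (.e (nat_lit 8305) (nat_lit 58) (.e (nat_lit 286760) (nat_lit 13) (.e (nat_lit 393301) (nat_lit 27) (.e (nat_lit 491560) (nat_lit 10) (.e (nat_lit 344087) (nat_lit 18) .nil))))) .nil)) 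
(.lf (nat_lit 130123) (.g (nat_lit 1292) (.e (nat_lit 8318) (nat_lit 64) (.e (nat_lit 516131) (nat_lit 3) (.e (nat_lit 221212) (nat_lit 22) (.e (nat_lit 196669) (nat_lit 14) .nil)))) .nil))) (.nd (nat_lit 6) 
(.lf (nat_lit 130091) (.g (nat_lit 1287) (.e (nat_lit 8317) (nat_lit 64) (.e (nat_lit 516131) (nat_lit 3) (.e (nat_lit 221212) (nat_lit 22) (.e (nat_lit 196670) (nat_lit 14) .nil)))) .nil)) 
(.lf (nat_lit 130155) (.g (nat_lit 2468) (.e (nat_lit 8318) (nat_lit 64) (.e (nat_lit 516176) (nat_lit 14) (.e (nat_lit 466977) (nat_lit 22) (.e (nat_lit 196670) (nat_lit 14) (.e (nat_lit 73766) (nat_lit 19) .nil))))) .nil)))) (.nd (nat_lit 5) (.nd (nat_lit 6) 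
(.lf (nat_lit 130075) (.g (nat_lit 154) (.e (nat_lit 8312) (nat_lit 62) (.e (nat_lit 499933) (nat_lit 11) (.e (nat_lit 196352) (nat_lit 19) (.e (nat_lit 401472) (nat_lit 28) (.e (nat_lit 352000) (nat_lit 1) .nil))))) (.g (nat_lit 4) .nil .nil))) 
(.lf (nat_lit 130139) (.g (nat_lit 4317) (.e (nat_lit 8318) (nat_lit 64) (.e (nat_lit 516166) (nat_lit 12) (.e (nat_lit 450562) (nat_lit 0) (.e (nat_lit 6806) (nat_lit 365) .nil)))) .nil))) (.nd (nat_lit 6) 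
(.lf (nat_lit 130107) (.g (nat_lit 2229) (.e (nat_lit 8317) (nat_lit 64) (.e (nat_lit 516176) (nat_lit 14) (.e (nat_lit 466977) (nat_lit 22) (.e (nat_lit 196681) (nat_lit 17) (.e (nat_lit 131089) (nat_lit 1) .nil))))) .nil)) 
(.lf (nat_lit 130171) (.g (nat_lit 2010) (.e (nat_lit 8318) (nat_lit 64) (.e (nat_lit 516195) (nat_lit 26) (.e (nat_lit 336223) (nat_lit 13) (.e (nat_lit 393234) (nat_lit 17) (.e (nat_lit 3565) (nat_lit 222) .nil))))) .nil)))))) (.nd (nat_lit 3) (.nd (nat_lit 4) (.nd (nat_lit 5) (.nd (nat_lit 6) 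
(.lf (nat_lit 130055) (.g (nat_lit 1859) (.e (nat_lit 8305) (nat_lit 58) (.e (nat_lit 286759) (nat_lit 12) (.e (nat_lit 385094) (nat_lit 49) (.e (nat_lit 778326) (nat_lit 6) .nil)))) .nil)) 
(.lf (nat_lit 130119) (.g (nat_lit 2415) (.e (nat_lit 8318) (nat_lit 64) (.e (nat_lit 516131) (nat_lit 3) (.e (nat_lit 221212) (nat_lit 22) (.e (nat_lit 196668) (nat_lit 14) (.e (nat_lit 81664) (nat_lit 1) (.e (nat_lit 500056) (nat_lit 17) (.e (nat_lit 57575) (nat_lit 55) (.e (nat_lit 778455) (nat_lit 10) .nil)))))))) (.g (nat_lit 4) .nil .nil)))) (.nd (nat_lit 6) 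
(.lf (nat_lit 130087) (.g (nat_lit 1954) (.e (nat_lit 8317) (nat_lit 64) (.e (nat_lit 516129) (nat_lit 3) (.e (nat_lit 221210) (nat_lit 22) (.e (nat_lit 196668) (nat_lit 14) (.e (nat_lit 81664) (nat_lit 5) .nil))))) .nil)) 
(.lf (nat_lit 130151) (.g (nat_lit 1731) (.e (nat_lit 8318) (nat_lit 64) (.e (nat_lit 516176) (nat_lit 14) (.e (nat_lit 466971) (nat_lit 21) (.e (nat_lit 164195) (nat_lit 158) .nil)))) .nil)))) (.nd (nat_lit 5) (.nd (nat_lit 6) 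
(.lf (nat_lit 130071) (.g (nat_lit 4583) (.e (nat_lit 8305) (nat_lit 58) (.e (nat_lit 286761) (nat_lit 13) (.e (nat_lit 393301) (nat_lit 27) (.e (nat_lit 491560) (nat_lit 10) (.e (nat_lit 344091) (nat_lit 18) .nil))))) .nil)) 
(.lf (nat_lit 130135) (.g (nat_lit 1282) (.e (nat_lit 8318) (nat_lit 64) (.e (nat_lit 516151) (nat_lit 9) (.e (nat_lit 426285) (nat_lit 10) .nil))) .nil))) (.nd (nat_lit 6) 
(.lf (nat_lit 130103) (.g (nat_lit 3444) (.e (nat_lit 8317) (nat_lit 64) (.e (nat_lit 516166) (nat_lit 12) (.e (nat_lit 450563) (nat_lit 0) (.e (nat_lit 6745) (nat_lit 365) .nil)))) .nil)) 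
(.lf (nat_lit 130167) (.g (nat_lit 1022) (.e (nat_lit 8318) (nat_lit 64) (.e (nat_lit 516179) (nat_lit 15) (.e (nat_lit 475177) (nat_lit 24) .nil))) .nil))))) (.nd (nat_lit 4) (.nd (nat_lit 5) (.nd (nat_lit 6) 
(.lf (nat_lit 130063) (.g (nat_lit 3628) (.e (nat_lit 8305) (nat_lit 58) (.e (nat_lit 286761) (nat_lit 13) (.e (nat_lit 393301) (nat_lit 27) (.e (nat_lit 491558) (nat_lit 10) .nil)))) .nil)) 
(.lf (nat_lit 130127) (.g (nat_lit 3339) (.e (nat_lit 8318) (nat_lit 64) (.e (nat_lit 516146) (nat_lit 9) (.e (nat_lit 426428) (nat_lit 17) (.e (nat_lit 90174) (nat_lit 14) (.e (nat_lit 180250) (nat_lit 10) (.e (nat_lit 573473) (nat_lit 12) (.e (nat_lit 65280) (nat_lit 202) .nil))))))) (.g (nat_lit 6) .nil .nil)))) (.nd (nat_lit 6) 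
(.lf (nat_lit 130095) (.g (nat_lit 1874) (.e (nat_lit 8317) (nat_lit 64) (.e (nat_lit 516150) (nat_lit 9) (.e (nat_lit 426131) (nat_lit 3) (.e (nat_lit 204838) (nat_lit 20) .nil)))) .nil)) 
(.lf (nat_lit 130159) (.g (nat_lit 2146) (.e (nat_lit 8318) (nat_lit 64) (.e (nat_lit 516176) (nat_lit 14) (.e (nat_lit 466981) (nat_lit 23) (.e (nat_lit 204861) (nat_lit 26) (.e (nat_lit 335988) (nat_lit 1) .nil))))) .nil)))) (.nd (nat_lit 5) (.nd (nat_lit 6) 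
(.lf (nat_lit 130079) (.g (nat_lit 1292) (.e (nat_lit 8316) (nat_lit 64) (.e (nat_lit 516131) (nat_lit 3) (.e (nat_lit 221212) (nat_lit 22) (.e (nat_lit 196669) (nat_lit 14) .nil)))) .nil)) 
(.lf (nat_lit 130143) (.g (nat_lit 3771) (.e (nat_lit 8318) (nat_lit 64) (.e (nat_lit 516166) (nat_lit 12) (.e (nat_lit 450563) (nat_lit 0) (.e (nat_lit 6806) (nat_lit 365) .nil)))) .nil))) (.nd (nat_lit 6) 
(.lf (nat_lit 130111) (.g (nat_lit 1349) (.e (nat_lit 8318) (nat_lit 64) (.e (nat_lit 516129) (nat_lit 3) (.e (nat_lit 221210) (nat_lit 22) (.e (nat_lit 196668) (nat_lit 14) .nil)))) .nil)) 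
(.lf (nat_lit 130175) (.g (nat_lit 1146) (.e (nat_lit 8319) (nat_lit 64) (.e (nat_lit 516117) (nat_lit 1) (.e (nat_lit 164329) (nat_lit 230) .nil))) .nil)))))))))

noncomputable def tv1736 : DT := (.nd (nat_lit 0) (.nd (nat_lit 1) (.nd (nat_lit 2) (.nd (nat_lit 3) (.nd (nat_lit 4) (.nd (nat_lit 5) (.nd (nat_lit 6) 
(.lf (nat_lit 130176) (.g (nat_lit 907) (.e (nat_lit 8319) (nat_lit 64) (.e (nat_lit 516120) (nat_lit 1) (.e (nat_lit 164329) (nat_lit 230) .nil))) .nil)) 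
(.lf (nat_lit 130240) (.g (nat_lit 2940) (.e (nat_lit 8320) (nat_lit 64) (.e (nat_lit 516150) (nat_lit 9) (.e (nat_lit 426428) (nat_lit 17) (.e (nat_lit 90174) (nat_lit 14) (.e (nat_lit 180250) (nat_lit 10) (.e (nat_lit 573478) (nat_lit 12) (.e (nat_lit 65280) (nat_lit 202) .nil))))))) (.g (nat_lit 5) .nil .nil)))) (.nd (nat_lit 6) 
(.lf (nat_lit 130208) (.g (nat_lit 1904) (.e (nat_lit 8320) (nat_lit 64) (.e (nat_lit 516120) (nat_lit 1) (.e (nat_lit 164332) (nat_lit 230) (.e (nat_lit 163905) (nat_lit 12) (.e (nat_lit 426568) (nat_lit 34) .nil))))) .nil)) 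
(.lf (nat_lit 130272) (.g (nat_lit 3513) (.e (nat_lit 8320) (nat_lit 64) (.e (nat_lit 516166) (nat_lit 12) (.e (nat_lit 450563) (nat_lit 0) (.e (nat_lit 6806) (nat_lit 365) .nil)))) .nil)))) (.nd (nat_lit 5) (.nd (nat_lit 6) 
(.lf (nat_lit 130192) (.g (nat_lit 875) (.e (nat_lit 8319) (nat_lit 64) (.e (nat_lit 516146) (nat_lit 9) (.e (nat_lit 426438) (nat_lit 18) .nil))) .nil)) 
(.lf (nat_lit 130256) (.g (nat_lit 4083) (.e (nat_lit 8320) (nat_lit 64) (.e (nat_lit 516166) (nat_lit 12) (.e (nat_lit 450562) (nat_lit 0) (.e (nat_lit 6745) (nat_lit 365) .nil)))) .nil))) (.nd (nat_lit 6) 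
(.lf (nat_lit 130224) (.g (nat_lit 2397) (.e (nat_lit 8320) (nat_lit 64) (.e (nat_lit 516146) (nat_lit 9) (.e (nat_lit 426428) (nat_lit 17) (.e (nat_lit 90174) (nat_lit 14) (.e (nat_lit 180250) (nat_lit 10) (.e (nat_lit 573477) (nat_lit 12) (.e (nat_lit 65280) (nat_lit 202) .nil))))))) (.g (nat_lit 4) .nil .nil))) 
(.lf (nat_lit 130288) (.g (nat_lit 869) (.e (nat_lit 8320) (nat_lit 64) (.e (nat_lit 516174) (nat_lit 14) (.e (nat_lit 466970) (nat_lit 21) (.e (nat_lit 164196) (nat_lit 158) .nil)))) .nil))))) (.nd (nat_lit 4) (.nd (nat_lit 5) (.nd (nat_lit 6) 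
(.lf (nat_lit 130184) (.g (nat_lit 1695) (.e (nat_lit 8319) (nat_lit 64) (.e (nat_lit 516131) (nat_lit 3) (.e (nat_lit 221212) (nat_lit 22) (.e (nat_lit 196668) (nat_lit 14) (.e (nat_lit 81664) (nat_lit 1) .nil))))) .nil)) 
(.lf (nat_lit 130248) (.g (nat_lit 1755) (.e (nat_lit 8320) (nat_lit 64) (.e (nat_lit 516163) (nat_lit 11) (.e (nat_lit 442421) (nat_lit 21) (.e (nat_lit 164196) (nat_lit 158) .nil)))) .nil))) (.nd (nat_lit 6) 
(.lf (nat_lit 130216) (.g (nat_lit 1296) (.e (nat_lit 8320) (nat_lit 64) (.e (nat_lit 516131) (nat_lit 3) (.e (nat_lit 221212) (nat_lit 22) (.e (nat_lit 196669) (nat_lit 14) .nil)))) .nil)) 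
(.lf (nat_lit 130280) (.g (nat_lit 456) (.e (nat_lit 8320) (nat_lit 64) (.e (nat_lit 516167) (nat_lit 12) (.e (nat_lit 450605) (nat_lit 27) (.e (nat_lit 745492) (nat_lit 5) (.e (nat_lit 81664) (nat_lit 33) .nil))))) (.g (nat_lit 4) .nil .nil))))) (.nd (nat_lit 5) (.nd (nat_lit 6) 
(.lf (nat_lit 130200) (.g (nat_lit 2152) (.e (nat_lit 8319) (nat_lit 64) (.e (nat_lit 516151) (nat_lit 9) (.e (nat_lit 426286) (nat_lit 10) .nil))) .nil)) 
(.lf (nat_lit 130264) (.g (nat_lit 4365) (.e (nat_lit 8320) (nat_lit 64) (.e (nat_lit 516166) (nat_lit 12) (.e (nat_lit 450563) (nat_lit 0) (.e (nat_lit 6736) (nat_lit 365) (.e (nat_lit 1214) (nat_lit 89) (.e (nat_lit 81664) (nat_lit 33) .nil)))))) (.g (nat_lit 4) .nil .nil)))) (.nd (nat_lit 6) 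
(.lf (nat_lit 130232) (.g (nat_lit 2222) (.e (nat_lit 8320) (nat_lit 64) (.e (nat_lit 516146) (nat_lit 9) (.e (nat_lit 426438) (nat_lit 18) (.e (nat_lit 98368) (nat_lit 27) (.e (nat_lit 434248) (nat_lit 28) .nil))))) .nil)) 
(.lf (nat_lit 130296) (.g (nat_lit 836) (.e (nat_lit 8320) (nat_lit 64) (.e (nat_lit 516176) (nat_lit 14) (.e (nat_lit 466955) (nat_lit 20) .nil))) .nil)))))) (.nd (nat_lit 3) (.nd (nat_lit 4) (.nd (nat_lit 5) (.nd (nat_lit 6) 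
(.lf (nat_lit 130180) (.g (nat_lit 1946) (.e (nat_lit 8319) (nat_lit 64) (.e (nat_lit 516129) (nat_lit 3) (.e (nat_lit 221210) (nat_lit 22) (.e (nat_lit 196668) (nat_lit 14) (.e (nat_lit 81664) (nat_lit 1) (.e (nat_lit 500056) (nat_lit 17) (.e (nat_lit 57575) (nat_lit 55) (.e (nat_lit 778453) (nat_lit 10) .nil)))))))) (.g (nat_lit 4) .nil .nil))) 
(.lf (nat_lit 130244) (.g (nat_lit 1360) (.e (nat_lit 8320) (nat_lit 64) (.e (nat_lit 516151) (nat_lit 9) (.e (nat_lit 426211) (nat_lit 9) .nil))) .nil))) (.nd (nat_lit 6) 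
(.lf (nat_lit 130212) (.g (nat_lit 2072) (.e (nat_lit 8320) (nat_lit 64) (.e (nat_lit 516131) (nat_lit 3) (.e (nat_lit 221212) (nat_lit 22) (.e (nat_lit 196668) (nat_lit 14) (.e (nat_lit 81664) (nat_lit 1) .nil))))) .nil)) 
(.lf (nat_lit 130276) (.g (nat_lit 1259) (.e (nat_lit 8320) (nat_lit 64) (.e (nat_lit 516166) (nat_lit 12) (.e (nat_lit 450566) (nat_lit 0) .nil))) .nil)))) (.nd (nat_lit 5) (.nd (nat_lit 6) 
(.lf (nat_lit 130196) (.g (nat_lit 1700) (.e (nat_lit 8319) (nat_lit 64) (.e (nat_lit 516150) (nat_lit 9) (.e (nat_lit 426428) (nat_lit 17) (.e (nat_lit 90174) (nat_lit 14) (.e (nat_lit 180250) (nat_lit 10) (.e (nat_lit 573473) (nat_lit 12) (.e (nat_lit 65280) (nat_lit 202) .nil))))))) (.g (nat_lit 4) .nil .nil))) 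
(.lf (nat_lit 130260) (.g (nat_lit 1190) (.e (nat_lit 8320) (nat_lit 64) (.e (nat_lit 516166) (nat_lit 12) (.e (nat_lit 450563) (nat_lit 0) .nil))) .nil))) (.nd (nat_lit 6) 
(.lf (nat_lit 130228) (.g (nat_lit 2157) (.e (nat_lit 8320) (nat_lit 64) (.e (nat_lit 516146) (nat_lit 9) (.e (nat_lit 426438) (nat_lit 18) (.e (nat_lit 98366) (nat_lit 27) (.e (nat_lit 434248) (nat_lit 28) .nil))))) .nil)) 
(.lf (nat_lit 130292) (.g (nat_lit 2317) (.e (nat_lit 8320) (nat_lit 64) (.e (nat_lit 516176) (nat_lit 14) (.e (nat_lit 466954) (nat_lit 11) (.e (nat_lit 336288) (nat_lit 15) (.e (nat_lit 7105) (nat_lit 380) .nil))))) .nil))))) (.nd (nat_lit 4) (.nd (nat_lit 5) (.nd (nat_lit 6) 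
(.lf (nat_lit 130188) (.g (nat_lit 1867) (.e (nat_lit 8319) (nat_lit 64) (.e (nat_lit 516131) (nat_lit 3) (.e (nat_lit 221215) (nat_lit 23) (.e (nat_lit 204862) (nat_lit 27) (.e (nat_lit 344107) (nat_lit 19) .nil))))) .nil)) 
(.lf (nat_lit 130252) (.g (nat_lit 1246) (.e (nat_lit 8320) (nat_lit 64) (.e (nat_lit 516166) (nat_lit 12) (.e (nat_lit 450562) (nat_lit 0) .nil))) .nil))) (.nd (nat_lit 6) 
(.lf (nat_lit 130220) (.g (nat_lit 3705) (.e (nat_lit 8320) (nat_lit 64) (.e (nat_lit 516145) (nat_lit 9) (.e (nat_lit 426428) (nat_lit 17) (.e (nat_lit 90174) (nat_lit 14) (.e (nat_lit 180250) (nat_lit 10) (.e (nat_lit 573473) (nat_lit 12) (.e (nat_lit 65280) (nat_lit 202) .nil))))))) (.g (nat_lit 6) .nil .nil))) 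
(.lf (nat_lit 130284) (.g (nat_lit 2120) (.e (nat_lit 8320) (nat_lit 64) (.e (nat_lit 516174) (nat_lit 14) (.e (nat_lit 466954) (nat_lit 11) (.e (nat_lit 336288) (nat_lit 15) (.e (nat_lit 7098) (nat_lit 380) .nil))))) .nil)))) (.nd (nat_lit 5) (.nd (nat_lit 6) 
(.lf (nat_lit 130204) (.g (nat_lit 491) (.e (nat_lit 8320) (nat_lit 64) (.e (nat_lit 516119) (nat_lit 1) (.e (nat_lit 164325) (nat_lit 230) .nil))) .nil)) 
(.lf (nat_lit 130268) (.g (nat_lit 4584) (.e (nat_lit 8320) (nat_lit 64) (.e (nat_lit 516166) (nat_lit 12) (.e (nat_lit 450563) (nat_lit 0) (.e (nat_lit 6740) (nat_lit 365) (.e (nat_lit 1214) (nat_lit 89) (.e (nat_lit 81664) (nat_lit 33) .nil)))))) (.g (nat_lit 5) .nil .nil)))) (.nd (nat_lit 6) 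
(.lf (nat_lit 130236) (.g (nat_lit 1376) (.e (nat_lit 8320) (nat_lit 64) (.e (nat_lit 516150) (nat_lit 9) (.e (nat_lit 426323) (nat_lit 13) (.e (nat_lit 483333) (nat_lit 0) (.e (nat_lit 7098) (nat_lit 380) .nil))))) .nil)) 
(.lf (nat_lit 130300) (.g (nat_lit 1301) (.e (nat_lit 8320) (nat_lit 64) (.e (nat_lit 516176) (nat_lit 14) (.e (nat_lit 466967) (nat_lit 20) (.e (nat_lit 2443) (nat_lit 157) (.e (nat_lit 6806) (nat_lit 365) (.e (nat_lit 1210) (nat_lit 89) (.e (nat_lit 81664) (nat_lit 33) .nil))))))) (.g (nat_lit 4) .nil .nil)))))))) 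
(.nd (nat_lit 2) (.nd (nat_lit 3) (.nd (nat_lit 4) (.nd (nat_lit 5) (.nd (nat_lit 6) 
(.lf (nat_lit 130178) (.g (nat_lit 1538) (.e (nat_lit 8319) (nat_lit 64) (.e (nat_lit 516120) (nat_lit 1) (.e (nat_lit 164329) (nat_lit 230) (.e (nat_lit 163941) (nat_lit 19) .nil)))) .nil)) 
(.lf (nat_lit 130242) (.g (nat_lit 2408) (.e (nat_lit 8320) (nat_lit 64) (.e (nat_lit 516151) (nat_lit 9) (.e (nat_lit 426170) (nat_lit 7) (.e (nat_lit 409634) (nat_lit 13) .nil)))) .nil))) (.nd (nat_lit 6) 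
(.lf (nat_lit 130210) (.g (nat_lit 1349) (.e (nat_lit 8320) (nat_lit 64) (.e (nat_lit 516129) (nat_lit 3) (.e (nat_lit 221210) (nat_lit 22) (.e (nat_lit 196668) (nat_lit 14) .nil)))) .nil)) 
(.lf (nat_lit 130274) (.g (nat_lit 3404) (.e (nat_lit 8320) (nat_lit 64) (.e (nat_lit 516166) (nat_lit 12) (.e (nat_lit 450563) (nat_lit 0) (.e (nat_lit 6830) (nat_lit 367) .nil)))) .nil)))) (.nd (nat_lit 5) (.nd (nat_lit 6) 
(.lf (nat_lit 130194) (.g (nat_lit 2148) (.e (nat_lit 8319) (nat_lit 64) (.e (nat_lit 516146) (nat_lit 9) (.e (nat_lit 426438) (nat_lit 18) (.e (nat_lit 98367) (nat_lit 27) (.e (nat_lit 434247) (nat_lit 28) .nil))))) .nil)) 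
(.lf (nat_lit 130258) (.g (nat_lit 3608) (.e (nat_lit 8320) (nat_lit 64) (.e (nat_lit 516166) (nat_lit 12) (.e (nat_lit 450562) (nat_lit 0) (.e (nat_lit 6808) (nat_lit 365) .nil)))) .nil))) (.nd (nat_lit 6) 
(.lf (nat_lit 130226) (.g (nat_lit 2504) (.e (nat_lit 8320) (nat_lit 64) (.e (nat_lit 516146) (nat_lit 9) (.e (nat_lit 426428) (nat_lit 17) (.e (nat_lit 90174) (nat_lit 14) (.e (nat_lit 180251) (nat_lit 10) (.e (nat_lit 573478) (nat_lit 12) (.e (nat_lit 65280) (nat_lit 202) .nil))))))) (.g (nat_lit 4) .nil .nil))) 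
(.lf (nat_lit 130290) (.g (nat_lit 2110) (.e (nat_lit 8320) (nat_lit 64) (.e (nat_lit 516176) (nat_lit 14) (.e (nat_lit 466954) (nat_lit 11) (.e (nat_lit 336288) (nat_lit 15) (.e (nat_lit 7096) (nat_lit 380) .nil))))) .nil))))) (.nd (nat_lit 4) (.nd (nat_lit 5) (.nd (nat_lit 6) 
(.lf (nat_lit 130186) (.g (nat_lit 935) (.e (nat_lit 8319) (nat_lit 64) (.e (nat_lit 516131) (nat_lit 3) (.e (nat_lit 221212) (nat_lit 22) (.e (nat_lit 196669) (nat_lit 14) .nil)))) .nil)) 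
(.lf (nat_lit 130250) (.g (nat_lit 1268) (.e (nat_lit 8320) (nat_lit 64) (.e (nat_lit 516166) (nat_lit 12) (.e (nat_lit 450560) (nat_lit 0) .nil))) .nil))) (.nd (nat_lit 6) 
(.lf (nat_lit 130218) (.g (nat_lit 1398) (.e (nat_lit 8320) (nat_lit 64) (.e (nat_lit 516131) (nat_lit 3) (.e (nat_lit 221215) (nat_lit 23) (.e (nat_lit 204850) (nat_lit 26) .nil)))) .nil)) 
(.lf (nat_lit 130282) (.g (nat_lit 1788) (.e (nat_lit 8320) (nat_lit 64) (.e (nat_lit 516174) (nat_lit 14) (.e (nat_lit 466954) (nat_lit 11) (.e (nat_lit 336287) (nat_lit 15) .nil)))) .nil)))) (.nd (nat_lit 5) (.nd (nat_lit 6) 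
(.lf (nat_lit 130202) (.g (nat_lit 1013) (.e (nat_lit 8320) (nat_lit 64) (.e (nat_lit 516117) (nat_lit 1) (.e (nat_lit 164329) (nat_lit 230) .nil))) .nil)) 
(.lf (nat_lit 130266) (.g (nat_lit 3880) (.e (nat_lit 8320) (nat_lit 64) (.e (nat_lit 516166) (nat_lit 12) (.e (nat_lit 450563) (nat_lit 0) (.e (nat_lit 6740) (nat_lit 365) (.e (nat_lit 1208) (nat_lit 89) .nil))))) .nil))) (.nd (nat_lit 6) 
(.lf (nat_lit 130234) (.g (nat_lit 503) (.e (nat_lit 8320) (nat_lit 64) (.e (nat_lit 516150) (nat_lit 9) (.e (nat_lit 426323) (nat_lit 13) .nil))) .nil)) 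
(.lf (nat_lit 130298) (.g (nat_lit 1003) (.e (nat_lit 8320) (nat_lit 64) (.e (nat_lit 516176) (nat_lit 14) (.e (nat_lit 466967) (nat_lit 20) (.e (nat_lit 2443) (nat_lit 157) (.e (nat_lit 6740) (nat_lit 365) .nil))))) .nil)))))) (.nd (nat_lit 3) (.nd (nat_lit 4) (.nd (nat_lit 5) (.nd (nat_lit 6) 
(.lf (nat_lit 130182) (.g (nat_lit 3158) (.e (nat_lit 8319) (nat_lit 64) (.e (nat_lit 516129) (nat_lit 3) (.e (nat_lit 221210) (nat_lit 22) (.e (nat_lit 196668) (nat_lit 14) (.e (nat_lit 81664) (nat_lit 1) (.e (nat_lit 500056) (nat_lit 17) (.e (nat_lit 57575) (nat_lit 55) (.e (nat_lit 778455) (nat_lit 10) .nil)))))))) (.g (nat_lit 7) .nil .nil))) 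
(.lf (nat_lit 130246) (.g (nat_lit 3513) (.e (nat_lit 8320) (nat_lit 64) (.e (nat_lit 516151) (nat_lit 9) (.e (nat_lit 426285) (nat_lit 10) (.e (nat_lit 434295) (nat_lit 49) (.e (nat_lit 745492) (nat_lit 5) .nil))))) .nil))) (.nd (nat_lit 6) 
(.lf (nat_lit 130214) (.g (nat_lit 2253) (.e (nat_lit 8320) (nat_lit 64) (.e (nat_lit 516131) (nat_lit 3) (.e (nat_lit 221212) (nat_lit 22) (.e (nat_lit 196668) (nat_lit 14) (.e (nat_lit 73744) (nat_lit 2) .nil))))) .nil)) 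
(.lf (nat_lit 130278) (.g (nat_lit 1219) (.e (nat_lit 8320) (nat_lit 64) (.e (nat_lit 516166) (nat_lit 12) (.e (nat_lit 458496) (nat_lit 0) .nil))) .nil)))) (.nd (nat_lit 5) (.nd (nat_lit 6) 
(.lf (nat_lit 130198) (.g (nat_lit 1362) (.e (nat_lit 8319) (nat_lit 64) (.e (nat_lit 516151) (nat_lit 9) (.e (nat_lit 426171) (nat_lit 7) .nil))) .nil)) 
(.lf (nat_lit 130262) (.g (nat_lit 4090) (.e (nat_lit 8320) (nat_lit 64) (.e (nat_lit 516166) (nat_lit 12) (.e (nat_lit 450563) (nat_lit 0) (.e (nat_lit 6736) (nat_lit 365) (.e (nat_lit 1208) (nat_lit 89) .nil))))) .nil))) (.nd (nat_lit 6) 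
(.lf (nat_lit 130230) (.g (nat_lit 2107) (.e (nat_lit 8320) (nat_lit 64) (.e (nat_lit 516146) (nat_lit 9) (.e (nat_lit 426438) (nat_lit 18) (.e (nat_lit 98367) (nat_lit 27) (.e (nat_lit 434247) (nat_lit 28) .nil))))) .nil)) 
(.lf (nat_lit 130294) (.g (nat_lit 1542) (.e (nat_lit 8320) (nat_lit 64) (.e (nat_lit 516176) (nat_lit 14) (.e (nat_lit 466954) (nat_lit 11) (.e (nat_lit 343808) (nat_lit 25) .nil)))) .nil))))) (.nd (nat_lit 4) (.nd (nat_lit 5) (.nd (nat_lit 6) 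
(.lf (nat_lit 130190) (.g (nat_lit 2351) (.e (nat_lit 8319) (nat_lit 64) (.e (nat_lit 516145) (nat_lit 9) (.e (nat_lit 426428) (nat_lit 17) (.e (nat_lit 90174) (nat_lit 14) (.e (nat_lit 180250) (nat_lit 10) (.e (nat_lit 573473) (nat_lit 12) (.e (nat_lit 65280) (nat_lit 202) .nil))))))) (.g (nat_lit 4) .nil .nil))) 
(.lf (nat_lit 130254) (.g (nat_lit 4003) (.e (nat_lit 8320) (nat_lit 64) (.e (nat_lit 516166) (nat_lit 12) (.e (nat_lit 450562) (nat_lit 0) (.e (nat_lit 6740) (nat_lit 365) .nil)))) .nil))) (.nd (nat_lit 6) 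
(.lf (nat_lit 130222) (.g (nat_lit 3859) (.e (nat_lit 8320) (nat_lit 64) (.e (nat_lit 516146) (nat_lit 9) (.e (nat_lit 426428) (nat_lit 17) (.e (nat_lit 90174) (nat_lit 14) (.e (nat_lit 180250) (nat_lit 10) (.e (nat_lit 573473) (nat_lit 12) (.e (nat_lit 65280) (nat_lit 202) .nil))))))) (.g (nat_lit 6) .nil .nil))) 
(.lf (nat_lit 130286) (.g (nat_lit 2324) (.e (nat_lit 8320) (nat_lit 64) (.e (nat_lit 516174) (nat_lit 14) (.e (nat_lit 466954) (nat_lit 11) (.e (nat_lit 336288) (nat_lit 15) (.e (nat_lit 7106) (nat_lit 380) .nil))))) .nil)))) (.nd (nat_lit 5) (.nd (nat_lit 6) 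
(.lf (nat_lit 130206) (.g (nat_lit 1744) (.e (nat_lit 8320) (nat_lit 64) (.e (nat_lit 516120) (nat_lit 1) (.e (nat_lit 164330) (nat_lit 230) (.e (nat_lit 163905) (nat_lit 12) .nil)))) .nil)) 
(.lf (nat_lit 130270) (.g (nat_lit 3588) (.e (nat_lit 8320) (nat_lit 64) (.e (nat_lit 516166) (nat_lit 12) (.e (nat_lit 450563) (nat_lit 0) (.e (nat_lit 6745) (nat_lit 365) .nil)))) .nil))) (.nd (nat_lit 6) 
(.lf (nat_lit 130238) (.g (nat_lit 3181) (.e (nat_lit 8320) (nat_lit 64) (.e (nat_lit 516150) (nat_lit 9) (.e (nat_lit 426428) (nat_lit 17) (.e (nat_lit 90174) (nat_lit 14) (.e (nat_lit 180250) (nat_lit 10) (.e (nat_lit 573475) (nat_lit 12) (.e (nat_lit 65280) (nat_lit 202) .nil))))))) (.g (nat_lit 5) .nil .nil))) 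
(.lf (nat_lit 130302) (.g (nat_lit 2320) (.e (nat_lit 8320) (nat_lit 64) (.e (nat_lit 516176) (nat_lit 14) (.e (nat_lit 466971) (nat_lit 21) (.e (nat_lit 164195) (nat_lit 158) (.e (nat_lit 1209) (nat_lit 89) (.e (nat_lit 81664) (nat_lit 33) .nil)))))) (.g (nat_lit 5) .nil .nil))))))))) (.nd (nat_lit 1) (.nd (nat_lit 2) (.nd (nat_lit 3) (.nd (nat_lit 4) (.nd (nat_lit 5) (.nd (nat_lit 6) 
(.lf (nat_lit 130177) (.g (nat_lit 1515) (.e (nat_lit 8319) (nat_lit 64) (.e (nat_lit 516120) (nat_lit 1) (.e (nat_lit 164329) (nat_lit 230) (.e (nat_lit 163902) (nat_lit 12) .nil)))) .nil)) 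
(.lf (nat_lit 130241) (.g (nat_lit 2293) (.e (nat_lit 8320) (nat_lit 64) (.e (nat_lit 516150) (nat_lit 9) (.e (nat_lit 426428) (nat_lit 17) (.e (nat_lit 90174) (nat_lit 14) (.e (nat_lit 180251) (nat_lit 10) (.e (nat_lit 573478) (nat_lit 12) (.e (nat_lit 65280) (nat_lit 202) .nil))))))) (.g (nat_lit 4) .nil .nil)))) (.nd (nat_lit 6) 
(.lf (nat_lit 130209) (.g (nat_lit 1056) (.e (nat_lit 8320) (nat_lit 64) (.e (nat_lit 516129) (nat_lit 3) (.e (nat_lit 221194) (nat_lit 11) (.e (nat_lit 336010) (nat_lit 2) .nil)))) .nil)) 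
(.lf (nat_lit 130273) (.g (nat_lit 3568) (.e (nat_lit 8320) (nat_lit 64) (.e (nat_lit 516166) (nat_lit 12) (.e (nat_lit 450563) (nat_lit 0) (.e (nat_lit 6808) (nat_lit 365) .nil)))) .nil)))) (.nd (nat_lit 5) (.nd (nat_lit 6) 
(.lf (nat_lit 130193) (.g (nat_lit 2662) (.e (nat_lit 8319) (nat_lit 64) (.e (nat_lit 516146) (nat_lit 9) (.e (nat_lit 426438) (nat_lit 18) (.e (nat_lit 98367) (nat_lit 27) (.e (nat_lit 434246) (nat_lit 28) .nil))))) .nil)) 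
(.lf (nat_lit 130257) (.g (nat_lit 4083) (.e (nat_lit 8320) (nat_lit 64) (.e (nat_lit 516166) (nat_lit 12) (.e (nat_lit 450562) (nat_lit 0) (.e (nat_lit 6806) (nat_lit 365) .nil)))) .nil))) (.nd (nat_lit 6) 
(.lf (nat_lit 130225) (.g (nat_lit 3139) (.e (nat_lit 8320) (nat_lit 64) (.e (nat_lit 516146) (nat_lit 9) (.e (nat_lit 426428) (nat_lit 17) (.e (nat_lit 90174) (nat_lit 14) (.e (nat_lit 180250) (nat_lit 10) (.e (nat_lit 573478) (nat_lit 12) (.e (nat_lit 65280) (nat_lit 202) .nil))))))) (.g (nat_lit 5) .nil .nil))) 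
(.lf (nat_lit 130289) (.g (nat_lit 1835) (.e (nat_lit 8320) (nat_lit 64) (.e (nat_lit 516176) (nat_lit 14) (.e (nat_lit 466954) (nat_lit 11) (.e (nat_lit 336287) (nat_lit 15) .nil)))) .nil))))) (.nd (nat_lit 4) (.nd (nat_lit 5) (.nd (nat_lit 6) 
(.lf (nat_lit 130185) (.g (nat_lit 1695) (.e (nat_lit 8319) (nat_lit 64) (.e (nat_lit 516131) (nat_lit 3) (.e (nat_lit 221212) (nat_lit 22) (.e (nat_lit 196668) (nat_lit 14) (.e (nat_lit 81664) (nat_lit 5) .nil))))) .nil)) 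
(.lf (nat_lit 130249) (.g (nat_lit 1733) (.e (nat_lit 8320) (nat_lit 64) (.e (nat_lit 516163) (nat_lit 11) (.e (nat_lit 442430) (nat_lit 24) (.e (nat_lit 229559) (nat_lit 158) .nil)))) .nil))) (.nd (nat_lit 6) 
(.lf (nat_lit 130217) (.g (nat_lit 1515) (.e (nat_lit 8320) (nat_lit 64) (.e (nat_lit 516131) (nat_lit 3) (.e (nat_lit 221212) (nat_lit 22) (.e (nat_lit 196669) (nat_lit 14) (.e (nat_lit 81664) (nat_lit 1) .nil))))) .nil)) 
(.lf (nat_lit 130281) (.g (nat_lit 737) (.e (nat_lit 8320) (nat_lit 64) (.e (nat_lit 516174) (nat_lit 14) (.e (nat_lit 466954) (nat_lit 11) .nil))) .nil)))) (.nd (nat_lit 5) (.nd (nat_lit 6) 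
(.lf (nat_lit 130201) (.g (nat_lit 1189) (.e (nat_lit 8319) (nat_lit 64) (.e (nat_lit 516166) (nat_lit 12) (.e (nat_lit 450563) (nat_lit 0) .nil))) .nil)) 
(.lf (nat_lit 130265) (.g (nat_lit 3403) (.e (nat_lit 8320) (nat_lit 64) (.e (nat_lit 516166) (nat_lit 12) (.e (nat_lit 450563) (nat_lit 0) (.e (nat_lit 6740) (nat_lit 365) .nil)))) .nil))) (.nd (nat_lit 6) 
(.lf (nat_lit 130233) (.g (nat_lit 1851) (.e (nat_lit 8320) (nat_lit 64) (.e (nat_lit 516150) (nat_lit 9) (.e (nat_lit 426131) (nat_lit 3) (.e (nat_lit 204838) (nat_lit 20) .nil)))) .nil)) 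
(.lf (nat_lit 130297) (.g (nat_lit 677) (.e (nat_lit 8320) (nat_lit 64) (.e (nat_lit 516176) (nat_lit 14) (.e (nat_lit 466967) (nat_lit 20) .nil))) .nil)))))) (.nd (nat_lit 3) (.nd (nat_lit 4) (.nd (nat_lit 5) (.nd (nat_lit 6) 
(.lf (nat_lit 130181) (.g (nat_lit 2043) (.e (nat_lit 8319) (nat_lit 64) (.e (nat_lit 516129) (nat_lit 3) (.e (nat_lit 221210) (nat_lit 22) (.e (nat_lit 196668) (nat_lit 14) (.e (nat_lit 81664) (nat_lit 1) (.e (nat_lit 500056) (nat_lit 17) (.e (nat_lit 57575) (nat_lit 55) (.e (nat_lit 778454) (nat_lit 10) .nil)))))))) (.g (nat_lit 4) .nil .nil))) 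
(.lf (nat_lit 130245) (.g (nat_lit 1282) (.e (nat_lit 8320) (nat_lit 64) (.e (nat_lit 516151) (nat_lit 9) (.e (nat_lit 426285) (nat_lit 10) .nil))) .nil))) (.nd (nat_lit 6) 
(.lf (nat_lit 130213) (.g (nat_lit 3264) (.e (nat_lit 8320) (nat_lit 64) (.e (nat_lit 516131) (nat_lit 3) (.e (nat_lit 221212) (nat_lit 22) (.e (nat_lit 196668) (nat_lit 14) (.e (nat_lit 81664) (nat_lit 1) (.e (nat_lit 500056) (nat_lit 17) (.e (nat_lit 57575) (nat_lit 55) (.e (nat_lit 778452) (nat_lit 10) .nil)))))))) (.g (nat_lit 7) .nil .nil))) 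
(.lf (nat_lit 130277) (.g (nat_lit 3127) (.e (nat_lit 8320) (nat_lit 64) (.e (nat_lit 516166) (nat_lit 12) (.e (nat_lit 450566) (nat_lit 0) (.e (nat_lit 6791) (nat_lit 365) .nil)))) .nil)))) (.nd (nat_lit 5) (.nd (nat_lit 6) 
(.lf (nat_lit 130197) (.g (nat_lit 1297) (.e (nat_lit 8319) (nat_lit 64) (.e (nat_lit 516151) (nat_lit 9) (.e (nat_lit 426170) (nat_lit 7) .nil))) .nil)) 
(.lf (nat_lit 130261) (.g (nat_lit 3580) (.e (nat_lit 8320) (nat_lit 64) (.e (nat_lit 516166) (nat_lit 12) (.e (nat_lit 450563) (nat_lit 0) (.e (nat_lit 6736) (nat_lit 365) .nil)))) .nil))) (.nd (nat_lit 6) 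
(.lf (nat_lit 130229) (.g (nat_lit 2621) (.e (nat_lit 8320) (nat_lit 64) (.e (nat_lit 516146) (nat_lit 9) (.e (nat_lit 426438) (nat_lit 18) (.e (nat_lit 98367) (nat_lit 27) (.e (nat_lit 434246) (nat_lit 28) .nil))))) .nil)) 
(.lf (nat_lit 130293) (.g (nat_lit 2318) (.e (nat_lit 8320) (nat_lit 64) (.e (nat_lit 516176) (nat_lit 14) (.e (nat_lit 466954) (nat_lit 11) (.e (nat_lit 336288) (nat_lit 15) (.e (nat_lit 7106) (nat_lit 380) .nil))))) .nil))))) (.nd (nat_lit 4) (.nd (nat_lit 5) (.nd (nat_lit 6) 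
(.lf (nat_lit 130189) (.g (nat_lit 1334) (.e (nat_lit 8319) (nat_lit 64) (.e (nat_lit 516131) (nat_lit 3) (.e (nat_lit 221215) (nat_lit 23) (.e (nat_lit 204863) (nat_lit 27) .nil)))) .nil)) 
(.lf (nat_lit 130253) (.g (nat_lit 4084) (.e (nat_lit 8320) (nat_lit 64) (.e (nat_lit 516166) (nat_lit 12) (.e (nat_lit 450562) (nat_lit 0) (.e (nat_lit 6736) (nat_lit 365) .nil)))) .nil))) (.nd (nat_lit 6) 
(.lf (nat_lit 130221) (.g (nat_lit 2486) (.e (nat_lit 8320) (nat_lit 64) (.e (nat_lit 516145) (nat_lit 9) (.e (nat_lit 426428) (nat_lit 17) (.e (nat_lit 90174) (nat_lit 14) (.e (nat_lit 180251) (nat_lit 10) .nil))))) .nil)) 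
(.lf (nat_lit 130285) (.g (nat_lit 2324) (.e (nat_lit 8320) (nat_lit 64) (.e (nat_lit 516174) (nat_lit 14) (.e (nat_lit 466954) (nat_lit 11) (.e (nat_lit 336288) (nat_lit 15) (.e (nat_lit 7105) (nat_lit 380) .nil))))) .nil)))) (.nd (nat_lit 5) (.nd (nat_lit 6) 
(.lf (nat_lit 130205) (.g (nat_lit 761) (.e (nat_lit 8320) (nat_lit 64) (.e (nat_lit 516119) (nat_lit 1) (.e (nat_lit 164403) (nat_lit 256) .nil))) .nil)) 
(.lf (nat_lit 130269) (.g (nat_lit 3700) (.e (nat_lit 8320) (nat_lit 64) (.e (nat_lit 516166) (nat_lit 12) (.e (nat_lit 450563) (nat_lit 0) (.e (nat_lit 6743) (nat_lit 365) .nil)))) .nil))) (.nd (nat_lit 6) 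
(.lf (nat_lit 130237) (.g (nat_lit 3660) (.e (nat_lit 8320) (nat_lit 64) (.e (nat_lit 516150) (nat_lit 9) (.e (nat_lit 426428) (nat_lit 17) (.e (nat_lit 90174) (nat_lit 14) (.e (nat_lit 180250) (nat_lit 10) (.e (nat_lit 573473) (nat_lit 12) (.e (nat_lit 65280) (nat_lit 202) .nil))))))) (.g (nat_lit 6) .nil .nil))) 
(.lf (nat_lit 130301) (.g (nat_lit 1506) (.e (nat_lit 8320) (nat_lit 64) (.e (nat_lit 516176) (nat_lit 14) (.e (nat_lit 466971) (nat_lit 21) (.e (nat_lit 164195) (nat_lit 158) .nil)))) .nil))))))) (.nd (nat_lit 2) (.nd (nat_lit 3) (.nd (nat_lit 4) (.nd (nat_lit 5) (.nd (nat_lit 6) 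
(.lf (nat_lit 130179) (.g (nat_lit 1350) (.e (nat_lit 8319) (nat_lit 64) (.e (nat_lit 516129) (nat_lit 3) (.e (nat_lit 221210) (nat_lit 22) (.e (nat_lit 196668) (nat_lit 14) .nil)))) .nil)) 
(.lf (nat_lit 130243) (.g (nat_lit 2503) (.e (nat_lit 8320) (nat_lit 64) (.e (nat_lit 516151) (nat_lit 9) (.e (nat_lit 426171) (nat_lit 7) (.e (nat_lit 409634) (nat_lit 13) .nil)))) .nil))) (.nd (nat_lit 6) 
(.lf (nat_lit 130211) (.g (nat_lit 2022) (.e (nat_lit 8320) (nat_lit 64) (.e (nat_lit 516129) (nat_lit 3) (.e (nat_lit 221210) (nat_lit 22) (.e (nat_lit 196668) (nat_lit 14) (.e (nat_lit 81664) (nat_lit 1) (.e (nat_lit 500056) (nat_lit 17) (.e (nat_lit 57574) (nat_lit 55) (.e (nat_lit 778455) (nat_lit 10) .nil)))))))) (.g (nat_lit 4) .nil .nil))) 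
(.lf (nat_lit 130275) (.g (nat_lit 4239) (.e (nat_lit 8320) (nat_lit 64) (.e (nat_lit 516166) (nat_lit 12) (.e (nat_lit 450563) (nat_lit 0) (.e (nat_lit 6830) (nat_lit 367) (.e (nat_lit 57421) (nat_lit 13) .nil))))) .nil)))) (.nd (nat_lit 5) (.nd (nat_lit 6) 
(.lf (nat_lit 130195) (.g (nat_lit 2221) (.e (nat_lit 8319) (nat_lit 64) (.e (nat_lit 516146) (nat_lit 9) (.e (nat_lit 426438) (nat_lit 18) (.e (nat_lit 98367) (nat_lit 27) (.e (nat_lit 434248) (nat_lit 28) (.e (nat_lit 573475) (nat_lit 12) (.e (nat_lit 65280) (nat_lit 202) .nil))))))) (.g (nat_lit 4) .nil .nil))) 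
(.lf (nat_lit 130259) (.g (nat_lit 3950) (.e (nat_lit 8320) (nat_lit 64) (.e (nat_lit 516166) (nat_lit 12) (.e (nat_lit 450562) (nat_lit 0) (.e (nat_lit 6830) (nat_lit 367) .nil)))) .nil))) (.nd (nat_lit 6) 
(.lf (nat_lit 130227) (.g (nat_lit 669) (.e (nat_lit 8320) (nat_lit 64) (.e (nat_lit 516146) (nat_lit 9) (.e (nat_lit 426438) (nat_lit 18) .nil))) .nil)) 
(.lf (nat_lit 130291) (.g (nat_lit 2770) (.e (nat_lit 8320) (nat_lit 64) (.e (nat_lit 516176) (nat_lit 14) (.e (nat_lit 466954) (nat_lit 11) (.e (nat_lit 336288) (nat_lit 15) (.e (nat_lit 7098) (nat_lit 380) (.e (nat_lit 171776) (nat_lit 247) .nil)))))) (.g (nat_lit 5) .nil .nil)))))) (.nd (nat_lit 4) (.nd (nat_lit 5) (.nd (nat_lit 6) 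
(.lf (nat_lit 130187) (.g (nat_lit 1154) (.e (nat_lit 8319) (nat_lit 64) (.e (nat_lit 516131) (nat_lit 3) (.e (nat_lit 221212) (nat_lit 22) (.e (nat_lit 196669) (nat_lit 14) (.e (nat_lit 81664) (nat_lit 5) .nil))))) .nil)) 
(.lf (nat_lit 130251) (.g (nat_lit 1259) (.e (nat_lit 8320) (nat_lit 64) (.e (nat_lit 516166) (nat_lit 12) (.e (nat_lit 450561) (nat_lit 0) .nil))) .nil))) (.nd (nat_lit 6) 
(.lf (nat_lit 130219) (.g (nat_lit 2308) (.e (nat_lit 8320) (nat_lit 64) (.e (nat_lit 516145) (nat_lit 9) (.e (nat_lit 426428) (nat_lit 17) (.e (nat_lit 90174) (nat_lit 14) (.e (nat_lit 180250) (nat_lit 10) .nil))))) .nil)) 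
(.lf (nat_lit 130283) (.g (nat_lit 1450) (.e (nat_lit 8320) (nat_lit 64) (.e (nat_lit 516174) (nat_lit 14) (.e (nat_lit 466954) (nat_lit 11) (.e (nat_lit 336288) (nat_lit 15) .nil)))) .nil)))) (.nd (nat_lit 5) (.nd (nat_lit 6) 
(.lf (nat_lit 130203) (.g (nat_lit 665) (.e (nat_lit 8320) (nat_lit 64) (.e (nat_lit 516117) (nat_lit 1) (.e (nat_lit 164330) (nat_lit 230) .nil))) .nil)) 
(.lf (nat_lit 130267) (.g (nat_lit 4522) (.e (nat_lit 8320) (nat_lit 64) (.e (nat_lit 516166) (nat_lit 12) (.e (nat_lit 450563) (nat_lit 0) (.e (nat_lit 6740) (nat_lit 365) (.e (nat_lit 1212) (nat_lit 89) (.e (nat_lit 81664) (nat_lit 33) .nil)))))) (.g (nat_lit 5) .nil .nil)))) (.nd (nat_lit 6) 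
(.lf (nat_lit 130235) (.g (nat_lit 1389) (.e (nat_lit 8320) (nat_lit 64) (.e (nat_lit 516150) (nat_lit 9) (.e (nat_lit 426323) (nat_lit 13) (.e (nat_lit 483333) (nat_lit 0) (.e (nat_lit 7096) (nat_lit 380) .nil))))) .nil)) 
(.lf (nat_lit 130299) (.g (nat_lit 1794) (.e (nat_lit 8320) (nat_lit 64) (.e (nat_lit 516176) (nat_lit 14) (.e (nat_lit 466967) (nat_lit 20) (.e (nat_lit 2443) (nat_lit 157) (.e (nat_lit 6806) (nat_lit 365) (.e (nat_lit 1209) (nat_lit 89) (.e (nat_lit 81664) (nat_lit 33) .nil))))))) (.g (nat_lit 6) .nil .nil))))))) (.nd (nat_lit 3) (.nd (nat_lit 4) (.nd (nat_lit 5) (.nd (nat_lit 6) 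
(.lf (nat_lit 130183) (.g (nat_lit 1934) (.e (nat_lit 8319) (nat_lit 64) (.e (nat_lit 516129) (nat_lit 3) (.e (nat_lit 221210) (nat_lit 22) (.e (nat_lit 196668) (nat_lit 14) (.e (nat_lit 81664) (nat_lit 5) .nil))))) .nil)) 
(.lf (nat_lit 130247) (.g (nat_lit 4022) (.e (nat_lit 8320) (nat_lit 64) (.e (nat_lit 516151) (nat_lit 9) (.e (nat_lit 426286) (nat_lit 10) (.e (nat_lit 434295) (nat_lit 49) .nil)))) .nil))) (.nd (nat_lit 6) 
(.lf (nat_lit 130215) (.g (nat_lit 2072) (.e (nat_lit 8320) (nat_lit 64) (.e (nat_lit 516131) (nat_lit 3) (.e (nat_lit 221212) (nat_lit 22) (.e (nat_lit 196668) (nat_lit 14) (.e (nat_lit 81664) (nat_lit 5) .nil))))) .nil)) 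
(.lf (nat_lit 130279) (.g (nat_lit 2945) (.e (nat_lit 8320) (nat_lit 64) (.e (nat_lit 516166) (nat_lit 12) (.e (nat_lit 450605) (nat_lit 27) (.e (nat_lit 745492) (nat_lit 5) .nil)))) .nil)))) (.nd (nat_lit 5) (.nd (nat_lit 6) 
(.lf (nat_lit 130199) (.g (nat_lit 3018) (.e (nat_lit 8319) (nat_lit 64) (.e (nat_lit 516151) (nat_lit 9) (.e (nat_lit 426285) (nat_lit 10) (.e (nat_lit 434295) (nat_lit 49) .nil)))) .nil)) 
(.lf (nat_lit 130263) (.g (nat_lit 4272) (.e (nat_lit 8320) (nat_lit 64) (.e (nat_lit 516166) (nat_lit 12) (.e (nat_lit 450563) (nat_lit 0) (.e (nat_lit 6736) (nat_lit 365) (.e (nat_lit 1212) (nat_lit 89) (.e (nat_lit 81664) (nat_lit 33) .nil)))))) (.g (nat_lit 4) .nil .nil)))) (.nd (nat_lit 6) 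
(.lf (nat_lit 130231) (.g (nat_lit 3624) (.e (nat_lit 8320) (nat_lit 64) (.e (nat_lit 516146) (nat_lit 9) (.e (nat_lit 426438) (nat_lit 18) (.e (nat_lit 98367) (nat_lit 27) (.e (nat_lit 434248) (nat_lit 28) (.e (nat_lit 573475) (nat_lit 12) (.e (nat_lit 65280) (nat_lit 202) .nil))))))) (.g (nat_lit 6) .nil .nil))) 
(.lf (nat_lit 130295) (.g (nat_lit 1078) (.e (nat_lit 8320) (nat_lit 64) (.e (nat_lit 516176) (nat_lit 14) (.e (nat_lit 474880) (nat_lit 19) (.e (nat_lit 401472) (nat_lit 28) (.e (nat_lit 352000) (nat_lit 1) .nil))))) (.g (nat_lit 4) .nil .nil)))))) (.nd (nat_lit 4) (.nd (nat_lit 5) (.nd (nat_lit 6) 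
(.lf (nat_lit 130191) (.g (nat_lit 3636) (.e (nat_lit 8319) (nat_lit 64) (.e (nat_lit 516146) (nat_lit 9) (.e (nat_lit 426428) (nat_lit 17) (.e (nat_lit 90174) (nat_lit 14) (.e (nat_lit 180250) (nat_lit 10) (.e (nat_lit 573473) (nat_lit 12) (.e (nat_lit 65280) (nat_lit 202) .nil))))))) (.g (nat_lit 6) .nil .nil))) 
(.lf (nat_lit 130255) (.g (nat_lit 4083) (.e (nat_lit 8320) (nat_lit 64) (.e (nat_lit 516166) (nat_lit 12) (.e (nat_lit 450562) (nat_lit 0) (.e (nat_lit 6743) (nat_lit 365) .nil)))) .nil))) (.nd (nat_lit 6) 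
(.lf (nat_lit 130223) (.g (nat_lit 3380) (.e (nat_lit 8320) (nat_lit 64) (.e (nat_lit 516146) (nat_lit 9) (.e (nat_lit 426428) (nat_lit 17) (.e (nat_lit 90174) (nat_lit 14) (.e (nat_lit 180250) (nat_lit 10) (.e (nat_lit 573475) (nat_lit 12) (.e (nat_lit 65280) (nat_lit 202) .nil))))))) (.g (nat_lit 5) .nil .nil))) 
(.lf (nat_lit 130287) (.g (nat_lit 673) (.e (nat_lit 8320) (nat_lit 64) (.e (nat_lit 516174) (nat_lit 14) (.e (nat_lit 474880) (nat_lit 17) .nil))) .nil)))) (.nd (nat_lit 5) (.nd (nat_lit 6) 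
(.lf (nat_lit 130207) (.g (nat_lit 786) (.e (nat_lit 8320) (nat_lit 64) (.e (nat_lit 516120) (nat_lit 1) (.e (nat_lit 164332) (nat_lit 230) .nil))) .nil)) 
(.lf (nat_lit 130271) (.g (nat_lit 4062) (.e (nat_lit 8320) (nat_lit 64) (.e (nat_lit 516166) (nat_lit 12) (.e (nat_lit 450563) (nat_lit 0) (.e (nat_lit 6745) (nat_lit 365) (.e (nat_lit 1208) (nat_lit 89) (.e (nat_lit 81664) (nat_lit 33) .nil)))))) (.g (nat_lit 5) .nil .nil)))) (.nd (nat_lit 6) 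
(.lf (nat_lit 130239) (.g (nat_lit 2198) (.e (nat_lit 8320) (nat_lit 64) (.e (nat_lit 516150) (nat_lit 9) (.e (nat_lit 426428) (nat_lit 17) (.e (nat_lit 90174) (nat_lit 14) (.e (nat_lit 180250) (nat_lit 10) (.e (nat_lit 573477) (nat_lit 12) (.e (nat_lit 65280) (nat_lit 202) .nil))))))) (.g (nat_lit 4) .nil .nil))) 
(.lf (nat_lit 130303) (.g (nat_lit 1925) (.e (nat_lit 8320) (nat_lit 64) (.e (nat_lit 516176) (nat_lit 14) (.e (nat_lit 466971) (nat_lit 21) (.e (nat_lit 164195) (nat_lit 158) (.e (nat_lit 1210) (nat_lit 89) (.e (nat_lit 81664) (nat_lit 33) .nil)))))) (.g (nat_lit 5) .nil .nil))))))))))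

noncomputable def tv1737 : DT := (.nd (nat_lit 0) (.nd (nat_lit 1) (.nd (nat_lit 2) (.nd (nat_lit 3) (.nd (nat_lit 4) (.nd (nat_lit 5) 
(.lf (nat_lit 130304) (.g (nat_lit 2995) (.e (nat_lit 8320) (nat_lit 64) (.e (nat_lit 516176) (nat_lit 14) (.e (nat_lit 466971) (nat_lit 21) (.e (nat_lit 164196) (nat_lit 158) (.e (nat_lit 1209) (nat_lit 89) (.e (nat_lit 81664) (nat_lit 33) .nil)))))) (.g (nat_lit 5) .nil .nil))) 
(.lf (nat_lit 130336) (.g (nat_lit 1902) (.e (nat_lit 8320) (nat_lit 64) (.e (nat_lit 516176) (nat_lit 14) (.e (nat_lit 466981) (nat_lit 23) (.e (nat_lit 204861) (nat_lit 26) (.e (nat_lit 335987) (nat_lit 1) .nil))))) .nil))) (.nd (nat_lit 5) 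
(.lf (nat_lit 130320) (.g (nat_lit 2014) (.e (nat_lit 8320) (nat_lit 64) (.e (nat_lit 516176) (nat_lit 14) (.e (nat_lit 466977) (nat_lit 22) (.e (nat_lit 196668) (nat_lit 14) (.e (nat_lit 73765) (nat_lit 19) (.e (nat_lit 647178) (nat_lit 1) .nil)))))) (.g (nat_lit 6) .nil .nil))) 
(.lf (nat_lit 130352) (.g (nat_lit 1655) (.e (nat_lit 8321) (nat_lit 65) (.e (nat_lit 524322) (nat_lit 12) (.e (nat_lit 450563) (nat_lit 0) (.e (nat_lit 6740) (nat_lit 365) (.e (nat_lit 1214) (nat_lit 89) (.e (nat_lit 81664) (nat_lit 33) .nil)))))) (.g (nat_lit 4) .nil .nil))))) (.nd (nat_lit 4) (.nd (nat_lit 5) 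
(.lf (nat_lit 130312) (.g (nat_lit 2143) (.e (nat_lit 8320) (nat_lit 64) (.e (nat_lit 516176) (nat_lit 14) (.e (nat_lit 466974) (nat_lit 22) (.e (nat_lit 196681) (nat_lit 17) (.e (nat_lit 131089) (nat_lit 1) .nil))))) .nil)) 
(.lf (nat_lit 130344) (.g (nat_lit 2270) (.e (nat_lit 8320) (nat_lit 64) (.e (nat_lit 516176) (nat_lit 14) (.e (nat_lit 466981) (nat_lit 23) (.e (nat_lit 204863) (nat_lit 27) (.e (nat_lit 344161) (nat_lit 37) .nil))))) .nil))) (.nd (nat_lit 5) 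
(.lf (nat_lit 130328) (.g (nat_lit 2139) (.e (nat_lit 8320) (nat_lit 64) (.e (nat_lit 516176) (nat_lit 14) (.e (nat_lit 466977) (nat_lit 22) (.e (nat_lit 196681) (nat_lit 17) (.e (nat_lit 131089) (nat_lit 1) (.e (nat_lit 57908) (nat_lit 278) (.e (nat_lit 2542) (nat_lit 158) .nil))))))) (.g (nat_lit 5) .nil .nil))) 
(.lf (nat_lit 130360) (.g (nat_lit 2656) (.e (nat_lit 8324) (nat_lit 69) (.e (nat_lit 557105) (nat_lit 14) (.e (nat_lit 180252) (nat_lit 10) (.e (nat_lit 573487) (nat_lit 14) .nil)))) .nil))))) (.nd (nat_lit 3) (.nd (nat_lit 4) (.nd (nat_lit 5) 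
(.lf (nat_lit 130308) (.g (nat_lit 2769) (.e (nat_lit 8320) (nat_lit 64) (.e (nat_lit 516176) (nat_lit 14) (.e (nat_lit 466972) (nat_lit 21) (.e (nat_lit 164195) (nat_lit 158) (.e (nat_lit 1209) (nat_lit 89) (.e (nat_lit 81664) (nat_lit 33) .nil)))))) (.g (nat_lit 5) .nil .nil))) 
(.lf (nat_lit 130340) (.g (nat_lit 3282) (.e (nat_lit 8320) (nat_lit 64) (.e (nat_lit 516176) (nat_lit 14) (.e (nat_lit 466981) (nat_lit 23) (.e (nat_lit 204861) (nat_lit 26) (.e (nat_lit 335988) (nat_lit 1) (.e (nat_lit 57906) (nat_lit 278) (.e (nat_lit 2547) (nat_lit 158) .nil))))))) (.g (nat_lit 6) .nil .nil)))) (.nd (nat_lit 5) 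
(.lf (nat_lit 130324) (.g (nat_lit 2099) (.e (nat_lit 8320) (nat_lit 64) (.e (nat_lit 516176) (nat_lit 14) (.e (nat_lit 466977) (nat_lit 22) (.e (nat_lit 196681) (nat_lit 17) (.e (nat_lit 131086) (nat_lit 1) .nil))))) .nil)) 
(.lf (nat_lit 130356) (.g (nat_lit 1864) (.e (nat_lit 8324) (nat_lit 69) (.e (nat_lit 557104) (nat_lit 14) (.e (nat_lit 180252) (nat_lit 10) (.e (nat_lit 573487) (nat_lit 14) .nil)))) .nil)))) (.nd (nat_lit 4) (.nd (nat_lit 5) 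
(.lf (nat_lit 130316) (.g (nat_lit 1820) (.e (nat_lit 8320) (nat_lit 64) (.e (nat_lit 516176) (nat_lit 14) (.e (nat_lit 466977) (nat_lit 22) (.e (nat_lit 196668) (nat_lit 14) (.e (nat_lit 73733) (nat_lit 0) (.e (nat_lit 5451) (nat_lit 306) (.e (nat_lit 2540) (nat_lit 158) .nil))))))) (.g (nat_lit 4) .nil .nil))) 
(.lf (nat_lit 130348) (.g (nat_lit 1777) (.e (nat_lit 8320) (nat_lit 64) (.e (nat_lit 516182) (nat_lit 15) (.e (nat_lit 475185) (nat_lit 29) (.e (nat_lit 557087) (nat_lit 11) .nil)))) .nil))) (.nd (nat_lit 5) 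
(.lf (nat_lit 130332) (.g (nat_lit 2163) (.e (nat_lit 8320) (nat_lit 64) (.e (nat_lit 516176) (nat_lit 14) (.e (nat_lit 466977) (nat_lit 22) (.e (nat_lit 196681) (nat_lit 17) (.e (nat_lit 131089) (nat_lit 1) (.e (nat_lit 57910) (nat_lit 278) (.e (nat_lit 2547) (nat_lit 158) .nil))))))) (.g (nat_lit 5) .nil .nil))) 
(.lf (nat_lit 130364) (.g (nat_lit 880) (.e (nat_lit 8324) (nat_lit 69) (.e (nat_lit 557109) (nat_lit 15) (.e (nat_lit 188449) (nat_lit 22) .nil))) .nil)))))) (.nd (nat_lit 2) (.nd (nat_lit 3) (.nd (nat_lit 4) (.nd (nat_lit 5) 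
(.lf (nat_lit 130306) (.g (nat_lit 2888) (.e (nat_lit 8320) (nat_lit 64) (.e (nat_lit 516176) (nat_lit 14) (.e (nat_lit 466971) (nat_lit 21) (.e (nat_lit 164196) (nat_lit 158) (.e (nat_lit 1211) (nat_lit 89) (.e (nat_lit 81664) (nat_lit 33) .nil)))))) (.g (nat_lit 5) .nil .nil))) 
(.lf (nat_lit 130338) (.g (nat_lit 3219) (.e (nat_lit 8320) (nat_lit 64) (.e (nat_lit 516176) (nat_lit 14) (.e (nat_lit 466981) (nat_lit 23) (.e (nat_lit 204861) (nat_lit 26) (.e (nat_lit 335988) (nat_lit 1) (.e (nat_lit 57905) (nat_lit 278) (.e (nat_lit 2540) (nat_lit 158) .nil))))))) (.g (nat_lit 5) .nil .nil)))) (.nd (nat_lit 5) 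
(.lf (nat_lit 130322) (.g (nat_lit 1233) (.e (nat_lit 8320) (nat_lit 64) (.e (nat_lit 516176) (nat_lit 14) (.e (nat_lit 466977) (nat_lit 22) (.e (nat_lit 196670) (nat_lit 14) .nil)))) .nil)) 
(.lf (nat_lit 130354) (.g (nat_lit 1779) (.e (nat_lit 8324) (nat_lit 69) (.e (nat_lit 557095) (nat_lit 13) (.e (nat_lit 172115) (nat_lit 10) (.e (nat_lit 434231) (nat_lit 23) (.e (nat_lit 532490) (nat_lit 0) (.e (nat_lit 6223) (nat_lit 334) (.e (nat_lit 123174) (nat_lit 257) .nil))))))) (.g (nat_lit 4) .nil .nil))))) (.nd (nat_lit 4) (.nd (nat_lit 5) 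
(.lf (nat_lit 130314) (.g (nat_lit 1821) (.e (nat_lit 8320) (nat_lit 64) (.e (nat_lit 516176) (nat_lit 14) (.e (nat_lit 466977) (nat_lit 22) (.e (nat_lit 196668) (nat_lit 14) (.e (nat_lit 73733) (nat_lit 0) (.e (nat_lit 5445) (nat_lit 306) (.e (nat_lit 2541) (nat_lit 158) .nil))))))) (.g (nat_lit 4) .nil .nil))) 
(.lf (nat_lit 130346) (.g (nat_lit 2376) (.e (nat_lit 8320) (nat_lit 64) (.e (nat_lit 516176) (nat_lit 14) (.e (nat_lit 466981) (nat_lit 23) (.e (nat_lit 204863) (nat_lit 27) (.e (nat_lit 344163) (nat_lit 37) (.e (nat_lit 647178) (nat_lit 1) .nil)))))) (.g (nat_lit 4) .nil .nil)))) (.nd (nat_lit 5) 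
(.lf (nat_lit 130330) (.g (nat_lit 1934) (.e (nat_lit 8320) (nat_lit 64) (.e (nat_lit 516176) (nat_lit 14) (.e (nat_lit 466977) (nat_lit 22) (.e (nat_lit 196681) (nat_lit 17) (.e (nat_lit 131089) (nat_lit 1) (.e (nat_lit 57909) (nat_lit 278) (.e (nat_lit 2547) (nat_lit 158) .nil))))))) (.g (nat_lit 4) .nil .nil))) 
(.lf (nat_lit 130362) (.g (nat_lit 3617) (.e (nat_lit 8324) (nat_lit 69) (.e (nat_lit 557105) (nat_lit 14) (.e (nat_lit 180252) (nat_lit 10) (.e (nat_lit 573488) (nat_lit 14) (.e (nat_lit 81664) (nat_lit 1) .nil))))) .nil))))) (.nd (nat_lit 3) (.nd (nat_lit 4) (.nd (nat_lit 5) 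
(.lf (nat_lit 130310) (.g (nat_lit 2467) (.e (nat_lit 8320) (nat_lit 64) (.e (nat_lit 516176) (nat_lit 14) (.e (nat_lit 466972) (nat_lit 21) (.e (nat_lit 164195) (nat_lit 158) (.e (nat_lit 1211) (nat_lit 89) (.e (nat_lit 81664) (nat_lit 33) .nil)))))) (.g (nat_lit 5) .nil .nil))) 
(.lf (nat_lit 130342) (.g (nat_lit 1854) (.e (nat_lit 8320) (nat_lit 64) (.e (nat_lit 516176) (nat_lit 14) (.e (nat_lit 466981) (nat_lit 23) (.e (nat_lit 204862) (nat_lit 27) (.e (nat_lit 344160) (nat_lit 37) (.e (nat_lit 655104) (nat_lit 1) .nil)))))) (.g (nat_lit 4) .nil .nil)))) (.nd (nat_lit 5) 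
(.lf (nat_lit 130326) (.g (nat_lit 2048) (.e (nat_lit 8320) (nat_lit 64) (.e (nat_lit 516176) (nat_lit 14) (.e (nat_lit 466977) (nat_lit 22) (.e (nat_lit 196681) (nat_lit 17) (.e (nat_lit 131088) (nat_lit 1) .nil))))) .nil)) 
(.lf (nat_lit 130358) (.g (nat_lit 1808) (.e (nat_lit 8324) (nat_lit 69) (.e (nat_lit 557104) (nat_lit 14) (.e (nat_lit 180252) (nat_lit 10) (.e (nat_lit 573489) (nat_lit 14) .nil)))) .nil)))) (.nd (nat_lit 4) (.nd (nat_lit 5) 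
(.lf (nat_lit 130318) (.g (nat_lit 2346) (.e (nat_lit 8320) (nat_lit 64) (.e (nat_lit 516176) (nat_lit 14) (.e (nat_lit 466977) (nat_lit 22) (.e (nat_lit 196668) (nat_lit 14) (.e (nat_lit 73733) (nat_lit 0) (.e (nat_lit 5451) (nat_lit 306) (.e (nat_lit 2547) (nat_lit 158) .nil))))))) (.g (nat_lit 5) .nil .nil))) 
(.lf (nat_lit 130350) (.g (nat_lit 3204) (.e (nat_lit 16128) (nat_lit 64) (.e (nat_lit 516151) (nat_lit 9) (.e (nat_lit 426211) (nat_lit 9) (.e (nat_lit 426125) (nat_lit 2) (.e (nat_lit 196669) (nat_lit 14) .nil))))) .nil))) (.nd (nat_lit 5) 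
(.lf (nat_lit 130334) (.g (nat_lit 406) (.e (nat_lit 8320) (nat_lit 64) (.e (nat_lit 516176) (nat_lit 14) (.e (nat_lit 466981) (nat_lit 23) .nil))) .nil)) 
(.lf (nat_lit 130366) (.g (nat_lit 2210) (.e (nat_lit 8325) (nat_lit 69) (.e (nat_lit 557100) (nat_lit 13) (.e (nat_lit 172106) (nat_lit 10) (.e (nat_lit 434231) (nat_lit 23) .nil)))) .nil))))))) (.nd (nat_lit 1) (.nd (nat_lit 2) (.nd (nat_lit 3) (.nd (nat_lit 4) (.nd (nat_lit 5) 
(.lf (nat_lit 130305) (.g (nat_lit 2204) (.e (nat_lit 8320) (nat_lit 64) (.e (nat_lit 516176) (nat_lit 14) (.e (nat_lit 466971) (nat_lit 21) (.e (nat_lit 164196) (nat_lit 158) (.e (nat_lit 1210) (nat_lit 89) .nil))))) .nil)) 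
(.lf (nat_lit 130337) (.g (nat_lit 1795) (.e (nat_lit 8320) (nat_lit 64) (.e (nat_lit 516176) (nat_lit 14) (.e (nat_lit 466981) (nat_lit 23) (.e (nat_lit 204861) (nat_lit 26) (.e (nat_lit 335988) (nat_lit 1) .nil))))) .nil))) (.nd (nat_lit 5) 
(.lf (nat_lit 130321) (.g (nat_lit 2148) (.e (nat_lit 8320) (nat_lit 64) (.e (nat_lit 516176) (nat_lit 14) (.e (nat_lit 466977) (nat_lit 22) (.e (nat_lit 196668) (nat_lit 14) (.e (nat_lit 73766) (nat_lit 19) (.e (nat_lit 647178) (nat_lit 1) .nil)))))) (.g (nat_lit 6) .nil .nil))) 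
(.lf (nat_lit 130353) (.g (nat_lit 959) (.e (nat_lit 8321) (nat_lit 65) (.e (nat_lit 524322) (nat_lit 12) (.e (nat_lit 450563) (nat_lit 0) (.e (nat_lit 6745) (nat_lit 365) .nil)))) .nil)))) (.nd (nat_lit 4) (.nd (nat_lit 5) 
(.lf (nat_lit 130313) (.g (nat_lit 1690) (.e (nat_lit 8320) (nat_lit 64) (.e (nat_lit 516176) (nat_lit 14) (.e (nat_lit 466977) (nat_lit 22) (.e (nat_lit 196668) (nat_lit 14) (.e (nat_lit 73733) (nat_lit 0) .nil))))) .nil)) 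
(.lf (nat_lit 130345) (.g (nat_lit 2251) (.e (nat_lit 8320) (nat_lit 64) (.e (nat_lit 516176) (nat_lit 14) (.e (nat_lit 466981) (nat_lit 23) (.e (nat_lit 204863) (nat_lit 27) (.e (nat_lit 344162) (nat_lit 37) .nil))))) .nil))) (.nd (nat_lit 5) 
(.lf (nat_lit 130329) (.g (nat_lit 1882) (.e (nat_lit 8320) (nat_lit 64) (.e (nat_lit 516176) (nat_lit 14) (.e (nat_lit 466977) (nat_lit 22) (.e (nat_lit 196681) (nat_lit 17) (.e (nat_lit 131089) (nat_lit 1) (.e (nat_lit 57908) (nat_lit 278) (.e (nat_lit 2548) (nat_lit 158) .nil))))))) (.g (nat_lit 4) .nil .nil))) 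
(.lf (nat_lit 130361) (.g (nat_lit 2673) (.e (nat_lit 8324) (nat_lit 69) (.e (nat_lit 557105) (nat_lit 14) (.e (nat_lit 180252) (nat_lit 10) (.e (nat_lit 573488) (nat_lit 14) .nil)))) .nil))))) (.nd (nat_lit 3) (.nd (nat_lit 4) (.nd (nat_lit 5) 
(.lf (nat_lit 130309) (.g (nat_lit 2378) (.e (nat_lit 8320) (nat_lit 64) (.e (nat_lit 516176) (nat_lit 14) (.e (nat_lit 466972) (nat_lit 21) (.e (nat_lit 164195) (nat_lit 158) (.e (nat_lit 1210) (nat_lit 89) (.e (nat_lit 81664) (nat_lit 33) .nil)))))) (.g (nat_lit 5) .nil .nil))) 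
(.lf (nat_lit 130341) (.g (nat_lit 1680) (.e (nat_lit 8320) (nat_lit 64) (.e (nat_lit 516176) (nat_lit 14) (.e (nat_lit 466981) (nat_lit 23) (.e (nat_lit 204862) (nat_lit 27) (.e (nat_lit 344159) (nat_lit 37) .nil))))) .nil))) (.nd (nat_lit 5) 
(.lf (nat_lit 130325) (.g (nat_lit 2230) (.e (nat_lit 8320) (nat_lit 64) (.e (nat_lit 516176) (nat_lit 14) (.e (nat_lit 466977) (nat_lit 22) (.e (nat_lit 196681) (nat_lit 17) (.e (nat_lit 131086) (nat_lit 1) (.e (nat_lit 57909) (nat_lit 278) (.e (nat_lit 2542) (nat_lit 158) .nil))))))) (.g (nat_lit 4) .nil .nil))) 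
(.lf (nat_lit 130357) (.g (nat_lit 2723) (.e (nat_lit 8324) (nat_lit 69) (.e (nat_lit 557104) (nat_lit 14) (.e (nat_lit 180252) (nat_lit 10) (.e (nat_lit 573488) (nat_lit 14) (.e (nat_lit 81664) (nat_lit 1) .nil))))) .nil)))) (.nd (nat_lit 4) (.nd (nat_lit 5) 
(.lf (nat_lit 130317) (.g (nat_lit 2563) (.e (nat_lit 8320) (nat_lit 64) (.e (nat_lit 516176) (nat_lit 14) (.e (nat_lit 466977) (nat_lit 22) (.e (nat_lit 196668) (nat_lit 14) (.e (nat_lit 73733) (nat_lit 0) (.e (nat_lit 5451) (nat_lit 306) (.e (nat_lit 2541) (nat_lit 158) .nil))))))) (.g (nat_lit 7) .nil .nil))) 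
(.lf (nat_lit 130349) (.g (nat_lit 4364) (.e (nat_lit 8320) (nat_lit 64) (.e (nat_lit 516182) (nat_lit 15) (.e (nat_lit 475185) (nat_lit 29) (.e (nat_lit 557087) (nat_lit 11) (.e (nat_lit 24603) (nat_lit 2) (.e (nat_lit 90155) (nat_lit 10) (.e (nat_lit 16128) (nat_lit 237) .nil))))))) (.g (nat_lit 5) .nil .nil)))) (.nd (nat_lit 5) 
(.lf (nat_lit 130333) (.g (nat_lit 2195) (.e (nat_lit 8320) (nat_lit 64) (.e (nat_lit 516176) (nat_lit 14) (.e (nat_lit 466977) (nat_lit 22) (.e (nat_lit 196681) (nat_lit 17) (.e (nat_lit 131089) (nat_lit 1) (.e (nat_lit 57910) (nat_lit 278) (.e (nat_lit 7936) (nat_lit 158) .nil))))))) (.g (nat_lit 5) .nil .nil))) 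
(.lf (nat_lit 130365) (.g (nat_lit 2679) (.e (nat_lit 8325) (nat_lit 69) (.e (nat_lit 557098) (nat_lit 13) (.e (nat_lit 172097) (nat_lit 9) (.e (nat_lit 426140) (nat_lit 3) (.e (nat_lit 204821) (nat_lit 17) .nil))))) .nil)))))) (.nd (nat_lit 2) (.nd (nat_lit 3) (.nd (nat_lit 4) (.nd (nat_lit 5) 
(.lf (nat_lit 130307) (.g (nat_lit 1586) (.e (nat_lit 8320) (nat_lit 64) (.e (nat_lit 516176) (nat_lit 14) (.e (nat_lit 466972) (nat_lit 21) (.e (nat_lit 164195) (nat_lit 158) .nil)))) .nil)) 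
(.lf (nat_lit 130339) (.g (nat_lit 2766) (.e (nat_lit 8320) (nat_lit 64) (.e (nat_lit 516176) (nat_lit 14) (.e (nat_lit 466981) (nat_lit 23) (.e (nat_lit 204861) (nat_lit 26) (.e (nat_lit 335988) (nat_lit 1) (.e (nat_lit 57906) (nat_lit 278) (.e (nat_lit 2540) (nat_lit 158) .nil))))))) (.g (nat_lit 5) .nil .nil)))) (.nd (nat_lit 5) 
(.lf (nat_lit 130323) (.g (nat_lit 2556) (.e (nat_lit 8320) (nat_lit 64) (.e (nat_lit 516176) (nat_lit 14) (.e (nat_lit 466977) (nat_lit 22) (.e (nat_lit 196670) (nat_lit 14) (.e (nat_lit 73766) (nat_lit 19) (.e (nat_lit 647178) (nat_lit 1) .nil)))))) (.g (nat_lit 5) .nil .nil))) 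
(.lf (nat_lit 130355) (.g (nat_lit 2408) (.e (nat_lit 8324) (nat_lit 69) (.e (nat_lit 557103) (nat_lit 14) (.e (nat_lit 180250) (nat_lit 10) (.e (nat_lit 573487) (nat_lit 14) (.e (nat_lit 81664) (nat_lit 1) .nil))))) .nil)))) (.nd (nat_lit 4) (.nd (nat_lit 5) 
(.lf (nat_lit 130315) (.g (nat_lit 1806) (.e (nat_lit 8320) (nat_lit 64) (.e (nat_lit 516176) (nat_lit 14) (.e (nat_lit 466977) (nat_lit 22) (.e (nat_lit 196668) (nat_lit 14) (.e (nat_lit 73733) (nat_lit 0) (.e (nat_lit 5449) (nat_lit 306) (.e (nat_lit 2541) (nat_lit 158) .nil))))))) (.g (nat_lit 4) .nil .nil))) 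
(.lf (nat_lit 130347) (.g (nat_lit 1022) (.e (nat_lit 8320) (nat_lit 64) (.e (nat_lit 516179) (nat_lit 15) (.e (nat_lit 475177) (nat_lit 24) .nil))) .nil))) (.nd (nat_lit 5) 
(.lf (nat_lit 130331) (.g (nat_lit 1944) (.e (nat_lit 8320) (nat_lit 64) (.e (nat_lit 516176) (nat_lit 14) (.e (nat_lit 466977) (nat_lit 22) (.e (nat_lit 196681) (nat_lit 17) (.e (nat_lit 131089) (nat_lit 1) (.e (nat_lit 57910) (nat_lit 278) (.e (nat_lit 2540) (nat_lit 158) .nil))))))) (.g (nat_lit 4) .nil .nil))) 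
(.lf (nat_lit 130363) (.g (nat_lit 2187) (.e (nat_lit 8324) (nat_lit 69) (.e (nat_lit 557105) (nat_lit 14) (.e (nat_lit 180252) (nat_lit 10) (.e (nat_lit 573489) (nat_lit 14) .nil)))) .nil))))) (.nd (nat_lit 3) (.nd (nat_lit 4) (.nd (nat_lit 5) 
(.lf (nat_lit 130311) (.g (nat_lit 836) (.e (nat_lit 8320) (nat_lit 64) (.e (nat_lit 516176) (nat_lit 14) (.e (nat_lit 466974) (nat_lit 22) .nil))) .nil)) 
(.lf (nat_lit 130343) (.g (nat_lit 2573) (.e (nat_lit 8320) (nat_lit 64) (.e (nat_lit 516176) (nat_lit 14) (.e (nat_lit 466981) (nat_lit 23) (.e (nat_lit 204862) (nat_lit 27) (.e (nat_lit 344161) (nat_lit 37) (.e (nat_lit 647178) (nat_lit 1) .nil)))))) (.g (nat_lit 6) .nil .nil)))) (.nd (nat_lit 5) 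
(.lf (nat_lit 130327) (.g (nat_lit 1861) (.e (nat_lit 8320) (nat_lit 64) (.e (nat_lit 516176) (nat_lit 14) (.e (nat_lit 466977) (nat_lit 22) (.e (nat_lit 196681) (nat_lit 17) (.e (nat_lit 131089) (nat_lit 1) .nil))))) .nil)) 
(.lf (nat_lit 130359) (.g (nat_lit 2674) (.e (nat_lit 8324) (nat_lit 69) (.e (nat_lit 557105) (nat_lit 14) (.e (nat_lit 180252) (nat_lit 10) (.e (nat_lit 573482) (nat_lit 13) .nil)))) .nil)))) (.nd (nat_lit 4) (.nd (nat_lit 5) 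
(.lf (nat_lit 130319) (.g (nat_lit 1423) (.e (nat_lit 8320) (nat_lit 64) (.e (nat_lit 516176) (nat_lit 14) (.e (nat_lit 466977) (nat_lit 22) (.e (nat_lit 196668) (nat_lit 14) (.e (nat_lit 81664) (nat_lit 0) .nil))))) .nil)) 
(.lf (nat_lit 130351) (.g (nat_lit 1593) (.e (nat_lit 8321) (nat_lit 65) (.e (nat_lit 524322) (nat_lit 12) (.e (nat_lit 450563) (nat_lit 0) (.e (nat_lit 6740) (nat_lit 365) (.e (nat_lit 1212) (nat_lit 89) (.e (nat_lit 81664) (nat_lit 33) .nil)))))) (.g (nat_lit 4) .nil .nil)))) (.nd (nat_lit 5) 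
(.lf (nat_lit 130335) (.g (nat_lit 1218) (.e (nat_lit 8320) (nat_lit 64) (.e (nat_lit 516176) (nat_lit 14) (.e (nat_lit 466981) (nat_lit 23) (.e (nat_lit 204861) (nat_lit 26) .nil)))) .nil)) 
(.lf (nat_lit 130367) (.g (nat_lit 2607) (.e (nat_lit 8325) (nat_lit 69) (.e (nat_lit 557100) (nat_lit 13) (.e (nat_lit 172106) (nat_lit 10) (.e (nat_lit 434231) (nat_lit 23) (.e (nat_lit 532544) (nat_lit 10) .nil))))) .nil))))))))

noncomputable def tv1738 : DT := (.nd (nat_lit 0) (.nd (nat_lit 1) (.nd (nat_lit 2) (.nd (nat_lit 3) (.nd (nat_lit 4) (.nd (nat_lit 5) 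
(.lf (nat_lit 130368) (.g (nat_lit 1892) (.e (nat_lit 8325) (nat_lit 69) (.e (nat_lit 557101) (nat_lit 13) (.e (nat_lit 172097) (nat_lit 9) (.e (nat_lit 426140) (nat_lit 3) (.e (nat_lit 204821) (nat_lit 17) .nil))))) .nil)) 
(.lf (nat_lit 130400) (.g (nat_lit 3246) (.e (nat_lit 8325) (nat_lit 69) (.e (nat_lit 557105) (nat_lit 14) (.e (nat_lit 180252) (nat_lit 10) (.e (nat_lit 573487) (nat_lit 14) (.e (nat_lit 81664) (nat_lit 5) (.e (nat_lit 532519) (nat_lit 5) (.e (nat_lit 147491) (nat_lit 10) .nil))))))) (.g (nat_lit 4) .nil .nil)))) (.nd (nat_lit 5) 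
(.lf (nat_lit 130384) (.g (nat_lit 2467) (.e (nat_lit 8325) (nat_lit 69) (.e (nat_lit 557103) (nat_lit 14) (.e (nat_lit 180250) (nat_lit 10) (.e (nat_lit 573489) (nat_lit 14) (.e (nat_lit 81664) (nat_lit 1) .nil))))) .nil)) 
(.lf (nat_lit 130416) (.g (nat_lit 3218) (.e (nat_lit 8325) (nat_lit 69) (.e (nat_lit 557105) (nat_lit 14) (.e (nat_lit 180252) (nat_lit 10) (.e (nat_lit 573489) (nat_lit 14) (.e (nat_lit 73755) (nat_lit 8) (.e (nat_lit 557090) (nat_lit 12) (.e (nat_lit 163843) (nat_lit 0) (.e (nat_lit 5798) (nat_lit 320) (.e (nat_lit 2547) (nat_lit 158) .nil))))))))) (.g (nat_lit 6) .nil .nil))))) 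
(.nd (nat_lit 4) (.nd (nat_lit 5) 
(.lf (nat_lit 130376) (.g (nat_lit 4070) (.e (nat_lit 8325) (nat_lit 69) (.e (nat_lit 557103) (nat_lit 14) (.e (nat_lit 180250) (nat_lit 10) (.e (nat_lit 573487) (nat_lit 14) (.e (nat_lit 81664) (nat_lit 1) (.e (nat_lit 500056) (nat_lit 17) (.e (nat_lit 57575) (nat_lit 55) (.e (nat_lit 778455) (nat_lit 10) .nil)))))))) (.g (nat_lit 7) .nil .nil))) 
(.lf (nat_lit 130408) (.g (nat_lit 1477) (.e (nat_lit 8325) (nat_lit 69) (.e (nat_lit 557105) (nat_lit 14) (.e (nat_lit 180252) (nat_lit 10) (.e (nat_lit 573489) (nat_lit 14) .nil)))) .nil))) (.nd (nat_lit 5) 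
(.lf (nat_lit 130392) (.g (nat_lit 2201) (.e (nat_lit 8325) (nat_lit 69) (.e (nat_lit 557105) (nat_lit 14) (.e (nat_lit 180252) (nat_lit 10) (.e (nat_lit 573481) (nat_lit 13) .nil)))) .nil)) 
(.lf (nat_lit 130424) (.g (nat_lit 3002) (.e (nat_lit 8325) (nat_lit 69) (.e (nat_lit 557105) (nat_lit 14) (.e (nat_lit 180252) (nat_lit 10) (.e (nat_lit 573489) (nat_lit 14) (.e (nat_lit 73755) (nat_lit 8) (.e (nat_lit 557090) (nat_lit 12) (.e (nat_lit 163843) (nat_lit 0) (.e (nat_lit 5811) (nat_lit 320) (.e (nat_lit 2547) (nat_lit 158) .nil))))))))) (.g (nat_lit 6) .nil .nil)))))) 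
(.nd (nat_lit 3) (.nd (nat_lit 4) (.nd (nat_lit 5) 
(.lf (nat_lit 130372) (.g (nat_lit 1803) (.e (nat_lit 8325) (nat_lit 69) (.e (nat_lit 557103) (nat_lit 14) (.e (nat_lit 180244) (nat_lit 5) (.e (nat_lit 532513) (nat_lit 3) .nil)))) .nil)) 
(.lf (nat_lit 130404) (.g (nat_lit 3258) (.e (nat_lit 8325) (nat_lit 69) (.e (nat_lit 557105) (nat_lit 14) (.e (nat_lit 180252) (nat_lit 10) (.e (nat_lit 573488) (nat_lit 14) (.e (nat_lit 81664) (nat_lit 5) (.e (nat_lit 532482) (nat_lit 0) (.e (nat_lit 2308) (nat_lit 151) (.e (nat_lit 778453) (nat_lit 10) .nil)))))))) (.g (nat_lit 4) .nil .nil)))) (.nd (nat_lit 5) 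
(.lf (nat_lit 130388) (.g (nat_lit 1839) (.e (nat_lit 8325) (nat_lit 69) (.e (nat_lit 557105) (nat_lit 14) (.e (nat_lit 180251) (nat_lit 10) (.e (nat_lit 573489) (nat_lit 14) .nil)))) .nil)) 
(.lf (nat_lit 130420) (.g (nat_lit 3204) (.e (nat_lit 8325) (nat_lit 69) (.e (nat_lit 557105) (nat_lit 14) (.e (nat_lit 180252) (nat_lit 10) (.e (nat_lit 573489) (nat_lit 14) (.e (nat_lit 73755) (nat_lit 8) (.e (nat_lit 557090) (nat_lit 12) (.e (nat_lit 163843) (nat_lit 0) (.e (nat_lit 5800) (nat_lit 320) (.e (nat_lit 2541) (nat_lit 158) .nil))))))))) (.g (nat_lit 6) .nil .nil))))) 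
(.nd (nat_lit 4) (.nd (nat_lit 5) 
(.lf (nat_lit 130380) (.g (nat_lit 2452) (.e (nat_lit 8325) (nat_lit 69) (.e (nat_lit 557103) (nat_lit 14) (.e (nat_lit 180250) (nat_lit 10) (.e (nat_lit 573487) (nat_lit 14) (.e (nat_lit 81664) (nat_lit 5) (.e (nat_lit 532519) (nat_lit 5) (.e (nat_lit 147491) (nat_lit 10) .nil))))))) (.g (nat_lit 4) .nil .nil))) 
(.lf (nat_lit 130412) (.g (nat_lit 2996) (.e (nat_lit 8325) (nat_lit 69) (.e (nat_lit 557105) (nat_lit 14) (.e (nat_lit 180252) (nat_lit 10) (.e (nat_lit 573489) (nat_lit 14) (.e (nat_lit 81664) (nat_lit 5) (.e (nat_lit 532519) (nat_lit 5) (.e (nat_lit 147491) (nat_lit 10) .nil))))))) (.g (nat_lit 4) .nil .nil)))) (.nd (nat_lit 5) 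
(.lf (nat_lit 130396) (.g (nat_lit 2193) (.e (nat_lit 8325) (nat_lit 69) (.e (nat_lit 557105) (nat_lit 14) (.e (nat_lit 180252) (nat_lit 10) (.e (nat_lit 573487) (nat_lit 14) .nil)))) .nil)) 
(.lf (nat_lit 130428) (.g (nat_lit 3093) (.e (nat_lit 8325) (nat_lit 69) (.e (nat_lit 557105) (nat_lit 14) (.e (nat_lit 180252) (nat_lit 10) (.e (nat_lit 573489) (nat_lit 14) (.e (nat_lit 73755) (nat_lit 8) (.e (nat_lit 557090) (nat_lit 12) (.e (nat_lit 163844) (nat_lit 0) (.e (nat_lit 5798) (nat_lit 320) (.e (nat_lit 2547) (nat_lit 158) .nil))))))))) (.g (nat_lit 6) .nil .nil))))))) 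
(.nd (nat_lit 2) (.nd (nat_lit 3) (.nd (nat_lit 4) (.nd (nat_lit 5) 
(.lf (nat_lit 130370) (.g (nat_lit 1679) (.e (nat_lit 8325) (nat_lit 69) (.e (nat_lit 557103) (nat_lit 14) (.e (nat_lit 180243) (nat_lit 5) (.e (nat_lit 532513) (nat_lit 3) .nil)))) .nil)) 
(.lf (nat_lit 130402) (.g (nat_lit 4815) (.e (nat_lit 8325) (nat_lit 69) (.e (nat_lit 557105) (nat_lit 14) (.e (nat_lit 180252) (nat_lit 10) (.e (nat_lit 573488) (nat_lit 14) (.e (nat_lit 81664) (nat_lit 1) (.e (nat_lit 500056) (nat_lit 17) (.e (nat_lit 57575) (nat_lit 55) (.e (nat_lit 778453) (nat_lit 10) .nil)))))))) (.g (nat_lit 7) .nil .nil)))) (.nd (nat_lit 5) 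
(.lf (nat_lit 130386) (.g (nat_lit 1631) (.e (nat_lit 8325) (nat_lit 69) (.e (nat_lit 557105) (nat_lit 14) (.e (nat_lit 180245) (nat_lit 5) (.e (nat_lit 532513) (nat_lit 3) .nil)))) .nil)) 
(.lf (nat_lit 130418) (.g (nat_lit 3392) (.e (nat_lit 8325) (nat_lit 69) (.e (nat_lit 557105) (nat_lit 14) (.e (nat_lit 180252) (nat_lit 10) (.e (nat_lit 573489) (nat_lit 14) (.e (nat_lit 73755) (nat_lit 8) (.e (nat_lit 557090) (nat_lit 12) (.e (nat_lit 163843) (nat_lit 0) (.e (nat_lit 5799) (nat_lit 320) (.e (nat_lit 2540) (nat_lit 158) .nil))))))))) (.g (nat_lit 6) .nil .nil))))) 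
(.nd (nat_lit 4) (.nd (nat_lit 5) 
(.lf (nat_lit 130378) (.g (nat_lit 2499) (.e (nat_lit 8325) (nat_lit 69) (.e (nat_lit 557103) (nat_lit 14) (.e (nat_lit 180250) (nat_lit 10) (.e (nat_lit 573487) (nat_lit 14) (.e (nat_lit 81664) (nat_lit 5) (.e (nat_lit 532490) (nat_lit 0) (.e (nat_lit 2346) (nat_lit 151) (.e (nat_lit 778453) (nat_lit 10) .nil)))))))) (.g (nat_lit 4) .nil .nil))) 
(.lf (nat_lit 130410) (.g (nat_lit 3052) (.e (nat_lit 8325) (nat_lit 69) (.e (nat_lit 557105) (nat_lit 14) (.e (nat_lit 180252) (nat_lit 10) (.e (nat_lit 573489) (nat_lit 14) (.e (nat_lit 81664) (nat_lit 1) (.e (nat_lit 500056) (nat_lit 17) (.e (nat_lit 57575) (nat_lit 55) (.e (nat_lit 778453) (nat_lit 10) .nil)))))))) (.g (nat_lit 4) .nil .nil)))) (.nd (nat_lit 5) 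
(.lf (nat_lit 130394) (.g (nat_lit 2293) (.e (nat_lit 8325) (nat_lit 69) (.e (nat_lit 557105) (nat_lit 14) (.e (nat_lit 180252) (nat_lit 10) (.e (nat_lit 573482) (nat_lit 13) .nil)))) .nil)) 
(.lf (nat_lit 130426) (.g (nat_lit 3603) (.e (nat_lit 8325) (nat_lit 69) (.e (nat_lit 557105) (nat_lit 14) (.e (nat_lit 180252) (nat_lit 10) (.e (nat_lit 573489) (nat_lit 14) (.e (nat_lit 73755) (nat_lit 8) (.e (nat_lit 557090) (nat_lit 12) (.e (nat_lit 163844) (nat_lit 0) (.e (nat_lit 5796) (nat_lit 320) (.e (nat_lit 2548) (nat_lit 158) .nil))))))))) (.g (nat_lit 7) .nil .nil)))))) 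
(.nd (nat_lit 3) (.nd (nat_lit 4) (.nd (nat_lit 5) 
(.lf (nat_lit 130374) (.g (nat_lit 1564) (.e (nat_lit 8325) (nat_lit 69) (.e (nat_lit 557103) (nat_lit 14) (.e (nat_lit 180250) (nat_lit 10) (.e (nat_lit 573480) (nat_lit 13) .nil)))) .nil)) 
(.lf (nat_lit 130406) (.g (nat_lit 3601) (.e (nat_lit 8325) (nat_lit 69) (.e (nat_lit 557105) (nat_lit 14) (.e (nat_lit 180252) (nat_lit 10) (.e (nat_lit 573488) (nat_lit 14) (.e (nat_lit 81664) (nat_lit 5) (.e (nat_lit 532490) (nat_lit 0) (.e (nat_lit 2346) (nat_lit 151) (.e (nat_lit 778454) (nat_lit 10) .nil)))))))) (.g (nat_lit 4) .nil .nil)))) (.nd (nat_lit 5) 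
(.lf (nat_lit 130390) (.g (nat_lit 3252) (.e (nat_lit 8325) (nat_lit 69) (.e (nat_lit 557105) (nat_lit 14) (.e (nat_lit 180252) (nat_lit 10) (.e (nat_lit 573451) (nat_lit 9) (.e (nat_lit 1449) (nat_lit 108) (.e (nat_lit 336013) (nat_lit 2) (.e (nat_lit 90189) (nat_lit 18) (.e (nat_lit 2574) (nat_lit 161) (.e (nat_lit 40992) (nat_lit 10) .nil))))))))) (.g (nat_lit 4) .nil .nil))) 
(.lf (nat_lit 130422) (.g (nat_lit 3144) (.e (nat_lit 8325) (nat_lit 69) (.e (nat_lit 557105) (nat_lit 14) (.e (nat_lit 180252) (nat_lit 10) (.e (nat_lit 573489) (nat_lit 14) (.e (nat_lit 73755) (nat_lit 8) (.e (nat_lit 557090) (nat_lit 12) (.e (nat_lit 163843) (nat_lit 0) (.e (nat_lit 5800) (nat_lit 320) (.e (nat_lit 2547) (nat_lit 158) .nil))))))))) (.g (nat_lit 6) .nil .nil))))) 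
(.nd (nat_lit 4) (.nd (nat_lit 5) 
(.lf (nat_lit 130382) (.g (nat_lit 2085) (.e (nat_lit 8325) (nat_lit 69) (.e (nat_lit 557103) (nat_lit 14) (.e (nat_lit 180250) (nat_lit 10) (.e (nat_lit 573488) (nat_lit 14) (.e (nat_lit 81664) (nat_lit 1) (.e (nat_lit 500056) (nat_lit 17) (.e (nat_lit 57575) (nat_lit 55) (.e (nat_lit 778454) (nat_lit 10) .nil)))))))) (.g (nat_lit 4) .nil .nil))) 
(.lf (nat_lit 130414) (.g (nat_lit 3136) (.e (nat_lit 8325) (nat_lit 69) (.e (nat_lit 557105) (nat_lit 14) (.e (nat_lit 180252) (nat_lit 10) (.e (nat_lit 573489) (nat_lit 14) (.e (nat_lit 73755) (nat_lit 8) (.e (nat_lit 557090) (nat_lit 12) (.e (nat_lit 163843) (nat_lit 0) (.e (nat_lit 5796) (nat_lit 320) (.e (nat_lit 2548) (nat_lit 158) .nil))))))))) (.g (nat_lit 6) .nil .nil)))) 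
(.nd (nat_lit 5) 
(.lf (nat_lit 130398) (.g (nat_lit 2865) (.e (nat_lit 8325) (nat_lit 69) (.e (nat_lit 557105) (nat_lit 14) (.e (nat_lit 180252) (nat_lit 10) (.e (nat_lit 573487) (nat_lit 14) (.e (nat_lit 81664) (nat_lit 5) .nil))))) .nil)) 
(.lf (nat_lit 130430) (.g (nat_lit 3479) (.e (nat_lit 8325) (nat_lit 69) (.e (nat_lit 557105) (nat_lit 14) (.e (nat_lit 180252) (nat_lit 10) (.e (nat_lit 573489) (nat_lit 14) (.e (nat_lit 73755) (nat_lit 8) (.e (nat_lit 557090) (nat_lit 12) (.e (nat_lit 163844) (nat_lit 0) (.e (nat_lit 5799) (nat_lit 320) (.e (nat_lit 2542) (nat_lit 158) .nil))))))))) (.g (nat_lit 7) .nil .nil)))))))) 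
(.nd (nat_lit 1) (.nd (nat_lit 2) (.nd (nat_lit 3) (.nd (nat_lit 4) (.nd (nat_lit 5) 
(.lf (nat_lit 130369) (.g (nat_lit 1926) (.e (nat_lit 8325) (nat_lit 69) (.e (nat_lit 557101) (nat_lit 13) (.e (nat_lit 172115) (nat_lit 10) (.e (nat_lit 434231) (nat_lit 23) (.e (nat_lit 532490) (nat_lit 0) .nil))))) .nil)) 
(.lf (nat_lit 130401) (.g (nat_lit 2225) (.e (nat_lit 8325) (nat_lit 69) (.e (nat_lit 557105) (nat_lit 14) (.e (nat_lit 180252) (nat_lit 10) (.e (nat_lit 573488) (nat_lit 14) .nil)))) .nil))) (.nd (nat_lit 5) 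
(.lf (nat_lit 130385) (.g (nat_lit 2723) (.e (nat_lit 8325) (nat_lit 69) (.e (nat_lit 557104) (nat_lit 14) (.e (nat_lit 180252) (nat_lit 10) (.e (nat_lit 573488) (nat_lit 14) (.e (nat_lit 81664) (nat_lit 1) .nil))))) .nil)) 
(.lf (nat_lit 130417) (.g (nat_lit 4051) (.e (nat_lit 8325) (nat_lit 69) (.e (nat_lit 557105) (nat_lit 14) (.e (nat_lit 180252) (nat_lit 10) (.e (nat_lit 573489) (nat_lit 14) (.e (nat_lit 73755) (nat_lit 8) (.e (nat_lit 557090) (nat_lit 12) (.e (nat_lit 163843) (nat_lit 0) (.e (nat_lit 5798) (nat_lit 320) (.e (nat_lit 2548) (nat_lit 158) .nil))))))))) (.g (nat_lit 7) .nil .nil))))) 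
(.nd (nat_lit 4) (.nd (nat_lit 5) 
(.lf (nat_lit 130377) (.g (nat_lit 2408) (.e (nat_lit 8325) (nat_lit 69) (.e (nat_lit 557103) (nat_lit 14) (.e (nat_lit 180250) (nat_lit 10) (.e (nat_lit 573487) (nat_lit 14) (.e (nat_lit 81664) (nat_lit 5) .nil))))) .nil)) 
(.lf (nat_lit 130409) (.g (nat_lit 2763) (.e (nat_lit 8325) (nat_lit 69) (.e (nat_lit 557105) (nat_lit 14) (.e (nat_lit 180252) (nat_lit 10) (.e (nat_lit 573489) (nat_lit 14) (.e (nat_lit 81664) (nat_lit 1) .nil))))) .nil))) (.nd (nat_lit 5) 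
(.lf (nat_lit 130393) (.g (nat_lit 3036) (.e (nat_lit 8325) (nat_lit 69) (.e (nat_lit 557105) (nat_lit 14) (.e (nat_lit 180252) (nat_lit 10) (.e (nat_lit 573481) (nat_lit 13) (.e (nat_lit 65568) (nat_lit 2) (.e (nat_lit 90187) (nat_lit 18) (.e (nat_lit 2584) (nat_lit 161) (.e (nat_lit 40992) (nat_lit 10) .nil)))))))) (.g (nat_lit 4) .nil .nil))) 
(.lf (nat_lit 130425) (.g (nat_lit 3011) (.e (nat_lit 8325) (nat_lit 69) (.e (nat_lit 557105) (nat_lit 14) (.e (nat_lit 180252) (nat_lit 10) (.e (nat_lit 573489) (nat_lit 14) (.e (nat_lit 73755) (nat_lit 8) (.e (nat_lit 557090) (nat_lit 12) (.e (nat_lit 163844) (nat_lit 0) (.e (nat_lit 5796) (nat_lit 320) (.e (nat_lit 2547) (nat_lit 158) .nil))))))))) (.g (nat_lit 6) .nil .nil)))))) 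
(.nd (nat_lit 3) (.nd (nat_lit 4) (.nd (nat_lit 5) 
(.lf (nat_lit 130373) (.g (nat_lit 675) (.e (nat_lit 8325) (nat_lit 69) (.e (nat_lit 557103) (nat_lit 14) (.e (nat_lit 180250) (nat_lit 10) .nil))) .nil)) 
(.lf (nat_lit 130405) (.g (nat_lit 3325) (.e (nat_lit 8325) (nat_lit 69) (.e (nat_lit 557105) (nat_lit 14) (.e (nat_lit 180252) (nat_lit 10) (.e (nat_lit 573488) (nat_lit 14) (.e (nat_lit 81664) (nat_lit 5) (.e (nat_lit 532482) (nat_lit 0) (.e (nat_lit 2310) (nat_lit 151) (.e (nat_lit 778453) (nat_lit 10) .nil)))))))) (.g (nat_lit 4) .nil .nil)))) (.nd (nat_lit 5) 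
(.lf (nat_lit 130389) (.g (nat_lit 2307) (.e (nat_lit 8325) (nat_lit 69) (.e (nat_lit 557105) (nat_lit 14) (.e (nat_lit 180252) (nat_lit 10) (.e (nat_lit 573451) (nat_lit 9) .nil)))) .nil)) 
(.lf (nat_lit 130421) (.g (nat_lit 3281) (.e (nat_lit 8325) (nat_lit 69) (.e (nat_lit 557105) (nat_lit 14) (.e (nat_lit 180252) (nat_lit 10) (.e (nat_lit 573489) (nat_lit 14) (.e (nat_lit 73755) (nat_lit 8) (.e (nat_lit 557090) (nat_lit 12) (.e (nat_lit 163843) (nat_lit 0) (.e (nat_lit 5800) (nat_lit 320) (.e (nat_lit 2542) (nat_lit 158) .nil))))))))) (.g (nat_lit 6) .nil .nil))))) 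
(.nd (nat_lit 4) (.nd (nat_lit 5) 
(.lf (nat_lit 130381) (.g (nat_lit 1811) (.e (nat_lit 8325) (nat_lit 69) (.e (nat_lit 557103) (nat_lit 14) (.e (nat_lit 180250) (nat_lit 10) (.e (nat_lit 573488) (nat_lit 14) (.e (nat_lit 81664) (nat_lit 1) .nil))))) .nil)) 
(.lf (nat_lit 130413) (.g (nat_lit 2267) (.e (nat_lit 8325) (nat_lit 69) (.e (nat_lit 557105) (nat_lit 14) (.e (nat_lit 180252) (nat_lit 10) (.e (nat_lit 573489) (nat_lit 14) (.e (nat_lit 73755) (nat_lit 8) (.e (nat_lit 557089) (nat_lit 12) (.e (nat_lit 164010) (nat_lit 41) (.e (nat_lit 663582) (nat_lit 10) .nil)))))))) (.g (nat_lit 4) .nil .nil)))) (.nd (nat_lit 5) 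
(.lf (nat_lit 130397) (.g (nat_lit 3132) (.e (nat_lit 8325) (nat_lit 69) (.e (nat_lit 557105) (nat_lit 14) (.e (nat_lit 180252) (nat_lit 10) (.e (nat_lit 573487) (nat_lit 14) (.e (nat_lit 81664) (nat_lit 1) (.e (nat_lit 500056) (nat_lit 17) (.e (nat_lit 57575) (nat_lit 55) (.e (nat_lit 778452) (nat_lit 10) .nil)))))))) (.g (nat_lit 4) .nil .nil))) 
(.lf (nat_lit 130429) (.g (nat_lit 3408) (.e (nat_lit 8325) (nat_lit 69) (.e (nat_lit 557105) (nat_lit 14) (.e (nat_lit 180252) (nat_lit 10) (.e (nat_lit 573489) (nat_lit 14) (.e (nat_lit 73755) (nat_lit 8) (.e (nat_lit 557090) (nat_lit 12) (.e (nat_lit 163844) (nat_lit 0) (.e (nat_lit 5799) (nat_lit 320) (.e (nat_lit 2541) (nat_lit 158) .nil))))))))) (.g (nat_lit 7) .nil .nil))))))) 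
(.nd (nat_lit 2) (.nd (nat_lit 3) (.nd (nat_lit 4) (.nd (nat_lit 5) 
(.lf (nat_lit 130371) (.g (nat_lit 2797) (.e (nat_lit 8325) (nat_lit 69) (.e (nat_lit 557103) (nat_lit 14) (.e (nat_lit 180243) (nat_lit 5) (.e (nat_lit 532513) (nat_lit 3) (.e (nat_lit 122624) (nat_lit 3) (.e (nat_lit 204842) (nat_lit 22) (.e (nat_lit 147491) (nat_lit 10) .nil))))))) (.g (nat_lit 4) .nil .nil))) 
(.lf (nat_lit 130403) (.g (nat_lit 3169) (.e (nat_lit 8325) (nat_lit 69) (.e (nat_lit 557105) (nat_lit 14) (.e (nat_lit 180252) (nat_lit 10) (.e (nat_lit 573488) (nat_lit 14) (.e (nat_lit 81664) (nat_lit 5) .nil))))) .nil))) (.nd (nat_lit 5) 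
(.lf (nat_lit 130387) (.g (nat_lit 2264) (.e (nat_lit 8325) (nat_lit 69) (.e (nat_lit 557105) (nat_lit 14) (.e (nat_lit 180251) (nat_lit 10) (.e (nat_lit 573487) (nat_lit 14) .nil)))) .nil)) 
(.lf (nat_lit 130419) (.g (nat_lit 3119) (.e (nat_lit 8325) (nat_lit 69) (.e (nat_lit 557105) (nat_lit 14) (.e (nat_lit 180252) (nat_lit 10) (.e (nat_lit 573489) (nat_lit 14) (.e (nat_lit 73755) (nat_lit 8) (.e (nat_lit 557090) (nat_lit 12) (.e (nat_lit 163843) (nat_lit 0) (.e (nat_lit 5800) (nat_lit 320) (.e (nat_lit 2540) (nat_lit 158) .nil))))))))) (.g (nat_lit 6) .nil .nil))))) 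
(.nd (nat_lit 4) (.nd (nat_lit 5) 
(.lf (nat_lit 130379) (.g (nat_lit 2879) (.e (nat_lit 8325) (nat_lit 69) (.e (nat_lit 557103) (nat_lit 14) (.e (nat_lit 180250) (nat_lit 10) (.e (nat_lit 573487) (nat_lit 14) (.e (nat_lit 81664) (nat_lit 5) (.e (nat_lit 532490) (nat_lit 0) (.e (nat_lit 2346) (nat_lit 151) (.e (nat_lit 778455) (nat_lit 10) .nil)))))))) (.g (nat_lit 4) .nil .nil))) 
(.lf (nat_lit 130411) (.g (nat_lit 2763) (.e (nat_lit 8325) (nat_lit 69) (.e (nat_lit 557105) (nat_lit 14) (.e (nat_lit 180252) (nat_lit 10) (.e (nat_lit 573489) (nat_lit 14) (.e (nat_lit 81664) (nat_lit 5) .nil))))) .nil))) (.nd (nat_lit 5) 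
(.lf (nat_lit 130395) (.g (nat_lit 3775) (.e (nat_lit 8325) (nat_lit 69) (.e (nat_lit 557105) (nat_lit 14) (.e (nat_lit 180252) (nat_lit 10) (.e (nat_lit 573482) (nat_lit 13) (.e (nat_lit 65568) (nat_lit 2) (.e (nat_lit 90187) (nat_lit 18) (.e (nat_lit 2584) (nat_lit 161) (.e (nat_lit 40992) (nat_lit 10) .nil)))))))) (.g (nat_lit 4) .nil .nil))) 
(.lf (nat_lit 130427) (.g (nat_lit 3062) (.e (nat_lit 8325) (nat_lit 69) (.e (nat_lit 557105) (nat_lit 14) (.e (nat_lit 180252) (nat_lit 10) (.e (nat_lit 573489) (nat_lit 14) (.e (nat_lit 73755) (nat_lit 8) (.e (nat_lit 557090) (nat_lit 12) (.e (nat_lit 163844) (nat_lit 0) (.e (nat_lit 5798) (nat_lit 320) (.e (nat_lit 2540) (nat_lit 158) .nil))))))))) (.g (nat_lit 6) .nil .nil)))))) 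
(.nd (nat_lit 3) (.nd (nat_lit 4) (.nd (nat_lit 5) 
(.lf (nat_lit 130375) (.g (nat_lit 2408) (.e (nat_lit 8325) (nat_lit 69) (.e (nat_lit 557103) (nat_lit 14) (.e (nat_lit 180250) (nat_lit 10) (.e (nat_lit 573487) (nat_lit 14) (.e (nat_lit 81664) (nat_lit 1) .nil))))) .nil)) 
(.lf (nat_lit 130407) (.g (nat_lit 3404) (.e (nat_lit 8325) (nat_lit 69) (.e (nat_lit 557105) (nat_lit 14) (.e (nat_lit 180252) (nat_lit 10) (.e (nat_lit 573488) (nat_lit 14) (.e (nat_lit 81664) (nat_lit 5) (.e (nat_lit 532490) (nat_lit 0) (.e (nat_lit 7936) (nat_lit 151) (.e (nat_lit 778447) (nat_lit 10) .nil)))))))) (.g (nat_lit 4) .nil .nil)))) (.nd (nat_lit 5) 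
(.lf (nat_lit 130391) (.g (nat_lit 2131) (.e (nat_lit 8325) (nat_lit 69) (.e (nat_lit 557105) (nat_lit 14) (.e (nat_lit 180252) (nat_lit 10) (.e (nat_lit 573480) (nat_lit 13) .nil)))) .nil)) 
(.lf (nat_lit 130423) (.g (nat_lit 3060) (.e (nat_lit 8325) (nat_lit 69) (.e (nat_lit 557105) (nat_lit 14) (.e (nat_lit 180252) (nat_lit 10) (.e (nat_lit 573489) (nat_lit 14) (.e (nat_lit 73755) (nat_lit 8) (.e (nat_lit 557090) (nat_lit 12) (.e (nat_lit 163843) (nat_lit 0) (.e (nat_lit 5811) (nat_lit 320) (.e (nat_lit 2542) (nat_lit 158) .nil))))))))) (.g (nat_lit 6) .nil .nil))))) 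
(.nd (nat_lit 4) (.nd (nat_lit 5) 
(.lf (nat_lit 130383) (.g (nat_lit 1811) (.e (nat_lit 8325) (nat_lit 69) (.e (nat_lit 557103) (nat_lit 14) (.e (nat_lit 180250) (nat_lit 10) (.e (nat_lit 573488) (nat_lit 14) (.e (nat_lit 81664) (nat_lit 5) .nil))))) .nil)) 
(.lf (nat_lit 130415) (.g (nat_lit 3193) (.e (nat_lit 8325) (nat_lit 69) (.e (nat_lit 557105) (nat_lit 14) (.e (nat_lit 180252) (nat_lit 10) (.e (nat_lit 573489) (nat_lit 14) (.e (nat_lit 73755) (nat_lit 8) (.e (nat_lit 557090) (nat_lit 12) (.e (nat_lit 163843) (nat_lit 0) (.e (nat_lit 5798) (nat_lit 320) (.e (nat_lit 2540) (nat_lit 158) .nil))))))))) (.g (nat_lit 6) .nil .nil)))) 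
(.nd (nat_lit 5) 
(.lf (nat_lit 130399) (.g (nat_lit 3293) (.e (nat_lit 8325) (nat_lit 69) (.e (nat_lit 557105) (nat_lit 14) (.e (nat_lit 180252) (nat_lit 10) (.e (nat_lit 573487) (nat_lit 14) (.e (nat_lit 81664) (nat_lit 5) (.e (nat_lit 532490) (nat_lit 0) (.e (nat_lit 2346) (nat_lit 151) (.e (nat_lit 778453) (nat_lit 10) .nil)))))))) (.g (nat_lit 4) .nil .nil))) 
(.lf (nat_lit 130431) (.g (nat_lit 3083) (.e (nat_lit 8325) (nat_lit 69) (.e (nat_lit 557105) (nat_lit 14) (.e (nat_lit 180252) (nat_lit 10) (.e (nat_lit 573489) (nat_lit 14) (.e (nat_lit 73755) (nat_lit 8) (.e (nat_lit 557090) (nat_lit 12) (.e (nat_lit 163844) (nat_lit 0) (.e (nat_lit 5800) (nat_lit 320) (.e (nat_lit 2541) (nat_lit 158) .nil))))))))) (.g (nat_lit 6) .nil .nil)))))))))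

noncomputable def tv1739 : DT := (.nd (nat_lit 0) (.nd (nat_lit 1) (.nd (nat_lit 2) (.nd (nat_lit 3) (.nd (nat_lit 4) (.nd (nat_lit 5) 
(.lf (nat_lit 130432) (.g (nat_lit 3023) (.e (nat_lit 8325) (nat_lit 69) (.e (nat_lit 557105) (nat_lit 14) (.e (nat_lit 180252) (nat_lit 10) (.e (nat_lit 573489) (nat_lit 14) (.e (nat_lit 73755) (nat_lit 8) (.e (nat_lit 557090) (nat_lit 12) (.e (nat_lit 163844) (nat_lit 0) (.e (nat_lit 5800) (nat_lit 320) (.e (nat_lit 2547) (nat_lit 158) .nil))))))))) (.g (nat_lit 6) .nil .nil))) 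
(.lf (nat_lit 130464) (.g (nat_lit 1071) (.e (nat_lit 8326) (nat_lit 69) (.e (nat_lit 557098) (nat_lit 13) (.e (nat_lit 172115) (nat_lit 10) .nil))) .nil))) (.nd (nat_lit 5) 
(.lf (nat_lit 130448) (.g (nat_lit 3039) (.e (nat_lit 8325) (nat_lit 69) (.e (nat_lit 557109) (nat_lit 15) (.e (nat_lit 188450) (nat_lit 23) (.e (nat_lit 204821) (nat_lit 17) .nil)))) .nil)) 
(.lf (nat_lit 130480) (.g (nat_lit 3380) (.e (nat_lit 8326) (nat_lit 69) (.e (nat_lit 557098) (nat_lit 13) (.e (nat_lit 172115) (nat_lit 10) (.e (nat_lit 434231) (nat_lit 23) (.e (nat_lit 532490) (nat_lit 0) (.e (nat_lit 6223) (nat_lit 334) (.e (nat_lit 123174) (nat_lit 257) .nil))))))) (.g (nat_lit 4) .nil .nil))))) (.nd (nat_lit 4) (.nd (nat_lit 5) 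
(.lf (nat_lit 130440) (.g (nat_lit 3817) (.e (nat_lit 8325) (nat_lit 69) (.e (nat_lit 557105) (nat_lit 14) (.e (nat_lit 180252) (nat_lit 10) (.e (nat_lit 573489) (nat_lit 14) (.e (nat_lit 73755) (nat_lit 8) (.e (nat_lit 557090) (nat_lit 12) (.e (nat_lit 164010) (nat_lit 41) (.e (nat_lit 663582) (nat_lit 10) .nil)))))))) (.g (nat_lit 6) .nil .nil))) 
(.lf (nat_lit 130472) (.g (nat_lit 3006) (.e (nat_lit 8326) (nat_lit 69) (.e (nat_lit 557098) (nat_lit 13) (.e (nat_lit 172115) (nat_lit 10) (.e (nat_lit 434231) (nat_lit 23) (.e (nat_lit 532490) (nat_lit 0) (.e (nat_lit 6114) (nat_lit 332) (.e (nat_lit 972) (nat_lit 81) (.e (nat_lit 5743) (nat_lit 313) .nil)))))))) (.g (nat_lit 4) .nil .nil)))) (.nd (nat_lit 5) 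
(.lf (nat_lit 130456) (.g (nat_lit 2849) (.e (nat_lit 8325) (nat_lit 69) (.e (nat_lit 557109) (nat_lit 15) (.e (nat_lit 188452) (nat_lit 23) (.e (nat_lit 204864) (nat_lit 27) .nil)))) .nil)) 
(.lf (nat_lit 130488) (.g (nat_lit 3686) (.e (nat_lit 8326) (nat_lit 69) (.e (nat_lit 557100) (nat_lit 13) (.e (nat_lit 172106) (nat_lit 10) (.e (nat_lit 434202) (nat_lit 18) (.e (nat_lit 6416) (nat_lit 341) (.e (nat_lit 163885) (nat_lit 5) (.e (nat_lit 221219) (nat_lit 24) (.e (nat_lit 213028) (nat_lit 10) .nil)))))))) (.g (nat_lit 6) .nil .nil)))))) 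
(.nd (nat_lit 3) (.nd (nat_lit 4) (.nd (nat_lit 5) 
(.lf (nat_lit 130436) (.g (nat_lit 2736) (.e (nat_lit 8325) (nat_lit 69) (.e (nat_lit 557105) (nat_lit 14) (.e (nat_lit 180252) (nat_lit 10) (.e (nat_lit 573489) (nat_lit 14) (.e (nat_lit 73755) (nat_lit 8) (.e (nat_lit 557090) (nat_lit 12) (.e (nat_lit 163845) (nat_lit 0) (.e (nat_lit 5800) (nat_lit 320) (.e (nat_lit 2548) (nat_lit 158) .nil))))))))) (.g (nat_lit 5) .nil .nil))) 
(.lf (nat_lit 130468) (.g (nat_lit 3248) (.e (nat_lit 8326) (nat_lit 69) (.e (nat_lit 557098) (nat_lit 13) (.e (nat_lit 172115) (nat_lit 10) (.e (nat_lit 434231) (nat_lit 23) (.e (nat_lit 532490) (nat_lit 0) (.e (nat_lit 6114) (nat_lit 332) (.e (nat_lit 970) (nat_lit 81) (.e (nat_lit 5740) (nat_lit 313) .nil)))))))) (.g (nat_lit 4) .nil .nil)))) (.nd (nat_lit 5) 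
(.lf (nat_lit 130452) (.g (nat_lit 4361) (.e (nat_lit 8325) (nat_lit 69) (.e (nat_lit 557109) (nat_lit 15) (.e (nat_lit 188452) (nat_lit 23) (.e (nat_lit 204848) (nat_lit 25) .nil)))) .nil)) 
(.lf (nat_lit 130484) (.g (nat_lit 1016) (.e (nat_lit 8326) (nat_lit 69) (.e (nat_lit 557100) (nat_lit 13) (.e (nat_lit 172105) (nat_lit 10) (.e (nat_lit 434233) (nat_lit 23) .nil)))) .nil)))) (.nd (nat_lit 4) (.nd (nat_lit 5) 
(.lf (nat_lit 130444) (.g (nat_lit 1960) (.e (nat_lit 8325) (nat_lit 69) (.e (nat_lit 557107) (nat_lit 15) (.e (nat_lit 188450) (nat_lit 23) (.e (nat_lit 204863) (nat_lit 27) (.e (nat_lit 344096) (nat_lit 18) .nil))))) .nil)) 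
(.lf (nat_lit 130476) (.g (nat_lit 3118) (.e (nat_lit 8326) (nat_lit 69) (.e (nat_lit 557098) (nat_lit 13) (.e (nat_lit 172115) (nat_lit 10) (.e (nat_lit 434231) (nat_lit 23) (.e (nat_lit 532490) (nat_lit 0) (.e (nat_lit 6114) (nat_lit 332) (.e (nat_lit 1076) (nat_lit 81) (.e (nat_lit 5740) (nat_lit 313) .nil)))))))) (.g (nat_lit 4) .nil .nil)))) (.nd (nat_lit 5) 
(.lf (nat_lit 130460) (.g (nat_lit 1239) (.e (nat_lit 8325) (nat_lit 69) (.e (nat_lit 557109) (nat_lit 15) (.e (nat_lit 188461) (nat_lit 26) (.e (nat_lit 253983) (nat_lit 10) .nil)))) .nil)) 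
(.lf (nat_lit 130492) (.g (nat_lit 2048) (.e (nat_lit 8326) (nat_lit 69) (.e (nat_lit 557100) (nat_lit 13) (.e (nat_lit 172106) (nat_lit 10) (.e (nat_lit 434202) (nat_lit 18) (.e (nat_lit 6420) (nat_lit 341) .nil))))) .nil)))))) (.nd (nat_lit 2) (.nd (nat_lit 3) (.nd (nat_lit 4) (.nd (nat_lit 5) 
(.lf (nat_lit 130434) (.g (nat_lit 3084) (.e (nat_lit 8325) (nat_lit 69) (.e (nat_lit 557105) (nat_lit 14) (.e (nat_lit 180252) (nat_lit 10) (.e (nat_lit 573489) (nat_lit 14) (.e (nat_lit 73755) (nat_lit 8) (.e (nat_lit 557090) (nat_lit 12) (.e (nat_lit 163844) (nat_lit 0) (.e (nat_lit 5811) (nat_lit 320) (.e (nat_lit 2542) (nat_lit 158) .nil))))))))) (.g (nat_lit 6) .nil .nil))) 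
(.lf (nat_lit 130466) (.g (nat_lit 1974) (.e (nat_lit 8326) (nat_lit 69) (.e (nat_lit 557098) (nat_lit 13) (.e (nat_lit 172115) (nat_lit 10) (.e (nat_lit 434231) (nat_lit 23) .nil)))) .nil))) (.nd (nat_lit 5) 
(.lf (nat_lit 130450) (.g (nat_lit 493) (.e (nat_lit 8325) (nat_lit 69) (.e (nat_lit 557109) (nat_lit 15) (.e (nat_lit 188452) (nat_lit 23) .nil))) .nil)) 
(.lf (nat_lit 130482) (.g (nat_lit 2022) (.e (nat_lit 8326) (nat_lit 69) (.e (nat_lit 557100) (nat_lit 13) (.e (nat_lit 172065) (nat_lit 3) (.e (nat_lit 204838) (nat_lit 20) (.e (nat_lit 122624) (nat_lit 3) .nil))))) .nil)))) (.nd (nat_lit 4) (.nd (nat_lit 5) 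
(.lf (nat_lit 130442) (.g (nat_lit 4029) (.e (nat_lit 8325) (nat_lit 69) (.e (nat_lit 557105) (nat_lit 14) (.e (nat_lit 180252) (nat_lit 10) (.e (nat_lit 573489) (nat_lit 14) (.e (nat_lit 73755) (nat_lit 8) (.e (nat_lit 557090) (nat_lit 12) (.e (nat_lit 164012) (nat_lit 42) (.e (nat_lit 671778) (nat_lit 10) .nil)))))))) (.g (nat_lit 6) .nil .nil))) 
(.lf (nat_lit 130474) (.g (nat_lit 4062) (.e (nat_lit 8326) (nat_lit 69) (.e (nat_lit 557098) (nat_lit 13) (.e (nat_lit 172115) (nat_lit 10) (.e (nat_lit 434231) (nat_lit 23) (.e (nat_lit 532490) (nat_lit 0) (.e (nat_lit 6114) (nat_lit 332) (.e (nat_lit 973) (nat_lit 81) (.e (nat_lit 5743) (nat_lit 313) .nil)))))))) (.g (nat_lit 5) .nil .nil)))) (.nd (nat_lit 5) 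
(.lf (nat_lit 130458) (.g (nat_lit 1784) (.e (nat_lit 8325) (nat_lit 69) (.e (nat_lit 557109) (nat_lit 15) (.e (nat_lit 188458) (nat_lit 25) (.e (nat_lit 245784) (nat_lit 9) .nil)))) .nil)) 
(.lf (nat_lit 130490) (.g (nat_lit 2710) (.e (nat_lit 8326) (nat_lit 69) (.e (nat_lit 557100) (nat_lit 13) (.e (nat_lit 172106) (nat_lit 10) (.e (nat_lit 434202) (nat_lit 18) (.e (nat_lit 6416) (nat_lit 341) (.e (nat_lit 163886) (nat_lit 5) (.e (nat_lit 221219) (nat_lit 24) (.e (nat_lit 213028) (nat_lit 10) .nil)))))))) (.g (nat_lit 4) .nil .nil)))))) 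
(.nd (nat_lit 3) (.nd (nat_lit 4) (.nd (nat_lit 5) 
(.lf (nat_lit 130438) (.g (nat_lit 3785) (.e (nat_lit 8325) (nat_lit 69) (.e (nat_lit 557105) (nat_lit 14) (.e (nat_lit 180252) (nat_lit 10) (.e (nat_lit 573489) (nat_lit 14) (.e (nat_lit 73755) (nat_lit 8) (.e (nat_lit 557090) (nat_lit 12) (.e (nat_lit 164005) (nat_lit 41) (.e (nat_lit 663582) (nat_lit 10) .nil)))))))) (.g (nat_lit 7) .nil .nil))) 
(.lf (nat_lit 130470) (.g (nat_lit 3516) (.e (nat_lit 8326) (nat_lit 69) (.e (nat_lit 557098) (nat_lit 13) (.e (nat_lit 172115) (nat_lit 10) (.e (nat_lit 434231) (nat_lit 23) (.e (nat_lit 532490) (nat_lit 0) (.e (nat_lit 6114) (nat_lit 332) (.e (nat_lit 972) (nat_lit 81) (.e (nat_lit 5740) (nat_lit 313) .nil)))))))) (.g (nat_lit 4) .nil .nil)))) (.nd (nat_lit 5) 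
(.lf (nat_lit 130454) (.g (nat_lit 2701) (.e (nat_lit 8325) (nat_lit 69) (.e (nat_lit 557109) (nat_lit 15) (.e (nat_lit 188452) (nat_lit 23) (.e (nat_lit 204863) (nat_lit 27) .nil)))) .nil)) 
(.lf (nat_lit 130486) (.g (nat_lit 2062) (.e (nat_lit 8326) (nat_lit 69) (.e (nat_lit 557100) (nat_lit 13) (.e (nat_lit 172106) (nat_lit 10) (.e (nat_lit 434202) (nat_lit 18) (.e (nat_lit 6416) (nat_lit 341) .nil))))) .nil)))) (.nd (nat_lit 4) (.nd (nat_lit 5) 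
(.lf (nat_lit 130446) (.g (nat_lit 4457) (.e (nat_lit 8325) (nat_lit 69) (.e (nat_lit 557109) (nat_lit 15) (.e (nat_lit 188449) (nat_lit 22) (.e (nat_lit 196670) (nat_lit 14) .nil)))) .nil)) 
(.lf (nat_lit 130478) (.g (nat_lit 3585) (.e (nat_lit 8326) (nat_lit 69) (.e (nat_lit 557098) (nat_lit 13) (.e (nat_lit 172115) (nat_lit 10) (.e (nat_lit 434231) (nat_lit 23) (.e (nat_lit 532490) (nat_lit 0) (.e (nat_lit 6114) (nat_lit 332) (.e (nat_lit 1085) (nat_lit 81) (.e (nat_lit 5740) (nat_lit 313) .nil)))))))) (.g (nat_lit 4) .nil .nil)))) (.nd (nat_lit 5) 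
(.lf (nat_lit 130462) (.g (nat_lit 1808) (.e (nat_lit 8326) (nat_lit 69) (.e (nat_lit 557098) (nat_lit 13) (.e (nat_lit 172097) (nat_lit 9) (.e (nat_lit 426140) (nat_lit 3) .nil)))) .nil)) 
(.lf (nat_lit 130494) (.g (nat_lit 3544) (.e (nat_lit 8326) (nat_lit 69) (.e (nat_lit 557100) (nat_lit 13) (.e (nat_lit 172106) (nat_lit 10) (.e (nat_lit 434202) (nat_lit 18) (.e (nat_lit 6420) (nat_lit 341) (.e (nat_lit 163885) (nat_lit 5) (.e (nat_lit 221219) (nat_lit 24) (.e (nat_lit 213029) (nat_lit 10) .nil)))))))) (.g (nat_lit 6) .nil .nil)))))))) 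
(.nd (nat_lit 1) (.nd (nat_lit 2) (.nd (nat_lit 3) (.nd (nat_lit 4) (.nd (nat_lit 5) 
(.lf (nat_lit 130433) (.g (nat_lit 2261) (.e (nat_lit 8325) (nat_lit 69) (.e (nat_lit 557105) (nat_lit 14) (.e (nat_lit 180252) (nat_lit 10) (.e (nat_lit 573489) (nat_lit 14) (.e (nat_lit 73755) (nat_lit 8) (.e (nat_lit 557090) (nat_lit 12) (.e (nat_lit 163844) (nat_lit 0) (.e (nat_lit 5811) (nat_lit 320) (.e (nat_lit 2540) (nat_lit 158) .nil))))))))) (.g (nat_lit 4) .nil .nil))) 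
(.lf (nat_lit 130465) (.g (nat_lit 1999) (.e (nat_lit 8326) (nat_lit 69) (.e (nat_lit 557098) (nat_lit 13) (.e (nat_lit 172115) (nat_lit 10) (.e (nat_lit 434202) (nat_lit 18) .nil)))) .nil))) (.nd (nat_lit 5) 
(.lf (nat_lit 130449) (.g (nat_lit 3065) (.e (nat_lit 8325) (nat_lit 69) (.e (nat_lit 557109) (nat_lit 15) (.e (nat_lit 188450) (nat_lit 23) (.e (nat_lit 204863) (nat_lit 27) .nil)))) .nil)) 
(.lf (nat_lit 130481) (.g (nat_lit 1903) (.e (nat_lit 8326) (nat_lit 69) (.e (nat_lit 557100) (nat_lit 13) (.e (nat_lit 172065) (nat_lit 3) (.e (nat_lit 204837) (nat_lit 20) (.e (nat_lit 122624) (nat_lit 3) .nil))))) .nil)))) (.nd (nat_lit 4) (.nd (nat_lit 5) 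
(.lf (nat_lit 130441) (.g (nat_lit 4097) (.e (nat_lit 8325) (nat_lit 69) (.e (nat_lit 557105) (nat_lit 14) (.e (nat_lit 180252) (nat_lit 10) (.e (nat_lit 573489) (nat_lit 14) (.e (nat_lit 73755) (nat_lit 8) (.e (nat_lit 557090) (nat_lit 12) (.e (nat_lit 164011) (nat_lit 42) (.e (nat_lit 671778) (nat_lit 10) .nil)))))))) (.g (nat_lit 6) .nil .nil))) 
(.lf (nat_lit 130473) (.g (nat_lit 4052) (.e (nat_lit 8326) (nat_lit 69) (.e (nat_lit 557098) (nat_lit 13) (.e (nat_lit 172115) (nat_lit 10) (.e (nat_lit 434231) (nat_lit 23) (.e (nat_lit 532490) (nat_lit 0) (.e (nat_lit 6114) (nat_lit 332) (.e (nat_lit 973) (nat_lit 81) (.e (nat_lit 5740) (nat_lit 313) .nil)))))))) (.g (nat_lit 5) .nil .nil)))) (.nd (nat_lit 5) 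
(.lf (nat_lit 130457) (.g (nat_lit 3932) (.e (nat_lit 8325) (nat_lit 69) (.e (nat_lit 557109) (nat_lit 15) (.e (nat_lit 188452) (nat_lit 23) (.e (nat_lit 204885) (nat_lit 33) .nil)))) .nil)) 
(.lf (nat_lit 130489) (.g (nat_lit 3428) (.e (nat_lit 8326) (nat_lit 69) (.e (nat_lit 557100) (nat_lit 13) (.e (nat_lit 172106) (nat_lit 10) (.e (nat_lit 434202) (nat_lit 18) (.e (nat_lit 6416) (nat_lit 341) (.e (nat_lit 163885) (nat_lit 5) (.e (nat_lit 221219) (nat_lit 24) (.e (nat_lit 213029) (nat_lit 10) .nil)))))))) (.g (nat_lit 6) .nil .nil)))))) 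
(.nd (nat_lit 3) (.nd (nat_lit 4) (.nd (nat_lit 5) 
(.lf (nat_lit 130437) (.g (nat_lit 3614) (.e (nat_lit 8325) (nat_lit 69) (.e (nat_lit 557105) (nat_lit 14) (.e (nat_lit 180252) (nat_lit 10) (.e (nat_lit 573489) (nat_lit 14) (.e (nat_lit 73755) (nat_lit 8) (.e (nat_lit 557090) (nat_lit 12) (.e (nat_lit 164004) (nat_lit 41) (.e (nat_lit 663582) (nat_lit 10) .nil)))))))) (.g (nat_lit 6) .nil .nil))) 
(.lf (nat_lit 130469) (.g (nat_lit 3415) (.e (nat_lit 8326) (nat_lit 69) (.e (nat_lit 557098) (nat_lit 13) (.e (nat_lit 172115) (nat_lit 10) (.e (nat_lit 434231) (nat_lit 23) (.e (nat_lit 532490) (nat_lit 0) (.e (nat_lit 6114) (nat_lit 332) (.e (nat_lit 970) (nat_lit 81) (.e (nat_lit 5741) (nat_lit 313) .nil)))))))) (.g (nat_lit 4) .nil .nil)))) (.nd (nat_lit 5) 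
(.lf (nat_lit 130453) (.g (nat_lit 2702) (.e (nat_lit 8325) (nat_lit 69) (.e (nat_lit 557109) (nat_lit 15) (.e (nat_lit 188452) (nat_lit 23) (.e (nat_lit 204849) (nat_lit 25) .nil)))) .nil)) 
(.lf (nat_lit 130485) (.g (nat_lit 1448) (.e (nat_lit 8326) (nat_lit 69) (.e (nat_lit 557100) (nat_lit 13) (.e (nat_lit 172106) (nat_lit 10) (.e (nat_lit 434202) (nat_lit 18) .nil)))) .nil)))) (.nd (nat_lit 4) (.nd (nat_lit 5) 
(.lf (nat_lit 130445) (.g (nat_lit 3342) (.e (nat_lit 8325) (nat_lit 69) (.e (nat_lit 557109) (nat_lit 15) (.e (nat_lit 188449) (nat_lit 22) (.e (nat_lit 196666) (nat_lit 13) .nil)))) .nil)) 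
(.lf (nat_lit 130477) (.g (nat_lit 4125) (.e (nat_lit 8326) (nat_lit 69) (.e (nat_lit 557098) (nat_lit 13) (.e (nat_lit 172115) (nat_lit 10) (.e (nat_lit 434231) (nat_lit 23) (.e (nat_lit 532490) (nat_lit 0) (.e (nat_lit 6114) (nat_lit 332) (.e (nat_lit 1082) (nat_lit 81) (.e (nat_lit 5740) (nat_lit 313) .nil)))))))) (.g (nat_lit 5) .nil .nil)))) (.nd (nat_lit 5) 
(.lf (nat_lit 130461) (.g (nat_lit 1442) (.e (nat_lit 8325) (nat_lit 69) (.e (nat_lit 557109) (nat_lit 15) (.e (nat_lit 188461) (nat_lit 26) (.e (nat_lit 253987) (nat_lit 10) (.e (nat_lit 8282) (nat_lit 49) .nil))))) .nil)) 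
(.lf (nat_lit 130493) (.g (nat_lit 3025) (.e (nat_lit 8326) (nat_lit 69) (.e (nat_lit 557100) (nat_lit 13) (.e (nat_lit 172106) (nat_lit 10) (.e (nat_lit 434202) (nat_lit 18) (.e (nat_lit 6420) (nat_lit 341) (.e (nat_lit 163885) (nat_lit 5) (.e (nat_lit 221219) (nat_lit 24) (.e (nat_lit 213027) (nat_lit 10) .nil)))))))) (.g (nat_lit 5) .nil .nil))))))) 
(.nd (nat_lit 2) (.nd (nat_lit 3) (.nd (nat_lit 4) (.nd (nat_lit 5) 
(.lf (nat_lit 130435) (.g (nat_lit 3022) (.e (nat_lit 8325) (nat_lit 69) (.e (nat_lit 557105) (nat_lit 14) (.e (nat_lit 180252) (nat_lit 10) (.e (nat_lit 573489) (nat_lit 14) (.e (nat_lit 73755) (nat_lit 8) (.e (nat_lit 557090) (nat_lit 12) (.e (nat_lit 163844) (nat_lit 0) (.e (nat_lit 5811) (nat_lit 320) (.e (nat_lit 2547) (nat_lit 158) .nil))))))))) (.g (nat_lit 6) .nil .nil))) 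
(.lf (nat_lit 130467) (.g (nat_lit 3633) (.e (nat_lit 8326) (nat_lit 69) (.e (nat_lit 557098) (nat_lit 13) (.e (nat_lit 172115) (nat_lit 10) (.e (nat_lit 434231) (nat_lit 23) (.e (nat_lit 532490) (nat_lit 0) (.e (nat_lit 6114) (nat_lit 332) (.e (nat_lit 968) (nat_lit 81) (.e (nat_lit 5741) (nat_lit 313) .nil)))))))) (.g (nat_lit 4) .nil .nil)))) (.nd (nat_lit 5) 
(.lf (nat_lit 130451) (.g (nat_lit 2867) (.e (nat_lit 8325) (nat_lit 69) (.e (nat_lit 557109) (nat_lit 15) (.e (nat_lit 188452) (nat_lit 23) (.e (nat_lit 204821) (nat_lit 17) .nil)))) .nil)) 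
(.lf (nat_lit 130483) (.g (nat_lit 1514) (.e (nat_lit 8326) (nat_lit 69) (.e (nat_lit 557100) (nat_lit 13) (.e (nat_lit 172067) (nat_lit 3) (.e (nat_lit 204837) (nat_lit 20) .nil)))) .nil)))) (.nd (nat_lit 4) (.nd (nat_lit 5) 
(.lf (nat_lit 130443) (.g (nat_lit 1444) (.e (nat_lit 8325) (nat_lit 69) (.e (nat_lit 557107) (nat_lit 15) (.e (nat_lit 188450) (nat_lit 23) (.e (nat_lit 204821) (nat_lit 17) .nil)))) .nil)) 
(.lf (nat_lit 130475) (.g (nat_lit 3681) (.e (nat_lit 8326) (nat_lit 69) (.e (nat_lit 557098) (nat_lit 13) (.e (nat_lit 172115) (nat_lit 10) (.e (nat_lit 434231) (nat_lit 23) (.e (nat_lit 532490) (nat_lit 0) (.e (nat_lit 6114) (nat_lit 332) (.e (nat_lit 1055) (nat_lit 81) (.e (nat_lit 5740) (nat_lit 313) .nil)))))))) (.g (nat_lit 4) .nil .nil)))) (.nd (nat_lit 5) 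
(.lf (nat_lit 130459) (.g (nat_lit 1460) (.e (nat_lit 8325) (nat_lit 69) (.e (nat_lit 557109) (nat_lit 15) (.e (nat_lit 188461) (nat_lit 26) (.e (nat_lit 253959) (nat_lit 9) (.e (nat_lit 186) (nat_lit 14) .nil))))) .nil)) 
(.lf (nat_lit 130491) (.g (nat_lit 2445) (.e (nat_lit 8326) (nat_lit 69) (.e (nat_lit 557100) (nat_lit 13) (.e (nat_lit 172106) (nat_lit 10) (.e (nat_lit 434202) (nat_lit 18) (.e (nat_lit 6416) (nat_lit 341) (.e (nat_lit 163886) (nat_lit 5) (.e (nat_lit 221219) (nat_lit 24) (.e (nat_lit 213029) (nat_lit 10) .nil)))))))) (.g (nat_lit 4) .nil .nil)))))) 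
(.nd (nat_lit 3) (.nd (nat_lit 4) (.nd (nat_lit 5) 
(.lf (nat_lit 130439) (.g (nat_lit 3594) (.e (nat_lit 8325) (nat_lit 69) (.e (nat_lit 557105) (nat_lit 14) (.e (nat_lit 180252) (nat_lit 10) (.e (nat_lit 573489) (nat_lit 14) (.e (nat_lit 73755) (nat_lit 8) (.e (nat_lit 557090) (nat_lit 12) (.e (nat_lit 164008) (nat_lit 41) (.e (nat_lit 663582) (nat_lit 10) .nil)))))))) (.g (nat_lit 6) .nil .nil))) 
(.lf (nat_lit 130471) (.g (nat_lit 4227) (.e (nat_lit 8326) (nat_lit 69) (.e (nat_lit 557098) (nat_lit 13) (.e (nat_lit 172115) (nat_lit 10) (.e (nat_lit 434231) (nat_lit 23) (.e (nat_lit 532490) (nat_lit 0) (.e (nat_lit 6114) (nat_lit 332) (.e (nat_lit 972) (nat_lit 81) (.e (nat_lit 5741) (nat_lit 313) .nil)))))))) (.g (nat_lit 5) .nil .nil)))) (.nd (nat_lit 5) 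
(.lf (nat_lit 130455) (.g (nat_lit 3882) (.e (nat_lit 8325) (nat_lit 69) (.e (nat_lit 557109) (nat_lit 15) (.e (nat_lit 188452) (nat_lit 23) (.e (nat_lit 204863) (nat_lit 27) (.e (nat_lit 344096) (nat_lit 18) (.e (nat_lit 4764) (nat_lit 281) (.e (nat_lit 2546) (nat_lit 158) .nil))))))) (.g (nat_lit 4) .nil .nil))) 
(.lf (nat_lit 130487) (.g (nat_lit 2910) (.e (nat_lit 8326) (nat_lit 69) (.e (nat_lit 557100) (nat_lit 13) (.e (nat_lit 172106) (nat_lit 10) (.e (nat_lit 434202) (nat_lit 18) (.e (nat_lit 6416) (nat_lit 341) (.e (nat_lit 163885) (nat_lit 5) (.e (nat_lit 221219) (nat_lit 24) (.e (nat_lit 213027) (nat_lit 10) .nil)))))))) (.g (nat_lit 4) .nil .nil))))) (.nd (nat_lit 4) (.nd (nat_lit 5) 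
(.lf (nat_lit 130447) (.g (nat_lit 1125) (.e (nat_lit 8325) (nat_lit 69) (.e (nat_lit 557109) (nat_lit 15) (.e (nat_lit 188450) (nat_lit 23) .nil))) .nil)) 
(.lf (nat_lit 130479) (.g (nat_lit 2960) (.e (nat_lit 8326) (nat_lit 69) (.e (nat_lit 557098) (nat_lit 13) (.e (nat_lit 172115) (nat_lit 10) (.e (nat_lit 434231) (nat_lit 23) (.e (nat_lit 532490) (nat_lit 0) (.e (nat_lit 6206) (nat_lit 333) (.e (nat_lit 65280) (nat_lit 257) .nil))))))) (.g (nat_lit 4) .nil .nil)))) (.nd (nat_lit 5) 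
(.lf (nat_lit 130463) (.g (nat_lit 2511) (.e (nat_lit 8326) (nat_lit 69) (.e (nat_lit 557098) (nat_lit 13) (.e (nat_lit 172097) (nat_lit 9) (.e (nat_lit 426140) (nat_lit 3) (.e (nat_lit 204821) (nat_lit 17) .nil))))) .nil)) 
(.lf (nat_lit 130495) (.g (nat_lit 1449) (.e (nat_lit 8326) (nat_lit 69) (.e (nat_lit 557100) (nat_lit 13) (.e (nat_lit 172106) (nat_lit 10) (.e (nat_lit 434227) (nat_lit 20) .nil)))) .nil))))))))

noncomputable def tv1740 : DT := (.nd (nat_lit 0) (.nd (nat_lit 1) (.nd (nat_lit 2) (.nd (nat_lit 3) (.nd (nat_lit 4) (.nd (nat_lit 5) 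
(.lf (nat_lit 130496) (.g (nat_lit 814) (.e (nat_lit 8326) (nat_lit 69) (.e (nat_lit 557100) (nat_lit 13) (.e (nat_lit 172106) (nat_lit 10) (.e (nat_lit 434231) (nat_lit 23) .nil)))) .nil)) 
(.lf (nat_lit 130528) (.g (nat_lit 2579) (.e (nat_lit 8326) (nat_lit 69) (.e (nat_lit 557100) (nat_lit 13) (.e (nat_lit 172106) (nat_lit 10) (.e (nat_lit 434231) (nat_lit 23) (.e (nat_lit 532535) (nat_lit 9) (.e (nat_lit 335925) (nat_lit 0) (.e (nat_lit 1008) (nat_lit 81) (.e (nat_lit 4824) (nat_lit 281) (.e (nat_lit 2540) (nat_lit 158) .nil))))))))) (.g (nat_lit 5) .nil .nil)))) (.nd (nat_lit 5) 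
(.lf (nat_lit 130512) (.g (nat_lit 2482) (.e (nat_lit 8326) (nat_lit 69) (.e (nat_lit 557100) (nat_lit 13) (.e (nat_lit 172106) (nat_lit 10) (.e (nat_lit 434231) (nat_lit 23) (.e (nat_lit 532490) (nat_lit 0) (.e (nat_lit 6114) (nat_lit 332) (.e (nat_lit 978) (nat_lit 81) (.e (nat_lit 5740) (nat_lit 313) .nil)))))))) (.g (nat_lit 4) .nil .nil))) 
(.lf (nat_lit 130544) (.g (nat_lit 2019) (.e (nat_lit 8326) (nat_lit 69) (.e (nat_lit 557100) (nat_lit 13) (.e (nat_lit 172106) (nat_lit 10) (.e (nat_lit 434231) (nat_lit 23) (.e (nat_lit 532543) (nat_lit 10) (.e (nat_lit 344090) (nat_lit 18) (.e (nat_lit 4829) (nat_lit 281) (.e (nat_lit 2543) (nat_lit 158) .nil)))))))) (.g (nat_lit 5) .nil .nil))))) (.nd (nat_lit 4) (.nd (nat_lit 5) 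
(.lf (nat_lit 130504) (.g (nat_lit 3244) (.e (nat_lit 8326) (nat_lit 69) (.e (nat_lit 557100) (nat_lit 13) (.e (nat_lit 172106) (nat_lit 10) (.e (nat_lit 434231) (nat_lit 23) (.e (nat_lit 532490) (nat_lit 0) (.e (nat_lit 6114) (nat_lit 332) (.e (nat_lit 970) (nat_lit 81) (.e (nat_lit 5741) (nat_lit 313) .nil)))))))) (.g (nat_lit 5) .nil .nil))) 
(.lf (nat_lit 130536) (.g (nat_lit 2477) (.e (nat_lit 8326) (nat_lit 69) (.e (nat_lit 557100) (nat_lit 13) (.e (nat_lit 172106) (nat_lit 10) (.e (nat_lit 434231) (nat_lit 23) (.e (nat_lit 532535) (nat_lit 9) (.e (nat_lit 335925) (nat_lit 0) (.e (nat_lit 1013) (nat_lit 81) (.e (nat_lit 4824) (nat_lit 281) (.e (nat_lit 2544) (nat_lit 158) .nil))))))))) (.g (nat_lit 5) .nil .nil)))) (.nd (nat_lit 5) 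
(.lf (nat_lit 130520) (.g (nat_lit 2178) (.e (nat_lit 8326) (nat_lit 69) (.e (nat_lit 557100) (nat_lit 13) (.e (nat_lit 172106) (nat_lit 10) (.e (nat_lit 434231) (nat_lit 23) (.e (nat_lit 532526) (nat_lit 8) .nil))))) .nil)) 
(.lf (nat_lit 130552) (.g (nat_lit 3073) (.e (nat_lit 8326) (nat_lit 69) (.e (nat_lit 557100) (nat_lit 13) (.e (nat_lit 172106) (nat_lit 10) (.e (nat_lit 434231) (nat_lit 23) (.e (nat_lit 532543) (nat_lit 10) (.e (nat_lit 344096) (nat_lit 18) (.e (nat_lit 4764) (nat_lit 281) (.e (nat_lit 2544) (nat_lit 158) .nil)))))))) (.g (nat_lit 6) .nil .nil)))))) 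
(.nd (nat_lit 3) (.nd (nat_lit 4) (.nd (nat_lit 5) 
(.lf (nat_lit 130500) (.g (nat_lit 2599) (.e (nat_lit 8326) (nat_lit 69) (.e (nat_lit 557100) (nat_lit 13) (.e (nat_lit 172106) (nat_lit 10) (.e (nat_lit 434231) (nat_lit 23) (.e (nat_lit 532486) (nat_lit 0) (.e (nat_lit 6113) (nat_lit 332) (.e (nat_lit 975) (nat_lit 81) (.e (nat_lit 5740) (nat_lit 313) .nil)))))))) (.g (nat_lit 4) .nil .nil))) 
(.lf (nat_lit 130532) (.g (nat_lit 2046) (.e (nat_lit 8326) (nat_lit 69) (.e (nat_lit 557100) (nat_lit 13) (.e (nat_lit 172106) (nat_lit 10) (.e (nat_lit 434231) (nat_lit 23) (.e (nat_lit 532535) (nat_lit 9) (.e (nat_lit 335925) (nat_lit 0) (.e (nat_lit 1012) (nat_lit 81) (.e (nat_lit 4824) (nat_lit 281) (.e (nat_lit 2543) (nat_lit 158) .nil))))))))) (.g (nat_lit 5) .nil .nil)))) (.nd (nat_lit 5) 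
(.lf (nat_lit 130516) (.g (nat_lit 3593) (.e (nat_lit 8326) (nat_lit 69) (.e (nat_lit 557100) (nat_lit 13) (.e (nat_lit 172106) (nat_lit 10) (.e (nat_lit 434231) (nat_lit 23) (.e (nat_lit 532490) (nat_lit 0) (.e (nat_lit 6114) (nat_lit 332) (.e (nat_lit 1083) (nat_lit 81) (.e (nat_lit 5740) (nat_lit 313) .nil)))))))) (.g (nat_lit 5) .nil .nil))) 
(.lf (nat_lit 130548) (.g (nat_lit 2455) (.e (nat_lit 8326) (nat_lit 69) (.e (nat_lit 557100) (nat_lit 13) (.e (nat_lit 172106) (nat_lit 10) (.e (nat_lit 434231) (nat_lit 23) (.e (nat_lit 532543) (nat_lit 10) (.e (nat_lit 344091) (nat_lit 18) (.e (nat_lit 4829) (nat_lit 281) (.e (nat_lit 2540) (nat_lit 158) .nil)))))))) (.g (nat_lit 5) .nil .nil))))) (.nd (nat_lit 4) (.nd (nat_lit 5) 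
(.lf (nat_lit 130508) (.g (nat_lit 2835) (.e (nat_lit 8326) (nat_lit 69) (.e (nat_lit 557100) (nat_lit 13) (.e (nat_lit 172106) (nat_lit 10) (.e (nat_lit 434231) (nat_lit 23) (.e (nat_lit 532490) (nat_lit 0) (.e (nat_lit 6114) (nat_lit 332) (.e (nat_lit 972) (nat_lit 81) (.e (nat_lit 5743) (nat_lit 313) .nil)))))))) (.g (nat_lit 4) .nil .nil))) 
(.lf (nat_lit 130540) (.g (nat_lit 2469) (.e (nat_lit 8326) (nat_lit 69) (.e (nat_lit 557100) (nat_lit 13) (.e (nat_lit 172106) (nat_lit 10) (.e (nat_lit 434231) (nat_lit 23) (.e (nat_lit 532535) (nat_lit 9) (.e (nat_lit 335992) (nat_lit 1) (.e (nat_lit 57781) (nat_lit 239) (.e (nat_lit 2543) (nat_lit 158) .nil)))))))) (.g (nat_lit 5) .nil .nil)))) (.nd (nat_lit 5) 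
(.lf (nat_lit 130524) (.g (nat_lit 2462) (.e (nat_lit 8326) (nat_lit 69) (.e (nat_lit 557100) (nat_lit 13) (.e (nat_lit 172106) (nat_lit 10) (.e (nat_lit 434231) (nat_lit 23) (.e (nat_lit 532535) (nat_lit 9) (.e (nat_lit 335925) (nat_lit 0) (.e (nat_lit 993) (nat_lit 81) (.e (nat_lit 4829) (nat_lit 281) (.e (nat_lit 2544) (nat_lit 158) .nil))))))))) (.g (nat_lit 5) .nil .nil))) 
(.lf (nat_lit 130556) (.g (nat_lit 2429) (.e (nat_lit 8326) (nat_lit 69) (.e (nat_lit 557100) (nat_lit 13) (.e (nat_lit 172106) (nat_lit 10) (.e (nat_lit 434231) (nat_lit 23) (.e (nat_lit 532543) (nat_lit 10) (.e (nat_lit 344097) (nat_lit 18) (.e (nat_lit 4826) (nat_lit 281) (.e (nat_lit 2544) (nat_lit 158) .nil)))))))) (.g (nat_lit 6) .nil .nil))))))) 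
(.nd (nat_lit 2) (.nd (nat_lit 3) (.nd (nat_lit 4) (.nd (nat_lit 5) 
(.lf (nat_lit 130498) (.g (nat_lit 2089) (.e (nat_lit 8326) (nat_lit 69) (.e (nat_lit 557100) (nat_lit 13) (.e (nat_lit 172106) (nat_lit 10) (.e (nat_lit 434231) (nat_lit 23) (.e (nat_lit 532483) (nat_lit 0) (.e (nat_lit 6198) (nat_lit 332) (.e (nat_lit 1060) (nat_lit 81) (.e (nat_lit 5740) (nat_lit 313) .nil)))))))) (.g (nat_lit 4) .nil .nil))) 
(.lf (nat_lit 130530) (.g (nat_lit 2408) (.e (nat_lit 8326) (nat_lit 69) (.e (nat_lit 557100) (nat_lit 13) (.e (nat_lit 172106) (nat_lit 10) (.e (nat_lit 434231) (nat_lit 23) (.e (nat_lit 532535) (nat_lit 9) (.e (nat_lit 335925) (nat_lit 0) (.e (nat_lit 1008) (nat_lit 81) (.e (nat_lit 4824) (nat_lit 281) (.e (nat_lit 2544) (nat_lit 158) .nil))))))))) (.g (nat_lit 5) .nil .nil)))) (.nd (nat_lit 5) 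
(.lf (nat_lit 130514) (.g (nat_lit 2947) (.e (nat_lit 8326) (nat_lit 69) (.e (nat_lit 557100) (nat_lit 13) (.e (nat_lit 172106) (nat_lit 10) (.e (nat_lit 434231) (nat_lit 23) (.e (nat_lit 532490) (nat_lit 0) (.e (nat_lit 6114) (nat_lit 332) (.e (nat_lit 1076) (nat_lit 81) (.e (nat_lit 5740) (nat_lit 313) .nil)))))))) (.g (nat_lit 4) .nil .nil))) 
(.lf (nat_lit 130546) (.g (nat_lit 2221) (.e (nat_lit 8326) (nat_lit 69) (.e (nat_lit 557100) (nat_lit 13) (.e (nat_lit 172106) (nat_lit 10) (.e (nat_lit 434231) (nat_lit 23) (.e (nat_lit 532543) (nat_lit 10) (.e (nat_lit 344090) (nat_lit 18) (.e (nat_lit 4830) (nat_lit 281) (.e (nat_lit 2543) (nat_lit 158) .nil)))))))) (.g (nat_lit 5) .nil .nil))))) (.nd (nat_lit 4) (.nd (nat_lit 5) 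
(.lf (nat_lit 130506) (.g (nat_lit 3345) (.e (nat_lit 8326) (nat_lit 69) (.e (nat_lit 557100) (nat_lit 13) (.e (nat_lit 172106) (nat_lit 10) (.e (nat_lit 434231) (nat_lit 23) (.e (nat_lit 532490) (nat_lit 0) (.e (nat_lit 6114) (nat_lit 332) (.e (nat_lit 972) (nat_lit 81) (.e (nat_lit 5740) (nat_lit 313) .nil)))))))) (.g (nat_lit 5) .nil .nil))) 
(.lf (nat_lit 130538) (.g (nat_lit 2168) (.e (nat_lit 8326) (nat_lit 69) (.e (nat_lit 557100) (nat_lit 13) (.e (nat_lit 172106) (nat_lit 10) (.e (nat_lit 434231) (nat_lit 23) (.e (nat_lit 532535) (nat_lit 9) (.e (nat_lit 335925) (nat_lit 0) (.e (nat_lit 1014) (nat_lit 81) (.e (nat_lit 4824) (nat_lit 281) (.e (nat_lit 2543) (nat_lit 158) .nil))))))))) (.g (nat_lit 5) .nil .nil)))) (.nd (nat_lit 5) 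
(.lf (nat_lit 130522) (.g (nat_lit 2956) (.e (nat_lit 8326) (nat_lit 69) (.e (nat_lit 557100) (nat_lit 13) (.e (nat_lit 172106) (nat_lit 10) (.e (nat_lit 434231) (nat_lit 23) (.e (nat_lit 532535) (nat_lit 9) (.e (nat_lit 335925) (nat_lit 0) (.e (nat_lit 993) (nat_lit 81) (.e (nat_lit 4829) (nat_lit 281) (.e (nat_lit 2540) (nat_lit 158) .nil))))))))) (.g (nat_lit 5) .nil .nil))) 
(.lf (nat_lit 130554) (.g (nat_lit 3449) (.e (nat_lit 8326) (nat_lit 69) (.e (nat_lit 557100) (nat_lit 13) (.e (nat_lit 172106) (nat_lit 10) (.e (nat_lit 434231) (nat_lit 23) (.e (nat_lit 532543) (nat_lit 10) (.e (nat_lit 344096) (nat_lit 18) (.e (nat_lit 4764) (nat_lit 281) (.e (nat_lit 2546) (nat_lit 158) .nil)))))))) (.g (nat_lit 7) .nil .nil)))))) 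
(.nd (nat_lit 3) (.nd (nat_lit 4) (.nd (nat_lit 5) 
(.lf (nat_lit 130502) (.g (nat_lit 2506) (.e (nat_lit 8326) (nat_lit 69) (.e (nat_lit 557100) (nat_lit 13) (.e (nat_lit 172106) (nat_lit 10) (.e (nat_lit 434231) (nat_lit 23) (.e (nat_lit 532490) (nat_lit 0) (.e (nat_lit 6114) (nat_lit 332) (.e (nat_lit 968) (nat_lit 81) (.e (nat_lit 5740) (nat_lit 313) .nil)))))))) (.g (nat_lit 4) .nil .nil))) 
(.lf (nat_lit 130534) (.g (nat_lit 2648) (.e (nat_lit 8326) (nat_lit 69) (.e (nat_lit 557100) (nat_lit 13) (.e (nat_lit 172106) (nat_lit 10) (.e (nat_lit 434231) (nat_lit 23) (.e (nat_lit 532535) (nat_lit 9) (.e (nat_lit 335925) (nat_lit 0) (.e (nat_lit 1013) (nat_lit 81) (.e (nat_lit 4824) (nat_lit 281) (.e (nat_lit 2540) (nat_lit 158) .nil))))))))) (.g (nat_lit 5) .nil .nil)))) (.nd (nat_lit 5) 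
(.lf (nat_lit 130518) (.g (nat_lit 2720) (.e (nat_lit 8326) (nat_lit 69) (.e (nat_lit 557100) (nat_lit 13) (.e (nat_lit 172106) (nat_lit 10) (.e (nat_lit 434231) (nat_lit 23) (.e (nat_lit 532490) (nat_lit 0) (.e (nat_lit 6114) (nat_lit 332) (.e (nat_lit 1107) (nat_lit 81) (.e (nat_lit 5740) (nat_lit 313) .nil)))))))) (.g (nat_lit 4) .nil .nil))) 
(.lf (nat_lit 130550) (.g (nat_lit 3237) (.e (nat_lit 8326) (nat_lit 69) (.e (nat_lit 557100) (nat_lit 13) (.e (nat_lit 172106) (nat_lit 10) (.e (nat_lit 434231) (nat_lit 23) (.e (nat_lit 532543) (nat_lit 10) (.e (nat_lit 344096) (nat_lit 18) (.e (nat_lit 4764) (nat_lit 281) (.e (nat_lit 2540) (nat_lit 158) .nil)))))))) (.g (nat_lit 6) .nil .nil))))) (.nd (nat_lit 4) (.nd (nat_lit 5) 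
(.lf (nat_lit 130510) (.g (nat_lit 3891) (.e (nat_lit 8326) (nat_lit 69) (.e (nat_lit 557100) (nat_lit 13) (.e (nat_lit 172106) (nat_lit 10) (.e (nat_lit 434231) (nat_lit 23) (.e (nat_lit 532490) (nat_lit 0) (.e (nat_lit 6114) (nat_lit 332) (.e (nat_lit 973) (nat_lit 81) (.e (nat_lit 5743) (nat_lit 313) .nil)))))))) (.g (nat_lit 6) .nil .nil))) 
(.lf (nat_lit 130542) (.g (nat_lit 3539) (.e (nat_lit 8326) (nat_lit 69) (.e (nat_lit 557100) (nat_lit 13) (.e (nat_lit 172106) (nat_lit 10) (.e (nat_lit 434231) (nat_lit 23) (.e (nat_lit 532535) (nat_lit 9) (.e (nat_lit 336295) (nat_lit 15) (.e (nat_lit 2443) (nat_lit 157) (.e (nat_lit 6919) (nat_lit 371) (.e (nat_lit 2543) (nat_lit 158) .nil))))))))) (.g (nat_lit 6) .nil .nil)))) 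
(.nd (nat_lit 5) 
(.lf (nat_lit 130526) (.g (nat_lit 2189) (.e (nat_lit 8326) (nat_lit 69) (.e (nat_lit 557100) (nat_lit 13) (.e (nat_lit 172106) (nat_lit 10) (.e (nat_lit 434231) (nat_lit 23) (.e (nat_lit 532535) (nat_lit 9) (.e (nat_lit 335925) (nat_lit 0) (.e (nat_lit 994) (nat_lit 81) (.e (nat_lit 4824) (nat_lit 281) (.e (nat_lit 2543) (nat_lit 158) .nil))))))))) (.g (nat_lit 5) .nil .nil))) 
(.lf (nat_lit 130558) (.g (nat_lit 2187) (.e (nat_lit 8326) (nat_lit 69) (.e (nat_lit 557100) (nat_lit 13) (.e (nat_lit 172106) (nat_lit 10) (.e (nat_lit 434231) (nat_lit 23) (.e (nat_lit 532543) (nat_lit 10) (.e (nat_lit 344098) (nat_lit 18) (.e (nat_lit 4826) (nat_lit 281) (.e (nat_lit 2544) (nat_lit 158) .nil)))))))) (.g (nat_lit 5) .nil .nil)))))))) 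
(.nd (nat_lit 1) (.nd (nat_lit 2) (.nd (nat_lit 3) (.nd (nat_lit 4) (.nd (nat_lit 5) 
(.lf (nat_lit 130497) (.g (nat_lit 2094) (.e (nat_lit 8326) (nat_lit 69) (.e (nat_lit 557100) (nat_lit 13) (.e (nat_lit 172106) (nat_lit 10) (.e (nat_lit 434231) (nat_lit 23) (.e (nat_lit 532483) (nat_lit 0) (.e (nat_lit 6198) (nat_lit 332) (.e (nat_lit 1057) (nat_lit 81) (.e (nat_lit 5740) (nat_lit 313) .nil)))))))) (.g (nat_lit 4) .nil .nil))) 
(.lf (nat_lit 130529) (.g (nat_lit 2037) (.e (nat_lit 8326) (nat_lit 69) (.e (nat_lit 557100) (nat_lit 13) (.e (nat_lit 172106) (nat_lit 10) (.e (nat_lit 434231) (nat_lit 23) (.e (nat_lit 532535) (nat_lit 9) (.e (nat_lit 335925) (nat_lit 0) (.e (nat_lit 1008) (nat_lit 81) (.e (nat_lit 4824) (nat_lit 281) (.e (nat_lit 2543) (nat_lit 158) .nil))))))))) (.g (nat_lit 5) .nil .nil)))) (.nd (nat_lit 5) 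
(.lf (nat_lit 130513) (.g (nat_lit 3510) (.e (nat_lit 8326) (nat_lit 69) (.e (nat_lit 557100) (nat_lit 13) (.e (nat_lit 172106) (nat_lit 10) (.e (nat_lit 434231) (nat_lit 23) (.e (nat_lit 532490) (nat_lit 0) (.e (nat_lit 6114) (nat_lit 332) (.e (nat_lit 1055) (nat_lit 81) (.e (nat_lit 5740) (nat_lit 313) .nil)))))))) (.g (nat_lit 5) .nil .nil))) 
(.lf (nat_lit 130545) (.g (nat_lit 2335) (.e (nat_lit 8326) (nat_lit 69) (.e (nat_lit 557100) (nat_lit 13) (.e (nat_lit 172106) (nat_lit 10) (.e (nat_lit 434231) (nat_lit 23) (.e (nat_lit 532543) (nat_lit 10) (.e (nat_lit 344090) (nat_lit 18) (.e (nat_lit 4829) (nat_lit 281) (.e (nat_lit 2544) (nat_lit 158) .nil)))))))) (.g (nat_lit 5) .nil .nil))))) (.nd (nat_lit 4) (.nd (nat_lit 5) 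
(.lf (nat_lit 130505) (.g (nat_lit 2435) (.e (nat_lit 8326) (nat_lit 69) (.e (nat_lit 557100) (nat_lit 13) (.e (nat_lit 172106) (nat_lit 10) (.e (nat_lit 434231) (nat_lit 23) (.e (nat_lit 532490) (nat_lit 0) (.e (nat_lit 6114) (nat_lit 332) (.e (nat_lit 970) (nat_lit 81) (.e (nat_lit 5743) (nat_lit 313) .nil)))))))) (.g (nat_lit 4) .nil .nil))) 
(.lf (nat_lit 130537) (.g (nat_lit 2710) (.e (nat_lit 8326) (nat_lit 69) (.e (nat_lit 557100) (nat_lit 13) (.e (nat_lit 172106) (nat_lit 10) (.e (nat_lit 434231) (nat_lit 23) (.e (nat_lit 532535) (nat_lit 9) (.e (nat_lit 335925) (nat_lit 0) (.e (nat_lit 1014) (nat_lit 81) (.e (nat_lit 4824) (nat_lit 281) (.e (nat_lit 2540) (nat_lit 158) .nil))))))))) (.g (nat_lit 5) .nil .nil)))) (.nd (nat_lit 5) 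
(.lf (nat_lit 130521) (.g (nat_lit 2721) (.e (nat_lit 8326) (nat_lit 69) (.e (nat_lit 557100) (nat_lit 13) (.e (nat_lit 172106) (nat_lit 10) (.e (nat_lit 434231) (nat_lit 23) (.e (nat_lit 532526) (nat_lit 8) (.e (nat_lit 327709) (nat_lit 10) (.e (nat_lit 5740) (nat_lit 313) .nil))))))) (.g (nat_lit 4) .nil .nil))) 
(.lf (nat_lit 130553) (.g (nat_lit 3557) (.e (nat_lit 8326) (nat_lit 69) (.e (nat_lit 557100) (nat_lit 13) (.e (nat_lit 172106) (nat_lit 10) (.e (nat_lit 434231) (nat_lit 23) (.e (nat_lit 532543) (nat_lit 10) (.e (nat_lit 344096) (nat_lit 18) (.e (nat_lit 4764) (nat_lit 281) (.e (nat_lit 2545) (nat_lit 158) .nil)))))))) (.g (nat_lit 7) .nil .nil)))))) 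
(.nd (nat_lit 3) (.nd (nat_lit 4) (.nd (nat_lit 5) 
(.lf (nat_lit 130501) (.g (nat_lit 2118) (.e (nat_lit 8326) (nat_lit 69) (.e (nat_lit 557100) (nat_lit 13) (.e (nat_lit 172106) (nat_lit 10) (.e (nat_lit 434231) (nat_lit 23) (.e (nat_lit 532490) (nat_lit 0) .nil))))) .nil)) 
(.lf (nat_lit 130533) (.g (nat_lit 2417) (.e (nat_lit 8326) (nat_lit 69) (.e (nat_lit 557100) (nat_lit 13) (.e (nat_lit 172106) (nat_lit 10) (.e (nat_lit 434231) (nat_lit 23) (.e (nat_lit 532535) (nat_lit 9) (.e (nat_lit 335925) (nat_lit 0) (.e (nat_lit 1012) (nat_lit 81) (.e (nat_lit 4824) (nat_lit 281) (.e (nat_lit 2544) (nat_lit 158) .nil))))))))) (.g (nat_lit 5) .nil .nil)))) (.nd (nat_lit 5) 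
(.lf (nat_lit 130517) (.g (nat_lit 3414) (.e (nat_lit 8326) (nat_lit 69) (.e (nat_lit 557100) (nat_lit 13) (.e (nat_lit 172106) (nat_lit 10) (.e (nat_lit 434231) (nat_lit 23) (.e (nat_lit 532490) (nat_lit 0) (.e (nat_lit 6114) (nat_lit 332) (.e (nat_lit 1085) (nat_lit 81) (.e (nat_lit 5740) (nat_lit 313) .nil)))))))) (.g (nat_lit 5) .nil .nil))) 
(.lf (nat_lit 130549) (.g (nat_lit 2012) (.e (nat_lit 8326) (nat_lit 69) (.e (nat_lit 557100) (nat_lit 13) (.e (nat_lit 172106) (nat_lit 10) (.e (nat_lit 434231) (nat_lit 23) (.e (nat_lit 532543) (nat_lit 10) (.e (nat_lit 344096) (nat_lit 18) (.e (nat_lit 4761) (nat_lit 281) (.e (nat_lit 2538) (nat_lit 158) .nil)))))))) (.g (nat_lit 5) .nil .nil))))) (.nd (nat_lit 4) (.nd (nat_lit 5) 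
(.lf (nat_lit 130509) (.g (nat_lit 3881) (.e (nat_lit 8326) (nat_lit 69) (.e (nat_lit 557100) (nat_lit 13) (.e (nat_lit 172106) (nat_lit 10) (.e (nat_lit 434231) (nat_lit 23) (.e (nat_lit 532490) (nat_lit 0) (.e (nat_lit 6114) (nat_lit 332) (.e (nat_lit 973) (nat_lit 81) (.e (nat_lit 5740) (nat_lit 313) .nil)))))))) (.g (nat_lit 6) .nil .nil))) 
(.lf (nat_lit 130541) (.g (nat_lit 2637) (.e (nat_lit 8326) (nat_lit 69) (.e (nat_lit 557100) (nat_lit 13) (.e (nat_lit 172106) (nat_lit 10) (.e (nat_lit 434231) (nat_lit 23) (.e (nat_lit 532535) (nat_lit 9) (.e (nat_lit 335992) (nat_lit 1) (.e (nat_lit 57781) (nat_lit 239) (.e (nat_lit 2544) (nat_lit 158) .nil)))))))) (.g (nat_lit 5) .nil .nil)))) (.nd (nat_lit 5) 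
(.lf (nat_lit 130525) (.g (nat_lit 2731) (.e (nat_lit 8326) (nat_lit 69) (.e (nat_lit 557100) (nat_lit 13) (.e (nat_lit 172106) (nat_lit 10) (.e (nat_lit 434231) (nat_lit 23) (.e (nat_lit 532535) (nat_lit 9) (.e (nat_lit 335925) (nat_lit 0) (.e (nat_lit 994) (nat_lit 81) (.e (nat_lit 4824) (nat_lit 281) (.e (nat_lit 2540) (nat_lit 158) .nil))))))))) (.g (nat_lit 5) .nil .nil))) 
(.lf (nat_lit 130557) (.g (nat_lit 2475) (.e (nat_lit 8326) (nat_lit 69) (.e (nat_lit 557100) (nat_lit 13) (.e (nat_lit 172106) (nat_lit 10) (.e (nat_lit 434231) (nat_lit 23) (.e (nat_lit 532543) (nat_lit 10) (.e (nat_lit 344098) (nat_lit 18) (.e (nat_lit 4826) (nat_lit 281) (.e (nat_lit 2540) (nat_lit 158) .nil)))))))) (.g (nat_lit 5) .nil .nil))))))) 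
(.nd (nat_lit 2) (.nd (nat_lit 3) (.nd (nat_lit 4) (.nd (nat_lit 5) 
(.lf (nat_lit 130499) (.g (nat_lit 2231) (.e (nat_lit 8326) (nat_lit 69) (.e (nat_lit 557100) (nat_lit 13) (.e (nat_lit 172106) (nat_lit 10) (.e (nat_lit 434231) (nat_lit 23) (.e (nat_lit 532486) (nat_lit 0) .nil))))) .nil)) 
(.lf (nat_lit 130531) (.g (nat_lit 2588) (.e (nat_lit 8326) (nat_lit 69) (.e (nat_lit 557100) (nat_lit 13) (.e (nat_lit 172106) (nat_lit 10) (.e (nat_lit 434231) (nat_lit 23) (.e (nat_lit 532535) (nat_lit 9) (.e (nat_lit 335925) (nat_lit 0) (.e (nat_lit 1012) (nat_lit 81) (.e (nat_lit 4824) (nat_lit 281) (.e (nat_lit 2540) (nat_lit 158) .nil))))))))) (.g (nat_lit 5) .nil .nil)))) (.nd (nat_lit 5) 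
(.lf (nat_lit 130515) (.g (nat_lit 3954) (.e (nat_lit 8326) (nat_lit 69) (.e (nat_lit 557100) (nat_lit 13) (.e (nat_lit 172106) (nat_lit 10) (.e (nat_lit 434231) (nat_lit 23) (.e (nat_lit 532490) (nat_lit 0) (.e (nat_lit 6114) (nat_lit 332) (.e (nat_lit 1082) (nat_lit 81) (.e (nat_lit 5740) (nat_lit 313) .nil)))))))) (.g (nat_lit 6) .nil .nil))) 
(.lf (nat_lit 130547) (.g (nat_lit 2737) (.e (nat_lit 8326) (nat_lit 69) (.e (nat_lit 557100) (nat_lit 13) (.e (nat_lit 172106) (nat_lit 10) (.e (nat_lit 434231) (nat_lit 23) (.e (nat_lit 532543) (nat_lit 10) (.e (nat_lit 344090) (nat_lit 18) (.e (nat_lit 4830) (nat_lit 281) (.e (nat_lit 2544) (nat_lit 158) .nil)))))))) (.g (nat_lit 6) .nil .nil))))) (.nd (nat_lit 4) (.nd (nat_lit 5) 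
(.lf (nat_lit 130507) (.g (nat_lit 4056) (.e (nat_lit 8326) (nat_lit 69) (.e (nat_lit 557100) (nat_lit 13) (.e (nat_lit 172106) (nat_lit 10) (.e (nat_lit 434231) (nat_lit 23) (.e (nat_lit 532490) (nat_lit 0) (.e (nat_lit 6114) (nat_lit 332) (.e (nat_lit 972) (nat_lit 81) (.e (nat_lit 5741) (nat_lit 313) .nil)))))))) (.g (nat_lit 6) .nil .nil))) 
(.lf (nat_lit 130539) (.g (nat_lit 2539) (.e (nat_lit 8326) (nat_lit 69) (.e (nat_lit 557100) (nat_lit 13) (.e (nat_lit 172106) (nat_lit 10) (.e (nat_lit 434231) (nat_lit 23) (.e (nat_lit 532535) (nat_lit 9) (.e (nat_lit 335925) (nat_lit 0) (.e (nat_lit 1014) (nat_lit 81) (.e (nat_lit 4824) (nat_lit 281) (.e (nat_lit 2544) (nat_lit 158) .nil))))))))) (.g (nat_lit 5) .nil .nil)))) (.nd (nat_lit 5) 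
(.lf (nat_lit 130523) (.g (nat_lit 2146) (.e (nat_lit 8326) (nat_lit 69) (.e (nat_lit 557100) (nat_lit 13) (.e (nat_lit 172106) (nat_lit 10) (.e (nat_lit 434231) (nat_lit 23) (.e (nat_lit 532535) (nat_lit 9) (.e (nat_lit 335925) (nat_lit 0) (.e (nat_lit 993) (nat_lit 81) (.e (nat_lit 4829) (nat_lit 281) (.e (nat_lit 2543) (nat_lit 158) .nil))))))))) (.g (nat_lit 5) .nil .nil))) 
(.lf (nat_lit 130555) (.g (nat_lit 2717) (.e (nat_lit 8326) (nat_lit 69) (.e (nat_lit 557100) (nat_lit 13) (.e (nat_lit 172106) (nat_lit 10) (.e (nat_lit 434231) (nat_lit 23) (.e (nat_lit 532543) (nat_lit 10) (.e (nat_lit 344097) (nat_lit 18) (.e (nat_lit 4826) (nat_lit 281) (.e (nat_lit 2540) (nat_lit 158) .nil)))))))) (.g (nat_lit 6) .nil .nil)))))) 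
(.nd (nat_lit 3) (.nd (nat_lit 4) (.nd (nat_lit 5) 
(.lf (nat_lit 130503) (.g (nat_lit 3462) (.e (nat_lit 8326) (nat_lit 69) (.e (nat_lit 557100) (nat_lit 13) (.e (nat_lit 172106) (nat_lit 10) (.e (nat_lit 434231) (nat_lit 23) (.e (nat_lit 532490) (nat_lit 0) (.e (nat_lit 6114) (nat_lit 332) (.e (nat_lit 968) (nat_lit 81) (.e (nat_lit 5741) (nat_lit 313) .nil)))))))) (.g (nat_lit 5) .nil .nil))) 
(.lf (nat_lit 130535) (.g (nat_lit 2106) (.e (nat_lit 8326) (nat_lit 69) (.e (nat_lit 557100) (nat_lit 13) (.e (nat_lit 172106) (nat_lit 10) (.e (nat_lit 434231) (nat_lit 23) (.e (nat_lit 532535) (nat_lit 9) (.e (nat_lit 335925) (nat_lit 0) (.e (nat_lit 1013) (nat_lit 81) (.e (nat_lit 4824) (nat_lit 281) (.e (nat_lit 2543) (nat_lit 158) .nil))))))))) (.g (nat_lit 5) .nil .nil)))) (.nd (nat_lit 5) 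
(.lf (nat_lit 130519) (.g (nat_lit 3344) (.e (nat_lit 8326) (nat_lit 69) (.e (nat_lit 557100) (nat_lit 13) (.e (nat_lit 172106) (nat_lit 10) (.e (nat_lit 434231) (nat_lit 23) (.e (nat_lit 532490) (nat_lit 0) (.e (nat_lit 6223) (nat_lit 334) (.e (nat_lit 123174) (nat_lit 257) .nil))))))) (.g (nat_lit 5) .nil .nil))) 
(.lf (nat_lit 130551) (.g (nat_lit 2841) (.e (nat_lit 8326) (nat_lit 69) (.e (nat_lit 557100) (nat_lit 13) (.e (nat_lit 172106) (nat_lit 10) (.e (nat_lit 434231) (nat_lit 23) (.e (nat_lit 532543) (nat_lit 10) (.e (nat_lit 344096) (nat_lit 18) (.e (nat_lit 4764) (nat_lit 281) (.e (nat_lit 2543) (nat_lit 158) .nil)))))))) (.g (nat_lit 6) .nil .nil))))) (.nd (nat_lit 4) (.nd (nat_lit 5) 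
(.lf (nat_lit 130511) (.g (nat_lit 2155) (.e (nat_lit 8326) (nat_lit 69) (.e (nat_lit 557100) (nat_lit 13) (.e (nat_lit 172106) (nat_lit 10) (.e (nat_lit 434231) (nat_lit 23) (.e (nat_lit 532490) (nat_lit 0) (.e (nat_lit 6114) (nat_lit 332) (.e (nat_lit 973) (nat_lit 81) (.e (nat_lit 7936) (nat_lit 313) .nil)))))))) (.g (nat_lit 4) .nil .nil))) 
(.lf (nat_lit 130543) (.g (nat_lit 3622) (.e (nat_lit 8326) (nat_lit 69) (.e (nat_lit 557100) (nat_lit 13) (.e (nat_lit 172106) (nat_lit 10) (.e (nat_lit 434231) (nat_lit 23) (.e (nat_lit 532535) (nat_lit 9) (.e (nat_lit 336295) (nat_lit 15) (.e (nat_lit 2443) (nat_lit 157) (.e (nat_lit 6919) (nat_lit 371) (.e (nat_lit 2544) (nat_lit 158) .nil))))))))) (.g (nat_lit 6) .nil .nil)))) 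
(.nd (nat_lit 5) 
(.lf (nat_lit 130527) (.g (nat_lit 2560) (.e (nat_lit 8326) (nat_lit 69) (.e (nat_lit 557100) (nat_lit 13) (.e (nat_lit 172106) (nat_lit 10) (.e (nat_lit 434231) (nat_lit 23) (.e (nat_lit 532535) (nat_lit 9) (.e (nat_lit 335925) (nat_lit 0) (.e (nat_lit 994) (nat_lit 81) (.e (nat_lit 4824) (nat_lit 281) (.e (nat_lit 2544) (nat_lit 158) .nil))))))))) (.g (nat_lit 5) .nil .nil))) 
(.lf (nat_lit 130559) (.g (nat_lit 2226) (.e (nat_lit 8326) (nat_lit 69) (.e (nat_lit 557100) (nat_lit 13) (.e (nat_lit 172106) (nat_lit 10) (.e (nat_lit 434231) (nat_lit 23) (.e (nat_lit 532543) (nat_lit 10) (.e (nat_lit 344098) (nat_lit 18) (.e (nat_lit 4827) (nat_lit 281) (.e (nat_lit 2544) (nat_lit 158) .nil)))))))) (.g (nat_lit 5) .nil .nil)))))))))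

noncomputable def tv1741 : DT := (.nd (nat_lit 0) (.nd (nat_lit 1) (.nd (nat_lit 2) (.nd (nat_lit 3) (.nd (nat_lit 4) (.nd (nat_lit 5) 
(.lf (nat_lit 130560) (.g (nat_lit 2282) (.e (nat_lit 8326) (nat_lit 69) (.e (nat_lit 557100) (nat_lit 13) (.e (nat_lit 172106) (nat_lit 10) (.e (nat_lit 434231) (nat_lit 23) (.e (nat_lit 532544) (nat_lit 10) (.e (nat_lit 344088) (nat_lit 18) (.e (nat_lit 4829) (nat_lit 281) (.e (nat_lit 2540) (nat_lit 158) .nil)))))))) (.g (nat_lit 4) .nil .nil))) 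
(.lf (nat_lit 130592) (.g (nat_lit 2093) (.e (nat_lit 8326) (nat_lit 69) (.e (nat_lit 557100) (nat_lit 13) (.e (nat_lit 172106) (nat_lit 10) (.e (nat_lit 434231) (nat_lit 23) (.e (nat_lit 532544) (nat_lit 10) (.e (nat_lit 344097) (nat_lit 18) (.e (nat_lit 4827) (nat_lit 281) (.e (nat_lit 2543) (nat_lit 158) .nil)))))))) (.g (nat_lit 4) .nil .nil)))) (.nd (nat_lit 5) 
(.lf (nat_lit 130576) (.g (nat_lit 2730) (.e (nat_lit 8326) (nat_lit 69) (.e (nat_lit 557100) (nat_lit 13) (.e (nat_lit 172106) (nat_lit 10) (.e (nat_lit 434231) (nat_lit 23) (.e (nat_lit 532544) (nat_lit 10) (.e (nat_lit 344092) (nat_lit 18) (.e (nat_lit 4824) (nat_lit 281) (.e (nat_lit 2544) (nat_lit 158) .nil)))))))) (.g (nat_lit 5) .nil .nil))) 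
(.lf (nat_lit 130608) (.g (nat_lit 2087) (.e (nat_lit 8326) (nat_lit 69) (.e (nat_lit 557100) (nat_lit 13) (.e (nat_lit 172106) (nat_lit 10) (.e (nat_lit 434231) (nat_lit 23) (.e (nat_lit 532564) (nat_lit 15) .nil))))) .nil)))) (.nd (nat_lit 4) (.nd (nat_lit 5) 
(.lf (nat_lit 130568) (.g (nat_lit 2579) (.e (nat_lit 8326) (nat_lit 69) (.e (nat_lit 557100) (nat_lit 13) (.e (nat_lit 172106) (nat_lit 10) (.e (nat_lit 434231) (nat_lit 23) (.e (nat_lit 532544) (nat_lit 10) (.e (nat_lit 344091) (nat_lit 18) (.e (nat_lit 4823) (nat_lit 281) (.e (nat_lit 2543) (nat_lit 158) .nil)))))))) (.g (nat_lit 5) .nil .nil))) 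
(.lf (nat_lit 130600) (.g (nat_lit 2497) (.e (nat_lit 8326) (nat_lit 69) (.e (nat_lit 557100) (nat_lit 13) (.e (nat_lit 172106) (nat_lit 10) (.e (nat_lit 434231) (nat_lit 23) (.e (nat_lit 532554) (nat_lit 13) (.e (nat_lit 368662) (nat_lit 18) (.e (nat_lit 4823) (nat_lit 281) (.e (nat_lit 2540) (nat_lit 158) .nil)))))))) (.g (nat_lit 4) .nil .nil)))) (.nd (nat_lit 5) 
(.lf (nat_lit 130584) (.g (nat_lit 2677) (.e (nat_lit 8326) (nat_lit 69) (.e (nat_lit 557100) (nat_lit 13) (.e (nat_lit 172106) (nat_lit 10) (.e (nat_lit 434231) (nat_lit 23) (.e (nat_lit 532544) (nat_lit 10) (.e (nat_lit 344096) (nat_lit 18) (.e (nat_lit 4761) (nat_lit 281) (.e (nat_lit 2547) (nat_lit 158) .nil)))))))) (.g (nat_lit 5) .nil .nil))) 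
(.lf (nat_lit 130616) (.g (nat_lit 3193) (.e (nat_lit 8326) (nat_lit 69) (.e (nat_lit 557100) (nat_lit 13) (.e (nat_lit 172106) (nat_lit 10) (.e (nat_lit 434244) (nat_lit 28) (.e (nat_lit 573471) (nat_lit 11) (.e (nat_lit 16392) (nat_lit 0) (.e (nat_lit 7936) (nat_lit 389) .nil))))))) (.g (nat_lit 6) .nil .nil)))))) (.nd (nat_lit 3) (.nd (nat_lit 4) (.nd (nat_lit 5) 
(.lf (nat_lit 130564) (.g (nat_lit 2002) (.e (nat_lit 8326) (nat_lit 69) (.e (nat_lit 557100) (nat_lit 13) (.e (nat_lit 172106) (nat_lit 10) (.e (nat_lit 434231) (nat_lit 23) (.e (nat_lit 532544) (nat_lit 10) (.e (nat_lit 344090) (nat_lit 18) (.e (nat_lit 4830) (nat_lit 281) (.e (nat_lit 2543) (nat_lit 158) .nil)))))))) (.g (nat_lit 4) .nil .nil))) 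
(.lf (nat_lit 130596) (.g (nat_lit 2625) (.e (nat_lit 8326) (nat_lit 69) (.e (nat_lit 557100) (nat_lit 13) (.e (nat_lit 172106) (nat_lit 10) (.e (nat_lit 434231) (nat_lit 23) (.e (nat_lit 532544) (nat_lit 10) (.e (nat_lit 344098) (nat_lit 18) (.e (nat_lit 4827) (nat_lit 281) (.e (nat_lit 2544) (nat_lit 158) .nil)))))))) (.g (nat_lit 5) .nil .nil)))) (.nd (nat_lit 5) 
(.lf (nat_lit 130580) (.g (nat_lit 2095) (.e (nat_lit 8326) (nat_lit 69) (.e (nat_lit 557100) (nat_lit 13) (.e (nat_lit 172106) (nat_lit 10) (.e (nat_lit 434231) (nat_lit 23) (.e (nat_lit 532544) (nat_lit 10) (.e (nat_lit 344092) (nat_lit 18) (.e (nat_lit 4830) (nat_lit 281) (.e (nat_lit 2543) (nat_lit 158) .nil)))))))) (.g (nat_lit 4) .nil .nil))) 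
(.lf (nat_lit 130612) (.g (nat_lit 1304) (.e (nat_lit 8326) (nat_lit 69) (.e (nat_lit 557100) (nat_lit 13) (.e (nat_lit 172106) (nat_lit 10) (.e (nat_lit 434244) (nat_lit 28) .nil)))) .nil)))) (.nd (nat_lit 4) (.nd (nat_lit 5) 
(.lf (nat_lit 130572) (.g (nat_lit 3021) (.e (nat_lit 8326) (nat_lit 69) (.e (nat_lit 557100) (nat_lit 13) (.e (nat_lit 172106) (nat_lit 10) (.e (nat_lit 434231) (nat_lit 23) (.e (nat_lit 532544) (nat_lit 10) (.e (nat_lit 344091) (nat_lit 18) (.e (nat_lit 4830) (nat_lit 281) (.e (nat_lit 2540) (nat_lit 158) .nil)))))))) (.g (nat_lit 5) .nil .nil))) 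
(.lf (nat_lit 130604) (.g (nat_lit 2838) (.e (nat_lit 8326) (nat_lit 69) (.e (nat_lit 557100) (nat_lit 13) (.e (nat_lit 172106) (nat_lit 10) (.e (nat_lit 434231) (nat_lit 23) (.e (nat_lit 532554) (nat_lit 13) (.e (nat_lit 368662) (nat_lit 18) (.e (nat_lit 4826) (nat_lit 281) (.e (nat_lit 2544) (nat_lit 158) .nil)))))))) (.g (nat_lit 6) .nil .nil)))) (.nd (nat_lit 5) 
(.lf (nat_lit 130588) (.g (nat_lit 2789) (.e (nat_lit 8326) (nat_lit 69) (.e (nat_lit 557100) (nat_lit 13) (.e (nat_lit 172106) (nat_lit 10) (.e (nat_lit 434231) (nat_lit 23) (.e (nat_lit 532544) (nat_lit 10) (.e (nat_lit 344096) (nat_lit 18) (.e (nat_lit 4823) (nat_lit 281) (.e (nat_lit 2543) (nat_lit 158) .nil)))))))) (.g (nat_lit 5) .nil .nil))) 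
(.lf (nat_lit 130620) (.g (nat_lit 3162) (.e (nat_lit 8326) (nat_lit 69) (.e (nat_lit 557100) (nat_lit 13) (.e (nat_lit 172113) (nat_lit 10) (.e (nat_lit 434203) (nat_lit 18) (.e (nat_lit 6416) (nat_lit 341) (.e (nat_lit 163886) (nat_lit 5) (.e (nat_lit 221219) (nat_lit 24) (.e (nat_lit 213027) (nat_lit 10) .nil)))))))) (.g (nat_lit 4) .nil .nil))))))) 
(.nd (nat_lit 2) (.nd (nat_lit 3) (.nd (nat_lit 4) (.nd (nat_lit 5) 
(.lf (nat_lit 130562) (.g (nat_lit 2563) (.e (nat_lit 8326) (nat_lit 69) (.e (nat_lit 557100) (nat_lit 13) (.e (nat_lit 172106) (nat_lit 10) (.e (nat_lit 434231) (nat_lit 23) (.e (nat_lit 532544) (nat_lit 10) (.e (nat_lit 344088) (nat_lit 18) (.e (nat_lit 4830) (nat_lit 281) (.e (nat_lit 2544) (nat_lit 158) .nil)))))))) (.g (nat_lit 5) .nil .nil))) 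
(.lf (nat_lit 130594) (.g (nat_lit 2100) (.e (nat_lit 8326) (nat_lit 69) (.e (nat_lit 557100) (nat_lit 13) (.e (nat_lit 172106) (nat_lit 10) (.e (nat_lit 434231) (nat_lit 23) (.e (nat_lit 532544) (nat_lit 10) (.e (nat_lit 344098) (nat_lit 18) (.e (nat_lit 4826) (nat_lit 281) (.e (nat_lit 2543) (nat_lit 158) .nil)))))))) (.g (nat_lit 4) .nil .nil)))) (.nd (nat_lit 5) 
(.lf (nat_lit 130578) (.g (nat_lit 2167) (.e (nat_lit 8326) (nat_lit 69) (.e (nat_lit 557100) (nat_lit 13) (.e (nat_lit 172106) (nat_lit 10) (.e (nat_lit 434231) (nat_lit 23) (.e (nat_lit 532544) (nat_lit 10) (.e (nat_lit 344092) (nat_lit 18) (.e (nat_lit 4829) (nat_lit 281) (.e (nat_lit 2543) (nat_lit 158) .nil)))))))) (.g (nat_lit 4) .nil .nil))) 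
(.lf (nat_lit 130610) (.g (nat_lit 2534) (.e (nat_lit 8326) (nat_lit 69) (.e (nat_lit 557100) (nat_lit 13) (.e (nat_lit 172106) (nat_lit 10) (.e (nat_lit 434231) (nat_lit 23) (.e (nat_lit 532564) (nat_lit 15) (.e (nat_lit 385045) (nat_lit 21) (.e (nat_lit 6919) (nat_lit 371) (.e (nat_lit 2540) (nat_lit 158) .nil)))))))) (.g (nat_lit 4) .nil .nil))))) (.nd (nat_lit 4) (.nd (nat_lit 5) 
(.lf (nat_lit 130570) (.g (nat_lit 3489) (.e (nat_lit 8326) (nat_lit 69) (.e (nat_lit 557100) (nat_lit 13) (.e (nat_lit 172106) (nat_lit 10) (.e (nat_lit 434231) (nat_lit 23) (.e (nat_lit 532544) (nat_lit 10) (.e (nat_lit 344091) (nat_lit 18) (.e (nat_lit 4829) (nat_lit 281) (.e (nat_lit 2540) (nat_lit 158) .nil)))))))) (.g (nat_lit 6) .nil .nil))) 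
(.lf (nat_lit 130602) (.g (nat_lit 2234) (.e (nat_lit 8326) (nat_lit 69) (.e (nat_lit 557100) (nat_lit 13) (.e (nat_lit 172106) (nat_lit 10) (.e (nat_lit 434231) (nat_lit 23) (.e (nat_lit 532554) (nat_lit 13) (.e (nat_lit 368662) (nat_lit 18) (.e (nat_lit 4823) (nat_lit 281) (.e (nat_lit 2544) (nat_lit 158) .nil)))))))) (.g (nat_lit 4) .nil .nil)))) (.nd (nat_lit 5) 
(.lf (nat_lit 130586) (.g (nat_lit 3793) (.e (nat_lit 8326) (nat_lit 69) (.e (nat_lit 557100) (nat_lit 13) (.e (nat_lit 172106) (nat_lit 10) (.e (nat_lit 434231) (nat_lit 23) (.e (nat_lit 532544) (nat_lit 10) (.e (nat_lit 344096) (nat_lit 18) (.e (nat_lit 4764) (nat_lit 281) (.e (nat_lit 2543) (nat_lit 158) .nil)))))))) (.g (nat_lit 6) .nil .nil))) 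
(.lf (nat_lit 130618) (.g (nat_lit 4359) (.e (nat_lit 8326) (nat_lit 69) (.e (nat_lit 557100) (nat_lit 13) (.e (nat_lit 172113) (nat_lit 10) (.e (nat_lit 434203) (nat_lit 18) (.e (nat_lit 6416) (nat_lit 341) (.e (nat_lit 163885) (nat_lit 5) (.e (nat_lit 221219) (nat_lit 24) (.e (nat_lit 213027) (nat_lit 10) .nil)))))))) (.g (nat_lit 6) .nil .nil)))))) 
(.nd (nat_lit 3) (.nd (nat_lit 4) (.nd (nat_lit 5) 
(.lf (nat_lit 130566) (.g (nat_lit 1870) (.e (nat_lit 8326) (nat_lit 69) (.e (nat_lit 557100) (nat_lit 13) (.e (nat_lit 172106) (nat_lit 10) (.e (nat_lit 434231) (nat_lit 23) (.e (nat_lit 532544) (nat_lit 10) (.e (nat_lit 344091) (nat_lit 18) (.e (nat_lit 4761) (nat_lit 281) (.e (nat_lit 2538) (nat_lit 158) .nil)))))))) (.g (nat_lit 4) .nil .nil))) 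
(.lf (nat_lit 130598) (.g (nat_lit 2115) (.e (nat_lit 8326) (nat_lit 69) (.e (nat_lit 557100) (nat_lit 13) (.e (nat_lit 172106) (nat_lit 10) (.e (nat_lit 434231) (nat_lit 23) (.e (nat_lit 532553) (nat_lit 13) (.e (nat_lit 368662) (nat_lit 18) (.e (nat_lit 4826) (nat_lit 281) (.e (nat_lit 2544) (nat_lit 158) .nil)))))))) (.g (nat_lit 4) .nil .nil)))) (.nd (nat_lit 5) 
(.lf (nat_lit 130582) (.g (nat_lit 3600) (.e (nat_lit 8326) (nat_lit 69) (.e (nat_lit 557100) (nat_lit 13) (.e (nat_lit 172106) (nat_lit 10) (.e (nat_lit 434231) (nat_lit 23) (.e (nat_lit 532544) (nat_lit 10) (.e (nat_lit 344096) (nat_lit 18) (.e (nat_lit 4761) (nat_lit 281) (.e (nat_lit 2538) (nat_lit 158) .nil)))))))) (.g (nat_lit 6) .nil .nil))) 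
(.lf (nat_lit 130614) (.g (nat_lit 2742) (.e (nat_lit 8326) (nat_lit 69) (.e (nat_lit 557100) (nat_lit 13) (.e (nat_lit 172106) (nat_lit 10) (.e (nat_lit 434244) (nat_lit 28) (.e (nat_lit 573451) (nat_lit 9) (.e (nat_lit 430) (nat_lit 32) (.e (nat_lit 426012) (nat_lit 0) (.e (nat_lit 7374) (nat_lit 389) .nil)))))))) (.g (nat_lit 4) .nil .nil))))) (.nd (nat_lit 4) (.nd (nat_lit 5) 
(.lf (nat_lit 130574) (.g (nat_lit 2901) (.e (nat_lit 8326) (nat_lit 69) (.e (nat_lit 557100) (nat_lit 13) (.e (nat_lit 172106) (nat_lit 10) (.e (nat_lit 434231) (nat_lit 23) (.e (nat_lit 532544) (nat_lit 10) (.e (nat_lit 344092) (nat_lit 18) (.e (nat_lit 4824) (nat_lit 281) (.e (nat_lit 2540) (nat_lit 158) .nil)))))))) (.g (nat_lit 5) .nil .nil))) 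
(.lf (nat_lit 130606) (.g (nat_lit 3068) (.e (nat_lit 8326) (nat_lit 69) (.e (nat_lit 557100) (nat_lit 13) (.e (nat_lit 172106) (nat_lit 10) (.e (nat_lit 434231) (nat_lit 23) (.e (nat_lit 532554) (nat_lit 13) (.e (nat_lit 368662) (nat_lit 18) (.e (nat_lit 4827) (nat_lit 281) (.e (nat_lit 2544) (nat_lit 158) .nil)))))))) (.g (nat_lit 6) .nil .nil)))) (.nd (nat_lit 5) 
(.lf (nat_lit 130590) (.g (nat_lit 2006) (.e (nat_lit 8326) (nat_lit 69) (.e (nat_lit 557100) (nat_lit 13) (.e (nat_lit 172106) (nat_lit 10) (.e (nat_lit 434231) (nat_lit 23) (.e (nat_lit 532544) (nat_lit 10) (.e (nat_lit 344097) (nat_lit 18) (.e (nat_lit 4826) (nat_lit 281) (.e (nat_lit 2543) (nat_lit 158) .nil)))))))) (.g (nat_lit 4) .nil .nil))) 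
(.lf (nat_lit 130622) (.g (nat_lit 3159) (.e (nat_lit 8326) (nat_lit 69) (.e (nat_lit 557100) (nat_lit 13) (.e (nat_lit 172113) (nat_lit 10) (.e (nat_lit 434203) (nat_lit 18) (.e (nat_lit 6416) (nat_lit 341) (.e (nat_lit 163886) (nat_lit 5) (.e (nat_lit 221219) (nat_lit 24) (.e (nat_lit 213029) (nat_lit 10) .nil)))))))) (.g (nat_lit 4) .nil .nil)))))))) 
(.nd (nat_lit 1) (.nd (nat_lit 2) (.nd (nat_lit 3) (.nd (nat_lit 4) (.nd (nat_lit 5) 
(.lf (nat_lit 130561) (.g (nat_lit 2047) (.e (nat_lit 8326) (nat_lit 69) (.e (nat_lit 557100) (nat_lit 13) (.e (nat_lit 172106) (nat_lit 10) (.e (nat_lit 434231) (nat_lit 23) (.e (nat_lit 532544) (nat_lit 10) (.e (nat_lit 344088) (nat_lit 18) (.e (nat_lit 4830) (nat_lit 281) (.e (nat_lit 2543) (nat_lit 158) .nil)))))))) (.g (nat_lit 4) .nil .nil))) 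
(.lf (nat_lit 130593) (.g (nat_lit 2874) (.e (nat_lit 8326) (nat_lit 69) (.e (nat_lit 557100) (nat_lit 13) (.e (nat_lit 172106) (nat_lit 10) (.e (nat_lit 434231) (nat_lit 23) (.e (nat_lit 532544) (nat_lit 10) (.e (nat_lit 344098) (nat_lit 18) (.e (nat_lit 4826) (nat_lit 281) (.e (nat_lit 2540) (nat_lit 158) .nil)))))))) (.g (nat_lit 5) .nil .nil)))) (.nd (nat_lit 5) 
(.lf (nat_lit 130577) (.g (nat_lit 2977) (.e (nat_lit 8326) (nat_lit 69) (.e (nat_lit 557100) (nat_lit 13) (.e (nat_lit 172106) (nat_lit 10) (.e (nat_lit 434231) (nat_lit 23) (.e (nat_lit 532544) (nat_lit 10) (.e (nat_lit 344092) (nat_lit 18) (.e (nat_lit 4829) (nat_lit 281) (.e (nat_lit 2540) (nat_lit 158) .nil)))))))) (.g (nat_lit 5) .nil .nil))) 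
(.lf (nat_lit 130609) (.g (nat_lit 2827) (.e (nat_lit 8326) (nat_lit 69) (.e (nat_lit 557100) (nat_lit 13) (.e (nat_lit 172106) (nat_lit 10) (.e (nat_lit 434231) (nat_lit 23) (.e (nat_lit 532564) (nat_lit 15) (.e (nat_lit 385044) (nat_lit 21) (.e (nat_lit 6919) (nat_lit 371) (.e (nat_lit 2540) (nat_lit 158) .nil)))))))) (.g (nat_lit 4) .nil .nil))))) (.nd (nat_lit 4) (.nd (nat_lit 5) 
(.lf (nat_lit 130569) (.g (nat_lit 2548) (.e (nat_lit 8326) (nat_lit 69) (.e (nat_lit 557100) (nat_lit 13) (.e (nat_lit 172106) (nat_lit 10) (.e (nat_lit 434231) (nat_lit 23) (.e (nat_lit 532544) (nat_lit 10) (.e (nat_lit 344091) (nat_lit 18) (.e (nat_lit 4823) (nat_lit 281) (.e (nat_lit 2544) (nat_lit 158) .nil)))))))) (.g (nat_lit 5) .nil .nil))) 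
(.lf (nat_lit 130601) (.g (nat_lit 2265) (.e (nat_lit 8326) (nat_lit 69) (.e (nat_lit 557100) (nat_lit 13) (.e (nat_lit 172106) (nat_lit 10) (.e (nat_lit 434231) (nat_lit 23) (.e (nat_lit 532554) (nat_lit 13) (.e (nat_lit 368662) (nat_lit 18) (.e (nat_lit 4823) (nat_lit 281) (.e (nat_lit 2543) (nat_lit 158) .nil)))))))) (.g (nat_lit 4) .nil .nil)))) (.nd (nat_lit 5) 
(.lf (nat_lit 130585) (.g (nat_lit 1862) (.e (nat_lit 8326) (nat_lit 69) (.e (nat_lit 557100) (nat_lit 13) (.e (nat_lit 172106) (nat_lit 10) (.e (nat_lit 434231) (nat_lit 23) (.e (nat_lit 532544) (nat_lit 10) (.e (nat_lit 344096) (nat_lit 18) (.e (nat_lit 4761) (nat_lit 281) (.e (nat_lit 2548) (nat_lit 158) .nil)))))))) (.g (nat_lit 4) .nil .nil))) 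
(.lf (nat_lit 130617) (.g (nat_lit 513) (.e (nat_lit 8326) (nat_lit 69) (.e (nat_lit 557100) (nat_lit 13) (.e (nat_lit 172113) (nat_lit 10) .nil))) .nil))))) (.nd (nat_lit 3) (.nd (nat_lit 4) (.nd (nat_lit 5) 
(.lf (nat_lit 130565) (.g (nat_lit 2518) (.e (nat_lit 8326) (nat_lit 69) (.e (nat_lit 557100) (nat_lit 13) (.e (nat_lit 172106) (nat_lit 10) (.e (nat_lit 434231) (nat_lit 23) (.e (nat_lit 532544) (nat_lit 10) (.e (nat_lit 344090) (nat_lit 18) (.e (nat_lit 4830) (nat_lit 281) (.e (nat_lit 2544) (nat_lit 158) .nil)))))))) (.g (nat_lit 5) .nil .nil))) 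
(.lf (nat_lit 130597) (.g (nat_lit 2403) (.e (nat_lit 8326) (nat_lit 69) (.e (nat_lit 557100) (nat_lit 13) (.e (nat_lit 172106) (nat_lit 10) (.e (nat_lit 434231) (nat_lit 23) (.e (nat_lit 532553) (nat_lit 13) (.e (nat_lit 368662) (nat_lit 18) (.e (nat_lit 4826) (nat_lit 281) (.e (nat_lit 2540) (nat_lit 158) .nil)))))))) (.g (nat_lit 4) .nil .nil)))) (.nd (nat_lit 5) 
(.lf (nat_lit 130581) (.g (nat_lit 2611) (.e (nat_lit 8326) (nat_lit 69) (.e (nat_lit 557100) (nat_lit 13) (.e (nat_lit 172106) (nat_lit 10) (.e (nat_lit 434231) (nat_lit 23) (.e (nat_lit 532544) (nat_lit 10) (.e (nat_lit 344092) (nat_lit 18) (.e (nat_lit 4830) (nat_lit 281) (.e (nat_lit 2544) (nat_lit 158) .nil)))))))) (.g (nat_lit 5) .nil .nil))) 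
(.lf (nat_lit 130613) (.g (nat_lit 3488) (.e (nat_lit 8326) (nat_lit 69) (.e (nat_lit 557100) (nat_lit 13) (.e (nat_lit 172106) (nat_lit 10) (.e (nat_lit 434244) (nat_lit 28) (.e (nat_lit 573450) (nat_lit 9) (.e (nat_lit 375) (nat_lit 32) (.e (nat_lit 426025) (nat_lit 0) (.e (nat_lit 7936) (nat_lit 389) .nil)))))))) (.g (nat_lit 7) .nil .nil))))) (.nd (nat_lit 4) (.nd (nat_lit 5) 
(.lf (nat_lit 130573) (.g (nat_lit 2405) (.e (nat_lit 8326) (nat_lit 69) (.e (nat_lit 557100) (nat_lit 13) (.e (nat_lit 172106) (nat_lit 10) (.e (nat_lit 434231) (nat_lit 23) (.e (nat_lit 532544) (nat_lit 10) (.e (nat_lit 344091) (nat_lit 18) (.e (nat_lit 4830) (nat_lit 281) (.e (nat_lit 2543) (nat_lit 158) .nil)))))))) (.g (nat_lit 5) .nil .nil))) 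
(.lf (nat_lit 130605) (.g (nat_lit 2739) (.e (nat_lit 8326) (nat_lit 69) (.e (nat_lit 557100) (nat_lit 13) (.e (nat_lit 172106) (nat_lit 10) (.e (nat_lit 434231) (nat_lit 23) (.e (nat_lit 532554) (nat_lit 13) (.e (nat_lit 368662) (nat_lit 18) (.e (nat_lit 4827) (nat_lit 281) (.e (nat_lit 2543) (nat_lit 158) .nil)))))))) (.g (nat_lit 6) .nil .nil)))) (.nd (nat_lit 5) 
(.lf (nat_lit 130589) (.g (nat_lit 2758) (.e (nat_lit 8326) (nat_lit 69) (.e (nat_lit 557100) (nat_lit 13) (.e (nat_lit 172106) (nat_lit 10) (.e (nat_lit 434231) (nat_lit 23) (.e (nat_lit 532544) (nat_lit 10) (.e (nat_lit 344096) (nat_lit 18) (.e (nat_lit 4823) (nat_lit 281) (.e (nat_lit 2544) (nat_lit 158) .nil)))))))) (.g (nat_lit 5) .nil .nil))) 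
(.lf (nat_lit 130621) (.g (nat_lit 3636) (.e (nat_lit 8326) (nat_lit 69) (.e (nat_lit 557100) (nat_lit 13) (.e (nat_lit 172113) (nat_lit 10) (.e (nat_lit 434203) (nat_lit 18) (.e (nat_lit 6416) (nat_lit 341) (.e (nat_lit 163886) (nat_lit 5) (.e (nat_lit 221219) (nat_lit 24) (.e (nat_lit 213028) (nat_lit 10) .nil)))))))) (.g (nat_lit 5) .nil .nil))))))) 
(.nd (nat_lit 2) (.nd (nat_lit 3) (.nd (nat_lit 4) (.nd (nat_lit 5) 
(.lf (nat_lit 130563) (.g (nat_lit 2116) (.e (nat_lit 8326) (nat_lit 69) (.e (nat_lit 557100) (nat_lit 13) (.e (nat_lit 172106) (nat_lit 10) (.e (nat_lit 434231) (nat_lit 23) (.e (nat_lit 532544) (nat_lit 10) (.e (nat_lit 344090) (nat_lit 18) (.e (nat_lit 4829) (nat_lit 281) (.e (nat_lit 2544) (nat_lit 158) .nil)))))))) (.g (nat_lit 4) .nil .nil))) 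
(.lf (nat_lit 130595) (.g (nat_lit 2586) (.e (nat_lit 8326) (nat_lit 69) (.e (nat_lit 557100) (nat_lit 13) (.e (nat_lit 172106) (nat_lit 10) (.e (nat_lit 434231) (nat_lit 23) (.e (nat_lit 532544) (nat_lit 10) (.e (nat_lit 344098) (nat_lit 18) (.e (nat_lit 4826) (nat_lit 281) (.e (nat_lit 2544) (nat_lit 158) .nil)))))))) (.g (nat_lit 5) .nil .nil)))) (.nd (nat_lit 5) 
(.lf (nat_lit 130579) (.g (nat_lit 2711) (.e (nat_lit 8326) (nat_lit 69) (.e (nat_lit 557100) (nat_lit 13) (.e (nat_lit 172106) (nat_lit 10) (.e (nat_lit 434231) (nat_lit 23) (.e (nat_lit 532544) (nat_lit 10) (.e (nat_lit 344092) (nat_lit 18) (.e (nat_lit 4830) (nat_lit 281) (.e (nat_lit 2540) (nat_lit 158) .nil)))))))) (.g (nat_lit 5) .nil .nil))) 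
(.lf (nat_lit 130611) (.g (nat_lit 1616) (.e (nat_lit 8326) (nat_lit 69) (.e (nat_lit 557100) (nat_lit 13) (.e (nat_lit 172106) (nat_lit 10) (.e (nat_lit 434238) (nat_lit 25) .nil)))) .nil)))) (.nd (nat_lit 4) (.nd (nat_lit 5) 
(.lf (nat_lit 130571) (.g (nat_lit 2679) (.e (nat_lit 8326) (nat_lit 69) (.e (nat_lit 557100) (nat_lit 13) (.e (nat_lit 172106) (nat_lit 10) (.e (nat_lit 434231) (nat_lit 23) (.e (nat_lit 532544) (nat_lit 10) (.e (nat_lit 344091) (nat_lit 18) (.e (nat_lit 4829) (nat_lit 281) (.e (nat_lit 2543) (nat_lit 158) .nil)))))))) (.g (nat_lit 5) .nil .nil))) 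
(.lf (nat_lit 130603) (.g (nat_lit 3126) (.e (nat_lit 8326) (nat_lit 69) (.e (nat_lit 557100) (nat_lit 13) (.e (nat_lit 172106) (nat_lit 10) (.e (nat_lit 434231) (nat_lit 23) (.e (nat_lit 532554) (nat_lit 13) (.e (nat_lit 368662) (nat_lit 18) (.e (nat_lit 4826) (nat_lit 281) (.e (nat_lit 2540) (nat_lit 158) .nil)))))))) (.g (nat_lit 6) .nil .nil)))) (.nd (nat_lit 5) 
(.lf (nat_lit 130587) (.g (nat_lit 3021) (.e (nat_lit 8326) (nat_lit 69) (.e (nat_lit 557100) (nat_lit 13) (.e (nat_lit 172106) (nat_lit 10) (.e (nat_lit 434231) (nat_lit 23) (.e (nat_lit 532544) (nat_lit 10) (.e (nat_lit 344096) (nat_lit 18) (.e (nat_lit 4823) (nat_lit 281) (.e (nat_lit 2540) (nat_lit 158) .nil)))))))) (.g (nat_lit 5) .nil .nil))) 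
(.lf (nat_lit 130619) (.g (nat_lit 4355) (.e (nat_lit 8326) (nat_lit 69) (.e (nat_lit 557100) (nat_lit 13) (.e (nat_lit 172113) (nat_lit 10) (.e (nat_lit 434203) (nat_lit 18) (.e (nat_lit 6416) (nat_lit 341) (.e (nat_lit 163885) (nat_lit 5) (.e (nat_lit 221219) (nat_lit 24) (.e (nat_lit 213029) (nat_lit 10) .nil)))))))) (.g (nat_lit 7) .nil .nil)))))) 
(.nd (nat_lit 3) (.nd (nat_lit 4) (.nd (nat_lit 5) 
(.lf (nat_lit 130567) (.g (nat_lit 2811) (.e (nat_lit 8326) (nat_lit 69) (.e (nat_lit 557100) (nat_lit 13) (.e (nat_lit 172106) (nat_lit 10) (.e (nat_lit 434231) (nat_lit 23) (.e (nat_lit 532544) (nat_lit 10) (.e (nat_lit 344091) (nat_lit 18) (.e (nat_lit 4823) (nat_lit 281) (.e (nat_lit 2540) (nat_lit 158) .nil)))))))) (.g (nat_lit 5) .nil .nil))) 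
(.lf (nat_lit 130599) (.g (nat_lit 2016) (.e (nat_lit 8326) (nat_lit 69) (.e (nat_lit 557100) (nat_lit 13) (.e (nat_lit 172106) (nat_lit 10) (.e (nat_lit 434231) (nat_lit 23) (.e (nat_lit 532553) (nat_lit 13) (.e (nat_lit 368662) (nat_lit 18) (.e (nat_lit 4827) (nat_lit 281) (.e (nat_lit 2543) (nat_lit 158) .nil)))))))) (.g (nat_lit 4) .nil .nil)))) (.nd (nat_lit 5) 
(.lf (nat_lit 130583) (.g (nat_lit 3100) (.e (nat_lit 8326) (nat_lit 69) (.e (nat_lit 557100) (nat_lit 13) (.e (nat_lit 172106) (nat_lit 10) (.e (nat_lit 434231) (nat_lit 23) (.e (nat_lit 532544) (nat_lit 10) (.e (nat_lit 344096) (nat_lit 18) (.e (nat_lit 4761) (nat_lit 281) (.e (nat_lit 2545) (nat_lit 158) .nil)))))))) (.g (nat_lit 5) .nil .nil))) 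
(.lf (nat_lit 130615) (.g (nat_lit 1942) (.e (nat_lit 8326) (nat_lit 69) (.e (nat_lit 557100) (nat_lit 13) (.e (nat_lit 172106) (nat_lit 10) (.e (nat_lit 434244) (nat_lit 28) (.e (nat_lit 573471) (nat_lit 11) .nil))))) .nil)))) (.nd (nat_lit 4) (.nd (nat_lit 5) 
(.lf (nat_lit 130575) (.g (nat_lit 2359) (.e (nat_lit 8326) (nat_lit 69) (.e (nat_lit 557100) (nat_lit 13) (.e (nat_lit 172106) (nat_lit 10) (.e (nat_lit 434231) (nat_lit 23) (.e (nat_lit 532544) (nat_lit 10) (.e (nat_lit 344092) (nat_lit 18) (.e (nat_lit 4824) (nat_lit 281) (.e (nat_lit 2543) (nat_lit 158) .nil)))))))) (.g (nat_lit 5) .nil .nil))) 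
(.lf (nat_lit 130607) (.g (nat_lit 2140) (.e (nat_lit 8326) (nat_lit 69) (.e (nat_lit 557100) (nat_lit 13) (.e (nat_lit 172106) (nat_lit 10) (.e (nat_lit 434231) (nat_lit 23) (.e (nat_lit 532554) (nat_lit 13) (.e (nat_lit 368662) (nat_lit 18) (.e (nat_lit 4828) (nat_lit 281) (.e (nat_lit 2543) (nat_lit 158) .nil)))))))) (.g (nat_lit 4) .nil .nil)))) (.nd (nat_lit 5) 
(.lf (nat_lit 130591) (.g (nat_lit 2286) (.e (nat_lit 8326) (nat_lit 69) (.e (nat_lit 557100) (nat_lit 13) (.e (nat_lit 172106) (nat_lit 10) (.e (nat_lit 434231) (nat_lit 23) (.e (nat_lit 532544) (nat_lit 10) (.e (nat_lit 344097) (nat_lit 18) (.e (nat_lit 4827) (nat_lit 281) (.e (nat_lit 2540) (nat_lit 158) .nil)))))))) (.g (nat_lit 4) .nil .nil))) 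
(.lf (nat_lit 130623) (.g (nat_lit 2905) (.e (nat_lit 8326) (nat_lit 69) (.e (nat_lit 557100) (nat_lit 13) (.e (nat_lit 172113) (nat_lit 10) (.e (nat_lit 434203) (nat_lit 18) (.e (nat_lit 6420) (nat_lit 341) (.e (nat_lit 163885) (nat_lit 5) (.e (nat_lit 221218) (nat_lit 24) (.e (nat_lit 213029) (nat_lit 10) .nil)))))))) (.g (nat_lit 4) .nil .nil)))))))))

noncomputable def tv1742 : DT := (.nd (nat_lit 0) (.nd (nat_lit 1) (.nd (nat_lit 2) (.nd (nat_lit 3) (.nd (nat_lit 4) (.nd (nat_lit 5) 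
(.lf (nat_lit 130624) (.g (nat_lit 4467) (.e (nat_lit 8326) (nat_lit 69) (.e (nat_lit 557100) (nat_lit 13) (.e (nat_lit 172113) (nat_lit 10) (.e (nat_lit 434203) (nat_lit 18) (.e (nat_lit 6420) (nat_lit 341) (.e (nat_lit 163885) (nat_lit 5) (.e (nat_lit 221219) (nat_lit 24) (.e (nat_lit 213027) (nat_lit 10) .nil)))))))) (.g (nat_lit 6) .nil .nil))) 
(.lf (nat_lit 130656) (.g (nat_lit 3655) (.e (nat_lit 8326) (nat_lit 69) (.e (nat_lit 557100) (nat_lit 13) (.e (nat_lit 172113) (nat_lit 10) (.e (nat_lit 434245) (nat_lit 28) (.e (nat_lit 573471) (nat_lit 11) (.e (nat_lit 16406) (nat_lit 1) (.e (nat_lit 164412) (nat_lit 260) (.e (nat_lit 2540) (nat_lit 158) .nil)))))))) (.g (nat_lit 4) .nil .nil)))) (.nd (nat_lit 5) 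
(.lf (nat_lit 130640) (.g (nat_lit 4481) (.e (nat_lit 8326) (nat_lit 69) (.e (nat_lit 557100) (nat_lit 13) (.e (nat_lit 172113) (nat_lit 10) (.e (nat_lit 434208) (nat_lit 18) (.e (nat_lit 6420) (nat_lit 341) (.e (nat_lit 163885) (nat_lit 5) (.e (nat_lit 221219) (nat_lit 24) (.e (nat_lit 213029) (nat_lit 10) .nil)))))))) (.g (nat_lit 7) .nil .nil))) 
(.lf (nat_lit 130672) (.g (nat_lit 2487) (.e (nat_lit 8326) (nat_lit 69) (.e (nat_lit 557101) (nat_lit 13) (.e (nat_lit 172097) (nat_lit 9) (.e (nat_lit 426125) (nat_lit 2) (.e (nat_lit 196661) (nat_lit 12) (.e (nat_lit 57712) (nat_lit 176) (.e (nat_lit 970) (nat_lit 81) (.e (nat_lit 5741) (nat_lit 313) .nil)))))))) (.g (nat_lit 5) .nil .nil))))) (.nd (nat_lit 4) (.nd (nat_lit 5) 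
(.lf (nat_lit 130632) (.g (nat_lit 4391) (.e (nat_lit 8326) (nat_lit 69) (.e (nat_lit 557100) (nat_lit 13) (.e (nat_lit 172113) (nat_lit 10) (.e (nat_lit 434208) (nat_lit 18) (.e (nat_lit 6416) (nat_lit 341) (.e (nat_lit 163885) (nat_lit 5) (.e (nat_lit 221219) (nat_lit 24) (.e (nat_lit 213027) (nat_lit 10) .nil)))))))) (.g (nat_lit 6) .nil .nil))) 
(.lf (nat_lit 130664) (.g (nat_lit 3610) (.e (nat_lit 8326) (nat_lit 69) (.e (nat_lit 557100) (nat_lit 13) (.e (nat_lit 172113) (nat_lit 10) (.e (nat_lit 434248) (nat_lit 28) (.e (nat_lit 573452) (nat_lit 9) (.e (nat_lit 430) (nat_lit 32) (.e (nat_lit 426012) (nat_lit 0) (.e (nat_lit 7374) (nat_lit 389) .nil)))))))) (.g (nat_lit 5) .nil .nil)))) (.nd (nat_lit 5) 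
(.lf (nat_lit 130648) (.g (nat_lit 2991) (.e (nat_lit 8326) (nat_lit 69) (.e (nat_lit 557100) (nat_lit 13) (.e (nat_lit 172113) (nat_lit 10) (.e (nat_lit 434245) (nat_lit 28) (.e (nat_lit 573469) (nat_lit 11) (.e (nat_lit 16388) (nat_lit 0) (.e (nat_lit 7376) (nat_lit 389) .nil))))))) (.g (nat_lit 4) .nil .nil))) 
(.lf (nat_lit 130680) (.g (nat_lit 2756) (.e (nat_lit 8326) (nat_lit 69) (.e (nat_lit 557101) (nat_lit 13) (.e (nat_lit 172097) (nat_lit 9) (.e (nat_lit 426140) (nat_lit 3) (.e (nat_lit 204821) (nat_lit 17) (.e (nat_lit 6114) (nat_lit 332) (.e (nat_lit 968) (nat_lit 81) (.e (nat_lit 5741) (nat_lit 313) .nil)))))))) (.g (nat_lit 5) .nil .nil)))))) (.nd (nat_lit 3) (.nd (nat_lit 4) (.nd (nat_lit 5) 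
(.lf (nat_lit 130628) (.g (nat_lit 4063) (.e (nat_lit 8326) (nat_lit 69) (.e (nat_lit 557100) (nat_lit 13) (.e (nat_lit 172113) (nat_lit 10) (.e (nat_lit 434207) (nat_lit 18) (.e (nat_lit 6416) (nat_lit 341) (.e (nat_lit 163885) (nat_lit 5) (.e (nat_lit 221219) (nat_lit 24) (.e (nat_lit 213029) (nat_lit 10) .nil)))))))) (.g (nat_lit 7) .nil .nil))) 
(.lf (nat_lit 130660) (.g (nat_lit 3251) (.e (nat_lit 8326) (nat_lit 69) (.e (nat_lit 557100) (nat_lit 13) (.e (nat_lit 172113) (nat_lit 10) (.e (nat_lit 434247) (nat_lit 28) (.e (nat_lit 573457) (nat_lit 9) (.e (nat_lit 430) (nat_lit 32) (.e (nat_lit 426012) (nat_lit 0) (.e (nat_lit 7374) (nat_lit 389) .nil)))))))) (.g (nat_lit 4) .nil .nil)))) (.nd (nat_lit 5) 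
(.lf (nat_lit 130644) (.g (nat_lit 2884) (.e (nat_lit 8326) (nat_lit 69) (.e (nat_lit 557100) (nat_lit 13) (.e (nat_lit 172113) (nat_lit 10) (.e (nat_lit 434245) (nat_lit 28) (.e (nat_lit 573451) (nat_lit 9) (.e (nat_lit 430) (nat_lit 32) (.e (nat_lit 426009) (nat_lit 0) (.e (nat_lit 7374) (nat_lit 389) .nil)))))))) (.g (nat_lit 4) .nil .nil))) 
(.lf (nat_lit 130676) (.g (nat_lit 2943) (.e (nat_lit 8326) (nat_lit 69) (.e (nat_lit 557101) (nat_lit 13) (.e (nat_lit 172097) (nat_lit 9) (.e (nat_lit 426125) (nat_lit 2) (.e (nat_lit 196661) (nat_lit 12) (.e (nat_lit 57712) (nat_lit 176) (.e (nat_lit 973) (nat_lit 81) (.e (nat_lit 5740) (nat_lit 313) .nil)))))))) (.g (nat_lit 5) .nil .nil))))) (.nd (nat_lit 4) (.nd (nat_lit 5) 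
(.lf (nat_lit 130636) (.g (nat_lit 3275) (.e (nat_lit 8326) (nat_lit 69) (.e (nat_lit 557100) (nat_lit 13) (.e (nat_lit 172113) (nat_lit 10) (.e (nat_lit 434208) (nat_lit 18) (.e (nat_lit 6416) (nat_lit 341) (.e (nat_lit 163886) (nat_lit 5) (.e (nat_lit 221219) (nat_lit 24) (.e (nat_lit 213029) (nat_lit 10) .nil)))))))) (.g (nat_lit 4) .nil .nil))) 
(.lf (nat_lit 130668) (.g (nat_lit 1538) (.e (nat_lit 8326) (nat_lit 69) (.e (nat_lit 557101) (nat_lit 13) (.e (nat_lit 172097) (nat_lit 9) (.e (nat_lit 426125) (nat_lit 2) (.e (nat_lit 196661) (nat_lit 12) .nil))))) .nil))) (.nd (nat_lit 5) 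
(.lf (nat_lit 130652) (.g (nat_lit 3950) (.e (nat_lit 8326) (nat_lit 69) (.e (nat_lit 557100) (nat_lit 13) (.e (nat_lit 172113) (nat_lit 10) (.e (nat_lit 434245) (nat_lit 28) (.e (nat_lit 573471) (nat_lit 11) (.e (nat_lit 16388) (nat_lit 0) (.e (nat_lit 7374) (nat_lit 389) .nil))))))) (.g (nat_lit 5) .nil .nil))) 
(.lf (nat_lit 130684) (.g (nat_lit 3255) (.e (nat_lit 8326) (nat_lit 69) (.e (nat_lit 557101) (nat_lit 13) (.e (nat_lit 172097) (nat_lit 9) (.e (nat_lit 426140) (nat_lit 3) (.e (nat_lit 204821) (nat_lit 17) (.e (nat_lit 6114) (nat_lit 332) (.e (nat_lit 972) (nat_lit 81) (.e (nat_lit 5741) (nat_lit 313) .nil)))))))) (.g (nat_lit 6) .nil .nil))))))) 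
(.nd (nat_lit 2) (.nd (nat_lit 3) (.nd (nat_lit 4) (.nd (nat_lit 5) 
(.lf (nat_lit 130626) (.g (nat_lit 4067) (.e (nat_lit 8326) (nat_lit 69) (.e (nat_lit 557100) (nat_lit 13) (.e (nat_lit 172113) (nat_lit 10) (.e (nat_lit 434207) (nat_lit 18) (.e (nat_lit 6416) (nat_lit 341) (.e (nat_lit 163885) (nat_lit 5) (.e (nat_lit 221219) (nat_lit 24) (.e (nat_lit 213027) (nat_lit 10) .nil)))))))) (.g (nat_lit 6) .nil .nil))) 
(.lf (nat_lit 130658) (.g (nat_lit 2794) (.e (nat_lit 8326) (nat_lit 69) (.e (nat_lit 557100) (nat_lit 13) (.e (nat_lit 172113) (nat_lit 10) (.e (nat_lit 434247) (nat_lit 28) (.e (nat_lit 573456) (nat_lit 9) (.e (nat_lit 430) (nat_lit 32) (.e (nat_lit 426009) (nat_lit 0) (.e (nat_lit 7374) (nat_lit 389) .nil)))))))) (.g (nat_lit 4) .nil .nil)))) (.nd (nat_lit 5) 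
(.lf (nat_lit 130642) (.g (nat_lit 1324) (.e (nat_lit 8326) (nat_lit 69) (.e (nat_lit 557100) (nat_lit 13) (.e (nat_lit 172113) (nat_lit 10) (.e (nat_lit 434245) (nat_lit 28) .nil)))) .nil)) 
(.lf (nat_lit 130674) (.g (nat_lit 2988) (.e (nat_lit 8326) (nat_lit 69) (.e (nat_lit 557101) (nat_lit 13) (.e (nat_lit 172097) (nat_lit 9) (.e (nat_lit 426125) (nat_lit 2) (.e (nat_lit 196661) (nat_lit 12) (.e (nat_lit 57712) (nat_lit 176) (.e (nat_lit 972) (nat_lit 81) (.e (nat_lit 5741) (nat_lit 313) .nil)))))))) (.g (nat_lit 6) .nil .nil))))) (.nd (nat_lit 4) (.nd (nat_lit 5) 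
(.lf (nat_lit 130634) (.g (nat_lit 3278) (.e (nat_lit 8326) (nat_lit 69) (.e (nat_lit 557100) (nat_lit 13) (.e (nat_lit 172113) (nat_lit 10) (.e (nat_lit 434208) (nat_lit 18) (.e (nat_lit 6416) (nat_lit 341) (.e (nat_lit 163886) (nat_lit 5) (.e (nat_lit 221219) (nat_lit 24) (.e (nat_lit 213027) (nat_lit 10) .nil)))))))) (.g (nat_lit 4) .nil .nil))) 
(.lf (nat_lit 130666) (.g (nat_lit 2739) (.e (nat_lit 8326) (nat_lit 69) (.e (nat_lit 557100) (nat_lit 13) (.e (nat_lit 172113) (nat_lit 10) (.e (nat_lit 434248) (nat_lit 28) (.e (nat_lit 573470) (nat_lit 11) (.e (nat_lit 16388) (nat_lit 0) (.e (nat_lit 7374) (nat_lit 389) .nil))))))) (.g (nat_lit 4) .nil .nil)))) (.nd (nat_lit 5) 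
(.lf (nat_lit 130650) (.g (nat_lit 1828) (.e (nat_lit 8326) (nat_lit 69) (.e (nat_lit 557100) (nat_lit 13) (.e (nat_lit 172113) (nat_lit 10) (.e (nat_lit 434245) (nat_lit 28) (.e (nat_lit 573471) (nat_lit 11) .nil))))) .nil)) 
(.lf (nat_lit 130682) (.g (nat_lit 2304) (.e (nat_lit 8326) (nat_lit 69) (.e (nat_lit 557101) (nat_lit 13) (.e (nat_lit 172097) (nat_lit 9) (.e (nat_lit 426140) (nat_lit 3) (.e (nat_lit 204821) (nat_lit 17) (.e (nat_lit 6114) (nat_lit 332) (.e (nat_lit 970) (nat_lit 81) (.e (nat_lit 5741) (nat_lit 313) .nil)))))))) (.g (nat_lit 4) .nil .nil)))))) (.nd (nat_lit 3) (.nd (nat_lit 4) (.nd (nat_lit 5) 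
(.lf (nat_lit 130630) (.g (nat_lit 2931) (.e (nat_lit 8326) (nat_lit 69) (.e (nat_lit 557100) (nat_lit 13) (.e (nat_lit 172113) (nat_lit 10) (.e (nat_lit 434207) (nat_lit 18) (.e (nat_lit 6416) (nat_lit 341) (.e (nat_lit 163886) (nat_lit 5) (.e (nat_lit 221219) (nat_lit 24) (.e (nat_lit 213029) (nat_lit 10) .nil)))))))) (.g (nat_lit 4) .nil .nil))) 
(.lf (nat_lit 130662) (.g (nat_lit 2839) (.e (nat_lit 8326) (nat_lit 69) (.e (nat_lit 557100) (nat_lit 13) (.e (nat_lit 172113) (nat_lit 10) (.e (nat_lit 434248) (nat_lit 28) (.e (nat_lit 573452) (nat_lit 9) (.e (nat_lit 430) (nat_lit 32) (.e (nat_lit 426009) (nat_lit 0) (.e (nat_lit 7374) (nat_lit 389) .nil)))))))) (.g (nat_lit 4) .nil .nil)))) (.nd (nat_lit 5) 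
(.lf (nat_lit 130646) (.g (nat_lit 3661) (.e (nat_lit 8326) (nat_lit 69) (.e (nat_lit 557100) (nat_lit 13) (.e (nat_lit 172113) (nat_lit 10) (.e (nat_lit 434245) (nat_lit 28) (.e (nat_lit 573451) (nat_lit 9) (.e (nat_lit 430) (nat_lit 32) (.e (nat_lit 426012) (nat_lit 0) (.e (nat_lit 7374) (nat_lit 389) .nil)))))))) (.g (nat_lit 5) .nil .nil))) 
(.lf (nat_lit 130678) (.g (nat_lit 2563) (.e (nat_lit 8326) (nat_lit 69) (.e (nat_lit 557101) (nat_lit 13) (.e (nat_lit 172097) (nat_lit 9) (.e (nat_lit 426125) (nat_lit 2) (.e (nat_lit 196661) (nat_lit 12) (.e (nat_lit 57721) (nat_lit 177) (.e (nat_lit 65280) (nat_lit 257) .nil))))))) (.g (nat_lit 6) .nil .nil))))) (.nd (nat_lit 4) (.nd (nat_lit 5) 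
(.lf (nat_lit 130638) (.g (nat_lit 2978) (.e (nat_lit 8326) (nat_lit 69) (.e (nat_lit 557100) (nat_lit 13) (.e (nat_lit 172113) (nat_lit 10) (.e (nat_lit 434208) (nat_lit 18) (.e (nat_lit 6420) (nat_lit 341) (.e (nat_lit 163885) (nat_lit 5) (.e (nat_lit 221218) (nat_lit 24) (.e (nat_lit 213029) (nat_lit 10) .nil)))))))) (.g (nat_lit 4) .nil .nil))) 
(.lf (nat_lit 130670) (.g (nat_lit 2605) (.e (nat_lit 8326) (nat_lit 69) (.e (nat_lit 557101) (nat_lit 13) (.e (nat_lit 172097) (nat_lit 9) (.e (nat_lit 426125) (nat_lit 2) (.e (nat_lit 196661) (nat_lit 12) (.e (nat_lit 57712) (nat_lit 176) (.e (nat_lit 968) (nat_lit 81) (.e (nat_lit 5741) (nat_lit 313) .nil)))))))) (.g (nat_lit 5) .nil .nil)))) (.nd (nat_lit 5) 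
(.lf (nat_lit 130654) (.g (nat_lit 3011) (.e (nat_lit 8326) (nat_lit 69) (.e (nat_lit 557100) (nat_lit 13) (.e (nat_lit 172113) (nat_lit 10) (.e (nat_lit 434245) (nat_lit 28) (.e (nat_lit 573471) (nat_lit 11) (.e (nat_lit 16392) (nat_lit 0) (.e (nat_lit 7936) (nat_lit 389) .nil))))))) (.g (nat_lit 5) .nil .nil))) 
(.lf (nat_lit 130686) (.g (nat_lit 3166) (.e (nat_lit 8326) (nat_lit 69) (.e (nat_lit 557101) (nat_lit 13) (.e (nat_lit 172097) (nat_lit 9) (.e (nat_lit 426140) (nat_lit 3) (.e (nat_lit 204821) (nat_lit 17) (.e (nat_lit 6114) (nat_lit 332) (.e (nat_lit 973) (nat_lit 81) (.e (nat_lit 5740) (nat_lit 313) .nil)))))))) (.g (nat_lit 6) .nil .nil)))))))) 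
(.nd (nat_lit 1) (.nd (nat_lit 2) (.nd (nat_lit 3) (.nd (nat_lit 4) (.nd (nat_lit 5) 
(.lf (nat_lit 130625) (.g (nat_lit 4464) (.e (nat_lit 8326) (nat_lit 69) (.e (nat_lit 557100) (nat_lit 13) (.e (nat_lit 172113) (nat_lit 10) (.e (nat_lit 434203) (nat_lit 18) (.e (nat_lit 6420) (nat_lit 341) (.e (nat_lit 163885) (nat_lit 5) (.e (nat_lit 221219) (nat_lit 24) (.e (nat_lit 213029) (nat_lit 10) .nil)))))))) (.g (nat_lit 7) .nil .nil))) 
(.lf (nat_lit 130657) (.g (nat_lit 3328) (.e (nat_lit 8326) (nat_lit 69) (.e (nat_lit 557100) (nat_lit 13) (.e (nat_lit 172113) (nat_lit 10) (.e (nat_lit 434245) (nat_lit 28) (.e (nat_lit 573474) (nat_lit 12) (.e (nat_lit 57354) (nat_lit 0) (.e (nat_lit 7147) (nat_lit 382) (.e (nat_lit 157) (nat_lit 10) (.e (nat_lit 164368) (nat_lit 247) .nil))))))))) (.g (nat_lit 4) .nil .nil)))) 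
(.nd (nat_lit 5) 
(.lf (nat_lit 130641) (.g (nat_lit 2024) (.e (nat_lit 8326) (nat_lit 69) (.e (nat_lit 557100) (nat_lit 13) (.e (nat_lit 172113) (nat_lit 10) (.e (nat_lit 434233) (nat_lit 23) (.e (nat_lit 532523) (nat_lit 7) .nil))))) .nil)) 
(.lf (nat_lit 130673) (.g (nat_lit 2263) (.e (nat_lit 8326) (nat_lit 69) (.e (nat_lit 557101) (nat_lit 13) (.e (nat_lit 172097) (nat_lit 9) (.e (nat_lit 426125) (nat_lit 2) (.e (nat_lit 196661) (nat_lit 12) (.e (nat_lit 57712) (nat_lit 176) (.e (nat_lit 972) (nat_lit 81) (.e (nat_lit 5740) (nat_lit 313) .nil)))))))) (.g (nat_lit 4) .nil .nil))))) (.nd (nat_lit 4) (.nd (nat_lit 5) 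
(.lf (nat_lit 130633) (.g (nat_lit 4857) (.e (nat_lit 8326) (nat_lit 69) (.e (nat_lit 557100) (nat_lit 13) (.e (nat_lit 172113) (nat_lit 10) (.e (nat_lit 434208) (nat_lit 18) (.e (nat_lit 6416) (nat_lit 341) (.e (nat_lit 163885) (nat_lit 5) (.e (nat_lit 221219) (nat_lit 24) (.e (nat_lit 213028) (nat_lit 10) .nil)))))))) (.g (nat_lit 7) .nil .nil))) 
(.lf (nat_lit 130665) (.g (nat_lit 3287) (.e (nat_lit 8326) (nat_lit 69) (.e (nat_lit 557100) (nat_lit 13) (.e (nat_lit 172113) (nat_lit 10) (.e (nat_lit 434248) (nat_lit 28) (.e (nat_lit 573452) (nat_lit 9) (.e (nat_lit 430) (nat_lit 32) (.e (nat_lit 426012) (nat_lit 0) (.e (nat_lit 7376) (nat_lit 389) .nil)))))))) (.g (nat_lit 4) .nil .nil)))) (.nd (nat_lit 5) 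
(.lf (nat_lit 130649) (.g (nat_lit 3245) (.e (nat_lit 8326) (nat_lit 69) (.e (nat_lit 557100) (nat_lit 13) (.e (nat_lit 172113) (nat_lit 10) (.e (nat_lit 434245) (nat_lit 28) (.e (nat_lit 573470) (nat_lit 11) (.e (nat_lit 16388) (nat_lit 0) (.e (nat_lit 7376) (nat_lit 389) .nil))))))) (.g (nat_lit 4) .nil .nil))) 
(.lf (nat_lit 130681) (.g (nat_lit 2115) (.e (nat_lit 8326) (nat_lit 69) (.e (nat_lit 557101) (nat_lit 13) (.e (nat_lit 172097) (nat_lit 9) (.e (nat_lit 426140) (nat_lit 3) (.e (nat_lit 204821) (nat_lit 17) (.e (nat_lit 6114) (nat_lit 332) (.e (nat_lit 970) (nat_lit 81) (.e (nat_lit 5740) (nat_lit 313) .nil)))))))) (.g (nat_lit 4) .nil .nil)))))) (.nd (nat_lit 3) (.nd (nat_lit 4) (.nd (nat_lit 5) 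
(.lf (nat_lit 130629) (.g (nat_lit 3408) (.e (nat_lit 8326) (nat_lit 69) (.e (nat_lit 557100) (nat_lit 13) (.e (nat_lit 172113) (nat_lit 10) (.e (nat_lit 434207) (nat_lit 18) (.e (nat_lit 6416) (nat_lit 341) (.e (nat_lit 163886) (nat_lit 5) (.e (nat_lit 221219) (nat_lit 24) (.e (nat_lit 213028) (nat_lit 10) .nil)))))))) (.g (nat_lit 5) .nil .nil))) 
(.lf (nat_lit 130661) (.g (nat_lit 2928) (.e (nat_lit 8326) (nat_lit 69) (.e (nat_lit 557100) (nat_lit 13) (.e (nat_lit 172113) (nat_lit 10) (.e (nat_lit 434247) (nat_lit 28) (.e (nat_lit 573457) (nat_lit 9) (.e (nat_lit 430) (nat_lit 32) (.e (nat_lit 426012) (nat_lit 0) (.e (nat_lit 7376) (nat_lit 389) .nil)))))))) (.g (nat_lit 4) .nil .nil)))) (.nd (nat_lit 5) 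
(.lf (nat_lit 130645) (.g (nat_lit 3292) (.e (nat_lit 8326) (nat_lit 69) (.e (nat_lit 557100) (nat_lit 13) (.e (nat_lit 172113) (nat_lit 10) (.e (nat_lit 434245) (nat_lit 28) (.e (nat_lit 573451) (nat_lit 9) (.e (nat_lit 430) (nat_lit 32) (.e (nat_lit 426011) (nat_lit 0) (.e (nat_lit 7374) (nat_lit 389) .nil)))))))) (.g (nat_lit 4) .nil .nil))) 
(.lf (nat_lit 130677) (.g (nat_lit 2930) (.e (nat_lit 8326) (nat_lit 69) (.e (nat_lit 557101) (nat_lit 13) (.e (nat_lit 172097) (nat_lit 9) (.e (nat_lit 426125) (nat_lit 2) (.e (nat_lit 196661) (nat_lit 12) (.e (nat_lit 57712) (nat_lit 176) (.e (nat_lit 973) (nat_lit 81) (.e (nat_lit 5743) (nat_lit 313) .nil)))))))) (.g (nat_lit 5) .nil .nil))))) (.nd (nat_lit 4) (.nd (nat_lit 5) 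
(.lf (nat_lit 130637) (.g (nat_lit 3052) (.e (nat_lit 8326) (nat_lit 69) (.e (nat_lit 557100) (nat_lit 13) (.e (nat_lit 172113) (nat_lit 10) (.e (nat_lit 434208) (nat_lit 18) (.e (nat_lit 6420) (nat_lit 341) (.e (nat_lit 163885) (nat_lit 5) (.e (nat_lit 221218) (nat_lit 24) (.e (nat_lit 213027) (nat_lit 10) .nil)))))))) (.g (nat_lit 4) .nil .nil))) 
(.lf (nat_lit 130669) (.g (nat_lit 1799) (.e (nat_lit 8326) (nat_lit 69) (.e (nat_lit 557101) (nat_lit 13) (.e (nat_lit 172097) (nat_lit 9) (.e (nat_lit 426125) (nat_lit 2) (.e (nat_lit 196661) (nat_lit 12) (.e (nat_lit 57711) (nat_lit 176) (.e (nat_lit 1106) (nat_lit 81) (.e (nat_lit 5742) (nat_lit 313) .nil)))))))) (.g (nat_lit 4) .nil .nil)))) (.nd (nat_lit 5) 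
(.lf (nat_lit 130653) (.g (nat_lit 3962) (.e (nat_lit 8326) (nat_lit 69) (.e (nat_lit 557100) (nat_lit 13) (.e (nat_lit 172113) (nat_lit 10) (.e (nat_lit 434245) (nat_lit 28) (.e (nat_lit 573471) (nat_lit 11) (.e (nat_lit 16388) (nat_lit 0) (.e (nat_lit 7376) (nat_lit 389) .nil))))))) (.g (nat_lit 5) .nil .nil))) 
(.lf (nat_lit 130685) (.g (nat_lit 2009) (.e (nat_lit 8326) (nat_lit 69) (.e (nat_lit 557101) (nat_lit 13) (.e (nat_lit 172097) (nat_lit 9) (.e (nat_lit 426140) (nat_lit 3) (.e (nat_lit 204821) (nat_lit 17) (.e (nat_lit 6114) (nat_lit 332) (.e (nat_lit 972) (nat_lit 81) (.e (nat_lit 5743) (nat_lit 313) .nil)))))))) (.g (nat_lit 4) .nil .nil))))))) 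
(.nd (nat_lit 2) (.nd (nat_lit 3) (.nd (nat_lit 4) (.nd (nat_lit 5) 
(.lf (nat_lit 130627) (.g (nat_lit 4533) (.e (nat_lit 8326) (nat_lit 69) (.e (nat_lit 557100) (nat_lit 13) (.e (nat_lit 172113) (nat_lit 10) (.e (nat_lit 434207) (nat_lit 18) (.e (nat_lit 6416) (nat_lit 341) (.e (nat_lit 163885) (nat_lit 5) (.e (nat_lit 221219) (nat_lit 24) (.e (nat_lit 213028) (nat_lit 10) .nil)))))))) (.g (nat_lit 7) .nil .nil))) 
(.lf (nat_lit 130659) (.g (nat_lit 3248) (.e (nat_lit 8326) (nat_lit 69) (.e (nat_lit 557100) (nat_lit 13) (.e (nat_lit 172113) (nat_lit 10) (.e (nat_lit 434247) (nat_lit 28) (.e (nat_lit 573456) (nat_lit 9) (.e (nat_lit 430) (nat_lit 32) (.e (nat_lit 426012) (nat_lit 0) (.e (nat_lit 7376) (nat_lit 389) .nil)))))))) (.g (nat_lit 4) .nil .nil)))) (.nd (nat_lit 5) 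
(.lf (nat_lit 130643) (.g (nat_lit 2525) (.e (nat_lit 8326) (nat_lit 69) (.e (nat_lit 557100) (nat_lit 13) (.e (nat_lit 172113) (nat_lit 10) (.e (nat_lit 434245) (nat_lit 28) (.e (nat_lit 573450) (nat_lit 9) (.e (nat_lit 375) (nat_lit 32) (.e (nat_lit 426025) (nat_lit 0) (.e (nat_lit 7936) (nat_lit 389) .nil)))))))) (.g (nat_lit 4) .nil .nil))) 
(.lf (nat_lit 130675) (.g (nat_lit 1818) (.e (nat_lit 8326) (nat_lit 69) (.e (nat_lit 557101) (nat_lit 13) (.e (nat_lit 172097) (nat_lit 9) (.e (nat_lit 426125) (nat_lit 2) (.e (nat_lit 196661) (nat_lit 12) (.e (nat_lit 57712) (nat_lit 176) (.e (nat_lit 972) (nat_lit 81) (.e (nat_lit 5743) (nat_lit 313) .nil)))))))) (.g (nat_lit 4) .nil .nil))))) (.nd (nat_lit 4) (.nd (nat_lit 5) 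
(.lf (nat_lit 130635) (.g (nat_lit 3752) (.e (nat_lit 8326) (nat_lit 69) (.e (nat_lit 557100) (nat_lit 13) (.e (nat_lit 172113) (nat_lit 10) (.e (nat_lit 434208) (nat_lit 18) (.e (nat_lit 6416) (nat_lit 341) (.e (nat_lit 163886) (nat_lit 5) (.e (nat_lit 221219) (nat_lit 24) (.e (nat_lit 213028) (nat_lit 10) .nil)))))))) (.g (nat_lit 5) .nil .nil))) 
(.lf (nat_lit 130667) (.g (nat_lit 2950) (.e (nat_lit 8326) (nat_lit 69) (.e (nat_lit 557100) (nat_lit 13) (.e (nat_lit 172113) (nat_lit 10) (.e (nat_lit 434248) (nat_lit 28) (.e (nat_lit 573471) (nat_lit 11) (.e (nat_lit 16388) (nat_lit 0) (.e (nat_lit 7376) (nat_lit 389) .nil))))))) (.g (nat_lit 4) .nil .nil)))) (.nd (nat_lit 5) 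
(.lf (nat_lit 130651) (.g (nat_lit 2911) (.e (nat_lit 8326) (nat_lit 69) (.e (nat_lit 557100) (nat_lit 13) (.e (nat_lit 172113) (nat_lit 10) (.e (nat_lit 434245) (nat_lit 28) (.e (nat_lit 573471) (nat_lit 11) (.e (nat_lit 16385) (nat_lit 0) (.e (nat_lit 7374) (nat_lit 389) .nil))))))) (.g (nat_lit 4) .nil .nil))) 
(.lf (nat_lit 130683) (.g (nat_lit 2522) (.e (nat_lit 8326) (nat_lit 69) (.e (nat_lit 557101) (nat_lit 13) (.e (nat_lit 172097) (nat_lit 9) (.e (nat_lit 426140) (nat_lit 3) (.e (nat_lit 204821) (nat_lit 17) (.e (nat_lit 6114) (nat_lit 332) (.e (nat_lit 972) (nat_lit 81) (.e (nat_lit 5740) (nat_lit 313) .nil)))))))) (.g (nat_lit 5) .nil .nil)))))) (.nd (nat_lit 3) (.nd (nat_lit 4) (.nd (nat_lit 5) 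
(.lf (nat_lit 130631) (.g (nat_lit 2887) (.e (nat_lit 8326) (nat_lit 69) (.e (nat_lit 557100) (nat_lit 13) (.e (nat_lit 172113) (nat_lit 10) (.e (nat_lit 434208) (nat_lit 18) (.e (nat_lit 6416) (nat_lit 341) (.e (nat_lit 163885) (nat_lit 5) (.e (nat_lit 221218) (nat_lit 24) (.e (nat_lit 213029) (nat_lit 10) .nil)))))))) (.g (nat_lit 4) .nil .nil))) 
(.lf (nat_lit 130663) (.g (nat_lit 3227) (.e (nat_lit 8326) (nat_lit 69) (.e (nat_lit 557100) (nat_lit 13) (.e (nat_lit 172113) (nat_lit 10) (.e (nat_lit 434248) (nat_lit 28) (.e (nat_lit 573452) (nat_lit 9) (.e (nat_lit 430) (nat_lit 32) (.e (nat_lit 426011) (nat_lit 0) (.e (nat_lit 7374) (nat_lit 389) .nil)))))))) (.g (nat_lit 4) .nil .nil)))) (.nd (nat_lit 5) 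
(.lf (nat_lit 130647) (.g (nat_lit 3338) (.e (nat_lit 8326) (nat_lit 69) (.e (nat_lit 557100) (nat_lit 13) (.e (nat_lit 172113) (nat_lit 10) (.e (nat_lit 434245) (nat_lit 28) (.e (nat_lit 573451) (nat_lit 9) (.e (nat_lit 430) (nat_lit 32) (.e (nat_lit 426012) (nat_lit 0) (.e (nat_lit 7376) (nat_lit 389) .nil)))))))) (.g (nat_lit 4) .nil .nil))) 
(.lf (nat_lit 130679) (.g (nat_lit 1596) (.e (nat_lit 8326) (nat_lit 69) (.e (nat_lit 557101) (nat_lit 13) (.e (nat_lit 172097) (nat_lit 9) (.e (nat_lit 426140) (nat_lit 3) (.e (nat_lit 204821) (nat_lit 17) .nil))))) .nil)))) (.nd (nat_lit 4) (.nd (nat_lit 5) 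
(.lf (nat_lit 130639) (.g (nat_lit 4484) (.e (nat_lit 8326) (nat_lit 69) (.e (nat_lit 557100) (nat_lit 13) (.e (nat_lit 172113) (nat_lit 10) (.e (nat_lit 434208) (nat_lit 18) (.e (nat_lit 6420) (nat_lit 341) (.e (nat_lit 163885) (nat_lit 5) (.e (nat_lit 221219) (nat_lit 24) (.e (nat_lit 213027) (nat_lit 10) .nil)))))))) (.g (nat_lit 6) .nil .nil))) 
(.lf (nat_lit 130671) (.g (nat_lit 2298) (.e (nat_lit 8326) (nat_lit 69) (.e (nat_lit 557101) (nat_lit 13) (.e (nat_lit 172097) (nat_lit 9) (.e (nat_lit 426125) (nat_lit 2) (.e (nat_lit 196661) (nat_lit 12) (.e (nat_lit 57712) (nat_lit 176) (.e (nat_lit 970) (nat_lit 81) (.e (nat_lit 5740) (nat_lit 313) .nil)))))))) (.g (nat_lit 4) .nil .nil)))) (.nd (nat_lit 5) 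
(.lf (nat_lit 130655) (.g (nat_lit 2495) (.e (nat_lit 8326) (nat_lit 69) (.e (nat_lit 557100) (nat_lit 13) (.e (nat_lit 172113) (nat_lit 10) (.e (nat_lit 434245) (nat_lit 28) (.e (nat_lit 573471) (nat_lit 11) (.e (nat_lit 16396) (nat_lit 0) (.e (nat_lit 7936) (nat_lit 389) .nil))))))) (.g (nat_lit 4) .nil .nil))) 
(.lf (nat_lit 130687) (.g (nat_lit 3173) (.e (nat_lit 8326) (nat_lit 69) (.e (nat_lit 557101) (nat_lit 13) (.e (nat_lit 172097) (nat_lit 9) (.e (nat_lit 426140) (nat_lit 3) (.e (nat_lit 204821) (nat_lit 17) (.e (nat_lit 6114) (nat_lit 332) (.e (nat_lit 973) (nat_lit 81) (.e (nat_lit 5743) (nat_lit 313) .nil)))))))) (.g (nat_lit 6) .nil .nil)))))))))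

noncomputable def tv1743 : DT := (.nd (nat_lit 0) (.nd (nat_lit 1) (.nd (nat_lit 2) (.nd (nat_lit 3) (.nd (nat_lit 4) (.nd (nat_lit 5) 
(.lf (nat_lit 130688) (.g (nat_lit 2925) (.e (nat_lit 8326) (nat_lit 69) (.e (nat_lit 557101) (nat_lit 13) (.e (nat_lit 172097) (nat_lit 9) (.e (nat_lit 426140) (nat_lit 3) (.e (nat_lit 204821) (nat_lit 17) (.e (nat_lit 6114) (nat_lit 332) (.e (nat_lit 1055) (nat_lit 81) (.e (nat_lit 5740) (nat_lit 313) .nil)))))))) (.g (nat_lit 6) .nil .nil))) 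
(.lf (nat_lit 130720) (.g (nat_lit 2529) (.e (nat_lit 8326) (nat_lit 69) (.e (nat_lit 557101) (nat_lit 13) (.e (nat_lit 172115) (nat_lit 10) (.e (nat_lit 434244) (nat_lit 28) (.e (nat_lit 573450) (nat_lit 9) (.e (nat_lit 442) (nat_lit 33) (.e (nat_lit 442112) (nat_lit 9) .nil))))))) (.g (nat_lit 6) .nil .nil)))) (.nd (nat_lit 5) 
(.lf (nat_lit 130704) (.g (nat_lit 3338) (.e (nat_lit 8326) (nat_lit 69) (.e (nat_lit 557101) (nat_lit 13) (.e (nat_lit 172115) (nat_lit 10) (.e (nat_lit 434231) (nat_lit 23) (.e (nat_lit 532490) (nat_lit 0) (.e (nat_lit 6114) (nat_lit 332) (.e (nat_lit 970) (nat_lit 81) (.e (nat_lit 5740) (nat_lit 313) .nil)))))))) (.g (nat_lit 5) .nil .nil))) 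
(.lf (nat_lit 130736) (.g (nat_lit 2471) (.e (nat_lit 8326) (nat_lit 69) (.e (nat_lit 557103) (nat_lit 14) (.e (nat_lit 180250) (nat_lit 10) (.e (nat_lit 573487) (nat_lit 14) (.e (nat_lit 81664) (nat_lit 5) (.e (nat_lit 532519) (nat_lit 5) (.e (nat_lit 147488) (nat_lit 10) .nil))))))) (.g (nat_lit 4) .nil .nil))))) (.nd (nat_lit 4) (.nd (nat_lit 5) 
(.lf (nat_lit 130696) (.g (nat_lit 3117) (.e (nat_lit 8326) (nat_lit 69) (.e (nat_lit 557101) (nat_lit 13) (.e (nat_lit 172097) (nat_lit 9) (.e (nat_lit 426140) (nat_lit 3) (.e (nat_lit 204863) (nat_lit 27) (.e (nat_lit 344096) (nat_lit 18) (.e (nat_lit 4764) (nat_lit 281) (.e (nat_lit 2546) (nat_lit 158) .nil)))))))) (.g (nat_lit 5) .nil .nil))) 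
(.lf (nat_lit 130728) (.g (nat_lit 4306) (.e (nat_lit 8326) (nat_lit 69) (.e (nat_lit 557103) (nat_lit 14) (.e (nat_lit 180250) (nat_lit 10) (.e (nat_lit 573487) (nat_lit 14) (.e (nat_lit 81664) (nat_lit 1) (.e (nat_lit 500056) (nat_lit 17) (.e (nat_lit 57575) (nat_lit 55) (.e (nat_lit 778452) (nat_lit 10) .nil)))))))) (.g (nat_lit 7) .nil .nil)))) (.nd (nat_lit 5) 
(.lf (nat_lit 130712) (.g (nat_lit 3854) (.e (nat_lit 8326) (nat_lit 69) (.e (nat_lit 557101) (nat_lit 13) (.e (nat_lit 172115) (nat_lit 10) (.e (nat_lit 434231) (nat_lit 23) (.e (nat_lit 532490) (nat_lit 0) (.e (nat_lit 6114) (nat_lit 332) (.e (nat_lit 1083) (nat_lit 81) (.e (nat_lit 5740) (nat_lit 313) .nil)))))))) (.g (nat_lit 6) .nil .nil))) 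
(.lf (nat_lit 130744) (.g (nat_lit 2215) (.e (nat_lit 8326) (nat_lit 69) (.e (nat_lit 557103) (nat_lit 14) (.e (nat_lit 180250) (nat_lit 10) (.e (nat_lit 573488) (nat_lit 14) (.e (nat_lit 81664) (nat_lit 5) (.e (nat_lit 532490) (nat_lit 0) (.e (nat_lit 2346) (nat_lit 151) (.e (nat_lit 778455) (nat_lit 10) .nil)))))))) (.g (nat_lit 4) .nil .nil)))))) 
(.nd (nat_lit 3) (.nd (nat_lit 4) (.nd (nat_lit 5) 
(.lf (nat_lit 130692) (.g (nat_lit 2670) (.e (nat_lit 8326) (nat_lit 69) (.e (nat_lit 557101) (nat_lit 13) (.e (nat_lit 172097) (nat_lit 9) (.e (nat_lit 426140) (nat_lit 3) (.e (nat_lit 204821) (nat_lit 17) (.e (nat_lit 6114) (nat_lit 332) (.e (nat_lit 1085) (nat_lit 81) (.e (nat_lit 5740) (nat_lit 313) .nil)))))))) (.g (nat_lit 5) .nil .nil))) 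
(.lf (nat_lit 130724) (.g (nat_lit 1469) (.e (nat_lit 8326) (nat_lit 69) (.e (nat_lit 557103) (nat_lit 14) (.e (nat_lit 180243) (nat_lit 5) (.e (nat_lit 532515) (nat_lit 3) .nil)))) .nil))) (.nd (nat_lit 5) 
(.lf (nat_lit 130708) (.g (nat_lit 4142) (.e (nat_lit 8326) (nat_lit 69) (.e (nat_lit 557101) (nat_lit 13) (.e (nat_lit 172115) (nat_lit 10) (.e (nat_lit 434231) (nat_lit 23) (.e (nat_lit 532490) (nat_lit 0) (.e (nat_lit 6114) (nat_lit 332) (.e (nat_lit 973) (nat_lit 81) (.e (nat_lit 5740) (nat_lit 313) .nil)))))))) (.g (nat_lit 6) .nil .nil))) 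
(.lf (nat_lit 130740) (.g (nat_lit 1021) (.e (nat_lit 8326) (nat_lit 69) (.e (nat_lit 557103) (nat_lit 14) (.e (nat_lit 180250) (nat_lit 10) (.e (nat_lit 573488) (nat_lit 14) .nil)))) .nil)))) (.nd (nat_lit 4) (.nd (nat_lit 5) 
(.lf (nat_lit 130700) (.g (nat_lit 2200) (.e (nat_lit 8326) (nat_lit 69) (.e (nat_lit 557101) (nat_lit 13) (.e (nat_lit 172115) (nat_lit 10) (.e (nat_lit 434231) (nat_lit 23) (.e (nat_lit 532486) (nat_lit 0) (.e (nat_lit 6218) (nat_lit 333) (.e (nat_lit 65280) (nat_lit 257) .nil))))))) (.g (nat_lit 4) .nil .nil))) 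
(.lf (nat_lit 130732) (.g (nat_lit 3035) (.e (nat_lit 8326) (nat_lit 69) (.e (nat_lit 557103) (nat_lit 14) (.e (nat_lit 180250) (nat_lit 10) (.e (nat_lit 573487) (nat_lit 14) (.e (nat_lit 81664) (nat_lit 5) (.e (nat_lit 532490) (nat_lit 0) (.e (nat_lit 2346) (nat_lit 151) (.e (nat_lit 778453) (nat_lit 10) .nil)))))))) (.g (nat_lit 4) .nil .nil)))) (.nd (nat_lit 5) 
(.lf (nat_lit 130716) (.g (nat_lit 2449) (.e (nat_lit 8326) (nat_lit 69) (.e (nat_lit 557101) (nat_lit 13) (.e (nat_lit 172115) (nat_lit 10) (.e (nat_lit 434231) (nat_lit 23) (.e (nat_lit 532525) (nat_lit 8) (.e (nat_lit 327702) (nat_lit 10) (.e (nat_lit 7936) (nat_lit 313) .nil))))))) (.g (nat_lit 5) .nil .nil))) 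
(.lf (nat_lit 130748) (.g (nat_lit 2095) (.e (nat_lit 8326) (nat_lit 69) (.e (nat_lit 557103) (nat_lit 14) (.e (nat_lit 180250) (nat_lit 10) (.e (nat_lit 573489) (nat_lit 14) (.e (nat_lit 73755) (nat_lit 8) (.e (nat_lit 557089) (nat_lit 12) (.e (nat_lit 164006) (nat_lit 41) (.e (nat_lit 663582) (nat_lit 10) .nil)))))))) (.g (nat_lit 4) .nil .nil))))))) 
(.nd (nat_lit 2) (.nd (nat_lit 3) (.nd (nat_lit 4) (.nd (nat_lit 5) 
(.lf (nat_lit 130690) (.g (nat_lit 3227) (.e (nat_lit 8326) (nat_lit 69) (.e (nat_lit 557101) (nat_lit 13) (.e (nat_lit 172097) (nat_lit 9) (.e (nat_lit 426140) (nat_lit 3) (.e (nat_lit 204821) (nat_lit 17) (.e (nat_lit 6114) (nat_lit 332) (.e (nat_lit 1082) (nat_lit 81) (.e (nat_lit 5740) (nat_lit 313) .nil)))))))) (.g (nat_lit 6) .nil .nil))) 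
(.lf (nat_lit 130722) (.g (nat_lit 2893) (.e (nat_lit 8326) (nat_lit 69) (.e (nat_lit 557103) (nat_lit 14) (.e (nat_lit 180243) (nat_lit 5) (.e (nat_lit 532513) (nat_lit 3) (.e (nat_lit 122624) (nat_lit 3) (.e (nat_lit 204842) (nat_lit 22) (.e (nat_lit 147487) (nat_lit 10) .nil))))))) (.g (nat_lit 4) .nil .nil)))) (.nd (nat_lit 5) 
(.lf (nat_lit 130706) (.g (nat_lit 4469) (.e (nat_lit 8326) (nat_lit 69) (.e (nat_lit 557101) (nat_lit 13) (.e (nat_lit 172115) (nat_lit 10) (.e (nat_lit 434231) (nat_lit 23) (.e (nat_lit 532490) (nat_lit 0) (.e (nat_lit 6114) (nat_lit 332) (.e (nat_lit 972) (nat_lit 81) (.e (nat_lit 5741) (nat_lit 313) .nil)))))))) (.g (nat_lit 6) .nil .nil))) 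
(.lf (nat_lit 130738) (.g (nat_lit 2759) (.e (nat_lit 8326) (nat_lit 69) (.e (nat_lit 557103) (nat_lit 14) (.e (nat_lit 180250) (nat_lit 10) (.e (nat_lit 573487) (nat_lit 14) (.e (nat_lit 81664) (nat_lit 5) (.e (nat_lit 532519) (nat_lit 5) (.e (nat_lit 147490) (nat_lit 10) .nil))))))) (.g (nat_lit 4) .nil .nil))))) (.nd (nat_lit 4) (.nd (nat_lit 5) 
(.lf (nat_lit 130698) (.g (nat_lit 2097) (.e (nat_lit 8326) (nat_lit 69) (.e (nat_lit 557101) (nat_lit 13) (.e (nat_lit 172115) (nat_lit 10) (.e (nat_lit 434202) (nat_lit 18) (.e (nat_lit 6416) (nat_lit 341) (.e (nat_lit 163885) (nat_lit 5) (.e (nat_lit 221219) (nat_lit 24) (.e (nat_lit 213028) (nat_lit 10) .nil)))))))) (.g (nat_lit 4) .nil .nil))) 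
(.lf (nat_lit 130730) (.g (nat_lit 2859) (.e (nat_lit 8326) (nat_lit 69) (.e (nat_lit 557103) (nat_lit 14) (.e (nat_lit 180250) (nat_lit 10) (.e (nat_lit 573487) (nat_lit 14) (.e (nat_lit 81664) (nat_lit 5) (.e (nat_lit 532490) (nat_lit 0) (.e (nat_lit 2334) (nat_lit 151) (.e (nat_lit 778447) (nat_lit 10) .nil)))))))) (.g (nat_lit 4) .nil .nil)))) (.nd (nat_lit 5) 
(.lf (nat_lit 130714) (.g (nat_lit 3485) (.e (nat_lit 8326) (nat_lit 69) (.e (nat_lit 557101) (nat_lit 13) (.e (nat_lit 172115) (nat_lit 10) (.e (nat_lit 434231) (nat_lit 23) (.e (nat_lit 532490) (nat_lit 0) (.e (nat_lit 6223) (nat_lit 334) (.e (nat_lit 123174) (nat_lit 257) .nil))))))) (.g (nat_lit 6) .nil .nil))) 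
(.lf (nat_lit 130746) (.g (nat_lit 2618) (.e (nat_lit 8326) (nat_lit 69) (.e (nat_lit 557103) (nat_lit 14) (.e (nat_lit 180250) (nat_lit 10) (.e (nat_lit 573489) (nat_lit 14) (.e (nat_lit 81664) (nat_lit 1) (.e (nat_lit 500056) (nat_lit 17) (.e (nat_lit 57575) (nat_lit 55) (.e (nat_lit 778455) (nat_lit 10) .nil)))))))) (.g (nat_lit 4) .nil .nil)))))) 
(.nd (nat_lit 3) (.nd (nat_lit 4) (.nd (nat_lit 5) 
(.lf (nat_lit 130694) (.g (nat_lit 2472) (.e (nat_lit 8326) (nat_lit 69) (.e (nat_lit 557101) (nat_lit 13) (.e (nat_lit 172097) (nat_lit 9) (.e (nat_lit 426140) (nat_lit 3) (.e (nat_lit 204821) (nat_lit 17) (.e (nat_lit 6206) (nat_lit 333) (.e (nat_lit 65280) (nat_lit 257) .nil))))))) (.g (nat_lit 6) .nil .nil))) 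
(.lf (nat_lit 130726) (.g (nat_lit 1579) (.e (nat_lit 8326) (nat_lit 69) (.e (nat_lit 557103) (nat_lit 14) (.e (nat_lit 180250) (nat_lit 10) (.e (nat_lit 573480) (nat_lit 13) .nil)))) .nil))) (.nd (nat_lit 5) 
(.lf (nat_lit 130710) (.g (nat_lit 3208) (.e (nat_lit 8326) (nat_lit 69) (.e (nat_lit 557101) (nat_lit 13) (.e (nat_lit 172115) (nat_lit 10) (.e (nat_lit 434231) (nat_lit 23) (.e (nat_lit 532490) (nat_lit 0) (.e (nat_lit 6114) (nat_lit 332) (.e (nat_lit 1076) (nat_lit 81) (.e (nat_lit 5740) (nat_lit 313) .nil)))))))) (.g (nat_lit 5) .nil .nil))) 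
(.lf (nat_lit 130742) (.g (nat_lit 2307) (.e (nat_lit 8326) (nat_lit 69) (.e (nat_lit 557103) (nat_lit 14) (.e (nat_lit 180250) (nat_lit 10) (.e (nat_lit 573488) (nat_lit 14) (.e (nat_lit 81664) (nat_lit 1) (.e (nat_lit 500056) (nat_lit 17) (.e (nat_lit 57575) (nat_lit 55) (.e (nat_lit 778453) (nat_lit 10) .nil)))))))) (.g (nat_lit 4) .nil .nil))))) (.nd (nat_lit 4) (.nd (nat_lit 5) 
(.lf (nat_lit 130702) (.g (nat_lit 3875) (.e (nat_lit 8326) (nat_lit 69) (.e (nat_lit 557101) (nat_lit 13) (.e (nat_lit 172115) (nat_lit 10) (.e (nat_lit 434231) (nat_lit 23) (.e (nat_lit 532490) (nat_lit 0) (.e (nat_lit 6114) (nat_lit 332) (.e (nat_lit 968) (nat_lit 81) (.e (nat_lit 5741) (nat_lit 313) .nil)))))))) (.g (nat_lit 6) .nil .nil))) 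
(.lf (nat_lit 130734) (.g (nat_lit 3145) (.e (nat_lit 8326) (nat_lit 69) (.e (nat_lit 557103) (nat_lit 14) (.e (nat_lit 180250) (nat_lit 10) (.e (nat_lit 573487) (nat_lit 14) (.e (nat_lit 81664) (nat_lit 5) (.e (nat_lit 532490) (nat_lit 0) (.e (nat_lit 7936) (nat_lit 151) (.e (nat_lit 778447) (nat_lit 10) .nil)))))))) (.g (nat_lit 4) .nil .nil)))) (.nd (nat_lit 5) 
(.lf (nat_lit 130718) (.g (nat_lit 1871) (.e (nat_lit 8326) (nat_lit 69) (.e (nat_lit 557101) (nat_lit 13) (.e (nat_lit 172115) (nat_lit 10) (.e (nat_lit 434231) (nat_lit 23) (.e (nat_lit 532525) (nat_lit 8) (.e (nat_lit 327709) (nat_lit 10) (.e (nat_lit 5740) (nat_lit 313) .nil))))))) (.g (nat_lit 4) .nil .nil))) 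
(.lf (nat_lit 130750) (.g (nat_lit 2193) (.e (nat_lit 8326) (nat_lit 69) (.e (nat_lit 557103) (nat_lit 14) (.e (nat_lit 180250) (nat_lit 10) (.e (nat_lit 573489) (nat_lit 14) (.e (nat_lit 73755) (nat_lit 8) (.e (nat_lit 557090) (nat_lit 12) (.e (nat_lit 163844) (nat_lit 0) (.e (nat_lit 5798) (nat_lit 320) (.e (nat_lit 2547) (nat_lit 158) .nil))))))))) (.g (nat_lit 4) .nil .nil)))))))) 
(.nd (nat_lit 1) (.nd (nat_lit 2) (.nd (nat_lit 3) (.nd (nat_lit 4) (.nd (nat_lit 5) 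
(.lf (nat_lit 130689) (.g (nat_lit 2128) (.e (nat_lit 8326) (nat_lit 69) (.e (nat_lit 557101) (nat_lit 13) (.e (nat_lit 172097) (nat_lit 9) (.e (nat_lit 426140) (nat_lit 3) (.e (nat_lit 204821) (nat_lit 17) (.e (nat_lit 6114) (nat_lit 332) (.e (nat_lit 1076) (nat_lit 81) (.e (nat_lit 5740) (nat_lit 313) .nil)))))))) (.g (nat_lit 4) .nil .nil))) 
(.lf (nat_lit 130721) (.g (nat_lit 2369) (.e (nat_lit 8326) (nat_lit 69) (.e (nat_lit 557103) (nat_lit 14) (.e (nat_lit 180243) (nat_lit 5) (.e (nat_lit 532513) (nat_lit 3) (.e (nat_lit 122624) (nat_lit 3) .nil))))) .nil))) (.nd (nat_lit 5) 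
(.lf (nat_lit 130705) (.g (nat_lit 3657) (.e (nat_lit 8326) (nat_lit 69) (.e (nat_lit 557101) (nat_lit 13) (.e (nat_lit 172115) (nat_lit 10) (.e (nat_lit 434231) (nat_lit 23) (.e (nat_lit 532490) (nat_lit 0) (.e (nat_lit 6114) (nat_lit 332) (.e (nat_lit 970) (nat_lit 81) (.e (nat_lit 5741) (nat_lit 313) .nil)))))))) (.g (nat_lit 5) .nil .nil))) 
(.lf (nat_lit 130737) (.g (nat_lit 2961) (.e (nat_lit 8326) (nat_lit 69) (.e (nat_lit 557103) (nat_lit 14) (.e (nat_lit 180250) (nat_lit 10) (.e (nat_lit 573487) (nat_lit 14) (.e (nat_lit 81664) (nat_lit 5) (.e (nat_lit 532519) (nat_lit 5) (.e (nat_lit 147489) (nat_lit 10) .nil))))))) (.g (nat_lit 4) .nil .nil))))) (.nd (nat_lit 4) (.nd (nat_lit 5) 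
(.lf (nat_lit 130697) (.g (nat_lit 1122) (.e (nat_lit 8326) (nat_lit 69) (.e (nat_lit 557101) (nat_lit 13) (.e (nat_lit 172115) (nat_lit 10) (.e (nat_lit 434202) (nat_lit 18) .nil)))) .nil)) 
(.lf (nat_lit 130729) (.g (nat_lit 2424) (.e (nat_lit 8326) (nat_lit 69) (.e (nat_lit 557103) (nat_lit 14) (.e (nat_lit 180250) (nat_lit 10) (.e (nat_lit 573487) (nat_lit 14) (.e (nat_lit 81664) (nat_lit 5) .nil))))) .nil))) (.nd (nat_lit 5) 
(.lf (nat_lit 130713) (.g (nat_lit 3073) (.e (nat_lit 8326) (nat_lit 69) (.e (nat_lit 557101) (nat_lit 13) (.e (nat_lit 172115) (nat_lit 10) (.e (nat_lit 434231) (nat_lit 23) (.e (nat_lit 532490) (nat_lit 0) (.e (nat_lit 6206) (nat_lit 333) (.e (nat_lit 65280) (nat_lit 257) .nil))))))) (.g (nat_lit 6) .nil .nil))) 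
(.lf (nat_lit 130745) (.g (nat_lit 2482) (.e (nat_lit 8326) (nat_lit 69) (.e (nat_lit 557103) (nat_lit 14) (.e (nat_lit 180250) (nat_lit 10) (.e (nat_lit 573489) (nat_lit 14) (.e (nat_lit 81664) (nat_lit 1) .nil))))) .nil))))) (.nd (nat_lit 3) (.nd (nat_lit 4) (.nd (nat_lit 5) 
(.lf (nat_lit 130693) (.g (nat_lit 2135) (.e (nat_lit 8326) (nat_lit 69) (.e (nat_lit 557101) (nat_lit 13) (.e (nat_lit 172097) (nat_lit 9) (.e (nat_lit 426140) (nat_lit 3) (.e (nat_lit 204821) (nat_lit 17) (.e (nat_lit 6114) (nat_lit 332) (.e (nat_lit 1107) (nat_lit 81) (.e (nat_lit 5740) (nat_lit 313) .nil)))))))) (.g (nat_lit 4) .nil .nil))) 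
(.lf (nat_lit 130725) (.g (nat_lit 2657) (.e (nat_lit 8326) (nat_lit 69) (.e (nat_lit 557103) (nat_lit 14) (.e (nat_lit 180244) (nat_lit 5) (.e (nat_lit 532513) (nat_lit 3) (.e (nat_lit 122624) (nat_lit 3) .nil))))) .nil))) (.nd (nat_lit 5) 
(.lf (nat_lit 130709) (.g (nat_lit 4304) (.e (nat_lit 8326) (nat_lit 69) (.e (nat_lit 557101) (nat_lit 13) (.e (nat_lit 172115) (nat_lit 10) (.e (nat_lit 434231) (nat_lit 23) (.e (nat_lit 532490) (nat_lit 0) (.e (nat_lit 6114) (nat_lit 332) (.e (nat_lit 973) (nat_lit 81) (.e (nat_lit 5743) (nat_lit 313) .nil)))))))) (.g (nat_lit 6) .nil .nil))) 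
(.lf (nat_lit 130741) (.g (nat_lit 2416) (.e (nat_lit 8326) (nat_lit 69) (.e (nat_lit 557103) (nat_lit 14) (.e (nat_lit 180250) (nat_lit 10) (.e (nat_lit 573488) (nat_lit 14) (.e (nat_lit 81664) (nat_lit 1) (.e (nat_lit 500056) (nat_lit 17) (.e (nat_lit 57574) (nat_lit 55) (.e (nat_lit 778455) (nat_lit 10) .nil)))))))) (.g (nat_lit 4) .nil .nil))))) (.nd (nat_lit 4) (.nd (nat_lit 5) 
(.lf (nat_lit 130701) (.g (nat_lit 1708) (.e (nat_lit 8326) (nat_lit 69) (.e (nat_lit 557101) (nat_lit 13) (.e (nat_lit 172115) (nat_lit 10) (.e (nat_lit 434231) (nat_lit 23) (.e (nat_lit 532490) (nat_lit 0) .nil))))) .nil)) 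
(.lf (nat_lit 130733) (.g (nat_lit 2949) (.e (nat_lit 8326) (nat_lit 69) (.e (nat_lit 557103) (nat_lit 14) (.e (nat_lit 180250) (nat_lit 10) (.e (nat_lit 573487) (nat_lit 14) (.e (nat_lit 81664) (nat_lit 5) (.e (nat_lit 532490) (nat_lit 0) (.e (nat_lit 2346) (nat_lit 151) (.e (nat_lit 778454) (nat_lit 10) .nil)))))))) (.g (nat_lit 4) .nil .nil)))) (.nd (nat_lit 5) 
(.lf (nat_lit 130717) (.g (nat_lit 1955) (.e (nat_lit 8326) (nat_lit 69) (.e (nat_lit 557101) (nat_lit 13) (.e (nat_lit 172115) (nat_lit 10) (.e (nat_lit 434231) (nat_lit 23) (.e (nat_lit 532525) (nat_lit 8) (.e (nat_lit 327707) (nat_lit 10) (.e (nat_lit 5740) (nat_lit 313) .nil))))))) (.g (nat_lit 4) .nil .nil))) 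
(.lf (nat_lit 130749) (.g (nat_lit 2529) (.e (nat_lit 8326) (nat_lit 69) (.e (nat_lit 557103) (nat_lit 14) (.e (nat_lit 180250) (nat_lit 10) (.e (nat_lit 573489) (nat_lit 14) (.e (nat_lit 73755) (nat_lit 8) (.e (nat_lit 557090) (nat_lit 12) (.e (nat_lit 163843) (nat_lit 0) (.e (nat_lit 5799) (nat_lit 320) (.e (nat_lit 2540) (nat_lit 158) .nil))))))))) (.g (nat_lit 4) .nil .nil))))))) 
(.nd (nat_lit 2) (.nd (nat_lit 3) (.nd (nat_lit 4) (.nd (nat_lit 5) 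
(.lf (nat_lit 130691) (.g (nat_lit 2967) (.e (nat_lit 8326) (nat_lit 69) (.e (nat_lit 557101) (nat_lit 13) (.e (nat_lit 172097) (nat_lit 9) (.e (nat_lit 426140) (nat_lit 3) (.e (nat_lit 204821) (nat_lit 17) (.e (nat_lit 6114) (nat_lit 332) (.e (nat_lit 1083) (nat_lit 81) (.e (nat_lit 5740) (nat_lit 313) .nil)))))))) (.g (nat_lit 6) .nil .nil))) 
(.lf (nat_lit 130723) (.g (nat_lit 2773) (.e (nat_lit 8326) (nat_lit 69) (.e (nat_lit 557103) (nat_lit 14) (.e (nat_lit 180243) (nat_lit 5) (.e (nat_lit 532513) (nat_lit 3) (.e (nat_lit 122624) (nat_lit 3) (.e (nat_lit 204842) (nat_lit 22) (.e (nat_lit 147489) (nat_lit 10) .nil))))))) (.g (nat_lit 4) .nil .nil)))) (.nd (nat_lit 5) 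
(.lf (nat_lit 130707) (.g (nat_lit 3248) (.e (nat_lit 8326) (nat_lit 69) (.e (nat_lit 557101) (nat_lit 13) (.e (nat_lit 172115) (nat_lit 10) (.e (nat_lit 434231) (nat_lit 23) (.e (nat_lit 532490) (nat_lit 0) (.e (nat_lit 6114) (nat_lit 332) (.e (nat_lit 972) (nat_lit 81) (.e (nat_lit 5743) (nat_lit 313) .nil)))))))) (.g (nat_lit 5) .nil .nil))) 
(.lf (nat_lit 130739) (.g (nat_lit 2903) (.e (nat_lit 8326) (nat_lit 69) (.e (nat_lit 557103) (nat_lit 14) (.e (nat_lit 180250) (nat_lit 10) (.e (nat_lit 573487) (nat_lit 14) (.e (nat_lit 81664) (nat_lit 5) (.e (nat_lit 532519) (nat_lit 5) (.e (nat_lit 147491) (nat_lit 10) .nil))))))) (.g (nat_lit 4) .nil .nil))))) (.nd (nat_lit 4) (.nd (nat_lit 5) 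
(.lf (nat_lit 130699) (.g (nat_lit 974) (.e (nat_lit 8326) (nat_lit 69) (.e (nat_lit 557101) (nat_lit 13) (.e (nat_lit 172115) (nat_lit 10) (.e (nat_lit 434231) (nat_lit 23) .nil)))) .nil)) 
(.lf (nat_lit 130731) (.g (nat_lit 3052) (.e (nat_lit 8326) (nat_lit 69) (.e (nat_lit 557103) (nat_lit 14) (.e (nat_lit 180250) (nat_lit 10) (.e (nat_lit 573487) (nat_lit 14) (.e (nat_lit 81664) (nat_lit 5) (.e (nat_lit 532490) (nat_lit 0) (.e (nat_lit 2346) (nat_lit 151) (.e (nat_lit 778452) (nat_lit 10) .nil)))))))) (.g (nat_lit 4) .nil .nil)))) (.nd (nat_lit 5) 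
(.lf (nat_lit 130715) (.g (nat_lit 1661) (.e (nat_lit 8326) (nat_lit 69) (.e (nat_lit 557101) (nat_lit 13) (.e (nat_lit 172115) (nat_lit 10) (.e (nat_lit 434231) (nat_lit 23) (.e (nat_lit 532525) (nat_lit 8) .nil))))) .nil)) 
(.lf (nat_lit 130747) (.g (nat_lit 2482) (.e (nat_lit 8326) (nat_lit 69) (.e (nat_lit 557103) (nat_lit 14) (.e (nat_lit 180250) (nat_lit 10) (.e (nat_lit 573489) (nat_lit 14) (.e (nat_lit 81664) (nat_lit 5) .nil))))) .nil))))) (.nd (nat_lit 3) (.nd (nat_lit 4) (.nd (nat_lit 5) 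
(.lf (nat_lit 130695) (.g (nat_lit 3225) (.e (nat_lit 8326) (nat_lit 69) (.e (nat_lit 557101) (nat_lit 13) (.e (nat_lit 172097) (nat_lit 9) (.e (nat_lit 426140) (nat_lit 3) (.e (nat_lit 204863) (nat_lit 27) (.e (nat_lit 344096) (nat_lit 18) (.e (nat_lit 4764) (nat_lit 281) (.e (nat_lit 2545) (nat_lit 158) .nil)))))))) (.g (nat_lit 5) .nil .nil))) 
(.lf (nat_lit 130727) (.g (nat_lit 2424) (.e (nat_lit 8326) (nat_lit 69) (.e (nat_lit 557103) (nat_lit 14) (.e (nat_lit 180250) (nat_lit 10) (.e (nat_lit 573487) (nat_lit 14) (.e (nat_lit 81664) (nat_lit 1) .nil))))) .nil))) (.nd (nat_lit 5) 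
(.lf (nat_lit 130711) (.g (nat_lit 4215) (.e (nat_lit 8326) (nat_lit 69) (.e (nat_lit 557101) (nat_lit 13) (.e (nat_lit 172115) (nat_lit 10) (.e (nat_lit 434231) (nat_lit 23) (.e (nat_lit 532490) (nat_lit 0) (.e (nat_lit 6114) (nat_lit 332) (.e (nat_lit 1082) (nat_lit 81) (.e (nat_lit 5740) (nat_lit 313) .nil)))))))) (.g (nat_lit 6) .nil .nil))) 
(.lf (nat_lit 130743) (.g (nat_lit 1768) (.e (nat_lit 8326) (nat_lit 69) (.e (nat_lit 557103) (nat_lit 14) (.e (nat_lit 180250) (nat_lit 10) (.e (nat_lit 573488) (nat_lit 14) (.e (nat_lit 81664) (nat_lit 5) .nil))))) .nil)))) (.nd (nat_lit 4) (.nd (nat_lit 5) 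
(.lf (nat_lit 130703) (.g (nat_lit 2411) (.e (nat_lit 8326) (nat_lit 69) (.e (nat_lit 557101) (nat_lit 13) (.e (nat_lit 172115) (nat_lit 10) (.e (nat_lit 434231) (nat_lit 23) (.e (nat_lit 532490) (nat_lit 0) (.e (nat_lit 6114) (nat_lit 332) (.e (nat_lit 968) (nat_lit 81) (.e (nat_lit 5743) (nat_lit 313) .nil)))))))) (.g (nat_lit 4) .nil .nil))) 
(.lf (nat_lit 130735) (.g (nat_lit 2536) (.e (nat_lit 8326) (nat_lit 69) (.e (nat_lit 557103) (nat_lit 14) (.e (nat_lit 180250) (nat_lit 10) (.e (nat_lit 573487) (nat_lit 14) (.e (nat_lit 81664) (nat_lit 5) (.e (nat_lit 532518) (nat_lit 5) (.e (nat_lit 147489) (nat_lit 10) .nil))))))) (.g (nat_lit 4) .nil .nil)))) (.nd (nat_lit 5) 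
(.lf (nat_lit 130719) (.g (nat_lit 3306) (.e (nat_lit 8326) (nat_lit 69) (.e (nat_lit 557101) (nat_lit 13) (.e (nat_lit 172115) (nat_lit 10) (.e (nat_lit 434244) (nat_lit 28) (.e (nat_lit 573450) (nat_lit 9) (.e (nat_lit 375) (nat_lit 32) (.e (nat_lit 426025) (nat_lit 0) (.e (nat_lit 7936) (nat_lit 389) .nil)))))))) (.g (nat_lit 7) .nil .nil))) 
(.lf (nat_lit 130751) (.g (nat_lit 2432) (.e (nat_lit 8326) (nat_lit 69) (.e (nat_lit 557103) (nat_lit 14) (.e (nat_lit 180250) (nat_lit 10) (.e (nat_lit 573489) (nat_lit 14) (.e (nat_lit 73755) (nat_lit 8) (.e (nat_lit 557090) (nat_lit 12) (.e (nat_lit 163844) (nat_lit 0) (.e (nat_lit 5799) (nat_lit 320) (.e (nat_lit 2540) (nat_lit 158) .nil))))))))) (.g (nat_lit 4) .nil .nil)))))))))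

noncomputable def tv1744 : DT := (.nd (nat_lit 0) (.nd (nat_lit 1) (.nd (nat_lit 2) (.nd (nat_lit 3) (.nd (nat_lit 4) (.nd (nat_lit 5) 
(.lf (nat_lit 130752) (.g (nat_lit 2089) (.e (nat_lit 8326) (nat_lit 69) (.e (nat_lit 557105) (nat_lit 14) (.e (nat_lit 180245) (nat_lit 5) (.e (nat_lit 532513) (nat_lit 3) (.e (nat_lit 122624) (nat_lit 3) .nil))))) .nil)) 
(.lf (nat_lit 130784) (.g (nat_lit 3321) (.e (nat_lit 8326) (nat_lit 69) (.e (nat_lit 557105) (nat_lit 14) (.e (nat_lit 180252) (nat_lit 10) (.e (nat_lit 573487) (nat_lit 14) (.e (nat_lit 81664) (nat_lit 5) (.e (nat_lit 532519) (nat_lit 5) (.e (nat_lit 147491) (nat_lit 10) .nil))))))) (.g (nat_lit 4) .nil .nil)))) (.nd (nat_lit 5) 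
(.lf (nat_lit 130768) (.g (nat_lit 2585) (.e (nat_lit 8326) (nat_lit 69) (.e (nat_lit 557105) (nat_lit 14) (.e (nat_lit 180252) (nat_lit 10) (.e (nat_lit 573480) (nat_lit 13) .nil)))) .nil)) 
(.lf (nat_lit 130800) (.g (nat_lit 4043) (.e (nat_lit 8326) (nat_lit 69) (.e (nat_lit 557105) (nat_lit 14) (.e (nat_lit 180252) (nat_lit 10) (.e (nat_lit 573488) (nat_lit 14) (.e (nat_lit 81664) (nat_lit 5) (.e (nat_lit 532519) (nat_lit 5) (.e (nat_lit 147491) (nat_lit 10) .nil))))))) (.g (nat_lit 4) .nil .nil))))) (.nd (nat_lit 4) (.nd (nat_lit 5) 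
(.lf (nat_lit 130760) (.g (nat_lit 3107) (.e (nat_lit 8326) (nat_lit 69) (.e (nat_lit 557105) (nat_lit 14) (.e (nat_lit 180251) (nat_lit 10) (.e (nat_lit 573487) (nat_lit 14) (.e (nat_lit 81664) (nat_lit 1) .nil))))) .nil)) 
(.lf (nat_lit 130792) (.g (nat_lit 3207) (.e (nat_lit 8326) (nat_lit 69) (.e (nat_lit 557105) (nat_lit 14) (.e (nat_lit 180252) (nat_lit 10) (.e (nat_lit 573488) (nat_lit 14) (.e (nat_lit 81664) (nat_lit 5) (.e (nat_lit 532518) (nat_lit 5) (.e (nat_lit 147487) (nat_lit 10) .nil))))))) (.g (nat_lit 4) .nil .nil)))) (.nd (nat_lit 5) 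
(.lf (nat_lit 130776) (.g (nat_lit 2881) (.e (nat_lit 8326) (nat_lit 69) (.e (nat_lit 557105) (nat_lit 14) (.e (nat_lit 180252) (nat_lit 10) (.e (nat_lit 573487) (nat_lit 14) (.e (nat_lit 81664) (nat_lit 5) .nil))))) .nil)) 
(.lf (nat_lit 130808) (.g (nat_lit 2069) (.e (nat_lit 8326) (nat_lit 69) (.e (nat_lit 557105) (nat_lit 14) (.e (nat_lit 180252) (nat_lit 10) (.e (nat_lit 573489) (nat_lit 14) (.e (nat_lit 73755) (nat_lit 8) .nil))))) .nil))))) (.nd (nat_lit 3) (.nd (nat_lit 4) (.nd (nat_lit 5) 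
(.lf (nat_lit 130756) (.g (nat_lit 1317) (.e (nat_lit 8326) (nat_lit 69) (.e (nat_lit 557105) (nat_lit 14) (.e (nat_lit 180251) (nat_lit 10) (.e (nat_lit 573485) (nat_lit 13) .nil)))) .nil)) 
(.lf (nat_lit 130788) (.g (nat_lit 3299) (.e (nat_lit 8326) (nat_lit 69) (.e (nat_lit 557105) (nat_lit 14) (.e (nat_lit 180252) (nat_lit 10) (.e (nat_lit 573488) (nat_lit 14) (.e (nat_lit 81664) (nat_lit 5) (.e (nat_lit 532482) (nat_lit 0) (.e (nat_lit 2308) (nat_lit 151) (.e (nat_lit 778453) (nat_lit 10) .nil)))))))) (.g (nat_lit 4) .nil .nil)))) (.nd (nat_lit 5) 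
(.lf (nat_lit 130772) (.g (nat_lit 3921) (.e (nat_lit 8326) (nat_lit 69) (.e (nat_lit 557105) (nat_lit 14) (.e (nat_lit 180252) (nat_lit 10) (.e (nat_lit 573482) (nat_lit 13) (.e (nat_lit 65568) (nat_lit 2) (.e (nat_lit 98048) (nat_lit 0) (.e (nat_lit 1312) (nat_lit 98) (.e (nat_lit 147489) (nat_lit 10) .nil)))))))) (.g (nat_lit 4) .nil .nil))) 
(.lf (nat_lit 130804) (.g (nat_lit 3482) (.e (nat_lit 8326) (nat_lit 69) (.e (nat_lit 557105) (nat_lit 14) (.e (nat_lit 180252) (nat_lit 10) (.e (nat_lit 573489) (nat_lit 14) (.e (nat_lit 81664) (nat_lit 1) (.e (nat_lit 500056) (nat_lit 17) (.e (nat_lit 57575) (nat_lit 55) (.e (nat_lit 778454) (nat_lit 10) .nil)))))))) (.g (nat_lit 4) .nil .nil))))) (.nd (nat_lit 4) (.nd (nat_lit 5) 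
(.lf (nat_lit 130764) (.g (nat_lit 2983) (.e (nat_lit 8326) (nat_lit 69) (.e (nat_lit 557105) (nat_lit 14) (.e (nat_lit 180251) (nat_lit 10) (.e (nat_lit 573489) (nat_lit 14) (.e (nat_lit 81664) (nat_lit 1) .nil))))) .nil)) 
(.lf (nat_lit 130796) (.g (nat_lit 3968) (.e (nat_lit 8326) (nat_lit 69) (.e (nat_lit 557105) (nat_lit 14) (.e (nat_lit 180252) (nat_lit 10) (.e (nat_lit 573488) (nat_lit 14) (.e (nat_lit 81664) (nat_lit 5) (.e (nat_lit 532518) (nat_lit 5) (.e (nat_lit 147491) (nat_lit 10) .nil))))))) (.g (nat_lit 4) .nil .nil)))) (.nd (nat_lit 5) 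
(.lf (nat_lit 130780) (.g (nat_lit 3326) (.e (nat_lit 8326) (nat_lit 69) (.e (nat_lit 557105) (nat_lit 14) (.e (nat_lit 180252) (nat_lit 10) (.e (nat_lit 573487) (nat_lit 14) (.e (nat_lit 81664) (nat_lit 5) (.e (nat_lit 532490) (nat_lit 0) (.e (nat_lit 7936) (nat_lit 151) (.e (nat_lit 778447) (nat_lit 10) .nil)))))))) (.g (nat_lit 4) .nil .nil))) 
(.lf (nat_lit 130812) (.g (nat_lit 3069) (.e (nat_lit 8326) (nat_lit 69) (.e (nat_lit 557105) (nat_lit 14) (.e (nat_lit 180252) (nat_lit 10) (.e (nat_lit 573489) (nat_lit 14) (.e (nat_lit 73755) (nat_lit 8) (.e (nat_lit 557090) (nat_lit 12) (.e (nat_lit 163843) (nat_lit 0) (.e (nat_lit 5796) (nat_lit 320) (.e (nat_lit 2542) (nat_lit 158) .nil))))))))) (.g (nat_lit 5) .nil .nil))))))) 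
(.nd (nat_lit 2) (.nd (nat_lit 3) (.nd (nat_lit 4) (.nd (nat_lit 5) 
(.lf (nat_lit 130754) (.g (nat_lit 1344) (.e (nat_lit 8326) (nat_lit 69) (.e (nat_lit 557105) (nat_lit 14) (.e (nat_lit 180245) (nat_lit 5) (.e (nat_lit 532515) (nat_lit 3) .nil)))) .nil)) 
(.lf (nat_lit 130786) (.g (nat_lit 3147) (.e (nat_lit 8326) (nat_lit 69) (.e (nat_lit 557105) (nat_lit 14) (.e (nat_lit 180252) (nat_lit 10) (.e (nat_lit 573488) (nat_lit 14) (.e (nat_lit 81664) (nat_lit 1) .nil))))) .nil))) (.nd (nat_lit 5) 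
(.lf (nat_lit 130770) (.g (nat_lit 2457) (.e (nat_lit 8326) (nat_lit 69) (.e (nat_lit 557105) (nat_lit 14) (.e (nat_lit 180252) (nat_lit 10) (.e (nat_lit 573482) (nat_lit 13) .nil)))) .nil)) 
(.lf (nat_lit 130802) (.g (nat_lit 2960) (.e (nat_lit 8326) (nat_lit 69) (.e (nat_lit 557105) (nat_lit 14) (.e (nat_lit 180252) (nat_lit 10) (.e (nat_lit 573489) (nat_lit 14) (.e (nat_lit 81664) (nat_lit 1) .nil))))) .nil)))) (.nd (nat_lit 4) (.nd (nat_lit 5) 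
(.lf (nat_lit 130762) (.g (nat_lit 3178) (.e (nat_lit 8326) (nat_lit 69) (.e (nat_lit 557105) (nat_lit 14) (.e (nat_lit 180251) (nat_lit 10) (.e (nat_lit 573487) (nat_lit 14) (.e (nat_lit 81664) (nat_lit 1) (.e (nat_lit 500056) (nat_lit 17) (.e (nat_lit 57575) (nat_lit 55) (.e (nat_lit 778454) (nat_lit 10) .nil)))))))) (.g (nat_lit 4) .nil .nil))) 
(.lf (nat_lit 130794) (.g (nat_lit 4086) (.e (nat_lit 8326) (nat_lit 69) (.e (nat_lit 557105) (nat_lit 14) (.e (nat_lit 180252) (nat_lit 10) (.e (nat_lit 573488) (nat_lit 14) (.e (nat_lit 81664) (nat_lit 5) (.e (nat_lit 532518) (nat_lit 5) (.e (nat_lit 147489) (nat_lit 10) .nil))))))) (.g (nat_lit 4) .nil .nil)))) (.nd (nat_lit 5) 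
(.lf (nat_lit 130778) (.g (nat_lit 3374) (.e (nat_lit 8326) (nat_lit 69) (.e (nat_lit 557105) (nat_lit 14) (.e (nat_lit 180252) (nat_lit 10) (.e (nat_lit 573487) (nat_lit 14) (.e (nat_lit 81664) (nat_lit 5) (.e (nat_lit 532490) (nat_lit 0) (.e (nat_lit 2346) (nat_lit 151) (.e (nat_lit 778453) (nat_lit 10) .nil)))))))) (.g (nat_lit 4) .nil .nil))) 
(.lf (nat_lit 130810) (.g (nat_lit 3404) (.e (nat_lit 8326) (nat_lit 69) (.e (nat_lit 557105) (nat_lit 14) (.e (nat_lit 180252) (nat_lit 10) (.e (nat_lit 573489) (nat_lit 14) (.e (nat_lit 73755) (nat_lit 8) (.e (nat_lit 557090) (nat_lit 12) (.e (nat_lit 163843) (nat_lit 0) (.e (nat_lit 5796) (nat_lit 320) (.e (nat_lit 2540) (nat_lit 158) .nil))))))))) (.g (nat_lit 5) .nil .nil)))))) 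
(.nd (nat_lit 3) (.nd (nat_lit 4) (.nd (nat_lit 5) 
(.lf (nat_lit 130758) (.g (nat_lit 2312) (.e (nat_lit 8326) (nat_lit 69) (.e (nat_lit 557105) (nat_lit 14) (.e (nat_lit 180251) (nat_lit 10) (.e (nat_lit 573485) (nat_lit 13) (.e (nat_lit 65568) (nat_lit 2) (.e (nat_lit 98048) (nat_lit 0) (.e (nat_lit 1312) (nat_lit 98) (.e (nat_lit 147489) (nat_lit 10) .nil)))))))) (.g (nat_lit 4) .nil .nil))) 
(.lf (nat_lit 130790) (.g (nat_lit 3902) (.e (nat_lit 8326) (nat_lit 69) (.e (nat_lit 557105) (nat_lit 14) (.e (nat_lit 180252) (nat_lit 10) (.e (nat_lit 573488) (nat_lit 14) (.e (nat_lit 81664) (nat_lit 5) (.e (nat_lit 532490) (nat_lit 0) (.e (nat_lit 2334) (nat_lit 151) (.e (nat_lit 778447) (nat_lit 10) .nil)))))))) (.g (nat_lit 4) .nil .nil)))) (.nd (nat_lit 5) 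
(.lf (nat_lit 130774) (.g (nat_lit 4688) (.e (nat_lit 8326) (nat_lit 69) (.e (nat_lit 557105) (nat_lit 14) (.e (nat_lit 180252) (nat_lit 10) (.e (nat_lit 573487) (nat_lit 14) (.e (nat_lit 81664) (nat_lit 1) (.e (nat_lit 500056) (nat_lit 17) (.e (nat_lit 57575) (nat_lit 55) (.e (nat_lit 778454) (nat_lit 10) .nil)))))))) (.g (nat_lit 7) .nil .nil))) 
(.lf (nat_lit 130806) (.g (nat_lit 2960) (.e (nat_lit 8326) (nat_lit 69) (.e (nat_lit 557105) (nat_lit 14) (.e (nat_lit 180252) (nat_lit 10) (.e (nat_lit 573489) (nat_lit 14) (.e (nat_lit 81664) (nat_lit 5) .nil))))) .nil)))) (.nd (nat_lit 4) (.nd (nat_lit 5) 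
(.lf (nat_lit 130766) (.g (nat_lit 3930) (.e (nat_lit 8326) (nat_lit 69) (.e (nat_lit 557105) (nat_lit 14) (.e (nat_lit 180252) (nat_lit 10) (.e (nat_lit 573451) (nat_lit 9) (.e (nat_lit 1449) (nat_lit 108) (.e (nat_lit 336013) (nat_lit 2) (.e (nat_lit 90187) (nat_lit 18) (.e (nat_lit 2584) (nat_lit 161) (.e (nat_lit 40992) (nat_lit 10) .nil))))))))) (.g (nat_lit 4) .nil .nil))) 
(.lf (nat_lit 130798) (.g (nat_lit 3956) (.e (nat_lit 8326) (nat_lit 69) (.e (nat_lit 557105) (nat_lit 14) (.e (nat_lit 180252) (nat_lit 10) (.e (nat_lit 573488) (nat_lit 14) (.e (nat_lit 81664) (nat_lit 5) (.e (nat_lit 532519) (nat_lit 5) (.e (nat_lit 147489) (nat_lit 10) .nil))))))) (.g (nat_lit 4) .nil .nil)))) (.nd (nat_lit 5) 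
(.lf (nat_lit 130782) (.g (nat_lit 3234) (.e (nat_lit 8326) (nat_lit 69) (.e (nat_lit 557105) (nat_lit 14) (.e (nat_lit 180252) (nat_lit 10) (.e (nat_lit 573487) (nat_lit 14) (.e (nat_lit 81664) (nat_lit 5) (.e (nat_lit 532519) (nat_lit 5) (.e (nat_lit 147489) (nat_lit 10) .nil))))))) (.g (nat_lit 4) .nil .nil))) 
(.lf (nat_lit 130814) (.g (nat_lit 2842) (.e (nat_lit 8326) (nat_lit 69) (.e (nat_lit 557105) (nat_lit 14) (.e (nat_lit 180252) (nat_lit 10) (.e (nat_lit 573489) (nat_lit 14) (.e (nat_lit 73755) (nat_lit 8) (.e (nat_lit 557090) (nat_lit 12) (.e (nat_lit 163843) (nat_lit 0) (.e (nat_lit 5797) (nat_lit 320) (.e (nat_lit 2542) (nat_lit 158) .nil))))))))) (.g (nat_lit 4) .nil .nil)))))))) 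
(.nd (nat_lit 1) (.nd (nat_lit 2) (.nd (nat_lit 3) (.nd (nat_lit 4) (.nd (nat_lit 5) 
(.lf (nat_lit 130753) (.g (nat_lit 2330) (.e (nat_lit 8326) (nat_lit 69) (.e (nat_lit 557105) (nat_lit 14) (.e (nat_lit 180245) (nat_lit 5) (.e (nat_lit 532513) (nat_lit 3) (.e (nat_lit 122624) (nat_lit 3) (.e (nat_lit 204842) (nat_lit 22) (.e (nat_lit 147491) (nat_lit 10) .nil))))))) (.g (nat_lit 4) .nil .nil))) 
(.lf (nat_lit 130785) (.g (nat_lit 2203) (.e (nat_lit 8326) (nat_lit 69) (.e (nat_lit 557105) (nat_lit 14) (.e (nat_lit 180252) (nat_lit 10) (.e (nat_lit 573488) (nat_lit 14) .nil)))) .nil))) (.nd (nat_lit 5) 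
(.lf (nat_lit 130769) (.g (nat_lit 2514) (.e (nat_lit 8326) (nat_lit 69) (.e (nat_lit 557105) (nat_lit 14) (.e (nat_lit 180252) (nat_lit 10) (.e (nat_lit 573481) (nat_lit 13) .nil)))) .nil)) 
(.lf (nat_lit 130801) (.g (nat_lit 1768) (.e (nat_lit 8326) (nat_lit 69) (.e (nat_lit 557105) (nat_lit 14) (.e (nat_lit 180252) (nat_lit 10) (.e (nat_lit 573489) (nat_lit 14) .nil)))) .nil)))) (.nd (nat_lit 4) (.nd (nat_lit 5) 
(.lf (nat_lit 130761) (.g (nat_lit 3136) (.e (nat_lit 8326) (nat_lit 69) (.e (nat_lit 557105) (nat_lit 14) (.e (nat_lit 180251) (nat_lit 10) (.e (nat_lit 573487) (nat_lit 14) (.e (nat_lit 81664) (nat_lit 1) (.e (nat_lit 500056) (nat_lit 17) (.e (nat_lit 57575) (nat_lit 55) (.e (nat_lit 778452) (nat_lit 10) .nil)))))))) (.g (nat_lit 4) .nil .nil))) 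
(.lf (nat_lit 130793) (.g (nat_lit 3713) (.e (nat_lit 8326) (nat_lit 69) (.e (nat_lit 557105) (nat_lit 14) (.e (nat_lit 180252) (nat_lit 10) (.e (nat_lit 573488) (nat_lit 14) (.e (nat_lit 81664) (nat_lit 5) (.e (nat_lit 532518) (nat_lit 5) (.e (nat_lit 147488) (nat_lit 10) .nil))))))) (.g (nat_lit 4) .nil .nil)))) (.nd (nat_lit 5) 
(.lf (nat_lit 130777) (.g (nat_lit 3392) (.e (nat_lit 8326) (nat_lit 69) (.e (nat_lit 557105) (nat_lit 14) (.e (nat_lit 180252) (nat_lit 10) (.e (nat_lit 573487) (nat_lit 14) (.e (nat_lit 81664) (nat_lit 5) (.e (nat_lit 532490) (nat_lit 0) (.e (nat_lit 2346) (nat_lit 151) (.e (nat_lit 778452) (nat_lit 10) .nil)))))))) (.g (nat_lit 4) .nil .nil))) 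
(.lf (nat_lit 130809) (.g (nat_lit 2892) (.e (nat_lit 8326) (nat_lit 69) (.e (nat_lit 557105) (nat_lit 14) (.e (nat_lit 180252) (nat_lit 10) (.e (nat_lit 573489) (nat_lit 14) (.e (nat_lit 73755) (nat_lit 8) (.e (nat_lit 557090) (nat_lit 12) (.e (nat_lit 163841) (nat_lit 0) (.e (nat_lit 5798) (nat_lit 320) (.e (nat_lit 2547) (nat_lit 158) .nil))))))))) (.g (nat_lit 4) .nil .nil)))))) 
(.nd (nat_lit 3) (.nd (nat_lit 4) (.nd (nat_lit 5) 
(.lf (nat_lit 130757) (.g (nat_lit 1867) (.e (nat_lit 8326) (nat_lit 69) (.e (nat_lit 557105) (nat_lit 14) (.e (nat_lit 180251) (nat_lit 10) (.e (nat_lit 573485) (nat_lit 13) (.e (nat_lit 65568) (nat_lit 2) .nil))))) .nil)) 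
(.lf (nat_lit 130789) (.g (nat_lit 3366) (.e (nat_lit 8326) (nat_lit 69) (.e (nat_lit 557105) (nat_lit 14) (.e (nat_lit 180252) (nat_lit 10) (.e (nat_lit 573488) (nat_lit 14) (.e (nat_lit 81664) (nat_lit 5) (.e (nat_lit 532482) (nat_lit 0) (.e (nat_lit 2310) (nat_lit 151) (.e (nat_lit 778453) (nat_lit 10) .nil)))))))) (.g (nat_lit 4) .nil .nil)))) (.nd (nat_lit 5) 
(.lf (nat_lit 130773) (.g (nat_lit 2166) (.e (nat_lit 8326) (nat_lit 69) (.e (nat_lit 557105) (nat_lit 14) (.e (nat_lit 180252) (nat_lit 10) (.e (nat_lit 573487) (nat_lit 14) .nil)))) .nil)) 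
(.lf (nat_lit 130805) (.g (nat_lit 3601) (.e (nat_lit 8326) (nat_lit 69) (.e (nat_lit 557105) (nat_lit 14) (.e (nat_lit 180252) (nat_lit 10) (.e (nat_lit 573489) (nat_lit 14) (.e (nat_lit 81664) (nat_lit 1) (.e (nat_lit 500056) (nat_lit 17) (.e (nat_lit 57575) (nat_lit 55) (.e (nat_lit 778455) (nat_lit 10) .nil)))))))) (.g (nat_lit 4) .nil .nil))))) (.nd (nat_lit 4) (.nd (nat_lit 5) 
(.lf (nat_lit 130765) (.g (nat_lit 3552) (.e (nat_lit 8326) (nat_lit 69) (.e (nat_lit 557105) (nat_lit 14) (.e (nat_lit 180252) (nat_lit 10) (.e (nat_lit 573451) (nat_lit 9) (.e (nat_lit 1449) (nat_lit 108) .nil))))) .nil)) 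
(.lf (nat_lit 130797) (.g (nat_lit 3533) (.e (nat_lit 8326) (nat_lit 69) (.e (nat_lit 557105) (nat_lit 14) (.e (nat_lit 180252) (nat_lit 10) (.e (nat_lit 573488) (nat_lit 14) (.e (nat_lit 81664) (nat_lit 5) (.e (nat_lit 532519) (nat_lit 5) (.e (nat_lit 147488) (nat_lit 10) .nil))))))) (.g (nat_lit 4) .nil .nil)))) (.nd (nat_lit 5) 
(.lf (nat_lit 130781) (.g (nat_lit 3509) (.e (nat_lit 8326) (nat_lit 69) (.e (nat_lit 557105) (nat_lit 14) (.e (nat_lit 180252) (nat_lit 10) (.e (nat_lit 573487) (nat_lit 14) (.e (nat_lit 81664) (nat_lit 5) (.e (nat_lit 532519) (nat_lit 5) (.e (nat_lit 147487) (nat_lit 10) .nil))))))) (.g (nat_lit 4) .nil .nil))) 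
(.lf (nat_lit 130813) (.g (nat_lit 3919) (.e (nat_lit 8326) (nat_lit 69) (.e (nat_lit 557105) (nat_lit 14) (.e (nat_lit 180252) (nat_lit 10) (.e (nat_lit 573489) (nat_lit 14) (.e (nat_lit 73755) (nat_lit 8) (.e (nat_lit 557090) (nat_lit 12) (.e (nat_lit 163843) (nat_lit 0) (.e (nat_lit 5796) (nat_lit 320) (.e (nat_lit 2547) (nat_lit 158) .nil))))))))) (.g (nat_lit 6) .nil .nil))))))) 
(.nd (nat_lit 2) (.nd (nat_lit 3) (.nd (nat_lit 4) (.nd (nat_lit 5) 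
(.lf (nat_lit 130755) (.g (nat_lit 2426) (.e (nat_lit 8326) (nat_lit 69) (.e (nat_lit 557105) (nat_lit 14) (.e (nat_lit 180251) (nat_lit 10) (.e (nat_lit 573484) (nat_lit 13) (.e (nat_lit 65568) (nat_lit 2) .nil))))) .nil)) 
(.lf (nat_lit 130787) (.g (nat_lit 4856) (.e (nat_lit 8326) (nat_lit 69) (.e (nat_lit 557105) (nat_lit 14) (.e (nat_lit 180252) (nat_lit 10) (.e (nat_lit 573488) (nat_lit 14) (.e (nat_lit 81664) (nat_lit 1) (.e (nat_lit 500056) (nat_lit 17) (.e (nat_lit 57575) (nat_lit 55) (.e (nat_lit 778453) (nat_lit 10) .nil)))))))) (.g (nat_lit 7) .nil .nil)))) (.nd (nat_lit 5) 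
(.lf (nat_lit 130771) (.g (nat_lit 3539) (.e (nat_lit 8326) (nat_lit 69) (.e (nat_lit 557105) (nat_lit 14) (.e (nat_lit 180252) (nat_lit 10) (.e (nat_lit 573482) (nat_lit 13) (.e (nat_lit 65568) (nat_lit 2) .nil))))) .nil)) 
(.lf (nat_lit 130803) (.g (nat_lit 3440) (.e (nat_lit 8326) (nat_lit 69) (.e (nat_lit 557105) (nat_lit 14) (.e (nat_lit 180252) (nat_lit 10) (.e (nat_lit 573489) (nat_lit 14) (.e (nat_lit 81664) (nat_lit 1) (.e (nat_lit 500056) (nat_lit 17) (.e (nat_lit 57575) (nat_lit 55) (.e (nat_lit 778452) (nat_lit 10) .nil)))))))) (.g (nat_lit 4) .nil .nil))))) (.nd (nat_lit 4) (.nd (nat_lit 5) 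
(.lf (nat_lit 130763) (.g (nat_lit 3304) (.e (nat_lit 8326) (nat_lit 69) (.e (nat_lit 557105) (nat_lit 14) (.e (nat_lit 180251) (nat_lit 10) (.e (nat_lit 573487) (nat_lit 14) (.e (nat_lit 81664) (nat_lit 1) (.e (nat_lit 500056) (nat_lit 17) (.e (nat_lit 57575) (nat_lit 55) (.e (nat_lit 778455) (nat_lit 10) .nil)))))))) (.g (nat_lit 4) .nil .nil))) 
(.lf (nat_lit 130795) (.g (nat_lit 4018) (.e (nat_lit 8326) (nat_lit 69) (.e (nat_lit 557105) (nat_lit 14) (.e (nat_lit 180252) (nat_lit 10) (.e (nat_lit 573488) (nat_lit 14) (.e (nat_lit 81664) (nat_lit 5) (.e (nat_lit 532518) (nat_lit 5) (.e (nat_lit 147490) (nat_lit 10) .nil))))))) (.g (nat_lit 4) .nil .nil)))) (.nd (nat_lit 5) 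
(.lf (nat_lit 130779) (.g (nat_lit 3604) (.e (nat_lit 8326) (nat_lit 69) (.e (nat_lit 557105) (nat_lit 14) (.e (nat_lit 180252) (nat_lit 10) (.e (nat_lit 573487) (nat_lit 14) (.e (nat_lit 81664) (nat_lit 5) (.e (nat_lit 532490) (nat_lit 0) (.e (nat_lit 2346) (nat_lit 151) (.e (nat_lit 778455) (nat_lit 10) .nil)))))))) (.g (nat_lit 4) .nil .nil))) 
(.lf (nat_lit 130811) (.g (nat_lit 3702) (.e (nat_lit 8326) (nat_lit 69) (.e (nat_lit 557105) (nat_lit 14) (.e (nat_lit 180252) (nat_lit 10) (.e (nat_lit 573489) (nat_lit 14) (.e (nat_lit 73755) (nat_lit 8) (.e (nat_lit 557090) (nat_lit 12) (.e (nat_lit 163843) (nat_lit 0) (.e (nat_lit 5796) (nat_lit 320) (.e (nat_lit 2541) (nat_lit 158) .nil))))))))) (.g (nat_lit 6) .nil .nil)))))) 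
(.nd (nat_lit 3) (.nd (nat_lit 4) (.nd (nat_lit 5) 
(.lf (nat_lit 130759) (.g (nat_lit 2091) (.e (nat_lit 8326) (nat_lit 69) (.e (nat_lit 557105) (nat_lit 14) (.e (nat_lit 180251) (nat_lit 10) (.e (nat_lit 573487) (nat_lit 14) .nil)))) .nil)) 
(.lf (nat_lit 130791) (.g (nat_lit 3980) (.e (nat_lit 8326) (nat_lit 69) (.e (nat_lit 557105) (nat_lit 14) (.e (nat_lit 180252) (nat_lit 10) (.e (nat_lit 573488) (nat_lit 14) (.e (nat_lit 81664) (nat_lit 5) (.e (nat_lit 532490) (nat_lit 0) (.e (nat_lit 2346) (nat_lit 151) (.e (nat_lit 778454) (nat_lit 10) .nil)))))))) (.g (nat_lit 4) .nil .nil)))) (.nd (nat_lit 5) 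
(.lf (nat_lit 130775) (.g (nat_lit 4807) (.e (nat_lit 8326) (nat_lit 69) (.e (nat_lit 557105) (nat_lit 14) (.e (nat_lit 180252) (nat_lit 10) (.e (nat_lit 573487) (nat_lit 14) (.e (nat_lit 81664) (nat_lit 1) (.e (nat_lit 500056) (nat_lit 17) (.e (nat_lit 57575) (nat_lit 55) (.e (nat_lit 778455) (nat_lit 10) .nil)))))))) (.g (nat_lit 7) .nil .nil))) 
(.lf (nat_lit 130807) (.g (nat_lit 2962) (.e (nat_lit 8326) (nat_lit 69) (.e (nat_lit 557105) (nat_lit 14) (.e (nat_lit 180252) (nat_lit 10) (.e (nat_lit 573489) (nat_lit 14) (.e (nat_lit 81664) (nat_lit 5) (.e (nat_lit 532519) (nat_lit 5) (.e (nat_lit 147487) (nat_lit 10) .nil))))))) (.g (nat_lit 4) .nil .nil))))) (.nd (nat_lit 4) (.nd (nat_lit 5) 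
(.lf (nat_lit 130767) (.g (nat_lit 4234) (.e (nat_lit 8326) (nat_lit 69) (.e (nat_lit 557105) (nat_lit 14) (.e (nat_lit 180252) (nat_lit 10) (.e (nat_lit 573451) (nat_lit 9) (.e (nat_lit 1449) (nat_lit 108) (.e (nat_lit 336013) (nat_lit 2) (.e (nat_lit 90189) (nat_lit 18) (.e (nat_lit 2580) (nat_lit 161) (.e (nat_lit 40988) (nat_lit 10) .nil))))))))) (.g (nat_lit 4) .nil .nil))) 
(.lf (nat_lit 130799) (.g (nat_lit 3821) (.e (nat_lit 8326) (nat_lit 69) (.e (nat_lit 557105) (nat_lit 14) (.e (nat_lit 180252) (nat_lit 10) (.e (nat_lit 573488) (nat_lit 14) (.e (nat_lit 81664) (nat_lit 5) (.e (nat_lit 532519) (nat_lit 5) (.e (nat_lit 147490) (nat_lit 10) .nil))))))) (.g (nat_lit 4) .nil .nil)))) (.nd (nat_lit 5) 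
(.lf (nat_lit 130783) (.g (nat_lit 3099) (.e (nat_lit 8326) (nat_lit 69) (.e (nat_lit 557105) (nat_lit 14) (.e (nat_lit 180252) (nat_lit 10) (.e (nat_lit 573487) (nat_lit 14) (.e (nat_lit 81664) (nat_lit 5) (.e (nat_lit 532519) (nat_lit 5) (.e (nat_lit 147490) (nat_lit 10) .nil))))))) (.g (nat_lit 4) .nil .nil))) 
(.lf (nat_lit 130815) (.g (nat_lit 3757) (.e (nat_lit 8326) (nat_lit 69) (.e (nat_lit 557105) (nat_lit 14) (.e (nat_lit 180252) (nat_lit 10) (.e (nat_lit 573489) (nat_lit 14) (.e (nat_lit 73755) (nat_lit 8) (.e (nat_lit 557090) (nat_lit 12) (.e (nat_lit 163843) (nat_lit 0) (.e (nat_lit 5797) (nat_lit 320) (.e (nat_lit 2547) (nat_lit 158) .nil))))))))) (.g (nat_lit 6) .nil .nil)))))))))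


end

end Pool.Agent.Lib.MP_5854e1_co.Cz
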