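import Pool.Agent.Lib.MP_5854e1_co.DtD

/-!
# Windows and cells of the rings
-/

set_option autoImplicit false
set_option maxRecDepth 100000
set_option deprecated.oldSectionVars true

namespace Pool.Agent.Lib.MP_5854e1_co.Cz

open Pool.Agent.Lib.MP_5854e1_co

noncomputable section

noncomputable def tv1745 : DT := (.nd (nat_lit 0) (.nd (nat_lit 1) (.nd (nat_lit 2) (.nd (nat_lit 3) (.nd (nat_lit 4) (.nd (nat_lit 5) 
(.lf (nat_lit 130816) (.g (nat_lit 3242) (.e (nat_lit 8326) (nat_lit 69) (.e (nat_lit 557105) (nat_lit 14) (.e (nat_lit 180252) (nat_lit 10) (.e (nat_lit 573489) (nat_lit 14) (.e (nat_lit 73755) (nat_lit 8) (.e (nat_lit 557090) (nat_lit 12) (.e (nat_lit 163843) (nat_lit 0) (.e (nat_lit 5797) (nat_lit 320) (.e (nat_lit 2548) (nat_lit 158) .nil))))))))) (.g (nat_lit 5) .nil .nil))) 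
(.lf (nat_lit 130848) (.g (nat_lit 3737) (.e (nat_lit 8326) (nat_lit 69) (.e (nat_lit 557105) (nat_lit 14) (.e (nat_lit 180252) (nat_lit 10) (.e (nat_lit 573489) (nat_lit 14) (.e (nat_lit 73755) (nat_lit 8) (.e (nat_lit 557090) (nat_lit 12) (.e (nat_lit 163844) (nat_lit 0) (.e (nat_lit 5847) (nat_lit 320) (.e (nat_lit 2540) (nat_lit 158) .nil))))))))) (.g (nat_lit 6) .nil .nil)))) 
(.nd (nat_lit 5) 
(.lf (nat_lit 130832) (.g (nat_lit 3967) (.e (nat_lit 8326) (nat_lit 69) (.e (nat_lit 557105) (nat_lit 14) (.e (nat_lit 180252) (nat_lit 10) (.e (nat_lit 573489) (nat_lit 14) (.e (nat_lit 73755) (nat_lit 8) (.e (nat_lit 557090) (nat_lit 12) (.e (nat_lit 163844) (nat_lit 0) (.e (nat_lit 5796) (nat_lit 320) (.e (nat_lit 2548) (nat_lit 158) .nil))))))))) (.g (nat_lit 7) .nil .nil))) 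
(.lf (nat_lit 130864) (.g (nat_lit 3925) (.e (nat_lit 8326) (nat_lit 69) (.e (nat_lit 557109) (nat_lit 15) (.e (nat_lit 188449) (nat_lit 22) (.e (nat_lit 196626) (nat_lit 9) .nil)))) .nil)))) (.nd (nat_lit 4) (.nd (nat_lit 5) 
(.lf (nat_lit 130824) (.g (nat_lit 4003) (.e (nat_lit 8326) (nat_lit 69) (.e (nat_lit 557105) (nat_lit 14) (.e (nat_lit 180252) (nat_lit 10) (.e (nat_lit 573489) (nat_lit 14) (.e (nat_lit 73755) (nat_lit 8) (.e (nat_lit 557090) (nat_lit 12) (.e (nat_lit 163843) (nat_lit 0) (.e (nat_lit 5800) (nat_lit 320) (.e (nat_lit 2542) (nat_lit 158) .nil))))))))) (.g (nat_lit 6) .nil .nil))) 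
(.lf (nat_lit 130856) (.g (nat_lit 4916) (.e (nat_lit 8326) (nat_lit 69) (.e (nat_lit 557105) (nat_lit 14) (.e (nat_lit 180252) (nat_lit 10) (.e (nat_lit 573489) (nat_lit 14) (.e (nat_lit 73755) (nat_lit 8) (.e (nat_lit 557090) (nat_lit 12) (.e (nat_lit 164011) (nat_lit 42) (.e (nat_lit 671778) (nat_lit 10) .nil)))))))) (.g (nat_lit 8) .nil .nil)))) (.nd (nat_lit 5) 
(.lf (nat_lit 130840) (.g (nat_lit 4252) (.e (nat_lit 8326) (nat_lit 69) (.e (nat_lit 557105) (nat_lit 14) (.e (nat_lit 180252) (nat_lit 10) (.e (nat_lit 573489) (nat_lit 14) (.e (nat_lit 73755) (nat_lit 8) (.e (nat_lit 557090) (nat_lit 12) (.e (nat_lit 163844) (nat_lit 0) (.e (nat_lit 5800) (nat_lit 320) (.e (nat_lit 2548) (nat_lit 158) .nil))))))))) (.g (nat_lit 7) .nil .nil))) 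
(.lf (nat_lit 130872) (.g (nat_lit 3906) (.e (nat_lit 8326) (nat_lit 69) (.e (nat_lit 557109) (nat_lit 15) (.e (nat_lit 188452) (nat_lit 23) (.e (nat_lit 204816) (nat_lit 17) .nil)))) .nil))))) (.nd (nat_lit 3) (.nd (nat_lit 4) (.nd (nat_lit 5) 
(.lf (nat_lit 130820) (.g (nat_lit 5069) (.e (nat_lit 8326) (nat_lit 69) (.e (nat_lit 557105) (nat_lit 14) (.e (nat_lit 180252) (nat_lit 10) (.e (nat_lit 573489) (nat_lit 14) (.e (nat_lit 73755) (nat_lit 8) (.e (nat_lit 557090) (nat_lit 12) (.e (nat_lit 163843) (nat_lit 0) (.e (nat_lit 5799) (nat_lit 320) (.e (nat_lit 2540) (nat_lit 158) .nil))))))))) (.g (nat_lit 7) .nil .nil))) 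
(.lf (nat_lit 130852) (.g (nat_lit 2798) (.e (nat_lit 8326) (nat_lit 69) (.e (nat_lit 557105) (nat_lit 14) (.e (nat_lit 180252) (nat_lit 10) (.e (nat_lit 573489) (nat_lit 14) (.e (nat_lit 73755) (nat_lit 8) (.e (nat_lit 557090) (nat_lit 12) (.e (nat_lit 163845) (nat_lit 0) (.e (nat_lit 5799) (nat_lit 320) (.e (nat_lit 2542) (nat_lit 158) .nil))))))))) (.g (nat_lit 4) .nil .nil)))) 
(.nd (nat_lit 5) 
(.lf (nat_lit 130836) (.g (nat_lit 4289) (.e (nat_lit 8326) (nat_lit 69) (.e (nat_lit 557105) (nat_lit 14) (.e (nat_lit 180252) (nat_lit 10) (.e (nat_lit 573489) (nat_lit 14) (.e (nat_lit 73755) (nat_lit 8) (.e (nat_lit 557090) (nat_lit 12) (.e (nat_lit 163844) (nat_lit 0) (.e (nat_lit 5798) (nat_lit 320) (.e (nat_lit 2548) (nat_lit 158) .nil))))))))) (.g (nat_lit 7) .nil .nil))) 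
(.lf (nat_lit 130868) (.g (nat_lit 2495) (.e (nat_lit 8326) (nat_lit 69) (.e (nat_lit 557109) (nat_lit 15) (.e (nat_lit 188449) (nat_lit 22) (.e (nat_lit 196666) (nat_lit 13) .nil)))) .nil)))) (.nd (nat_lit 4) (.nd (nat_lit 5) 
(.lf (nat_lit 130828) (.g (nat_lit 3782) (.e (nat_lit 8326) (nat_lit 69) (.e (nat_lit 557105) (nat_lit 14) (.e (nat_lit 180252) (nat_lit 10) (.e (nat_lit 573489) (nat_lit 14) (.e (nat_lit 73755) (nat_lit 8) (.e (nat_lit 557090) (nat_lit 12) (.e (nat_lit 163843) (nat_lit 0) (.e (nat_lit 5811) (nat_lit 320) (.e (nat_lit 2542) (nat_lit 158) .nil))))))))) (.g (nat_lit 6) .nil .nil))) 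
(.lf (nat_lit 130860) (.g (nat_lit 647) (.e (nat_lit 8326) (nat_lit 69) (.e (nat_lit 557107) (nat_lit 15) (.e (nat_lit 188459) (nat_lit 26) .nil))) .nil))) (.nd (nat_lit 5) 
(.lf (nat_lit 130844) (.g (nat_lit 3728) (.e (nat_lit 8326) (nat_lit 69) (.e (nat_lit 557105) (nat_lit 14) (.e (nat_lit 180252) (nat_lit 10) (.e (nat_lit 573489) (nat_lit 14) (.e (nat_lit 73755) (nat_lit 8) (.e (nat_lit 557090) (nat_lit 12) (.e (nat_lit 163844) (nat_lit 0) (.e (nat_lit 5836) (nat_lit 320) (.e (nat_lit 2540) (nat_lit 158) .nil))))))))) (.g (nat_lit 6) .nil .nil))) 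
(.lf (nat_lit 130876) (.g (nat_lit 2670) (.e (nat_lit 8326) (nat_lit 69) (.e (nat_lit 557109) (nat_lit 15) (.e (nat_lit 188452) (nat_lit 23) (.e (nat_lit 204848) (nat_lit 25) .nil)))) .nil)))))) (.nd (nat_lit 2) (.nd (nat_lit 3) (.nd (nat_lit 4) (.nd (nat_lit 5) 
(.lf (nat_lit 130818) (.g (nat_lit 4579) (.e (nat_lit 8326) (nat_lit 69) (.e (nat_lit 557105) (nat_lit 14) (.e (nat_lit 180252) (nat_lit 10) (.e (nat_lit 573489) (nat_lit 14) (.e (nat_lit 73755) (nat_lit 8) (.e (nat_lit 557090) (nat_lit 12) (.e (nat_lit 163843) (nat_lit 0) (.e (nat_lit 5798) (nat_lit 320) (.e (nat_lit 2547) (nat_lit 158) .nil))))))))) (.g (nat_lit 7) .nil .nil))) 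
(.lf (nat_lit 130850) (.g (nat_lit 3166) (.e (nat_lit 8326) (nat_lit 69) (.e (nat_lit 557105) (nat_lit 14) (.e (nat_lit 180252) (nat_lit 10) (.e (nat_lit 573489) (nat_lit 14) (.e (nat_lit 73755) (nat_lit 8) (.e (nat_lit 557090) (nat_lit 12) (.e (nat_lit 163845) (nat_lit 0) (.e (nat_lit 5798) (nat_lit 320) (.e (nat_lit 2548) (nat_lit 158) .nil))))))))) (.g (nat_lit 5) .nil .nil)))) 
(.nd (nat_lit 5) 
(.lf (nat_lit 130834) (.g (nat_lit 3765) (.e (nat_lit 8326) (nat_lit 69) (.e (nat_lit 557105) (nat_lit 14) (.e (nat_lit 180252) (nat_lit 10) (.e (nat_lit 573489) (nat_lit 14) (.e (nat_lit 73755) (nat_lit 8) (.e (nat_lit 557090) (nat_lit 12) (.e (nat_lit 163844) (nat_lit 0) (.e (nat_lit 5797) (nat_lit 320) (.e (nat_lit 2547) (nat_lit 158) .nil))))))))) (.g (nat_lit 7) .nil .nil))) 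
(.lf (nat_lit 130866) (.g (nat_lit 1892) (.e (nat_lit 8326) (nat_lit 69) (.e (nat_lit 557109) (nat_lit 15) (.e (nat_lit 188449) (nat_lit 22) (.e (nat_lit 196661) (nat_lit 12) .nil)))) .nil)))) (.nd (nat_lit 4) (.nd (nat_lit 5) 
(.lf (nat_lit 130826) (.g (nat_lit 4373) (.e (nat_lit 8326) (nat_lit 69) (.e (nat_lit 557105) (nat_lit 14) (.e (nat_lit 180252) (nat_lit 10) (.e (nat_lit 573489) (nat_lit 14) (.e (nat_lit 73755) (nat_lit 8) (.e (nat_lit 557090) (nat_lit 12) (.e (nat_lit 163843) (nat_lit 0) (.e (nat_lit 5800) (nat_lit 320) (.e (nat_lit 2548) (nat_lit 158) .nil))))))))) (.g (nat_lit 7) .nil .nil))) 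
(.lf (nat_lit 130858) (.g (nat_lit 2083) (.e (nat_lit 8326) (nat_lit 69) (.e (nat_lit 557107) (nat_lit 15) (.e (nat_lit 188424) (nat_lit 20) (.e (nat_lit 3238) (nat_lit 197) (.e (nat_lit 532523) (nat_lit 7) (.e (nat_lit 319504) (nat_lit 10) (.e (nat_lit 7936) (nat_lit 313) .nil))))))) (.g (nat_lit 4) .nil .nil)))) (.nd (nat_lit 5) 
(.lf (nat_lit 130842) (.g (nat_lit 4213) (.e (nat_lit 8326) (nat_lit 69) (.e (nat_lit 557105) (nat_lit 14) (.e (nat_lit 180252) (nat_lit 10) (.e (nat_lit 573489) (nat_lit 14) (.e (nat_lit 73755) (nat_lit 8) (.e (nat_lit 557090) (nat_lit 12) (.e (nat_lit 163844) (nat_lit 0) (.e (nat_lit 5811) (nat_lit 320) (.e (nat_lit 2548) (nat_lit 158) .nil))))))))) (.g (nat_lit 7) .nil .nil))) 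
(.lf (nat_lit 130874) (.g (nat_lit 1469) (.e (nat_lit 8326) (nat_lit 69) (.e (nat_lit 557109) (nat_lit 15) (.e (nat_lit 188452) (nat_lit 23) (.e (nat_lit 204819) (nat_lit 17) .nil)))) .nil))))) (.nd (nat_lit 3) (.nd (nat_lit 4) (.nd (nat_lit 5) 
(.lf (nat_lit 130822) (.g (nat_lit 4796) (.e (nat_lit 8326) (nat_lit 69) (.e (nat_lit 557105) (nat_lit 14) (.e (nat_lit 180252) (nat_lit 10) (.e (nat_lit 573489) (nat_lit 14) (.e (nat_lit 73755) (nat_lit 8) (.e (nat_lit 557090) (nat_lit 12) (.e (nat_lit 163843) (nat_lit 0) (.e (nat_lit 5800) (nat_lit 320) (.e (nat_lit 2540) (nat_lit 158) .nil))))))))) (.g (nat_lit 7) .nil .nil))) 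
(.lf (nat_lit 130854) (.g (nat_lit 3256) (.e (nat_lit 8326) (nat_lit 69) (.e (nat_lit 557105) (nat_lit 14) (.e (nat_lit 180252) (nat_lit 10) (.e (nat_lit 573489) (nat_lit 14) (.e (nat_lit 73755) (nat_lit 8) (.e (nat_lit 557090) (nat_lit 12) (.e (nat_lit 163845) (nat_lit 0) (.e (nat_lit 5800) (nat_lit 320) (.e (nat_lit 2547) (nat_lit 158) .nil))))))))) (.g (nat_lit 5) .nil .nil)))) 
(.nd (nat_lit 5) 
(.lf (nat_lit 130838) (.g (nat_lit 4201) (.e (nat_lit 8326) (nat_lit 69) (.e (nat_lit 557105) (nat_lit 14) (.e (nat_lit 180252) (nat_lit 10) (.e (nat_lit 573489) (nat_lit 14) (.e (nat_lit 73755) (nat_lit 8) (.e (nat_lit 557090) (nat_lit 12) (.e (nat_lit 163844) (nat_lit 0) (.e (nat_lit 5799) (nat_lit 320) (.e (nat_lit 2542) (nat_lit 158) .nil))))))))) (.g (nat_lit 7) .nil .nil))) 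
(.lf (nat_lit 130870) (.g (nat_lit 451) (.e (nat_lit 8326) (nat_lit 69) (.e (nat_lit 557109) (nat_lit 15) (.e (nat_lit 188450) (nat_lit 23) .nil))) .nil)))) (.nd (nat_lit 4) (.nd (nat_lit 5) 
(.lf (nat_lit 130830) (.g (nat_lit 3966) (.e (nat_lit 8326) (nat_lit 69) (.e (nat_lit 557105) (nat_lit 14) (.e (nat_lit 180252) (nat_lit 10) (.e (nat_lit 573489) (nat_lit 14) (.e (nat_lit 73755) (nat_lit 8) (.e (nat_lit 557090) (nat_lit 12) (.e (nat_lit 163843) (nat_lit 0) (.e (nat_lit 5840) (nat_lit 320) (.e (nat_lit 2540) (nat_lit 158) .nil))))))))) (.g (nat_lit 6) .nil .nil))) 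
(.lf (nat_lit 130862) (.g (nat_lit 2250) (.e (nat_lit 8326) (nat_lit 69) (.e (nat_lit 557109) (nat_lit 15) (.e (nat_lit 188434) (nat_lit 20) (.e (nat_lit 3238) (nat_lit 197) (.e (nat_lit 532523) (nat_lit 7) (.e (nat_lit 319504) (nat_lit 10) (.e (nat_lit 7936) (nat_lit 313) .nil))))))) (.g (nat_lit 4) .nil .nil)))) (.nd (nat_lit 5) 
(.lf (nat_lit 130846) (.g (nat_lit 3732) (.e (nat_lit 8326) (nat_lit 69) (.e (nat_lit 557105) (nat_lit 14) (.e (nat_lit 180252) (nat_lit 10) (.e (nat_lit 573489) (nat_lit 14) (.e (nat_lit 73755) (nat_lit 8) (.e (nat_lit 557090) (nat_lit 12) (.e (nat_lit 163844) (nat_lit 0) (.e (nat_lit 5842) (nat_lit 320) (.e (nat_lit 2540) (nat_lit 158) .nil))))))))) (.g (nat_lit 6) .nil .nil))) 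
(.lf (nat_lit 130878) (.g (nat_lit 1413) (.e (nat_lit 8326) (nat_lit 69) (.e (nat_lit 557109) (nat_lit 15) (.e (nat_lit 188452) (nat_lit 23) (.e (nat_lit 204863) (nat_lit 27) (.e (nat_lit 344096) (nat_lit 18) .nil))))) .nil))))))) (.nd (nat_lit 1) (.nd (nat_lit 2) (.nd (nat_lit 3) (.nd (nat_lit 4) (.nd (nat_lit 5) 
(.lf (nat_lit 130817) (.g (nat_lit 4866) (.e (nat_lit 8326) (nat_lit 69) (.e (nat_lit 557105) (nat_lit 14) (.e (nat_lit 180252) (nat_lit 10) (.e (nat_lit 573489) (nat_lit 14) (.e (nat_lit 73755) (nat_lit 8) (.e (nat_lit 557090) (nat_lit 12) (.e (nat_lit 163843) (nat_lit 0) (.e (nat_lit 5798) (nat_lit 320) (.e (nat_lit 2540) (nat_lit 158) .nil))))))))) (.g (nat_lit 7) .nil .nil))) 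
(.lf (nat_lit 130849) (.g (nat_lit 3328) (.e (nat_lit 8326) (nat_lit 69) (.e (nat_lit 557105) (nat_lit 14) (.e (nat_lit 180252) (nat_lit 10) (.e (nat_lit 573489) (nat_lit 14) (.e (nat_lit 73755) (nat_lit 8) (.e (nat_lit 557090) (nat_lit 12) (.e (nat_lit 163845) (nat_lit 0) (.e (nat_lit 5798) (nat_lit 320) (.e (nat_lit 2547) (nat_lit 158) .nil))))))))) (.g (nat_lit 5) .nil .nil)))) 
(.nd (nat_lit 5) 
(.lf (nat_lit 130833) (.g (nat_lit 2850) (.e (nat_lit 8326) (nat_lit 69) (.e (nat_lit 557105) (nat_lit 14) (.e (nat_lit 180252) (nat_lit 10) (.e (nat_lit 573489) (nat_lit 14) (.e (nat_lit 73755) (nat_lit 8) (.e (nat_lit 557090) (nat_lit 12) (.e (nat_lit 163844) (nat_lit 0) (.e (nat_lit 5797) (nat_lit 320) (.e (nat_lit 2542) (nat_lit 158) .nil))))))))) (.g (nat_lit 4) .nil .nil))) 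
(.lf (nat_lit 130865) (.g (nat_lit 4655) (.e (nat_lit 8326) (nat_lit 69) (.e (nat_lit 557109) (nat_lit 15) (.e (nat_lit 188449) (nat_lit 22) (.e (nat_lit 196626) (nat_lit 9) (.e (nat_lit 1400) (nat_lit 106) (.e (nat_lit 319504) (nat_lit 10) (.e (nat_lit 7936) (nat_lit 313) .nil))))))) (.g (nat_lit 5) .nil .nil))))) (.nd (nat_lit 4) (.nd (nat_lit 5) 
(.lf (nat_lit 130825) (.g (nat_lit 4510) (.e (nat_lit 8326) (nat_lit 69) (.e (nat_lit 557105) (nat_lit 14) (.e (nat_lit 180252) (nat_lit 10) (.e (nat_lit 573489) (nat_lit 14) (.e (nat_lit 73755) (nat_lit 8) (.e (nat_lit 557090) (nat_lit 12) (.e (nat_lit 163843) (nat_lit 0) (.e (nat_lit 5800) (nat_lit 320) (.e (nat_lit 2547) (nat_lit 158) .nil))))))))) (.g (nat_lit 7) .nil .nil))) 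
(.lf (nat_lit 130857) (.g (nat_lit 4848) (.e (nat_lit 8326) (nat_lit 69) (.e (nat_lit 557105) (nat_lit 14) (.e (nat_lit 180252) (nat_lit 10) (.e (nat_lit 573489) (nat_lit 14) (.e (nat_lit 73755) (nat_lit 8) (.e (nat_lit 557090) (nat_lit 12) (.e (nat_lit 164012) (nat_lit 42) (.e (nat_lit 671778) (nat_lit 10) .nil)))))))) (.g (nat_lit 8) .nil .nil)))) (.nd (nat_lit 5) 
(.lf (nat_lit 130841) (.g (nat_lit 4184) (.e (nat_lit 8326) (nat_lit 69) (.e (nat_lit 557105) (nat_lit 14) (.e (nat_lit 180252) (nat_lit 10) (.e (nat_lit 573489) (nat_lit 14) (.e (nat_lit 73755) (nat_lit 8) (.e (nat_lit 557090) (nat_lit 12) (.e (nat_lit 163844) (nat_lit 0) (.e (nat_lit 5811) (nat_lit 320) (.e (nat_lit 2541) (nat_lit 158) .nil))))))))) (.g (nat_lit 7) .nil .nil))) 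
(.lf (nat_lit 130873) (.g (nat_lit 2812) (.e (nat_lit 8326) (nat_lit 69) (.e (nat_lit 557109) (nat_lit 15) (.e (nat_lit 188452) (nat_lit 23) (.e (nat_lit 204817) (nat_lit 17) .nil)))) .nil))))) (.nd (nat_lit 3) (.nd (nat_lit 4) (.nd (nat_lit 5) 
(.lf (nat_lit 130821) (.g (nat_lit 4842) (.e (nat_lit 8326) (nat_lit 69) (.e (nat_lit 557105) (nat_lit 14) (.e (nat_lit 180252) (nat_lit 10) (.e (nat_lit 573489) (nat_lit 14) (.e (nat_lit 73755) (nat_lit 8) (.e (nat_lit 557090) (nat_lit 12) (.e (nat_lit 163843) (nat_lit 0) (.e (nat_lit 5799) (nat_lit 320) (.e (nat_lit 2541) (nat_lit 158) .nil))))))))) (.g (nat_lit 7) .nil .nil))) 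
(.lf (nat_lit 130853) (.g (nat_lit 3287) (.e (nat_lit 8326) (nat_lit 69) (.e (nat_lit 557105) (nat_lit 14) (.e (nat_lit 180252) (nat_lit 10) (.e (nat_lit 573489) (nat_lit 14) (.e (nat_lit 73755) (nat_lit 8) (.e (nat_lit 557090) (nat_lit 12) (.e (nat_lit 163845) (nat_lit 0) (.e (nat_lit 5800) (nat_lit 320) (.e (nat_lit 2541) (nat_lit 158) .nil))))))))) (.g (nat_lit 5) .nil .nil)))) 
(.nd (nat_lit 5) 
(.lf (nat_lit 130837) (.g (nat_lit 4745) (.e (nat_lit 8326) (nat_lit 69) (.e (nat_lit 557105) (nat_lit 14) (.e (nat_lit 180252) (nat_lit 10) (.e (nat_lit 573489) (nat_lit 14) (.e (nat_lit 73755) (nat_lit 8) (.e (nat_lit 557090) (nat_lit 12) (.e (nat_lit 163844) (nat_lit 0) (.e (nat_lit 5799) (nat_lit 320) (.e (nat_lit 2541) (nat_lit 158) .nil))))))))) (.g (nat_lit 8) .nil .nil))) 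
(.lf (nat_lit 130869) (.g (nat_lit 6000) (.e (nat_lit 8326) (nat_lit 69) (.e (nat_lit 557109) (nat_lit 15) (.e (nat_lit 188449) (nat_lit 22) (.e (nat_lit 196677) (nat_lit 16) .nil)))) .nil)))) (.nd (nat_lit 4) (.nd (nat_lit 5) 
(.lf (nat_lit 130829) (.g (nat_lit 3757) (.e (nat_lit 8326) (nat_lit 69) (.e (nat_lit 557105) (nat_lit 14) (.e (nat_lit 180252) (nat_lit 10) (.e (nat_lit 573489) (nat_lit 14) (.e (nat_lit 73755) (nat_lit 8) (.e (nat_lit 557090) (nat_lit 12) (.e (nat_lit 163843) (nat_lit 0) (.e (nat_lit 5839) (nat_lit 320) (.e (nat_lit 2540) (nat_lit 158) .nil))))))))) (.g (nat_lit 6) .nil .nil))) 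
(.lf (nat_lit 130861) (.g (nat_lit 1817) (.e (nat_lit 8326) (nat_lit 69) (.e (nat_lit 557109) (nat_lit 15) (.e (nat_lit 188424) (nat_lit 20) (.e (nat_lit 3238) (nat_lit 197) .nil)))) .nil))) (.nd (nat_lit 5) 
(.lf (nat_lit 130845) (.g (nat_lit 4017) (.e (nat_lit 8326) (nat_lit 69) (.e (nat_lit 557105) (nat_lit 14) (.e (nat_lit 180252) (nat_lit 10) (.e (nat_lit 573489) (nat_lit 14) (.e (nat_lit 73755) (nat_lit 8) (.e (nat_lit 557090) (nat_lit 12) (.e (nat_lit 163844) (nat_lit 0) (.e (nat_lit 5840) (nat_lit 320) (.e (nat_lit 2540) (nat_lit 158) .nil))))))))) (.g (nat_lit 7) .nil .nil))) 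
(.lf (nat_lit 130877) (.g (nat_lit 2605) (.e (nat_lit 8326) (nat_lit 69) (.e (nat_lit 557109) (nat_lit 15) (.e (nat_lit 188452) (nat_lit 23) (.e (nat_lit 204849) (nat_lit 25) .nil)))) .nil)))))) (.nd (nat_lit 2) (.nd (nat_lit 3) (.nd (nat_lit 4) (.nd (nat_lit 5) 
(.lf (nat_lit 130819) (.g (nat_lit 4418) (.e (nat_lit 8326) (nat_lit 69) (.e (nat_lit 557105) (nat_lit 14) (.e (nat_lit 180252) (nat_lit 10) (.e (nat_lit 573489) (nat_lit 14) (.e (nat_lit 73755) (nat_lit 8) (.e (nat_lit 557090) (nat_lit 12) (.e (nat_lit 163843) (nat_lit 0) (.e (nat_lit 5798) (nat_lit 320) (.e (nat_lit 2548) (nat_lit 158) .nil))))))))) (.g (nat_lit 7) .nil .nil))) 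
(.lf (nat_lit 130851) (.g (nat_lit 3342) (.e (nat_lit 8326) (nat_lit 69) (.e (nat_lit 557105) (nat_lit 14) (.e (nat_lit 180252) (nat_lit 10) (.e (nat_lit 573489) (nat_lit 14) (.e (nat_lit 73755) (nat_lit 8) (.e (nat_lit 557090) (nat_lit 12) (.e (nat_lit 163845) (nat_lit 0) (.e (nat_lit 5799) (nat_lit 320) (.e (nat_lit 2541) (nat_lit 158) .nil))))))))) (.g (nat_lit 5) .nil .nil)))) 
(.nd (nat_lit 5) 
(.lf (nat_lit 130835) (.g (nat_lit 3250) (.e (nat_lit 8326) (nat_lit 69) (.e (nat_lit 557105) (nat_lit 14) (.e (nat_lit 180252) (nat_lit 10) (.e (nat_lit 573489) (nat_lit 14) (.e (nat_lit 73755) (nat_lit 8) (.e (nat_lit 557090) (nat_lit 12) (.e (nat_lit 163844) (nat_lit 0) (.e (nat_lit 5797) (nat_lit 320) (.e (nat_lit 2548) (nat_lit 158) .nil))))))))) (.g (nat_lit 5) .nil .nil))) 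
(.lf (nat_lit 130867) (.g (nat_lit 2119) (.e (nat_lit 8326) (nat_lit 69) (.e (nat_lit 557109) (nat_lit 15) (.e (nat_lit 188449) (nat_lit 22) (.e (nat_lit 196661) (nat_lit 12) (.e (nat_lit 57712) (nat_lit 176) .nil))))) .nil)))) (.nd (nat_lit 4) (.nd (nat_lit 5) 
(.lf (nat_lit 130827) (.g (nat_lit 3914) (.e (nat_lit 8326) (nat_lit 69) (.e (nat_lit 557105) (nat_lit 14) (.e (nat_lit 180252) (nat_lit 10) (.e (nat_lit 573489) (nat_lit 14) (.e (nat_lit 73755) (nat_lit 8) (.e (nat_lit 557090) (nat_lit 12) (.e (nat_lit 163843) (nat_lit 0) (.e (nat_lit 5811) (nat_lit 320) (.e (nat_lit 2540) (nat_lit 158) .nil))))))))) (.g (nat_lit 6) .nil .nil))) 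
(.lf (nat_lit 130859) (.g (nat_lit 1641) (.e (nat_lit 8326) (nat_lit 69) (.e (nat_lit 557107) (nat_lit 15) (.e (nat_lit 188450) (nat_lit 23) (.e (nat_lit 204863) (nat_lit 27) (.e (nat_lit 344096) (nat_lit 18) .nil))))) .nil))) (.nd (nat_lit 5) 
(.lf (nat_lit 130843) (.g (nat_lit 3728) (.e (nat_lit 8326) (nat_lit 69) (.e (nat_lit 557105) (nat_lit 14) (.e (nat_lit 180252) (nat_lit 10) (.e (nat_lit 573489) (nat_lit 14) (.e (nat_lit 73755) (nat_lit 8) (.e (nat_lit 557090) (nat_lit 12) (.e (nat_lit 163844) (nat_lit 0) (.e (nat_lit 5832) (nat_lit 320) (.e (nat_lit 2540) (nat_lit 158) .nil))))))))) (.g (nat_lit 6) .nil .nil))) 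
(.lf (nat_lit 130875) (.g (nat_lit 1176) (.e (nat_lit 8326) (nat_lit 69) (.e (nat_lit 557109) (nat_lit 15) (.e (nat_lit 188452) (nat_lit 23) (.e (nat_lit 204821) (nat_lit 17) .nil)))) .nil))))) (.nd (nat_lit 3) (.nd (nat_lit 4) (.nd (nat_lit 5) 
(.lf (nat_lit 130823) (.g (nat_lit 4541) (.e (nat_lit 8326) (nat_lit 69) (.e (nat_lit 557105) (nat_lit 14) (.e (nat_lit 180252) (nat_lit 10) (.e (nat_lit 573489) (nat_lit 14) (.e (nat_lit 73755) (nat_lit 8) (.e (nat_lit 557090) (nat_lit 12) (.e (nat_lit 163843) (nat_lit 0) (.e (nat_lit 5800) (nat_lit 320) (.e (nat_lit 2541) (nat_lit 158) .nil))))))))) (.g (nat_lit 7) .nil .nil))) 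
(.lf (nat_lit 130855) (.g (nat_lit 3119) (.e (nat_lit 8326) (nat_lit 69) (.e (nat_lit 557105) (nat_lit 14) (.e (nat_lit 180252) (nat_lit 10) (.e (nat_lit 573489) (nat_lit 14) (.e (nat_lit 73755) (nat_lit 8) (.e (nat_lit 557090) (nat_lit 12) (.e (nat_lit 163845) (nat_lit 0) (.e (nat_lit 5800) (nat_lit 320) (.e (nat_lit 2548) (nat_lit 158) .nil))))))))) (.g (nat_lit 5) .nil .nil)))) 
(.nd (nat_lit 5) 
(.lf (nat_lit 130839) (.g (nat_lit 3882) (.e (nat_lit 8326) (nat_lit 69) (.e (nat_lit 557105) (nat_lit 14) (.e (nat_lit 180252) (nat_lit 10) (.e (nat_lit 573489) (nat_lit 14) (.e (nat_lit 73755) (nat_lit 8) (.e (nat_lit 557090) (nat_lit 12) (.e (nat_lit 163844) (nat_lit 0) (.e (nat_lit 5800) (nat_lit 320) (.e (nat_lit 2542) (nat_lit 158) .nil))))))))) (.g (nat_lit 7) .nil .nil))) 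
(.lf (nat_lit 130871) (.g (nat_lit 2969) (.e (nat_lit 8326) (nat_lit 69) (.e (nat_lit 557109) (nat_lit 15) (.e (nat_lit 188450) (nat_lit 23) (.e (nat_lit 204863) (nat_lit 27) .nil)))) .nil)))) (.nd (nat_lit 4) (.nd (nat_lit 5) 
(.lf (nat_lit 130831) (.g (nat_lit 4169) (.e (nat_lit 8326) (nat_lit 69) (.e (nat_lit 557105) (nat_lit 14) (.e (nat_lit 180252) (nat_lit 10) (.e (nat_lit 573489) (nat_lit 14) (.e (nat_lit 73755) (nat_lit 8) (.e (nat_lit 557090) (nat_lit 12) (.e (nat_lit 163844) (nat_lit 0) (.e (nat_lit 5796) (nat_lit 320) (.e (nat_lit 2541) (nat_lit 158) .nil))))))))) (.g (nat_lit 7) .nil .nil))) 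
(.lf (nat_lit 130863) (.g (nat_lit 2284) (.e (nat_lit 8326) (nat_lit 69) (.e (nat_lit 557109) (nat_lit 15) (.e (nat_lit 188437) (nat_lit 20) (.e (nat_lit 3238) (nat_lit 197) (.e (nat_lit 532523) (nat_lit 7) .nil))))) .nil))) (.nd (nat_lit 5) 
(.lf (nat_lit 130847) (.g (nat_lit 3734) (.e (nat_lit 8326) (nat_lit 69) (.e (nat_lit 557105) (nat_lit 14) (.e (nat_lit 180252) (nat_lit 10) (.e (nat_lit 573489) (nat_lit 14) (.e (nat_lit 73755) (nat_lit 8) (.e (nat_lit 557090) (nat_lit 12) (.e (nat_lit 163844) (nat_lit 0) (.e (nat_lit 5843) (nat_lit 320) (.e (nat_lit 2540) (nat_lit 158) .nil))))))))) (.g (nat_lit 6) .nil .nil))) 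
(.lf (nat_lit 130879) (.g (nat_lit 2366) (.e (nat_lit 8326) (nat_lit 69) (.e (nat_lit 557109) (nat_lit 15) (.e (nat_lit 188452) (nat_lit 23) (.e (nat_lit 204863) (nat_lit 27) (.e (nat_lit 344096) (nat_lit 18) (.e (nat_lit 4764) (nat_lit 281) (.e (nat_lit 2545) (nat_lit 158) .nil))))))) (.g (nat_lit 4) .nil .nil)))))))))

noncomputable def tv1746 : DT := (.nd (nat_lit 0) (.nd (nat_lit 1) (.nd (nat_lit 2) (.nd (nat_lit 3) (.nd (nat_lit 4) (.nd (nat_lit 5) 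
(.lf (nat_lit 130880) (.g (nat_lit 2307) (.e (nat_lit 8326) (nat_lit 69) (.e (nat_lit 557109) (nat_lit 15) (.e (nat_lit 188452) (nat_lit 23) (.e (nat_lit 204863) (nat_lit 27) (.e (nat_lit 344096) (nat_lit 18) (.e (nat_lit 4764) (nat_lit 281) (.e (nat_lit 2546) (nat_lit 158) .nil))))))) (.g (nat_lit 4) .nil .nil))) 
(.lf (nat_lit 130912) (.g (nat_lit 1438) (.e (nat_lit 8348) (nat_lit 87) (.e (nat_lit 704598) (nat_lit 6) (.e (nat_lit 188452) (nat_lit 23) (.e (nat_lit 212736) (nat_lit 10) .nil)))) .nil))) (.nd (nat_lit 5) 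
(.lf (nat_lit 130896) (.g (nat_lit 1673) (.e (nat_lit 8342) (nat_lit 85) (.e (nat_lit 688177) (nat_lit 16) (.e (nat_lit 65566) (nat_lit 2) (.e (nat_lit 90176) (nat_lit 15) (.e (nat_lit 188456) (nat_lit 25) (.e (nat_lit 245771) (nat_lit 1) .nil)))))) (.g (nat_lit 4) .nil .nil))) 
(.lf (nat_lit 130928) (.g (nat_lit 1203) (.e (nat_lit 8356) (nat_lit 88) (.e (nat_lit 712755) (nat_lit 30) (.e (nat_lit 450563) (nat_lit 0) (.e (nat_lit 5537) (nat_lit 306) .nil)))) .nil)))) (.nd (nat_lit 4) (.nd (nat_lit 5) 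
(.lf (nat_lit 130888) (.g (nat_lit 2073) (.e (nat_lit 8326) (nat_lit 69) (.e (nat_lit 557109) (nat_lit 15) (.e (nat_lit 188461) (nat_lit 26) (.e (nat_lit 253960) (nat_lit 9) .nil)))) .nil)) 
(.lf (nat_lit 130920) (.g (nat_lit 2330) (.e (nat_lit 8353) (nat_lit 87) (.e (nat_lit 704738) (nat_lit 11) (.e (nat_lit 16425) (nat_lit 7) (.e (nat_lit 409648) (nat_lit 18) .nil)))) .nil))) (.nd (nat_lit 5) 
(.lf (nat_lit 130904) (.g (nat_lit 4916) (.e (nat_lit 8343) (nat_lit 86) (.e (nat_lit 696358) (nat_lit 15) (.e (nat_lit 57479) (nat_lit 28) (.e (nat_lit 557105) (nat_lit 14) (.e (nat_lit 180252) (nat_lit 10) (.e (nat_lit 573489) (nat_lit 14) (.e (nat_lit 73755) (nat_lit 8) (.e (nat_lit 557084) (nat_lit 10) .nil)))))))) (.g (nat_lit 8) .nil .nil))) 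
(.lf (nat_lit 130936) (.g (nat_lit 1954) (.e (nat_lit 8356) (nat_lit 88) (.e (nat_lit 712755) (nat_lit 30) (.e (nat_lit 450588) (nat_lit 10) (.e (nat_lit 573468) (nat_lit 10) .nil)))) .nil))))) (.nd (nat_lit 3) (.nd (nat_lit 4) (.nd (nat_lit 5) 
(.lf (nat_lit 130884) (.g (nat_lit 2543) (.e (nat_lit 8326) (nat_lit 69) (.e (nat_lit 557109) (nat_lit 15) (.e (nat_lit 188458) (nat_lit 25) (.e (nat_lit 245784) (nat_lit 9) .nil)))) .nil)) 
(.lf (nat_lit 130916) (.g (nat_lit 1408) (.e (nat_lit 8348) (nat_lit 87) (.e (nat_lit 704599) (nat_lit 6) (.e (nat_lit 188452) (nat_lit 23) (.e (nat_lit 212736) (nat_lit 10) .nil)))) .nil))) (.nd (nat_lit 5) 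
(.lf (nat_lit 130900) (.g (nat_lit 1159) (.e (nat_lit 8342) (nat_lit 85) (.e (nat_lit 688177) (nat_lit 16) (.e (nat_lit 65571) (nat_lit 3) (.e (nat_lit 98370) (nat_lit 28) .nil)))) .nil)) 
(.lf (nat_lit 130932) (.g (nat_lit 2007) (.e (nat_lit 8356) (nat_lit 88) (.e (nat_lit 712755) (nat_lit 30) (.e (nat_lit 450588) (nat_lit 10) (.e (nat_lit 573448) (nat_lit 9) .nil)))) .nil)))) (.nd (nat_lit 4) (.nd (nat_lit 5) 
(.lf (nat_lit 130892) (.g (nat_lit 1623) (.e (nat_lit 8342) (nat_lit 85) (.e (nat_lit 688170) (nat_lit 15) (.e (nat_lit 57479) (nat_lit 28) (.e (nat_lit 557103) (nat_lit 14) .nil)))) .nil)) 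
(.lf (nat_lit 130924) (.g (nat_lit 2690) (.e (nat_lit 8355) (nat_lit 87) (.e (nat_lit 704738) (nat_lit 11) (.e (nat_lit 16425) (nat_lit 7) (.e (nat_lit 409649) (nat_lit 18) (.e (nat_lit 303140) (nat_lit 10) .nil))))) .nil))) (.nd (nat_lit 5) 
(.lf (nat_lit 130908) (.g (nat_lit 1010) (.e (nat_lit 8348) (nat_lit 87) (.e (nat_lit 704598) (nat_lit 6) (.e (nat_lit 188450) (nat_lit 23) (.e (nat_lit 212736) (nat_lit 10) .nil)))) .nil)) 
(.lf (nat_lit 130940) (.g (nat_lit 1894) (.e (nat_lit 8358) (nat_lit 88) (.e (nat_lit 712752) (nat_lit 29) (.e (nat_lit 442421) (nat_lit 21) (.e (nat_lit 164348) (nat_lit 240) .nil)))) .nil)))))) (.nd (nat_lit 2) (.nd (nat_lit 3) (.nd (nat_lit 4) (.nd (nat_lit 5) 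
(.lf (nat_lit 130882) (.g (nat_lit 726) (.e (nat_lit 8326) (nat_lit 69) (.e (nat_lit 557109) (nat_lit 15) (.e (nat_lit 188455) (nat_lit 24) .nil))) .nil)) 
(.lf (nat_lit 130914) (.g (nat_lit 346) (.e (nat_lit 8348) (nat_lit 87) (.e (nat_lit 704599) (nat_lit 6) (.e (nat_lit 188418) (nat_lit 0) (.e (nat_lit 2058) (nat_lit 142) .nil)))) .nil))) (.nd (nat_lit 5) 
(.lf (nat_lit 130898) (.g (nat_lit 443) (.e (nat_lit 8342) (nat_lit 85) (.e (nat_lit 688177) (nat_lit 16) (.e (nat_lit 65571) (nat_lit 3) .nil))) .nil)) 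
(.lf (nat_lit 130930) (.g (nat_lit 1670) (.e (nat_lit 8356) (nat_lit 88) (.e (nat_lit 712755) (nat_lit 30) (.e (nat_lit 450588) (nat_lit 10) (.e (nat_lit 573441) (nat_lit 0) (.e (nat_lit 2962) (nat_lit 185) .nil))))) .nil)))) (.nd (nat_lit 4) (.nd (nat_lit 5) 
(.lf (nat_lit 130890) (.g (nat_lit 1911) (.e (nat_lit 16128) (nat_lit 69) (.e (nat_lit 557108) (nat_lit 15) (.e (nat_lit 188452) (nat_lit 23) (.e (nat_lit 204846) (nat_lit 24) .nil)))) .nil)) 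
(.lf (nat_lit 130922) (.g (nat_lit 2657) (.e (nat_lit 8353) (nat_lit 87) (.e (nat_lit 704738) (nat_lit 11) (.e (nat_lit 16425) (nat_lit 7) (.e (nat_lit 409649) (nat_lit 18) (.e (nat_lit 303140) (nat_lit 10) .nil))))) .nil))) (.nd (nat_lit 5) 
(.lf (nat_lit 130906) (.g (nat_lit 2056) (.e (nat_lit 8344) (nat_lit 87) (.e (nat_lit 704734) (nat_lit 11) (.e (nat_lit 16465) (nat_lit 13) (.e (nat_lit 483406) (nat_lit 26) (.e (nat_lit 392960) (nat_lit 49) .nil))))) .nil)) 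
(.lf (nat_lit 130938) (.g (nat_lit 635) (.e (nat_lit 8358) (nat_lit 88) (.e (nat_lit 712752) (nat_lit 29) (.e (nat_lit 442382) (nat_lit 8) .nil))) .nil))))) (.nd (nat_lit 3) (.nd (nat_lit 4) (.nd (nat_lit 5) 
(.lf (nat_lit 130886) (.g (nat_lit 1829) (.e (nat_lit 8326) (nat_lit 69) (.e (nat_lit 557109) (nat_lit 15) (.e (nat_lit 188461) (nat_lit 26) (.e (nat_lit 253959) (nat_lit 9) .nil)))) .nil)) 
(.lf (nat_lit 130918) (.g (nat_lit 1757) (.e (nat_lit 8348) (nat_lit 87) (.e (nat_lit 704599) (nat_lit 6) (.e (nat_lit 188452) (nat_lit 23) (.e (nat_lit 204817) (nat_lit 17) (.e (nat_lit 7936) (nat_lit 153) (.e (nat_lit 794680) (nat_lit 24) (.e (nat_lit 213028) (nat_lit 10) .nil))))))) (.g (nat_lit 4) .nil .nil)))) (.nd (nat_lit 5) 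
(.lf (nat_lit 130902) (.g (nat_lit 1941) (.e (nat_lit 8342) (nat_lit 85) (.e (nat_lit 688177) (nat_lit 16) (.e (nat_lit 65586) (nat_lit 7) (.e (nat_lit 319531) (nat_lit 16) (.e (nat_lit 286748) (nat_lit 9) (.e (nat_lit 336295) (nat_lit 15) (.e (nat_lit 2443) (nat_lit 157) (.e (nat_lit 6919) (nat_lit 371) (.e (nat_lit 2543) (nat_lit 158) .nil))))))))) (.g (nat_lit 4) .nil .nil))) 
(.lf (nat_lit 130934) (.g (nat_lit 1239) (.e (nat_lit 8356) (nat_lit 88) (.e (nat_lit 712755) (nat_lit 30) (.e (nat_lit 450588) (nat_lit 10) (.e (nat_lit 573467) (nat_lit 10) .nil)))) .nil)))) (.nd (nat_lit 4) (.nd (nat_lit 5) 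
(.lf (nat_lit 130894) (.g (nat_lit 2439) (.e (nat_lit 8342) (nat_lit 85) (.e (nat_lit 688170) (nat_lit 15) (.e (nat_lit 57480) (nat_lit 28) (.e (nat_lit 557103) (nat_lit 14) (.e (nat_lit 180243) (nat_lit 5) .nil))))) .nil)) 
(.lf (nat_lit 130926) (.g (nat_lit 1655) (.e (nat_lit 8356) (nat_lit 88) (.e (nat_lit 712752) (nat_lit 29) (.e (nat_lit 442427) (nat_lit 23) (.e (nat_lit 204821) (nat_lit 17) .nil)))) .nil))) (.nd (nat_lit 5) 
(.lf (nat_lit 130910) (.g (nat_lit 1432) (.e (nat_lit 8348) (nat_lit 87) (.e (nat_lit 704598) (nat_lit 6) (.e (nat_lit 188450) (nat_lit 23) (.e (nat_lit 204817) (nat_lit 17) (.e (nat_lit 7936) (nat_lit 153) (.e (nat_lit 794680) (nat_lit 24) (.e (nat_lit 213028) (nat_lit 10) .nil))))))) (.g (nat_lit 4) .nil .nil))) 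
(.lf (nat_lit 130942) (.g (nat_lit 1934) (.e (nat_lit 8358) (nat_lit 88) (.e (nat_lit 712752) (nat_lit 29) (.e (nat_lit 442427) (nat_lit 23) (.e (nat_lit 204817) (nat_lit 17) .nil)))) .nil))))))) (.nd (nat_lit 1) (.nd (nat_lit 2) (.nd (nat_lit 3) (.nd (nat_lit 4) (.nd (nat_lit 5) 
(.lf (nat_lit 130881) (.g (nat_lit 2846) (.e (nat_lit 8326) (nat_lit 69) (.e (nat_lit 557109) (nat_lit 15) (.e (nat_lit 188452) (nat_lit 23) (.e (nat_lit 204885) (nat_lit 33) .nil)))) .nil)) 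
(.lf (nat_lit 130913) (.g (nat_lit 1712) (.e (nat_lit 8348) (nat_lit 87) (.e (nat_lit 704598) (nat_lit 6) (.e (nat_lit 188452) (nat_lit 23) (.e (nat_lit 204817) (nat_lit 17) (.e (nat_lit 7936) (nat_lit 153) .nil))))) .nil))) (.nd (nat_lit 5) 
(.lf (nat_lit 130897) (.g (nat_lit 3364) (.e (nat_lit 8342) (nat_lit 85) (.e (nat_lit 688177) (nat_lit 16) (.e (nat_lit 65569) (nat_lit 3) (.e (nat_lit 98359) (nat_lit 26) (.e (nat_lit 426211) (nat_lit 9) (.e (nat_lit 426125) (nat_lit 2) (.e (nat_lit 204544) (nat_lit 1) .nil))))))) (.g (nat_lit 6) .nil .nil))) 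
(.lf (nat_lit 130929) (.g (nat_lit 1841) (.e (nat_lit 8356) (nat_lit 88) (.e (nat_lit 712755) (nat_lit 30) (.e (nat_lit 450563) (nat_lit 0) (.e (nat_lit 5539) (nat_lit 306) (.e (nat_lit 7936) (nat_lit 165) (.e (nat_lit 188160) (nat_lit 41) .nil)))))) (.g (nat_lit 4) .nil .nil))))) (.nd (nat_lit 4) (.nd (nat_lit 5) 
(.lf (nat_lit 130889) (.g (nat_lit 1954) (.e (nat_lit 8326) (nat_lit 69) (.e (nat_lit 557109) (nat_lit 15) (.e (nat_lit 188461) (nat_lit 26) (.e (nat_lit 253983) (nat_lit 10) .nil)))) .nil)) 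
(.lf (nat_lit 130921) (.g (nat_lit 2178) (.e (nat_lit 8353) (nat_lit 87) (.e (nat_lit 704738) (nat_lit 11) (.e (nat_lit 16425) (nat_lit 7) (.e (nat_lit 409649) (nat_lit 18) .nil)))) .nil))) (.nd (nat_lit 5) 
(.lf (nat_lit 130905) (.g (nat_lit 4848) (.e (nat_lit 8343) (nat_lit 86) (.e (nat_lit 696359) (nat_lit 15) (.e (nat_lit 57479) (nat_lit 28) (.e (nat_lit 557105) (nat_lit 14) (.e (nat_lit 180252) (nat_lit 10) (.e (nat_lit 573489) (nat_lit 14) (.e (nat_lit 73755) (nat_lit 8) (.e (nat_lit 557084) (nat_lit 10) .nil)))))))) (.g (nat_lit 8) .nil .nil))) 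
(.lf (nat_lit 130937) (.g (nat_lit 1655) (.e (nat_lit 8357) (nat_lit 88) (.e (nat_lit 712752) (nat_lit 29) (.e (nat_lit 442427) (nat_lit 23) (.e (nat_lit 204821) (nat_lit 17) .nil)))) .nil))))) (.nd (nat_lit 3) (.nd (nat_lit 4) (.nd (nat_lit 5) 
(.lf (nat_lit 130885) (.g (nat_lit 427) (.e (nat_lit 8326) (nat_lit 69) (.e (nat_lit 557109) (nat_lit 15) (.e (nat_lit 188461) (nat_lit 26) .nil))) .nil)) 
(.lf (nat_lit 130917) (.g (nat_lit 1704) (.e (nat_lit 8348) (nat_lit 87) (.e (nat_lit 704599) (nat_lit 6) (.e (nat_lit 188452) (nat_lit 23) (.e (nat_lit 204817) (nat_lit 17) (.e (nat_lit 7936) (nat_lit 153) .nil))))) .nil))) (.nd (nat_lit 5) 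
(.lf (nat_lit 130901) (.g (nat_lit 2158) (.e (nat_lit 8342) (nat_lit 85) (.e (nat_lit 688177) (nat_lit 16) (.e (nat_lit 65571) (nat_lit 3) (.e (nat_lit 98370) (nat_lit 28) (.e (nat_lit 442433) (nat_lit 25) .nil))))) .nil)) 
(.lf (nat_lit 130933) (.g (nat_lit 2219) (.e (nat_lit 8356) (nat_lit 88) (.e (nat_lit 712755) (nat_lit 30) (.e (nat_lit 450588) (nat_lit 10) (.e (nat_lit 573449) (nat_lit 9) (.e (nat_lit 187) (nat_lit 14) .nil))))) .nil)))) (.nd (nat_lit 4) (.nd (nat_lit 5) 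
(.lf (nat_lit 130893) (.g (nat_lit 2486) (.e (nat_lit 8342) (nat_lit 85) (.e (nat_lit 688170) (nat_lit 15) (.e (nat_lit 57479) (nat_lit 28) (.e (nat_lit 557103) (nat_lit 14) (.e (nat_lit 180250) (nat_lit 10) .nil))))) .nil)) 
(.lf (nat_lit 130925) (.g (nat_lit 726) (.e (nat_lit 8356) (nat_lit 88) (.e (nat_lit 712752) (nat_lit 29) (.e (nat_lit 442382) (nat_lit 8) .nil))) .nil))) (.nd (nat_lit 5) 
(.lf (nat_lit 130909) (.g (nat_lit 1431) (.e (nat_lit 8348) (nat_lit 87) (.e (nat_lit 704598) (nat_lit 6) (.e (nat_lit 188450) (nat_lit 23) (.e (nat_lit 204817) (nat_lit 17) (.e (nat_lit 7936) (nat_lit 153) .nil))))) .nil)) 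
(.lf (nat_lit 130941) (.g (nat_lit 772) (.e (nat_lit 8358) (nat_lit 88) (.e (nat_lit 712752) (nat_lit 29) (.e (nat_lit 442427) (nat_lit 23) .nil))) .nil)))))) (.nd (nat_lit 2) (.nd (nat_lit 3) (.nd (nat_lit 4) (.nd (nat_lit 5) 
(.lf (nat_lit 130883) (.g (nat_lit 2982) (.e (nat_lit 8326) (nat_lit 69) (.e (nat_lit 557109) (nat_lit 15) (.e (nat_lit 188458) (nat_lit 25) (.e (nat_lit 245781) (nat_lit 9) .nil)))) .nil)) 
(.lf (nat_lit 130915) (.g (nat_lit 1717) (.e (nat_lit 8348) (nat_lit 87) (.e (nat_lit 704599) (nat_lit 6) (.e (nat_lit 188452) (nat_lit 23) (.e (nat_lit 204809) (nat_lit 9) .nil)))) .nil))) (.nd (nat_lit 5) 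
(.lf (nat_lit 130899) (.g (nat_lit 3755) (.e (nat_lit 8342) (nat_lit 85) (.e (nat_lit 688177) (nat_lit 16) (.e (nat_lit 65571) (nat_lit 3) (.e (nat_lit 98359) (nat_lit 26) (.e (nat_lit 426211) (nat_lit 9) (.e (nat_lit 426125) (nat_lit 2) (.e (nat_lit 204544) (nat_lit 1) .nil))))))) (.g (nat_lit 6) .nil .nil))) 
(.lf (nat_lit 130931) (.g (nat_lit 1655) (.e (nat_lit 8356) (nat_lit 88) (.e (nat_lit 712755) (nat_lit 30) (.e (nat_lit 450588) (nat_lit 10) (.e (nat_lit 581376) (nat_lit 0) .nil)))) .nil)))) (.nd (nat_lit 4) (.nd (nat_lit 5) 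
(.lf (nat_lit 130891) (.g (nat_lit 1874) (.e (nat_lit 16128) (nat_lit 69) (.e (nat_lit 557109) (nat_lit 15) (.e (nat_lit 188452) (nat_lit 23) (.e (nat_lit 204846) (nat_lit 24) .nil)))) .nil)) 
(.lf (nat_lit 130923) (.g (nat_lit 2760) (.e (nat_lit 8353) (nat_lit 87) (.e (nat_lit 704738) (nat_lit 11) (.e (nat_lit 16425) (nat_lit 7) (.e (nat_lit 409649) (nat_lit 18) (.e (nat_lit 303140) (nat_lit 10) (.e (nat_lit 434269) (nat_lit 36) (.e (nat_lit 646912) (nat_lit 6) .nil))))))) (.g (nat_lit 4) .nil .nil)))) (.nd (nat_lit 5) 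
(.lf (nat_lit 130907) (.g (nat_lit 1435) (.e (nat_lit 8347) (nat_lit 87) (.e (nat_lit 704598) (nat_lit 6) (.e (nat_lit 188450) (nat_lit 23) (.e (nat_lit 204817) (nat_lit 17) (.e (nat_lit 7936) (nat_lit 153) .nil))))) .nil)) 
(.lf (nat_lit 130939) (.g (nat_lit 692) (.e (nat_lit 8358) (nat_lit 88) (.e (nat_lit 712752) (nat_lit 29) (.e (nat_lit 442421) (nat_lit 21) .nil))) .nil))))) (.nd (nat_lit 3) (.nd (nat_lit 4) (.nd (nat_lit 5) 
(.lf (nat_lit 130887) (.g (nat_lit 2130) (.e (nat_lit 8326) (nat_lit 69) (.e (nat_lit 557109) (nat_lit 15) (.e (nat_lit 188461) (nat_lit 26) (.e (nat_lit 253959) (nat_lit 9) (.e (nat_lit 186) (nat_lit 14) .nil))))) .nil)) 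
(.lf (nat_lit 130919) (.g (nat_lit 2168) (.e (nat_lit 8348) (nat_lit 87) (.e (nat_lit 712448) (nat_lit 11) (.e (nat_lit 16465) (nat_lit 13) (.e (nat_lit 483406) (nat_lit 26) (.e (nat_lit 385096) (nat_lit 49) (.e (nat_lit 778449) (nat_lit 10) .nil)))))) (.g (nat_lit 5) .nil .nil)))) (.nd (nat_lit 5) 
(.lf (nat_lit 130903) (.g (nat_lit 2053) (.e (nat_lit 8342) (nat_lit 85) (.e (nat_lit 688177) (nat_lit 16) (.e (nat_lit 65586) (nat_lit 7) (.e (nat_lit 319531) (nat_lit 16) (.e (nat_lit 286748) (nat_lit 9) (.e (nat_lit 336295) (nat_lit 15) (.e (nat_lit 2443) (nat_lit 157) (.e (nat_lit 6919) (nat_lit 371) (.e (nat_lit 2544) (nat_lit 158) .nil))))))))) (.g (nat_lit 4) .nil .nil))) 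
(.lf (nat_lit 130935) (.g (nat_lit 2120) (.e (nat_lit 8356) (nat_lit 88) (.e (nat_lit 712755) (nat_lit 30) (.e (nat_lit 450588) (nat_lit 10) (.e (nat_lit 573467) (nat_lit 10) (.e (nat_lit 8283) (nat_lit 49) .nil))))) .nil)))) (.nd (nat_lit 4) (.nd (nat_lit 5) 
(.lf (nat_lit 130895) (.g (nat_lit 2161) (.e (nat_lit 8342) (nat_lit 85) (.e (nat_lit 688170) (nat_lit 15) (.e (nat_lit 57480) (nat_lit 28) (.e (nat_lit 557105) (nat_lit 14) (.e (nat_lit 180245) (nat_lit 5) (.e (nat_lit 532515) (nat_lit 3) (.e (nat_lit 114716) (nat_lit 22) (.e (nat_lit 90153) (nat_lit 10) .nil)))))))) (.g (nat_lit 4) .nil .nil))) 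
(.lf (nat_lit 130927) (.g (nat_lit 1217) (.e (nat_lit 8356) (nat_lit 88) (.e (nat_lit 712755) (nat_lit 30) (.e (nat_lit 450562) (nat_lit 0) (.e (nat_lit 5539) (nat_lit 306) .nil)))) .nil))) (.nd (nat_lit 5) 
(.lf (nat_lit 130911) (.g (nat_lit 1700) (.e (nat_lit 8348) (nat_lit 87) (.e (nat_lit 704598) (nat_lit 6) (.e (nat_lit 188452) (nat_lit 23) (.e (nat_lit 204809) (nat_lit 9) .nil)))) .nil)) 
(.lf (nat_lit 130943) (.g (nat_lit 1322) (.e (nat_lit 8358) (nat_lit 88) (.e (nat_lit 712753) (nat_lit 30) (.e (nat_lit 450579) (nat_lit 5) (.e (nat_lit 532484) (nat_lit 0) (.e (nat_lit 7936) (nat_lit 153) .nil))))) .nil))))))))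

noncomputable def tv1747 : DT := (.nd (nat_lit 0) (.nd (nat_lit 1) (.nd (nat_lit 2) (.nd (nat_lit 3) (.nd (nat_lit 4) (.nd (nat_lit 5) (.nd (nat_lit 6) 
(.lf (nat_lit 130944) (.g (nat_lit 1330) (.e (nat_lit 8358) (nat_lit 88) (.e (nat_lit 712753) (nat_lit 30) (.e (nat_lit 450579) (nat_lit 5) (.e (nat_lit 532484) (nat_lit 0) (.e (nat_lit 7936) (nat_lit 153) (.e (nat_lit 794680) (nat_lit 24) (.e (nat_lit 213029) (nat_lit 10) .nil))))))) (.g (nat_lit 4) .nil .nil))) 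
(.lf (nat_lit 131008) (.g (nat_lit 1143) (.e (nat_lit 8362) (nat_lit 89) (.e (nat_lit 720956) (nat_lit 25) (.e (nat_lit 114716) (nat_lit 22) (.e (nat_lit 90181) (nat_lit 16) (.e (nat_lit 237312) (nat_lit 192) .nil))))) .nil))) (.nd (nat_lit 6) 
(.lf (nat_lit 130976) (.g (nat_lit 1937) (.e (nat_lit 8360) (nat_lit 88) (.e (nat_lit 712752) (nat_lit 29) (.e (nat_lit 442427) (nat_lit 23) (.e (nat_lit 204821) (nat_lit 17) (.e (nat_lit 7936) (nat_lit 155) .nil))))) .nil)) 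
(.lf (nat_lit 131040) (.g (nat_lit 2421) (.e (nat_lit 8388) (nat_lit 114) (.e (nat_lit 1220) (nat_lit 90) (.e (nat_lit 81956) (nat_lit 23) (.e (nat_lit 98356) (nat_lit 26) .nil)))) .nil)))) (.nd (nat_lit 5) (.nd (nat_lit 6) 
(.lf (nat_lit 130960) (.g (nat_lit 1830) (.e (nat_lit 8359) (nat_lit 88) (.e (nat_lit 712755) (nat_lit 30) (.e (nat_lit 450588) (nat_lit 10) (.e (nat_lit 581376) (nat_lit 0) .nil)))) .nil)) 
(.lf (nat_lit 131024) (.g (nat_lit 2833) (.e (nat_lit 8379) (nat_lit 102) (.e (nat_lit 1221) (nat_lit 90) (.e (nat_lit 81956) (nat_lit 23) (.e (nat_lit 98350) (nat_lit 24) (.e (nat_lit 409616) (nat_lit 10) (.e (nat_lit 4979) (nat_lit 287) (.e (nat_lit 2540) (nat_lit 158) .nil))))))) (.g (nat_lit 5) .nil .nil)))) (.nd (nat_lit 6) 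
(.lf (nat_lit 130992) (.g (nat_lit 2118) (.e (nat_lit 8360) (nat_lit 88) (.e (nat_lit 712755) (nat_lit 30) (.e (nat_lit 450588) (nat_lit 10) (.e (nat_lit 573442) (nat_lit 0) .nil)))) .nil)) 
(.lf (nat_lit 131056) (.g (nat_lit 2573) (.e (nat_lit 8429) (nat_lit 138) (.e (nat_lit 1201) (nat_lit 88) (.e (nat_lit 65630) (nat_lit 14) (.e (nat_lit 401459) (nat_lit 13) (.e (nat_lit 483344) (nat_lit 17) .nil))))) .nil))))) (.nd (nat_lit 4) (.nd (nat_lit 5) (.nd (nat_lit 6) 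
(.lf (nat_lit 130952) (.g (nat_lit 785) (.e (nat_lit 8359) (nat_lit 88) (.e (nat_lit 712752) (nat_lit 29) (.e (nat_lit 442425) (nat_lit 23) .nil))) .nil)) 
(.lf (nat_lit 131016) (.g (nat_lit 1419) (.e (nat_lit 8363) (nat_lit 89) (.e (nat_lit 720956) (nat_lit 25) (.e (nat_lit 114716) (nat_lit 22) (.e (nat_lit 90181) (nat_lit 16) (.e (nat_lit 237312) (nat_lit 192) (.e (nat_lit 73776) (nat_lit 26) (.e (nat_lit 778454) (nat_lit 10) .nil))))))) (.g (nat_lit 6) .nil .nil)))) (.nd (nat_lit 6) 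
(.lf (nat_lit 130984) (.g (nat_lit 1533) (.e (nat_lit 8360) (nat_lit 88) (.e (nat_lit 712755) (nat_lit 30) (.e (nat_lit 450563) (nat_lit 0) (.e (nat_lit 5539) (nat_lit 306) .nil)))) .nil)) 
(.lf (nat_lit 131048) (.g (nat_lit 896) (.e (nat_lit 8405) (nat_lit 123) (.e (nat_lit 122919) (nat_lit 15) (.e (nat_lit 360468) (nat_lit 3) .nil))) .nil)))) (.nd (nat_lit 5) (.nd (nat_lit 6) 
(.lf (nat_lit 130968) (.g (nat_lit 702) (.e (nat_lit 8360) (nat_lit 88) (.e (nat_lit 712752) (nat_lit 29) (.e (nat_lit 442421) (nat_lit 21) .nil))) .nil)) 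
(.lf (nat_lit 131032) (.g (nat_lit 2671) (.e (nat_lit 8386) (nat_lit 114) (.e (nat_lit 1201) (nat_lit 88) (.e (nat_lit 65610) (nat_lit 10) (.e (nat_lit 344117) (nat_lit 21) (.e (nat_lit 516151) (nat_lit 9) .nil))))) .nil))) (.nd (nat_lit 6) 
(.lf (nat_lit 131000) (.g (nat_lit 2312) (.e (nat_lit 8360) (nat_lit 88) (.e (nat_lit 712755) (nat_lit 30) (.e (nat_lit 450588) (nat_lit 10) (.e (nat_lit 573449) (nat_lit 9) (.e (nat_lit 189) (nat_lit 14) .nil))))) .nil)) 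
(.lf (nat_lit 131064) (.g (nat_lit 3055) (.e (nat_lit 8430) (nat_lit 138) (.e (nat_lit 1201) (nat_lit 88) (.e (nat_lit 65628) (nat_lit 14) (.e (nat_lit 401459) (nat_lit 13) (.e (nat_lit 483344) (nat_lit 17) (.e (nat_lit 6081) (nat_lit 332) (.e (nat_lit 2548) (nat_lit 158) .nil))))))) (.g (nat_lit 5) .nil .nil))))))) (.nd (nat_lit 3) (.nd (nat_lit 4) (.nd (nat_lit 5) (.nd (nat_lit 6) 
(.lf (nat_lit 130948) (.g (nat_lit 2110) (.e (nat_lit 8358) (nat_lit 88) (.e (nat_lit 712755) (nat_lit 30) (.e (nat_lit 450588) (nat_lit 10) (.e (nat_lit 573448) (nat_lit 9) .nil)))) .nil)) 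
(.lf (nat_lit 131012) (.g (nat_lit 738) (.e (nat_lit 8363) (nat_lit 89) (.e (nat_lit 720955) (nat_lit 25) (.e (nat_lit 114716) (nat_lit 22) (.e (nat_lit 90181) (nat_lit 16) (.e (nat_lit 237312) (nat_lit 192) (.e (nat_lit 73775) (nat_lit 26) (.e (nat_lit 778455) (nat_lit 10) .nil))))))) (.g (nat_lit 4) .nil .nil)))) (.nd (nat_lit 6) 
(.lf (nat_lit 130980) (.g (nat_lit 1175) (.e (nat_lit 8360) (nat_lit 88) (.e (nat_lit 712753) (nat_lit 30) (.e (nat_lit 450580) (nat_lit 5) (.e (nat_lit 532484) (nat_lit 0) .nil)))) .nil)) 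
(.lf (nat_lit 131044) (.g (nat_lit 1670) (.e (nat_lit 8394) (nat_lit 116) (.e (nat_lit 57368) (nat_lit 1) (.e (nat_lit 57854) (nat_lit 252) (.e (nat_lit 57445) (nat_lit 19) (.e (nat_lit 393229) (nat_lit 9) .nil))))) .nil)))) (.nd (nat_lit 5) (.nd (nat_lit 6) 
(.lf (nat_lit 130964) (.g (nat_lit 2461) (.e (nat_lit 8359) (nat_lit 88) (.e (nat_lit 712755) (nat_lit 30) (.e (nat_lit 450588) (nat_lit 10) (.e (nat_lit 573454) (nat_lit 9) .nil)))) .nil)) 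
(.lf (nat_lit 131028) (.g (nat_lit 1947) (.e (nat_lit 8379) (nat_lit 102) (.e (nat_lit 1221) (nat_lit 90) (.e (nat_lit 81956) (nat_lit 23) (.e (nat_lit 98350) (nat_lit 24) (.e (nat_lit 409617) (nat_lit 10) (.e (nat_lit 4934) (nat_lit 287) (.e (nat_lit 2545) (nat_lit 158) .nil))))))) (.g (nat_lit 4) .nil .nil)))) (.nd (nat_lit 6) 
(.lf (nat_lit 130996) (.g (nat_lit 2458) (.e (nat_lit 8360) (nat_lit 88) (.e (nat_lit 712755) (nat_lit 30) (.e (nat_lit 450588) (nat_lit 10) (.e (nat_lit 573448) (nat_lit 9) (.e (nat_lit 186) (nat_lit 14) .nil))))) .nil)) 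
(.lf (nat_lit 131060) (.g (nat_lit 736) (.e (nat_lit 8430) (nat_lit 138) (.e (nat_lit 1183) (nat_lit 87) (.e (nat_lit 57714) (nat_lit 176) (.e (nat_lit 1347) (nat_lit 102) .nil)))) .nil))))) (.nd (nat_lit 4) (.nd (nat_lit 5) (.nd (nat_lit 6) 
(.lf (nat_lit 130956) (.g (nat_lit 446) (.e (nat_lit 8359) (nat_lit 88) (.e (nat_lit 712753) (nat_lit 30) (.e (nat_lit 450586) (nat_lit 10) .nil))) .nil)) 
(.lf (nat_lit 131020) (.g (nat_lit 1703) (.e (nat_lit 8379) (nat_lit 102) (.e (nat_lit 1220) (nat_lit 90) (.e (nat_lit 81956) (nat_lit 23) (.e (nat_lit 98350) (nat_lit 24) (.e (nat_lit 409616) (nat_lit 10) .nil))))) .nil))) (.nd (nat_lit 6) 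
(.lf (nat_lit 130988) (.g (nat_lit 2938) (.e (nat_lit 8360) (nat_lit 88) (.e (nat_lit 712755) (nat_lit 30) (.e (nat_lit 450587) (nat_lit 10) (.e (nat_lit 573454) (nat_lit 9) (.e (nat_lit 184) (nat_lit 14) .nil))))) .nil)) 
(.lf (nat_lit 131052) (.g (nat_lit 2607) (.e (nat_lit 8424) (nat_lit 134) (.e (nat_lit 57406) (nat_lit 12) (.e (nat_lit 336326) (nat_lit 18) (.e (nat_lit 204869) (nat_lit 29) (.e (nat_lit 368384) (nat_lit 26) .nil))))) .nil)))) (.nd (nat_lit 5) (.nd (nat_lit 6) 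
(.lf (nat_lit 130972) (.g (nat_lit 655) (.e (nat_lit 8360) (nat_lit 88) (.e (nat_lit 712752) (nat_lit 29) (.e (nat_lit 442424) (nat_lit 22) .nil))) .nil)) 
(.lf (nat_lit 131036) (.g (nat_lit 1591) (.e (nat_lit 8388) (nat_lit 114) (.e (nat_lit 1220) (nat_lit 90) (.e (nat_lit 81938) (nat_lit 20) (.e (nat_lit 2389) (nat_lit 156) .nil)))) .nil))) (.nd (nat_lit 6) 
(.lf (nat_lit 131004) (.g (nat_lit 3285) (.e (nat_lit 8360) (nat_lit 88) (.e (nat_lit 712755) (nat_lit 30) (.e (nat_lit 450588) (nat_lit 10) (.e (nat_lit 573474) (nat_lit 12) (.e (nat_lit 57516) (nat_lit 42) .nil))))) .nil)) 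
(.lf (nat_lit 131068) (.g (nat_lit 3444) (.e (nat_lit 8430) (nat_lit 138) (.e (nat_lit 1201) (nat_lit 88) (.e (nat_lit 65630) (nat_lit 14) (.e (nat_lit 401457) (nat_lit 13) (.e (nat_lit 483346) (nat_lit 17) (.e (nat_lit 6203) (nat_lit 332) (.e (nat_lit 2540) (nat_lit 158) .nil))))))) (.g (nat_lit 4) .nil .nil)))))))) 
(.nd (nat_lit 2) (.nd (nat_lit 3) (.nd (nat_lit 4) (.nd (nat_lit 5) (.nd (nat_lit 6) 
(.lf (nat_lit 130946) (.g (nat_lit 1545) (.e (nat_lit 8358) (nat_lit 88) (.e (nat_lit 712755) (nat_lit 30) (.e (nat_lit 450563) (nat_lit 0) (.e (nat_lit 5539) (nat_lit 306) .nil)))) .nil)) 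
(.lf (nat_lit 131010) (.g (nat_lit 564) (.e (nat_lit 8363) (nat_lit 89) (.e (nat_lit 720955) (nat_lit 25) (.e (nat_lit 114716) (nat_lit 22) (.e (nat_lit 90129) (nat_lit 9) .nil)))) .nil))) (.nd (nat_lit 6) 
(.lf (nat_lit 130978) (.g (nat_lit 424) (.e (nat_lit 8360) (nat_lit 88) (.e (nat_lit 712753) (nat_lit 30) (.e (nat_lit 450579) (nat_lit 5) .nil))) .nil)) 
(.lf (nat_lit 131042) (.g (nat_lit 623) (.e (nat_lit 8390) (nat_lit 114) (.e (nat_lit 1221) (nat_lit 90) (.e (nat_lit 81956) (nat_lit 23) .nil))) .nil)))) (.nd (nat_lit 5) (.nd (nat_lit 6) 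
(.lf (nat_lit 130962) (.g (nat_lit 1544) (.e (nat_lit 8359) (nat_lit 88) (.e (nat_lit 712755) (nat_lit 30) (.e (nat_lit 450588) (nat_lit 10) (.e (nat_lit 573449) (nat_lit 9) .nil)))) .nil)) 
(.lf (nat_lit 131026) (.g (nat_lit 1836) (.e (nat_lit 8379) (nat_lit 102) (.e (nat_lit 1221) (nat_lit 90) (.e (nat_lit 81956) (nat_lit 23) (.e (nat_lit 98350) (nat_lit 24) (.e (nat_lit 409617) (nat_lit 10) .nil))))) .nil))) (.nd (nat_lit 6) 
(.lf (nat_lit 130994) (.g (nat_lit 1788) (.e (nat_lit 8360) (nat_lit 88) (.e (nat_lit 712755) (nat_lit 30) (.e (nat_lit 450588) (nat_lit 10) (.e (nat_lit 581376) (nat_lit 5) .nil)))) .nil)) 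
(.lf (nat_lit 131058) (.g (nat_lit 2728) (.e (nat_lit 8429) (nat_lit 138) (.e (nat_lit 1201) (nat_lit 88) (.e (nat_lit 65630) (nat_lit 14) (.e (nat_lit 401459) (nat_lit 13) (.e (nat_lit 483350) (nat_lit 17) .nil))))) .nil))))) (.nd (nat_lit 4) (.nd (nat_lit 5) (.nd (nat_lit 6) 
(.lf (nat_lit 130954) (.g (nat_lit 2331) (.e (nat_lit 8359) (nat_lit 88) (.e (nat_lit 712752) (nat_lit 29) (.e (nat_lit 442427) (nat_lit 23) (.e (nat_lit 204817) (nat_lit 17) (.e (nat_lit 7936) (nat_lit 153) (.e (nat_lit 794679) (nat_lit 24) (.e (nat_lit 213029) (nat_lit 10) .nil))))))) (.g (nat_lit 4) .nil .nil))) 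
(.lf (nat_lit 131018) (.g (nat_lit 1887) (.e (nat_lit 8376) (nat_lit 96) (.e (nat_lit 778362) (nat_lit 9) (.e (nat_lit 232) (nat_lit 21) (.e (nat_lit 336060) (nat_lit 7) (.e (nat_lit 319534) (nat_lit 16) .nil))))) .nil))) (.nd (nat_lit 6) 
(.lf (nat_lit 130986) (.g (nat_lit 736) (.e (nat_lit 8360) (nat_lit 88) (.e (nat_lit 712755) (nat_lit 30) (.e (nat_lit 450580) (nat_lit 5) .nil))) .nil)) 
(.lf (nat_lit 131050) (.g (nat_lit 5122) (.e (nat_lit 8423) (nat_lit 134) (.e (nat_lit 57377) (nat_lit 3) (.e (nat_lit 98317) (nat_lit 9) (.e (nat_lit 336215) (nat_lit 13) .nil)))) .nil)))) (.nd (nat_lit 5) (.nd (nat_lit 6) 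
(.lf (nat_lit 130970) (.g (nat_lit 1577) (.e (nat_lit 8360) (nat_lit 88) (.e (nat_lit 712752) (nat_lit 29) (.e (nat_lit 442421) (nat_lit 21) (.e (nat_lit 164347) (nat_lit 240) .nil)))) .nil)) 
(.lf (nat_lit 131034) (.g (nat_lit 370) (.e (nat_lit 8388) (nat_lit 114) (.e (nat_lit 1219) (nat_lit 90) (.e (nat_lit 89856) (nat_lit 19) .nil))) .nil))) (.nd (nat_lit 6) 
(.lf (nat_lit 131002) (.g (nat_lit 2389) (.e (nat_lit 8360) (nat_lit 88) (.e (nat_lit 712755) (nat_lit 30) (.e (nat_lit 450588) (nat_lit 10) (.e (nat_lit 573454) (nat_lit 9) .nil)))) .nil)) 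
(.lf (nat_lit 131066) (.g (nat_lit 3281) (.e (nat_lit 8430) (nat_lit 138) (.e (nat_lit 1201) (nat_lit 88) (.e (nat_lit 65629) (nat_lit 14) (.e (nat_lit 401459) (nat_lit 13) (.e (nat_lit 483375) (nat_lit 22) .nil))))) .nil)))))) (.nd (nat_lit 3) (.nd (nat_lit 4) (.nd (nat_lit 5) (.nd (nat_lit 6) 
(.lf (nat_lit 130950) (.g (nat_lit 2322) (.e (nat_lit 8358) (nat_lit 88) (.e (nat_lit 712755) (nat_lit 30) (.e (nat_lit 450588) (nat_lit 10) (.e (nat_lit 573449) (nat_lit 9) (.e (nat_lit 187) (nat_lit 14) .nil))))) .nil)) 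
(.lf (nat_lit 131014) (.g (nat_lit 834) (.e (nat_lit 8363) (nat_lit 89) (.e (nat_lit 720956) (nat_lit 25) (.e (nat_lit 114715) (nat_lit 22) (.e (nat_lit 90165) (nat_lit 12) (.e (nat_lit 171776) (nat_lit 192) .nil))))) .nil))) (.nd (nat_lit 6) 
(.lf (nat_lit 130982) (.g (nat_lit 1388) (.e (nat_lit 8360) (nat_lit 88) (.e (nat_lit 712755) (nat_lit 30) (.e (nat_lit 450562) (nat_lit 0) (.e (nat_lit 4284) (nat_lit 253) .nil)))) .nil)) 
(.lf (nat_lit 131046) (.g (nat_lit 620) (.e (nat_lit 8405) (nat_lit 123) (.e (nat_lit 122917) (nat_lit 15) (.e (nat_lit 360466) (nat_lit 3) .nil))) .nil)))) (.nd (nat_lit 5) (.nd (nat_lit 6) 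
(.lf (nat_lit 130966) (.g (nat_lit 589) (.e (nat_lit 8360) (nat_lit 88) (.e (nat_lit 712750) (nat_lit 29) (.e (nat_lit 442427) (nat_lit 23) .nil))) .nil)) 
(.lf (nat_lit 131030) (.g (nat_lit 495) (.e (nat_lit 16128) (nat_lit 105) (.e (nat_lit 122919) (nat_lit 15) (.e (nat_lit 360475) (nat_lit 8) .nil))) .nil))) (.nd (nat_lit 6) 
(.lf (nat_lit 130998) (.g (nat_lit 2291) (.e (nat_lit 8360) (nat_lit 88) (.e (nat_lit 712755) (nat_lit 30) (.e (nat_lit 450588) (nat_lit 10) (.e (nat_lit 573449) (nat_lit 9) (.e (nat_lit 187) (nat_lit 14) .nil))))) .nil)) 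
(.lf (nat_lit 131062) (.g (nat_lit 1213) (.e (nat_lit 8430) (nat_lit 138) (.e (nat_lit 1201) (nat_lit 88) (.e (nat_lit 65628) (nat_lit 14) (.e (nat_lit 401437) (nat_lit 9) .nil)))) .nil))))) (.nd (nat_lit 4) (.nd (nat_lit 5) (.nd (nat_lit 6) 
(.lf (nat_lit 130958) (.g (nat_lit 574) (.e (nat_lit 8359) (nat_lit 88) (.e (nat_lit 712755) (nat_lit 30) (.e (nat_lit 450588) (nat_lit 10) .nil))) .nil)) 
(.lf (nat_lit 131022) (.g (nat_lit 3431) (.e (nat_lit 8379) (nat_lit 102) (.e (nat_lit 1220) (nat_lit 90) (.e (nat_lit 81956) (nat_lit 23) (.e (nat_lit 98350) (nat_lit 24) (.e (nat_lit 409636) (nat_lit 14) .nil))))) .nil))) (.nd (nat_lit 6) 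
(.lf (nat_lit 130990) (.g (nat_lit 509) (.e (nat_lit 8360) (nat_lit 88) (.e (nat_lit 712755) (nat_lit 30) (.e (nat_lit 450588) (nat_lit 10) .nil))) .nil)) 
(.lf (nat_lit 131054) (.g (nat_lit 3220) (.e (nat_lit 8429) (nat_lit 138) (.e (nat_lit 1195) (nat_lit 88) (.e (nat_lit 65629) (nat_lit 14) (.e (nat_lit 401459) (nat_lit 13) (.e (nat_lit 483350) (nat_lit 17) .nil))))) .nil)))) (.nd (nat_lit 5) (.nd (nat_lit 6) 
(.lf (nat_lit 130974) (.g (nat_lit 2196) (.e (nat_lit 8360) (nat_lit 88) (.e (nat_lit 712752) (nat_lit 29) (.e (nat_lit 442427) (nat_lit 23) (.e (nat_lit 204817) (nat_lit 17) (.e (nat_lit 7936) (nat_lit 153) .nil))))) .nil)) 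
(.lf (nat_lit 131038) (.g (nat_lit 1410) (.e (nat_lit 8388) (nat_lit 114) (.e (nat_lit 1220) (nat_lit 90) (.e (nat_lit 81938) (nat_lit 20) (.e (nat_lit 2391) (nat_lit 156) .nil)))) .nil))) (.nd (nat_lit 6) 
(.lf (nat_lit 131006) (.g (nat_lit 860) (.e (nat_lit 8362) (nat_lit 89) (.e (nat_lit 720956) (nat_lit 25) (.e (nat_lit 114715) (nat_lit 22) (.e (nat_lit 90165) (nat_lit 12) (.e (nat_lit 171776) (nat_lit 192) .nil))))) .nil)) 
(.lf (nat_lit 131070) (.g (nat_lit 2991) (.e (nat_lit 8430) (nat_lit 138) (.e (nat_lit 1201) (nat_lit 88) (.e (nat_lit 65630) (nat_lit 14) (.e (nat_lit 401457) (nat_lit 13) (.e (nat_lit 483377) (nat_lit 22) .nil))))) .nil)))))))) (.nd (nat_lit 1) (.nd (nat_lit 2) (.nd (nat_lit 3) (.nd (nat_lit 4) (.nd (nat_lit 5) (.nd (nat_lit 6) 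
(.lf (nat_lit 130945) (.g (nat_lit 665) (.e (nat_lit 8358) (nat_lit 88) (.e (nat_lit 712755) (nat_lit 30) (.e (nat_lit 450563) (nat_lit 0) .nil))) .nil)) 
(.lf (nat_lit 131009) (.g (nat_lit 2758) (.e (nat_lit 8363) (nat_lit 89) (.e (nat_lit 720943) (nat_lit 23) (.e (nat_lit 98317) (nat_lit 9) (.e (nat_lit 336204) (nat_lit 12) .nil)))) .nil))) (.nd (nat_lit 6) 
(.lf (nat_lit 130977) (.g (nat_lit 1956) (.e (nat_lit 8360) (nat_lit 88) (.e (nat_lit 712752) (nat_lit 29) (.e (nat_lit 442427) (nat_lit 23) (.e (nat_lit 204821) (nat_lit 17) (.e (nat_lit 7936) (nat_lit 155) (.e (nat_lit 811045) (nat_lit 14) (.e (nat_lit 40988) (nat_lit 10) .nil))))))) (.g (nat_lit 4) .nil .nil))) 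
(.lf (nat_lit 131041) (.g (nat_lit 2727) (.e (nat_lit 8388) (nat_lit 114) (.e (nat_lit 1220) (nat_lit 90) (.e (nat_lit 81956) (nat_lit 23) (.e (nat_lit 98384) (nat_lit 32) .nil)))) .nil)))) (.nd (nat_lit 5) (.nd (nat_lit 6) 
(.lf (nat_lit 130961) (.g (nat_lit 2151) (.e (nat_lit 8359) (nat_lit 88) (.e (nat_lit 712755) (nat_lit 30) (.e (nat_lit 450588) (nat_lit 10) (.e (nat_lit 573448) (nat_lit 9) .nil)))) .nil)) 
(.lf (nat_lit 131025) (.g (nat_lit 2775) (.e (nat_lit 8379) (nat_lit 102) (.e (nat_lit 1221) (nat_lit 90) (.e (nat_lit 81956) (nat_lit 23) (.e (nat_lit 98350) (nat_lit 24) (.e (nat_lit 409616) (nat_lit 10) (.e (nat_lit 4979) (nat_lit 287) (.e (nat_lit 2544) (nat_lit 158) .nil))))))) (.g (nat_lit 5) .nil .nil)))) (.nd (nat_lit 6) 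
(.lf (nat_lit 130993) (.g (nat_lit 1788) (.e (nat_lit 8360) (nat_lit 88) (.e (nat_lit 712755) (nat_lit 30) (.e (nat_lit 450588) (nat_lit 10) (.e (nat_lit 581376) (nat_lit 0) .nil)))) .nil)) 
(.lf (nat_lit 131057) (.g (nat_lit 2671) (.e (nat_lit 8429) (nat_lit 138) (.e (nat_lit 1201) (nat_lit 88) (.e (nat_lit 65630) (nat_lit 14) (.e (nat_lit 401459) (nat_lit 13) (.e (nat_lit 483344) (nat_lit 17) (.e (nat_lit 6152) (nat_lit 332) (.e (nat_lit 2546) (nat_lit 158) .nil))))))) (.g (nat_lit 4) .nil .nil)))))) (.nd (nat_lit 4) (.nd (nat_lit 5) (.nd (nat_lit 6) 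
(.lf (nat_lit 130953) (.g (nat_lit 1936) (.e (nat_lit 8359) (nat_lit 88) (.e (nat_lit 712752) (nat_lit 29) (.e (nat_lit 442427) (nat_lit 23) (.e (nat_lit 204817) (nat_lit 17) .nil)))) .nil)) 
(.lf (nat_lit 131017) (.g (nat_lit 2053) (.e (nat_lit 8375) (nat_lit 96) (.e (nat_lit 778322) (nat_lit 5) (.e (nat_lit 73781) (nat_lit 32) (.e (nat_lit 3090) (nat_lit 191) (.e (nat_lit 483350) (nat_lit 17) (.e (nat_lit 6702) (nat_lit 358) .nil)))))) (.g (nat_lit 5) .nil .nil)))) (.nd (nat_lit 6) 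
(.lf (nat_lit 130985) (.g (nat_lit 1728) (.e (nat_lit 8360) (nat_lit 88) (.e (nat_lit 712755) (nat_lit 30) (.e (nat_lit 450579) (nat_lit 5) (.e (nat_lit 532484) (nat_lit 0) (.e (nat_lit 7936) (nat_lit 153) .nil))))) .nil)) 
(.lf (nat_lit 131049) (.g (nat_lit 2597) (.e (nat_lit 16128) (nat_lit 128) (.e (nat_lit 57373) (nat_lit 2) (.e (nat_lit 90170) (nat_lit 13) (.e (nat_lit 172106) (nat_lit 10) (.e (nat_lit 434231) (nat_lit 23) .nil))))) .nil)))) (.nd (nat_lit 5) (.nd (nat_lit 6) 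
(.lf (nat_lit 130969) (.g (nat_lit 1623) (.e (nat_lit 8360) (nat_lit 88) (.e (nat_lit 712752) (nat_lit 29) (.e (nat_lit 442421) (nat_lit 21) (.e (nat_lit 164346) (nat_lit 240) .nil)))) .nil)) 
(.lf (nat_lit 131033) (.g (nat_lit 2953) (.e (nat_lit 8386) (nat_lit 114) (.e (nat_lit 1201) (nat_lit 88) (.e (nat_lit 65610) (nat_lit 10) (.e (nat_lit 344117) (nat_lit 21) (.e (nat_lit 516179) (nat_lit 15) .nil))))) .nil))) (.nd (nat_lit 6) 
(.lf (nat_lit 131001) (.g (nat_lit 1565) (.e (nat_lit 8360) (nat_lit 88) (.e (nat_lit 712755) (nat_lit 30) (.e (nat_lit 450588) (nat_lit 10) (.e (nat_lit 573452) (nat_lit 9) .nil)))) .nil)) 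
(.lf (nat_lit 131065) (.g (nat_lit 2108) (.e (nat_lit 8430) (nat_lit 138) (.e (nat_lit 1201) (nat_lit 88) (.e (nat_lit 65628) (nat_lit 14) (.e (nat_lit 401459) (nat_lit 13) (.e (nat_lit 483344) (nat_lit 17) (.e (nat_lit 6155) (nat_lit 332) (.e (nat_lit 2540) (nat_lit 158) .nil))))))) (.g (nat_lit 4) .nil .nil))))))) (.nd (nat_lit 3) (.nd (nat_lit 4) (.nd (nat_lit 5) (.nd (nat_lit 6) 
(.lf (nat_lit 130949) (.g (nat_lit 1503) (.e (nat_lit 8358) (nat_lit 88) (.e (nat_lit 712755) (nat_lit 30) (.e (nat_lit 450588) (nat_lit 10) (.e (nat_lit 573449) (nat_lit 9) .nil)))) .nil)) 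
(.lf (nat_lit 131013) (.g (nat_lit 812) (.e (nat_lit 8363) (nat_lit 89) (.e (nat_lit 720956) (nat_lit 25) (.e (nat_lit 114711) (nat_lit 21) (.e (nat_lit 57872) (nat_lit 264) .nil)))) .nil))) (.nd (nat_lit 6) 
(.lf (nat_lit 130981) (.g (nat_lit 1330) (.e (nat_lit 8360) (nat_lit 88) (.e (nat_lit 712753) (nat_lit 30) (.e (nat_lit 450586) (nat_lit 10) (.e (nat_lit 581376) (nat_lit 0) .nil)))) .nil)) 
(.lf (nat_lit 131045) (.g (nat_lit 2277) (.e (nat_lit 8395) (nat_lit 117) (.e (nat_lit 122916) (nat_lit 14) (.e (nat_lit 352315) (nat_lit 23) (.e (nat_lit 98367) (nat_lit 27) (.e (nat_lit 434275) (nat_lit 39) (.e (nat_lit 663589) (nat_lit 14) (.e (nat_lit 2543) (nat_lit 158) .nil))))))) (.g (nat_lit 4) .nil .nil))))) (.nd (nat_lit 5) (.nd (nat_lit 6) 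
(.lf (nat_lit 130965) (.g (nat_lit 3357) (.e (nat_lit 8359) (nat_lit 88) (.e (nat_lit 712755) (nat_lit 30) (.e (nat_lit 450588) (nat_lit 10) (.e (nat_lit 573474) (nat_lit 12) (.e (nat_lit 57516) (nat_lit 42) .nil))))) .nil)) 
(.lf (nat_lit 131029) (.g (nat_lit 3247) (.e (nat_lit 8379) (nat_lit 102) (.e (nat_lit 1221) (nat_lit 90) (.e (nat_lit 81956) (nat_lit 23) (.e (nat_lit 98350) (nat_lit 24) (.e (nat_lit 409636) (nat_lit 14) .nil))))) .nil))) (.nd (nat_lit 6) 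
(.lf (nat_lit 130997) (.g (nat_lit 2312) (.e (nat_lit 8360) (nat_lit 88) (.e (nat_lit 712755) (nat_lit 30) (.e (nat_lit 450588) (nat_lit 10) (.e (nat_lit 573449) (nat_lit 9) (.e (nat_lit 185) (nat_lit 14) .nil))))) .nil)) 
(.lf (nat_lit 131061) (.g (nat_lit 568) (.e (nat_lit 8430) (nat_lit 138) (.e (nat_lit 1201) (nat_lit 88) (.e (nat_lit 65583) (nat_lit 7) .nil))) .nil))))) (.nd (nat_lit 4) (.nd (nat_lit 5) (.nd (nat_lit 6) 
(.lf (nat_lit 130957) (.g (nat_lit 1335) (.e (nat_lit 8359) (nat_lit 88) (.e (nat_lit 712753) (nat_lit 30) (.e (nat_lit 450586) (nat_lit 10) (.e (nat_lit 581376) (nat_lit 0) .nil)))) .nil)) 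
(.lf (nat_lit 131021) (.g (nat_lit 2020) (.e (nat_lit 8379) (nat_lit 102) (.e (nat_lit 1220) (nat_lit 90) (.e (nat_lit 81956) (nat_lit 23) (.e (nat_lit 98350) (nat_lit 24) (.e (nat_lit 409617) (nat_lit 10) .nil))))) .nil))) (.nd (nat_lit 6) 
(.lf (nat_lit 130989) (.g (nat_lit 2926) (.e (nat_lit 8360) (nat_lit 88) (.e (nat_lit 712755) (nat_lit 30) (.e (nat_lit 450587) (nat_lit 10) (.e (nat_lit 573454) (nat_lit 9) (.e (nat_lit 186) (nat_lit 14) .nil))))) .nil)) 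
(.lf (nat_lit 131053) (.g (nat_lit 2245) (.e (nat_lit 8429) (nat_lit 138) (.e (nat_lit 1194) (nat_lit 88) (.e (nat_lit 65628) (nat_lit 14) (.e (nat_lit 401459) (nat_lit 13) (.e (nat_lit 483350) (nat_lit 17) .nil))))) .nil)))) (.nd (nat_lit 5) (.nd (nat_lit 6) 
(.lf (nat_lit 130973) (.g (nat_lit 667) (.e (nat_lit 8360) (nat_lit 88) (.e (nat_lit 712752) (nat_lit 29) (.e (nat_lit 442427) (nat_lit 23) .nil))) .nil)) 
(.lf (nat_lit 131037) (.g (nat_lit 1424) (.e (nat_lit 8388) (nat_lit 114) (.e (nat_lit 1220) (nat_lit 90) (.e (nat_lit 81938) (nat_lit 20) (.e (nat_lit 2390) (nat_lit 156) .nil)))) .nil))) (.nd (nat_lit 6) 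
(.lf (nat_lit 131005) (.g (nat_lit 1092) (.e (nat_lit 8361) (nat_lit 89) (.e (nat_lit 720956) (nat_lit 25) (.e (nat_lit 114716) (nat_lit 22) (.e (nat_lit 90181) (nat_lit 16) (.e (nat_lit 237312) (nat_lit 192) .nil))))) .nil)) 
(.lf (nat_lit 131069) (.g (nat_lit 3139) (.e (nat_lit 8430) (nat_lit 138) (.e (nat_lit 1201) (nat_lit 88) (.e (nat_lit 65630) (nat_lit 14) (.e (nat_lit 401457) (nat_lit 13) (.e (nat_lit 483346) (nat_lit 17) (.e (nat_lit 6203) (nat_lit 332) (.e (nat_lit 2543) (nat_lit 158) .nil))))))) (.g (nat_lit 4) .nil .nil)))))))) 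
(.nd (nat_lit 2) (.nd (nat_lit 3) (.nd (nat_lit 4) (.nd (nat_lit 5) (.nd (nat_lit 6) 
(.lf (nat_lit 130947) (.g (nat_lit 1790) (.e (nat_lit 8358) (nat_lit 88) (.e (nat_lit 712755) (nat_lit 30) (.e (nat_lit 450588) (nat_lit 10) (.e (nat_lit 581376) (nat_lit 0) .nil)))) .nil)) 
(.lf (nat_lit 131011) (.g (nat_lit 694) (.e (nat_lit 8363) (nat_lit 89) (.e (nat_lit 720955) (nat_lit 25) (.e (nat_lit 114716) (nat_lit 22) (.e (nat_lit 90181) (nat_lit 16) (.e (nat_lit 237312) (nat_lit 192) .nil))))) .nil))) (.nd (nat_lit 6) 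
(.lf (nat_lit 130979) (.g (nat_lit 1347) (.e (nat_lit 8360) (nat_lit 88) (.e (nat_lit 712753) (nat_lit 30) (.e (nat_lit 450579) (nat_lit 5) (.e (nat_lit 532484) (nat_lit 0) (.e (nat_lit 7936) (nat_lit 153) .nil))))) .nil)) 
(.lf (nat_lit 131043) (.g (nat_lit 2563) (.e (nat_lit 8390) (nat_lit 114) (.e (nat_lit 1221) (nat_lit 90) (.e (nat_lit 81956) (nat_lit 23) (.e (nat_lit 98384) (nat_lit 32) .nil)))) .nil)))) (.nd (nat_lit 5) (.nd (nat_lit 6) 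
(.lf (nat_lit 130963) (.g (nat_lit 2388) (.e (nat_lit 8359) (nat_lit 88) (.e (nat_lit 712755) (nat_lit 30) (.e (nat_lit 450588) (nat_lit 10) (.e (nat_lit 573449) (nat_lit 9) (.e (nat_lit 187) (nat_lit 14) (.e (nat_lit 221218) (nat_lit 24) (.e (nat_lit 213029) (nat_lit 10) .nil))))))) (.g (nat_lit 4) .nil .nil))) 
(.lf (nat_lit 131027) (.g (nat_lit 1905) (.e (nat_lit 8379) (nat_lit 102) (.e (nat_lit 1221) (nat_lit 90) (.e (nat_lit 81956) (nat_lit 23) (.e (nat_lit 98350) (nat_lit 24) (.e (nat_lit 409617) (nat_lit 10) (.e (nat_lit 4934) (nat_lit 287) (.e (nat_lit 2543) (nat_lit 158) .nil))))))) (.g (nat_lit 4) .nil .nil)))) (.nd (nat_lit 6) 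
(.lf (nat_lit 130995) (.g (nat_lit 2079) (.e (nat_lit 8360) (nat_lit 88) (.e (nat_lit 712755) (nat_lit 30) (.e (nat_lit 450588) (nat_lit 10) (.e (nat_lit 573448) (nat_lit 9) .nil)))) .nil)) 
(.lf (nat_lit 131059) (.g (nat_lit 3333) (.e (nat_lit 8429) (nat_lit 138) (.e (nat_lit 1201) (nat_lit 88) (.e (nat_lit 65630) (nat_lit 14) (.e (nat_lit 401459) (nat_lit 13) (.e (nat_lit 483374) (nat_lit 22) .nil))))) .nil))))) (.nd (nat_lit 4) (.nd (nat_lit 5) (.nd (nat_lit 6) 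
(.lf (nat_lit 130955) (.g (nat_lit 1657) (.e (nat_lit 8359) (nat_lit 88) (.e (nat_lit 712752) (nat_lit 29) (.e (nat_lit 442427) (nat_lit 23) (.e (nat_lit 204821) (nat_lit 17) .nil)))) .nil)) 
(.lf (nat_lit 131019) (.g (nat_lit 305) (.e (nat_lit 8379) (nat_lit 102) (.e (nat_lit 1199) (nat_lit 88) (.e (nat_lit 65610) (nat_lit 10) .nil))) .nil))) (.nd (nat_lit 6) 
(.lf (nat_lit 130987) (.g (nat_lit 2054) (.e (nat_lit 8360) (nat_lit 88) (.e (nat_lit 712755) (nat_lit 30) (.e (nat_lit 450587) (nat_lit 10) (.e (nat_lit 573448) (nat_lit 9) .nil)))) .nil)) 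
(.lf (nat_lit 131051) (.g (nat_lit 5265) (.e (nat_lit 8424) (nat_lit 134) (.e (nat_lit 57377) (nat_lit 3) (.e (nat_lit 98317) (nat_lit 9) (.e (nat_lit 336215) (nat_lit 13) .nil)))) .nil)))) (.nd (nat_lit 5) (.nd (nat_lit 6) 
(.lf (nat_lit 130971) (.g (nat_lit 1904) (.e (nat_lit 8360) (nat_lit 88) (.e (nat_lit 712752) (nat_lit 29) (.e (nat_lit 442421) (nat_lit 21) (.e (nat_lit 164348) (nat_lit 240) .nil)))) .nil)) 
(.lf (nat_lit 131035) (.g (nat_lit 541) (.e (nat_lit 8388) (nat_lit 114) (.e (nat_lit 1220) (nat_lit 90) (.e (nat_lit 89856) (nat_lit 19) .nil))) .nil))) (.nd (nat_lit 6) 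
(.lf (nat_lit 131003) (.g (nat_lit 1700) (.e (nat_lit 8360) (nat_lit 88) (.e (nat_lit 712755) (nat_lit 30) (.e (nat_lit 450588) (nat_lit 10) (.e (nat_lit 573473) (nat_lit 12) .nil)))) .nil)) 
(.lf (nat_lit 131067) (.g (nat_lit 618) (.e (nat_lit 8430) (nat_lit 138) (.e (nat_lit 1201) (nat_lit 88) (.e (nat_lit 65630) (nat_lit 14) .nil))) .nil)))))) (.nd (nat_lit 3) (.nd (nat_lit 4) (.nd (nat_lit 5) (.nd (nat_lit 6) 
(.lf (nat_lit 130951) (.g (nat_lit 615) (.e (nat_lit 8359) (nat_lit 88) (.e (nat_lit 712752) (nat_lit 29) (.e (nat_lit 442382) (nat_lit 8) (.e (nat_lit 163584) (nat_lit 5) .nil)))) .nil)) 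
(.lf (nat_lit 131015) (.g (nat_lit 840) (.e (nat_lit 8363) (nat_lit 89) (.e (nat_lit 720956) (nat_lit 25) (.e (nat_lit 114715) (nat_lit 22) (.e (nat_lit 90165) (nat_lit 12) (.e (nat_lit 171776) (nat_lit 192) (.e (nat_lit 73775) (nat_lit 26) (.e (nat_lit 778454) (nat_lit 10) .nil))))))) (.g (nat_lit 4) .nil .nil)))) (.nd (nat_lit 6) 
(.lf (nat_lit 130983) (.g (nat_lit 650) (.e (nat_lit 8360) (nat_lit 88) (.e (nat_lit 712755) (nat_lit 30) (.e (nat_lit 450563) (nat_lit 0) .nil))) .nil)) 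
(.lf (nat_lit 131047) (.g (nat_lit 2146) (.e (nat_lit 8405) (nat_lit 123) (.e (nat_lit 122917) (nat_lit 15) (.e (nat_lit 360466) (nat_lit 3) (.e (nat_lit 516179) (nat_lit 15) (.e (nat_lit 475220) (nat_lit 44) .nil))))) .nil)))) (.nd (nat_lit 5) (.nd (nat_lit 6) 
(.lf (nat_lit 130967) (.g (nat_lit 529) (.e (nat_lit 8360) (nat_lit 88) (.e (nat_lit 712752) (nat_lit 29) (.e (nat_lit 442374) (nat_lit 0) .nil))) .nil)) 
(.lf (nat_lit 131031) (.g (nat_lit 1613) (.e (nat_lit 8386) (nat_lit 114) (.e (nat_lit 1201) (nat_lit 88) (.e (nat_lit 65610) (nat_lit 10) (.e (nat_lit 344117) (nat_lit 21) .nil)))) .nil))) (.nd (nat_lit 6) 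
(.lf (nat_lit 130999) (.g (nat_lit 2510) (.e (nat_lit 8360) (nat_lit 88) (.e (nat_lit 712755) (nat_lit 30) (.e (nat_lit 450588) (nat_lit 10) (.e (nat_lit 573449) (nat_lit 9) (.e (nat_lit 187) (nat_lit 14) (.e (nat_lit 221218) (nat_lit 24) (.e (nat_lit 213028) (nat_lit 10) .nil))))))) (.g (nat_lit 5) .nil .nil))) 
(.lf (nat_lit 131063) (.g (nat_lit 1879) (.e (nat_lit 8430) (nat_lit 138) (.e (nat_lit 1201) (nat_lit 88) (.e (nat_lit 65628) (nat_lit 14) (.e (nat_lit 401459) (nat_lit 13) (.e (nat_lit 483344) (nat_lit 17) .nil))))) .nil))))) (.nd (nat_lit 4) (.nd (nat_lit 5) (.nd (nat_lit 6) 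
(.lf (nat_lit 130959) (.g (nat_lit 1814) (.e (nat_lit 8359) (nat_lit 88) (.e (nat_lit 712755) (nat_lit 30) (.e (nat_lit 450588) (nat_lit 10) (.e (nat_lit 573441) (nat_lit 0) (.e (nat_lit 2962) (nat_lit 185) .nil))))) .nil)) 
(.lf (nat_lit 131023) (.g (nat_lit 1093) (.e (nat_lit 8379) (nat_lit 102) (.e (nat_lit 1221) (nat_lit 90) (.e (nat_lit 81956) (nat_lit 23) (.e (nat_lit 98350) (nat_lit 24) .nil)))) .nil))) (.nd (nat_lit 6) 
(.lf (nat_lit 130991) (.g (nat_lit 1220) (.e (nat_lit 8360) (nat_lit 88) (.e (nat_lit 712755) (nat_lit 30) (.e (nat_lit 450588) (nat_lit 10) (.e (nat_lit 573441) (nat_lit 0) .nil)))) .nil)) 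
(.lf (nat_lit 131055) (.g (nat_lit 561) (.e (nat_lit 8429) (nat_lit 138) (.e (nat_lit 1201) (nat_lit 88) (.e (nat_lit 65630) (nat_lit 14) .nil))) .nil)))) (.nd (nat_lit 5) (.nd (nat_lit 6) 
(.lf (nat_lit 130975) (.g (nat_lit 1557) (.e (nat_lit 8360) (nat_lit 88) (.e (nat_lit 712752) (nat_lit 29) (.e (nat_lit 442427) (nat_lit 23) (.e (nat_lit 204821) (nat_lit 17) .nil)))) .nil)) 
(.lf (nat_lit 131039) (.g (nat_lit 2842) (.e (nat_lit 8388) (nat_lit 114) (.e (nat_lit 1220) (nat_lit 90) (.e (nat_lit 81938) (nat_lit 20) (.e (nat_lit 2391) (nat_lit 156) (.e (nat_lit 819220) (nat_lit 5) (.e (nat_lit 180285) (nat_lit 45) (.e (nat_lit 2545) (nat_lit 158) .nil))))))) (.g (nat_lit 6) .nil .nil)))) (.nd (nat_lit 6) 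
(.lf (nat_lit 131007) (.g (nat_lit 1081) (.e (nat_lit 8362) (nat_lit 89) (.e (nat_lit 720956) (nat_lit 25) (.e (nat_lit 114715) (nat_lit 22) (.e (nat_lit 90165) (nat_lit 12) (.e (nat_lit 171776) (nat_lit 192) (.e (nat_lit 73775) (nat_lit 26) (.e (nat_lit 778455) (nat_lit 10) .nil))))))) (.g (nat_lit 4) .nil .nil))) 
(.lf (nat_lit 131071) (.g (nat_lit 2677) (.e (nat_lit 8430) (nat_lit 138) (.e (nat_lit 1201) (nat_lit 88) (.e (nat_lit 65630) (nat_lit 14) (.e (nat_lit 401459) (nat_lit 13) (.e (nat_lit 483344) (nat_lit 17) .nil))))) .nil)))))))))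

noncomputable def tv1748 : DT := (.nd (nat_lit 0) (.nd (nat_lit 1) (.nd (nat_lit 2) (.nd (nat_lit 3) (.nd (nat_lit 4) (.nd (nat_lit 5) 
(.lf (nat_lit 131072) (.g (nat_lit 2721) (.e (nat_lit 8430) (nat_lit 138) (.e (nat_lit 1201) (nat_lit 88) (.e (nat_lit 65630) (nat_lit 14) (.e (nat_lit 401459) (nat_lit 13) (.e (nat_lit 483344) (nat_lit 17) (.e (nat_lit 6079) (nat_lit 332) (.e (nat_lit 2540) (nat_lit 158) .nil))))))) (.g (nat_lit 4) .nil .nil))) 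
(.lf (nat_lit 131104) (.g (nat_lit 2556) (.e (nat_lit 8432) (nat_lit 138) (.e (nat_lit 1201) (nat_lit 88) (.e (nat_lit 65628) (nat_lit 14) (.e (nat_lit 401459) (nat_lit 13) (.e (nat_lit 483347) (nat_lit 17) .nil))))) .nil))) (.nd (nat_lit 5) 
(.lf (nat_lit 131088) (.g (nat_lit 2828) (.e (nat_lit 8430) (nat_lit 138) (.e (nat_lit 1201) (nat_lit 88) (.e (nat_lit 65630) (nat_lit 14) (.e (nat_lit 401459) (nat_lit 13) (.e (nat_lit 483350) (nat_lit 17) (.e (nat_lit 6113) (nat_lit 332) (.e (nat_lit 7936) (nat_lit 158) .nil))))))) (.g (nat_lit 4) .nil .nil))) 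
(.lf (nat_lit 131120) (.g (nat_lit 2677) (.e (nat_lit 8432) (nat_lit 138) (.e (nat_lit 1201) (nat_lit 88) (.e (nat_lit 65630) (nat_lit 14) (.e (nat_lit 401459) (nat_lit 13) (.e (nat_lit 483344) (nat_lit 17) (.e (nat_lit 6152) (nat_lit 332) (.e (nat_lit 2543) (nat_lit 158) .nil))))))) (.g (nat_lit 4) .nil .nil))))) (.nd (nat_lit 4) (.nd (nat_lit 5) 
(.lf (nat_lit 131080) (.g (nat_lit 2901) (.e (nat_lit 8430) (nat_lit 138) (.e (nat_lit 1201) (nat_lit 88) (.e (nat_lit 65630) (nat_lit 14) (.e (nat_lit 401459) (nat_lit 13) (.e (nat_lit 483344) (nat_lit 17) (.e (nat_lit 6152) (nat_lit 332) (.e (nat_lit 2545) (nat_lit 158) .nil))))))) (.g (nat_lit 4) .nil .nil))) 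
(.lf (nat_lit 131112) (.g (nat_lit 2755) (.e (nat_lit 8432) (nat_lit 138) (.e (nat_lit 1201) (nat_lit 88) (.e (nat_lit 65630) (nat_lit 14) (.e (nat_lit 401457) (nat_lit 13) (.e (nat_lit 483377) (nat_lit 22) .nil))))) .nil))) (.nd (nat_lit 5) 
(.lf (nat_lit 131096) (.g (nat_lit 4626) (.e (nat_lit 8431) (nat_lit 138) (.e (nat_lit 1201) (nat_lit 88) (.e (nat_lit 65630) (nat_lit 14) (.e (nat_lit 401459) (nat_lit 13) (.e (nat_lit 483350) (nat_lit 17) (.e (nat_lit 6113) (nat_lit 332) (.e (nat_lit 2538) (nat_lit 158) .nil))))))) (.g (nat_lit 7) .nil .nil))) 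
(.lf (nat_lit 131128) (.g (nat_lit 2237) (.e (nat_lit 8433) (nat_lit 138) (.e (nat_lit 1183) (nat_lit 87) (.e (nat_lit 57480) (nat_lit 28) (.e (nat_lit 557108) (nat_lit 15) (.e (nat_lit 188452) (nat_lit 23) .nil))))) .nil))))) (.nd (nat_lit 3) (.nd (nat_lit 4) (.nd (nat_lit 5) 
(.lf (nat_lit 131076) (.g (nat_lit 2744) (.e (nat_lit 8430) (nat_lit 138) (.e (nat_lit 1201) (nat_lit 88) (.e (nat_lit 65630) (nat_lit 14) (.e (nat_lit 401459) (nat_lit 13) (.e (nat_lit 483344) (nat_lit 17) (.e (nat_lit 6081) (nat_lit 332) (.e (nat_lit 2547) (nat_lit 158) .nil))))))) (.g (nat_lit 4) .nil .nil))) 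
(.lf (nat_lit 131108) (.g (nat_lit 4168) (.e (nat_lit 8432) (nat_lit 138) (.e (nat_lit 1201) (nat_lit 88) (.e (nat_lit 65629) (nat_lit 14) (.e (nat_lit 401459) (nat_lit 13) (.e (nat_lit 483350) (nat_lit 17) (.e (nat_lit 6113) (nat_lit 332) (.e (nat_lit 2538) (nat_lit 158) .nil))))))) (.g (nat_lit 4) .nil .nil)))) (.nd (nat_lit 5) 
(.lf (nat_lit 131092) (.g (nat_lit 1490) (.e (nat_lit 8431) (nat_lit 138) (.e (nat_lit 1201) (nat_lit 88) (.e (nat_lit 65630) (nat_lit 14) (.e (nat_lit 401437) (nat_lit 9) (.e (nat_lit 426533) (nat_lit 28) .nil))))) .nil)) 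
(.lf (nat_lit 131124) (.g (nat_lit 4056) (.e (nat_lit 8432) (nat_lit 138) (.e (nat_lit 1201) (nat_lit 88) (.e (nat_lit 65630) (nat_lit 14) (.e (nat_lit 401459) (nat_lit 13) (.e (nat_lit 483372) (nat_lit 21) (.e (nat_lit 327424) (nat_lit 1) .nil)))))) (.g (nat_lit 5) .nil .nil))))) (.nd (nat_lit 4) (.nd (nat_lit 5) 
(.lf (nat_lit 131084) (.g (nat_lit 3061) (.e (nat_lit 8430) (nat_lit 138) (.e (nat_lit 1201) (nat_lit 88) (.e (nat_lit 65630) (nat_lit 14) (.e (nat_lit 401459) (nat_lit 13) (.e (nat_lit 483344) (nat_lit 17) (.e (nat_lit 6155) (nat_lit 332) (.e (nat_lit 2546) (nat_lit 158) .nil))))))) (.g (nat_lit 4) .nil .nil))) 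
(.lf (nat_lit 131116) (.g (nat_lit 2753) (.e (nat_lit 8432) (nat_lit 138) (.e (nat_lit 1201) (nat_lit 88) (.e (nat_lit 65630) (nat_lit 14) (.e (nat_lit 401459) (nat_lit 13) (.e (nat_lit 483344) (nat_lit 17) (.e (nat_lit 6079) (nat_lit 332) (.e (nat_lit 2547) (nat_lit 158) .nil))))))) (.g (nat_lit 4) .nil .nil)))) (.nd (nat_lit 5) 
(.lf (nat_lit 131100) (.g (nat_lit 1220) (.e (nat_lit 8432) (nat_lit 138) (.e (nat_lit 1201) (nat_lit 88) (.e (nat_lit 65586) (nat_lit 7) (.e (nat_lit 319531) (nat_lit 16) .nil)))) .nil)) 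
(.lf (nat_lit 131132) (.g (nat_lit 1153) (.e (nat_lit 8433) (nat_lit 138) (.e (nat_lit 1201) (nat_lit 88) (.e (nat_lit 65583) (nat_lit 7) (.e (nat_lit 319530) (nat_lit 16) .nil)))) .nil)))))) (.nd (nat_lit 2) (.nd (nat_lit 3) (.nd (nat_lit 4) (.nd (nat_lit 5) 
(.lf (nat_lit 131074) (.g (nat_lit 2734) (.e (nat_lit 8430) (nat_lit 138) (.e (nat_lit 1201) (nat_lit 88) (.e (nat_lit 65630) (nat_lit 14) (.e (nat_lit 401459) (nat_lit 13) (.e (nat_lit 483344) (nat_lit 17) (.e (nat_lit 6081) (nat_lit 332) (.e (nat_lit 2541) (nat_lit 158) .nil))))))) (.g (nat_lit 4) .nil .nil))) 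
(.lf (nat_lit 131106) (.g (nat_lit 4030) (.e (nat_lit 8432) (nat_lit 138) (.e (nat_lit 1201) (nat_lit 88) (.e (nat_lit 65628) (nat_lit 14) (.e (nat_lit 401459) (nat_lit 13) (.e (nat_lit 483375) (nat_lit 22) (.e (nat_lit 327692) (nat_lit 1) .nil)))))) (.g (nat_lit 6) .nil .nil)))) (.nd (nat_lit 5) 
(.lf (nat_lit 131090) (.g (nat_lit 2713) (.e (nat_lit 8431) (nat_lit 138) (.e (nat_lit 1201) (nat_lit 88) (.e (nat_lit 65628) (nat_lit 14) (.e (nat_lit 401459) (nat_lit 13) (.e (nat_lit 483374) (nat_lit 22) .nil))))) .nil)) 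
(.lf (nat_lit 131122) (.g (nat_lit 3159) (.e (nat_lit 8432) (nat_lit 138) (.e (nat_lit 1201) (nat_lit 88) (.e (nat_lit 65630) (nat_lit 14) (.e (nat_lit 401459) (nat_lit 13) (.e (nat_lit 483347) (nat_lit 17) .nil))))) .nil)))) (.nd (nat_lit 4) (.nd (nat_lit 5) 
(.lf (nat_lit 131082) (.g (nat_lit 2926) (.e (nat_lit 8430) (nat_lit 138) (.e (nat_lit 1201) (nat_lit 88) (.e (nat_lit 65630) (nat_lit 14) (.e (nat_lit 401459) (nat_lit 13) (.e (nat_lit 483344) (nat_lit 17) (.e (nat_lit 6154) (nat_lit 332) (.e (nat_lit 2540) (nat_lit 158) .nil))))))) (.g (nat_lit 4) .nil .nil))) 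
(.lf (nat_lit 131114) (.g (nat_lit 2522) (.e (nat_lit 8432) (nat_lit 138) (.e (nat_lit 1201) (nat_lit 88) (.e (nat_lit 65630) (nat_lit 14) (.e (nat_lit 401459) (nat_lit 13) (.e (nat_lit 483344) (nat_lit 17) .nil))))) .nil))) (.nd (nat_lit 5) 
(.lf (nat_lit 131098) (.g (nat_lit 2377) (.e (nat_lit 8432) (nat_lit 138) (.e (nat_lit 1193) (nat_lit 88) (.e (nat_lit 65628) (nat_lit 14) (.e (nat_lit 401459) (nat_lit 13) (.e (nat_lit 483375) (nat_lit 22) .nil))))) .nil)) 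
(.lf (nat_lit 131130) (.g (nat_lit 3012) (.e (nat_lit 8433) (nat_lit 138) (.e (nat_lit 1191) (nat_lit 88) (.e (nat_lit 65630) (nat_lit 14) (.e (nat_lit 401459) (nat_lit 13) (.e (nat_lit 483344) (nat_lit 17) (.e (nat_lit 6152) (nat_lit 332) (.e (nat_lit 2540) (nat_lit 158) .nil))))))) (.g (nat_lit 5) .nil .nil)))))) (.nd (nat_lit 3) (.nd (nat_lit 4) (.nd (nat_lit 5) 
(.lf (nat_lit 131078) (.g (nat_lit 3614) (.e (nat_lit 8430) (nat_lit 138) (.e (nat_lit 1201) (nat_lit 88) (.e (nat_lit 65630) (nat_lit 14) (.e (nat_lit 401459) (nat_lit 13) (.e (nat_lit 483344) (nat_lit 17) (.e (nat_lit 6152) (nat_lit 332) (.e (nat_lit 2540) (nat_lit 158) .nil))))))) (.g (nat_lit 5) .nil .nil))) 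
(.lf (nat_lit 131110) (.g (nat_lit 2734) (.e (nat_lit 8432) (nat_lit 138) (.e (nat_lit 1201) (nat_lit 88) (.e (nat_lit 65630) (nat_lit 14) (.e (nat_lit 401454) (nat_lit 12) (.e (nat_lit 483072) (nat_lit 19) .nil))))) .nil))) (.nd (nat_lit 5) 
(.lf (nat_lit 131094) (.g (nat_lit 2552) (.e (nat_lit 8431) (nat_lit 138) (.e (nat_lit 1201) (nat_lit 88) (.e (nat_lit 65630) (nat_lit 14) (.e (nat_lit 401459) (nat_lit 13) (.e (nat_lit 483344) (nat_lit 17) .nil))))) .nil)) 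
(.lf (nat_lit 131126) (.g (nat_lit 682) (.e (nat_lit 8432) (nat_lit 138) (.e (nat_lit 1222) (nat_lit 90) (.e (nat_lit 81954) (nat_lit 23) .nil))) .nil)))) (.nd (nat_lit 4) (.nd (nat_lit 5) 
(.lf (nat_lit 131086) (.g (nat_lit 3745) (.e (nat_lit 8430) (nat_lit 138) (.e (nat_lit 1201) (nat_lit 88) (.e (nat_lit 65630) (nat_lit 14) (.e (nat_lit 401459) (nat_lit 13) (.e (nat_lit 483344) (nat_lit 17) (.e (nat_lit 6203) (nat_lit 332) (.e (nat_lit 2540) (nat_lit 158) .nil))))))) (.g (nat_lit 5) .nil .nil))) 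
(.lf (nat_lit 131118) (.g (nat_lit 3692) (.e (nat_lit 8432) (nat_lit 138) (.e (nat_lit 1201) (nat_lit 88) (.e (nat_lit 65630) (nat_lit 14) (.e (nat_lit 401459) (nat_lit 13) (.e (nat_lit 483344) (nat_lit 17) (.e (nat_lit 6152) (nat_lit 332) (.e (nat_lit 2541) (nat_lit 158) .nil))))))) (.g (nat_lit 5) .nil .nil)))) (.nd (nat_lit 5) 
(.lf (nat_lit 131102) (.g (nat_lit 2102) (.e (nat_lit 8432) (nat_lit 138) (.e (nat_lit 1201) (nat_lit 88) (.e (nat_lit 65628) (nat_lit 14) (.e (nat_lit 401459) (nat_lit 13) (.e (nat_lit 483344) (nat_lit 17) (.e (nat_lit 6152) (nat_lit 332) (.e (nat_lit 2541) (nat_lit 158) .nil))))))) (.g (nat_lit 4) .nil .nil))) 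
(.lf (nat_lit 131134) (.g (nat_lit 556) (.e (nat_lit 8433) (nat_lit 138) (.e (nat_lit 1201) (nat_lit 88) (.e (nat_lit 65610) (nat_lit 10) .nil))) .nil))))))) (.nd (nat_lit 1) (.nd (nat_lit 2) (.nd (nat_lit 3) (.nd (nat_lit 4) (.nd (nat_lit 5) 
(.lf (nat_lit 131073) (.g (nat_lit 2849) (.e (nat_lit 8430) (nat_lit 138) (.e (nat_lit 1201) (nat_lit 88) (.e (nat_lit 65630) (nat_lit 14) (.e (nat_lit 401459) (nat_lit 13) (.e (nat_lit 483344) (nat_lit 17) (.e (nat_lit 6079) (nat_lit 332) (.e (nat_lit 2548) (nat_lit 158) .nil))))))) (.g (nat_lit 4) .nil .nil))) 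
(.lf (nat_lit 131105) (.g (nat_lit 2662) (.e (nat_lit 8432) (nat_lit 138) (.e (nat_lit 1201) (nat_lit 88) (.e (nat_lit 65628) (nat_lit 14) (.e (nat_lit 401459) (nat_lit 13) (.e (nat_lit 483374) (nat_lit 22) .nil))))) .nil))) (.nd (nat_lit 5) 
(.lf (nat_lit 131089) (.g (nat_lit 553) (.e (nat_lit 8431) (nat_lit 138) (.e (nat_lit 1201) (nat_lit 88) (.e (nat_lit 65628) (nat_lit 14) .nil))) .nil)) 
(.lf (nat_lit 131121) (.g (nat_lit 2695) (.e (nat_lit 8432) (nat_lit 138) (.e (nat_lit 1201) (nat_lit 88) (.e (nat_lit 65630) (nat_lit 14) (.e (nat_lit 401459) (nat_lit 13) (.e (nat_lit 483344) (nat_lit 17) (.e (nat_lit 6152) (nat_lit 332) (.e (nat_lit 2547) (nat_lit 158) .nil))))))) (.g (nat_lit 4) .nil .nil))))) (.nd (nat_lit 4) (.nd (nat_lit 5) 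
(.lf (nat_lit 131081) (.g (nat_lit 2762) (.e (nat_lit 8430) (nat_lit 138) (.e (nat_lit 1201) (nat_lit 88) (.e (nat_lit 65630) (nat_lit 14) (.e (nat_lit 401459) (nat_lit 13) (.e (nat_lit 483344) (nat_lit 17) (.e (nat_lit 6153) (nat_lit 332) (.e (nat_lit 2541) (nat_lit 158) .nil))))))) (.g (nat_lit 4) .nil .nil))) 
(.lf (nat_lit 131113) (.g (nat_lit 3077) (.e (nat_lit 8432) (nat_lit 138) (.e (nat_lit 1201) (nat_lit 88) (.e (nat_lit 65630) (nat_lit 14) (.e (nat_lit 401459) (nat_lit 13) (.e (nat_lit 483343) (nat_lit 17) .nil))))) .nil))) (.nd (nat_lit 5) 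
(.lf (nat_lit 131097) (.g (nat_lit 495) (.e (nat_lit 8432) (nat_lit 138) (.e (nat_lit 1183) (nat_lit 87) (.e (nat_lit 57712) (nat_lit 176) .nil))) .nil)) 
(.lf (nat_lit 131129) (.g (nat_lit 471) (.e (nat_lit 8433) (nat_lit 138) (.e (nat_lit 1183) (nat_lit 87) (.e (nat_lit 57711) (nat_lit 176) .nil))) .nil))))) (.nd (nat_lit 3) (.nd (nat_lit 4) (.nd (nat_lit 5) 
(.lf (nat_lit 131077) (.g (nat_lit 2767) (.e (nat_lit 8430) (nat_lit 138) (.e (nat_lit 1201) (nat_lit 88) (.e (nat_lit 65630) (nat_lit 14) (.e (nat_lit 401459) (nat_lit 13) (.e (nat_lit 483344) (nat_lit 17) (.e (nat_lit 6091) (nat_lit 332) (.e (nat_lit 2540) (nat_lit 158) .nil))))))) (.g (nat_lit 4) .nil .nil))) 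
(.lf (nat_lit 131109) (.g (nat_lit 1262) (.e (nat_lit 8432) (nat_lit 138) (.e (nat_lit 1201) (nat_lit 88) (.e (nat_lit 65630) (nat_lit 14) (.e (nat_lit 401437) (nat_lit 9) .nil)))) .nil))) (.nd (nat_lit 5) 
(.lf (nat_lit 131093) (.g (nat_lit 2891) (.e (nat_lit 8431) (nat_lit 138) (.e (nat_lit 1201) (nat_lit 88) (.e (nat_lit 65630) (nat_lit 14) (.e (nat_lit 401457) (nat_lit 13) (.e (nat_lit 483377) (nat_lit 22) .nil))))) .nil)) 
(.lf (nat_lit 131125) (.g (nat_lit 415) (.e (nat_lit 8432) (nat_lit 138) (.e (nat_lit 1222) (nat_lit 90) (.e (nat_lit 81924) (nat_lit 0) .nil))) .nil)))) (.nd (nat_lit 4) (.nd (nat_lit 5) 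
(.lf (nat_lit 131085) (.g (nat_lit 3616) (.e (nat_lit 8430) (nat_lit 138) (.e (nat_lit 1201) (nat_lit 88) (.e (nat_lit 65630) (nat_lit 14) (.e (nat_lit 401459) (nat_lit 13) (.e (nat_lit 483344) (nat_lit 17) (.e (nat_lit 6156) (nat_lit 332) (.e (nat_lit 2540) (nat_lit 158) .nil))))))) (.g (nat_lit 5) .nil .nil))) 
(.lf (nat_lit 131117) (.g (nat_lit 3802) (.e (nat_lit 8432) (nat_lit 138) (.e (nat_lit 1201) (nat_lit 88) (.e (nat_lit 65630) (nat_lit 14) (.e (nat_lit 401459) (nat_lit 13) (.e (nat_lit 483344) (nat_lit 17) (.e (nat_lit 6152) (nat_lit 332) (.e (nat_lit 2540) (nat_lit 158) .nil))))))) (.g (nat_lit 5) .nil .nil)))) (.nd (nat_lit 5) 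
(.lf (nat_lit 131101) (.g (nat_lit 1759) (.e (nat_lit 8432) (nat_lit 138) (.e (nat_lit 1201) (nat_lit 88) (.e (nat_lit 65628) (nat_lit 14) (.e (nat_lit 401459) (nat_lit 13) (.e (nat_lit 483344) (nat_lit 17) .nil))))) .nil)) 
(.lf (nat_lit 131133) (.g (nat_lit 1663) (.e (nat_lit 8433) (nat_lit 138) (.e (nat_lit 1201) (nat_lit 88) (.e (nat_lit 65583) (nat_lit 7) (.e (nat_lit 319530) (nat_lit 16) (.e (nat_lit 286763) (nat_lit 15) (.e (nat_lit 7098) (nat_lit 380) (.e (nat_lit 164268) (nat_lit 221) (.e (nat_lit 2542) (nat_lit 158) .nil)))))))) (.g (nat_lit 4) .nil .nil))))))) 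
(.nd (nat_lit 2) (.nd (nat_lit 3) (.nd (nat_lit 4) (.nd (nat_lit 5) 
(.lf (nat_lit 131075) (.g (nat_lit 2714) (.e (nat_lit 8430) (nat_lit 138) (.e (nat_lit 1201) (nat_lit 88) (.e (nat_lit 65630) (nat_lit 14) (.e (nat_lit 401459) (nat_lit 13) (.e (nat_lit 483344) (nat_lit 17) (.e (nat_lit 6081) (nat_lit 332) (.e (nat_lit 2542) (nat_lit 158) .nil))))))) (.g (nat_lit 4) .nil .nil))) 
(.lf (nat_lit 131107) (.g (nat_lit 2736) (.e (nat_lit 8432) (nat_lit 138) (.e (nat_lit 1201) (nat_lit 88) (.e (nat_lit 65629) (nat_lit 14) (.e (nat_lit 401459) (nat_lit 13) (.e (nat_lit 483344) (nat_lit 17) .nil))))) .nil))) (.nd (nat_lit 5) 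
(.lf (nat_lit 131091) (.g (nat_lit 3903) (.e (nat_lit 8431) (nat_lit 138) (.e (nat_lit 1201) (nat_lit 88) (.e (nat_lit 65628) (nat_lit 14) (.e (nat_lit 401459) (nat_lit 13) (.e (nat_lit 483375) (nat_lit 22) (.e (nat_lit 327692) (nat_lit 1) .nil)))))) (.g (nat_lit 6) .nil .nil))) 
(.lf (nat_lit 131123) (.g (nat_lit 3163) (.e (nat_lit 8432) (nat_lit 138) (.e (nat_lit 1201) (nat_lit 88) (.e (nat_lit 65630) (nat_lit 14) (.e (nat_lit 401459) (nat_lit 13) (.e (nat_lit 483347) (nat_lit 17) (.e (nat_lit 6198) (nat_lit 332) (.e (nat_lit 2540) (nat_lit 158) .nil))))))) (.g (nat_lit 4) .nil .nil))))) (.nd (nat_lit 4) (.nd (nat_lit 5) 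
(.lf (nat_lit 131083) (.g (nat_lit 3867) (.e (nat_lit 8430) (nat_lit 138) (.e (nat_lit 1201) (nat_lit 88) (.e (nat_lit 65630) (nat_lit 14) (.e (nat_lit 401459) (nat_lit 13) (.e (nat_lit 483344) (nat_lit 17) (.e (nat_lit 6155) (nat_lit 332) (.e (nat_lit 2540) (nat_lit 158) .nil))))))) (.g (nat_lit 5) .nil .nil))) 
(.lf (nat_lit 131115) (.g (nat_lit 2812) (.e (nat_lit 8432) (nat_lit 138) (.e (nat_lit 1201) (nat_lit 88) (.e (nat_lit 65630) (nat_lit 14) (.e (nat_lit 401459) (nat_lit 13) (.e (nat_lit 483344) (nat_lit 17) (.e (nat_lit 6079) (nat_lit 332) (.e (nat_lit 2541) (nat_lit 158) .nil))))))) (.g (nat_lit 4) .nil .nil)))) (.nd (nat_lit 5) 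
(.lf (nat_lit 131099) (.g (nat_lit 2060) (.e (nat_lit 8432) (nat_lit 138) (.e (nat_lit 1201) (nat_lit 88) (.e (nat_lit 65583) (nat_lit 7) (.e (nat_lit 319530) (nat_lit 16) (.e (nat_lit 286763) (nat_lit 15) (.e (nat_lit 7098) (nat_lit 380) (.e (nat_lit 164269) (nat_lit 221) (.e (nat_lit 2542) (nat_lit 158) .nil)))))))) (.g (nat_lit 5) .nil .nil))) 
(.lf (nat_lit 131131) (.g (nat_lit 2419) (.e (nat_lit 8433) (nat_lit 138) (.e (nat_lit 1192) (nat_lit 88) (.e (nat_lit 65629) (nat_lit 14) (.e (nat_lit 401459) (nat_lit 13) (.e (nat_lit 483375) (nat_lit 22) .nil))))) .nil))))) (.nd (nat_lit 3) (.nd (nat_lit 4) (.nd (nat_lit 5) 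
(.lf (nat_lit 131079) (.g (nat_lit 2837) (.e (nat_lit 8430) (nat_lit 138) (.e (nat_lit 1201) (nat_lit 88) (.e (nat_lit 65630) (nat_lit 14) (.e (nat_lit 401459) (nat_lit 13) (.e (nat_lit 483344) (nat_lit 17) (.e (nat_lit 6152) (nat_lit 332) (.e (nat_lit 2543) (nat_lit 158) .nil))))))) (.g (nat_lit 4) .nil .nil))) 
(.lf (nat_lit 131111) (.g (nat_lit 2911) (.e (nat_lit 8432) (nat_lit 138) (.e (nat_lit 1201) (nat_lit 88) (.e (nat_lit 65630) (nat_lit 14) (.e (nat_lit 401457) (nat_lit 13) (.e (nat_lit 483346) (nat_lit 17) (.e (nat_lit 6203) (nat_lit 332) (.e (nat_lit 2543) (nat_lit 158) .nil))))))) (.g (nat_lit 4) .nil .nil)))) (.nd (nat_lit 5) 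
(.lf (nat_lit 131095) (.g (nat_lit 3189) (.e (nat_lit 8431) (nat_lit 138) (.e (nat_lit 1201) (nat_lit 88) (.e (nat_lit 65630) (nat_lit 14) (.e (nat_lit 401459) (nat_lit 13) (.e (nat_lit 483347) (nat_lit 17) .nil))))) .nil)) 
(.lf (nat_lit 131127) (.g (nat_lit 1952) (.e (nat_lit 8433) (nat_lit 138) (.e (nat_lit 999) (nat_lit 81) (.e (nat_lit 1400) (nat_lit 106) (.e (nat_lit 319533) (nat_lit 16) (.e (nat_lit 286760) (nat_lit 13) .nil))))) .nil)))) (.nd (nat_lit 4) (.nd (nat_lit 5) 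
(.lf (nat_lit 131087) (.g (nat_lit 3314) (.e (nat_lit 8430) (nat_lit 138) (.e (nat_lit 1201) (nat_lit 88) (.e (nat_lit 65630) (nat_lit 14) (.e (nat_lit 401459) (nat_lit 13) (.e (nat_lit 483347) (nat_lit 17) .nil))))) .nil)) 
(.lf (nat_lit 131119) (.g (nat_lit 4046) (.e (nat_lit 8432) (nat_lit 138) (.e (nat_lit 1201) (nat_lit 88) (.e (nat_lit 65630) (nat_lit 14) (.e (nat_lit 401459) (nat_lit 13) (.e (nat_lit 483344) (nat_lit 17) (.e (nat_lit 6152) (nat_lit 332) (.e (nat_lit 2542) (nat_lit 158) .nil))))))) (.g (nat_lit 6) .nil .nil)))) (.nd (nat_lit 5) 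
(.lf (nat_lit 131103) (.g (nat_lit 2009) (.e (nat_lit 8432) (nat_lit 138) (.e (nat_lit 1201) (nat_lit 88) (.e (nat_lit 65628) (nat_lit 14) (.e (nat_lit 401459) (nat_lit 13) (.e (nat_lit 483344) (nat_lit 17) (.e (nat_lit 6156) (nat_lit 332) (.e (nat_lit 2540) (nat_lit 158) .nil))))))) (.g (nat_lit 4) .nil .nil))) 
(.lf (nat_lit 131135) (.g (nat_lit 1730) (.e (nat_lit 8433) (nat_lit 138) (.e (nat_lit 1201) (nat_lit 88) (.e (nat_lit 65628) (nat_lit 14) (.e (nat_lit 401459) (nat_lit 13) (.e (nat_lit 483344) (nat_lit 17) .nil))))) .nil))))))))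

noncomputable def tv1749 : DT := (.nd (nat_lit 0) (.nd (nat_lit 1) (.nd (nat_lit 2) (.nd (nat_lit 3) (.nd (nat_lit 4) (.nd (nat_lit 5) 
(.lf (nat_lit 131136) (.g (nat_lit 2633) (.e (nat_lit 8433) (nat_lit 138) (.e (nat_lit 1201) (nat_lit 88) (.e (nat_lit 65628) (nat_lit 14) (.e (nat_lit 401459) (nat_lit 13) (.e (nat_lit 483374) (nat_lit 22) .nil))))) .nil)) 
(.lf (nat_lit 131168) (.g (nat_lit 2548) (.e (nat_lit 8439) (nat_lit 138) (.e (nat_lit 1190) (nat_lit 88) (.e (nat_lit 65628) (nat_lit 14) (.e (nat_lit 401459) (nat_lit 13) (.e (nat_lit 483374) (nat_lit 22) .nil))))) .nil))) (.nd (nat_lit 5) 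
(.lf (nat_lit 131152) (.g (nat_lit 480) (.e (nat_lit 8433) (nat_lit 138) (.e (nat_lit 1224) (nat_lit 90) (.e (nat_lit 81955) (nat_lit 23) .nil))) .nil)) 
(.lf (nat_lit 131184) (.g (nat_lit 1584) (.e (nat_lit 8439) (nat_lit 138) (.e (nat_lit 1199) (nat_lit 88) (.e (nat_lit 65628) (nat_lit 14) (.e (nat_lit 401459) (nat_lit 13) (.e (nat_lit 483344) (nat_lit 17) .nil))))) .nil)))) (.nd (nat_lit 4) (.nd (nat_lit 5) 
(.lf (nat_lit 131144) (.g (nat_lit 3630) (.e (nat_lit 8433) (nat_lit 138) (.e (nat_lit 1201) (nat_lit 88) (.e (nat_lit 65630) (nat_lit 14) (.e (nat_lit 401459) (nat_lit 13) (.e (nat_lit 483344) (nat_lit 17) (.e (nat_lit 6155) (nat_lit 332) (.e (nat_lit 2540) (nat_lit 158) .nil))))))) (.g (nat_lit 5) .nil .nil))) 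
(.lf (nat_lit 131176) (.g (nat_lit 3017) (.e (nat_lit 8439) (nat_lit 138) (.e (nat_lit 1190) (nat_lit 88) (.e (nat_lit 65630) (nat_lit 14) (.e (nat_lit 401459) (nat_lit 13) (.e (nat_lit 483344) (nat_lit 17) (.e (nat_lit 6154) (nat_lit 332) (.e (nat_lit 2546) (nat_lit 158) .nil))))))) (.g (nat_lit 4) .nil .nil)))) (.nd (nat_lit 5) 
(.lf (nat_lit 131160) (.g (nat_lit 3029) (.e (nat_lit 8439) (nat_lit 138) (.e (nat_lit 1188) (nat_lit 88) (.e (nat_lit 65630) (nat_lit 14) (.e (nat_lit 401459) (nat_lit 13) (.e (nat_lit 483344) (nat_lit 17) (.e (nat_lit 6155) (nat_lit 332) (.e (nat_lit 2546) (nat_lit 158) .nil))))))) (.g (nat_lit 5) .nil .nil))) 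
(.lf (nat_lit 131192) (.g (nat_lit 2058) (.e (nat_lit 8439) (nat_lit 138) (.e (nat_lit 1199) (nat_lit 88) (.e (nat_lit 65630) (nat_lit 14) (.e (nat_lit 401457) (nat_lit 13) (.e (nat_lit 483346) (nat_lit 17) .nil))))) .nil))))) (.nd (nat_lit 3) (.nd (nat_lit 4) (.nd (nat_lit 5) 
(.lf (nat_lit 131140) (.g (nat_lit 2859) (.e (nat_lit 8433) (nat_lit 138) (.e (nat_lit 1201) (nat_lit 88) (.e (nat_lit 65630) (nat_lit 14) (.e (nat_lit 401457) (nat_lit 13) (.e (nat_lit 483377) (nat_lit 22) .nil))))) .nil)) 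
(.lf (nat_lit 131172) (.g (nat_lit 2759) (.e (nat_lit 8439) (nat_lit 138) (.e (nat_lit 1190) (nat_lit 88) (.e (nat_lit 65630) (nat_lit 14) (.e (nat_lit 401459) (nat_lit 13) (.e (nat_lit 483344) (nat_lit 17) .nil))))) .nil))) (.nd (nat_lit 5) 
(.lf (nat_lit 131156) (.g (nat_lit 2658) (.e (nat_lit 8439) (nat_lit 138) (.e (nat_lit 1181) (nat_lit 87) (.e (nat_lit 57480) (nat_lit 28) (.e (nat_lit 557108) (nat_lit 15) (.e (nat_lit 188452) (nat_lit 23) (.e (nat_lit 204816) (nat_lit 17) (.e (nat_lit 6154) (nat_lit 332) (.e (nat_lit 2544) (nat_lit 158) .nil)))))))) (.g (nat_lit 4) .nil .nil))) 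
(.lf (nat_lit 131188) (.g (nat_lit 2736) (.e (nat_lit 8439) (nat_lit 138) (.e (nat_lit 1199) (nat_lit 88) (.e (nat_lit 65628) (nat_lit 14) (.e (nat_lit 401459) (nat_lit 13) (.e (nat_lit 483347) (nat_lit 17) (.e (nat_lit 6198) (nat_lit 332) (.e (nat_lit 2544) (nat_lit 158) .nil))))))) (.g (nat_lit 4) .nil .nil))))) (.nd (nat_lit 4) (.nd (nat_lit 5) 
(.lf (nat_lit 131148) (.g (nat_lit 3523) (.e (nat_lit 8433) (nat_lit 138) (.e (nat_lit 1201) (nat_lit 88) (.e (nat_lit 65630) (nat_lit 14) (.e (nat_lit 401459) (nat_lit 13) (.e (nat_lit 483350) (nat_lit 17) (.e (nat_lit 6113) (nat_lit 332) (.e (nat_lit 7936) (nat_lit 158) .nil))))))) (.g (nat_lit 5) .nil .nil))) 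
(.lf (nat_lit 131180) (.g (nat_lit 2936) (.e (nat_lit 8439) (nat_lit 138) (.e (nat_lit 1190) (nat_lit 88) (.e (nat_lit 65630) (nat_lit 14) (.e (nat_lit 401459) (nat_lit 13) (.e (nat_lit 483350) (nat_lit 17) (.e (nat_lit 6113) (nat_lit 332) (.e (nat_lit 2538) (nat_lit 158) .nil))))))) (.g (nat_lit 4) .nil .nil)))) (.nd (nat_lit 5) 
(.lf (nat_lit 131164) (.g (nat_lit 3453) (.e (nat_lit 8439) (nat_lit 138) (.e (nat_lit 1188) (nat_lit 88) (.e (nat_lit 65630) (nat_lit 14) (.e (nat_lit 401459) (nat_lit 13) (.e (nat_lit 483375) (nat_lit 22) (.e (nat_lit 327692) (nat_lit 1) .nil)))))) (.g (nat_lit 6) .nil .nil))) 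
(.lf (nat_lit 131196) (.g (nat_lit 3555) (.e (nat_lit 8439) (nat_lit 138) (.e (nat_lit 1199) (nat_lit 88) (.e (nat_lit 65630) (nat_lit 14) (.e (nat_lit 401459) (nat_lit 13) (.e (nat_lit 483344) (nat_lit 17) (.e (nat_lit 6152) (nat_lit 332) (.e (nat_lit 2545) (nat_lit 158) .nil))))))) (.g (nat_lit 5) .nil .nil))))))) (.nd (nat_lit 2) (.nd (nat_lit 3) (.nd (nat_lit 4) (.nd (nat_lit 5) 
(.lf (nat_lit 131138) (.g (nat_lit 1329) (.e (nat_lit 8433) (nat_lit 138) (.e (nat_lit 1201) (nat_lit 88) (.e (nat_lit 65630) (nat_lit 14) (.e (nat_lit 401437) (nat_lit 9) .nil)))) .nil)) 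
(.lf (nat_lit 131170) (.g (nat_lit 2284) (.e (nat_lit 8439) (nat_lit 138) (.e (nat_lit 1190) (nat_lit 88) (.e (nat_lit 65630) (nat_lit 14) (.e (nat_lit 401457) (nat_lit 13) (.e (nat_lit 483346) (nat_lit 17) .nil))))) .nil))) (.nd (nat_lit 5) 
(.lf (nat_lit 131154) (.g (nat_lit 2530) (.e (nat_lit 8439) (nat_lit 138) (.e (nat_lit 1181) (nat_lit 87) (.e (nat_lit 57480) (nat_lit 28) (.e (nat_lit 557108) (nat_lit 15) (.e (nat_lit 188452) (nat_lit 23) .nil))))) .nil)) 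
(.lf (nat_lit 131186) (.g (nat_lit 2694) (.e (nat_lit 8439) (nat_lit 138) (.e (nat_lit 1199) (nat_lit 88) (.e (nat_lit 65628) (nat_lit 14) (.e (nat_lit 401459) (nat_lit 13) (.e (nat_lit 483344) (nat_lit 17) (.e (nat_lit 6152) (nat_lit 332) (.e (nat_lit 2546) (nat_lit 158) .nil))))))) (.g (nat_lit 5) .nil .nil))))) (.nd (nat_lit 4) (.nd (nat_lit 5) 
(.lf (nat_lit 131146) (.g (nat_lit 3508) (.e (nat_lit 8433) (nat_lit 138) (.e (nat_lit 1201) (nat_lit 88) (.e (nat_lit 65630) (nat_lit 14) (.e (nat_lit 401459) (nat_lit 13) (.e (nat_lit 483344) (nat_lit 17) (.e (nat_lit 6203) (nat_lit 332) (.e (nat_lit 2540) (nat_lit 158) .nil))))))) (.g (nat_lit 5) .nil .nil))) 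
(.lf (nat_lit 131178) (.g (nat_lit 4416) (.e (nat_lit 8439) (nat_lit 138) (.e (nat_lit 1190) (nat_lit 88) (.e (nat_lit 65630) (nat_lit 14) (.e (nat_lit 401459) (nat_lit 13) (.e (nat_lit 483344) (nat_lit 17) (.e (nat_lit 6203) (nat_lit 332) (.e (nat_lit 2544) (nat_lit 158) .nil))))))) (.g (nat_lit 6) .nil .nil)))) (.nd (nat_lit 5) 
(.lf (nat_lit 131162) (.g (nat_lit 2479) (.e (nat_lit 8439) (nat_lit 138) (.e (nat_lit 1188) (nat_lit 88) (.e (nat_lit 65630) (nat_lit 14) (.e (nat_lit 401459) (nat_lit 13) (.e (nat_lit 483347) (nat_lit 17) (.e (nat_lit 6198) (nat_lit 332) (.e (nat_lit 2544) (nat_lit 158) .nil))))))) (.g (nat_lit 4) .nil .nil))) 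
(.lf (nat_lit 131194) (.g (nat_lit 2901) (.e (nat_lit 8439) (nat_lit 138) (.e (nat_lit 1199) (nat_lit 88) (.e (nat_lit 65630) (nat_lit 14) (.e (nat_lit 401459) (nat_lit 13) (.e (nat_lit 483343) (nat_lit 17) .nil))))) .nil))))) (.nd (nat_lit 3) (.nd (nat_lit 4) (.nd (nat_lit 5) 
(.lf (nat_lit 131142) (.g (nat_lit 2530) (.e (nat_lit 8433) (nat_lit 138) (.e (nat_lit 1201) (nat_lit 88) (.e (nat_lit 65630) (nat_lit 14) (.e (nat_lit 401459) (nat_lit 13) (.e (nat_lit 483344) (nat_lit 17) (.e (nat_lit 6091) (nat_lit 332) (.e (nat_lit 2540) (nat_lit 158) .nil))))))) (.g (nat_lit 4) .nil .nil))) 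
(.lf (nat_lit 131174) (.g (nat_lit 3875) (.e (nat_lit 8439) (nat_lit 138) (.e (nat_lit 1190) (nat_lit 88) (.e (nat_lit 65630) (nat_lit 14) (.e (nat_lit 401459) (nat_lit 13) (.e (nat_lit 483344) (nat_lit 17) (.e (nat_lit 6152) (nat_lit 332) (.e (nat_lit 2546) (nat_lit 158) .nil))))))) (.g (nat_lit 5) .nil .nil)))) (.nd (nat_lit 5) 
(.lf (nat_lit 131158) (.g (nat_lit 1993) (.e (nat_lit 8439) (nat_lit 138) (.e (nat_lit 1188) (nat_lit 88) (.e (nat_lit 65630) (nat_lit 14) (.e (nat_lit 401459) (nat_lit 13) (.e (nat_lit 483344) (nat_lit 17) .nil))))) .nil)) 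
(.lf (nat_lit 131190) (.g (nat_lit 3322) (.e (nat_lit 8439) (nat_lit 138) (.e (nat_lit 1199) (nat_lit 88) (.e (nat_lit 65629) (nat_lit 14) (.e (nat_lit 401459) (nat_lit 13) (.e (nat_lit 483347) (nat_lit 17) (.e (nat_lit 6198) (nat_lit 332) (.e (nat_lit 2544) (nat_lit 158) .nil))))))) (.g (nat_lit 4) .nil .nil))))) (.nd (nat_lit 4) (.nd (nat_lit 5) 
(.lf (nat_lit 131150) (.g (nat_lit 463) (.e (nat_lit 8433) (nat_lit 138) (.e (nat_lit 1212) (nat_lit 89) (.e (nat_lit 73782) (nat_lit 32) .nil))) .nil)) 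
(.lf (nat_lit 131182) (.g (nat_lit 2698) (.e (nat_lit 8439) (nat_lit 138) (.e (nat_lit 1196) (nat_lit 88) (.e (nat_lit 65630) (nat_lit 14) (.e (nat_lit 401459) (nat_lit 13) (.e (nat_lit 483344) (nat_lit 17) .nil))))) .nil))) (.nd (nat_lit 5) 
(.lf (nat_lit 131166) (.g (nat_lit 2911) (.e (nat_lit 8439) (nat_lit 138) (.e (nat_lit 1190) (nat_lit 88) (.e (nat_lit 65628) (nat_lit 14) (.e (nat_lit 401459) (nat_lit 13) (.e (nat_lit 483344) (nat_lit 17) (.e (nat_lit 6152) (nat_lit 332) (.e (nat_lit 2544) (nat_lit 158) .nil))))))) (.g (nat_lit 5) .nil .nil))) 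
(.lf (nat_lit 131198) (.g (nat_lit 2080) (.e (nat_lit 8439) (nat_lit 138) (.e (nat_lit 1200) (nat_lit 88) (.e (nat_lit 65628) (nat_lit 14) (.e (nat_lit 401459) (nat_lit 13) (.e (nat_lit 483344) (nat_lit 17) .nil))))) .nil))))))) (.nd (nat_lit 1) (.nd (nat_lit 2) (.nd (nat_lit 3) (.nd (nat_lit 4) (.nd (nat_lit 5) 
(.lf (nat_lit 131137) (.g (nat_lit 2721) (.e (nat_lit 8433) (nat_lit 138) (.e (nat_lit 1201) (nat_lit 88) (.e (nat_lit 65629) (nat_lit 14) (.e (nat_lit 401459) (nat_lit 13) (.e (nat_lit 483344) (nat_lit 17) .nil))))) .nil)) 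
(.lf (nat_lit 131169) (.g (nat_lit 3033) (.e (nat_lit 8439) (nat_lit 138) (.e (nat_lit 1190) (nat_lit 88) (.e (nat_lit 65629) (nat_lit 14) (.e (nat_lit 401459) (nat_lit 13) (.e (nat_lit 483375) (nat_lit 22) .nil))))) .nil))) (.nd (nat_lit 5) 
(.lf (nat_lit 131153) (.g (nat_lit 2609) (.e (nat_lit 8439) (nat_lit 138) (.e (nat_lit 1181) (nat_lit 87) (.e (nat_lit 57479) (nat_lit 28) (.e (nat_lit 557095) (nat_lit 13) (.e (nat_lit 172115) (nat_lit 10) .nil))))) .nil)) 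
(.lf (nat_lit 131185) (.g (nat_lit 2771) (.e (nat_lit 8439) (nat_lit 138) (.e (nat_lit 1199) (nat_lit 88) (.e (nat_lit 65628) (nat_lit 14) (.e (nat_lit 401459) (nat_lit 13) (.e (nat_lit 483344) (nat_lit 17) (.e (nat_lit 6152) (nat_lit 332) (.e (nat_lit 2544) (nat_lit 158) .nil))))))) (.g (nat_lit 5) .nil .nil))))) (.nd (nat_lit 4) (.nd (nat_lit 5) 
(.lf (nat_lit 131145) (.g (nat_lit 3379) (.e (nat_lit 8433) (nat_lit 138) (.e (nat_lit 1201) (nat_lit 88) (.e (nat_lit 65630) (nat_lit 14) (.e (nat_lit 401459) (nat_lit 13) (.e (nat_lit 483344) (nat_lit 17) (.e (nat_lit 6156) (nat_lit 332) (.e (nat_lit 2540) (nat_lit 158) .nil))))))) (.g (nat_lit 5) .nil .nil))) 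
(.lf (nat_lit 131177) (.g (nat_lit 3687) (.e (nat_lit 8439) (nat_lit 138) (.e (nat_lit 1190) (nat_lit 88) (.e (nat_lit 65630) (nat_lit 14) (.e (nat_lit 401459) (nat_lit 13) (.e (nat_lit 483344) (nat_lit 17) (.e (nat_lit 6155) (nat_lit 332) (.e (nat_lit 2544) (nat_lit 158) .nil))))))) (.g (nat_lit 5) .nil .nil)))) (.nd (nat_lit 5) 
(.lf (nat_lit 131161) (.g (nat_lit 3849) (.e (nat_lit 8439) (nat_lit 138) (.e (nat_lit 1188) (nat_lit 88) (.e (nat_lit 65630) (nat_lit 14) (.e (nat_lit 401459) (nat_lit 13) (.e (nat_lit 483344) (nat_lit 17) (.e (nat_lit 6203) (nat_lit 332) (.e (nat_lit 2544) (nat_lit 158) .nil))))))) (.g (nat_lit 6) .nil .nil))) 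
(.lf (nat_lit 131193) (.g (nat_lit 2090) (.e (nat_lit 8439) (nat_lit 138) (.e (nat_lit 1199) (nat_lit 88) (.e (nat_lit 65630) (nat_lit 14) (.e (nat_lit 401457) (nat_lit 13) (.e (nat_lit 483377) (nat_lit 22) .nil))))) .nil))))) (.nd (nat_lit 3) (.nd (nat_lit 4) (.nd (nat_lit 5) 
(.lf (nat_lit 131141) (.g (nat_lit 2509) (.e (nat_lit 8433) (nat_lit 138) (.e (nat_lit 1201) (nat_lit 88) (.e (nat_lit 65630) (nat_lit 14) (.e (nat_lit 401459) (nat_lit 13) (.e (nat_lit 483344) (nat_lit 17) .nil))))) .nil)) 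
(.lf (nat_lit 131173) (.g (nat_lit 3966) (.e (nat_lit 8439) (nat_lit 138) (.e (nat_lit 1190) (nat_lit 88) (.e (nat_lit 65630) (nat_lit 14) (.e (nat_lit 401459) (nat_lit 13) (.e (nat_lit 483344) (nat_lit 17) (.e (nat_lit 6152) (nat_lit 332) (.e (nat_lit 2544) (nat_lit 158) .nil))))))) (.g (nat_lit 5) .nil .nil)))) (.nd (nat_lit 5) 
(.lf (nat_lit 131157) (.g (nat_lit 4156) (.e (nat_lit 8439) (nat_lit 138) (.e (nat_lit 1182) (nat_lit 87) (.e (nat_lit 57478) (nat_lit 28) (.e (nat_lit 557109) (nat_lit 15) (.e (nat_lit 188452) (nat_lit 23) (.e (nat_lit 204817) (nat_lit 17) (.e (nat_lit 6198) (nat_lit 332) (.e (nat_lit 2544) (nat_lit 158) .nil)))))))) (.g (nat_lit 5) .nil .nil))) 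
(.lf (nat_lit 131189) (.g (nat_lit 4013) (.e (nat_lit 8439) (nat_lit 138) (.e (nat_lit 1199) (nat_lit 88) (.e (nat_lit 65628) (nat_lit 14) (.e (nat_lit 401459) (nat_lit 13) (.e (nat_lit 483372) (nat_lit 21) (.e (nat_lit 327424) (nat_lit 1) .nil)))))) (.g (nat_lit 5) .nil .nil))))) (.nd (nat_lit 4) (.nd (nat_lit 5) 
(.lf (nat_lit 131149) (.g (nat_lit 4120) (.e (nat_lit 8433) (nat_lit 138) (.e (nat_lit 1201) (nat_lit 88) (.e (nat_lit 65630) (nat_lit 14) (.e (nat_lit 401459) (nat_lit 13) (.e (nat_lit 483372) (nat_lit 21) (.e (nat_lit 327424) (nat_lit 1) .nil)))))) (.g (nat_lit 5) .nil .nil))) 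
(.lf (nat_lit 131181) (.g (nat_lit 2974) (.e (nat_lit 8439) (nat_lit 138) (.e (nat_lit 1190) (nat_lit 88) (.e (nat_lit 65630) (nat_lit 14) (.e (nat_lit 401459) (nat_lit 13) (.e (nat_lit 483350) (nat_lit 17) (.e (nat_lit 6113) (nat_lit 332) (.e (nat_lit 7936) (nat_lit 158) .nil))))))) (.g (nat_lit 4) .nil .nil)))) (.nd (nat_lit 5) 
(.lf (nat_lit 131165) (.g (nat_lit 1842) (.e (nat_lit 8439) (nat_lit 138) (.e (nat_lit 1190) (nat_lit 88) (.e (nat_lit 65628) (nat_lit 14) (.e (nat_lit 401459) (nat_lit 13) (.e (nat_lit 483344) (nat_lit 17) .nil))))) .nil)) 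
(.lf (nat_lit 131197) (.g (nat_lit 3492) (.e (nat_lit 8439) (nat_lit 138) (.e (nat_lit 1199) (nat_lit 88) (.e (nat_lit 65630) (nat_lit 14) (.e (nat_lit 401459) (nat_lit 13) (.e (nat_lit 483344) (nat_lit 17) (.e (nat_lit 6154) (nat_lit 332) (.e (nat_lit 2546) (nat_lit 158) .nil))))))) (.g (nat_lit 5) .nil .nil))))))) (.nd (nat_lit 2) (.nd (nat_lit 3) (.nd (nat_lit 4) (.nd (nat_lit 5) 
(.lf (nat_lit 131139) (.g (nat_lit 1548) (.e (nat_lit 8433) (nat_lit 138) (.e (nat_lit 1201) (nat_lit 88) (.e (nat_lit 65630) (nat_lit 14) (.e (nat_lit 401454) (nat_lit 12) .nil)))) .nil)) 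
(.lf (nat_lit 131171) (.g (nat_lit 3714) (.e (nat_lit 8439) (nat_lit 138) (.e (nat_lit 1190) (nat_lit 88) (.e (nat_lit 65630) (nat_lit 14) (.e (nat_lit 401457) (nat_lit 13) (.e (nat_lit 483346) (nat_lit 17) (.e (nat_lit 6203) (nat_lit 332) (.e (nat_lit 2544) (nat_lit 158) .nil))))))) (.g (nat_lit 5) .nil .nil)))) (.nd (nat_lit 5) 
(.lf (nat_lit 131155) (.g (nat_lit 2681) (.e (nat_lit 8439) (nat_lit 138) (.e (nat_lit 1181) (nat_lit 87) (.e (nat_lit 57480) (nat_lit 28) (.e (nat_lit 557108) (nat_lit 15) (.e (nat_lit 188452) (nat_lit 23) (.e (nat_lit 204816) (nat_lit 17) (.e (nat_lit 6152) (nat_lit 332) (.e (nat_lit 2544) (nat_lit 158) .nil)))))))) (.g (nat_lit 4) .nil .nil))) 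
(.lf (nat_lit 131187) (.g (nat_lit 2589) (.e (nat_lit 8439) (nat_lit 138) (.e (nat_lit 1199) (nat_lit 88) (.e (nat_lit 65628) (nat_lit 14) (.e (nat_lit 401459) (nat_lit 13) (.e (nat_lit 483344) (nat_lit 17) (.e (nat_lit 6154) (nat_lit 332) (.e (nat_lit 2544) (nat_lit 158) .nil))))))) (.g (nat_lit 5) .nil .nil))))) (.nd (nat_lit 4) (.nd (nat_lit 5) 
(.lf (nat_lit 131147) (.g (nat_lit 3146) (.e (nat_lit 8433) (nat_lit 138) (.e (nat_lit 1201) (nat_lit 88) (.e (nat_lit 65630) (nat_lit 14) (.e (nat_lit 401459) (nat_lit 13) (.e (nat_lit 483347) (nat_lit 17) .nil))))) .nil)) 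
(.lf (nat_lit 131179) (.g (nat_lit 3075) (.e (nat_lit 8439) (nat_lit 138) (.e (nat_lit 1190) (nat_lit 88) (.e (nat_lit 65630) (nat_lit 14) (.e (nat_lit 401459) (nat_lit 13) (.e (nat_lit 483347) (nat_lit 17) .nil))))) .nil))) (.nd (nat_lit 5) 
(.lf (nat_lit 131163) (.g (nat_lit 2548) (.e (nat_lit 8439) (nat_lit 138) (.e (nat_lit 1188) (nat_lit 88) (.e (nat_lit 65630) (nat_lit 14) (.e (nat_lit 401459) (nat_lit 13) (.e (nat_lit 483374) (nat_lit 22) .nil))))) .nil)) 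
(.lf (nat_lit 131195) (.g (nat_lit 2395) (.e (nat_lit 8439) (nat_lit 138) (.e (nat_lit 1199) (nat_lit 88) (.e (nat_lit 65630) (nat_lit 14) (.e (nat_lit 401459) (nat_lit 13) (.e (nat_lit 483344) (nat_lit 17) .nil))))) .nil))))) (.nd (nat_lit 3) (.nd (nat_lit 4) (.nd (nat_lit 5) 
(.lf (nat_lit 131143) (.g (nat_lit 2689) (.e (nat_lit 8433) (nat_lit 138) (.e (nat_lit 1201) (nat_lit 88) (.e (nat_lit 65630) (nat_lit 14) (.e (nat_lit 401459) (nat_lit 13) (.e (nat_lit 483344) (nat_lit 17) (.e (nat_lit 6154) (nat_lit 332) (.e (nat_lit 2540) (nat_lit 158) .nil))))))) (.g (nat_lit 4) .nil .nil))) 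
(.lf (nat_lit 131175) (.g (nat_lit 3933) (.e (nat_lit 8439) (nat_lit 138) (.e (nat_lit 1190) (nat_lit 88) (.e (nat_lit 65630) (nat_lit 14) (.e (nat_lit 401459) (nat_lit 13) (.e (nat_lit 483344) (nat_lit 17) (.e (nat_lit 6154) (nat_lit 332) (.e (nat_lit 2544) (nat_lit 158) .nil))))))) (.g (nat_lit 5) .nil .nil)))) (.nd (nat_lit 5) 
(.lf (nat_lit 131159) (.g (nat_lit 3120) (.e (nat_lit 8439) (nat_lit 138) (.e (nat_lit 1188) (nat_lit 88) (.e (nat_lit 65630) (nat_lit 14) (.e (nat_lit 401459) (nat_lit 13) (.e (nat_lit 483344) (nat_lit 17) (.e (nat_lit 6155) (nat_lit 332) (.e (nat_lit 2544) (nat_lit 158) .nil))))))) (.g (nat_lit 5) .nil .nil))) 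
(.lf (nat_lit 131191) (.g (nat_lit 3476) (.e (nat_lit 8439) (nat_lit 138) (.e (nat_lit 1199) (nat_lit 88) (.e (nat_lit 65629) (nat_lit 14) (.e (nat_lit 401459) (nat_lit 13) (.e (nat_lit 483350) (nat_lit 17) .nil))))) .nil)))) (.nd (nat_lit 4) (.nd (nat_lit 5) 
(.lf (nat_lit 131151) (.g (nat_lit 1662) (.e (nat_lit 8433) (nat_lit 138) (.e (nat_lit 1214) (nat_lit 89) (.e (nat_lit 73781) (nat_lit 32) (.e (nat_lit 2856) (nat_lit 184) (.e (nat_lit 426533) (nat_lit 28) .nil))))) .nil)) 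
(.lf (nat_lit 131183) (.g (nat_lit 2443) (.e (nat_lit 8439) (nat_lit 138) (.e (nat_lit 1196) (nat_lit 88) (.e (nat_lit 65630) (nat_lit 14) (.e (nat_lit 401459) (nat_lit 13) (.e (nat_lit 483372) (nat_lit 21) .nil))))) .nil))) (.nd (nat_lit 5) 
(.lf (nat_lit 131167) (.g (nat_lit 4005) (.e (nat_lit 8439) (nat_lit 138) (.e (nat_lit 1190) (nat_lit 88) (.e (nat_lit 65628) (nat_lit 14) (.e (nat_lit 401459) (nat_lit 13) (.e (nat_lit 483372) (nat_lit 21) (.e (nat_lit 327424) (nat_lit 1) .nil)))))) (.g (nat_lit 5) .nil .nil))) 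
(.lf (nat_lit 131199) (.g (nat_lit 3270) (.e (nat_lit 8439) (nat_lit 138) (.e (nat_lit 1200) (nat_lit 88) (.e (nat_lit 65628) (nat_lit 14) (.e (nat_lit 401459) (nat_lit 13) (.e (nat_lit 483344) (nat_lit 17) (.e (nat_lit 6203) (nat_lit 332) (.e (nat_lit 2544) (nat_lit 158) .nil))))))) (.g (nat_lit 5) .nil .nil)))))))))

noncomputable def tv1750 : DT := (.nd (nat_lit 0) (.nd (nat_lit 1) (.nd (nat_lit 2) (.nd (nat_lit 3) (.nd (nat_lit 4) (.nd (nat_lit 5) (.nd (nat_lit 6) 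
(.lf (nat_lit 131200) (.g (nat_lit 4072) (.e (nat_lit 8439) (nat_lit 138) (.e (nat_lit 1200) (nat_lit 88) (.e (nat_lit 65628) (nat_lit 14) (.e (nat_lit 401459) (nat_lit 13) (.e (nat_lit 483372) (nat_lit 21) (.e (nat_lit 327424) (nat_lit 1) .nil)))))) (.g (nat_lit 5) .nil .nil))) 
(.lf (nat_lit 131264) (.g (nat_lit 1845) (.e (nat_lit 8446) (nat_lit 140) (.e (nat_lit 57399) (nat_lit 10) (.e (nat_lit 319530) (nat_lit 16) (.e (nat_lit 286761) (nat_lit 13) (.e (nat_lit 393264) (nat_lit 22) (.e (nat_lit 417804) (nat_lit 1) .nil)))))) (.g (nat_lit 0) .nil .nil)))) (.nd (nat_lit 6) 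
(.lf (nat_lit 131232) (.g (nat_lit 2927) (.e (nat_lit 8443) (nat_lit 140) (.e (nat_lit 57400) (nat_lit 10) (.e (nat_lit 319530) (nat_lit 16) (.e (nat_lit 286761) (nat_lit 13) (.e (nat_lit 393234) (nat_lit 17) (.e (nat_lit 7065) (nat_lit 377) (.e (nat_lit 1112) (nat_lit 82) .nil))))))) (.g (nat_lit 6) .nil .nil))) 
(.lf (nat_lit 131296) (.g (nat_lit 2326) (.e (nat_lit 8446) (nat_lit 140) (.e (nat_lit 57424) (nat_lit 14) (.e (nat_lit 352318) (nat_lit 24) (.e (nat_lit 123184) (nat_lit 264) (.e (nat_lit 1214) (nat_lit 89) (.e (nat_lit 73786) (nat_lit 45) (.e (nat_lit 2538) (nat_lit 158) .nil))))))) (.g (nat_lit 4) .nil .nil))))) (.nd (nat_lit 5) (.nd (nat_lit 6) 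
(.lf (nat_lit 131216) (.g (nat_lit 1743) (.e (nat_lit 8439) (nat_lit 138) (.e (nat_lit 1221) (nat_lit 90) (.e (nat_lit 81959) (nat_lit 24) (.e (nat_lit 123195) (nat_lit 266) .nil)))) .nil)) 
(.lf (nat_lit 131280) (.g (nat_lit 2761) (.e (nat_lit 8446) (nat_lit 140) (.e (nat_lit 57400) (nat_lit 10) (.e (nat_lit 319533) (nat_lit 16) (.e (nat_lit 286761) (nat_lit 13) (.e (nat_lit 393265) (nat_lit 22) (.e (nat_lit 417804) (nat_lit 1) .nil)))))) (.g (nat_lit 0) .nil .nil)))) (.nd (nat_lit 6) 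
(.lf (nat_lit 131248) (.g (nat_lit 750) (.e (nat_lit 8445) (nat_lit 140) (.e (nat_lit 57406) (nat_lit 12) (.e (nat_lit 336434) (nat_lit 30) .nil))) .nil)) 
(.lf (nat_lit 131312) (.g (nat_lit 1519) (.e (nat_lit 16128) (nat_lit 152) (.e (nat_lit 57374) (nat_lit 2) (.e (nat_lit 90170) (nat_lit 13) (.e (nat_lit 172106) (nat_lit 10) .nil)))) .nil))))) (.nd (nat_lit 4) (.nd (nat_lit 5) (.nd (nat_lit 6) 
(.lf (nat_lit 131208) (.g (nat_lit 1441) (.e (nat_lit 8439) (nat_lit 138) (.e (nat_lit 1209) (nat_lit 89) (.e (nat_lit 73782) (nat_lit 32) (.e (nat_lit 2856) (nat_lit 184) (.e (nat_lit 426530) (nat_lit 27) .nil))))) .nil)) 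
(.lf (nat_lit 131272) (.g (nat_lit 1670) (.e (nat_lit 8446) (nat_lit 140) (.e (nat_lit 57400) (nat_lit 10) (.e (nat_lit 319531) (nat_lit 16) (.e (nat_lit 286748) (nat_lit 9) (.e (nat_lit 336389) (nat_lit 27) .nil))))) .nil))) (.nd (nat_lit 6) 
(.lf (nat_lit 131240) (.g (nat_lit 2085) (.e (nat_lit 8443) (nat_lit 140) (.e (nat_lit 57447) (nat_lit 19) (.e (nat_lit 393301) (nat_lit 27) (.e (nat_lit 499456) (nat_lit 18) (.e (nat_lit 204845) (nat_lit 24) (.e (nat_lit 319516) (nat_lit 11) .nil)))))) (.g (nat_lit 5) .nil .nil))) 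
(.lf (nat_lit 131304) (.g (nat_lit 1218) (.e (nat_lit 8446) (nat_lit 140) (.e (nat_lit 57447) (nat_lit 19) (.e (nat_lit 393294) (nat_lit 26) .nil))) .nil)))) (.nd (nat_lit 5) (.nd (nat_lit 6) 
(.lf (nat_lit 131224) (.g (nat_lit 1114) (.e (nat_lit 8442) (nat_lit 140) (.e (nat_lit 57372) (nat_lit 2) (.e (nat_lit 90176) (nat_lit 15) (.e (nat_lit 188431) (nat_lit 20) .nil)))) .nil)) 
(.lf (nat_lit 131288) (.g (nat_lit 766) (.e (nat_lit 8446) (nat_lit 140) (.e (nat_lit 57424) (nat_lit 14) (.e (nat_lit 352318) (nat_lit 24) .nil))) .nil))) (.nd (nat_lit 6) 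
(.lf (nat_lit 131256) (.g (nat_lit 1459) (.e (nat_lit 8445) (nat_lit 140) (.e (nat_lit 57445) (nat_lit 19) (.e (nat_lit 393296) (nat_lit 26) (.e (nat_lit 483072) (nat_lit 26) .nil)))) .nil)) 
(.lf (nat_lit 131320) (.g (nat_lit 2526) (.e (nat_lit 8484) (nat_lit 168) (.e (nat_lit 1221) (nat_lit 90) (.e (nat_lit 81959) (nat_lit 24) (.e (nat_lit 123195) (nat_lit 266) (.e (nat_lit 57412) (nat_lit 12) .nil))))) .nil)))))) (.nd (nat_lit 3) (.nd (nat_lit 4) (.nd (nat_lit 5) (.nd (nat_lit 6) 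
(.lf (nat_lit 131204) (.g (nat_lit 2344) (.e (nat_lit 8439) (nat_lit 138) (.e (nat_lit 1200) (nat_lit 88) (.e (nat_lit 65630) (nat_lit 14) (.e (nat_lit 401459) (nat_lit 13) (.e (nat_lit 483344) (nat_lit 17) .nil))))) .nil)) 
(.lf (nat_lit 131268) (.g (nat_lit 2277) (.e (nat_lit 8446) (nat_lit 140) (.e (nat_lit 57400) (nat_lit 10) (.e (nat_lit 319528) (nat_lit 16) (.e (nat_lit 286761) (nat_lit 13) (.e (nat_lit 393265) (nat_lit 22) (.e (nat_lit 417804) (nat_lit 1) .nil)))))) (.g (nat_lit 0) .nil .nil)))) (.nd (nat_lit 6) 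
(.lf (nat_lit 131236) (.g (nat_lit 2497) (.e (nat_lit 8443) (nat_lit 140) (.e (nat_lit 57427) (nat_lit 15) (.e (nat_lit 360474) (nat_lit 8) (.e (nat_lit 557059) (nat_lit 0) .nil)))) .nil)) 
(.lf (nat_lit 131300) (.g (nat_lit 2599) (.e (nat_lit 8446) (nat_lit 140) (.e (nat_lit 57427) (nat_lit 15) (.e (nat_lit 360474) (nat_lit 8) (.e (nat_lit 557060) (nat_lit 0) .nil)))) .nil)))) (.nd (nat_lit 5) (.nd (nat_lit 6) 
(.lf (nat_lit 131220) (.g (nat_lit 3068) (.e (nat_lit 8439) (nat_lit 138) (.e (nat_lit 1221) (nat_lit 90) (.e (nat_lit 81959) (nat_lit 24) (.e (nat_lit 123195) (nat_lit 266) (.e (nat_lit 57417) (nat_lit 12) (.e (nat_lit 335876) (nat_lit 0) (.e (nat_lit 6202) (nat_lit 332) (.e (nat_lit 2540) (nat_lit 158) .nil)))))))) (.g (nat_lit 5) .nil .nil))) 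
(.lf (nat_lit 131284) (.g (nat_lit 890) (.e (nat_lit 8446) (nat_lit 140) (.e (nat_lit 57409) (nat_lit 12) (.e (nat_lit 336443) (nat_lit 32) .nil))) .nil))) (.nd (nat_lit 6) 
(.lf (nat_lit 131252) (.g (nat_lit 3420) (.e (nat_lit 8445) (nat_lit 140) (.e (nat_lit 57427) (nat_lit 15) (.e (nat_lit 360474) (nat_lit 8) (.e (nat_lit 557058) (nat_lit 0) .nil)))) .nil)) 
(.lf (nat_lit 131316) (.g (nat_lit 3130) (.e (nat_lit 8484) (nat_lit 168) (.e (nat_lit 1199) (nat_lit 88) (.e (nat_lit 65630) (nat_lit 14) (.e (nat_lit 401459) (nat_lit 13) (.e (nat_lit 483374) (nat_lit 22) .nil))))) .nil))))) (.nd (nat_lit 4) (.nd (nat_lit 5) (.nd (nat_lit 6) 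
(.lf (nat_lit 131212) (.g (nat_lit 678) (.e (nat_lit 8439) (nat_lit 138) (.e (nat_lit 1221) (nat_lit 90) (.e (nat_lit 81950) (nat_lit 21) .nil))) .nil)) 
(.lf (nat_lit 131276) (.g (nat_lit 2210) (.e (nat_lit 8446) (nat_lit 140) (.e (nat_lit 57400) (nat_lit 10) (.e (nat_lit 319532) (nat_lit 16) (.e (nat_lit 286761) (nat_lit 13) (.e (nat_lit 393265) (nat_lit 22) (.e (nat_lit 417804) (nat_lit 1) .nil)))))) (.g (nat_lit 0) .nil .nil)))) (.nd (nat_lit 6) 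
(.lf (nat_lit 131244) (.g (nat_lit 1890) (.e (nat_lit 8444) (nat_lit 140) (.e (nat_lit 57400) (nat_lit 10) (.e (nat_lit 319533) (nat_lit 16) (.e (nat_lit 286761) (nat_lit 13) (.e (nat_lit 393265) (nat_lit 22) .nil))))) .nil)) 
(.lf (nat_lit 131308) (.g (nat_lit 720) (.e (nat_lit 8447) (nat_lit 141) (.e (nat_lit 122919) (nat_lit 15) (.e (nat_lit 360474) (nat_lit 8) .nil))) .nil)))) (.nd (nat_lit 5) (.nd (nat_lit 6) 
(.lf (nat_lit 131228) (.g (nat_lit 1341) (.e (nat_lit 8442) (nat_lit 140) (.e (nat_lit 57448) (nat_lit 19) (.e (nat_lit 393301) (nat_lit 27) (.e (nat_lit 499456) (nat_lit 18) .nil)))) .nil)) 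
(.lf (nat_lit 131292) (.g (nat_lit 1777) (.e (nat_lit 8446) (nat_lit 140) (.e (nat_lit 57424) (nat_lit 14) (.e (nat_lit 352318) (nat_lit 24) (.e (nat_lit 123183) (nat_lit 264) (.e (nat_lit 1212) (nat_lit 89) .nil))))) .nil))) (.nd (nat_lit 6) 
(.lf (nat_lit 131260) (.g (nat_lit 1813) (.e (nat_lit 8446) (nat_lit 140) (.e (nat_lit 57373) (nat_lit 2) (.e (nat_lit 90176) (nat_lit 15) (.e (nat_lit 196352) (nat_lit 19) .nil)))) .nil)) 
(.lf (nat_lit 131324) (.g (nat_lit 1805) (.e (nat_lit 8490) (nat_lit 180) (.e (nat_lit 1371) (nat_lit 103) (.e (nat_lit 294960) (nat_lit 13) (.e (nat_lit 393260) (nat_lit 21) (.e (nat_lit 409616) (nat_lit 10) .nil))))) .nil))))))) (.nd (nat_lit 2) (.nd (nat_lit 3) (.nd (nat_lit 4) (.nd (nat_lit 5) (.nd (nat_lit 6) 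
(.lf (nat_lit 131202) (.g (nat_lit 2441) (.e (nat_lit 8439) (nat_lit 138) (.e (nat_lit 1200) (nat_lit 88) (.e (nat_lit 65629) (nat_lit 14) (.e (nat_lit 401459) (nat_lit 13) (.e (nat_lit 483344) (nat_lit 17) .nil))))) .nil)) 
(.lf (nat_lit 131266) (.g (nat_lit 2681) (.e (nat_lit 8446) (nat_lit 140) (.e (nat_lit 57400) (nat_lit 10) (.e (nat_lit 319528) (nat_lit 16) (.e (nat_lit 286761) (nat_lit 13) (.e (nat_lit 393234) (nat_lit 17) (.e (nat_lit 7065) (nat_lit 377) (.e (nat_lit 1112) (nat_lit 82) .nil))))))) (.g (nat_lit 6) .nil .nil)))) (.nd (nat_lit 6) 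
(.lf (nat_lit 131234) (.g (nat_lit 1199) (.e (nat_lit 8443) (nat_lit 140) (.e (nat_lit 57400) (nat_lit 10) (.e (nat_lit 319534) (nat_lit 16) (.e (nat_lit 286761) (nat_lit 13) .nil)))) .nil)) 
(.lf (nat_lit 131298) (.g (nat_lit 2225) (.e (nat_lit 8446) (nat_lit 140) (.e (nat_lit 57427) (nat_lit 15) (.e (nat_lit 360474) (nat_lit 8) (.e (nat_lit 557059) (nat_lit 0) .nil)))) .nil)))) (.nd (nat_lit 5) (.nd (nat_lit 6) 
(.lf (nat_lit 131218) (.g (nat_lit 2855) (.e (nat_lit 8439) (nat_lit 138) (.e (nat_lit 1221) (nat_lit 90) (.e (nat_lit 81959) (nat_lit 24) (.e (nat_lit 123195) (nat_lit 266) (.e (nat_lit 57417) (nat_lit 12) (.e (nat_lit 335872) (nat_lit 0) (.e (nat_lit 6202) (nat_lit 332) (.e (nat_lit 2543) (nat_lit 158) .nil)))))))) (.g (nat_lit 5) .nil .nil))) 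
(.lf (nat_lit 131282) (.g (nat_lit 2266) (.e (nat_lit 8446) (nat_lit 140) (.e (nat_lit 57400) (nat_lit 10) (.e (nat_lit 319534) (nat_lit 16) (.e (nat_lit 286761) (nat_lit 13) (.e (nat_lit 393264) (nat_lit 22) (.e (nat_lit 417804) (nat_lit 1) .nil)))))) (.g (nat_lit 0) .nil .nil)))) (.nd (nat_lit 6) 
(.lf (nat_lit 131250) (.g (nat_lit 618) (.e (nat_lit 8445) (nat_lit 140) (.e (nat_lit 57423) (nat_lit 14) (.e (nat_lit 360192) (nat_lit 4) .nil))) .nil)) 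
(.lf (nat_lit 131314) (.g (nat_lit 3234) (.e (nat_lit 8484) (nat_lit 168) (.e (nat_lit 1196) (nat_lit 88) (.e (nat_lit 65630) (nat_lit 14) (.e (nat_lit 401459) (nat_lit 13) (.e (nat_lit 483374) (nat_lit 22) .nil))))) .nil))))) (.nd (nat_lit 4) (.nd (nat_lit 5) (.nd (nat_lit 6) 
(.lf (nat_lit 131210) (.g (nat_lit 453) (.e (nat_lit 8439) (nat_lit 138) (.e (nat_lit 1209) (nat_lit 89) (.e (nat_lit 81664) (nat_lit 39) .nil))) .nil)) 
(.lf (nat_lit 131274) (.g (nat_lit 2525) (.e (nat_lit 8446) (nat_lit 140) (.e (nat_lit 57400) (nat_lit 10) (.e (nat_lit 319531) (nat_lit 16) (.e (nat_lit 286761) (nat_lit 13) (.e (nat_lit 393265) (nat_lit 22) (.e (nat_lit 417804) (nat_lit 1) .nil)))))) (.g (nat_lit 0) .nil .nil)))) (.nd (nat_lit 6) 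
(.lf (nat_lit 131242) (.g (nat_lit 1348) (.e (nat_lit 8444) (nat_lit 140) (.e (nat_lit 57399) (nat_lit 10) (.e (nat_lit 319530) (nat_lit 16) (.e (nat_lit 286761) (nat_lit 13) (.e (nat_lit 393264) (nat_lit 22) (.e (nat_lit 417804) (nat_lit 1) .nil)))))) (.g (nat_lit 4) .nil .nil))) 
(.lf (nat_lit 131306) (.g (nat_lit 1598) (.e (nat_lit 8446) (nat_lit 140) (.e (nat_lit 57447) (nat_lit 19) (.e (nat_lit 393301) (nat_lit 27) (.e (nat_lit 499456) (nat_lit 18) .nil)))) .nil)))) (.nd (nat_lit 5) (.nd (nat_lit 6) 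
(.lf (nat_lit 131226) (.g (nat_lit 1207) (.e (nat_lit 8442) (nat_lit 140) (.e (nat_lit 57375) (nat_lit 2) (.e (nat_lit 90176) (nat_lit 15) (.e (nat_lit 188431) (nat_lit 20) .nil)))) .nil)) 
(.lf (nat_lit 131290) (.g (nat_lit 1980) (.e (nat_lit 8446) (nat_lit 140) (.e (nat_lit 57424) (nat_lit 14) (.e (nat_lit 352318) (nat_lit 24) (.e (nat_lit 123182) (nat_lit 264) (.e (nat_lit 1212) (nat_lit 89) .nil))))) .nil))) (.nd (nat_lit 6) 
(.lf (nat_lit 131258) (.g (nat_lit 3227) (.e (nat_lit 8446) (nat_lit 140) (.e (nat_lit 57373) (nat_lit 2) (.e (nat_lit 90170) (nat_lit 13) (.e (nat_lit 172106) (nat_lit 10) (.e (nat_lit 434202) (nat_lit 18) .nil))))) .nil)) 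
(.lf (nat_lit 131322) (.g (nat_lit 2672) (.e (nat_lit 8490) (nat_lit 180) (.e (nat_lit 1370) (nat_lit 103) (.e (nat_lit 294960) (nat_lit 13) (.e (nat_lit 393260) (nat_lit 21) (.e (nat_lit 409616) (nat_lit 10) (.e (nat_lit 7936) (nat_lit 299) .nil)))))) (.g (nat_lit 5) .nil .nil))))))) (.nd (nat_lit 3) (.nd (nat_lit 4) (.nd (nat_lit 5) (.nd (nat_lit 6) 
(.lf (nat_lit 131206) (.g (nat_lit 2561) (.e (nat_lit 8439) (nat_lit 138) (.e (nat_lit 1200) (nat_lit 88) (.e (nat_lit 65630) (nat_lit 14) (.e (nat_lit 401459) (nat_lit 13) (.e (nat_lit 483350) (nat_lit 17) .nil))))) .nil)) 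
(.lf (nat_lit 131270) (.g (nat_lit 2098) (.e (nat_lit 8446) (nat_lit 140) (.e (nat_lit 57400) (nat_lit 10) (.e (nat_lit 319530) (nat_lit 16) (.e (nat_lit 286761) (nat_lit 13) (.e (nat_lit 393264) (nat_lit 22) (.e (nat_lit 417804) (nat_lit 1) .nil)))))) (.g (nat_lit 0) .nil .nil)))) (.nd (nat_lit 6) 
(.lf (nat_lit 131238) (.g (nat_lit 1572) (.e (nat_lit 8443) (nat_lit 140) (.e (nat_lit 57445) (nat_lit 19) (.e (nat_lit 393296) (nat_lit 26) (.e (nat_lit 483072) (nat_lit 26) .nil)))) .nil)) 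
(.lf (nat_lit 131302) (.g (nat_lit 824) (.e (nat_lit 8446) (nat_lit 140) (.e (nat_lit 57445) (nat_lit 19) (.e (nat_lit 393293) (nat_lit 26) .nil))) .nil)))) (.nd (nat_lit 5) (.nd (nat_lit 6) 
(.lf (nat_lit 131222) (.g (nat_lit 1953) (.e (nat_lit 8439) (nat_lit 138) (.e (nat_lit 1221) (nat_lit 90) (.e (nat_lit 81959) (nat_lit 24) (.e (nat_lit 123229) (nat_lit 282) (.e (nat_lit 163896) (nat_lit 10) .nil))))) .nil)) 
(.lf (nat_lit 131286) (.g (nat_lit 625) (.e (nat_lit 8446) (nat_lit 140) (.e (nat_lit 57423) (nat_lit 14) (.e (nat_lit 360192) (nat_lit 4) .nil))) .nil))) (.nd (nat_lit 6) 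
(.lf (nat_lit 131254) (.g (nat_lit 3862) (.e (nat_lit 8445) (nat_lit 140) (.e (nat_lit 57427) (nat_lit 15) (.e (nat_lit 360474) (nat_lit 8) (.e (nat_lit 557060) (nat_lit 0) (.e (nat_lit 1633) (nat_lit 114) .nil))))) .nil)) 
(.lf (nat_lit 131318) (.g (nat_lit 2910) (.e (nat_lit 8484) (nat_lit 168) (.e (nat_lit 1200) (nat_lit 88) (.e (nat_lit 65630) (nat_lit 14) (.e (nat_lit 401459) (nat_lit 13) (.e (nat_lit 483371) (nat_lit 21) .nil))))) .nil))))) (.nd (nat_lit 4) (.nd (nat_lit 5) (.nd (nat_lit 6) 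
(.lf (nat_lit 131214) (.g (nat_lit 1902) (.e (nat_lit 8439) (nat_lit 138) (.e (nat_lit 1221) (nat_lit 90) (.e (nat_lit 81959) (nat_lit 24) (.e (nat_lit 123182) (nat_lit 264) .nil)))) .nil)) 
(.lf (nat_lit 131278) (.g (nat_lit 1202) (.e (nat_lit 8446) (nat_lit 140) (.e (nat_lit 57400) (nat_lit 10) (.e (nat_lit 319533) (nat_lit 16) (.e (nat_lit 286760) (nat_lit 13) .nil)))) .nil))) (.nd (nat_lit 6) 
(.lf (nat_lit 131246) (.g (nat_lit 933) (.e (nat_lit 8445) (nat_lit 140) (.e (nat_lit 57373) (nat_lit 2) (.e (nat_lit 90176) (nat_lit 15) .nil))) .nil)) 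
(.lf (nat_lit 131310) (.g (nat_lit 4468) (.e (nat_lit 8463) (nat_lit 146) (.e (nat_lit 57377) (nat_lit 3) (.e (nat_lit 98317) (nat_lit 9) (.e (nat_lit 336204) (nat_lit 12) .nil)))) .nil)))) (.nd (nat_lit 5) (.nd (nat_lit 6) 
(.lf (nat_lit 131230) (.g (nat_lit 2956) (.e (nat_lit 8443) (nat_lit 140) (.e (nat_lit 57399) (nat_lit 10) (.e (nat_lit 319530) (nat_lit 16) (.e (nat_lit 286761) (nat_lit 13) (.e (nat_lit 393234) (nat_lit 17) (.e (nat_lit 7065) (nat_lit 377) (.e (nat_lit 1112) (nat_lit 82) .nil))))))) (.g (nat_lit 7) .nil .nil))) 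
(.lf (nat_lit 131294) (.g (nat_lit 1869) (.e (nat_lit 8446) (nat_lit 140) (.e (nat_lit 57424) (nat_lit 14) (.e (nat_lit 352318) (nat_lit 24) (.e (nat_lit 123184) (nat_lit 264) (.e (nat_lit 1212) (nat_lit 89) .nil))))) .nil))) (.nd (nat_lit 6) 
(.lf (nat_lit 131262) (.g (nat_lit 2020) (.e (nat_lit 8446) (nat_lit 140) (.e (nat_lit 57378) (nat_lit 3) (.e (nat_lit 98365) (nat_lit 26) (.e (nat_lit 426325) (nat_lit 13) .nil)))) .nil)) 
(.lf (nat_lit 131326) (.g (nat_lit 1513) (.e (nat_lit 8490) (nat_lit 180) (.e (nat_lit 2777) (nat_lit 178) (.e (nat_lit 286735) (nat_lit 3) (.e (nat_lit 98350) (nat_lit 24) .nil)))) .nil)))))))) (.nd (nat_lit 1) (.nd (nat_lit 2) (.nd (nat_lit 3) (.nd (nat_lit 4) (.nd (nat_lit 5) (.nd (nat_lit 6) 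
(.lf (nat_lit 131201) (.g (nat_lit 2648) (.e (nat_lit 8439) (nat_lit 138) (.e (nat_lit 1200) (nat_lit 88) (.e (nat_lit 65628) (nat_lit 14) (.e (nat_lit 401459) (nat_lit 13) (.e (nat_lit 483374) (nat_lit 22) .nil))))) .nil)) 
(.lf (nat_lit 131265) (.g (nat_lit 1626) (.e (nat_lit 8446) (nat_lit 140) (.e (nat_lit 57399) (nat_lit 10) (.e (nat_lit 319531) (nat_lit 16) (.e (nat_lit 286761) (nat_lit 13) (.e (nat_lit 393264) (nat_lit 22) (.e (nat_lit 417804) (nat_lit 1) .nil)))))) (.g (nat_lit 4) .nil .nil)))) (.nd (nat_lit 6) 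
(.lf (nat_lit 131233) (.g (nat_lit 3364) (.e (nat_lit 8443) (nat_lit 140) (.e (nat_lit 57400) (nat_lit 10) (.e (nat_lit 319531) (nat_lit 16) (.e (nat_lit 286761) (nat_lit 13) (.e (nat_lit 393234) (nat_lit 17) (.e (nat_lit 7065) (nat_lit 377) (.e (nat_lit 1112) (nat_lit 82) .nil))))))) (.g (nat_lit 7) .nil .nil))) 
(.lf (nat_lit 131297) (.g (nat_lit 3176) (.e (nat_lit 8446) (nat_lit 140) (.e (nat_lit 57427) (nat_lit 15) (.e (nat_lit 360474) (nat_lit 8) (.e (nat_lit 557058) (nat_lit 0) .nil)))) .nil)))) (.nd (nat_lit 5) (.nd (nat_lit 6) 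
(.lf (nat_lit 131217) (.g (nat_lit 2567) (.e (nat_lit 8439) (nat_lit 138) (.e (nat_lit 1221) (nat_lit 90) (.e (nat_lit 81959) (nat_lit 24) (.e (nat_lit 123195) (nat_lit 266) (.e (nat_lit 57403) (nat_lit 11) .nil))))) .nil)) 
(.lf (nat_lit 131281) (.g (nat_lit 1794) (.e (nat_lit 8446) (nat_lit 140) (.e (nat_lit 57400) (nat_lit 10) (.e (nat_lit 319534) (nat_lit 16) (.e (nat_lit 286760) (nat_lit 13) .nil)))) .nil))) (.nd (nat_lit 6) 
(.lf (nat_lit 131249) (.g (nat_lit 934) (.e (nat_lit 8445) (nat_lit 140) (.e (nat_lit 57409) (nat_lit 12) (.e (nat_lit 336434) (nat_lit 30) (.e (nat_lit 450579) (nat_lit 5) .nil)))) .nil)) 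
(.lf (nat_lit 131313) (.g (nat_lit 3141) (.e (nat_lit 8484) (nat_lit 168) (.e (nat_lit 1190) (nat_lit 88) (.e (nat_lit 65630) (nat_lit 14) (.e (nat_lit 401459) (nat_lit 13) (.e (nat_lit 483371) (nat_lit 21) .nil))))) .nil))))) (.nd (nat_lit 4) (.nd (nat_lit 5) (.nd (nat_lit 6) 
(.lf (nat_lit 131209) (.g (nat_lit 1176) (.e (nat_lit 8439) (nat_lit 138) (.e (nat_lit 1209) (nat_lit 89) (.e (nat_lit 73782) (nat_lit 32) (.e (nat_lit 3090) (nat_lit 191) .nil)))) .nil)) 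
(.lf (nat_lit 131273) (.g (nat_lit 2061) (.e (nat_lit 8446) (nat_lit 140) (.e (nat_lit 57400) (nat_lit 10) (.e (nat_lit 319531) (nat_lit 16) (.e (nat_lit 286761) (nat_lit 13) (.e (nat_lit 393264) (nat_lit 22) (.e (nat_lit 417804) (nat_lit 1) .nil)))))) (.g (nat_lit 0) .nil .nil)))) (.nd (nat_lit 6) 
(.lf (nat_lit 131241) (.g (nat_lit 1519) (.e (nat_lit 8444) (nat_lit 140) (.e (nat_lit 57371) (nat_lit 2) (.e (nat_lit 90176) (nat_lit 15) (.e (nat_lit 188431) (nat_lit 20) .nil)))) .nil)) 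
(.lf (nat_lit 131305) (.g (nat_lit 2009) (.e (nat_lit 8446) (nat_lit 140) (.e (nat_lit 57447) (nat_lit 19) (.e (nat_lit 393300) (nat_lit 27) (.e (nat_lit 499456) (nat_lit 18) .nil)))) .nil)))) (.nd (nat_lit 5) (.nd (nat_lit 6) 
(.lf (nat_lit 131225) (.g (nat_lit 1040) (.e (nat_lit 8442) (nat_lit 140) (.e (nat_lit 57375) (nat_lit 2) (.e (nat_lit 90176) (nat_lit 15) (.e (nat_lit 188423) (nat_lit 11) .nil)))) .nil)) 
(.lf (nat_lit 131289) (.g (nat_lit 1552) (.e (nat_lit 8446) (nat_lit 140) (.e (nat_lit 57424) (nat_lit 14) (.e (nat_lit 352318) (nat_lit 24) (.e (nat_lit 123182) (nat_lit 264) .nil)))) .nil))) (.nd (nat_lit 6) 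
(.lf (nat_lit 131257) (.g (nat_lit 1576) (.e (nat_lit 8445) (nat_lit 140) (.e (nat_lit 57447) (nat_lit 19) (.e (nat_lit 393301) (nat_lit 27) (.e (nat_lit 499456) (nat_lit 18) .nil)))) .nil)) 
(.lf (nat_lit 131321) (.g (nat_lit 810) (.e (nat_lit 8490) (nat_lit 180) (.e (nat_lit 1361) (nat_lit 102) (.e (nat_lit 286761) (nat_lit 13) (.e (nat_lit 393260) (nat_lit 21) .nil)))) .nil)))))) (.nd (nat_lit 3) (.nd (nat_lit 4) (.nd (nat_lit 5) (.nd (nat_lit 6) 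
(.lf (nat_lit 131205) (.g (nat_lit 3316) (.e (nat_lit 8439) (nat_lit 138) (.e (nat_lit 1200) (nat_lit 88) (.e (nat_lit 65630) (nat_lit 14) (.e (nat_lit 401459) (nat_lit 13) (.e (nat_lit 483344) (nat_lit 17) (.e (nat_lit 6203) (nat_lit 332) (.e (nat_lit 2544) (nat_lit 158) .nil))))))) (.g (nat_lit 5) .nil .nil))) 
(.lf (nat_lit 131269) (.g (nat_lit 2202) (.e (nat_lit 8446) (nat_lit 140) (.e (nat_lit 57400) (nat_lit 10) (.e (nat_lit 319529) (nat_lit 16) (.e (nat_lit 286761) (nat_lit 13) (.e (nat_lit 393265) (nat_lit 22) (.e (nat_lit 417804) (nat_lit 1) .nil)))))) (.g (nat_lit 0) .nil .nil)))) (.nd (nat_lit 6) 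
(.lf (nat_lit 131237) (.g (nat_lit 3899) (.e (nat_lit 8443) (nat_lit 140) (.e (nat_lit 57427) (nat_lit 15) (.e (nat_lit 360474) (nat_lit 8) (.e (nat_lit 557060) (nat_lit 0) (.e (nat_lit 1633) (nat_lit 114) .nil))))) .nil)) 
(.lf (nat_lit 131301) (.g (nat_lit 1502) (.e (nat_lit 8446) (nat_lit 140) (.e (nat_lit 57427) (nat_lit 15) (.e (nat_lit 360474) (nat_lit 8) (.e (nat_lit 557091) (nat_lit 12) .nil)))) .nil)))) (.nd (nat_lit 5) (.nd (nat_lit 6) 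
(.lf (nat_lit 131221) (.g (nat_lit 1825) (.e (nat_lit 8439) (nat_lit 138) (.e (nat_lit 1221) (nat_lit 90) (.e (nat_lit 81959) (nat_lit 24) (.e (nat_lit 123218) (nat_lit 278) .nil)))) .nil)) 
(.lf (nat_lit 131285) (.g (nat_lit 1101) (.e (nat_lit 8446) (nat_lit 140) (.e (nat_lit 57412) (nat_lit 12) (.e (nat_lit 336226) (nat_lit 14) (.e (nat_lit 401459) (nat_lit 13) .nil)))) .nil))) (.nd (nat_lit 6) 
(.lf (nat_lit 131253) (.g (nat_lit 2781) (.e (nat_lit 8445) (nat_lit 140) (.e (nat_lit 57427) (nat_lit 15) (.e (nat_lit 360474) (nat_lit 8) (.e (nat_lit 557059) (nat_lit 0) (.e (nat_lit 1633) (nat_lit 114) .nil))))) .nil)) 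
(.lf (nat_lit 131317) (.g (nat_lit 2450) (.e (nat_lit 8484) (nat_lit 168) (.e (nat_lit 1200) (nat_lit 88) (.e (nat_lit 65628) (nat_lit 14) (.e (nat_lit 401459) (nat_lit 13) (.e (nat_lit 483371) (nat_lit 21) .nil))))) .nil))))) (.nd (nat_lit 4) (.nd (nat_lit 5) (.nd (nat_lit 6) 
(.lf (nat_lit 131213) (.g (nat_lit 2698) (.e (nat_lit 8439) (nat_lit 138) (.e (nat_lit 1221) (nat_lit 90) (.e (nat_lit 81956) (nat_lit 23) (.e (nat_lit 106240) (nat_lit 15) .nil)))) .nil)) 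
(.lf (nat_lit 131277) (.g (nat_lit 2893) (.e (nat_lit 8446) (nat_lit 140) (.e (nat_lit 57400) (nat_lit 10) (.e (nat_lit 319533) (nat_lit 16) (.e (nat_lit 286748) (nat_lit 9) (.e (nat_lit 336389) (nat_lit 27) .nil))))) .nil))) (.nd (nat_lit 6) 
(.lf (nat_lit 131245) (.g (nat_lit 699) (.e (nat_lit 8445) (nat_lit 140) (.e (nat_lit 57371) (nat_lit 2) (.e (nat_lit 90176) (nat_lit 15) .nil))) .nil)) 
(.lf (nat_lit 131309) (.g (nat_lit 4161) (.e (nat_lit 8463) (nat_lit 146) (.e (nat_lit 57377) (nat_lit 3) (.e (nat_lit 98317) (nat_lit 9) (.e (nat_lit 336184) (nat_lit 11) .nil)))) .nil)))) (.nd (nat_lit 5) (.nd (nat_lit 6) 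
(.lf (nat_lit 131229) (.g (nat_lit 933) (.e (nat_lit 8443) (nat_lit 140) (.e (nat_lit 57373) (nat_lit 2) (.e (nat_lit 90176) (nat_lit 15) .nil))) .nil)) 
(.lf (nat_lit 131293) (.g (nat_lit 2102) (.e (nat_lit 8446) (nat_lit 140) (.e (nat_lit 57424) (nat_lit 14) (.e (nat_lit 352318) (nat_lit 24) (.e (nat_lit 123183) (nat_lit 264) (.e (nat_lit 1212) (nat_lit 89) (.e (nat_lit 73787) (nat_lit 45) (.e (nat_lit 2538) (nat_lit 158) .nil))))))) (.g (nat_lit 4) .nil .nil)))) (.nd (nat_lit 6) 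
(.lf (nat_lit 131261) (.g (nat_lit 881) (.e (nat_lit 8446) (nat_lit 140) (.e (nat_lit 57373) (nat_lit 2) (.e (nat_lit 90178) (nat_lit 15) .nil))) .nil)) 
(.lf (nat_lit 131325) (.g (nat_lit 2290) (.e (nat_lit 8490) (nat_lit 180) (.e (nat_lit 2777) (nat_lit 178) (.e (nat_lit 286731) (nat_lit 1) (.e (nat_lit 57681) (nat_lit 155) (.e (nat_lit 122919) (nat_lit 15) (.e (nat_lit 360451) (nat_lit 0) (.e (nat_lit 7454) (nat_lit 396) (.e (nat_lit 1115) (nat_lit 82) .nil)))))))) (.g (nat_lit 4) .nil .nil)))))))) 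
(.nd (nat_lit 2) (.nd (nat_lit 3) (.nd (nat_lit 4) (.nd (nat_lit 5) (.nd (nat_lit 6) 
(.lf (nat_lit 131203) (.g (nat_lit 3637) (.e (nat_lit 8439) (nat_lit 138) (.e (nat_lit 1200) (nat_lit 88) (.e (nat_lit 65629) (nat_lit 14) (.e (nat_lit 401459) (nat_lit 13) (.e (nat_lit 483344) (nat_lit 17) (.e (nat_lit 6203) (nat_lit 332) (.e (nat_lit 2544) (nat_lit 158) .nil))))))) (.g (nat_lit 5) .nil .nil))) 
(.lf (nat_lit 131267) (.g (nat_lit 1815) (.e (nat_lit 8446) (nat_lit 140) (.e (nat_lit 57400) (nat_lit 10) (.e (nat_lit 319528) (nat_lit 16) (.e (nat_lit 286761) (nat_lit 13) (.e (nat_lit 393264) (nat_lit 22) (.e (nat_lit 417804) (nat_lit 1) .nil)))))) (.g (nat_lit 0) .nil .nil)))) (.nd (nat_lit 6) 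
(.lf (nat_lit 131235) (.g (nat_lit 3457) (.e (nat_lit 8443) (nat_lit 140) (.e (nat_lit 57427) (nat_lit 15) (.e (nat_lit 360474) (nat_lit 8) (.e (nat_lit 557058) (nat_lit 0) .nil)))) .nil)) 
(.lf (nat_lit 131299) (.g (nat_lit 3495) (.e (nat_lit 8446) (nat_lit 140) (.e (nat_lit 57427) (nat_lit 15) (.e (nat_lit 360474) (nat_lit 8) (.e (nat_lit 557059) (nat_lit 0) (.e (nat_lit 1633) (nat_lit 114) (.e (nat_lit 385115) (nat_lit 53) (.e (nat_lit 811043) (nat_lit 12) .nil))))))) (.g (nat_lit 6) .nil .nil))))) (.nd (nat_lit 5) (.nd (nat_lit 6) 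
(.lf (nat_lit 131219) (.g (nat_lit 3402) (.e (nat_lit 8439) (nat_lit 138) (.e (nat_lit 1221) (nat_lit 90) (.e (nat_lit 81959) (nat_lit 24) (.e (nat_lit 123195) (nat_lit 266) (.e (nat_lit 57417) (nat_lit 12) (.e (nat_lit 335874) (nat_lit 0) (.e (nat_lit 6202) (nat_lit 332) (.e (nat_lit 2543) (nat_lit 158) .nil)))))))) (.g (nat_lit 7) .nil .nil))) 
(.lf (nat_lit 131283) (.g (nat_lit 2526) (.e (nat_lit 8446) (nat_lit 140) (.e (nat_lit 57400) (nat_lit 10) (.e (nat_lit 319534) (nat_lit 16) (.e (nat_lit 286761) (nat_lit 13) (.e (nat_lit 393265) (nat_lit 22) (.e (nat_lit 417804) (nat_lit 1) .nil)))))) (.g (nat_lit 0) .nil .nil)))) (.nd (nat_lit 6) 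
(.lf (nat_lit 131251) (.g (nat_lit 722) (.e (nat_lit 8445) (nat_lit 140) (.e (nat_lit 57424) (nat_lit 14) (.e (nat_lit 360192) (nat_lit 4) .nil))) .nil)) 
(.lf (nat_lit 131315) (.g (nat_lit 2284) (.e (nat_lit 8484) (nat_lit 168) (.e (nat_lit 1199) (nat_lit 88) (.e (nat_lit 65628) (nat_lit 14) (.e (nat_lit 401459) (nat_lit 13) (.e (nat_lit 483371) (nat_lit 21) .nil))))) .nil))))) (.nd (nat_lit 4) (.nd (nat_lit 5) (.nd (nat_lit 6) 
(.lf (nat_lit 131211) (.g (nat_lit 473) (.e (nat_lit 8439) (nat_lit 138) (.e (nat_lit 1221) (nat_lit 90) (.e (nat_lit 89856) (nat_lit 5) .nil))) .nil)) 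
(.lf (nat_lit 131275) (.g (nat_lit 1654) (.e (nat_lit 8446) (nat_lit 140) (.e (nat_lit 57400) (nat_lit 10) (.e (nat_lit 319532) (nat_lit 16) (.e (nat_lit 286761) (nat_lit 13) (.e (nat_lit 393264) (nat_lit 22) (.e (nat_lit 417804) (nat_lit 1) .nil)))))) (.g (nat_lit 4) .nil .nil)))) (.nd (nat_lit 6) 
(.lf (nat_lit 131243) (.g (nat_lit 2428) (.e (nat_lit 8444) (nat_lit 140) (.e (nat_lit 57400) (nat_lit 10) (.e (nat_lit 319533) (nat_lit 16) (.e (nat_lit 286761) (nat_lit 13) (.e (nat_lit 393264) (nat_lit 22) .nil))))) .nil)) 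
(.lf (nat_lit 131307) (.g (nat_lit 1888) (.e (nat_lit 8446) (nat_lit 140) (.e (nat_lit 57447) (nat_lit 19) (.e (nat_lit 393301) (nat_lit 27) (.e (nat_lit 499456) (nat_lit 18) (.e (nat_lit 204848) (nat_lit 25) (.e (nat_lit 327710) (nat_lit 11) .nil)))))) (.g (nat_lit 5) .nil .nil))))) (.nd (nat_lit 5) (.nd (nat_lit 6) 
(.lf (nat_lit 131227) (.g (nat_lit 1610) (.e (nat_lit 8442) (nat_lit 140) (.e (nat_lit 57375) (nat_lit 2) (.e (nat_lit 90176) (nat_lit 15) (.e (nat_lit 188431) (nat_lit 20) (.e (nat_lit 3571) (nat_lit 222) .nil))))) .nil)) 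
(.lf (nat_lit 131291) (.g (nat_lit 2563) (.e (nat_lit 8446) (nat_lit 140) (.e (nat_lit 57424) (nat_lit 14) (.e (nat_lit 352318) (nat_lit 24) (.e (nat_lit 123182) (nat_lit 264) (.e (nat_lit 1214) (nat_lit 89) (.e (nat_lit 73786) (nat_lit 45) (.e (nat_lit 2538) (nat_lit 158) .nil))))))) (.g (nat_lit 4) .nil .nil)))) (.nd (nat_lit 6) 
(.lf (nat_lit 131259) (.g (nat_lit 933) (.e (nat_lit 8446) (nat_lit 140) (.e (nat_lit 57373) (nat_lit 2) (.e (nat_lit 90176) (nat_lit 15) .nil))) .nil)) 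
(.lf (nat_lit 131323) (.g (nat_lit 2953) (.e (nat_lit 8490) (nat_lit 180) (.e (nat_lit 1370) (nat_lit 103) (.e (nat_lit 294960) (nat_lit 13) (.e (nat_lit 393260) (nat_lit 21) (.e (nat_lit 409617) (nat_lit 10) (.e (nat_lit 7936) (nat_lit 299) .nil)))))) (.g (nat_lit 5) .nil .nil))))))) (.nd (nat_lit 3) (.nd (nat_lit 4) (.nd (nat_lit 5) (.nd (nat_lit 6) 
(.lf (nat_lit 131207) (.g (nat_lit 1030) (.e (nat_lit 8439) (nat_lit 138) (.e (nat_lit 1209) (nat_lit 89) (.e (nat_lit 73781) (nat_lit 32) (.e (nat_lit 2856) (nat_lit 184) .nil)))) .nil)) 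
(.lf (nat_lit 131271) (.g (nat_lit 2468) (.e (nat_lit 8446) (nat_lit 140) (.e (nat_lit 57400) (nat_lit 10) (.e (nat_lit 319530) (nat_lit 16) (.e (nat_lit 286761) (nat_lit 13) (.e (nat_lit 393265) (nat_lit 22) (.e (nat_lit 417804) (nat_lit 1) .nil)))))) (.g (nat_lit 0) .nil .nil)))) (.nd (nat_lit 6) 
(.lf (nat_lit 131239) (.g (nat_lit 2131) (.e (nat_lit 8443) (nat_lit 140) (.e (nat_lit 57447) (nat_lit 19) (.e (nat_lit 393260) (nat_lit 21) (.e (nat_lit 409616) (nat_lit 10) .nil)))) .nil)) 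
(.lf (nat_lit 131303) (.g (nat_lit 1218) (.e (nat_lit 8446) (nat_lit 140) (.e (nat_lit 57447) (nat_lit 19) (.e (nat_lit 393293) (nat_lit 26) .nil))) .nil)))) (.nd (nat_lit 5) (.nd (nat_lit 6) 
(.lf (nat_lit 131223) (.g (nat_lit 1323) (.e (nat_lit 8442) (nat_lit 140) (.e (nat_lit 57371) (nat_lit 2) (.e (nat_lit 90176) (nat_lit 15) (.e (nat_lit 188431) (nat_lit 20) .nil)))) .nil)) 
(.lf (nat_lit 131287) (.g (nat_lit 865) (.e (nat_lit 8446) (nat_lit 140) (.e (nat_lit 57424) (nat_lit 14) (.e (nat_lit 352262) (nat_lit 0) .nil))) .nil))) (.nd (nat_lit 6) 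
(.lf (nat_lit 131255) (.g (nat_lit 1198) (.e (nat_lit 8445) (nat_lit 140) (.e (nat_lit 57445) (nat_lit 19) (.e (nat_lit 393293) (nat_lit 26) (.e (nat_lit 483072) (nat_lit 26) .nil)))) .nil)) 
(.lf (nat_lit 131319) (.g (nat_lit 3051) (.e (nat_lit 8484) (nat_lit 168) (.e (nat_lit 1221) (nat_lit 90) (.e (nat_lit 81959) (nat_lit 24) (.e (nat_lit 123182) (nat_lit 264) (.e (nat_lit 1212) (nat_lit 89) .nil))))) .nil))))) (.nd (nat_lit 4) (.nd (nat_lit 5) (.nd (nat_lit 6) 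
(.lf (nat_lit 131215) (.g (nat_lit 2994) (.e (nat_lit 8439) (nat_lit 138) (.e (nat_lit 1221) (nat_lit 90) (.e (nat_lit 81959) (nat_lit 24) (.e (nat_lit 123182) (nat_lit 264) (.e (nat_lit 1212) (nat_lit 89) .nil))))) .nil)) 
(.lf (nat_lit 131279) (.g (nat_lit 2414) (.e (nat_lit 8446) (nat_lit 140) (.e (nat_lit 57400) (nat_lit 10) (.e (nat_lit 319533) (nat_lit 16) (.e (nat_lit 286760) (nat_lit 13) (.e (nat_lit 393265) (nat_lit 22) (.e (nat_lit 417804) (nat_lit 1) .nil)))))) (.g (nat_lit 0) .nil .nil)))) (.nd (nat_lit 6) 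
(.lf (nat_lit 131247) (.g (nat_lit 1471) (.e (nat_lit 8445) (nat_lit 140) (.e (nat_lit 57399) (nat_lit 10) (.e (nat_lit 319530) (nat_lit 16) (.e (nat_lit 286761) (nat_lit 13) (.e (nat_lit 393264) (nat_lit 22) (.e (nat_lit 417804) (nat_lit 1) .nil)))))) (.g (nat_lit 4) .nil .nil))) 
(.lf (nat_lit 131311) (.g (nat_lit 607) (.e (nat_lit 8469) (nat_lit 148) (.e (nat_lit 163920) (nat_lit 14) (.e (nat_lit 442382) (nat_lit 8) .nil))) .nil)))) (.nd (nat_lit 5) (.nd (nat_lit 6) 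
(.lf (nat_lit 131231) (.g (nat_lit 639) (.e (nat_lit 8443) (nat_lit 140) (.e (nat_lit 57400) (nat_lit 10) (.e (nat_lit 319528) (nat_lit 16) (.e (nat_lit 286761) (nat_lit 13) .nil)))) .nil)) 
(.lf (nat_lit 131295) (.g (nat_lit 2184) (.e (nat_lit 8446) (nat_lit 140) (.e (nat_lit 57424) (nat_lit 14) (.e (nat_lit 352318) (nat_lit 24) (.e (nat_lit 123184) (nat_lit 264) (.e (nat_lit 1212) (nat_lit 89) (.e (nat_lit 73787) (nat_lit 45) (.e (nat_lit 2538) (nat_lit 158) .nil))))))) (.g (nat_lit 4) .nil .nil)))) (.nd (nat_lit 6) 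
(.lf (nat_lit 131263) (.g (nat_lit 2643) (.e (nat_lit 8446) (nat_lit 140) (.e (nat_lit 57399) (nat_lit 10) (.e (nat_lit 319530) (nat_lit 16) (.e (nat_lit 286761) (nat_lit 13) (.e (nat_lit 393234) (nat_lit 17) (.e (nat_lit 7065) (nat_lit 377) (.e (nat_lit 1115) (nat_lit 82) .nil))))))) (.g (nat_lit 6) .nil .nil))) 
(.lf (nat_lit 131327) (.g (nat_lit 685) (.e (nat_lit 8495) (nat_lit 180) (.e (nat_lit 1353) (nat_lit 102) (.e (nat_lit 286734) (nat_lit 3) (.e (nat_lit 98373) (nat_lit 29) .nil)))) .nil)))))))))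

noncomputable def tv1751 : DT := (.nd (nat_lit 0) (.nd (nat_lit 1) (.nd (nat_lit 2) (.nd (nat_lit 3) (.nd (nat_lit 4) (.nd (nat_lit 5) (.nd (nat_lit 6) 
(.lf (nat_lit 131328) (.g (nat_lit 3171) (.e (nat_lit 16128) (nat_lit 180) (.e (nat_lit 1348) (nat_lit 102) (.e (nat_lit 286733) (nat_lit 2) (.e (nat_lit 90170) (nat_lit 13) (.e (nat_lit 172113) (nat_lit 10) .nil))))) .nil)) 
(.lf (nat_lit 131392) (.g (nat_lit 2305) (.e (nat_lit 16128) (nat_lit 194) (.e (nat_lit 57478) (nat_lit 28) (.e (nat_lit 557100) (nat_lit 13) (.e (nat_lit 172065) (nat_lit 3) (.e (nat_lit 204809) (nat_lit 9) .nil))))) .nil))) (.nd (nat_lit 6) 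
(.lf (nat_lit 131360) (.g (nat_lit 474) (.e (nat_lit 8499) (nat_lit 183) (.e (nat_lit 164358) (nat_lit 246) (.e (nat_lit 292) (nat_lit 21) .nil))) .nil)) 
(.lf (nat_lit 131424) (.g (nat_lit 1919) (.e (nat_lit 16128) (nat_lit 196) (.e (nat_lit 73747) (nat_lit 3) (.e (nat_lit 516171) (nat_lit 13) (.e (nat_lit 458774) (nat_lit 18) (.e (nat_lit 5964) (nat_lit 324) .nil))))) .nil)))) (.nd (nat_lit 5) (.nd (nat_lit 6) 
(.lf (nat_lit 131344) (.g (nat_lit 2137) (.e (nat_lit 16128) (nat_lit 180) (.e (nat_lit 1349) (nat_lit 102) (.e (nat_lit 286733) (nat_lit 2) (.e (nat_lit 90178) (nat_lit 15) (.e (nat_lit 188440) (nat_lit 20) .nil))))) .nil)) 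
(.lf (nat_lit 131408) (.g (nat_lit 772) (.e (nat_lit 16128) (nat_lit 196) (.e (nat_lit 73746) (nat_lit 3) (.e (nat_lit 516148) (nat_lit 9) .nil))) .nil))) (.nd (nat_lit 6) 
(.lf (nat_lit 131376) (.g (nat_lit 478) (.e (nat_lit 8517) (nat_lit 191) (.e (nat_lit 1638) (nat_lit 114) (.e (nat_lit 392960) (nat_lit 2) .nil))) .nil)) 
(.lf (nat_lit 131440) (.g (nat_lit 2078) (.e (nat_lit 8534) (nat_lit 225) (.e (nat_lit 1365) (nat_lit 103) (.e (nat_lit 294959) (nat_lit 13) (.e (nat_lit 393260) (nat_lit 21) (.e (nat_lit 409617) (nat_lit 10) (.e (nat_lit 7936) (nat_lit 313) .nil)))))) (.g (nat_lit 5) .nil .nil)))))) (.nd (nat_lit 4) (.nd (nat_lit 5) (.nd (nat_lit 6) 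
(.lf (nat_lit 131336) (.g (nat_lit 432) (.e (nat_lit 16128) (nat_lit 180) (.e (nat_lit 1348) (nat_lit 102) (.e (nat_lit 286761) (nat_lit 13) .nil))) .nil)) 
(.lf (nat_lit 131400) (.g (nat_lit 1972) (.e (nat_lit 16128) (nat_lit 194) (.e (nat_lit 57480) (nat_lit 28) (.e (nat_lit 557098) (nat_lit 13) (.e (nat_lit 172067) (nat_lit 3) (.e (nat_lit 204809) (nat_lit 9) .nil))))) .nil))) (.nd (nat_lit 6) 
(.lf (nat_lit 131368) (.g (nat_lit 2014) (.e (nat_lit 8511) (nat_lit 189) (.e (nat_lit 163905) (nat_lit 12) (.e (nat_lit 426568) (nat_lit 34) (.e (nat_lit 393301) (nat_lit 27) .nil)))) .nil)) 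
(.lf (nat_lit 131432) (.g (nat_lit 2004) (.e (nat_lit 16128) (nat_lit 208) (.e (nat_lit 164238) (nat_lit 187) (.e (nat_lit 1234) (nat_lit 91) (.e (nat_lit 90170) (nat_lit 13) (.e (nat_lit 172113) (nat_lit 10) .nil))))) .nil)))) (.nd (nat_lit 5) (.nd (nat_lit 6) 
(.lf (nat_lit 131352) (.g (nat_lit 2706) (.e (nat_lit 16128) (nat_lit 180) (.e (nat_lit 1349) (nat_lit 102) (.e (nat_lit 286761) (nat_lit 13) (.e (nat_lit 393234) (nat_lit 17) (.e (nat_lit 7118) (nat_lit 381) .nil))))) .nil)) 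
(.lf (nat_lit 131416) (.g (nat_lit 694) (.e (nat_lit 16128) (nat_lit 196) (.e (nat_lit 73746) (nat_lit 3) (.e (nat_lit 516171) (nat_lit 13) .nil))) .nil))) (.nd (nat_lit 6) 
(.lf (nat_lit 131384) (.g (nat_lit 1274) (.e (nat_lit 16128) (nat_lit 191) (.e (nat_lit 1669) (nat_lit 116) (.e (nat_lit 401459) (nat_lit 13) (.e (nat_lit 483372) (nat_lit 21) .nil)))) .nil)) 
(.lf (nat_lit 131448) (.g (nat_lit 3393) (.e (nat_lit 16128) (nat_lit 225) (.e (nat_lit 1348) (nat_lit 102) (.e (nat_lit 286761) (nat_lit 13) (.e (nat_lit 393234) (nat_lit 17) (.e (nat_lit 7118) (nat_lit 381) .nil))))) .nil)))))) (.nd (nat_lit 3) (.nd (nat_lit 4) (.nd (nat_lit 5) (.nd (nat_lit 6) 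
(.lf (nat_lit 131332) (.g (nat_lit 2567) (.e (nat_lit 16128) (nat_lit 180) (.e (nat_lit 1348) (nat_lit 102) (.e (nat_lit 286735) (nat_lit 3) (.e (nat_lit 98323) (nat_lit 17) (.e (nat_lit 7936) (nat_lit 393) .nil))))) .nil)) 
(.lf (nat_lit 131396) (.g (nat_lit 2068) (.e (nat_lit 16128) (nat_lit 194) (.e (nat_lit 57479) (nat_lit 28) (.e (nat_lit 557100) (nat_lit 13) (.e (nat_lit 172065) (nat_lit 3) .nil)))) .nil))) (.nd (nat_lit 6) 
(.lf (nat_lit 131364) (.g (nat_lit 1528) (.e (nat_lit 16128) (nat_lit 183) (.e (nat_lit 164358) (nat_lit 246) (.e (nat_lit 226) (nat_lit 21) (.e (nat_lit 336443) (nat_lit 32) (.e (nat_lit 466977) (nat_lit 22) .nil))))) .nil)) 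
(.lf (nat_lit 131428) (.g (nat_lit 2458) (.e (nat_lit 8524) (nat_lit 205) (.e (nat_lit 3067) (nat_lit 190) (.e (nat_lit 475185) (nat_lit 29) (.e (nat_lit 557107) (nat_lit 15) .nil)))) .nil)))) (.nd (nat_lit 5) (.nd (nat_lit 6) 
(.lf (nat_lit 131348) (.g (nat_lit 1322) (.e (nat_lit 16128) (nat_lit 180) (.e (nat_lit 1349) (nat_lit 102) (.e (nat_lit 286735) (nat_lit 3) (.e (nat_lit 98372) (nat_lit 29) .nil)))) .nil)) 
(.lf (nat_lit 131412) (.g (nat_lit 1580) (.e (nat_lit 16128) (nat_lit 196) (.e (nat_lit 73746) (nat_lit 3) (.e (nat_lit 516160) (nat_lit 10) (.e (nat_lit 434276) (nat_lit 39) .nil)))) .nil))) (.nd (nat_lit 6) 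
(.lf (nat_lit 131380) (.g (nat_lit 2656) (.e (nat_lit 8517) (nat_lit 191) (.e (nat_lit 1661) (nat_lit 115) (.e (nat_lit 393260) (nat_lit 21) (.e (nat_lit 409649) (nat_lit 18) (.e (nat_lit 303111) (nat_lit 0) .nil))))) .nil)) 
(.lf (nat_lit 131444) (.g (nat_lit 701) (.e (nat_lit 8536) (nat_lit 225) (.e (nat_lit 1348) (nat_lit 102) (.e (nat_lit 286761) (nat_lit 13) .nil))) .nil))))) (.nd (nat_lit 4) (.nd (nat_lit 5) (.nd (nat_lit 6) 
(.lf (nat_lit 131340) (.g (nat_lit 2748) (.e (nat_lit 16128) (nat_lit 180) (.e (nat_lit 1348) (nat_lit 102) (.e (nat_lit 286761) (nat_lit 13) (.e (nat_lit 393265) (nat_lit 22) (.e (nat_lit 417821) (nat_lit 10) .nil))))) .nil)) 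
(.lf (nat_lit 131404) (.g (nat_lit 892) (.e (nat_lit 16128) (nat_lit 195) (.e (nat_lit 65571) (nat_lit 3) (.e (nat_lit 98368) (nat_lit 27) .nil))) .nil))) (.nd (nat_lit 6) 
(.lf (nat_lit 131372) (.g (nat_lit 3557) (.e (nat_lit 8514) (nat_lit 191) (.e (nat_lit 1656) (nat_lit 115) (.e (nat_lit 393301) (nat_lit 27) (.e (nat_lit 491560) (nat_lit 10) (.e (nat_lit 344178) (nat_lit 44) .nil))))) .nil)) 
(.lf (nat_lit 131436) (.g (nat_lit 485) (.e (nat_lit 8533) (nat_lit 225) (.e (nat_lit 1370) (nat_lit 103) (.e (nat_lit 294941) (nat_lit 9) .nil))) .nil)))) (.nd (nat_lit 5) (.nd (nat_lit 6) 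
(.lf (nat_lit 131356) (.g (nat_lit 3500) (.e (nat_lit 8497) (nat_lit 182) (.e (nat_lit 123207) (nat_lit 270) (.e (nat_lit 1661) (nat_lit 115) (.e (nat_lit 393260) (nat_lit 21) (.e (nat_lit 409616) (nat_lit 10) (.e (nat_lit 7936) (nat_lit 299) .nil)))))) (.g (nat_lit 5) .nil .nil))) 
(.lf (nat_lit 131420) (.g (nat_lit 1060) (.e (nat_lit 16128) (nat_lit 196) (.e (nat_lit 73747) (nat_lit 3) (.e (nat_lit 516159) (nat_lit 10) (.e (nat_lit 434275) (nat_lit 39) .nil)))) .nil))) (.nd (nat_lit 6) 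
(.lf (nat_lit 131388) (.g (nat_lit 1920) (.e (nat_lit 16128) (nat_lit 194) (.e (nat_lit 57476) (nat_lit 28) (.e (nat_lit 557103) (nat_lit 14) (.e (nat_lit 180244) (nat_lit 5) (.e (nat_lit 532579) (nat_lit 26) .nil))))) .nil)) 
(.lf (nat_lit 131452) (.g (nat_lit 1206) (.e (nat_lit 16128) (nat_lit 225) (.e (nat_lit 1348) (nat_lit 102) (.e (nat_lit 286761) (nat_lit 13) (.e (nat_lit 393264) (nat_lit 22) .nil)))) .nil))))))) (.nd (nat_lit 2) (.nd (nat_lit 3) (.nd (nat_lit 4) (.nd (nat_lit 5) (.nd (nat_lit 6) 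
(.lf (nat_lit 131330) (.g (nat_lit 1827) (.e (nat_lit 16128) (nat_lit 180) (.e (nat_lit 1348) (nat_lit 102) (.e (nat_lit 286734) (nat_lit 3) (.e (nat_lit 98372) (nat_lit 29) (.e (nat_lit 450586) (nat_lit 10) .nil))))) .nil)) 
(.lf (nat_lit 131394) (.g (nat_lit 274) (.e (nat_lit 16128) (nat_lit 194) (.e (nat_lit 57479) (nat_lit 28) (.e (nat_lit 557100) (nat_lit 13) .nil))) .nil))) (.nd (nat_lit 6) 
(.lf (nat_lit 131362) (.g (nat_lit 734) (.e (nat_lit 16128) (nat_lit 183) (.e (nat_lit 164354) (nat_lit 246) (.e (nat_lit 226) (nat_lit 21) (.e (nat_lit 336443) (nat_lit 32) .nil)))) .nil)) 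
(.lf (nat_lit 131426) (.g (nat_lit 3492) (.e (nat_lit 8524) (nat_lit 205) (.e (nat_lit 3065) (nat_lit 190) (.e (nat_lit 475185) (nat_lit 29) (.e (nat_lit 557100) (nat_lit 13) (.e (nat_lit 172113) (nat_lit 10) .nil))))) .nil)))) (.nd (nat_lit 5) (.nd (nat_lit 6) 
(.lf (nat_lit 131346) (.g (nat_lit 1096) (.e (nat_lit 16128) (nat_lit 180) (.e (nat_lit 1349) (nat_lit 102) (.e (nat_lit 286734) (nat_lit 3) (.e (nat_lit 98373) (nat_lit 29) .nil)))) .nil)) 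
(.lf (nat_lit 131410) (.g (nat_lit 772) (.e (nat_lit 16128) (nat_lit 196) (.e (nat_lit 73746) (nat_lit 3) (.e (nat_lit 516160) (nat_lit 10) .nil))) .nil))) (.nd (nat_lit 6) 
(.lf (nat_lit 131378) (.g (nat_lit 2703) (.e (nat_lit 8517) (nat_lit 191) (.e (nat_lit 1659) (nat_lit 115) (.e (nat_lit 393301) (nat_lit 27) (.e (nat_lit 491560) (nat_lit 10) (.e (nat_lit 344094) (nat_lit 18) .nil))))) .nil)) 
(.lf (nat_lit 131442) (.g (nat_lit 1538) (.e (nat_lit 8534) (nat_lit 225) (.e (nat_lit 1367) (nat_lit 103) (.e (nat_lit 294958) (nat_lit 13) (.e (nat_lit 393238) (nat_lit 17) (.e (nat_lit 7101) (nat_lit 380) .nil))))) .nil))))) (.nd (nat_lit 4) (.nd (nat_lit 5) (.nd (nat_lit 6) 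
(.lf (nat_lit 131338) (.g (nat_lit 1206) (.e (nat_lit 16128) (nat_lit 180) (.e (nat_lit 1348) (nat_lit 102) (.e (nat_lit 286761) (nat_lit 13) (.e (nat_lit 393264) (nat_lit 22) .nil)))) .nil)) 
(.lf (nat_lit 131402) (.g (nat_lit 2421) (.e (nat_lit 16128) (nat_lit 194) (.e (nat_lit 57480) (nat_lit 28) (.e (nat_lit 557104) (nat_lit 14) (.e (nat_lit 180244) (nat_lit 5) (.e (nat_lit 532579) (nat_lit 26) .nil))))) .nil))) (.nd (nat_lit 6) 
(.lf (nat_lit 131370) (.g (nat_lit 1989) (.e (nat_lit 8514) (nat_lit 191) (.e (nat_lit 1656) (nat_lit 115) (.e (nat_lit 393301) (nat_lit 27) (.e (nat_lit 491558) (nat_lit 10) .nil)))) .nil)) 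
(.lf (nat_lit 131434) (.g (nat_lit 685) (.e (nat_lit 8533) (nat_lit 225) (.e (nat_lit 1348) (nat_lit 102) (.e (nat_lit 286761) (nat_lit 13) .nil))) .nil)))) (.nd (nat_lit 5) (.nd (nat_lit 6) 
(.lf (nat_lit 131354) (.g (nat_lit 1657) (.e (nat_lit 16128) (nat_lit 180) (.e (nat_lit 1365) (nat_lit 103) (.e (nat_lit 294928) (nat_lit 2) (.e (nat_lit 90170) (nat_lit 13) (.e (nat_lit 172113) (nat_lit 10) .nil))))) .nil)) 
(.lf (nat_lit 131418) (.g (nat_lit 1727) (.e (nat_lit 16128) (nat_lit 196) (.e (nat_lit 73746) (nat_lit 3) (.e (nat_lit 516179) (nat_lit 15) (.e (nat_lit 475220) (nat_lit 44) .nil)))) .nil))) (.nd (nat_lit 6) 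
(.lf (nat_lit 131386) (.g (nat_lit 1834) (.e (nat_lit 16128) (nat_lit 193) (.e (nat_lit 16473) (nat_lit 14) (.e (nat_lit 491560) (nat_lit 10) (.e (nat_lit 344088) (nat_lit 18) .nil)))) .nil)) 
(.lf (nat_lit 131450) (.g (nat_lit 1712) (.e (nat_lit 16128) (nat_lit 225) (.e (nat_lit 1348) (nat_lit 102) (.e (nat_lit 286761) (nat_lit 13) (.e (nat_lit 393263) (nat_lit 22) .nil)))) .nil)))))) (.nd (nat_lit 3) (.nd (nat_lit 4) (.nd (nat_lit 5) (.nd (nat_lit 6) 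
(.lf (nat_lit 131334) (.g (nat_lit 815) (.e (nat_lit 16128) (nat_lit 180) (.e (nat_lit 1348) (nat_lit 102) (.e (nat_lit 286735) (nat_lit 3) (.e (nat_lit 98373) (nat_lit 29) (.e (nat_lit 450563) (nat_lit 0) .nil))))) .nil)) 
(.lf (nat_lit 131398) (.g (nat_lit 3166) (.e (nat_lit 16128) (nat_lit 194) (.e (nat_lit 57479) (nat_lit 28) (.e (nat_lit 557100) (nat_lit 13) (.e (nat_lit 172067) (nat_lit 3) (.e (nat_lit 204809) (nat_lit 9) .nil))))) .nil))) (.nd (nat_lit 6) 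
(.lf (nat_lit 131366) (.g (nat_lit 1214) (.e (nat_lit 16128) (nat_lit 183) (.e (nat_lit 164358) (nat_lit 246) (.e (nat_lit 351) (nat_lit 28) (.e (nat_lit 393281) (nat_lit 23) (.e (nat_lit 426116) (nat_lit 2) .nil))))) .nil)) 
(.lf (nat_lit 131430) (.g (nat_lit 2836) (.e (nat_lit 8525) (nat_lit 205) (.e (nat_lit 3067) (nat_lit 190) (.e (nat_lit 475185) (nat_lit 29) (.e (nat_lit 557100) (nat_lit 13) (.e (nat_lit 172106) (nat_lit 10) .nil))))) .nil)))) (.nd (nat_lit 5) (.nd (nat_lit 6) 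
(.lf (nat_lit 131350) (.g (nat_lit 536) (.e (nat_lit 16128) (nat_lit 180) (.e (nat_lit 1349) (nat_lit 102) (.e (nat_lit 286739) (nat_lit 7) .nil))) .nil)) 
(.lf (nat_lit 131414) (.g (nat_lit 1399) (.e (nat_lit 16128) (nat_lit 196) (.e (nat_lit 73746) (nat_lit 3) (.e (nat_lit 516169) (nat_lit 13) (.e (nat_lit 458772) (nat_lit 18) .nil)))) .nil))) (.nd (nat_lit 6) 
(.lf (nat_lit 131382) (.g (nat_lit 2896) (.e (nat_lit 16128) (nat_lit 191) (.e (nat_lit 1661) (nat_lit 115) (.e (nat_lit 393260) (nat_lit 21) (.e (nat_lit 409649) (nat_lit 18) (.e (nat_lit 303111) (nat_lit 0) .nil))))) .nil)) 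
(.lf (nat_lit 131446) (.g (nat_lit 432) (.e (nat_lit 16128) (nat_lit 225) (.e (nat_lit 1348) (nat_lit 102) (.e (nat_lit 286761) (nat_lit 13) .nil))) .nil))))) (.nd (nat_lit 4) (.nd (nat_lit 5) (.nd (nat_lit 6) 
(.lf (nat_lit 131342) (.g (nat_lit 2329) (.e (nat_lit 16128) (nat_lit 180) (.e (nat_lit 1348) (nat_lit 102) (.e (nat_lit 286761) (nat_lit 13) (.e (nat_lit 393293) (nat_lit 26) (.e (nat_lit 475192) (nat_lit 37) .nil))))) .nil)) 
(.lf (nat_lit 131406) (.g (nat_lit 2025) (.e (nat_lit 16128) (nat_lit 196) (.e (nat_lit 73746) (nat_lit 3) (.e (nat_lit 516146) (nat_lit 9) (.e (nat_lit 425986) (nat_lit 0) (.e (nat_lit 2430) (nat_lit 157) .nil))))) .nil))) (.nd (nat_lit 6) 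
(.lf (nat_lit 131374) (.g (nat_lit 2119) (.e (nat_lit 8515) (nat_lit 191) (.e (nat_lit 1659) (nat_lit 115) (.e (nat_lit 393301) (nat_lit 27) (.e (nat_lit 491558) (nat_lit 10) (.e (nat_lit 352000) (nat_lit 44) .nil))))) .nil)) 
(.lf (nat_lit 131438) (.g (nat_lit 3145) (.e (nat_lit 8533) (nat_lit 225) (.e (nat_lit 1370) (nat_lit 103) (.e (nat_lit 294960) (nat_lit 13) (.e (nat_lit 393260) (nat_lit 21) (.e (nat_lit 409617) (nat_lit 10) (.e (nat_lit 7936) (nat_lit 313) .nil)))))) (.g (nat_lit 5) .nil .nil))))) (.nd (nat_lit 5) (.nd (nat_lit 6) 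
(.lf (nat_lit 131358) (.g (nat_lit 1265) (.e (nat_lit 8499) (nat_lit 183) (.e (nat_lit 164356) (nat_lit 246) (.e (nat_lit 351) (nat_lit 28) (.e (nat_lit 393281) (nat_lit 23) (.e (nat_lit 426114) (nat_lit 2) .nil))))) .nil)) 
(.lf (nat_lit 131422) (.g (nat_lit 727) (.e (nat_lit 16128) (nat_lit 196) (.e (nat_lit 73747) (nat_lit 3) (.e (nat_lit 516169) (nat_lit 13) .nil))) .nil))) (.nd (nat_lit 6) 
(.lf (nat_lit 131390) (.g (nat_lit 1997) (.e (nat_lit 16128) (nat_lit 194) (.e (nat_lit 57477) (nat_lit 28) (.e (nat_lit 557104) (nat_lit 14) (.e (nat_lit 180244) (nat_lit 5) (.e (nat_lit 532579) (nat_lit 26) .nil))))) .nil)) 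
(.lf (nat_lit 131454) (.g (nat_lit 2142) (.e (nat_lit 16128) (nat_lit 225) (.e (nat_lit 1348) (nat_lit 102) (.e (nat_lit 286761) (nat_lit 13) (.e (nat_lit 393264) (nat_lit 22) (.e (nat_lit 417816) (nat_lit 10) .nil))))) .nil)))))))) (.nd (nat_lit 1) (.nd (nat_lit 2) (.nd (nat_lit 3) (.nd (nat_lit 4) (.nd (nat_lit 5) (.nd (nat_lit 6) 
(.lf (nat_lit 131329) (.g (nat_lit 1754) (.e (nat_lit 16128) (nat_lit 180) (.e (nat_lit 1348) (nat_lit 102) (.e (nat_lit 286733) (nat_lit 2) (.e (nat_lit 90178) (nat_lit 15) (.e (nat_lit 188440) (nat_lit 20) .nil))))) .nil)) 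
(.lf (nat_lit 131393) (.g (nat_lit 2892) (.e (nat_lit 16128) (nat_lit 194) (.e (nat_lit 57478) (nat_lit 28) (.e (nat_lit 557100) (nat_lit 13) (.e (nat_lit 172067) (nat_lit 3) (.e (nat_lit 204809) (nat_lit 9) .nil))))) .nil))) (.nd (nat_lit 6) 
(.lf (nat_lit 131361) (.g (nat_lit 1056) (.e (nat_lit 8499) (nat_lit 183) (.e (nat_lit 164358) (nat_lit 246) (.e (nat_lit 351) (nat_lit 28) (.e (nat_lit 393281) (nat_lit 23) (.e (nat_lit 426115) (nat_lit 2) .nil))))) .nil)) 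
(.lf (nat_lit 131425) (.g (nat_lit 1718) (.e (nat_lit 8524) (nat_lit 205) (.e (nat_lit 2856) (nat_lit 184) (.e (nat_lit 426566) (nat_lit 34) (.e (nat_lit 393253) (nat_lit 18) .nil)))) .nil)))) (.nd (nat_lit 5) (.nd (nat_lit 6) 
(.lf (nat_lit 131345) (.g (nat_lit 2051) (.e (nat_lit 16128) (nat_lit 180) (.e (nat_lit 1349) (nat_lit 102) (.e (nat_lit 286734) (nat_lit 3) (.e (nat_lit 98359) (nat_lit 26) (.e (nat_lit 426286) (nat_lit 10) .nil))))) .nil)) 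
(.lf (nat_lit 131409) (.g (nat_lit 1588) (.e (nat_lit 16128) (nat_lit 196) (.e (nat_lit 73746) (nat_lit 3) (.e (nat_lit 516159) (nat_lit 10) (.e (nat_lit 434275) (nat_lit 39) (.e (nat_lit 663580) (nat_lit 9) .nil))))) .nil))) (.nd (nat_lit 6) 
(.lf (nat_lit 131377) (.g (nat_lit 2114) (.e (nat_lit 8517) (nat_lit 191) (.e (nat_lit 1659) (nat_lit 115) (.e (nat_lit 393301) (nat_lit 27) (.e (nat_lit 491558) (nat_lit 10) (.e (nat_lit 352000) (nat_lit 44) .nil))))) .nil)) 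
(.lf (nat_lit 131441) (.g (nat_lit 2098) (.e (nat_lit 8534) (nat_lit 225) (.e (nat_lit 1366) (nat_lit 103) (.e (nat_lit 294959) (nat_lit 13) (.e (nat_lit 393260) (nat_lit 21) (.e (nat_lit 409617) (nat_lit 10) (.e (nat_lit 7936) (nat_lit 313) .nil)))))) (.g (nat_lit 5) .nil .nil)))))) (.nd (nat_lit 4) (.nd (nat_lit 5) (.nd (nat_lit 6) 
(.lf (nat_lit 131337) (.g (nat_lit 2410) (.e (nat_lit 16128) (nat_lit 180) (.e (nat_lit 1348) (nat_lit 102) (.e (nat_lit 286761) (nat_lit 13) (.e (nat_lit 393234) (nat_lit 17) (.e (nat_lit 7065) (nat_lit 377) .nil))))) .nil)) 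
(.lf (nat_lit 131401) (.g (nat_lit 2067) (.e (nat_lit 16128) (nat_lit 194) (.e (nat_lit 57480) (nat_lit 28) (.e (nat_lit 557103) (nat_lit 14) (.e (nat_lit 180244) (nat_lit 5) (.e (nat_lit 532579) (nat_lit 26) .nil))))) .nil))) (.nd (nat_lit 6) 
(.lf (nat_lit 131369) (.g (nat_lit 1717) (.e (nat_lit 8514) (nat_lit 191) (.e (nat_lit 1656) (nat_lit 115) (.e (nat_lit 393234) (nat_lit 17) (.e (nat_lit 7593) (nat_lit 407) (.e (nat_lit 73774) (nat_lit 26) .nil))))) .nil)) 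
(.lf (nat_lit 131433) (.g (nat_lit 1831) (.e (nat_lit 16128) (nat_lit 209) (.e (nat_lit 172133) (nat_lit 15) (.e (nat_lit 1856) (nat_lit 124) (.e (nat_lit 557100) (nat_lit 13) (.e (nat_lit 172106) (nat_lit 10) .nil))))) .nil)))) (.nd (nat_lit 5) (.nd (nat_lit 6) 
(.lf (nat_lit 131353) (.g (nat_lit 1416) (.e (nat_lit 16128) (nat_lit 180) (.e (nat_lit 1349) (nat_lit 102) (.e (nat_lit 286761) (nat_lit 13) (.e (nat_lit 393265) (nat_lit 22) .nil)))) .nil)) 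
(.lf (nat_lit 131417) (.g (nat_lit 772) (.e (nat_lit 16128) (nat_lit 196) (.e (nat_lit 73746) (nat_lit 3) (.e (nat_lit 516172) (nat_lit 13) .nil))) .nil))) (.nd (nat_lit 6) 
(.lf (nat_lit 131385) (.g (nat_lit 511) (.e (nat_lit 16128) (nat_lit 193) (.e (nat_lit 16473) (nat_lit 14) (.e (nat_lit 491560) (nat_lit 10) .nil))) .nil)) 
(.lf (nat_lit 131449) (.g (nat_lit 1627) (.e (nat_lit 16128) (nat_lit 225) (.e (nat_lit 1348) (nat_lit 102) (.e (nat_lit 286761) (nat_lit 13) (.e (nat_lit 393262) (nat_lit 22) .nil)))) .nil)))))) (.nd (nat_lit 3) (.nd (nat_lit 4) (.nd (nat_lit 5) (.nd (nat_lit 6) 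
(.lf (nat_lit 131333) (.g (nat_lit 1008) (.e (nat_lit 16128) (nat_lit 180) (.e (nat_lit 1348) (nat_lit 102) (.e (nat_lit 286735) (nat_lit 3) (.e (nat_lit 98373) (nat_lit 29) (.e (nat_lit 450562) (nat_lit 0) .nil))))) .nil)) 
(.lf (nat_lit 131397) (.g (nat_lit 2810) (.e (nat_lit 16128) (nat_lit 194) (.e (nat_lit 57479) (nat_lit 28) (.e (nat_lit 557100) (nat_lit 13) (.e (nat_lit 172065) (nat_lit 3) (.e (nat_lit 204809) (nat_lit 9) .nil))))) .nil))) (.nd (nat_lit 6) 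
(.lf (nat_lit 131365) (.g (nat_lit 822) (.e (nat_lit 16128) (nat_lit 183) (.e (nat_lit 164358) (nat_lit 246) (.e (nat_lit 351) (nat_lit 28) (.e (nat_lit 393281) (nat_lit 23) .nil)))) .nil)) 
(.lf (nat_lit 131429) (.g (nat_lit 3374) (.e (nat_lit 8525) (nat_lit 205) (.e (nat_lit 3064) (nat_lit 190) (.e (nat_lit 475185) (nat_lit 29) (.e (nat_lit 557100) (nat_lit 13) (.e (nat_lit 172113) (nat_lit 10) .nil))))) .nil)))) (.nd (nat_lit 5) (.nd (nat_lit 6) 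
(.lf (nat_lit 131349) (.g (nat_lit 2248) (.e (nat_lit 16128) (nat_lit 180) (.e (nat_lit 1349) (nat_lit 102) (.e (nat_lit 286735) (nat_lit 3) (.e (nat_lit 98373) (nat_lit 29) (.e (nat_lit 450585) (nat_lit 10) .nil))))) .nil)) 
(.lf (nat_lit 131413) (.g (nat_lit 772) (.e (nat_lit 16128) (nat_lit 196) (.e (nat_lit 73746) (nat_lit 3) (.e (nat_lit 516161) (nat_lit 10) .nil))) .nil))) (.nd (nat_lit 6) 
(.lf (nat_lit 131381) (.g (nat_lit 2169) (.e (nat_lit 8517) (nat_lit 191) (.e (nat_lit 1667) (nat_lit 116) (.e (nat_lit 401458) (nat_lit 13) (.e (nat_lit 483372) (nat_lit 21) (.e (nat_lit 319504) (nat_lit 10) .nil))))) .nil)) 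
(.lf (nat_lit 131445) (.g (nat_lit 3691) (.e (nat_lit 16128) (nat_lit 225) (.e (nat_lit 1348) (nat_lit 102) (.e (nat_lit 286735) (nat_lit 3) (.e (nat_lit 98373) (nat_lit 29) (.e (nat_lit 450589) (nat_lit 11) .nil))))) .nil))))) (.nd (nat_lit 4) (.nd (nat_lit 5) (.nd (nat_lit 6) 
(.lf (nat_lit 131341) (.g (nat_lit 2662) (.e (nat_lit 16128) (nat_lit 180) (.e (nat_lit 1348) (nat_lit 102) (.e (nat_lit 286761) (nat_lit 13) (.e (nat_lit 393265) (nat_lit 22) (.e (nat_lit 425728) (nat_lit 10) .nil))))) .nil)) 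
(.lf (nat_lit 131405) (.g (nat_lit 1617) (.e (nat_lit 16128) (nat_lit 196) (.e (nat_lit 73746) (nat_lit 3) (.e (nat_lit 516146) (nat_lit 9) (.e (nat_lit 425986) (nat_lit 0) .nil)))) .nil))) (.nd (nat_lit 6) 
(.lf (nat_lit 131373) (.g (nat_lit 3315) (.e (nat_lit 8514) (nat_lit 191) (.e (nat_lit 1656) (nat_lit 115) (.e (nat_lit 393301) (nat_lit 27) (.e (nat_lit 491560) (nat_lit 10) (.e (nat_lit 352000) (nat_lit 44) .nil))))) .nil)) 
(.lf (nat_lit 131437) (.g (nat_lit 2889) (.e (nat_lit 8533) (nat_lit 225) (.e (nat_lit 1370) (nat_lit 103) (.e (nat_lit 294960) (nat_lit 13) (.e (nat_lit 393260) (nat_lit 21) (.e (nat_lit 409616) (nat_lit 10) (.e (nat_lit 7936) (nat_lit 313) .nil)))))) (.g (nat_lit 5) .nil .nil))))) (.nd (nat_lit 5) (.nd (nat_lit 6) 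
(.lf (nat_lit 131357) (.g (nat_lit 3514) (.e (nat_lit 8497) (nat_lit 182) (.e (nat_lit 123209) (nat_lit 270) (.e (nat_lit 1661) (nat_lit 115) (.e (nat_lit 393260) (nat_lit 21) (.e (nat_lit 409616) (nat_lit 10) (.e (nat_lit 7936) (nat_lit 299) .nil)))))) (.g (nat_lit 5) .nil .nil))) 
(.lf (nat_lit 131421) (.g (nat_lit 1518) (.e (nat_lit 16128) (nat_lit 196) (.e (nat_lit 73747) (nat_lit 3) (.e (nat_lit 516160) (nat_lit 10) (.e (nat_lit 434275) (nat_lit 39) .nil)))) .nil))) (.nd (nat_lit 6) 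
(.lf (nat_lit 131389) (.g (nat_lit 2217) (.e (nat_lit 16128) (nat_lit 194) (.e (nat_lit 57476) (nat_lit 28) (.e (nat_lit 557104) (nat_lit 14) (.e (nat_lit 180244) (nat_lit 5) (.e (nat_lit 532579) (nat_lit 26) .nil))))) .nil)) 
(.lf (nat_lit 131453) (.g (nat_lit 2190) (.e (nat_lit 16128) (nat_lit 225) (.e (nat_lit 1348) (nat_lit 102) (.e (nat_lit 286761) (nat_lit 13) (.e (nat_lit 393264) (nat_lit 22) (.e (nat_lit 417814) (nat_lit 10) .nil))))) .nil))))))) (.nd (nat_lit 2) (.nd (nat_lit 3) (.nd (nat_lit 4) (.nd (nat_lit 5) (.nd (nat_lit 6) 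
(.lf (nat_lit 131331) (.g (nat_lit 351) (.e (nat_lit 16128) (nat_lit 180) (.e (nat_lit 1348) (nat_lit 102) (.e (nat_lit 286735) (nat_lit 3) .nil))) .nil)) 
(.lf (nat_lit 131395) (.g (nat_lit 2581) (.e (nat_lit 16128) (nat_lit 194) (.e (nat_lit 57479) (nat_lit 28) (.e (nat_lit 557100) (nat_lit 13) (.e (nat_lit 172062) (nat_lit 2) (.e (nat_lit 196654) (nat_lit 11) .nil))))) .nil))) (.nd (nat_lit 6) 
(.lf (nat_lit 131363) (.g (nat_lit 882) (.e (nat_lit 16128) (nat_lit 183) (.e (nat_lit 164356) (nat_lit 246) (.e (nat_lit 351) (nat_lit 28) (.e (nat_lit 393281) (nat_lit 23) .nil)))) .nil)) 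
(.lf (nat_lit 131427) (.g (nat_lit 3583) (.e (nat_lit 8524) (nat_lit 205) (.e (nat_lit 3067) (nat_lit 190) (.e (nat_lit 475185) (nat_lit 29) (.e (nat_lit 557100) (nat_lit 13) (.e (nat_lit 172113) (nat_lit 10) .nil))))) .nil)))) (.nd (nat_lit 5) (.nd (nat_lit 6) 
(.lf (nat_lit 131347) (.g (nat_lit 2213) (.e (nat_lit 16128) (nat_lit 180) (.e (nat_lit 1349) (nat_lit 102) (.e (nat_lit 286735) (nat_lit 3) (.e (nat_lit 98359) (nat_lit 26) (.e (nat_lit 426286) (nat_lit 10) .nil))))) .nil)) 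
(.lf (nat_lit 131411) (.g (nat_lit 1567) (.e (nat_lit 16128) (nat_lit 196) (.e (nat_lit 73746) (nat_lit 3) (.e (nat_lit 516160) (nat_lit 10) (.e (nat_lit 434206) (nat_lit 18) .nil)))) .nil))) (.nd (nat_lit 6) 
(.lf (nat_lit 131379) (.g (nat_lit 659) (.e (nat_lit 8517) (nat_lit 191) (.e (nat_lit 1661) (nat_lit 115) (.e (nat_lit 393251) (nat_lit 18) .nil))) .nil)) 
(.lf (nat_lit 131443) (.g (nat_lit 2295) (.e (nat_lit 8534) (nat_lit 225) (.e (nat_lit 1367) (nat_lit 103) (.e (nat_lit 294959) (nat_lit 13) (.e (nat_lit 393260) (nat_lit 21) (.e (nat_lit 409617) (nat_lit 10) (.e (nat_lit 7936) (nat_lit 313) .nil)))))) (.g (nat_lit 5) .nil .nil)))))) (.nd (nat_lit 4) (.nd (nat_lit 5) (.nd (nat_lit 6) 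
(.lf (nat_lit 131339) (.g (nat_lit 1124) (.e (nat_lit 16128) (nat_lit 180) (.e (nat_lit 1348) (nat_lit 102) (.e (nat_lit 286761) (nat_lit 13) (.e (nat_lit 393265) (nat_lit 22) .nil)))) .nil)) 
(.lf (nat_lit 131403) (.g (nat_lit 1369) (.e (nat_lit 16128) (nat_lit 195) (.e (nat_lit 65571) (nat_lit 3) (.e (nat_lit 98367) (nat_lit 27) (.e (nat_lit 434206) (nat_lit 18) .nil)))) .nil))) (.nd (nat_lit 6) 
(.lf (nat_lit 131371) (.g (nat_lit 2358) (.e (nat_lit 8514) (nat_lit 191) (.e (nat_lit 1656) (nat_lit 115) (.e (nat_lit 393301) (nat_lit 27) (.e (nat_lit 491559) (nat_lit 10) .nil)))) .nil)) 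
(.lf (nat_lit 131435) (.g (nat_lit 556) (.e (nat_lit 8533) (nat_lit 225) (.e (nat_lit 1349) (nat_lit 102) (.e (nat_lit 286761) (nat_lit 13) .nil))) .nil)))) (.nd (nat_lit 5) (.nd (nat_lit 6) 
(.lf (nat_lit 131355) (.g (nat_lit 2290) (.e (nat_lit 16128) (nat_lit 180) (.e (nat_lit 1368) (nat_lit 103) (.e (nat_lit 294928) (nat_lit 2) (.e (nat_lit 90170) (nat_lit 13) (.e (nat_lit 172113) (nat_lit 10) .nil))))) .nil)) 
(.lf (nat_lit 131419) (.g (nat_lit 1678) (.e (nat_lit 16128) (nat_lit 196) (.e (nat_lit 73747) (nat_lit 3) (.e (nat_lit 516146) (nat_lit 9) (.e (nat_lit 426112) (nat_lit 1) .nil)))) .nil))) (.nd (nat_lit 6) 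
(.lf (nat_lit 131387) (.g (nat_lit 4493) (.e (nat_lit 16128) (nat_lit 194) (.e (nat_lit 57476) (nat_lit 28) (.e (nat_lit 557087) (nat_lit 11) (.e (nat_lit 24625) (nat_lit 9) (.e (nat_lit 336324) (nat_lit 18) .nil))))) .nil)) 
(.lf (nat_lit 131451) (.g (nat_lit 2746) (.e (nat_lit 16128) (nat_lit 225) (.e (nat_lit 1348) (nat_lit 102) (.e (nat_lit 286761) (nat_lit 13) (.e (nat_lit 393263) (nat_lit 22) (.e (nat_lit 417817) (nat_lit 10) .nil))))) .nil)))))) (.nd (nat_lit 3) (.nd (nat_lit 4) (.nd (nat_lit 5) (.nd (nat_lit 6) 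
(.lf (nat_lit 131335) (.g (nat_lit 2164) (.e (nat_lit 16128) (nat_lit 180) (.e (nat_lit 1348) (nat_lit 102) (.e (nat_lit 286735) (nat_lit 3) (.e (nat_lit 98373) (nat_lit 29) (.e (nat_lit 450585) (nat_lit 10) .nil))))) .nil)) 
(.lf (nat_lit 131399) (.g (nat_lit 2185) (.e (nat_lit 16128) (nat_lit 194) (.e (nat_lit 57479) (nat_lit 28) (.e (nat_lit 557103) (nat_lit 14) (.e (nat_lit 180244) (nat_lit 5) .nil)))) .nil))) (.nd (nat_lit 6) 
(.lf (nat_lit 131367) (.g (nat_lit 1406) (.e (nat_lit 8506) (nat_lit 185) (.e (nat_lit 1194) (nat_lit 88) (.e (nat_lit 65586) (nat_lit 7) (.e (nat_lit 319531) (nat_lit 16) (.e (nat_lit 286748) (nat_lit 9) .nil))))) .nil)) 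
(.lf (nat_lit 131431) (.g (nat_lit 2603) (.e (nat_lit 8525) (nat_lit 205) (.e (nat_lit 3096) (nat_lit 192) (.e (nat_lit 491537) (nat_lit 2) (.e (nat_lit 90170) (nat_lit 13) (.e (nat_lit 172106) (nat_lit 10) .nil))))) .nil)))) (.nd (nat_lit 5) (.nd (nat_lit 6) 
(.lf (nat_lit 131351) (.g (nat_lit 2732) (.e (nat_lit 16128) (nat_lit 180) (.e (nat_lit 1349) (nat_lit 102) (.e (nat_lit 286761) (nat_lit 13) (.e (nat_lit 393234) (nat_lit 17) (.e (nat_lit 7111) (nat_lit 381) .nil))))) .nil)) 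
(.lf (nat_lit 131415) (.g (nat_lit 2048) (.e (nat_lit 16128) (nat_lit 196) (.e (nat_lit 73746) (nat_lit 3) (.e (nat_lit 516169) (nat_lit 13) (.e (nat_lit 458774) (nat_lit 18) (.e (nat_lit 5964) (nat_lit 324) .nil))))) .nil))) (.nd (nat_lit 6) 
(.lf (nat_lit 131383) (.g (nat_lit 1372) (.e (nat_lit 16128) (nat_lit 191) (.e (nat_lit 1668) (nat_lit 116) (.e (nat_lit 401459) (nat_lit 13) (.e (nat_lit 483372) (nat_lit 21) .nil)))) .nil)) 
(.lf (nat_lit 131447) (.g (nat_lit 2410) (.e (nat_lit 16128) (nat_lit 225) (.e (nat_lit 1348) (nat_lit 102) (.e (nat_lit 286761) (nat_lit 13) (.e (nat_lit 393234) (nat_lit 17) (.e (nat_lit 7065) (nat_lit 377) .nil))))) .nil))))) (.nd (nat_lit 4) (.nd (nat_lit 5) (.nd (nat_lit 6) 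
(.lf (nat_lit 131343) (.g (nat_lit 3012) (.e (nat_lit 16128) (nat_lit 180) (.e (nat_lit 1348) (nat_lit 102) (.e (nat_lit 286761) (nat_lit 13) (.e (nat_lit 393300) (nat_lit 27) (.e (nat_lit 491520) (nat_lit 0) .nil))))) .nil)) 
(.lf (nat_lit 131407) (.g (nat_lit 2007) (.e (nat_lit 16128) (nat_lit 196) (.e (nat_lit 73746) (nat_lit 3) (.e (nat_lit 516146) (nat_lit 9) (.e (nat_lit 426112) (nat_lit 1) (.e (nat_lit 164406) (nat_lit 258) .nil))))) .nil))) (.nd (nat_lit 6) 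
(.lf (nat_lit 131375) (.g (nat_lit 2912) (.e (nat_lit 8515) (nat_lit 191) (.e (nat_lit 1661) (nat_lit 115) (.e (nat_lit 393260) (nat_lit 21) (.e (nat_lit 409649) (nat_lit 18) (.e (nat_lit 303111) (nat_lit 0) .nil))))) .nil)) 
(.lf (nat_lit 131439) (.g (nat_lit 961) (.e (nat_lit 8533) (nat_lit 225) (.e (nat_lit 2777) (nat_lit 178) (.e (nat_lit 286731) (nat_lit 1) .nil))) .nil)))) (.nd (nat_lit 5) (.nd (nat_lit 6) 
(.lf (nat_lit 131359) (.g (nat_lit 1524) (.e (nat_lit 8499) (nat_lit 183) (.e (nat_lit 164356) (nat_lit 246) (.e (nat_lit 351) (nat_lit 28) (.e (nat_lit 393281) (nat_lit 23) (.e (nat_lit 426115) (nat_lit 2) (.e (nat_lit 196651) (nat_lit 10) .nil)))))) (.g (nat_lit 4) .nil .nil))) 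
(.lf (nat_lit 131423) (.g (nat_lit 1419) (.e (nat_lit 16128) (nat_lit 196) (.e (nat_lit 73747) (nat_lit 3) (.e (nat_lit 516169) (nat_lit 13) (.e (nat_lit 458772) (nat_lit 18) (.e (nat_lit 5968) (nat_lit 324) .nil))))) .nil))) (.nd (nat_lit 6) 
(.lf (nat_lit 131391) (.g (nat_lit 2191) (.e (nat_lit 16128) (nat_lit 194) (.e (nat_lit 57478) (nat_lit 28) (.e (nat_lit 557100) (nat_lit 13) (.e (nat_lit 172062) (nat_lit 2) (.e (nat_lit 196654) (nat_lit 11) .nil))))) .nil)) 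
(.lf (nat_lit 131455) (.g (nat_lit 2143) (.e (nat_lit 16128) (nat_lit 225) (.e (nat_lit 1348) (nat_lit 102) (.e (nat_lit 286761) (nat_lit 13) (.e (nat_lit 393264) (nat_lit 22) (.e (nat_lit 417817) (nat_lit 10) .nil))))) .nil)))))))))

noncomputable def tv1752 : DT := (.nd (nat_lit 0) (.nd (nat_lit 1) (.nd (nat_lit 2) (.nd (nat_lit 3) (.nd (nat_lit 4) (.nd (nat_lit 5) (.nd (nat_lit 6) 
(.lf (nat_lit 131456) (.g (nat_lit 2145) (.e (nat_lit 16128) (nat_lit 225) (.e (nat_lit 1348) (nat_lit 102) (.e (nat_lit 286761) (nat_lit 13) (.e (nat_lit 393264) (nat_lit 22) (.e (nat_lit 417819) (nat_lit 10) .nil))))) .nil)) 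
(.lf (nat_lit 131520) (.g (nat_lit 2175) (.e (nat_lit 8567) (nat_lit 250) (.e (nat_lit 1660) (nat_lit 115) (.e (nat_lit 393229) (nat_lit 9) (.e (nat_lit 335994) (nat_lit 1) (.e (nat_lit 57854) (nat_lit 252) .nil))))) .nil))) (.nd (nat_lit 6) 
(.lf (nat_lit 131488) (.g (nat_lit 1092) (.e (nat_lit 8544) (nat_lit 230) (.e (nat_lit 1217) (nat_lit 90) (.e (nat_lit 81946) (nat_lit 20) (.e (nat_lit 2280) (nat_lit 150) (.e (nat_lit 770071) (nat_lit 8) .nil))))) .nil)) 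
(.lf (nat_lit 131552) (.g (nat_lit 696) (.e (nat_lit 16128) (nat_lit 255) (.e (nat_lit 73746) (nat_lit 3) (.e (nat_lit 516180) (nat_lit 15) .nil))) .nil)))) (.nd (nat_lit 5) (.nd (nat_lit 6) 
(.lf (nat_lit 131472) (.g (nat_lit 1520) (.e (nat_lit 16128) (nat_lit 225) (.e (nat_lit 2797) (nat_lit 180) (.e (nat_lit 303117) (nat_lit 2) (.e (nat_lit 196630) (nat_lit 9) (.e (nat_lit 1596) (nat_lit 111) .nil))))) .nil)) 
(.lf (nat_lit 131536) (.g (nat_lit 2286) (.e (nat_lit 8568) (nat_lit 250) (.e (nat_lit 1661) (nat_lit 115) (.e (nat_lit 393225) (nat_lit 9) (.e (nat_lit 335996) (nat_lit 1) (.e (nat_lit 57851) (nat_lit 252) .nil))))) .nil))) (.nd (nat_lit 6) 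
(.lf (nat_lit 131504) (.g (nat_lit 460) (.e (nat_lit 16128) (nat_lit 241) (.e (nat_lit 180225) (nat_lit 0) (.e (nat_lit 6828) (nat_lit 367) .nil))) .nil)) 
(.lf (nat_lit 131568) (.g (nat_lit 2229) (.e (nat_lit 16384) (nat_lit 0) (.e (nat_lit 7557) (nat_lit 402) (.e (nat_lit 1661) (nat_lit 115) (.e (nat_lit 393260) (nat_lit 21) (.e (nat_lit 409617) (nat_lit 10) (.e (nat_lit 7936) (nat_lit 300) .nil)))))) (.g (nat_lit 5) .nil .nil)))))) (.nd (nat_lit 4) (.nd (nat_lit 5) (.nd (nat_lit 6) 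
(.lf (nat_lit 131464) (.g (nat_lit 424) (.e (nat_lit 16128) (nat_lit 225) (.e (nat_lit 1349) (nat_lit 102) (.e (nat_lit 286761) (nat_lit 13) .nil))) .nil)) 
(.lf (nat_lit 131528) (.g (nat_lit 527) (.e (nat_lit 8567) (nat_lit 250) (.e (nat_lit 1661) (nat_lit 115) (.e (nat_lit 393299) (nat_lit 27) .nil))) .nil))) (.nd (nat_lit 6) 
(.lf (nat_lit 131496) (.g (nat_lit 3938) (.e (nat_lit 8552) (nat_lit 232) (.e (nat_lit 57377) (nat_lit 3) (.e (nat_lit 98317) (nat_lit 9) (.e (nat_lit 336223) (nat_lit 13) .nil)))) .nil)) 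
(.lf (nat_lit 131560) (.g (nat_lit 1905) (.e (nat_lit 16384) (nat_lit 0) (.e (nat_lit 3238) (nat_lit 197) (.e (nat_lit 532549) (nat_lit 12) (.e (nat_lit 360473) (nat_lit 8) (.e (nat_lit 557093) (nat_lit 12) .nil))))) .nil)))) (.nd (nat_lit 5) (.nd (nat_lit 6) 
(.lf (nat_lit 131480) (.g (nat_lit 2197) (.e (nat_lit 8541) (nat_lit 226) (.e (nat_lit 57887) (nat_lit 270) (.e (nat_lit 1656) (nat_lit 115) (.e (nat_lit 393265) (nat_lit 22) (.e (nat_lit 417817) (nat_lit 10) (.e (nat_lit 5742) (nat_lit 313) .nil)))))) (.g (nat_lit 5) .nil .nil))) 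
(.lf (nat_lit 131544) (.g (nat_lit 2702) (.e (nat_lit 16128) (nat_lit 250) (.e (nat_lit 1659) (nat_lit 115) (.e (nat_lit 393301) (nat_lit 27) (.e (nat_lit 491560) (nat_lit 10) (.e (nat_lit 352000) (nat_lit 44) .nil))))) .nil))) (.nd (nat_lit 6) 
(.lf (nat_lit 131512) (.g (nat_lit 553) (.e (nat_lit 8567) (nat_lit 250) (.e (nat_lit 1638) (nat_lit 114) (.e (nat_lit 385073) (nat_lit 31) .nil))) .nil)) 
(.lf (nat_lit 131576) (.g (nat_lit 3500) (.e (nat_lit 16385) (nat_lit 0) (.e (nat_lit 7490) (nat_lit 402) (.e (nat_lit 1256) (nat_lit 92) (.e (nat_lit 98373) (nat_lit 29) (.e (nat_lit 450588) (nat_lit 10) (.e (nat_lit 573471) (nat_lit 11) .nil)))))) (.g (nat_lit 0) .nil .nil))))))) (.nd (nat_lit 3) (.nd (nat_lit 4) (.nd (nat_lit 5) (.nd (nat_lit 6) 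
(.lf (nat_lit 131460) (.g (nat_lit 2437) (.e (nat_lit 16128) (nat_lit 225) (.e (nat_lit 1348) (nat_lit 102) (.e (nat_lit 286761) (nat_lit 13) (.e (nat_lit 393265) (nat_lit 22) (.e (nat_lit 417817) (nat_lit 10) .nil))))) .nil)) 
(.lf (nat_lit 131524) (.g (nat_lit 1565) (.e (nat_lit 8567) (nat_lit 250) (.e (nat_lit 1661) (nat_lit 115) (.e (nat_lit 393225) (nat_lit 9) (.e (nat_lit 335996) (nat_lit 1) .nil)))) .nil))) (.nd (nat_lit 6) 
(.lf (nat_lit 131492) (.g (nat_lit 1805) (.e (nat_lit 8547) (nat_lit 230) (.e (nat_lit 1199) (nat_lit 88) (.e (nat_lit 65586) (nat_lit 7) (.e (nat_lit 319531) (nat_lit 16) (.e (nat_lit 286748) (nat_lit 9) .nil))))) .nil)) 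
(.lf (nat_lit 131556) (.g (nat_lit 1637) (.e (nat_lit 16128) (nat_lit 255) (.e (nat_lit 73747) (nat_lit 3) (.e (nat_lit 516180) (nat_lit 15) (.e (nat_lit 475214) (nat_lit 42) (.e (nat_lit 720937) (nat_lit 22) .nil))))) .nil)))) (.nd (nat_lit 5) (.nd (nat_lit 6) 
(.lf (nat_lit 131476) (.g (nat_lit 2297) (.e (nat_lit 8541) (nat_lit 226) (.e (nat_lit 57887) (nat_lit 270) (.e (nat_lit 1656) (nat_lit 115) (.e (nat_lit 393234) (nat_lit 17) (.e (nat_lit 7109) (nat_lit 380) (.e (nat_lit 164368) (nat_lit 247) .nil)))))) (.g (nat_lit 4) .nil .nil))) 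
(.lf (nat_lit 131540) (.g (nat_lit 2188) (.e (nat_lit 16128) (nat_lit 250) (.e (nat_lit 1256) (nat_lit 92) (.e (nat_lit 98373) (nat_lit 29) (.e (nat_lit 450587) (nat_lit 10) (.e (nat_lit 573477) (nat_lit 12) .nil))))) .nil))) (.nd (nat_lit 6) 
(.lf (nat_lit 131508) (.g (nat_lit 2096) (.e (nat_lit 8566) (nat_lit 250) (.e (nat_lit 1658) (nat_lit 115) (.e (nat_lit 393301) (nat_lit 27) (.e (nat_lit 491560) (nat_lit 10) (.e (nat_lit 344179) (nat_lit 44) .nil))))) .nil)) 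
(.lf (nat_lit 131572) (.g (nat_lit 3535) (.e (nat_lit 16385) (nat_lit 0) (.e (nat_lit 7490) (nat_lit 402) (.e (nat_lit 1239) (nat_lit 91) (.e (nat_lit 90170) (nat_lit 13) (.e (nat_lit 172113) (nat_lit 10) (.e (nat_lit 434245) (nat_lit 28) (.e (nat_lit 573470) (nat_lit 11) .nil))))))) (.g (nat_lit 0) .nil .nil)))))) (.nd (nat_lit 4) (.nd (nat_lit 5) (.nd (nat_lit 6) 
(.lf (nat_lit 131468) (.g (nat_lit 1555) (.e (nat_lit 16128) (nat_lit 225) (.e (nat_lit 1349) (nat_lit 102) (.e (nat_lit 286761) (nat_lit 13) (.e (nat_lit 393264) (nat_lit 22) .nil)))) .nil)) 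
(.lf (nat_lit 131532) (.g (nat_lit 642) (.e (nat_lit 8568) (nat_lit 250) (.e (nat_lit 1661) (nat_lit 115) (.e (nat_lit 393225) (nat_lit 9) .nil))) .nil))) (.nd (nat_lit 6) 
(.lf (nat_lit 131500) (.g (nat_lit 749) (.e (nat_lit 8553) (nat_lit 232) (.e (nat_lit 57411) (nat_lit 12) (.e (nat_lit 336182) (nat_lit 11) .nil))) .nil)) 
(.lf (nat_lit 131564) (.g (nat_lit 482) (.e (nat_lit 16384) (nat_lit 0) (.e (nat_lit 6989) (nat_lit 377) (.e (nat_lit 2810) (nat_lit 180) .nil))) .nil)))) (.nd (nat_lit 5) (.nd (nat_lit 6) 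
(.lf (nat_lit 131484) (.g (nat_lit 3738) (.e (nat_lit 8541) (nat_lit 226) (.e (nat_lit 57891) (nat_lit 270) (.e (nat_lit 1661) (nat_lit 115) (.e (nat_lit 393260) (nat_lit 21) (.e (nat_lit 409617) (nat_lit 10) (.e (nat_lit 7936) (nat_lit 313) .nil)))))) (.g (nat_lit 5) .nil .nil))) 
(.lf (nat_lit 131548) (.g (nat_lit 773) (.e (nat_lit 16128) (nat_lit 255) (.e (nat_lit 73746) (nat_lit 3) (.e (nat_lit 516147) (nat_lit 9) .nil))) .nil))) (.nd (nat_lit 6) 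
(.lf (nat_lit 131516) (.g (nat_lit 3867) (.e (nat_lit 8567) (nat_lit 250) (.e (nat_lit 1659) (nat_lit 115) (.e (nat_lit 393301) (nat_lit 27) (.e (nat_lit 491560) (nat_lit 10) (.e (nat_lit 344179) (nat_lit 44) (.e (nat_lit 778455) (nat_lit 10) .nil)))))) (.g (nat_lit 6) .nil .nil))) 
(.lf (nat_lit 131580) (.g (nat_lit 1921) (.e (nat_lit 16386) (nat_lit 0) (.e (nat_lit 3214) (nat_lit 195) (.e (nat_lit 516131) (nat_lit 3) (.e (nat_lit 221212) (nat_lit 22) (.e (nat_lit 196668) (nat_lit 14) (.e (nat_lit 81664) (nat_lit 1) (.e (nat_lit 500046) (nat_lit 16) .nil))))))) (.g (nat_lit 5) .nil .nil)))))))) 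
(.nd (nat_lit 2) (.nd (nat_lit 3) (.nd (nat_lit 4) (.nd (nat_lit 5) (.nd (nat_lit 6) 
(.lf (nat_lit 131458) (.g (nat_lit 2534) (.e (nat_lit 16128) (nat_lit 225) (.e (nat_lit 1348) (nat_lit 102) (.e (nat_lit 286761) (nat_lit 13) (.e (nat_lit 393265) (nat_lit 22) (.e (nat_lit 417814) (nat_lit 10) .nil))))) .nil)) 
(.lf (nat_lit 131522) (.g (nat_lit 2497) (.e (nat_lit 8567) (nat_lit 250) (.e (nat_lit 1661) (nat_lit 115) (.e (nat_lit 393225) (nat_lit 9) (.e (nat_lit 335995) (nat_lit 1) (.e (nat_lit 57847) (nat_lit 252) .nil))))) .nil))) (.nd (nat_lit 6) 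
(.lf (nat_lit 131490) (.g (nat_lit 2006) (.e (nat_lit 8544) (nat_lit 230) (.e (nat_lit 1220) (nat_lit 90) (.e (nat_lit 81938) (nat_lit 20) (.e (nat_lit 2281) (nat_lit 150) (.e (nat_lit 770072) (nat_lit 8) .nil))))) .nil)) 
(.lf (nat_lit 131554) (.g (nat_lit 991) (.e (nat_lit 16128) (nat_lit 255) (.e (nat_lit 73747) (nat_lit 3) (.e (nat_lit 516180) (nat_lit 15) (.e (nat_lit 475212) (nat_lit 42) .nil)))) .nil)))) (.nd (nat_lit 5) (.nd (nat_lit 6) 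
(.lf (nat_lit 131474) (.g (nat_lit 1155) (.e (nat_lit 8540) (nat_lit 226) (.e (nat_lit 57891) (nat_lit 270) (.e (nat_lit 1428) (nat_lit 108) (.e (nat_lit 336369) (nat_lit 27) .nil)))) .nil)) 
(.lf (nat_lit 131538) (.g (nat_lit 2169) (.e (nat_lit 8568) (nat_lit 250) (.e (nat_lit 1667) (nat_lit 116) (.e (nat_lit 401458) (nat_lit 13) (.e (nat_lit 483372) (nat_lit 21) (.e (nat_lit 319504) (nat_lit 10) .nil))))) .nil))) (.nd (nat_lit 6) 
(.lf (nat_lit 131506) (.g (nat_lit 347) (.e (nat_lit 16128) (nat_lit 241) (.e (nat_lit 180227) (nat_lit 0) (.e (nat_lit 6830) (nat_lit 367) .nil))) .nil)) 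
(.lf (nat_lit 131570) (.g (nat_lit 1712) (.e (nat_lit 16385) (nat_lit 0) (.e (nat_lit 3549) (nat_lit 219) (.e (nat_lit 712755) (nat_lit 30) (.e (nat_lit 450588) (nat_lit 10) (.e (nat_lit 573473) (nat_lit 12) .nil))))) .nil))))) (.nd (nat_lit 4) (.nd (nat_lit 5) (.nd (nat_lit 6) 
(.lf (nat_lit 131466) (.g (nat_lit 1637) (.e (nat_lit 16128) (nat_lit 225) (.e (nat_lit 1349) (nat_lit 102) (.e (nat_lit 286761) (nat_lit 13) (.e (nat_lit 393262) (nat_lit 22) .nil)))) .nil)) 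
(.lf (nat_lit 131530) (.g (nat_lit 2719) (.e (nat_lit 8568) (nat_lit 250) (.e (nat_lit 1659) (nat_lit 115) (.e (nat_lit 393301) (nat_lit 27) (.e (nat_lit 491560) (nat_lit 10) (.e (nat_lit 344179) (nat_lit 44) .nil))))) .nil))) (.nd (nat_lit 6) 
(.lf (nat_lit 131498) (.g (nat_lit 845) (.e (nat_lit 8553) (nat_lit 232) (.e (nat_lit 57379) (nat_lit 3) (.e (nat_lit 98313) (nat_lit 9) .nil))) .nil)) 
(.lf (nat_lit 131562) (.g (nat_lit 2383) (.e (nat_lit 16384) (nat_lit 0) (.e (nat_lit 3238) (nat_lit 197) (.e (nat_lit 532550) (nat_lit 12) (.e (nat_lit 360474) (nat_lit 8) (.e (nat_lit 557094) (nat_lit 12) .nil))))) .nil)))) (.nd (nat_lit 5) (.nd (nat_lit 6) 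
(.lf (nat_lit 131482) (.g (nat_lit 1144) (.e (nat_lit 8541) (nat_lit 226) (.e (nat_lit 57891) (nat_lit 270) (.e (nat_lit 1428) (nat_lit 108) (.e (nat_lit 336369) (nat_lit 27) .nil)))) .nil)) 
(.lf (nat_lit 131546) (.g (nat_lit 783) (.e (nat_lit 16128) (nat_lit 250) (.e (nat_lit 1665) (nat_lit 115) (.e (nat_lit 393301) (nat_lit 27) (.e (nat_lit 491560) (nat_lit 10) .nil)))) .nil))) (.nd (nat_lit 6) 
(.lf (nat_lit 131514) (.g (nat_lit 2789) (.e (nat_lit 8567) (nat_lit 250) (.e (nat_lit 1659) (nat_lit 115) (.e (nat_lit 393301) (nat_lit 27) (.e (nat_lit 491560) (nat_lit 10) (.e (nat_lit 344179) (nat_lit 44) .nil))))) .nil)) 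
(.lf (nat_lit 131578) (.g (nat_lit 484) (.e (nat_lit 16385) (nat_lit 0) (.e (nat_lit 7587) (nat_lit 406) (.e (nat_lit 65574) (nat_lit 4) .nil))) .nil)))))) (.nd (nat_lit 3) (.nd (nat_lit 4) (.nd (nat_lit 5) (.nd (nat_lit 6) 
(.lf (nat_lit 131462) (.g (nat_lit 2329) (.e (nat_lit 16128) (nat_lit 225) (.e (nat_lit 1348) (nat_lit 102) (.e (nat_lit 286761) (nat_lit 13) (.e (nat_lit 393293) (nat_lit 26) (.e (nat_lit 475192) (nat_lit 37) .nil))))) .nil)) 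
(.lf (nat_lit 131526) (.g (nat_lit 1515) (.e (nat_lit 8567) (nat_lit 250) (.e (nat_lit 1661) (nat_lit 115) (.e (nat_lit 393232) (nat_lit 17) (.e (nat_lit 7591) (nat_lit 407) (.e (nat_lit 73776) (nat_lit 26) .nil))))) .nil))) (.nd (nat_lit 6) 
(.lf (nat_lit 131494) (.g (nat_lit 1392) (.e (nat_lit 8547) (nat_lit 230) (.e (nat_lit 1221) (nat_lit 90) (.e (nat_lit 81965) (nat_lit 26) (.e (nat_lit 147496) (nat_lit 11) .nil)))) .nil)) 
(.lf (nat_lit 131558) (.g (nat_lit 1877) (.e (nat_lit 16128) (nat_lit 255) (.e (nat_lit 73775) (nat_lit 26) (.e (nat_lit 778466) (nat_lit 11) (.e (nat_lit 24617) (nat_lit 7) (.e (nat_lit 327424) (nat_lit 3) .nil))))) .nil)))) (.nd (nat_lit 5) (.nd (nat_lit 6) 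
(.lf (nat_lit 131478) (.g (nat_lit 967) (.e (nat_lit 8541) (nat_lit 226) (.e (nat_lit 57887) (nat_lit 270) (.e (nat_lit 1656) (nat_lit 115) (.e (nat_lit 393265) (nat_lit 22) .nil)))) .nil)) 
(.lf (nat_lit 131542) (.g (nat_lit 377) (.e (nat_lit 16128) (nat_lit 250) (.e (nat_lit 1656) (nat_lit 115) (.e (nat_lit 393234) (nat_lit 17) .nil))) .nil))) (.nd (nat_lit 6) 
(.lf (nat_lit 131510) (.g (nat_lit 413) (.e (nat_lit 8567) (nat_lit 250) (.e (nat_lit 1428) (nat_lit 108) (.e (nat_lit 336421) (nat_lit 28) .nil))) .nil)) 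
(.lf (nat_lit 131574) (.g (nat_lit 2101) (.e (nat_lit 16385) (nat_lit 0) (.e (nat_lit 7490) (nat_lit 402) (.e (nat_lit 1256) (nat_lit 92) (.e (nat_lit 98372) (nat_lit 29) (.e (nat_lit 450586) (nat_lit 10) (.e (nat_lit 573470) (nat_lit 11) .nil)))))) (.g (nat_lit 0) .nil .nil)))))) (.nd (nat_lit 4) (.nd (nat_lit 5) (.nd (nat_lit 6) 
(.lf (nat_lit 131470) (.g (nat_lit 2420) (.e (nat_lit 16128) (nat_lit 225) (.e (nat_lit 1349) (nat_lit 102) (.e (nat_lit 286761) (nat_lit 13) (.e (nat_lit 393265) (nat_lit 22) (.e (nat_lit 417814) (nat_lit 10) .nil))))) .nil)) 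
(.lf (nat_lit 131534) (.g (nat_lit 2552) (.e (nat_lit 8568) (nat_lit 250) (.e (nat_lit 1661) (nat_lit 115) (.e (nat_lit 393225) (nat_lit 9) (.e (nat_lit 335995) (nat_lit 1) (.e (nat_lit 57847) (nat_lit 252) .nil))))) .nil))) (.nd (nat_lit 6) 
(.lf (nat_lit 131502) (.g (nat_lit 462) (.e (nat_lit 16128) (nat_lit 241) (.e (nat_lit 180225) (nat_lit 0) (.e (nat_lit 6072) (nat_lit 330) .nil))) .nil)) 
(.lf (nat_lit 131566) (.g (nat_lit 2805) (.e (nat_lit 16384) (nat_lit 0) (.e (nat_lit 7537) (nat_lit 402) (.e (nat_lit 1661) (nat_lit 115) (.e (nat_lit 393260) (nat_lit 21) (.e (nat_lit 409617) (nat_lit 10) (.e (nat_lit 7936) (nat_lit 300) .nil)))))) (.g (nat_lit 5) .nil .nil))))) (.nd (nat_lit 5) (.nd (nat_lit 6) 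
(.lf (nat_lit 131486) (.g (nat_lit 1937) (.e (nat_lit 8544) (nat_lit 230) (.e (nat_lit 1200) (nat_lit 88) (.e (nat_lit 65619) (nat_lit 10) (.e (nat_lit 344177) (nat_lit 43) (.e (nat_lit 770072) (nat_lit 8) .nil))))) .nil)) 
(.lf (nat_lit 131550) (.g (nat_lit 2262) (.e (nat_lit 16128) (nat_lit 255) (.e (nat_lit 73746) (nat_lit 3) (.e (nat_lit 516179) (nat_lit 15) (.e (nat_lit 475214) (nat_lit 42) (.e (nat_lit 720937) (nat_lit 22) .nil))))) .nil))) (.nd (nat_lit 6) 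
(.lf (nat_lit 131518) (.g (nat_lit 2392) (.e (nat_lit 8567) (nat_lit 250) (.e (nat_lit 1660) (nat_lit 115) (.e (nat_lit 393225) (nat_lit 9) (.e (nat_lit 335995) (nat_lit 1) (.e (nat_lit 57848) (nat_lit 252) .nil))))) .nil)) 
(.lf (nat_lit 131582) (.g (nat_lit 1655) (.e (nat_lit 16386) (nat_lit 0) (.e (nat_lit 3280) (nat_lit 200) (.e (nat_lit 557103) (nat_lit 14) (.e (nat_lit 180250) (nat_lit 10) (.e (nat_lit 573487) (nat_lit 14) .nil))))) .nil)))))))) (.nd (nat_lit 1) (.nd (nat_lit 2) (.nd (nat_lit 3) (.nd (nat_lit 4) (.nd (nat_lit 5) (.nd (nat_lit 6) 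
(.lf (nat_lit 131457) (.g (nat_lit 1124) (.e (nat_lit 16128) (nat_lit 225) (.e (nat_lit 1348) (nat_lit 102) (.e (nat_lit 286761) (nat_lit 13) (.e (nat_lit 393265) (nat_lit 22) .nil)))) .nil)) 
(.lf (nat_lit 131521) (.g (nat_lit 2265) (.e (nat_lit 8567) (nat_lit 250) (.e (nat_lit 1661) (nat_lit 115) (.e (nat_lit 393225) (nat_lit 9) (.e (nat_lit 335986) (nat_lit 1) (.e (nat_lit 57847) (nat_lit 252) .nil))))) .nil))) (.nd (nat_lit 6) 
(.lf (nat_lit 131489) (.g (nat_lit 978) (.e (nat_lit 8544) (nat_lit 230) (.e (nat_lit 1217) (nat_lit 90) (.e (nat_lit 81965) (nat_lit 26) (.e (nat_lit 147496) (nat_lit 11) .nil)))) .nil)) 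
(.lf (nat_lit 131553) (.g (nat_lit 1473) (.e (nat_lit 16128) (nat_lit 255) (.e (nat_lit 73746) (nat_lit 3) (.e (nat_lit 516180) (nat_lit 15) (.e (nat_lit 475212) (nat_lit 42) (.e (nat_lit 720937) (nat_lit 22) .nil))))) .nil)))) (.nd (nat_lit 5) (.nd (nat_lit 6) 
(.lf (nat_lit 131473) (.g (nat_lit 3938) (.e (nat_lit 8540) (nat_lit 226) (.e (nat_lit 57890) (nat_lit 270) (.e (nat_lit 1661) (nat_lit 115) (.e (nat_lit 393260) (nat_lit 21) (.e (nat_lit 409616) (nat_lit 10) (.e (nat_lit 7936) (nat_lit 313) .nil)))))) (.g (nat_lit 5) .nil .nil))) 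
(.lf (nat_lit 131537) (.g (nat_lit 2122) (.e (nat_lit 8568) (nat_lit 250) (.e (nat_lit 1661) (nat_lit 115) (.e (nat_lit 393225) (nat_lit 9) (.e (nat_lit 335996) (nat_lit 1) (.e (nat_lit 57854) (nat_lit 252) .nil))))) .nil))) (.nd (nat_lit 6) 
(.lf (nat_lit 131505) (.g (nat_lit 465) (.e (nat_lit 16128) (nat_lit 241) (.e (nat_lit 180225) (nat_lit 0) (.e (nat_lit 6830) (nat_lit 367) .nil))) .nil)) 
(.lf (nat_lit 131569) (.g (nat_lit 1461) (.e (nat_lit 16385) (nat_lit 0) (.e (nat_lit 3214) (nat_lit 195) (.e (nat_lit 516131) (nat_lit 3) (.e (nat_lit 221215) (nat_lit 23) (.e (nat_lit 204850) (nat_lit 26) .nil))))) .nil))))) (.nd (nat_lit 4) (.nd (nat_lit 5) (.nd (nat_lit 6) 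
(.lf (nat_lit 131465) (.g (nat_lit 2732) (.e (nat_lit 16128) (nat_lit 225) (.e (nat_lit 1349) (nat_lit 102) (.e (nat_lit 286761) (nat_lit 13) (.e (nat_lit 393234) (nat_lit 17) (.e (nat_lit 7111) (nat_lit 381) .nil))))) .nil)) 
(.lf (nat_lit 131529) (.g (nat_lit 1374) (.e (nat_lit 8567) (nat_lit 250) (.e (nat_lit 1661) (nat_lit 115) (.e (nat_lit 393299) (nat_lit 27) (.e (nat_lit 491560) (nat_lit 10) .nil)))) .nil))) (.nd (nat_lit 6) 
(.lf (nat_lit 131497) (.g (nat_lit 1549) (.e (nat_lit 8552) (nat_lit 232) (.e (nat_lit 57437) (nat_lit 17) (.e (nat_lit 376859) (nat_lit 21) (.e (nat_lit 57655) (nat_lit 152) .nil)))) .nil)) 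
(.lf (nat_lit 131561) (.g (nat_lit 2181) (.e (nat_lit 16384) (nat_lit 0) (.e (nat_lit 3238) (nat_lit 197) (.e (nat_lit 532549) (nat_lit 12) (.e (nat_lit 360474) (nat_lit 8) (.e (nat_lit 557093) (nat_lit 12) .nil))))) .nil)))) (.nd (nat_lit 5) (.nd (nat_lit 6) 
(.lf (nat_lit 131481) (.g (nat_lit 4008) (.e (nat_lit 8541) (nat_lit 226) (.e (nat_lit 57890) (nat_lit 270) (.e (nat_lit 1661) (nat_lit 115) (.e (nat_lit 393260) (nat_lit 21) (.e (nat_lit 409616) (nat_lit 10) (.e (nat_lit 7936) (nat_lit 313) .nil)))))) (.g (nat_lit 5) .nil .nil))) 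
(.lf (nat_lit 131545) (.g (nat_lit 605) (.e (nat_lit 16128) (nat_lit 250) (.e (nat_lit 1665) (nat_lit 115) (.e (nat_lit 393234) (nat_lit 17) (.e (nat_lit 7591) (nat_lit 407) .nil)))) .nil))) (.nd (nat_lit 6) 
(.lf (nat_lit 131513) (.g (nat_lit 2320) (.e (nat_lit 8567) (nat_lit 250) (.e (nat_lit 1659) (nat_lit 115) (.e (nat_lit 393301) (nat_lit 27) (.e (nat_lit 491558) (nat_lit 10) (.e (nat_lit 344180) (nat_lit 44) .nil))))) .nil)) 
(.lf (nat_lit 131577) (.g (nat_lit 2271) (.e (nat_lit 16385) (nat_lit 0) (.e (nat_lit 7567) (nat_lit 402) (.e (nat_lit 1661) (nat_lit 115) (.e (nat_lit 393260) (nat_lit 21) (.e (nat_lit 409617) (nat_lit 10) .nil))))) .nil)))))) (.nd (nat_lit 3) (.nd (nat_lit 4) (.nd (nat_lit 5) (.nd (nat_lit 6) 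
(.lf (nat_lit 131461) (.g (nat_lit 2748) (.e (nat_lit 16128) (nat_lit 225) (.e (nat_lit 1348) (nat_lit 102) (.e (nat_lit 286761) (nat_lit 13) (.e (nat_lit 393265) (nat_lit 22) (.e (nat_lit 417821) (nat_lit 10) .nil))))) .nil)) 
(.lf (nat_lit 131525) (.g (nat_lit 615) (.e (nat_lit 8567) (nat_lit 250) (.e (nat_lit 1661) (nat_lit 115) (.e (nat_lit 393232) (nat_lit 17) .nil))) .nil))) (.nd (nat_lit 6) 
(.lf (nat_lit 131493) (.g (nat_lit 1783) (.e (nat_lit 8547) (nat_lit 230) (.e (nat_lit 1219) (nat_lit 90) (.e (nat_lit 81963) (nat_lit 26) (.e (nat_lit 147496) (nat_lit 11) (.e (nat_lit 24584) (nat_lit 0) .nil))))) .nil)) 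
(.lf (nat_lit 131557) (.g (nat_lit 1634) (.e (nat_lit 16128) (nat_lit 255) (.e (nat_lit 73747) (nat_lit 3) (.e (nat_lit 516180) (nat_lit 15) (.e (nat_lit 475214) (nat_lit 42) (.e (nat_lit 720938) (nat_lit 22) .nil))))) .nil)))) (.nd (nat_lit 5) (.nd (nat_lit 6) 
(.lf (nat_lit 131477) (.g (nat_lit 1143) (.e (nat_lit 8541) (nat_lit 226) (.e (nat_lit 57887) (nat_lit 270) (.e (nat_lit 1656) (nat_lit 115) (.e (nat_lit 393264) (nat_lit 22) .nil)))) .nil)) 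
(.lf (nat_lit 131541) (.g (nat_lit 1699) (.e (nat_lit 16128) (nat_lit 250) (.e (nat_lit 1656) (nat_lit 115) (.e (nat_lit 393225) (nat_lit 9) (.e (nat_lit 335995) (nat_lit 1) (.e (nat_lit 57848) (nat_lit 252) .nil))))) .nil))) (.nd (nat_lit 6) 
(.lf (nat_lit 131509) (.g (nat_lit 797) (.e (nat_lit 8567) (nat_lit 250) (.e (nat_lit 1427) (nat_lit 108) (.e (nat_lit 336421) (nat_lit 28) .nil))) .nil)) 
(.lf (nat_lit 131573) (.g (nat_lit 2833) (.e (nat_lit 16385) (nat_lit 0) (.e (nat_lit 7490) (nat_lit 402) (.e (nat_lit 1256) (nat_lit 92) (.e (nat_lit 98359) (nat_lit 26) (.e (nat_lit 426286) (nat_lit 10) (.e (nat_lit 434245) (nat_lit 28) (.e (nat_lit 573470) (nat_lit 11) .nil))))))) (.g (nat_lit 0) .nil .nil)))))) (.nd (nat_lit 4) (.nd (nat_lit 5) (.nd (nat_lit 6) 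
(.lf (nat_lit 131469) (.g (nat_lit 1416) (.e (nat_lit 16128) (nat_lit 225) (.e (nat_lit 1349) (nat_lit 102) (.e (nat_lit 286761) (nat_lit 13) (.e (nat_lit 393265) (nat_lit 22) .nil)))) .nil)) 
(.lf (nat_lit 131533) (.g (nat_lit 2356) (.e (nat_lit 8568) (nat_lit 250) (.e (nat_lit 1661) (nat_lit 115) (.e (nat_lit 393225) (nat_lit 9) (.e (nat_lit 335988) (nat_lit 1) (.e (nat_lit 57854) (nat_lit 252) .nil))))) .nil))) (.nd (nat_lit 6) 
(.lf (nat_lit 131501) (.g (nat_lit 862) (.e (nat_lit 8553) (nat_lit 232) (.e (nat_lit 57411) (nat_lit 12) (.e (nat_lit 336211) (nat_lit 13) .nil))) .nil)) 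
(.lf (nat_lit 131565) (.g (nat_lit 2259) (.e (nat_lit 16384) (nat_lit 0) (.e (nat_lit 7537) (nat_lit 402) (.e (nat_lit 1661) (nat_lit 115) (.e (nat_lit 393260) (nat_lit 21) (.e (nat_lit 409616) (nat_lit 10) (.e (nat_lit 7936) (nat_lit 300) .nil)))))) (.g (nat_lit 5) .nil .nil))))) (.nd (nat_lit 5) (.nd (nat_lit 6) 
(.lf (nat_lit 131485) (.g (nat_lit 3478) (.e (nat_lit 8542) (nat_lit 227) (.e (nat_lit 123207) (nat_lit 270) (.e (nat_lit 1661) (nat_lit 115) (.e (nat_lit 393260) (nat_lit 21) (.e (nat_lit 409616) (nat_lit 10) (.e (nat_lit 7936) (nat_lit 313) .nil)))))) (.g (nat_lit 5) .nil .nil))) 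
(.lf (nat_lit 131549) (.g (nat_lit 1314) (.e (nat_lit 16128) (nat_lit 255) (.e (nat_lit 73746) (nat_lit 3) (.e (nat_lit 516179) (nat_lit 15) (.e (nat_lit 475212) (nat_lit 42) .nil)))) .nil))) (.nd (nat_lit 6) 
(.lf (nat_lit 131517) (.g (nat_lit 2852) (.e (nat_lit 8567) (nat_lit 250) (.e (nat_lit 1659) (nat_lit 115) (.e (nat_lit 393301) (nat_lit 27) (.e (nat_lit 491560) (nat_lit 10) (.e (nat_lit 352000) (nat_lit 44) .nil))))) .nil)) 
(.lf (nat_lit 131581) (.g (nat_lit 2801) (.e (nat_lit 16386) (nat_lit 0) (.e (nat_lit 3276) (nat_lit 200) (.e (nat_lit 557105) (nat_lit 14) (.e (nat_lit 180252) (nat_lit 10) (.e (nat_lit 573489) (nat_lit 14) (.e (nat_lit 81664) (nat_lit 1) (.e (nat_lit 500046) (nat_lit 16) .nil))))))) (.g (nat_lit 5) .nil .nil)))))))) 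
(.nd (nat_lit 2) (.nd (nat_lit 3) (.nd (nat_lit 4) (.nd (nat_lit 5) (.nd (nat_lit 6) 
(.lf (nat_lit 131459) (.g (nat_lit 2757) (.e (nat_lit 16128) (nat_lit 225) (.e (nat_lit 1348) (nat_lit 102) (.e (nat_lit 286761) (nat_lit 13) (.e (nat_lit 393265) (nat_lit 22) (.e (nat_lit 417815) (nat_lit 10) .nil))))) .nil)) 
(.lf (nat_lit 131523) (.g (nat_lit 2841) (.e (nat_lit 8567) (nat_lit 250) (.e (nat_lit 1661) (nat_lit 115) (.e (nat_lit 393225) (nat_lit 9) (.e (nat_lit 335995) (nat_lit 1) (.e (nat_lit 57849) (nat_lit 252) .nil))))) .nil))) (.nd (nat_lit 6) 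
(.lf (nat_lit 131491) (.g (nat_lit 2200) (.e (nat_lit 8544) (nat_lit 230) (.e (nat_lit 1220) (nat_lit 90) (.e (nat_lit 81965) (nat_lit 26) (.e (nat_lit 147496) (nat_lit 11) (.e (nat_lit 24616) (nat_lit 7) .nil))))) .nil)) 
(.lf (nat_lit 131555) (.g (nat_lit 1398) (.e (nat_lit 16128) (nat_lit 255) (.e (nat_lit 73747) (nat_lit 3) (.e (nat_lit 516180) (nat_lit 15) (.e (nat_lit 475212) (nat_lit 42) (.e (nat_lit 720938) (nat_lit 22) .nil))))) .nil)))) (.nd (nat_lit 5) (.nd (nat_lit 6) 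
(.lf (nat_lit 131475) (.g (nat_lit 3527) (.e (nat_lit 8540) (nat_lit 226) (.e (nat_lit 57891) (nat_lit 270) (.e (nat_lit 1661) (nat_lit 115) (.e (nat_lit 393260) (nat_lit 21) (.e (nat_lit 409617) (nat_lit 10) (.e (nat_lit 7936) (nat_lit 313) .nil)))))) (.g (nat_lit 5) .nil .nil))) 
(.lf (nat_lit 131539) (.g (nat_lit 3223) (.e (nat_lit 16128) (nat_lit 250) (.e (nat_lit 1255) (nat_lit 92) (.e (nat_lit 98373) (nat_lit 29) (.e (nat_lit 450587) (nat_lit 10) (.e (nat_lit 573477) (nat_lit 12) .nil))))) .nil))) (.nd (nat_lit 6) 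
(.lf (nat_lit 131507) (.g (nat_lit 2739) (.e (nat_lit 8564) (nat_lit 244) (.e (nat_lit 1220) (nat_lit 90) (.e (nat_lit 81956) (nat_lit 23) (.e (nat_lit 98309) (nat_lit 0) .nil)))) .nil)) 
(.lf (nat_lit 131571) (.g (nat_lit 1608) (.e (nat_lit 16385) (nat_lit 0) (.e (nat_lit 7490) (nat_lit 402) (.e (nat_lit 1239) (nat_lit 91) (.e (nat_lit 90170) (nat_lit 13) (.e (nat_lit 172113) (nat_lit 10) .nil))))) .nil))))) (.nd (nat_lit 4) (.nd (nat_lit 5) (.nd (nat_lit 6) 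
(.lf (nat_lit 131467) (.g (nat_lit 2228) (.e (nat_lit 16128) (nat_lit 225) (.e (nat_lit 1349) (nat_lit 102) (.e (nat_lit 286761) (nat_lit 13) (.e (nat_lit 393263) (nat_lit 22) (.e (nat_lit 417817) (nat_lit 10) .nil))))) .nil)) 
(.lf (nat_lit 131531) (.g (nat_lit 2711) (.e (nat_lit 8568) (nat_lit 250) (.e (nat_lit 1659) (nat_lit 115) (.e (nat_lit 393301) (nat_lit 27) (.e (nat_lit 491560) (nat_lit 10) (.e (nat_lit 352000) (nat_lit 44) .nil))))) .nil))) (.nd (nat_lit 6) 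
(.lf (nat_lit 131499) (.g (nat_lit 555) (.e (nat_lit 8553) (nat_lit 232) (.e (nat_lit 57409) (nat_lit 12) (.e (nat_lit 336211) (nat_lit 13) .nil))) .nil)) 
(.lf (nat_lit 131563) (.g (nat_lit 2878) (.e (nat_lit 16384) (nat_lit 0) (.e (nat_lit 3252) (nat_lit 197) (.e (nat_lit 532550) (nat_lit 12) (.e (nat_lit 360474) (nat_lit 8) (.e (nat_lit 557094) (nat_lit 12) .nil))))) .nil)))) (.nd (nat_lit 5) (.nd (nat_lit 6) 
(.lf (nat_lit 131483) (.g (nat_lit 3433) (.e (nat_lit 8541) (nat_lit 226) (.e (nat_lit 57891) (nat_lit 270) (.e (nat_lit 1661) (nat_lit 115) (.e (nat_lit 393260) (nat_lit 21) (.e (nat_lit 409616) (nat_lit 10) (.e (nat_lit 7936) (nat_lit 313) .nil)))))) (.g (nat_lit 5) .nil .nil))) 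
(.lf (nat_lit 131547) (.g (nat_lit 527) (.e (nat_lit 16128) (nat_lit 255) (.e (nat_lit 73746) (nat_lit 3) (.e (nat_lit 516146) (nat_lit 9) .nil))) .nil))) (.nd (nat_lit 6) 
(.lf (nat_lit 131515) (.g (nat_lit 4055) (.e (nat_lit 8567) (nat_lit 250) (.e (nat_lit 1659) (nat_lit 115) (.e (nat_lit 393301) (nat_lit 27) (.e (nat_lit 491560) (nat_lit 10) (.e (nat_lit 344179) (nat_lit 44) (.e (nat_lit 778454) (nat_lit 10) .nil)))))) (.g (nat_lit 6) .nil .nil))) 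
(.lf (nat_lit 131579) (.g (nat_lit 1518) (.e (nat_lit 16386) (nat_lit 0) (.e (nat_lit 2399) (nat_lit 157) (.e (nat_lit 5954) (nat_lit 322) (.e (nat_lit 57445) (nat_lit 19) (.e (nat_lit 393281) (nat_lit 23) .nil))))) .nil)))))) (.nd (nat_lit 3) (.nd (nat_lit 4) (.nd (nat_lit 5) (.nd (nat_lit 6) 
(.lf (nat_lit 131463) (.g (nat_lit 3012) (.e (nat_lit 16128) (nat_lit 225) (.e (nat_lit 1348) (nat_lit 102) (.e (nat_lit 286761) (nat_lit 13) (.e (nat_lit 393300) (nat_lit 27) (.e (nat_lit 491520) (nat_lit 0) .nil))))) .nil)) 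
(.lf (nat_lit 131527) (.g (nat_lit 1645) (.e (nat_lit 8567) (nat_lit 250) (.e (nat_lit 1661) (nat_lit 115) (.e (nat_lit 393268) (nat_lit 23) (.e (nat_lit 426448) (nat_lit 20) .nil)))) .nil))) (.nd (nat_lit 6) 
(.lf (nat_lit 131495) (.g (nat_lit 1627) (.e (nat_lit 16128) (nat_lit 230) (.e (nat_lit 1220) (nat_lit 90) (.e (nat_lit 81965) (nat_lit 26) (.e (nat_lit 147496) (nat_lit 11) (.e (nat_lit 24617) (nat_lit 7) .nil))))) .nil)) 
(.lf (nat_lit 131559) (.g (nat_lit 1932) (.e (nat_lit 16384) (nat_lit 0) (.e (nat_lit 3238) (nat_lit 197) (.e (nat_lit 532549) (nat_lit 12) (.e (nat_lit 360473) (nat_lit 8) (.e (nat_lit 557091) (nat_lit 12) .nil))))) .nil)))) (.nd (nat_lit 5) (.nd (nat_lit 6) 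
(.lf (nat_lit 131479) (.g (nat_lit 1622) (.e (nat_lit 8541) (nat_lit 226) (.e (nat_lit 57887) (nat_lit 270) (.e (nat_lit 1656) (nat_lit 115) (.e (nat_lit 393265) (nat_lit 22) (.e (nat_lit 417814) (nat_lit 10) .nil))))) .nil)) 
(.lf (nat_lit 131543) (.g (nat_lit 1629) (.e (nat_lit 16128) (nat_lit 250) (.e (nat_lit 1656) (nat_lit 115) (.e (nat_lit 393234) (nat_lit 17) (.e (nat_lit 7591) (nat_lit 407) (.e (nat_lit 73776) (nat_lit 26) .nil))))) .nil))) (.nd (nat_lit 6) 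
(.lf (nat_lit 131511) (.g (nat_lit 1052) (.e (nat_lit 8567) (nat_lit 250) (.e (nat_lit 1428) (nat_lit 108) (.e (nat_lit 336421) (nat_lit 28) (.e (nat_lit 434179) (nat_lit 0) .nil)))) .nil)) 
(.lf (nat_lit 131575) (.g (nat_lit 3260) (.e (nat_lit 16385) (nat_lit 0) (.e (nat_lit 7490) (nat_lit 402) (.e (nat_lit 1256) (nat_lit 92) (.e (nat_lit 98373) (nat_lit 29) (.e (nat_lit 450588) (nat_lit 10) (.e (nat_lit 573470) (nat_lit 11) .nil)))))) (.g (nat_lit 0) .nil .nil)))))) (.nd (nat_lit 4) (.nd (nat_lit 5) (.nd (nat_lit 6) 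
(.lf (nat_lit 131471) (.g (nat_lit 1494) (.e (nat_lit 16128) (nat_lit 225) (.e (nat_lit 2797) (nat_lit 180) (.e (nat_lit 303117) (nat_lit 2) (.e (nat_lit 196630) (nat_lit 9) (.e (nat_lit 1462) (nat_lit 108) .nil))))) .nil)) 
(.lf (nat_lit 131535) (.g (nat_lit 2896) (.e (nat_lit 8568) (nat_lit 250) (.e (nat_lit 1661) (nat_lit 115) (.e (nat_lit 393225) (nat_lit 9) (.e (nat_lit 335995) (nat_lit 1) (.e (nat_lit 57849) (nat_lit 252) .nil))))) .nil))) (.nd (nat_lit 6) 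
(.lf (nat_lit 131503) (.g (nat_lit 461) (.e (nat_lit 16128) (nat_lit 241) (.e (nat_lit 180225) (nat_lit 0) (.e (nat_lit 6806) (nat_lit 365) .nil))) .nil)) 
(.lf (nat_lit 131567) (.g (nat_lit 2638) (.e (nat_lit 16384) (nat_lit 0) (.e (nat_lit 7557) (nat_lit 402) (.e (nat_lit 1661) (nat_lit 115) (.e (nat_lit 393260) (nat_lit 21) (.e (nat_lit 409616) (nat_lit 10) (.e (nat_lit 7936) (nat_lit 300) .nil)))))) (.g (nat_lit 5) .nil .nil))))) (.nd (nat_lit 5) (.nd (nat_lit 6) 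
(.lf (nat_lit 131487) (.g (nat_lit 852) (.e (nat_lit 8544) (nat_lit 230) (.e (nat_lit 1217) (nat_lit 90) (.e (nat_lit 81946) (nat_lit 20) (.e (nat_lit 2279) (nat_lit 150) .nil)))) .nil)) 
(.lf (nat_lit 131551) (.g (nat_lit 2226) (.e (nat_lit 16128) (nat_lit 255) (.e (nat_lit 73746) (nat_lit 3) (.e (nat_lit 516179) (nat_lit 15) (.e (nat_lit 475214) (nat_lit 42) (.e (nat_lit 720938) (nat_lit 22) .nil))))) .nil))) (.nd (nat_lit 6) 
(.lf (nat_lit 131519) (.g (nat_lit 2202) (.e (nat_lit 8567) (nat_lit 250) (.e (nat_lit 1660) (nat_lit 115) (.e (nat_lit 393225) (nat_lit 9) (.e (nat_lit 335996) (nat_lit 1) (.e (nat_lit 57851) (nat_lit 252) .nil))))) .nil)) 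
(.lf (nat_lit 131583) (.g (nat_lit 1905) (.e (nat_lit 16386) (nat_lit 0) (.e (nat_lit 3280) (nat_lit 200) (.e (nat_lit 557104) (nat_lit 14) (.e (nat_lit 180252) (nat_lit 10) (.e (nat_lit 573488) (nat_lit 14) .nil))))) .nil)))))))))

noncomputable def tv1753 : DT := (.nd (nat_lit 0) (.nd (nat_lit 1) (.nd (nat_lit 2) (.nd (nat_lit 3) (.nd (nat_lit 4) (.nd (nat_lit 5) 
(.lf (nat_lit 131584) (.g (nat_lit 1361) (.e (nat_lit 16386) (nat_lit 0) (.e (nat_lit 7377) (nat_lit 390) (.e (nat_lit 24625) (nat_lit 9) (.e (nat_lit 336336) (nat_lit 20) .nil)))) .nil)) 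
(.lf (nat_lit 131616) (.g (nat_lit 3365) (.e (nat_lit 16388) (nat_lit 0) (.e (nat_lit 3499) (nat_lit 218) (.e (nat_lit 704738) (nat_lit 11) (.e (nat_lit 16392) (nat_lit 0) (.e (nat_lit 3279) (nat_lit 200) (.e (nat_lit 557104) (nat_lit 14) (.e (nat_lit 188160) (nat_lit 34) .nil))))))) (.g (nat_lit 6) .nil .nil)))) (.nd (nat_lit 5) 
(.lf (nat_lit 131600) (.g (nat_lit 160) (.e (nat_lit 16388) (nat_lit 0) (.e (nat_lit 3276) (nat_lit 200) (.e (nat_lit 557101) (nat_lit 13) .nil))) .nil)) 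
(.lf (nat_lit 131632) (.g (nat_lit 2372) (.e (nat_lit 16388) (nat_lit 0) (.e (nat_lit 7513) (nat_lit 402) (.e (nat_lit 1428) (nat_lit 108) (.e (nat_lit 336369) (nat_lit 27) (.e (nat_lit 426173) (nat_lit 7) (.e (nat_lit 409616) (nat_lit 10) (.e (nat_lit 7936) (nat_lit 300) .nil))))))) (.g (nat_lit 6) .nil .nil))))) (.nd (nat_lit 4) (.nd (nat_lit 5) 
(.lf (nat_lit 131592) (.g (nat_lit 3469) (.e (nat_lit 16387) (nat_lit 0) (.e (nat_lit 7490) (nat_lit 402) (.e (nat_lit 1256) (nat_lit 92) (.e (nat_lit 98373) (nat_lit 29) (.e (nat_lit 450588) (nat_lit 10) (.e (nat_lit 573471) (nat_lit 11) .nil)))))) (.g (nat_lit 0) .nil .nil))) 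
(.lf (nat_lit 131624) (.g (nat_lit 3128) (.e (nat_lit 16388) (nat_lit 0) (.e (nat_lit 7490) (nat_lit 402) (.e (nat_lit 1422) (nat_lit 108) (.e (nat_lit 336369) (nat_lit 27) (.e (nat_lit 426173) (nat_lit 7) (.e (nat_lit 409616) (nat_lit 10) (.e (nat_lit 7936) (nat_lit 300) .nil))))))) (.g (nat_lit 6) .nil .nil)))) (.nd (nat_lit 5) 
(.lf (nat_lit 131608) (.g (nat_lit 2095) (.e (nat_lit 16388) (nat_lit 0) (.e (nat_lit 3499) (nat_lit 218) (.e (nat_lit 704736) (nat_lit 11) (.e (nat_lit 16392) (nat_lit 0) (.e (nat_lit 3279) (nat_lit 200) (.e (nat_lit 557104) (nat_lit 14) (.e (nat_lit 188160) (nat_lit 34) .nil))))))) (.g (nat_lit 5) .nil .nil))) 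
(.lf (nat_lit 131640) (.g (nat_lit 2434) (.e (nat_lit 16388) (nat_lit 0) (.e (nat_lit 7538) (nat_lit 402) (.e (nat_lit 1660) (nat_lit 115) (.e (nat_lit 393260) (nat_lit 21) (.e (nat_lit 409616) (nat_lit 10) (.e (nat_lit 7936) (nat_lit 300) .nil)))))) (.g (nat_lit 4) .nil .nil)))))) (.nd (nat_lit 3) (.nd (nat_lit 4) (.nd (nat_lit 5) 
(.lf (nat_lit 131588) (.g (nat_lit 169) (.e (nat_lit 16387) (nat_lit 0) (.e (nat_lit 3276) (nat_lit 200) (.e (nat_lit 557107) (nat_lit 15) .nil))) .nil)) 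
(.lf (nat_lit 131620) (.g (nat_lit 769) (.e (nat_lit 16388) (nat_lit 0) (.e (nat_lit 7377) (nat_lit 390) (.e (nat_lit 24663) (nat_lit 14) (.e (nat_lit 401448) (nat_lit 10) .nil)))) .nil))) (.nd (nat_lit 5) 
(.lf (nat_lit 131604) (.g (nat_lit 3346) (.e (nat_lit 16388) (nat_lit 0) (.e (nat_lit 3276) (nat_lit 200) (.e (nat_lit 557105) (nat_lit 14) (.e (nat_lit 180252) (nat_lit 10) (.e (nat_lit 573451) (nat_lit 9) (.e (nat_lit 1449) (nat_lit 108) (.e (nat_lit 336013) (nat_lit 2) (.e (nat_lit 98048) (nat_lit 2) .nil)))))))) (.g (nat_lit 5) .nil .nil))) 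
(.lf (nat_lit 131636) (.g (nat_lit 3275) (.e (nat_lit 16388) (nat_lit 0) (.e (nat_lit 7523) (nat_lit 402) (.e (nat_lit 1661) (nat_lit 115) (.e (nat_lit 393260) (nat_lit 21) (.e (nat_lit 409616) (nat_lit 10) (.e (nat_lit 7936) (nat_lit 300) .nil)))))) (.g (nat_lit 5) .nil .nil))))) (.nd (nat_lit 4) (.nd (nat_lit 5) 
(.lf (nat_lit 131596) (.g (nat_lit 2354) (.e (nat_lit 16387) (nat_lit 0) (.e (nat_lit 7593) (nat_lit 407) (.e (nat_lit 73775) (nat_lit 26) (.e (nat_lit 778466) (nat_lit 11) (.e (nat_lit 24584) (nat_lit 0) (.e (nat_lit 7936) (nat_lit 345) .nil)))))) (.g (nat_lit 5) .nil .nil))) 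
(.lf (nat_lit 131628) (.g (nat_lit 2719) (.e (nat_lit 16388) (nat_lit 0) (.e (nat_lit 7495) (nat_lit 402) (.e (nat_lit 1413) (nat_lit 108) (.e (nat_lit 336369) (nat_lit 27) (.e (nat_lit 426173) (nat_lit 7) (.e (nat_lit 409616) (nat_lit 10) (.e (nat_lit 7936) (nat_lit 300) .nil))))))) (.g (nat_lit 6) .nil .nil)))) (.nd (nat_lit 5) 
(.lf (nat_lit 131612) (.g (nat_lit 2527) (.e (nat_lit 16388) (nat_lit 0) (.e (nat_lit 3499) (nat_lit 218) (.e (nat_lit 704737) (nat_lit 11) (.e (nat_lit 16392) (nat_lit 0) (.e (nat_lit 3279) (nat_lit 200) (.e (nat_lit 557104) (nat_lit 14) (.e (nat_lit 188160) (nat_lit 34) .nil))))))) (.g (nat_lit 5) .nil .nil))) 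
(.lf (nat_lit 131644) (.g (nat_lit 3167) (.e (nat_lit 16388) (nat_lit 0) (.e (nat_lit 7545) (nat_lit 402) (.e (nat_lit 1415) (nat_lit 108) (.e (nat_lit 336369) (nat_lit 27) (.e (nat_lit 426173) (nat_lit 7) (.e (nat_lit 409616) (nat_lit 10) (.e (nat_lit 7936) (nat_lit 300) .nil))))))) (.g (nat_lit 6) .nil .nil))))))) (.nd (nat_lit 2) (.nd (nat_lit 3) (.nd (nat_lit 4) (.nd (nat_lit 5) 
(.lf (nat_lit 131586) (.g (nat_lit 1753) (.e (nat_lit 16387) (nat_lit 0) (.e (nat_lit 3276) (nat_lit 200) (.e (nat_lit 557103) (nat_lit 14) (.e (nat_lit 180250) (nat_lit 10) (.e (nat_lit 573481) (nat_lit 13) .nil))))) .nil)) 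
(.lf (nat_lit 131618) (.g (nat_lit 423) (.e (nat_lit 16388) (nat_lit 0) (.e (nat_lit 7110) (nat_lit 380) (.e (nat_lit 164377) (nat_lit 253) .nil))) .nil))) (.nd (nat_lit 5) 
(.lf (nat_lit 131602) (.g (nat_lit 3904) (.e (nat_lit 16388) (nat_lit 0) (.e (nat_lit 3276) (nat_lit 200) (.e (nat_lit 557103) (nat_lit 14) (.e (nat_lit 180250) (nat_lit 10) (.e (nat_lit 573482) (nat_lit 13) (.e (nat_lit 65568) (nat_lit 2) (.e (nat_lit 98048) (nat_lit 2) .nil))))))) (.g (nat_lit 6) .nil .nil))) 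
(.lf (nat_lit 131634) (.g (nat_lit 3210) (.e (nat_lit 16388) (nat_lit 0) (.e (nat_lit 7513) (nat_lit 402) (.e (nat_lit 1661) (nat_lit 115) (.e (nat_lit 393260) (nat_lit 21) (.e (nat_lit 409616) (nat_lit 10) (.e (nat_lit 7936) (nat_lit 300) .nil)))))) (.g (nat_lit 5) .nil .nil))))) (.nd (nat_lit 4) (.nd (nat_lit 5) 
(.lf (nat_lit 131594) (.g (nat_lit 2196) (.e (nat_lit 16387) (nat_lit 0) (.e (nat_lit 7591) (nat_lit 407) (.e (nat_lit 73775) (nat_lit 26) (.e (nat_lit 778466) (nat_lit 11) (.e (nat_lit 24584) (nat_lit 0) (.e (nat_lit 7936) (nat_lit 345) .nil)))))) (.g (nat_lit 5) .nil .nil))) 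
(.lf (nat_lit 131626) (.g (nat_lit 2876) (.e (nat_lit 16388) (nat_lit 0) (.e (nat_lit 7490) (nat_lit 402) (.e (nat_lit 1653) (nat_lit 115) (.e (nat_lit 393260) (nat_lit 21) (.e (nat_lit 409616) (nat_lit 10) (.e (nat_lit 7936) (nat_lit 300) .nil)))))) (.g (nat_lit 5) .nil .nil)))) (.nd (nat_lit 5) 
(.lf (nat_lit 131610) (.g (nat_lit 1740) (.e (nat_lit 16388) (nat_lit 0) (.e (nat_lit 3499) (nat_lit 218) (.e (nat_lit 704737) (nat_lit 11) (.e (nat_lit 16392) (nat_lit 0) (.e (nat_lit 3277) (nat_lit 200) .nil))))) .nil)) 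
(.lf (nat_lit 131642) (.g (nat_lit 2879) (.e (nat_lit 16388) (nat_lit 0) (.e (nat_lit 7538) (nat_lit 402) (.e (nat_lit 1661) (nat_lit 115) (.e (nat_lit 393260) (nat_lit 21) (.e (nat_lit 409617) (nat_lit 10) (.e (nat_lit 7936) (nat_lit 300) .nil)))))) (.g (nat_lit 5) .nil .nil)))))) (.nd (nat_lit 3) (.nd (nat_lit 4) (.nd (nat_lit 5) 
(.lf (nat_lit 131590) (.g (nat_lit 2101) (.e (nat_lit 16387) (nat_lit 0) (.e (nat_lit 7490) (nat_lit 402) (.e (nat_lit 1256) (nat_lit 92) (.e (nat_lit 98372) (nat_lit 29) (.e (nat_lit 450586) (nat_lit 10) (.e (nat_lit 573470) (nat_lit 11) .nil)))))) (.g (nat_lit 0) .nil .nil))) 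
(.lf (nat_lit 131622) (.g (nat_lit 2867) (.e (nat_lit 16388) (nat_lit 0) (.e (nat_lit 7490) (nat_lit 402) (.e (nat_lit 1420) (nat_lit 108) (.e (nat_lit 336369) (nat_lit 27) (.e (nat_lit 426173) (nat_lit 7) (.e (nat_lit 409616) (nat_lit 10) (.e (nat_lit 7936) (nat_lit 300) .nil))))))) (.g (nat_lit 6) .nil .nil)))) (.nd (nat_lit 5) 
(.lf (nat_lit 131606) (.g (nat_lit 2167) (.e (nat_lit 16388) (nat_lit 0) (.e (nat_lit 3280) (nat_lit 200) (.e (nat_lit 557104) (nat_lit 14) (.e (nat_lit 180252) (nat_lit 10) (.e (nat_lit 573482) (nat_lit 13) .nil))))) .nil)) 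
(.lf (nat_lit 131638) (.g (nat_lit 1595) (.e (nat_lit 16388) (nat_lit 0) (.e (nat_lit 7536) (nat_lit 402) (.e (nat_lit 1250) (nat_lit 92) (.e (nat_lit 98372) (nat_lit 29) (.e (nat_lit 450586) (nat_lit 10) .nil))))) .nil)))) (.nd (nat_lit 4) (.nd (nat_lit 5) 
(.lf (nat_lit 131598) (.g (nat_lit 2245) (.e (nat_lit 16388) (nat_lit 0) (.e (nat_lit 3213) (nat_lit 195) (.e (nat_lit 516131) (nat_lit 3) (.e (nat_lit 221212) (nat_lit 22) (.e (nat_lit 196681) (nat_lit 17) (.e (nat_lit 131094) (nat_lit 2) (.e (nat_lit 98048) (nat_lit 2) .nil))))))) (.g (nat_lit 5) .nil .nil))) 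
(.lf (nat_lit 131630) (.g (nat_lit 2183) (.e (nat_lit 16388) (nat_lit 0) (.e (nat_lit 7511) (nat_lit 402) (.e (nat_lit 1428) (nat_lit 108) (.e (nat_lit 336369) (nat_lit 27) (.e (nat_lit 426173) (nat_lit 7) (.e (nat_lit 409616) (nat_lit 10) (.e (nat_lit 7936) (nat_lit 300) .nil))))))) (.g (nat_lit 6) .nil .nil)))) (.nd (nat_lit 5) 
(.lf (nat_lit 131614) (.g (nat_lit 2660) (.e (nat_lit 16388) (nat_lit 0) (.e (nat_lit 3499) (nat_lit 218) (.e (nat_lit 704738) (nat_lit 11) (.e (nat_lit 16392) (nat_lit 0) (.e (nat_lit 3277) (nat_lit 200) (.e (nat_lit 557104) (nat_lit 14) (.e (nat_lit 188160) (nat_lit 34) .nil))))))) (.g (nat_lit 4) .nil .nil))) 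
(.lf (nat_lit 131646) (.g (nat_lit 2682) (.e (nat_lit 16388) (nat_lit 0) (.e (nat_lit 7548) (nat_lit 402) (.e (nat_lit 1428) (nat_lit 108) (.e (nat_lit 336369) (nat_lit 27) (.e (nat_lit 426173) (nat_lit 7) (.e (nat_lit 409616) (nat_lit 10) (.e (nat_lit 7936) (nat_lit 300) .nil))))))) (.g (nat_lit 6) .nil .nil)))))))) 
(.nd (nat_lit 1) (.nd (nat_lit 2) (.nd (nat_lit 3) (.nd (nat_lit 4) (.nd (nat_lit 5) 
(.lf (nat_lit 131585) (.g (nat_lit 1579) (.e (nat_lit 16386) (nat_lit 0) (.e (nat_lit 7377) (nat_lit 390) (.e (nat_lit 24648) (nat_lit 12) (.e (nat_lit 385109) (nat_lit 51) (.e (nat_lit 802560) (nat_lit 4) .nil))))) .nil)) 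
(.lf (nat_lit 131617) (.g (nat_lit 3691) (.e (nat_lit 16388) (nat_lit 0) (.e (nat_lit 3555) (nat_lit 220) (.e (nat_lit 720956) (nat_lit 25) (.e (nat_lit 114719) (nat_lit 23) (.e (nat_lit 98350) (nat_lit 24) (.e (nat_lit 409616) (nat_lit 10) (.e (nat_lit 7936) (nat_lit 300) .nil))))))) (.g (nat_lit 6) .nil .nil)))) (.nd (nat_lit 5) 
(.lf (nat_lit 131601) (.g (nat_lit 3430) (.e (nat_lit 16388) (nat_lit 0) (.e (nat_lit 3276) (nat_lit 200) (.e (nat_lit 557103) (nat_lit 14) (.e (nat_lit 180250) (nat_lit 10) (.e (nat_lit 573480) (nat_lit 13) (.e (nat_lit 65568) (nat_lit 2) (.e (nat_lit 98048) (nat_lit 2) .nil))))))) (.g (nat_lit 6) .nil .nil))) 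
(.lf (nat_lit 131633) (.g (nat_lit 3020) (.e (nat_lit 16388) (nat_lit 0) (.e (nat_lit 7513) (nat_lit 402) (.e (nat_lit 1660) (nat_lit 115) (.e (nat_lit 393260) (nat_lit 21) (.e (nat_lit 409616) (nat_lit 10) (.e (nat_lit 7936) (nat_lit 300) .nil)))))) (.g (nat_lit 5) .nil .nil))))) (.nd (nat_lit 4) (.nd (nat_lit 5) 
(.lf (nat_lit 131593) (.g (nat_lit 1502) (.e (nat_lit 16387) (nat_lit 0) (.e (nat_lit 7513) (nat_lit 402) (.e (nat_lit 1660) (nat_lit 115) (.e (nat_lit 393260) (nat_lit 21) (.e (nat_lit 409616) (nat_lit 10) .nil))))) .nil)) 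
(.lf (nat_lit 131625) (.g (nat_lit 2819) (.e (nat_lit 16388) (nat_lit 0) (.e (nat_lit 7490) (nat_lit 402) (.e (nat_lit 1433) (nat_lit 108) (.e (nat_lit 336369) (nat_lit 27) (.e (nat_lit 426173) (nat_lit 7) (.e (nat_lit 409616) (nat_lit 10) (.e (nat_lit 7936) (nat_lit 300) .nil))))))) (.g (nat_lit 6) .nil .nil)))) (.nd (nat_lit 5) 
(.lf (nat_lit 131609) (.g (nat_lit 1459) (.e (nat_lit 16388) (nat_lit 0) (.e (nat_lit 3499) (nat_lit 218) (.e (nat_lit 704736) (nat_lit 11) (.e (nat_lit 16392) (nat_lit 0) (.e (nat_lit 7936) (nat_lit 200) .nil))))) .nil)) 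
(.lf (nat_lit 131641) (.g (nat_lit 3519) (.e (nat_lit 16388) (nat_lit 0) (.e (nat_lit 7538) (nat_lit 402) (.e (nat_lit 1661) (nat_lit 115) (.e (nat_lit 393260) (nat_lit 21) (.e (nat_lit 409616) (nat_lit 10) (.e (nat_lit 7936) (nat_lit 300) .nil)))))) (.g (nat_lit 5) .nil .nil)))))) (.nd (nat_lit 3) (.nd (nat_lit 4) (.nd (nat_lit 5) 
(.lf (nat_lit 131589) (.g (nat_lit 870) (.e (nat_lit 16387) (nat_lit 0) (.e (nat_lit 7486) (nat_lit 402) (.e (nat_lit 1401) (nat_lit 106) (.e (nat_lit 319533) (nat_lit 16) .nil)))) .nil)) 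
(.lf (nat_lit 131621) (.g (nat_lit 2921) (.e (nat_lit 16388) (nat_lit 0) (.e (nat_lit 7490) (nat_lit 402) (.e (nat_lit 1419) (nat_lit 108) (.e (nat_lit 336369) (nat_lit 27) (.e (nat_lit 426173) (nat_lit 7) (.e (nat_lit 409616) (nat_lit 10) (.e (nat_lit 7936) (nat_lit 300) .nil))))))) (.g (nat_lit 6) .nil .nil)))) (.nd (nat_lit 5) 
(.lf (nat_lit 131605) (.g (nat_lit 160) (.e (nat_lit 16388) (nat_lit 0) (.e (nat_lit 3276) (nat_lit 200) (.e (nat_lit 557107) (nat_lit 15) .nil))) .nil)) 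
(.lf (nat_lit 131637) (.g (nat_lit 3315) (.e (nat_lit 16388) (nat_lit 0) (.e (nat_lit 7523) (nat_lit 402) (.e (nat_lit 1661) (nat_lit 115) (.e (nat_lit 393260) (nat_lit 21) (.e (nat_lit 409617) (nat_lit 10) (.e (nat_lit 7936) (nat_lit 300) .nil)))))) (.g (nat_lit 4) .nil .nil))))) (.nd (nat_lit 4) (.nd (nat_lit 5) 
(.lf (nat_lit 131597) (.g (nat_lit 2169) (.e (nat_lit 16388) (nat_lit 0) (.e (nat_lit 3212) (nat_lit 195) (.e (nat_lit 516131) (nat_lit 3) (.e (nat_lit 221212) (nat_lit 22) (.e (nat_lit 196681) (nat_lit 17) (.e (nat_lit 131094) (nat_lit 2) (.e (nat_lit 98048) (nat_lit 2) .nil))))))) (.g (nat_lit 5) .nil .nil))) 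
(.lf (nat_lit 131629) (.g (nat_lit 590) (.e (nat_lit 16388) (nat_lit 0) (.e (nat_lit 7511) (nat_lit 402) (.e (nat_lit 1428) (nat_lit 108) (.e (nat_lit 336369) (nat_lit 27) .nil)))) .nil))) (.nd (nat_lit 5) 
(.lf (nat_lit 131613) (.g (nat_lit 2477) (.e (nat_lit 16388) (nat_lit 0) (.e (nat_lit 3499) (nat_lit 218) (.e (nat_lit 704738) (nat_lit 11) (.e (nat_lit 16392) (nat_lit 0) (.e (nat_lit 3277) (nat_lit 200) (.e (nat_lit 557103) (nat_lit 14) (.e (nat_lit 188160) (nat_lit 34) .nil))))))) (.g (nat_lit 4) .nil .nil))) 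
(.lf (nat_lit 131645) (.g (nat_lit 3202) (.e (nat_lit 16388) (nat_lit 0) (.e (nat_lit 7545) (nat_lit 402) (.e (nat_lit 1416) (nat_lit 108) (.e (nat_lit 336369) (nat_lit 27) (.e (nat_lit 426173) (nat_lit 7) (.e (nat_lit 409616) (nat_lit 10) (.e (nat_lit 7936) (nat_lit 300) .nil))))))) (.g (nat_lit 6) .nil .nil))))))) (.nd (nat_lit 2) (.nd (nat_lit 3) (.nd (nat_lit 4) (.nd (nat_lit 5) 
(.lf (nat_lit 131587) (.g (nat_lit 1905) (.e (nat_lit 16387) (nat_lit 0) (.e (nat_lit 3276) (nat_lit 200) (.e (nat_lit 557105) (nat_lit 14) (.e (nat_lit 180252) (nat_lit 10) (.e (nat_lit 573487) (nat_lit 14) .nil))))) .nil)) 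
(.lf (nat_lit 131619) (.g (nat_lit 3065) (.e (nat_lit 16388) (nat_lit 0) (.e (nat_lit 7303) (nat_lit 388) (.e (nat_lit 351) (nat_lit 28) (.e (nat_lit 393253) (nat_lit 18) (.e (nat_lit 164326) (nat_lit 230) (.e (nat_lit 163871) (nat_lit 2) (.e (nat_lit 196655) (nat_lit 11) .nil))))))) (.g (nat_lit 5) .nil .nil)))) (.nd (nat_lit 5) 
(.lf (nat_lit 131603) (.g (nat_lit 3636) (.e (nat_lit 16388) (nat_lit 0) (.e (nat_lit 3276) (nat_lit 200) (.e (nat_lit 557103) (nat_lit 14) (.e (nat_lit 180250) (nat_lit 10) (.e (nat_lit 573485) (nat_lit 13) (.e (nat_lit 65568) (nat_lit 2) (.e (nat_lit 98048) (nat_lit 2) .nil))))))) (.g (nat_lit 6) .nil .nil))) 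
(.lf (nat_lit 131635) (.g (nat_lit 1934) (.e (nat_lit 16388) (nat_lit 0) (.e (nat_lit 7523) (nat_lit 402) (.e (nat_lit 1428) (nat_lit 108) (.e (nat_lit 336369) (nat_lit 27) (.e (nat_lit 426173) (nat_lit 7) (.e (nat_lit 409616) (nat_lit 10) (.e (nat_lit 7936) (nat_lit 300) .nil))))))) (.g (nat_lit 5) .nil .nil))))) (.nd (nat_lit 4) (.nd (nat_lit 5) 
(.lf (nat_lit 131595) (.g (nat_lit 1847) (.e (nat_lit 16387) (nat_lit 0) (.e (nat_lit 7591) (nat_lit 407) (.e (nat_lit 73776) (nat_lit 26) (.e (nat_lit 778466) (nat_lit 11) (.e (nat_lit 24584) (nat_lit 0) (.e (nat_lit 7936) (nat_lit 345) .nil)))))) (.g (nat_lit 5) .nil .nil))) 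
(.lf (nat_lit 131627) (.g (nat_lit 3130) (.e (nat_lit 16388) (nat_lit 0) (.e (nat_lit 7490) (nat_lit 402) (.e (nat_lit 1655) (nat_lit 115) (.e (nat_lit 393260) (nat_lit 21) (.e (nat_lit 409616) (nat_lit 10) (.e (nat_lit 7936) (nat_lit 300) .nil)))))) (.g (nat_lit 5) .nil .nil)))) (.nd (nat_lit 5) 
(.lf (nat_lit 131611) (.g (nat_lit 1782) (.e (nat_lit 16388) (nat_lit 0) (.e (nat_lit 3499) (nat_lit 218) (.e (nat_lit 704737) (nat_lit 11) (.e (nat_lit 16392) (nat_lit 0) (.e (nat_lit 3279) (nat_lit 200) (.e (nat_lit 557103) (nat_lit 14) (.e (nat_lit 188160) (nat_lit 34) .nil))))))) (.g (nat_lit 4) .nil .nil))) 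
(.lf (nat_lit 131643) (.g (nat_lit 2510) (.e (nat_lit 16388) (nat_lit 0) (.e (nat_lit 7545) (nat_lit 402) (.e (nat_lit 1414) (nat_lit 108) (.e (nat_lit 336369) (nat_lit 27) (.e (nat_lit 426173) (nat_lit 7) (.e (nat_lit 409616) (nat_lit 10) (.e (nat_lit 7936) (nat_lit 300) .nil))))))) (.g (nat_lit 5) .nil .nil)))))) (.nd (nat_lit 3) (.nd (nat_lit 4) (.nd (nat_lit 5) 
(.lf (nat_lit 131591) (.g (nat_lit 3277) (.e (nat_lit 16387) (nat_lit 0) (.e (nat_lit 7490) (nat_lit 402) (.e (nat_lit 1256) (nat_lit 92) (.e (nat_lit 98373) (nat_lit 29) (.e (nat_lit 450588) (nat_lit 10) (.e (nat_lit 573470) (nat_lit 11) .nil)))))) (.g (nat_lit 0) .nil .nil))) 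
(.lf (nat_lit 131623) (.g (nat_lit 2816) (.e (nat_lit 16388) (nat_lit 0) (.e (nat_lit 7490) (nat_lit 402) (.e (nat_lit 1421) (nat_lit 108) (.e (nat_lit 336369) (nat_lit 27) (.e (nat_lit 426173) (nat_lit 7) (.e (nat_lit 409616) (nat_lit 10) (.e (nat_lit 7936) (nat_lit 300) .nil))))))) (.g (nat_lit 6) .nil .nil)))) (.nd (nat_lit 5) 
(.lf (nat_lit 131607) (.g (nat_lit 1357) (.e (nat_lit 16388) (nat_lit 0) (.e (nat_lit 3499) (nat_lit 218) (.e (nat_lit 704736) (nat_lit 11) (.e (nat_lit 16392) (nat_lit 0) (.e (nat_lit 3277) (nat_lit 200) .nil))))) .nil)) 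
(.lf (nat_lit 131639) (.g (nat_lit 3011) (.e (nat_lit 16388) (nat_lit 0) (.e (nat_lit 7538) (nat_lit 402) (.e (nat_lit 1428) (nat_lit 108) (.e (nat_lit 336369) (nat_lit 27) (.e (nat_lit 426173) (nat_lit 7) (.e (nat_lit 409616) (nat_lit 10) (.e (nat_lit 7936) (nat_lit 300) .nil))))))) (.g (nat_lit 6) .nil .nil))))) (.nd (nat_lit 4) (.nd (nat_lit 5) 
(.lf (nat_lit 131599) (.g (nat_lit 2245) (.e (nat_lit 16388) (nat_lit 0) (.e (nat_lit 3214) (nat_lit 195) (.e (nat_lit 516131) (nat_lit 3) (.e (nat_lit 221212) (nat_lit 22) (.e (nat_lit 196681) (nat_lit 17) (.e (nat_lit 131094) (nat_lit 2) (.e (nat_lit 98048) (nat_lit 2) .nil))))))) (.g (nat_lit 5) .nil .nil))) 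
(.lf (nat_lit 131631) (.g (nat_lit 3659) (.e (nat_lit 16388) (nat_lit 0) (.e (nat_lit 7511) (nat_lit 402) (.e (nat_lit 1661) (nat_lit 115) (.e (nat_lit 393260) (nat_lit 21) (.e (nat_lit 409616) (nat_lit 10) (.e (nat_lit 7936) (nat_lit 300) .nil)))))) (.g (nat_lit 5) .nil .nil)))) (.nd (nat_lit 5) 
(.lf (nat_lit 131615) (.g (nat_lit 2620) (.e (nat_lit 16388) (nat_lit 0) (.e (nat_lit 3499) (nat_lit 218) (.e (nat_lit 704738) (nat_lit 11) (.e (nat_lit 16392) (nat_lit 0) (.e (nat_lit 3279) (nat_lit 200) (.e (nat_lit 557103) (nat_lit 14) (.e (nat_lit 188160) (nat_lit 34) .nil))))))) (.g (nat_lit 4) .nil .nil))) 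
(.lf (nat_lit 131647) (.g (nat_lit 4234) (.e (nat_lit 16388) (nat_lit 0) (.e (nat_lit 7548) (nat_lit 402) (.e (nat_lit 1661) (nat_lit 115) (.e (nat_lit 393260) (nat_lit 21) (.e (nat_lit 409616) (nat_lit 10) (.e (nat_lit 7936) (nat_lit 300) .nil)))))) (.g (nat_lit 5) .nil .nil)))))))))

noncomputable def tv1754 : DT := (.nd (nat_lit 0) (.nd (nat_lit 1) (.nd (nat_lit 2) (.nd (nat_lit 3) (.nd (nat_lit 4) (.nd (nat_lit 5) 
(.lf (nat_lit 131648) (.g (nat_lit 1139) (.e (nat_lit 16388) (nat_lit 0) (.e (nat_lit 7567) (nat_lit 402) (.e (nat_lit 1428) (nat_lit 108) (.e (nat_lit 336369) (nat_lit 27) (.e (nat_lit 426173) (nat_lit 7) .nil))))) .nil)) 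
(.lf (nat_lit 131680) (.g (nat_lit 3871) (.e (nat_lit 16388) (nat_lit 0) (.e (nat_lit 7593) (nat_lit 407) (.e (nat_lit 73775) (nat_lit 26) (.e (nat_lit 778362) (nat_lit 9) (.e (nat_lit 297) (nat_lit 22) (.e (nat_lit 352000) (nat_lit 10) .nil)))))) (.g (nat_lit 5) .nil .nil)))) (.nd (nat_lit 5) 
(.lf (nat_lit 131664) (.g (nat_lit 514) (.e (nat_lit 16388) (nat_lit 0) (.e (nat_lit 7591) (nat_lit 407) (.e (nat_lit 73733) (nat_lit 0) .nil))) .nil)) 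
(.lf (nat_lit 131696) (.g (nat_lit 2781) (.e (nat_lit 16392) (nat_lit 0) (.e (nat_lit 3279) (nat_lit 200) (.e (nat_lit 557108) (nat_lit 15) (.e (nat_lit 188446) (nat_lit 21) (.e (nat_lit 164174) (nat_lit 153) .nil))))) .nil)))) (.nd (nat_lit 4) (.nd (nat_lit 5) 
(.lf (nat_lit 131656) (.g (nat_lit 2620) (.e (nat_lit 16388) (nat_lit 0) (.e (nat_lit 7587) (nat_lit 406) (.e (nat_lit 65650) (nat_lit 27) (.e (nat_lit 426172) (nat_lit 7) (.e (nat_lit 409616) (nat_lit 10) (.e (nat_lit 7936) (nat_lit 300) .nil)))))) (.g (nat_lit 5) .nil .nil))) 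
(.lf (nat_lit 131688) (.g (nat_lit 799) (.e (nat_lit 16392) (nat_lit 0) (.e (nat_lit 3279) (nat_lit 200) (.e (nat_lit 557107) (nat_lit 15) (.e (nat_lit 196352) (nat_lit 9) .nil)))) .nil))) (.nd (nat_lit 5) 
(.lf (nat_lit 131672) (.g (nat_lit 2415) (.e (nat_lit 16388) (nat_lit 0) (.e (nat_lit 7591) (nat_lit 407) (.e (nat_lit 73775) (nat_lit 26) (.e (nat_lit 778465) (nat_lit 11) (.e (nat_lit 24580) (nat_lit 0) (.e (nat_lit 6510) (nat_lit 345) .nil)))))) (.g (nat_lit 5) .nil .nil))) 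
(.lf (nat_lit 131704) (.g (nat_lit 3751) (.e (nat_lit 16392) (nat_lit 0) (.e (nat_lit 3543) (nat_lit 219) (.e (nat_lit 712755) (nat_lit 30) (.e (nat_lit 450588) (nat_lit 10) (.e (nat_lit 573475) (nat_lit 12) (.e (nat_lit 57509) (nat_lit 39) (.e (nat_lit 647199) (nat_lit 11) .nil))))))) (.g (nat_lit 5) .nil .nil)))))) (.nd (nat_lit 3) (.nd (nat_lit 4) (.nd (nat_lit 5) 
(.lf (nat_lit 131652) (.g (nat_lit 2368) (.e (nat_lit 16388) (nat_lit 0) (.e (nat_lit 7581) (nat_lit 405) (.e (nat_lit 57479) (nat_lit 28) (.e (nat_lit 557094) (nat_lit 12) (.e (nat_lit 164238) (nat_lit 187) (.e (nat_lit 1638) (nat_lit 114) (.e (nat_lit 392960) (nat_lit 2) .nil))))))) (.g (nat_lit 4) .nil .nil))) 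
(.lf (nat_lit 131684) (.g (nat_lit 4152) (.e (nat_lit 16389) (nat_lit 0) (.e (nat_lit 3242) (nat_lit 197) (.e (nat_lit 532550) (nat_lit 12) (.e (nat_lit 360474) (nat_lit 8) (.e (nat_lit 557094) (nat_lit 12) .nil))))) .nil))) (.nd (nat_lit 5) 
(.lf (nat_lit 131668) (.g (nat_lit 3913) (.e (nat_lit 16388) (nat_lit 0) (.e (nat_lit 7591) (nat_lit 407) (.e (nat_lit 73775) (nat_lit 26) (.e (nat_lit 778362) (nat_lit 9) (.e (nat_lit 232) (nat_lit 21) (.e (nat_lit 335907) (nat_lit 0) (.e (nat_lit 7936) (nat_lit 345) .nil))))))) (.g (nat_lit 6) .nil .nil))) 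
(.lf (nat_lit 131700) (.g (nat_lit 3899) (.e (nat_lit 16392) (nat_lit 0) (.e (nat_lit 3281) (nat_lit 200) (.e (nat_lit 557108) (nat_lit 15) (.e (nat_lit 188446) (nat_lit 21) (.e (nat_lit 164172) (nat_lit 153) .nil))))) .nil)))) (.nd (nat_lit 4) (.nd (nat_lit 5) 
(.lf (nat_lit 131660) (.g (nat_lit 1678) (.e (nat_lit 16388) (nat_lit 0) (.e (nat_lit 7587) (nat_lit 406) (.e (nat_lit 65654) (nat_lit 27) (.e (nat_lit 426172) (nat_lit 7) (.e (nat_lit 409616) (nat_lit 10) (.e (nat_lit 7936) (nat_lit 300) .nil)))))) (.g (nat_lit 4) .nil .nil))) 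
(.lf (nat_lit 131692) (.g (nat_lit 2928) (.e (nat_lit 16392) (nat_lit 0) (.e (nat_lit 3279) (nat_lit 200) (.e (nat_lit 557108) (nat_lit 15) (.e (nat_lit 188417) (nat_lit 0) (.e (nat_lit 6216) (nat_lit 333) .nil))))) .nil))) (.nd (nat_lit 5) 
(.lf (nat_lit 131676) (.g (nat_lit 1001) (.e (nat_lit 16388) (nat_lit 0) (.e (nat_lit 7593) (nat_lit 407) (.e (nat_lit 73732) (nat_lit 0) (.e (nat_lit 7147) (nat_lit 382) .nil)))) .nil)) 
(.lf (nat_lit 131708) (.g (nat_lit 2005) (.e (nat_lit 16392) (nat_lit 0) (.e (nat_lit 6989) (nat_lit 377) (.e (nat_lit 2777) (nat_lit 178) (.e (nat_lit 294656) (nat_lit 32) .nil)))) .nil)))))) (.nd (nat_lit 2) (.nd (nat_lit 3) (.nd (nat_lit 4) (.nd (nat_lit 5) 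
(.lf (nat_lit 131650) (.g (nat_lit 3108) (.e (nat_lit 16388) (nat_lit 0) (.e (nat_lit 7567) (nat_lit 402) (.e (nat_lit 1661) (nat_lit 115) (.e (nat_lit 393260) (nat_lit 21) (.e (nat_lit 409616) (nat_lit 10) (.e (nat_lit 7936) (nat_lit 300) .nil)))))) (.g (nat_lit 5) .nil .nil))) 
(.lf (nat_lit 131682) (.g (nat_lit 1789) (.e (nat_lit 16388) (nat_lit 0) (.e (nat_lit 7593) (nat_lit 407) (.e (nat_lit 73775) (nat_lit 26) (.e (nat_lit 778465) (nat_lit 11) (.e (nat_lit 24580) (nat_lit 0) (.e (nat_lit 6508) (nat_lit 345) .nil)))))) (.g (nat_lit 4) .nil .nil)))) (.nd (nat_lit 5) 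
(.lf (nat_lit 131666) (.g (nat_lit 499) (.e (nat_lit 16388) (nat_lit 0) (.e (nat_lit 7591) (nat_lit 407) (.e (nat_lit 73773) (nat_lit 25) .nil))) .nil)) 
(.lf (nat_lit 131698) (.g (nat_lit 3216) (.e (nat_lit 16392) (nat_lit 0) (.e (nat_lit 3281) (nat_lit 200) (.e (nat_lit 557108) (nat_lit 15) (.e (nat_lit 188417) (nat_lit 0) (.e (nat_lit 6217) (nat_lit 333) .nil))))) .nil)))) (.nd (nat_lit 4) (.nd (nat_lit 5) 
(.lf (nat_lit 131658) (.g (nat_lit 1455) (.e (nat_lit 16388) (nat_lit 0) (.e (nat_lit 7587) (nat_lit 406) (.e (nat_lit 65653) (nat_lit 27) (.e (nat_lit 426182) (nat_lit 8) (.e (nat_lit 417814) (nat_lit 10) .nil))))) .nil)) 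
(.lf (nat_lit 131690) (.g (nat_lit 1613) (.e (nat_lit 16392) (nat_lit 0) (.e (nat_lit 3279) (nat_lit 200) (.e (nat_lit 557108) (nat_lit 15) (.e (nat_lit 188417) (nat_lit 0) .nil)))) .nil))) (.nd (nat_lit 5) 
(.lf (nat_lit 131674) (.g (nat_lit 3268) (.e (nat_lit 16388) (nat_lit 0) (.e (nat_lit 7591) (nat_lit 407) (.e (nat_lit 73776) (nat_lit 26) (.e (nat_lit 778362) (nat_lit 9) (.e (nat_lit 297) (nat_lit 22) (.e (nat_lit 352000) (nat_lit 10) .nil)))))) (.g (nat_lit 5) .nil .nil))) 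
(.lf (nat_lit 131706) (.g (nat_lit 3336) (.e (nat_lit 16392) (nat_lit 0) (.e (nat_lit 6989) (nat_lit 377) (.e (nat_lit 2777) (nat_lit 178) (.e (nat_lit 286771) (nat_lit 29) (.e (nat_lit 442409) (nat_lit 20) (.e (nat_lit 2422) (nat_lit 157) (.e (nat_lit 4751) (nat_lit 281) (.e (nat_lit 1128) (nat_lit 83) .nil)))))))) (.g (nat_lit 7) .nil .nil)))))) 
(.nd (nat_lit 3) (.nd (nat_lit 4) (.nd (nat_lit 5) 
(.lf (nat_lit 131654) (.g (nat_lit 2458) (.e (nat_lit 16388) (nat_lit 0) (.e (nat_lit 7583) (nat_lit 405) (.e (nat_lit 57464) (nat_lit 23) (.e (nat_lit 516151) (nat_lit 9) (.e (nat_lit 426281) (nat_lit 10) .nil))))) .nil)) 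
(.lf (nat_lit 131686) (.g (nat_lit 1651) (.e (nat_lit 16392) (nat_lit 0) (.e (nat_lit 3277) (nat_lit 200) (.e (nat_lit 557108) (nat_lit 15) (.e (nat_lit 196352) (nat_lit 10) .nil)))) .nil))) (.nd (nat_lit 5) 
(.lf (nat_lit 131670) (.g (nat_lit 2023) (.e (nat_lit 16388) (nat_lit 0) (.e (nat_lit 7591) (nat_lit 407) (.e (nat_lit 73775) (nat_lit 26) (.e (nat_lit 778465) (nat_lit 11) (.e (nat_lit 24578) (nat_lit 0) (.e (nat_lit 6508) (nat_lit 345) .nil)))))) (.g (nat_lit 4) .nil .nil))) 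
(.lf (nat_lit 131702) (.g (nat_lit 3925) (.e (nat_lit 16392) (nat_lit 0) (.e (nat_lit 3281) (nat_lit 200) (.e (nat_lit 557108) (nat_lit 15) (.e (nat_lit 188446) (nat_lit 21) (.e (nat_lit 164175) (nat_lit 153) (.e (nat_lit 8207) (nat_lit 4) (.e (nat_lit 49189) (nat_lit 11) .nil))))))) (.g (nat_lit 4) .nil .nil))))) (.nd (nat_lit 4) (.nd (nat_lit 5) 
(.lf (nat_lit 131662) (.g (nat_lit 2851) (.e (nat_lit 16388) (nat_lit 0) (.e (nat_lit 7589) (nat_lit 406) (.e (nat_lit 65653) (nat_lit 27) (.e (nat_lit 426172) (nat_lit 7) (.e (nat_lit 409616) (nat_lit 10) (.e (nat_lit 7936) (nat_lit 300) .nil)))))) (.g (nat_lit 5) .nil .nil))) 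
(.lf (nat_lit 131694) (.g (nat_lit 1375) (.e (nat_lit 16392) (nat_lit 0) (.e (nat_lit 3279) (nat_lit 200) (.e (nat_lit 557108) (nat_lit 15) (.e (nat_lit 196352) (nat_lit 19) .nil)))) .nil))) (.nd (nat_lit 5) 
(.lf (nat_lit 131678) (.g (nat_lit 606) (.e (nat_lit 16388) (nat_lit 0) (.e (nat_lit 7593) (nat_lit 407) (.e (nat_lit 73736) (nat_lit 0) .nil))) .nil)) 
(.lf (nat_lit 131710) (.g (nat_lit 1497) (.e (nat_lit 16392) (nat_lit 0) (.e (nat_lit 6989) (nat_lit 377) (.e (nat_lit 2779) (nat_lit 178) (.e (nat_lit 286771) (nat_lit 29) .nil)))) .nil))))))) (.nd (nat_lit 1) (.nd (nat_lit 2) (.nd (nat_lit 3) (.nd (nat_lit 4) (.nd (nat_lit 5) 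
(.lf (nat_lit 131649) (.g (nat_lit 2650) (.e (nat_lit 16388) (nat_lit 0) (.e (nat_lit 7567) (nat_lit 402) (.e (nat_lit 1428) (nat_lit 108) (.e (nat_lit 336369) (nat_lit 27) (.e (nat_lit 426173) (nat_lit 7) (.e (nat_lit 409616) (nat_lit 10) (.e (nat_lit 7936) (nat_lit 300) .nil))))))) (.g (nat_lit 6) .nil .nil))) 
(.lf (nat_lit 131681) (.g (nat_lit 1930) (.e (nat_lit 16388) (nat_lit 0) (.e (nat_lit 7593) (nat_lit 407) (.e (nat_lit 73775) (nat_lit 26) (.e (nat_lit 778465) (nat_lit 11) (.e (nat_lit 24578) (nat_lit 0) .nil))))) .nil))) (.nd (nat_lit 5) 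
(.lf (nat_lit 131665) (.g (nat_lit 1744) (.e (nat_lit 16388) (nat_lit 0) (.e (nat_lit 7591) (nat_lit 407) (.e (nat_lit 73733) (nat_lit 0) (.e (nat_lit 7147) (nat_lit 382) (.e (nat_lit 1206) (nat_lit 89) (.e (nat_lit 81664) (nat_lit 42) .nil)))))) (.g (nat_lit 4) .nil .nil))) 
(.lf (nat_lit 131697) (.g (nat_lit 2028) (.e (nat_lit 16392) (nat_lit 0) (.e (nat_lit 3281) (nat_lit 200) (.e (nat_lit 557108) (nat_lit 15) (.e (nat_lit 188417) (nat_lit 0) .nil)))) .nil)))) (.nd (nat_lit 4) (.nd (nat_lit 5) 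
(.lf (nat_lit 131657) (.g (nat_lit 3005) (.e (nat_lit 16388) (nat_lit 0) (.e (nat_lit 7587) (nat_lit 406) (.e (nat_lit 65653) (nat_lit 27) (.e (nat_lit 426172) (nat_lit 7) (.e (nat_lit 409616) (nat_lit 10) (.e (nat_lit 7936) (nat_lit 300) .nil)))))) (.g (nat_lit 5) .nil .nil))) 
(.lf (nat_lit 131689) (.g (nat_lit 1806) (.e (nat_lit 16392) (nat_lit 0) (.e (nat_lit 3279) (nat_lit 200) (.e (nat_lit 557108) (nat_lit 15) (.e (nat_lit 188416) (nat_lit 0) .nil)))) .nil))) (.nd (nat_lit 5) 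
(.lf (nat_lit 131673) (.g (nat_lit 2470) (.e (nat_lit 16388) (nat_lit 0) (.e (nat_lit 7591) (nat_lit 407) (.e (nat_lit 73775) (nat_lit 26) (.e (nat_lit 778466) (nat_lit 11) (.e (nat_lit 24584) (nat_lit 0) (.e (nat_lit 7936) (nat_lit 345) .nil)))))) (.g (nat_lit 5) .nil .nil))) 
(.lf (nat_lit 131705) (.g (nat_lit 2000) (.e (nat_lit 16392) (nat_lit 0) (.e (nat_lit 6989) (nat_lit 377) (.e (nat_lit 2777) (nat_lit 178) (.e (nat_lit 286771) (nat_lit 29) .nil)))) .nil))))) (.nd (nat_lit 3) (.nd (nat_lit 4) (.nd (nat_lit 5) 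
(.lf (nat_lit 131653) (.g (nat_lit 4255) (.e (nat_lit 16388) (nat_lit 0) (.e (nat_lit 7581) (nat_lit 405) (.e (nat_lit 57480) (nat_lit 28) (.e (nat_lit 557091) (nat_lit 12) (.e (nat_lit 164238) (nat_lit 187) (.e (nat_lit 1638) (nat_lit 114) (.e (nat_lit 392960) (nat_lit 2) .nil))))))) (.g (nat_lit 6) .nil .nil))) 
(.lf (nat_lit 131685) (.g (nat_lit 1651) (.e (nat_lit 16392) (nat_lit 0) (.e (nat_lit 3277) (nat_lit 200) (.e (nat_lit 557108) (nat_lit 15) (.e (nat_lit 196352) (nat_lit 9) .nil)))) .nil))) (.nd (nat_lit 5) 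
(.lf (nat_lit 131669) (.g (nat_lit 3933) (.e (nat_lit 16388) (nat_lit 0) (.e (nat_lit 7591) (nat_lit 407) (.e (nat_lit 73775) (nat_lit 26) (.e (nat_lit 778362) (nat_lit 9) (.e (nat_lit 297) (nat_lit 22) (.e (nat_lit 352000) (nat_lit 10) .nil)))))) (.g (nat_lit 5) .nil .nil))) 
(.lf (nat_lit 131701) (.g (nat_lit 3862) (.e (nat_lit 16392) (nat_lit 0) (.e (nat_lit 3281) (nat_lit 200) (.e (nat_lit 557108) (nat_lit 15) (.e (nat_lit 188446) (nat_lit 21) (.e (nat_lit 164174) (nat_lit 153) .nil))))) .nil)))) (.nd (nat_lit 4) (.nd (nat_lit 5) 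
(.lf (nat_lit 131661) (.g (nat_lit 2892) (.e (nat_lit 16388) (nat_lit 0) (.e (nat_lit 7589) (nat_lit 406) (.e (nat_lit 65649) (nat_lit 27) (.e (nat_lit 426172) (nat_lit 7) (.e (nat_lit 409616) (nat_lit 10) (.e (nat_lit 7936) (nat_lit 300) .nil)))))) (.g (nat_lit 5) .nil .nil))) 
(.lf (nat_lit 131693) (.g (nat_lit 1550) (.e (nat_lit 16392) (nat_lit 0) (.e (nat_lit 3279) (nat_lit 200) (.e (nat_lit 557108) (nat_lit 15) (.e (nat_lit 188420) (nat_lit 0) .nil)))) .nil))) (.nd (nat_lit 5) 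
(.lf (nat_lit 131677) (.g (nat_lit 1777) (.e (nat_lit 16388) (nat_lit 0) (.e (nat_lit 7593) (nat_lit 407) (.e (nat_lit 73732) (nat_lit 0) (.e (nat_lit 7147) (nat_lit 382) (.e (nat_lit 1206) (nat_lit 89) (.e (nat_lit 81664) (nat_lit 42) .nil)))))) (.g (nat_lit 5) .nil .nil))) 
(.lf (nat_lit 131709) (.g (nat_lit 376) (.e (nat_lit 16392) (nat_lit 0) (.e (nat_lit 6989) (nat_lit 377) (.e (nat_lit 2779) (nat_lit 178) .nil))) .nil)))))) (.nd (nat_lit 2) (.nd (nat_lit 3) (.nd (nat_lit 4) (.nd (nat_lit 5) 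
(.lf (nat_lit 131651) (.g (nat_lit 2805) (.e (nat_lit 16388) (nat_lit 0) (.e (nat_lit 7567) (nat_lit 402) (.e (nat_lit 1661) (nat_lit 115) (.e (nat_lit 393260) (nat_lit 21) (.e (nat_lit 409617) (nat_lit 10) (.e (nat_lit 7936) (nat_lit 300) .nil)))))) (.g (nat_lit 4) .nil .nil))) 
(.lf (nat_lit 131683) (.g (nat_lit 2442) (.e (nat_lit 16388) (nat_lit 0) (.e (nat_lit 7593) (nat_lit 407) (.e (nat_lit 73775) (nat_lit 26) (.e (nat_lit 778466) (nat_lit 11) (.e (nat_lit 24584) (nat_lit 0) (.e (nat_lit 7936) (nat_lit 345) .nil)))))) (.g (nat_lit 5) .nil .nil)))) (.nd (nat_lit 5) 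
(.lf (nat_lit 131667) (.g (nat_lit 1100) (.e (nat_lit 16388) (nat_lit 0) (.e (nat_lit 7591) (nat_lit 407) (.e (nat_lit 73773) (nat_lit 25) (.e (nat_lit 770073) (nat_lit 9) (.e (nat_lit 81664) (nat_lit 42) .nil))))) .nil)) 
(.lf (nat_lit 131699) (.g (nat_lit 1447) (.e (nat_lit 16392) (nat_lit 0) (.e (nat_lit 3281) (nat_lit 200) (.e (nat_lit 557108) (nat_lit 15) (.e (nat_lit 188446) (nat_lit 21) .nil)))) .nil)))) (.nd (nat_lit 4) (.nd (nat_lit 5) 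
(.lf (nat_lit 131659) (.g (nat_lit 1989) (.e (nat_lit 16388) (nat_lit 0) (.e (nat_lit 7587) (nat_lit 406) (.e (nat_lit 65653) (nat_lit 27) (.e (nat_lit 426182) (nat_lit 8) (.e (nat_lit 417820) (nat_lit 10) (.e (nat_lit 7936) (nat_lit 300) .nil)))))) (.g (nat_lit 5) .nil .nil))) 
(.lf (nat_lit 131691) (.g (nat_lit 2935) (.e (nat_lit 16392) (nat_lit 0) (.e (nat_lit 3279) (nat_lit 200) (.e (nat_lit 557108) (nat_lit 15) (.e (nat_lit 188417) (nat_lit 0) (.e (nat_lit 6207) (nat_lit 333) .nil))))) .nil))) (.nd (nat_lit 5) 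
(.lf (nat_lit 131675) (.g (nat_lit 1966) (.e (nat_lit 16388) (nat_lit 0) (.e (nat_lit 7591) (nat_lit 407) (.e (nat_lit 73776) (nat_lit 26) (.e (nat_lit 778466) (nat_lit 11) (.e (nat_lit 24584) (nat_lit 0) (.e (nat_lit 7936) (nat_lit 345) .nil)))))) (.g (nat_lit 5) .nil .nil))) 
(.lf (nat_lit 131707) (.g (nat_lit 2005) (.e (nat_lit 16392) (nat_lit 0) (.e (nat_lit 6989) (nat_lit 377) (.e (nat_lit 2777) (nat_lit 178) (.e (nat_lit 294656) (nat_lit 30) .nil)))) .nil))))) (.nd (nat_lit 3) (.nd (nat_lit 4) (.nd (nat_lit 5) 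
(.lf (nat_lit 131655) (.g (nat_lit 3071) (.e (nat_lit 16388) (nat_lit 0) (.e (nat_lit 7587) (nat_lit 406) (.e (nat_lit 65649) (nat_lit 27) (.e (nat_lit 426172) (nat_lit 7) (.e (nat_lit 409616) (nat_lit 10) (.e (nat_lit 7936) (nat_lit 300) .nil)))))) (.g (nat_lit 5) .nil .nil))) 
(.lf (nat_lit 131687) (.g (nat_lit 1064) (.e (nat_lit 16392) (nat_lit 0) (.e (nat_lit 3279) (nat_lit 200) (.e (nat_lit 557107) (nat_lit 15) (.e (nat_lit 188417) (nat_lit 0) .nil)))) .nil))) (.nd (nat_lit 5) 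
(.lf (nat_lit 131671) (.g (nat_lit 2045) (.e (nat_lit 16388) (nat_lit 0) (.e (nat_lit 7591) (nat_lit 407) (.e (nat_lit 73775) (nat_lit 26) (.e (nat_lit 778465) (nat_lit 11) (.e (nat_lit 24580) (nat_lit 0) (.e (nat_lit 6508) (nat_lit 345) .nil)))))) (.g (nat_lit 4) .nil .nil))) 
(.lf (nat_lit 131703) (.g (nat_lit 3899) (.e (nat_lit 16392) (nat_lit 0) (.e (nat_lit 3281) (nat_lit 200) (.e (nat_lit 557108) (nat_lit 15) (.e (nat_lit 188446) (nat_lit 21) (.e (nat_lit 164182) (nat_lit 154) .nil))))) .nil)))) (.nd (nat_lit 4) (.nd (nat_lit 5) 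
(.lf (nat_lit 131663) (.g (nat_lit 2032) (.e (nat_lit 16388) (nat_lit 0) (.e (nat_lit 7589) (nat_lit 406) (.e (nat_lit 65653) (nat_lit 27) (.e (nat_lit 426182) (nat_lit 8) (.e (nat_lit 417820) (nat_lit 10) (.e (nat_lit 7936) (nat_lit 300) .nil)))))) (.g (nat_lit 5) .nil .nil))) 
(.lf (nat_lit 131695) (.g (nat_lit 3239) (.e (nat_lit 16392) (nat_lit 0) (.e (nat_lit 3279) (nat_lit 200) (.e (nat_lit 557108) (nat_lit 15) (.e (nat_lit 188446) (nat_lit 21) (.e (nat_lit 164172) (nat_lit 153) (.e (nat_lit 8207) (nat_lit 4) (.e (nat_lit 49189) (nat_lit 11) .nil))))))) (.g (nat_lit 4) .nil .nil)))) (.nd (nat_lit 5) 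
(.lf (nat_lit 131679) (.g (nat_lit 3775) (.e (nat_lit 16388) (nat_lit 0) (.e (nat_lit 7593) (nat_lit 407) (.e (nat_lit 73775) (nat_lit 26) (.e (nat_lit 778362) (nat_lit 9) (.e (nat_lit 232) (nat_lit 21) (.e (nat_lit 335907) (nat_lit 0) (.e (nat_lit 7936) (nat_lit 345) .nil))))))) (.g (nat_lit 6) .nil .nil))) 
(.lf (nat_lit 131711) (.g (nat_lit 1240) (.e (nat_lit 16392) (nat_lit 0) (.e (nat_lit 6989) (nat_lit 377) (.e (nat_lit 2779) (nat_lit 178) (.e (nat_lit 294656) (nat_lit 30) .nil)))) .nil))))))))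

noncomputable def tv1755 : DT := (.nd (nat_lit 0) (.nd (nat_lit 1) (.nd (nat_lit 2) (.nd (nat_lit 3) (.nd (nat_lit 4) (.nd (nat_lit 5) 
(.lf (nat_lit 131712) (.g (nat_lit 2112) (.e (nat_lit 16392) (nat_lit 0) (.e (nat_lit 6989) (nat_lit 377) (.e (nat_lit 2779) (nat_lit 178) (.e (nat_lit 294656) (nat_lit 30) (.e (nat_lit 450563) (nat_lit 0) (.e (nat_lit 4754) (nat_lit 281) (.e (nat_lit 1128) (nat_lit 83) .nil))))))) (.g (nat_lit 5) .nil .nil))) 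
(.lf (nat_lit 131744) (.g (nat_lit 2539) (.e (nat_lit 16403) (nat_lit 0) (.e (nat_lit 3253) (nat_lit 197) (.e (nat_lit 532549) (nat_lit 12) (.e (nat_lit 360473) (nat_lit 8) (.e (nat_lit 557094) (nat_lit 12) .nil))))) .nil))) (.nd (nat_lit 5) 
(.lf (nat_lit 131728) (.g (nat_lit 542) (.e (nat_lit 16397) (nat_lit 0) (.e (nat_lit 3272) (nat_lit 199) (.e (nat_lit 548870) (nat_lit 5) .nil))) .nil)) 
(.lf (nat_lit 131760) (.g (nat_lit 2356) (.e (nat_lit 16405) (nat_lit 1) (.e (nat_lit 164398) (nat_lit 256) (.e (nat_lit 57405) (nat_lit 12) (.e (nat_lit 336443) (nat_lit 32) (.e (nat_lit 466977) (nat_lit 22) (.e (nat_lit 196654) (nat_lit 11) .nil)))))) (.g (nat_lit 5) .nil .nil))))) (.nd (nat_lit 4) (.nd (nat_lit 5) 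
(.lf (nat_lit 131720) (.g (nat_lit 2018) (.e (nat_lit 16396) (nat_lit 0) (.e (nat_lit 3238) (nat_lit 197) (.e (nat_lit 532549) (nat_lit 12) (.e (nat_lit 360473) (nat_lit 8) (.e (nat_lit 557094) (nat_lit 12) .nil))))) .nil)) 
(.lf (nat_lit 131752) (.g (nat_lit 1232) (.e (nat_lit 16404) (nat_lit 1) (.e (nat_lit 164403) (nat_lit 256) (.e (nat_lit 57409) (nat_lit 12) (.e (nat_lit 336443) (nat_lit 32) .nil)))) .nil))) (.nd (nat_lit 5) 
(.lf (nat_lit 131736) (.g (nat_lit 3766) (.e (nat_lit 16401) (nat_lit 0) (.e (nat_lit 3233) (nat_lit 197) (.e (nat_lit 532550) (nat_lit 12) (.e (nat_lit 360474) (nat_lit 8) (.e (nat_lit 557094) (nat_lit 12) .nil))))) .nil)) 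
(.lf (nat_lit 131768) (.g (nat_lit 3400) (.e (nat_lit 16405) (nat_lit 1) (.e (nat_lit 164398) (nat_lit 256) (.e (nat_lit 57407) (nat_lit 12) (.e (nat_lit 336443) (nat_lit 32) (.e (nat_lit 466977) (nat_lit 22) (.e (nat_lit 196656) (nat_lit 11) .nil)))))) (.g (nat_lit 6) .nil .nil)))))) (.nd (nat_lit 3) (.nd (nat_lit 4) (.nd (nat_lit 5) 
(.lf (nat_lit 131716) (.g (nat_lit 3143) (.e (nat_lit 16392) (nat_lit 0) (.e (nat_lit 7537) (nat_lit 402) (.e (nat_lit 1661) (nat_lit 115) (.e (nat_lit 393260) (nat_lit 21) (.e (nat_lit 409616) (nat_lit 10) (.e (nat_lit 7936) (nat_lit 300) .nil)))))) (.g (nat_lit 5) .nil .nil))) 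
(.lf (nat_lit 131748) (.g (nat_lit 1776) (.e (nat_lit 24320) (nat_lit 0) (.e (nat_lit 3249) (nat_lit 197) (.e (nat_lit 532549) (nat_lit 12) (.e (nat_lit 360473) (nat_lit 8) (.e (nat_lit 557093) (nat_lit 12) .nil))))) .nil))) (.nd (nat_lit 5) 
(.lf (nat_lit 131732) (.g (nat_lit 2202) (.e (nat_lit 16399) (nat_lit 0) (.e (nat_lit 7556) (nat_lit 402) (.e (nat_lit 1661) (nat_lit 115) (.e (nat_lit 393260) (nat_lit 21) (.e (nat_lit 409617) (nat_lit 10) (.e (nat_lit 7936) (nat_lit 300) .nil)))))) (.g (nat_lit 5) .nil .nil))) 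
(.lf (nat_lit 131764) (.g (nat_lit 3441) (.e (nat_lit 16405) (nat_lit 1) (.e (nat_lit 164398) (nat_lit 256) (.e (nat_lit 57406) (nat_lit 12) (.e (nat_lit 336443) (nat_lit 32) (.e (nat_lit 466977) (nat_lit 22) (.e (nat_lit 196656) (nat_lit 11) .nil)))))) (.g (nat_lit 6) .nil .nil))))) (.nd (nat_lit 4) (.nd (nat_lit 5) 
(.lf (nat_lit 131724) (.g (nat_lit 832) (.e (nat_lit 16396) (nat_lit 0) (.e (nat_lit 6986) (nat_lit 377) (.e (nat_lit 2819) (nat_lit 181) .nil))) .nil)) 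
(.lf (nat_lit 131756) (.g (nat_lit 3030) (.e (nat_lit 16405) (nat_lit 1) (.e (nat_lit 164179) (nat_lit 154) (.e (nat_lit 57424) (nat_lit 14) (.e (nat_lit 352324) (nat_lit 26) (.e (nat_lit 147503) (nat_lit 12) (.e (nat_lit 164023) (nat_lit 46) (.e (nat_lit 704738) (nat_lit 11) .nil))))))) (.g (nat_lit 4) .nil .nil)))) (.nd (nat_lit 5) 
(.lf (nat_lit 131740) (.g (nat_lit 4940) (.e (nat_lit 16403) (nat_lit 0) (.e (nat_lit 3253) (nat_lit 197) (.e (nat_lit 532535) (nat_lit 9) (.e (nat_lit 336176) (nat_lit 10) (.e (nat_lit 344130) (nat_lit 26) .nil))))) .nil)) 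
(.lf (nat_lit 131772) (.g (nat_lit 3228) (.e (nat_lit 16405) (nat_lit 1) (.e (nat_lit 164398) (nat_lit 256) (.e (nat_lit 57409) (nat_lit 12) (.e (nat_lit 336443) (nat_lit 32) (.e (nat_lit 466974) (nat_lit 22) (.e (nat_lit 196654) (nat_lit 11) .nil)))))) (.g (nat_lit 0) .nil .nil))))))) (.nd (nat_lit 2) (.nd (nat_lit 3) (.nd (nat_lit 4) (.nd (nat_lit 5) 
(.lf (nat_lit 131714) (.g (nat_lit 3772) (.e (nat_lit 16392) (nat_lit 0) (.e (nat_lit 7537) (nat_lit 402) (.e (nat_lit 1234) (nat_lit 91) (.e (nat_lit 90170) (nat_lit 13) (.e (nat_lit 172106) (nat_lit 10) (.e (nat_lit 434244) (nat_lit 28) (.e (nat_lit 573471) (nat_lit 11) .nil))))))) (.g (nat_lit 5) .nil .nil))) 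
(.lf (nat_lit 131746) (.g (nat_lit 3306) (.e (nat_lit 16403) (nat_lit 0) (.e (nat_lit 3253) (nat_lit 197) (.e (nat_lit 532550) (nat_lit 12) (.e (nat_lit 360474) (nat_lit 8) (.e (nat_lit 557070) (nat_lit 9) .nil))))) .nil))) (.nd (nat_lit 5) 
(.lf (nat_lit 131730) (.g (nat_lit 4540) (.e (nat_lit 16399) (nat_lit 0) (.e (nat_lit 3255) (nat_lit 197) (.e (nat_lit 532550) (nat_lit 12) (.e (nat_lit 360474) (nat_lit 8) (.e (nat_lit 557093) (nat_lit 12) .nil))))) .nil)) 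
(.lf (nat_lit 131762) (.g (nat_lit 3336) (.e (nat_lit 16405) (nat_lit 1) (.e (nat_lit 164398) (nat_lit 256) (.e (nat_lit 57406) (nat_lit 12) (.e (nat_lit 336443) (nat_lit 32) (.e (nat_lit 466974) (nat_lit 22) (.e (nat_lit 196656) (nat_lit 11) .nil)))))) (.g (nat_lit 6) .nil .nil))))) (.nd (nat_lit 4) (.nd (nat_lit 5) 
(.lf (nat_lit 131722) (.g (nat_lit 2271) (.e (nat_lit 16396) (nat_lit 0) (.e (nat_lit 3238) (nat_lit 197) (.e (nat_lit 532549) (nat_lit 12) (.e (nat_lit 360474) (nat_lit 8) (.e (nat_lit 557094) (nat_lit 12) .nil))))) .nil)) 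
(.lf (nat_lit 131754) (.g (nat_lit 1858) (.e (nat_lit 16405) (nat_lit 1) (.e (nat_lit 164179) (nat_lit 154) (.e (nat_lit 57424) (nat_lit 14) (.e (nat_lit 352323) (nat_lit 26) .nil)))) .nil))) (.nd (nat_lit 5) 
(.lf (nat_lit 131738) (.g (nat_lit 2444) (.e (nat_lit 16401) (nat_lit 0) (.e (nat_lit 3249) (nat_lit 197) (.e (nat_lit 532550) (nat_lit 12) (.e (nat_lit 360474) (nat_lit 8) (.e (nat_lit 557094) (nat_lit 12) .nil))))) .nil)) 
(.lf (nat_lit 131770) (.g (nat_lit 3016) (.e (nat_lit 16405) (nat_lit 1) (.e (nat_lit 164398) (nat_lit 256) (.e (nat_lit 57408) (nat_lit 12) (.e (nat_lit 336443) (nat_lit 32) (.e (nat_lit 466974) (nat_lit 22) (.e (nat_lit 196654) (nat_lit 11) .nil)))))) (.g (nat_lit 0) .nil .nil)))))) (.nd (nat_lit 3) (.nd (nat_lit 4) (.nd (nat_lit 5) 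
(.lf (nat_lit 131718) (.g (nat_lit 2937) (.e (nat_lit 16393) (nat_lit 0) (.e (nat_lit 7562) (nat_lit 402) (.e (nat_lit 1661) (nat_lit 115) (.e (nat_lit 393260) (nat_lit 21) (.e (nat_lit 409617) (nat_lit 10) (.e (nat_lit 7936) (nat_lit 300) .nil)))))) (.g (nat_lit 5) .nil .nil))) 
(.lf (nat_lit 131750) (.g (nat_lit 2024) (.e (nat_lit 24320) (nat_lit 0) (.e (nat_lit 7489) (nat_lit 402) (.e (nat_lit 1239) (nat_lit 91) (.e (nat_lit 90170) (nat_lit 13) (.e (nat_lit 172106) (nat_lit 10) .nil))))) .nil))) (.nd (nat_lit 5) 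
(.lf (nat_lit 131734) (.g (nat_lit 4091) (.e (nat_lit 16401) (nat_lit 0) (.e (nat_lit 3232) (nat_lit 197) (.e (nat_lit 532550) (nat_lit 12) (.e (nat_lit 360474) (nat_lit 8) (.e (nat_lit 557094) (nat_lit 12) .nil))))) .nil)) 
(.lf (nat_lit 131766) (.g (nat_lit 3294) (.e (nat_lit 16405) (nat_lit 1) (.e (nat_lit 164398) (nat_lit 256) (.e (nat_lit 57407) (nat_lit 12) (.e (nat_lit 336443) (nat_lit 32) (.e (nat_lit 466974) (nat_lit 22) (.e (nat_lit 196656) (nat_lit 11) .nil)))))) (.g (nat_lit 6) .nil .nil))))) (.nd (nat_lit 4) (.nd (nat_lit 5) 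
(.lf (nat_lit 131726) (.g (nat_lit 2354) (.e (nat_lit 16396) (nat_lit 0) (.e (nat_lit 7556) (nat_lit 402) (.e (nat_lit 1661) (nat_lit 115) (.e (nat_lit 393260) (nat_lit 21) (.e (nat_lit 409617) (nat_lit 10) (.e (nat_lit 7936) (nat_lit 300) .nil)))))) (.g (nat_lit 5) .nil .nil))) 
(.lf (nat_lit 131758) (.g (nat_lit 589) (.e (nat_lit 16405) (nat_lit 1) (.e (nat_lit 164332) (nat_lit 230) (.e (nat_lit 163885) (nat_lit 5) .nil))) .nil))) (.nd (nat_lit 5) 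
(.lf (nat_lit 131742) (.g (nat_lit 2584) (.e (nat_lit 16403) (nat_lit 0) (.e (nat_lit 3253) (nat_lit 197) (.e (nat_lit 532549) (nat_lit 12) (.e (nat_lit 360473) (nat_lit 8) (.e (nat_lit 557091) (nat_lit 12) .nil))))) .nil)) 
(.lf (nat_lit 131774) (.g (nat_lit 3295) (.e (nat_lit 16405) (nat_lit 1) (.e (nat_lit 164398) (nat_lit 256) (.e (nat_lit 57409) (nat_lit 12) (.e (nat_lit 336443) (nat_lit 32) (.e (nat_lit 466977) (nat_lit 22) (.e (nat_lit 196654) (nat_lit 11) .nil)))))) (.g (nat_lit 0) .nil .nil)))))))) (.nd (nat_lit 1) (.nd (nat_lit 2) (.nd (nat_lit 3) (.nd (nat_lit 4) (.nd (nat_lit 5) 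
(.lf (nat_lit 131713) (.g (nat_lit 303) (.e (nat_lit 16392) (nat_lit 0) (.e (nat_lit 6989) (nat_lit 377) (.e (nat_lit 2810) (nat_lit 180) .nil))) .nil)) 
(.lf (nat_lit 131745) (.g (nat_lit 3352) (.e (nat_lit 16403) (nat_lit 0) (.e (nat_lit 3253) (nat_lit 197) (.e (nat_lit 532549) (nat_lit 12) (.e (nat_lit 360475) (nat_lit 8) (.e (nat_lit 557091) (nat_lit 12) .nil))))) .nil))) (.nd (nat_lit 5) 
(.lf (nat_lit 131729) (.g (nat_lit 2350) (.e (nat_lit 16397) (nat_lit 0) (.e (nat_lit 7554) (nat_lit 402) (.e (nat_lit 1661) (nat_lit 115) (.e (nat_lit 393260) (nat_lit 21) (.e (nat_lit 409616) (nat_lit 10) (.e (nat_lit 7936) (nat_lit 300) .nil)))))) (.g (nat_lit 5) .nil .nil))) 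
(.lf (nat_lit 131761) (.g (nat_lit 3468) (.e (nat_lit 16405) (nat_lit 1) (.e (nat_lit 164398) (nat_lit 256) (.e (nat_lit 57406) (nat_lit 12) (.e (nat_lit 336443) (nat_lit 32) (.e (nat_lit 466974) (nat_lit 22) (.e (nat_lit 196654) (nat_lit 11) .nil)))))) (.g (nat_lit 0) .nil .nil))))) (.nd (nat_lit 4) (.nd (nat_lit 5) 
(.lf (nat_lit 131721) (.g (nat_lit 2290) (.e (nat_lit 16396) (nat_lit 0) (.e (nat_lit 3238) (nat_lit 197) (.e (nat_lit 532549) (nat_lit 12) (.e (nat_lit 360474) (nat_lit 8) (.e (nat_lit 557093) (nat_lit 12) .nil))))) .nil)) 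
(.lf (nat_lit 131753) (.g (nat_lit 1283) (.e (nat_lit 16404) (nat_lit 1) (.e (nat_lit 164403) (nat_lit 256) (.e (nat_lit 57447) (nat_lit 19) (.e (nat_lit 393281) (nat_lit 23) .nil)))) .nil))) (.nd (nat_lit 5) 
(.lf (nat_lit 131737) (.g (nat_lit 2488) (.e (nat_lit 16401) (nat_lit 0) (.e (nat_lit 3249) (nat_lit 197) (.e (nat_lit 532550) (nat_lit 12) (.e (nat_lit 360474) (nat_lit 8) (.e (nat_lit 557093) (nat_lit 12) .nil))))) .nil)) 
(.lf (nat_lit 131769) (.g (nat_lit 1794) (.e (nat_lit 16405) (nat_lit 1) (.e (nat_lit 164398) (nat_lit 256) (.e (nat_lit 57407) (nat_lit 12) (.e (nat_lit 336444) (nat_lit 32) .nil)))) .nil))))) (.nd (nat_lit 3) (.nd (nat_lit 4) (.nd (nat_lit 5) 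
(.lf (nat_lit 131717) (.g (nat_lit 3392) (.e (nat_lit 16392) (nat_lit 0) (.e (nat_lit 7537) (nat_lit 402) (.e (nat_lit 1661) (nat_lit 115) (.e (nat_lit 393260) (nat_lit 21) (.e (nat_lit 409617) (nat_lit 10) (.e (nat_lit 7936) (nat_lit 300) .nil)))))) (.g (nat_lit 5) .nil .nil))) 
(.lf (nat_lit 131749) (.g (nat_lit 1772) (.e (nat_lit 24320) (nat_lit 0) (.e (nat_lit 3249) (nat_lit 197) (.e (nat_lit 532549) (nat_lit 12) (.e (nat_lit 360473) (nat_lit 8) (.e (nat_lit 557094) (nat_lit 12) .nil))))) .nil))) (.nd (nat_lit 5) 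
(.lf (nat_lit 131733) (.g (nat_lit 2112) (.e (nat_lit 16400) (nat_lit 0) (.e (nat_lit 7556) (nat_lit 402) (.e (nat_lit 1661) (nat_lit 115) (.e (nat_lit 393260) (nat_lit 21) (.e (nat_lit 409616) (nat_lit 10) (.e (nat_lit 7936) (nat_lit 300) .nil)))))) (.g (nat_lit 5) .nil .nil))) 
(.lf (nat_lit 131765) (.g (nat_lit 3506) (.e (nat_lit 16405) (nat_lit 1) (.e (nat_lit 164398) (nat_lit 256) (.e (nat_lit 57407) (nat_lit 12) (.e (nat_lit 336443) (nat_lit 32) (.e (nat_lit 466974) (nat_lit 22) (.e (nat_lit 196654) (nat_lit 11) .nil)))))) (.g (nat_lit 0) .nil .nil))))) (.nd (nat_lit 4) (.nd (nat_lit 5) 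
(.lf (nat_lit 131725) (.g (nat_lit 2398) (.e (nat_lit 16396) (nat_lit 0) (.e (nat_lit 7556) (nat_lit 402) (.e (nat_lit 1661) (nat_lit 115) (.e (nat_lit 393260) (nat_lit 21) (.e (nat_lit 409616) (nat_lit 10) (.e (nat_lit 7936) (nat_lit 300) .nil)))))) (.g (nat_lit 5) .nil .nil))) 
(.lf (nat_lit 131757) (.g (nat_lit 1197) (.e (nat_lit 16405) (nat_lit 1) (.e (nat_lit 164332) (nat_lit 230) (.e (nat_lit 163884) (nat_lit 5) (.e (nat_lit 229120) (nat_lit 14) .nil)))) .nil))) (.nd (nat_lit 5) 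
(.lf (nat_lit 131741) (.g (nat_lit 717) (.e (nat_lit 16403) (nat_lit 0) (.e (nat_lit 3253) (nat_lit 197) (.e (nat_lit 532549) (nat_lit 12) .nil))) .nil)) 
(.lf (nat_lit 131773) (.g (nat_lit 3022) (.e (nat_lit 16405) (nat_lit 1) (.e (nat_lit 164398) (nat_lit 256) (.e (nat_lit 57409) (nat_lit 12) (.e (nat_lit 336443) (nat_lit 32) (.e (nat_lit 466974) (nat_lit 22) (.e (nat_lit 196656) (nat_lit 11) .nil)))))) (.g (nat_lit 6) .nil .nil))))))) (.nd (nat_lit 2) (.nd (nat_lit 3) (.nd (nat_lit 4) (.nd (nat_lit 5) 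
(.lf (nat_lit 131715) (.g (nat_lit 4296) (.e (nat_lit 16392) (nat_lit 0) (.e (nat_lit 7537) (nat_lit 402) (.e (nat_lit 1235) (nat_lit 91) (.e (nat_lit 90170) (nat_lit 13) (.e (nat_lit 172106) (nat_lit 10) (.e (nat_lit 434244) (nat_lit 28) (.e (nat_lit 573471) (nat_lit 11) .nil))))))) (.g (nat_lit 7) .nil .nil))) 
(.lf (nat_lit 131747) (.g (nat_lit 1777) (.e (nat_lit 24320) (nat_lit 0) (.e (nat_lit 3238) (nat_lit 197) (.e (nat_lit 532550) (nat_lit 12) (.e (nat_lit 360474) (nat_lit 8) (.e (nat_lit 557093) (nat_lit 12) .nil))))) .nil))) (.nd (nat_lit 5) 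
(.lf (nat_lit 131731) (.g (nat_lit 2215) (.e (nat_lit 16399) (nat_lit 0) (.e (nat_lit 7556) (nat_lit 402) (.e (nat_lit 1661) (nat_lit 115) (.e (nat_lit 393260) (nat_lit 21) (.e (nat_lit 409616) (nat_lit 10) (.e (nat_lit 7936) (nat_lit 300) .nil)))))) (.g (nat_lit 5) .nil .nil))) 
(.lf (nat_lit 131763) (.g (nat_lit 3500) (.e (nat_lit 16405) (nat_lit 1) (.e (nat_lit 164398) (nat_lit 256) (.e (nat_lit 57406) (nat_lit 12) (.e (nat_lit 336443) (nat_lit 32) (.e (nat_lit 466977) (nat_lit 22) (.e (nat_lit 196654) (nat_lit 11) .nil)))))) (.g (nat_lit 0) .nil .nil))))) (.nd (nat_lit 4) (.nd (nat_lit 5) 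
(.lf (nat_lit 131723) (.g (nat_lit 995) (.e (nat_lit 16396) (nat_lit 0) (.e (nat_lit 6986) (nat_lit 377) (.e (nat_lit 2584) (nat_lit 161) .nil))) .nil)) 
(.lf (nat_lit 131755) (.g (nat_lit 1760) (.e (nat_lit 16405) (nat_lit 1) (.e (nat_lit 164179) (nat_lit 154) (.e (nat_lit 57424) (nat_lit 14) (.e (nat_lit 352324) (nat_lit 26) .nil)))) .nil))) (.nd (nat_lit 5) 
(.lf (nat_lit 131739) (.g (nat_lit 3374) (.e (nat_lit 16402) (nat_lit 0) (.e (nat_lit 3253) (nat_lit 197) (.e (nat_lit 532550) (nat_lit 12) (.e (nat_lit 360474) (nat_lit 8) (.e (nat_lit 557093) (nat_lit 12) .nil))))) .nil)) 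
(.lf (nat_lit 131771) (.g (nat_lit 3093) (.e (nat_lit 16405) (nat_lit 1) (.e (nat_lit 164398) (nat_lit 256) (.e (nat_lit 57408) (nat_lit 12) (.e (nat_lit 336443) (nat_lit 32) (.e (nat_lit 466977) (nat_lit 22) (.e (nat_lit 196654) (nat_lit 11) .nil)))))) (.g (nat_lit 0) .nil .nil)))))) (.nd (nat_lit 3) (.nd (nat_lit 4) (.nd (nat_lit 5) 
(.lf (nat_lit 131719) (.g (nat_lit 2028) (.e (nat_lit 16396) (nat_lit 0) (.e (nat_lit 3238) (nat_lit 197) (.e (nat_lit 532549) (nat_lit 12) (.e (nat_lit 360473) (nat_lit 8) (.e (nat_lit 557093) (nat_lit 12) .nil))))) .nil)) 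
(.lf (nat_lit 131751) (.g (nat_lit 1685) (.e (nat_lit 24320) (nat_lit 0) (.e (nat_lit 7537) (nat_lit 402) (.e (nat_lit 1661) (nat_lit 115) (.e (nat_lit 393260) (nat_lit 21) (.e (nat_lit 409616) (nat_lit 10) .nil))))) .nil))) (.nd (nat_lit 5) 
(.lf (nat_lit 131735) (.g (nat_lit 3796) (.e (nat_lit 16401) (nat_lit 0) (.e (nat_lit 3233) (nat_lit 197) (.e (nat_lit 532550) (nat_lit 12) (.e (nat_lit 360474) (nat_lit 8) (.e (nat_lit 557093) (nat_lit 12) .nil))))) .nil)) 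
(.lf (nat_lit 131767) (.g (nat_lit 3541) (.e (nat_lit 16405) (nat_lit 1) (.e (nat_lit 164398) (nat_lit 256) (.e (nat_lit 57407) (nat_lit 12) (.e (nat_lit 336443) (nat_lit 32) (.e (nat_lit 466977) (nat_lit 22) (.e (nat_lit 196654) (nat_lit 11) .nil)))))) (.g (nat_lit 0) .nil .nil))))) (.nd (nat_lit 4) (.nd (nat_lit 5) 
(.lf (nat_lit 131727) (.g (nat_lit 2266) (.e (nat_lit 16397) (nat_lit 0) (.e (nat_lit 3238) (nat_lit 197) (.e (nat_lit 532549) (nat_lit 12) (.e (nat_lit 360474) (nat_lit 8) (.e (nat_lit 557094) (nat_lit 12) .nil))))) .nil)) 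
(.lf (nat_lit 131759) (.g (nat_lit 2487) (.e (nat_lit 16405) (nat_lit 1) (.e (nat_lit 164398) (nat_lit 256) (.e (nat_lit 57405) (nat_lit 12) (.e (nat_lit 336443) (nat_lit 32) (.e (nat_lit 466974) (nat_lit 22) (.e (nat_lit 196654) (nat_lit 11) .nil)))))) (.g (nat_lit 5) .nil .nil)))) (.nd (nat_lit 5) 
(.lf (nat_lit 131743) (.g (nat_lit 2543) (.e (nat_lit 16403) (nat_lit 0) (.e (nat_lit 3253) (nat_lit 197) (.e (nat_lit 532549) (nat_lit 12) (.e (nat_lit 360473) (nat_lit 8) (.e (nat_lit 557093) (nat_lit 12) .nil))))) .nil)) 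
(.lf (nat_lit 131775) (.g (nat_lit 3161) (.e (nat_lit 16405) (nat_lit 1) (.e (nat_lit 164398) (nat_lit 256) (.e (nat_lit 57409) (nat_lit 12) (.e (nat_lit 336443) (nat_lit 32) (.e (nat_lit 466977) (nat_lit 22) (.e (nat_lit 196656) (nat_lit 11) .nil)))))) (.g (nat_lit 6) .nil .nil)))))))))

noncomputable def tv1756 : DT := (.nd (nat_lit 0) (.nd (nat_lit 1) (.nd (nat_lit 2) (.nd (nat_lit 3) (.nd (nat_lit 4) (.nd (nat_lit 5) 
(.lf (nat_lit 131776) (.g (nat_lit 2843) (.e (nat_lit 16405) (nat_lit 1) (.e (nat_lit 164398) (nat_lit 256) (.e (nat_lit 57410) (nat_lit 12) (.e (nat_lit 336443) (nat_lit 32) (.e (nat_lit 466974) (nat_lit 22) (.e (nat_lit 196654) (nat_lit 11) .nil)))))) (.g (nat_lit 6) .nil .nil))) 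
(.lf (nat_lit 131808) (.g (nat_lit 3075) (.e (nat_lit 16405) (nat_lit 1) (.e (nat_lit 164399) (nat_lit 256) (.e (nat_lit 57447) (nat_lit 19) (.e (nat_lit 393281) (nat_lit 23) (.e (nat_lit 426116) (nat_lit 2) (.e (nat_lit 196656) (nat_lit 11) .nil)))))) (.g (nat_lit 0) .nil .nil)))) (.nd (nat_lit 5) 
(.lf (nat_lit 131792) (.g (nat_lit 415) (.e (nat_lit 16405) (nat_lit 1) (.e (nat_lit 164398) (nat_lit 256) (.e (nat_lit 57447) (nat_lit 19) .nil))) .nil)) 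
(.lf (nat_lit 131824) (.g (nat_lit 1917) (.e (nat_lit 16406) (nat_lit 1) (.e (nat_lit 164332) (nat_lit 230) (.e (nat_lit 163885) (nat_lit 5) (.e (nat_lit 229120) (nat_lit 14) (.e (nat_lit 360449) (nat_lit 0) (.e (nat_lit 7454) (nat_lit 396) (.e (nat_lit 1126) (nat_lit 83) .nil))))))) (.g (nat_lit 5) .nil .nil))))) (.nd (nat_lit 4) (.nd (nat_lit 5) 
(.lf (nat_lit 131784) (.g (nat_lit 454) (.e (nat_lit 16405) (nat_lit 1) (.e (nat_lit 164398) (nat_lit 256) (.e (nat_lit 57444) (nat_lit 19) .nil))) .nil)) 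
(.lf (nat_lit 131816) (.g (nat_lit 2039) (.e (nat_lit 16405) (nat_lit 1) (.e (nat_lit 164403) (nat_lit 256) (.e (nat_lit 57447) (nat_lit 19) (.e (nat_lit 393267) (nat_lit 23) .nil)))) .nil))) (.nd (nat_lit 5) 
(.lf (nat_lit 131800) (.g (nat_lit 2852) (.e (nat_lit 16405) (nat_lit 1) (.e (nat_lit 164399) (nat_lit 256) (.e (nat_lit 57409) (nat_lit 12) (.e (nat_lit 336443) (nat_lit 32) (.e (nat_lit 466974) (nat_lit 22) (.e (nat_lit 196656) (nat_lit 11) .nil)))))) (.g (nat_lit 0) .nil .nil))) 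
(.lf (nat_lit 131832) (.g (nat_lit 3281) (.e (nat_lit 16406) (nat_lit 1) (.e (nat_lit 164398) (nat_lit 256) (.e (nat_lit 57406) (nat_lit 12) (.e (nat_lit 336443) (nat_lit 32) (.e (nat_lit 466974) (nat_lit 22) (.e (nat_lit 196654) (nat_lit 11) .nil)))))) (.g (nat_lit 6) .nil .nil)))))) (.nd (nat_lit 3) (.nd (nat_lit 4) (.nd (nat_lit 5) 
(.lf (nat_lit 131780) (.g (nat_lit 3256) (.e (nat_lit 16405) (nat_lit 1) (.e (nat_lit 164398) (nat_lit 256) (.e (nat_lit 57411) (nat_lit 12) (.e (nat_lit 336443) (nat_lit 32) (.e (nat_lit 466974) (nat_lit 22) (.e (nat_lit 196654) (nat_lit 11) .nil)))))) (.g (nat_lit 0) .nil .nil))) 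
(.lf (nat_lit 131812) (.g (nat_lit 1387) (.e (nat_lit 16405) (nat_lit 1) (.e (nat_lit 164402) (nat_lit 256) (.e (nat_lit 57445) (nat_lit 19) (.e (nat_lit 393281) (nat_lit 23) (.e (nat_lit 426115) (nat_lit 2) .nil))))) .nil))) (.nd (nat_lit 5) 
(.lf (nat_lit 131796) (.g (nat_lit 3109) (.e (nat_lit 16405) (nat_lit 1) (.e (nat_lit 164398) (nat_lit 256) (.e (nat_lit 57448) (nat_lit 19) (.e (nat_lit 393281) (nat_lit 23) (.e (nat_lit 426116) (nat_lit 2) (.e (nat_lit 196656) (nat_lit 11) .nil)))))) (.g (nat_lit 6) .nil .nil))) 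
(.lf (nat_lit 131828) (.g (nat_lit 1500) (.e (nat_lit 16406) (nat_lit 1) (.e (nat_lit 164396) (nat_lit 256) (.e (nat_lit 57448) (nat_lit 19) (.e (nat_lit 393281) (nat_lit 23) (.e (nat_lit 426115) (nat_lit 2) .nil))))) .nil)))) (.nd (nat_lit 4) (.nd (nat_lit 5) 
(.lf (nat_lit 131788) (.g (nat_lit 3438) (.e (nat_lit 16405) (nat_lit 1) (.e (nat_lit 164398) (nat_lit 256) (.e (nat_lit 57445) (nat_lit 19) (.e (nat_lit 393281) (nat_lit 23) (.e (nat_lit 426116) (nat_lit 2) (.e (nat_lit 196654) (nat_lit 11) .nil)))))) (.g (nat_lit 0) .nil .nil))) 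
(.lf (nat_lit 131820) (.g (nat_lit 3096) (.e (nat_lit 16405) (nat_lit 1) (.e (nat_lit 164403) (nat_lit 256) (.e (nat_lit 57447) (nat_lit 19) (.e (nat_lit 393301) (nat_lit 27) (.e (nat_lit 491577) (nat_lit 15) .nil))))) .nil))) (.nd (nat_lit 5) 
(.lf (nat_lit 131804) (.g (nat_lit 3011) (.e (nat_lit 16405) (nat_lit 1) (.e (nat_lit 164399) (nat_lit 256) (.e (nat_lit 57445) (nat_lit 19) (.e (nat_lit 393281) (nat_lit 23) (.e (nat_lit 426116) (nat_lit 2) (.e (nat_lit 196656) (nat_lit 11) .nil)))))) (.g (nat_lit 0) .nil .nil))) 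
(.lf (nat_lit 131836) (.g (nat_lit 3135) (.e (nat_lit 16406) (nat_lit 1) (.e (nat_lit 164398) (nat_lit 256) (.e (nat_lit 57407) (nat_lit 12) (.e (nat_lit 336443) (nat_lit 32) (.e (nat_lit 466974) (nat_lit 22) (.e (nat_lit 196656) (nat_lit 11) .nil)))))) (.g (nat_lit 6) .nil .nil))))))) (.nd (nat_lit 2) (.nd (nat_lit 3) (.nd (nat_lit 4) (.nd (nat_lit 5) 
(.lf (nat_lit 131778) (.g (nat_lit 2792) (.e (nat_lit 16405) (nat_lit 1) (.e (nat_lit 164398) (nat_lit 256) (.e (nat_lit 57410) (nat_lit 12) (.e (nat_lit 336443) (nat_lit 32) (.e (nat_lit 466977) (nat_lit 22) (.e (nat_lit 196654) (nat_lit 11) .nil)))))) (.g (nat_lit 5) .nil .nil))) 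
(.lf (nat_lit 131810) (.g (nat_lit 2960) (.e (nat_lit 16405) (nat_lit 1) (.e (nat_lit 164399) (nat_lit 256) (.e (nat_lit 57448) (nat_lit 19) (.e (nat_lit 393281) (nat_lit 23) (.e (nat_lit 426116) (nat_lit 2) (.e (nat_lit 196656) (nat_lit 11) .nil)))))) (.g (nat_lit 0) .nil .nil)))) (.nd (nat_lit 5) 
(.lf (nat_lit 131794) (.g (nat_lit 3241) (.e (nat_lit 16405) (nat_lit 1) (.e (nat_lit 164398) (nat_lit 256) (.e (nat_lit 57447) (nat_lit 19) (.e (nat_lit 393281) (nat_lit 23) (.e (nat_lit 426116) (nat_lit 2) (.e (nat_lit 196656) (nat_lit 11) .nil)))))) (.g (nat_lit 6) .nil .nil))) 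
(.lf (nat_lit 131826) (.g (nat_lit 1772) (.e (nat_lit 16406) (nat_lit 1) (.e (nat_lit 164396) (nat_lit 256) (.e (nat_lit 57445) (nat_lit 19) (.e (nat_lit 393281) (nat_lit 23) (.e (nat_lit 426115) (nat_lit 2) .nil))))) .nil)))) (.nd (nat_lit 4) (.nd (nat_lit 5) 
(.lf (nat_lit 131786) (.g (nat_lit 1458) (.e (nat_lit 16405) (nat_lit 1) (.e (nat_lit 164398) (nat_lit 256) (.e (nat_lit 57445) (nat_lit 19) (.e (nat_lit 393273) (nat_lit 23) .nil)))) .nil)) 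
(.lf (nat_lit 131818) (.g (nat_lit 3273) (.e (nat_lit 16405) (nat_lit 1) (.e (nat_lit 164403) (nat_lit 256) (.e (nat_lit 57447) (nat_lit 19) (.e (nat_lit 393281) (nat_lit 23) (.e (nat_lit 426116) (nat_lit 2) (.e (nat_lit 196654) (nat_lit 11) .nil)))))) (.g (nat_lit 0) .nil .nil)))) (.nd (nat_lit 5) 
(.lf (nat_lit 131802) (.g (nat_lit 2984) (.e (nat_lit 16405) (nat_lit 1) (.e (nat_lit 164399) (nat_lit 256) (.e (nat_lit 57411) (nat_lit 12) (.e (nat_lit 336443) (nat_lit 32) (.e (nat_lit 466974) (nat_lit 22) (.e (nat_lit 196656) (nat_lit 11) .nil)))))) (.g (nat_lit 0) .nil .nil))) 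
(.lf (nat_lit 131834) (.g (nat_lit 1808) (.e (nat_lit 16406) (nat_lit 1) (.e (nat_lit 164398) (nat_lit 256) (.e (nat_lit 57406) (nat_lit 12) (.e (nat_lit 336444) (nat_lit 32) (.e (nat_lit 466977) (nat_lit 22) .nil))))) .nil))))) (.nd (nat_lit 3) (.nd (nat_lit 4) (.nd (nat_lit 5) 
(.lf (nat_lit 131782) (.g (nat_lit 3341) (.e (nat_lit 16405) (nat_lit 1) (.e (nat_lit 164398) (nat_lit 256) (.e (nat_lit 57411) (nat_lit 12) (.e (nat_lit 336443) (nat_lit 32) (.e (nat_lit 466977) (nat_lit 22) (.e (nat_lit 196654) (nat_lit 11) .nil)))))) (.g (nat_lit 0) .nil .nil))) 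
(.lf (nat_lit 131814) (.g (nat_lit 2907) (.e (nat_lit 16405) (nat_lit 1) (.e (nat_lit 164403) (nat_lit 256) (.e (nat_lit 57409) (nat_lit 12) (.e (nat_lit 336443) (nat_lit 32) (.e (nat_lit 466974) (nat_lit 22) (.e (nat_lit 196656) (nat_lit 11) .nil)))))) (.g (nat_lit 6) .nil .nil)))) (.nd (nat_lit 5) 
(.lf (nat_lit 131798) (.g (nat_lit 2998) (.e (nat_lit 16405) (nat_lit 1) (.e (nat_lit 164399) (nat_lit 256) (.e (nat_lit 57407) (nat_lit 12) (.e (nat_lit 336443) (nat_lit 32) (.e (nat_lit 466974) (nat_lit 22) (.e (nat_lit 196656) (nat_lit 11) .nil)))))) (.g (nat_lit 0) .nil .nil))) 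
(.lf (nat_lit 131830) (.g (nat_lit 2123) (.e (nat_lit 16406) (nat_lit 1) (.e (nat_lit 164397) (nat_lit 256) (.e (nat_lit 57447) (nat_lit 19) (.e (nat_lit 393281) (nat_lit 23) (.e (nat_lit 426116) (nat_lit 2) .nil))))) .nil)))) (.nd (nat_lit 4) (.nd (nat_lit 5) 
(.lf (nat_lit 131790) (.g (nat_lit 2652) (.e (nat_lit 16405) (nat_lit 1) (.e (nat_lit 164398) (nat_lit 256) (.e (nat_lit 57446) (nat_lit 19) (.e (nat_lit 393281) (nat_lit 23) (.e (nat_lit 426115) (nat_lit 2) (.e (nat_lit 196654) (nat_lit 11) .nil)))))) (.g (nat_lit 0) .nil .nil))) 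
(.lf (nat_lit 131822) (.g (nat_lit 1582) (.e (nat_lit 16406) (nat_lit 1) (.e (nat_lit 164332) (nat_lit 230) (.e (nat_lit 163884) (nat_lit 5) (.e (nat_lit 229120) (nat_lit 14) (.e (nat_lit 360449) (nat_lit 0) (.e (nat_lit 7454) (nat_lit 396) (.e (nat_lit 1126) (nat_lit 83) .nil))))))) (.g (nat_lit 5) .nil .nil)))) (.nd (nat_lit 5) 
(.lf (nat_lit 131806) (.g (nat_lit 2685) (.e (nat_lit 16405) (nat_lit 1) (.e (nat_lit 164399) (nat_lit 256) (.e (nat_lit 57446) (nat_lit 19) (.e (nat_lit 393281) (nat_lit 23) (.e (nat_lit 426116) (nat_lit 2) (.e (nat_lit 196656) (nat_lit 11) .nil)))))) (.g (nat_lit 0) .nil .nil))) 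
(.lf (nat_lit 131838) (.g (nat_lit 3235) (.e (nat_lit 16406) (nat_lit 1) (.e (nat_lit 164398) (nat_lit 256) (.e (nat_lit 57407) (nat_lit 12) (.e (nat_lit 336443) (nat_lit 32) (.e (nat_lit 466977) (nat_lit 22) (.e (nat_lit 196656) (nat_lit 11) .nil)))))) (.g (nat_lit 6) .nil .nil)))))))) (.nd (nat_lit 1) (.nd (nat_lit 2) (.nd (nat_lit 3) (.nd (nat_lit 4) (.nd (nat_lit 5) 
(.lf (nat_lit 131777) (.g (nat_lit 2631) (.e (nat_lit 16405) (nat_lit 1) (.e (nat_lit 164398) (nat_lit 256) (.e (nat_lit 57410) (nat_lit 12) (.e (nat_lit 336443) (nat_lit 32) (.e (nat_lit 466974) (nat_lit 22) (.e (nat_lit 196656) (nat_lit 11) .nil)))))) (.g (nat_lit 5) .nil .nil))) 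
(.lf (nat_lit 131809) (.g (nat_lit 2401) (.e (nat_lit 16405) (nat_lit 1) (.e (nat_lit 164399) (nat_lit 256) (.e (nat_lit 57448) (nat_lit 19) (.e (nat_lit 393281) (nat_lit 23) (.e (nat_lit 426115) (nat_lit 2) (.e (nat_lit 196656) (nat_lit 11) .nil)))))) (.g (nat_lit 0) .nil .nil)))) (.nd (nat_lit 5) 
(.lf (nat_lit 131793) (.g (nat_lit 3881) (.e (nat_lit 16405) (nat_lit 1) (.e (nat_lit 164398) (nat_lit 256) (.e (nat_lit 57447) (nat_lit 19) (.e (nat_lit 393271) (nat_lit 23) (.e (nat_lit 426128) (nat_lit 2) (.e (nat_lit 196656) (nat_lit 11) .nil)))))) (.g (nat_lit 6) .nil .nil))) 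
(.lf (nat_lit 131825) (.g (nat_lit 1799) (.e (nat_lit 16406) (nat_lit 1) (.e (nat_lit 164396) (nat_lit 256) (.e (nat_lit 57407) (nat_lit 12) (.e (nat_lit 336443) (nat_lit 32) (.e (nat_lit 466974) (nat_lit 22) .nil))))) .nil)))) (.nd (nat_lit 4) (.nd (nat_lit 5) 
(.lf (nat_lit 131785) (.g (nat_lit 977) (.e (nat_lit 16405) (nat_lit 1) (.e (nat_lit 164398) (nat_lit 256) (.e (nat_lit 57444) (nat_lit 19) (.e (nat_lit 393281) (nat_lit 23) (.e (nat_lit 426116) (nat_lit 2) .nil))))) .nil)) 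
(.lf (nat_lit 131817) (.g (nat_lit 3619) (.e (nat_lit 16405) (nat_lit 1) (.e (nat_lit 164403) (nat_lit 256) (.e (nat_lit 57447) (nat_lit 19) (.e (nat_lit 393271) (nat_lit 23) (.e (nat_lit 426128) (nat_lit 2) (.e (nat_lit 196656) (nat_lit 11) .nil)))))) (.g (nat_lit 6) .nil .nil)))) (.nd (nat_lit 5) 
(.lf (nat_lit 131801) (.g (nat_lit 2722) (.e (nat_lit 16405) (nat_lit 1) (.e (nat_lit 164399) (nat_lit 256) (.e (nat_lit 57410) (nat_lit 12) (.e (nat_lit 336443) (nat_lit 32) (.e (nat_lit 466977) (nat_lit 22) (.e (nat_lit 196656) (nat_lit 11) .nil)))))) (.g (nat_lit 5) .nil .nil))) 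
(.lf (nat_lit 131833) (.g (nat_lit 3315) (.e (nat_lit 16406) (nat_lit 1) (.e (nat_lit 164398) (nat_lit 256) (.e (nat_lit 57406) (nat_lit 12) (.e (nat_lit 336443) (nat_lit 32) (.e (nat_lit 466977) (nat_lit 22) (.e (nat_lit 196654) (nat_lit 11) .nil)))))) (.g (nat_lit 6) .nil .nil)))))) (.nd (nat_lit 3) (.nd (nat_lit 4) (.nd (nat_lit 5) 
(.lf (nat_lit 131781) (.g (nat_lit 3045) (.e (nat_lit 16405) (nat_lit 1) (.e (nat_lit 164398) (nat_lit 256) (.e (nat_lit 57411) (nat_lit 12) (.e (nat_lit 336443) (nat_lit 32) (.e (nat_lit 466974) (nat_lit 22) (.e (nat_lit 196656) (nat_lit 11) .nil)))))) (.g (nat_lit 6) .nil .nil))) 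
(.lf (nat_lit 131813) (.g (nat_lit 3291) (.e (nat_lit 16405) (nat_lit 1) (.e (nat_lit 164403) (nat_lit 256) (.e (nat_lit 57406) (nat_lit 12) (.e (nat_lit 336443) (nat_lit 32) (.e (nat_lit 466977) (nat_lit 22) (.e (nat_lit 196656) (nat_lit 11) .nil)))))) (.g (nat_lit 6) .nil .nil)))) (.nd (nat_lit 5) 
(.lf (nat_lit 131797) (.g (nat_lit 1792) (.e (nat_lit 16405) (nat_lit 1) (.e (nat_lit 164399) (nat_lit 256) (.e (nat_lit 57407) (nat_lit 12) (.e (nat_lit 336441) (nat_lit 32) .nil)))) .nil)) 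
(.lf (nat_lit 131829) (.g (nat_lit 1817) (.e (nat_lit 16406) (nat_lit 1) (.e (nat_lit 164397) (nat_lit 256) (.e (nat_lit 57411) (nat_lit 12) (.e (nat_lit 336443) (nat_lit 32) (.e (nat_lit 466974) (nat_lit 22) .nil))))) .nil)))) (.nd (nat_lit 4) (.nd (nat_lit 5) 
(.lf (nat_lit 131789) (.g (nat_lit 3312) (.e (nat_lit 16405) (nat_lit 1) (.e (nat_lit 164398) (nat_lit 256) (.e (nat_lit 57445) (nat_lit 19) (.e (nat_lit 393281) (nat_lit 23) (.e (nat_lit 426116) (nat_lit 2) (.e (nat_lit 196656) (nat_lit 11) .nil)))))) (.g (nat_lit 6) .nil .nil))) 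
(.lf (nat_lit 131821) (.g (nat_lit 1167) (.e (nat_lit 16406) (nat_lit 1) (.e (nat_lit 164332) (nat_lit 230) (.e (nat_lit 163884) (nat_lit 5) (.e (nat_lit 229120) (nat_lit 14) .nil)))) .nil))) (.nd (nat_lit 5) 
(.lf (nat_lit 131805) (.g (nat_lit 2136) (.e (nat_lit 16405) (nat_lit 1) (.e (nat_lit 164399) (nat_lit 256) (.e (nat_lit 57446) (nat_lit 19) (.e (nat_lit 393281) (nat_lit 23) (.e (nat_lit 426115) (nat_lit 2) (.e (nat_lit 196656) (nat_lit 11) .nil)))))) (.g (nat_lit 0) .nil .nil))) 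
(.lf (nat_lit 131837) (.g (nat_lit 3405) (.e (nat_lit 16406) (nat_lit 1) (.e (nat_lit 164398) (nat_lit 256) (.e (nat_lit 57407) (nat_lit 12) (.e (nat_lit 336443) (nat_lit 32) (.e (nat_lit 466977) (nat_lit 22) (.e (nat_lit 196654) (nat_lit 11) .nil)))))) (.g (nat_lit 0) .nil .nil))))))) (.nd (nat_lit 2) (.nd (nat_lit 3) (.nd (nat_lit 4) (.nd (nat_lit 5) 
(.lf (nat_lit 131779) (.g (nat_lit 2736) (.e (nat_lit 16405) (nat_lit 1) (.e (nat_lit 164398) (nat_lit 256) (.e (nat_lit 57410) (nat_lit 12) (.e (nat_lit 336443) (nat_lit 32) (.e (nat_lit 466977) (nat_lit 22) (.e (nat_lit 196656) (nat_lit 11) .nil)))))) (.g (nat_lit 5) .nil .nil))) 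
(.lf (nat_lit 131811) (.g (nat_lit 1815) (.e (nat_lit 16405) (nat_lit 1) (.e (nat_lit 164402) (nat_lit 256) (.e (nat_lit 57406) (nat_lit 12) (.e (nat_lit 336443) (nat_lit 32) (.e (nat_lit 466974) (nat_lit 22) (.e (nat_lit 196654) (nat_lit 11) .nil)))))) (.g (nat_lit 4) .nil .nil)))) (.nd (nat_lit 5) 
(.lf (nat_lit 131795) (.g (nat_lit 1771) (.e (nat_lit 16405) (nat_lit 1) (.e (nat_lit 164398) (nat_lit 256) (.e (nat_lit 57447) (nat_lit 19) (.e (nat_lit 393284) (nat_lit 24) .nil)))) .nil)) 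
(.lf (nat_lit 131827) (.g (nat_lit 1772) (.e (nat_lit 16406) (nat_lit 1) (.e (nat_lit 164396) (nat_lit 256) (.e (nat_lit 57445) (nat_lit 19) (.e (nat_lit 393281) (nat_lit 23) (.e (nat_lit 426116) (nat_lit 2) (.e (nat_lit 196654) (nat_lit 11) .nil)))))) (.g (nat_lit 4) .nil .nil))))) (.nd (nat_lit 4) (.nd (nat_lit 5) 
(.lf (nat_lit 131787) (.g (nat_lit 2917) (.e (nat_lit 16405) (nat_lit 1) (.e (nat_lit 164398) (nat_lit 256) (.e (nat_lit 57445) (nat_lit 19) (.e (nat_lit 393281) (nat_lit 23) (.e (nat_lit 426115) (nat_lit 2) (.e (nat_lit 196654) (nat_lit 11) .nil)))))) (.g (nat_lit 0) .nil .nil))) 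
(.lf (nat_lit 131819) (.g (nat_lit 3131) (.e (nat_lit 16405) (nat_lit 1) (.e (nat_lit 164403) (nat_lit 256) (.e (nat_lit 57447) (nat_lit 19) (.e (nat_lit 393281) (nat_lit 23) (.e (nat_lit 426116) (nat_lit 2) (.e (nat_lit 196656) (nat_lit 11) .nil)))))) (.g (nat_lit 6) .nil .nil)))) (.nd (nat_lit 5) 
(.lf (nat_lit 131803) (.g (nat_lit 2471) (.e (nat_lit 16405) (nat_lit 1) (.e (nat_lit 164399) (nat_lit 256) (.e (nat_lit 57445) (nat_lit 19) (.e (nat_lit 393281) (nat_lit 23) (.e (nat_lit 426115) (nat_lit 2) (.e (nat_lit 196656) (nat_lit 11) .nil)))))) (.g (nat_lit 0) .nil .nil))) 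
(.lf (nat_lit 131835) (.g (nat_lit 3368) (.e (nat_lit 16406) (nat_lit 1) (.e (nat_lit 164398) (nat_lit 256) (.e (nat_lit 57407) (nat_lit 12) (.e (nat_lit 336443) (nat_lit 32) (.e (nat_lit 466974) (nat_lit 22) (.e (nat_lit 196654) (nat_lit 11) .nil)))))) (.g (nat_lit 0) .nil .nil)))))) (.nd (nat_lit 3) (.nd (nat_lit 4) (.nd (nat_lit 5) 
(.lf (nat_lit 131783) (.g (nat_lit 3201) (.e (nat_lit 16405) (nat_lit 1) (.e (nat_lit 164398) (nat_lit 256) (.e (nat_lit 57411) (nat_lit 12) (.e (nat_lit 336443) (nat_lit 32) (.e (nat_lit 466977) (nat_lit 22) (.e (nat_lit 196656) (nat_lit 11) .nil)))))) (.g (nat_lit 6) .nil .nil))) 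
(.lf (nat_lit 131815) (.g (nat_lit 458) (.e (nat_lit 16405) (nat_lit 1) (.e (nat_lit 164403) (nat_lit 256) (.e (nat_lit 57447) (nat_lit 19) .nil))) .nil))) (.nd (nat_lit 5) 
(.lf (nat_lit 131799) (.g (nat_lit 2576) (.e (nat_lit 16405) (nat_lit 1) (.e (nat_lit 164399) (nat_lit 256) (.e (nat_lit 57408) (nat_lit 12) (.e (nat_lit 336443) (nat_lit 32) (.e (nat_lit 466974) (nat_lit 22) (.e (nat_lit 196656) (nat_lit 11) .nil)))))) (.g (nat_lit 0) .nil .nil))) 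
(.lf (nat_lit 131831) (.g (nat_lit 2291) (.e (nat_lit 16406) (nat_lit 1) (.e (nat_lit 164398) (nat_lit 256) (.e (nat_lit 57405) (nat_lit 12) (.e (nat_lit 336443) (nat_lit 32) (.e (nat_lit 466974) (nat_lit 22) (.e (nat_lit 196654) (nat_lit 11) .nil)))))) (.g (nat_lit 5) .nil .nil))))) (.nd (nat_lit 4) (.nd (nat_lit 5) 
(.lf (nat_lit 131791) (.g (nat_lit 3181) (.e (nat_lit 16405) (nat_lit 1) (.e (nat_lit 164398) (nat_lit 256) (.e (nat_lit 57446) (nat_lit 19) (.e (nat_lit 393281) (nat_lit 23) (.e (nat_lit 426116) (nat_lit 2) (.e (nat_lit 196654) (nat_lit 11) .nil)))))) (.g (nat_lit 6) .nil .nil))) 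
(.lf (nat_lit 131823) (.g (nat_lit 1424) (.e (nat_lit 16406) (nat_lit 1) (.e (nat_lit 164332) (nat_lit 230) (.e (nat_lit 163885) (nat_lit 5) (.e (nat_lit 229120) (nat_lit 14) .nil)))) .nil))) (.nd (nat_lit 5) 
(.lf (nat_lit 131807) (.g (nat_lit 2532) (.e (nat_lit 16405) (nat_lit 1) (.e (nat_lit 164399) (nat_lit 256) (.e (nat_lit 57447) (nat_lit 19) (.e (nat_lit 393281) (nat_lit 23) (.e (nat_lit 426115) (nat_lit 2) (.e (nat_lit 196656) (nat_lit 11) .nil)))))) (.g (nat_lit 0) .nil .nil))) 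
(.lf (nat_lit 131839) (.g (nat_lit 1912) (.e (nat_lit 16406) (nat_lit 1) (.e (nat_lit 164398) (nat_lit 256) (.e (nat_lit 57407) (nat_lit 12) (.e (nat_lit 336444) (nat_lit 32) .nil)))) .nil))))))))

noncomputable def tv1757 : DT := (.nd (nat_lit 0) (.nd (nat_lit 1) (.nd (nat_lit 2) (.nd (nat_lit 3) (.nd (nat_lit 4) (.nd (nat_lit 5) 
(.lf (nat_lit 131840) (.g (nat_lit 2697) (.e (nat_lit 16406) (nat_lit 1) (.e (nat_lit 164398) (nat_lit 256) (.e (nat_lit 57408) (nat_lit 12) (.e (nat_lit 336443) (nat_lit 32) (.e (nat_lit 466974) (nat_lit 22) (.e (nat_lit 196654) (nat_lit 11) .nil)))))) (.g (nat_lit 6) .nil .nil))) 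
(.lf (nat_lit 131872) (.g (nat_lit 2911) (.e (nat_lit 16406) (nat_lit 1) (.e (nat_lit 164399) (nat_lit 256) (.e (nat_lit 57445) (nat_lit 19) (.e (nat_lit 393281) (nat_lit 23) (.e (nat_lit 426116) (nat_lit 2) (.e (nat_lit 196656) (nat_lit 11) .nil)))))) (.g (nat_lit 0) .nil .nil)))) (.nd (nat_lit 5) 
(.lf (nat_lit 131856) (.g (nat_lit 1883) (.e (nat_lit 16406) (nat_lit 1) (.e (nat_lit 164398) (nat_lit 256) (.e (nat_lit 57447) (nat_lit 19) (.e (nat_lit 393267) (nat_lit 23) .nil)))) .nil)) 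
(.lf (nat_lit 131888) (.g (nat_lit 1560) (.e (nat_lit 16406) (nat_lit 1) (.e (nat_lit 164401) (nat_lit 256) (.e (nat_lit 57445) (nat_lit 19) (.e (nat_lit 393281) (nat_lit 23) (.e (nat_lit 426115) (nat_lit 2) .nil))))) .nil)))) (.nd (nat_lit 4) (.nd (nat_lit 5) 
(.lf (nat_lit 131848) (.g (nat_lit 479) (.e (nat_lit 16406) (nat_lit 1) (.e (nat_lit 164398) (nat_lit 256) (.e (nat_lit 57444) (nat_lit 19) .nil))) .nil)) 
(.lf (nat_lit 131880) (.g (nat_lit 2866) (.e (nat_lit 16406) (nat_lit 1) (.e (nat_lit 164399) (nat_lit 256) (.e (nat_lit 57448) (nat_lit 19) (.e (nat_lit 393281) (nat_lit 23) (.e (nat_lit 426116) (nat_lit 2) (.e (nat_lit 196656) (nat_lit 11) .nil)))))) (.g (nat_lit 0) .nil .nil)))) (.nd (nat_lit 5) 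
(.lf (nat_lit 131864) (.g (nat_lit 2771) (.e (nat_lit 16406) (nat_lit 1) (.e (nat_lit 164399) (nat_lit 256) (.e (nat_lit 57409) (nat_lit 12) (.e (nat_lit 336443) (nat_lit 32) (.e (nat_lit 466974) (nat_lit 22) (.e (nat_lit 196656) (nat_lit 11) .nil)))))) (.g (nat_lit 0) .nil .nil))) 
(.lf (nat_lit 131896) (.g (nat_lit 1511) (.e (nat_lit 16406) (nat_lit 1) (.e (nat_lit 164403) (nat_lit 256) (.e (nat_lit 57406) (nat_lit 12) (.e (nat_lit 336444) (nat_lit 32) .nil)))) .nil))))) (.nd (nat_lit 3) (.nd (nat_lit 4) (.nd (nat_lit 5) 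
(.lf (nat_lit 131844) (.g (nat_lit 2277) (.e (nat_lit 16406) (nat_lit 1) (.e (nat_lit 164398) (nat_lit 256) (.e (nat_lit 57410) (nat_lit 12) (.e (nat_lit 336443) (nat_lit 32) (.e (nat_lit 466974) (nat_lit 22) (.e (nat_lit 196656) (nat_lit 11) .nil)))))) (.g (nat_lit 5) .nil .nil))) 
(.lf (nat_lit 131876) (.g (nat_lit 2587) (.e (nat_lit 16406) (nat_lit 1) (.e (nat_lit 164399) (nat_lit 256) (.e (nat_lit 57446) (nat_lit 19) (.e (nat_lit 393281) (nat_lit 23) (.e (nat_lit 426116) (nat_lit 2) (.e (nat_lit 196656) (nat_lit 11) .nil)))))) (.g (nat_lit 0) .nil .nil)))) (.nd (nat_lit 5) 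
(.lf (nat_lit 131860) (.g (nat_lit 2902) (.e (nat_lit 16406) (nat_lit 1) (.e (nat_lit 164399) (nat_lit 256) (.e (nat_lit 57407) (nat_lit 12) (.e (nat_lit 336443) (nat_lit 32) (.e (nat_lit 466974) (nat_lit 22) (.e (nat_lit 196656) (nat_lit 11) .nil)))))) (.g (nat_lit 0) .nil .nil))) 
(.lf (nat_lit 131892) (.g (nat_lit 1309) (.e (nat_lit 16406) (nat_lit 1) (.e (nat_lit 164402) (nat_lit 256) (.e (nat_lit 57445) (nat_lit 19) (.e (nat_lit 393281) (nat_lit 23) (.e (nat_lit 426115) (nat_lit 2) .nil))))) .nil)))) (.nd (nat_lit 4) (.nd (nat_lit 5) 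
(.lf (nat_lit 131852) (.g (nat_lit 3126) (.e (nat_lit 16406) (nat_lit 1) (.e (nat_lit 164398) (nat_lit 256) (.e (nat_lit 57445) (nat_lit 19) (.e (nat_lit 393281) (nat_lit 23) (.e (nat_lit 426116) (nat_lit 2) (.e (nat_lit 196656) (nat_lit 11) .nil)))))) (.g (nat_lit 6) .nil .nil))) 
(.lf (nat_lit 131884) (.g (nat_lit 1556) (.e (nat_lit 16406) (nat_lit 1) (.e (nat_lit 164400) (nat_lit 256) (.e (nat_lit 57448) (nat_lit 19) (.e (nat_lit 393281) (nat_lit 23) (.e (nat_lit 426115) (nat_lit 2) (.e (nat_lit 196656) (nat_lit 11) .nil)))))) (.g (nat_lit 4) .nil .nil)))) (.nd (nat_lit 5) 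
(.lf (nat_lit 131868) (.g (nat_lit 1320) (.e (nat_lit 16406) (nat_lit 1) (.e (nat_lit 164399) (nat_lit 256) (.e (nat_lit 57445) (nat_lit 19) (.e (nat_lit 393273) (nat_lit 23) .nil)))) .nil)) 
(.lf (nat_lit 131900) (.g (nat_lit 3131) (.e (nat_lit 16406) (nat_lit 1) (.e (nat_lit 164403) (nat_lit 256) (.e (nat_lit 57409) (nat_lit 12) (.e (nat_lit 336443) (nat_lit 32) (.e (nat_lit 466974) (nat_lit 22) (.e (nat_lit 196654) (nat_lit 11) .nil)))))) (.g (nat_lit 0) .nil .nil))))))) (.nd (nat_lit 2) (.nd (nat_lit 3) (.nd (nat_lit 4) (.nd (nat_lit 5) 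
(.lf (nat_lit 131842) (.g (nat_lit 2805) (.e (nat_lit 16406) (nat_lit 1) (.e (nat_lit 164398) (nat_lit 256) (.e (nat_lit 57409) (nat_lit 12) (.e (nat_lit 336443) (nat_lit 32) (.e (nat_lit 466974) (nat_lit 22) (.e (nat_lit 196656) (nat_lit 11) .nil)))))) (.g (nat_lit 6) .nil .nil))) 
(.lf (nat_lit 131874) (.g (nat_lit 2038) (.e (nat_lit 16406) (nat_lit 1) (.e (nat_lit 164399) (nat_lit 256) (.e (nat_lit 57446) (nat_lit 19) (.e (nat_lit 393281) (nat_lit 23) (.e (nat_lit 426115) (nat_lit 2) (.e (nat_lit 196656) (nat_lit 11) .nil)))))) (.g (nat_lit 0) .nil .nil)))) (.nd (nat_lit 5) 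
(.lf (nat_lit 131858) (.g (nat_lit 3024) (.e (nat_lit 16406) (nat_lit 1) (.e (nat_lit 164398) (nat_lit 256) (.e (nat_lit 57447) (nat_lit 19) (.e (nat_lit 393281) (nat_lit 23) (.e (nat_lit 426116) (nat_lit 2) (.e (nat_lit 196656) (nat_lit 11) .nil)))))) (.g (nat_lit 6) .nil .nil))) 
(.lf (nat_lit 131890) (.g (nat_lit 1181) (.e (nat_lit 16406) (nat_lit 1) (.e (nat_lit 164401) (nat_lit 256) (.e (nat_lit 57446) (nat_lit 19) (.e (nat_lit 393281) (nat_lit 23) (.e (nat_lit 426115) (nat_lit 2) (.e (nat_lit 196656) (nat_lit 11) .nil)))))) (.g (nat_lit 4) .nil .nil))))) (.nd (nat_lit 4) (.nd (nat_lit 5) 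
(.lf (nat_lit 131850) (.g (nat_lit 2591) (.e (nat_lit 16406) (nat_lit 1) (.e (nat_lit 164398) (nat_lit 256) (.e (nat_lit 57445) (nat_lit 19) (.e (nat_lit 393281) (nat_lit 23) (.e (nat_lit 426115) (nat_lit 2) (.e (nat_lit 196656) (nat_lit 11) .nil)))))) (.g (nat_lit 6) .nil .nil))) 
(.lf (nat_lit 131882) (.g (nat_lit 1040) (.e (nat_lit 16406) (nat_lit 1) (.e (nat_lit 164400) (nat_lit 256) (.e (nat_lit 57445) (nat_lit 19) (.e (nat_lit 393281) (nat_lit 23) .nil)))) .nil))) (.nd (nat_lit 5) 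
(.lf (nat_lit 131866) (.g (nat_lit 2625) (.e (nat_lit 16406) (nat_lit 1) (.e (nat_lit 164399) (nat_lit 256) (.e (nat_lit 57410) (nat_lit 12) (.e (nat_lit 336443) (nat_lit 32) (.e (nat_lit 466977) (nat_lit 22) (.e (nat_lit 196656) (nat_lit 11) .nil)))))) (.g (nat_lit 5) .nil .nil))) 
(.lf (nat_lit 131898) (.g (nat_lit 2659) (.e (nat_lit 16406) (nat_lit 1) (.e (nat_lit 164403) (nat_lit 256) (.e (nat_lit 57408) (nat_lit 12) (.e (nat_lit 336443) (nat_lit 32) (.e (nat_lit 466974) (nat_lit 22) (.e (nat_lit 196656) (nat_lit 11) .nil)))))) (.g (nat_lit 6) .nil .nil)))))) (.nd (nat_lit 3) (.nd (nat_lit 4) (.nd (nat_lit 5) 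
(.lf (nat_lit 131846) (.g (nat_lit 2829) (.e (nat_lit 16406) (nat_lit 1) (.e (nat_lit 164398) (nat_lit 256) (.e (nat_lit 57411) (nat_lit 12) (.e (nat_lit 336443) (nat_lit 32) (.e (nat_lit 466974) (nat_lit 22) (.e (nat_lit 196656) (nat_lit 11) .nil)))))) (.g (nat_lit 6) .nil .nil))) 
(.lf (nat_lit 131878) (.g (nat_lit 2987) (.e (nat_lit 16406) (nat_lit 1) (.e (nat_lit 164399) (nat_lit 256) (.e (nat_lit 57447) (nat_lit 19) (.e (nat_lit 393281) (nat_lit 23) (.e (nat_lit 426116) (nat_lit 2) (.e (nat_lit 196656) (nat_lit 11) .nil)))))) (.g (nat_lit 0) .nil .nil)))) (.nd (nat_lit 5) 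
(.lf (nat_lit 131862) (.g (nat_lit 2488) (.e (nat_lit 16406) (nat_lit 1) (.e (nat_lit 164399) (nat_lit 256) (.e (nat_lit 57408) (nat_lit 12) (.e (nat_lit 336443) (nat_lit 32) (.e (nat_lit 466974) (nat_lit 22) (.e (nat_lit 196656) (nat_lit 11) .nil)))))) (.g (nat_lit 0) .nil .nil))) 
(.lf (nat_lit 131894) (.g (nat_lit 3306) (.e (nat_lit 16406) (nat_lit 1) (.e (nat_lit 164403) (nat_lit 256) (.e (nat_lit 57406) (nat_lit 12) (.e (nat_lit 336443) (nat_lit 32) (.e (nat_lit 466977) (nat_lit 22) (.e (nat_lit 196654) (nat_lit 11) .nil)))))) (.g (nat_lit 0) .nil .nil))))) (.nd (nat_lit 4) (.nd (nat_lit 5) 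
(.lf (nat_lit 131854) (.g (nat_lit 2920) (.e (nat_lit 16406) (nat_lit 1) (.e (nat_lit 164398) (nat_lit 256) (.e (nat_lit 57446) (nat_lit 19) (.e (nat_lit 393281) (nat_lit 23) (.e (nat_lit 426116) (nat_lit 2) (.e (nat_lit 196654) (nat_lit 11) .nil)))))) (.g (nat_lit 6) .nil .nil))) 
(.lf (nat_lit 131886) (.g (nat_lit 1952) (.e (nat_lit 16406) (nat_lit 1) (.e (nat_lit 164401) (nat_lit 256) (.e (nat_lit 57408) (nat_lit 12) (.e (nat_lit 336443) (nat_lit 32) (.e (nat_lit 466977) (nat_lit 22) (.e (nat_lit 196654) (nat_lit 11) .nil)))))) (.g (nat_lit 5) .nil .nil)))) (.nd (nat_lit 5) 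
(.lf (nat_lit 131870) (.g (nat_lit 2371) (.e (nat_lit 16406) (nat_lit 1) (.e (nat_lit 164399) (nat_lit 256) (.e (nat_lit 57445) (nat_lit 19) (.e (nat_lit 393281) (nat_lit 23) (.e (nat_lit 426115) (nat_lit 2) (.e (nat_lit 196656) (nat_lit 11) .nil)))))) (.g (nat_lit 0) .nil .nil))) 
(.lf (nat_lit 131902) (.g (nat_lit 3190) (.e (nat_lit 16406) (nat_lit 1) (.e (nat_lit 164403) (nat_lit 256) (.e (nat_lit 57409) (nat_lit 12) (.e (nat_lit 336443) (nat_lit 32) (.e (nat_lit 466977) (nat_lit 22) (.e (nat_lit 196654) (nat_lit 11) .nil)))))) (.g (nat_lit 0) .nil .nil)))))))) (.nd (nat_lit 1) (.nd (nat_lit 2) (.nd (nat_lit 3) (.nd (nat_lit 4) (.nd (nat_lit 5) 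
(.lf (nat_lit 131841) (.g (nat_lit 2776) (.e (nat_lit 16406) (nat_lit 1) (.e (nat_lit 164398) (nat_lit 256) (.e (nat_lit 57408) (nat_lit 12) (.e (nat_lit 336443) (nat_lit 32) (.e (nat_lit 466977) (nat_lit 22) (.e (nat_lit 196654) (nat_lit 11) .nil)))))) (.g (nat_lit 6) .nil .nil))) 
(.lf (nat_lit 131873) (.g (nat_lit 2007) (.e (nat_lit 16406) (nat_lit 1) (.e (nat_lit 164399) (nat_lit 256) (.e (nat_lit 57446) (nat_lit 19) (.e (nat_lit 393281) (nat_lit 23) (.e (nat_lit 426115) (nat_lit 2) (.e (nat_lit 196654) (nat_lit 11) .nil)))))) (.g (nat_lit 0) .nil .nil)))) (.nd (nat_lit 5) 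
(.lf (nat_lit 131857) (.g (nat_lit 3517) (.e (nat_lit 16406) (nat_lit 1) (.e (nat_lit 164398) (nat_lit 256) (.e (nat_lit 57447) (nat_lit 19) (.e (nat_lit 393271) (nat_lit 23) (.e (nat_lit 426128) (nat_lit 2) (.e (nat_lit 196656) (nat_lit 11) .nil)))))) (.g (nat_lit 6) .nil .nil))) 
(.lf (nat_lit 131889) (.g (nat_lit 1790) (.e (nat_lit 16406) (nat_lit 1) (.e (nat_lit 164401) (nat_lit 256) (.e (nat_lit 57445) (nat_lit 19) (.e (nat_lit 393281) (nat_lit 23) (.e (nat_lit 426115) (nat_lit 2) (.e (nat_lit 196654) (nat_lit 11) .nil)))))) (.g (nat_lit 5) .nil .nil))))) (.nd (nat_lit 4) (.nd (nat_lit 5) 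
(.lf (nat_lit 131849) (.g (nat_lit 1515) (.e (nat_lit 16406) (nat_lit 1) (.e (nat_lit 164398) (nat_lit 256) (.e (nat_lit 57445) (nat_lit 19) (.e (nat_lit 393273) (nat_lit 23) .nil)))) .nil)) 
(.lf (nat_lit 131881) (.g (nat_lit 2014) (.e (nat_lit 16406) (nat_lit 1) (.e (nat_lit 164400) (nat_lit 256) (.e (nat_lit 57407) (nat_lit 12) (.e (nat_lit 336443) (nat_lit 32) (.e (nat_lit 466974) (nat_lit 22) .nil))))) .nil))) (.nd (nat_lit 5) 
(.lf (nat_lit 131865) (.g (nat_lit 2936) (.e (nat_lit 16406) (nat_lit 1) (.e (nat_lit 164399) (nat_lit 256) (.e (nat_lit 57409) (nat_lit 12) (.e (nat_lit 336443) (nat_lit 32) (.e (nat_lit 466977) (nat_lit 22) (.e (nat_lit 196656) (nat_lit 11) .nil)))))) (.g (nat_lit 0) .nil .nil))) 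
(.lf (nat_lit 131897) (.g (nat_lit 2862) (.e (nat_lit 16406) (nat_lit 1) (.e (nat_lit 164403) (nat_lit 256) (.e (nat_lit 57408) (nat_lit 12) (.e (nat_lit 336443) (nat_lit 32) (.e (nat_lit 466974) (nat_lit 22) (.e (nat_lit 196654) (nat_lit 11) .nil)))))) (.g (nat_lit 0) .nil .nil)))))) (.nd (nat_lit 3) (.nd (nat_lit 4) (.nd (nat_lit 5) 
(.lf (nat_lit 131845) (.g (nat_lit 2472) (.e (nat_lit 16406) (nat_lit 1) (.e (nat_lit 164398) (nat_lit 256) (.e (nat_lit 57410) (nat_lit 12) (.e (nat_lit 336443) (nat_lit 32) (.e (nat_lit 466977) (nat_lit 22) (.e (nat_lit 196654) (nat_lit 11) .nil)))))) (.g (nat_lit 5) .nil .nil))) 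
(.lf (nat_lit 131877) (.g (nat_lit 2444) (.e (nat_lit 16406) (nat_lit 1) (.e (nat_lit 164399) (nat_lit 256) (.e (nat_lit 57447) (nat_lit 19) (.e (nat_lit 393281) (nat_lit 23) (.e (nat_lit 426115) (nat_lit 2) (.e (nat_lit 196656) (nat_lit 11) .nil)))))) (.g (nat_lit 0) .nil .nil)))) (.nd (nat_lit 5) 
(.lf (nat_lit 131861) (.g (nat_lit 3078) (.e (nat_lit 16406) (nat_lit 1) (.e (nat_lit 164399) (nat_lit 256) (.e (nat_lit 57407) (nat_lit 12) (.e (nat_lit 336443) (nat_lit 32) (.e (nat_lit 466977) (nat_lit 22) (.e (nat_lit 196656) (nat_lit 11) .nil)))))) (.g (nat_lit 0) .nil .nil))) 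
(.lf (nat_lit 131893) (.g (nat_lit 3222) (.e (nat_lit 16406) (nat_lit 1) (.e (nat_lit 164403) (nat_lit 256) (.e (nat_lit 57406) (nat_lit 12) (.e (nat_lit 336443) (nat_lit 32) (.e (nat_lit 466974) (nat_lit 22) (.e (nat_lit 196654) (nat_lit 11) .nil)))))) (.g (nat_lit 0) .nil .nil))))) (.nd (nat_lit 4) (.nd (nat_lit 5) 
(.lf (nat_lit 131853) (.g (nat_lit 2394) (.e (nat_lit 16406) (nat_lit 1) (.e (nat_lit 164398) (nat_lit 256) (.e (nat_lit 57446) (nat_lit 19) (.e (nat_lit 393281) (nat_lit 23) (.e (nat_lit 426115) (nat_lit 2) (.e (nat_lit 196654) (nat_lit 11) .nil)))))) (.g (nat_lit 6) .nil .nil))) 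
(.lf (nat_lit 131885) (.g (nat_lit 1909) (.e (nat_lit 16406) (nat_lit 1) (.e (nat_lit 164401) (nat_lit 256) (.e (nat_lit 57408) (nat_lit 12) (.e (nat_lit 336443) (nat_lit 32) (.e (nat_lit 466974) (nat_lit 22) (.e (nat_lit 196654) (nat_lit 11) .nil)))))) (.g (nat_lit 5) .nil .nil)))) (.nd (nat_lit 5) 
(.lf (nat_lit 131869) (.g (nat_lit 2338) (.e (nat_lit 16406) (nat_lit 1) (.e (nat_lit 164399) (nat_lit 256) (.e (nat_lit 57445) (nat_lit 19) (.e (nat_lit 393281) (nat_lit 23) (.e (nat_lit 426115) (nat_lit 2) (.e (nat_lit 196654) (nat_lit 11) .nil)))))) (.g (nat_lit 0) .nil .nil))) 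
(.lf (nat_lit 131901) (.g (nat_lit 2923) (.e (nat_lit 16406) (nat_lit 1) (.e (nat_lit 164403) (nat_lit 256) (.e (nat_lit 57409) (nat_lit 12) (.e (nat_lit 336443) (nat_lit 32) (.e (nat_lit 466974) (nat_lit 22) (.e (nat_lit 196656) (nat_lit 11) .nil)))))) (.g (nat_lit 6) .nil .nil))))))) (.nd (nat_lit 2) (.nd (nat_lit 3) (.nd (nat_lit 4) (.nd (nat_lit 5) 
(.lf (nat_lit 131843) (.g (nat_lit 2938) (.e (nat_lit 16406) (nat_lit 1) (.e (nat_lit 164398) (nat_lit 256) (.e (nat_lit 57409) (nat_lit 12) (.e (nat_lit 336443) (nat_lit 32) (.e (nat_lit 466977) (nat_lit 22) (.e (nat_lit 196656) (nat_lit 11) .nil)))))) (.g (nat_lit 6) .nil .nil))) 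
(.lf (nat_lit 131875) (.g (nat_lit 2547) (.e (nat_lit 16406) (nat_lit 1) (.e (nat_lit 164399) (nat_lit 256) (.e (nat_lit 57446) (nat_lit 19) (.e (nat_lit 393281) (nat_lit 23) (.e (nat_lit 426116) (nat_lit 2) (.e (nat_lit 196654) (nat_lit 11) .nil)))))) (.g (nat_lit 0) .nil .nil)))) (.nd (nat_lit 5) 
(.lf (nat_lit 131859) (.g (nat_lit 2916) (.e (nat_lit 16406) (nat_lit 1) (.e (nat_lit 164398) (nat_lit 256) (.e (nat_lit 57448) (nat_lit 19) (.e (nat_lit 393281) (nat_lit 23) (.e (nat_lit 426116) (nat_lit 2) (.e (nat_lit 196656) (nat_lit 11) .nil)))))) (.g (nat_lit 6) .nil .nil))) 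
(.lf (nat_lit 131891) (.g (nat_lit 1893) (.e (nat_lit 16406) (nat_lit 1) (.e (nat_lit 164402) (nat_lit 256) (.e (nat_lit 57406) (nat_lit 12) (.e (nat_lit 336443) (nat_lit 32) (.e (nat_lit 466974) (nat_lit 22) (.e (nat_lit 196654) (nat_lit 11) .nil)))))) (.g (nat_lit 4) .nil .nil))))) (.nd (nat_lit 4) (.nd (nat_lit 5) 
(.lf (nat_lit 131851) (.g (nat_lit 3272) (.e (nat_lit 16406) (nat_lit 1) (.e (nat_lit 164398) (nat_lit 256) (.e (nat_lit 57445) (nat_lit 19) (.e (nat_lit 393281) (nat_lit 23) (.e (nat_lit 426116) (nat_lit 2) (.e (nat_lit 196654) (nat_lit 11) .nil)))))) (.g (nat_lit 0) .nil .nil))) 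
(.lf (nat_lit 131883) (.g (nat_lit 1105) (.e (nat_lit 16406) (nat_lit 1) (.e (nat_lit 164400) (nat_lit 256) (.e (nat_lit 57447) (nat_lit 19) (.e (nat_lit 393281) (nat_lit 23) .nil)))) .nil))) (.nd (nat_lit 5) 
(.lf (nat_lit 131867) (.g (nat_lit 2890) (.e (nat_lit 16406) (nat_lit 1) (.e (nat_lit 164399) (nat_lit 256) (.e (nat_lit 57411) (nat_lit 12) (.e (nat_lit 336443) (nat_lit 32) (.e (nat_lit 466974) (nat_lit 22) (.e (nat_lit 196656) (nat_lit 11) .nil)))))) (.g (nat_lit 0) .nil .nil))) 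
(.lf (nat_lit 131899) (.g (nat_lit 2847) (.e (nat_lit 16406) (nat_lit 1) (.e (nat_lit 164403) (nat_lit 256) (.e (nat_lit 57408) (nat_lit 12) (.e (nat_lit 336443) (nat_lit 32) (.e (nat_lit 466977) (nat_lit 22) (.e (nat_lit 196656) (nat_lit 11) .nil)))))) (.g (nat_lit 6) .nil .nil)))))) (.nd (nat_lit 3) (.nd (nat_lit 4) (.nd (nat_lit 5) 
(.lf (nat_lit 131847) (.g (nat_lit 2979) (.e (nat_lit 16406) (nat_lit 1) (.e (nat_lit 164398) (nat_lit 256) (.e (nat_lit 57411) (nat_lit 12) (.e (nat_lit 336443) (nat_lit 32) (.e (nat_lit 466977) (nat_lit 22) (.e (nat_lit 196656) (nat_lit 11) .nil)))))) (.g (nat_lit 6) .nil .nil))) 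
(.lf (nat_lit 131879) (.g (nat_lit 2307) (.e (nat_lit 16406) (nat_lit 1) (.e (nat_lit 164399) (nat_lit 256) (.e (nat_lit 57448) (nat_lit 19) (.e (nat_lit 393281) (nat_lit 23) (.e (nat_lit 426115) (nat_lit 2) (.e (nat_lit 196656) (nat_lit 11) .nil)))))) (.g (nat_lit 0) .nil .nil)))) (.nd (nat_lit 5) 
(.lf (nat_lit 131863) (.g (nat_lit 2645) (.e (nat_lit 16406) (nat_lit 1) (.e (nat_lit 164399) (nat_lit 256) (.e (nat_lit 57408) (nat_lit 12) (.e (nat_lit 336443) (nat_lit 32) (.e (nat_lit 466977) (nat_lit 22) (.e (nat_lit 196656) (nat_lit 11) .nil)))))) (.g (nat_lit 0) .nil .nil))) 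
(.lf (nat_lit 131895) (.g (nat_lit 3174) (.e (nat_lit 16406) (nat_lit 1) (.e (nat_lit 164403) (nat_lit 256) (.e (nat_lit 57406) (nat_lit 12) (.e (nat_lit 336443) (nat_lit 32) (.e (nat_lit 466977) (nat_lit 22) (.e (nat_lit 196656) (nat_lit 11) .nil)))))) (.g (nat_lit 6) .nil .nil))))) (.nd (nat_lit 4) (.nd (nat_lit 5) 
(.lf (nat_lit 131855) (.g (nat_lit 421) (.e (nat_lit 16406) (nat_lit 1) (.e (nat_lit 164398) (nat_lit 256) (.e (nat_lit 57447) (nat_lit 19) .nil))) .nil)) 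
(.lf (nat_lit 131887) (.g (nat_lit 2192) (.e (nat_lit 16406) (nat_lit 1) (.e (nat_lit 164401) (nat_lit 256) (.e (nat_lit 57409) (nat_lit 12) (.e (nat_lit 336443) (nat_lit 32) (.e (nat_lit 466974) (nat_lit 22) (.e (nat_lit 196656) (nat_lit 11) .nil)))))) (.g (nat_lit 5) .nil .nil)))) (.nd (nat_lit 5) 
(.lf (nat_lit 131871) (.g (nat_lit 2872) (.e (nat_lit 16406) (nat_lit 1) (.e (nat_lit 164399) (nat_lit 256) (.e (nat_lit 57445) (nat_lit 19) (.e (nat_lit 393281) (nat_lit 23) (.e (nat_lit 426116) (nat_lit 2) (.e (nat_lit 196654) (nat_lit 11) .nil)))))) (.g (nat_lit 0) .nil .nil))) 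
(.lf (nat_lit 131903) (.g (nat_lit 3115) (.e (nat_lit 16406) (nat_lit 1) (.e (nat_lit 164403) (nat_lit 256) (.e (nat_lit 57409) (nat_lit 12) (.e (nat_lit 336443) (nat_lit 32) (.e (nat_lit 466977) (nat_lit 22) (.e (nat_lit 196656) (nat_lit 11) .nil)))))) (.g (nat_lit 6) .nil .nil)))))))))

noncomputable def tv1758 : DT := (.nd (nat_lit 0) (.nd (nat_lit 1) (.nd (nat_lit 2) (.nd (nat_lit 3) (.nd (nat_lit 4) (.nd (nat_lit 5) 
(.lf (nat_lit 131904) (.g (nat_lit 1689) (.e (nat_lit 16406) (nat_lit 1) (.e (nat_lit 164403) (nat_lit 256) (.e (nat_lit 57445) (nat_lit 19) (.e (nat_lit 393273) (nat_lit 23) .nil)))) .nil)) 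
(.lf (nat_lit 131936) (.g (nat_lit 2040) (.e (nat_lit 16407) (nat_lit 1) (.e (nat_lit 164402) (nat_lit 256) (.e (nat_lit 57406) (nat_lit 12) (.e (nat_lit 336443) (nat_lit 32) (.e (nat_lit 466974) (nat_lit 22) (.e (nat_lit 196656) (nat_lit 11) .nil)))))) (.g (nat_lit 4) .nil .nil)))) (.nd (nat_lit 5) 
(.lf (nat_lit 131920) (.g (nat_lit 2299) (.e (nat_lit 16407) (nat_lit 1) (.e (nat_lit 164396) (nat_lit 256) (.e (nat_lit 57409) (nat_lit 12) (.e (nat_lit 336443) (nat_lit 32) (.e (nat_lit 466974) (nat_lit 22) .nil))))) .nil)) 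
(.lf (nat_lit 131952) (.g (nat_lit 2748) (.e (nat_lit 16407) (nat_lit 1) (.e (nat_lit 164403) (nat_lit 256) (.e (nat_lit 57447) (nat_lit 19) (.e (nat_lit 393281) (nat_lit 23) (.e (nat_lit 426115) (nat_lit 2) (.e (nat_lit 196656) (nat_lit 11) .nil)))))) (.g (nat_lit 0) .nil .nil))))) (.nd (nat_lit 4) (.nd (nat_lit 5) 
(.lf (nat_lit 131912) (.g (nat_lit 2087) (.e (nat_lit 16406) (nat_lit 1) (.e (nat_lit 164403) (nat_lit 256) (.e (nat_lit 57447) (nat_lit 19) (.e (nat_lit 393267) (nat_lit 23) .nil)))) .nil)) 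
(.lf (nat_lit 131944) (.g (nat_lit 3184) (.e (nat_lit 16407) (nat_lit 1) (.e (nat_lit 164403) (nat_lit 256) (.e (nat_lit 57406) (nat_lit 12) (.e (nat_lit 336443) (nat_lit 32) (.e (nat_lit 466974) (nat_lit 22) (.e (nat_lit 196656) (nat_lit 11) .nil)))))) (.g (nat_lit 0) .nil .nil)))) (.nd (nat_lit 5) 
(.lf (nat_lit 131928) (.g (nat_lit 2244) (.e (nat_lit 16407) (nat_lit 1) (.e (nat_lit 164401) (nat_lit 256) (.e (nat_lit 57409) (nat_lit 12) (.e (nat_lit 336443) (nat_lit 32) (.e (nat_lit 466974) (nat_lit 22) (.e (nat_lit 196656) (nat_lit 11) .nil)))))) (.g (nat_lit 5) .nil .nil))) 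
(.lf (nat_lit 131960) (.g (nat_lit 2760) (.e (nat_lit 16408) (nat_lit 1) (.e (nat_lit 164403) (nat_lit 256) (.e (nat_lit 57409) (nat_lit 12) (.e (nat_lit 336443) (nat_lit 32) (.e (nat_lit 466974) (nat_lit 22) (.e (nat_lit 196654) (nat_lit 11) .nil)))))) (.g (nat_lit 6) .nil .nil)))))) (.nd (nat_lit 3) (.nd (nat_lit 4) (.nd (nat_lit 5) 
(.lf (nat_lit 131908) (.g (nat_lit 2458) (.e (nat_lit 16406) (nat_lit 1) (.e (nat_lit 164403) (nat_lit 256) (.e (nat_lit 57446) (nat_lit 19) (.e (nat_lit 393281) (nat_lit 23) (.e (nat_lit 426115) (nat_lit 2) (.e (nat_lit 196654) (nat_lit 11) .nil)))))) (.g (nat_lit 0) .nil .nil))) 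
(.lf (nat_lit 131940) (.g (nat_lit 1693) (.e (nat_lit 16407) (nat_lit 1) (.e (nat_lit 164402) (nat_lit 256) (.e (nat_lit 57445) (nat_lit 19) (.e (nat_lit 393281) (nat_lit 23) (.e (nat_lit 426115) (nat_lit 2) (.e (nat_lit 196656) (nat_lit 11) .nil)))))) (.g (nat_lit 4) .nil .nil)))) (.nd (nat_lit 5) 
(.lf (nat_lit 131924) (.g (nat_lit 3044) (.e (nat_lit 16407) (nat_lit 1) (.e (nat_lit 164401) (nat_lit 256) (.e (nat_lit 57406) (nat_lit 12) (.e (nat_lit 336443) (nat_lit 32) (.e (nat_lit 466977) (nat_lit 22) (.e (nat_lit 196654) (nat_lit 11) .nil)))))) (.g (nat_lit 6) .nil .nil))) 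
(.lf (nat_lit 131956) (.g (nat_lit 1167) (.e (nat_lit 16408) (nat_lit 1) (.e (nat_lit 164332) (nat_lit 230) (.e (nat_lit 163884) (nat_lit 5) (.e (nat_lit 229120) (nat_lit 14) .nil)))) .nil)))) (.nd (nat_lit 4) (.nd (nat_lit 5) 
(.lf (nat_lit 131916) (.g (nat_lit 1846) (.e (nat_lit 16407) (nat_lit 1) (.e (nat_lit 164185) (nat_lit 155) (.e (nat_lit 122919) (nat_lit 15) (.e (nat_lit 360451) (nat_lit 0) (.e (nat_lit 7695) (nat_lit 412) .nil))))) .nil)) 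
(.lf (nat_lit 131948) (.g (nat_lit 2332) (.e (nat_lit 16407) (nat_lit 1) (.e (nat_lit 164403) (nat_lit 256) (.e (nat_lit 57446) (nat_lit 19) (.e (nat_lit 393281) (nat_lit 23) (.e (nat_lit 426115) (nat_lit 2) (.e (nat_lit 196656) (nat_lit 11) .nil)))))) (.g (nat_lit 0) .nil .nil)))) (.nd (nat_lit 5) 
(.lf (nat_lit 131932) (.g (nat_lit 2140) (.e (nat_lit 16407) (nat_lit 1) (.e (nat_lit 164401) (nat_lit 256) (.e (nat_lit 57446) (nat_lit 19) (.e (nat_lit 393281) (nat_lit 23) (.e (nat_lit 426115) (nat_lit 2) (.e (nat_lit 196654) (nat_lit 11) .nil)))))) (.g (nat_lit 6) .nil .nil))) 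
(.lf (nat_lit 131964) (.g (nat_lit 1029) (.e (nat_lit 24320) (nat_lit 1) (.e (nat_lit 164399) (nat_lit 256) (.e (nat_lit 57445) (nat_lit 19) (.e (nat_lit 393281) (nat_lit 23) .nil)))) .nil)))))) (.nd (nat_lit 2) (.nd (nat_lit 3) (.nd (nat_lit 4) (.nd (nat_lit 5) 
(.lf (nat_lit 131906) (.g (nat_lit 3303) (.e (nat_lit 16406) (nat_lit 1) (.e (nat_lit 164403) (nat_lit 256) (.e (nat_lit 57445) (nat_lit 19) (.e (nat_lit 393281) (nat_lit 23) (.e (nat_lit 426116) (nat_lit 2) (.e (nat_lit 196654) (nat_lit 11) .nil)))))) (.g (nat_lit 0) .nil .nil))) 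
(.lf (nat_lit 131938) (.g (nat_lit 2507) (.e (nat_lit 16407) (nat_lit 1) (.e (nat_lit 164402) (nat_lit 256) (.e (nat_lit 57409) (nat_lit 12) (.e (nat_lit 336443) (nat_lit 32) (.e (nat_lit 466977) (nat_lit 22) (.e (nat_lit 196654) (nat_lit 11) .nil)))))) (.g (nat_lit 5) .nil .nil)))) (.nd (nat_lit 5) 
(.lf (nat_lit 131922) (.g (nat_lit 1780) (.e (nat_lit 16407) (nat_lit 1) (.e (nat_lit 164396) (nat_lit 256) (.e (nat_lit 57448) (nat_lit 19) (.e (nat_lit 393281) (nat_lit 23) (.e (nat_lit 426116) (nat_lit 2) (.e (nat_lit 196656) (nat_lit 11) .nil)))))) (.g (nat_lit 4) .nil .nil))) 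
(.lf (nat_lit 131954) (.g (nat_lit 3383) (.e (nat_lit 16407) (nat_lit 1) (.e (nat_lit 164403) (nat_lit 256) (.e (nat_lit 57447) (nat_lit 19) (.e (nat_lit 393281) (nat_lit 23) (.e (nat_lit 426124) (nat_lit 2) (.e (nat_lit 196656) (nat_lit 11) .nil)))))) (.g (nat_lit 6) .nil .nil))))) (.nd (nat_lit 4) (.nd (nat_lit 5) 
(.lf (nat_lit 131914) (.g (nat_lit 3310) (.e (nat_lit 16406) (nat_lit 1) (.e (nat_lit 164403) (nat_lit 256) (.e (nat_lit 57447) (nat_lit 19) (.e (nat_lit 393281) (nat_lit 23) (.e (nat_lit 426116) (nat_lit 2) (.e (nat_lit 196654) (nat_lit 11) .nil)))))) (.g (nat_lit 0) .nil .nil))) 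
(.lf (nat_lit 131946) (.g (nat_lit 3142) (.e (nat_lit 16407) (nat_lit 1) (.e (nat_lit 164403) (nat_lit 256) (.e (nat_lit 57409) (nat_lit 12) (.e (nat_lit 336443) (nat_lit 32) (.e (nat_lit 466974) (nat_lit 22) (.e (nat_lit 196656) (nat_lit 11) .nil)))))) (.g (nat_lit 0) .nil .nil)))) (.nd (nat_lit 5) 
(.lf (nat_lit 131930) (.g (nat_lit 1664) (.e (nat_lit 16407) (nat_lit 1) (.e (nat_lit 164401) (nat_lit 256) (.e (nat_lit 57445) (nat_lit 19) (.e (nat_lit 393281) (nat_lit 23) (.e (nat_lit 426115) (nat_lit 2) (.e (nat_lit 196656) (nat_lit 11) .nil)))))) (.g (nat_lit 4) .nil .nil))) 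
(.lf (nat_lit 131962) (.g (nat_lit 2486) (.e (nat_lit 16408) (nat_lit 1) (.e (nat_lit 164403) (nat_lit 256) (.e (nat_lit 57447) (nat_lit 19) (.e (nat_lit 393281) (nat_lit 23) (.e (nat_lit 426115) (nat_lit 2) (.e (nat_lit 196654) (nat_lit 11) .nil)))))) (.g (nat_lit 0) .nil .nil)))))) (.nd (nat_lit 3) (.nd (nat_lit 4) (.nd (nat_lit 5) 
(.lf (nat_lit 131910) (.g (nat_lit 2797) (.e (nat_lit 16406) (nat_lit 1) (.e (nat_lit 164403) (nat_lit 256) (.e (nat_lit 57446) (nat_lit 19) (.e (nat_lit 393281) (nat_lit 23) (.e (nat_lit 426116) (nat_lit 2) (.e (nat_lit 196656) (nat_lit 11) .nil)))))) (.g (nat_lit 6) .nil .nil))) 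
(.lf (nat_lit 131942) (.g (nat_lit 2239) (.e (nat_lit 16407) (nat_lit 1) (.e (nat_lit 164402) (nat_lit 256) (.e (nat_lit 57445) (nat_lit 19) (.e (nat_lit 393281) (nat_lit 23) (.e (nat_lit 426116) (nat_lit 2) (.e (nat_lit 196656) (nat_lit 11) .nil)))))) (.g (nat_lit 5) .nil .nil)))) (.nd (nat_lit 5) 
(.lf (nat_lit 131926) (.g (nat_lit 2611) (.e (nat_lit 16407) (nat_lit 1) (.e (nat_lit 164401) (nat_lit 256) (.e (nat_lit 57408) (nat_lit 12) (.e (nat_lit 336443) (nat_lit 32) (.e (nat_lit 466974) (nat_lit 22) (.e (nat_lit 196654) (nat_lit 11) .nil)))))) (.g (nat_lit 0) .nil .nil))) 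
(.lf (nat_lit 131958) (.g (nat_lit 1719) (.e (nat_lit 16408) (nat_lit 1) (.e (nat_lit 164402) (nat_lit 256) (.e (nat_lit 57406) (nat_lit 12) (.e (nat_lit 336443) (nat_lit 32) (.e (nat_lit 466974) (nat_lit 22) .nil))))) .nil)))) (.nd (nat_lit 4) (.nd (nat_lit 5) 
(.lf (nat_lit 131918) (.g (nat_lit 1224) (.e (nat_lit 16407) (nat_lit 1) (.e (nat_lit 164332) (nat_lit 230) (.e (nat_lit 163885) (nat_lit 5) (.e (nat_lit 229120) (nat_lit 14) .nil)))) .nil)) 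
(.lf (nat_lit 131950) (.g (nat_lit 3920) (.e (nat_lit 16407) (nat_lit 1) (.e (nat_lit 164403) (nat_lit 256) (.e (nat_lit 57447) (nat_lit 19) (.e (nat_lit 393271) (nat_lit 23) (.e (nat_lit 426128) (nat_lit 2) (.e (nat_lit 196656) (nat_lit 11) .nil)))))) (.g (nat_lit 0) .nil .nil)))) (.nd (nat_lit 5) 
(.lf (nat_lit 131934) (.g (nat_lit 1899) (.e (nat_lit 16407) (nat_lit 1) (.e (nat_lit 164401) (nat_lit 256) (.e (nat_lit 57447) (nat_lit 19) (.e (nat_lit 393281) (nat_lit 23) (.e (nat_lit 426115) (nat_lit 2) (.e (nat_lit 196656) (nat_lit 11) .nil)))))) (.g (nat_lit 5) .nil .nil))) 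
(.lf (nat_lit 131966) (.g (nat_lit 986) (.e (nat_lit 24320) (nat_lit 1) (.e (nat_lit 164399) (nat_lit 256) (.e (nat_lit 57447) (nat_lit 19) (.e (nat_lit 393281) (nat_lit 23) .nil)))) .nil))))))) (.nd (nat_lit 1) (.nd (nat_lit 2) (.nd (nat_lit 3) (.nd (nat_lit 4) (.nd (nat_lit 5) 
(.lf (nat_lit 131905) (.g (nat_lit 2772) (.e (nat_lit 16406) (nat_lit 1) (.e (nat_lit 164403) (nat_lit 256) (.e (nat_lit 57445) (nat_lit 19) (.e (nat_lit 393281) (nat_lit 23) (.e (nat_lit 426115) (nat_lit 2) (.e (nat_lit 196654) (nat_lit 11) .nil)))))) (.g (nat_lit 0) .nil .nil))) 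
(.lf (nat_lit 131937) (.g (nat_lit 2474) (.e (nat_lit 16407) (nat_lit 1) (.e (nat_lit 164402) (nat_lit 256) (.e (nat_lit 57409) (nat_lit 12) (.e (nat_lit 336443) (nat_lit 32) (.e (nat_lit 466974) (nat_lit 22) (.e (nat_lit 196654) (nat_lit 11) .nil)))))) (.g (nat_lit 5) .nil .nil)))) (.nd (nat_lit 5) 
(.lf (nat_lit 131921) (.g (nat_lit 1995) (.e (nat_lit 16407) (nat_lit 1) (.e (nat_lit 164396) (nat_lit 256) (.e (nat_lit 57445) (nat_lit 19) (.e (nat_lit 393281) (nat_lit 23) (.e (nat_lit 426115) (nat_lit 2) (.e (nat_lit 196654) (nat_lit 11) .nil)))))) (.g (nat_lit 4) .nil .nil))) 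
(.lf (nat_lit 131953) (.g (nat_lit 3285) (.e (nat_lit 16407) (nat_lit 1) (.e (nat_lit 164403) (nat_lit 256) (.e (nat_lit 57447) (nat_lit 19) (.e (nat_lit 393281) (nat_lit 23) (.e (nat_lit 426116) (nat_lit 2) (.e (nat_lit 196656) (nat_lit 11) .nil)))))) (.g (nat_lit 0) .nil .nil))))) (.nd (nat_lit 4) (.nd (nat_lit 5) 
(.lf (nat_lit 131913) (.g (nat_lit 2777) (.e (nat_lit 16406) (nat_lit 1) (.e (nat_lit 164403) (nat_lit 256) (.e (nat_lit 57447) (nat_lit 19) (.e (nat_lit 393281) (nat_lit 23) (.e (nat_lit 426115) (nat_lit 2) (.e (nat_lit 196654) (nat_lit 11) .nil)))))) (.g (nat_lit 0) .nil .nil))) 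
(.lf (nat_lit 131945) (.g (nat_lit 3362) (.e (nat_lit 16407) (nat_lit 1) (.e (nat_lit 164403) (nat_lit 256) (.e (nat_lit 57406) (nat_lit 12) (.e (nat_lit 336443) (nat_lit 32) (.e (nat_lit 466977) (nat_lit 22) (.e (nat_lit 196656) (nat_lit 11) .nil)))))) (.g (nat_lit 0) .nil .nil)))) (.nd (nat_lit 5) 
(.lf (nat_lit 131929) (.g (nat_lit 2496) (.e (nat_lit 16407) (nat_lit 1) (.e (nat_lit 164401) (nat_lit 256) (.e (nat_lit 57445) (nat_lit 19) (.e (nat_lit 393281) (nat_lit 23) (.e (nat_lit 426115) (nat_lit 2) (.e (nat_lit 196654) (nat_lit 11) .nil)))))) (.g (nat_lit 6) .nil .nil))) 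
(.lf (nat_lit 131961) (.g (nat_lit 2820) (.e (nat_lit 16408) (nat_lit 1) (.e (nat_lit 164403) (nat_lit 256) (.e (nat_lit 57409) (nat_lit 12) (.e (nat_lit 336443) (nat_lit 32) (.e (nat_lit 466977) (nat_lit 22) (.e (nat_lit 196654) (nat_lit 11) .nil)))))) (.g (nat_lit 6) .nil .nil)))))) (.nd (nat_lit 3) (.nd (nat_lit 4) (.nd (nat_lit 5) 
(.lf (nat_lit 131909) (.g (nat_lit 2995) (.e (nat_lit 16406) (nat_lit 1) (.e (nat_lit 164403) (nat_lit 256) (.e (nat_lit 57446) (nat_lit 19) (.e (nat_lit 393281) (nat_lit 23) (.e (nat_lit 426116) (nat_lit 2) (.e (nat_lit 196654) (nat_lit 11) .nil)))))) (.g (nat_lit 0) .nil .nil))) 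
(.lf (nat_lit 131941) (.g (nat_lit 3111) (.e (nat_lit 16407) (nat_lit 1) (.e (nat_lit 164402) (nat_lit 256) (.e (nat_lit 57445) (nat_lit 19) (.e (nat_lit 393281) (nat_lit 23) (.e (nat_lit 426116) (nat_lit 2) (.e (nat_lit 196654) (nat_lit 11) .nil)))))) (.g (nat_lit 6) .nil .nil)))) (.nd (nat_lit 5) 
(.lf (nat_lit 131925) (.g (nat_lit 2591) (.e (nat_lit 16407) (nat_lit 1) (.e (nat_lit 164401) (nat_lit 256) (.e (nat_lit 57406) (nat_lit 12) (.e (nat_lit 336443) (nat_lit 32) (.e (nat_lit 466977) (nat_lit 22) (.e (nat_lit 196656) (nat_lit 11) .nil)))))) (.g (nat_lit 5) .nil .nil))) 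
(.lf (nat_lit 131957) (.g (nat_lit 1439) (.e (nat_lit 16408) (nat_lit 1) (.e (nat_lit 164332) (nat_lit 230) (.e (nat_lit 163885) (nat_lit 5) (.e (nat_lit 229120) (nat_lit 14) .nil)))) .nil)))) (.nd (nat_lit 4) (.nd (nat_lit 5) 
(.lf (nat_lit 131917) (.g (nat_lit 534) (.e (nat_lit 16407) (nat_lit 1) (.e (nat_lit 164332) (nat_lit 230) (.e (nat_lit 163884) (nat_lit 5) .nil))) .nil)) 
(.lf (nat_lit 131949) (.g (nat_lit 297) (.e (nat_lit 16407) (nat_lit 1) (.e (nat_lit 164403) (nat_lit 256) (.e (nat_lit 57447) (nat_lit 19) .nil))) .nil))) (.nd (nat_lit 5) 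
(.lf (nat_lit 131933) (.g (nat_lit 2691) (.e (nat_lit 16407) (nat_lit 1) (.e (nat_lit 164401) (nat_lit 256) (.e (nat_lit 57446) (nat_lit 19) (.e (nat_lit 393281) (nat_lit 23) (.e (nat_lit 426116) (nat_lit 2) (.e (nat_lit 196654) (nat_lit 11) .nil)))))) (.g (nat_lit 6) .nil .nil))) 
(.lf (nat_lit 131965) (.g (nat_lit 727) (.e (nat_lit 24320) (nat_lit 1) (.e (nat_lit 164399) (nat_lit 256) (.e (nat_lit 57446) (nat_lit 19) (.e (nat_lit 393281) (nat_lit 23) .nil)))) .nil)))))) (.nd (nat_lit 2) (.nd (nat_lit 3) (.nd (nat_lit 4) (.nd (nat_lit 5) 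
(.lf (nat_lit 131907) (.g (nat_lit 3013) (.e (nat_lit 16406) (nat_lit 1) (.e (nat_lit 164403) (nat_lit 256) (.e (nat_lit 57445) (nat_lit 19) (.e (nat_lit 393281) (nat_lit 23) (.e (nat_lit 426116) (nat_lit 2) (.e (nat_lit 196656) (nat_lit 11) .nil)))))) (.g (nat_lit 6) .nil .nil))) 
(.lf (nat_lit 131939) (.g (nat_lit 2014) (.e (nat_lit 16407) (nat_lit 1) (.e (nat_lit 164402) (nat_lit 256) (.e (nat_lit 57409) (nat_lit 12) (.e (nat_lit 336443) (nat_lit 32) (.e (nat_lit 466977) (nat_lit 22) (.e (nat_lit 196656) (nat_lit 11) .nil)))))) (.g (nat_lit 4) .nil .nil)))) (.nd (nat_lit 5) 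
(.lf (nat_lit 131923) (.g (nat_lit 3002) (.e (nat_lit 16407) (nat_lit 1) (.e (nat_lit 164401) (nat_lit 256) (.e (nat_lit 57406) (nat_lit 12) (.e (nat_lit 336443) (nat_lit 32) (.e (nat_lit 466974) (nat_lit 22) (.e (nat_lit 196654) (nat_lit 11) .nil)))))) (.g (nat_lit 6) .nil .nil))) 
(.lf (nat_lit 131955) (.g (nat_lit 1519) (.e (nat_lit 16408) (nat_lit 1) (.e (nat_lit 164179) (nat_lit 154) (.e (nat_lit 57436) (nat_lit 17) (.e (nat_lit 376860) (nat_lit 21) .nil)))) .nil)))) (.nd (nat_lit 4) (.nd (nat_lit 5) 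
(.lf (nat_lit 131915) (.g (nat_lit 3185) (.e (nat_lit 16406) (nat_lit 1) (.e (nat_lit 164403) (nat_lit 256) (.e (nat_lit 57447) (nat_lit 19) (.e (nat_lit 393281) (nat_lit 23) (.e (nat_lit 426116) (nat_lit 2) (.e (nat_lit 196656) (nat_lit 11) .nil)))))) (.g (nat_lit 6) .nil .nil))) 
(.lf (nat_lit 131947) (.g (nat_lit 603) (.e (nat_lit 16407) (nat_lit 1) (.e (nat_lit 164403) (nat_lit 256) (.e (nat_lit 57444) (nat_lit 19) .nil))) .nil))) (.nd (nat_lit 5) 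
(.lf (nat_lit 131931) (.g (nat_lit 3041) (.e (nat_lit 16407) (nat_lit 1) (.e (nat_lit 164401) (nat_lit 256) (.e (nat_lit 57445) (nat_lit 19) (.e (nat_lit 393281) (nat_lit 23) (.e (nat_lit 426116) (nat_lit 2) (.e (nat_lit 196654) (nat_lit 11) .nil)))))) (.g (nat_lit 6) .nil .nil))) 
(.lf (nat_lit 131963) (.g (nat_lit 2993) (.e (nat_lit 16408) (nat_lit 1) (.e (nat_lit 164403) (nat_lit 256) (.e (nat_lit 57447) (nat_lit 19) (.e (nat_lit 393281) (nat_lit 23) (.e (nat_lit 426116) (nat_lit 2) (.e (nat_lit 196654) (nat_lit 11) .nil)))))) (.g (nat_lit 6) .nil .nil)))))) (.nd (nat_lit 3) (.nd (nat_lit 4) (.nd (nat_lit 5) 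
(.lf (nat_lit 131911) (.g (nat_lit 407) (.e (nat_lit 16406) (nat_lit 1) (.e (nat_lit 164403) (nat_lit 256) (.e (nat_lit 57447) (nat_lit 19) .nil))) .nil)) 
(.lf (nat_lit 131943) (.g (nat_lit 2068) (.e (nat_lit 16407) (nat_lit 1) (.e (nat_lit 164402) (nat_lit 256) (.e (nat_lit 57447) (nat_lit 19) (.e (nat_lit 393281) (nat_lit 23) (.e (nat_lit 426116) (nat_lit 2) (.e (nat_lit 196654) (nat_lit 11) .nil)))))) (.g (nat_lit 4) .nil .nil)))) (.nd (nat_lit 5) 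
(.lf (nat_lit 131927) (.g (nat_lit 2653) (.e (nat_lit 16407) (nat_lit 1) (.e (nat_lit 164401) (nat_lit 256) (.e (nat_lit 57408) (nat_lit 12) (.e (nat_lit 336443) (nat_lit 32) (.e (nat_lit 466977) (nat_lit 22) (.e (nat_lit 196654) (nat_lit 11) .nil)))))) (.g (nat_lit 6) .nil .nil))) 
(.lf (nat_lit 131959) (.g (nat_lit 1642) (.e (nat_lit 16408) (nat_lit 1) (.e (nat_lit 164402) (nat_lit 256) (.e (nat_lit 57406) (nat_lit 12) (.e (nat_lit 336443) (nat_lit 32) (.e (nat_lit 466977) (nat_lit 22) .nil))))) .nil)))) (.nd (nat_lit 4) (.nd (nat_lit 5) 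
(.lf (nat_lit 131919) (.g (nat_lit 2577) (.e (nat_lit 16407) (nat_lit 1) (.e (nat_lit 164396) (nat_lit 256) (.e (nat_lit 57407) (nat_lit 12) (.e (nat_lit 336443) (nat_lit 32) (.e (nat_lit 466974) (nat_lit 22) (.e (nat_lit 196654) (nat_lit 11) .nil)))))) (.g (nat_lit 5) .nil .nil))) 
(.lf (nat_lit 131951) (.g (nat_lit 1063) (.e (nat_lit 16407) (nat_lit 1) (.e (nat_lit 164403) (nat_lit 256) (.e (nat_lit 57447) (nat_lit 19) (.e (nat_lit 393277) (nat_lit 23) .nil)))) .nil))) (.nd (nat_lit 5) 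
(.lf (nat_lit 131935) (.g (nat_lit 2430) (.e (nat_lit 16407) (nat_lit 1) (.e (nat_lit 164401) (nat_lit 256) (.e (nat_lit 57447) (nat_lit 19) (.e (nat_lit 393281) (nat_lit 23) (.e (nat_lit 426116) (nat_lit 2) (.e (nat_lit 196656) (nat_lit 11) .nil)))))) (.g (nat_lit 5) .nil .nil))) 
(.lf (nat_lit 131967) (.g (nat_lit 1666) (.e (nat_lit 16409) (nat_lit 2) (.e (nat_lit 196625) (nat_lit 9) (.e (nat_lit 1595) (nat_lit 111) (.e (nat_lit 360473) (nat_lit 8) (.e (nat_lit 557094) (nat_lit 12) .nil))))) .nil))))))))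

noncomputable def tv1759 : DT := (.nd (nat_lit 0) (.nd (nat_lit 1) (.nd (nat_lit 2) (.nd (nat_lit 3) (.nd (nat_lit 4) (.nd (nat_lit 5) 
(.lf (nat_lit 131968) (.g (nat_lit 2079) (.e (nat_lit 16409) (nat_lit 2) (.e (nat_lit 196663) (nat_lit 13) (.e (nat_lit 65630) (nat_lit 14) (.e (nat_lit 401428) (nat_lit 3) (.e (nat_lit 212736) (nat_lit 5) (.e (nat_lit 253991) (nat_lit 11) .nil)))))) (.g (nat_lit 4) .nil .nil))) 
(.lf (nat_lit 132000) (.g (nat_lit 4406) (.e (nat_lit 16410) (nat_lit 2) (.e (nat_lit 196666) (nat_lit 13) (.e (nat_lit 65617) (nat_lit 10) (.e (nat_lit 344130) (nat_lit 26) (.e (nat_lit 557090) (nat_lit 12) (.e (nat_lit 164022) (nat_lit 46) (.e (nat_lit 704738) (nat_lit 11) .nil))))))) (.g (nat_lit 0) .nil .nil)))) (.nd (nat_lit 5) 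
(.lf (nat_lit 131984) (.g (nat_lit 3805) (.e (nat_lit 16409) (nat_lit 2) (.e (nat_lit 196666) (nat_lit 13) (.e (nat_lit 65617) (nat_lit 10) (.e (nat_lit 344132) (nat_lit 26) (.e (nat_lit 557094) (nat_lit 12) (.e (nat_lit 164022) (nat_lit 46) (.e (nat_lit 704738) (nat_lit 11) .nil))))))) (.g (nat_lit 0) .nil .nil))) 
(.lf (nat_lit 132016) (.g (nat_lit 1170) (.e (nat_lit 16410) (nat_lit 2) (.e (nat_lit 196681) (nat_lit 17) (.e (nat_lit 131123) (nat_lit 12) (.e (nat_lit 385068) (nat_lit 26) (.e (nat_lit 532511) (nat_lit 2) .nil))))) .nil)))) (.nd (nat_lit 4) (.nd (nat_lit 5) 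
(.lf (nat_lit 131976) (.g (nat_lit 2281) (.e (nat_lit 16409) (nat_lit 2) (.e (nat_lit 196666) (nat_lit 13) (.e (nat_lit 65617) (nat_lit 10) (.e (nat_lit 344132) (nat_lit 26) (.e (nat_lit 557072) (nat_lit 9) .nil))))) .nil)) 
(.lf (nat_lit 132008) (.g (nat_lit 2619) (.e (nat_lit 16410) (nat_lit 2) (.e (nat_lit 196681) (nat_lit 17) (.e (nat_lit 131105) (nat_lit 9) (.e (nat_lit 336324) (nat_lit 18) (.e (nat_lit 204835) (nat_lit 19) (.e (nat_lit 106536) (nat_lit 11) .nil)))))) (.g (nat_lit 0) .nil .nil)))) (.nd (nat_lit 5) 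
(.lf (nat_lit 131992) (.g (nat_lit 661) (.e (nat_lit 16410) (nat_lit 2) (.e (nat_lit 196630) (nat_lit 9) (.e (nat_lit 1580) (nat_lit 111) (.e (nat_lit 360473) (nat_lit 8) .nil)))) .nil)) 
(.lf (nat_lit 132024) (.g (nat_lit 1784) (.e (nat_lit 16411) (nat_lit 2) (.e (nat_lit 196663) (nat_lit 13) (.e (nat_lit 65617) (nat_lit 10) (.e (nat_lit 344132) (nat_lit 26) (.e (nat_lit 557094) (nat_lit 12) (.e (nat_lit 164022) (nat_lit 46) (.e (nat_lit 704738) (nat_lit 11) .nil))))))) (.g (nat_lit 4) .nil .nil)))))) (.nd (nat_lit 3) (.nd (nat_lit 4) (.nd (nat_lit 5) 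
(.lf (nat_lit 131972) (.g (nat_lit 2806) (.e (nat_lit 16409) (nat_lit 2) (.e (nat_lit 196666) (nat_lit 13) (.e (nat_lit 65617) (nat_lit 10) (.e (nat_lit 344130) (nat_lit 26) (.e (nat_lit 557090) (nat_lit 12) (.e (nat_lit 164022) (nat_lit 46) (.e (nat_lit 704735) (nat_lit 11) .nil))))))) (.g (nat_lit 5) .nil .nil))) 
(.lf (nat_lit 132004) (.g (nat_lit 2271) (.e (nat_lit 16410) (nat_lit 2) (.e (nat_lit 196666) (nat_lit 13) (.e (nat_lit 65617) (nat_lit 10) (.e (nat_lit 344132) (nat_lit 26) (.e (nat_lit 557094) (nat_lit 12) (.e (nat_lit 164022) (nat_lit 46) (.e (nat_lit 704735) (nat_lit 11) .nil))))))) (.g (nat_lit 4) .nil .nil)))) (.nd (nat_lit 5) 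
(.lf (nat_lit 131988) (.g (nat_lit 4331) (.e (nat_lit 16409) (nat_lit 2) (.e (nat_lit 196666) (nat_lit 13) (.e (nat_lit 65617) (nat_lit 10) (.e (nat_lit 344133) (nat_lit 26) (.e (nat_lit 557091) (nat_lit 12) (.e (nat_lit 164022) (nat_lit 46) (.e (nat_lit 704737) (nat_lit 11) .nil))))))) (.g (nat_lit 0) .nil .nil))) 
(.lf (nat_lit 132020) (.g (nat_lit 3061) (.e (nat_lit 16411) (nat_lit 2) (.e (nat_lit 196656) (nat_lit 11) (.e (nat_lit 16412) (nat_lit 2) (.e (nat_lit 196656) (nat_lit 11) (.e (nat_lit 16412) (nat_lit 2) (.e (nat_lit 196654) (nat_lit 11) .nil)))))) (.g (nat_lit 6) .nil .nil))))) (.nd (nat_lit 4) (.nd (nat_lit 5) 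
(.lf (nat_lit 131980) (.g (nat_lit 3533) (.e (nat_lit 16409) (nat_lit 2) (.e (nat_lit 196666) (nat_lit 13) (.e (nat_lit 65617) (nat_lit 10) (.e (nat_lit 344132) (nat_lit 26) (.e (nat_lit 557093) (nat_lit 12) (.e (nat_lit 164023) (nat_lit 46) (.e (nat_lit 704735) (nat_lit 11) .nil))))))) (.g (nat_lit 5) .nil .nil))) 
(.lf (nat_lit 132012) (.g (nat_lit 2365) (.e (nat_lit 16410) (nat_lit 2) (.e (nat_lit 196681) (nat_lit 17) (.e (nat_lit 131123) (nat_lit 12) (.e (nat_lit 385066) (nat_lit 26) (.e (nat_lit 532510) (nat_lit 2) (.e (nat_lit 106536) (nat_lit 11) .nil)))))) (.g (nat_lit 0) .nil .nil)))) (.nd (nat_lit 5) 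
(.lf (nat_lit 131996) (.g (nat_lit 4073) (.e (nat_lit 16410) (nat_lit 2) (.e (nat_lit 196630) (nat_lit 9) (.e (nat_lit 1669) (nat_lit 116) (.e (nat_lit 401454) (nat_lit 12) (.e (nat_lit 475179) (nat_lit 24) (.e (nat_lit 516124) (nat_lit 2) (.e (nat_lit 220928) (nat_lit 2) .nil))))))) (.g (nat_lit 5) .nil .nil))) 
(.lf (nat_lit 132028) (.g (nat_lit 1971) (.e (nat_lit 16411) (nat_lit 2) (.e (nat_lit 196665) (nat_lit 13) (.e (nat_lit 65617) (nat_lit 10) (.e (nat_lit 344132) (nat_lit 26) (.e (nat_lit 557093) (nat_lit 12) .nil))))) .nil)))))) (.nd (nat_lit 2) (.nd (nat_lit 3) (.nd (nat_lit 4) (.nd (nat_lit 5) 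
(.lf (nat_lit 131970) (.g (nat_lit 2402) (.e (nat_lit 16409) (nat_lit 2) (.e (nat_lit 196666) (nat_lit 13) (.e (nat_lit 65610) (nat_lit 10) (.e (nat_lit 344129) (nat_lit 26) (.e (nat_lit 557069) (nat_lit 9) .nil))))) .nil)) 
(.lf (nat_lit 132002) (.g (nat_lit 3483) (.e (nat_lit 16410) (nat_lit 2) (.e (nat_lit 196666) (nat_lit 13) (.e (nat_lit 65617) (nat_lit 10) (.e (nat_lit 344132) (nat_lit 26) (.e (nat_lit 557093) (nat_lit 12) (.e (nat_lit 164022) (nat_lit 46) (.e (nat_lit 704736) (nat_lit 11) .nil))))))) (.g (nat_lit 6) .nil .nil)))) (.nd (nat_lit 5) 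
(.lf (nat_lit 131986) (.g (nat_lit 2680) (.e (nat_lit 16409) (nat_lit 2) (.e (nat_lit 196666) (nat_lit 13) (.e (nat_lit 65617) (nat_lit 10) (.e (nat_lit 344133) (nat_lit 26) (.e (nat_lit 557070) (nat_lit 9) .nil))))) .nil)) 
(.lf (nat_lit 132018) (.g (nat_lit 1711) (.e (nat_lit 16411) (nat_lit 2) (.e (nat_lit 196630) (nat_lit 9) (.e (nat_lit 1586) (nat_lit 111) (.e (nat_lit 360474) (nat_lit 8) (.e (nat_lit 557093) (nat_lit 12) .nil))))) .nil)))) (.nd (nat_lit 4) (.nd (nat_lit 5) 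
(.lf (nat_lit 131978) (.g (nat_lit 4105) (.e (nat_lit 16409) (nat_lit 2) (.e (nat_lit 196666) (nat_lit 13) (.e (nat_lit 65617) (nat_lit 10) (.e (nat_lit 344132) (nat_lit 26) (.e (nat_lit 557093) (nat_lit 12) (.e (nat_lit 164022) (nat_lit 46) (.e (nat_lit 704737) (nat_lit 11) .nil))))))) (.g (nat_lit 0) .nil .nil))) 
(.lf (nat_lit 132010) (.g (nat_lit 2796) (.e (nat_lit 16410) (nat_lit 2) (.e (nat_lit 196681) (nat_lit 17) (.e (nat_lit 131109) (nat_lit 9) (.e (nat_lit 336324) (nat_lit 18) (.e (nat_lit 204835) (nat_lit 19) (.e (nat_lit 106536) (nat_lit 11) .nil)))))) (.g (nat_lit 0) .nil .nil)))) (.nd (nat_lit 5) 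
(.lf (nat_lit 131994) (.g (nat_lit 473) (.e (nat_lit 16410) (nat_lit 2) (.e (nat_lit 196630) (nat_lit 9) (.e (nat_lit 1596) (nat_lit 111) .nil))) .nil)) 
(.lf (nat_lit 132026) (.g (nat_lit 2291) (.e (nat_lit 16411) (nat_lit 2) (.e (nat_lit 196663) (nat_lit 13) (.e (nat_lit 65630) (nat_lit 14) (.e (nat_lit 401427) (nat_lit 3) (.e (nat_lit 212736) (nat_lit 5) (.e (nat_lit 253992) (nat_lit 11) .nil)))))) (.g (nat_lit 4) .nil .nil)))))) (.nd (nat_lit 3) (.nd (nat_lit 4) (.nd (nat_lit 5) 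
(.lf (nat_lit 131974) (.g (nat_lit 4391) (.e (nat_lit 16409) (nat_lit 2) (.e (nat_lit 196666) (nat_lit 13) (.e (nat_lit 65617) (nat_lit 10) (.e (nat_lit 344130) (nat_lit 26) (.e (nat_lit 557090) (nat_lit 12) (.e (nat_lit 164022) (nat_lit 46) (.e (nat_lit 704737) (nat_lit 11) .nil))))))) (.g (nat_lit 0) .nil .nil))) 
(.lf (nat_lit 132006) (.g (nat_lit 2892) (.e (nat_lit 16410) (nat_lit 2) (.e (nat_lit 196666) (nat_lit 13) (.e (nat_lit 65617) (nat_lit 10) (.e (nat_lit 344133) (nat_lit 26) (.e (nat_lit 557091) (nat_lit 12) (.e (nat_lit 164022) (nat_lit 46) (.e (nat_lit 704735) (nat_lit 11) .nil))))))) (.g (nat_lit 4) .nil .nil)))) (.nd (nat_lit 5) 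
(.lf (nat_lit 131990) (.g (nat_lit 1235) (.e (nat_lit 16409) (nat_lit 2) (.e (nat_lit 196668) (nat_lit 14) (.e (nat_lit 73782) (nat_lit 32) (.e (nat_lit 2664) (nat_lit 167) .nil)))) .nil)) 
(.lf (nat_lit 132022) (.g (nat_lit 1784) (.e (nat_lit 16411) (nat_lit 2) (.e (nat_lit 196663) (nat_lit 13) (.e (nat_lit 65617) (nat_lit 10) (.e (nat_lit 344132) (nat_lit 26) (.e (nat_lit 557093) (nat_lit 12) .nil))))) .nil)))) (.nd (nat_lit 4) (.nd (nat_lit 5) 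
(.lf (nat_lit 131982) (.g (nat_lit 2163) (.e (nat_lit 16409) (nat_lit 2) (.e (nat_lit 196666) (nat_lit 13) (.e (nat_lit 65617) (nat_lit 10) (.e (nat_lit 344132) (nat_lit 26) (.e (nat_lit 557094) (nat_lit 12) (.e (nat_lit 164022) (nat_lit 46) (.e (nat_lit 704735) (nat_lit 11) .nil))))))) (.g (nat_lit 4) .nil .nil))) 
(.lf (nat_lit 132014) (.g (nat_lit 2323) (.e (nat_lit 16410) (nat_lit 2) (.e (nat_lit 196681) (nat_lit 17) (.e (nat_lit 131123) (nat_lit 12) (.e (nat_lit 385066) (nat_lit 26) (.e (nat_lit 532511) (nat_lit 2) (.e (nat_lit 106536) (nat_lit 11) .nil)))))) (.g (nat_lit 0) .nil .nil)))) (.nd (nat_lit 5) 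
(.lf (nat_lit 131998) (.g (nat_lit 2896) (.e (nat_lit 16410) (nat_lit 2) (.e (nat_lit 196666) (nat_lit 13) (.e (nat_lit 65617) (nat_lit 10) (.e (nat_lit 344130) (nat_lit 26) (.e (nat_lit 557090) (nat_lit 12) (.e (nat_lit 164022) (nat_lit 46) (.e (nat_lit 704735) (nat_lit 11) .nil))))))) (.g (nat_lit 5) .nil .nil))) 
(.lf (nat_lit 132030) (.g (nat_lit 2936) (.e (nat_lit 16411) (nat_lit 2) (.e (nat_lit 196665) (nat_lit 13) (.e (nat_lit 65617) (nat_lit 10) (.e (nat_lit 344133) (nat_lit 26) (.e (nat_lit 557091) (nat_lit 12) (.e (nat_lit 164022) (nat_lit 46) (.e (nat_lit 704737) (nat_lit 11) .nil))))))) (.g (nat_lit 5) .nil .nil)))))))) 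
(.nd (nat_lit 1) (.nd (nat_lit 2) (.nd (nat_lit 3) (.nd (nat_lit 4) (.nd (nat_lit 5) 
(.lf (nat_lit 131969) (.g (nat_lit 1228) (.e (nat_lit 16409) (nat_lit 2) (.e (nat_lit 196666) (nat_lit 13) (.e (nat_lit 65610) (nat_lit 10) (.e (nat_lit 344129) (nat_lit 26) .nil)))) .nil)) 
(.lf (nat_lit 132001) (.g (nat_lit 2599) (.e (nat_lit 16410) (nat_lit 2) (.e (nat_lit 196666) (nat_lit 13) (.e (nat_lit 65617) (nat_lit 10) (.e (nat_lit 344132) (nat_lit 26) (.e (nat_lit 557093) (nat_lit 12) (.e (nat_lit 164022) (nat_lit 46) (.e (nat_lit 704735) (nat_lit 11) .nil))))))) (.g (nat_lit 4) .nil .nil)))) (.nd (nat_lit 5) 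
(.lf (nat_lit 131985) (.g (nat_lit 2141) (.e (nat_lit 16409) (nat_lit 2) (.e (nat_lit 196666) (nat_lit 13) (.e (nat_lit 65617) (nat_lit 10) (.e (nat_lit 344133) (nat_lit 26) (.e (nat_lit 557068) (nat_lit 9) .nil))))) .nil)) 
(.lf (nat_lit 132017) (.g (nat_lit 2316) (.e (nat_lit 16410) (nat_lit 2) (.e (nat_lit 196681) (nat_lit 17) (.e (nat_lit 131123) (nat_lit 12) (.e (nat_lit 385068) (nat_lit 26) (.e (nat_lit 532511) (nat_lit 2) (.e (nat_lit 106536) (nat_lit 11) .nil)))))) (.g (nat_lit 0) .nil .nil))))) (.nd (nat_lit 4) (.nd (nat_lit 5) 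
(.lf (nat_lit 131977) (.g (nat_lit 2491) (.e (nat_lit 16409) (nat_lit 2) (.e (nat_lit 196666) (nat_lit 13) (.e (nat_lit 65617) (nat_lit 10) (.e (nat_lit 344132) (nat_lit 26) (.e (nat_lit 557093) (nat_lit 12) (.e (nat_lit 164022) (nat_lit 46) (.e (nat_lit 704735) (nat_lit 11) .nil))))))) (.g (nat_lit 4) .nil .nil))) 
(.lf (nat_lit 132009) (.g (nat_lit 1611) (.e (nat_lit 16410) (nat_lit 2) (.e (nat_lit 196681) (nat_lit 17) (.e (nat_lit 131109) (nat_lit 9) (.e (nat_lit 336316) (nat_lit 17) (.e (nat_lit 196661) (nat_lit 12) .nil))))) .nil))) (.nd (nat_lit 5) 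
(.lf (nat_lit 131993) (.g (nat_lit 1735) (.e (nat_lit 16410) (nat_lit 2) (.e (nat_lit 196630) (nat_lit 9) (.e (nat_lit 1586) (nat_lit 111) (.e (nat_lit 360474) (nat_lit 8) (.e (nat_lit 557094) (nat_lit 12) .nil))))) .nil)) 
(.lf (nat_lit 132025) (.g (nat_lit 2848) (.e (nat_lit 16411) (nat_lit 2) (.e (nat_lit 196663) (nat_lit 13) (.e (nat_lit 65630) (nat_lit 14) (.e (nat_lit 401425) (nat_lit 2) (.e (nat_lit 196626) (nat_lit 9) .nil))))) .nil))))) (.nd (nat_lit 3) (.nd (nat_lit 4) (.nd (nat_lit 5) 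
(.lf (nat_lit 131973) (.g (nat_lit 3934) (.e (nat_lit 16409) (nat_lit 2) (.e (nat_lit 196666) (nat_lit 13) (.e (nat_lit 65617) (nat_lit 10) (.e (nat_lit 344130) (nat_lit 26) (.e (nat_lit 557090) (nat_lit 12) (.e (nat_lit 164022) (nat_lit 46) (.e (nat_lit 704736) (nat_lit 11) .nil))))))) (.g (nat_lit 7) .nil .nil))) 
(.lf (nat_lit 132005) (.g (nat_lit 3267) (.e (nat_lit 16410) (nat_lit 2) (.e (nat_lit 196666) (nat_lit 13) (.e (nat_lit 65617) (nat_lit 10) (.e (nat_lit 344132) (nat_lit 26) (.e (nat_lit 557094) (nat_lit 12) (.e (nat_lit 164022) (nat_lit 46) (.e (nat_lit 704736) (nat_lit 11) .nil))))))) (.g (nat_lit 6) .nil .nil)))) (.nd (nat_lit 5) 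
(.lf (nat_lit 131989) (.g (nat_lit 4436) (.e (nat_lit 16409) (nat_lit 2) (.e (nat_lit 196666) (nat_lit 13) (.e (nat_lit 65617) (nat_lit 10) (.e (nat_lit 344133) (nat_lit 26) (.e (nat_lit 557091) (nat_lit 12) (.e (nat_lit 164022) (nat_lit 46) (.e (nat_lit 704738) (nat_lit 11) .nil))))))) (.g (nat_lit 0) .nil .nil))) 
(.lf (nat_lit 132021) (.g (nat_lit 1504) (.e (nat_lit 16411) (nat_lit 2) (.e (nat_lit 196662) (nat_lit 13) (.e (nat_lit 65617) (nat_lit 10) (.e (nat_lit 344132) (nat_lit 26) (.e (nat_lit 557094) (nat_lit 12) .nil))))) .nil)))) (.nd (nat_lit 4) (.nd (nat_lit 5) 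
(.lf (nat_lit 131981) (.g (nat_lit 2981) (.e (nat_lit 16409) (nat_lit 2) (.e (nat_lit 196666) (nat_lit 13) (.e (nat_lit 65617) (nat_lit 10) (.e (nat_lit 344132) (nat_lit 26) (.e (nat_lit 557093) (nat_lit 12) (.e (nat_lit 164023) (nat_lit 46) (.e (nat_lit 704736) (nat_lit 11) .nil))))))) (.g (nat_lit 5) .nil .nil))) 
(.lf (nat_lit 132013) (.g (nat_lit 1246) (.e (nat_lit 16410) (nat_lit 2) (.e (nat_lit 196681) (nat_lit 17) (.e (nat_lit 131123) (nat_lit 12) (.e (nat_lit 385066) (nat_lit 26) (.e (nat_lit 532511) (nat_lit 2) .nil))))) .nil))) (.nd (nat_lit 5) 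
(.lf (nat_lit 131997) (.g (nat_lit 1873) (.e (nat_lit 16410) (nat_lit 2) (.e (nat_lit 196666) (nat_lit 13) (.e (nat_lit 65610) (nat_lit 10) (.e (nat_lit 344129) (nat_lit 26) .nil)))) .nil)) 
(.lf (nat_lit 132029) (.g (nat_lit 2279) (.e (nat_lit 16411) (nat_lit 2) (.e (nat_lit 196665) (nat_lit 13) (.e (nat_lit 65617) (nat_lit 10) (.e (nat_lit 344132) (nat_lit 26) (.e (nat_lit 557094) (nat_lit 12) (.e (nat_lit 164022) (nat_lit 46) (.e (nat_lit 704737) (nat_lit 11) .nil))))))) (.g (nat_lit 5) .nil .nil))))))) (.nd (nat_lit 2) (.nd (nat_lit 3) (.nd (nat_lit 4) (.nd (nat_lit 5) 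
(.lf (nat_lit 131971) (.g (nat_lit 1140) (.e (nat_lit 16409) (nat_lit 2) (.e (nat_lit 196666) (nat_lit 13) (.e (nat_lit 65617) (nat_lit 10) (.e (nat_lit 344127) (nat_lit 26) .nil)))) .nil)) 
(.lf (nat_lit 132003) (.g (nat_lit 3641) (.e (nat_lit 16410) (nat_lit 2) (.e (nat_lit 196666) (nat_lit 13) (.e (nat_lit 65617) (nat_lit 10) (.e (nat_lit 344132) (nat_lit 26) (.e (nat_lit 557093) (nat_lit 12) (.e (nat_lit 164023) (nat_lit 46) (.e (nat_lit 704735) (nat_lit 11) .nil))))))) (.g (nat_lit 5) .nil .nil)))) (.nd (nat_lit 5) 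
(.lf (nat_lit 131987) (.g (nat_lit 2764) (.e (nat_lit 16409) (nat_lit 2) (.e (nat_lit 196666) (nat_lit 13) (.e (nat_lit 65617) (nat_lit 10) (.e (nat_lit 344133) (nat_lit 26) (.e (nat_lit 557091) (nat_lit 12) (.e (nat_lit 164022) (nat_lit 46) (.e (nat_lit 704735) (nat_lit 11) .nil))))))) (.g (nat_lit 4) .nil .nil))) 
(.lf (nat_lit 132019) (.g (nat_lit 763) (.e (nat_lit 16411) (nat_lit 2) (.e (nat_lit 196656) (nat_lit 11) (.e (nat_lit 16409) (nat_lit 2) .nil))) .nil)))) (.nd (nat_lit 4) (.nd (nat_lit 5) 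
(.lf (nat_lit 131979) (.g (nat_lit 4070) (.e (nat_lit 16409) (nat_lit 2) (.e (nat_lit 196666) (nat_lit 13) (.e (nat_lit 65617) (nat_lit 10) (.e (nat_lit 344132) (nat_lit 26) (.e (nat_lit 557093) (nat_lit 12) (.e (nat_lit 164022) (nat_lit 46) (.e (nat_lit 704738) (nat_lit 11) .nil))))))) (.g (nat_lit 0) .nil .nil))) 
(.lf (nat_lit 132011) (.g (nat_lit 2200) (.e (nat_lit 16410) (nat_lit 2) (.e (nat_lit 196681) (nat_lit 17) (.e (nat_lit 131120) (nat_lit 12) (.e (nat_lit 385066) (nat_lit 26) (.e (nat_lit 532511) (nat_lit 2) (.e (nat_lit 106536) (nat_lit 11) .nil)))))) (.g (nat_lit 0) .nil .nil)))) (.nd (nat_lit 5) 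
(.lf (nat_lit 131995) (.g (nat_lit 4192) (.e (nat_lit 16410) (nat_lit 2) (.e (nat_lit 196630) (nat_lit 9) (.e (nat_lit 1669) (nat_lit 116) (.e (nat_lit 401454) (nat_lit 12) (.e (nat_lit 475178) (nat_lit 24) (.e (nat_lit 516124) (nat_lit 2) (.e (nat_lit 220928) (nat_lit 2) .nil))))))) (.g (nat_lit 6) .nil .nil))) 
(.lf (nat_lit 132027) (.g (nat_lit 2785) (.e (nat_lit 16411) (nat_lit 2) (.e (nat_lit 196665) (nat_lit 13) (.e (nat_lit 65617) (nat_lit 10) (.e (nat_lit 344130) (nat_lit 26) (.e (nat_lit 557090) (nat_lit 12) (.e (nat_lit 164022) (nat_lit 46) (.e (nat_lit 704737) (nat_lit 11) .nil))))))) (.g (nat_lit 5) .nil .nil)))))) (.nd (nat_lit 3) (.nd (nat_lit 4) (.nd (nat_lit 5) 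
(.lf (nat_lit 131975) (.g (nat_lit 4482) (.e (nat_lit 16409) (nat_lit 2) (.e (nat_lit 196666) (nat_lit 13) (.e (nat_lit 65617) (nat_lit 10) (.e (nat_lit 344130) (nat_lit 26) (.e (nat_lit 557090) (nat_lit 12) (.e (nat_lit 164022) (nat_lit 46) (.e (nat_lit 704738) (nat_lit 11) .nil))))))) (.g (nat_lit 0) .nil .nil))) 
(.lf (nat_lit 132007) (.g (nat_lit 3870) (.e (nat_lit 16410) (nat_lit 2) (.e (nat_lit 196666) (nat_lit 13) (.e (nat_lit 65617) (nat_lit 10) (.e (nat_lit 344133) (nat_lit 26) (.e (nat_lit 557091) (nat_lit 12) (.e (nat_lit 164022) (nat_lit 46) (.e (nat_lit 704736) (nat_lit 11) .nil))))))) (.g (nat_lit 6) .nil .nil)))) (.nd (nat_lit 5) 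
(.lf (nat_lit 131991) (.g (nat_lit 423) (.e (nat_lit 16409) (nat_lit 2) (.e (nat_lit 196672) (nat_lit 15) (.e (nat_lit 89856) (nat_lit 3) .nil))) .nil)) 
(.lf (nat_lit 132023) (.g (nat_lit 2021) (.e (nat_lit 16411) (nat_lit 2) (.e (nat_lit 196663) (nat_lit 13) (.e (nat_lit 65617) (nat_lit 10) (.e (nat_lit 344132) (nat_lit 26) (.e (nat_lit 557093) (nat_lit 12) (.e (nat_lit 164022) (nat_lit 46) (.e (nat_lit 704738) (nat_lit 11) .nil))))))) (.g (nat_lit 4) .nil .nil))))) (.nd (nat_lit 4) (.nd (nat_lit 5) 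
(.lf (nat_lit 131983) (.g (nat_lit 3712) (.e (nat_lit 16409) (nat_lit 2) (.e (nat_lit 196666) (nat_lit 13) (.e (nat_lit 65617) (nat_lit 10) (.e (nat_lit 344132) (nat_lit 26) (.e (nat_lit 557094) (nat_lit 12) (.e (nat_lit 164022) (nat_lit 46) (.e (nat_lit 704737) (nat_lit 11) .nil))))))) (.g (nat_lit 0) .nil .nil))) 
(.lf (nat_lit 132015) (.g (nat_lit 2285) (.e (nat_lit 16410) (nat_lit 2) (.e (nat_lit 196681) (nat_lit 17) (.e (nat_lit 131123) (nat_lit 12) (.e (nat_lit 385068) (nat_lit 26) (.e (nat_lit 532510) (nat_lit 2) (.e (nat_lit 106536) (nat_lit 11) .nil)))))) (.g (nat_lit 0) .nil .nil)))) (.nd (nat_lit 5) 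
(.lf (nat_lit 131999) (.g (nat_lit 3759) (.e (nat_lit 16410) (nat_lit 2) (.e (nat_lit 196666) (nat_lit 13) (.e (nat_lit 65617) (nat_lit 10) (.e (nat_lit 344130) (nat_lit 26) (.e (nat_lit 557090) (nat_lit 12) (.e (nat_lit 164022) (nat_lit 46) (.e (nat_lit 704736) (nat_lit 11) .nil))))))) (.g (nat_lit 6) .nil .nil))) 
(.lf (nat_lit 132031) (.g (nat_lit 2847) (.e (nat_lit 16411) (nat_lit 2) (.e (nat_lit 196666) (nat_lit 13) (.e (nat_lit 65610) (nat_lit 10) (.e (nat_lit 344129) (nat_lit 26) .nil)))) .nil))))))))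

noncomputable def tv1760 : DT := (.nd (nat_lit 0) (.nd (nat_lit 1) (.nd (nat_lit 2) (.nd (nat_lit 3) (.nd (nat_lit 4) (.nd (nat_lit 5) 
(.lf (nat_lit 132032) (.g (nat_lit 3602) (.e (nat_lit 16411) (nat_lit 2) (.e (nat_lit 196666) (nat_lit 13) (.e (nat_lit 65610) (nat_lit 10) (.e (nat_lit 344129) (nat_lit 26) (.e (nat_lit 557070) (nat_lit 9) .nil))))) .nil)) 
(.lf (nat_lit 132064) (.g (nat_lit 2055) (.e (nat_lit 16411) (nat_lit 2) (.e (nat_lit 196681) (nat_lit 17) (.e (nat_lit 131120) (nat_lit 12) (.e (nat_lit 385068) (nat_lit 26) (.e (nat_lit 532511) (nat_lit 2) (.e (nat_lit 106536) (nat_lit 11) .nil)))))) (.g (nat_lit 0) .nil .nil)))) (.nd (nat_lit 5) 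
(.lf (nat_lit 132048) (.g (nat_lit 2846) (.e (nat_lit 16411) (nat_lit 2) (.e (nat_lit 196672) (nat_lit 15) (.e (nat_lit 81954) (nat_lit 23) (.e (nat_lit 98333) (nat_lit 18) (.e (nat_lit 164429) (nat_lit 278) (.e (nat_lit 1122) (nat_lit 83) .nil)))))) (.g (nat_lit 5) .nil .nil))) 
(.lf (nat_lit 132080) (.g (nat_lit 3483) (.e (nat_lit 16412) (nat_lit 2) (.e (nat_lit 196662) (nat_lit 13) (.e (nat_lit 65617) (nat_lit 10) (.e (nat_lit 344133) (nat_lit 26) (.e (nat_lit 557091) (nat_lit 12) (.e (nat_lit 164022) (nat_lit 46) (.e (nat_lit 704738) (nat_lit 11) .nil))))))) (.g (nat_lit 5) .nil .nil))))) (.nd (nat_lit 4) (.nd (nat_lit 5) 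
(.lf (nat_lit 132040) (.g (nat_lit 1053) (.e (nat_lit 16411) (nat_lit 2) (.e (nat_lit 196672) (nat_lit 15) (.e (nat_lit 81924) (nat_lit 0) (.e (nat_lit 3253) (nat_lit 197) (.e (nat_lit 532508) (nat_lit 2) .nil))))) .nil)) 
(.lf (nat_lit 132072) (.g (nat_lit 2176) (.e (nat_lit 16412) (nat_lit 2) (.e (nat_lit 196654) (nat_lit 11) (.e (nat_lit 16416) (nat_lit 3) (.e (nat_lit 204809) (nat_lit 9) (.e (nat_lit 426116) (nat_lit 2) (.e (nat_lit 196656) (nat_lit 11) .nil)))))) (.g (nat_lit 4) .nil .nil)))) (.nd (nat_lit 5) 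
(.lf (nat_lit 132056) (.g (nat_lit 1358) (.e (nat_lit 16411) (nat_lit 2) (.e (nat_lit 196674) (nat_lit 15) (.e (nat_lit 81947) (nat_lit 20) (.e (nat_lit 1858) (nat_lit 124) .nil)))) .nil)) 
(.lf (nat_lit 132088) (.g (nat_lit 2408) (.e (nat_lit 16412) (nat_lit 2) (.e (nat_lit 196665) (nat_lit 13) (.e (nat_lit 65609) (nat_lit 10) (.e (nat_lit 344133) (nat_lit 26) (.e (nat_lit 557091) (nat_lit 12) (.e (nat_lit 164022) (nat_lit 46) (.e (nat_lit 704738) (nat_lit 11) .nil))))))) (.g (nat_lit 4) .nil .nil)))))) (.nd (nat_lit 3) (.nd (nat_lit 4) (.nd (nat_lit 5) 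
(.lf (nat_lit 132036) (.g (nat_lit 3489) (.e (nat_lit 16411) (nat_lit 2) (.e (nat_lit 196666) (nat_lit 13) (.e (nat_lit 65617) (nat_lit 10) (.e (nat_lit 344132) (nat_lit 26) (.e (nat_lit 557093) (nat_lit 12) (.e (nat_lit 164022) (nat_lit 46) (.e (nat_lit 704737) (nat_lit 11) .nil))))))) (.g (nat_lit 6) .nil .nil))) 
(.lf (nat_lit 132068) (.g (nat_lit 2197) (.e (nat_lit 16411) (nat_lit 2) (.e (nat_lit 196681) (nat_lit 17) (.e (nat_lit 131123) (nat_lit 12) (.e (nat_lit 385068) (nat_lit 26) (.e (nat_lit 532511) (nat_lit 2) (.e (nat_lit 106536) (nat_lit 11) .nil)))))) (.g (nat_lit 0) .nil .nil)))) (.nd (nat_lit 5) 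
(.lf (nat_lit 132052) (.g (nat_lit 3604) (.e (nat_lit 16411) (nat_lit 2) (.e (nat_lit 196674) (nat_lit 15) (.e (nat_lit 81946) (nat_lit 20) (.e (nat_lit 1858) (nat_lit 124) (.e (nat_lit 557091) (nat_lit 12) (.e (nat_lit 164022) (nat_lit 46) (.e (nat_lit 704736) (nat_lit 11) .nil))))))) (.g (nat_lit 5) .nil .nil))) 
(.lf (nat_lit 132084) (.g (nat_lit 4197) (.e (nat_lit 16412) (nat_lit 2) (.e (nat_lit 196663) (nat_lit 13) (.e (nat_lit 65617) (nat_lit 10) (.e (nat_lit 344130) (nat_lit 26) (.e (nat_lit 557090) (nat_lit 12) (.e (nat_lit 164022) (nat_lit 46) (.e (nat_lit 704738) (nat_lit 11) .nil))))))) (.g (nat_lit 6) .nil .nil))))) (.nd (nat_lit 4) (.nd (nat_lit 5) 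
(.lf (nat_lit 132044) (.g (nat_lit 3716) (.e (nat_lit 16411) (nat_lit 2) (.e (nat_lit 196672) (nat_lit 15) (.e (nat_lit 81946) (nat_lit 20) (.e (nat_lit 1858) (nat_lit 124) (.e (nat_lit 557093) (nat_lit 12) (.e (nat_lit 164022) (nat_lit 46) (.e (nat_lit 704736) (nat_lit 11) .nil))))))) (.g (nat_lit 5) .nil .nil))) 
(.lf (nat_lit 132076) (.g (nat_lit 3317) (.e (nat_lit 16412) (nat_lit 2) (.e (nat_lit 196662) (nat_lit 13) (.e (nat_lit 65616) (nat_lit 10) (.e (nat_lit 344133) (nat_lit 26) (.e (nat_lit 557091) (nat_lit 12) (.e (nat_lit 164022) (nat_lit 46) (.e (nat_lit 704738) (nat_lit 11) .nil))))))) (.g (nat_lit 5) .nil .nil)))) (.nd (nat_lit 5) 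
(.lf (nat_lit 132060) (.g (nat_lit 2045) (.e (nat_lit 16411) (nat_lit 2) (.e (nat_lit 196681) (nat_lit 17) (.e (nat_lit 131117) (nat_lit 10) (.e (nat_lit 344133) (nat_lit 26) (.e (nat_lit 557091) (nat_lit 12) .nil))))) .nil)) 
(.lf (nat_lit 132092) (.g (nat_lit 2805) (.e (nat_lit 16412) (nat_lit 2) (.e (nat_lit 196665) (nat_lit 13) (.e (nat_lit 65617) (nat_lit 10) (.e (nat_lit 344132) (nat_lit 26) (.e (nat_lit 557094) (nat_lit 12) (.e (nat_lit 164022) (nat_lit 46) (.e (nat_lit 704737) (nat_lit 11) .nil))))))) (.g (nat_lit 4) .nil .nil))))))) (.nd (nat_lit 2) (.nd (nat_lit 3) (.nd (nat_lit 4) (.nd (nat_lit 5) 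
(.lf (nat_lit 132034) (.g (nat_lit 1399) (.e (nat_lit 16411) (nat_lit 2) (.e (nat_lit 196666) (nat_lit 13) (.e (nat_lit 65617) (nat_lit 10) (.e (nat_lit 344132) (nat_lit 26) .nil)))) .nil)) 
(.lf (nat_lit 132066) (.g (nat_lit 2205) (.e (nat_lit 16411) (nat_lit 2) (.e (nat_lit 196681) (nat_lit 17) (.e (nat_lit 131123) (nat_lit 12) (.e (nat_lit 385066) (nat_lit 26) (.e (nat_lit 532511) (nat_lit 2) (.e (nat_lit 106536) (nat_lit 11) .nil)))))) (.g (nat_lit 0) .nil .nil)))) (.nd (nat_lit 5) 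
(.lf (nat_lit 132050) (.g (nat_lit 2285) (.e (nat_lit 16411) (nat_lit 2) (.e (nat_lit 196674) (nat_lit 15) (.e (nat_lit 81946) (nat_lit 20) (.e (nat_lit 1855) (nat_lit 124) (.e (nat_lit 557070) (nat_lit 9) .nil))))) .nil)) 
(.lf (nat_lit 132082) (.g (nat_lit 3312) (.e (nat_lit 16412) (nat_lit 2) (.e (nat_lit 196663) (nat_lit 13) (.e (nat_lit 65615) (nat_lit 10) (.e (nat_lit 344133) (nat_lit 26) (.e (nat_lit 557091) (nat_lit 12) (.e (nat_lit 164022) (nat_lit 46) (.e (nat_lit 704738) (nat_lit 11) .nil))))))) (.g (nat_lit 5) .nil .nil))))) (.nd (nat_lit 4) (.nd (nat_lit 5) 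
(.lf (nat_lit 132042) (.g (nat_lit 931) (.e (nat_lit 16411) (nat_lit 2) (.e (nat_lit 196672) (nat_lit 15) (.e (nat_lit 81924) (nat_lit 0) (.e (nat_lit 3253) (nat_lit 197) (.e (nat_lit 532511) (nat_lit 2) .nil))))) .nil)) 
(.lf (nat_lit 132074) (.g (nat_lit 3531) (.e (nat_lit 16412) (nat_lit 2) (.e (nat_lit 196656) (nat_lit 11) (.e (nat_lit 16412) (nat_lit 2) (.e (nat_lit 196656) (nat_lit 11) (.e (nat_lit 16412) (nat_lit 2) (.e (nat_lit 196656) (nat_lit 11) .nil)))))) (.g (nat_lit 6) .nil .nil)))) (.nd (nat_lit 5) 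
(.lf (nat_lit 132058) (.g (nat_lit 2111) (.e (nat_lit 16411) (nat_lit 2) (.e (nat_lit 196681) (nat_lit 17) (.e (nat_lit 131117) (nat_lit 10) (.e (nat_lit 344132) (nat_lit 26) (.e (nat_lit 557093) (nat_lit 12) (.e (nat_lit 164022) (nat_lit 46) (.e (nat_lit 704738) (nat_lit 11) .nil))))))) (.g (nat_lit 4) .nil .nil))) 
(.lf (nat_lit 132090) (.g (nat_lit 3598) (.e (nat_lit 16412) (nat_lit 2) (.e (nat_lit 196665) (nat_lit 13) (.e (nat_lit 65617) (nat_lit 10) (.e (nat_lit 344130) (nat_lit 26) (.e (nat_lit 557090) (nat_lit 12) (.e (nat_lit 164022) (nat_lit 46) (.e (nat_lit 704738) (nat_lit 11) .nil))))))) (.g (nat_lit 6) .nil .nil)))))) (.nd (nat_lit 3) (.nd (nat_lit 4) (.nd (nat_lit 5) 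
(.lf (nat_lit 132038) (.g (nat_lit 2139) (.e (nat_lit 16411) (nat_lit 2) (.e (nat_lit 196666) (nat_lit 13) (.e (nat_lit 65617) (nat_lit 10) (.e (nat_lit 344132) (nat_lit 26) (.e (nat_lit 557094) (nat_lit 12) .nil))))) .nil)) 
(.lf (nat_lit 132070) (.g (nat_lit 4752) (.e (nat_lit 16412) (nat_lit 2) (.e (nat_lit 196626) (nat_lit 9) (.e (nat_lit 1589) (nat_lit 111) (.e (nat_lit 360475) (nat_lit 8) (.e (nat_lit 557091) (nat_lit 12) (.e (nat_lit 164022) (nat_lit 46) (.e (nat_lit 704738) (nat_lit 11) .nil))))))) (.g (nat_lit 5) .nil .nil)))) (.nd (nat_lit 5) 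
(.lf (nat_lit 132054) (.g (nat_lit 3854) (.e (nat_lit 16411) (nat_lit 2) (.e (nat_lit 196674) (nat_lit 15) (.e (nat_lit 81946) (nat_lit 20) (.e (nat_lit 1858) (nat_lit 124) (.e (nat_lit 557093) (nat_lit 12) (.e (nat_lit 164023) (nat_lit 46) (.e (nat_lit 704736) (nat_lit 11) .nil))))))) (.g (nat_lit 5) .nil .nil))) 
(.lf (nat_lit 132086) (.g (nat_lit 2900) (.e (nat_lit 16412) (nat_lit 2) (.e (nat_lit 196663) (nat_lit 13) (.e (nat_lit 65630) (nat_lit 14) (.e (nat_lit 401427) (nat_lit 3) (.e (nat_lit 212736) (nat_lit 5) (.e (nat_lit 253991) (nat_lit 11) .nil)))))) (.g (nat_lit 4) .nil .nil))))) (.nd (nat_lit 4) (.nd (nat_lit 5) 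
(.lf (nat_lit 132046) (.g (nat_lit 1156) (.e (nat_lit 16411) (nat_lit 2) (.e (nat_lit 196672) (nat_lit 15) (.e (nat_lit 81954) (nat_lit 23) (.e (nat_lit 98321) (nat_lit 17) .nil)))) .nil)) 
(.lf (nat_lit 132078) (.g (nat_lit 2966) (.e (nat_lit 16412) (nat_lit 2) (.e (nat_lit 196662) (nat_lit 13) (.e (nat_lit 65617) (nat_lit 10) (.e (nat_lit 344132) (nat_lit 26) (.e (nat_lit 557093) (nat_lit 12) (.e (nat_lit 164022) (nat_lit 46) (.e (nat_lit 704738) (nat_lit 11) .nil))))))) (.g (nat_lit 4) .nil .nil)))) (.nd (nat_lit 5) 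
(.lf (nat_lit 132062) (.g (nat_lit 2076) (.e (nat_lit 16411) (nat_lit 2) (.e (nat_lit 196681) (nat_lit 17) (.e (nat_lit 131120) (nat_lit 12) (.e (nat_lit 385066) (nat_lit 26) (.e (nat_lit 532511) (nat_lit 2) (.e (nat_lit 106536) (nat_lit 11) .nil)))))) (.g (nat_lit 0) .nil .nil))) 
(.lf (nat_lit 132094) (.g (nat_lit 3908) (.e (nat_lit 16412) (nat_lit 2) (.e (nat_lit 196665) (nat_lit 13) (.e (nat_lit 65617) (nat_lit 10) (.e (nat_lit 344133) (nat_lit 26) (.e (nat_lit 557091) (nat_lit 12) (.e (nat_lit 164022) (nat_lit 46) (.e (nat_lit 704738) (nat_lit 11) .nil))))))) (.g (nat_lit 6) .nil .nil)))))))) 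
(.nd (nat_lit 1) (.nd (nat_lit 2) (.nd (nat_lit 3) (.nd (nat_lit 4) (.nd (nat_lit 5) 
(.lf (nat_lit 132033) (.g (nat_lit 3702) (.e (nat_lit 16411) (nat_lit 2) (.e (nat_lit 196666) (nat_lit 13) (.e (nat_lit 65617) (nat_lit 10) (.e (nat_lit 344130) (nat_lit 26) (.e (nat_lit 557090) (nat_lit 12) (.e (nat_lit 164022) (nat_lit 46) (.e (nat_lit 704737) (nat_lit 11) .nil))))))) (.g (nat_lit 6) .nil .nil))) 
(.lf (nat_lit 132065) (.g (nat_lit 2238) (.e (nat_lit 16411) (nat_lit 2) (.e (nat_lit 196681) (nat_lit 17) (.e (nat_lit 131123) (nat_lit 12) (.e (nat_lit 385066) (nat_lit 26) (.e (nat_lit 532510) (nat_lit 2) (.e (nat_lit 106536) (nat_lit 11) .nil)))))) (.g (nat_lit 0) .nil .nil)))) (.nd (nat_lit 5) 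
(.lf (nat_lit 132049) (.g (nat_lit 562) (.e (nat_lit 16411) (nat_lit 2) (.e (nat_lit 196674) (nat_lit 15) (.e (nat_lit 89856) (nat_lit 3) .nil))) .nil)) 
(.lf (nat_lit 132081) (.g (nat_lit 3964) (.e (nat_lit 16412) (nat_lit 2) (.e (nat_lit 196663) (nat_lit 13) (.e (nat_lit 65609) (nat_lit 10) (.e (nat_lit 344133) (nat_lit 26) (.e (nat_lit 557091) (nat_lit 12) (.e (nat_lit 164022) (nat_lit 46) (.e (nat_lit 704738) (nat_lit 11) .nil))))))) (.g (nat_lit 6) .nil .nil))))) (.nd (nat_lit 4) (.nd (nat_lit 5) 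
(.lf (nat_lit 132041) (.g (nat_lit 939) (.e (nat_lit 16411) (nat_lit 2) (.e (nat_lit 196672) (nat_lit 15) (.e (nat_lit 81924) (nat_lit 0) (.e (nat_lit 3253) (nat_lit 197) (.e (nat_lit 532510) (nat_lit 2) .nil))))) .nil)) 
(.lf (nat_lit 132073) (.g (nat_lit 1344) (.e (nat_lit 16412) (nat_lit 2) (.e (nat_lit 196654) (nat_lit 11) (.e (nat_lit 16416) (nat_lit 3) (.e (nat_lit 212736) (nat_lit 10) .nil)))) .nil))) (.nd (nat_lit 5) 
(.lf (nat_lit 132057) (.g (nat_lit 2488) (.e (nat_lit 16411) (nat_lit 2) (.e (nat_lit 196681) (nat_lit 17) (.e (nat_lit 131105) (nat_lit 9) (.e (nat_lit 336324) (nat_lit 18) (.e (nat_lit 204835) (nat_lit 19) (.e (nat_lit 106536) (nat_lit 11) .nil)))))) (.g (nat_lit 0) .nil .nil))) 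
(.lf (nat_lit 132089) (.g (nat_lit 3295) (.e (nat_lit 16412) (nat_lit 2) (.e (nat_lit 196665) (nat_lit 13) (.e (nat_lit 65617) (nat_lit 10) (.e (nat_lit 344130) (nat_lit 26) (.e (nat_lit 557090) (nat_lit 12) (.e (nat_lit 164022) (nat_lit 46) (.e (nat_lit 704737) (nat_lit 11) .nil))))))) (.g (nat_lit 5) .nil .nil)))))) (.nd (nat_lit 3) (.nd (nat_lit 4) (.nd (nat_lit 5) 
(.lf (nat_lit 132037) (.g (nat_lit 2360) (.e (nat_lit 16411) (nat_lit 2) (.e (nat_lit 196666) (nat_lit 13) (.e (nat_lit 65617) (nat_lit 10) (.e (nat_lit 344132) (nat_lit 26) (.e (nat_lit 557093) (nat_lit 12) (.e (nat_lit 164023) (nat_lit 46) (.e (nat_lit 704738) (nat_lit 11) .nil))))))) (.g (nat_lit 4) .nil .nil))) 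
(.lf (nat_lit 132069) (.g (nat_lit 4314) (.e (nat_lit 16412) (nat_lit 2) (.e (nat_lit 196625) (nat_lit 9) (.e (nat_lit 1589) (nat_lit 111) (.e (nat_lit 360475) (nat_lit 8) (.e (nat_lit 557091) (nat_lit 12) (.e (nat_lit 164022) (nat_lit 46) (.e (nat_lit 704738) (nat_lit 11) .nil))))))) (.g (nat_lit 5) .nil .nil)))) (.nd (nat_lit 5) 
(.lf (nat_lit 132053) (.g (nat_lit 4880) (.e (nat_lit 16411) (nat_lit 2) (.e (nat_lit 196674) (nat_lit 15) (.e (nat_lit 81946) (nat_lit 20) (.e (nat_lit 1858) (nat_lit 124) (.e (nat_lit 557091) (nat_lit 12) (.e (nat_lit 164022) (nat_lit 46) (.e (nat_lit 704738) (nat_lit 11) .nil))))))) (.g (nat_lit 7) .nil .nil))) 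
(.lf (nat_lit 132085) (.g (nat_lit 4335) (.e (nat_lit 16412) (nat_lit 2) (.e (nat_lit 196663) (nat_lit 13) (.e (nat_lit 65617) (nat_lit 10) (.e (nat_lit 344133) (nat_lit 26) (.e (nat_lit 557091) (nat_lit 12) (.e (nat_lit 164022) (nat_lit 46) (.e (nat_lit 704738) (nat_lit 11) .nil))))))) (.g (nat_lit 6) .nil .nil))))) (.nd (nat_lit 4) (.nd (nat_lit 5) 
(.lf (nat_lit 132045) (.g (nat_lit 2179) (.e (nat_lit 16411) (nat_lit 2) (.e (nat_lit 196672) (nat_lit 15) (.e (nat_lit 81946) (nat_lit 20) (.e (nat_lit 1858) (nat_lit 124) (.e (nat_lit 557094) (nat_lit 12) .nil))))) .nil)) 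
(.lf (nat_lit 132077) (.g (nat_lit 3310) (.e (nat_lit 16412) (nat_lit 2) (.e (nat_lit 196662) (nat_lit 13) (.e (nat_lit 65617) (nat_lit 10) (.e (nat_lit 344130) (nat_lit 26) (.e (nat_lit 557090) (nat_lit 12) (.e (nat_lit 164022) (nat_lit 46) (.e (nat_lit 704738) (nat_lit 11) .nil))))))) (.g (nat_lit 5) .nil .nil)))) (.nd (nat_lit 5) 
(.lf (nat_lit 132061) (.g (nat_lit 2106) (.e (nat_lit 16411) (nat_lit 2) (.e (nat_lit 196681) (nat_lit 17) (.e (nat_lit 131120) (nat_lit 12) (.e (nat_lit 385066) (nat_lit 26) (.e (nat_lit 532510) (nat_lit 2) (.e (nat_lit 106536) (nat_lit 11) .nil)))))) (.g (nat_lit 0) .nil .nil))) 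
(.lf (nat_lit 132093) (.g (nat_lit 3486) (.e (nat_lit 16412) (nat_lit 2) (.e (nat_lit 196665) (nat_lit 13) (.e (nat_lit 65617) (nat_lit 10) (.e (nat_lit 344133) (nat_lit 26) (.e (nat_lit 557091) (nat_lit 12) (.e (nat_lit 164022) (nat_lit 46) (.e (nat_lit 704737) (nat_lit 11) .nil))))))) (.g (nat_lit 5) .nil .nil))))))) (.nd (nat_lit 2) (.nd (nat_lit 3) (.nd (nat_lit 4) (.nd (nat_lit 5) 
(.lf (nat_lit 132035) (.g (nat_lit 2311) (.e (nat_lit 16411) (nat_lit 2) (.e (nat_lit 196666) (nat_lit 13) (.e (nat_lit 65617) (nat_lit 10) (.e (nat_lit 344132) (nat_lit 26) (.e (nat_lit 557093) (nat_lit 12) .nil))))) .nil)) 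
(.lf (nat_lit 132067) (.g (nat_lit 2156) (.e (nat_lit 16411) (nat_lit 2) (.e (nat_lit 196681) (nat_lit 17) (.e (nat_lit 131123) (nat_lit 12) (.e (nat_lit 385068) (nat_lit 26) (.e (nat_lit 532510) (nat_lit 2) (.e (nat_lit 106536) (nat_lit 11) .nil)))))) (.g (nat_lit 0) .nil .nil)))) (.nd (nat_lit 5) 
(.lf (nat_lit 132051) (.g (nat_lit 1167) (.e (nat_lit 16411) (nat_lit 2) (.e (nat_lit 196674) (nat_lit 15) (.e (nat_lit 81946) (nat_lit 20) (.e (nat_lit 1858) (nat_lit 124) .nil)))) .nil)) 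
(.lf (nat_lit 132083) (.g (nat_lit 3453) (.e (nat_lit 16412) (nat_lit 2) (.e (nat_lit 196663) (nat_lit 13) (.e (nat_lit 65616) (nat_lit 10) (.e (nat_lit 344133) (nat_lit 26) (.e (nat_lit 557091) (nat_lit 12) (.e (nat_lit 164022) (nat_lit 46) (.e (nat_lit 704738) (nat_lit 11) .nil))))))) (.g (nat_lit 5) .nil .nil))))) (.nd (nat_lit 4) (.nd (nat_lit 5) 
(.lf (nat_lit 132043) (.g (nat_lit 4347) (.e (nat_lit 16411) (nat_lit 2) (.e (nat_lit 196672) (nat_lit 15) (.e (nat_lit 81946) (nat_lit 20) (.e (nat_lit 1858) (nat_lit 124) (.e (nat_lit 557091) (nat_lit 12) (.e (nat_lit 164022) (nat_lit 46) (.e (nat_lit 704737) (nat_lit 11) .nil))))))) (.g (nat_lit 6) .nil .nil))) 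
(.lf (nat_lit 132075) (.g (nat_lit 2300) (.e (nat_lit 16412) (nat_lit 2) (.e (nat_lit 196662) (nat_lit 13) (.e (nat_lit 65609) (nat_lit 10) (.e (nat_lit 344133) (nat_lit 26) (.e (nat_lit 557091) (nat_lit 12) (.e (nat_lit 164022) (nat_lit 46) (.e (nat_lit 704738) (nat_lit 11) .nil))))))) (.g (nat_lit 4) .nil .nil)))) (.nd (nat_lit 5) 
(.lf (nat_lit 132059) (.g (nat_lit 1994) (.e (nat_lit 16411) (nat_lit 2) (.e (nat_lit 196681) (nat_lit 17) (.e (nat_lit 131117) (nat_lit 10) (.e (nat_lit 344132) (nat_lit 26) (.e (nat_lit 557094) (nat_lit 12) .nil))))) .nil)) 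
(.lf (nat_lit 132091) (.g (nat_lit 3144) (.e (nat_lit 16412) (nat_lit 2) (.e (nat_lit 196665) (nat_lit 13) (.e (nat_lit 65617) (nat_lit 10) (.e (nat_lit 344132) (nat_lit 26) (.e (nat_lit 557093) (nat_lit 12) (.e (nat_lit 164022) (nat_lit 46) (.e (nat_lit 704737) (nat_lit 11) .nil))))))) (.g (nat_lit 5) .nil .nil)))))) (.nd (nat_lit 3) (.nd (nat_lit 4) (.nd (nat_lit 5) 
(.lf (nat_lit 132039) (.g (nat_lit 3623) (.e (nat_lit 16411) (nat_lit 2) (.e (nat_lit 196666) (nat_lit 13) (.e (nat_lit 65617) (nat_lit 10) (.e (nat_lit 344133) (nat_lit 26) (.e (nat_lit 557091) (nat_lit 12) (.e (nat_lit 164022) (nat_lit 46) (.e (nat_lit 704737) (nat_lit 11) .nil))))))) (.g (nat_lit 6) .nil .nil))) 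
(.lf (nat_lit 132071) (.g (nat_lit 4251) (.e (nat_lit 16412) (nat_lit 2) (.e (nat_lit 196643) (nat_lit 9) (.e (nat_lit 1587) (nat_lit 111) (.e (nat_lit 360475) (nat_lit 8) (.e (nat_lit 557091) (nat_lit 12) (.e (nat_lit 164022) (nat_lit 46) (.e (nat_lit 704738) (nat_lit 11) .nil))))))) (.g (nat_lit 5) .nil .nil)))) (.nd (nat_lit 5) 
(.lf (nat_lit 132055) (.g (nat_lit 2358) (.e (nat_lit 16411) (nat_lit 2) (.e (nat_lit 196674) (nat_lit 15) (.e (nat_lit 81946) (nat_lit 20) (.e (nat_lit 1858) (nat_lit 124) (.e (nat_lit 557094) (nat_lit 12) (.e (nat_lit 164022) (nat_lit 46) (.e (nat_lit 704736) (nat_lit 11) .nil))))))) (.g (nat_lit 4) .nil .nil))) 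
(.lf (nat_lit 132087) (.g (nat_lit 2589) (.e (nat_lit 16412) (nat_lit 2) (.e (nat_lit 196663) (nat_lit 13) (.e (nat_lit 65630) (nat_lit 14) (.e (nat_lit 401428) (nat_lit 3) (.e (nat_lit 212736) (nat_lit 5) (.e (nat_lit 253992) (nat_lit 11) .nil)))))) (.g (nat_lit 4) .nil .nil))))) (.nd (nat_lit 4) (.nd (nat_lit 5) 
(.lf (nat_lit 132047) (.g (nat_lit 1711) (.e (nat_lit 16411) (nat_lit 2) (.e (nat_lit 196672) (nat_lit 15) (.e (nat_lit 81954) (nat_lit 23) (.e (nat_lit 98325) (nat_lit 17) (.e (nat_lit 2478) (nat_lit 157) .nil))))) .nil)) 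
(.lf (nat_lit 132079) (.g (nat_lit 2793) (.e (nat_lit 16412) (nat_lit 2) (.e (nat_lit 196662) (nat_lit 13) (.e (nat_lit 65617) (nat_lit 10) (.e (nat_lit 344132) (nat_lit 26) (.e (nat_lit 557094) (nat_lit 12) (.e (nat_lit 164022) (nat_lit 46) (.e (nat_lit 704738) (nat_lit 11) .nil))))))) (.g (nat_lit 4) .nil .nil)))) (.nd (nat_lit 5) 
(.lf (nat_lit 132063) (.g (nat_lit 2015) (.e (nat_lit 16411) (nat_lit 2) (.e (nat_lit 196681) (nat_lit 17) (.e (nat_lit 131120) (nat_lit 12) (.e (nat_lit 385068) (nat_lit 26) (.e (nat_lit 532510) (nat_lit 2) (.e (nat_lit 106536) (nat_lit 11) .nil)))))) (.g (nat_lit 0) .nil .nil))) 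
(.lf (nat_lit 132095) (.g (nat_lit 1770) (.e (nat_lit 16412) (nat_lit 2) (.e (nat_lit 196666) (nat_lit 13) (.e (nat_lit 65583) (nat_lit 7) (.e (nat_lit 319506) (nat_lit 10) (.e (nat_lit 578) (nat_lit 43) .nil))))) .nil))))))))

noncomputable def tv1761 : DT := (.nd (nat_lit 0) (.nd (nat_lit 1) (.nd (nat_lit 2) (.nd (nat_lit 3) (.nd (nat_lit 4) (.nd (nat_lit 5) 
(.lf (nat_lit 132096) (.g (nat_lit 991) (.e (nat_lit 16412) (nat_lit 2) (.e (nat_lit 196666) (nat_lit 13) (.e (nat_lit 65599) (nat_lit 9) .nil))) .nil)) 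
(.lf (nat_lit 132128) (.g (nat_lit 2991) (.e (nat_lit 16412) (nat_lit 2) (.e (nat_lit 196666) (nat_lit 13) (.e (nat_lit 65610) (nat_lit 10) (.e (nat_lit 344127) (nat_lit 26) (.e (nat_lit 557092) (nat_lit 12) (.e (nat_lit 164022) (nat_lit 46) (.e (nat_lit 704738) (nat_lit 11) .nil))))))) (.g (nat_lit 4) .nil .nil)))) (.nd (nat_lit 5) 
(.lf (nat_lit 132112) (.g (nat_lit 3985) (.e (nat_lit 16412) (nat_lit 2) (.e (nat_lit 196666) (nat_lit 13) (.e (nat_lit 65610) (nat_lit 10) (.e (nat_lit 344117) (nat_lit 21) (.e (nat_lit 516115) (nat_lit 1) (.e (nat_lit 171776) (nat_lit 278) (.e (nat_lit 1128) (nat_lit 83) .nil))))))) (.g (nat_lit 5) .nil .nil))) 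
(.lf (nat_lit 132144) (.g (nat_lit 4695) (.e (nat_lit 16412) (nat_lit 2) (.e (nat_lit 196666) (nat_lit 13) (.e (nat_lit 65610) (nat_lit 10) (.e (nat_lit 344129) (nat_lit 26) (.e (nat_lit 557089) (nat_lit 12) (.e (nat_lit 164023) (nat_lit 46) (.e (nat_lit 704738) (nat_lit 11) .nil))))))) (.g (nat_lit 6) .nil .nil))))) (.nd (nat_lit 4) (.nd (nat_lit 5) 
(.lf (nat_lit 132104) (.g (nat_lit 3351) (.e (nat_lit 16412) (nat_lit 2) (.e (nat_lit 196666) (nat_lit 13) (.e (nat_lit 65610) (nat_lit 10) (.e (nat_lit 344117) (nat_lit 21) (.e (nat_lit 516097) (nat_lit 0) (.e (nat_lit 2430) (nat_lit 157) (.e (nat_lit 4649) (nat_lit 275) (.e (nat_lit 1123) (nat_lit 83) .nil)))))))) (.g (nat_lit 4) .nil .nil))) 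
(.lf (nat_lit 132136) (.g (nat_lit 3218) (.e (nat_lit 16412) (nat_lit 2) (.e (nat_lit 196666) (nat_lit 13) (.e (nat_lit 65610) (nat_lit 10) (.e (nat_lit 344129) (nat_lit 26) (.e (nat_lit 557067) (nat_lit 9) (.e (nat_lit 2436) (nat_lit 157) (.e (nat_lit 3529) (nat_lit 218) (.e (nat_lit 704741) (nat_lit 11) .nil)))))))) (.g (nat_lit 5) .nil .nil)))) (.nd (nat_lit 5) 
(.lf (nat_lit 132120) (.g (nat_lit 3708) (.e (nat_lit 16412) (nat_lit 2) (.e (nat_lit 196666) (nat_lit 13) (.e (nat_lit 65610) (nat_lit 10) (.e (nat_lit 344117) (nat_lit 21) (.e (nat_lit 516116) (nat_lit 1) (.e (nat_lit 171776) (nat_lit 278) (.e (nat_lit 1127) (nat_lit 83) .nil))))))) (.g (nat_lit 4) .nil .nil))) 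
(.lf (nat_lit 132152) (.g (nat_lit 6620) (.e (nat_lit 16412) (nat_lit 2) (.e (nat_lit 196666) (nat_lit 13) (.e (nat_lit 65610) (nat_lit 10) (.e (nat_lit 344129) (nat_lit 26) (.e (nat_lit 557091) (nat_lit 12) (.e (nat_lit 164022) (nat_lit 46) (.e (nat_lit 704738) (nat_lit 11) .nil))))))) (.g (nat_lit 7) .nil .nil)))))) (.nd (nat_lit 3) (.nd (nat_lit 4) (.nd (nat_lit 5) 
(.lf (nat_lit 132100) (.g (nat_lit 4553) (.e (nat_lit 16412) (nat_lit 2) (.e (nat_lit 196666) (nat_lit 13) (.e (nat_lit 65609) (nat_lit 10) (.e (nat_lit 344133) (nat_lit 26) (.e (nat_lit 557091) (nat_lit 12) (.e (nat_lit 164022) (nat_lit 46) (.e (nat_lit 704738) (nat_lit 11) .nil))))))) (.g (nat_lit 6) .nil .nil))) 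
(.lf (nat_lit 132132) (.g (nat_lit 4668) (.e (nat_lit 16412) (nat_lit 2) (.e (nat_lit 196666) (nat_lit 13) (.e (nat_lit 65610) (nat_lit 10) (.e (nat_lit 344127) (nat_lit 26) (.e (nat_lit 557094) (nat_lit 12) (.e (nat_lit 164022) (nat_lit 46) (.e (nat_lit 704738) (nat_lit 11) .nil))))))) (.g (nat_lit 7) .nil .nil)))) (.nd (nat_lit 5) 
(.lf (nat_lit 132116) (.g (nat_lit 3792) (.e (nat_lit 16412) (nat_lit 2) (.e (nat_lit 196666) (nat_lit 13) (.e (nat_lit 65610) (nat_lit 10) (.e (nat_lit 344117) (nat_lit 21) (.e (nat_lit 516116) (nat_lit 1) (.e (nat_lit 164428) (nat_lit 278) (.e (nat_lit 1122) (nat_lit 83) .nil))))))) (.g (nat_lit 4) .nil .nil))) 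
(.lf (nat_lit 132148) (.g (nat_lit 2982) (.e (nat_lit 16412) (nat_lit 2) (.e (nat_lit 196666) (nat_lit 13) (.e (nat_lit 65610) (nat_lit 10) (.e (nat_lit 344129) (nat_lit 26) (.e (nat_lit 557090) (nat_lit 12) (.e (nat_lit 171776) (nat_lit 46) (.e (nat_lit 704737) (nat_lit 11) .nil))))))) (.g (nat_lit 4) .nil .nil))))) (.nd (nat_lit 4) (.nd (nat_lit 5) 
(.lf (nat_lit 132108) (.g (nat_lit 2777) (.e (nat_lit 16412) (nat_lit 2) (.e (nat_lit 196666) (nat_lit 13) (.e (nat_lit 65610) (nat_lit 10) (.e (nat_lit 344117) (nat_lit 21) (.e (nat_lit 516115) (nat_lit 1) (.e (nat_lit 164428) (nat_lit 278) (.e (nat_lit 1122) (nat_lit 83) .nil))))))) (.g (nat_lit 4) .nil .nil))) 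
(.lf (nat_lit 132140) (.g (nat_lit 2478) (.e (nat_lit 16412) (nat_lit 2) (.e (nat_lit 196666) (nat_lit 13) (.e (nat_lit 65610) (nat_lit 10) (.e (nat_lit 344129) (nat_lit 26) (.e (nat_lit 557089) (nat_lit 12) .nil))))) .nil))) (.nd (nat_lit 5) 
(.lf (nat_lit 132124) (.g (nat_lit 2239) (.e (nat_lit 16412) (nat_lit 2) (.e (nat_lit 196666) (nat_lit 13) (.e (nat_lit 65610) (nat_lit 10) (.e (nat_lit 344127) (nat_lit 26) .nil)))) .nil)) 
(.lf (nat_lit 132156) (.g (nat_lit 4425) (.e (nat_lit 16412) (nat_lit 2) (.e (nat_lit 196666) (nat_lit 13) (.e (nat_lit 65610) (nat_lit 10) (.e (nat_lit 344129) (nat_lit 26) (.e (nat_lit 557094) (nat_lit 12) (.e (nat_lit 164022) (nat_lit 46) (.e (nat_lit 704737) (nat_lit 11) .nil))))))) (.g (nat_lit 5) .nil .nil))))))) (.nd (nat_lit 2) (.nd (nat_lit 3) (.nd (nat_lit 4) (.nd (nat_lit 5) 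
(.lf (nat_lit 132098) (.g (nat_lit 2794) (.e (nat_lit 16412) (nat_lit 2) (.e (nat_lit 196666) (nat_lit 13) (.e (nat_lit 65609) (nat_lit 10) (.e (nat_lit 344132) (nat_lit 26) (.e (nat_lit 557094) (nat_lit 12) (.e (nat_lit 164022) (nat_lit 46) (.e (nat_lit 704737) (nat_lit 11) .nil))))))) (.g (nat_lit 4) .nil .nil))) 
(.lf (nat_lit 132130) (.g (nat_lit 5299) (.e (nat_lit 16412) (nat_lit 2) (.e (nat_lit 196666) (nat_lit 13) (.e (nat_lit 65610) (nat_lit 10) (.e (nat_lit 344127) (nat_lit 26) (.e (nat_lit 557093) (nat_lit 12) (.e (nat_lit 164022) (nat_lit 46) (.e (nat_lit 704738) (nat_lit 11) .nil))))))) (.g (nat_lit 7) .nil .nil)))) (.nd (nat_lit 5) 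
(.lf (nat_lit 132114) (.g (nat_lit 3529) (.e (nat_lit 16412) (nat_lit 2) (.e (nat_lit 196666) (nat_lit 13) (.e (nat_lit 65610) (nat_lit 10) (.e (nat_lit 344117) (nat_lit 21) (.e (nat_lit 516115) (nat_lit 1) (.e (nat_lit 171776) (nat_lit 278) (.e (nat_lit 1131) (nat_lit 83) .nil))))))) (.g (nat_lit 4) .nil .nil))) 
(.lf (nat_lit 132146) (.g (nat_lit 2480) (.e (nat_lit 16412) (nat_lit 2) (.e (nat_lit 196666) (nat_lit 13) (.e (nat_lit 65610) (nat_lit 10) (.e (nat_lit 344129) (nat_lit 26) (.e (nat_lit 557090) (nat_lit 12) (.e (nat_lit 164022) (nat_lit 46) (.e (nat_lit 704736) (nat_lit 11) .nil))))))) (.g (nat_lit 4) .nil .nil))))) (.nd (nat_lit 4) (.nd (nat_lit 5) 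
(.lf (nat_lit 132106) (.g (nat_lit 3284) (.e (nat_lit 16412) (nat_lit 2) (.e (nat_lit 196666) (nat_lit 13) (.e (nat_lit 65610) (nat_lit 10) (.e (nat_lit 344117) (nat_lit 21) (.e (nat_lit 516099) (nat_lit 0) (.e (nat_lit 2474) (nat_lit 157) (.e (nat_lit 4722) (nat_lit 275) (.e (nat_lit 1122) (nat_lit 83) .nil)))))))) (.g (nat_lit 4) .nil .nil))) 
(.lf (nat_lit 132138) (.g (nat_lit 3041) (.e (nat_lit 16412) (nat_lit 2) (.e (nat_lit 196666) (nat_lit 13) (.e (nat_lit 65610) (nat_lit 10) (.e (nat_lit 344129) (nat_lit 26) (.e (nat_lit 557069) (nat_lit 9) (.e (nat_lit 2739) (nat_lit 174) (.e (nat_lit 253991) (nat_lit 11) .nil))))))) (.g (nat_lit 4) .nil .nil)))) (.nd (nat_lit 5) 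
(.lf (nat_lit 132122) (.g (nat_lit 3860) (.e (nat_lit 16412) (nat_lit 2) (.e (nat_lit 196666) (nat_lit 13) (.e (nat_lit 65610) (nat_lit 10) (.e (nat_lit 344117) (nat_lit 21) (.e (nat_lit 516116) (nat_lit 1) (.e (nat_lit 171776) (nat_lit 278) (.e (nat_lit 1131) (nat_lit 83) .nil))))))) (.g (nat_lit 4) .nil .nil))) 
(.lf (nat_lit 132154) (.g (nat_lit 4164) (.e (nat_lit 16412) (nat_lit 2) (.e (nat_lit 196666) (nat_lit 13) (.e (nat_lit 65610) (nat_lit 10) (.e (nat_lit 344129) (nat_lit 26) (.e (nat_lit 557092) (nat_lit 12) (.e (nat_lit 164022) (nat_lit 46) (.e (nat_lit 704737) (nat_lit 11) .nil))))))) (.g (nat_lit 5) .nil .nil)))))) (.nd (nat_lit 3) (.nd (nat_lit 4) (.nd (nat_lit 5) 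
(.lf (nat_lit 132102) (.g (nat_lit 2468) (.e (nat_lit 16412) (nat_lit 2) (.e (nat_lit 196666) (nat_lit 13) (.e (nat_lit 65610) (nat_lit 10) (.e (nat_lit 344090) (nat_lit 18) (.e (nat_lit 4009) (nat_lit 243) .nil))))) .nil)) 
(.lf (nat_lit 132134) (.g (nat_lit 3878) (.e (nat_lit 16412) (nat_lit 2) (.e (nat_lit 196666) (nat_lit 13) (.e (nat_lit 65610) (nat_lit 10) (.e (nat_lit 344128) (nat_lit 26) (.e (nat_lit 557094) (nat_lit 12) (.e (nat_lit 164022) (nat_lit 46) (.e (nat_lit 704738) (nat_lit 11) .nil))))))) (.g (nat_lit 6) .nil .nil)))) (.nd (nat_lit 5) 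
(.lf (nat_lit 132118) (.g (nat_lit 3798) (.e (nat_lit 16412) (nat_lit 2) (.e (nat_lit 196666) (nat_lit 13) (.e (nat_lit 65610) (nat_lit 10) (.e (nat_lit 344117) (nat_lit 21) (.e (nat_lit 516116) (nat_lit 1) (.e (nat_lit 171776) (nat_lit 278) (.e (nat_lit 1125) (nat_lit 83) .nil))))))) (.g (nat_lit 4) .nil .nil))) 
(.lf (nat_lit 132150) (.g (nat_lit 2604) (.e (nat_lit 16412) (nat_lit 2) (.e (nat_lit 196666) (nat_lit 13) (.e (nat_lit 65610) (nat_lit 10) (.e (nat_lit 344129) (nat_lit 26) (.e (nat_lit 557090) (nat_lit 12) (.e (nat_lit 171776) (nat_lit 46) (.e (nat_lit 712448) (nat_lit 11) .nil))))))) (.g (nat_lit 4) .nil .nil))))) (.nd (nat_lit 4) (.nd (nat_lit 5) 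
(.lf (nat_lit 132110) (.g (nat_lit 3467) (.e (nat_lit 16412) (nat_lit 2) (.e (nat_lit 196666) (nat_lit 13) (.e (nat_lit 65610) (nat_lit 10) (.e (nat_lit 344117) (nat_lit 21) (.e (nat_lit 516115) (nat_lit 1) (.e (nat_lit 171776) (nat_lit 278) (.e (nat_lit 1125) (nat_lit 83) .nil))))))) (.g (nat_lit 4) .nil .nil))) 
(.lf (nat_lit 132142) (.g (nat_lit 4823) (.e (nat_lit 16412) (nat_lit 2) (.e (nat_lit 196666) (nat_lit 13) (.e (nat_lit 65610) (nat_lit 10) (.e (nat_lit 344129) (nat_lit 26) (.e (nat_lit 557089) (nat_lit 12) (.e (nat_lit 164022) (nat_lit 46) (.e (nat_lit 704738) (nat_lit 11) .nil))))))) (.g (nat_lit 6) .nil .nil)))) (.nd (nat_lit 5) 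
(.lf (nat_lit 132126) (.g (nat_lit 6807) (.e (nat_lit 16412) (nat_lit 2) (.e (nat_lit 196666) (nat_lit 13) (.e (nat_lit 65610) (nat_lit 10) (.e (nat_lit 344127) (nat_lit 26) (.e (nat_lit 557090) (nat_lit 12) (.e (nat_lit 164022) (nat_lit 46) (.e (nat_lit 704738) (nat_lit 11) .nil))))))) (.g (nat_lit 7) .nil .nil))) 
(.lf (nat_lit 132158) (.g (nat_lit 2150) (.e (nat_lit 16412) (nat_lit 2) (.e (nat_lit 196666) (nat_lit 13) (.e (nat_lit 65610) (nat_lit 10) (.e (nat_lit 344130) (nat_lit 26) .nil)))) .nil))))))) (.nd (nat_lit 1) (.nd (nat_lit 2) (.nd (nat_lit 3) (.nd (nat_lit 4) (.nd (nat_lit 5) 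
(.lf (nat_lit 132097) (.g (nat_lit 574) (.e (nat_lit 16412) (nat_lit 2) (.e (nat_lit 196666) (nat_lit 13) (.e (nat_lit 65609) (nat_lit 10) .nil))) .nil)) 
(.lf (nat_lit 132129) (.g (nat_lit 3932) (.e (nat_lit 16412) (nat_lit 2) (.e (nat_lit 196666) (nat_lit 13) (.e (nat_lit 65610) (nat_lit 10) (.e (nat_lit 344127) (nat_lit 26) (.e (nat_lit 557093) (nat_lit 12) (.e (nat_lit 164022) (nat_lit 46) (.e (nat_lit 704737) (nat_lit 11) .nil))))))) (.g (nat_lit 5) .nil .nil)))) (.nd (nat_lit 5) 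
(.lf (nat_lit 132113) (.g (nat_lit 3263) (.e (nat_lit 16412) (nat_lit 2) (.e (nat_lit 196666) (nat_lit 13) (.e (nat_lit 65610) (nat_lit 10) (.e (nat_lit 344117) (nat_lit 21) (.e (nat_lit 516115) (nat_lit 1) (.e (nat_lit 171776) (nat_lit 278) (.e (nat_lit 1130) (nat_lit 83) .nil))))))) (.g (nat_lit 4) .nil .nil))) 
(.lf (nat_lit 132145) (.g (nat_lit 3326) (.e (nat_lit 16412) (nat_lit 2) (.e (nat_lit 196666) (nat_lit 13) (.e (nat_lit 65610) (nat_lit 10) (.e (nat_lit 344129) (nat_lit 26) (.e (nat_lit 557089) (nat_lit 12) (.e (nat_lit 171776) (nat_lit 46) (.e (nat_lit 704734) (nat_lit 11) .nil))))))) (.g (nat_lit 4) .nil .nil))))) (.nd (nat_lit 4) (.nd (nat_lit 5) 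
(.lf (nat_lit 132105) (.g (nat_lit 3006) (.e (nat_lit 16412) (nat_lit 2) (.e (nat_lit 196666) (nat_lit 13) (.e (nat_lit 65610) (nat_lit 10) (.e (nat_lit 344117) (nat_lit 21) (.e (nat_lit 516099) (nat_lit 0) .nil))))) .nil)) 
(.lf (nat_lit 132137) (.g (nat_lit 2293) (.e (nat_lit 16412) (nat_lit 2) (.e (nat_lit 196666) (nat_lit 13) (.e (nat_lit 65610) (nat_lit 10) (.e (nat_lit 344129) (nat_lit 26) (.e (nat_lit 557069) (nat_lit 9) .nil))))) .nil))) (.nd (nat_lit 5) 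
(.lf (nat_lit 132121) (.g (nat_lit 3594) (.e (nat_lit 16412) (nat_lit 2) (.e (nat_lit 196666) (nat_lit 13) (.e (nat_lit 65610) (nat_lit 10) (.e (nat_lit 344117) (nat_lit 21) (.e (nat_lit 516116) (nat_lit 1) (.e (nat_lit 171776) (nat_lit 278) (.e (nat_lit 1130) (nat_lit 83) .nil))))))) (.g (nat_lit 4) .nil .nil))) 
(.lf (nat_lit 132153) (.g (nat_lit 3101) (.e (nat_lit 16412) (nat_lit 2) (.e (nat_lit 196666) (nat_lit 13) (.e (nat_lit 65610) (nat_lit 10) (.e (nat_lit 344129) (nat_lit 26) (.e (nat_lit 557092) (nat_lit 12) .nil))))) .nil))))) (.nd (nat_lit 3) (.nd (nat_lit 4) (.nd (nat_lit 5) 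
(.lf (nat_lit 132101) (.g (nat_lit 381) (.e (nat_lit 16412) (nat_lit 2) (.e (nat_lit 196666) (nat_lit 13) (.e (nat_lit 65610) (nat_lit 10) .nil))) .nil)) 
(.lf (nat_lit 132133) (.g (nat_lit 2062) (.e (nat_lit 16412) (nat_lit 2) (.e (nat_lit 196666) (nat_lit 13) (.e (nat_lit 65610) (nat_lit 10) (.e (nat_lit 344128) (nat_lit 26) .nil)))) .nil))) (.nd (nat_lit 5) 
(.lf (nat_lit 132117) (.g (nat_lit 2814) (.e (nat_lit 16412) (nat_lit 2) (.e (nat_lit 196666) (nat_lit 13) (.e (nat_lit 65610) (nat_lit 10) (.e (nat_lit 344117) (nat_lit 21) (.e (nat_lit 516116) (nat_lit 1) (.e (nat_lit 171776) (nat_lit 278) (.e (nat_lit 1121) (nat_lit 83) .nil))))))) (.g (nat_lit 4) .nil .nil))) 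
(.lf (nat_lit 132149) (.g (nat_lit 3319) (.e (nat_lit 16412) (nat_lit 2) (.e (nat_lit 196666) (nat_lit 13) (.e (nat_lit 65610) (nat_lit 10) (.e (nat_lit 344129) (nat_lit 26) (.e (nat_lit 557090) (nat_lit 12) (.e (nat_lit 171776) (nat_lit 46) (.e (nat_lit 704741) (nat_lit 11) .nil))))))) (.g (nat_lit 5) .nil .nil))))) (.nd (nat_lit 4) (.nd (nat_lit 5) 
(.lf (nat_lit 132109) (.g (nat_lit 3928) (.e (nat_lit 16412) (nat_lit 2) (.e (nat_lit 196666) (nat_lit 13) (.e (nat_lit 65610) (nat_lit 10) (.e (nat_lit 344117) (nat_lit 21) (.e (nat_lit 516115) (nat_lit 1) (.e (nat_lit 164429) (nat_lit 278) (.e (nat_lit 1122) (nat_lit 83) .nil))))))) (.g (nat_lit 5) .nil .nil))) 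
(.lf (nat_lit 132141) (.g (nat_lit 2490) (.e (nat_lit 16412) (nat_lit 2) (.e (nat_lit 196666) (nat_lit 13) (.e (nat_lit 65610) (nat_lit 10) (.e (nat_lit 344129) (nat_lit 26) (.e (nat_lit 557089) (nat_lit 12) (.e (nat_lit 164022) (nat_lit 46) (.e (nat_lit 704737) (nat_lit 11) .nil))))))) (.g (nat_lit 4) .nil .nil)))) (.nd (nat_lit 5) 
(.lf (nat_lit 132125) (.g (nat_lit 5394) (.e (nat_lit 16412) (nat_lit 2) (.e (nat_lit 196666) (nat_lit 13) (.e (nat_lit 65610) (nat_lit 10) (.e (nat_lit 344127) (nat_lit 26) (.e (nat_lit 557090) (nat_lit 12) (.e (nat_lit 164022) (nat_lit 46) (.e (nat_lit 704737) (nat_lit 11) .nil))))))) (.g (nat_lit 5) .nil .nil))) 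
(.lf (nat_lit 132157) (.g (nat_lit 5940) (.e (nat_lit 16412) (nat_lit 2) (.e (nat_lit 196666) (nat_lit 13) (.e (nat_lit 65610) (nat_lit 10) (.e (nat_lit 344129) (nat_lit 26) (.e (nat_lit 557094) (nat_lit 12) (.e (nat_lit 164022) (nat_lit 46) (.e (nat_lit 704738) (nat_lit 11) .nil))))))) (.g (nat_lit 7) .nil .nil))))))) (.nd (nat_lit 2) (.nd (nat_lit 3) (.nd (nat_lit 4) (.nd (nat_lit 5) 
(.lf (nat_lit 132099) (.g (nat_lit 3079) (.e (nat_lit 16412) (nat_lit 2) (.e (nat_lit 196666) (nat_lit 13) (.e (nat_lit 65609) (nat_lit 10) (.e (nat_lit 344133) (nat_lit 26) (.e (nat_lit 557091) (nat_lit 12) (.e (nat_lit 164022) (nat_lit 46) (.e (nat_lit 704737) (nat_lit 11) .nil))))))) (.g (nat_lit 4) .nil .nil))) 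
(.lf (nat_lit 132131) (.g (nat_lit 3138) (.e (nat_lit 16412) (nat_lit 2) (.e (nat_lit 196666) (nat_lit 13) (.e (nat_lit 65610) (nat_lit 10) (.e (nat_lit 344127) (nat_lit 26) (.e (nat_lit 557094) (nat_lit 12) (.e (nat_lit 164022) (nat_lit 46) (.e (nat_lit 704737) (nat_lit 11) .nil))))))) (.g (nat_lit 4) .nil .nil)))) (.nd (nat_lit 5) 
(.lf (nat_lit 132115) (.g (nat_lit 2805) (.e (nat_lit 16412) (nat_lit 2) (.e (nat_lit 196666) (nat_lit 13) (.e (nat_lit 65610) (nat_lit 10) (.e (nat_lit 344117) (nat_lit 21) (.e (nat_lit 516116) (nat_lit 1) .nil))))) .nil)) 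
(.lf (nat_lit 132147) (.g (nat_lit 4450) (.e (nat_lit 16412) (nat_lit 2) (.e (nat_lit 196666) (nat_lit 13) (.e (nat_lit 65610) (nat_lit 10) (.e (nat_lit 344129) (nat_lit 26) (.e (nat_lit 557090) (nat_lit 12) (.e (nat_lit 164022) (nat_lit 46) (.e (nat_lit 704737) (nat_lit 11) .nil))))))) (.g (nat_lit 7) .nil .nil))))) (.nd (nat_lit 4) (.nd (nat_lit 5) 
(.lf (nat_lit 132107) (.g (nat_lit 2633) (.e (nat_lit 16412) (nat_lit 2) (.e (nat_lit 196666) (nat_lit 13) (.e (nat_lit 65610) (nat_lit 10) (.e (nat_lit 344117) (nat_lit 21) (.e (nat_lit 516101) (nat_lit 0) .nil))))) .nil)) 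
(.lf (nat_lit 132139) (.g (nat_lit 3687) (.e (nat_lit 16412) (nat_lit 2) (.e (nat_lit 196666) (nat_lit 13) (.e (nat_lit 65610) (nat_lit 10) (.e (nat_lit 344129) (nat_lit 26) (.e (nat_lit 557088) (nat_lit 12) (.e (nat_lit 164023) (nat_lit 46) (.e (nat_lit 704737) (nat_lit 11) .nil))))))) (.g (nat_lit 5) .nil .nil)))) (.nd (nat_lit 5) 
(.lf (nat_lit 132123) (.g (nat_lit 2901) (.e (nat_lit 16412) (nat_lit 2) (.e (nat_lit 196666) (nat_lit 13) (.e (nat_lit 65610) (nat_lit 10) (.e (nat_lit 344117) (nat_lit 21) (.e (nat_lit 516116) (nat_lit 1) (.e (nat_lit 171776) (nat_lit 278) (.e (nat_lit 7936) (nat_lit 83) .nil))))))) (.g (nat_lit 4) .nil .nil))) 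
(.lf (nat_lit 132155) (.g (nat_lit 5075) (.e (nat_lit 16412) (nat_lit 2) (.e (nat_lit 196666) (nat_lit 13) (.e (nat_lit 65610) (nat_lit 10) (.e (nat_lit 344129) (nat_lit 26) (.e (nat_lit 557092) (nat_lit 12) (.e (nat_lit 164023) (nat_lit 46) (.e (nat_lit 704737) (nat_lit 11) .nil))))))) (.g (nat_lit 6) .nil .nil)))))) (.nd (nat_lit 3) (.nd (nat_lit 4) (.nd (nat_lit 5) 
(.lf (nat_lit 132103) (.g (nat_lit 3452) (.e (nat_lit 16412) (nat_lit 2) (.e (nat_lit 196666) (nat_lit 13) (.e (nat_lit 65610) (nat_lit 10) (.e (nat_lit 344117) (nat_lit 21) (.e (nat_lit 516097) (nat_lit 0) (.e (nat_lit 2418) (nat_lit 157) (.e (nat_lit 4649) (nat_lit 275) (.e (nat_lit 1123) (nat_lit 83) .nil)))))))) (.g (nat_lit 4) .nil .nil))) 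
(.lf (nat_lit 132135) (.g (nat_lit 1119) (.e (nat_lit 16412) (nat_lit 2) (.e (nat_lit 196666) (nat_lit 13) (.e (nat_lit 65610) (nat_lit 10) (.e (nat_lit 344129) (nat_lit 26) .nil)))) .nil))) (.nd (nat_lit 5) 
(.lf (nat_lit 132119) (.g (nat_lit 2914) (.e (nat_lit 16412) (nat_lit 2) (.e (nat_lit 196666) (nat_lit 13) (.e (nat_lit 65610) (nat_lit 10) (.e (nat_lit 344117) (nat_lit 21) (.e (nat_lit 516116) (nat_lit 1) (.e (nat_lit 171776) (nat_lit 278) (.e (nat_lit 1126) (nat_lit 83) .nil))))))) (.g (nat_lit 4) .nil .nil))) 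
(.lf (nat_lit 132151) (.g (nat_lit 5122) (.e (nat_lit 16412) (nat_lit 2) (.e (nat_lit 196666) (nat_lit 13) (.e (nat_lit 65610) (nat_lit 10) (.e (nat_lit 344129) (nat_lit 26) (.e (nat_lit 557091) (nat_lit 12) (.e (nat_lit 164022) (nat_lit 46) (.e (nat_lit 704737) (nat_lit 11) .nil))))))) (.g (nat_lit 5) .nil .nil))))) (.nd (nat_lit 4) (.nd (nat_lit 5) 
(.lf (nat_lit 132111) (.g (nat_lit 3377) (.e (nat_lit 16412) (nat_lit 2) (.e (nat_lit 196666) (nat_lit 13) (.e (nat_lit 65610) (nat_lit 10) (.e (nat_lit 344117) (nat_lit 21) (.e (nat_lit 516115) (nat_lit 1) (.e (nat_lit 171776) (nat_lit 278) (.e (nat_lit 1127) (nat_lit 83) .nil))))))) (.g (nat_lit 4) .nil .nil))) 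
(.lf (nat_lit 132143) (.g (nat_lit 4590) (.e (nat_lit 16412) (nat_lit 2) (.e (nat_lit 196666) (nat_lit 13) (.e (nat_lit 65610) (nat_lit 10) (.e (nat_lit 344129) (nat_lit 26) (.e (nat_lit 557089) (nat_lit 12) (.e (nat_lit 164023) (nat_lit 46) (.e (nat_lit 704737) (nat_lit 11) .nil))))))) (.g (nat_lit 6) .nil .nil)))) (.nd (nat_lit 5) 
(.lf (nat_lit 132127) (.g (nat_lit 2766) (.e (nat_lit 16412) (nat_lit 2) (.e (nat_lit 196666) (nat_lit 13) (.e (nat_lit 65610) (nat_lit 10) (.e (nat_lit 344127) (nat_lit 26) (.e (nat_lit 557091) (nat_lit 12) .nil))))) .nil)) 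
(.lf (nat_lit 132159) (.g (nat_lit 4021) (.e (nat_lit 16412) (nat_lit 2) (.e (nat_lit 196666) (nat_lit 13) (.e (nat_lit 65610) (nat_lit 10) (.e (nat_lit 344130) (nat_lit 26) (.e (nat_lit 557090) (nat_lit 12) (.e (nat_lit 164022) (nat_lit 46) (.e (nat_lit 704737) (nat_lit 11) .nil))))))) (.g (nat_lit 5) .nil .nil)))))))))

noncomputable def tv1762 : DT := (.nd (nat_lit 0) (.nd (nat_lit 1) (.nd (nat_lit 2) (.nd (nat_lit 3) (.nd (nat_lit 4) (.nd (nat_lit 5) 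
(.lf (nat_lit 132160) (.g (nat_lit 5444) (.e (nat_lit 16412) (nat_lit 2) (.e (nat_lit 196666) (nat_lit 13) (.e (nat_lit 65610) (nat_lit 10) (.e (nat_lit 344130) (nat_lit 26) (.e (nat_lit 557090) (nat_lit 12) (.e (nat_lit 164022) (nat_lit 46) (.e (nat_lit 704738) (nat_lit 11) .nil))))))) (.g (nat_lit 7) .nil .nil))) 
(.lf (nat_lit 132192) (.g (nat_lit 4679) (.e (nat_lit 16412) (nat_lit 2) (.e (nat_lit 196666) (nat_lit 13) (.e (nat_lit 65617) (nat_lit 10) (.e (nat_lit 344133) (nat_lit 26) (.e (nat_lit 557091) (nat_lit 12) (.e (nat_lit 164022) (nat_lit 46) (.e (nat_lit 704736) (nat_lit 11) .nil))))))) (.g (nat_lit 5) .nil .nil)))) (.nd (nat_lit 5) 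
(.lf (nat_lit 132176) (.g (nat_lit 4640) (.e (nat_lit 16412) (nat_lit 2) (.e (nat_lit 196666) (nat_lit 13) (.e (nat_lit 65611) (nat_lit 10) (.e (nat_lit 344130) (nat_lit 26) (.e (nat_lit 557090) (nat_lit 12) (.e (nat_lit 164022) (nat_lit 46) (.e (nat_lit 704738) (nat_lit 11) .nil))))))) (.g (nat_lit 5) .nil .nil))) 
(.lf (nat_lit 132208) (.g (nat_lit 2248) (.e (nat_lit 16412) (nat_lit 2) (.e (nat_lit 196672) (nat_lit 15) (.e (nat_lit 81924) (nat_lit 0) (.e (nat_lit 3253) (nat_lit 197) (.e (nat_lit 532511) (nat_lit 2) (.e (nat_lit 106534) (nat_lit 11) .nil)))))) (.g (nat_lit 0) .nil .nil))))) (.nd (nat_lit 4) (.nd (nat_lit 5) 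
(.lf (nat_lit 132168) (.g (nat_lit 3736) (.e (nat_lit 16412) (nat_lit 2) (.e (nat_lit 196666) (nat_lit 13) (.e (nat_lit 65610) (nat_lit 10) (.e (nat_lit 344132) (nat_lit 26) (.e (nat_lit 557093) (nat_lit 12) (.e (nat_lit 164022) (nat_lit 46) (.e (nat_lit 704737) (nat_lit 11) .nil))))))) (.g (nat_lit 5) .nil .nil))) 
(.lf (nat_lit 132200) (.g (nat_lit 2411) (.e (nat_lit 16412) (nat_lit 2) (.e (nat_lit 196666) (nat_lit 13) (.e (nat_lit 65624) (nat_lit 12) (.e (nat_lit 385067) (nat_lit 26) (.e (nat_lit 532508) (nat_lit 2) (.e (nat_lit 106536) (nat_lit 11) .nil)))))) (.g (nat_lit 4) .nil .nil)))) (.nd (nat_lit 5) 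
(.lf (nat_lit 132184) (.g (nat_lit 4822) (.e (nat_lit 16412) (nat_lit 2) (.e (nat_lit 196666) (nat_lit 13) (.e (nat_lit 65617) (nat_lit 10) (.e (nat_lit 344130) (nat_lit 26) (.e (nat_lit 557090) (nat_lit 12) (.e (nat_lit 164022) (nat_lit 46) (.e (nat_lit 704737) (nat_lit 11) .nil))))))) (.g (nat_lit 7) .nil .nil))) 
(.lf (nat_lit 132216) (.g (nat_lit 3104) (.e (nat_lit 16412) (nat_lit 2) (.e (nat_lit 196672) (nat_lit 15) (.e (nat_lit 81954) (nat_lit 23) (.e (nat_lit 98333) (nat_lit 18) (.e (nat_lit 164429) (nat_lit 278) (.e (nat_lit 1122) (nat_lit 83) .nil)))))) (.g (nat_lit 4) .nil .nil)))))) (.nd (nat_lit 3) (.nd (nat_lit 4) (.nd (nat_lit 5) 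
(.lf (nat_lit 132164) (.g (nat_lit 3424) (.e (nat_lit 16412) (nat_lit 2) (.e (nat_lit 196666) (nat_lit 13) (.e (nat_lit 65610) (nat_lit 10) (.e (nat_lit 344131) (nat_lit 26) (.e (nat_lit 557093) (nat_lit 12) (.e (nat_lit 164023) (nat_lit 46) (.e (nat_lit 704737) (nat_lit 11) .nil))))))) (.g (nat_lit 4) .nil .nil))) 
(.lf (nat_lit 132196) (.g (nat_lit 2653) (.e (nat_lit 16412) (nat_lit 2) (.e (nat_lit 196666) (nat_lit 13) (.e (nat_lit 65624) (nat_lit 12) (.e (nat_lit 385066) (nat_lit 26) (.e (nat_lit 532508) (nat_lit 2) .nil))))) .nil))) (.nd (nat_lit 5) 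
(.lf (nat_lit 132180) (.g (nat_lit 4073) (.e (nat_lit 16412) (nat_lit 2) (.e (nat_lit 196666) (nat_lit 13) (.e (nat_lit 65616) (nat_lit 10) (.e (nat_lit 344133) (nat_lit 26) (.e (nat_lit 557091) (nat_lit 12) (.e (nat_lit 164022) (nat_lit 46) (.e (nat_lit 704738) (nat_lit 11) .nil))))))) (.g (nat_lit 5) .nil .nil))) 
(.lf (nat_lit 132212) (.g (nat_lit 3180) (.e (nat_lit 16412) (nat_lit 2) (.e (nat_lit 196672) (nat_lit 15) (.e (nat_lit 81946) (nat_lit 20) (.e (nat_lit 1858) (nat_lit 124) (.e (nat_lit 557093) (nat_lit 12) (.e (nat_lit 164022) (nat_lit 46) (.e (nat_lit 704736) (nat_lit 11) .nil))))))) (.g (nat_lit 4) .nil .nil))))) (.nd (nat_lit 4) (.nd (nat_lit 5) 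
(.lf (nat_lit 132172) (.g (nat_lit 4767) (.e (nat_lit 16412) (nat_lit 2) (.e (nat_lit 196666) (nat_lit 13) (.e (nat_lit 65610) (nat_lit 10) (.e (nat_lit 344132) (nat_lit 26) (.e (nat_lit 557094) (nat_lit 12) (.e (nat_lit 164022) (nat_lit 46) (.e (nat_lit 704738) (nat_lit 11) .nil))))))) (.g (nat_lit 7) .nil .nil))) 
(.lf (nat_lit 132204) (.g (nat_lit 624) (.e (nat_lit 16412) (nat_lit 2) (.e (nat_lit 196668) (nat_lit 14) (.e (nat_lit 73789) (nat_lit 45) .nil))) .nil))) (.nd (nat_lit 5) 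
(.lf (nat_lit 132188) (.g (nat_lit 4549) (.e (nat_lit 16412) (nat_lit 2) (.e (nat_lit 196666) (nat_lit 13) (.e (nat_lit 65617) (nat_lit 10) (.e (nat_lit 344132) (nat_lit 26) (.e (nat_lit 557093) (nat_lit 12) (.e (nat_lit 164023) (nat_lit 46) (.e (nat_lit 704737) (nat_lit 11) .nil))))))) (.g (nat_lit 6) .nil .nil))) 
(.lf (nat_lit 132220) (.g (nat_lit 450) (.e (nat_lit 16412) (nat_lit 2) (.e (nat_lit 196672) (nat_lit 15) (.e (nat_lit 81960) (nat_lit 25) .nil))) .nil)))))) (.nd (nat_lit 2) (.nd (nat_lit 3) (.nd (nat_lit 4) (.nd (nat_lit 5) 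
(.lf (nat_lit 132162) (.g (nat_lit 5171) (.e (nat_lit 16412) (nat_lit 2) (.e (nat_lit 196666) (nat_lit 13) (.e (nat_lit 65610) (nat_lit 10) (.e (nat_lit 344131) (nat_lit 26) (.e (nat_lit 557091) (nat_lit 12) (.e (nat_lit 164022) (nat_lit 46) (.e (nat_lit 704738) (nat_lit 11) .nil))))))) (.g (nat_lit 7) .nil .nil))) 
(.lf (nat_lit 132194) (.g (nat_lit 1437) (.e (nat_lit 16412) (nat_lit 2) (.e (nat_lit 196666) (nat_lit 13) (.e (nat_lit 65619) (nat_lit 10) (.e (nat_lit 344129) (nat_lit 26) .nil)))) .nil))) (.nd (nat_lit 5) 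
(.lf (nat_lit 132178) (.g (nat_lit 4332) (.e (nat_lit 16412) (nat_lit 2) (.e (nat_lit 196666) (nat_lit 13) (.e (nat_lit 65614) (nat_lit 10) (.e (nat_lit 344132) (nat_lit 26) (.e (nat_lit 557094) (nat_lit 12) (.e (nat_lit 164022) (nat_lit 46) (.e (nat_lit 704738) (nat_lit 11) .nil))))))) (.g (nat_lit 6) .nil .nil))) 
(.lf (nat_lit 132210) (.g (nat_lit 482) (.e (nat_lit 16412) (nat_lit 2) (.e (nat_lit 196672) (nat_lit 15) (.e (nat_lit 81933) (nat_lit 20) .nil))) .nil)))) (.nd (nat_lit 4) (.nd (nat_lit 5) 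
(.lf (nat_lit 132170) (.g (nat_lit 3761) (.e (nat_lit 16412) (nat_lit 2) (.e (nat_lit 196666) (nat_lit 13) (.e (nat_lit 65610) (nat_lit 10) (.e (nat_lit 344132) (nat_lit 26) (.e (nat_lit 557093) (nat_lit 12) (.e (nat_lit 164023) (nat_lit 46) (.e (nat_lit 704738) (nat_lit 11) .nil))))))) (.g (nat_lit 5) .nil .nil))) 
(.lf (nat_lit 132202) (.g (nat_lit 2409) (.e (nat_lit 16412) (nat_lit 2) (.e (nat_lit 196666) (nat_lit 13) (.e (nat_lit 65624) (nat_lit 12) (.e (nat_lit 385068) (nat_lit 26) (.e (nat_lit 532510) (nat_lit 2) (.e (nat_lit 106534) (nat_lit 11) .nil)))))) (.g (nat_lit 4) .nil .nil)))) (.nd (nat_lit 5) 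
(.lf (nat_lit 132186) (.g (nat_lit 4652) (.e (nat_lit 16412) (nat_lit 2) (.e (nat_lit 196666) (nat_lit 13) (.e (nat_lit 65617) (nat_lit 10) (.e (nat_lit 344132) (nat_lit 26) (.e (nat_lit 557093) (nat_lit 12) (.e (nat_lit 164023) (nat_lit 46) (.e (nat_lit 704735) (nat_lit 11) .nil))))))) (.g (nat_lit 4) .nil .nil))) 
(.lf (nat_lit 132218) (.g (nat_lit 2410) (.e (nat_lit 16412) (nat_lit 2) (.e (nat_lit 196672) (nat_lit 15) (.e (nat_lit 81954) (nat_lit 23) (.e (nat_lit 98334) (nat_lit 18) (.e (nat_lit 171776) (nat_lit 278) (.e (nat_lit 1122) (nat_lit 83) .nil)))))) (.g (nat_lit 4) .nil .nil)))))) (.nd (nat_lit 3) (.nd (nat_lit 4) (.nd (nat_lit 5) 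
(.lf (nat_lit 132166) (.g (nat_lit 2128) (.e (nat_lit 16412) (nat_lit 2) (.e (nat_lit 196666) (nat_lit 13) (.e (nat_lit 65610) (nat_lit 10) (.e (nat_lit 344132) (nat_lit 26) .nil)))) .nil)) 
(.lf (nat_lit 132198) (.g (nat_lit 2614) (.e (nat_lit 16412) (nat_lit 2) (.e (nat_lit 196666) (nat_lit 13) (.e (nat_lit 65624) (nat_lit 12) (.e (nat_lit 385066) (nat_lit 26) (.e (nat_lit 532510) (nat_lit 2) (.e (nat_lit 106536) (nat_lit 11) .nil)))))) (.g (nat_lit 4) .nil .nil)))) (.nd (nat_lit 5) 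
(.lf (nat_lit 132182) (.g (nat_lit 4067) (.e (nat_lit 16412) (nat_lit 2) (.e (nat_lit 196666) (nat_lit 13) (.e (nat_lit 65617) (nat_lit 10) (.e (nat_lit 344130) (nat_lit 26) (.e (nat_lit 557090) (nat_lit 12) (.e (nat_lit 164022) (nat_lit 46) (.e (nat_lit 704735) (nat_lit 11) .nil))))))) (.g (nat_lit 4) .nil .nil))) 
(.lf (nat_lit 132214) (.g (nat_lit 1145) (.e (nat_lit 16412) (nat_lit 2) (.e (nat_lit 196672) (nat_lit 15) (.e (nat_lit 81954) (nat_lit 23) (.e (nat_lit 98321) (nat_lit 17) .nil)))) .nil)))) (.nd (nat_lit 4) (.nd (nat_lit 5) 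
(.lf (nat_lit 132174) (.g (nat_lit 4150) (.e (nat_lit 16412) (nat_lit 2) (.e (nat_lit 196666) (nat_lit 13) (.e (nat_lit 65610) (nat_lit 10) (.e (nat_lit 344133) (nat_lit 26) (.e (nat_lit 557091) (nat_lit 12) (.e (nat_lit 164022) (nat_lit 46) (.e (nat_lit 704737) (nat_lit 11) .nil))))))) (.g (nat_lit 5) .nil .nil))) 
(.lf (nat_lit 132206) (.g (nat_lit 1417) (.e (nat_lit 16412) (nat_lit 2) (.e (nat_lit 196672) (nat_lit 15) (.e (nat_lit 81922) (nat_lit 0) (.e (nat_lit 3253) (nat_lit 197) (.e (nat_lit 532510) (nat_lit 2) .nil))))) .nil))) (.nd (nat_lit 5) 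
(.lf (nat_lit 132190) (.g (nat_lit 4100) (.e (nat_lit 16412) (nat_lit 2) (.e (nat_lit 196666) (nat_lit 13) (.e (nat_lit 65617) (nat_lit 10) (.e (nat_lit 344132) (nat_lit 26) (.e (nat_lit 557094) (nat_lit 12) (.e (nat_lit 164022) (nat_lit 46) (.e (nat_lit 704736) (nat_lit 11) .nil))))))) (.g (nat_lit 4) .nil .nil))) 
(.lf (nat_lit 132222) (.g (nat_lit 2444) (.e (nat_lit 16412) (nat_lit 2) (.e (nat_lit 196674) (nat_lit 15) (.e (nat_lit 81922) (nat_lit 0) (.e (nat_lit 3253) (nat_lit 197) (.e (nat_lit 532510) (nat_lit 2) (.e (nat_lit 106536) (nat_lit 11) .nil)))))) (.g (nat_lit 0) .nil .nil)))))))) (.nd (nat_lit 1) (.nd (nat_lit 2) (.nd (nat_lit 3) (.nd (nat_lit 4) (.nd (nat_lit 5) 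
(.lf (nat_lit 132161) (.g (nat_lit 2230) (.e (nat_lit 16412) (nat_lit 2) (.e (nat_lit 196666) (nat_lit 13) (.e (nat_lit 65610) (nat_lit 10) (.e (nat_lit 344131) (nat_lit 26) .nil)))) .nil)) 
(.lf (nat_lit 132193) (.g (nat_lit 4671) (.e (nat_lit 16412) (nat_lit 2) (.e (nat_lit 196666) (nat_lit 13) (.e (nat_lit 65617) (nat_lit 10) (.e (nat_lit 344133) (nat_lit 26) (.e (nat_lit 557091) (nat_lit 12) (.e (nat_lit 164022) (nat_lit 46) (.e (nat_lit 704737) (nat_lit 11) .nil))))))) (.g (nat_lit 7) .nil .nil)))) (.nd (nat_lit 5) 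
(.lf (nat_lit 132177) (.g (nat_lit 4145) (.e (nat_lit 16412) (nat_lit 2) (.e (nat_lit 196666) (nat_lit 13) (.e (nat_lit 65611) (nat_lit 10) (.e (nat_lit 344133) (nat_lit 26) (.e (nat_lit 557091) (nat_lit 12) (.e (nat_lit 164022) (nat_lit 46) (.e (nat_lit 704738) (nat_lit 11) .nil))))))) (.g (nat_lit 5) .nil .nil))) 
(.lf (nat_lit 132209) (.g (nat_lit 2523) (.e (nat_lit 16412) (nat_lit 2) (.e (nat_lit 196672) (nat_lit 15) (.e (nat_lit 81924) (nat_lit 0) (.e (nat_lit 3253) (nat_lit 197) (.e (nat_lit 532511) (nat_lit 2) (.e (nat_lit 106536) (nat_lit 11) .nil)))))) (.g (nat_lit 0) .nil .nil))))) (.nd (nat_lit 4) (.nd (nat_lit 5) 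
(.lf (nat_lit 132169) (.g (nat_lit 3969) (.e (nat_lit 16412) (nat_lit 2) (.e (nat_lit 196666) (nat_lit 13) (.e (nat_lit 65610) (nat_lit 10) (.e (nat_lit 344132) (nat_lit 26) (.e (nat_lit 557093) (nat_lit 12) (.e (nat_lit 164023) (nat_lit 46) (.e (nat_lit 704737) (nat_lit 11) .nil))))))) (.g (nat_lit 5) .nil .nil))) 
(.lf (nat_lit 132201) (.g (nat_lit 2924) (.e (nat_lit 16412) (nat_lit 2) (.e (nat_lit 196666) (nat_lit 13) (.e (nat_lit 65624) (nat_lit 12) (.e (nat_lit 385068) (nat_lit 26) (.e (nat_lit 532506) (nat_lit 2) (.e (nat_lit 106536) (nat_lit 11) .nil)))))) (.g (nat_lit 4) .nil .nil)))) (.nd (nat_lit 5) 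
(.lf (nat_lit 132185) (.g (nat_lit 4321) (.e (nat_lit 16412) (nat_lit 2) (.e (nat_lit 196666) (nat_lit 13) (.e (nat_lit 65617) (nat_lit 10) (.e (nat_lit 344132) (nat_lit 26) (.e (nat_lit 557093) (nat_lit 12) (.e (nat_lit 164022) (nat_lit 46) (.e (nat_lit 704736) (nat_lit 11) .nil))))))) (.g (nat_lit 4) .nil .nil))) 
(.lf (nat_lit 132217) (.g (nat_lit 2639) (.e (nat_lit 16412) (nat_lit 2) (.e (nat_lit 196672) (nat_lit 15) (.e (nat_lit 81954) (nat_lit 23) (.e (nat_lit 98334) (nat_lit 18) (.e (nat_lit 164428) (nat_lit 278) (.e (nat_lit 1122) (nat_lit 83) .nil)))))) (.g (nat_lit 4) .nil .nil)))))) (.nd (nat_lit 3) (.nd (nat_lit 4) (.nd (nat_lit 5) 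
(.lf (nat_lit 132165) (.g (nat_lit 3175) (.e (nat_lit 16412) (nat_lit 2) (.e (nat_lit 196666) (nat_lit 13) (.e (nat_lit 65610) (nat_lit 10) (.e (nat_lit 344131) (nat_lit 26) (.e (nat_lit 557093) (nat_lit 12) (.e (nat_lit 164023) (nat_lit 46) (.e (nat_lit 704738) (nat_lit 11) .nil))))))) (.g (nat_lit 4) .nil .nil))) 
(.lf (nat_lit 132197) (.g (nat_lit 2622) (.e (nat_lit 16412) (nat_lit 2) (.e (nat_lit 196666) (nat_lit 13) (.e (nat_lit 65624) (nat_lit 12) (.e (nat_lit 385066) (nat_lit 26) (.e (nat_lit 532509) (nat_lit 2) .nil))))) .nil))) (.nd (nat_lit 5) 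
(.lf (nat_lit 132181) (.g (nat_lit 2335) (.e (nat_lit 16412) (nat_lit 2) (.e (nat_lit 196666) (nat_lit 13) (.e (nat_lit 65617) (nat_lit 10) (.e (nat_lit 344127) (nat_lit 26) (.e (nat_lit 557093) (nat_lit 12) (.e (nat_lit 164022) (nat_lit 46) (.e (nat_lit 704738) (nat_lit 11) .nil))))))) (.g (nat_lit 4) .nil .nil))) 
(.lf (nat_lit 132213) (.g (nat_lit 6239) (.e (nat_lit 16412) (nat_lit 2) (.e (nat_lit 196672) (nat_lit 15) (.e (nat_lit 81946) (nat_lit 20) (.e (nat_lit 1858) (nat_lit 124) (.e (nat_lit 557093) (nat_lit 12) (.e (nat_lit 164023) (nat_lit 46) (.e (nat_lit 704737) (nat_lit 11) .nil))))))) (.g (nat_lit 7) .nil .nil))))) (.nd (nat_lit 4) (.nd (nat_lit 5) 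
(.lf (nat_lit 132173) (.g (nat_lit 2096) (.e (nat_lit 16412) (nat_lit 2) (.e (nat_lit 196666) (nat_lit 13) (.e (nat_lit 65610) (nat_lit 10) (.e (nat_lit 344133) (nat_lit 26) .nil)))) .nil)) 
(.lf (nat_lit 132205) (.g (nat_lit 1647) (.e (nat_lit 16412) (nat_lit 2) (.e (nat_lit 196670) (nat_lit 14) (.e (nat_lit 73792) (nat_lit 45) (.e (nat_lit 1140) (nat_lit 84) .nil)))) .nil))) (.nd (nat_lit 5) 
(.lf (nat_lit 132189) (.g (nat_lit 3208) (.e (nat_lit 16412) (nat_lit 2) (.e (nat_lit 196666) (nat_lit 13) (.e (nat_lit 65617) (nat_lit 10) (.e (nat_lit 344132) (nat_lit 26) (.e (nat_lit 557093) (nat_lit 12) (.e (nat_lit 164023) (nat_lit 46) (.e (nat_lit 704738) (nat_lit 11) .nil))))))) (.g (nat_lit 5) .nil .nil))) 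
(.lf (nat_lit 132221) (.g (nat_lit 204) (.e (nat_lit 16412) (nat_lit 2) (.e (nat_lit 196674) (nat_lit 15) (.e (nat_lit 81922) (nat_lit 0) .nil))) .nil)))))) (.nd (nat_lit 2) (.nd (nat_lit 3) (.nd (nat_lit 4) (.nd (nat_lit 5) 
(.lf (nat_lit 132163) (.g (nat_lit 3129) (.e (nat_lit 16412) (nat_lit 2) (.e (nat_lit 196666) (nat_lit 13) (.e (nat_lit 65610) (nat_lit 10) (.e (nat_lit 344131) (nat_lit 26) (.e (nat_lit 557093) (nat_lit 12) (.e (nat_lit 164022) (nat_lit 46) (.e (nat_lit 704737) (nat_lit 11) .nil))))))) (.g (nat_lit 4) .nil .nil))) 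
(.lf (nat_lit 132195) (.g (nat_lit 1603) (.e (nat_lit 16412) (nat_lit 2) (.e (nat_lit 196666) (nat_lit 13) (.e (nat_lit 65624) (nat_lit 12) (.e (nat_lit 385064) (nat_lit 26) .nil)))) .nil))) (.nd (nat_lit 5) 
(.lf (nat_lit 132179) (.g (nat_lit 4620) (.e (nat_lit 16412) (nat_lit 2) (.e (nat_lit 196666) (nat_lit 13) (.e (nat_lit 65614) (nat_lit 10) (.e (nat_lit 344133) (nat_lit 26) (.e (nat_lit 557091) (nat_lit 12) (.e (nat_lit 164022) (nat_lit 46) (.e (nat_lit 704738) (nat_lit 11) .nil))))))) (.g (nat_lit 5) .nil .nil))) 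
(.lf (nat_lit 132211) (.g (nat_lit 276) (.e (nat_lit 16412) (nat_lit 2) (.e (nat_lit 196672) (nat_lit 15) (.e (nat_lit 81943) (nat_lit 20) .nil))) .nil)))) (.nd (nat_lit 4) (.nd (nat_lit 5) 
(.lf (nat_lit 132171) (.g (nat_lit 3236) (.e (nat_lit 16412) (nat_lit 2) (.e (nat_lit 196666) (nat_lit 13) (.e (nat_lit 65610) (nat_lit 10) (.e (nat_lit 344132) (nat_lit 26) (.e (nat_lit 557094) (nat_lit 12) (.e (nat_lit 164022) (nat_lit 46) (.e (nat_lit 704737) (nat_lit 11) .nil))))))) (.g (nat_lit 4) .nil .nil))) 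
(.lf (nat_lit 132203) (.g (nat_lit 2368) (.e (nat_lit 16412) (nat_lit 2) (.e (nat_lit 196666) (nat_lit 13) (.e (nat_lit 65624) (nat_lit 12) (.e (nat_lit 385068) (nat_lit 26) (.e (nat_lit 532511) (nat_lit 2) (.e (nat_lit 106534) (nat_lit 11) .nil)))))) (.g (nat_lit 4) .nil .nil)))) (.nd (nat_lit 5) 
(.lf (nat_lit 132187) (.g (nat_lit 3649) (.e (nat_lit 16412) (nat_lit 2) (.e (nat_lit 196666) (nat_lit 13) (.e (nat_lit 65617) (nat_lit 10) (.e (nat_lit 344132) (nat_lit 26) (.e (nat_lit 557093) (nat_lit 12) (.e (nat_lit 164023) (nat_lit 46) (.e (nat_lit 704736) (nat_lit 11) .nil))))))) (.g (nat_lit 4) .nil .nil))) 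
(.lf (nat_lit 132219) (.g (nat_lit 2603) (.e (nat_lit 16412) (nat_lit 2) (.e (nat_lit 196672) (nat_lit 15) (.e (nat_lit 81954) (nat_lit 23) (.e (nat_lit 98334) (nat_lit 18) (.e (nat_lit 171776) (nat_lit 278) (.e (nat_lit 1130) (nat_lit 83) .nil)))))) (.g (nat_lit 4) .nil .nil)))))) (.nd (nat_lit 3) (.nd (nat_lit 4) (.nd (nat_lit 5) 
(.lf (nat_lit 132167) (.g (nat_lit 3464) (.e (nat_lit 16412) (nat_lit 2) (.e (nat_lit 196666) (nat_lit 13) (.e (nat_lit 65610) (nat_lit 10) (.e (nat_lit 344132) (nat_lit 26) (.e (nat_lit 557091) (nat_lit 12) (.e (nat_lit 164022) (nat_lit 46) (.e (nat_lit 704738) (nat_lit 11) .nil))))))) (.g (nat_lit 4) .nil .nil))) 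
(.lf (nat_lit 132199) (.g (nat_lit 2583) (.e (nat_lit 16412) (nat_lit 2) (.e (nat_lit 196666) (nat_lit 13) (.e (nat_lit 65624) (nat_lit 12) (.e (nat_lit 385066) (nat_lit 26) (.e (nat_lit 532511) (nat_lit 2) (.e (nat_lit 106536) (nat_lit 11) .nil)))))) (.g (nat_lit 4) .nil .nil)))) (.nd (nat_lit 5) 
(.lf (nat_lit 132183) (.g (nat_lit 4725) (.e (nat_lit 16412) (nat_lit 2) (.e (nat_lit 196666) (nat_lit 13) (.e (nat_lit 65617) (nat_lit 10) (.e (nat_lit 344130) (nat_lit 26) (.e (nat_lit 557090) (nat_lit 12) (.e (nat_lit 164022) (nat_lit 46) (.e (nat_lit 704736) (nat_lit 11) .nil))))))) (.g (nat_lit 5) .nil .nil))) 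
(.lf (nat_lit 132215) (.g (nat_lit 1682) (.e (nat_lit 16412) (nat_lit 2) (.e (nat_lit 196672) (nat_lit 15) (.e (nat_lit 81954) (nat_lit 23) (.e (nat_lit 98325) (nat_lit 17) (.e (nat_lit 2478) (nat_lit 157) .nil))))) .nil)))) (.nd (nat_lit 4) (.nd (nat_lit 5) 
(.lf (nat_lit 132175) (.g (nat_lit 2199) (.e (nat_lit 16412) (nat_lit 2) (.e (nat_lit 196666) (nat_lit 13) (.e (nat_lit 65610) (nat_lit 10) (.e (nat_lit 352000) (nat_lit 28) .nil)))) .nil)) 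
(.lf (nat_lit 132207) (.g (nat_lit 2431) (.e (nat_lit 16412) (nat_lit 2) (.e (nat_lit 196672) (nat_lit 15) (.e (nat_lit 81924) (nat_lit 0) (.e (nat_lit 3253) (nat_lit 197) (.e (nat_lit 532510) (nat_lit 2) (.e (nat_lit 106536) (nat_lit 11) .nil)))))) (.g (nat_lit 0) .nil .nil)))) (.nd (nat_lit 5) 
(.lf (nat_lit 132191) (.g (nat_lit 3923) (.e (nat_lit 16412) (nat_lit 2) (.e (nat_lit 196666) (nat_lit 13) (.e (nat_lit 65617) (nat_lit 10) (.e (nat_lit 344133) (nat_lit 26) (.e (nat_lit 557091) (nat_lit 12) (.e (nat_lit 164022) (nat_lit 46) (.e (nat_lit 704735) (nat_lit 11) .nil))))))) (.g (nat_lit 4) .nil .nil))) 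
(.lf (nat_lit 132223) (.g (nat_lit 2253) (.e (nat_lit 16412) (nat_lit 2) (.e (nat_lit 196674) (nat_lit 15) (.e (nat_lit 81922) (nat_lit 0) (.e (nat_lit 3253) (nat_lit 197) (.e (nat_lit 532511) (nat_lit 2) (.e (nat_lit 106534) (nat_lit 11) .nil)))))) (.g (nat_lit 0) .nil .nil)))))))))

noncomputable def tv1763 : DT := (.nd (nat_lit 0) (.nd (nat_lit 1) (.nd (nat_lit 2) (.nd (nat_lit 3) (.nd (nat_lit 4) (.nd (nat_lit 5) 
(.lf (nat_lit 132224) (.g (nat_lit 2538) (.e (nat_lit 16412) (nat_lit 2) (.e (nat_lit 196674) (nat_lit 15) (.e (nat_lit 81922) (nat_lit 0) (.e (nat_lit 3253) (nat_lit 197) (.e (nat_lit 532511) (nat_lit 2) (.e (nat_lit 106536) (nat_lit 11) .nil)))))) (.g (nat_lit 0) .nil .nil))) 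
(.lf (nat_lit 132256) (.g (nat_lit 2801) (.e (nat_lit 16412) (nat_lit 2) (.e (nat_lit 196681) (nat_lit 17) (.e (nat_lit 131105) (nat_lit 9) (.e (nat_lit 336324) (nat_lit 18) (.e (nat_lit 204833) (nat_lit 19) (.e (nat_lit 106536) (nat_lit 11) .nil)))))) (.g (nat_lit 0) .nil .nil)))) (.nd (nat_lit 5) 
(.lf (nat_lit 132240) (.g (nat_lit 1246) (.e (nat_lit 16412) (nat_lit 2) (.e (nat_lit 196674) (nat_lit 15) (.e (nat_lit 81947) (nat_lit 20) (.e (nat_lit 7936) (nat_lit 126) .nil)))) .nil)) 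
(.lf (nat_lit 132272) (.g (nat_lit 1627) (.e (nat_lit 16412) (nat_lit 2) (.e (nat_lit 196681) (nat_lit 17) (.e (nat_lit 131109) (nat_lit 9) (.e (nat_lit 336324) (nat_lit 18) (.e (nat_lit 204825) (nat_lit 17) .nil))))) .nil)))) (.nd (nat_lit 4) (.nd (nat_lit 5) 
(.lf (nat_lit 132232) (.g (nat_lit 3234) (.e (nat_lit 16412) (nat_lit 2) (.e (nat_lit 196674) (nat_lit 15) (.e (nat_lit 81946) (nat_lit 20) (.e (nat_lit 1858) (nat_lit 124) (.e (nat_lit 557093) (nat_lit 12) (.e (nat_lit 164022) (nat_lit 46) (.e (nat_lit 704735) (nat_lit 11) .nil))))))) (.g (nat_lit 4) .nil .nil))) 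
(.lf (nat_lit 132264) (.g (nat_lit 2306) (.e (nat_lit 16412) (nat_lit 2) (.e (nat_lit 196681) (nat_lit 17) (.e (nat_lit 131109) (nat_lit 9) (.e (nat_lit 336316) (nat_lit 17) (.e (nat_lit 196661) (nat_lit 12) (.e (nat_lit 57532) (nat_lit 46) (.e (nat_lit 712448) (nat_lit 11) .nil))))))) (.g (nat_lit 5) .nil .nil)))) (.nd (nat_lit 5) 
(.lf (nat_lit 132248) (.g (nat_lit 2052) (.e (nat_lit 16412) (nat_lit 2) (.e (nat_lit 196681) (nat_lit 17) (.e (nat_lit 131105) (nat_lit 9) (.e (nat_lit 336316) (nat_lit 17) (.e (nat_lit 196661) (nat_lit 12) (.e (nat_lit 57532) (nat_lit 46) (.e (nat_lit 712448) (nat_lit 11) .nil))))))) (.g (nat_lit 4) .nil .nil))) 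
(.lf (nat_lit 132280) (.g (nat_lit 2037) (.e (nat_lit 16412) (nat_lit 2) (.e (nat_lit 196681) (nat_lit 17) (.e (nat_lit 139008) (nat_lit 10) (.e (nat_lit 344133) (nat_lit 26) (.e (nat_lit 557091) (nat_lit 12) (.e (nat_lit 164022) (nat_lit 46) (.e (nat_lit 704738) (nat_lit 11) .nil))))))) (.g (nat_lit 4) .nil .nil)))))) (.nd (nat_lit 3) (.nd (nat_lit 4) (.nd (nat_lit 5) 
(.lf (nat_lit 132228) (.g (nat_lit 1306) (.e (nat_lit 16412) (nat_lit 2) (.e (nat_lit 196674) (nat_lit 15) (.e (nat_lit 81944) (nat_lit 20) (.e (nat_lit 1855) (nat_lit 124) (.e (nat_lit 564992) (nat_lit 19) (.e (nat_lit 57601) (nat_lit 107) (.e (nat_lit 704734) (nat_lit 11) .nil))))))) (.g (nat_lit 4) .nil .nil))) 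
(.lf (nat_lit 132260) (.g (nat_lit 4339) (.e (nat_lit 16412) (nat_lit 2) (.e (nat_lit 196681) (nat_lit 17) (.e (nat_lit 131109) (nat_lit 9) (.e (nat_lit 335878) (nat_lit 0) (.e (nat_lit 1860) (nat_lit 124) (.e (nat_lit 557093) (nat_lit 12) (.e (nat_lit 164022) (nat_lit 46) (.e (nat_lit 704738) (nat_lit 11) .nil)))))))) (.g (nat_lit 0) .nil .nil)))) (.nd (nat_lit 5) 
(.lf (nat_lit 132244) (.g (nat_lit 3588) (.e (nat_lit 16412) (nat_lit 2) (.e (nat_lit 196681) (nat_lit 17) (.e (nat_lit 131088) (nat_lit 1) (.e (nat_lit 57849) (nat_lit 252) (.e (nat_lit 57379) (nat_lit 3) (.e (nat_lit 98334) (nat_lit 18) (.e (nat_lit 164383) (nat_lit 254) (.e (nat_lit 1124) (nat_lit 83) .nil)))))))) (.g (nat_lit 5) .nil .nil))) 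
(.lf (nat_lit 132276) (.g (nat_lit 3706) (.e (nat_lit 16412) (nat_lit 2) (.e (nat_lit 196681) (nat_lit 17) (.e (nat_lit 131117) (nat_lit 10) (.e (nat_lit 344130) (nat_lit 26) (.e (nat_lit 557090) (nat_lit 12) (.e (nat_lit 164022) (nat_lit 46) (.e (nat_lit 704738) (nat_lit 11) .nil))))))) (.g (nat_lit 5) .nil .nil))))) (.nd (nat_lit 4) (.nd (nat_lit 5) 
(.lf (nat_lit 132236) (.g (nat_lit 3282) (.e (nat_lit 16412) (nat_lit 2) (.e (nat_lit 196674) (nat_lit 15) (.e (nat_lit 81946) (nat_lit 20) (.e (nat_lit 1858) (nat_lit 124) (.e (nat_lit 557094) (nat_lit 12) (.e (nat_lit 164022) (nat_lit 46) (.e (nat_lit 704736) (nat_lit 11) .nil))))))) (.g (nat_lit 4) .nil .nil))) 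
(.lf (nat_lit 132268) (.g (nat_lit 2508) (.e (nat_lit 16412) (nat_lit 2) (.e (nat_lit 196681) (nat_lit 17) (.e (nat_lit 131109) (nat_lit 9) (.e (nat_lit 336324) (nat_lit 18) (.e (nat_lit 204816) (nat_lit 17) (.e (nat_lit 2099) (nat_lit 142) (.e (nat_lit 712448) (nat_lit 11) .nil))))))) (.g (nat_lit 5) .nil .nil)))) (.nd (nat_lit 5) 
(.lf (nat_lit 132252) (.g (nat_lit 2315) (.e (nat_lit 16412) (nat_lit 2) (.e (nat_lit 196681) (nat_lit 17) (.e (nat_lit 131105) (nat_lit 9) (.e (nat_lit 336324) (nat_lit 18) (.e (nat_lit 204816) (nat_lit 17) (.e (nat_lit 2099) (nat_lit 142) (.e (nat_lit 712448) (nat_lit 11) .nil))))))) (.g (nat_lit 5) .nil .nil))) 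
(.lf (nat_lit 132284) (.g (nat_lit 1680) (.e (nat_lit 16412) (nat_lit 2) (.e (nat_lit 196681) (nat_lit 17) (.e (nat_lit 131120) (nat_lit 12) (.e (nat_lit 385066) (nat_lit 26) (.e (nat_lit 532481) (nat_lit 0) (.e (nat_lit 2095) (nat_lit 142) (.e (nat_lit 704734) (nat_lit 11) .nil))))))) (.g (nat_lit 4) .nil .nil))))))) (.nd (nat_lit 2) (.nd (nat_lit 3) (.nd (nat_lit 4) (.nd (nat_lit 5) 
(.lf (nat_lit 132226) (.g (nat_lit 584) (.e (nat_lit 16412) (nat_lit 2) (.e (nat_lit 196674) (nat_lit 15) (.e (nat_lit 81940) (nat_lit 20) .nil))) .nil)) 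
(.lf (nat_lit 132258) (.g (nat_lit 1547) (.e (nat_lit 16412) (nat_lit 2) (.e (nat_lit 196681) (nat_lit 17) (.e (nat_lit 131105) (nat_lit 9) (.e (nat_lit 336326) (nat_lit 18) (.e (nat_lit 212736) (nat_lit 19) (.e (nat_lit 106536) (nat_lit 11) .nil)))))) (.g (nat_lit 4) .nil .nil)))) (.nd (nat_lit 5) 
(.lf (nat_lit 132242) (.g (nat_lit 1208) (.e (nat_lit 16412) (nat_lit 2) (.e (nat_lit 196674) (nat_lit 15) (.e (nat_lit 81957) (nat_lit 24) (.e (nat_lit 130816) (nat_lit 145) .nil)))) .nil)) 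
(.lf (nat_lit 132274) (.g (nat_lit 2713) (.e (nat_lit 16412) (nat_lit 2) (.e (nat_lit 196681) (nat_lit 17) (.e (nat_lit 131109) (nat_lit 9) (.e (nat_lit 336326) (nat_lit 18) (.e (nat_lit 204833) (nat_lit 19) (.e (nat_lit 106536) (nat_lit 11) .nil)))))) (.g (nat_lit 0) .nil .nil))))) (.nd (nat_lit 4) (.nd (nat_lit 5) 
(.lf (nat_lit 132234) (.g (nat_lit 4788) (.e (nat_lit 16412) (nat_lit 2) (.e (nat_lit 196674) (nat_lit 15) (.e (nat_lit 81946) (nat_lit 20) (.e (nat_lit 1858) (nat_lit 124) (.e (nat_lit 557093) (nat_lit 12) (.e (nat_lit 164023) (nat_lit 46) (.e (nat_lit 704736) (nat_lit 11) .nil))))))) (.g (nat_lit 5) .nil .nil))) 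
(.lf (nat_lit 132266) (.g (nat_lit 2568) (.e (nat_lit 16412) (nat_lit 2) (.e (nat_lit 196681) (nat_lit 17) (.e (nat_lit 131109) (nat_lit 9) (.e (nat_lit 336316) (nat_lit 17) (.e (nat_lit 196661) (nat_lit 12) (.e (nat_lit 57538) (nat_lit 46) (.e (nat_lit 704741) (nat_lit 11) .nil))))))) (.g (nat_lit 6) .nil .nil)))) (.nd (nat_lit 5) 
(.lf (nat_lit 132250) (.g (nat_lit 2305) (.e (nat_lit 16412) (nat_lit 2) (.e (nat_lit 196681) (nat_lit 17) (.e (nat_lit 131105) (nat_lit 9) (.e (nat_lit 336316) (nat_lit 17) (.e (nat_lit 196661) (nat_lit 12) (.e (nat_lit 57538) (nat_lit 46) (.e (nat_lit 704741) (nat_lit 11) .nil))))))) (.g (nat_lit 5) .nil .nil))) 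
(.lf (nat_lit 132282) (.g (nat_lit 2690) (.e (nat_lit 16412) (nat_lit 2) (.e (nat_lit 196681) (nat_lit 17) (.e (nat_lit 131120) (nat_lit 12) (.e (nat_lit 385066) (nat_lit 26) (.e (nat_lit 532481) (nat_lit 0) (.e (nat_lit 2075) (nat_lit 142) (.e (nat_lit 704734) (nat_lit 11) .nil))))))) (.g (nat_lit 5) .nil .nil)))))) (.nd (nat_lit 3) (.nd (nat_lit 4) (.nd (nat_lit 5) 
(.lf (nat_lit 132230) (.g (nat_lit 4524) (.e (nat_lit 16412) (nat_lit 2) (.e (nat_lit 196674) (nat_lit 15) (.e (nat_lit 81946) (nat_lit 20) (.e (nat_lit 1858) (nat_lit 124) (.e (nat_lit 557091) (nat_lit 12) (.e (nat_lit 164022) (nat_lit 46) (.e (nat_lit 704736) (nat_lit 11) .nil))))))) (.g (nat_lit 5) .nil .nil))) 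
(.lf (nat_lit 132262) (.g (nat_lit 2350) (.e (nat_lit 16412) (nat_lit 2) (.e (nat_lit 196681) (nat_lit 17) (.e (nat_lit 131109) (nat_lit 9) (.e (nat_lit 336316) (nat_lit 17) (.e (nat_lit 196661) (nat_lit 12) (.e (nat_lit 57530) (nat_lit 46) (.e (nat_lit 712448) (nat_lit 11) .nil))))))) (.g (nat_lit 5) .nil .nil)))) (.nd (nat_lit 5) 
(.lf (nat_lit 132246) (.g (nat_lit 2096) (.e (nat_lit 16412) (nat_lit 2) (.e (nat_lit 196681) (nat_lit 17) (.e (nat_lit 131105) (nat_lit 9) (.e (nat_lit 336316) (nat_lit 17) (.e (nat_lit 196661) (nat_lit 12) (.e (nat_lit 57530) (nat_lit 46) (.e (nat_lit 712448) (nat_lit 11) .nil))))))) (.g (nat_lit 4) .nil .nil))) 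
(.lf (nat_lit 132278) (.g (nat_lit 4734) (.e (nat_lit 16412) (nat_lit 2) (.e (nat_lit 196681) (nat_lit 17) (.e (nat_lit 131117) (nat_lit 10) (.e (nat_lit 344132) (nat_lit 26) (.e (nat_lit 557093) (nat_lit 12) (.e (nat_lit 164022) (nat_lit 46) (.e (nat_lit 704738) (nat_lit 11) .nil))))))) (.g (nat_lit 0) .nil .nil))))) (.nd (nat_lit 4) (.nd (nat_lit 5) 
(.lf (nat_lit 132238) (.g (nat_lit 2569) (.e (nat_lit 16412) (nat_lit 2) (.e (nat_lit 196674) (nat_lit 15) (.e (nat_lit 81946) (nat_lit 20) (.e (nat_lit 1858) (nat_lit 124) (.e (nat_lit 557111) (nat_lit 16) (.e (nat_lit 237312) (nat_lit 46) (.e (nat_lit 704734) (nat_lit 11) .nil))))))) (.g (nat_lit 4) .nil .nil))) 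
(.lf (nat_lit 132270) (.g (nat_lit 1829) (.e (nat_lit 16412) (nat_lit 2) (.e (nat_lit 196681) (nat_lit 17) (.e (nat_lit 131109) (nat_lit 9) (.e (nat_lit 336324) (nat_lit 18) (.e (nat_lit 204817) (nat_lit 17) (.e (nat_lit 2080) (nat_lit 142) (.e (nat_lit 704734) (nat_lit 11) .nil))))))) (.g (nat_lit 4) .nil .nil)))) (.nd (nat_lit 5) 
(.lf (nat_lit 132254) (.g (nat_lit 1292) (.e (nat_lit 16412) (nat_lit 2) (.e (nat_lit 196681) (nat_lit 17) (.e (nat_lit 131105) (nat_lit 9) (.e (nat_lit 336324) (nat_lit 18) (.e (nat_lit 204820) (nat_lit 17) .nil))))) .nil)) 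
(.lf (nat_lit 132286) (.g (nat_lit 1963) (.e (nat_lit 16412) (nat_lit 2) (.e (nat_lit 196681) (nat_lit 17) (.e (nat_lit 131120) (nat_lit 12) (.e (nat_lit 385066) (nat_lit 26) (.e (nat_lit 532511) (nat_lit 2) (.e (nat_lit 106535) (nat_lit 11) .nil)))))) (.g (nat_lit 5) .nil .nil)))))))) (.nd (nat_lit 1) (.nd (nat_lit 2) (.nd (nat_lit 3) (.nd (nat_lit 4) (.nd (nat_lit 5) 
(.lf (nat_lit 132225) (.g (nat_lit 587) (.e (nat_lit 16412) (nat_lit 2) (.e (nat_lit 196674) (nat_lit 15) (.e (nat_lit 81923) (nat_lit 0) .nil))) .nil)) 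
(.lf (nat_lit 132257) (.g (nat_lit 2585) (.e (nat_lit 16412) (nat_lit 2) (.e (nat_lit 196681) (nat_lit 17) (.e (nat_lit 131105) (nat_lit 9) (.e (nat_lit 336326) (nat_lit 18) (.e (nat_lit 204833) (nat_lit 19) (.e (nat_lit 106536) (nat_lit 11) .nil)))))) (.g (nat_lit 0) .nil .nil)))) (.nd (nat_lit 5) 
(.lf (nat_lit 132241) (.g (nat_lit 587) (.e (nat_lit 16412) (nat_lit 2) (.e (nat_lit 196674) (nat_lit 15) (.e (nat_lit 81957) (nat_lit 24) .nil))) .nil)) 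
(.lf (nat_lit 132273) (.g (nat_lit 2966) (.e (nat_lit 16412) (nat_lit 2) (.e (nat_lit 196681) (nat_lit 17) (.e (nat_lit 131109) (nat_lit 9) (.e (nat_lit 336324) (nat_lit 18) (.e (nat_lit 204833) (nat_lit 19) (.e (nat_lit 106536) (nat_lit 11) .nil)))))) (.g (nat_lit 0) .nil .nil))))) (.nd (nat_lit 4) (.nd (nat_lit 5) 
(.lf (nat_lit 132233) (.g (nat_lit 4863) (.e (nat_lit 16412) (nat_lit 2) (.e (nat_lit 196674) (nat_lit 15) (.e (nat_lit 81946) (nat_lit 20) (.e (nat_lit 1858) (nat_lit 124) (.e (nat_lit 557093) (nat_lit 12) (.e (nat_lit 164023) (nat_lit 46) (.e (nat_lit 704735) (nat_lit 11) .nil))))))) (.g (nat_lit 5) .nil .nil))) 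
(.lf (nat_lit 132265) (.g (nat_lit 2408) (.e (nat_lit 16412) (nat_lit 2) (.e (nat_lit 196681) (nat_lit 17) (.e (nat_lit 131109) (nat_lit 9) (.e (nat_lit 336316) (nat_lit 17) (.e (nat_lit 196661) (nat_lit 12) (.e (nat_lit 57535) (nat_lit 46) (.e (nat_lit 704734) (nat_lit 11) .nil))))))) (.g (nat_lit 5) .nil .nil)))) (.nd (nat_lit 5) 
(.lf (nat_lit 132249) (.g (nat_lit 2226) (.e (nat_lit 16412) (nat_lit 2) (.e (nat_lit 196681) (nat_lit 17) (.e (nat_lit 131105) (nat_lit 9) (.e (nat_lit 336316) (nat_lit 17) (.e (nat_lit 196661) (nat_lit 12) (.e (nat_lit 57535) (nat_lit 46) (.e (nat_lit 704734) (nat_lit 11) .nil))))))) (.g (nat_lit 5) .nil .nil))) 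
(.lf (nat_lit 132281) (.g (nat_lit 1181) (.e (nat_lit 16412) (nat_lit 2) (.e (nat_lit 196681) (nat_lit 17) (.e (nat_lit 131119) (nat_lit 12) .nil))) .nil))))) (.nd (nat_lit 3) (.nd (nat_lit 4) (.nd (nat_lit 5) 
(.lf (nat_lit 132229) (.g (nat_lit 2181) (.e (nat_lit 16412) (nat_lit 2) (.e (nat_lit 196674) (nat_lit 15) (.e (nat_lit 81946) (nat_lit 20) (.e (nat_lit 1858) (nat_lit 124) (.e (nat_lit 557088) (nat_lit 12) .nil))))) .nil)) 
(.lf (nat_lit 132261) (.g (nat_lit 2413) (.e (nat_lit 16412) (nat_lit 2) (.e (nat_lit 196681) (nat_lit 17) (.e (nat_lit 131109) (nat_lit 9) (.e (nat_lit 336316) (nat_lit 17) (.e (nat_lit 196630) (nat_lit 9) (.e (nat_lit 7936) (nat_lit 93) (.e (nat_lit 106536) (nat_lit 11) .nil))))))) (.g (nat_lit 5) .nil .nil)))) (.nd (nat_lit 5) 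
(.lf (nat_lit 132245) (.g (nat_lit 2126) (.e (nat_lit 16412) (nat_lit 2) (.e (nat_lit 196681) (nat_lit 17) (.e (nat_lit 131105) (nat_lit 9) (.e (nat_lit 336316) (nat_lit 17) (.e (nat_lit 196630) (nat_lit 9) (.e (nat_lit 7936) (nat_lit 93) (.e (nat_lit 106536) (nat_lit 11) .nil))))))) (.g (nat_lit 5) .nil .nil))) 
(.lf (nat_lit 132277) (.g (nat_lit 2715) (.e (nat_lit 16412) (nat_lit 2) (.e (nat_lit 196681) (nat_lit 17) (.e (nat_lit 131117) (nat_lit 10) (.e (nat_lit 344132) (nat_lit 26) (.e (nat_lit 557091) (nat_lit 12) (.e (nat_lit 164022) (nat_lit 46) (.e (nat_lit 704738) (nat_lit 11) .nil))))))) (.g (nat_lit 4) .nil .nil))))) (.nd (nat_lit 4) (.nd (nat_lit 5) 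
(.lf (nat_lit 132237) (.g (nat_lit 2919) (.e (nat_lit 16412) (nat_lit 2) (.e (nat_lit 196674) (nat_lit 15) (.e (nat_lit 81946) (nat_lit 20) (.e (nat_lit 1858) (nat_lit 124) (.e (nat_lit 557094) (nat_lit 12) (.e (nat_lit 171776) (nat_lit 46) (.e (nat_lit 704734) (nat_lit 11) .nil))))))) (.g (nat_lit 4) .nil .nil))) 
(.lf (nat_lit 132269) (.g (nat_lit 1983) (.e (nat_lit 16412) (nat_lit 2) (.e (nat_lit 196681) (nat_lit 17) (.e (nat_lit 131109) (nat_lit 9) (.e (nat_lit 336324) (nat_lit 18) (.e (nat_lit 204817) (nat_lit 17) (.e (nat_lit 2075) (nat_lit 142) (.e (nat_lit 704734) (nat_lit 11) .nil))))))) (.g (nat_lit 4) .nil .nil)))) (.nd (nat_lit 5) 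
(.lf (nat_lit 132253) (.g (nat_lit 1807) (.e (nat_lit 16412) (nat_lit 2) (.e (nat_lit 196681) (nat_lit 17) (.e (nat_lit 131105) (nat_lit 9) (.e (nat_lit 336324) (nat_lit 18) (.e (nat_lit 204817) (nat_lit 17) (.e (nat_lit 2075) (nat_lit 142) (.e (nat_lit 704734) (nat_lit 11) .nil))))))) (.g (nat_lit 4) .nil .nil))) 
(.lf (nat_lit 132285) (.g (nat_lit 1835) (.e (nat_lit 16412) (nat_lit 2) (.e (nat_lit 196681) (nat_lit 17) (.e (nat_lit 131120) (nat_lit 12) (.e (nat_lit 385066) (nat_lit 26) (.e (nat_lit 532484) (nat_lit 0) (.e (nat_lit 2044) (nat_lit 142) (.e (nat_lit 704734) (nat_lit 11) .nil))))))) (.g (nat_lit 4) .nil .nil))))))) (.nd (nat_lit 2) (.nd (nat_lit 3) (.nd (nat_lit 4) (.nd (nat_lit 5) 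
(.lf (nat_lit 132227) (.g (nat_lit 1278) (.e (nat_lit 16412) (nat_lit 2) (.e (nat_lit 196674) (nat_lit 15) (.e (nat_lit 81944) (nat_lit 20) (.e (nat_lit 1855) (nat_lit 124) (.e (nat_lit 557093) (nat_lit 12) (.e (nat_lit 171776) (nat_lit 46) (.e (nat_lit 704734) (nat_lit 11) .nil))))))) (.g (nat_lit 4) .nil .nil))) 
(.lf (nat_lit 132259) (.g (nat_lit 3330) (.e (nat_lit 16412) (nat_lit 2) (.e (nat_lit 196681) (nat_lit 17) (.e (nat_lit 131109) (nat_lit 9) (.e (nat_lit 335878) (nat_lit 0) (.e (nat_lit 1850) (nat_lit 124) (.e (nat_lit 557094) (nat_lit 12) (.e (nat_lit 164022) (nat_lit 46) (.e (nat_lit 704738) (nat_lit 11) .nil)))))))) (.g (nat_lit 8) .nil .nil)))) (.nd (nat_lit 5) 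
(.lf (nat_lit 132243) (.g (nat_lit 3100) (.e (nat_lit 16412) (nat_lit 2) (.e (nat_lit 196681) (nat_lit 17) (.e (nat_lit 131086) (nat_lit 1) (.e (nat_lit 57854) (nat_lit 252) (.e (nat_lit 57378) (nat_lit 3) (.e (nat_lit 98334) (nat_lit 18) (.e (nat_lit 164383) (nat_lit 254) (.e (nat_lit 1124) (nat_lit 83) .nil)))))))) (.g (nat_lit 5) .nil .nil))) 
(.lf (nat_lit 132275) (.g (nat_lit 1679) (.e (nat_lit 16412) (nat_lit 2) (.e (nat_lit 196681) (nat_lit 17) (.e (nat_lit 131109) (nat_lit 9) (.e (nat_lit 336326) (nat_lit 18) (.e (nat_lit 212736) (nat_lit 19) (.e (nat_lit 106536) (nat_lit 11) .nil)))))) (.g (nat_lit 4) .nil .nil))))) (.nd (nat_lit 4) (.nd (nat_lit 5) 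
(.lf (nat_lit 132235) (.g (nat_lit 3949) (.e (nat_lit 16412) (nat_lit 2) (.e (nat_lit 196674) (nat_lit 15) (.e (nat_lit 81946) (nat_lit 20) (.e (nat_lit 1858) (nat_lit 124) (.e (nat_lit 557093) (nat_lit 12) (.e (nat_lit 171776) (nat_lit 46) (.e (nat_lit 704734) (nat_lit 11) .nil))))))) (.g (nat_lit 5) .nil .nil))) 
(.lf (nat_lit 132267) (.g (nat_lit 2168) (.e (nat_lit 16412) (nat_lit 2) (.e (nat_lit 196681) (nat_lit 17) (.e (nat_lit 131109) (nat_lit 9) (.e (nat_lit 336320) (nat_lit 17) (.e (nat_lit 196628) (nat_lit 9) (.e (nat_lit 7936) (nat_lit 93) (.e (nat_lit 106536) (nat_lit 11) .nil))))))) (.g (nat_lit 4) .nil .nil)))) (.nd (nat_lit 5) 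
(.lf (nat_lit 132251) (.g (nat_lit 1845) (.e (nat_lit 16412) (nat_lit 2) (.e (nat_lit 196681) (nat_lit 17) (.e (nat_lit 131105) (nat_lit 9) (.e (nat_lit 336320) (nat_lit 17) (.e (nat_lit 196628) (nat_lit 9) (.e (nat_lit 7936) (nat_lit 93) (.e (nat_lit 106536) (nat_lit 11) .nil))))))) (.g (nat_lit 4) .nil .nil))) 
(.lf (nat_lit 132283) (.g (nat_lit 2366) (.e (nat_lit 16412) (nat_lit 2) (.e (nat_lit 196681) (nat_lit 17) (.e (nat_lit 131120) (nat_lit 12) (.e (nat_lit 385066) (nat_lit 26) (.e (nat_lit 532481) (nat_lit 0) (.e (nat_lit 2082) (nat_lit 142) (.e (nat_lit 704734) (nat_lit 11) .nil))))))) (.g (nat_lit 5) .nil .nil)))))) (.nd (nat_lit 3) (.nd (nat_lit 4) (.nd (nat_lit 5) 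
(.lf (nat_lit 132231) (.g (nat_lit 3229) (.e (nat_lit 16412) (nat_lit 2) (.e (nat_lit 196674) (nat_lit 15) (.e (nat_lit 81946) (nat_lit 20) (.e (nat_lit 1858) (nat_lit 124) (.e (nat_lit 557091) (nat_lit 12) (.e (nat_lit 171776) (nat_lit 46) (.e (nat_lit 704734) (nat_lit 11) .nil))))))) (.g (nat_lit 5) .nil .nil))) 
(.lf (nat_lit 132263) (.g (nat_lit 2196) (.e (nat_lit 16412) (nat_lit 2) (.e (nat_lit 196681) (nat_lit 17) (.e (nat_lit 131109) (nat_lit 9) (.e (nat_lit 336316) (nat_lit 17) (.e (nat_lit 196661) (nat_lit 12) (.e (nat_lit 57531) (nat_lit 46) (.e (nat_lit 712448) (nat_lit 11) .nil))))))) (.g (nat_lit 4) .nil .nil)))) (.nd (nat_lit 5) 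
(.lf (nat_lit 132247) (.g (nat_lit 1942) (.e (nat_lit 16412) (nat_lit 2) (.e (nat_lit 196681) (nat_lit 17) (.e (nat_lit 131105) (nat_lit 9) (.e (nat_lit 336316) (nat_lit 17) (.e (nat_lit 196661) (nat_lit 12) (.e (nat_lit 57531) (nat_lit 46) (.e (nat_lit 712448) (nat_lit 11) .nil))))))) (.g (nat_lit 4) .nil .nil))) 
(.lf (nat_lit 132279) (.g (nat_lit 4319) (.e (nat_lit 16412) (nat_lit 2) (.e (nat_lit 196681) (nat_lit 17) (.e (nat_lit 131117) (nat_lit 10) (.e (nat_lit 344132) (nat_lit 26) (.e (nat_lit 557094) (nat_lit 12) (.e (nat_lit 164022) (nat_lit 46) (.e (nat_lit 704738) (nat_lit 11) .nil))))))) (.g (nat_lit 7) .nil .nil))))) (.nd (nat_lit 4) (.nd (nat_lit 5) 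
(.lf (nat_lit 132239) (.g (nat_lit 592) (.e (nat_lit 16412) (nat_lit 2) (.e (nat_lit 196674) (nat_lit 15) (.e (nat_lit 81947) (nat_lit 20) .nil))) .nil)) 
(.lf (nat_lit 132271) (.g (nat_lit 2311) (.e (nat_lit 16412) (nat_lit 2) (.e (nat_lit 196681) (nat_lit 17) (.e (nat_lit 131109) (nat_lit 9) (.e (nat_lit 336324) (nat_lit 18) (.e (nat_lit 204819) (nat_lit 17) (.e (nat_lit 2143) (nat_lit 142) (.e (nat_lit 704741) (nat_lit 11) .nil))))))) (.g (nat_lit 4) .nil .nil)))) (.nd (nat_lit 5) 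
(.lf (nat_lit 132255) (.g (nat_lit 1803) (.e (nat_lit 16412) (nat_lit 2) (.e (nat_lit 196681) (nat_lit 17) (.e (nat_lit 131105) (nat_lit 9) (.e (nat_lit 336324) (nat_lit 18) (.e (nat_lit 204820) (nat_lit 17) (.e (nat_lit 2044) (nat_lit 142) (.e (nat_lit 704734) (nat_lit 11) .nil))))))) (.g (nat_lit 4) .nil .nil))) 
(.lf (nat_lit 132287) (.g (nat_lit 1161) (.e (nat_lit 16412) (nat_lit 2) (.e (nat_lit 196681) (nat_lit 17) (.e (nat_lit 131120) (nat_lit 12) (.e (nat_lit 385066) (nat_lit 26) (.e (nat_lit 540416) (nat_lit 2) (.e (nat_lit 106536) (nat_lit 11) .nil)))))) (.g (nat_lit 4) .nil .nil)))))))))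

noncomputable def tv1764 : DT := (.nd (nat_lit 0) (.nd (nat_lit 1) (.nd (nat_lit 2) (.nd (nat_lit 3) (.nd (nat_lit 4) (.nd (nat_lit 5) 
(.lf (nat_lit 132288) (.g (nat_lit 2046) (.e (nat_lit 16412) (nat_lit 2) (.e (nat_lit 196681) (nat_lit 17) (.e (nat_lit 131120) (nat_lit 12) (.e (nat_lit 385068) (nat_lit 26) (.e (nat_lit 532483) (nat_lit 0) (.e (nat_lit 2044) (nat_lit 142) (.e (nat_lit 704734) (nat_lit 11) .nil))))))) (.g (nat_lit 4) .nil .nil))) 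
(.lf (nat_lit 132320) (.g (nat_lit 2598) (.e (nat_lit 16413) (nat_lit 2) (.e (nat_lit 196666) (nat_lit 13) (.e (nat_lit 65610) (nat_lit 10) (.e (nat_lit 344129) (nat_lit 26) (.e (nat_lit 557089) (nat_lit 12) .nil))))) .nil))) (.nd (nat_lit 5) 
(.lf (nat_lit 132304) (.g (nat_lit 2050) (.e (nat_lit 16412) (nat_lit 2) (.e (nat_lit 196681) (nat_lit 17) (.e (nat_lit 131123) (nat_lit 12) (.e (nat_lit 385068) (nat_lit 26) (.e (nat_lit 532511) (nat_lit 2) (.e (nat_lit 106535) (nat_lit 11) .nil)))))) (.g (nat_lit 5) .nil .nil))) 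
(.lf (nat_lit 132336) (.g (nat_lit 4179) (.e (nat_lit 16413) (nat_lit 2) (.e (nat_lit 196666) (nat_lit 13) (.e (nat_lit 65617) (nat_lit 10) (.e (nat_lit 344130) (nat_lit 26) (.e (nat_lit 557090) (nat_lit 12) (.e (nat_lit 164022) (nat_lit 46) (.e (nat_lit 712448) (nat_lit 11) .nil))))))) (.g (nat_lit 6) .nil .nil))))) (.nd (nat_lit 4) (.nd (nat_lit 5) 
(.lf (nat_lit 132296) (.g (nat_lit 1829) (.e (nat_lit 16412) (nat_lit 2) (.e (nat_lit 196681) (nat_lit 17) (.e (nat_lit 131123) (nat_lit 12) (.e (nat_lit 385066) (nat_lit 26) (.e (nat_lit 532481) (nat_lit 0) (.e (nat_lit 2095) (nat_lit 142) (.e (nat_lit 704734) (nat_lit 11) .nil))))))) (.g (nat_lit 4) .nil .nil))) 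
(.lf (nat_lit 132328) (.g (nat_lit 1043) (.e (nat_lit 16413) (nat_lit 2) (.e (nat_lit 196666) (nat_lit 13) (.e (nat_lit 65617) (nat_lit 10) (.e (nat_lit 344127) (nat_lit 26) .nil)))) .nil))) (.nd (nat_lit 5) 
(.lf (nat_lit 132312) (.g (nat_lit 3221) (.e (nat_lit 16413) (nat_lit 2) (.e (nat_lit 196666) (nat_lit 13) (.e (nat_lit 65610) (nat_lit 10) (.e (nat_lit 344117) (nat_lit 21) (.e (nat_lit 516099) (nat_lit 0) .nil))))) .nil)) 
(.lf (nat_lit 132344) (.g (nat_lit 2693) (.e (nat_lit 16413) (nat_lit 2) (.e (nat_lit 196666) (nat_lit 13) (.e (nat_lit 65617) (nat_lit 10) (.e (nat_lit 344132) (nat_lit 26) (.e (nat_lit 557093) (nat_lit 12) (.e (nat_lit 164022) (nat_lit 46) (.e (nat_lit 704732) (nat_lit 11) .nil))))))) (.g (nat_lit 5) .nil .nil)))))) (.nd (nat_lit 3) (.nd (nat_lit 4) (.nd (nat_lit 5) 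
(.lf (nat_lit 132292) (.g (nat_lit 2549) (.e (nat_lit 16412) (nat_lit 2) (.e (nat_lit 196681) (nat_lit 17) (.e (nat_lit 131120) (nat_lit 12) (.e (nat_lit 385068) (nat_lit 26) (.e (nat_lit 532510) (nat_lit 2) (.e (nat_lit 106534) (nat_lit 11) .nil)))))) (.g (nat_lit 0) .nil .nil))) 
(.lf (nat_lit 132324) (.g (nat_lit 3281) (.e (nat_lit 16413) (nat_lit 2) (.e (nat_lit 196666) (nat_lit 13) (.e (nat_lit 65610) (nat_lit 10) (.e (nat_lit 344129) (nat_lit 26) (.e (nat_lit 557090) (nat_lit 12) (.e (nat_lit 171776) (nat_lit 46) (.e (nat_lit 704734) (nat_lit 11) .nil))))))) (.g (nat_lit 5) .nil .nil)))) (.nd (nat_lit 5) 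
(.lf (nat_lit 132308) (.g (nat_lit 2551) (.e (nat_lit 16413) (nat_lit 2) (.e (nat_lit 196665) (nat_lit 13) (.e (nat_lit 65623) (nat_lit 12) (.e (nat_lit 385068) (nat_lit 26) (.e (nat_lit 532508) (nat_lit 2) (.e (nat_lit 106534) (nat_lit 11) .nil)))))) (.g (nat_lit 5) .nil .nil))) 
(.lf (nat_lit 132340) (.g (nat_lit 1281) (.e (nat_lit 16413) (nat_lit 2) (.e (nat_lit 196666) (nat_lit 13) (.e (nat_lit 65617) (nat_lit 10) (.e (nat_lit 344132) (nat_lit 26) .nil)))) .nil)))) (.nd (nat_lit 4) (.nd (nat_lit 5) 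
(.lf (nat_lit 132300) (.g (nat_lit 1810) (.e (nat_lit 16412) (nat_lit 2) (.e (nat_lit 196681) (nat_lit 17) (.e (nat_lit 131123) (nat_lit 12) (.e (nat_lit 385068) (nat_lit 26) (.e (nat_lit 532483) (nat_lit 0) (.e (nat_lit 2078) (nat_lit 142) (.e (nat_lit 704734) (nat_lit 11) .nil))))))) (.g (nat_lit 4) .nil .nil))) 
(.lf (nat_lit 132332) (.g (nat_lit 3429) (.e (nat_lit 16413) (nat_lit 2) (.e (nat_lit 196666) (nat_lit 13) (.e (nat_lit 65617) (nat_lit 10) (.e (nat_lit 344130) (nat_lit 26) (.e (nat_lit 557090) (nat_lit 12) (.e (nat_lit 164021) (nat_lit 46) (.e (nat_lit 704741) (nat_lit 11) .nil))))))) (.g (nat_lit 0) .nil .nil)))) (.nd (nat_lit 5) 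
(.lf (nat_lit 132316) (.g (nat_lit 3946) (.e (nat_lit 16413) (nat_lit 2) (.e (nat_lit 196666) (nat_lit 13) (.e (nat_lit 65610) (nat_lit 10) (.e (nat_lit 344117) (nat_lit 21) (.e (nat_lit 516116) (nat_lit 1) (.e (nat_lit 171776) (nat_lit 278) (.e (nat_lit 1125) (nat_lit 83) .nil))))))) (.g (nat_lit 5) .nil .nil))) 
(.lf (nat_lit 132348) (.g (nat_lit 3608) (.e (nat_lit 16413) (nat_lit 2) (.e (nat_lit 196666) (nat_lit 13) (.e (nat_lit 65617) (nat_lit 10) (.e (nat_lit 344132) (nat_lit 26) (.e (nat_lit 557093) (nat_lit 12) (.e (nat_lit 164022) (nat_lit 46) (.e (nat_lit 712448) (nat_lit 11) .nil))))))) (.g (nat_lit 6) .nil .nil))))))) (.nd (nat_lit 2) (.nd (nat_lit 3) (.nd (nat_lit 4) (.nd (nat_lit 5) 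
(.lf (nat_lit 132290) (.g (nat_lit 1733) (.e (nat_lit 16412) (nat_lit 2) (.e (nat_lit 196681) (nat_lit 17) (.e (nat_lit 131120) (nat_lit 12) (.e (nat_lit 385068) (nat_lit 26) (.e (nat_lit 532489) (nat_lit 0) (.e (nat_lit 2044) (nat_lit 142) (.e (nat_lit 704734) (nat_lit 11) .nil))))))) (.g (nat_lit 4) .nil .nil))) 
(.lf (nat_lit 132322) (.g (nat_lit 2975) (.e (nat_lit 16413) (nat_lit 2) (.e (nat_lit 196666) (nat_lit 13) (.e (nat_lit 65610) (nat_lit 10) (.e (nat_lit 344129) (nat_lit 26) (.e (nat_lit 557090) (nat_lit 12) (.e (nat_lit 164021) (nat_lit 46) (.e (nat_lit 704741) (nat_lit 11) .nil))))))) (.g (nat_lit 5) .nil .nil)))) (.nd (nat_lit 5) 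
(.lf (nat_lit 132306) (.g (nat_lit 1051) (.e (nat_lit 16413) (nat_lit 2) (.e (nat_lit 196664) (nat_lit 13) (.e (nat_lit 65624) (nat_lit 12) (.e (nat_lit 385068) (nat_lit 26) .nil)))) .nil)) 
(.lf (nat_lit 132338) (.g (nat_lit 2138) (.e (nat_lit 16413) (nat_lit 2) (.e (nat_lit 196666) (nat_lit 13) (.e (nat_lit 65617) (nat_lit 10) (.e (nat_lit 344130) (nat_lit 26) (.e (nat_lit 557090) (nat_lit 12) (.e (nat_lit 171776) (nat_lit 46) (.e (nat_lit 704741) (nat_lit 11) .nil))))))) (.g (nat_lit 4) .nil .nil))))) (.nd (nat_lit 4) (.nd (nat_lit 5) 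
(.lf (nat_lit 132298) (.g (nat_lit 1296) (.e (nat_lit 16412) (nat_lit 2) (.e (nat_lit 196681) (nat_lit 17) (.e (nat_lit 131123) (nat_lit 12) (.e (nat_lit 385066) (nat_lit 26) (.e (nat_lit 540416) (nat_lit 2) (.e (nat_lit 106536) (nat_lit 11) .nil)))))) (.g (nat_lit 4) .nil .nil))) 
(.lf (nat_lit 132330) (.g (nat_lit 1222) (.e (nat_lit 16413) (nat_lit 2) (.e (nat_lit 196666) (nat_lit 13) (.e (nat_lit 65617) (nat_lit 10) (.e (nat_lit 344130) (nat_lit 26) .nil)))) .nil))) (.nd (nat_lit 5) 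
(.lf (nat_lit 132314) (.g (nat_lit 2743) (.e (nat_lit 16413) (nat_lit 2) (.e (nat_lit 196666) (nat_lit 13) (.e (nat_lit 65610) (nat_lit 10) (.e (nat_lit 344117) (nat_lit 21) (.e (nat_lit 516116) (nat_lit 1) .nil))))) .nil)) 
(.lf (nat_lit 132346) (.g (nat_lit 3870) (.e (nat_lit 16413) (nat_lit 2) (.e (nat_lit 196666) (nat_lit 13) (.e (nat_lit 65617) (nat_lit 10) (.e (nat_lit 344132) (nat_lit 26) (.e (nat_lit 557093) (nat_lit 12) (.e (nat_lit 164022) (nat_lit 46) (.e (nat_lit 704736) (nat_lit 11) .nil))))))) (.g (nat_lit 7) .nil .nil)))))) (.nd (nat_lit 3) (.nd (nat_lit 4) (.nd (nat_lit 5) 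
(.lf (nat_lit 132294) (.g (nat_lit 1139) (.e (nat_lit 16412) (nat_lit 2) (.e (nat_lit 196681) (nat_lit 17) (.e (nat_lit 131122) (nat_lit 12) .nil))) .nil)) 
(.lf (nat_lit 132326) (.g (nat_lit 1996) (.e (nat_lit 16413) (nat_lit 2) (.e (nat_lit 196666) (nat_lit 13) (.e (nat_lit 65610) (nat_lit 10) (.e (nat_lit 344138) (nat_lit 29) .nil)))) .nil))) (.nd (nat_lit 5) 
(.lf (nat_lit 132310) (.g (nat_lit 2952) (.e (nat_lit 16413) (nat_lit 2) (.e (nat_lit 196665) (nat_lit 13) (.e (nat_lit 65623) (nat_lit 12) (.e (nat_lit 385068) (nat_lit 26) (.e (nat_lit 532511) (nat_lit 2) (.e (nat_lit 106536) (nat_lit 11) .nil)))))) (.g (nat_lit 0) .nil .nil))) 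
(.lf (nat_lit 132342) (.g (nat_lit 2209) (.e (nat_lit 16413) (nat_lit 2) (.e (nat_lit 196666) (nat_lit 13) (.e (nat_lit 65617) (nat_lit 10) (.e (nat_lit 344132) (nat_lit 26) (.e (nat_lit 557093) (nat_lit 12) .nil))))) .nil)))) (.nd (nat_lit 4) (.nd (nat_lit 5) 
(.lf (nat_lit 132302) (.g (nat_lit 2981) (.e (nat_lit 16412) (nat_lit 2) (.e (nat_lit 196681) (nat_lit 17) (.e (nat_lit 131123) (nat_lit 12) (.e (nat_lit 385068) (nat_lit 26) (.e (nat_lit 532506) (nat_lit 2) (.e (nat_lit 106536) (nat_lit 11) .nil)))))) (.g (nat_lit 0) .nil .nil))) 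
(.lf (nat_lit 132334) (.g (nat_lit 4154) (.e (nat_lit 16413) (nat_lit 2) (.e (nat_lit 196666) (nat_lit 13) (.e (nat_lit 65617) (nat_lit 10) (.e (nat_lit 344130) (nat_lit 26) (.e (nat_lit 557090) (nat_lit 12) (.e (nat_lit 164022) (nat_lit 46) (.e (nat_lit 704736) (nat_lit 11) .nil))))))) (.g (nat_lit 7) .nil .nil)))) (.nd (nat_lit 5) 
(.lf (nat_lit 132318) (.g (nat_lit 2765) (.e (nat_lit 16413) (nat_lit 2) (.e (nat_lit 196666) (nat_lit 13) (.e (nat_lit 65610) (nat_lit 10) (.e (nat_lit 344129) (nat_lit 26) (.e (nat_lit 557069) (nat_lit 9) .nil))))) .nil)) 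
(.lf (nat_lit 132350) (.g (nat_lit 4332) (.e (nat_lit 16413) (nat_lit 2) (.e (nat_lit 196666) (nat_lit 13) (.e (nat_lit 65617) (nat_lit 10) (.e (nat_lit 344132) (nat_lit 26) (.e (nat_lit 557093) (nat_lit 12) (.e (nat_lit 164023) (nat_lit 46) (.e (nat_lit 704735) (nat_lit 11) .nil))))))) (.g (nat_lit 7) .nil .nil)))))))) 
(.nd (nat_lit 1) (.nd (nat_lit 2) (.nd (nat_lit 3) (.nd (nat_lit 4) (.nd (nat_lit 5) 
(.lf (nat_lit 132289) (.g (nat_lit 1679) (.e (nat_lit 16412) (nat_lit 2) (.e (nat_lit 196681) (nat_lit 17) (.e (nat_lit 131120) (nat_lit 12) (.e (nat_lit 385068) (nat_lit 26) (.e (nat_lit 532483) (nat_lit 0) (.e (nat_lit 2078) (nat_lit 142) (.e (nat_lit 704734) (nat_lit 11) .nil))))))) (.g (nat_lit 4) .nil .nil))) 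
(.lf (nat_lit 132321) (.g (nat_lit 2187) (.e (nat_lit 16413) (nat_lit 2) (.e (nat_lit 196666) (nat_lit 13) (.e (nat_lit 65610) (nat_lit 10) (.e (nat_lit 344129) (nat_lit 26) (.e (nat_lit 557090) (nat_lit 12) .nil))))) .nil))) (.nd (nat_lit 5) 
(.lf (nat_lit 132305) (.g (nat_lit 1644) (.e (nat_lit 16412) (nat_lit 2) (.e (nat_lit 196681) (nat_lit 17) (.e (nat_lit 131123) (nat_lit 12) (.e (nat_lit 385068) (nat_lit 26) (.e (nat_lit 540416) (nat_lit 2) (.e (nat_lit 106536) (nat_lit 11) .nil)))))) (.g (nat_lit 4) .nil .nil))) 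
(.lf (nat_lit 132337) (.g (nat_lit 2945) (.e (nat_lit 16413) (nat_lit 2) (.e (nat_lit 196666) (nat_lit 13) (.e (nat_lit 65617) (nat_lit 10) (.e (nat_lit 344130) (nat_lit 26) (.e (nat_lit 557090) (nat_lit 12) (.e (nat_lit 171776) (nat_lit 46) (.e (nat_lit 704733) (nat_lit 11) .nil))))))) (.g (nat_lit 5) .nil .nil))))) (.nd (nat_lit 4) (.nd (nat_lit 5) 
(.lf (nat_lit 132297) (.g (nat_lit 2087) (.e (nat_lit 16412) (nat_lit 2) (.e (nat_lit 196681) (nat_lit 17) (.e (nat_lit 131123) (nat_lit 12) (.e (nat_lit 385066) (nat_lit 26) (.e (nat_lit 532511) (nat_lit 2) (.e (nat_lit 106535) (nat_lit 11) .nil)))))) (.g (nat_lit 5) .nil .nil))) 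
(.lf (nat_lit 132329) (.g (nat_lit 1396) (.e (nat_lit 16413) (nat_lit 2) (.e (nat_lit 196666) (nat_lit 13) (.e (nat_lit 65617) (nat_lit 10) (.e (nat_lit 344127) (nat_lit 26) (.e (nat_lit 557092) (nat_lit 12) .nil))))) .nil))) (.nd (nat_lit 5) 
(.lf (nat_lit 132313) (.g (nat_lit 2273) (.e (nat_lit 16413) (nat_lit 2) (.e (nat_lit 196666) (nat_lit 13) (.e (nat_lit 65610) (nat_lit 10) (.e (nat_lit 344117) (nat_lit 21) (.e (nat_lit 516106) (nat_lit 0) (.e (nat_lit 2478) (nat_lit 157) (.e (nat_lit 4722) (nat_lit 275) (.e (nat_lit 1122) (nat_lit 83) .nil)))))))) (.g (nat_lit 4) .nil .nil))) 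
(.lf (nat_lit 132345) (.g (nat_lit 3357) (.e (nat_lit 16413) (nat_lit 2) (.e (nat_lit 196666) (nat_lit 13) (.e (nat_lit 65617) (nat_lit 10) (.e (nat_lit 344132) (nat_lit 26) (.e (nat_lit 557093) (nat_lit 12) (.e (nat_lit 164022) (nat_lit 46) (.e (nat_lit 704735) (nat_lit 11) .nil))))))) (.g (nat_lit 6) .nil .nil)))))) (.nd (nat_lit 3) (.nd (nat_lit 4) (.nd (nat_lit 5) 
(.lf (nat_lit 132293) (.g (nat_lit 1527) (.e (nat_lit 16412) (nat_lit 2) (.e (nat_lit 196681) (nat_lit 17) (.e (nat_lit 131120) (nat_lit 12) (.e (nat_lit 385068) (nat_lit 26) (.e (nat_lit 540416) (nat_lit 2) (.e (nat_lit 106536) (nat_lit 11) .nil)))))) (.g (nat_lit 4) .nil .nil))) 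
(.lf (nat_lit 132325) (.g (nat_lit 2335) (.e (nat_lit 16413) (nat_lit 2) (.e (nat_lit 196666) (nat_lit 13) (.e (nat_lit 65610) (nat_lit 10) (.e (nat_lit 344129) (nat_lit 26) (.e (nat_lit 557090) (nat_lit 12) (.e (nat_lit 171776) (nat_lit 46) (.e (nat_lit 704741) (nat_lit 11) .nil))))))) (.g (nat_lit 4) .nil .nil)))) (.nd (nat_lit 5) 
(.lf (nat_lit 132309) (.g (nat_lit 2600) (.e (nat_lit 16413) (nat_lit 2) (.e (nat_lit 196665) (nat_lit 13) (.e (nat_lit 65623) (nat_lit 12) (.e (nat_lit 385068) (nat_lit 26) (.e (nat_lit 532510) (nat_lit 2) (.e (nat_lit 106534) (nat_lit 11) .nil)))))) (.g (nat_lit 6) .nil .nil))) 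
(.lf (nat_lit 132341) (.g (nat_lit 2133) (.e (nat_lit 16413) (nat_lit 2) (.e (nat_lit 196666) (nat_lit 13) (.e (nat_lit 65617) (nat_lit 10) (.e (nat_lit 344132) (nat_lit 26) (.e (nat_lit 557073) (nat_lit 9) .nil))))) .nil)))) (.nd (nat_lit 4) (.nd (nat_lit 5) 
(.lf (nat_lit 132301) (.g (nat_lit 1840) (.e (nat_lit 16412) (nat_lit 2) (.e (nat_lit 196681) (nat_lit 17) (.e (nat_lit 131123) (nat_lit 12) (.e (nat_lit 385068) (nat_lit 26) (.e (nat_lit 532489) (nat_lit 0) (.e (nat_lit 2044) (nat_lit 142) (.e (nat_lit 704734) (nat_lit 11) .nil))))))) (.g (nat_lit 4) .nil .nil))) 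
(.lf (nat_lit 132333) (.g (nat_lit 3663) (.e (nat_lit 16413) (nat_lit 2) (.e (nat_lit 196666) (nat_lit 13) (.e (nat_lit 65617) (nat_lit 10) (.e (nat_lit 344130) (nat_lit 26) (.e (nat_lit 557090) (nat_lit 12) (.e (nat_lit 164022) (nat_lit 46) (.e (nat_lit 704735) (nat_lit 11) .nil))))))) (.g (nat_lit 6) .nil .nil)))) (.nd (nat_lit 5) 
(.lf (nat_lit 132317) (.g (nat_lit 3970) (.e (nat_lit 16413) (nat_lit 2) (.e (nat_lit 196666) (nat_lit 13) (.e (nat_lit 65610) (nat_lit 10) (.e (nat_lit 344117) (nat_lit 21) (.e (nat_lit 516116) (nat_lit 1) (.e (nat_lit 171776) (nat_lit 278) (.e (nat_lit 1131) (nat_lit 83) .nil))))))) (.g (nat_lit 5) .nil .nil))) 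
(.lf (nat_lit 132349) (.g (nat_lit 4098) (.e (nat_lit 16413) (nat_lit 2) (.e (nat_lit 196666) (nat_lit 13) (.e (nat_lit 65617) (nat_lit 10) (.e (nat_lit 344132) (nat_lit 26) (.e (nat_lit 557093) (nat_lit 12) (.e (nat_lit 164023) (nat_lit 46) (.e (nat_lit 704732) (nat_lit 11) .nil))))))) (.g (nat_lit 7) .nil .nil))))))) (.nd (nat_lit 2) (.nd (nat_lit 3) (.nd (nat_lit 4) (.nd (nat_lit 5) 
(.lf (nat_lit 132291) (.g (nat_lit 2869) (.e (nat_lit 16412) (nat_lit 2) (.e (nat_lit 196681) (nat_lit 17) (.e (nat_lit 131120) (nat_lit 12) (.e (nat_lit 385068) (nat_lit 26) (.e (nat_lit 532506) (nat_lit 2) (.e (nat_lit 106536) (nat_lit 11) .nil)))))) (.g (nat_lit 0) .nil .nil))) 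
(.lf (nat_lit 132323) (.g (nat_lit 2502) (.e (nat_lit 16413) (nat_lit 2) (.e (nat_lit 196666) (nat_lit 13) (.e (nat_lit 65610) (nat_lit 10) (.e (nat_lit 344129) (nat_lit 26) (.e (nat_lit 557090) (nat_lit 12) (.e (nat_lit 171776) (nat_lit 46) (.e (nat_lit 704733) (nat_lit 11) .nil))))))) (.g (nat_lit 4) .nil .nil)))) (.nd (nat_lit 5) 
(.lf (nat_lit 132307) (.g (nat_lit 813) (.e (nat_lit 16413) (nat_lit 2) (.e (nat_lit 196665) (nat_lit 13) (.e (nat_lit 65623) (nat_lit 12) (.e (nat_lit 385066) (nat_lit 26) .nil)))) .nil)) 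
(.lf (nat_lit 132339) (.g (nat_lit 2462) (.e (nat_lit 16413) (nat_lit 2) (.e (nat_lit 196666) (nat_lit 13) (.e (nat_lit 65617) (nat_lit 10) (.e (nat_lit 344130) (nat_lit 26) (.e (nat_lit 557090) (nat_lit 12) (.e (nat_lit 171776) (nat_lit 46) (.e (nat_lit 712448) (nat_lit 11) .nil))))))) (.g (nat_lit 4) .nil .nil))))) (.nd (nat_lit 4) (.nd (nat_lit 5) 
(.lf (nat_lit 132299) (.g (nat_lit 2177) (.e (nat_lit 16412) (nat_lit 2) (.e (nat_lit 196681) (nat_lit 17) (.e (nat_lit 131123) (nat_lit 12) (.e (nat_lit 385068) (nat_lit 26) (.e (nat_lit 532483) (nat_lit 0) (.e (nat_lit 2044) (nat_lit 142) (.e (nat_lit 704734) (nat_lit 11) .nil))))))) (.g (nat_lit 4) .nil .nil))) 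
(.lf (nat_lit 132331) (.g (nat_lit 1913) (.e (nat_lit 16413) (nat_lit 2) (.e (nat_lit 196666) (nat_lit 13) (.e (nat_lit 65617) (nat_lit 10) (.e (nat_lit 344130) (nat_lit 26) (.e (nat_lit 557089) (nat_lit 12) .nil))))) .nil))) (.nd (nat_lit 5) 
(.lf (nat_lit 132315) (.g (nat_lit 3123) (.e (nat_lit 16413) (nat_lit 2) (.e (nat_lit 196666) (nat_lit 13) (.e (nat_lit 65610) (nat_lit 10) (.e (nat_lit 344117) (nat_lit 21) (.e (nat_lit 516116) (nat_lit 1) (.e (nat_lit 164428) (nat_lit 278) (.e (nat_lit 1122) (nat_lit 83) .nil))))))) (.g (nat_lit 4) .nil .nil))) 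
(.lf (nat_lit 132347) (.g (nat_lit 4086) (.e (nat_lit 16413) (nat_lit 2) (.e (nat_lit 196666) (nat_lit 13) (.e (nat_lit 65617) (nat_lit 10) (.e (nat_lit 344132) (nat_lit 26) (.e (nat_lit 557093) (nat_lit 12) (.e (nat_lit 164022) (nat_lit 46) (.e (nat_lit 704737) (nat_lit 11) .nil))))))) (.g (nat_lit 7) .nil .nil)))))) (.nd (nat_lit 3) (.nd (nat_lit 4) (.nd (nat_lit 5) 
(.lf (nat_lit 132295) (.g (nat_lit 2515) (.e (nat_lit 16412) (nat_lit 2) (.e (nat_lit 196681) (nat_lit 17) (.e (nat_lit 131123) (nat_lit 12) (.e (nat_lit 385066) (nat_lit 26) (.e (nat_lit 532481) (nat_lit 0) (.e (nat_lit 2082) (nat_lit 142) (.e (nat_lit 704734) (nat_lit 11) .nil))))))) (.g (nat_lit 5) .nil .nil))) 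
(.lf (nat_lit 132327) (.g (nat_lit 406) (.e (nat_lit 16413) (nat_lit 2) (.e (nat_lit 196666) (nat_lit 13) (.e (nat_lit 65617) (nat_lit 10) .nil))) .nil))) (.nd (nat_lit 5) 
(.lf (nat_lit 132311) (.g (nat_lit 796) (.e (nat_lit 16413) (nat_lit 2) (.e (nat_lit 196666) (nat_lit 13) (.e (nat_lit 65592) (nat_lit 9) .nil))) .nil)) 
(.lf (nat_lit 132343) (.g (nat_lit 2886) (.e (nat_lit 16413) (nat_lit 2) (.e (nat_lit 196666) (nat_lit 13) (.e (nat_lit 65617) (nat_lit 10) (.e (nat_lit 344132) (nat_lit 26) (.e (nat_lit 557093) (nat_lit 12) (.e (nat_lit 164021) (nat_lit 46) (.e (nat_lit 704741) (nat_lit 11) .nil))))))) (.g (nat_lit 5) .nil .nil))))) (.nd (nat_lit 4) (.nd (nat_lit 5) 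
(.lf (nat_lit 132303) (.g (nat_lit 2660) (.e (nat_lit 16412) (nat_lit 2) (.e (nat_lit 196681) (nat_lit 17) (.e (nat_lit 131123) (nat_lit 12) (.e (nat_lit 385068) (nat_lit 26) (.e (nat_lit 532510) (nat_lit 2) (.e (nat_lit 106534) (nat_lit 11) .nil)))))) (.g (nat_lit 0) .nil .nil))) 
(.lf (nat_lit 132335) (.g (nat_lit 4360) (.e (nat_lit 16413) (nat_lit 2) (.e (nat_lit 196666) (nat_lit 13) (.e (nat_lit 65617) (nat_lit 10) (.e (nat_lit 344130) (nat_lit 26) (.e (nat_lit 557090) (nat_lit 12) (.e (nat_lit 164022) (nat_lit 46) (.e (nat_lit 704737) (nat_lit 11) .nil))))))) (.g (nat_lit 7) .nil .nil)))) (.nd (nat_lit 5) 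
(.lf (nat_lit 132319) (.g (nat_lit 3671) (.e (nat_lit 16413) (nat_lit 2) (.e (nat_lit 196666) (nat_lit 13) (.e (nat_lit 65610) (nat_lit 10) (.e (nat_lit 344129) (nat_lit 26) (.e (nat_lit 557072) (nat_lit 9) .nil))))) .nil)) 
(.lf (nat_lit 132351) (.g (nat_lit 4781) (.e (nat_lit 16413) (nat_lit 2) (.e (nat_lit 196666) (nat_lit 13) (.e (nat_lit 65617) (nat_lit 10) (.e (nat_lit 344132) (nat_lit 26) (.e (nat_lit 557093) (nat_lit 12) (.e (nat_lit 164023) (nat_lit 46) (.e (nat_lit 704737) (nat_lit 11) .nil))))))) (.g (nat_lit 7) .nil .nil)))))))))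

noncomputable def tv1765 : DT := (.nd (nat_lit 0) (.nd (nat_lit 1) (.nd (nat_lit 2) (.nd (nat_lit 3) (.nd (nat_lit 4) (.nd (nat_lit 5) 
(.lf (nat_lit 132352) (.g (nat_lit 3846) (.e (nat_lit 16413) (nat_lit 2) (.e (nat_lit 196666) (nat_lit 13) (.e (nat_lit 65617) (nat_lit 10) (.e (nat_lit 344132) (nat_lit 26) (.e (nat_lit 557093) (nat_lit 12) (.e (nat_lit 164023) (nat_lit 46) (.e (nat_lit 712448) (nat_lit 11) .nil))))))) (.g (nat_lit 6) .nil .nil))) 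
(.lf (nat_lit 132384) (.g (nat_lit 2536) (.e (nat_lit 16413) (nat_lit 2) (.e (nat_lit 196666) (nat_lit 13) (.e (nat_lit 65622) (nat_lit 12) (.e (nat_lit 385068) (nat_lit 26) (.e (nat_lit 532511) (nat_lit 2) (.e (nat_lit 106534) (nat_lit 11) .nil)))))) (.g (nat_lit 0) .nil .nil)))) (.nd (nat_lit 5) 
(.lf (nat_lit 132368) (.g (nat_lit 4145) (.e (nat_lit 16413) (nat_lit 2) (.e (nat_lit 196666) (nat_lit 13) (.e (nat_lit 65617) (nat_lit 10) (.e (nat_lit 344133) (nat_lit 26) (.e (nat_lit 557091) (nat_lit 12) (.e (nat_lit 164022) (nat_lit 46) (.e (nat_lit 704736) (nat_lit 11) .nil))))))) (.g (nat_lit 7) .nil .nil))) 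
(.lf (nat_lit 132400) (.g (nat_lit 514) (.e (nat_lit 16413) (nat_lit 2) (.e (nat_lit 196672) (nat_lit 15) (.e (nat_lit 81943) (nat_lit 20) .nil))) .nil)))) (.nd (nat_lit 4) (.nd (nat_lit 5) 
(.lf (nat_lit 132360) (.g (nat_lit 3258) (.e (nat_lit 16413) (nat_lit 2) (.e (nat_lit 196666) (nat_lit 13) (.e (nat_lit 65617) (nat_lit 10) (.e (nat_lit 344132) (nat_lit 26) (.e (nat_lit 557094) (nat_lit 12) (.e (nat_lit 164022) (nat_lit 46) (.e (nat_lit 712448) (nat_lit 11) .nil))))))) (.g (nat_lit 6) .nil .nil))) 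
(.lf (nat_lit 132392) (.g (nat_lit 2126) (.e (nat_lit 16413) (nat_lit 2) (.e (nat_lit 196666) (nat_lit 13) (.e (nat_lit 65624) (nat_lit 12) (.e (nat_lit 385068) (nat_lit 26) (.e (nat_lit 532508) (nat_lit 2) .nil))))) .nil))) (.nd (nat_lit 5) 
(.lf (nat_lit 132376) (.g (nat_lit 1946) (.e (nat_lit 16413) (nat_lit 2) (.e (nat_lit 196666) (nat_lit 13) (.e (nat_lit 65622) (nat_lit 12) (.e (nat_lit 385066) (nat_lit 26) (.e (nat_lit 532508) (nat_lit 2) .nil))))) .nil)) 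
(.lf (nat_lit 132408) (.g (nat_lit 1167) (.e (nat_lit 16413) (nat_lit 2) (.e (nat_lit 196674) (nat_lit 15) (.e (nat_lit 81959) (nat_lit 24) (.e (nat_lit 130816) (nat_lit 124) .nil)))) .nil))))) (.nd (nat_lit 3) (.nd (nat_lit 4) (.nd (nat_lit 5) 
(.lf (nat_lit 132356) (.g (nat_lit 2388) (.e (nat_lit 16413) (nat_lit 2) (.e (nat_lit 196666) (nat_lit 13) (.e (nat_lit 65617) (nat_lit 10) (.e (nat_lit 344132) (nat_lit 26) (.e (nat_lit 557094) (nat_lit 12) (.e (nat_lit 164022) (nat_lit 46) (.e (nat_lit 704732) (nat_lit 11) .nil))))))) (.g (nat_lit 5) .nil .nil))) 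
(.lf (nat_lit 132388) (.g (nat_lit 2668) (.e (nat_lit 16413) (nat_lit 2) (.e (nat_lit 196666) (nat_lit 13) (.e (nat_lit 65624) (nat_lit 12) (.e (nat_lit 385066) (nat_lit 26) (.e (nat_lit 532508) (nat_lit 2) .nil))))) .nil))) (.nd (nat_lit 5) 
(.lf (nat_lit 132372) (.g (nat_lit 2200) (.e (nat_lit 16413) (nat_lit 2) (.e (nat_lit 196666) (nat_lit 13) (.e (nat_lit 65617) (nat_lit 10) (.e (nat_lit 344133) (nat_lit 26) (.e (nat_lit 557091) (nat_lit 12) (.e (nat_lit 171776) (nat_lit 46) (.e (nat_lit 704741) (nat_lit 11) .nil))))))) (.g (nat_lit 4) .nil .nil))) 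
(.lf (nat_lit 132404) (.g (nat_lit 2193) (.e (nat_lit 16413) (nat_lit 2) (.e (nat_lit 196674) (nat_lit 15) (.e (nat_lit 81922) (nat_lit 0) (.e (nat_lit 3253) (nat_lit 197) (.e (nat_lit 532510) (nat_lit 2) (.e (nat_lit 106536) (nat_lit 11) .nil)))))) (.g (nat_lit 0) .nil .nil))))) (.nd (nat_lit 4) (.nd (nat_lit 5) 
(.lf (nat_lit 132364) (.g (nat_lit 2117) (.e (nat_lit 16413) (nat_lit 2) (.e (nat_lit 196666) (nat_lit 13) (.e (nat_lit 65617) (nat_lit 10) (.e (nat_lit 344133) (nat_lit 26) (.e (nat_lit 557068) (nat_lit 9) .nil))))) .nil)) 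
(.lf (nat_lit 132396) (.g (nat_lit 2934) (.e (nat_lit 16413) (nat_lit 2) (.e (nat_lit 196666) (nat_lit 13) (.e (nat_lit 65624) (nat_lit 12) (.e (nat_lit 385068) (nat_lit 26) (.e (nat_lit 532511) (nat_lit 2) (.e (nat_lit 106536) (nat_lit 11) .nil)))))) (.g (nat_lit 0) .nil .nil)))) (.nd (nat_lit 5) 
(.lf (nat_lit 132380) (.g (nat_lit 2638) (.e (nat_lit 16413) (nat_lit 2) (.e (nat_lit 196666) (nat_lit 13) (.e (nat_lit 65622) (nat_lit 12) (.e (nat_lit 385066) (nat_lit 26) (.e (nat_lit 532511) (nat_lit 2) (.e (nat_lit 106536) (nat_lit 11) .nil)))))) (.g (nat_lit 6) .nil .nil))) 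
(.lf (nat_lit 132412) (.g (nat_lit 2160) (.e (nat_lit 16413) (nat_lit 2) (.e (nat_lit 196681) (nat_lit 17) (.e (nat_lit 131120) (nat_lit 12) (.e (nat_lit 385066) (nat_lit 26) (.e (nat_lit 532508) (nat_lit 2) (.e (nat_lit 106534) (nat_lit 11) .nil)))))) (.g (nat_lit 6) .nil .nil))))))) (.nd (nat_lit 2) (.nd (nat_lit 3) (.nd (nat_lit 4) (.nd (nat_lit 5) 
(.lf (nat_lit 132354) (.g (nat_lit 2950) (.e (nat_lit 16413) (nat_lit 2) (.e (nat_lit 196666) (nat_lit 13) (.e (nat_lit 65617) (nat_lit 10) (.e (nat_lit 344132) (nat_lit 26) (.e (nat_lit 557093) (nat_lit 12) (.e (nat_lit 171776) (nat_lit 46) (.e (nat_lit 704734) (nat_lit 11) .nil))))))) (.g (nat_lit 5) .nil .nil))) 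
(.lf (nat_lit 132386) (.g (nat_lit 1385) (.e (nat_lit 16413) (nat_lit 2) (.e (nat_lit 196666) (nat_lit 13) (.e (nat_lit 65623) (nat_lit 12) (.e (nat_lit 385068) (nat_lit 26) .nil)))) .nil))) (.nd (nat_lit 5) 
(.lf (nat_lit 132370) (.g (nat_lit 3931) (.e (nat_lit 16413) (nat_lit 2) (.e (nat_lit 196666) (nat_lit 13) (.e (nat_lit 65617) (nat_lit 10) (.e (nat_lit 344133) (nat_lit 26) (.e (nat_lit 557091) (nat_lit 12) (.e (nat_lit 164022) (nat_lit 46) (.e (nat_lit 712448) (nat_lit 11) .nil))))))) (.g (nat_lit 6) .nil .nil))) 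
(.lf (nat_lit 132402) (.g (nat_lit 828) (.e (nat_lit 16413) (nat_lit 2) (.e (nat_lit 196674) (nat_lit 15) (.e (nat_lit 81922) (nat_lit 0) (.e (nat_lit 3234) (nat_lit 197) .nil)))) .nil)))) (.nd (nat_lit 4) (.nd (nat_lit 5) 
(.lf (nat_lit 132362) (.g (nat_lit 1191) (.e (nat_lit 16413) (nat_lit 2) (.e (nat_lit 196666) (nat_lit 13) (.e (nat_lit 65617) (nat_lit 10) (.e (nat_lit 344133) (nat_lit 26) .nil)))) .nil)) 
(.lf (nat_lit 132394) (.g (nat_lit 2908) (.e (nat_lit 16413) (nat_lit 2) (.e (nat_lit 196666) (nat_lit 13) (.e (nat_lit 65624) (nat_lit 12) (.e (nat_lit 385068) (nat_lit 26) (.e (nat_lit 532510) (nat_lit 2) (.e (nat_lit 106536) (nat_lit 11) .nil)))))) (.g (nat_lit 0) .nil .nil)))) (.nd (nat_lit 5) 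
(.lf (nat_lit 132378) (.g (nat_lit 1916) (.e (nat_lit 16413) (nat_lit 2) (.e (nat_lit 196666) (nat_lit 13) (.e (nat_lit 65622) (nat_lit 12) (.e (nat_lit 385066) (nat_lit 26) (.e (nat_lit 532509) (nat_lit 2) .nil))))) .nil)) 
(.lf (nat_lit 132410) (.g (nat_lit 800) (.e (nat_lit 16413) (nat_lit 2) (.e (nat_lit 196681) (nat_lit 17) (.e (nat_lit 131109) (nat_lit 9) (.e (nat_lit 336238) (nat_lit 15) .nil)))) .nil))))) (.nd (nat_lit 3) (.nd (nat_lit 4) (.nd (nat_lit 5) 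
(.lf (nat_lit 132358) (.g (nat_lit 3553) (.e (nat_lit 16413) (nat_lit 2) (.e (nat_lit 196666) (nat_lit 13) (.e (nat_lit 65617) (nat_lit 10) (.e (nat_lit 344132) (nat_lit 26) (.e (nat_lit 557094) (nat_lit 12) (.e (nat_lit 164022) (nat_lit 46) (.e (nat_lit 704736) (nat_lit 11) .nil))))))) (.g (nat_lit 7) .nil .nil))) 
(.lf (nat_lit 132390) (.g (nat_lit 2574) (.e (nat_lit 16413) (nat_lit 2) (.e (nat_lit 196666) (nat_lit 13) (.e (nat_lit 65624) (nat_lit 12) (.e (nat_lit 385066) (nat_lit 26) (.e (nat_lit 532511) (nat_lit 2) .nil))))) .nil))) (.nd (nat_lit 5) 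
(.lf (nat_lit 132374) (.g (nat_lit 2175) (.e (nat_lit 16413) (nat_lit 2) (.e (nat_lit 196666) (nat_lit 13) (.e (nat_lit 65617) (nat_lit 10) (.e (nat_lit 344133) (nat_lit 26) (.e (nat_lit 557092) (nat_lit 12) .nil))))) .nil)) 
(.lf (nat_lit 132406) (.g (nat_lit 593) (.e (nat_lit 16413) (nat_lit 2) (.e (nat_lit 196674) (nat_lit 15) (.e (nat_lit 81923) (nat_lit 0) .nil))) .nil)))) (.nd (nat_lit 4) (.nd (nat_lit 5) 
(.lf (nat_lit 132366) (.g (nat_lit 3024) (.e (nat_lit 16413) (nat_lit 2) (.e (nat_lit 196666) (nat_lit 13) (.e (nat_lit 65617) (nat_lit 10) (.e (nat_lit 344133) (nat_lit 26) (.e (nat_lit 557091) (nat_lit 12) (.e (nat_lit 164022) (nat_lit 46) (.e (nat_lit 704732) (nat_lit 11) .nil))))))) (.g (nat_lit 5) .nil .nil))) 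
(.lf (nat_lit 132398) (.g (nat_lit 1941) (.e (nat_lit 16413) (nat_lit 2) (.e (nat_lit 196672) (nat_lit 15) (.e (nat_lit 81924) (nat_lit 0) (.e (nat_lit 3253) (nat_lit 197) (.e (nat_lit 532510) (nat_lit 2) (.e (nat_lit 106536) (nat_lit 11) .nil)))))) (.g (nat_lit 0) .nil .nil)))) (.nd (nat_lit 5) 
(.lf (nat_lit 132382) (.g (nat_lit 2572) (.e (nat_lit 16413) (nat_lit 2) (.e (nat_lit 196666) (nat_lit 13) (.e (nat_lit 65622) (nat_lit 12) (.e (nat_lit 385068) (nat_lit 26) (.e (nat_lit 532510) (nat_lit 2) (.e (nat_lit 106534) (nat_lit 11) .nil)))))) (.g (nat_lit 0) .nil .nil))) 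
(.lf (nat_lit 132414) (.g (nat_lit 2141) (.e (nat_lit 16413) (nat_lit 2) (.e (nat_lit 196681) (nat_lit 17) (.e (nat_lit 131120) (nat_lit 12) (.e (nat_lit 385066) (nat_lit 26) (.e (nat_lit 532510) (nat_lit 2) (.e (nat_lit 106534) (nat_lit 11) .nil)))))) (.g (nat_lit 6) .nil .nil)))))))) (.nd (nat_lit 1) (.nd (nat_lit 2) (.nd (nat_lit 3) (.nd (nat_lit 4) (.nd (nat_lit 5) 
(.lf (nat_lit 132353) (.g (nat_lit 2656) (.e (nat_lit 16413) (nat_lit 2) (.e (nat_lit 196666) (nat_lit 13) (.e (nat_lit 65617) (nat_lit 10) (.e (nat_lit 344132) (nat_lit 26) (.e (nat_lit 557093) (nat_lit 12) (.e (nat_lit 171776) (nat_lit 46) (.e (nat_lit 704733) (nat_lit 11) .nil))))))) (.g (nat_lit 4) .nil .nil))) 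
(.lf (nat_lit 132385) (.g (nat_lit 2650) (.e (nat_lit 16413) (nat_lit 2) (.e (nat_lit 196666) (nat_lit 13) (.e (nat_lit 65622) (nat_lit 12) (.e (nat_lit 385068) (nat_lit 26) (.e (nat_lit 532511) (nat_lit 2) (.e (nat_lit 106536) (nat_lit 11) .nil)))))) (.g (nat_lit 0) .nil .nil)))) (.nd (nat_lit 5) 
(.lf (nat_lit 132369) (.g (nat_lit 4359) (.e (nat_lit 16413) (nat_lit 2) (.e (nat_lit 196666) (nat_lit 13) (.e (nat_lit 65617) (nat_lit 10) (.e (nat_lit 344133) (nat_lit 26) (.e (nat_lit 557091) (nat_lit 12) (.e (nat_lit 164022) (nat_lit 46) (.e (nat_lit 704737) (nat_lit 11) .nil))))))) (.g (nat_lit 7) .nil .nil))) 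
(.lf (nat_lit 132401) (.g (nat_lit 1729) (.e (nat_lit 16413) (nat_lit 2) (.e (nat_lit 196672) (nat_lit 15) (.e (nat_lit 81954) (nat_lit 23) (.e (nat_lit 98334) (nat_lit 18) (.e (nat_lit 171776) (nat_lit 278) .nil))))) .nil)))) (.nd (nat_lit 4) (.nd (nat_lit 5) 
(.lf (nat_lit 132361) (.g (nat_lit 2344) (.e (nat_lit 16413) (nat_lit 2) (.e (nat_lit 196666) (nat_lit 13) (.e (nat_lit 65617) (nat_lit 10) (.e (nat_lit 344132) (nat_lit 26) (.e (nat_lit 557094) (nat_lit 12) (.e (nat_lit 171776) (nat_lit 46) (.e (nat_lit 704733) (nat_lit 11) .nil))))))) (.g (nat_lit 4) .nil .nil))) 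
(.lf (nat_lit 132393) (.g (nat_lit 2861) (.e (nat_lit 16413) (nat_lit 2) (.e (nat_lit 196666) (nat_lit 13) (.e (nat_lit 65624) (nat_lit 12) (.e (nat_lit 385068) (nat_lit 26) (.e (nat_lit 532510) (nat_lit 2) (.e (nat_lit 106534) (nat_lit 11) .nil)))))) (.g (nat_lit 0) .nil .nil)))) (.nd (nat_lit 5) 
(.lf (nat_lit 132377) (.g (nat_lit 2607) (.e (nat_lit 16413) (nat_lit 2) (.e (nat_lit 196666) (nat_lit 13) (.e (nat_lit 65622) (nat_lit 12) (.e (nat_lit 385066) (nat_lit 26) (.e (nat_lit 532508) (nat_lit 2) (.e (nat_lit 106534) (nat_lit 11) .nil)))))) (.g (nat_lit 5) .nil .nil))) 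
(.lf (nat_lit 132409) (.g (nat_lit 2109) (.e (nat_lit 16413) (nat_lit 2) (.e (nat_lit 196681) (nat_lit 17) (.e (nat_lit 131105) (nat_lit 9) (.e (nat_lit 336324) (nat_lit 18) (.e (nat_lit 204834) (nat_lit 19) (.e (nat_lit 106534) (nat_lit 11) .nil)))))) (.g (nat_lit 0) .nil .nil)))))) (.nd (nat_lit 3) (.nd (nat_lit 4) (.nd (nat_lit 5) 
(.lf (nat_lit 132357) (.g (nat_lit 2996) (.e (nat_lit 16413) (nat_lit 2) (.e (nat_lit 196666) (nat_lit 13) (.e (nat_lit 65617) (nat_lit 10) (.e (nat_lit 344132) (nat_lit 26) (.e (nat_lit 557094) (nat_lit 12) (.e (nat_lit 164022) (nat_lit 46) (.e (nat_lit 704735) (nat_lit 11) .nil))))))) (.g (nat_lit 6) .nil .nil))) 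
(.lf (nat_lit 132389) (.g (nat_lit 2569) (.e (nat_lit 16413) (nat_lit 2) (.e (nat_lit 196666) (nat_lit 13) (.e (nat_lit 65624) (nat_lit 12) (.e (nat_lit 385066) (nat_lit 26) (.e (nat_lit 532510) (nat_lit 2) .nil))))) .nil))) (.nd (nat_lit 5) 
(.lf (nat_lit 132373) (.g (nat_lit 2373) (.e (nat_lit 16413) (nat_lit 2) (.e (nat_lit 196666) (nat_lit 13) (.e (nat_lit 65617) (nat_lit 10) (.e (nat_lit 344133) (nat_lit 26) (.e (nat_lit 557091) (nat_lit 12) (.e (nat_lit 171776) (nat_lit 46) (.e (nat_lit 712448) (nat_lit 11) .nil))))))) (.g (nat_lit 4) .nil .nil))) 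
(.lf (nat_lit 132405) (.g (nat_lit 2271) (.e (nat_lit 16413) (nat_lit 2) (.e (nat_lit 196674) (nat_lit 15) (.e (nat_lit 81922) (nat_lit 0) (.e (nat_lit 3253) (nat_lit 197) (.e (nat_lit 532511) (nat_lit 2) (.e (nat_lit 106536) (nat_lit 11) .nil)))))) (.g (nat_lit 0) .nil .nil))))) (.nd (nat_lit 4) (.nd (nat_lit 5) 
(.lf (nat_lit 132365) (.g (nat_lit 2025) (.e (nat_lit 16413) (nat_lit 2) (.e (nat_lit 196666) (nat_lit 13) (.e (nat_lit 65617) (nat_lit 10) (.e (nat_lit 344133) (nat_lit 26) (.e (nat_lit 557089) (nat_lit 12) .nil))))) .nil)) 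
(.lf (nat_lit 132397) (.g (nat_lit 927) (.e (nat_lit 16413) (nat_lit 2) (.e (nat_lit 196672) (nat_lit 15) (.e (nat_lit 81924) (nat_lit 0) (.e (nat_lit 3234) (nat_lit 197) (.e (nat_lit 532508) (nat_lit 2) .nil))))) .nil))) (.nd (nat_lit 5) 
(.lf (nat_lit 132381) (.g (nat_lit 2709) (.e (nat_lit 16413) (nat_lit 2) (.e (nat_lit 196666) (nat_lit 13) (.e (nat_lit 65622) (nat_lit 12) (.e (nat_lit 385068) (nat_lit 26) (.e (nat_lit 532508) (nat_lit 2) (.e (nat_lit 106534) (nat_lit 11) .nil)))))) (.g (nat_lit 6) .nil .nil))) 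
(.lf (nat_lit 132413) (.g (nat_lit 1323) (.e (nat_lit 16413) (nat_lit 2) (.e (nat_lit 196681) (nat_lit 17) (.e (nat_lit 131120) (nat_lit 12) (.e (nat_lit 385066) (nat_lit 26) (.e (nat_lit 532509) (nat_lit 2) (.e (nat_lit 106534) (nat_lit 11) .nil)))))) (.g (nat_lit 4) .nil .nil))))))) (.nd (nat_lit 2) (.nd (nat_lit 3) (.nd (nat_lit 4) (.nd (nat_lit 5) 
(.lf (nat_lit 132355) (.g (nat_lit 2036) (.e (nat_lit 16413) (nat_lit 2) (.e (nat_lit 196666) (nat_lit 13) (.e (nat_lit 65617) (nat_lit 10) (.e (nat_lit 344132) (nat_lit 26) (.e (nat_lit 557094) (nat_lit 12) .nil))))) .nil)) 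
(.lf (nat_lit 132387) (.g (nat_lit 1624) (.e (nat_lit 16413) (nat_lit 2) (.e (nat_lit 196666) (nat_lit 13) (.e (nat_lit 65624) (nat_lit 12) (.e (nat_lit 385066) (nat_lit 26) .nil)))) .nil))) (.nd (nat_lit 5) 
(.lf (nat_lit 132371) (.g (nat_lit 3007) (.e (nat_lit 16413) (nat_lit 2) (.e (nat_lit 196666) (nat_lit 13) (.e (nat_lit 65617) (nat_lit 10) (.e (nat_lit 344133) (nat_lit 26) (.e (nat_lit 557091) (nat_lit 12) (.e (nat_lit 171776) (nat_lit 46) (.e (nat_lit 704733) (nat_lit 11) .nil))))))) (.g (nat_lit 5) .nil .nil))) 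
(.lf (nat_lit 132403) (.g (nat_lit 1360) (.e (nat_lit 16413) (nat_lit 2) (.e (nat_lit 196674) (nat_lit 15) (.e (nat_lit 81922) (nat_lit 0) (.e (nat_lit 3253) (nat_lit 197) (.e (nat_lit 532506) (nat_lit 2) .nil))))) .nil)))) (.nd (nat_lit 4) (.nd (nat_lit 5) 
(.lf (nat_lit 132363) (.g (nat_lit 2074) (.e (nat_lit 16413) (nat_lit 2) (.e (nat_lit 196666) (nat_lit 13) (.e (nat_lit 65617) (nat_lit 10) (.e (nat_lit 344133) (nat_lit 26) (.e (nat_lit 557065) (nat_lit 9) .nil))))) .nil)) 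
(.lf (nat_lit 132395) (.g (nat_lit 2820) (.e (nat_lit 16413) (nat_lit 2) (.e (nat_lit 196666) (nat_lit 13) (.e (nat_lit 65624) (nat_lit 12) (.e (nat_lit 385068) (nat_lit 26) (.e (nat_lit 532511) (nat_lit 2) (.e (nat_lit 106534) (nat_lit 11) .nil)))))) (.g (nat_lit 0) .nil .nil)))) (.nd (nat_lit 5) 
(.lf (nat_lit 132379) (.g (nat_lit 2372) (.e (nat_lit 16413) (nat_lit 2) (.e (nat_lit 196666) (nat_lit 13) (.e (nat_lit 65622) (nat_lit 12) (.e (nat_lit 385066) (nat_lit 26) (.e (nat_lit 532509) (nat_lit 2) (.e (nat_lit 106536) (nat_lit 11) .nil)))))) (.g (nat_lit 5) .nil .nil))) 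
(.lf (nat_lit 132411) (.g (nat_lit 2254) (.e (nat_lit 16413) (nat_lit 2) (.e (nat_lit 196681) (nat_lit 17) (.e (nat_lit 131109) (nat_lit 9) (.e (nat_lit 336324) (nat_lit 18) (.e (nat_lit 204834) (nat_lit 19) (.e (nat_lit 106534) (nat_lit 11) .nil)))))) (.g (nat_lit 0) .nil .nil)))))) (.nd (nat_lit 3) (.nd (nat_lit 4) (.nd (nat_lit 5) 
(.lf (nat_lit 132359) (.g (nat_lit 3712) (.e (nat_lit 16413) (nat_lit 2) (.e (nat_lit 196666) (nat_lit 13) (.e (nat_lit 65617) (nat_lit 10) (.e (nat_lit 344132) (nat_lit 26) (.e (nat_lit 557094) (nat_lit 12) (.e (nat_lit 164022) (nat_lit 46) (.e (nat_lit 704737) (nat_lit 11) .nil))))))) (.g (nat_lit 7) .nil .nil))) 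
(.lf (nat_lit 132391) (.g (nat_lit 2481) (.e (nat_lit 16413) (nat_lit 2) (.e (nat_lit 196666) (nat_lit 13) (.e (nat_lit 65624) (nat_lit 12) (.e (nat_lit 385068) (nat_lit 26) (.e (nat_lit 532506) (nat_lit 2) .nil))))) .nil))) (.nd (nat_lit 5) 
(.lf (nat_lit 132375) (.g (nat_lit 453) (.e (nat_lit 16413) (nat_lit 2) (.e (nat_lit 196666) (nat_lit 13) (.e (nat_lit 65622) (nat_lit 12) .nil))) .nil)) 
(.lf (nat_lit 132407) (.g (nat_lit 609) (.e (nat_lit 16413) (nat_lit 2) (.e (nat_lit 196674) (nat_lit 15) (.e (nat_lit 81947) (nat_lit 20) .nil))) .nil)))) (.nd (nat_lit 4) (.nd (nat_lit 5) 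
(.lf (nat_lit 132367) (.g (nat_lit 3657) (.e (nat_lit 16413) (nat_lit 2) (.e (nat_lit 196666) (nat_lit 13) (.e (nat_lit 65617) (nat_lit 10) (.e (nat_lit 344133) (nat_lit 26) (.e (nat_lit 557091) (nat_lit 12) (.e (nat_lit 164022) (nat_lit 46) (.e (nat_lit 704735) (nat_lit 11) .nil))))))) (.g (nat_lit 6) .nil .nil))) 
(.lf (nat_lit 132399) (.g (nat_lit 2015) (.e (nat_lit 16413) (nat_lit 2) (.e (nat_lit 196672) (nat_lit 15) (.e (nat_lit 81924) (nat_lit 0) (.e (nat_lit 3253) (nat_lit 197) (.e (nat_lit 532511) (nat_lit 2) (.e (nat_lit 106536) (nat_lit 11) .nil)))))) (.g (nat_lit 0) .nil .nil)))) (.nd (nat_lit 5) 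
(.lf (nat_lit 132383) (.g (nat_lit 2620) (.e (nat_lit 16413) (nat_lit 2) (.e (nat_lit 196666) (nat_lit 13) (.e (nat_lit 65622) (nat_lit 12) (.e (nat_lit 385068) (nat_lit 26) (.e (nat_lit 532510) (nat_lit 2) (.e (nat_lit 106536) (nat_lit 11) .nil)))))) (.g (nat_lit 0) .nil .nil))) 
(.lf (nat_lit 132415) (.g (nat_lit 2107) (.e (nat_lit 16413) (nat_lit 2) (.e (nat_lit 196681) (nat_lit 17) (.e (nat_lit 131120) (nat_lit 12) (.e (nat_lit 385066) (nat_lit 26) (.e (nat_lit 532511) (nat_lit 2) (.e (nat_lit 106534) (nat_lit 11) .nil)))))) (.g (nat_lit 0) .nil .nil)))))))))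

noncomputable def tv1766 : DT := (.nd (nat_lit 0) (.nd (nat_lit 1) (.nd (nat_lit 2) (.nd (nat_lit 3) (.nd (nat_lit 4) (.nd (nat_lit 5) 
(.lf (nat_lit 132416) (.g (nat_lit 2231) (.e (nat_lit 16413) (nat_lit 2) (.e (nat_lit 196681) (nat_lit 17) (.e (nat_lit 131120) (nat_lit 12) (.e (nat_lit 385068) (nat_lit 26) (.e (nat_lit 532508) (nat_lit 2) (.e (nat_lit 106534) (nat_lit 11) .nil)))))) (.g (nat_lit 0) .nil .nil))) 
(.lf (nat_lit 132448) (.g (nat_lit 1139) (.e (nat_lit 16414) (nat_lit 3) (.e (nat_lit 204868) (nat_lit 29) (.e (nat_lit 360473) (nat_lit 8) (.e (nat_lit 557093) (nat_lit 12) .nil)))) .nil))) (.nd (nat_lit 5) 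
(.lf (nat_lit 132432) (.g (nat_lit 4015) (.e (nat_lit 16414) (nat_lit 3) (.e (nat_lit 204855) (nat_lit 26) (.e (nat_lit 336176) (nat_lit 10) (.e (nat_lit 344130) (nat_lit 26) (.e (nat_lit 557090) (nat_lit 12) (.e (nat_lit 164022) (nat_lit 46) (.e (nat_lit 704736) (nat_lit 11) .nil))))))) (.g (nat_lit 7) .nil .nil))) 
(.lf (nat_lit 132464) (.g (nat_lit 3843) (.e (nat_lit 16414) (nat_lit 3) (.e (nat_lit 204869) (nat_lit 29) (.e (nat_lit 360474) (nat_lit 8) (.e (nat_lit 557091) (nat_lit 12) (.e (nat_lit 164022) (nat_lit 46) (.e (nat_lit 704736) (nat_lit 11) .nil)))))) (.g (nat_lit 5) .nil .nil))))) (.nd (nat_lit 4) (.nd (nat_lit 5) 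
(.lf (nat_lit 132424) (.g (nat_lit 2247) (.e (nat_lit 16413) (nat_lit 2) (.e (nat_lit 196681) (nat_lit 17) (.e (nat_lit 131123) (nat_lit 12) (.e (nat_lit 385066) (nat_lit 26) (.e (nat_lit 532510) (nat_lit 2) (.e (nat_lit 106534) (nat_lit 11) .nil)))))) (.g (nat_lit 6) .nil .nil))) 
(.lf (nat_lit 132456) (.g (nat_lit 4262) (.e (nat_lit 16414) (nat_lit 3) (.e (nat_lit 204868) (nat_lit 29) (.e (nat_lit 360475) (nat_lit 8) (.e (nat_lit 557091) (nat_lit 12) (.e (nat_lit 164022) (nat_lit 46) (.e (nat_lit 704736) (nat_lit 11) .nil)))))) (.g (nat_lit 6) .nil .nil)))) (.nd (nat_lit 5) 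
(.lf (nat_lit 132440) (.g (nat_lit 3859) (.e (nat_lit 16414) (nat_lit 3) (.e (nat_lit 204855) (nat_lit 26) (.e (nat_lit 336176) (nat_lit 10) (.e (nat_lit 344133) (nat_lit 26) (.e (nat_lit 557091) (nat_lit 12) (.e (nat_lit 164022) (nat_lit 46) (.e (nat_lit 704736) (nat_lit 11) .nil))))))) (.g (nat_lit 7) .nil .nil))) 
(.lf (nat_lit 132472) (.g (nat_lit 2902) (.e (nat_lit 16414) (nat_lit 3) (.e (nat_lit 204869) (nat_lit 29) (.e (nat_lit 360475) (nat_lit 8) (.e (nat_lit 557065) (nat_lit 9) .nil)))) .nil))))) (.nd (nat_lit 3) (.nd (nat_lit 4) (.nd (nat_lit 5) 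
(.lf (nat_lit 132420) (.g (nat_lit 2176) (.e (nat_lit 16413) (nat_lit 2) (.e (nat_lit 196681) (nat_lit 17) (.e (nat_lit 131120) (nat_lit 12) (.e (nat_lit 385068) (nat_lit 26) (.e (nat_lit 532511) (nat_lit 2) (.e (nat_lit 106536) (nat_lit 11) .nil)))))) (.g (nat_lit 0) .nil .nil))) 
(.lf (nat_lit 132452) (.g (nat_lit 2732) (.e (nat_lit 16414) (nat_lit 3) (.e (nat_lit 204868) (nat_lit 29) (.e (nat_lit 360473) (nat_lit 8) (.e (nat_lit 557094) (nat_lit 12) (.e (nat_lit 164022) (nat_lit 46) (.e (nat_lit 704737) (nat_lit 11) .nil)))))) (.g (nat_lit 0) .nil .nil)))) (.nd (nat_lit 5) 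
(.lf (nat_lit 132436) (.g (nat_lit 3666) (.e (nat_lit 16414) (nat_lit 3) (.e (nat_lit 204855) (nat_lit 26) (.e (nat_lit 336176) (nat_lit 10) (.e (nat_lit 344132) (nat_lit 26) (.e (nat_lit 557093) (nat_lit 12) (.e (nat_lit 164022) (nat_lit 46) (.e (nat_lit 704738) (nat_lit 11) .nil))))))) (.g (nat_lit 0) .nil .nil))) 
(.lf (nat_lit 132468) (.g (nat_lit 2593) (.e (nat_lit 16414) (nat_lit 3) (.e (nat_lit 204869) (nat_lit 29) (.e (nat_lit 360474) (nat_lit 8) (.e (nat_lit 557093) (nat_lit 12) (.e (nat_lit 164023) (nat_lit 46) (.e (nat_lit 704736) (nat_lit 11) .nil)))))) (.g (nat_lit 4) .nil .nil))))) (.nd (nat_lit 4) (.nd (nat_lit 5) 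
(.lf (nat_lit 132428) (.g (nat_lit 2277) (.e (nat_lit 16413) (nat_lit 2) (.e (nat_lit 196681) (nat_lit 17) (.e (nat_lit 131123) (nat_lit 12) (.e (nat_lit 385068) (nat_lit 26) (.e (nat_lit 532510) (nat_lit 2) (.e (nat_lit 106536) (nat_lit 11) .nil)))))) (.g (nat_lit 0) .nil .nil))) 
(.lf (nat_lit 132460) (.g (nat_lit 1793) (.e (nat_lit 16414) (nat_lit 3) (.e (nat_lit 204869) (nat_lit 29) (.e (nat_lit 360473) (nat_lit 8) (.e (nat_lit 557093) (nat_lit 12) .nil)))) .nil))) (.nd (nat_lit 5) 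
(.lf (nat_lit 132444) (.g (nat_lit 1788) (.e (nat_lit 16414) (nat_lit 3) (.e (nat_lit 204861) (nat_lit 26) (.e (nat_lit 336076) (nat_lit 9) (.e (nat_lit 336326) (nat_lit 18) .nil)))) .nil)) 
(.lf (nat_lit 132476) (.g (nat_lit 5244) (.e (nat_lit 16414) (nat_lit 3) (.e (nat_lit 204869) (nat_lit 29) (.e (nat_lit 360475) (nat_lit 8) (.e (nat_lit 557090) (nat_lit 12) .nil)))) .nil)))))) (.nd (nat_lit 2) (.nd (nat_lit 3) (.nd (nat_lit 4) (.nd (nat_lit 5) 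
(.lf (nat_lit 132418) (.g (nat_lit 2154) (.e (nat_lit 16413) (nat_lit 2) (.e (nat_lit 196681) (nat_lit 17) (.e (nat_lit 131120) (nat_lit 12) (.e (nat_lit 385068) (nat_lit 26) (.e (nat_lit 532510) (nat_lit 2) (.e (nat_lit 106536) (nat_lit 11) .nil)))))) (.g (nat_lit 0) .nil .nil))) 
(.lf (nat_lit 132450) (.g (nat_lit 1085) (.e (nat_lit 16414) (nat_lit 3) (.e (nat_lit 204868) (nat_lit 29) (.e (nat_lit 360473) (nat_lit 8) (.e (nat_lit 557094) (nat_lit 12) .nil)))) .nil))) (.nd (nat_lit 5) 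
(.lf (nat_lit 132434) (.g (nat_lit 4338) (.e (nat_lit 16414) (nat_lit 3) (.e (nat_lit 204855) (nat_lit 26) (.e (nat_lit 336176) (nat_lit 10) (.e (nat_lit 344130) (nat_lit 26) (.e (nat_lit 557090) (nat_lit 12) (.e (nat_lit 164022) (nat_lit 46) (.e (nat_lit 704738) (nat_lit 11) .nil))))))) (.g (nat_lit 0) .nil .nil))) 
(.lf (nat_lit 132466) (.g (nat_lit 3817) (.e (nat_lit 16414) (nat_lit 3) (.e (nat_lit 204869) (nat_lit 29) (.e (nat_lit 360474) (nat_lit 8) (.e (nat_lit 557093) (nat_lit 12) (.e (nat_lit 164022) (nat_lit 46) (.e (nat_lit 704737) (nat_lit 11) .nil)))))) (.g (nat_lit 0) .nil .nil))))) (.nd (nat_lit 4) (.nd (nat_lit 5) 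
(.lf (nat_lit 132426) (.g (nat_lit 2351) (.e (nat_lit 16413) (nat_lit 2) (.e (nat_lit 196681) (nat_lit 17) (.e (nat_lit 131123) (nat_lit 12) (.e (nat_lit 385068) (nat_lit 26) (.e (nat_lit 532508) (nat_lit 2) (.e (nat_lit 106534) (nat_lit 11) .nil)))))) (.g (nat_lit 0) .nil .nil))) 
(.lf (nat_lit 132458) (.g (nat_lit 4620) (.e (nat_lit 16414) (nat_lit 3) (.e (nat_lit 204868) (nat_lit 29) (.e (nat_lit 360475) (nat_lit 8) (.e (nat_lit 557091) (nat_lit 12) (.e (nat_lit 164022) (nat_lit 46) (.e (nat_lit 704738) (nat_lit 11) .nil)))))) (.g (nat_lit 0) .nil .nil)))) (.nd (nat_lit 5) 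
(.lf (nat_lit 132442) (.g (nat_lit 4223) (.e (nat_lit 16414) (nat_lit 3) (.e (nat_lit 204855) (nat_lit 26) (.e (nat_lit 336176) (nat_lit 10) (.e (nat_lit 344133) (nat_lit 26) (.e (nat_lit 557091) (nat_lit 12) (.e (nat_lit 164022) (nat_lit 46) (.e (nat_lit 704738) (nat_lit 11) .nil))))))) (.g (nat_lit 0) .nil .nil))) 
(.lf (nat_lit 132474) (.g (nat_lit 3490) (.e (nat_lit 16414) (nat_lit 3) (.e (nat_lit 204869) (nat_lit 29) (.e (nat_lit 360475) (nat_lit 8) (.e (nat_lit 557070) (nat_lit 9) (.e (nat_lit 2744) (nat_lit 174) .nil))))) .nil))))) (.nd (nat_lit 3) (.nd (nat_lit 4) (.nd (nat_lit 5) 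
(.lf (nat_lit 132422) (.g (nat_lit 2264) (.e (nat_lit 16413) (nat_lit 2) (.e (nat_lit 196681) (nat_lit 17) (.e (nat_lit 131123) (nat_lit 12) (.e (nat_lit 385066) (nat_lit 26) (.e (nat_lit 532508) (nat_lit 2) (.e (nat_lit 106534) (nat_lit 11) .nil)))))) (.g (nat_lit 6) .nil .nil))) 
(.lf (nat_lit 132454) (.g (nat_lit 1663) (.e (nat_lit 16414) (nat_lit 3) (.e (nat_lit 204868) (nat_lit 29) (.e (nat_lit 360474) (nat_lit 8) (.e (nat_lit 557094) (nat_lit 12) (.e (nat_lit 164022) (nat_lit 46) (.e (nat_lit 704737) (nat_lit 11) .nil)))))) (.g (nat_lit 4) .nil .nil)))) (.nd (nat_lit 5) 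
(.lf (nat_lit 132438) (.g (nat_lit 3281) (.e (nat_lit 16414) (nat_lit 3) (.e (nat_lit 204855) (nat_lit 26) (.e (nat_lit 336176) (nat_lit 10) (.e (nat_lit 344132) (nat_lit 26) (.e (nat_lit 557094) (nat_lit 12) (.e (nat_lit 164022) (nat_lit 46) (.e (nat_lit 704737) (nat_lit 11) .nil))))))) (.g (nat_lit 0) .nil .nil))) 
(.lf (nat_lit 132470) (.g (nat_lit 3377) (.e (nat_lit 16414) (nat_lit 3) (.e (nat_lit 204869) (nat_lit 29) (.e (nat_lit 360474) (nat_lit 8) (.e (nat_lit 557094) (nat_lit 12) (.e (nat_lit 164022) (nat_lit 46) (.e (nat_lit 704736) (nat_lit 11) .nil)))))) (.g (nat_lit 6) .nil .nil))))) (.nd (nat_lit 4) (.nd (nat_lit 5) 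
(.lf (nat_lit 132430) (.g (nat_lit 2300) (.e (nat_lit 16413) (nat_lit 2) (.e (nat_lit 196681) (nat_lit 17) (.e (nat_lit 131123) (nat_lit 12) (.e (nat_lit 385068) (nat_lit 26) (.e (nat_lit 532511) (nat_lit 2) (.e (nat_lit 106536) (nat_lit 11) .nil)))))) (.g (nat_lit 0) .nil .nil))) 
(.lf (nat_lit 132462) (.g (nat_lit 1734) (.e (nat_lit 16414) (nat_lit 3) (.e (nat_lit 204869) (nat_lit 29) (.e (nat_lit 360473) (nat_lit 8) (.e (nat_lit 557094) (nat_lit 12) .nil)))) .nil))) (.nd (nat_lit 5) 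
(.lf (nat_lit 132446) (.g (nat_lit 3122) (.e (nat_lit 16414) (nat_lit 3) (.e (nat_lit 204868) (nat_lit 29) (.e (nat_lit 360473) (nat_lit 8) (.e (nat_lit 557091) (nat_lit 12) (.e (nat_lit 164022) (nat_lit 46) (.e (nat_lit 704736) (nat_lit 11) .nil)))))) (.g (nat_lit 6) .nil .nil))) 
(.lf (nat_lit 132478) (.g (nat_lit 4298) (.e (nat_lit 16414) (nat_lit 3) (.e (nat_lit 204869) (nat_lit 29) (.e (nat_lit 360475) (nat_lit 8) (.e (nat_lit 557091) (nat_lit 12) (.e (nat_lit 164022) (nat_lit 46) (.e (nat_lit 704737) (nat_lit 11) .nil)))))) (.g (nat_lit 0) .nil .nil)))))))) (.nd (nat_lit 1) (.nd (nat_lit 2) (.nd (nat_lit 3) (.nd (nat_lit 4) (.nd (nat_lit 5) 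
(.lf (nat_lit 132417) (.g (nat_lit 2138) (.e (nat_lit 16413) (nat_lit 2) (.e (nat_lit 196681) (nat_lit 17) (.e (nat_lit 131120) (nat_lit 12) (.e (nat_lit 385068) (nat_lit 26) (.e (nat_lit 532510) (nat_lit 2) (.e (nat_lit 106534) (nat_lit 11) .nil)))))) (.g (nat_lit 0) .nil .nil))) 
(.lf (nat_lit 132449) (.g (nat_lit 2767) (.e (nat_lit 16414) (nat_lit 3) (.e (nat_lit 204868) (nat_lit 29) (.e (nat_lit 360473) (nat_lit 8) (.e (nat_lit 557093) (nat_lit 12) (.e (nat_lit 164022) (nat_lit 46) (.e (nat_lit 704736) (nat_lit 11) .nil)))))) (.g (nat_lit 6) .nil .nil)))) (.nd (nat_lit 5) 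
(.lf (nat_lit 132433) (.g (nat_lit 4212) (.e (nat_lit 16414) (nat_lit 3) (.e (nat_lit 204855) (nat_lit 26) (.e (nat_lit 336176) (nat_lit 10) (.e (nat_lit 344130) (nat_lit 26) (.e (nat_lit 557090) (nat_lit 12) (.e (nat_lit 164022) (nat_lit 46) (.e (nat_lit 704737) (nat_lit 11) .nil))))))) (.g (nat_lit 0) .nil .nil))) 
(.lf (nat_lit 132465) (.g (nat_lit 3651) (.e (nat_lit 16414) (nat_lit 3) (.e (nat_lit 204869) (nat_lit 29) (.e (nat_lit 360474) (nat_lit 8) (.e (nat_lit 557093) (nat_lit 12) (.e (nat_lit 164022) (nat_lit 46) (.e (nat_lit 704736) (nat_lit 11) .nil)))))) (.g (nat_lit 6) .nil .nil))))) (.nd (nat_lit 4) (.nd (nat_lit 5) 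
(.lf (nat_lit 132425) (.g (nat_lit 2210) (.e (nat_lit 16413) (nat_lit 2) (.e (nat_lit 196681) (nat_lit 17) (.e (nat_lit 131123) (nat_lit 12) (.e (nat_lit 385066) (nat_lit 26) (.e (nat_lit 532511) (nat_lit 2) (.e (nat_lit 106534) (nat_lit 11) .nil)))))) (.g (nat_lit 0) .nil .nil))) 
(.lf (nat_lit 132457) (.g (nat_lit 4490) (.e (nat_lit 16414) (nat_lit 3) (.e (nat_lit 204868) (nat_lit 29) (.e (nat_lit 360475) (nat_lit 8) (.e (nat_lit 557091) (nat_lit 12) (.e (nat_lit 164022) (nat_lit 46) (.e (nat_lit 704737) (nat_lit 11) .nil)))))) (.g (nat_lit 0) .nil .nil)))) (.nd (nat_lit 5) 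
(.lf (nat_lit 132441) (.g (nat_lit 4073) (.e (nat_lit 16414) (nat_lit 3) (.e (nat_lit 204855) (nat_lit 26) (.e (nat_lit 336176) (nat_lit 10) (.e (nat_lit 344133) (nat_lit 26) (.e (nat_lit 557091) (nat_lit 12) (.e (nat_lit 164022) (nat_lit 46) (.e (nat_lit 704737) (nat_lit 11) .nil))))))) (.g (nat_lit 0) .nil .nil))) 
(.lf (nat_lit 132473) (.g (nat_lit 3767) (.e (nat_lit 16414) (nat_lit 3) (.e (nat_lit 204869) (nat_lit 29) (.e (nat_lit 360475) (nat_lit 8) (.e (nat_lit 557068) (nat_lit 9) .nil)))) .nil))))) (.nd (nat_lit 3) (.nd (nat_lit 4) (.nd (nat_lit 5) 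
(.lf (nat_lit 132421) (.g (nat_lit 1595) (.e (nat_lit 16413) (nat_lit 2) (.e (nat_lit 196681) (nat_lit 17) (.e (nat_lit 131122) (nat_lit 12) (.e (nat_lit 385066) (nat_lit 26) (.e (nat_lit 532511) (nat_lit 2) .nil))))) .nil)) 
(.lf (nat_lit 132453) (.g (nat_lit 1833) (.e (nat_lit 16414) (nat_lit 3) (.e (nat_lit 204868) (nat_lit 29) (.e (nat_lit 360474) (nat_lit 8) (.e (nat_lit 557093) (nat_lit 12) (.e (nat_lit 164022) (nat_lit 46) (.e (nat_lit 704736) (nat_lit 11) .nil)))))) (.g (nat_lit 4) .nil .nil)))) (.nd (nat_lit 5) 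
(.lf (nat_lit 132437) (.g (nat_lit 2795) (.e (nat_lit 16414) (nat_lit 3) (.e (nat_lit 204855) (nat_lit 26) (.e (nat_lit 336176) (nat_lit 10) (.e (nat_lit 344132) (nat_lit 26) (.e (nat_lit 557093) (nat_lit 12) (.e (nat_lit 164023) (nat_lit 46) (.e (nat_lit 704736) (nat_lit 11) .nil))))))) (.g (nat_lit 5) .nil .nil))) 
(.lf (nat_lit 132469) (.g (nat_lit 1583) (.e (nat_lit 16414) (nat_lit 3) (.e (nat_lit 204869) (nat_lit 29) (.e (nat_lit 360474) (nat_lit 8) (.e (nat_lit 557094) (nat_lit 12) .nil)))) .nil)))) (.nd (nat_lit 4) (.nd (nat_lit 5) 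
(.lf (nat_lit 132429) (.g (nat_lit 2210) (.e (nat_lit 16413) (nat_lit 2) (.e (nat_lit 196681) (nat_lit 17) (.e (nat_lit 131123) (nat_lit 12) (.e (nat_lit 385068) (nat_lit 26) (.e (nat_lit 532511) (nat_lit 2) (.e (nat_lit 106534) (nat_lit 11) .nil)))))) (.g (nat_lit 0) .nil .nil))) 
(.lf (nat_lit 132461) (.g (nat_lit 2301) (.e (nat_lit 16414) (nat_lit 3) (.e (nat_lit 204869) (nat_lit 29) (.e (nat_lit 360473) (nat_lit 8) (.e (nat_lit 557093) (nat_lit 12) (.e (nat_lit 164023) (nat_lit 46) .nil))))) .nil))) (.nd (nat_lit 5) 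
(.lf (nat_lit 132445) (.g (nat_lit 1898) (.e (nat_lit 16414) (nat_lit 3) (.e (nat_lit 204861) (nat_lit 26) (.e (nat_lit 336194) (nat_lit 12) (.e (nat_lit 385066) (nat_lit 26) .nil)))) .nil)) 
(.lf (nat_lit 132477) (.g (nat_lit 4111) (.e (nat_lit 16414) (nat_lit 3) (.e (nat_lit 204869) (nat_lit 29) (.e (nat_lit 360475) (nat_lit 8) (.e (nat_lit 557091) (nat_lit 12) (.e (nat_lit 164022) (nat_lit 46) (.e (nat_lit 704736) (nat_lit 11) .nil)))))) (.g (nat_lit 6) .nil .nil))))))) (.nd (nat_lit 2) (.nd (nat_lit 3) (.nd (nat_lit 4) (.nd (nat_lit 5) 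
(.lf (nat_lit 132419) (.g (nat_lit 2092) (.e (nat_lit 16413) (nat_lit 2) (.e (nat_lit 196681) (nat_lit 17) (.e (nat_lit 131120) (nat_lit 12) (.e (nat_lit 385068) (nat_lit 26) (.e (nat_lit 532511) (nat_lit 2) (.e (nat_lit 106534) (nat_lit 11) .nil)))))) (.g (nat_lit 0) .nil .nil))) 
(.lf (nat_lit 132451) (.g (nat_lit 2590) (.e (nat_lit 16414) (nat_lit 3) (.e (nat_lit 204868) (nat_lit 29) (.e (nat_lit 360473) (nat_lit 8) (.e (nat_lit 557094) (nat_lit 12) (.e (nat_lit 164022) (nat_lit 46) (.e (nat_lit 704736) (nat_lit 11) .nil)))))) (.g (nat_lit 6) .nil .nil)))) (.nd (nat_lit 5) 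
(.lf (nat_lit 132435) (.g (nat_lit 3636) (.e (nat_lit 16414) (nat_lit 3) (.e (nat_lit 204855) (nat_lit 26) (.e (nat_lit 336176) (nat_lit 10) (.e (nat_lit 344132) (nat_lit 26) (.e (nat_lit 557093) (nat_lit 12) (.e (nat_lit 164022) (nat_lit 46) (.e (nat_lit 704737) (nat_lit 11) .nil))))))) (.g (nat_lit 0) .nil .nil))) 
(.lf (nat_lit 132467) (.g (nat_lit 2460) (.e (nat_lit 16414) (nat_lit 3) (.e (nat_lit 204869) (nat_lit 29) (.e (nat_lit 360474) (nat_lit 8) (.e (nat_lit 557093) (nat_lit 12) (.e (nat_lit 164023) (nat_lit 46) (.e (nat_lit 704735) (nat_lit 11) .nil)))))) (.g (nat_lit 4) .nil .nil))))) (.nd (nat_lit 4) (.nd (nat_lit 5) 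
(.lf (nat_lit 132427) (.g (nat_lit 2256) (.e (nat_lit 16413) (nat_lit 2) (.e (nat_lit 196681) (nat_lit 17) (.e (nat_lit 131123) (nat_lit 12) (.e (nat_lit 385068) (nat_lit 26) (.e (nat_lit 532510) (nat_lit 2) (.e (nat_lit 106534) (nat_lit 11) .nil)))))) (.g (nat_lit 0) .nil .nil))) 
(.lf (nat_lit 132459) (.g (nat_lit 2384) (.e (nat_lit 16414) (nat_lit 3) (.e (nat_lit 204869) (nat_lit 29) (.e (nat_lit 360473) (nat_lit 8) (.e (nat_lit 557091) (nat_lit 12) (.e (nat_lit 164022) (nat_lit 46) .nil))))) .nil))) (.nd (nat_lit 5) 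
(.lf (nat_lit 132443) (.g (nat_lit 1525) (.e (nat_lit 16414) (nat_lit 3) (.e (nat_lit 204861) (nat_lit 26) (.e (nat_lit 336076) (nat_lit 9) (.e (nat_lit 336324) (nat_lit 18) .nil)))) .nil)) 
(.lf (nat_lit 132475) (.g (nat_lit 3668) (.e (nat_lit 16414) (nat_lit 3) (.e (nat_lit 204869) (nat_lit 29) (.e (nat_lit 360475) (nat_lit 8) (.e (nat_lit 557089) (nat_lit 12) .nil)))) .nil))))) (.nd (nat_lit 3) (.nd (nat_lit 4) (.nd (nat_lit 5) 
(.lf (nat_lit 132423) (.g (nat_lit 1423) (.e (nat_lit 16413) (nat_lit 2) (.e (nat_lit 196681) (nat_lit 17) (.e (nat_lit 131123) (nat_lit 12) (.e (nat_lit 385066) (nat_lit 26) (.e (nat_lit 532509) (nat_lit 2) (.e (nat_lit 106534) (nat_lit 11) .nil)))))) (.g (nat_lit 4) .nil .nil))) 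
(.lf (nat_lit 132455) (.g (nat_lit 1799) (.e (nat_lit 16414) (nat_lit 3) (.e (nat_lit 204868) (nat_lit 29) (.e (nat_lit 360474) (nat_lit 8) (.e (nat_lit 557094) (nat_lit 12) (.e (nat_lit 164022) (nat_lit 46) (.e (nat_lit 704738) (nat_lit 11) .nil)))))) (.g (nat_lit 4) .nil .nil)))) (.nd (nat_lit 5) 
(.lf (nat_lit 132439) (.g (nat_lit 3413) (.e (nat_lit 16414) (nat_lit 3) (.e (nat_lit 204855) (nat_lit 26) (.e (nat_lit 336176) (nat_lit 10) (.e (nat_lit 344132) (nat_lit 26) (.e (nat_lit 557094) (nat_lit 12) (.e (nat_lit 164022) (nat_lit 46) (.e (nat_lit 704738) (nat_lit 11) .nil))))))) (.g (nat_lit 0) .nil .nil))) 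
(.lf (nat_lit 132471) (.g (nat_lit 3537) (.e (nat_lit 16414) (nat_lit 3) (.e (nat_lit 204869) (nat_lit 29) (.e (nat_lit 360474) (nat_lit 8) (.e (nat_lit 557094) (nat_lit 12) (.e (nat_lit 164022) (nat_lit 46) (.e (nat_lit 704737) (nat_lit 11) .nil)))))) (.g (nat_lit 0) .nil .nil))))) (.nd (nat_lit 4) (.nd (nat_lit 5) 
(.lf (nat_lit 132431) (.g (nat_lit 1904) (.e (nat_lit 16414) (nat_lit 3) (.e (nat_lit 204855) (nat_lit 26) (.e (nat_lit 336176) (nat_lit 10) (.e (nat_lit 344130) (nat_lit 26) (.e (nat_lit 557090) (nat_lit 12) (.e (nat_lit 164022) (nat_lit 46) (.e (nat_lit 704735) (nat_lit 11) .nil))))))) (.g (nat_lit 4) .nil .nil))) 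
(.lf (nat_lit 132463) (.g (nat_lit 3573) (.e (nat_lit 16414) (nat_lit 3) (.e (nat_lit 204869) (nat_lit 29) (.e (nat_lit 360474) (nat_lit 8) (.e (nat_lit 557088) (nat_lit 12) .nil)))) .nil))) (.nd (nat_lit 5) 
(.lf (nat_lit 132447) (.g (nat_lit 3296) (.e (nat_lit 16414) (nat_lit 3) (.e (nat_lit 204868) (nat_lit 29) (.e (nat_lit 360473) (nat_lit 8) (.e (nat_lit 557091) (nat_lit 12) (.e (nat_lit 164022) (nat_lit 46) (.e (nat_lit 704737) (nat_lit 11) .nil)))))) (.g (nat_lit 0) .nil .nil))) 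
(.lf (nat_lit 132479) (.g (nat_lit 4417) (.e (nat_lit 16414) (nat_lit 3) (.e (nat_lit 204869) (nat_lit 29) (.e (nat_lit 360475) (nat_lit 8) (.e (nat_lit 557091) (nat_lit 12) (.e (nat_lit 164022) (nat_lit 46) (.e (nat_lit 704738) (nat_lit 11) .nil)))))) (.g (nat_lit 0) .nil .nil)))))))))

noncomputable def tv1767 : DT := (.nd (nat_lit 0) (.nd (nat_lit 1) (.nd (nat_lit 2) (.nd (nat_lit 3) (.nd (nat_lit 4) (.nd (nat_lit 5) 
(.lf (nat_lit 132480) (.g (nat_lit 4204) (.e (nat_lit 16414) (nat_lit 3) (.e (nat_lit 204869) (nat_lit 29) (.e (nat_lit 360475) (nat_lit 8) (.e (nat_lit 557093) (nat_lit 12) .nil)))) .nil)) 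
(.lf (nat_lit 132512) (.g (nat_lit 2885) (.e (nat_lit 16415) (nat_lit 3) (.e (nat_lit 204861) (nat_lit 26) (.e (nat_lit 336075) (nat_lit 9) (.e (nat_lit 336324) (nat_lit 18) (.e (nat_lit 204835) (nat_lit 19) (.e (nat_lit 106534) (nat_lit 11) .nil)))))) (.g (nat_lit 6) .nil .nil)))) (.nd (nat_lit 5) 
(.lf (nat_lit 132496) (.g (nat_lit 4053) (.e (nat_lit 16415) (nat_lit 3) (.e (nat_lit 204855) (nat_lit 26) (.e (nat_lit 336176) (nat_lit 10) (.e (nat_lit 344132) (nat_lit 26) (.e (nat_lit 557093) (nat_lit 12) (.e (nat_lit 164023) (nat_lit 46) (.e (nat_lit 704735) (nat_lit 11) .nil))))))) (.g (nat_lit 6) .nil .nil))) 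
(.lf (nat_lit 132528) (.g (nat_lit 2385) (.e (nat_lit 16415) (nat_lit 3) (.e (nat_lit 204861) (nat_lit 26) (.e (nat_lit 336076) (nat_lit 9) (.e (nat_lit 336326) (nat_lit 18) (.e (nat_lit 204834) (nat_lit 19) (.e (nat_lit 106534) (nat_lit 11) .nil)))))) (.g (nat_lit 4) .nil .nil))))) (.nd (nat_lit 4) (.nd (nat_lit 5) 
(.lf (nat_lit 132488) (.g (nat_lit 1151) (.e (nat_lit 16415) (nat_lit 3) (.e (nat_lit 204829) (nat_lit 18) (.e (nat_lit 57730) (nat_lit 181) .nil))) .nil)) 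
(.lf (nat_lit 132520) (.g (nat_lit 2118) (.e (nat_lit 16415) (nat_lit 3) (.e (nat_lit 204861) (nat_lit 26) (.e (nat_lit 336076) (nat_lit 9) (.e (nat_lit 336316) (nat_lit 17) (.e (nat_lit 196661) (nat_lit 12) (.e (nat_lit 57538) (nat_lit 46) (.e (nat_lit 704741) (nat_lit 11) .nil))))))) (.g (nat_lit 4) .nil .nil)))) (.nd (nat_lit 5) 
(.lf (nat_lit 132504) (.g (nat_lit 2978) (.e (nat_lit 16415) (nat_lit 3) (.e (nat_lit 204855) (nat_lit 26) (.e (nat_lit 336176) (nat_lit 10) (.e (nat_lit 344133) (nat_lit 26) (.e (nat_lit 557093) (nat_lit 12) .nil))))) .nil)) 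
(.lf (nat_lit 132536) (.g (nat_lit 1881) (.e (nat_lit 16415) (nat_lit 3) (.e (nat_lit 204861) (nat_lit 26) (.e (nat_lit 336194) (nat_lit 12) (.e (nat_lit 385068) (nat_lit 26) (.e (nat_lit 532486) (nat_lit 0) .nil))))) .nil))))) (.nd (nat_lit 3) (.nd (nat_lit 4) (.nd (nat_lit 5) 
(.lf (nat_lit 132484) (.g (nat_lit 1625) (.e (nat_lit 16414) (nat_lit 3) (.e (nat_lit 204870) (nat_lit 29) (.e (nat_lit 360473) (nat_lit 8) (.e (nat_lit 557093) (nat_lit 12) (.e (nat_lit 164023) (nat_lit 46) .nil))))) .nil)) 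
(.lf (nat_lit 132516) (.g (nat_lit 1749) (.e (nat_lit 16415) (nat_lit 3) (.e (nat_lit 204861) (nat_lit 26) (.e (nat_lit 336075) (nat_lit 9) (.e (nat_lit 336326) (nat_lit 18) (.e (nat_lit 204835) (nat_lit 19) (.e (nat_lit 106535) (nat_lit 11) .nil)))))) (.g (nat_lit 4) .nil .nil)))) (.nd (nat_lit 5) 
(.lf (nat_lit 132500) (.g (nat_lit 3104) (.e (nat_lit 16415) (nat_lit 3) (.e (nat_lit 204855) (nat_lit 26) (.e (nat_lit 336176) (nat_lit 10) (.e (nat_lit 344132) (nat_lit 26) (.e (nat_lit 557094) (nat_lit 12) (.e (nat_lit 164022) (nat_lit 46) (.e (nat_lit 704736) (nat_lit 11) .nil))))))) (.g (nat_lit 6) .nil .nil))) 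
(.lf (nat_lit 132532) (.g (nat_lit 1936) (.e (nat_lit 16415) (nat_lit 3) (.e (nat_lit 204861) (nat_lit 26) (.e (nat_lit 336194) (nat_lit 12) (.e (nat_lit 385064) (nat_lit 26) (.e (nat_lit 532508) (nat_lit 2) (.e (nat_lit 106534) (nat_lit 11) .nil)))))) (.g (nat_lit 4) .nil .nil))))) (.nd (nat_lit 4) (.nd (nat_lit 5) 
(.lf (nat_lit 132492) (.g (nat_lit 3959) (.e (nat_lit 16415) (nat_lit 3) (.e (nat_lit 204855) (nat_lit 26) (.e (nat_lit 336176) (nat_lit 10) (.e (nat_lit 344130) (nat_lit 26) (.e (nat_lit 557090) (nat_lit 12) (.e (nat_lit 164022) (nat_lit 46) (.e (nat_lit 704736) (nat_lit 11) .nil))))))) (.g (nat_lit 7) .nil .nil))) 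
(.lf (nat_lit 132524) (.g (nat_lit 3126) (.e (nat_lit 16415) (nat_lit 3) (.e (nat_lit 204861) (nat_lit 26) (.e (nat_lit 336076) (nat_lit 9) (.e (nat_lit 336324) (nat_lit 18) (.e (nat_lit 204835) (nat_lit 19) (.e (nat_lit 106534) (nat_lit 11) .nil)))))) (.g (nat_lit 6) .nil .nil)))) (.nd (nat_lit 5) 
(.lf (nat_lit 132508) (.g (nat_lit 1648) (.e (nat_lit 16415) (nat_lit 3) (.e (nat_lit 204861) (nat_lit 26) (.e (nat_lit 336075) (nat_lit 9) (.e (nat_lit 336316) (nat_lit 17) (.e (nat_lit 196661) (nat_lit 12) (.e (nat_lit 57538) (nat_lit 46) (.e (nat_lit 704741) (nat_lit 11) .nil))))))) (.g (nat_lit 4) .nil .nil))) 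
(.lf (nat_lit 132540) (.g (nat_lit 1926) (.e (nat_lit 16415) (nat_lit 3) (.e (nat_lit 204861) (nat_lit 26) (.e (nat_lit 336195) (nat_lit 12) (.e (nat_lit 385066) (nat_lit 26) (.e (nat_lit 532511) (nat_lit 2) (.e (nat_lit 106535) (nat_lit 11) .nil)))))) (.g (nat_lit 4) .nil .nil))))))) (.nd (nat_lit 2) (.nd (nat_lit 3) (.nd (nat_lit 4) (.nd (nat_lit 5) 
(.lf (nat_lit 132482) (.g (nat_lit 1919) (.e (nat_lit 16414) (nat_lit 3) (.e (nat_lit 204870) (nat_lit 29) (.e (nat_lit 360473) (nat_lit 8) (.e (nat_lit 557091) (nat_lit 12) (.e (nat_lit 164022) (nat_lit 46) .nil))))) .nil)) 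
(.lf (nat_lit 132514) (.g (nat_lit 774) (.e (nat_lit 16415) (nat_lit 3) (.e (nat_lit 204861) (nat_lit 26) (.e (nat_lit 336075) (nat_lit 9) (.e (nat_lit 336325) (nat_lit 18) .nil)))) .nil))) (.nd (nat_lit 5) 
(.lf (nat_lit 132498) (.g (nat_lit 4710) (.e (nat_lit 16415) (nat_lit 3) (.e (nat_lit 204855) (nat_lit 26) (.e (nat_lit 336176) (nat_lit 10) (.e (nat_lit 344132) (nat_lit 26) (.e (nat_lit 557093) (nat_lit 12) (.e (nat_lit 164023) (nat_lit 46) (.e (nat_lit 704737) (nat_lit 11) .nil))))))) (.g (nat_lit 7) .nil .nil))) 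
(.lf (nat_lit 132530) (.g (nat_lit 2296) (.e (nat_lit 16415) (nat_lit 3) (.e (nat_lit 204861) (nat_lit 26) (.e (nat_lit 336076) (nat_lit 9) (.e (nat_lit 336326) (nat_lit 18) (.e (nat_lit 204835) (nat_lit 19) (.e (nat_lit 106535) (nat_lit 11) .nil)))))) (.g (nat_lit 4) .nil .nil))))) (.nd (nat_lit 4) (.nd (nat_lit 5) 
(.lf (nat_lit 132490) (.g (nat_lit 1598) (.e (nat_lit 16415) (nat_lit 3) (.e (nat_lit 204854) (nat_lit 26) (.e (nat_lit 336182) (nat_lit 11) (.e (nat_lit 376576) (nat_lit 23) .nil)))) .nil)) 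
(.lf (nat_lit 132522) (.g (nat_lit 2876) (.e (nat_lit 16415) (nat_lit 3) (.e (nat_lit 204861) (nat_lit 26) (.e (nat_lit 336076) (nat_lit 9) (.e (nat_lit 336324) (nat_lit 18) (.e (nat_lit 204834) (nat_lit 19) (.e (nat_lit 106534) (nat_lit 11) .nil)))))) (.g (nat_lit 6) .nil .nil)))) (.nd (nat_lit 5) 
(.lf (nat_lit 132506) (.g (nat_lit 1890) (.e (nat_lit 16415) (nat_lit 3) (.e (nat_lit 204861) (nat_lit 26) (.e (nat_lit 336075) (nat_lit 9) (.e (nat_lit 336316) (nat_lit 17) (.e (nat_lit 196661) (nat_lit 12) (.e (nat_lit 57531) (nat_lit 46) (.e (nat_lit 712448) (nat_lit 11) .nil))))))) (.g (nat_lit 4) .nil .nil))) 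
(.lf (nat_lit 132538) (.g (nat_lit 1967) (.e (nat_lit 16415) (nat_lit 3) (.e (nat_lit 204861) (nat_lit 26) (.e (nat_lit 336194) (nat_lit 12) (.e (nat_lit 385068) (nat_lit 26) (.e (nat_lit 532510) (nat_lit 2) (.e (nat_lit 106535) (nat_lit 11) .nil)))))) (.g (nat_lit 4) .nil .nil)))))) (.nd (nat_lit 3) (.nd (nat_lit 4) (.nd (nat_lit 5) 
(.lf (nat_lit 132486) (.g (nat_lit 1005) (.e (nat_lit 16415) (nat_lit 3) (.e (nat_lit 204816) (nat_lit 17) (.e (nat_lit 6437) (nat_lit 343) (.e (nat_lit 1633) (nat_lit 114) (.e (nat_lit 385068) (nat_lit 26) .nil))))) .nil)) 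
(.lf (nat_lit 132518) (.g (nat_lit 2223) (.e (nat_lit 16415) (nat_lit 3) (.e (nat_lit 204861) (nat_lit 26) (.e (nat_lit 336076) (nat_lit 9) (.e (nat_lit 336316) (nat_lit 17) (.e (nat_lit 196661) (nat_lit 12) (.e (nat_lit 57531) (nat_lit 46) (.e (nat_lit 712448) (nat_lit 11) .nil))))))) (.g (nat_lit 4) .nil .nil)))) (.nd (nat_lit 5) 
(.lf (nat_lit 132502) (.g (nat_lit 3879) (.e (nat_lit 16415) (nat_lit 3) (.e (nat_lit 204855) (nat_lit 26) (.e (nat_lit 336176) (nat_lit 10) (.e (nat_lit 344133) (nat_lit 26) (.e (nat_lit 557091) (nat_lit 12) (.e (nat_lit 164022) (nat_lit 46) (.e (nat_lit 704736) (nat_lit 11) .nil))))))) (.g (nat_lit 6) .nil .nil))) 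
(.lf (nat_lit 132534) (.g (nat_lit 1773) (.e (nat_lit 16415) (nat_lit 3) (.e (nat_lit 204861) (nat_lit 26) (.e (nat_lit 336194) (nat_lit 12) (.e (nat_lit 385066) (nat_lit 26) (.e (nat_lit 532509) (nat_lit 2) .nil))))) .nil)))) (.nd (nat_lit 4) (.nd (nat_lit 5) 
(.lf (nat_lit 132494) (.g (nat_lit 2929) (.e (nat_lit 16415) (nat_lit 3) (.e (nat_lit 204855) (nat_lit 26) (.e (nat_lit 336176) (nat_lit 10) (.e (nat_lit 344132) (nat_lit 26) (.e (nat_lit 557093) (nat_lit 12) (.e (nat_lit 164022) (nat_lit 46) (.e (nat_lit 704735) (nat_lit 11) .nil))))))) (.g (nat_lit 5) .nil .nil))) 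
(.lf (nat_lit 132526) (.g (nat_lit 1275) (.e (nat_lit 16415) (nat_lit 3) (.e (nat_lit 204861) (nat_lit 26) (.e (nat_lit 336076) (nat_lit 9) (.e (nat_lit 336325) (nat_lit 18) .nil)))) .nil))) (.nd (nat_lit 5) 
(.lf (nat_lit 132510) (.g (nat_lit 2652) (.e (nat_lit 16415) (nat_lit 3) (.e (nat_lit 204861) (nat_lit 26) (.e (nat_lit 336075) (nat_lit 9) (.e (nat_lit 336324) (nat_lit 18) (.e (nat_lit 204834) (nat_lit 19) (.e (nat_lit 106534) (nat_lit 11) .nil)))))) (.g (nat_lit 6) .nil .nil))) 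
(.lf (nat_lit 132542) (.g (nat_lit 2153) (.e (nat_lit 16415) (nat_lit 3) (.e (nat_lit 204861) (nat_lit 26) (.e (nat_lit 336196) (nat_lit 12) (.e (nat_lit 385066) (nat_lit 26) (.e (nat_lit 532510) (nat_lit 2) .nil))))) .nil))))))) (.nd (nat_lit 1) (.nd (nat_lit 2) (.nd (nat_lit 3) (.nd (nat_lit 4) (.nd (nat_lit 5) 
(.lf (nat_lit 132481) (.g (nat_lit 3689) (.e (nat_lit 16414) (nat_lit 3) (.e (nat_lit 204869) (nat_lit 29) (.e (nat_lit 360475) (nat_lit 8) (.e (nat_lit 557094) (nat_lit 12) .nil)))) .nil)) 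
(.lf (nat_lit 132513) (.g (nat_lit 2976) (.e (nat_lit 16415) (nat_lit 3) (.e (nat_lit 204861) (nat_lit 26) (.e (nat_lit 336075) (nat_lit 9) (.e (nat_lit 336324) (nat_lit 18) (.e (nat_lit 204835) (nat_lit 19) (.e (nat_lit 106535) (nat_lit 11) .nil)))))) (.g (nat_lit 6) .nil .nil)))) (.nd (nat_lit 5) 
(.lf (nat_lit 132497) (.g (nat_lit 2832) (.e (nat_lit 16415) (nat_lit 3) (.e (nat_lit 204855) (nat_lit 26) (.e (nat_lit 336176) (nat_lit 10) (.e (nat_lit 344132) (nat_lit 26) (.e (nat_lit 557093) (nat_lit 12) (.e (nat_lit 164023) (nat_lit 46) (.e (nat_lit 704736) (nat_lit 11) .nil))))))) (.g (nat_lit 5) .nil .nil))) 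
(.lf (nat_lit 132529) (.g (nat_lit 2170) (.e (nat_lit 16415) (nat_lit 3) (.e (nat_lit 204861) (nat_lit 26) (.e (nat_lit 336076) (nat_lit 9) (.e (nat_lit 336326) (nat_lit 18) (.e (nat_lit 204834) (nat_lit 19) (.e (nat_lit 106536) (nat_lit 11) .nil)))))) (.g (nat_lit 4) .nil .nil))))) (.nd (nat_lit 4) (.nd (nat_lit 5) 
(.lf (nat_lit 132489) (.g (nat_lit 1151) (.e (nat_lit 16415) (nat_lit 3) (.e (nat_lit 204829) (nat_lit 18) (.e (nat_lit 57735) (nat_lit 183) .nil))) .nil)) 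
(.lf (nat_lit 132521) (.g (nat_lit 2365) (.e (nat_lit 16415) (nat_lit 3) (.e (nat_lit 204861) (nat_lit 26) (.e (nat_lit 336076) (nat_lit 9) (.e (nat_lit 336324) (nat_lit 18) (.e (nat_lit 204816) (nat_lit 17) (.e (nat_lit 2099) (nat_lit 142) (.e (nat_lit 712448) (nat_lit 11) .nil))))))) (.g (nat_lit 5) .nil .nil)))) (.nd (nat_lit 5) 
(.lf (nat_lit 132505) (.g (nat_lit 2044) (.e (nat_lit 16415) (nat_lit 3) (.e (nat_lit 204861) (nat_lit 26) (.e (nat_lit 336075) (nat_lit 9) (.e (nat_lit 336316) (nat_lit 17) (.e (nat_lit 196661) (nat_lit 12) (.e (nat_lit 57530) (nat_lit 46) (.e (nat_lit 712448) (nat_lit 11) .nil))))))) (.g (nat_lit 5) .nil .nil))) 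
(.lf (nat_lit 132537) (.g (nat_lit 2035) (.e (nat_lit 16415) (nat_lit 3) (.e (nat_lit 204861) (nat_lit 26) (.e (nat_lit 336194) (nat_lit 12) (.e (nat_lit 385068) (nat_lit 26) (.e (nat_lit 532508) (nat_lit 2) (.e (nat_lit 114432) (nat_lit 11) .nil)))))) (.g (nat_lit 4) .nil .nil)))))) (.nd (nat_lit 3) (.nd (nat_lit 4) (.nd (nat_lit 5) 
(.lf (nat_lit 132485) (.g (nat_lit 1382) (.e (nat_lit 16414) (nat_lit 3) (.e (nat_lit 204870) (nat_lit 29) (.e (nat_lit 360473) (nat_lit 8) (.e (nat_lit 557094) (nat_lit 12) (.e (nat_lit 164022) (nat_lit 46) .nil))))) .nil)) 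
(.lf (nat_lit 132517) (.g (nat_lit 2377) (.e (nat_lit 16415) (nat_lit 3) (.e (nat_lit 204861) (nat_lit 26) (.e (nat_lit 336076) (nat_lit 9) (.e (nat_lit 336316) (nat_lit 17) (.e (nat_lit 196661) (nat_lit 12) (.e (nat_lit 57530) (nat_lit 46) (.e (nat_lit 712448) (nat_lit 11) .nil))))))) (.g (nat_lit 4) .nil .nil)))) (.nd (nat_lit 5) 
(.lf (nat_lit 132501) (.g (nat_lit 3379) (.e (nat_lit 16415) (nat_lit 3) (.e (nat_lit 204855) (nat_lit 26) (.e (nat_lit 336176) (nat_lit 10) (.e (nat_lit 344133) (nat_lit 26) (.e (nat_lit 557091) (nat_lit 12) (.e (nat_lit 164022) (nat_lit 46) (.e (nat_lit 704735) (nat_lit 11) .nil))))))) (.g (nat_lit 5) .nil .nil))) 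
(.lf (nat_lit 132533) (.g (nat_lit 1909) (.e (nat_lit 16415) (nat_lit 3) (.e (nat_lit 204861) (nat_lit 26) (.e (nat_lit 336194) (nat_lit 12) (.e (nat_lit 385066) (nat_lit 26) (.e (nat_lit 532508) (nat_lit 2) (.e (nat_lit 114432) (nat_lit 11) .nil)))))) (.g (nat_lit 4) .nil .nil))))) (.nd (nat_lit 4) (.nd (nat_lit 5) 
(.lf (nat_lit 132493) (.g (nat_lit 4338) (.e (nat_lit 16415) (nat_lit 3) (.e (nat_lit 204855) (nat_lit 26) (.e (nat_lit 336176) (nat_lit 10) (.e (nat_lit 344130) (nat_lit 26) (.e (nat_lit 557090) (nat_lit 12) (.e (nat_lit 164022) (nat_lit 46) (.e (nat_lit 704737) (nat_lit 11) .nil))))))) (.g (nat_lit 7) .nil .nil))) 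
(.lf (nat_lit 132525) (.g (nat_lit 3180) (.e (nat_lit 16415) (nat_lit 3) (.e (nat_lit 204861) (nat_lit 26) (.e (nat_lit 336076) (nat_lit 9) (.e (nat_lit 336324) (nat_lit 18) (.e (nat_lit 204835) (nat_lit 19) (.e (nat_lit 106535) (nat_lit 11) .nil)))))) (.g (nat_lit 5) .nil .nil)))) (.nd (nat_lit 5) 
(.lf (nat_lit 132509) (.g (nat_lit 2231) (.e (nat_lit 16415) (nat_lit 3) (.e (nat_lit 204861) (nat_lit 26) (.e (nat_lit 336075) (nat_lit 9) (.e (nat_lit 336324) (nat_lit 18) (.e (nat_lit 204816) (nat_lit 17) (.e (nat_lit 2099) (nat_lit 142) (.e (nat_lit 712448) (nat_lit 11) .nil))))))) (.g (nat_lit 5) .nil .nil))) 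
(.lf (nat_lit 132541) (.g (nat_lit 1406) (.e (nat_lit 16415) (nat_lit 3) (.e (nat_lit 204861) (nat_lit 26) (.e (nat_lit 336196) (nat_lit 12) (.e (nat_lit 385066) (nat_lit 26) .nil)))) .nil)))))) (.nd (nat_lit 2) (.nd (nat_lit 3) (.nd (nat_lit 4) (.nd (nat_lit 5) 
(.lf (nat_lit 132483) (.g (nat_lit 1985) (.e (nat_lit 16414) (nat_lit 3) (.e (nat_lit 204870) (nat_lit 29) (.e (nat_lit 360473) (nat_lit 8) (.e (nat_lit 557091) (nat_lit 12) (.e (nat_lit 164022) (nat_lit 46) (.e (nat_lit 704738) (nat_lit 11) .nil)))))) (.g (nat_lit 4) .nil .nil))) 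
(.lf (nat_lit 132515) (.g (nat_lit 2044) (.e (nat_lit 16415) (nat_lit 3) (.e (nat_lit 204861) (nat_lit 26) (.e (nat_lit 336075) (nat_lit 9) (.e (nat_lit 336326) (nat_lit 18) (.e (nat_lit 204834) (nat_lit 19) (.e (nat_lit 106534) (nat_lit 11) .nil)))))) (.g (nat_lit 5) .nil .nil)))) (.nd (nat_lit 5) 
(.lf (nat_lit 132499) (.g (nat_lit 2584) (.e (nat_lit 16415) (nat_lit 3) (.e (nat_lit 204855) (nat_lit 26) (.e (nat_lit 336176) (nat_lit 10) (.e (nat_lit 344132) (nat_lit 26) (.e (nat_lit 557094) (nat_lit 12) (.e (nat_lit 164022) (nat_lit 46) (.e (nat_lit 704735) (nat_lit 11) .nil))))))) (.g (nat_lit 5) .nil .nil))) 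
(.lf (nat_lit 132531) (.g (nat_lit 1241) (.e (nat_lit 16415) (nat_lit 3) (.e (nat_lit 204861) (nat_lit 26) (.e (nat_lit 336194) (nat_lit 12) (.e (nat_lit 385064) (nat_lit 26) .nil)))) .nil)))) (.nd (nat_lit 4) (.nd (nat_lit 5) 
(.lf (nat_lit 132491) (.g (nat_lit 3427) (.e (nat_lit 16415) (nat_lit 3) (.e (nat_lit 204855) (nat_lit 26) (.e (nat_lit 336176) (nat_lit 10) (.e (nat_lit 344130) (nat_lit 26) (.e (nat_lit 557090) (nat_lit 12) (.e (nat_lit 164022) (nat_lit 46) (.e (nat_lit 704735) (nat_lit 11) .nil))))))) (.g (nat_lit 5) .nil .nil))) 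
(.lf (nat_lit 132523) (.g (nat_lit 1808) (.e (nat_lit 16415) (nat_lit 3) (.e (nat_lit 204861) (nat_lit 26) (.e (nat_lit 336076) (nat_lit 9) (.e (nat_lit 336324) (nat_lit 18) (.e (nat_lit 204834) (nat_lit 19) (.e (nat_lit 114432) (nat_lit 11) .nil)))))) (.g (nat_lit 4) .nil .nil)))) (.nd (nat_lit 5) 
(.lf (nat_lit 132507) (.g (nat_lit 2002) (.e (nat_lit 16415) (nat_lit 3) (.e (nat_lit 204861) (nat_lit 26) (.e (nat_lit 336075) (nat_lit 9) (.e (nat_lit 336316) (nat_lit 17) (.e (nat_lit 196661) (nat_lit 12) (.e (nat_lit 57532) (nat_lit 46) (.e (nat_lit 712448) (nat_lit 11) .nil))))))) (.g (nat_lit 4) .nil .nil))) 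
(.lf (nat_lit 132539) (.g (nat_lit 669) (.e (nat_lit 16415) (nat_lit 3) (.e (nat_lit 204861) (nat_lit 26) (.e (nat_lit 336195) (nat_lit 12) .nil))) .nil))))) (.nd (nat_lit 3) (.nd (nat_lit 4) (.nd (nat_lit 5) 
(.lf (nat_lit 132487) (.g (nat_lit 2079) (.e (nat_lit 16415) (nat_lit 3) (.e (nat_lit 204829) (nat_lit 18) (.e (nat_lit 57692) (nat_lit 156) (.e (nat_lit 171776) (nat_lit 63) .nil)))) .nil)) 
(.lf (nat_lit 132519) (.g (nat_lit 2333) (.e (nat_lit 16415) (nat_lit 3) (.e (nat_lit 204861) (nat_lit 26) (.e (nat_lit 336076) (nat_lit 9) (.e (nat_lit 336316) (nat_lit 17) (.e (nat_lit 196661) (nat_lit 12) (.e (nat_lit 57532) (nat_lit 46) (.e (nat_lit 712448) (nat_lit 11) .nil))))))) (.g (nat_lit 4) .nil .nil)))) (.nd (nat_lit 5) 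
(.lf (nat_lit 132503) (.g (nat_lit 4349) (.e (nat_lit 16415) (nat_lit 3) (.e (nat_lit 204855) (nat_lit 26) (.e (nat_lit 336176) (nat_lit 10) (.e (nat_lit 344133) (nat_lit 26) (.e (nat_lit 557091) (nat_lit 12) (.e (nat_lit 164022) (nat_lit 46) (.e (nat_lit 704737) (nat_lit 11) .nil))))))) (.g (nat_lit 7) .nil .nil))) 
(.lf (nat_lit 132535) (.g (nat_lit 1981) (.e (nat_lit 16415) (nat_lit 3) (.e (nat_lit 204861) (nat_lit 26) (.e (nat_lit 336194) (nat_lit 12) (.e (nat_lit 385066) (nat_lit 26) (.e (nat_lit 532510) (nat_lit 2) (.e (nat_lit 106535) (nat_lit 11) .nil)))))) (.g (nat_lit 4) .nil .nil))))) (.nd (nat_lit 4) (.nd (nat_lit 5) 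
(.lf (nat_lit 132495) (.g (nat_lit 3432) (.e (nat_lit 16415) (nat_lit 3) (.e (nat_lit 204855) (nat_lit 26) (.e (nat_lit 336176) (nat_lit 10) (.e (nat_lit 344132) (nat_lit 26) (.e (nat_lit 557093) (nat_lit 12) (.e (nat_lit 164022) (nat_lit 46) (.e (nat_lit 704736) (nat_lit 11) .nil))))))) (.g (nat_lit 6) .nil .nil))) 
(.lf (nat_lit 132527) (.g (nat_lit 3336) (.e (nat_lit 16415) (nat_lit 3) (.e (nat_lit 204861) (nat_lit 26) (.e (nat_lit 336076) (nat_lit 9) (.e (nat_lit 336326) (nat_lit 18) (.e (nat_lit 204833) (nat_lit 19) (.e (nat_lit 106536) (nat_lit 11) .nil)))))) (.g (nat_lit 0) .nil .nil)))) (.nd (nat_lit 5) 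
(.lf (nat_lit 132511) (.g (nat_lit 1585) (.e (nat_lit 16415) (nat_lit 3) (.e (nat_lit 204861) (nat_lit 26) (.e (nat_lit 336075) (nat_lit 9) (.e (nat_lit 336324) (nat_lit 18) (.e (nat_lit 204834) (nat_lit 19) (.e (nat_lit 114432) (nat_lit 11) .nil)))))) (.g (nat_lit 4) .nil .nil))) 
(.lf (nat_lit 132543) (.g (nat_lit 2164) (.e (nat_lit 16415) (nat_lit 3) (.e (nat_lit 204861) (nat_lit 26) (.e (nat_lit 336196) (nat_lit 12) (.e (nat_lit 385066) (nat_lit 26) (.e (nat_lit 532511) (nat_lit 2) .nil))))) .nil))))))))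

noncomputable def tv1768 : DT := (.nd (nat_lit 0) (.nd (nat_lit 1) (.nd (nat_lit 2) (.nd (nat_lit 3) (.nd (nat_lit 4) (.nd (nat_lit 5) 
(.lf (nat_lit 132544) (.g (nat_lit 1843) (.e (nat_lit 16415) (nat_lit 3) (.e (nat_lit 204868) (nat_lit 29) (.e (nat_lit 360473) (nat_lit 8) (.e (nat_lit 557068) (nat_lit 9) (.e (nat_lit 2739) (nat_lit 174) .nil))))) .nil)) 
(.lf (nat_lit 132576) (.g (nat_lit 5064) (.e (nat_lit 16415) (nat_lit 3) (.e (nat_lit 204869) (nat_lit 29) (.e (nat_lit 360474) (nat_lit 8) (.e (nat_lit 557093) (nat_lit 12) (.e (nat_lit 164023) (nat_lit 46) (.e (nat_lit 704737) (nat_lit 11) .nil)))))) (.g (nat_lit 6) .nil .nil)))) (.nd (nat_lit 5) 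
(.lf (nat_lit 132560) (.g (nat_lit 4822) (.e (nat_lit 16415) (nat_lit 3) (.e (nat_lit 204868) (nat_lit 29) (.e (nat_lit 360475) (nat_lit 8) (.e (nat_lit 557091) (nat_lit 12) (.e (nat_lit 164022) (nat_lit 46) (.e (nat_lit 704736) (nat_lit 11) .nil)))))) (.g (nat_lit 0) .nil .nil))) 
(.lf (nat_lit 132592) (.g (nat_lit 4140) (.e (nat_lit 16415) (nat_lit 3) (.e (nat_lit 204869) (nat_lit 29) (.e (nat_lit 360475) (nat_lit 8) (.e (nat_lit 557093) (nat_lit 12) .nil)))) .nil)))) (.nd (nat_lit 4) (.nd (nat_lit 5) 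
(.lf (nat_lit 132552) (.g (nat_lit 2439) (.e (nat_lit 16415) (nat_lit 3) (.e (nat_lit 204868) (nat_lit 29) (.e (nat_lit 360474) (nat_lit 8) (.e (nat_lit 557093) (nat_lit 12) (.e (nat_lit 164023) (nat_lit 46) (.e (nat_lit 704735) (nat_lit 11) .nil)))))) (.g (nat_lit 4) .nil .nil))) 
(.lf (nat_lit 132584) (.g (nat_lit 4098) (.e (nat_lit 16415) (nat_lit 3) (.e (nat_lit 204869) (nat_lit 29) (.e (nat_lit 360475) (nat_lit 8) (.e (nat_lit 557069) (nat_lit 9) .nil)))) .nil))) (.nd (nat_lit 5) 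
(.lf (nat_lit 132568) (.g (nat_lit 3863) (.e (nat_lit 16415) (nat_lit 3) (.e (nat_lit 204869) (nat_lit 29) (.e (nat_lit 360474) (nat_lit 8) (.e (nat_lit 557088) (nat_lit 12) .nil)))) .nil)) 
(.lf (nat_lit 132600) (.g (nat_lit 3014) (.e (nat_lit 16415) (nat_lit 3) (.e (nat_lit 204883) (nat_lit 33) (.e (nat_lit 401454) (nat_lit 12) (.e (nat_lit 475176) (nat_lit 24) (.e (nat_lit 516124) (nat_lit 2) .nil))))) .nil))))) (.nd (nat_lit 3) (.nd (nat_lit 4) (.nd (nat_lit 5) 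
(.lf (nat_lit 132548) (.g (nat_lit 3745) (.e (nat_lit 16415) (nat_lit 3) (.e (nat_lit 204868) (nat_lit 29) (.e (nat_lit 360473) (nat_lit 8) (.e (nat_lit 557093) (nat_lit 12) (.e (nat_lit 164023) (nat_lit 46) (.e (nat_lit 704735) (nat_lit 11) .nil)))))) (.g (nat_lit 0) .nil .nil))) 
(.lf (nat_lit 132580) (.g (nat_lit 3490) (.e (nat_lit 16415) (nat_lit 3) (.e (nat_lit 204869) (nat_lit 29) (.e (nat_lit 360475) (nat_lit 8) (.e (nat_lit 557065) (nat_lit 9) (.e (nat_lit 2741) (nat_lit 174) .nil))))) .nil))) (.nd (nat_lit 5) 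
(.lf (nat_lit 132564) (.g (nat_lit 2309) (.e (nat_lit 16415) (nat_lit 3) (.e (nat_lit 204869) (nat_lit 29) (.e (nat_lit 360474) (nat_lit 8) (.e (nat_lit 557065) (nat_lit 9) .nil)))) .nil)) 
(.lf (nat_lit 132596) (.g (nat_lit 2141) (.e (nat_lit 16415) (nat_lit 3) (.e (nat_lit 204870) (nat_lit 29) (.e (nat_lit 360473) (nat_lit 8) (.e (nat_lit 557093) (nat_lit 12) (.e (nat_lit 164022) (nat_lit 46) (.e (nat_lit 704736) (nat_lit 11) .nil)))))) (.g (nat_lit 4) .nil .nil))))) (.nd (nat_lit 4) (.nd (nat_lit 5) 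
(.lf (nat_lit 132556) (.g (nat_lit 3185) (.e (nat_lit 16415) (nat_lit 3) (.e (nat_lit 204868) (nat_lit 29) (.e (nat_lit 360475) (nat_lit 8) (.e (nat_lit 557068) (nat_lit 9) (.e (nat_lit 2739) (nat_lit 174) .nil))))) .nil)) 
(.lf (nat_lit 132588) (.g (nat_lit 5276) (.e (nat_lit 16415) (nat_lit 3) (.e (nat_lit 204869) (nat_lit 29) (.e (nat_lit 360475) (nat_lit 8) (.e (nat_lit 557090) (nat_lit 12) .nil)))) .nil))) (.nd (nat_lit 5) 
(.lf (nat_lit 132572) (.g (nat_lit 3772) (.e (nat_lit 16415) (nat_lit 3) (.e (nat_lit 204869) (nat_lit 29) (.e (nat_lit 360474) (nat_lit 8) (.e (nat_lit 557093) (nat_lit 12) (.e (nat_lit 164022) (nat_lit 46) (.e (nat_lit 704735) (nat_lit 11) .nil)))))) (.g (nat_lit 5) .nil .nil))) 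
(.lf (nat_lit 132604) (.g (nat_lit 1341) (.e (nat_lit 16415) (nat_lit 3) (.e (nat_lit 204885) (nat_lit 33) (.e (nat_lit 401448) (nat_lit 10) (.e (nat_lit 434232) (nat_lit 23) .nil)))) .nil)))))) (.nd (nat_lit 2) (.nd (nat_lit 3) (.nd (nat_lit 4) (.nd (nat_lit 5) 
(.lf (nat_lit 132546) (.g (nat_lit 3765) (.e (nat_lit 16415) (nat_lit 3) (.e (nat_lit 204868) (nat_lit 29) (.e (nat_lit 360473) (nat_lit 8) (.e (nat_lit 557091) (nat_lit 12) (.e (nat_lit 164022) (nat_lit 46) (.e (nat_lit 704736) (nat_lit 11) .nil)))))) (.g (nat_lit 0) .nil .nil))) 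
(.lf (nat_lit 132578) (.g (nat_lit 3410) (.e (nat_lit 16415) (nat_lit 3) (.e (nat_lit 204869) (nat_lit 29) (.e (nat_lit 360474) (nat_lit 8) (.e (nat_lit 557094) (nat_lit 12) (.e (nat_lit 164022) (nat_lit 46) (.e (nat_lit 704735) (nat_lit 11) .nil)))))) (.g (nat_lit 5) .nil .nil)))) (.nd (nat_lit 5) 
(.lf (nat_lit 132562) (.g (nat_lit 2326) (.e (nat_lit 16415) (nat_lit 3) (.e (nat_lit 204869) (nat_lit 29) (.e (nat_lit 360473) (nat_lit 8) (.e (nat_lit 557093) (nat_lit 12) .nil)))) .nil)) 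
(.lf (nat_lit 132594) (.g (nat_lit 2202) (.e (nat_lit 16415) (nat_lit 3) (.e (nat_lit 204870) (nat_lit 29) (.e (nat_lit 360473) (nat_lit 8) (.e (nat_lit 557091) (nat_lit 12) (.e (nat_lit 164022) (nat_lit 46) (.e (nat_lit 704735) (nat_lit 11) .nil)))))) (.g (nat_lit 4) .nil .nil))))) (.nd (nat_lit 4) (.nd (nat_lit 5) 
(.lf (nat_lit 132554) (.g (nat_lit 3045) (.e (nat_lit 16415) (nat_lit 3) (.e (nat_lit 204868) (nat_lit 29) (.e (nat_lit 360475) (nat_lit 8) (.e (nat_lit 557067) (nat_lit 9) .nil)))) .nil)) 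
(.lf (nat_lit 132586) (.g (nat_lit 2876) (.e (nat_lit 16415) (nat_lit 3) (.e (nat_lit 204869) (nat_lit 29) (.e (nat_lit 360475) (nat_lit 8) (.e (nat_lit 557073) (nat_lit 9) .nil)))) .nil))) (.nd (nat_lit 5) 
(.lf (nat_lit 132570) (.g (nat_lit 4717) (.e (nat_lit 16415) (nat_lit 3) (.e (nat_lit 204869) (nat_lit 29) (.e (nat_lit 360474) (nat_lit 8) (.e (nat_lit 557091) (nat_lit 12) (.e (nat_lit 164022) (nat_lit 46) (.e (nat_lit 704737) (nat_lit 11) .nil)))))) (.g (nat_lit 6) .nil .nil))) 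
(.lf (nat_lit 132602) (.g (nat_lit 3618) (.e (nat_lit 16415) (nat_lit 3) (.e (nat_lit 204883) (nat_lit 33) (.e (nat_lit 401454) (nat_lit 12) (.e (nat_lit 475178) (nat_lit 24) (.e (nat_lit 516124) (nat_lit 2) (.e (nat_lit 220928) (nat_lit 2) .nil)))))) (.g (nat_lit 5) .nil .nil)))))) (.nd (nat_lit 3) (.nd (nat_lit 4) (.nd (nat_lit 5) 
(.lf (nat_lit 132550) (.g (nat_lit 3218) (.e (nat_lit 16415) (nat_lit 3) (.e (nat_lit 204868) (nat_lit 29) (.e (nat_lit 360473) (nat_lit 8) (.e (nat_lit 557094) (nat_lit 12) (.e (nat_lit 164022) (nat_lit 46) (.e (nat_lit 704736) (nat_lit 11) .nil)))))) (.g (nat_lit 0) .nil .nil))) 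
(.lf (nat_lit 132582) (.g (nat_lit 3643) (.e (nat_lit 16415) (nat_lit 3) (.e (nat_lit 204869) (nat_lit 29) (.e (nat_lit 360475) (nat_lit 8) (.e (nat_lit 557068) (nat_lit 9) .nil)))) .nil))) (.nd (nat_lit 5) 
(.lf (nat_lit 132566) (.g (nat_lit 2448) (.e (nat_lit 16415) (nat_lit 3) (.e (nat_lit 204869) (nat_lit 29) (.e (nat_lit 360474) (nat_lit 8) (.e (nat_lit 557072) (nat_lit 9) .nil)))) .nil)) 
(.lf (nat_lit 132598) (.g (nat_lit 1094) (.e (nat_lit 16415) (nat_lit 3) (.e (nat_lit 204880) (nat_lit 32) (.e (nat_lit 392960) (nat_lit 42) .nil))) .nil)))) (.nd (nat_lit 4) (.nd (nat_lit 5) 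
(.lf (nat_lit 132558) (.g (nat_lit 1935) (.e (nat_lit 16415) (nat_lit 3) (.e (nat_lit 204868) (nat_lit 29) (.e (nat_lit 360475) (nat_lit 8) (.e (nat_lit 557091) (nat_lit 12) .nil)))) .nil)) 
(.lf (nat_lit 132590) (.g (nat_lit 4394) (.e (nat_lit 16415) (nat_lit 3) (.e (nat_lit 204869) (nat_lit 29) (.e (nat_lit 360475) (nat_lit 8) (.e (nat_lit 557091) (nat_lit 12) (.e (nat_lit 164022) (nat_lit 46) (.e (nat_lit 704735) (nat_lit 11) .nil)))))) (.g (nat_lit 5) .nil .nil)))) (.nd (nat_lit 5) 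
(.lf (nat_lit 132574) (.g (nat_lit 4433) (.e (nat_lit 16415) (nat_lit 3) (.e (nat_lit 204869) (nat_lit 29) (.e (nat_lit 360474) (nat_lit 8) (.e (nat_lit 557093) (nat_lit 12) (.e (nat_lit 164023) (nat_lit 46) (.e (nat_lit 704735) (nat_lit 11) .nil)))))) (.g (nat_lit 6) .nil .nil))) 
(.lf (nat_lit 132606) (.g (nat_lit 2231) (.e (nat_lit 16416) (nat_lit 3) (.e (nat_lit 204809) (nat_lit 9) (.e (nat_lit 426133) (nat_lit 3) (.e (nat_lit 204813) (nat_lit 9) (.e (nat_lit 426009) (nat_lit 0) .nil))))) .nil))))))) (.nd (nat_lit 1) (.nd (nat_lit 2) (.nd (nat_lit 3) (.nd (nat_lit 4) (.nd (nat_lit 5) 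
(.lf (nat_lit 132545) (.g (nat_lit 3277) (.e (nat_lit 16415) (nat_lit 3) (.e (nat_lit 204868) (nat_lit 29) (.e (nat_lit 360473) (nat_lit 8) (.e (nat_lit 557091) (nat_lit 12) (.e (nat_lit 164022) (nat_lit 46) (.e (nat_lit 704735) (nat_lit 11) .nil)))))) (.g (nat_lit 6) .nil .nil))) 
(.lf (nat_lit 132577) (.g (nat_lit 3568) (.e (nat_lit 16415) (nat_lit 3) (.e (nat_lit 204869) (nat_lit 29) (.e (nat_lit 360474) (nat_lit 8) (.e (nat_lit 557093) (nat_lit 12) (.e (nat_lit 164023) (nat_lit 46) (.e (nat_lit 704738) (nat_lit 11) .nil)))))) (.g (nat_lit 5) .nil .nil)))) (.nd (nat_lit 5) 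
(.lf (nat_lit 132561) (.g (nat_lit 2090) (.e (nat_lit 16415) (nat_lit 3) (.e (nat_lit 204869) (nat_lit 29) (.e (nat_lit 360473) (nat_lit 8) (.e (nat_lit 557091) (nat_lit 12) .nil)))) .nil)) 
(.lf (nat_lit 132593) (.g (nat_lit 3578) (.e (nat_lit 16415) (nat_lit 3) (.e (nat_lit 204869) (nat_lit 29) (.e (nat_lit 360475) (nat_lit 8) (.e (nat_lit 557094) (nat_lit 12) .nil)))) .nil)))) (.nd (nat_lit 4) (.nd (nat_lit 5) 
(.lf (nat_lit 132553) (.g (nat_lit 1954) (.e (nat_lit 16415) (nat_lit 3) (.e (nat_lit 204868) (nat_lit 29) (.e (nat_lit 360474) (nat_lit 8) (.e (nat_lit 557094) (nat_lit 12) (.e (nat_lit 164022) (nat_lit 46) (.e (nat_lit 704736) (nat_lit 11) .nil)))))) (.g (nat_lit 4) .nil .nil))) 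
(.lf (nat_lit 132585) (.g (nat_lit 3316) (.e (nat_lit 16415) (nat_lit 3) (.e (nat_lit 204869) (nat_lit 29) (.e (nat_lit 360475) (nat_lit 8) (.e (nat_lit 557070) (nat_lit 9) .nil)))) .nil))) (.nd (nat_lit 5) 
(.lf (nat_lit 132569) (.g (nat_lit 4445) (.e (nat_lit 16415) (nat_lit 3) (.e (nat_lit 204869) (nat_lit 29) (.e (nat_lit 360474) (nat_lit 8) (.e (nat_lit 557091) (nat_lit 12) (.e (nat_lit 164022) (nat_lit 46) (.e (nat_lit 704736) (nat_lit 11) .nil)))))) (.g (nat_lit 6) .nil .nil))) 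
(.lf (nat_lit 132601) (.g (nat_lit 3498) (.e (nat_lit 16415) (nat_lit 3) (.e (nat_lit 204883) (nat_lit 33) (.e (nat_lit 401454) (nat_lit 12) (.e (nat_lit 475177) (nat_lit 24) (.e (nat_lit 516124) (nat_lit 2) (.e (nat_lit 220928) (nat_lit 2) .nil)))))) (.g (nat_lit 4) .nil .nil)))))) (.nd (nat_lit 3) (.nd (nat_lit 4) (.nd (nat_lit 5) 
(.lf (nat_lit 132549) (.g (nat_lit 2713) (.e (nat_lit 16415) (nat_lit 3) (.e (nat_lit 204868) (nat_lit 29) (.e (nat_lit 360473) (nat_lit 8) (.e (nat_lit 557094) (nat_lit 12) (.e (nat_lit 164022) (nat_lit 46) (.e (nat_lit 704735) (nat_lit 11) .nil)))))) (.g (nat_lit 6) .nil .nil))) 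
(.lf (nat_lit 132581) (.g (nat_lit 3666) (.e (nat_lit 16415) (nat_lit 3) (.e (nat_lit 204869) (nat_lit 29) (.e (nat_lit 360475) (nat_lit 8) (.e (nat_lit 557067) (nat_lit 9) .nil)))) .nil))) (.nd (nat_lit 5) 
(.lf (nat_lit 132565) (.g (nat_lit 2259) (.e (nat_lit 16415) (nat_lit 3) (.e (nat_lit 204869) (nat_lit 29) (.e (nat_lit 360474) (nat_lit 8) (.e (nat_lit 557070) (nat_lit 9) .nil)))) .nil)) 
(.lf (nat_lit 132597) (.g (nat_lit 2454) (.e (nat_lit 16415) (nat_lit 3) (.e (nat_lit 204870) (nat_lit 29) (.e (nat_lit 360473) (nat_lit 8) (.e (nat_lit 557093) (nat_lit 12) (.e (nat_lit 164023) (nat_lit 46) (.e (nat_lit 704735) (nat_lit 11) .nil)))))) (.g (nat_lit 4) .nil .nil))))) (.nd (nat_lit 4) (.nd (nat_lit 5) 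
(.lf (nat_lit 132557) (.g (nat_lit 2644) (.e (nat_lit 16415) (nat_lit 3) (.e (nat_lit 204868) (nat_lit 29) (.e (nat_lit 360475) (nat_lit 8) (.e (nat_lit 557070) (nat_lit 9) .nil)))) .nil)) 
(.lf (nat_lit 132589) (.g (nat_lit 2087) (.e (nat_lit 16415) (nat_lit 3) (.e (nat_lit 204869) (nat_lit 29) (.e (nat_lit 360475) (nat_lit 8) (.e (nat_lit 557091) (nat_lit 12) .nil)))) .nil))) (.nd (nat_lit 5) 
(.lf (nat_lit 132573) (.g (nat_lit 4428) (.e (nat_lit 16415) (nat_lit 3) (.e (nat_lit 204869) (nat_lit 29) (.e (nat_lit 360474) (nat_lit 8) (.e (nat_lit 557093) (nat_lit 12) (.e (nat_lit 164022) (nat_lit 46) (.e (nat_lit 704736) (nat_lit 11) .nil)))))) (.g (nat_lit 0) .nil .nil))) 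
(.lf (nat_lit 132605) (.g (nat_lit 2471) (.e (nat_lit 16416) (nat_lit 3) (.e (nat_lit 204809) (nat_lit 9) (.e (nat_lit 426123) (nat_lit 2) (.e (nat_lit 196656) (nat_lit 11) (.e (nat_lit 16412) (nat_lit 2) .nil))))) .nil)))))) (.nd (nat_lit 2) (.nd (nat_lit 3) (.nd (nat_lit 4) (.nd (nat_lit 5) 
(.lf (nat_lit 132547) (.g (nat_lit 2905) (.e (nat_lit 16415) (nat_lit 3) (.e (nat_lit 204868) (nat_lit 29) (.e (nat_lit 360473) (nat_lit 8) (.e (nat_lit 557093) (nat_lit 12) (.e (nat_lit 164022) (nat_lit 46) (.e (nat_lit 704735) (nat_lit 11) .nil)))))) (.g (nat_lit 6) .nil .nil))) 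
(.lf (nat_lit 132579) (.g (nat_lit 4090) (.e (nat_lit 16415) (nat_lit 3) (.e (nat_lit 204869) (nat_lit 29) (.e (nat_lit 360474) (nat_lit 8) (.e (nat_lit 557094) (nat_lit 12) (.e (nat_lit 164022) (nat_lit 46) (.e (nat_lit 704736) (nat_lit 11) .nil)))))) (.g (nat_lit 0) .nil .nil)))) (.nd (nat_lit 5) 
(.lf (nat_lit 132563) (.g (nat_lit 2266) (.e (nat_lit 16415) (nat_lit 3) (.e (nat_lit 204869) (nat_lit 29) (.e (nat_lit 360473) (nat_lit 8) (.e (nat_lit 557094) (nat_lit 12) .nil)))) .nil)) 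
(.lf (nat_lit 132595) (.g (nat_lit 2919) (.e (nat_lit 16415) (nat_lit 3) (.e (nat_lit 204870) (nat_lit 29) (.e (nat_lit 360473) (nat_lit 8) (.e (nat_lit 557091) (nat_lit 12) (.e (nat_lit 164022) (nat_lit 46) (.e (nat_lit 704736) (nat_lit 11) .nil)))))) (.g (nat_lit 5) .nil .nil))))) (.nd (nat_lit 4) (.nd (nat_lit 5) 
(.lf (nat_lit 132555) (.g (nat_lit 2172) (.e (nat_lit 16415) (nat_lit 3) (.e (nat_lit 204868) (nat_lit 29) (.e (nat_lit 360475) (nat_lit 8) (.e (nat_lit 557068) (nat_lit 9) .nil)))) .nil)) 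
(.lf (nat_lit 132587) (.g (nat_lit 3491) (.e (nat_lit 16415) (nat_lit 3) (.e (nat_lit 204869) (nat_lit 29) (.e (nat_lit 360475) (nat_lit 8) (.e (nat_lit 557089) (nat_lit 12) .nil)))) .nil))) (.nd (nat_lit 5) 
(.lf (nat_lit 132571) (.g (nat_lit 4666) (.e (nat_lit 16415) (nat_lit 3) (.e (nat_lit 204869) (nat_lit 29) (.e (nat_lit 360474) (nat_lit 8) (.e (nat_lit 557091) (nat_lit 12) (.e (nat_lit 164022) (nat_lit 46) (.e (nat_lit 704738) (nat_lit 11) .nil)))))) (.g (nat_lit 6) .nil .nil))) 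
(.lf (nat_lit 132603) (.g (nat_lit 3559) (.e (nat_lit 16415) (nat_lit 3) (.e (nat_lit 204883) (nat_lit 33) (.e (nat_lit 401454) (nat_lit 12) (.e (nat_lit 475179) (nat_lit 24) (.e (nat_lit 516124) (nat_lit 2) (.e (nat_lit 220928) (nat_lit 2) .nil)))))) (.g (nat_lit 5) .nil .nil)))))) (.nd (nat_lit 3) (.nd (nat_lit 4) (.nd (nat_lit 5) 
(.lf (nat_lit 132551) (.g (nat_lit 2317) (.e (nat_lit 16415) (nat_lit 3) (.e (nat_lit 204868) (nat_lit 29) (.e (nat_lit 360474) (nat_lit 8) (.e (nat_lit 557093) (nat_lit 12) (.e (nat_lit 164022) (nat_lit 46) (.e (nat_lit 704736) (nat_lit 11) .nil)))))) (.g (nat_lit 4) .nil .nil))) 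
(.lf (nat_lit 132583) (.g (nat_lit 4156) (.e (nat_lit 16415) (nat_lit 3) (.e (nat_lit 204869) (nat_lit 29) (.e (nat_lit 360475) (nat_lit 8) (.e (nat_lit 557068) (nat_lit 9) (.e (nat_lit 2739) (nat_lit 174) .nil))))) .nil))) (.nd (nat_lit 5) 
(.lf (nat_lit 132567) (.g (nat_lit 2728) (.e (nat_lit 16415) (nat_lit 3) (.e (nat_lit 204869) (nat_lit 29) (.e (nat_lit 360474) (nat_lit 8) (.e (nat_lit 557073) (nat_lit 9) .nil)))) .nil)) 
(.lf (nat_lit 132599) (.g (nat_lit 795) (.e (nat_lit 16415) (nat_lit 3) (.e (nat_lit 204882) (nat_lit 32) (.e (nat_lit 392960) (nat_lit 42) .nil))) .nil)))) (.nd (nat_lit 4) (.nd (nat_lit 5) 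
(.lf (nat_lit 132559) (.g (nat_lit 4392) (.e (nat_lit 16415) (nat_lit 3) (.e (nat_lit 204868) (nat_lit 29) (.e (nat_lit 360475) (nat_lit 8) (.e (nat_lit 557091) (nat_lit 12) (.e (nat_lit 164022) (nat_lit 46) (.e (nat_lit 704735) (nat_lit 11) .nil)))))) (.g (nat_lit 5) .nil .nil))) 
(.lf (nat_lit 132591) (.g (nat_lit 4929) (.e (nat_lit 16415) (nat_lit 3) (.e (nat_lit 204869) (nat_lit 29) (.e (nat_lit 360475) (nat_lit 8) (.e (nat_lit 557091) (nat_lit 12) (.e (nat_lit 164022) (nat_lit 46) (.e (nat_lit 704736) (nat_lit 11) .nil)))))) (.g (nat_lit 0) .nil .nil)))) (.nd (nat_lit 5) 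
(.lf (nat_lit 132575) (.g (nat_lit 3398) (.e (nat_lit 16415) (nat_lit 3) (.e (nat_lit 204869) (nat_lit 29) (.e (nat_lit 360474) (nat_lit 8) (.e (nat_lit 557093) (nat_lit 12) (.e (nat_lit 164023) (nat_lit 46) (.e (nat_lit 704736) (nat_lit 11) .nil)))))) (.g (nat_lit 4) .nil .nil))) 
(.lf (nat_lit 132607) (.g (nat_lit 2028) (.e (nat_lit 16416) (nat_lit 3) (.e (nat_lit 204809) (nat_lit 9) (.e (nat_lit 426133) (nat_lit 3) (.e (nat_lit 204813) (nat_lit 9) (.e (nat_lit 426031) (nat_lit 0) .nil))))) .nil))))))))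

noncomputable def tv1769 : DT := (.nd (nat_lit 0) (.nd (nat_lit 1) (.nd (nat_lit 2) (.nd (nat_lit 3) (.nd (nat_lit 4) (.nd (nat_lit 5) 
(.lf (nat_lit 132608) (.g (nat_lit 3245) (.e (nat_lit 16416) (nat_lit 3) (.e (nat_lit 204813) (nat_lit 9) (.e (nat_lit 426116) (nat_lit 2) (.e (nat_lit 196656) (nat_lit 11) (.e (nat_lit 16412) (nat_lit 2) (.e (nat_lit 196656) (nat_lit 11) .nil)))))) (.g (nat_lit 6) .nil .nil))) 
(.lf (nat_lit 132640) (.g (nat_lit 3702) (.e (nat_lit 16416) (nat_lit 3) (.e (nat_lit 204858) (nat_lit 26) (.e (nat_lit 336176) (nat_lit 10) (.e (nat_lit 344133) (nat_lit 26) (.e (nat_lit 557091) (nat_lit 12) (.e (nat_lit 164022) (nat_lit 46) (.e (nat_lit 704738) (nat_lit 11) .nil))))))) (.g (nat_lit 5) .nil .nil)))) (.nd (nat_lit 5) 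
(.lf (nat_lit 132624) (.g (nat_lit 651) (.e (nat_lit 16416) (nat_lit 3) (.e (nat_lit 204852) (nat_lit 26) (.e (nat_lit 343808) (nat_lit 10) .nil))) .nil)) 
(.lf (nat_lit 132656) (.g (nat_lit 3523) (.e (nat_lit 16416) (nat_lit 3) (.e (nat_lit 204861) (nat_lit 26) (.e (nat_lit 335986) (nat_lit 1) (.e (nat_lit 57847) (nat_lit 252) (.e (nat_lit 57379) (nat_lit 3) (.e (nat_lit 98334) (nat_lit 18) (.e (nat_lit 164383) (nat_lit 254) (.e (nat_lit 1124) (nat_lit 83) .nil)))))))) (.g (nat_lit 4) .nil .nil))))) (.nd (nat_lit 4) (.nd (nat_lit 5) 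
(.lf (nat_lit 132616) (.g (nat_lit 953) (.e (nat_lit 16416) (nat_lit 3) (.e (nat_lit 204830) (nat_lit 18) (.e (nat_lit 57731) (nat_lit 181) .nil))) .nil)) 
(.lf (nat_lit 132648) (.g (nat_lit 2241) (.e (nat_lit 16416) (nat_lit 3) (.e (nat_lit 204859) (nat_lit 26) (.e (nat_lit 336206) (nat_lit 12) (.e (nat_lit 385068) (nat_lit 26) (.e (nat_lit 532486) (nat_lit 0) (.e (nat_lit 2143) (nat_lit 142) (.e (nat_lit 704741) (nat_lit 11) .nil))))))) (.g (nat_lit 4) .nil .nil)))) (.nd (nat_lit 5) 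
(.lf (nat_lit 132632) (.g (nat_lit 3678) (.e (nat_lit 16416) (nat_lit 3) (.e (nat_lit 204855) (nat_lit 26) (.e (nat_lit 336176) (nat_lit 10) (.e (nat_lit 344130) (nat_lit 26) (.e (nat_lit 557090) (nat_lit 12) (.e (nat_lit 171776) (nat_lit 46) (.e (nat_lit 704734) (nat_lit 11) .nil))))))) (.g (nat_lit 5) .nil .nil))) 
(.lf (nat_lit 132664) (.g (nat_lit 3579) (.e (nat_lit 16416) (nat_lit 3) (.e (nat_lit 204861) (nat_lit 26) (.e (nat_lit 335988) (nat_lit 1) (.e (nat_lit 57854) (nat_lit 252) (.e (nat_lit 57378) (nat_lit 3) (.e (nat_lit 98334) (nat_lit 18) (.e (nat_lit 164379) (nat_lit 254) (.e (nat_lit 1124) (nat_lit 83) .nil)))))))) (.g (nat_lit 5) .nil .nil)))))) 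
(.nd (nat_lit 3) (.nd (nat_lit 4) (.nd (nat_lit 5) 
(.lf (nat_lit 132612) (.g (nat_lit 885) (.e (nat_lit 16416) (nat_lit 3) (.e (nat_lit 204829) (nat_lit 18) (.e (nat_lit 57735) (nat_lit 183) .nil))) .nil)) 
(.lf (nat_lit 132644) (.g (nat_lit 2176) (.e (nat_lit 16416) (nat_lit 3) (.e (nat_lit 204859) (nat_lit 26) (.e (nat_lit 336118) (nat_lit 9) (.e (nat_lit 336323) (nat_lit 18) (.e (nat_lit 204835) (nat_lit 19) (.e (nat_lit 106536) (nat_lit 11) .nil)))))) (.g (nat_lit 0) .nil .nil)))) (.nd (nat_lit 5) 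
(.lf (nat_lit 132628) (.g (nat_lit 1139) (.e (nat_lit 16416) (nat_lit 3) (.e (nat_lit 204854) (nat_lit 26) (.e (nat_lit 336182) (nat_lit 11) .nil))) .nil)) 
(.lf (nat_lit 132660) (.g (nat_lit 2979) (.e (nat_lit 16416) (nat_lit 3) (.e (nat_lit 204861) (nat_lit 26) (.e (nat_lit 335987) (nat_lit 1) (.e (nat_lit 57854) (nat_lit 252) (.e (nat_lit 57378) (nat_lit 3) (.e (nat_lit 98334) (nat_lit 18) (.e (nat_lit 164383) (nat_lit 254) (.e (nat_lit 1130) (nat_lit 83) .nil)))))))) (.g (nat_lit 5) .nil .nil))))) (.nd (nat_lit 4) (.nd (nat_lit 5) 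
(.lf (nat_lit 132620) (.g (nat_lit 3810) (.e (nat_lit 16416) (nat_lit 3) (.e (nat_lit 204837) (nat_lit 20) (.e (nat_lit 114719) (nat_lit 23) (.e (nat_lit 98334) (nat_lit 18) (.e (nat_lit 164330) (nat_lit 230) (.e (nat_lit 163866) (nat_lit 2) (.e (nat_lit 196654) (nat_lit 11) .nil))))))) (.g (nat_lit 5) .nil .nil))) 
(.lf (nat_lit 132652) (.g (nat_lit 2498) (.e (nat_lit 16416) (nat_lit 3) (.e (nat_lit 204859) (nat_lit 26) (.e (nat_lit 336206) (nat_lit 12) (.e (nat_lit 385068) (nat_lit 26) (.e (nat_lit 532510) (nat_lit 2) (.e (nat_lit 106536) (nat_lit 11) .nil)))))) (.g (nat_lit 0) .nil .nil)))) (.nd (nat_lit 5) 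
(.lf (nat_lit 132636) (.g (nat_lit 2695) (.e (nat_lit 16416) (nat_lit 3) (.e (nat_lit 204855) (nat_lit 26) (.e (nat_lit 336176) (nat_lit 10) (.e (nat_lit 344133) (nat_lit 26) (.e (nat_lit 557089) (nat_lit 12) (.e (nat_lit 171776) (nat_lit 46) (.e (nat_lit 704734) (nat_lit 11) .nil))))))) (.g (nat_lit 4) .nil .nil))) 
(.lf (nat_lit 132668) (.g (nat_lit 2301) (.e (nat_lit 16416) (nat_lit 3) (.e (nat_lit 204861) (nat_lit 26) (.e (nat_lit 336075) (nat_lit 9) (.e (nat_lit 336316) (nat_lit 17) (.e (nat_lit 196660) (nat_lit 12) (.e (nat_lit 57533) (nat_lit 46) (.e (nat_lit 704732) (nat_lit 11) .nil))))))) (.g (nat_lit 4) .nil .nil))))))) (.nd (nat_lit 2) (.nd (nat_lit 3) (.nd (nat_lit 4) (.nd (nat_lit 5) 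
(.lf (nat_lit 132610) (.g (nat_lit 1798) (.e (nat_lit 16416) (nat_lit 3) (.e (nat_lit 204829) (nat_lit 18) (.e (nat_lit 57692) (nat_lit 156) (.e (nat_lit 171776) (nat_lit 64) .nil)))) .nil)) 
(.lf (nat_lit 132642) (.g (nat_lit 2107) (.e (nat_lit 16416) (nat_lit 3) (.e (nat_lit 204859) (nat_lit 26) (.e (nat_lit 336116) (nat_lit 9) (.e (nat_lit 336323) (nat_lit 18) (.e (nat_lit 204835) (nat_lit 19) (.e (nat_lit 106536) (nat_lit 11) .nil)))))) (.g (nat_lit 0) .nil .nil)))) (.nd (nat_lit 5) 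
(.lf (nat_lit 132626) (.g (nat_lit 673) (.e (nat_lit 16416) (nat_lit 3) (.e (nat_lit 204852) (nat_lit 26) (.e (nat_lit 336310) (nat_lit 16) .nil))) .nil)) 
(.lf (nat_lit 132658) (.g (nat_lit 3063) (.e (nat_lit 16416) (nat_lit 3) (.e (nat_lit 204861) (nat_lit 26) (.e (nat_lit 335986) (nat_lit 1) (.e (nat_lit 57849) (nat_lit 252) (.e (nat_lit 57379) (nat_lit 3) (.e (nat_lit 98334) (nat_lit 18) (.e (nat_lit 164383) (nat_lit 254) (.e (nat_lit 1130) (nat_lit 83) .nil)))))))) (.g (nat_lit 5) .nil .nil))))) (.nd (nat_lit 4) (.nd (nat_lit 5) 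
(.lf (nat_lit 132618) (.g (nat_lit 2872) (.e (nat_lit 16416) (nat_lit 3) (.e (nat_lit 204837) (nat_lit 20) (.e (nat_lit 114717) (nat_lit 23) (.e (nat_lit 98334) (nat_lit 18) (.e (nat_lit 164330) (nat_lit 230) (.e (nat_lit 163866) (nat_lit 2) (.e (nat_lit 196654) (nat_lit 11) .nil))))))) (.g (nat_lit 5) .nil .nil))) 
(.lf (nat_lit 132650) (.g (nat_lit 1543) (.e (nat_lit 16416) (nat_lit 3) (.e (nat_lit 204859) (nat_lit 26) (.e (nat_lit 336206) (nat_lit 12) (.e (nat_lit 385068) (nat_lit 26) (.e (nat_lit 532490) (nat_lit 0) .nil))))) .nil))) (.nd (nat_lit 5) 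
(.lf (nat_lit 132634) (.g (nat_lit 2946) (.e (nat_lit 16416) (nat_lit 3) (.e (nat_lit 204855) (nat_lit 26) (.e (nat_lit 336176) (nat_lit 10) (.e (nat_lit 344132) (nat_lit 26) (.e (nat_lit 557093) (nat_lit 12) (.e (nat_lit 171776) (nat_lit 46) (.e (nat_lit 704734) (nat_lit 11) .nil))))))) (.g (nat_lit 4) .nil .nil))) 
(.lf (nat_lit 132666) (.g (nat_lit 4287) (.e (nat_lit 16416) (nat_lit 3) (.e (nat_lit 204861) (nat_lit 26) (.e (nat_lit 335988) (nat_lit 1) (.e (nat_lit 57854) (nat_lit 252) (.e (nat_lit 57378) (nat_lit 3) (.e (nat_lit 98334) (nat_lit 18) (.e (nat_lit 164383) (nat_lit 254) (.e (nat_lit 1130) (nat_lit 83) .nil)))))))) (.g (nat_lit 6) .nil .nil)))))) 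
(.nd (nat_lit 3) (.nd (nat_lit 4) (.nd (nat_lit 5) 
(.lf (nat_lit 132614) (.g (nat_lit 2718) (.e (nat_lit 16416) (nat_lit 3) (.e (nat_lit 204830) (nat_lit 18) (.e (nat_lit 65280) (nat_lit 166) (.e (nat_lit 57379) (nat_lit 3) (.e (nat_lit 98365) (nat_lit 26) (.e (nat_lit 426115) (nat_lit 2) (.e (nat_lit 196654) (nat_lit 11) .nil))))))) (.g (nat_lit 5) .nil .nil))) 
(.lf (nat_lit 132646) (.g (nat_lit 2451) (.e (nat_lit 16416) (nat_lit 3) (.e (nat_lit 204859) (nat_lit 26) (.e (nat_lit 336206) (nat_lit 12) (.e (nat_lit 385066) (nat_lit 26) (.e (nat_lit 532511) (nat_lit 2) (.e (nat_lit 106534) (nat_lit 11) .nil)))))) (.g (nat_lit 6) .nil .nil)))) (.nd (nat_lit 5) 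
(.lf (nat_lit 132630) (.g (nat_lit 2530) (.e (nat_lit 16416) (nat_lit 3) (.e (nat_lit 204855) (nat_lit 26) (.e (nat_lit 336176) (nat_lit 10) (.e (nat_lit 344130) (nat_lit 26) (.e (nat_lit 557089) (nat_lit 12) (.e (nat_lit 171776) (nat_lit 46) (.e (nat_lit 704734) (nat_lit 11) .nil))))))) (.g (nat_lit 4) .nil .nil))) 
(.lf (nat_lit 132662) (.g (nat_lit 2735) (.e (nat_lit 16416) (nat_lit 3) (.e (nat_lit 204861) (nat_lit 26) (.e (nat_lit 335988) (nat_lit 1) (.e (nat_lit 57854) (nat_lit 252) (.e (nat_lit 57378) (nat_lit 3) (.e (nat_lit 98333) (nat_lit 18) (.e (nat_lit 164383) (nat_lit 254) (.e (nat_lit 1130) (nat_lit 83) .nil)))))))) (.g (nat_lit 4) .nil .nil))))) (.nd (nat_lit 4) (.nd (nat_lit 5) 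
(.lf (nat_lit 132622) (.g (nat_lit 3800) (.e (nat_lit 16416) (nat_lit 3) (.e (nat_lit 204838) (nat_lit 20) (.e (nat_lit 114718) (nat_lit 23) (.e (nat_lit 98334) (nat_lit 18) (.e (nat_lit 164330) (nat_lit 230) (.e (nat_lit 163866) (nat_lit 2) (.e (nat_lit 196654) (nat_lit 11) .nil))))))) (.g (nat_lit 5) .nil .nil))) 
(.lf (nat_lit 132654) (.g (nat_lit 2529) (.e (nat_lit 16416) (nat_lit 3) (.e (nat_lit 204859) (nat_lit 26) (.e (nat_lit 336206) (nat_lit 12) (.e (nat_lit 385068) (nat_lit 26) (.e (nat_lit 532511) (nat_lit 2) (.e (nat_lit 106536) (nat_lit 11) .nil)))))) (.g (nat_lit 0) .nil .nil)))) (.nd (nat_lit 5) 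
(.lf (nat_lit 132638) (.g (nat_lit 3656) (.e (nat_lit 16416) (nat_lit 3) (.e (nat_lit 204855) (nat_lit 26) (.e (nat_lit 336176) (nat_lit 10) (.e (nat_lit 344133) (nat_lit 26) (.e (nat_lit 557091) (nat_lit 12) (.e (nat_lit 171776) (nat_lit 46) (.e (nat_lit 704734) (nat_lit 11) .nil))))))) (.g (nat_lit 5) .nil .nil))) 
(.lf (nat_lit 132670) (.g (nat_lit 2407) (.e (nat_lit 16416) (nat_lit 3) (.e (nat_lit 204861) (nat_lit 26) (.e (nat_lit 336075) (nat_lit 9) (.e (nat_lit 336316) (nat_lit 17) (.e (nat_lit 196661) (nat_lit 12) (.e (nat_lit 57531) (nat_lit 46) (.e (nat_lit 712448) (nat_lit 11) .nil))))))) (.g (nat_lit 5) .nil .nil)))))))) 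
(.nd (nat_lit 1) (.nd (nat_lit 2) (.nd (nat_lit 3) (.nd (nat_lit 4) (.nd (nat_lit 5) 
(.lf (nat_lit 132609) (.g (nat_lit 1702) (.e (nat_lit 16416) (nat_lit 3) (.e (nat_lit 204829) (nat_lit 18) (.e (nat_lit 57688) (nat_lit 156) (.e (nat_lit 171776) (nat_lit 64) .nil)))) .nil)) 
(.lf (nat_lit 132641) (.g (nat_lit 1928) (.e (nat_lit 16416) (nat_lit 3) (.e (nat_lit 204859) (nat_lit 26) (.e (nat_lit 336116) (nat_lit 9) (.e (nat_lit 336323) (nat_lit 18) (.e (nat_lit 204835) (nat_lit 19) (.e (nat_lit 106534) (nat_lit 11) .nil)))))) (.g (nat_lit 0) .nil .nil)))) (.nd (nat_lit 5) 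
(.lf (nat_lit 132625) (.g (nat_lit 1370) (.e (nat_lit 16416) (nat_lit 3) (.e (nat_lit 204852) (nat_lit 26) (.e (nat_lit 336208) (nat_lit 12) (.e (nat_lit 385068) (nat_lit 26) .nil)))) .nil)) 
(.lf (nat_lit 132657) (.g (nat_lit 3913) (.e (nat_lit 16416) (nat_lit 3) (.e (nat_lit 204861) (nat_lit 26) (.e (nat_lit 335986) (nat_lit 1) (.e (nat_lit 57849) (nat_lit 252) (.e (nat_lit 57379) (nat_lit 3) (.e (nat_lit 98334) (nat_lit 18) (.e (nat_lit 164383) (nat_lit 254) (.e (nat_lit 1124) (nat_lit 83) .nil)))))))) (.g (nat_lit 6) .nil .nil))))) (.nd (nat_lit 4) (.nd (nat_lit 5) 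
(.lf (nat_lit 132617) (.g (nat_lit 838) (.e (nat_lit 16416) (nat_lit 3) (.e (nat_lit 204830) (nat_lit 18) (.e (nat_lit 57735) (nat_lit 183) .nil))) .nil)) 
(.lf (nat_lit 132649) (.g (nat_lit 1884) (.e (nat_lit 16416) (nat_lit 3) (.e (nat_lit 204859) (nat_lit 26) (.e (nat_lit 336206) (nat_lit 12) (.e (nat_lit 385068) (nat_lit 26) (.e (nat_lit 532489) (nat_lit 0) (.e (nat_lit 2044) (nat_lit 142) (.e (nat_lit 704734) (nat_lit 11) .nil))))))) (.g (nat_lit 4) .nil .nil)))) (.nd (nat_lit 5) 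
(.lf (nat_lit 132633) (.g (nat_lit 3231) (.e (nat_lit 16416) (nat_lit 3) (.e (nat_lit 204855) (nat_lit 26) (.e (nat_lit 336176) (nat_lit 10) (.e (nat_lit 344132) (nat_lit 26) (.e (nat_lit 557093) (nat_lit 12) (.e (nat_lit 164022) (nat_lit 46) (.e (nat_lit 704737) (nat_lit 11) .nil))))))) (.g (nat_lit 5) .nil .nil))) 
(.lf (nat_lit 132665) (.g (nat_lit 5137) (.e (nat_lit 16416) (nat_lit 3) (.e (nat_lit 204861) (nat_lit 26) (.e (nat_lit 335988) (nat_lit 1) (.e (nat_lit 57854) (nat_lit 252) (.e (nat_lit 57378) (nat_lit 3) (.e (nat_lit 98334) (nat_lit 18) (.e (nat_lit 164383) (nat_lit 254) (.e (nat_lit 1124) (nat_lit 83) .nil)))))))) (.g (nat_lit 6) .nil .nil)))))) 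
(.nd (nat_lit 3) (.nd (nat_lit 4) (.nd (nat_lit 5) 
(.lf (nat_lit 132613) (.g (nat_lit 885) (.e (nat_lit 16416) (nat_lit 3) (.e (nat_lit 204829) (nat_lit 18) (.e (nat_lit 57736) (nat_lit 184) .nil))) .nil)) 
(.lf (nat_lit 132645) (.g (nat_lit 2579) (.e (nat_lit 16416) (nat_lit 3) (.e (nat_lit 204859) (nat_lit 26) (.e (nat_lit 336206) (nat_lit 12) (.e (nat_lit 385066) (nat_lit 26) (.e (nat_lit 532481) (nat_lit 0) (.e (nat_lit 2044) (nat_lit 142) (.e (nat_lit 704734) (nat_lit 11) .nil))))))) (.g (nat_lit 5) .nil .nil)))) (.nd (nat_lit 5) 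
(.lf (nat_lit 132629) (.g (nat_lit 868) (.e (nat_lit 16416) (nat_lit 3) (.e (nat_lit 204854) (nat_lit 26) (.e (nat_lit 336208) (nat_lit 12) .nil))) .nil)) 
(.lf (nat_lit 132661) (.g (nat_lit 3585) (.e (nat_lit 16416) (nat_lit 3) (.e (nat_lit 204861) (nat_lit 26) (.e (nat_lit 335988) (nat_lit 1) (.e (nat_lit 57854) (nat_lit 252) (.e (nat_lit 57378) (nat_lit 3) (.e (nat_lit 98333) (nat_lit 18) (.e (nat_lit 164383) (nat_lit 254) (.e (nat_lit 1124) (nat_lit 83) .nil)))))))) (.g (nat_lit 5) .nil .nil))))) (.nd (nat_lit 4) (.nd (nat_lit 5) 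
(.lf (nat_lit 132621) (.g (nat_lit 5356) (.e (nat_lit 16416) (nat_lit 3) (.e (nat_lit 204838) (nat_lit 20) (.e (nat_lit 114718) (nat_lit 23) (.e (nat_lit 98333) (nat_lit 18) (.e (nat_lit 164325) (nat_lit 230) (.e (nat_lit 163866) (nat_lit 2) (.e (nat_lit 196654) (nat_lit 11) .nil))))))) (.g (nat_lit 7) .nil .nil))) 
(.lf (nat_lit 132653) (.g (nat_lit 2353) (.e (nat_lit 16416) (nat_lit 3) (.e (nat_lit 204859) (nat_lit 26) (.e (nat_lit 336206) (nat_lit 12) (.e (nat_lit 385068) (nat_lit 26) (.e (nat_lit 532511) (nat_lit 2) (.e (nat_lit 106534) (nat_lit 11) .nil)))))) (.g (nat_lit 0) .nil .nil)))) (.nd (nat_lit 5) 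
(.lf (nat_lit 132637) (.g (nat_lit 3725) (.e (nat_lit 16416) (nat_lit 3) (.e (nat_lit 204855) (nat_lit 26) (.e (nat_lit 336176) (nat_lit 10) (.e (nat_lit 344133) (nat_lit 26) (.e (nat_lit 557091) (nat_lit 12) (.e (nat_lit 164022) (nat_lit 46) (.e (nat_lit 704737) (nat_lit 11) .nil))))))) (.g (nat_lit 5) .nil .nil))) 
(.lf (nat_lit 132669) (.g (nat_lit 2561) (.e (nat_lit 16416) (nat_lit 3) (.e (nat_lit 204861) (nat_lit 26) (.e (nat_lit 336075) (nat_lit 9) (.e (nat_lit 336316) (nat_lit 17) (.e (nat_lit 196661) (nat_lit 12) (.e (nat_lit 57530) (nat_lit 46) (.e (nat_lit 712448) (nat_lit 11) .nil))))))) (.g (nat_lit 5) .nil .nil))))))) (.nd (nat_lit 2) (.nd (nat_lit 3) (.nd (nat_lit 4) (.nd (nat_lit 5) 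
(.lf (nat_lit 132611) (.g (nat_lit 2845) (.e (nat_lit 16416) (nat_lit 3) (.e (nat_lit 204829) (nat_lit 18) (.e (nat_lit 65280) (nat_lit 166) (.e (nat_lit 57379) (nat_lit 3) (.e (nat_lit 98365) (nat_lit 26) (.e (nat_lit 426115) (nat_lit 2) (.e (nat_lit 196654) (nat_lit 11) .nil))))))) (.g (nat_lit 5) .nil .nil))) 
(.lf (nat_lit 132643) (.g (nat_lit 1996) (.e (nat_lit 16416) (nat_lit 3) (.e (nat_lit 204859) (nat_lit 26) (.e (nat_lit 336118) (nat_lit 9) (.e (nat_lit 336323) (nat_lit 18) (.e (nat_lit 204835) (nat_lit 19) (.e (nat_lit 106534) (nat_lit 11) .nil)))))) (.g (nat_lit 0) .nil .nil)))) (.nd (nat_lit 5) 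
(.lf (nat_lit 132627) (.g (nat_lit 1079) (.e (nat_lit 16416) (nat_lit 3) (.e (nat_lit 204852) (nat_lit 26) (.e (nat_lit 336310) (nat_lit 16) (.e (nat_lit 164179) (nat_lit 154) .nil)))) .nil)) 
(.lf (nat_lit 132659) (.g (nat_lit 3829) (.e (nat_lit 16416) (nat_lit 3) (.e (nat_lit 204861) (nat_lit 26) (.e (nat_lit 335987) (nat_lit 1) (.e (nat_lit 57854) (nat_lit 252) (.e (nat_lit 57378) (nat_lit 3) (.e (nat_lit 98334) (nat_lit 18) (.e (nat_lit 164383) (nat_lit 254) (.e (nat_lit 1124) (nat_lit 83) .nil)))))))) (.g (nat_lit 6) .nil .nil))))) (.nd (nat_lit 4) (.nd (nat_lit 5) 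
(.lf (nat_lit 132619) (.g (nat_lit 4304) (.e (nat_lit 16416) (nat_lit 3) (.e (nat_lit 204837) (nat_lit 20) (.e (nat_lit 114718) (nat_lit 23) (.e (nat_lit 98334) (nat_lit 18) (.e (nat_lit 164330) (nat_lit 230) (.e (nat_lit 163866) (nat_lit 2) (.e (nat_lit 196654) (nat_lit 11) .nil))))))) (.g (nat_lit 6) .nil .nil))) 
(.lf (nat_lit 132651) (.g (nat_lit 2397) (.e (nat_lit 16416) (nat_lit 3) (.e (nat_lit 204859) (nat_lit 26) (.e (nat_lit 336206) (nat_lit 12) (.e (nat_lit 385068) (nat_lit 26) (.e (nat_lit 532510) (nat_lit 2) (.e (nat_lit 106534) (nat_lit 11) .nil)))))) (.g (nat_lit 0) .nil .nil)))) (.nd (nat_lit 5) 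
(.lf (nat_lit 132635) (.g (nat_lit 2872) (.e (nat_lit 16416) (nat_lit 3) (.e (nat_lit 204855) (nat_lit 26) (.e (nat_lit 336176) (nat_lit 10) (.e (nat_lit 344132) (nat_lit 26) (.e (nat_lit 557094) (nat_lit 12) (.e (nat_lit 171776) (nat_lit 46) (.e (nat_lit 704734) (nat_lit 11) .nil))))))) (.g (nat_lit 4) .nil .nil))) 
(.lf (nat_lit 132667) (.g (nat_lit 3526) (.e (nat_lit 16416) (nat_lit 3) (.e (nat_lit 204861) (nat_lit 26) (.e (nat_lit 335988) (nat_lit 1) (.e (nat_lit 57854) (nat_lit 252) (.e (nat_lit 57378) (nat_lit 3) (.e (nat_lit 98334) (nat_lit 18) (.e (nat_lit 164384) (nat_lit 254) (.e (nat_lit 1124) (nat_lit 83) .nil)))))))) (.g (nat_lit 5) .nil .nil)))))) 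
(.nd (nat_lit 3) (.nd (nat_lit 4) (.nd (nat_lit 5) 
(.lf (nat_lit 132615) (.g (nat_lit 902) (.e (nat_lit 16416) (nat_lit 3) (.e (nat_lit 204830) (nat_lit 18) (.e (nat_lit 57730) (nat_lit 181) .nil))) .nil)) 
(.lf (nat_lit 132647) (.g (nat_lit 2127) (.e (nat_lit 16416) (nat_lit 3) (.e (nat_lit 204859) (nat_lit 26) (.e (nat_lit 336206) (nat_lit 12) (.e (nat_lit 385068) (nat_lit 26) (.e (nat_lit 532483) (nat_lit 0) (.e (nat_lit 2044) (nat_lit 142) (.e (nat_lit 704734) (nat_lit 11) .nil))))))) (.g (nat_lit 4) .nil .nil)))) (.nd (nat_lit 5) 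
(.lf (nat_lit 132631) (.g (nat_lit 3919) (.e (nat_lit 16416) (nat_lit 3) (.e (nat_lit 204855) (nat_lit 26) (.e (nat_lit 336176) (nat_lit 10) (.e (nat_lit 344130) (nat_lit 26) (.e (nat_lit 557090) (nat_lit 12) (.e (nat_lit 164022) (nat_lit 46) (.e (nat_lit 704737) (nat_lit 11) .nil))))))) (.g (nat_lit 6) .nil .nil))) 
(.lf (nat_lit 132663) (.g (nat_lit 2811) (.e (nat_lit 16416) (nat_lit 3) (.e (nat_lit 204861) (nat_lit 26) (.e (nat_lit 335988) (nat_lit 1) (.e (nat_lit 57854) (nat_lit 252) (.e (nat_lit 57378) (nat_lit 3) (.e (nat_lit 98333) (nat_lit 18) (.e (nat_lit 164385) (nat_lit 254) (.e (nat_lit 1130) (nat_lit 83) .nil)))))))) (.g (nat_lit 4) .nil .nil))))) (.nd (nat_lit 4) (.nd (nat_lit 5) 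
(.lf (nat_lit 132623) (.g (nat_lit 3649) (.e (nat_lit 16416) (nat_lit 3) (.e (nat_lit 204838) (nat_lit 20) (.e (nat_lit 114719) (nat_lit 23) (.e (nat_lit 98334) (nat_lit 18) (.e (nat_lit 164330) (nat_lit 230) (.e (nat_lit 163866) (nat_lit 2) (.e (nat_lit 196654) (nat_lit 11) .nil))))))) (.g (nat_lit 5) .nil .nil))) 
(.lf (nat_lit 132655) (.g (nat_lit 1049) (.e (nat_lit 16416) (nat_lit 3) (.e (nat_lit 204859) (nat_lit 26) (.e (nat_lit 336206) (nat_lit 12) (.e (nat_lit 385068) (nat_lit 26) (.e (nat_lit 540416) (nat_lit 2) .nil))))) .nil))) (.nd (nat_lit 5) 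
(.lf (nat_lit 132639) (.g (nat_lit 3845) (.e (nat_lit 16416) (nat_lit 3) (.e (nat_lit 204858) (nat_lit 26) (.e (nat_lit 336176) (nat_lit 10) (.e (nat_lit 344130) (nat_lit 26) (.e (nat_lit 557090) (nat_lit 12) (.e (nat_lit 164022) (nat_lit 46) (.e (nat_lit 704738) (nat_lit 11) .nil))))))) (.g (nat_lit 5) .nil .nil))) 
(.lf (nat_lit 132671) (.g (nat_lit 2519) (.e (nat_lit 16416) (nat_lit 3) (.e (nat_lit 204861) (nat_lit 26) (.e (nat_lit 336075) (nat_lit 9) (.e (nat_lit 336316) (nat_lit 17) (.e (nat_lit 196661) (nat_lit 12) (.e (nat_lit 57532) (nat_lit 46) (.e (nat_lit 712448) (nat_lit 11) .nil))))))) (.g (nat_lit 5) .nil .nil)))))))))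

noncomputable def tv1770 : DT := (.nd (nat_lit 0) (.nd (nat_lit 1) (.nd (nat_lit 2) (.nd (nat_lit 3) (.nd (nat_lit 4) (.nd (nat_lit 5) 
(.lf (nat_lit 132672) (.g (nat_lit 1988) (.e (nat_lit 16416) (nat_lit 3) (.e (nat_lit 204861) (nat_lit 26) (.e (nat_lit 336075) (nat_lit 9) (.e (nat_lit 336320) (nat_lit 17) (.e (nat_lit 196628) (nat_lit 9) (.e (nat_lit 7936) (nat_lit 93) (.e (nat_lit 106536) (nat_lit 11) .nil))))))) (.g (nat_lit 4) .nil .nil))) 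
(.lf (nat_lit 132704) (.g (nat_lit 2746) (.e (nat_lit 16416) (nat_lit 3) (.e (nat_lit 204861) (nat_lit 26) (.e (nat_lit 336186) (nat_lit 11) (.e (nat_lit 368676) (nat_lit 21) (.e (nat_lit 516117) (nat_lit 1) (.e (nat_lit 164428) (nat_lit 278) (.e (nat_lit 1122) (nat_lit 83) .nil))))))) (.g (nat_lit 5) .nil .nil)))) (.nd (nat_lit 5) 
(.lf (nat_lit 132688) (.g (nat_lit 2064) (.e (nat_lit 16416) (nat_lit 3) (.e (nat_lit 204861) (nat_lit 26) (.e (nat_lit 336076) (nat_lit 9) (.e (nat_lit 336322) (nat_lit 18) (.e (nat_lit 204833) (nat_lit 19) (.e (nat_lit 106536) (nat_lit 11) .nil)))))) (.g (nat_lit 4) .nil .nil))) 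
(.lf (nat_lit 132720) (.g (nat_lit 2186) (.e (nat_lit 16416) (nat_lit 3) (.e (nat_lit 204861) (nat_lit 26) (.e (nat_lit 336194) (nat_lit 12) (.e (nat_lit 385066) (nat_lit 26) (.e (nat_lit 532510) (nat_lit 2) (.e (nat_lit 106535) (nat_lit 11) .nil)))))) (.g (nat_lit 4) .nil .nil))))) (.nd (nat_lit 4) (.nd (nat_lit 5) 
(.lf (nat_lit 132680) (.g (nat_lit 1656) (.e (nat_lit 16416) (nat_lit 3) (.e (nat_lit 204861) (nat_lit 26) (.e (nat_lit 336075) (nat_lit 9) (.e (nat_lit 336326) (nat_lit 18) (.e (nat_lit 212736) (nat_lit 19) (.e (nat_lit 106536) (nat_lit 11) .nil)))))) (.g (nat_lit 4) .nil .nil))) 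
(.lf (nat_lit 132712) (.g (nat_lit 1804) (.e (nat_lit 16416) (nat_lit 3) (.e (nat_lit 204861) (nat_lit 26) (.e (nat_lit 336194) (nat_lit 12) (.e (nat_lit 385064) (nat_lit 26) (.e (nat_lit 532511) (nat_lit 2) (.e (nat_lit 106536) (nat_lit 11) .nil)))))) (.g (nat_lit 4) .nil .nil)))) (.nd (nat_lit 5) 
(.lf (nat_lit 132696) (.g (nat_lit 2155) (.e (nat_lit 16416) (nat_lit 3) (.e (nat_lit 204861) (nat_lit 26) (.e (nat_lit 336076) (nat_lit 9) (.e (nat_lit 336326) (nat_lit 18) (.e (nat_lit 212736) (nat_lit 19) (.e (nat_lit 106536) (nat_lit 11) .nil)))))) (.g (nat_lit 4) .nil .nil))) 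
(.lf (nat_lit 132728) (.g (nat_lit 2923) (.e (nat_lit 16416) (nat_lit 3) (.e (nat_lit 204861) (nat_lit 26) (.e (nat_lit 336194) (nat_lit 12) (.e (nat_lit 385068) (nat_lit 26) (.e (nat_lit 532483) (nat_lit 0) (.e (nat_lit 2078) (nat_lit 142) (.e (nat_lit 704734) (nat_lit 11) .nil))))))) (.g (nat_lit 4) .nil .nil)))))) (.nd (nat_lit 3) (.nd (nat_lit 4) (.nd (nat_lit 5) 
(.lf (nat_lit 132676) (.g (nat_lit 2196) (.e (nat_lit 16416) (nat_lit 3) (.e (nat_lit 204861) (nat_lit 26) (.e (nat_lit 336075) (nat_lit 9) (.e (nat_lit 336324) (nat_lit 18) (.e (nat_lit 204834) (nat_lit 19) (.e (nat_lit 114432) (nat_lit 11) .nil)))))) (.g (nat_lit 4) .nil .nil))) 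
(.lf (nat_lit 132708) (.g (nat_lit 3861) (.e (nat_lit 16416) (nat_lit 3) (.e (nat_lit 204861) (nat_lit 26) (.e (nat_lit 336186) (nat_lit 11) (.e (nat_lit 368682) (nat_lit 26) (.e (nat_lit 557091) (nat_lit 12) (.e (nat_lit 164022) (nat_lit 46) (.e (nat_lit 704738) (nat_lit 11) .nil))))))) (.g (nat_lit 7) .nil .nil)))) (.nd (nat_lit 5) 
(.lf (nat_lit 132692) (.g (nat_lit 2827) (.e (nat_lit 16416) (nat_lit 3) (.e (nat_lit 204861) (nat_lit 26) (.e (nat_lit 336076) (nat_lit 9) (.e (nat_lit 336324) (nat_lit 18) (.e (nat_lit 204835) (nat_lit 19) (.e (nat_lit 106535) (nat_lit 11) .nil)))))) (.g (nat_lit 5) .nil .nil))) 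
(.lf (nat_lit 132724) (.g (nat_lit 2595) (.e (nat_lit 16416) (nat_lit 3) (.e (nat_lit 204861) (nat_lit 26) (.e (nat_lit 336194) (nat_lit 12) (.e (nat_lit 385067) (nat_lit 26) (.e (nat_lit 532511) (nat_lit 2) (.e (nat_lit 106536) (nat_lit 11) .nil)))))) (.g (nat_lit 5) .nil .nil))))) (.nd (nat_lit 4) (.nd (nat_lit 5) 
(.lf (nat_lit 132684) (.g (nat_lit 2726) (.e (nat_lit 16416) (nat_lit 3) (.e (nat_lit 204861) (nat_lit 26) (.e (nat_lit 336076) (nat_lit 9) (.e (nat_lit 336316) (nat_lit 17) (.e (nat_lit 196661) (nat_lit 12) (.e (nat_lit 57531) (nat_lit 46) (.e (nat_lit 712448) (nat_lit 11) .nil))))))) (.g (nat_lit 4) .nil .nil))) 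
(.lf (nat_lit 132716) (.g (nat_lit 1939) (.e (nat_lit 16416) (nat_lit 3) (.e (nat_lit 204861) (nat_lit 26) (.e (nat_lit 336194) (nat_lit 12) (.e (nat_lit 385066) (nat_lit 26) (.e (nat_lit 532481) (nat_lit 0) .nil))))) .nil))) (.nd (nat_lit 5) 
(.lf (nat_lit 132700) (.g (nat_lit 3281) (.e (nat_lit 16416) (nat_lit 3) (.e (nat_lit 204861) (nat_lit 26) (.e (nat_lit 336174) (nat_lit 10) (.e (nat_lit 344132) (nat_lit 26) (.e (nat_lit 557093) (nat_lit 12) (.e (nat_lit 164022) (nat_lit 46) (.e (nat_lit 704738) (nat_lit 11) .nil))))))) (.g (nat_lit 0) .nil .nil))) 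
(.lf (nat_lit 132732) (.g (nat_lit 2836) (.e (nat_lit 16416) (nat_lit 3) (.e (nat_lit 204861) (nat_lit 26) (.e (nat_lit 336194) (nat_lit 12) (.e (nat_lit 385068) (nat_lit 26) (.e (nat_lit 532508) (nat_lit 2) (.e (nat_lit 114432) (nat_lit 11) .nil)))))) (.g (nat_lit 5) .nil .nil))))))) (.nd (nat_lit 2) (.nd (nat_lit 3) (.nd (nat_lit 4) (.nd (nat_lit 5) 
(.lf (nat_lit 132674) (.g (nat_lit 2369) (.e (nat_lit 16416) (nat_lit 3) (.e (nat_lit 204861) (nat_lit 26) (.e (nat_lit 336075) (nat_lit 9) (.e (nat_lit 336324) (nat_lit 18) (.e (nat_lit 204820) (nat_lit 17) (.e (nat_lit 2095) (nat_lit 142) (.e (nat_lit 704734) (nat_lit 11) .nil))))))) (.g (nat_lit 4) .nil .nil))) 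
(.lf (nat_lit 132706) (.g (nat_lit 3855) (.e (nat_lit 16416) (nat_lit 3) (.e (nat_lit 204861) (nat_lit 26) (.e (nat_lit 336186) (nat_lit 11) (.e (nat_lit 368681) (nat_lit 26) (.e (nat_lit 557093) (nat_lit 12) (.e (nat_lit 164022) (nat_lit 46) (.e (nat_lit 704738) (nat_lit 11) .nil))))))) (.g (nat_lit 0) .nil .nil)))) (.nd (nat_lit 5) 
(.lf (nat_lit 132690) (.g (nat_lit 2218) (.e (nat_lit 16416) (nat_lit 3) (.e (nat_lit 204861) (nat_lit 26) (.e (nat_lit 336076) (nat_lit 9) (.e (nat_lit 336324) (nat_lit 18) (.e (nat_lit 204832) (nat_lit 19) (.e (nat_lit 106536) (nat_lit 11) .nil)))))) (.g (nat_lit 4) .nil .nil))) 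
(.lf (nat_lit 132722) (.g (nat_lit 1993) (.e (nat_lit 16416) (nat_lit 3) (.e (nat_lit 204861) (nat_lit 26) (.e (nat_lit 336194) (nat_lit 12) (.e (nat_lit 385066) (nat_lit 26) (.e (nat_lit 540416) (nat_lit 2) .nil))))) .nil)))) (.nd (nat_lit 4) (.nd (nat_lit 5) 
(.lf (nat_lit 132682) (.g (nat_lit 2834) (.e (nat_lit 16416) (nat_lit 3) (.e (nat_lit 204861) (nat_lit 26) (.e (nat_lit 336076) (nat_lit 9) (.e (nat_lit 336316) (nat_lit 17) (.e (nat_lit 196660) (nat_lit 12) (.e (nat_lit 57533) (nat_lit 46) (.e (nat_lit 704732) (nat_lit 11) .nil))))))) (.g (nat_lit 4) .nil .nil))) 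
(.lf (nat_lit 132714) (.g (nat_lit 1665) (.e (nat_lit 16416) (nat_lit 3) (.e (nat_lit 204861) (nat_lit 26) (.e (nat_lit 336194) (nat_lit 12) (.e (nat_lit 385065) (nat_lit 26) (.e (nat_lit 532508) (nat_lit 2) .nil))))) .nil))) (.nd (nat_lit 5) 
(.lf (nat_lit 132698) (.g (nat_lit 3421) (.e (nat_lit 16416) (nat_lit 3) (.e (nat_lit 204861) (nat_lit 26) (.e (nat_lit 336163) (nat_lit 10) (.e (nat_lit 344132) (nat_lit 26) (.e (nat_lit 557093) (nat_lit 12) (.e (nat_lit 164022) (nat_lit 46) (.e (nat_lit 704738) (nat_lit 11) .nil))))))) (.g (nat_lit 0) .nil .nil))) 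
(.lf (nat_lit 132730) (.g (nat_lit 2459) (.e (nat_lit 16416) (nat_lit 3) (.e (nat_lit 204861) (nat_lit 26) (.e (nat_lit 336194) (nat_lit 12) (.e (nat_lit 385068) (nat_lit 26) (.e (nat_lit 532489) (nat_lit 0) (.e (nat_lit 2044) (nat_lit 142) (.e (nat_lit 704734) (nat_lit 11) .nil))))))) (.g (nat_lit 4) .nil .nil)))))) (.nd (nat_lit 3) (.nd (nat_lit 4) (.nd (nat_lit 5) 
(.lf (nat_lit 132678) (.g (nat_lit 2132) (.e (nat_lit 16416) (nat_lit 3) (.e (nat_lit 204861) (nat_lit 26) (.e (nat_lit 336075) (nat_lit 9) (.e (nat_lit 336326) (nat_lit 18) (.e (nat_lit 204834) (nat_lit 19) (.e (nat_lit 106534) (nat_lit 11) .nil)))))) (.g (nat_lit 5) .nil .nil))) 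
(.lf (nat_lit 132710) (.g (nat_lit 365) (.e (nat_lit 16416) (nat_lit 3) (.e (nat_lit 204861) (nat_lit 26) (.e (nat_lit 336194) (nat_lit 12) .nil))) .nil))) (.nd (nat_lit 5) 
(.lf (nat_lit 132694) (.g (nat_lit 2466) (.e (nat_lit 16416) (nat_lit 3) (.e (nat_lit 204861) (nat_lit 26) (.e (nat_lit 336076) (nat_lit 9) (.e (nat_lit 336326) (nat_lit 18) (.e (nat_lit 204834) (nat_lit 19) (.e (nat_lit 106534) (nat_lit 11) .nil)))))) (.g (nat_lit 5) .nil .nil))) 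
(.lf (nat_lit 132726) (.g (nat_lit 2718) (.e (nat_lit 16416) (nat_lit 3) (.e (nat_lit 204861) (nat_lit 26) (.e (nat_lit 336194) (nat_lit 12) (.e (nat_lit 385068) (nat_lit 26) (.e (nat_lit 532481) (nat_lit 0) (.e (nat_lit 2044) (nat_lit 142) (.e (nat_lit 704734) (nat_lit 11) .nil))))))) (.g (nat_lit 4) .nil .nil))))) (.nd (nat_lit 4) (.nd (nat_lit 5) 
(.lf (nat_lit 132686) (.g (nat_lit 2393) (.e (nat_lit 16416) (nat_lit 3) (.e (nat_lit 204861) (nat_lit 26) (.e (nat_lit 336076) (nat_lit 9) (.e (nat_lit 336320) (nat_lit 17) (.e (nat_lit 196628) (nat_lit 9) (.e (nat_lit 7936) (nat_lit 93) (.e (nat_lit 106536) (nat_lit 11) .nil))))))) (.g (nat_lit 4) .nil .nil))) 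
(.lf (nat_lit 132718) (.g (nat_lit 2111) (.e (nat_lit 16416) (nat_lit 3) (.e (nat_lit 204861) (nat_lit 26) (.e (nat_lit 336194) (nat_lit 12) (.e (nat_lit 385066) (nat_lit 26) (.e (nat_lit 532489) (nat_lit 0) .nil))))) .nil))) (.nd (nat_lit 5) 
(.lf (nat_lit 132702) (.g (nat_lit 3817) (.e (nat_lit 16416) (nat_lit 3) (.e (nat_lit 204861) (nat_lit 26) (.e (nat_lit 336174) (nat_lit 10) (.e (nat_lit 344133) (nat_lit 26) (.e (nat_lit 557091) (nat_lit 12) (.e (nat_lit 164022) (nat_lit 46) (.e (nat_lit 704738) (nat_lit 11) .nil))))))) (.g (nat_lit 7) .nil .nil))) 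
(.lf (nat_lit 132734) (.g (nat_lit 3015) (.e (nat_lit 16416) (nat_lit 3) (.e (nat_lit 204861) (nat_lit 26) (.e (nat_lit 336194) (nat_lit 12) (.e (nat_lit 385068) (nat_lit 26) (.e (nat_lit 532511) (nat_lit 2) (.e (nat_lit 106535) (nat_lit 11) .nil)))))) (.g (nat_lit 6) .nil .nil)))))))) (.nd (nat_lit 1) (.nd (nat_lit 2) (.nd (nat_lit 3) (.nd (nat_lit 4) (.nd (nat_lit 5) 
(.lf (nat_lit 132673) (.g (nat_lit 2842) (.e (nat_lit 16416) (nat_lit 3) (.e (nat_lit 204861) (nat_lit 26) (.e (nat_lit 336075) (nat_lit 9) (.e (nat_lit 336324) (nat_lit 18) (.e (nat_lit 204816) (nat_lit 17) (.e (nat_lit 2099) (nat_lit 142) (.e (nat_lit 712448) (nat_lit 11) .nil))))))) (.g (nat_lit 6) .nil .nil))) 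
(.lf (nat_lit 132705) (.g (nat_lit 2011) (.e (nat_lit 16416) (nat_lit 3) (.e (nat_lit 204861) (nat_lit 26) (.e (nat_lit 336186) (nat_lit 11) (.e (nat_lit 368676) (nat_lit 21) (.e (nat_lit 516117) (nat_lit 1) (.e (nat_lit 171776) (nat_lit 278) (.e (nat_lit 1124) (nat_lit 83) .nil))))))) (.g (nat_lit 4) .nil .nil)))) (.nd (nat_lit 5) 
(.lf (nat_lit 132689) (.g (nat_lit 2973) (.e (nat_lit 16416) (nat_lit 3) (.e (nat_lit 204861) (nat_lit 26) (.e (nat_lit 336076) (nat_lit 9) (.e (nat_lit 336324) (nat_lit 18) (.e (nat_lit 204816) (nat_lit 17) (.e (nat_lit 2099) (nat_lit 142) (.e (nat_lit 712448) (nat_lit 11) .nil))))))) (.g (nat_lit 5) .nil .nil))) 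
(.lf (nat_lit 132721) (.g (nat_lit 3237) (.e (nat_lit 16416) (nat_lit 3) (.e (nat_lit 204861) (nat_lit 26) (.e (nat_lit 336194) (nat_lit 12) (.e (nat_lit 385066) (nat_lit 26) (.e (nat_lit 532511) (nat_lit 2) (.e (nat_lit 106535) (nat_lit 11) .nil)))))) (.g (nat_lit 0) .nil .nil))))) (.nd (nat_lit 4) (.nd (nat_lit 5) 
(.lf (nat_lit 132681) (.g (nat_lit 1968) (.e (nat_lit 16416) (nat_lit 3) (.e (nat_lit 204861) (nat_lit 26) (.e (nat_lit 336076) (nat_lit 9) (.e (nat_lit 336316) (nat_lit 17) (.e (nat_lit 196660) (nat_lit 12) .nil))))) .nil)) 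
(.lf (nat_lit 132713) (.g (nat_lit 2174) (.e (nat_lit 16416) (nat_lit 3) (.e (nat_lit 204861) (nat_lit 26) (.e (nat_lit 336194) (nat_lit 12) (.e (nat_lit 385065) (nat_lit 26) (.e (nat_lit 532506) (nat_lit 2) (.e (nat_lit 106536) (nat_lit 11) .nil)))))) (.g (nat_lit 4) .nil .nil)))) (.nd (nat_lit 5) 
(.lf (nat_lit 132697) (.g (nat_lit 1330) (.e (nat_lit 16416) (nat_lit 3) (.e (nat_lit 204861) (nat_lit 26) (.e (nat_lit 336086) (nat_lit 9) (.e (nat_lit 336324) (nat_lit 18) .nil)))) .nil)) 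
(.lf (nat_lit 132729) (.g (nat_lit 1749) (.e (nat_lit 16416) (nat_lit 3) (.e (nat_lit 204861) (nat_lit 26) (.e (nat_lit 336194) (nat_lit 12) (.e (nat_lit 385068) (nat_lit 26) (.e (nat_lit 532484) (nat_lit 0) .nil))))) .nil))))) (.nd (nat_lit 3) (.nd (nat_lit 4) (.nd (nat_lit 5) 
(.lf (nat_lit 132677) (.g (nat_lit 2723) (.e (nat_lit 16416) (nat_lit 3) (.e (nat_lit 204861) (nat_lit 26) (.e (nat_lit 336075) (nat_lit 9) (.e (nat_lit 336324) (nat_lit 18) (.e (nat_lit 204835) (nat_lit 19) (.e (nat_lit 106535) (nat_lit 11) .nil)))))) (.g (nat_lit 5) .nil .nil))) 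
(.lf (nat_lit 132709) (.g (nat_lit 3718) (.e (nat_lit 16416) (nat_lit 3) (.e (nat_lit 204861) (nat_lit 26) (.e (nat_lit 336186) (nat_lit 11) (.e (nat_lit 368682) (nat_lit 26) (.e (nat_lit 557093) (nat_lit 12) (.e (nat_lit 164022) (nat_lit 46) (.e (nat_lit 704738) (nat_lit 11) .nil))))))) (.g (nat_lit 0) .nil .nil)))) (.nd (nat_lit 5) 
(.lf (nat_lit 132693) (.g (nat_lit 1274) (.e (nat_lit 16416) (nat_lit 3) (.e (nat_lit 204861) (nat_lit 26) (.e (nat_lit 336076) (nat_lit 9) (.e (nat_lit 336325) (nat_lit 18) .nil)))) .nil)) 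
(.lf (nat_lit 132725) (.g (nat_lit 926) (.e (nat_lit 16416) (nat_lit 3) (.e (nat_lit 204861) (nat_lit 26) (.e (nat_lit 336194) (nat_lit 12) (.e (nat_lit 385068) (nat_lit 26) .nil)))) .nil)))) (.nd (nat_lit 4) (.nd (nat_lit 5) 
(.lf (nat_lit 132685) (.g (nat_lit 2836) (.e (nat_lit 16416) (nat_lit 3) (.e (nat_lit 204861) (nat_lit 26) (.e (nat_lit 336076) (nat_lit 9) (.e (nat_lit 336316) (nat_lit 17) (.e (nat_lit 196661) (nat_lit 12) (.e (nat_lit 57532) (nat_lit 46) (.e (nat_lit 712448) (nat_lit 11) .nil))))))) (.g (nat_lit 5) .nil .nil))) 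
(.lf (nat_lit 132717) (.g (nat_lit 3633) (.e (nat_lit 16416) (nat_lit 3) (.e (nat_lit 204861) (nat_lit 26) (.e (nat_lit 336194) (nat_lit 12) (.e (nat_lit 385066) (nat_lit 26) (.e (nat_lit 532481) (nat_lit 0) (.e (nat_lit 2080) (nat_lit 142) (.e (nat_lit 704734) (nat_lit 11) .nil))))))) (.g (nat_lit 5) .nil .nil)))) (.nd (nat_lit 5) 
(.lf (nat_lit 132701) (.g (nat_lit 2796) (.e (nat_lit 16416) (nat_lit 3) (.e (nat_lit 204861) (nat_lit 26) (.e (nat_lit 336174) (nat_lit 10) (.e (nat_lit 344132) (nat_lit 26) (.e (nat_lit 557094) (nat_lit 12) (.e (nat_lit 164022) (nat_lit 46) (.e (nat_lit 704738) (nat_lit 11) .nil))))))) (.g (nat_lit 7) .nil .nil))) 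
(.lf (nat_lit 132733) (.g (nat_lit 2163) (.e (nat_lit 16416) (nat_lit 3) (.e (nat_lit 204861) (nat_lit 26) (.e (nat_lit 336194) (nat_lit 12) (.e (nat_lit 385068) (nat_lit 26) (.e (nat_lit 532510) (nat_lit 2) (.e (nat_lit 106535) (nat_lit 11) .nil)))))) (.g (nat_lit 4) .nil .nil))))))) (.nd (nat_lit 2) (.nd (nat_lit 3) (.nd (nat_lit 4) (.nd (nat_lit 5) 
(.lf (nat_lit 132675) (.g (nat_lit 2279) (.e (nat_lit 16416) (nat_lit 3) (.e (nat_lit 204861) (nat_lit 26) (.e (nat_lit 336075) (nat_lit 9) (.e (nat_lit 336324) (nat_lit 18) (.e (nat_lit 204832) (nat_lit 19) (.e (nat_lit 106536) (nat_lit 11) .nil)))))) (.g (nat_lit 4) .nil .nil))) 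
(.lf (nat_lit 132707) (.g (nat_lit 3350) (.e (nat_lit 16416) (nat_lit 3) (.e (nat_lit 204861) (nat_lit 26) (.e (nat_lit 336186) (nat_lit 11) (.e (nat_lit 368681) (nat_lit 26) (.e (nat_lit 557094) (nat_lit 12) (.e (nat_lit 164022) (nat_lit 46) (.e (nat_lit 704738) (nat_lit 11) .nil))))))) (.g (nat_lit 7) .nil .nil)))) (.nd (nat_lit 5) 
(.lf (nat_lit 132691) (.g (nat_lit 2416) (.e (nat_lit 16416) (nat_lit 3) (.e (nat_lit 204861) (nat_lit 26) (.e (nat_lit 336076) (nat_lit 9) (.e (nat_lit 336324) (nat_lit 18) (.e (nat_lit 204834) (nat_lit 19) (.e (nat_lit 114432) (nat_lit 11) .nil)))))) (.g (nat_lit 4) .nil .nil))) 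
(.lf (nat_lit 132723) (.g (nat_lit 2097) (.e (nat_lit 16416) (nat_lit 3) (.e (nat_lit 204861) (nat_lit 26) (.e (nat_lit 336194) (nat_lit 12) (.e (nat_lit 385066) (nat_lit 26) (.e (nat_lit 532521) (nat_lit 6) .nil))))) .nil)))) (.nd (nat_lit 4) (.nd (nat_lit 5) 
(.lf (nat_lit 132683) (.g (nat_lit 2880) (.e (nat_lit 16416) (nat_lit 3) (.e (nat_lit 204861) (nat_lit 26) (.e (nat_lit 336076) (nat_lit 9) (.e (nat_lit 336316) (nat_lit 17) (.e (nat_lit 196661) (nat_lit 12) (.e (nat_lit 57530) (nat_lit 46) (.e (nat_lit 712448) (nat_lit 11) .nil))))))) (.g (nat_lit 5) .nil .nil))) 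
(.lf (nat_lit 132715) (.g (nat_lit 1002) (.e (nat_lit 16416) (nat_lit 3) (.e (nat_lit 204861) (nat_lit 26) (.e (nat_lit 336194) (nat_lit 12) (.e (nat_lit 385066) (nat_lit 26) .nil)))) .nil))) (.nd (nat_lit 5) 
(.lf (nat_lit 132699) (.g (nat_lit 3387) (.e (nat_lit 16416) (nat_lit 3) (.e (nat_lit 204861) (nat_lit 26) (.e (nat_lit 336163) (nat_lit 10) (.e (nat_lit 344133) (nat_lit 26) (.e (nat_lit 557091) (nat_lit 12) (.e (nat_lit 164022) (nat_lit 46) (.e (nat_lit 704738) (nat_lit 11) .nil))))))) (.g (nat_lit 6) .nil .nil))) 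
(.lf (nat_lit 132731) (.g (nat_lit 2717) (.e (nat_lit 16416) (nat_lit 3) (.e (nat_lit 204861) (nat_lit 26) (.e (nat_lit 336194) (nat_lit 12) (.e (nat_lit 385068) (nat_lit 26) (.e (nat_lit 532490) (nat_lit 0) (.e (nat_lit 2088) (nat_lit 142) (.e (nat_lit 704734) (nat_lit 11) .nil))))))) (.g (nat_lit 4) .nil .nil)))))) (.nd (nat_lit 3) (.nd (nat_lit 4) (.nd (nat_lit 5) 
(.lf (nat_lit 132679) (.g (nat_lit 2042) (.e (nat_lit 16416) (nat_lit 3) (.e (nat_lit 204861) (nat_lit 26) (.e (nat_lit 336075) (nat_lit 9) (.e (nat_lit 336326) (nat_lit 18) (.e (nat_lit 204834) (nat_lit 19) (.e (nat_lit 106536) (nat_lit 11) .nil)))))) (.g (nat_lit 4) .nil .nil))) 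
(.lf (nat_lit 132711) (.g (nat_lit 1296) (.e (nat_lit 16416) (nat_lit 3) (.e (nat_lit 204861) (nat_lit 26) (.e (nat_lit 336194) (nat_lit 12) (.e (nat_lit 385059) (nat_lit 22) .nil)))) .nil))) (.nd (nat_lit 5) 
(.lf (nat_lit 132695) (.g (nat_lit 2385) (.e (nat_lit 16416) (nat_lit 3) (.e (nat_lit 204861) (nat_lit 26) (.e (nat_lit 336076) (nat_lit 9) (.e (nat_lit 336326) (nat_lit 18) (.e (nat_lit 204834) (nat_lit 19) (.e (nat_lit 106536) (nat_lit 11) .nil)))))) (.g (nat_lit 4) .nil .nil))) 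
(.lf (nat_lit 132727) (.g (nat_lit 2165) (.e (nat_lit 16416) (nat_lit 3) (.e (nat_lit 204861) (nat_lit 26) (.e (nat_lit 336194) (nat_lit 12) (.e (nat_lit 385068) (nat_lit 26) (.e (nat_lit 532483) (nat_lit 0) .nil))))) .nil)))) (.nd (nat_lit 4) (.nd (nat_lit 5) 
(.lf (nat_lit 132687) (.g (nat_lit 1200) (.e (nat_lit 16416) (nat_lit 3) (.e (nat_lit 204861) (nat_lit 26) (.e (nat_lit 336076) (nat_lit 9) (.e (nat_lit 336322) (nat_lit 18) .nil)))) .nil)) 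
(.lf (nat_lit 132719) (.g (nat_lit 2719) (.e (nat_lit 16416) (nat_lit 3) (.e (nat_lit 204861) (nat_lit 26) (.e (nat_lit 336194) (nat_lit 12) (.e (nat_lit 385066) (nat_lit 26) (.e (nat_lit 532508) (nat_lit 2) (.e (nat_lit 114432) (nat_lit 11) .nil)))))) (.g (nat_lit 4) .nil .nil)))) (.nd (nat_lit 5) 
(.lf (nat_lit 132703) (.g (nat_lit 1835) (.e (nat_lit 16416) (nat_lit 3) (.e (nat_lit 204861) (nat_lit 26) (.e (nat_lit 336186) (nat_lit 11) (.e (nat_lit 368676) (nat_lit 21) (.e (nat_lit 516115) (nat_lit 1) (.e (nat_lit 171776) (nat_lit 278) (.e (nat_lit 1128) (nat_lit 83) .nil))))))) (.g (nat_lit 4) .nil .nil))) 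
(.lf (nat_lit 132735) (.g (nat_lit 2159) (.e (nat_lit 16416) (nat_lit 3) (.e (nat_lit 204861) (nat_lit 26) (.e (nat_lit 336194) (nat_lit 12) (.e (nat_lit 385068) (nat_lit 26) (.e (nat_lit 540416) (nat_lit 2) (.e (nat_lit 106536) (nat_lit 11) .nil)))))) (.g (nat_lit 4) .nil .nil)))))))))

noncomputable def tv1771 : DT := (.nd (nat_lit 0) (.nd (nat_lit 1) (.nd (nat_lit 2) (.nd (nat_lit 3) (.nd (nat_lit 4) (.nd (nat_lit 5) (.nd (nat_lit 6) 
(.lf (nat_lit 132736) (.g (nat_lit 1210) (.e (nat_lit 16416) (nat_lit 3) (.e (nat_lit 204861) (nat_lit 26) (.e (nat_lit 336196) (nat_lit 12) (.e (nat_lit 385066) (nat_lit 26) .nil)))) .nil)) 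
(.lf (nat_lit 132800) (.g (nat_lit 1944) (.e (nat_lit 16416) (nat_lit 3) (.e (nat_lit 204869) (nat_lit 29) (.e (nat_lit 360474) (nat_lit 8) (.e (nat_lit 557072) (nat_lit 9) .nil)))) .nil))) (.nd (nat_lit 6) 
(.lf (nat_lit 132768) (.g (nat_lit 2845) (.e (nat_lit 16416) (nat_lit 3) (.e (nat_lit 204868) (nat_lit 29) (.e (nat_lit 360475) (nat_lit 8) (.e (nat_lit 557070) (nat_lit 9) .nil)))) .nil)) 
(.lf (nat_lit 132832) (.g (nat_lit 3342) (.e (nat_lit 16416) (nat_lit 3) (.e (nat_lit 204869) (nat_lit 29) (.e (nat_lit 360474) (nat_lit 8) (.e (nat_lit 557091) (nat_lit 12) (.e (nat_lit 163845) (nat_lit 0) (.e (nat_lit 6561) (nat_lit 351) (.e (nat_lit 1122) (nat_lit 83) .nil))))))) (.g (nat_lit 4) .nil .nil))))) (.nd (nat_lit 5) (.nd (nat_lit 6) 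
(.lf (nat_lit 132752) (.g (nat_lit 3393) (.e (nat_lit 16416) (nat_lit 3) (.e (nat_lit 204868) (nat_lit 29) (.e (nat_lit 360473) (nat_lit 8) (.e (nat_lit 557091) (nat_lit 12) (.e (nat_lit 164022) (nat_lit 46) (.e (nat_lit 704735) (nat_lit 11) .nil)))))) (.g (nat_lit 5) .nil .nil))) 
(.lf (nat_lit 132816) (.g (nat_lit 3934) (.e (nat_lit 16416) (nat_lit 3) (.e (nat_lit 204869) (nat_lit 29) (.e (nat_lit 360474) (nat_lit 8) (.e (nat_lit 557091) (nat_lit 12) (.e (nat_lit 163842) (nat_lit 0) (.e (nat_lit 6534) (nat_lit 351) (.e (nat_lit 1128) (nat_lit 83) .nil))))))) (.g (nat_lit 4) .nil .nil)))) (.nd (nat_lit 6) 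
(.lf (nat_lit 132784) (.g (nat_lit 2564) (.e (nat_lit 16416) (nat_lit 3) (.e (nat_lit 204869) (nat_lit 29) (.e (nat_lit 360451) (nat_lit 0) (.e (nat_lit 4009) (nat_lit 243) .nil)))) .nil)) 
(.lf (nat_lit 132848) (.g (nat_lit 5272) (.e (nat_lit 16416) (nat_lit 3) (.e (nat_lit 204869) (nat_lit 29) (.e (nat_lit 360474) (nat_lit 8) (.e (nat_lit 557093) (nat_lit 12) (.e (nat_lit 164023) (nat_lit 46) (.e (nat_lit 704737) (nat_lit 11) .nil)))))) (.g (nat_lit 0) .nil .nil)))))) (.nd (nat_lit 4) (.nd (nat_lit 5) (.nd (nat_lit 6) 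
(.lf (nat_lit 132744) (.g (nat_lit 636) (.e (nat_lit 16416) (nat_lit 3) (.e (nat_lit 204868) (nat_lit 29) (.e (nat_lit 360455) (nat_lit 0) .nil))) .nil)) 
(.lf (nat_lit 132808) (.g (nat_lit 3249) (.e (nat_lit 16416) (nat_lit 3) (.e (nat_lit 204869) (nat_lit 29) (.e (nat_lit 360474) (nat_lit 8) (.e (nat_lit 557091) (nat_lit 12) (.e (nat_lit 163841) (nat_lit 0) (.e (nat_lit 6546) (nat_lit 351) (.e (nat_lit 1122) (nat_lit 83) .nil))))))) (.g (nat_lit 4) .nil .nil)))) (.nd (nat_lit 6) 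
(.lf (nat_lit 132776) (.g (nat_lit 4975) (.e (nat_lit 16416) (nat_lit 3) (.e (nat_lit 204868) (nat_lit 29) (.e (nat_lit 360475) (nat_lit 8) (.e (nat_lit 557091) (nat_lit 12) (.e (nat_lit 164022) (nat_lit 46) (.e (nat_lit 704737) (nat_lit 11) .nil)))))) (.g (nat_lit 5) .nil .nil))) 
(.lf (nat_lit 132840) (.g (nat_lit 4038) (.e (nat_lit 16416) (nat_lit 3) (.e (nat_lit 204869) (nat_lit 29) (.e (nat_lit 360474) (nat_lit 8) (.e (nat_lit 557092) (nat_lit 12) .nil)))) .nil)))) (.nd (nat_lit 5) (.nd (nat_lit 6) 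
(.lf (nat_lit 132760) (.g (nat_lit 2913) (.e (nat_lit 16416) (nat_lit 3) (.e (nat_lit 204868) (nat_lit 29) (.e (nat_lit 360473) (nat_lit 8) (.e (nat_lit 557093) (nat_lit 12) (.e (nat_lit 164023) (nat_lit 46) (.e (nat_lit 704736) (nat_lit 11) .nil)))))) (.g (nat_lit 5) .nil .nil))) 
(.lf (nat_lit 132824) (.g (nat_lit 4118) (.e (nat_lit 16416) (nat_lit 3) (.e (nat_lit 204869) (nat_lit 29) (.e (nat_lit 360474) (nat_lit 8) (.e (nat_lit 557091) (nat_lit 12) (.e (nat_lit 163842) (nat_lit 0) (.e (nat_lit 6538) (nat_lit 351) (.e (nat_lit 1127) (nat_lit 83) .nil))))))) (.g (nat_lit 4) .nil .nil)))) (.nd (nat_lit 6) 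
(.lf (nat_lit 132792) (.g (nat_lit 3079) (.e (nat_lit 16416) (nat_lit 3) (.e (nat_lit 204869) (nat_lit 29) (.e (nat_lit 368384) (nat_lit 5) (.e (nat_lit 532499) (nat_lit 1) (.e (nat_lit 57906) (nat_lit 278) (.e (nat_lit 7936) (nat_lit 83) .nil)))))) (.g (nat_lit 4) .nil .nil))) 
(.lf (nat_lit 132856) (.g (nat_lit 3662) (.e (nat_lit 16416) (nat_lit 3) (.e (nat_lit 204869) (nat_lit 29) (.e (nat_lit 360475) (nat_lit 8) (.e (nat_lit 557067) (nat_lit 9) .nil)))) .nil)))))) (.nd (nat_lit 3) (.nd (nat_lit 4) (.nd (nat_lit 5) (.nd (nat_lit 6) 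
(.lf (nat_lit 132740) (.g (nat_lit 2538) (.e (nat_lit 16416) (nat_lit 3) (.e (nat_lit 204865) (nat_lit 28) (.e (nat_lit 352262) (nat_lit 0) (.e (nat_lit 3253) (nat_lit 197) (.e (nat_lit 532511) (nat_lit 2) (.e (nat_lit 106536) (nat_lit 11) .nil)))))) (.g (nat_lit 0) .nil .nil))) 
(.lf (nat_lit 132804) (.g (nat_lit 2508) (.e (nat_lit 16416) (nat_lit 3) (.e (nat_lit 204869) (nat_lit 29) (.e (nat_lit 360474) (nat_lit 8) (.e (nat_lit 557091) (nat_lit 12) (.e (nat_lit 163841) (nat_lit 0) .nil))))) .nil))) (.nd (nat_lit 6) 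
(.lf (nat_lit 132772) (.g (nat_lit 3814) (.e (nat_lit 16416) (nat_lit 3) (.e (nat_lit 204868) (nat_lit 29) (.e (nat_lit 360475) (nat_lit 8) (.e (nat_lit 557089) (nat_lit 12) (.e (nat_lit 171776) (nat_lit 46) (.e (nat_lit 704734) (nat_lit 11) .nil)))))) (.g (nat_lit 4) .nil .nil))) 
(.lf (nat_lit 132836) (.g (nat_lit 3612) (.e (nat_lit 16416) (nat_lit 3) (.e (nat_lit 204869) (nat_lit 29) (.e (nat_lit 360474) (nat_lit 8) (.e (nat_lit 557091) (nat_lit 12) (.e (nat_lit 164022) (nat_lit 46) (.e (nat_lit 704735) (nat_lit 11) .nil)))))) (.g (nat_lit 5) .nil .nil))))) (.nd (nat_lit 5) (.nd (nat_lit 6) 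
(.lf (nat_lit 132756) (.g (nat_lit 3034) (.e (nat_lit 16416) (nat_lit 3) (.e (nat_lit 204868) (nat_lit 29) (.e (nat_lit 360473) (nat_lit 8) (.e (nat_lit 557093) (nat_lit 12) (.e (nat_lit 164022) (nat_lit 46) (.e (nat_lit 704735) (nat_lit 11) .nil)))))) (.g (nat_lit 5) .nil .nil))) 
(.lf (nat_lit 132820) (.g (nat_lit 4103) (.e (nat_lit 16416) (nat_lit 3) (.e (nat_lit 204869) (nat_lit 29) (.e (nat_lit 360474) (nat_lit 8) (.e (nat_lit 557091) (nat_lit 12) (.e (nat_lit 163842) (nat_lit 0) (.e (nat_lit 6536) (nat_lit 351) (.e (nat_lit 1127) (nat_lit 83) .nil))))))) (.g (nat_lit 4) .nil .nil)))) (.nd (nat_lit 6) 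
(.lf (nat_lit 132788) (.g (nat_lit 2506) (.e (nat_lit 16416) (nat_lit 3) (.e (nat_lit 204869) (nat_lit 29) (.e (nat_lit 360451) (nat_lit 0) (.e (nat_lit 4235) (nat_lit 251) .nil)))) .nil)) 
(.lf (nat_lit 132852) (.g (nat_lit 3373) (.e (nat_lit 16416) (nat_lit 3) (.e (nat_lit 204869) (nat_lit 29) (.e (nat_lit 360474) (nat_lit 8) (.e (nat_lit 557094) (nat_lit 12) (.e (nat_lit 164022) (nat_lit 46) (.e (nat_lit 704735) (nat_lit 11) .nil)))))) (.g (nat_lit 5) .nil .nil)))))) (.nd (nat_lit 4) (.nd (nat_lit 5) (.nd (nat_lit 6) 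
(.lf (nat_lit 132748) (.g (nat_lit 3484) (.e (nat_lit 16416) (nat_lit 3) (.e (nat_lit 204868) (nat_lit 29) (.e (nat_lit 360466) (nat_lit 3) (.e (nat_lit 516119) (nat_lit 1) (.e (nat_lit 171776) (nat_lit 278) (.e (nat_lit 1128) (nat_lit 83) .nil)))))) (.g (nat_lit 4) .nil .nil))) 
(.lf (nat_lit 132812) (.g (nat_lit 3697) (.e (nat_lit 16416) (nat_lit 3) (.e (nat_lit 204869) (nat_lit 29) (.e (nat_lit 360474) (nat_lit 8) (.e (nat_lit 557091) (nat_lit 12) (.e (nat_lit 163841) (nat_lit 0) (.e (nat_lit 6564) (nat_lit 351) (.e (nat_lit 1122) (nat_lit 83) .nil))))))) (.g (nat_lit 4) .nil .nil)))) (.nd (nat_lit 6) 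
(.lf (nat_lit 132780) (.g (nat_lit 622) (.e (nat_lit 16416) (nat_lit 3) (.e (nat_lit 204869) (nat_lit 29) (.e (nat_lit 360450) (nat_lit 0) .nil))) .nil)) 
(.lf (nat_lit 132844) (.g (nat_lit 4395) (.e (nat_lit 16416) (nat_lit 3) (.e (nat_lit 204869) (nat_lit 29) (.e (nat_lit 360474) (nat_lit 8) (.e (nat_lit 557093) (nat_lit 12) (.e (nat_lit 164022) (nat_lit 46) (.e (nat_lit 712448) (nat_lit 11) .nil)))))) (.g (nat_lit 5) .nil .nil))))) (.nd (nat_lit 5) (.nd (nat_lit 6) 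
(.lf (nat_lit 132764) (.g (nat_lit 2826) (.e (nat_lit 16416) (nat_lit 3) (.e (nat_lit 204868) (nat_lit 29) (.e (nat_lit 360473) (nat_lit 8) (.e (nat_lit 557094) (nat_lit 12) (.e (nat_lit 164022) (nat_lit 46) (.e (nat_lit 704735) (nat_lit 11) .nil)))))) (.g (nat_lit 5) .nil .nil))) 
(.lf (nat_lit 132828) (.g (nat_lit 3491) (.e (nat_lit 16416) (nat_lit 3) (.e (nat_lit 204869) (nat_lit 29) (.e (nat_lit 360474) (nat_lit 8) (.e (nat_lit 557091) (nat_lit 12) (.e (nat_lit 163842) (nat_lit 0) (.e (nat_lit 6573) (nat_lit 351) (.e (nat_lit 1122) (nat_lit 83) .nil))))))) (.g (nat_lit 4) .nil .nil)))) (.nd (nat_lit 6) 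
(.lf (nat_lit 132796) (.g (nat_lit 3181) (.e (nat_lit 16416) (nat_lit 3) (.e (nat_lit 204869) (nat_lit 29) (.e (nat_lit 360473) (nat_lit 8) (.e (nat_lit 557091) (nat_lit 12) (.e (nat_lit 164022) (nat_lit 46) (.e (nat_lit 704737) (nat_lit 11) .nil)))))) (.g (nat_lit 4) .nil .nil))) 
(.lf (nat_lit 132860) (.g (nat_lit 3192) (.e (nat_lit 16416) (nat_lit 3) (.e (nat_lit 204869) (nat_lit 29) (.e (nat_lit 360475) (nat_lit 8) (.e (nat_lit 557070) (nat_lit 9) .nil)))) .nil))))))) (.nd (nat_lit 2) (.nd (nat_lit 3) (.nd (nat_lit 4) (.nd (nat_lit 5) (.nd (nat_lit 6) 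
(.lf (nat_lit 132738) (.g (nat_lit 2452) (.e (nat_lit 16416) (nat_lit 3) (.e (nat_lit 204865) (nat_lit 28) (.e (nat_lit 352262) (nat_lit 0) (.e (nat_lit 3253) (nat_lit 197) (.e (nat_lit 532510) (nat_lit 2) (.e (nat_lit 106536) (nat_lit 11) .nil)))))) (.g (nat_lit 0) .nil .nil))) 
(.lf (nat_lit 132802) (.g (nat_lit 3541) (.e (nat_lit 16416) (nat_lit 3) (.e (nat_lit 204869) (nat_lit 29) (.e (nat_lit 360474) (nat_lit 8) (.e (nat_lit 557088) (nat_lit 12) .nil)))) .nil))) (.nd (nat_lit 6) 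
(.lf (nat_lit 132770) (.g (nat_lit 2217) (.e (nat_lit 16416) (nat_lit 3) (.e (nat_lit 204868) (nat_lit 29) (.e (nat_lit 360475) (nat_lit 8) (.e (nat_lit 557089) (nat_lit 12) .nil)))) .nil)) 
(.lf (nat_lit 132834) (.g (nat_lit 3394) (.e (nat_lit 16416) (nat_lit 3) (.e (nat_lit 204869) (nat_lit 29) (.e (nat_lit 360474) (nat_lit 8) (.e (nat_lit 557091) (nat_lit 12) (.e (nat_lit 163845) (nat_lit 0) (.e (nat_lit 6564) (nat_lit 351) (.e (nat_lit 1122) (nat_lit 83) .nil))))))) (.g (nat_lit 4) .nil .nil))))) (.nd (nat_lit 5) (.nd (nat_lit 6) 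
(.lf (nat_lit 132754) (.g (nat_lit 2563) (.e (nat_lit 16416) (nat_lit 3) (.e (nat_lit 204868) (nat_lit 29) (.e (nat_lit 360473) (nat_lit 8) (.e (nat_lit 557093) (nat_lit 12) (.e (nat_lit 164021) (nat_lit 46) (.e (nat_lit 704741) (nat_lit 11) .nil)))))) (.g (nat_lit 4) .nil .nil))) 
(.lf (nat_lit 132818) (.g (nat_lit 3230) (.e (nat_lit 16416) (nat_lit 3) (.e (nat_lit 204869) (nat_lit 29) (.e (nat_lit 360474) (nat_lit 8) (.e (nat_lit 557091) (nat_lit 12) (.e (nat_lit 163842) (nat_lit 0) (.e (nat_lit 6535) (nat_lit 351) (.e (nat_lit 1122) (nat_lit 83) .nil))))))) (.g (nat_lit 4) .nil .nil)))) (.nd (nat_lit 6) 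
(.lf (nat_lit 132786) (.g (nat_lit 2563) (.e (nat_lit 16416) (nat_lit 3) (.e (nat_lit 204869) (nat_lit 29) (.e (nat_lit 360451) (nat_lit 0) (.e (nat_lit 4017) (nat_lit 244) .nil)))) .nil)) 
(.lf (nat_lit 132850) (.g (nat_lit 3120) (.e (nat_lit 16416) (nat_lit 3) (.e (nat_lit 204869) (nat_lit 29) (.e (nat_lit 360474) (nat_lit 8) (.e (nat_lit 557093) (nat_lit 12) (.e (nat_lit 171776) (nat_lit 46) (.e (nat_lit 704734) (nat_lit 11) .nil)))))) (.g (nat_lit 4) .nil .nil)))))) (.nd (nat_lit 4) (.nd (nat_lit 5) (.nd (nat_lit 6) 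
(.lf (nat_lit 132746) (.g (nat_lit 2467) (.e (nat_lit 16416) (nat_lit 3) (.e (nat_lit 204868) (nat_lit 29) (.e (nat_lit 360466) (nat_lit 3) (.e (nat_lit 516119) (nat_lit 1) (.e (nat_lit 164428) (nat_lit 278) (.e (nat_lit 1122) (nat_lit 83) .nil)))))) (.g (nat_lit 4) .nil .nil))) 
(.lf (nat_lit 132810) (.g (nat_lit 3666) (.e (nat_lit 16416) (nat_lit 3) (.e (nat_lit 204869) (nat_lit 29) (.e (nat_lit 360474) (nat_lit 8) (.e (nat_lit 557091) (nat_lit 12) (.e (nat_lit 163841) (nat_lit 0) (.e (nat_lit 6561) (nat_lit 351) (.e (nat_lit 1122) (nat_lit 83) .nil))))))) (.g (nat_lit 4) .nil .nil)))) (.nd (nat_lit 6) 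
(.lf (nat_lit 132778) (.g (nat_lit 4152) (.e (nat_lit 16416) (nat_lit 3) (.e (nat_lit 204868) (nat_lit 29) (.e (nat_lit 360475) (nat_lit 8) (.e (nat_lit 557091) (nat_lit 12) (.e (nat_lit 171776) (nat_lit 46) (.e (nat_lit 704734) (nat_lit 11) .nil)))))) (.g (nat_lit 4) .nil .nil))) 
(.lf (nat_lit 132842) (.g (nat_lit 3799) (.e (nat_lit 16416) (nat_lit 3) (.e (nat_lit 204869) (nat_lit 29) (.e (nat_lit 360474) (nat_lit 8) (.e (nat_lit 557093) (nat_lit 12) (.e (nat_lit 164022) (nat_lit 46) (.e (nat_lit 704732) (nat_lit 11) .nil)))))) (.g (nat_lit 5) .nil .nil))))) (.nd (nat_lit 5) (.nd (nat_lit 6) 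
(.lf (nat_lit 132762) (.g (nat_lit 2244) (.e (nat_lit 16416) (nat_lit 3) (.e (nat_lit 204868) (nat_lit 29) (.e (nat_lit 360473) (nat_lit 8) (.e (nat_lit 557093) (nat_lit 12) (.e (nat_lit 171776) (nat_lit 46) (.e (nat_lit 704734) (nat_lit 11) .nil)))))) (.g (nat_lit 4) .nil .nil))) 
(.lf (nat_lit 132826) (.g (nat_lit 4327) (.e (nat_lit 16416) (nat_lit 3) (.e (nat_lit 204869) (nat_lit 29) (.e (nat_lit 360474) (nat_lit 8) (.e (nat_lit 557091) (nat_lit 12) (.e (nat_lit 163842) (nat_lit 0) (.e (nat_lit 6539) (nat_lit 351) (.e (nat_lit 1131) (nat_lit 83) .nil))))))) (.g (nat_lit 4) .nil .nil)))) (.nd (nat_lit 6) 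
(.lf (nat_lit 132794) (.g (nat_lit 3453) (.e (nat_lit 16416) (nat_lit 3) (.e (nat_lit 204869) (nat_lit 29) (.e (nat_lit 360472) (nat_lit 8) (.e (nat_lit 557090) (nat_lit 12) (.e (nat_lit 164022) (nat_lit 46) .nil))))) .nil)) 
(.lf (nat_lit 132858) (.g (nat_lit 3770) (.e (nat_lit 16416) (nat_lit 3) (.e (nat_lit 204869) (nat_lit 29) (.e (nat_lit 360475) (nat_lit 8) (.e (nat_lit 557068) (nat_lit 9) (.e (nat_lit 2743) (nat_lit 174) .nil))))) .nil)))))) (.nd (nat_lit 3) (.nd (nat_lit 4) (.nd (nat_lit 5) (.nd (nat_lit 6) 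
(.lf (nat_lit 132742) (.g (nat_lit 2783) (.e (nat_lit 16416) (nat_lit 3) (.e (nat_lit 204866) (nat_lit 28) (.e (nat_lit 352262) (nat_lit 0) (.e (nat_lit 3253) (nat_lit 197) (.e (nat_lit 532511) (nat_lit 2) (.e (nat_lit 106536) (nat_lit 11) .nil)))))) (.g (nat_lit 0) .nil .nil))) 
(.lf (nat_lit 132806) (.g (nat_lit 2829) (.e (nat_lit 16416) (nat_lit 3) (.e (nat_lit 204869) (nat_lit 29) (.e (nat_lit 360474) (nat_lit 8) (.e (nat_lit 557091) (nat_lit 12) (.e (nat_lit 163841) (nat_lit 0) (.e (nat_lit 6530) (nat_lit 351) (.e (nat_lit 1124) (nat_lit 83) .nil))))))) (.g (nat_lit 4) .nil .nil)))) (.nd (nat_lit 6) 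
(.lf (nat_lit 132774) (.g (nat_lit 4047) (.e (nat_lit 16416) (nat_lit 3) (.e (nat_lit 204868) (nat_lit 29) (.e (nat_lit 360475) (nat_lit 8) (.e (nat_lit 557091) (nat_lit 12) (.e (nat_lit 164022) (nat_lit 46) (.e (nat_lit 704735) (nat_lit 11) .nil)))))) (.g (nat_lit 4) .nil .nil))) 
(.lf (nat_lit 132838) (.g (nat_lit 4439) (.e (nat_lit 16416) (nat_lit 3) (.e (nat_lit 204869) (nat_lit 29) (.e (nat_lit 360474) (nat_lit 8) (.e (nat_lit 557091) (nat_lit 12) (.e (nat_lit 164022) (nat_lit 46) (.e (nat_lit 712448) (nat_lit 11) .nil)))))) (.g (nat_lit 5) .nil .nil))))) (.nd (nat_lit 5) (.nd (nat_lit 6) 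
(.lf (nat_lit 132758) (.g (nat_lit 3811) (.e (nat_lit 16416) (nat_lit 3) (.e (nat_lit 204868) (nat_lit 29) (.e (nat_lit 360473) (nat_lit 8) (.e (nat_lit 557093) (nat_lit 12) (.e (nat_lit 164023) (nat_lit 46) (.e (nat_lit 704732) (nat_lit 11) .nil)))))) (.g (nat_lit 0) .nil .nil))) 
(.lf (nat_lit 132822) (.g (nat_lit 3499) (.e (nat_lit 16416) (nat_lit 3) (.e (nat_lit 204869) (nat_lit 29) (.e (nat_lit 360474) (nat_lit 8) (.e (nat_lit 557091) (nat_lit 12) (.e (nat_lit 163842) (nat_lit 0) (.e (nat_lit 6537) (nat_lit 351) (.e (nat_lit 1122) (nat_lit 83) .nil))))))) (.g (nat_lit 4) .nil .nil)))) (.nd (nat_lit 6) 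
(.lf (nat_lit 132790) (.g (nat_lit 825) (.e (nat_lit 16416) (nat_lit 3) (.e (nat_lit 204869) (nat_lit 29) (.e (nat_lit 360456) (nat_lit 0) .nil))) .nil)) 
(.lf (nat_lit 132854) (.g (nat_lit 4121) (.e (nat_lit 16416) (nat_lit 3) (.e (nat_lit 204869) (nat_lit 29) (.e (nat_lit 360475) (nat_lit 8) (.e (nat_lit 557064) (nat_lit 9) .nil)))) .nil))))) (.nd (nat_lit 4) (.nd (nat_lit 5) (.nd (nat_lit 6) 
(.lf (nat_lit 132750) (.g (nat_lit 2456) (.e (nat_lit 16416) (nat_lit 3) (.e (nat_lit 204868) (nat_lit 29) (.e (nat_lit 368384) (nat_lit 5) (.e (nat_lit 532499) (nat_lit 1) (.e (nat_lit 57906) (nat_lit 278) (.e (nat_lit 7936) (nat_lit 83) .nil)))))) (.g (nat_lit 4) .nil .nil))) 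
(.lf (nat_lit 132814) (.g (nat_lit 2979) (.e (nat_lit 16416) (nat_lit 3) (.e (nat_lit 204869) (nat_lit 29) (.e (nat_lit 360474) (nat_lit 8) (.e (nat_lit 557091) (nat_lit 12) (.e (nat_lit 163842) (nat_lit 0) (.e (nat_lit 6534) (nat_lit 351) (.e (nat_lit 1122) (nat_lit 83) .nil))))))) (.g (nat_lit 4) .nil .nil)))) (.nd (nat_lit 6) 
(.lf (nat_lit 132782) (.g (nat_lit 2784) (.e (nat_lit 16416) (nat_lit 3) (.e (nat_lit 204869) (nat_lit 29) (.e (nat_lit 360450) (nat_lit 0) (.e (nat_lit 4011) (nat_lit 243) .nil)))) .nil)) 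
(.lf (nat_lit 132846) (.g (nat_lit 4378) (.e (nat_lit 16416) (nat_lit 3) (.e (nat_lit 204869) (nat_lit 29) (.e (nat_lit 360474) (nat_lit 8) (.e (nat_lit 557093) (nat_lit 12) (.e (nat_lit 164023) (nat_lit 46) (.e (nat_lit 704735) (nat_lit 11) .nil)))))) (.g (nat_lit 5) .nil .nil))))) (.nd (nat_lit 5) (.nd (nat_lit 6) 
(.lf (nat_lit 132766) (.g (nat_lit 2761) (.e (nat_lit 16416) (nat_lit 3) (.e (nat_lit 204868) (nat_lit 29) (.e (nat_lit 360474) (nat_lit 8) (.e (nat_lit 557093) (nat_lit 12) (.e (nat_lit 164022) (nat_lit 46) (.e (nat_lit 704738) (nat_lit 11) .nil)))))) (.g (nat_lit 4) .nil .nil))) 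
(.lf (nat_lit 132830) (.g (nat_lit 3339) (.e (nat_lit 16416) (nat_lit 3) (.e (nat_lit 204869) (nat_lit 29) (.e (nat_lit 360474) (nat_lit 8) (.e (nat_lit 557091) (nat_lit 12) (.e (nat_lit 163842) (nat_lit 0) (.e (nat_lit 6576) (nat_lit 351) (.e (nat_lit 1122) (nat_lit 83) .nil))))))) (.g (nat_lit 4) .nil .nil)))) (.nd (nat_lit 6) 
(.lf (nat_lit 132798) (.g (nat_lit 3116) (.e (nat_lit 16416) (nat_lit 3) (.e (nat_lit 204869) (nat_lit 29) (.e (nat_lit 360473) (nat_lit 8) (.e (nat_lit 557093) (nat_lit 12) (.e (nat_lit 164022) (nat_lit 46) (.e (nat_lit 704738) (nat_lit 11) .nil)))))) (.g (nat_lit 4) .nil .nil))) 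
(.lf (nat_lit 132862) (.g (nat_lit 4358) (.e (nat_lit 16416) (nat_lit 3) (.e (nat_lit 204869) (nat_lit 29) (.e (nat_lit 360475) (nat_lit 8) (.e (nat_lit 557075) (nat_lit 9) .nil)))) .nil)))))))) (.nd (nat_lit 1) (.nd (nat_lit 2) (.nd (nat_lit 3) (.nd (nat_lit 4) (.nd (nat_lit 5) (.nd (nat_lit 6) 
(.lf (nat_lit 132737) (.g (nat_lit 2358) (.e (nat_lit 16416) (nat_lit 3) (.e (nat_lit 204863) (nat_lit 27) (.e (nat_lit 344169) (nat_lit 40) (.e (nat_lit 671751) (nat_lit 0) .nil)))) .nil)) 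
(.lf (nat_lit 132801) (.g (nat_lit 3121) (.e (nat_lit 16416) (nat_lit 3) (.e (nat_lit 204869) (nat_lit 29) (.e (nat_lit 360474) (nat_lit 8) (.e (nat_lit 557073) (nat_lit 9) (.e (nat_lit 2739) (nat_lit 174) .nil))))) .nil))) (.nd (nat_lit 6) 
(.lf (nat_lit 132769) (.g (nat_lit 2506) (.e (nat_lit 16416) (nat_lit 3) (.e (nat_lit 204868) (nat_lit 29) (.e (nat_lit 360475) (nat_lit 8) (.e (nat_lit 557073) (nat_lit 9) .nil)))) .nil)) 
(.lf (nat_lit 132833) (.g (nat_lit 3413) (.e (nat_lit 16416) (nat_lit 3) (.e (nat_lit 204869) (nat_lit 29) (.e (nat_lit 360474) (nat_lit 8) (.e (nat_lit 557091) (nat_lit 12) (.e (nat_lit 163845) (nat_lit 0) (.e (nat_lit 6562) (nat_lit 351) (.e (nat_lit 1122) (nat_lit 83) .nil))))))) (.g (nat_lit 4) .nil .nil))))) (.nd (nat_lit 5) (.nd (nat_lit 6) 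
(.lf (nat_lit 132753) (.g (nat_lit 3881) (.e (nat_lit 16416) (nat_lit 3) (.e (nat_lit 204868) (nat_lit 29) (.e (nat_lit 360473) (nat_lit 8) (.e (nat_lit 557091) (nat_lit 12) (.e (nat_lit 164022) (nat_lit 46) (.e (nat_lit 712448) (nat_lit 11) .nil)))))) (.g (nat_lit 5) .nil .nil))) 
(.lf (nat_lit 132817) (.g (nat_lit 4048) (.e (nat_lit 16416) (nat_lit 3) (.e (nat_lit 204869) (nat_lit 29) (.e (nat_lit 360474) (nat_lit 8) (.e (nat_lit 557091) (nat_lit 12) (.e (nat_lit 163842) (nat_lit 0) (.e (nat_lit 6534) (nat_lit 351) (.e (nat_lit 1130) (nat_lit 83) .nil))))))) (.g (nat_lit 4) .nil .nil)))) (.nd (nat_lit 6) 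
(.lf (nat_lit 132785) (.g (nat_lit 2575) (.e (nat_lit 16416) (nat_lit 3) (.e (nat_lit 204869) (nat_lit 29) (.e (nat_lit 360451) (nat_lit 0) (.e (nat_lit 4011) (nat_lit 243) .nil)))) .nil)) 
(.lf (nat_lit 132849) (.g (nat_lit 4219) (.e (nat_lit 16416) (nat_lit 3) (.e (nat_lit 204869) (nat_lit 29) (.e (nat_lit 360474) (nat_lit 8) (.e (nat_lit 557093) (nat_lit 12) (.e (nat_lit 164023) (nat_lit 46) (.e (nat_lit 712448) (nat_lit 11) .nil)))))) (.g (nat_lit 4) .nil .nil)))))) (.nd (nat_lit 4) (.nd (nat_lit 5) (.nd (nat_lit 6) 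
(.lf (nat_lit 132745) (.g (nat_lit 3794) (.e (nat_lit 16416) (nat_lit 3) (.e (nat_lit 204868) (nat_lit 29) (.e (nat_lit 360466) (nat_lit 3) (.e (nat_lit 516117) (nat_lit 1) (.e (nat_lit 171776) (nat_lit 278) (.e (nat_lit 1128) (nat_lit 83) .nil)))))) (.g (nat_lit 4) .nil .nil))) 
(.lf (nat_lit 132809) (.g (nat_lit 3620) (.e (nat_lit 16416) (nat_lit 3) (.e (nat_lit 204869) (nat_lit 29) (.e (nat_lit 360474) (nat_lit 8) (.e (nat_lit 557091) (nat_lit 12) (.e (nat_lit 163841) (nat_lit 0) (.e (nat_lit 6560) (nat_lit 351) (.e (nat_lit 1122) (nat_lit 83) .nil))))))) (.g (nat_lit 4) .nil .nil)))) (.nd (nat_lit 6) 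
(.lf (nat_lit 132777) (.g (nat_lit 4940) (.e (nat_lit 16416) (nat_lit 3) (.e (nat_lit 204868) (nat_lit 29) (.e (nat_lit 360475) (nat_lit 8) (.e (nat_lit 557091) (nat_lit 12) (.e (nat_lit 164022) (nat_lit 46) (.e (nat_lit 704738) (nat_lit 11) .nil)))))) (.g (nat_lit 6) .nil .nil))) 
(.lf (nat_lit 132841) (.g (nat_lit 2955) (.e (nat_lit 16416) (nat_lit 3) (.e (nat_lit 204869) (nat_lit 29) (.e (nat_lit 360474) (nat_lit 8) (.e (nat_lit 557093) (nat_lit 12) (.e (nat_lit 164021) (nat_lit 46) (.e (nat_lit 704741) (nat_lit 11) .nil)))))) (.g (nat_lit 4) .nil .nil))))) (.nd (nat_lit 5) (.nd (nat_lit 6) 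
(.lf (nat_lit 132761) (.g (nat_lit 3552) (.e (nat_lit 16416) (nat_lit 3) (.e (nat_lit 204868) (nat_lit 29) (.e (nat_lit 360473) (nat_lit 8) (.e (nat_lit 557093) (nat_lit 12) (.e (nat_lit 164023) (nat_lit 46) (.e (nat_lit 712448) (nat_lit 11) .nil)))))) (.g (nat_lit 5) .nil .nil))) 
(.lf (nat_lit 132825) (.g (nat_lit 3963) (.e (nat_lit 16416) (nat_lit 3) (.e (nat_lit 204869) (nat_lit 29) (.e (nat_lit 360474) (nat_lit 8) (.e (nat_lit 557091) (nat_lit 12) (.e (nat_lit 163842) (nat_lit 0) (.e (nat_lit 6538) (nat_lit 351) (.e (nat_lit 1128) (nat_lit 83) .nil))))))) (.g (nat_lit 4) .nil .nil)))) (.nd (nat_lit 6) 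
(.lf (nat_lit 132793) (.g (nat_lit 744) (.e (nat_lit 16416) (nat_lit 3) (.e (nat_lit 204869) (nat_lit 29) (.e (nat_lit 360472) (nat_lit 8) .nil))) .nil)) 
(.lf (nat_lit 132857) (.g (nat_lit 3079) (.e (nat_lit 16416) (nat_lit 3) (.e (nat_lit 204869) (nat_lit 29) (.e (nat_lit 360475) (nat_lit 8) (.e (nat_lit 557068) (nat_lit 9) .nil)))) .nil)))))) (.nd (nat_lit 3) (.nd (nat_lit 4) (.nd (nat_lit 5) (.nd (nat_lit 6) 
(.lf (nat_lit 132741) (.g (nat_lit 2695) (.e (nat_lit 16416) (nat_lit 3) (.e (nat_lit 204866) (nat_lit 28) (.e (nat_lit 352262) (nat_lit 0) (.e (nat_lit 3253) (nat_lit 197) (.e (nat_lit 532510) (nat_lit 2) (.e (nat_lit 106536) (nat_lit 11) .nil)))))) (.g (nat_lit 0) .nil .nil))) 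
(.lf (nat_lit 132805) (.g (nat_lit 2557) (.e (nat_lit 16416) (nat_lit 3) (.e (nat_lit 204869) (nat_lit 29) (.e (nat_lit 360474) (nat_lit 8) (.e (nat_lit 557091) (nat_lit 12) (.e (nat_lit 163841) (nat_lit 0) (.e (nat_lit 6528) (nat_lit 351) (.e (nat_lit 1124) (nat_lit 83) .nil))))))) (.g (nat_lit 4) .nil .nil)))) (.nd (nat_lit 6) 
(.lf (nat_lit 132773) (.g (nat_lit 4156) (.e (nat_lit 16416) (nat_lit 3) (.e (nat_lit 204868) (nat_lit 29) (.e (nat_lit 360475) (nat_lit 8) (.e (nat_lit 557091) (nat_lit 12) (.e (nat_lit 164021) (nat_lit 46) (.e (nat_lit 704741) (nat_lit 11) .nil)))))) (.g (nat_lit 4) .nil .nil))) 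
(.lf (nat_lit 132837) (.g (nat_lit 4602) (.e (nat_lit 16416) (nat_lit 3) (.e (nat_lit 204869) (nat_lit 29) (.e (nat_lit 360474) (nat_lit 8) (.e (nat_lit 557091) (nat_lit 12) (.e (nat_lit 164022) (nat_lit 46) (.e (nat_lit 704736) (nat_lit 11) .nil)))))) (.g (nat_lit 0) .nil .nil))))) (.nd (nat_lit 5) (.nd (nat_lit 6) 
(.lf (nat_lit 132757) (.g (nat_lit 3464) (.e (nat_lit 16416) (nat_lit 3) (.e (nat_lit 204868) (nat_lit 29) (.e (nat_lit 360473) (nat_lit 8) (.e (nat_lit 557093) (nat_lit 12) (.e (nat_lit 164022) (nat_lit 46) (.e (nat_lit 712448) (nat_lit 11) .nil)))))) (.g (nat_lit 5) .nil .nil))) 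
(.lf (nat_lit 132821) (.g (nat_lit 3955) (.e (nat_lit 16416) (nat_lit 3) (.e (nat_lit 204869) (nat_lit 29) (.e (nat_lit 360474) (nat_lit 8) (.e (nat_lit 557091) (nat_lit 12) (.e (nat_lit 163842) (nat_lit 0) (.e (nat_lit 6536) (nat_lit 351) (.e (nat_lit 1128) (nat_lit 83) .nil))))))) (.g (nat_lit 4) .nil .nil)))) (.nd (nat_lit 6) 
(.lf (nat_lit 132789) (.g (nat_lit 2453) (.e (nat_lit 16416) (nat_lit 3) (.e (nat_lit 204869) (nat_lit 29) (.e (nat_lit 360451) (nat_lit 0) (.e (nat_lit 7936) (nat_lit 254) .nil)))) .nil)) 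
(.lf (nat_lit 132853) (.g (nat_lit 4131) (.e (nat_lit 16416) (nat_lit 3) (.e (nat_lit 204869) (nat_lit 29) (.e (nat_lit 360474) (nat_lit 8) (.e (nat_lit 557094) (nat_lit 12) (.e (nat_lit 164022) (nat_lit 46) (.e (nat_lit 712448) (nat_lit 11) .nil)))))) (.g (nat_lit 5) .nil .nil)))))) (.nd (nat_lit 4) (.nd (nat_lit 5) (.nd (nat_lit 6) 
(.lf (nat_lit 132749) (.g (nat_lit 3780) (.e (nat_lit 16416) (nat_lit 3) (.e (nat_lit 204868) (nat_lit 29) (.e (nat_lit 360466) (nat_lit 3) (.e (nat_lit 516120) (nat_lit 1) (.e (nat_lit 171776) (nat_lit 278) (.e (nat_lit 1128) (nat_lit 83) .nil)))))) (.g (nat_lit 4) .nil .nil))) 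
(.lf (nat_lit 132813) (.g (nat_lit 3588) (.e (nat_lit 16416) (nat_lit 3) (.e (nat_lit 204869) (nat_lit 29) (.e (nat_lit 360474) (nat_lit 8) (.e (nat_lit 557091) (nat_lit 12) (.e (nat_lit 163841) (nat_lit 0) (.e (nat_lit 6597) (nat_lit 351) (.e (nat_lit 1122) (nat_lit 83) .nil))))))) (.g (nat_lit 4) .nil .nil)))) (.nd (nat_lit 6) 
(.lf (nat_lit 132781) (.g (nat_lit 2784) (.e (nat_lit 16416) (nat_lit 3) (.e (nat_lit 204869) (nat_lit 29) (.e (nat_lit 360450) (nat_lit 0) (.e (nat_lit 4009) (nat_lit 243) .nil)))) .nil)) 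
(.lf (nat_lit 132845) (.g (nat_lit 4760) (.e (nat_lit 16416) (nat_lit 3) (.e (nat_lit 204869) (nat_lit 29) (.e (nat_lit 360474) (nat_lit 8) (.e (nat_lit 557093) (nat_lit 12) (.e (nat_lit 164023) (nat_lit 46) (.e (nat_lit 704732) (nat_lit 11) .nil)))))) (.g (nat_lit 0) .nil .nil))))) (.nd (nat_lit 5) (.nd (nat_lit 6) 
(.lf (nat_lit 132765) (.g (nat_lit 3275) (.e (nat_lit 16416) (nat_lit 3) (.e (nat_lit 204868) (nat_lit 29) (.e (nat_lit 360473) (nat_lit 8) (.e (nat_lit 557094) (nat_lit 12) (.e (nat_lit 164022) (nat_lit 46) (.e (nat_lit 712448) (nat_lit 11) .nil)))))) (.g (nat_lit 5) .nil .nil))) 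
(.lf (nat_lit 132829) (.g (nat_lit 3971) (.e (nat_lit 16416) (nat_lit 3) (.e (nat_lit 204869) (nat_lit 29) (.e (nat_lit 360474) (nat_lit 8) (.e (nat_lit 557091) (nat_lit 12) (.e (nat_lit 163842) (nat_lit 0) (.e (nat_lit 6573) (nat_lit 351) (.e (nat_lit 1125) (nat_lit 83) .nil))))))) (.g (nat_lit 4) .nil .nil)))) (.nd (nat_lit 6) 
(.lf (nat_lit 132797) (.g (nat_lit 3544) (.e (nat_lit 16416) (nat_lit 3) (.e (nat_lit 204869) (nat_lit 29) (.e (nat_lit 360473) (nat_lit 8) (.e (nat_lit 557091) (nat_lit 12) (.e (nat_lit 164022) (nat_lit 46) (.e (nat_lit 704738) (nat_lit 11) .nil)))))) (.g (nat_lit 4) .nil .nil))) 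
(.lf (nat_lit 132861) (.g (nat_lit 3610) (.e (nat_lit 16416) (nat_lit 3) (.e (nat_lit 204869) (nat_lit 29) (.e (nat_lit 360475) (nat_lit 8) (.e (nat_lit 557073) (nat_lit 9) .nil)))) .nil))))))) (.nd (nat_lit 2) (.nd (nat_lit 3) (.nd (nat_lit 4) (.nd (nat_lit 5) (.nd (nat_lit 6) 
(.lf (nat_lit 132739) (.g (nat_lit 2385) (.e (nat_lit 16416) (nat_lit 3) (.e (nat_lit 204865) (nat_lit 28) (.e (nat_lit 352262) (nat_lit 0) (.e (nat_lit 3253) (nat_lit 197) (.e (nat_lit 532511) (nat_lit 2) (.e (nat_lit 106534) (nat_lit 11) .nil)))))) (.g (nat_lit 0) .nil .nil))) 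
(.lf (nat_lit 132803) (.g (nat_lit 1865) (.e (nat_lit 16416) (nat_lit 3) (.e (nat_lit 204869) (nat_lit 29) (.e (nat_lit 360474) (nat_lit 8) (.e (nat_lit 557089) (nat_lit 12) .nil)))) .nil))) (.nd (nat_lit 6) 
(.lf (nat_lit 132771) (.g (nat_lit 3450) (.e (nat_lit 16416) (nat_lit 3) (.e (nat_lit 204868) (nat_lit 29) (.e (nat_lit 360475) (nat_lit 8) (.e (nat_lit 557089) (nat_lit 12) (.e (nat_lit 171776) (nat_lit 46) .nil))))) .nil)) 
(.lf (nat_lit 132835) (.g (nat_lit 3818) (.e (nat_lit 16416) (nat_lit 3) (.e (nat_lit 204869) (nat_lit 29) (.e (nat_lit 360474) (nat_lit 8) (.e (nat_lit 557091) (nat_lit 12) (.e (nat_lit 164022) (nat_lit 46) (.e (nat_lit 704732) (nat_lit 11) .nil)))))) (.g (nat_lit 5) .nil .nil))))) (.nd (nat_lit 5) (.nd (nat_lit 6) 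
(.lf (nat_lit 132755) (.g (nat_lit 2678) (.e (nat_lit 16416) (nat_lit 3) (.e (nat_lit 204868) (nat_lit 29) (.e (nat_lit 360473) (nat_lit 8) (.e (nat_lit 557093) (nat_lit 12) (.e (nat_lit 164022) (nat_lit 46) (.e (nat_lit 704732) (nat_lit 11) .nil)))))) (.g (nat_lit 5) .nil .nil))) 
(.lf (nat_lit 132819) (.g (nat_lit 3088) (.e (nat_lit 16416) (nat_lit 3) (.e (nat_lit 204869) (nat_lit 29) (.e (nat_lit 360474) (nat_lit 8) (.e (nat_lit 557091) (nat_lit 12) (.e (nat_lit 163842) (nat_lit 0) (.e (nat_lit 6536) (nat_lit 351) (.e (nat_lit 1122) (nat_lit 83) .nil))))))) (.g (nat_lit 4) .nil .nil)))) (.nd (nat_lit 6) 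
(.lf (nat_lit 132787) (.g (nat_lit 2563) (.e (nat_lit 16416) (nat_lit 3) (.e (nat_lit 204869) (nat_lit 29) (.e (nat_lit 360451) (nat_lit 0) (.e (nat_lit 4134) (nat_lit 246) .nil)))) .nil)) 
(.lf (nat_lit 132851) (.g (nat_lit 3559) (.e (nat_lit 16416) (nat_lit 3) (.e (nat_lit 204869) (nat_lit 29) (.e (nat_lit 360474) (nat_lit 8) (.e (nat_lit 557094) (nat_lit 12) (.e (nat_lit 164022) (nat_lit 46) (.e (nat_lit 704732) (nat_lit 11) .nil)))))) (.g (nat_lit 5) .nil .nil)))))) (.nd (nat_lit 4) (.nd (nat_lit 5) (.nd (nat_lit 6) 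
(.lf (nat_lit 132747) (.g (nat_lit 2909) (.e (nat_lit 16416) (nat_lit 3) (.e (nat_lit 204868) (nat_lit 29) (.e (nat_lit 360466) (nat_lit 3) (.e (nat_lit 516119) (nat_lit 1) (.e (nat_lit 164429) (nat_lit 278) (.e (nat_lit 1122) (nat_lit 83) .nil)))))) (.g (nat_lit 4) .nil .nil))) 
(.lf (nat_lit 132811) (.g (nat_lit 3708) (.e (nat_lit 16416) (nat_lit 3) (.e (nat_lit 204869) (nat_lit 29) (.e (nat_lit 360474) (nat_lit 8) (.e (nat_lit 557091) (nat_lit 12) (.e (nat_lit 163841) (nat_lit 0) (.e (nat_lit 6562) (nat_lit 351) (.e (nat_lit 1122) (nat_lit 83) .nil))))))) (.g (nat_lit 4) .nil .nil)))) (.nd (nat_lit 6) 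
(.lf (nat_lit 132779) (.g (nat_lit 967) (.e (nat_lit 16416) (nat_lit 3) (.e (nat_lit 204869) (nat_lit 29) (.e (nat_lit 360448) (nat_lit 0) .nil))) .nil)) 
(.lf (nat_lit 132843) (.g (nat_lit 3656) (.e (nat_lit 16416) (nat_lit 3) (.e (nat_lit 204869) (nat_lit 29) (.e (nat_lit 360474) (nat_lit 8) (.e (nat_lit 557093) (nat_lit 12) (.e (nat_lit 164022) (nat_lit 46) (.e (nat_lit 704735) (nat_lit 11) .nil)))))) (.g (nat_lit 5) .nil .nil))))) (.nd (nat_lit 5) (.nd (nat_lit 6) 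
(.lf (nat_lit 132763) (.g (nat_lit 2513) (.e (nat_lit 16416) (nat_lit 3) (.e (nat_lit 204868) (nat_lit 29) (.e (nat_lit 360473) (nat_lit 8) (.e (nat_lit 557094) (nat_lit 12) (.e (nat_lit 164022) (nat_lit 46) (.e (nat_lit 704732) (nat_lit 11) .nil)))))) (.g (nat_lit 5) .nil .nil))) 
(.lf (nat_lit 132827) (.g (nat_lit 2979) (.e (nat_lit 16416) (nat_lit 3) (.e (nat_lit 204869) (nat_lit 29) (.e (nat_lit 360474) (nat_lit 8) (.e (nat_lit 557091) (nat_lit 12) (.e (nat_lit 163842) (nat_lit 0) (.e (nat_lit 6572) (nat_lit 351) (.e (nat_lit 1122) (nat_lit 83) .nil))))))) (.g (nat_lit 4) .nil .nil)))) (.nd (nat_lit 6) 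
(.lf (nat_lit 132795) (.g (nat_lit 612) (.e (nat_lit 16416) (nat_lit 3) (.e (nat_lit 204869) (nat_lit 29) (.e (nat_lit 360473) (nat_lit 8) .nil))) .nil)) 
(.lf (nat_lit 132859) (.g (nat_lit 3974) (.e (nat_lit 16416) (nat_lit 3) (.e (nat_lit 204869) (nat_lit 29) (.e (nat_lit 360475) (nat_lit 8) (.e (nat_lit 557069) (nat_lit 9) .nil)))) .nil)))))) (.nd (nat_lit 3) (.nd (nat_lit 4) (.nd (nat_lit 5) (.nd (nat_lit 6) 
(.lf (nat_lit 132743) (.g (nat_lit 670) (.e (nat_lit 16416) (nat_lit 3) (.e (nat_lit 204866) (nat_lit 28) (.e (nat_lit 352318) (nat_lit 24) .nil))) .nil)) 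
(.lf (nat_lit 132807) (.g (nat_lit 2887) (.e (nat_lit 16416) (nat_lit 3) (.e (nat_lit 204869) (nat_lit 29) (.e (nat_lit 360474) (nat_lit 8) (.e (nat_lit 557091) (nat_lit 12) (.e (nat_lit 163841) (nat_lit 0) (.e (nat_lit 6534) (nat_lit 351) (.e (nat_lit 1124) (nat_lit 83) .nil))))))) (.g (nat_lit 4) .nil .nil)))) (.nd (nat_lit 6) 
(.lf (nat_lit 132775) (.g (nat_lit 4721) (.e (nat_lit 16416) (nat_lit 3) (.e (nat_lit 204868) (nat_lit 29) (.e (nat_lit 360475) (nat_lit 8) (.e (nat_lit 557091) (nat_lit 12) (.e (nat_lit 164022) (nat_lit 46) (.e (nat_lit 704736) (nat_lit 11) .nil)))))) (.g (nat_lit 4) .nil .nil))) 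
(.lf (nat_lit 132839) (.g (nat_lit 2503) (.e (nat_lit 16416) (nat_lit 3) (.e (nat_lit 204869) (nat_lit 29) (.e (nat_lit 360474) (nat_lit 8) (.e (nat_lit 557091) (nat_lit 12) (.e (nat_lit 171776) (nat_lit 46) .nil))))) .nil)))) (.nd (nat_lit 5) (.nd (nat_lit 6) 
(.lf (nat_lit 132759) (.g (nat_lit 3883) (.e (nat_lit 16416) (nat_lit 3) (.e (nat_lit 204868) (nat_lit 29) (.e (nat_lit 360473) (nat_lit 8) (.e (nat_lit 557093) (nat_lit 12) (.e (nat_lit 164023) (nat_lit 46) (.e (nat_lit 704735) (nat_lit 11) .nil)))))) (.g (nat_lit 6) .nil .nil))) 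
(.lf (nat_lit 132823) (.g (nat_lit 3165) (.e (nat_lit 16416) (nat_lit 3) (.e (nat_lit 204869) (nat_lit 29) (.e (nat_lit 360474) (nat_lit 8) (.e (nat_lit 557091) (nat_lit 12) (.e (nat_lit 163842) (nat_lit 0) (.e (nat_lit 6538) (nat_lit 351) (.e (nat_lit 1122) (nat_lit 83) .nil))))))) (.g (nat_lit 4) .nil .nil)))) (.nd (nat_lit 6) 
(.lf (nat_lit 132791) (.g (nat_lit 1085) (.e (nat_lit 16416) (nat_lit 3) (.e (nat_lit 204869) (nat_lit 29) (.e (nat_lit 360457) (nat_lit 0) .nil))) .nil)) 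
(.lf (nat_lit 132855) (.g (nat_lit 3263) (.e (nat_lit 16416) (nat_lit 3) (.e (nat_lit 204869) (nat_lit 29) (.e (nat_lit 360475) (nat_lit 8) (.e (nat_lit 557065) (nat_lit 9) .nil)))) .nil))))) (.nd (nat_lit 4) (.nd (nat_lit 5) (.nd (nat_lit 6) 
(.lf (nat_lit 132751) (.g (nat_lit 3070) (.e (nat_lit 16416) (nat_lit 3) (.e (nat_lit 204868) (nat_lit 29) (.e (nat_lit 360473) (nat_lit 8) (.e (nat_lit 557091) (nat_lit 12) (.e (nat_lit 164022) (nat_lit 46) (.e (nat_lit 704732) (nat_lit 11) .nil)))))) (.g (nat_lit 5) .nil .nil))) 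
(.lf (nat_lit 132815) (.g (nat_lit 3906) (.e (nat_lit 16416) (nat_lit 3) (.e (nat_lit 204869) (nat_lit 29) (.e (nat_lit 360474) (nat_lit 8) (.e (nat_lit 557091) (nat_lit 12) (.e (nat_lit 163842) (nat_lit 0) (.e (nat_lit 6534) (nat_lit 351) (.e (nat_lit 1127) (nat_lit 83) .nil))))))) (.g (nat_lit 4) .nil .nil)))) (.nd (nat_lit 6) 
(.lf (nat_lit 132783) (.g (nat_lit 2784) (.e (nat_lit 16416) (nat_lit 3) (.e (nat_lit 204869) (nat_lit 29) (.e (nat_lit 360450) (nat_lit 0) (.e (nat_lit 4017) (nat_lit 244) .nil)))) .nil)) 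
(.lf (nat_lit 132847) (.g (nat_lit 3613) (.e (nat_lit 16416) (nat_lit 3) (.e (nat_lit 204869) (nat_lit 29) (.e (nat_lit 360474) (nat_lit 8) (.e (nat_lit 557093) (nat_lit 12) (.e (nat_lit 164023) (nat_lit 46) (.e (nat_lit 704736) (nat_lit 11) .nil)))))) (.g (nat_lit 4) .nil .nil))))) (.nd (nat_lit 5) (.nd (nat_lit 6) 
(.lf (nat_lit 132767) (.g (nat_lit 3305) (.e (nat_lit 16416) (nat_lit 3) (.e (nat_lit 204868) (nat_lit 29) (.e (nat_lit 360474) (nat_lit 8) (.e (nat_lit 557093) (nat_lit 12) (.e (nat_lit 164023) (nat_lit 46) (.e (nat_lit 704737) (nat_lit 11) .nil)))))) (.g (nat_lit 4) .nil .nil))) 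
(.lf (nat_lit 132831) (.g (nat_lit 3228) (.e (nat_lit 16416) (nat_lit 3) (.e (nat_lit 204869) (nat_lit 29) (.e (nat_lit 360474) (nat_lit 8) (.e (nat_lit 557091) (nat_lit 12) (.e (nat_lit 163845) (nat_lit 0) (.e (nat_lit 6560) (nat_lit 351) (.e (nat_lit 1122) (nat_lit 83) .nil))))))) (.g (nat_lit 4) .nil .nil)))) (.nd (nat_lit 6) 
(.lf (nat_lit 132799) (.g (nat_lit 3668) (.e (nat_lit 16416) (nat_lit 3) (.e (nat_lit 204869) (nat_lit 29) (.e (nat_lit 360474) (nat_lit 8) (.e (nat_lit 557064) (nat_lit 9) .nil)))) .nil)) 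
(.lf (nat_lit 132863) (.g (nat_lit 2389) (.e (nat_lit 16416) (nat_lit 3) (.e (nat_lit 204869) (nat_lit 29) (.e (nat_lit 360475) (nat_lit 8) (.e (nat_lit 557089) (nat_lit 12) (.e (nat_lit 171776) (nat_lit 46) .nil))))) .nil)))))))))

noncomputable def tv1772 : DT := (.nd (nat_lit 0) (.nd (nat_lit 1) (.nd (nat_lit 2) (.nd (nat_lit 3) (.nd (nat_lit 4) (.nd (nat_lit 5) 
(.lf (nat_lit 132864) (.g (nat_lit 3537) (.e (nat_lit 16416) (nat_lit 3) (.e (nat_lit 204869) (nat_lit 29) (.e (nat_lit 360475) (nat_lit 8) (.e (nat_lit 557090) (nat_lit 12) .nil)))) .nil)) 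
(.lf (nat_lit 132896) (.g (nat_lit 2681) (.e (nat_lit 16416) (nat_lit 3) (.e (nat_lit 204884) (nat_lit 33) (.e (nat_lit 401454) (nat_lit 12) (.e (nat_lit 475177) (nat_lit 24) .nil)))) .nil))) (.nd (nat_lit 5) 
(.lf (nat_lit 132880) (.g (nat_lit 2095) (.e (nat_lit 16416) (nat_lit 3) (.e (nat_lit 204870) (nat_lit 29) (.e (nat_lit 360473) (nat_lit 8) (.e (nat_lit 557089) (nat_lit 12) (.e (nat_lit 171776) (nat_lit 46) (.e (nat_lit 704734) (nat_lit 11) .nil)))))) (.g (nat_lit 4) .nil .nil))) 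
(.lf (nat_lit 132912) (.g (nat_lit 1041) (.e (nat_lit 16417) (nat_lit 3) (.e (nat_lit 204854) (nat_lit 26) (.e (nat_lit 336207) (nat_lit 12) .nil))) .nil)))) (.nd (nat_lit 4) (.nd (nat_lit 5) 
(.lf (nat_lit 132872) (.g (nat_lit 4979) (.e (nat_lit 16416) (nat_lit 3) (.e (nat_lit 204869) (nat_lit 29) (.e (nat_lit 360475) (nat_lit 8) (.e (nat_lit 557091) (nat_lit 12) (.e (nat_lit 164022) (nat_lit 46) (.e (nat_lit 712448) (nat_lit 11) .nil)))))) (.g (nat_lit 5) .nil .nil))) 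
(.lf (nat_lit 132904) (.g (nat_lit 1076) (.e (nat_lit 16417) (nat_lit 3) (.e (nat_lit 204854) (nat_lit 26) (.e (nat_lit 336114) (nat_lit 9) .nil))) .nil))) (.nd (nat_lit 5) 
(.lf (nat_lit 132888) (.g (nat_lit 1780) (.e (nat_lit 16416) (nat_lit 3) (.e (nat_lit 204880) (nat_lit 32) (.e (nat_lit 385106) (nat_lit 50) (.e (nat_lit 786457) (nat_lit 18) .nil)))) .nil)) 
(.lf (nat_lit 132920) (.g (nat_lit 2838) (.e (nat_lit 16417) (nat_lit 3) (.e (nat_lit 204854) (nat_lit 26) (.e (nat_lit 336208) (nat_lit 12) (.e (nat_lit 385068) (nat_lit 26) (.e (nat_lit 532511) (nat_lit 2) (.e (nat_lit 106536) (nat_lit 11) .nil)))))) (.g (nat_lit 0) .nil .nil)))))) (.nd (nat_lit 3) (.nd (nat_lit 4) (.nd (nat_lit 5) 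
(.lf (nat_lit 132868) (.g (nat_lit 1810) (.e (nat_lit 16416) (nat_lit 3) (.e (nat_lit 204869) (nat_lit 29) (.e (nat_lit 360475) (nat_lit 8) (.e (nat_lit 557091) (nat_lit 12) .nil)))) .nil)) 
(.lf (nat_lit 132900) (.g (nat_lit 2079) (.e (nat_lit 16417) (nat_lit 3) (.e (nat_lit 204829) (nat_lit 18) (.e (nat_lit 57692) (nat_lit 156) (.e (nat_lit 171776) (nat_lit 63) .nil)))) .nil))) (.nd (nat_lit 5) 
(.lf (nat_lit 132884) (.g (nat_lit 4955) (.e (nat_lit 16416) (nat_lit 3) (.e (nat_lit 204880) (nat_lit 32) (.e (nat_lit 385094) (nat_lit 49) (.e (nat_lit 778317) (nat_lit 3) (.e (nat_lit 57464) (nat_lit 23) .nil))))) .nil)) 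
(.lf (nat_lit 132916) (.g (nat_lit 2934) (.e (nat_lit 16417) (nat_lit 3) (.e (nat_lit 204854) (nat_lit 26) (.e (nat_lit 336208) (nat_lit 12) (.e (nat_lit 385068) (nat_lit 26) (.e (nat_lit 532508) (nat_lit 2) (.e (nat_lit 106534) (nat_lit 11) .nil)))))) (.g (nat_lit 0) .nil .nil))))) (.nd (nat_lit 4) (.nd (nat_lit 5) 
(.lf (nat_lit 132876) (.g (nat_lit 4312) (.e (nat_lit 16416) (nat_lit 3) (.e (nat_lit 204869) (nat_lit 29) (.e (nat_lit 360475) (nat_lit 8) (.e (nat_lit 557094) (nat_lit 12) .nil)))) .nil)) 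
(.lf (nat_lit 132908) (.g (nat_lit 858) (.e (nat_lit 16417) (nat_lit 3) (.e (nat_lit 204854) (nat_lit 26) (.e (nat_lit 336115) (nat_lit 9) (.e (nat_lit 343808) (nat_lit 18) .nil)))) .nil))) (.nd (nat_lit 5) 
(.lf (nat_lit 132892) (.g (nat_lit 4325) (.e (nat_lit 16416) (nat_lit 3) (.e (nat_lit 204883) (nat_lit 33) (.e (nat_lit 401454) (nat_lit 12) (.e (nat_lit 475178) (nat_lit 24) (.e (nat_lit 516124) (nat_lit 2) (.e (nat_lit 220928) (nat_lit 2) .nil)))))) (.g (nat_lit 5) .nil .nil))) 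
(.lf (nat_lit 132924) (.g (nat_lit 1496) (.e (nat_lit 16417) (nat_lit 3) (.e (nat_lit 204859) (nat_lit 26) (.e (nat_lit 336116) (nat_lit 9) (.e (nat_lit 336323) (nat_lit 18) (.e (nat_lit 204834) (nat_lit 19) (.e (nat_lit 106534) (nat_lit 11) .nil)))))) (.g (nat_lit 0) .nil .nil))))))) (.nd (nat_lit 2) (.nd (nat_lit 3) (.nd (nat_lit 4) (.nd (nat_lit 5) 
(.lf (nat_lit 132866) (.g (nat_lit 5350) (.e (nat_lit 16416) (nat_lit 3) (.e (nat_lit 204869) (nat_lit 29) (.e (nat_lit 360475) (nat_lit 8) (.e (nat_lit 557090) (nat_lit 12) (.e (nat_lit 163844) (nat_lit 0) .nil))))) .nil)) 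
(.lf (nat_lit 132898) (.g (nat_lit 3651) (.e (nat_lit 16416) (nat_lit 3) (.e (nat_lit 204885) (nat_lit 33) (.e (nat_lit 401451) (nat_lit 12) (.e (nat_lit 475179) (nat_lit 24) .nil)))) .nil))) (.nd (nat_lit 5) 
(.lf (nat_lit 132882) (.g (nat_lit 3816) (.e (nat_lit 16416) (nat_lit 3) (.e (nat_lit 204870) (nat_lit 29) (.e (nat_lit 360473) (nat_lit 8) (.e (nat_lit 557091) (nat_lit 12) (.e (nat_lit 164022) (nat_lit 46) (.e (nat_lit 704738) (nat_lit 11) .nil)))))) (.g (nat_lit 6) .nil .nil))) 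
(.lf (nat_lit 132914) (.g (nat_lit 1298) (.e (nat_lit 16417) (nat_lit 3) (.e (nat_lit 204854) (nat_lit 26) (.e (nat_lit 336208) (nat_lit 12) (.e (nat_lit 385065) (nat_lit 26) .nil)))) .nil)))) (.nd (nat_lit 4) (.nd (nat_lit 5) 
(.lf (nat_lit 132874) (.g (nat_lit 4439) (.e (nat_lit 16416) (nat_lit 3) (.e (nat_lit 204869) (nat_lit 29) (.e (nat_lit 360475) (nat_lit 8) (.e (nat_lit 557092) (nat_lit 12) .nil)))) .nil)) 
(.lf (nat_lit 132906) (.g (nat_lit 1679) (.e (nat_lit 16417) (nat_lit 3) (.e (nat_lit 204854) (nat_lit 26) (.e (nat_lit 336115) (nat_lit 9) (.e (nat_lit 336326) (nat_lit 18) (.e (nat_lit 204834) (nat_lit 19) (.e (nat_lit 106534) (nat_lit 11) .nil)))))) (.g (nat_lit 4) .nil .nil)))) (.nd (nat_lit 5) 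
(.lf (nat_lit 132890) (.g (nat_lit 2481) (.e (nat_lit 16416) (nat_lit 3) (.e (nat_lit 204880) (nat_lit 32) (.e (nat_lit 385109) (nat_lit 51) (.e (nat_lit 794668) (nat_lit 22) .nil)))) .nil)) 
(.lf (nat_lit 132922) (.g (nat_lit 1548) (.e (nat_lit 16417) (nat_lit 3) (.e (nat_lit 204858) (nat_lit 26) (.e (nat_lit 336198) (nat_lit 12) (.e (nat_lit 385068) (nat_lit 26) (.e (nat_lit 532510) (nat_lit 2) (.e (nat_lit 106534) (nat_lit 11) .nil)))))) (.g (nat_lit 0) .nil .nil)))))) (.nd (nat_lit 3) (.nd (nat_lit 4) (.nd (nat_lit 5) 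
(.lf (nat_lit 132870) (.g (nat_lit 4297) (.e (nat_lit 16416) (nat_lit 3) (.e (nat_lit 204869) (nat_lit 29) (.e (nat_lit 360475) (nat_lit 8) (.e (nat_lit 557091) (nat_lit 12) (.e (nat_lit 164022) (nat_lit 46) (.e (nat_lit 704732) (nat_lit 11) .nil)))))) (.g (nat_lit 5) .nil .nil))) 
(.lf (nat_lit 132902) (.g (nat_lit 840) (.e (nat_lit 16417) (nat_lit 3) (.e (nat_lit 204830) (nat_lit 18) (.e (nat_lit 65280) (nat_lit 166) .nil))) .nil))) (.nd (nat_lit 5) 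
(.lf (nat_lit 132886) (.g (nat_lit 1891) (.e (nat_lit 16416) (nat_lit 3) (.e (nat_lit 204880) (nat_lit 32) (.e (nat_lit 385105) (nat_lit 50) (.e (nat_lit 786457) (nat_lit 18) .nil)))) .nil)) 
(.lf (nat_lit 132918) (.g (nat_lit 2832) (.e (nat_lit 16417) (nat_lit 3) (.e (nat_lit 204854) (nat_lit 26) (.e (nat_lit 336208) (nat_lit 12) (.e (nat_lit 385068) (nat_lit 26) (.e (nat_lit 532510) (nat_lit 2) (.e (nat_lit 106536) (nat_lit 11) .nil)))))) (.g (nat_lit 0) .nil .nil))))) (.nd (nat_lit 4) (.nd (nat_lit 5) 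
(.lf (nat_lit 132878) (.g (nat_lit 4079) (.e (nat_lit 16416) (nat_lit 3) (.e (nat_lit 204869) (nat_lit 29) (.e (nat_lit 360475) (nat_lit 8) (.e (nat_lit 557111) (nat_lit 16) .nil)))) .nil)) 
(.lf (nat_lit 132910) (.g (nat_lit 775) (.e (nat_lit 16417) (nat_lit 3) (.e (nat_lit 204854) (nat_lit 26) (.e (nat_lit 336182) (nat_lit 11) .nil))) .nil))) (.nd (nat_lit 5) 
(.lf (nat_lit 132894) (.g (nat_lit 4266) (.e (nat_lit 16416) (nat_lit 3) (.e (nat_lit 204883) (nat_lit 33) (.e (nat_lit 401454) (nat_lit 12) (.e (nat_lit 475179) (nat_lit 24) (.e (nat_lit 516124) (nat_lit 2) (.e (nat_lit 220928) (nat_lit 2) .nil)))))) (.g (nat_lit 5) .nil .nil))) 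
(.lf (nat_lit 132926) (.g (nat_lit 1538) (.e (nat_lit 16417) (nat_lit 3) (.e (nat_lit 204859) (nat_lit 26) (.e (nat_lit 336118) (nat_lit 9) (.e (nat_lit 336323) (nat_lit 18) (.e (nat_lit 204834) (nat_lit 19) (.e (nat_lit 106534) (nat_lit 11) .nil)))))) (.g (nat_lit 0) .nil .nil)))))))) (.nd (nat_lit 1) (.nd (nat_lit 2) (.nd (nat_lit 3) (.nd (nat_lit 4) (.nd (nat_lit 5) 
(.lf (nat_lit 132865) (.g (nat_lit 5083) (.e (nat_lit 16416) (nat_lit 3) (.e (nat_lit 204869) (nat_lit 29) (.e (nat_lit 360475) (nat_lit 8) (.e (nat_lit 557090) (nat_lit 12) (.e (nat_lit 163843) (nat_lit 0) .nil))))) .nil)) 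
(.lf (nat_lit 132897) (.g (nat_lit 3836) (.e (nat_lit 16416) (nat_lit 3) (.e (nat_lit 204885) (nat_lit 33) (.e (nat_lit 401451) (nat_lit 12) (.e (nat_lit 475178) (nat_lit 24) .nil)))) .nil))) (.nd (nat_lit 5) 
(.lf (nat_lit 132881) (.g (nat_lit 3211) (.e (nat_lit 16416) (nat_lit 3) (.e (nat_lit 204870) (nat_lit 29) (.e (nat_lit 360473) (nat_lit 8) (.e (nat_lit 557091) (nat_lit 12) (.e (nat_lit 164022) (nat_lit 46) (.e (nat_lit 704737) (nat_lit 11) .nil)))))) (.g (nat_lit 5) .nil .nil))) 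
(.lf (nat_lit 132913) (.g (nat_lit 1256) (.e (nat_lit 16417) (nat_lit 3) (.e (nat_lit 204854) (nat_lit 26) (.e (nat_lit 336207) (nat_lit 12) (.e (nat_lit 385066) (nat_lit 26) .nil)))) .nil)))) (.nd (nat_lit 4) (.nd (nat_lit 5) 
(.lf (nat_lit 132873) (.g (nat_lit 2513) (.e (nat_lit 16416) (nat_lit 3) (.e (nat_lit 204869) (nat_lit 29) (.e (nat_lit 360475) (nat_lit 8) (.e (nat_lit 557091) (nat_lit 12) (.e (nat_lit 171776) (nat_lit 46) .nil))))) .nil)) 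
(.lf (nat_lit 132905) (.g (nat_lit 1979) (.e (nat_lit 16417) (nat_lit 3) (.e (nat_lit 204854) (nat_lit 26) (.e (nat_lit 336114) (nat_lit 9) (.e (nat_lit 336326) (nat_lit 18) (.e (nat_lit 204835) (nat_lit 19) (.e (nat_lit 106536) (nat_lit 11) .nil)))))) (.g (nat_lit 4) .nil .nil)))) (.nd (nat_lit 5) 
(.lf (nat_lit 132889) (.g (nat_lit 881) (.e (nat_lit 16416) (nat_lit 3) (.e (nat_lit 204880) (nat_lit 32) (.e (nat_lit 385107) (nat_lit 51) .nil))) .nil)) 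
(.lf (nat_lit 132921) (.g (nat_lit 636) (.e (nat_lit 16417) (nat_lit 3) (.e (nat_lit 204855) (nat_lit 26) (.e (nat_lit 336193) (nat_lit 12) .nil))) .nil))))) (.nd (nat_lit 3) (.nd (nat_lit 4) (.nd (nat_lit 5) 
(.lf (nat_lit 132869) (.g (nat_lit 2618) (.e (nat_lit 16416) (nat_lit 3) (.e (nat_lit 204869) (nat_lit 29) (.e (nat_lit 360475) (nat_lit 8) (.e (nat_lit 557091) (nat_lit 12) (.e (nat_lit 163843) (nat_lit 0) .nil))))) .nil)) 
(.lf (nat_lit 132901) (.g (nat_lit 977) (.e (nat_lit 16417) (nat_lit 3) (.e (nat_lit 204829) (nat_lit 18) (.e (nat_lit 65280) (nat_lit 166) .nil))) .nil))) (.nd (nat_lit 5) 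
(.lf (nat_lit 132885) (.g (nat_lit 3316) (.e (nat_lit 16416) (nat_lit 3) (.e (nat_lit 204880) (nat_lit 32) (.e (nat_lit 385105) (nat_lit 50) (.e (nat_lit 786456) (nat_lit 18) (.e (nat_lit 98338) (nat_lit 19) (.e (nat_lit 220928) (nat_lit 2) .nil)))))) (.g (nat_lit 5) .nil .nil))) 
(.lf (nat_lit 132917) (.g (nat_lit 2773) (.e (nat_lit 16417) (nat_lit 3) (.e (nat_lit 204854) (nat_lit 26) (.e (nat_lit 336208) (nat_lit 12) (.e (nat_lit 385068) (nat_lit 26) (.e (nat_lit 532510) (nat_lit 2) (.e (nat_lit 106534) (nat_lit 11) .nil)))))) (.g (nat_lit 0) .nil .nil))))) (.nd (nat_lit 4) (.nd (nat_lit 5) 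
(.lf (nat_lit 132877) (.g (nat_lit 4369) (.e (nat_lit 16416) (nat_lit 3) (.e (nat_lit 204869) (nat_lit 29) (.e (nat_lit 360475) (nat_lit 8) (.e (nat_lit 557110) (nat_lit 16) .nil)))) .nil)) 
(.lf (nat_lit 132909) (.g (nat_lit 1119) (.e (nat_lit 16417) (nat_lit 3) (.e (nat_lit 204854) (nat_lit 26) (.e (nat_lit 336120) (nat_lit 9) .nil))) .nil))) (.nd (nat_lit 5) 
(.lf (nat_lit 132893) (.g (nat_lit 1672) (.e (nat_lit 16416) (nat_lit 3) (.e (nat_lit 204883) (nat_lit 33) (.e (nat_lit 401454) (nat_lit 12) (.e (nat_lit 475179) (nat_lit 24) .nil)))) .nil)) 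
(.lf (nat_lit 132925) (.g (nat_lit 1508) (.e (nat_lit 16417) (nat_lit 3) (.e (nat_lit 204859) (nat_lit 26) (.e (nat_lit 336116) (nat_lit 9) (.e (nat_lit 336323) (nat_lit 18) (.e (nat_lit 204835) (nat_lit 19) (.e (nat_lit 106534) (nat_lit 11) .nil)))))) (.g (nat_lit 0) .nil .nil))))))) (.nd (nat_lit 2) (.nd (nat_lit 3) (.nd (nat_lit 4) (.nd (nat_lit 5) 
(.lf (nat_lit 132867) (.g (nat_lit 5375) (.e (nat_lit 16416) (nat_lit 3) (.e (nat_lit 204869) (nat_lit 29) (.e (nat_lit 360475) (nat_lit 8) (.e (nat_lit 557090) (nat_lit 12) (.e (nat_lit 171776) (nat_lit 46) .nil))))) .nil)) 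
(.lf (nat_lit 132899) (.g (nat_lit 1225) (.e (nat_lit 16417) (nat_lit 3) (.e (nat_lit 204829) (nat_lit 18) (.e (nat_lit 57692) (nat_lit 156) .nil))) .nil))) (.nd (nat_lit 5) 
(.lf (nat_lit 132883) (.g (nat_lit 1637) (.e (nat_lit 16416) (nat_lit 3) (.e (nat_lit 204880) (nat_lit 32) (.e (nat_lit 385094) (nat_lit 49) .nil))) .nil)) 
(.lf (nat_lit 132915) (.g (nat_lit 2605) (.e (nat_lit 16417) (nat_lit 3) (.e (nat_lit 204854) (nat_lit 26) (.e (nat_lit 336208) (nat_lit 12) (.e (nat_lit 385067) (nat_lit 26) (.e (nat_lit 532511) (nat_lit 2) (.e (nat_lit 106534) (nat_lit 11) .nil)))))) (.g (nat_lit 0) .nil .nil))))) (.nd (nat_lit 4) (.nd (nat_lit 5) 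
(.lf (nat_lit 132875) (.g (nat_lit 4359) (.e (nat_lit 16416) (nat_lit 3) (.e (nat_lit 204869) (nat_lit 29) (.e (nat_lit 360475) (nat_lit 8) (.e (nat_lit 557093) (nat_lit 12) .nil)))) .nil)) 
(.lf (nat_lit 132907) (.g (nat_lit 2693) (.e (nat_lit 16417) (nat_lit 3) (.e (nat_lit 204854) (nat_lit 26) (.e (nat_lit 336115) (nat_lit 9) (.e (nat_lit 336326) (nat_lit 18) (.e (nat_lit 204835) (nat_lit 19) (.e (nat_lit 106536) (nat_lit 11) .nil)))))) (.g (nat_lit 0) .nil .nil)))) (.nd (nat_lit 5) 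
(.lf (nat_lit 132891) (.g (nat_lit 4205) (.e (nat_lit 16416) (nat_lit 3) (.e (nat_lit 204883) (nat_lit 33) (.e (nat_lit 401454) (nat_lit 12) (.e (nat_lit 475177) (nat_lit 24) (.e (nat_lit 516124) (nat_lit 2) (.e (nat_lit 220928) (nat_lit 2) .nil)))))) (.g (nat_lit 4) .nil .nil))) 
(.lf (nat_lit 132923) (.g (nat_lit 1513) (.e (nat_lit 16417) (nat_lit 3) (.e (nat_lit 204858) (nat_lit 26) (.e (nat_lit 336198) (nat_lit 12) (.e (nat_lit 385068) (nat_lit 26) (.e (nat_lit 532511) (nat_lit 2) (.e (nat_lit 106534) (nat_lit 11) .nil)))))) (.g (nat_lit 0) .nil .nil)))))) (.nd (nat_lit 3) (.nd (nat_lit 4) (.nd (nat_lit 5) 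
(.lf (nat_lit 132871) (.g (nat_lit 4134) (.e (nat_lit 16416) (nat_lit 3) (.e (nat_lit 204869) (nat_lit 29) (.e (nat_lit 360475) (nat_lit 8) (.e (nat_lit 557091) (nat_lit 12) (.e (nat_lit 164022) (nat_lit 46) (.e (nat_lit 704735) (nat_lit 11) .nil)))))) (.g (nat_lit 5) .nil .nil))) 
(.lf (nat_lit 132903) (.g (nat_lit 883) (.e (nat_lit 16417) (nat_lit 3) (.e (nat_lit 204852) (nat_lit 26) (.e (nat_lit 336208) (nat_lit 12) .nil))) .nil))) (.nd (nat_lit 5) 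
(.lf (nat_lit 132887) (.g (nat_lit 3194) (.e (nat_lit 16416) (nat_lit 3) (.e (nat_lit 204880) (nat_lit 32) (.e (nat_lit 385106) (nat_lit 50) (.e (nat_lit 786456) (nat_lit 18) (.e (nat_lit 98338) (nat_lit 19) (.e (nat_lit 220928) (nat_lit 2) .nil)))))) (.g (nat_lit 5) .nil .nil))) 
(.lf (nat_lit 132919) (.g (nat_lit 2731) (.e (nat_lit 16417) (nat_lit 3) (.e (nat_lit 204854) (nat_lit 26) (.e (nat_lit 336208) (nat_lit 12) (.e (nat_lit 385068) (nat_lit 26) (.e (nat_lit 532511) (nat_lit 2) (.e (nat_lit 106534) (nat_lit 11) .nil)))))) (.g (nat_lit 0) .nil .nil))))) (.nd (nat_lit 4) (.nd (nat_lit 5) 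
(.lf (nat_lit 132879) (.g (nat_lit 1173) (.e (nat_lit 16416) (nat_lit 3) (.e (nat_lit 204869) (nat_lit 29) (.e (nat_lit 360477) (nat_lit 11) (.e (nat_lit 581656) (nat_lit 9) .nil)))) .nil)) 
(.lf (nat_lit 132911) (.g (nat_lit 1142) (.e (nat_lit 16417) (nat_lit 3) (.e (nat_lit 204854) (nat_lit 26) (.e (nat_lit 336182) (nat_lit 11) (.e (nat_lit 376576) (nat_lit 23) .nil)))) .nil))) (.nd (nat_lit 5) 
(.lf (nat_lit 132895) (.g (nat_lit 2682) (.e (nat_lit 16416) (nat_lit 3) (.e (nat_lit 204884) (nat_lit 33) (.e (nat_lit 401454) (nat_lit 12) (.e (nat_lit 475176) (nat_lit 24) .nil)))) .nil)) 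
(.lf (nat_lit 132927) (.g (nat_lit 1550) (.e (nat_lit 16417) (nat_lit 3) (.e (nat_lit 204859) (nat_lit 26) (.e (nat_lit 336118) (nat_lit 9) (.e (nat_lit 336323) (nat_lit 18) (.e (nat_lit 204835) (nat_lit 19) (.e (nat_lit 106534) (nat_lit 11) .nil)))))) (.g (nat_lit 0) .nil .nil)))))))))

noncomputable def tv1773 : DT := (.nd (nat_lit 0) (.nd (nat_lit 1) (.nd (nat_lit 2) (.nd (nat_lit 3) (.nd (nat_lit 4) (.nd (nat_lit 5) 
(.lf (nat_lit 132928) (.g (nat_lit 1722) (.e (nat_lit 16417) (nat_lit 3) (.e (nat_lit 204859) (nat_lit 26) (.e (nat_lit 336118) (nat_lit 9) (.e (nat_lit 336323) (nat_lit 18) (.e (nat_lit 204835) (nat_lit 19) (.e (nat_lit 106536) (nat_lit 11) .nil)))))) (.g (nat_lit 0) .nil .nil))) 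
(.lf (nat_lit 132960) (.g (nat_lit 2163) (.e (nat_lit 16417) (nat_lit 3) (.e (nat_lit 204865) (nat_lit 28) (.e (nat_lit 352262) (nat_lit 0) (.e (nat_lit 3253) (nat_lit 197) (.e (nat_lit 532511) (nat_lit 2) (.e (nat_lit 106536) (nat_lit 11) .nil)))))) (.g (nat_lit 0) .nil .nil)))) (.nd (nat_lit 5) 
(.lf (nat_lit 132944) (.g (nat_lit 1613) (.e (nat_lit 16417) (nat_lit 3) (.e (nat_lit 204861) (nat_lit 26) (.e (nat_lit 336194) (nat_lit 12) (.e (nat_lit 385064) (nat_lit 26) (.e (nat_lit 532511) (nat_lit 2) (.e (nat_lit 106534) (nat_lit 11) .nil)))))) (.g (nat_lit 4) .nil .nil))) 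
(.lf (nat_lit 132976) (.g (nat_lit 2769) (.e (nat_lit 16417) (nat_lit 3) (.e (nat_lit 204868) (nat_lit 29) (.e (nat_lit 360473) (nat_lit 8) (.e (nat_lit 557091) (nat_lit 12) (.e (nat_lit 164022) (nat_lit 46) (.e (nat_lit 704736) (nat_lit 11) .nil)))))) (.g (nat_lit 5) .nil .nil))))) (.nd (nat_lit 4) (.nd (nat_lit 5) 
(.lf (nat_lit 132936) (.g (nat_lit 2275) (.e (nat_lit 16417) (nat_lit 3) (.e (nat_lit 204861) (nat_lit 26) (.e (nat_lit 336075) (nat_lit 9) (.e (nat_lit 336324) (nat_lit 18) (.e (nat_lit 204834) (nat_lit 19) (.e (nat_lit 106534) (nat_lit 11) .nil)))))) (.g (nat_lit 0) .nil .nil))) 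
(.lf (nat_lit 132968) (.g (nat_lit 2003) (.e (nat_lit 16417) (nat_lit 3) (.e (nat_lit 204868) (nat_lit 29) (.e (nat_lit 360466) (nat_lit 3) (.e (nat_lit 516119) (nat_lit 1) (.e (nat_lit 171776) (nat_lit 278) .nil))))) .nil))) (.nd (nat_lit 5) 
(.lf (nat_lit 132952) (.g (nat_lit 2511) (.e (nat_lit 16417) (nat_lit 3) (.e (nat_lit 204861) (nat_lit 26) (.e (nat_lit 336194) (nat_lit 12) (.e (nat_lit 385068) (nat_lit 26) (.e (nat_lit 532511) (nat_lit 2) (.e (nat_lit 106534) (nat_lit 11) .nil)))))) (.g (nat_lit 0) .nil .nil))) 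
(.lf (nat_lit 132984) (.g (nat_lit 1741) (.e (nat_lit 16417) (nat_lit 3) (.e (nat_lit 204868) (nat_lit 29) (.e (nat_lit 360473) (nat_lit 8) (.e (nat_lit 557094) (nat_lit 12) (.e (nat_lit 164021) (nat_lit 46) (.e (nat_lit 704741) (nat_lit 11) .nil)))))) (.g (nat_lit 5) .nil .nil)))))) (.nd (nat_lit 3) (.nd (nat_lit 4) (.nd (nat_lit 5) 
(.lf (nat_lit 132932) (.g (nat_lit 2003) (.e (nat_lit 16417) (nat_lit 3) (.e (nat_lit 204859) (nat_lit 26) (.e (nat_lit 336206) (nat_lit 12) (.e (nat_lit 385068) (nat_lit 26) (.e (nat_lit 532510) (nat_lit 2) (.e (nat_lit 106534) (nat_lit 11) .nil)))))) (.g (nat_lit 0) .nil .nil))) 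
(.lf (nat_lit 132964) (.g (nat_lit 1368) (.e (nat_lit 16417) (nat_lit 3) (.e (nat_lit 204868) (nat_lit 29) (.e (nat_lit 360466) (nat_lit 3) (.e (nat_lit 516115) (nat_lit 1) .nil)))) .nil))) (.nd (nat_lit 5) 
(.lf (nat_lit 132948) (.g (nat_lit 2738) (.e (nat_lit 16417) (nat_lit 3) (.e (nat_lit 204861) (nat_lit 26) (.e (nat_lit 336194) (nat_lit 12) (.e (nat_lit 385066) (nat_lit 26) (.e (nat_lit 532511) (nat_lit 2) (.e (nat_lit 106536) (nat_lit 11) .nil)))))) (.g (nat_lit 0) .nil .nil))) 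
(.lf (nat_lit 132980) (.g (nat_lit 2197) (.e (nat_lit 16417) (nat_lit 3) (.e (nat_lit 204868) (nat_lit 29) (.e (nat_lit 360473) (nat_lit 8) (.e (nat_lit 557093) (nat_lit 12) (.e (nat_lit 164022) (nat_lit 46) (.e (nat_lit 704735) (nat_lit 11) .nil)))))) (.g (nat_lit 5) .nil .nil))))) (.nd (nat_lit 4) (.nd (nat_lit 5) 
(.lf (nat_lit 132940) (.g (nat_lit 2475) (.e (nat_lit 16417) (nat_lit 3) (.e (nat_lit 204861) (nat_lit 26) (.e (nat_lit 336076) (nat_lit 9) (.e (nat_lit 336324) (nat_lit 18) (.e (nat_lit 204834) (nat_lit 19) (.e (nat_lit 106534) (nat_lit 11) .nil)))))) (.g (nat_lit 0) .nil .nil))) 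
(.lf (nat_lit 132972) (.g (nat_lit 1137) (.e (nat_lit 16417) (nat_lit 3) (.e (nat_lit 204868) (nat_lit 29) (.e (nat_lit 360473) (nat_lit 8) (.e (nat_lit 557068) (nat_lit 9) .nil)))) .nil))) (.nd (nat_lit 5) 
(.lf (nat_lit 132956) (.g (nat_lit 1929) (.e (nat_lit 16417) (nat_lit 3) (.e (nat_lit 204861) (nat_lit 26) (.e (nat_lit 336195) (nat_lit 12) (.e (nat_lit 385066) (nat_lit 26) (.e (nat_lit 532510) (nat_lit 2) (.e (nat_lit 106536) (nat_lit 11) .nil)))))) (.g (nat_lit 5) .nil .nil))) 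
(.lf (nat_lit 132988) (.g (nat_lit 2764) (.e (nat_lit 16417) (nat_lit 3) (.e (nat_lit 204868) (nat_lit 29) (.e (nat_lit 360473) (nat_lit 8) (.e (nat_lit 557094) (nat_lit 12) (.e (nat_lit 164022) (nat_lit 46) (.e (nat_lit 704737) (nat_lit 11) .nil)))))) (.g (nat_lit 6) .nil .nil))))))) (.nd (nat_lit 2) (.nd (nat_lit 3) (.nd (nat_lit 4) (.nd (nat_lit 5) 
(.lf (nat_lit 132930) (.g (nat_lit 2219) (.e (nat_lit 16417) (nat_lit 3) (.e (nat_lit 204859) (nat_lit 26) (.e (nat_lit 336206) (nat_lit 12) (.e (nat_lit 385066) (nat_lit 26) (.e (nat_lit 532510) (nat_lit 2) (.e (nat_lit 106536) (nat_lit 11) .nil)))))) (.g (nat_lit 6) .nil .nil))) 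
(.lf (nat_lit 132962) (.g (nat_lit 2419) (.e (nat_lit 16417) (nat_lit 3) (.e (nat_lit 204866) (nat_lit 28) (.e (nat_lit 352262) (nat_lit 0) (.e (nat_lit 3253) (nat_lit 197) (.e (nat_lit 532511) (nat_lit 2) (.e (nat_lit 106536) (nat_lit 11) .nil)))))) (.g (nat_lit 0) .nil .nil)))) (.nd (nat_lit 5) 
(.lf (nat_lit 132946) (.g (nat_lit 2676) (.e (nat_lit 16417) (nat_lit 3) (.e (nat_lit 204861) (nat_lit 26) (.e (nat_lit 336194) (nat_lit 12) (.e (nat_lit 385066) (nat_lit 26) (.e (nat_lit 532508) (nat_lit 2) (.e (nat_lit 106534) (nat_lit 11) .nil)))))) (.g (nat_lit 6) .nil .nil))) 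
(.lf (nat_lit 132978) (.g (nat_lit 1583) (.e (nat_lit 16417) (nat_lit 3) (.e (nat_lit 204868) (nat_lit 29) (.e (nat_lit 360473) (nat_lit 8) (.e (nat_lit 557093) (nat_lit 12) (.e (nat_lit 164021) (nat_lit 46) .nil))))) .nil)))) (.nd (nat_lit 4) (.nd (nat_lit 5) 
(.lf (nat_lit 132938) (.g (nat_lit 1687) (.e (nat_lit 16417) (nat_lit 3) (.e (nat_lit 204861) (nat_lit 26) (.e (nat_lit 336075) (nat_lit 9) (.e (nat_lit 336326) (nat_lit 18) (.e (nat_lit 204834) (nat_lit 19) (.e (nat_lit 106534) (nat_lit 11) .nil)))))) (.g (nat_lit 5) .nil .nil))) 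
(.lf (nat_lit 132970) (.g (nat_lit 2034) (.e (nat_lit 16417) (nat_lit 3) (.e (nat_lit 204868) (nat_lit 29) (.e (nat_lit 360466) (nat_lit 3) (.e (nat_lit 516120) (nat_lit 1) (.e (nat_lit 171776) (nat_lit 278) .nil))))) .nil))) (.nd (nat_lit 5) 
(.lf (nat_lit 132954) (.g (nat_lit 1635) (.e (nat_lit 16417) (nat_lit 3) (.e (nat_lit 204861) (nat_lit 26) (.e (nat_lit 336195) (nat_lit 12) (.e (nat_lit 385066) (nat_lit 26) (.e (nat_lit 532508) (nat_lit 2) .nil))))) .nil)) 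
(.lf (nat_lit 132986) (.g (nat_lit 2004) (.e (nat_lit 16417) (nat_lit 3) (.e (nat_lit 204868) (nat_lit 29) (.e (nat_lit 360473) (nat_lit 8) (.e (nat_lit 557094) (nat_lit 12) (.e (nat_lit 164022) (nat_lit 46) (.e (nat_lit 704735) (nat_lit 11) .nil)))))) (.g (nat_lit 5) .nil .nil)))))) (.nd (nat_lit 3) (.nd (nat_lit 4) (.nd (nat_lit 5) 
(.lf (nat_lit 132934) (.g (nat_lit 1969) (.e (nat_lit 16417) (nat_lit 3) (.e (nat_lit 204859) (nat_lit 26) (.e (nat_lit 336206) (nat_lit 12) (.e (nat_lit 385068) (nat_lit 26) (.e (nat_lit 532511) (nat_lit 2) (.e (nat_lit 106534) (nat_lit 11) .nil)))))) (.g (nat_lit 0) .nil .nil))) 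
(.lf (nat_lit 132966) (.g (nat_lit 2131) (.e (nat_lit 16417) (nat_lit 3) (.e (nat_lit 204868) (nat_lit 29) (.e (nat_lit 360466) (nat_lit 3) (.e (nat_lit 516117) (nat_lit 1) (.e (nat_lit 171776) (nat_lit 278) .nil))))) .nil))) (.nd (nat_lit 5) 
(.lf (nat_lit 132950) (.g (nat_lit 2558) (.e (nat_lit 16417) (nat_lit 3) (.e (nat_lit 204861) (nat_lit 26) (.e (nat_lit 336194) (nat_lit 12) (.e (nat_lit 385068) (nat_lit 26) (.e (nat_lit 532510) (nat_lit 2) (.e (nat_lit 106534) (nat_lit 11) .nil)))))) (.g (nat_lit 0) .nil .nil))) 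
(.lf (nat_lit 132982) (.g (nat_lit 2958) (.e (nat_lit 16417) (nat_lit 3) (.e (nat_lit 204868) (nat_lit 29) (.e (nat_lit 360473) (nat_lit 8) (.e (nat_lit 557093) (nat_lit 12) (.e (nat_lit 164023) (nat_lit 46) (.e (nat_lit 704732) (nat_lit 11) .nil)))))) (.g (nat_lit 5) .nil .nil))))) (.nd (nat_lit 4) (.nd (nat_lit 5) 
(.lf (nat_lit 132942) (.g (nat_lit 2519) (.e (nat_lit 16417) (nat_lit 3) (.e (nat_lit 204861) (nat_lit 26) (.e (nat_lit 336076) (nat_lit 9) (.e (nat_lit 336326) (nat_lit 18) (.e (nat_lit 204835) (nat_lit 19) (.e (nat_lit 106534) (nat_lit 11) .nil)))))) (.g (nat_lit 6) .nil .nil))) 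
(.lf (nat_lit 132974) (.g (nat_lit 2174) (.e (nat_lit 16417) (nat_lit 3) (.e (nat_lit 204868) (nat_lit 29) (.e (nat_lit 360473) (nat_lit 8) (.e (nat_lit 557091) (nat_lit 12) (.e (nat_lit 164022) (nat_lit 46) (.e (nat_lit 704732) (nat_lit 11) .nil)))))) (.g (nat_lit 4) .nil .nil)))) (.nd (nat_lit 5) 
(.lf (nat_lit 132958) (.g (nat_lit 1417) (.e (nat_lit 16417) (nat_lit 3) (.e (nat_lit 204861) (nat_lit 26) (.e (nat_lit 336203) (nat_lit 12) (.e (nat_lit 385067) (nat_lit 26) .nil)))) .nil)) 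
(.lf (nat_lit 132990) (.g (nat_lit 658) (.e (nat_lit 16417) (nat_lit 3) (.e (nat_lit 204868) (nat_lit 29) (.e (nat_lit 368384) (nat_lit 10) .nil))) .nil))))))) (.nd (nat_lit 1) (.nd (nat_lit 2) (.nd (nat_lit 3) (.nd (nat_lit 4) (.nd (nat_lit 5) 
(.lf (nat_lit 132929) (.g (nat_lit 1796) (.e (nat_lit 16417) (nat_lit 3) (.e (nat_lit 204859) (nat_lit 26) (.e (nat_lit 336206) (nat_lit 12) (.e (nat_lit 385066) (nat_lit 26) (.e (nat_lit 532508) (nat_lit 2) (.e (nat_lit 106534) (nat_lit 11) .nil)))))) (.g (nat_lit 5) .nil .nil))) 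
(.lf (nat_lit 132961) (.g (nat_lit 2343) (.e (nat_lit 16417) (nat_lit 3) (.e (nat_lit 204866) (nat_lit 28) (.e (nat_lit 352262) (nat_lit 0) (.e (nat_lit 3253) (nat_lit 197) (.e (nat_lit 532510) (nat_lit 2) (.e (nat_lit 106536) (nat_lit 11) .nil)))))) (.g (nat_lit 0) .nil .nil)))) (.nd (nat_lit 5) 
(.lf (nat_lit 132945) (.g (nat_lit 1266) (.e (nat_lit 16417) (nat_lit 3) (.e (nat_lit 204861) (nat_lit 26) (.e (nat_lit 336194) (nat_lit 12) (.e (nat_lit 385065) (nat_lit 26) .nil)))) .nil)) 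
(.lf (nat_lit 132977) (.g (nat_lit 3324) (.e (nat_lit 16417) (nat_lit 3) (.e (nat_lit 204868) (nat_lit 29) (.e (nat_lit 360473) (nat_lit 8) (.e (nat_lit 557091) (nat_lit 12) (.e (nat_lit 164022) (nat_lit 46) (.e (nat_lit 704737) (nat_lit 11) .nil)))))) (.g (nat_lit 6) .nil .nil))))) (.nd (nat_lit 4) (.nd (nat_lit 5) 
(.lf (nat_lit 132937) (.g (nat_lit 2630) (.e (nat_lit 16417) (nat_lit 3) (.e (nat_lit 204861) (nat_lit 26) (.e (nat_lit 336075) (nat_lit 9) (.e (nat_lit 336324) (nat_lit 18) (.e (nat_lit 204835) (nat_lit 19) (.e (nat_lit 106534) (nat_lit 11) .nil)))))) (.g (nat_lit 0) .nil .nil))) 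
(.lf (nat_lit 132969) (.g (nat_lit 2096) (.e (nat_lit 16417) (nat_lit 3) (.e (nat_lit 204868) (nat_lit 29) (.e (nat_lit 360466) (nat_lit 3) (.e (nat_lit 516120) (nat_lit 1) (.e (nat_lit 164428) (nat_lit 278) (.e (nat_lit 1122) (nat_lit 83) .nil)))))) (.g (nat_lit 4) .nil .nil)))) (.nd (nat_lit 5) 
(.lf (nat_lit 132953) (.g (nat_lit 2615) (.e (nat_lit 16417) (nat_lit 3) (.e (nat_lit 204861) (nat_lit 26) (.e (nat_lit 336194) (nat_lit 12) (.e (nat_lit 385068) (nat_lit 26) (.e (nat_lit 532511) (nat_lit 2) (.e (nat_lit 106536) (nat_lit 11) .nil)))))) (.g (nat_lit 0) .nil .nil))) 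
(.lf (nat_lit 132985) (.g (nat_lit 1593) (.e (nat_lit 16417) (nat_lit 3) (.e (nat_lit 204868) (nat_lit 29) (.e (nat_lit 360473) (nat_lit 8) (.e (nat_lit 557094) (nat_lit 12) (.e (nat_lit 164022) (nat_lit 46) (.e (nat_lit 704732) (nat_lit 11) .nil)))))) (.g (nat_lit 4) .nil .nil)))))) (.nd (nat_lit 3) (.nd (nat_lit 4) (.nd (nat_lit 5) 
(.lf (nat_lit 132933) (.g (nat_lit 2088) (.e (nat_lit 16417) (nat_lit 3) (.e (nat_lit 204859) (nat_lit 26) (.e (nat_lit 336206) (nat_lit 12) (.e (nat_lit 385068) (nat_lit 26) (.e (nat_lit 532510) (nat_lit 2) (.e (nat_lit 106536) (nat_lit 11) .nil)))))) (.g (nat_lit 0) .nil .nil))) 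
(.lf (nat_lit 132965) (.g (nat_lit 2172) (.e (nat_lit 16417) (nat_lit 3) (.e (nat_lit 204868) (nat_lit 29) (.e (nat_lit 360466) (nat_lit 3) (.e (nat_lit 516117) (nat_lit 1) (.e (nat_lit 164428) (nat_lit 278) (.e (nat_lit 1122) (nat_lit 83) .nil)))))) (.g (nat_lit 4) .nil .nil)))) (.nd (nat_lit 5) 
(.lf (nat_lit 132949) (.g (nat_lit 2153) (.e (nat_lit 16417) (nat_lit 3) (.e (nat_lit 204861) (nat_lit 26) (.e (nat_lit 336194) (nat_lit 12) (.e (nat_lit 385067) (nat_lit 26) (.e (nat_lit 532510) (nat_lit 2) (.e (nat_lit 106536) (nat_lit 11) .nil)))))) (.g (nat_lit 5) .nil .nil))) 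
(.lf (nat_lit 132981) (.g (nat_lit 2933) (.e (nat_lit 16417) (nat_lit 3) (.e (nat_lit 204868) (nat_lit 29) (.e (nat_lit 360473) (nat_lit 8) (.e (nat_lit 557093) (nat_lit 12) (.e (nat_lit 164022) (nat_lit 46) (.e (nat_lit 704737) (nat_lit 11) .nil)))))) (.g (nat_lit 6) .nil .nil))))) (.nd (nat_lit 4) (.nd (nat_lit 5) 
(.lf (nat_lit 132941) (.g (nat_lit 2847) (.e (nat_lit 16417) (nat_lit 3) (.e (nat_lit 204861) (nat_lit 26) (.e (nat_lit 336076) (nat_lit 9) (.e (nat_lit 336324) (nat_lit 18) (.e (nat_lit 204835) (nat_lit 19) (.e (nat_lit 106534) (nat_lit 11) .nil)))))) (.g (nat_lit 0) .nil .nil))) 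
(.lf (nat_lit 132973) (.g (nat_lit 2284) (.e (nat_lit 16417) (nat_lit 3) (.e (nat_lit 204868) (nat_lit 29) (.e (nat_lit 360473) (nat_lit 8) (.e (nat_lit 557091) (nat_lit 12) (.e (nat_lit 164021) (nat_lit 46) (.e (nat_lit 704741) (nat_lit 11) .nil)))))) (.g (nat_lit 5) .nil .nil)))) (.nd (nat_lit 5) 
(.lf (nat_lit 132957) (.g (nat_lit 1915) (.e (nat_lit 16417) (nat_lit 3) (.e (nat_lit 204861) (nat_lit 26) (.e (nat_lit 336195) (nat_lit 12) (.e (nat_lit 385066) (nat_lit 26) (.e (nat_lit 532511) (nat_lit 2) (.e (nat_lit 106536) (nat_lit 11) .nil)))))) (.g (nat_lit 5) .nil .nil))) 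
(.lf (nat_lit 132989) (.g (nat_lit 3290) (.e (nat_lit 16417) (nat_lit 3) (.e (nat_lit 204868) (nat_lit 29) (.e (nat_lit 360475) (nat_lit 8) (.e (nat_lit 557091) (nat_lit 12) (.e (nat_lit 164022) (nat_lit 46) .nil))))) .nil)))))) (.nd (nat_lit 2) (.nd (nat_lit 3) (.nd (nat_lit 4) (.nd (nat_lit 5) 
(.lf (nat_lit 132931) (.g (nat_lit 2197) (.e (nat_lit 16417) (nat_lit 3) (.e (nat_lit 204859) (nat_lit 26) (.e (nat_lit 336206) (nat_lit 12) (.e (nat_lit 385066) (nat_lit 26) (.e (nat_lit 532511) (nat_lit 2) (.e (nat_lit 106536) (nat_lit 11) .nil)))))) (.g (nat_lit 6) .nil .nil))) 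
(.lf (nat_lit 132963) (.g (nat_lit 1428) (.e (nat_lit 16417) (nat_lit 3) (.e (nat_lit 204868) (nat_lit 29) (.e (nat_lit 360466) (nat_lit 3) (.e (nat_lit 516100) (nat_lit 0) .nil)))) .nil))) (.nd (nat_lit 5) 
(.lf (nat_lit 132947) (.g (nat_lit 1965) (.e (nat_lit 16417) (nat_lit 3) (.e (nat_lit 204861) (nat_lit 26) (.e (nat_lit 336194) (nat_lit 12) (.e (nat_lit 385066) (nat_lit 26) (.e (nat_lit 532508) (nat_lit 2) (.e (nat_lit 106536) (nat_lit 11) .nil)))))) (.g (nat_lit 4) .nil .nil))) 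
(.lf (nat_lit 132979) (.g (nat_lit 1722) (.e (nat_lit 16417) (nat_lit 3) (.e (nat_lit 204868) (nat_lit 29) (.e (nat_lit 360473) (nat_lit 8) (.e (nat_lit 557093) (nat_lit 12) (.e (nat_lit 164022) (nat_lit 46) (.e (nat_lit 704732) (nat_lit 11) .nil)))))) (.g (nat_lit 4) .nil .nil))))) (.nd (nat_lit 4) (.nd (nat_lit 5) 
(.lf (nat_lit 132939) (.g (nat_lit 1987) (.e (nat_lit 16417) (nat_lit 3) (.e (nat_lit 204861) (nat_lit 26) (.e (nat_lit 336075) (nat_lit 9) (.e (nat_lit 336326) (nat_lit 18) (.e (nat_lit 204835) (nat_lit 19) (.e (nat_lit 106534) (nat_lit 11) .nil)))))) (.g (nat_lit 6) .nil .nil))) 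
(.lf (nat_lit 132971) (.g (nat_lit 415) (.e (nat_lit 16417) (nat_lit 3) (.e (nat_lit 204868) (nat_lit 29) (.e (nat_lit 360473) (nat_lit 8) .nil))) .nil))) (.nd (nat_lit 5) 
(.lf (nat_lit 132955) (.g (nat_lit 1616) (.e (nat_lit 16417) (nat_lit 3) (.e (nat_lit 204861) (nat_lit 26) (.e (nat_lit 336195) (nat_lit 12) (.e (nat_lit 385066) (nat_lit 26) (.e (nat_lit 532509) (nat_lit 2) .nil))))) .nil)) 
(.lf (nat_lit 132987) (.g (nat_lit 2210) (.e (nat_lit 16417) (nat_lit 3) (.e (nat_lit 204868) (nat_lit 29) (.e (nat_lit 360473) (nat_lit 8) (.e (nat_lit 557094) (nat_lit 12) (.e (nat_lit 164022) (nat_lit 46) (.e (nat_lit 704736) (nat_lit 11) .nil)))))) (.g (nat_lit 5) .nil .nil)))))) (.nd (nat_lit 3) (.nd (nat_lit 4) (.nd (nat_lit 5) 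
(.lf (nat_lit 132935) (.g (nat_lit 2103) (.e (nat_lit 16417) (nat_lit 3) (.e (nat_lit 204859) (nat_lit 26) (.e (nat_lit 336206) (nat_lit 12) (.e (nat_lit 385068) (nat_lit 26) (.e (nat_lit 532511) (nat_lit 2) (.e (nat_lit 106536) (nat_lit 11) .nil)))))) (.g (nat_lit 0) .nil .nil))) 
(.lf (nat_lit 132967) (.g (nat_lit 2277) (.e (nat_lit 16417) (nat_lit 3) (.e (nat_lit 204868) (nat_lit 29) (.e (nat_lit 360466) (nat_lit 3) (.e (nat_lit 516119) (nat_lit 1) (.e (nat_lit 164429) (nat_lit 278) .nil))))) .nil))) (.nd (nat_lit 5) 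
(.lf (nat_lit 132951) (.g (nat_lit 2612) (.e (nat_lit 16417) (nat_lit 3) (.e (nat_lit 204861) (nat_lit 26) (.e (nat_lit 336194) (nat_lit 12) (.e (nat_lit 385068) (nat_lit 26) (.e (nat_lit 532510) (nat_lit 2) (.e (nat_lit 106536) (nat_lit 11) .nil)))))) (.g (nat_lit 0) .nil .nil))) 
(.lf (nat_lit 132983) (.g (nat_lit 2998) (.e (nat_lit 16417) (nat_lit 3) (.e (nat_lit 204868) (nat_lit 29) (.e (nat_lit 360473) (nat_lit 8) (.e (nat_lit 557093) (nat_lit 12) (.e (nat_lit 164023) (nat_lit 46) (.e (nat_lit 704735) (nat_lit 11) .nil)))))) (.g (nat_lit 6) .nil .nil))))) (.nd (nat_lit 4) (.nd (nat_lit 5) 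
(.lf (nat_lit 132943) (.g (nat_lit 1258) (.e (nat_lit 16417) (nat_lit 3) (.e (nat_lit 204861) (nat_lit 26) (.e (nat_lit 336194) (nat_lit 12) (.e (nat_lit 385064) (nat_lit 26) .nil)))) .nil)) 
(.lf (nat_lit 132975) (.g (nat_lit 2565) (.e (nat_lit 16417) (nat_lit 3) (.e (nat_lit 204868) (nat_lit 29) (.e (nat_lit 360473) (nat_lit 8) (.e (nat_lit 557091) (nat_lit 12) (.e (nat_lit 164022) (nat_lit 46) (.e (nat_lit 704735) (nat_lit 11) .nil)))))) (.g (nat_lit 5) .nil .nil)))) (.nd (nat_lit 5) 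
(.lf (nat_lit 132959) (.g (nat_lit 2090) (.e (nat_lit 16417) (nat_lit 3) (.e (nat_lit 204865) (nat_lit 28) (.e (nat_lit 352262) (nat_lit 0) (.e (nat_lit 3253) (nat_lit 197) (.e (nat_lit 532510) (nat_lit 2) (.e (nat_lit 106536) (nat_lit 11) .nil)))))) (.g (nat_lit 0) .nil .nil))) 
(.lf (nat_lit 132991) (.g (nat_lit 2247) (.e (nat_lit 16417) (nat_lit 3) (.e (nat_lit 204868) (nat_lit 29) (.e (nat_lit 360477) (nat_lit 11) (.e (nat_lit 581659) (nat_lit 9) (.e (nat_lit 1266) (nat_lit 93) .nil))))) .nil))))))))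

noncomputable def tv1774 : DT := (.nd (nat_lit 0) (.nd (nat_lit 1) (.nd (nat_lit 2) (.nd (nat_lit 3) (.nd (nat_lit 4) (.nd (nat_lit 5) (.nd (nat_lit 6) 
(.lf (nat_lit 132992) (.g (nat_lit 2178) (.e (nat_lit 16417) (nat_lit 3) (.e (nat_lit 204869) (nat_lit 29) (.e (nat_lit 360450) (nat_lit 0) (.e (nat_lit 7936) (nat_lit 253) .nil)))) .nil)) 
(.lf (nat_lit 133056) (.g (nat_lit 1212) (.e (nat_lit 24320) (nat_lit 3) (.e (nat_lit 204868) (nat_lit 29) (.e (nat_lit 360473) (nat_lit 8) (.e (nat_lit 557093) (nat_lit 12) .nil)))) .nil))) (.nd (nat_lit 6) 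
(.lf (nat_lit 133024) (.g (nat_lit 2854) (.e (nat_lit 16417) (nat_lit 3) (.e (nat_lit 204869) (nat_lit 29) (.e (nat_lit 360474) (nat_lit 8) (.e (nat_lit 557093) (nat_lit 12) (.e (nat_lit 171776) (nat_lit 46) (.e (nat_lit 704734) (nat_lit 11) .nil)))))) (.g (nat_lit 4) .nil .nil))) 
(.lf (nat_lit 133088) (.g (nat_lit 1401) (.e (nat_lit 16424) (nat_lit 7) (.e (nat_lit 409645) (nat_lit 18) (.e (nat_lit 303143) (nat_lit 12) (.e (nat_lit 475219) (nat_lit 44) .nil)))) .nil)))) (.nd (nat_lit 5) (.nd (nat_lit 6) 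
(.lf (nat_lit 133008) (.g (nat_lit 3575) (.e (nat_lit 16417) (nat_lit 3) (.e (nat_lit 204869) (nat_lit 29) (.e (nat_lit 360474) (nat_lit 8) (.e (nat_lit 557091) (nat_lit 12) (.e (nat_lit 164022) (nat_lit 46) (.e (nat_lit 704735) (nat_lit 11) .nil)))))) (.g (nat_lit 5) .nil .nil))) 
(.lf (nat_lit 133072) (.g (nat_lit 1046) (.e (nat_lit 16423) (nat_lit 6) (.e (nat_lit 253989) (nat_lit 11) (.e (nat_lit 24320) (nat_lit 17) (.e (nat_lit 90172) (nat_lit 14) (.e (nat_lit 188160) (nat_lit 34) .nil))))) (.g (nat_lit 4) .nil .nil)))) (.nd (nat_lit 6) 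
(.lf (nat_lit 133040) (.g (nat_lit 5161) (.e (nat_lit 16417) (nat_lit 3) (.e (nat_lit 204869) (nat_lit 29) (.e (nat_lit 360475) (nat_lit 8) (.e (nat_lit 557091) (nat_lit 12) (.e (nat_lit 164022) (nat_lit 46) (.e (nat_lit 704737) (nat_lit 11) .nil)))))) (.g (nat_lit 0) .nil .nil))) 
(.lf (nat_lit 133104) (.g (nat_lit 1505) (.e (nat_lit 16425) (nat_lit 7) (.e (nat_lit 409612) (nat_lit 10) (.e (nat_lit 848) (nat_lit 73) (.e (nat_lit 761898) (nat_lit 15) (.e (nat_lit 171776) (nat_lit 206) .nil))))) .nil))))) (.nd (nat_lit 4) (.nd (nat_lit 5) (.nd (nat_lit 6) 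
(.lf (nat_lit 133000) (.g (nat_lit 1749) (.e (nat_lit 16417) (nat_lit 3) (.e (nat_lit 204869) (nat_lit 29) (.e (nat_lit 360474) (nat_lit 8) (.e (nat_lit 557089) (nat_lit 12) .nil)))) .nil)) 
(.lf (nat_lit 133064) (.g (nat_lit 2539) (.e (nat_lit 24320) (nat_lit 3) (.e (nat_lit 204869) (nat_lit 29) (.e (nat_lit 360474) (nat_lit 8) (.e (nat_lit 557093) (nat_lit 12) (.e (nat_lit 164023) (nat_lit 46) .nil))))) .nil))) (.nd (nat_lit 6) 
(.lf (nat_lit 133032) (.g (nat_lit 3226) (.e (nat_lit 16417) (nat_lit 3) (.e (nat_lit 204869) (nat_lit 29) (.e (nat_lit 360475) (nat_lit 8) (.e (nat_lit 557070) (nat_lit 9) .nil)))) .nil)) 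
(.lf (nat_lit 133096) (.g (nat_lit 1870) (.e (nat_lit 16424) (nat_lit 7) (.e (nat_lit 409646) (nat_lit 18) (.e (nat_lit 303143) (nat_lit 12) (.e (nat_lit 475199) (nat_lit 40) .nil)))) .nil)))) (.nd (nat_lit 5) (.nd (nat_lit 6) 
(.lf (nat_lit 133016) (.g (nat_lit 3920) (.e (nat_lit 16417) (nat_lit 3) (.e (nat_lit 204869) (nat_lit 29) (.e (nat_lit 360474) (nat_lit 8) (.e (nat_lit 557093) (nat_lit 12) (.e (nat_lit 164022) (nat_lit 46) (.e (nat_lit 704735) (nat_lit 11) .nil)))))) (.g (nat_lit 6) .nil .nil))) 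
(.lf (nat_lit 133080) (.g (nat_lit 2880) (.e (nat_lit 16423) (nat_lit 6) (.e (nat_lit 254000) (nat_lit 12) (.e (nat_lit 57570) (nat_lit 54) (.e (nat_lit 770069) (nat_lit 7) (.e (nat_lit 57480) (nat_lit 28) (.e (nat_lit 557103) (nat_lit 14) (.e (nat_lit 188160) (nat_lit 34) .nil))))))) (.g (nat_lit 6) .nil .nil)))) (.nd (nat_lit 6) 
(.lf (nat_lit 133048) (.g (nat_lit 358) (.e (nat_lit 16417) (nat_lit 3) (.e (nat_lit 204870) (nat_lit 29) (.e (nat_lit 368384) (nat_lit 5) .nil))) .nil)) 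
(.lf (nat_lit 133112) (.g (nat_lit 691) (.e (nat_lit 16425) (nat_lit 7) (.e (nat_lit 409616) (nat_lit 10) (.e (nat_lit 5772) (nat_lit 316) (.e (nat_lit 179968) (nat_lit 20) .nil)))) .nil)))))) (.nd (nat_lit 3) (.nd (nat_lit 4) (.nd (nat_lit 5) (.nd (nat_lit 6) 
(.lf (nat_lit 132996) (.g (nat_lit 1684) (.e (nat_lit 16417) (nat_lit 3) (.e (nat_lit 204869) (nat_lit 29) (.e (nat_lit 368384) (nat_lit 5) (.e (nat_lit 532499) (nat_lit 1) (.e (nat_lit 57906) (nat_lit 278) (.e (nat_lit 7936) (nat_lit 83) .nil)))))) (.g (nat_lit 4) .nil .nil))) 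
(.lf (nat_lit 133060) (.g (nat_lit 855) (.e (nat_lit 24320) (nat_lit 3) (.e (nat_lit 204869) (nat_lit 29) (.e (nat_lit 360473) (nat_lit 8) .nil))) .nil))) (.nd (nat_lit 6) 
(.lf (nat_lit 133028) (.g (nat_lit 3810) (.e (nat_lit 16417) (nat_lit 3) (.e (nat_lit 204869) (nat_lit 29) (.e (nat_lit 360474) (nat_lit 8) (.e (nat_lit 557094) (nat_lit 12) (.e (nat_lit 164022) (nat_lit 46) (.e (nat_lit 704736) (nat_lit 11) .nil)))))) (.g (nat_lit 6) .nil .nil))) 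
(.lf (nat_lit 133092) (.g (nat_lit 2051) (.e (nat_lit 16424) (nat_lit 7) (.e (nat_lit 409645) (nat_lit 18) (.e (nat_lit 303143) (nat_lit 12) (.e (nat_lit 475220) (nat_lit 44) (.e (nat_lit 737306) (nat_lit 11) (.e (nat_lit 751) (nat_lit 66) (.e (nat_lit 704736) (nat_lit 11) .nil))))))) (.g (nat_lit 4) .nil .nil))))) (.nd (nat_lit 5) (.nd (nat_lit 6) 
(.lf (nat_lit 133012) (.g (nat_lit 3965) (.e (nat_lit 16417) (nat_lit 3) (.e (nat_lit 204869) (nat_lit 29) (.e (nat_lit 360474) (nat_lit 8) (.e (nat_lit 557092) (nat_lit 12) .nil)))) .nil)) 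
(.lf (nat_lit 133076) (.g (nat_lit 1028) (.e (nat_lit 16423) (nat_lit 6) (.e (nat_lit 253990) (nat_lit 11) (.e (nat_lit 24320) (nat_lit 17) (.e (nat_lit 90172) (nat_lit 14) (.e (nat_lit 188160) (nat_lit 34) .nil))))) (.g (nat_lit 4) .nil .nil)))) (.nd (nat_lit 6) 
(.lf (nat_lit 133044) (.g (nat_lit 4335) (.e (nat_lit 16417) (nat_lit 3) (.e (nat_lit 204869) (nat_lit 29) (.e (nat_lit 360475) (nat_lit 8) (.e (nat_lit 557094) (nat_lit 12) .nil)))) .nil)) 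
(.lf (nat_lit 133108) (.g (nat_lit 2699) (.e (nat_lit 16425) (nat_lit 7) (.e (nat_lit 409616) (nat_lit 10) (.e (nat_lit 7936) (nat_lit 43) (.e (nat_lit 516166) (nat_lit 12) (.e (nat_lit 450563) (nat_lit 0) (.e (nat_lit 4212) (nat_lit 251) (.e (nat_lit 1128) (nat_lit 83) .nil))))))) (.g (nat_lit 5) .nil .nil)))))) (.nd (nat_lit 4) (.nd (nat_lit 5) (.nd (nat_lit 6) 
(.lf (nat_lit 133004) (.g (nat_lit 2410) (.e (nat_lit 16417) (nat_lit 3) (.e (nat_lit 204869) (nat_lit 29) (.e (nat_lit 360474) (nat_lit 8) (.e (nat_lit 557091) (nat_lit 12) (.e (nat_lit 163842) (nat_lit 0) (.e (nat_lit 6536) (nat_lit 351) (.e (nat_lit 1127) (nat_lit 83) .nil))))))) (.g (nat_lit 4) .nil .nil))) 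
(.lf (nat_lit 133068) (.g (nat_lit 4401) (.e (nat_lit 24320) (nat_lit 3) (.e (nat_lit 204869) (nat_lit 29) (.e (nat_lit 360475) (nat_lit 8) (.e (nat_lit 557093) (nat_lit 12) .nil)))) .nil))) (.nd (nat_lit 6) 
(.lf (nat_lit 133036) (.g (nat_lit 2225) (.e (nat_lit 16417) (nat_lit 3) (.e (nat_lit 204869) (nat_lit 29) (.e (nat_lit 360475) (nat_lit 8) (.e (nat_lit 557091) (nat_lit 12) .nil)))) .nil)) 
(.lf (nat_lit 133100) (.g (nat_lit 1989) (.e (nat_lit 16424) (nat_lit 7) (.e (nat_lit 409648) (nat_lit 18) (.e (nat_lit 303137) (nat_lit 10) (.e (nat_lit 434275) (nat_lit 39) (.e (nat_lit 663580) (nat_lit 9) .nil))))) .nil)))) (.nd (nat_lit 5) (.nd (nat_lit 6) 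
(.lf (nat_lit 133020) (.g (nat_lit 4492) (.e (nat_lit 16417) (nat_lit 3) (.e (nat_lit 204869) (nat_lit 29) (.e (nat_lit 360474) (nat_lit 8) (.e (nat_lit 557093) (nat_lit 12) (.e (nat_lit 164023) (nat_lit 46) (.e (nat_lit 704735) (nat_lit 11) .nil)))))) (.g (nat_lit 6) .nil .nil))) 
(.lf (nat_lit 133084) (.g (nat_lit 3063) (.e (nat_lit 16424) (nat_lit 7) (.e (nat_lit 409645) (nat_lit 18) (.e (nat_lit 303143) (nat_lit 12) (.e (nat_lit 475214) (nat_lit 42) (.e (nat_lit 720949) (nat_lit 24) .nil))))) .nil))) (.nd (nat_lit 6) 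
(.lf (nat_lit 133052) (.g (nat_lit 2240) (.e (nat_lit 16417) (nat_lit 3) (.e (nat_lit 204877) (nat_lit 31) (.e (nat_lit 376835) (nat_lit 0) (.e (nat_lit 3253) (nat_lit 197) (.e (nat_lit 532511) (nat_lit 2) (.e (nat_lit 106536) (nat_lit 11) .nil)))))) (.g (nat_lit 0) .nil .nil))) 
(.lf (nat_lit 133116) (.g (nat_lit 2342) (.e (nat_lit 16425) (nat_lit 7) (.e (nat_lit 409632) (nat_lit 13) (.e (nat_lit 40963) (nat_lit 0) (.e (nat_lit 1454) (nat_lit 108) (.e (nat_lit 336099) (nat_lit 9) (.e (nat_lit 336013) (nat_lit 2) (.e (nat_lit 98048) (nat_lit 2) .nil))))))) (.g (nat_lit 6) .nil .nil)))))))) 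
(.nd (nat_lit 2) (.nd (nat_lit 3) (.nd (nat_lit 4) (.nd (nat_lit 5) (.nd (nat_lit 6) 
(.lf (nat_lit 132994) (.g (nat_lit 1154) (.e (nat_lit 16417) (nat_lit 3) (.e (nat_lit 204869) (nat_lit 29) (.e (nat_lit 360455) (nat_lit 0) .nil))) .nil)) 
(.lf (nat_lit 133058) (.g (nat_lit 1111) (.e (nat_lit 24320) (nat_lit 3) (.e (nat_lit 204868) (nat_lit 29) (.e (nat_lit 360473) (nat_lit 8) (.e (nat_lit 557094) (nat_lit 12) .nil)))) .nil))) (.nd (nat_lit 6) 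
(.lf (nat_lit 133026) (.g (nat_lit 3200) (.e (nat_lit 16417) (nat_lit 3) (.e (nat_lit 204869) (nat_lit 29) (.e (nat_lit 360474) (nat_lit 8) (.e (nat_lit 557094) (nat_lit 12) (.e (nat_lit 164022) (nat_lit 46) (.e (nat_lit 704732) (nat_lit 11) .nil)))))) (.g (nat_lit 5) .nil .nil))) 
(.lf (nat_lit 133090) (.g (nat_lit 2073) (.e (nat_lit 16424) (nat_lit 7) (.e (nat_lit 409645) (nat_lit 18) (.e (nat_lit 303143) (nat_lit 12) (.e (nat_lit 475220) (nat_lit 44) (.e (nat_lit 737304) (nat_lit 11) .nil))))) .nil)))) (.nd (nat_lit 5) (.nd (nat_lit 6) 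
(.lf (nat_lit 133010) (.g (nat_lit 4228) (.e (nat_lit 16417) (nat_lit 3) (.e (nat_lit 204869) (nat_lit 29) (.e (nat_lit 360474) (nat_lit 8) (.e (nat_lit 557091) (nat_lit 12) (.e (nat_lit 164022) (nat_lit 46) (.e (nat_lit 704737) (nat_lit 11) .nil)))))) (.g (nat_lit 6) .nil .nil))) 
(.lf (nat_lit 133074) (.g (nat_lit 1759) (.e (nat_lit 16423) (nat_lit 6) (.e (nat_lit 253990) (nat_lit 11) (.e (nat_lit 16388) (nat_lit 0) (.e (nat_lit 3276) (nat_lit 200) (.e (nat_lit 557103) (nat_lit 14) (.e (nat_lit 188160) (nat_lit 34) .nil)))))) (.g (nat_lit 4) .nil .nil)))) (.nd (nat_lit 6) 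
(.lf (nat_lit 133042) (.g (nat_lit 4605) (.e (nat_lit 16417) (nat_lit 3) (.e (nat_lit 204869) (nat_lit 29) (.e (nat_lit 360475) (nat_lit 8) (.e (nat_lit 557092) (nat_lit 12) .nil)))) .nil)) 
(.lf (nat_lit 133106) (.g (nat_lit 332) (.e (nat_lit 16425) (nat_lit 7) (.e (nat_lit 409616) (nat_lit 10) (.e (nat_lit 7936) (nat_lit 43) .nil))) .nil))))) (.nd (nat_lit 4) (.nd (nat_lit 5) (.nd (nat_lit 6) 
(.lf (nat_lit 133002) (.g (nat_lit 2386) (.e (nat_lit 16417) (nat_lit 3) (.e (nat_lit 204869) (nat_lit 29) (.e (nat_lit 360474) (nat_lit 8) (.e (nat_lit 557091) (nat_lit 12) (.e (nat_lit 163842) (nat_lit 0) .nil))))) .nil)) 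
(.lf (nat_lit 133066) (.g (nat_lit 3113) (.e (nat_lit 24320) (nat_lit 3) (.e (nat_lit 204869) (nat_lit 29) (.e (nat_lit 360475) (nat_lit 8) (.e (nat_lit 557070) (nat_lit 9) .nil)))) .nil))) (.nd (nat_lit 6) 
(.lf (nat_lit 133034) (.g (nat_lit 2267) (.e (nat_lit 16417) (nat_lit 3) (.e (nat_lit 204869) (nat_lit 29) (.e (nat_lit 360475) (nat_lit 8) (.e (nat_lit 557089) (nat_lit 12) .nil)))) .nil)) 
(.lf (nat_lit 133098) (.g (nat_lit 519) (.e (nat_lit 16424) (nat_lit 7) (.e (nat_lit 409648) (nat_lit 18) (.e (nat_lit 303137) (nat_lit 10) .nil))) .nil)))) (.nd (nat_lit 5) (.nd (nat_lit 6) 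
(.lf (nat_lit 133018) (.g (nat_lit 4579) (.e (nat_lit 16417) (nat_lit 3) (.e (nat_lit 204869) (nat_lit 29) (.e (nat_lit 360474) (nat_lit 8) (.e (nat_lit 557093) (nat_lit 12) (.e (nat_lit 164022) (nat_lit 46) (.e (nat_lit 704737) (nat_lit 11) .nil)))))) (.g (nat_lit 0) .nil .nil))) 
(.lf (nat_lit 133082) (.g (nat_lit 1698) (.e (nat_lit 16424) (nat_lit 7) (.e (nat_lit 409645) (nat_lit 18) (.e (nat_lit 303143) (nat_lit 12) (.e (nat_lit 475195) (nat_lit 40) .nil)))) .nil))) (.nd (nat_lit 6) 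
(.lf (nat_lit 133050) (.g (nat_lit 2177) (.e (nat_lit 16417) (nat_lit 3) (.e (nat_lit 204876) (nat_lit 31) (.e (nat_lit 376835) (nat_lit 0) (.e (nat_lit 3253) (nat_lit 197) (.e (nat_lit 532511) (nat_lit 2) (.e (nat_lit 106536) (nat_lit 11) .nil)))))) (.g (nat_lit 0) .nil .nil))) 
(.lf (nat_lit 133114) (.g (nat_lit 891) (.e (nat_lit 16425) (nat_lit 7) (.e (nat_lit 409617) (nat_lit 10) (.e (nat_lit 932) (nat_lit 76) (.e (nat_lit 786467) (nat_lit 27) .nil)))) .nil)))))) (.nd (nat_lit 3) (.nd (nat_lit 4) (.nd (nat_lit 5) (.nd (nat_lit 6) 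
(.lf (nat_lit 132998) (.g (nat_lit 3351) (.e (nat_lit 16417) (nat_lit 3) (.e (nat_lit 204869) (nat_lit 29) (.e (nat_lit 360474) (nat_lit 8) (.e (nat_lit 557073) (nat_lit 9) .nil)))) .nil)) 
(.lf (nat_lit 133062) (.g (nat_lit 3794) (.e (nat_lit 24320) (nat_lit 3) (.e (nat_lit 204869) (nat_lit 29) (.e (nat_lit 360474) (nat_lit 8) (.e (nat_lit 557091) (nat_lit 12) (.e (nat_lit 164022) (nat_lit 46) .nil))))) .nil))) (.nd (nat_lit 6) 
(.lf (nat_lit 133030) (.g (nat_lit 4333) (.e (nat_lit 16417) (nat_lit 3) (.e (nat_lit 204869) (nat_lit 29) (.e (nat_lit 360475) (nat_lit 8) (.e (nat_lit 557068) (nat_lit 9) (.e (nat_lit 2739) (nat_lit 174) .nil))))) .nil)) 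
(.lf (nat_lit 133094) (.g (nat_lit 1966) (.e (nat_lit 16424) (nat_lit 7) (.e (nat_lit 409646) (nat_lit 18) (.e (nat_lit 303133) (nat_lit 9) (.e (nat_lit 433920) (nat_lit 20) .nil)))) .nil)))) (.nd (nat_lit 5) (.nd (nat_lit 6) 
(.lf (nat_lit 133014) (.g (nat_lit 2844) (.e (nat_lit 16417) (nat_lit 3) (.e (nat_lit 204869) (nat_lit 29) (.e (nat_lit 360474) (nat_lit 8) (.e (nat_lit 557093) (nat_lit 12) (.e (nat_lit 164021) (nat_lit 46) (.e (nat_lit 704741) (nat_lit 11) .nil)))))) (.g (nat_lit 4) .nil .nil))) 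
(.lf (nat_lit 133078) (.g (nat_lit 1940) (.e (nat_lit 16423) (nat_lit 6) (.e (nat_lit 253992) (nat_lit 11) (.e (nat_lit 16392) (nat_lit 0) (.e (nat_lit 3277) (nat_lit 200) .nil)))) .nil))) (.nd (nat_lit 6) 
(.lf (nat_lit 133046) (.g (nat_lit 884) (.e (nat_lit 16417) (nat_lit 3) (.e (nat_lit 204869) (nat_lit 29) (.e (nat_lit 360477) (nat_lit 11) .nil))) .nil)) 
(.lf (nat_lit 133110) (.g (nat_lit 650) (.e (nat_lit 16425) (nat_lit 7) (.e (nat_lit 409616) (nat_lit 10) (.e (nat_lit 926) (nat_lit 75) .nil))) .nil))))) (.nd (nat_lit 4) (.nd (nat_lit 5) (.nd (nat_lit 6) 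
(.lf (nat_lit 133006) (.g (nat_lit 2676) (.e (nat_lit 16417) (nat_lit 3) (.e (nat_lit 204869) (nat_lit 29) (.e (nat_lit 360474) (nat_lit 8) (.e (nat_lit 557091) (nat_lit 12) (.e (nat_lit 163842) (nat_lit 0) (.e (nat_lit 6573) (nat_lit 351) (.e (nat_lit 1125) (nat_lit 83) .nil))))))) (.g (nat_lit 4) .nil .nil))) 
(.lf (nat_lit 133070) (.g (nat_lit 1307) (.e (nat_lit 16418) (nat_lit 4) (.e (nat_lit 229707) (nat_lit 256) (.e (nat_lit 57411) (nat_lit 12) (.e (nat_lit 336443) (nat_lit 32) .nil)))) .nil))) (.nd (nat_lit 6) 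
(.lf (nat_lit 133038) (.g (nat_lit 4559) (.e (nat_lit 16417) (nat_lit 3) (.e (nat_lit 204869) (nat_lit 29) (.e (nat_lit 360475) (nat_lit 8) (.e (nat_lit 557091) (nat_lit 12) (.e (nat_lit 164022) (nat_lit 46) (.e (nat_lit 704735) (nat_lit 11) .nil)))))) (.g (nat_lit 6) .nil .nil))) 
(.lf (nat_lit 133102) (.g (nat_lit 961) (.e (nat_lit 16425) (nat_lit 7) (.e (nat_lit 409602) (nat_lit 0) (.e (nat_lit 577) (nat_lit 43) .nil))) .nil)))) (.nd (nat_lit 5) (.nd (nat_lit 6) 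
(.lf (nat_lit 133022) (.g (nat_lit 4892) (.e (nat_lit 16417) (nat_lit 3) (.e (nat_lit 204869) (nat_lit 29) (.e (nat_lit 360474) (nat_lit 8) (.e (nat_lit 557093) (nat_lit 12) (.e (nat_lit 164023) (nat_lit 46) (.e (nat_lit 704737) (nat_lit 11) .nil)))))) (.g (nat_lit 6) .nil .nil))) 
(.lf (nat_lit 133086) (.g (nat_lit 1405) (.e (nat_lit 16424) (nat_lit 7) (.e (nat_lit 409645) (nat_lit 18) (.e (nat_lit 303143) (nat_lit 12) (.e (nat_lit 475218) (nat_lit 44) .nil)))) .nil))) (.nd (nat_lit 6) 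
(.lf (nat_lit 133054) (.g (nat_lit 1763) (.e (nat_lit 24320) (nat_lit 3) (.e (nat_lit 204855) (nat_lit 26) (.e (nat_lit 336176) (nat_lit 10) (.e (nat_lit 344132) (nat_lit 26) (.e (nat_lit 557093) (nat_lit 12) .nil))))) .nil)) 
(.lf (nat_lit 133118) (.g (nat_lit 1728) (.e (nat_lit 16425) (nat_lit 7) (.e (nat_lit 409632) (nat_lit 13) (.e (nat_lit 48896) (nat_lit 4) (.e (nat_lit 65598) (nat_lit 9) (.e (nat_lit 336013) (nat_lit 2) (.e (nat_lit 98048) (nat_lit 2) .nil)))))) (.g (nat_lit 5) .nil .nil))))))))) (.nd (nat_lit 1) (.nd (nat_lit 2) (.nd (nat_lit 3) (.nd (nat_lit 4) (.nd (nat_lit 5) (.nd (nat_lit 6) 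
(.lf (nat_lit 132993) (.g (nat_lit 2660) (.e (nat_lit 16417) (nat_lit 3) (.e (nat_lit 204869) (nat_lit 29) (.e (nat_lit 360451) (nat_lit 0) (.e (nat_lit 7936) (nat_lit 253) .nil)))) .nil)) 
(.lf (nat_lit 133057) (.g (nat_lit 1809) (.e (nat_lit 24320) (nat_lit 3) (.e (nat_lit 204868) (nat_lit 29) (.e (nat_lit 360473) (nat_lit 8) (.e (nat_lit 557093) (nat_lit 12) (.e (nat_lit 164023) (nat_lit 46) .nil))))) .nil))) (.nd (nat_lit 6) 
(.lf (nat_lit 133025) (.g (nat_lit 1983) (.e (nat_lit 16417) (nat_lit 3) (.e (nat_lit 204869) (nat_lit 29) (.e (nat_lit 360474) (nat_lit 8) (.e (nat_lit 557094) (nat_lit 12) .nil)))) .nil)) 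
(.lf (nat_lit 133089) (.g (nat_lit 1299) (.e (nat_lit 16424) (nat_lit 7) (.e (nat_lit 409645) (nat_lit 18) (.e (nat_lit 303143) (nat_lit 12) (.e (nat_lit 475220) (nat_lit 44) .nil)))) .nil)))) (.nd (nat_lit 5) (.nd (nat_lit 6) 
(.lf (nat_lit 133009) (.g (nat_lit 3764) (.e (nat_lit 16417) (nat_lit 3) (.e (nat_lit 204869) (nat_lit 29) (.e (nat_lit 360474) (nat_lit 8) (.e (nat_lit 557091) (nat_lit 12) (.e (nat_lit 164022) (nat_lit 46) (.e (nat_lit 704736) (nat_lit 11) .nil)))))) (.g (nat_lit 6) .nil .nil))) 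
(.lf (nat_lit 133073) (.g (nat_lit 1076) (.e (nat_lit 16423) (nat_lit 6) (.e (nat_lit 253990) (nat_lit 11) (.e (nat_lit 16388) (nat_lit 0) (.e (nat_lit 3275) (nat_lit 200) .nil)))) .nil))) (.nd (nat_lit 6) 
(.lf (nat_lit 133041) (.g (nat_lit 3933) (.e (nat_lit 16417) (nat_lit 3) (.e (nat_lit 204869) (nat_lit 29) (.e (nat_lit 360475) (nat_lit 8) (.e (nat_lit 557091) (nat_lit 12) (.e (nat_lit 164022) (nat_lit 46) (.e (nat_lit 712448) (nat_lit 11) .nil)))))) (.g (nat_lit 5) .nil .nil))) 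
(.lf (nat_lit 133105) (.g (nat_lit 861) (.e (nat_lit 16425) (nat_lit 7) (.e (nat_lit 409612) (nat_lit 10) (.e (nat_lit 934) (nat_lit 76) (.e (nat_lit 786470) (nat_lit 27) .nil)))) .nil))))) (.nd (nat_lit 4) (.nd (nat_lit 5) (.nd (nat_lit 6) 
(.lf (nat_lit 133001) (.g (nat_lit 2523) (.e (nat_lit 16417) (nat_lit 3) (.e (nat_lit 204869) (nat_lit 29) (.e (nat_lit 360474) (nat_lit 8) (.e (nat_lit 557091) (nat_lit 12) (.e (nat_lit 163841) (nat_lit 0) .nil))))) .nil)) 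
(.lf (nat_lit 133065) (.g (nat_lit 1987) (.e (nat_lit 24320) (nat_lit 3) (.e (nat_lit 204869) (nat_lit 29) (.e (nat_lit 360474) (nat_lit 8) (.e (nat_lit 557094) (nat_lit 12) (.e (nat_lit 164022) (nat_lit 46) .nil))))) .nil))) (.nd (nat_lit 6) 
(.lf (nat_lit 133033) (.g (nat_lit 3633) (.e (nat_lit 16417) (nat_lit 3) (.e (nat_lit 204869) (nat_lit 29) (.e (nat_lit 360475) (nat_lit 8) (.e (nat_lit 557073) (nat_lit 9) .nil)))) .nil)) 
(.lf (nat_lit 133097) (.g (nat_lit 1924) (.e (nat_lit 16424) (nat_lit 7) (.e (nat_lit 409646) (nat_lit 18) (.e (nat_lit 303143) (nat_lit 12) (.e (nat_lit 475220) (nat_lit 44) .nil)))) .nil)))) (.nd (nat_lit 5) (.nd (nat_lit 6) 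
(.lf (nat_lit 133017) (.g (nat_lit 4104) (.e (nat_lit 16417) (nat_lit 3) (.e (nat_lit 204869) (nat_lit 29) (.e (nat_lit 360474) (nat_lit 8) (.e (nat_lit 557093) (nat_lit 12) (.e (nat_lit 164022) (nat_lit 46) (.e (nat_lit 704736) (nat_lit 11) .nil)))))) (.g (nat_lit 6) .nil .nil))) 
(.lf (nat_lit 133081) (.g (nat_lit 821) (.e (nat_lit 16424) (nat_lit 7) (.e (nat_lit 409612) (nat_lit 10) (.e (nat_lit 934) (nat_lit 76) (.e (nat_lit 786480) (nat_lit 29) .nil)))) .nil))) (.nd (nat_lit 6) 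
(.lf (nat_lit 133049) (.g (nat_lit 2112) (.e (nat_lit 16417) (nat_lit 3) (.e (nat_lit 204876) (nat_lit 31) (.e (nat_lit 376835) (nat_lit 0) (.e (nat_lit 3253) (nat_lit 197) (.e (nat_lit 532510) (nat_lit 2) (.e (nat_lit 106536) (nat_lit 11) .nil)))))) (.g (nat_lit 0) .nil .nil))) 
(.lf (nat_lit 133113) (.g (nat_lit 2300) (.e (nat_lit 16425) (nat_lit 7) (.e (nat_lit 409617) (nat_lit 10) (.e (nat_lit 632) (nat_lit 50) (.e (nat_lit 573493) (nat_lit 15) (.e (nat_lit 89856) (nat_lit 6) .nil))))) .nil)))))) (.nd (nat_lit 3) (.nd (nat_lit 4) (.nd (nat_lit 5) (.nd (nat_lit 6) 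
(.lf (nat_lit 132997) (.g (nat_lit 1744) (.e (nat_lit 16417) (nat_lit 3) (.e (nat_lit 204869) (nat_lit 29) (.e (nat_lit 360473) (nat_lit 8) (.e (nat_lit 557093) (nat_lit 12) .nil)))) .nil)) 
(.lf (nat_lit 133061) (.g (nat_lit 2530) (.e (nat_lit 24320) (nat_lit 3) (.e (nat_lit 204869) (nat_lit 29) (.e (nat_lit 360474) (nat_lit 8) (.e (nat_lit 557070) (nat_lit 9) .nil)))) .nil))) (.nd (nat_lit 6) 
(.lf (nat_lit 133029) (.g (nat_lit 4283) (.e (nat_lit 16417) (nat_lit 3) (.e (nat_lit 204869) (nat_lit 29) (.e (nat_lit 360474) (nat_lit 8) (.e (nat_lit 557094) (nat_lit 12) (.e (nat_lit 164022) (nat_lit 46) (.e (nat_lit 704737) (nat_lit 11) .nil)))))) (.g (nat_lit 0) .nil .nil))) 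
(.lf (nat_lit 133093) (.g (nat_lit 2028) (.e (nat_lit 16424) (nat_lit 7) (.e (nat_lit 409645) (nat_lit 18) (.e (nat_lit 303143) (nat_lit 12) (.e (nat_lit 475220) (nat_lit 44) (.e (nat_lit 737311) (nat_lit 11) .nil))))) .nil)))) (.nd (nat_lit 5) (.nd (nat_lit 6) 
(.lf (nat_lit 133013) (.g (nat_lit 2026) (.e (nat_lit 16417) (nat_lit 3) (.e (nat_lit 204869) (nat_lit 29) (.e (nat_lit 360474) (nat_lit 8) (.e (nat_lit 557093) (nat_lit 12) .nil)))) .nil)) 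
(.lf (nat_lit 133077) (.g (nat_lit 1757) (.e (nat_lit 16423) (nat_lit 6) (.e (nat_lit 253991) (nat_lit 11) (.e (nat_lit 24320) (nat_lit 17) (.e (nat_lit 90172) (nat_lit 14) (.e (nat_lit 188160) (nat_lit 34) .nil))))) (.g (nat_lit 4) .nil .nil)))) (.nd (nat_lit 6) 
(.lf (nat_lit 133045) (.g (nat_lit 834) (.e (nat_lit 16417) (nat_lit 3) (.e (nat_lit 204869) (nat_lit 29) (.e (nat_lit 368384) (nat_lit 10) .nil))) .nil)) 
(.lf (nat_lit 133109) (.g (nat_lit 2782) (.e (nat_lit 16425) (nat_lit 7) (.e (nat_lit 409616) (nat_lit 10) (.e (nat_lit 858) (nat_lit 75) (.e (nat_lit 778321) (nat_lit 4) (.e (nat_lit 65598) (nat_lit 9) (.e (nat_lit 336013) (nat_lit 2) (.e (nat_lit 98048) (nat_lit 2) .nil))))))) (.g (nat_lit 6) .nil .nil)))))) (.nd (nat_lit 4) (.nd (nat_lit 5) (.nd (nat_lit 6) 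
(.lf (nat_lit 133005) (.g (nat_lit 2420) (.e (nat_lit 16417) (nat_lit 3) (.e (nat_lit 204869) (nat_lit 29) (.e (nat_lit 360474) (nat_lit 8) (.e (nat_lit 557091) (nat_lit 12) (.e (nat_lit 163842) (nat_lit 0) (.e (nat_lit 6538) (nat_lit 351) (.e (nat_lit 1127) (nat_lit 83) .nil))))))) (.g (nat_lit 4) .nil .nil))) 
(.lf (nat_lit 133069) (.g (nat_lit 3849) (.e (nat_lit 24320) (nat_lit 3) (.e (nat_lit 204869) (nat_lit 29) (.e (nat_lit 360475) (nat_lit 8) (.e (nat_lit 557094) (nat_lit 12) .nil)))) .nil))) (.nd (nat_lit 6) 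
(.lf (nat_lit 133037) (.g (nat_lit 4177) (.e (nat_lit 16417) (nat_lit 3) (.e (nat_lit 204869) (nat_lit 29) (.e (nat_lit 360475) (nat_lit 8) (.e (nat_lit 557091) (nat_lit 12) (.e (nat_lit 164022) (nat_lit 46) (.e (nat_lit 704732) (nat_lit 11) .nil)))))) (.g (nat_lit 5) .nil .nil))) 
(.lf (nat_lit 133101) (.g (nat_lit 612) (.e (nat_lit 16424) (nat_lit 7) (.e (nat_lit 409649) (nat_lit 18) (.e (nat_lit 303140) (nat_lit 10) .nil))) .nil)))) (.nd (nat_lit 5) (.nd (nat_lit 6) 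
(.lf (nat_lit 133021) (.g (nat_lit 3017) (.e (nat_lit 16417) (nat_lit 3) (.e (nat_lit 204869) (nat_lit 29) (.e (nat_lit 360474) (nat_lit 8) (.e (nat_lit 557093) (nat_lit 12) (.e (nat_lit 164023) (nat_lit 46) (.e (nat_lit 704736) (nat_lit 11) .nil)))))) (.g (nat_lit 4) .nil .nil))) 
(.lf (nat_lit 133085) (.g (nat_lit 1543) (.e (nat_lit 16424) (nat_lit 7) (.e (nat_lit 409645) (nat_lit 18) (.e (nat_lit 303143) (nat_lit 12) (.e (nat_lit 475216) (nat_lit 44) .nil)))) .nil))) (.nd (nat_lit 6) 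
(.lf (nat_lit 133053) (.g (nat_lit 1628) (.e (nat_lit 16417) (nat_lit 3) (.e (nat_lit 204883) (nat_lit 33) (.e (nat_lit 401454) (nat_lit 12) (.e (nat_lit 475179) (nat_lit 24) .nil)))) .nil)) 
(.lf (nat_lit 133117) (.g (nat_lit 2469) (.e (nat_lit 16425) (nat_lit 7) (.e (nat_lit 409632) (nat_lit 13) (.e (nat_lit 40964) (nat_lit 0) (.e (nat_lit 1454) (nat_lit 108) (.e (nat_lit 336099) (nat_lit 9) (.e (nat_lit 336013) (nat_lit 2) (.e (nat_lit 98048) (nat_lit 2) .nil))))))) (.g (nat_lit 6) .nil .nil)))))))) 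
(.nd (nat_lit 2) (.nd (nat_lit 3) (.nd (nat_lit 4) (.nd (nat_lit 5) (.nd (nat_lit 6) 
(.lf (nat_lit 132995) (.g (nat_lit 834) (.e (nat_lit 16417) (nat_lit 3) (.e (nat_lit 204869) (nat_lit 29) (.e (nat_lit 368384) (nat_lit 5) .nil))) .nil)) 
(.lf (nat_lit 133059) (.g (nat_lit 3152) (.e (nat_lit 24320) (nat_lit 3) (.e (nat_lit 204868) (nat_lit 29) (.e (nat_lit 360475) (nat_lit 8) (.e (nat_lit 557091) (nat_lit 12) (.e (nat_lit 164022) (nat_lit 46) .nil))))) .nil))) (.nd (nat_lit 6) 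
(.lf (nat_lit 133027) (.g (nat_lit 3595) (.e (nat_lit 16417) (nat_lit 3) (.e (nat_lit 204869) (nat_lit 29) (.e (nat_lit 360474) (nat_lit 8) (.e (nat_lit 557094) (nat_lit 12) (.e (nat_lit 164022) (nat_lit 46) (.e (nat_lit 704735) (nat_lit 11) .nil)))))) (.g (nat_lit 6) .nil .nil))) 
(.lf (nat_lit 133091) (.g (nat_lit 2007) (.e (nat_lit 16424) (nat_lit 7) (.e (nat_lit 409645) (nat_lit 18) (.e (nat_lit 303143) (nat_lit 12) (.e (nat_lit 475220) (nat_lit 44) (.e (nat_lit 737305) (nat_lit 11) (.e (nat_lit 752) (nat_lit 66) (.e (nat_lit 704736) (nat_lit 11) .nil))))))) (.g (nat_lit 4) .nil .nil))))) (.nd (nat_lit 5) (.nd (nat_lit 6) 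
(.lf (nat_lit 133011) (.g (nat_lit 2518) (.e (nat_lit 16417) (nat_lit 3) (.e (nat_lit 204869) (nat_lit 29) (.e (nat_lit 360474) (nat_lit 8) (.e (nat_lit 557091) (nat_lit 12) (.e (nat_lit 171776) (nat_lit 46) .nil))))) .nil)) 
(.lf (nat_lit 133075) (.g (nat_lit 1151) (.e (nat_lit 16423) (nat_lit 6) (.e (nat_lit 253990) (nat_lit 11) (.e (nat_lit 16388) (nat_lit 0) (.e (nat_lit 3280) (nat_lit 200) .nil)))) .nil))) (.nd (nat_lit 6) 
(.lf (nat_lit 133043) (.g (nat_lit 4525) (.e (nat_lit 16417) (nat_lit 3) (.e (nat_lit 204869) (nat_lit 29) (.e (nat_lit 360475) (nat_lit 8) (.e (nat_lit 557093) (nat_lit 12) .nil)))) .nil)) 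
(.lf (nat_lit 133107) (.g (nat_lit 2560) (.e (nat_lit 16425) (nat_lit 7) (.e (nat_lit 409616) (nat_lit 10) (.e (nat_lit 7936) (nat_lit 43) (.e (nat_lit 516166) (nat_lit 12) (.e (nat_lit 450562) (nat_lit 0) (.e (nat_lit 4168) (nat_lit 251) (.e (nat_lit 1128) (nat_lit 83) .nil))))))) (.g (nat_lit 5) .nil .nil)))))) (.nd (nat_lit 4) (.nd (nat_lit 5) (.nd (nat_lit 6) 
(.lf (nat_lit 133003) (.g (nat_lit 2387) (.e (nat_lit 16417) (nat_lit 3) (.e (nat_lit 204869) (nat_lit 29) (.e (nat_lit 360474) (nat_lit 8) (.e (nat_lit 557091) (nat_lit 12) (.e (nat_lit 163842) (nat_lit 0) (.e (nat_lit 6535) (nat_lit 351) (.e (nat_lit 1124) (nat_lit 83) .nil))))))) (.g (nat_lit 4) .nil .nil))) 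
(.lf (nat_lit 133067) (.g (nat_lit 3214) (.e (nat_lit 24320) (nat_lit 3) (.e (nat_lit 204869) (nat_lit 29) (.e (nat_lit 360475) (nat_lit 8) (.e (nat_lit 557091) (nat_lit 12) (.e (nat_lit 164022) (nat_lit 46) .nil))))) .nil))) (.nd (nat_lit 6) 
(.lf (nat_lit 133035) (.g (nat_lit 4002) (.e (nat_lit 16417) (nat_lit 3) (.e (nat_lit 204869) (nat_lit 29) (.e (nat_lit 360475) (nat_lit 8) (.e (nat_lit 557090) (nat_lit 12) .nil)))) .nil)) 
(.lf (nat_lit 133099) (.g (nat_lit 1217) (.e (nat_lit 16424) (nat_lit 7) (.e (nat_lit 409648) (nat_lit 18) (.e (nat_lit 303137) (nat_lit 10) (.e (nat_lit 434275) (nat_lit 39) .nil)))) .nil)))) (.nd (nat_lit 5) (.nd (nat_lit 6) 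
(.lf (nat_lit 133019) (.g (nat_lit 4482) (.e (nat_lit 16417) (nat_lit 3) (.e (nat_lit 204869) (nat_lit 29) (.e (nat_lit 360474) (nat_lit 8) (.e (nat_lit 557093) (nat_lit 12) (.e (nat_lit 164023) (nat_lit 46) (.e (nat_lit 704732) (nat_lit 11) .nil)))))) (.g (nat_lit 6) .nil .nil))) 
(.lf (nat_lit 133083) (.g (nat_lit 2696) (.e (nat_lit 16424) (nat_lit 7) (.e (nat_lit 409645) (nat_lit 18) (.e (nat_lit 303143) (nat_lit 12) (.e (nat_lit 475214) (nat_lit 42) (.e (nat_lit 720948) (nat_lit 24) .nil))))) .nil))) (.nd (nat_lit 6) 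
(.lf (nat_lit 133051) (.g (nat_lit 2174) (.e (nat_lit 16417) (nat_lit 3) (.e (nat_lit 204877) (nat_lit 31) (.e (nat_lit 376835) (nat_lit 0) (.e (nat_lit 3253) (nat_lit 197) (.e (nat_lit 532510) (nat_lit 2) (.e (nat_lit 106536) (nat_lit 11) .nil)))))) (.g (nat_lit 0) .nil .nil))) 
(.lf (nat_lit 133115) (.g (nat_lit 572) (.e (nat_lit 16425) (nat_lit 7) (.e (nat_lit 409617) (nat_lit 10) (.e (nat_lit 5766) (nat_lit 316) .nil))) .nil)))))) (.nd (nat_lit 3) (.nd (nat_lit 4) (.nd (nat_lit 5) (.nd (nat_lit 6) 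
(.lf (nat_lit 132999) (.g (nat_lit 3826) (.e (nat_lit 16417) (nat_lit 3) (.e (nat_lit 204869) (nat_lit 29) (.e (nat_lit 360474) (nat_lit 8) (.e (nat_lit 557088) (nat_lit 12) .nil)))) .nil)) 
(.lf (nat_lit 133063) (.g (nat_lit 2186) (.e (nat_lit 24320) (nat_lit 3) (.e (nat_lit 204869) (nat_lit 29) (.e (nat_lit 360474) (nat_lit 8) (.e (nat_lit 557093) (nat_lit 12) (.e (nat_lit 164022) (nat_lit 46) .nil))))) .nil))) (.nd (nat_lit 6) 
(.lf (nat_lit 133031) (.g (nat_lit 4411) (.e (nat_lit 16417) (nat_lit 3) (.e (nat_lit 204869) (nat_lit 29) (.e (nat_lit 360475) (nat_lit 8) (.e (nat_lit 557068) (nat_lit 9) (.e (nat_lit 2743) (nat_lit 174) .nil))))) .nil)) 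
(.lf (nat_lit 133095) (.g (nat_lit 881) (.e (nat_lit 16424) (nat_lit 7) (.e (nat_lit 409646) (nat_lit 18) (.e (nat_lit 303140) (nat_lit 10) .nil))) .nil)))) (.nd (nat_lit 5) (.nd (nat_lit 6) 
(.lf (nat_lit 133015) (.g (nat_lit 3461) (.e (nat_lit 16417) (nat_lit 3) (.e (nat_lit 204869) (nat_lit 29) (.e (nat_lit 360474) (nat_lit 8) (.e (nat_lit 557093) (nat_lit 12) (.e (nat_lit 164022) (nat_lit 46) (.e (nat_lit 704732) (nat_lit 11) .nil)))))) (.g (nat_lit 5) .nil .nil))) 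
(.lf (nat_lit 133079) (.g (nat_lit 1741) (.e (nat_lit 16423) (nat_lit 6) (.e (nat_lit 253992) (nat_lit 11) (.e (nat_lit 24320) (nat_lit 17) (.e (nat_lit 90172) (nat_lit 14) (.e (nat_lit 188160) (nat_lit 34) .nil))))) (.g (nat_lit 4) .nil .nil)))) (.nd (nat_lit 6) 
(.lf (nat_lit 133047) (.g (nat_lit 1562) (.e (nat_lit 16417) (nat_lit 3) (.e (nat_lit 204869) (nat_lit 29) (.e (nat_lit 360477) (nat_lit 11) (.e (nat_lit 581659) (nat_lit 9) .nil)))) .nil)) 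
(.lf (nat_lit 133111) (.g (nat_lit 641) (.e (nat_lit 16425) (nat_lit 7) (.e (nat_lit 409616) (nat_lit 10) (.e (nat_lit 5766) (nat_lit 316) .nil))) .nil))))) (.nd (nat_lit 4) (.nd (nat_lit 5) (.nd (nat_lit 6) 
(.lf (nat_lit 133007) (.g (nat_lit 2500) (.e (nat_lit 16417) (nat_lit 3) (.e (nat_lit 204869) (nat_lit 29) (.e (nat_lit 360474) (nat_lit 8) (.e (nat_lit 557091) (nat_lit 12) (.e (nat_lit 163842) (nat_lit 0) (.e (nat_lit 6576) (nat_lit 351) (.e (nat_lit 1125) (nat_lit 83) .nil))))))) (.g (nat_lit 4) .nil .nil))) 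
(.lf (nat_lit 133071) (.g (nat_lit 1280) (.e (nat_lit 16422) (nat_lit 6) (.e (nat_lit 253991) (nat_lit 11) (.e (nat_lit 24320) (nat_lit 17) (.e (nat_lit 90172) (nat_lit 14) (.e (nat_lit 188160) (nat_lit 34) .nil))))) .nil))) (.nd (nat_lit 6) 
(.lf (nat_lit 133039) (.g (nat_lit 4739) (.e (nat_lit 16417) (nat_lit 3) (.e (nat_lit 204869) (nat_lit 29) (.e (nat_lit 360475) (nat_lit 8) (.e (nat_lit 557091) (nat_lit 12) (.e (nat_lit 164022) (nat_lit 46) (.e (nat_lit 704736) (nat_lit 11) .nil)))))) (.g (nat_lit 6) .nil .nil))) 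
(.lf (nat_lit 133103) (.g (nat_lit 834) (.e (nat_lit 16425) (nat_lit 7) (.e (nat_lit 409602) (nat_lit 0) (.e (nat_lit 595) (nat_lit 45) .nil))) .nil)))) (.nd (nat_lit 5) (.nd (nat_lit 6) 
(.lf (nat_lit 133023) (.g (nat_lit 3069) (.e (nat_lit 16417) (nat_lit 3) (.e (nat_lit 204869) (nat_lit 29) (.e (nat_lit 360474) (nat_lit 8) (.e (nat_lit 557093) (nat_lit 12) (.e (nat_lit 164023) (nat_lit 46) (.e (nat_lit 712448) (nat_lit 11) .nil)))))) (.g (nat_lit 4) .nil .nil))) 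
(.lf (nat_lit 133087) (.g (nat_lit 1679) (.e (nat_lit 16424) (nat_lit 7) (.e (nat_lit 409645) (nat_lit 18) (.e (nat_lit 303143) (nat_lit 12) (.e (nat_lit 475218) (nat_lit 44) (.e (nat_lit 737303) (nat_lit 11) .nil))))) .nil))) (.nd (nat_lit 6) 
(.lf (nat_lit 133055) (.g (nat_lit 1618) (.e (nat_lit 24320) (nat_lit 3) (.e (nat_lit 204855) (nat_lit 26) (.e (nat_lit 336176) (nat_lit 10) (.e (nat_lit 344132) (nat_lit 26) (.e (nat_lit 557094) (nat_lit 12) .nil))))) .nil)) 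
(.lf (nat_lit 133119) (.g (nat_lit 1660) (.e (nat_lit 16425) (nat_lit 7) (.e (nat_lit 409643) (nat_lit 18) (.e (nat_lit 303143) (nat_lit 12) (.e (nat_lit 475195) (nat_lit 40) (.e (nat_lit 704755) (nat_lit 12) .nil))))) .nil)))))))))

noncomputable def tv1775 : DT := (.nd (nat_lit 0) (.nd (nat_lit 1) (.nd (nat_lit 2) (.nd (nat_lit 3) (.nd (nat_lit 4) (.nd (nat_lit 5) (.nd (nat_lit 6) 
(.lf (nat_lit 133120) (.g (nat_lit 1139) (.e (nat_lit 16425) (nat_lit 7) (.e (nat_lit 409643) (nat_lit 18) (.e (nat_lit 303143) (nat_lit 12) (.e (nat_lit 475197) (nat_lit 40) .nil)))) .nil)) 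
(.lf (nat_lit 133184) (.g (nat_lit 2261) (.e (nat_lit 16425) (nat_lit 7) (.e (nat_lit 409646) (nat_lit 18) (.e (nat_lit 303143) (nat_lit 12) (.e (nat_lit 475212) (nat_lit 42) (.e (nat_lit 720916) (nat_lit 20) .nil))))) .nil))) (.nd (nat_lit 6) 
(.lf (nat_lit 133152) (.g (nat_lit 2197) (.e (nat_lit 16425) (nat_lit 7) (.e (nat_lit 409644) (nat_lit 18) (.e (nat_lit 303143) (nat_lit 12) (.e (nat_lit 475220) (nat_lit 44) (.e (nat_lit 737305) (nat_lit 11) (.e (nat_lit 753) (nat_lit 66) (.e (nat_lit 704736) (nat_lit 11) .nil))))))) (.g (nat_lit 4) .nil .nil))) 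
(.lf (nat_lit 133216) (.g (nat_lit 1064) (.e (nat_lit 16425) (nat_lit 7) (.e (nat_lit 409648) (nat_lit 18) (.e (nat_lit 303137) (nat_lit 10) (.e (nat_lit 434271) (nat_lit 38) .nil)))) .nil)))) (.nd (nat_lit 5) (.nd (nat_lit 6) 
(.lf (nat_lit 133136) (.g (nat_lit 2270) (.e (nat_lit 16425) (nat_lit 7) (.e (nat_lit 409643) (nat_lit 18) (.e (nat_lit 303143) (nat_lit 12) (.e (nat_lit 475220) (nat_lit 44) (.e (nat_lit 737305) (nat_lit 11) (.e (nat_lit 752) (nat_lit 66) (.e (nat_lit 704736) (nat_lit 11) .nil))))))) (.g (nat_lit 4) .nil .nil))) 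
(.lf (nat_lit 133200) (.g (nat_lit 363) (.e (nat_lit 16425) (nat_lit 7) (.e (nat_lit 409647) (nat_lit 18) (.e (nat_lit 303143) (nat_lit 12) .nil))) .nil))) (.nd (nat_lit 6) 
(.lf (nat_lit 133168) (.g (nat_lit 1265) (.e (nat_lit 16425) (nat_lit 7) (.e (nat_lit 409645) (nat_lit 18) (.e (nat_lit 303143) (nat_lit 12) (.e (nat_lit 475218) (nat_lit 44) .nil)))) .nil)) 
(.lf (nat_lit 133232) (.g (nat_lit 2732) (.e (nat_lit 16425) (nat_lit 7) (.e (nat_lit 409648) (nat_lit 18) (.e (nat_lit 303137) (nat_lit 10) (.e (nat_lit 434272) (nat_lit 38) (.e (nat_lit 663296) (nat_lit 17) (.e (nat_lit 164097) (nat_lit 107) (.e (nat_lit 704736) (nat_lit 11) .nil))))))) (.g (nat_lit 4) .nil .nil)))))) (.nd (nat_lit 4) (.nd (nat_lit 5) (.nd (nat_lit 6) 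
(.lf (nat_lit 133128) (.g (nat_lit 1894) (.e (nat_lit 16425) (nat_lit 7) (.e (nat_lit 409643) (nat_lit 18) (.e (nat_lit 303143) (nat_lit 12) (.e (nat_lit 475212) (nat_lit 42) (.e (nat_lit 720923) (nat_lit 20) .nil))))) .nil)) 
(.lf (nat_lit 133192) (.g (nat_lit 2510) (.e (nat_lit 16425) (nat_lit 7) (.e (nat_lit 409646) (nat_lit 18) (.e (nat_lit 303143) (nat_lit 12) (.e (nat_lit 475212) (nat_lit 42) (.e (nat_lit 720951) (nat_lit 24) (.e (nat_lit 106536) (nat_lit 11) .nil)))))) (.g (nat_lit 4) .nil .nil)))) (.nd (nat_lit 6) 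
(.lf (nat_lit 133160) (.g (nat_lit 1173) (.e (nat_lit 16425) (nat_lit 7) (.e (nat_lit 409645) (nat_lit 18) (.e (nat_lit 303143) (nat_lit 12) (.e (nat_lit 475199) (nat_lit 40) .nil)))) .nil)) 
(.lf (nat_lit 133224) (.g (nat_lit 2081) (.e (nat_lit 16425) (nat_lit 7) (.e (nat_lit 409648) (nat_lit 18) (.e (nat_lit 303137) (nat_lit 10) (.e (nat_lit 434272) (nat_lit 38) (.e (nat_lit 655396) (nat_lit 12) .nil))))) .nil)))) (.nd (nat_lit 5) (.nd (nat_lit 6) 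
(.lf (nat_lit 133144) (.g (nat_lit 986) (.e (nat_lit 16425) (nat_lit 7) (.e (nat_lit 409644) (nat_lit 18) (.e (nat_lit 303143) (nat_lit 12) (.e (nat_lit 475199) (nat_lit 40) .nil)))) .nil)) 
(.lf (nat_lit 133208) (.g (nat_lit 2714) (.e (nat_lit 16425) (nat_lit 7) (.e (nat_lit 409648) (nat_lit 18) (.e (nat_lit 303126) (nat_lit 9) (.e (nat_lit 426448) (nat_lit 20) (.e (nat_lit 114723) (nat_lit 24) (.e (nat_lit 106534) (nat_lit 11) .nil)))))) (.g (nat_lit 5) .nil .nil)))) (.nd (nat_lit 6) 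
(.lf (nat_lit 133176) (.g (nat_lit 2239) (.e (nat_lit 16425) (nat_lit 7) (.e (nat_lit 409646) (nat_lit 18) (.e (nat_lit 303143) (nat_lit 12) (.e (nat_lit 475198) (nat_lit 40) (.e (nat_lit 704836) (nat_lit 14) .nil))))) .nil)) 
(.lf (nat_lit 133240) (.g (nat_lit 2331) (.e (nat_lit 16425) (nat_lit 7) (.e (nat_lit 409648) (nat_lit 18) (.e (nat_lit 303137) (nat_lit 10) (.e (nat_lit 434275) (nat_lit 39) (.e (nat_lit 663585) (nat_lit 12) (.e (nat_lit 164023) (nat_lit 46) (.e (nat_lit 704735) (nat_lit 11) .nil))))))) (.g (nat_lit 4) .nil .nil))))))) (.nd (nat_lit 3) (.nd (nat_lit 4) (.nd (nat_lit 5) (.nd (nat_lit 6) 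
(.lf (nat_lit 133124) (.g (nat_lit 2502) (.e (nat_lit 16425) (nat_lit 7) (.e (nat_lit 409643) (nat_lit 18) (.e (nat_lit 303143) (nat_lit 12) (.e (nat_lit 475199) (nat_lit 40) (.e (nat_lit 704707) (nat_lit 9) .nil))))) .nil)) 
(.lf (nat_lit 133188) (.g (nat_lit 2716) (.e (nat_lit 16425) (nat_lit 7) (.e (nat_lit 409646) (nat_lit 18) (.e (nat_lit 303143) (nat_lit 12) (.e (nat_lit 475212) (nat_lit 42) (.e (nat_lit 720946) (nat_lit 24) (.e (nat_lit 106534) (nat_lit 11) .nil)))))) (.g (nat_lit 4) .nil .nil)))) (.nd (nat_lit 6) 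
(.lf (nat_lit 133156) (.g (nat_lit 918) (.e (nat_lit 16425) (nat_lit 7) (.e (nat_lit 409645) (nat_lit 18) (.e (nat_lit 303131) (nat_lit 9) .nil))) .nil)) 
(.lf (nat_lit 133220) (.g (nat_lit 1167) (.e (nat_lit 16425) (nat_lit 7) (.e (nat_lit 409648) (nat_lit 18) (.e (nat_lit 303137) (nat_lit 10) (.e (nat_lit 434272) (nat_lit 38) .nil)))) .nil)))) (.nd (nat_lit 5) (.nd (nat_lit 6) 
(.lf (nat_lit 133140) (.g (nat_lit 1280) (.e (nat_lit 16425) (nat_lit 7) (.e (nat_lit 409643) (nat_lit 18) (.e (nat_lit 303143) (nat_lit 12) (.e (nat_lit 475221) (nat_lit 45) .nil)))) .nil)) 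
(.lf (nat_lit 133204) (.g (nat_lit 2234) (.e (nat_lit 16425) (nat_lit 7) (.e (nat_lit 409647) (nat_lit 18) (.e (nat_lit 303143) (nat_lit 12) (.e (nat_lit 475212) (nat_lit 42) (.e (nat_lit 720948) (nat_lit 24) (.e (nat_lit 106534) (nat_lit 11) .nil)))))) (.g (nat_lit 4) .nil .nil)))) (.nd (nat_lit 6) 
(.lf (nat_lit 133172) (.g (nat_lit 374) (.e (nat_lit 16425) (nat_lit 7) (.e (nat_lit 409646) (nat_lit 18) (.e (nat_lit 303143) (nat_lit 12) .nil))) .nil)) 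
(.lf (nat_lit 133236) (.g (nat_lit 3692) (.e (nat_lit 16425) (nat_lit 7) (.e (nat_lit 409648) (nat_lit 18) (.e (nat_lit 303137) (nat_lit 10) (.e (nat_lit 434275) (nat_lit 39) (.e (nat_lit 663580) (nat_lit 9) (.e (nat_lit 2449) (nat_lit 157) (.e (nat_lit 3516) (nat_lit 218) (.e (nat_lit 704736) (nat_lit 11) .nil)))))))) (.g (nat_lit 5) .nil .nil)))))) 
(.nd (nat_lit 4) (.nd (nat_lit 5) (.nd (nat_lit 6) 
(.lf (nat_lit 133132) (.g (nat_lit 1816) (.e (nat_lit 16425) (nat_lit 7) (.e (nat_lit 409643) (nat_lit 18) (.e (nat_lit 303143) (nat_lit 12) (.e (nat_lit 475212) (nat_lit 42) (.e (nat_lit 720951) (nat_lit 24) (.e (nat_lit 106534) (nat_lit 11) .nil)))))) (.g (nat_lit 4) .nil .nil))) 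
(.lf (nat_lit 133196) (.g (nat_lit 2318) (.e (nat_lit 16425) (nat_lit 7) (.e (nat_lit 409646) (nat_lit 18) (.e (nat_lit 303143) (nat_lit 12) (.e (nat_lit 475220) (nat_lit 44) (.e (nat_lit 737305) (nat_lit 11) (.e (nat_lit 752) (nat_lit 66) (.e (nat_lit 704736) (nat_lit 11) .nil))))))) (.g (nat_lit 4) .nil .nil)))) (.nd (nat_lit 6) 
(.lf (nat_lit 133164) (.g (nat_lit 2245) (.e (nat_lit 16425) (nat_lit 7) (.e (nat_lit 409645) (nat_lit 18) (.e (nat_lit 303143) (nat_lit 12) (.e (nat_lit 475212) (nat_lit 42) (.e (nat_lit 720950) (nat_lit 24) (.e (nat_lit 106534) (nat_lit 11) .nil)))))) (.g (nat_lit 4) .nil .nil))) 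
(.lf (nat_lit 133228) (.g (nat_lit 2259) (.e (nat_lit 16425) (nat_lit 7) (.e (nat_lit 409648) (nat_lit 18) (.e (nat_lit 303137) (nat_lit 10) (.e (nat_lit 434272) (nat_lit 38) (.e (nat_lit 655396) (nat_lit 12) (.e (nat_lit 65280) (nat_lit 46) (.e (nat_lit 704738) (nat_lit 11) .nil))))))) (.g (nat_lit 4) .nil .nil))))) (.nd (nat_lit 5) (.nd (nat_lit 6) 
(.lf (nat_lit 133148) (.g (nat_lit 1178) (.e (nat_lit 16425) (nat_lit 7) (.e (nat_lit 409644) (nat_lit 18) (.e (nat_lit 303143) (nat_lit 12) (.e (nat_lit 475218) (nat_lit 44) .nil)))) .nil)) 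
(.lf (nat_lit 133212) (.g (nat_lit 1858) (.e (nat_lit 16425) (nat_lit 7) (.e (nat_lit 409648) (nat_lit 18) (.e (nat_lit 303136) (nat_lit 10) (.e (nat_lit 434272) (nat_lit 38) (.e (nat_lit 655386) (nat_lit 9) (.e (nat_lit 1318) (nat_lit 99) (.e (nat_lit 155669) (nat_lit 11) .nil))))))) (.g (nat_lit 4) .nil .nil)))) (.nd (nat_lit 6) 
(.lf (nat_lit 133180) (.g (nat_lit 3094) (.e (nat_lit 16425) (nat_lit 7) (.e (nat_lit 409646) (nat_lit 18) (.e (nat_lit 303143) (nat_lit 12) (.e (nat_lit 475199) (nat_lit 40) (.e (nat_lit 704677) (nat_lit 9) .nil))))) .nil)) 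
(.lf (nat_lit 133244) (.g (nat_lit 2253) (.e (nat_lit 16425) (nat_lit 7) (.e (nat_lit 409648) (nat_lit 18) (.e (nat_lit 303137) (nat_lit 10) (.e (nat_lit 434276) (nat_lit 39) (.e (nat_lit 663585) (nat_lit 12) (.e (nat_lit 164023) (nat_lit 46) (.e (nat_lit 704736) (nat_lit 11) .nil))))))) (.g (nat_lit 4) .nil .nil)))))))) 
(.nd (nat_lit 2) (.nd (nat_lit 3) (.nd (nat_lit 4) (.nd (nat_lit 5) (.nd (nat_lit 6) 
(.lf (nat_lit 133122) (.g (nat_lit 869) (.e (nat_lit 16425) (nat_lit 7) (.e (nat_lit 409643) (nat_lit 18) (.e (nat_lit 303143) (nat_lit 12) (.e (nat_lit 475199) (nat_lit 40) .nil)))) .nil)) 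
(.lf (nat_lit 133186) (.g (nat_lit 2573) (.e (nat_lit 16425) (nat_lit 7) (.e (nat_lit 409646) (nat_lit 18) (.e (nat_lit 303143) (nat_lit 12) (.e (nat_lit 475212) (nat_lit 42) (.e (nat_lit 720922) (nat_lit 20) .nil))))) .nil))) (.nd (nat_lit 6) 
(.lf (nat_lit 133154) (.g (nat_lit 1506) (.e (nat_lit 16425) (nat_lit 7) (.e (nat_lit 409644) (nat_lit 18) (.e (nat_lit 303143) (nat_lit 12) (.e (nat_lit 475220) (nat_lit 44) (.e (nat_lit 745216) (nat_lit 11) .nil))))) .nil)) 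
(.lf (nat_lit 133218) (.g (nat_lit 2604) (.e (nat_lit 16425) (nat_lit 7) (.e (nat_lit 409648) (nat_lit 18) (.e (nat_lit 303137) (nat_lit 10) (.e (nat_lit 434271) (nat_lit 38) (.e (nat_lit 655397) (nat_lit 12) (.e (nat_lit 57540) (nat_lit 46) (.e (nat_lit 704736) (nat_lit 11) .nil))))))) (.g (nat_lit 4) .nil .nil))))) (.nd (nat_lit 5) (.nd (nat_lit 6) 
(.lf (nat_lit 133138) (.g (nat_lit 2339) (.e (nat_lit 16425) (nat_lit 7) (.e (nat_lit 409643) (nat_lit 18) (.e (nat_lit 303143) (nat_lit 12) (.e (nat_lit 475220) (nat_lit 44) (.e (nat_lit 737311) (nat_lit 11) (.e (nat_lit 788) (nat_lit 66) (.e (nat_lit 704736) (nat_lit 11) .nil))))))) (.g (nat_lit 4) .nil .nil))) 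
(.lf (nat_lit 133202) (.g (nat_lit 830) (.e (nat_lit 16425) (nat_lit 7) (.e (nat_lit 409647) (nat_lit 18) (.e (nat_lit 303143) (nat_lit 12) (.e (nat_lit 475199) (nat_lit 40) .nil)))) .nil))) (.nd (nat_lit 6) 
(.lf (nat_lit 133170) (.g (nat_lit 838) (.e (nat_lit 16425) (nat_lit 7) (.e (nat_lit 409646) (nat_lit 18) (.e (nat_lit 303133) (nat_lit 9) (.e (nat_lit 426412) (nat_lit 15) .nil)))) .nil)) 
(.lf (nat_lit 133234) (.g (nat_lit 3461) (.e (nat_lit 16425) (nat_lit 7) (.e (nat_lit 409648) (nat_lit 18) (.e (nat_lit 303137) (nat_lit 10) (.e (nat_lit 434275) (nat_lit 39) (.e (nat_lit 663580) (nat_lit 9) (.e (nat_lit 2442) (nat_lit 157) (.e (nat_lit 3516) (nat_lit 218) (.e (nat_lit 704736) (nat_lit 11) .nil)))))))) (.g (nat_lit 5) .nil .nil)))))) 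
(.nd (nat_lit 4) (.nd (nat_lit 5) (.nd (nat_lit 6) 
(.lf (nat_lit 133130) (.g (nat_lit 1816) (.e (nat_lit 16425) (nat_lit 7) (.e (nat_lit 409643) (nat_lit 18) (.e (nat_lit 303143) (nat_lit 12) (.e (nat_lit 475212) (nat_lit 42) (.e (nat_lit 720948) (nat_lit 24) (.e (nat_lit 106534) (nat_lit 11) .nil)))))) (.g (nat_lit 4) .nil .nil))) 
(.lf (nat_lit 133194) (.g (nat_lit 2816) (.e (nat_lit 16425) (nat_lit 7) (.e (nat_lit 409646) (nat_lit 18) (.e (nat_lit 303143) (nat_lit 12) (.e (nat_lit 475214) (nat_lit 42) (.e (nat_lit 720949) (nat_lit 24) .nil))))) .nil))) (.nd (nat_lit 6) 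
(.lf (nat_lit 133162) (.g (nat_lit 2223) (.e (nat_lit 16425) (nat_lit 7) (.e (nat_lit 409645) (nat_lit 18) (.e (nat_lit 303143) (nat_lit 12) (.e (nat_lit 475212) (nat_lit 42) (.e (nat_lit 720947) (nat_lit 24) (.e (nat_lit 106534) (nat_lit 11) .nil)))))) (.g (nat_lit 4) .nil .nil))) 
(.lf (nat_lit 133226) (.g (nat_lit 2397) (.e (nat_lit 16425) (nat_lit 7) (.e (nat_lit 409648) (nat_lit 18) (.e (nat_lit 303137) (nat_lit 10) (.e (nat_lit 434272) (nat_lit 38) (.e (nat_lit 655396) (nat_lit 12) (.e (nat_lit 57533) (nat_lit 46) (.e (nat_lit 704740) (nat_lit 11) .nil))))))) (.g (nat_lit 4) .nil .nil))))) (.nd (nat_lit 5) (.nd (nat_lit 6) 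
(.lf (nat_lit 133146) (.g (nat_lit 1998) (.e (nat_lit 16425) (nat_lit 7) (.e (nat_lit 409644) (nat_lit 18) (.e (nat_lit 303143) (nat_lit 12) (.e (nat_lit 475212) (nat_lit 42) (.e (nat_lit 720920) (nat_lit 20) .nil))))) .nil)) 
(.lf (nat_lit 133210) (.g (nat_lit 727) (.e (nat_lit 16425) (nat_lit 7) (.e (nat_lit 409648) (nat_lit 18) (.e (nat_lit 303135) (nat_lit 10) .nil))) .nil))) (.nd (nat_lit 6) 
(.lf (nat_lit 133178) (.g (nat_lit 2736) (.e (nat_lit 16425) (nat_lit 7) (.e (nat_lit 409646) (nat_lit 18) (.e (nat_lit 303143) (nat_lit 12) (.e (nat_lit 475199) (nat_lit 40) (.e (nat_lit 704612) (nat_lit 9) .nil))))) .nil)) 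
(.lf (nat_lit 133242) (.g (nat_lit 2933) (.e (nat_lit 16425) (nat_lit 7) (.e (nat_lit 409648) (nat_lit 18) (.e (nat_lit 303137) (nat_lit 10) (.e (nat_lit 434275) (nat_lit 39) (.e (nat_lit 663585) (nat_lit 12) (.e (nat_lit 171776) (nat_lit 46) (.e (nat_lit 704740) (nat_lit 11) .nil))))))) (.g (nat_lit 5) .nil .nil))))))) (.nd (nat_lit 3) (.nd (nat_lit 4) (.nd (nat_lit 5) (.nd (nat_lit 6) 
(.lf (nat_lit 133126) (.g (nat_lit 2452) (.e (nat_lit 16425) (nat_lit 7) (.e (nat_lit 409643) (nat_lit 18) (.e (nat_lit 303143) (nat_lit 12) (.e (nat_lit 475212) (nat_lit 42) (.e (nat_lit 720920) (nat_lit 20) (.e (nat_lit 2155) (nat_lit 142) (.e (nat_lit 704736) (nat_lit 11) .nil))))))) (.g (nat_lit 4) .nil .nil))) 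
(.lf (nat_lit 133190) (.g (nat_lit 2303) (.e (nat_lit 16425) (nat_lit 7) (.e (nat_lit 409646) (nat_lit 18) (.e (nat_lit 303143) (nat_lit 12) (.e (nat_lit 475212) (nat_lit 42) (.e (nat_lit 720950) (nat_lit 24) (.e (nat_lit 106534) (nat_lit 11) .nil)))))) (.g (nat_lit 4) .nil .nil)))) (.nd (nat_lit 6) 
(.lf (nat_lit 133158) (.g (nat_lit 1399) (.e (nat_lit 16425) (nat_lit 7) (.e (nat_lit 409645) (nat_lit 18) (.e (nat_lit 303143) (nat_lit 12) (.e (nat_lit 475197) (nat_lit 40) .nil)))) .nil)) 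
(.lf (nat_lit 133222) (.g (nat_lit 2935) (.e (nat_lit 16425) (nat_lit 7) (.e (nat_lit 409648) (nat_lit 18) (.e (nat_lit 303137) (nat_lit 10) (.e (nat_lit 434272) (nat_lit 38) (.e (nat_lit 655386) (nat_lit 9) (.e (nat_lit 1318) (nat_lit 99) (.e (nat_lit 155669) (nat_lit 11) .nil))))))) (.g (nat_lit 5) .nil .nil))))) (.nd (nat_lit 5) (.nd (nat_lit 6) 
(.lf (nat_lit 133142) (.g (nat_lit 1594) (.e (nat_lit 16425) (nat_lit 7) (.e (nat_lit 409644) (nat_lit 18) (.e (nat_lit 303143) (nat_lit 12) (.e (nat_lit 475197) (nat_lit 40) (.e (nat_lit 704612) (nat_lit 9) .nil))))) .nil)) 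
(.lf (nat_lit 133206) (.g (nat_lit 1918) (.e (nat_lit 16425) (nat_lit 7) (.e (nat_lit 409647) (nat_lit 18) (.e (nat_lit 303143) (nat_lit 12) (.e (nat_lit 475220) (nat_lit 44) (.e (nat_lit 737306) (nat_lit 11) .nil))))) .nil))) (.nd (nat_lit 6) 
(.lf (nat_lit 133174) (.g (nat_lit 1783) (.e (nat_lit 16425) (nat_lit 7) (.e (nat_lit 409646) (nat_lit 18) (.e (nat_lit 303143) (nat_lit 12) (.e (nat_lit 475197) (nat_lit 40) (.e (nat_lit 704758) (nat_lit 12) .nil))))) .nil)) 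
(.lf (nat_lit 133238) (.g (nat_lit 2555) (.e (nat_lit 16425) (nat_lit 7) (.e (nat_lit 409648) (nat_lit 18) (.e (nat_lit 303137) (nat_lit 10) (.e (nat_lit 434275) (nat_lit 39) (.e (nat_lit 663584) (nat_lit 12) (.e (nat_lit 163849) (nat_lit 0) (.e (nat_lit 6579) (nat_lit 351) (.e (nat_lit 1126) (nat_lit 83) .nil)))))))) (.g (nat_lit 4) .nil .nil)))))) 
(.nd (nat_lit 4) (.nd (nat_lit 5) (.nd (nat_lit 6) 
(.lf (nat_lit 133134) (.g (nat_lit 1114) (.e (nat_lit 16425) (nat_lit 7) (.e (nat_lit 409643) (nat_lit 18) (.e (nat_lit 303143) (nat_lit 12) (.e (nat_lit 475216) (nat_lit 44) .nil)))) .nil)) 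
(.lf (nat_lit 133198) (.g (nat_lit 2085) (.e (nat_lit 16425) (nat_lit 7) (.e (nat_lit 409646) (nat_lit 18) (.e (nat_lit 303143) (nat_lit 12) (.e (nat_lit 475220) (nat_lit 44) (.e (nat_lit 737318) (nat_lit 15) (.e (nat_lit 49185) (nat_lit 11) .nil)))))) (.g (nat_lit 4) .nil .nil)))) (.nd (nat_lit 6) 
(.lf (nat_lit 133166) (.g (nat_lit 2614) (.e (nat_lit 16425) (nat_lit 7) (.e (nat_lit 409645) (nat_lit 18) (.e (nat_lit 303143) (nat_lit 12) (.e (nat_lit 475214) (nat_lit 42) (.e (nat_lit 720948) (nat_lit 24) .nil))))) .nil)) 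
(.lf (nat_lit 133230) (.g (nat_lit 2444) (.e (nat_lit 16425) (nat_lit 7) (.e (nat_lit 409648) (nat_lit 18) (.e (nat_lit 303137) (nat_lit 10) (.e (nat_lit 434272) (nat_lit 38) (.e (nat_lit 655398) (nat_lit 12) (.e (nat_lit 57539) (nat_lit 46) (.e (nat_lit 704736) (nat_lit 11) .nil))))))) (.g (nat_lit 4) .nil .nil))))) (.nd (nat_lit 5) (.nd (nat_lit 6) 
(.lf (nat_lit 133150) (.g (nat_lit 1580) (.e (nat_lit 16425) (nat_lit 7) (.e (nat_lit 409644) (nat_lit 18) (.e (nat_lit 303143) (nat_lit 12) (.e (nat_lit 475220) (nat_lit 44) (.e (nat_lit 737303) (nat_lit 11) .nil))))) .nil)) 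
(.lf (nat_lit 133214) (.g (nat_lit 486) (.e (nat_lit 16425) (nat_lit 7) (.e (nat_lit 409648) (nat_lit 18) (.e (nat_lit 303137) (nat_lit 10) .nil))) .nil))) (.nd (nat_lit 6) 
(.lf (nat_lit 133182) (.g (nat_lit 2675) (.e (nat_lit 16425) (nat_lit 7) (.e (nat_lit 409646) (nat_lit 18) (.e (nat_lit 303143) (nat_lit 12) (.e (nat_lit 475199) (nat_lit 40) (.e (nat_lit 704853) (nat_lit 17) .nil))))) .nil)) 
(.lf (nat_lit 133246) (.g (nat_lit 2348) (.e (nat_lit 16425) (nat_lit 7) (.e (nat_lit 409648) (nat_lit 18) (.e (nat_lit 303138) (nat_lit 10) (.e (nat_lit 434276) (nat_lit 39) (.e (nat_lit 663585) (nat_lit 12) (.e (nat_lit 164023) (nat_lit 46) (.e (nat_lit 704736) (nat_lit 11) .nil))))))) (.g (nat_lit 4) .nil .nil))))))))) 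
(.nd (nat_lit 1) (.nd (nat_lit 2) (.nd (nat_lit 3) (.nd (nat_lit 4) (.nd (nat_lit 5) 
(.nd (nat_lit 6) 
(.lf (nat_lit 133121) (.g (nat_lit 1853) (.e (nat_lit 16425) (nat_lit 7) (.e (nat_lit 409643) (nat_lit 18) (.e (nat_lit 303143) (nat_lit 12) (.e (nat_lit 475198) (nat_lit 40) (.e (nat_lit 704790) (nat_lit 14) .nil))))) .nil)) 
(.lf (nat_lit 133185) (.g (nat_lit 2534) (.e (nat_lit 16425) (nat_lit 7) (.e (nat_lit 409646) (nat_lit 18) (.e (nat_lit 303143) (nat_lit 12) (.e (nat_lit 475212) (nat_lit 42) (.e (nat_lit 720920) (nat_lit 20) (.e (nat_lit 2155) (nat_lit 142) (.e (nat_lit 704736) (nat_lit 11) .nil))))))) (.g (nat_lit 4) .nil .nil)))) (.nd (nat_lit 6) 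
(.lf (nat_lit 133153) (.g (nat_lit 2342) (.e (nat_lit 16425) (nat_lit 7) (.e (nat_lit 409644) (nat_lit 18) (.e (nat_lit 303143) (nat_lit 12) (.e (nat_lit 475220) (nat_lit 44) (.e (nat_lit 737306) (nat_lit 11) (.e (nat_lit 753) (nat_lit 66) (.e (nat_lit 704736) (nat_lit 11) .nil))))))) (.g (nat_lit 4) .nil .nil))) 
(.lf (nat_lit 133217) (.g (nat_lit 2270) (.e (nat_lit 16425) (nat_lit 7) (.e (nat_lit 409648) (nat_lit 18) (.e (nat_lit 303137) (nat_lit 10) (.e (nat_lit 434271) (nat_lit 38) (.e (nat_lit 655387) (nat_lit 9) (.e (nat_lit 1318) (nat_lit 99) (.e (nat_lit 155669) (nat_lit 11) .nil))))))) (.g (nat_lit 4) .nil .nil))))) (.nd (nat_lit 5) (.nd (nat_lit 6) 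
(.lf (nat_lit 133137) (.g (nat_lit 2451) (.e (nat_lit 16425) (nat_lit 7) (.e (nat_lit 409643) (nat_lit 18) (.e (nat_lit 303143) (nat_lit 12) (.e (nat_lit 475220) (nat_lit 44) (.e (nat_lit 737306) (nat_lit 11) (.e (nat_lit 751) (nat_lit 66) (.e (nat_lit 704736) (nat_lit 11) .nil))))))) (.g (nat_lit 4) .nil .nil))) 
(.lf (nat_lit 133201) (.g (nat_lit 1134) (.e (nat_lit 16425) (nat_lit 7) (.e (nat_lit 409647) (nat_lit 18) (.e (nat_lit 303143) (nat_lit 12) (.e (nat_lit 475198) (nat_lit 40) .nil)))) .nil))) (.nd (nat_lit 6) 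
(.lf (nat_lit 133169) (.g (nat_lit 929) (.e (nat_lit 16425) (nat_lit 7) (.e (nat_lit 409646) (nat_lit 18) (.e (nat_lit 303112) (nat_lit 0) .nil))) .nil)) 
(.lf (nat_lit 133233) (.g (nat_lit 2510) (.e (nat_lit 16425) (nat_lit 7) (.e (nat_lit 409648) (nat_lit 18) (.e (nat_lit 303137) (nat_lit 10) (.e (nat_lit 434272) (nat_lit 38) (.e (nat_lit 663296) (nat_lit 17) (.e (nat_lit 164098) (nat_lit 107) (.e (nat_lit 704736) (nat_lit 11) .nil))))))) (.g (nat_lit 4) .nil .nil)))))) (.nd (nat_lit 4) (.nd (nat_lit 5) (.nd (nat_lit 6) 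
(.lf (nat_lit 133129) (.g (nat_lit 2445) (.e (nat_lit 16425) (nat_lit 7) (.e (nat_lit 409643) (nat_lit 18) (.e (nat_lit 303143) (nat_lit 12) (.e (nat_lit 475212) (nat_lit 42) (.e (nat_lit 720947) (nat_lit 24) (.e (nat_lit 106534) (nat_lit 11) .nil)))))) (.g (nat_lit 4) .nil .nil))) 
(.lf (nat_lit 133193) (.g (nat_lit 2372) (.e (nat_lit 16425) (nat_lit 7) (.e (nat_lit 409646) (nat_lit 18) (.e (nat_lit 303143) (nat_lit 12) (.e (nat_lit 475214) (nat_lit 42) (.e (nat_lit 720948) (nat_lit 24) .nil))))) .nil))) (.nd (nat_lit 6) 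
(.lf (nat_lit 133161) (.g (nat_lit 2867) (.e (nat_lit 16425) (nat_lit 7) (.e (nat_lit 409645) (nat_lit 18) (.e (nat_lit 303143) (nat_lit 12) (.e (nat_lit 475212) (nat_lit 42) (.e (nat_lit 720946) (nat_lit 24) (.e (nat_lit 106534) (nat_lit 11) .nil)))))) (.g (nat_lit 4) .nil .nil))) 
(.lf (nat_lit 133225) (.g (nat_lit 3153) (.e (nat_lit 16425) (nat_lit 7) (.e (nat_lit 409648) (nat_lit 18) (.e (nat_lit 303137) (nat_lit 10) (.e (nat_lit 434272) (nat_lit 38) (.e (nat_lit 655396) (nat_lit 12) (.e (nat_lit 57533) (nat_lit 46) (.e (nat_lit 704732) (nat_lit 11) .nil))))))) (.g (nat_lit 4) .nil .nil))))) (.nd (nat_lit 5) (.nd (nat_lit 6) 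
(.lf (nat_lit 133145) (.g (nat_lit 2755) (.e (nat_lit 16425) (nat_lit 7) (.e (nat_lit 409644) (nat_lit 18) (.e (nat_lit 303143) (nat_lit 12) (.e (nat_lit 475199) (nat_lit 40) (.e (nat_lit 704836) (nat_lit 14) .nil))))) .nil)) 
(.lf (nat_lit 133209) (.g (nat_lit 1264) (.e (nat_lit 16425) (nat_lit 7) (.e (nat_lit 409648) (nat_lit 18) (.e (nat_lit 303133) (nat_lit 9) (.e (nat_lit 426412) (nat_lit 15) .nil)))) .nil))) (.nd (nat_lit 6) 
(.lf (nat_lit 133177) (.g (nat_lit 1012) (.e (nat_lit 16425) (nat_lit 7) (.e (nat_lit 409646) (nat_lit 18) (.e (nat_lit 303143) (nat_lit 12) (.e (nat_lit 475199) (nat_lit 40) .nil)))) .nil)) 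
(.lf (nat_lit 133241) (.g (nat_lit 3111) (.e (nat_lit 16425) (nat_lit 7) (.e (nat_lit 409648) (nat_lit 18) (.e (nat_lit 303137) (nat_lit 10) (.e (nat_lit 434275) (nat_lit 39) (.e (nat_lit 663585) (nat_lit 12) (.e (nat_lit 171776) (nat_lit 46) (.e (nat_lit 704732) (nat_lit 11) .nil))))))) (.g (nat_lit 5) .nil .nil))))))) (.nd (nat_lit 3) (.nd (nat_lit 4) (.nd (nat_lit 5) (.nd (nat_lit 6) 
(.lf (nat_lit 133125) (.g (nat_lit 2614) (.e (nat_lit 16425) (nat_lit 7) (.e (nat_lit 409643) (nat_lit 18) (.e (nat_lit 303143) (nat_lit 12) (.e (nat_lit 475199) (nat_lit 40) (.e (nat_lit 704853) (nat_lit 17) .nil))))) .nil)) 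
(.lf (nat_lit 133189) (.g (nat_lit 2305) (.e (nat_lit 16425) (nat_lit 7) (.e (nat_lit 409646) (nat_lit 18) (.e (nat_lit 303143) (nat_lit 12) (.e (nat_lit 475212) (nat_lit 42) (.e (nat_lit 720947) (nat_lit 24) (.e (nat_lit 106534) (nat_lit 11) .nil)))))) (.g (nat_lit 4) .nil .nil)))) (.nd (nat_lit 6) 
(.lf (nat_lit 133157) (.g (nat_lit 1643) (.e (nat_lit 16425) (nat_lit 7) (.e (nat_lit 409645) (nat_lit 18) (.e (nat_lit 303133) (nat_lit 9) (.e (nat_lit 426412) (nat_lit 15) (.e (nat_lit 2184) (nat_lit 144) .nil))))) .nil)) 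
(.lf (nat_lit 133221) (.g (nat_lit 3405) (.e (nat_lit 16425) (nat_lit 7) (.e (nat_lit 409648) (nat_lit 18) (.e (nat_lit 303137) (nat_lit 10) (.e (nat_lit 434272) (nat_lit 38) (.e (nat_lit 655364) (nat_lit 0) (.e (nat_lit 2612) (nat_lit 163) (.e (nat_lit 171776) (nat_lit 195) (.e (nat_lit 1128) (nat_lit 83) .nil)))))))) (.g (nat_lit 5) .nil .nil))))) (.nd (nat_lit 5) (.nd (nat_lit 6) 
(.lf (nat_lit 133141) (.g (nat_lit 363) (.e (nat_lit 16425) (nat_lit 7) (.e (nat_lit 409644) (nat_lit 18) (.e (nat_lit 303143) (nat_lit 12) .nil))) .nil)) 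
(.lf (nat_lit 133205) (.g (nat_lit 2181) (.e (nat_lit 16425) (nat_lit 7) (.e (nat_lit 409647) (nat_lit 18) (.e (nat_lit 303143) (nat_lit 12) (.e (nat_lit 475212) (nat_lit 42) (.e (nat_lit 720950) (nat_lit 24) .nil))))) .nil))) (.nd (nat_lit 6) 
(.lf (nat_lit 133173) (.g (nat_lit 1438) (.e (nat_lit 16425) (nat_lit 7) (.e (nat_lit 409646) (nat_lit 18) (.e (nat_lit 303143) (nat_lit 12) (.e (nat_lit 475195) (nat_lit 40) .nil)))) .nil)) 
(.lf (nat_lit 133237) (.g (nat_lit 3423) (.e (nat_lit 16425) (nat_lit 7) (.e (nat_lit 409648) (nat_lit 18) (.e (nat_lit 303137) (nat_lit 10) (.e (nat_lit 434275) (nat_lit 39) (.e (nat_lit 663580) (nat_lit 9) (.e (nat_lit 2449) (nat_lit 157) (.e (nat_lit 3521) (nat_lit 218) (.e (nat_lit 704736) (nat_lit 11) .nil)))))))) (.g (nat_lit 5) .nil .nil)))))) 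
(.nd (nat_lit 4) (.nd (nat_lit 5) (.nd (nat_lit 6) 
(.lf (nat_lit 133133) (.g (nat_lit 2228) (.e (nat_lit 16425) (nat_lit 7) (.e (nat_lit 409643) (nat_lit 18) (.e (nat_lit 303143) (nat_lit 12) (.e (nat_lit 475214) (nat_lit 42) (.e (nat_lit 720948) (nat_lit 24) .nil))))) .nil)) 
(.lf (nat_lit 133197) (.g (nat_lit 2385) (.e (nat_lit 16425) (nat_lit 7) (.e (nat_lit 409646) (nat_lit 18) (.e (nat_lit 303143) (nat_lit 12) (.e (nat_lit 475220) (nat_lit 44) (.e (nat_lit 737311) (nat_lit 11) (.e (nat_lit 788) (nat_lit 66) (.e (nat_lit 704736) (nat_lit 11) .nil))))))) (.g (nat_lit 4) .nil .nil)))) (.nd (nat_lit 6) 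
(.lf (nat_lit 133165) (.g (nat_lit 2521) (.e (nat_lit 16425) (nat_lit 7) (.e (nat_lit 409645) (nat_lit 18) (.e (nat_lit 303143) (nat_lit 12) (.e (nat_lit 475212) (nat_lit 42) (.e (nat_lit 720951) (nat_lit 24) (.e (nat_lit 106534) (nat_lit 11) .nil)))))) (.g (nat_lit 4) .nil .nil))) 
(.lf (nat_lit 133229) (.g (nat_lit 3094) (.e (nat_lit 16425) (nat_lit 7) (.e (nat_lit 409648) (nat_lit 18) (.e (nat_lit 303137) (nat_lit 10) (.e (nat_lit 434272) (nat_lit 38) (.e (nat_lit 655397) (nat_lit 12) (.e (nat_lit 57540) (nat_lit 46) (.e (nat_lit 704736) (nat_lit 11) .nil))))))) (.g (nat_lit 4) .nil .nil))))) (.nd (nat_lit 5) (.nd (nat_lit 6) 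
(.lf (nat_lit 133149) (.g (nat_lit 1100) (.e (nat_lit 16425) (nat_lit 7) (.e (nat_lit 409644) (nat_lit 18) (.e (nat_lit 303143) (nat_lit 12) (.e (nat_lit 475219) (nat_lit 44) .nil)))) .nil)) 
(.lf (nat_lit 133213) (.g (nat_lit 2072) (.e (nat_lit 16425) (nat_lit 7) (.e (nat_lit 409648) (nat_lit 18) (.e (nat_lit 303136) (nat_lit 10) (.e (nat_lit 434272) (nat_lit 38) (.e (nat_lit 655386) (nat_lit 9) (.e (nat_lit 1320) (nat_lit 99) (.e (nat_lit 155669) (nat_lit 11) .nil))))))) (.g (nat_lit 4) .nil .nil)))) (.nd (nat_lit 6) 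
(.lf (nat_lit 133181) (.g (nat_lit 1663) (.e (nat_lit 16425) (nat_lit 7) (.e (nat_lit 409646) (nat_lit 18) (.e (nat_lit 303143) (nat_lit 12) (.e (nat_lit 475199) (nat_lit 40) (.e (nat_lit 704836) (nat_lit 14) .nil))))) .nil)) 
(.lf (nat_lit 133245) (.g (nat_lit 2478) (.e (nat_lit 16425) (nat_lit 7) (.e (nat_lit 409648) (nat_lit 18) (.e (nat_lit 303138) (nat_lit 10) (.e (nat_lit 434276) (nat_lit 39) (.e (nat_lit 663585) (nat_lit 12) (.e (nat_lit 164022) (nat_lit 46) (.e (nat_lit 704736) (nat_lit 11) .nil))))))) (.g (nat_lit 4) .nil .nil)))))))) 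
(.nd (nat_lit 2) (.nd (nat_lit 3) (.nd (nat_lit 4) (.nd (nat_lit 5) (.nd (nat_lit 6) 
(.lf (nat_lit 133123) (.g (nat_lit 2689) (.e (nat_lit 16425) (nat_lit 7) (.e (nat_lit 409643) (nat_lit 18) (.e (nat_lit 303143) (nat_lit 12) (.e (nat_lit 475199) (nat_lit 40) (.e (nat_lit 704673) (nat_lit 9) .nil))))) .nil)) 
(.lf (nat_lit 133187) (.g (nat_lit 2128) (.e (nat_lit 16425) (nat_lit 7) (.e (nat_lit 409646) (nat_lit 18) (.e (nat_lit 303143) (nat_lit 12) (.e (nat_lit 475212) (nat_lit 42) (.e (nat_lit 720923) (nat_lit 20) .nil))))) .nil))) (.nd (nat_lit 6) 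
(.lf (nat_lit 133155) (.g (nat_lit 638) (.e (nat_lit 16425) (nat_lit 7) (.e (nat_lit 409645) (nat_lit 18) (.e (nat_lit 303112) (nat_lit 0) .nil))) .nil)) 
(.lf (nat_lit 133219) (.g (nat_lit 2287) (.e (nat_lit 16425) (nat_lit 7) (.e (nat_lit 409648) (nat_lit 18) (.e (nat_lit 303137) (nat_lit 10) (.e (nat_lit 434271) (nat_lit 38) (.e (nat_lit 655398) (nat_lit 12) (.e (nat_lit 57532) (nat_lit 46) (.e (nat_lit 712448) (nat_lit 11) .nil))))))) (.g (nat_lit 4) .nil .nil))))) (.nd (nat_lit 5) (.nd (nat_lit 6) 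
(.lf (nat_lit 133139) (.g (nat_lit 1982) (.e (nat_lit 16425) (nat_lit 7) (.e (nat_lit 409643) (nat_lit 18) (.e (nat_lit 303143) (nat_lit 12) (.e (nat_lit 475220) (nat_lit 44) (.e (nat_lit 737318) (nat_lit 15) (.e (nat_lit 49185) (nat_lit 11) .nil)))))) (.g (nat_lit 4) .nil .nil))) 
(.lf (nat_lit 133203) (.g (nat_lit 2390) (.e (nat_lit 16425) (nat_lit 7) (.e (nat_lit 409647) (nat_lit 18) (.e (nat_lit 303143) (nat_lit 12) (.e (nat_lit 475212) (nat_lit 42) (.e (nat_lit 720947) (nat_lit 24) (.e (nat_lit 106534) (nat_lit 11) .nil)))))) (.g (nat_lit 4) .nil .nil)))) (.nd (nat_lit 6) 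
(.lf (nat_lit 133171) (.g (nat_lit 665) (.e (nat_lit 16425) (nat_lit 7) (.e (nat_lit 409646) (nat_lit 18) (.e (nat_lit 303140) (nat_lit 10) .nil))) .nil)) 
(.lf (nat_lit 133235) (.g (nat_lit 2702) (.e (nat_lit 16425) (nat_lit 7) (.e (nat_lit 409648) (nat_lit 18) (.e (nat_lit 303137) (nat_lit 10) (.e (nat_lit 434275) (nat_lit 39) (.e (nat_lit 663580) (nat_lit 9) (.e (nat_lit 2446) (nat_lit 157) (.e (nat_lit 3516) (nat_lit 218) (.e (nat_lit 704736) (nat_lit 11) .nil)))))))) (.g (nat_lit 4) .nil .nil)))))) 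
(.nd (nat_lit 4) (.nd (nat_lit 5) (.nd (nat_lit 6) 
(.lf (nat_lit 133131) (.g (nat_lit 2445) (.e (nat_lit 16425) (nat_lit 7) (.e (nat_lit 409643) (nat_lit 18) (.e (nat_lit 303143) (nat_lit 12) (.e (nat_lit 475212) (nat_lit 42) (.e (nat_lit 720950) (nat_lit 24) (.e (nat_lit 106534) (nat_lit 11) .nil)))))) (.g (nat_lit 4) .nil .nil))) 
(.lf (nat_lit 133195) (.g (nat_lit 1285) (.e (nat_lit 16425) (nat_lit 7) (.e (nat_lit 409646) (nat_lit 18) (.e (nat_lit 303143) (nat_lit 12) (.e (nat_lit 475216) (nat_lit 44) .nil)))) .nil))) (.nd (nat_lit 6) 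
(.lf (nat_lit 133163) (.g (nat_lit 1982) (.e (nat_lit 16425) (nat_lit 7) (.e (nat_lit 409645) (nat_lit 18) (.e (nat_lit 303143) (nat_lit 12) (.e (nat_lit 475212) (nat_lit 42) (.e (nat_lit 720948) (nat_lit 24) (.e (nat_lit 106534) (nat_lit 11) .nil)))))) (.g (nat_lit 4) .nil .nil))) 
(.lf (nat_lit 133227) (.g (nat_lit 3063) (.e (nat_lit 16425) (nat_lit 7) (.e (nat_lit 409648) (nat_lit 18) (.e (nat_lit 303137) (nat_lit 10) (.e (nat_lit 434272) (nat_lit 38) (.e (nat_lit 655396) (nat_lit 12) (.e (nat_lit 57539) (nat_lit 46) (.e (nat_lit 704736) (nat_lit 11) .nil))))))) (.g (nat_lit 4) .nil .nil))))) (.nd (nat_lit 5) (.nd (nat_lit 6) 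
(.lf (nat_lit 133147) (.g (nat_lit 2390) (.e (nat_lit 16425) (nat_lit 7) (.e (nat_lit 409644) (nat_lit 18) (.e (nat_lit 303143) (nat_lit 12) (.e (nat_lit 475212) (nat_lit 42) (.e (nat_lit 720950) (nat_lit 24) (.e (nat_lit 106534) (nat_lit 11) .nil)))))) (.g (nat_lit 4) .nil .nil))) 
(.lf (nat_lit 133211) (.g (nat_lit 392) (.e (nat_lit 16425) (nat_lit 7) (.e (nat_lit 409648) (nat_lit 18) (.e (nat_lit 303136) (nat_lit 10) .nil))) .nil))) (.nd (nat_lit 6) 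
(.lf (nat_lit 133179) (.g (nat_lit 2723) (.e (nat_lit 16425) (nat_lit 7) (.e (nat_lit 409646) (nat_lit 18) (.e (nat_lit 303143) (nat_lit 12) (.e (nat_lit 475199) (nat_lit 40) (.e (nat_lit 704673) (nat_lit 9) .nil))))) .nil)) 
(.lf (nat_lit 133243) (.g (nat_lit 3092) (.e (nat_lit 16425) (nat_lit 7) (.e (nat_lit 409648) (nat_lit 18) (.e (nat_lit 303137) (nat_lit 10) (.e (nat_lit 434275) (nat_lit 39) (.e (nat_lit 663589) (nat_lit 14) (.e (nat_lit 1077) (nat_lit 81) (.e (nat_lit 751) (nat_lit 66) (.e (nat_lit 704736) (nat_lit 11) .nil)))))))) (.g (nat_lit 5) .nil .nil))))))) 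
(.nd (nat_lit 3) (.nd (nat_lit 4) (.nd (nat_lit 5) (.nd (nat_lit 6) 
(.lf (nat_lit 133127) (.g (nat_lit 2422) (.e (nat_lit 16425) (nat_lit 7) (.e (nat_lit 409643) (nat_lit 18) (.e (nat_lit 303143) (nat_lit 12) (.e (nat_lit 475212) (nat_lit 42) (.e (nat_lit 720922) (nat_lit 20) (.e (nat_lit 2155) (nat_lit 142) (.e (nat_lit 704736) (nat_lit 11) .nil))))))) (.g (nat_lit 4) .nil .nil))) 
(.lf (nat_lit 133191) (.g (nat_lit 2100) (.e (nat_lit 16425) (nat_lit 7) (.e (nat_lit 409646) (nat_lit 18) (.e (nat_lit 303143) (nat_lit 12) (.e (nat_lit 475212) (nat_lit 42) (.e (nat_lit 720951) (nat_lit 24) (.e (nat_lit 106534) (nat_lit 11) .nil)))))) (.g (nat_lit 4) .nil .nil)))) (.nd (nat_lit 6) 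
(.lf (nat_lit 133159) (.g (nat_lit 1499) (.e (nat_lit 16425) (nat_lit 7) (.e (nat_lit 409645) (nat_lit 18) (.e (nat_lit 303143) (nat_lit 12) (.e (nat_lit 475198) (nat_lit 40) .nil)))) .nil)) 
(.lf (nat_lit 133223) (.g (nat_lit 2365) (.e (nat_lit 16425) (nat_lit 7) (.e (nat_lit 409648) (nat_lit 18) (.e (nat_lit 303137) (nat_lit 10) (.e (nat_lit 434272) (nat_lit 38) (.e (nat_lit 655387) (nat_lit 9) (.e (nat_lit 1320) (nat_lit 99) (.e (nat_lit 155669) (nat_lit 11) .nil))))))) (.g (nat_lit 4) .nil .nil))))) (.nd (nat_lit 5) (.nd (nat_lit 6) 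
(.lf (nat_lit 133143) (.g (nat_lit 1086) (.e (nat_lit 16425) (nat_lit 7) (.e (nat_lit 409644) (nat_lit 18) (.e (nat_lit 303143) (nat_lit 12) (.e (nat_lit 475198) (nat_lit 40) .nil)))) .nil)) 
(.lf (nat_lit 133207) (.g (nat_lit 2233) (.e (nat_lit 16425) (nat_lit 7) (.e (nat_lit 409648) (nat_lit 18) (.e (nat_lit 303126) (nat_lit 9) (.e (nat_lit 426448) (nat_lit 20) (.e (nat_lit 114721) (nat_lit 24) (.e (nat_lit 106534) (nat_lit 11) .nil)))))) (.g (nat_lit 4) .nil .nil)))) (.nd (nat_lit 6) 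
(.lf (nat_lit 133175) (.g (nat_lit 2137) (.e (nat_lit 16425) (nat_lit 7) (.e (nat_lit 409646) (nat_lit 18) (.e (nat_lit 303143) (nat_lit 12) (.e (nat_lit 475198) (nat_lit 40) (.e (nat_lit 704790) (nat_lit 14) .nil))))) .nil)) 
(.lf (nat_lit 133239) (.g (nat_lit 2250) (.e (nat_lit 16425) (nat_lit 7) (.e (nat_lit 409648) (nat_lit 18) (.e (nat_lit 303137) (nat_lit 10) (.e (nat_lit 434275) (nat_lit 39) (.e (nat_lit 663585) (nat_lit 12) (.e (nat_lit 164021) (nat_lit 46) (.e (nat_lit 704741) (nat_lit 11) .nil))))))) (.g (nat_lit 4) .nil .nil)))))) (.nd (nat_lit 4) (.nd (nat_lit 5) (.nd (nat_lit 6) 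
(.lf (nat_lit 133135) (.g (nat_lit 1463) (.e (nat_lit 16425) (nat_lit 7) (.e (nat_lit 409643) (nat_lit 18) (.e (nat_lit 303143) (nat_lit 12) (.e (nat_lit 475216) (nat_lit 44) (.e (nat_lit 737307) (nat_lit 11) .nil))))) .nil)) 
(.lf (nat_lit 133199) (.g (nat_lit 1416) (.e (nat_lit 16425) (nat_lit 7) (.e (nat_lit 409646) (nat_lit 18) (.e (nat_lit 303143) (nat_lit 12) (.e (nat_lit 475221) (nat_lit 45) .nil)))) .nil))) (.nd (nat_lit 6) 
(.lf (nat_lit 133167) (.g (nat_lit 2981) (.e (nat_lit 16425) (nat_lit 7) (.e (nat_lit 409645) (nat_lit 18) (.e (nat_lit 303143) (nat_lit 12) (.e (nat_lit 475214) (nat_lit 42) (.e (nat_lit 720949) (nat_lit 24) .nil))))) .nil)) 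
(.lf (nat_lit 133231) (.g (nat_lit 3061) (.e (nat_lit 16425) (nat_lit 7) (.e (nat_lit 409648) (nat_lit 18) (.e (nat_lit 303137) (nat_lit 10) (.e (nat_lit 434272) (nat_lit 38) (.e (nat_lit 655398) (nat_lit 12) (.e (nat_lit 57540) (nat_lit 46) (.e (nat_lit 704736) (nat_lit 11) .nil))))))) (.g (nat_lit 4) .nil .nil))))) (.nd (nat_lit 5) (.nd (nat_lit 6) 
(.lf (nat_lit 133151) (.g (nat_lit 2360) (.e (nat_lit 16425) (nat_lit 7) (.e (nat_lit 409644) (nat_lit 18) (.e (nat_lit 303143) (nat_lit 12) (.e (nat_lit 475220) (nat_lit 44) (.e (nat_lit 737303) (nat_lit 11) (.e (nat_lit 753) (nat_lit 66) (.e (nat_lit 704736) (nat_lit 11) .nil))))))) (.g (nat_lit 4) .nil .nil))) 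
(.lf (nat_lit 133215) (.g (nat_lit 1144) (.e (nat_lit 16425) (nat_lit 7) (.e (nat_lit 409648) (nat_lit 18) (.e (nat_lit 303137) (nat_lit 10) (.e (nat_lit 434209) (nat_lit 18) .nil)))) .nil))) (.nd (nat_lit 6) 
(.lf (nat_lit 133183) (.g (nat_lit 1277) (.e (nat_lit 16425) (nat_lit 7) (.e (nat_lit 409646) (nat_lit 18) (.e (nat_lit 303143) (nat_lit 12) (.e (nat_lit 475203) (nat_lit 40) .nil)))) .nil)) 
(.lf (nat_lit 133247) (.g (nat_lit 745) (.e (nat_lit 16425) (nat_lit 7) (.e (nat_lit 409648) (nat_lit 18) (.e (nat_lit 303139) (nat_lit 10) .nil))) .nil)))))))))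

noncomputable def tv1776 : DT := (.nd (nat_lit 0) (.nd (nat_lit 1) (.nd (nat_lit 2) (.nd (nat_lit 3) (.nd (nat_lit 4) (.nd (nat_lit 5) (.nd (nat_lit 6) 
(.lf (nat_lit 133248) (.g (nat_lit 1321) (.e (nat_lit 16425) (nat_lit 7) (.e (nat_lit 409648) (nat_lit 18) (.e (nat_lit 303140) (nat_lit 10) (.e (nat_lit 434275) (nat_lit 39) .nil)))) .nil)) 
(.lf (nat_lit 133312) (.g (nat_lit 2361) (.e (nat_lit 16425) (nat_lit 7) (.e (nat_lit 409649) (nat_lit 18) (.e (nat_lit 303140) (nat_lit 10) (.e (nat_lit 434271) (nat_lit 38) (.e (nat_lit 655387) (nat_lit 9) (.e (nat_lit 1318) (nat_lit 99) (.e (nat_lit 155669) (nat_lit 11) .nil))))))) (.g (nat_lit 4) .nil .nil)))) (.nd (nat_lit 6) 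
(.lf (nat_lit 133280) (.g (nat_lit 1019) (.e (nat_lit 16425) (nat_lit 7) (.e (nat_lit 409649) (nat_lit 18) (.e (nat_lit 303123) (nat_lit 7) .nil))) .nil)) 
(.lf (nat_lit 133344) (.g (nat_lit 1590) (.e (nat_lit 16425) (nat_lit 7) (.e (nat_lit 409649) (nat_lit 18) (.e (nat_lit 303140) (nat_lit 10) (.e (nat_lit 434275) (nat_lit 39) (.e (nat_lit 663580) (nat_lit 9) .nil))))) .nil)))) (.nd (nat_lit 5) (.nd (nat_lit 6) 
(.lf (nat_lit 133264) (.g (nat_lit 2223) (.e (nat_lit 16425) (nat_lit 7) (.e (nat_lit 409648) (nat_lit 18) (.e (nat_lit 303143) (nat_lit 12) (.e (nat_lit 475212) (nat_lit 42) (.e (nat_lit 720950) (nat_lit 24) (.e (nat_lit 106534) (nat_lit 11) .nil)))))) (.g (nat_lit 4) .nil .nil))) 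
(.lf (nat_lit 133328) (.g (nat_lit 1126) (.e (nat_lit 16425) (nat_lit 7) (.e (nat_lit 409649) (nat_lit 18) (.e (nat_lit 303140) (nat_lit 10) (.e (nat_lit 434275) (nat_lit 39) .nil)))) .nil))) (.nd (nat_lit 6) 
(.lf (nat_lit 133296) (.g (nat_lit 1325) (.e (nat_lit 16425) (nat_lit 7) (.e (nat_lit 409649) (nat_lit 18) (.e (nat_lit 303137) (nat_lit 10) (.e (nat_lit 434275) (nat_lit 39) .nil)))) .nil)) 
(.lf (nat_lit 133360) (.g (nat_lit 921) (.e (nat_lit 16425) (nat_lit 7) (.e (nat_lit 409649) (nat_lit 18) (.e (nat_lit 303142) (nat_lit 12) .nil))) .nil))))) (.nd (nat_lit 4) (.nd (nat_lit 5) (.nd (nat_lit 6) 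
(.lf (nat_lit 133256) (.g (nat_lit 2250) (.e (nat_lit 16425) (nat_lit 7) (.e (nat_lit 409648) (nat_lit 18) (.e (nat_lit 303142) (nat_lit 12) (.e (nat_lit 475214) (nat_lit 42) (.e (nat_lit 720950) (nat_lit 24) .nil))))) .nil)) 
(.lf (nat_lit 133320) (.g (nat_lit 2469) (.e (nat_lit 16425) (nat_lit 7) (.e (nat_lit 409649) (nat_lit 18) (.e (nat_lit 303140) (nat_lit 10) (.e (nat_lit 434272) (nat_lit 38) (.e (nat_lit 655396) (nat_lit 12) (.e (nat_lit 57539) (nat_lit 46) (.e (nat_lit 704736) (nat_lit 11) .nil))))))) (.g (nat_lit 4) .nil .nil)))) (.nd (nat_lit 6) 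
(.lf (nat_lit 133288) (.g (nat_lit 1069) (.e (nat_lit 16425) (nat_lit 7) (.e (nat_lit 409649) (nat_lit 18) (.e (nat_lit 303132) (nat_lit 9) (.e (nat_lit 426109) (nat_lit 1) .nil)))) .nil)) 
(.lf (nat_lit 133352) (.g (nat_lit 3912) (.e (nat_lit 16425) (nat_lit 7) (.e (nat_lit 409649) (nat_lit 18) (.e (nat_lit 303140) (nat_lit 10) (.e (nat_lit 434275) (nat_lit 39) (.e (nat_lit 663585) (nat_lit 12) (.e (nat_lit 164022) (nat_lit 46) (.e (nat_lit 704736) (nat_lit 11) .nil))))))) (.g (nat_lit 6) .nil .nil))))) (.nd (nat_lit 5) (.nd (nat_lit 6) 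
(.lf (nat_lit 133272) (.g (nat_lit 2747) (.e (nat_lit 16425) (nat_lit 7) (.e (nat_lit 409648) (nat_lit 18) (.e (nat_lit 303143) (nat_lit 12) (.e (nat_lit 475220) (nat_lit 44) (.e (nat_lit 737306) (nat_lit 11) (.e (nat_lit 753) (nat_lit 66) (.e (nat_lit 704736) (nat_lit 11) .nil))))))) (.g (nat_lit 4) .nil .nil))) 
(.lf (nat_lit 133336) (.g (nat_lit 3109) (.e (nat_lit 16425) (nat_lit 7) (.e (nat_lit 409649) (nat_lit 18) (.e (nat_lit 303140) (nat_lit 10) (.e (nat_lit 434275) (nat_lit 39) (.e (nat_lit 663574) (nat_lit 9) (.e (nat_lit 2461) (nat_lit 157) (.e (nat_lit 3537) (nat_lit 218) (.e (nat_lit 704738) (nat_lit 11) .nil)))))))) (.g (nat_lit 5) .nil .nil)))) (.nd (nat_lit 6) 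
(.lf (nat_lit 133304) (.g (nat_lit 1885) (.e (nat_lit 16425) (nat_lit 7) (.e (nat_lit 409649) (nat_lit 18) (.e (nat_lit 303140) (nat_lit 10) (.e (nat_lit 434202) (nat_lit 18) (.e (nat_lit 5965) (nat_lit 324) .nil))))) .nil)) 
(.lf (nat_lit 133368) (.g (nat_lit 2542) (.e (nat_lit 16425) (nat_lit 7) (.e (nat_lit 409649) (nat_lit 18) (.e (nat_lit 303143) (nat_lit 12) (.e (nat_lit 475212) (nat_lit 42) (.e (nat_lit 720920) (nat_lit 20) (.e (nat_lit 2155) (nat_lit 142) (.e (nat_lit 704736) (nat_lit 11) .nil))))))) (.g (nat_lit 4) .nil .nil))))))) (.nd (nat_lit 3) (.nd (nat_lit 4) (.nd (nat_lit 5) (.nd (nat_lit 6) 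
(.lf (nat_lit 133252) (.g (nat_lit 2494) (.e (nat_lit 16425) (nat_lit 7) (.e (nat_lit 409648) (nat_lit 18) (.e (nat_lit 303142) (nat_lit 12) (.e (nat_lit 475199) (nat_lit 40) (.e (nat_lit 704836) (nat_lit 14) (.e (nat_lit 2448) (nat_lit 157) (.e (nat_lit 794) (nat_lit 66) (.e (nat_lit 704738) (nat_lit 11) .nil)))))))) (.g (nat_lit 4) .nil .nil))) 
(.lf (nat_lit 133316) (.g (nat_lit 1153) (.e (nat_lit 16425) (nat_lit 7) (.e (nat_lit 409649) (nat_lit 18) (.e (nat_lit 303140) (nat_lit 10) (.e (nat_lit 434272) (nat_lit 38) .nil)))) .nil))) (.nd (nat_lit 6) 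
(.lf (nat_lit 133284) (.g (nat_lit 404) (.e (nat_lit 16425) (nat_lit 7) (.e (nat_lit 409649) (nat_lit 18) (.e (nat_lit 303132) (nat_lit 9) .nil))) .nil)) 
(.lf (nat_lit 133348) (.g (nat_lit 3060) (.e (nat_lit 16425) (nat_lit 7) (.e (nat_lit 409649) (nat_lit 18) (.e (nat_lit 303140) (nat_lit 10) (.e (nat_lit 434275) (nat_lit 39) (.e (nat_lit 663580) (nat_lit 9) (.e (nat_lit 2448) (nat_lit 157) (.e (nat_lit 3521) (nat_lit 218) (.e (nat_lit 704736) (nat_lit 11) .nil)))))))) (.g (nat_lit 5) .nil .nil))))) (.nd (nat_lit 5) (.nd (nat_lit 6) 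
(.lf (nat_lit 133268) (.g (nat_lit 2723) (.e (nat_lit 16425) (nat_lit 7) (.e (nat_lit 409648) (nat_lit 18) (.e (nat_lit 303143) (nat_lit 12) (.e (nat_lit 475220) (nat_lit 44) (.e (nat_lit 737303) (nat_lit 11) (.e (nat_lit 753) (nat_lit 66) (.e (nat_lit 704736) (nat_lit 11) .nil))))))) (.g (nat_lit 4) .nil .nil))) 
(.lf (nat_lit 133332) (.g (nat_lit 3043) (.e (nat_lit 16425) (nat_lit 7) (.e (nat_lit 409649) (nat_lit 18) (.e (nat_lit 303140) (nat_lit 10) (.e (nat_lit 434275) (nat_lit 39) (.e (nat_lit 663574) (nat_lit 9) (.e (nat_lit 2418) (nat_lit 157) (.e (nat_lit 3496) (nat_lit 218) (.e (nat_lit 704736) (nat_lit 11) .nil)))))))) (.g (nat_lit 5) .nil .nil)))) (.nd (nat_lit 6) 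
(.lf (nat_lit 133300) (.g (nat_lit 1309) (.e (nat_lit 16425) (nat_lit 7) (.e (nat_lit 409649) (nat_lit 18) (.e (nat_lit 303140) (nat_lit 10) (.e (nat_lit 434200) (nat_lit 18) .nil)))) .nil)) 
(.lf (nat_lit 133364) (.g (nat_lit 811) (.e (nat_lit 16425) (nat_lit 7) (.e (nat_lit 409649) (nat_lit 18) (.e (nat_lit 303143) (nat_lit 12) (.e (nat_lit 475199) (nat_lit 40) .nil)))) .nil))))) (.nd (nat_lit 4) (.nd (nat_lit 5) (.nd (nat_lit 6) 
(.lf (nat_lit 133260) (.g (nat_lit 2494) (.e (nat_lit 16425) (nat_lit 7) (.e (nat_lit 409648) (nat_lit 18) (.e (nat_lit 303143) (nat_lit 12) (.e (nat_lit 475212) (nat_lit 42) (.e (nat_lit 720920) (nat_lit 20) (.e (nat_lit 2155) (nat_lit 142) (.e (nat_lit 704736) (nat_lit 11) .nil))))))) (.g (nat_lit 4) .nil .nil))) 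
(.lf (nat_lit 133324) (.g (nat_lit 2466) (.e (nat_lit 16425) (nat_lit 7) (.e (nat_lit 409649) (nat_lit 18) (.e (nat_lit 303140) (nat_lit 10) (.e (nat_lit 434272) (nat_lit 38) (.e (nat_lit 655398) (nat_lit 12) (.e (nat_lit 57540) (nat_lit 46) (.e (nat_lit 704736) (nat_lit 11) .nil))))))) (.g (nat_lit 4) .nil .nil)))) (.nd (nat_lit 6) 
(.lf (nat_lit 133292) (.g (nat_lit 1754) (.e (nat_lit 16425) (nat_lit 7) (.e (nat_lit 409649) (nat_lit 18) (.e (nat_lit 303132) (nat_lit 9) (.e (nat_lit 426394) (nat_lit 15) .nil)))) .nil)) 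
(.lf (nat_lit 133356) (.g (nat_lit 2637) (.e (nat_lit 16425) (nat_lit 7) (.e (nat_lit 409649) (nat_lit 18) (.e (nat_lit 303140) (nat_lit 10) (.e (nat_lit 434275) (nat_lit 39) (.e (nat_lit 663585) (nat_lit 12) (.e (nat_lit 171776) (nat_lit 46) (.e (nat_lit 704740) (nat_lit 11) .nil))))))) (.g (nat_lit 5) .nil .nil))))) (.nd (nat_lit 5) (.nd (nat_lit 6) 
(.lf (nat_lit 133276) (.g (nat_lit 3422) (.e (nat_lit 16425) (nat_lit 7) (.e (nat_lit 409648) (nat_lit 18) (.e (nat_lit 303146) (nat_lit 14) (.e (nat_lit 491566) (nat_lit 12) (.e (nat_lit 385044) (nat_lit 21) (.e (nat_lit 7660) (nat_lit 410) (.e (nat_lit 1126) (nat_lit 83) .nil))))))) (.g (nat_lit 4) .nil .nil))) 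
(.lf (nat_lit 133340) (.g (nat_lit 3251) (.e (nat_lit 16425) (nat_lit 7) (.e (nat_lit 409649) (nat_lit 18) (.e (nat_lit 303140) (nat_lit 10) (.e (nat_lit 434275) (nat_lit 39) (.e (nat_lit 663574) (nat_lit 9) (.e (nat_lit 2482) (nat_lit 157) (.e (nat_lit 3537) (nat_lit 218) (.e (nat_lit 704738) (nat_lit 11) .nil)))))))) (.g (nat_lit 5) .nil .nil)))) (.nd (nat_lit 6) 
(.lf (nat_lit 133308) (.g (nat_lit 1326) (.e (nat_lit 16425) (nat_lit 7) (.e (nat_lit 409649) (nat_lit 18) (.e (nat_lit 303140) (nat_lit 10) (.e (nat_lit 434214) (nat_lit 18) .nil)))) .nil)) 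
(.lf (nat_lit 133372) (.g (nat_lit 2303) (.e (nat_lit 16425) (nat_lit 7) (.e (nat_lit 409649) (nat_lit 18) (.e (nat_lit 303143) (nat_lit 12) (.e (nat_lit 475212) (nat_lit 42) (.e (nat_lit 720947) (nat_lit 24) (.e (nat_lit 106534) (nat_lit 11) .nil)))))) (.g (nat_lit 4) .nil .nil)))))))) (.nd (nat_lit 2) (.nd (nat_lit 3) (.nd (nat_lit 4) (.nd (nat_lit 5) (.nd (nat_lit 6) 
(.lf (nat_lit 133250) (.g (nat_lit 2499) (.e (nat_lit 16425) (nat_lit 7) (.e (nat_lit 409648) (nat_lit 18) (.e (nat_lit 303142) (nat_lit 12) (.e (nat_lit 475199) (nat_lit 40) (.e (nat_lit 704836) (nat_lit 14) (.e (nat_lit 2426) (nat_lit 157) (.e (nat_lit 794) (nat_lit 66) (.e (nat_lit 704738) (nat_lit 11) .nil)))))))) (.g (nat_lit 4) .nil .nil))) 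
(.lf (nat_lit 133314) (.g (nat_lit 2413) (.e (nat_lit 16425) (nat_lit 7) (.e (nat_lit 409649) (nat_lit 18) (.e (nat_lit 303140) (nat_lit 10) (.e (nat_lit 434271) (nat_lit 38) (.e (nat_lit 655398) (nat_lit 12) (.e (nat_lit 57532) (nat_lit 46) (.e (nat_lit 712448) (nat_lit 11) .nil))))))) (.g (nat_lit 4) .nil .nil)))) (.nd (nat_lit 6) 
(.lf (nat_lit 133282) (.g (nat_lit 2489) (.e (nat_lit 16425) (nat_lit 7) (.e (nat_lit 409649) (nat_lit 18) (.e (nat_lit 303126) (nat_lit 9) (.e (nat_lit 426448) (nat_lit 20) (.e (nat_lit 114723) (nat_lit 24) .nil))))) .nil)) 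
(.lf (nat_lit 133346) (.g (nat_lit 2942) (.e (nat_lit 16425) (nat_lit 7) (.e (nat_lit 409649) (nat_lit 18) (.e (nat_lit 303140) (nat_lit 10) (.e (nat_lit 434275) (nat_lit 39) (.e (nat_lit 663580) (nat_lit 9) (.e (nat_lit 2446) (nat_lit 157) (.e (nat_lit 3521) (nat_lit 218) (.e (nat_lit 704736) (nat_lit 11) .nil)))))))) (.g (nat_lit 5) .nil .nil))))) (.nd (nat_lit 5) (.nd (nat_lit 6) 
(.lf (nat_lit 133266) (.g (nat_lit 1311) (.e (nat_lit 16425) (nat_lit 7) (.e (nat_lit 409648) (nat_lit 18) (.e (nat_lit 303143) (nat_lit 12) (.e (nat_lit 475218) (nat_lit 44) .nil)))) .nil)) 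
(.lf (nat_lit 133330) (.g (nat_lit 1692) (.e (nat_lit 16425) (nat_lit 7) (.e (nat_lit 409649) (nat_lit 18) (.e (nat_lit 303140) (nat_lit 10) (.e (nat_lit 434275) (nat_lit 39) (.e (nat_lit 663574) (nat_lit 9) .nil))))) .nil))) (.nd (nat_lit 6) 
(.lf (nat_lit 133298) (.g (nat_lit 375) (.e (nat_lit 16425) (nat_lit 7) (.e (nat_lit 409649) (nat_lit 18) (.e (nat_lit 303140) (nat_lit 10) .nil))) .nil)) 
(.lf (nat_lit 133362) (.g (nat_lit 374) (.e (nat_lit 16425) (nat_lit 7) (.e (nat_lit 409649) (nat_lit 18) (.e (nat_lit 303143) (nat_lit 12) .nil))) .nil))))) (.nd (nat_lit 4) (.nd (nat_lit 5) (.nd (nat_lit 6) 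
(.lf (nat_lit 133258) (.g (nat_lit 2938) (.e (nat_lit 16425) (nat_lit 7) (.e (nat_lit 409648) (nat_lit 18) (.e (nat_lit 303143) (nat_lit 12) (.e (nat_lit 475199) (nat_lit 40) (.e (nat_lit 704836) (nat_lit 14) .nil))))) .nil)) 
(.lf (nat_lit 133322) (.g (nat_lit 2438) (.e (nat_lit 16425) (nat_lit 7) (.e (nat_lit 409649) (nat_lit 18) (.e (nat_lit 303140) (nat_lit 10) (.e (nat_lit 434272) (nat_lit 38) (.e (nat_lit 655397) (nat_lit 12) (.e (nat_lit 57540) (nat_lit 46) (.e (nat_lit 704736) (nat_lit 11) .nil))))))) (.g (nat_lit 4) .nil .nil)))) (.nd (nat_lit 6) 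
(.lf (nat_lit 133290) (.g (nat_lit 3202) (.e (nat_lit 16425) (nat_lit 7) (.e (nat_lit 409649) (nat_lit 18) (.e (nat_lit 303132) (nat_lit 9) (.e (nat_lit 426109) (nat_lit 1) (.e (nat_lit 164330) (nat_lit 230) (.e (nat_lit 171776) (nat_lit 65) (.e (nat_lit 106534) (nat_lit 11) .nil))))))) (.g (nat_lit 5) .nil .nil))) 
(.lf (nat_lit 133354) (.g (nat_lit 3786) (.e (nat_lit 16425) (nat_lit 7) (.e (nat_lit 409649) (nat_lit 18) (.e (nat_lit 303140) (nat_lit 10) (.e (nat_lit 434275) (nat_lit 39) (.e (nat_lit 663585) (nat_lit 12) (.e (nat_lit 164023) (nat_lit 46) (.e (nat_lit 704736) (nat_lit 11) .nil))))))) (.g (nat_lit 6) .nil .nil))))) (.nd (nat_lit 5) (.nd (nat_lit 6) 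
(.lf (nat_lit 133274) (.g (nat_lit 452) (.e (nat_lit 16425) (nat_lit 7) (.e (nat_lit 409648) (nat_lit 18) (.e (nat_lit 303146) (nat_lit 14) .nil))) .nil)) 
(.lf (nat_lit 133338) (.g (nat_lit 3184) (.e (nat_lit 16425) (nat_lit 7) (.e (nat_lit 409649) (nat_lit 18) (.e (nat_lit 303140) (nat_lit 10) (.e (nat_lit 434275) (nat_lit 39) (.e (nat_lit 663574) (nat_lit 9) (.e (nat_lit 2474) (nat_lit 157) (.e (nat_lit 3537) (nat_lit 218) (.e (nat_lit 704738) (nat_lit 11) .nil)))))))) (.g (nat_lit 5) .nil .nil)))) (.nd (nat_lit 6) 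
(.lf (nat_lit 133306) (.g (nat_lit 1189) (.e (nat_lit 16425) (nat_lit 7) (.e (nat_lit 409649) (nat_lit 18) (.e (nat_lit 303140) (nat_lit 10) (.e (nat_lit 434209) (nat_lit 18) .nil)))) .nil)) 
(.lf (nat_lit 133370) (.g (nat_lit 2004) (.e (nat_lit 16425) (nat_lit 7) (.e (nat_lit 409649) (nat_lit 18) (.e (nat_lit 303143) (nat_lit 12) (.e (nat_lit 475212) (nat_lit 42) (.e (nat_lit 720923) (nat_lit 20) .nil))))) .nil)))))) (.nd (nat_lit 3) (.nd (nat_lit 4) (.nd (nat_lit 5) (.nd (nat_lit 6) 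
(.lf (nat_lit 133254) (.g (nat_lit 2162) (.e (nat_lit 16425) (nat_lit 7) (.e (nat_lit 409648) (nat_lit 18) (.e (nat_lit 303142) (nat_lit 12) (.e (nat_lit 475212) (nat_lit 42) (.e (nat_lit 720951) (nat_lit 24) (.e (nat_lit 106534) (nat_lit 11) .nil)))))) (.g (nat_lit 4) .nil .nil))) 
(.lf (nat_lit 133318) (.g (nat_lit 1839) (.e (nat_lit 16425) (nat_lit 7) (.e (nat_lit 409649) (nat_lit 18) (.e (nat_lit 303140) (nat_lit 10) (.e (nat_lit 434272) (nat_lit 38) (.e (nat_lit 655396) (nat_lit 12) .nil))))) .nil))) (.nd (nat_lit 6) 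
(.lf (nat_lit 133286) (.g (nat_lit 2067) (.e (nat_lit 16425) (nat_lit 7) (.e (nat_lit 409649) (nat_lit 18) (.e (nat_lit 303132) (nat_lit 9) (.e (nat_lit 426025) (nat_lit 0) (.e (nat_lit 3397) (nat_lit 211) .nil))))) .nil)) 
(.lf (nat_lit 133350) (.g (nat_lit 2674) (.e (nat_lit 16425) (nat_lit 7) (.e (nat_lit 409649) (nat_lit 18) (.e (nat_lit 303140) (nat_lit 10) (.e (nat_lit 434275) (nat_lit 39) (.e (nat_lit 663584) (nat_lit 12) (.e (nat_lit 163843) (nat_lit 0) (.e (nat_lit 6579) (nat_lit 351) (.e (nat_lit 1126) (nat_lit 83) .nil)))))))) (.g (nat_lit 4) .nil .nil))))) (.nd (nat_lit 5) (.nd (nat_lit 6) 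
(.lf (nat_lit 133270) (.g (nat_lit 2601) (.e (nat_lit 16425) (nat_lit 7) (.e (nat_lit 409648) (nat_lit 18) (.e (nat_lit 303143) (nat_lit 12) (.e (nat_lit 475220) (nat_lit 44) (.e (nat_lit 737305) (nat_lit 11) (.e (nat_lit 753) (nat_lit 66) (.e (nat_lit 704736) (nat_lit 11) .nil))))))) (.g (nat_lit 4) .nil .nil))) 
(.lf (nat_lit 133334) (.g (nat_lit 3094) (.e (nat_lit 16425) (nat_lit 7) (.e (nat_lit 409649) (nat_lit 18) (.e (nat_lit 303140) (nat_lit 10) (.e (nat_lit 434275) (nat_lit 39) (.e (nat_lit 663574) (nat_lit 9) (.e (nat_lit 2450) (nat_lit 157) (.e (nat_lit 3516) (nat_lit 218) (.e (nat_lit 704736) (nat_lit 11) .nil)))))))) (.g (nat_lit 5) .nil .nil)))) (.nd (nat_lit 6) 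
(.lf (nat_lit 133302) (.g (nat_lit 1284) (.e (nat_lit 16425) (nat_lit 7) (.e (nat_lit 409649) (nat_lit 18) (.e (nat_lit 303140) (nat_lit 10) (.e (nat_lit 434202) (nat_lit 18) .nil)))) .nil)) 
(.lf (nat_lit 133366) (.g (nat_lit 2539) (.e (nat_lit 16425) (nat_lit 7) (.e (nat_lit 409649) (nat_lit 18) (.e (nat_lit 303143) (nat_lit 12) (.e (nat_lit 475199) (nat_lit 40) (.e (nat_lit 704853) (nat_lit 17) .nil))))) .nil))))) (.nd (nat_lit 4) (.nd (nat_lit 5) (.nd (nat_lit 6) 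
(.lf (nat_lit 133262) (.g (nat_lit 2867) (.e (nat_lit 16425) (nat_lit 7) (.e (nat_lit 409648) (nat_lit 18) (.e (nat_lit 303143) (nat_lit 12) (.e (nat_lit 475212) (nat_lit 42) (.e (nat_lit 720946) (nat_lit 24) (.e (nat_lit 106534) (nat_lit 11) .nil)))))) (.g (nat_lit 4) .nil .nil))) 
(.lf (nat_lit 133326) (.g (nat_lit 2271) (.e (nat_lit 16425) (nat_lit 7) (.e (nat_lit 409649) (nat_lit 18) (.e (nat_lit 303140) (nat_lit 10) (.e (nat_lit 434272) (nat_lit 38) (.e (nat_lit 663296) (nat_lit 17) (.e (nat_lit 164098) (nat_lit 107) (.e (nat_lit 704736) (nat_lit 11) .nil))))))) (.g (nat_lit 4) .nil .nil)))) (.nd (nat_lit 6) 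
(.lf (nat_lit 133294) (.g (nat_lit 1752) (.e (nat_lit 16425) (nat_lit 7) (.e (nat_lit 409649) (nat_lit 18) (.e (nat_lit 303132) (nat_lit 9) (.e (nat_lit 426465) (nat_lit 24) .nil)))) .nil)) 
(.lf (nat_lit 133358) (.g (nat_lit 3792) (.e (nat_lit 16425) (nat_lit 7) (.e (nat_lit 409649) (nat_lit 18) (.e (nat_lit 303140) (nat_lit 10) (.e (nat_lit 434281) (nat_lit 40) (.e (nat_lit 671782) (nat_lit 12) (.e (nat_lit 164023) (nat_lit 46) (.e (nat_lit 704738) (nat_lit 11) .nil))))))) (.g (nat_lit 7) .nil .nil))))) (.nd (nat_lit 5) (.nd (nat_lit 6) 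
(.lf (nat_lit 133278) (.g (nat_lit 1042) (.e (nat_lit 16425) (nat_lit 7) (.e (nat_lit 409649) (nat_lit 18) (.e (nat_lit 303104) (nat_lit 0) (.e (nat_lit 7936) (nat_lit 407) .nil)))) .nil)) 
(.lf (nat_lit 133342) (.g (nat_lit 1713) (.e (nat_lit 16425) (nat_lit 7) (.e (nat_lit 409649) (nat_lit 18) (.e (nat_lit 303140) (nat_lit 10) (.e (nat_lit 434275) (nat_lit 39) (.e (nat_lit 663579) (nat_lit 9) .nil))))) .nil))) (.nd (nat_lit 6) 
(.lf (nat_lit 133310) (.g (nat_lit 1341) (.e (nat_lit 16425) (nat_lit 7) (.e (nat_lit 409649) (nat_lit 18) (.e (nat_lit 303140) (nat_lit 10) (.e (nat_lit 434270) (nat_lit 38) .nil)))) .nil)) 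
(.lf (nat_lit 133374) (.g (nat_lit 2305) (.e (nat_lit 16425) (nat_lit 7) (.e (nat_lit 409649) (nat_lit 18) (.e (nat_lit 303143) (nat_lit 12) (.e (nat_lit 475212) (nat_lit 42) (.e (nat_lit 720950) (nat_lit 24) (.e (nat_lit 106534) (nat_lit 11) .nil)))))) (.g (nat_lit 4) .nil .nil))))))))) (.nd (nat_lit 1) (.nd (nat_lit 2) (.nd (nat_lit 3) (.nd (nat_lit 4) (.nd (nat_lit 5) (.nd (nat_lit 6) 
(.lf (nat_lit 133249) (.g (nat_lit 413) (.e (nat_lit 16425) (nat_lit 7) (.e (nat_lit 409648) (nat_lit 18) (.e (nat_lit 303142) (nat_lit 12) .nil))) .nil)) 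
(.lf (nat_lit 133313) (.g (nat_lit 2816) (.e (nat_lit 16425) (nat_lit 7) (.e (nat_lit 409649) (nat_lit 18) (.e (nat_lit 303140) (nat_lit 10) (.e (nat_lit 434271) (nat_lit 38) (.e (nat_lit 655398) (nat_lit 12) (.e (nat_lit 57353) (nat_lit 0) (.e (nat_lit 6575) (nat_lit 351) (.e (nat_lit 1126) (nat_lit 83) .nil)))))))) (.g (nat_lit 4) .nil .nil)))) (.nd (nat_lit 6) 
(.lf (nat_lit 133281) (.g (nat_lit 952) (.e (nat_lit 16425) (nat_lit 7) (.e (nat_lit 409649) (nat_lit 18) (.e (nat_lit 303126) (nat_lit 9) .nil))) .nil)) 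
(.lf (nat_lit 133345) (.g (nat_lit 3351) (.e (nat_lit 16425) (nat_lit 7) (.e (nat_lit 409649) (nat_lit 18) (.e (nat_lit 303140) (nat_lit 10) (.e (nat_lit 434275) (nat_lit 39) (.e (nat_lit 663580) (nat_lit 9) (.e (nat_lit 2446) (nat_lit 157) (.e (nat_lit 3516) (nat_lit 218) (.e (nat_lit 704736) (nat_lit 11) .nil)))))))) (.g (nat_lit 5) .nil .nil))))) (.nd (nat_lit 5) (.nd (nat_lit 6) 
(.lf (nat_lit 133265) (.g (nat_lit 1982) (.e (nat_lit 16425) (nat_lit 7) (.e (nat_lit 409648) (nat_lit 18) (.e (nat_lit 303143) (nat_lit 12) (.e (nat_lit 475212) (nat_lit 42) (.e (nat_lit 720951) (nat_lit 24) (.e (nat_lit 106534) (nat_lit 11) .nil)))))) (.g (nat_lit 4) .nil .nil))) 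
(.lf (nat_lit 133329) (.g (nat_lit 1827) (.e (nat_lit 16425) (nat_lit 7) (.e (nat_lit 409649) (nat_lit 18) (.e (nat_lit 303140) (nat_lit 10) (.e (nat_lit 434275) (nat_lit 39) (.e (nat_lit 663572) (nat_lit 9) .nil))))) .nil))) (.nd (nat_lit 6) 
(.lf (nat_lit 133297) (.g (nat_lit 812) (.e (nat_lit 16425) (nat_lit 7) (.e (nat_lit 409649) (nat_lit 18) (.e (nat_lit 303139) (nat_lit 10) .nil))) .nil)) 
(.lf (nat_lit 133361) (.g (nat_lit 1169) (.e (nat_lit 16425) (nat_lit 7) (.e (nat_lit 409649) (nat_lit 18) (.e (nat_lit 303142) (nat_lit 12) (.e (nat_lit 475220) (nat_lit 44) .nil)))) .nil))))) (.nd (nat_lit 4) (.nd (nat_lit 5) (.nd (nat_lit 6) 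
(.lf (nat_lit 133257) (.g (nat_lit 1189) (.e (nat_lit 16425) (nat_lit 7) (.e (nat_lit 409648) (nat_lit 18) (.e (nat_lit 303143) (nat_lit 12) (.e (nat_lit 475199) (nat_lit 40) .nil)))) .nil)) 
(.lf (nat_lit 133321) (.g (nat_lit 1860) (.e (nat_lit 16425) (nat_lit 7) (.e (nat_lit 409649) (nat_lit 18) (.e (nat_lit 303140) (nat_lit 10) (.e (nat_lit 434272) (nat_lit 38) (.e (nat_lit 655396) (nat_lit 12) (.e (nat_lit 65280) (nat_lit 46) (.e (nat_lit 704738) (nat_lit 11) .nil))))))) (.g (nat_lit 4) .nil .nil)))) (.nd (nat_lit 6) 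
(.lf (nat_lit 133289) (.g (nat_lit 2518) (.e (nat_lit 16425) (nat_lit 7) (.e (nat_lit 409649) (nat_lit 18) (.e (nat_lit 303132) (nat_lit 9) (.e (nat_lit 426109) (nat_lit 1) (.e (nat_lit 164324) (nat_lit 230) (.e (nat_lit 171776) (nat_lit 65) (.e (nat_lit 106534) (nat_lit 11) .nil))))))) (.g (nat_lit 5) .nil .nil))) 
(.lf (nat_lit 133353) (.g (nat_lit 4718) (.e (nat_lit 16425) (nat_lit 7) (.e (nat_lit 409649) (nat_lit 18) (.e (nat_lit 303140) (nat_lit 10) (.e (nat_lit 434275) (nat_lit 39) (.e (nat_lit 663585) (nat_lit 12) (.e (nat_lit 164022) (nat_lit 46) (.e (nat_lit 704737) (nat_lit 11) .nil))))))) (.g (nat_lit 7) .nil .nil))))) (.nd (nat_lit 5) (.nd (nat_lit 6) 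
(.lf (nat_lit 133273) (.g (nat_lit 2326) (.e (nat_lit 16425) (nat_lit 7) (.e (nat_lit 409648) (nat_lit 18) (.e (nat_lit 303143) (nat_lit 12) (.e (nat_lit 475220) (nat_lit 44) (.e (nat_lit 737318) (nat_lit 15) (.e (nat_lit 49185) (nat_lit 11) .nil)))))) (.g (nat_lit 4) .nil .nil))) 
(.lf (nat_lit 133337) (.g (nat_lit 3300) (.e (nat_lit 16425) (nat_lit 7) (.e (nat_lit 409649) (nat_lit 18) (.e (nat_lit 303140) (nat_lit 10) (.e (nat_lit 434275) (nat_lit 39) (.e (nat_lit 663574) (nat_lit 9) (.e (nat_lit 2470) (nat_lit 157) (.e (nat_lit 3537) (nat_lit 218) (.e (nat_lit 704738) (nat_lit 11) .nil)))))))) (.g (nat_lit 5) .nil .nil)))) (.nd (nat_lit 6) 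
(.lf (nat_lit 133305) (.g (nat_lit 1538) (.e (nat_lit 16425) (nat_lit 7) (.e (nat_lit 409649) (nat_lit 18) (.e (nat_lit 303140) (nat_lit 10) (.e (nat_lit 434206) (nat_lit 18) (.e (nat_lit 5970) (nat_lit 324) .nil))))) .nil)) 
(.lf (nat_lit 133369) (.g (nat_lit 2527) (.e (nat_lit 16425) (nat_lit 7) (.e (nat_lit 409649) (nat_lit 18) (.e (nat_lit 303143) (nat_lit 12) (.e (nat_lit 475212) (nat_lit 42) (.e (nat_lit 720922) (nat_lit 20) (.e (nat_lit 2155) (nat_lit 142) (.e (nat_lit 704736) (nat_lit 11) .nil))))))) (.g (nat_lit 4) .nil .nil))))))) (.nd (nat_lit 3) (.nd (nat_lit 4) (.nd (nat_lit 5) (.nd (nat_lit 6) 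
(.lf (nat_lit 133253) (.g (nat_lit 2303) (.e (nat_lit 16425) (nat_lit 7) (.e (nat_lit 409648) (nat_lit 18) (.e (nat_lit 303142) (nat_lit 12) (.e (nat_lit 475212) (nat_lit 42) (.e (nat_lit 720920) (nat_lit 20) (.e (nat_lit 2155) (nat_lit 142) (.e (nat_lit 704736) (nat_lit 11) .nil))))))) (.g (nat_lit 4) .nil .nil))) 
(.lf (nat_lit 133317) (.g (nat_lit 2590) (.e (nat_lit 16425) (nat_lit 7) (.e (nat_lit 409649) (nat_lit 18) (.e (nat_lit 303140) (nat_lit 10) (.e (nat_lit 434272) (nat_lit 38) (.e (nat_lit 655364) (nat_lit 0) (.e (nat_lit 2612) (nat_lit 163) (.e (nat_lit 171776) (nat_lit 195) (.e (nat_lit 1128) (nat_lit 83) .nil)))))))) (.g (nat_lit 4) .nil .nil)))) (.nd (nat_lit 6) 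
(.lf (nat_lit 133285) (.g (nat_lit 1729) (.e (nat_lit 16425) (nat_lit 7) (.e (nat_lit 409649) (nat_lit 18) (.e (nat_lit 303132) (nat_lit 9) (.e (nat_lit 426025) (nat_lit 0) .nil)))) .nil)) 
(.lf (nat_lit 133349) (.g (nat_lit 3049) (.e (nat_lit 16425) (nat_lit 7) (.e (nat_lit 409649) (nat_lit 18) (.e (nat_lit 303140) (nat_lit 10) (.e (nat_lit 434275) (nat_lit 39) (.e (nat_lit 663580) (nat_lit 9) (.e (nat_lit 2478) (nat_lit 157) (.e (nat_lit 7936) (nat_lit 218) (.e (nat_lit 704737) (nat_lit 11) .nil)))))))) (.g (nat_lit 5) .nil .nil))))) (.nd (nat_lit 5) (.nd (nat_lit 6) 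
(.lf (nat_lit 133269) (.g (nat_lit 2492) (.e (nat_lit 16425) (nat_lit 7) (.e (nat_lit 409648) (nat_lit 18) (.e (nat_lit 303143) (nat_lit 12) (.e (nat_lit 475220) (nat_lit 44) (.e (nat_lit 737305) (nat_lit 11) (.e (nat_lit 751) (nat_lit 66) (.e (nat_lit 704736) (nat_lit 11) .nil))))))) (.g (nat_lit 4) .nil .nil))) 
(.lf (nat_lit 133333) (.g (nat_lit 3134) (.e (nat_lit 16425) (nat_lit 7) (.e (nat_lit 409649) (nat_lit 18) (.e (nat_lit 303140) (nat_lit 10) (.e (nat_lit 434275) (nat_lit 39) (.e (nat_lit 663574) (nat_lit 9) (.e (nat_lit 2418) (nat_lit 157) (.e (nat_lit 3519) (nat_lit 218) (.e (nat_lit 704736) (nat_lit 11) .nil)))))))) (.g (nat_lit 5) .nil .nil)))) (.nd (nat_lit 6) 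
(.lf (nat_lit 133301) (.g (nat_lit 1349) (.e (nat_lit 16425) (nat_lit 7) (.e (nat_lit 409649) (nat_lit 18) (.e (nat_lit 303140) (nat_lit 10) (.e (nat_lit 434201) (nat_lit 18) .nil)))) .nil)) 
(.lf (nat_lit 133365) (.g (nat_lit 2942) (.e (nat_lit 16425) (nat_lit 7) (.e (nat_lit 409649) (nat_lit 18) (.e (nat_lit 303143) (nat_lit 12) (.e (nat_lit 475199) (nat_lit 40) (.e (nat_lit 704677) (nat_lit 9) .nil))))) .nil))))) (.nd (nat_lit 4) (.nd (nat_lit 5) (.nd (nat_lit 6) 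
(.lf (nat_lit 133261) (.g (nat_lit 2464) (.e (nat_lit 16425) (nat_lit 7) (.e (nat_lit 409648) (nat_lit 18) (.e (nat_lit 303143) (nat_lit 12) (.e (nat_lit 475212) (nat_lit 42) (.e (nat_lit 720922) (nat_lit 20) (.e (nat_lit 2155) (nat_lit 142) (.e (nat_lit 704736) (nat_lit 11) .nil))))))) (.g (nat_lit 4) .nil .nil))) 
(.lf (nat_lit 133325) (.g (nat_lit 2493) (.e (nat_lit 16425) (nat_lit 7) (.e (nat_lit 409649) (nat_lit 18) (.e (nat_lit 303140) (nat_lit 10) (.e (nat_lit 434272) (nat_lit 38) (.e (nat_lit 663296) (nat_lit 17) (.e (nat_lit 164097) (nat_lit 107) (.e (nat_lit 704736) (nat_lit 11) .nil))))))) (.g (nat_lit 4) .nil .nil)))) (.nd (nat_lit 6) 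
(.lf (nat_lit 133293) (.g (nat_lit 1458) (.e (nat_lit 16425) (nat_lit 7) (.e (nat_lit 409649) (nat_lit 18) (.e (nat_lit 303132) (nat_lit 9) (.e (nat_lit 433920) (nat_lit 20) .nil)))) .nil)) 
(.lf (nat_lit 133357) (.g (nat_lit 3311) (.e (nat_lit 16425) (nat_lit 7) (.e (nat_lit 409649) (nat_lit 18) (.e (nat_lit 303140) (nat_lit 10) (.e (nat_lit 434275) (nat_lit 39) (.e (nat_lit 663589) (nat_lit 14) (.e (nat_lit 1077) (nat_lit 81) (.e (nat_lit 751) (nat_lit 66) (.e (nat_lit 704736) (nat_lit 11) .nil)))))))) (.g (nat_lit 5) .nil .nil))))) (.nd (nat_lit 5) (.nd (nat_lit 6) 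
(.lf (nat_lit 133277) (.g (nat_lit 2965) (.e (nat_lit 16425) (nat_lit 7) (.e (nat_lit 409648) (nat_lit 18) (.e (nat_lit 303146) (nat_lit 14) (.e (nat_lit 491566) (nat_lit 12) (.e (nat_lit 385045) (nat_lit 21) .nil))))) .nil)) 
(.lf (nat_lit 133341) (.g (nat_lit 1962) (.e (nat_lit 16425) (nat_lit 7) (.e (nat_lit 409649) (nat_lit 18) (.e (nat_lit 303140) (nat_lit 10) (.e (nat_lit 434275) (nat_lit 39) (.e (nat_lit 663578) (nat_lit 9) .nil))))) .nil))) (.nd (nat_lit 6) 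
(.lf (nat_lit 133309) (.g (nat_lit 1328) (.e (nat_lit 16425) (nat_lit 7) (.e (nat_lit 409649) (nat_lit 18) (.e (nat_lit 303140) (nat_lit 10) (.e (nat_lit 442112) (nat_lit 37) .nil)))) .nil)) 
(.lf (nat_lit 133373) (.g (nat_lit 2100) (.e (nat_lit 16425) (nat_lit 7) (.e (nat_lit 409649) (nat_lit 18) (.e (nat_lit 303143) (nat_lit 12) (.e (nat_lit 475212) (nat_lit 42) (.e (nat_lit 720948) (nat_lit 24) (.e (nat_lit 106534) (nat_lit 11) .nil)))))) (.g (nat_lit 4) .nil .nil)))))))) (.nd (nat_lit 2) (.nd (nat_lit 3) (.nd (nat_lit 4) (.nd (nat_lit 5) (.nd (nat_lit 6) 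
(.lf (nat_lit 133251) (.g (nat_lit 2547) (.e (nat_lit 16425) (nat_lit 7) (.e (nat_lit 409648) (nat_lit 18) (.e (nat_lit 303142) (nat_lit 12) (.e (nat_lit 475199) (nat_lit 40) (.e (nat_lit 704836) (nat_lit 14) (.e (nat_lit 2427) (nat_lit 157) (.e (nat_lit 794) (nat_lit 66) (.e (nat_lit 704738) (nat_lit 11) .nil)))))))) (.g (nat_lit 4) .nil .nil))) 
(.lf (nat_lit 133315) (.g (nat_lit 2329) (.e (nat_lit 16425) (nat_lit 7) (.e (nat_lit 409649) (nat_lit 18) (.e (nat_lit 303140) (nat_lit 10) (.e (nat_lit 434271) (nat_lit 38) (.e (nat_lit 663296) (nat_lit 17) (.e (nat_lit 164097) (nat_lit 107) (.e (nat_lit 704736) (nat_lit 11) .nil))))))) (.g (nat_lit 4) .nil .nil)))) (.nd (nat_lit 6) 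
(.lf (nat_lit 133283) (.g (nat_lit 2130) (.e (nat_lit 16425) (nat_lit 7) (.e (nat_lit 409649) (nat_lit 18) (.e (nat_lit 303127) (nat_lit 9) (.e (nat_lit 426448) (nat_lit 20) (.e (nat_lit 114722) (nat_lit 24) .nil))))) .nil)) 
(.lf (nat_lit 133347) (.g (nat_lit 3416) (.e (nat_lit 16425) (nat_lit 7) (.e (nat_lit 409649) (nat_lit 18) (.e (nat_lit 303140) (nat_lit 10) (.e (nat_lit 434275) (nat_lit 39) (.e (nat_lit 663580) (nat_lit 9) (.e (nat_lit 2448) (nat_lit 157) (.e (nat_lit 3516) (nat_lit 218) (.e (nat_lit 704736) (nat_lit 11) .nil)))))))) (.g (nat_lit 5) .nil .nil))))) (.nd (nat_lit 5) (.nd (nat_lit 6) 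
(.lf (nat_lit 133267) (.g (nat_lit 1769) (.e (nat_lit 16425) (nat_lit 7) (.e (nat_lit 409648) (nat_lit 18) (.e (nat_lit 303143) (nat_lit 12) (.e (nat_lit 475220) (nat_lit 44) (.e (nat_lit 737303) (nat_lit 11) .nil))))) .nil)) 
(.lf (nat_lit 133331) (.g (nat_lit 2401) (.e (nat_lit 16425) (nat_lit 7) (.e (nat_lit 409649) (nat_lit 18) (.e (nat_lit 303140) (nat_lit 10) (.e (nat_lit 434275) (nat_lit 39) (.e (nat_lit 663574) (nat_lit 9) (.e (nat_lit 2417) (nat_lit 157) (.e (nat_lit 3498) (nat_lit 218) (.e (nat_lit 704736) (nat_lit 11) .nil)))))))) (.g (nat_lit 4) .nil .nil)))) (.nd (nat_lit 6) 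
(.lf (nat_lit 133299) (.g (nat_lit 1341) (.e (nat_lit 16425) (nat_lit 7) (.e (nat_lit 409649) (nat_lit 18) (.e (nat_lit 303140) (nat_lit 10) (.e (nat_lit 434199) (nat_lit 18) .nil)))) .nil)) 
(.lf (nat_lit 133363) (.g (nat_lit 1256) (.e (nat_lit 16425) (nat_lit 7) (.e (nat_lit 409649) (nat_lit 18) (.e (nat_lit 303143) (nat_lit 12) (.e (nat_lit 475197) (nat_lit 40) .nil)))) .nil))))) (.nd (nat_lit 4) (.nd (nat_lit 5) (.nd (nat_lit 6) 
(.lf (nat_lit 133259) (.g (nat_lit 983) (.e (nat_lit 16425) (nat_lit 7) (.e (nat_lit 409648) (nat_lit 18) (.e (nat_lit 303143) (nat_lit 12) (.e (nat_lit 475212) (nat_lit 42) .nil)))) .nil)) 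
(.lf (nat_lit 133323) (.g (nat_lit 1838) (.e (nat_lit 16425) (nat_lit 7) (.e (nat_lit 409649) (nat_lit 18) (.e (nat_lit 303140) (nat_lit 10) (.e (nat_lit 434272) (nat_lit 38) (.e (nat_lit 655398) (nat_lit 12) .nil))))) .nil))) (.nd (nat_lit 6) 
(.lf (nat_lit 133291) (.g (nat_lit 1897) (.e (nat_lit 16425) (nat_lit 7) (.e (nat_lit 409649) (nat_lit 18) (.e (nat_lit 303132) (nat_lit 9) (.e (nat_lit 426109) (nat_lit 1) (.e (nat_lit 164331) (nat_lit 230) (.e (nat_lit 171776) (nat_lit 65) (.e (nat_lit 106534) (nat_lit 11) .nil))))))) (.g (nat_lit 4) .nil .nil))) 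
(.lf (nat_lit 133355) (.g (nat_lit 2760) (.e (nat_lit 16425) (nat_lit 7) (.e (nat_lit 409649) (nat_lit 18) (.e (nat_lit 303140) (nat_lit 10) (.e (nat_lit 434275) (nat_lit 39) (.e (nat_lit 663585) (nat_lit 12) (.e (nat_lit 171776) (nat_lit 46) (.e (nat_lit 704732) (nat_lit 11) .nil))))))) (.g (nat_lit 4) .nil .nil))))) (.nd (nat_lit 5) (.nd (nat_lit 6) 
(.lf (nat_lit 133275) (.g (nat_lit 2943) (.e (nat_lit 16425) (nat_lit 7) (.e (nat_lit 409648) (nat_lit 18) (.e (nat_lit 303146) (nat_lit 14) (.e (nat_lit 491566) (nat_lit 12) (.e (nat_lit 385043) (nat_lit 21) .nil))))) .nil)) 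
(.lf (nat_lit 133339) (.g (nat_lit 3087) (.e (nat_lit 16425) (nat_lit 7) (.e (nat_lit 409649) (nat_lit 18) (.e (nat_lit 303140) (nat_lit 10) (.e (nat_lit 434275) (nat_lit 39) (.e (nat_lit 663574) (nat_lit 9) (.e (nat_lit 2476) (nat_lit 157) (.e (nat_lit 3537) (nat_lit 218) (.e (nat_lit 704738) (nat_lit 11) .nil)))))))) (.g (nat_lit 5) .nil .nil)))) (.nd (nat_lit 6) 
(.lf (nat_lit 133307) (.g (nat_lit 2046) (.e (nat_lit 16425) (nat_lit 7) (.e (nat_lit 409649) (nat_lit 18) (.e (nat_lit 303140) (nat_lit 10) (.e (nat_lit 434209) (nat_lit 18) (.e (nat_lit 5231) (nat_lit 296) .nil))))) .nil)) 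
(.lf (nat_lit 133371) (.g (nat_lit 2716) (.e (nat_lit 16425) (nat_lit 7) (.e (nat_lit 409649) (nat_lit 18) (.e (nat_lit 303143) (nat_lit 12) (.e (nat_lit 475212) (nat_lit 42) (.e (nat_lit 720946) (nat_lit 24) (.e (nat_lit 106534) (nat_lit 11) .nil)))))) (.g (nat_lit 4) .nil .nil))))))) (.nd (nat_lit 3) (.nd (nat_lit 4) (.nd (nat_lit 5) (.nd (nat_lit 6) 
(.lf (nat_lit 133255) (.g (nat_lit 2772) (.e (nat_lit 16425) (nat_lit 7) (.e (nat_lit 409648) (nat_lit 18) (.e (nat_lit 303142) (nat_lit 12) (.e (nat_lit 475214) (nat_lit 42) (.e (nat_lit 720949) (nat_lit 24) (.e (nat_lit 106534) (nat_lit 11) .nil)))))) (.g (nat_lit 4) .nil .nil))) 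
(.lf (nat_lit 133319) (.g (nat_lit 2533) (.e (nat_lit 16425) (nat_lit 7) (.e (nat_lit 409649) (nat_lit 18) (.e (nat_lit 303140) (nat_lit 10) (.e (nat_lit 434272) (nat_lit 38) (.e (nat_lit 655396) (nat_lit 12) (.e (nat_lit 57533) (nat_lit 46) (.e (nat_lit 704732) (nat_lit 11) .nil))))))) (.g (nat_lit 4) .nil .nil)))) (.nd (nat_lit 6) 
(.lf (nat_lit 133287) (.g (nat_lit 2988) (.e (nat_lit 16425) (nat_lit 7) (.e (nat_lit 409649) (nat_lit 18) (.e (nat_lit 303132) (nat_lit 9) (.e (nat_lit 426025) (nat_lit 0) (.e (nat_lit 3397) (nat_lit 211) (.e (nat_lit 647190) (nat_lit 9) (.e (nat_lit 1320) (nat_lit 99) (.e (nat_lit 155669) (nat_lit 11) .nil)))))))) (.g (nat_lit 4) .nil .nil))) 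
(.lf (nat_lit 133351) (.g (nat_lit 4773) (.e (nat_lit 16425) (nat_lit 7) (.e (nat_lit 409649) (nat_lit 18) (.e (nat_lit 303140) (nat_lit 10) (.e (nat_lit 434275) (nat_lit 39) (.e (nat_lit 663584) (nat_lit 12) (.e (nat_lit 164023) (nat_lit 46) (.e (nat_lit 704738) (nat_lit 11) .nil))))))) (.g (nat_lit 0) .nil .nil))))) (.nd (nat_lit 5) (.nd (nat_lit 6) 
(.lf (nat_lit 133271) (.g (nat_lit 2453) (.e (nat_lit 16425) (nat_lit 7) (.e (nat_lit 409648) (nat_lit 18) (.e (nat_lit 303143) (nat_lit 12) (.e (nat_lit 475220) (nat_lit 44) (.e (nat_lit 737306) (nat_lit 11) (.e (nat_lit 751) (nat_lit 66) (.e (nat_lit 704736) (nat_lit 11) .nil))))))) (.g (nat_lit 4) .nil .nil))) 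
(.lf (nat_lit 133335) (.g (nat_lit 2936) (.e (nat_lit 16425) (nat_lit 7) (.e (nat_lit 409649) (nat_lit 18) (.e (nat_lit 303140) (nat_lit 10) (.e (nat_lit 434275) (nat_lit 39) (.e (nat_lit 663574) (nat_lit 9) (.e (nat_lit 2450) (nat_lit 157) (.e (nat_lit 3521) (nat_lit 218) (.e (nat_lit 704736) (nat_lit 11) .nil)))))))) (.g (nat_lit 5) .nil .nil)))) (.nd (nat_lit 6) 
(.lf (nat_lit 133303) (.g (nat_lit 1865) (.e (nat_lit 16425) (nat_lit 7) (.e (nat_lit 409649) (nat_lit 18) (.e (nat_lit 303140) (nat_lit 10) (.e (nat_lit 434202) (nat_lit 18) (.e (nat_lit 5796) (nat_lit 320) .nil))))) .nil)) 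
(.lf (nat_lit 133367) (.g (nat_lit 2052) (.e (nat_lit 16425) (nat_lit 7) (.e (nat_lit 409649) (nat_lit 18) (.e (nat_lit 303143) (nat_lit 12) (.e (nat_lit 475212) (nat_lit 42) (.e (nat_lit 720912) (nat_lit 20) .nil))))) .nil))))) (.nd (nat_lit 4) (.nd (nat_lit 5) (.nd (nat_lit 6) 
(.lf (nat_lit 133263) (.g (nat_lit 2245) (.e (nat_lit 16425) (nat_lit 7) (.e (nat_lit 409648) (nat_lit 18) (.e (nat_lit 303143) (nat_lit 12) (.e (nat_lit 475212) (nat_lit 42) (.e (nat_lit 720947) (nat_lit 24) (.e (nat_lit 106534) (nat_lit 11) .nil)))))) (.g (nat_lit 4) .nil .nil))) 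
(.lf (nat_lit 133327) (.g (nat_lit 1341) (.e (nat_lit 16425) (nat_lit 7) (.e (nat_lit 409649) (nat_lit 18) (.e (nat_lit 303140) (nat_lit 10) (.e (nat_lit 434274) (nat_lit 39) .nil)))) .nil))) (.nd (nat_lit 6) 
(.lf (nat_lit 133295) (.g (nat_lit 998) (.e (nat_lit 16425) (nat_lit 7) (.e (nat_lit 409649) (nat_lit 18) (.e (nat_lit 303135) (nat_lit 10) .nil))) .nil)) 
(.lf (nat_lit 133359) (.g (nat_lit 956) (.e (nat_lit 16425) (nat_lit 7) (.e (nat_lit 409649) (nat_lit 18) (.e (nat_lit 303141) (nat_lit 11) .nil))) .nil)))) (.nd (nat_lit 5) (.nd (nat_lit 6) 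
(.lf (nat_lit 133279) (.g (nat_lit 821) (.e (nat_lit 16425) (nat_lit 7) (.e (nat_lit 409649) (nat_lit 18) (.e (nat_lit 303107) (nat_lit 0) .nil))) .nil)) 
(.lf (nat_lit 133343) (.g (nat_lit 2502) (.e (nat_lit 16425) (nat_lit 7) (.e (nat_lit 409649) (nat_lit 18) (.e (nat_lit 303140) (nat_lit 10) (.e (nat_lit 434275) (nat_lit 39) (.e (nat_lit 663579) (nat_lit 9) (.e (nat_lit 2438) (nat_lit 157) (.e (nat_lit 3540) (nat_lit 218) (.e (nat_lit 704736) (nat_lit 11) .nil)))))))) (.g (nat_lit 4) .nil .nil)))) (.nd (nat_lit 6) 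
(.lf (nat_lit 133311) (.g (nat_lit 1317) (.e (nat_lit 16425) (nat_lit 7) (.e (nat_lit 409649) (nat_lit 18) (.e (nat_lit 303140) (nat_lit 10) (.e (nat_lit 434271) (nat_lit 38) .nil)))) .nil)) 
(.lf (nat_lit 133375) (.g (nat_lit 2510) (.e (nat_lit 16425) (nat_lit 7) (.e (nat_lit 409649) (nat_lit 18) (.e (nat_lit 303143) (nat_lit 12) (.e (nat_lit 475214) (nat_lit 42) (.e (nat_lit 720948) (nat_lit 24) (.e (nat_lit 106534) (nat_lit 11) .nil)))))) (.g (nat_lit 4) .nil .nil))))))))))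

noncomputable def tv1777 : DT := (.nd (nat_lit 0) (.nd (nat_lit 1) (.nd (nat_lit 2) (.nd (nat_lit 3) (.nd (nat_lit 4) (.nd (nat_lit 5) 
(.lf (nat_lit 133376) (.g (nat_lit 1210) (.e (nat_lit 16425) (nat_lit 7) (.e (nat_lit 409649) (nat_lit 18) (.e (nat_lit 303143) (nat_lit 12) (.e (nat_lit 475218) (nat_lit 44) .nil)))) .nil)) 
(.lf (nat_lit 133408) (.g (nat_lit 2394) (.e (nat_lit 16428) (nat_lit 8) (.e (nat_lit 417829) (nat_lit 18) (.e (nat_lit 303143) (nat_lit 12) (.e (nat_lit 475212) (nat_lit 42) (.e (nat_lit 720952) (nat_lit 24) .nil))))) .nil))) (.nd (nat_lit 5) 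
(.lf (nat_lit 133392) (.g (nat_lit 4009) (.e (nat_lit 16425) (nat_lit 7) (.e (nat_lit 409649) (nat_lit 18) (.e (nat_lit 303146) (nat_lit 14) (.e (nat_lit 491566) (nat_lit 12) (.e (nat_lit 385044) (nat_lit 21) (.e (nat_lit 7660) (nat_lit 410) (.e (nat_lit 1126) (nat_lit 83) .nil))))))) (.g (nat_lit 4) .nil .nil))) 
(.lf (nat_lit 133424) (.g (nat_lit 2454) (.e (nat_lit 16431) (nat_lit 9) (.e (nat_lit 426499) (nat_lit 27) (.e (nat_lit 336231) (nat_lit 14) (.e (nat_lit 401448) (nat_lit 10) (.e (nat_lit 434291) (nat_lit 44) .nil))))) .nil)))) (.nd (nat_lit 4) (.nd (nat_lit 5) 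
(.lf (nat_lit 133384) (.g (nat_lit 677) (.e (nat_lit 16425) (nat_lit 7) (.e (nat_lit 409649) (nat_lit 18) (.e (nat_lit 303146) (nat_lit 14) .nil))) .nil)) 
(.lf (nat_lit 133416) (.g (nat_lit 2072) (.e (nat_lit 16431) (nat_lit 9) (.e (nat_lit 426125) (nat_lit 2) (.e (nat_lit 204544) (nat_lit 2) (.e (nat_lit 24650) (nat_lit 12) (.e (nat_lit 392960) (nat_lit 2) .nil))))) (.g (nat_lit 4) .nil .nil)))) (.nd (nat_lit 5) 
(.lf (nat_lit 133400) (.g (nat_lit 2741) (.e (nat_lit 16425) (nat_lit 7) (.e (nat_lit 409650) (nat_lit 19) (.e (nat_lit 311325) (nat_lit 9) (.e (nat_lit 426448) (nat_lit 20) (.e (nat_lit 114721) (nat_lit 24) .nil))))) .nil)) 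
(.lf (nat_lit 133432) (.g (nat_lit 358) (.e (nat_lit 16431) (nat_lit 9) (.e (nat_lit 426550) (nat_lit 31) (.e (nat_lit 368656) (nat_lit 14) .nil))) .nil))))) (.nd (nat_lit 3) (.nd (nat_lit 4) (.nd (nat_lit 5) 
(.lf (nat_lit 133380) (.g (nat_lit 2311) (.e (nat_lit 16425) (nat_lit 7) (.e (nat_lit 409649) (nat_lit 18) (.e (nat_lit 303143) (nat_lit 12) (.e (nat_lit 475220) (nat_lit 44) (.e (nat_lit 737306) (nat_lit 11) (.e (nat_lit 751) (nat_lit 66) (.e (nat_lit 704736) (nat_lit 11) .nil))))))) (.g (nat_lit 4) .nil .nil))) 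
(.lf (nat_lit 133412) (.g (nat_lit 489) (.e (nat_lit 16430) (nat_lit 8) (.e (nat_lit 417820) (nat_lit 10) (.e (nat_lit 5766) (nat_lit 316) .nil))) .nil))) (.nd (nat_lit 5) 
(.lf (nat_lit 133396) (.g (nat_lit 5090) (.e (nat_lit 16425) (nat_lit 7) (.e (nat_lit 409649) (nat_lit 18) (.e (nat_lit 303146) (nat_lit 14) (.e (nat_lit 491566) (nat_lit 12) (.e (nat_lit 385116) (nat_lit 54) (.e (nat_lit 819237) (nat_lit 11) .nil)))))) (.g (nat_lit 0) .nil .nil))) 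
(.lf (nat_lit 133428) (.g (nat_lit 3604) (.e (nat_lit 16431) (nat_lit 9) (.e (nat_lit 426528) (nat_lit 27) (.e (nat_lit 335894) (nat_lit 0) (.e (nat_lit 6722) (nat_lit 362) (.e (nat_lit 180272) (nat_lit 26) (.e (nat_lit 704738) (nat_lit 11) .nil)))))) (.g (nat_lit 0) .nil .nil))))) (.nd (nat_lit 4) (.nd (nat_lit 5) 
(.lf (nat_lit 133388) (.g (nat_lit 3324) (.e (nat_lit 16425) (nat_lit 7) (.e (nat_lit 409649) (nat_lit 18) (.e (nat_lit 303146) (nat_lit 14) (.e (nat_lit 491566) (nat_lit 12) (.e (nat_lit 385043) (nat_lit 21) .nil))))) .nil)) 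
(.lf (nat_lit 133420) (.g (nat_lit 1368) (.e (nat_lit 16431) (nat_lit 9) (.e (nat_lit 426414) (nat_lit 15) (.e (nat_lit 1855) (nat_lit 124) (.e (nat_lit 557098) (nat_lit 13) (.e (nat_lit 172115) (nat_lit 10) .nil))))) .nil))) (.nd (nat_lit 5) 
(.lf (nat_lit 133404) (.g (nat_lit 1911) (.e (nat_lit 16428) (nat_lit 8) (.e (nat_lit 417824) (nat_lit 13) (.e (nat_lit 40963) (nat_lit 0) (.e (nat_lit 1454) (nat_lit 108) (.e (nat_lit 336099) (nat_lit 9) (.e (nat_lit 336013) (nat_lit 2) (.e (nat_lit 98048) (nat_lit 2) .nil))))))) (.g (nat_lit 6) .nil .nil))) 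
(.lf (nat_lit 133436) (.g (nat_lit 2240) (.e (nat_lit 16431) (nat_lit 9) (.e (nat_lit 426566) (nat_lit 34) (.e (nat_lit 393252) (nat_lit 18) (.e (nat_lit 164330) (nat_lit 230) (.e (nat_lit 163869) (nat_lit 2) (.e (nat_lit 196656) (nat_lit 11) .nil)))))) (.g (nat_lit 4) .nil .nil))))))) (.nd (nat_lit 2) (.nd (nat_lit 3) (.nd (nat_lit 4) (.nd (nat_lit 5) 
(.lf (nat_lit 133378) (.g (nat_lit 2429) (.e (nat_lit 16425) (nat_lit 7) (.e (nat_lit 409649) (nat_lit 18) (.e (nat_lit 303143) (nat_lit 12) (.e (nat_lit 475220) (nat_lit 44) (.e (nat_lit 737304) (nat_lit 11) (.e (nat_lit 753) (nat_lit 66) (.e (nat_lit 704738) (nat_lit 11) .nil))))))) (.g (nat_lit 4) .nil .nil))) 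
(.lf (nat_lit 133410) (.g (nat_lit 1316) (.e (nat_lit 16429) (nat_lit 8) (.e (nat_lit 417806) (nat_lit 3) (.e (nat_lit 49200) (nat_lit 14) (.e (nat_lit 1356) (nat_lit 102) (.e (nat_lit 286747) (nat_lit 9) (.e (nat_lit 336013) (nat_lit 2) (.e (nat_lit 98048) (nat_lit 2) .nil))))))) (.g (nat_lit 6) .nil .nil)))) (.nd (nat_lit 5) 
(.lf (nat_lit 133394) (.g (nat_lit 3451) (.e (nat_lit 16425) (nat_lit 7) (.e (nat_lit 409649) (nat_lit 18) (.e (nat_lit 303146) (nat_lit 14) (.e (nat_lit 491566) (nat_lit 12) (.e (nat_lit 385045) (nat_lit 21) (.e (nat_lit 7660) (nat_lit 410) (.e (nat_lit 1126) (nat_lit 83) .nil))))))) (.g (nat_lit 4) .nil .nil))) 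
(.lf (nat_lit 133426) (.g (nat_lit 3792) (.e (nat_lit 16431) (nat_lit 9) (.e (nat_lit 426499) (nat_lit 27) (.e (nat_lit 336232) (nat_lit 14) (.e (nat_lit 401448) (nat_lit 10) (.e (nat_lit 434291) (nat_lit 44) (.e (nat_lit 704737) (nat_lit 11) .nil)))))) (.g (nat_lit 5) .nil .nil))))) (.nd (nat_lit 4) (.nd (nat_lit 5) 
(.lf (nat_lit 133386) (.g (nat_lit 1597) (.e (nat_lit 16425) (nat_lit 7) (.e (nat_lit 409649) (nat_lit 18) (.e (nat_lit 303146) (nat_lit 14) (.e (nat_lit 491560) (nat_lit 10) .nil)))) .nil)) 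
(.lf (nat_lit 133418) (.g (nat_lit 2090) (.e (nat_lit 16431) (nat_lit 9) (.e (nat_lit 426140) (nat_lit 3) (.e (nat_lit 212736) (nat_lit 16) (.e (nat_lit 491566) (nat_lit 12) (.e (nat_lit 392960) (nat_lit 2) .nil))))) (.g (nat_lit 4) .nil .nil)))) (.nd (nat_lit 5) 
(.lf (nat_lit 133402) (.g (nat_lit 1764) (.e (nat_lit 16426) (nat_lit 8) (.e (nat_lit 417824) (nat_lit 13) (.e (nat_lit 40963) (nat_lit 0) (.e (nat_lit 1454) (nat_lit 108) (.e (nat_lit 336099) (nat_lit 9) (.e (nat_lit 336013) (nat_lit 2) (.e (nat_lit 98048) (nat_lit 2) .nil))))))) (.g (nat_lit 6) .nil .nil))) 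
(.lf (nat_lit 133434) (.g (nat_lit 2975) (.e (nat_lit 16431) (nat_lit 9) (.e (nat_lit 426566) (nat_lit 34) (.e (nat_lit 393251) (nat_lit 18) (.e (nat_lit 164332) (nat_lit 230) (.e (nat_lit 163867) (nat_lit 2) (.e (nat_lit 196656) (nat_lit 11) .nil)))))) (.g (nat_lit 4) .nil .nil)))))) (.nd (nat_lit 3) (.nd (nat_lit 4) (.nd (nat_lit 5) 
(.lf (nat_lit 133382) (.g (nat_lit 1932) (.e (nat_lit 16425) (nat_lit 7) (.e (nat_lit 409649) (nat_lit 18) (.e (nat_lit 303143) (nat_lit 12) (.e (nat_lit 475220) (nat_lit 44) (.e (nat_lit 737310) (nat_lit 11) .nil))))) .nil)) 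
(.lf (nat_lit 133414) (.g (nat_lit 3005) (.e (nat_lit 16431) (nat_lit 9) (.e (nat_lit 426109) (nat_lit 1) (.e (nat_lit 164319) (nat_lit 228) (.e (nat_lit 57427) (nat_lit 15) (.e (nat_lit 360483) (nat_lit 15) (.e (nat_lit 647199) (nat_lit 11) .nil)))))) (.g (nat_lit 0) .nil .nil)))) (.nd (nat_lit 5) 
(.lf (nat_lit 133398) (.g (nat_lit 2185) (.e (nat_lit 16425) (nat_lit 7) (.e (nat_lit 409650) (nat_lit 19) (.e (nat_lit 311322) (nat_lit 9) (.e (nat_lit 426448) (nat_lit 20) (.e (nat_lit 114721) (nat_lit 24) .nil))))) .nil)) 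
(.lf (nat_lit 133430) (.g (nat_lit 2682) (.e (nat_lit 16431) (nat_lit 9) (.e (nat_lit 426528) (nat_lit 27) (.e (nat_lit 336231) (nat_lit 14) (.e (nat_lit 401444) (nat_lit 9) (.e (nat_lit 426163) (nat_lit 6) (.e (nat_lit 253991) (nat_lit 11) .nil)))))) (.g (nat_lit 4) .nil .nil))))) (.nd (nat_lit 4) (.nd (nat_lit 5) 
(.lf (nat_lit 133390) (.g (nat_lit 3351) (.e (nat_lit 16425) (nat_lit 7) (.e (nat_lit 409649) (nat_lit 18) (.e (nat_lit 303146) (nat_lit 14) (.e (nat_lit 491566) (nat_lit 12) (.e (nat_lit 385043) (nat_lit 21) (.e (nat_lit 7620) (nat_lit 410) (.e (nat_lit 1126) (nat_lit 83) .nil))))))) (.g (nat_lit 4) .nil .nil))) 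
(.lf (nat_lit 133422) (.g (nat_lit 2293) (.e (nat_lit 16431) (nat_lit 9) (.e (nat_lit 426496) (nat_lit 27) (.e (nat_lit 336232) (nat_lit 14) (.e (nat_lit 401448) (nat_lit 10) (.e (nat_lit 434291) (nat_lit 44) (.e (nat_lit 704737) (nat_lit 11) .nil)))))) (.g (nat_lit 5) .nil .nil)))) (.nd (nat_lit 5) 
(.lf (nat_lit 133406) (.g (nat_lit 2648) (.e (nat_lit 16428) (nat_lit 8) (.e (nat_lit 417828) (nat_lit 18) (.e (nat_lit 303143) (nat_lit 12) (.e (nat_lit 475212) (nat_lit 42) (.e (nat_lit 720952) (nat_lit 24) .nil))))) .nil)) 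
(.lf (nat_lit 133438) (.g (nat_lit 2862) (.e (nat_lit 16431) (nat_lit 9) (.e (nat_lit 426566) (nat_lit 34) (.e (nat_lit 393253) (nat_lit 18) (.e (nat_lit 164324) (nat_lit 230) (.e (nat_lit 163867) (nat_lit 2) (.e (nat_lit 196656) (nat_lit 11) .nil)))))) (.g (nat_lit 4) .nil .nil)))))))) (.nd (nat_lit 1) (.nd (nat_lit 2) (.nd (nat_lit 3) (.nd (nat_lit 4) (.nd (nat_lit 5) 
(.lf (nat_lit 133377) (.g (nat_lit 2575) (.e (nat_lit 16425) (nat_lit 7) (.e (nat_lit 409649) (nat_lit 18) (.e (nat_lit 303143) (nat_lit 12) (.e (nat_lit 475220) (nat_lit 44) (.e (nat_lit 737303) (nat_lit 11) (.e (nat_lit 753) (nat_lit 66) (.e (nat_lit 704736) (nat_lit 11) .nil))))))) (.g (nat_lit 4) .nil .nil))) 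
(.lf (nat_lit 133409) (.g (nat_lit 1156) (.e (nat_lit 16429) (nat_lit 8) (.e (nat_lit 417794) (nat_lit 0) (.e (nat_lit 826) (nat_lit 70) (.e (nat_lit 737299) (nat_lit 7) (.e (nat_lit 286747) (nat_lit 9) (.e (nat_lit 336013) (nat_lit 2) (.e (nat_lit 98048) (nat_lit 2) .nil))))))) (.g (nat_lit 6) .nil .nil)))) (.nd (nat_lit 5) 
(.lf (nat_lit 133393) (.g (nat_lit 3356) (.e (nat_lit 16425) (nat_lit 7) (.e (nat_lit 409649) (nat_lit 18) (.e (nat_lit 303146) (nat_lit 14) (.e (nat_lit 491566) (nat_lit 12) (.e (nat_lit 385045) (nat_lit 21) .nil))))) .nil)) 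
(.lf (nat_lit 133425) (.g (nat_lit 3622) (.e (nat_lit 16431) (nat_lit 9) (.e (nat_lit 426499) (nat_lit 27) (.e (nat_lit 336231) (nat_lit 14) (.e (nat_lit 401448) (nat_lit 10) (.e (nat_lit 434291) (nat_lit 44) (.e (nat_lit 704737) (nat_lit 11) .nil)))))) (.g (nat_lit 5) .nil .nil))))) (.nd (nat_lit 4) (.nd (nat_lit 5) 
(.lf (nat_lit 133385) (.g (nat_lit 1582) (.e (nat_lit 16425) (nat_lit 7) (.e (nat_lit 409649) (nat_lit 18) (.e (nat_lit 303146) (nat_lit 14) (.e (nat_lit 491548) (nat_lit 9) .nil)))) .nil)) 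
(.lf (nat_lit 133417) (.g (nat_lit 2061) (.e (nat_lit 16431) (nat_lit 9) (.e (nat_lit 426125) (nat_lit 2) (.e (nat_lit 204544) (nat_lit 2) (.e (nat_lit 24653) (nat_lit 12) (.e (nat_lit 392960) (nat_lit 2) .nil))))) (.g (nat_lit 4) .nil .nil)))) (.nd (nat_lit 5) 
(.lf (nat_lit 133401) (.g (nat_lit 2795) (.e (nat_lit 16425) (nat_lit 7) (.e (nat_lit 409650) (nat_lit 19) (.e (nat_lit 311325) (nat_lit 9) (.e (nat_lit 426448) (nat_lit 20) (.e (nat_lit 114723) (nat_lit 24) .nil))))) .nil)) 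
(.lf (nat_lit 133433) (.g (nat_lit 3462) (.e (nat_lit 16431) (nat_lit 9) (.e (nat_lit 426566) (nat_lit 34) (.e (nat_lit 393251) (nat_lit 18) (.e (nat_lit 164325) (nat_lit 230) (.e (nat_lit 163868) (nat_lit 2) (.e (nat_lit 196656) (nat_lit 11) .nil)))))) (.g (nat_lit 6) .nil .nil)))))) (.nd (nat_lit 3) (.nd (nat_lit 4) (.nd (nat_lit 5) 
(.lf (nat_lit 133381) (.g (nat_lit 2605) (.e (nat_lit 16425) (nat_lit 7) (.e (nat_lit 409649) (nat_lit 18) (.e (nat_lit 303143) (nat_lit 12) (.e (nat_lit 475220) (nat_lit 44) (.e (nat_lit 737306) (nat_lit 11) (.e (nat_lit 753) (nat_lit 66) (.e (nat_lit 704736) (nat_lit 11) .nil))))))) (.g (nat_lit 4) .nil .nil))) 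
(.lf (nat_lit 133413) (.g (nat_lit 3762) (.e (nat_lit 16431) (nat_lit 9) (.e (nat_lit 426109) (nat_lit 1) (.e (nat_lit 164196) (nat_lit 158) (.e (nat_lit 1221) (nat_lit 90) (.e (nat_lit 81953) (nat_lit 22) (.e (nat_lit 98048) (nat_lit 2) .nil)))))) (.g (nat_lit 5) .nil .nil)))) (.nd (nat_lit 5) 
(.lf (nat_lit 133397) (.g (nat_lit 872) (.e (nat_lit 16425) (nat_lit 7) (.e (nat_lit 409649) (nat_lit 18) (.e (nat_lit 303151) (nat_lit 27) .nil))) .nil)) 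
(.lf (nat_lit 133429) (.g (nat_lit 2208) (.e (nat_lit 16431) (nat_lit 9) (.e (nat_lit 426528) (nat_lit 27) (.e (nat_lit 335894) (nat_lit 0) (.e (nat_lit 6724) (nat_lit 362) (.e (nat_lit 180271) (nat_lit 26) (.e (nat_lit 704736) (nat_lit 11) .nil)))))) (.g (nat_lit 4) .nil .nil))))) (.nd (nat_lit 4) (.nd (nat_lit 5) 
(.lf (nat_lit 133389) (.g (nat_lit 3473) (.e (nat_lit 16425) (nat_lit 7) (.e (nat_lit 409649) (nat_lit 18) (.e (nat_lit 303146) (nat_lit 14) (.e (nat_lit 491566) (nat_lit 12) (.e (nat_lit 385043) (nat_lit 21) (.e (nat_lit 7616) (nat_lit 410) (.e (nat_lit 1126) (nat_lit 83) .nil))))))) (.g (nat_lit 4) .nil .nil))) 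
(.lf (nat_lit 133421) (.g (nat_lit 2788) (.e (nat_lit 16431) (nat_lit 9) (.e (nat_lit 426496) (nat_lit 27) (.e (nat_lit 336231) (nat_lit 14) (.e (nat_lit 401448) (nat_lit 10) (.e (nat_lit 434291) (nat_lit 44) (.e (nat_lit 704737) (nat_lit 11) .nil)))))) (.g (nat_lit 5) .nil .nil)))) (.nd (nat_lit 5) 
(.lf (nat_lit 133405) (.g (nat_lit 2570) (.e (nat_lit 16428) (nat_lit 8) (.e (nat_lit 417828) (nat_lit 18) (.e (nat_lit 303143) (nat_lit 12) (.e (nat_lit 475212) (nat_lit 42) (.e (nat_lit 720951) (nat_lit 24) .nil))))) .nil)) 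
(.lf (nat_lit 133437) (.g (nat_lit 3681) (.e (nat_lit 16431) (nat_lit 9) (.e (nat_lit 426566) (nat_lit 34) (.e (nat_lit 393253) (nat_lit 18) (.e (nat_lit 164322) (nat_lit 230) .nil)))) .nil)))))) (.nd (nat_lit 2) (.nd (nat_lit 3) (.nd (nat_lit 4) (.nd (nat_lit 5) 
(.lf (nat_lit 133379) (.g (nat_lit 2328) (.e (nat_lit 16425) (nat_lit 7) (.e (nat_lit 409649) (nat_lit 18) (.e (nat_lit 303143) (nat_lit 12) (.e (nat_lit 475220) (nat_lit 44) (.e (nat_lit 737305) (nat_lit 11) (.e (nat_lit 753) (nat_lit 66) (.e (nat_lit 704736) (nat_lit 11) .nil))))))) (.g (nat_lit 4) .nil .nil))) 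
(.lf (nat_lit 133411) (.g (nat_lit 1163) (.e (nat_lit 16430) (nat_lit 8) (.e (nat_lit 417795) (nat_lit 0) (.e (nat_lit 580) (nat_lit 43) (.e (nat_lit 516198) (nat_lit 26) (.e (nat_lit 336203) (nat_lit 12) (.e (nat_lit 392960) (nat_lit 2) .nil)))))) (.g (nat_lit 5) .nil .nil)))) (.nd (nat_lit 5) 
(.lf (nat_lit 133395) (.g (nat_lit 3606) (.e (nat_lit 16425) (nat_lit 7) (.e (nat_lit 409649) (nat_lit 18) (.e (nat_lit 303146) (nat_lit 14) (.e (nat_lit 491566) (nat_lit 12) (.e (nat_lit 385051) (nat_lit 21) .nil))))) .nil)) 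
(.lf (nat_lit 133427) (.g (nat_lit 1471) (.e (nat_lit 16431) (nat_lit 9) (.e (nat_lit 426528) (nat_lit 27) (.e (nat_lit 335894) (nat_lit 0) (.e (nat_lit 6722) (nat_lit 362) (.e (nat_lit 180272) (nat_lit 26) .nil))))) .nil)))) (.nd (nat_lit 4) (.nd (nat_lit 5) 
(.lf (nat_lit 133387) (.g (nat_lit 3249) (.e (nat_lit 16425) (nat_lit 7) (.e (nat_lit 409649) (nat_lit 18) (.e (nat_lit 303146) (nat_lit 14) (.e (nat_lit 491560) (nat_lit 10) (.e (nat_lit 344160) (nat_lit 37) (.e (nat_lit 647199) (nat_lit 11) .nil)))))) (.g (nat_lit 4) .nil .nil))) 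
(.lf (nat_lit 133419) (.g (nat_lit 2250) (.e (nat_lit 16431) (nat_lit 9) (.e (nat_lit 426412) (nat_lit 15) (.e (nat_lit 1856) (nat_lit 124) (.e (nat_lit 557098) (nat_lit 13) .nil)))) .nil))) (.nd (nat_lit 5) 
(.lf (nat_lit 133403) (.g (nat_lit 464) (.e (nat_lit 16427) (nat_lit 8) (.e (nat_lit 417820) (nat_lit 10) (.e (nat_lit 5771) (nat_lit 316) .nil))) .nil)) 
(.lf (nat_lit 133435) (.g (nat_lit 3384) (.e (nat_lit 16431) (nat_lit 9) (.e (nat_lit 426566) (nat_lit 34) (.e (nat_lit 393251) (nat_lit 18) (.e (nat_lit 164332) (nat_lit 230) (.e (nat_lit 163869) (nat_lit 2) (.e (nat_lit 196656) (nat_lit 11) .nil)))))) (.g (nat_lit 5) .nil .nil)))))) (.nd (nat_lit 3) (.nd (nat_lit 4) (.nd (nat_lit 5) 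
(.lf (nat_lit 133383) (.g (nat_lit 2001) (.e (nat_lit 16425) (nat_lit 7) (.e (nat_lit 409649) (nat_lit 18) (.e (nat_lit 303143) (nat_lit 12) (.e (nat_lit 475220) (nat_lit 44) (.e (nat_lit 737318) (nat_lit 15) (.e (nat_lit 49185) (nat_lit 11) .nil)))))) (.g (nat_lit 4) .nil .nil))) 
(.lf (nat_lit 133415) (.g (nat_lit 1983) (.e (nat_lit 16431) (nat_lit 9) (.e (nat_lit 426109) (nat_lit 1) (.e (nat_lit 164319) (nat_lit 228) (.e (nat_lit 57427) (nat_lit 15) (.e (nat_lit 360484) (nat_lit 15) (.e (nat_lit 647199) (nat_lit 11) .nil)))))) (.g (nat_lit 4) .nil .nil)))) (.nd (nat_lit 5) 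
(.lf (nat_lit 133399) (.g (nat_lit 2382) (.e (nat_lit 16425) (nat_lit 7) (.e (nat_lit 409650) (nat_lit 19) (.e (nat_lit 311322) (nat_lit 9) (.e (nat_lit 426448) (nat_lit 20) (.e (nat_lit 114723) (nat_lit 24) (.e (nat_lit 106534) (nat_lit 11) .nil)))))) (.g (nat_lit 4) .nil .nil))) 
(.lf (nat_lit 133431) (.g (nat_lit 3719) (.e (nat_lit 16431) (nat_lit 9) (.e (nat_lit 426528) (nat_lit 27) (.e (nat_lit 336231) (nat_lit 14) (.e (nat_lit 401448) (nat_lit 10) (.e (nat_lit 434291) (nat_lit 44) (.e (nat_lit 704738) (nat_lit 11) .nil)))))) (.g (nat_lit 6) .nil .nil))))) (.nd (nat_lit 4) (.nd (nat_lit 5) 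
(.lf (nat_lit 133391) (.g (nat_lit 3466) (.e (nat_lit 16425) (nat_lit 7) (.e (nat_lit 409649) (nat_lit 18) (.e (nat_lit 303146) (nat_lit 14) (.e (nat_lit 491566) (nat_lit 12) (.e (nat_lit 385043) (nat_lit 21) (.e (nat_lit 7660) (nat_lit 410) (.e (nat_lit 1122) (nat_lit 83) .nil))))))) (.g (nat_lit 4) .nil .nil))) 
(.lf (nat_lit 133423) (.g (nat_lit 612) (.e (nat_lit 16431) (nat_lit 9) (.e (nat_lit 426499) (nat_lit 27) (.e (nat_lit 335893) (nat_lit 0) .nil))) .nil))) (.nd (nat_lit 5) 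
(.lf (nat_lit 133407) (.g (nat_lit 2473) (.e (nat_lit 16428) (nat_lit 8) (.e (nat_lit 417829) (nat_lit 18) (.e (nat_lit 303143) (nat_lit 12) (.e (nat_lit 475212) (nat_lit 42) (.e (nat_lit 720951) (nat_lit 24) .nil))))) .nil)) 
(.lf (nat_lit 133439) (.g (nat_lit 4161) (.e (nat_lit 16431) (nat_lit 9) (.e (nat_lit 426566) (nat_lit 34) (.e (nat_lit 393253) (nat_lit 18) (.e (nat_lit 164324) (nat_lit 230) (.e (nat_lit 163868) (nat_lit 2) (.e (nat_lit 196656) (nat_lit 11) .nil)))))) (.g (nat_lit 6) .nil .nil)))))))))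

noncomputable def tv1778 : DT := (.nd (nat_lit 0) (.nd (nat_lit 1) (.nd (nat_lit 2) (.nd (nat_lit 3) (.nd (nat_lit 4) (.nd (nat_lit 5) 
(.lf (nat_lit 133440) (.g (nat_lit 2803) (.e (nat_lit 16431) (nat_lit 9) (.e (nat_lit 426566) (nat_lit 34) (.e (nat_lit 393253) (nat_lit 18) (.e (nat_lit 164324) (nat_lit 230) (.e (nat_lit 163871) (nat_lit 2) (.e (nat_lit 196656) (nat_lit 11) .nil)))))) (.g (nat_lit 4) .nil .nil))) 
(.lf (nat_lit 133472) (.g (nat_lit 372) (.e (nat_lit 16432) (nat_lit 9) (.e (nat_lit 426550) (nat_lit 31) (.e (nat_lit 376576) (nat_lit 4) .nil))) .nil))) (.nd (nat_lit 5) 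
(.lf (nat_lit 133456) (.g (nat_lit 2512) (.e (nat_lit 16431) (nat_lit 9) (.e (nat_lit 426568) (nat_lit 34) (.e (nat_lit 393253) (nat_lit 18) (.e (nat_lit 164324) (nat_lit 230) (.e (nat_lit 163871) (nat_lit 2) (.e (nat_lit 196656) (nat_lit 11) .nil)))))) (.g (nat_lit 4) .nil .nil))) 
(.lf (nat_lit 133488) (.g (nat_lit 3038) (.e (nat_lit 16432) (nat_lit 9) (.e (nat_lit 426564) (nat_lit 34) (.e (nat_lit 393251) (nat_lit 18) (.e (nat_lit 164325) (nat_lit 230) (.e (nat_lit 163868) (nat_lit 2) (.e (nat_lit 196656) (nat_lit 11) .nil)))))) (.g (nat_lit 0) .nil .nil))))) (.nd (nat_lit 4) (.nd (nat_lit 5) 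
(.lf (nat_lit 133448) (.g (nat_lit 3803) (.e (nat_lit 16431) (nat_lit 9) (.e (nat_lit 426568) (nat_lit 34) (.e (nat_lit 393251) (nat_lit 18) (.e (nat_lit 164325) (nat_lit 230) (.e (nat_lit 163868) (nat_lit 2) (.e (nat_lit 196656) (nat_lit 11) .nil)))))) (.g (nat_lit 6) .nil .nil))) 
(.lf (nat_lit 133480) (.g (nat_lit 1919) (.e (nat_lit 16432) (nat_lit 9) (.e (nat_lit 426555) (nat_lit 32) (.e (nat_lit 376859) (nat_lit 21) (.e (nat_lit 57847) (nat_lit 252) (.e (nat_lit 57386) (nat_lit 4) .nil))))) .nil))) (.nd (nat_lit 5) 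
(.lf (nat_lit 133464) (.g (nat_lit 4810) (.e (nat_lit 16432) (nat_lit 9) (.e (nat_lit 426436) (nat_lit 18) (.e (nat_lit 98335) (nat_lit 18) (.e (nat_lit 164327) (nat_lit 230) .nil)))) .nil)) 
(.lf (nat_lit 133496) (.g (nat_lit 3128) (.e (nat_lit 16432) (nat_lit 9) (.e (nat_lit 426566) (nat_lit 34) (.e (nat_lit 393252) (nat_lit 18) (.e (nat_lit 164332) (nat_lit 230) (.e (nat_lit 163867) (nat_lit 2) (.e (nat_lit 196656) (nat_lit 11) .nil)))))) (.g (nat_lit 0) .nil .nil)))))) (.nd (nat_lit 3) (.nd (nat_lit 4) (.nd (nat_lit 5) 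
(.lf (nat_lit 133444) (.g (nat_lit 3785) (.e (nat_lit 16431) (nat_lit 9) (.e (nat_lit 426566) (nat_lit 34) (.e (nat_lit 393253) (nat_lit 18) (.e (nat_lit 164329) (nat_lit 230) (.e (nat_lit 163867) (nat_lit 2) (.e (nat_lit 196656) (nat_lit 11) .nil)))))) (.g (nat_lit 5) .nil .nil))) 
(.lf (nat_lit 133476) (.g (nat_lit 2611) (.e (nat_lit 16432) (nat_lit 9) (.e (nat_lit 426555) (nat_lit 32) (.e (nat_lit 376857) (nat_lit 21) (.e (nat_lit 57852) (nat_lit 252) (.e (nat_lit 57382) (nat_lit 4) .nil))))) .nil))) (.nd (nat_lit 5) 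
(.lf (nat_lit 133460) (.g (nat_lit 2120) (.e (nat_lit 16431) (nat_lit 9) (.e (nat_lit 426568) (nat_lit 34) (.e (nat_lit 393253) (nat_lit 18) (.e (nat_lit 164331) (nat_lit 230) (.e (nat_lit 163867) (nat_lit 2) (.e (nat_lit 196656) (nat_lit 11) .nil)))))) (.g (nat_lit 4) .nil .nil))) 
(.lf (nat_lit 133492) (.g (nat_lit 3617) (.e (nat_lit 16432) (nat_lit 9) (.e (nat_lit 426566) (nat_lit 34) (.e (nat_lit 393251) (nat_lit 18) (.e (nat_lit 164325) (nat_lit 230) (.e (nat_lit 163871) (nat_lit 2) (.e (nat_lit 196656) (nat_lit 11) .nil)))))) (.g (nat_lit 0) .nil .nil))))) (.nd (nat_lit 4) (.nd (nat_lit 5) 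
(.lf (nat_lit 133452) (.g (nat_lit 2632) (.e (nat_lit 16431) (nat_lit 9) (.e (nat_lit 426568) (nat_lit 34) (.e (nat_lit 393252) (nat_lit 18) (.e (nat_lit 164330) (nat_lit 230) (.e (nat_lit 163869) (nat_lit 2) (.e (nat_lit 196656) (nat_lit 11) .nil)))))) (.g (nat_lit 4) .nil .nil))) 
(.lf (nat_lit 133484) (.g (nat_lit 2789) (.e (nat_lit 16432) (nat_lit 9) (.e (nat_lit 426555) (nat_lit 32) (.e (nat_lit 376860) (nat_lit 21) (.e (nat_lit 57852) (nat_lit 252) (.e (nat_lit 57382) (nat_lit 4) .nil))))) .nil))) (.nd (nat_lit 5) 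
(.lf (nat_lit 133468) (.g (nat_lit 1907) (.e (nat_lit 16432) (nat_lit 9) (.e (nat_lit 426512) (nat_lit 27) (.e (nat_lit 336076) (nat_lit 9) (.e (nat_lit 336336) (nat_lit 20) (.e (nat_lit 229120) (nat_lit 4) .nil))))) .nil)) 
(.lf (nat_lit 133500) (.g (nat_lit 3577) (.e (nat_lit 16432) (nat_lit 9) (.e (nat_lit 426566) (nat_lit 34) (.e (nat_lit 393253) (nat_lit 18) (.e (nat_lit 164322) (nat_lit 230) (.e (nat_lit 163871) (nat_lit 2) .nil))))) .nil)))))) (.nd (nat_lit 2) (.nd (nat_lit 3) (.nd (nat_lit 4) (.nd (nat_lit 5) 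
(.lf (nat_lit 133442) (.g (nat_lit 3973) (.e (nat_lit 16431) (nat_lit 9) (.e (nat_lit 426566) (nat_lit 34) (.e (nat_lit 393253) (nat_lit 18) (.e (nat_lit 164325) (nat_lit 230) (.e (nat_lit 163871) (nat_lit 2) (.e (nat_lit 196656) (nat_lit 11) .nil)))))) (.g (nat_lit 6) .nil .nil))) 
(.lf (nat_lit 133474) (.g (nat_lit 2135) (.e (nat_lit 16432) (nat_lit 9) (.e (nat_lit 426555) (nat_lit 32) (.e (nat_lit 376857) (nat_lit 21) (.e (nat_lit 57848) (nat_lit 252) (.e (nat_lit 57386) (nat_lit 4) .nil))))) .nil))) (.nd (nat_lit 5) 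
(.lf (nat_lit 133458) (.g (nat_lit 3695) (.e (nat_lit 16431) (nat_lit 9) (.e (nat_lit 426568) (nat_lit 34) (.e (nat_lit 393253) (nat_lit 18) (.e (nat_lit 164329) (nat_lit 230) (.e (nat_lit 163867) (nat_lit 2) (.e (nat_lit 196656) (nat_lit 11) .nil)))))) (.g (nat_lit 6) .nil .nil))) 
(.lf (nat_lit 133490) (.g (nat_lit 3566) (.e (nat_lit 16432) (nat_lit 9) (.e (nat_lit 426564) (nat_lit 34) (.e (nat_lit 393251) (nat_lit 18) (.e (nat_lit 164332) (nat_lit 230) (.e (nat_lit 163869) (nat_lit 2) (.e (nat_lit 196656) (nat_lit 11) .nil)))))) (.g (nat_lit 6) .nil .nil))))) (.nd (nat_lit 4) (.nd (nat_lit 5) 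
(.lf (nat_lit 133450) (.g (nat_lit 3613) (.e (nat_lit 16431) (nat_lit 9) (.e (nat_lit 426568) (nat_lit 34) (.e (nat_lit 393251) (nat_lit 18) (.e (nat_lit 164332) (nat_lit 230) (.e (nat_lit 163867) (nat_lit 2) (.e (nat_lit 196656) (nat_lit 11) .nil)))))) (.g (nat_lit 5) .nil .nil))) 
(.lf (nat_lit 133482) (.g (nat_lit 2103) (.e (nat_lit 16432) (nat_lit 9) (.e (nat_lit 426555) (nat_lit 32) (.e (nat_lit 376859) (nat_lit 21) (.e (nat_lit 57849) (nat_lit 252) (.e (nat_lit 57386) (nat_lit 4) (.e (nat_lit 106534) (nat_lit 11) .nil)))))) (.g (nat_lit 4) .nil .nil)))) (.nd (nat_lit 5) 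
(.lf (nat_lit 133466) (.g (nat_lit 4146) (.e (nat_lit 16432) (nat_lit 9) (.e (nat_lit 426436) (nat_lit 18) (.e (nat_lit 98335) (nat_lit 18) (.e (nat_lit 164332) (nat_lit 230) .nil)))) .nil)) 
(.lf (nat_lit 133498) (.g (nat_lit 2890) (.e (nat_lit 16432) (nat_lit 9) (.e (nat_lit 426566) (nat_lit 34) (.e (nat_lit 393253) (nat_lit 18) (.e (nat_lit 164322) (nat_lit 230) .nil)))) .nil))))) (.nd (nat_lit 3) (.nd (nat_lit 4) (.nd (nat_lit 5) 
(.lf (nat_lit 133446) (.g (nat_lit 2388) (.e (nat_lit 16431) (nat_lit 9) (.e (nat_lit 426566) (nat_lit 34) (.e (nat_lit 393253) (nat_lit 18) (.e (nat_lit 164331) (nat_lit 230) .nil)))) .nil)) 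
(.lf (nat_lit 133478) (.g (nat_lit 2431) (.e (nat_lit 16432) (nat_lit 9) (.e (nat_lit 426555) (nat_lit 32) (.e (nat_lit 376857) (nat_lit 21) (.e (nat_lit 57853) (nat_lit 252) (.e (nat_lit 57382) (nat_lit 4) .nil))))) .nil))) (.nd (nat_lit 5) 
(.lf (nat_lit 133462) (.g (nat_lit 4043) (.e (nat_lit 16432) (nat_lit 9) (.e (nat_lit 426436) (nat_lit 18) (.e (nat_lit 98335) (nat_lit 18) (.e (nat_lit 164305) (nat_lit 226) .nil)))) .nil)) 
(.lf (nat_lit 133494) (.g (nat_lit 3648) (.e (nat_lit 16432) (nat_lit 9) (.e (nat_lit 426566) (nat_lit 34) (.e (nat_lit 393251) (nat_lit 18) (.e (nat_lit 164332) (nat_lit 230) (.e (nat_lit 163869) (nat_lit 2) (.e (nat_lit 196656) (nat_lit 11) .nil)))))) (.g (nat_lit 6) .nil .nil))))) (.nd (nat_lit 4) (.nd (nat_lit 5) 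
(.lf (nat_lit 133454) (.g (nat_lit 2663) (.e (nat_lit 16431) (nat_lit 9) (.e (nat_lit 426568) (nat_lit 34) (.e (nat_lit 393253) (nat_lit 18) (.e (nat_lit 164324) (nat_lit 230) (.e (nat_lit 163867) (nat_lit 2) (.e (nat_lit 196656) (nat_lit 11) .nil)))))) (.g (nat_lit 4) .nil .nil))) 
(.lf (nat_lit 133486) (.g (nat_lit 2448) (.e (nat_lit 16432) (nat_lit 9) (.e (nat_lit 426555) (nat_lit 32) (.e (nat_lit 376860) (nat_lit 21) (.e (nat_lit 57853) (nat_lit 252) (.e (nat_lit 57382) (nat_lit 4) .nil))))) .nil))) (.nd (nat_lit 5) 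
(.lf (nat_lit 133470) (.g (nat_lit 1891) (.e (nat_lit 16432) (nat_lit 9) (.e (nat_lit 426543) (nat_lit 29) (.e (nat_lit 352309) (nat_lit 21) (.e (nat_lit 57848) (nat_lit 252) (.e (nat_lit 57385) (nat_lit 4) (.e (nat_lit 106536) (nat_lit 11) .nil)))))) (.g (nat_lit 4) .nil .nil))) 
(.lf (nat_lit 133502) (.g (nat_lit 3858) (.e (nat_lit 16432) (nat_lit 9) (.e (nat_lit 426566) (nat_lit 34) (.e (nat_lit 393253) (nat_lit 18) (.e (nat_lit 164324) (nat_lit 230) (.e (nat_lit 163868) (nat_lit 2) (.e (nat_lit 196656) (nat_lit 11) .nil)))))) (.g (nat_lit 6) .nil .nil)))))))) (.nd (nat_lit 1) (.nd (nat_lit 2) (.nd (nat_lit 3) (.nd (nat_lit 4) (.nd (nat_lit 5) 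
(.lf (nat_lit 133441) (.g (nat_lit 2512) (.e (nat_lit 16431) (nat_lit 9) (.e (nat_lit 426566) (nat_lit 34) (.e (nat_lit 393253) (nat_lit 18) (.e (nat_lit 164325) (nat_lit 230) (.e (nat_lit 163869) (nat_lit 2) (.e (nat_lit 196656) (nat_lit 11) .nil)))))) (.g (nat_lit 4) .nil .nil))) 
(.lf (nat_lit 133473) (.g (nat_lit 2114) (.e (nat_lit 16432) (nat_lit 9) (.e (nat_lit 426555) (nat_lit 32) (.e (nat_lit 376857) (nat_lit 21) (.e (nat_lit 57847) (nat_lit 252) (.e (nat_lit 57386) (nat_lit 4) .nil))))) .nil))) (.nd (nat_lit 5) 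
(.lf (nat_lit 133457) (.g (nat_lit 2691) (.e (nat_lit 16431) (nat_lit 9) (.e (nat_lit 426568) (nat_lit 34) (.e (nat_lit 393253) (nat_lit 18) (.e (nat_lit 164326) (nat_lit 230) (.e (nat_lit 163868) (nat_lit 2) (.e (nat_lit 196656) (nat_lit 11) .nil)))))) (.g (nat_lit 4) .nil .nil))) 
(.lf (nat_lit 133489) (.g (nat_lit 2944) (.e (nat_lit 16432) (nat_lit 9) (.e (nat_lit 426564) (nat_lit 34) (.e (nat_lit 393251) (nat_lit 18) (.e (nat_lit 164325) (nat_lit 230) (.e (nat_lit 163871) (nat_lit 2) (.e (nat_lit 196656) (nat_lit 11) .nil)))))) (.g (nat_lit 0) .nil .nil))))) (.nd (nat_lit 4) (.nd (nat_lit 5) 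
(.lf (nat_lit 133449) (.g (nat_lit 3730) (.e (nat_lit 16431) (nat_lit 9) (.e (nat_lit 426568) (nat_lit 34) (.e (nat_lit 393251) (nat_lit 18) (.e (nat_lit 164325) (nat_lit 230) (.e (nat_lit 163871) (nat_lit 2) (.e (nat_lit 196656) (nat_lit 11) .nil)))))) (.g (nat_lit 6) .nil .nil))) 
(.lf (nat_lit 133481) (.g (nat_lit 2011) (.e (nat_lit 16432) (nat_lit 9) (.e (nat_lit 426555) (nat_lit 32) (.e (nat_lit 376859) (nat_lit 21) (.e (nat_lit 57848) (nat_lit 252) (.e (nat_lit 57386) (nat_lit 4) .nil))))) .nil))) (.nd (nat_lit 5) 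
(.lf (nat_lit 133465) (.g (nat_lit 4114) (.e (nat_lit 16432) (nat_lit 9) (.e (nat_lit 426436) (nat_lit 18) (.e (nat_lit 98335) (nat_lit 18) (.e (nat_lit 164330) (nat_lit 230) .nil)))) .nil)) 
(.lf (nat_lit 133497) (.g (nat_lit 3537) (.e (nat_lit 16432) (nat_lit 9) (.e (nat_lit 426566) (nat_lit 34) (.e (nat_lit 393252) (nat_lit 18) (.e (nat_lit 164332) (nat_lit 230) (.e (nat_lit 163869) (nat_lit 2) (.e (nat_lit 196656) (nat_lit 11) .nil)))))) (.g (nat_lit 0) .nil .nil)))))) (.nd (nat_lit 3) (.nd (nat_lit 4) (.nd (nat_lit 5) 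
(.lf (nat_lit 133445) (.g (nat_lit 3582) (.e (nat_lit 16431) (nat_lit 9) (.e (nat_lit 426566) (nat_lit 34) (.e (nat_lit 393253) (nat_lit 18) (.e (nat_lit 164330) (nat_lit 230) (.e (nat_lit 163867) (nat_lit 2) (.e (nat_lit 196656) (nat_lit 11) .nil)))))) (.g (nat_lit 5) .nil .nil))) 
(.lf (nat_lit 133477) (.g (nat_lit 2286) (.e (nat_lit 16432) (nat_lit 9) (.e (nat_lit 426555) (nat_lit 32) (.e (nat_lit 376857) (nat_lit 21) (.e (nat_lit 57852) (nat_lit 252) (.e (nat_lit 57384) (nat_lit 4) (.e (nat_lit 106534) (nat_lit 11) .nil)))))) (.g (nat_lit 4) .nil .nil)))) (.nd (nat_lit 5) 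
(.lf (nat_lit 133461) (.g (nat_lit 772) (.e (nat_lit 16432) (nat_lit 9) (.e (nat_lit 426131) (nat_lit 3) (.e (nat_lit 204816) (nat_lit 17) .nil))) .nil)) 
(.lf (nat_lit 133493) (.g (nat_lit 3142) (.e (nat_lit 16432) (nat_lit 9) (.e (nat_lit 426566) (nat_lit 34) (.e (nat_lit 393251) (nat_lit 18) (.e (nat_lit 164332) (nat_lit 230) (.e (nat_lit 163867) (nat_lit 2) (.e (nat_lit 196656) (nat_lit 11) .nil)))))) (.g (nat_lit 6) .nil .nil))))) (.nd (nat_lit 4) (.nd (nat_lit 5) 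
(.lf (nat_lit 133453) (.g (nat_lit 3663) (.e (nat_lit 16431) (nat_lit 9) (.e (nat_lit 426568) (nat_lit 34) (.e (nat_lit 393252) (nat_lit 18) (.e (nat_lit 164332) (nat_lit 230) (.e (nat_lit 163869) (nat_lit 2) (.e (nat_lit 196656) (nat_lit 11) .nil)))))) (.g (nat_lit 6) .nil .nil))) 
(.lf (nat_lit 133485) (.g (nat_lit 2560) (.e (nat_lit 16432) (nat_lit 9) (.e (nat_lit 426555) (nat_lit 32) (.e (nat_lit 376860) (nat_lit 21) (.e (nat_lit 57852) (nat_lit 252) (.e (nat_lit 57384) (nat_lit 4) (.e (nat_lit 106534) (nat_lit 11) .nil)))))) (.g (nat_lit 4) .nil .nil)))) (.nd (nat_lit 5) 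
(.lf (nat_lit 133469) (.g (nat_lit 1782) (.e (nat_lit 16432) (nat_lit 9) (.e (nat_lit 426538) (nat_lit 29) (.e (nat_lit 352309) (nat_lit 21) (.e (nat_lit 57848) (nat_lit 252) (.e (nat_lit 57386) (nat_lit 4) .nil))))) .nil)) 
(.lf (nat_lit 133501) (.g (nat_lit 2749) (.e (nat_lit 16432) (nat_lit 9) (.e (nat_lit 426566) (nat_lit 34) (.e (nat_lit 393253) (nat_lit 18) (.e (nat_lit 164324) (nat_lit 230) (.e (nat_lit 163867) (nat_lit 2) .nil))))) .nil)))))) (.nd (nat_lit 2) (.nd (nat_lit 3) (.nd (nat_lit 4) (.nd (nat_lit 5) 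
(.lf (nat_lit 133443) (.g (nat_lit 2565) (.e (nat_lit 16431) (nat_lit 9) (.e (nat_lit 426566) (nat_lit 34) (.e (nat_lit 393253) (nat_lit 18) (.e (nat_lit 164326) (nat_lit 230) .nil)))) .nil)) 
(.lf (nat_lit 133475) (.g (nat_lit 2114) (.e (nat_lit 16432) (nat_lit 9) (.e (nat_lit 426555) (nat_lit 32) (.e (nat_lit 376857) (nat_lit 21) (.e (nat_lit 57849) (nat_lit 252) (.e (nat_lit 57386) (nat_lit 4) (.e (nat_lit 106534) (nat_lit 11) .nil)))))) (.g (nat_lit 4) .nil .nil)))) (.nd (nat_lit 5) 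
(.lf (nat_lit 133459) (.g (nat_lit 2545) (.e (nat_lit 16431) (nat_lit 9) (.e (nat_lit 426568) (nat_lit 34) (.e (nat_lit 393253) (nat_lit 18) (.e (nat_lit 164330) (nat_lit 230) (.e (nat_lit 163869) (nat_lit 2) (.e (nat_lit 196656) (nat_lit 11) .nil)))))) (.g (nat_lit 4) .nil .nil))) 
(.lf (nat_lit 133491) (.g (nat_lit 3622) (.e (nat_lit 16432) (nat_lit 9) (.e (nat_lit 426566) (nat_lit 34) (.e (nat_lit 393251) (nat_lit 18) (.e (nat_lit 164325) (nat_lit 230) (.e (nat_lit 163868) (nat_lit 2) (.e (nat_lit 196656) (nat_lit 11) .nil)))))) (.g (nat_lit 0) .nil .nil))))) (.nd (nat_lit 4) (.nd (nat_lit 5) 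
(.lf (nat_lit 133451) (.g (nat_lit 4058) (.e (nat_lit 16431) (nat_lit 9) (.e (nat_lit 426568) (nat_lit 34) (.e (nat_lit 393251) (nat_lit 18) (.e (nat_lit 164332) (nat_lit 230) (.e (nat_lit 163869) (nat_lit 2) (.e (nat_lit 196656) (nat_lit 11) .nil)))))) (.g (nat_lit 5) .nil .nil))) 
(.lf (nat_lit 133483) (.g (nat_lit 1655) (.e (nat_lit 16432) (nat_lit 9) (.e (nat_lit 426555) (nat_lit 32) (.e (nat_lit 376859) (nat_lit 21) (.e (nat_lit 57851) (nat_lit 252) .nil)))) .nil))) (.nd (nat_lit 5) 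
(.lf (nat_lit 133467) (.g (nat_lit 2989) (.e (nat_lit 16432) (nat_lit 9) (.e (nat_lit 426481) (nat_lit 27) (.e (nat_lit 336389) (nat_lit 27) (.e (nat_lit 426098) (nat_lit 1) (.e (nat_lit 164325) (nat_lit 230) (.e (nat_lit 163868) (nat_lit 2) (.e (nat_lit 196656) (nat_lit 11) .nil))))))) (.g (nat_lit 5) .nil .nil))) 
(.lf (nat_lit 133499) (.g (nat_lit 3154) (.e (nat_lit 16432) (nat_lit 9) (.e (nat_lit 426566) (nat_lit 34) (.e (nat_lit 393253) (nat_lit 18) (.e (nat_lit 164322) (nat_lit 230) (.e (nat_lit 163867) (nat_lit 2) (.e (nat_lit 196656) (nat_lit 11) .nil)))))) (.g (nat_lit 4) .nil .nil)))))) (.nd (nat_lit 3) (.nd (nat_lit 4) (.nd (nat_lit 5) 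
(.lf (nat_lit 133447) (.g (nat_lit 4104) (.e (nat_lit 16431) (nat_lit 9) (.e (nat_lit 426566) (nat_lit 34) (.e (nat_lit 393253) (nat_lit 18) (.e (nat_lit 164331) (nat_lit 230) (.e (nat_lit 163867) (nat_lit 2) (.e (nat_lit 196656) (nat_lit 11) .nil)))))) (.g (nat_lit 5) .nil .nil))) 
(.lf (nat_lit 133479) (.g (nat_lit 2802) (.e (nat_lit 16432) (nat_lit 9) (.e (nat_lit 426555) (nat_lit 32) (.e (nat_lit 376857) (nat_lit 21) (.e (nat_lit 57854) (nat_lit 252) (.e (nat_lit 57382) (nat_lit 4) (.e (nat_lit 106534) (nat_lit 11) .nil)))))) (.g (nat_lit 5) .nil .nil)))) (.nd (nat_lit 5) 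
(.lf (nat_lit 133463) (.g (nat_lit 4155) (.e (nat_lit 16432) (nat_lit 9) (.e (nat_lit 426436) (nat_lit 18) (.e (nat_lit 98335) (nat_lit 18) (.e (nat_lit 164325) (nat_lit 230) .nil)))) .nil)) 
(.lf (nat_lit 133495) (.g (nat_lit 2551) (.e (nat_lit 16432) (nat_lit 9) (.e (nat_lit 426566) (nat_lit 34) (.e (nat_lit 393252) (nat_lit 18) (.e (nat_lit 164330) (nat_lit 230) (.e (nat_lit 163869) (nat_lit 2) (.e (nat_lit 196656) (nat_lit 11) .nil)))))) (.g (nat_lit 5) .nil .nil))))) (.nd (nat_lit 4) (.nd (nat_lit 5) 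
(.lf (nat_lit 133455) (.g (nat_lit 3781) (.e (nat_lit 16431) (nat_lit 9) (.e (nat_lit 426568) (nat_lit 34) (.e (nat_lit 393253) (nat_lit 18) (.e (nat_lit 164324) (nat_lit 230) (.e (nat_lit 163868) (nat_lit 2) (.e (nat_lit 196656) (nat_lit 11) .nil)))))) (.g (nat_lit 6) .nil .nil))) 
(.lf (nat_lit 133487) (.g (nat_lit 2967) (.e (nat_lit 16432) (nat_lit 9) (.e (nat_lit 426555) (nat_lit 32) (.e (nat_lit 376860) (nat_lit 21) (.e (nat_lit 57854) (nat_lit 252) (.e (nat_lit 57382) (nat_lit 4) (.e (nat_lit 106534) (nat_lit 11) .nil)))))) (.g (nat_lit 5) .nil .nil)))) (.nd (nat_lit 5) 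
(.lf (nat_lit 133471) (.g (nat_lit 2093) (.e (nat_lit 16432) (nat_lit 9) (.e (nat_lit 426543) (nat_lit 29) (.e (nat_lit 352309) (nat_lit 21) (.e (nat_lit 57848) (nat_lit 252) (.e (nat_lit 57386) (nat_lit 4) (.e (nat_lit 106536) (nat_lit 11) .nil)))))) (.g (nat_lit 4) .nil .nil))) 
(.lf (nat_lit 133503) (.g (nat_lit 2762) (.e (nat_lit 16432) (nat_lit 9) (.e (nat_lit 426566) (nat_lit 34) (.e (nat_lit 393253) (nat_lit 18) (.e (nat_lit 164324) (nat_lit 230) (.e (nat_lit 163871) (nat_lit 2) .nil))))) .nil))))))))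

noncomputable def tv1779 : DT := (.nd (nat_lit 0) (.nd (nat_lit 1) (.nd (nat_lit 2) (.nd (nat_lit 3) (.nd (nat_lit 4) (.nd (nat_lit 5) 
(.lf (nat_lit 133504) (.g (nat_lit 2099) (.e (nat_lit 16432) (nat_lit 9) (.e (nat_lit 426566) (nat_lit 34) (.e (nat_lit 393253) (nat_lit 18) (.e (nat_lit 164326) (nat_lit 230) (.e (nat_lit 163871) (nat_lit 2) (.e (nat_lit 196655) (nat_lit 11) .nil)))))) (.g (nat_lit 5) .nil .nil))) 
(.lf (nat_lit 133536) (.g (nat_lit 2142) (.e (nat_lit 16433) (nat_lit 9) (.e (nat_lit 426550) (nat_lit 31) (.e (nat_lit 368656) (nat_lit 14) (.e (nat_lit 57810) (nat_lit 246) (.e (nat_lit 57602) (nat_lit 107) (.e (nat_lit 704734) (nat_lit 11) .nil)))))) (.g (nat_lit 0) .nil .nil)))) (.nd (nat_lit 5) 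
(.lf (nat_lit 133520) (.g (nat_lit 2512) (.e (nat_lit 16432) (nat_lit 9) (.e (nat_lit 426568) (nat_lit 34) (.e (nat_lit 393253) (nat_lit 18) (.e (nat_lit 164324) (nat_lit 230) (.e (nat_lit 163867) (nat_lit 2) .nil))))) .nil)) 
(.lf (nat_lit 133552) (.g (nat_lit 2802) (.e (nat_lit 16433) (nat_lit 9) (.e (nat_lit 426555) (nat_lit 32) (.e (nat_lit 376857) (nat_lit 21) (.e (nat_lit 57854) (nat_lit 252) (.e (nat_lit 57356) (nat_lit 0) (.e (nat_lit 2155) (nat_lit 142) (.e (nat_lit 704736) (nat_lit 11) .nil))))))) (.g (nat_lit 4) .nil .nil))))) (.nd (nat_lit 4) (.nd (nat_lit 5) 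
(.lf (nat_lit 133512) (.g (nat_lit 2994) (.e (nat_lit 16432) (nat_lit 9) (.e (nat_lit 426567) (nat_lit 34) (.e (nat_lit 393251) (nat_lit 18) (.e (nat_lit 164325) (nat_lit 230) (.e (nat_lit 163871) (nat_lit 2) (.e (nat_lit 196656) (nat_lit 11) .nil)))))) (.g (nat_lit 0) .nil .nil))) 
(.lf (nat_lit 133544) (.g (nat_lit 2025) (.e (nat_lit 16433) (nat_lit 9) (.e (nat_lit 426555) (nat_lit 32) (.e (nat_lit 376857) (nat_lit 21) (.e (nat_lit 57848) (nat_lit 252) (.e (nat_lit 57381) (nat_lit 4) (.e (nat_lit 106536) (nat_lit 11) .nil)))))) (.g (nat_lit 4) .nil .nil)))) (.nd (nat_lit 5) 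
(.lf (nat_lit 133528) (.g (nat_lit 4666) (.e (nat_lit 16433) (nat_lit 9) (.e (nat_lit 426436) (nat_lit 18) (.e (nat_lit 98335) (nat_lit 18) (.e (nat_lit 164327) (nat_lit 230) .nil)))) .nil)) 
(.lf (nat_lit 133560) (.g (nat_lit 2421) (.e (nat_lit 16433) (nat_lit 9) (.e (nat_lit 426555) (nat_lit 32) (.e (nat_lit 376859) (nat_lit 21) (.e (nat_lit 57849) (nat_lit 252) (.e (nat_lit 57386) (nat_lit 4) (.e (nat_lit 106535) (nat_lit 11) .nil)))))) (.g (nat_lit 4) .nil .nil)))))) (.nd (nat_lit 3) (.nd (nat_lit 4) (.nd (nat_lit 5) 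
(.lf (nat_lit 133508) (.g (nat_lit 4167) (.e (nat_lit 16432) (nat_lit 9) (.e (nat_lit 426566) (nat_lit 34) (.e (nat_lit 393253) (nat_lit 18) (.e (nat_lit 164332) (nat_lit 230) (.e (nat_lit 163869) (nat_lit 2) (.e (nat_lit 196656) (nat_lit 11) .nil)))))) (.g (nat_lit 0) .nil .nil))) 
(.lf (nat_lit 133540) (.g (nat_lit 2075) (.e (nat_lit 16433) (nat_lit 9) (.e (nat_lit 426555) (nat_lit 32) (.e (nat_lit 376857) (nat_lit 21) (.e (nat_lit 57846) (nat_lit 252) (.e (nat_lit 57381) (nat_lit 4) (.e (nat_lit 106536) (nat_lit 11) .nil)))))) (.g (nat_lit 4) .nil .nil)))) (.nd (nat_lit 5) 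
(.lf (nat_lit 133524) (.g (nat_lit 2138) (.e (nat_lit 16432) (nat_lit 9) (.e (nat_lit 426568) (nat_lit 34) (.e (nat_lit 393253) (nat_lit 18) (.e (nat_lit 164330) (nat_lit 230) (.e (nat_lit 163869) (nat_lit 2) (.e (nat_lit 196656) (nat_lit 11) .nil)))))) (.g (nat_lit 4) .nil .nil))) 
(.lf (nat_lit 133556) (.g (nat_lit 2398) (.e (nat_lit 16433) (nat_lit 9) (.e (nat_lit 426555) (nat_lit 32) (.e (nat_lit 376859) (nat_lit 21) (.e (nat_lit 57847) (nat_lit 252) (.e (nat_lit 57386) (nat_lit 4) (.e (nat_lit 106535) (nat_lit 11) .nil)))))) (.g (nat_lit 4) .nil .nil))))) (.nd (nat_lit 4) (.nd (nat_lit 5) 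
(.lf (nat_lit 133516) (.g (nat_lit 3890) (.e (nat_lit 16432) (nat_lit 9) (.e (nat_lit 426568) (nat_lit 34) (.e (nat_lit 393251) (nat_lit 18) (.e (nat_lit 164332) (nat_lit 230) (.e (nat_lit 163869) (nat_lit 2) (.e (nat_lit 196656) (nat_lit 11) .nil)))))) (.g (nat_lit 6) .nil .nil))) 
(.lf (nat_lit 133548) (.g (nat_lit 2646) (.e (nat_lit 16433) (nat_lit 9) (.e (nat_lit 426555) (nat_lit 32) (.e (nat_lit 376857) (nat_lit 21) (.e (nat_lit 57852) (nat_lit 252) (.e (nat_lit 57382) (nat_lit 4) (.e (nat_lit 106534) (nat_lit 11) .nil)))))) (.g (nat_lit 4) .nil .nil)))) (.nd (nat_lit 5) 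
(.lf (nat_lit 133532) (.g (nat_lit 2569) (.e (nat_lit 16433) (nat_lit 9) (.e (nat_lit 426538) (nat_lit 29) (.e (nat_lit 352309) (nat_lit 21) (.e (nat_lit 57848) (nat_lit 252) (.e (nat_lit 57385) (nat_lit 4) (.e (nat_lit 106536) (nat_lit 11) .nil)))))) (.g (nat_lit 4) .nil .nil))) 
(.lf (nat_lit 133564) (.g (nat_lit 2295) (.e (nat_lit 16433) (nat_lit 9) (.e (nat_lit 426555) (nat_lit 32) (.e (nat_lit 376860) (nat_lit 21) (.e (nat_lit 57851) (nat_lit 252) (.e (nat_lit 57382) (nat_lit 4) (.e (nat_lit 106534) (nat_lit 11) .nil)))))) (.g (nat_lit 4) .nil .nil))))))) (.nd (nat_lit 2) (.nd (nat_lit 3) (.nd (nat_lit 4) (.nd (nat_lit 5) 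
(.lf (nat_lit 133506) (.g (nat_lit 1968) (.e (nat_lit 16432) (nat_lit 9) (.e (nat_lit 426566) (nat_lit 34) (.e (nat_lit 393253) (nat_lit 18) (.e (nat_lit 164330) (nat_lit 230) .nil)))) .nil)) 
(.lf (nat_lit 133538) (.g (nat_lit 2455) (.e (nat_lit 16433) (nat_lit 9) (.e (nat_lit 426555) (nat_lit 32) (.e (nat_lit 376857) (nat_lit 21) (.e (nat_lit 57844) (nat_lit 252) (.e (nat_lit 57382) (nat_lit 4) (.e (nat_lit 106534) (nat_lit 11) .nil)))))) (.g (nat_lit 4) .nil .nil)))) (.nd (nat_lit 5) 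
(.lf (nat_lit 133522) (.g (nat_lit 2496) (.e (nat_lit 16432) (nat_lit 9) (.e (nat_lit 426568) (nat_lit 34) (.e (nat_lit 393253) (nat_lit 18) (.e (nat_lit 164324) (nat_lit 230) (.e (nat_lit 163871) (nat_lit 2) .nil))))) .nil)) 
(.lf (nat_lit 133554) (.g (nat_lit 1973) (.e (nat_lit 16433) (nat_lit 9) (.e (nat_lit 426555) (nat_lit 32) (.e (nat_lit 376859) (nat_lit 21) (.e (nat_lit 57846) (nat_lit 252) (.e (nat_lit 57381) (nat_lit 4) (.e (nat_lit 106536) (nat_lit 11) .nil)))))) (.g (nat_lit 4) .nil .nil))))) (.nd (nat_lit 4) (.nd (nat_lit 5) 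
(.lf (nat_lit 133514) (.g (nat_lit 3607) (.e (nat_lit 16432) (nat_lit 9) (.e (nat_lit 426568) (nat_lit 34) (.e (nat_lit 393251) (nat_lit 18) (.e (nat_lit 164325) (nat_lit 230) (.e (nat_lit 163871) (nat_lit 2) (.e (nat_lit 196656) (nat_lit 11) .nil)))))) (.g (nat_lit 0) .nil .nil))) 
(.lf (nat_lit 133546) (.g (nat_lit 3249) (.e (nat_lit 16433) (nat_lit 9) (.e (nat_lit 426555) (nat_lit 32) (.e (nat_lit 376857) (nat_lit 21) (.e (nat_lit 57849) (nat_lit 252) (.e (nat_lit 57386) (nat_lit 4) (.e (nat_lit 106536) (nat_lit 11) .nil)))))) (.g (nat_lit 0) .nil .nil)))) (.nd (nat_lit 5) 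
(.lf (nat_lit 133530) (.g (nat_lit 4010) (.e (nat_lit 16433) (nat_lit 9) (.e (nat_lit 426436) (nat_lit 18) (.e (nat_lit 98335) (nat_lit 18) (.e (nat_lit 164332) (nat_lit 230) .nil)))) .nil)) 
(.lf (nat_lit 133562) (.g (nat_lit 2002) (.e (nat_lit 16433) (nat_lit 9) (.e (nat_lit 426555) (nat_lit 32) (.e (nat_lit 376859) (nat_lit 21) (.e (nat_lit 57853) (nat_lit 252) (.e (nat_lit 57381) (nat_lit 4) .nil))))) .nil))))) (.nd (nat_lit 3) (.nd (nat_lit 4) (.nd (nat_lit 5) 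
(.lf (nat_lit 133510) (.g (nat_lit 2357) (.e (nat_lit 16432) (nat_lit 9) (.e (nat_lit 426566) (nat_lit 34) (.e (nat_lit 393254) (nat_lit 18) (.e (nat_lit 164326) (nat_lit 230) (.e (nat_lit 163868) (nat_lit 2) (.e (nat_lit 196656) (nat_lit 11) .nil)))))) (.g (nat_lit 4) .nil .nil))) 
(.lf (nat_lit 133542) (.g (nat_lit 2512) (.e (nat_lit 16433) (nat_lit 9) (.e (nat_lit 426555) (nat_lit 32) (.e (nat_lit 376857) (nat_lit 21) (.e (nat_lit 57847) (nat_lit 252) (.e (nat_lit 57386) (nat_lit 4) (.e (nat_lit 106535) (nat_lit 11) .nil)))))) (.g (nat_lit 4) .nil .nil)))) (.nd (nat_lit 5) 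
(.lf (nat_lit 133526) (.g (nat_lit 3834) (.e (nat_lit 16433) (nat_lit 9) (.e (nat_lit 426436) (nat_lit 18) (.e (nat_lit 98335) (nat_lit 18) (.e (nat_lit 164305) (nat_lit 226) .nil)))) .nil)) 
(.lf (nat_lit 133558) (.g (nat_lit 1637) (.e (nat_lit 16433) (nat_lit 9) (.e (nat_lit 426555) (nat_lit 32) (.e (nat_lit 376859) (nat_lit 21) (.e (nat_lit 57848) (nat_lit 252) (.e (nat_lit 57381) (nat_lit 4) .nil))))) .nil)))) (.nd (nat_lit 4) (.nd (nat_lit 5) 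
(.lf (nat_lit 133518) (.g (nat_lit 3532) (.e (nat_lit 16432) (nat_lit 9) (.e (nat_lit 426568) (nat_lit 34) (.e (nat_lit 393252) (nat_lit 18) (.e (nat_lit 164332) (nat_lit 230) (.e (nat_lit 163869) (nat_lit 2) (.e (nat_lit 196656) (nat_lit 11) .nil)))))) (.g (nat_lit 6) .nil .nil))) 
(.lf (nat_lit 133550) (.g (nat_lit 2591) (.e (nat_lit 16433) (nat_lit 9) (.e (nat_lit 426555) (nat_lit 32) (.e (nat_lit 376857) (nat_lit 21) (.e (nat_lit 57853) (nat_lit 252) (.e (nat_lit 57382) (nat_lit 4) (.e (nat_lit 106534) (nat_lit 11) .nil)))))) (.g (nat_lit 4) .nil .nil)))) (.nd (nat_lit 5) 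
(.lf (nat_lit 133534) (.g (nat_lit 310) (.e (nat_lit 16433) (nat_lit 9) (.e (nat_lit 426544) (nat_lit 30) (.e (nat_lit 368384) (nat_lit 0) .nil))) .nil)) 
(.lf (nat_lit 133566) (.g (nat_lit 2966) (.e (nat_lit 16433) (nat_lit 9) (.e (nat_lit 426555) (nat_lit 32) (.e (nat_lit 376860) (nat_lit 21) (.e (nat_lit 57852) (nat_lit 252) (.e (nat_lit 57382) (nat_lit 4) (.e (nat_lit 106534) (nat_lit 11) .nil)))))) (.g (nat_lit 4) .nil .nil)))))))) (.nd (nat_lit 1) (.nd (nat_lit 2) (.nd (nat_lit 3) (.nd (nat_lit 4) (.nd (nat_lit 5) 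
(.lf (nat_lit 133505) (.g (nat_lit 1713) (.e (nat_lit 16432) (nat_lit 9) (.e (nat_lit 426566) (nat_lit 34) (.e (nat_lit 393253) (nat_lit 18) (.e (nat_lit 164329) (nat_lit 230) .nil)))) .nil)) 
(.lf (nat_lit 133537) (.g (nat_lit 341) (.e (nat_lit 16433) (nat_lit 9) (.e (nat_lit 426555) (nat_lit 32) (.e (nat_lit 376857) (nat_lit 21) .nil))) .nil))) (.nd (nat_lit 5) 
(.lf (nat_lit 133521) (.g (nat_lit 3649) (.e (nat_lit 16432) (nat_lit 9) (.e (nat_lit 426568) (nat_lit 34) (.e (nat_lit 393253) (nat_lit 18) (.e (nat_lit 164324) (nat_lit 230) (.e (nat_lit 163868) (nat_lit 2) (.e (nat_lit 196656) (nat_lit 11) .nil)))))) (.g (nat_lit 6) .nil .nil))) 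
(.lf (nat_lit 133553) (.g (nat_lit 3171) (.e (nat_lit 16433) (nat_lit 9) (.e (nat_lit 426555) (nat_lit 32) (.e (nat_lit 376857) (nat_lit 21) (.e (nat_lit 57854) (nat_lit 252) (.e (nat_lit 57382) (nat_lit 4) (.e (nat_lit 106536) (nat_lit 11) .nil)))))) (.g (nat_lit 6) .nil .nil))))) (.nd (nat_lit 4) (.nd (nat_lit 5) 
(.lf (nat_lit 133513) (.g (nat_lit 3624) (.e (nat_lit 16432) (nat_lit 9) (.e (nat_lit 426568) (nat_lit 34) (.e (nat_lit 393251) (nat_lit 18) (.e (nat_lit 164325) (nat_lit 230) (.e (nat_lit 163868) (nat_lit 2) (.e (nat_lit 196656) (nat_lit 11) .nil)))))) (.g (nat_lit 0) .nil .nil))) 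
(.lf (nat_lit 133545) (.g (nat_lit 2394) (.e (nat_lit 16433) (nat_lit 9) (.e (nat_lit 426555) (nat_lit 32) (.e (nat_lit 376857) (nat_lit 21) (.e (nat_lit 57849) (nat_lit 252) (.e (nat_lit 57386) (nat_lit 4) (.e (nat_lit 106535) (nat_lit 11) .nil)))))) (.g (nat_lit 4) .nil .nil)))) (.nd (nat_lit 5) 
(.lf (nat_lit 133529) (.g (nat_lit 3905) (.e (nat_lit 16433) (nat_lit 9) (.e (nat_lit 426436) (nat_lit 18) (.e (nat_lit 98335) (nat_lit 18) (.e (nat_lit 164330) (nat_lit 230) .nil)))) .nil)) 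
(.lf (nat_lit 133561) (.g (nat_lit 3246) (.e (nat_lit 16433) (nat_lit 9) (.e (nat_lit 426555) (nat_lit 32) (.e (nat_lit 376859) (nat_lit 21) (.e (nat_lit 57849) (nat_lit 252) (.e (nat_lit 57386) (nat_lit 4) (.e (nat_lit 106536) (nat_lit 11) .nil)))))) (.g (nat_lit 0) .nil .nil)))))) (.nd (nat_lit 3) (.nd (nat_lit 4) (.nd (nat_lit 5) 
(.lf (nat_lit 133509) (.g (nat_lit 629) (.e (nat_lit 16432) (nat_lit 9) (.e (nat_lit 426566) (nat_lit 34) (.e (nat_lit 393254) (nat_lit 18) .nil))) .nil)) 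
(.lf (nat_lit 133541) (.g (nat_lit 1889) (.e (nat_lit 16433) (nat_lit 9) (.e (nat_lit 426555) (nat_lit 32) (.e (nat_lit 376857) (nat_lit 21) (.e (nat_lit 57847) (nat_lit 252) (.e (nat_lit 57384) (nat_lit 4) .nil))))) .nil))) (.nd (nat_lit 5) 
(.lf (nat_lit 133525) (.g (nat_lit 3897) (.e (nat_lit 16432) (nat_lit 9) (.e (nat_lit 426568) (nat_lit 34) (.e (nat_lit 393253) (nat_lit 18) (.e (nat_lit 164332) (nat_lit 230) (.e (nat_lit 163869) (nat_lit 2) (.e (nat_lit 196656) (nat_lit 11) .nil)))))) (.g (nat_lit 0) .nil .nil))) 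
(.lf (nat_lit 133557) (.g (nat_lit 3037) (.e (nat_lit 16433) (nat_lit 9) (.e (nat_lit 426555) (nat_lit 32) (.e (nat_lit 376859) (nat_lit 21) (.e (nat_lit 57847) (nat_lit 252) (.e (nat_lit 57386) (nat_lit 4) (.e (nat_lit 106536) (nat_lit 11) .nil)))))) (.g (nat_lit 0) .nil .nil))))) (.nd (nat_lit 4) (.nd (nat_lit 5) 
(.lf (nat_lit 133517) (.g (nat_lit 3214) (.e (nat_lit 16432) (nat_lit 9) (.e (nat_lit 426568) (nat_lit 34) (.e (nat_lit 393252) (nat_lit 18) (.e (nat_lit 164332) (nat_lit 230) (.e (nat_lit 163867) (nat_lit 2) (.e (nat_lit 196656) (nat_lit 11) .nil)))))) (.g (nat_lit 6) .nil .nil))) 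
(.lf (nat_lit 133549) (.g (nat_lit 2333) (.e (nat_lit 16433) (nat_lit 9) (.e (nat_lit 426555) (nat_lit 32) (.e (nat_lit 376857) (nat_lit 21) (.e (nat_lit 57852) (nat_lit 252) (.e (nat_lit 57382) (nat_lit 4) (.e (nat_lit 106536) (nat_lit 11) .nil)))))) (.g (nat_lit 4) .nil .nil)))) (.nd (nat_lit 5) 
(.lf (nat_lit 133533) (.g (nat_lit 2701) (.e (nat_lit 16433) (nat_lit 9) (.e (nat_lit 426538) (nat_lit 29) (.e (nat_lit 352309) (nat_lit 21) (.e (nat_lit 57848) (nat_lit 252) (.e (nat_lit 57386) (nat_lit 4) (.e (nat_lit 106536) (nat_lit 11) .nil)))))) (.g (nat_lit 5) .nil .nil))) 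
(.lf (nat_lit 133565) (.g (nat_lit 1938) (.e (nat_lit 16433) (nat_lit 9) (.e (nat_lit 426555) (nat_lit 32) (.e (nat_lit 376860) (nat_lit 21) (.e (nat_lit 57851) (nat_lit 252) (.e (nat_lit 57382) (nat_lit 4) (.e (nat_lit 106536) (nat_lit 11) .nil)))))) (.g (nat_lit 4) .nil .nil))))))) (.nd (nat_lit 2) (.nd (nat_lit 3) (.nd (nat_lit 4) (.nd (nat_lit 5) 
(.lf (nat_lit 133507) (.g (nat_lit 2607) (.e (nat_lit 16432) (nat_lit 9) (.e (nat_lit 426566) (nat_lit 34) (.e (nat_lit 393253) (nat_lit 18) (.e (nat_lit 164331) (nat_lit 230) .nil)))) .nil)) 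
(.lf (nat_lit 133539) (.g (nat_lit 2192) (.e (nat_lit 16433) (nat_lit 9) (.e (nat_lit 426555) (nat_lit 32) (.e (nat_lit 376857) (nat_lit 21) (.e (nat_lit 57844) (nat_lit 252) (.e (nat_lit 57382) (nat_lit 4) (.e (nat_lit 106536) (nat_lit 11) .nil)))))) (.g (nat_lit 4) .nil .nil)))) (.nd (nat_lit 5) 
(.lf (nat_lit 133523) (.g (nat_lit 2856) (.e (nat_lit 16432) (nat_lit 9) (.e (nat_lit 426568) (nat_lit 34) (.e (nat_lit 393253) (nat_lit 18) (.e (nat_lit 164329) (nat_lit 230) (.e (nat_lit 163867) (nat_lit 2) (.e (nat_lit 196656) (nat_lit 11) .nil)))))) (.g (nat_lit 5) .nil .nil))) 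
(.lf (nat_lit 133555) (.g (nat_lit 1829) (.e (nat_lit 16433) (nat_lit 9) (.e (nat_lit 426555) (nat_lit 32) (.e (nat_lit 376859) (nat_lit 21) (.e (nat_lit 57847) (nat_lit 252) (.e (nat_lit 57384) (nat_lit 4) .nil))))) .nil)))) (.nd (nat_lit 4) (.nd (nat_lit 5) 
(.lf (nat_lit 133515) (.g (nat_lit 3415) (.e (nat_lit 16432) (nat_lit 9) (.e (nat_lit 426568) (nat_lit 34) (.e (nat_lit 393251) (nat_lit 18) (.e (nat_lit 164332) (nat_lit 230) (.e (nat_lit 163867) (nat_lit 2) (.e (nat_lit 196656) (nat_lit 11) .nil)))))) (.g (nat_lit 6) .nil .nil))) 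
(.lf (nat_lit 133547) (.g (nat_lit 1930) (.e (nat_lit 16433) (nat_lit 9) (.e (nat_lit 426555) (nat_lit 32) (.e (nat_lit 376857) (nat_lit 21) (.e (nat_lit 57851) (nat_lit 252) (.e (nat_lit 57382) (nat_lit 4) (.e (nat_lit 106536) (nat_lit 11) .nil)))))) (.g (nat_lit 4) .nil .nil)))) (.nd (nat_lit 5) 
(.lf (nat_lit 133531) (.g (nat_lit 2303) (.e (nat_lit 16433) (nat_lit 9) (.e (nat_lit 426538) (nat_lit 29) (.e (nat_lit 352309) (nat_lit 21) (.e (nat_lit 57848) (nat_lit 252) (.e (nat_lit 57383) (nat_lit 4) (.e (nat_lit 106536) (nat_lit 11) .nil)))))) (.g (nat_lit 4) .nil .nil))) 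
(.lf (nat_lit 133563) (.g (nat_lit 2130) (.e (nat_lit 16433) (nat_lit 9) (.e (nat_lit 426555) (nat_lit 32) (.e (nat_lit 376860) (nat_lit 21) (.e (nat_lit 57844) (nat_lit 252) (.e (nat_lit 57382) (nat_lit 4) .nil))))) .nil))))) (.nd (nat_lit 3) (.nd (nat_lit 4) (.nd (nat_lit 5) 
(.lf (nat_lit 133511) (.g (nat_lit 3093) (.e (nat_lit 16432) (nat_lit 9) (.e (nat_lit 426567) (nat_lit 34) (.e (nat_lit 393251) (nat_lit 18) (.e (nat_lit 164325) (nat_lit 230) (.e (nat_lit 163868) (nat_lit 2) (.e (nat_lit 196656) (nat_lit 11) .nil)))))) (.g (nat_lit 0) .nil .nil))) 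
(.lf (nat_lit 133543) (.g (nat_lit 3175) (.e (nat_lit 16433) (nat_lit 9) (.e (nat_lit 426555) (nat_lit 32) (.e (nat_lit 376857) (nat_lit 21) (.e (nat_lit 57847) (nat_lit 252) (.e (nat_lit 57386) (nat_lit 4) (.e (nat_lit 106536) (nat_lit 11) .nil)))))) (.g (nat_lit 0) .nil .nil)))) (.nd (nat_lit 5) 
(.lf (nat_lit 133527) (.g (nat_lit 4033) (.e (nat_lit 16433) (nat_lit 9) (.e (nat_lit 426436) (nat_lit 18) (.e (nat_lit 98335) (nat_lit 18) (.e (nat_lit 164325) (nat_lit 230) .nil)))) .nil)) 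
(.lf (nat_lit 133559) (.g (nat_lit 2884) (.e (nat_lit 16433) (nat_lit 9) (.e (nat_lit 426555) (nat_lit 32) (.e (nat_lit 376859) (nat_lit 21) (.e (nat_lit 57848) (nat_lit 252) (.e (nat_lit 57386) (nat_lit 4) (.e (nat_lit 106536) (nat_lit 11) .nil)))))) (.g (nat_lit 6) .nil .nil))))) (.nd (nat_lit 4) (.nd (nat_lit 5) 
(.lf (nat_lit 133519) (.g (nat_lit 688) (.e (nat_lit 16432) (nat_lit 9) (.e (nat_lit 426568) (nat_lit 34) (.e (nat_lit 393253) (nat_lit 18) .nil))) .nil)) 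
(.lf (nat_lit 133551) (.g (nat_lit 2229) (.e (nat_lit 16433) (nat_lit 9) (.e (nat_lit 426555) (nat_lit 32) (.e (nat_lit 376857) (nat_lit 21) (.e (nat_lit 57853) (nat_lit 252) (.e (nat_lit 57382) (nat_lit 4) (.e (nat_lit 106536) (nat_lit 11) .nil)))))) (.g (nat_lit 4) .nil .nil)))) (.nd (nat_lit 5) 
(.lf (nat_lit 133535) (.g (nat_lit 254) (.e (nat_lit 16433) (nat_lit 9) (.e (nat_lit 426550) (nat_lit 31) (.e (nat_lit 368656) (nat_lit 14) .nil))) .nil)) 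
(.lf (nat_lit 133567) (.g (nat_lit 2654) (.e (nat_lit 16433) (nat_lit 9) (.e (nat_lit 426555) (nat_lit 32) (.e (nat_lit 376860) (nat_lit 21) (.e (nat_lit 57852) (nat_lit 252) (.e (nat_lit 57382) (nat_lit 4) (.e (nat_lit 106536) (nat_lit 11) .nil)))))) (.g (nat_lit 4) .nil .nil)))))))))

noncomputable def tv1780 : DT := (.nd (nat_lit 0) (.nd (nat_lit 1) (.nd (nat_lit 2) (.nd (nat_lit 3) (.nd (nat_lit 4) (.nd (nat_lit 5) 
(.lf (nat_lit 133568) (.g (nat_lit 2677) (.e (nat_lit 16433) (nat_lit 9) (.e (nat_lit 426555) (nat_lit 32) (.e (nat_lit 376860) (nat_lit 21) (.e (nat_lit 57853) (nat_lit 252) (.e (nat_lit 57382) (nat_lit 4) (.e (nat_lit 106534) (nat_lit 11) .nil)))))) (.g (nat_lit 4) .nil .nil))) 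
(.lf (nat_lit 133600) (.g (nat_lit 2833) (.e (nat_lit 16434) (nat_lit 9) (.e (nat_lit 426555) (nat_lit 32) (.e (nat_lit 376857) (nat_lit 21) (.e (nat_lit 57852) (nat_lit 252) (.e (nat_lit 57382) (nat_lit 4) (.e (nat_lit 106534) (nat_lit 11) .nil)))))) (.g (nat_lit 5) .nil .nil)))) (.nd (nat_lit 5) 
(.lf (nat_lit 133584) (.g (nat_lit 2386) (.e (nat_lit 16433) (nat_lit 9) (.e (nat_lit 426571) (nat_lit 35) (.e (nat_lit 401468) (nat_lit 27) (.e (nat_lit 336099) (nat_lit 9) (.e (nat_lit 336013) (nat_lit 2) (.e (nat_lit 98048) (nat_lit 2) .nil)))))) (.g (nat_lit 5) .nil .nil))) 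
(.lf (nat_lit 133616) (.g (nat_lit 989) (.e (nat_lit 16434) (nat_lit 9) (.e (nat_lit 426562) (nat_lit 33) (.e (nat_lit 392960) (nat_lit 4) (.e (nat_lit 65568) (nat_lit 2) (.e (nat_lit 98048) (nat_lit 2) .nil))))) .nil)))) (.nd (nat_lit 4) (.nd (nat_lit 5) 
(.lf (nat_lit 133576) (.g (nat_lit 2502) (.e (nat_lit 16433) (nat_lit 9) (.e (nat_lit 426566) (nat_lit 34) (.e (nat_lit 393253) (nat_lit 18) (.e (nat_lit 164326) (nat_lit 230) (.e (nat_lit 163870) (nat_lit 2) (.e (nat_lit 196652) (nat_lit 11) .nil)))))) (.g (nat_lit 5) .nil .nil))) 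
(.lf (nat_lit 133608) (.g (nat_lit 2539) (.e (nat_lit 16434) (nat_lit 9) (.e (nat_lit 426555) (nat_lit 32) (.e (nat_lit 376860) (nat_lit 21) (.e (nat_lit 57844) (nat_lit 252) (.e (nat_lit 57382) (nat_lit 4) (.e (nat_lit 106534) (nat_lit 11) .nil)))))) (.g (nat_lit 4) .nil .nil)))) (.nd (nat_lit 5) 
(.lf (nat_lit 133592) (.g (nat_lit 4802) (.e (nat_lit 16434) (nat_lit 9) (.e (nat_lit 426436) (nat_lit 18) (.e (nat_lit 98335) (nat_lit 18) (.e (nat_lit 164327) (nat_lit 230) .nil)))) .nil)) 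
(.lf (nat_lit 133624) (.g (nat_lit 2204) (.e (nat_lit 16434) (nat_lit 9) (.e (nat_lit 426568) (nat_lit 34) (.e (nat_lit 393253) (nat_lit 18) (.e (nat_lit 164326) (nat_lit 230) (.e (nat_lit 163871) (nat_lit 2) .nil))))) .nil))))) (.nd (nat_lit 3) (.nd (nat_lit 4) (.nd (nat_lit 5) 
(.lf (nat_lit 133572) (.g (nat_lit 202) (.e (nat_lit 16433) (nat_lit 9) (.e (nat_lit 426558) (nat_lit 33) (.e (nat_lit 392960) (nat_lit 7) .nil))) .nil)) 
(.lf (nat_lit 133604) (.g (nat_lit 2120) (.e (nat_lit 16434) (nat_lit 9) (.e (nat_lit 426555) (nat_lit 32) (.e (nat_lit 376859) (nat_lit 21) (.e (nat_lit 57847) (nat_lit 252) (.e (nat_lit 57384) (nat_lit 4) .nil))))) .nil))) (.nd (nat_lit 5) 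
(.lf (nat_lit 133588) (.g (nat_lit 587) (.e (nat_lit 16434) (nat_lit 9) (.e (nat_lit 426436) (nat_lit 18) (.e (nat_lit 98335) (nat_lit 18) .nil))) .nil)) 
(.lf (nat_lit 133620) (.g (nat_lit 2449) (.e (nat_lit 16434) (nat_lit 9) (.e (nat_lit 426566) (nat_lit 34) (.e (nat_lit 393253) (nat_lit 18) (.e (nat_lit 164325) (nat_lit 230) (.e (nat_lit 163871) (nat_lit 2) (.e (nat_lit 196653) (nat_lit 11) .nil)))))) (.g (nat_lit 4) .nil .nil))))) (.nd (nat_lit 4) (.nd (nat_lit 5) 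
(.lf (nat_lit 133580) (.g (nat_lit 2874) (.e (nat_lit 16433) (nat_lit 9) (.e (nat_lit 426568) (nat_lit 34) (.e (nat_lit 393253) (nat_lit 18) (.e (nat_lit 164326) (nat_lit 230) (.e (nat_lit 163868) (nat_lit 2) (.e (nat_lit 196655) (nat_lit 11) .nil)))))) (.g (nat_lit 5) .nil .nil))) 
(.lf (nat_lit 133612) (.g (nat_lit 2875) (.e (nat_lit 16434) (nat_lit 9) (.e (nat_lit 426555) (nat_lit 32) (.e (nat_lit 376860) (nat_lit 21) (.e (nat_lit 57853) (nat_lit 252) (.e (nat_lit 57382) (nat_lit 4) (.e (nat_lit 106534) (nat_lit 11) .nil)))))) (.g (nat_lit 5) .nil .nil)))) (.nd (nat_lit 5) 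
(.lf (nat_lit 133596) (.g (nat_lit 2299) (.e (nat_lit 16434) (nat_lit 9) (.e (nat_lit 426555) (nat_lit 32) (.e (nat_lit 376857) (nat_lit 21) (.e (nat_lit 57847) (nat_lit 252) (.e (nat_lit 57384) (nat_lit 4) .nil))))) .nil)) 
(.lf (nat_lit 133628) (.g (nat_lit 1027) (.e (nat_lit 16435) (nat_lit 9) (.e (nat_lit 426432) (nat_lit 17) (.e (nat_lit 98048) (nat_lit 6) (.e (nat_lit 81921) (nat_lit 0) (.e (nat_lit 7936) (nat_lit 404) .nil))))) (.g (nat_lit 4) .nil .nil))))))) (.nd (nat_lit 2) (.nd (nat_lit 3) (.nd (nat_lit 4) (.nd (nat_lit 5) 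
(.lf (nat_lit 133570) (.g (nat_lit 3105) (.e (nat_lit 16433) (nat_lit 9) (.e (nat_lit 426555) (nat_lit 32) (.e (nat_lit 376860) (nat_lit 21) (.e (nat_lit 57854) (nat_lit 252) (.e (nat_lit 57356) (nat_lit 0) (.e (nat_lit 2155) (nat_lit 142) (.e (nat_lit 704736) (nat_lit 11) .nil))))))) (.g (nat_lit 4) .nil .nil))) 
(.lf (nat_lit 133602) (.g (nat_lit 1985) (.e (nat_lit 16434) (nat_lit 9) (.e (nat_lit 426555) (nat_lit 32) (.e (nat_lit 376857) (nat_lit 21) (.e (nat_lit 57854) (nat_lit 252) (.e (nat_lit 57384) (nat_lit 4) (.e (nat_lit 106535) (nat_lit 11) .nil)))))) (.g (nat_lit 4) .nil .nil)))) (.nd (nat_lit 5) 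
(.lf (nat_lit 133586) (.g (nat_lit 752) (.e (nat_lit 16434) (nat_lit 9) (.e (nat_lit 426131) (nat_lit 3) (.e (nat_lit 204885) (nat_lit 33) .nil))) .nil)) 
(.lf (nat_lit 133618) (.g (nat_lit 2016) (.e (nat_lit 16434) (nat_lit 9) (.e (nat_lit 426566) (nat_lit 34) (.e (nat_lit 393251) (nat_lit 18) (.e (nat_lit 164325) (nat_lit 230) (.e (nat_lit 163871) (nat_lit 2) (.e (nat_lit 196653) (nat_lit 11) .nil)))))) (.g (nat_lit 4) .nil .nil))))) (.nd (nat_lit 4) (.nd (nat_lit 5) 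
(.lf (nat_lit 133578) (.g (nat_lit 2206) (.e (nat_lit 16433) (nat_lit 9) (.e (nat_lit 426567) (nat_lit 34) (.e (nat_lit 393251) (nat_lit 18) (.e (nat_lit 164325) (nat_lit 230) (.e (nat_lit 163868) (nat_lit 2) (.e (nat_lit 196656) (nat_lit 11) .nil)))))) (.g (nat_lit 4) .nil .nil))) 
(.lf (nat_lit 133610) (.g (nat_lit 1527) (.e (nat_lit 16434) (nat_lit 9) (.e (nat_lit 426555) (nat_lit 32) (.e (nat_lit 376860) (nat_lit 21) (.e (nat_lit 57852) (nat_lit 252) .nil)))) .nil))) (.nd (nat_lit 5) 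
(.lf (nat_lit 133594) (.g (nat_lit 4145) (.e (nat_lit 16434) (nat_lit 9) (.e (nat_lit 426436) (nat_lit 18) (.e (nat_lit 98335) (nat_lit 18) (.e (nat_lit 164332) (nat_lit 230) .nil)))) .nil)) 
(.lf (nat_lit 133626) (.g (nat_lit 1098) (.e (nat_lit 16435) (nat_lit 9) (.e (nat_lit 426131) (nat_lit 3) (.e (nat_lit 204884) (nat_lit 33) (.e (nat_lit 401448) (nat_lit 10) .nil)))) .nil))))) (.nd (nat_lit 3) (.nd (nat_lit 4) (.nd (nat_lit 5) 
(.lf (nat_lit 133574) (.g (nat_lit 2110) (.e (nat_lit 16433) (nat_lit 9) (.e (nat_lit 426562) (nat_lit 33) (.e (nat_lit 385041) (nat_lit 19) (.e (nat_lit 164292) (nat_lit 224) (.e (nat_lit 164092) (nat_lit 82) (.e (nat_lit 500046) (nat_lit 16) .nil)))))) (.g (nat_lit 0) .nil .nil))) 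
(.lf (nat_lit 133606) (.g (nat_lit 2533) (.e (nat_lit 16434) (nat_lit 9) (.e (nat_lit 426555) (nat_lit 32) (.e (nat_lit 376859) (nat_lit 21) (.e (nat_lit 57849) (nat_lit 252) (.e (nat_lit 57386) (nat_lit 4) (.e (nat_lit 106535) (nat_lit 11) .nil)))))) (.g (nat_lit 5) .nil .nil)))) (.nd (nat_lit 5) 
(.lf (nat_lit 133590) (.g (nat_lit 4154) (.e (nat_lit 16434) (nat_lit 9) (.e (nat_lit 426436) (nat_lit 18) (.e (nat_lit 98335) (nat_lit 18) (.e (nat_lit 164325) (nat_lit 230) .nil)))) .nil)) 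
(.lf (nat_lit 133622) (.g (nat_lit 2589) (.e (nat_lit 16434) (nat_lit 9) (.e (nat_lit 426566) (nat_lit 34) (.e (nat_lit 393254) (nat_lit 18) (.e (nat_lit 164326) (nat_lit 230) (.e (nat_lit 163868) (nat_lit 2) (.e (nat_lit 196655) (nat_lit 11) .nil)))))) (.g (nat_lit 5) .nil .nil))))) (.nd (nat_lit 4) (.nd (nat_lit 5) 
(.lf (nat_lit 133582) (.g (nat_lit 2100) (.e (nat_lit 16433) (nat_lit 9) (.e (nat_lit 426568) (nat_lit 34) (.e (nat_lit 393253) (nat_lit 18) (.e (nat_lit 164326) (nat_lit 230) (.e (nat_lit 163871) (nat_lit 2) (.e (nat_lit 196652) (nat_lit 11) .nil)))))) (.g (nat_lit 4) .nil .nil))) 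
(.lf (nat_lit 133614) (.g (nat_lit 2153) (.e (nat_lit 16434) (nat_lit 9) (.e (nat_lit 426555) (nat_lit 32) (.e (nat_lit 376860) (nat_lit 21) (.e (nat_lit 57854) (nat_lit 252) (.e (nat_lit 57384) (nat_lit 4) (.e (nat_lit 106535) (nat_lit 11) .nil)))))) (.g (nat_lit 4) .nil .nil)))) (.nd (nat_lit 5) 
(.lf (nat_lit 133598) (.g (nat_lit 2631) (.e (nat_lit 16434) (nat_lit 9) (.e (nat_lit 426555) (nat_lit 32) (.e (nat_lit 376857) (nat_lit 21) (.e (nat_lit 57849) (nat_lit 252) (.e (nat_lit 57386) (nat_lit 4) (.e (nat_lit 106535) (nat_lit 11) .nil)))))) (.g (nat_lit 5) .nil .nil))) 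
(.lf (nat_lit 133630) (.g (nat_lit 2738) (.e (nat_lit 16435) (nat_lit 9) (.e (nat_lit 426436) (nat_lit 18) (.e (nat_lit 98334) (nat_lit 18) (.e (nat_lit 164330) (nat_lit 230) (.e (nat_lit 163938) (nat_lit 18) (.e (nat_lit 483072) (nat_lit 10) .nil)))))) (.g (nat_lit 4) .nil .nil)))))))) (.nd (nat_lit 1) (.nd (nat_lit 2) (.nd (nat_lit 3) (.nd (nat_lit 4) (.nd (nat_lit 5) 
(.lf (nat_lit 133569) (.g (nat_lit 2320) (.e (nat_lit 16433) (nat_lit 9) (.e (nat_lit 426555) (nat_lit 32) (.e (nat_lit 376860) (nat_lit 21) (.e (nat_lit 57853) (nat_lit 252) (.e (nat_lit 57382) (nat_lit 4) (.e (nat_lit 106536) (nat_lit 11) .nil)))))) (.g (nat_lit 4) .nil .nil))) 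
(.lf (nat_lit 133601) (.g (nat_lit 2694) (.e (nat_lit 16434) (nat_lit 9) (.e (nat_lit 426555) (nat_lit 32) (.e (nat_lit 376857) (nat_lit 21) (.e (nat_lit 57853) (nat_lit 252) (.e (nat_lit 57382) (nat_lit 4) (.e (nat_lit 106534) (nat_lit 11) .nil)))))) (.g (nat_lit 4) .nil .nil)))) (.nd (nat_lit 5) 
(.lf (nat_lit 133585) (.g (nat_lit 1643) (.e (nat_lit 16433) (nat_lit 9) (.e (nat_lit 426571) (nat_lit 35) (.e (nat_lit 401473) (nat_lit 29) (.e (nat_lit 352312) (nat_lit 22) (.e (nat_lit 98048) (nat_lit 2) .nil))))) (.g (nat_lit 4) .nil .nil))) 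
(.lf (nat_lit 133617) (.g (nat_lit 2044) (.e (nat_lit 16434) (nat_lit 9) (.e (nat_lit 426562) (nat_lit 33) (.e (nat_lit 385041) (nat_lit 19) (.e (nat_lit 164288) (nat_lit 224) (.e (nat_lit 164092) (nat_lit 82) (.e (nat_lit 500046) (nat_lit 16) .nil)))))) (.g (nat_lit 0) .nil .nil))))) (.nd (nat_lit 4) (.nd (nat_lit 5) 
(.lf (nat_lit 133577) (.g (nat_lit 2482) (.e (nat_lit 16433) (nat_lit 9) (.e (nat_lit 426567) (nat_lit 34) (.e (nat_lit 393251) (nat_lit 18) (.e (nat_lit 164325) (nat_lit 230) (.e (nat_lit 163866) (nat_lit 2) (.e (nat_lit 196654) (nat_lit 11) .nil)))))) (.g (nat_lit 4) .nil .nil))) 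
(.lf (nat_lit 133609) (.g (nat_lit 1456) (.e (nat_lit 16434) (nat_lit 9) (.e (nat_lit 426555) (nat_lit 32) (.e (nat_lit 376860) (nat_lit 21) (.e (nat_lit 57851) (nat_lit 252) .nil)))) .nil))) (.nd (nat_lit 5) 
(.lf (nat_lit 133593) (.g (nat_lit 4113) (.e (nat_lit 16434) (nat_lit 9) (.e (nat_lit 426436) (nat_lit 18) (.e (nat_lit 98335) (nat_lit 18) (.e (nat_lit 164330) (nat_lit 230) .nil)))) .nil)) 
(.lf (nat_lit 133625) (.g (nat_lit 1822) (.e (nat_lit 16435) (nat_lit 9) (.e (nat_lit 426131) (nat_lit 3) (.e (nat_lit 212736) (nat_lit 16) (.e (nat_lit 491566) (nat_lit 12) (.e (nat_lit 392960) (nat_lit 2) .nil))))) (.g (nat_lit 4) .nil .nil)))))) (.nd (nat_lit 3) (.nd (nat_lit 4) (.nd (nat_lit 5) 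
(.lf (nat_lit 133573) (.g (nat_lit 2099) (.e (nat_lit 16433) (nat_lit 9) (.e (nat_lit 426562) (nat_lit 33) (.e (nat_lit 385041) (nat_lit 19) (.e (nat_lit 164288) (nat_lit 224) (.e (nat_lit 164092) (nat_lit 82) (.e (nat_lit 500046) (nat_lit 16) .nil)))))) (.g (nat_lit 0) .nil .nil))) 
(.lf (nat_lit 133605) (.g (nat_lit 2092) (.e (nat_lit 16434) (nat_lit 9) (.e (nat_lit 426555) (nat_lit 32) (.e (nat_lit 376859) (nat_lit 21) (.e (nat_lit 57848) (nat_lit 252) (.e (nat_lit 57386) (nat_lit 4) (.e (nat_lit 106535) (nat_lit 11) .nil)))))) (.g (nat_lit 4) .nil .nil)))) (.nd (nat_lit 5) 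
(.lf (nat_lit 133589) (.g (nat_lit 4042) (.e (nat_lit 16434) (nat_lit 9) (.e (nat_lit 426436) (nat_lit 18) (.e (nat_lit 98335) (nat_lit 18) (.e (nat_lit 164305) (nat_lit 226) .nil)))) .nil)) 
(.lf (nat_lit 133621) (.g (nat_lit 2672) (.e (nat_lit 16434) (nat_lit 9) (.e (nat_lit 426566) (nat_lit 34) (.e (nat_lit 393253) (nat_lit 18) (.e (nat_lit 164327) (nat_lit 230) (.e (nat_lit 163871) (nat_lit 2) (.e (nat_lit 196653) (nat_lit 11) .nil)))))) (.g (nat_lit 4) .nil .nil))))) (.nd (nat_lit 4) (.nd (nat_lit 5) 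
(.lf (nat_lit 133581) (.g (nat_lit 2780) (.e (nat_lit 16433) (nat_lit 9) (.e (nat_lit 426568) (nat_lit 34) (.e (nat_lit 393253) (nat_lit 18) (.e (nat_lit 164326) (nat_lit 230) (.e (nat_lit 163870) (nat_lit 2) (.e (nat_lit 196652) (nat_lit 11) .nil)))))) (.g (nat_lit 5) .nil .nil))) 
(.lf (nat_lit 133613) (.g (nat_lit 1375) (.e (nat_lit 16434) (nat_lit 9) (.e (nat_lit 426555) (nat_lit 32) (.e (nat_lit 376860) (nat_lit 21) (.e (nat_lit 57854) (nat_lit 252) .nil)))) .nil))) (.nd (nat_lit 5) 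
(.lf (nat_lit 133597) (.g (nat_lit 2270) (.e (nat_lit 16434) (nat_lit 9) (.e (nat_lit 426555) (nat_lit 32) (.e (nat_lit 376857) (nat_lit 21) (.e (nat_lit 57848) (nat_lit 252) (.e (nat_lit 57386) (nat_lit 4) (.e (nat_lit 106535) (nat_lit 11) .nil)))))) (.g (nat_lit 4) .nil .nil))) 
(.lf (nat_lit 133629) (.g (nat_lit 2506) (.e (nat_lit 16435) (nat_lit 9) (.e (nat_lit 426436) (nat_lit 18) (.e (nat_lit 98334) (nat_lit 18) (.e (nat_lit 164330) (nat_lit 230) (.e (nat_lit 163936) (nat_lit 18) (.e (nat_lit 483072) (nat_lit 10) .nil)))))) (.g (nat_lit 4) .nil .nil))))))) (.nd (nat_lit 2) (.nd (nat_lit 3) (.nd (nat_lit 4) (.nd (nat_lit 5) 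
(.lf (nat_lit 133571) (.g (nat_lit 1751) (.e (nat_lit 16433) (nat_lit 9) (.e (nat_lit 426558) (nat_lit 33) (.e (nat_lit 392960) (nat_lit 4) (.e (nat_lit 65568) (nat_lit 2) (.e (nat_lit 98048) (nat_lit 2) .nil))))) (.g (nat_lit 4) .nil .nil))) 
(.lf (nat_lit 133603) (.g (nat_lit 617) (.e (nat_lit 16434) (nat_lit 9) (.e (nat_lit 426555) (nat_lit 32) (.e (nat_lit 376859) (nat_lit 21) .nil))) .nil))) (.nd (nat_lit 5) 
(.lf (nat_lit 133587) (.g (nat_lit 1642) (.e (nat_lit 16434) (nat_lit 9) (.e (nat_lit 426382) (nat_lit 15) (.e (nat_lit 1856) (nat_lit 124) (.e (nat_lit 557100) (nat_lit 13) (.e (nat_lit 172113) (nat_lit 10) .nil))))) .nil)) 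
(.lf (nat_lit 133619) (.g (nat_lit 2048) (.e (nat_lit 16434) (nat_lit 9) (.e (nat_lit 426566) (nat_lit 34) (.e (nat_lit 393251) (nat_lit 18) (.e (nat_lit 164327) (nat_lit 230) (.e (nat_lit 163871) (nat_lit 2) (.e (nat_lit 196653) (nat_lit 11) .nil)))))) (.g (nat_lit 4) .nil .nil))))) (.nd (nat_lit 4) (.nd (nat_lit 5) 
(.lf (nat_lit 133579) (.g (nat_lit 2815) (.e (nat_lit 16433) (nat_lit 9) (.e (nat_lit 426567) (nat_lit 34) (.e (nat_lit 393251) (nat_lit 18) (.e (nat_lit 164332) (nat_lit 230) (.e (nat_lit 163869) (nat_lit 2) (.e (nat_lit 196656) (nat_lit 11) .nil)))))) (.g (nat_lit 4) .nil .nil))) 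
(.lf (nat_lit 133611) (.g (nat_lit 3169) (.e (nat_lit 16434) (nat_lit 9) (.e (nat_lit 426555) (nat_lit 32) (.e (nat_lit 376860) (nat_lit 21) (.e (nat_lit 57852) (nat_lit 252) (.e (nat_lit 57382) (nat_lit 4) (.e (nat_lit 106534) (nat_lit 11) .nil)))))) (.g (nat_lit 5) .nil .nil)))) (.nd (nat_lit 5) 
(.lf (nat_lit 133595) (.g (nat_lit 690) (.e (nat_lit 16434) (nat_lit 9) (.e (nat_lit 426555) (nat_lit 32) (.e (nat_lit 376857) (nat_lit 21) .nil))) .nil)) 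
(.lf (nat_lit 133627) (.g (nat_lit 428) (.e (nat_lit 16435) (nat_lit 9) (.e (nat_lit 426428) (nat_lit 17) (.e (nat_lit 98048) (nat_lit 8) .nil))) .nil))))) (.nd (nat_lit 3) (.nd (nat_lit 4) (.nd (nat_lit 5) 
(.lf (nat_lit 133575) (.g (nat_lit 2108) (.e (nat_lit 16433) (nat_lit 9) (.e (nat_lit 426562) (nat_lit 33) (.e (nat_lit 385041) (nat_lit 19) (.e (nat_lit 164294) (nat_lit 224) (.e (nat_lit 164092) (nat_lit 82) (.e (nat_lit 500046) (nat_lit 16) .nil)))))) (.g (nat_lit 0) .nil .nil))) 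
(.lf (nat_lit 133607) (.g (nat_lit 3309) (.e (nat_lit 16434) (nat_lit 9) (.e (nat_lit 426555) (nat_lit 32) (.e (nat_lit 376859) (nat_lit 21) (.e (nat_lit 57849) (nat_lit 252) (.e (nat_lit 57386) (nat_lit 4) (.e (nat_lit 106536) (nat_lit 11) .nil)))))) (.g (nat_lit 6) .nil .nil)))) (.nd (nat_lit 5) 
(.lf (nat_lit 133591) (.g (nat_lit 4693) (.e (nat_lit 16434) (nat_lit 9) (.e (nat_lit 426436) (nat_lit 18) (.e (nat_lit 98335) (nat_lit 18) (.e (nat_lit 164326) (nat_lit 230) .nil)))) .nil)) 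
(.lf (nat_lit 133623) (.g (nat_lit 2262) (.e (nat_lit 16434) (nat_lit 9) (.e (nat_lit 426568) (nat_lit 34) (.e (nat_lit 393253) (nat_lit 18) (.e (nat_lit 164326) (nat_lit 230) (.e (nat_lit 163868) (nat_lit 2) (.e (nat_lit 196655) (nat_lit 11) .nil)))))) (.g (nat_lit 4) .nil .nil))))) (.nd (nat_lit 4) (.nd (nat_lit 5) 
(.lf (nat_lit 133583) (.g (nat_lit 2742) (.e (nat_lit 16433) (nat_lit 9) (.e (nat_lit 426568) (nat_lit 34) (.e (nat_lit 393253) (nat_lit 18) (.e (nat_lit 164326) (nat_lit 230) (.e (nat_lit 163871) (nat_lit 2) (.e (nat_lit 196655) (nat_lit 11) .nil)))))) (.g (nat_lit 5) .nil .nil))) 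
(.lf (nat_lit 133615) (.g (nat_lit 3634) (.e (nat_lit 16434) (nat_lit 9) (.e (nat_lit 426555) (nat_lit 32) (.e (nat_lit 376860) (nat_lit 21) (.e (nat_lit 57854) (nat_lit 252) (.e (nat_lit 57384) (nat_lit 4) (.e (nat_lit 106536) (nat_lit 11) .nil)))))) (.g (nat_lit 6) .nil .nil)))) (.nd (nat_lit 5) 
(.lf (nat_lit 133599) (.g (nat_lit 3415) (.e (nat_lit 16434) (nat_lit 9) (.e (nat_lit 426555) (nat_lit 32) (.e (nat_lit 376857) (nat_lit 21) (.e (nat_lit 57849) (nat_lit 252) (.e (nat_lit 57386) (nat_lit 4) (.e (nat_lit 106536) (nat_lit 11) .nil)))))) (.g (nat_lit 6) .nil .nil))) 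
(.lf (nat_lit 133631) (.g (nat_lit 570) (.e (nat_lit 16435) (nat_lit 9) (.e (nat_lit 426436) (nat_lit 18) (.e (nat_lit 98335) (nat_lit 18) .nil))) .nil))))))))

noncomputable def tv1781 : DT := (.nd (nat_lit 0) (.nd (nat_lit 1) (.nd (nat_lit 2) (.nd (nat_lit 3) (.nd (nat_lit 4) (.nd (nat_lit 5) 
(.lf (nat_lit 133632) (.g (nat_lit 4052) (.e (nat_lit 16435) (nat_lit 9) (.e (nat_lit 426436) (nat_lit 18) (.e (nat_lit 98335) (nat_lit 18) (.e (nat_lit 164305) (nat_lit 226) .nil)))) .nil)) 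
(.lf (nat_lit 133664) (.g (nat_lit 1264) (.e (nat_lit 16435) (nat_lit 9) (.e (nat_lit 426478) (nat_lit 27) (.e (nat_lit 336389) (nat_lit 27) (.e (nat_lit 426107) (nat_lit 1) .nil)))) .nil))) (.nd (nat_lit 5) 
(.lf (nat_lit 133648) (.g (nat_lit 5023) (.e (nat_lit 16435) (nat_lit 9) (.e (nat_lit 426436) (nat_lit 18) (.e (nat_lit 98335) (nat_lit 18) (.e (nat_lit 164332) (nat_lit 230) (.e (nat_lit 163935) (nat_lit 18) .nil))))) .nil)) 
(.lf (nat_lit 133680) (.g (nat_lit 937) (.e (nat_lit 16435) (nat_lit 9) (.e (nat_lit 426555) (nat_lit 32) (.e (nat_lit 376856) (nat_lit 21) .nil))) .nil)))) (.nd (nat_lit 4) (.nd (nat_lit 5) 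
(.lf (nat_lit 133640) (.g (nat_lit 4252) (.e (nat_lit 16435) (nat_lit 9) (.e (nat_lit 426436) (nat_lit 18) (.e (nat_lit 98335) (nat_lit 18) (.e (nat_lit 164327) (nat_lit 230) .nil)))) .nil)) 
(.lf (nat_lit 133672) (.g (nat_lit 3036) (.e (nat_lit 16435) (nat_lit 9) (.e (nat_lit 426491) (nat_lit 27) (.e (nat_lit 336407) (nat_lit 27) (.e (nat_lit 426107) (nat_lit 1) (.e (nat_lit 164326) (nat_lit 230) (.e (nat_lit 163871) (nat_lit 2) (.e (nat_lit 196655) (nat_lit 11) .nil))))))) (.g (nat_lit 7) .nil .nil)))) (.nd (nat_lit 5) 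
(.lf (nat_lit 133656) (.g (nat_lit 1490) (.e (nat_lit 16435) (nat_lit 9) (.e (nat_lit 426448) (nat_lit 20) (.e (nat_lit 122624) (nat_lit 5) (.e (nat_lit 221194) (nat_lit 11) (.e (nat_lit 335914) (nat_lit 0) (.e (nat_lit 7936) (nat_lit 345) .nil)))))) (.g (nat_lit 4) .nil .nil))) 
(.lf (nat_lit 133688) (.g (nat_lit 2748) (.e (nat_lit 16435) (nat_lit 9) (.e (nat_lit 426555) (nat_lit 32) (.e (nat_lit 376857) (nat_lit 21) (.e (nat_lit 57848) (nat_lit 252) (.e (nat_lit 57385) (nat_lit 4) (.e (nat_lit 106536) (nat_lit 11) .nil)))))) (.g (nat_lit 6) .nil .nil)))))) (.nd (nat_lit 3) (.nd (nat_lit 4) (.nd (nat_lit 5) 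
(.lf (nat_lit 133636) (.g (nat_lit 4643) (.e (nat_lit 16435) (nat_lit 9) (.e (nat_lit 426436) (nat_lit 18) (.e (nat_lit 98335) (nat_lit 18) (.e (nat_lit 164325) (nat_lit 230) (.e (nat_lit 163936) (nat_lit 18) .nil))))) .nil)) 
(.lf (nat_lit 133668) (.g (nat_lit 2833) (.e (nat_lit 16435) (nat_lit 9) (.e (nat_lit 426489) (nat_lit 27) (.e (nat_lit 336407) (nat_lit 27) (.e (nat_lit 426107) (nat_lit 1) (.e (nat_lit 164326) (nat_lit 230) (.e (nat_lit 163871) (nat_lit 2) (.e (nat_lit 196655) (nat_lit 11) .nil))))))) (.g (nat_lit 6) .nil .nil)))) (.nd (nat_lit 5) 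
(.lf (nat_lit 133652) (.g (nat_lit 4580) (.e (nat_lit 16435) (nat_lit 9) (.e (nat_lit 426436) (nat_lit 18) (.e (nat_lit 98335) (nat_lit 18) (.e (nat_lit 164348) (nat_lit 240) .nil)))) .nil)) 
(.lf (nat_lit 133684) (.g (nat_lit 2310) (.e (nat_lit 16435) (nat_lit 9) (.e (nat_lit 426555) (nat_lit 32) (.e (nat_lit 376857) (nat_lit 21) (.e (nat_lit 57844) (nat_lit 252) (.e (nat_lit 57382) (nat_lit 4) (.e (nat_lit 106536) (nat_lit 11) .nil)))))) (.g (nat_lit 4) .nil .nil))))) (.nd (nat_lit 4) (.nd (nat_lit 5) 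
(.lf (nat_lit 133644) (.g (nat_lit 5681) (.e (nat_lit 16435) (nat_lit 9) (.e (nat_lit 426436) (nat_lit 18) (.e (nat_lit 98335) (nat_lit 18) (.e (nat_lit 164330) (nat_lit 230) (.e (nat_lit 163936) (nat_lit 18) (.e (nat_lit 483072) (nat_lit 10) .nil)))))) (.g (nat_lit 5) .nil .nil))) 
(.lf (nat_lit 133676) (.g (nat_lit 1018) (.e (nat_lit 16435) (nat_lit 9) (.e (nat_lit 426533) (nat_lit 28) (.e (nat_lit 352000) (nat_lit 4) (.e (nat_lit 172076) (nat_lit 6) (.e (nat_lit 253989) (nat_lit 11) .nil))))) (.g (nat_lit 4) .nil .nil)))) (.nd (nat_lit 5) 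
(.lf (nat_lit 133660) (.g (nat_lit 2241) (.e (nat_lit 16435) (nat_lit 9) (.e (nat_lit 426448) (nat_lit 20) (.e (nat_lit 114710) (nat_lit 21) (.e (nat_lit 57847) (nat_lit 252) (.e (nat_lit 57433) (nat_lit 16) .nil))))) .nil)) 
(.lf (nat_lit 133692) (.g (nat_lit 2721) (.e (nat_lit 16435) (nat_lit 9) (.e (nat_lit 426555) (nat_lit 32) (.e (nat_lit 376857) (nat_lit 21) (.e (nat_lit 57849) (nat_lit 252) (.e (nat_lit 57386) (nat_lit 4) (.e (nat_lit 106535) (nat_lit 11) .nil)))))) (.g (nat_lit 5) .nil .nil))))))) (.nd (nat_lit 2) (.nd (nat_lit 3) (.nd (nat_lit 4) (.nd (nat_lit 5) 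
(.lf (nat_lit 133634) (.g (nat_lit 4180) (.e (nat_lit 16435) (nat_lit 9) (.e (nat_lit 426436) (nat_lit 18) (.e (nat_lit 98335) (nat_lit 18) (.e (nat_lit 164324) (nat_lit 230) .nil)))) .nil)) 
(.lf (nat_lit 133666) (.g (nat_lit 2860) (.e (nat_lit 16435) (nat_lit 9) (.e (nat_lit 426484) (nat_lit 27) (.e (nat_lit 336407) (nat_lit 27) (.e (nat_lit 426107) (nat_lit 1) (.e (nat_lit 164326) (nat_lit 230) (.e (nat_lit 163871) (nat_lit 2) (.e (nat_lit 196655) (nat_lit 11) .nil))))))) (.g (nat_lit 6) .nil .nil)))) (.nd (nat_lit 5) 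
(.lf (nat_lit 133650) (.g (nat_lit 5023) (.e (nat_lit 16435) (nat_lit 9) (.e (nat_lit 426436) (nat_lit 18) (.e (nat_lit 98335) (nat_lit 18) (.e (nat_lit 164332) (nat_lit 230) (.e (nat_lit 163937) (nat_lit 18) .nil))))) .nil)) 
(.lf (nat_lit 133682) (.g (nat_lit 1868) (.e (nat_lit 16435) (nat_lit 9) (.e (nat_lit 426555) (nat_lit 32) (.e (nat_lit 376857) (nat_lit 21) (.e (nat_lit 57830) (nat_lit 250) (.e (nat_lit 1183) (nat_lit 87) .nil))))) .nil)))) (.nd (nat_lit 4) (.nd (nat_lit 5) 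
(.lf (nat_lit 133642) (.g (nat_lit 4078) (.e (nat_lit 16435) (nat_lit 9) (.e (nat_lit 426436) (nat_lit 18) (.e (nat_lit 98335) (nat_lit 18) (.e (nat_lit 164329) (nat_lit 230) .nil)))) .nil)) 
(.lf (nat_lit 133674) (.g (nat_lit 2179) (.e (nat_lit 16435) (nat_lit 9) (.e (nat_lit 426491) (nat_lit 27) (.e (nat_lit 336409) (nat_lit 27) (.e (nat_lit 426107) (nat_lit 1) (.e (nat_lit 164326) (nat_lit 230) (.e (nat_lit 163871) (nat_lit 2) (.e (nat_lit 196655) (nat_lit 11) .nil))))))) (.g (nat_lit 5) .nil .nil)))) (.nd (nat_lit 5) 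
(.lf (nat_lit 133658) (.g (nat_lit 2698) (.e (nat_lit 16435) (nat_lit 9) (.e (nat_lit 426448) (nat_lit 20) (.e (nat_lit 114710) (nat_lit 21) (.e (nat_lit 57847) (nat_lit 252) (.e (nat_lit 57430) (nat_lit 16) (.e (nat_lit 376576) (nat_lit 10) .nil)))))) (.g (nat_lit 5) .nil .nil))) 
(.lf (nat_lit 133690) (.g (nat_lit 2899) (.e (nat_lit 16435) (nat_lit 9) (.e (nat_lit 426555) (nat_lit 32) (.e (nat_lit 376857) (nat_lit 21) (.e (nat_lit 57848) (nat_lit 252) (.e (nat_lit 57386) (nat_lit 4) (.e (nat_lit 106536) (nat_lit 11) .nil)))))) (.g (nat_lit 6) .nil .nil)))))) (.nd (nat_lit 3) (.nd (nat_lit 4) (.nd (nat_lit 5) 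
(.lf (nat_lit 133638) (.g (nat_lit 4954) (.e (nat_lit 16435) (nat_lit 9) (.e (nat_lit 426436) (nat_lit 18) (.e (nat_lit 98335) (nat_lit 18) (.e (nat_lit 164325) (nat_lit 230) (.e (nat_lit 163939) (nat_lit 18) (.e (nat_lit 483072) (nat_lit 10) .nil)))))) (.g (nat_lit 4) .nil .nil))) 
(.lf (nat_lit 133670) (.g (nat_lit 2196) (.e (nat_lit 16435) (nat_lit 9) (.e (nat_lit 426491) (nat_lit 27) (.e (nat_lit 336405) (nat_lit 27) (.e (nat_lit 426107) (nat_lit 1) (.e (nat_lit 164326) (nat_lit 230) (.e (nat_lit 163871) (nat_lit 2) (.e (nat_lit 196655) (nat_lit 11) .nil))))))) (.g (nat_lit 5) .nil .nil)))) (.nd (nat_lit 5) 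
(.lf (nat_lit 133654) (.g (nat_lit 692) (.e (nat_lit 16435) (nat_lit 9) (.e (nat_lit 426448) (nat_lit 20) (.e (nat_lit 122624) (nat_lit 5) .nil))) .nil)) 
(.lf (nat_lit 133686) (.g (nat_lit 2923) (.e (nat_lit 16435) (nat_lit 9) (.e (nat_lit 426555) (nat_lit 32) (.e (nat_lit 376857) (nat_lit 21) (.e (nat_lit 57847) (nat_lit 252) (.e (nat_lit 57385) (nat_lit 4) (.e (nat_lit 106536) (nat_lit 11) .nil)))))) (.g (nat_lit 0) .nil .nil))))) (.nd (nat_lit 4) (.nd (nat_lit 5) 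
(.lf (nat_lit 133646) (.g (nat_lit 4160) (.e (nat_lit 16435) (nat_lit 9) (.e (nat_lit 426436) (nat_lit 18) (.e (nat_lit 98335) (nat_lit 18) (.e (nat_lit 164331) (nat_lit 230) .nil)))) .nil)) 
(.lf (nat_lit 133678) (.g (nat_lit 1868) (.e (nat_lit 16435) (nat_lit 9) (.e (nat_lit 426546) (nat_lit 30) (.e (nat_lit 360482) (nat_lit 15) (.e (nat_lit 647200) (nat_lit 12) (.e (nat_lit 57508) (nat_lit 39) (.e (nat_lit 647199) (nat_lit 11) .nil)))))) (.g (nat_lit 4) .nil .nil)))) (.nd (nat_lit 5) 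
(.lf (nat_lit 133662) (.g (nat_lit 2701) (.e (nat_lit 16435) (nat_lit 9) (.e (nat_lit 426448) (nat_lit 20) (.e (nat_lit 114711) (nat_lit 21) (.e (nat_lit 57847) (nat_lit 252) (.e (nat_lit 57432) (nat_lit 16) (.e (nat_lit 376576) (nat_lit 10) .nil)))))) (.g (nat_lit 4) .nil .nil))) 
(.lf (nat_lit 133694) (.g (nat_lit 1705) (.e (nat_lit 16435) (nat_lit 9) (.e (nat_lit 426555) (nat_lit 32) (.e (nat_lit 376857) (nat_lit 21) (.e (nat_lit 57851) (nat_lit 252) (.e (nat_lit 57354) (nat_lit 0) .nil))))) .nil))))))) (.nd (nat_lit 1) (.nd (nat_lit 2) (.nd (nat_lit 3) (.nd (nat_lit 4) (.nd (nat_lit 5) 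
(.lf (nat_lit 133633) (.g (nat_lit 5908) (.e (nat_lit 16435) (nat_lit 9) (.e (nat_lit 426436) (nat_lit 18) (.e (nat_lit 98335) (nat_lit 18) (.e (nat_lit 164305) (nat_lit 226) (.e (nat_lit 2630) (nat_lit 164) (.e (nat_lit 172135) (nat_lit 15) (.e (nat_lit 7936) (nat_lit 345) .nil))))))) (.g (nat_lit 5) .nil .nil))) 
(.lf (nat_lit 133665) (.g (nat_lit 2913) (.e (nat_lit 16435) (nat_lit 9) (.e (nat_lit 426482) (nat_lit 27) (.e (nat_lit 336060) (nat_lit 7) (.e (nat_lit 319534) (nat_lit 16) (.e (nat_lit 286728) (nat_lit 0) (.e (nat_lit 2391) (nat_lit 156) (.e (nat_lit 819237) (nat_lit 11) .nil))))))) (.g (nat_lit 4) .nil .nil)))) (.nd (nat_lit 5) 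
(.lf (nat_lit 133649) (.g (nat_lit 4614) (.e (nat_lit 16435) (nat_lit 9) (.e (nat_lit 426436) (nat_lit 18) (.e (nat_lit 98335) (nat_lit 18) (.e (nat_lit 164332) (nat_lit 230) (.e (nat_lit 163936) (nat_lit 18) (.e (nat_lit 483072) (nat_lit 10) .nil)))))) (.g (nat_lit 4) .nil .nil))) 
(.lf (nat_lit 133681) (.g (nat_lit 423) (.e (nat_lit 16435) (nat_lit 9) (.e (nat_lit 426555) (nat_lit 32) (.e (nat_lit 376857) (nat_lit 21) .nil))) .nil)))) (.nd (nat_lit 4) (.nd (nat_lit 5) 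
(.lf (nat_lit 133641) (.g (nat_lit 5377) (.e (nat_lit 16435) (nat_lit 9) (.e (nat_lit 426436) (nat_lit 18) (.e (nat_lit 98335) (nat_lit 18) (.e (nat_lit 164327) (nat_lit 230) (.e (nat_lit 163939) (nat_lit 18) .nil))))) .nil)) 
(.lf (nat_lit 133673) (.g (nat_lit 2296) (.e (nat_lit 16435) (nat_lit 9) (.e (nat_lit 426491) (nat_lit 27) (.e (nat_lit 336409) (nat_lit 27) (.e (nat_lit 426107) (nat_lit 1) (.e (nat_lit 164326) (nat_lit 230) (.e (nat_lit 163868) (nat_lit 2) (.e (nat_lit 196655) (nat_lit 11) .nil))))))) (.g (nat_lit 5) .nil .nil)))) (.nd (nat_lit 5) 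
(.lf (nat_lit 133657) (.g (nat_lit 775) (.e (nat_lit 16435) (nat_lit 9) (.e (nat_lit 426448) (nat_lit 20) (.e (nat_lit 114710) (nat_lit 21) .nil))) .nil)) 
(.lf (nat_lit 133689) (.g (nat_lit 2333) (.e (nat_lit 16435) (nat_lit 9) (.e (nat_lit 426555) (nat_lit 32) (.e (nat_lit 376857) (nat_lit 21) (.e (nat_lit 57848) (nat_lit 252) (.e (nat_lit 57386) (nat_lit 4) (.e (nat_lit 106535) (nat_lit 11) .nil)))))) (.g (nat_lit 4) .nil .nil)))))) (.nd (nat_lit 3) (.nd (nat_lit 4) (.nd (nat_lit 5) 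
(.lf (nat_lit 133637) (.g (nat_lit 4947) (.e (nat_lit 16435) (nat_lit 9) (.e (nat_lit 426436) (nat_lit 18) (.e (nat_lit 98335) (nat_lit 18) (.e (nat_lit 164325) (nat_lit 230) (.e (nat_lit 163938) (nat_lit 18) .nil))))) .nil)) 
(.lf (nat_lit 133669) (.g (nat_lit 2313) (.e (nat_lit 16435) (nat_lit 9) (.e (nat_lit 426491) (nat_lit 27) (.e (nat_lit 336405) (nat_lit 27) (.e (nat_lit 426107) (nat_lit 1) (.e (nat_lit 164326) (nat_lit 230) (.e (nat_lit 163868) (nat_lit 2) (.e (nat_lit 196655) (nat_lit 11) .nil))))))) (.g (nat_lit 5) .nil .nil)))) (.nd (nat_lit 5) 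
(.lf (nat_lit 133653) (.g (nat_lit 1471) (.e (nat_lit 16435) (nat_lit 9) (.e (nat_lit 426446) (nat_lit 20) (.e (nat_lit 114711) (nat_lit 21) (.e (nat_lit 57847) (nat_lit 252) (.e (nat_lit 57432) (nat_lit 16) (.e (nat_lit 376576) (nat_lit 10) .nil)))))) (.g (nat_lit 4) .nil .nil))) 
(.lf (nat_lit 133685) (.g (nat_lit 2014) (.e (nat_lit 16435) (nat_lit 9) (.e (nat_lit 426555) (nat_lit 32) (.e (nat_lit 376857) (nat_lit 21) (.e (nat_lit 57847) (nat_lit 252) (.e (nat_lit 57384) (nat_lit 4) .nil))))) .nil)))) (.nd (nat_lit 4) (.nd (nat_lit 5) 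
(.lf (nat_lit 133645) (.g (nat_lit 5652) (.e (nat_lit 16435) (nat_lit 9) (.e (nat_lit 426436) (nat_lit 18) (.e (nat_lit 98335) (nat_lit 18) (.e (nat_lit 164330) (nat_lit 230) (.e (nat_lit 163938) (nat_lit 18) (.e (nat_lit 483072) (nat_lit 10) .nil)))))) (.g (nat_lit 5) .nil .nil))) 
(.lf (nat_lit 133677) (.g (nat_lit 2833) (.e (nat_lit 16435) (nat_lit 9) (.e (nat_lit 426544) (nat_lit 30) (.e (nat_lit 360482) (nat_lit 15) (.e (nat_lit 647200) (nat_lit 12) (.e (nat_lit 57508) (nat_lit 39) (.e (nat_lit 647199) (nat_lit 11) .nil)))))) (.g (nat_lit 6) .nil .nil)))) (.nd (nat_lit 5) 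
(.lf (nat_lit 133661) (.g (nat_lit 2608) (.e (nat_lit 16435) (nat_lit 9) (.e (nat_lit 426448) (nat_lit 20) (.e (nat_lit 114711) (nat_lit 21) (.e (nat_lit 57847) (nat_lit 252) (.e (nat_lit 57430) (nat_lit 16) (.e (nat_lit 376576) (nat_lit 10) .nil)))))) (.g (nat_lit 4) .nil .nil))) 
(.lf (nat_lit 133693) (.g (nat_lit 3212) (.e (nat_lit 16435) (nat_lit 9) (.e (nat_lit 426555) (nat_lit 32) (.e (nat_lit 376857) (nat_lit 21) (.e (nat_lit 57849) (nat_lit 252) (.e (nat_lit 57386) (nat_lit 4) (.e (nat_lit 106536) (nat_lit 11) .nil)))))) (.g (nat_lit 0) .nil .nil))))))) (.nd (nat_lit 2) (.nd (nat_lit 3) (.nd (nat_lit 4) (.nd (nat_lit 5) 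
(.lf (nat_lit 133635) (.g (nat_lit 3877) (.e (nat_lit 16435) (nat_lit 9) (.e (nat_lit 426436) (nat_lit 18) (.e (nat_lit 98335) (nat_lit 18) (.e (nat_lit 164325) (nat_lit 230) .nil)))) .nil)) 
(.lf (nat_lit 133667) (.g (nat_lit 2947) (.e (nat_lit 16435) (nat_lit 9) (.e (nat_lit 426489) (nat_lit 27) (.e (nat_lit 336407) (nat_lit 27) (.e (nat_lit 426107) (nat_lit 1) (.e (nat_lit 164326) (nat_lit 230) (.e (nat_lit 163868) (nat_lit 2) (.e (nat_lit 196655) (nat_lit 11) .nil))))))) (.g (nat_lit 6) .nil .nil)))) (.nd (nat_lit 5) 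
(.lf (nat_lit 133651) (.g (nat_lit 5091) (.e (nat_lit 16435) (nat_lit 9) (.e (nat_lit 426436) (nat_lit 18) (.e (nat_lit 98335) (nat_lit 18) (.e (nat_lit 164332) (nat_lit 230) (.e (nat_lit 163938) (nat_lit 18) (.e (nat_lit 483072) (nat_lit 10) .nil)))))) (.g (nat_lit 5) .nil .nil))) 
(.lf (nat_lit 133683) (.g (nat_lit 2613) (.e (nat_lit 16435) (nat_lit 9) (.e (nat_lit 426555) (nat_lit 32) (.e (nat_lit 376857) (nat_lit 21) (.e (nat_lit 57844) (nat_lit 252) (.e (nat_lit 57382) (nat_lit 4) (.e (nat_lit 106534) (nat_lit 11) .nil)))))) (.g (nat_lit 5) .nil .nil))))) (.nd (nat_lit 4) (.nd (nat_lit 5) 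
(.lf (nat_lit 133643) (.g (nat_lit 3945) (.e (nat_lit 16435) (nat_lit 9) (.e (nat_lit 426436) (nat_lit 18) (.e (nat_lit 98335) (nat_lit 18) (.e (nat_lit 164330) (nat_lit 230) .nil)))) .nil)) 
(.lf (nat_lit 133675) (.g (nat_lit 212) (.e (nat_lit 16435) (nat_lit 9) (.e (nat_lit 426533) (nat_lit 28) (.e (nat_lit 352000) (nat_lit 4) .nil))) .nil))) (.nd (nat_lit 5) 
(.lf (nat_lit 133659) (.g (nat_lit 2608) (.e (nat_lit 16435) (nat_lit 9) (.e (nat_lit 426448) (nat_lit 20) (.e (nat_lit 114710) (nat_lit 21) (.e (nat_lit 57847) (nat_lit 252) (.e (nat_lit 57432) (nat_lit 16) (.e (nat_lit 376576) (nat_lit 10) .nil)))))) (.g (nat_lit 5) .nil .nil))) 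
(.lf (nat_lit 133691) (.g (nat_lit 2876) (.e (nat_lit 16435) (nat_lit 9) (.e (nat_lit 426555) (nat_lit 32) (.e (nat_lit 376857) (nat_lit 21) (.e (nat_lit 57849) (nat_lit 252) (.e (nat_lit 57385) (nat_lit 4) (.e (nat_lit 106536) (nat_lit 11) .nil)))))) (.g (nat_lit 0) .nil .nil)))))) (.nd (nat_lit 3) (.nd (nat_lit 4) (.nd (nat_lit 5) 
(.lf (nat_lit 133639) (.g (nat_lit 4698) (.e (nat_lit 16435) (nat_lit 9) (.e (nat_lit 426436) (nat_lit 18) (.e (nat_lit 98335) (nat_lit 18) (.e (nat_lit 164326) (nat_lit 230) .nil)))) .nil)) 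
(.lf (nat_lit 133671) (.g (nat_lit 3151) (.e (nat_lit 16435) (nat_lit 9) (.e (nat_lit 426491) (nat_lit 27) (.e (nat_lit 336407) (nat_lit 27) (.e (nat_lit 426107) (nat_lit 1) (.e (nat_lit 164326) (nat_lit 230) (.e (nat_lit 163868) (nat_lit 2) (.e (nat_lit 196655) (nat_lit 11) .nil))))))) (.g (nat_lit 7) .nil .nil)))) (.nd (nat_lit 5) 
(.lf (nat_lit 133655) (.g (nat_lit 1423) (.e (nat_lit 16435) (nat_lit 9) (.e (nat_lit 426448) (nat_lit 20) (.e (nat_lit 122624) (nat_lit 5) (.e (nat_lit 221192) (nat_lit 11) (.e (nat_lit 335876) (nat_lit 0) (.e (nat_lit 7936) (nat_lit 345) .nil)))))) (.g (nat_lit 5) .nil .nil))) 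
(.lf (nat_lit 133687) (.g (nat_lit 3136) (.e (nat_lit 16435) (nat_lit 9) (.e (nat_lit 426555) (nat_lit 32) (.e (nat_lit 376857) (nat_lit 21) (.e (nat_lit 57847) (nat_lit 252) (.e (nat_lit 57386) (nat_lit 4) (.e (nat_lit 106536) (nat_lit 11) .nil)))))) (.g (nat_lit 0) .nil .nil))))) (.nd (nat_lit 4) (.nd (nat_lit 5) 
(.lf (nat_lit 133647) (.g (nat_lit 3763) (.e (nat_lit 16435) (nat_lit 9) (.e (nat_lit 426436) (nat_lit 18) (.e (nat_lit 98335) (nat_lit 18) (.e (nat_lit 164332) (nat_lit 230) .nil)))) .nil)) 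
(.lf (nat_lit 133679) (.g (nat_lit 176) (.e (nat_lit 16435) (nat_lit 9) (.e (nat_lit 426550) (nat_lit 31) (.e (nat_lit 368656) (nat_lit 14) .nil))) .nil))) (.nd (nat_lit 5) 
(.lf (nat_lit 133663) (.g (nat_lit 2675) (.e (nat_lit 16435) (nat_lit 9) (.e (nat_lit 426448) (nat_lit 20) (.e (nat_lit 114711) (nat_lit 21) (.e (nat_lit 57847) (nat_lit 252) (.e (nat_lit 57433) (nat_lit 16) .nil))))) .nil)) 
(.lf (nat_lit 133695) (.g (nat_lit 1130) (.e (nat_lit 16435) (nat_lit 9) (.e (nat_lit 426555) (nat_lit 32) (.e (nat_lit 376857) (nat_lit 21) (.e (nat_lit 57852) (nat_lit 252) .nil)))) .nil))))))))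

noncomputable def tv1782 : DT := (.nd (nat_lit 0) (.nd (nat_lit 1) (.nd (nat_lit 2) (.nd (nat_lit 3) (.nd (nat_lit 4) (.nd (nat_lit 5) 
(.lf (nat_lit 133696) (.g (nat_lit 2824) (.e (nat_lit 16435) (nat_lit 9) (.e (nat_lit 426555) (nat_lit 32) (.e (nat_lit 376857) (nat_lit 21) (.e (nat_lit 57852) (nat_lit 252) (.e (nat_lit 57382) (nat_lit 4) (.e (nat_lit 106534) (nat_lit 11) .nil)))))) (.g (nat_lit 5) .nil .nil))) 
(.lf (nat_lit 133728) (.g (nat_lit 2835) (.e (nat_lit 16435) (nat_lit 9) (.e (nat_lit 426555) (nat_lit 32) (.e (nat_lit 376860) (nat_lit 21) (.e (nat_lit 57853) (nat_lit 252) (.e (nat_lit 57382) (nat_lit 4) (.e (nat_lit 106534) (nat_lit 11) .nil)))))) (.g (nat_lit 5) .nil .nil)))) (.nd (nat_lit 5) 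
(.lf (nat_lit 133712) (.g (nat_lit 1901) (.e (nat_lit 16435) (nat_lit 9) (.e (nat_lit 426555) (nat_lit 32) (.e (nat_lit 376859) (nat_lit 21) (.e (nat_lit 57847) (nat_lit 252) (.e (nat_lit 57384) (nat_lit 4) .nil))))) .nil)) 
(.lf (nat_lit 133744) (.g (nat_lit 2035) (.e (nat_lit 16435) (nat_lit 9) (.e (nat_lit 426562) (nat_lit 33) (.e (nat_lit 385041) (nat_lit 19) (.e (nat_lit 164292) (nat_lit 224) (.e (nat_lit 164092) (nat_lit 82) (.e (nat_lit 500046) (nat_lit 16) .nil)))))) (.g (nat_lit 0) .nil .nil))))) (.nd (nat_lit 4) (.nd (nat_lit 5) 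
(.lf (nat_lit 133704) (.g (nat_lit 3494) (.e (nat_lit 16435) (nat_lit 9) (.e (nat_lit 426555) (nat_lit 32) (.e (nat_lit 376857) (nat_lit 21) (.e (nat_lit 57854) (nat_lit 252) (.e (nat_lit 57382) (nat_lit 4) (.e (nat_lit 106534) (nat_lit 11) .nil)))))) (.g (nat_lit 0) .nil .nil))) 
(.lf (nat_lit 133736) (.g (nat_lit 3370) (.e (nat_lit 16435) (nat_lit 9) (.e (nat_lit 426555) (nat_lit 32) (.e (nat_lit 376860) (nat_lit 21) (.e (nat_lit 57854) (nat_lit 252) (.e (nat_lit 57384) (nat_lit 4) (.e (nat_lit 106536) (nat_lit 11) .nil)))))) (.g (nat_lit 0) .nil .nil)))) (.nd (nat_lit 5) 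
(.lf (nat_lit 133720) (.g (nat_lit 3165) (.e (nat_lit 16435) (nat_lit 9) (.e (nat_lit 426555) (nat_lit 32) (.e (nat_lit 376859) (nat_lit 21) (.e (nat_lit 57849) (nat_lit 252) (.e (nat_lit 57386) (nat_lit 4) (.e (nat_lit 106536) (nat_lit 11) .nil)))))) (.g (nat_lit 0) .nil .nil))) 
(.lf (nat_lit 133752) (.g (nat_lit 3398) (.e (nat_lit 16435) (nat_lit 9) (.e (nat_lit 426566) (nat_lit 34) (.e (nat_lit 393251) (nat_lit 18) (.e (nat_lit 164325) (nat_lit 230) (.e (nat_lit 163867) (nat_lit 2) (.e (nat_lit 196655) (nat_lit 11) .nil)))))) (.g (nat_lit 6) .nil .nil)))))) (.nd (nat_lit 3) (.nd (nat_lit 4) (.nd (nat_lit 5) 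
(.lf (nat_lit 133700) (.g (nat_lit 2358) (.e (nat_lit 16435) (nat_lit 9) (.e (nat_lit 426555) (nat_lit 32) (.e (nat_lit 376857) (nat_lit 21) (.e (nat_lit 57853) (nat_lit 252) (.e (nat_lit 57382) (nat_lit 4) (.e (nat_lit 106536) (nat_lit 11) .nil)))))) (.g (nat_lit 4) .nil .nil))) 
(.lf (nat_lit 133732) (.g (nat_lit 2410) (.e (nat_lit 16435) (nat_lit 9) (.e (nat_lit 426555) (nat_lit 32) (.e (nat_lit 376860) (nat_lit 21) (.e (nat_lit 57854) (nat_lit 252) (.e (nat_lit 57356) (nat_lit 0) (.e (nat_lit 2155) (nat_lit 142) (.e (nat_lit 704736) (nat_lit 11) .nil))))))) (.g (nat_lit 4) .nil .nil)))) (.nd (nat_lit 5) 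
(.lf (nat_lit 133716) (.g (nat_lit 2295) (.e (nat_lit 16435) (nat_lit 9) (.e (nat_lit 426555) (nat_lit 32) (.e (nat_lit 376859) (nat_lit 21) (.e (nat_lit 57848) (nat_lit 252) (.e (nat_lit 57386) (nat_lit 4) (.e (nat_lit 106535) (nat_lit 11) .nil)))))) (.g (nat_lit 4) .nil .nil))) 
(.lf (nat_lit 133748) (.g (nat_lit 2778) (.e (nat_lit 16435) (nat_lit 9) (.e (nat_lit 426564) (nat_lit 34) (.e (nat_lit 393253) (nat_lit 18) (.e (nat_lit 164326) (nat_lit 230) (.e (nat_lit 163871) (nat_lit 2) (.e (nat_lit 196655) (nat_lit 11) .nil)))))) (.g (nat_lit 6) .nil .nil))))) (.nd (nat_lit 4) (.nd (nat_lit 5) 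
(.lf (nat_lit 133708) (.g (nat_lit 1980) (.e (nat_lit 16435) (nat_lit 9) (.e (nat_lit 426555) (nat_lit 32) (.e (nat_lit 376857) (nat_lit 21) (.e (nat_lit 57854) (nat_lit 252) (.e (nat_lit 57397) (nat_lit 9) (.e (nat_lit 155669) (nat_lit 11) .nil)))))) (.g (nat_lit 4) .nil .nil))) 
(.lf (nat_lit 133740) (.g (nat_lit 1851) (.e (nat_lit 16435) (nat_lit 9) (.e (nat_lit 426562) (nat_lit 33) (.e (nat_lit 385033) (nat_lit 16) (.e (nat_lit 2783) (nat_lit 179) (.e (nat_lit 294927) (nat_lit 2) (.e (nat_lit 98048) (nat_lit 2) .nil)))))) (.g (nat_lit 5) .nil .nil)))) (.nd (nat_lit 5) 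
(.lf (nat_lit 133724) (.g (nat_lit 1333) (.e (nat_lit 16435) (nat_lit 9) (.e (nat_lit 426555) (nat_lit 32) (.e (nat_lit 376860) (nat_lit 21) (.e (nat_lit 57852) (nat_lit 252) .nil)))) .nil)) 
(.lf (nat_lit 133756) (.g (nat_lit 2692) (.e (nat_lit 16435) (nat_lit 9) (.e (nat_lit 426566) (nat_lit 34) (.e (nat_lit 393251) (nat_lit 18) (.e (nat_lit 164325) (nat_lit 230) (.e (nat_lit 163870) (nat_lit 2) (.e (nat_lit 196653) (nat_lit 11) .nil)))))) (.g (nat_lit 4) .nil .nil))))))) (.nd (nat_lit 2) (.nd (nat_lit 3) (.nd (nat_lit 4) (.nd (nat_lit 5) 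
(.lf (nat_lit 133698) (.g (nat_lit 2990) (.e (nat_lit 16435) (nat_lit 9) (.e (nat_lit 426555) (nat_lit 32) (.e (nat_lit 376857) (nat_lit 21) (.e (nat_lit 57852) (nat_lit 252) (.e (nat_lit 57384) (nat_lit 4) (.e (nat_lit 106536) (nat_lit 11) .nil)))))) (.g (nat_lit 0) .nil .nil))) 
(.lf (nat_lit 133730) (.g (nat_lit 1189) (.e (nat_lit 16435) (nat_lit 9) (.e (nat_lit 426555) (nat_lit 32) (.e (nat_lit 376860) (nat_lit 21) (.e (nat_lit 57854) (nat_lit 252) .nil)))) .nil))) (.nd (nat_lit 5) 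
(.lf (nat_lit 133714) (.g (nat_lit 2955) (.e (nat_lit 16435) (nat_lit 9) (.e (nat_lit 426555) (nat_lit 32) (.e (nat_lit 376859) (nat_lit 21) (.e (nat_lit 57847) (nat_lit 252) (.e (nat_lit 57386) (nat_lit 4) (.e (nat_lit 106536) (nat_lit 11) .nil)))))) (.g (nat_lit 0) .nil .nil))) 
(.lf (nat_lit 133746) (.g (nat_lit 2029) (.e (nat_lit 16435) (nat_lit 9) (.e (nat_lit 426562) (nat_lit 33) (.e (nat_lit 385041) (nat_lit 19) (.e (nat_lit 164294) (nat_lit 224) (.e (nat_lit 164092) (nat_lit 82) (.e (nat_lit 500046) (nat_lit 16) .nil)))))) (.g (nat_lit 0) .nil .nil))))) (.nd (nat_lit 4) (.nd (nat_lit 5) 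
(.lf (nat_lit 133706) (.g (nat_lit 2088) (.e (nat_lit 16435) (nat_lit 9) (.e (nat_lit 426555) (nat_lit 32) (.e (nat_lit 376857) (nat_lit 21) (.e (nat_lit 57854) (nat_lit 252) (.e (nat_lit 57384) (nat_lit 4) (.e (nat_lit 106535) (nat_lit 11) .nil)))))) (.g (nat_lit 4) .nil .nil))) 
(.lf (nat_lit 133738) (.g (nat_lit 1870) (.e (nat_lit 16435) (nat_lit 9) (.e (nat_lit 426555) (nat_lit 32) (.e (nat_lit 376860) (nat_lit 21) (.e (nat_lit 57854) (nat_lit 252) (.e (nat_lit 57398) (nat_lit 9) .nil))))) .nil))) (.nd (nat_lit 5) 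
(.lf (nat_lit 133722) (.g (nat_lit 2510) (.e (nat_lit 16435) (nat_lit 9) (.e (nat_lit 426555) (nat_lit 32) (.e (nat_lit 376860) (nat_lit 21) (.e (nat_lit 57844) (nat_lit 252) (.e (nat_lit 57382) (nat_lit 4) (.e (nat_lit 106534) (nat_lit 11) .nil)))))) (.g (nat_lit 4) .nil .nil))) 
(.lf (nat_lit 133754) (.g (nat_lit 3926) (.e (nat_lit 16435) (nat_lit 9) (.e (nat_lit 426566) (nat_lit 34) (.e (nat_lit 393251) (nat_lit 18) (.e (nat_lit 164325) (nat_lit 230) (.e (nat_lit 163869) (nat_lit 2) (.e (nat_lit 196655) (nat_lit 11) .nil)))))) (.g (nat_lit 6) .nil .nil)))))) (.nd (nat_lit 3) (.nd (nat_lit 4) (.nd (nat_lit 5) 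
(.lf (nat_lit 133702) (.g (nat_lit 2109) (.e (nat_lit 16435) (nat_lit 9) (.e (nat_lit 426555) (nat_lit 32) (.e (nat_lit 376857) (nat_lit 21) (.e (nat_lit 57854) (nat_lit 252) (.e (nat_lit 57356) (nat_lit 0) .nil))))) .nil)) 
(.lf (nat_lit 133734) (.g (nat_lit 3392) (.e (nat_lit 16435) (nat_lit 9) (.e (nat_lit 426555) (nat_lit 32) (.e (nat_lit 376860) (nat_lit 21) (.e (nat_lit 57854) (nat_lit 252) (.e (nat_lit 57384) (nat_lit 4) (.e (nat_lit 106534) (nat_lit 11) .nil)))))) (.g (nat_lit 6) .nil .nil)))) (.nd (nat_lit 5) 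
(.lf (nat_lit 133718) (.g (nat_lit 2821) (.e (nat_lit 16435) (nat_lit 9) (.e (nat_lit 426555) (nat_lit 32) (.e (nat_lit 376859) (nat_lit 21) (.e (nat_lit 57849) (nat_lit 252) (.e (nat_lit 57385) (nat_lit 4) (.e (nat_lit 106536) (nat_lit 11) .nil)))))) (.g (nat_lit 0) .nil .nil))) 
(.lf (nat_lit 133750) (.g (nat_lit 3460) (.e (nat_lit 16435) (nat_lit 9) (.e (nat_lit 426566) (nat_lit 34) (.e (nat_lit 393251) (nat_lit 18) (.e (nat_lit 164322) (nat_lit 230) (.e (nat_lit 163867) (nat_lit 2) (.e (nat_lit 196655) (nat_lit 11) .nil)))))) (.g (nat_lit 4) .nil .nil))))) (.nd (nat_lit 4) (.nd (nat_lit 5) 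
(.lf (nat_lit 133710) (.g (nat_lit 929) (.e (nat_lit 16435) (nat_lit 9) (.e (nat_lit 426555) (nat_lit 32) (.e (nat_lit 376858) (nat_lit 21) .nil))) .nil)) 
(.lf (nat_lit 133742) (.g (nat_lit 2029) (.e (nat_lit 16435) (nat_lit 9) (.e (nat_lit 426562) (nat_lit 33) (.e (nat_lit 385041) (nat_lit 19) (.e (nat_lit 164288) (nat_lit 224) (.e (nat_lit 164092) (nat_lit 82) (.e (nat_lit 500046) (nat_lit 16) .nil)))))) (.g (nat_lit 0) .nil .nil)))) (.nd (nat_lit 5) 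
(.lf (nat_lit 133726) (.g (nat_lit 2763) (.e (nat_lit 16435) (nat_lit 9) (.e (nat_lit 426555) (nat_lit 32) (.e (nat_lit 376860) (nat_lit 21) (.e (nat_lit 57852) (nat_lit 252) (.e (nat_lit 57382) (nat_lit 4) (.e (nat_lit 106536) (nat_lit 11) .nil)))))) (.g (nat_lit 4) .nil .nil))) 
(.lf (nat_lit 133758) (.g (nat_lit 2650) (.e (nat_lit 16435) (nat_lit 9) (.e (nat_lit 426566) (nat_lit 34) (.e (nat_lit 393251) (nat_lit 18) (.e (nat_lit 164325) (nat_lit 230) (.e (nat_lit 163870) (nat_lit 2) (.e (nat_lit 196656) (nat_lit 11) .nil)))))) (.g (nat_lit 4) .nil .nil)))))))) (.nd (nat_lit 1) (.nd (nat_lit 2) (.nd (nat_lit 3) (.nd (nat_lit 4) (.nd (nat_lit 5) 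
(.lf (nat_lit 133697) (.g (nat_lit 2473) (.e (nat_lit 16435) (nat_lit 9) (.e (nat_lit 426555) (nat_lit 32) (.e (nat_lit 376857) (nat_lit 21) (.e (nat_lit 57852) (nat_lit 252) (.e (nat_lit 57382) (nat_lit 4) (.e (nat_lit 106536) (nat_lit 11) .nil)))))) (.g (nat_lit 4) .nil .nil))) 
(.lf (nat_lit 133729) (.g (nat_lit 2424) (.e (nat_lit 16435) (nat_lit 9) (.e (nat_lit 426555) (nat_lit 32) (.e (nat_lit 376860) (nat_lit 21) (.e (nat_lit 57853) (nat_lit 252) (.e (nat_lit 57382) (nat_lit 4) (.e (nat_lit 106536) (nat_lit 11) .nil)))))) (.g (nat_lit 4) .nil .nil)))) (.nd (nat_lit 5) 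
(.lf (nat_lit 133713) (.g (nat_lit 2741) (.e (nat_lit 16435) (nat_lit 9) (.e (nat_lit 426555) (nat_lit 32) (.e (nat_lit 376859) (nat_lit 21) (.e (nat_lit 57847) (nat_lit 252) (.e (nat_lit 57385) (nat_lit 4) (.e (nat_lit 106536) (nat_lit 11) .nil)))))) (.g (nat_lit 0) .nil .nil))) 
(.lf (nat_lit 133745) (.g (nat_lit 1981) (.e (nat_lit 16435) (nat_lit 9) (.e (nat_lit 426562) (nat_lit 33) (.e (nat_lit 385041) (nat_lit 19) (.e (nat_lit 164293) (nat_lit 224) (.e (nat_lit 164092) (nat_lit 82) (.e (nat_lit 500046) (nat_lit 16) .nil)))))) (.g (nat_lit 0) .nil .nil))))) (.nd (nat_lit 4) (.nd (nat_lit 5) 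
(.lf (nat_lit 133705) (.g (nat_lit 3262) (.e (nat_lit 16435) (nat_lit 9) (.e (nat_lit 426555) (nat_lit 32) (.e (nat_lit 376857) (nat_lit 21) (.e (nat_lit 57854) (nat_lit 252) (.e (nat_lit 57384) (nat_lit 4) (.e (nat_lit 106534) (nat_lit 11) .nil)))))) (.g (nat_lit 6) .nil .nil))) 
(.lf (nat_lit 133737) (.g (nat_lit 2048) (.e (nat_lit 16435) (nat_lit 9) (.e (nat_lit 426555) (nat_lit 32) (.e (nat_lit 376860) (nat_lit 21) (.e (nat_lit 57854) (nat_lit 252) (.e (nat_lit 57397) (nat_lit 9) (.e (nat_lit 155669) (nat_lit 11) .nil)))))) (.g (nat_lit 4) .nil .nil)))) (.nd (nat_lit 5) 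
(.lf (nat_lit 133721) (.g (nat_lit 1365) (.e (nat_lit 16435) (nat_lit 9) (.e (nat_lit 426555) (nat_lit 32) (.e (nat_lit 376860) (nat_lit 21) (.e (nat_lit 57830) (nat_lit 250) .nil)))) .nil)) 
(.lf (nat_lit 133753) (.g (nat_lit 3818) (.e (nat_lit 16435) (nat_lit 9) (.e (nat_lit 426566) (nat_lit 34) (.e (nat_lit 393251) (nat_lit 18) (.e (nat_lit 164325) (nat_lit 230) (.e (nat_lit 163868) (nat_lit 2) (.e (nat_lit 196655) (nat_lit 11) .nil)))))) (.g (nat_lit 0) .nil .nil)))))) (.nd (nat_lit 3) (.nd (nat_lit 4) (.nd (nat_lit 5) 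
(.lf (nat_lit 133701) (.g (nat_lit 1080) (.e (nat_lit 16435) (nat_lit 9) (.e (nat_lit 426555) (nat_lit 32) (.e (nat_lit 376857) (nat_lit 21) (.e (nat_lit 57854) (nat_lit 252) .nil)))) .nil)) 
(.lf (nat_lit 133733) (.g (nat_lit 3600) (.e (nat_lit 16435) (nat_lit 9) (.e (nat_lit 426555) (nat_lit 32) (.e (nat_lit 376860) (nat_lit 21) (.e (nat_lit 57854) (nat_lit 252) (.e (nat_lit 57382) (nat_lit 4) (.e (nat_lit 106534) (nat_lit 11) .nil)))))) (.g (nat_lit 0) .nil .nil)))) (.nd (nat_lit 5) 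
(.lf (nat_lit 133717) (.g (nat_lit 2793) (.e (nat_lit 16435) (nat_lit 9) (.e (nat_lit 426555) (nat_lit 32) (.e (nat_lit 376859) (nat_lit 21) (.e (nat_lit 57848) (nat_lit 252) (.e (nat_lit 57386) (nat_lit 4) (.e (nat_lit 106536) (nat_lit 11) .nil)))))) (.g (nat_lit 6) .nil .nil))) 
(.lf (nat_lit 133749) (.g (nat_lit 2047) (.e (nat_lit 16435) (nat_lit 9) (.e (nat_lit 426564) (nat_lit 34) (.e (nat_lit 393254) (nat_lit 18) (.e (nat_lit 164332) (nat_lit 230) (.e (nat_lit 163869) (nat_lit 2) (.e (nat_lit 196655) (nat_lit 11) .nil)))))) (.g (nat_lit 5) .nil .nil))))) (.nd (nat_lit 4) (.nd (nat_lit 5) 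
(.lf (nat_lit 133709) (.g (nat_lit 1829) (.e (nat_lit 16435) (nat_lit 9) (.e (nat_lit 426555) (nat_lit 32) (.e (nat_lit 376857) (nat_lit 21) (.e (nat_lit 57854) (nat_lit 252) (.e (nat_lit 57398) (nat_lit 9) .nil))))) .nil)) 
(.lf (nat_lit 133741) (.g (nat_lit 2035) (.e (nat_lit 16435) (nat_lit 9) (.e (nat_lit 426562) (nat_lit 33) (.e (nat_lit 385041) (nat_lit 19) (.e (nat_lit 164287) (nat_lit 224) (.e (nat_lit 164092) (nat_lit 82) (.e (nat_lit 500046) (nat_lit 16) .nil)))))) (.g (nat_lit 0) .nil .nil)))) (.nd (nat_lit 5) 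
(.lf (nat_lit 133725) (.g (nat_lit 3129) (.e (nat_lit 16435) (nat_lit 9) (.e (nat_lit 426555) (nat_lit 32) (.e (nat_lit 376860) (nat_lit 21) (.e (nat_lit 57852) (nat_lit 252) (.e (nat_lit 57382) (nat_lit 4) (.e (nat_lit 106534) (nat_lit 11) .nil)))))) (.g (nat_lit 5) .nil .nil))) 
(.lf (nat_lit 133757) (.g (nat_lit 2155) (.e (nat_lit 16435) (nat_lit 9) (.e (nat_lit 426566) (nat_lit 34) (.e (nat_lit 393251) (nat_lit 18) (.e (nat_lit 164325) (nat_lit 230) (.e (nat_lit 163870) (nat_lit 2) (.e (nat_lit 196655) (nat_lit 11) .nil)))))) (.g (nat_lit 4) .nil .nil))))))) (.nd (nat_lit 2) (.nd (nat_lit 3) (.nd (nat_lit 4) (.nd (nat_lit 5) 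
(.lf (nat_lit 133699) (.g (nat_lit 2758) (.e (nat_lit 16435) (nat_lit 9) (.e (nat_lit 426555) (nat_lit 32) (.e (nat_lit 376857) (nat_lit 21) (.e (nat_lit 57853) (nat_lit 252) (.e (nat_lit 57382) (nat_lit 4) (.e (nat_lit 106534) (nat_lit 11) .nil)))))) (.g (nat_lit 5) .nil .nil))) 
(.lf (nat_lit 133731) (.g (nat_lit 1939) (.e (nat_lit 16435) (nat_lit 9) (.e (nat_lit 426555) (nat_lit 32) (.e (nat_lit 376860) (nat_lit 21) (.e (nat_lit 57854) (nat_lit 252) (.e (nat_lit 57354) (nat_lit 0) .nil))))) .nil))) (.nd (nat_lit 5) 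
(.lf (nat_lit 133715) (.g (nat_lit 2636) (.e (nat_lit 16435) (nat_lit 9) (.e (nat_lit 426555) (nat_lit 32) (.e (nat_lit 376859) (nat_lit 21) (.e (nat_lit 57848) (nat_lit 252) (.e (nat_lit 57385) (nat_lit 4) (.e (nat_lit 106536) (nat_lit 11) .nil)))))) (.g (nat_lit 6) .nil .nil))) 
(.lf (nat_lit 133747) (.g (nat_lit 2881) (.e (nat_lit 16435) (nat_lit 9) (.e (nat_lit 426564) (nat_lit 34) (.e (nat_lit 393253) (nat_lit 18) (.e (nat_lit 164326) (nat_lit 230) (.e (nat_lit 163868) (nat_lit 2) (.e (nat_lit 196655) (nat_lit 11) .nil)))))) (.g (nat_lit 6) .nil .nil))))) (.nd (nat_lit 4) (.nd (nat_lit 5) 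
(.lf (nat_lit 133707) (.g (nat_lit 3254) (.e (nat_lit 16435) (nat_lit 9) (.e (nat_lit 426555) (nat_lit 32) (.e (nat_lit 376857) (nat_lit 21) (.e (nat_lit 57854) (nat_lit 252) (.e (nat_lit 57384) (nat_lit 4) (.e (nat_lit 106536) (nat_lit 11) .nil)))))) (.g (nat_lit 0) .nil .nil))) 
(.lf (nat_lit 133739) (.g (nat_lit 1764) (.e (nat_lit 16435) (nat_lit 9) (.e (nat_lit 426562) (nat_lit 33) (.e (nat_lit 392960) (nat_lit 4) (.e (nat_lit 65568) (nat_lit 2) (.e (nat_lit 98048) (nat_lit 2) .nil))))) (.g (nat_lit 4) .nil .nil)))) (.nd (nat_lit 5) 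
(.lf (nat_lit 133723) (.g (nat_lit 1266) (.e (nat_lit 16435) (nat_lit 9) (.e (nat_lit 426555) (nat_lit 32) (.e (nat_lit 376860) (nat_lit 21) (.e (nat_lit 57851) (nat_lit 252) .nil)))) .nil)) 
(.lf (nat_lit 133755) (.g (nat_lit 3455) (.e (nat_lit 16435) (nat_lit 9) (.e (nat_lit 426566) (nat_lit 34) (.e (nat_lit 393251) (nat_lit 18) (.e (nat_lit 164325) (nat_lit 230) (.e (nat_lit 163869) (nat_lit 2) (.e (nat_lit 196656) (nat_lit 11) .nil)))))) (.g (nat_lit 5) .nil .nil)))))) (.nd (nat_lit 3) (.nd (nat_lit 4) (.nd (nat_lit 5) 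
(.lf (nat_lit 133703) (.g (nat_lit 2119) (.e (nat_lit 16435) (nat_lit 9) (.e (nat_lit 426555) (nat_lit 32) (.e (nat_lit 376857) (nat_lit 21) (.e (nat_lit 57854) (nat_lit 252) (.e (nat_lit 57356) (nat_lit 0) (.e (nat_lit 2155) (nat_lit 142) (.e (nat_lit 704736) (nat_lit 11) .nil))))))) (.g (nat_lit 4) .nil .nil))) 
(.lf (nat_lit 133735) (.g (nat_lit 2215) (.e (nat_lit 16435) (nat_lit 9) (.e (nat_lit 426555) (nat_lit 32) (.e (nat_lit 376860) (nat_lit 21) (.e (nat_lit 57854) (nat_lit 252) (.e (nat_lit 57384) (nat_lit 4) (.e (nat_lit 106535) (nat_lit 11) .nil)))))) (.g (nat_lit 4) .nil .nil)))) (.nd (nat_lit 5) 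
(.lf (nat_lit 133719) (.g (nat_lit 2759) (.e (nat_lit 16435) (nat_lit 9) (.e (nat_lit 426555) (nat_lit 32) (.e (nat_lit 376859) (nat_lit 21) (.e (nat_lit 57849) (nat_lit 252) (.e (nat_lit 57386) (nat_lit 4) (.e (nat_lit 106535) (nat_lit 11) .nil)))))) (.g (nat_lit 5) .nil .nil))) 
(.lf (nat_lit 133751) (.g (nat_lit 2203) (.e (nat_lit 16435) (nat_lit 9) (.e (nat_lit 426566) (nat_lit 34) (.e (nat_lit 393251) (nat_lit 18) (.e (nat_lit 164324) (nat_lit 230) .nil)))) .nil)))) (.nd (nat_lit 4) (.nd (nat_lit 5) 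
(.lf (nat_lit 133711) (.g (nat_lit 3144) (.e (nat_lit 16435) (nat_lit 9) (.e (nat_lit 426555) (nat_lit 32) (.e (nat_lit 376859) (nat_lit 21) (.e (nat_lit 57844) (nat_lit 252) (.e (nat_lit 57382) (nat_lit 4) (.e (nat_lit 106534) (nat_lit 11) .nil)))))) (.g (nat_lit 6) .nil .nil))) 
(.lf (nat_lit 133743) (.g (nat_lit 2016) (.e (nat_lit 16435) (nat_lit 9) (.e (nat_lit 426562) (nat_lit 33) (.e (nat_lit 385041) (nat_lit 19) (.e (nat_lit 164291) (nat_lit 224) (.e (nat_lit 164092) (nat_lit 82) (.e (nat_lit 500046) (nat_lit 16) .nil)))))) (.g (nat_lit 0) .nil .nil)))) (.nd (nat_lit 5) 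
(.lf (nat_lit 133727) (.g (nat_lit 3225) (.e (nat_lit 16435) (nat_lit 9) (.e (nat_lit 426555) (nat_lit 32) (.e (nat_lit 376860) (nat_lit 21) (.e (nat_lit 57852) (nat_lit 252) (.e (nat_lit 57384) (nat_lit 4) (.e (nat_lit 106536) (nat_lit 11) .nil)))))) (.g (nat_lit 0) .nil .nil))) 
(.lf (nat_lit 133759) (.g (nat_lit 3464) (.e (nat_lit 16435) (nat_lit 9) (.e (nat_lit 426566) (nat_lit 34) (.e (nat_lit 393251) (nat_lit 18) (.e (nat_lit 164325) (nat_lit 230) (.e (nat_lit 163871) (nat_lit 2) (.e (nat_lit 196653) (nat_lit 11) .nil)))))) (.g (nat_lit 6) .nil .nil)))))))))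

noncomputable def tv1783 : DT := (.nd (nat_lit 0) (.nd (nat_lit 1) (.nd (nat_lit 2) (.nd (nat_lit 3) (.nd (nat_lit 4) (.nd (nat_lit 5) 
(.lf (nat_lit 133760) (.g (nat_lit 3429) (.e (nat_lit 16435) (nat_lit 9) (.e (nat_lit 426566) (nat_lit 34) (.e (nat_lit 393251) (nat_lit 18) (.e (nat_lit 164325) (nat_lit 230) (.e (nat_lit 163871) (nat_lit 2) (.e (nat_lit 196655) (nat_lit 11) .nil)))))) (.g (nat_lit 0) .nil .nil))) 
(.lf (nat_lit 133792) (.g (nat_lit 2658) (.e (nat_lit 16435) (nat_lit 9) (.e (nat_lit 426566) (nat_lit 34) (.e (nat_lit 393253) (nat_lit 18) (.e (nat_lit 164327) (nat_lit 230) (.e (nat_lit 163868) (nat_lit 2) (.e (nat_lit 196653) (nat_lit 11) .nil)))))) (.g (nat_lit 5) .nil .nil)))) (.nd (nat_lit 5) 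
(.lf (nat_lit 133776) (.g (nat_lit 339) (.e (nat_lit 16435) (nat_lit 9) (.e (nat_lit 426566) (nat_lit 34) (.e (nat_lit 393253) (nat_lit 18) .nil))) .nil)) 
(.lf (nat_lit 133808) (.g (nat_lit 1508) (.e (nat_lit 16436) (nat_lit 9) (.e (nat_lit 426112) (nat_lit 1) (.e (nat_lit 164321) (nat_lit 229) (.e (nat_lit 122919) (nat_lit 15) (.e (nat_lit 360483) (nat_lit 15) (.e (nat_lit 647199) (nat_lit 11) .nil)))))) (.g (nat_lit 4) .nil .nil))))) (.nd (nat_lit 4) (.nd (nat_lit 5) 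
(.lf (nat_lit 133768) (.g (nat_lit 4382) (.e (nat_lit 16435) (nat_lit 9) (.e (nat_lit 426566) (nat_lit 34) (.e (nat_lit 393251) (nat_lit 18) (.e (nat_lit 164332) (nat_lit 230) (.e (nat_lit 163869) (nat_lit 2) (.e (nat_lit 196655) (nat_lit 11) .nil)))))) (.g (nat_lit 0) .nil .nil))) 
(.lf (nat_lit 133800) (.g (nat_lit 2309) (.e (nat_lit 16435) (nat_lit 9) (.e (nat_lit 426567) (nat_lit 34) (.e (nat_lit 393253) (nat_lit 18) (.e (nat_lit 164326) (nat_lit 230) (.e (nat_lit 163868) (nat_lit 2) (.e (nat_lit 196655) (nat_lit 11) .nil)))))) (.g (nat_lit 4) .nil .nil)))) (.nd (nat_lit 5) 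
(.lf (nat_lit 133784) (.g (nat_lit 3701) (.e (nat_lit 16435) (nat_lit 9) (.e (nat_lit 426566) (nat_lit 34) (.e (nat_lit 393253) (nat_lit 18) (.e (nat_lit 164325) (nat_lit 230) (.e (nat_lit 163869) (nat_lit 2) (.e (nat_lit 196655) (nat_lit 11) .nil)))))) (.g (nat_lit 6) .nil .nil))) 
(.lf (nat_lit 133816) (.g (nat_lit 2464) (.e (nat_lit 16436) (nat_lit 9) (.e (nat_lit 426131) (nat_lit 3) (.e (nat_lit 204880) (nat_lit 32) (.e (nat_lit 385096) (nat_lit 49) (.e (nat_lit 778476) (nat_lit 12) (.e (nat_lit 163950) (nat_lit 21) (.e (nat_lit 500048) (nat_lit 16) .nil))))))) (.g (nat_lit 4) .nil .nil)))))) (.nd (nat_lit 3) (.nd (nat_lit 4) (.nd (nat_lit 5) 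
(.lf (nat_lit 133764) (.g (nat_lit 3528) (.e (nat_lit 16435) (nat_lit 9) (.e (nat_lit 426566) (nat_lit 34) (.e (nat_lit 393251) (nat_lit 18) (.e (nat_lit 164327) (nat_lit 230) (.e (nat_lit 163871) (nat_lit 2) (.e (nat_lit 196655) (nat_lit 11) .nil)))))) (.g (nat_lit 0) .nil .nil))) 
(.lf (nat_lit 133796) (.g (nat_lit 3710) (.e (nat_lit 16435) (nat_lit 9) (.e (nat_lit 426566) (nat_lit 34) (.e (nat_lit 393253) (nat_lit 18) (.e (nat_lit 164329) (nat_lit 230) (.e (nat_lit 163867) (nat_lit 2) (.e (nat_lit 196656) (nat_lit 11) .nil)))))) (.g (nat_lit 6) .nil .nil)))) (.nd (nat_lit 5) 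
(.lf (nat_lit 133780) (.g (nat_lit 3032) (.e (nat_lit 16435) (nat_lit 9) (.e (nat_lit 426566) (nat_lit 34) (.e (nat_lit 393253) (nat_lit 18) (.e (nat_lit 164324) (nat_lit 230) (.e (nat_lit 163869) (nat_lit 2) (.e (nat_lit 196656) (nat_lit 11) .nil)))))) (.g (nat_lit 4) .nil .nil))) 
(.lf (nat_lit 133812) (.g (nat_lit 1512) (.e (nat_lit 16436) (nat_lit 9) (.e (nat_lit 426131) (nat_lit 3) (.e (nat_lit 212736) (nat_lit 15) (.e (nat_lit 475219) (nat_lit 44) (.e (nat_lit 737286) (nat_lit 0) (.e (nat_lit 5384) (nat_lit 300) .nil)))))) (.g (nat_lit 4) .nil .nil))))) (.nd (nat_lit 4) (.nd (nat_lit 5) 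
(.lf (nat_lit 133772) (.g (nat_lit 3632) (.e (nat_lit 16435) (nat_lit 9) (.e (nat_lit 426566) (nat_lit 34) (.e (nat_lit 393252) (nat_lit 18) (.e (nat_lit 164330) (nat_lit 230) (.e (nat_lit 163869) (nat_lit 2) (.e (nat_lit 196655) (nat_lit 11) .nil)))))) (.g (nat_lit 0) .nil .nil))) 
(.lf (nat_lit 133804) (.g (nat_lit 1567) (.e (nat_lit 16435) (nat_lit 9) (.e (nat_lit 426573) (nat_lit 35) (.e (nat_lit 401468) (nat_lit 27) (.e (nat_lit 336099) (nat_lit 9) (.e (nat_lit 336013) (nat_lit 2) (.e (nat_lit 98048) (nat_lit 2) .nil)))))) (.g (nat_lit 5) .nil .nil)))) (.nd (nat_lit 5) 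
(.lf (nat_lit 133788) (.g (nat_lit 3319) (.e (nat_lit 16435) (nat_lit 9) (.e (nat_lit 426566) (nat_lit 34) (.e (nat_lit 393253) (nat_lit 18) (.e (nat_lit 164325) (nat_lit 230) (.e (nat_lit 163871) (nat_lit 2) (.e (nat_lit 196653) (nat_lit 11) .nil)))))) (.g (nat_lit 6) .nil .nil))) 
(.lf (nat_lit 133820) (.g (nat_lit 4077) (.e (nat_lit 16436) (nat_lit 9) (.e (nat_lit 426354) (nat_lit 15) (.e (nat_lit 1860) (nat_lit 124) (.e (nat_lit 557100) (nat_lit 13) (.e (nat_lit 172106) (nat_lit 10) (.e (nat_lit 434244) (nat_lit 28) (.e (nat_lit 573469) (nat_lit 11) .nil))))))) (.g (nat_lit 7) .nil .nil))))))) (.nd (nat_lit 2) (.nd (nat_lit 3) (.nd (nat_lit 4) (.nd (nat_lit 5) 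
(.lf (nat_lit 133762) (.g (nat_lit 3001) (.e (nat_lit 16435) (nat_lit 9) (.e (nat_lit 426566) (nat_lit 34) (.e (nat_lit 393251) (nat_lit 18) (.e (nat_lit 164327) (nat_lit 230) (.e (nat_lit 163868) (nat_lit 2) (.e (nat_lit 196655) (nat_lit 11) .nil)))))) (.g (nat_lit 5) .nil .nil))) 
(.lf (nat_lit 133794) (.g (nat_lit 3910) (.e (nat_lit 16435) (nat_lit 9) (.e (nat_lit 426566) (nat_lit 34) (.e (nat_lit 393253) (nat_lit 18) (.e (nat_lit 164327) (nat_lit 230) (.e (nat_lit 163871) (nat_lit 2) (.e (nat_lit 196653) (nat_lit 11) .nil)))))) (.g (nat_lit 0) .nil .nil)))) (.nd (nat_lit 5) 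
(.lf (nat_lit 133778) (.g (nat_lit 3521) (.e (nat_lit 16435) (nat_lit 9) (.e (nat_lit 426566) (nat_lit 34) (.e (nat_lit 393253) (nat_lit 18) (.e (nat_lit 164324) (nat_lit 230) (.e (nat_lit 163868) (nat_lit 2) (.e (nat_lit 196655) (nat_lit 11) .nil)))))) (.g (nat_lit 6) .nil .nil))) 
(.lf (nat_lit 133810) (.g (nat_lit 1240) (.e (nat_lit 16436) (nat_lit 9) (.e (nat_lit 426128) (nat_lit 2) (.e (nat_lit 204544) (nat_lit 2) (.e (nat_lit 24653) (nat_lit 12) (.e (nat_lit 392960) (nat_lit 2) .nil))))) (.g (nat_lit 4) .nil .nil))))) (.nd (nat_lit 4) (.nd (nat_lit 5) 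
(.lf (nat_lit 133770) (.g (nat_lit 2968) (.e (nat_lit 16435) (nat_lit 9) (.e (nat_lit 426566) (nat_lit 34) (.e (nat_lit 393252) (nat_lit 18) (.e (nat_lit 164322) (nat_lit 230) (.e (nat_lit 163867) (nat_lit 2) (.e (nat_lit 196655) (nat_lit 11) .nil)))))) (.g (nat_lit 0) .nil .nil))) 
(.lf (nat_lit 133802) (.g (nat_lit 795) (.e (nat_lit 16435) (nat_lit 9) (.e (nat_lit 426568) (nat_lit 34) (.e (nat_lit 393254) (nat_lit 18) .nil))) .nil))) (.nd (nat_lit 5) 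
(.lf (nat_lit 133786) (.g (nat_lit 1863) (.e (nat_lit 16435) (nat_lit 9) (.e (nat_lit 426566) (nat_lit 34) (.e (nat_lit 393253) (nat_lit 18) (.e (nat_lit 164325) (nat_lit 230) (.e (nat_lit 163870) (nat_lit 2) (.e (nat_lit 196655) (nat_lit 11) .nil)))))) (.g (nat_lit 4) .nil .nil))) 
(.lf (nat_lit 133818) (.g (nat_lit 2724) (.e (nat_lit 16436) (nat_lit 9) (.e (nat_lit 426131) (nat_lit 3) (.e (nat_lit 204880) (nat_lit 32) (.e (nat_lit 385114) (nat_lit 53) (.e (nat_lit 811044) (nat_lit 13) (.e (nat_lit 32783) (nat_lit 7) .nil)))))) (.g (nat_lit 5) .nil .nil)))))) (.nd (nat_lit 3) (.nd (nat_lit 4) (.nd (nat_lit 5) 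
(.lf (nat_lit 133766) (.g (nat_lit 2724) (.e (nat_lit 16435) (nat_lit 9) (.e (nat_lit 426566) (nat_lit 34) (.e (nat_lit 393251) (nat_lit 18) (.e (nat_lit 164332) (nat_lit 230) (.e (nat_lit 163867) (nat_lit 2) (.e (nat_lit 196655) (nat_lit 11) .nil)))))) (.g (nat_lit 4) .nil .nil))) 
(.lf (nat_lit 133798) (.g (nat_lit 1765) (.e (nat_lit 16435) (nat_lit 9) (.e (nat_lit 426566) (nat_lit 34) (.e (nat_lit 393253) (nat_lit 18) (.e (nat_lit 164331) (nat_lit 230) (.e (nat_lit 163869) (nat_lit 2) .nil))))) .nil))) (.nd (nat_lit 5) 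
(.lf (nat_lit 133782) (.g (nat_lit 3082) (.e (nat_lit 16435) (nat_lit 9) (.e (nat_lit 426566) (nat_lit 34) (.e (nat_lit 393253) (nat_lit 18) (.e (nat_lit 164325) (nat_lit 230) (.e (nat_lit 163867) (nat_lit 2) (.e (nat_lit 196655) (nat_lit 11) .nil)))))) (.g (nat_lit 5) .nil .nil))) 
(.lf (nat_lit 133814) (.g (nat_lit 1162) (.e (nat_lit 16436) (nat_lit 9) (.e (nat_lit 426131) (nat_lit 3) (.e (nat_lit 204852) (nat_lit 26) (.e (nat_lit 336337) (nat_lit 20) .nil)))) .nil)))) (.nd (nat_lit 4) (.nd (nat_lit 5) 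
(.lf (nat_lit 133774) (.g (nat_lit 3775) (.e (nat_lit 16435) (nat_lit 9) (.e (nat_lit 426566) (nat_lit 34) (.e (nat_lit 393252) (nat_lit 18) (.e (nat_lit 164332) (nat_lit 230) (.e (nat_lit 163869) (nat_lit 2) (.e (nat_lit 196655) (nat_lit 11) .nil)))))) (.g (nat_lit 0) .nil .nil))) 
(.lf (nat_lit 133806) (.g (nat_lit 2855) (.e (nat_lit 16436) (nat_lit 9) (.e (nat_lit 425986) (nat_lit 0) (.e (nat_lit 3581) (nat_lit 223) (.e (nat_lit 745491) (nat_lit 4) (.e (nat_lit 65598) (nat_lit 9) (.e (nat_lit 336013) (nat_lit 2) (.e (nat_lit 98048) (nat_lit 2) .nil))))))) (.g (nat_lit 6) .nil .nil)))) (.nd (nat_lit 5) 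
(.lf (nat_lit 133790) (.g (nat_lit 1646) (.e (nat_lit 16435) (nat_lit 9) (.e (nat_lit 426566) (nat_lit 34) (.e (nat_lit 393253) (nat_lit 18) (.e (nat_lit 164327) (nat_lit 230) (.e (nat_lit 163866) (nat_lit 2) (.e (nat_lit 196655) (nat_lit 11) .nil)))))) (.g (nat_lit 4) .nil .nil))) 
(.lf (nat_lit 133822) (.g (nat_lit 3360) (.e (nat_lit 16436) (nat_lit 9) (.e (nat_lit 426354) (nat_lit 15) (.e (nat_lit 2031) (nat_lit 140) (.e (nat_lit 688177) (nat_lit 16) (.e (nat_lit 65617) (nat_lit 10) (.e (nat_lit 344163) (nat_lit 37) (.e (nat_lit 647199) (nat_lit 11) .nil))))))) (.g (nat_lit 5) .nil .nil)))))))) 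
(.nd (nat_lit 1) (.nd (nat_lit 2) (.nd (nat_lit 3) (.nd (nat_lit 4) (.nd (nat_lit 5) 
(.lf (nat_lit 133761) (.g (nat_lit 3297) (.e (nat_lit 16435) (nat_lit 9) (.e (nat_lit 426566) (nat_lit 34) (.e (nat_lit 393251) (nat_lit 18) (.e (nat_lit 164326) (nat_lit 230) (.e (nat_lit 163871) (nat_lit 2) (.e (nat_lit 196655) (nat_lit 11) .nil)))))) (.g (nat_lit 6) .nil .nil))) 
(.lf (nat_lit 133793) (.g (nat_lit 3765) (.e (nat_lit 16435) (nat_lit 9) (.e (nat_lit 426566) (nat_lit 34) (.e (nat_lit 393253) (nat_lit 18) (.e (nat_lit 164327) (nat_lit 230) (.e (nat_lit 163868) (nat_lit 2) (.e (nat_lit 196655) (nat_lit 11) .nil)))))) (.g (nat_lit 0) .nil .nil)))) (.nd (nat_lit 5) 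
(.lf (nat_lit 133777) (.g (nat_lit 3445) (.e (nat_lit 16435) (nat_lit 9) (.e (nat_lit 426566) (nat_lit 34) (.e (nat_lit 393253) (nat_lit 18) (.e (nat_lit 164324) (nat_lit 230) (.e (nat_lit 163867) (nat_lit 2) (.e (nat_lit 196655) (nat_lit 11) .nil)))))) (.g (nat_lit 5) .nil .nil))) 
(.lf (nat_lit 133809) (.g (nat_lit 1084) (.e (nat_lit 16436) (nat_lit 9) (.e (nat_lit 426128) (nat_lit 2) (.e (nat_lit 204544) (nat_lit 2) (.e (nat_lit 24650) (nat_lit 12) (.e (nat_lit 392960) (nat_lit 2) .nil))))) (.g (nat_lit 4) .nil .nil))))) (.nd (nat_lit 4) (.nd (nat_lit 5) 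
(.lf (nat_lit 133769) (.g (nat_lit 3401) (.e (nat_lit 16435) (nat_lit 9) (.e (nat_lit 426566) (nat_lit 34) (.e (nat_lit 393251) (nat_lit 18) (.e (nat_lit 164332) (nat_lit 230) (.e (nat_lit 163869) (nat_lit 2) (.e (nat_lit 196656) (nat_lit 11) .nil)))))) (.g (nat_lit 5) .nil .nil))) 
(.lf (nat_lit 133801) (.g (nat_lit 2206) (.e (nat_lit 16435) (nat_lit 9) (.e (nat_lit 426567) (nat_lit 34) (.e (nat_lit 393253) (nat_lit 18) (.e (nat_lit 164326) (nat_lit 230) (.e (nat_lit 163871) (nat_lit 2) (.e (nat_lit 196655) (nat_lit 11) .nil)))))) (.g (nat_lit 4) .nil .nil)))) (.nd (nat_lit 5) 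
(.lf (nat_lit 133785) (.g (nat_lit 3221) (.e (nat_lit 16435) (nat_lit 9) (.e (nat_lit 426566) (nat_lit 34) (.e (nat_lit 393253) (nat_lit 18) (.e (nat_lit 164325) (nat_lit 230) (.e (nat_lit 163869) (nat_lit 2) (.e (nat_lit 196656) (nat_lit 11) .nil)))))) (.g (nat_lit 5) .nil .nil))) 
(.lf (nat_lit 133817) (.g (nat_lit 1300) (.e (nat_lit 16436) (nat_lit 9) (.e (nat_lit 426131) (nat_lit 3) (.e (nat_lit 204880) (nat_lit 32) (.e (nat_lit 392960) (nat_lit 49) .nil)))) .nil))))) (.nd (nat_lit 3) (.nd (nat_lit 4) (.nd (nat_lit 5) 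
(.lf (nat_lit 133765) (.g (nat_lit 3746) (.e (nat_lit 16435) (nat_lit 9) (.e (nat_lit 426566) (nat_lit 34) (.e (nat_lit 393251) (nat_lit 18) (.e (nat_lit 164331) (nat_lit 230) (.e (nat_lit 163867) (nat_lit 2) (.e (nat_lit 196656) (nat_lit 11) .nil)))))) (.g (nat_lit 5) .nil .nil))) 
(.lf (nat_lit 133797) (.g (nat_lit 3405) (.e (nat_lit 16435) (nat_lit 9) (.e (nat_lit 426566) (nat_lit 34) (.e (nat_lit 393253) (nat_lit 18) (.e (nat_lit 164331) (nat_lit 230) (.e (nat_lit 163867) (nat_lit 2) (.e (nat_lit 196655) (nat_lit 11) .nil)))))) (.g (nat_lit 0) .nil .nil)))) (.nd (nat_lit 5) 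
(.lf (nat_lit 133781) (.g (nat_lit 3805) (.e (nat_lit 16435) (nat_lit 9) (.e (nat_lit 426566) (nat_lit 34) (.e (nat_lit 393253) (nat_lit 18) (.e (nat_lit 164324) (nat_lit 230) (.e (nat_lit 163871) (nat_lit 2) (.e (nat_lit 196656) (nat_lit 11) .nil)))))) (.g (nat_lit 5) .nil .nil))) 
(.lf (nat_lit 133813) (.g (nat_lit 1873) (.e (nat_lit 16436) (nat_lit 9) (.e (nat_lit 426131) (nat_lit 3) (.e (nat_lit 212736) (nat_lit 16) (.e (nat_lit 491566) (nat_lit 12) (.e (nat_lit 392960) (nat_lit 2) .nil))))) (.g (nat_lit 4) .nil .nil))))) (.nd (nat_lit 4) (.nd (nat_lit 5) 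
(.lf (nat_lit 133773) (.g (nat_lit 3216) (.e (nat_lit 16435) (nat_lit 9) (.e (nat_lit 426566) (nat_lit 34) (.e (nat_lit 393252) (nat_lit 18) (.e (nat_lit 164332) (nat_lit 230) (.e (nat_lit 163867) (nat_lit 2) (.e (nat_lit 196655) (nat_lit 11) .nil)))))) (.g (nat_lit 0) .nil .nil))) 
(.lf (nat_lit 133805) (.g (nat_lit 1415) (.e (nat_lit 16436) (nat_lit 9) (.e (nat_lit 425986) (nat_lit 0) (.e (nat_lit 3471) (nat_lit 217) (.e (nat_lit 696344) (nat_lit 8) (.e (nat_lit 172091) (nat_lit 9) .nil))))) .nil))) (.nd (nat_lit 5) 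
(.lf (nat_lit 133789) (.g (nat_lit 3277) (.e (nat_lit 16435) (nat_lit 9) (.e (nat_lit 426566) (nat_lit 34) (.e (nat_lit 393253) (nat_lit 18) (.e (nat_lit 164325) (nat_lit 230) (.e (nat_lit 163871) (nat_lit 2) (.e (nat_lit 196655) (nat_lit 11) .nil)))))) (.g (nat_lit 0) .nil .nil))) 
(.lf (nat_lit 133821) (.g (nat_lit 1979) (.e (nat_lit 16436) (nat_lit 9) (.e (nat_lit 426354) (nat_lit 15) (.e (nat_lit 2031) (nat_lit 140) (.e (nat_lit 688177) (nat_lit 16) (.e (nat_lit 65617) (nat_lit 10) .nil))))) .nil)))))) (.nd (nat_lit 2) (.nd (nat_lit 3) (.nd (nat_lit 4) (.nd (nat_lit 5) 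
(.lf (nat_lit 133763) (.g (nat_lit 3841) (.e (nat_lit 16435) (nat_lit 9) (.e (nat_lit 426566) (nat_lit 34) (.e (nat_lit 393251) (nat_lit 18) (.e (nat_lit 164327) (nat_lit 230) (.e (nat_lit 163871) (nat_lit 2) (.e (nat_lit 196653) (nat_lit 11) .nil)))))) (.g (nat_lit 0) .nil .nil))) 
(.lf (nat_lit 133795) (.g (nat_lit 3451) (.e (nat_lit 16435) (nat_lit 9) (.e (nat_lit 426566) (nat_lit 34) (.e (nat_lit 393253) (nat_lit 18) (.e (nat_lit 164329) (nat_lit 230) (.e (nat_lit 163867) (nat_lit 2) (.e (nat_lit 196655) (nat_lit 11) .nil)))))) (.g (nat_lit 0) .nil .nil)))) (.nd (nat_lit 5) 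
(.lf (nat_lit 133779) (.g (nat_lit 3742) (.e (nat_lit 16435) (nat_lit 9) (.e (nat_lit 426566) (nat_lit 34) (.e (nat_lit 393253) (nat_lit 18) (.e (nat_lit 164324) (nat_lit 230) (.e (nat_lit 163868) (nat_lit 2) (.e (nat_lit 196656) (nat_lit 11) .nil)))))) (.g (nat_lit 6) .nil .nil))) 
(.lf (nat_lit 133811) (.g (nat_lit 389) (.e (nat_lit 16436) (nat_lit 9) (.e (nat_lit 426131) (nat_lit 3) (.e (nat_lit 212736) (nat_lit 15) .nil))) .nil)))) (.nd (nat_lit 4) (.nd (nat_lit 5) 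
(.lf (nat_lit 133771) (.g (nat_lit 3189) (.e (nat_lit 16435) (nat_lit 9) (.e (nat_lit 426566) (nat_lit 34) (.e (nat_lit 393252) (nat_lit 18) (.e (nat_lit 164330) (nat_lit 230) (.e (nat_lit 163867) (nat_lit 2) (.e (nat_lit 196655) (nat_lit 11) .nil)))))) (.g (nat_lit 0) .nil .nil))) 
(.lf (nat_lit 133803) (.g (nat_lit 1306) (.e (nat_lit 16435) (nat_lit 9) (.e (nat_lit 426571) (nat_lit 35) (.e (nat_lit 401468) (nat_lit 27) (.e (nat_lit 336099) (nat_lit 9) (.e (nat_lit 336013) (nat_lit 2) (.e (nat_lit 98048) (nat_lit 2) .nil)))))) (.g (nat_lit 4) .nil .nil)))) (.nd (nat_lit 5) 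
(.lf (nat_lit 133787) (.g (nat_lit 2415) (.e (nat_lit 16435) (nat_lit 9) (.e (nat_lit 426566) (nat_lit 34) (.e (nat_lit 393253) (nat_lit 18) (.e (nat_lit 164325) (nat_lit 230) (.e (nat_lit 163870) (nat_lit 2) (.e (nat_lit 196656) (nat_lit 11) .nil)))))) (.g (nat_lit 4) .nil .nil))) 
(.lf (nat_lit 133819) (.g (nat_lit 2156) (.e (nat_lit 16436) (nat_lit 9) (.e (nat_lit 426131) (nat_lit 3) (.e (nat_lit 204885) (nat_lit 33) (.e (nat_lit 401448) (nat_lit 10) (.e (nat_lit 434200) (nat_lit 18) (.e (nat_lit 4186) (nat_lit 251) (.e (nat_lit 1124) (nat_lit 83) .nil))))))) (.g (nat_lit 4) .nil .nil)))))) (.nd (nat_lit 3) (.nd (nat_lit 4) (.nd (nat_lit 5) 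
(.lf (nat_lit 133767) (.g (nat_lit 2948) (.e (nat_lit 16435) (nat_lit 9) (.e (nat_lit 426566) (nat_lit 34) (.e (nat_lit 393251) (nat_lit 18) (.e (nat_lit 164332) (nat_lit 230) (.e (nat_lit 163867) (nat_lit 2) (.e (nat_lit 196656) (nat_lit 11) .nil)))))) (.g (nat_lit 4) .nil .nil))) 
(.lf (nat_lit 133799) (.g (nat_lit 4106) (.e (nat_lit 16435) (nat_lit 9) (.e (nat_lit 426566) (nat_lit 34) (.e (nat_lit 393253) (nat_lit 18) (.e (nat_lit 164332) (nat_lit 230) (.e (nat_lit 163869) (nat_lit 2) (.e (nat_lit 196655) (nat_lit 11) .nil)))))) (.g (nat_lit 0) .nil .nil)))) (.nd (nat_lit 5) 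
(.lf (nat_lit 133783) (.g (nat_lit 3632) (.e (nat_lit 16435) (nat_lit 9) (.e (nat_lit 426566) (nat_lit 34) (.e (nat_lit 393253) (nat_lit 18) (.e (nat_lit 164325) (nat_lit 230) (.e (nat_lit 163868) (nat_lit 2) (.e (nat_lit 196655) (nat_lit 11) .nil)))))) (.g (nat_lit 6) .nil .nil))) 
(.lf (nat_lit 133815) (.g (nat_lit 2364) (.e (nat_lit 16436) (nat_lit 9) (.e (nat_lit 426131) (nat_lit 3) (.e (nat_lit 204880) (nat_lit 32) (.e (nat_lit 385096) (nat_lit 49) (.e (nat_lit 778471) (nat_lit 12) (.e (nat_lit 163950) (nat_lit 21) (.e (nat_lit 500048) (nat_lit 16) .nil))))))) (.g (nat_lit 4) .nil .nil))))) (.nd (nat_lit 4) (.nd (nat_lit 5) 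
(.lf (nat_lit 133775) (.g (nat_lit 4001) (.e (nat_lit 16435) (nat_lit 9) (.e (nat_lit 426566) (nat_lit 34) (.e (nat_lit 393252) (nat_lit 18) (.e (nat_lit 164332) (nat_lit 230) (.e (nat_lit 163869) (nat_lit 2) (.e (nat_lit 196656) (nat_lit 11) .nil)))))) (.g (nat_lit 0) .nil .nil))) 
(.lf (nat_lit 133807) (.g (nat_lit 1370) (.e (nat_lit 16436) (nat_lit 9) (.e (nat_lit 426112) (nat_lit 1) (.e (nat_lit 164319) (nat_lit 228) (.e (nat_lit 57427) (nat_lit 15) (.e (nat_lit 360484) (nat_lit 15) (.e (nat_lit 647199) (nat_lit 11) .nil)))))) (.g (nat_lit 4) .nil .nil)))) (.nd (nat_lit 5) 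
(.lf (nat_lit 133791) (.g (nat_lit 2432) (.e (nat_lit 16435) (nat_lit 9) (.e (nat_lit 426566) (nat_lit 34) (.e (nat_lit 393253) (nat_lit 18) (.e (nat_lit 164327) (nat_lit 230) (.e (nat_lit 163867) (nat_lit 2) (.e (nat_lit 196655) (nat_lit 11) .nil)))))) (.g (nat_lit 4) .nil .nil))) 
(.lf (nat_lit 133823) (.g (nat_lit 408) (.e (nat_lit 16436) (nat_lit 9) (.e (nat_lit 426428) (nat_lit 17) (.e (nat_lit 98048) (nat_lit 6) .nil))) .nil))))))))

noncomputable def tv1784 : DT := (.nd (nat_lit 0) (.nd (nat_lit 1) (.nd (nat_lit 2) (.nd (nat_lit 3) (.nd (nat_lit 4) (.nd (nat_lit 5) 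
(.lf (nat_lit 133824) (.g (nat_lit 3621) (.e (nat_lit 16436) (nat_lit 9) (.e (nat_lit 426436) (nat_lit 18) (.e (nat_lit 98335) (nat_lit 18) (.e (nat_lit 164305) (nat_lit 226) .nil)))) .nil)) 
(.lf (nat_lit 133856) (.g (nat_lit 3357) (.e (nat_lit 16436) (nat_lit 9) (.e (nat_lit 426480) (nat_lit 27) (.e (nat_lit 336389) (nat_lit 27) (.e (nat_lit 426098) (nat_lit 1) (.e (nat_lit 164325) (nat_lit 230) (.e (nat_lit 163871) (nat_lit 2) (.e (nat_lit 196656) (nat_lit 11) .nil))))))) (.g (nat_lit 5) .nil .nil)))) (.nd (nat_lit 5) 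
(.lf (nat_lit 133840) (.g (nat_lit 2581) (.e (nat_lit 16436) (nat_lit 9) (.e (nat_lit 426478) (nat_lit 27) (.e (nat_lit 336388) (nat_lit 27) (.e (nat_lit 426098) (nat_lit 1) (.e (nat_lit 164327) (nat_lit 230) (.e (nat_lit 163871) (nat_lit 2) (.e (nat_lit 196654) (nat_lit 11) .nil))))))) (.g (nat_lit 5) .nil .nil))) 
(.lf (nat_lit 133872) (.g (nat_lit 2750) (.e (nat_lit 16436) (nat_lit 9) (.e (nat_lit 426482) (nat_lit 27) (.e (nat_lit 336060) (nat_lit 7) (.e (nat_lit 319534) (nat_lit 16) (.e (nat_lit 286728) (nat_lit 0) (.e (nat_lit 2390) (nat_lit 156) (.e (nat_lit 819237) (nat_lit 11) .nil))))))) (.g (nat_lit 4) .nil .nil))))) (.nd (nat_lit 4) (.nd (nat_lit 5) 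
(.lf (nat_lit 133832) (.g (nat_lit 3995) (.e (nat_lit 16436) (nat_lit 9) (.e (nat_lit 426436) (nat_lit 18) (.e (nat_lit 98335) (nat_lit 18) (.e (nat_lit 164332) (nat_lit 230) (.e (nat_lit 163938) (nat_lit 18) .nil))))) .nil)) 
(.lf (nat_lit 133864) (.g (nat_lit 2477) (.e (nat_lit 16436) (nat_lit 9) (.e (nat_lit 426481) (nat_lit 27) (.e (nat_lit 336388) (nat_lit 27) (.e (nat_lit 426108) (nat_lit 1) (.e (nat_lit 164330) (nat_lit 230) (.e (nat_lit 163866) (nat_lit 2) (.e (nat_lit 196654) (nat_lit 11) .nil))))))) (.g (nat_lit 5) .nil .nil)))) (.nd (nat_lit 5) 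
(.lf (nat_lit 133848) (.g (nat_lit 3912) (.e (nat_lit 16436) (nat_lit 9) (.e (nat_lit 426478) (nat_lit 27) (.e (nat_lit 336389) (nat_lit 27) (.e (nat_lit 426098) (nat_lit 1) (.e (nat_lit 164325) (nat_lit 230) (.e (nat_lit 163871) (nat_lit 2) (.e (nat_lit 196656) (nat_lit 11) .nil))))))) (.g (nat_lit 5) .nil .nil))) 
(.lf (nat_lit 133880) (.g (nat_lit 2200) (.e (nat_lit 16436) (nat_lit 9) (.e (nat_lit 426496) (nat_lit 27) (.e (nat_lit 336194) (nat_lit 12) (.e (nat_lit 385109) (nat_lit 51) (.e (nat_lit 802560) (nat_lit 4) (.e (nat_lit 106536) (nat_lit 11) .nil)))))) (.g (nat_lit 4) .nil .nil)))))) (.nd (nat_lit 3) (.nd (nat_lit 4) (.nd (nat_lit 5) 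
(.lf (nat_lit 133828) (.g (nat_lit 3980) (.e (nat_lit 16436) (nat_lit 9) (.e (nat_lit 426436) (nat_lit 18) (.e (nat_lit 98335) (nat_lit 18) (.e (nat_lit 164327) (nat_lit 230) .nil)))) .nil)) 
(.lf (nat_lit 133860) (.g (nat_lit 2438) (.e (nat_lit 16436) (nat_lit 9) (.e (nat_lit 426481) (nat_lit 27) (.e (nat_lit 336385) (nat_lit 27) (.e (nat_lit 426098) (nat_lit 1) (.e (nat_lit 164327) (nat_lit 230) (.e (nat_lit 163868) (nat_lit 2) (.e (nat_lit 196654) (nat_lit 11) .nil))))))) (.g (nat_lit 5) .nil .nil)))) (.nd (nat_lit 5) 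
(.lf (nat_lit 133844) (.g (nat_lit 2945) (.e (nat_lit 16436) (nat_lit 9) (.e (nat_lit 426478) (nat_lit 27) (.e (nat_lit 336389) (nat_lit 27) (.e (nat_lit 426098) (nat_lit 1) (.e (nat_lit 164325) (nat_lit 230) (.e (nat_lit 163868) (nat_lit 2) (.e (nat_lit 196654) (nat_lit 11) .nil))))))) (.g (nat_lit 4) .nil .nil))) 
(.lf (nat_lit 133876) (.g (nat_lit 2896) (.e (nat_lit 16436) (nat_lit 9) (.e (nat_lit 426487) (nat_lit 27) (.e (nat_lit 336407) (nat_lit 27) (.e (nat_lit 426098) (nat_lit 1) (.e (nat_lit 164325) (nat_lit 230) (.e (nat_lit 163868) (nat_lit 2) (.e (nat_lit 196656) (nat_lit 11) .nil))))))) (.g (nat_lit 5) .nil .nil))))) (.nd (nat_lit 4) (.nd (nat_lit 5) 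
(.lf (nat_lit 133836) (.g (nat_lit 2380) (.e (nat_lit 16436) (nat_lit 9) (.e (nat_lit 426478) (nat_lit 27) (.e (nat_lit 336385) (nat_lit 27) (.e (nat_lit 426098) (nat_lit 1) (.e (nat_lit 164327) (nat_lit 230) (.e (nat_lit 163871) (nat_lit 2) (.e (nat_lit 196654) (nat_lit 11) .nil))))))) (.g (nat_lit 4) .nil .nil))) 
(.lf (nat_lit 133868) (.g (nat_lit 2556) (.e (nat_lit 16436) (nat_lit 9) (.e (nat_lit 426481) (nat_lit 27) (.e (nat_lit 336389) (nat_lit 27) (.e (nat_lit 426098) (nat_lit 1) (.e (nat_lit 164325) (nat_lit 230) (.e (nat_lit 163871) (nat_lit 2) (.e (nat_lit 196654) (nat_lit 11) .nil))))))) (.g (nat_lit 4) .nil .nil)))) (.nd (nat_lit 5) 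
(.lf (nat_lit 133852) (.g (nat_lit 3758) (.e (nat_lit 16436) (nat_lit 9) (.e (nat_lit 426480) (nat_lit 27) (.e (nat_lit 336389) (nat_lit 27) (.e (nat_lit 426098) (nat_lit 1) (.e (nat_lit 164325) (nat_lit 230) (.e (nat_lit 163866) (nat_lit 2) (.e (nat_lit 196654) (nat_lit 11) .nil))))))) (.g (nat_lit 5) .nil .nil))) 
(.lf (nat_lit 133884) (.g (nat_lit 2251) (.e (nat_lit 16436) (nat_lit 9) (.e (nat_lit 426509) (nat_lit 27) (.e (nat_lit 336412) (nat_lit 27) (.e (nat_lit 426098) (nat_lit 1) (.e (nat_lit 164325) (nat_lit 230) (.e (nat_lit 163871) (nat_lit 2) (.e (nat_lit 196656) (nat_lit 11) .nil))))))) (.g (nat_lit 4) .nil .nil))))))) (.nd (nat_lit 2) (.nd (nat_lit 3) (.nd (nat_lit 4) (.nd (nat_lit 5) 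
(.lf (nat_lit 133826) (.g (nat_lit 3592) (.e (nat_lit 16436) (nat_lit 9) (.e (nat_lit 426436) (nat_lit 18) (.e (nat_lit 98335) (nat_lit 18) (.e (nat_lit 164325) (nat_lit 230) .nil)))) .nil)) 
(.lf (nat_lit 133858) (.g (nat_lit 3714) (.e (nat_lit 16436) (nat_lit 9) (.e (nat_lit 426480) (nat_lit 27) (.e (nat_lit 336389) (nat_lit 27) (.e (nat_lit 426098) (nat_lit 1) (.e (nat_lit 164327) (nat_lit 230) (.e (nat_lit 163871) (nat_lit 2) (.e (nat_lit 196654) (nat_lit 11) .nil))))))) (.g (nat_lit 6) .nil .nil)))) (.nd (nat_lit 5) 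
(.lf (nat_lit 133842) (.g (nat_lit 2314) (.e (nat_lit 16436) (nat_lit 9) (.e (nat_lit 426478) (nat_lit 27) (.e (nat_lit 336388) (nat_lit 27) (.e (nat_lit 426108) (nat_lit 1) (.e (nat_lit 164330) (nat_lit 230) (.e (nat_lit 163866) (nat_lit 2) (.e (nat_lit 196654) (nat_lit 11) .nil))))))) (.g (nat_lit 5) .nil .nil))) 
(.lf (nat_lit 133874) (.g (nat_lit 2245) (.e (nat_lit 16436) (nat_lit 9) (.e (nat_lit 426484) (nat_lit 27) (.e (nat_lit 336407) (nat_lit 27) (.e (nat_lit 426098) (nat_lit 1) (.e (nat_lit 164325) (nat_lit 230) (.e (nat_lit 163871) (nat_lit 2) (.e (nat_lit 196656) (nat_lit 11) .nil))))))) (.g (nat_lit 4) .nil .nil))))) (.nd (nat_lit 4) (.nd (nat_lit 5) 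
(.lf (nat_lit 133834) (.g (nat_lit 598) (.e (nat_lit 16436) (nat_lit 9) (.e (nat_lit 426448) (nat_lit 20) (.e (nat_lit 122624) (nat_lit 5) .nil))) .nil)) 
(.lf (nat_lit 133866) (.g (nat_lit 2752) (.e (nat_lit 16436) (nat_lit 9) (.e (nat_lit 426481) (nat_lit 27) (.e (nat_lit 336389) (nat_lit 27) (.e (nat_lit 426098) (nat_lit 1) (.e (nat_lit 164325) (nat_lit 230) (.e (nat_lit 163868) (nat_lit 2) (.e (nat_lit 196654) (nat_lit 11) .nil))))))) (.g (nat_lit 4) .nil .nil)))) (.nd (nat_lit 5) 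
(.lf (nat_lit 133850) (.g (nat_lit 2525) (.e (nat_lit 16436) (nat_lit 9) (.e (nat_lit 426480) (nat_lit 27) (.e (nat_lit 336388) (nat_lit 27) (.e (nat_lit 426098) (nat_lit 1) (.e (nat_lit 164327) (nat_lit 230) (.e (nat_lit 163871) (nat_lit 2) (.e (nat_lit 196654) (nat_lit 11) .nil))))))) (.g (nat_lit 5) .nil .nil))) 
(.lf (nat_lit 133882) (.g (nat_lit 2456) (.e (nat_lit 16436) (nat_lit 9) (.e (nat_lit 426504) (nat_lit 27) (.e (nat_lit 336194) (nat_lit 12) (.e (nat_lit 385109) (nat_lit 51) (.e (nat_lit 802560) (nat_lit 4) (.e (nat_lit 106536) (nat_lit 11) .nil)))))) (.g (nat_lit 4) .nil .nil)))))) (.nd (nat_lit 3) (.nd (nat_lit 4) (.nd (nat_lit 5) 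
(.lf (nat_lit 133830) (.g (nat_lit 4010) (.e (nat_lit 16436) (nat_lit 9) (.e (nat_lit 426436) (nat_lit 18) (.e (nat_lit 98335) (nat_lit 18) (.e (nat_lit 164331) (nat_lit 230) .nil)))) .nil)) 
(.lf (nat_lit 133862) (.g (nat_lit 2014) (.e (nat_lit 16436) (nat_lit 9) (.e (nat_lit 426481) (nat_lit 27) (.e (nat_lit 336386) (nat_lit 27) (.e (nat_lit 426098) (nat_lit 1) (.e (nat_lit 164327) (nat_lit 230) (.e (nat_lit 163871) (nat_lit 2) (.e (nat_lit 196654) (nat_lit 11) .nil))))))) (.g (nat_lit 4) .nil .nil)))) (.nd (nat_lit 5) 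
(.lf (nat_lit 133846) (.g (nat_lit 3135) (.e (nat_lit 16436) (nat_lit 9) (.e (nat_lit 426478) (nat_lit 27) (.e (nat_lit 336389) (nat_lit 27) (.e (nat_lit 426098) (nat_lit 1) (.e (nat_lit 164325) (nat_lit 230) (.e (nat_lit 163869) (nat_lit 2) (.e (nat_lit 196654) (nat_lit 11) .nil))))))) (.g (nat_lit 4) .nil .nil))) 
(.lf (nat_lit 133878) (.g (nat_lit 2200) (.e (nat_lit 16436) (nat_lit 9) (.e (nat_lit 426493) (nat_lit 27) (.e (nat_lit 336194) (nat_lit 12) (.e (nat_lit 385109) (nat_lit 51) (.e (nat_lit 802560) (nat_lit 4) (.e (nat_lit 106536) (nat_lit 11) .nil)))))) (.g (nat_lit 4) .nil .nil))))) (.nd (nat_lit 4) (.nd (nat_lit 5) 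
(.lf (nat_lit 133838) (.g (nat_lit 2207) (.e (nat_lit 16436) (nat_lit 9) (.e (nat_lit 426478) (nat_lit 27) (.e (nat_lit 336386) (nat_lit 27) (.e (nat_lit 426098) (nat_lit 1) (.e (nat_lit 164327) (nat_lit 230) (.e (nat_lit 163871) (nat_lit 2) (.e (nat_lit 196654) (nat_lit 11) .nil))))))) (.g (nat_lit 4) .nil .nil))) 
(.lf (nat_lit 133870) (.g (nat_lit 1455) (.e (nat_lit 16436) (nat_lit 9) (.e (nat_lit 426482) (nat_lit 27) (.e (nat_lit 335907) (nat_lit 0) (.e (nat_lit 6218) (nat_lit 333) .nil)))) .nil))) (.nd (nat_lit 5) 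
(.lf (nat_lit 133854) (.g (nat_lit 3299) (.e (nat_lit 16436) (nat_lit 9) (.e (nat_lit 426480) (nat_lit 27) (.e (nat_lit 336389) (nat_lit 27) (.e (nat_lit 426098) (nat_lit 1) (.e (nat_lit 164325) (nat_lit 230) (.e (nat_lit 163868) (nat_lit 2) (.e (nat_lit 196656) (nat_lit 11) .nil))))))) (.g (nat_lit 5) .nil .nil))) 
(.lf (nat_lit 133886) (.g (nat_lit 2416) (.e (nat_lit 16436) (nat_lit 9) (.e (nat_lit 426516) (nat_lit 27) (.e (nat_lit 336076) (nat_lit 9) (.e (nat_lit 336336) (nat_lit 20) (.e (nat_lit 229120) (nat_lit 4) (.e (nat_lit 106536) (nat_lit 11) .nil)))))) (.g (nat_lit 4) .nil .nil)))))))) (.nd (nat_lit 1) (.nd (nat_lit 2) (.nd (nat_lit 3) (.nd (nat_lit 4) (.nd (nat_lit 5) 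
(.lf (nat_lit 133825) (.g (nat_lit 4042) (.e (nat_lit 16436) (nat_lit 9) (.e (nat_lit 426436) (nat_lit 18) (.e (nat_lit 98335) (nat_lit 18) (.e (nat_lit 164324) (nat_lit 230) .nil)))) .nil)) 
(.lf (nat_lit 133857) (.g (nat_lit 3775) (.e (nat_lit 16436) (nat_lit 9) (.e (nat_lit 426480) (nat_lit 27) (.e (nat_lit 336389) (nat_lit 27) (.e (nat_lit 426098) (nat_lit 1) (.e (nat_lit 164327) (nat_lit 230) (.e (nat_lit 163868) (nat_lit 2) (.e (nat_lit 196654) (nat_lit 11) .nil))))))) (.g (nat_lit 6) .nil .nil)))) (.nd (nat_lit 5) 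
(.lf (nat_lit 133841) (.g (nat_lit 2192) (.e (nat_lit 16436) (nat_lit 9) (.e (nat_lit 426478) (nat_lit 27) (.e (nat_lit 336388) (nat_lit 27) (.e (nat_lit 426100) (nat_lit 1) (.e (nat_lit 164332) (nat_lit 230) (.e (nat_lit 163869) (nat_lit 2) (.e (nat_lit 196654) (nat_lit 11) .nil))))))) (.g (nat_lit 4) .nil .nil))) 
(.lf (nat_lit 133873) (.g (nat_lit 4090) (.e (nat_lit 16436) (nat_lit 9) (.e (nat_lit 426482) (nat_lit 27) (.e (nat_lit 336389) (nat_lit 27) (.e (nat_lit 426098) (nat_lit 1) (.e (nat_lit 164325) (nat_lit 230) (.e (nat_lit 163866) (nat_lit 2) (.e (nat_lit 196654) (nat_lit 11) .nil))))))) (.g (nat_lit 4) .nil .nil))))) (.nd (nat_lit 4) (.nd (nat_lit 5) 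
(.lf (nat_lit 133833) (.g (nat_lit 4224) (.e (nat_lit 16436) (nat_lit 9) (.e (nat_lit 426436) (nat_lit 18) (.e (nat_lit 98335) (nat_lit 18) (.e (nat_lit 164403) (nat_lit 256) .nil)))) .nil)) 
(.lf (nat_lit 133865) (.g (nat_lit 4022) (.e (nat_lit 16436) (nat_lit 9) (.e (nat_lit 426481) (nat_lit 27) (.e (nat_lit 336389) (nat_lit 27) (.e (nat_lit 426098) (nat_lit 1) (.e (nat_lit 164325) (nat_lit 230) (.e (nat_lit 163866) (nat_lit 2) (.e (nat_lit 196654) (nat_lit 11) .nil))))))) (.g (nat_lit 5) .nil .nil)))) (.nd (nat_lit 5) 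
(.lf (nat_lit 133849) (.g (nat_lit 2548) (.e (nat_lit 16436) (nat_lit 9) (.e (nat_lit 426480) (nat_lit 27) (.e (nat_lit 336385) (nat_lit 27) (.e (nat_lit 426098) (nat_lit 1) (.e (nat_lit 164327) (nat_lit 230) (.e (nat_lit 163868) (nat_lit 2) (.e (nat_lit 196654) (nat_lit 11) .nil))))))) (.g (nat_lit 5) .nil .nil))) 
(.lf (nat_lit 133881) (.g (nat_lit 2712) (.e (nat_lit 16436) (nat_lit 9) (.e (nat_lit 426502) (nat_lit 27) (.e (nat_lit 336076) (nat_lit 9) (.e (nat_lit 336336) (nat_lit 20) (.e (nat_lit 229120) (nat_lit 4) (.e (nat_lit 106536) (nat_lit 11) .nil)))))) (.g (nat_lit 4) .nil .nil)))))) (.nd (nat_lit 3) (.nd (nat_lit 4) (.nd (nat_lit 5) 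
(.lf (nat_lit 133829) (.g (nat_lit 3497) (.e (nat_lit 16436) (nat_lit 9) (.e (nat_lit 426436) (nat_lit 18) (.e (nat_lit 98335) (nat_lit 18) (.e (nat_lit 164330) (nat_lit 230) .nil)))) .nil)) 
(.lf (nat_lit 133861) (.g (nat_lit 2039) (.e (nat_lit 16436) (nat_lit 9) (.e (nat_lit 426481) (nat_lit 27) (.e (nat_lit 336386) (nat_lit 27) (.e (nat_lit 426098) (nat_lit 1) (.e (nat_lit 164327) (nat_lit 230) (.e (nat_lit 163868) (nat_lit 2) (.e (nat_lit 196654) (nat_lit 11) .nil))))))) (.g (nat_lit 4) .nil .nil)))) (.nd (nat_lit 5) 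
(.lf (nat_lit 133845) (.g (nat_lit 3803) (.e (nat_lit 16436) (nat_lit 9) (.e (nat_lit 426478) (nat_lit 27) (.e (nat_lit 336389) (nat_lit 27) (.e (nat_lit 426098) (nat_lit 1) (.e (nat_lit 164325) (nat_lit 230) (.e (nat_lit 163868) (nat_lit 2) (.e (nat_lit 196656) (nat_lit 11) .nil))))))) (.g (nat_lit 5) .nil .nil))) 
(.lf (nat_lit 133877) (.g (nat_lit 2814) (.e (nat_lit 16436) (nat_lit 9) (.e (nat_lit 426487) (nat_lit 27) (.e (nat_lit 336407) (nat_lit 27) (.e (nat_lit 426098) (nat_lit 1) (.e (nat_lit 164325) (nat_lit 230) (.e (nat_lit 163871) (nat_lit 2) (.e (nat_lit 196656) (nat_lit 11) .nil))))))) (.g (nat_lit 5) .nil .nil))))) (.nd (nat_lit 4) (.nd (nat_lit 5) 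
(.lf (nat_lit 133837) (.g (nat_lit 2206) (.e (nat_lit 16436) (nat_lit 9) (.e (nat_lit 426478) (nat_lit 27) (.e (nat_lit 336386) (nat_lit 27) (.e (nat_lit 426098) (nat_lit 1) (.e (nat_lit 164327) (nat_lit 230) (.e (nat_lit 163868) (nat_lit 2) (.e (nat_lit 196654) (nat_lit 11) .nil))))))) (.g (nat_lit 4) .nil .nil))) 
(.lf (nat_lit 133869) (.g (nat_lit 3783) (.e (nat_lit 16436) (nat_lit 9) (.e (nat_lit 426481) (nat_lit 27) (.e (nat_lit 336389) (nat_lit 27) (.e (nat_lit 426098) (nat_lit 1) (.e (nat_lit 164325) (nat_lit 230) (.e (nat_lit 163871) (nat_lit 2) (.e (nat_lit 196656) (nat_lit 11) .nil))))))) (.g (nat_lit 6) .nil .nil)))) (.nd (nat_lit 5) 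
(.lf (nat_lit 133853) (.g (nat_lit 2589) (.e (nat_lit 16436) (nat_lit 9) (.e (nat_lit 426480) (nat_lit 27) (.e (nat_lit 336389) (nat_lit 27) (.e (nat_lit 426098) (nat_lit 1) (.e (nat_lit 164325) (nat_lit 230) (.e (nat_lit 163868) (nat_lit 2) (.e (nat_lit 196654) (nat_lit 11) .nil))))))) (.g (nat_lit 4) .nil .nil))) 
(.lf (nat_lit 133885) (.g (nat_lit 2523) (.e (nat_lit 16436) (nat_lit 9) (.e (nat_lit 426512) (nat_lit 27) (.e (nat_lit 336076) (nat_lit 9) (.e (nat_lit 336336) (nat_lit 20) (.e (nat_lit 229120) (nat_lit 4) (.e (nat_lit 106536) (nat_lit 11) .nil)))))) (.g (nat_lit 4) .nil .nil))))))) (.nd (nat_lit 2) (.nd (nat_lit 3) (.nd (nat_lit 4) (.nd (nat_lit 5) 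
(.lf (nat_lit 133827) (.g (nat_lit 4623) (.e (nat_lit 16436) (nat_lit 9) (.e (nat_lit 426436) (nat_lit 18) (.e (nat_lit 98335) (nat_lit 18) (.e (nat_lit 164326) (nat_lit 230) .nil)))) .nil)) 
(.lf (nat_lit 133859) (.g (nat_lit 2144) (.e (nat_lit 16436) (nat_lit 9) (.e (nat_lit 426481) (nat_lit 27) (.e (nat_lit 336205) (nat_lit 12) (.e (nat_lit 385109) (nat_lit 51) (.e (nat_lit 802560) (nat_lit 4) (.e (nat_lit 106536) (nat_lit 11) .nil)))))) (.g (nat_lit 4) .nil .nil)))) (.nd (nat_lit 5) 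
(.lf (nat_lit 133843) (.g (nat_lit 4156) (.e (nat_lit 16436) (nat_lit 9) (.e (nat_lit 426478) (nat_lit 27) (.e (nat_lit 336389) (nat_lit 27) (.e (nat_lit 426098) (nat_lit 1) (.e (nat_lit 164325) (nat_lit 230) (.e (nat_lit 163866) (nat_lit 2) (.e (nat_lit 196654) (nat_lit 11) .nil))))))) (.g (nat_lit 5) .nil .nil))) 
(.lf (nat_lit 133875) (.g (nat_lit 3279) (.e (nat_lit 16436) (nat_lit 9) (.e (nat_lit 426487) (nat_lit 27) (.e (nat_lit 336407) (nat_lit 27) (.e (nat_lit 426098) (nat_lit 1) (.e (nat_lit 164325) (nat_lit 230) (.e (nat_lit 163866) (nat_lit 2) (.e (nat_lit 196654) (nat_lit 11) .nil))))))) (.g (nat_lit 5) .nil .nil))))) (.nd (nat_lit 4) (.nd (nat_lit 5) 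
(.lf (nat_lit 133835) (.g (nat_lit 2379) (.e (nat_lit 16436) (nat_lit 9) (.e (nat_lit 426478) (nat_lit 27) (.e (nat_lit 336385) (nat_lit 27) (.e (nat_lit 426098) (nat_lit 1) (.e (nat_lit 164327) (nat_lit 230) (.e (nat_lit 163868) (nat_lit 2) (.e (nat_lit 196654) (nat_lit 11) .nil))))))) (.g (nat_lit 4) .nil .nil))) 
(.lf (nat_lit 133867) (.g (nat_lit 3606) (.e (nat_lit 16436) (nat_lit 9) (.e (nat_lit 426481) (nat_lit 27) (.e (nat_lit 336389) (nat_lit 27) (.e (nat_lit 426098) (nat_lit 1) (.e (nat_lit 164325) (nat_lit 230) (.e (nat_lit 163868) (nat_lit 2) (.e (nat_lit 196656) (nat_lit 11) .nil))))))) (.g (nat_lit 5) .nil .nil)))) (.nd (nat_lit 5) 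
(.lf (nat_lit 133851) (.g (nat_lit 2327) (.e (nat_lit 16436) (nat_lit 9) (.e (nat_lit 426480) (nat_lit 27) (.e (nat_lit 336388) (nat_lit 27) (.e (nat_lit 426108) (nat_lit 1) (.e (nat_lit 164330) (nat_lit 230) (.e (nat_lit 163866) (nat_lit 2) (.e (nat_lit 196654) (nat_lit 11) .nil))))))) (.g (nat_lit 5) .nil .nil))) 
(.lf (nat_lit 133883) (.g (nat_lit 1996) (.e (nat_lit 16436) (nat_lit 9) (.e (nat_lit 426506) (nat_lit 27) (.e (nat_lit 336205) (nat_lit 12) (.e (nat_lit 385109) (nat_lit 51) (.e (nat_lit 802560) (nat_lit 4) .nil))))) .nil))))) (.nd (nat_lit 3) (.nd (nat_lit 4) (.nd (nat_lit 5) 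
(.lf (nat_lit 133831) (.g (nat_lit 3382) (.e (nat_lit 16436) (nat_lit 9) (.e (nat_lit 426436) (nat_lit 18) (.e (nat_lit 98335) (nat_lit 18) (.e (nat_lit 164332) (nat_lit 230) .nil)))) .nil)) 
(.lf (nat_lit 133863) (.g (nat_lit 2798) (.e (nat_lit 16436) (nat_lit 9) (.e (nat_lit 426481) (nat_lit 27) (.e (nat_lit 336388) (nat_lit 27) (.e (nat_lit 426098) (nat_lit 1) (.e (nat_lit 164325) (nat_lit 230) (.e (nat_lit 163866) (nat_lit 2) (.e (nat_lit 196654) (nat_lit 11) .nil))))))) (.g (nat_lit 5) .nil .nil)))) (.nd (nat_lit 5) 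
(.lf (nat_lit 133847) (.g (nat_lit 2775) (.e (nat_lit 16436) (nat_lit 9) (.e (nat_lit 426478) (nat_lit 27) (.e (nat_lit 336389) (nat_lit 27) (.e (nat_lit 426098) (nat_lit 1) (.e (nat_lit 164325) (nat_lit 230) (.e (nat_lit 163871) (nat_lit 2) (.e (nat_lit 196654) (nat_lit 11) .nil))))))) (.g (nat_lit 4) .nil .nil))) 
(.lf (nat_lit 133879) (.g (nat_lit 2400) (.e (nat_lit 16436) (nat_lit 9) (.e (nat_lit 426495) (nat_lit 27) (.e (nat_lit 336194) (nat_lit 12) (.e (nat_lit 385109) (nat_lit 51) (.e (nat_lit 802560) (nat_lit 4) (.e (nat_lit 106536) (nat_lit 11) .nil)))))) (.g (nat_lit 4) .nil .nil))))) (.nd (nat_lit 4) (.nd (nat_lit 5) 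
(.lf (nat_lit 133839) (.g (nat_lit 2659) (.e (nat_lit 16436) (nat_lit 9) (.e (nat_lit 426478) (nat_lit 27) (.e (nat_lit 336388) (nat_lit 27) (.e (nat_lit 426098) (nat_lit 1) (.e (nat_lit 164327) (nat_lit 230) (.e (nat_lit 163868) (nat_lit 2) (.e (nat_lit 196654) (nat_lit 11) .nil))))))) (.g (nat_lit 5) .nil .nil))) 
(.lf (nat_lit 133871) (.g (nat_lit 2092) (.e (nat_lit 16436) (nat_lit 9) (.e (nat_lit 426482) (nat_lit 27) (.e (nat_lit 335907) (nat_lit 0) (.e (nat_lit 6218) (nat_lit 333) (.e (nat_lit 57806) (nat_lit 246) .nil))))) .nil))) (.nd (nat_lit 5) 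
(.lf (nat_lit 133855) (.g (nat_lit 2753) (.e (nat_lit 16436) (nat_lit 9) (.e (nat_lit 426480) (nat_lit 27) (.e (nat_lit 336389) (nat_lit 27) (.e (nat_lit 426098) (nat_lit 1) (.e (nat_lit 164325) (nat_lit 230) (.e (nat_lit 163869) (nat_lit 2) (.e (nat_lit 196654) (nat_lit 11) .nil))))))) (.g (nat_lit 4) .nil .nil))) 
(.lf (nat_lit 133887) (.g (nat_lit 2400) (.e (nat_lit 16436) (nat_lit 9) (.e (nat_lit 426516) (nat_lit 27) (.e (nat_lit 336194) (nat_lit 12) (.e (nat_lit 385109) (nat_lit 51) (.e (nat_lit 802560) (nat_lit 4) (.e (nat_lit 106536) (nat_lit 11) .nil)))))) (.g (nat_lit 4) .nil .nil)))))))))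

noncomputable def tv1785 : DT := (.nd (nat_lit 0) (.nd (nat_lit 1) (.nd (nat_lit 2) (.nd (nat_lit 3) (.nd (nat_lit 4) (.nd (nat_lit 5) 
(.lf (nat_lit 133888) (.g (nat_lit 2742) (.e (nat_lit 16436) (nat_lit 9) (.e (nat_lit 426530) (nat_lit 27) (.e (nat_lit 336390) (nat_lit 27) (.e (nat_lit 426098) (nat_lit 1) (.e (nat_lit 164325) (nat_lit 230) (.e (nat_lit 163868) (nat_lit 2) (.e (nat_lit 196656) (nat_lit 11) .nil))))))) (.g (nat_lit 4) .nil .nil))) 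
(.lf (nat_lit 133920) (.g (nat_lit 2877) (.e (nat_lit 16436) (nat_lit 9) (.e (nat_lit 426555) (nat_lit 32) (.e (nat_lit 376857) (nat_lit 21) (.e (nat_lit 57849) (nat_lit 252) (.e (nat_lit 57385) (nat_lit 4) (.e (nat_lit 106534) (nat_lit 11) .nil)))))) (.g (nat_lit 0) .nil .nil)))) (.nd (nat_lit 5) 
(.lf (nat_lit 133904) (.g (nat_lit 2305) (.e (nat_lit 16436) (nat_lit 9) (.e (nat_lit 426555) (nat_lit 32) (.e (nat_lit 376857) (nat_lit 21) (.e (nat_lit 57846) (nat_lit 252) (.e (nat_lit 57381) (nat_lit 4) (.e (nat_lit 106536) (nat_lit 11) .nil)))))) (.g (nat_lit 5) .nil .nil))) 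
(.lf (nat_lit 133936) (.g (nat_lit 3043) (.e (nat_lit 16436) (nat_lit 9) (.e (nat_lit 426555) (nat_lit 32) (.e (nat_lit 376857) (nat_lit 21) (.e (nat_lit 57852) (nat_lit 252) (.e (nat_lit 57384) (nat_lit 4) (.e (nat_lit 106534) (nat_lit 11) .nil)))))) (.g (nat_lit 6) .nil .nil))))) (.nd (nat_lit 4) (.nd (nat_lit 5) 
(.lf (nat_lit 133896) (.g (nat_lit 224) (.e (nat_lit 16436) (nat_lit 9) (.e (nat_lit 426550) (nat_lit 31) (.e (nat_lit 368656) (nat_lit 14) .nil))) .nil)) 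
(.lf (nat_lit 133928) (.g (nat_lit 2807) (.e (nat_lit 16436) (nat_lit 9) (.e (nat_lit 426555) (nat_lit 32) (.e (nat_lit 376857) (nat_lit 21) (.e (nat_lit 57852) (nat_lit 252) (.e (nat_lit 57347) (nat_lit 0) (.e (nat_lit 2044) (nat_lit 142) (.e (nat_lit 704734) (nat_lit 11) .nil))))))) (.g (nat_lit 4) .nil .nil)))) (.nd (nat_lit 5) 
(.lf (nat_lit 133912) (.g (nat_lit 3040) (.e (nat_lit 16436) (nat_lit 9) (.e (nat_lit 426555) (nat_lit 32) (.e (nat_lit 376857) (nat_lit 21) (.e (nat_lit 57847) (nat_lit 252) (.e (nat_lit 57386) (nat_lit 4) (.e (nat_lit 106534) (nat_lit 11) .nil)))))) (.g (nat_lit 0) .nil .nil))) 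
(.lf (nat_lit 133944) (.g (nat_lit 3847) (.e (nat_lit 16436) (nat_lit 9) (.e (nat_lit 426555) (nat_lit 32) (.e (nat_lit 376857) (nat_lit 21) (.e (nat_lit 57854) (nat_lit 252) (.e (nat_lit 57382) (nat_lit 4) (.e (nat_lit 106536) (nat_lit 11) .nil)))))) (.g (nat_lit 0) .nil .nil)))))) (.nd (nat_lit 3) (.nd (nat_lit 4) (.nd (nat_lit 5) 
(.lf (nat_lit 133892) (.g (nat_lit 2721) (.e (nat_lit 16436) (nat_lit 9) (.e (nat_lit 426531) (nat_lit 27) (.e (nat_lit 336076) (nat_lit 9) (.e (nat_lit 336336) (nat_lit 20) (.e (nat_lit 229120) (nat_lit 4) (.e (nat_lit 106536) (nat_lit 11) .nil)))))) (.g (nat_lit 4) .nil .nil))) 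
(.lf (nat_lit 133924) (.g (nat_lit 2675) (.e (nat_lit 16436) (nat_lit 9) (.e (nat_lit 426555) (nat_lit 32) (.e (nat_lit 376857) (nat_lit 21) (.e (nat_lit 57851) (nat_lit 252) (.e (nat_lit 57354) (nat_lit 0) (.e (nat_lit 2143) (nat_lit 142) (.e (nat_lit 704741) (nat_lit 11) .nil))))))) (.g (nat_lit 4) .nil .nil)))) (.nd (nat_lit 5) 
(.lf (nat_lit 133908) (.g (nat_lit 3077) (.e (nat_lit 16436) (nat_lit 9) (.e (nat_lit 426555) (nat_lit 32) (.e (nat_lit 376857) (nat_lit 21) (.e (nat_lit 57847) (nat_lit 252) (.e (nat_lit 57383) (nat_lit 4) (.e (nat_lit 106536) (nat_lit 11) .nil)))))) (.g (nat_lit 0) .nil .nil))) 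
(.lf (nat_lit 133940) (.g (nat_lit 2381) (.e (nat_lit 16436) (nat_lit 9) (.e (nat_lit 426555) (nat_lit 32) (.e (nat_lit 376857) (nat_lit 21) (.e (nat_lit 57854) (nat_lit 252) (.e (nat_lit 57347) (nat_lit 0) (.e (nat_lit 2075) (nat_lit 142) (.e (nat_lit 704734) (nat_lit 11) .nil))))))) (.g (nat_lit 4) .nil .nil))))) (.nd (nat_lit 4) (.nd (nat_lit 5) 
(.lf (nat_lit 133900) (.g (nat_lit 1143) (.e (nat_lit 16436) (nat_lit 9) (.e (nat_lit 426555) (nat_lit 32) (.e (nat_lit 376857) (nat_lit 21) (.e (nat_lit 57830) (nat_lit 250) .nil)))) .nil)) 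
(.lf (nat_lit 133932) (.g (nat_lit 3317) (.e (nat_lit 16436) (nat_lit 9) (.e (nat_lit 426555) (nat_lit 32) (.e (nat_lit 376857) (nat_lit 21) (.e (nat_lit 57852) (nat_lit 252) (.e (nat_lit 57361) (nat_lit 0) (.e (nat_lit 2143) (nat_lit 142) (.e (nat_lit 704741) (nat_lit 11) .nil))))))) (.g (nat_lit 4) .nil .nil)))) (.nd (nat_lit 5) 
(.lf (nat_lit 133916) (.g (nat_lit 2105) (.e (nat_lit 16436) (nat_lit 9) (.e (nat_lit 426555) (nat_lit 32) (.e (nat_lit 376857) (nat_lit 21) (.e (nat_lit 57849) (nat_lit 252) (.e (nat_lit 57348) (nat_lit 0) (.e (nat_lit 2044) (nat_lit 142) (.e (nat_lit 704734) (nat_lit 11) .nil))))))) (.g (nat_lit 4) .nil .nil))) 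
(.lf (nat_lit 133948) (.g (nat_lit 2201) (.e (nat_lit 16436) (nat_lit 9) (.e (nat_lit 426555) (nat_lit 32) (.e (nat_lit 376859) (nat_lit 21) (.e (nat_lit 57846) (nat_lit 252) (.e (nat_lit 57381) (nat_lit 4) (.e (nat_lit 106536) (nat_lit 11) .nil)))))) (.g (nat_lit 5) .nil .nil))))))) (.nd (nat_lit 2) (.nd (nat_lit 3) (.nd (nat_lit 4) (.nd (nat_lit 5) 
(.lf (nat_lit 133890) (.g (nat_lit 3356) (.e (nat_lit 16436) (nat_lit 9) (.e (nat_lit 426530) (nat_lit 27) (.e (nat_lit 336390) (nat_lit 27) (.e (nat_lit 426098) (nat_lit 1) (.e (nat_lit 164327) (nat_lit 230) (.e (nat_lit 163868) (nat_lit 2) (.e (nat_lit 196654) (nat_lit 11) .nil))))))) (.g (nat_lit 5) .nil .nil))) 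
(.lf (nat_lit 133922) (.g (nat_lit 2880) (.e (nat_lit 16436) (nat_lit 9) (.e (nat_lit 426555) (nat_lit 32) (.e (nat_lit 376857) (nat_lit 21) (.e (nat_lit 57849) (nat_lit 252) (.e (nat_lit 57386) (nat_lit 4) (.e (nat_lit 106535) (nat_lit 11) .nil)))))) (.g (nat_lit 5) .nil .nil)))) (.nd (nat_lit 5) 
(.lf (nat_lit 133906) (.g (nat_lit 2284) (.e (nat_lit 16436) (nat_lit 9) (.e (nat_lit 426555) (nat_lit 32) (.e (nat_lit 376857) (nat_lit 21) (.e (nat_lit 57847) (nat_lit 252) (.e (nat_lit 57353) (nat_lit 0) (.e (nat_lit 2044) (nat_lit 142) (.e (nat_lit 704734) (nat_lit 11) .nil))))))) (.g (nat_lit 4) .nil .nil))) 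
(.lf (nat_lit 133938) (.g (nat_lit 3228) (.e (nat_lit 16436) (nat_lit 9) (.e (nat_lit 426555) (nat_lit 32) (.e (nat_lit 376857) (nat_lit 21) (.e (nat_lit 57853) (nat_lit 252) (.e (nat_lit 57381) (nat_lit 4) (.e (nat_lit 106536) (nat_lit 11) .nil)))))) (.g (nat_lit 0) .nil .nil))))) (.nd (nat_lit 4) (.nd (nat_lit 5) 
(.lf (nat_lit 133898) (.g (nat_lit 1616) (.e (nat_lit 16436) (nat_lit 9) (.e (nat_lit 426550) (nat_lit 31) (.e (nat_lit 368656) (nat_lit 14) (.e (nat_lit 57814) (nat_lit 246) (.e (nat_lit 57608) (nat_lit 107) (.e (nat_lit 704732) (nat_lit 11) .nil)))))) (.g (nat_lit 0) .nil .nil))) 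
(.lf (nat_lit 133930) (.g (nat_lit 2404) (.e (nat_lit 16436) (nat_lit 9) (.e (nat_lit 426555) (nat_lit 32) (.e (nat_lit 376857) (nat_lit 21) (.e (nat_lit 57852) (nat_lit 252) (.e (nat_lit 57354) (nat_lit 0) .nil))))) .nil))) (.nd (nat_lit 5) 
(.lf (nat_lit 133914) (.g (nat_lit 3024) (.e (nat_lit 16436) (nat_lit 9) (.e (nat_lit 426555) (nat_lit 32) (.e (nat_lit 376857) (nat_lit 21) (.e (nat_lit 57848) (nat_lit 252) (.e (nat_lit 57383) (nat_lit 4) (.e (nat_lit 106536) (nat_lit 11) .nil)))))) (.g (nat_lit 0) .nil .nil))) 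
(.lf (nat_lit 133946) (.g (nat_lit 3178) (.e (nat_lit 16436) (nat_lit 9) (.e (nat_lit 426555) (nat_lit 32) (.e (nat_lit 376859) (nat_lit 21) (.e (nat_lit 57844) (nat_lit 252) (.e (nat_lit 57382) (nat_lit 4) (.e (nat_lit 106534) (nat_lit 11) .nil)))))) (.g (nat_lit 0) .nil .nil)))))) (.nd (nat_lit 3) (.nd (nat_lit 4) (.nd (nat_lit 5) 
(.lf (nat_lit 133894) (.g (nat_lit 659) (.e (nat_lit 16436) (nat_lit 9) (.e (nat_lit 426542) (nat_lit 29) (.e (nat_lit 352264) (nat_lit 0) .nil))) .nil)) 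
(.lf (nat_lit 133926) (.g (nat_lit 2347) (.e (nat_lit 16436) (nat_lit 9) (.e (nat_lit 426555) (nat_lit 32) (.e (nat_lit 376857) (nat_lit 21) (.e (nat_lit 57852) (nat_lit 252) (.e (nat_lit 57345) (nat_lit 0) .nil))))) .nil))) (.nd (nat_lit 5) 
(.lf (nat_lit 133910) (.g (nat_lit 1995) (.e (nat_lit 16436) (nat_lit 9) (.e (nat_lit 426555) (nat_lit 32) (.e (nat_lit 376857) (nat_lit 21) (.e (nat_lit 57847) (nat_lit 252) (.e (nat_lit 57384) (nat_lit 4) (.e (nat_lit 106536) (nat_lit 11) .nil)))))) (.g (nat_lit 4) .nil .nil))) 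
(.lf (nat_lit 133942) (.g (nat_lit 2133) (.e (nat_lit 16436) (nat_lit 9) (.e (nat_lit 426555) (nat_lit 32) (.e (nat_lit 376857) (nat_lit 21) (.e (nat_lit 57854) (nat_lit 252) (.e (nat_lit 57356) (nat_lit 0) .nil))))) .nil)))) (.nd (nat_lit 4) (.nd (nat_lit 5) 
(.lf (nat_lit 133902) (.g (nat_lit 3525) (.e (nat_lit 16436) (nat_lit 9) (.e (nat_lit 426555) (nat_lit 32) (.e (nat_lit 376857) (nat_lit 21) (.e (nat_lit 57830) (nat_lit 250) (.e (nat_lit 1183) (nat_lit 87) (.e (nat_lit 57538) (nat_lit 46) (.e (nat_lit 704741) (nat_lit 11) .nil))))))) (.g (nat_lit 5) .nil .nil))) 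
(.lf (nat_lit 133934) (.g (nat_lit 2801) (.e (nat_lit 16436) (nat_lit 9) (.e (nat_lit 426555) (nat_lit 32) (.e (nat_lit 376857) (nat_lit 21) (.e (nat_lit 57852) (nat_lit 252) (.e (nat_lit 57382) (nat_lit 4) (.e (nat_lit 106534) (nat_lit 11) .nil)))))) (.g (nat_lit 4) .nil .nil)))) (.nd (nat_lit 5) 
(.lf (nat_lit 133918) (.g (nat_lit 3214) (.e (nat_lit 16436) (nat_lit 9) (.e (nat_lit 426555) (nat_lit 32) (.e (nat_lit 376857) (nat_lit 21) (.e (nat_lit 57849) (nat_lit 252) (.e (nat_lit 57381) (nat_lit 4) (.e (nat_lit 106536) (nat_lit 11) .nil)))))) (.g (nat_lit 0) .nil .nil))) 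
(.lf (nat_lit 133950) (.g (nat_lit 2141) (.e (nat_lit 16436) (nat_lit 9) (.e (nat_lit 426555) (nat_lit 32) (.e (nat_lit 376859) (nat_lit 21) (.e (nat_lit 57847) (nat_lit 252) (.e (nat_lit 57353) (nat_lit 0) (.e (nat_lit 2044) (nat_lit 142) (.e (nat_lit 704734) (nat_lit 11) .nil))))))) (.g (nat_lit 4) .nil .nil)))))))) 
(.nd (nat_lit 1) (.nd (nat_lit 2) (.nd (nat_lit 3) (.nd (nat_lit 4) (.nd (nat_lit 5) 
(.lf (nat_lit 133889) (.g (nat_lit 2623) (.e (nat_lit 16436) (nat_lit 9) (.e (nat_lit 426530) (nat_lit 27) (.e (nat_lit 336390) (nat_lit 27) (.e (nat_lit 426098) (nat_lit 1) (.e (nat_lit 164325) (nat_lit 230) (.e (nat_lit 163871) (nat_lit 2) (.e (nat_lit 196656) (nat_lit 11) .nil))))))) (.g (nat_lit 4) .nil .nil))) 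
(.lf (nat_lit 133921) (.g (nat_lit 3083) (.e (nat_lit 16436) (nat_lit 9) (.e (nat_lit 426555) (nat_lit 32) (.e (nat_lit 376857) (nat_lit 21) (.e (nat_lit 57849) (nat_lit 252) (.e (nat_lit 57386) (nat_lit 4) (.e (nat_lit 106534) (nat_lit 11) .nil)))))) (.g (nat_lit 0) .nil .nil)))) (.nd (nat_lit 5) 
(.lf (nat_lit 133905) (.g (nat_lit 1827) (.e (nat_lit 16436) (nat_lit 9) (.e (nat_lit 426555) (nat_lit 32) (.e (nat_lit 376857) (nat_lit 21) (.e (nat_lit 57847) (nat_lit 252) (.e (nat_lit 57345) (nat_lit 0) .nil))))) .nil)) 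
(.lf (nat_lit 133937) (.g (nat_lit 2381) (.e (nat_lit 16436) (nat_lit 9) (.e (nat_lit 426555) (nat_lit 32) (.e (nat_lit 376857) (nat_lit 21) (.e (nat_lit 57852) (nat_lit 252) (.e (nat_lit 65280) (nat_lit 4) (.e (nat_lit 106536) (nat_lit 11) .nil)))))) (.g (nat_lit 4) .nil .nil))))) (.nd (nat_lit 4) (.nd (nat_lit 5) 
(.lf (nat_lit 133897) (.g (nat_lit 1661) (.e (nat_lit 16436) (nat_lit 9) (.e (nat_lit 426550) (nat_lit 31) (.e (nat_lit 368656) (nat_lit 14) (.e (nat_lit 57814) (nat_lit 246) (.e (nat_lit 57606) (nat_lit 107) (.e (nat_lit 712448) (nat_lit 11) .nil)))))) (.g (nat_lit 5) .nil .nil))) 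
(.lf (nat_lit 133929) (.g (nat_lit 2721) (.e (nat_lit 16436) (nat_lit 9) (.e (nat_lit 426555) (nat_lit 32) (.e (nat_lit 376857) (nat_lit 21) (.e (nat_lit 57852) (nat_lit 252) (.e (nat_lit 57347) (nat_lit 0) (.e (nat_lit 2080) (nat_lit 142) (.e (nat_lit 704734) (nat_lit 11) .nil))))))) (.g (nat_lit 4) .nil .nil)))) (.nd (nat_lit 5) 
(.lf (nat_lit 133913) (.g (nat_lit 2859) (.e (nat_lit 16436) (nat_lit 9) (.e (nat_lit 426555) (nat_lit 32) (.e (nat_lit 376857) (nat_lit 21) (.e (nat_lit 57848) (nat_lit 252) (.e (nat_lit 57383) (nat_lit 4) (.e (nat_lit 106534) (nat_lit 11) .nil)))))) (.g (nat_lit 0) .nil .nil))) 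
(.lf (nat_lit 133945) (.g (nat_lit 3318) (.e (nat_lit 16436) (nat_lit 9) (.e (nat_lit 426555) (nat_lit 32) (.e (nat_lit 376857) (nat_lit 21) (.e (nat_lit 57854) (nat_lit 252) (.e (nat_lit 57384) (nat_lit 4) (.e (nat_lit 106534) (nat_lit 11) .nil)))))) (.g (nat_lit 0) .nil .nil)))))) (.nd (nat_lit 3) (.nd (nat_lit 4) (.nd (nat_lit 5) 
(.lf (nat_lit 133893) (.g (nat_lit 2456) (.e (nat_lit 16436) (nat_lit 9) (.e (nat_lit 426531) (nat_lit 27) (.e (nat_lit 336194) (nat_lit 12) (.e (nat_lit 385109) (nat_lit 51) (.e (nat_lit 802560) (nat_lit 4) (.e (nat_lit 106536) (nat_lit 11) .nil)))))) (.g (nat_lit 4) .nil .nil))) 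
(.lf (nat_lit 133925) (.g (nat_lit 1168) (.e (nat_lit 16436) (nat_lit 9) (.e (nat_lit 426555) (nat_lit 32) (.e (nat_lit 376857) (nat_lit 21) (.e (nat_lit 57852) (nat_lit 252) .nil)))) .nil))) (.nd (nat_lit 5) 
(.lf (nat_lit 133909) (.g (nat_lit 1821) (.e (nat_lit 16436) (nat_lit 9) (.e (nat_lit 426555) (nat_lit 32) (.e (nat_lit 376857) (nat_lit 21) (.e (nat_lit 57847) (nat_lit 252) (.e (nat_lit 57384) (nat_lit 4) .nil))))) .nil)) 
(.lf (nat_lit 133941) (.g (nat_lit 1888) (.e (nat_lit 16436) (nat_lit 9) (.e (nat_lit 426555) (nat_lit 32) (.e (nat_lit 376857) (nat_lit 21) (.e (nat_lit 57854) (nat_lit 252) (.e (nat_lit 57354) (nat_lit 0) .nil))))) .nil)))) (.nd (nat_lit 4) (.nd (nat_lit 5) 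
(.lf (nat_lit 133901) (.g (nat_lit 3154) (.e (nat_lit 16436) (nat_lit 9) (.e (nat_lit 426555) (nat_lit 32) (.e (nat_lit 376857) (nat_lit 21) (.e (nat_lit 57830) (nat_lit 250) (.e (nat_lit 1183) (nat_lit 87) (.e (nat_lit 57536) (nat_lit 46) (.e (nat_lit 704734) (nat_lit 11) .nil))))))) (.g (nat_lit 5) .nil .nil))) 
(.lf (nat_lit 133933) (.g (nat_lit 2678) (.e (nat_lit 16436) (nat_lit 9) (.e (nat_lit 426555) (nat_lit 32) (.e (nat_lit 376857) (nat_lit 21) (.e (nat_lit 57852) (nat_lit 252) (.e (nat_lit 57380) (nat_lit 4) (.e (nat_lit 106536) (nat_lit 11) .nil)))))) (.g (nat_lit 4) .nil .nil)))) (.nd (nat_lit 5) 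
(.lf (nat_lit 133917) (.g (nat_lit 1711) (.e (nat_lit 16436) (nat_lit 9) (.e (nat_lit 426555) (nat_lit 32) (.e (nat_lit 376857) (nat_lit 21) (.e (nat_lit 57849) (nat_lit 252) (.e (nat_lit 57353) (nat_lit 0) .nil))))) .nil)) 
(.lf (nat_lit 133949) (.g (nat_lit 1753) (.e (nat_lit 16436) (nat_lit 9) (.e (nat_lit 426555) (nat_lit 32) (.e (nat_lit 376859) (nat_lit 21) (.e (nat_lit 57847) (nat_lit 252) (.e (nat_lit 57345) (nat_lit 0) .nil))))) .nil)))))) (.nd (nat_lit 2) (.nd (nat_lit 3) (.nd (nat_lit 4) (.nd (nat_lit 5) 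
(.lf (nat_lit 133891) (.g (nat_lit 3513) (.e (nat_lit 16436) (nat_lit 9) (.e (nat_lit 426530) (nat_lit 27) (.e (nat_lit 336390) (nat_lit 27) (.e (nat_lit 426098) (nat_lit 1) (.e (nat_lit 164327) (nat_lit 230) (.e (nat_lit 163871) (nat_lit 2) (.e (nat_lit 196654) (nat_lit 11) .nil))))))) (.g (nat_lit 5) .nil .nil))) 
(.lf (nat_lit 133923) (.g (nat_lit 1617) (.e (nat_lit 16436) (nat_lit 9) (.e (nat_lit 426555) (nat_lit 32) (.e (nat_lit 376857) (nat_lit 21) (.e (nat_lit 57851) (nat_lit 252) (.e (nat_lit 57354) (nat_lit 0) .nil))))) .nil))) (.nd (nat_lit 5) 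
(.lf (nat_lit 133907) (.g (nat_lit 3055) (.e (nat_lit 16436) (nat_lit 9) (.e (nat_lit 426555) (nat_lit 32) (.e (nat_lit 376857) (nat_lit 21) (.e (nat_lit 57847) (nat_lit 252) (.e (nat_lit 57381) (nat_lit 4) (.e (nat_lit 106536) (nat_lit 11) .nil)))))) (.g (nat_lit 0) .nil .nil))) 
(.lf (nat_lit 133939) (.g (nat_lit 2770) (.e (nat_lit 16436) (nat_lit 9) (.e (nat_lit 426555) (nat_lit 32) (.e (nat_lit 376857) (nat_lit 21) (.e (nat_lit 57853) (nat_lit 252) (.e (nat_lit 57382) (nat_lit 4) (.e (nat_lit 106534) (nat_lit 11) .nil)))))) (.g (nat_lit 5) .nil .nil))))) (.nd (nat_lit 4) (.nd (nat_lit 5) 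
(.lf (nat_lit 133899) (.g (nat_lit 327) (.e (nat_lit 16436) (nat_lit 9) (.e (nat_lit 426555) (nat_lit 32) (.e (nat_lit 376857) (nat_lit 21) .nil))) .nil)) 
(.lf (nat_lit 133931) (.g (nat_lit 2164) (.e (nat_lit 16436) (nat_lit 9) (.e (nat_lit 426555) (nat_lit 32) (.e (nat_lit 376857) (nat_lit 21) (.e (nat_lit 57852) (nat_lit 252) (.e (nat_lit 57359) (nat_lit 0) .nil))))) .nil))) (.nd (nat_lit 5) 
(.lf (nat_lit 133915) (.g (nat_lit 2491) (.e (nat_lit 16436) (nat_lit 9) (.e (nat_lit 426555) (nat_lit 32) (.e (nat_lit 376857) (nat_lit 21) (.e (nat_lit 57848) (nat_lit 252) (.e (nat_lit 57386) (nat_lit 4) (.e (nat_lit 106535) (nat_lit 11) .nil)))))) (.g (nat_lit 4) .nil .nil))) 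
(.lf (nat_lit 133947) (.g (nat_lit 3508) (.e (nat_lit 16436) (nat_lit 9) (.e (nat_lit 426555) (nat_lit 32) (.e (nat_lit 376859) (nat_lit 21) (.e (nat_lit 57844) (nat_lit 252) (.e (nat_lit 57382) (nat_lit 4) (.e (nat_lit 106536) (nat_lit 11) .nil)))))) (.g (nat_lit 0) .nil .nil)))))) (.nd (nat_lit 3) (.nd (nat_lit 4) (.nd (nat_lit 5) 
(.lf (nat_lit 133895) (.g (nat_lit 234) (.e (nat_lit 16436) (nat_lit 9) (.e (nat_lit 426550) (nat_lit 31) (.e (nat_lit 376576) (nat_lit 5) .nil))) .nil)) 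
(.lf (nat_lit 133927) (.g (nat_lit 2302) (.e (nat_lit 16436) (nat_lit 9) (.e (nat_lit 426555) (nat_lit 32) (.e (nat_lit 376857) (nat_lit 21) (.e (nat_lit 57852) (nat_lit 252) (.e (nat_lit 57347) (nat_lit 0) .nil))))) .nil))) (.nd (nat_lit 5) 
(.lf (nat_lit 133911) (.g (nat_lit 2919) (.e (nat_lit 16436) (nat_lit 9) (.e (nat_lit 426555) (nat_lit 32) (.e (nat_lit 376857) (nat_lit 21) (.e (nat_lit 57847) (nat_lit 252) (.e (nat_lit 57385) (nat_lit 4) (.e (nat_lit 106534) (nat_lit 11) .nil)))))) (.g (nat_lit 0) .nil .nil))) 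
(.lf (nat_lit 133943) (.g (nat_lit 3086) (.e (nat_lit 16436) (nat_lit 9) (.e (nat_lit 426555) (nat_lit 32) (.e (nat_lit 376857) (nat_lit 21) (.e (nat_lit 57854) (nat_lit 252) (.e (nat_lit 57381) (nat_lit 4) (.e (nat_lit 106536) (nat_lit 11) .nil)))))) (.g (nat_lit 0) .nil .nil))))) (.nd (nat_lit 4) (.nd (nat_lit 5) 
(.lf (nat_lit 133903) (.g (nat_lit 2571) (.e (nat_lit 16436) (nat_lit 9) (.e (nat_lit 426555) (nat_lit 32) (.e (nat_lit 376857) (nat_lit 21) (.e (nat_lit 57844) (nat_lit 252) (.e (nat_lit 57382) (nat_lit 4) (.e (nat_lit 106534) (nat_lit 11) .nil)))))) (.g (nat_lit 5) .nil .nil))) 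
(.lf (nat_lit 133935) (.g (nat_lit 3032) (.e (nat_lit 16436) (nat_lit 9) (.e (nat_lit 426555) (nat_lit 32) (.e (nat_lit 376857) (nat_lit 21) (.e (nat_lit 57852) (nat_lit 252) (.e (nat_lit 57382) (nat_lit 4) (.e (nat_lit 106536) (nat_lit 11) .nil)))))) (.g (nat_lit 5) .nil .nil)))) (.nd (nat_lit 5) 
(.lf (nat_lit 133919) (.g (nat_lit 3221) (.e (nat_lit 16436) (nat_lit 9) (.e (nat_lit 426555) (nat_lit 32) (.e (nat_lit 376857) (nat_lit 21) (.e (nat_lit 57849) (nat_lit 252) (.e (nat_lit 57383) (nat_lit 4) (.e (nat_lit 106536) (nat_lit 11) .nil)))))) (.g (nat_lit 0) .nil .nil))) 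
(.lf (nat_lit 133951) (.g (nat_lit 2885) (.e (nat_lit 16436) (nat_lit 9) (.e (nat_lit 426555) (nat_lit 32) (.e (nat_lit 376859) (nat_lit 21) (.e (nat_lit 57847) (nat_lit 252) (.e (nat_lit 57381) (nat_lit 4) (.e (nat_lit 106536) (nat_lit 11) .nil)))))) (.g (nat_lit 0) .nil .nil)))))))))

noncomputable def tv1786 : DT := (.nd (nat_lit 0) (.nd (nat_lit 1) (.nd (nat_lit 2) (.nd (nat_lit 3) (.nd (nat_lit 4) (.nd (nat_lit 5) 
(.lf (nat_lit 133952) (.g (nat_lit 2894) (.e (nat_lit 16436) (nat_lit 9) (.e (nat_lit 426555) (nat_lit 32) (.e (nat_lit 376859) (nat_lit 21) (.e (nat_lit 57847) (nat_lit 252) (.e (nat_lit 57383) (nat_lit 4) (.e (nat_lit 106536) (nat_lit 11) .nil)))))) (.g (nat_lit 0) .nil .nil))) 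
(.lf (nat_lit 133984) (.g (nat_lit 3023) (.e (nat_lit 16436) (nat_lit 9) (.e (nat_lit 426555) (nat_lit 32) (.e (nat_lit 376860) (nat_lit 21) (.e (nat_lit 57852) (nat_lit 252) (.e (nat_lit 57382) (nat_lit 4) (.e (nat_lit 106534) (nat_lit 11) .nil)))))) (.g (nat_lit 4) .nil .nil)))) (.nd (nat_lit 5) 
(.lf (nat_lit 133968) (.g (nat_lit 1983) (.e (nat_lit 16436) (nat_lit 9) (.e (nat_lit 426555) (nat_lit 32) (.e (nat_lit 376859) (nat_lit 21) (.e (nat_lit 57851) (nat_lit 252) (.e (nat_lit 57382) (nat_lit 4) (.e (nat_lit 106536) (nat_lit 11) .nil)))))) (.g (nat_lit 4) .nil .nil))) 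
(.lf (nat_lit 134000) (.g (nat_lit 2989) (.e (nat_lit 16436) (nat_lit 9) (.e (nat_lit 426564) (nat_lit 34) (.e (nat_lit 393252) (nat_lit 18) (.e (nat_lit 164332) (nat_lit 230) (.e (nat_lit 163869) (nat_lit 2) (.e (nat_lit 196656) (nat_lit 11) .nil)))))) (.g (nat_lit 5) .nil .nil))))) (.nd (nat_lit 4) (.nd (nat_lit 5) 
(.lf (nat_lit 133960) (.g (nat_lit 1926) (.e (nat_lit 16436) (nat_lit 9) (.e (nat_lit 426555) (nat_lit 32) (.e (nat_lit 376859) (nat_lit 21) (.e (nat_lit 57849) (nat_lit 252) (.e (nat_lit 57348) (nat_lit 0) (.e (nat_lit 2044) (nat_lit 142) (.e (nat_lit 704734) (nat_lit 11) .nil))))))) (.g (nat_lit 4) .nil .nil))) 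
(.lf (nat_lit 133992) (.g (nat_lit 3136) (.e (nat_lit 16436) (nat_lit 9) (.e (nat_lit 426555) (nat_lit 32) (.e (nat_lit 376860) (nat_lit 21) (.e (nat_lit 57854) (nat_lit 252) (.e (nat_lit 57381) (nat_lit 4) (.e (nat_lit 106536) (nat_lit 11) .nil)))))) (.g (nat_lit 0) .nil .nil)))) (.nd (nat_lit 5) 
(.lf (nat_lit 133976) (.g (nat_lit 2462) (.e (nat_lit 16436) (nat_lit 9) (.e (nat_lit 426555) (nat_lit 32) (.e (nat_lit 376860) (nat_lit 21) (.e (nat_lit 57852) (nat_lit 252) (.e (nat_lit 57347) (nat_lit 0) .nil))))) .nil)) 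
(.lf (nat_lit 134008) (.g (nat_lit 3464) (.e (nat_lit 16436) (nat_lit 9) (.e (nat_lit 426566) (nat_lit 34) (.e (nat_lit 393251) (nat_lit 18) (.e (nat_lit 164331) (nat_lit 230) (.e (nat_lit 163867) (nat_lit 2) (.e (nat_lit 196654) (nat_lit 11) .nil)))))) (.g (nat_lit 6) .nil .nil)))))) (.nd (nat_lit 3) (.nd (nat_lit 4) (.nd (nat_lit 5) 
(.lf (nat_lit 133956) (.g (nat_lit 2849) (.e (nat_lit 16436) (nat_lit 9) (.e (nat_lit 426555) (nat_lit 32) (.e (nat_lit 376859) (nat_lit 21) (.e (nat_lit 57847) (nat_lit 252) (.e (nat_lit 57386) (nat_lit 4) (.e (nat_lit 106534) (nat_lit 11) .nil)))))) (.g (nat_lit 0) .nil .nil))) 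
(.lf (nat_lit 133988) (.g (nat_lit 3273) (.e (nat_lit 16436) (nat_lit 9) (.e (nat_lit 426555) (nat_lit 32) (.e (nat_lit 376860) (nat_lit 21) (.e (nat_lit 57853) (nat_lit 252) (.e (nat_lit 57381) (nat_lit 4) (.e (nat_lit 106536) (nat_lit 11) .nil)))))) (.g (nat_lit 0) .nil .nil)))) (.nd (nat_lit 5) 
(.lf (nat_lit 133972) (.g (nat_lit 1704) (.e (nat_lit 16436) (nat_lit 9) (.e (nat_lit 426555) (nat_lit 32) (.e (nat_lit 376860) (nat_lit 21) (.e (nat_lit 57851) (nat_lit 252) (.e (nat_lit 57347) (nat_lit 0) .nil))))) .nil)) 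
(.lf (nat_lit 134004) (.g (nat_lit 3499) (.e (nat_lit 16436) (nat_lit 9) (.e (nat_lit 426566) (nat_lit 34) (.e (nat_lit 393251) (nat_lit 18) (.e (nat_lit 164325) (nat_lit 230) (.e (nat_lit 163868) (nat_lit 2) (.e (nat_lit 196654) (nat_lit 11) .nil)))))) (.g (nat_lit 0) .nil .nil))))) (.nd (nat_lit 4) (.nd (nat_lit 5) 
(.lf (nat_lit 133964) (.g (nat_lit 2839) (.e (nat_lit 16436) (nat_lit 9) (.e (nat_lit 426555) (nat_lit 32) (.e (nat_lit 376859) (nat_lit 21) (.e (nat_lit 57849) (nat_lit 252) (.e (nat_lit 57385) (nat_lit 4) (.e (nat_lit 106534) (nat_lit 11) .nil)))))) (.g (nat_lit 0) .nil .nil))) 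
(.lf (nat_lit 133996) (.g (nat_lit 2040) (.e (nat_lit 16436) (nat_lit 9) (.e (nat_lit 426562) (nat_lit 33) (.e (nat_lit 385041) (nat_lit 19) (.e (nat_lit 164288) (nat_lit 224) (.e (nat_lit 164092) (nat_lit 82) (.e (nat_lit 500046) (nat_lit 16) .nil)))))) (.g (nat_lit 0) .nil .nil)))) (.nd (nat_lit 5) 
(.lf (nat_lit 133980) (.g (nat_lit 2518) (.e (nat_lit 16436) (nat_lit 9) (.e (nat_lit 426555) (nat_lit 32) (.e (nat_lit 376860) (nat_lit 21) (.e (nat_lit 57852) (nat_lit 252) (.e (nat_lit 57357) (nat_lit 0) .nil))))) .nil)) 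
(.lf (nat_lit 134012) (.g (nat_lit 3314) (.e (nat_lit 16436) (nat_lit 9) (.e (nat_lit 426566) (nat_lit 34) (.e (nat_lit 393252) (nat_lit 18) (.e (nat_lit 164330) (nat_lit 230) (.e (nat_lit 163869) (nat_lit 2) (.e (nat_lit 196654) (nat_lit 11) .nil)))))) (.g (nat_lit 0) .nil .nil))))))) (.nd (nat_lit 2) (.nd (nat_lit 3) (.nd (nat_lit 4) (.nd (nat_lit 5) 
(.lf (nat_lit 133954) (.g (nat_lit 1928) (.e (nat_lit 16436) (nat_lit 9) (.e (nat_lit 426555) (nat_lit 32) (.e (nat_lit 376859) (nat_lit 21) (.e (nat_lit 57847) (nat_lit 252) (.e (nat_lit 57384) (nat_lit 4) (.e (nat_lit 106536) (nat_lit 11) .nil)))))) (.g (nat_lit 4) .nil .nil))) 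
(.lf (nat_lit 133986) (.g (nat_lit 3206) (.e (nat_lit 16436) (nat_lit 9) (.e (nat_lit 426555) (nat_lit 32) (.e (nat_lit 376860) (nat_lit 21) (.e (nat_lit 57852) (nat_lit 252) (.e (nat_lit 57384) (nat_lit 4) (.e (nat_lit 106534) (nat_lit 11) .nil)))))) (.g (nat_lit 6) .nil .nil)))) (.nd (nat_lit 5) 
(.lf (nat_lit 133970) (.g (nat_lit 2359) (.e (nat_lit 16436) (nat_lit 9) (.e (nat_lit 426555) (nat_lit 32) (.e (nat_lit 376860) (nat_lit 21) (.e (nat_lit 57830) (nat_lit 250) (.e (nat_lit 1016) (nat_lit 81) (.e (nat_lit 7936) (nat_lit 93) (.e (nat_lit 106536) (nat_lit 11) .nil))))))) (.g (nat_lit 4) .nil .nil))) 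
(.lf (nat_lit 134002) (.g (nat_lit 3423) (.e (nat_lit 16436) (nat_lit 9) (.e (nat_lit 426566) (nat_lit 34) (.e (nat_lit 393251) (nat_lit 18) (.e (nat_lit 164325) (nat_lit 230) (.e (nat_lit 163866) (nat_lit 2) (.e (nat_lit 196654) (nat_lit 11) .nil)))))) (.g (nat_lit 0) .nil .nil))))) (.nd (nat_lit 4) (.nd (nat_lit 5) 
(.lf (nat_lit 133962) (.g (nat_lit 3139) (.e (nat_lit 16436) (nat_lit 9) (.e (nat_lit 426555) (nat_lit 32) (.e (nat_lit 376859) (nat_lit 21) (.e (nat_lit 57849) (nat_lit 252) (.e (nat_lit 57381) (nat_lit 4) (.e (nat_lit 106536) (nat_lit 11) .nil)))))) (.g (nat_lit 0) .nil .nil))) 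
(.lf (nat_lit 133994) (.g (nat_lit 3850) (.e (nat_lit 16436) (nat_lit 9) (.e (nat_lit 426555) (nat_lit 32) (.e (nat_lit 376860) (nat_lit 21) (.e (nat_lit 57854) (nat_lit 252) (.e (nat_lit 57382) (nat_lit 4) (.e (nat_lit 106536) (nat_lit 11) .nil)))))) (.g (nat_lit 0) .nil .nil)))) (.nd (nat_lit 5) 
(.lf (nat_lit 133978) (.g (nat_lit 2570) (.e (nat_lit 16436) (nat_lit 9) (.e (nat_lit 426555) (nat_lit 32) (.e (nat_lit 376860) (nat_lit 21) (.e (nat_lit 57852) (nat_lit 252) (.e (nat_lit 57354) (nat_lit 0) .nil))))) .nil)) 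
(.lf (nat_lit 134010) (.g (nat_lit 3910) (.e (nat_lit 16436) (nat_lit 9) (.e (nat_lit 426566) (nat_lit 34) (.e (nat_lit 393251) (nat_lit 18) (.e (nat_lit 164332) (nat_lit 230) (.e (nat_lit 163869) (nat_lit 2) (.e (nat_lit 196654) (nat_lit 11) .nil)))))) (.g (nat_lit 0) .nil .nil)))))) (.nd (nat_lit 3) (.nd (nat_lit 4) (.nd (nat_lit 5) 
(.lf (nat_lit 133958) (.g (nat_lit 2724) (.e (nat_lit 16436) (nat_lit 9) (.e (nat_lit 426555) (nat_lit 32) (.e (nat_lit 376859) (nat_lit 21) (.e (nat_lit 57848) (nat_lit 252) (.e (nat_lit 57383) (nat_lit 4) (.e (nat_lit 106534) (nat_lit 11) .nil)))))) (.g (nat_lit 0) .nil .nil))) 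
(.lf (nat_lit 133990) (.g (nat_lit 1889) (.e (nat_lit 16436) (nat_lit 9) (.e (nat_lit 426555) (nat_lit 32) (.e (nat_lit 376860) (nat_lit 21) (.e (nat_lit 57854) (nat_lit 252) (.e (nat_lit 57354) (nat_lit 0) .nil))))) .nil))) (.nd (nat_lit 5) 
(.lf (nat_lit 133974) (.g (nat_lit 1271) (.e (nat_lit 16436) (nat_lit 9) (.e (nat_lit 426555) (nat_lit 32) (.e (nat_lit 376860) (nat_lit 21) (.e (nat_lit 57852) (nat_lit 252) .nil)))) .nil)) 
(.lf (nat_lit 134006) (.g (nat_lit 3386) (.e (nat_lit 16436) (nat_lit 9) (.e (nat_lit 426566) (nat_lit 34) (.e (nat_lit 393251) (nat_lit 18) (.e (nat_lit 164325) (nat_lit 230) (.e (nat_lit 163871) (nat_lit 2) (.e (nat_lit 196654) (nat_lit 11) .nil)))))) (.g (nat_lit 0) .nil .nil))))) (.nd (nat_lit 4) (.nd (nat_lit 5) 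
(.lf (nat_lit 133966) (.g (nat_lit 3094) (.e (nat_lit 16436) (nat_lit 9) (.e (nat_lit 426555) (nat_lit 32) (.e (nat_lit 376859) (nat_lit 21) (.e (nat_lit 57849) (nat_lit 252) (.e (nat_lit 57386) (nat_lit 4) (.e (nat_lit 106535) (nat_lit 11) .nil)))))) (.g (nat_lit 5) .nil .nil))) 
(.lf (nat_lit 133998) (.g (nat_lit 2049) (.e (nat_lit 16436) (nat_lit 9) (.e (nat_lit 426562) (nat_lit 33) (.e (nat_lit 385041) (nat_lit 19) (.e (nat_lit 164294) (nat_lit 224) (.e (nat_lit 164092) (nat_lit 82) (.e (nat_lit 500046) (nat_lit 16) .nil)))))) (.g (nat_lit 0) .nil .nil)))) (.nd (nat_lit 5) 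
(.lf (nat_lit 133982) (.g (nat_lit 3514) (.e (nat_lit 16436) (nat_lit 9) (.e (nat_lit 426555) (nat_lit 32) (.e (nat_lit 376860) (nat_lit 21) (.e (nat_lit 57852) (nat_lit 252) (.e (nat_lit 57361) (nat_lit 0) (.e (nat_lit 2143) (nat_lit 142) (.e (nat_lit 704741) (nat_lit 11) .nil))))))) (.g (nat_lit 4) .nil .nil))) 
(.lf (nat_lit 134014) (.g (nat_lit 2895) (.e (nat_lit 16436) (nat_lit 9) (.e (nat_lit 426566) (nat_lit 34) (.e (nat_lit 393252) (nat_lit 18) (.e (nat_lit 164332) (nat_lit 230) (.e (nat_lit 163866) (nat_lit 2) (.e (nat_lit 196654) (nat_lit 11) .nil)))))) (.g (nat_lit 0) .nil .nil)))))))) (.nd (nat_lit 1) (.nd (nat_lit 2) (.nd (nat_lit 3) (.nd (nat_lit 4) (.nd (nat_lit 5) 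
(.lf (nat_lit 133953) (.g (nat_lit 1747) (.e (nat_lit 16436) (nat_lit 9) (.e (nat_lit 426555) (nat_lit 32) (.e (nat_lit 376859) (nat_lit 21) (.e (nat_lit 57847) (nat_lit 252) (.e (nat_lit 57384) (nat_lit 4) .nil))))) .nil)) 
(.lf (nat_lit 133985) (.g (nat_lit 3252) (.e (nat_lit 16436) (nat_lit 9) (.e (nat_lit 426555) (nat_lit 32) (.e (nat_lit 376860) (nat_lit 21) (.e (nat_lit 57852) (nat_lit 252) (.e (nat_lit 57382) (nat_lit 4) (.e (nat_lit 106536) (nat_lit 11) .nil)))))) (.g (nat_lit 5) .nil .nil)))) (.nd (nat_lit 5) 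
(.lf (nat_lit 133969) (.g (nat_lit 1987) (.e (nat_lit 16436) (nat_lit 9) (.e (nat_lit 426555) (nat_lit 32) (.e (nat_lit 376859) (nat_lit 21) (.e (nat_lit 57853) (nat_lit 252) (.e (nat_lit 57381) (nat_lit 4) (.e (nat_lit 106536) (nat_lit 11) .nil)))))) (.g (nat_lit 4) .nil .nil))) 
(.lf (nat_lit 134001) (.g (nat_lit 1762) (.e (nat_lit 16436) (nat_lit 9) (.e (nat_lit 426566) (nat_lit 34) (.e (nat_lit 393251) (nat_lit 18) (.e (nat_lit 164323) (nat_lit 230) .nil)))) .nil)))) (.nd (nat_lit 4) (.nd (nat_lit 5) 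
(.lf (nat_lit 133961) (.g (nat_lit 1697) (.e (nat_lit 16436) (nat_lit 9) (.e (nat_lit 426555) (nat_lit 32) (.e (nat_lit 376859) (nat_lit 21) (.e (nat_lit 57849) (nat_lit 252) (.e (nat_lit 57353) (nat_lit 0) .nil))))) .nil)) 
(.lf (nat_lit 133993) (.g (nat_lit 3477) (.e (nat_lit 16436) (nat_lit 9) (.e (nat_lit 426555) (nat_lit 32) (.e (nat_lit 376860) (nat_lit 21) (.e (nat_lit 57854) (nat_lit 252) (.e (nat_lit 57382) (nat_lit 4) (.e (nat_lit 106534) (nat_lit 11) .nil)))))) (.g (nat_lit 0) .nil .nil)))) (.nd (nat_lit 5) 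
(.lf (nat_lit 133977) (.g (nat_lit 2982) (.e (nat_lit 16436) (nat_lit 9) (.e (nat_lit 426555) (nat_lit 32) (.e (nat_lit 376860) (nat_lit 21) (.e (nat_lit 57852) (nat_lit 252) (.e (nat_lit 57347) (nat_lit 0) (.e (nat_lit 2080) (nat_lit 142) (.e (nat_lit 704734) (nat_lit 11) .nil))))))) (.g (nat_lit 4) .nil .nil))) 
(.lf (nat_lit 134009) (.g (nat_lit 3372) (.e (nat_lit 16436) (nat_lit 9) (.e (nat_lit 426566) (nat_lit 34) (.e (nat_lit 393251) (nat_lit 18) (.e (nat_lit 164332) (nat_lit 230) (.e (nat_lit 163867) (nat_lit 2) (.e (nat_lit 196654) (nat_lit 11) .nil)))))) (.g (nat_lit 0) .nil .nil)))))) (.nd (nat_lit 3) (.nd (nat_lit 4) (.nd (nat_lit 5) 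
(.lf (nat_lit 133957) (.g (nat_lit 1767) (.e (nat_lit 16436) (nat_lit 9) (.e (nat_lit 426555) (nat_lit 32) (.e (nat_lit 376859) (nat_lit 21) (.e (nat_lit 57848) (nat_lit 252) (.e (nat_lit 57381) (nat_lit 4) (.e (nat_lit 106536) (nat_lit 11) .nil)))))) (.g (nat_lit 4) .nil .nil))) 
(.lf (nat_lit 133989) (.g (nat_lit 2805) (.e (nat_lit 16436) (nat_lit 9) (.e (nat_lit 426555) (nat_lit 32) (.e (nat_lit 376860) (nat_lit 21) (.e (nat_lit 57853) (nat_lit 252) (.e (nat_lit 57382) (nat_lit 4) (.e (nat_lit 106534) (nat_lit 11) .nil)))))) (.g (nat_lit 5) .nil .nil)))) (.nd (nat_lit 5) 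
(.lf (nat_lit 133973) (.g (nat_lit 2410) (.e (nat_lit 16436) (nat_lit 9) (.e (nat_lit 426555) (nat_lit 32) (.e (nat_lit 376860) (nat_lit 21) (.e (nat_lit 57851) (nat_lit 252) (.e (nat_lit 57382) (nat_lit 4) (.e (nat_lit 106534) (nat_lit 11) .nil)))))) (.g (nat_lit 5) .nil .nil))) 
(.lf (nat_lit 134005) (.g (nat_lit 3581) (.e (nat_lit 16436) (nat_lit 9) (.e (nat_lit 426566) (nat_lit 34) (.e (nat_lit 393251) (nat_lit 18) (.e (nat_lit 164325) (nat_lit 230) (.e (nat_lit 163869) (nat_lit 2) (.e (nat_lit 196654) (nat_lit 11) .nil)))))) (.g (nat_lit 0) .nil .nil))))) (.nd (nat_lit 4) (.nd (nat_lit 5) 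
(.lf (nat_lit 133965) (.g (nat_lit 3054) (.e (nat_lit 16436) (nat_lit 9) (.e (nat_lit 426555) (nat_lit 32) (.e (nat_lit 376859) (nat_lit 21) (.e (nat_lit 57849) (nat_lit 252) (.e (nat_lit 57386) (nat_lit 4) (.e (nat_lit 106534) (nat_lit 11) .nil)))))) (.g (nat_lit 0) .nil .nil))) 
(.lf (nat_lit 133997) (.g (nat_lit 2051) (.e (nat_lit 16436) (nat_lit 9) (.e (nat_lit 426562) (nat_lit 33) (.e (nat_lit 385041) (nat_lit 19) (.e (nat_lit 164292) (nat_lit 224) (.e (nat_lit 164092) (nat_lit 82) (.e (nat_lit 500046) (nat_lit 16) .nil)))))) (.g (nat_lit 0) .nil .nil)))) (.nd (nat_lit 5) 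
(.lf (nat_lit 133981) (.g (nat_lit 2326) (.e (nat_lit 16436) (nat_lit 9) (.e (nat_lit 426555) (nat_lit 32) (.e (nat_lit 376860) (nat_lit 21) (.e (nat_lit 57852) (nat_lit 252) (.e (nat_lit 57359) (nat_lit 0) .nil))))) .nil)) 
(.lf (nat_lit 134013) (.g (nat_lit 2335) (.e (nat_lit 16436) (nat_lit 9) (.e (nat_lit 426566) (nat_lit 34) (.e (nat_lit 393252) (nat_lit 18) (.e (nat_lit 164331) (nat_lit 230) (.e (nat_lit 163867) (nat_lit 2) .nil))))) .nil)))))) (.nd (nat_lit 2) (.nd (nat_lit 3) (.nd (nat_lit 4) (.nd (nat_lit 5) 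
(.lf (nat_lit 133955) (.g (nat_lit 2738) (.e (nat_lit 16436) (nat_lit 9) (.e (nat_lit 426555) (nat_lit 32) (.e (nat_lit 376859) (nat_lit 21) (.e (nat_lit 57847) (nat_lit 252) (.e (nat_lit 57385) (nat_lit 4) (.e (nat_lit 106534) (nat_lit 11) .nil)))))) (.g (nat_lit 0) .nil .nil))) 
(.lf (nat_lit 133987) (.g (nat_lit 2648) (.e (nat_lit 16436) (nat_lit 9) (.e (nat_lit 426555) (nat_lit 32) (.e (nat_lit 376860) (nat_lit 21) (.e (nat_lit 57852) (nat_lit 252) (.e (nat_lit 65280) (nat_lit 4) (.e (nat_lit 106536) (nat_lit 11) .nil)))))) (.g (nat_lit 4) .nil .nil)))) (.nd (nat_lit 5) 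
(.lf (nat_lit 133971) (.g (nat_lit 2464) (.e (nat_lit 16436) (nat_lit 9) (.e (nat_lit 426555) (nat_lit 32) (.e (nat_lit 376860) (nat_lit 21) (.e (nat_lit 57844) (nat_lit 252) (.e (nat_lit 57382) (nat_lit 4) (.e (nat_lit 106534) (nat_lit 11) .nil)))))) (.g (nat_lit 4) .nil .nil))) 
(.lf (nat_lit 134003) (.g (nat_lit 2420) (.e (nat_lit 16436) (nat_lit 9) (.e (nat_lit 426566) (nat_lit 34) (.e (nat_lit 393251) (nat_lit 18) (.e (nat_lit 164325) (nat_lit 230) (.e (nat_lit 163867) (nat_lit 2) (.e (nat_lit 196654) (nat_lit 11) .nil)))))) (.g (nat_lit 4) .nil .nil))))) (.nd (nat_lit 4) (.nd (nat_lit 5) 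
(.lf (nat_lit 133963) (.g (nat_lit 3151) (.e (nat_lit 16436) (nat_lit 9) (.e (nat_lit 426555) (nat_lit 32) (.e (nat_lit 376859) (nat_lit 21) (.e (nat_lit 57849) (nat_lit 252) (.e (nat_lit 57383) (nat_lit 4) (.e (nat_lit 106536) (nat_lit 11) .nil)))))) (.g (nat_lit 0) .nil .nil))) 
(.lf (nat_lit 133995) (.g (nat_lit 3376) (.e (nat_lit 16436) (nat_lit 9) (.e (nat_lit 426555) (nat_lit 32) (.e (nat_lit 376860) (nat_lit 21) (.e (nat_lit 57854) (nat_lit 252) (.e (nat_lit 57384) (nat_lit 4) (.e (nat_lit 106534) (nat_lit 11) .nil)))))) (.g (nat_lit 0) .nil .nil)))) (.nd (nat_lit 5) 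
(.lf (nat_lit 133979) (.g (nat_lit 2648) (.e (nat_lit 16436) (nat_lit 9) (.e (nat_lit 426555) (nat_lit 32) (.e (nat_lit 376860) (nat_lit 21) (.e (nat_lit 57852) (nat_lit 252) (.e (nat_lit 57354) (nat_lit 0) (.e (nat_lit 2044) (nat_lit 142) (.e (nat_lit 704734) (nat_lit 11) .nil))))))) (.g (nat_lit 4) .nil .nil))) 
(.lf (nat_lit 134011) (.g (nat_lit 3114) (.e (nat_lit 16436) (nat_lit 9) (.e (nat_lit 426566) (nat_lit 34) (.e (nat_lit 393252) (nat_lit 18) (.e (nat_lit 164330) (nat_lit 230) (.e (nat_lit 163867) (nat_lit 2) (.e (nat_lit 196654) (nat_lit 11) .nil)))))) (.g (nat_lit 0) .nil .nil)))))) (.nd (nat_lit 3) (.nd (nat_lit 4) (.nd (nat_lit 5) 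
(.lf (nat_lit 133959) (.g (nat_lit 2590) (.e (nat_lit 16436) (nat_lit 9) (.e (nat_lit 426555) (nat_lit 32) (.e (nat_lit 376859) (nat_lit 21) (.e (nat_lit 57848) (nat_lit 252) (.e (nat_lit 57386) (nat_lit 4) (.e (nat_lit 106535) (nat_lit 11) .nil)))))) (.g (nat_lit 4) .nil .nil))) 
(.lf (nat_lit 133991) (.g (nat_lit 2451) (.e (nat_lit 16436) (nat_lit 9) (.e (nat_lit 426555) (nat_lit 32) (.e (nat_lit 376860) (nat_lit 21) (.e (nat_lit 57854) (nat_lit 252) (.e (nat_lit 57354) (nat_lit 0) (.e (nat_lit 2044) (nat_lit 142) (.e (nat_lit 704734) (nat_lit 11) .nil))))))) (.g (nat_lit 4) .nil .nil)))) (.nd (nat_lit 5) 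
(.lf (nat_lit 133975) (.g (nat_lit 2495) (.e (nat_lit 16436) (nat_lit 9) (.e (nat_lit 426555) (nat_lit 32) (.e (nat_lit 376860) (nat_lit 21) (.e (nat_lit 57852) (nat_lit 252) (.e (nat_lit 57345) (nat_lit 0) .nil))))) .nil)) 
(.lf (nat_lit 134007) (.g (nat_lit 2189) (.e (nat_lit 16436) (nat_lit 9) (.e (nat_lit 426566) (nat_lit 34) (.e (nat_lit 393251) (nat_lit 18) (.e (nat_lit 164330) (nat_lit 230) .nil)))) .nil)))) (.nd (nat_lit 4) (.nd (nat_lit 5) 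
(.lf (nat_lit 133967) (.g (nat_lit 1805) (.e (nat_lit 16436) (nat_lit 9) (.e (nat_lit 426555) (nat_lit 32) (.e (nat_lit 376859) (nat_lit 21) (.e (nat_lit 57851) (nat_lit 252) (.e (nat_lit 57382) (nat_lit 4) (.e (nat_lit 106534) (nat_lit 11) .nil)))))) (.g (nat_lit 4) .nil .nil))) 
(.lf (nat_lit 133999) (.g (nat_lit 3449) (.e (nat_lit 16436) (nat_lit 9) (.e (nat_lit 426564) (nat_lit 34) (.e (nat_lit 393251) (nat_lit 18) (.e (nat_lit 164332) (nat_lit 230) (.e (nat_lit 163869) (nat_lit 2) (.e (nat_lit 196656) (nat_lit 11) .nil)))))) (.g (nat_lit 5) .nil .nil)))) (.nd (nat_lit 5) 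
(.lf (nat_lit 133983) (.g (nat_lit 2889) (.e (nat_lit 16436) (nat_lit 9) (.e (nat_lit 426555) (nat_lit 32) (.e (nat_lit 376860) (nat_lit 21) (.e (nat_lit 57852) (nat_lit 252) (.e (nat_lit 57380) (nat_lit 4) (.e (nat_lit 106536) (nat_lit 11) .nil)))))) (.g (nat_lit 4) .nil .nil))) 
(.lf (nat_lit 134015) (.g (nat_lit 3130) (.e (nat_lit 16436) (nat_lit 9) (.e (nat_lit 426566) (nat_lit 34) (.e (nat_lit 393252) (nat_lit 18) (.e (nat_lit 164332) (nat_lit 230) (.e (nat_lit 163867) (nat_lit 2) (.e (nat_lit 196654) (nat_lit 11) .nil)))))) (.g (nat_lit 0) .nil .nil)))))))))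

noncomputable def tv1787 : DT := (.nd (nat_lit 0) (.nd (nat_lit 1) (.nd (nat_lit 2) (.nd (nat_lit 3) (.nd (nat_lit 4) (.nd (nat_lit 5) 
(.lf (nat_lit 134016) (.g (nat_lit 3574) (.e (nat_lit 16436) (nat_lit 9) (.e (nat_lit 426566) (nat_lit 34) (.e (nat_lit 393252) (nat_lit 18) (.e (nat_lit 164332) (nat_lit 230) (.e (nat_lit 163869) (nat_lit 2) (.e (nat_lit 196654) (nat_lit 11) .nil)))))) (.g (nat_lit 0) .nil .nil))) 
(.lf (nat_lit 134048) (.g (nat_lit 3629) (.e (nat_lit 16436) (nat_lit 9) (.e (nat_lit 426566) (nat_lit 34) (.e (nat_lit 393253) (nat_lit 18) (.e (nat_lit 164331) (nat_lit 230) (.e (nat_lit 163867) (nat_lit 2) (.e (nat_lit 196654) (nat_lit 11) .nil)))))) (.g (nat_lit 0) .nil .nil)))) (.nd (nat_lit 5) 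
(.lf (nat_lit 134032) (.g (nat_lit 2690) (.e (nat_lit 16436) (nat_lit 9) (.e (nat_lit 426566) (nat_lit 34) (.e (nat_lit 393253) (nat_lit 18) (.e (nat_lit 164326) (nat_lit 230) (.e (nat_lit 163866) (nat_lit 2) (.e (nat_lit 196654) (nat_lit 11) .nil)))))) (.g (nat_lit 0) .nil .nil))) 
(.lf (nat_lit 134064) (.g (nat_lit 2978) (.e (nat_lit 16436) (nat_lit 9) (.e (nat_lit 426566) (nat_lit 34) (.e (nat_lit 393254) (nat_lit 18) (.e (nat_lit 164326) (nat_lit 230) (.e (nat_lit 163868) (nat_lit 2) (.e (nat_lit 196654) (nat_lit 11) .nil)))))) (.g (nat_lit 0) .nil .nil))))) (.nd (nat_lit 4) (.nd (nat_lit 5) 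
(.lf (nat_lit 134024) (.g (nat_lit 3622) (.e (nat_lit 16436) (nat_lit 9) (.e (nat_lit 426566) (nat_lit 34) (.e (nat_lit 393253) (nat_lit 18) (.e (nat_lit 164324) (nat_lit 230) (.e (nat_lit 163869) (nat_lit 2) (.e (nat_lit 196654) (nat_lit 11) .nil)))))) (.g (nat_lit 6) .nil .nil))) 
(.lf (nat_lit 134056) (.g (nat_lit 2920) (.e (nat_lit 16436) (nat_lit 9) (.e (nat_lit 426566) (nat_lit 34) (.e (nat_lit 393254) (nat_lit 18) (.e (nat_lit 164324) (nat_lit 230) (.e (nat_lit 163867) (nat_lit 2) (.e (nat_lit 196654) (nat_lit 11) .nil)))))) (.g (nat_lit 5) .nil .nil)))) (.nd (nat_lit 5) 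
(.lf (nat_lit 134040) (.g (nat_lit 2923) (.e (nat_lit 16436) (nat_lit 9) (.e (nat_lit 426566) (nat_lit 34) (.e (nat_lit 393253) (nat_lit 18) (.e (nat_lit 164329) (nat_lit 230) (.e (nat_lit 163866) (nat_lit 2) (.e (nat_lit 196654) (nat_lit 11) .nil)))))) (.g (nat_lit 0) .nil .nil))) 
(.lf (nat_lit 134072) (.g (nat_lit 3584) (.e (nat_lit 16436) (nat_lit 9) (.e (nat_lit 426567) (nat_lit 34) (.e (nat_lit 393251) (nat_lit 18) (.e (nat_lit 164332) (nat_lit 230) (.e (nat_lit 163869) (nat_lit 2) (.e (nat_lit 196656) (nat_lit 11) .nil)))))) (.g (nat_lit 5) .nil .nil)))))) (.nd (nat_lit 3) (.nd (nat_lit 4) (.nd (nat_lit 5) 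
(.lf (nat_lit 134020) (.g (nat_lit 3096) (.e (nat_lit 16436) (nat_lit 9) (.e (nat_lit 426566) (nat_lit 34) (.e (nat_lit 393253) (nat_lit 18) (.e (nat_lit 164323) (nat_lit 230) .nil)))) .nil)) 
(.lf (nat_lit 134052) (.g (nat_lit 2214) (.e (nat_lit 16436) (nat_lit 9) (.e (nat_lit 426566) (nat_lit 34) (.e (nat_lit 393254) (nat_lit 18) (.e (nat_lit 164322) (nat_lit 230) (.e (nat_lit 163866) (nat_lit 2) (.e (nat_lit 196654) (nat_lit 11) .nil)))))) (.g (nat_lit 5) .nil .nil)))) (.nd (nat_lit 5) 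
(.lf (nat_lit 134036) (.g (nat_lit 3039) (.e (nat_lit 16436) (nat_lit 9) (.e (nat_lit 426566) (nat_lit 34) (.e (nat_lit 393253) (nat_lit 18) (.e (nat_lit 164326) (nat_lit 230) (.e (nat_lit 163871) (nat_lit 2) (.e (nat_lit 196655) (nat_lit 11) .nil)))))) (.g (nat_lit 0) .nil .nil))) 
(.lf (nat_lit 134068) (.g (nat_lit 3297) (.e (nat_lit 16436) (nat_lit 9) (.e (nat_lit 426566) (nat_lit 34) (.e (nat_lit 393254) (nat_lit 18) (.e (nat_lit 164331) (nat_lit 230) (.e (nat_lit 163867) (nat_lit 2) (.e (nat_lit 196654) (nat_lit 11) .nil)))))) (.g (nat_lit 0) .nil .nil))))) (.nd (nat_lit 4) (.nd (nat_lit 5) 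
(.lf (nat_lit 134028) (.g (nat_lit 2309) (.e (nat_lit 16436) (nat_lit 9) (.e (nat_lit 426566) (nat_lit 34) (.e (nat_lit 393253) (nat_lit 18) (.e (nat_lit 164325) (nat_lit 230) (.e (nat_lit 163867) (nat_lit 2) .nil))))) .nil)) 
(.lf (nat_lit 134060) (.g (nat_lit 2967) (.e (nat_lit 16436) (nat_lit 9) (.e (nat_lit 426566) (nat_lit 34) (.e (nat_lit 393254) (nat_lit 18) (.e (nat_lit 164325) (nat_lit 230) (.e (nat_lit 163868) (nat_lit 2) (.e (nat_lit 196654) (nat_lit 11) .nil)))))) (.g (nat_lit 0) .nil .nil)))) (.nd (nat_lit 5) 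
(.lf (nat_lit 134044) (.g (nat_lit 2145) (.e (nat_lit 16436) (nat_lit 9) (.e (nat_lit 426566) (nat_lit 34) (.e (nat_lit 393253) (nat_lit 18) (.e (nat_lit 164330) (nat_lit 230) (.e (nat_lit 163867) (nat_lit 2) (.e (nat_lit 196656) (nat_lit 11) .nil)))))) (.g (nat_lit 4) .nil .nil))) 
(.lf (nat_lit 134076) (.g (nat_lit 3228) (.e (nat_lit 16436) (nat_lit 9) (.e (nat_lit 426568) (nat_lit 34) (.e (nat_lit 393251) (nat_lit 18) (.e (nat_lit 164332) (nat_lit 230) (.e (nat_lit 163867) (nat_lit 2) (.e (nat_lit 196656) (nat_lit 11) .nil)))))) (.g (nat_lit 6) .nil .nil))))))) (.nd (nat_lit 2) (.nd (nat_lit 3) (.nd (nat_lit 4) (.nd (nat_lit 5) 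
(.lf (nat_lit 134018) (.g (nat_lit 2521) (.e (nat_lit 16436) (nat_lit 9) (.e (nat_lit 426566) (nat_lit 34) (.e (nat_lit 393253) (nat_lit 18) (.e (nat_lit 164322) (nat_lit 230) (.e (nat_lit 163867) (nat_lit 2) (.e (nat_lit 196654) (nat_lit 11) .nil)))))) (.g (nat_lit 4) .nil .nil))) 
(.lf (nat_lit 134050) (.g (nat_lit 3680) (.e (nat_lit 16436) (nat_lit 9) (.e (nat_lit 426566) (nat_lit 34) (.e (nat_lit 393253) (nat_lit 18) (.e (nat_lit 164332) (nat_lit 230) (.e (nat_lit 163867) (nat_lit 2) (.e (nat_lit 196654) (nat_lit 11) .nil)))))) (.g (nat_lit 0) .nil .nil)))) (.nd (nat_lit 5) 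
(.lf (nat_lit 134034) (.g (nat_lit 3194) (.e (nat_lit 16436) (nat_lit 9) (.e (nat_lit 426566) (nat_lit 34) (.e (nat_lit 393253) (nat_lit 18) (.e (nat_lit 164326) (nat_lit 230) (.e (nat_lit 163868) (nat_lit 2) (.e (nat_lit 196655) (nat_lit 11) .nil)))))) (.g (nat_lit 0) .nil .nil))) 
(.lf (nat_lit 134066) (.g (nat_lit 3012) (.e (nat_lit 16436) (nat_lit 9) (.e (nat_lit 426566) (nat_lit 34) (.e (nat_lit 393254) (nat_lit 18) (.e (nat_lit 164327) (nat_lit 230) (.e (nat_lit 163866) (nat_lit 2) (.e (nat_lit 196654) (nat_lit 11) .nil)))))) (.g (nat_lit 0) .nil .nil))))) (.nd (nat_lit 4) (.nd (nat_lit 5) 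
(.lf (nat_lit 134026) (.g (nat_lit 2636) (.e (nat_lit 16436) (nat_lit 9) (.e (nat_lit 426566) (nat_lit 34) (.e (nat_lit 393253) (nat_lit 18) (.e (nat_lit 164324) (nat_lit 230) (.e (nat_lit 163871) (nat_lit 2) (.e (nat_lit 196656) (nat_lit 11) .nil)))))) (.g (nat_lit 4) .nil .nil))) 
(.lf (nat_lit 134058) (.g (nat_lit 3187) (.e (nat_lit 16436) (nat_lit 9) (.e (nat_lit 426566) (nat_lit 34) (.e (nat_lit 393254) (nat_lit 18) (.e (nat_lit 164324) (nat_lit 230) (.e (nat_lit 163869) (nat_lit 2) (.e (nat_lit 196654) (nat_lit 11) .nil)))))) (.g (nat_lit 6) .nil .nil)))) (.nd (nat_lit 5) 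
(.lf (nat_lit 134042) (.g (nat_lit 3288) (.e (nat_lit 16436) (nat_lit 9) (.e (nat_lit 426566) (nat_lit 34) (.e (nat_lit 393253) (nat_lit 18) (.e (nat_lit 164330) (nat_lit 230) (.e (nat_lit 163866) (nat_lit 2) (.e (nat_lit 196654) (nat_lit 11) .nil)))))) (.g (nat_lit 0) .nil .nil))) 
(.lf (nat_lit 134074) (.g (nat_lit 3185) (.e (nat_lit 16436) (nat_lit 9) (.e (nat_lit 426568) (nat_lit 34) (.e (nat_lit 393251) (nat_lit 18) (.e (nat_lit 164331) (nat_lit 230) (.e (nat_lit 163867) (nat_lit 2) (.e (nat_lit 196654) (nat_lit 11) .nil)))))) (.g (nat_lit 6) .nil .nil)))))) (.nd (nat_lit 3) (.nd (nat_lit 4) (.nd (nat_lit 5) 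
(.lf (nat_lit 134022) (.g (nat_lit 2670) (.e (nat_lit 16436) (nat_lit 9) (.e (nat_lit 426566) (nat_lit 34) (.e (nat_lit 393253) (nat_lit 18) (.e (nat_lit 164324) (nat_lit 230) (.e (nat_lit 163867) (nat_lit 2) (.e (nat_lit 196656) (nat_lit 11) .nil)))))) (.g (nat_lit 4) .nil .nil))) 
(.lf (nat_lit 134054) (.g (nat_lit 1670) (.e (nat_lit 16436) (nat_lit 9) (.e (nat_lit 426566) (nat_lit 34) (.e (nat_lit 393254) (nat_lit 18) (.e (nat_lit 164323) (nat_lit 230) (.e (nat_lit 163867) (nat_lit 2) (.e (nat_lit 196654) (nat_lit 11) .nil)))))) (.g (nat_lit 4) .nil .nil)))) (.nd (nat_lit 5) 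
(.lf (nat_lit 134038) (.g (nat_lit 2516) (.e (nat_lit 16436) (nat_lit 9) (.e (nat_lit 426566) (nat_lit 34) (.e (nat_lit 393253) (nat_lit 18) (.e (nat_lit 164327) (nat_lit 230) (.e (nat_lit 163869) (nat_lit 2) .nil))))) .nil)) 
(.lf (nat_lit 134070) (.g (nat_lit 3738) (.e (nat_lit 16436) (nat_lit 9) (.e (nat_lit 426566) (nat_lit 34) (.e (nat_lit 393254) (nat_lit 18) (.e (nat_lit 164332) (nat_lit 230) (.e (nat_lit 163869) (nat_lit 2) (.e (nat_lit 196654) (nat_lit 11) .nil)))))) (.g (nat_lit 0) .nil .nil))))) (.nd (nat_lit 4) (.nd (nat_lit 5) 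
(.lf (nat_lit 134030) (.g (nat_lit 3580) (.e (nat_lit 16436) (nat_lit 9) (.e (nat_lit 426566) (nat_lit 34) (.e (nat_lit 393253) (nat_lit 18) (.e (nat_lit 164325) (nat_lit 230) (.e (nat_lit 163869) (nat_lit 2) (.e (nat_lit 196654) (nat_lit 11) .nil)))))) (.g (nat_lit 0) .nil .nil))) 
(.lf (nat_lit 134062) (.g (nat_lit 2888) (.e (nat_lit 16436) (nat_lit 9) (.e (nat_lit 426566) (nat_lit 34) (.e (nat_lit 393254) (nat_lit 18) (.e (nat_lit 164325) (nat_lit 230) (.e (nat_lit 163871) (nat_lit 2) (.e (nat_lit 196654) (nat_lit 11) .nil)))))) (.g (nat_lit 0) .nil .nil)))) (.nd (nat_lit 5) 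
(.lf (nat_lit 134046) (.g (nat_lit 2853) (.e (nat_lit 16436) (nat_lit 9) (.e (nat_lit 426566) (nat_lit 34) (.e (nat_lit 393253) (nat_lit 18) (.e (nat_lit 164330) (nat_lit 230) (.e (nat_lit 163869) (nat_lit 2) (.e (nat_lit 196656) (nat_lit 11) .nil)))))) (.g (nat_lit 5) .nil .nil))) 
(.lf (nat_lit 134078) (.g (nat_lit 3749) (.e (nat_lit 16436) (nat_lit 9) (.e (nat_lit 426568) (nat_lit 34) (.e (nat_lit 393251) (nat_lit 18) (.e (nat_lit 164332) (nat_lit 230) (.e (nat_lit 163869) (nat_lit 2) (.e (nat_lit 196656) (nat_lit 11) .nil)))))) (.g (nat_lit 6) .nil .nil)))))))) (.nd (nat_lit 1) (.nd (nat_lit 2) (.nd (nat_lit 3) (.nd (nat_lit 4) (.nd (nat_lit 5) 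
(.lf (nat_lit 134017) (.g (nat_lit 3891) (.e (nat_lit 16436) (nat_lit 9) (.e (nat_lit 426566) (nat_lit 34) (.e (nat_lit 393253) (nat_lit 18) (.e (nat_lit 164305) (nat_lit 226) (.e (nat_lit 2433) (nat_lit 157) .nil))))) .nil)) 
(.lf (nat_lit 134049) (.g (nat_lit 3461) (.e (nat_lit 16436) (nat_lit 9) (.e (nat_lit 426566) (nat_lit 34) (.e (nat_lit 393253) (nat_lit 18) (.e (nat_lit 164332) (nat_lit 230) (.e (nat_lit 163866) (nat_lit 2) (.e (nat_lit 196654) (nat_lit 11) .nil)))))) (.g (nat_lit 0) .nil .nil)))) (.nd (nat_lit 5) 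
(.lf (nat_lit 134033) (.g (nat_lit 3067) (.e (nat_lit 16436) (nat_lit 9) (.e (nat_lit 426566) (nat_lit 34) (.e (nat_lit 393253) (nat_lit 18) (.e (nat_lit 164326) (nat_lit 230) (.e (nat_lit 163868) (nat_lit 2) (.e (nat_lit 196654) (nat_lit 11) .nil)))))) (.g (nat_lit 0) .nil .nil))) 
(.lf (nat_lit 134065) (.g (nat_lit 3418) (.e (nat_lit 16436) (nat_lit 9) (.e (nat_lit 426566) (nat_lit 34) (.e (nat_lit 393254) (nat_lit 18) (.e (nat_lit 164326) (nat_lit 230) (.e (nat_lit 163870) (nat_lit 2) (.e (nat_lit 196654) (nat_lit 11) .nil)))))) (.g (nat_lit 0) .nil .nil))))) (.nd (nat_lit 4) (.nd (nat_lit 5) 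
(.lf (nat_lit 134025) (.g (nat_lit 2585) (.e (nat_lit 16436) (nat_lit 9) (.e (nat_lit 426566) (nat_lit 34) (.e (nat_lit 393253) (nat_lit 18) (.e (nat_lit 164324) (nat_lit 230) (.e (nat_lit 163871) (nat_lit 2) (.e (nat_lit 196654) (nat_lit 11) .nil)))))) (.g (nat_lit 4) .nil .nil))) 
(.lf (nat_lit 134057) (.g (nat_lit 3113) (.e (nat_lit 16436) (nat_lit 9) (.e (nat_lit 426566) (nat_lit 34) (.e (nat_lit 393254) (nat_lit 18) (.e (nat_lit 164324) (nat_lit 230) (.e (nat_lit 163868) (nat_lit 2) (.e (nat_lit 196654) (nat_lit 11) .nil)))))) (.g (nat_lit 0) .nil .nil)))) (.nd (nat_lit 5) 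
(.lf (nat_lit 134041) (.g (nat_lit 3479) (.e (nat_lit 16436) (nat_lit 9) (.e (nat_lit 426566) (nat_lit 34) (.e (nat_lit 393253) (nat_lit 18) (.e (nat_lit 164329) (nat_lit 230) (.e (nat_lit 163867) (nat_lit 2) (.e (nat_lit 196654) (nat_lit 11) .nil)))))) (.g (nat_lit 0) .nil .nil))) 
(.lf (nat_lit 134073) (.g (nat_lit 2407) (.e (nat_lit 16436) (nat_lit 9) (.e (nat_lit 426568) (nat_lit 34) (.e (nat_lit 393250) (nat_lit 18) (.e (nat_lit 164327) (nat_lit 230) (.e (nat_lit 163871) (nat_lit 2) (.e (nat_lit 196654) (nat_lit 11) .nil)))))) (.g (nat_lit 5) .nil .nil)))))) (.nd (nat_lit 3) (.nd (nat_lit 4) (.nd (nat_lit 5) 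
(.lf (nat_lit 134021) (.g (nat_lit 3292) (.e (nat_lit 16436) (nat_lit 9) (.e (nat_lit 426566) (nat_lit 34) (.e (nat_lit 393253) (nat_lit 18) (.e (nat_lit 164324) (nat_lit 230) (.e (nat_lit 163867) (nat_lit 2) (.e (nat_lit 196654) (nat_lit 11) .nil)))))) (.g (nat_lit 5) .nil .nil))) 
(.lf (nat_lit 134053) (.g (nat_lit 3268) (.e (nat_lit 16436) (nat_lit 9) (.e (nat_lit 426566) (nat_lit 34) (.e (nat_lit 393254) (nat_lit 18) (.e (nat_lit 164322) (nat_lit 230) (.e (nat_lit 163867) (nat_lit 2) (.e (nat_lit 196654) (nat_lit 11) .nil)))))) (.g (nat_lit 6) .nil .nil)))) (.nd (nat_lit 5) 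
(.lf (nat_lit 134037) (.g (nat_lit 3459) (.e (nat_lit 16436) (nat_lit 9) (.e (nat_lit 426566) (nat_lit 34) (.e (nat_lit 393253) (nat_lit 18) (.e (nat_lit 164327) (nat_lit 230) (.e (nat_lit 163866) (nat_lit 2) (.e (nat_lit 196654) (nat_lit 11) .nil)))))) (.g (nat_lit 0) .nil .nil))) 
(.lf (nat_lit 134069) (.g (nat_lit 3179) (.e (nat_lit 16436) (nat_lit 9) (.e (nat_lit 426566) (nat_lit 34) (.e (nat_lit 393254) (nat_lit 18) (.e (nat_lit 164332) (nat_lit 230) (.e (nat_lit 163867) (nat_lit 2) (.e (nat_lit 196654) (nat_lit 11) .nil)))))) (.g (nat_lit 0) .nil .nil))))) (.nd (nat_lit 4) (.nd (nat_lit 5) 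
(.lf (nat_lit 134029) (.g (nat_lit 3523) (.e (nat_lit 16436) (nat_lit 9) (.e (nat_lit 426566) (nat_lit 34) (.e (nat_lit 393253) (nat_lit 18) (.e (nat_lit 164325) (nat_lit 230) (.e (nat_lit 163868) (nat_lit 2) (.e (nat_lit 196654) (nat_lit 11) .nil)))))) (.g (nat_lit 0) .nil .nil))) 
(.lf (nat_lit 134061) (.g (nat_lit 3145) (.e (nat_lit 16436) (nat_lit 9) (.e (nat_lit 426566) (nat_lit 34) (.e (nat_lit 393254) (nat_lit 18) (.e (nat_lit 164325) (nat_lit 230) (.e (nat_lit 163869) (nat_lit 2) (.e (nat_lit 196654) (nat_lit 11) .nil)))))) (.g (nat_lit 0) .nil .nil)))) (.nd (nat_lit 5) 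
(.lf (nat_lit 134045) (.g (nat_lit 3634) (.e (nat_lit 16436) (nat_lit 9) (.e (nat_lit 426566) (nat_lit 34) (.e (nat_lit 393253) (nat_lit 18) (.e (nat_lit 164330) (nat_lit 230) (.e (nat_lit 163869) (nat_lit 2) (.e (nat_lit 196654) (nat_lit 11) .nil)))))) (.g (nat_lit 0) .nil .nil))) 
(.lf (nat_lit 134077) (.g (nat_lit 3698) (.e (nat_lit 16436) (nat_lit 9) (.e (nat_lit 426568) (nat_lit 34) (.e (nat_lit 393251) (nat_lit 18) (.e (nat_lit 164332) (nat_lit 230) (.e (nat_lit 163869) (nat_lit 2) (.e (nat_lit 196654) (nat_lit 11) .nil)))))) (.g (nat_lit 6) .nil .nil))))))) (.nd (nat_lit 2) (.nd (nat_lit 3) (.nd (nat_lit 4) (.nd (nat_lit 5) 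
(.lf (nat_lit 134019) (.g (nat_lit 2542) (.e (nat_lit 16436) (nat_lit 9) (.e (nat_lit 426566) (nat_lit 34) (.e (nat_lit 393253) (nat_lit 18) (.e (nat_lit 164322) (nat_lit 230) (.e (nat_lit 163867) (nat_lit 2) (.e (nat_lit 196656) (nat_lit 11) .nil)))))) (.g (nat_lit 4) .nil .nil))) 
(.lf (nat_lit 134051) (.g (nat_lit 4154) (.e (nat_lit 16436) (nat_lit 9) (.e (nat_lit 426566) (nat_lit 34) (.e (nat_lit 393253) (nat_lit 18) (.e (nat_lit 164332) (nat_lit 230) (.e (nat_lit 163869) (nat_lit 2) (.e (nat_lit 196654) (nat_lit 11) .nil)))))) (.g (nat_lit 0) .nil .nil)))) (.nd (nat_lit 5) 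
(.lf (nat_lit 134035) (.g (nat_lit 2373) (.e (nat_lit 16436) (nat_lit 9) (.e (nat_lit 426566) (nat_lit 34) (.e (nat_lit 393253) (nat_lit 18) (.e (nat_lit 164326) (nat_lit 230) (.e (nat_lit 163870) (nat_lit 2) (.e (nat_lit 196652) (nat_lit 11) .nil)))))) (.g (nat_lit 5) .nil .nil))) 
(.lf (nat_lit 134067) (.g (nat_lit 2572) (.e (nat_lit 16436) (nat_lit 9) (.e (nat_lit 426566) (nat_lit 34) (.e (nat_lit 393254) (nat_lit 18) (.e (nat_lit 164329) (nat_lit 230) (.e (nat_lit 163866) (nat_lit 2) (.e (nat_lit 196654) (nat_lit 11) .nil)))))) (.g (nat_lit 0) .nil .nil))))) (.nd (nat_lit 4) (.nd (nat_lit 5) 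
(.lf (nat_lit 134027) (.g (nat_lit 3455) (.e (nat_lit 16436) (nat_lit 9) (.e (nat_lit 426566) (nat_lit 34) (.e (nat_lit 393253) (nat_lit 18) (.e (nat_lit 164325) (nat_lit 230) (.e (nat_lit 163866) (nat_lit 2) (.e (nat_lit 196654) (nat_lit 11) .nil)))))) (.g (nat_lit 0) .nil .nil))) 
(.lf (nat_lit 134059) (.g (nat_lit 2118) (.e (nat_lit 16436) (nat_lit 9) (.e (nat_lit 426566) (nat_lit 34) (.e (nat_lit 393254) (nat_lit 18) (.e (nat_lit 164325) (nat_lit 230) (.e (nat_lit 163867) (nat_lit 2) (.e (nat_lit 196654) (nat_lit 11) .nil)))))) (.g (nat_lit 4) .nil .nil)))) (.nd (nat_lit 5) 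
(.lf (nat_lit 134043) (.g (nat_lit 3446) (.e (nat_lit 16436) (nat_lit 9) (.e (nat_lit 426566) (nat_lit 34) (.e (nat_lit 393253) (nat_lit 18) (.e (nat_lit 164330) (nat_lit 230) (.e (nat_lit 163867) (nat_lit 2) (.e (nat_lit 196654) (nat_lit 11) .nil)))))) (.g (nat_lit 0) .nil .nil))) 
(.lf (nat_lit 134075) (.g (nat_lit 3099) (.e (nat_lit 16436) (nat_lit 9) (.e (nat_lit 426568) (nat_lit 34) (.e (nat_lit 393251) (nat_lit 18) (.e (nat_lit 164332) (nat_lit 230) (.e (nat_lit 163867) (nat_lit 2) (.e (nat_lit 196654) (nat_lit 11) .nil)))))) (.g (nat_lit 6) .nil .nil)))))) (.nd (nat_lit 3) (.nd (nat_lit 4) (.nd (nat_lit 5) 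
(.lf (nat_lit 134023) (.g (nat_lit 3548) (.e (nat_lit 16436) (nat_lit 9) (.e (nat_lit 426566) (nat_lit 34) (.e (nat_lit 393253) (nat_lit 18) (.e (nat_lit 164324) (nat_lit 230) (.e (nat_lit 163868) (nat_lit 2) (.e (nat_lit 196654) (nat_lit 11) .nil)))))) (.g (nat_lit 0) .nil .nil))) 
(.lf (nat_lit 134055) (.g (nat_lit 3204) (.e (nat_lit 16436) (nat_lit 9) (.e (nat_lit 426566) (nat_lit 34) (.e (nat_lit 393254) (nat_lit 18) (.e (nat_lit 164324) (nat_lit 230) (.e (nat_lit 163866) (nat_lit 2) (.e (nat_lit 196654) (nat_lit 11) .nil)))))) (.g (nat_lit 0) .nil .nil)))) (.nd (nat_lit 5) 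
(.lf (nat_lit 134039) (.g (nat_lit 3846) (.e (nat_lit 16436) (nat_lit 9) (.e (nat_lit 426566) (nat_lit 34) (.e (nat_lit 393253) (nat_lit 18) (.e (nat_lit 164328) (nat_lit 230) .nil)))) .nil)) 
(.lf (nat_lit 134071) (.g (nat_lit 2270) (.e (nat_lit 16436) (nat_lit 9) (.e (nat_lit 426567) (nat_lit 34) (.e (nat_lit 393251) (nat_lit 18) (.e (nat_lit 164325) (nat_lit 230) (.e (nat_lit 163866) (nat_lit 2) (.e (nat_lit 196654) (nat_lit 11) .nil)))))) (.g (nat_lit 4) .nil .nil))))) (.nd (nat_lit 4) (.nd (nat_lit 5) 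
(.lf (nat_lit 134031) (.g (nat_lit 3429) (.e (nat_lit 16436) (nat_lit 9) (.e (nat_lit 426566) (nat_lit 34) (.e (nat_lit 393253) (nat_lit 18) (.e (nat_lit 164325) (nat_lit 230) (.e (nat_lit 163871) (nat_lit 2) (.e (nat_lit 196654) (nat_lit 11) .nil)))))) (.g (nat_lit 0) .nil .nil))) 
(.lf (nat_lit 134063) (.g (nat_lit 2555) (.e (nat_lit 16436) (nat_lit 9) (.e (nat_lit 426566) (nat_lit 34) (.e (nat_lit 393254) (nat_lit 18) (.e (nat_lit 164326) (nat_lit 230) (.e (nat_lit 163866) (nat_lit 2) (.e (nat_lit 196654) (nat_lit 11) .nil)))))) (.g (nat_lit 0) .nil .nil)))) (.nd (nat_lit 5) 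
(.lf (nat_lit 134047) (.g (nat_lit 3357) (.e (nat_lit 16436) (nat_lit 9) (.e (nat_lit 426566) (nat_lit 34) (.e (nat_lit 393253) (nat_lit 18) (.e (nat_lit 164331) (nat_lit 230) (.e (nat_lit 163866) (nat_lit 2) (.e (nat_lit 196654) (nat_lit 11) .nil)))))) (.g (nat_lit 0) .nil .nil))) 
(.lf (nat_lit 134079) (.g (nat_lit 2621) (.e (nat_lit 16436) (nat_lit 9) (.e (nat_lit 426568) (nat_lit 34) (.e (nat_lit 393252) (nat_lit 18) (.e (nat_lit 164331) (nat_lit 230) (.e (nat_lit 163866) (nat_lit 2) (.e (nat_lit 196654) (nat_lit 11) .nil)))))) (.g (nat_lit 5) .nil .nil)))))))))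

noncomputable def tv1788 : DT := (.nd (nat_lit 0) (.nd (nat_lit 1) (.nd (nat_lit 2) (.nd (nat_lit 3) (.nd (nat_lit 4) (.nd (nat_lit 5) 
(.lf (nat_lit 134080) (.g (nat_lit 2866) (.e (nat_lit 16436) (nat_lit 9) (.e (nat_lit 426568) (nat_lit 34) (.e (nat_lit 393252) (nat_lit 18) (.e (nat_lit 164331) (nat_lit 230) (.e (nat_lit 163867) (nat_lit 2) (.e (nat_lit 196654) (nat_lit 11) .nil)))))) (.g (nat_lit 5) .nil .nil))) 
(.lf (nat_lit 134112) (.g (nat_lit 396) (.e (nat_lit 16437) (nat_lit 9) (.e (nat_lit 426533) (nat_lit 28) (.e (nat_lit 344084) (nat_lit 14) (.e (nat_lit 57815) (nat_lit 246) .nil)))) .nil))) (.nd (nat_lit 5) 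
(.lf (nat_lit 134096) (.g (nat_lit 2217) (.e (nat_lit 16436) (nat_lit 9) (.e (nat_lit 426568) (nat_lit 34) (.e (nat_lit 393253) (nat_lit 18) (.e (nat_lit 164329) (nat_lit 230) (.e (nat_lit 163866) (nat_lit 2) (.e (nat_lit 196654) (nat_lit 11) .nil)))))) (.g (nat_lit 5) .nil .nil))) 
(.lf (nat_lit 134128) (.g (nat_lit 2111) (.e (nat_lit 16437) (nat_lit 9) (.e (nat_lit 426542) (nat_lit 29) (.e (nat_lit 352309) (nat_lit 21) (.e (nat_lit 57848) (nat_lit 252) (.e (nat_lit 57386) (nat_lit 4) (.e (nat_lit 106534) (nat_lit 11) .nil)))))) (.g (nat_lit 4) .nil .nil))))) (.nd (nat_lit 4) (.nd (nat_lit 5) 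
(.lf (nat_lit 134088) (.g (nat_lit 2204) (.e (nat_lit 16436) (nat_lit 9) (.e (nat_lit 426568) (nat_lit 34) (.e (nat_lit 393253) (nat_lit 18) (.e (nat_lit 164324) (nat_lit 230) (.e (nat_lit 163871) (nat_lit 2) (.e (nat_lit 196654) (nat_lit 11) .nil)))))) (.g (nat_lit 4) .nil .nil))) 
(.lf (nat_lit 134120) (.g (nat_lit 2054) (.e (nat_lit 16437) (nat_lit 9) (.e (nat_lit 426542) (nat_lit 29) (.e (nat_lit 352307) (nat_lit 21) (.e (nat_lit 57849) (nat_lit 252) (.e (nat_lit 57381) (nat_lit 4) .nil))))) .nil))) (.nd (nat_lit 5) 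
(.lf (nat_lit 134104) (.g (nat_lit 588) (.e (nat_lit 16437) (nat_lit 9) (.e (nat_lit 426436) (nat_lit 18) (.e (nat_lit 98335) (nat_lit 18) .nil))) .nil)) 
(.lf (nat_lit 134136) (.g (nat_lit 379) (.e (nat_lit 16437) (nat_lit 9) (.e (nat_lit 426550) (nat_lit 31) (.e (nat_lit 368656) (nat_lit 14) .nil))) .nil))))) (.nd (nat_lit 3) (.nd (nat_lit 4) (.nd (nat_lit 5) 
(.lf (nat_lit 134084) (.g (nat_lit 2384) (.e (nat_lit 16436) (nat_lit 9) (.e (nat_lit 426568) (nat_lit 34) (.e (nat_lit 393253) (nat_lit 18) (.e (nat_lit 164324) (nat_lit 230) (.e (nat_lit 163867) (nat_lit 2) (.e (nat_lit 196656) (nat_lit 11) .nil)))))) (.g (nat_lit 4) .nil .nil))) 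
(.lf (nat_lit 134116) (.g (nat_lit 1637) (.e (nat_lit 16437) (nat_lit 9) (.e (nat_lit 426542) (nat_lit 29) (.e (nat_lit 352307) (nat_lit 21) (.e (nat_lit 57848) (nat_lit 252) (.e (nat_lit 57383) (nat_lit 4) .nil))))) .nil))) (.nd (nat_lit 5) 
(.lf (nat_lit 134100) (.g (nat_lit 3010) (.e (nat_lit 16436) (nat_lit 9) (.e (nat_lit 426568) (nat_lit 34) (.e (nat_lit 393253) (nat_lit 18) (.e (nat_lit 164330) (nat_lit 230) (.e (nat_lit 163869) (nat_lit 2) (.e (nat_lit 196654) (nat_lit 11) .nil)))))) (.g (nat_lit 6) .nil .nil))) 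
(.lf (nat_lit 134132) (.g (nat_lit 1851) (.e (nat_lit 16437) (nat_lit 9) (.e (nat_lit 426542) (nat_lit 29) (.e (nat_lit 352309) (nat_lit 21) (.e (nat_lit 57849) (nat_lit 252) (.e (nat_lit 57385) (nat_lit 4) (.e (nat_lit 106536) (nat_lit 11) .nil)))))) (.g (nat_lit 5) .nil .nil))))) (.nd (nat_lit 4) (.nd (nat_lit 5) 
(.lf (nat_lit 134092) (.g (nat_lit 1873) (.e (nat_lit 16436) (nat_lit 9) (.e (nat_lit 426568) (nat_lit 34) (.e (nat_lit 393253) (nat_lit 18) (.e (nat_lit 164326) (nat_lit 230) (.e (nat_lit 163868) (nat_lit 2) .nil))))) .nil)) 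
(.lf (nat_lit 134124) (.g (nat_lit 2110) (.e (nat_lit 16437) (nat_lit 9) (.e (nat_lit 426542) (nat_lit 29) (.e (nat_lit 352307) (nat_lit 21) (.e (nat_lit 57849) (nat_lit 252) (.e (nat_lit 57386) (nat_lit 4) (.e (nat_lit 106536) (nat_lit 11) .nil)))))) (.g (nat_lit 5) .nil .nil)))) (.nd (nat_lit 5) 
(.lf (nat_lit 134108) (.g (nat_lit 4114) (.e (nat_lit 16437) (nat_lit 9) (.e (nat_lit 426436) (nat_lit 18) (.e (nat_lit 98335) (nat_lit 18) (.e (nat_lit 164330) (nat_lit 230) .nil)))) .nil)) 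
(.lf (nat_lit 134140) (.g (nat_lit 2427) (.e (nat_lit 16437) (nat_lit 9) (.e (nat_lit 426555) (nat_lit 32) (.e (nat_lit 376857) (nat_lit 21) (.e (nat_lit 57852) (nat_lit 252) (.e (nat_lit 57382) (nat_lit 4) .nil))))) .nil)))))) (.nd (nat_lit 2) (.nd (nat_lit 3) (.nd (nat_lit 4) (.nd (nat_lit 5) 
(.lf (nat_lit 134082) (.g (nat_lit 3153) (.e (nat_lit 16436) (nat_lit 9) (.e (nat_lit 426568) (nat_lit 34) (.e (nat_lit 393253) (nat_lit 18) (.e (nat_lit 164324) (nat_lit 230) (.e (nat_lit 163866) (nat_lit 2) (.e (nat_lit 196654) (nat_lit 11) .nil)))))) (.g (nat_lit 6) .nil .nil))) 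
(.lf (nat_lit 134114) (.g (nat_lit 1899) (.e (nat_lit 16437) (nat_lit 9) (.e (nat_lit 426542) (nat_lit 29) (.e (nat_lit 352307) (nat_lit 21) (.e (nat_lit 57844) (nat_lit 252) (.e (nat_lit 57382) (nat_lit 4) .nil))))) .nil))) (.nd (nat_lit 5) 
(.lf (nat_lit 134098) (.g (nat_lit 2723) (.e (nat_lit 16436) (nat_lit 9) (.e (nat_lit 426568) (nat_lit 34) (.e (nat_lit 393253) (nat_lit 18) (.e (nat_lit 164329) (nat_lit 230) (.e (nat_lit 163867) (nat_lit 2) (.e (nat_lit 196656) (nat_lit 11) .nil)))))) (.g (nat_lit 5) .nil .nil))) 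
(.lf (nat_lit 134130) (.g (nat_lit 1988) (.e (nat_lit 16437) (nat_lit 9) (.e (nat_lit 426542) (nat_lit 29) (.e (nat_lit 352309) (nat_lit 21) (.e (nat_lit 57849) (nat_lit 252) (.e (nat_lit 57381) (nat_lit 4) .nil))))) .nil)))) (.nd (nat_lit 4) (.nd (nat_lit 5) 
(.lf (nat_lit 134090) (.g (nat_lit 3199) (.e (nat_lit 16436) (nat_lit 9) (.e (nat_lit 426568) (nat_lit 34) (.e (nat_lit 393253) (nat_lit 18) (.e (nat_lit 164325) (nat_lit 230) (.e (nat_lit 163868) (nat_lit 2) (.e (nat_lit 196654) (nat_lit 11) .nil)))))) (.g (nat_lit 0) .nil .nil))) 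
(.lf (nat_lit 134122) (.g (nat_lit 1743) (.e (nat_lit 16437) (nat_lit 9) (.e (nat_lit 426542) (nat_lit 29) (.e (nat_lit 352307) (nat_lit 21) (.e (nat_lit 57849) (nat_lit 252) (.e (nat_lit 57385) (nat_lit 4) (.e (nat_lit 106534) (nat_lit 11) .nil)))))) (.g (nat_lit 4) .nil .nil)))) (.nd (nat_lit 5) 
(.lf (nat_lit 134106) (.g (nat_lit 4155) (.e (nat_lit 16437) (nat_lit 9) (.e (nat_lit 426436) (nat_lit 18) (.e (nat_lit 98335) (nat_lit 18) (.e (nat_lit 164325) (nat_lit 230) .nil)))) .nil)) 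
(.lf (nat_lit 134138) (.g (nat_lit 1056) (.e (nat_lit 16437) (nat_lit 9) (.e (nat_lit 426555) (nat_lit 32) (.e (nat_lit 376856) (nat_lit 21) .nil))) .nil))))) (.nd (nat_lit 3) (.nd (nat_lit 4) (.nd (nat_lit 5) 
(.lf (nat_lit 134086) (.g (nat_lit 3280) (.e (nat_lit 16436) (nat_lit 9) (.e (nat_lit 426568) (nat_lit 34) (.e (nat_lit 393253) (nat_lit 18) (.e (nat_lit 164324) (nat_lit 230) (.e (nat_lit 163868) (nat_lit 2) (.e (nat_lit 196656) (nat_lit 11) .nil)))))) (.g (nat_lit 6) .nil .nil))) 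
(.lf (nat_lit 134118) (.g (nat_lit 1647) (.e (nat_lit 16437) (nat_lit 9) (.e (nat_lit 426542) (nat_lit 29) (.e (nat_lit 352307) (nat_lit 21) (.e (nat_lit 57848) (nat_lit 252) (.e (nat_lit 57385) (nat_lit 4) (.e (nat_lit 106536) (nat_lit 11) .nil)))))) (.g (nat_lit 4) .nil .nil)))) (.nd (nat_lit 5) 
(.lf (nat_lit 134102) (.g (nat_lit 3392) (.e (nat_lit 16436) (nat_lit 9) (.e (nat_lit 426568) (nat_lit 34) (.e (nat_lit 393253) (nat_lit 18) (.e (nat_lit 164332) (nat_lit 230) (.e (nat_lit 163867) (nat_lit 2) (.e (nat_lit 196654) (nat_lit 11) .nil)))))) (.g (nat_lit 0) .nil .nil))) 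
(.lf (nat_lit 134134) (.g (nat_lit 787) (.e (nat_lit 16437) (nat_lit 9) (.e (nat_lit 426546) (nat_lit 30) (.e (nat_lit 360452) (nat_lit 0) (.e (nat_lit 5193) (nat_lit 294) (.e (nat_lit 57385) (nat_lit 4) .nil))))) .nil)))) (.nd (nat_lit 4) (.nd (nat_lit 5) 
(.lf (nat_lit 134094) (.g (nat_lit 3445) (.e (nat_lit 16436) (nat_lit 9) (.e (nat_lit 426568) (nat_lit 34) (.e (nat_lit 393253) (nat_lit 18) (.e (nat_lit 164327) (nat_lit 230) (.e (nat_lit 163868) (nat_lit 2) (.e (nat_lit 196656) (nat_lit 11) .nil)))))) (.g (nat_lit 5) .nil .nil))) 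
(.lf (nat_lit 134126) (.g (nat_lit 1988) (.e (nat_lit 16437) (nat_lit 9) (.e (nat_lit 426542) (nat_lit 29) (.e (nat_lit 352309) (nat_lit 21) (.e (nat_lit 57848) (nat_lit 252) (.e (nat_lit 57385) (nat_lit 4) .nil))))) .nil))) (.nd (nat_lit 5) 
(.lf (nat_lit 134110) (.g (nat_lit 2331) (.e (nat_lit 16437) (nat_lit 9) (.e (nat_lit 426482) (nat_lit 27) (.e (nat_lit 336060) (nat_lit 7) (.e (nat_lit 319534) (nat_lit 16) (.e (nat_lit 286728) (nat_lit 0) (.e (nat_lit 2391) (nat_lit 156) (.e (nat_lit 819237) (nat_lit 11) .nil))))))) (.g (nat_lit 4) .nil .nil))) 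
(.lf (nat_lit 134142) (.g (nat_lit 2204) (.e (nat_lit 16437) (nat_lit 9) (.e (nat_lit 426555) (nat_lit 32) (.e (nat_lit 376859) (nat_lit 21) (.e (nat_lit 57847) (nat_lit 252) (.e (nat_lit 57384) (nat_lit 4) .nil))))) .nil))))))) (.nd (nat_lit 1) (.nd (nat_lit 2) (.nd (nat_lit 3) (.nd (nat_lit 4) (.nd (nat_lit 5) 
(.lf (nat_lit 134081) (.g (nat_lit 3635) (.e (nat_lit 16436) (nat_lit 9) (.e (nat_lit 426568) (nat_lit 34) (.e (nat_lit 393252) (nat_lit 18) (.e (nat_lit 164332) (nat_lit 230) (.e (nat_lit 163869) (nat_lit 2) (.e (nat_lit 196654) (nat_lit 11) .nil)))))) (.g (nat_lit 0) .nil .nil))) 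
(.lf (nat_lit 134113) (.g (nat_lit 2790) (.e (nat_lit 16437) (nat_lit 9) (.e (nat_lit 426538) (nat_lit 29) (.e (nat_lit 352309) (nat_lit 21) (.e (nat_lit 57848) (nat_lit 252) (.e (nat_lit 57386) (nat_lit 4) (.e (nat_lit 106536) (nat_lit 11) .nil)))))) (.g (nat_lit 6) .nil .nil)))) (.nd (nat_lit 5) 
(.lf (nat_lit 134097) (.g (nat_lit 2503) (.e (nat_lit 16436) (nat_lit 9) (.e (nat_lit 426568) (nat_lit 34) (.e (nat_lit 393253) (nat_lit 18) (.e (nat_lit 164329) (nat_lit 230) (.e (nat_lit 163867) (nat_lit 2) (.e (nat_lit 196654) (nat_lit 11) .nil)))))) (.g (nat_lit 5) .nil .nil))) 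
(.lf (nat_lit 134129) (.g (nat_lit 2257) (.e (nat_lit 16437) (nat_lit 9) (.e (nat_lit 426542) (nat_lit 29) (.e (nat_lit 352309) (nat_lit 21) (.e (nat_lit 57848) (nat_lit 252) (.e (nat_lit 57386) (nat_lit 4) (.e (nat_lit 106536) (nat_lit 11) .nil)))))) (.g (nat_lit 5) .nil .nil))))) (.nd (nat_lit 4) (.nd (nat_lit 5) 
(.lf (nat_lit 134089) (.g (nat_lit 3166) (.e (nat_lit 16436) (nat_lit 9) (.e (nat_lit 426568) (nat_lit 34) (.e (nat_lit 393253) (nat_lit 18) (.e (nat_lit 164325) (nat_lit 230) (.e (nat_lit 163866) (nat_lit 2) (.e (nat_lit 196654) (nat_lit 11) .nil)))))) (.g (nat_lit 0) .nil .nil))) 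
(.lf (nat_lit 134121) (.g (nat_lit 1960) (.e (nat_lit 16437) (nat_lit 9) (.e (nat_lit 426542) (nat_lit 29) (.e (nat_lit 352307) (nat_lit 21) (.e (nat_lit 57849) (nat_lit 252) (.e (nat_lit 57383) (nat_lit 4) (.e (nat_lit 106534) (nat_lit 11) .nil)))))) (.g (nat_lit 4) .nil .nil)))) (.nd (nat_lit 5) 
(.lf (nat_lit 134105) (.g (nat_lit 4043) (.e (nat_lit 16437) (nat_lit 9) (.e (nat_lit 426436) (nat_lit 18) (.e (nat_lit 98335) (nat_lit 18) (.e (nat_lit 164305) (nat_lit 226) .nil)))) .nil)) 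
(.lf (nat_lit 134137) (.g (nat_lit 873) (.e (nat_lit 16437) (nat_lit 9) (.e (nat_lit 426555) (nat_lit 32) (.e (nat_lit 384768) (nat_lit 5) .nil))) .nil))))) (.nd (nat_lit 3) (.nd (nat_lit 4) (.nd (nat_lit 5) 
(.lf (nat_lit 134085) (.g (nat_lit 3065) (.e (nat_lit 16436) (nat_lit 9) (.e (nat_lit 426568) (nat_lit 34) (.e (nat_lit 393253) (nat_lit 18) (.e (nat_lit 164324) (nat_lit 230) (.e (nat_lit 163868) (nat_lit 2) (.e (nat_lit 196654) (nat_lit 11) .nil)))))) (.g (nat_lit 6) .nil .nil))) 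
(.lf (nat_lit 134117) (.g (nat_lit 1642) (.e (nat_lit 16437) (nat_lit 9) (.e (nat_lit 426542) (nat_lit 29) (.e (nat_lit 352307) (nat_lit 21) (.e (nat_lit 57848) (nat_lit 252) (.e (nat_lit 57385) (nat_lit 4) .nil))))) .nil))) (.nd (nat_lit 5) 
(.lf (nat_lit 134101) (.g (nat_lit 2255) (.e (nat_lit 16436) (nat_lit 9) (.e (nat_lit 426568) (nat_lit 34) (.e (nat_lit 393253) (nat_lit 18) (.e (nat_lit 164330) (nat_lit 230) (.e (nat_lit 163869) (nat_lit 2) (.e (nat_lit 196656) (nat_lit 11) .nil)))))) (.g (nat_lit 4) .nil .nil))) 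
(.lf (nat_lit 134133) (.g (nat_lit 1986) (.e (nat_lit 16437) (nat_lit 9) (.e (nat_lit 426542) (nat_lit 29) (.e (nat_lit 352309) (nat_lit 21) (.e (nat_lit 57849) (nat_lit 252) (.e (nat_lit 57386) (nat_lit 4) (.e (nat_lit 106534) (nat_lit 11) .nil)))))) (.g (nat_lit 5) .nil .nil))))) (.nd (nat_lit 4) (.nd (nat_lit 5) 
(.lf (nat_lit 134093) (.g (nat_lit 2190) (.e (nat_lit 16436) (nat_lit 9) (.e (nat_lit 426568) (nat_lit 34) (.e (nat_lit 393253) (nat_lit 18) (.e (nat_lit 164326) (nat_lit 230) (.e (nat_lit 163870) (nat_lit 2) (.e (nat_lit 196654) (nat_lit 11) .nil)))))) (.g (nat_lit 4) .nil .nil))) 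
(.lf (nat_lit 134125) (.g (nat_lit 2020) (.e (nat_lit 16437) (nat_lit 9) (.e (nat_lit 426542) (nat_lit 29) (.e (nat_lit 352309) (nat_lit 21) (.e (nat_lit 57848) (nat_lit 252) (.e (nat_lit 57383) (nat_lit 4) (.e (nat_lit 106534) (nat_lit 11) .nil)))))) (.g (nat_lit 4) .nil .nil)))) (.nd (nat_lit 5) 
(.lf (nat_lit 134109) (.g (nat_lit 4146) (.e (nat_lit 16437) (nat_lit 9) (.e (nat_lit 426436) (nat_lit 18) (.e (nat_lit 98335) (nat_lit 18) (.e (nat_lit 164332) (nat_lit 230) .nil)))) .nil)) 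
(.lf (nat_lit 134141) (.g (nat_lit 3294) (.e (nat_lit 16437) (nat_lit 9) (.e (nat_lit 426555) (nat_lit 32) (.e (nat_lit 376857) (nat_lit 21) (.e (nat_lit 57854) (nat_lit 252) (.e (nat_lit 57382) (nat_lit 4) (.e (nat_lit 106534) (nat_lit 11) .nil)))))) (.g (nat_lit 0) .nil .nil))))))) (.nd (nat_lit 2) (.nd (nat_lit 3) (.nd (nat_lit 4) (.nd (nat_lit 5) 
(.lf (nat_lit 134083) (.g (nat_lit 2980) (.e (nat_lit 16436) (nat_lit 9) (.e (nat_lit 426568) (nat_lit 34) (.e (nat_lit 393253) (nat_lit 18) (.e (nat_lit 164324) (nat_lit 230) (.e (nat_lit 163867) (nat_lit 2) (.e (nat_lit 196654) (nat_lit 11) .nil)))))) (.g (nat_lit 5) .nil .nil))) 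
(.lf (nat_lit 134115) (.g (nat_lit 1387) (.e (nat_lit 16437) (nat_lit 9) (.e (nat_lit 426542) (nat_lit 29) (.e (nat_lit 352307) (nat_lit 21) (.e (nat_lit 57847) (nat_lit 252) .nil)))) .nil))) (.nd (nat_lit 5) 
(.lf (nat_lit 134099) (.g (nat_lit 2812) (.e (nat_lit 16436) (nat_lit 9) (.e (nat_lit 426568) (nat_lit 34) (.e (nat_lit 393253) (nat_lit 18) (.e (nat_lit 164330) (nat_lit 230) (.e (nat_lit 163867) (nat_lit 2) (.e (nat_lit 196654) (nat_lit 11) .nil)))))) (.g (nat_lit 6) .nil .nil))) 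
(.lf (nat_lit 134131) (.g (nat_lit 2007) (.e (nat_lit 16437) (nat_lit 9) (.e (nat_lit 426542) (nat_lit 29) (.e (nat_lit 352309) (nat_lit 21) (.e (nat_lit 57849) (nat_lit 252) (.e (nat_lit 57383) (nat_lit 4) (.e (nat_lit 106534) (nat_lit 11) .nil)))))) (.g (nat_lit 5) .nil .nil))))) (.nd (nat_lit 4) (.nd (nat_lit 5) 
(.lf (nat_lit 134091) (.g (nat_lit 3105) (.e (nat_lit 16436) (nat_lit 9) (.e (nat_lit 426568) (nat_lit 34) (.e (nat_lit 393253) (nat_lit 18) (.e (nat_lit 164325) (nat_lit 230) (.e (nat_lit 163871) (nat_lit 2) (.e (nat_lit 196654) (nat_lit 11) .nil)))))) (.g (nat_lit 0) .nil .nil))) 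
(.lf (nat_lit 134123) (.g (nat_lit 1765) (.e (nat_lit 16437) (nat_lit 9) (.e (nat_lit 426542) (nat_lit 29) (.e (nat_lit 352307) (nat_lit 21) (.e (nat_lit 57849) (nat_lit 252) (.e (nat_lit 57385) (nat_lit 4) (.e (nat_lit 106536) (nat_lit 11) .nil)))))) (.g (nat_lit 4) .nil .nil)))) (.nd (nat_lit 5) 
(.lf (nat_lit 134107) (.g (nat_lit 4810) (.e (nat_lit 16437) (nat_lit 9) (.e (nat_lit 426436) (nat_lit 18) (.e (nat_lit 98335) (nat_lit 18) (.e (nat_lit 164327) (nat_lit 230) .nil)))) .nil)) 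
(.lf (nat_lit 134139) (.g (nat_lit 2340) (.e (nat_lit 16437) (nat_lit 9) (.e (nat_lit 426555) (nat_lit 32) (.e (nat_lit 376857) (nat_lit 21) (.e (nat_lit 57847) (nat_lit 252) (.e (nat_lit 57384) (nat_lit 4) .nil))))) .nil))))) (.nd (nat_lit 3) (.nd (nat_lit 4) (.nd (nat_lit 5) 
(.lf (nat_lit 134087) (.g (nat_lit 3102) (.e (nat_lit 16436) (nat_lit 9) (.e (nat_lit 426568) (nat_lit 34) (.e (nat_lit 393253) (nat_lit 18) (.e (nat_lit 164324) (nat_lit 230) (.e (nat_lit 163869) (nat_lit 2) (.e (nat_lit 196654) (nat_lit 11) .nil)))))) (.g (nat_lit 5) .nil .nil))) 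
(.lf (nat_lit 134119) (.g (nat_lit 1651) (.e (nat_lit 16437) (nat_lit 9) (.e (nat_lit 426542) (nat_lit 29) (.e (nat_lit 352307) (nat_lit 21) (.e (nat_lit 57848) (nat_lit 252) (.e (nat_lit 57386) (nat_lit 4) (.e (nat_lit 106534) (nat_lit 11) .nil)))))) (.g (nat_lit 4) .nil .nil)))) (.nd (nat_lit 5) 
(.lf (nat_lit 134103) (.g (nat_lit 3874) (.e (nat_lit 16436) (nat_lit 9) (.e (nat_lit 426568) (nat_lit 34) (.e (nat_lit 393253) (nat_lit 18) (.e (nat_lit 164332) (nat_lit 230) (.e (nat_lit 163869) (nat_lit 2) (.e (nat_lit 196654) (nat_lit 11) .nil)))))) (.g (nat_lit 0) .nil .nil))) 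
(.lf (nat_lit 134135) (.g (nat_lit 787) (.e (nat_lit 16437) (nat_lit 9) (.e (nat_lit 426546) (nat_lit 30) (.e (nat_lit 360452) (nat_lit 0) (.e (nat_lit 5193) (nat_lit 294) (.e (nat_lit 57386) (nat_lit 4) .nil))))) .nil)))) (.nd (nat_lit 4) (.nd (nat_lit 5) 
(.lf (nat_lit 134095) (.g (nat_lit 2275) (.e (nat_lit 16436) (nat_lit 9) (.e (nat_lit 426568) (nat_lit 34) (.e (nat_lit 393253) (nat_lit 18) (.e (nat_lit 164327) (nat_lit 230) (.e (nat_lit 163871) (nat_lit 2) (.e (nat_lit 196656) (nat_lit 11) .nil)))))) (.g (nat_lit 4) .nil .nil))) 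
(.lf (nat_lit 134127) (.g (nat_lit 2096) (.e (nat_lit 16437) (nat_lit 9) (.e (nat_lit 426542) (nat_lit 29) (.e (nat_lit 352309) (nat_lit 21) (.e (nat_lit 57848) (nat_lit 252) (.e (nat_lit 57385) (nat_lit 4) (.e (nat_lit 106536) (nat_lit 11) .nil)))))) (.g (nat_lit 4) .nil .nil)))) (.nd (nat_lit 5) 
(.lf (nat_lit 134111) (.g (nat_lit 241) (.e (nat_lit 16437) (nat_lit 9) (.e (nat_lit 426533) (nat_lit 28) (.e (nat_lit 344084) (nat_lit 14) .nil))) .nil)) 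
(.lf (nat_lit 134143) (.g (nat_lit 2454) (.e (nat_lit 16437) (nat_lit 9) (.e (nat_lit 426555) (nat_lit 32) (.e (nat_lit 376860) (nat_lit 21) (.e (nat_lit 57844) (nat_lit 252) (.e (nat_lit 57382) (nat_lit 4) .nil))))) .nil))))))))

noncomputable def tv1789 : DT := (.nd (nat_lit 0) (.nd (nat_lit 1) (.nd (nat_lit 2) (.nd (nat_lit 3) (.nd (nat_lit 4) (.nd (nat_lit 5) 
(.lf (nat_lit 134144) (.g (nat_lit 2300) (.e (nat_lit 16437) (nat_lit 9) (.e (nat_lit 426555) (nat_lit 32) (.e (nat_lit 376860) (nat_lit 21) (.e (nat_lit 57851) (nat_lit 252) (.e (nat_lit 57382) (nat_lit 4) (.e (nat_lit 106534) (nat_lit 11) .nil)))))) (.g (nat_lit 5) .nil .nil))) 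
(.lf (nat_lit 134176) (.g (nat_lit 1820) (.e (nat_lit 16438) (nat_lit 9) (.e (nat_lit 426364) (nat_lit 15) (.e (nat_lit 2160) (nat_lit 143) (.e (nat_lit 712755) (nat_lit 30) (.e (nat_lit 450563) (nat_lit 0) (.e (nat_lit 4803) (nat_lit 281) (.e (nat_lit 1126) (nat_lit 83) .nil))))))) (.g (nat_lit 5) .nil .nil)))) (.nd (nat_lit 5) 
(.lf (nat_lit 134160) (.g (nat_lit 1896) (.e (nat_lit 16437) (nat_lit 9) (.e (nat_lit 426568) (nat_lit 34) (.e (nat_lit 393252) (nat_lit 18) (.e (nat_lit 164332) (nat_lit 230) (.e (nat_lit 163867) (nat_lit 2) .nil))))) .nil)) 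
(.lf (nat_lit 134192) (.g (nat_lit 5768) (.e (nat_lit 16438) (nat_lit 9) (.e (nat_lit 426436) (nat_lit 18) (.e (nat_lit 98335) (nat_lit 18) (.e (nat_lit 164330) (nat_lit 230) (.e (nat_lit 163936) (nat_lit 18) (.e (nat_lit 483072) (nat_lit 10) .nil)))))) (.g (nat_lit 5) .nil .nil))))) (.nd (nat_lit 4) (.nd (nat_lit 5) 
(.lf (nat_lit 134152) (.g (nat_lit 1913) (.e (nat_lit 16437) (nat_lit 9) (.e (nat_lit 426556) (nat_lit 32) (.e (nat_lit 376859) (nat_lit 21) (.e (nat_lit 57848) (nat_lit 252) (.e (nat_lit 57386) (nat_lit 4) (.e (nat_lit 106534) (nat_lit 11) .nil)))))) (.g (nat_lit 0) .nil .nil))) 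
(.lf (nat_lit 134184) (.g (nat_lit 4156) (.e (nat_lit 16438) (nat_lit 9) (.e (nat_lit 426436) (nat_lit 18) (.e (nat_lit 98335) (nat_lit 18) (.e (nat_lit 164324) (nat_lit 230) .nil)))) .nil))) (.nd (nat_lit 5) 
(.lf (nat_lit 134168) (.g (nat_lit 2184) (.e (nat_lit 16437) (nat_lit 9) (.e (nat_lit 426568) (nat_lit 34) (.e (nat_lit 393253) (nat_lit 18) (.e (nat_lit 164332) (nat_lit 230) (.e (nat_lit 163867) (nat_lit 2) .nil))))) .nil)) 
(.lf (nat_lit 134200) (.g (nat_lit 528) (.e (nat_lit 16438) (nat_lit 9) (.e (nat_lit 426438) (nat_lit 18) (.e (nat_lit 98335) (nat_lit 18) .nil))) .nil))))) (.nd (nat_lit 3) (.nd (nat_lit 4) (.nd (nat_lit 5) 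
(.lf (nat_lit 134148) (.g (nat_lit 2694) (.e (nat_lit 16437) (nat_lit 9) (.e (nat_lit 426555) (nat_lit 32) (.e (nat_lit 376860) (nat_lit 21) (.e (nat_lit 57853) (nat_lit 252) (.e (nat_lit 57382) (nat_lit 4) (.e (nat_lit 106534) (nat_lit 11) .nil)))))) (.g (nat_lit 5) .nil .nil))) 
(.lf (nat_lit 134180) (.g (nat_lit 2346) (.e (nat_lit 16438) (nat_lit 9) (.e (nat_lit 426436) (nat_lit 18) (.e (nat_lit 98334) (nat_lit 18) (.e (nat_lit 164330) (nat_lit 230) (.e (nat_lit 163936) (nat_lit 18) .nil))))) .nil))) (.nd (nat_lit 5) 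
(.lf (nat_lit 134164) (.g (nat_lit 2214) (.e (nat_lit 16437) (nat_lit 9) (.e (nat_lit 426568) (nat_lit 34) (.e (nat_lit 393253) (nat_lit 18) (.e (nat_lit 164326) (nat_lit 230) (.e (nat_lit 163871) (nat_lit 2) .nil))))) .nil)) 
(.lf (nat_lit 134196) (.g (nat_lit 4307) (.e (nat_lit 16438) (nat_lit 9) (.e (nat_lit 426436) (nat_lit 18) (.e (nat_lit 98335) (nat_lit 18) (.e (nat_lit 164332) (nat_lit 230) (.e (nat_lit 163936) (nat_lit 18) .nil))))) .nil)))) (.nd (nat_lit 4) (.nd (nat_lit 5) 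
(.lf (nat_lit 134156) (.g (nat_lit 1454) (.e (nat_lit 16437) (nat_lit 9) (.e (nat_lit 426568) (nat_lit 34) (.e (nat_lit 393251) (nat_lit 18) (.e (nat_lit 164325) (nat_lit 230) .nil)))) .nil)) 
(.lf (nat_lit 134188) (.g (nat_lit 5168) (.e (nat_lit 16438) (nat_lit 9) (.e (nat_lit 426436) (nat_lit 18) (.e (nat_lit 98335) (nat_lit 18) (.e (nat_lit 164325) (nat_lit 230) (.e (nat_lit 163939) (nat_lit 18) (.e (nat_lit 483072) (nat_lit 10) .nil)))))) (.g (nat_lit 4) .nil .nil)))) (.nd (nat_lit 5) 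
(.lf (nat_lit 134172) (.g (nat_lit 3274) (.e (nat_lit 16438) (nat_lit 9) (.e (nat_lit 426354) (nat_lit 15) (.e (nat_lit 2031) (nat_lit 140) (.e (nat_lit 688177) (nat_lit 16) (.e (nat_lit 65617) (nat_lit 10) (.e (nat_lit 344163) (nat_lit 37) (.e (nat_lit 647199) (nat_lit 11) .nil))))))) (.g (nat_lit 5) .nil .nil))) 
(.lf (nat_lit 134204) (.g (nat_lit 2346) (.e (nat_lit 16438) (nat_lit 9) (.e (nat_lit 426480) (nat_lit 27) (.e (nat_lit 336389) (nat_lit 27) (.e (nat_lit 426098) (nat_lit 1) (.e (nat_lit 164327) (nat_lit 230) (.e (nat_lit 163871) (nat_lit 2) (.e (nat_lit 196654) (nat_lit 11) .nil))))))) (.g (nat_lit 4) .nil .nil))))))) (.nd (nat_lit 2) (.nd (nat_lit 3) (.nd (nat_lit 4) (.nd (nat_lit 5) 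
(.lf (nat_lit 134146) (.g (nat_lit 2592) (.e (nat_lit 16437) (nat_lit 9) (.e (nat_lit 426555) (nat_lit 32) (.e (nat_lit 376860) (nat_lit 21) (.e (nat_lit 57852) (nat_lit 252) (.e (nat_lit 57382) (nat_lit 4) .nil))))) .nil)) 
(.lf (nat_lit 134178) (.g (nat_lit 470) (.e (nat_lit 16438) (nat_lit 9) (.e (nat_lit 426428) (nat_lit 17) (.e (nat_lit 98048) (nat_lit 6) .nil))) .nil))) (.nd (nat_lit 5) 
(.lf (nat_lit 134162) (.g (nat_lit 1512) (.e (nat_lit 16437) (nat_lit 9) (.e (nat_lit 426568) (nat_lit 34) (.e (nat_lit 393253) (nat_lit 18) (.e (nat_lit 164324) (nat_lit 230) .nil)))) .nil)) 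
(.lf (nat_lit 134194) (.g (nat_lit 4136) (.e (nat_lit 16438) (nat_lit 9) (.e (nat_lit 426436) (nat_lit 18) (.e (nat_lit 98335) (nat_lit 18) (.e (nat_lit 164331) (nat_lit 230) .nil)))) .nil)))) (.nd (nat_lit 4) (.nd (nat_lit 5) 
(.lf (nat_lit 134154) (.g (nat_lit 3420) (.e (nat_lit 16437) (nat_lit 9) (.e (nat_lit 426566) (nat_lit 34) (.e (nat_lit 393253) (nat_lit 18) (.e (nat_lit 164326) (nat_lit 230) (.e (nat_lit 163868) (nat_lit 2) (.e (nat_lit 196655) (nat_lit 11) .nil)))))) (.g (nat_lit 6) .nil .nil))) 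
(.lf (nat_lit 134186) (.g (nat_lit 4955) (.e (nat_lit 16438) (nat_lit 9) (.e (nat_lit 426436) (nat_lit 18) (.e (nat_lit 98335) (nat_lit 18) (.e (nat_lit 164325) (nat_lit 230) (.e (nat_lit 163936) (nat_lit 18) (.e (nat_lit 483072) (nat_lit 10) .nil)))))) (.g (nat_lit 4) .nil .nil)))) (.nd (nat_lit 5) 
(.lf (nat_lit 134170) (.g (nat_lit 1425) (.e (nat_lit 16438) (nat_lit 9) (.e (nat_lit 426131) (nat_lit 3) (.e (nat_lit 212736) (nat_lit 16) (.e (nat_lit 491566) (nat_lit 12) (.e (nat_lit 392960) (nat_lit 2) .nil))))) (.g (nat_lit 4) .nil .nil))) 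
(.lf (nat_lit 134202) (.g (nat_lit 2493) (.e (nat_lit 16438) (nat_lit 9) (.e (nat_lit 426478) (nat_lit 27) (.e (nat_lit 336389) (nat_lit 27) (.e (nat_lit 426098) (nat_lit 1) (.e (nat_lit 164327) (nat_lit 230) (.e (nat_lit 163871) (nat_lit 2) (.e (nat_lit 196654) (nat_lit 11) .nil))))))) (.g (nat_lit 4) .nil .nil)))))) (.nd (nat_lit 3) (.nd (nat_lit 4) (.nd (nat_lit 5) 
(.lf (nat_lit 134150) (.g (nat_lit 1245) (.e (nat_lit 16437) (nat_lit 9) (.e (nat_lit 426556) (nat_lit 32) (.e (nat_lit 376859) (nat_lit 21) (.e (nat_lit 57847) (nat_lit 252) (.e (nat_lit 57383) (nat_lit 4) .nil))))) .nil)) 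
(.lf (nat_lit 134182) (.g (nat_lit 4028) (.e (nat_lit 16438) (nat_lit 9) (.e (nat_lit 426436) (nat_lit 18) (.e (nat_lit 98335) (nat_lit 18) (.e (nat_lit 164305) (nat_lit 226) .nil)))) .nil))) (.nd (nat_lit 5) 
(.lf (nat_lit 134166) (.g (nat_lit 1431) (.e (nat_lit 16437) (nat_lit 9) (.e (nat_lit 426568) (nat_lit 34) (.e (nat_lit 393253) (nat_lit 18) (.e (nat_lit 164330) (nat_lit 230) .nil)))) .nil)) 
(.lf (nat_lit 134198) (.g (nat_lit 4556) (.e (nat_lit 16438) (nat_lit 9) (.e (nat_lit 426436) (nat_lit 18) (.e (nat_lit 98335) (nat_lit 18) (.e (nat_lit 164348) (nat_lit 240) .nil)))) .nil)))) (.nd (nat_lit 4) (.nd (nat_lit 5) 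
(.lf (nat_lit 134158) (.g (nat_lit 676) (.e (nat_lit 16437) (nat_lit 9) (.e (nat_lit 426568) (nat_lit 34) (.e (nat_lit 393252) (nat_lit 18) .nil))) .nil)) 
(.lf (nat_lit 134190) (.g (nat_lit 2821) (.e (nat_lit 16438) (nat_lit 9) (.e (nat_lit 426436) (nat_lit 18) (.e (nat_lit 98335) (nat_lit 18) (.e (nat_lit 164329) (nat_lit 230) .nil)))) .nil))) (.nd (nat_lit 5) 
(.lf (nat_lit 134174) (.g (nat_lit 1100) (.e (nat_lit 16438) (nat_lit 9) (.e (nat_lit 426364) (nat_lit 15) (.e (nat_lit 2024) (nat_lit 140) (.e (nat_lit 688177) (nat_lit 16) (.e (nat_lit 65617) (nat_lit 10) .nil))))) .nil)) 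
(.lf (nat_lit 134206) (.g (nat_lit 2221) (.e (nat_lit 16438) (nat_lit 9) (.e (nat_lit 426481) (nat_lit 27) (.e (nat_lit 336389) (nat_lit 27) (.e (nat_lit 426098) (nat_lit 1) (.e (nat_lit 164327) (nat_lit 230) (.e (nat_lit 163871) (nat_lit 2) (.e (nat_lit 196654) (nat_lit 11) .nil))))))) (.g (nat_lit 4) .nil .nil)))))))) 
(.nd (nat_lit 1) (.nd (nat_lit 2) (.nd (nat_lit 3) (.nd (nat_lit 4) (.nd (nat_lit 5) 
(.lf (nat_lit 134145) (.g (nat_lit 2166) (.e (nat_lit 16437) (nat_lit 9) (.e (nat_lit 426555) (nat_lit 32) (.e (nat_lit 376860) (nat_lit 21) (.e (nat_lit 57852) (nat_lit 252) (.e (nat_lit 57381) (nat_lit 4) .nil))))) .nil)) 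
(.lf (nat_lit 134177) (.g (nat_lit 2632) (.e (nat_lit 16438) (nat_lit 9) (.e (nat_lit 426402) (nat_lit 15) (.e (nat_lit 2030) (nat_lit 140) (.e (nat_lit 688177) (nat_lit 16) (.e (nat_lit 65617) (nat_lit 10) (.e (nat_lit 344163) (nat_lit 37) (.e (nat_lit 647199) (nat_lit 11) .nil))))))) (.g (nat_lit 5) .nil .nil)))) (.nd (nat_lit 5) 
(.lf (nat_lit 134161) (.g (nat_lit 1944) (.e (nat_lit 16437) (nat_lit 9) (.e (nat_lit 426568) (nat_lit 34) (.e (nat_lit 393252) (nat_lit 18) (.e (nat_lit 164332) (nat_lit 230) (.e (nat_lit 163869) (nat_lit 2) .nil))))) .nil)) 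
(.lf (nat_lit 134193) (.g (nat_lit 5810) (.e (nat_lit 16438) (nat_lit 9) (.e (nat_lit 426436) (nat_lit 18) (.e (nat_lit 98335) (nat_lit 18) (.e (nat_lit 164330) (nat_lit 230) (.e (nat_lit 163938) (nat_lit 18) (.e (nat_lit 483072) (nat_lit 10) .nil)))))) (.g (nat_lit 5) .nil .nil))))) (.nd (nat_lit 4) (.nd (nat_lit 5) 
(.lf (nat_lit 134153) (.g (nat_lit 606) (.e (nat_lit 16437) (nat_lit 9) (.e (nat_lit 426562) (nat_lit 33) (.e (nat_lit 385041) (nat_lit 19) .nil))) .nil)) 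
(.lf (nat_lit 134185) (.g (nat_lit 4093) (.e (nat_lit 16438) (nat_lit 9) (.e (nat_lit 426436) (nat_lit 18) (.e (nat_lit 98335) (nat_lit 18) (.e (nat_lit 164325) (nat_lit 230) .nil)))) .nil))) (.nd (nat_lit 5) 
(.lf (nat_lit 134169) (.g (nat_lit 2246) (.e (nat_lit 16437) (nat_lit 9) (.e (nat_lit 426568) (nat_lit 34) (.e (nat_lit 393253) (nat_lit 18) (.e (nat_lit 164332) (nat_lit 230) (.e (nat_lit 163869) (nat_lit 2) .nil))))) .nil)) 
(.lf (nat_lit 134201) (.g (nat_lit 2512) (.e (nat_lit 16438) (nat_lit 9) (.e (nat_lit 426478) (nat_lit 27) (.e (nat_lit 336389) (nat_lit 27) (.e (nat_lit 426098) (nat_lit 1) (.e (nat_lit 164327) (nat_lit 230) (.e (nat_lit 163868) (nat_lit 2) (.e (nat_lit 196654) (nat_lit 11) .nil))))))) (.g (nat_lit 4) .nil .nil)))))) (.nd (nat_lit 3) (.nd (nat_lit 4) (.nd (nat_lit 5) 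
(.lf (nat_lit 134149) (.g (nat_lit 3366) (.e (nat_lit 16437) (nat_lit 9) (.e (nat_lit 426555) (nat_lit 32) (.e (nat_lit 376860) (nat_lit 21) (.e (nat_lit 57854) (nat_lit 252) (.e (nat_lit 57382) (nat_lit 4) (.e (nat_lit 106534) (nat_lit 11) .nil)))))) (.g (nat_lit 0) .nil .nil))) 
(.lf (nat_lit 134181) (.g (nat_lit 2591) (.e (nat_lit 16438) (nat_lit 9) (.e (nat_lit 426436) (nat_lit 18) (.e (nat_lit 98334) (nat_lit 18) (.e (nat_lit 164330) (nat_lit 230) (.e (nat_lit 163938) (nat_lit 18) .nil))))) .nil))) (.nd (nat_lit 5) 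
(.lf (nat_lit 134165) (.g (nat_lit 1479) (.e (nat_lit 16437) (nat_lit 9) (.e (nat_lit 426568) (nat_lit 34) (.e (nat_lit 393253) (nat_lit 18) (.e (nat_lit 164329) (nat_lit 230) .nil)))) .nil)) 
(.lf (nat_lit 134197) (.g (nat_lit 4709) (.e (nat_lit 16438) (nat_lit 9) (.e (nat_lit 426436) (nat_lit 18) (.e (nat_lit 98335) (nat_lit 18) (.e (nat_lit 164332) (nat_lit 230) (.e (nat_lit 163938) (nat_lit 18) (.e (nat_lit 483072) (nat_lit 10) .nil)))))) (.g (nat_lit 4) .nil .nil))))) (.nd (nat_lit 4) (.nd (nat_lit 5) 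
(.lf (nat_lit 134157) (.g (nat_lit 2247) (.e (nat_lit 16437) (nat_lit 9) (.e (nat_lit 426568) (nat_lit 34) (.e (nat_lit 393251) (nat_lit 18) (.e (nat_lit 164332) (nat_lit 230) (.e (nat_lit 163867) (nat_lit 2) .nil))))) .nil)) 
(.lf (nat_lit 134189) (.g (nat_lit 4673) (.e (nat_lit 16438) (nat_lit 9) (.e (nat_lit 426436) (nat_lit 18) (.e (nat_lit 98335) (nat_lit 18) (.e (nat_lit 164326) (nat_lit 230) .nil)))) .nil))) (.nd (nat_lit 5) 
(.lf (nat_lit 134173) (.g (nat_lit 184) (.e (nat_lit 16438) (nat_lit 9) (.e (nat_lit 426364) (nat_lit 15) (.e (nat_lit 982) (nat_lit 81) .nil))) .nil)) 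
(.lf (nat_lit 134205) (.g (nat_lit 2240) (.e (nat_lit 16438) (nat_lit 9) (.e (nat_lit 426481) (nat_lit 27) (.e (nat_lit 336389) (nat_lit 27) (.e (nat_lit 426098) (nat_lit 1) (.e (nat_lit 164327) (nat_lit 230) (.e (nat_lit 163868) (nat_lit 2) (.e (nat_lit 196654) (nat_lit 11) .nil))))))) (.g (nat_lit 4) .nil .nil))))))) (.nd (nat_lit 2) (.nd (nat_lit 3) (.nd (nat_lit 4) (.nd (nat_lit 5) 
(.lf (nat_lit 134147) (.g (nat_lit 2266) (.e (nat_lit 16437) (nat_lit 9) (.e (nat_lit 426555) (nat_lit 32) (.e (nat_lit 376860) (nat_lit 21) (.e (nat_lit 57853) (nat_lit 252) (.e (nat_lit 57382) (nat_lit 4) .nil))))) .nil)) 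
(.lf (nat_lit 134179) (.g (nat_lit 1019) (.e (nat_lit 16438) (nat_lit 9) (.e (nat_lit 426432) (nat_lit 17) (.e (nat_lit 98048) (nat_lit 6) (.e (nat_lit 81920) (nat_lit 0) (.e (nat_lit 7936) (nat_lit 404) .nil))))) (.g (nat_lit 4) .nil .nil)))) (.nd (nat_lit 5) 
(.lf (nat_lit 134163) (.g (nat_lit 2226) (.e (nat_lit 16437) (nat_lit 9) (.e (nat_lit 426568) (nat_lit 34) (.e (nat_lit 393253) (nat_lit 18) (.e (nat_lit 164326) (nat_lit 230) (.e (nat_lit 163868) (nat_lit 2) .nil))))) .nil)) 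
(.lf (nat_lit 134195) (.g (nat_lit 3549) (.e (nat_lit 16438) (nat_lit 9) (.e (nat_lit 426436) (nat_lit 18) (.e (nat_lit 98335) (nat_lit 18) (.e (nat_lit 164332) (nat_lit 230) .nil)))) .nil)))) (.nd (nat_lit 4) (.nd (nat_lit 5) 
(.lf (nat_lit 134155) (.g (nat_lit 3285) (.e (nat_lit 16437) (nat_lit 9) (.e (nat_lit 426566) (nat_lit 34) (.e (nat_lit 393253) (nat_lit 18) (.e (nat_lit 164326) (nat_lit 230) (.e (nat_lit 163871) (nat_lit 2) (.e (nat_lit 196655) (nat_lit 11) .nil)))))) (.g (nat_lit 6) .nil .nil))) 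
(.lf (nat_lit 134187) (.g (nat_lit 5212) (.e (nat_lit 16438) (nat_lit 9) (.e (nat_lit 426436) (nat_lit 18) (.e (nat_lit 98335) (nat_lit 18) (.e (nat_lit 164325) (nat_lit 230) (.e (nat_lit 163938) (nat_lit 18) (.e (nat_lit 483072) (nat_lit 10) .nil)))))) (.g (nat_lit 4) .nil .nil)))) (.nd (nat_lit 5) 
(.lf (nat_lit 134171) (.g (nat_lit 1391) (.e (nat_lit 16438) (nat_lit 9) (.e (nat_lit 426131) (nat_lit 3) (.e (nat_lit 204880) (nat_lit 32) (.e (nat_lit 385096) (nat_lit 49) .nil)))) .nil)) 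
(.lf (nat_lit 134203) (.g (nat_lit 2365) (.e (nat_lit 16438) (nat_lit 9) (.e (nat_lit 426480) (nat_lit 27) (.e (nat_lit 336389) (nat_lit 27) (.e (nat_lit 426098) (nat_lit 1) (.e (nat_lit 164327) (nat_lit 230) (.e (nat_lit 163868) (nat_lit 2) (.e (nat_lit 196654) (nat_lit 11) .nil))))))) (.g (nat_lit 4) .nil .nil)))))) (.nd (nat_lit 3) (.nd (nat_lit 4) (.nd (nat_lit 5) 
(.lf (nat_lit 134151) (.g (nat_lit 1843) (.e (nat_lit 16437) (nat_lit 9) (.e (nat_lit 426556) (nat_lit 32) (.e (nat_lit 376859) (nat_lit 21) (.e (nat_lit 57848) (nat_lit 252) (.e (nat_lit 57383) (nat_lit 4) (.e (nat_lit 106534) (nat_lit 11) .nil)))))) (.g (nat_lit 0) .nil .nil))) 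
(.lf (nat_lit 134183) (.g (nat_lit 5642) (.e (nat_lit 16438) (nat_lit 9) (.e (nat_lit 426436) (nat_lit 18) (.e (nat_lit 98335) (nat_lit 18) (.e (nat_lit 164305) (nat_lit 226) (.e (nat_lit 2630) (nat_lit 164) (.e (nat_lit 172135) (nat_lit 15) (.e (nat_lit 7936) (nat_lit 345) .nil))))))) (.g (nat_lit 5) .nil .nil)))) (.nd (nat_lit 5) 
(.lf (nat_lit 134167) (.g (nat_lit 2154) (.e (nat_lit 16437) (nat_lit 9) (.e (nat_lit 426568) (nat_lit 34) (.e (nat_lit 393253) (nat_lit 18) (.e (nat_lit 164331) (nat_lit 230) (.e (nat_lit 163867) (nat_lit 2) .nil))))) .nil)) 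
(.lf (nat_lit 134199) (.g (nat_lit 4338) (.e (nat_lit 16438) (nat_lit 9) (.e (nat_lit 426436) (nat_lit 18) (.e (nat_lit 98335) (nat_lit 18) (.e (nat_lit 164403) (nat_lit 256) .nil)))) .nil)))) (.nd (nat_lit 4) (.nd (nat_lit 5) 
(.lf (nat_lit 134159) (.g (nat_lit 1315) (.e (nat_lit 16437) (nat_lit 9) (.e (nat_lit 426568) (nat_lit 34) (.e (nat_lit 393252) (nat_lit 18) (.e (nat_lit 164330) (nat_lit 230) .nil)))) .nil)) 
(.lf (nat_lit 134191) (.g (nat_lit 3997) (.e (nat_lit 16438) (nat_lit 9) (.e (nat_lit 426436) (nat_lit 18) (.e (nat_lit 98335) (nat_lit 18) (.e (nat_lit 164330) (nat_lit 230) .nil)))) .nil))) (.nd (nat_lit 5) 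
(.lf (nat_lit 134175) (.g (nat_lit 1676) (.e (nat_lit 16438) (nat_lit 9) (.e (nat_lit 426364) (nat_lit 15) (.e (nat_lit 2160) (nat_lit 143) (.e (nat_lit 712755) (nat_lit 30) (.e (nat_lit 450562) (nat_lit 0) (.e (nat_lit 4756) (nat_lit 281) (.e (nat_lit 1125) (nat_lit 83) .nil))))))) (.g (nat_lit 5) .nil .nil))) 
(.lf (nat_lit 134207) (.g (nat_lit 1237) (.e (nat_lit 16438) (nat_lit 9) (.e (nat_lit 426482) (nat_lit 27) (.e (nat_lit 335907) (nat_lit 0) (.e (nat_lit 6218) (nat_lit 333) .nil)))) .nil))))))))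

noncomputable def tv1790 : DT := (.nd (nat_lit 0) (.nd (nat_lit 1) (.nd (nat_lit 2) (.nd (nat_lit 3) (.nd (nat_lit 4) (.nd (nat_lit 5) 
(.lf (nat_lit 134208) (.g (nat_lit 2831) (.e (nat_lit 16438) (nat_lit 9) (.e (nat_lit 426482) (nat_lit 27) (.e (nat_lit 335907) (nat_lit 0) (.e (nat_lit 6218) (nat_lit 333) (.e (nat_lit 57810) (nat_lit 246) (.e (nat_lit 57602) (nat_lit 107) (.e (nat_lit 704734) (nat_lit 11) .nil))))))) (.g (nat_lit 4) .nil .nil))) 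
(.lf (nat_lit 134240) (.g (nat_lit 3591) (.e (nat_lit 16438) (nat_lit 9) (.e (nat_lit 426530) (nat_lit 27) (.e (nat_lit 336390) (nat_lit 27) (.e (nat_lit 426098) (nat_lit 1) (.e (nat_lit 164325) (nat_lit 230) (.e (nat_lit 163871) (nat_lit 2) (.e (nat_lit 196656) (nat_lit 11) .nil))))))) (.g (nat_lit 5) .nil .nil)))) (.nd (nat_lit 5) 
(.lf (nat_lit 134224) (.g (nat_lit 2279) (.e (nat_lit 16438) (nat_lit 9) (.e (nat_lit 426482) (nat_lit 27) (.e (nat_lit 336388) (nat_lit 27) (.e (nat_lit 426100) (nat_lit 1) (.e (nat_lit 164332) (nat_lit 230) (.e (nat_lit 163867) (nat_lit 2) (.e (nat_lit 196652) (nat_lit 11) .nil))))))) (.g (nat_lit 4) .nil .nil))) 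
(.lf (nat_lit 134256) (.g (nat_lit 2688) (.e (nat_lit 16438) (nat_lit 9) (.e (nat_lit 426542) (nat_lit 29) (.e (nat_lit 352307) (nat_lit 21) (.e (nat_lit 57847) (nat_lit 252) (.e (nat_lit 57386) (nat_lit 4) (.e (nat_lit 106534) (nat_lit 11) .nil)))))) (.g (nat_lit 4) .nil .nil))))) (.nd (nat_lit 4) (.nd (nat_lit 5) 
(.lf (nat_lit 134216) (.g (nat_lit 2470) (.e (nat_lit 16438) (nat_lit 9) (.e (nat_lit 426482) (nat_lit 27) (.e (nat_lit 336060) (nat_lit 7) (.e (nat_lit 319534) (nat_lit 16) (.e (nat_lit 286728) (nat_lit 0) (.e (nat_lit 2390) (nat_lit 156) (.e (nat_lit 827136) (nat_lit 11) .nil))))))) (.g (nat_lit 6) .nil .nil))) 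
(.lf (nat_lit 134248) (.g (nat_lit 2176) (.e (nat_lit 16438) (nat_lit 9) (.e (nat_lit 426539) (nat_lit 29) (.e (nat_lit 352309) (nat_lit 21) (.e (nat_lit 57848) (nat_lit 252) (.e (nat_lit 57386) (nat_lit 4) (.e (nat_lit 106536) (nat_lit 11) .nil)))))) (.g (nat_lit 4) .nil .nil)))) (.nd (nat_lit 5) 
(.lf (nat_lit 134232) (.g (nat_lit 2355) (.e (nat_lit 16438) (nat_lit 9) (.e (nat_lit 426509) (nat_lit 27) (.e (nat_lit 336228) (nat_lit 14) (.e (nat_lit 401454) (nat_lit 12) (.e (nat_lit 475191) (nat_lit 36) (.e (nat_lit 614435) (nat_lit 11) .nil)))))) (.g (nat_lit 4) .nil .nil))) 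
(.lf (nat_lit 134264) (.g (nat_lit 2492) (.e (nat_lit 16438) (nat_lit 9) (.e (nat_lit 426542) (nat_lit 29) (.e (nat_lit 352309) (nat_lit 21) (.e (nat_lit 57849) (nat_lit 252) (.e (nat_lit 57381) (nat_lit 4) (.e (nat_lit 106536) (nat_lit 11) .nil)))))) (.g (nat_lit 4) .nil .nil)))))) (.nd (nat_lit 3) (.nd (nat_lit 4) (.nd (nat_lit 5) 
(.lf (nat_lit 134212) (.g (nat_lit 1236) (.e (nat_lit 16438) (nat_lit 9) (.e (nat_lit 426482) (nat_lit 27) (.e (nat_lit 336060) (nat_lit 7) (.e (nat_lit 319534) (nat_lit 16) (.e (nat_lit 286728) (nat_lit 0) .nil))))) .nil)) 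
(.lf (nat_lit 134244) (.g (nat_lit 1943) (.e (nat_lit 16438) (nat_lit 9) (.e (nat_lit 426539) (nat_lit 29) (.e (nat_lit 352309) (nat_lit 21) (.e (nat_lit 57848) (nat_lit 252) (.e (nat_lit 57383) (nat_lit 4) (.e (nat_lit 106534) (nat_lit 11) .nil)))))) (.g (nat_lit 4) .nil .nil)))) (.nd (nat_lit 5) 
(.lf (nat_lit 134228) (.g (nat_lit 3301) (.e (nat_lit 16438) (nat_lit 9) (.e (nat_lit 426482) (nat_lit 27) (.e (nat_lit 336388) (nat_lit 27) (.e (nat_lit 426108) (nat_lit 1) (.e (nat_lit 164329) (nat_lit 230) (.e (nat_lit 163867) (nat_lit 2) (.e (nat_lit 196652) (nat_lit 11) .nil))))))) (.g (nat_lit 5) .nil .nil))) 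
(.lf (nat_lit 134260) (.g (nat_lit 3154) (.e (nat_lit 16438) (nat_lit 9) (.e (nat_lit 426542) (nat_lit 29) (.e (nat_lit 352307) (nat_lit 21) (.e (nat_lit 57849) (nat_lit 252) (.e (nat_lit 57386) (nat_lit 4) (.e (nat_lit 106534) (nat_lit 11) .nil)))))) (.g (nat_lit 0) .nil .nil))))) (.nd (nat_lit 4) (.nd (nat_lit 5) 
(.lf (nat_lit 134220) (.g (nat_lit 2958) (.e (nat_lit 16438) (nat_lit 9) (.e (nat_lit 426482) (nat_lit 27) (.e (nat_lit 336385) (nat_lit 27) (.e (nat_lit 426100) (nat_lit 1) (.e (nat_lit 164332) (nat_lit 230) (.e (nat_lit 163867) (nat_lit 2) (.e (nat_lit 196656) (nat_lit 11) .nil))))))) (.g (nat_lit 4) .nil .nil))) 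
(.lf (nat_lit 134252) (.g (nat_lit 2274) (.e (nat_lit 16438) (nat_lit 9) (.e (nat_lit 426542) (nat_lit 29) (.e (nat_lit 352307) (nat_lit 21) (.e (nat_lit 57844) (nat_lit 252) (.e (nat_lit 57382) (nat_lit 4) (.e (nat_lit 106536) (nat_lit 11) .nil)))))) (.g (nat_lit 4) .nil .nil)))) (.nd (nat_lit 5) 
(.lf (nat_lit 134236) (.g (nat_lit 3260) (.e (nat_lit 16438) (nat_lit 9) (.e (nat_lit 426530) (nat_lit 27) (.e (nat_lit 336390) (nat_lit 27) (.e (nat_lit 426098) (nat_lit 1) (.e (nat_lit 164325) (nat_lit 230) (.e (nat_lit 163868) (nat_lit 2) (.e (nat_lit 196654) (nat_lit 11) .nil))))))) (.g (nat_lit 5) .nil .nil))) 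
(.lf (nat_lit 134268) (.g (nat_lit 2360) (.e (nat_lit 16438) (nat_lit 9) (.e (nat_lit 426546) (nat_lit 30) (.e (nat_lit 360452) (nat_lit 0) (.e (nat_lit 5195) (nat_lit 294) (.e (nat_lit 57386) (nat_lit 4) (.e (nat_lit 106534) (nat_lit 11) .nil)))))) (.g (nat_lit 0) .nil .nil))))))) (.nd (nat_lit 2) (.nd (nat_lit 3) (.nd (nat_lit 4) (.nd (nat_lit 5) 
(.lf (nat_lit 134210) (.g (nat_lit 3107) (.e (nat_lit 16438) (nat_lit 9) (.e (nat_lit 426482) (nat_lit 27) (.e (nat_lit 336060) (nat_lit 7) (.e (nat_lit 319506) (nat_lit 10) (.e (nat_lit 4994) (nat_lit 288) (.e (nat_lit 57602) (nat_lit 107) (.e (nat_lit 704734) (nat_lit 11) .nil))))))) (.g (nat_lit 4) .nil .nil))) 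
(.lf (nat_lit 134242) (.g (nat_lit 1013) (.e (nat_lit 16438) (nat_lit 9) (.e (nat_lit 426538) (nat_lit 29) (.e (nat_lit 352307) (nat_lit 21) (.e (nat_lit 57849) (nat_lit 252) .nil)))) .nil))) (.nd (nat_lit 5) 
(.lf (nat_lit 134226) (.g (nat_lit 2500) (.e (nat_lit 16438) (nat_lit 9) (.e (nat_lit 426482) (nat_lit 27) (.e (nat_lit 336388) (nat_lit 27) (.e (nat_lit 426107) (nat_lit 1) (.e (nat_lit 164322) (nat_lit 230) (.e (nat_lit 163867) (nat_lit 2) (.e (nat_lit 196652) (nat_lit 11) .nil))))))) (.g (nat_lit 4) .nil .nil))) 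
(.lf (nat_lit 134258) (.g (nat_lit 2905) (.e (nat_lit 16438) (nat_lit 9) (.e (nat_lit 426542) (nat_lit 29) (.e (nat_lit 352307) (nat_lit 21) (.e (nat_lit 57848) (nat_lit 252) (.e (nat_lit 57386) (nat_lit 4) (.e (nat_lit 106534) (nat_lit 11) .nil)))))) (.g (nat_lit 0) .nil .nil))))) (.nd (nat_lit 4) (.nd (nat_lit 5) 
(.lf (nat_lit 134218) (.g (nat_lit 944) (.e (nat_lit 16438) (nat_lit 9) (.e (nat_lit 426482) (nat_lit 27) (.e (nat_lit 336089) (nat_lit 9) (.e (nat_lit 336334) (nat_lit 20) .nil)))) .nil)) 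
(.lf (nat_lit 134250) (.g (nat_lit 327) (.e (nat_lit 16438) (nat_lit 9) (.e (nat_lit 426542) (nat_lit 29) (.e (nat_lit 352264) (nat_lit 0) .nil))) .nil))) (.nd (nat_lit 5) 
(.lf (nat_lit 134234) (.g (nat_lit 397) (.e (nat_lit 16438) (nat_lit 9) (.e (nat_lit 426530) (nat_lit 27) (.e (nat_lit 335872) (nat_lit 0) .nil))) .nil)) 
(.lf (nat_lit 134266) (.g (nat_lit 1626) (.e (nat_lit 16438) (nat_lit 9) (.e (nat_lit 426544) (nat_lit 30) (.e (nat_lit 360482) (nat_lit 15) (.e (nat_lit 647201) (nat_lit 12) (.e (nat_lit 57509) (nat_lit 39) (.e (nat_lit 647199) (nat_lit 11) .nil)))))) (.g (nat_lit 4) .nil .nil)))))) (.nd (nat_lit 3) (.nd (nat_lit 4) (.nd (nat_lit 5) 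
(.lf (nat_lit 134214) (.g (nat_lit 1930) (.e (nat_lit 16438) (nat_lit 9) (.e (nat_lit 426482) (nat_lit 27) (.e (nat_lit 336060) (nat_lit 7) (.e (nat_lit 319534) (nat_lit 16) (.e (nat_lit 286728) (nat_lit 0) (.e (nat_lit 993) (nat_lit 81) (.e (nat_lit 7605) (nat_lit 410) (.e (nat_lit 1124) (nat_lit 83) .nil)))))))) (.g (nat_lit 4) .nil .nil))) 
(.lf (nat_lit 134246) (.g (nat_lit 2031) (.e (nat_lit 16438) (nat_lit 9) (.e (nat_lit 426539) (nat_lit 29) (.e (nat_lit 352309) (nat_lit 21) (.e (nat_lit 57848) (nat_lit 252) (.e (nat_lit 57385) (nat_lit 4) (.e (nat_lit 106536) (nat_lit 11) .nil)))))) (.g (nat_lit 4) .nil .nil)))) (.nd (nat_lit 5) 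
(.lf (nat_lit 134230) (.g (nat_lit 3343) (.e (nat_lit 16438) (nat_lit 9) (.e (nat_lit 426482) (nat_lit 27) (.e (nat_lit 336388) (nat_lit 27) (.e (nat_lit 426108) (nat_lit 1) (.e (nat_lit 164332) (nat_lit 230) (.e (nat_lit 163867) (nat_lit 2) (.e (nat_lit 196656) (nat_lit 11) .nil))))))) (.g (nat_lit 5) .nil .nil))) 
(.lf (nat_lit 134262) (.g (nat_lit 2315) (.e (nat_lit 16438) (nat_lit 9) (.e (nat_lit 426542) (nat_lit 29) (.e (nat_lit 352307) (nat_lit 21) (.e (nat_lit 57853) (nat_lit 252) (.e (nat_lit 57382) (nat_lit 4) (.e (nat_lit 106534) (nat_lit 11) .nil)))))) (.g (nat_lit 4) .nil .nil))))) (.nd (nat_lit 4) (.nd (nat_lit 5) 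
(.lf (nat_lit 134222) (.g (nat_lit 2969) (.e (nat_lit 16438) (nat_lit 9) (.e (nat_lit 426482) (nat_lit 27) (.e (nat_lit 336385) (nat_lit 27) (.e (nat_lit 426108) (nat_lit 1) (.e (nat_lit 164330) (nat_lit 230) (.e (nat_lit 163867) (nat_lit 2) (.e (nat_lit 196656) (nat_lit 11) .nil))))))) (.g (nat_lit 4) .nil .nil))) 
(.lf (nat_lit 134254) (.g (nat_lit 2586) (.e (nat_lit 16438) (nat_lit 9) (.e (nat_lit 426542) (nat_lit 29) (.e (nat_lit 352307) (nat_lit 21) (.e (nat_lit 57847) (nat_lit 252) (.e (nat_lit 57385) (nat_lit 4) (.e (nat_lit 106534) (nat_lit 11) .nil)))))) (.g (nat_lit 4) .nil .nil)))) (.nd (nat_lit 5) 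
(.lf (nat_lit 134238) (.g (nat_lit 3360) (.e (nat_lit 16438) (nat_lit 9) (.e (nat_lit 426530) (nat_lit 27) (.e (nat_lit 336390) (nat_lit 27) (.e (nat_lit 426098) (nat_lit 1) (.e (nat_lit 164325) (nat_lit 230) (.e (nat_lit 163869) (nat_lit 2) (.e (nat_lit 196654) (nat_lit 11) .nil))))))) (.g (nat_lit 5) .nil .nil))) 
(.lf (nat_lit 134270) (.g (nat_lit 153) (.e (nat_lit 16438) (nat_lit 9) (.e (nat_lit 426546) (nat_lit 30) (.e (nat_lit 368384) (nat_lit 0) .nil))) .nil))))))) (.nd (nat_lit 1) (.nd (nat_lit 2) (.nd (nat_lit 3) (.nd (nat_lit 4) (.nd (nat_lit 5) 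
(.lf (nat_lit 134209) (.g (nat_lit 1489) (.e (nat_lit 16438) (nat_lit 9) (.e (nat_lit 426482) (nat_lit 27) (.e (nat_lit 336060) (nat_lit 7) (.e (nat_lit 319505) (nat_lit 10) (.e (nat_lit 4987) (nat_lit 288) .nil))))) .nil)) 
(.lf (nat_lit 134241) (.g (nat_lit 907) (.e (nat_lit 16438) (nat_lit 9) (.e (nat_lit 426533) (nat_lit 28) (.e (nat_lit 352000) (nat_lit 4) (.e (nat_lit 172076) (nat_lit 6) (.e (nat_lit 253989) (nat_lit 11) .nil))))) (.g (nat_lit 4) .nil .nil)))) (.nd (nat_lit 5) 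
(.lf (nat_lit 134225) (.g (nat_lit 3687) (.e (nat_lit 16438) (nat_lit 9) (.e (nat_lit 426482) (nat_lit 27) (.e (nat_lit 336388) (nat_lit 27) (.e (nat_lit 426100) (nat_lit 1) (.e (nat_lit 164332) (nat_lit 230) (.e (nat_lit 163867) (nat_lit 2) (.e (nat_lit 196656) (nat_lit 11) .nil))))))) (.g (nat_lit 6) .nil .nil))) 
(.lf (nat_lit 134257) (.g (nat_lit 2749) (.e (nat_lit 16438) (nat_lit 9) (.e (nat_lit 426542) (nat_lit 29) (.e (nat_lit 352307) (nat_lit 21) (.e (nat_lit 57847) (nat_lit 252) (.e (nat_lit 57386) (nat_lit 4) (.e (nat_lit 106536) (nat_lit 11) .nil)))))) (.g (nat_lit 4) .nil .nil))))) (.nd (nat_lit 4) (.nd (nat_lit 5) 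
(.lf (nat_lit 134217) (.g (nat_lit 1283) (.e (nat_lit 16438) (nat_lit 9) (.e (nat_lit 426482) (nat_lit 27) (.e (nat_lit 336060) (nat_lit 7) (.e (nat_lit 327424) (nat_lit 18) .nil)))) .nil)) 
(.lf (nat_lit 134249) (.g (nat_lit 1070) (.e (nat_lit 16438) (nat_lit 9) (.e (nat_lit 426540) (nat_lit 29) (.e (nat_lit 352307) (nat_lit 21) (.e (nat_lit 57848) (nat_lit 252) .nil)))) .nil))) (.nd (nat_lit 5) 
(.lf (nat_lit 134233) (.g (nat_lit 2260) (.e (nat_lit 16438) (nat_lit 9) (.e (nat_lit 426509) (nat_lit 27) (.e (nat_lit 336457) (nat_lit 35) (.e (nat_lit 491546) (nat_lit 9) (.e (nat_lit 336013) (nat_lit 2) (.e (nat_lit 98048) (nat_lit 2) .nil)))))) (.g (nat_lit 5) .nil .nil))) 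
(.lf (nat_lit 134265) (.g (nat_lit 2039) (.e (nat_lit 16438) (nat_lit 9) (.e (nat_lit 426544) (nat_lit 30) (.e (nat_lit 360482) (nat_lit 15) (.e (nat_lit 647200) (nat_lit 12) (.e (nat_lit 57508) (nat_lit 39) (.e (nat_lit 647199) (nat_lit 11) .nil)))))) (.g (nat_lit 5) .nil .nil)))))) (.nd (nat_lit 3) (.nd (nat_lit 4) (.nd (nat_lit 5) 
(.lf (nat_lit 134213) (.g (nat_lit 2131) (.e (nat_lit 16438) (nat_lit 9) (.e (nat_lit 426482) (nat_lit 27) (.e (nat_lit 336060) (nat_lit 7) (.e (nat_lit 319534) (nat_lit 16) (.e (nat_lit 286728) (nat_lit 0) (.e (nat_lit 988) (nat_lit 81) (.e (nat_lit 7609) (nat_lit 410) (.e (nat_lit 1124) (nat_lit 83) .nil)))))))) (.g (nat_lit 4) .nil .nil))) 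
(.lf (nat_lit 134245) (.g (nat_lit 1752) (.e (nat_lit 16438) (nat_lit 9) (.e (nat_lit 426539) (nat_lit 29) (.e (nat_lit 352309) (nat_lit 21) (.e (nat_lit 57848) (nat_lit 252) (.e (nat_lit 57385) (nat_lit 4) (.e (nat_lit 106534) (nat_lit 11) .nil)))))) (.g (nat_lit 4) .nil .nil)))) (.nd (nat_lit 5) 
(.lf (nat_lit 134229) (.g (nat_lit 3819) (.e (nat_lit 16438) (nat_lit 9) (.e (nat_lit 426482) (nat_lit 27) (.e (nat_lit 336388) (nat_lit 27) (.e (nat_lit 426108) (nat_lit 1) (.e (nat_lit 164329) (nat_lit 230) (.e (nat_lit 163867) (nat_lit 2) (.e (nat_lit 196656) (nat_lit 11) .nil))))))) (.g (nat_lit 6) .nil .nil))) 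
(.lf (nat_lit 134261) (.g (nat_lit 3346) (.e (nat_lit 16438) (nat_lit 9) (.e (nat_lit 426542) (nat_lit 29) (.e (nat_lit 352307) (nat_lit 21) (.e (nat_lit 57849) (nat_lit 252) (.e (nat_lit 57386) (nat_lit 4) (.e (nat_lit 106536) (nat_lit 11) .nil)))))) (.g (nat_lit 0) .nil .nil))))) (.nd (nat_lit 4) (.nd (nat_lit 5) 
(.lf (nat_lit 134221) (.g (nat_lit 2580) (.e (nat_lit 16438) (nat_lit 9) (.e (nat_lit 426482) (nat_lit 27) (.e (nat_lit 336385) (nat_lit 27) (.e (nat_lit 426108) (nat_lit 1) (.e (nat_lit 164329) (nat_lit 230) (.e (nat_lit 163867) (nat_lit 2) (.e (nat_lit 196652) (nat_lit 11) .nil))))))) (.g (nat_lit 4) .nil .nil))) 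
(.lf (nat_lit 134253) (.g (nat_lit 2592) (.e (nat_lit 16438) (nat_lit 9) (.e (nat_lit 426542) (nat_lit 29) (.e (nat_lit 352307) (nat_lit 21) (.e (nat_lit 57847) (nat_lit 252) (.e (nat_lit 57383) (nat_lit 4) (.e (nat_lit 106534) (nat_lit 11) .nil)))))) (.g (nat_lit 4) .nil .nil)))) (.nd (nat_lit 5) 
(.lf (nat_lit 134237) (.g (nat_lit 3708) (.e (nat_lit 16438) (nat_lit 9) (.e (nat_lit 426530) (nat_lit 27) (.e (nat_lit 336390) (nat_lit 27) (.e (nat_lit 426098) (nat_lit 1) (.e (nat_lit 164325) (nat_lit 230) (.e (nat_lit 163868) (nat_lit 2) (.e (nat_lit 196656) (nat_lit 11) .nil))))))) (.g (nat_lit 6) .nil .nil))) 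
(.lf (nat_lit 134269) (.g (nat_lit 2566) (.e (nat_lit 16438) (nat_lit 9) (.e (nat_lit 426546) (nat_lit 30) (.e (nat_lit 360452) (nat_lit 0) (.e (nat_lit 5195) (nat_lit 294) (.e (nat_lit 57386) (nat_lit 4) (.e (nat_lit 106536) (nat_lit 11) .nil)))))) (.g (nat_lit 0) .nil .nil))))))) (.nd (nat_lit 2) (.nd (nat_lit 3) (.nd (nat_lit 4) (.nd (nat_lit 5) 
(.lf (nat_lit 134211) (.g (nat_lit 1439) (.e (nat_lit 16438) (nat_lit 9) (.e (nat_lit 426482) (nat_lit 27) (.e (nat_lit 336060) (nat_lit 7) (.e (nat_lit 319533) (nat_lit 16) (.e (nat_lit 286724) (nat_lit 0) .nil))))) .nil)) 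
(.lf (nat_lit 134243) (.g (nat_lit 2370) (.e (nat_lit 16438) (nat_lit 9) (.e (nat_lit 426538) (nat_lit 29) (.e (nat_lit 352309) (nat_lit 21) (.e (nat_lit 57844) (nat_lit 252) (.e (nat_lit 57382) (nat_lit 4) (.e (nat_lit 106534) (nat_lit 11) .nil)))))) (.g (nat_lit 5) .nil .nil)))) (.nd (nat_lit 5) 
(.lf (nat_lit 134227) (.g (nat_lit 2625) (.e (nat_lit 16438) (nat_lit 9) (.e (nat_lit 426482) (nat_lit 27) (.e (nat_lit 336388) (nat_lit 27) (.e (nat_lit 426107) (nat_lit 1) (.e (nat_lit 164322) (nat_lit 230) (.e (nat_lit 163867) (nat_lit 2) (.e (nat_lit 196656) (nat_lit 11) .nil))))))) (.g (nat_lit 4) .nil .nil))) 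
(.lf (nat_lit 134259) (.g (nat_lit 3045) (.e (nat_lit 16438) (nat_lit 9) (.e (nat_lit 426542) (nat_lit 29) (.e (nat_lit 352307) (nat_lit 21) (.e (nat_lit 57849) (nat_lit 252) (.e (nat_lit 57385) (nat_lit 4) (.e (nat_lit 106536) (nat_lit 11) .nil)))))) (.g (nat_lit 0) .nil .nil))))) (.nd (nat_lit 4) (.nd (nat_lit 5) 
(.lf (nat_lit 134219) (.g (nat_lit 2619) (.e (nat_lit 16438) (nat_lit 9) (.e (nat_lit 426482) (nat_lit 27) (.e (nat_lit 336205) (nat_lit 12) (.e (nat_lit 385109) (nat_lit 51) (.e (nat_lit 802560) (nat_lit 4) .nil))))) .nil)) 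
(.lf (nat_lit 134251) (.g (nat_lit 414) (.e (nat_lit 16438) (nat_lit 9) (.e (nat_lit 426542) (nat_lit 29) (.e (nat_lit 352307) (nat_lit 21) .nil))) .nil))) (.nd (nat_lit 5) 
(.lf (nat_lit 134235) (.g (nat_lit 427) (.e (nat_lit 16438) (nat_lit 9) (.e (nat_lit 426530) (nat_lit 27) (.e (nat_lit 336390) (nat_lit 27) .nil))) .nil)) 
(.lf (nat_lit 134267) (.g (nat_lit 2372) (.e (nat_lit 16438) (nat_lit 9) (.e (nat_lit 426546) (nat_lit 30) (.e (nat_lit 360452) (nat_lit 0) (.e (nat_lit 5195) (nat_lit 294) (.e (nat_lit 57385) (nat_lit 4) (.e (nat_lit 106536) (nat_lit 11) .nil)))))) (.g (nat_lit 0) .nil .nil)))))) (.nd (nat_lit 3) (.nd (nat_lit 4) (.nd (nat_lit 5) 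
(.lf (nat_lit 134215) (.g (nat_lit 2110) (.e (nat_lit 16438) (nat_lit 9) (.e (nat_lit 426482) (nat_lit 27) (.e (nat_lit 336060) (nat_lit 7) (.e (nat_lit 319534) (nat_lit 16) (.e (nat_lit 286728) (nat_lit 0) (.e (nat_lit 993) (nat_lit 81) (.e (nat_lit 7609) (nat_lit 410) (.e (nat_lit 1124) (nat_lit 83) .nil)))))))) (.g (nat_lit 4) .nil .nil))) 
(.lf (nat_lit 134247) (.g (nat_lit 2022) (.e (nat_lit 16438) (nat_lit 9) (.e (nat_lit 426539) (nat_lit 29) (.e (nat_lit 352309) (nat_lit 21) (.e (nat_lit 57848) (nat_lit 252) (.e (nat_lit 57386) (nat_lit 4) (.e (nat_lit 106534) (nat_lit 11) .nil)))))) (.g (nat_lit 4) .nil .nil)))) (.nd (nat_lit 5) 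
(.lf (nat_lit 134231) (.g (nat_lit 2003) (.e (nat_lit 16438) (nat_lit 9) (.e (nat_lit 426489) (nat_lit 27) (.e (nat_lit 336460) (nat_lit 35) (.e (nat_lit 491546) (nat_lit 9) (.e (nat_lit 336013) (nat_lit 2) (.e (nat_lit 98048) (nat_lit 2) .nil)))))) (.g (nat_lit 5) .nil .nil))) 
(.lf (nat_lit 134263) (.g (nat_lit 2391) (.e (nat_lit 16438) (nat_lit 9) (.e (nat_lit 426542) (nat_lit 29) (.e (nat_lit 352309) (nat_lit 21) (.e (nat_lit 57848) (nat_lit 252) (.e (nat_lit 57383) (nat_lit 4) (.e (nat_lit 106536) (nat_lit 11) .nil)))))) (.g (nat_lit 4) .nil .nil))))) (.nd (nat_lit 4) (.nd (nat_lit 5) 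
(.lf (nat_lit 134223) (.g (nat_lit 2741) (.e (nat_lit 16438) (nat_lit 9) (.e (nat_lit 426482) (nat_lit 27) (.e (nat_lit 336385) (nat_lit 27) (.e (nat_lit 426108) (nat_lit 1) (.e (nat_lit 164332) (nat_lit 230) (.e (nat_lit 163867) (nat_lit 2) (.e (nat_lit 196656) (nat_lit 11) .nil))))))) (.g (nat_lit 4) .nil .nil))) 
(.lf (nat_lit 134255) (.g (nat_lit 2624) (.e (nat_lit 16438) (nat_lit 9) (.e (nat_lit 426542) (nat_lit 29) (.e (nat_lit 352307) (nat_lit 21) (.e (nat_lit 57847) (nat_lit 252) (.e (nat_lit 57385) (nat_lit 4) (.e (nat_lit 106536) (nat_lit 11) .nil)))))) (.g (nat_lit 4) .nil .nil)))) (.nd (nat_lit 5) 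
(.lf (nat_lit 134239) (.g (nat_lit 2999) (.e (nat_lit 16438) (nat_lit 9) (.e (nat_lit 426530) (nat_lit 27) (.e (nat_lit 336390) (nat_lit 27) (.e (nat_lit 426098) (nat_lit 1) (.e (nat_lit 164325) (nat_lit 230) (.e (nat_lit 163871) (nat_lit 2) (.e (nat_lit 196654) (nat_lit 11) .nil))))))) (.g (nat_lit 5) .nil .nil))) 
(.lf (nat_lit 134271) (.g (nat_lit 1487) (.e (nat_lit 16438) (nat_lit 9) (.e (nat_lit 426546) (nat_lit 30) (.e (nat_lit 360482) (nat_lit 15) (.e (nat_lit 647200) (nat_lit 12) (.e (nat_lit 57507) (nat_lit 39) (.e (nat_lit 647199) (nat_lit 11) .nil)))))) (.g (nat_lit 4) .nil .nil)))))))))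

noncomputable def tv1791 : DT := (.nd (nat_lit 0) (.nd (nat_lit 1) (.nd (nat_lit 2) (.nd (nat_lit 3) (.nd (nat_lit 4) (.nd (nat_lit 5) 
(.lf (nat_lit 134272) (.g (nat_lit 2618) (.e (nat_lit 16438) (nat_lit 9) (.e (nat_lit 426546) (nat_lit 30) (.e (nat_lit 360482) (nat_lit 15) (.e (nat_lit 647200) (nat_lit 12) (.e (nat_lit 57508) (nat_lit 39) (.e (nat_lit 647199) (nat_lit 11) .nil)))))) (.g (nat_lit 0) .nil .nil))) 
(.lf (nat_lit 134304) (.g (nat_lit 1655) (.e (nat_lit 16438) (nat_lit 9) (.e (nat_lit 426556) (nat_lit 32) (.e (nat_lit 376859) (nat_lit 21) (.e (nat_lit 57847) (nat_lit 252) (.e (nat_lit 57386) (nat_lit 4) (.e (nat_lit 106534) (nat_lit 11) .nil)))))) (.g (nat_lit 4) .nil .nil)))) (.nd (nat_lit 5) 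
(.lf (nat_lit 134288) (.g (nat_lit 2257) (.e (nat_lit 16438) (nat_lit 9) (.e (nat_lit 426555) (nat_lit 32) (.e (nat_lit 376858) (nat_lit 21) (.e (nat_lit 57854) (nat_lit 252) (.e (nat_lit 57384) (nat_lit 4) (.e (nat_lit 106534) (nat_lit 11) .nil)))))) (.g (nat_lit 4) .nil .nil))) 
(.lf (nat_lit 134320) (.g (nat_lit 3027) (.e (nat_lit 16438) (nat_lit 9) (.e (nat_lit 426566) (nat_lit 34) (.e (nat_lit 393251) (nat_lit 18) (.e (nat_lit 164331) (nat_lit 230) (.e (nat_lit 163866) (nat_lit 2) (.e (nat_lit 196654) (nat_lit 11) .nil)))))) (.g (nat_lit 4) .nil .nil))))) (.nd (nat_lit 4) (.nd (nat_lit 5) 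
(.lf (nat_lit 134280) (.g (nat_lit 2021) (.e (nat_lit 16438) (nat_lit 9) (.e (nat_lit 426555) (nat_lit 32) (.e (nat_lit 376857) (nat_lit 21) (.e (nat_lit 57847) (nat_lit 252) (.e (nat_lit 57384) (nat_lit 4) .nil))))) .nil)) 
(.lf (nat_lit 134312) (.g (nat_lit 2383) (.e (nat_lit 16438) (nat_lit 9) (.e (nat_lit 426566) (nat_lit 34) (.e (nat_lit 393251) (nat_lit 18) (.e (nat_lit 164325) (nat_lit 230) (.e (nat_lit 163867) (nat_lit 2) (.e (nat_lit 196654) (nat_lit 11) .nil)))))) (.g (nat_lit 4) .nil .nil)))) (.nd (nat_lit 5) 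
(.lf (nat_lit 134296) (.g (nat_lit 3109) (.e (nat_lit 16438) (nat_lit 9) (.e (nat_lit 426555) (nat_lit 32) (.e (nat_lit 376860) (nat_lit 21) (.e (nat_lit 57852) (nat_lit 252) (.e (nat_lit 57382) (nat_lit 4) (.e (nat_lit 106534) (nat_lit 11) .nil)))))) (.g (nat_lit 5) .nil .nil))) 
(.lf (nat_lit 134328) (.g (nat_lit 3101) (.e (nat_lit 16438) (nat_lit 9) (.e (nat_lit 426566) (nat_lit 34) (.e (nat_lit 393252) (nat_lit 18) (.e (nat_lit 164330) (nat_lit 230) (.e (nat_lit 163867) (nat_lit 2) (.e (nat_lit 196654) (nat_lit 11) .nil)))))) (.g (nat_lit 0) .nil .nil)))))) (.nd (nat_lit 3) (.nd (nat_lit 4) (.nd (nat_lit 5) 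
(.lf (nat_lit 134276) (.g (nat_lit 1445) (.e (nat_lit 16438) (nat_lit 9) (.e (nat_lit 426550) (nat_lit 31) (.e (nat_lit 368656) (nat_lit 14) (.e (nat_lit 57814) (nat_lit 246) (.e (nat_lit 57606) (nat_lit 107) (.e (nat_lit 712448) (nat_lit 11) .nil)))))) (.g (nat_lit 5) .nil .nil))) 
(.lf (nat_lit 134308) (.g (nat_lit 1403) (.e (nat_lit 16438) (nat_lit 9) (.e (nat_lit 426562) (nat_lit 33) (.e (nat_lit 392960) (nat_lit 4) (.e (nat_lit 65568) (nat_lit 2) (.e (nat_lit 98048) (nat_lit 2) .nil))))) (.g (nat_lit 4) .nil .nil)))) (.nd (nat_lit 5) 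
(.lf (nat_lit 134292) (.g (nat_lit 2941) (.e (nat_lit 16438) (nat_lit 9) (.e (nat_lit 426555) (nat_lit 32) (.e (nat_lit 376859) (nat_lit 21) (.e (nat_lit 57849) (nat_lit 252) (.e (nat_lit 57385) (nat_lit 4) (.e (nat_lit 106534) (nat_lit 11) .nil)))))) (.g (nat_lit 0) .nil .nil))) 
(.lf (nat_lit 134324) (.g (nat_lit 3551) (.e (nat_lit 16438) (nat_lit 9) (.e (nat_lit 426566) (nat_lit 34) (.e (nat_lit 393251) (nat_lit 18) (.e (nat_lit 164332) (nat_lit 230) (.e (nat_lit 163867) (nat_lit 2) (.e (nat_lit 196656) (nat_lit 11) .nil)))))) (.g (nat_lit 6) .nil .nil))))) (.nd (nat_lit 4) (.nd (nat_lit 5) 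
(.lf (nat_lit 134284) (.g (nat_lit 2975) (.e (nat_lit 16438) (nat_lit 9) (.e (nat_lit 426555) (nat_lit 32) (.e (nat_lit 376857) (nat_lit 21) (.e (nat_lit 57849) (nat_lit 252) (.e (nat_lit 57385) (nat_lit 4) (.e (nat_lit 106534) (nat_lit 11) .nil)))))) (.g (nat_lit 0) .nil .nil))) 
(.lf (nat_lit 134316) (.g (nat_lit 3298) (.e (nat_lit 16438) (nat_lit 9) (.e (nat_lit 426566) (nat_lit 34) (.e (nat_lit 393251) (nat_lit 18) (.e (nat_lit 164325) (nat_lit 230) (.e (nat_lit 163871) (nat_lit 2) (.e (nat_lit 196654) (nat_lit 11) .nil)))))) (.g (nat_lit 0) .nil .nil)))) (.nd (nat_lit 5) 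
(.lf (nat_lit 134300) (.g (nat_lit 3565) (.e (nat_lit 16438) (nat_lit 9) (.e (nat_lit 426555) (nat_lit 32) (.e (nat_lit 376860) (nat_lit 21) (.e (nat_lit 57854) (nat_lit 252) (.e (nat_lit 57382) (nat_lit 4) (.e (nat_lit 106534) (nat_lit 11) .nil)))))) (.g (nat_lit 0) .nil .nil))) 
(.lf (nat_lit 134332) (.g (nat_lit 3122) (.e (nat_lit 16438) (nat_lit 9) (.e (nat_lit 426566) (nat_lit 34) (.e (nat_lit 393252) (nat_lit 18) (.e (nat_lit 164332) (nat_lit 230) (.e (nat_lit 163867) (nat_lit 2) (.e (nat_lit 196654) (nat_lit 11) .nil)))))) (.g (nat_lit 0) .nil .nil))))))) (.nd (nat_lit 2) (.nd (nat_lit 3) (.nd (nat_lit 4) (.nd (nat_lit 5) 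
(.lf (nat_lit 134274) (.g (nat_lit 2205) (.e (nat_lit 16438) (nat_lit 9) (.e (nat_lit 426546) (nat_lit 30) (.e (nat_lit 360482) (nat_lit 15) (.e (nat_lit 647201) (nat_lit 12) (.e (nat_lit 57509) (nat_lit 39) (.e (nat_lit 647199) (nat_lit 11) .nil)))))) (.g (nat_lit 6) .nil .nil))) 
(.lf (nat_lit 134306) (.g (nat_lit 1311) (.e (nat_lit 16438) (nat_lit 9) (.e (nat_lit 426558) (nat_lit 33) (.e (nat_lit 392960) (nat_lit 4) (.e (nat_lit 65568) (nat_lit 2) (.e (nat_lit 98048) (nat_lit 2) .nil))))) (.g (nat_lit 4) .nil .nil)))) (.nd (nat_lit 5) 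
(.lf (nat_lit 134290) (.g (nat_lit 3158) (.e (nat_lit 16438) (nat_lit 9) (.e (nat_lit 426555) (nat_lit 32) (.e (nat_lit 376859) (nat_lit 21) (.e (nat_lit 57847) (nat_lit 252) (.e (nat_lit 57386) (nat_lit 4) (.e (nat_lit 106536) (nat_lit 11) .nil)))))) (.g (nat_lit 0) .nil .nil))) 
(.lf (nat_lit 134322) (.g (nat_lit 2847) (.e (nat_lit 16438) (nat_lit 9) (.e (nat_lit 426566) (nat_lit 34) (.e (nat_lit 393251) (nat_lit 18) (.e (nat_lit 164332) (nat_lit 230) (.e (nat_lit 163866) (nat_lit 2) (.e (nat_lit 196654) (nat_lit 11) .nil)))))) (.g (nat_lit 5) .nil .nil))))) (.nd (nat_lit 4) (.nd (nat_lit 5) 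
(.lf (nat_lit 134282) (.g (nat_lit 2965) (.e (nat_lit 16438) (nat_lit 9) (.e (nat_lit 426555) (nat_lit 32) (.e (nat_lit 376857) (nat_lit 21) (.e (nat_lit 57848) (nat_lit 252) (.e (nat_lit 57386) (nat_lit 4) (.e (nat_lit 106534) (nat_lit 11) .nil)))))) (.g (nat_lit 0) .nil .nil))) 
(.lf (nat_lit 134314) (.g (nat_lit 3823) (.e (nat_lit 16438) (nat_lit 9) (.e (nat_lit 426566) (nat_lit 34) (.e (nat_lit 393251) (nat_lit 18) (.e (nat_lit 164325) (nat_lit 230) (.e (nat_lit 163868) (nat_lit 2) (.e (nat_lit 196656) (nat_lit 11) .nil)))))) (.g (nat_lit 0) .nil .nil)))) (.nd (nat_lit 5) 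
(.lf (nat_lit 134298) (.g (nat_lit 2307) (.e (nat_lit 16438) (nat_lit 9) (.e (nat_lit 426555) (nat_lit 32) (.e (nat_lit 376860) (nat_lit 21) (.e (nat_lit 57853) (nat_lit 252) (.e (nat_lit 57381) (nat_lit 4) (.e (nat_lit 106536) (nat_lit 11) .nil)))))) (.g (nat_lit 4) .nil .nil))) 
(.lf (nat_lit 134330) (.g (nat_lit 2681) (.e (nat_lit 16438) (nat_lit 9) (.e (nat_lit 426566) (nat_lit 34) (.e (nat_lit 393252) (nat_lit 18) (.e (nat_lit 164332) (nat_lit 230) (.e (nat_lit 163866) (nat_lit 2) (.e (nat_lit 196654) (nat_lit 11) .nil)))))) (.g (nat_lit 6) .nil .nil)))))) (.nd (nat_lit 3) (.nd (nat_lit 4) (.nd (nat_lit 5) 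
(.lf (nat_lit 134278) (.g (nat_lit 1062) (.e (nat_lit 16438) (nat_lit 9) (.e (nat_lit 426555) (nat_lit 32) (.e (nat_lit 376857) (nat_lit 21) (.e (nat_lit 57846) (nat_lit 252) .nil)))) .nil)) 
(.lf (nat_lit 134310) (.g (nat_lit 1855) (.e (nat_lit 16438) (nat_lit 9) (.e (nat_lit 426566) (nat_lit 34) (.e (nat_lit 393251) (nat_lit 18) (.e (nat_lit 164323) (nat_lit 230) .nil)))) .nil))) (.nd (nat_lit 5) 
(.lf (nat_lit 134294) (.g (nat_lit 1281) (.e (nat_lit 16438) (nat_lit 9) (.e (nat_lit 426555) (nat_lit 32) (.e (nat_lit 376860) (nat_lit 21) (.e (nat_lit 57852) (nat_lit 252) .nil)))) .nil)) 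
(.lf (nat_lit 134326) (.g (nat_lit 4063) (.e (nat_lit 16438) (nat_lit 9) (.e (nat_lit 426566) (nat_lit 34) (.e (nat_lit 393251) (nat_lit 18) (.e (nat_lit 164332) (nat_lit 230) (.e (nat_lit 163869) (nat_lit 2) (.e (nat_lit 196656) (nat_lit 11) .nil)))))) (.g (nat_lit 6) .nil .nil))))) (.nd (nat_lit 4) (.nd (nat_lit 5) 
(.lf (nat_lit 134286) (.g (nat_lit 2759) (.e (nat_lit 16438) (nat_lit 9) (.e (nat_lit 426555) (nat_lit 32) (.e (nat_lit 376857) (nat_lit 21) (.e (nat_lit 57852) (nat_lit 252) (.e (nat_lit 57382) (nat_lit 4) (.e (nat_lit 106534) (nat_lit 11) .nil)))))) (.g (nat_lit 5) .nil .nil))) 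
(.lf (nat_lit 134318) (.g (nat_lit 3614) (.e (nat_lit 16438) (nat_lit 9) (.e (nat_lit 426566) (nat_lit 34) (.e (nat_lit 393251) (nat_lit 18) (.e (nat_lit 164327) (nat_lit 230) (.e (nat_lit 163868) (nat_lit 2) (.e (nat_lit 196654) (nat_lit 11) .nil)))))) (.g (nat_lit 0) .nil .nil)))) (.nd (nat_lit 5) 
(.lf (nat_lit 134302) (.g (nat_lit 1535) (.e (nat_lit 16438) (nat_lit 9) (.e (nat_lit 426556) (nat_lit 32) (.e (nat_lit 376859) (nat_lit 21) (.e (nat_lit 57847) (nat_lit 252) (.e (nat_lit 57385) (nat_lit 4) (.e (nat_lit 106534) (nat_lit 11) .nil)))))) (.g (nat_lit 4) .nil .nil))) 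
(.lf (nat_lit 134334) (.g (nat_lit 385) (.e (nat_lit 16438) (nat_lit 9) (.e (nat_lit 426566) (nat_lit 34) (.e (nat_lit 393253) (nat_lit 18) .nil))) .nil))))))) (.nd (nat_lit 1) (.nd (nat_lit 2) (.nd (nat_lit 3) (.nd (nat_lit 4) (.nd (nat_lit 5) 
(.lf (nat_lit 134273) (.g (nat_lit 1320) (.e (nat_lit 16438) (nat_lit 9) (.e (nat_lit 426546) (nat_lit 30) (.e (nat_lit 360482) (nat_lit 15) (.e (nat_lit 647200) (nat_lit 12) (.e (nat_lit 57511) (nat_lit 39) (.e (nat_lit 647199) (nat_lit 11) .nil)))))) (.g (nat_lit 4) .nil .nil))) 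
(.lf (nat_lit 134305) (.g (nat_lit 1616) (.e (nat_lit 16438) (nat_lit 9) (.e (nat_lit 426556) (nat_lit 32) (.e (nat_lit 376859) (nat_lit 21) (.e (nat_lit 57849) (nat_lit 252) (.e (nat_lit 57386) (nat_lit 4) (.e (nat_lit 106536) (nat_lit 11) .nil)))))) (.g (nat_lit 4) .nil .nil)))) (.nd (nat_lit 5) 
(.lf (nat_lit 134289) (.g (nat_lit 1870) (.e (nat_lit 16438) (nat_lit 9) (.e (nat_lit 426555) (nat_lit 32) (.e (nat_lit 376859) (nat_lit 21) (.e (nat_lit 57847) (nat_lit 252) (.e (nat_lit 57384) (nat_lit 4) .nil))))) .nil)) 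
(.lf (nat_lit 134321) (.g (nat_lit 3473) (.e (nat_lit 16438) (nat_lit 9) (.e (nat_lit 426566) (nat_lit 34) (.e (nat_lit 393251) (nat_lit 18) (.e (nat_lit 164331) (nat_lit 230) (.e (nat_lit 163867) (nat_lit 2) (.e (nat_lit 196654) (nat_lit 11) .nil)))))) (.g (nat_lit 5) .nil .nil))))) (.nd (nat_lit 4) (.nd (nat_lit 5) 
(.lf (nat_lit 134281) (.g (nat_lit 2219) (.e (nat_lit 16438) (nat_lit 9) (.e (nat_lit 426555) (nat_lit 32) (.e (nat_lit 376857) (nat_lit 21) (.e (nat_lit 57848) (nat_lit 252) (.e (nat_lit 57383) (nat_lit 4) (.e (nat_lit 106536) (nat_lit 11) .nil)))))) (.g (nat_lit 4) .nil .nil))) 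
(.lf (nat_lit 134313) (.g (nat_lit 3454) (.e (nat_lit 16438) (nat_lit 9) (.e (nat_lit 426566) (nat_lit 34) (.e (nat_lit 393251) (nat_lit 18) (.e (nat_lit 164325) (nat_lit 230) (.e (nat_lit 163868) (nat_lit 2) (.e (nat_lit 196654) (nat_lit 11) .nil)))))) (.g (nat_lit 0) .nil .nil)))) (.nd (nat_lit 5) 
(.lf (nat_lit 134297) (.g (nat_lit 2533) (.e (nat_lit 16438) (nat_lit 9) (.e (nat_lit 426555) (nat_lit 32) (.e (nat_lit 376860) (nat_lit 21) (.e (nat_lit 57852) (nat_lit 252) (.e (nat_lit 57382) (nat_lit 4) (.e (nat_lit 106536) (nat_lit 11) .nil)))))) (.g (nat_lit 4) .nil .nil))) 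
(.lf (nat_lit 134329) (.g (nat_lit 3256) (.e (nat_lit 16438) (nat_lit 9) (.e (nat_lit 426566) (nat_lit 34) (.e (nat_lit 393252) (nat_lit 18) (.e (nat_lit 164330) (nat_lit 230) (.e (nat_lit 163869) (nat_lit 2) (.e (nat_lit 196654) (nat_lit 11) .nil)))))) (.g (nat_lit 0) .nil .nil)))))) (.nd (nat_lit 3) (.nd (nat_lit 4) (.nd (nat_lit 5) 
(.lf (nat_lit 134277) (.g (nat_lit 419) (.e (nat_lit 16438) (nat_lit 9) (.e (nat_lit 426555) (nat_lit 32) (.e (nat_lit 376857) (nat_lit 21) .nil))) .nil)) 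
(.lf (nat_lit 134309) (.g (nat_lit 408) (.e (nat_lit 16438) (nat_lit 9) (.e (nat_lit 426562) (nat_lit 33) (.e (nat_lit 392960) (nat_lit 5) .nil))) .nil))) (.nd (nat_lit 5) 
(.lf (nat_lit 134293) (.g (nat_lit 2609) (.e (nat_lit 16438) (nat_lit 9) (.e (nat_lit 426555) (nat_lit 32) (.e (nat_lit 376860) (nat_lit 21) (.e (nat_lit 57844) (nat_lit 252) (.e (nat_lit 57382) (nat_lit 4) (.e (nat_lit 106534) (nat_lit 11) .nil)))))) (.g (nat_lit 4) .nil .nil))) 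
(.lf (nat_lit 134325) (.g (nat_lit 3766) (.e (nat_lit 16438) (nat_lit 9) (.e (nat_lit 426566) (nat_lit 34) (.e (nat_lit 393251) (nat_lit 18) (.e (nat_lit 164332) (nat_lit 230) (.e (nat_lit 163869) (nat_lit 2) (.e (nat_lit 196654) (nat_lit 11) .nil)))))) (.g (nat_lit 6) .nil .nil))))) (.nd (nat_lit 4) (.nd (nat_lit 5) 
(.lf (nat_lit 134285) (.g (nat_lit 3092) (.e (nat_lit 16438) (nat_lit 9) (.e (nat_lit 426555) (nat_lit 32) (.e (nat_lit 376857) (nat_lit 21) (.e (nat_lit 57849) (nat_lit 252) (.e (nat_lit 57385) (nat_lit 4) (.e (nat_lit 106536) (nat_lit 11) .nil)))))) (.g (nat_lit 0) .nil .nil))) 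
(.lf (nat_lit 134317) (.g (nat_lit 3814) (.e (nat_lit 16438) (nat_lit 9) (.e (nat_lit 426566) (nat_lit 34) (.e (nat_lit 393251) (nat_lit 18) (.e (nat_lit 164325) (nat_lit 230) (.e (nat_lit 163871) (nat_lit 2) (.e (nat_lit 196656) (nat_lit 11) .nil)))))) (.g (nat_lit 0) .nil .nil)))) (.nd (nat_lit 5) 
(.lf (nat_lit 134301) (.g (nat_lit 1485) (.e (nat_lit 16438) (nat_lit 9) (.e (nat_lit 426556) (nat_lit 32) (.e (nat_lit 376859) (nat_lit 21) (.e (nat_lit 57847) (nat_lit 252) (.e (nat_lit 57383) (nat_lit 4) (.e (nat_lit 106534) (nat_lit 11) .nil)))))) (.g (nat_lit 4) .nil .nil))) 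
(.lf (nat_lit 134333) (.g (nat_lit 3825) (.e (nat_lit 16438) (nat_lit 9) (.e (nat_lit 426566) (nat_lit 34) (.e (nat_lit 393252) (nat_lit 18) (.e (nat_lit 164332) (nat_lit 230) (.e (nat_lit 163869) (nat_lit 2) (.e (nat_lit 196656) (nat_lit 11) .nil)))))) (.g (nat_lit 0) .nil .nil))))))) (.nd (nat_lit 2) (.nd (nat_lit 3) (.nd (nat_lit 4) (.nd (nat_lit 5) 
(.lf (nat_lit 134275) (.g (nat_lit 233) (.e (nat_lit 16438) (nat_lit 9) (.e (nat_lit 426550) (nat_lit 31) (.e (nat_lit 376576) (nat_lit 4) .nil))) .nil)) 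
(.lf (nat_lit 134307) (.g (nat_lit 192) (.e (nat_lit 16438) (nat_lit 9) (.e (nat_lit 426558) (nat_lit 33) (.e (nat_lit 392960) (nat_lit 5) .nil))) .nil))) (.nd (nat_lit 5) 
(.lf (nat_lit 134291) (.g (nat_lit 2340) (.e (nat_lit 16438) (nat_lit 9) (.e (nat_lit 426555) (nat_lit 32) (.e (nat_lit 376859) (nat_lit 21) (.e (nat_lit 57849) (nat_lit 252) (.e (nat_lit 57383) (nat_lit 4) (.e (nat_lit 106536) (nat_lit 11) .nil)))))) (.g (nat_lit 4) .nil .nil))) 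
(.lf (nat_lit 134323) (.g (nat_lit 3273) (.e (nat_lit 16438) (nat_lit 9) (.e (nat_lit 426566) (nat_lit 34) (.e (nat_lit 393251) (nat_lit 18) (.e (nat_lit 164332) (nat_lit 230) (.e (nat_lit 163867) (nat_lit 2) (.e (nat_lit 196654) (nat_lit 11) .nil)))))) (.g (nat_lit 6) .nil .nil))))) (.nd (nat_lit 4) (.nd (nat_lit 5) 
(.lf (nat_lit 134283) (.g (nat_lit 2397) (.e (nat_lit 16438) (nat_lit 9) (.e (nat_lit 426555) (nat_lit 32) (.e (nat_lit 376857) (nat_lit 21) (.e (nat_lit 57849) (nat_lit 252) (.e (nat_lit 57383) (nat_lit 4) (.e (nat_lit 106536) (nat_lit 11) .nil)))))) (.g (nat_lit 4) .nil .nil))) 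
(.lf (nat_lit 134315) (.g (nat_lit 3491) (.e (nat_lit 16438) (nat_lit 9) (.e (nat_lit 426566) (nat_lit 34) (.e (nat_lit 393251) (nat_lit 18) (.e (nat_lit 164325) (nat_lit 230) (.e (nat_lit 163869) (nat_lit 2) (.e (nat_lit 196654) (nat_lit 11) .nil)))))) (.g (nat_lit 6) .nil .nil)))) (.nd (nat_lit 5) 
(.lf (nat_lit 134299) (.g (nat_lit 2307) (.e (nat_lit 16438) (nat_lit 9) (.e (nat_lit 426555) (nat_lit 32) (.e (nat_lit 376860) (nat_lit 21) (.e (nat_lit 57853) (nat_lit 252) (.e (nat_lit 57382) (nat_lit 4) (.e (nat_lit 106536) (nat_lit 11) .nil)))))) (.g (nat_lit 4) .nil .nil))) 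
(.lf (nat_lit 134331) (.g (nat_lit 2037) (.e (nat_lit 16438) (nat_lit 9) (.e (nat_lit 426566) (nat_lit 34) (.e (nat_lit 393252) (nat_lit 18) (.e (nat_lit 164332) (nat_lit 230) (.e (nat_lit 163867) (nat_lit 2) (.e (nat_lit 196652) (nat_lit 11) .nil)))))) (.g (nat_lit 4) .nil .nil)))))) (.nd (nat_lit 3) (.nd (nat_lit 4) (.nd (nat_lit 5) 
(.lf (nat_lit 134279) (.g (nat_lit 2236) (.e (nat_lit 16438) (nat_lit 9) (.e (nat_lit 426555) (nat_lit 32) (.e (nat_lit 376857) (nat_lit 21) (.e (nat_lit 57847) (nat_lit 252) (.e (nat_lit 57383) (nat_lit 4) (.e (nat_lit 106536) (nat_lit 11) .nil)))))) (.g (nat_lit 4) .nil .nil))) 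
(.lf (nat_lit 134311) (.g (nat_lit 3157) (.e (nat_lit 16438) (nat_lit 9) (.e (nat_lit 426566) (nat_lit 34) (.e (nat_lit 393251) (nat_lit 18) (.e (nat_lit 164325) (nat_lit 230) (.e (nat_lit 163866) (nat_lit 2) (.e (nat_lit 196654) (nat_lit 11) .nil)))))) (.g (nat_lit 6) .nil .nil)))) (.nd (nat_lit 5) 
(.lf (nat_lit 134295) (.g (nat_lit 2320) (.e (nat_lit 16438) (nat_lit 9) (.e (nat_lit 426555) (nat_lit 32) (.e (nat_lit 376860) (nat_lit 21) (.e (nat_lit 57852) (nat_lit 252) (.e (nat_lit 57381) (nat_lit 4) (.e (nat_lit 106536) (nat_lit 11) .nil)))))) (.g (nat_lit 4) .nil .nil))) 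
(.lf (nat_lit 134327) (.g (nat_lit 2783) (.e (nat_lit 16438) (nat_lit 9) (.e (nat_lit 426566) (nat_lit 34) (.e (nat_lit 393252) (nat_lit 18) (.e (nat_lit 164330) (nat_lit 230) (.e (nat_lit 163866) (nat_lit 2) (.e (nat_lit 196654) (nat_lit 11) .nil)))))) (.g (nat_lit 6) .nil .nil))))) (.nd (nat_lit 4) (.nd (nat_lit 5) 
(.lf (nat_lit 134287) (.g (nat_lit 3411) (.e (nat_lit 16438) (nat_lit 9) (.e (nat_lit 426555) (nat_lit 32) (.e (nat_lit 376857) (nat_lit 21) (.e (nat_lit 57854) (nat_lit 252) (.e (nat_lit 57382) (nat_lit 4) (.e (nat_lit 106534) (nat_lit 11) .nil)))))) (.g (nat_lit 0) .nil .nil))) 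
(.lf (nat_lit 134319) (.g (nat_lit 3590) (.e (nat_lit 16438) (nat_lit 9) (.e (nat_lit 426566) (nat_lit 34) (.e (nat_lit 393251) (nat_lit 18) (.e (nat_lit 164327) (nat_lit 230) (.e (nat_lit 163871) (nat_lit 2) (.e (nat_lit 196654) (nat_lit 11) .nil)))))) (.g (nat_lit 0) .nil .nil)))) (.nd (nat_lit 5) 
(.lf (nat_lit 134303) (.g (nat_lit 1679) (.e (nat_lit 16438) (nat_lit 9) (.e (nat_lit 426556) (nat_lit 32) (.e (nat_lit 376859) (nat_lit 21) (.e (nat_lit 57847) (nat_lit 252) (.e (nat_lit 57385) (nat_lit 4) (.e (nat_lit 106536) (nat_lit 11) .nil)))))) (.g (nat_lit 4) .nil .nil))) 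
(.lf (nat_lit 134335) (.g (nat_lit 3096) (.e (nat_lit 16438) (nat_lit 9) (.e (nat_lit 426566) (nat_lit 34) (.e (nat_lit 393253) (nat_lit 18) (.e (nat_lit 164305) (nat_lit 226) .nil)))) .nil))))))))

noncomputable def tv1792 : DT := (.nd (nat_lit 0) (.nd (nat_lit 1) (.nd (nat_lit 2) (.nd (nat_lit 3) (.nd (nat_lit 4) (.nd (nat_lit 5) 
(.lf (nat_lit 134336) (.g (nat_lit 2862) (.e (nat_lit 16438) (nat_lit 9) (.e (nat_lit 426566) (nat_lit 34) (.e (nat_lit 393253) (nat_lit 18) (.e (nat_lit 164322) (nat_lit 230) (.e (nat_lit 163867) (nat_lit 2) (.e (nat_lit 196652) (nat_lit 11) .nil)))))) (.g (nat_lit 4) .nil .nil))) 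
(.lf (nat_lit 134368) (.g (nat_lit 3185) (.e (nat_lit 16438) (nat_lit 9) (.e (nat_lit 426566) (nat_lit 34) (.e (nat_lit 393253) (nat_lit 18) (.e (nat_lit 164332) (nat_lit 230) (.e (nat_lit 163866) (nat_lit 2) (.e (nat_lit 196654) (nat_lit 11) .nil)))))) (.g (nat_lit 6) .nil .nil)))) (.nd (nat_lit 5) 
(.lf (nat_lit 134352) (.g (nat_lit 2709) (.e (nat_lit 16438) (nat_lit 9) (.e (nat_lit 426566) (nat_lit 34) (.e (nat_lit 393253) (nat_lit 18) (.e (nat_lit 164326) (nat_lit 230) (.e (nat_lit 163868) (nat_lit 2) (.e (nat_lit 196654) (nat_lit 11) .nil)))))) (.g (nat_lit 5) .nil .nil))) 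
(.lf (nat_lit 134384) (.g (nat_lit 3961) (.e (nat_lit 16438) (nat_lit 9) (.e (nat_lit 426568) (nat_lit 34) (.e (nat_lit 393251) (nat_lit 18) (.e (nat_lit 164332) (nat_lit 230) (.e (nat_lit 163869) (nat_lit 2) (.e (nat_lit 196654) (nat_lit 11) .nil)))))) (.g (nat_lit 6) .nil .nil))))) (.nd (nat_lit 4) (.nd (nat_lit 5) 
(.lf (nat_lit 134344) (.g (nat_lit 2164) (.e (nat_lit 16438) (nat_lit 9) (.e (nat_lit 426566) (nat_lit 34) (.e (nat_lit 393253) (nat_lit 18) (.e (nat_lit 164325) (nat_lit 230) (.e (nat_lit 163867) (nat_lit 2) .nil))))) .nil)) 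
(.lf (nat_lit 134376) (.g (nat_lit 3533) (.e (nat_lit 16438) (nat_lit 9) (.e (nat_lit 426568) (nat_lit 34) (.e (nat_lit 393251) (nat_lit 18) (.e (nat_lit 164325) (nat_lit 230) (.e (nat_lit 163869) (nat_lit 2) (.e (nat_lit 196654) (nat_lit 11) .nil)))))) (.g (nat_lit 6) .nil .nil)))) (.nd (nat_lit 5) 
(.lf (nat_lit 134360) (.g (nat_lit 3962) (.e (nat_lit 16438) (nat_lit 9) (.e (nat_lit 426566) (nat_lit 34) (.e (nat_lit 393253) (nat_lit 18) (.e (nat_lit 164328) (nat_lit 230) .nil)))) .nil)) 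
(.lf (nat_lit 134392) (.g (nat_lit 2568) (.e (nat_lit 16438) (nat_lit 9) (.e (nat_lit 426568) (nat_lit 34) (.e (nat_lit 393252) (nat_lit 18) (.e (nat_lit 164332) (nat_lit 230) (.e (nat_lit 163867) (nat_lit 2) (.e (nat_lit 196652) (nat_lit 11) .nil)))))) (.g (nat_lit 4) .nil .nil)))))) (.nd (nat_lit 3) (.nd (nat_lit 4) (.nd (nat_lit 5) 
(.lf (nat_lit 134340) (.g (nat_lit 3468) (.e (nat_lit 16438) (nat_lit 9) (.e (nat_lit 426566) (nat_lit 34) (.e (nat_lit 393253) (nat_lit 18) (.e (nat_lit 164324) (nat_lit 230) (.e (nat_lit 163868) (nat_lit 2) (.e (nat_lit 196654) (nat_lit 11) .nil)))))) (.g (nat_lit 6) .nil .nil))) 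
(.lf (nat_lit 134372) (.g (nat_lit 2849) (.e (nat_lit 16438) (nat_lit 9) (.e (nat_lit 426566) (nat_lit 34) (.e (nat_lit 393254) (nat_lit 18) (.e (nat_lit 164326) (nat_lit 230) (.e (nat_lit 163868) (nat_lit 2) (.e (nat_lit 196656) (nat_lit 11) .nil)))))) (.g (nat_lit 4) .nil .nil)))) (.nd (nat_lit 5) 
(.lf (nat_lit 134356) (.g (nat_lit 3182) (.e (nat_lit 16438) (nat_lit 9) (.e (nat_lit 426566) (nat_lit 34) (.e (nat_lit 393253) (nat_lit 18) (.e (nat_lit 164327) (nat_lit 230) (.e (nat_lit 163866) (nat_lit 2) (.e (nat_lit 196654) (nat_lit 11) .nil)))))) (.g (nat_lit 6) .nil .nil))) 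
(.lf (nat_lit 134388) (.g (nat_lit 3486) (.e (nat_lit 16438) (nat_lit 9) (.e (nat_lit 426568) (nat_lit 34) (.e (nat_lit 393252) (nat_lit 18) (.e (nat_lit 164330) (nat_lit 230) (.e (nat_lit 163867) (nat_lit 2) (.e (nat_lit 196654) (nat_lit 11) .nil)))))) (.g (nat_lit 6) .nil .nil))))) (.nd (nat_lit 4) (.nd (nat_lit 5) 
(.lf (nat_lit 134348) (.g (nat_lit 3321) (.e (nat_lit 16438) (nat_lit 9) (.e (nat_lit 426566) (nat_lit 34) (.e (nat_lit 393253) (nat_lit 18) (.e (nat_lit 164325) (nat_lit 230) (.e (nat_lit 163871) (nat_lit 2) (.e (nat_lit 196654) (nat_lit 11) .nil)))))) (.g (nat_lit 0) .nil .nil))) 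
(.lf (nat_lit 134380) (.g (nat_lit 3033) (.e (nat_lit 16438) (nat_lit 9) (.e (nat_lit 426568) (nat_lit 34) (.e (nat_lit 393251) (nat_lit 18) (.e (nat_lit 164331) (nat_lit 230) (.e (nat_lit 163866) (nat_lit 2) (.e (nat_lit 196654) (nat_lit 11) .nil)))))) (.g (nat_lit 5) .nil .nil)))) (.nd (nat_lit 5) 
(.lf (nat_lit 134364) (.g (nat_lit 3060) (.e (nat_lit 16438) (nat_lit 9) (.e (nat_lit 426566) (nat_lit 34) (.e (nat_lit 393253) (nat_lit 18) (.e (nat_lit 164330) (nat_lit 230) (.e (nat_lit 163866) (nat_lit 2) (.e (nat_lit 196654) (nat_lit 11) .nil)))))) (.g (nat_lit 6) .nil .nil))) 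
(.lf (nat_lit 134396) (.g (nat_lit 2195) (.e (nat_lit 16438) (nat_lit 9) (.e (nat_lit 426568) (nat_lit 34) (.e (nat_lit 393253) (nat_lit 18) (.e (nat_lit 164322) (nat_lit 230) (.e (nat_lit 163867) (nat_lit 2) (.e (nat_lit 196652) (nat_lit 11) .nil)))))) (.g (nat_lit 4) .nil .nil))))))) (.nd (nat_lit 2) (.nd (nat_lit 3) (.nd (nat_lit 4) (.nd (nat_lit 5) 
(.lf (nat_lit 134338) (.g (nat_lit 3554) (.e (nat_lit 16438) (nat_lit 9) (.e (nat_lit 426566) (nat_lit 34) (.e (nat_lit 393253) (nat_lit 18) (.e (nat_lit 164323) (nat_lit 230) .nil)))) .nil)) 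
(.lf (nat_lit 134370) (.g (nat_lit 3610) (.e (nat_lit 16438) (nat_lit 9) (.e (nat_lit 426566) (nat_lit 34) (.e (nat_lit 393253) (nat_lit 18) (.e (nat_lit 164332) (nat_lit 230) (.e (nat_lit 163867) (nat_lit 2) (.e (nat_lit 196654) (nat_lit 11) .nil)))))) (.g (nat_lit 0) .nil .nil)))) (.nd (nat_lit 5) 
(.lf (nat_lit 134354) (.g (nat_lit 2706) (.e (nat_lit 16438) (nat_lit 9) (.e (nat_lit 426566) (nat_lit 34) (.e (nat_lit 393253) (nat_lit 18) (.e (nat_lit 164326) (nat_lit 230) (.e (nat_lit 163871) (nat_lit 2) (.e (nat_lit 196654) (nat_lit 11) .nil)))))) (.g (nat_lit 5) .nil .nil))) 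
(.lf (nat_lit 134386) (.g (nat_lit 2202) (.e (nat_lit 16438) (nat_lit 9) (.e (nat_lit 426568) (nat_lit 34) (.e (nat_lit 393252) (nat_lit 18) (.e (nat_lit 164329) (nat_lit 230) (.e (nat_lit 163867) (nat_lit 2) (.e (nat_lit 196652) (nat_lit 11) .nil)))))) (.g (nat_lit 4) .nil .nil))))) (.nd (nat_lit 4) (.nd (nat_lit 5) 
(.lf (nat_lit 134346) (.g (nat_lit 3818) (.e (nat_lit 16438) (nat_lit 9) (.e (nat_lit 426566) (nat_lit 34) (.e (nat_lit 393253) (nat_lit 18) (.e (nat_lit 164325) (nat_lit 230) (.e (nat_lit 163868) (nat_lit 2) (.e (nat_lit 196656) (nat_lit 11) .nil)))))) (.g (nat_lit 0) .nil .nil))) 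
(.lf (nat_lit 134378) (.g (nat_lit 3929) (.e (nat_lit 16438) (nat_lit 9) (.e (nat_lit 426568) (nat_lit 34) (.e (nat_lit 393251) (nat_lit 18) (.e (nat_lit 164325) (nat_lit 230) (.e (nat_lit 163871) (nat_lit 2) (.e (nat_lit 196656) (nat_lit 11) .nil)))))) (.g (nat_lit 0) .nil .nil)))) (.nd (nat_lit 5) 
(.lf (nat_lit 134362) (.g (nat_lit 3258) (.e (nat_lit 16438) (nat_lit 9) (.e (nat_lit 426566) (nat_lit 34) (.e (nat_lit 393253) (nat_lit 18) (.e (nat_lit 164329) (nat_lit 230) (.e (nat_lit 163867) (nat_lit 2) (.e (nat_lit 196652) (nat_lit 11) .nil)))))) (.g (nat_lit 0) .nil .nil))) 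
(.lf (nat_lit 134394) (.g (nat_lit 3871) (.e (nat_lit 16438) (nat_lit 9) (.e (nat_lit 426568) (nat_lit 34) (.e (nat_lit 393252) (nat_lit 18) (.e (nat_lit 164332) (nat_lit 230) (.e (nat_lit 163869) (nat_lit 2) (.e (nat_lit 196654) (nat_lit 11) .nil)))))) (.g (nat_lit 6) .nil .nil)))))) (.nd (nat_lit 3) (.nd (nat_lit 4) (.nd (nat_lit 5) 
(.lf (nat_lit 134342) (.g (nat_lit 2370) (.e (nat_lit 16438) (nat_lit 9) (.e (nat_lit 426566) (nat_lit 34) (.e (nat_lit 393253) (nat_lit 18) (.e (nat_lit 164324) (nat_lit 230) (.e (nat_lit 163871) (nat_lit 2) (.e (nat_lit 196654) (nat_lit 11) .nil)))))) (.g (nat_lit 4) .nil .nil))) 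
(.lf (nat_lit 134374) (.g (nat_lit 2429) (.e (nat_lit 16438) (nat_lit 9) (.e (nat_lit 426568) (nat_lit 34) (.e (nat_lit 393251) (nat_lit 18) (.e (nat_lit 164325) (nat_lit 230) (.e (nat_lit 163867) (nat_lit 2) (.e (nat_lit 196654) (nat_lit 11) .nil)))))) (.g (nat_lit 4) .nil .nil)))) (.nd (nat_lit 5) 
(.lf (nat_lit 134358) (.g (nat_lit 4006) (.e (nat_lit 16438) (nat_lit 9) (.e (nat_lit 426566) (nat_lit 34) (.e (nat_lit 393253) (nat_lit 18) (.e (nat_lit 164327) (nat_lit 230) (.e (nat_lit 163868) (nat_lit 2) (.e (nat_lit 196656) (nat_lit 11) .nil)))))) (.g (nat_lit 0) .nil .nil))) 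
(.lf (nat_lit 134390) (.g (nat_lit 2596) (.e (nat_lit 16438) (nat_lit 9) (.e (nat_lit 426568) (nat_lit 34) (.e (nat_lit 393252) (nat_lit 18) (.e (nat_lit 164331) (nat_lit 230) (.e (nat_lit 163866) (nat_lit 2) (.e (nat_lit 196654) (nat_lit 11) .nil)))))) (.g (nat_lit 4) .nil .nil))))) (.nd (nat_lit 4) (.nd (nat_lit 5) 
(.lf (nat_lit 134350) (.g (nat_lit 1199) (.e (nat_lit 16438) (nat_lit 9) (.e (nat_lit 426566) (nat_lit 34) (.e (nat_lit 393253) (nat_lit 18) (.e (nat_lit 164326) (nat_lit 230) .nil)))) .nil)) 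
(.lf (nat_lit 134382) (.g (nat_lit 2547) (.e (nat_lit 16438) (nat_lit 9) (.e (nat_lit 426568) (nat_lit 34) (.e (nat_lit 393251) (nat_lit 18) (.e (nat_lit 164332) (nat_lit 230) (.e (nat_lit 163867) (nat_lit 2) (.e (nat_lit 196652) (nat_lit 11) .nil)))))) (.g (nat_lit 4) .nil .nil)))) (.nd (nat_lit 5) 
(.lf (nat_lit 134366) (.g (nat_lit 3517) (.e (nat_lit 16438) (nat_lit 9) (.e (nat_lit 426566) (nat_lit 34) (.e (nat_lit 393253) (nat_lit 18) (.e (nat_lit 164330) (nat_lit 230) (.e (nat_lit 163869) (nat_lit 2) (.e (nat_lit 196654) (nat_lit 11) .nil)))))) (.g (nat_lit 0) .nil .nil))) 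
(.lf (nat_lit 134398) (.g (nat_lit 3287) (.e (nat_lit 16438) (nat_lit 9) (.e (nat_lit 426568) (nat_lit 34) (.e (nat_lit 393253) (nat_lit 18) (.e (nat_lit 164324) (nat_lit 230) (.e (nat_lit 163867) (nat_lit 2) (.e (nat_lit 196654) (nat_lit 11) .nil)))))) (.g (nat_lit 5) .nil .nil)))))))) (.nd (nat_lit 1) (.nd (nat_lit 2) (.nd (nat_lit 3) (.nd (nat_lit 4) (.nd (nat_lit 5) 
(.lf (nat_lit 134337) (.g (nat_lit 2909) (.e (nat_lit 16438) (nat_lit 9) (.e (nat_lit 426566) (nat_lit 34) (.e (nat_lit 393253) (nat_lit 18) (.e (nat_lit 164322) (nat_lit 230) (.e (nat_lit 163867) (nat_lit 2) (.e (nat_lit 196656) (nat_lit 11) .nil)))))) (.g (nat_lit 4) .nil .nil))) 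
(.lf (nat_lit 134369) (.g (nat_lit 2470) (.e (nat_lit 16438) (nat_lit 9) (.e (nat_lit 426566) (nat_lit 34) (.e (nat_lit 393253) (nat_lit 18) (.e (nat_lit 164332) (nat_lit 230) (.e (nat_lit 163867) (nat_lit 2) (.e (nat_lit 196652) (nat_lit 11) .nil)))))) (.g (nat_lit 4) .nil .nil)))) (.nd (nat_lit 5) 
(.lf (nat_lit 134353) (.g (nat_lit 3156) (.e (nat_lit 16438) (nat_lit 9) (.e (nat_lit 426566) (nat_lit 34) (.e (nat_lit 393253) (nat_lit 18) (.e (nat_lit 164326) (nat_lit 230) (.e (nat_lit 163868) (nat_lit 2) (.e (nat_lit 196655) (nat_lit 11) .nil)))))) (.g (nat_lit 0) .nil .nil))) 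
(.lf (nat_lit 134385) (.g (nat_lit 4327) (.e (nat_lit 16438) (nat_lit 9) (.e (nat_lit 426568) (nat_lit 34) (.e (nat_lit 393251) (nat_lit 18) (.e (nat_lit 164332) (nat_lit 230) (.e (nat_lit 163869) (nat_lit 2) (.e (nat_lit 196656) (nat_lit 11) .nil)))))) (.g (nat_lit 6) .nil .nil))))) (.nd (nat_lit 4) (.nd (nat_lit 5) 
(.lf (nat_lit 134345) (.g (nat_lit 3458) (.e (nat_lit 16438) (nat_lit 9) (.e (nat_lit 426566) (nat_lit 34) (.e (nat_lit 393253) (nat_lit 18) (.e (nat_lit 164325) (nat_lit 230) (.e (nat_lit 163868) (nat_lit 2) (.e (nat_lit 196654) (nat_lit 11) .nil)))))) (.g (nat_lit 0) .nil .nil))) 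
(.lf (nat_lit 134377) (.g (nat_lit 3316) (.e (nat_lit 16438) (nat_lit 9) (.e (nat_lit 426568) (nat_lit 34) (.e (nat_lit 393251) (nat_lit 18) (.e (nat_lit 164325) (nat_lit 230) (.e (nat_lit 163871) (nat_lit 2) (.e (nat_lit 196654) (nat_lit 11) .nil)))))) (.g (nat_lit 6) .nil .nil)))) (.nd (nat_lit 5) 
(.lf (nat_lit 134361) (.g (nat_lit 2182) (.e (nat_lit 16438) (nat_lit 9) (.e (nat_lit 426566) (nat_lit 34) (.e (nat_lit 393253) (nat_lit 18) (.e (nat_lit 164329) (nat_lit 230) (.e (nat_lit 163866) (nat_lit 2) (.e (nat_lit 196654) (nat_lit 11) .nil)))))) (.g (nat_lit 4) .nil .nil))) 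
(.lf (nat_lit 134393) (.g (nat_lit 3494) (.e (nat_lit 16438) (nat_lit 9) (.e (nat_lit 426568) (nat_lit 34) (.e (nat_lit 393252) (nat_lit 18) (.e (nat_lit 164332) (nat_lit 230) (.e (nat_lit 163867) (nat_lit 2) (.e (nat_lit 196654) (nat_lit 11) .nil)))))) (.g (nat_lit 6) .nil .nil)))))) (.nd (nat_lit 3) (.nd (nat_lit 4) (.nd (nat_lit 5) 
(.lf (nat_lit 134341) (.g (nat_lit 3950) (.e (nat_lit 16438) (nat_lit 9) (.e (nat_lit 426566) (nat_lit 34) (.e (nat_lit 393253) (nat_lit 18) (.e (nat_lit 164324) (nat_lit 230) (.e (nat_lit 163868) (nat_lit 2) (.e (nat_lit 196656) (nat_lit 11) .nil)))))) (.g (nat_lit 6) .nil .nil))) 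
(.lf (nat_lit 134373) (.g (nat_lit 3144) (.e (nat_lit 16438) (nat_lit 9) (.e (nat_lit 426566) (nat_lit 34) (.e (nat_lit 393254) (nat_lit 18) (.e (nat_lit 164332) (nat_lit 230) (.e (nat_lit 163869) (nat_lit 2) (.e (nat_lit 196655) (nat_lit 11) .nil)))))) (.g (nat_lit 5) .nil .nil)))) (.nd (nat_lit 5) 
(.lf (nat_lit 134357) (.g (nat_lit 3859) (.e (nat_lit 16438) (nat_lit 9) (.e (nat_lit 426566) (nat_lit 34) (.e (nat_lit 393253) (nat_lit 18) (.e (nat_lit 164327) (nat_lit 230) (.e (nat_lit 163868) (nat_lit 2) (.e (nat_lit 196654) (nat_lit 11) .nil)))))) (.g (nat_lit 0) .nil .nil))) 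
(.lf (nat_lit 134389) (.g (nat_lit 3631) (.e (nat_lit 16438) (nat_lit 9) (.e (nat_lit 426568) (nat_lit 34) (.e (nat_lit 393252) (nat_lit 18) (.e (nat_lit 164330) (nat_lit 230) (.e (nat_lit 163869) (nat_lit 2) (.e (nat_lit 196654) (nat_lit 11) .nil)))))) (.g (nat_lit 6) .nil .nil))))) (.nd (nat_lit 4) (.nd (nat_lit 5) 
(.lf (nat_lit 134349) (.g (nat_lit 3822) (.e (nat_lit 16438) (nat_lit 9) (.e (nat_lit 426566) (nat_lit 34) (.e (nat_lit 393253) (nat_lit 18) (.e (nat_lit 164325) (nat_lit 230) (.e (nat_lit 163871) (nat_lit 2) (.e (nat_lit 196656) (nat_lit 11) .nil)))))) (.g (nat_lit 0) .nil .nil))) 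
(.lf (nat_lit 134381) (.g (nat_lit 3008) (.e (nat_lit 16438) (nat_lit 9) (.e (nat_lit 426568) (nat_lit 34) (.e (nat_lit 393251) (nat_lit 18) (.e (nat_lit 164332) (nat_lit 230) (.e (nat_lit 163866) (nat_lit 2) (.e (nat_lit 196654) (nat_lit 11) .nil)))))) (.g (nat_lit 5) .nil .nil)))) (.nd (nat_lit 5) 
(.lf (nat_lit 134365) (.g (nat_lit 3374) (.e (nat_lit 16438) (nat_lit 9) (.e (nat_lit 426566) (nat_lit 34) (.e (nat_lit 393253) (nat_lit 18) (.e (nat_lit 164330) (nat_lit 230) (.e (nat_lit 163867) (nat_lit 2) (.e (nat_lit 196654) (nat_lit 11) .nil)))))) (.g (nat_lit 0) .nil .nil))) 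
(.lf (nat_lit 134397) (.g (nat_lit 3251) (.e (nat_lit 16438) (nat_lit 9) (.e (nat_lit 426568) (nat_lit 34) (.e (nat_lit 393253) (nat_lit 18) (.e (nat_lit 164324) (nat_lit 230) (.e (nat_lit 163866) (nat_lit 2) (.e (nat_lit 196654) (nat_lit 11) .nil)))))) (.g (nat_lit 5) .nil .nil))))))) (.nd (nat_lit 2) (.nd (nat_lit 3) (.nd (nat_lit 4) (.nd (nat_lit 5) 
(.lf (nat_lit 134339) (.g (nat_lit 3152) (.e (nat_lit 16438) (nat_lit 9) (.e (nat_lit 426566) (nat_lit 34) (.e (nat_lit 393253) (nat_lit 18) (.e (nat_lit 164324) (nat_lit 230) (.e (nat_lit 163867) (nat_lit 2) (.e (nat_lit 196654) (nat_lit 11) .nil)))))) (.g (nat_lit 5) .nil .nil))) 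
(.lf (nat_lit 134371) (.g (nat_lit 4310) (.e (nat_lit 16438) (nat_lit 9) (.e (nat_lit 426566) (nat_lit 34) (.e (nat_lit 393253) (nat_lit 18) (.e (nat_lit 164332) (nat_lit 230) (.e (nat_lit 163869) (nat_lit 2) (.e (nat_lit 196656) (nat_lit 11) .nil)))))) (.g (nat_lit 0) .nil .nil)))) (.nd (nat_lit 5) 
(.lf (nat_lit 134355) (.g (nat_lit 3031) (.e (nat_lit 16438) (nat_lit 9) (.e (nat_lit 426566) (nat_lit 34) (.e (nat_lit 393253) (nat_lit 18) (.e (nat_lit 164326) (nat_lit 230) (.e (nat_lit 163871) (nat_lit 2) (.e (nat_lit 196655) (nat_lit 11) .nil)))))) (.g (nat_lit 0) .nil .nil))) 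
(.lf (nat_lit 134387) (.g (nat_lit 2250) (.e (nat_lit 16438) (nat_lit 9) (.e (nat_lit 426568) (nat_lit 34) (.e (nat_lit 393252) (nat_lit 18) (.e (nat_lit 164329) (nat_lit 230) (.e (nat_lit 163867) (nat_lit 2) (.e (nat_lit 196654) (nat_lit 11) .nil)))))) (.g (nat_lit 4) .nil .nil))))) (.nd (nat_lit 4) (.nd (nat_lit 5) 
(.lf (nat_lit 134347) (.g (nat_lit 3470) (.e (nat_lit 16438) (nat_lit 9) (.e (nat_lit 426566) (nat_lit 34) (.e (nat_lit 393253) (nat_lit 18) (.e (nat_lit 164325) (nat_lit 230) (.e (nat_lit 163869) (nat_lit 2) (.e (nat_lit 196654) (nat_lit 11) .nil)))))) (.g (nat_lit 6) .nil .nil))) 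
(.lf (nat_lit 134379) (.g (nat_lit 3250) (.e (nat_lit 16438) (nat_lit 9) (.e (nat_lit 426568) (nat_lit 34) (.e (nat_lit 393251) (nat_lit 18) (.e (nat_lit 164327) (nat_lit 230) (.e (nat_lit 163868) (nat_lit 2) (.e (nat_lit 196656) (nat_lit 11) .nil)))))) (.g (nat_lit 5) .nil .nil)))) (.nd (nat_lit 5) 
(.lf (nat_lit 134363) (.g (nat_lit 3753) (.e (nat_lit 16438) (nat_lit 9) (.e (nat_lit 426566) (nat_lit 34) (.e (nat_lit 393253) (nat_lit 18) (.e (nat_lit 164329) (nat_lit 230) (.e (nat_lit 163867) (nat_lit 2) (.e (nat_lit 196656) (nat_lit 11) .nil)))))) (.g (nat_lit 6) .nil .nil))) 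
(.lf (nat_lit 134395) (.g (nat_lit 4236) (.e (nat_lit 16438) (nat_lit 9) (.e (nat_lit 426568) (nat_lit 34) (.e (nat_lit 393252) (nat_lit 18) (.e (nat_lit 164332) (nat_lit 230) (.e (nat_lit 163869) (nat_lit 2) (.e (nat_lit 196656) (nat_lit 11) .nil)))))) (.g (nat_lit 0) .nil .nil)))))) (.nd (nat_lit 3) (.nd (nat_lit 4) (.nd (nat_lit 5) 
(.lf (nat_lit 134343) (.g (nat_lit 3169) (.e (nat_lit 16438) (nat_lit 9) (.e (nat_lit 426566) (nat_lit 34) (.e (nat_lit 393253) (nat_lit 18) (.e (nat_lit 164325) (nat_lit 230) (.e (nat_lit 163866) (nat_lit 2) (.e (nat_lit 196654) (nat_lit 11) .nil)))))) (.g (nat_lit 6) .nil .nil))) 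
(.lf (nat_lit 134375) (.g (nat_lit 3954) (.e (nat_lit 16438) (nat_lit 9) (.e (nat_lit 426568) (nat_lit 34) (.e (nat_lit 393251) (nat_lit 18) (.e (nat_lit 164325) (nat_lit 230) (.e (nat_lit 163868) (nat_lit 2) (.e (nat_lit 196656) (nat_lit 11) .nil)))))) (.g (nat_lit 0) .nil .nil)))) (.nd (nat_lit 5) 
(.lf (nat_lit 134359) (.g (nat_lit 3827) (.e (nat_lit 16438) (nat_lit 9) (.e (nat_lit 426566) (nat_lit 34) (.e (nat_lit 393253) (nat_lit 18) (.e (nat_lit 164327) (nat_lit 230) (.e (nat_lit 163871) (nat_lit 2) (.e (nat_lit 196654) (nat_lit 11) .nil)))))) (.g (nat_lit 0) .nil .nil))) 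
(.lf (nat_lit 134391) (.g (nat_lit 3039) (.e (nat_lit 16438) (nat_lit 9) (.e (nat_lit 426568) (nat_lit 34) (.e (nat_lit 393252) (nat_lit 18) (.e (nat_lit 164331) (nat_lit 230) (.e (nat_lit 163867) (nat_lit 2) (.e (nat_lit 196654) (nat_lit 11) .nil)))))) (.g (nat_lit 5) .nil .nil))))) (.nd (nat_lit 4) (.nd (nat_lit 5) 
(.lf (nat_lit 134351) (.g (nat_lit 3072) (.e (nat_lit 16438) (nat_lit 9) (.e (nat_lit 426566) (nat_lit 34) (.e (nat_lit 393253) (nat_lit 18) (.e (nat_lit 164326) (nat_lit 230) (.e (nat_lit 163868) (nat_lit 2) (.e (nat_lit 196652) (nat_lit 11) .nil)))))) (.g (nat_lit 0) .nil .nil))) 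
(.lf (nat_lit 134383) (.g (nat_lit 3786) (.e (nat_lit 16438) (nat_lit 9) (.e (nat_lit 426568) (nat_lit 34) (.e (nat_lit 393251) (nat_lit 18) (.e (nat_lit 164332) (nat_lit 230) (.e (nat_lit 163867) (nat_lit 2) (.e (nat_lit 196656) (nat_lit 11) .nil)))))) (.g (nat_lit 6) .nil .nil)))) (.nd (nat_lit 5) 
(.lf (nat_lit 134367) (.g (nat_lit 3085) (.e (nat_lit 16438) (nat_lit 9) (.e (nat_lit 426566) (nat_lit 34) (.e (nat_lit 393253) (nat_lit 18) (.e (nat_lit 164331) (nat_lit 230) (.e (nat_lit 163866) (nat_lit 2) (.e (nat_lit 196654) (nat_lit 11) .nil)))))) (.g (nat_lit 6) .nil .nil))) 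
(.lf (nat_lit 134399) (.g (nat_lit 3412) (.e (nat_lit 16438) (nat_lit 9) (.e (nat_lit 426568) (nat_lit 34) (.e (nat_lit 393253) (nat_lit 18) (.e (nat_lit 164324) (nat_lit 230) (.e (nat_lit 163868) (nat_lit 2) (.e (nat_lit 196654) (nat_lit 11) .nil)))))) (.g (nat_lit 6) .nil .nil)))))))))

noncomputable def tv1793 : DT := (.nd (nat_lit 0) (.nd (nat_lit 1) (.nd (nat_lit 2) (.nd (nat_lit 3) (.nd (nat_lit 4) (.nd (nat_lit 5) 
(.lf (nat_lit 134400) (.g (nat_lit 4030) (.e (nat_lit 16438) (nat_lit 9) (.e (nat_lit 426568) (nat_lit 34) (.e (nat_lit 393253) (nat_lit 18) (.e (nat_lit 164324) (nat_lit 230) (.e (nat_lit 163868) (nat_lit 2) (.e (nat_lit 196656) (nat_lit 11) .nil)))))) (.g (nat_lit 6) .nil .nil))) 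
(.lf (nat_lit 134432) (.g (nat_lit 4527) (.e (nat_lit 16439) (nat_lit 9) (.e (nat_lit 426499) (nat_lit 27) (.e (nat_lit 336232) (nat_lit 14) (.e (nat_lit 401448) (nat_lit 10) (.e (nat_lit 434291) (nat_lit 44) (.e (nat_lit 704737) (nat_lit 11) .nil)))))) (.g (nat_lit 0) .nil .nil)))) (.nd (nat_lit 5) 
(.lf (nat_lit 134416) (.g (nat_lit 3893) (.e (nat_lit 16438) (nat_lit 9) (.e (nat_lit 426568) (nat_lit 34) (.e (nat_lit 393253) (nat_lit 18) (.e (nat_lit 164329) (nat_lit 230) (.e (nat_lit 163867) (nat_lit 2) (.e (nat_lit 196656) (nat_lit 11) .nil)))))) (.g (nat_lit 6) .nil .nil))) 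
(.lf (nat_lit 134448) (.g (nat_lit 1753) (.e (nat_lit 16440) (nat_lit 9) (.e (nat_lit 426501) (nat_lit 27) (.e (nat_lit 336232) (nat_lit 14) (.e (nat_lit 401448) (nat_lit 10) (.e (nat_lit 434291) (nat_lit 44) .nil))))) .nil)))) (.nd (nat_lit 4) (.nd (nat_lit 5) 
(.lf (nat_lit 134408) (.g (nat_lit 3258) (.e (nat_lit 16438) (nat_lit 9) (.e (nat_lit 426568) (nat_lit 34) (.e (nat_lit 393253) (nat_lit 18) (.e (nat_lit 164326) (nat_lit 230) (.e (nat_lit 163868) (nat_lit 2) (.e (nat_lit 196655) (nat_lit 11) .nil)))))) (.g (nat_lit 6) .nil .nil))) 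
(.lf (nat_lit 134440) (.g (nat_lit 3284) (.e (nat_lit 16440) (nat_lit 9) (.e (nat_lit 426109) (nat_lit 1) (.e (nat_lit 164196) (nat_lit 158) (.e (nat_lit 1221) (nat_lit 90) (.e (nat_lit 81953) (nat_lit 22) (.e (nat_lit 98048) (nat_lit 2) .nil)))))) (.g (nat_lit 5) .nil .nil)))) (.nd (nat_lit 5) 
(.lf (nat_lit 134424) (.g (nat_lit 1929) (.e (nat_lit 16439) (nat_lit 9) (.e (nat_lit 426396) (nat_lit 15) (.e (nat_lit 1856) (nat_lit 124) (.e (nat_lit 557101) (nat_lit 13) (.e (nat_lit 172115) (nat_lit 10) .nil))))) .nil)) 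
(.lf (nat_lit 134456) (.g (nat_lit 470) (.e (nat_lit 16442) (nat_lit 9) (.e (nat_lit 426134) (nat_lit 3) (.e (nat_lit 212736) (nat_lit 16) (.e (nat_lit 491566) (nat_lit 12) (.e (nat_lit 392960) (nat_lit 2) .nil))))) (.g (nat_lit 4) .nil .nil)))))) (.nd (nat_lit 3) (.nd (nat_lit 4) (.nd (nat_lit 5) 
(.lf (nat_lit 134404) (.g (nat_lit 3401) (.e (nat_lit 16438) (nat_lit 9) (.e (nat_lit 426568) (nat_lit 34) (.e (nat_lit 393253) (nat_lit 18) (.e (nat_lit 164325) (nat_lit 230) (.e (nat_lit 163869) (nat_lit 2) (.e (nat_lit 196654) (nat_lit 11) .nil)))))) (.g (nat_lit 6) .nil .nil))) 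
(.lf (nat_lit 134436) (.g (nat_lit 1568) (.e (nat_lit 16439) (nat_lit 9) (.e (nat_lit 426513) (nat_lit 27) (.e (nat_lit 336230) (nat_lit 14) (.e (nat_lit 401448) (nat_lit 10) (.e (nat_lit 434291) (nat_lit 44) (.e (nat_lit 704738) (nat_lit 11) .nil)))))) (.g (nat_lit 4) .nil .nil)))) (.nd (nat_lit 5) 
(.lf (nat_lit 134420) (.g (nat_lit 3631) (.e (nat_lit 16438) (nat_lit 9) (.e (nat_lit 426568) (nat_lit 34) (.e (nat_lit 393253) (nat_lit 18) (.e (nat_lit 164332) (nat_lit 230) (.e (nat_lit 163867) (nat_lit 2) (.e (nat_lit 196654) (nat_lit 11) .nil)))))) (.g (nat_lit 6) .nil .nil))) 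
(.lf (nat_lit 134452) (.g (nat_lit 797) (.e (nat_lit 16442) (nat_lit 9) (.e (nat_lit 426125) (nat_lit 2) (.e (nat_lit 204544) (nat_lit 2) .nil))) .nil)))) (.nd (nat_lit 4) (.nd (nat_lit 5) 
(.lf (nat_lit 134412) (.g (nat_lit 3130) (.e (nat_lit 16438) (nat_lit 9) (.e (nat_lit 426568) (nat_lit 34) (.e (nat_lit 393253) (nat_lit 18) (.e (nat_lit 164326) (nat_lit 230) (.e (nat_lit 163871) (nat_lit 2) (.e (nat_lit 196655) (nat_lit 11) .nil)))))) (.g (nat_lit 6) .nil .nil))) 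
(.lf (nat_lit 134444) (.g (nat_lit 789) (.e (nat_lit 16440) (nat_lit 9) (.e (nat_lit 426125) (nat_lit 2) (.e (nat_lit 196628) (nat_lit 9) .nil))) .nil))) (.nd (nat_lit 5) 
(.lf (nat_lit 134428) (.g (nat_lit 2499) (.e (nat_lit 16439) (nat_lit 9) (.e (nat_lit 426497) (nat_lit 27) (.e (nat_lit 336231) (nat_lit 14) (.e (nat_lit 401448) (nat_lit 10) (.e (nat_lit 434291) (nat_lit 44) .nil))))) .nil)) 
(.lf (nat_lit 134460) (.g (nat_lit 603) (.e (nat_lit 16442) (nat_lit 9) (.e (nat_lit 426499) (nat_lit 27) (.e (nat_lit 335892) (nat_lit 0) .nil))) .nil)))))) (.nd (nat_lit 2) (.nd (nat_lit 3) (.nd (nat_lit 4) (.nd (nat_lit 5) 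
(.lf (nat_lit 134402) (.g (nat_lit 3389) (.e (nat_lit 16438) (nat_lit 9) (.e (nat_lit 426568) (nat_lit 34) (.e (nat_lit 393253) (nat_lit 18) (.e (nat_lit 164325) (nat_lit 230) (.e (nat_lit 163868) (nat_lit 2) (.e (nat_lit 196654) (nat_lit 11) .nil)))))) (.g (nat_lit 6) .nil .nil))) 
(.lf (nat_lit 134434) (.g (nat_lit 2219) (.e (nat_lit 16439) (nat_lit 9) (.e (nat_lit 426501) (nat_lit 27) (.e (nat_lit 336076) (nat_lit 9) (.e (nat_lit 336336) (nat_lit 20) (.e (nat_lit 229120) (nat_lit 4) (.e (nat_lit 106536) (nat_lit 11) .nil)))))) (.g (nat_lit 4) .nil .nil)))) (.nd (nat_lit 5) 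
(.lf (nat_lit 134418) (.g (nat_lit 3215) (.e (nat_lit 16438) (nat_lit 9) (.e (nat_lit 426568) (nat_lit 34) (.e (nat_lit 393253) (nat_lit 18) (.e (nat_lit 164330) (nat_lit 230) (.e (nat_lit 163869) (nat_lit 2) (.e (nat_lit 196654) (nat_lit 11) .nil)))))) (.g (nat_lit 6) .nil .nil))) 
(.lf (nat_lit 134450) (.g (nat_lit 1932) (.e (nat_lit 16441) (nat_lit 9) (.e (nat_lit 426499) (nat_lit 27) (.e (nat_lit 335895) (nat_lit 0) (.e (nat_lit 6724) (nat_lit 362) (.e (nat_lit 180271) (nat_lit 26) .nil))))) .nil)))) (.nd (nat_lit 4) (.nd (nat_lit 5) 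
(.lf (nat_lit 134410) (.g (nat_lit 2380) (.e (nat_lit 16438) (nat_lit 9) (.e (nat_lit 426568) (nat_lit 34) (.e (nat_lit 393253) (nat_lit 18) (.e (nat_lit 164326) (nat_lit 230) (.e (nat_lit 163870) (nat_lit 2) (.e (nat_lit 196654) (nat_lit 11) .nil)))))) (.g (nat_lit 4) .nil .nil))) 
(.lf (nat_lit 134442) (.g (nat_lit 2469) (.e (nat_lit 16440) (nat_lit 9) (.e (nat_lit 426109) (nat_lit 1) (.e (nat_lit 164319) (nat_lit 228) (.e (nat_lit 57427) (nat_lit 15) (.e (nat_lit 360483) (nat_lit 15) (.e (nat_lit 647199) (nat_lit 11) .nil)))))) (.g (nat_lit 0) .nil .nil)))) (.nd (nat_lit 5) 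
(.lf (nat_lit 134426) (.g (nat_lit 2572) (.e (nat_lit 16439) (nat_lit 9) (.e (nat_lit 426412) (nat_lit 15) (.e (nat_lit 1856) (nat_lit 124) (.e (nat_lit 557098) (nat_lit 13) (.e (nat_lit 172115) (nat_lit 10) .nil))))) .nil)) 
(.lf (nat_lit 134458) (.g (nat_lit 1207) (.e (nat_lit 16442) (nat_lit 9) (.e (nat_lit 426140) (nat_lit 3) (.e (nat_lit 212736) (nat_lit 16) (.e (nat_lit 491566) (nat_lit 12) (.e (nat_lit 392960) (nat_lit 2) .nil))))) (.g (nat_lit 4) .nil .nil)))))) (.nd (nat_lit 3) (.nd (nat_lit 4) (.nd (nat_lit 5) 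
(.lf (nat_lit 134406) (.g (nat_lit 3134) (.e (nat_lit 16438) (nat_lit 9) (.e (nat_lit 426568) (nat_lit 34) (.e (nat_lit 393253) (nat_lit 18) (.e (nat_lit 164326) (nat_lit 230) (.e (nat_lit 163868) (nat_lit 2) (.e (nat_lit 196652) (nat_lit 11) .nil)))))) (.g (nat_lit 5) .nil .nil))) 
(.lf (nat_lit 134438) (.g (nat_lit 2521) (.e (nat_lit 16439) (nat_lit 9) (.e (nat_lit 426528) (nat_lit 27) (.e (nat_lit 336231) (nat_lit 14) (.e (nat_lit 401448) (nat_lit 10) (.e (nat_lit 434291) (nat_lit 44) (.e (nat_lit 704738) (nat_lit 11) .nil)))))) (.g (nat_lit 5) .nil .nil)))) (.nd (nat_lit 5) 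
(.lf (nat_lit 134422) (.g (nat_lit 4433) (.e (nat_lit 16438) (nat_lit 9) (.e (nat_lit 426568) (nat_lit 34) (.e (nat_lit 393253) (nat_lit 18) (.e (nat_lit 164332) (nat_lit 230) (.e (nat_lit 163869) (nat_lit 2) (.e (nat_lit 196656) (nat_lit 11) .nil)))))) (.g (nat_lit 0) .nil .nil))) 
(.lf (nat_lit 134454) (.g (nat_lit 1159) (.e (nat_lit 16442) (nat_lit 9) (.e (nat_lit 426125) (nat_lit 2) (.e (nat_lit 204544) (nat_lit 2) (.e (nat_lit 24650) (nat_lit 12) (.e (nat_lit 392960) (nat_lit 2) .nil))))) (.g (nat_lit 4) .nil .nil))))) (.nd (nat_lit 4) (.nd (nat_lit 5) 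
(.lf (nat_lit 134414) (.g (nat_lit 4095) (.e (nat_lit 16438) (nat_lit 9) (.e (nat_lit 426568) (nat_lit 34) (.e (nat_lit 393253) (nat_lit 18) (.e (nat_lit 164327) (nat_lit 230) (.e (nat_lit 163868) (nat_lit 2) (.e (nat_lit 196656) (nat_lit 11) .nil)))))) (.g (nat_lit 6) .nil .nil))) 
(.lf (nat_lit 134446) (.g (nat_lit 2561) (.e (nat_lit 16440) (nat_lit 9) (.e (nat_lit 426396) (nat_lit 15) (.e (nat_lit 1856) (nat_lit 124) (.e (nat_lit 557100) (nat_lit 13) (.e (nat_lit 172113) (nat_lit 10) .nil))))) .nil))) (.nd (nat_lit 5) 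
(.lf (nat_lit 134430) (.g (nat_lit 2449) (.e (nat_lit 16439) (nat_lit 9) (.e (nat_lit 426499) (nat_lit 27) (.e (nat_lit 336231) (nat_lit 14) (.e (nat_lit 401448) (nat_lit 10) (.e (nat_lit 434291) (nat_lit 44) (.e (nat_lit 704736) (nat_lit 11) .nil)))))) (.g (nat_lit 4) .nil .nil))) 
(.lf (nat_lit 134462) (.g (nat_lit 1072) (.e (nat_lit 16443) (nat_lit 9) (.e (nat_lit 426140) (nat_lit 3) (.e (nat_lit 212736) (nat_lit 16) (.e (nat_lit 491566) (nat_lit 12) (.e (nat_lit 392960) (nat_lit 2) .nil))))) .nil))))))) (.nd (nat_lit 1) (.nd (nat_lit 2) (.nd (nat_lit 3) (.nd (nat_lit 4) (.nd (nat_lit 5) 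
(.lf (nat_lit 134401) (.g (nat_lit 2392) (.e (nat_lit 16438) (nat_lit 9) (.e (nat_lit 426568) (nat_lit 34) (.e (nat_lit 393253) (nat_lit 18) (.e (nat_lit 164324) (nat_lit 230) (.e (nat_lit 163871) (nat_lit 2) (.e (nat_lit 196654) (nat_lit 11) .nil)))))) (.g (nat_lit 4) .nil .nil))) 
(.lf (nat_lit 134433) (.g (nat_lit 4060) (.e (nat_lit 16439) (nat_lit 9) (.e (nat_lit 426499) (nat_lit 27) (.e (nat_lit 336232) (nat_lit 14) (.e (nat_lit 401448) (nat_lit 10) (.e (nat_lit 434291) (nat_lit 44) (.e (nat_lit 704738) (nat_lit 11) .nil)))))) (.g (nat_lit 0) .nil .nil)))) (.nd (nat_lit 5) 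
(.lf (nat_lit 134417) (.g (nat_lit 2777) (.e (nat_lit 16438) (nat_lit 9) (.e (nat_lit 426568) (nat_lit 34) (.e (nat_lit 393253) (nat_lit 18) (.e (nat_lit 164330) (nat_lit 230) (.e (nat_lit 163866) (nat_lit 2) (.e (nat_lit 196654) (nat_lit 11) .nil)))))) (.g (nat_lit 5) .nil .nil))) 
(.lf (nat_lit 134449) (.g (nat_lit 1688) (.e (nat_lit 16440) (nat_lit 9) (.e (nat_lit 426528) (nat_lit 27) (.e (nat_lit 336232) (nat_lit 14) (.e (nat_lit 401448) (nat_lit 10) (.e (nat_lit 434291) (nat_lit 44) (.e (nat_lit 704738) (nat_lit 11) .nil)))))) (.g (nat_lit 4) .nil .nil))))) (.nd (nat_lit 4) (.nd (nat_lit 5) 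
(.lf (nat_lit 134409) (.g (nat_lit 2699) (.e (nat_lit 16438) (nat_lit 9) (.e (nat_lit 426568) (nat_lit 34) (.e (nat_lit 393253) (nat_lit 18) (.e (nat_lit 164326) (nat_lit 230) (.e (nat_lit 163870) (nat_lit 2) (.e (nat_lit 196652) (nat_lit 11) .nil)))))) (.g (nat_lit 4) .nil .nil))) 
(.lf (nat_lit 134441) (.g (nat_lit 2104) (.e (nat_lit 16440) (nat_lit 9) (.e (nat_lit 426109) (nat_lit 1) (.e (nat_lit 164196) (nat_lit 158) (.e (nat_lit 1221) (nat_lit 90) (.e (nat_lit 81962) (nat_lit 25) (.e (nat_lit 139276) (nat_lit 2) .nil)))))) (.g (nat_lit 4) .nil .nil)))) (.nd (nat_lit 5) 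
(.lf (nat_lit 134425) (.g (nat_lit 2000) (.e (nat_lit 16439) (nat_lit 9) (.e (nat_lit 426412) (nat_lit 15) (.e (nat_lit 1855) (nat_lit 124) (.e (nat_lit 557098) (nat_lit 13) (.e (nat_lit 172115) (nat_lit 10) .nil))))) .nil)) 
(.lf (nat_lit 134457) (.g (nat_lit 418) (.e (nat_lit 16442) (nat_lit 9) (.e (nat_lit 426135) (nat_lit 3) (.e (nat_lit 212736) (nat_lit 16) (.e (nat_lit 491566) (nat_lit 12) (.e (nat_lit 392960) (nat_lit 2) .nil))))) (.g (nat_lit 4) .nil .nil)))))) (.nd (nat_lit 3) (.nd (nat_lit 4) (.nd (nat_lit 5) 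
(.lf (nat_lit 134405) (.g (nat_lit 3228) (.e (nat_lit 16438) (nat_lit 9) (.e (nat_lit 426568) (nat_lit 34) (.e (nat_lit 393253) (nat_lit 18) (.e (nat_lit 164325) (nat_lit 230) (.e (nat_lit 163871) (nat_lit 2) (.e (nat_lit 196654) (nat_lit 11) .nil)))))) (.g (nat_lit 6) .nil .nil))) 
(.lf (nat_lit 134437) (.g (nat_lit 662) (.e (nat_lit 16439) (nat_lit 9) (.e (nat_lit 426528) (nat_lit 27) (.e (nat_lit 335894) (nat_lit 0) (.e (nat_lit 6722) (nat_lit 362) .nil)))) .nil))) (.nd (nat_lit 5) 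
(.lf (nat_lit 134421) (.g (nat_lit 4045) (.e (nat_lit 16438) (nat_lit 9) (.e (nat_lit 426568) (nat_lit 34) (.e (nat_lit 393253) (nat_lit 18) (.e (nat_lit 164332) (nat_lit 230) (.e (nat_lit 163869) (nat_lit 2) (.e (nat_lit 196654) (nat_lit 11) .nil)))))) (.g (nat_lit 6) .nil .nil))) 
(.lf (nat_lit 134453) (.g (nat_lit 1418) (.e (nat_lit 16442) (nat_lit 9) (.e (nat_lit 426125) (nat_lit 2) (.e (nat_lit 204544) (nat_lit 2) (.e (nat_lit 24648) (nat_lit 12) (.e (nat_lit 392960) (nat_lit 2) .nil))))) (.g (nat_lit 4) .nil .nil))))) (.nd (nat_lit 4) (.nd (nat_lit 5) 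
(.lf (nat_lit 134413) (.g (nat_lit 3167) (.e (nat_lit 16438) (nat_lit 9) (.e (nat_lit 426568) (nat_lit 34) (.e (nat_lit 393253) (nat_lit 18) (.e (nat_lit 164327) (nat_lit 230) (.e (nat_lit 163866) (nat_lit 2) (.e (nat_lit 196654) (nat_lit 11) .nil)))))) (.g (nat_lit 5) .nil .nil))) 
(.lf (nat_lit 134445) (.g (nat_lit 692) (.e (nat_lit 16440) (nat_lit 9) (.e (nat_lit 426140) (nat_lit 3) (.e (nat_lit 212736) (nat_lit 15) .nil))) .nil))) (.nd (nat_lit 5) 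
(.lf (nat_lit 134429) (.g (nat_lit 2587) (.e (nat_lit 16439) (nat_lit 9) (.e (nat_lit 426499) (nat_lit 27) (.e (nat_lit 336231) (nat_lit 14) (.e (nat_lit 401446) (nat_lit 10) (.e (nat_lit 434292) (nat_lit 44) .nil))))) .nil)) 
(.lf (nat_lit 134461) (.g (nat_lit 1925) (.e (nat_lit 16443) (nat_lit 9) (.e (nat_lit 426109) (nat_lit 1) (.e (nat_lit 164196) (nat_lit 158) (.e (nat_lit 1221) (nat_lit 90) (.e (nat_lit 81962) (nat_lit 25) .nil))))) .nil)))))) (.nd (nat_lit 2) (.nd (nat_lit 3) (.nd (nat_lit 4) (.nd (nat_lit 5) 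
(.lf (nat_lit 134403) (.g (nat_lit 3885) (.e (nat_lit 16438) (nat_lit 9) (.e (nat_lit 426568) (nat_lit 34) (.e (nat_lit 393253) (nat_lit 18) (.e (nat_lit 164325) (nat_lit 230) (.e (nat_lit 163868) (nat_lit 2) (.e (nat_lit 196656) (nat_lit 11) .nil)))))) (.g (nat_lit 0) .nil .nil))) 
(.lf (nat_lit 134435) (.g (nat_lit 2144) (.e (nat_lit 16439) (nat_lit 9) (.e (nat_lit 426501) (nat_lit 27) (.e (nat_lit 336194) (nat_lit 12) (.e (nat_lit 385109) (nat_lit 51) (.e (nat_lit 802560) (nat_lit 4) (.e (nat_lit 106536) (nat_lit 11) .nil)))))) (.g (nat_lit 4) .nil .nil)))) (.nd (nat_lit 5) 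
(.lf (nat_lit 134419) (.g (nat_lit 2695) (.e (nat_lit 16438) (nat_lit 9) (.e (nat_lit 426568) (nat_lit 34) (.e (nat_lit 393253) (nat_lit 18) (.e (nat_lit 164332) (nat_lit 230) (.e (nat_lit 163867) (nat_lit 2) (.e (nat_lit 196652) (nat_lit 11) .nil)))))) (.g (nat_lit 4) .nil .nil))) 
(.lf (nat_lit 134451) (.g (nat_lit 2001) (.e (nat_lit 16442) (nat_lit 9) (.e (nat_lit 426109) (nat_lit 1) (.e (nat_lit 164196) (nat_lit 158) (.e (nat_lit 1221) (nat_lit 90) (.e (nat_lit 81953) (nat_lit 22) .nil))))) .nil)))) (.nd (nat_lit 4) (.nd (nat_lit 5) 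
(.lf (nat_lit 134411) (.g (nat_lit 2544) (.e (nat_lit 16438) (nat_lit 9) (.e (nat_lit 426568) (nat_lit 34) (.e (nat_lit 393253) (nat_lit 18) (.e (nat_lit 164326) (nat_lit 230) (.e (nat_lit 163871) (nat_lit 2) (.e (nat_lit 196654) (nat_lit 11) .nil)))))) (.g (nat_lit 4) .nil .nil))) 
(.lf (nat_lit 134443) (.g (nat_lit 1469) (.e (nat_lit 16440) (nat_lit 9) (.e (nat_lit 426109) (nat_lit 1) (.e (nat_lit 164319) (nat_lit 228) (.e (nat_lit 57427) (nat_lit 15) (.e (nat_lit 360484) (nat_lit 15) (.e (nat_lit 647199) (nat_lit 11) .nil)))))) (.g (nat_lit 4) .nil .nil)))) (.nd (nat_lit 5) 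
(.lf (nat_lit 134427) (.g (nat_lit 2250) (.e (nat_lit 16439) (nat_lit 9) (.e (nat_lit 426412) (nat_lit 15) (.e (nat_lit 1856) (nat_lit 124) (.e (nat_lit 557100) (nat_lit 13) (.e (nat_lit 172113) (nat_lit 10) (.e (nat_lit 434245) (nat_lit 28) (.e (nat_lit 573470) (nat_lit 11) .nil))))))) (.g (nat_lit 4) .nil .nil))) 
(.lf (nat_lit 134459) (.g (nat_lit 2254) (.e (nat_lit 16442) (nat_lit 9) (.e (nat_lit 426412) (nat_lit 15) (.e (nat_lit 1856) (nat_lit 124) (.e (nat_lit 557098) (nat_lit 13) .nil)))) .nil))))) (.nd (nat_lit 3) (.nd (nat_lit 4) (.nd (nat_lit 5) 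
(.lf (nat_lit 134407) (.g (nat_lit 2551) (.e (nat_lit 16438) (nat_lit 9) (.e (nat_lit 426568) (nat_lit 34) (.e (nat_lit 393253) (nat_lit 18) (.e (nat_lit 164326) (nat_lit 230) (.e (nat_lit 163868) (nat_lit 2) (.e (nat_lit 196654) (nat_lit 11) .nil)))))) (.g (nat_lit 4) .nil .nil))) 
(.lf (nat_lit 134439) (.g (nat_lit 1626) (.e (nat_lit 16439) (nat_lit 9) (.e (nat_lit 426528) (nat_lit 27) (.e (nat_lit 336232) (nat_lit 14) (.e (nat_lit 401448) (nat_lit 10) (.e (nat_lit 434291) (nat_lit 44) (.e (nat_lit 704738) (nat_lit 11) .nil)))))) (.g (nat_lit 4) .nil .nil)))) (.nd (nat_lit 5) 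
(.lf (nat_lit 134423) (.g (nat_lit 1188) (.e (nat_lit 16439) (nat_lit 9) (.e (nat_lit 426158) (nat_lit 6) (.e (nat_lit 254008) (nat_lit 14) (.e (nat_lit 1358) (nat_lit 102) (.e (nat_lit 286747) (nat_lit 9) (.e (nat_lit 336013) (nat_lit 2) (.e (nat_lit 98048) (nat_lit 2) .nil))))))) (.g (nat_lit 4) .nil .nil))) 
(.lf (nat_lit 134455) (.g (nat_lit 1059) (.e (nat_lit 16442) (nat_lit 9) (.e (nat_lit 426125) (nat_lit 2) (.e (nat_lit 204544) (nat_lit 2) (.e (nat_lit 24653) (nat_lit 12) (.e (nat_lit 392960) (nat_lit 2) .nil))))) (.g (nat_lit 4) .nil .nil))))) (.nd (nat_lit 4) (.nd (nat_lit 5) 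
(.lf (nat_lit 134415) (.g (nat_lit 2457) (.e (nat_lit 16438) (nat_lit 9) (.e (nat_lit 426568) (nat_lit 34) (.e (nat_lit 393253) (nat_lit 18) (.e (nat_lit 164329) (nat_lit 230) (.e (nat_lit 163866) (nat_lit 2) (.e (nat_lit 196654) (nat_lit 11) .nil)))))) (.g (nat_lit 4) .nil .nil))) 
(.lf (nat_lit 134447) (.g (nat_lit 1691) (.e (nat_lit 16440) (nat_lit 9) (.e (nat_lit 426498) (nat_lit 27) (.e (nat_lit 336230) (nat_lit 14) (.e (nat_lit 401448) (nat_lit 10) (.e (nat_lit 434291) (nat_lit 44) (.e (nat_lit 704738) (nat_lit 11) .nil)))))) (.g (nat_lit 4) .nil .nil)))) (.nd (nat_lit 5) 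
(.lf (nat_lit 134431) (.g (nat_lit 2757) (.e (nat_lit 16439) (nat_lit 9) (.e (nat_lit 426499) (nat_lit 27) (.e (nat_lit 336232) (nat_lit 14) (.e (nat_lit 401448) (nat_lit 10) (.e (nat_lit 434291) (nat_lit 44) (.e (nat_lit 704736) (nat_lit 11) .nil)))))) (.g (nat_lit 4) .nil .nil))) 
(.lf (nat_lit 134463) (.g (nat_lit 1017) (.e (nat_lit 16444) (nat_lit 9) (.e (nat_lit 426129) (nat_lit 3) (.e (nat_lit 212736) (nat_lit 16) (.e (nat_lit 491566) (nat_lit 12) (.e (nat_lit 392960) (nat_lit 2) .nil))))) (.g (nat_lit 4) .nil .nil)))))))))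

noncomputable def tv1794 : DT := (.nd (nat_lit 0) (.nd (nat_lit 1) (.nd (nat_lit 2) (.nd (nat_lit 3) (.nd (nat_lit 4) (.nd (nat_lit 5) 
(.lf (nat_lit 134464) (.g (nat_lit 393) (.e (nat_lit 16444) (nat_lit 9) (.e (nat_lit 426503) (nat_lit 27) (.e (nat_lit 335894) (nat_lit 0) .nil))) .nil)) 
(.lf (nat_lit 134496) (.g (nat_lit 2091) (.e (nat_lit 16446) (nat_lit 9) (.e (nat_lit 426100) (nat_lit 1) (.e (nat_lit 164320) (nat_lit 229) (.e (nat_lit 122919) (nat_lit 15) (.e (nat_lit 360483) (nat_lit 15) (.e (nat_lit 647199) (nat_lit 11) .nil)))))) (.g (nat_lit 4) .nil .nil)))) (.nd (nat_lit 5) 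
(.lf (nat_lit 134480) (.g (nat_lit 1976) (.e (nat_lit 16446) (nat_lit 9) (.e (nat_lit 426009) (nat_lit 0) (.e (nat_lit 3570) (nat_lit 222) (.e (nat_lit 737299) (nat_lit 7) (.e (nat_lit 286747) (nat_lit 9) (.e (nat_lit 336013) (nat_lit 2) (.e (nat_lit 98048) (nat_lit 2) .nil))))))) (.g (nat_lit 6) .nil .nil))) 
(.lf (nat_lit 134512) (.g (nat_lit 1336) (.e (nat_lit 16446) (nat_lit 9) (.e (nat_lit 426124) (nat_lit 2) (.e (nat_lit 196670) (nat_lit 14) (.e (nat_lit 73766) (nat_lit 19) .nil)))) .nil)))) (.nd (nat_lit 4) (.nd (nat_lit 5) 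
(.lf (nat_lit 134472) (.g (nat_lit 1764) (.e (nat_lit 16444) (nat_lit 9) (.e (nat_lit 426525) (nat_lit 27) (.e (nat_lit 336232) (nat_lit 14) (.e (nat_lit 401444) (nat_lit 9) (.e (nat_lit 426163) (nat_lit 6) (.e (nat_lit 253992) (nat_lit 11) .nil)))))) (.g (nat_lit 4) .nil .nil))) 
(.lf (nat_lit 134504) (.g (nat_lit 3658) (.e (nat_lit 16446) (nat_lit 9) (.e (nat_lit 426108) (nat_lit 1) (.e (nat_lit 164195) (nat_lit 158) (.e (nat_lit 1221) (nat_lit 90) (.e (nat_lit 81953) (nat_lit 22) (.e (nat_lit 98048) (nat_lit 2) .nil)))))) (.g (nat_lit 5) .nil .nil)))) (.nd (nat_lit 5) 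
(.lf (nat_lit 134488) (.g (nat_lit 1987) (.e (nat_lit 16446) (nat_lit 9) (.e (nat_lit 426098) (nat_lit 1) (.e (nat_lit 164325) (nat_lit 230) (.e (nat_lit 163861) (nat_lit 1) .nil)))) .nil)) 
(.lf (nat_lit 134520) (.g (nat_lit 2692) (.e (nat_lit 16446) (nat_lit 9) (.e (nat_lit 426500) (nat_lit 27) (.e (nat_lit 336231) (nat_lit 14) (.e (nat_lit 401448) (nat_lit 10) (.e (nat_lit 434291) (nat_lit 44) (.e (nat_lit 704737) (nat_lit 11) .nil)))))) (.g (nat_lit 4) .nil .nil)))))) (.nd (nat_lit 3) (.nd (nat_lit 4) (.nd (nat_lit 5) 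
(.lf (nat_lit 134468) (.g (nat_lit 1888) (.e (nat_lit 16444) (nat_lit 9) (.e (nat_lit 426521) (nat_lit 27) (.e (nat_lit 336232) (nat_lit 14) (.e (nat_lit 401448) (nat_lit 10) (.e (nat_lit 434291) (nat_lit 44) (.e (nat_lit 704738) (nat_lit 11) .nil)))))) (.g (nat_lit 4) .nil .nil))) 
(.lf (nat_lit 134500) (.g (nat_lit 745) (.e (nat_lit 16446) (nat_lit 9) (.e (nat_lit 426108) (nat_lit 1) (.e (nat_lit 164195) (nat_lit 158) .nil))) .nil))) (.nd (nat_lit 5) 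
(.lf (nat_lit 134484) (.g (nat_lit 3960) (.e (nat_lit 16446) (nat_lit 9) (.e (nat_lit 426098) (nat_lit 1) (.e (nat_lit 164196) (nat_lit 158) (.e (nat_lit 1221) (nat_lit 90) (.e (nat_lit 81953) (nat_lit 22) (.e (nat_lit 98048) (nat_lit 2) .nil)))))) (.g (nat_lit 5) .nil .nil))) 
(.lf (nat_lit 134516) (.g (nat_lit 918) (.e (nat_lit 16446) (nat_lit 9) (.e (nat_lit 426408) (nat_lit 15) (.e (nat_lit 6244) (nat_lit 336) (.e (nat_lit 229695) (nat_lit 251) .nil)))) .nil)))) (.nd (nat_lit 4) (.nd (nat_lit 5) 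
(.lf (nat_lit 134476) (.g (nat_lit 1627) (.e (nat_lit 16445) (nat_lit 9) (.e (nat_lit 426107) (nat_lit 1) (.e (nat_lit 164196) (nat_lit 158) (.e (nat_lit 1221) (nat_lit 90) .nil)))) .nil)) 
(.lf (nat_lit 134508) (.g (nat_lit 605) (.e (nat_lit 16446) (nat_lit 9) (.e (nat_lit 426116) (nat_lit 2) (.e (nat_lit 196628) (nat_lit 9) .nil))) .nil))) (.nd (nat_lit 5) 
(.lf (nat_lit 134492) (.g (nat_lit 1915) (.e (nat_lit 16446) (nat_lit 9) (.e (nat_lit 426100) (nat_lit 1) (.e (nat_lit 164195) (nat_lit 158) (.e (nat_lit 1199) (nat_lit 88) (.e (nat_lit 65598) (nat_lit 9) (.e (nat_lit 336013) (nat_lit 2) (.e (nat_lit 98048) (nat_lit 2) .nil))))))) (.g (nat_lit 4) .nil .nil))) 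
(.lf (nat_lit 134524) (.g (nat_lit 2329) (.e (nat_lit 24320) (nat_lit 9) (.e (nat_lit 426503) (nat_lit 27) (.e (nat_lit 335894) (nat_lit 0) (.e (nat_lit 6722) (nat_lit 362) (.e (nat_lit 180271) (nat_lit 26) .nil))))) .nil)))))) (.nd (nat_lit 2) (.nd (nat_lit 3) (.nd (nat_lit 4) (.nd (nat_lit 5) 
(.lf (nat_lit 134466) (.g (nat_lit 2246) (.e (nat_lit 16444) (nat_lit 9) (.e (nat_lit 426503) (nat_lit 27) (.e (nat_lit 336231) (nat_lit 14) (.e (nat_lit 401446) (nat_lit 10) (.e (nat_lit 434292) (nat_lit 44) .nil))))) .nil)) 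
(.lf (nat_lit 134498) (.g (nat_lit 2821) (.e (nat_lit 16446) (nat_lit 9) (.e (nat_lit 426107) (nat_lit 1) (.e (nat_lit 164196) (nat_lit 158) (.e (nat_lit 1221) (nat_lit 90) (.e (nat_lit 81953) (nat_lit 22) (.e (nat_lit 98048) (nat_lit 2) .nil)))))) (.g (nat_lit 4) .nil .nil)))) (.nd (nat_lit 5) 
(.lf (nat_lit 134482) (.g (nat_lit 2577) (.e (nat_lit 16446) (nat_lit 9) (.e (nat_lit 426009) (nat_lit 0) (.e (nat_lit 3581) (nat_lit 223) (.e (nat_lit 745491) (nat_lit 4) (.e (nat_lit 65598) (nat_lit 9) (.e (nat_lit 336013) (nat_lit 2) (.e (nat_lit 98048) (nat_lit 2) .nil))))))) (.g (nat_lit 6) .nil .nil))) 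
(.lf (nat_lit 134514) (.g (nat_lit 1642) (.e (nat_lit 16446) (nat_lit 9) (.e (nat_lit 426133) (nat_lit 3) (.e (nat_lit 212736) (nat_lit 16) (.e (nat_lit 491566) (nat_lit 12) (.e (nat_lit 392960) (nat_lit 2) .nil))))) (.g (nat_lit 4) .nil .nil))))) (.nd (nat_lit 4) (.nd (nat_lit 5) 
(.lf (nat_lit 134474) (.g (nat_lit 703) (.e (nat_lit 16445) (nat_lit 9) (.e (nat_lit 426098) (nat_lit 1) (.e (nat_lit 164196) (nat_lit 158) .nil))) .nil)) 
(.lf (nat_lit 134506) (.g (nat_lit 2023) (.e (nat_lit 16446) (nat_lit 9) (.e (nat_lit 426108) (nat_lit 1) (.e (nat_lit 164332) (nat_lit 230) (.e (nat_lit 163885) (nat_lit 5) .nil)))) .nil))) (.nd (nat_lit 5) 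
(.lf (nat_lit 134490) (.g (nat_lit 815) (.e (nat_lit 16446) (nat_lit 9) (.e (nat_lit 426100) (nat_lit 1) (.e (nat_lit 164194) (nat_lit 158) .nil))) .nil)) 
(.lf (nat_lit 134522) (.g (nat_lit 1693) (.e (nat_lit 16446) (nat_lit 9) (.e (nat_lit 426521) (nat_lit 27) (.e (nat_lit 336232) (nat_lit 14) (.e (nat_lit 401448) (nat_lit 10) (.e (nat_lit 434291) (nat_lit 44) .nil))))) .nil))))) (.nd (nat_lit 3) (.nd (nat_lit 4) (.nd (nat_lit 5) 
(.lf (nat_lit 134470) (.g (nat_lit 2508) (.e (nat_lit 16444) (nat_lit 9) (.e (nat_lit 426525) (nat_lit 27) (.e (nat_lit 335894) (nat_lit 0) (.e (nat_lit 6724) (nat_lit 362) (.e (nat_lit 180271) (nat_lit 26) (.e (nat_lit 704738) (nat_lit 11) .nil)))))) (.g (nat_lit 4) .nil .nil))) 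
(.lf (nat_lit 134502) (.g (nat_lit 1170) (.e (nat_lit 16446) (nat_lit 9) (.e (nat_lit 426108) (nat_lit 1) (.e (nat_lit 164195) (nat_lit 158) (.e (nat_lit 1200) (nat_lit 88) .nil)))) .nil))) (.nd (nat_lit 5) 
(.lf (nat_lit 134486) (.g (nat_lit 2335) (.e (nat_lit 16446) (nat_lit 9) (.e (nat_lit 426098) (nat_lit 1) (.e (nat_lit 164321) (nat_lit 229) (.e (nat_lit 122919) (nat_lit 15) (.e (nat_lit 360483) (nat_lit 15) (.e (nat_lit 647199) (nat_lit 11) .nil)))))) (.g (nat_lit 4) .nil .nil))) 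
(.lf (nat_lit 134518) (.g (nat_lit 2315) (.e (nat_lit 16446) (nat_lit 9) (.e (nat_lit 426500) (nat_lit 27) (.e (nat_lit 335894) (nat_lit 0) (.e (nat_lit 6722) (nat_lit 362) (.e (nat_lit 180271) (nat_lit 26) (.e (nat_lit 704738) (nat_lit 11) .nil)))))) (.g (nat_lit 4) .nil .nil))))) (.nd (nat_lit 4) (.nd (nat_lit 5) 
(.lf (nat_lit 134478) (.g (nat_lit 1081) (.e (nat_lit 16446) (nat_lit 9) (.e (nat_lit 426009) (nat_lit 0) (.e (nat_lit 3566) (nat_lit 222) (.e (nat_lit 737299) (nat_lit 7) (.e (nat_lit 286747) (nat_lit 9) (.e (nat_lit 336013) (nat_lit 2) (.e (nat_lit 98048) (nat_lit 2) .nil))))))) (.g (nat_lit 4) .nil .nil))) 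
(.lf (nat_lit 134510) (.g (nat_lit 1769) (.e (nat_lit 16446) (nat_lit 9) (.e (nat_lit 426116) (nat_lit 2) (.e (nat_lit 196654) (nat_lit 11) (.e (nat_lit 16479) (nat_lit 15) .nil)))) .nil))) (.nd (nat_lit 5) 
(.lf (nat_lit 134494) (.g (nat_lit 3351) (.e (nat_lit 16446) (nat_lit 9) (.e (nat_lit 426100) (nat_lit 1) (.e (nat_lit 164195) (nat_lit 158) (.e (nat_lit 1221) (nat_lit 90) (.e (nat_lit 81953) (nat_lit 22) (.e (nat_lit 98048) (nat_lit 2) .nil)))))) (.g (nat_lit 5) .nil .nil))) 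
(.lf (nat_lit 134526) (.g (nat_lit 2456) (.e (nat_lit 24320) (nat_lit 9) (.e (nat_lit 426503) (nat_lit 27) (.e (nat_lit 335894) (nat_lit 0) (.e (nat_lit 6724) (nat_lit 362) (.e (nat_lit 180271) (nat_lit 26) .nil))))) .nil))))))) (.nd (nat_lit 1) (.nd (nat_lit 2) (.nd (nat_lit 3) (.nd (nat_lit 4) (.nd (nat_lit 5) 
(.lf (nat_lit 134465) (.g (nat_lit 3308) (.e (nat_lit 16444) (nat_lit 9) (.e (nat_lit 426503) (nat_lit 27) (.e (nat_lit 335894) (nat_lit 0) (.e (nat_lit 6724) (nat_lit 362) (.e (nat_lit 180271) (nat_lit 26) (.e (nat_lit 704737) (nat_lit 11) .nil)))))) (.g (nat_lit 6) .nil .nil))) 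
(.lf (nat_lit 134497) (.g (nat_lit 513) (.e (nat_lit 16446) (nat_lit 9) (.e (nat_lit 426100) (nat_lit 1) (.e (nat_lit 171776) (nat_lit 229) .nil))) .nil))) (.nd (nat_lit 5) 
(.lf (nat_lit 134481) (.g (nat_lit 2217) (.e (nat_lit 16446) (nat_lit 9) (.e (nat_lit 426009) (nat_lit 0) (.e (nat_lit 3570) (nat_lit 222) (.e (nat_lit 737300) (nat_lit 7) (.e (nat_lit 286747) (nat_lit 9) (.e (nat_lit 336013) (nat_lit 2) (.e (nat_lit 98048) (nat_lit 2) .nil))))))) (.g (nat_lit 6) .nil .nil))) 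
(.lf (nat_lit 134513) (.g (nat_lit 1060) (.e (nat_lit 16446) (nat_lit 9) (.e (nat_lit 426133) (nat_lit 3) (.e (nat_lit 204801) (nat_lit 0) .nil))) .nil)))) (.nd (nat_lit 4) (.nd (nat_lit 5) 
(.lf (nat_lit 134473) (.g (nat_lit 2910) (.e (nat_lit 16444) (nat_lit 9) (.e (nat_lit 426563) (nat_lit 34) (.e (nat_lit 393251) (nat_lit 18) (.e (nat_lit 164325) (nat_lit 230) (.e (nat_lit 163868) (nat_lit 2) (.e (nat_lit 196656) (nat_lit 11) .nil)))))) (.g (nat_lit 0) .nil .nil))) 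
(.lf (nat_lit 134505) (.g (nat_lit 1031) (.e (nat_lit 16446) (nat_lit 9) (.e (nat_lit 426108) (nat_lit 1) (.e (nat_lit 164319) (nat_lit 228) .nil))) .nil))) (.nd (nat_lit 5) 
(.lf (nat_lit 134489) (.g (nat_lit 816) (.e (nat_lit 16446) (nat_lit 9) (.e (nat_lit 426100) (nat_lit 1) (.e (nat_lit 164192) (nat_lit 158) .nil))) .nil)) 
(.lf (nat_lit 134521) (.g (nat_lit 2912) (.e (nat_lit 16446) (nat_lit 9) (.e (nat_lit 426500) (nat_lit 27) (.e (nat_lit 336231) (nat_lit 14) (.e (nat_lit 401448) (nat_lit 10) (.e (nat_lit 434291) (nat_lit 44) (.e (nat_lit 704738) (nat_lit 11) .nil)))))) (.g (nat_lit 4) .nil .nil)))))) (.nd (nat_lit 3) (.nd (nat_lit 4) (.nd (nat_lit 5) 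
(.lf (nat_lit 134469) (.g (nat_lit 2052) (.e (nat_lit 16444) (nat_lit 9) (.e (nat_lit 426525) (nat_lit 27) (.e (nat_lit 335894) (nat_lit 0) (.e (nat_lit 6722) (nat_lit 362) (.e (nat_lit 180272) (nat_lit 26) .nil))))) .nil)) 
(.lf (nat_lit 134501) (.g (nat_lit 2241) (.e (nat_lit 16446) (nat_lit 9) (.e (nat_lit 426108) (nat_lit 1) (.e (nat_lit 164195) (nat_lit 158) (.e (nat_lit 1199) (nat_lit 88) (.e (nat_lit 65598) (nat_lit 9) (.e (nat_lit 336013) (nat_lit 2) (.e (nat_lit 98048) (nat_lit 2) .nil))))))) (.g (nat_lit 4) .nil .nil)))) (.nd (nat_lit 5) 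
(.lf (nat_lit 134485) (.g (nat_lit 539) (.e (nat_lit 16446) (nat_lit 9) (.e (nat_lit 426098) (nat_lit 1) (.e (nat_lit 164300) (nat_lit 226) .nil))) .nil)) 
(.lf (nat_lit 134517) (.g (nat_lit 1645) (.e (nat_lit 16446) (nat_lit 9) (.e (nat_lit 426413) (nat_lit 15) (.e (nat_lit 1856) (nat_lit 124) (.e (nat_lit 557100) (nat_lit 13) (.e (nat_lit 172113) (nat_lit 10) .nil))))) .nil)))) (.nd (nat_lit 4) (.nd (nat_lit 5) 
(.lf (nat_lit 134477) (.g (nat_lit 1217) (.e (nat_lit 16445) (nat_lit 9) (.e (nat_lit 426133) (nat_lit 3) (.e (nat_lit 212736) (nat_lit 16) (.e (nat_lit 491566) (nat_lit 12) (.e (nat_lit 392960) (nat_lit 2) .nil))))) (.g (nat_lit 4) .nil .nil))) 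
(.lf (nat_lit 134509) (.g (nat_lit 1211) (.e (nat_lit 16446) (nat_lit 9) (.e (nat_lit 426116) (nat_lit 2) (.e (nat_lit 196649) (nat_lit 10) (.e (nat_lit 8515) (nat_lit 191) (.e (nat_lit 1638) (nat_lit 114) .nil))))) .nil))) (.nd (nat_lit 5) 
(.lf (nat_lit 134493) (.g (nat_lit 2175) (.e (nat_lit 16446) (nat_lit 9) (.e (nat_lit 426100) (nat_lit 1) (.e (nat_lit 164195) (nat_lit 158) (.e (nat_lit 1220) (nat_lit 90) (.e (nat_lit 81953) (nat_lit 22) (.e (nat_lit 98048) (nat_lit 2) .nil)))))) (.g (nat_lit 4) .nil .nil))) 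
(.lf (nat_lit 134525) (.g (nat_lit 2284) (.e (nat_lit 24320) (nat_lit 9) (.e (nat_lit 426503) (nat_lit 27) (.e (nat_lit 335894) (nat_lit 0) (.e (nat_lit 6722) (nat_lit 362) (.e (nat_lit 180272) (nat_lit 26) .nil))))) .nil)))))) (.nd (nat_lit 2) (.nd (nat_lit 3) (.nd (nat_lit 4) (.nd (nat_lit 5) 
(.lf (nat_lit 134467) (.g (nat_lit 3060) (.e (nat_lit 16444) (nat_lit 9) (.e (nat_lit 426503) (nat_lit 27) (.e (nat_lit 336232) (nat_lit 14) (.e (nat_lit 401448) (nat_lit 10) (.e (nat_lit 434291) (nat_lit 44) (.e (nat_lit 704737) (nat_lit 11) .nil)))))) (.g (nat_lit 6) .nil .nil))) 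
(.lf (nat_lit 134499) (.g (nat_lit 2424) (.e (nat_lit 16446) (nat_lit 9) (.e (nat_lit 426107) (nat_lit 1) (.e (nat_lit 164196) (nat_lit 158) (.e (nat_lit 1221) (nat_lit 90) (.e (nat_lit 81962) (nat_lit 25) .nil))))) .nil))) (.nd (nat_lit 5) 
(.lf (nat_lit 134483) (.g (nat_lit 1945) (.e (nat_lit 16446) (nat_lit 9) (.e (nat_lit 426098) (nat_lit 1) (.e (nat_lit 164195) (nat_lit 158) (.e (nat_lit 1221) (nat_lit 90) (.e (nat_lit 81962) (nat_lit 25) (.e (nat_lit 139276) (nat_lit 2) .nil)))))) (.g (nat_lit 4) .nil .nil))) 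
(.lf (nat_lit 134515) (.g (nat_lit 1293) (.e (nat_lit 16446) (nat_lit 9) (.e (nat_lit 426161) (nat_lit 6) (.e (nat_lit 254008) (nat_lit 14) (.e (nat_lit 1358) (nat_lit 102) (.e (nat_lit 286747) (nat_lit 9) (.e (nat_lit 336013) (nat_lit 2) (.e (nat_lit 98048) (nat_lit 2) .nil))))))) (.g (nat_lit 4) .nil .nil))))) (.nd (nat_lit 4) (.nd (nat_lit 5) 
(.lf (nat_lit 134475) (.g (nat_lit 948) (.e (nat_lit 16445) (nat_lit 9) (.e (nat_lit 426098) (nat_lit 1) (.e (nat_lit 164325) (nat_lit 230) .nil))) .nil)) 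
(.lf (nat_lit 134507) (.g (nat_lit 619) (.e (nat_lit 16446) (nat_lit 9) (.e (nat_lit 426116) (nat_lit 2) (.e (nat_lit 196624) (nat_lit 9) .nil))) .nil))) (.nd (nat_lit 5) 
(.lf (nat_lit 134491) (.g (nat_lit 666) (.e (nat_lit 16446) (nat_lit 9) (.e (nat_lit 426100) (nat_lit 1) (.e (nat_lit 164195) (nat_lit 158) .nil))) .nil)) 
(.lf (nat_lit 134523) (.g (nat_lit 2025) (.e (nat_lit 16446) (nat_lit 9) (.e (nat_lit 426521) (nat_lit 27) (.e (nat_lit 336232) (nat_lit 14) (.e (nat_lit 401448) (nat_lit 10) (.e (nat_lit 434291) (nat_lit 44) (.e (nat_lit 704738) (nat_lit 11) .nil)))))) (.g (nat_lit 4) .nil .nil)))))) (.nd (nat_lit 3) (.nd (nat_lit 4) (.nd (nat_lit 5) 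
(.lf (nat_lit 134471) (.g (nat_lit 2520) (.e (nat_lit 16444) (nat_lit 9) (.e (nat_lit 426525) (nat_lit 27) (.e (nat_lit 336231) (nat_lit 14) (.e (nat_lit 401448) (nat_lit 10) (.e (nat_lit 434291) (nat_lit 44) (.e (nat_lit 704738) (nat_lit 11) .nil)))))) (.g (nat_lit 4) .nil .nil))) 
(.lf (nat_lit 134503) (.g (nat_lit 2503) (.e (nat_lit 16446) (nat_lit 9) (.e (nat_lit 426108) (nat_lit 1) (.e (nat_lit 164195) (nat_lit 158) (.e (nat_lit 1220) (nat_lit 90) (.e (nat_lit 81953) (nat_lit 22) (.e (nat_lit 98048) (nat_lit 2) .nil)))))) (.g (nat_lit 4) .nil .nil)))) (.nd (nat_lit 5) 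
(.lf (nat_lit 134487) (.g (nat_lit 3277) (.e (nat_lit 16446) (nat_lit 9) (.e (nat_lit 426098) (nat_lit 1) (.e (nat_lit 164321) (nat_lit 229) (.e (nat_lit 122919) (nat_lit 15) (.e (nat_lit 360484) (nat_lit 15) (.e (nat_lit 647199) (nat_lit 11) .nil)))))) (.g (nat_lit 0) .nil .nil))) 
(.lf (nat_lit 134519) (.g (nat_lit 2482) (.e (nat_lit 16446) (nat_lit 9) (.e (nat_lit 426500) (nat_lit 27) (.e (nat_lit 335894) (nat_lit 0) (.e (nat_lit 6724) (nat_lit 362) (.e (nat_lit 180271) (nat_lit 26) (.e (nat_lit 704738) (nat_lit 11) .nil)))))) (.g (nat_lit 4) .nil .nil))))) (.nd (nat_lit 4) (.nd (nat_lit 5) 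
(.lf (nat_lit 134479) (.g (nat_lit 2019) (.e (nat_lit 16446) (nat_lit 9) (.e (nat_lit 426009) (nat_lit 0) (.e (nat_lit 3568) (nat_lit 222) (.e (nat_lit 737299) (nat_lit 7) (.e (nat_lit 286747) (nat_lit 9) (.e (nat_lit 336013) (nat_lit 2) (.e (nat_lit 98048) (nat_lit 2) .nil))))))) (.g (nat_lit 6) .nil .nil))) 
(.lf (nat_lit 134511) (.g (nat_lit 1609) (.e (nat_lit 16446) (nat_lit 9) (.e (nat_lit 426116) (nat_lit 2) (.e (nat_lit 196668) (nat_lit 14) (.e (nat_lit 73766) (nat_lit 19) .nil)))) .nil))) (.nd (nat_lit 5) 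
(.lf (nat_lit 134495) (.g (nat_lit 2472) (.e (nat_lit 16446) (nat_lit 9) (.e (nat_lit 426100) (nat_lit 1) (.e (nat_lit 164319) (nat_lit 228) (.e (nat_lit 57427) (nat_lit 15) (.e (nat_lit 360483) (nat_lit 15) (.e (nat_lit 647199) (nat_lit 11) .nil)))))) (.g (nat_lit 5) .nil .nil))) 
(.lf (nat_lit 134527) (.g (nat_lit 1000) (.e (nat_lit 24320) (nat_lit 9) (.e (nat_lit 426525) (nat_lit 27) (.e (nat_lit 336231) (nat_lit 14) (.e (nat_lit 401448) (nat_lit 10) .nil)))) .nil))))))))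

noncomputable def tv1795 : DT := (.nd (nat_lit 0) (.nd (nat_lit 1) (.nd (nat_lit 2) (.nd (nat_lit 3) (.nd (nat_lit 4) (.nd (nat_lit 5) 
(.lf (nat_lit 134528) (.g (nat_lit 2361) (.e (nat_lit 24320) (nat_lit 9) (.e (nat_lit 426566) (nat_lit 34) (.e (nat_lit 393251) (nat_lit 18) (.e (nat_lit 164332) (nat_lit 230) (.e (nat_lit 163869) (nat_lit 2) .nil))))) .nil)) 
(.lf (nat_lit 134560) (.g (nat_lit 4415) (.e (nat_lit 16448) (nat_lit 10) (.e (nat_lit 434248) (nat_lit 28) (.e (nat_lit 573503) (nat_lit 18) (.e (nat_lit 1349) (nat_lit 102) (.e (nat_lit 286759) (nat_lit 12) (.e (nat_lit 392960) (nat_lit 2) .nil)))))) (.g (nat_lit 5) .nil .nil)))) (.nd (nat_lit 5) 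
(.lf (nat_lit 134544) (.g (nat_lit 868) (.e (nat_lit 16447) (nat_lit 10) (.e (nat_lit 434248) (nat_lit 28) (.e (nat_lit 573503) (nat_lit 18) .nil))) .nil)) 
(.lf (nat_lit 134576) (.g (nat_lit 2686) (.e (nat_lit 16448) (nat_lit 10) (.e (nat_lit 434268) (nat_lit 36) (.e (nat_lit 639005) (nat_lit 13) (.e (nat_lit 1586) (nat_lit 111) (.e (nat_lit 360451) (nat_lit 0) (.e (nat_lit 5429) (nat_lit 306) (.e (nat_lit 1130) (nat_lit 83) .nil))))))) (.g (nat_lit 5) .nil .nil))))) (.nd (nat_lit 4) (.nd (nat_lit 5) 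
(.lf (nat_lit 134536) (.g (nat_lit 1398) (.e (nat_lit 24320) (nat_lit 9) (.e (nat_lit 426568) (nat_lit 34) (.e (nat_lit 393253) (nat_lit 18) (.e (nat_lit 164326) (nat_lit 230) .nil)))) .nil)) 
(.lf (nat_lit 134568) (.g (nat_lit 2815) (.e (nat_lit 16448) (nat_lit 10) (.e (nat_lit 434268) (nat_lit 36) (.e (nat_lit 639005) (nat_lit 13) (.e (nat_lit 1586) (nat_lit 111) (.e (nat_lit 360450) (nat_lit 0) (.e (nat_lit 5441) (nat_lit 306) (.e (nat_lit 1124) (nat_lit 83) .nil))))))) (.g (nat_lit 5) .nil .nil)))) (.nd (nat_lit 5) 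
(.lf (nat_lit 134552) (.g (nat_lit 649) (.e (nat_lit 16448) (nat_lit 10) (.e (nat_lit 434231) (nat_lit 23) (.e (nat_lit 540416) (nat_lit 32) .nil))) .nil)) 
(.lf (nat_lit 134584) (.g (nat_lit 2335) (.e (nat_lit 16448) (nat_lit 10) (.e (nat_lit 434268) (nat_lit 36) (.e (nat_lit 639005) (nat_lit 13) (.e (nat_lit 1598) (nat_lit 111) (.e (nat_lit 360455) (nat_lit 0) (.e (nat_lit 5461) (nat_lit 306) (.e (nat_lit 1122) (nat_lit 83) .nil))))))) (.g (nat_lit 4) .nil .nil)))))) (.nd (nat_lit 3) (.nd (nat_lit 4) (.nd (nat_lit 5) 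
(.lf (nat_lit 134532) (.g (nat_lit 1831) (.e (nat_lit 24320) (nat_lit 9) (.e (nat_lit 426566) (nat_lit 34) (.e (nat_lit 393254) (nat_lit 18) (.e (nat_lit 164332) (nat_lit 230) (.e (nat_lit 163869) (nat_lit 2) .nil))))) .nil)) 
(.lf (nat_lit 134564) (.g (nat_lit 2441) (.e (nat_lit 16448) (nat_lit 10) (.e (nat_lit 434268) (nat_lit 36) (.e (nat_lit 639005) (nat_lit 13) (.e (nat_lit 1586) (nat_lit 111) (.e (nat_lit 360450) (nat_lit 0) (.e (nat_lit 5439) (nat_lit 306) (.e (nat_lit 1122) (nat_lit 83) .nil))))))) (.g (nat_lit 4) .nil .nil)))) (.nd (nat_lit 5) 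
(.lf (nat_lit 134548) (.g (nat_lit 1232) (.e (nat_lit 16447) (nat_lit 10) (.e (nat_lit 434275) (nat_lit 39) (.e (nat_lit 663574) (nat_lit 9) (.e (nat_lit 7936) (nat_lit 24) .nil)))) .nil)) 
(.lf (nat_lit 134580) (.g (nat_lit 3245) (.e (nat_lit 16448) (nat_lit 10) (.e (nat_lit 434268) (nat_lit 36) (.e (nat_lit 639005) (nat_lit 13) (.e (nat_lit 1595) (nat_lit 111) (.e (nat_lit 360457) (nat_lit 0) (.e (nat_lit 5481) (nat_lit 306) (.e (nat_lit 1122) (nat_lit 83) .nil))))))) (.g (nat_lit 6) .nil .nil))))) (.nd (nat_lit 4) (.nd (nat_lit 5) 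
(.lf (nat_lit 134540) (.g (nat_lit 2943) (.e (nat_lit 16447) (nat_lit 10) (.e (nat_lit 434244) (nat_lit 28) (.e (nat_lit 573471) (nat_lit 11) (.e (nat_lit 16425) (nat_lit 7) (.e (nat_lit 409616) (nat_lit 10) .nil))))) .nil)) 
(.lf (nat_lit 134572) (.g (nat_lit 3165) (.e (nat_lit 16448) (nat_lit 10) (.e (nat_lit 434268) (nat_lit 36) (.e (nat_lit 639005) (nat_lit 13) (.e (nat_lit 1586) (nat_lit 111) (.e (nat_lit 360450) (nat_lit 0) (.e (nat_lit 5456) (nat_lit 306) (.e (nat_lit 1129) (nat_lit 83) .nil))))))) (.g (nat_lit 5) .nil .nil)))) (.nd (nat_lit 5) 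
(.lf (nat_lit 134556) (.g (nat_lit 3142) (.e (nat_lit 16448) (nat_lit 10) (.e (nat_lit 434244) (nat_lit 28) (.e (nat_lit 573471) (nat_lit 11) (.e (nat_lit 16425) (nat_lit 7) (.e (nat_lit 409616) (nat_lit 10) .nil))))) .nil)) 
(.lf (nat_lit 134588) (.g (nat_lit 2765) (.e (nat_lit 16448) (nat_lit 10) (.e (nat_lit 434268) (nat_lit 36) (.e (nat_lit 639007) (nat_lit 13) (.e (nat_lit 1586) (nat_lit 111) (.e (nat_lit 360450) (nat_lit 0) (.e (nat_lit 5439) (nat_lit 306) (.e (nat_lit 1123) (nat_lit 83) .nil))))))) (.g (nat_lit 5) .nil .nil))))))) (.nd (nat_lit 2) (.nd (nat_lit 3) (.nd (nat_lit 4) (.nd (nat_lit 5) 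
(.lf (nat_lit 134530) (.g (nat_lit 2141) (.e (nat_lit 24320) (nat_lit 9) (.e (nat_lit 426566) (nat_lit 34) (.e (nat_lit 393253) (nat_lit 18) (.e (nat_lit 164326) (nat_lit 230) .nil)))) .nil)) 
(.lf (nat_lit 134562) (.g (nat_lit 1889) (.e (nat_lit 16448) (nat_lit 10) (.e (nat_lit 434268) (nat_lit 36) (.e (nat_lit 639005) (nat_lit 13) (.e (nat_lit 1586) (nat_lit 111) (.e (nat_lit 360450) (nat_lit 0) (.e (nat_lit 5429) (nat_lit 306) (.e (nat_lit 1123) (nat_lit 83) .nil))))))) (.g (nat_lit 4) .nil .nil)))) (.nd (nat_lit 5) 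
(.lf (nat_lit 134546) (.g (nat_lit 4007) (.e (nat_lit 16447) (nat_lit 10) (.e (nat_lit 434248) (nat_lit 28) (.e (nat_lit 573503) (nat_lit 18) (.e (nat_lit 1349) (nat_lit 102) (.e (nat_lit 286748) (nat_lit 9) (.e (nat_lit 336295) (nat_lit 15) (.e (nat_lit 7936) (nat_lit 404) .nil))))))) (.g (nat_lit 6) .nil .nil))) 
(.lf (nat_lit 134578) (.g (nat_lit 2439) (.e (nat_lit 16448) (nat_lit 10) (.e (nat_lit 434268) (nat_lit 36) (.e (nat_lit 639005) (nat_lit 13) (.e (nat_lit 1586) (nat_lit 111) (.e (nat_lit 360485) (nat_lit 16) (.e (nat_lit 655395) (nat_lit 11) .nil)))))) (.g (nat_lit 4) .nil .nil))))) (.nd (nat_lit 4) (.nd (nat_lit 5) 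
(.lf (nat_lit 134538) (.g (nat_lit 1934) (.e (nat_lit 24320) (nat_lit 9) (.e (nat_lit 426568) (nat_lit 34) (.e (nat_lit 393253) (nat_lit 18) (.e (nat_lit 164332) (nat_lit 230) (.e (nat_lit 163869) (nat_lit 2) .nil))))) .nil)) 
(.lf (nat_lit 134570) (.g (nat_lit 2921) (.e (nat_lit 16448) (nat_lit 10) (.e (nat_lit 434268) (nat_lit 36) (.e (nat_lit 639005) (nat_lit 13) (.e (nat_lit 1586) (nat_lit 111) (.e (nat_lit 360450) (nat_lit 0) (.e (nat_lit 5456) (nat_lit 306) (.e (nat_lit 1123) (nat_lit 83) .nil))))))) (.g (nat_lit 5) .nil .nil)))) (.nd (nat_lit 5) 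
(.lf (nat_lit 134554) (.g (nat_lit 3582) (.e (nat_lit 16448) (nat_lit 10) (.e (nat_lit 434238) (nat_lit 25) (.e (nat_lit 548915) (nat_lit 20) (.e (nat_lit 188446) (nat_lit 21) .nil)))) .nil)) 
(.lf (nat_lit 134586) (.g (nat_lit 2874) (.e (nat_lit 16448) (nat_lit 10) (.e (nat_lit 434268) (nat_lit 36) (.e (nat_lit 639007) (nat_lit 13) (.e (nat_lit 1586) (nat_lit 111) (.e (nat_lit 360450) (nat_lit 0) (.e (nat_lit 5429) (nat_lit 306) (.e (nat_lit 1130) (nat_lit 83) .nil))))))) (.g (nat_lit 5) .nil .nil)))))) (.nd (nat_lit 3) (.nd (nat_lit 4) (.nd (nat_lit 5) 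
(.lf (nat_lit 134534) (.g (nat_lit 1703) (.e (nat_lit 24320) (nat_lit 9) (.e (nat_lit 426568) (nat_lit 34) (.e (nat_lit 393253) (nat_lit 18) (.e (nat_lit 164325) (nat_lit 230) (.e (nat_lit 163868) (nat_lit 2) .nil))))) .nil)) 
(.lf (nat_lit 134566) (.g (nat_lit 3238) (.e (nat_lit 16448) (nat_lit 10) (.e (nat_lit 434268) (nat_lit 36) (.e (nat_lit 639005) (nat_lit 13) (.e (nat_lit 1586) (nat_lit 111) (.e (nat_lit 360450) (nat_lit 0) (.e (nat_lit 5441) (nat_lit 306) (.e (nat_lit 1122) (nat_lit 83) .nil))))))) (.g (nat_lit 5) .nil .nil)))) (.nd (nat_lit 5) 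
(.lf (nat_lit 134550) (.g (nat_lit 1052) (.e (nat_lit 16447) (nat_lit 10) (.e (nat_lit 434295) (nat_lit 49) (.e (nat_lit 745489) (nat_lit 4) (.e (nat_lit 65598) (nat_lit 9) (.e (nat_lit 336013) (nat_lit 2) (.e (nat_lit 98048) (nat_lit 2) .nil)))))) (.g (nat_lit 4) .nil .nil))) 
(.lf (nat_lit 134582) (.g (nat_lit 2334) (.e (nat_lit 16448) (nat_lit 10) (.e (nat_lit 434268) (nat_lit 36) (.e (nat_lit 639005) (nat_lit 13) (.e (nat_lit 1598) (nat_lit 111) (.e (nat_lit 360449) (nat_lit 0) (.e (nat_lit 5455) (nat_lit 306) (.e (nat_lit 1122) (nat_lit 83) .nil))))))) (.g (nat_lit 4) .nil .nil))))) (.nd (nat_lit 4) (.nd (nat_lit 5) 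
(.lf (nat_lit 134542) (.g (nat_lit 2654) (.e (nat_lit 16447) (nat_lit 10) (.e (nat_lit 434244) (nat_lit 28) (.e (nat_lit 573503) (nat_lit 18) (.e (nat_lit 1349) (nat_lit 102) (.e (nat_lit 286748) (nat_lit 9) (.e (nat_lit 336295) (nat_lit 15) (.e (nat_lit 7936) (nat_lit 404) .nil))))))) (.g (nat_lit 4) .nil .nil))) 
(.lf (nat_lit 134574) (.g (nat_lit 2860) (.e (nat_lit 16448) (nat_lit 10) (.e (nat_lit 434268) (nat_lit 36) (.e (nat_lit 639005) (nat_lit 13) (.e (nat_lit 1586) (nat_lit 111) (.e (nat_lit 360451) (nat_lit 0) (.e (nat_lit 5429) (nat_lit 306) (.e (nat_lit 1122) (nat_lit 83) .nil))))))) (.g (nat_lit 5) .nil .nil)))) (.nd (nat_lit 5) 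
(.lf (nat_lit 134558) (.g (nat_lit 3620) (.e (nat_lit 16448) (nat_lit 10) (.e (nat_lit 434248) (nat_lit 28) (.e (nat_lit 573503) (nat_lit 18) (.e (nat_lit 1348) (nat_lit 102) (.e (nat_lit 286759) (nat_lit 12) (.e (nat_lit 392960) (nat_lit 2) .nil)))))) (.g (nat_lit 4) .nil .nil))) 
(.lf (nat_lit 134590) (.g (nat_lit 3501) (.e (nat_lit 16448) (nat_lit 10) (.e (nat_lit 434268) (nat_lit 36) (.e (nat_lit 639007) (nat_lit 13) (.e (nat_lit 1586) (nat_lit 111) (.e (nat_lit 360450) (nat_lit 0) (.e (nat_lit 5441) (nat_lit 306) (.e (nat_lit 1123) (nat_lit 83) .nil))))))) (.g (nat_lit 5) .nil .nil)))))))) 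
(.nd (nat_lit 1) (.nd (nat_lit 2) (.nd (nat_lit 3) (.nd (nat_lit 4) (.nd (nat_lit 5) 
(.lf (nat_lit 134529) (.g (nat_lit 1873) (.e (nat_lit 24320) (nat_lit 9) (.e (nat_lit 426566) (nat_lit 34) (.e (nat_lit 393253) (nat_lit 18) (.e (nat_lit 164325) (nat_lit 230) .nil)))) .nil)) 
(.lf (nat_lit 134561) (.g (nat_lit 2283) (.e (nat_lit 16448) (nat_lit 10) (.e (nat_lit 434268) (nat_lit 36) (.e (nat_lit 639005) (nat_lit 13) (.e (nat_lit 1586) (nat_lit 111) (.e (nat_lit 360450) (nat_lit 0) (.e (nat_lit 5429) (nat_lit 306) (.e (nat_lit 1122) (nat_lit 83) .nil))))))) (.g (nat_lit 4) .nil .nil)))) (.nd (nat_lit 5) 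
(.lf (nat_lit 134545) (.g (nat_lit 3137) (.e (nat_lit 16447) (nat_lit 10) (.e (nat_lit 434248) (nat_lit 28) (.e (nat_lit 573503) (nat_lit 18) (.e (nat_lit 1348) (nat_lit 102) (.e (nat_lit 286759) (nat_lit 12) (.e (nat_lit 392960) (nat_lit 2) .nil)))))) (.g (nat_lit 4) .nil .nil))) 
(.lf (nat_lit 134577) (.g (nat_lit 2051) (.e (nat_lit 16448) (nat_lit 10) (.e (nat_lit 434268) (nat_lit 36) (.e (nat_lit 639005) (nat_lit 13) (.e (nat_lit 1586) (nat_lit 111) (.e (nat_lit 360451) (nat_lit 0) (.e (nat_lit 5440) (nat_lit 306) (.e (nat_lit 1130) (nat_lit 83) .nil))))))) (.g (nat_lit 4) .nil .nil))))) (.nd (nat_lit 4) (.nd (nat_lit 5) 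
(.lf (nat_lit 134537) (.g (nat_lit 2015) (.e (nat_lit 24320) (nat_lit 9) (.e (nat_lit 426568) (nat_lit 34) (.e (nat_lit 393253) (nat_lit 18) (.e (nat_lit 164327) (nat_lit 230) (.e (nat_lit 163868) (nat_lit 2) .nil))))) .nil)) 
(.lf (nat_lit 134569) (.g (nat_lit 3124) (.e (nat_lit 16448) (nat_lit 10) (.e (nat_lit 434268) (nat_lit 36) (.e (nat_lit 639005) (nat_lit 13) (.e (nat_lit 1586) (nat_lit 111) (.e (nat_lit 360450) (nat_lit 0) (.e (nat_lit 5456) (nat_lit 306) (.e (nat_lit 1122) (nat_lit 83) .nil))))))) (.g (nat_lit 5) .nil .nil)))) (.nd (nat_lit 5) 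
(.lf (nat_lit 134553) (.g (nat_lit 3583) (.e (nat_lit 16448) (nat_lit 10) (.e (nat_lit 434238) (nat_lit 25) (.e (nat_lit 548915) (nat_lit 20) (.e (nat_lit 188444) (nat_lit 21) .nil)))) .nil)) 
(.lf (nat_lit 134585) (.g (nat_lit 2634) (.e (nat_lit 16448) (nat_lit 10) (.e (nat_lit 434268) (nat_lit 36) (.e (nat_lit 639007) (nat_lit 13) (.e (nat_lit 1586) (nat_lit 111) (.e (nat_lit 360450) (nat_lit 0) (.e (nat_lit 5429) (nat_lit 306) (.e (nat_lit 1123) (nat_lit 83) .nil))))))) (.g (nat_lit 4) .nil .nil)))))) (.nd (nat_lit 3) (.nd (nat_lit 4) (.nd (nat_lit 5) 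
(.lf (nat_lit 134533) (.g (nat_lit 1822) (.e (nat_lit 24320) (nat_lit 9) (.e (nat_lit 426568) (nat_lit 34) (.e (nat_lit 393253) (nat_lit 18) (.e (nat_lit 164324) (nat_lit 230) (.e (nat_lit 163868) (nat_lit 2) .nil))))) .nil)) 
(.lf (nat_lit 134565) (.g (nat_lit 2020) (.e (nat_lit 16448) (nat_lit 10) (.e (nat_lit 434268) (nat_lit 36) (.e (nat_lit 639005) (nat_lit 13) (.e (nat_lit 1586) (nat_lit 111) (.e (nat_lit 360450) (nat_lit 0) (.e (nat_lit 5439) (nat_lit 306) (.e (nat_lit 1123) (nat_lit 83) .nil))))))) (.g (nat_lit 4) .nil .nil)))) (.nd (nat_lit 5) 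
(.lf (nat_lit 134549) (.g (nat_lit 1443) (.e (nat_lit 16447) (nat_lit 10) (.e (nat_lit 434275) (nat_lit 39) (.e (nat_lit 663580) (nat_lit 9) (.e (nat_lit 7936) (nat_lit 24) .nil)))) .nil)) 
(.lf (nat_lit 134581) (.g (nat_lit 2216) (.e (nat_lit 16448) (nat_lit 10) (.e (nat_lit 434268) (nat_lit 36) (.e (nat_lit 639005) (nat_lit 13) (.e (nat_lit 1595) (nat_lit 111) (.e (nat_lit 360485) (nat_lit 16) (.e (nat_lit 655395) (nat_lit 11) .nil)))))) (.g (nat_lit 4) .nil .nil))))) (.nd (nat_lit 4) (.nd (nat_lit 5) 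
(.lf (nat_lit 134541) (.g (nat_lit 2097) (.e (nat_lit 16447) (nat_lit 10) (.e (nat_lit 434244) (nat_lit 28) (.e (nat_lit 573503) (nat_lit 18) (.e (nat_lit 1348) (nat_lit 102) .nil)))) .nil)) 
(.lf (nat_lit 134573) (.g (nat_lit 3086) (.e (nat_lit 16448) (nat_lit 10) (.e (nat_lit 434268) (nat_lit 36) (.e (nat_lit 639005) (nat_lit 13) (.e (nat_lit 1586) (nat_lit 111) (.e (nat_lit 360450) (nat_lit 0) (.e (nat_lit 5456) (nat_lit 306) (.e (nat_lit 1130) (nat_lit 83) .nil))))))) (.g (nat_lit 5) .nil .nil)))) (.nd (nat_lit 5) 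
(.lf (nat_lit 134557) (.g (nat_lit 2123) (.e (nat_lit 16448) (nat_lit 10) (.e (nat_lit 434248) (nat_lit 28) (.e (nat_lit 573503) (nat_lit 18) (.e (nat_lit 1348) (nat_lit 102) .nil)))) .nil)) 
(.lf (nat_lit 134589) (.g (nat_lit 3276) (.e (nat_lit 16448) (nat_lit 10) (.e (nat_lit 434268) (nat_lit 36) (.e (nat_lit 639007) (nat_lit 13) (.e (nat_lit 1586) (nat_lit 111) (.e (nat_lit 360450) (nat_lit 0) (.e (nat_lit 5439) (nat_lit 306) (.e (nat_lit 1130) (nat_lit 83) .nil))))))) (.g (nat_lit 5) .nil .nil))))))) (.nd (nat_lit 2) (.nd (nat_lit 3) (.nd (nat_lit 4) (.nd (nat_lit 5) 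
(.lf (nat_lit 134531) (.g (nat_lit 1373) (.e (nat_lit 24320) (nat_lit 9) (.e (nat_lit 426566) (nat_lit 34) (.e (nat_lit 393254) (nat_lit 18) (.e (nat_lit 164326) (nat_lit 230) .nil)))) .nil)) 
(.lf (nat_lit 134563) (.g (nat_lit 2109) (.e (nat_lit 16448) (nat_lit 10) (.e (nat_lit 434268) (nat_lit 36) (.e (nat_lit 639005) (nat_lit 13) (.e (nat_lit 1586) (nat_lit 111) (.e (nat_lit 360450) (nat_lit 0) (.e (nat_lit 5429) (nat_lit 306) (.e (nat_lit 1130) (nat_lit 83) .nil))))))) (.g (nat_lit 4) .nil .nil)))) (.nd (nat_lit 5) 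
(.lf (nat_lit 134547) (.g (nat_lit 3932) (.e (nat_lit 16447) (nat_lit 10) (.e (nat_lit 434248) (nat_lit 28) (.e (nat_lit 573503) (nat_lit 18) (.e (nat_lit 1349) (nat_lit 102) (.e (nat_lit 286759) (nat_lit 12) (.e (nat_lit 392960) (nat_lit 2) .nil)))))) (.g (nat_lit 5) .nil .nil))) 
(.lf (nat_lit 134579) (.g (nat_lit 2301) (.e (nat_lit 16448) (nat_lit 10) (.e (nat_lit 434268) (nat_lit 36) (.e (nat_lit 639005) (nat_lit 13) (.e (nat_lit 1595) (nat_lit 111) (.e (nat_lit 360453) (nat_lit 0) (.e (nat_lit 5483) (nat_lit 306) (.e (nat_lit 1122) (nat_lit 83) .nil))))))) (.g (nat_lit 4) .nil .nil))))) (.nd (nat_lit 4) (.nd (nat_lit 5) 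
(.lf (nat_lit 134539) (.g (nat_lit 1731) (.e (nat_lit 16447) (nat_lit 10) (.e (nat_lit 434209) (nat_lit 18) (.e (nat_lit 6792) (nat_lit 365) (.e (nat_lit 1221) (nat_lit 90) (.e (nat_lit 81962) (nat_lit 25) (.e (nat_lit 139276) (nat_lit 2) .nil)))))) (.g (nat_lit 4) .nil .nil))) 
(.lf (nat_lit 134571) (.g (nat_lit 3190) (.e (nat_lit 16448) (nat_lit 10) (.e (nat_lit 434268) (nat_lit 36) (.e (nat_lit 639005) (nat_lit 13) (.e (nat_lit 1586) (nat_lit 111) (.e (nat_lit 360450) (nat_lit 0) (.e (nat_lit 5456) (nat_lit 306) (.e (nat_lit 1124) (nat_lit 83) .nil))))))) (.g (nat_lit 5) .nil .nil)))) (.nd (nat_lit 5) 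
(.lf (nat_lit 134555) (.g (nat_lit 218) (.e (nat_lit 16448) (nat_lit 10) (.e (nat_lit 434241) (nat_lit 27) (.e (nat_lit 565269) (nat_lit 6) .nil))) .nil)) 
(.lf (nat_lit 134587) (.g (nat_lit 3027) (.e (nat_lit 16448) (nat_lit 10) (.e (nat_lit 434268) (nat_lit 36) (.e (nat_lit 639007) (nat_lit 13) (.e (nat_lit 1586) (nat_lit 111) (.e (nat_lit 360450) (nat_lit 0) (.e (nat_lit 5439) (nat_lit 306) (.e (nat_lit 1122) (nat_lit 83) .nil))))))) (.g (nat_lit 5) .nil .nil)))))) (.nd (nat_lit 3) (.nd (nat_lit 4) (.nd (nat_lit 5) 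
(.lf (nat_lit 134535) (.g (nat_lit 1712) (.e (nat_lit 24320) (nat_lit 9) (.e (nat_lit 426568) (nat_lit 34) (.e (nat_lit 393253) (nat_lit 18) (.e (nat_lit 164325) (nat_lit 230) (.e (nat_lit 163871) (nat_lit 2) .nil))))) .nil)) 
(.lf (nat_lit 134567) (.g (nat_lit 2756) (.e (nat_lit 16448) (nat_lit 10) (.e (nat_lit 434268) (nat_lit 36) (.e (nat_lit 639005) (nat_lit 13) (.e (nat_lit 1586) (nat_lit 111) (.e (nat_lit 360450) (nat_lit 0) (.e (nat_lit 5441) (nat_lit 306) (.e (nat_lit 1123) (nat_lit 83) .nil))))))) (.g (nat_lit 5) .nil .nil)))) (.nd (nat_lit 5) 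
(.lf (nat_lit 134551) (.g (nat_lit 2404) (.e (nat_lit 16447) (nat_lit 10) (.e (nat_lit 434295) (nat_lit 49) (.e (nat_lit 745491) (nat_lit 4) (.e (nat_lit 65598) (nat_lit 9) (.e (nat_lit 336013) (nat_lit 2) (.e (nat_lit 98048) (nat_lit 2) .nil)))))) (.g (nat_lit 5) .nil .nil))) 
(.lf (nat_lit 134583) (.g (nat_lit 2149) (.e (nat_lit 16448) (nat_lit 10) (.e (nat_lit 434268) (nat_lit 36) (.e (nat_lit 639005) (nat_lit 13) (.e (nat_lit 1598) (nat_lit 111) (.e (nat_lit 360449) (nat_lit 0) (.e (nat_lit 5455) (nat_lit 306) (.e (nat_lit 1130) (nat_lit 83) .nil))))))) (.g (nat_lit 4) .nil .nil))))) (.nd (nat_lit 4) (.nd (nat_lit 5) 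
(.lf (nat_lit 134543) (.g (nat_lit 2577) (.e (nat_lit 16447) (nat_lit 10) (.e (nat_lit 434244) (nat_lit 28) (.e (nat_lit 573503) (nat_lit 18) (.e (nat_lit 1349) (nat_lit 102) (.e (nat_lit 286759) (nat_lit 12) (.e (nat_lit 392960) (nat_lit 2) .nil)))))) (.g (nat_lit 4) .nil .nil))) 
(.lf (nat_lit 134575) (.g (nat_lit 2466) (.e (nat_lit 16448) (nat_lit 10) (.e (nat_lit 434268) (nat_lit 36) (.e (nat_lit 639005) (nat_lit 13) (.e (nat_lit 1586) (nat_lit 111) (.e (nat_lit 360451) (nat_lit 0) (.e (nat_lit 5429) (nat_lit 306) (.e (nat_lit 1123) (nat_lit 83) .nil))))))) (.g (nat_lit 5) .nil .nil)))) (.nd (nat_lit 5) 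
(.lf (nat_lit 134559) (.g (nat_lit 4490) (.e (nat_lit 16448) (nat_lit 10) (.e (nat_lit 434248) (nat_lit 28) (.e (nat_lit 573503) (nat_lit 18) (.e (nat_lit 1349) (nat_lit 102) (.e (nat_lit 286748) (nat_lit 9) (.e (nat_lit 336295) (nat_lit 15) (.e (nat_lit 7936) (nat_lit 404) .nil))))))) (.g (nat_lit 6) .nil .nil))) 
(.lf (nat_lit 134591) (.g (nat_lit 3407) (.e (nat_lit 16448) (nat_lit 10) (.e (nat_lit 434268) (nat_lit 36) (.e (nat_lit 639007) (nat_lit 13) (.e (nat_lit 1586) (nat_lit 111) (.e (nat_lit 360450) (nat_lit 0) (.e (nat_lit 5441) (nat_lit 306) (.e (nat_lit 1124) (nat_lit 83) .nil))))))) (.g (nat_lit 5) .nil .nil)))))))))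

noncomputable def tv1796 : DT := (.nd (nat_lit 0) (.nd (nat_lit 1) (.nd (nat_lit 2) (.nd (nat_lit 3) (.nd (nat_lit 4) (.nd (nat_lit 5) 
(.lf (nat_lit 134592) (.g (nat_lit 2254) (.e (nat_lit 16448) (nat_lit 10) (.e (nat_lit 434268) (nat_lit 36) (.e (nat_lit 639007) (nat_lit 13) (.e (nat_lit 1586) (nat_lit 111) (.e (nat_lit 360450) (nat_lit 0) (.e (nat_lit 5455) (nat_lit 306) (.e (nat_lit 1123) (nat_lit 83) .nil))))))) (.g (nat_lit 4) .nil .nil))) 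
(.lf (nat_lit 134624) (.g (nat_lit 3041) (.e (nat_lit 16448) (nat_lit 10) (.e (nat_lit 434268) (nat_lit 36) (.e (nat_lit 639020) (nat_lit 16) (.e (nat_lit 65617) (nat_lit 10) (.e (nat_lit 344091) (nat_lit 18) (.e (nat_lit 5439) (nat_lit 306) (.e (nat_lit 1123) (nat_lit 83) .nil))))))) (.g (nat_lit 5) .nil .nil)))) (.nd (nat_lit 5) 
(.lf (nat_lit 134608) (.g (nat_lit 2646) (.e (nat_lit 16448) (nat_lit 10) (.e (nat_lit 434268) (nat_lit 36) (.e (nat_lit 639007) (nat_lit 13) (.e (nat_lit 1595) (nat_lit 111) (.e (nat_lit 360453) (nat_lit 0) (.e (nat_lit 5483) (nat_lit 306) (.e (nat_lit 1122) (nat_lit 83) .nil))))))) (.g (nat_lit 4) .nil .nil))) 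
(.lf (nat_lit 134640) (.g (nat_lit 2752) (.e (nat_lit 16448) (nat_lit 10) (.e (nat_lit 434268) (nat_lit 36) (.e (nat_lit 639020) (nat_lit 16) (.e (nat_lit 65617) (nat_lit 10) (.e (nat_lit 344096) (nat_lit 18) (.e (nat_lit 5429) (nat_lit 306) (.e (nat_lit 1122) (nat_lit 83) .nil))))))) (.g (nat_lit 4) .nil .nil))))) (.nd (nat_lit 4) (.nd (nat_lit 5) 
(.lf (nat_lit 134600) (.g (nat_lit 3214) (.e (nat_lit 16448) (nat_lit 10) (.e (nat_lit 434268) (nat_lit 36) (.e (nat_lit 639007) (nat_lit 13) (.e (nat_lit 1586) (nat_lit 111) (.e (nat_lit 360451) (nat_lit 0) (.e (nat_lit 5429) (nat_lit 306) (.e (nat_lit 1129) (nat_lit 83) .nil))))))) (.g (nat_lit 5) .nil .nil))) 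
(.lf (nat_lit 134632) (.g (nat_lit 3258) (.e (nat_lit 16448) (nat_lit 10) (.e (nat_lit 434268) (nat_lit 36) (.e (nat_lit 639020) (nat_lit 16) (.e (nat_lit 65617) (nat_lit 10) (.e (nat_lit 344091) (nat_lit 18) (.e (nat_lit 5455) (nat_lit 306) (.e (nat_lit 1123) (nat_lit 83) .nil))))))) (.g (nat_lit 5) .nil .nil)))) (.nd (nat_lit 5) 
(.lf (nat_lit 134616) (.g (nat_lit 3168) (.e (nat_lit 16448) (nat_lit 10) (.e (nat_lit 434268) (nat_lit 36) (.e (nat_lit 639020) (nat_lit 16) (.e (nat_lit 65610) (nat_lit 10) (.e (nat_lit 344097) (nat_lit 18) (.e (nat_lit 5479) (nat_lit 306) (.e (nat_lit 1122) (nat_lit 83) .nil))))))) (.g (nat_lit 5) .nil .nil))) 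
(.lf (nat_lit 134648) (.g (nat_lit 2356) (.e (nat_lit 16448) (nat_lit 10) (.e (nat_lit 434268) (nat_lit 36) (.e (nat_lit 639020) (nat_lit 16) (.e (nat_lit 65619) (nat_lit 10) (.e (nat_lit 344090) (nat_lit 18) (.e (nat_lit 5429) (nat_lit 306) (.e (nat_lit 1129) (nat_lit 83) .nil))))))) (.g (nat_lit 4) .nil .nil)))))) (.nd (nat_lit 3) (.nd (nat_lit 4) (.nd (nat_lit 5) 
(.lf (nat_lit 134596) (.g (nat_lit 2621) (.e (nat_lit 16448) (nat_lit 10) (.e (nat_lit 434268) (nat_lit 36) (.e (nat_lit 639007) (nat_lit 13) (.e (nat_lit 1586) (nat_lit 111) (.e (nat_lit 360450) (nat_lit 0) (.e (nat_lit 5478) (nat_lit 306) (.e (nat_lit 1122) (nat_lit 83) .nil))))))) (.g (nat_lit 4) .nil .nil))) 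
(.lf (nat_lit 134628) (.g (nat_lit 3757) (.e (nat_lit 16448) (nat_lit 10) (.e (nat_lit 434268) (nat_lit 36) (.e (nat_lit 639020) (nat_lit 16) (.e (nat_lit 65617) (nat_lit 10) (.e (nat_lit 344091) (nat_lit 18) (.e (nat_lit 5441) (nat_lit 306) (.e (nat_lit 1123) (nat_lit 83) .nil))))))) (.g (nat_lit 6) .nil .nil)))) (.nd (nat_lit 5) 
(.lf (nat_lit 134612) (.g (nat_lit 2926) (.e (nat_lit 16448) (nat_lit 10) (.e (nat_lit 434268) (nat_lit 36) (.e (nat_lit 639007) (nat_lit 13) (.e (nat_lit 1598) (nat_lit 111) (.e (nat_lit 360452) (nat_lit 0) (.e (nat_lit 5483) (nat_lit 306) (.e (nat_lit 1122) (nat_lit 83) .nil))))))) (.g (nat_lit 5) .nil .nil))) 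
(.lf (nat_lit 134644) (.g (nat_lit 2579) (.e (nat_lit 16448) (nat_lit 10) (.e (nat_lit 434268) (nat_lit 36) (.e (nat_lit 639020) (nat_lit 16) (.e (nat_lit 65617) (nat_lit 10) (.e (nat_lit 344096) (nat_lit 18) (.e (nat_lit 5429) (nat_lit 306) (.e (nat_lit 1130) (nat_lit 83) .nil))))))) (.g (nat_lit 4) .nil .nil))))) (.nd (nat_lit 4) (.nd (nat_lit 5) 
(.lf (nat_lit 134604) (.g (nat_lit 2522) (.e (nat_lit 16448) (nat_lit 10) (.e (nat_lit 434268) (nat_lit 36) (.e (nat_lit 639007) (nat_lit 13) (.e (nat_lit 1586) (nat_lit 111) (.e (nat_lit 360451) (nat_lit 0) (.e (nat_lit 5441) (nat_lit 306) (.e (nat_lit 1122) (nat_lit 83) .nil))))))) (.g (nat_lit 4) .nil .nil))) 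
(.lf (nat_lit 134636) (.g (nat_lit 2774) (.e (nat_lit 16448) (nat_lit 10) (.e (nat_lit 434268) (nat_lit 36) (.e (nat_lit 639020) (nat_lit 16) (.e (nat_lit 65617) (nat_lit 10) (.e (nat_lit 344091) (nat_lit 18) (.e (nat_lit 5470) (nat_lit 306) (.e (nat_lit 1122) (nat_lit 83) .nil))))))) (.g (nat_lit 4) .nil .nil)))) (.nd (nat_lit 5) 
(.lf (nat_lit 134620) (.g (nat_lit 2061) (.e (nat_lit 16448) (nat_lit 10) (.e (nat_lit 434268) (nat_lit 36) (.e (nat_lit 639020) (nat_lit 16) (.e (nat_lit 65611) (nat_lit 10) (.e (nat_lit 344166) (nat_lit 38) (.e (nat_lit 655395) (nat_lit 11) .nil)))))) (.g (nat_lit 4) .nil .nil))) 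
(.lf (nat_lit 134652) (.g (nat_lit 3184) (.e (nat_lit 16448) (nat_lit 10) (.e (nat_lit 434268) (nat_lit 36) (.e (nat_lit 639020) (nat_lit 16) (.e (nat_lit 65619) (nat_lit 10) (.e (nat_lit 344090) (nat_lit 18) (.e (nat_lit 5475) (nat_lit 306) (.e (nat_lit 1122) (nat_lit 83) .nil))))))) (.g (nat_lit 5) .nil .nil))))))) (.nd (nat_lit 2) (.nd (nat_lit 3) (.nd (nat_lit 4) (.nd (nat_lit 5) 
(.lf (nat_lit 134594) (.g (nat_lit 3656) (.e (nat_lit 16448) (nat_lit 10) (.e (nat_lit 434268) (nat_lit 36) (.e (nat_lit 639007) (nat_lit 13) (.e (nat_lit 1586) (nat_lit 111) (.e (nat_lit 360450) (nat_lit 0) (.e (nat_lit 5456) (nat_lit 306) (.e (nat_lit 1122) (nat_lit 83) .nil))))))) (.g (nat_lit 5) .nil .nil))) 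
(.lf (nat_lit 134626) (.g (nat_lit 3532) (.e (nat_lit 16448) (nat_lit 10) (.e (nat_lit 434268) (nat_lit 36) (.e (nat_lit 639020) (nat_lit 16) (.e (nat_lit 65617) (nat_lit 10) (.e (nat_lit 344091) (nat_lit 18) (.e (nat_lit 5439) (nat_lit 306) (.e (nat_lit 1130) (nat_lit 83) .nil))))))) (.g (nat_lit 5) .nil .nil)))) (.nd (nat_lit 5) 
(.lf (nat_lit 134610) (.g (nat_lit 2239) (.e (nat_lit 16448) (nat_lit 10) (.e (nat_lit 434268) (nat_lit 36) (.e (nat_lit 639007) (nat_lit 13) (.e (nat_lit 1598) (nat_lit 111) (.e (nat_lit 360449) (nat_lit 0) (.e (nat_lit 5455) (nat_lit 306) (.e (nat_lit 1123) (nat_lit 83) .nil))))))) (.g (nat_lit 4) .nil .nil))) 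
(.lf (nat_lit 134642) (.g (nat_lit 2359) (.e (nat_lit 16448) (nat_lit 10) (.e (nat_lit 434268) (nat_lit 36) (.e (nat_lit 639020) (nat_lit 16) (.e (nat_lit 65617) (nat_lit 10) (.e (nat_lit 344096) (nat_lit 18) (.e (nat_lit 5429) (nat_lit 306) (.e (nat_lit 1124) (nat_lit 83) .nil))))))) (.g (nat_lit 4) .nil .nil))))) (.nd (nat_lit 4) (.nd (nat_lit 5) 
(.lf (nat_lit 134602) (.g (nat_lit 2596) (.e (nat_lit 16448) (nat_lit 10) (.e (nat_lit 434268) (nat_lit 36) (.e (nat_lit 639007) (nat_lit 13) (.e (nat_lit 1586) (nat_lit 111) (.e (nat_lit 360451) (nat_lit 0) (.e (nat_lit 5440) (nat_lit 306) (.e (nat_lit 1122) (nat_lit 83) .nil))))))) (.g (nat_lit 4) .nil .nil))) 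
(.lf (nat_lit 134634) (.g (nat_lit 3320) (.e (nat_lit 16448) (nat_lit 10) (.e (nat_lit 434268) (nat_lit 36) (.e (nat_lit 639020) (nat_lit 16) (.e (nat_lit 65617) (nat_lit 10) (.e (nat_lit 344091) (nat_lit 18) (.e (nat_lit 5455) (nat_lit 306) (.e (nat_lit 1129) (nat_lit 83) .nil))))))) (.g (nat_lit 5) .nil .nil)))) (.nd (nat_lit 5) 
(.lf (nat_lit 134618) (.g (nat_lit 3229) (.e (nat_lit 16448) (nat_lit 10) (.e (nat_lit 434268) (nat_lit 36) (.e (nat_lit 639020) (nat_lit 16) (.e (nat_lit 65610) (nat_lit 10) (.e (nat_lit 344097) (nat_lit 18) (.e (nat_lit 5482) (nat_lit 306) (.e (nat_lit 1122) (nat_lit 83) .nil))))))) (.g (nat_lit 5) .nil .nil))) 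
(.lf (nat_lit 134650) (.g (nat_lit 2373) (.e (nat_lit 16448) (nat_lit 10) (.e (nat_lit 434268) (nat_lit 36) (.e (nat_lit 639020) (nat_lit 16) (.e (nat_lit 65619) (nat_lit 10) (.e (nat_lit 344090) (nat_lit 18) (.e (nat_lit 5441) (nat_lit 306) (.e (nat_lit 1122) (nat_lit 83) .nil))))))) (.g (nat_lit 4) .nil .nil)))))) (.nd (nat_lit 3) (.nd (nat_lit 4) (.nd (nat_lit 5) 
(.lf (nat_lit 134598) (.g (nat_lit 3299) (.e (nat_lit 16448) (nat_lit 10) (.e (nat_lit 434268) (nat_lit 36) (.e (nat_lit 639007) (nat_lit 13) (.e (nat_lit 1586) (nat_lit 111) (.e (nat_lit 360451) (nat_lit 0) (.e (nat_lit 5429) (nat_lit 306) (.e (nat_lit 1122) (nat_lit 83) .nil))))))) (.g (nat_lit 5) .nil .nil))) 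
(.lf (nat_lit 134630) (.g (nat_lit 3284) (.e (nat_lit 16448) (nat_lit 10) (.e (nat_lit 434268) (nat_lit 36) (.e (nat_lit 639020) (nat_lit 16) (.e (nat_lit 65617) (nat_lit 10) (.e (nat_lit 344091) (nat_lit 18) (.e (nat_lit 5442) (nat_lit 306) (.e (nat_lit 1124) (nat_lit 83) .nil))))))) (.g (nat_lit 5) .nil .nil)))) (.nd (nat_lit 5) 
(.lf (nat_lit 134614) (.g (nat_lit 3466) (.e (nat_lit 16448) (nat_lit 10) (.e (nat_lit 434268) (nat_lit 36) (.e (nat_lit 639020) (nat_lit 16) (.e (nat_lit 65610) (nat_lit 10) (.e (nat_lit 344097) (nat_lit 18) (.e (nat_lit 5463) (nat_lit 306) (.e (nat_lit 1122) (nat_lit 83) .nil))))))) (.g (nat_lit 5) .nil .nil))) 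
(.lf (nat_lit 134646) (.g (nat_lit 2632) (.e (nat_lit 16448) (nat_lit 10) (.e (nat_lit 434268) (nat_lit 36) (.e (nat_lit 639020) (nat_lit 16) (.e (nat_lit 65619) (nat_lit 10) (.e (nat_lit 344090) (nat_lit 18) (.e (nat_lit 5429) (nat_lit 306) (.e (nat_lit 1122) (nat_lit 83) .nil))))))) (.g (nat_lit 4) .nil .nil))))) (.nd (nat_lit 4) (.nd (nat_lit 5) 
(.lf (nat_lit 134606) (.g (nat_lit 2516) (.e (nat_lit 16448) (nat_lit 10) (.e (nat_lit 434268) (nat_lit 36) (.e (nat_lit 639007) (nat_lit 13) (.e (nat_lit 1586) (nat_lit 111) (.e (nat_lit 360451) (nat_lit 0) (.e (nat_lit 5469) (nat_lit 306) (.e (nat_lit 1122) (nat_lit 83) .nil))))))) (.g (nat_lit 4) .nil .nil))) 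
(.lf (nat_lit 134638) (.g (nat_lit 2651) (.e (nat_lit 16448) (nat_lit 10) (.e (nat_lit 434268) (nat_lit 36) (.e (nat_lit 639020) (nat_lit 16) (.e (nat_lit 65617) (nat_lit 10) (.e (nat_lit 344091) (nat_lit 18) (.e (nat_lit 5478) (nat_lit 306) (.e (nat_lit 1122) (nat_lit 83) .nil))))))) (.g (nat_lit 4) .nil .nil)))) (.nd (nat_lit 5) 
(.lf (nat_lit 134622) (.g (nat_lit 3447) (.e (nat_lit 16448) (nat_lit 10) (.e (nat_lit 434268) (nat_lit 36) (.e (nat_lit 639020) (nat_lit 16) (.e (nat_lit 65617) (nat_lit 10) (.e (nat_lit 344091) (nat_lit 18) (.e (nat_lit 5429) (nat_lit 306) (.e (nat_lit 1124) (nat_lit 83) .nil))))))) (.g (nat_lit 5) .nil .nil))) 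
(.lf (nat_lit 134654) (.g (nat_lit 3034) (.e (nat_lit 16448) (nat_lit 10) (.e (nat_lit 434268) (nat_lit 36) (.e (nat_lit 639020) (nat_lit 16) (.e (nat_lit 65619) (nat_lit 10) (.e (nat_lit 344097) (nat_lit 18) (.e (nat_lit 5480) (nat_lit 306) (.e (nat_lit 1122) (nat_lit 83) .nil))))))) (.g (nat_lit 5) .nil .nil)))))))) 
(.nd (nat_lit 1) (.nd (nat_lit 2) (.nd (nat_lit 3) (.nd (nat_lit 4) (.nd (nat_lit 5) 
(.lf (nat_lit 134593) (.g (nat_lit 2647) (.e (nat_lit 16448) (nat_lit 10) (.e (nat_lit 434268) (nat_lit 36) (.e (nat_lit 639007) (nat_lit 13) (.e (nat_lit 1586) (nat_lit 111) (.e (nat_lit 360450) (nat_lit 0) (.e (nat_lit 5455) (nat_lit 306) (.e (nat_lit 1130) (nat_lit 83) .nil))))))) (.g (nat_lit 4) .nil .nil))) 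
(.lf (nat_lit 134625) (.g (nat_lit 3013) (.e (nat_lit 16448) (nat_lit 10) (.e (nat_lit 434268) (nat_lit 36) (.e (nat_lit 639020) (nat_lit 16) (.e (nat_lit 65617) (nat_lit 10) (.e (nat_lit 344091) (nat_lit 18) (.e (nat_lit 5439) (nat_lit 306) (.e (nat_lit 1129) (nat_lit 83) .nil))))))) (.g (nat_lit 5) .nil .nil)))) (.nd (nat_lit 5) 
(.lf (nat_lit 134609) (.g (nat_lit 2755) (.e (nat_lit 16448) (nat_lit 10) (.e (nat_lit 434268) (nat_lit 36) (.e (nat_lit 639007) (nat_lit 13) (.e (nat_lit 1595) (nat_lit 111) (.e (nat_lit 360485) (nat_lit 16) (.e (nat_lit 655395) (nat_lit 11) .nil)))))) (.g (nat_lit 4) .nil .nil))) 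
(.lf (nat_lit 134641) (.g (nat_lit 2359) (.e (nat_lit 16448) (nat_lit 10) (.e (nat_lit 434268) (nat_lit 36) (.e (nat_lit 639020) (nat_lit 16) (.e (nat_lit 65617) (nat_lit 10) (.e (nat_lit 344096) (nat_lit 18) (.e (nat_lit 5429) (nat_lit 306) (.e (nat_lit 1123) (nat_lit 83) .nil))))))) (.g (nat_lit 4) .nil .nil))))) (.nd (nat_lit 4) (.nd (nat_lit 5) 
(.lf (nat_lit 134601) (.g (nat_lit 3304) (.e (nat_lit 16448) (nat_lit 10) (.e (nat_lit 434268) (nat_lit 36) (.e (nat_lit 639007) (nat_lit 13) (.e (nat_lit 1586) (nat_lit 111) (.e (nat_lit 360451) (nat_lit 0) (.e (nat_lit 5429) (nat_lit 306) (.e (nat_lit 1130) (nat_lit 83) .nil))))))) (.g (nat_lit 5) .nil .nil))) 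
(.lf (nat_lit 134633) (.g (nat_lit 3237) (.e (nat_lit 16448) (nat_lit 10) (.e (nat_lit 434268) (nat_lit 36) (.e (nat_lit 639020) (nat_lit 16) (.e (nat_lit 65617) (nat_lit 10) (.e (nat_lit 344091) (nat_lit 18) (.e (nat_lit 5455) (nat_lit 306) (.e (nat_lit 1124) (nat_lit 83) .nil))))))) (.g (nat_lit 5) .nil .nil)))) (.nd (nat_lit 5) 
(.lf (nat_lit 134617) (.g (nat_lit 3389) (.e (nat_lit 16448) (nat_lit 10) (.e (nat_lit 434268) (nat_lit 36) (.e (nat_lit 639020) (nat_lit 16) (.e (nat_lit 65610) (nat_lit 10) (.e (nat_lit 344097) (nat_lit 18) (.e (nat_lit 5480) (nat_lit 306) (.e (nat_lit 1122) (nat_lit 83) .nil))))))) (.g (nat_lit 5) .nil .nil))) 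
(.lf (nat_lit 134649) (.g (nat_lit 2459) (.e (nat_lit 16448) (nat_lit 10) (.e (nat_lit 434268) (nat_lit 36) (.e (nat_lit 639020) (nat_lit 16) (.e (nat_lit 65619) (nat_lit 10) (.e (nat_lit 344090) (nat_lit 18) (.e (nat_lit 5429) (nat_lit 306) (.e (nat_lit 1130) (nat_lit 83) .nil))))))) (.g (nat_lit 4) .nil .nil)))))) (.nd (nat_lit 3) (.nd (nat_lit 4) (.nd (nat_lit 5) 
(.lf (nat_lit 134597) (.g (nat_lit 2534) (.e (nat_lit 16448) (nat_lit 10) (.e (nat_lit 434268) (nat_lit 36) (.e (nat_lit 639007) (nat_lit 13) (.e (nat_lit 1586) (nat_lit 111) (.e (nat_lit 360450) (nat_lit 0) (.e (nat_lit 5484) (nat_lit 306) (.e (nat_lit 1122) (nat_lit 83) .nil))))))) (.g (nat_lit 4) .nil .nil))) 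
(.lf (nat_lit 134629) (.g (nat_lit 3144) (.e (nat_lit 16448) (nat_lit 10) (.e (nat_lit 434268) (nat_lit 36) (.e (nat_lit 639020) (nat_lit 16) (.e (nat_lit 65617) (nat_lit 10) (.e (nat_lit 344091) (nat_lit 18) (.e (nat_lit 5442) (nat_lit 306) (.e (nat_lit 1123) (nat_lit 83) .nil))))))) (.g (nat_lit 5) .nil .nil)))) (.nd (nat_lit 5) 
(.lf (nat_lit 134613) (.g (nat_lit 2501) (.e (nat_lit 16448) (nat_lit 10) (.e (nat_lit 434268) (nat_lit 36) (.e (nat_lit 639020) (nat_lit 16) (.e (nat_lit 65610) (nat_lit 10) (.e (nat_lit 344090) (nat_lit 18) (.e (nat_lit 5472) (nat_lit 306) (.e (nat_lit 1122) (nat_lit 83) .nil))))))) (.g (nat_lit 4) .nil .nil))) 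
(.lf (nat_lit 134645) (.g (nat_lit 2220) (.e (nat_lit 16448) (nat_lit 10) (.e (nat_lit 434268) (nat_lit 36) (.e (nat_lit 639020) (nat_lit 16) (.e (nat_lit 65617) (nat_lit 10) (.e (nat_lit 344166) (nat_lit 38) (.e (nat_lit 655395) (nat_lit 11) .nil)))))) (.g (nat_lit 4) .nil .nil))))) (.nd (nat_lit 4) (.nd (nat_lit 5) 
(.lf (nat_lit 134605) (.g (nat_lit 2426) (.e (nat_lit 16448) (nat_lit 10) (.e (nat_lit 434268) (nat_lit 36) (.e (nat_lit 639007) (nat_lit 13) (.e (nat_lit 1586) (nat_lit 111) (.e (nat_lit 360451) (nat_lit 0) (.e (nat_lit 5442) (nat_lit 306) (.e (nat_lit 1130) (nat_lit 83) .nil))))))) (.g (nat_lit 4) .nil .nil))) 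
(.lf (nat_lit 134637) (.g (nat_lit 3184) (.e (nat_lit 16448) (nat_lit 10) (.e (nat_lit 434268) (nat_lit 36) (.e (nat_lit 639020) (nat_lit 16) (.e (nat_lit 65617) (nat_lit 10) (.e (nat_lit 344091) (nat_lit 18) (.e (nat_lit 5475) (nat_lit 306) (.e (nat_lit 1122) (nat_lit 83) .nil))))))) (.g (nat_lit 5) .nil .nil)))) (.nd (nat_lit 5) 
(.lf (nat_lit 134621) (.g (nat_lit 3447) (.e (nat_lit 16448) (nat_lit 10) (.e (nat_lit 434268) (nat_lit 36) (.e (nat_lit 639020) (nat_lit 16) (.e (nat_lit 65617) (nat_lit 10) (.e (nat_lit 344091) (nat_lit 18) (.e (nat_lit 5429) (nat_lit 306) (.e (nat_lit 1123) (nat_lit 83) .nil))))))) (.g (nat_lit 5) .nil .nil))) 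
(.lf (nat_lit 134653) (.g (nat_lit 3111) (.e (nat_lit 16448) (nat_lit 10) (.e (nat_lit 434268) (nat_lit 36) (.e (nat_lit 639020) (nat_lit 16) (.e (nat_lit 65619) (nat_lit 10) (.e (nat_lit 344097) (nat_lit 18) (.e (nat_lit 5463) (nat_lit 306) (.e (nat_lit 1122) (nat_lit 83) .nil))))))) (.g (nat_lit 5) .nil .nil))))))) (.nd (nat_lit 2) (.nd (nat_lit 3) (.nd (nat_lit 4) (.nd (nat_lit 5) 
(.lf (nat_lit 134595) (.g (nat_lit 3612) (.e (nat_lit 16448) (nat_lit 10) (.e (nat_lit 434268) (nat_lit 36) (.e (nat_lit 639007) (nat_lit 13) (.e (nat_lit 1586) (nat_lit 111) (.e (nat_lit 360450) (nat_lit 0) (.e (nat_lit 5456) (nat_lit 306) (.e (nat_lit 1123) (nat_lit 83) .nil))))))) (.g (nat_lit 5) .nil .nil))) 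
(.lf (nat_lit 134627) (.g (nat_lit 3186) (.e (nat_lit 16448) (nat_lit 10) (.e (nat_lit 434268) (nat_lit 36) (.e (nat_lit 639020) (nat_lit 16) (.e (nat_lit 65617) (nat_lit 10) (.e (nat_lit 344091) (nat_lit 18) (.e (nat_lit 5440) (nat_lit 306) (.e (nat_lit 1129) (nat_lit 83) .nil))))))) (.g (nat_lit 5) .nil .nil)))) (.nd (nat_lit 5) 
(.lf (nat_lit 134611) (.g (nat_lit 2632) (.e (nat_lit 16448) (nat_lit 10) (.e (nat_lit 434268) (nat_lit 36) (.e (nat_lit 639007) (nat_lit 13) (.e (nat_lit 1598) (nat_lit 111) (.e (nat_lit 360449) (nat_lit 0) (.e (nat_lit 5455) (nat_lit 306) (.e (nat_lit 1130) (nat_lit 83) .nil))))))) (.g (nat_lit 4) .nil .nil))) 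
(.lf (nat_lit 134643) (.g (nat_lit 2476) (.e (nat_lit 16448) (nat_lit 10) (.e (nat_lit 434268) (nat_lit 36) (.e (nat_lit 639020) (nat_lit 16) (.e (nat_lit 65617) (nat_lit 10) (.e (nat_lit 344096) (nat_lit 18) (.e (nat_lit 5429) (nat_lit 306) (.e (nat_lit 1129) (nat_lit 83) .nil))))))) (.g (nat_lit 4) .nil .nil))))) (.nd (nat_lit 4) (.nd (nat_lit 5) 
(.lf (nat_lit 134603) (.g (nat_lit 2669) (.e (nat_lit 16448) (nat_lit 10) (.e (nat_lit 434268) (nat_lit 36) (.e (nat_lit 639007) (nat_lit 13) (.e (nat_lit 1586) (nat_lit 111) (.e (nat_lit 360451) (nat_lit 0) (.e (nat_lit 5440) (nat_lit 306) (.e (nat_lit 1130) (nat_lit 83) .nil))))))) (.g (nat_lit 4) .nil .nil))) 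
(.lf (nat_lit 134635) (.g (nat_lit 2796) (.e (nat_lit 16448) (nat_lit 10) (.e (nat_lit 434268) (nat_lit 36) (.e (nat_lit 639020) (nat_lit 16) (.e (nat_lit 65617) (nat_lit 10) (.e (nat_lit 344091) (nat_lit 18) (.e (nat_lit 5469) (nat_lit 306) (.e (nat_lit 1122) (nat_lit 83) .nil))))))) (.g (nat_lit 4) .nil .nil)))) (.nd (nat_lit 5) 
(.lf (nat_lit 134619) (.g (nat_lit 1934) (.e (nat_lit 16448) (nat_lit 10) (.e (nat_lit 434268) (nat_lit 36) (.e (nat_lit 639020) (nat_lit 16) (.e (nat_lit 65611) (nat_lit 10) (.e (nat_lit 344165) (nat_lit 38) (.e (nat_lit 655395) (nat_lit 11) .nil)))))) (.g (nat_lit 4) .nil .nil))) 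
(.lf (nat_lit 134651) (.g (nat_lit 3027) (.e (nat_lit 16448) (nat_lit 10) (.e (nat_lit 434268) (nat_lit 36) (.e (nat_lit 639020) (nat_lit 16) (.e (nat_lit 65619) (nat_lit 10) (.e (nat_lit 344090) (nat_lit 18) (.e (nat_lit 5472) (nat_lit 306) (.e (nat_lit 1122) (nat_lit 83) .nil))))))) (.g (nat_lit 5) .nil .nil)))))) (.nd (nat_lit 3) (.nd (nat_lit 4) (.nd (nat_lit 5) 
(.lf (nat_lit 134599) (.g (nat_lit 3064) (.e (nat_lit 16448) (nat_lit 10) (.e (nat_lit 434268) (nat_lit 36) (.e (nat_lit 639007) (nat_lit 13) (.e (nat_lit 1586) (nat_lit 111) (.e (nat_lit 360451) (nat_lit 0) (.e (nat_lit 5429) (nat_lit 306) (.e (nat_lit 1123) (nat_lit 83) .nil))))))) (.g (nat_lit 5) .nil .nil))) 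
(.lf (nat_lit 134631) (.g (nat_lit 3285) (.e (nat_lit 16448) (nat_lit 10) (.e (nat_lit 434268) (nat_lit 36) (.e (nat_lit 639020) (nat_lit 16) (.e (nat_lit 65617) (nat_lit 10) (.e (nat_lit 344091) (nat_lit 18) (.e (nat_lit 5442) (nat_lit 306) (.e (nat_lit 1129) (nat_lit 83) .nil))))))) (.g (nat_lit 5) .nil .nil)))) (.nd (nat_lit 5) 
(.lf (nat_lit 134615) (.g (nat_lit 3141) (.e (nat_lit 16448) (nat_lit 10) (.e (nat_lit 434268) (nat_lit 36) (.e (nat_lit 639020) (nat_lit 16) (.e (nat_lit 65610) (nat_lit 10) (.e (nat_lit 344097) (nat_lit 18) (.e (nat_lit 5473) (nat_lit 306) (.e (nat_lit 1122) (nat_lit 83) .nil))))))) (.g (nat_lit 5) .nil .nil))) 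
(.lf (nat_lit 134647) (.g (nat_lit 2239) (.e (nat_lit 16448) (nat_lit 10) (.e (nat_lit 434268) (nat_lit 36) (.e (nat_lit 639020) (nat_lit 16) (.e (nat_lit 65619) (nat_lit 10) (.e (nat_lit 344090) (nat_lit 18) (.e (nat_lit 5429) (nat_lit 306) (.e (nat_lit 1123) (nat_lit 83) .nil))))))) (.g (nat_lit 4) .nil .nil))))) (.nd (nat_lit 4) (.nd (nat_lit 5) 
(.lf (nat_lit 134607) (.g (nat_lit 2439) (.e (nat_lit 16448) (nat_lit 10) (.e (nat_lit 434268) (nat_lit 36) (.e (nat_lit 639007) (nat_lit 13) (.e (nat_lit 1589) (nat_lit 111) (.e (nat_lit 360457) (nat_lit 0) (.e (nat_lit 5481) (nat_lit 306) (.e (nat_lit 1122) (nat_lit 83) .nil))))))) (.g (nat_lit 4) .nil .nil))) 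
(.lf (nat_lit 134639) (.g (nat_lit 2724) (.e (nat_lit 16448) (nat_lit 10) (.e (nat_lit 434268) (nat_lit 36) (.e (nat_lit 639020) (nat_lit 16) (.e (nat_lit 65617) (nat_lit 10) (.e (nat_lit 344091) (nat_lit 18) (.e (nat_lit 5485) (nat_lit 306) (.e (nat_lit 1122) (nat_lit 83) .nil))))))) (.g (nat_lit 4) .nil .nil)))) (.nd (nat_lit 5) 
(.lf (nat_lit 134623) (.g (nat_lit 3461) (.e (nat_lit 16448) (nat_lit 10) (.e (nat_lit 434268) (nat_lit 36) (.e (nat_lit 639020) (nat_lit 16) (.e (nat_lit 65617) (nat_lit 10) (.e (nat_lit 344091) (nat_lit 18) (.e (nat_lit 5439) (nat_lit 306) (.e (nat_lit 1122) (nat_lit 83) .nil))))))) (.g (nat_lit 5) .nil .nil))) 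
(.lf (nat_lit 134655) (.g (nat_lit 1552) (.e (nat_lit 16448) (nat_lit 10) (.e (nat_lit 434268) (nat_lit 36) (.e (nat_lit 639020) (nat_lit 16) (.e (nat_lit 65624) (nat_lit 12) (.e (nat_lit 385043) (nat_lit 21) .nil))))) .nil))))))))

noncomputable def tv1797 : DT := (.nd (nat_lit 0) (.nd (nat_lit 1) (.nd (nat_lit 2) (.nd (nat_lit 3) (.nd (nat_lit 4) (.nd (nat_lit 5) (.nd (nat_lit 6) 
(.lf (nat_lit 134656) (.g (nat_lit 1849) (.e (nat_lit 16448) (nat_lit 10) (.e (nat_lit 434268) (nat_lit 36) (.e (nat_lit 639020) (nat_lit 16) (.e (nat_lit 65624) (nat_lit 12) (.e (nat_lit 385043) (nat_lit 21) (.e (nat_lit 7660) (nat_lit 410) (.e (nat_lit 1125) (nat_lit 83) .nil))))))) (.g (nat_lit 4) .nil .nil))) 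
(.lf (nat_lit 134720) (.g (nat_lit 1880) (.e (nat_lit 16455) (nat_lit 12) (.e (nat_lit 475199) (nat_lit 40) (.e (nat_lit 704595) (nat_lit 5) (.e (nat_lit 180284) (nat_lit 45) .nil)))) .nil))) (.nd (nat_lit 6) 
(.lf (nat_lit 134688) (.g (nat_lit 1163) (.e (nat_lit 16449) (nat_lit 10) (.e (nat_lit 434295) (nat_lit 49) (.e (nat_lit 745489) (nat_lit 4) (.e (nat_lit 65598) (nat_lit 9) (.e (nat_lit 336013) (nat_lit 2) (.e (nat_lit 98048) (nat_lit 2) .nil)))))) (.g (nat_lit 4) .nil .nil))) 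
(.lf (nat_lit 134752) (.g (nat_lit 1402) (.e (nat_lit 16456) (nat_lit 12) (.e (nat_lit 475207) (nat_lit 41) (.e (nat_lit 712755) (nat_lit 30) (.e (nat_lit 450563) (nat_lit 0) (.e (nat_lit 4803) (nat_lit 281) .nil))))) .nil)))) (.nd (nat_lit 5) (.nd (nat_lit 6) 
(.lf (nat_lit 134672) (.g (nat_lit 2110) (.e (nat_lit 16448) (nat_lit 10) (.e (nat_lit 434272) (nat_lit 38) (.e (nat_lit 655364) (nat_lit 0) (.e (nat_lit 3015) (nat_lit 187) (.e (nat_lit 450562) (nat_lit 0) .nil))))) .nil)) 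
(.lf (nat_lit 134736) (.g (nat_lit 2511) (.e (nat_lit 16456) (nat_lit 12) (.e (nat_lit 475179) (nat_lit 24) (.e (nat_lit 516119) (nat_lit 1) (.e (nat_lit 164325) (nat_lit 230) (.e (nat_lit 163939) (nat_lit 18) .nil))))) .nil))) (.nd (nat_lit 6) 
(.lf (nat_lit 134704) (.g (nat_lit 589) (.e (nat_lit 16454) (nat_lit 11) (.e (nat_lit 458774) (nat_lit 18) (.e (nat_lit 5212) (nat_lit 295) .nil))) .nil)) 
(.lf (nat_lit 134768) (.g (nat_lit 915) (.e (nat_lit 16458) (nat_lit 12) (.e (nat_lit 475137) (nat_lit 0) (.e (nat_lit 316) (nat_lit 23) (.e (nat_lit 352312) (nat_lit 22) (.e (nat_lit 98048) (nat_lit 2) .nil))))) (.g (nat_lit 4) .nil .nil)))))) (.nd (nat_lit 4) (.nd (nat_lit 5) (.nd (nat_lit 6) 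
(.lf (nat_lit 134664) (.g (nat_lit 2996) (.e (nat_lit 16448) (nat_lit 10) (.e (nat_lit 434268) (nat_lit 36) (.e (nat_lit 639020) (nat_lit 16) (.e (nat_lit 65624) (nat_lit 12) (.e (nat_lit 385045) (nat_lit 21) (.e (nat_lit 7682) (nat_lit 410) (.e (nat_lit 1122) (nat_lit 83) .nil))))))) (.g (nat_lit 4) .nil .nil))) 
(.lf (nat_lit 134728) (.g (nat_lit 2490) (.e (nat_lit 16455) (nat_lit 12) (.e (nat_lit 475211) (nat_lit 41) (.e (nat_lit 712755) (nat_lit 30) (.e (nat_lit 450562) (nat_lit 0) (.e (nat_lit 4756) (nat_lit 281) .nil))))) .nil))) (.nd (nat_lit 6) 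
(.lf (nat_lit 134696) (.g (nat_lit 1385) (.e (nat_lit 16452) (nat_lit 11) (.e (nat_lit 458774) (nat_lit 18) (.e (nat_lit 5212) (nat_lit 295) (.e (nat_lit 122919) (nat_lit 15) (.e (nat_lit 360484) (nat_lit 15) .nil))))) .nil)) 
(.lf (nat_lit 134760) (.g (nat_lit 2313) (.e (nat_lit 16457) (nat_lit 12) (.e (nat_lit 475179) (nat_lit 24) (.e (nat_lit 516117) (nat_lit 1) (.e (nat_lit 164305) (nat_lit 226) .nil)))) .nil)))) (.nd (nat_lit 5) (.nd (nat_lit 6) 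
(.lf (nat_lit 134680) (.g (nat_lit 1849) (.e (nat_lit 16449) (nat_lit 10) (.e (nat_lit 434241) (nat_lit 27) (.e (nat_lit 565267) (nat_lit 4) (.e (nat_lit 65623) (nat_lit 12) (.e (nat_lit 392960) (nat_lit 2) .nil))))) (.g (nat_lit 4) .nil .nil))) 
(.lf (nat_lit 134744) (.g (nat_lit 3141) (.e (nat_lit 16456) (nat_lit 12) (.e (nat_lit 475193) (nat_lit 38) (.e (nat_lit 688177) (nat_lit 16) (.e (nat_lit 65617) (nat_lit 10) (.e (nat_lit 344161) (nat_lit 37) (.e (nat_lit 647199) (nat_lit 11) .nil)))))) (.g (nat_lit 6) .nil .nil)))) (.nd (nat_lit 6) 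
(.lf (nat_lit 134712) (.g (nat_lit 3062) (.e (nat_lit 16455) (nat_lit 12) (.e (nat_lit 475185) (nat_lit 29) (.e (nat_lit 557100) (nat_lit 13) (.e (nat_lit 172106) (nat_lit 10) (.e (nat_lit 434244) (nat_lit 28) (.e (nat_lit 573471) (nat_lit 11) .nil)))))) (.g (nat_lit 0) .nil .nil))) 
(.lf (nat_lit 134776) (.g (nat_lit 2421) (.e (nat_lit 16458) (nat_lit 12) (.e (nat_lit 475177) (nat_lit 24) (.e (nat_lit 516117) (nat_lit 1) (.e (nat_lit 164330) (nat_lit 230) (.e (nat_lit 163938) (nat_lit 18) (.e (nat_lit 483072) (nat_lit 10) .nil)))))) (.g (nat_lit 4) .nil .nil))))))) (.nd (nat_lit 3) (.nd (nat_lit 4) (.nd (nat_lit 5) (.nd (nat_lit 6) 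
(.lf (nat_lit 134660) (.g (nat_lit 2056) (.e (nat_lit 16448) (nat_lit 10) (.e (nat_lit 434268) (nat_lit 36) (.e (nat_lit 639020) (nat_lit 16) (.e (nat_lit 65624) (nat_lit 12) (.e (nat_lit 385044) (nat_lit 21) (.e (nat_lit 7660) (nat_lit 410) (.e (nat_lit 1125) (nat_lit 83) .nil))))))) (.g (nat_lit 4) .nil .nil))) 
(.lf (nat_lit 134724) (.g (nat_lit 2218) (.e (nat_lit 16455) (nat_lit 12) (.e (nat_lit 475210) (nat_lit 41) (.e (nat_lit 712755) (nat_lit 30) (.e (nat_lit 450562) (nat_lit 0) (.e (nat_lit 4805) (nat_lit 281) .nil))))) .nil))) (.nd (nat_lit 6) 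
(.lf (nat_lit 134692) (.g (nat_lit 747) (.e (nat_lit 16451) (nat_lit 11) (.e (nat_lit 458789) (nat_lit 23) (.e (nat_lit 532482) (nat_lit 0) (.e (nat_lit 6722) (nat_lit 362) .nil)))) .nil)) 
(.lf (nat_lit 134756) (.g (nat_lit 753) (.e (nat_lit 16456) (nat_lit 12) (.e (nat_lit 475212) (nat_lit 42) (.e (nat_lit 728832) (nat_lit 1) .nil))) .nil)))) (.nd (nat_lit 5) (.nd (nat_lit 6) 
(.lf (nat_lit 134676) (.g (nat_lit 1566) (.e (nat_lit 16448) (nat_lit 10) (.e (nat_lit 434291) (nat_lit 44) (.e (nat_lit 704738) (nat_lit 11) (.e (nat_lit 16425) (nat_lit 7) (.e (nat_lit 417536) (nat_lit 3) .nil))))) .nil)) 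
(.lf (nat_lit 134740) (.g (nat_lit 1789) (.e (nat_lit 16456) (nat_lit 12) (.e (nat_lit 475185) (nat_lit 29) (.e (nat_lit 557109) (nat_lit 15) (.e (nat_lit 188446) (nat_lit 21) .nil)))) .nil))) (.nd (nat_lit 6) 
(.lf (nat_lit 134708) (.g (nat_lit 2256) (.e (nat_lit 16455) (nat_lit 12) (.e (nat_lit 475184) (nat_lit 29) (.e (nat_lit 557098) (nat_lit 13) (.e (nat_lit 172115) (nat_lit 10) (.e (nat_lit 434244) (nat_lit 28) (.e (nat_lit 573471) (nat_lit 11) .nil)))))) (.g (nat_lit 5) .nil .nil))) 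
(.lf (nat_lit 134772) (.g (nat_lit 531) (.e (nat_lit 16458) (nat_lit 12) (.e (nat_lit 475174) (nat_lit 23) (.e (nat_lit 507943) (nat_lit 17) (.e (nat_lit 294955) (nat_lit 12) (.e (nat_lit 392960) (nat_lit 2) .nil))))) (.g (nat_lit 4) .nil .nil)))))) (.nd (nat_lit 4) (.nd (nat_lit 5) (.nd (nat_lit 6) 
(.lf (nat_lit 134668) (.g (nat_lit 2393) (.e (nat_lit 16448) (nat_lit 10) (.e (nat_lit 434268) (nat_lit 36) (.e (nat_lit 639021) (nat_lit 16) (.e (nat_lit 65617) (nat_lit 10) (.e (nat_lit 344161) (nat_lit 37) (.e (nat_lit 647199) (nat_lit 11) .nil)))))) (.g (nat_lit 4) .nil .nil))) 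
(.lf (nat_lit 134732) (.g (nat_lit 2366) (.e (nat_lit 16456) (nat_lit 12) (.e (nat_lit 475177) (nat_lit 24) (.e (nat_lit 516115) (nat_lit 1) (.e (nat_lit 164399) (nat_lit 256) .nil)))) .nil))) (.nd (nat_lit 6) 
(.lf (nat_lit 134700) (.g (nat_lit 1571) (.e (nat_lit 16452) (nat_lit 11) (.e (nat_lit 458789) (nat_lit 23) (.e (nat_lit 532490) (nat_lit 0) (.e (nat_lit 7936) (nat_lit 362) .nil)))) .nil)) 
(.lf (nat_lit 134764) (.g (nat_lit 4305) (.e (nat_lit 16457) (nat_lit 12) (.e (nat_lit 475185) (nat_lit 29) (.e (nat_lit 557101) (nat_lit 13) (.e (nat_lit 172115) (nat_lit 10) (.e (nat_lit 434244) (nat_lit 28) (.e (nat_lit 573471) (nat_lit 11) .nil)))))) (.g (nat_lit 6) .nil .nil))))) (.nd (nat_lit 5) (.nd (nat_lit 6) 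
(.lf (nat_lit 134684) (.g (nat_lit 3727) (.e (nat_lit 16449) (nat_lit 10) (.e (nat_lit 434248) (nat_lit 28) (.e (nat_lit 573503) (nat_lit 18) (.e (nat_lit 1349) (nat_lit 102) (.e (nat_lit 286748) (nat_lit 9) (.e (nat_lit 336295) (nat_lit 15) (.e (nat_lit 7936) (nat_lit 404) .nil))))))) (.g (nat_lit 6) .nil .nil))) 
(.lf (nat_lit 134748) (.g (nat_lit 566) (.e (nat_lit 16456) (nat_lit 12) (.e (nat_lit 475199) (nat_lit 40) (.e (nat_lit 704595) (nat_lit 5) .nil))) .nil))) (.nd (nat_lit 6) 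
(.lf (nat_lit 134716) (.g (nat_lit 3023) (.e (nat_lit 16455) (nat_lit 12) (.e (nat_lit 475185) (nat_lit 29) (.e (nat_lit 557109) (nat_lit 15) (.e (nat_lit 188441) (nat_lit 20) (.e (nat_lit 3297) (nat_lit 202) .nil))))) .nil)) 
(.lf (nat_lit 134780) (.g (nat_lit 3900) (.e (nat_lit 16458) (nat_lit 12) (.e (nat_lit 475179) (nat_lit 24) (.e (nat_lit 516115) (nat_lit 1) (.e (nat_lit 164325) (nat_lit 230) (.e (nat_lit 163939) (nat_lit 18) (.e (nat_lit 483072) (nat_lit 10) .nil)))))) (.g (nat_lit 5) .nil .nil)))))))) (.nd (nat_lit 2) (.nd (nat_lit 3) (.nd (nat_lit 4) (.nd (nat_lit 5) (.nd (nat_lit 6) 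
(.lf (nat_lit 134658) (.g (nat_lit 2996) (.e (nat_lit 16448) (nat_lit 10) (.e (nat_lit 434268) (nat_lit 36) (.e (nat_lit 639020) (nat_lit 16) (.e (nat_lit 65624) (nat_lit 12) (.e (nat_lit 385043) (nat_lit 21) (.e (nat_lit 7665) (nat_lit 410) (.e (nat_lit 1126) (nat_lit 83) .nil))))))) (.g (nat_lit 4) .nil .nil))) 
(.lf (nat_lit 134722) (.g (nat_lit 1180) (.e (nat_lit 16455) (nat_lit 12) (.e (nat_lit 475210) (nat_lit 41) (.e (nat_lit 712755) (nat_lit 30) (.e (nat_lit 450562) (nat_lit 0) .nil)))) .nil))) (.nd (nat_lit 6) 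
(.lf (nat_lit 134690) (.g (nat_lit 1813) (.e (nat_lit 16450) (nat_lit 11) (.e (nat_lit 458814) (nat_lit 49) (.e (nat_lit 745491) (nat_lit 4) (.e (nat_lit 65598) (nat_lit 9) (.e (nat_lit 336013) (nat_lit 2) (.e (nat_lit 98048) (nat_lit 2) .nil)))))) (.g (nat_lit 5) .nil .nil))) 
(.lf (nat_lit 134754) (.g (nat_lit 2352) (.e (nat_lit 16456) (nat_lit 12) (.e (nat_lit 475211) (nat_lit 41) (.e (nat_lit 712755) (nat_lit 30) (.e (nat_lit 450563) (nat_lit 0) (.e (nat_lit 4754) (nat_lit 281) .nil))))) .nil)))) (.nd (nat_lit 5) (.nd (nat_lit 6) 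
(.lf (nat_lit 134674) (.g (nat_lit 1255) (.e (nat_lit 16448) (nat_lit 10) (.e (nat_lit 434275) (nat_lit 39) (.e (nat_lit 663574) (nat_lit 9) (.e (nat_lit 7936) (nat_lit 24) .nil)))) .nil)) 
(.lf (nat_lit 134738) (.g (nat_lit 2600) (.e (nat_lit 16456) (nat_lit 12) (.e (nat_lit 475183) (nat_lit 29) (.e (nat_lit 557100) (nat_lit 13) (.e (nat_lit 172106) (nat_lit 10) (.e (nat_lit 434244) (nat_lit 28) (.e (nat_lit 573469) (nat_lit 11) .nil)))))) (.g (nat_lit 5) .nil .nil)))) (.nd (nat_lit 6) 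
(.lf (nat_lit 134706) (.g (nat_lit 1236) (.e (nat_lit 16454) (nat_lit 11) (.e (nat_lit 466688) (nat_lit 19) (.e (nat_lit 499900) (nat_lit 7) (.e (nat_lit 24651) (nat_lit 12) (.e (nat_lit 392960) (nat_lit 2) .nil))))) (.g (nat_lit 4) .nil .nil))) 
(.lf (nat_lit 134770) (.g (nat_lit 1321) (.e (nat_lit 16458) (nat_lit 12) (.e (nat_lit 475139) (nat_lit 0) (.e (nat_lit 257) (nat_lit 21) (.e (nat_lit 336099) (nat_lit 9) (.e (nat_lit 336013) (nat_lit 2) (.e (nat_lit 98048) (nat_lit 2) .nil)))))) (.g (nat_lit 5) .nil .nil)))))) (.nd (nat_lit 4) (.nd (nat_lit 5) (.nd (nat_lit 6) 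
(.lf (nat_lit 134666) (.g (nat_lit 2590) (.e (nat_lit 16448) (nat_lit 10) (.e (nat_lit 434268) (nat_lit 36) (.e (nat_lit 639021) (nat_lit 16) (.e (nat_lit 65617) (nat_lit 10) (.e (nat_lit 344091) (nat_lit 18) (.e (nat_lit 5441) (nat_lit 306) (.e (nat_lit 1122) (nat_lit 83) .nil))))))) (.g (nat_lit 4) .nil .nil))) 
(.lf (nat_lit 134730) (.g (nat_lit 1236) (.e (nat_lit 16456) (nat_lit 12) (.e (nat_lit 475169) (nat_lit 22) (.e (nat_lit 507648) (nat_lit 22) (.e (nat_lit 131122) (nat_lit 12) (.e (nat_lit 392960) (nat_lit 2) .nil))))) (.g (nat_lit 4) .nil .nil)))) (.nd (nat_lit 6) 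
(.lf (nat_lit 134698) (.g (nat_lit 2169) (.e (nat_lit 16452) (nat_lit 11) (.e (nat_lit 458774) (nat_lit 18) (.e (nat_lit 6791) (nat_lit 365) (.e (nat_lit 1221) (nat_lit 90) (.e (nat_lit 81953) (nat_lit 22) (.e (nat_lit 98048) (nat_lit 2) .nil)))))) (.g (nat_lit 4) .nil .nil))) 
(.lf (nat_lit 134762) (.g (nat_lit 3590) (.e (nat_lit 16457) (nat_lit 12) (.e (nat_lit 475184) (nat_lit 29) (.e (nat_lit 557098) (nat_lit 13) (.e (nat_lit 172115) (nat_lit 10) (.e (nat_lit 434244) (nat_lit 28) (.e (nat_lit 573471) (nat_lit 11) .nil)))))) (.g (nat_lit 6) .nil .nil))))) (.nd (nat_lit 5) (.nd (nat_lit 6) 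
(.lf (nat_lit 134682) (.g (nat_lit 3222) (.e (nat_lit 16449) (nat_lit 10) (.e (nat_lit 434245) (nat_lit 28) (.e (nat_lit 573503) (nat_lit 18) (.e (nat_lit 1349) (nat_lit 102) (.e (nat_lit 286759) (nat_lit 12) (.e (nat_lit 392960) (nat_lit 2) .nil)))))) (.g (nat_lit 5) .nil .nil))) 
(.lf (nat_lit 134746) (.g (nat_lit 3046) (.e (nat_lit 16456) (nat_lit 12) (.e (nat_lit 475193) (nat_lit 38) (.e (nat_lit 688177) (nat_lit 16) (.e (nat_lit 65617) (nat_lit 10) (.e (nat_lit 344164) (nat_lit 37) (.e (nat_lit 647199) (nat_lit 11) .nil)))))) (.g (nat_lit 6) .nil .nil)))) (.nd (nat_lit 6) 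
(.lf (nat_lit 134714) (.g (nat_lit 2097) (.e (nat_lit 16455) (nat_lit 12) (.e (nat_lit 475185) (nat_lit 29) (.e (nat_lit 557109) (nat_lit 15) (.e (nat_lit 188424) (nat_lit 20) .nil)))) .nil)) 
(.lf (nat_lit 134778) (.g (nat_lit 2401) (.e (nat_lit 16458) (nat_lit 12) (.e (nat_lit 475177) (nat_lit 24) (.e (nat_lit 516120) (nat_lit 1) (.e (nat_lit 164330) (nat_lit 230) (.e (nat_lit 163936) (nat_lit 18) (.e (nat_lit 483072) (nat_lit 10) .nil)))))) (.g (nat_lit 4) .nil .nil))))))) (.nd (nat_lit 3) (.nd (nat_lit 4) (.nd (nat_lit 5) (.nd (nat_lit 6) 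
(.lf (nat_lit 134662) (.g (nat_lit 2740) (.e (nat_lit 16448) (nat_lit 10) (.e (nat_lit 434268) (nat_lit 36) (.e (nat_lit 639020) (nat_lit 16) (.e (nat_lit 65624) (nat_lit 12) (.e (nat_lit 385045) (nat_lit 21) (.e (nat_lit 7660) (nat_lit 410) (.e (nat_lit 1122) (nat_lit 83) .nil))))))) (.g (nat_lit 4) .nil .nil))) 
(.lf (nat_lit 134726) (.g (nat_lit 2397) (.e (nat_lit 16455) (nat_lit 12) (.e (nat_lit 475210) (nat_lit 41) (.e (nat_lit 712755) (nat_lit 30) (.e (nat_lit 450563) (nat_lit 0) (.e (nat_lit 4754) (nat_lit 281) (.e (nat_lit 1128) (nat_lit 83) .nil)))))) (.g (nat_lit 4) .nil .nil)))) (.nd (nat_lit 6) 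
(.lf (nat_lit 134694) (.g (nat_lit 1874) (.e (nat_lit 16451) (nat_lit 11) (.e (nat_lit 458814) (nat_lit 49) (.e (nat_lit 745491) (nat_lit 4) (.e (nat_lit 65598) (nat_lit 9) (.e (nat_lit 336013) (nat_lit 2) (.e (nat_lit 98048) (nat_lit 2) .nil)))))) (.g (nat_lit 5) .nil .nil))) 
(.lf (nat_lit 134758) (.g (nat_lit 1799) (.e (nat_lit 16457) (nat_lit 12) (.e (nat_lit 475139) (nat_lit 0) (.e (nat_lit 256) (nat_lit 21) (.e (nat_lit 336099) (nat_lit 9) (.e (nat_lit 336013) (nat_lit 2) (.e (nat_lit 98048) (nat_lit 2) .nil)))))) (.g (nat_lit 5) .nil .nil))))) (.nd (nat_lit 5) (.nd (nat_lit 6) 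
(.lf (nat_lit 134678) (.g (nat_lit 2795) (.e (nat_lit 16448) (nat_lit 10) (.e (nat_lit 434295) (nat_lit 49) (.e (nat_lit 745491) (nat_lit 4) (.e (nat_lit 65598) (nat_lit 9) (.e (nat_lit 336013) (nat_lit 2) (.e (nat_lit 98048) (nat_lit 2) .nil)))))) (.g (nat_lit 5) .nil .nil))) 
(.lf (nat_lit 134742) (.g (nat_lit 3062) (.e (nat_lit 16456) (nat_lit 12) (.e (nat_lit 475193) (nat_lit 38) (.e (nat_lit 688175) (nat_lit 16) (.e (nat_lit 65619) (nat_lit 10) (.e (nat_lit 344160) (nat_lit 37) (.e (nat_lit 647199) (nat_lit 11) .nil)))))) (.g (nat_lit 6) .nil .nil)))) (.nd (nat_lit 6) 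
(.lf (nat_lit 134710) (.g (nat_lit 3329) (.e (nat_lit 16455) (nat_lit 12) (.e (nat_lit 475185) (nat_lit 29) (.e (nat_lit 557098) (nat_lit 13) (.e (nat_lit 172115) (nat_lit 10) (.e (nat_lit 434244) (nat_lit 28) (.e (nat_lit 573471) (nat_lit 11) .nil)))))) (.g (nat_lit 5) .nil .nil))) 
(.lf (nat_lit 134774) (.g (nat_lit 3691) (.e (nat_lit 16458) (nat_lit 12) (.e (nat_lit 475177) (nat_lit 24) (.e (nat_lit 516115) (nat_lit 1) (.e (nat_lit 164325) (nat_lit 230) (.e (nat_lit 163939) (nat_lit 18) .nil))))) .nil))))) (.nd (nat_lit 4) (.nd (nat_lit 5) (.nd (nat_lit 6) 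
(.lf (nat_lit 134670) (.g (nat_lit 2267) (.e (nat_lit 16448) (nat_lit 10) (.e (nat_lit 434268) (nat_lit 36) (.e (nat_lit 639023) (nat_lit 18) (.e (nat_lit 81959) (nat_lit 24) (.e (nat_lit 123217) (nat_lit 278) (.e (nat_lit 1123) (nat_lit 83) .nil)))))) (.g (nat_lit 4) .nil .nil))) 
(.lf (nat_lit 134734) (.g (nat_lit 2358) (.e (nat_lit 16456) (nat_lit 12) (.e (nat_lit 475179) (nat_lit 24) (.e (nat_lit 516117) (nat_lit 1) (.e (nat_lit 164258) (nat_lit 215) .nil)))) .nil))) (.nd (nat_lit 6) 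
(.lf (nat_lit 134702) (.g (nat_lit 1391) (.e (nat_lit 16453) (nat_lit 11) (.e (nat_lit 458774) (nat_lit 18) (.e (nat_lit 5212) (nat_lit 295) (.e (nat_lit 122919) (nat_lit 15) (.e (nat_lit 360484) (nat_lit 15) .nil))))) .nil)) 
(.lf (nat_lit 134766) (.g (nat_lit 1690) (.e (nat_lit 16457) (nat_lit 12) (.e (nat_lit 475193) (nat_lit 38) (.e (nat_lit 688177) (nat_lit 16) (.e (nat_lit 65617) (nat_lit 10) (.e (nat_lit 344164) (nat_lit 37) .nil))))) .nil)))) (.nd (nat_lit 5) (.nd (nat_lit 6) 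
(.lf (nat_lit 134686) (.g (nat_lit 409) (.e (nat_lit 16449) (nat_lit 10) (.e (nat_lit 434276) (nat_lit 39) (.e (nat_lit 663573) (nat_lit 9) .nil))) .nil)) 
(.lf (nat_lit 134750) (.g (nat_lit 1749) (.e (nat_lit 16456) (nat_lit 12) (.e (nat_lit 475199) (nat_lit 40) (.e (nat_lit 704595) (nat_lit 5) (.e (nat_lit 180288) (nat_lit 45) .nil)))) .nil))) (.nd (nat_lit 6) 
(.lf (nat_lit 134718) (.g (nat_lit 1685) (.e (nat_lit 16455) (nat_lit 12) (.e (nat_lit 475198) (nat_lit 40) (.e (nat_lit 704595) (nat_lit 5) (.e (nat_lit 180284) (nat_lit 45) .nil)))) .nil)) 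
(.lf (nat_lit 134782) (.g (nat_lit 3729) (.e (nat_lit 16458) (nat_lit 12) (.e (nat_lit 475179) (nat_lit 24) (.e (nat_lit 516117) (nat_lit 1) (.e (nat_lit 164330) (nat_lit 230) (.e (nat_lit 163936) (nat_lit 18) .nil))))) .nil)))))))) (.nd (nat_lit 1) (.nd (nat_lit 2) (.nd (nat_lit 3) (.nd (nat_lit 4) (.nd (nat_lit 5) (.nd (nat_lit 6) 
(.lf (nat_lit 134657) (.g (nat_lit 2740) (.e (nat_lit 16448) (nat_lit 10) (.e (nat_lit 434268) (nat_lit 36) (.e (nat_lit 639020) (nat_lit 16) (.e (nat_lit 65624) (nat_lit 12) (.e (nat_lit 385043) (nat_lit 21) (.e (nat_lit 7660) (nat_lit 410) (.e (nat_lit 1126) (nat_lit 83) .nil))))))) (.g (nat_lit 4) .nil .nil))) 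
(.lf (nat_lit 134721) (.g (nat_lit 2100) (.e (nat_lit 16455) (nat_lit 12) (.e (nat_lit 475199) (nat_lit 40) (.e (nat_lit 704595) (nat_lit 5) (.e (nat_lit 180285) (nat_lit 45) (.e (nat_lit 2425) (nat_lit 157) .nil))))) .nil))) (.nd (nat_lit 6) 
(.lf (nat_lit 134689) (.g (nat_lit 2495) (.e (nat_lit 16449) (nat_lit 10) (.e (nat_lit 434295) (nat_lit 49) (.e (nat_lit 745491) (nat_lit 4) (.e (nat_lit 65598) (nat_lit 9) (.e (nat_lit 336013) (nat_lit 2) (.e (nat_lit 98048) (nat_lit 2) .nil)))))) (.g (nat_lit 5) .nil .nil))) 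
(.lf (nat_lit 134753) (.g (nat_lit 1551) (.e (nat_lit 16456) (nat_lit 12) (.e (nat_lit 475211) (nat_lit 41) (.e (nat_lit 712755) (nat_lit 30) (.e (nat_lit 450562) (nat_lit 0) .nil)))) .nil)))) (.nd (nat_lit 5) (.nd (nat_lit 6) 
(.lf (nat_lit 134673) (.g (nat_lit 615) (.e (nat_lit 16448) (nat_lit 10) (.e (nat_lit 434275) (nat_lit 39) (.e (nat_lit 663563) (nat_lit 2) .nil))) .nil)) 
(.lf (nat_lit 134737) (.g (nat_lit 911) (.e (nat_lit 16456) (nat_lit 12) (.e (nat_lit 475179) (nat_lit 24) (.e (nat_lit 516120) (nat_lit 1) .nil))) .nil))) (.nd (nat_lit 6) 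
(.lf (nat_lit 134705) (.g (nat_lit 1530) (.e (nat_lit 16454) (nat_lit 11) (.e (nat_lit 458774) (nat_lit 18) (.e (nat_lit 6792) (nat_lit 365) (.e (nat_lit 1221) (nat_lit 90) (.e (nat_lit 81962) (nat_lit 25) .nil))))) .nil)) 
(.lf (nat_lit 134769) (.g (nat_lit 1591) (.e (nat_lit 16458) (nat_lit 12) (.e (nat_lit 475139) (nat_lit 0) (.e (nat_lit 256) (nat_lit 21) (.e (nat_lit 336099) (nat_lit 9) (.e (nat_lit 336013) (nat_lit 2) (.e (nat_lit 98048) (nat_lit 2) .nil)))))) (.g (nat_lit 5) .nil .nil)))))) (.nd (nat_lit 4) (.nd (nat_lit 5) (.nd (nat_lit 6) 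
(.lf (nat_lit 134665) (.g (nat_lit 1576) (.e (nat_lit 16448) (nat_lit 10) (.e (nat_lit 434268) (nat_lit 36) (.e (nat_lit 639020) (nat_lit 16) (.e (nat_lit 65624) (nat_lit 12) (.e (nat_lit 385047) (nat_lit 21) .nil))))) .nil)) 
(.lf (nat_lit 134729) (.g (nat_lit 2418) (.e (nat_lit 16455) (nat_lit 12) (.e (nat_lit 475211) (nat_lit 41) (.e (nat_lit 712755) (nat_lit 30) (.e (nat_lit 450563) (nat_lit 0) (.e (nat_lit 4754) (nat_lit 281) .nil))))) .nil))) (.nd (nat_lit 6) 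
(.lf (nat_lit 134697) (.g (nat_lit 702) (.e (nat_lit 16452) (nat_lit 11) (.e (nat_lit 458774) (nat_lit 18) (.e (nat_lit 6791) (nat_lit 365) .nil))) .nil)) 
(.lf (nat_lit 134761) (.g (nat_lit 4194) (.e (nat_lit 16457) (nat_lit 12) (.e (nat_lit 475183) (nat_lit 29) (.e (nat_lit 557097) (nat_lit 13) (.e (nat_lit 172115) (nat_lit 10) (.e (nat_lit 434244) (nat_lit 28) (.e (nat_lit 573471) (nat_lit 11) .nil)))))) (.g (nat_lit 0) .nil .nil))))) (.nd (nat_lit 5) (.nd (nat_lit 6) 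
(.lf (nat_lit 134681) (.g (nat_lit 2995) (.e (nat_lit 16449) (nat_lit 10) (.e (nat_lit 434245) (nat_lit 28) (.e (nat_lit 573503) (nat_lit 18) (.e (nat_lit 1349) (nat_lit 102) (.e (nat_lit 286748) (nat_lit 9) (.e (nat_lit 336295) (nat_lit 15) (.e (nat_lit 7936) (nat_lit 404) .nil))))))) (.g (nat_lit 6) .nil .nil))) 
(.lf (nat_lit 134745) (.g (nat_lit 1876) (.e (nat_lit 16456) (nat_lit 12) (.e (nat_lit 475193) (nat_lit 38) (.e (nat_lit 688177) (nat_lit 16) (.e (nat_lit 65617) (nat_lit 10) (.e (nat_lit 344163) (nat_lit 37) (.e (nat_lit 647199) (nat_lit 11) .nil)))))) (.g (nat_lit 4) .nil .nil)))) (.nd (nat_lit 6) 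
(.lf (nat_lit 134713) (.g (nat_lit 1769) (.e (nat_lit 16455) (nat_lit 12) (.e (nat_lit 475185) (nat_lit 29) (.e (nat_lit 557107) (nat_lit 15) (.e (nat_lit 188440) (nat_lit 20) .nil)))) .nil)) 
(.lf (nat_lit 134777) (.g (nat_lit 2941) (.e (nat_lit 16458) (nat_lit 12) (.e (nat_lit 475177) (nat_lit 24) (.e (nat_lit 516118) (nat_lit 1) (.e (nat_lit 164332) (nat_lit 230) (.e (nat_lit 163938) (nat_lit 18) (.e (nat_lit 483072) (nat_lit 10) .nil)))))) (.g (nat_lit 5) .nil .nil))))))) (.nd (nat_lit 3) (.nd (nat_lit 4) (.nd (nat_lit 5) (.nd (nat_lit 6) 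
(.lf (nat_lit 134661) (.g (nat_lit 2947) (.e (nat_lit 16448) (nat_lit 10) (.e (nat_lit 434268) (nat_lit 36) (.e (nat_lit 639020) (nat_lit 16) (.e (nat_lit 65624) (nat_lit 12) (.e (nat_lit 385044) (nat_lit 21) (.e (nat_lit 7660) (nat_lit 410) (.e (nat_lit 1126) (nat_lit 83) .nil))))))) (.g (nat_lit 4) .nil .nil))) 
(.lf (nat_lit 134725) (.g (nat_lit 2104) (.e (nat_lit 16455) (nat_lit 12) (.e (nat_lit 475210) (nat_lit 41) (.e (nat_lit 712755) (nat_lit 30) (.e (nat_lit 450563) (nat_lit 0) (.e (nat_lit 4754) (nat_lit 281) .nil))))) .nil))) (.nd (nat_lit 6) 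
(.lf (nat_lit 134693) (.g (nat_lit 872) (.e (nat_lit 16451) (nat_lit 11) (.e (nat_lit 458789) (nat_lit 23) (.e (nat_lit 532490) (nat_lit 0) .nil))) .nil)) 
(.lf (nat_lit 134757) (.g (nat_lit 1662) (.e (nat_lit 16456) (nat_lit 12) (.e (nat_lit 475214) (nat_lit 42) (.e (nat_lit 728832) (nat_lit 5) (.e (nat_lit 221194) (nat_lit 11) (.e (nat_lit 335895) (nat_lit 0) (.e (nat_lit 6508) (nat_lit 345) .nil)))))) (.g (nat_lit 4) .nil .nil))))) (.nd (nat_lit 5) (.nd (nat_lit 6) 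
(.lf (nat_lit 134677) (.g (nat_lit 1734) (.e (nat_lit 16448) (nat_lit 10) (.e (nat_lit 434295) (nat_lit 49) (.e (nat_lit 745489) (nat_lit 4) (.e (nat_lit 65598) (nat_lit 9) (.e (nat_lit 336013) (nat_lit 2) (.e (nat_lit 98048) (nat_lit 2) .nil)))))) (.g (nat_lit 5) .nil .nil))) 
(.lf (nat_lit 134741) (.g (nat_lit 1892) (.e (nat_lit 16456) (nat_lit 12) (.e (nat_lit 475193) (nat_lit 38) (.e (nat_lit 688174) (nat_lit 16) (.e (nat_lit 65619) (nat_lit 10) (.e (nat_lit 344160) (nat_lit 37) (.e (nat_lit 647199) (nat_lit 11) .nil)))))) (.g (nat_lit 4) .nil .nil)))) (.nd (nat_lit 6) 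
(.lf (nat_lit 134709) (.g (nat_lit 2121) (.e (nat_lit 16455) (nat_lit 12) (.e (nat_lit 475184) (nat_lit 29) (.e (nat_lit 557101) (nat_lit 13) (.e (nat_lit 172115) (nat_lit 10) (.e (nat_lit 434244) (nat_lit 28) (.e (nat_lit 573471) (nat_lit 11) .nil)))))) (.g (nat_lit 5) .nil .nil))) 
(.lf (nat_lit 134773) (.g (nat_lit 432) (.e (nat_lit 16458) (nat_lit 12) (.e (nat_lit 475174) (nat_lit 23) (.e (nat_lit 515840) (nat_lit 17) (.e (nat_lit 294955) (nat_lit 12) (.e (nat_lit 392960) (nat_lit 2) .nil))))) (.g (nat_lit 4) .nil .nil)))))) (.nd (nat_lit 4) (.nd (nat_lit 5) (.nd (nat_lit 6) 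
(.lf (nat_lit 134669) (.g (nat_lit 2228) (.e (nat_lit 16448) (nat_lit 10) (.e (nat_lit 434268) (nat_lit 36) (.e (nat_lit 639023) (nat_lit 18) (.e (nat_lit 81959) (nat_lit 24) (.e (nat_lit 123217) (nat_lit 278) (.e (nat_lit 1122) (nat_lit 83) .nil)))))) (.g (nat_lit 4) .nil .nil))) 
(.lf (nat_lit 134733) (.g (nat_lit 875) (.e (nat_lit 16456) (nat_lit 12) (.e (nat_lit 475179) (nat_lit 24) (.e (nat_lit 516117) (nat_lit 1) .nil))) .nil))) (.nd (nat_lit 6) 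
(.lf (nat_lit 134701) (.g (nat_lit 1956) (.e (nat_lit 16452) (nat_lit 11) (.e (nat_lit 458814) (nat_lit 49) (.e (nat_lit 745491) (nat_lit 4) (.e (nat_lit 65598) (nat_lit 9) (.e (nat_lit 336013) (nat_lit 2) (.e (nat_lit 98048) (nat_lit 2) .nil)))))) (.g (nat_lit 5) .nil .nil))) 
(.lf (nat_lit 134765) (.g (nat_lit 1726) (.e (nat_lit 16457) (nat_lit 12) (.e (nat_lit 475193) (nat_lit 38) (.e (nat_lit 688177) (nat_lit 16) (.e (nat_lit 65617) (nat_lit 10) (.e (nat_lit 344161) (nat_lit 37) .nil))))) .nil)))) (.nd (nat_lit 5) (.nd (nat_lit 6) 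
(.lf (nat_lit 134685) (.g (nat_lit 3953) (.e (nat_lit 16449) (nat_lit 10) (.e (nat_lit 434248) (nat_lit 28) (.e (nat_lit 573503) (nat_lit 18) (.e (nat_lit 1349) (nat_lit 102) (.e (nat_lit 286759) (nat_lit 12) (.e (nat_lit 392960) (nat_lit 2) .nil)))))) (.g (nat_lit 5) .nil .nil))) 
(.lf (nat_lit 134749) (.g (nat_lit 1741) (.e (nat_lit 16456) (nat_lit 12) (.e (nat_lit 475199) (nat_lit 40) (.e (nat_lit 704595) (nat_lit 5) (.e (nat_lit 180282) (nat_lit 45) .nil)))) .nil))) (.nd (nat_lit 6) 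
(.lf (nat_lit 134717) (.g (nat_lit 2037) (.e (nat_lit 16455) (nat_lit 12) (.e (nat_lit 475185) (nat_lit 29) (.e (nat_lit 557109) (nat_lit 15) (.e (nat_lit 188446) (nat_lit 21) .nil)))) .nil)) 
(.lf (nat_lit 134781) (.g (nat_lit 2322) (.e (nat_lit 16458) (nat_lit 12) (.e (nat_lit 475179) (nat_lit 24) (.e (nat_lit 516117) (nat_lit 1) (.e (nat_lit 164305) (nat_lit 226) .nil)))) .nil))))))) (.nd (nat_lit 2) (.nd (nat_lit 3) (.nd (nat_lit 4) (.nd (nat_lit 5) (.nd (nat_lit 6) 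
(.lf (nat_lit 134659) (.g (nat_lit 1849) (.e (nat_lit 16448) (nat_lit 10) (.e (nat_lit 434268) (nat_lit 36) (.e (nat_lit 639020) (nat_lit 16) (.e (nat_lit 65624) (nat_lit 12) (.e (nat_lit 385044) (nat_lit 21) (.e (nat_lit 7660) (nat_lit 410) (.e (nat_lit 1122) (nat_lit 83) .nil))))))) (.g (nat_lit 4) .nil .nil))) 
(.lf (nat_lit 134723) (.g (nat_lit 2100) (.e (nat_lit 16455) (nat_lit 12) (.e (nat_lit 475210) (nat_lit 41) (.e (nat_lit 712755) (nat_lit 30) (.e (nat_lit 450562) (nat_lit 0) (.e (nat_lit 4756) (nat_lit 281) .nil))))) .nil))) (.nd (nat_lit 6) 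
(.lf (nat_lit 134691) (.g (nat_lit 698) (.e (nat_lit 16451) (nat_lit 11) (.e (nat_lit 458774) (nat_lit 18) (.e (nat_lit 5212) (nat_lit 295) .nil))) .nil)) 
(.lf (nat_lit 134755) (.g (nat_lit 2324) (.e (nat_lit 16456) (nat_lit 12) (.e (nat_lit 475211) (nat_lit 41) (.e (nat_lit 712755) (nat_lit 30) (.e (nat_lit 450563) (nat_lit 0) (.e (nat_lit 4803) (nat_lit 281) .nil))))) .nil)))) (.nd (nat_lit 5) (.nd (nat_lit 6) 
(.lf (nat_lit 134675) (.g (nat_lit 1509) (.e (nat_lit 16448) (nat_lit 10) (.e (nat_lit 434289) (nat_lit 43) (.e (nat_lit 696344) (nat_lit 8) (.e (nat_lit 172094) (nat_lit 9) .nil)))) .nil)) 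
(.lf (nat_lit 134739) (.g (nat_lit 4297) (.e (nat_lit 16456) (nat_lit 12) (.e (nat_lit 475185) (nat_lit 29) (.e (nat_lit 557101) (nat_lit 13) (.e (nat_lit 172115) (nat_lit 10) (.e (nat_lit 434244) (nat_lit 28) (.e (nat_lit 573471) (nat_lit 11) .nil)))))) (.g (nat_lit 0) .nil .nil)))) (.nd (nat_lit 6) 
(.lf (nat_lit 134707) (.g (nat_lit 3436) (.e (nat_lit 16455) (nat_lit 12) (.e (nat_lit 475179) (nat_lit 24) (.e (nat_lit 516115) (nat_lit 1) (.e (nat_lit 164325) (nat_lit 230) (.e (nat_lit 163939) (nat_lit 18) .nil))))) .nil)) 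
(.lf (nat_lit 134771) (.g (nat_lit 349) (.e (nat_lit 16458) (nat_lit 12) (.e (nat_lit 475169) (nat_lit 22) (.e (nat_lit 500015) (nat_lit 14) .nil))) .nil))))) (.nd (nat_lit 4) (.nd (nat_lit 5) (.nd (nat_lit 6) 
(.lf (nat_lit 134667) (.g (nat_lit 2108) (.e (nat_lit 16448) (nat_lit 10) (.e (nat_lit 434268) (nat_lit 36) (.e (nat_lit 639021) (nat_lit 16) (.e (nat_lit 65617) (nat_lit 10) (.e (nat_lit 344091) (nat_lit 18) (.e (nat_lit 5441) (nat_lit 306) (.e (nat_lit 1123) (nat_lit 83) .nil))))))) (.g (nat_lit 4) .nil .nil))) 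
(.lf (nat_lit 134731) (.g (nat_lit 2336) (.e (nat_lit 16456) (nat_lit 12) (.e (nat_lit 475177) (nat_lit 24) (.e (nat_lit 516115) (nat_lit 1) (.e (nat_lit 164258) (nat_lit 215) .nil)))) .nil))) (.nd (nat_lit 6) 
(.lf (nat_lit 134699) (.g (nat_lit 1608) (.e (nat_lit 16452) (nat_lit 11) (.e (nat_lit 458774) (nat_lit 18) (.e (nat_lit 6792) (nat_lit 365) (.e (nat_lit 1221) (nat_lit 90) (.e (nat_lit 81962) (nat_lit 25) .nil))))) .nil)) 
(.lf (nat_lit 134763) (.g (nat_lit 3404) (.e (nat_lit 16457) (nat_lit 12) (.e (nat_lit 475184) (nat_lit 29) (.e (nat_lit 557101) (nat_lit 13) (.e (nat_lit 172115) (nat_lit 10) (.e (nat_lit 434244) (nat_lit 28) (.e (nat_lit 573471) (nat_lit 11) .nil)))))) (.g (nat_lit 6) .nil .nil))))) (.nd (nat_lit 5) (.nd (nat_lit 6) 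
(.lf (nat_lit 134683) (.g (nat_lit 3294) (.e (nat_lit 16449) (nat_lit 10) (.e (nat_lit 434248) (nat_lit 28) (.e (nat_lit 573503) (nat_lit 18) (.e (nat_lit 1348) (nat_lit 102) (.e (nat_lit 286759) (nat_lit 12) (.e (nat_lit 392960) (nat_lit 2) .nil)))))) (.g (nat_lit 5) .nil .nil))) 
(.lf (nat_lit 134747) (.g (nat_lit 3157) (.e (nat_lit 16456) (nat_lit 12) (.e (nat_lit 475193) (nat_lit 38) (.e (nat_lit 688178) (nat_lit 16) (.e (nat_lit 65619) (nat_lit 10) (.e (nat_lit 344160) (nat_lit 37) (.e (nat_lit 647199) (nat_lit 11) .nil)))))) (.g (nat_lit 6) .nil .nil)))) (.nd (nat_lit 6) 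
(.lf (nat_lit 134715) (.g (nat_lit 2138) (.e (nat_lit 16455) (nat_lit 12) (.e (nat_lit 475185) (nat_lit 29) (.e (nat_lit 557109) (nat_lit 15) (.e (nat_lit 188441) (nat_lit 20) .nil)))) .nil)) 
(.lf (nat_lit 134779) (.g (nat_lit 2570) (.e (nat_lit 16458) (nat_lit 12) (.e (nat_lit 475177) (nat_lit 24) (.e (nat_lit 516120) (nat_lit 1) (.e (nat_lit 164330) (nat_lit 230) (.e (nat_lit 163938) (nat_lit 18) (.e (nat_lit 483072) (nat_lit 10) .nil)))))) (.g (nat_lit 4) .nil .nil))))))) (.nd (nat_lit 3) (.nd (nat_lit 4) (.nd (nat_lit 5) (.nd (nat_lit 6) 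
(.lf (nat_lit 134663) (.g (nat_lit 2947) (.e (nat_lit 16448) (nat_lit 10) (.e (nat_lit 434268) (nat_lit 36) (.e (nat_lit 639020) (nat_lit 16) (.e (nat_lit 65624) (nat_lit 12) (.e (nat_lit 385045) (nat_lit 21) (.e (nat_lit 7660) (nat_lit 410) (.e (nat_lit 1125) (nat_lit 83) .nil))))))) (.g (nat_lit 4) .nil .nil))) 
(.lf (nat_lit 134727) (.g (nat_lit 2103) (.e (nat_lit 16455) (nat_lit 12) (.e (nat_lit 475210) (nat_lit 41) (.e (nat_lit 712755) (nat_lit 30) (.e (nat_lit 450563) (nat_lit 0) (.e (nat_lit 4803) (nat_lit 281) .nil))))) .nil))) (.nd (nat_lit 6) 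
(.lf (nat_lit 134695) (.g (nat_lit 702) (.e (nat_lit 16452) (nat_lit 11) (.e (nat_lit 458774) (nat_lit 18) (.e (nat_lit 5211) (nat_lit 295) .nil))) .nil)) 
(.lf (nat_lit 134759) (.g (nat_lit 1554) (.e (nat_lit 16457) (nat_lit 12) (.e (nat_lit 475139) (nat_lit 0) (.e (nat_lit 257) (nat_lit 21) (.e (nat_lit 336099) (nat_lit 9) (.e (nat_lit 336013) (nat_lit 2) (.e (nat_lit 98048) (nat_lit 2) .nil)))))) (.g (nat_lit 5) .nil .nil))))) (.nd (nat_lit 5) (.nd (nat_lit 6) 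
(.lf (nat_lit 134679) (.g (nat_lit 1594) (.e (nat_lit 16448) (nat_lit 10) (.e (nat_lit 434295) (nat_lit 49) (.e (nat_lit 745493) (nat_lit 6) (.e (nat_lit 81953) (nat_lit 22) (.e (nat_lit 98048) (nat_lit 2) .nil))))) .nil)) 
(.lf (nat_lit 134743) (.g (nat_lit 3348) (.e (nat_lit 16456) (nat_lit 12) (.e (nat_lit 475193) (nat_lit 38) (.e (nat_lit 688177) (nat_lit 16) (.e (nat_lit 65610) (nat_lit 10) (.e (nat_lit 344160) (nat_lit 37) (.e (nat_lit 647199) (nat_lit 11) .nil)))))) (.g (nat_lit 6) .nil .nil)))) (.nd (nat_lit 6) 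
(.lf (nat_lit 134711) (.g (nat_lit 2277) (.e (nat_lit 16455) (nat_lit 12) (.e (nat_lit 475185) (nat_lit 29) (.e (nat_lit 557100) (nat_lit 13) (.e (nat_lit 172105) (nat_lit 10) .nil)))) .nil)) 
(.lf (nat_lit 134775) (.g (nat_lit 2180) (.e (nat_lit 16458) (nat_lit 12) (.e (nat_lit 475177) (nat_lit 24) (.e (nat_lit 516117) (nat_lit 1) (.e (nat_lit 164330) (nat_lit 230) (.e (nat_lit 163936) (nat_lit 18) (.e (nat_lit 483072) (nat_lit 10) .nil)))))) (.g (nat_lit 4) .nil .nil)))))) (.nd (nat_lit 4) (.nd (nat_lit 5) (.nd (nat_lit 6) 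
(.lf (nat_lit 134671) (.g (nat_lit 2335) (.e (nat_lit 16448) (nat_lit 10) (.e (nat_lit 434268) (nat_lit 36) (.e (nat_lit 639023) (nat_lit 18) (.e (nat_lit 81959) (nat_lit 24) (.e (nat_lit 123217) (nat_lit 278) (.e (nat_lit 1129) (nat_lit 83) .nil)))))) (.g (nat_lit 4) .nil .nil))) 
(.lf (nat_lit 134735) (.g (nat_lit 2313) (.e (nat_lit 16456) (nat_lit 12) (.e (nat_lit 475179) (nat_lit 24) (.e (nat_lit 516117) (nat_lit 1) (.e (nat_lit 164305) (nat_lit 226) .nil)))) .nil))) (.nd (nat_lit 6) 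
(.lf (nat_lit 134703) (.g (nat_lit 1765) (.e (nat_lit 16454) (nat_lit 11) (.e (nat_lit 458771) (nat_lit 18) (.e (nat_lit 6793) (nat_lit 365) (.e (nat_lit 1221) (nat_lit 90) (.e (nat_lit 81953) (nat_lit 22) (.e (nat_lit 98048) (nat_lit 2) .nil)))))) (.g (nat_lit 5) .nil .nil))) 
(.lf (nat_lit 134767) (.g (nat_lit 1774) (.e (nat_lit 16458) (nat_lit 12) (.e (nat_lit 475137) (nat_lit 0) (.e (nat_lit 256) (nat_lit 21) (.e (nat_lit 336099) (nat_lit 9) (.e (nat_lit 336013) (nat_lit 2) (.e (nat_lit 98048) (nat_lit 2) .nil)))))) (.g (nat_lit 5) .nil .nil))))) (.nd (nat_lit 5) (.nd (nat_lit 6) 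
(.lf (nat_lit 134687) (.g (nat_lit 427) (.e (nat_lit 16449) (nat_lit 10) (.e (nat_lit 434291) (nat_lit 44) (.e (nat_lit 704738) (nat_lit 11) .nil))) .nil)) 
(.lf (nat_lit 134751) (.g (nat_lit 571) (.e (nat_lit 16456) (nat_lit 12) (.e (nat_lit 475199) (nat_lit 40) (.e (nat_lit 704596) (nat_lit 5) .nil))) .nil))) (.nd (nat_lit 6) 
(.lf (nat_lit 134719) (.g (nat_lit 1927) (.e (nat_lit 16455) (nat_lit 12) (.e (nat_lit 475198) (nat_lit 40) (.e (nat_lit 704595) (nat_lit 5) (.e (nat_lit 180285) (nat_lit 45) (.e (nat_lit 2425) (nat_lit 157) .nil))))) .nil)) 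
(.lf (nat_lit 134783) (.g (nat_lit 3970) (.e (nat_lit 16458) (nat_lit 12) (.e (nat_lit 475179) (nat_lit 24) (.e (nat_lit 516117) (nat_lit 1) (.e (nat_lit 164330) (nat_lit 230) (.e (nat_lit 163938) (nat_lit 18) .nil))))) .nil)))))))))

noncomputable def tv1798 : DT := (.nd (nat_lit 0) (.nd (nat_lit 1) (.nd (nat_lit 2) (.nd (nat_lit 3) (.nd (nat_lit 4) (.nd (nat_lit 5) (.nd (nat_lit 6) 
(.lf (nat_lit 134784) (.g (nat_lit 2784) (.e (nat_lit 16458) (nat_lit 12) (.e (nat_lit 475179) (nat_lit 24) (.e (nat_lit 516117) (nat_lit 1) (.e (nat_lit 164332) (nat_lit 230) (.e (nat_lit 163938) (nat_lit 18) .nil))))) .nil)) 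
(.lf (nat_lit 134848) (.g (nat_lit 2111) (.e (nat_lit 16459) (nat_lit 12) (.e (nat_lit 475207) (nat_lit 41) (.e (nat_lit 712755) (nat_lit 30) (.e (nat_lit 450563) (nat_lit 0) (.e (nat_lit 4803) (nat_lit 281) (.e (nat_lit 1126) (nat_lit 83) .nil)))))) (.g (nat_lit 4) .nil .nil)))) (.nd (nat_lit 6) 
(.lf (nat_lit 134816) (.g (nat_lit 327) (.e (nat_lit 16459) (nat_lit 12) (.e (nat_lit 475169) (nat_lit 22) (.e (nat_lit 507648) (nat_lit 20) .nil))) .nil)) 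
(.lf (nat_lit 134880) (.g (nat_lit 2209) (.e (nat_lit 16461) (nat_lit 12) (.e (nat_lit 475179) (nat_lit 24) (.e (nat_lit 516115) (nat_lit 1) (.e (nat_lit 164399) (nat_lit 256) .nil)))) .nil)))) (.nd (nat_lit 5) (.nd (nat_lit 6) 
(.lf (nat_lit 134800) (.g (nat_lit 2374) (.e (nat_lit 16458) (nat_lit 12) (.e (nat_lit 475184) (nat_lit 29) (.e (nat_lit 557109) (nat_lit 15) (.e (nat_lit 188424) (nat_lit 20) .nil)))) .nil)) 
(.lf (nat_lit 134864) (.g (nat_lit 4305) (.e (nat_lit 16460) (nat_lit 12) (.e (nat_lit 475185) (nat_lit 29) (.e (nat_lit 557100) (nat_lit 13) (.e (nat_lit 172113) (nat_lit 10) (.e (nat_lit 434245) (nat_lit 28) (.e (nat_lit 573471) (nat_lit 11) .nil)))))) (.g (nat_lit 6) .nil .nil)))) (.nd (nat_lit 6) 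
(.lf (nat_lit 134832) (.g (nat_lit 1444) (.e (nat_lit 16459) (nat_lit 12) (.e (nat_lit 475185) (nat_lit 29) (.e (nat_lit 557109) (nat_lit 15) (.e (nat_lit 188434) (nat_lit 20) .nil)))) .nil)) 
(.lf (nat_lit 134896) (.g (nat_lit 1210) (.e (nat_lit 16461) (nat_lit 12) (.e (nat_lit 475184) (nat_lit 29) (.e (nat_lit 557109) (nat_lit 15) (.e (nat_lit 188425) (nat_lit 20) .nil)))) .nil))))) (.nd (nat_lit 4) (.nd (nat_lit 5) (.nd (nat_lit 6) 
(.lf (nat_lit 134792) (.g (nat_lit 3827) (.e (nat_lit 16458) (nat_lit 12) (.e (nat_lit 475183) (nat_lit 29) (.e (nat_lit 557097) (nat_lit 13) (.e (nat_lit 172115) (nat_lit 10) (.e (nat_lit 434244) (nat_lit 28) (.e (nat_lit 573469) (nat_lit 11) .nil)))))) (.g (nat_lit 6) .nil .nil))) 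
(.lf (nat_lit 134856) (.g (nat_lit 2342) (.e (nat_lit 16459) (nat_lit 12) (.e (nat_lit 475211) (nat_lit 41) (.e (nat_lit 712755) (nat_lit 30) (.e (nat_lit 450563) (nat_lit 0) (.e (nat_lit 4803) (nat_lit 281) .nil))))) .nil))) (.nd (nat_lit 6) 
(.lf (nat_lit 134824) (.g (nat_lit 1986) (.e (nat_lit 16459) (nat_lit 12) (.e (nat_lit 475183) (nat_lit 29) (.e (nat_lit 557101) (nat_lit 13) (.e (nat_lit 172115) (nat_lit 10) (.e (nat_lit 434244) (nat_lit 28) (.e (nat_lit 573469) (nat_lit 11) .nil)))))) (.g (nat_lit 4) .nil .nil))) 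
(.lf (nat_lit 134888) (.g (nat_lit 2318) (.e (nat_lit 16461) (nat_lit 12) (.e (nat_lit 475179) (nat_lit 24) (.e (nat_lit 516119) (nat_lit 1) (.e (nat_lit 164403) (nat_lit 256) .nil)))) .nil)))) (.nd (nat_lit 5) (.nd (nat_lit 6) 
(.lf (nat_lit 134808) (.g (nat_lit 2879) (.e (nat_lit 16458) (nat_lit 12) (.e (nat_lit 475193) (nat_lit 38) (.e (nat_lit 688177) (nat_lit 16) (.e (nat_lit 65617) (nat_lit 10) (.e (nat_lit 344161) (nat_lit 37) (.e (nat_lit 647199) (nat_lit 11) .nil)))))) (.g (nat_lit 0) .nil .nil))) 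
(.lf (nat_lit 134872) (.g (nat_lit 2407) (.e (nat_lit 16461) (nat_lit 12) (.e (nat_lit 475177) (nat_lit 24) (.e (nat_lit 516115) (nat_lit 1) (.e (nat_lit 164398) (nat_lit 256) .nil)))) .nil))) (.nd (nat_lit 6) 
(.lf (nat_lit 134840) (.g (nat_lit 3141) (.e (nat_lit 16459) (nat_lit 12) (.e (nat_lit 475193) (nat_lit 38) (.e (nat_lit 688178) (nat_lit 16) (.e (nat_lit 65619) (nat_lit 10) (.e (nat_lit 344160) (nat_lit 37) (.e (nat_lit 647199) (nat_lit 11) .nil)))))) (.g (nat_lit 6) .nil .nil))) 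
(.lf (nat_lit 134904) (.g (nat_lit 2613) (.e (nat_lit 16461) (nat_lit 12) (.e (nat_lit 475184) (nat_lit 29) (.e (nat_lit 557109) (nat_lit 15) (.e (nat_lit 188455) (nat_lit 24) (.e (nat_lit 229522) (nat_lit 128) .nil))))) .nil)))))) (.nd (nat_lit 3) (.nd (nat_lit 4) (.nd (nat_lit 5) (.nd (nat_lit 6) 
(.lf (nat_lit 134788) (.g (nat_lit 2235) (.e (nat_lit 16458) (nat_lit 12) (.e (nat_lit 475179) (nat_lit 24) (.e (nat_lit 516120) (nat_lit 1) (.e (nat_lit 164332) (nat_lit 230) (.e (nat_lit 163936) (nat_lit 18) .nil))))) .nil)) 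
(.lf (nat_lit 134852) (.g (nat_lit 1512) (.e (nat_lit 16459) (nat_lit 12) (.e (nat_lit 475211) (nat_lit 41) (.e (nat_lit 712755) (nat_lit 30) (.e (nat_lit 450562) (nat_lit 0) .nil)))) .nil))) (.nd (nat_lit 6) 
(.lf (nat_lit 134820) (.g (nat_lit 4516) (.e (nat_lit 16459) (nat_lit 12) (.e (nat_lit 475183) (nat_lit 29) (.e (nat_lit 557097) (nat_lit 13) (.e (nat_lit 172115) (nat_lit 10) (.e (nat_lit 434244) (nat_lit 28) (.e (nat_lit 573471) (nat_lit 11) .nil)))))) (.g (nat_lit 0) .nil .nil))) 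
(.lf (nat_lit 134884) (.g (nat_lit 2404) (.e (nat_lit 16461) (nat_lit 12) (.e (nat_lit 475179) (nat_lit 24) (.e (nat_lit 516117) (nat_lit 1) (.e (nat_lit 164398) (nat_lit 256) .nil)))) .nil)))) (.nd (nat_lit 5) (.nd (nat_lit 6) 
(.lf (nat_lit 134804) (.g (nat_lit 3237) (.e (nat_lit 16458) (nat_lit 12) (.e (nat_lit 475184) (nat_lit 29) (.e (nat_lit 557109) (nat_lit 15) (.e (nat_lit 188441) (nat_lit 20) (.e (nat_lit 3308) (nat_lit 202) .nil))))) .nil)) 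
(.lf (nat_lit 134868) (.g (nat_lit 3819) (.e (nat_lit 16460) (nat_lit 12) (.e (nat_lit 475185) (nat_lit 29) (.e (nat_lit 557101) (nat_lit 13) (.e (nat_lit 172115) (nat_lit 10) (.e (nat_lit 434244) (nat_lit 28) (.e (nat_lit 573471) (nat_lit 11) .nil)))))) (.g (nat_lit 6) .nil .nil)))) (.nd (nat_lit 6) 
(.lf (nat_lit 134836) (.g (nat_lit 3348) (.e (nat_lit 16459) (nat_lit 12) (.e (nat_lit 475193) (nat_lit 38) (.e (nat_lit 688177) (nat_lit 16) (.e (nat_lit 65610) (nat_lit 10) (.e (nat_lit 344160) (nat_lit 37) (.e (nat_lit 647199) (nat_lit 11) .nil)))))) (.g (nat_lit 6) .nil .nil))) 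
(.lf (nat_lit 134900) (.g (nat_lit 3063) (.e (nat_lit 16461) (nat_lit 12) (.e (nat_lit 475184) (nat_lit 29) (.e (nat_lit 557109) (nat_lit 15) (.e (nat_lit 188434) (nat_lit 20) (.e (nat_lit 3304) (nat_lit 202) .nil))))) .nil))))) (.nd (nat_lit 4) (.nd (nat_lit 5) (.nd (nat_lit 6) 
(.lf (nat_lit 134796) (.g (nat_lit 3553) (.e (nat_lit 16458) (nat_lit 12) (.e (nat_lit 475183) (nat_lit 29) (.e (nat_lit 557100) (nat_lit 13) (.e (nat_lit 172106) (nat_lit 10) (.e (nat_lit 434244) (nat_lit 28) (.e (nat_lit 573470) (nat_lit 11) .nil)))))) (.g (nat_lit 0) .nil .nil))) 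
(.lf (nat_lit 134860) (.g (nat_lit 1969) (.e (nat_lit 16460) (nat_lit 12) (.e (nat_lit 475184) (nat_lit 29) (.e (nat_lit 557100) (nat_lit 13) (.e (nat_lit 172113) (nat_lit 10) .nil)))) .nil))) (.nd (nat_lit 6) 
(.lf (nat_lit 134828) (.g (nat_lit 4044) (.e (nat_lit 16459) (nat_lit 12) (.e (nat_lit 475185) (nat_lit 29) (.e (nat_lit 557098) (nat_lit 13) (.e (nat_lit 172115) (nat_lit 10) (.e (nat_lit 434244) (nat_lit 28) (.e (nat_lit 573471) (nat_lit 11) .nil)))))) (.g (nat_lit 5) .nil .nil))) 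
(.lf (nat_lit 134892) (.g (nat_lit 2976) (.e (nat_lit 16461) (nat_lit 12) (.e (nat_lit 475184) (nat_lit 29) (.e (nat_lit 557098) (nat_lit 13) (.e (nat_lit 172115) (nat_lit 10) (.e (nat_lit 434244) (nat_lit 28) (.e (nat_lit 573470) (nat_lit 11) .nil)))))) (.g (nat_lit 6) .nil .nil))))) (.nd (nat_lit 5) (.nd (nat_lit 6) 
(.lf (nat_lit 134812) (.g (nat_lit 1689) (.e (nat_lit 16458) (nat_lit 12) (.e (nat_lit 475207) (nat_lit 41) (.e (nat_lit 712755) (nat_lit 30) (.e (nat_lit 450562) (nat_lit 0) (.e (nat_lit 4756) (nat_lit 281) (.e (nat_lit 1125) (nat_lit 83) .nil)))))) (.g (nat_lit 4) .nil .nil))) 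
(.lf (nat_lit 134876) (.g (nat_lit 3440) (.e (nat_lit 16461) (nat_lit 12) (.e (nat_lit 475177) (nat_lit 24) (.e (nat_lit 516115) (nat_lit 1) (.e (nat_lit 164399) (nat_lit 256) (.e (nat_lit 57383) (nat_lit 4) (.e (nat_lit 106555) (nat_lit 15) (.e (nat_lit 57895) (nat_lit 272) .nil))))))) (.g (nat_lit 4) .nil .nil)))) (.nd (nat_lit 6) 
(.lf (nat_lit 134844) (.g (nat_lit 1608) (.e (nat_lit 16459) (nat_lit 12) (.e (nat_lit 475199) (nat_lit 40) (.e (nat_lit 704595) (nat_lit 5) (.e (nat_lit 180285) (nat_lit 45) (.e (nat_lit 2422) (nat_lit 157) .nil))))) .nil)) 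
(.lf (nat_lit 134908) (.g (nat_lit 2077) (.e (nat_lit 16461) (nat_lit 12) (.e (nat_lit 475185) (nat_lit 29) (.e (nat_lit 557107) (nat_lit 15) (.e (nat_lit 188440) (nat_lit 20) (.e (nat_lit 3295) (nat_lit 202) .nil))))) .nil))))))) (.nd (nat_lit 2) (.nd (nat_lit 3) (.nd (nat_lit 4) (.nd (nat_lit 5) (.nd (nat_lit 6) 
(.lf (nat_lit 134786) (.g (nat_lit 2521) (.e (nat_lit 16458) (nat_lit 12) (.e (nat_lit 475179) (nat_lit 24) (.e (nat_lit 516119) (nat_lit 1) (.e (nat_lit 164325) (nat_lit 230) (.e (nat_lit 163939) (nat_lit 18) .nil))))) .nil)) 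
(.lf (nat_lit 134850) (.g (nat_lit 502) (.e (nat_lit 16459) (nat_lit 12) (.e (nat_lit 475211) (nat_lit 41) (.e (nat_lit 712749) (nat_lit 28) .nil))) .nil))) (.nd (nat_lit 6) 
(.lf (nat_lit 134818) (.g (nat_lit 2557) (.e (nat_lit 16459) (nat_lit 12) (.e (nat_lit 475179) (nat_lit 24) (.e (nat_lit 516119) (nat_lit 1) (.e (nat_lit 164325) (nat_lit 230) (.e (nat_lit 163939) (nat_lit 18) (.e (nat_lit 483072) (nat_lit 10) .nil)))))) (.g (nat_lit 4) .nil .nil))) 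
(.lf (nat_lit 134882) (.g (nat_lit 836) (.e (nat_lit 16461) (nat_lit 12) (.e (nat_lit 475179) (nat_lit 24) (.e (nat_lit 516117) (nat_lit 1) .nil))) .nil)))) (.nd (nat_lit 5) (.nd (nat_lit 6) 
(.lf (nat_lit 134802) (.g (nat_lit 3367) (.e (nat_lit 16458) (nat_lit 12) (.e (nat_lit 475184) (nat_lit 29) (.e (nat_lit 557109) (nat_lit 15) (.e (nat_lit 188434) (nat_lit 20) (.e (nat_lit 3297) (nat_lit 202) .nil))))) .nil)) 
(.lf (nat_lit 134866) (.g (nat_lit 4298) (.e (nat_lit 16460) (nat_lit 12) (.e (nat_lit 475185) (nat_lit 29) (.e (nat_lit 557100) (nat_lit 13) (.e (nat_lit 172113) (nat_lit 10) (.e (nat_lit 434248) (nat_lit 28) (.e (nat_lit 573469) (nat_lit 11) .nil)))))) (.g (nat_lit 0) .nil .nil)))) (.nd (nat_lit 6) 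
(.lf (nat_lit 134834) (.g (nat_lit 1953) (.e (nat_lit 16459) (nat_lit 12) (.e (nat_lit 475185) (nat_lit 29) (.e (nat_lit 557109) (nat_lit 15) (.e (nat_lit 188455) (nat_lit 24) .nil)))) .nil)) 
(.lf (nat_lit 134898) (.g (nat_lit 1289) (.e (nat_lit 16461) (nat_lit 12) (.e (nat_lit 475184) (nat_lit 29) (.e (nat_lit 557109) (nat_lit 15) (.e (nat_lit 188434) (nat_lit 20) .nil)))) .nil))))) (.nd (nat_lit 4) (.nd (nat_lit 5) (.nd (nat_lit 6) 
(.lf (nat_lit 134794) (.g (nat_lit 4257) (.e (nat_lit 16458) (nat_lit 12) (.e (nat_lit 475183) (nat_lit 29) (.e (nat_lit 557098) (nat_lit 13) (.e (nat_lit 172115) (nat_lit 10) (.e (nat_lit 434244) (nat_lit 28) (.e (nat_lit 573471) (nat_lit 11) .nil)))))) (.g (nat_lit 0) .nil .nil))) 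
(.lf (nat_lit 134858) (.g (nat_lit 1144) (.e (nat_lit 16459) (nat_lit 12) (.e (nat_lit 475214) (nat_lit 42) (.e (nat_lit 720955) (nat_lit 25) .nil))) .nil))) (.nd (nat_lit 6) 
(.lf (nat_lit 134826) (.g (nat_lit 1941) (.e (nat_lit 16459) (nat_lit 12) (.e (nat_lit 475184) (nat_lit 29) (.e (nat_lit 557100) (nat_lit 13) (.e (nat_lit 172106) (nat_lit 10) (.e (nat_lit 434244) (nat_lit 28) .nil))))) .nil)) 
(.lf (nat_lit 134890) (.g (nat_lit 825) (.e (nat_lit 16461) (nat_lit 12) (.e (nat_lit 475179) (nat_lit 24) (.e (nat_lit 516120) (nat_lit 1) .nil))) .nil)))) (.nd (nat_lit 5) (.nd (nat_lit 6) 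
(.lf (nat_lit 134810) (.g (nat_lit 2793) (.e (nat_lit 16458) (nat_lit 12) (.e (nat_lit 475193) (nat_lit 38) (.e (nat_lit 688177) (nat_lit 16) (.e (nat_lit 65617) (nat_lit 10) (.e (nat_lit 344164) (nat_lit 37) (.e (nat_lit 647199) (nat_lit 11) .nil)))))) (.g (nat_lit 6) .nil .nil))) 
(.lf (nat_lit 134874) (.g (nat_lit 3161) (.e (nat_lit 16461) (nat_lit 12) (.e (nat_lit 475177) (nat_lit 24) (.e (nat_lit 516115) (nat_lit 1) (.e (nat_lit 164399) (nat_lit 256) (.e (nat_lit 57381) (nat_lit 4) .nil))))) .nil))) (.nd (nat_lit 6) 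
(.lf (nat_lit 134842) (.g (nat_lit 506) (.e (nat_lit 16459) (nat_lit 12) (.e (nat_lit 475199) (nat_lit 40) (.e (nat_lit 704595) (nat_lit 5) .nil))) .nil)) 
(.lf (nat_lit 134906) (.g (nat_lit 2459) (.e (nat_lit 16461) (nat_lit 12) (.e (nat_lit 475185) (nat_lit 29) (.e (nat_lit 557100) (nat_lit 13) (.e (nat_lit 172106) (nat_lit 10) (.e (nat_lit 434244) (nat_lit 28) .nil))))) .nil)))))) (.nd (nat_lit 3) (.nd (nat_lit 4) (.nd (nat_lit 5) (.nd (nat_lit 6) 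
(.lf (nat_lit 134790) (.g (nat_lit 569) (.e (nat_lit 16458) (nat_lit 12) (.e (nat_lit 475181) (nat_lit 27) (.e (nat_lit 540701) (nat_lit 11) (.e (nat_lit 352256) (nat_lit 0) (.e (nat_lit 7936) (nat_lit 404) .nil))))) (.g (nat_lit 4) .nil .nil))) 
(.lf (nat_lit 134854) (.g (nat_lit 2563) (.e (nat_lit 16459) (nat_lit 12) (.e (nat_lit 475211) (nat_lit 41) (.e (nat_lit 712755) (nat_lit 30) (.e (nat_lit 450562) (nat_lit 0) (.e (nat_lit 4805) (nat_lit 281) .nil))))) .nil))) (.nd (nat_lit 6) 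
(.lf (nat_lit 134822) (.g (nat_lit 4529) (.e (nat_lit 16459) (nat_lit 12) (.e (nat_lit 475183) (nat_lit 29) (.e (nat_lit 557098) (nat_lit 13) (.e (nat_lit 172115) (nat_lit 10) (.e (nat_lit 434244) (nat_lit 28) (.e (nat_lit 573471) (nat_lit 11) .nil)))))) (.g (nat_lit 0) .nil .nil))) 
(.lf (nat_lit 134886) (.g (nat_lit 834) (.e (nat_lit 16461) (nat_lit 12) (.e (nat_lit 475179) (nat_lit 24) (.e (nat_lit 516119) (nat_lit 1) .nil))) .nil)))) (.nd (nat_lit 5) (.nd (nat_lit 6) 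
(.lf (nat_lit 134806) (.g (nat_lit 1925) (.e (nat_lit 16458) (nat_lit 12) (.e (nat_lit 475185) (nat_lit 29) (.e (nat_lit 557101) (nat_lit 13) (.e (nat_lit 172115) (nat_lit 10) (.e (nat_lit 434244) (nat_lit 28) (.e (nat_lit 573470) (nat_lit 11) .nil)))))) (.g (nat_lit 4) .nil .nil))) 
(.lf (nat_lit 134870) (.g (nat_lit 1693) (.e (nat_lit 16460) (nat_lit 12) (.e (nat_lit 475193) (nat_lit 38) (.e (nat_lit 688177) (nat_lit 16) (.e (nat_lit 65617) (nat_lit 10) (.e (nat_lit 344164) (nat_lit 37) .nil))))) .nil))) (.nd (nat_lit 6) 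
(.lf (nat_lit 134838) (.g (nat_lit 1892) (.e (nat_lit 16459) (nat_lit 12) (.e (nat_lit 475193) (nat_lit 38) (.e (nat_lit 688177) (nat_lit 16) (.e (nat_lit 65617) (nat_lit 10) (.e (nat_lit 344163) (nat_lit 37) (.e (nat_lit 647199) (nat_lit 11) .nil)))))) (.g (nat_lit 4) .nil .nil))) 
(.lf (nat_lit 134902) (.g (nat_lit 3031) (.e (nat_lit 16461) (nat_lit 12) (.e (nat_lit 475184) (nat_lit 29) (.e (nat_lit 557109) (nat_lit 15) (.e (nat_lit 188441) (nat_lit 20) (.e (nat_lit 3308) (nat_lit 202) .nil))))) .nil))))) (.nd (nat_lit 4) (.nd (nat_lit 5) (.nd (nat_lit 6) 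
(.lf (nat_lit 134798) (.g (nat_lit 3732) (.e (nat_lit 16458) (nat_lit 12) (.e (nat_lit 475184) (nat_lit 29) (.e (nat_lit 557098) (nat_lit 13) (.e (nat_lit 172115) (nat_lit 10) (.e (nat_lit 434244) (nat_lit 28) (.e (nat_lit 573471) (nat_lit 11) .nil)))))) (.g (nat_lit 0) .nil .nil))) 
(.lf (nat_lit 134862) (.g (nat_lit 4090) (.e (nat_lit 16460) (nat_lit 12) (.e (nat_lit 475185) (nat_lit 29) (.e (nat_lit 557100) (nat_lit 13) (.e (nat_lit 172113) (nat_lit 10) (.e (nat_lit 434245) (nat_lit 28) (.e (nat_lit 573469) (nat_lit 11) .nil)))))) (.g (nat_lit 0) .nil .nil)))) (.nd (nat_lit 6) 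
(.lf (nat_lit 134830) (.g (nat_lit 1627) (.e (nat_lit 16459) (nat_lit 12) (.e (nat_lit 475185) (nat_lit 29) (.e (nat_lit 557107) (nat_lit 15) (.e (nat_lit 188440) (nat_lit 20) .nil)))) .nil)) 
(.lf (nat_lit 134894) (.g (nat_lit 1874) (.e (nat_lit 16461) (nat_lit 12) (.e (nat_lit 475184) (nat_lit 29) (.e (nat_lit 557107) (nat_lit 15) (.e (nat_lit 188440) (nat_lit 20) (.e (nat_lit 3295) (nat_lit 202) .nil))))) .nil)))) (.nd (nat_lit 5) (.nd (nat_lit 6) 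
(.lf (nat_lit 134814) (.g (nat_lit 1636) (.e (nat_lit 16458) (nat_lit 12) (.e (nat_lit 475207) (nat_lit 41) (.e (nat_lit 712755) (nat_lit 30) (.e (nat_lit 450562) (nat_lit 0) (.e (nat_lit 4805) (nat_lit 281) (.e (nat_lit 1126) (nat_lit 83) .nil)))))) (.g (nat_lit 4) .nil .nil))) 
(.lf (nat_lit 134878) (.g (nat_lit 3360) (.e (nat_lit 16461) (nat_lit 12) (.e (nat_lit 475177) (nat_lit 24) (.e (nat_lit 516115) (nat_lit 1) (.e (nat_lit 164399) (nat_lit 256) (.e (nat_lit 57385) (nat_lit 4) (.e (nat_lit 114432) (nat_lit 15) (.e (nat_lit 57895) (nat_lit 272) .nil))))))) (.g (nat_lit 4) .nil .nil)))) (.nd (nat_lit 6) 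
(.lf (nat_lit 134846) (.g (nat_lit 1436) (.e (nat_lit 16459) (nat_lit 12) (.e (nat_lit 475199) (nat_lit 40) (.e (nat_lit 704595) (nat_lit 5) (.e (nat_lit 188160) (nat_lit 45) .nil)))) .nil)) 
(.lf (nat_lit 134910) (.g (nat_lit 3029) (.e (nat_lit 16461) (nat_lit 12) (.e (nat_lit 475193) (nat_lit 38) (.e (nat_lit 688177) (nat_lit 16) (.e (nat_lit 65610) (nat_lit 10) (.e (nat_lit 344160) (nat_lit 37) (.e (nat_lit 647199) (nat_lit 11) .nil)))))) (.g (nat_lit 0) .nil .nil))))))))) (.nd (nat_lit 1) (.nd (nat_lit 2) (.nd (nat_lit 3) (.nd (nat_lit 4) (.nd (nat_lit 5) (.nd (nat_lit 6) 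
(.lf (nat_lit 134785) (.g (nat_lit 2551) (.e (nat_lit 16458) (nat_lit 12) (.e (nat_lit 475179) (nat_lit 24) (.e (nat_lit 516119) (nat_lit 1) (.e (nat_lit 164325) (nat_lit 230) (.e (nat_lit 163938) (nat_lit 18) .nil))))) .nil)) 
(.lf (nat_lit 134849) (.g (nat_lit 1883) (.e (nat_lit 16459) (nat_lit 12) (.e (nat_lit 475211) (nat_lit 41) (.e (nat_lit 712739) (nat_lit 27) (.e (nat_lit 426173) (nat_lit 7) (.e (nat_lit 409616) (nat_lit 10) (.e (nat_lit 7936) (nat_lit 300) .nil)))))) (.g (nat_lit 5) .nil .nil)))) (.nd (nat_lit 6) 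
(.lf (nat_lit 134817) (.g (nat_lit 2381) (.e (nat_lit 16459) (nat_lit 12) (.e (nat_lit 475179) (nat_lit 24) (.e (nat_lit 516117) (nat_lit 1) (.e (nat_lit 164305) (nat_lit 226) (.e (nat_lit 2630) (nat_lit 164) .nil))))) .nil)) 
(.lf (nat_lit 134881) (.g (nat_lit 3092) (.e (nat_lit 16461) (nat_lit 12) (.e (nat_lit 475179) (nat_lit 24) (.e (nat_lit 516115) (nat_lit 1) (.e (nat_lit 164399) (nat_lit 256) (.e (nat_lit 57386) (nat_lit 4) .nil))))) .nil)))) (.nd (nat_lit 5) (.nd (nat_lit 6) 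
(.lf (nat_lit 134801) (.g (nat_lit 3058) (.e (nat_lit 16458) (nat_lit 12) (.e (nat_lit 475184) (nat_lit 29) (.e (nat_lit 557109) (nat_lit 15) (.e (nat_lit 188424) (nat_lit 20) (.e (nat_lit 3308) (nat_lit 202) .nil))))) .nil)) 
(.lf (nat_lit 134865) (.g (nat_lit 4194) (.e (nat_lit 16460) (nat_lit 12) (.e (nat_lit 475185) (nat_lit 29) (.e (nat_lit 557100) (nat_lit 13) (.e (nat_lit 172113) (nat_lit 10) (.e (nat_lit 434247) (nat_lit 28) (.e (nat_lit 573469) (nat_lit 11) .nil)))))) (.g (nat_lit 0) .nil .nil)))) (.nd (nat_lit 6) 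
(.lf (nat_lit 134833) (.g (nat_lit 2358) (.e (nat_lit 16459) (nat_lit 12) (.e (nat_lit 475185) (nat_lit 29) (.e (nat_lit 557109) (nat_lit 15) (.e (nat_lit 188454) (nat_lit 24) .nil)))) .nil)) 
(.lf (nat_lit 134897) (.g (nat_lit 2222) (.e (nat_lit 16461) (nat_lit 12) (.e (nat_lit 475184) (nat_lit 29) (.e (nat_lit 557109) (nat_lit 15) (.e (nat_lit 188426) (nat_lit 20) (.e (nat_lit 7936) (nat_lit 202) .nil))))) .nil))))) (.nd (nat_lit 4) (.nd (nat_lit 5) (.nd (nat_lit 6) 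
(.lf (nat_lit 134793) (.g (nat_lit 4399) (.e (nat_lit 16458) (nat_lit 12) (.e (nat_lit 475183) (nat_lit 29) (.e (nat_lit 557097) (nat_lit 13) (.e (nat_lit 172115) (nat_lit 10) (.e (nat_lit 434244) (nat_lit 28) (.e (nat_lit 573471) (nat_lit 11) .nil)))))) (.g (nat_lit 0) .nil .nil))) 
(.lf (nat_lit 134857) (.g (nat_lit 862) (.e (nat_lit 16459) (nat_lit 12) (.e (nat_lit 475214) (nat_lit 42) (.e (nat_lit 728832) (nat_lit 1) .nil))) .nil))) (.nd (nat_lit 6) 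
(.lf (nat_lit 134825) (.g (nat_lit 4436) (.e (nat_lit 16459) (nat_lit 12) (.e (nat_lit 475183) (nat_lit 29) (.e (nat_lit 557101) (nat_lit 13) (.e (nat_lit 172115) (nat_lit 10) (.e (nat_lit 434244) (nat_lit 28) (.e (nat_lit 573471) (nat_lit 11) .nil)))))) (.g (nat_lit 0) .nil .nil))) 
(.lf (nat_lit 134889) (.g (nat_lit 3194) (.e (nat_lit 16461) (nat_lit 12) (.e (nat_lit 475179) (nat_lit 24) (.e (nat_lit 516119) (nat_lit 1) (.e (nat_lit 164403) (nat_lit 256) (.e (nat_lit 57382) (nat_lit 4) .nil))))) .nil)))) (.nd (nat_lit 5) (.nd (nat_lit 6) 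
(.lf (nat_lit 134809) (.g (nat_lit 1789) (.e (nat_lit 16458) (nat_lit 12) (.e (nat_lit 475193) (nat_lit 38) (.e (nat_lit 688177) (nat_lit 16) (.e (nat_lit 65617) (nat_lit 10) (.e (nat_lit 344163) (nat_lit 37) .nil))))) .nil)) 
(.lf (nat_lit 134873) (.g (nat_lit 2434) (.e (nat_lit 16461) (nat_lit 12) (.e (nat_lit 475177) (nat_lit 24) (.e (nat_lit 516115) (nat_lit 1) (.e (nat_lit 164399) (nat_lit 256) .nil)))) .nil))) (.nd (nat_lit 6) 
(.lf (nat_lit 134841) (.g (nat_lit 1550) (.e (nat_lit 16459) (nat_lit 12) (.e (nat_lit 475198) (nat_lit 40) (.e (nat_lit 704595) (nat_lit 5) (.e (nat_lit 180285) (nat_lit 45) .nil)))) .nil)) 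
(.lf (nat_lit 134905) (.g (nat_lit 1823) (.e (nat_lit 16461) (nat_lit 12) (.e (nat_lit 475185) (nat_lit 29) (.e (nat_lit 557098) (nat_lit 13) (.e (nat_lit 172115) (nat_lit 10) (.e (nat_lit 434244) (nat_lit 28) .nil))))) .nil)))))) (.nd (nat_lit 3) (.nd (nat_lit 4) (.nd (nat_lit 5) (.nd (nat_lit 6) 
(.lf (nat_lit 134789) (.g (nat_lit 3061) (.e (nat_lit 16458) (nat_lit 12) (.e (nat_lit 475179) (nat_lit 24) (.e (nat_lit 516120) (nat_lit 1) (.e (nat_lit 164332) (nat_lit 230) (.e (nat_lit 163938) (nat_lit 18) (.e (nat_lit 483072) (nat_lit 10) .nil)))))) (.g (nat_lit 5) .nil .nil))) 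
(.lf (nat_lit 134853) (.g (nat_lit 2451) (.e (nat_lit 16459) (nat_lit 12) (.e (nat_lit 475211) (nat_lit 41) (.e (nat_lit 712755) (nat_lit 30) (.e (nat_lit 450562) (nat_lit 0) (.e (nat_lit 4756) (nat_lit 281) .nil))))) .nil))) (.nd (nat_lit 6) 
(.lf (nat_lit 134821) (.g (nat_lit 2095) (.e (nat_lit 16459) (nat_lit 12) (.e (nat_lit 475183) (nat_lit 29) (.e (nat_lit 557098) (nat_lit 13) (.e (nat_lit 172115) (nat_lit 10) (.e (nat_lit 434244) (nat_lit 28) (.e (nat_lit 573469) (nat_lit 11) .nil)))))) (.g (nat_lit 4) .nil .nil))) 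
(.lf (nat_lit 134885) (.g (nat_lit 2404) (.e (nat_lit 16461) (nat_lit 12) (.e (nat_lit 475179) (nat_lit 24) (.e (nat_lit 516117) (nat_lit 1) (.e (nat_lit 164399) (nat_lit 256) .nil)))) .nil)))) (.nd (nat_lit 5) (.nd (nat_lit 6) 
(.lf (nat_lit 134805) (.g (nat_lit 2223) (.e (nat_lit 16458) (nat_lit 12) (.e (nat_lit 475185) (nat_lit 29) (.e (nat_lit 557100) (nat_lit 13) (.e (nat_lit 172106) (nat_lit 10) (.e (nat_lit 434244) (nat_lit 28) (.e (nat_lit 573469) (nat_lit 11) .nil)))))) (.g (nat_lit 4) .nil .nil))) 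
(.lf (nat_lit 134869) (.g (nat_lit 1729) (.e (nat_lit 16460) (nat_lit 12) (.e (nat_lit 475193) (nat_lit 38) (.e (nat_lit 688177) (nat_lit 16) (.e (nat_lit 65617) (nat_lit 10) (.e (nat_lit 344161) (nat_lit 37) .nil))))) .nil))) (.nd (nat_lit 6) 
(.lf (nat_lit 134837) (.g (nat_lit 3157) (.e (nat_lit 16459) (nat_lit 12) (.e (nat_lit 475193) (nat_lit 38) (.e (nat_lit 688177) (nat_lit 16) (.e (nat_lit 65617) (nat_lit 10) (.e (nat_lit 344161) (nat_lit 37) (.e (nat_lit 647199) (nat_lit 11) .nil)))))) (.g (nat_lit 6) .nil .nil))) 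
(.lf (nat_lit 134901) (.g (nat_lit 3210) (.e (nat_lit 16461) (nat_lit 12) (.e (nat_lit 475184) (nat_lit 29) (.e (nat_lit 557109) (nat_lit 15) (.e (nat_lit 188441) (nat_lit 20) (.e (nat_lit 3304) (nat_lit 202) .nil))))) .nil))))) (.nd (nat_lit 4) (.nd (nat_lit 5) (.nd (nat_lit 6) 
(.lf (nat_lit 134797) (.g (nat_lit 3057) (.e (nat_lit 16458) (nat_lit 12) (.e (nat_lit 475184) (nat_lit 29) (.e (nat_lit 557098) (nat_lit 13) (.e (nat_lit 172115) (nat_lit 10) (.e (nat_lit 434244) (nat_lit 28) (.e (nat_lit 573470) (nat_lit 11) .nil)))))) (.g (nat_lit 0) .nil .nil))) 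
(.lf (nat_lit 134861) (.g (nat_lit 2934) (.e (nat_lit 16460) (nat_lit 12) (.e (nat_lit 475185) (nat_lit 29) (.e (nat_lit 557100) (nat_lit 13) (.e (nat_lit 172106) (nat_lit 10) (.e (nat_lit 434244) (nat_lit 28) (.e (nat_lit 573469) (nat_lit 11) .nil)))))) (.g (nat_lit 5) .nil .nil)))) (.nd (nat_lit 6) 
(.lf (nat_lit 134829) (.g (nat_lit 432) (.e (nat_lit 16459) (nat_lit 12) (.e (nat_lit 475185) (nat_lit 29) (.e (nat_lit 557100) (nat_lit 13) .nil))) .nil)) 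
(.lf (nat_lit 134893) (.g (nat_lit 2817) (.e (nat_lit 16461) (nat_lit 12) (.e (nat_lit 475184) (nat_lit 29) (.e (nat_lit 557101) (nat_lit 13) (.e (nat_lit 172115) (nat_lit 10) (.e (nat_lit 434244) (nat_lit 28) (.e (nat_lit 573470) (nat_lit 11) .nil)))))) (.g (nat_lit 6) .nil .nil))))) (.nd (nat_lit 5) (.nd (nat_lit 6) 
(.lf (nat_lit 134813) (.g (nat_lit 1628) (.e (nat_lit 16458) (nat_lit 12) (.e (nat_lit 475207) (nat_lit 41) (.e (nat_lit 712755) (nat_lit 30) (.e (nat_lit 450562) (nat_lit 0) (.e (nat_lit 4805) (nat_lit 281) .nil))))) .nil)) 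
(.lf (nat_lit 134877) (.g (nat_lit 3481) (.e (nat_lit 16461) (nat_lit 12) (.e (nat_lit 475177) (nat_lit 24) (.e (nat_lit 516115) (nat_lit 1) (.e (nat_lit 164399) (nat_lit 256) (.e (nat_lit 57383) (nat_lit 4) (.e (nat_lit 114432) (nat_lit 15) (.e (nat_lit 57895) (nat_lit 272) .nil))))))) (.g (nat_lit 5) .nil .nil)))) (.nd (nat_lit 6) 
(.lf (nat_lit 134845) (.g (nat_lit 1624) (.e (nat_lit 16459) (nat_lit 12) (.e (nat_lit 475199) (nat_lit 40) (.e (nat_lit 704595) (nat_lit 5) (.e (nat_lit 180288) (nat_lit 45) .nil)))) .nil)) 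
(.lf (nat_lit 134909) (.g (nat_lit 2793) (.e (nat_lit 16461) (nat_lit 12) (.e (nat_lit 475193) (nat_lit 38) (.e (nat_lit 688175) (nat_lit 16) (.e (nat_lit 65619) (nat_lit 10) (.e (nat_lit 344160) (nat_lit 37) (.e (nat_lit 647199) (nat_lit 11) .nil)))))) (.g (nat_lit 6) .nil .nil)))))))) (.nd (nat_lit 2) (.nd (nat_lit 3) (.nd (nat_lit 4) (.nd (nat_lit 5) (.nd (nat_lit 6) 
(.lf (nat_lit 134787) (.g (nat_lit 3807) (.e (nat_lit 16458) (nat_lit 12) (.e (nat_lit 475179) (nat_lit 24) (.e (nat_lit 516120) (nat_lit 1) (.e (nat_lit 164330) (nat_lit 230) (.e (nat_lit 163938) (nat_lit 18) (.e (nat_lit 483072) (nat_lit 10) .nil)))))) (.g (nat_lit 5) .nil .nil))) 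
(.lf (nat_lit 134851) (.g (nat_lit 1370) (.e (nat_lit 16459) (nat_lit 12) (.e (nat_lit 475211) (nat_lit 41) (.e (nat_lit 712749) (nat_lit 28) (.e (nat_lit 434192) (nat_lit 13) .nil)))) .nil))) (.nd (nat_lit 6) 
(.lf (nat_lit 134819) (.g (nat_lit 2168) (.e (nat_lit 16459) (nat_lit 12) (.e (nat_lit 475183) (nat_lit 29) (.e (nat_lit 557097) (nat_lit 13) (.e (nat_lit 172115) (nat_lit 10) (.e (nat_lit 434244) (nat_lit 28) (.e (nat_lit 573469) (nat_lit 11) .nil)))))) (.g (nat_lit 4) .nil .nil))) 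
(.lf (nat_lit 134883) (.g (nat_lit 2274) (.e (nat_lit 16461) (nat_lit 12) (.e (nat_lit 475179) (nat_lit 24) (.e (nat_lit 516117) (nat_lit 1) (.e (nat_lit 164305) (nat_lit 226) .nil)))) .nil)))) (.nd (nat_lit 5) (.nd (nat_lit 6) 
(.lf (nat_lit 134803) (.g (nat_lit 3356) (.e (nat_lit 16458) (nat_lit 12) (.e (nat_lit 475184) (nat_lit 29) (.e (nat_lit 557109) (nat_lit 15) (.e (nat_lit 188441) (nat_lit 20) (.e (nat_lit 3297) (nat_lit 202) .nil))))) .nil)) 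
(.lf (nat_lit 134867) (.g (nat_lit 3590) (.e (nat_lit 16460) (nat_lit 12) (.e (nat_lit 475185) (nat_lit 29) (.e (nat_lit 557100) (nat_lit 13) (.e (nat_lit 172113) (nat_lit 10) (.e (nat_lit 434248) (nat_lit 28) (.e (nat_lit 573470) (nat_lit 11) .nil)))))) (.g (nat_lit 6) .nil .nil)))) (.nd (nat_lit 6) 
(.lf (nat_lit 134835) (.g (nat_lit 3046) (.e (nat_lit 16459) (nat_lit 12) (.e (nat_lit 475193) (nat_lit 38) (.e (nat_lit 688175) (nat_lit 16) (.e (nat_lit 65619) (nat_lit 10) (.e (nat_lit 344160) (nat_lit 37) (.e (nat_lit 647199) (nat_lit 11) .nil)))))) (.g (nat_lit 6) .nil .nil))) 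
(.lf (nat_lit 134899) (.g (nat_lit 3084) (.e (nat_lit 16461) (nat_lit 12) (.e (nat_lit 475184) (nat_lit 29) (.e (nat_lit 557109) (nat_lit 15) (.e (nat_lit 188434) (nat_lit 20) (.e (nat_lit 3297) (nat_lit 202) .nil))))) .nil))))) (.nd (nat_lit 4) (.nd (nat_lit 5) (.nd (nat_lit 6) 
(.lf (nat_lit 134795) (.g (nat_lit 3548) (.e (nat_lit 16458) (nat_lit 12) (.e (nat_lit 475183) (nat_lit 29) (.e (nat_lit 557100) (nat_lit 13) (.e (nat_lit 172106) (nat_lit 10) (.e (nat_lit 434244) (nat_lit 28) (.e (nat_lit 573469) (nat_lit 11) .nil)))))) (.g (nat_lit 6) .nil .nil))) 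
(.lf (nat_lit 134859) (.g (nat_lit 717) (.e (nat_lit 16459) (nat_lit 12) (.e (nat_lit 475214) (nat_lit 42) (.e (nat_lit 720956) (nat_lit 25) .nil))) .nil))) (.nd (nat_lit 6) 
(.lf (nat_lit 134827) (.g (nat_lit 2373) (.e (nat_lit 16459) (nat_lit 12) (.e (nat_lit 475184) (nat_lit 29) (.e (nat_lit 557109) (nat_lit 15) (.e (nat_lit 188424) (nat_lit 20) .nil)))) .nil)) 
(.lf (nat_lit 134891) (.g (nat_lit 2223) (.e (nat_lit 16461) (nat_lit 12) (.e (nat_lit 475183) (nat_lit 29) (.e (nat_lit 557100) (nat_lit 13) (.e (nat_lit 172106) (nat_lit 10) (.e (nat_lit 434244) (nat_lit 28) (.e (nat_lit 573471) (nat_lit 11) .nil)))))) (.g (nat_lit 4) .nil .nil))))) (.nd (nat_lit 5) (.nd (nat_lit 6) 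
(.lf (nat_lit 134811) (.g (nat_lit 910) (.e (nat_lit 16458) (nat_lit 12) (.e (nat_lit 475198) (nat_lit 40) (.e (nat_lit 704595) (nat_lit 5) .nil))) .nil)) 
(.lf (nat_lit 134875) (.g (nat_lit 3161) (.e (nat_lit 16461) (nat_lit 12) (.e (nat_lit 475177) (nat_lit 24) (.e (nat_lit 516115) (nat_lit 1) (.e (nat_lit 164399) (nat_lit 256) (.e (nat_lit 57382) (nat_lit 4) .nil))))) .nil))) (.nd (nat_lit 6) 
(.lf (nat_lit 134843) (.g (nat_lit 1579) (.e (nat_lit 16459) (nat_lit 12) (.e (nat_lit 475199) (nat_lit 40) (.e (nat_lit 704595) (nat_lit 5) (.e (nat_lit 180284) (nat_lit 45) .nil)))) .nil)) 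
(.lf (nat_lit 134907) (.g (nat_lit 2940) (.e (nat_lit 16461) (nat_lit 12) (.e (nat_lit 475185) (nat_lit 29) (.e (nat_lit 557101) (nat_lit 13) (.e (nat_lit 172115) (nat_lit 10) (.e (nat_lit 434244) (nat_lit 28) (.e (nat_lit 573471) (nat_lit 11) .nil)))))) (.g (nat_lit 5) .nil .nil))))))) (.nd (nat_lit 3) (.nd (nat_lit 4) (.nd (nat_lit 5) (.nd (nat_lit 6) 
(.lf (nat_lit 134791) (.g (nat_lit 548) (.e (nat_lit 16458) (nat_lit 12) (.e (nat_lit 475181) (nat_lit 27) (.e (nat_lit 540708) (nat_lit 14) (.e (nat_lit 376834) (nat_lit 0) (.e (nat_lit 7936) (nat_lit 404) .nil))))) (.g (nat_lit 4) .nil .nil))) 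
(.lf (nat_lit 134855) (.g (nat_lit 1466) (.e (nat_lit 16459) (nat_lit 12) (.e (nat_lit 475211) (nat_lit 41) (.e (nat_lit 712755) (nat_lit 30) (.e (nat_lit 450563) (nat_lit 0) .nil)))) .nil))) (.nd (nat_lit 6) 
(.lf (nat_lit 134823) (.g (nat_lit 2600) (.e (nat_lit 16459) (nat_lit 12) (.e (nat_lit 475183) (nat_lit 29) (.e (nat_lit 557100) (nat_lit 13) (.e (nat_lit 172106) (nat_lit 10) (.e (nat_lit 434244) (nat_lit 28) (.e (nat_lit 573469) (nat_lit 11) .nil)))))) (.g (nat_lit 5) .nil .nil))) 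
(.lf (nat_lit 134887) (.g (nat_lit 2405) (.e (nat_lit 16461) (nat_lit 12) (.e (nat_lit 475179) (nat_lit 24) (.e (nat_lit 516119) (nat_lit 1) (.e (nat_lit 164325) (nat_lit 230) (.e (nat_lit 163939) (nat_lit 18) .nil))))) .nil)))) (.nd (nat_lit 5) (.nd (nat_lit 6) 
(.lf (nat_lit 134807) (.g (nat_lit 2864) (.e (nat_lit 16458) (nat_lit 12) (.e (nat_lit 475193) (nat_lit 38) (.e (nat_lit 688175) (nat_lit 16) (.e (nat_lit 65619) (nat_lit 10) (.e (nat_lit 344160) (nat_lit 37) (.e (nat_lit 647199) (nat_lit 11) .nil)))))) (.g (nat_lit 0) .nil .nil))) 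
(.lf (nat_lit 134871) (.g (nat_lit 1758) (.e (nat_lit 16460) (nat_lit 12) (.e (nat_lit 475199) (nat_lit 40) (.e (nat_lit 704595) (nat_lit 5) (.e (nat_lit 180285) (nat_lit 45) .nil)))) .nil))) (.nd (nat_lit 6) 
(.lf (nat_lit 134839) (.g (nat_lit 3062) (.e (nat_lit 16459) (nat_lit 12) (.e (nat_lit 475193) (nat_lit 38) (.e (nat_lit 688177) (nat_lit 16) (.e (nat_lit 65617) (nat_lit 10) (.e (nat_lit 344164) (nat_lit 37) (.e (nat_lit 647199) (nat_lit 11) .nil)))))) (.g (nat_lit 6) .nil .nil))) 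
(.lf (nat_lit 134903) (.g (nat_lit 2473) (.e (nat_lit 16461) (nat_lit 12) (.e (nat_lit 475184) (nat_lit 29) (.e (nat_lit 557109) (nat_lit 15) (.e (nat_lit 188443) (nat_lit 20) .nil)))) .nil))))) (.nd (nat_lit 4) (.nd (nat_lit 5) (.nd (nat_lit 6) 
(.lf (nat_lit 134799) (.g (nat_lit 3551) (.e (nat_lit 16458) (nat_lit 12) (.e (nat_lit 475184) (nat_lit 29) (.e (nat_lit 557101) (nat_lit 13) (.e (nat_lit 172115) (nat_lit 10) (.e (nat_lit 434244) (nat_lit 28) (.e (nat_lit 573471) (nat_lit 11) .nil)))))) (.g (nat_lit 0) .nil .nil))) 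
(.lf (nat_lit 134863) (.g (nat_lit 3404) (.e (nat_lit 16460) (nat_lit 12) (.e (nat_lit 475185) (nat_lit 29) (.e (nat_lit 557100) (nat_lit 13) (.e (nat_lit 172113) (nat_lit 10) (.e (nat_lit 434245) (nat_lit 28) (.e (nat_lit 573470) (nat_lit 11) .nil)))))) (.g (nat_lit 6) .nil .nil)))) (.nd (nat_lit 6) 
(.lf (nat_lit 134831) (.g (nat_lit 495) (.e (nat_lit 16459) (nat_lit 12) (.e (nat_lit 475185) (nat_lit 29) (.e (nat_lit 557109) (nat_lit 15) .nil))) .nil)) 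
(.lf (nat_lit 134895) (.g (nat_lit 2151) (.e (nat_lit 16461) (nat_lit 12) (.e (nat_lit 475184) (nat_lit 29) (.e (nat_lit 557109) (nat_lit 15) (.e (nat_lit 188424) (nat_lit 20) .nil)))) .nil)))) (.nd (nat_lit 5) (.nd (nat_lit 6) 
(.lf (nat_lit 134815) (.g (nat_lit 674) (.e (nat_lit 16458) (nat_lit 12) (.e (nat_lit 475208) (nat_lit 41) (.e (nat_lit 712755) (nat_lit 30) (.e (nat_lit 450562) (nat_lit 0) .nil)))) .nil)) 
(.lf (nat_lit 134879) (.g (nat_lit 835) (.e (nat_lit 16461) (nat_lit 12) (.e (nat_lit 475179) (nat_lit 24) (.e (nat_lit 516115) (nat_lit 1) .nil))) .nil))) (.nd (nat_lit 6) 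
(.lf (nat_lit 134847) (.g (nat_lit 1510) (.e (nat_lit 16459) (nat_lit 12) (.e (nat_lit 475207) (nat_lit 41) (.e (nat_lit 712755) (nat_lit 30) (.e (nat_lit 450562) (nat_lit 0) (.e (nat_lit 4756) (nat_lit 281) .nil))))) .nil)) 
(.lf (nat_lit 134911) (.g (nat_lit 2907) (.e (nat_lit 16461) (nat_lit 12) (.e (nat_lit 475193) (nat_lit 38) (.e (nat_lit 688177) (nat_lit 16) (.e (nat_lit 65617) (nat_lit 10) (.e (nat_lit 344161) (nat_lit 37) (.e (nat_lit 647199) (nat_lit 11) .nil)))))) (.g (nat_lit 0) .nil .nil))))))))))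

noncomputable def tv1799 : DT := (.nd (nat_lit 0) (.nd (nat_lit 1) (.nd (nat_lit 2) (.nd (nat_lit 3) (.nd (nat_lit 4) (.nd (nat_lit 5) (.nd (nat_lit 6) 
(.lf (nat_lit 134912) (.g (nat_lit 1870) (.e (nat_lit 16461) (nat_lit 12) (.e (nat_lit 475193) (nat_lit 38) (.e (nat_lit 688177) (nat_lit 16) (.e (nat_lit 65617) (nat_lit 10) (.e (nat_lit 344163) (nat_lit 37) (.e (nat_lit 647199) (nat_lit 11) .nil)))))) (.g (nat_lit 4) .nil .nil))) 
(.lf (nat_lit 134976) (.g (nat_lit 3313) (.e (nat_lit 16463) (nat_lit 13) (.e (nat_lit 483393) (nat_lit 23) (.e (nat_lit 335988) (nat_lit 1) (.e (nat_lit 57854) (nat_lit 252) (.e (nat_lit 57384) (nat_lit 4) (.e (nat_lit 106536) (nat_lit 11) .nil)))))) (.g (nat_lit 0) .nil .nil)))) (.nd (nat_lit 6) 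
(.lf (nat_lit 134944) (.g (nat_lit 1629) (.e (nat_lit 16463) (nat_lit 13) (.e (nat_lit 491264) (nat_lit 16) (.e (nat_lit 491546) (nat_lit 9) (.e (nat_lit 336013) (nat_lit 2) (.e (nat_lit 98048) (nat_lit 2) .nil))))) (.g (nat_lit 4) .nil .nil))) 
(.lf (nat_lit 135008) (.g (nat_lit 1964) (.e (nat_lit 16464) (nat_lit 13) (.e (nat_lit 483393) (nat_lit 23) (.e (nat_lit 335986) (nat_lit 1) (.e (nat_lit 57847) (nat_lit 252) (.e (nat_lit 57383) (nat_lit 4) (.e (nat_lit 106534) (nat_lit 11) .nil)))))) (.g (nat_lit 4) .nil .nil))))) (.nd (nat_lit 5) (.nd (nat_lit 6) 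
(.lf (nat_lit 134928) (.g (nat_lit 1704) (.e (nat_lit 16462) (nat_lit 13) (.e (nat_lit 483350) (nat_lit 17) (.e (nat_lit 6218) (nat_lit 333) (.e (nat_lit 57787) (nat_lit 245) .nil)))) .nil)) 
(.lf (nat_lit 134992) (.g (nat_lit 1087) (.e (nat_lit 16463) (nat_lit 13) (.e (nat_lit 483412) (nat_lit 27) (.e (nat_lit 401443) (nat_lit 9) (.e (nat_lit 426012) (nat_lit 0) .nil)))) .nil))) (.nd (nat_lit 6) 
(.lf (nat_lit 134960) (.g (nat_lit 2374) (.e (nat_lit 16463) (nat_lit 13) (.e (nat_lit 483393) (nat_lit 23) (.e (nat_lit 335986) (nat_lit 1) (.e (nat_lit 57849) (nat_lit 252) (.e (nat_lit 57383) (nat_lit 4) (.e (nat_lit 106534) (nat_lit 11) .nil)))))) (.g (nat_lit 4) .nil .nil))) 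
(.lf (nat_lit 135024) (.g (nat_lit 1856) (.e (nat_lit 16465) (nat_lit 13) (.e (nat_lit 483341) (nat_lit 9) (.e (nat_lit 426029) (nat_lit 0) (.e (nat_lit 2472) (nat_lit 157) .nil)))) .nil))))) (.nd (nat_lit 4) (.nd (nat_lit 5) (.nd (nat_lit 6) 
(.lf (nat_lit 134920) (.g (nat_lit 1459) (.e (nat_lit 16461) (nat_lit 12) (.e (nat_lit 475207) (nat_lit 41) (.e (nat_lit 712755) (nat_lit 30) (.e (nat_lit 450563) (nat_lit 0) (.e (nat_lit 4754) (nat_lit 281) (.e (nat_lit 1125) (nat_lit 83) .nil)))))) (.g (nat_lit 4) .nil .nil))) 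
(.lf (nat_lit 134984) (.g (nat_lit 705) (.e (nat_lit 16463) (nat_lit 13) (.e (nat_lit 483408) (nat_lit 26) (.e (nat_lit 385095) (nat_lit 49) .nil))) .nil))) (.nd (nat_lit 6) 
(.lf (nat_lit 134952) (.g (nat_lit 323) (.e (nat_lit 16463) (nat_lit 13) (.e (nat_lit 483375) (nat_lit 22) (.e (nat_lit 327705) (nat_lit 10) .nil))) .nil)) 
(.lf (nat_lit 135016) (.g (nat_lit 1290) (.e (nat_lit 16465) (nat_lit 13) (.e (nat_lit 491264) (nat_lit 7) (.e (nat_lit 409641) (nat_lit 17) (.e (nat_lit 294927) (nat_lit 2) (.e (nat_lit 98048) (nat_lit 2) .nil))))) (.g (nat_lit 4) .nil .nil))))) (.nd (nat_lit 5) (.nd (nat_lit 6) 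
(.lf (nat_lit 134936) (.g (nat_lit 689) (.e (nat_lit 16462) (nat_lit 13) (.e (nat_lit 483411) (nat_lit 27) (.e (nat_lit 401442) (nat_lit 9) .nil))) .nil)) 
(.lf (nat_lit 135000) (.g (nat_lit 743) (.e (nat_lit 16464) (nat_lit 13) (.e (nat_lit 483341) (nat_lit 9) (.e (nat_lit 426097) (nat_lit 1) .nil))) .nil))) (.nd (nat_lit 6) 
(.lf (nat_lit 134968) (.g (nat_lit 1893) (.e (nat_lit 16463) (nat_lit 13) (.e (nat_lit 483393) (nat_lit 23) (.e (nat_lit 335988) (nat_lit 1) (.e (nat_lit 57844) (nat_lit 252) (.e (nat_lit 57382) (nat_lit 4) (.e (nat_lit 106536) (nat_lit 11) .nil)))))) (.g (nat_lit 4) .nil .nil))) 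
(.lf (nat_lit 135032) (.g (nat_lit 2890) (.e (nat_lit 16465) (nat_lit 13) (.e (nat_lit 483341) (nat_lit 9) (.e (nat_lit 426098) (nat_lit 1) (.e (nat_lit 164327) (nat_lit 230) (.e (nat_lit 163868) (nat_lit 2) (.e (nat_lit 196655) (nat_lit 11) .nil)))))) (.g (nat_lit 5) .nil .nil))))))) (.nd (nat_lit 3) (.nd (nat_lit 4) (.nd (nat_lit 5) (.nd (nat_lit 6) 
(.lf (nat_lit 134916) (.g (nat_lit 1473) (.e (nat_lit 16461) (nat_lit 12) (.e (nat_lit 475198) (nat_lit 40) (.e (nat_lit 704595) (nat_lit 5) (.e (nat_lit 180284) (nat_lit 45) (.e (nat_lit 2425) (nat_lit 157) .nil))))) .nil)) 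
(.lf (nat_lit 134980) (.g (nat_lit 2500) (.e (nat_lit 16463) (nat_lit 13) (.e (nat_lit 483393) (nat_lit 23) (.e (nat_lit 335996) (nat_lit 1) (.e (nat_lit 57852) (nat_lit 252) (.e (nat_lit 57384) (nat_lit 4) (.e (nat_lit 106534) (nat_lit 11) .nil)))))) (.g (nat_lit 4) .nil .nil)))) (.nd (nat_lit 6) 
(.lf (nat_lit 134948) (.g (nat_lit 1051) (.e (nat_lit 16463) (nat_lit 13) (.e (nat_lit 483363) (nat_lit 18) (.e (nat_lit 57686) (nat_lit 156) .nil))) .nil)) 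
(.lf (nat_lit 135012) (.g (nat_lit 373) (.e (nat_lit 16464) (nat_lit 13) (.e (nat_lit 483395) (nat_lit 24) (.e (nat_lit 344160) (nat_lit 37) .nil))) .nil)))) (.nd (nat_lit 5) (.nd (nat_lit 6) 
(.lf (nat_lit 134932) (.g (nat_lit 1953) (.e (nat_lit 16462) (nat_lit 13) (.e (nat_lit 483393) (nat_lit 23) (.e (nat_lit 335988) (nat_lit 1) (.e (nat_lit 57854) (nat_lit 252) (.e (nat_lit 57384) (nat_lit 4) (.e (nat_lit 106534) (nat_lit 11) .nil)))))) (.g (nat_lit 4) .nil .nil))) 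
(.lf (nat_lit 134996) (.g (nat_lit 947) (.e (nat_lit 16463) (nat_lit 13) (.e (nat_lit 483413) (nat_lit 27) (.e (nat_lit 401434) (nat_lit 9) .nil))) .nil))) (.nd (nat_lit 6) 
(.lf (nat_lit 134964) (.g (nat_lit 1912) (.e (nat_lit 16463) (nat_lit 13) (.e (nat_lit 483393) (nat_lit 23) (.e (nat_lit 335987) (nat_lit 1) (.e (nat_lit 57852) (nat_lit 252) (.e (nat_lit 57382) (nat_lit 4) (.e (nat_lit 106536) (nat_lit 11) .nil)))))) (.g (nat_lit 4) .nil .nil))) 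
(.lf (nat_lit 135028) (.g (nat_lit 3002) (.e (nat_lit 16465) (nat_lit 13) (.e (nat_lit 483341) (nat_lit 9) (.e (nat_lit 426098) (nat_lit 1) (.e (nat_lit 164325) (nat_lit 230) (.e (nat_lit 163871) (nat_lit 2) (.e (nat_lit 196653) (nat_lit 11) .nil)))))) (.g (nat_lit 6) .nil .nil)))))) (.nd (nat_lit 4) (.nd (nat_lit 5) (.nd (nat_lit 6) 
(.lf (nat_lit 134924) (.g (nat_lit 1918) (.e (nat_lit 24320) (nat_lit 12) (.e (nat_lit 475185) (nat_lit 29) (.e (nat_lit 557100) (nat_lit 13) (.e (nat_lit 172113) (nat_lit 10) (.e (nat_lit 434245) (nat_lit 28) .nil))))) .nil)) 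
(.lf (nat_lit 134988) (.g (nat_lit 825) (.e (nat_lit 16463) (nat_lit 13) (.e (nat_lit 483410) (nat_lit 27) (.e (nat_lit 401440) (nat_lit 9) .nil))) .nil))) (.nd (nat_lit 6) 
(.lf (nat_lit 134956) (.g (nat_lit 2216) (.e (nat_lit 16463) (nat_lit 13) (.e (nat_lit 483393) (nat_lit 23) (.e (nat_lit 335986) (nat_lit 1) (.e (nat_lit 57847) (nat_lit 252) (.e (nat_lit 57384) (nat_lit 4) .nil))))) .nil)) 
(.lf (nat_lit 135020) (.g (nat_lit 1949) (.e (nat_lit 16465) (nat_lit 13) (.e (nat_lit 483339) (nat_lit 9) (.e (nat_lit 426110) (nat_lit 1) (.e (nat_lit 164326) (nat_lit 230) (.e (nat_lit 163871) (nat_lit 2) (.e (nat_lit 196655) (nat_lit 11) .nil)))))) (.g (nat_lit 5) .nil .nil))))) (.nd (nat_lit 5) (.nd (nat_lit 6) 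
(.lf (nat_lit 134940) (.g (nat_lit 829) (.e (nat_lit 16463) (nat_lit 13) (.e (nat_lit 483337) (nat_lit 9) (.e (nat_lit 426097) (nat_lit 1) .nil))) .nil)) 
(.lf (nat_lit 135004) (.g (nat_lit 2544) (.e (nat_lit 16464) (nat_lit 13) (.e (nat_lit 483383) (nat_lit 23) (.e (nat_lit 336000) (nat_lit 1) (.e (nat_lit 57849) (nat_lit 252) (.e (nat_lit 57385) (nat_lit 4) (.e (nat_lit 106534) (nat_lit 11) .nil)))))) (.g (nat_lit 4) .nil .nil)))) (.nd (nat_lit 6) 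
(.lf (nat_lit 134972) (.g (nat_lit 2305) (.e (nat_lit 16463) (nat_lit 13) (.e (nat_lit 483393) (nat_lit 23) (.e (nat_lit 335988) (nat_lit 1) (.e (nat_lit 57852) (nat_lit 252) (.e (nat_lit 57384) (nat_lit 4) (.e (nat_lit 106534) (nat_lit 11) .nil)))))) (.g (nat_lit 4) .nil .nil))) 
(.lf (nat_lit 135036) (.g (nat_lit 2193) (.e (nat_lit 16465) (nat_lit 13) (.e (nat_lit 483341) (nat_lit 9) (.e (nat_lit 426105) (nat_lit 1) (.e (nat_lit 164327) (nat_lit 230) (.e (nat_lit 163871) (nat_lit 2) .nil))))) .nil))))))) (.nd (nat_lit 2) (.nd (nat_lit 3) (.nd (nat_lit 4) (.nd (nat_lit 5) (.nd (nat_lit 6) 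
(.lf (nat_lit 134914) (.g (nat_lit 2879) (.e (nat_lit 16461) (nat_lit 12) (.e (nat_lit 475193) (nat_lit 38) (.e (nat_lit 688178) (nat_lit 16) (.e (nat_lit 65619) (nat_lit 10) (.e (nat_lit 344160) (nat_lit 37) (.e (nat_lit 647199) (nat_lit 11) .nil)))))) (.g (nat_lit 0) .nil .nil))) 
(.lf (nat_lit 134978) (.g (nat_lit 2208) (.e (nat_lit 16463) (nat_lit 13) (.e (nat_lit 483393) (nat_lit 23) (.e (nat_lit 335996) (nat_lit 1) (.e (nat_lit 57851) (nat_lit 252) (.e (nat_lit 57382) (nat_lit 4) (.e (nat_lit 106536) (nat_lit 11) .nil)))))) (.g (nat_lit 4) .nil .nil)))) (.nd (nat_lit 6) 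
(.lf (nat_lit 134946) (.g (nat_lit 839) (.e (nat_lit 16463) (nat_lit 13) (.e (nat_lit 483345) (nat_lit 17) (.e (nat_lit 6724) (nat_lit 362) (.e (nat_lit 188160) (nat_lit 26) .nil)))) .nil)) 
(.lf (nat_lit 135010) (.g (nat_lit 2108) (.e (nat_lit 16464) (nat_lit 13) (.e (nat_lit 483393) (nat_lit 23) (.e (nat_lit 335988) (nat_lit 1) (.e (nat_lit 57852) (nat_lit 252) (.e (nat_lit 57382) (nat_lit 4) (.e (nat_lit 106534) (nat_lit 11) .nil)))))) (.g (nat_lit 4) .nil .nil))))) (.nd (nat_lit 5) (.nd (nat_lit 6) 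
(.lf (nat_lit 134930) (.g (nat_lit 2091) (.e (nat_lit 16462) (nat_lit 13) (.e (nat_lit 483383) (nat_lit 23) (.e (nat_lit 336000) (nat_lit 1) (.e (nat_lit 57849) (nat_lit 252) (.e (nat_lit 57385) (nat_lit 4) .nil))))) .nil)) 
(.lf (nat_lit 134994) (.g (nat_lit 1549) (.e (nat_lit 16463) (nat_lit 13) (.e (nat_lit 483412) (nat_lit 27) (.e (nat_lit 401444) (nat_lit 9) (.e (nat_lit 425984) (nat_lit 0) .nil)))) .nil))) (.nd (nat_lit 6) 
(.lf (nat_lit 134962) (.g (nat_lit 3192) (.e (nat_lit 16463) (nat_lit 13) (.e (nat_lit 483393) (nat_lit 23) (.e (nat_lit 335986) (nat_lit 1) (.e (nat_lit 57849) (nat_lit 252) (.e (nat_lit 57386) (nat_lit 4) (.e (nat_lit 106536) (nat_lit 11) .nil)))))) (.g (nat_lit 0) .nil .nil))) 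
(.lf (nat_lit 135026) (.g (nat_lit 1530) (.e (nat_lit 16465) (nat_lit 13) (.e (nat_lit 483341) (nat_lit 9) (.e (nat_lit 426098) (nat_lit 1) (.e (nat_lit 164325) (nat_lit 230) (.e (nat_lit 163866) (nat_lit 2) (.e (nat_lit 196655) (nat_lit 11) .nil)))))) (.g (nat_lit 4) .nil .nil)))))) (.nd (nat_lit 4) (.nd (nat_lit 5) (.nd (nat_lit 6) 
(.lf (nat_lit 134922) (.g (nat_lit 1933) (.e (nat_lit 16461) (nat_lit 12) (.e (nat_lit 475207) (nat_lit 41) (.e (nat_lit 712755) (nat_lit 30) (.e (nat_lit 450563) (nat_lit 0) (.e (nat_lit 4778) (nat_lit 281) (.e (nat_lit 7936) (nat_lit 83) .nil)))))) (.g (nat_lit 5) .nil .nil))) 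
(.lf (nat_lit 134986) (.g (nat_lit 705) (.e (nat_lit 16463) (nat_lit 13) (.e (nat_lit 483408) (nat_lit 26) (.e (nat_lit 385098) (nat_lit 49) .nil))) .nil))) (.nd (nat_lit 6) 
(.lf (nat_lit 134954) (.g (nat_lit 1553) (.e (nat_lit 16463) (nat_lit 13) (.e (nat_lit 483385) (nat_lit 23) (.e (nat_lit 336332) (nat_lit 19) (.e (nat_lit 213000) (nat_lit 9) .nil)))) .nil)) 
(.lf (nat_lit 135018) (.g (nat_lit 1424) (.e (nat_lit 16465) (nat_lit 13) (.e (nat_lit 491264) (nat_lit 7) (.e (nat_lit 409642) (nat_lit 17) (.e (nat_lit 294928) (nat_lit 2) (.e (nat_lit 98048) (nat_lit 2) .nil))))) (.g (nat_lit 4) .nil .nil))))) (.nd (nat_lit 5) (.nd (nat_lit 6) 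
(.lf (nat_lit 134938) (.g (nat_lit 1037) (.e (nat_lit 16462) (nat_lit 13) (.e (nat_lit 483413) (nat_lit 27) (.e (nat_lit 401446) (nat_lit 10) .nil))) .nil)) 
(.lf (nat_lit 135002) (.g (nat_lit 1890) (.e (nat_lit 16464) (nat_lit 13) (.e (nat_lit 483383) (nat_lit 23) (.e (nat_lit 336000) (nat_lit 1) (.e (nat_lit 57848) (nat_lit 252) .nil)))) .nil))) (.nd (nat_lit 6) 
(.lf (nat_lit 134970) (.g (nat_lit 2134) (.e (nat_lit 16463) (nat_lit 13) (.e (nat_lit 483393) (nat_lit 23) (.e (nat_lit 335988) (nat_lit 1) (.e (nat_lit 57852) (nat_lit 252) (.e (nat_lit 57382) (nat_lit 4) (.e (nat_lit 106534) (nat_lit 11) .nil)))))) (.g (nat_lit 4) .nil .nil))) 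
(.lf (nat_lit 135034) (.g (nat_lit 3555) (.e (nat_lit 16465) (nat_lit 13) (.e (nat_lit 483341) (nat_lit 9) (.e (nat_lit 426098) (nat_lit 1) (.e (nat_lit 164327) (nat_lit 230) (.e (nat_lit 163871) (nat_lit 2) (.e (nat_lit 196655) (nat_lit 11) .nil)))))) (.g (nat_lit 0) .nil .nil))))))) (.nd (nat_lit 3) (.nd (nat_lit 4) (.nd (nat_lit 5) (.nd (nat_lit 6) 
(.lf (nat_lit 134918) (.g (nat_lit 1162) (.e (nat_lit 16461) (nat_lit 12) (.e (nat_lit 475207) (nat_lit 41) (.e (nat_lit 712739) (nat_lit 27) (.e (nat_lit 426173) (nat_lit 7) (.e (nat_lit 409616) (nat_lit 10) (.e (nat_lit 7936) (nat_lit 300) .nil)))))) (.g (nat_lit 5) .nil .nil))) 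
(.lf (nat_lit 134982) (.g (nat_lit 1129) (.e (nat_lit 16463) (nat_lit 13) (.e (nat_lit 483394) (nat_lit 24) (.e (nat_lit 344097) (nat_lit 18) (.e (nat_lit 5195) (nat_lit 294) .nil)))) .nil))) (.nd (nat_lit 6) 
(.lf (nat_lit 134950) (.g (nat_lit 1098) (.e (nat_lit 16463) (nat_lit 13) (.e (nat_lit 483363) (nat_lit 18) (.e (nat_lit 57691) (nat_lit 156) .nil))) .nil)) 
(.lf (nat_lit 135014) (.g (nat_lit 1282) (.e (nat_lit 16465) (nat_lit 13) (.e (nat_lit 491264) (nat_lit 7) (.e (nat_lit 409640) (nat_lit 17) (.e (nat_lit 294927) (nat_lit 2) (.e (nat_lit 98048) (nat_lit 2) .nil))))) (.g (nat_lit 4) .nil .nil))))) (.nd (nat_lit 5) (.nd (nat_lit 6) 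
(.lf (nat_lit 134934) (.g (nat_lit 1039) (.e (nat_lit 16462) (nat_lit 13) (.e (nat_lit 483405) (nat_lit 26) (.e (nat_lit 385109) (nat_lit 51) (.e (nat_lit 802560) (nat_lit 4) .nil)))) .nil)) 
(.lf (nat_lit 134998) (.g (nat_lit 2476) (.e (nat_lit 16463) (nat_lit 13) (.e (nat_lit 483413) (nat_lit 27) (.e (nat_lit 401447) (nat_lit 10) (.e (nat_lit 442112) (nat_lit 44) .nil)))) .nil))) (.nd (nat_lit 6) 
(.lf (nat_lit 134966) (.g (nat_lit 2543) (.e (nat_lit 16463) (nat_lit 13) (.e (nat_lit 483393) (nat_lit 23) (.e (nat_lit 335987) (nat_lit 1) (.e (nat_lit 57854) (nat_lit 252) (.e (nat_lit 57382) (nat_lit 4) (.e (nat_lit 106534) (nat_lit 11) .nil)))))) (.g (nat_lit 5) .nil .nil))) 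
(.lf (nat_lit 135030) (.g (nat_lit 3030) (.e (nat_lit 16465) (nat_lit 13) (.e (nat_lit 483341) (nat_lit 9) (.e (nat_lit 426098) (nat_lit 1) (.e (nat_lit 164326) (nat_lit 230) (.e (nat_lit 163868) (nat_lit 2) (.e (nat_lit 196655) (nat_lit 11) .nil)))))) (.g (nat_lit 6) .nil .nil)))))) (.nd (nat_lit 4) (.nd (nat_lit 5) (.nd (nat_lit 6) 
(.lf (nat_lit 134926) (.g (nat_lit 598) (.e (nat_lit 16462) (nat_lit 13) (.e (nat_lit 483350) (nat_lit 17) (.e (nat_lit 6212) (nat_lit 333) .nil))) .nil)) 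
(.lf (nat_lit 134990) (.g (nat_lit 1444) (.e (nat_lit 16463) (nat_lit 13) (.e (nat_lit 483411) (nat_lit 27) (.e (nat_lit 401448) (nat_lit 10) (.e (nat_lit 442112) (nat_lit 44) .nil)))) .nil))) (.nd (nat_lit 6) 
(.lf (nat_lit 134958) (.g (nat_lit 2185) (.e (nat_lit 16463) (nat_lit 13) (.e (nat_lit 483393) (nat_lit 23) (.e (nat_lit 335986) (nat_lit 1) (.e (nat_lit 57847) (nat_lit 252) (.e (nat_lit 57386) (nat_lit 4) (.e (nat_lit 106534) (nat_lit 11) .nil)))))) (.g (nat_lit 4) .nil .nil))) 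
(.lf (nat_lit 135022) (.g (nat_lit 1998) (.e (nat_lit 16465) (nat_lit 13) (.e (nat_lit 483341) (nat_lit 9) (.e (nat_lit 426009) (nat_lit 0) (.e (nat_lit 2536) (nat_lit 157) .nil)))) .nil)))) (.nd (nat_lit 5) (.nd (nat_lit 6) 
(.lf (nat_lit 134942) (.g (nat_lit 2356) (.e (nat_lit 16463) (nat_lit 13) (.e (nat_lit 483337) (nat_lit 9) (.e (nat_lit 426107) (nat_lit 1) (.e (nat_lit 164322) (nat_lit 230) (.e (nat_lit 163871) (nat_lit 2) .nil))))) .nil)) 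
(.lf (nat_lit 135006) (.g (nat_lit 2642) (.e (nat_lit 16464) (nat_lit 13) (.e (nat_lit 483383) (nat_lit 23) (.e (nat_lit 336000) (nat_lit 1) (.e (nat_lit 57849) (nat_lit 252) (.e (nat_lit 57386) (nat_lit 4) (.e (nat_lit 106534) (nat_lit 11) .nil)))))) (.g (nat_lit 4) .nil .nil)))) (.nd (nat_lit 6) 
(.lf (nat_lit 134974) (.g (nat_lit 2873) (.e (nat_lit 16463) (nat_lit 13) (.e (nat_lit 483393) (nat_lit 23) (.e (nat_lit 335988) (nat_lit 1) (.e (nat_lit 57854) (nat_lit 252) (.e (nat_lit 57382) (nat_lit 4) (.e (nat_lit 106534) (nat_lit 11) .nil)))))) (.g (nat_lit 5) .nil .nil))) 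
(.lf (nat_lit 135038) (.g (nat_lit 3450) (.e (nat_lit 16465) (nat_lit 13) (.e (nat_lit 483341) (nat_lit 9) (.e (nat_lit 426106) (nat_lit 1) (.e (nat_lit 164326) (nat_lit 230) (.e (nat_lit 163871) (nat_lit 2) (.e (nat_lit 196655) (nat_lit 11) .nil)))))) (.g (nat_lit 0) .nil .nil))))))))) (.nd (nat_lit 1) (.nd (nat_lit 2) (.nd (nat_lit 3) (.nd (nat_lit 4) (.nd (nat_lit 5) (.nd (nat_lit 6) 
(.lf (nat_lit 134913) (.g (nat_lit 2864) (.e (nat_lit 16461) (nat_lit 12) (.e (nat_lit 475193) (nat_lit 38) (.e (nat_lit 688177) (nat_lit 16) (.e (nat_lit 65617) (nat_lit 10) (.e (nat_lit 344164) (nat_lit 37) (.e (nat_lit 647199) (nat_lit 11) .nil)))))) (.g (nat_lit 0) .nil .nil))) 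
(.lf (nat_lit 134977) (.g (nat_lit 1337) (.e (nat_lit 16463) (nat_lit 13) (.e (nat_lit 483393) (nat_lit 23) (.e (nat_lit 335995) (nat_lit 1) (.e (nat_lit 57848) (nat_lit 252) .nil)))) .nil))) (.nd (nat_lit 6) 
(.lf (nat_lit 134945) (.g (nat_lit 820) (.e (nat_lit 16463) (nat_lit 13) (.e (nat_lit 483345) (nat_lit 17) (.e (nat_lit 6722) (nat_lit 362) (.e (nat_lit 188160) (nat_lit 26) .nil)))) .nil)) 
(.lf (nat_lit 135009) (.g (nat_lit 1849) (.e (nat_lit 16464) (nat_lit 13) (.e (nat_lit 483393) (nat_lit 23) (.e (nat_lit 335986) (nat_lit 1) (.e (nat_lit 57849) (nat_lit 252) (.e (nat_lit 57386) (nat_lit 4) (.e (nat_lit 106535) (nat_lit 11) .nil)))))) (.g (nat_lit 5) .nil .nil))))) (.nd (nat_lit 5) (.nd (nat_lit 6) 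
(.lf (nat_lit 134929) (.g (nat_lit 1076) (.e (nat_lit 16462) (nat_lit 13) (.e (nat_lit 483372) (nat_lit 21) (.e (nat_lit 319526) (nat_lit 15) .nil))) .nil)) 
(.lf (nat_lit 134993) (.g (nat_lit 1731) (.e (nat_lit 16463) (nat_lit 13) (.e (nat_lit 483412) (nat_lit 27) (.e (nat_lit 401443) (nat_lit 9) (.e (nat_lit 426012) (nat_lit 0) (.e (nat_lit 3473) (nat_lit 218) .nil))))) .nil))) (.nd (nat_lit 6) 
(.lf (nat_lit 134961) (.g (nat_lit 2862) (.e (nat_lit 16463) (nat_lit 13) (.e (nat_lit 483393) (nat_lit 23) (.e (nat_lit 335986) (nat_lit 1) (.e (nat_lit 57849) (nat_lit 252) (.e (nat_lit 57385) (nat_lit 4) (.e (nat_lit 106536) (nat_lit 11) .nil)))))) (.g (nat_lit 0) .nil .nil))) 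
(.lf (nat_lit 135025) (.g (nat_lit 490) (.e (nat_lit 16465) (nat_lit 13) (.e (nat_lit 483341) (nat_lit 9) (.e (nat_lit 426031) (nat_lit 0) .nil))) .nil))))) (.nd (nat_lit 4) (.nd (nat_lit 5) (.nd (nat_lit 6) 
(.lf (nat_lit 134921) (.g (nat_lit 1459) (.e (nat_lit 16461) (nat_lit 12) (.e (nat_lit 475207) (nat_lit 41) (.e (nat_lit 712755) (nat_lit 30) (.e (nat_lit 450563) (nat_lit 0) (.e (nat_lit 4754) (nat_lit 281) (.e (nat_lit 1127) (nat_lit 83) .nil)))))) (.g (nat_lit 4) .nil .nil))) 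
(.lf (nat_lit 134985) (.g (nat_lit 705) (.e (nat_lit 16463) (nat_lit 13) (.e (nat_lit 483408) (nat_lit 26) (.e (nat_lit 385097) (nat_lit 49) .nil))) .nil))) (.nd (nat_lit 6) 
(.lf (nat_lit 134953) (.g (nat_lit 1021) (.e (nat_lit 16463) (nat_lit 13) (.e (nat_lit 483383) (nat_lit 23) (.e (nat_lit 336000) (nat_lit 1) .nil))) .nil)) 
(.lf (nat_lit 135017) (.g (nat_lit 1261) (.e (nat_lit 16465) (nat_lit 13) (.e (nat_lit 491264) (nat_lit 7) (.e (nat_lit 409642) (nat_lit 17) (.e (nat_lit 294927) (nat_lit 2) (.e (nat_lit 98048) (nat_lit 2) .nil))))) (.g (nat_lit 4) .nil .nil))))) (.nd (nat_lit 5) (.nd (nat_lit 6) 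
(.lf (nat_lit 134937) (.g (nat_lit 952) (.e (nat_lit 16462) (nat_lit 13) (.e (nat_lit 483413) (nat_lit 27) (.e (nat_lit 401439) (nat_lit 9) .nil))) .nil)) 
(.lf (nat_lit 135001) (.g (nat_lit 1104) (.e (nat_lit 16464) (nat_lit 13) (.e (nat_lit 491264) (nat_lit 16) (.e (nat_lit 491546) (nat_lit 9) (.e (nat_lit 336013) (nat_lit 2) (.e (nat_lit 98048) (nat_lit 2) .nil))))) (.g (nat_lit 4) .nil .nil)))) (.nd (nat_lit 6) 
(.lf (nat_lit 134969) (.g (nat_lit 1819) (.e (nat_lit 16463) (nat_lit 13) (.e (nat_lit 483393) (nat_lit 23) (.e (nat_lit 335988) (nat_lit 1) (.e (nat_lit 57851) (nat_lit 252) (.e (nat_lit 57382) (nat_lit 4) (.e (nat_lit 106536) (nat_lit 11) .nil)))))) (.g (nat_lit 4) .nil .nil))) 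
(.lf (nat_lit 135033) (.g (nat_lit 3503) (.e (nat_lit 16465) (nat_lit 13) (.e (nat_lit 483341) (nat_lit 9) (.e (nat_lit 426098) (nat_lit 1) (.e (nat_lit 164327) (nat_lit 230) (.e (nat_lit 163871) (nat_lit 2) (.e (nat_lit 196653) (nat_lit 11) .nil)))))) (.g (nat_lit 0) .nil .nil))))))) (.nd (nat_lit 3) (.nd (nat_lit 4) (.nd (nat_lit 5) (.nd (nat_lit 6) 
(.lf (nat_lit 134917) (.g (nat_lit 1275) (.e (nat_lit 16461) (nat_lit 12) (.e (nat_lit 475198) (nat_lit 40) (.e (nat_lit 704595) (nat_lit 5) (.e (nat_lit 188160) (nat_lit 45) .nil)))) .nil)) 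
(.lf (nat_lit 134981) (.g (nat_lit 3274) (.e (nat_lit 16463) (nat_lit 13) (.e (nat_lit 483393) (nat_lit 23) (.e (nat_lit 335996) (nat_lit 1) (.e (nat_lit 57852) (nat_lit 252) (.e (nat_lit 57384) (nat_lit 4) (.e (nat_lit 106536) (nat_lit 11) .nil)))))) (.g (nat_lit 0) .nil .nil)))) (.nd (nat_lit 6) 
(.lf (nat_lit 134949) (.g (nat_lit 1141) (.e (nat_lit 16463) (nat_lit 13) (.e (nat_lit 483363) (nat_lit 18) (.e (nat_lit 57688) (nat_lit 156) .nil))) .nil)) 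
(.lf (nat_lit 135013) (.g (nat_lit 885) (.e (nat_lit 16464) (nat_lit 13) (.e (nat_lit 483411) (nat_lit 27) (.e (nat_lit 401434) (nat_lit 9) .nil))) .nil)))) (.nd (nat_lit 5) (.nd (nat_lit 6) 
(.lf (nat_lit 134933) (.g (nat_lit 1912) (.e (nat_lit 16462) (nat_lit 13) (.e (nat_lit 483403) (nat_lit 26) (.e (nat_lit 385109) (nat_lit 51) (.e (nat_lit 802560) (nat_lit 4) .nil)))) .nil)) 
(.lf (nat_lit 134997) (.g (nat_lit 1474) (.e (nat_lit 16463) (nat_lit 13) (.e (nat_lit 483413) (nat_lit 27) (.e (nat_lit 401440) (nat_lit 9) (.e (nat_lit 426025) (nat_lit 0) .nil)))) .nil))) (.nd (nat_lit 6) 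
(.lf (nat_lit 134965) (.g (nat_lit 2532) (.e (nat_lit 16463) (nat_lit 13) (.e (nat_lit 483393) (nat_lit 23) (.e (nat_lit 335987) (nat_lit 1) (.e (nat_lit 57852) (nat_lit 252) (.e (nat_lit 57384) (nat_lit 4) (.e (nat_lit 106536) (nat_lit 11) .nil)))))) (.g (nat_lit 0) .nil .nil))) 
(.lf (nat_lit 135029) (.g (nat_lit 3341) (.e (nat_lit 16465) (nat_lit 13) (.e (nat_lit 483341) (nat_lit 9) (.e (nat_lit 426098) (nat_lit 1) (.e (nat_lit 164325) (nat_lit 230) (.e (nat_lit 163871) (nat_lit 2) (.e (nat_lit 196655) (nat_lit 11) .nil)))))) (.g (nat_lit 0) .nil .nil)))))) (.nd (nat_lit 4) (.nd (nat_lit 5) (.nd (nat_lit 6) 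
(.lf (nat_lit 134925) (.g (nat_lit 1206) (.e (nat_lit 16462) (nat_lit 13) (.e (nat_lit 491264) (nat_lit 16) (.e (nat_lit 491546) (nat_lit 9) (.e (nat_lit 336013) (nat_lit 2) (.e (nat_lit 98048) (nat_lit 2) .nil))))) (.g (nat_lit 4) .nil .nil))) 
(.lf (nat_lit 134989) (.g (nat_lit 1646) (.e (nat_lit 16463) (nat_lit 13) (.e (nat_lit 483411) (nat_lit 27) (.e (nat_lit 401448) (nat_lit 10) (.e (nat_lit 434290) (nat_lit 44) .nil)))) .nil))) (.nd (nat_lit 6) 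
(.lf (nat_lit 134957) (.g (nat_lit 2874) (.e (nat_lit 16463) (nat_lit 13) (.e (nat_lit 483393) (nat_lit 23) (.e (nat_lit 335986) (nat_lit 1) (.e (nat_lit 57847) (nat_lit 252) (.e (nat_lit 57385) (nat_lit 4) (.e (nat_lit 106536) (nat_lit 11) .nil)))))) (.g (nat_lit 0) .nil .nil))) 
(.lf (nat_lit 135021) (.g (nat_lit 787) (.e (nat_lit 16465) (nat_lit 13) (.e (nat_lit 483341) (nat_lit 9) (.e (nat_lit 426009) (nat_lit 0) .nil))) .nil)))) (.nd (nat_lit 5) (.nd (nat_lit 6) 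
(.lf (nat_lit 134941) (.g (nat_lit 1511) (.e (nat_lit 16463) (nat_lit 13) (.e (nat_lit 483337) (nat_lit 9) (.e (nat_lit 426098) (nat_lit 1) (.e (nat_lit 164325) (nat_lit 230) (.e (nat_lit 163870) (nat_lit 2) .nil))))) .nil)) 
(.lf (nat_lit 135005) (.g (nat_lit 2425) (.e (nat_lit 16464) (nat_lit 13) (.e (nat_lit 483383) (nat_lit 23) (.e (nat_lit 336000) (nat_lit 1) (.e (nat_lit 57849) (nat_lit 252) (.e (nat_lit 57386) (nat_lit 4) .nil))))) .nil))) (.nd (nat_lit 6) 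
(.lf (nat_lit 134973) (.g (nat_lit 3052) (.e (nat_lit 16463) (nat_lit 13) (.e (nat_lit 483393) (nat_lit 23) (.e (nat_lit 335988) (nat_lit 1) (.e (nat_lit 57852) (nat_lit 252) (.e (nat_lit 57384) (nat_lit 4) (.e (nat_lit 106536) (nat_lit 11) .nil)))))) (.g (nat_lit 0) .nil .nil))) 
(.lf (nat_lit 135037) (.g (nat_lit 3516) (.e (nat_lit 16465) (nat_lit 13) (.e (nat_lit 483341) (nat_lit 9) (.e (nat_lit 426106) (nat_lit 1) (.e (nat_lit 164326) (nat_lit 230) (.e (nat_lit 163868) (nat_lit 2) (.e (nat_lit 196655) (nat_lit 11) .nil)))))) (.g (nat_lit 0) .nil .nil)))))))) (.nd (nat_lit 2) (.nd (nat_lit 3) (.nd (nat_lit 4) (.nd (nat_lit 5) (.nd (nat_lit 6) 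
(.lf (nat_lit 134915) (.g (nat_lit 609) (.e (nat_lit 16461) (nat_lit 12) (.e (nat_lit 475198) (nat_lit 40) (.e (nat_lit 704595) (nat_lit 5) .nil))) .nil)) 
(.lf (nat_lit 134979) (.g (nat_lit 1883) (.e (nat_lit 16463) (nat_lit 13) (.e (nat_lit 483393) (nat_lit 23) (.e (nat_lit 335996) (nat_lit 1) (.e (nat_lit 57852) (nat_lit 252) (.e (nat_lit 57382) (nat_lit 4) (.e (nat_lit 106536) (nat_lit 11) .nil)))))) (.g (nat_lit 4) .nil .nil)))) (.nd (nat_lit 6) 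
(.lf (nat_lit 134947) (.g (nat_lit 1218) (.e (nat_lit 16463) (nat_lit 13) (.e (nat_lit 483363) (nat_lit 18) (.e (nat_lit 57679) (nat_lit 153) .nil))) .nil)) 
(.lf (nat_lit 135011) (.g (nat_lit 2168) (.e (nat_lit 16464) (nat_lit 13) (.e (nat_lit 483393) (nat_lit 23) (.e (nat_lit 335996) (nat_lit 1) (.e (nat_lit 57851) (nat_lit 252) (.e (nat_lit 57382) (nat_lit 4) .nil))))) .nil)))) (.nd (nat_lit 5) (.nd (nat_lit 6) 
(.lf (nat_lit 134931) (.g (nat_lit 2056) (.e (nat_lit 16462) (nat_lit 13) (.e (nat_lit 483383) (nat_lit 23) (.e (nat_lit 336000) (nat_lit 1) (.e (nat_lit 57849) (nat_lit 252) (.e (nat_lit 57386) (nat_lit 4) .nil))))) .nil)) 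
(.lf (nat_lit 134995) (.g (nat_lit 1555) (.e (nat_lit 16463) (nat_lit 13) (.e (nat_lit 483412) (nat_lit 27) (.e (nat_lit 401444) (nat_lit 9) (.e (nat_lit 425987) (nat_lit 0) .nil)))) .nil))) (.nd (nat_lit 6) 
(.lf (nat_lit 134963) (.g (nat_lit 3661) (.e (nat_lit 16463) (nat_lit 13) (.e (nat_lit 483393) (nat_lit 23) (.e (nat_lit 335986) (nat_lit 1) (.e (nat_lit 57854) (nat_lit 252) (.e (nat_lit 57384) (nat_lit 4) (.e (nat_lit 106536) (nat_lit 11) .nil)))))) (.g (nat_lit 6) .nil .nil))) 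
(.lf (nat_lit 135027) (.g (nat_lit 3731) (.e (nat_lit 16465) (nat_lit 13) (.e (nat_lit 483341) (nat_lit 9) (.e (nat_lit 426098) (nat_lit 1) (.e (nat_lit 164325) (nat_lit 230) (.e (nat_lit 163868) (nat_lit 2) (.e (nat_lit 196655) (nat_lit 11) .nil)))))) (.g (nat_lit 0) .nil .nil)))))) (.nd (nat_lit 4) (.nd (nat_lit 5) (.nd (nat_lit 6) 
(.lf (nat_lit 134923) (.g (nat_lit 638) (.e (nat_lit 16461) (nat_lit 12) (.e (nat_lit 475210) (nat_lit 41) (.e (nat_lit 712749) (nat_lit 28) .nil))) .nil)) 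
(.lf (nat_lit 134987) (.g (nat_lit 203) (.e (nat_lit 16463) (nat_lit 13) (.e (nat_lit 483408) (nat_lit 26) (.e (nat_lit 385102) (nat_lit 50) .nil))) .nil))) (.nd (nat_lit 6) 
(.lf (nat_lit 134955) (.g (nat_lit 1187) (.e (nat_lit 16463) (nat_lit 13) (.e (nat_lit 483385) (nat_lit 23) (.e (nat_lit 336337) (nat_lit 20) (.e (nat_lit 229120) (nat_lit 4) .nil)))) .nil)) 
(.lf (nat_lit 135019) (.g (nat_lit 874) (.e (nat_lit 16465) (nat_lit 13) (.e (nat_lit 491264) (nat_lit 8) (.e (nat_lit 417827) (nat_lit 17) (.e (nat_lit 294927) (nat_lit 2) (.e (nat_lit 98048) (nat_lit 2) .nil))))) (.g (nat_lit 4) .nil .nil))))) (.nd (nat_lit 5) (.nd (nat_lit 6) 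
(.lf (nat_lit 134939) (.g (nat_lit 1438) (.e (nat_lit 16463) (nat_lit 13) (.e (nat_lit 491264) (nat_lit 7) (.e (nat_lit 409640) (nat_lit 17) (.e (nat_lit 294928) (nat_lit 2) (.e (nat_lit 98048) (nat_lit 2) .nil))))) (.g (nat_lit 4) .nil .nil))) 
(.lf (nat_lit 135003) (.g (nat_lit 2425) (.e (nat_lit 16464) (nat_lit 13) (.e (nat_lit 483383) (nat_lit 23) (.e (nat_lit 336000) (nat_lit 1) (.e (nat_lit 57848) (nat_lit 252) (.e (nat_lit 57386) (nat_lit 4) (.e (nat_lit 106536) (nat_lit 11) .nil)))))) (.g (nat_lit 4) .nil .nil)))) (.nd (nat_lit 6) 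
(.lf (nat_lit 134971) (.g (nat_lit 2297) (.e (nat_lit 16463) (nat_lit 13) (.e (nat_lit 483393) (nat_lit 23) (.e (nat_lit 335988) (nat_lit 1) (.e (nat_lit 57852) (nat_lit 252) (.e (nat_lit 57382) (nat_lit 4) (.e (nat_lit 106536) (nat_lit 11) .nil)))))) (.g (nat_lit 4) .nil .nil))) 
(.lf (nat_lit 135035) (.g (nat_lit 2030) (.e (nat_lit 16465) (nat_lit 13) (.e (nat_lit 483341) (nat_lit 9) (.e (nat_lit 426098) (nat_lit 1) (.e (nat_lit 164331) (nat_lit 230) .nil)))) .nil)))))) (.nd (nat_lit 3) (.nd (nat_lit 4) (.nd (nat_lit 5) (.nd (nat_lit 6) 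
(.lf (nat_lit 134919) (.g (nat_lit 1646) (.e (nat_lit 16461) (nat_lit 12) (.e (nat_lit 475207) (nat_lit 41) (.e (nat_lit 712755) (nat_lit 30) (.e (nat_lit 450562) (nat_lit 0) (.e (nat_lit 4805) (nat_lit 281) (.e (nat_lit 1126) (nat_lit 83) .nil)))))) (.g (nat_lit 4) .nil .nil))) 
(.lf (nat_lit 134983) (.g (nat_lit 580) (.e (nat_lit 16463) (nat_lit 13) (.e (nat_lit 483408) (nat_lit 26) (.e (nat_lit 385090) (nat_lit 49) .nil))) .nil))) (.nd (nat_lit 6) 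
(.lf (nat_lit 134951) (.g (nat_lit 1100) (.e (nat_lit 16463) (nat_lit 13) (.e (nat_lit 483363) (nat_lit 18) (.e (nat_lit 57692) (nat_lit 156) .nil))) .nil)) 
(.lf (nat_lit 135015) (.g (nat_lit 1562) (.e (nat_lit 16465) (nat_lit 13) (.e (nat_lit 491264) (nat_lit 7) (.e (nat_lit 409640) (nat_lit 17) (.e (nat_lit 294928) (nat_lit 2) (.e (nat_lit 98048) (nat_lit 2) .nil))))) (.g (nat_lit 4) .nil .nil))))) (.nd (nat_lit 5) (.nd (nat_lit 6) 
(.lf (nat_lit 134935) (.g (nat_lit 1784) (.e (nat_lit 16462) (nat_lit 13) (.e (nat_lit 483410) (nat_lit 27) (.e (nat_lit 401440) (nat_lit 9) (.e (nat_lit 426162) (nat_lit 6) .nil)))) .nil)) 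
(.lf (nat_lit 134999) (.g (nat_lit 3717) (.e (nat_lit 16463) (nat_lit 13) (.e (nat_lit 483413) (nat_lit 27) (.e (nat_lit 401448) (nat_lit 10) (.e (nat_lit 434291) (nat_lit 44) (.e (nat_lit 704737) (nat_lit 11) .nil))))) (.g (nat_lit 5) .nil .nil)))) (.nd (nat_lit 6) 
(.lf (nat_lit 134967) (.g (nat_lit 3012) (.e (nat_lit 16463) (nat_lit 13) (.e (nat_lit 483393) (nat_lit 23) (.e (nat_lit 335987) (nat_lit 1) (.e (nat_lit 57854) (nat_lit 252) (.e (nat_lit 57384) (nat_lit 4) (.e (nat_lit 106536) (nat_lit 11) .nil)))))) (.g (nat_lit 0) .nil .nil))) 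
(.lf (nat_lit 135031) (.g (nat_lit 2990) (.e (nat_lit 16465) (nat_lit 13) (.e (nat_lit 483341) (nat_lit 9) (.e (nat_lit 426098) (nat_lit 1) (.e (nat_lit 164326) (nat_lit 230) (.e (nat_lit 163871) (nat_lit 2) (.e (nat_lit 196655) (nat_lit 11) .nil)))))) (.g (nat_lit 6) .nil .nil)))))) (.nd (nat_lit 4) (.nd (nat_lit 5) (.nd (nat_lit 6) 
(.lf (nat_lit 134927) (.g (nat_lit 1572) (.e (nat_lit 16462) (nat_lit 13) (.e (nat_lit 483350) (nat_lit 17) (.e (nat_lit 6218) (nat_lit 333) (.e (nat_lit 57786) (nat_lit 245) .nil)))) .nil)) 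
(.lf (nat_lit 134991) (.g (nat_lit 2266) (.e (nat_lit 16463) (nat_lit 13) (.e (nat_lit 483412) (nat_lit 27) (.e (nat_lit 401434) (nat_lit 9) (.e (nat_lit 426160) (nat_lit 6) (.e (nat_lit 253988) (nat_lit 11) .nil))))) (.g (nat_lit 4) .nil .nil)))) (.nd (nat_lit 6) 
(.lf (nat_lit 134959) (.g (nat_lit 3071) (.e (nat_lit 16463) (nat_lit 13) (.e (nat_lit 483393) (nat_lit 23) (.e (nat_lit 335986) (nat_lit 1) (.e (nat_lit 57847) (nat_lit 252) (.e (nat_lit 57386) (nat_lit 4) (.e (nat_lit 106536) (nat_lit 11) .nil)))))) (.g (nat_lit 0) .nil .nil))) 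
(.lf (nat_lit 135023) (.g (nat_lit 790) (.e (nat_lit 16465) (nat_lit 13) (.e (nat_lit 483341) (nat_lit 9) (.e (nat_lit 426028) (nat_lit 0) .nil))) .nil)))) (.nd (nat_lit 5) (.nd (nat_lit 6) 
(.lf (nat_lit 134943) (.g (nat_lit 2798) (.e (nat_lit 16463) (nat_lit 13) (.e (nat_lit 483341) (nat_lit 9) (.e (nat_lit 426106) (nat_lit 1) (.e (nat_lit 164327) (nat_lit 230) (.e (nat_lit 163870) (nat_lit 2) (.e (nat_lit 196654) (nat_lit 11) .nil)))))) (.g (nat_lit 4) .nil .nil))) 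
(.lf (nat_lit 135007) (.g (nat_lit 1167) (.e (nat_lit 16464) (nat_lit 13) (.e (nat_lit 483383) (nat_lit 23) (.e (nat_lit 336334) (nat_lit 20) .nil))) .nil))) (.nd (nat_lit 6) 
(.lf (nat_lit 134975) (.g (nat_lit 2399) (.e (nat_lit 16463) (nat_lit 13) (.e (nat_lit 483393) (nat_lit 23) (.e (nat_lit 335988) (nat_lit 1) (.e (nat_lit 57854) (nat_lit 252) (.e (nat_lit 57384) (nat_lit 4) (.e (nat_lit 106535) (nat_lit 11) .nil)))))) (.g (nat_lit 4) .nil .nil))) 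
(.lf (nat_lit 135039) (.g (nat_lit 2684) (.e (nat_lit 16465) (nat_lit 13) (.e (nat_lit 483341) (nat_lit 9) (.e (nat_lit 426107) (nat_lit 1) (.e (nat_lit 164324) (nat_lit 230) (.e (nat_lit 163871) (nat_lit 2) .nil))))) .nil)))))))))

noncomputable def tv1800 : DT := (.nd (nat_lit 0) (.nd (nat_lit 1) (.nd (nat_lit 2) (.nd (nat_lit 3) (.nd (nat_lit 4) (.nd (nat_lit 5) (.nd (nat_lit 6) 
(.lf (nat_lit 135040) (.g (nat_lit 1660) (.e (nat_lit 16465) (nat_lit 13) (.e (nat_lit 483341) (nat_lit 9) (.e (nat_lit 426107) (nat_lit 1) (.e (nat_lit 164327) (nat_lit 230) (.e (nat_lit 163866) (nat_lit 2) (.e (nat_lit 196655) (nat_lit 11) .nil)))))) (.g (nat_lit 4) .nil .nil))) 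
(.lf (nat_lit 135104) (.g (nat_lit 889) (.e (nat_lit 16465) (nat_lit 13) (.e (nat_lit 483410) (nat_lit 27) (.e (nat_lit 401444) (nat_lit 9) .nil))) .nil))) (.nd (nat_lit 6) 
(.lf (nat_lit 135072) (.g (nat_lit 2499) (.e (nat_lit 16465) (nat_lit 13) (.e (nat_lit 483393) (nat_lit 23) (.e (nat_lit 335986) (nat_lit 1) (.e (nat_lit 57847) (nat_lit 252) (.e (nat_lit 57385) (nat_lit 4) (.e (nat_lit 106536) (nat_lit 11) .nil)))))) (.g (nat_lit 0) .nil .nil))) 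
(.lf (nat_lit 135136) (.g (nat_lit 1810) (.e (nat_lit 16466) (nat_lit 13) (.e (nat_lit 483372) (nat_lit 21) (.e (nat_lit 319505) (nat_lit 10) (.e (nat_lit 4965) (nat_lit 287) .nil)))) .nil)))) (.nd (nat_lit 5) (.nd (nat_lit 6) 
(.lf (nat_lit 135056) (.g (nat_lit 1156) (.e (nat_lit 16465) (nat_lit 13) (.e (nat_lit 483371) (nat_lit 21) (.e (nat_lit 319506) (nat_lit 10) (.e (nat_lit 4868) (nat_lit 287) .nil)))) .nil)) 
(.lf (nat_lit 135120) (.g (nat_lit 485) (.e (nat_lit 16466) (nat_lit 13) (.e (nat_lit 483346) (nat_lit 17) (.e (nat_lit 6624) (nat_lit 357) .nil))) .nil))) (.nd (nat_lit 6) 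
(.lf (nat_lit 135088) (.g (nat_lit 1466) (.e (nat_lit 16465) (nat_lit 13) (.e (nat_lit 491264) (nat_lit 23) (.e (nat_lit 335986) (nat_lit 1) (.e (nat_lit 57847) (nat_lit 252) (.e (nat_lit 57386) (nat_lit 4) (.e (nat_lit 106536) (nat_lit 11) .nil)))))) (.g (nat_lit 4) .nil .nil))) 
(.lf (nat_lit 135152) (.g (nat_lit 3631) (.e (nat_lit 16466) (nat_lit 13) (.e (nat_lit 483393) (nat_lit 23) (.e (nat_lit 335986) (nat_lit 1) (.e (nat_lit 57854) (nat_lit 252) (.e (nat_lit 57384) (nat_lit 4) (.e (nat_lit 106534) (nat_lit 11) .nil)))))) (.g (nat_lit 6) .nil .nil)))))) (.nd (nat_lit 4) (.nd (nat_lit 5) (.nd (nat_lit 6) 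
(.lf (nat_lit 135048) (.g (nat_lit 2059) (.e (nat_lit 16465) (nat_lit 13) (.e (nat_lit 483344) (nat_lit 17) (.e (nat_lit 6718) (nat_lit 361) (.e (nat_lit 172076) (nat_lit 6) (.e (nat_lit 253989) (nat_lit 11) .nil))))) (.g (nat_lit 4) .nil .nil))) 
(.lf (nat_lit 135112) (.g (nat_lit 2310) (.e (nat_lit 16465) (nat_lit 13) (.e (nat_lit 483411) (nat_lit 27) (.e (nat_lit 401448) (nat_lit 10) (.e (nat_lit 434291) (nat_lit 44) (.e (nat_lit 704735) (nat_lit 11) .nil))))) (.g (nat_lit 5) .nil .nil)))) (.nd (nat_lit 6) 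
(.lf (nat_lit 135080) (.g (nat_lit 2155) (.e (nat_lit 16465) (nat_lit 13) (.e (nat_lit 483393) (nat_lit 23) (.e (nat_lit 335987) (nat_lit 1) (.e (nat_lit 57852) (nat_lit 252) (.e (nat_lit 57384) (nat_lit 4) (.e (nat_lit 106536) (nat_lit 11) .nil)))))) (.g (nat_lit 0) .nil .nil))) 
(.lf (nat_lit 135144) (.g (nat_lit 2105) (.e (nat_lit 16466) (nat_lit 13) (.e (nat_lit 483393) (nat_lit 23) (.e (nat_lit 335986) (nat_lit 1) (.e (nat_lit 57847) (nat_lit 252) (.e (nat_lit 57383) (nat_lit 4) (.e (nat_lit 114432) (nat_lit 11) .nil)))))) (.g (nat_lit 4) .nil .nil))))) (.nd (nat_lit 5) (.nd (nat_lit 6) 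
(.lf (nat_lit 135064) (.g (nat_lit 461) (.e (nat_lit 16465) (nat_lit 13) (.e (nat_lit 483383) (nat_lit 23) (.e (nat_lit 335878) (nat_lit 0) .nil))) .nil)) 
(.lf (nat_lit 135128) (.g (nat_lit 1751) (.e (nat_lit 16466) (nat_lit 13) (.e (nat_lit 483350) (nat_lit 17) (.e (nat_lit 6218) (nat_lit 333) (.e (nat_lit 57796) (nat_lit 245) .nil)))) .nil))) (.nd (nat_lit 6) 
(.lf (nat_lit 135096) (.g (nat_lit 2269) (.e (nat_lit 16465) (nat_lit 13) (.e (nat_lit 483406) (nat_lit 26) (.e (nat_lit 385109) (nat_lit 51) (.e (nat_lit 794624) (nat_lit 0) .nil)))) .nil)) 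
(.lf (nat_lit 135160) (.g (nat_lit 2091) (.e (nat_lit 16466) (nat_lit 13) (.e (nat_lit 483393) (nat_lit 23) (.e (nat_lit 335987) (nat_lit 1) (.e (nat_lit 57852) (nat_lit 252) (.e (nat_lit 57382) (nat_lit 4) (.e (nat_lit 106534) (nat_lit 11) .nil)))))) (.g (nat_lit 4) .nil .nil))))))) (.nd (nat_lit 3) (.nd (nat_lit 4) (.nd (nat_lit 5) (.nd (nat_lit 6) 
(.lf (nat_lit 135044) (.g (nat_lit 1496) (.e (nat_lit 16465) (nat_lit 13) (.e (nat_lit 491264) (nat_lit 16) (.e (nat_lit 491546) (nat_lit 9) (.e (nat_lit 336013) (nat_lit 2) (.e (nat_lit 98048) (nat_lit 2) .nil))))) (.g (nat_lit 4) .nil .nil))) 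
(.lf (nat_lit 135108) (.g (nat_lit 1309) (.e (nat_lit 16465) (nat_lit 13) (.e (nat_lit 483411) (nat_lit 27) (.e (nat_lit 401440) (nat_lit 9) (.e (nat_lit 426162) (nat_lit 6) .nil)))) .nil))) (.nd (nat_lit 6) 
(.lf (nat_lit 135076) (.g (nat_lit 2489) (.e (nat_lit 16465) (nat_lit 13) (.e (nat_lit 483393) (nat_lit 23) (.e (nat_lit 335986) (nat_lit 1) (.e (nat_lit 57849) (nat_lit 252) (.e (nat_lit 57385) (nat_lit 4) (.e (nat_lit 106536) (nat_lit 11) .nil)))))) (.g (nat_lit 0) .nil .nil))) 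
(.lf (nat_lit 135140) (.g (nat_lit 1919) (.e (nat_lit 16466) (nat_lit 13) (.e (nat_lit 483372) (nat_lit 21) (.e (nat_lit 319534) (nat_lit 16) (.e (nat_lit 286724) (nat_lit 0) .nil)))) .nil)))) (.nd (nat_lit 5) (.nd (nat_lit 6) 
(.lf (nat_lit 135060) (.g (nat_lit 746) (.e (nat_lit 16465) (nat_lit 13) (.e (nat_lit 483372) (nat_lit 21) (.e (nat_lit 319531) (nat_lit 16) .nil))) .nil)) 
(.lf (nat_lit 135124) (.g (nat_lit 1184) (.e (nat_lit 16466) (nat_lit 13) (.e (nat_lit 483346) (nat_lit 17) (.e (nat_lit 6720) (nat_lit 361) (.e (nat_lit 172074) (nat_lit 6) .nil)))) .nil))) (.nd (nat_lit 6) 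
(.lf (nat_lit 135092) (.g (nat_lit 2236) (.e (nat_lit 16465) (nat_lit 13) (.e (nat_lit 483395) (nat_lit 24) (.e (nat_lit 344160) (nat_lit 37) (.e (nat_lit 647200) (nat_lit 12) (.e (nat_lit 57508) (nat_lit 39) (.e (nat_lit 647199) (nat_lit 11) .nil)))))) (.g (nat_lit 4) .nil .nil))) 
(.lf (nat_lit 135156) (.g (nat_lit 1647) (.e (nat_lit 16466) (nat_lit 13) (.e (nat_lit 483393) (nat_lit 23) (.e (nat_lit 335987) (nat_lit 1) (.e (nat_lit 57830) (nat_lit 250) (.e (nat_lit 1183) (nat_lit 87) (.e (nat_lit 57530) (nat_lit 46) (.e (nat_lit 712448) (nat_lit 11) .nil))))))) (.g (nat_lit 4) .nil .nil)))))) (.nd (nat_lit 4) (.nd (nat_lit 5) (.nd (nat_lit 6) 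
(.lf (nat_lit 135052) (.g (nat_lit 633) (.e (nat_lit 16465) (nat_lit 13) (.e (nat_lit 483365) (nat_lit 18) (.e (nat_lit 57665) (nat_lit 152) .nil))) .nil)) 
(.lf (nat_lit 135116) (.g (nat_lit 2226) (.e (nat_lit 16466) (nat_lit 13) (.e (nat_lit 483337) (nat_lit 9) (.e (nat_lit 426107) (nat_lit 1) (.e (nat_lit 164325) (nat_lit 230) (.e (nat_lit 163844) (nat_lit 0) .nil))))) .nil))) (.nd (nat_lit 6) 
(.lf (nat_lit 135084) (.g (nat_lit 2678) (.e (nat_lit 16465) (nat_lit 13) (.e (nat_lit 483393) (nat_lit 23) (.e (nat_lit 335988) (nat_lit 1) (.e (nat_lit 57852) (nat_lit 252) (.e (nat_lit 57384) (nat_lit 4) (.e (nat_lit 106536) (nat_lit 11) .nil)))))) (.g (nat_lit 0) .nil .nil))) 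
(.lf (nat_lit 135148) (.g (nat_lit 1814) (.e (nat_lit 16466) (nat_lit 13) (.e (nat_lit 483393) (nat_lit 23) (.e (nat_lit 335986) (nat_lit 1) (.e (nat_lit 57849) (nat_lit 252) (.e (nat_lit 57353) (nat_lit 0) (.e (nat_lit 2044) (nat_lit 142) (.e (nat_lit 704734) (nat_lit 11) .nil))))))) (.g (nat_lit 4) .nil .nil))))) (.nd (nat_lit 5) (.nd (nat_lit 6) 
(.lf (nat_lit 135068) (.g (nat_lit 903) (.e (nat_lit 16465) (nat_lit 13) (.e (nat_lit 483383) (nat_lit 23) (.e (nat_lit 336000) (nat_lit 1) (.e (nat_lit 57849) (nat_lit 252) .nil)))) .nil)) 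
(.lf (nat_lit 135132) (.g (nat_lit 1639) (.e (nat_lit 16466) (nat_lit 13) (.e (nat_lit 483350) (nat_lit 17) (.e (nat_lit 6218) (nat_lit 333) (.e (nat_lit 57815) (nat_lit 246) .nil)))) .nil))) (.nd (nat_lit 6) 
(.lf (nat_lit 135100) (.g (nat_lit 1959) (.e (nat_lit 16465) (nat_lit 13) (.e (nat_lit 483409) (nat_lit 27) (.e (nat_lit 401448) (nat_lit 10) (.e (nat_lit 434291) (nat_lit 44) (.e (nat_lit 704736) (nat_lit 11) .nil))))) (.g (nat_lit 4) .nil .nil))) 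
(.lf (nat_lit 135164) (.g (nat_lit 2653) (.e (nat_lit 16466) (nat_lit 13) (.e (nat_lit 483393) (nat_lit 23) (.e (nat_lit 335988) (nat_lit 1) (.e (nat_lit 57830) (nat_lit 250) (.e (nat_lit 1183) (nat_lit 87) (.e (nat_lit 57525) (nat_lit 46) (.e (nat_lit 704734) (nat_lit 11) .nil))))))) (.g (nat_lit 5) .nil .nil)))))))) 
(.nd (nat_lit 2) (.nd (nat_lit 3) (.nd (nat_lit 4) (.nd (nat_lit 5) (.nd (nat_lit 6) 
(.lf (nat_lit 135042) (.g (nat_lit 2605) (.e (nat_lit 16465) (nat_lit 13) (.e (nat_lit 483341) (nat_lit 9) (.e (nat_lit 426108) (nat_lit 1) (.e (nat_lit 164332) (nat_lit 230) (.e (nat_lit 163865) (nat_lit 2) .nil))))) .nil)) 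
(.lf (nat_lit 135106) (.g (nat_lit 983) (.e (nat_lit 16465) (nat_lit 13) (.e (nat_lit 483411) (nat_lit 27) (.e (nat_lit 401439) (nat_lit 9) .nil))) .nil))) (.nd (nat_lit 6) 
(.lf (nat_lit 135074) (.g (nat_lit 2671) (.e (nat_lit 16465) (nat_lit 13) (.e (nat_lit 483393) (nat_lit 23) (.e (nat_lit 335986) (nat_lit 1) (.e (nat_lit 57847) (nat_lit 252) (.e (nat_lit 57386) (nat_lit 4) (.e (nat_lit 106536) (nat_lit 11) .nil)))))) (.g (nat_lit 0) .nil .nil))) 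
(.lf (nat_lit 135138) (.g (nat_lit 1424) (.e (nat_lit 16466) (nat_lit 13) (.e (nat_lit 483372) (nat_lit 21) (.e (nat_lit 319506) (nat_lit 10) (.e (nat_lit 4995) (nat_lit 288) .nil)))) .nil)))) (.nd (nat_lit 5) (.nd (nat_lit 6) 
(.lf (nat_lit 135058) (.g (nat_lit 799) (.e (nat_lit 16465) (nat_lit 13) (.e (nat_lit 483372) (nat_lit 21) (.e (nat_lit 319503) (nat_lit 10) .nil))) .nil)) 
(.lf (nat_lit 135122) (.g (nat_lit 467) (.e (nat_lit 16466) (nat_lit 13) (.e (nat_lit 483346) (nat_lit 17) (.e (nat_lit 6718) (nat_lit 361) .nil))) .nil))) (.nd (nat_lit 6) 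
(.lf (nat_lit 135090) (.g (nat_lit 2313) (.e (nat_lit 16465) (nat_lit 13) (.e (nat_lit 483395) (nat_lit 24) (.e (nat_lit 344156) (nat_lit 36) (.e (nat_lit 639017) (nat_lit 15) (.e (nat_lit 57540) (nat_lit 46) (.e (nat_lit 704735) (nat_lit 11) .nil)))))) (.g (nat_lit 4) .nil .nil))) 
(.lf (nat_lit 135154) (.g (nat_lit 348) (.e (nat_lit 16466) (nat_lit 13) (.e (nat_lit 483393) (nat_lit 23) (.e (nat_lit 335987) (nat_lit 1) .nil))) .nil))))) (.nd (nat_lit 4) (.nd (nat_lit 5) (.nd (nat_lit 6) 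
(.lf (nat_lit 135050) (.g (nat_lit 1778) (.e (nat_lit 16465) (nat_lit 13) (.e (nat_lit 483344) (nat_lit 17) (.e (nat_lit 6722) (nat_lit 362) (.e (nat_lit 180271) (nat_lit 26) (.e (nat_lit 704735) (nat_lit 11) .nil))))) (.g (nat_lit 4) .nil .nil))) 
(.lf (nat_lit 135114) (.g (nat_lit 1573) (.e (nat_lit 16465) (nat_lit 13) (.e (nat_lit 483411) (nat_lit 27) (.e (nat_lit 401448) (nat_lit 10) (.e (nat_lit 442112) (nat_lit 44) .nil)))) .nil))) (.nd (nat_lit 6) 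
(.lf (nat_lit 135082) (.g (nat_lit 1938) (.e (nat_lit 16465) (nat_lit 13) (.e (nat_lit 483393) (nat_lit 23) (.e (nat_lit 335988) (nat_lit 1) (.e (nat_lit 57852) (nat_lit 252) (.e (nat_lit 57382) (nat_lit 4) (.e (nat_lit 106534) (nat_lit 11) .nil)))))) (.g (nat_lit 4) .nil .nil))) 
(.lf (nat_lit 135146) (.g (nat_lit 2277) (.e (nat_lit 16466) (nat_lit 13) (.e (nat_lit 483393) (nat_lit 23) (.e (nat_lit 335986) (nat_lit 1) (.e (nat_lit 57847) (nat_lit 252) (.e (nat_lit 57384) (nat_lit 4) (.e (nat_lit 106536) (nat_lit 11) .nil)))))) (.g (nat_lit 4) .nil .nil))))) (.nd (nat_lit 5) (.nd (nat_lit 6) 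
(.lf (nat_lit 135066) (.g (nat_lit 941) (.e (nat_lit 16465) (nat_lit 13) (.e (nat_lit 483383) (nat_lit 23) (.e (nat_lit 335999) (nat_lit 1) (.e (nat_lit 57848) (nat_lit 252) .nil)))) .nil)) 
(.lf (nat_lit 135130) (.g (nat_lit 1751) (.e (nat_lit 16466) (nat_lit 13) (.e (nat_lit 483350) (nat_lit 17) (.e (nat_lit 6218) (nat_lit 333) (.e (nat_lit 57808) (nat_lit 246) .nil)))) .nil))) (.nd (nat_lit 6) 
(.lf (nat_lit 135098) (.g (nat_lit 1275) (.e (nat_lit 16465) (nat_lit 13) (.e (nat_lit 483409) (nat_lit 27) (.e (nat_lit 401438) (nat_lit 9) (.e (nat_lit 426157) (nat_lit 6) .nil)))) .nil)) 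
(.lf (nat_lit 135162) (.g (nat_lit 2329) (.e (nat_lit 16466) (nat_lit 13) (.e (nat_lit 483393) (nat_lit 23) (.e (nat_lit 335987) (nat_lit 1) (.e (nat_lit 57854) (nat_lit 252) (.e (nat_lit 57347) (nat_lit 0) (.e (nat_lit 2078) (nat_lit 142) (.e (nat_lit 704734) (nat_lit 11) .nil))))))) (.g (nat_lit 5) .nil .nil))))))) (.nd (nat_lit 3) (.nd (nat_lit 4) (.nd (nat_lit 5) (.nd (nat_lit 6) 
(.lf (nat_lit 135046) (.g (nat_lit 1408) (.e (nat_lit 16465) (nat_lit 13) (.e (nat_lit 491264) (nat_lit 16) (.e (nat_lit 491554) (nat_lit 9) (.e (nat_lit 336013) (nat_lit 2) (.e (nat_lit 98048) (nat_lit 2) .nil))))) (.g (nat_lit 4) .nil .nil))) 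
(.lf (nat_lit 135110) (.g (nat_lit 517) (.e (nat_lit 16465) (nat_lit 13) (.e (nat_lit 483411) (nat_lit 27) (.e (nat_lit 401444) (nat_lit 9) .nil))) .nil))) (.nd (nat_lit 6) 
(.lf (nat_lit 135078) (.g (nat_lit 2784) (.e (nat_lit 16465) (nat_lit 13) (.e (nat_lit 483393) (nat_lit 23) (.e (nat_lit 335986) (nat_lit 1) (.e (nat_lit 57849) (nat_lit 252) (.e (nat_lit 57386) (nat_lit 4) (.e (nat_lit 106536) (nat_lit 11) .nil)))))) (.g (nat_lit 0) .nil .nil))) 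
(.lf (nat_lit 135142) (.g (nat_lit 2092) (.e (nat_lit 16466) (nat_lit 13) (.e (nat_lit 483393) (nat_lit 23) (.e (nat_lit 335986) (nat_lit 1) (.e (nat_lit 57847) (nat_lit 252) (.e (nat_lit 57348) (nat_lit 0) (.e (nat_lit 2078) (nat_lit 142) (.e (nat_lit 704734) (nat_lit 11) .nil))))))) (.g (nat_lit 4) .nil .nil))))) (.nd (nat_lit 5) (.nd (nat_lit 6) 
(.lf (nat_lit 135062) (.g (nat_lit 789) (.e (nat_lit 16465) (nat_lit 13) (.e (nat_lit 483372) (nat_lit 21) (.e (nat_lit 319537) (nat_lit 19) .nil))) .nil)) 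
(.lf (nat_lit 135126) (.g (nat_lit 3641) (.e (nat_lit 16466) (nat_lit 13) (.e (nat_lit 483350) (nat_lit 17) (.e (nat_lit 6113) (nat_lit 332) (.e (nat_lit 1374) (nat_lit 104) (.e (nat_lit 303122) (nat_lit 6) .nil))))) .nil))) (.nd (nat_lit 6) 
(.lf (nat_lit 135094) (.g (nat_lit 578) (.e (nat_lit 16465) (nat_lit 13) (.e (nat_lit 483403) (nat_lit 26) (.e (nat_lit 385109) (nat_lit 51) .nil))) .nil)) 
(.lf (nat_lit 135158) (.g (nat_lit 2188) (.e (nat_lit 16466) (nat_lit 13) (.e (nat_lit 483393) (nat_lit 23) (.e (nat_lit 335987) (nat_lit 1) (.e (nat_lit 57830) (nat_lit 250) (.e (nat_lit 1183) (nat_lit 87) (.e (nat_lit 57532) (nat_lit 46) (.e (nat_lit 712448) (nat_lit 11) .nil))))))) (.g (nat_lit 5) .nil .nil)))))) (.nd (nat_lit 4) (.nd (nat_lit 5) (.nd (nat_lit 6) 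
(.lf (nat_lit 135054) (.g (nat_lit 1659) (.e (nat_lit 16465) (nat_lit 13) (.e (nat_lit 483365) (nat_lit 18) (.e (nat_lit 57692) (nat_lit 156) (.e (nat_lit 163895) (nat_lit 10) (.e (nat_lit 409631) (nat_lit 12) .nil))))) .nil)) 
(.lf (nat_lit 135118) (.g (nat_lit 3275) (.e (nat_lit 16466) (nat_lit 13) (.e (nat_lit 483341) (nat_lit 9) (.e (nat_lit 426106) (nat_lit 1) (.e (nat_lit 164326) (nat_lit 230) (.e (nat_lit 163870) (nat_lit 2) (.e (nat_lit 196654) (nat_lit 11) .nil)))))) (.g (nat_lit 0) .nil .nil)))) (.nd (nat_lit 6) 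
(.lf (nat_lit 135086) (.g (nat_lit 2284) (.e (nat_lit 16465) (nat_lit 13) (.e (nat_lit 483393) (nat_lit 23) (.e (nat_lit 335996) (nat_lit 1) (.e (nat_lit 57852) (nat_lit 252) (.e (nat_lit 57384) (nat_lit 4) (.e (nat_lit 106534) (nat_lit 11) .nil)))))) (.g (nat_lit 4) .nil .nil))) 
(.lf (nat_lit 135150) (.g (nat_lit 2417) (.e (nat_lit 16466) (nat_lit 13) (.e (nat_lit 483393) (nat_lit 23) (.e (nat_lit 335986) (nat_lit 1) (.e (nat_lit 57849) (nat_lit 252) (.e (nat_lit 57386) (nat_lit 4) (.e (nat_lit 106535) (nat_lit 11) .nil)))))) (.g (nat_lit 5) .nil .nil))))) (.nd (nat_lit 5) (.nd (nat_lit 6) 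
(.lf (nat_lit 135070) (.g (nat_lit 774) (.e (nat_lit 16465) (nat_lit 13) (.e (nat_lit 483383) (nat_lit 23) (.e (nat_lit 336337) (nat_lit 20) .nil))) .nil)) 
(.lf (nat_lit 135134) (.g (nat_lit 1158) (.e (nat_lit 16466) (nat_lit 13) (.e (nat_lit 483371) (nat_lit 21) (.e (nat_lit 319506) (nat_lit 10) (.e (nat_lit 4868) (nat_lit 287) .nil)))) .nil))) (.nd (nat_lit 6) 
(.lf (nat_lit 135102) (.g (nat_lit 1401) (.e (nat_lit 16465) (nat_lit 13) (.e (nat_lit 483410) (nat_lit 27) (.e (nat_lit 401440) (nat_lit 9) (.e (nat_lit 426158) (nat_lit 6) .nil)))) .nil)) 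
(.lf (nat_lit 135166) (.g (nat_lit 2125) (.e (nat_lit 16466) (nat_lit 13) (.e (nat_lit 483393) (nat_lit 23) (.e (nat_lit 335988) (nat_lit 1) (.e (nat_lit 57830) (nat_lit 250) (.e (nat_lit 1183) (nat_lit 87) (.e (nat_lit 57531) (nat_lit 46) (.e (nat_lit 712448) (nat_lit 11) .nil))))))) (.g (nat_lit 4) .nil .nil))))))))) 
(.nd (nat_lit 1) (.nd (nat_lit 2) (.nd (nat_lit 3) (.nd (nat_lit 4) (.nd (nat_lit 5) 
(.nd (nat_lit 6) 
(.lf (nat_lit 135041) (.g (nat_lit 2001) (.e (nat_lit 16465) (nat_lit 13) (.e (nat_lit 483341) (nat_lit 9) (.e (nat_lit 426108) (nat_lit 1) (.e (nat_lit 164330) (nat_lit 230) (.e (nat_lit 163866) (nat_lit 2) .nil))))) .nil)) 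
(.lf (nat_lit 135105) (.g (nat_lit 2572) (.e (nat_lit 16465) (nat_lit 13) (.e (nat_lit 483411) (nat_lit 27) (.e (nat_lit 401434) (nat_lit 9) (.e (nat_lit 426160) (nat_lit 6) (.e (nat_lit 253988) (nat_lit 11) .nil))))) (.g (nat_lit 0) .nil .nil)))) (.nd (nat_lit 6) 
(.lf (nat_lit 135073) (.g (nat_lit 1893) (.e (nat_lit 16465) (nat_lit 13) (.e (nat_lit 483393) (nat_lit 23) (.e (nat_lit 335986) (nat_lit 1) (.e (nat_lit 57847) (nat_lit 252) (.e (nat_lit 57386) (nat_lit 4) (.e (nat_lit 106534) (nat_lit 11) .nil)))))) (.g (nat_lit 4) .nil .nil))) 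
(.lf (nat_lit 135137) (.g (nat_lit 1629) (.e (nat_lit 16466) (nat_lit 13) (.e (nat_lit 483372) (nat_lit 21) (.e (nat_lit 319506) (nat_lit 10) (.e (nat_lit 4994) (nat_lit 288) .nil)))) .nil)))) (.nd (nat_lit 5) (.nd (nat_lit 6) 
(.lf (nat_lit 135057) (.g (nat_lit 1027) (.e (nat_lit 16465) (nat_lit 13) (.e (nat_lit 483371) (nat_lit 21) (.e (nat_lit 319539) (nat_lit 19) (.e (nat_lit 311318) (nat_lit 6) .nil)))) .nil)) 
(.lf (nat_lit 135121) (.g (nat_lit 691) (.e (nat_lit 16466) (nat_lit 13) (.e (nat_lit 483346) (nat_lit 17) (.e (nat_lit 6624) (nat_lit 357) (.e (nat_lit 2963) (nat_lit 185) .nil)))) .nil))) (.nd (nat_lit 6) 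
(.lf (nat_lit 135089) (.g (nat_lit 1067) (.e (nat_lit 16465) (nat_lit 13) (.e (nat_lit 483395) (nat_lit 24) (.e (nat_lit 344156) (nat_lit 36) (.e (nat_lit 639006) (nat_lit 13) .nil)))) .nil)) 
(.lf (nat_lit 135153) (.g (nat_lit 3763) (.e (nat_lit 16466) (nat_lit 13) (.e (nat_lit 483393) (nat_lit 23) (.e (nat_lit 335986) (nat_lit 1) (.e (nat_lit 57854) (nat_lit 252) (.e (nat_lit 57384) (nat_lit 4) (.e (nat_lit 106536) (nat_lit 11) .nil)))))) (.g (nat_lit 6) .nil .nil)))))) (.nd (nat_lit 4) (.nd (nat_lit 5) (.nd (nat_lit 6) 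
(.lf (nat_lit 135049) (.g (nat_lit 403) (.e (nat_lit 16465) (nat_lit 13) (.e (nat_lit 483344) (nat_lit 17) (.e (nat_lit 6722) (nat_lit 362) .nil))) .nil)) 
(.lf (nat_lit 135113) (.g (nat_lit 2383) (.e (nat_lit 16465) (nat_lit 13) (.e (nat_lit 483411) (nat_lit 27) (.e (nat_lit 401448) (nat_lit 10) (.e (nat_lit 434291) (nat_lit 44) (.e (nat_lit 704736) (nat_lit 11) .nil))))) (.g (nat_lit 5) .nil .nil)))) (.nd (nat_lit 6) 
(.lf (nat_lit 135081) (.g (nat_lit 2647) (.e (nat_lit 16465) (nat_lit 13) (.e (nat_lit 483393) (nat_lit 23) (.e (nat_lit 335987) (nat_lit 1) (.e (nat_lit 57854) (nat_lit 252) (.e (nat_lit 57384) (nat_lit 4) (.e (nat_lit 106536) (nat_lit 11) .nil)))))) (.g (nat_lit 0) .nil .nil))) 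
(.lf (nat_lit 135145) (.g (nat_lit 2094) (.e (nat_lit 16466) (nat_lit 13) (.e (nat_lit 483393) (nat_lit 23) (.e (nat_lit 335986) (nat_lit 1) (.e (nat_lit 57847) (nat_lit 252) (.e (nat_lit 57384) (nat_lit 4) .nil))))) .nil)))) (.nd (nat_lit 5) (.nd (nat_lit 6) 
(.lf (nat_lit 135065) (.g (nat_lit 774) (.e (nat_lit 16465) (nat_lit 13) (.e (nat_lit 483383) (nat_lit 23) (.e (nat_lit 335999) (nat_lit 1) .nil))) .nil)) 
(.lf (nat_lit 135129) (.g (nat_lit 1671) (.e (nat_lit 16466) (nat_lit 13) (.e (nat_lit 483350) (nat_lit 17) (.e (nat_lit 6218) (nat_lit 333) (.e (nat_lit 57807) (nat_lit 246) .nil)))) .nil))) (.nd (nat_lit 6) 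
(.lf (nat_lit 135097) (.g (nat_lit 2071) (.e (nat_lit 16465) (nat_lit 13) (.e (nat_lit 483409) (nat_lit 27) (.e (nat_lit 401434) (nat_lit 9) (.e (nat_lit 426160) (nat_lit 6) (.e (nat_lit 253988) (nat_lit 11) .nil))))) (.g (nat_lit 0) .nil .nil))) 
(.lf (nat_lit 135161) (.g (nat_lit 1700) (.e (nat_lit 16466) (nat_lit 13) (.e (nat_lit 483393) (nat_lit 23) (.e (nat_lit 335987) (nat_lit 1) (.e (nat_lit 57854) (nat_lit 252) (.e (nat_lit 57345) (nat_lit 0) (.e (nat_lit 2044) (nat_lit 142) (.e (nat_lit 704734) (nat_lit 11) .nil))))))) (.g (nat_lit 4) .nil .nil))))))) (.nd (nat_lit 3) (.nd (nat_lit 4) (.nd (nat_lit 5) (.nd (nat_lit 6) 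
(.lf (nat_lit 135045) (.g (nat_lit 1406) (.e (nat_lit 16465) (nat_lit 13) (.e (nat_lit 491264) (nat_lit 16) (.e (nat_lit 491549) (nat_lit 9) (.e (nat_lit 336016) (nat_lit 2) (.e (nat_lit 98048) (nat_lit 2) .nil))))) (.g (nat_lit 4) .nil .nil))) 
(.lf (nat_lit 135109) (.g (nat_lit 963) (.e (nat_lit 16465) (nat_lit 13) (.e (nat_lit 483411) (nat_lit 27) (.e (nat_lit 401442) (nat_lit 9) .nil))) .nil))) (.nd (nat_lit 6) 
(.lf (nat_lit 135077) (.g (nat_lit 2282) (.e (nat_lit 16465) (nat_lit 13) (.e (nat_lit 483393) (nat_lit 23) (.e (nat_lit 335986) (nat_lit 1) (.e (nat_lit 57849) (nat_lit 252) (.e (nat_lit 57386) (nat_lit 4) (.e (nat_lit 106535) (nat_lit 11) .nil)))))) (.g (nat_lit 5) .nil .nil))) 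
(.lf (nat_lit 135141) (.g (nat_lit 2234) (.e (nat_lit 16466) (nat_lit 13) (.e (nat_lit 483372) (nat_lit 21) (.e (nat_lit 319534) (nat_lit 16) (.e (nat_lit 286728) (nat_lit 0) (.e (nat_lit 2390) (nat_lit 156) .nil))))) .nil)))) (.nd (nat_lit 5) (.nd (nat_lit 6) 
(.lf (nat_lit 135061) (.g (nat_lit 1868) (.e (nat_lit 16465) (nat_lit 13) (.e (nat_lit 483372) (nat_lit 21) (.e (nat_lit 319533) (nat_lit 16) (.e (nat_lit 286725) (nat_lit 0) .nil)))) .nil)) 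
(.lf (nat_lit 135125) (.g (nat_lit 470) (.e (nat_lit 16466) (nat_lit 13) (.e (nat_lit 483346) (nat_lit 17) (.e (nat_lit 7936) (nat_lit 361) .nil))) .nil))) (.nd (nat_lit 6) 
(.lf (nat_lit 135093) (.g (nat_lit 2000) (.e (nat_lit 16465) (nat_lit 13) (.e (nat_lit 483395) (nat_lit 24) (.e (nat_lit 344160) (nat_lit 37) (.e (nat_lit 647201) (nat_lit 12) (.e (nat_lit 57509) (nat_lit 39) (.e (nat_lit 647199) (nat_lit 11) .nil)))))) (.g (nat_lit 4) .nil .nil))) 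
(.lf (nat_lit 135157) (.g (nat_lit 1629) (.e (nat_lit 16466) (nat_lit 13) (.e (nat_lit 483393) (nat_lit 23) (.e (nat_lit 335987) (nat_lit 1) (.e (nat_lit 57830) (nat_lit 250) (.e (nat_lit 1183) (nat_lit 87) (.e (nat_lit 57531) (nat_lit 46) (.e (nat_lit 712448) (nat_lit 11) .nil))))))) (.g (nat_lit 4) .nil .nil)))))) (.nd (nat_lit 4) (.nd (nat_lit 5) (.nd (nat_lit 6) 
(.lf (nat_lit 135053) (.g (nat_lit 606) (.e (nat_lit 16465) (nat_lit 13) (.e (nat_lit 483365) (nat_lit 18) (.e (nat_lit 57692) (nat_lit 156) .nil))) .nil)) 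
(.lf (nat_lit 135117) (.g (nat_lit 748) (.e (nat_lit 16466) (nat_lit 13) (.e (nat_lit 483341) (nat_lit 9) (.e (nat_lit 426009) (nat_lit 0) .nil))) .nil))) (.nd (nat_lit 6) 
(.lf (nat_lit 135085) (.g (nat_lit 2944) (.e (nat_lit 16465) (nat_lit 13) (.e (nat_lit 483393) (nat_lit 23) (.e (nat_lit 335988) (nat_lit 1) (.e (nat_lit 57854) (nat_lit 252) (.e (nat_lit 57384) (nat_lit 4) (.e (nat_lit 106536) (nat_lit 11) .nil)))))) (.g (nat_lit 0) .nil .nil))) 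
(.lf (nat_lit 135149) (.g (nat_lit 2419) (.e (nat_lit 16466) (nat_lit 13) (.e (nat_lit 483393) (nat_lit 23) (.e (nat_lit 335986) (nat_lit 1) (.e (nat_lit 57849) (nat_lit 252) (.e (nat_lit 57383) (nat_lit 4) (.e (nat_lit 114432) (nat_lit 11) .nil)))))) (.g (nat_lit 5) .nil .nil))))) (.nd (nat_lit 5) (.nd (nat_lit 6) 
(.lf (nat_lit 135069) (.g (nat_lit 777) (.e (nat_lit 16465) (nat_lit 13) (.e (nat_lit 483383) (nat_lit 23) (.e (nat_lit 336257) (nat_lit 15) .nil))) .nil)) 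
(.lf (nat_lit 135133) (.g (nat_lit 291) (.e (nat_lit 16466) (nat_lit 13) (.e (nat_lit 483361) (nat_lit 17) (.e (nat_lit 6214) (nat_lit 333) .nil))) .nil))) (.nd (nat_lit 6) 
(.lf (nat_lit 135101) (.g (nat_lit 1654) (.e (nat_lit 16465) (nat_lit 13) (.e (nat_lit 483409) (nat_lit 27) (.e (nat_lit 401454) (nat_lit 12) (.e (nat_lit 475155) (nat_lit 21) .nil)))) .nil)) 
(.lf (nat_lit 135165) (.g (nat_lit 2143) (.e (nat_lit 16466) (nat_lit 13) (.e (nat_lit 483393) (nat_lit 23) (.e (nat_lit 335988) (nat_lit 1) (.e (nat_lit 57830) (nat_lit 250) (.e (nat_lit 1183) (nat_lit 87) (.e (nat_lit 57530) (nat_lit 46) (.e (nat_lit 712448) (nat_lit 11) .nil))))))) (.g (nat_lit 4) .nil .nil)))))))) 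
(.nd (nat_lit 2) (.nd (nat_lit 3) (.nd (nat_lit 4) (.nd (nat_lit 5) (.nd (nat_lit 6) 
(.lf (nat_lit 135043) (.g (nat_lit 1792) (.e (nat_lit 16465) (nat_lit 13) (.e (nat_lit 483341) (nat_lit 9) (.e (nat_lit 426108) (nat_lit 1) (.e (nat_lit 164332) (nat_lit 230) (.e (nat_lit 163866) (nat_lit 2) (.e (nat_lit 196655) (nat_lit 11) .nil)))))) (.g (nat_lit 4) .nil .nil))) 
(.lf (nat_lit 135107) (.g (nat_lit 1825) (.e (nat_lit 16465) (nat_lit 13) (.e (nat_lit 483411) (nat_lit 27) (.e (nat_lit 401440) (nat_lit 9) (.e (nat_lit 426158) (nat_lit 6) (.e (nat_lit 253988) (nat_lit 11) .nil))))) (.g (nat_lit 4) .nil .nil)))) (.nd (nat_lit 6) 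
(.lf (nat_lit 135075) (.g (nat_lit 1810) (.e (nat_lit 16465) (nat_lit 13) (.e (nat_lit 483393) (nat_lit 23) (.e (nat_lit 335986) (nat_lit 1) (.e (nat_lit 57849) (nat_lit 252) (.e (nat_lit 57383) (nat_lit 4) (.e (nat_lit 106534) (nat_lit 11) .nil)))))) (.g (nat_lit 4) .nil .nil))) 
(.lf (nat_lit 135139) (.g (nat_lit 1042) (.e (nat_lit 16466) (nat_lit 13) (.e (nat_lit 483372) (nat_lit 21) (.e (nat_lit 319525) (nat_lit 15) .nil))) .nil)))) (.nd (nat_lit 5) (.nd (nat_lit 6) 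
(.lf (nat_lit 135059) (.g (nat_lit 1443) (.e (nat_lit 16465) (nat_lit 13) (.e (nat_lit 483372) (nat_lit 21) (.e (nat_lit 319505) (nat_lit 10) (.e (nat_lit 4925) (nat_lit 287) .nil)))) .nil)) 
(.lf (nat_lit 135123) (.g (nat_lit 1380) (.e (nat_lit 16466) (nat_lit 13) (.e (nat_lit 483346) (nat_lit 17) (.e (nat_lit 6718) (nat_lit 361) (.e (nat_lit 172037) (nat_lit 0) .nil)))) .nil))) (.nd (nat_lit 6) 
(.lf (nat_lit 135091) (.g (nat_lit 1064) (.e (nat_lit 16465) (nat_lit 13) (.e (nat_lit 483395) (nat_lit 24) (.e (nat_lit 344156) (nat_lit 36) (.e (nat_lit 639018) (nat_lit 15) .nil)))) .nil)) 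
(.lf (nat_lit 135155) (.g (nat_lit 2159) (.e (nat_lit 16466) (nat_lit 13) (.e (nat_lit 483393) (nat_lit 23) (.e (nat_lit 335987) (nat_lit 1) (.e (nat_lit 57830) (nat_lit 250) (.e (nat_lit 1183) (nat_lit 87) (.e (nat_lit 57525) (nat_lit 46) (.e (nat_lit 704734) (nat_lit 11) .nil))))))) (.g (nat_lit 5) .nil .nil)))))) (.nd (nat_lit 4) (.nd (nat_lit 5) (.nd (nat_lit 6) 
(.lf (nat_lit 135051) (.g (nat_lit 587) (.e (nat_lit 16465) (nat_lit 13) (.e (nat_lit 483350) (nat_lit 17) (.e (nat_lit 7936) (nat_lit 361) .nil))) .nil)) 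
(.lf (nat_lit 135115) (.g (nat_lit 1704) (.e (nat_lit 16466) (nat_lit 13) (.e (nat_lit 483337) (nat_lit 9) (.e (nat_lit 426098) (nat_lit 1) (.e (nat_lit 164332) (nat_lit 230) .nil)))) .nil))) (.nd (nat_lit 6) 
(.lf (nat_lit 135083) (.g (nat_lit 2129) (.e (nat_lit 16465) (nat_lit 13) (.e (nat_lit 483393) (nat_lit 23) (.e (nat_lit 335988) (nat_lit 1) (.e (nat_lit 57852) (nat_lit 252) (.e (nat_lit 57384) (nat_lit 4) (.e (nat_lit 106534) (nat_lit 11) .nil)))))) (.g (nat_lit 4) .nil .nil))) 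
(.lf (nat_lit 135147) (.g (nat_lit 2126) (.e (nat_lit 16466) (nat_lit 13) (.e (nat_lit 483393) (nat_lit 23) (.e (nat_lit 335986) (nat_lit 1) (.e (nat_lit 57847) (nat_lit 252) (.e (nat_lit 57398) (nat_lit 9) (.e (nat_lit 155669) (nat_lit 11) .nil)))))) (.g (nat_lit 4) .nil .nil))))) (.nd (nat_lit 5) (.nd (nat_lit 6) 
(.lf (nat_lit 135067) (.g (nat_lit 469) (.e (nat_lit 16465) (nat_lit 13) (.e (nat_lit 483383) (nat_lit 23) (.e (nat_lit 336000) (nat_lit 1) .nil))) .nil)) 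
(.lf (nat_lit 135131) (.g (nat_lit 1715) (.e (nat_lit 16466) (nat_lit 13) (.e (nat_lit 483350) (nat_lit 17) (.e (nat_lit 6218) (nat_lit 333) (.e (nat_lit 57812) (nat_lit 246) .nil)))) .nil))) (.nd (nat_lit 6) 
(.lf (nat_lit 135099) (.g (nat_lit 1841) (.e (nat_lit 16465) (nat_lit 13) (.e (nat_lit 483409) (nat_lit 27) (.e (nat_lit 401448) (nat_lit 10) (.e (nat_lit 434291) (nat_lit 44) (.e (nat_lit 704735) (nat_lit 11) .nil))))) (.g (nat_lit 4) .nil .nil))) 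
(.lf (nat_lit 135163) (.g (nat_lit 1736) (.e (nat_lit 16466) (nat_lit 13) (.e (nat_lit 483393) (nat_lit 23) (.e (nat_lit 335987) (nat_lit 1) (.e (nat_lit 57854) (nat_lit 252) (.e (nat_lit 57382) (nat_lit 4) (.e (nat_lit 114432) (nat_lit 11) .nil)))))) (.g (nat_lit 4) .nil .nil))))))) (.nd (nat_lit 3) (.nd (nat_lit 4) (.nd (nat_lit 5) (.nd (nat_lit 6) 
(.lf (nat_lit 135047) (.g (nat_lit 453) (.e (nat_lit 16465) (nat_lit 13) (.e (nat_lit 483344) (nat_lit 17) (.e (nat_lit 6718) (nat_lit 361) .nil))) .nil)) 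
(.lf (nat_lit 135111) (.g (nat_lit 1544) (.e (nat_lit 16465) (nat_lit 13) (.e (nat_lit 483411) (nat_lit 27) (.e (nat_lit 401446) (nat_lit 10) (.e (nat_lit 434292) (nat_lit 44) .nil)))) .nil))) (.nd (nat_lit 6) 
(.lf (nat_lit 135079) (.g (nat_lit 3284) (.e (nat_lit 16465) (nat_lit 13) (.e (nat_lit 483393) (nat_lit 23) (.e (nat_lit 335986) (nat_lit 1) (.e (nat_lit 57854) (nat_lit 252) (.e (nat_lit 57384) (nat_lit 4) (.e (nat_lit 106536) (nat_lit 11) .nil)))))) (.g (nat_lit 5) .nil .nil))) 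
(.lf (nat_lit 135143) (.g (nat_lit 2255) (.e (nat_lit 16466) (nat_lit 13) (.e (nat_lit 483393) (nat_lit 23) (.e (nat_lit 335986) (nat_lit 1) (.e (nat_lit 57847) (nat_lit 252) (.e (nat_lit 57353) (nat_lit 0) (.e (nat_lit 2044) (nat_lit 142) (.e (nat_lit 704734) (nat_lit 11) .nil))))))) (.g (nat_lit 4) .nil .nil))))) (.nd (nat_lit 5) (.nd (nat_lit 6) 
(.lf (nat_lit 135063) (.g (nat_lit 584) (.e (nat_lit 16465) (nat_lit 13) (.e (nat_lit 483372) (nat_lit 21) (.e (nat_lit 319538) (nat_lit 19) .nil))) .nil)) 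
(.lf (nat_lit 135127) (.g (nat_lit 836) (.e (nat_lit 16466) (nat_lit 13) (.e (nat_lit 483350) (nat_lit 17) (.e (nat_lit 6113) (nat_lit 332) (.e (nat_lit 7936) (nat_lit 104) .nil)))) .nil))) (.nd (nat_lit 6) 
(.lf (nat_lit 135095) (.g (nat_lit 429) (.e (nat_lit 16465) (nat_lit 13) (.e (nat_lit 483406) (nat_lit 26) (.e (nat_lit 385109) (nat_lit 51) .nil))) .nil)) 
(.lf (nat_lit 135159) (.g (nat_lit 2203) (.e (nat_lit 16466) (nat_lit 13) (.e (nat_lit 483393) (nat_lit 23) (.e (nat_lit 335987) (nat_lit 1) (.e (nat_lit 57852) (nat_lit 252) (.e (nat_lit 57361) (nat_lit 0) (.e (nat_lit 2143) (nat_lit 142) (.e (nat_lit 704741) (nat_lit 11) .nil))))))) (.g (nat_lit 4) .nil .nil)))))) (.nd (nat_lit 4) (.nd (nat_lit 5) (.nd (nat_lit 6) 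
(.lf (nat_lit 135055) (.g (nat_lit 971) (.e (nat_lit 16465) (nat_lit 13) (.e (nat_lit 483365) (nat_lit 18) (.e (nat_lit 57776) (nat_lit 233) (.e (nat_lit 1126) (nat_lit 83) .nil)))) .nil)) 
(.lf (nat_lit 135119) (.g (nat_lit 1671) (.e (nat_lit 16466) (nat_lit 13) (.e (nat_lit 491264) (nat_lit 16) (.e (nat_lit 491546) (nat_lit 9) (.e (nat_lit 336013) (nat_lit 2) (.e (nat_lit 98048) (nat_lit 2) .nil))))) (.g (nat_lit 4) .nil .nil)))) (.nd (nat_lit 6) 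
(.lf (nat_lit 135087) (.g (nat_lit 2820) (.e (nat_lit 16465) (nat_lit 13) (.e (nat_lit 483393) (nat_lit 23) (.e (nat_lit 335996) (nat_lit 1) (.e (nat_lit 57852) (nat_lit 252) (.e (nat_lit 57384) (nat_lit 4) (.e (nat_lit 106536) (nat_lit 11) .nil)))))) (.g (nat_lit 6) .nil .nil))) 
(.lf (nat_lit 135151) (.g (nat_lit 1952) (.e (nat_lit 16466) (nat_lit 13) (.e (nat_lit 483393) (nat_lit 23) (.e (nat_lit 335986) (nat_lit 1) (.e (nat_lit 57854) (nat_lit 252) (.e (nat_lit 57382) (nat_lit 4) (.e (nat_lit 106536) (nat_lit 11) .nil)))))) (.g (nat_lit 4) .nil .nil))))) (.nd (nat_lit 5) (.nd (nat_lit 6) 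
(.lf (nat_lit 135071) (.g (nat_lit 774) (.e (nat_lit 16465) (nat_lit 13) (.e (nat_lit 483383) (nat_lit 23) (.e (nat_lit 343808) (nat_lit 20) .nil))) .nil)) 
(.lf (nat_lit 135135) (.g (nat_lit 288) (.e (nat_lit 16466) (nat_lit 13) (.e (nat_lit 483371) (nat_lit 21) (.e (nat_lit 319524) (nat_lit 14) .nil))) .nil))) (.nd (nat_lit 6) 
(.lf (nat_lit 135103) (.g (nat_lit 1565) (.e (nat_lit 16465) (nat_lit 13) (.e (nat_lit 483410) (nat_lit 27) (.e (nat_lit 401440) (nat_lit 9) (.e (nat_lit 426162) (nat_lit 6) .nil)))) .nil)) 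
(.lf (nat_lit 135167) (.g (nat_lit 2684) (.e (nat_lit 16466) (nat_lit 13) (.e (nat_lit 483393) (nat_lit 23) (.e (nat_lit 335988) (nat_lit 1) (.e (nat_lit 57830) (nat_lit 250) (.e (nat_lit 1183) (nat_lit 87) (.e (nat_lit 57532) (nat_lit 46) (.e (nat_lit 712448) (nat_lit 11) .nil))))))) (.g (nat_lit 5) .nil .nil))))))))))

noncomputable def tv1801 : DT := (.nd (nat_lit 0) (.nd (nat_lit 1) (.nd (nat_lit 2) (.nd (nat_lit 3) (.nd (nat_lit 4) (.nd (nat_lit 5) (.nd (nat_lit 6) 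
(.lf (nat_lit 135168) (.g (nat_lit 2416) (.e (nat_lit 16466) (nat_lit 13) (.e (nat_lit 483393) (nat_lit 23) (.e (nat_lit 335988) (nat_lit 1) (.e (nat_lit 57830) (nat_lit 250) (.e (nat_lit 1183) (nat_lit 87) (.e (nat_lit 57536) (nat_lit 46) (.e (nat_lit 704734) (nat_lit 11) .nil))))))) (.g (nat_lit 5) .nil .nil))) 
(.lf (nat_lit 135232) (.g (nat_lit 2901) (.e (nat_lit 16467) (nat_lit 13) (.e (nat_lit 483383) (nat_lit 23) (.e (nat_lit 336000) (nat_lit 1) (.e (nat_lit 57849) (nat_lit 252) (.e (nat_lit 57386) (nat_lit 4) (.e (nat_lit 106536) (nat_lit 11) .nil)))))) (.g (nat_lit 0) .nil .nil)))) (.nd (nat_lit 6) 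
(.lf (nat_lit 135200) (.g (nat_lit 694) (.e (nat_lit 16466) (nat_lit 13) (.e (nat_lit 483408) (nat_lit 26) (.e (nat_lit 385108) (nat_lit 51) .nil))) .nil)) 
(.lf (nat_lit 135264) (.g (nat_lit 1034) (.e (nat_lit 16467) (nat_lit 13) (.e (nat_lit 483405) (nat_lit 26) (.e (nat_lit 385109) (nat_lit 51) (.e (nat_lit 802560) (nat_lit 4) .nil)))) .nil)))) (.nd (nat_lit 5) (.nd (nat_lit 6) 
(.lf (nat_lit 135184) (.g (nat_lit 1087) (.e (nat_lit 16466) (nat_lit 13) (.e (nat_lit 483393) (nat_lit 23) (.e (nat_lit 335996) (nat_lit 1) (.e (nat_lit 57851) (nat_lit 252) .nil)))) .nil)) 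
(.lf (nat_lit 135248) (.g (nat_lit 3325) (.e (nat_lit 16467) (nat_lit 13) (.e (nat_lit 483393) (nat_lit 23) (.e (nat_lit 335986) (nat_lit 1) (.e (nat_lit 57854) (nat_lit 252) (.e (nat_lit 57384) (nat_lit 4) (.e (nat_lit 106534) (nat_lit 11) .nil)))))) (.g (nat_lit 5) .nil .nil)))) (.nd (nat_lit 6) 
(.lf (nat_lit 135216) (.g (nat_lit 1883) (.e (nat_lit 16466) (nat_lit 13) (.e (nat_lit 483413) (nat_lit 27) (.e (nat_lit 401447) (nat_lit 10) (.e (nat_lit 434204) (nat_lit 18) .nil)))) .nil)) 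
(.lf (nat_lit 135280) (.g (nat_lit 1313) (.e (nat_lit 16468) (nat_lit 13) (.e (nat_lit 483350) (nat_lit 17) (.e (nat_lit 6113) (nat_lit 332) (.e (nat_lit 1374) (nat_lit 104) .nil)))) .nil))))) (.nd (nat_lit 4) (.nd (nat_lit 5) (.nd (nat_lit 6) 
(.lf (nat_lit 135176) (.g (nat_lit 2690) (.e (nat_lit 16466) (nat_lit 13) (.e (nat_lit 483393) (nat_lit 23) (.e (nat_lit 335988) (nat_lit 1) (.e (nat_lit 57852) (nat_lit 252) (.e (nat_lit 57382) (nat_lit 4) (.e (nat_lit 106536) (nat_lit 11) .nil)))))) (.g (nat_lit 5) .nil .nil))) 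
(.lf (nat_lit 135240) (.g (nat_lit 1426) (.e (nat_lit 16467) (nat_lit 13) (.e (nat_lit 483392) (nat_lit 23) (.e (nat_lit 335986) (nat_lit 1) (.e (nat_lit 57847) (nat_lit 252) (.e (nat_lit 57386) (nat_lit 4) (.e (nat_lit 106534) (nat_lit 11) .nil)))))) (.g (nat_lit 4) .nil .nil)))) (.nd (nat_lit 6) 
(.lf (nat_lit 135208) (.g (nat_lit 1584) (.e (nat_lit 16466) (nat_lit 13) (.e (nat_lit 483412) (nat_lit 27) (.e (nat_lit 401444) (nat_lit 9) (.e (nat_lit 425984) (nat_lit 0) .nil)))) .nil)) 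
(.lf (nat_lit 135272) (.g (nat_lit 47) (.e (nat_lit 16468) (nat_lit 13) (.e (nat_lit 483331) (nat_lit 0) (.e (nat_lit 7936) (nat_lit 407) .nil))) .nil)))) (.nd (nat_lit 5) (.nd (nat_lit 6) 
(.lf (nat_lit 135192) (.g (nat_lit 2093) (.e (nat_lit 16466) (nat_lit 13) (.e (nat_lit 483393) (nat_lit 23) (.e (nat_lit 335996) (nat_lit 1) (.e (nat_lit 57852) (nat_lit 252) (.e (nat_lit 57382) (nat_lit 4) (.e (nat_lit 106536) (nat_lit 11) .nil)))))) (.g (nat_lit 4) .nil .nil))) 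
(.lf (nat_lit 135256) (.g (nat_lit 1980) (.e (nat_lit 16467) (nat_lit 13) (.e (nat_lit 483393) (nat_lit 23) (.e (nat_lit 335996) (nat_lit 1) (.e (nat_lit 57852) (nat_lit 252) (.e (nat_lit 57382) (nat_lit 4) .nil))))) .nil))) (.nd (nat_lit 6) 
(.lf (nat_lit 135224) (.g (nat_lit 3555) (.e (nat_lit 16466) (nat_lit 13) (.e (nat_lit 483413) (nat_lit 27) (.e (nat_lit 401448) (nat_lit 10) (.e (nat_lit 434291) (nat_lit 44) (.e (nat_lit 704732) (nat_lit 11) .nil))))) (.g (nat_lit 0) .nil .nil))) 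
(.lf (nat_lit 135288) (.g (nat_lit 2300) (.e (nat_lit 16468) (nat_lit 13) (.e (nat_lit 483350) (nat_lit 17) (.e (nat_lit 6218) (nat_lit 333) (.e (nat_lit 57811) (nat_lit 246) (.e (nat_lit 57606) (nat_lit 107) (.e (nat_lit 712448) (nat_lit 11) .nil)))))) (.g (nat_lit 5) .nil .nil))))))) (.nd (nat_lit 3) (.nd (nat_lit 4) (.nd (nat_lit 5) (.nd (nat_lit 6) 
(.lf (nat_lit 135172) (.g (nat_lit 2254) (.e (nat_lit 16466) (nat_lit 13) (.e (nat_lit 483393) (nat_lit 23) (.e (nat_lit 335988) (nat_lit 1) (.e (nat_lit 57852) (nat_lit 252) (.e (nat_lit 57354) (nat_lit 0) .nil))))) .nil)) 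
(.lf (nat_lit 135236) (.g (nat_lit 1595) (.e (nat_lit 16467) (nat_lit 13) (.e (nat_lit 483391) (nat_lit 23) (.e (nat_lit 335998) (nat_lit 1) (.e (nat_lit 57849) (nat_lit 252) (.e (nat_lit 57383) (nat_lit 4) (.e (nat_lit 106534) (nat_lit 11) .nil)))))) (.g (nat_lit 4) .nil .nil)))) (.nd (nat_lit 6) 
(.lf (nat_lit 135204) (.g (nat_lit 1788) (.e (nat_lit 16466) (nat_lit 13) (.e (nat_lit 483411) (nat_lit 27) (.e (nat_lit 401448) (nat_lit 10) (.e (nat_lit 442112) (nat_lit 44) .nil)))) .nil)) 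
(.lf (nat_lit 135268) (.g (nat_lit 2173) (.e (nat_lit 16467) (nat_lit 13) (.e (nat_lit 483413) (nat_lit 27) (.e (nat_lit 401447) (nat_lit 10) (.e (nat_lit 434203) (nat_lit 18) .nil)))) .nil)))) (.nd (nat_lit 5) (.nd (nat_lit 6) 
(.lf (nat_lit 135188) (.g (nat_lit 2670) (.e (nat_lit 16466) (nat_lit 13) (.e (nat_lit 483393) (nat_lit 23) (.e (nat_lit 335996) (nat_lit 1) (.e (nat_lit 57852) (nat_lit 252) (.e (nat_lit 57350) (nat_lit 0) (.e (nat_lit 2143) (nat_lit 142) (.e (nat_lit 704741) (nat_lit 11) .nil))))))) (.g (nat_lit 4) .nil .nil))) 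
(.lf (nat_lit 135252) (.g (nat_lit 2012) (.e (nat_lit 16467) (nat_lit 13) (.e (nat_lit 483393) (nat_lit 23) (.e (nat_lit 335988) (nat_lit 1) (.e (nat_lit 57851) (nat_lit 252) (.e (nat_lit 57382) (nat_lit 4) (.e (nat_lit 106534) (nat_lit 11) .nil)))))) (.g (nat_lit 4) .nil .nil)))) (.nd (nat_lit 6) 
(.lf (nat_lit 135220) (.g (nat_lit 2295) (.e (nat_lit 16466) (nat_lit 13) (.e (nat_lit 483413) (nat_lit 27) (.e (nat_lit 401448) (nat_lit 10) (.e (nat_lit 434200) (nat_lit 18) .nil)))) .nil)) 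
(.lf (nat_lit 135284) (.g (nat_lit 1539) (.e (nat_lit 16468) (nat_lit 13) (.e (nat_lit 483350) (nat_lit 17) (.e (nat_lit 6218) (nat_lit 333) (.e (nat_lit 57806) (nat_lit 246) (.e (nat_lit 57602) (nat_lit 107) .nil))))) .nil))))) (.nd (nat_lit 4) (.nd (nat_lit 5) (.nd (nat_lit 6) 
(.lf (nat_lit 135180) (.g (nat_lit 3129) (.e (nat_lit 16466) (nat_lit 13) (.e (nat_lit 483393) (nat_lit 23) (.e (nat_lit 335988) (nat_lit 1) (.e (nat_lit 57854) (nat_lit 252) (.e (nat_lit 57384) (nat_lit 4) (.e (nat_lit 106534) (nat_lit 11) .nil)))))) (.g (nat_lit 0) .nil .nil))) 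
(.lf (nat_lit 135244) (.g (nat_lit 2298) (.e (nat_lit 16467) (nat_lit 13) (.e (nat_lit 483393) (nat_lit 23) (.e (nat_lit 335986) (nat_lit 1) (.e (nat_lit 57847) (nat_lit 252) (.e (nat_lit 57384) (nat_lit 4) .nil))))) .nil))) (.nd (nat_lit 6) 
(.lf (nat_lit 135212) (.g (nat_lit 1390) (.e (nat_lit 16466) (nat_lit 13) (.e (nat_lit 483413) (nat_lit 27) (.e (nat_lit 401443) (nat_lit 9) (.e (nat_lit 426012) (nat_lit 0) .nil)))) .nil)) 
(.lf (nat_lit 135276) (.g (nat_lit 1140) (.e (nat_lit 16468) (nat_lit 13) (.e (nat_lit 491264) (nat_lit 7) (.e (nat_lit 409640) (nat_lit 17) (.e (nat_lit 294928) (nat_lit 2) (.e (nat_lit 98048) (nat_lit 2) .nil))))) (.g (nat_lit 4) .nil .nil))))) (.nd (nat_lit 5) (.nd (nat_lit 6) 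
(.lf (nat_lit 135196) (.g (nat_lit 2748) (.e (nat_lit 16466) (nat_lit 13) (.e (nat_lit 483395) (nat_lit 24) (.e (nat_lit 344160) (nat_lit 37) (.e (nat_lit 647200) (nat_lit 12) (.e (nat_lit 57508) (nat_lit 39) (.e (nat_lit 647199) (nat_lit 11) .nil)))))) (.g (nat_lit 4) .nil .nil))) 
(.lf (nat_lit 135260) (.g (nat_lit 1641) (.e (nat_lit 16467) (nat_lit 13) (.e (nat_lit 483394) (nat_lit 24) (.e (nat_lit 344097) (nat_lit 18) (.e (nat_lit 5195) (nat_lit 294) (.e (nat_lit 57386) (nat_lit 4) .nil))))) .nil))) (.nd (nat_lit 6) 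
(.lf (nat_lit 135228) (.g (nat_lit 1411) (.e (nat_lit 16467) (nat_lit 13) (.e (nat_lit 483378) (nat_lit 23) (.e (nat_lit 335997) (nat_lit 1) (.e (nat_lit 57844) (nat_lit 252) (.e (nat_lit 57382) (nat_lit 4) (.e (nat_lit 106534) (nat_lit 11) .nil)))))) (.g (nat_lit 4) .nil .nil))) 
(.lf (nat_lit 135292) (.g (nat_lit 1051) (.e (nat_lit 16468) (nat_lit 13) (.e (nat_lit 483363) (nat_lit 18) (.e (nat_lit 57686) (nat_lit 156) .nil))) .nil))))))) (.nd (nat_lit 2) (.nd (nat_lit 3) (.nd (nat_lit 4) (.nd (nat_lit 5) (.nd (nat_lit 6) 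
(.lf (nat_lit 135170) (.g (nat_lit 1985) (.e (nat_lit 16466) (nat_lit 13) (.e (nat_lit 483393) (nat_lit 23) (.e (nat_lit 335988) (nat_lit 1) (.e (nat_lit 57851) (nat_lit 252) (.e (nat_lit 57382) (nat_lit 4) (.e (nat_lit 106534) (nat_lit 11) .nil)))))) (.g (nat_lit 4) .nil .nil))) 
(.lf (nat_lit 135234) (.g (nat_lit 1508) (.e (nat_lit 16467) (nat_lit 13) (.e (nat_lit 483385) (nat_lit 23) (.e (nat_lit 336336) (nat_lit 20) (.e (nat_lit 229120) (nat_lit 4) .nil)))) .nil))) (.nd (nat_lit 6) 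
(.lf (nat_lit 135202) (.g (nat_lit 849) (.e (nat_lit 16466) (nat_lit 13) (.e (nat_lit 483410) (nat_lit 27) (.e (nat_lit 401440) (nat_lit 9) .nil))) .nil)) 
(.lf (nat_lit 135266) (.g (nat_lit 312) (.e (nat_lit 16467) (nat_lit 13) (.e (nat_lit 483413) (nat_lit 27) (.e (nat_lit 401447) (nat_lit 10) .nil))) .nil)))) (.nd (nat_lit 5) (.nd (nat_lit 6) 
(.lf (nat_lit 135186) (.g (nat_lit 2457) (.e (nat_lit 16466) (nat_lit 13) (.e (nat_lit 483393) (nat_lit 23) (.e (nat_lit 335996) (nat_lit 1) (.e (nat_lit 57851) (nat_lit 252) (.e (nat_lit 57382) (nat_lit 4) (.e (nat_lit 106534) (nat_lit 11) .nil)))))) (.g (nat_lit 4) .nil .nil))) 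
(.lf (nat_lit 135250) (.g (nat_lit 2811) (.e (nat_lit 16467) (nat_lit 13) (.e (nat_lit 483393) (nat_lit 23) (.e (nat_lit 335987) (nat_lit 1) (.e (nat_lit 57854) (nat_lit 252) (.e (nat_lit 57382) (nat_lit 4) (.e (nat_lit 106534) (nat_lit 11) .nil)))))) (.g (nat_lit 0) .nil .nil)))) (.nd (nat_lit 6) 
(.lf (nat_lit 135218) (.g (nat_lit 1869) (.e (nat_lit 16466) (nat_lit 13) (.e (nat_lit 483413) (nat_lit 27) (.e (nat_lit 401447) (nat_lit 10) (.e (nat_lit 434208) (nat_lit 18) .nil)))) .nil)) 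
(.lf (nat_lit 135282) (.g (nat_lit 1964) (.e (nat_lit 16468) (nat_lit 13) (.e (nat_lit 483350) (nat_lit 17) (.e (nat_lit 6212) (nat_lit 333) (.e (nat_lit 57811) (nat_lit 246) (.e (nat_lit 57606) (nat_lit 107) (.e (nat_lit 712448) (nat_lit 11) .nil)))))) (.g (nat_lit 5) .nil .nil)))))) (.nd (nat_lit 4) (.nd (nat_lit 5) (.nd (nat_lit 6) 
(.lf (nat_lit 135178) (.g (nat_lit 2381) (.e (nat_lit 16466) (nat_lit 13) (.e (nat_lit 483393) (nat_lit 23) (.e (nat_lit 335988) (nat_lit 1) (.e (nat_lit 57854) (nat_lit 252) (.e (nat_lit 57347) (nat_lit 0) (.e (nat_lit 2078) (nat_lit 142) (.e (nat_lit 704734) (nat_lit 11) .nil))))))) (.g (nat_lit 5) .nil .nil))) 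
(.lf (nat_lit 135242) (.g (nat_lit 2148) (.e (nat_lit 16467) (nat_lit 13) (.e (nat_lit 483393) (nat_lit 23) (.e (nat_lit 335986) (nat_lit 1) (.e (nat_lit 57847) (nat_lit 252) (.e (nat_lit 57383) (nat_lit 4) (.e (nat_lit 106534) (nat_lit 11) .nil)))))) (.g (nat_lit 5) .nil .nil)))) (.nd (nat_lit 6) 
(.lf (nat_lit 135210) (.g (nat_lit 1287) (.e (nat_lit 16466) (nat_lit 13) (.e (nat_lit 483413) (nat_lit 27) (.e (nat_lit 401440) (nat_lit 9) (.e (nat_lit 426018) (nat_lit 0) .nil)))) .nil)) 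
(.lf (nat_lit 135274) (.g (nat_lit 794) (.e (nat_lit 16468) (nat_lit 13) (.e (nat_lit 483333) (nat_lit 0) (.e (nat_lit 7098) (nat_lit 380) (.e (nat_lit 171776) (nat_lit 232) .nil)))) .nil)))) (.nd (nat_lit 5) (.nd (nat_lit 6) 
(.lf (nat_lit 135194) (.g (nat_lit 1997) (.e (nat_lit 16466) (nat_lit 13) (.e (nat_lit 483393) (nat_lit 23) (.e (nat_lit 335996) (nat_lit 1) (.e (nat_lit 57852) (nat_lit 252) (.e (nat_lit 65280) (nat_lit 4) (.e (nat_lit 106536) (nat_lit 11) .nil)))))) (.g (nat_lit 4) .nil .nil))) 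
(.lf (nat_lit 135258) (.g (nat_lit 1723) (.e (nat_lit 16467) (nat_lit 13) (.e (nat_lit 483394) (nat_lit 24) (.e (nat_lit 344097) (nat_lit 18) (.e (nat_lit 5195) (nat_lit 294) (.e (nat_lit 57383) (nat_lit 4) .nil))))) .nil))) (.nd (nat_lit 6) 
(.lf (nat_lit 135226) (.g (nat_lit 2011) (.e (nat_lit 16467) (nat_lit 13) (.e (nat_lit 483372) (nat_lit 21) (.e (nat_lit 319533) (nat_lit 16) (.e (nat_lit 286724) (nat_lit 0) .nil)))) .nil)) 
(.lf (nat_lit 135290) (.g (nat_lit 421) (.e (nat_lit 16468) (nat_lit 13) (.e (nat_lit 483350) (nat_lit 17) (.e (nat_lit 7936) (nat_lit 361) .nil))) .nil)))))) (.nd (nat_lit 3) (.nd (nat_lit 4) (.nd (nat_lit 5) (.nd (nat_lit 6) 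
(.lf (nat_lit 135174) (.g (nat_lit 2570) (.e (nat_lit 16466) (nat_lit 13) (.e (nat_lit 483393) (nat_lit 23) (.e (nat_lit 335988) (nat_lit 1) (.e (nat_lit 57852) (nat_lit 252) (.e (nat_lit 57361) (nat_lit 0) (.e (nat_lit 2143) (nat_lit 142) (.e (nat_lit 704741) (nat_lit 11) .nil))))))) (.g (nat_lit 4) .nil .nil))) 
(.lf (nat_lit 135238) (.g (nat_lit 1445) (.e (nat_lit 16467) (nat_lit 13) (.e (nat_lit 483391) (nat_lit 23) (.e (nat_lit 335998) (nat_lit 1) (.e (nat_lit 57849) (nat_lit 252) (.e (nat_lit 57385) (nat_lit 4) (.e (nat_lit 106536) (nat_lit 11) .nil)))))) (.g (nat_lit 4) .nil .nil)))) (.nd (nat_lit 6) 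
(.lf (nat_lit 135206) (.g (nat_lit 1076) (.e (nat_lit 16466) (nat_lit 13) (.e (nat_lit 483412) (nat_lit 27) (.e (nat_lit 401443) (nat_lit 9) (.e (nat_lit 426012) (nat_lit 0) .nil)))) .nil)) 
(.lf (nat_lit 135270) (.g (nat_lit 502) (.e (nat_lit 16467) (nat_lit 13) (.e (nat_lit 483413) (nat_lit 27) (.e (nat_lit 401448) (nat_lit 10) .nil))) .nil)))) (.nd (nat_lit 5) (.nd (nat_lit 6) 
(.lf (nat_lit 135190) (.g (nat_lit 2062) (.e (nat_lit 16466) (nat_lit 13) (.e (nat_lit 483393) (nat_lit 23) (.e (nat_lit 335996) (nat_lit 1) (.e (nat_lit 57852) (nat_lit 252) (.e (nat_lit 57361) (nat_lit 0) (.e (nat_lit 2143) (nat_lit 142) (.e (nat_lit 704741) (nat_lit 11) .nil))))))) (.g (nat_lit 4) .nil .nil))) 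
(.lf (nat_lit 135254) (.g (nat_lit 3153) (.e (nat_lit 16467) (nat_lit 13) (.e (nat_lit 483393) (nat_lit 23) (.e (nat_lit 335988) (nat_lit 1) (.e (nat_lit 57854) (nat_lit 252) (.e (nat_lit 57382) (nat_lit 4) (.e (nat_lit 106534) (nat_lit 11) .nil)))))) (.g (nat_lit 0) .nil .nil)))) (.nd (nat_lit 6) 
(.lf (nat_lit 135222) (.g (nat_lit 3012) (.e (nat_lit 16466) (nat_lit 13) (.e (nat_lit 483413) (nat_lit 27) (.e (nat_lit 401448) (nat_lit 10) (.e (nat_lit 434208) (nat_lit 18) (.e (nat_lit 6579) (nat_lit 351) .nil))))) .nil)) 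
(.lf (nat_lit 135286) (.g (nat_lit 1767) (.e (nat_lit 16468) (nat_lit 13) (.e (nat_lit 483350) (nat_lit 17) (.e (nat_lit 6218) (nat_lit 333) (.e (nat_lit 57810) (nat_lit 246) (.e (nat_lit 57606) (nat_lit 107) (.e (nat_lit 712448) (nat_lit 11) .nil)))))) (.g (nat_lit 5) .nil .nil)))))) (.nd (nat_lit 4) (.nd (nat_lit 5) (.nd (nat_lit 6) 
(.lf (nat_lit 135182) (.g (nat_lit 1377) (.e (nat_lit 16466) (nat_lit 13) (.e (nat_lit 483393) (nat_lit 23) (.e (nat_lit 335995) (nat_lit 1) (.e (nat_lit 57848) (nat_lit 252) .nil)))) .nil)) 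
(.lf (nat_lit 135246) (.g (nat_lit 2752) (.e (nat_lit 16467) (nat_lit 13) (.e (nat_lit 483393) (nat_lit 23) (.e (nat_lit 335986) (nat_lit 1) (.e (nat_lit 57847) (nat_lit 252) (.e (nat_lit 57386) (nat_lit 4) (.e (nat_lit 106536) (nat_lit 11) .nil)))))) (.g (nat_lit 0) .nil .nil)))) (.nd (nat_lit 6) 
(.lf (nat_lit 135214) (.g (nat_lit 1883) (.e (nat_lit 16466) (nat_lit 13) (.e (nat_lit 483413) (nat_lit 27) (.e (nat_lit 401447) (nat_lit 10) (.e (nat_lit 434200) (nat_lit 18) .nil)))) .nil)) 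
(.lf (nat_lit 135278) (.g (nat_lit 618) (.e (nat_lit 16468) (nat_lit 13) (.e (nat_lit 491264) (nat_lit 8) (.e (nat_lit 417827) (nat_lit 17) (.e (nat_lit 294927) (nat_lit 2) (.e (nat_lit 98048) (nat_lit 2) .nil))))) (.g (nat_lit 4) .nil .nil))))) (.nd (nat_lit 5) (.nd (nat_lit 6) 
(.lf (nat_lit 135198) (.g (nat_lit 476) (.e (nat_lit 16466) (nat_lit 13) (.e (nat_lit 483395) (nat_lit 24) (.e (nat_lit 344163) (nat_lit 37) .nil))) .nil)) 
(.lf (nat_lit 135262) (.g (nat_lit 1770) (.e (nat_lit 16467) (nat_lit 13) (.e (nat_lit 483395) (nat_lit 24) (.e (nat_lit 344160) (nat_lit 37) (.e (nat_lit 647200) (nat_lit 12) (.e (nat_lit 57508) (nat_lit 39) .nil))))) .nil))) (.nd (nat_lit 6) 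
(.lf (nat_lit 135230) (.g (nat_lit 1302) (.e (nat_lit 16467) (nat_lit 13) (.e (nat_lit 483378) (nat_lit 23) (.e (nat_lit 335997) (nat_lit 1) (.e (nat_lit 57848) (nat_lit 252) (.e (nat_lit 57385) (nat_lit 4) (.e (nat_lit 106534) (nat_lit 11) .nil)))))) (.g (nat_lit 4) .nil .nil))) 
(.lf (nat_lit 135294) (.g (nat_lit 1098) (.e (nat_lit 16468) (nat_lit 13) (.e (nat_lit 483363) (nat_lit 18) (.e (nat_lit 57691) (nat_lit 156) .nil))) .nil)))))))) (.nd (nat_lit 1) (.nd (nat_lit 2) (.nd (nat_lit 3) (.nd (nat_lit 4) (.nd (nat_lit 5) (.nd (nat_lit 6) 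
(.lf (nat_lit 135169) (.g (nat_lit 1949) (.e (nat_lit 16466) (nat_lit 13) (.e (nat_lit 483393) (nat_lit 23) (.e (nat_lit 335988) (nat_lit 1) (.e (nat_lit 57844) (nat_lit 252) (.e (nat_lit 57382) (nat_lit 4) (.e (nat_lit 106534) (nat_lit 11) .nil)))))) (.g (nat_lit 4) .nil .nil))) 
(.lf (nat_lit 135233) (.g (nat_lit 1099) (.e (nat_lit 16467) (nat_lit 13) (.e (nat_lit 483383) (nat_lit 23) (.e (nat_lit 336334) (nat_lit 20) .nil))) .nil))) (.nd (nat_lit 6) 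
(.lf (nat_lit 135201) (.g (nat_lit 1975) (.e (nat_lit 16466) (nat_lit 13) (.e (nat_lit 483409) (nat_lit 27) (.e (nat_lit 401454) (nat_lit 12) (.e (nat_lit 475191) (nat_lit 36) .nil)))) .nil)) 
(.lf (nat_lit 135265) (.g (nat_lit 954) (.e (nat_lit 16467) (nat_lit 13) (.e (nat_lit 483408) (nat_lit 26) (.e (nat_lit 385109) (nat_lit 51) .nil))) .nil)))) (.nd (nat_lit 5) (.nd (nat_lit 6) 
(.lf (nat_lit 135185) (.g (nat_lit 1952) (.e (nat_lit 16466) (nat_lit 13) (.e (nat_lit 483393) (nat_lit 23) (.e (nat_lit 335996) (nat_lit 1) (.e (nat_lit 57851) (nat_lit 252) (.e (nat_lit 57354) (nat_lit 0) .nil))))) .nil)) 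
(.lf (nat_lit 135249) (.g (nat_lit 2016) (.e (nat_lit 16467) (nat_lit 13) (.e (nat_lit 483393) (nat_lit 23) (.e (nat_lit 335987) (nat_lit 1) (.e (nat_lit 57852) (nat_lit 252) (.e (nat_lit 57382) (nat_lit 4) (.e (nat_lit 106534) (nat_lit 11) .nil)))))) (.g (nat_lit 5) .nil .nil)))) (.nd (nat_lit 6) 
(.lf (nat_lit 135217) (.g (nat_lit 1917) (.e (nat_lit 16466) (nat_lit 13) (.e (nat_lit 483413) (nat_lit 27) (.e (nat_lit 401447) (nat_lit 10) (.e (nat_lit 434205) (nat_lit 18) .nil)))) .nil)) 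
(.lf (nat_lit 135281) (.g (nat_lit 1142) (.e (nat_lit 16468) (nat_lit 13) (.e (nat_lit 483350) (nat_lit 17) (.e (nat_lit 6212) (nat_lit 333) (.e (nat_lit 57811) (nat_lit 246) .nil)))) .nil))))) (.nd (nat_lit 4) (.nd (nat_lit 5) (.nd (nat_lit 6) 
(.lf (nat_lit 135177) (.g (nat_lit 940) (.e (nat_lit 16466) (nat_lit 13) (.e (nat_lit 483393) (nat_lit 23) (.e (nat_lit 335988) (nat_lit 1) (.e (nat_lit 57854) (nat_lit 252) .nil)))) .nil)) 
(.lf (nat_lit 135241) (.g (nat_lit 1640) (.e (nat_lit 16467) (nat_lit 13) (.e (nat_lit 483392) (nat_lit 23) (.e (nat_lit 335986) (nat_lit 1) (.e (nat_lit 57847) (nat_lit 252) (.e (nat_lit 57386) (nat_lit 4) (.e (nat_lit 106536) (nat_lit 11) .nil)))))) (.g (nat_lit 4) .nil .nil)))) (.nd (nat_lit 6) 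
(.lf (nat_lit 135209) (.g (nat_lit 1590) (.e (nat_lit 16466) (nat_lit 13) (.e (nat_lit 483412) (nat_lit 27) (.e (nat_lit 401444) (nat_lit 9) (.e (nat_lit 425987) (nat_lit 0) .nil)))) .nil)) 
(.lf (nat_lit 135273) (.g (nat_lit 703) (.e (nat_lit 16468) (nat_lit 13) (.e (nat_lit 483333) (nat_lit 0) (.e (nat_lit 7096) (nat_lit 380) (.e (nat_lit 164287) (nat_lit 224) .nil)))) .nil)))) (.nd (nat_lit 5) (.nd (nat_lit 6) 
(.lf (nat_lit 135193) (.g (nat_lit 3088) (.e (nat_lit 16466) (nat_lit 13) (.e (nat_lit 483393) (nat_lit 23) (.e (nat_lit 335996) (nat_lit 1) (.e (nat_lit 57852) (nat_lit 252) (.e (nat_lit 57384) (nat_lit 4) (.e (nat_lit 106534) (nat_lit 11) .nil)))))) (.g (nat_lit 6) .nil .nil))) 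
(.lf (nat_lit 135257) (.g (nat_lit 2696) (.e (nat_lit 16467) (nat_lit 13) (.e (nat_lit 483393) (nat_lit 23) (.e (nat_lit 335996) (nat_lit 1) (.e (nat_lit 57852) (nat_lit 252) (.e (nat_lit 57384) (nat_lit 4) (.e (nat_lit 106534) (nat_lit 11) .nil)))))) (.g (nat_lit 6) .nil .nil)))) (.nd (nat_lit 6) 
(.lf (nat_lit 135225) (.g (nat_lit 2793) (.e (nat_lit 16466) (nat_lit 13) (.e (nat_lit 483413) (nat_lit 27) (.e (nat_lit 401451) (nat_lit 12) (.e (nat_lit 475155) (nat_lit 21) .nil)))) .nil)) 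
(.lf (nat_lit 135289) (.g (nat_lit 533) (.e (nat_lit 16468) (nat_lit 13) (.e (nat_lit 483350) (nat_lit 17) (.e (nat_lit 6490) (nat_lit 343) .nil))) .nil)))))) (.nd (nat_lit 3) (.nd (nat_lit 4) (.nd (nat_lit 5) (.nd (nat_lit 6) 
(.lf (nat_lit 135173) (.g (nat_lit 2105) (.e (nat_lit 16466) (nat_lit 13) (.e (nat_lit 483393) (nat_lit 23) (.e (nat_lit 335988) (nat_lit 1) (.e (nat_lit 57852) (nat_lit 252) (.e (nat_lit 57359) (nat_lit 0) .nil))))) .nil)) 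
(.lf (nat_lit 135237) (.g (nat_lit 1438) (.e (nat_lit 16467) (nat_lit 13) (.e (nat_lit 483391) (nat_lit 23) (.e (nat_lit 335998) (nat_lit 1) (.e (nat_lit 57849) (nat_lit 252) (.e (nat_lit 57385) (nat_lit 4) (.e (nat_lit 106534) (nat_lit 11) .nil)))))) (.g (nat_lit 4) .nil .nil)))) (.nd (nat_lit 6) 
(.lf (nat_lit 135205) (.g (nat_lit 707) (.e (nat_lit 16466) (nat_lit 13) (.e (nat_lit 483412) (nat_lit 27) (.e (nat_lit 401442) (nat_lit 9) .nil))) .nil)) 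
(.lf (nat_lit 135269) (.g (nat_lit 2279) (.e (nat_lit 16467) (nat_lit 13) (.e (nat_lit 483413) (nat_lit 27) (.e (nat_lit 401447) (nat_lit 10) (.e (nat_lit 434210) (nat_lit 18) .nil)))) .nil)))) (.nd (nat_lit 5) (.nd (nat_lit 6) 
(.lf (nat_lit 135189) (.g (nat_lit 1967) (.e (nat_lit 16466) (nat_lit 13) (.e (nat_lit 483393) (nat_lit 23) (.e (nat_lit 335996) (nat_lit 1) (.e (nat_lit 57852) (nat_lit 252) (.e (nat_lit 57361) (nat_lit 0) .nil))))) .nil)) 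
(.lf (nat_lit 135253) (.g (nat_lit 2467) (.e (nat_lit 16467) (nat_lit 13) (.e (nat_lit 483393) (nat_lit 23) (.e (nat_lit 335988) (nat_lit 1) (.e (nat_lit 57852) (nat_lit 252) (.e (nat_lit 57382) (nat_lit 4) (.e (nat_lit 106534) (nat_lit 11) .nil)))))) (.g (nat_lit 5) .nil .nil)))) (.nd (nat_lit 6) 
(.lf (nat_lit 135221) (.g (nat_lit 2767) (.e (nat_lit 16466) (nat_lit 13) (.e (nat_lit 483413) (nat_lit 27) (.e (nat_lit 401448) (nat_lit 10) (.e (nat_lit 434200) (nat_lit 18) (.e (nat_lit 6528) (nat_lit 351) .nil))))) .nil)) 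
(.lf (nat_lit 135285) (.g (nat_lit 2255) (.e (nat_lit 16468) (nat_lit 13) (.e (nat_lit 483350) (nat_lit 17) (.e (nat_lit 6218) (nat_lit 333) (.e (nat_lit 57806) (nat_lit 246) (.e (nat_lit 57606) (nat_lit 107) (.e (nat_lit 712448) (nat_lit 11) .nil)))))) (.g (nat_lit 5) .nil .nil)))))) (.nd (nat_lit 4) (.nd (nat_lit 5) (.nd (nat_lit 6) 
(.lf (nat_lit 135181) (.g (nat_lit 706) (.e (nat_lit 16466) (nat_lit 13) (.e (nat_lit 483393) (nat_lit 23) (.e (nat_lit 335993) (nat_lit 1) .nil))) .nil)) 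
(.lf (nat_lit 135245) (.g (nat_lit 2529) (.e (nat_lit 16467) (nat_lit 13) (.e (nat_lit 483393) (nat_lit 23) (.e (nat_lit 335986) (nat_lit 1) (.e (nat_lit 57847) (nat_lit 252) (.e (nat_lit 57385) (nat_lit 4) (.e (nat_lit 106536) (nat_lit 11) .nil)))))) (.g (nat_lit 0) .nil .nil)))) (.nd (nat_lit 6) 
(.lf (nat_lit 135213) (.g (nat_lit 1957) (.e (nat_lit 16466) (nat_lit 13) (.e (nat_lit 483413) (nat_lit 27) (.e (nat_lit 401446) (nat_lit 10) (.e (nat_lit 434200) (nat_lit 18) .nil)))) .nil)) 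
(.lf (nat_lit 135277) (.g (nat_lit 881) (.e (nat_lit 16468) (nat_lit 13) (.e (nat_lit 491264) (nat_lit 7) (.e (nat_lit 409642) (nat_lit 17) (.e (nat_lit 294927) (nat_lit 2) (.e (nat_lit 98048) (nat_lit 2) .nil))))) (.g (nat_lit 4) .nil .nil))))) (.nd (nat_lit 5) (.nd (nat_lit 6) 
(.lf (nat_lit 135197) (.g (nat_lit 2302) (.e (nat_lit 16466) (nat_lit 13) (.e (nat_lit 483395) (nat_lit 24) (.e (nat_lit 344160) (nat_lit 37) (.e (nat_lit 647201) (nat_lit 12) (.e (nat_lit 57509) (nat_lit 39) (.e (nat_lit 647199) (nat_lit 11) .nil)))))) (.g (nat_lit 4) .nil .nil))) 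
(.lf (nat_lit 135261) (.g (nat_lit 351) (.e (nat_lit 16467) (nat_lit 13) (.e (nat_lit 483395) (nat_lit 24) (.e (nat_lit 344156) (nat_lit 36) .nil))) .nil))) (.nd (nat_lit 6) 
(.lf (nat_lit 135229) (.g (nat_lit 1386) (.e (nat_lit 16467) (nat_lit 13) (.e (nat_lit 483378) (nat_lit 23) (.e (nat_lit 335997) (nat_lit 1) (.e (nat_lit 57848) (nat_lit 252) (.e (nat_lit 57383) (nat_lit 4) (.e (nat_lit 106534) (nat_lit 11) .nil)))))) (.g (nat_lit 4) .nil .nil))) 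
(.lf (nat_lit 135293) (.g (nat_lit 1082) (.e (nat_lit 16468) (nat_lit 13) (.e (nat_lit 483363) (nat_lit 18) (.e (nat_lit 57688) (nat_lit 156) .nil))) .nil))))))) (.nd (nat_lit 2) (.nd (nat_lit 3) (.nd (nat_lit 4) (.nd (nat_lit 5) (.nd (nat_lit 6) 
(.lf (nat_lit 135171) (.g (nat_lit 2129) (.e (nat_lit 16466) (nat_lit 13) (.e (nat_lit 483393) (nat_lit 23) (.e (nat_lit 335988) (nat_lit 1) (.e (nat_lit 57851) (nat_lit 252) (.e (nat_lit 57382) (nat_lit 4) (.e (nat_lit 106536) (nat_lit 11) .nil)))))) (.g (nat_lit 4) .nil .nil))) 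
(.lf (nat_lit 135235) (.g (nat_lit 1097) (.e (nat_lit 16467) (nat_lit 13) (.e (nat_lit 483387) (nat_lit 23) (.e (nat_lit 335997) (nat_lit 1) (.e (nat_lit 57848) (nat_lit 252) (.e (nat_lit 57386) (nat_lit 4) .nil))))) .nil))) (.nd (nat_lit 6) 
(.lf (nat_lit 135203) (.g (nat_lit 850) (.e (nat_lit 16466) (nat_lit 13) (.e (nat_lit 483411) (nat_lit 27) (.e (nat_lit 401440) (nat_lit 9) .nil))) .nil)) 
(.lf (nat_lit 135267) (.g (nat_lit 2247) (.e (nat_lit 16467) (nat_lit 13) (.e (nat_lit 483413) (nat_lit 27) (.e (nat_lit 401447) (nat_lit 10) (.e (nat_lit 434201) (nat_lit 18) .nil)))) .nil)))) (.nd (nat_lit 5) (.nd (nat_lit 6) 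
(.lf (nat_lit 135187) (.g (nat_lit 2416) (.e (nat_lit 16466) (nat_lit 13) (.e (nat_lit 483393) (nat_lit 23) (.e (nat_lit 335996) (nat_lit 1) (.e (nat_lit 57851) (nat_lit 252) (.e (nat_lit 57382) (nat_lit 4) (.e (nat_lit 106536) (nat_lit 11) .nil)))))) (.g (nat_lit 4) .nil .nil))) 
(.lf (nat_lit 135251) (.g (nat_lit 1924) (.e (nat_lit 16467) (nat_lit 13) (.e (nat_lit 483393) (nat_lit 23) (.e (nat_lit 335988) (nat_lit 1) (.e (nat_lit 57844) (nat_lit 252) (.e (nat_lit 57382) (nat_lit 4) (.e (nat_lit 106534) (nat_lit 11) .nil)))))) (.g (nat_lit 4) .nil .nil)))) (.nd (nat_lit 6) 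
(.lf (nat_lit 135219) (.g (nat_lit 2122) (.e (nat_lit 16466) (nat_lit 13) (.e (nat_lit 483413) (nat_lit 27) (.e (nat_lit 401448) (nat_lit 10) (.e (nat_lit 434199) (nat_lit 18) .nil)))) .nil)) 
(.lf (nat_lit 135283) (.g (nat_lit 1097) (.e (nat_lit 16468) (nat_lit 13) (.e (nat_lit 483350) (nat_lit 17) (.e (nat_lit 6212) (nat_lit 333) (.e (nat_lit 57814) (nat_lit 246) .nil)))) .nil))))) (.nd (nat_lit 4) (.nd (nat_lit 5) (.nd (nat_lit 6) 
(.lf (nat_lit 135179) (.g (nat_lit 2070) (.e (nat_lit 16466) (nat_lit 13) (.e (nat_lit 483393) (nat_lit 23) (.e (nat_lit 335988) (nat_lit 1) (.e (nat_lit 57854) (nat_lit 252) (.e (nat_lit 57382) (nat_lit 4) (.e (nat_lit 114432) (nat_lit 11) .nil)))))) (.g (nat_lit 4) .nil .nil))) 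
(.lf (nat_lit 135243) (.g (nat_lit 1996) (.e (nat_lit 16467) (nat_lit 13) (.e (nat_lit 483393) (nat_lit 23) (.e (nat_lit 335986) (nat_lit 1) (.e (nat_lit 57847) (nat_lit 252) (.e (nat_lit 57383) (nat_lit 4) (.e (nat_lit 106536) (nat_lit 11) .nil)))))) (.g (nat_lit 4) .nil .nil)))) (.nd (nat_lit 6) 
(.lf (nat_lit 135211) (.g (nat_lit 1315) (.e (nat_lit 16466) (nat_lit 13) (.e (nat_lit 483413) (nat_lit 27) (.e (nat_lit 401440) (nat_lit 9) (.e (nat_lit 426162) (nat_lit 6) .nil)))) .nil)) 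
(.lf (nat_lit 135275) (.g (nat_lit 1041) (.e (nat_lit 16468) (nat_lit 13) (.e (nat_lit 491264) (nat_lit 7) (.e (nat_lit 409640) (nat_lit 17) (.e (nat_lit 294927) (nat_lit 2) (.e (nat_lit 98048) (nat_lit 2) .nil))))) (.g (nat_lit 4) .nil .nil))))) (.nd (nat_lit 5) (.nd (nat_lit 6) 
(.lf (nat_lit 135195) (.g (nat_lit 2510) (.e (nat_lit 16466) (nat_lit 13) (.e (nat_lit 483394) (nat_lit 24) (.e (nat_lit 344160) (nat_lit 37) (.e (nat_lit 647200) (nat_lit 12) (.e (nat_lit 57508) (nat_lit 39) (.e (nat_lit 647199) (nat_lit 11) .nil)))))) (.g (nat_lit 4) .nil .nil))) 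
(.lf (nat_lit 135259) (.g (nat_lit 1648) (.e (nat_lit 16467) (nat_lit 13) (.e (nat_lit 483394) (nat_lit 24) (.e (nat_lit 344097) (nat_lit 18) (.e (nat_lit 5195) (nat_lit 294) (.e (nat_lit 57385) (nat_lit 4) .nil))))) .nil))) (.nd (nat_lit 6) 
(.lf (nat_lit 135227) (.g (nat_lit 685) (.e (nat_lit 16467) (nat_lit 13) (.e (nat_lit 483372) (nat_lit 21) (.e (nat_lit 319534) (nat_lit 16) .nil))) .nil)) 
(.lf (nat_lit 135291) (.g (nat_lit 1218) (.e (nat_lit 16468) (nat_lit 13) (.e (nat_lit 483363) (nat_lit 18) (.e (nat_lit 57679) (nat_lit 153) .nil))) .nil)))))) (.nd (nat_lit 3) (.nd (nat_lit 4) (.nd (nat_lit 5) (.nd (nat_lit 6) 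
(.lf (nat_lit 135175) (.g (nat_lit 2510) (.e (nat_lit 16466) (nat_lit 13) (.e (nat_lit 483393) (nat_lit 23) (.e (nat_lit 335988) (nat_lit 1) (.e (nat_lit 57852) (nat_lit 252) (.e (nat_lit 57382) (nat_lit 4) (.e (nat_lit 106534) (nat_lit 11) .nil)))))) (.g (nat_lit 4) .nil .nil))) 
(.lf (nat_lit 135239) (.g (nat_lit 1432) (.e (nat_lit 16467) (nat_lit 13) (.e (nat_lit 483392) (nat_lit 23) (.e (nat_lit 335986) (nat_lit 1) (.e (nat_lit 57847) (nat_lit 252) (.e (nat_lit 57385) (nat_lit 4) .nil))))) .nil))) (.nd (nat_lit 6) 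
(.lf (nat_lit 135207) (.g (nat_lit 1720) (.e (nat_lit 16466) (nat_lit 13) (.e (nat_lit 483412) (nat_lit 27) (.e (nat_lit 401443) (nat_lit 9) (.e (nat_lit 426012) (nat_lit 0) (.e (nat_lit 3473) (nat_lit 218) .nil))))) .nil)) 
(.lf (nat_lit 135271) (.g (nat_lit 2799) (.e (nat_lit 16467) (nat_lit 13) (.e (nat_lit 483413) (nat_lit 27) (.e (nat_lit 401448) (nat_lit 10) (.e (nat_lit 434201) (nat_lit 18) .nil)))) .nil)))) (.nd (nat_lit 5) (.nd (nat_lit 6) 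
(.lf (nat_lit 135191) (.g (nat_lit 2098) (.e (nat_lit 16466) (nat_lit 13) (.e (nat_lit 483393) (nat_lit 23) (.e (nat_lit 335996) (nat_lit 1) (.e (nat_lit 57852) (nat_lit 252) (.e (nat_lit 57382) (nat_lit 4) (.e (nat_lit 106534) (nat_lit 11) .nil)))))) (.g (nat_lit 4) .nil .nil))) 
(.lf (nat_lit 135255) (.g (nat_lit 2164) (.e (nat_lit 16467) (nat_lit 13) (.e (nat_lit 483393) (nat_lit 23) (.e (nat_lit 335996) (nat_lit 1) (.e (nat_lit 57851) (nat_lit 252) (.e (nat_lit 57382) (nat_lit 4) (.e (nat_lit 106534) (nat_lit 11) .nil)))))) (.g (nat_lit 4) .nil .nil)))) (.nd (nat_lit 6) 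
(.lf (nat_lit 135223) (.g (nat_lit 3170) (.e (nat_lit 16466) (nat_lit 13) (.e (nat_lit 483413) (nat_lit 27) (.e (nat_lit 401448) (nat_lit 10) (.e (nat_lit 434209) (nat_lit 18) (.e (nat_lit 6563) (nat_lit 351) .nil))))) .nil)) 
(.lf (nat_lit 135287) (.g (nat_lit 1521) (.e (nat_lit 16468) (nat_lit 13) (.e (nat_lit 483350) (nat_lit 17) (.e (nat_lit 6218) (nat_lit 333) (.e (nat_lit 57811) (nat_lit 246) .nil)))) .nil))))) (.nd (nat_lit 4) (.nd (nat_lit 5) (.nd (nat_lit 6) 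
(.lf (nat_lit 135183) (.g (nat_lit 380) (.e (nat_lit 16466) (nat_lit 13) (.e (nat_lit 483393) (nat_lit 23) (.e (nat_lit 335996) (nat_lit 1) .nil))) .nil)) 
(.lf (nat_lit 135247) (.g (nat_lit 2751) (.e (nat_lit 16467) (nat_lit 13) (.e (nat_lit 483393) (nat_lit 23) (.e (nat_lit 335986) (nat_lit 1) (.e (nat_lit 57849) (nat_lit 252) (.e (nat_lit 57386) (nat_lit 4) (.e (nat_lit 106536) (nat_lit 11) .nil)))))) (.g (nat_lit 0) .nil .nil)))) (.nd (nat_lit 6) 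
(.lf (nat_lit 135215) (.g (nat_lit 1869) (.e (nat_lit 16466) (nat_lit 13) (.e (nat_lit 483413) (nat_lit 27) (.e (nat_lit 401447) (nat_lit 10) (.e (nat_lit 434201) (nat_lit 18) .nil)))) .nil)) 
(.lf (nat_lit 135279) (.g (nat_lit 1235) (.e (nat_lit 16468) (nat_lit 13) (.e (nat_lit 491264) (nat_lit 16) (.e (nat_lit 491546) (nat_lit 9) (.e (nat_lit 336013) (nat_lit 2) (.e (nat_lit 98048) (nat_lit 2) .nil))))) (.g (nat_lit 4) .nil .nil))))) (.nd (nat_lit 5) (.nd (nat_lit 6) 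
(.lf (nat_lit 135199) (.g (nat_lit 408) (.e (nat_lit 16466) (nat_lit 13) (.e (nat_lit 483396) (nat_lit 24) (.e (nat_lit 344154) (nat_lit 35) .nil))) .nil)) 
(.lf (nat_lit 135263) (.g (nat_lit 851) (.e (nat_lit 16467) (nat_lit 13) (.e (nat_lit 483404) (nat_lit 26) (.e (nat_lit 385107) (nat_lit 51) (.e (nat_lit 802560) (nat_lit 4) .nil)))) .nil))) (.nd (nat_lit 6) 
(.lf (nat_lit 135231) (.g (nat_lit 2753) (.e (nat_lit 16467) (nat_lit 13) (.e (nat_lit 483383) (nat_lit 23) (.e (nat_lit 336000) (nat_lit 1) (.e (nat_lit 57849) (nat_lit 252) (.e (nat_lit 57386) (nat_lit 4) (.e (nat_lit 106534) (nat_lit 11) .nil)))))) (.g (nat_lit 0) .nil .nil))) 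
(.lf (nat_lit 135295) (.g (nat_lit 738) (.e (nat_lit 16468) (nat_lit 13) (.e (nat_lit 483364) (nat_lit 18) (.e (nat_lit 57692) (nat_lit 156) .nil))) .nil)))))))))

noncomputable def tv1802 : DT := (.nd (nat_lit 0) (.nd (nat_lit 1) (.nd (nat_lit 2) (.nd (nat_lit 3) (.nd (nat_lit 4) (.nd (nat_lit 5) (.nd (nat_lit 6) 
(.lf (nat_lit 135296) (.g (nat_lit 1274) (.e (nat_lit 16468) (nat_lit 13) (.e (nat_lit 483365) (nat_lit 18) (.e (nat_lit 57676) (nat_lit 153) (.e (nat_lit 8306) (nat_lit 59) .nil)))) .nil)) 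
(.lf (nat_lit 135360) (.g (nat_lit 2645) (.e (nat_lit 16468) (nat_lit 13) (.e (nat_lit 483393) (nat_lit 23) (.e (nat_lit 335996) (nat_lit 1) (.e (nat_lit 57852) (nat_lit 252) (.e (nat_lit 57384) (nat_lit 4) (.e (nat_lit 106534) (nat_lit 11) .nil)))))) (.g (nat_lit 6) .nil .nil)))) (.nd (nat_lit 6) 
(.lf (nat_lit 135328) (.g (nat_lit 1915) (.e (nat_lit 16468) (nat_lit 13) (.e (nat_lit 483378) (nat_lit 23) (.e (nat_lit 335997) (nat_lit 1) (.e (nat_lit 57848) (nat_lit 252) (.e (nat_lit 57385) (nat_lit 4) (.e (nat_lit 106534) (nat_lit 11) .nil)))))) (.g (nat_lit 6) .nil .nil))) 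
(.lf (nat_lit 135392) (.g (nat_lit 3034) (.e (nat_lit 16469) (nat_lit 14) (.e (nat_lit 491540) (nat_lit 3) (.e (nat_lit 98373) (nat_lit 29) (.e (nat_lit 450566) (nat_lit 0) (.e (nat_lit 4217) (nat_lit 251) .nil))))) .nil)))) (.nd (nat_lit 5) (.nd (nat_lit 6) 
(.lf (nat_lit 135312) (.g (nat_lit 825) (.e (nat_lit 16468) (nat_lit 13) (.e (nat_lit 483372) (nat_lit 21) (.e (nat_lit 319514) (nat_lit 11) .nil))) .nil)) 
(.lf (nat_lit 135376) (.g (nat_lit 1111) (.e (nat_lit 16468) (nat_lit 13) (.e (nat_lit 483409) (nat_lit 27) (.e (nat_lit 401446) (nat_lit 10) (.e (nat_lit 442112) (nat_lit 44) .nil)))) .nil))) (.nd (nat_lit 6) 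
(.lf (nat_lit 135344) (.g (nat_lit 1674) (.e (nat_lit 16468) (nat_lit 13) (.e (nat_lit 483392) (nat_lit 23) (.e (nat_lit 335986) (nat_lit 1) (.e (nat_lit 57847) (nat_lit 252) (.e (nat_lit 57385) (nat_lit 4) (.e (nat_lit 106534) (nat_lit 11) .nil)))))) (.g (nat_lit 4) .nil .nil))) 
(.lf (nat_lit 135408) (.g (nat_lit 1932) (.e (nat_lit 16469) (nat_lit 14) (.e (nat_lit 491568) (nat_lit 13) (.e (nat_lit 393260) (nat_lit 21) (.e (nat_lit 409614) (nat_lit 10) .nil)))) .nil))))) (.nd (nat_lit 4) (.nd (nat_lit 5) (.nd (nat_lit 6) 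
(.lf (nat_lit 135304) (.g (nat_lit 1174) (.e (nat_lit 16468) (nat_lit 13) (.e (nat_lit 483372) (nat_lit 21) (.e (nat_lit 319505) (nat_lit 10) (.e (nat_lit 5712) (nat_lit 312) .nil)))) .nil)) 
(.lf (nat_lit 135368) (.g (nat_lit 2189) (.e (nat_lit 16468) (nat_lit 13) (.e (nat_lit 483395) (nat_lit 24) (.e (nat_lit 344156) (nat_lit 36) (.e (nat_lit 639017) (nat_lit 15) (.e (nat_lit 57532) (nat_lit 46) (.e (nat_lit 712448) (nat_lit 11) .nil)))))) (.g (nat_lit 5) .nil .nil)))) (.nd (nat_lit 6) 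
(.lf (nat_lit 135336) (.g (nat_lit 1958) (.e (nat_lit 16468) (nat_lit 13) (.e (nat_lit 483386) (nat_lit 23) (.e (nat_lit 335985) (nat_lit 1) (.e (nat_lit 57849) (nat_lit 252) (.e (nat_lit 57383) (nat_lit 4) (.e (nat_lit 106534) (nat_lit 11) .nil)))))) (.g (nat_lit 4) .nil .nil))) 
(.lf (nat_lit 135400) (.g (nat_lit 1450) (.e (nat_lit 16469) (nat_lit 14) (.e (nat_lit 491566) (nat_lit 12) (.e (nat_lit 385091) (nat_lit 49) .nil))) .nil)))) (.nd (nat_lit 5) (.nd (nat_lit 6) 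
(.lf (nat_lit 135320) (.g (nat_lit 1363) (.e (nat_lit 16468) (nat_lit 13) (.e (nat_lit 483372) (nat_lit 21) (.e (nat_lit 319534) (nat_lit 16) (.e (nat_lit 286728) (nat_lit 0) .nil)))) .nil)) 
(.lf (nat_lit 135384) (.g (nat_lit 4848) (.e (nat_lit 16469) (nat_lit 14) (.e (nat_lit 491539) (nat_lit 3) (.e (nat_lit 98373) (nat_lit 29) (.e (nat_lit 450588) (nat_lit 10) (.e (nat_lit 573471) (nat_lit 11) .nil))))) (.g (nat_lit 0) .nil .nil)))) (.nd (nat_lit 6) 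
(.lf (nat_lit 135352) (.g (nat_lit 2374) (.e (nat_lit 16468) (nat_lit 13) (.e (nat_lit 483393) (nat_lit 23) (.e (nat_lit 335986) (nat_lit 1) (.e (nat_lit 57849) (nat_lit 252) (.e (nat_lit 57385) (nat_lit 4) (.e (nat_lit 106534) (nat_lit 11) .nil)))))) (.g (nat_lit 0) .nil .nil))) 
(.lf (nat_lit 135416) (.g (nat_lit 2371) (.e (nat_lit 16469) (nat_lit 14) (.e (nat_lit 491570) (nat_lit 13) (.e (nat_lit 393260) (nat_lit 21) (.e (nat_lit 409616) (nat_lit 10) (.e (nat_lit 7936) (nat_lit 300) .nil))))) (.g (nat_lit 4) .nil .nil))))))) (.nd (nat_lit 3) (.nd (nat_lit 4) (.nd (nat_lit 5) (.nd (nat_lit 6) 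
(.lf (nat_lit 135300) (.g (nat_lit 1440) (.e (nat_lit 16468) (nat_lit 13) (.e (nat_lit 483372) (nat_lit 21) (.e (nat_lit 319504) (nat_lit 10) (.e (nat_lit 4962) (nat_lit 287) .nil)))) .nil)) 
(.lf (nat_lit 135364) (.g (nat_lit 1893) (.e (nat_lit 16468) (nat_lit 13) (.e (nat_lit 483394) (nat_lit 24) (.e (nat_lit 344160) (nat_lit 37) (.e (nat_lit 647201) (nat_lit 12) (.e (nat_lit 57509) (nat_lit 39) (.e (nat_lit 647199) (nat_lit 11) .nil)))))) (.g (nat_lit 5) .nil .nil)))) (.nd (nat_lit 6) 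
(.lf (nat_lit 135332) (.g (nat_lit 2185) (.e (nat_lit 16468) (nat_lit 13) (.e (nat_lit 483383) (nat_lit 23) (.e (nat_lit 336000) (nat_lit 1) (.e (nat_lit 57849) (nat_lit 252) (.e (nat_lit 57383) (nat_lit 4) (.e (nat_lit 106536) (nat_lit 11) .nil)))))) (.g (nat_lit 4) .nil .nil))) 
(.lf (nat_lit 135396) (.g (nat_lit 2149) (.e (nat_lit 16469) (nat_lit 14) (.e (nat_lit 491549) (nat_lit 9) (.e (nat_lit 336369) (nat_lit 27) (.e (nat_lit 426173) (nat_lit 7) (.e (nat_lit 409616) (nat_lit 10) (.e (nat_lit 7936) (nat_lit 300) .nil)))))) (.g (nat_lit 4) .nil .nil))))) (.nd (nat_lit 5) (.nd (nat_lit 6) 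
(.lf (nat_lit 135316) (.g (nat_lit 578) (.e (nat_lit 16468) (nat_lit 13) (.e (nat_lit 483372) (nat_lit 21) (.e (nat_lit 319532) (nat_lit 16) .nil))) .nil)) 
(.lf (nat_lit 135380) (.g (nat_lit 2439) (.e (nat_lit 16468) (nat_lit 13) (.e (nat_lit 483410) (nat_lit 27) (.e (nat_lit 401440) (nat_lit 9) (.e (nat_lit 426025) (nat_lit 0) (.e (nat_lit 3480) (nat_lit 218) .nil))))) .nil))) (.nd (nat_lit 6) 
(.lf (nat_lit 135348) (.g (nat_lit 2167) (.e (nat_lit 16468) (nat_lit 13) (.e (nat_lit 483393) (nat_lit 23) (.e (nat_lit 335986) (nat_lit 1) (.e (nat_lit 57847) (nat_lit 252) (.e (nat_lit 57383) (nat_lit 4) (.e (nat_lit 106534) (nat_lit 11) .nil)))))) (.g (nat_lit 5) .nil .nil))) 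
(.lf (nat_lit 135412) (.g (nat_lit 2089) (.e (nat_lit 16469) (nat_lit 14) (.e (nat_lit 491569) (nat_lit 13) (.e (nat_lit 393260) (nat_lit 21) (.e (nat_lit 409616) (nat_lit 10) .nil)))) .nil))))) (.nd (nat_lit 4) (.nd (nat_lit 5) (.nd (nat_lit 6) 
(.lf (nat_lit 135308) (.g (nat_lit 2194) (.e (nat_lit 16468) (nat_lit 13) (.e (nat_lit 483372) (nat_lit 21) (.e (nat_lit 319506) (nat_lit 10) (.e (nat_lit 4995) (nat_lit 288) (.e (nat_lit 57606) (nat_lit 107) (.e (nat_lit 712448) (nat_lit 11) .nil)))))) (.g (nat_lit 5) .nil .nil))) 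
(.lf (nat_lit 135372) (.g (nat_lit 1857) (.e (nat_lit 16468) (nat_lit 13) (.e (nat_lit 483395) (nat_lit 24) (.e (nat_lit 344160) (nat_lit 37) (.e (nat_lit 647201) (nat_lit 12) (.e (nat_lit 57509) (nat_lit 39) (.e (nat_lit 647199) (nat_lit 11) .nil)))))) (.g (nat_lit 5) .nil .nil)))) (.nd (nat_lit 6) 
(.lf (nat_lit 135340) (.g (nat_lit 1599) (.e (nat_lit 16468) (nat_lit 13) (.e (nat_lit 483391) (nat_lit 23) (.e (nat_lit 335998) (nat_lit 1) (.e (nat_lit 57849) (nat_lit 252) (.e (nat_lit 57381) (nat_lit 4) (.e (nat_lit 106536) (nat_lit 11) .nil)))))) (.g (nat_lit 4) .nil .nil))) 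
(.lf (nat_lit 135404) (.g (nat_lit 1049) (.e (nat_lit 16469) (nat_lit 14) (.e (nat_lit 491566) (nat_lit 12) (.e (nat_lit 385105) (nat_lit 50) .nil))) .nil)))) (.nd (nat_lit 5) (.nd (nat_lit 6) 
(.lf (nat_lit 135324) (.g (nat_lit 3706) (.e (nat_lit 16468) (nat_lit 13) (.e (nat_lit 483372) (nat_lit 21) (.e (nat_lit 319534) (nat_lit 16) (.e (nat_lit 286728) (nat_lit 0) (.e (nat_lit 2391) (nat_lit 156) (.e (nat_lit 827136) (nat_lit 11) .nil)))))) (.g (nat_lit 5) .nil .nil))) 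
(.lf (nat_lit 135388) (.g (nat_lit 4517) (.e (nat_lit 16469) (nat_lit 14) (.e (nat_lit 491540) (nat_lit 3) (.e (nat_lit 98373) (nat_lit 29) (.e (nat_lit 450563) (nat_lit 0) (.e (nat_lit 4168) (nat_lit 251) (.e (nat_lit 1128) (nat_lit 83) .nil)))))) (.g (nat_lit 4) .nil .nil)))) (.nd (nat_lit 6) 
(.lf (nat_lit 135356) (.g (nat_lit 3117) (.e (nat_lit 16468) (nat_lit 13) (.e (nat_lit 483393) (nat_lit 23) (.e (nat_lit 335986) (nat_lit 1) (.e (nat_lit 57854) (nat_lit 252) (.e (nat_lit 57384) (nat_lit 4) (.e (nat_lit 106536) (nat_lit 11) .nil)))))) (.g (nat_lit 5) .nil .nil))) 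
(.lf (nat_lit 135420) (.g (nat_lit 3510) (.e (nat_lit 16469) (nat_lit 14) (.e (nat_lit 491571) (nat_lit 13) (.e (nat_lit 393260) (nat_lit 21) (.e (nat_lit 409609) (nat_lit 10) .nil)))) .nil))))))) (.nd (nat_lit 2) (.nd (nat_lit 3) (.nd (nat_lit 4) (.nd (nat_lit 5) (.nd (nat_lit 6) 
(.lf (nat_lit 135298) (.g (nat_lit 2056) (.e (nat_lit 16468) (nat_lit 13) (.e (nat_lit 483371) (nat_lit 21) (.e (nat_lit 319506) (nat_lit 10) (.e (nat_lit 4995) (nat_lit 288) (.e (nat_lit 57606) (nat_lit 107) (.e (nat_lit 712448) (nat_lit 11) .nil)))))) (.g (nat_lit 5) .nil .nil))) 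
(.lf (nat_lit 135362) (.g (nat_lit 2399) (.e (nat_lit 16468) (nat_lit 13) (.e (nat_lit 483394) (nat_lit 24) (.e (nat_lit 344160) (nat_lit 37) (.e (nat_lit 647200) (nat_lit 12) (.e (nat_lit 57508) (nat_lit 39) (.e (nat_lit 647199) (nat_lit 11) .nil)))))) (.g (nat_lit 6) .nil .nil)))) (.nd (nat_lit 6) 
(.lf (nat_lit 135330) (.g (nat_lit 2507) (.e (nat_lit 16468) (nat_lit 13) (.e (nat_lit 483383) (nat_lit 23) (.e (nat_lit 336000) (nat_lit 1) (.e (nat_lit 57848) (nat_lit 252) (.e (nat_lit 57386) (nat_lit 4) (.e (nat_lit 106536) (nat_lit 11) .nil)))))) (.g (nat_lit 6) .nil .nil))) 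
(.lf (nat_lit 135394) (.g (nat_lit 4218) (.e (nat_lit 16469) (nat_lit 14) (.e (nat_lit 491540) (nat_lit 3) (.e (nat_lit 98373) (nat_lit 29) (.e (nat_lit 450587) (nat_lit 10) (.e (nat_lit 573469) (nat_lit 11) .nil))))) (.g (nat_lit 5) .nil .nil))))) (.nd (nat_lit 5) (.nd (nat_lit 6) 
(.lf (nat_lit 135314) (.g (nat_lit 806) (.e (nat_lit 16468) (nat_lit 13) (.e (nat_lit 483372) (nat_lit 21) (.e (nat_lit 319526) (nat_lit 15) .nil))) .nil)) 
(.lf (nat_lit 135378) (.g (nat_lit 3222) (.e (nat_lit 16468) (nat_lit 13) (.e (nat_lit 483409) (nat_lit 27) (.e (nat_lit 401454) (nat_lit 12) (.e (nat_lit 475191) (nat_lit 36) (.e (nat_lit 614435) (nat_lit 11) .nil))))) (.g (nat_lit 5) .nil .nil)))) (.nd (nat_lit 6) 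
(.lf (nat_lit 135346) (.g (nat_lit 1741) (.e (nat_lit 16468) (nat_lit 13) (.e (nat_lit 483392) (nat_lit 23) (.e (nat_lit 335986) (nat_lit 1) (.e (nat_lit 57847) (nat_lit 252) (.e (nat_lit 57386) (nat_lit 4) (.e (nat_lit 106534) (nat_lit 11) .nil)))))) (.g (nat_lit 4) .nil .nil))) 
(.lf (nat_lit 135410) (.g (nat_lit 2820) (.e (nat_lit 16469) (nat_lit 14) (.e (nat_lit 491568) (nat_lit 13) (.e (nat_lit 393260) (nat_lit 21) (.e (nat_lit 409617) (nat_lit 10) (.e (nat_lit 7936) (nat_lit 300) .nil))))) (.g (nat_lit 4) .nil .nil)))))) (.nd (nat_lit 4) (.nd (nat_lit 5) (.nd (nat_lit 6) 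
(.lf (nat_lit 135306) (.g (nat_lit 1301) (.e (nat_lit 16468) (nat_lit 13) (.e (nat_lit 483372) (nat_lit 21) (.e (nat_lit 319505) (nat_lit 10) (.e (nat_lit 5714) (nat_lit 312) .nil)))) .nil)) 
(.lf (nat_lit 135370) (.g (nat_lit 2151) (.e (nat_lit 16468) (nat_lit 13) (.e (nat_lit 483395) (nat_lit 24) (.e (nat_lit 344156) (nat_lit 36) (.e (nat_lit 639018) (nat_lit 15) (.e (nat_lit 57532) (nat_lit 46) (.e (nat_lit 712448) (nat_lit 11) .nil)))))) (.g (nat_lit 5) .nil .nil)))) (.nd (nat_lit 6) 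
(.lf (nat_lit 135338) (.g (nat_lit 1649) (.e (nat_lit 16468) (nat_lit 13) (.e (nat_lit 483386) (nat_lit 23) (.e (nat_lit 335985) (nat_lit 1) (.e (nat_lit 57849) (nat_lit 252) (.e (nat_lit 57385) (nat_lit 4) (.e (nat_lit 106536) (nat_lit 11) .nil)))))) (.g (nat_lit 4) .nil .nil))) 
(.lf (nat_lit 135402) (.g (nat_lit 1033) (.e (nat_lit 16469) (nat_lit 14) (.e (nat_lit 491566) (nat_lit 12) (.e (nat_lit 385093) (nat_lit 49) .nil))) .nil)))) (.nd (nat_lit 5) (.nd (nat_lit 6) 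
(.lf (nat_lit 135322) (.g (nat_lit 2167) (.e (nat_lit 16468) (nat_lit 13) (.e (nat_lit 483372) (nat_lit 21) (.e (nat_lit 319534) (nat_lit 16) (.e (nat_lit 286728) (nat_lit 0) (.e (nat_lit 995) (nat_lit 81) .nil))))) .nil)) 
(.lf (nat_lit 135386) (.g (nat_lit 1553) (.e (nat_lit 16469) (nat_lit 14) (.e (nat_lit 491540) (nat_lit 3) (.e (nat_lit 98373) (nat_lit 29) (.e (nat_lit 450561) (nat_lit 0) .nil)))) .nil))) (.nd (nat_lit 6) 
(.lf (nat_lit 135354) (.g (nat_lit 2760) (.e (nat_lit 16468) (nat_lit 13) (.e (nat_lit 483393) (nat_lit 23) (.e (nat_lit 335986) (nat_lit 1) (.e (nat_lit 57849) (nat_lit 252) (.e (nat_lit 57386) (nat_lit 4) (.e (nat_lit 106536) (nat_lit 11) .nil)))))) (.g (nat_lit 0) .nil .nil))) 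
(.lf (nat_lit 135418) (.g (nat_lit 1314) (.e (nat_lit 16469) (nat_lit 14) (.e (nat_lit 491570) (nat_lit 13) (.e (nat_lit 393260) (nat_lit 21) (.e (nat_lit 409623) (nat_lit 10) .nil)))) .nil)))))) (.nd (nat_lit 3) (.nd (nat_lit 4) (.nd (nat_lit 5) (.nd (nat_lit 6) 
(.lf (nat_lit 135302) (.g (nat_lit 1330) (.e (nat_lit 16468) (nat_lit 13) (.e (nat_lit 483372) (nat_lit 21) (.e (nat_lit 319504) (nat_lit 10) (.e (nat_lit 5396) (nat_lit 301) .nil)))) .nil)) 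
(.lf (nat_lit 135366) (.g (nat_lit 173) (.e (nat_lit 16468) (nat_lit 13) (.e (nat_lit 483395) (nat_lit 24) (.e (nat_lit 344156) (nat_lit 36) .nil))) .nil))) (.nd (nat_lit 6) 
(.lf (nat_lit 135334) (.g (nat_lit 1431) (.e (nat_lit 16468) (nat_lit 13) (.e (nat_lit 483386) (nat_lit 23) (.e (nat_lit 335985) (nat_lit 1) (.e (nat_lit 57848) (nat_lit 252) (.e (nat_lit 57383) (nat_lit 4) (.e (nat_lit 106534) (nat_lit 11) .nil)))))) (.g (nat_lit 4) .nil .nil))) 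
(.lf (nat_lit 135398) (.g (nat_lit 2319) (.e (nat_lit 16469) (nat_lit 14) (.e (nat_lit 491550) (nat_lit 9) (.e (nat_lit 336369) (nat_lit 27) (.e (nat_lit 426173) (nat_lit 7) (.e (nat_lit 409616) (nat_lit 10) (.e (nat_lit 7936) (nat_lit 300) .nil)))))) (.g (nat_lit 4) .nil .nil))))) (.nd (nat_lit 5) (.nd (nat_lit 6) 
(.lf (nat_lit 135318) (.g (nat_lit 1176) (.e (nat_lit 16468) (nat_lit 13) (.e (nat_lit 483372) (nat_lit 21) (.e (nat_lit 319533) (nat_lit 16) (.e (nat_lit 286720) (nat_lit 0) (.e (nat_lit 2395) (nat_lit 156) .nil))))) .nil)) 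
(.lf (nat_lit 135382) (.g (nat_lit 703) (.e (nat_lit 16468) (nat_lit 13) (.e (nat_lit 483411) (nat_lit 27) (.e (nat_lit 401446) (nat_lit 10) .nil))) .nil))) (.nd (nat_lit 6) 
(.lf (nat_lit 135350) (.g (nat_lit 2435) (.e (nat_lit 16468) (nat_lit 13) (.e (nat_lit 483393) (nat_lit 23) (.e (nat_lit 335986) (nat_lit 1) (.e (nat_lit 57847) (nat_lit 252) (.e (nat_lit 57386) (nat_lit 4) (.e (nat_lit 106534) (nat_lit 11) .nil)))))) (.g (nat_lit 0) .nil .nil))) 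
(.lf (nat_lit 135414) (.g (nat_lit 1339) (.e (nat_lit 16469) (nat_lit 14) (.e (nat_lit 491569) (nat_lit 13) (.e (nat_lit 393260) (nat_lit 21) (.e (nat_lit 409623) (nat_lit 10) .nil)))) .nil))))) (.nd (nat_lit 4) (.nd (nat_lit 5) (.nd (nat_lit 6) 
(.lf (nat_lit 135310) (.g (nat_lit 2105) (.e (nat_lit 16468) (nat_lit 13) (.e (nat_lit 483372) (nat_lit 21) (.e (nat_lit 319511) (nat_lit 10) (.e (nat_lit 5664) (nat_lit 312) (.e (nat_lit 2435) (nat_lit 157) (.e (nat_lit 3529) (nat_lit 218) (.e (nat_lit 704741) (nat_lit 11) .nil))))))) (.g (nat_lit 4) .nil .nil))) 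
(.lf (nat_lit 135374) (.g (nat_lit 2552) (.e (nat_lit 16468) (nat_lit 13) (.e (nat_lit 483396) (nat_lit 24) (.e (nat_lit 344161) (nat_lit 37) (.e (nat_lit 647201) (nat_lit 12) (.e (nat_lit 57509) (nat_lit 39) (.e (nat_lit 647199) (nat_lit 11) .nil)))))) (.g (nat_lit 0) .nil .nil)))) (.nd (nat_lit 6) 
(.lf (nat_lit 135342) (.g (nat_lit 2734) (.e (nat_lit 16468) (nat_lit 13) (.e (nat_lit 483391) (nat_lit 23) (.e (nat_lit 335998) (nat_lit 1) (.e (nat_lit 57849) (nat_lit 252) (.e (nat_lit 57386) (nat_lit 4) (.e (nat_lit 106536) (nat_lit 11) .nil)))))) (.g (nat_lit 0) .nil .nil))) 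
(.lf (nat_lit 135406) (.g (nat_lit 1452) (.e (nat_lit 16469) (nat_lit 14) (.e (nat_lit 491566) (nat_lit 12) (.e (nat_lit 385108) (nat_lit 51) .nil))) .nil)))) (.nd (nat_lit 5) (.nd (nat_lit 6) 
(.lf (nat_lit 135326) (.g (nat_lit 407) (.e (nat_lit 16468) (nat_lit 13) (.e (nat_lit 483372) (nat_lit 21) (.e (nat_lit 319537) (nat_lit 19) .nil))) .nil)) 
(.lf (nat_lit 135390) (.g (nat_lit 4482) (.e (nat_lit 16469) (nat_lit 14) (.e (nat_lit 491540) (nat_lit 3) (.e (nat_lit 98373) (nat_lit 29) (.e (nat_lit 450563) (nat_lit 0) (.e (nat_lit 4212) (nat_lit 251) (.e (nat_lit 1128) (nat_lit 83) .nil)))))) (.g (nat_lit 4) .nil .nil)))) (.nd (nat_lit 6) 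
(.lf (nat_lit 135358) (.g (nat_lit 1776) (.e (nat_lit 16468) (nat_lit 13) (.e (nat_lit 483393) (nat_lit 23) (.e (nat_lit 335988) (nat_lit 1) (.e (nat_lit 57851) (nat_lit 252) (.e (nat_lit 57382) (nat_lit 4) (.e (nat_lit 106534) (nat_lit 11) .nil)))))) (.g (nat_lit 4) .nil .nil))) 
(.lf (nat_lit 135422) (.g (nat_lit 3464) (.e (nat_lit 16469) (nat_lit 14) (.e (nat_lit 491571) (nat_lit 13) (.e (nat_lit 393260) (nat_lit 21) (.e (nat_lit 409612) (nat_lit 10) .nil)))) .nil)))))))) (.nd (nat_lit 1) (.nd (nat_lit 2) (.nd (nat_lit 3) (.nd (nat_lit 4) (.nd (nat_lit 5) (.nd (nat_lit 6) 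
(.lf (nat_lit 135297) (.g (nat_lit 824) (.e (nat_lit 16468) (nat_lit 13) (.e (nat_lit 483365) (nat_lit 18) (.e (nat_lit 57679) (nat_lit 153) .nil))) .nil)) 
(.lf (nat_lit 135361) (.g (nat_lit 1085) (.e (nat_lit 16468) (nat_lit 13) (.e (nat_lit 483394) (nat_lit 24) (.e (nat_lit 344097) (nat_lit 18) (.e (nat_lit 5194) (nat_lit 294) .nil)))) .nil))) (.nd (nat_lit 6) 
(.lf (nat_lit 135329) (.g (nat_lit 891) (.e (nat_lit 16468) (nat_lit 13) (.e (nat_lit 483378) (nat_lit 23) (.e (nat_lit 336336) (nat_lit 20) (.e (nat_lit 229120) (nat_lit 4) .nil)))) .nil)) 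
(.lf (nat_lit 135393) (.g (nat_lit 4012) (.e (nat_lit 16469) (nat_lit 14) (.e (nat_lit 491540) (nat_lit 3) (.e (nat_lit 98373) (nat_lit 29) (.e (nat_lit 450567) (nat_lit 0) (.e (nat_lit 4188) (nat_lit 251) (.e (nat_lit 1128) (nat_lit 83) .nil)))))) (.g (nat_lit 4) .nil .nil))))) (.nd (nat_lit 5) (.nd (nat_lit 6) 
(.lf (nat_lit 135313) (.g (nat_lit 901) (.e (nat_lit 16468) (nat_lit 13) (.e (nat_lit 483372) (nat_lit 21) (.e (nat_lit 319524) (nat_lit 14) (.e (nat_lit 270356) (nat_lit 10) .nil)))) .nil)) 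
(.lf (nat_lit 135377) (.g (nat_lit 1024) (.e (nat_lit 16468) (nat_lit 13) (.e (nat_lit 483409) (nat_lit 27) (.e (nat_lit 401448) (nat_lit 10) (.e (nat_lit 434290) (nat_lit 44) .nil)))) .nil))) (.nd (nat_lit 6) 
(.lf (nat_lit 135345) (.g (nat_lit 1673) (.e (nat_lit 16468) (nat_lit 13) (.e (nat_lit 483392) (nat_lit 23) (.e (nat_lit 335986) (nat_lit 1) (.e (nat_lit 57847) (nat_lit 252) (.e (nat_lit 57385) (nat_lit 4) (.e (nat_lit 106536) (nat_lit 11) .nil)))))) (.g (nat_lit 4) .nil .nil))) 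
(.lf (nat_lit 135409) (.g (nat_lit 2692) (.e (nat_lit 16469) (nat_lit 14) (.e (nat_lit 491568) (nat_lit 13) (.e (nat_lit 393260) (nat_lit 21) (.e (nat_lit 409616) (nat_lit 10) (.e (nat_lit 7936) (nat_lit 300) .nil))))) (.g (nat_lit 4) .nil .nil)))))) (.nd (nat_lit 4) (.nd (nat_lit 5) (.nd (nat_lit 6) 
(.lf (nat_lit 135305) (.g (nat_lit 1538) (.e (nat_lit 16468) (nat_lit 13) (.e (nat_lit 483372) (nat_lit 21) (.e (nat_lit 319505) (nat_lit 10) (.e (nat_lit 5712) (nat_lit 312) (.e (nat_lit 2509) (nat_lit 157) .nil))))) .nil)) 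
(.lf (nat_lit 135369) (.g (nat_lit 896) (.e (nat_lit 16468) (nat_lit 13) (.e (nat_lit 483395) (nat_lit 24) (.e (nat_lit 344156) (nat_lit 36) (.e (nat_lit 639018) (nat_lit 15) .nil)))) .nil))) (.nd (nat_lit 6) 
(.lf (nat_lit 135337) (.g (nat_lit 1706) (.e (nat_lit 16468) (nat_lit 13) (.e (nat_lit 483386) (nat_lit 23) (.e (nat_lit 335985) (nat_lit 1) (.e (nat_lit 57849) (nat_lit 252) (.e (nat_lit 57385) (nat_lit 4) (.e (nat_lit 106534) (nat_lit 11) .nil)))))) (.g (nat_lit 4) .nil .nil))) 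
(.lf (nat_lit 135401) (.g (nat_lit 1683) (.e (nat_lit 16469) (nat_lit 14) (.e (nat_lit 491566) (nat_lit 12) (.e (nat_lit 385092) (nat_lit 49) (.e (nat_lit 778297) (nat_lit 0) .nil)))) .nil)))) (.nd (nat_lit 5) (.nd (nat_lit 6) 
(.lf (nat_lit 135321) (.g (nat_lit 2242) (.e (nat_lit 16468) (nat_lit 13) (.e (nat_lit 483372) (nat_lit 21) (.e (nat_lit 319534) (nat_lit 16) (.e (nat_lit 286728) (nat_lit 0) (.e (nat_lit 990) (nat_lit 81) .nil))))) .nil)) 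
(.lf (nat_lit 135385) (.g (nat_lit 2264) (.e (nat_lit 16469) (nat_lit 14) (.e (nat_lit 491540) (nat_lit 3) (.e (nat_lit 98372) (nat_lit 29) (.e (nat_lit 450586) (nat_lit 10) (.e (nat_lit 573469) (nat_lit 11) .nil))))) (.g (nat_lit 4) .nil .nil)))) (.nd (nat_lit 6) 
(.lf (nat_lit 135353) (.g (nat_lit 2569) (.e (nat_lit 16468) (nat_lit 13) (.e (nat_lit 483393) (nat_lit 23) (.e (nat_lit 335986) (nat_lit 1) (.e (nat_lit 57849) (nat_lit 252) (.e (nat_lit 57386) (nat_lit 4) (.e (nat_lit 106534) (nat_lit 11) .nil)))))) (.g (nat_lit 0) .nil .nil))) 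
(.lf (nat_lit 135417) (.g (nat_lit 3050) (.e (nat_lit 16469) (nat_lit 14) (.e (nat_lit 491570) (nat_lit 13) (.e (nat_lit 393260) (nat_lit 21) (.e (nat_lit 409617) (nat_lit 10) (.e (nat_lit 7936) (nat_lit 300) .nil))))) (.g (nat_lit 4) .nil .nil))))))) (.nd (nat_lit 3) (.nd (nat_lit 4) (.nd (nat_lit 5) (.nd (nat_lit 6) 
(.lf (nat_lit 135301) (.g (nat_lit 3134) (.e (nat_lit 16468) (nat_lit 13) (.e (nat_lit 483372) (nat_lit 21) (.e (nat_lit 319504) (nat_lit 10) (.e (nat_lit 4987) (nat_lit 288) (.e (nat_lit 57606) (nat_lit 107) (.e (nat_lit 712448) (nat_lit 11) .nil)))))) (.g (nat_lit 5) .nil .nil))) 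
(.lf (nat_lit 135365) (.g (nat_lit 1324) (.e (nat_lit 16468) (nat_lit 13) (.e (nat_lit 483394) (nat_lit 24) (.e (nat_lit 344161) (nat_lit 37) (.e (nat_lit 647201) (nat_lit 12) (.e (nat_lit 57509) (nat_lit 39) (.e (nat_lit 647199) (nat_lit 11) .nil)))))) (.g (nat_lit 4) .nil .nil)))) (.nd (nat_lit 6) 
(.lf (nat_lit 135333) (.g (nat_lit 1710) (.e (nat_lit 16468) (nat_lit 13) (.e (nat_lit 483383) (nat_lit 23) (.e (nat_lit 336334) (nat_lit 20) (.e (nat_lit 229120) (nat_lit 4) .nil)))) .nil)) 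
(.lf (nat_lit 135397) (.g (nat_lit 2615) (.e (nat_lit 16469) (nat_lit 14) (.e (nat_lit 491549) (nat_lit 9) (.e (nat_lit 336369) (nat_lit 27) (.e (nat_lit 426173) (nat_lit 7) (.e (nat_lit 409617) (nat_lit 10) (.e (nat_lit 7936) (nat_lit 300) .nil)))))) (.g (nat_lit 5) .nil .nil))))) (.nd (nat_lit 5) (.nd (nat_lit 6) 
(.lf (nat_lit 135317) (.g (nat_lit 973) (.e (nat_lit 16468) (nat_lit 13) (.e (nat_lit 483372) (nat_lit 21) (.e (nat_lit 319533) (nat_lit 16) (.e (nat_lit 286720) (nat_lit 0) .nil)))) .nil)) 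
(.lf (nat_lit 135381) (.g (nat_lit 1798) (.e (nat_lit 16468) (nat_lit 13) (.e (nat_lit 483411) (nat_lit 27) (.e (nat_lit 401440) (nat_lit 9) (.e (nat_lit 426025) (nat_lit 0) .nil)))) .nil))) (.nd (nat_lit 6) 
(.lf (nat_lit 135349) (.g (nat_lit 2345) (.e (nat_lit 16468) (nat_lit 13) (.e (nat_lit 483393) (nat_lit 23) (.e (nat_lit 335986) (nat_lit 1) (.e (nat_lit 57847) (nat_lit 252) (.e (nat_lit 57385) (nat_lit 4) (.e (nat_lit 106534) (nat_lit 11) .nil)))))) (.g (nat_lit 0) .nil .nil))) 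
(.lf (nat_lit 135413) (.g (nat_lit 2489) (.e (nat_lit 16469) (nat_lit 14) (.e (nat_lit 491569) (nat_lit 13) (.e (nat_lit 393260) (nat_lit 21) (.e (nat_lit 409617) (nat_lit 10) (.e (nat_lit 7936) (nat_lit 300) .nil))))) .nil))))) (.nd (nat_lit 4) (.nd (nat_lit 5) (.nd (nat_lit 6) 
(.lf (nat_lit 135309) (.g (nat_lit 1683) (.e (nat_lit 16468) (nat_lit 13) (.e (nat_lit 483372) (nat_lit 21) (.e (nat_lit 319506) (nat_lit 10) (.e (nat_lit 5003) (nat_lit 288) .nil)))) .nil)) 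
(.lf (nat_lit 135373) (.g (nat_lit 1723) (.e (nat_lit 16468) (nat_lit 13) (.e (nat_lit 483396) (nat_lit 24) (.e (nat_lit 344161) (nat_lit 37) (.e (nat_lit 647200) (nat_lit 12) (.e (nat_lit 57508) (nat_lit 39) (.e (nat_lit 647199) (nat_lit 11) .nil)))))) (.g (nat_lit 4) .nil .nil)))) (.nd (nat_lit 6) 
(.lf (nat_lit 135341) (.g (nat_lit 2440) (.e (nat_lit 16468) (nat_lit 13) (.e (nat_lit 483391) (nat_lit 23) (.e (nat_lit 335998) (nat_lit 1) (.e (nat_lit 57849) (nat_lit 252) (.e (nat_lit 57385) (nat_lit 4) (.e (nat_lit 106536) (nat_lit 11) .nil)))))) (.g (nat_lit 0) .nil .nil))) 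
(.lf (nat_lit 135405) (.g (nat_lit 1086) (.e (nat_lit 16469) (nat_lit 14) (.e (nat_lit 491566) (nat_lit 12) (.e (nat_lit 385107) (nat_lit 51) .nil))) .nil)))) (.nd (nat_lit 5) (.nd (nat_lit 6) 
(.lf (nat_lit 135325) (.g (nat_lit 1735) (.e (nat_lit 16468) (nat_lit 13) (.e (nat_lit 483372) (nat_lit 21) (.e (nat_lit 319534) (nat_lit 16) (.e (nat_lit 286736) (nat_lit 4) .nil)))) .nil)) 
(.lf (nat_lit 135389) (.g (nat_lit 4064) (.e (nat_lit 16469) (nat_lit 14) (.e (nat_lit 491540) (nat_lit 3) (.e (nat_lit 98373) (nat_lit 29) (.e (nat_lit 450563) (nat_lit 0) (.e (nat_lit 4202) (nat_lit 251) .nil))))) .nil))) (.nd (nat_lit 6) 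
(.lf (nat_lit 135357) (.g (nat_lit 1704) (.e (nat_lit 16468) (nat_lit 13) (.e (nat_lit 483393) (nat_lit 23) (.e (nat_lit 335988) (nat_lit 1) (.e (nat_lit 57844) (nat_lit 252) (.e (nat_lit 57382) (nat_lit 4) (.e (nat_lit 106534) (nat_lit 11) .nil)))))) (.g (nat_lit 4) .nil .nil))) 
(.lf (nat_lit 135421) (.g (nat_lit 4229) (.e (nat_lit 16469) (nat_lit 14) (.e (nat_lit 491571) (nat_lit 13) (.e (nat_lit 393260) (nat_lit 21) (.e (nat_lit 409610) (nat_lit 10) .nil)))) .nil))))))) (.nd (nat_lit 2) (.nd (nat_lit 3) (.nd (nat_lit 4) (.nd (nat_lit 5) (.nd (nat_lit 6) 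
(.lf (nat_lit 135299) (.g (nat_lit 1224) (.e (nat_lit 16468) (nat_lit 13) (.e (nat_lit 483371) (nat_lit 21) (.e (nat_lit 319506) (nat_lit 10) (.e (nat_lit 5003) (nat_lit 288) .nil)))) .nil)) 
(.lf (nat_lit 135363) (.g (nat_lit 1674) (.e (nat_lit 16468) (nat_lit 13) (.e (nat_lit 483394) (nat_lit 24) (.e (nat_lit 344160) (nat_lit 37) (.e (nat_lit 647200) (nat_lit 12) (.e (nat_lit 57511) (nat_lit 39) .nil))))) .nil))) (.nd (nat_lit 6) 
(.lf (nat_lit 135331) (.g (nat_lit 2019) (.e (nat_lit 16468) (nat_lit 13) (.e (nat_lit 483383) (nat_lit 23) (.e (nat_lit 336000) (nat_lit 1) (.e (nat_lit 57849) (nat_lit 252) (.e (nat_lit 57381) (nat_lit 4) (.e (nat_lit 106536) (nat_lit 11) .nil)))))) (.g (nat_lit 4) .nil .nil))) 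
(.lf (nat_lit 135395) (.g (nat_lit 3044) (.e (nat_lit 16469) (nat_lit 14) (.e (nat_lit 491540) (nat_lit 3) (.e (nat_lit 98373) (nat_lit 29) (.e (nat_lit 450587) (nat_lit 10) (.e (nat_lit 573470) (nat_lit 11) .nil))))) (.g (nat_lit 4) .nil .nil))))) (.nd (nat_lit 5) (.nd (nat_lit 6) 
(.lf (nat_lit 135315) (.g (nat_lit 3046) (.e (nat_lit 16468) (nat_lit 13) (.e (nat_lit 483372) (nat_lit 21) (.e (nat_lit 319531) (nat_lit 16) (.e (nat_lit 286728) (nat_lit 0) (.e (nat_lit 2391) (nat_lit 156) (.e (nat_lit 819237) (nat_lit 11) .nil)))))) (.g (nat_lit 5) .nil .nil))) 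
(.lf (nat_lit 135379) (.g (nat_lit 936) (.e (nat_lit 16468) (nat_lit 13) (.e (nat_lit 483410) (nat_lit 27) (.e (nat_lit 401440) (nat_lit 9) .nil))) .nil))) (.nd (nat_lit 6) 
(.lf (nat_lit 135347) (.g (nat_lit 1857) (.e (nat_lit 16468) (nat_lit 13) (.e (nat_lit 483392) (nat_lit 23) (.e (nat_lit 335986) (nat_lit 1) (.e (nat_lit 57847) (nat_lit 252) (.e (nat_lit 57386) (nat_lit 4) (.e (nat_lit 106536) (nat_lit 11) .nil)))))) (.g (nat_lit 4) .nil .nil))) 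
(.lf (nat_lit 135411) (.g (nat_lit 1552) (.e (nat_lit 16469) (nat_lit 14) (.e (nat_lit 491568) (nat_lit 13) (.e (nat_lit 393260) (nat_lit 21) (.e (nat_lit 409623) (nat_lit 10) .nil)))) .nil))))) (.nd (nat_lit 4) (.nd (nat_lit 5) (.nd (nat_lit 6) 
(.lf (nat_lit 135307) (.g (nat_lit 1633) (.e (nat_lit 16468) (nat_lit 13) (.e (nat_lit 483372) (nat_lit 21) (.e (nat_lit 319506) (nat_lit 10) (.e (nat_lit 4994) (nat_lit 288) (.e (nat_lit 57606) (nat_lit 107) .nil))))) .nil)) 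
(.lf (nat_lit 135371) (.g (nat_lit 2277) (.e (nat_lit 16468) (nat_lit 13) (.e (nat_lit 483395) (nat_lit 24) (.e (nat_lit 344160) (nat_lit 37) (.e (nat_lit 647200) (nat_lit 12) (.e (nat_lit 57508) (nat_lit 39) (.e (nat_lit 647199) (nat_lit 11) .nil)))))) (.g (nat_lit 5) .nil .nil)))) (.nd (nat_lit 6) 
(.lf (nat_lit 135339) (.g (nat_lit 1075) (.e (nat_lit 16468) (nat_lit 13) (.e (nat_lit 483389) (nat_lit 23) (.e (nat_lit 335997) (nat_lit 1) (.e (nat_lit 57848) (nat_lit 252) (.e (nat_lit 57386) (nat_lit 4) .nil))))) .nil)) 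
(.lf (nat_lit 135403) (.g (nat_lit 4601) (.e (nat_lit 16469) (nat_lit 14) (.e (nat_lit 491566) (nat_lit 12) (.e (nat_lit 385104) (nat_lit 50) (.e (nat_lit 786460) (nat_lit 20) (.e (nat_lit 114723) (nat_lit 24) (.e (nat_lit 106536) (nat_lit 11) .nil)))))) (.g (nat_lit 0) .nil .nil))))) (.nd (nat_lit 5) (.nd (nat_lit 6) 
(.lf (nat_lit 135323) (.g (nat_lit 3500) (.e (nat_lit 16468) (nat_lit 13) (.e (nat_lit 483372) (nat_lit 21) (.e (nat_lit 319534) (nat_lit 16) (.e (nat_lit 286728) (nat_lit 0) (.e (nat_lit 2390) (nat_lit 156) (.e (nat_lit 827136) (nat_lit 11) .nil)))))) (.g (nat_lit 5) .nil .nil))) 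
(.lf (nat_lit 135387) (.g (nat_lit 4113) (.e (nat_lit 16469) (nat_lit 14) (.e (nat_lit 491540) (nat_lit 3) (.e (nat_lit 98373) (nat_lit 29) (.e (nat_lit 450562) (nat_lit 0) (.e (nat_lit 4168) (nat_lit 251) .nil))))) .nil))) (.nd (nat_lit 6) 
(.lf (nat_lit 135355) (.g (nat_lit 3030) (.e (nat_lit 16468) (nat_lit 13) (.e (nat_lit 483393) (nat_lit 23) (.e (nat_lit 335986) (nat_lit 1) (.e (nat_lit 57854) (nat_lit 252) (.e (nat_lit 57384) (nat_lit 4) (.e (nat_lit 106534) (nat_lit 11) .nil)))))) (.g (nat_lit 5) .nil .nil))) 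
(.lf (nat_lit 135419) (.g (nat_lit 3425) (.e (nat_lit 16469) (nat_lit 14) (.e (nat_lit 491571) (nat_lit 13) (.e (nat_lit 393260) (nat_lit 21) (.e (nat_lit 409608) (nat_lit 10) .nil)))) .nil)))))) (.nd (nat_lit 3) (.nd (nat_lit 4) (.nd (nat_lit 5) (.nd (nat_lit 6) 
(.lf (nat_lit 135303) (.g (nat_lit 2552) (.e (nat_lit 16468) (nat_lit 13) (.e (nat_lit 483372) (nat_lit 21) (.e (nat_lit 319505) (nat_lit 10) (.e (nat_lit 4987) (nat_lit 288) (.e (nat_lit 57606) (nat_lit 107) (.e (nat_lit 712448) (nat_lit 11) .nil)))))) (.g (nat_lit 5) .nil .nil))) 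
(.lf (nat_lit 135367) (.g (nat_lit 1362) (.e (nat_lit 16468) (nat_lit 13) (.e (nat_lit 483395) (nat_lit 24) (.e (nat_lit 344156) (nat_lit 36) (.e (nat_lit 639017) (nat_lit 15) (.e (nat_lit 57531) (nat_lit 46) .nil))))) .nil))) (.nd (nat_lit 6) 
(.lf (nat_lit 135335) (.g (nat_lit 1371) (.e (nat_lit 16468) (nat_lit 13) (.e (nat_lit 483386) (nat_lit 23) (.e (nat_lit 335985) (nat_lit 1) (.e (nat_lit 57848) (nat_lit 252) (.e (nat_lit 57385) (nat_lit 4) (.e (nat_lit 106536) (nat_lit 11) .nil)))))) (.g (nat_lit 4) .nil .nil))) 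
(.lf (nat_lit 135399) (.g (nat_lit 2810) (.e (nat_lit 16469) (nat_lit 14) (.e (nat_lit 491550) (nat_lit 9) (.e (nat_lit 336369) (nat_lit 27) (.e (nat_lit 426173) (nat_lit 7) (.e (nat_lit 409617) (nat_lit 10) (.e (nat_lit 7936) (nat_lit 300) .nil)))))) (.g (nat_lit 5) .nil .nil))))) (.nd (nat_lit 5) (.nd (nat_lit 6) 
(.lf (nat_lit 135319) (.g (nat_lit 1068) (.e (nat_lit 16468) (nat_lit 13) (.e (nat_lit 483372) (nat_lit 21) (.e (nat_lit 319533) (nat_lit 16) (.e (nat_lit 286724) (nat_lit 0) .nil)))) .nil)) 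
(.lf (nat_lit 135383) (.g (nat_lit 3312) (.e (nat_lit 16469) (nat_lit 14) (.e (nat_lit 491539) (nat_lit 3) (.e (nat_lit 98373) (nat_lit 29) (.e (nat_lit 450587) (nat_lit 10) (.e (nat_lit 573469) (nat_lit 11) .nil))))) (.g (nat_lit 4) .nil .nil)))) (.nd (nat_lit 6) 
(.lf (nat_lit 135351) (.g (nat_lit 2634) (.e (nat_lit 16468) (nat_lit 13) (.e (nat_lit 483393) (nat_lit 23) (.e (nat_lit 335986) (nat_lit 1) (.e (nat_lit 57847) (nat_lit 252) (.e (nat_lit 57386) (nat_lit 4) (.e (nat_lit 106536) (nat_lit 11) .nil)))))) (.g (nat_lit 0) .nil .nil))) 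
(.lf (nat_lit 135415) (.g (nat_lit 1070) (.e (nat_lit 16469) (nat_lit 14) (.e (nat_lit 491569) (nat_lit 13) (.e (nat_lit 393265) (nat_lit 22) .nil))) .nil))))) (.nd (nat_lit 4) (.nd (nat_lit 5) (.nd (nat_lit 6) 
(.lf (nat_lit 135311) (.g (nat_lit 1468) (.e (nat_lit 16468) (nat_lit 13) (.e (nat_lit 483372) (nat_lit 21) (.e (nat_lit 319511) (nat_lit 10) (.e (nat_lit 5664) (nat_lit 312) (.e (nat_lit 7936) (nat_lit 157) .nil))))) .nil)) 
(.lf (nat_lit 135375) (.g (nat_lit 952) (.e (nat_lit 16468) (nat_lit 13) (.e (nat_lit 483406) (nat_lit 26) (.e (nat_lit 385107) (nat_lit 51) .nil))) .nil))) (.nd (nat_lit 6) 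
(.lf (nat_lit 135343) (.g (nat_lit 1836) (.e (nat_lit 16468) (nat_lit 13) (.e (nat_lit 483392) (nat_lit 23) (.e (nat_lit 335986) (nat_lit 1) (.e (nat_lit 57847) (nat_lit 252) (.e (nat_lit 57383) (nat_lit 4) .nil))))) .nil)) 
(.lf (nat_lit 135407) (.g (nat_lit 1450) (.e (nat_lit 16469) (nat_lit 14) (.e (nat_lit 491566) (nat_lit 12) (.e (nat_lit 385110) (nat_lit 52) .nil))) .nil)))) (.nd (nat_lit 5) (.nd (nat_lit 6) 
(.lf (nat_lit 135327) (.g (nat_lit 665) (.e (nat_lit 16468) (nat_lit 13) (.e (nat_lit 483375) (nat_lit 22) (.e (nat_lit 327705) (nat_lit 10) (.e (nat_lit 4995) (nat_lit 288) .nil)))) .nil)) 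
(.lf (nat_lit 135391) (.g (nat_lit 3059) (.e (nat_lit 16469) (nat_lit 14) (.e (nat_lit 491540) (nat_lit 3) (.e (nat_lit 98373) (nat_lit 29) (.e (nat_lit 450566) (nat_lit 0) (.e (nat_lit 4214) (nat_lit 251) .nil))))) .nil))) (.nd (nat_lit 6) 
(.lf (nat_lit 135359) (.g (nat_lit 2037) (.e (nat_lit 16468) (nat_lit 13) (.e (nat_lit 483393) (nat_lit 23) (.e (nat_lit 335996) (nat_lit 1) (.e (nat_lit 57851) (nat_lit 252) (.e (nat_lit 57382) (nat_lit 4) .nil))))) .nil)) 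
(.lf (nat_lit 135423) (.g (nat_lit 2953) (.e (nat_lit 16469) (nat_lit 14) (.e (nat_lit 491571) (nat_lit 13) (.e (nat_lit 393260) (nat_lit 21) (.e (nat_lit 409614) (nat_lit 10) .nil)))) .nil)))))))))

noncomputable def tv1803 : DT := (.nd (nat_lit 0) (.nd (nat_lit 1) (.nd (nat_lit 2) (.nd (nat_lit 3) (.nd (nat_lit 4) (.nd (nat_lit 5) (.nd (nat_lit 6) 
(.lf (nat_lit 135424) (.g (nat_lit 4015) (.e (nat_lit 16469) (nat_lit 14) (.e (nat_lit 491571) (nat_lit 13) (.e (nat_lit 393260) (nat_lit 21) (.e (nat_lit 409614) (nat_lit 10) (.e (nat_lit 5380) (nat_lit 300) .nil))))) (.g (nat_lit 4) .nil .nil))) 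
(.lf (nat_lit 135488) (.g (nat_lit 4158) (.e (nat_lit 16470) (nat_lit 14) (.e (nat_lit 491540) (nat_lit 3) (.e (nat_lit 98373) (nat_lit 29) (.e (nat_lit 450563) (nat_lit 0) (.e (nat_lit 4212) (nat_lit 251) (.e (nat_lit 1128) (nat_lit 83) .nil)))))) (.g (nat_lit 4) .nil .nil)))) (.nd (nat_lit 6) 
(.lf (nat_lit 135456) (.g (nat_lit 4334) (.e (nat_lit 16470) (nat_lit 14) (.e (nat_lit 491537) (nat_lit 2) (.e (nat_lit 90170) (nat_lit 13) (.e (nat_lit 172106) (nat_lit 10) (.e (nat_lit 434209) (nat_lit 18) (.e (nat_lit 4216) (nat_lit 251) (.e (nat_lit 1125) (nat_lit 83) .nil))))))) (.g (nat_lit 4) .nil .nil))) 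
(.lf (nat_lit 135520) (.g (nat_lit 2290) (.e (nat_lit 16470) (nat_lit 14) (.e (nat_lit 491569) (nat_lit 13) (.e (nat_lit 393265) (nat_lit 22) (.e (nat_lit 417820) (nat_lit 10) (.e (nat_lit 7936) (nat_lit 300) .nil))))) (.g (nat_lit 4) .nil .nil))))) (.nd (nat_lit 5) (.nd (nat_lit 6) 
(.lf (nat_lit 135440) (.g (nat_lit 4614) (.e (nat_lit 16470) (nat_lit 14) (.e (nat_lit 491537) (nat_lit 2) (.e (nat_lit 90170) (nat_lit 13) (.e (nat_lit 172106) (nat_lit 10) (.e (nat_lit 434202) (nat_lit 18) (.e (nat_lit 4185) (nat_lit 251) (.e (nat_lit 1123) (nat_lit 83) .nil))))))) (.g (nat_lit 4) .nil .nil))) 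
(.lf (nat_lit 135504) (.g (nat_lit 4600) (.e (nat_lit 16470) (nat_lit 14) (.e (nat_lit 491550) (nat_lit 9) (.e (nat_lit 336369) (nat_lit 27) (.e (nat_lit 426173) (nat_lit 7) (.e (nat_lit 409616) (nat_lit 10) (.e (nat_lit 7936) (nat_lit 300) .nil)))))) (.g (nat_lit 5) .nil .nil)))) (.nd (nat_lit 6) 
(.lf (nat_lit 135472) (.g (nat_lit 3937) (.e (nat_lit 16470) (nat_lit 14) (.e (nat_lit 491540) (nat_lit 3) (.e (nat_lit 98373) (nat_lit 29) (.e (nat_lit 450562) (nat_lit 0) (.e (nat_lit 4168) (nat_lit 251) (.e (nat_lit 1126) (nat_lit 83) .nil)))))) (.g (nat_lit 4) .nil .nil))) 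
(.lf (nat_lit 135536) (.g (nat_lit 2057) (.e (nat_lit 16470) (nat_lit 14) (.e (nat_lit 491571) (nat_lit 13) (.e (nat_lit 393231) (nat_lit 17) (.e (nat_lit 7073) (nat_lit 377) (.e (nat_lit 2438) (nat_lit 157) (.e (nat_lit 7936) (nat_lit 300) .nil)))))) (.g (nat_lit 5) .nil .nil)))))) (.nd (nat_lit 4) (.nd (nat_lit 5) (.nd (nat_lit 6) 
(.lf (nat_lit 135432) (.g (nat_lit 764) (.e (nat_lit 16469) (nat_lit 14) (.e (nat_lit 491571) (nat_lit 13) (.e (nat_lit 393299) (nat_lit 27) .nil))) .nil)) 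
(.lf (nat_lit 135496) (.g (nat_lit 3107) (.e (nat_lit 16470) (nat_lit 14) (.e (nat_lit 491544) (nat_lit 7) (.e (nat_lit 319531) (nat_lit 16) (.e (nat_lit 286756) (nat_lit 10) (.e (nat_lit 344160) (nat_lit 37) (.e (nat_lit 647199) (nat_lit 11) .nil)))))) (.g (nat_lit 4) .nil .nil)))) (.nd (nat_lit 6) 
(.lf (nat_lit 135464) (.g (nat_lit 5885) (.e (nat_lit 16470) (nat_lit 14) (.e (nat_lit 491537) (nat_lit 2) (.e (nat_lit 90170) (nat_lit 13) (.e (nat_lit 172113) (nat_lit 10) (.e (nat_lit 434203) (nat_lit 18) (.e (nat_lit 4175) (nat_lit 251) (.e (nat_lit 1132) (nat_lit 83) .nil))))))) (.g (nat_lit 4) .nil .nil))) 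
(.lf (nat_lit 135528) (.g (nat_lit 2841) (.e (nat_lit 16470) (nat_lit 14) (.e (nat_lit 491569) (nat_lit 13) (.e (nat_lit 393301) (nat_lit 27) (.e (nat_lit 491529) (nat_lit 0) (.e (nat_lit 7936) (nat_lit 345) .nil))))) (.g (nat_lit 4) .nil .nil))))) (.nd (nat_lit 5) (.nd (nat_lit 6) 
(.lf (nat_lit 135448) (.g (nat_lit 4224) (.e (nat_lit 16470) (nat_lit 14) (.e (nat_lit 491537) (nat_lit 2) (.e (nat_lit 90170) (nat_lit 13) (.e (nat_lit 172106) (nat_lit 10) (.e (nat_lit 434209) (nat_lit 18) (.e (nat_lit 4204) (nat_lit 251) (.e (nat_lit 1126) (nat_lit 83) .nil))))))) (.g (nat_lit 4) .nil .nil))) 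
(.lf (nat_lit 135512) (.g (nat_lit 659) (.e (nat_lit 16470) (nat_lit 14) (.e (nat_lit 491569) (nat_lit 13) (.e (nat_lit 393259) (nat_lit 21) .nil))) .nil))) (.nd (nat_lit 6) 
(.lf (nat_lit 135480) (.g (nat_lit 4246) (.e (nat_lit 16470) (nat_lit 14) (.e (nat_lit 491540) (nat_lit 3) (.e (nat_lit 98373) (nat_lit 29) (.e (nat_lit 450563) (nat_lit 0) (.e (nat_lit 4174) (nat_lit 251) (.e (nat_lit 1123) (nat_lit 83) .nil)))))) (.g (nat_lit 4) .nil .nil))) 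
(.lf (nat_lit 135544) (.g (nat_lit 2867) (.e (nat_lit 16470) (nat_lit 14) (.e (nat_lit 491571) (nat_lit 13) (.e (nat_lit 393238) (nat_lit 17) (.e (nat_lit 6989) (nat_lit 377) (.e (nat_lit 2397) (nat_lit 157) (.e (nat_lit 7936) (nat_lit 300) .nil)))))) (.g (nat_lit 5) .nil .nil))))))) (.nd (nat_lit 3) (.nd (nat_lit 4) (.nd (nat_lit 5) (.nd (nat_lit 6) 
(.lf (nat_lit 135428) (.g (nat_lit 3170) (.e (nat_lit 16469) (nat_lit 14) (.e (nat_lit 491571) (nat_lit 13) (.e (nat_lit 393260) (nat_lit 21) (.e (nat_lit 409623) (nat_lit 10) .nil)))) .nil)) 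
(.lf (nat_lit 135492) (.g (nat_lit 3081) (.e (nat_lit 16470) (nat_lit 14) (.e (nat_lit 491540) (nat_lit 3) (.e (nat_lit 98373) (nat_lit 29) (.e (nat_lit 450585) (nat_lit 10) (.e (nat_lit 573469) (nat_lit 11) .nil))))) (.g (nat_lit 4) .nil .nil)))) (.nd (nat_lit 6) 
(.lf (nat_lit 135460) (.g (nat_lit 4685) (.e (nat_lit 16470) (nat_lit 14) (.e (nat_lit 491537) (nat_lit 2) (.e (nat_lit 90170) (nat_lit 13) (.e (nat_lit 172106) (nat_lit 10) (.e (nat_lit 434250) (nat_lit 29) (.e (nat_lit 581665) (nat_lit 11) .nil)))))) (.g (nat_lit 4) .nil .nil))) 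
(.lf (nat_lit 135524) (.g (nat_lit 3272) (.e (nat_lit 16470) (nat_lit 14) (.e (nat_lit 491569) (nat_lit 13) (.e (nat_lit 393301) (nat_lit 27) (.e (nat_lit 491521) (nat_lit 0) (.e (nat_lit 7936) (nat_lit 345) .nil))))) (.g (nat_lit 4) .nil .nil))))) (.nd (nat_lit 5) (.nd (nat_lit 6) 
(.lf (nat_lit 135444) (.g (nat_lit 4880) (.e (nat_lit 16470) (nat_lit 14) (.e (nat_lit 491537) (nat_lit 2) (.e (nat_lit 90170) (nat_lit 13) (.e (nat_lit 172106) (nat_lit 10) (.e (nat_lit 434202) (nat_lit 18) (.e (nat_lit 4203) (nat_lit 251) (.e (nat_lit 1127) (nat_lit 83) .nil))))))) (.g (nat_lit 4) .nil .nil))) 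
(.lf (nat_lit 135508) (.g (nat_lit 1374) (.e (nat_lit 16470) (nat_lit 14) (.e (nat_lit 491566) (nat_lit 12) (.e (nat_lit 385108) (nat_lit 51) .nil))) .nil))) (.nd (nat_lit 6) 
(.lf (nat_lit 135476) (.g (nat_lit 4290) (.e (nat_lit 16470) (nat_lit 14) (.e (nat_lit 491540) (nat_lit 3) (.e (nat_lit 98373) (nat_lit 29) (.e (nat_lit 450562) (nat_lit 0) (.e (nat_lit 4186) (nat_lit 251) (.e (nat_lit 1123) (nat_lit 83) .nil)))))) (.g (nat_lit 4) .nil .nil))) 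
(.lf (nat_lit 135540) (.g (nat_lit 836) (.e (nat_lit 16470) (nat_lit 14) (.e (nat_lit 491571) (nat_lit 13) (.e (nat_lit 393235) (nat_lit 17) (.e (nat_lit 2430) (nat_lit 157) .nil)))) .nil))))) (.nd (nat_lit 4) (.nd (nat_lit 5) (.nd (nat_lit 6) 
(.lf (nat_lit 135436) (.g (nat_lit 4728) (.e (nat_lit 16470) (nat_lit 14) (.e (nat_lit 491537) (nat_lit 2) (.e (nat_lit 90170) (nat_lit 13) (.e (nat_lit 172106) (nat_lit 10) (.e (nat_lit 434202) (nat_lit 18) (.e (nat_lit 4168) (nat_lit 251) (.e (nat_lit 1128) (nat_lit 83) .nil))))))) (.g (nat_lit 4) .nil .nil))) 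
(.lf (nat_lit 135500) (.g (nat_lit 3344) (.e (nat_lit 16470) (nat_lit 14) (.e (nat_lit 491548) (nat_lit 9) (.e (nat_lit 336369) (nat_lit 27) (.e (nat_lit 426173) (nat_lit 7) (.e (nat_lit 409616) (nat_lit 10) (.e (nat_lit 7936) (nat_lit 300) .nil)))))) (.g (nat_lit 5) .nil .nil)))) (.nd (nat_lit 6) 
(.lf (nat_lit 135468) (.g (nat_lit 2796) (.e (nat_lit 16470) (nat_lit 14) (.e (nat_lit 491538) (nat_lit 3) (.e (nat_lit 98372) (nat_lit 29) (.e (nat_lit 450588) (nat_lit 10) (.e (nat_lit 573471) (nat_lit 11) .nil))))) (.g (nat_lit 4) .nil .nil))) 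
(.lf (nat_lit 135532) (.g (nat_lit 1546) (.e (nat_lit 16470) (nat_lit 14) (.e (nat_lit 491570) (nat_lit 13) (.e (nat_lit 393238) (nat_lit 17) (.e (nat_lit 7114) (nat_lit 381) .nil)))) .nil)))) (.nd (nat_lit 5) (.nd (nat_lit 6) 
(.lf (nat_lit 135452) (.g (nat_lit 4644) (.e (nat_lit 16470) (nat_lit 14) (.e (nat_lit 491537) (nat_lit 2) (.e (nat_lit 90170) (nat_lit 13) (.e (nat_lit 172106) (nat_lit 10) (.e (nat_lit 434209) (nat_lit 18) (.e (nat_lit 4214) (nat_lit 251) (.e (nat_lit 1125) (nat_lit 83) .nil))))))) (.g (nat_lit 4) .nil .nil))) 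
(.lf (nat_lit 135516) (.g (nat_lit 3455) (.e (nat_lit 16470) (nat_lit 14) (.e (nat_lit 491569) (nat_lit 13) (.e (nat_lit 393260) (nat_lit 21) (.e (nat_lit 409617) (nat_lit 10) (.e (nat_lit 7936) (nat_lit 300) .nil))))) (.g (nat_lit 4) .nil .nil)))) (.nd (nat_lit 6) 
(.lf (nat_lit 135484) (.g (nat_lit 3916) (.e (nat_lit 16470) (nat_lit 14) (.e (nat_lit 491540) (nat_lit 3) (.e (nat_lit 98373) (nat_lit 29) (.e (nat_lit 450563) (nat_lit 0) (.e (nat_lit 4202) (nat_lit 251) (.e (nat_lit 1126) (nat_lit 83) .nil)))))) (.g (nat_lit 4) .nil .nil))) 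
(.lf (nat_lit 135548) (.g (nat_lit 2887) (.e (nat_lit 16470) (nat_lit 14) (.e (nat_lit 491571) (nat_lit 13) (.e (nat_lit 393238) (nat_lit 17) (.e (nat_lit 6989) (nat_lit 377) (.e (nat_lit 2406) (nat_lit 157) (.e (nat_lit 5383) (nat_lit 300) .nil)))))) (.g (nat_lit 4) .nil .nil)))))))) (.nd (nat_lit 2) (.nd (nat_lit 3) (.nd (nat_lit 4) (.nd (nat_lit 5) (.nd (nat_lit 6) 
(.lf (nat_lit 135426) (.g (nat_lit 3056) (.e (nat_lit 16469) (nat_lit 14) (.e (nat_lit 491571) (nat_lit 13) (.e (nat_lit 393260) (nat_lit 21) (.e (nat_lit 409616) (nat_lit 10) (.e (nat_lit 7936) (nat_lit 300) .nil))))) (.g (nat_lit 4) .nil .nil))) 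
(.lf (nat_lit 135490) (.g (nat_lit 4003) (.e (nat_lit 16470) (nat_lit 14) (.e (nat_lit 491540) (nat_lit 3) (.e (nat_lit 98373) (nat_lit 29) (.e (nat_lit 450567) (nat_lit 0) (.e (nat_lit 4211) (nat_lit 251) (.e (nat_lit 1126) (nat_lit 83) .nil)))))) (.g (nat_lit 4) .nil .nil)))) (.nd (nat_lit 6) 
(.lf (nat_lit 135458) (.g (nat_lit 4743) (.e (nat_lit 16470) (nat_lit 14) (.e (nat_lit 491537) (nat_lit 2) (.e (nat_lit 90170) (nat_lit 13) (.e (nat_lit 172106) (nat_lit 10) (.e (nat_lit 434209) (nat_lit 18) (.e (nat_lit 4216) (nat_lit 251) (.e (nat_lit 1127) (nat_lit 83) .nil))))))) (.g (nat_lit 4) .nil .nil))) 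
(.lf (nat_lit 135522) (.g (nat_lit 539) (.e (nat_lit 16470) (nat_lit 14) (.e (nat_lit 491569) (nat_lit 13) (.e (nat_lit 393283) (nat_lit 24) .nil))) .nil)))) (.nd (nat_lit 5) (.nd (nat_lit 6) 
(.lf (nat_lit 135442) (.g (nat_lit 4620) (.e (nat_lit 16470) (nat_lit 14) (.e (nat_lit 491537) (nat_lit 2) (.e (nat_lit 90170) (nat_lit 13) (.e (nat_lit 172106) (nat_lit 10) (.e (nat_lit 434202) (nat_lit 18) (.e (nat_lit 4202) (nat_lit 251) (.e (nat_lit 1127) (nat_lit 83) .nil))))))) (.g (nat_lit 4) .nil .nil))) 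
(.lf (nat_lit 135506) (.g (nat_lit 1449) (.e (nat_lit 16470) (nat_lit 14) (.e (nat_lit 491550) (nat_lit 9) (.e (nat_lit 336421) (nat_lit 28) (.e (nat_lit 434197) (nat_lit 16) (.e (nat_lit 171776) (nat_lit 234) .nil))))) (.g (nat_lit 4) .nil .nil)))) (.nd (nat_lit 6) 
(.lf (nat_lit 135474) (.g (nat_lit 3776) (.e (nat_lit 16470) (nat_lit 14) (.e (nat_lit 491540) (nat_lit 3) (.e (nat_lit 98373) (nat_lit 29) (.e (nat_lit 450562) (nat_lit 0) (.e (nat_lit 4175) (nat_lit 251) .nil))))) .nil)) 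
(.lf (nat_lit 135538) (.g (nat_lit 1824) (.e (nat_lit 16470) (nat_lit 14) (.e (nat_lit 491571) (nat_lit 13) (.e (nat_lit 393232) (nat_lit 17) (.e (nat_lit 6949) (nat_lit 377) (.e (nat_lit 2450) (nat_lit 157) .nil))))) .nil))))) (.nd (nat_lit 4) (.nd (nat_lit 5) (.nd (nat_lit 6) 
(.lf (nat_lit 135434) (.g (nat_lit 4481) (.e (nat_lit 16470) (nat_lit 14) (.e (nat_lit 491537) (nat_lit 2) (.e (nat_lit 90170) (nat_lit 13) (.e (nat_lit 172106) (nat_lit 10) (.e (nat_lit 434202) (nat_lit 18) (.e (nat_lit 4168) (nat_lit 251) (.e (nat_lit 1126) (nat_lit 83) .nil))))))) (.g (nat_lit 4) .nil .nil))) 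
(.lf (nat_lit 135498) (.g (nat_lit 3813) (.e (nat_lit 16470) (nat_lit 14) (.e (nat_lit 491544) (nat_lit 7) (.e (nat_lit 319534) (nat_lit 16) (.e (nat_lit 286756) (nat_lit 10) (.e (nat_lit 344160) (nat_lit 37) (.e (nat_lit 647199) (nat_lit 11) .nil)))))) (.g (nat_lit 4) .nil .nil)))) (.nd (nat_lit 6) 
(.lf (nat_lit 135466) (.g (nat_lit 2431) (.e (nat_lit 16470) (nat_lit 14) (.e (nat_lit 491537) (nat_lit 2) (.e (nat_lit 90170) (nat_lit 13) (.e (nat_lit 172113) (nat_lit 10) (.e (nat_lit 434245) (nat_lit 28) .nil))))) .nil)) 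
(.lf (nat_lit 135530) (.g (nat_lit 3259) (.e (nat_lit 16470) (nat_lit 14) (.e (nat_lit 491569) (nat_lit 13) (.e (nat_lit 393301) (nat_lit 27) (.e (nat_lit 491531) (nat_lit 0) (.e (nat_lit 7936) (nat_lit 345) .nil))))) (.g (nat_lit 4) .nil .nil))))) (.nd (nat_lit 5) (.nd (nat_lit 6) 
(.lf (nat_lit 135450) (.g (nat_lit 5656) (.e (nat_lit 16470) (nat_lit 14) (.e (nat_lit 491537) (nat_lit 2) (.e (nat_lit 90170) (nat_lit 13) (.e (nat_lit 172106) (nat_lit 10) (.e (nat_lit 434209) (nat_lit 18) (.e (nat_lit 4204) (nat_lit 251) (.e (nat_lit 1128) (nat_lit 83) .nil))))))) (.g (nat_lit 5) .nil .nil))) 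
(.lf (nat_lit 135514) (.g (nat_lit 2046) (.e (nat_lit 16470) (nat_lit 14) (.e (nat_lit 491569) (nat_lit 13) (.e (nat_lit 393260) (nat_lit 21) (.e (nat_lit 409615) (nat_lit 10) .nil)))) .nil))) (.nd (nat_lit 6) 
(.lf (nat_lit 135482) (.g (nat_lit 4942) (.e (nat_lit 16470) (nat_lit 14) (.e (nat_lit 491540) (nat_lit 3) (.e (nat_lit 98373) (nat_lit 29) (.e (nat_lit 450563) (nat_lit 0) (.e (nat_lit 4181) (nat_lit 251) (.e (nat_lit 1131) (nat_lit 83) .nil)))))) (.g (nat_lit 4) .nil .nil))) 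
(.lf (nat_lit 135546) (.g (nat_lit 3439) (.e (nat_lit 16470) (nat_lit 14) (.e (nat_lit 491571) (nat_lit 13) (.e (nat_lit 393238) (nat_lit 17) (.e (nat_lit 6989) (nat_lit 377) (.e (nat_lit 2404) (nat_lit 157) (.e (nat_lit 5383) (nat_lit 300) .nil)))))) (.g (nat_lit 5) .nil .nil))))))) (.nd (nat_lit 3) (.nd (nat_lit 4) (.nd (nat_lit 5) (.nd (nat_lit 6) 
(.lf (nat_lit 135430) (.g (nat_lit 3512) (.e (nat_lit 16469) (nat_lit 14) (.e (nat_lit 491571) (nat_lit 13) (.e (nat_lit 393260) (nat_lit 21) (.e (nat_lit 409625) (nat_lit 10) .nil)))) .nil)) 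
(.lf (nat_lit 135494) (.g (nat_lit 4012) (.e (nat_lit 16470) (nat_lit 14) (.e (nat_lit 491540) (nat_lit 3) (.e (nat_lit 98373) (nat_lit 29) (.e (nat_lit 450586) (nat_lit 10) (.e (nat_lit 573471) (nat_lit 11) .nil))))) (.g (nat_lit 5) .nil .nil)))) (.nd (nat_lit 6) 
(.lf (nat_lit 135462) (.g (nat_lit 2553) (.e (nat_lit 16470) (nat_lit 14) (.e (nat_lit 491537) (nat_lit 2) (.e (nat_lit 90170) (nat_lit 13) (.e (nat_lit 172112) (nat_lit 10) .nil)))) .nil)) 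
(.lf (nat_lit 135526) (.g (nat_lit 2682) (.e (nat_lit 16470) (nat_lit 14) (.e (nat_lit 491569) (nat_lit 13) (.e (nat_lit 393301) (nat_lit 27) (.e (nat_lit 491526) (nat_lit 0) (.e (nat_lit 7936) (nat_lit 345) .nil))))) (.g (nat_lit 4) .nil .nil))))) (.nd (nat_lit 5) (.nd (nat_lit 6) 
(.lf (nat_lit 135446) (.g (nat_lit 4147) (.e (nat_lit 16470) (nat_lit 14) (.e (nat_lit 491537) (nat_lit 2) (.e (nat_lit 90170) (nat_lit 13) (.e (nat_lit 172106) (nat_lit 10) (.e (nat_lit 434209) (nat_lit 18) (.e (nat_lit 4194) (nat_lit 251) (.e (nat_lit 1127) (nat_lit 83) .nil))))))) (.g (nat_lit 4) .nil .nil))) 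
(.lf (nat_lit 135510) (.g (nat_lit 3259) (.e (nat_lit 16470) (nat_lit 14) (.e (nat_lit 491568) (nat_lit 13) (.e (nat_lit 393260) (nat_lit 21) (.e (nat_lit 409616) (nat_lit 10) (.e (nat_lit 7936) (nat_lit 300) .nil))))) (.g (nat_lit 4) .nil .nil)))) (.nd (nat_lit 6) 
(.lf (nat_lit 135478) (.g (nat_lit 4379) (.e (nat_lit 16470) (nat_lit 14) (.e (nat_lit 491540) (nat_lit 3) (.e (nat_lit 98373) (nat_lit 29) (.e (nat_lit 450563) (nat_lit 0) (.e (nat_lit 4168) (nat_lit 251) (.e (nat_lit 1126) (nat_lit 83) .nil)))))) (.g (nat_lit 4) .nil .nil))) 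
(.lf (nat_lit 135542) (.g (nat_lit 2208) (.e (nat_lit 16470) (nat_lit 14) (.e (nat_lit 491571) (nat_lit 13) (.e (nat_lit 393238) (nat_lit 17) (.e (nat_lit 6970) (nat_lit 377) (.e (nat_lit 2527) (nat_lit 157) (.e (nat_lit 7936) (nat_lit 300) .nil)))))) (.g (nat_lit 4) .nil .nil)))))) (.nd (nat_lit 4) (.nd (nat_lit 5) (.nd (nat_lit 6) 
(.lf (nat_lit 135438) (.g (nat_lit 3823) (.e (nat_lit 16470) (nat_lit 14) (.e (nat_lit 491537) (nat_lit 2) (.e (nat_lit 90170) (nat_lit 13) (.e (nat_lit 172106) (nat_lit 10) (.e (nat_lit 434202) (nat_lit 18) (.e (nat_lit 4181) (nat_lit 251) (.e (nat_lit 1131) (nat_lit 83) .nil))))))) (.g (nat_lit 4) .nil .nil))) 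
(.lf (nat_lit 135502) (.g (nat_lit 3591) (.e (nat_lit 16470) (nat_lit 14) (.e (nat_lit 491549) (nat_lit 9) (.e (nat_lit 336369) (nat_lit 27) (.e (nat_lit 426173) (nat_lit 7) (.e (nat_lit 409616) (nat_lit 10) (.e (nat_lit 7936) (nat_lit 300) .nil)))))) (.g (nat_lit 5) .nil .nil)))) (.nd (nat_lit 6) 
(.lf (nat_lit 135470) (.g (nat_lit 3584) (.e (nat_lit 16470) (nat_lit 14) (.e (nat_lit 491540) (nat_lit 3) (.e (nat_lit 98372) (nat_lit 29) (.e (nat_lit 450588) (nat_lit 10) (.e (nat_lit 573471) (nat_lit 11) .nil))))) (.g (nat_lit 5) .nil .nil))) 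
(.lf (nat_lit 135534) (.g (nat_lit 2936) (.e (nat_lit 16470) (nat_lit 14) (.e (nat_lit 491570) (nat_lit 13) (.e (nat_lit 393260) (nat_lit 21) (.e (nat_lit 409617) (nat_lit 10) (.e (nat_lit 7936) (nat_lit 300) .nil))))) (.g (nat_lit 4) .nil .nil))))) (.nd (nat_lit 5) (.nd (nat_lit 6) 
(.lf (nat_lit 135454) (.g (nat_lit 5858) (.e (nat_lit 16470) (nat_lit 14) (.e (nat_lit 491537) (nat_lit 2) (.e (nat_lit 90170) (nat_lit 13) (.e (nat_lit 172106) (nat_lit 10) (.e (nat_lit 434209) (nat_lit 18) (.e (nat_lit 4214) (nat_lit 251) (.e (nat_lit 1128) (nat_lit 83) .nil))))))) (.g (nat_lit 5) .nil .nil))) 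
(.lf (nat_lit 135518) (.g (nat_lit 2643) (.e (nat_lit 16470) (nat_lit 14) (.e (nat_lit 491569) (nat_lit 13) (.e (nat_lit 393260) (nat_lit 21) (.e (nat_lit 409623) (nat_lit 10) (.e (nat_lit 7936) (nat_lit 300) .nil))))) (.g (nat_lit 4) .nil .nil)))) (.nd (nat_lit 6) 
(.lf (nat_lit 135486) (.g (nat_lit 4301) (.e (nat_lit 16470) (nat_lit 14) (.e (nat_lit 491540) (nat_lit 3) (.e (nat_lit 98373) (nat_lit 29) (.e (nat_lit 450563) (nat_lit 0) (.e (nat_lit 4212) (nat_lit 251) (.e (nat_lit 1126) (nat_lit 83) .nil)))))) (.g (nat_lit 4) .nil .nil))) 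
(.lf (nat_lit 135550) (.g (nat_lit 2885) (.e (nat_lit 16470) (nat_lit 14) (.e (nat_lit 491571) (nat_lit 13) (.e (nat_lit 393238) (nat_lit 17) (.e (nat_lit 6989) (nat_lit 377) (.e (nat_lit 2507) (nat_lit 157) (.e (nat_lit 5383) (nat_lit 300) .nil)))))) (.g (nat_lit 4) .nil .nil))))))))) (.nd (nat_lit 1) (.nd (nat_lit 2) (.nd (nat_lit 3) (.nd (nat_lit 4) (.nd (nat_lit 5) (.nd (nat_lit 6) 
(.lf (nat_lit 135425) (.g (nat_lit 3763) (.e (nat_lit 16469) (nat_lit 14) (.e (nat_lit 491571) (nat_lit 13) (.e (nat_lit 393260) (nat_lit 21) (.e (nat_lit 409615) (nat_lit 10) .nil)))) .nil)) 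
(.lf (nat_lit 135489) (.g (nat_lit 4086) (.e (nat_lit 16470) (nat_lit 14) (.e (nat_lit 491540) (nat_lit 3) (.e (nat_lit 98373) (nat_lit 29) (.e (nat_lit 450567) (nat_lit 0) (.e (nat_lit 4189) (nat_lit 251) (.e (nat_lit 1126) (nat_lit 83) .nil)))))) (.g (nat_lit 4) .nil .nil)))) (.nd (nat_lit 6) 
(.lf (nat_lit 135457) (.g (nat_lit 4254) (.e (nat_lit 16470) (nat_lit 14) (.e (nat_lit 491537) (nat_lit 2) (.e (nat_lit 90170) (nat_lit 13) (.e (nat_lit 172106) (nat_lit 10) (.e (nat_lit 434209) (nat_lit 18) (.e (nat_lit 4216) (nat_lit 251) (.e (nat_lit 1126) (nat_lit 83) .nil))))))) (.g (nat_lit 4) .nil .nil))) 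
(.lf (nat_lit 135521) (.g (nat_lit 683) (.e (nat_lit 16470) (nat_lit 14) (.e (nat_lit 491569) (nat_lit 13) (.e (nat_lit 393281) (nat_lit 23) .nil))) .nil)))) (.nd (nat_lit 5) (.nd (nat_lit 6) 
(.lf (nat_lit 135441) (.g (nat_lit 3733) (.e (nat_lit 16470) (nat_lit 14) (.e (nat_lit 491537) (nat_lit 2) (.e (nat_lit 90170) (nat_lit 13) (.e (nat_lit 172106) (nat_lit 10) (.e (nat_lit 434202) (nat_lit 18) (.e (nat_lit 4202) (nat_lit 251) (.e (nat_lit 1126) (nat_lit 83) .nil))))))) (.g (nat_lit 4) .nil .nil))) 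
(.lf (nat_lit 135505) (.g (nat_lit 3588) (.e (nat_lit 16470) (nat_lit 14) (.e (nat_lit 491550) (nat_lit 9) (.e (nat_lit 336369) (nat_lit 27) (.e (nat_lit 426173) (nat_lit 7) (.e (nat_lit 409617) (nat_lit 10) (.e (nat_lit 7936) (nat_lit 300) .nil)))))) (.g (nat_lit 4) .nil .nil)))) (.nd (nat_lit 6) 
(.lf (nat_lit 135473) (.g (nat_lit 4150) (.e (nat_lit 16470) (nat_lit 14) (.e (nat_lit 491540) (nat_lit 3) (.e (nat_lit 98373) (nat_lit 29) (.e (nat_lit 450562) (nat_lit 0) (.e (nat_lit 4173) (nat_lit 251) (.e (nat_lit 1131) (nat_lit 83) .nil)))))) (.g (nat_lit 4) .nil .nil))) 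
(.lf (nat_lit 135537) (.g (nat_lit 881) (.e (nat_lit 16470) (nat_lit 14) (.e (nat_lit 491571) (nat_lit 13) (.e (nat_lit 393231) (nat_lit 17) (.e (nat_lit 7109) (nat_lit 380) .nil)))) .nil))))) (.nd (nat_lit 4) (.nd (nat_lit 5) (.nd (nat_lit 6) 
(.lf (nat_lit 135433) (.g (nat_lit 4638) (.e (nat_lit 16470) (nat_lit 14) (.e (nat_lit 491537) (nat_lit 2) (.e (nat_lit 90170) (nat_lit 13) (.e (nat_lit 172106) (nat_lit 10) (.e (nat_lit 434200) (nat_lit 18) (.e (nat_lit 4186) (nat_lit 251) (.e (nat_lit 1124) (nat_lit 83) .nil))))))) (.g (nat_lit 4) .nil .nil))) 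
(.lf (nat_lit 135497) (.g (nat_lit 4150) (.e (nat_lit 16470) (nat_lit 14) (.e (nat_lit 491544) (nat_lit 7) (.e (nat_lit 319533) (nat_lit 16) (.e (nat_lit 286753) (nat_lit 10) (.e (nat_lit 344160) (nat_lit 37) (.e (nat_lit 647199) (nat_lit 11) .nil)))))) (.g (nat_lit 5) .nil .nil)))) (.nd (nat_lit 6) 
(.lf (nat_lit 135465) (.g (nat_lit 6596) (.e (nat_lit 16470) (nat_lit 14) (.e (nat_lit 491537) (nat_lit 2) (.e (nat_lit 90170) (nat_lit 13) (.e (nat_lit 172113) (nat_lit 10) (.e (nat_lit 434208) (nat_lit 18) (.e (nat_lit 4175) (nat_lit 251) (.e (nat_lit 1132) (nat_lit 83) .nil))))))) (.g (nat_lit 5) .nil .nil))) 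
(.lf (nat_lit 135529) (.g (nat_lit 2646) (.e (nat_lit 16470) (nat_lit 14) (.e (nat_lit 491569) (nat_lit 13) (.e (nat_lit 393301) (nat_lit 27) (.e (nat_lit 491530) (nat_lit 0) (.e (nat_lit 7936) (nat_lit 345) .nil))))) (.g (nat_lit 4) .nil .nil))))) (.nd (nat_lit 5) (.nd (nat_lit 6) 
(.lf (nat_lit 135449) (.g (nat_lit 4874) (.e (nat_lit 16470) (nat_lit 14) (.e (nat_lit 491537) (nat_lit 2) (.e (nat_lit 90170) (nat_lit 13) (.e (nat_lit 172106) (nat_lit 10) (.e (nat_lit 434209) (nat_lit 18) (.e (nat_lit 4204) (nat_lit 251) (.e (nat_lit 1127) (nat_lit 83) .nil))))))) (.g (nat_lit 4) .nil .nil))) 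
(.lf (nat_lit 135513) (.g (nat_lit 2429) (.e (nat_lit 16470) (nat_lit 14) (.e (nat_lit 491569) (nat_lit 13) (.e (nat_lit 393259) (nat_lit 21) (.e (nat_lit 409616) (nat_lit 10) (.e (nat_lit 7936) (nat_lit 300) .nil))))) (.g (nat_lit 4) .nil .nil)))) (.nd (nat_lit 6) 
(.lf (nat_lit 135481) (.g (nat_lit 4830) (.e (nat_lit 16470) (nat_lit 14) (.e (nat_lit 491540) (nat_lit 3) (.e (nat_lit 98373) (nat_lit 29) (.e (nat_lit 450563) (nat_lit 0) (.e (nat_lit 4175) (nat_lit 251) (.e (nat_lit 1132) (nat_lit 83) .nil)))))) (.g (nat_lit 4) .nil .nil))) 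
(.lf (nat_lit 135545) (.g (nat_lit 3226) (.e (nat_lit 16470) (nat_lit 14) (.e (nat_lit 491571) (nat_lit 13) (.e (nat_lit 393238) (nat_lit 17) (.e (nat_lit 6989) (nat_lit 377) (.e (nat_lit 2400) (nat_lit 157) (.e (nat_lit 7936) (nat_lit 300) .nil)))))) (.g (nat_lit 5) .nil .nil))))))) (.nd (nat_lit 3) (.nd (nat_lit 4) (.nd (nat_lit 5) (.nd (nat_lit 6) 
(.lf (nat_lit 135429) (.g (nat_lit 3480) (.e (nat_lit 16469) (nat_lit 14) (.e (nat_lit 491571) (nat_lit 13) (.e (nat_lit 393260) (nat_lit 21) (.e (nat_lit 409624) (nat_lit 10) .nil)))) .nil)) 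
(.lf (nat_lit 135493) (.g (nat_lit 3997) (.e (nat_lit 16470) (nat_lit 14) (.e (nat_lit 491540) (nat_lit 3) (.e (nat_lit 98373) (nat_lit 29) (.e (nat_lit 450586) (nat_lit 10) (.e (nat_lit 573469) (nat_lit 11) .nil))))) (.g (nat_lit 4) .nil .nil)))) (.nd (nat_lit 6) 
(.lf (nat_lit 135461) (.g (nat_lit 2530) (.e (nat_lit 16470) (nat_lit 14) (.e (nat_lit 491537) (nat_lit 2) (.e (nat_lit 90170) (nat_lit 13) (.e (nat_lit 172107) (nat_lit 10) .nil)))) .nil)) 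
(.lf (nat_lit 135525) (.g (nat_lit 2861) (.e (nat_lit 16470) (nat_lit 14) (.e (nat_lit 491569) (nat_lit 13) (.e (nat_lit 393301) (nat_lit 27) (.e (nat_lit 491525) (nat_lit 0) (.e (nat_lit 7936) (nat_lit 345) .nil))))) (.g (nat_lit 4) .nil .nil))))) (.nd (nat_lit 5) (.nd (nat_lit 6) 
(.lf (nat_lit 135445) (.g (nat_lit 4321) (.e (nat_lit 16470) (nat_lit 14) (.e (nat_lit 491537) (nat_lit 2) (.e (nat_lit 90170) (nat_lit 13) (.e (nat_lit 172106) (nat_lit 10) (.e (nat_lit 434209) (nat_lit 18) (.e (nat_lit 4194) (nat_lit 251) (.e (nat_lit 1126) (nat_lit 83) .nil))))))) (.g (nat_lit 4) .nil .nil))) 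
(.lf (nat_lit 135509) (.g (nat_lit 1326) (.e (nat_lit 16470) (nat_lit 14) (.e (nat_lit 491566) (nat_lit 12) (.e (nat_lit 385109) (nat_lit 51) .nil))) .nil))) (.nd (nat_lit 6) 
(.lf (nat_lit 135477) (.g (nat_lit 5292) (.e (nat_lit 16470) (nat_lit 14) (.e (nat_lit 491540) (nat_lit 3) (.e (nat_lit 98373) (nat_lit 29) (.e (nat_lit 450562) (nat_lit 0) (.e (nat_lit 4186) (nat_lit 251) (.e (nat_lit 1124) (nat_lit 83) .nil)))))) (.g (nat_lit 4) .nil .nil))) 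
(.lf (nat_lit 135541) (.g (nat_lit 2187) (.e (nat_lit 16470) (nat_lit 14) (.e (nat_lit 491571) (nat_lit 13) (.e (nat_lit 393238) (nat_lit 17) (.e (nat_lit 6970) (nat_lit 377) (.e (nat_lit 2507) (nat_lit 157) (.e (nat_lit 7936) (nat_lit 300) .nil)))))) (.g (nat_lit 4) .nil .nil)))))) (.nd (nat_lit 4) (.nd (nat_lit 5) (.nd (nat_lit 6) 
(.lf (nat_lit 135437) (.g (nat_lit 4754) (.e (nat_lit 16470) (nat_lit 14) (.e (nat_lit 491537) (nat_lit 2) (.e (nat_lit 90170) (nat_lit 13) (.e (nat_lit 172106) (nat_lit 10) (.e (nat_lit 434202) (nat_lit 18) (.e (nat_lit 4175) (nat_lit 251) (.e (nat_lit 1132) (nat_lit 83) .nil))))))) (.g (nat_lit 4) .nil .nil))) 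
(.lf (nat_lit 135501) (.g (nat_lit 2297) (.e (nat_lit 16470) (nat_lit 14) (.e (nat_lit 491548) (nat_lit 9) (.e (nat_lit 336369) (nat_lit 27) (.e (nat_lit 426173) (nat_lit 7) (.e (nat_lit 409617) (nat_lit 10) (.e (nat_lit 7936) (nat_lit 300) .nil)))))) (.g (nat_lit 4) .nil .nil)))) (.nd (nat_lit 6) 
(.lf (nat_lit 135469) (.g (nat_lit 3650) (.e (nat_lit 16470) (nat_lit 14) (.e (nat_lit 491540) (nat_lit 3) (.e (nat_lit 98372) (nat_lit 29) (.e (nat_lit 450586) (nat_lit 10) (.e (nat_lit 573469) (nat_lit 11) .nil))))) (.g (nat_lit 0) .nil .nil))) 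
(.lf (nat_lit 135533) (.g (nat_lit 3485) (.e (nat_lit 16470) (nat_lit 14) (.e (nat_lit 491570) (nat_lit 13) (.e (nat_lit 393260) (nat_lit 21) (.e (nat_lit 409616) (nat_lit 10) (.e (nat_lit 7936) (nat_lit 300) .nil))))) (.g (nat_lit 4) .nil .nil))))) (.nd (nat_lit 5) (.nd (nat_lit 6) 
(.lf (nat_lit 135453) (.g (nat_lit 5577) (.e (nat_lit 16470) (nat_lit 14) (.e (nat_lit 491537) (nat_lit 2) (.e (nat_lit 90170) (nat_lit 13) (.e (nat_lit 172106) (nat_lit 10) (.e (nat_lit 434209) (nat_lit 18) (.e (nat_lit 4214) (nat_lit 251) (.e (nat_lit 1126) (nat_lit 83) .nil))))))) (.g (nat_lit 5) .nil .nil))) 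
(.lf (nat_lit 135517) (.g (nat_lit 1376) (.e (nat_lit 16470) (nat_lit 14) (.e (nat_lit 491569) (nat_lit 13) (.e (nat_lit 393260) (nat_lit 21) (.e (nat_lit 409623) (nat_lit 10) .nil)))) .nil))) (.nd (nat_lit 6) 
(.lf (nat_lit 135485) (.g (nat_lit 4587) (.e (nat_lit 16470) (nat_lit 14) (.e (nat_lit 491540) (nat_lit 3) (.e (nat_lit 98373) (nat_lit 29) (.e (nat_lit 450563) (nat_lit 0) (.e (nat_lit 4202) (nat_lit 251) (.e (nat_lit 1127) (nat_lit 83) .nil)))))) (.g (nat_lit 4) .nil .nil))) 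
(.lf (nat_lit 135549) (.g (nat_lit 2401) (.e (nat_lit 16470) (nat_lit 14) (.e (nat_lit 491571) (nat_lit 13) (.e (nat_lit 393238) (nat_lit 17) (.e (nat_lit 6989) (nat_lit 377) (.e (nat_lit 2406) (nat_lit 157) (.e (nat_lit 7936) (nat_lit 300) .nil)))))) (.g (nat_lit 4) .nil .nil)))))))) (.nd (nat_lit 2) (.nd (nat_lit 3) (.nd (nat_lit 4) (.nd (nat_lit 5) (.nd (nat_lit 6) 
(.lf (nat_lit 135427) (.g (nat_lit 2983) (.e (nat_lit 16469) (nat_lit 14) (.e (nat_lit 491571) (nat_lit 13) (.e (nat_lit 393260) (nat_lit 21) (.e (nat_lit 409617) (nat_lit 10) (.e (nat_lit 7936) (nat_lit 300) .nil))))) (.g (nat_lit 4) .nil .nil))) 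
(.lf (nat_lit 135491) (.g (nat_lit 4386) (.e (nat_lit 16470) (nat_lit 14) (.e (nat_lit 491540) (nat_lit 3) (.e (nat_lit 98373) (nat_lit 29) (.e (nat_lit 450567) (nat_lit 0) (.e (nat_lit 4211) (nat_lit 251) (.e (nat_lit 1127) (nat_lit 83) .nil)))))) (.g (nat_lit 4) .nil .nil)))) (.nd (nat_lit 6) 
(.lf (nat_lit 135459) (.g (nat_lit 4125) (.e (nat_lit 16470) (nat_lit 14) (.e (nat_lit 491537) (nat_lit 2) (.e (nat_lit 90170) (nat_lit 13) (.e (nat_lit 172106) (nat_lit 10) (.e (nat_lit 434209) (nat_lit 18) (.e (nat_lit 4216) (nat_lit 251) (.e (nat_lit 1128) (nat_lit 83) .nil))))))) (.g (nat_lit 4) .nil .nil))) 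
(.lf (nat_lit 135523) (.g (nat_lit 2380) (.e (nat_lit 16470) (nat_lit 14) (.e (nat_lit 491569) (nat_lit 13) (.e (nat_lit 393301) (nat_lit 27) (.e (nat_lit 491520) (nat_lit 0) (.e (nat_lit 7936) (nat_lit 345) .nil))))) (.g (nat_lit 4) .nil .nil))))) (.nd (nat_lit 5) (.nd (nat_lit 6) 
(.lf (nat_lit 135443) (.g (nat_lit 4595) (.e (nat_lit 16470) (nat_lit 14) (.e (nat_lit 491537) (nat_lit 2) (.e (nat_lit 90170) (nat_lit 13) (.e (nat_lit 172106) (nat_lit 10) (.e (nat_lit 434202) (nat_lit 18) (.e (nat_lit 4203) (nat_lit 251) (.e (nat_lit 1125) (nat_lit 83) .nil))))))) (.g (nat_lit 4) .nil .nil))) 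
(.lf (nat_lit 135507) (.g (nat_lit 4548) (.e (nat_lit 16470) (nat_lit 14) (.e (nat_lit 491566) (nat_lit 12) (.e (nat_lit 385104) (nat_lit 50) (.e (nat_lit 786460) (nat_lit 20) (.e (nat_lit 114723) (nat_lit 24) (.e (nat_lit 106536) (nat_lit 11) .nil)))))) (.g (nat_lit 0) .nil .nil)))) (.nd (nat_lit 6) 
(.lf (nat_lit 135475) (.g (nat_lit 3876) (.e (nat_lit 16470) (nat_lit 14) (.e (nat_lit 491540) (nat_lit 3) (.e (nat_lit 98373) (nat_lit 29) (.e (nat_lit 450562) (nat_lit 0) (.e (nat_lit 4181) (nat_lit 251) .nil))))) .nil)) 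
(.lf (nat_lit 135539) (.g (nat_lit 1706) (.e (nat_lit 16470) (nat_lit 14) (.e (nat_lit 491571) (nat_lit 13) (.e (nat_lit 393232) (nat_lit 17) (.e (nat_lit 6961) (nat_lit 377) .nil)))) .nil))))) (.nd (nat_lit 4) (.nd (nat_lit 5) (.nd (nat_lit 6) 
(.lf (nat_lit 135435) (.g (nat_lit 4383) (.e (nat_lit 16470) (nat_lit 14) (.e (nat_lit 491537) (nat_lit 2) (.e (nat_lit 90170) (nat_lit 13) (.e (nat_lit 172106) (nat_lit 10) (.e (nat_lit 434202) (nat_lit 18) (.e (nat_lit 4168) (nat_lit 251) (.e (nat_lit 1127) (nat_lit 83) .nil))))))) (.g (nat_lit 4) .nil .nil))) 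
(.lf (nat_lit 135499) (.g (nat_lit 3143) (.e (nat_lit 16470) (nat_lit 14) (.e (nat_lit 491547) (nat_lit 9) (.e (nat_lit 336369) (nat_lit 27) (.e (nat_lit 426173) (nat_lit 7) (.e (nat_lit 409616) (nat_lit 10) (.e (nat_lit 7936) (nat_lit 300) .nil)))))) (.g (nat_lit 4) .nil .nil)))) (.nd (nat_lit 6) 
(.lf (nat_lit 135467) (.g (nat_lit 2531) (.e (nat_lit 16470) (nat_lit 14) (.e (nat_lit 491537) (nat_lit 2) (.e (nat_lit 90170) (nat_lit 13) (.e (nat_lit 172113) (nat_lit 10) (.e (nat_lit 434248) (nat_lit 28) (.e (nat_lit 581376) (nat_lit 11) .nil)))))) (.g (nat_lit 4) .nil .nil))) 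
(.lf (nat_lit 135531) (.g (nat_lit 1453) (.e (nat_lit 16470) (nat_lit 14) (.e (nat_lit 491570) (nat_lit 13) (.e (nat_lit 393238) (nat_lit 17) (.e (nat_lit 6989) (nat_lit 377) .nil)))) .nil)))) (.nd (nat_lit 5) (.nd (nat_lit 6) 
(.lf (nat_lit 135451) (.g (nat_lit 4812) (.e (nat_lit 16470) (nat_lit 14) (.e (nat_lit 491537) (nat_lit 2) (.e (nat_lit 90170) (nat_lit 13) (.e (nat_lit 172106) (nat_lit 10) (.e (nat_lit 434209) (nat_lit 18) (.e (nat_lit 4214) (nat_lit 251) (.e (nat_lit 1122) (nat_lit 83) .nil))))))) (.g (nat_lit 4) .nil .nil))) 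
(.lf (nat_lit 135515) (.g (nat_lit 3805) (.e (nat_lit 16470) (nat_lit 14) (.e (nat_lit 491569) (nat_lit 13) (.e (nat_lit 393260) (nat_lit 21) (.e (nat_lit 409616) (nat_lit 10) (.e (nat_lit 7936) (nat_lit 300) .nil))))) (.g (nat_lit 4) .nil .nil)))) (.nd (nat_lit 6) 
(.lf (nat_lit 135483) (.g (nat_lit 4446) (.e (nat_lit 16470) (nat_lit 14) (.e (nat_lit 491540) (nat_lit 3) (.e (nat_lit 98373) (nat_lit 29) (.e (nat_lit 450563) (nat_lit 0) (.e (nat_lit 4200) (nat_lit 251) (.e (nat_lit 1127) (nat_lit 83) .nil)))))) (.g (nat_lit 4) .nil .nil))) 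
(.lf (nat_lit 135547) (.g (nat_lit 2692) (.e (nat_lit 16470) (nat_lit 14) (.e (nat_lit 491571) (nat_lit 13) (.e (nat_lit 393238) (nat_lit 17) (.e (nat_lit 6989) (nat_lit 377) (.e (nat_lit 2404) (nat_lit 157) (.e (nat_lit 7936) (nat_lit 300) .nil)))))) (.g (nat_lit 5) .nil .nil))))))) (.nd (nat_lit 3) (.nd (nat_lit 4) (.nd (nat_lit 5) (.nd (nat_lit 6) 
(.lf (nat_lit 135431) (.g (nat_lit 3070) (.e (nat_lit 16469) (nat_lit 14) (.e (nat_lit 491571) (nat_lit 13) (.e (nat_lit 393260) (nat_lit 21) (.e (nat_lit 417536) (nat_lit 10) .nil)))) .nil)) 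
(.lf (nat_lit 135495) (.g (nat_lit 2560) (.e (nat_lit 16470) (nat_lit 14) (.e (nat_lit 491540) (nat_lit 3) (.e (nat_lit 98373) (nat_lit 29) (.e (nat_lit 450587) (nat_lit 10) (.e (nat_lit 581376) (nat_lit 11) .nil))))) (.g (nat_lit 4) .nil .nil)))) (.nd (nat_lit 6) 
(.lf (nat_lit 135463) (.g (nat_lit 1737) (.e (nat_lit 16470) (nat_lit 14) (.e (nat_lit 491537) (nat_lit 2) (.e (nat_lit 90170) (nat_lit 13) (.e (nat_lit 172113) (nat_lit 10) .nil)))) .nil)) 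
(.lf (nat_lit 135527) (.g (nat_lit 2920) (.e (nat_lit 16470) (nat_lit 14) (.e (nat_lit 491569) (nat_lit 13) (.e (nat_lit 393301) (nat_lit 27) (.e (nat_lit 491527) (nat_lit 0) (.e (nat_lit 7936) (nat_lit 345) .nil))))) (.g (nat_lit 4) .nil .nil))))) (.nd (nat_lit 5) (.nd (nat_lit 6) 
(.lf (nat_lit 135447) (.g (nat_lit 4047) (.e (nat_lit 16470) (nat_lit 14) (.e (nat_lit 491537) (nat_lit 2) (.e (nat_lit 90170) (nat_lit 13) (.e (nat_lit 172106) (nat_lit 10) (.e (nat_lit 434209) (nat_lit 18) (.e (nat_lit 4194) (nat_lit 251) (.e (nat_lit 1128) (nat_lit 83) .nil))))))) (.g (nat_lit 4) .nil .nil))) 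
(.lf (nat_lit 135511) (.g (nat_lit 2428) (.e (nat_lit 16470) (nat_lit 14) (.e (nat_lit 491568) (nat_lit 13) (.e (nat_lit 393260) (nat_lit 21) (.e (nat_lit 409617) (nat_lit 10) (.e (nat_lit 7936) (nat_lit 300) .nil))))) .nil))) (.nd (nat_lit 6) 
(.lf (nat_lit 135479) (.g (nat_lit 4193) (.e (nat_lit 16470) (nat_lit 14) (.e (nat_lit 491540) (nat_lit 3) (.e (nat_lit 98373) (nat_lit 29) (.e (nat_lit 450563) (nat_lit 0) (.e (nat_lit 4168) (nat_lit 251) (.e (nat_lit 1128) (nat_lit 83) .nil)))))) (.g (nat_lit 4) .nil .nil))) 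
(.lf (nat_lit 135543) (.g (nat_lit 2746) (.e (nat_lit 16470) (nat_lit 14) (.e (nat_lit 491571) (nat_lit 13) (.e (nat_lit 393238) (nat_lit 17) (.e (nat_lit 6983) (nat_lit 377) (.e (nat_lit 2439) (nat_lit 157) (.e (nat_lit 7936) (nat_lit 300) .nil)))))) (.g (nat_lit 5) .nil .nil)))))) (.nd (nat_lit 4) (.nd (nat_lit 5) (.nd (nat_lit 6) 
(.lf (nat_lit 135439) (.g (nat_lit 4127) (.e (nat_lit 16470) (nat_lit 14) (.e (nat_lit 491537) (nat_lit 2) (.e (nat_lit 90170) (nat_lit 13) (.e (nat_lit 172106) (nat_lit 10) (.e (nat_lit 434202) (nat_lit 18) (.e (nat_lit 4183) (nat_lit 251) (.e (nat_lit 1131) (nat_lit 83) .nil))))))) (.g (nat_lit 4) .nil .nil))) 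
(.lf (nat_lit 135503) (.g (nat_lit 2554) (.e (nat_lit 16470) (nat_lit 14) (.e (nat_lit 491549) (nat_lit 9) (.e (nat_lit 336369) (nat_lit 27) (.e (nat_lit 426173) (nat_lit 7) (.e (nat_lit 409617) (nat_lit 10) (.e (nat_lit 7936) (nat_lit 300) .nil)))))) (.g (nat_lit 4) .nil .nil)))) (.nd (nat_lit 6) 
(.lf (nat_lit 135471) (.g (nat_lit 3876) (.e (nat_lit 16470) (nat_lit 14) (.e (nat_lit 491540) (nat_lit 3) (.e (nat_lit 98373) (nat_lit 29) (.e (nat_lit 450562) (nat_lit 0) (.e (nat_lit 4168) (nat_lit 251) .nil))))) .nil)) 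
(.lf (nat_lit 135535) (.g (nat_lit 3759) (.e (nat_lit 16470) (nat_lit 14) (.e (nat_lit 491570) (nat_lit 13) (.e (nat_lit 393260) (nat_lit 21) (.e (nat_lit 409623) (nat_lit 10) (.e (nat_lit 5383) (nat_lit 300) .nil))))) (.g (nat_lit 4) .nil .nil))))) (.nd (nat_lit 5) (.nd (nat_lit 6) 
(.lf (nat_lit 135455) (.g (nat_lit 4710) (.e (nat_lit 16470) (nat_lit 14) (.e (nat_lit 491537) (nat_lit 2) (.e (nat_lit 90170) (nat_lit 13) (.e (nat_lit 172106) (nat_lit 10) (.e (nat_lit 434209) (nat_lit 18) (.e (nat_lit 4216) (nat_lit 251) (.e (nat_lit 1122) (nat_lit 83) .nil))))))) (.g (nat_lit 4) .nil .nil))) 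
(.lf (nat_lit 135519) (.g (nat_lit 609) (.e (nat_lit 16470) (nat_lit 14) (.e (nat_lit 491569) (nat_lit 13) (.e (nat_lit 393265) (nat_lit 22) .nil))) .nil))) (.nd (nat_lit 6) 
(.lf (nat_lit 135487) (.g (nat_lit 4345) (.e (nat_lit 16470) (nat_lit 14) (.e (nat_lit 491540) (nat_lit 3) (.e (nat_lit 98373) (nat_lit 29) (.e (nat_lit 450563) (nat_lit 0) (.e (nat_lit 4212) (nat_lit 251) (.e (nat_lit 1127) (nat_lit 83) .nil)))))) (.g (nat_lit 4) .nil .nil))) 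
(.lf (nat_lit 135551) (.g (nat_lit 2656) (.e (nat_lit 16470) (nat_lit 14) (.e (nat_lit 491571) (nat_lit 13) (.e (nat_lit 393238) (nat_lit 17) (.e (nat_lit 6989) (nat_lit 377) (.e (nat_lit 2507) (nat_lit 157) (.e (nat_lit 7936) (nat_lit 300) .nil)))))) (.g (nat_lit 4) .nil .nil))))))))))

noncomputable def tv1804 : DT := (.nd (nat_lit 0) (.nd (nat_lit 1) (.nd (nat_lit 2) (.nd (nat_lit 3) (.nd (nat_lit 4) (.nd (nat_lit 5) (.nd (nat_lit 6) 
(.lf (nat_lit 135552) (.g (nat_lit 2047) (.e (nat_lit 16470) (nat_lit 14) (.e (nat_lit 491571) (nat_lit 13) (.e (nat_lit 393238) (nat_lit 17) (.e (nat_lit 6989) (nat_lit 377) (.e (nat_lit 2527) (nat_lit 157) .nil))))) .nil)) 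
(.lf (nat_lit 135616) (.g (nat_lit 3656) (.e (nat_lit 16471) (nat_lit 14) (.e (nat_lit 491572) (nat_lit 14) (.e (nat_lit 401454) (nat_lit 12) (.e (nat_lit 475214) (nat_lit 42) (.e (nat_lit 720947) (nat_lit 24) .nil))))) .nil))) (.nd (nat_lit 6) 
(.lf (nat_lit 135584) (.g (nat_lit 2645) (.e (nat_lit 16470) (nat_lit 14) (.e (nat_lit 491571) (nat_lit 13) (.e (nat_lit 393298) (nat_lit 27) (.e (nat_lit 491528) (nat_lit 0) (.e (nat_lit 7936) (nat_lit 345) .nil))))) (.g (nat_lit 4) .nil .nil))) 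
(.lf (nat_lit 135648) (.g (nat_lit 3584) (.e (nat_lit 16472) (nat_lit 14) (.e (nat_lit 491556) (nat_lit 9) (.e (nat_lit 336051) (nat_lit 6) (.e (nat_lit 147495) (nat_lit 11) (.e (nat_lit 24580) (nat_lit 0) (.e (nat_lit 6508) (nat_lit 345) .nil)))))) (.g (nat_lit 5) .nil .nil))))) (.nd (nat_lit 5) (.nd (nat_lit 6) 
(.lf (nat_lit 135568) (.g (nat_lit 1761) (.e (nat_lit 16470) (nat_lit 14) (.e (nat_lit 491571) (nat_lit 13) (.e (nat_lit 393260) (nat_lit 21) (.e (nat_lit 409623) (nat_lit 10) .nil)))) .nil)) 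
(.lf (nat_lit 135632) (.g (nat_lit 3126) (.e (nat_lit 16472) (nat_lit 14) (.e (nat_lit 491540) (nat_lit 3) (.e (nat_lit 98373) (nat_lit 29) (.e (nat_lit 450585) (nat_lit 10) (.e (nat_lit 573470) (nat_lit 11) .nil))))) .nil))) (.nd (nat_lit 6) 
(.lf (nat_lit 135600) (.g (nat_lit 1877) (.e (nat_lit 16471) (nat_lit 14) (.e (nat_lit 491568) (nat_lit 13) (.e (nat_lit 393260) (nat_lit 21) (.e (nat_lit 409608) (nat_lit 10) .nil)))) .nil)) 
(.lf (nat_lit 135664) (.g (nat_lit 1592) (.e (nat_lit 16472) (nat_lit 14) (.e (nat_lit 491570) (nat_lit 13) (.e (nat_lit 393238) (nat_lit 17) (.e (nat_lit 6970) (nat_lit 377) .nil)))) .nil))))) (.nd (nat_lit 4) (.nd (nat_lit 5) (.nd (nat_lit 6) 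
(.lf (nat_lit 135560) (.g (nat_lit 4367) (.e (nat_lit 16470) (nat_lit 14) (.e (nat_lit 491571) (nat_lit 13) (.e (nat_lit 393260) (nat_lit 21) (.e (nat_lit 409611) (nat_lit 10) .nil)))) .nil)) 
(.lf (nat_lit 135624) (.g (nat_lit 2656) (.e (nat_lit 16472) (nat_lit 14) (.e (nat_lit 491539) (nat_lit 3) (.e (nat_lit 98372) (nat_lit 29) (.e (nat_lit 450586) (nat_lit 10) (.e (nat_lit 573471) (nat_lit 11) .nil))))) (.g (nat_lit 0) .nil .nil)))) (.nd (nat_lit 6) 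
(.lf (nat_lit 135592) (.g (nat_lit 3468) (.e (nat_lit 16471) (nat_lit 14) (.e (nat_lit 491540) (nat_lit 3) (.e (nat_lit 98373) (nat_lit 29) (.e (nat_lit 450586) (nat_lit 10) (.e (nat_lit 573471) (nat_lit 11) .nil))))) (.g (nat_lit 4) .nil .nil))) 
(.lf (nat_lit 135656) (.g (nat_lit 2738) (.e (nat_lit 16472) (nat_lit 14) (.e (nat_lit 491568) (nat_lit 13) (.e (nat_lit 393260) (nat_lit 21) (.e (nat_lit 409617) (nat_lit 10) (.e (nat_lit 7936) (nat_lit 300) .nil))))) (.g (nat_lit 4) .nil .nil))))) (.nd (nat_lit 5) (.nd (nat_lit 6) 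
(.lf (nat_lit 135576) (.g (nat_lit 2291) (.e (nat_lit 16470) (nat_lit 14) (.e (nat_lit 491571) (nat_lit 13) (.e (nat_lit 393263) (nat_lit 22) (.e (nat_lit 417817) (nat_lit 10) (.e (nat_lit 7936) (nat_lit 300) .nil))))) (.g (nat_lit 4) .nil .nil))) 
(.lf (nat_lit 135640) (.g (nat_lit 4030) (.e (nat_lit 16472) (nat_lit 14) (.e (nat_lit 491540) (nat_lit 3) (.e (nat_lit 98373) (nat_lit 29) (.e (nat_lit 450588) (nat_lit 10) (.e (nat_lit 573470) (nat_lit 11) .nil))))) (.g (nat_lit 0) .nil .nil)))) (.nd (nat_lit 6) 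
(.lf (nat_lit 135608) (.g (nat_lit 2840) (.e (nat_lit 16471) (nat_lit 14) (.e (nat_lit 491570) (nat_lit 13) (.e (nat_lit 393260) (nat_lit 21) (.e (nat_lit 409617) (nat_lit 10) (.e (nat_lit 7936) (nat_lit 300) .nil))))) (.g (nat_lit 4) .nil .nil))) 
(.lf (nat_lit 135672) (.g (nat_lit 2612) (.e (nat_lit 16472) (nat_lit 14) (.e (nat_lit 491572) (nat_lit 14) (.e (nat_lit 401454) (nat_lit 12) (.e (nat_lit 475213) (nat_lit 42) .nil)))) .nil)))))) (.nd (nat_lit 3) (.nd (nat_lit 4) (.nd (nat_lit 5) (.nd (nat_lit 6) 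
(.lf (nat_lit 135556) (.g (nat_lit 2518) (.e (nat_lit 16470) (nat_lit 14) (.e (nat_lit 491571) (nat_lit 13) (.e (nat_lit 393259) (nat_lit 21) (.e (nat_lit 409617) (nat_lit 10) (.e (nat_lit 7936) (nat_lit 300) .nil))))) (.g (nat_lit 4) .nil .nil))) 
(.lf (nat_lit 135620) (.g (nat_lit 4046) (.e (nat_lit 16472) (nat_lit 14) (.e (nat_lit 491536) (nat_lit 2) (.e (nat_lit 90170) (nat_lit 13) (.e (nat_lit 172106) (nat_lit 10) (.e (nat_lit 434244) (nat_lit 28) (.e (nat_lit 573469) (nat_lit 11) .nil)))))) (.g (nat_lit 0) .nil .nil)))) (.nd (nat_lit 6) 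
(.lf (nat_lit 135588) (.g (nat_lit 2404) (.e (nat_lit 16470) (nat_lit 14) (.e (nat_lit 491571) (nat_lit 13) (.e (nat_lit 393299) (nat_lit 27) (.e (nat_lit 491527) (nat_lit 0) .nil)))) .nil)) 
(.lf (nat_lit 135652) (.g (nat_lit 1434) (.e (nat_lit 16472) (nat_lit 14) (.e (nat_lit 491568) (nat_lit 13) (.e (nat_lit 393259) (nat_lit 21) (.e (nat_lit 417536) (nat_lit 10) .nil)))) .nil)))) (.nd (nat_lit 5) (.nd (nat_lit 6) 
(.lf (nat_lit 135572) (.g (nat_lit 2728) (.e (nat_lit 16470) (nat_lit 14) (.e (nat_lit 491571) (nat_lit 13) (.e (nat_lit 393260) (nat_lit 21) (.e (nat_lit 417536) (nat_lit 10) .nil)))) .nil)) 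
(.lf (nat_lit 135636) (.g (nat_lit 4352) (.e (nat_lit 16472) (nat_lit 14) (.e (nat_lit 491540) (nat_lit 3) (.e (nat_lit 98373) (nat_lit 29) (.e (nat_lit 450587) (nat_lit 10) (.e (nat_lit 573469) (nat_lit 11) .nil))))) (.g (nat_lit 0) .nil .nil)))) (.nd (nat_lit 6) 
(.lf (nat_lit 135604) (.g (nat_lit 1624) (.e (nat_lit 16471) (nat_lit 14) (.e (nat_lit 491568) (nat_lit 13) (.e (nat_lit 393260) (nat_lit 21) (.e (nat_lit 417536) (nat_lit 10) .nil)))) .nil)) 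
(.lf (nat_lit 135668) (.g (nat_lit 2467) (.e (nat_lit 16472) (nat_lit 14) (.e (nat_lit 491570) (nat_lit 13) (.e (nat_lit 393260) (nat_lit 21) (.e (nat_lit 409623) (nat_lit 10) (.e (nat_lit 5383) (nat_lit 300) .nil))))) (.g (nat_lit 4) .nil .nil)))))) (.nd (nat_lit 4) (.nd (nat_lit 5) (.nd (nat_lit 6) 
(.lf (nat_lit 135564) (.g (nat_lit 3387) (.e (nat_lit 16470) (nat_lit 14) (.e (nat_lit 491571) (nat_lit 13) (.e (nat_lit 393260) (nat_lit 21) (.e (nat_lit 409617) (nat_lit 10) (.e (nat_lit 7936) (nat_lit 300) .nil))))) (.g (nat_lit 4) .nil .nil))) 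
(.lf (nat_lit 135628) (.g (nat_lit 4013) (.e (nat_lit 16472) (nat_lit 14) (.e (nat_lit 491539) (nat_lit 3) (.e (nat_lit 98373) (nat_lit 29) (.e (nat_lit 450588) (nat_lit 10) (.e (nat_lit 573471) (nat_lit 11) .nil))))) (.g (nat_lit 0) .nil .nil)))) (.nd (nat_lit 6) 
(.lf (nat_lit 135596) (.g (nat_lit 4172) (.e (nat_lit 16471) (nat_lit 14) (.e (nat_lit 491544) (nat_lit 7) (.e (nat_lit 319533) (nat_lit 16) (.e (nat_lit 286753) (nat_lit 10) (.e (nat_lit 344160) (nat_lit 37) (.e (nat_lit 647199) (nat_lit 11) .nil)))))) (.g (nat_lit 0) .nil .nil))) 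
(.lf (nat_lit 135660) (.g (nat_lit 1060) (.e (nat_lit 16472) (nat_lit 14) (.e (nat_lit 491569) (nat_lit 13) (.e (nat_lit 393259) (nat_lit 21) .nil))) .nil)))) (.nd (nat_lit 5) (.nd (nat_lit 6) 
(.lf (nat_lit 135580) (.g (nat_lit 1333) (.e (nat_lit 16470) (nat_lit 14) (.e (nat_lit 491571) (nat_lit 13) (.e (nat_lit 393287) (nat_lit 25) (.e (nat_lit 458771) (nat_lit 18) .nil)))) .nil)) 
(.lf (nat_lit 135644) (.g (nat_lit 2667) (.e (nat_lit 16472) (nat_lit 14) (.e (nat_lit 491547) (nat_lit 9) (.e (nat_lit 336369) (nat_lit 27) (.e (nat_lit 426173) (nat_lit 7) (.e (nat_lit 409616) (nat_lit 10) (.e (nat_lit 7936) (nat_lit 300) .nil)))))) (.g (nat_lit 5) .nil .nil)))) (.nd (nat_lit 6) 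
(.lf (nat_lit 135612) (.g (nat_lit 1882) (.e (nat_lit 16471) (nat_lit 14) (.e (nat_lit 491572) (nat_lit 14) (.e (nat_lit 401454) (nat_lit 12) (.e (nat_lit 475212) (nat_lit 42) .nil)))) .nil)) 
(.lf (nat_lit 135676) (.g (nat_lit 3856) (.e (nat_lit 16472) (nat_lit 14) (.e (nat_lit 491572) (nat_lit 14) (.e (nat_lit 401454) (nat_lit 12) (.e (nat_lit 475214) (nat_lit 42) (.e (nat_lit 720952) (nat_lit 24) (.e (nat_lit 106536) (nat_lit 11) .nil)))))) (.g (nat_lit 4) .nil .nil)))))))) (.nd (nat_lit 2) (.nd (nat_lit 3) (.nd (nat_lit 4) (.nd (nat_lit 5) (.nd (nat_lit 6) 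
(.lf (nat_lit 135554) (.g (nat_lit 1179) (.e (nat_lit 16470) (nat_lit 14) (.e (nat_lit 491571) (nat_lit 13) (.e (nat_lit 393259) (nat_lit 21) (.e (nat_lit 409611) (nat_lit 10) (.e (nat_lit 7936) (nat_lit 300) .nil))))) .nil)) 
(.lf (nat_lit 135618) (.g (nat_lit 3656) (.e (nat_lit 16471) (nat_lit 14) (.e (nat_lit 491572) (nat_lit 14) (.e (nat_lit 401454) (nat_lit 12) (.e (nat_lit 475214) (nat_lit 42) (.e (nat_lit 720950) (nat_lit 24) .nil))))) .nil))) (.nd (nat_lit 6) 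
(.lf (nat_lit 135586) (.g (nat_lit 2620) (.e (nat_lit 16470) (nat_lit 14) (.e (nat_lit 491571) (nat_lit 13) (.e (nat_lit 393299) (nat_lit 27) (.e (nat_lit 491522) (nat_lit 0) (.e (nat_lit 7936) (nat_lit 345) .nil))))) .nil)) 
(.lf (nat_lit 135650) (.g (nat_lit 1741) (.e (nat_lit 16472) (nat_lit 14) (.e (nat_lit 491560) (nat_lit 10) (.e (nat_lit 344177) (nat_lit 43) (.e (nat_lit 770072) (nat_lit 8) .nil)))) .nil)))) (.nd (nat_lit 5) (.nd (nat_lit 6) 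
(.lf (nat_lit 135570) (.g (nat_lit 3522) (.e (nat_lit 16470) (nat_lit 14) (.e (nat_lit 491571) (nat_lit 13) (.e (nat_lit 393260) (nat_lit 21) (.e (nat_lit 409624) (nat_lit 10) .nil)))) .nil)) 
(.lf (nat_lit 135634) (.g (nat_lit 3604) (.e (nat_lit 16472) (nat_lit 14) (.e (nat_lit 491540) (nat_lit 3) (.e (nat_lit 98373) (nat_lit 29) (.e (nat_lit 450586) (nat_lit 10) (.e (nat_lit 573470) (nat_lit 11) .nil))))) (.g (nat_lit 4) .nil .nil)))) (.nd (nat_lit 6) 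
(.lf (nat_lit 135602) (.g (nat_lit 2900) (.e (nat_lit 16471) (nat_lit 14) (.e (nat_lit 491568) (nat_lit 13) (.e (nat_lit 393260) (nat_lit 21) (.e (nat_lit 409616) (nat_lit 10) (.e (nat_lit 7936) (nat_lit 300) .nil))))) (.g (nat_lit 4) .nil .nil))) 
(.lf (nat_lit 135666) (.g (nat_lit 3251) (.e (nat_lit 16472) (nat_lit 14) (.e (nat_lit 491570) (nat_lit 13) (.e (nat_lit 393260) (nat_lit 21) (.e (nat_lit 409616) (nat_lit 10) (.e (nat_lit 7936) (nat_lit 300) .nil))))) (.g (nat_lit 4) .nil .nil)))))) (.nd (nat_lit 4) (.nd (nat_lit 5) (.nd (nat_lit 6) 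
(.lf (nat_lit 135562) (.g (nat_lit 3270) (.e (nat_lit 16470) (nat_lit 14) (.e (nat_lit 491571) (nat_lit 13) (.e (nat_lit 393260) (nat_lit 21) (.e (nat_lit 409614) (nat_lit 10) (.e (nat_lit 7936) (nat_lit 300) .nil))))) (.g (nat_lit 4) .nil .nil))) 
(.lf (nat_lit 135626) (.g (nat_lit 3812) (.e (nat_lit 16472) (nat_lit 14) (.e (nat_lit 491539) (nat_lit 3) (.e (nat_lit 98373) (nat_lit 29) (.e (nat_lit 450586) (nat_lit 10) (.e (nat_lit 573470) (nat_lit 11) .nil))))) (.g (nat_lit 5) .nil .nil)))) (.nd (nat_lit 6) 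
(.lf (nat_lit 135594) (.g (nat_lit 2332) (.e (nat_lit 16471) (nat_lit 14) (.e (nat_lit 491540) (nat_lit 3) (.e (nat_lit 98373) (nat_lit 29) (.e (nat_lit 450587) (nat_lit 10) (.e (nat_lit 573470) (nat_lit 11) .nil))))) .nil)) 
(.lf (nat_lit 135658) (.g (nat_lit 1584) (.e (nat_lit 16472) (nat_lit 14) (.e (nat_lit 491568) (nat_lit 13) (.e (nat_lit 393260) (nat_lit 21) (.e (nat_lit 417536) (nat_lit 10) .nil)))) .nil)))) (.nd (nat_lit 5) (.nd (nat_lit 6) 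
(.lf (nat_lit 135578) (.g (nat_lit 1960) (.e (nat_lit 16470) (nat_lit 14) (.e (nat_lit 491571) (nat_lit 13) (.e (nat_lit 393271) (nat_lit 23) (.e (nat_lit 426354) (nat_lit 15) .nil)))) .nil)) 
(.lf (nat_lit 135642) (.g (nat_lit 1434) (.e (nat_lit 16472) (nat_lit 14) (.e (nat_lit 491544) (nat_lit 7) (.e (nat_lit 319531) (nat_lit 16) (.e (nat_lit 286759) (nat_lit 12) .nil)))) .nil))) (.nd (nat_lit 6) 
(.lf (nat_lit 135610) (.g (nat_lit 1031) (.e (nat_lit 16471) (nat_lit 14) (.e (nat_lit 491570) (nat_lit 13) (.e (nat_lit 393260) (nat_lit 21) (.e (nat_lit 417536) (nat_lit 10) .nil)))) .nil)) 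
(.lf (nat_lit 135674) (.g (nat_lit 3521) (.e (nat_lit 16472) (nat_lit 14) (.e (nat_lit 491572) (nat_lit 14) (.e (nat_lit 401454) (nat_lit 12) (.e (nat_lit 475214) (nat_lit 42) (.e (nat_lit 720949) (nat_lit 24) .nil))))) .nil)))))) (.nd (nat_lit 3) (.nd (nat_lit 4) (.nd (nat_lit 5) (.nd (nat_lit 6) 
(.lf (nat_lit 135558) (.g (nat_lit 3283) (.e (nat_lit 16470) (nat_lit 14) (.e (nat_lit 491571) (nat_lit 13) (.e (nat_lit 393260) (nat_lit 21) (.e (nat_lit 409609) (nat_lit 10) .nil)))) .nil)) 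
(.lf (nat_lit 135622) (.g (nat_lit 3896) (.e (nat_lit 16472) (nat_lit 14) (.e (nat_lit 491538) (nat_lit 3) (.e (nat_lit 98373) (nat_lit 29) (.e (nat_lit 450587) (nat_lit 10) (.e (nat_lit 573469) (nat_lit 11) .nil))))) (.g (nat_lit 0) .nil .nil)))) (.nd (nat_lit 6) 
(.lf (nat_lit 135590) (.g (nat_lit 2388) (.e (nat_lit 16470) (nat_lit 14) (.e (nat_lit 491571) (nat_lit 13) (.e (nat_lit 393299) (nat_lit 27) (.e (nat_lit 491529) (nat_lit 0) .nil)))) .nil)) 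
(.lf (nat_lit 135654) (.g (nat_lit 2761) (.e (nat_lit 16472) (nat_lit 14) (.e (nat_lit 491568) (nat_lit 13) (.e (nat_lit 393260) (nat_lit 21) (.e (nat_lit 409614) (nat_lit 10) (.e (nat_lit 5380) (nat_lit 300) .nil))))) (.g (nat_lit 4) .nil .nil))))) (.nd (nat_lit 5) (.nd (nat_lit 6) 
(.lf (nat_lit 135574) (.g (nat_lit 2544) (.e (nat_lit 16470) (nat_lit 14) (.e (nat_lit 491571) (nat_lit 13) (.e (nat_lit 393263) (nat_lit 22) (.e (nat_lit 417815) (nat_lit 10) (.e (nat_lit 7936) (nat_lit 300) .nil))))) (.g (nat_lit 4) .nil .nil))) 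
(.lf (nat_lit 135638) (.g (nat_lit 2989) (.e (nat_lit 16472) (nat_lit 14) (.e (nat_lit 491540) (nat_lit 3) (.e (nat_lit 98373) (nat_lit 29) (.e (nat_lit 450587) (nat_lit 10) (.e (nat_lit 573471) (nat_lit 11) .nil))))) (.g (nat_lit 0) .nil .nil)))) (.nd (nat_lit 6) 
(.lf (nat_lit 135606) (.g (nat_lit 1794) (.e (nat_lit 16471) (nat_lit 14) (.e (nat_lit 491570) (nat_lit 13) (.e (nat_lit 393260) (nat_lit 21) (.e (nat_lit 409608) (nat_lit 10) .nil)))) .nil)) 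
(.lf (nat_lit 135670) (.g (nat_lit 3299) (.e (nat_lit 16472) (nat_lit 14) (.e (nat_lit 491572) (nat_lit 14) (.e (nat_lit 401454) (nat_lit 12) (.e (nat_lit 475212) (nat_lit 42) (.e (nat_lit 720951) (nat_lit 24) (.e (nat_lit 106536) (nat_lit 11) .nil)))))) (.g (nat_lit 4) .nil .nil)))))) (.nd (nat_lit 4) (.nd (nat_lit 5) (.nd (nat_lit 6) 
(.lf (nat_lit 135566) (.g (nat_lit 3639) (.e (nat_lit 16470) (nat_lit 14) (.e (nat_lit 491571) (nat_lit 13) (.e (nat_lit 393260) (nat_lit 21) (.e (nat_lit 409621) (nat_lit 10) .nil)))) .nil)) 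
(.lf (nat_lit 135630) (.g (nat_lit 2899) (.e (nat_lit 16472) (nat_lit 14) (.e (nat_lit 491540) (nat_lit 3) (.e (nat_lit 98372) (nat_lit 29) (.e (nat_lit 450586) (nat_lit 10) (.e (nat_lit 573471) (nat_lit 11) .nil))))) (.g (nat_lit 0) .nil .nil)))) (.nd (nat_lit 6) 
(.lf (nat_lit 135598) (.g (nat_lit 2509) (.e (nat_lit 16471) (nat_lit 14) (.e (nat_lit 491549) (nat_lit 9) (.e (nat_lit 336369) (nat_lit 27) (.e (nat_lit 426173) (nat_lit 7) (.e (nat_lit 409617) (nat_lit 10) (.e (nat_lit 7936) (nat_lit 300) .nil)))))) (.g (nat_lit 5) .nil .nil))) 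
(.lf (nat_lit 135662) (.g (nat_lit 1623) (.e (nat_lit 16472) (nat_lit 14) (.e (nat_lit 491569) (nat_lit 13) (.e (nat_lit 393260) (nat_lit 21) (.e (nat_lit 409617) (nat_lit 10) .nil)))) .nil)))) (.nd (nat_lit 5) (.nd (nat_lit 6) 
(.lf (nat_lit 135582) (.g (nat_lit 2624) (.e (nat_lit 16470) (nat_lit 14) (.e (nat_lit 491571) (nat_lit 13) (.e (nat_lit 393298) (nat_lit 27) (.e (nat_lit 491524) (nat_lit 0) (.e (nat_lit 7936) (nat_lit 345) .nil))))) .nil)) 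
(.lf (nat_lit 135646) (.g (nat_lit 3221) (.e (nat_lit 16472) (nat_lit 14) (.e (nat_lit 491549) (nat_lit 9) (.e (nat_lit 336369) (nat_lit 27) (.e (nat_lit 426173) (nat_lit 7) (.e (nat_lit 409616) (nat_lit 10) (.e (nat_lit 7936) (nat_lit 300) .nil)))))) (.g (nat_lit 5) .nil .nil)))) (.nd (nat_lit 6) 
(.lf (nat_lit 135614) (.g (nat_lit 3065) (.e (nat_lit 16471) (nat_lit 14) (.e (nat_lit 491572) (nat_lit 14) (.e (nat_lit 401454) (nat_lit 12) (.e (nat_lit 475212) (nat_lit 42) (.e (nat_lit 720952) (nat_lit 24) (.e (nat_lit 106536) (nat_lit 11) .nil)))))) (.g (nat_lit 4) .nil .nil))) 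
(.lf (nat_lit 135678) (.g (nat_lit 3261) (.e (nat_lit 16473) (nat_lit 14) (.e (nat_lit 491526) (nat_lit 0) (.e (nat_lit 992) (nat_lit 81) (.e (nat_lit 7454) (nat_lit 396) (.e (nat_lit 1221) (nat_lit 90) (.e (nat_lit 81953) (nat_lit 22) (.e (nat_lit 98048) (nat_lit 2) .nil))))))) (.g (nat_lit 6) .nil .nil))))))))) 
(.nd (nat_lit 1) (.nd (nat_lit 2) (.nd (nat_lit 3) (.nd (nat_lit 4) (.nd (nat_lit 5) 
(.nd (nat_lit 6) 
(.lf (nat_lit 135553) (.g (nat_lit 1886) (.e (nat_lit 16470) (nat_lit 14) (.e (nat_lit 491571) (nat_lit 13) (.e (nat_lit 393238) (nat_lit 17) (.e (nat_lit 7100) (nat_lit 380) .nil)))) .nil)) 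
(.lf (nat_lit 135617) (.g (nat_lit 3527) (.e (nat_lit 16471) (nat_lit 14) (.e (nat_lit 491572) (nat_lit 14) (.e (nat_lit 401454) (nat_lit 12) (.e (nat_lit 475214) (nat_lit 42) (.e (nat_lit 720949) (nat_lit 24) .nil))))) .nil))) (.nd (nat_lit 6) 
(.lf (nat_lit 135585) (.g (nat_lit 1743) (.e (nat_lit 16470) (nat_lit 14) (.e (nat_lit 491571) (nat_lit 13) (.e (nat_lit 393298) (nat_lit 27) (.e (nat_lit 491529) (nat_lit 0) .nil)))) .nil)) 
(.lf (nat_lit 135649) (.g (nat_lit 1988) (.e (nat_lit 16472) (nat_lit 14) (.e (nat_lit 491556) (nat_lit 9) (.e (nat_lit 336051) (nat_lit 6) (.e (nat_lit 147496) (nat_lit 11) (.e (nat_lit 24584) (nat_lit 0) .nil))))) .nil)))) (.nd (nat_lit 5) (.nd (nat_lit 6) 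
(.lf (nat_lit 135569) (.g (nat_lit 2943) (.e (nat_lit 16470) (nat_lit 14) (.e (nat_lit 491571) (nat_lit 13) (.e (nat_lit 393260) (nat_lit 21) (.e (nat_lit 409623) (nat_lit 10) (.e (nat_lit 7936) (nat_lit 300) .nil))))) (.g (nat_lit 4) .nil .nil))) 
(.lf (nat_lit 135633) (.g (nat_lit 3327) (.e (nat_lit 16472) (nat_lit 14) (.e (nat_lit 491540) (nat_lit 3) (.e (nat_lit 98373) (nat_lit 29) (.e (nat_lit 450586) (nat_lit 10) (.e (nat_lit 573469) (nat_lit 11) .nil))))) .nil))) (.nd (nat_lit 6) 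
(.lf (nat_lit 135601) (.g (nat_lit 3001) (.e (nat_lit 16471) (nat_lit 14) (.e (nat_lit 491568) (nat_lit 13) (.e (nat_lit 393260) (nat_lit 21) (.e (nat_lit 409614) (nat_lit 10) (.e (nat_lit 5380) (nat_lit 300) .nil))))) (.g (nat_lit 4) .nil .nil))) 
(.lf (nat_lit 135665) (.g (nat_lit 1338) (.e (nat_lit 16472) (nat_lit 14) (.e (nat_lit 491570) (nat_lit 13) (.e (nat_lit 393238) (nat_lit 17) (.e (nat_lit 7114) (nat_lit 381) .nil)))) .nil))))) (.nd (nat_lit 4) (.nd (nat_lit 5) (.nd (nat_lit 6) 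
(.lf (nat_lit 135561) (.g (nat_lit 3072) (.e (nat_lit 16470) (nat_lit 14) (.e (nat_lit 491571) (nat_lit 13) (.e (nat_lit 393260) (nat_lit 21) (.e (nat_lit 409612) (nat_lit 10) .nil)))) .nil)) 
(.lf (nat_lit 135625) (.g (nat_lit 3297) (.e (nat_lit 16472) (nat_lit 14) (.e (nat_lit 491539) (nat_lit 3) (.e (nat_lit 98373) (nat_lit 29) (.e (nat_lit 450586) (nat_lit 10) (.e (nat_lit 573469) (nat_lit 11) .nil))))) .nil))) (.nd (nat_lit 6) 
(.lf (nat_lit 135593) (.g (nat_lit 3653) (.e (nat_lit 16471) (nat_lit 14) (.e (nat_lit 491540) (nat_lit 3) (.e (nat_lit 98373) (nat_lit 29) (.e (nat_lit 450587) (nat_lit 10) (.e (nat_lit 573469) (nat_lit 11) .nil))))) (.g (nat_lit 4) .nil .nil))) 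
(.lf (nat_lit 135657) (.g (nat_lit 2459) (.e (nat_lit 16472) (nat_lit 14) (.e (nat_lit 491568) (nat_lit 13) (.e (nat_lit 393260) (nat_lit 21) (.e (nat_lit 409623) (nat_lit 10) (.e (nat_lit 5383) (nat_lit 300) .nil))))) (.g (nat_lit 4) .nil .nil))))) (.nd (nat_lit 5) (.nd (nat_lit 6) 
(.lf (nat_lit 135577) (.g (nat_lit 1650) (.e (nat_lit 16470) (nat_lit 14) (.e (nat_lit 491571) (nat_lit 13) (.e (nat_lit 393268) (nat_lit 23) (.e (nat_lit 426361) (nat_lit 15) .nil)))) .nil)) 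
(.lf (nat_lit 135641) (.g (nat_lit 4230) (.e (nat_lit 16472) (nat_lit 14) (.e (nat_lit 491540) (nat_lit 3) (.e (nat_lit 98373) (nat_lit 29) (.e (nat_lit 450588) (nat_lit 10) (.e (nat_lit 573471) (nat_lit 11) .nil))))) (.g (nat_lit 0) .nil .nil)))) (.nd (nat_lit 6) 
(.lf (nat_lit 135609) (.g (nat_lit 2337) (.e (nat_lit 16471) (nat_lit 14) (.e (nat_lit 491570) (nat_lit 13) (.e (nat_lit 393260) (nat_lit 21) (.e (nat_lit 409623) (nat_lit 10) (.e (nat_lit 5383) (nat_lit 300) .nil))))) (.g (nat_lit 5) .nil .nil))) 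
(.lf (nat_lit 135673) (.g (nat_lit 3925) (.e (nat_lit 16472) (nat_lit 14) (.e (nat_lit 491572) (nat_lit 14) (.e (nat_lit 401454) (nat_lit 12) (.e (nat_lit 475214) (nat_lit 42) (.e (nat_lit 720947) (nat_lit 24) (.e (nat_lit 106536) (nat_lit 11) .nil)))))) (.g (nat_lit 4) .nil .nil))))))) (.nd (nat_lit 3) (.nd (nat_lit 4) (.nd (nat_lit 5) (.nd (nat_lit 6) 
(.lf (nat_lit 135557) (.g (nat_lit 3570) (.e (nat_lit 16470) (nat_lit 14) (.e (nat_lit 491571) (nat_lit 13) (.e (nat_lit 393260) (nat_lit 21) (.e (nat_lit 409608) (nat_lit 10) .nil)))) .nil)) 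
(.lf (nat_lit 135621) (.g (nat_lit 4361) (.e (nat_lit 16472) (nat_lit 14) (.e (nat_lit 491536) (nat_lit 2) (.e (nat_lit 90170) (nat_lit 13) (.e (nat_lit 172106) (nat_lit 10) (.e (nat_lit 434244) (nat_lit 28) (.e (nat_lit 573471) (nat_lit 11) .nil)))))) (.g (nat_lit 0) .nil .nil)))) (.nd (nat_lit 6) 
(.lf (nat_lit 135589) (.g (nat_lit 2195) (.e (nat_lit 16470) (nat_lit 14) (.e (nat_lit 491571) (nat_lit 13) (.e (nat_lit 393299) (nat_lit 27) (.e (nat_lit 491528) (nat_lit 0) .nil)))) .nil)) 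
(.lf (nat_lit 135653) (.g (nat_lit 313) (.e (nat_lit 16472) (nat_lit 14) (.e (nat_lit 491568) (nat_lit 13) (.e (nat_lit 393260) (nat_lit 21) .nil))) .nil)))) (.nd (nat_lit 5) (.nd (nat_lit 6) 
(.lf (nat_lit 135573) (.g (nat_lit 2096) (.e (nat_lit 16470) (nat_lit 14) (.e (nat_lit 491571) (nat_lit 13) (.e (nat_lit 393262) (nat_lit 22) (.e (nat_lit 417815) (nat_lit 10) (.e (nat_lit 7936) (nat_lit 300) .nil))))) (.g (nat_lit 4) .nil .nil))) 
(.lf (nat_lit 135637) (.g (nat_lit 3311) (.e (nat_lit 16472) (nat_lit 14) (.e (nat_lit 491540) (nat_lit 3) (.e (nat_lit 98373) (nat_lit 29) (.e (nat_lit 450587) (nat_lit 10) (.e (nat_lit 573470) (nat_lit 11) .nil))))) (.g (nat_lit 0) .nil .nil)))) (.nd (nat_lit 6) 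
(.lf (nat_lit 135605) (.g (nat_lit 1303) (.e (nat_lit 16471) (nat_lit 14) (.e (nat_lit 491570) (nat_lit 13) (.e (nat_lit 393238) (nat_lit 17) (.e (nat_lit 7114) (nat_lit 381) .nil)))) .nil)) 
(.lf (nat_lit 135669) (.g (nat_lit 1064) (.e (nat_lit 16472) (nat_lit 14) (.e (nat_lit 491570) (nat_lit 13) (.e (nat_lit 393260) (nat_lit 21) (.e (nat_lit 417536) (nat_lit 10) .nil)))) .nil))))) (.nd (nat_lit 4) (.nd (nat_lit 5) (.nd (nat_lit 6) 
(.lf (nat_lit 135565) (.g (nat_lit 2629) (.e (nat_lit 16470) (nat_lit 14) (.e (nat_lit 491571) (nat_lit 13) (.e (nat_lit 393260) (nat_lit 21) (.e (nat_lit 409618) (nat_lit 10) .nil)))) .nil)) 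
(.lf (nat_lit 135629) (.g (nat_lit 2852) (.e (nat_lit 16472) (nat_lit 14) (.e (nat_lit 491540) (nat_lit 3) (.e (nat_lit 98372) (nat_lit 29) (.e (nat_lit 450586) (nat_lit 10) (.e (nat_lit 573469) (nat_lit 11) .nil))))) (.g (nat_lit 5) .nil .nil)))) (.nd (nat_lit 6) 
(.lf (nat_lit 135597) (.g (nat_lit 2753) (.e (nat_lit 16471) (nat_lit 14) (.e (nat_lit 491549) (nat_lit 9) (.e (nat_lit 336369) (nat_lit 27) (.e (nat_lit 426173) (nat_lit 7) (.e (nat_lit 409616) (nat_lit 10) (.e (nat_lit 7936) (nat_lit 300) .nil)))))) (.g (nat_lit 5) .nil .nil))) 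
(.lf (nat_lit 135661) (.g (nat_lit 2187) (.e (nat_lit 16472) (nat_lit 14) (.e (nat_lit 491569) (nat_lit 13) (.e (nat_lit 393260) (nat_lit 21) (.e (nat_lit 409616) (nat_lit 10) .nil)))) .nil)))) (.nd (nat_lit 5) (.nd (nat_lit 6) 
(.lf (nat_lit 135581) (.g (nat_lit 1745) (.e (nat_lit 16470) (nat_lit 14) (.e (nat_lit 491571) (nat_lit 13) (.e (nat_lit 393298) (nat_lit 27) (.e (nat_lit 491522) (nat_lit 0) .nil)))) .nil)) 
(.lf (nat_lit 135645) (.g (nat_lit 2385) (.e (nat_lit 16472) (nat_lit 14) (.e (nat_lit 491547) (nat_lit 9) (.e (nat_lit 336369) (nat_lit 27) (.e (nat_lit 426173) (nat_lit 7) (.e (nat_lit 409617) (nat_lit 10) (.e (nat_lit 7936) (nat_lit 300) .nil)))))) (.g (nat_lit 5) .nil .nil)))) (.nd (nat_lit 6) 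
(.lf (nat_lit 135613) (.g (nat_lit 3062) (.e (nat_lit 16471) (nat_lit 14) (.e (nat_lit 491572) (nat_lit 14) (.e (nat_lit 401454) (nat_lit 12) (.e (nat_lit 475212) (nat_lit 42) (.e (nat_lit 720951) (nat_lit 24) (.e (nat_lit 106536) (nat_lit 11) .nil)))))) (.g (nat_lit 4) .nil .nil))) 
(.lf (nat_lit 135677) (.g (nat_lit 3401) (.e (nat_lit 16473) (nat_lit 14) (.e (nat_lit 491526) (nat_lit 0) (.e (nat_lit 992) (nat_lit 81) (.e (nat_lit 7454) (nat_lit 396) (.e (nat_lit 1220) (nat_lit 90) (.e (nat_lit 81953) (nat_lit 22) (.e (nat_lit 98048) (nat_lit 2) .nil))))))) (.g (nat_lit 6) .nil .nil)))))))) (.nd (nat_lit 2) (.nd (nat_lit 3) (.nd (nat_lit 4) (.nd (nat_lit 5) (.nd (nat_lit 6) 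
(.lf (nat_lit 135555) (.g (nat_lit 2838) (.e (nat_lit 16470) (nat_lit 14) (.e (nat_lit 491571) (nat_lit 13) (.e (nat_lit 393259) (nat_lit 21) (.e (nat_lit 409616) (nat_lit 10) (.e (nat_lit 7936) (nat_lit 300) .nil))))) (.g (nat_lit 4) .nil .nil))) 
(.lf (nat_lit 135619) (.g (nat_lit 3659) (.e (nat_lit 16471) (nat_lit 14) (.e (nat_lit 491572) (nat_lit 14) (.e (nat_lit 401454) (nat_lit 12) (.e (nat_lit 475214) (nat_lit 42) (.e (nat_lit 720952) (nat_lit 24) .nil))))) .nil))) (.nd (nat_lit 6) 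
(.lf (nat_lit 135587) (.g (nat_lit 2178) (.e (nat_lit 16470) (nat_lit 14) (.e (nat_lit 491571) (nat_lit 13) (.e (nat_lit 393299) (nat_lit 27) (.e (nat_lit 491526) (nat_lit 0) (.e (nat_lit 7936) (nat_lit 345) .nil))))) (.g (nat_lit 4) .nil .nil))) 
(.lf (nat_lit 135651) (.g (nat_lit 1588) (.e (nat_lit 16472) (nat_lit 14) (.e (nat_lit 491568) (nat_lit 13) (.e (nat_lit 393259) (nat_lit 21) (.e (nat_lit 409614) (nat_lit 10) .nil)))) .nil)))) (.nd (nat_lit 5) (.nd (nat_lit 6) 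
(.lf (nat_lit 135571) (.g (nat_lit 3283) (.e (nat_lit 16470) (nat_lit 14) (.e (nat_lit 491571) (nat_lit 13) (.e (nat_lit 393260) (nat_lit 21) (.e (nat_lit 409625) (nat_lit 10) .nil)))) .nil)) 
(.lf (nat_lit 135635) (.g (nat_lit 3445) (.e (nat_lit 16472) (nat_lit 14) (.e (nat_lit 491540) (nat_lit 3) (.e (nat_lit 98373) (nat_lit 29) (.e (nat_lit 450586) (nat_lit 10) (.e (nat_lit 573471) (nat_lit 11) .nil))))) (.g (nat_lit 4) .nil .nil)))) (.nd (nat_lit 6) 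
(.lf (nat_lit 135603) (.g (nat_lit 2160) (.e (nat_lit 16471) (nat_lit 14) (.e (nat_lit 491568) (nat_lit 13) (.e (nat_lit 393260) (nat_lit 21) (.e (nat_lit 409617) (nat_lit 10) (.e (nat_lit 7936) (nat_lit 300) .nil))))) .nil)) 
(.lf (nat_lit 135667) (.g (nat_lit 3168) (.e (nat_lit 16472) (nat_lit 14) (.e (nat_lit 491570) (nat_lit 13) (.e (nat_lit 393260) (nat_lit 21) (.e (nat_lit 409617) (nat_lit 10) (.e (nat_lit 7936) (nat_lit 300) .nil))))) (.g (nat_lit 4) .nil .nil)))))) (.nd (nat_lit 4) (.nd (nat_lit 5) (.nd (nat_lit 6) 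
(.lf (nat_lit 135563) (.g (nat_lit 4077) (.e (nat_lit 16470) (nat_lit 14) (.e (nat_lit 491571) (nat_lit 13) (.e (nat_lit 393260) (nat_lit 21) (.e (nat_lit 409616) (nat_lit 10) (.e (nat_lit 7936) (nat_lit 300) .nil))))) (.g (nat_lit 4) .nil .nil))) 
(.lf (nat_lit 135627) (.g (nat_lit 2592) (.e (nat_lit 16472) (nat_lit 14) (.e (nat_lit 491539) (nat_lit 3) (.e (nat_lit 98373) (nat_lit 29) (.e (nat_lit 450587) (nat_lit 10) (.e (nat_lit 573471) (nat_lit 11) .nil))))) (.g (nat_lit 0) .nil .nil)))) (.nd (nat_lit 6) 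
(.lf (nat_lit 135595) (.g (nat_lit 2844) (.e (nat_lit 16471) (nat_lit 14) (.e (nat_lit 491540) (nat_lit 3) (.e (nat_lit 98373) (nat_lit 29) (.e (nat_lit 450588) (nat_lit 10) (.e (nat_lit 573470) (nat_lit 11) .nil))))) (.g (nat_lit 4) .nil .nil))) 
(.lf (nat_lit 135659) (.g (nat_lit 780) (.e (nat_lit 16472) (nat_lit 14) (.e (nat_lit 491569) (nat_lit 13) (.e (nat_lit 393238) (nat_lit 17) .nil))) .nil)))) (.nd (nat_lit 5) (.nd (nat_lit 6) 
(.lf (nat_lit 135579) (.g (nat_lit 3373) (.e (nat_lit 16470) (nat_lit 14) (.e (nat_lit 491571) (nat_lit 13) (.e (nat_lit 393283) (nat_lit 24) (.e (nat_lit 434208) (nat_lit 18) (.e (nat_lit 4754) (nat_lit 281) (.e (nat_lit 1127) (nat_lit 83) .nil)))))) (.g (nat_lit 4) .nil .nil))) 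
(.lf (nat_lit 135643) (.g (nat_lit 4197) (.e (nat_lit 16472) (nat_lit 14) (.e (nat_lit 491544) (nat_lit 7) (.e (nat_lit 319533) (nat_lit 16) (.e (nat_lit 286753) (nat_lit 10) (.e (nat_lit 344160) (nat_lit 37) (.e (nat_lit 647199) (nat_lit 11) .nil)))))) (.g (nat_lit 0) .nil .nil)))) (.nd (nat_lit 6) 
(.lf (nat_lit 135611) (.g (nat_lit 1756) (.e (nat_lit 16471) (nat_lit 14) (.e (nat_lit 491572) (nat_lit 14) (.e (nat_lit 401437) (nat_lit 9) (.e (nat_lit 426448) (nat_lit 20) .nil)))) .nil)) 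
(.lf (nat_lit 135675) (.g (nat_lit 3890) (.e (nat_lit 16472) (nat_lit 14) (.e (nat_lit 491572) (nat_lit 14) (.e (nat_lit 401454) (nat_lit 12) (.e (nat_lit 475214) (nat_lit 42) (.e (nat_lit 720950) (nat_lit 24) (.e (nat_lit 106536) (nat_lit 11) .nil)))))) (.g (nat_lit 4) .nil .nil))))))) (.nd (nat_lit 3) (.nd (nat_lit 4) (.nd (nat_lit 5) (.nd (nat_lit 6) 
(.lf (nat_lit 135559) (.g (nat_lit 4316) (.e (nat_lit 16470) (nat_lit 14) (.e (nat_lit 491571) (nat_lit 13) (.e (nat_lit 393260) (nat_lit 21) (.e (nat_lit 409610) (nat_lit 10) .nil)))) .nil)) 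
(.lf (nat_lit 135623) (.g (nat_lit 4315) (.e (nat_lit 16472) (nat_lit 14) (.e (nat_lit 491538) (nat_lit 3) (.e (nat_lit 98373) (nat_lit 29) (.e (nat_lit 450588) (nat_lit 10) (.e (nat_lit 573469) (nat_lit 11) .nil))))) (.g (nat_lit 0) .nil .nil)))) (.nd (nat_lit 6) 
(.lf (nat_lit 135591) (.g (nat_lit 2319) (.e (nat_lit 16470) (nat_lit 14) (.e (nat_lit 491571) (nat_lit 13) (.e (nat_lit 393299) (nat_lit 27) (.e (nat_lit 491531) (nat_lit 0) (.e (nat_lit 7936) (nat_lit 345) .nil))))) .nil)) 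
(.lf (nat_lit 135655) (.g (nat_lit 3140) (.e (nat_lit 16472) (nat_lit 14) (.e (nat_lit 491568) (nat_lit 13) (.e (nat_lit 393260) (nat_lit 21) (.e (nat_lit 409616) (nat_lit 10) (.e (nat_lit 7936) (nat_lit 300) .nil))))) (.g (nat_lit 4) .nil .nil))))) (.nd (nat_lit 5) (.nd (nat_lit 6) 
(.lf (nat_lit 135575) (.g (nat_lit 1581) (.e (nat_lit 16470) (nat_lit 14) (.e (nat_lit 491571) (nat_lit 13) (.e (nat_lit 393263) (nat_lit 22) (.e (nat_lit 417816) (nat_lit 10) .nil)))) .nil)) 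
(.lf (nat_lit 135639) (.g (nat_lit 4784) (.e (nat_lit 16472) (nat_lit 14) (.e (nat_lit 491540) (nat_lit 3) (.e (nat_lit 98373) (nat_lit 29) (.e (nat_lit 450588) (nat_lit 10) (.e (nat_lit 573469) (nat_lit 11) .nil))))) (.g (nat_lit 5) .nil .nil)))) (.nd (nat_lit 6) 
(.lf (nat_lit 135607) (.g (nat_lit 2966) (.e (nat_lit 16471) (nat_lit 14) (.e (nat_lit 491570) (nat_lit 13) (.e (nat_lit 393260) (nat_lit 21) (.e (nat_lit 409616) (nat_lit 10) (.e (nat_lit 7936) (nat_lit 300) .nil))))) (.g (nat_lit 4) .nil .nil))) 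
(.lf (nat_lit 135671) (.g (nat_lit 3334) (.e (nat_lit 16472) (nat_lit 14) (.e (nat_lit 491572) (nat_lit 14) (.e (nat_lit 401454) (nat_lit 12) (.e (nat_lit 475212) (nat_lit 42) (.e (nat_lit 720952) (nat_lit 24) (.e (nat_lit 106536) (nat_lit 11) .nil)))))) (.g (nat_lit 4) .nil .nil)))))) (.nd (nat_lit 4) (.nd (nat_lit 5) (.nd (nat_lit 6) 
(.lf (nat_lit 135567) (.g (nat_lit 4267) (.e (nat_lit 16470) (nat_lit 14) (.e (nat_lit 491571) (nat_lit 13) (.e (nat_lit 393260) (nat_lit 21) (.e (nat_lit 409622) (nat_lit 10) .nil)))) .nil)) 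
(.lf (nat_lit 135631) (.g (nat_lit 3259) (.e (nat_lit 16472) (nat_lit 14) (.e (nat_lit 491540) (nat_lit 3) (.e (nat_lit 98372) (nat_lit 29) (.e (nat_lit 450588) (nat_lit 10) (.e (nat_lit 573470) (nat_lit 11) .nil))))) (.g (nat_lit 4) .nil .nil)))) (.nd (nat_lit 6) 
(.lf (nat_lit 135599) (.g (nat_lit 946) (.e (nat_lit 16471) (nat_lit 14) (.e (nat_lit 491568) (nat_lit 13) (.e (nat_lit 393259) (nat_lit 21) .nil))) .nil)) 
(.lf (nat_lit 135663) (.g (nat_lit 1070) (.e (nat_lit 16472) (nat_lit 14) (.e (nat_lit 491569) (nat_lit 13) (.e (nat_lit 393265) (nat_lit 22) .nil))) .nil)))) (.nd (nat_lit 5) (.nd (nat_lit 6) 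
(.lf (nat_lit 135583) (.g (nat_lit 2096) (.e (nat_lit 16470) (nat_lit 14) (.e (nat_lit 491571) (nat_lit 13) (.e (nat_lit 393298) (nat_lit 27) (.e (nat_lit 491526) (nat_lit 0) (.e (nat_lit 7936) (nat_lit 345) .nil))))) .nil)) 
(.lf (nat_lit 135647) (.g (nat_lit 2855) (.e (nat_lit 16472) (nat_lit 14) (.e (nat_lit 491549) (nat_lit 9) (.e (nat_lit 336369) (nat_lit 27) (.e (nat_lit 426173) (nat_lit 7) (.e (nat_lit 409617) (nat_lit 10) (.e (nat_lit 7936) (nat_lit 300) .nil)))))) (.g (nat_lit 5) .nil .nil)))) (.nd (nat_lit 6) 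
(.lf (nat_lit 135615) (.g (nat_lit 2615) (.e (nat_lit 16471) (nat_lit 14) (.e (nat_lit 491572) (nat_lit 14) (.e (nat_lit 401454) (nat_lit 12) (.e (nat_lit 475213) (nat_lit 42) .nil)))) .nil)) 
(.lf (nat_lit 135679) (.g (nat_lit 306) (.e (nat_lit 16473) (nat_lit 14) (.e (nat_lit 491526) (nat_lit 0) (.e (nat_lit 1788) (nat_lit 119) .nil))) .nil)))))))))

noncomputable def tv1805 : DT := (.nd (nat_lit 0) (.nd (nat_lit 1) (.nd (nat_lit 2) (.nd (nat_lit 3) (.nd (nat_lit 4) (.nd (nat_lit 5) 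
(.lf (nat_lit 135680) (.g (nat_lit 3099) (.e (nat_lit 16473) (nat_lit 14) (.e (nat_lit 491526) (nat_lit 0) (.e (nat_lit 1788) (nat_lit 119) (.e (nat_lit 516151) (nat_lit 9) (.e (nat_lit 426286) (nat_lit 10) (.e (nat_lit 434203) (nat_lit 18) (.e (nat_lit 4168) (nat_lit 251) (.e (nat_lit 1122) (nat_lit 83) .nil)))))))) (.g (nat_lit 4) .nil .nil))) 
(.lf (nat_lit 135712) (.g (nat_lit 3464) (.e (nat_lit 16473) (nat_lit 14) (.e (nat_lit 491526) (nat_lit 0) (.e (nat_lit 1788) (nat_lit 119) (.e (nat_lit 516151) (nat_lit 9) (.e (nat_lit 426286) (nat_lit 10) (.e (nat_lit 434208) (nat_lit 18) (.e (nat_lit 4168) (nat_lit 251) (.e (nat_lit 1127) (nat_lit 83) .nil)))))))) (.g (nat_lit 4) .nil .nil)))) (.nd (nat_lit 5) 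
(.lf (nat_lit 135696) (.g (nat_lit 3184) (.e (nat_lit 16473) (nat_lit 14) (.e (nat_lit 491526) (nat_lit 0) (.e (nat_lit 1788) (nat_lit 119) (.e (nat_lit 516151) (nat_lit 9) (.e (nat_lit 426286) (nat_lit 10) (.e (nat_lit 434203) (nat_lit 18) (.e (nat_lit 4193) (nat_lit 251) (.e (nat_lit 1122) (nat_lit 83) .nil)))))))) (.g (nat_lit 4) .nil .nil))) 
(.lf (nat_lit 135728) (.g (nat_lit 3560) (.e (nat_lit 16473) (nat_lit 14) (.e (nat_lit 491526) (nat_lit 0) (.e (nat_lit 1788) (nat_lit 119) (.e (nat_lit 516165) (nat_lit 12) (.e (nat_lit 450569) (nat_lit 0) (.e (nat_lit 4215) (nat_lit 251) (.e (nat_lit 1127) (nat_lit 83) .nil))))))) (.g (nat_lit 4) .nil .nil))))) (.nd (nat_lit 4) (.nd (nat_lit 5) 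
(.lf (nat_lit 135688) (.g (nat_lit 3627) (.e (nat_lit 16473) (nat_lit 14) (.e (nat_lit 491526) (nat_lit 0) (.e (nat_lit 1788) (nat_lit 119) (.e (nat_lit 516151) (nat_lit 9) (.e (nat_lit 426286) (nat_lit 10) (.e (nat_lit 434203) (nat_lit 18) (.e (nat_lit 4177) (nat_lit 251) (.e (nat_lit 1129) (nat_lit 83) .nil)))))))) (.g (nat_lit 4) .nil .nil))) 
(.lf (nat_lit 135720) (.g (nat_lit 3449) (.e (nat_lit 16473) (nat_lit 14) (.e (nat_lit 491526) (nat_lit 0) (.e (nat_lit 1788) (nat_lit 119) (.e (nat_lit 516163) (nat_lit 11) (.e (nat_lit 442421) (nat_lit 21) (.e (nat_lit 164122) (nat_lit 128) (.e (nat_lit 1126) (nat_lit 83) .nil))))))) (.g (nat_lit 4) .nil .nil)))) (.nd (nat_lit 5) 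
(.lf (nat_lit 135704) (.g (nat_lit 3653) (.e (nat_lit 16473) (nat_lit 14) (.e (nat_lit 491526) (nat_lit 0) (.e (nat_lit 1788) (nat_lit 119) (.e (nat_lit 516151) (nat_lit 9) (.e (nat_lit 426286) (nat_lit 10) (.e (nat_lit 434203) (nat_lit 18) (.e (nat_lit 4203) (nat_lit 251) (.e (nat_lit 1125) (nat_lit 83) .nil)))))))) (.g (nat_lit 4) .nil .nil))) 
(.lf (nat_lit 135736) (.g (nat_lit 3532) (.e (nat_lit 16473) (nat_lit 14) (.e (nat_lit 491526) (nat_lit 0) (.e (nat_lit 1788) (nat_lit 119) (.e (nat_lit 516166) (nat_lit 12) (.e (nat_lit 450562) (nat_lit 0) (.e (nat_lit 4168) (nat_lit 251) (.e (nat_lit 1125) (nat_lit 83) .nil))))))) (.g (nat_lit 4) .nil .nil)))))) (.nd (nat_lit 3) (.nd (nat_lit 4) (.nd (nat_lit 5) 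
(.lf (nat_lit 135684) (.g (nat_lit 3939) (.e (nat_lit 16473) (nat_lit 14) (.e (nat_lit 491526) (nat_lit 0) (.e (nat_lit 1788) (nat_lit 119) (.e (nat_lit 516151) (nat_lit 9) (.e (nat_lit 426286) (nat_lit 10) (.e (nat_lit 434203) (nat_lit 18) (.e (nat_lit 4168) (nat_lit 251) (.e (nat_lit 1130) (nat_lit 83) .nil)))))))) (.g (nat_lit 5) .nil .nil))) 
(.lf (nat_lit 135716) (.g (nat_lit 3272) (.e (nat_lit 16473) (nat_lit 14) (.e (nat_lit 491526) (nat_lit 0) (.e (nat_lit 1788) (nat_lit 119) (.e (nat_lit 516151) (nat_lit 9) (.e (nat_lit 426286) (nat_lit 10) (.e (nat_lit 434208) (nat_lit 18) (.e (nat_lit 4202) (nat_lit 251) (.e (nat_lit 1127) (nat_lit 83) .nil)))))))) (.g (nat_lit 4) .nil .nil)))) (.nd (nat_lit 5) 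
(.lf (nat_lit 135700) (.g (nat_lit 3323) (.e (nat_lit 16473) (nat_lit 14) (.e (nat_lit 491526) (nat_lit 0) (.e (nat_lit 1788) (nat_lit 119) (.e (nat_lit 516151) (nat_lit 9) (.e (nat_lit 426286) (nat_lit 10) (.e (nat_lit 434203) (nat_lit 18) (.e (nat_lit 4200) (nat_lit 251) (.e (nat_lit 1127) (nat_lit 83) .nil)))))))) (.g (nat_lit 4) .nil .nil))) 
(.lf (nat_lit 135732) (.g (nat_lit 3794) (.e (nat_lit 16473) (nat_lit 14) (.e (nat_lit 491526) (nat_lit 0) (.e (nat_lit 1788) (nat_lit 119) (.e (nat_lit 516165) (nat_lit 12) (.e (nat_lit 450588) (nat_lit 10) (.e (nat_lit 581376) (nat_lit 11) .nil)))))) (.g (nat_lit 5) .nil .nil))))) (.nd (nat_lit 4) (.nd (nat_lit 5) 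
(.lf (nat_lit 135692) (.g (nat_lit 4724) (.e (nat_lit 16473) (nat_lit 14) (.e (nat_lit 491526) (nat_lit 0) (.e (nat_lit 1788) (nat_lit 119) (.e (nat_lit 516151) (nat_lit 9) (.e (nat_lit 426286) (nat_lit 10) (.e (nat_lit 434203) (nat_lit 18) (.e (nat_lit 4181) (nat_lit 251) (.e (nat_lit 1131) (nat_lit 83) .nil)))))))) (.g (nat_lit 5) .nil .nil))) 
(.lf (nat_lit 135724) (.g (nat_lit 3753) (.e (nat_lit 16473) (nat_lit 14) (.e (nat_lit 491526) (nat_lit 0) (.e (nat_lit 1788) (nat_lit 119) (.e (nat_lit 516163) (nat_lit 11) (.e (nat_lit 442430) (nat_lit 24) (.e (nat_lit 229522) (nat_lit 128) (.e (nat_lit 1129) (nat_lit 83) .nil))))))) (.g (nat_lit 4) .nil .nil)))) (.nd (nat_lit 5) 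
(.lf (nat_lit 135708) (.g (nat_lit 4073) (.e (nat_lit 16473) (nat_lit 14) (.e (nat_lit 491526) (nat_lit 0) (.e (nat_lit 1788) (nat_lit 119) (.e (nat_lit 516151) (nat_lit 9) (.e (nat_lit 426286) (nat_lit 10) (.e (nat_lit 434203) (nat_lit 18) (.e (nat_lit 4205) (nat_lit 251) (.e (nat_lit 1127) (nat_lit 83) .nil)))))))) (.g (nat_lit 5) .nil .nil))) 
(.lf (nat_lit 135740) (.g (nat_lit 4230) (.e (nat_lit 16473) (nat_lit 14) (.e (nat_lit 491526) (nat_lit 0) (.e (nat_lit 1788) (nat_lit 119) (.e (nat_lit 516166) (nat_lit 12) (.e (nat_lit 450562) (nat_lit 0) (.e (nat_lit 4168) (nat_lit 251) (.e (nat_lit 1130) (nat_lit 83) .nil))))))) (.g (nat_lit 5) .nil .nil))))))) (.nd (nat_lit 2) (.nd (nat_lit 3) (.nd (nat_lit 4) (.nd (nat_lit 5) 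
(.lf (nat_lit 135682) (.g (nat_lit 4189) (.e (nat_lit 16473) (nat_lit 14) (.e (nat_lit 491526) (nat_lit 0) (.e (nat_lit 1788) (nat_lit 119) (.e (nat_lit 516151) (nat_lit 9) (.e (nat_lit 426286) (nat_lit 10) (.e (nat_lit 434203) (nat_lit 18) (.e (nat_lit 4168) (nat_lit 251) (.e (nat_lit 1127) (nat_lit 83) .nil)))))))) (.g (nat_lit 5) .nil .nil))) 
(.lf (nat_lit 135714) (.g (nat_lit 4527) (.e (nat_lit 16473) (nat_lit 14) (.e (nat_lit 491526) (nat_lit 0) (.e (nat_lit 1788) (nat_lit 119) (.e (nat_lit 516151) (nat_lit 9) (.e (nat_lit 426286) (nat_lit 10) (.e (nat_lit 434208) (nat_lit 18) (.e (nat_lit 4175) (nat_lit 251) (.e (nat_lit 1132) (nat_lit 83) .nil)))))))) (.g (nat_lit 5) .nil .nil)))) (.nd (nat_lit 5) 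
(.lf (nat_lit 135698) (.g (nat_lit 3473) (.e (nat_lit 16473) (nat_lit 14) (.e (nat_lit 491526) (nat_lit 0) (.e (nat_lit 1788) (nat_lit 119) (.e (nat_lit 516151) (nat_lit 9) (.e (nat_lit 426286) (nat_lit 10) (.e (nat_lit 434203) (nat_lit 18) (.e (nat_lit 4195) (nat_lit 251) (.e (nat_lit 1127) (nat_lit 83) .nil)))))))) (.g (nat_lit 4) .nil .nil))) 
(.lf (nat_lit 135730) (.g (nat_lit 3402) (.e (nat_lit 16473) (nat_lit 14) (.e (nat_lit 491526) (nat_lit 0) (.e (nat_lit 1788) (nat_lit 119) (.e (nat_lit 516165) (nat_lit 12) (.e (nat_lit 458496) (nat_lit 0) (.e (nat_lit 4194) (nat_lit 251) (.e (nat_lit 1127) (nat_lit 83) .nil))))))) (.g (nat_lit 4) .nil .nil))))) (.nd (nat_lit 4) (.nd (nat_lit 5) 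
(.lf (nat_lit 135690) (.g (nat_lit 3627) (.e (nat_lit 16473) (nat_lit 14) (.e (nat_lit 491526) (nat_lit 0) (.e (nat_lit 1788) (nat_lit 119) (.e (nat_lit 516151) (nat_lit 9) (.e (nat_lit 426286) (nat_lit 10) (.e (nat_lit 434203) (nat_lit 18) (.e (nat_lit 4178) (nat_lit 251) (.e (nat_lit 1129) (nat_lit 83) .nil)))))))) (.g (nat_lit 4) .nil .nil))) 
(.lf (nat_lit 135722) (.g (nat_lit 3195) (.e (nat_lit 16473) (nat_lit 14) (.e (nat_lit 491526) (nat_lit 0) (.e (nat_lit 1788) (nat_lit 119) (.e (nat_lit 516163) (nat_lit 11) (.e (nat_lit 442430) (nat_lit 24) (.e (nat_lit 229522) (nat_lit 128) (.e (nat_lit 1126) (nat_lit 83) .nil))))))) (.g (nat_lit 4) .nil .nil)))) (.nd (nat_lit 5) 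
(.lf (nat_lit 135706) (.g (nat_lit 3866) (.e (nat_lit 16473) (nat_lit 14) (.e (nat_lit 491526) (nat_lit 0) (.e (nat_lit 1788) (nat_lit 119) (.e (nat_lit 516151) (nat_lit 9) (.e (nat_lit 426286) (nat_lit 10) (.e (nat_lit 434203) (nat_lit 18) (.e (nat_lit 4205) (nat_lit 251) (.e (nat_lit 1122) (nat_lit 83) .nil)))))))) (.g (nat_lit 5) .nil .nil))) 
(.lf (nat_lit 135738) (.g (nat_lit 4480) (.e (nat_lit 16473) (nat_lit 14) (.e (nat_lit 491526) (nat_lit 0) (.e (nat_lit 1788) (nat_lit 119) (.e (nat_lit 516166) (nat_lit 12) (.e (nat_lit 450562) (nat_lit 0) (.e (nat_lit 4168) (nat_lit 251) (.e (nat_lit 1127) (nat_lit 83) .nil))))))) (.g (nat_lit 5) .nil .nil)))))) (.nd (nat_lit 3) (.nd (nat_lit 4) (.nd (nat_lit 5) 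
(.lf (nat_lit 135686) (.g (nat_lit 4328) (.e (nat_lit 16473) (nat_lit 14) (.e (nat_lit 491526) (nat_lit 0) (.e (nat_lit 1788) (nat_lit 119) (.e (nat_lit 516151) (nat_lit 9) (.e (nat_lit 426286) (nat_lit 10) (.e (nat_lit 434203) (nat_lit 18) (.e (nat_lit 4175) (nat_lit 251) (.e (nat_lit 1132) (nat_lit 83) .nil)))))))) (.g (nat_lit 5) .nil .nil))) 
(.lf (nat_lit 135718) (.g (nat_lit 3855) (.e (nat_lit 16473) (nat_lit 14) (.e (nat_lit 491526) (nat_lit 0) (.e (nat_lit 1788) (nat_lit 119) (.e (nat_lit 516151) (nat_lit 9) (.e (nat_lit 426286) (nat_lit 10) (.e (nat_lit 434248) (nat_lit 28) (.e (nat_lit 581376) (nat_lit 11) .nil))))))) (.g (nat_lit 6) .nil .nil)))) (.nd (nat_lit 5) 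
(.lf (nat_lit 135702) (.g (nat_lit 3446) (.e (nat_lit 16473) (nat_lit 14) (.e (nat_lit 491526) (nat_lit 0) (.e (nat_lit 1788) (nat_lit 119) (.e (nat_lit 516151) (nat_lit 9) (.e (nat_lit 426286) (nat_lit 10) (.e (nat_lit 434203) (nat_lit 18) (.e (nat_lit 4202) (nat_lit 251) (.e (nat_lit 1127) (nat_lit 83) .nil)))))))) (.g (nat_lit 4) .nil .nil))) 
(.lf (nat_lit 135734) (.g (nat_lit 3390) (.e (nat_lit 16473) (nat_lit 14) (.e (nat_lit 491526) (nat_lit 0) (.e (nat_lit 1788) (nat_lit 119) (.e (nat_lit 516166) (nat_lit 12) (.e (nat_lit 450562) (nat_lit 0) (.e (nat_lit 4168) (nat_lit 251) (.e (nat_lit 1122) (nat_lit 83) .nil))))))) (.g (nat_lit 4) .nil .nil))))) (.nd (nat_lit 4) (.nd (nat_lit 5) 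
(.lf (nat_lit 135694) (.g (nat_lit 3811) (.e (nat_lit 16473) (nat_lit 14) (.e (nat_lit 491526) (nat_lit 0) (.e (nat_lit 1788) (nat_lit 119) (.e (nat_lit 516151) (nat_lit 9) (.e (nat_lit 426286) (nat_lit 10) (.e (nat_lit 434203) (nat_lit 18) (.e (nat_lit 4185) (nat_lit 251) (.e (nat_lit 1122) (nat_lit 83) .nil)))))))) (.g (nat_lit 5) .nil .nil))) 
(.lf (nat_lit 135726) (.g (nat_lit 4187) (.e (nat_lit 16473) (nat_lit 14) (.e (nat_lit 491526) (nat_lit 0) (.e (nat_lit 1788) (nat_lit 119) (.e (nat_lit 516163) (nat_lit 11) (.e (nat_lit 442430) (nat_lit 24) (.e (nat_lit 229523) (nat_lit 128) (.e (nat_lit 1127) (nat_lit 83) .nil))))))) (.g (nat_lit 5) .nil .nil)))) (.nd (nat_lit 5) 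
(.lf (nat_lit 135710) (.g (nat_lit 3482) (.e (nat_lit 16473) (nat_lit 14) (.e (nat_lit 491526) (nat_lit 0) (.e (nat_lit 1788) (nat_lit 119) (.e (nat_lit 516151) (nat_lit 9) (.e (nat_lit 426286) (nat_lit 10) (.e (nat_lit 434203) (nat_lit 18) (.e (nat_lit 4210) (nat_lit 251) (.e (nat_lit 1127) (nat_lit 83) .nil)))))))) (.g (nat_lit 4) .nil .nil))) 
(.lf (nat_lit 135742) (.g (nat_lit 3469) (.e (nat_lit 16473) (nat_lit 14) (.e (nat_lit 491526) (nat_lit 0) (.e (nat_lit 1788) (nat_lit 119) (.e (nat_lit 516166) (nat_lit 12) (.e (nat_lit 450562) (nat_lit 0) (.e (nat_lit 4171) (nat_lit 251) (.e (nat_lit 1131) (nat_lit 83) .nil))))))) (.g (nat_lit 4) .nil .nil)))))))) 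
(.nd (nat_lit 1) (.nd (nat_lit 2) (.nd (nat_lit 3) (.nd (nat_lit 4) (.nd (nat_lit 5) 
(.lf (nat_lit 135681) (.g (nat_lit 3725) (.e (nat_lit 16473) (nat_lit 14) (.e (nat_lit 491526) (nat_lit 0) (.e (nat_lit 1788) (nat_lit 119) (.e (nat_lit 516151) (nat_lit 9) (.e (nat_lit 426286) (nat_lit 10) (.e (nat_lit 434203) (nat_lit 18) (.e (nat_lit 4168) (nat_lit 251) (.e (nat_lit 1126) (nat_lit 83) .nil)))))))) (.g (nat_lit 5) .nil .nil))) 
(.lf (nat_lit 135713) (.g (nat_lit 3214) (.e (nat_lit 16473) (nat_lit 14) (.e (nat_lit 491526) (nat_lit 0) (.e (nat_lit 1788) (nat_lit 119) (.e (nat_lit 516151) (nat_lit 9) (.e (nat_lit 426286) (nat_lit 10) (.e (nat_lit 434208) (nat_lit 18) (.e (nat_lit 4168) (nat_lit 251) (.e (nat_lit 1130) (nat_lit 83) .nil)))))))) (.g (nat_lit 4) .nil .nil)))) (.nd (nat_lit 5) 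
(.lf (nat_lit 135697) (.g (nat_lit 3790) (.e (nat_lit 16473) (nat_lit 14) (.e (nat_lit 491526) (nat_lit 0) (.e (nat_lit 1788) (nat_lit 119) (.e (nat_lit 516151) (nat_lit 9) (.e (nat_lit 426286) (nat_lit 10) (.e (nat_lit 434203) (nat_lit 18) (.e (nat_lit 4193) (nat_lit 251) (.e (nat_lit 1127) (nat_lit 83) .nil)))))))) (.g (nat_lit 5) .nil .nil))) 
(.lf (nat_lit 135729) (.g (nat_lit 3014) (.e (nat_lit 16473) (nat_lit 14) (.e (nat_lit 491526) (nat_lit 0) (.e (nat_lit 1788) (nat_lit 119) (.e (nat_lit 516165) (nat_lit 12) (.e (nat_lit 458496) (nat_lit 0) (.e (nat_lit 4194) (nat_lit 251) (.e (nat_lit 1126) (nat_lit 83) .nil))))))) (.g (nat_lit 4) .nil .nil))))) (.nd (nat_lit 4) (.nd (nat_lit 5) 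
(.lf (nat_lit 135689) (.g (nat_lit 3858) (.e (nat_lit 16473) (nat_lit 14) (.e (nat_lit 491526) (nat_lit 0) (.e (nat_lit 1788) (nat_lit 119) (.e (nat_lit 516151) (nat_lit 9) (.e (nat_lit 426286) (nat_lit 10) (.e (nat_lit 434203) (nat_lit 18) (.e (nat_lit 4177) (nat_lit 251) (.e (nat_lit 1130) (nat_lit 83) .nil)))))))) (.g (nat_lit 5) .nil .nil))) 
(.lf (nat_lit 135721) (.g (nat_lit 3435) (.e (nat_lit 16473) (nat_lit 14) (.e (nat_lit 491526) (nat_lit 0) (.e (nat_lit 1788) (nat_lit 119) (.e (nat_lit 516163) (nat_lit 11) (.e (nat_lit 442421) (nat_lit 21) (.e (nat_lit 164122) (nat_lit 128) (.e (nat_lit 1127) (nat_lit 83) .nil))))))) (.g (nat_lit 4) .nil .nil)))) (.nd (nat_lit 5) 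
(.lf (nat_lit 135705) (.g (nat_lit 3942) (.e (nat_lit 16473) (nat_lit 14) (.e (nat_lit 491526) (nat_lit 0) (.e (nat_lit 1788) (nat_lit 119) (.e (nat_lit 516151) (nat_lit 9) (.e (nat_lit 426286) (nat_lit 10) (.e (nat_lit 434203) (nat_lit 18) (.e (nat_lit 4203) (nat_lit 251) (.e (nat_lit 1127) (nat_lit 83) .nil)))))))) (.g (nat_lit 5) .nil .nil))) 
(.lf (nat_lit 135737) (.g (nat_lit 4016) (.e (nat_lit 16473) (nat_lit 14) (.e (nat_lit 491526) (nat_lit 0) (.e (nat_lit 1788) (nat_lit 119) (.e (nat_lit 516166) (nat_lit 12) (.e (nat_lit 450562) (nat_lit 0) (.e (nat_lit 4168) (nat_lit 251) (.e (nat_lit 1126) (nat_lit 83) .nil))))))) (.g (nat_lit 5) .nil .nil)))))) (.nd (nat_lit 3) (.nd (nat_lit 4) (.nd (nat_lit 5) 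
(.lf (nat_lit 135685) (.g (nat_lit 3249) (.e (nat_lit 16473) (nat_lit 14) (.e (nat_lit 491526) (nat_lit 0) (.e (nat_lit 1788) (nat_lit 119) (.e (nat_lit 516151) (nat_lit 9) (.e (nat_lit 426286) (nat_lit 10) (.e (nat_lit 434203) (nat_lit 18) (.e (nat_lit 4174) (nat_lit 251) (.e (nat_lit 1130) (nat_lit 83) .nil)))))))) (.g (nat_lit 4) .nil .nil))) 
(.lf (nat_lit 135717) (.g (nat_lit 3800) (.e (nat_lit 16473) (nat_lit 14) (.e (nat_lit 491526) (nat_lit 0) (.e (nat_lit 1788) (nat_lit 119) (.e (nat_lit 516151) (nat_lit 9) (.e (nat_lit 426286) (nat_lit 10) (.e (nat_lit 434245) (nat_lit 28) (.e (nat_lit 581376) (nat_lit 11) .nil))))))) (.g (nat_lit 6) .nil .nil)))) (.nd (nat_lit 5) 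
(.lf (nat_lit 135701) (.g (nat_lit 3042) (.e (nat_lit 16473) (nat_lit 14) (.e (nat_lit 491526) (nat_lit 0) (.e (nat_lit 1788) (nat_lit 119) (.e (nat_lit 516151) (nat_lit 9) (.e (nat_lit 426286) (nat_lit 10) (.e (nat_lit 434203) (nat_lit 18) (.e (nat_lit 4202) (nat_lit 251) (.e (nat_lit 1122) (nat_lit 83) .nil)))))))) (.g (nat_lit 4) .nil .nil))) 
(.lf (nat_lit 135733) (.g (nat_lit 2920) (.e (nat_lit 16473) (nat_lit 14) (.e (nat_lit 491526) (nat_lit 0) (.e (nat_lit 1788) (nat_lit 119) (.e (nat_lit 516166) (nat_lit 12) (.e (nat_lit 450560) (nat_lit 0) (.e (nat_lit 4217) (nat_lit 251) (.e (nat_lit 1127) (nat_lit 83) .nil))))))) (.g (nat_lit 4) .nil .nil))))) (.nd (nat_lit 4) (.nd (nat_lit 5) 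
(.lf (nat_lit 135693) (.g (nat_lit 3781) (.e (nat_lit 16473) (nat_lit 14) (.e (nat_lit 491526) (nat_lit 0) (.e (nat_lit 1788) (nat_lit 119) (.e (nat_lit 516151) (nat_lit 9) (.e (nat_lit 426286) (nat_lit 10) (.e (nat_lit 434203) (nat_lit 18) (.e (nat_lit 4183) (nat_lit 251) (.e (nat_lit 1131) (nat_lit 83) .nil)))))))) (.g (nat_lit 4) .nil .nil))) 
(.lf (nat_lit 135725) (.g (nat_lit 3194) (.e (nat_lit 16473) (nat_lit 14) (.e (nat_lit 491526) (nat_lit 0) (.e (nat_lit 1788) (nat_lit 119) (.e (nat_lit 516163) (nat_lit 11) (.e (nat_lit 442430) (nat_lit 24) (.e (nat_lit 229523) (nat_lit 128) (.e (nat_lit 1126) (nat_lit 83) .nil))))))) (.g (nat_lit 4) .nil .nil)))) (.nd (nat_lit 5) 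
(.lf (nat_lit 135709) (.g (nat_lit 3024) (.e (nat_lit 16473) (nat_lit 14) (.e (nat_lit 491526) (nat_lit 0) (.e (nat_lit 1788) (nat_lit 119) (.e (nat_lit 516151) (nat_lit 9) (.e (nat_lit 426286) (nat_lit 10) (.e (nat_lit 434203) (nat_lit 18) (.e (nat_lit 4208) (nat_lit 251) (.e (nat_lit 1122) (nat_lit 83) .nil)))))))) (.g (nat_lit 4) .nil .nil))) 
(.lf (nat_lit 135741) (.g (nat_lit 4152) (.e (nat_lit 16473) (nat_lit 14) (.e (nat_lit 491526) (nat_lit 0) (.e (nat_lit 1788) (nat_lit 119) (.e (nat_lit 516166) (nat_lit 12) (.e (nat_lit 450562) (nat_lit 0) (.e (nat_lit 4170) (nat_lit 251) (.e (nat_lit 1121) (nat_lit 83) .nil))))))) (.g (nat_lit 4) .nil .nil))))))) (.nd (nat_lit 2) (.nd (nat_lit 3) (.nd (nat_lit 4) (.nd (nat_lit 5) 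
(.lf (nat_lit 135683) (.g (nat_lit 3687) (.e (nat_lit 16473) (nat_lit 14) (.e (nat_lit 491526) (nat_lit 0) (.e (nat_lit 1788) (nat_lit 119) (.e (nat_lit 516151) (nat_lit 9) (.e (nat_lit 426286) (nat_lit 10) (.e (nat_lit 434203) (nat_lit 18) (.e (nat_lit 4168) (nat_lit 251) (.e (nat_lit 1129) (nat_lit 83) .nil)))))))) (.g (nat_lit 4) .nil .nil))) 
(.lf (nat_lit 135715) (.g (nat_lit 3513) (.e (nat_lit 16473) (nat_lit 14) (.e (nat_lit 491526) (nat_lit 0) (.e (nat_lit 1788) (nat_lit 119) (.e (nat_lit 516151) (nat_lit 9) (.e (nat_lit 426286) (nat_lit 10) (.e (nat_lit 434208) (nat_lit 18) (.e (nat_lit 4181) (nat_lit 251) (.e (nat_lit 1131) (nat_lit 83) .nil)))))))) (.g (nat_lit 4) .nil .nil)))) (.nd (nat_lit 5) 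
(.lf (nat_lit 135699) (.g (nat_lit 3144) (.e (nat_lit 16473) (nat_lit 14) (.e (nat_lit 491526) (nat_lit 0) (.e (nat_lit 1788) (nat_lit 119) (.e (nat_lit 516151) (nat_lit 9) (.e (nat_lit 426286) (nat_lit 10) (.e (nat_lit 434203) (nat_lit 18) (.e (nat_lit 4199) (nat_lit 251) (.e (nat_lit 1122) (nat_lit 83) .nil)))))))) (.g (nat_lit 4) .nil .nil))) 
(.lf (nat_lit 135731) (.g (nat_lit 3186) (.e (nat_lit 16473) (nat_lit 14) (.e (nat_lit 491526) (nat_lit 0) (.e (nat_lit 1788) (nat_lit 119) (.e (nat_lit 516165) (nat_lit 12) (.e (nat_lit 450586) (nat_lit 10) (.e (nat_lit 581376) (nat_lit 11) .nil)))))) (.g (nat_lit 5) .nil .nil))))) (.nd (nat_lit 4) (.nd (nat_lit 5) 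
(.lf (nat_lit 135691) (.g (nat_lit 4001) (.e (nat_lit 16473) (nat_lit 14) (.e (nat_lit 491526) (nat_lit 0) (.e (nat_lit 1788) (nat_lit 119) (.e (nat_lit 516151) (nat_lit 9) (.e (nat_lit 426286) (nat_lit 10) (.e (nat_lit 434203) (nat_lit 18) (.e (nat_lit 4178) (nat_lit 251) (.e (nat_lit 1130) (nat_lit 83) .nil)))))))) (.g (nat_lit 5) .nil .nil))) 
(.lf (nat_lit 135723) (.g (nat_lit 4304) (.e (nat_lit 16473) (nat_lit 14) (.e (nat_lit 491526) (nat_lit 0) (.e (nat_lit 1788) (nat_lit 119) (.e (nat_lit 516163) (nat_lit 11) (.e (nat_lit 442430) (nat_lit 24) (.e (nat_lit 229522) (nat_lit 128) (.e (nat_lit 1127) (nat_lit 83) .nil))))))) (.g (nat_lit 5) .nil .nil)))) (.nd (nat_lit 5) 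
(.lf (nat_lit 135707) (.g (nat_lit 3816) (.e (nat_lit 16473) (nat_lit 14) (.e (nat_lit 491526) (nat_lit 0) (.e (nat_lit 1788) (nat_lit 119) (.e (nat_lit 516151) (nat_lit 9) (.e (nat_lit 426286) (nat_lit 10) (.e (nat_lit 434203) (nat_lit 18) (.e (nat_lit 4205) (nat_lit 251) (.e (nat_lit 1125) (nat_lit 83) .nil)))))))) (.g (nat_lit 4) .nil .nil))) 
(.lf (nat_lit 135739) (.g (nat_lit 3978) (.e (nat_lit 16473) (nat_lit 14) (.e (nat_lit 491526) (nat_lit 0) (.e (nat_lit 1788) (nat_lit 119) (.e (nat_lit 516166) (nat_lit 12) (.e (nat_lit 450562) (nat_lit 0) (.e (nat_lit 4168) (nat_lit 251) (.e (nat_lit 1129) (nat_lit 83) .nil))))))) (.g (nat_lit 4) .nil .nil)))))) (.nd (nat_lit 3) (.nd (nat_lit 4) (.nd (nat_lit 5) 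
(.lf (nat_lit 135687) (.g (nat_lit 3675) (.e (nat_lit 16473) (nat_lit 14) (.e (nat_lit 491526) (nat_lit 0) (.e (nat_lit 1788) (nat_lit 119) (.e (nat_lit 516151) (nat_lit 9) (.e (nat_lit 426286) (nat_lit 10) (.e (nat_lit 434203) (nat_lit 18) (.e (nat_lit 4176) (nat_lit 251) (.e (nat_lit 1130) (nat_lit 83) .nil)))))))) (.g (nat_lit 4) .nil .nil))) 
(.lf (nat_lit 135719) (.g (nat_lit 3198) (.e (nat_lit 16473) (nat_lit 14) (.e (nat_lit 491526) (nat_lit 0) (.e (nat_lit 1788) (nat_lit 119) (.e (nat_lit 516151) (nat_lit 9) (.e (nat_lit 426286) (nat_lit 10) (.e (nat_lit 434250) (nat_lit 29) (.e (nat_lit 581665) (nat_lit 11) .nil))))))) (.g (nat_lit 4) .nil .nil)))) (.nd (nat_lit 5) 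
(.lf (nat_lit 135703) (.g (nat_lit 2970) (.e (nat_lit 16473) (nat_lit 14) (.e (nat_lit 491526) (nat_lit 0) (.e (nat_lit 1788) (nat_lit 119) (.e (nat_lit 516151) (nat_lit 9) (.e (nat_lit 426286) (nat_lit 10) (.e (nat_lit 434203) (nat_lit 18) (.e (nat_lit 4203) (nat_lit 251) (.e (nat_lit 1122) (nat_lit 83) .nil)))))))) (.g (nat_lit 4) .nil .nil))) 
(.lf (nat_lit 135735) (.g (nat_lit 3426) (.e (nat_lit 16473) (nat_lit 14) (.e (nat_lit 491526) (nat_lit 0) (.e (nat_lit 1788) (nat_lit 119) (.e (nat_lit 516166) (nat_lit 12) (.e (nat_lit 450562) (nat_lit 0) (.e (nat_lit 4168) (nat_lit 251) (.e (nat_lit 1123) (nat_lit 83) .nil))))))) (.g (nat_lit 4) .nil .nil))))) (.nd (nat_lit 4) (.nd (nat_lit 5) 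
(.lf (nat_lit 135695) (.g (nat_lit 3578) (.e (nat_lit 16473) (nat_lit 14) (.e (nat_lit 491526) (nat_lit 0) (.e (nat_lit 1788) (nat_lit 119) (.e (nat_lit 516151) (nat_lit 9) (.e (nat_lit 426286) (nat_lit 10) (.e (nat_lit 434203) (nat_lit 18) (.e (nat_lit 4185) (nat_lit 251) (.e (nat_lit 1123) (nat_lit 83) .nil)))))))) (.g (nat_lit 4) .nil .nil))) 
(.lf (nat_lit 135727) (.g (nat_lit 3029) (.e (nat_lit 16473) (nat_lit 14) (.e (nat_lit 491526) (nat_lit 0) (.e (nat_lit 1788) (nat_lit 119) (.e (nat_lit 516165) (nat_lit 12) (.e (nat_lit 450569) (nat_lit 0) (.e (nat_lit 4215) (nat_lit 251) (.e (nat_lit 1122) (nat_lit 83) .nil))))))) (.g (nat_lit 4) .nil .nil)))) (.nd (nat_lit 5) 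
(.lf (nat_lit 135711) (.g (nat_lit 3000) (.e (nat_lit 16473) (nat_lit 14) (.e (nat_lit 491526) (nat_lit 0) (.e (nat_lit 1788) (nat_lit 119) (.e (nat_lit 516151) (nat_lit 9) (.e (nat_lit 426286) (nat_lit 10) (.e (nat_lit 434208) (nat_lit 18) (.e (nat_lit 4168) (nat_lit 251) (.e (nat_lit 1126) (nat_lit 83) .nil)))))))) (.g (nat_lit 4) .nil .nil))) 
(.lf (nat_lit 135743) (.g (nat_lit 4986) (.e (nat_lit 16473) (nat_lit 14) (.e (nat_lit 491526) (nat_lit 0) (.e (nat_lit 1788) (nat_lit 119) (.e (nat_lit 516166) (nat_lit 12) (.e (nat_lit 450562) (nat_lit 0) (.e (nat_lit 4173) (nat_lit 251) (.e (nat_lit 1131) (nat_lit 83) .nil))))))) (.g (nat_lit 5) .nil .nil)))))))))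

noncomputable def tv1806 : DT := (.nd (nat_lit 0) (.nd (nat_lit 1) (.nd (nat_lit 2) (.nd (nat_lit 3) (.nd (nat_lit 4) (.nd (nat_lit 5) 
(.lf (nat_lit 135744) (.g (nat_lit 3935) (.e (nat_lit 16473) (nat_lit 14) (.e (nat_lit 491526) (nat_lit 0) (.e (nat_lit 1788) (nat_lit 119) (.e (nat_lit 516166) (nat_lit 12) (.e (nat_lit 450562) (nat_lit 0) (.e (nat_lit 4174) (nat_lit 251) (.e (nat_lit 1123) (nat_lit 83) .nil))))))) (.g (nat_lit 4) .nil .nil))) 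
(.lf (nat_lit 135776) (.g (nat_lit 4454) (.e (nat_lit 16473) (nat_lit 14) (.e (nat_lit 491526) (nat_lit 0) (.e (nat_lit 1788) (nat_lit 119) (.e (nat_lit 516166) (nat_lit 12) (.e (nat_lit 450562) (nat_lit 0) (.e (nat_lit 4244) (nat_lit 251) (.e (nat_lit 1122) (nat_lit 83) .nil))))))) (.g (nat_lit 5) .nil .nil)))) (.nd (nat_lit 5) 
(.lf (nat_lit 135760) (.g (nat_lit 4220) (.e (nat_lit 16473) (nat_lit 14) (.e (nat_lit 491526) (nat_lit 0) (.e (nat_lit 1788) (nat_lit 119) (.e (nat_lit 516166) (nat_lit 12) (.e (nat_lit 450562) (nat_lit 0) (.e (nat_lit 4186) (nat_lit 251) (.e (nat_lit 1122) (nat_lit 83) .nil))))))) (.g (nat_lit 5) .nil .nil))) 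
(.lf (nat_lit 135792) (.g (nat_lit 4287) (.e (nat_lit 16473) (nat_lit 14) (.e (nat_lit 491526) (nat_lit 0) (.e (nat_lit 1788) (nat_lit 119) (.e (nat_lit 516166) (nat_lit 12) (.e (nat_lit 450563) (nat_lit 0) (.e (nat_lit 4176) (nat_lit 251) (.e (nat_lit 1130) (nat_lit 83) .nil))))))) (.g (nat_lit 5) .nil .nil))))) (.nd (nat_lit 4) (.nd (nat_lit 5) 
(.lf (nat_lit 135752) (.g (nat_lit 4157) (.e (nat_lit 16473) (nat_lit 14) (.e (nat_lit 491526) (nat_lit 0) (.e (nat_lit 1788) (nat_lit 119) (.e (nat_lit 516166) (nat_lit 12) (.e (nat_lit 450562) (nat_lit 0) (.e (nat_lit 4177) (nat_lit 251) (.e (nat_lit 1124) (nat_lit 83) .nil))))))) (.g (nat_lit 4) .nil .nil))) 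
(.lf (nat_lit 135784) (.g (nat_lit 3614) (.e (nat_lit 16473) (nat_lit 14) (.e (nat_lit 491526) (nat_lit 0) (.e (nat_lit 1788) (nat_lit 119) (.e (nat_lit 516166) (nat_lit 12) (.e (nat_lit 450563) (nat_lit 0) (.e (nat_lit 4174) (nat_lit 251) (.e (nat_lit 1122) (nat_lit 83) .nil))))))) (.g (nat_lit 4) .nil .nil)))) (.nd (nat_lit 5) 
(.lf (nat_lit 135768) (.g (nat_lit 3516) (.e (nat_lit 16473) (nat_lit 14) (.e (nat_lit 491526) (nat_lit 0) (.e (nat_lit 1788) (nat_lit 119) (.e (nat_lit 516166) (nat_lit 12) (.e (nat_lit 450562) (nat_lit 0) (.e (nat_lit 4202) (nat_lit 251) (.e (nat_lit 1127) (nat_lit 83) .nil))))))) (.g (nat_lit 4) .nil .nil))) 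
(.lf (nat_lit 135800) (.g (nat_lit 4557) (.e (nat_lit 16473) (nat_lit 14) (.e (nat_lit 491526) (nat_lit 0) (.e (nat_lit 1788) (nat_lit 119) (.e (nat_lit 516166) (nat_lit 12) (.e (nat_lit 450563) (nat_lit 0) (.e (nat_lit 4178) (nat_lit 251) (.e (nat_lit 1130) (nat_lit 83) .nil))))))) (.g (nat_lit 5) .nil .nil)))))) (.nd (nat_lit 3) (.nd (nat_lit 4) (.nd (nat_lit 5) 
(.lf (nat_lit 135748) (.g (nat_lit 3742) (.e (nat_lit 16473) (nat_lit 14) (.e (nat_lit 491526) (nat_lit 0) (.e (nat_lit 1788) (nat_lit 119) (.e (nat_lit 516166) (nat_lit 12) (.e (nat_lit 450562) (nat_lit 0) (.e (nat_lit 4176) (nat_lit 251) (.e (nat_lit 1129) (nat_lit 83) .nil))))))) (.g (nat_lit 4) .nil .nil))) 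
(.lf (nat_lit 135780) (.g (nat_lit 4395) (.e (nat_lit 16473) (nat_lit 14) (.e (nat_lit 491526) (nat_lit 0) (.e (nat_lit 1788) (nat_lit 119) (.e (nat_lit 516166) (nat_lit 12) (.e (nat_lit 450563) (nat_lit 0) (.e (nat_lit 4168) (nat_lit 251) (.e (nat_lit 1126) (nat_lit 83) .nil))))))) (.g (nat_lit 5) .nil .nil)))) (.nd (nat_lit 5) 
(.lf (nat_lit 135764) (.g (nat_lit 3753) (.e (nat_lit 16473) (nat_lit 14) (.e (nat_lit 491526) (nat_lit 0) (.e (nat_lit 1788) (nat_lit 119) (.e (nat_lit 516166) (nat_lit 12) (.e (nat_lit 450562) (nat_lit 0) (.e (nat_lit 4197) (nat_lit 251) (.e (nat_lit 1122) (nat_lit 83) .nil))))))) (.g (nat_lit 4) .nil .nil))) 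
(.lf (nat_lit 135796) (.g (nat_lit 4244) (.e (nat_lit 16473) (nat_lit 14) (.e (nat_lit 491526) (nat_lit 0) (.e (nat_lit 1788) (nat_lit 119) (.e (nat_lit 516166) (nat_lit 12) (.e (nat_lit 450563) (nat_lit 0) (.e (nat_lit 4177) (nat_lit 251) (.e (nat_lit 1130) (nat_lit 83) .nil))))))) (.g (nat_lit 5) .nil .nil))))) (.nd (nat_lit 4) (.nd (nat_lit 5) 
(.lf (nat_lit 135756) (.g (nat_lit 3925) (.e (nat_lit 16473) (nat_lit 14) (.e (nat_lit 491526) (nat_lit 0) (.e (nat_lit 1788) (nat_lit 119) (.e (nat_lit 516166) (nat_lit 12) (.e (nat_lit 450562) (nat_lit 0) (.e (nat_lit 4178) (nat_lit 251) (.e (nat_lit 1129) (nat_lit 83) .nil))))))) (.g (nat_lit 4) .nil .nil))) 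
(.lf (nat_lit 135788) (.g (nat_lit 3578) (.e (nat_lit 16473) (nat_lit 14) (.e (nat_lit 491526) (nat_lit 0) (.e (nat_lit 1788) (nat_lit 119) (.e (nat_lit 516166) (nat_lit 12) (.e (nat_lit 450563) (nat_lit 0) (.e (nat_lit 4175) (nat_lit 251) (.e (nat_lit 1121) (nat_lit 83) .nil))))))) (.g (nat_lit 4) .nil .nil)))) (.nd (nat_lit 5) 
(.lf (nat_lit 135772) (.g (nat_lit 3282) (.e (nat_lit 16473) (nat_lit 14) (.e (nat_lit 491526) (nat_lit 0) (.e (nat_lit 1788) (nat_lit 119) (.e (nat_lit 516166) (nat_lit 12) (.e (nat_lit 450562) (nat_lit 0) (.e (nat_lit 4212) (nat_lit 251) (.e (nat_lit 1122) (nat_lit 83) .nil))))))) (.g (nat_lit 4) .nil .nil))) 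
(.lf (nat_lit 135804) (.g (nat_lit 3705) (.e (nat_lit 16473) (nat_lit 14) (.e (nat_lit 491526) (nat_lit 0) (.e (nat_lit 1788) (nat_lit 119) (.e (nat_lit 516166) (nat_lit 12) (.e (nat_lit 450563) (nat_lit 0) (.e (nat_lit 4196) (nat_lit 251) (.e (nat_lit 1122) (nat_lit 83) .nil))))))) (.g (nat_lit 4) .nil .nil))))))) (.nd (nat_lit 2) (.nd (nat_lit 3) (.nd (nat_lit 4) (.nd (nat_lit 5) 
(.lf (nat_lit 135746) (.g (nat_lit 4446) (.e (nat_lit 16473) (nat_lit 14) (.e (nat_lit 491526) (nat_lit 0) (.e (nat_lit 1788) (nat_lit 119) (.e (nat_lit 516166) (nat_lit 12) (.e (nat_lit 450562) (nat_lit 0) (.e (nat_lit 4174) (nat_lit 251) (.e (nat_lit 1130) (nat_lit 83) .nil))))))) (.g (nat_lit 5) .nil .nil))) 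
(.lf (nat_lit 135778) (.g (nat_lit 3805) (.e (nat_lit 16473) (nat_lit 14) (.e (nat_lit 491526) (nat_lit 0) (.e (nat_lit 1788) (nat_lit 119) (.e (nat_lit 516166) (nat_lit 12) (.e (nat_lit 450563) (nat_lit 0) (.e (nat_lit 4168) (nat_lit 251) (.e (nat_lit 1123) (nat_lit 83) .nil))))))) (.g (nat_lit 4) .nil .nil)))) (.nd (nat_lit 5) 
(.lf (nat_lit 135762) (.g (nat_lit 3249) (.e (nat_lit 16473) (nat_lit 14) (.e (nat_lit 491526) (nat_lit 0) (.e (nat_lit 1788) (nat_lit 119) (.e (nat_lit 516166) (nat_lit 12) (.e (nat_lit 450562) (nat_lit 0) (.e (nat_lit 4192) (nat_lit 251) (.e (nat_lit 1127) (nat_lit 83) .nil))))))) (.g (nat_lit 4) .nil .nil))) 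
(.lf (nat_lit 135794) (.g (nat_lit 3805) (.e (nat_lit 16473) (nat_lit 14) (.e (nat_lit 491526) (nat_lit 0) (.e (nat_lit 1788) (nat_lit 119) (.e (nat_lit 516166) (nat_lit 12) (.e (nat_lit 450563) (nat_lit 0) (.e (nat_lit 4177) (nat_lit 251) (.e (nat_lit 1123) (nat_lit 83) .nil))))))) (.g (nat_lit 4) .nil .nil))))) (.nd (nat_lit 4) (.nd (nat_lit 5) 
(.lf (nat_lit 135754) (.g (nat_lit 5263) (.e (nat_lit 16473) (nat_lit 14) (.e (nat_lit 491526) (nat_lit 0) (.e (nat_lit 1788) (nat_lit 119) (.e (nat_lit 516166) (nat_lit 12) (.e (nat_lit 450562) (nat_lit 0) (.e (nat_lit 4177) (nat_lit 251) (.e (nat_lit 1130) (nat_lit 83) .nil))))))) (.g (nat_lit 5) .nil .nil))) 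
(.lf (nat_lit 135786) (.g (nat_lit 3946) (.e (nat_lit 16473) (nat_lit 14) (.e (nat_lit 491526) (nat_lit 0) (.e (nat_lit 1788) (nat_lit 119) (.e (nat_lit 516166) (nat_lit 12) (.e (nat_lit 450563) (nat_lit 0) (.e (nat_lit 4174) (nat_lit 251) (.e (nat_lit 1129) (nat_lit 83) .nil))))))) (.g (nat_lit 4) .nil .nil)))) (.nd (nat_lit 5) 
(.lf (nat_lit 135770) (.g (nat_lit 3181) (.e (nat_lit 16473) (nat_lit 14) (.e (nat_lit 491526) (nat_lit 0) (.e (nat_lit 1788) (nat_lit 119) (.e (nat_lit 516166) (nat_lit 12) (.e (nat_lit 450562) (nat_lit 0) (.e (nat_lit 4209) (nat_lit 251) (.e (nat_lit 1122) (nat_lit 83) .nil))))))) (.g (nat_lit 4) .nil .nil))) 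
(.lf (nat_lit 135802) (.g (nat_lit 3366) (.e (nat_lit 16473) (nat_lit 14) (.e (nat_lit 491526) (nat_lit 0) (.e (nat_lit 1788) (nat_lit 119) (.e (nat_lit 516166) (nat_lit 12) (.e (nat_lit 450563) (nat_lit 0) (.e (nat_lit 4193) (nat_lit 251) (.e (nat_lit 1122) (nat_lit 83) .nil))))))) (.g (nat_lit 4) .nil .nil)))))) (.nd (nat_lit 3) (.nd (nat_lit 4) (.nd (nat_lit 5) 
(.lf (nat_lit 135750) (.g (nat_lit 4181) (.e (nat_lit 16473) (nat_lit 14) (.e (nat_lit 491526) (nat_lit 0) (.e (nat_lit 1788) (nat_lit 119) (.e (nat_lit 516166) (nat_lit 12) (.e (nat_lit 450562) (nat_lit 0) (.e (nat_lit 4177) (nat_lit 251) (.e (nat_lit 1122) (nat_lit 83) .nil))))))) (.g (nat_lit 5) .nil .nil))) 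
(.lf (nat_lit 135782) (.g (nat_lit 4357) (.e (nat_lit 16473) (nat_lit 14) (.e (nat_lit 491526) (nat_lit 0) (.e (nat_lit 1788) (nat_lit 119) (.e (nat_lit 516166) (nat_lit 12) (.e (nat_lit 450563) (nat_lit 0) (.e (nat_lit 4168) (nat_lit 251) (.e (nat_lit 1129) (nat_lit 83) .nil))))))) (.g (nat_lit 4) .nil .nil)))) (.nd (nat_lit 5) 
(.lf (nat_lit 135766) (.g (nat_lit 3042) (.e (nat_lit 16473) (nat_lit 14) (.e (nat_lit 491526) (nat_lit 0) (.e (nat_lit 1788) (nat_lit 119) (.e (nat_lit 516166) (nat_lit 12) (.e (nat_lit 450562) (nat_lit 0) (.e (nat_lit 4200) (nat_lit 251) (.e (nat_lit 1127) (nat_lit 83) .nil))))))) (.g (nat_lit 4) .nil .nil))) 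
(.lf (nat_lit 135798) (.g (nat_lit 3859) (.e (nat_lit 16473) (nat_lit 14) (.e (nat_lit 491526) (nat_lit 0) (.e (nat_lit 1788) (nat_lit 119) (.e (nat_lit 516166) (nat_lit 12) (.e (nat_lit 450563) (nat_lit 0) (.e (nat_lit 4178) (nat_lit 251) (.e (nat_lit 1123) (nat_lit 83) .nil))))))) (.g (nat_lit 4) .nil .nil))))) (.nd (nat_lit 4) (.nd (nat_lit 5) 
(.lf (nat_lit 135758) (.g (nat_lit 4589) (.e (nat_lit 16473) (nat_lit 14) (.e (nat_lit 491526) (nat_lit 0) (.e (nat_lit 1788) (nat_lit 119) (.e (nat_lit 516166) (nat_lit 12) (.e (nat_lit 450562) (nat_lit 0) (.e (nat_lit 4181) (nat_lit 251) (.e (nat_lit 1131) (nat_lit 83) .nil))))))) (.g (nat_lit 5) .nil .nil))) 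
(.lf (nat_lit 135790) (.g (nat_lit 4107) (.e (nat_lit 16473) (nat_lit 14) (.e (nat_lit 491526) (nat_lit 0) (.e (nat_lit 1788) (nat_lit 119) (.e (nat_lit 516166) (nat_lit 12) (.e (nat_lit 450563) (nat_lit 0) (.e (nat_lit 4176) (nat_lit 251) (.e (nat_lit 1122) (nat_lit 83) .nil))))))) (.g (nat_lit 5) .nil .nil)))) (.nd (nat_lit 5) 
(.lf (nat_lit 135774) (.g (nat_lit 3529) (.e (nat_lit 16473) (nat_lit 14) (.e (nat_lit 491526) (nat_lit 0) (.e (nat_lit 1788) (nat_lit 119) (.e (nat_lit 516166) (nat_lit 12) (.e (nat_lit 450562) (nat_lit 0) (.e (nat_lit 4212) (nat_lit 251) (.e (nat_lit 1127) (nat_lit 83) .nil))))))) (.g (nat_lit 4) .nil .nil))) 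
(.lf (nat_lit 135806) (.g (nat_lit 3656) (.e (nat_lit 16473) (nat_lit 14) (.e (nat_lit 491526) (nat_lit 0) (.e (nat_lit 1788) (nat_lit 119) (.e (nat_lit 516166) (nat_lit 12) (.e (nat_lit 450563) (nat_lit 0) (.e (nat_lit 4197) (nat_lit 251) (.e (nat_lit 1122) (nat_lit 83) .nil))))))) (.g (nat_lit 4) .nil .nil)))))))) 
(.nd (nat_lit 1) (.nd (nat_lit 2) (.nd (nat_lit 3) (.nd (nat_lit 4) (.nd (nat_lit 5) 
(.lf (nat_lit 135745) (.g (nat_lit 4229) (.e (nat_lit 16473) (nat_lit 14) (.e (nat_lit 491526) (nat_lit 0) (.e (nat_lit 1788) (nat_lit 119) (.e (nat_lit 516166) (nat_lit 12) (.e (nat_lit 450562) (nat_lit 0) (.e (nat_lit 4174) (nat_lit 251) (.e (nat_lit 1129) (nat_lit 83) .nil))))))) (.g (nat_lit 4) .nil .nil))) 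
(.lf (nat_lit 135777) (.g (nat_lit 3769) (.e (nat_lit 16473) (nat_lit 14) (.e (nat_lit 491526) (nat_lit 0) (.e (nat_lit 1788) (nat_lit 119) (.e (nat_lit 516166) (nat_lit 12) (.e (nat_lit 450563) (nat_lit 0) (.e (nat_lit 4168) (nat_lit 251) (.e (nat_lit 1122) (nat_lit 83) .nil))))))) (.g (nat_lit 4) .nil .nil)))) (.nd (nat_lit 5) 
(.lf (nat_lit 135761) (.g (nat_lit 5080) (.e (nat_lit 16473) (nat_lit 14) (.e (nat_lit 491526) (nat_lit 0) (.e (nat_lit 1788) (nat_lit 119) (.e (nat_lit 516166) (nat_lit 12) (.e (nat_lit 450562) (nat_lit 0) (.e (nat_lit 4186) (nat_lit 251) (.e (nat_lit 1123) (nat_lit 83) .nil))))))) (.g (nat_lit 5) .nil .nil))) 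
(.lf (nat_lit 135793) (.g (nat_lit 3162) (.e (nat_lit 16473) (nat_lit 14) (.e (nat_lit 491526) (nat_lit 0) (.e (nat_lit 1788) (nat_lit 119) (.e (nat_lit 516166) (nat_lit 12) (.e (nat_lit 450563) (nat_lit 0) (.e (nat_lit 4177) (nat_lit 251) (.e (nat_lit 1122) (nat_lit 83) .nil))))))) (.g (nat_lit 4) .nil .nil))))) (.nd (nat_lit 4) (.nd (nat_lit 5) 
(.lf (nat_lit 135753) (.g (nat_lit 5032) (.e (nat_lit 16473) (nat_lit 14) (.e (nat_lit 491526) (nat_lit 0) (.e (nat_lit 1788) (nat_lit 119) (.e (nat_lit 516166) (nat_lit 12) (.e (nat_lit 450562) (nat_lit 0) (.e (nat_lit 4177) (nat_lit 251) (.e (nat_lit 1129) (nat_lit 83) .nil))))))) (.g (nat_lit 5) .nil .nil))) 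
(.lf (nat_lit 135785) (.g (nat_lit 3652) (.e (nat_lit 16473) (nat_lit 14) (.e (nat_lit 491526) (nat_lit 0) (.e (nat_lit 1788) (nat_lit 119) (.e (nat_lit 516166) (nat_lit 12) (.e (nat_lit 450563) (nat_lit 0) (.e (nat_lit 4174) (nat_lit 251) (.e (nat_lit 1123) (nat_lit 83) .nil))))))) (.g (nat_lit 4) .nil .nil)))) (.nd (nat_lit 5) 
(.lf (nat_lit 135769) (.g (nat_lit 3400) (.e (nat_lit 16473) (nat_lit 14) (.e (nat_lit 491526) (nat_lit 0) (.e (nat_lit 1788) (nat_lit 119) (.e (nat_lit 516166) (nat_lit 12) (.e (nat_lit 450562) (nat_lit 0) (.e (nat_lit 4203) (nat_lit 251) (.e (nat_lit 1127) (nat_lit 83) .nil))))))) (.g (nat_lit 4) .nil .nil))) 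
(.lf (nat_lit 135801) (.g (nat_lit 3226) (.e (nat_lit 16473) (nat_lit 14) (.e (nat_lit 491526) (nat_lit 0) (.e (nat_lit 1788) (nat_lit 119) (.e (nat_lit 516166) (nat_lit 12) (.e (nat_lit 450563) (nat_lit 0) (.e (nat_lit 4185) (nat_lit 251) (.e (nat_lit 1122) (nat_lit 83) .nil))))))) (.g (nat_lit 4) .nil .nil)))))) (.nd (nat_lit 3) (.nd (nat_lit 4) (.nd (nat_lit 5) 
(.lf (nat_lit 135749) (.g (nat_lit 4024) (.e (nat_lit 16473) (nat_lit 14) (.e (nat_lit 491526) (nat_lit 0) (.e (nat_lit 1788) (nat_lit 119) (.e (nat_lit 516166) (nat_lit 12) (.e (nat_lit 450562) (nat_lit 0) (.e (nat_lit 4176) (nat_lit 251) (.e (nat_lit 1130) (nat_lit 83) .nil))))))) (.g (nat_lit 4) .nil .nil))) 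
(.lf (nat_lit 135781) (.g (nat_lit 4859) (.e (nat_lit 16473) (nat_lit 14) (.e (nat_lit 491526) (nat_lit 0) (.e (nat_lit 1788) (nat_lit 119) (.e (nat_lit 516166) (nat_lit 12) (.e (nat_lit 450563) (nat_lit 0) (.e (nat_lit 4168) (nat_lit 251) (.e (nat_lit 1127) (nat_lit 83) .nil))))))) (.g (nat_lit 6) .nil .nil)))) (.nd (nat_lit 5) 
(.lf (nat_lit 135765) (.g (nat_lit 3689) (.e (nat_lit 16473) (nat_lit 14) (.e (nat_lit 491526) (nat_lit 0) (.e (nat_lit 1788) (nat_lit 119) (.e (nat_lit 516166) (nat_lit 12) (.e (nat_lit 450562) (nat_lit 0) (.e (nat_lit 4197) (nat_lit 251) (.e (nat_lit 1125) (nat_lit 83) .nil))))))) (.g (nat_lit 4) .nil .nil))) 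
(.lf (nat_lit 135797) (.g (nat_lit 4255) (.e (nat_lit 16473) (nat_lit 14) (.e (nat_lit 491526) (nat_lit 0) (.e (nat_lit 1788) (nat_lit 119) (.e (nat_lit 516166) (nat_lit 12) (.e (nat_lit 450563) (nat_lit 0) (.e (nat_lit 4178) (nat_lit 251) (.e (nat_lit 1122) (nat_lit 83) .nil))))))) (.g (nat_lit 5) .nil .nil))))) (.nd (nat_lit 4) (.nd (nat_lit 5) 
(.lf (nat_lit 135757) (.g (nat_lit 4299) (.e (nat_lit 16473) (nat_lit 14) (.e (nat_lit 491526) (nat_lit 0) (.e (nat_lit 1788) (nat_lit 119) (.e (nat_lit 516166) (nat_lit 12) (.e (nat_lit 450562) (nat_lit 0) (.e (nat_lit 4178) (nat_lit 251) (.e (nat_lit 1130) (nat_lit 83) .nil))))))) (.g (nat_lit 5) .nil .nil))) 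
(.lf (nat_lit 135789) (.g (nat_lit 5234) (.e (nat_lit 16473) (nat_lit 14) (.e (nat_lit 491526) (nat_lit 0) (.e (nat_lit 1788) (nat_lit 119) (.e (nat_lit 516166) (nat_lit 12) (.e (nat_lit 450563) (nat_lit 0) (.e (nat_lit 4175) (nat_lit 251) (.e (nat_lit 1132) (nat_lit 83) .nil))))))) (.g (nat_lit 6) .nil .nil)))) (.nd (nat_lit 5) 
(.lf (nat_lit 135773) (.g (nat_lit 3299) (.e (nat_lit 16473) (nat_lit 14) (.e (nat_lit 491526) (nat_lit 0) (.e (nat_lit 1788) (nat_lit 119) (.e (nat_lit 516166) (nat_lit 12) (.e (nat_lit 450562) (nat_lit 0) (.e (nat_lit 4212) (nat_lit 251) (.e (nat_lit 1125) (nat_lit 83) .nil))))))) (.g (nat_lit 4) .nil .nil))) 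
(.lf (nat_lit 135805) (.g (nat_lit 3789) (.e (nat_lit 16473) (nat_lit 14) (.e (nat_lit 491526) (nat_lit 0) (.e (nat_lit 1788) (nat_lit 119) (.e (nat_lit 516166) (nat_lit 12) (.e (nat_lit 450563) (nat_lit 0) (.e (nat_lit 4196) (nat_lit 251) (.e (nat_lit 1125) (nat_lit 83) .nil))))))) (.g (nat_lit 4) .nil .nil))))))) (.nd (nat_lit 2) (.nd (nat_lit 3) (.nd (nat_lit 4) (.nd (nat_lit 5) 
(.lf (nat_lit 135747) (.g (nat_lit 3702) (.e (nat_lit 16473) (nat_lit 14) (.e (nat_lit 491526) (nat_lit 0) (.e (nat_lit 1788) (nat_lit 119) (.e (nat_lit 516166) (nat_lit 12) (.e (nat_lit 450562) (nat_lit 0) (.e (nat_lit 4175) (nat_lit 251) (.e (nat_lit 1132) (nat_lit 83) .nil))))))) (.g (nat_lit 4) .nil .nil))) 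
(.lf (nat_lit 135779) (.g (nat_lit 3911) (.e (nat_lit 16473) (nat_lit 14) (.e (nat_lit 491526) (nat_lit 0) (.e (nat_lit 1788) (nat_lit 119) (.e (nat_lit 516166) (nat_lit 12) (.e (nat_lit 450563) (nat_lit 0) (.e (nat_lit 4168) (nat_lit 251) (.e (nat_lit 1125) (nat_lit 83) .nil))))))) (.g (nat_lit 4) .nil .nil)))) (.nd (nat_lit 5) 
(.lf (nat_lit 135763) (.g (nat_lit 3011) (.e (nat_lit 16473) (nat_lit 14) (.e (nat_lit 491526) (nat_lit 0) (.e (nat_lit 1788) (nat_lit 119) (.e (nat_lit 516166) (nat_lit 12) (.e (nat_lit 450562) (nat_lit 0) (.e (nat_lit 4193) (nat_lit 251) (.e (nat_lit 1127) (nat_lit 83) .nil))))))) (.g (nat_lit 4) .nil .nil))) 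
(.lf (nat_lit 135795) (.g (nat_lit 4013) (.e (nat_lit 16473) (nat_lit 14) (.e (nat_lit 491526) (nat_lit 0) (.e (nat_lit 1788) (nat_lit 119) (.e (nat_lit 516166) (nat_lit 12) (.e (nat_lit 450563) (nat_lit 0) (.e (nat_lit 4177) (nat_lit 251) (.e (nat_lit 1129) (nat_lit 83) .nil))))))) (.g (nat_lit 4) .nil .nil))))) (.nd (nat_lit 4) (.nd (nat_lit 5) 
(.lf (nat_lit 135755) (.g (nat_lit 3601) (.e (nat_lit 16473) (nat_lit 14) (.e (nat_lit 491526) (nat_lit 0) (.e (nat_lit 1788) (nat_lit 119) (.e (nat_lit 516166) (nat_lit 12) (.e (nat_lit 450562) (nat_lit 0) (.e (nat_lit 4178) (nat_lit 251) (.e (nat_lit 1123) (nat_lit 83) .nil))))))) (.g (nat_lit 4) .nil .nil))) 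
(.lf (nat_lit 135787) (.g (nat_lit 4163) (.e (nat_lit 16473) (nat_lit 14) (.e (nat_lit 491526) (nat_lit 0) (.e (nat_lit 1788) (nat_lit 119) (.e (nat_lit 516166) (nat_lit 12) (.e (nat_lit 450563) (nat_lit 0) (.e (nat_lit 4174) (nat_lit 251) (.e (nat_lit 1130) (nat_lit 83) .nil))))))) (.g (nat_lit 5) .nil .nil)))) (.nd (nat_lit 5) 
(.lf (nat_lit 135771) (.g (nat_lit 3051) (.e (nat_lit 16473) (nat_lit 14) (.e (nat_lit 491526) (nat_lit 0) (.e (nat_lit 1788) (nat_lit 119) (.e (nat_lit 516166) (nat_lit 12) (.e (nat_lit 450562) (nat_lit 0) (.e (nat_lit 4210) (nat_lit 251) (.e (nat_lit 1127) (nat_lit 83) .nil))))))) (.g (nat_lit 4) .nil .nil))) 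
(.lf (nat_lit 135803) (.g (nat_lit 3297) (.e (nat_lit 16473) (nat_lit 14) (.e (nat_lit 491526) (nat_lit 0) (.e (nat_lit 1788) (nat_lit 119) (.e (nat_lit 516166) (nat_lit 12) (.e (nat_lit 450563) (nat_lit 0) (.e (nat_lit 4193) (nat_lit 251) (.e (nat_lit 1125) (nat_lit 83) .nil))))))) (.g (nat_lit 4) .nil .nil)))))) (.nd (nat_lit 3) (.nd (nat_lit 4) (.nd (nat_lit 5) 
(.lf (nat_lit 135751) (.g (nat_lit 4824) (.e (nat_lit 16473) (nat_lit 14) (.e (nat_lit 491526) (nat_lit 0) (.e (nat_lit 1788) (nat_lit 119) (.e (nat_lit 516166) (nat_lit 12) (.e (nat_lit 450562) (nat_lit 0) (.e (nat_lit 4177) (nat_lit 251) (.e (nat_lit 1123) (nat_lit 83) .nil))))))) (.g (nat_lit 5) .nil .nil))) 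
(.lf (nat_lit 135783) (.g (nat_lit 4609) (.e (nat_lit 16473) (nat_lit 14) (.e (nat_lit 491526) (nat_lit 0) (.e (nat_lit 1788) (nat_lit 119) (.e (nat_lit 516166) (nat_lit 12) (.e (nat_lit 450563) (nat_lit 0) (.e (nat_lit 4168) (nat_lit 251) (.e (nat_lit 1130) (nat_lit 83) .nil))))))) (.g (nat_lit 5) .nil .nil)))) (.nd (nat_lit 5) 
(.lf (nat_lit 135767) (.g (nat_lit 3112) (.e (nat_lit 16473) (nat_lit 14) (.e (nat_lit 491526) (nat_lit 0) (.e (nat_lit 1788) (nat_lit 119) (.e (nat_lit 516166) (nat_lit 12) (.e (nat_lit 450562) (nat_lit 0) (.e (nat_lit 4202) (nat_lit 251) (.e (nat_lit 1122) (nat_lit 83) .nil))))))) (.g (nat_lit 4) .nil .nil))) 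
(.lf (nat_lit 135799) (.g (nat_lit 4183) (.e (nat_lit 16473) (nat_lit 14) (.e (nat_lit 491526) (nat_lit 0) (.e (nat_lit 1788) (nat_lit 119) (.e (nat_lit 516166) (nat_lit 12) (.e (nat_lit 450563) (nat_lit 0) (.e (nat_lit 4178) (nat_lit 251) (.e (nat_lit 1129) (nat_lit 83) .nil))))))) (.g (nat_lit 4) .nil .nil))))) (.nd (nat_lit 4) (.nd (nat_lit 5) 
(.lf (nat_lit 135759) (.g (nat_lit 3820) (.e (nat_lit 16473) (nat_lit 14) (.e (nat_lit 491526) (nat_lit 0) (.e (nat_lit 1788) (nat_lit 119) (.e (nat_lit 516166) (nat_lit 12) (.e (nat_lit 450562) (nat_lit 0) (.e (nat_lit 4185) (nat_lit 251) (.e (nat_lit 1123) (nat_lit 83) .nil))))))) (.g (nat_lit 4) .nil .nil))) 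
(.lf (nat_lit 135791) (.g (nat_lit 4005) (.e (nat_lit 16473) (nat_lit 14) (.e (nat_lit 491526) (nat_lit 0) (.e (nat_lit 1788) (nat_lit 119) (.e (nat_lit 516166) (nat_lit 12) (.e (nat_lit 450563) (nat_lit 0) (.e (nat_lit 4176) (nat_lit 251) (.e (nat_lit 1129) (nat_lit 83) .nil))))))) (.g (nat_lit 4) .nil .nil)))) (.nd (nat_lit 5) 
(.lf (nat_lit 135775) (.g (nat_lit 3204) (.e (nat_lit 16473) (nat_lit 14) (.e (nat_lit 491526) (nat_lit 0) (.e (nat_lit 1788) (nat_lit 119) (.e (nat_lit 516166) (nat_lit 12) (.e (nat_lit 450562) (nat_lit 0) (.e (nat_lit 4218) (nat_lit 251) (.e (nat_lit 1127) (nat_lit 83) .nil))))))) (.g (nat_lit 4) .nil .nil))) 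
(.lf (nat_lit 135807) (.g (nat_lit 3592) (.e (nat_lit 16473) (nat_lit 14) (.e (nat_lit 491526) (nat_lit 0) (.e (nat_lit 1788) (nat_lit 119) (.e (nat_lit 516166) (nat_lit 12) (.e (nat_lit 450563) (nat_lit 0) (.e (nat_lit 4197) (nat_lit 251) (.e (nat_lit 1125) (nat_lit 83) .nil))))))) (.g (nat_lit 4) .nil .nil)))))))))

noncomputable def tv1807 : DT := (.nd (nat_lit 0) (.nd (nat_lit 1) (.nd (nat_lit 2) (.nd (nat_lit 3) (.nd (nat_lit 4) (.nd (nat_lit 5) 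
(.lf (nat_lit 135808) (.g (nat_lit 4210) (.e (nat_lit 16473) (nat_lit 14) (.e (nat_lit 491526) (nat_lit 0) (.e (nat_lit 1788) (nat_lit 119) (.e (nat_lit 516166) (nat_lit 12) (.e (nat_lit 450563) (nat_lit 0) (.e (nat_lit 4198) (nat_lit 251) (.e (nat_lit 1122) (nat_lit 83) .nil))))))) (.g (nat_lit 5) .nil .nil))) 
(.lf (nat_lit 135840) (.g (nat_lit 3032) (.e (nat_lit 16473) (nat_lit 14) (.e (nat_lit 491535) (nat_lit 2) (.e (nat_lit 90170) (nat_lit 13) (.e (nat_lit 172106) (nat_lit 10) (.e (nat_lit 434202) (nat_lit 18) (.e (nat_lit 4168) (nat_lit 251) (.e (nat_lit 1123) (nat_lit 83) .nil))))))) (.g (nat_lit 4) .nil .nil)))) (.nd (nat_lit 5) 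
(.lf (nat_lit 135824) (.g (nat_lit 4560) (.e (nat_lit 16473) (nat_lit 14) (.e (nat_lit 491526) (nat_lit 0) (.e (nat_lit 1788) (nat_lit 119) (.e (nat_lit 516166) (nat_lit 12) (.e (nat_lit 450563) (nat_lit 0) (.e (nat_lit 4212) (nat_lit 251) (.e (nat_lit 1127) (nat_lit 83) .nil))))))) (.g (nat_lit 5) .nil .nil))) 
(.lf (nat_lit 135856) (.g (nat_lit 3594) (.e (nat_lit 16473) (nat_lit 14) (.e (nat_lit 491535) (nat_lit 2) (.e (nat_lit 90170) (nat_lit 13) (.e (nat_lit 172106) (nat_lit 10) (.e (nat_lit 434202) (nat_lit 18) (.e (nat_lit 4183) (nat_lit 251) (.e (nat_lit 1131) (nat_lit 83) .nil))))))) (.g (nat_lit 4) .nil .nil))))) (.nd (nat_lit 4) (.nd (nat_lit 5) 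
(.lf (nat_lit 135816) (.g (nat_lit 3328) (.e (nat_lit 16473) (nat_lit 14) (.e (nat_lit 491526) (nat_lit 0) (.e (nat_lit 1788) (nat_lit 119) (.e (nat_lit 516166) (nat_lit 12) (.e (nat_lit 450563) (nat_lit 0) (.e (nat_lit 4202) (nat_lit 251) (.e (nat_lit 1126) (nat_lit 83) .nil))))))) (.g (nat_lit 4) .nil .nil))) 
(.lf (nat_lit 135848) (.g (nat_lit 3062) (.e (nat_lit 16473) (nat_lit 14) (.e (nat_lit 491535) (nat_lit 2) (.e (nat_lit 90170) (nat_lit 13) (.e (nat_lit 172106) (nat_lit 10) (.e (nat_lit 434202) (nat_lit 18) (.e (nat_lit 4177) (nat_lit 251) (.e (nat_lit 1129) (nat_lit 83) .nil))))))) (.g (nat_lit 4) .nil .nil)))) (.nd (nat_lit 5) 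
(.lf (nat_lit 135832) (.g (nat_lit 3394) (.e (nat_lit 16473) (nat_lit 14) (.e (nat_lit 491526) (nat_lit 0) (.e (nat_lit 1788) (nat_lit 119) (.e (nat_lit 516166) (nat_lit 12) (.e (nat_lit 450589) (nat_lit 11) (.e (nat_lit 581665) (nat_lit 11) .nil)))))) (.g (nat_lit 4) .nil .nil))) 
(.lf (nat_lit 135864) (.g (nat_lit 3307) (.e (nat_lit 16473) (nat_lit 14) (.e (nat_lit 491535) (nat_lit 2) (.e (nat_lit 90170) (nat_lit 13) (.e (nat_lit 172106) (nat_lit 10) (.e (nat_lit 434209) (nat_lit 18) (.e (nat_lit 4194) (nat_lit 251) (.e (nat_lit 1125) (nat_lit 83) .nil))))))) (.g (nat_lit 4) .nil .nil)))))) (.nd (nat_lit 3) (.nd (nat_lit 4) (.nd (nat_lit 5) 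
(.lf (nat_lit 135812) (.g (nat_lit 4540) (.e (nat_lit 16473) (nat_lit 14) (.e (nat_lit 491526) (nat_lit 0) (.e (nat_lit 1788) (nat_lit 119) (.e (nat_lit 516166) (nat_lit 12) (.e (nat_lit 450563) (nat_lit 0) (.e (nat_lit 4200) (nat_lit 251) (.e (nat_lit 1125) (nat_lit 83) .nil))))))) (.g (nat_lit 5) .nil .nil))) 
(.lf (nat_lit 135844) (.g (nat_lit 4128) (.e (nat_lit 16473) (nat_lit 14) (.e (nat_lit 491535) (nat_lit 2) (.e (nat_lit 90170) (nat_lit 13) (.e (nat_lit 172106) (nat_lit 10) (.e (nat_lit 434202) (nat_lit 18) (.e (nat_lit 4168) (nat_lit 251) (.e (nat_lit 1130) (nat_lit 83) .nil))))))) (.g (nat_lit 5) .nil .nil)))) (.nd (nat_lit 5) 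
(.lf (nat_lit 135828) (.g (nat_lit 3246) (.e (nat_lit 16473) (nat_lit 14) (.e (nat_lit 491526) (nat_lit 0) (.e (nat_lit 1788) (nat_lit 119) (.e (nat_lit 516166) (nat_lit 12) (.e (nat_lit 450567) (nat_lit 0) (.e (nat_lit 4211) (nat_lit 251) (.e (nat_lit 1125) (nat_lit 83) .nil))))))) (.g (nat_lit 4) .nil .nil))) 
(.lf (nat_lit 135860) (.g (nat_lit 3248) (.e (nat_lit 16473) (nat_lit 14) (.e (nat_lit 491535) (nat_lit 2) (.e (nat_lit 90170) (nat_lit 13) (.e (nat_lit 172106) (nat_lit 10) (.e (nat_lit 434202) (nat_lit 18) (.e (nat_lit 4202) (nat_lit 251) (.e (nat_lit 1126) (nat_lit 83) .nil))))))) (.g (nat_lit 4) .nil .nil))))) (.nd (nat_lit 4) (.nd (nat_lit 5) 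
(.lf (nat_lit 135820) (.g (nat_lit 3277) (.e (nat_lit 16473) (nat_lit 14) (.e (nat_lit 491526) (nat_lit 0) (.e (nat_lit 1788) (nat_lit 119) (.e (nat_lit 516166) (nat_lit 12) (.e (nat_lit 450563) (nat_lit 0) (.e (nat_lit 4206) (nat_lit 251) (.e (nat_lit 1122) (nat_lit 83) .nil))))))) (.g (nat_lit 4) .nil .nil))) 
(.lf (nat_lit 135852) (.g (nat_lit 3339) (.e (nat_lit 16473) (nat_lit 14) (.e (nat_lit 491535) (nat_lit 2) (.e (nat_lit 90170) (nat_lit 13) (.e (nat_lit 172106) (nat_lit 10) (.e (nat_lit 434202) (nat_lit 18) (.e (nat_lit 4178) (nat_lit 251) (.e (nat_lit 1129) (nat_lit 83) .nil))))))) (.g (nat_lit 4) .nil .nil)))) (.nd (nat_lit 5) 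
(.lf (nat_lit 135836) (.g (nat_lit 4252) (.e (nat_lit 16473) (nat_lit 14) (.e (nat_lit 491526) (nat_lit 0) (.e (nat_lit 2270) (nat_lit 149) (.e (nat_lit 761906) (nat_lit 16) (.e (nat_lit 172097) (nat_lit 9) (.e (nat_lit 426025) (nat_lit 0) (.e (nat_lit 3536) (nat_lit 218) (.e (nat_lit 704736) (nat_lit 11) .nil)))))))) (.g (nat_lit 6) .nil .nil))) 
(.lf (nat_lit 135868) (.g (nat_lit 4814) (.e (nat_lit 16473) (nat_lit 14) (.e (nat_lit 491535) (nat_lit 2) (.e (nat_lit 90170) (nat_lit 13) (.e (nat_lit 172106) (nat_lit 10) (.e (nat_lit 434209) (nat_lit 18) (.e (nat_lit 4214) (nat_lit 251) (.e (nat_lit 1122) (nat_lit 83) .nil))))))) (.g (nat_lit 5) .nil .nil))))))) (.nd (nat_lit 2) (.nd (nat_lit 3) (.nd (nat_lit 4) (.nd (nat_lit 5) 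
(.lf (nat_lit 135810) (.g (nat_lit 3102) (.e (nat_lit 16473) (nat_lit 14) (.e (nat_lit 491526) (nat_lit 0) (.e (nat_lit 1788) (nat_lit 119) (.e (nat_lit 516166) (nat_lit 12) (.e (nat_lit 450563) (nat_lit 0) (.e (nat_lit 4198) (nat_lit 251) (.e (nat_lit 1126) (nat_lit 83) .nil))))))) (.g (nat_lit 4) .nil .nil))) 
(.lf (nat_lit 135842) (.g (nat_lit 3996) (.e (nat_lit 16473) (nat_lit 14) (.e (nat_lit 491535) (nat_lit 2) (.e (nat_lit 90170) (nat_lit 13) (.e (nat_lit 172106) (nat_lit 10) (.e (nat_lit 434202) (nat_lit 18) (.e (nat_lit 4168) (nat_lit 251) (.e (nat_lit 1126) (nat_lit 83) .nil))))))) (.g (nat_lit 5) .nil .nil)))) (.nd (nat_lit 5) 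
(.lf (nat_lit 135826) (.g (nat_lit 2894) (.e (nat_lit 16473) (nat_lit 14) (.e (nat_lit 491526) (nat_lit 0) (.e (nat_lit 1788) (nat_lit 119) (.e (nat_lit 516166) (nat_lit 12) (.e (nat_lit 450567) (nat_lit 0) (.e (nat_lit 4189) (nat_lit 251) (.e (nat_lit 1126) (nat_lit 83) .nil))))))) (.g (nat_lit 4) .nil .nil))) 
(.lf (nat_lit 135858) (.g (nat_lit 3883) (.e (nat_lit 16473) (nat_lit 14) (.e (nat_lit 491535) (nat_lit 2) (.e (nat_lit 90170) (nat_lit 13) (.e (nat_lit 172106) (nat_lit 10) (.e (nat_lit 434202) (nat_lit 18) (.e (nat_lit 4202) (nat_lit 251) (.e (nat_lit 1122) (nat_lit 83) .nil))))))) (.g (nat_lit 5) .nil .nil))))) (.nd (nat_lit 4) (.nd (nat_lit 5) 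
(.lf (nat_lit 135818) (.g (nat_lit 4002) (.e (nat_lit 16473) (nat_lit 14) (.e (nat_lit 491526) (nat_lit 0) (.e (nat_lit 1788) (nat_lit 119) (.e (nat_lit 516166) (nat_lit 12) (.e (nat_lit 450563) (nat_lit 0) (.e (nat_lit 4203) (nat_lit 251) (.e (nat_lit 1125) (nat_lit 83) .nil))))))) (.g (nat_lit 4) .nil .nil))) 
(.lf (nat_lit 135850) (.g (nat_lit 3405) (.e (nat_lit 16473) (nat_lit 14) (.e (nat_lit 491535) (nat_lit 2) (.e (nat_lit 90170) (nat_lit 13) (.e (nat_lit 172106) (nat_lit 10) (.e (nat_lit 434202) (nat_lit 18) (.e (nat_lit 4178) (nat_lit 251) (.e (nat_lit 1122) (nat_lit 83) .nil))))))) (.g (nat_lit 4) .nil .nil)))) (.nd (nat_lit 5) 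
(.lf (nat_lit 135834) (.g (nat_lit 2027) (.e (nat_lit 16473) (nat_lit 14) (.e (nat_lit 491526) (nat_lit 0) (.e (nat_lit 1848) (nat_lit 124) (.e (nat_lit 557093) (nat_lit 12) (.e (nat_lit 164238) (nat_lit 187) (.e (nat_lit 1638) (nat_lit 114) (.e (nat_lit 392960) (nat_lit 2) .nil))))))) (.g (nat_lit 4) .nil .nil))) 
(.lf (nat_lit 135866) (.g (nat_lit 4187) (.e (nat_lit 16473) (nat_lit 14) (.e (nat_lit 491535) (nat_lit 2) (.e (nat_lit 90170) (nat_lit 13) (.e (nat_lit 172106) (nat_lit 10) (.e (nat_lit 434209) (nat_lit 18) (.e (nat_lit 4204) (nat_lit 251) (.e (nat_lit 1126) (nat_lit 83) .nil))))))) (.g (nat_lit 5) .nil .nil)))))) (.nd (nat_lit 3) (.nd (nat_lit 4) (.nd (nat_lit 5) 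
(.lf (nat_lit 135814) (.g (nat_lit 4373) (.e (nat_lit 16473) (nat_lit 14) (.e (nat_lit 491526) (nat_lit 0) (.e (nat_lit 1788) (nat_lit 119) (.e (nat_lit 516166) (nat_lit 12) (.e (nat_lit 450563) (nat_lit 0) (.e (nat_lit 4202) (nat_lit 251) (.e (nat_lit 1122) (nat_lit 83) .nil))))))) (.g (nat_lit 5) .nil .nil))) 
(.lf (nat_lit 135846) (.g (nat_lit 2959) (.e (nat_lit 16473) (nat_lit 14) (.e (nat_lit 491535) (nat_lit 2) (.e (nat_lit 90170) (nat_lit 13) (.e (nat_lit 172106) (nat_lit 10) (.e (nat_lit 434202) (nat_lit 18) (.e (nat_lit 4176) (nat_lit 251) (.e (nat_lit 1122) (nat_lit 83) .nil))))))) (.g (nat_lit 4) .nil .nil)))) (.nd (nat_lit 5) 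
(.lf (nat_lit 135830) (.g (nat_lit 3842) (.e (nat_lit 16473) (nat_lit 14) (.e (nat_lit 491526) (nat_lit 0) (.e (nat_lit 1788) (nat_lit 119) (.e (nat_lit 516166) (nat_lit 12) (.e (nat_lit 450569) (nat_lit 0) (.e (nat_lit 4215) (nat_lit 251) (.e (nat_lit 1125) (nat_lit 83) .nil))))))) (.g (nat_lit 4) .nil .nil))) 
(.lf (nat_lit 135862) (.g (nat_lit 3764) (.e (nat_lit 16473) (nat_lit 14) (.e (nat_lit 491535) (nat_lit 2) (.e (nat_lit 90170) (nat_lit 13) (.e (nat_lit 172106) (nat_lit 10) (.e (nat_lit 434209) (nat_lit 18) (.e (nat_lit 4182) (nat_lit 251) (.e (nat_lit 1131) (nat_lit 83) .nil))))))) (.g (nat_lit 4) .nil .nil))))) (.nd (nat_lit 4) (.nd (nat_lit 5) 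
(.lf (nat_lit 135822) (.g (nat_lit 3759) (.e (nat_lit 16473) (nat_lit 14) (.e (nat_lit 491526) (nat_lit 0) (.e (nat_lit 1788) (nat_lit 119) (.e (nat_lit 516166) (nat_lit 12) (.e (nat_lit 450563) (nat_lit 0) (.e (nat_lit 4210) (nat_lit 251) (.e (nat_lit 1127) (nat_lit 83) .nil))))))) (.g (nat_lit 4) .nil .nil))) 
(.lf (nat_lit 135854) (.g (nat_lit 3238) (.e (nat_lit 16473) (nat_lit 14) (.e (nat_lit 491535) (nat_lit 2) (.e (nat_lit 90170) (nat_lit 13) (.e (nat_lit 172106) (nat_lit 10) (.e (nat_lit 434202) (nat_lit 18) (.e (nat_lit 4180) (nat_lit 251) (.e (nat_lit 1131) (nat_lit 83) .nil))))))) (.g (nat_lit 4) .nil .nil)))) (.nd (nat_lit 5) 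
(.lf (nat_lit 135838) (.g (nat_lit 3222) (.e (nat_lit 16473) (nat_lit 14) (.e (nat_lit 491526) (nat_lit 0) (.e (nat_lit 2334) (nat_lit 151) (.e (nat_lit 778325) (nat_lit 6) (.e (nat_lit 81953) (nat_lit 22) (.e (nat_lit 98048) (nat_lit 2) .nil)))))) (.g (nat_lit 5) .nil .nil))) 
(.lf (nat_lit 135870) (.g (nat_lit 4712) (.e (nat_lit 16473) (nat_lit 14) (.e (nat_lit 491535) (nat_lit 2) (.e (nat_lit 90170) (nat_lit 13) (.e (nat_lit 172106) (nat_lit 10) (.e (nat_lit 434209) (nat_lit 18) (.e (nat_lit 4216) (nat_lit 251) (.e (nat_lit 1122) (nat_lit 83) .nil))))))) (.g (nat_lit 5) .nil .nil)))))))) 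
(.nd (nat_lit 1) (.nd (nat_lit 2) (.nd (nat_lit 3) (.nd (nat_lit 4) (.nd (nat_lit 5) 
(.lf (nat_lit 135809) (.g (nat_lit 4226) (.e (nat_lit 16473) (nat_lit 14) (.e (nat_lit 491526) (nat_lit 0) (.e (nat_lit 1788) (nat_lit 119) (.e (nat_lit 516166) (nat_lit 12) (.e (nat_lit 450563) (nat_lit 0) (.e (nat_lit 4198) (nat_lit 251) (.e (nat_lit 1125) (nat_lit 83) .nil))))))) (.g (nat_lit 4) .nil .nil))) 
(.lf (nat_lit 135841) (.g (nat_lit 3037) (.e (nat_lit 16473) (nat_lit 14) (.e (nat_lit 491535) (nat_lit 2) (.e (nat_lit 90170) (nat_lit 13) (.e (nat_lit 172106) (nat_lit 10) (.e (nat_lit 434202) (nat_lit 18) (.e (nat_lit 4168) (nat_lit 251) (.e (nat_lit 1125) (nat_lit 83) .nil))))))) (.g (nat_lit 4) .nil .nil)))) (.nd (nat_lit 5) 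
(.lf (nat_lit 135825) (.g (nat_lit 4117) (.e (nat_lit 16473) (nat_lit 14) (.e (nat_lit 491526) (nat_lit 0) (.e (nat_lit 1788) (nat_lit 119) (.e (nat_lit 516166) (nat_lit 12) (.e (nat_lit 450563) (nat_lit 0) (.e (nat_lit 4244) (nat_lit 251) (.e (nat_lit 1122) (nat_lit 83) .nil))))))) (.g (nat_lit 5) .nil .nil))) 
(.lf (nat_lit 135857) (.g (nat_lit 3591) (.e (nat_lit 16473) (nat_lit 14) (.e (nat_lit 491535) (nat_lit 2) (.e (nat_lit 90170) (nat_lit 13) (.e (nat_lit 172106) (nat_lit 10) (.e (nat_lit 434202) (nat_lit 18) (.e (nat_lit 4185) (nat_lit 251) (.e (nat_lit 1123) (nat_lit 83) .nil))))))) (.g (nat_lit 4) .nil .nil))))) (.nd (nat_lit 4) (.nd (nat_lit 5) 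
(.lf (nat_lit 135817) (.g (nat_lit 3319) (.e (nat_lit 16473) (nat_lit 14) (.e (nat_lit 491526) (nat_lit 0) (.e (nat_lit 1788) (nat_lit 119) (.e (nat_lit 516166) (nat_lit 12) (.e (nat_lit 450563) (nat_lit 0) (.e (nat_lit 4203) (nat_lit 251) (.e (nat_lit 1122) (nat_lit 83) .nil))))))) (.g (nat_lit 4) .nil .nil))) 
(.lf (nat_lit 135849) (.g (nat_lit 3615) (.e (nat_lit 16473) (nat_lit 14) (.e (nat_lit 491535) (nat_lit 2) (.e (nat_lit 90170) (nat_lit 13) (.e (nat_lit 172106) (nat_lit 10) (.e (nat_lit 434202) (nat_lit 18) (.e (nat_lit 4177) (nat_lit 251) (.e (nat_lit 1130) (nat_lit 83) .nil))))))) (.g (nat_lit 4) .nil .nil)))) (.nd (nat_lit 5) 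
(.lf (nat_lit 135833) (.g (nat_lit 3749) (.e (nat_lit 16473) (nat_lit 14) (.e (nat_lit 491526) (nat_lit 0) (.e (nat_lit 1842) (nat_lit 123) (.e (nat_lit 548874) (nat_lit 5) (.e (nat_lit 1669) (nat_lit 116) (.e (nat_lit 401454) (nat_lit 12) (.e (nat_lit 475182) (nat_lit 28) (.e (nat_lit 548883) (nat_lit 7) .nil)))))))) (.g (nat_lit 4) .nil .nil))) 
(.lf (nat_lit 135865) (.g (nat_lit 4284) (.e (nat_lit 16473) (nat_lit 14) (.e (nat_lit 491535) (nat_lit 2) (.e (nat_lit 90170) (nat_lit 13) (.e (nat_lit 172106) (nat_lit 10) (.e (nat_lit 434209) (nat_lit 18) (.e (nat_lit 4194) (nat_lit 251) (.e (nat_lit 1126) (nat_lit 83) .nil))))))) (.g (nat_lit 5) .nil .nil)))))) (.nd (nat_lit 3) (.nd (nat_lit 4) (.nd (nat_lit 5) 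
(.lf (nat_lit 135813) (.g (nat_lit 3343) (.e (nat_lit 16473) (nat_lit 14) (.e (nat_lit 491526) (nat_lit 0) (.e (nat_lit 1788) (nat_lit 119) (.e (nat_lit 516166) (nat_lit 12) (.e (nat_lit 450563) (nat_lit 0) (.e (nat_lit 4200) (nat_lit 251) (.e (nat_lit 1126) (nat_lit 83) .nil))))))) (.g (nat_lit 4) .nil .nil))) 
(.lf (nat_lit 135845) (.g (nat_lit 3284) (.e (nat_lit 16473) (nat_lit 14) (.e (nat_lit 491535) (nat_lit 2) (.e (nat_lit 90170) (nat_lit 13) (.e (nat_lit 172106) (nat_lit 10) (.e (nat_lit 434202) (nat_lit 18) (.e (nat_lit 4174) (nat_lit 251) (.e (nat_lit 1130) (nat_lit 83) .nil))))))) (.g (nat_lit 4) .nil .nil)))) (.nd (nat_lit 5) 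
(.lf (nat_lit 135829) (.g (nat_lit 3032) (.e (nat_lit 16473) (nat_lit 14) (.e (nat_lit 491526) (nat_lit 0) (.e (nat_lit 1788) (nat_lit 119) (.e (nat_lit 516166) (nat_lit 12) (.e (nat_lit 450567) (nat_lit 0) (.e (nat_lit 4211) (nat_lit 251) (.e (nat_lit 1126) (nat_lit 83) .nil))))))) (.g (nat_lit 4) .nil .nil))) 
(.lf (nat_lit 135861) (.g (nat_lit 2739) (.e (nat_lit 16473) (nat_lit 14) (.e (nat_lit 491535) (nat_lit 2) (.e (nat_lit 90170) (nat_lit 13) (.e (nat_lit 172106) (nat_lit 10) (.e (nat_lit 434202) (nat_lit 18) (.e (nat_lit 4203) (nat_lit 251) (.e (nat_lit 1126) (nat_lit 83) .nil))))))) (.g (nat_lit 4) .nil .nil))))) (.nd (nat_lit 4) (.nd (nat_lit 5) 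
(.lf (nat_lit 135821) (.g (nat_lit 3199) (.e (nat_lit 16473) (nat_lit 14) (.e (nat_lit 491526) (nat_lit 0) (.e (nat_lit 1788) (nat_lit 119) (.e (nat_lit 516166) (nat_lit 12) (.e (nat_lit 450563) (nat_lit 0) (.e (nat_lit 4210) (nat_lit 251) (.e (nat_lit 1122) (nat_lit 83) .nil))))))) (.g (nat_lit 4) .nil .nil))) 
(.lf (nat_lit 135853) (.g (nat_lit 4035) (.e (nat_lit 16473) (nat_lit 14) (.e (nat_lit 491535) (nat_lit 2) (.e (nat_lit 90170) (nat_lit 13) (.e (nat_lit 172106) (nat_lit 10) (.e (nat_lit 434202) (nat_lit 18) (.e (nat_lit 4178) (nat_lit 251) (.e (nat_lit 1130) (nat_lit 83) .nil))))))) (.g (nat_lit 5) .nil .nil)))) (.nd (nat_lit 5) 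
(.lf (nat_lit 135837) (.g (nat_lit 3675) (.e (nat_lit 16473) (nat_lit 14) (.e (nat_lit 491526) (nat_lit 0) (.e (nat_lit 2270) (nat_lit 149) (.e (nat_lit 761906) (nat_lit 16) (.e (nat_lit 172115) (nat_lit 10) (.e (nat_lit 434290) (nat_lit 44) (.e (nat_lit 704741) (nat_lit 11) .nil))))))) (.g (nat_lit 4) .nil .nil))) 
(.lf (nat_lit 135869) (.g (nat_lit 4656) (.e (nat_lit 16473) (nat_lit 14) (.e (nat_lit 491535) (nat_lit 2) (.e (nat_lit 90170) (nat_lit 13) (.e (nat_lit 172106) (nat_lit 10) (.e (nat_lit 434209) (nat_lit 18) (.e (nat_lit 4214) (nat_lit 251) (.e (nat_lit 1125) (nat_lit 83) .nil))))))) (.g (nat_lit 5) .nil .nil))))))) (.nd (nat_lit 2) (.nd (nat_lit 3) (.nd (nat_lit 4) (.nd (nat_lit 5) 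
(.lf (nat_lit 135811) (.g (nat_lit 4363) (.e (nat_lit 16473) (nat_lit 14) (.e (nat_lit 491526) (nat_lit 0) (.e (nat_lit 1788) (nat_lit 119) (.e (nat_lit 516166) (nat_lit 12) (.e (nat_lit 450563) (nat_lit 0) (.e (nat_lit 4200) (nat_lit 251) (.e (nat_lit 1122) (nat_lit 83) .nil))))))) (.g (nat_lit 5) .nil .nil))) 
(.lf (nat_lit 135843) (.g (nat_lit 3554) (.e (nat_lit 16473) (nat_lit 14) (.e (nat_lit 491535) (nat_lit 2) (.e (nat_lit 90170) (nat_lit 13) (.e (nat_lit 172106) (nat_lit 10) (.e (nat_lit 434202) (nat_lit 18) (.e (nat_lit 4168) (nat_lit 251) (.e (nat_lit 1129) (nat_lit 83) .nil))))))) (.g (nat_lit 4) .nil .nil)))) (.nd (nat_lit 5) 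
(.lf (nat_lit 135827) (.g (nat_lit 3286) (.e (nat_lit 16473) (nat_lit 14) (.e (nat_lit 491526) (nat_lit 0) (.e (nat_lit 1788) (nat_lit 119) (.e (nat_lit 516166) (nat_lit 12) (.e (nat_lit 450567) (nat_lit 0) (.e (nat_lit 4211) (nat_lit 251) (.e (nat_lit 1122) (nat_lit 83) .nil))))))) (.g (nat_lit 4) .nil .nil))) 
(.lf (nat_lit 135859) (.g (nat_lit 3864) (.e (nat_lit 16473) (nat_lit 14) (.e (nat_lit 491535) (nat_lit 2) (.e (nat_lit 90170) (nat_lit 13) (.e (nat_lit 172106) (nat_lit 10) (.e (nat_lit 434202) (nat_lit 18) (.e (nat_lit 4202) (nat_lit 251) (.e (nat_lit 1125) (nat_lit 83) .nil))))))) (.g (nat_lit 4) .nil .nil))))) (.nd (nat_lit 4) (.nd (nat_lit 5) 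
(.lf (nat_lit 135819) (.g (nat_lit 4291) (.e (nat_lit 16473) (nat_lit 14) (.e (nat_lit 491526) (nat_lit 0) (.e (nat_lit 1788) (nat_lit 119) (.e (nat_lit 516166) (nat_lit 12) (.e (nat_lit 450563) (nat_lit 0) (.e (nat_lit 4203) (nat_lit 251) (.e (nat_lit 1127) (nat_lit 83) .nil))))))) (.g (nat_lit 5) .nil .nil))) 
(.lf (nat_lit 135851) (.g (nat_lit 3045) (.e (nat_lit 16473) (nat_lit 14) (.e (nat_lit 491535) (nat_lit 2) (.e (nat_lit 90170) (nat_lit 13) (.e (nat_lit 172106) (nat_lit 10) (.e (nat_lit 434202) (nat_lit 18) (.e (nat_lit 4178) (nat_lit 251) (.e (nat_lit 1123) (nat_lit 83) .nil))))))) (.g (nat_lit 4) .nil .nil)))) (.nd (nat_lit 5) 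
(.lf (nat_lit 135835) (.g (nat_lit 3813) (.e (nat_lit 16473) (nat_lit 14) (.e (nat_lit 491526) (nat_lit 0) (.e (nat_lit 2270) (nat_lit 149) (.e (nat_lit 761906) (nat_lit 16) (.e (nat_lit 172097) (nat_lit 9) (.e (nat_lit 426025) (nat_lit 0) (.e (nat_lit 3529) (nat_lit 218) (.e (nat_lit 704741) (nat_lit 11) .nil)))))))) (.g (nat_lit 4) .nil .nil))) 
(.lf (nat_lit 135867) (.g (nat_lit 3218) (.e (nat_lit 16473) (nat_lit 14) (.e (nat_lit 491535) (nat_lit 2) (.e (nat_lit 90170) (nat_lit 13) (.e (nat_lit 172106) (nat_lit 10) (.e (nat_lit 434209) (nat_lit 18) (.e (nat_lit 4213) (nat_lit 251) (.e (nat_lit 1122) (nat_lit 83) .nil))))))) (.g (nat_lit 4) .nil .nil)))))) (.nd (nat_lit 3) (.nd (nat_lit 4) (.nd (nat_lit 5) 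
(.lf (nat_lit 135815) (.g (nat_lit 4454) (.e (nat_lit 16473) (nat_lit 14) (.e (nat_lit 491526) (nat_lit 0) (.e (nat_lit 1788) (nat_lit 119) (.e (nat_lit 516166) (nat_lit 12) (.e (nat_lit 450563) (nat_lit 0) (.e (nat_lit 4202) (nat_lit 251) (.e (nat_lit 1125) (nat_lit 83) .nil))))))) (.g (nat_lit 5) .nil .nil))) 
(.lf (nat_lit 135847) (.g (nat_lit 3467) (.e (nat_lit 16473) (nat_lit 14) (.e (nat_lit 491535) (nat_lit 2) (.e (nat_lit 90170) (nat_lit 13) (.e (nat_lit 172106) (nat_lit 10) (.e (nat_lit 434202) (nat_lit 18) (.e (nat_lit 4176) (nat_lit 251) (.e (nat_lit 1130) (nat_lit 83) .nil))))))) (.g (nat_lit 4) .nil .nil)))) (.nd (nat_lit 5) 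
(.lf (nat_lit 135831) (.g (nat_lit 4106) (.e (nat_lit 16473) (nat_lit 14) (.e (nat_lit 491526) (nat_lit 0) (.e (nat_lit 1788) (nat_lit 119) (.e (nat_lit 516166) (nat_lit 12) (.e (nat_lit 450588) (nat_lit 10) (.e (nat_lit 581376) (nat_lit 11) .nil)))))) (.g (nat_lit 5) .nil .nil))) 
(.lf (nat_lit 135863) (.g (nat_lit 3376) (.e (nat_lit 16473) (nat_lit 14) (.e (nat_lit 491535) (nat_lit 2) (.e (nat_lit 90170) (nat_lit 13) (.e (nat_lit 172106) (nat_lit 10) (.e (nat_lit 434209) (nat_lit 18) (.e (nat_lit 4194) (nat_lit 251) (.e (nat_lit 1122) (nat_lit 83) .nil))))))) (.g (nat_lit 4) .nil .nil))))) (.nd (nat_lit 4) (.nd (nat_lit 5) 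
(.lf (nat_lit 135823) (.g (nat_lit 4313) (.e (nat_lit 16473) (nat_lit 14) (.e (nat_lit 491526) (nat_lit 0) (.e (nat_lit 1788) (nat_lit 119) (.e (nat_lit 516166) (nat_lit 12) (.e (nat_lit 450563) (nat_lit 0) (.e (nat_lit 4212) (nat_lit 251) (.e (nat_lit 1122) (nat_lit 83) .nil))))))) (.g (nat_lit 5) .nil .nil))) 
(.lf (nat_lit 135855) (.g (nat_lit 3611) (.e (nat_lit 16473) (nat_lit 14) (.e (nat_lit 491535) (nat_lit 2) (.e (nat_lit 90170) (nat_lit 13) (.e (nat_lit 172106) (nat_lit 10) (.e (nat_lit 434202) (nat_lit 18) (.e (nat_lit 4181) (nat_lit 251) (.e (nat_lit 1131) (nat_lit 83) .nil))))))) (.g (nat_lit 4) .nil .nil)))) (.nd (nat_lit 5) 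
(.lf (nat_lit 135839) (.g (nat_lit 2960) (.e (nat_lit 16473) (nat_lit 14) (.e (nat_lit 491535) (nat_lit 2) (.e (nat_lit 90170) (nat_lit 13) (.e (nat_lit 172106) (nat_lit 10) (.e (nat_lit 434202) (nat_lit 18) (.e (nat_lit 4168) (nat_lit 251) (.e (nat_lit 1122) (nat_lit 83) .nil))))))) (.g (nat_lit 4) .nil .nil))) 
(.lf (nat_lit 135871) (.g (nat_lit 4217) (.e (nat_lit 16473) (nat_lit 14) (.e (nat_lit 491535) (nat_lit 2) (.e (nat_lit 90170) (nat_lit 13) (.e (nat_lit 172106) (nat_lit 10) (.e (nat_lit 434209) (nat_lit 18) (.e (nat_lit 4216) (nat_lit 251) (.e (nat_lit 1126) (nat_lit 83) .nil))))))) (.g (nat_lit 5) .nil .nil)))))))))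

noncomputable def tv1808 : DT := (.nd (nat_lit 0) (.nd (nat_lit 1) (.nd (nat_lit 2) (.nd (nat_lit 3) (.nd (nat_lit 4) (.nd (nat_lit 5) 
(.lf (nat_lit 135872) (.g (nat_lit 2994) (.e (nat_lit 16473) (nat_lit 14) (.e (nat_lit 491535) (nat_lit 2) (.e (nat_lit 90170) (nat_lit 13) (.e (nat_lit 172106) (nat_lit 10) (.e (nat_lit 434244) (nat_lit 28) (.e (nat_lit 581376) (nat_lit 11) .nil)))))) (.g (nat_lit 5) .nil .nil))) 
(.lf (nat_lit 135904) (.g (nat_lit 3441) (.e (nat_lit 16473) (nat_lit 14) (.e (nat_lit 491538) (nat_lit 3) (.e (nat_lit 98365) (nat_lit 26) (.e (nat_lit 426298) (nat_lit 11) (.e (nat_lit 458774) (nat_lit 18) (.e (nat_lit 4194) (nat_lit 251) (.e (nat_lit 1122) (nat_lit 83) .nil))))))) (.g (nat_lit 5) .nil .nil)))) (.nd (nat_lit 5) 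
(.lf (nat_lit 135888) (.g (nat_lit 3687) (.e (nat_lit 16473) (nat_lit 14) (.e (nat_lit 491535) (nat_lit 2) (.e (nat_lit 90176) (nat_lit 15) (.e (nat_lit 188444) (nat_lit 21) (.e (nat_lit 164118) (nat_lit 128) (.e (nat_lit 1131) (nat_lit 83) .nil)))))) (.g (nat_lit 4) .nil .nil))) 
(.lf (nat_lit 135920) (.g (nat_lit 3040) (.e (nat_lit 16473) (nat_lit 14) (.e (nat_lit 491538) (nat_lit 3) (.e (nat_lit 98373) (nat_lit 29) (.e (nat_lit 450563) (nat_lit 0) (.e (nat_lit 4176) (nat_lit 251) .nil))))) .nil)))) (.nd (nat_lit 4) (.nd (nat_lit 5) 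
(.lf (nat_lit 135880) (.g (nat_lit 3203) (.e (nat_lit 16473) (nat_lit 14) (.e (nat_lit 491535) (nat_lit 2) (.e (nat_lit 90176) (nat_lit 15) (.e (nat_lit 188439) (nat_lit 20) (.e (nat_lit 2422) (nat_lit 157) (.e (nat_lit 4174) (nat_lit 251) (.e (nat_lit 1130) (nat_lit 83) .nil))))))) (.g (nat_lit 4) .nil .nil))) 
(.lf (nat_lit 135912) (.g (nat_lit 3064) (.e (nat_lit 16473) (nat_lit 14) (.e (nat_lit 491538) (nat_lit 3) (.e (nat_lit 98372) (nat_lit 29) (.e (nat_lit 450588) (nat_lit 10) (.e (nat_lit 581376) (nat_lit 11) .nil))))) .nil))) (.nd (nat_lit 5) 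
(.lf (nat_lit 135896) (.g (nat_lit 2345) (.e (nat_lit 16473) (nat_lit 14) (.e (nat_lit 491536) (nat_lit 2) (.e (nat_lit 90170) (nat_lit 13) (.e (nat_lit 172106) (nat_lit 10) (.e (nat_lit 434202) (nat_lit 18) (.e (nat_lit 4203) (nat_lit 251) (.e (nat_lit 1127) (nat_lit 83) .nil))))))) (.g (nat_lit 4) .nil .nil))) 
(.lf (nat_lit 135928) (.g (nat_lit 3066) (.e (nat_lit 16473) (nat_lit 14) (.e (nat_lit 491538) (nat_lit 3) (.e (nat_lit 98373) (nat_lit 29) (.e (nat_lit 450563) (nat_lit 0) (.e (nat_lit 4202) (nat_lit 251) .nil))))) .nil))))) (.nd (nat_lit 3) (.nd (nat_lit 4) (.nd (nat_lit 5) 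
(.lf (nat_lit 135876) (.g (nat_lit 2921) (.e (nat_lit 16473) (nat_lit 14) (.e (nat_lit 491535) (nat_lit 2) (.e (nat_lit 90170) (nat_lit 13) (.e (nat_lit 172113) (nat_lit 10) (.e (nat_lit 434245) (nat_lit 28) (.e (nat_lit 581376) (nat_lit 11) .nil)))))) (.g (nat_lit 5) .nil .nil))) 
(.lf (nat_lit 135908) (.g (nat_lit 3510) (.e (nat_lit 16473) (nat_lit 14) (.e (nat_lit 491538) (nat_lit 3) (.e (nat_lit 98370) (nat_lit 28) (.e (nat_lit 442430) (nat_lit 24) (.e (nat_lit 229522) (nat_lit 128) (.e (nat_lit 1122) (nat_lit 83) .nil)))))) (.g (nat_lit 4) .nil .nil)))) (.nd (nat_lit 5) 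
(.lf (nat_lit 135892) (.g (nat_lit 1927) (.e (nat_lit 16473) (nat_lit 14) (.e (nat_lit 491535) (nat_lit 2) (.e (nat_lit 90178) (nat_lit 15) (.e (nat_lit 188440) (nat_lit 20) (.e (nat_lit 2448) (nat_lit 157) .nil))))) .nil)) 
(.lf (nat_lit 135924) (.g (nat_lit 3320) (.e (nat_lit 16473) (nat_lit 14) (.e (nat_lit 491538) (nat_lit 3) (.e (nat_lit 98373) (nat_lit 29) (.e (nat_lit 450563) (nat_lit 0) (.e (nat_lit 4178) (nat_lit 251) (.e (nat_lit 1130) (nat_lit 83) .nil)))))) (.g (nat_lit 4) .nil .nil))))) (.nd (nat_lit 4) (.nd (nat_lit 5) 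
(.lf (nat_lit 135884) (.g (nat_lit 2890) (.e (nat_lit 16473) (nat_lit 14) (.e (nat_lit 491535) (nat_lit 2) (.e (nat_lit 90176) (nat_lit 15) (.e (nat_lit 188439) (nat_lit 20) (.e (nat_lit 2422) (nat_lit 157) (.e (nat_lit 4208) (nat_lit 251) (.e (nat_lit 1122) (nat_lit 83) .nil))))))) (.g (nat_lit 4) .nil .nil))) 
(.lf (nat_lit 135916) (.g (nat_lit 2948) (.e (nat_lit 16473) (nat_lit 14) (.e (nat_lit 491538) (nat_lit 3) (.e (nat_lit 98373) (nat_lit 29) (.e (nat_lit 450562) (nat_lit 0) (.e (nat_lit 4244) (nat_lit 251) .nil))))) .nil))) (.nd (nat_lit 5) 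
(.lf (nat_lit 135900) (.g (nat_lit 1061) (.e (nat_lit 16473) (nat_lit 14) (.e (nat_lit 491536) (nat_lit 2) (.e (nat_lit 90178) (nat_lit 15) (.e (nat_lit 188440) (nat_lit 20) .nil)))) .nil)) 
(.lf (nat_lit 135932) (.g (nat_lit 1906) (.e (nat_lit 16473) (nat_lit 14) (.e (nat_lit 491538) (nat_lit 3) (.e (nat_lit 98373) (nat_lit 29) (.e (nat_lit 450586) (nat_lit 10) (.e (nat_lit 573470) (nat_lit 11) .nil))))) (.g (nat_lit 4) .nil .nil))))))) (.nd (nat_lit 2) (.nd (nat_lit 3) (.nd (nat_lit 4) (.nd (nat_lit 5) 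
(.lf (nat_lit 135874) (.g (nat_lit 4006) (.e (nat_lit 16473) (nat_lit 14) (.e (nat_lit 491535) (nat_lit 2) (.e (nat_lit 90170) (nat_lit 13) (.e (nat_lit 172106) (nat_lit 10) (.e (nat_lit 434250) (nat_lit 29) (.e (nat_lit 581665) (nat_lit 11) .nil)))))) (.g (nat_lit 4) .nil .nil))) 
(.lf (nat_lit 135906) (.g (nat_lit 2997) (.e (nat_lit 16473) (nat_lit 14) (.e (nat_lit 491538) (nat_lit 3) (.e (nat_lit 98365) (nat_lit 26) (.e (nat_lit 426298) (nat_lit 11) (.e (nat_lit 458796) (nat_lit 29) (.e (nat_lit 581665) (nat_lit 11) .nil)))))) (.g (nat_lit 4) .nil .nil)))) (.nd (nat_lit 5) 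
(.lf (nat_lit 135890) (.g (nat_lit 3477) (.e (nat_lit 16473) (nat_lit 14) (.e (nat_lit 491535) (nat_lit 2) (.e (nat_lit 90176) (nat_lit 15) (.e (nat_lit 188446) (nat_lit 21) (.e (nat_lit 164122) (nat_lit 128) (.e (nat_lit 1126) (nat_lit 83) .nil)))))) (.g (nat_lit 4) .nil .nil))) 
(.lf (nat_lit 135922) (.g (nat_lit 3093) (.e (nat_lit 16473) (nat_lit 14) (.e (nat_lit 491538) (nat_lit 3) (.e (nat_lit 98373) (nat_lit 29) (.e (nat_lit 450563) (nat_lit 0) (.e (nat_lit 4177) (nat_lit 251) (.e (nat_lit 1130) (nat_lit 83) .nil)))))) (.g (nat_lit 4) .nil .nil))))) (.nd (nat_lit 4) (.nd (nat_lit 5) 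
(.lf (nat_lit 135882) (.g (nat_lit 3369) (.e (nat_lit 16473) (nat_lit 14) (.e (nat_lit 491535) (nat_lit 2) (.e (nat_lit 90176) (nat_lit 15) (.e (nat_lit 188439) (nat_lit 20) (.e (nat_lit 2422) (nat_lit 157) (.e (nat_lit 4203) (nat_lit 251) (.e (nat_lit 1125) (nat_lit 83) .nil))))))) (.g (nat_lit 4) .nil .nil))) 
(.lf (nat_lit 135914) (.g (nat_lit 3689) (.e (nat_lit 16473) (nat_lit 14) (.e (nat_lit 491538) (nat_lit 3) (.e (nat_lit 98373) (nat_lit 29) (.e (nat_lit 450562) (nat_lit 0) (.e (nat_lit 4177) (nat_lit 251) (.e (nat_lit 1130) (nat_lit 83) .nil)))))) (.g (nat_lit 4) .nil .nil)))) (.nd (nat_lit 5) 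
(.lf (nat_lit 135898) (.g (nat_lit 3266) (.e (nat_lit 16473) (nat_lit 14) (.e (nat_lit 491536) (nat_lit 2) (.e (nat_lit 90170) (nat_lit 13) (.e (nat_lit 172106) (nat_lit 10) (.e (nat_lit 434209) (nat_lit 18) (.e (nat_lit 4214) (nat_lit 251) (.e (nat_lit 1127) (nat_lit 83) .nil))))))) (.g (nat_lit 4) .nil .nil))) 
(.lf (nat_lit 135930) (.g (nat_lit 3066) (.e (nat_lit 16473) (nat_lit 14) (.e (nat_lit 491538) (nat_lit 3) (.e (nat_lit 98373) (nat_lit 29) (.e (nat_lit 450563) (nat_lit 0) (.e (nat_lit 4244) (nat_lit 251) .nil))))) .nil))))) (.nd (nat_lit 3) (.nd (nat_lit 4) (.nd (nat_lit 5) 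
(.lf (nat_lit 135878) (.g (nat_lit 260) (.e (nat_lit 16473) (nat_lit 14) (.e (nat_lit 491535) (nat_lit 2) (.e (nat_lit 90176) (nat_lit 15) .nil))) .nil)) 
(.lf (nat_lit 135910) (.g (nat_lit 3058) (.e (nat_lit 16473) (nat_lit 14) (.e (nat_lit 491538) (nat_lit 3) (.e (nat_lit 98370) (nat_lit 28) (.e (nat_lit 442430) (nat_lit 24) (.e (nat_lit 229525) (nat_lit 128) (.e (nat_lit 1127) (nat_lit 83) .nil)))))) (.g (nat_lit 4) .nil .nil)))) (.nd (nat_lit 5) 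
(.lf (nat_lit 135894) (.g (nat_lit 3580) (.e (nat_lit 16473) (nat_lit 14) (.e (nat_lit 491535) (nat_lit 2) (.e (nat_lit 90185) (nat_lit 17) (.e (nat_lit 237605) (nat_lit 9) (.e (nat_lit 426112) (nat_lit 1) (.e (nat_lit 164119) (nat_lit 128) (.e (nat_lit 1126) (nat_lit 83) .nil))))))) (.g (nat_lit 5) .nil .nil))) 
(.lf (nat_lit 135926) (.g (nat_lit 2996) (.e (nat_lit 16473) (nat_lit 14) (.e (nat_lit 491538) (nat_lit 3) (.e (nat_lit 98373) (nat_lit 29) (.e (nat_lit 450563) (nat_lit 0) (.e (nat_lit 4198) (nat_lit 251) .nil))))) .nil)))) (.nd (nat_lit 4) (.nd (nat_lit 5) 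
(.lf (nat_lit 135886) (.g (nat_lit 1975) (.e (nat_lit 16473) (nat_lit 14) (.e (nat_lit 491535) (nat_lit 2) (.e (nat_lit 90176) (nat_lit 15) (.e (nat_lit 188440) (nat_lit 20) (.e (nat_lit 3307) (nat_lit 202) .nil))))) .nil)) 
(.lf (nat_lit 135918) (.g (nat_lit 3090) (.e (nat_lit 16473) (nat_lit 14) (.e (nat_lit 491538) (nat_lit 3) (.e (nat_lit 98373) (nat_lit 29) (.e (nat_lit 450563) (nat_lit 0) (.e (nat_lit 4174) (nat_lit 251) (.e (nat_lit 1130) (nat_lit 83) .nil)))))) (.g (nat_lit 4) .nil .nil)))) (.nd (nat_lit 5) 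
(.lf (nat_lit 135902) (.g (nat_lit 1386) (.e (nat_lit 16473) (nat_lit 14) (.e (nat_lit 491536) (nat_lit 2) (.e (nat_lit 90185) (nat_lit 17) (.e (nat_lit 237605) (nat_lit 9) .nil)))) .nil)) 
(.lf (nat_lit 135934) (.g (nat_lit 2542) (.e (nat_lit 16473) (nat_lit 14) (.e (nat_lit 491538) (nat_lit 3) (.e (nat_lit 98373) (nat_lit 29) (.e (nat_lit 450587) (nat_lit 10) (.e (nat_lit 581376) (nat_lit 11) .nil))))) .nil))))))) (.nd (nat_lit 1) (.nd (nat_lit 2) (.nd (nat_lit 3) (.nd (nat_lit 4) (.nd (nat_lit 5) 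
(.lf (nat_lit 135873) (.g (nat_lit 3160) (.e (nat_lit 16473) (nat_lit 14) (.e (nat_lit 491535) (nat_lit 2) (.e (nat_lit 90170) (nat_lit 13) (.e (nat_lit 172106) (nat_lit 10) (.e (nat_lit 434249) (nat_lit 29) (.e (nat_lit 581665) (nat_lit 11) .nil)))))) (.g (nat_lit 4) .nil .nil))) 
(.lf (nat_lit 135905) (.g (nat_lit 3395) (.e (nat_lit 16473) (nat_lit 14) (.e (nat_lit 491538) (nat_lit 3) (.e (nat_lit 98365) (nat_lit 26) (.e (nat_lit 426298) (nat_lit 11) (.e (nat_lit 458774) (nat_lit 18) (.e (nat_lit 4194) (nat_lit 251) (.e (nat_lit 1126) (nat_lit 83) .nil))))))) (.g (nat_lit 5) .nil .nil)))) (.nd (nat_lit 5) 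
(.lf (nat_lit 135889) (.g (nat_lit 3453) (.e (nat_lit 16473) (nat_lit 14) (.e (nat_lit 491535) (nat_lit 2) (.e (nat_lit 90176) (nat_lit 15) (.e (nat_lit 188444) (nat_lit 21) (.e (nat_lit 164120) (nat_lit 128) (.e (nat_lit 1126) (nat_lit 83) .nil)))))) (.g (nat_lit 4) .nil .nil))) 
(.lf (nat_lit 135921) (.g (nat_lit 3099) (.e (nat_lit 16473) (nat_lit 14) (.e (nat_lit 491538) (nat_lit 3) (.e (nat_lit 98373) (nat_lit 29) (.e (nat_lit 450563) (nat_lit 0) (.e (nat_lit 4176) (nat_lit 251) (.e (nat_lit 1130) (nat_lit 83) .nil)))))) (.g (nat_lit 4) .nil .nil))))) (.nd (nat_lit 4) (.nd (nat_lit 5) 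
(.lf (nat_lit 135881) (.g (nat_lit 2910) (.e (nat_lit 16473) (nat_lit 14) (.e (nat_lit 491535) (nat_lit 2) (.e (nat_lit 90176) (nat_lit 15) (.e (nat_lit 188439) (nat_lit 20) (.e (nat_lit 2422) (nat_lit 157) (.e (nat_lit 4195) (nat_lit 251) (.e (nat_lit 1122) (nat_lit 83) .nil))))))) (.g (nat_lit 4) .nil .nil))) 
(.lf (nat_lit 135913) (.g (nat_lit 3074) (.e (nat_lit 16473) (nat_lit 14) (.e (nat_lit 491538) (nat_lit 3) (.e (nat_lit 98373) (nat_lit 29) (.e (nat_lit 450562) (nat_lit 0) (.e (nat_lit 4174) (nat_lit 251) (.e (nat_lit 1130) (nat_lit 83) .nil)))))) (.g (nat_lit 4) .nil .nil)))) (.nd (nat_lit 5) 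
(.lf (nat_lit 135897) (.g (nat_lit 3284) (.e (nat_lit 16473) (nat_lit 14) (.e (nat_lit 491536) (nat_lit 2) (.e (nat_lit 90170) (nat_lit 13) (.e (nat_lit 172106) (nat_lit 10) (.e (nat_lit 434209) (nat_lit 18) (.e (nat_lit 4214) (nat_lit 251) (.e (nat_lit 1126) (nat_lit 83) .nil))))))) (.g (nat_lit 4) .nil .nil))) 
(.lf (nat_lit 135929) (.g (nat_lit 3073) (.e (nat_lit 16473) (nat_lit 14) (.e (nat_lit 491538) (nat_lit 3) (.e (nat_lit 98373) (nat_lit 29) (.e (nat_lit 450563) (nat_lit 0) (.e (nat_lit 4212) (nat_lit 251) .nil))))) .nil))))) (.nd (nat_lit 3) (.nd (nat_lit 4) (.nd (nat_lit 5) 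
(.lf (nat_lit 135877) (.g (nat_lit 3131) (.e (nat_lit 16473) (nat_lit 14) (.e (nat_lit 491535) (nat_lit 2) (.e (nat_lit 90170) (nat_lit 13) (.e (nat_lit 172113) (nat_lit 10) (.e (nat_lit 434248) (nat_lit 28) (.e (nat_lit 581376) (nat_lit 11) .nil)))))) (.g (nat_lit 5) .nil .nil))) 
(.lf (nat_lit 135909) (.g (nat_lit 3554) (.e (nat_lit 16473) (nat_lit 14) (.e (nat_lit 491538) (nat_lit 3) (.e (nat_lit 98370) (nat_lit 28) (.e (nat_lit 442430) (nat_lit 24) (.e (nat_lit 229522) (nat_lit 128) (.e (nat_lit 1123) (nat_lit 83) .nil)))))) (.g (nat_lit 4) .nil .nil)))) (.nd (nat_lit 5) 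
(.lf (nat_lit 135893) (.g (nat_lit 1248) (.e (nat_lit 16473) (nat_lit 14) (.e (nat_lit 491535) (nat_lit 2) (.e (nat_lit 90185) (nat_lit 17) (.e (nat_lit 237605) (nat_lit 9) .nil)))) .nil)) 
(.lf (nat_lit 135925) (.g (nat_lit 3912) (.e (nat_lit 16473) (nat_lit 14) (.e (nat_lit 491538) (nat_lit 3) (.e (nat_lit 98373) (nat_lit 29) (.e (nat_lit 450563) (nat_lit 0) (.e (nat_lit 4181) (nat_lit 251) (.e (nat_lit 1131) (nat_lit 83) .nil)))))) (.g (nat_lit 4) .nil .nil))))) (.nd (nat_lit 4) (.nd (nat_lit 5) 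
(.lf (nat_lit 135885) (.g (nat_lit 2921) (.e (nat_lit 16473) (nat_lit 14) (.e (nat_lit 491535) (nat_lit 2) (.e (nat_lit 90176) (nat_lit 15) (.e (nat_lit 188439) (nat_lit 20) (.e (nat_lit 2422) (nat_lit 157) (.e (nat_lit 4218) (nat_lit 251) (.e (nat_lit 1122) (nat_lit 83) .nil))))))) (.g (nat_lit 4) .nil .nil))) 
(.lf (nat_lit 135917) (.g (nat_lit 3179) (.e (nat_lit 16473) (nat_lit 14) (.e (nat_lit 491538) (nat_lit 3) (.e (nat_lit 98373) (nat_lit 29) (.e (nat_lit 450563) (nat_lit 0) (.e (nat_lit 4168) (nat_lit 251) (.e (nat_lit 1130) (nat_lit 83) .nil)))))) (.g (nat_lit 4) .nil .nil)))) (.nd (nat_lit 5) 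
(.lf (nat_lit 135901) (.g (nat_lit 1974) (.e (nat_lit 16473) (nat_lit 14) (.e (nat_lit 491536) (nat_lit 2) (.e (nat_lit 90178) (nat_lit 15) (.e (nat_lit 188440) (nat_lit 20) (.e (nat_lit 2448) (nat_lit 157) .nil))))) .nil)) 
(.lf (nat_lit 135933) (.g (nat_lit 2337) (.e (nat_lit 16473) (nat_lit 14) (.e (nat_lit 491538) (nat_lit 3) (.e (nat_lit 98373) (nat_lit 29) (.e (nat_lit 450586) (nat_lit 10) (.e (nat_lit 573471) (nat_lit 11) .nil))))) (.g (nat_lit 4) .nil .nil))))))) (.nd (nat_lit 2) (.nd (nat_lit 3) (.nd (nat_lit 4) (.nd (nat_lit 5) 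
(.lf (nat_lit 135875) (.g (nat_lit 3377) (.e (nat_lit 16473) (nat_lit 14) (.e (nat_lit 491535) (nat_lit 2) (.e (nat_lit 90170) (nat_lit 13) (.e (nat_lit 172113) (nat_lit 10) (.e (nat_lit 434208) (nat_lit 18) (.e (nat_lit 4175) (nat_lit 251) (.e (nat_lit 1132) (nat_lit 83) .nil))))))) (.g (nat_lit 4) .nil .nil))) 
(.lf (nat_lit 135907) (.g (nat_lit 3631) (.e (nat_lit 16473) (nat_lit 14) (.e (nat_lit 491538) (nat_lit 3) (.e (nat_lit 98370) (nat_lit 28) (.e (nat_lit 442421) (nat_lit 21) (.e (nat_lit 164122) (nat_lit 128) (.e (nat_lit 1126) (nat_lit 83) .nil)))))) (.g (nat_lit 4) .nil .nil)))) (.nd (nat_lit 5) 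
(.lf (nat_lit 135891) (.g (nat_lit 3408) (.e (nat_lit 16473) (nat_lit 14) (.e (nat_lit 491535) (nat_lit 2) (.e (nat_lit 90176) (nat_lit 15) (.e (nat_lit 188453) (nat_lit 24) (.e (nat_lit 229524) (nat_lit 128) (.e (nat_lit 1122) (nat_lit 83) .nil)))))) (.g (nat_lit 4) .nil .nil))) 
(.lf (nat_lit 135923) (.g (nat_lit 3024) (.e (nat_lit 16473) (nat_lit 14) (.e (nat_lit 491538) (nat_lit 3) (.e (nat_lit 98373) (nat_lit 29) (.e (nat_lit 450563) (nat_lit 0) (.e (nat_lit 4178) (nat_lit 251) .nil))))) .nil)))) (.nd (nat_lit 4) (.nd (nat_lit 5) 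
(.lf (nat_lit 135883) (.g (nat_lit 2939) (.e (nat_lit 16473) (nat_lit 14) (.e (nat_lit 491535) (nat_lit 2) (.e (nat_lit 90176) (nat_lit 15) (.e (nat_lit 188439) (nat_lit 20) (.e (nat_lit 2422) (nat_lit 157) (.e (nat_lit 4206) (nat_lit 251) (.e (nat_lit 1122) (nat_lit 83) .nil))))))) (.g (nat_lit 4) .nil .nil))) 
(.lf (nat_lit 135915) (.g (nat_lit 4310) (.e (nat_lit 16473) (nat_lit 14) (.e (nat_lit 491538) (nat_lit 3) (.e (nat_lit 98373) (nat_lit 29) (.e (nat_lit 450562) (nat_lit 0) (.e (nat_lit 4186) (nat_lit 251) (.e (nat_lit 1124) (nat_lit 83) .nil)))))) (.g (nat_lit 4) .nil .nil)))) (.nd (nat_lit 5) 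
(.lf (nat_lit 135899) (.g (nat_lit 3881) (.e (nat_lit 16473) (nat_lit 14) (.e (nat_lit 491536) (nat_lit 2) (.e (nat_lit 90170) (nat_lit 13) (.e (nat_lit 172106) (nat_lit 10) (.e (nat_lit 434244) (nat_lit 28) (.e (nat_lit 573469) (nat_lit 11) .nil)))))) (.g (nat_lit 0) .nil .nil))) 
(.lf (nat_lit 135931) (.g (nat_lit 2161) (.e (nat_lit 16473) (nat_lit 14) (.e (nat_lit 491538) (nat_lit 3) (.e (nat_lit 98373) (nat_lit 29) (.e (nat_lit 450569) (nat_lit 0) (.e (nat_lit 4215) (nat_lit 251) .nil))))) .nil))))) (.nd (nat_lit 3) (.nd (nat_lit 4) (.nd (nat_lit 5) 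
(.lf (nat_lit 135879) (.g (nat_lit 1164) (.e (nat_lit 16473) (nat_lit 14) (.e (nat_lit 491535) (nat_lit 2) (.e (nat_lit 90176) (nat_lit 15) (.e (nat_lit 188424) (nat_lit 20) .nil)))) .nil)) 
(.lf (nat_lit 135911) (.g (nat_lit 1945) (.e (nat_lit 16473) (nat_lit 14) (.e (nat_lit 491538) (nat_lit 3) (.e (nat_lit 98372) (nat_lit 29) (.e (nat_lit 450586) (nat_lit 10) (.e (nat_lit 581376) (nat_lit 11) .nil))))) (.g (nat_lit 4) .nil .nil)))) (.nd (nat_lit 5) 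
(.lf (nat_lit 135895) (.g (nat_lit 1737) (.e (nat_lit 16473) (nat_lit 14) (.e (nat_lit 491536) (nat_lit 2) (.e (nat_lit 90170) (nat_lit 13) (.e (nat_lit 172106) (nat_lit 10) (.e (nat_lit 434202) (nat_lit 18) .nil))))) .nil)) 
(.lf (nat_lit 135927) (.g (nat_lit 3007) (.e (nat_lit 16473) (nat_lit 14) (.e (nat_lit 491538) (nat_lit 3) (.e (nat_lit 98373) (nat_lit 29) (.e (nat_lit 450563) (nat_lit 0) (.e (nat_lit 4200) (nat_lit 251) .nil))))) .nil)))) (.nd (nat_lit 4) (.nd (nat_lit 5) 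
(.lf (nat_lit 135887) (.g (nat_lit 1289) (.e (nat_lit 16473) (nat_lit 14) (.e (nat_lit 491535) (nat_lit 2) (.e (nat_lit 90176) (nat_lit 15) (.e (nat_lit 188442) (nat_lit 20) .nil)))) .nil)) 
(.lf (nat_lit 135919) (.g (nat_lit 3813) (.e (nat_lit 16473) (nat_lit 14) (.e (nat_lit 491538) (nat_lit 3) (.e (nat_lit 98373) (nat_lit 29) (.e (nat_lit 450563) (nat_lit 0) (.e (nat_lit 4175) (nat_lit 251) (.e (nat_lit 1132) (nat_lit 83) .nil)))))) (.g (nat_lit 4) .nil .nil)))) (.nd (nat_lit 5) 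
(.lf (nat_lit 135903) (.g (nat_lit 2748) (.e (nat_lit 16473) (nat_lit 14) (.e (nat_lit 491538) (nat_lit 3) (.e (nat_lit 98359) (nat_lit 26) (.e (nat_lit 426286) (nat_lit 10) (.e (nat_lit 434245) (nat_lit 28) (.e (nat_lit 581376) (nat_lit 11) .nil)))))) (.g (nat_lit 5) .nil .nil))) 
(.lf (nat_lit 135935) (.g (nat_lit 4263) (.e (nat_lit 16473) (nat_lit 14) (.e (nat_lit 491538) (nat_lit 3) (.e (nat_lit 98373) (nat_lit 29) (.e (nat_lit 450588) (nat_lit 10) (.e (nat_lit 573469) (nat_lit 11) .nil))))) (.g (nat_lit 0) .nil .nil)))))))))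

noncomputable def tv1809 : DT := (.nd (nat_lit 0) (.nd (nat_lit 1) (.nd (nat_lit 2) (.nd (nat_lit 3) (.nd (nat_lit 4) (.nd (nat_lit 5) 
(.lf (nat_lit 135936) (.g (nat_lit 3729) (.e (nat_lit 16473) (nat_lit 14) (.e (nat_lit 491538) (nat_lit 3) (.e (nat_lit 98373) (nat_lit 29) (.e (nat_lit 450588) (nat_lit 10) (.e (nat_lit 573470) (nat_lit 11) .nil))))) (.g (nat_lit 0) .nil .nil))) 
(.lf (nat_lit 135968) (.g (nat_lit 3965) (.e (nat_lit 16473) (nat_lit 14) (.e (nat_lit 491539) (nat_lit 3) (.e (nat_lit 98373) (nat_lit 29) (.e (nat_lit 450563) (nat_lit 0) (.e (nat_lit 4212) (nat_lit 251) .nil))))) .nil))) (.nd (nat_lit 5) 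
(.lf (nat_lit 135952) (.g (nat_lit 4172) (.e (nat_lit 16473) (nat_lit 14) (.e (nat_lit 491539) (nat_lit 3) (.e (nat_lit 98373) (nat_lit 29) (.e (nat_lit 450562) (nat_lit 0) (.e (nat_lit 4177) (nat_lit 251) (.e (nat_lit 1130) (nat_lit 83) .nil)))))) (.g (nat_lit 4) .nil .nil))) 
(.lf (nat_lit 135984) (.g (nat_lit 4453) (.e (nat_lit 16473) (nat_lit 14) (.e (nat_lit 491544) (nat_lit 7) (.e (nat_lit 319530) (nat_lit 16) (.e (nat_lit 286759) (nat_lit 12) (.e (nat_lit 385116) (nat_lit 54) (.e (nat_lit 819237) (nat_lit 11) .nil)))))) (.g (nat_lit 5) .nil .nil))))) (.nd (nat_lit 4) (.nd (nat_lit 5) 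
(.lf (nat_lit 135944) (.g (nat_lit 2295) (.e (nat_lit 16473) (nat_lit 14) (.e (nat_lit 491539) (nat_lit 3) (.e (nat_lit 98370) (nat_lit 28) (.e (nat_lit 442430) (nat_lit 24) (.e (nat_lit 229522) (nat_lit 128) .nil))))) .nil)) 
(.lf (nat_lit 135976) (.g (nat_lit 2703) (.e (nat_lit 16473) (nat_lit 14) (.e (nat_lit 491539) (nat_lit 3) (.e (nat_lit 98373) (nat_lit 29) (.e (nat_lit 450569) (nat_lit 0) (.e (nat_lit 4215) (nat_lit 251) .nil))))) .nil))) (.nd (nat_lit 5) 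
(.lf (nat_lit 135960) (.g (nat_lit 3932) (.e (nat_lit 16473) (nat_lit 14) (.e (nat_lit 491539) (nat_lit 3) (.e (nat_lit 98373) (nat_lit 29) (.e (nat_lit 450563) (nat_lit 0) (.e (nat_lit 4176) (nat_lit 251) .nil))))) .nil)) 
(.lf (nat_lit 135992) (.g (nat_lit 3703) (.e (nat_lit 16473) (nat_lit 14) (.e (nat_lit 491544) (nat_lit 7) (.e (nat_lit 319531) (nat_lit 16) (.e (nat_lit 286756) (nat_lit 10) (.e (nat_lit 344088) (nat_lit 18) (.e (nat_lit 5456) (nat_lit 306) (.e (nat_lit 1130) (nat_lit 83) .nil))))))) (.g (nat_lit 4) .nil .nil)))))) (.nd (nat_lit 3) (.nd (nat_lit 4) (.nd (nat_lit 5) 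
(.lf (nat_lit 135940) (.g (nat_lit 3175) (.e (nat_lit 16473) (nat_lit 14) (.e (nat_lit 491538) (nat_lit 3) (.e (nat_lit 98381) (nat_lit 31) (.e (nat_lit 466972) (nat_lit 21) (.e (nat_lit 164117) (nat_lit 128) (.e (nat_lit 1130) (nat_lit 83) .nil)))))) (.g (nat_lit 4) .nil .nil))) 
(.lf (nat_lit 135972) (.g (nat_lit 2909) (.e (nat_lit 16473) (nat_lit 14) (.e (nat_lit 491539) (nat_lit 3) (.e (nat_lit 98373) (nat_lit 29) (.e (nat_lit 450567) (nat_lit 0) (.e (nat_lit 4201) (nat_lit 251) .nil))))) .nil))) (.nd (nat_lit 5) 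
(.lf (nat_lit 135956) (.g (nat_lit 4041) (.e (nat_lit 16473) (nat_lit 14) (.e (nat_lit 491539) (nat_lit 3) (.e (nat_lit 98373) (nat_lit 29) (.e (nat_lit 450562) (nat_lit 0) (.e (nat_lit 4244) (nat_lit 251) .nil))))) .nil)) 
(.lf (nat_lit 135988) (.g (nat_lit 3279) (.e (nat_lit 16473) (nat_lit 14) (.e (nat_lit 491544) (nat_lit 7) (.e (nat_lit 319531) (nat_lit 16) (.e (nat_lit 286756) (nat_lit 10) (.e (nat_lit 344088) (nat_lit 18) (.e (nat_lit 5442) (nat_lit 306) (.e (nat_lit 1130) (nat_lit 83) .nil))))))) (.g (nat_lit 4) .nil .nil))))) (.nd (nat_lit 4) (.nd (nat_lit 5) 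
(.lf (nat_lit 135948) (.g (nat_lit 4041) (.e (nat_lit 16473) (nat_lit 14) (.e (nat_lit 491539) (nat_lit 3) (.e (nat_lit 98373) (nat_lit 29) (.e (nat_lit 450562) (nat_lit 0) (.e (nat_lit 4168) (nat_lit 251) .nil))))) .nil)) 
(.lf (nat_lit 135980) (.g (nat_lit 3463) (.e (nat_lit 16473) (nat_lit 14) (.e (nat_lit 491539) (nat_lit 3) (.e (nat_lit 98373) (nat_lit 29) (.e (nat_lit 450587) (nat_lit 10) (.e (nat_lit 581376) (nat_lit 11) .nil))))) (.g (nat_lit 4) .nil .nil)))) (.nd (nat_lit 5) 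
(.lf (nat_lit 135964) (.g (nat_lit 3930) (.e (nat_lit 16473) (nat_lit 14) (.e (nat_lit 491539) (nat_lit 3) (.e (nat_lit 98373) (nat_lit 29) (.e (nat_lit 450563) (nat_lit 0) (.e (nat_lit 4198) (nat_lit 251) .nil))))) .nil)) 
(.lf (nat_lit 135996) (.g (nat_lit 4339) (.e (nat_lit 16473) (nat_lit 14) (.e (nat_lit 491544) (nat_lit 7) (.e (nat_lit 319531) (nat_lit 16) (.e (nat_lit 286756) (nat_lit 10) (.e (nat_lit 344090) (nat_lit 18) (.e (nat_lit 5429) (nat_lit 306) (.e (nat_lit 1129) (nat_lit 83) .nil))))))) (.g (nat_lit 4) .nil .nil))))))) (.nd (nat_lit 2) (.nd (nat_lit 3) (.nd (nat_lit 4) (.nd (nat_lit 5) 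
(.lf (nat_lit 135938) (.g (nat_lit 3396) (.e (nat_lit 16473) (nat_lit 14) (.e (nat_lit 491538) (nat_lit 3) (.e (nat_lit 98373) (nat_lit 29) (.e (nat_lit 450588) (nat_lit 10) (.e (nat_lit 581376) (nat_lit 11) .nil))))) (.g (nat_lit 4) .nil .nil))) 
(.lf (nat_lit 135970) (.g (nat_lit 2908) (.e (nat_lit 16473) (nat_lit 14) (.e (nat_lit 491539) (nat_lit 3) (.e (nat_lit 98373) (nat_lit 29) (.e (nat_lit 450567) (nat_lit 0) (.e (nat_lit 4184) (nat_lit 251) .nil))))) .nil))) (.nd (nat_lit 5) 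
(.lf (nat_lit 135954) (.g (nat_lit 3971) (.e (nat_lit 16473) (nat_lit 14) (.e (nat_lit 491539) (nat_lit 3) (.e (nat_lit 98373) (nat_lit 29) (.e (nat_lit 450562) (nat_lit 0) (.e (nat_lit 4186) (nat_lit 251) (.e (nat_lit 1123) (nat_lit 83) .nil)))))) (.g (nat_lit 4) .nil .nil))) 
(.lf (nat_lit 135986) (.g (nat_lit 3334) (.e (nat_lit 16473) (nat_lit 14) (.e (nat_lit 491544) (nat_lit 7) (.e (nat_lit 319531) (nat_lit 16) (.e (nat_lit 286756) (nat_lit 10) (.e (nat_lit 344088) (nat_lit 18) (.e (nat_lit 5440) (nat_lit 306) (.e (nat_lit 1122) (nat_lit 83) .nil))))))) (.g (nat_lit 4) .nil .nil))))) (.nd (nat_lit 4) (.nd (nat_lit 5) 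
(.lf (nat_lit 135946) (.g (nat_lit 3511) (.e (nat_lit 16473) (nat_lit 14) (.e (nat_lit 491539) (nat_lit 3) (.e (nat_lit 98372) (nat_lit 29) (.e (nat_lit 450588) (nat_lit 10) (.e (nat_lit 573471) (nat_lit 11) .nil))))) (.g (nat_lit 5) .nil .nil))) 
(.lf (nat_lit 135978) (.g (nat_lit 3621) (.e (nat_lit 16473) (nat_lit 14) (.e (nat_lit 491539) (nat_lit 3) (.e (nat_lit 98373) (nat_lit 29) (.e (nat_lit 450586) (nat_lit 10) (.e (nat_lit 573469) (nat_lit 11) .nil))))) (.g (nat_lit 4) .nil .nil)))) (.nd (nat_lit 5) 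
(.lf (nat_lit 135962) (.g (nat_lit 3916) (.e (nat_lit 16473) (nat_lit 14) (.e (nat_lit 491539) (nat_lit 3) (.e (nat_lit 98373) (nat_lit 29) (.e (nat_lit 450563) (nat_lit 0) (.e (nat_lit 4178) (nat_lit 251) .nil))))) .nil)) 
(.lf (nat_lit 135994) (.g (nat_lit 3821) (.e (nat_lit 16473) (nat_lit 14) (.e (nat_lit 491544) (nat_lit 7) (.e (nat_lit 319531) (nat_lit 16) (.e (nat_lit 286756) (nat_lit 10) (.e (nat_lit 344090) (nat_lit 18) (.e (nat_lit 5429) (nat_lit 306) (.e (nat_lit 1122) (nat_lit 83) .nil))))))) (.g (nat_lit 4) .nil .nil)))))) (.nd (nat_lit 3) (.nd (nat_lit 4) (.nd (nat_lit 5) 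
(.lf (nat_lit 135942) (.g (nat_lit 3123) (.e (nat_lit 16473) (nat_lit 14) (.e (nat_lit 491538) (nat_lit 3) (.e (nat_lit 98381) (nat_lit 31) (.e (nat_lit 466972) (nat_lit 21) (.e (nat_lit 164123) (nat_lit 128) (.e (nat_lit 1122) (nat_lit 83) .nil)))))) (.g (nat_lit 4) .nil .nil))) 
(.lf (nat_lit 135974) (.g (nat_lit 3583) (.e (nat_lit 16473) (nat_lit 14) (.e (nat_lit 491539) (nat_lit 3) (.e (nat_lit 98373) (nat_lit 29) (.e (nat_lit 450567) (nat_lit 0) (.e (nat_lit 4211) (nat_lit 251) (.e (nat_lit 1126) (nat_lit 83) .nil)))))) (.g (nat_lit 4) .nil .nil)))) (.nd (nat_lit 5) 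
(.lf (nat_lit 135958) (.g (nat_lit 3958) (.e (nat_lit 16473) (nat_lit 14) (.e (nat_lit 491539) (nat_lit 3) (.e (nat_lit 98373) (nat_lit 29) (.e (nat_lit 450563) (nat_lit 0) (.e (nat_lit 4174) (nat_lit 251) .nil))))) .nil)) 
(.lf (nat_lit 135990) (.g (nat_lit 3056) (.e (nat_lit 16473) (nat_lit 14) (.e (nat_lit 491544) (nat_lit 7) (.e (nat_lit 319531) (nat_lit 16) (.e (nat_lit 286756) (nat_lit 10) (.e (nat_lit 344088) (nat_lit 18) (.e (nat_lit 5456) (nat_lit 306) (.e (nat_lit 1122) (nat_lit 83) .nil))))))) (.g (nat_lit 4) .nil .nil))))) (.nd (nat_lit 4) (.nd (nat_lit 5) 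
(.lf (nat_lit 135950) (.g (nat_lit 4031) (.e (nat_lit 16473) (nat_lit 14) (.e (nat_lit 491539) (nat_lit 3) (.e (nat_lit 98373) (nat_lit 29) (.e (nat_lit 450562) (nat_lit 0) (.e (nat_lit 4174) (nat_lit 251) .nil))))) .nil)) 
(.lf (nat_lit 135982) (.g (nat_lit 1675) (.e (nat_lit 16473) (nat_lit 14) (.e (nat_lit 491543) (nat_lit 6) (.e (nat_lit 147458) (nat_lit 0) (.e (nat_lit 1558) (nat_lit 110) (.e (nat_lit 352312) (nat_lit 22) (.e (nat_lit 98048) (nat_lit 2) .nil)))))) (.g (nat_lit 5) .nil .nil)))) (.nd (nat_lit 5) 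
(.lf (nat_lit 135966) (.g (nat_lit 3958) (.e (nat_lit 16473) (nat_lit 14) (.e (nat_lit 491539) (nat_lit 3) (.e (nat_lit 98373) (nat_lit 29) (.e (nat_lit 450563) (nat_lit 0) (.e (nat_lit 4202) (nat_lit 251) .nil))))) .nil)) 
(.lf (nat_lit 135998) (.g (nat_lit 3160) (.e (nat_lit 16473) (nat_lit 14) (.e (nat_lit 491544) (nat_lit 7) (.e (nat_lit 319531) (nat_lit 16) (.e (nat_lit 286756) (nat_lit 10) (.e (nat_lit 344090) (nat_lit 18) (.e (nat_lit 5439) (nat_lit 306) (.e (nat_lit 1122) (nat_lit 83) .nil))))))) (.g (nat_lit 4) .nil .nil)))))))) 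
(.nd (nat_lit 1) (.nd (nat_lit 2) (.nd (nat_lit 3) (.nd (nat_lit 4) (.nd (nat_lit 5) 
(.lf (nat_lit 135937) (.g (nat_lit 4156) (.e (nat_lit 16473) (nat_lit 14) (.e (nat_lit 491538) (nat_lit 3) (.e (nat_lit 98373) (nat_lit 29) (.e (nat_lit 450588) (nat_lit 10) (.e (nat_lit 573471) (nat_lit 11) .nil))))) (.g (nat_lit 0) .nil .nil))) 
(.lf (nat_lit 135969) (.g (nat_lit 3958) (.e (nat_lit 16473) (nat_lit 14) (.e (nat_lit 491539) (nat_lit 3) (.e (nat_lit 98373) (nat_lit 29) (.e (nat_lit 450563) (nat_lit 0) (.e (nat_lit 4244) (nat_lit 251) .nil))))) .nil))) (.nd (nat_lit 5) 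
(.lf (nat_lit 135953) (.g (nat_lit 4041) (.e (nat_lit 16473) (nat_lit 14) (.e (nat_lit 491539) (nat_lit 3) (.e (nat_lit 98373) (nat_lit 29) (.e (nat_lit 450562) (nat_lit 0) (.e (nat_lit 4178) (nat_lit 251) .nil))))) .nil)) 
(.lf (nat_lit 135985) (.g (nat_lit 4452) (.e (nat_lit 16473) (nat_lit 14) (.e (nat_lit 491544) (nat_lit 7) (.e (nat_lit 319531) (nat_lit 16) (.e (nat_lit 286748) (nat_lit 9) (.e (nat_lit 336295) (nat_lit 15) (.e (nat_lit 3815) (nat_lit 232) (.e (nat_lit 819237) (nat_lit 11) .nil))))))) (.g (nat_lit 5) .nil .nil))))) (.nd (nat_lit 4) (.nd (nat_lit 5) 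
(.lf (nat_lit 135945) (.g (nat_lit 2295) (.e (nat_lit 16473) (nat_lit 14) (.e (nat_lit 491539) (nat_lit 3) (.e (nat_lit 98370) (nat_lit 28) (.e (nat_lit 442430) (nat_lit 24) (.e (nat_lit 229523) (nat_lit 128) .nil))))) .nil)) 
(.lf (nat_lit 135977) (.g (nat_lit 3110) (.e (nat_lit 16473) (nat_lit 14) (.e (nat_lit 491539) (nat_lit 3) (.e (nat_lit 98373) (nat_lit 29) (.e (nat_lit 450585) (nat_lit 10) (.e (nat_lit 573470) (nat_lit 11) .nil))))) .nil))) (.nd (nat_lit 5) 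
(.lf (nat_lit 135961) (.g (nat_lit 3943) (.e (nat_lit 16473) (nat_lit 14) (.e (nat_lit 491539) (nat_lit 3) (.e (nat_lit 98373) (nat_lit 29) (.e (nat_lit 450563) (nat_lit 0) (.e (nat_lit 4177) (nat_lit 251) .nil))))) .nil)) 
(.lf (nat_lit 135993) (.g (nat_lit 3401) (.e (nat_lit 16473) (nat_lit 14) (.e (nat_lit 491544) (nat_lit 7) (.e (nat_lit 319531) (nat_lit 16) (.e (nat_lit 286756) (nat_lit 10) (.e (nat_lit 344088) (nat_lit 18) (.e (nat_lit 5474) (nat_lit 306) (.e (nat_lit 1122) (nat_lit 83) .nil))))))) (.g (nat_lit 4) .nil .nil)))))) (.nd (nat_lit 3) (.nd (nat_lit 4) (.nd (nat_lit 5) 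
(.lf (nat_lit 135941) (.g (nat_lit 2755) (.e (nat_lit 16473) (nat_lit 14) (.e (nat_lit 491538) (nat_lit 3) (.e (nat_lit 98381) (nat_lit 31) (.e (nat_lit 466972) (nat_lit 21) (.e (nat_lit 164121) (nat_lit 128) (.e (nat_lit 1126) (nat_lit 83) .nil)))))) (.g (nat_lit 4) .nil .nil))) 
(.lf (nat_lit 135973) (.g (nat_lit 3642) (.e (nat_lit 16473) (nat_lit 14) (.e (nat_lit 491539) (nat_lit 3) (.e (nat_lit 98373) (nat_lit 29) (.e (nat_lit 450567) (nat_lit 0) (.e (nat_lit 4211) (nat_lit 251) (.e (nat_lit 1122) (nat_lit 83) .nil)))))) (.g (nat_lit 4) .nil .nil)))) (.nd (nat_lit 5) 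
(.lf (nat_lit 135957) (.g (nat_lit 3905) (.e (nat_lit 16473) (nat_lit 14) (.e (nat_lit 491539) (nat_lit 3) (.e (nat_lit 98373) (nat_lit 29) (.e (nat_lit 450563) (nat_lit 0) (.e (nat_lit 4168) (nat_lit 251) .nil))))) .nil)) 
(.lf (nat_lit 135989) (.g (nat_lit 3271) (.e (nat_lit 16473) (nat_lit 14) (.e (nat_lit 491544) (nat_lit 7) (.e (nat_lit 319531) (nat_lit 16) (.e (nat_lit 286756) (nat_lit 10) (.e (nat_lit 344088) (nat_lit 18) (.e (nat_lit 5455) (nat_lit 306) (.e (nat_lit 1130) (nat_lit 83) .nil))))))) (.g (nat_lit 4) .nil .nil))))) (.nd (nat_lit 4) (.nd (nat_lit 5) 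
(.lf (nat_lit 135949) (.g (nat_lit 4035) (.e (nat_lit 16473) (nat_lit 14) (.e (nat_lit 491539) (nat_lit 3) (.e (nat_lit 98373) (nat_lit 29) (.e (nat_lit 450562) (nat_lit 0) (.e (nat_lit 4173) (nat_lit 251) .nil))))) .nil)) 
(.lf (nat_lit 135981) (.g (nat_lit 4251) (.e (nat_lit 16473) (nat_lit 14) (.e (nat_lit 491539) (nat_lit 3) (.e (nat_lit 98373) (nat_lit 29) (.e (nat_lit 450588) (nat_lit 10) (.e (nat_lit 573471) (nat_lit 11) .nil))))) (.g (nat_lit 0) .nil .nil)))) (.nd (nat_lit 5) 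
(.lf (nat_lit 135965) (.g (nat_lit 3921) (.e (nat_lit 16473) (nat_lit 14) (.e (nat_lit 491539) (nat_lit 3) (.e (nat_lit 98373) (nat_lit 29) (.e (nat_lit 450563) (nat_lit 0) (.e (nat_lit 4200) (nat_lit 251) .nil))))) .nil)) 
(.lf (nat_lit 135997) (.g (nat_lit 4198) (.e (nat_lit 16473) (nat_lit 14) (.e (nat_lit 491544) (nat_lit 7) (.e (nat_lit 319531) (nat_lit 16) (.e (nat_lit 286756) (nat_lit 10) (.e (nat_lit 344090) (nat_lit 18) (.e (nat_lit 5429) (nat_lit 306) (.e (nat_lit 1130) (nat_lit 83) .nil))))))) (.g (nat_lit 4) .nil .nil))))))) (.nd (nat_lit 2) (.nd (nat_lit 3) (.nd (nat_lit 4) (.nd (nat_lit 5) 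
(.lf (nat_lit 135939) (.g (nat_lit 2935) (.e (nat_lit 16473) (nat_lit 14) (.e (nat_lit 491538) (nat_lit 3) (.e (nat_lit 98381) (nat_lit 31) (.e (nat_lit 466971) (nat_lit 21) (.e (nat_lit 164117) (nat_lit 128) (.e (nat_lit 1130) (nat_lit 83) .nil)))))) (.g (nat_lit 4) .nil .nil))) 
(.lf (nat_lit 135971) (.g (nat_lit 3445) (.e (nat_lit 16473) (nat_lit 14) (.e (nat_lit 491539) (nat_lit 3) (.e (nat_lit 98373) (nat_lit 29) (.e (nat_lit 450567) (nat_lit 0) (.e (nat_lit 4189) (nat_lit 251) (.e (nat_lit 1126) (nat_lit 83) .nil)))))) (.g (nat_lit 4) .nil .nil)))) (.nd (nat_lit 5) 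
(.lf (nat_lit 135955) (.g (nat_lit 4513) (.e (nat_lit 16473) (nat_lit 14) (.e (nat_lit 491539) (nat_lit 3) (.e (nat_lit 98373) (nat_lit 29) (.e (nat_lit 450562) (nat_lit 0) (.e (nat_lit 4186) (nat_lit 251) (.e (nat_lit 1124) (nat_lit 83) .nil)))))) (.g (nat_lit 4) .nil .nil))) 
(.lf (nat_lit 135987) (.g (nat_lit 3779) (.e (nat_lit 16473) (nat_lit 14) (.e (nat_lit 491544) (nat_lit 7) (.e (nat_lit 319531) (nat_lit 16) (.e (nat_lit 286756) (nat_lit 10) (.e (nat_lit 344088) (nat_lit 18) (.e (nat_lit 5440) (nat_lit 306) (.e (nat_lit 1130) (nat_lit 83) .nil))))))) (.g (nat_lit 4) .nil .nil))))) (.nd (nat_lit 4) (.nd (nat_lit 5) 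
(.lf (nat_lit 135947) (.g (nat_lit 2997) (.e (nat_lit 16473) (nat_lit 14) (.e (nat_lit 491539) (nat_lit 3) (.e (nat_lit 98373) (nat_lit 29) (.e (nat_lit 450560) (nat_lit 0) (.e (nat_lit 4186) (nat_lit 251) .nil))))) .nil)) 
(.lf (nat_lit 135979) (.g (nat_lit 3598) (.e (nat_lit 16473) (nat_lit 14) (.e (nat_lit 491539) (nat_lit 3) (.e (nat_lit 98373) (nat_lit 29) (.e (nat_lit 450587) (nat_lit 10) (.e (nat_lit 573471) (nat_lit 11) .nil))))) (.g (nat_lit 0) .nil .nil)))) (.nd (nat_lit 5) 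
(.lf (nat_lit 135963) (.g (nat_lit 4486) (.e (nat_lit 16473) (nat_lit 14) (.e (nat_lit 491539) (nat_lit 3) (.e (nat_lit 98373) (nat_lit 29) (.e (nat_lit 450563) (nat_lit 0) (.e (nat_lit 4181) (nat_lit 251) (.e (nat_lit 1131) (nat_lit 83) .nil)))))) (.g (nat_lit 4) .nil .nil))) 
(.lf (nat_lit 135995) (.g (nat_lit 3804) (.e (nat_lit 16473) (nat_lit 14) (.e (nat_lit 491544) (nat_lit 7) (.e (nat_lit 319531) (nat_lit 16) (.e (nat_lit 286756) (nat_lit 10) (.e (nat_lit 344090) (nat_lit 18) (.e (nat_lit 5429) (nat_lit 306) (.e (nat_lit 1123) (nat_lit 83) .nil))))))) (.g (nat_lit 4) .nil .nil)))))) (.nd (nat_lit 3) (.nd (nat_lit 4) (.nd (nat_lit 5) 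
(.lf (nat_lit 135943) (.g (nat_lit 2886) (.e (nat_lit 16473) (nat_lit 14) (.e (nat_lit 491538) (nat_lit 3) (.e (nat_lit 98381) (nat_lit 31) (.e (nat_lit 466972) (nat_lit 21) (.e (nat_lit 164123) (nat_lit 128) (.e (nat_lit 1126) (nat_lit 83) .nil)))))) (.g (nat_lit 4) .nil .nil))) 
(.lf (nat_lit 135975) (.g (nat_lit 3376) (.e (nat_lit 16473) (nat_lit 14) (.e (nat_lit 491539) (nat_lit 3) (.e (nat_lit 98373) (nat_lit 29) (.e (nat_lit 450567) (nat_lit 0) (.e (nat_lit 4211) (nat_lit 251) (.e (nat_lit 1127) (nat_lit 83) .nil)))))) (.g (nat_lit 4) .nil .nil)))) (.nd (nat_lit 5) 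
(.lf (nat_lit 135959) (.g (nat_lit 4533) (.e (nat_lit 16473) (nat_lit 14) (.e (nat_lit 491539) (nat_lit 3) (.e (nat_lit 98373) (nat_lit 29) (.e (nat_lit 450563) (nat_lit 0) (.e (nat_lit 4175) (nat_lit 251) (.e (nat_lit 1132) (nat_lit 83) .nil)))))) (.g (nat_lit 4) .nil .nil))) 
(.lf (nat_lit 135991) (.g (nat_lit 3892) (.e (nat_lit 16473) (nat_lit 14) (.e (nat_lit 491544) (nat_lit 7) (.e (nat_lit 319531) (nat_lit 16) (.e (nat_lit 286756) (nat_lit 10) (.e (nat_lit 344088) (nat_lit 18) (.e (nat_lit 5456) (nat_lit 306) (.e (nat_lit 1129) (nat_lit 83) .nil))))))) (.g (nat_lit 4) .nil .nil))))) (.nd (nat_lit 4) (.nd (nat_lit 5) 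
(.lf (nat_lit 135951) (.g (nat_lit 3966) (.e (nat_lit 16473) (nat_lit 14) (.e (nat_lit 491539) (nat_lit 3) (.e (nat_lit 98373) (nat_lit 29) (.e (nat_lit 450562) (nat_lit 0) (.e (nat_lit 4177) (nat_lit 251) .nil))))) .nil)) 
(.lf (nat_lit 135983) (.g (nat_lit 2802) (.e (nat_lit 16473) (nat_lit 14) (.e (nat_lit 491543) (nat_lit 6) (.e (nat_lit 147459) (nat_lit 0) (.e (nat_lit 1454) (nat_lit 108) (.e (nat_lit 336099) (nat_lit 9) (.e (nat_lit 336013) (nat_lit 2) (.e (nat_lit 98048) (nat_lit 2) .nil))))))) (.g (nat_lit 6) .nil .nil)))) (.nd (nat_lit 5) 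
(.lf (nat_lit 135967) (.g (nat_lit 3972) (.e (nat_lit 16473) (nat_lit 14) (.e (nat_lit 491539) (nat_lit 3) (.e (nat_lit 98373) (nat_lit 29) (.e (nat_lit 450563) (nat_lit 0) (.e (nat_lit 4202) (nat_lit 251) (.e (nat_lit 1122) (nat_lit 83) .nil)))))) (.g (nat_lit 4) .nil .nil))) 
(.lf (nat_lit 135999) (.g (nat_lit 3781) (.e (nat_lit 16473) (nat_lit 14) (.e (nat_lit 491544) (nat_lit 7) (.e (nat_lit 319531) (nat_lit 16) (.e (nat_lit 286756) (nat_lit 10) (.e (nat_lit 344090) (nat_lit 18) (.e (nat_lit 5439) (nat_lit 306) (.e (nat_lit 1130) (nat_lit 83) .nil))))))) (.g (nat_lit 4) .nil .nil)))))))))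

noncomputable def tv1810 : DT := (.nd (nat_lit 0) (.nd (nat_lit 1) (.nd (nat_lit 2) (.nd (nat_lit 3) (.nd (nat_lit 4) (.nd (nat_lit 5) 
(.lf (nat_lit 136000) (.g (nat_lit 3368) (.e (nat_lit 16473) (nat_lit 14) (.e (nat_lit 491544) (nat_lit 7) (.e (nat_lit 319531) (nat_lit 16) (.e (nat_lit 286756) (nat_lit 10) (.e (nat_lit 344090) (nat_lit 18) (.e (nat_lit 5440) (nat_lit 306) (.e (nat_lit 1122) (nat_lit 83) .nil))))))) (.g (nat_lit 4) .nil .nil))) 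
(.lf (nat_lit 136032) (.g (nat_lit 3968) (.e (nat_lit 16473) (nat_lit 14) (.e (nat_lit 491544) (nat_lit 7) (.e (nat_lit 319533) (nat_lit 16) (.e (nat_lit 286753) (nat_lit 10) (.e (nat_lit 344166) (nat_lit 38) (.e (nat_lit 655395) (nat_lit 11) .nil)))))) (.g (nat_lit 4) .nil .nil)))) (.nd (nat_lit 5) 
(.lf (nat_lit 136016) (.g (nat_lit 3359) (.e (nat_lit 16473) (nat_lit 14) (.e (nat_lit 491544) (nat_lit 7) (.e (nat_lit 319531) (nat_lit 16) (.e (nat_lit 286756) (nat_lit 10) (.e (nat_lit 344090) (nat_lit 18) (.e (nat_lit 5474) (nat_lit 306) (.e (nat_lit 1122) (nat_lit 83) .nil))))))) (.g (nat_lit 4) .nil .nil))) 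
(.lf (nat_lit 136048) (.g (nat_lit 4068) (.e (nat_lit 16473) (nat_lit 14) (.e (nat_lit 491546) (nat_lit 9) (.e (nat_lit 336048) (nat_lit 6) (.e (nat_lit 147494) (nat_lit 11) (.e (nat_lit 24580) (nat_lit 0) (.e (nat_lit 6510) (nat_lit 345) .nil)))))) (.g (nat_lit 6) .nil .nil))))) (.nd (nat_lit 4) (.nd (nat_lit 5) 
(.lf (nat_lit 136008) (.g (nat_lit 3508) (.e (nat_lit 16473) (nat_lit 14) (.e (nat_lit 491544) (nat_lit 7) (.e (nat_lit 319531) (nat_lit 16) (.e (nat_lit 286756) (nat_lit 10) (.e (nat_lit 344090) (nat_lit 18) (.e (nat_lit 5455) (nat_lit 306) (.e (nat_lit 1130) (nat_lit 83) .nil))))))) (.g (nat_lit 4) .nil .nil))) 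
(.lf (nat_lit 136040) (.g (nat_lit 3547) (.e (nat_lit 16473) (nat_lit 14) (.e (nat_lit 491544) (nat_lit 7) (.e (nat_lit 319534) (nat_lit 16) (.e (nat_lit 286756) (nat_lit 10) (.e (nat_lit 344160) (nat_lit 37) (.e (nat_lit 655104) (nat_lit 11) .nil)))))) (.g (nat_lit 5) .nil .nil)))) (.nd (nat_lit 5) 
(.lf (nat_lit 136024) (.g (nat_lit 4542) (.e (nat_lit 16473) (nat_lit 14) (.e (nat_lit 491544) (nat_lit 7) (.e (nat_lit 319531) (nat_lit 16) (.e (nat_lit 286756) (nat_lit 10) (.e (nat_lit 344165) (nat_lit 38) (.e (nat_lit 655395) (nat_lit 11) .nil)))))) (.g (nat_lit 4) .nil .nil))) 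
(.lf (nat_lit 136056) (.g (nat_lit 3684) (.e (nat_lit 16473) (nat_lit 14) (.e (nat_lit 491546) (nat_lit 9) (.e (nat_lit 336443) (nat_lit 32) (.e (nat_lit 466972) (nat_lit 21) (.e (nat_lit 164256) (nat_lit 215) (.e (nat_lit 1126) (nat_lit 83) .nil)))))) (.g (nat_lit 4) .nil .nil)))))) (.nd (nat_lit 3) (.nd (nat_lit 4) (.nd (nat_lit 5) 
(.lf (nat_lit 136004) (.g (nat_lit 3457) (.e (nat_lit 16473) (nat_lit 14) (.e (nat_lit 491544) (nat_lit 7) (.e (nat_lit 319531) (nat_lit 16) (.e (nat_lit 286756) (nat_lit 10) (.e (nat_lit 344090) (nat_lit 18) (.e (nat_lit 5441) (nat_lit 306) (.e (nat_lit 1123) (nat_lit 83) .nil))))))) (.g (nat_lit 4) .nil .nil))) 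
(.lf (nat_lit 136036) (.g (nat_lit 3874) (.e (nat_lit 16473) (nat_lit 14) (.e (nat_lit 491544) (nat_lit 7) (.e (nat_lit 319534) (nat_lit 16) (.e (nat_lit 286756) (nat_lit 10) (.e (nat_lit 344090) (nat_lit 18) (.e (nat_lit 5429) (nat_lit 306) (.e (nat_lit 1130) (nat_lit 83) .nil))))))) (.g (nat_lit 4) .nil .nil)))) (.nd (nat_lit 5) 
(.lf (nat_lit 136020) (.g (nat_lit 3276) (.e (nat_lit 16473) (nat_lit 14) (.e (nat_lit 491544) (nat_lit 7) (.e (nat_lit 319531) (nat_lit 16) (.e (nat_lit 286756) (nat_lit 10) (.e (nat_lit 344090) (nat_lit 18) (.e (nat_lit 5487) (nat_lit 306) (.e (nat_lit 1122) (nat_lit 83) .nil))))))) (.g (nat_lit 4) .nil .nil))) 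
(.lf (nat_lit 136052) (.g (nat_lit 3430) (.e (nat_lit 16473) (nat_lit 14) (.e (nat_lit 491546) (nat_lit 9) (.e (nat_lit 336443) (nat_lit 32) (.e (nat_lit 466969) (nat_lit 21) (.e (nat_lit 164256) (nat_lit 215) (.e (nat_lit 1122) (nat_lit 83) .nil)))))) (.g (nat_lit 4) .nil .nil))))) (.nd (nat_lit 4) (.nd (nat_lit 5) 
(.lf (nat_lit 136012) (.g (nat_lit 3386) (.e (nat_lit 16473) (nat_lit 14) (.e (nat_lit 491544) (nat_lit 7) (.e (nat_lit 319531) (nat_lit 16) (.e (nat_lit 286756) (nat_lit 10) (.e (nat_lit 344090) (nat_lit 18) (.e (nat_lit 5467) (nat_lit 306) (.e (nat_lit 1122) (nat_lit 83) .nil))))))) (.g (nat_lit 4) .nil .nil))) 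
(.lf (nat_lit 136044) (.g (nat_lit 3137) (.e (nat_lit 16473) (nat_lit 14) (.e (nat_lit 491546) (nat_lit 9) (.e (nat_lit 336032) (nat_lit 4) (.e (nat_lit 123194) (nat_lit 266) (.e (nat_lit 57389) (nat_lit 5) (.e (nat_lit 114723) (nat_lit 24) (.e (nat_lit 106534) (nat_lit 11) .nil))))))) (.g (nat_lit 5) .nil .nil)))) (.nd (nat_lit 5) 
(.lf (nat_lit 136028) (.g (nat_lit 3871) (.e (nat_lit 16473) (nat_lit 14) (.e (nat_lit 491544) (nat_lit 7) (.e (nat_lit 319533) (nat_lit 16) (.e (nat_lit 286753) (nat_lit 10) (.e (nat_lit 344088) (nat_lit 18) (.e (nat_lit 5440) (nat_lit 306) (.e (nat_lit 1130) (nat_lit 83) .nil))))))) (.g (nat_lit 4) .nil .nil))) 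
(.lf (nat_lit 136060) (.g (nat_lit 2320) (.e (nat_lit 16473) (nat_lit 14) (.e (nat_lit 491552) (nat_lit 9) (.e (nat_lit 336046) (nat_lit 6) (.e (nat_lit 147494) (nat_lit 11) (.e (nat_lit 24580) (nat_lit 0) (.e (nat_lit 6510) (nat_lit 345) .nil)))))) (.g (nat_lit 4) .nil .nil))))))) (.nd (nat_lit 2) (.nd (nat_lit 3) (.nd (nat_lit 4) (.nd (nat_lit 5) 
(.lf (nat_lit 136002) (.g (nat_lit 3813) (.e (nat_lit 16473) (nat_lit 14) (.e (nat_lit 491544) (nat_lit 7) (.e (nat_lit 319531) (nat_lit 16) (.e (nat_lit 286756) (nat_lit 10) (.e (nat_lit 344090) (nat_lit 18) (.e (nat_lit 5440) (nat_lit 306) (.e (nat_lit 1130) (nat_lit 83) .nil))))))) (.g (nat_lit 4) .nil .nil))) 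
(.lf (nat_lit 136034) (.g (nat_lit 3541) (.e (nat_lit 16473) (nat_lit 14) (.e (nat_lit 491544) (nat_lit 7) (.e (nat_lit 319534) (nat_lit 16) (.e (nat_lit 286756) (nat_lit 10) (.e (nat_lit 344090) (nat_lit 18) (.e (nat_lit 5429) (nat_lit 306) (.e (nat_lit 1122) (nat_lit 83) .nil))))))) (.g (nat_lit 4) .nil .nil)))) (.nd (nat_lit 5) 
(.lf (nat_lit 136018) (.g (nat_lit 3184) (.e (nat_lit 16473) (nat_lit 14) (.e (nat_lit 491544) (nat_lit 7) (.e (nat_lit 319531) (nat_lit 16) (.e (nat_lit 286756) (nat_lit 10) (.e (nat_lit 344090) (nat_lit 18) (.e (nat_lit 5478) (nat_lit 306) (.e (nat_lit 1122) (nat_lit 83) .nil))))))) (.g (nat_lit 4) .nil .nil))) 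
(.lf (nat_lit 136050) (.g (nat_lit 3214) (.e (nat_lit 16473) (nat_lit 14) (.e (nat_lit 491546) (nat_lit 9) (.e (nat_lit 336369) (nat_lit 27) (.e (nat_lit 426173) (nat_lit 7) (.e (nat_lit 409616) (nat_lit 10) (.e (nat_lit 7936) (nat_lit 300) .nil)))))) (.g (nat_lit 5) .nil .nil))))) (.nd (nat_lit 4) (.nd (nat_lit 5) 
(.lf (nat_lit 136010) (.g (nat_lit 3317) (.e (nat_lit 16473) (nat_lit 14) (.e (nat_lit 491544) (nat_lit 7) (.e (nat_lit 319531) (nat_lit 16) (.e (nat_lit 286756) (nat_lit 10) (.e (nat_lit 344090) (nat_lit 18) (.e (nat_lit 5465) (nat_lit 306) (.e (nat_lit 1122) (nat_lit 83) .nil))))))) (.g (nat_lit 4) .nil .nil))) 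
(.lf (nat_lit 136042) (.g (nat_lit 3546) (.e (nat_lit 16473) (nat_lit 14) (.e (nat_lit 491544) (nat_lit 7) (.e (nat_lit 319534) (nat_lit 16) (.e (nat_lit 286756) (nat_lit 10) (.e (nat_lit 344166) (nat_lit 38) (.e (nat_lit 655395) (nat_lit 11) .nil)))))) (.g (nat_lit 4) .nil .nil)))) (.nd (nat_lit 5) 
(.lf (nat_lit 136026) (.g (nat_lit 4009) (.e (nat_lit 16473) (nat_lit 14) (.e (nat_lit 491544) (nat_lit 7) (.e (nat_lit 319531) (nat_lit 16) (.e (nat_lit 286759) (nat_lit 12) (.e (nat_lit 385045) (nat_lit 21) (.e (nat_lit 7660) (nat_lit 410) (.e (nat_lit 1125) (nat_lit 83) .nil))))))) (.g (nat_lit 4) .nil .nil))) 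
(.lf (nat_lit 136058) (.g (nat_lit 2771) (.e (nat_lit 16473) (nat_lit 14) (.e (nat_lit 491547) (nat_lit 9) (.e (nat_lit 336369) (nat_lit 27) (.e (nat_lit 426173) (nat_lit 7) (.e (nat_lit 409617) (nat_lit 10) (.e (nat_lit 7936) (nat_lit 300) .nil)))))) (.g (nat_lit 5) .nil .nil)))))) (.nd (nat_lit 3) (.nd (nat_lit 4) (.nd (nat_lit 5) 
(.lf (nat_lit 136006) (.g (nat_lit 3717) (.e (nat_lit 16473) (nat_lit 14) (.e (nat_lit 491544) (nat_lit 7) (.e (nat_lit 319531) (nat_lit 16) (.e (nat_lit 286756) (nat_lit 10) (.e (nat_lit 344090) (nat_lit 18) (.e (nat_lit 5442) (nat_lit 306) (.e (nat_lit 1130) (nat_lit 83) .nil))))))) (.g (nat_lit 4) .nil .nil))) 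
(.lf (nat_lit 136038) (.g (nat_lit 3996) (.e (nat_lit 16473) (nat_lit 14) (.e (nat_lit 491544) (nat_lit 7) (.e (nat_lit 319534) (nat_lit 16) (.e (nat_lit 286756) (nat_lit 10) (.e (nat_lit 344090) (nat_lit 18) (.e (nat_lit 5472) (nat_lit 306) (.e (nat_lit 1122) (nat_lit 83) .nil))))))) (.g (nat_lit 4) .nil .nil)))) (.nd (nat_lit 5) 
(.lf (nat_lit 136022) (.g (nat_lit 3114) (.e (nat_lit 16473) (nat_lit 14) (.e (nat_lit 491544) (nat_lit 7) (.e (nat_lit 319531) (nat_lit 16) (.e (nat_lit 286756) (nat_lit 10) (.e (nat_lit 344097) (nat_lit 18) (.e (nat_lit 5480) (nat_lit 306) (.e (nat_lit 1122) (nat_lit 83) .nil))))))) (.g (nat_lit 4) .nil .nil))) 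
(.lf (nat_lit 136054) (.g (nat_lit 3473) (.e (nat_lit 16473) (nat_lit 14) (.e (nat_lit 491546) (nat_lit 9) (.e (nat_lit 336443) (nat_lit 32) (.e (nat_lit 466971) (nat_lit 21) (.e (nat_lit 164256) (nat_lit 215) (.e (nat_lit 1126) (nat_lit 83) .nil)))))) (.g (nat_lit 4) .nil .nil))))) (.nd (nat_lit 4) (.nd (nat_lit 5) 
(.lf (nat_lit 136014) (.g (nat_lit 3251) (.e (nat_lit 16473) (nat_lit 14) (.e (nat_lit 491544) (nat_lit 7) (.e (nat_lit 319531) (nat_lit 16) (.e (nat_lit 286756) (nat_lit 10) (.e (nat_lit 344090) (nat_lit 18) (.e (nat_lit 5469) (nat_lit 306) (.e (nat_lit 1122) (nat_lit 83) .nil))))))) (.g (nat_lit 4) .nil .nil))) 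
(.lf (nat_lit 136046) (.g (nat_lit 3126) (.e (nat_lit 16473) (nat_lit 14) (.e (nat_lit 491546) (nat_lit 9) (.e (nat_lit 336032) (nat_lit 4) (.e (nat_lit 123195) (nat_lit 266) (.e (nat_lit 57389) (nat_lit 5) (.e (nat_lit 114723) (nat_lit 24) (.e (nat_lit 106534) (nat_lit 11) .nil))))))) (.g (nat_lit 4) .nil .nil)))) (.nd (nat_lit 5) 
(.lf (nat_lit 136030) (.g (nat_lit 3537) (.e (nat_lit 16473) (nat_lit 14) (.e (nat_lit 491544) (nat_lit 7) (.e (nat_lit 319533) (nat_lit 16) (.e (nat_lit 286753) (nat_lit 10) (.e (nat_lit 344088) (nat_lit 18) (.e (nat_lit 5474) (nat_lit 306) (.e (nat_lit 1122) (nat_lit 83) .nil))))))) (.g (nat_lit 4) .nil .nil))) 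
(.lf (nat_lit 136062) (.g (nat_lit 2369) (.e (nat_lit 16473) (nat_lit 14) (.e (nat_lit 491552) (nat_lit 9) (.e (nat_lit 336046) (nat_lit 6) (.e (nat_lit 147495) (nat_lit 11) (.e (nat_lit 24580) (nat_lit 0) (.e (nat_lit 6510) (nat_lit 345) .nil)))))) (.g (nat_lit 4) .nil .nil)))))))) (.nd (nat_lit 1) (.nd (nat_lit 2) (.nd (nat_lit 3) (.nd (nat_lit 4) (.nd (nat_lit 5) 
(.lf (nat_lit 136001) (.g (nat_lit 3602) (.e (nat_lit 16473) (nat_lit 14) (.e (nat_lit 491544) (nat_lit 7) (.e (nat_lit 319531) (nat_lit 16) (.e (nat_lit 286756) (nat_lit 10) (.e (nat_lit 344090) (nat_lit 18) (.e (nat_lit 5440) (nat_lit 306) (.e (nat_lit 1129) (nat_lit 83) .nil))))))) (.g (nat_lit 4) .nil .nil))) 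
(.lf (nat_lit 136033) (.g (nat_lit 3471) (.e (nat_lit 16473) (nat_lit 14) (.e (nat_lit 491544) (nat_lit 7) (.e (nat_lit 319534) (nat_lit 16) (.e (nat_lit 286756) (nat_lit 10) (.e (nat_lit 344088) (nat_lit 18) (.e (nat_lit 5440) (nat_lit 306) (.e (nat_lit 1130) (nat_lit 83) .nil))))))) (.g (nat_lit 4) .nil .nil)))) (.nd (nat_lit 5) 
(.lf (nat_lit 136017) (.g (nat_lit 3366) (.e (nat_lit 16473) (nat_lit 14) (.e (nat_lit 491544) (nat_lit 7) (.e (nat_lit 319531) (nat_lit 16) (.e (nat_lit 286756) (nat_lit 10) (.e (nat_lit 344090) (nat_lit 18) (.e (nat_lit 5476) (nat_lit 306) (.e (nat_lit 1122) (nat_lit 83) .nil))))))) (.g (nat_lit 4) .nil .nil))) 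
(.lf (nat_lit 136049) (.g (nat_lit 2950) (.e (nat_lit 16473) (nat_lit 14) (.e (nat_lit 491546) (nat_lit 9) (.e (nat_lit 336048) (nat_lit 6) (.e (nat_lit 147495) (nat_lit 11) (.e (nat_lit 24580) (nat_lit 0) (.e (nat_lit 6510) (nat_lit 345) .nil)))))) (.g (nat_lit 4) .nil .nil))))) (.nd (nat_lit 4) (.nd (nat_lit 5) 
(.lf (nat_lit 136009) (.g (nat_lit 3365) (.e (nat_lit 16473) (nat_lit 14) (.e (nat_lit 491544) (nat_lit 7) (.e (nat_lit 319531) (nat_lit 16) (.e (nat_lit 286756) (nat_lit 10) (.e (nat_lit 344090) (nat_lit 18) (.e (nat_lit 5464) (nat_lit 306) (.e (nat_lit 1122) (nat_lit 83) .nil))))))) (.g (nat_lit 4) .nil .nil))) 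
(.lf (nat_lit 136041) (.g (nat_lit 4254) (.e (nat_lit 16473) (nat_lit 14) (.e (nat_lit 491544) (nat_lit 7) (.e (nat_lit 319534) (nat_lit 16) (.e (nat_lit 286756) (nat_lit 10) (.e (nat_lit 344165) (nat_lit 38) (.e (nat_lit 655395) (nat_lit 11) .nil)))))) (.g (nat_lit 4) .nil .nil)))) (.nd (nat_lit 5) 
(.lf (nat_lit 136025) (.g (nat_lit 3897) (.e (nat_lit 16473) (nat_lit 14) (.e (nat_lit 491544) (nat_lit 7) (.e (nat_lit 319531) (nat_lit 16) (.e (nat_lit 286756) (nat_lit 10) (.e (nat_lit 344166) (nat_lit 38) (.e (nat_lit 655395) (nat_lit 11) .nil)))))) (.g (nat_lit 4) .nil .nil))) 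
(.lf (nat_lit 136057) (.g (nat_lit 3227) (.e (nat_lit 16473) (nat_lit 14) (.e (nat_lit 491547) (nat_lit 9) (.e (nat_lit 336369) (nat_lit 27) (.e (nat_lit 426173) (nat_lit 7) (.e (nat_lit 409616) (nat_lit 10) (.e (nat_lit 7936) (nat_lit 300) .nil)))))) (.g (nat_lit 5) .nil .nil)))))) (.nd (nat_lit 3) (.nd (nat_lit 4) (.nd (nat_lit 5) 
(.lf (nat_lit 136005) (.g (nat_lit 3310) (.e (nat_lit 16473) (nat_lit 14) (.e (nat_lit 491544) (nat_lit 7) (.e (nat_lit 319531) (nat_lit 16) (.e (nat_lit 286756) (nat_lit 10) (.e (nat_lit 344090) (nat_lit 18) (.e (nat_lit 5442) (nat_lit 306) (.e (nat_lit 1122) (nat_lit 83) .nil))))))) (.g (nat_lit 4) .nil .nil))) 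
(.lf (nat_lit 136037) (.g (nat_lit 3504) (.e (nat_lit 16473) (nat_lit 14) (.e (nat_lit 491544) (nat_lit 7) (.e (nat_lit 319534) (nat_lit 16) (.e (nat_lit 286756) (nat_lit 10) (.e (nat_lit 344090) (nat_lit 18) (.e (nat_lit 5440) (nat_lit 306) (.e (nat_lit 1130) (nat_lit 83) .nil))))))) (.g (nat_lit 4) .nil .nil)))) (.nd (nat_lit 5) 
(.lf (nat_lit 136021) (.g (nat_lit 3191) (.e (nat_lit 16473) (nat_lit 14) (.e (nat_lit 491544) (nat_lit 7) (.e (nat_lit 319531) (nat_lit 16) (.e (nat_lit 286756) (nat_lit 10) (.e (nat_lit 344097) (nat_lit 18) (.e (nat_lit 5463) (nat_lit 306) (.e (nat_lit 1122) (nat_lit 83) .nil))))))) (.g (nat_lit 4) .nil .nil))) 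
(.lf (nat_lit 136053) (.g (nat_lit 3654) (.e (nat_lit 16473) (nat_lit 14) (.e (nat_lit 491546) (nat_lit 9) (.e (nat_lit 336443) (nat_lit 32) (.e (nat_lit 466969) (nat_lit 21) (.e (nat_lit 164256) (nat_lit 215) (.e (nat_lit 1126) (nat_lit 83) .nil)))))) (.g (nat_lit 4) .nil .nil))))) (.nd (nat_lit 4) (.nd (nat_lit 5) 
(.lf (nat_lit 136013) (.g (nat_lit 3366) (.e (nat_lit 16473) (nat_lit 14) (.e (nat_lit 491544) (nat_lit 7) (.e (nat_lit 319531) (nat_lit 16) (.e (nat_lit 286756) (nat_lit 10) (.e (nat_lit 344090) (nat_lit 18) (.e (nat_lit 5468) (nat_lit 306) (.e (nat_lit 1122) (nat_lit 83) .nil))))))) (.g (nat_lit 4) .nil .nil))) 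
(.lf (nat_lit 136045) (.g (nat_lit 3862) (.e (nat_lit 16473) (nat_lit 14) (.e (nat_lit 491546) (nat_lit 9) (.e (nat_lit 336032) (nat_lit 4) (.e (nat_lit 123194) (nat_lit 266) (.e (nat_lit 57390) (nat_lit 5) (.e (nat_lit 114723) (nat_lit 24) (.e (nat_lit 106535) (nat_lit 11) .nil))))))) (.g (nat_lit 5) .nil .nil)))) (.nd (nat_lit 5) 
(.lf (nat_lit 136029) (.g (nat_lit 3795) (.e (nat_lit 16473) (nat_lit 14) (.e (nat_lit 491544) (nat_lit 7) (.e (nat_lit 319533) (nat_lit 16) (.e (nat_lit 286753) (nat_lit 10) (.e (nat_lit 344088) (nat_lit 18) (.e (nat_lit 5456) (nat_lit 306) (.e (nat_lit 1130) (nat_lit 83) .nil))))))) (.g (nat_lit 4) .nil .nil))) 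
(.lf (nat_lit 136061) (.g (nat_lit 2775) (.e (nat_lit 16473) (nat_lit 14) (.e (nat_lit 491552) (nat_lit 9) (.e (nat_lit 336046) (nat_lit 6) (.e (nat_lit 147495) (nat_lit 11) (.e (nat_lit 24580) (nat_lit 0) (.e (nat_lit 6508) (nat_lit 345) .nil)))))) (.g (nat_lit 4) .nil .nil))))))) (.nd (nat_lit 2) (.nd (nat_lit 3) (.nd (nat_lit 4) (.nd (nat_lit 5) 
(.lf (nat_lit 136003) (.g (nat_lit 3562) (.e (nat_lit 16473) (nat_lit 14) (.e (nat_lit 491544) (nat_lit 7) (.e (nat_lit 319531) (nat_lit 16) (.e (nat_lit 286756) (nat_lit 10) (.e (nat_lit 344090) (nat_lit 18) (.e (nat_lit 5441) (nat_lit 306) (.e (nat_lit 1122) (nat_lit 83) .nil))))))) (.g (nat_lit 4) .nil .nil))) 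
(.lf (nat_lit 136035) (.g (nat_lit 4015) (.e (nat_lit 16473) (nat_lit 14) (.e (nat_lit 491544) (nat_lit 7) (.e (nat_lit 319534) (nat_lit 16) (.e (nat_lit 286756) (nat_lit 10) (.e (nat_lit 344090) (nat_lit 18) (.e (nat_lit 5429) (nat_lit 306) (.e (nat_lit 1129) (nat_lit 83) .nil))))))) (.g (nat_lit 4) .nil .nil)))) (.nd (nat_lit 5) 
(.lf (nat_lit 136019) (.g (nat_lit 3270) (.e (nat_lit 16473) (nat_lit 14) (.e (nat_lit 491544) (nat_lit 7) (.e (nat_lit 319531) (nat_lit 16) (.e (nat_lit 286756) (nat_lit 10) (.e (nat_lit 344090) (nat_lit 18) (.e (nat_lit 5485) (nat_lit 306) (.e (nat_lit 1122) (nat_lit 83) .nil))))))) (.g (nat_lit 4) .nil .nil))) 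
(.lf (nat_lit 136051) (.g (nat_lit 2737) (.e (nat_lit 16473) (nat_lit 14) (.e (nat_lit 491546) (nat_lit 9) (.e (nat_lit 336369) (nat_lit 27) (.e (nat_lit 426173) (nat_lit 7) (.e (nat_lit 409617) (nat_lit 10) (.e (nat_lit 7936) (nat_lit 300) .nil)))))) (.g (nat_lit 5) .nil .nil))))) (.nd (nat_lit 4) (.nd (nat_lit 5) 
(.lf (nat_lit 136011) (.g (nat_lit 3378) (.e (nat_lit 16473) (nat_lit 14) (.e (nat_lit 491544) (nat_lit 7) (.e (nat_lit 319531) (nat_lit 16) (.e (nat_lit 286756) (nat_lit 10) (.e (nat_lit 344090) (nat_lit 18) (.e (nat_lit 5466) (nat_lit 306) (.e (nat_lit 1122) (nat_lit 83) .nil))))))) (.g (nat_lit 4) .nil .nil))) 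
(.lf (nat_lit 136043) (.g (nat_lit 4063) (.e (nat_lit 16473) (nat_lit 14) (.e (nat_lit 491545) (nat_lit 8) (.e (nat_lit 327716) (nat_lit 16) (.e (nat_lit 286753) (nat_lit 10) (.e (nat_lit 344160) (nat_lit 37) (.e (nat_lit 647199) (nat_lit 11) .nil)))))) (.g (nat_lit 0) .nil .nil)))) (.nd (nat_lit 5) 
(.lf (nat_lit 136027) (.g (nat_lit 5090) (.e (nat_lit 16473) (nat_lit 14) (.e (nat_lit 491544) (nat_lit 7) (.e (nat_lit 319531) (nat_lit 16) (.e (nat_lit 286759) (nat_lit 12) (.e (nat_lit 385116) (nat_lit 54) (.e (nat_lit 819237) (nat_lit 11) .nil)))))) (.g (nat_lit 0) .nil .nil))) 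
(.lf (nat_lit 136059) (.g (nat_lit 2223) (.e (nat_lit 16473) (nat_lit 14) (.e (nat_lit 491552) (nat_lit 9) (.e (nat_lit 336030) (nat_lit 4) (.e (nat_lit 123195) (nat_lit 266) (.e (nat_lit 57389) (nat_lit 5) (.e (nat_lit 114723) (nat_lit 24) (.e (nat_lit 106534) (nat_lit 11) .nil))))))) (.g (nat_lit 4) .nil .nil)))))) (.nd (nat_lit 3) (.nd (nat_lit 4) (.nd (nat_lit 5) 
(.lf (nat_lit 136007) (.g (nat_lit 3142) (.e (nat_lit 16473) (nat_lit 14) (.e (nat_lit 491544) (nat_lit 7) (.e (nat_lit 319531) (nat_lit 16) (.e (nat_lit 286756) (nat_lit 10) (.e (nat_lit 344090) (nat_lit 18) (.e (nat_lit 5455) (nat_lit 306) (.e (nat_lit 1122) (nat_lit 83) .nil))))))) (.g (nat_lit 4) .nil .nil))) 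
(.lf (nat_lit 136039) (.g (nat_lit 4153) (.e (nat_lit 16473) (nat_lit 14) (.e (nat_lit 491544) (nat_lit 7) (.e (nat_lit 319534) (nat_lit 16) (.e (nat_lit 286756) (nat_lit 10) (.e (nat_lit 344090) (nat_lit 18) (.e (nat_lit 5475) (nat_lit 306) (.e (nat_lit 1122) (nat_lit 83) .nil))))))) (.g (nat_lit 4) .nil .nil)))) (.nd (nat_lit 5) 
(.lf (nat_lit 136023) (.g (nat_lit 3049) (.e (nat_lit 16473) (nat_lit 14) (.e (nat_lit 491544) (nat_lit 7) (.e (nat_lit 319531) (nat_lit 16) (.e (nat_lit 286756) (nat_lit 10) (.e (nat_lit 344160) (nat_lit 37) (.e (nat_lit 655104) (nat_lit 11) .nil)))))) (.g (nat_lit 5) .nil .nil))) 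
(.lf (nat_lit 136055) (.g (nat_lit 3489) (.e (nat_lit 16473) (nat_lit 14) (.e (nat_lit 491546) (nat_lit 9) (.e (nat_lit 336443) (nat_lit 32) (.e (nat_lit 466972) (nat_lit 21) (.e (nat_lit 164256) (nat_lit 215) (.e (nat_lit 1122) (nat_lit 83) .nil)))))) (.g (nat_lit 4) .nil .nil))))) (.nd (nat_lit 4) (.nd (nat_lit 5) 
(.lf (nat_lit 136015) (.g (nat_lit 3233) (.e (nat_lit 16473) (nat_lit 14) (.e (nat_lit 491544) (nat_lit 7) (.e (nat_lit 319531) (nat_lit 16) (.e (nat_lit 286756) (nat_lit 10) (.e (nat_lit 344090) (nat_lit 18) (.e (nat_lit 5470) (nat_lit 306) (.e (nat_lit 1122) (nat_lit 83) .nil))))))) (.g (nat_lit 4) .nil .nil))) 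
(.lf (nat_lit 136047) (.g (nat_lit 2983) (.e (nat_lit 16473) (nat_lit 14) (.e (nat_lit 491546) (nat_lit 9) (.e (nat_lit 336032) (nat_lit 4) (.e (nat_lit 123197) (nat_lit 266) (.e (nat_lit 57389) (nat_lit 5) (.e (nat_lit 114723) (nat_lit 24) (.e (nat_lit 106534) (nat_lit 11) .nil))))))) (.g (nat_lit 4) .nil .nil)))) (.nd (nat_lit 5) 
(.lf (nat_lit 136031) (.g (nat_lit 3307) (.e (nat_lit 16473) (nat_lit 14) (.e (nat_lit 491544) (nat_lit 7) (.e (nat_lit 319533) (nat_lit 16) (.e (nat_lit 286753) (nat_lit 10) (.e (nat_lit 344160) (nat_lit 37) (.e (nat_lit 655104) (nat_lit 11) .nil)))))) (.g (nat_lit 5) .nil .nil))) 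
(.lf (nat_lit 136063) (.g (nat_lit 283) (.e (nat_lit 16473) (nat_lit 14) (.e (nat_lit 491552) (nat_lit 9) (.e (nat_lit 336385) (nat_lit 27) .nil))) .nil))))))))

noncomputable def tv1811 : DT := (.nd (nat_lit 0) (.nd (nat_lit 1) (.nd (nat_lit 2) (.nd (nat_lit 3) (.nd (nat_lit 4) (.nd (nat_lit 5) (.nd (nat_lit 6) 
(.lf (nat_lit 136064) (.g (nat_lit 2689) (.e (nat_lit 16473) (nat_lit 14) (.e (nat_lit 491552) (nat_lit 9) (.e (nat_lit 336385) (nat_lit 27) (.e (nat_lit 426172) (nat_lit 7) (.e (nat_lit 409616) (nat_lit 10) (.e (nat_lit 7936) (nat_lit 300) .nil)))))) (.g (nat_lit 5) .nil .nil))) 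
(.lf (nat_lit 136128) (.g (nat_lit 3129) (.e (nat_lit 16473) (nat_lit 14) (.e (nat_lit 491559) (nat_lit 10) (.e (nat_lit 344177) (nat_lit 43) (.e (nat_lit 770071) (nat_lit 8) (.e (nat_lit 65543) (nat_lit 0) (.e (nat_lit 7936) (nat_lit 345) .nil)))))) (.g (nat_lit 4) .nil .nil)))) (.nd (nat_lit 6) 
(.lf (nat_lit 136096) (.g (nat_lit 448) (.e (nat_lit 16473) (nat_lit 14) (.e (nat_lit 491556) (nat_lit 9) (.e (nat_lit 336390) (nat_lit 27) .nil))) .nil)) 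
(.lf (nat_lit 136160) (.g (nat_lit 1852) (.e (nat_lit 16473) (nat_lit 14) (.e (nat_lit 491560) (nat_lit 10) (.e (nat_lit 344099) (nat_lit 18) (.e (nat_lit 7147) (nat_lit 382) (.e (nat_lit 1207) (nat_lit 89) (.e (nat_lit 81664) (nat_lit 42) .nil)))))) (.g (nat_lit 5) .nil .nil))))) (.nd (nat_lit 5) (.nd (nat_lit 6) 
(.lf (nat_lit 136080) (.g (nat_lit 1743) (.e (nat_lit 16473) (nat_lit 14) (.e (nat_lit 491552) (nat_lit 9) (.e (nat_lit 336412) (nat_lit 27) (.e (nat_lit 426182) (nat_lit 8) (.e (nat_lit 417814) (nat_lit 10) (.e (nat_lit 7936) (nat_lit 300) .nil)))))) (.g (nat_lit 5) .nil .nil))) 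
(.lf (nat_lit 136144) (.g (nat_lit 1477) (.e (nat_lit 16473) (nat_lit 14) (.e (nat_lit 491560) (nat_lit 10) (.e (nat_lit 344090) (nat_lit 18) (.e (nat_lit 7265) (nat_lit 384) .nil)))) .nil))) (.nd (nat_lit 6) 
(.lf (nat_lit 136112) (.g (nat_lit 1199) (.e (nat_lit 16473) (nat_lit 14) (.e (nat_lit 491558) (nat_lit 10) (.e (nat_lit 344174) (nat_lit 42) (.e (nat_lit 769792) (nat_lit 5) .nil)))) .nil)) 
(.lf (nat_lit 136176) (.g (nat_lit 1356) (.e (nat_lit 16473) (nat_lit 14) (.e (nat_lit 491560) (nat_lit 10) (.e (nat_lit 344161) (nat_lit 37) (.e (nat_lit 647190) (nat_lit 9) .nil)))) .nil))))) (.nd (nat_lit 4) (.nd (nat_lit 5) (.nd (nat_lit 6) 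
(.lf (nat_lit 136072) (.g (nat_lit 2256) (.e (nat_lit 16473) (nat_lit 14) (.e (nat_lit 491552) (nat_lit 9) (.e (nat_lit 336412) (nat_lit 27) (.e (nat_lit 426179) (nat_lit 8) (.e (nat_lit 417821) (nat_lit 10) (.e (nat_lit 5383) (nat_lit 300) .nil)))))) (.g (nat_lit 4) .nil .nil))) 
(.lf (nat_lit 136136) (.g (nat_lit 2925) (.e (nat_lit 16473) (nat_lit 14) (.e (nat_lit 491559) (nat_lit 10) (.e (nat_lit 344177) (nat_lit 43) (.e (nat_lit 770072) (nat_lit 8) (.e (nat_lit 65542) (nat_lit 0) (.e (nat_lit 7936) (nat_lit 345) .nil)))))) (.g (nat_lit 4) .nil .nil)))) (.nd (nat_lit 6) 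
(.lf (nat_lit 136104) (.g (nat_lit 2507) (.e (nat_lit 16473) (nat_lit 14) (.e (nat_lit 491558) (nat_lit 10) (.e (nat_lit 344097) (nat_lit 18) (.e (nat_lit 7147) (nat_lit 382) (.e (nat_lit 1207) (nat_lit 89) (.e (nat_lit 81664) (nat_lit 42) .nil)))))) (.g (nat_lit 5) .nil .nil))) 
(.lf (nat_lit 136168) (.g (nat_lit 3652) (.e (nat_lit 16473) (nat_lit 14) (.e (nat_lit 491560) (nat_lit 10) (.e (nat_lit 344160) (nat_lit 37) (.e (nat_lit 647195) (nat_lit 9) (.e (nat_lit 7936) (nat_lit 33) (.e (nat_lit 434260) (nat_lit 33) (.e (nat_lit 614435) (nat_lit 11) .nil))))))) (.g (nat_lit 4) .nil .nil))))) (.nd (nat_lit 5) (.nd (nat_lit 6) 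
(.lf (nat_lit 136088) (.g (nat_lit 2355) (.e (nat_lit 16473) (nat_lit 14) (.e (nat_lit 491552) (nat_lit 9) (.e (nat_lit 336412) (nat_lit 27) (.e (nat_lit 426308) (nat_lit 12) (.e (nat_lit 475192) (nat_lit 37) (.e (nat_lit 679955) (nat_lit 7) .nil)))))) (.g (nat_lit 4) .nil .nil))) 
(.lf (nat_lit 136152) (.g (nat_lit 1548) (.e (nat_lit 16473) (nat_lit 14) (.e (nat_lit 491560) (nat_lit 10) (.e (nat_lit 344097) (nat_lit 18) (.e (nat_lit 7255) (nat_lit 383) .nil)))) .nil))) (.nd (nat_lit 6) 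
(.lf (nat_lit 136120) (.g (nat_lit 1362) (.e (nat_lit 16473) (nat_lit 14) (.e (nat_lit 491558) (nat_lit 10) (.e (nat_lit 352000) (nat_lit 46) (.e (nat_lit 794635) (nat_lit 11) (.e (nat_lit 335877) (nat_lit 0) (.e (nat_lit 7936) (nat_lit 345) .nil)))))) (.g (nat_lit 4) .nil .nil))) 
(.lf (nat_lit 136184) (.g (nat_lit 2239) (.e (nat_lit 16473) (nat_lit 14) (.e (nat_lit 491560) (nat_lit 10) (.e (nat_lit 344175) (nat_lit 43) (.e (nat_lit 770072) (nat_lit 8) (.e (nat_lit 65537) (nat_lit 0) (.e (nat_lit 7936) (nat_lit 345) .nil)))))) (.g (nat_lit 5) .nil .nil))))))) (.nd (nat_lit 3) (.nd (nat_lit 4) (.nd (nat_lit 5) (.nd (nat_lit 6) 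
(.lf (nat_lit 136068) (.g (nat_lit 1117) (.e (nat_lit 16473) (nat_lit 14) (.e (nat_lit 491552) (nat_lit 9) (.e (nat_lit 336412) (nat_lit 27) (.e (nat_lit 426179) (nat_lit 8) (.e (nat_lit 417814) (nat_lit 10) (.e (nat_lit 7936) (nat_lit 300) .nil)))))) (.g (nat_lit 4) .nil .nil))) 
(.lf (nat_lit 136132) (.g (nat_lit 3927) (.e (nat_lit 16473) (nat_lit 14) (.e (nat_lit 491559) (nat_lit 10) (.e (nat_lit 344177) (nat_lit 43) (.e (nat_lit 770072) (nat_lit 8) (.e (nat_lit 65538) (nat_lit 0) (.e (nat_lit 7936) (nat_lit 345) .nil)))))) (.g (nat_lit 4) .nil .nil)))) (.nd (nat_lit 6) 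
(.lf (nat_lit 136100) (.g (nat_lit 638) (.e (nat_lit 16473) (nat_lit 14) (.e (nat_lit 491558) (nat_lit 10) (.e (nat_lit 344091) (nat_lit 18) .nil))) .nil)) 
(.lf (nat_lit 136164) (.g (nat_lit 2920) (.e (nat_lit 16473) (nat_lit 14) (.e (nat_lit 491560) (nat_lit 10) (.e (nat_lit 344152) (nat_lit 34) (.e (nat_lit 622617) (nat_lit 10) (.e (nat_lit 73768) (nat_lit 19) (.e (nat_lit 647199) (nat_lit 11) .nil)))))) (.g (nat_lit 0) .nil .nil))))) (.nd (nat_lit 5) (.nd (nat_lit 6) 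
(.lf (nat_lit 136084) (.g (nat_lit 1805) (.e (nat_lit 16473) (nat_lit 14) (.e (nat_lit 491552) (nat_lit 9) (.e (nat_lit 336412) (nat_lit 27) (.e (nat_lit 426182) (nat_lit 8) (.e (nat_lit 417820) (nat_lit 10) (.e (nat_lit 7936) (nat_lit 300) .nil)))))) (.g (nat_lit 5) .nil .nil))) 
(.lf (nat_lit 136148) (.g (nat_lit 3100) (.e (nat_lit 16473) (nat_lit 14) (.e (nat_lit 491560) (nat_lit 10) (.e (nat_lit 344094) (nat_lit 18) (.e (nat_lit 7454) (nat_lit 396) (.e (nat_lit 1116) (nat_lit 82) (.e (nat_lit 8500) (nat_lit 184) (.e (nat_lit 229656) (nat_lit 234) .nil))))))) (.g (nat_lit 5) .nil .nil)))) (.nd (nat_lit 6) 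
(.lf (nat_lit 136116) (.g (nat_lit 2618) (.e (nat_lit 16473) (nat_lit 14) (.e (nat_lit 491558) (nat_lit 10) (.e (nat_lit 344177) (nat_lit 43) (.e (nat_lit 770072) (nat_lit 8) (.e (nat_lit 65539) (nat_lit 0) .nil))))) .nil)) 
(.lf (nat_lit 136180) (.g (nat_lit 1542) (.e (nat_lit 16473) (nat_lit 14) (.e (nat_lit 491560) (nat_lit 10) (.e (nat_lit 344174) (nat_lit 42) (.e (nat_lit 761866) (nat_lit 5) .nil)))) .nil))))) (.nd (nat_lit 4) (.nd (nat_lit 5) (.nd (nat_lit 6) 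
(.lf (nat_lit 136076) (.g (nat_lit 1379) (.e (nat_lit 16473) (nat_lit 14) (.e (nat_lit 491552) (nat_lit 9) (.e (nat_lit 336412) (nat_lit 27) (.e (nat_lit 426181) (nat_lit 8) (.e (nat_lit 417816) (nat_lit 10) (.e (nat_lit 7936) (nat_lit 300) .nil)))))) (.g (nat_lit 5) .nil .nil))) 
(.lf (nat_lit 136140) (.g (nat_lit 730) (.e (nat_lit 16473) (nat_lit 14) (.e (nat_lit 491560) (nat_lit 10) (.e (nat_lit 344087) (nat_lit 18) .nil))) .nil))) (.nd (nat_lit 6) 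
(.lf (nat_lit 136108) (.g (nat_lit 2530) (.e (nat_lit 16473) (nat_lit 14) (.e (nat_lit 491558) (nat_lit 10) (.e (nat_lit 344100) (nat_lit 18) (.e (nat_lit 7270) (nat_lit 385) (.e (nat_lit 122913) (nat_lit 13) (.e (nat_lit 352000) (nat_lit 10) .nil)))))) (.g (nat_lit 4) .nil .nil))) 
(.lf (nat_lit 136172) (.g (nat_lit 3394) (.e (nat_lit 16473) (nat_lit 14) (.e (nat_lit 491560) (nat_lit 10) (.e (nat_lit 344160) (nat_lit 37) (.e (nat_lit 647201) (nat_lit 12) (.e (nat_lit 65280) (nat_lit 58) (.e (nat_lit 802848) (nat_lit 28) (.e (nat_lit 253991) (nat_lit 11) .nil))))))) (.g (nat_lit 4) .nil .nil))))) (.nd (nat_lit 5) (.nd (nat_lit 6) 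
(.lf (nat_lit 136092) (.g (nat_lit 2737) (.e (nat_lit 16473) (nat_lit 14) (.e (nat_lit 491556) (nat_lit 9) (.e (nat_lit 336051) (nat_lit 6) (.e (nat_lit 147495) (nat_lit 11) (.e (nat_lit 24577) (nat_lit 0) .nil))))) .nil)) 
(.lf (nat_lit 136156) (.g (nat_lit 1392) (.e (nat_lit 16473) (nat_lit 14) (.e (nat_lit 491560) (nat_lit 10) (.e (nat_lit 344097) (nat_lit 18) (.e (nat_lit 7273) (nat_lit 385) .nil)))) .nil))) (.nd (nat_lit 6) 
(.lf (nat_lit 136124) (.g (nat_lit 1560) (.e (nat_lit 16473) (nat_lit 14) (.e (nat_lit 491559) (nat_lit 10) (.e (nat_lit 344169) (nat_lit 40) (.e (nat_lit 671770) (nat_lit 9) (.e (nat_lit 2707) (nat_lit 170) .nil))))) .nil)) 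
(.lf (nat_lit 136188) (.g (nat_lit 2645) (.e (nat_lit 16473) (nat_lit 14) (.e (nat_lit 491560) (nat_lit 10) (.e (nat_lit 344176) (nat_lit 43) (.e (nat_lit 770073) (nat_lit 9) (.e (nat_lit 81664) (nat_lit 42) .nil))))) (.g (nat_lit 4) .nil .nil)))))))) (.nd (nat_lit 2) (.nd (nat_lit 3) (.nd (nat_lit 4) (.nd (nat_lit 5) (.nd (nat_lit 6) 
(.lf (nat_lit 136066) (.g (nat_lit 134) (.e (nat_lit 16473) (nat_lit 14) (.e (nat_lit 491552) (nat_lit 9) (.e (nat_lit 336412) (nat_lit 27) .nil))) .nil)) 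
(.lf (nat_lit 136130) (.g (nat_lit 5143) (.e (nat_lit 16473) (nat_lit 14) (.e (nat_lit 491559) (nat_lit 10) (.e (nat_lit 344177) (nat_lit 43) (.e (nat_lit 770072) (nat_lit 8) (.e (nat_lit 65537) (nat_lit 0) (.e (nat_lit 6510) (nat_lit 345) .nil)))))) (.g (nat_lit 5) .nil .nil)))) (.nd (nat_lit 6) 
(.lf (nat_lit 136098) (.g (nat_lit 1520) (.e (nat_lit 16473) (nat_lit 14) (.e (nat_lit 491556) (nat_lit 9) (.e (nat_lit 336429) (nat_lit 29) (.e (nat_lit 442419) (nat_lit 21) (.e (nat_lit 164257) (nat_lit 215) .nil))))) .nil)) 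
(.lf (nat_lit 136162) (.g (nat_lit 2002) (.e (nat_lit 16473) (nat_lit 14) (.e (nat_lit 491560) (nat_lit 10) (.e (nat_lit 344099) (nat_lit 18) (.e (nat_lit 7272) (nat_lit 385) (.e (nat_lit 122913) (nat_lit 13) (.e (nat_lit 352000) (nat_lit 10) .nil)))))) (.g (nat_lit 5) .nil .nil))))) (.nd (nat_lit 5) (.nd (nat_lit 6) 
(.lf (nat_lit 136082) (.g (nat_lit 2197) (.e (nat_lit 16473) (nat_lit 14) (.e (nat_lit 491552) (nat_lit 9) (.e (nat_lit 336412) (nat_lit 27) (.e (nat_lit 426182) (nat_lit 8) (.e (nat_lit 417819) (nat_lit 10) (.e (nat_lit 5383) (nat_lit 300) .nil)))))) (.g (nat_lit 4) .nil .nil))) 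
(.lf (nat_lit 136146) (.g (nat_lit 2964) (.e (nat_lit 16473) (nat_lit 14) (.e (nat_lit 491560) (nat_lit 10) (.e (nat_lit 344091) (nat_lit 18) (.e (nat_lit 6943) (nat_lit 375) (.e (nat_lit 163896) (nat_lit 10) (.e (nat_lit 409616) (nat_lit 10) (.e (nat_lit 7936) (nat_lit 300) .nil))))))) (.g (nat_lit 5) .nil .nil)))) (.nd (nat_lit 6) 
(.lf (nat_lit 136114) (.g (nat_lit 670) (.e (nat_lit 16473) (nat_lit 14) (.e (nat_lit 491558) (nat_lit 10) (.e (nat_lit 344177) (nat_lit 43) .nil))) .nil)) 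
(.lf (nat_lit 136178) (.g (nat_lit 447) (.e (nat_lit 16473) (nat_lit 14) (.e (nat_lit 491560) (nat_lit 10) (.e (nat_lit 344168) (nat_lit 40) .nil))) .nil))))) (.nd (nat_lit 4) (.nd (nat_lit 5) (.nd (nat_lit 6) 
(.lf (nat_lit 136074) (.g (nat_lit 2426) (.e (nat_lit 16473) (nat_lit 14) (.e (nat_lit 491552) (nat_lit 9) (.e (nat_lit 336412) (nat_lit 27) (.e (nat_lit 426181) (nat_lit 8) (.e (nat_lit 417814) (nat_lit 10) (.e (nat_lit 5382) (nat_lit 300) .nil)))))) (.g (nat_lit 5) .nil .nil))) 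
(.lf (nat_lit 136138) (.g (nat_lit 3883) (.e (nat_lit 16473) (nat_lit 14) (.e (nat_lit 491559) (nat_lit 10) (.e (nat_lit 344177) (nat_lit 43) (.e (nat_lit 770072) (nat_lit 8) (.e (nat_lit 65574) (nat_lit 4) (.e (nat_lit 123112) (nat_lit 215) (.e (nat_lit 1126) (nat_lit 83) .nil))))))) (.g (nat_lit 4) .nil .nil)))) (.nd (nat_lit 6) 
(.lf (nat_lit 136106) (.g (nat_lit 2583) (.e (nat_lit 16473) (nat_lit 14) (.e (nat_lit 491558) (nat_lit 10) (.e (nat_lit 344097) (nat_lit 18) (.e (nat_lit 7273) (nat_lit 385) (.e (nat_lit 122913) (nat_lit 13) (.e (nat_lit 352000) (nat_lit 10) .nil)))))) (.g (nat_lit 5) .nil .nil))) 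
(.lf (nat_lit 136170) (.g (nat_lit 3993) (.e (nat_lit 16473) (nat_lit 14) (.e (nat_lit 491560) (nat_lit 10) (.e (nat_lit 344160) (nat_lit 37) (.e (nat_lit 647195) (nat_lit 9) (.e (nat_lit 1040) (nat_lit 81) (.e (nat_lit 7936) (nat_lit 155) (.e (nat_lit 811046) (nat_lit 15) (.e (nat_lit 49187) (nat_lit 11) .nil)))))))) (.g (nat_lit 4) .nil .nil))))) (.nd (nat_lit 5) (.nd (nat_lit 6) 
(.lf (nat_lit 136090) (.g (nat_lit 1776) (.e (nat_lit 16473) (nat_lit 14) (.e (nat_lit 491552) (nat_lit 9) (.e (nat_lit 343808) (nat_lit 28) (.e (nat_lit 434198) (nat_lit 17) (.e (nat_lit 229656) (nat_lit 234) .nil))))) (.g (nat_lit 4) .nil .nil))) 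
(.lf (nat_lit 136154) (.g (nat_lit 3954) (.e (nat_lit 16473) (nat_lit 14) (.e (nat_lit 491560) (nat_lit 10) (.e (nat_lit 344097) (nat_lit 18) (.e (nat_lit 7270) (nat_lit 385) (.e (nat_lit 122913) (nat_lit 13) (.e (nat_lit 352000) (nat_lit 10) .nil)))))) (.g (nat_lit 4) .nil .nil)))) (.nd (nat_lit 6) 
(.lf (nat_lit 136122) (.g (nat_lit 4210) (.e (nat_lit 16473) (nat_lit 14) (.e (nat_lit 491559) (nat_lit 10) (.e (nat_lit 344169) (nat_lit 40) (.e (nat_lit 671744) (nat_lit 0) (.e (nat_lit 1281) (nat_lit 94) (.e (nat_lit 114723) (nat_lit 24) (.e (nat_lit 106535) (nat_lit 11) .nil))))))) (.g (nat_lit 4) .nil .nil))) 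
(.lf (nat_lit 136186) (.g (nat_lit 2037) (.e (nat_lit 16473) (nat_lit 14) (.e (nat_lit 491560) (nat_lit 10) (.e (nat_lit 344175) (nat_lit 43) (.e (nat_lit 770073) (nat_lit 9) (.e (nat_lit 81664) (nat_lit 42) .nil))))) (.g (nat_lit 4) .nil .nil))))))) (.nd (nat_lit 3) (.nd (nat_lit 4) (.nd (nat_lit 5) (.nd (nat_lit 6) 
(.lf (nat_lit 136070) (.g (nat_lit 1473) (.e (nat_lit 16473) (nat_lit 14) (.e (nat_lit 491552) (nat_lit 9) (.e (nat_lit 336412) (nat_lit 27) (.e (nat_lit 426179) (nat_lit 8) (.e (nat_lit 417816) (nat_lit 10) (.e (nat_lit 7936) (nat_lit 300) .nil)))))) (.g (nat_lit 5) .nil .nil))) 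
(.lf (nat_lit 136134) (.g (nat_lit 2563) (.e (nat_lit 16473) (nat_lit 14) (.e (nat_lit 491559) (nat_lit 10) (.e (nat_lit 344177) (nat_lit 43) (.e (nat_lit 770072) (nat_lit 8) (.e (nat_lit 65540) (nat_lit 0) .nil))))) .nil))) (.nd (nat_lit 6) 
(.lf (nat_lit 136102) (.g (nat_lit 1485) (.e (nat_lit 16473) (nat_lit 14) (.e (nat_lit 491558) (nat_lit 10) (.e (nat_lit 344091) (nat_lit 18) (.e (nat_lit 7122) (nat_lit 382) .nil)))) .nil)) 
(.lf (nat_lit 136166) (.g (nat_lit 793) (.e (nat_lit 16473) (nat_lit 14) (.e (nat_lit 491560) (nat_lit 10) (.e (nat_lit 344160) (nat_lit 37) .nil))) .nil)))) (.nd (nat_lit 5) (.nd (nat_lit 6) 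
(.lf (nat_lit 136086) (.g (nat_lit 1320) (.e (nat_lit 16473) (nat_lit 14) (.e (nat_lit 491552) (nat_lit 9) (.e (nat_lit 336412) (nat_lit 27) (.e (nat_lit 426182) (nat_lit 8) (.e (nat_lit 417821) (nat_lit 10) (.e (nat_lit 7936) (nat_lit 300) .nil)))))) (.g (nat_lit 4) .nil .nil))) 
(.lf (nat_lit 136150) (.g (nat_lit 3271) (.e (nat_lit 16473) (nat_lit 14) (.e (nat_lit 491560) (nat_lit 10) (.e (nat_lit 344097) (nat_lit 18) (.e (nat_lit 7147) (nat_lit 382) (.e (nat_lit 1207) (nat_lit 89) (.e (nat_lit 81664) (nat_lit 42) .nil)))))) (.g (nat_lit 5) .nil .nil)))) (.nd (nat_lit 6) 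
(.lf (nat_lit 136118) (.g (nat_lit 3433) (.e (nat_lit 16473) (nat_lit 14) (.e (nat_lit 491558) (nat_lit 10) (.e (nat_lit 344180) (nat_lit 44) (.e (nat_lit 778465) (nat_lit 11) (.e (nat_lit 24580) (nat_lit 0) (.e (nat_lit 6508) (nat_lit 345) .nil)))))) (.g (nat_lit 4) .nil .nil))) 
(.lf (nat_lit 136182) (.g (nat_lit 1568) (.e (nat_lit 16473) (nat_lit 14) (.e (nat_lit 491560) (nat_lit 10) (.e (nat_lit 344174) (nat_lit 42) (.e (nat_lit 761869) (nat_lit 5) .nil)))) .nil))))) (.nd (nat_lit 4) (.nd (nat_lit 5) (.nd (nat_lit 6) 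
(.lf (nat_lit 136078) (.g (nat_lit 981) (.e (nat_lit 16473) (nat_lit 14) (.e (nat_lit 491552) (nat_lit 9) (.e (nat_lit 336412) (nat_lit 27) (.e (nat_lit 426181) (nat_lit 8) (.e (nat_lit 417819) (nat_lit 10) (.e (nat_lit 7936) (nat_lit 300) .nil)))))) (.g (nat_lit 4) .nil .nil))) 
(.lf (nat_lit 136142) (.g (nat_lit 734) (.e (nat_lit 16473) (nat_lit 14) (.e (nat_lit 491560) (nat_lit 10) (.e (nat_lit 344090) (nat_lit 18) .nil))) .nil))) (.nd (nat_lit 6) 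
(.lf (nat_lit 136110) (.g (nat_lit 696) (.e (nat_lit 16473) (nat_lit 14) (.e (nat_lit 491558) (nat_lit 10) (.e (nat_lit 344161) (nat_lit 37) .nil))) .nil)) 
(.lf (nat_lit 136174) (.g (nat_lit 1415) (.e (nat_lit 16473) (nat_lit 14) (.e (nat_lit 491560) (nat_lit 10) (.e (nat_lit 344160) (nat_lit 37) (.e (nat_lit 647203) (nat_lit 14) .nil)))) .nil)))) (.nd (nat_lit 5) (.nd (nat_lit 6) 
(.lf (nat_lit 136094) (.g (nat_lit 2621) (.e (nat_lit 16473) (nat_lit 14) (.e (nat_lit 491556) (nat_lit 9) (.e (nat_lit 336051) (nat_lit 6) (.e (nat_lit 147495) (nat_lit 11) (.e (nat_lit 24579) (nat_lit 0) .nil))))) .nil)) 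
(.lf (nat_lit 136158) (.g (nat_lit 3147) (.e (nat_lit 16473) (nat_lit 14) (.e (nat_lit 491560) (nat_lit 10) (.e (nat_lit 344097) (nat_lit 18) (.e (nat_lit 7273) (nat_lit 385) (.e (nat_lit 122913) (nat_lit 13) (.e (nat_lit 352000) (nat_lit 10) .nil)))))) (.g (nat_lit 5) .nil .nil)))) (.nd (nat_lit 6) 
(.lf (nat_lit 136126) (.g (nat_lit 3806) (.e (nat_lit 16473) (nat_lit 14) (.e (nat_lit 491559) (nat_lit 10) (.e (nat_lit 344177) (nat_lit 43) (.e (nat_lit 770071) (nat_lit 8) (.e (nat_lit 65538) (nat_lit 0) (.e (nat_lit 7936) (nat_lit 345) .nil)))))) (.g (nat_lit 5) .nil .nil))) 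
(.lf (nat_lit 136190) (.g (nat_lit 4444) (.e (nat_lit 16473) (nat_lit 14) (.e (nat_lit 491560) (nat_lit 10) (.e (nat_lit 344177) (nat_lit 43) (.e (nat_lit 770071) (nat_lit 8) (.e (nat_lit 65538) (nat_lit 0) (.e (nat_lit 6509) (nat_lit 345) .nil)))))) (.g (nat_lit 4) .nil .nil))))))))) (.nd (nat_lit 1) (.nd (nat_lit 2) (.nd (nat_lit 3) (.nd (nat_lit 4) (.nd (nat_lit 5) (.nd (nat_lit 6) 
(.lf (nat_lit 136065) (.g (nat_lit 2431) (.e (nat_lit 16473) (nat_lit 14) (.e (nat_lit 491552) (nat_lit 9) (.e (nat_lit 336388) (nat_lit 27) (.e (nat_lit 426172) (nat_lit 7) (.e (nat_lit 409616) (nat_lit 10) (.e (nat_lit 7936) (nat_lit 300) .nil)))))) (.g (nat_lit 5) .nil .nil))) 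
(.lf (nat_lit 136129) (.g (nat_lit 4777) (.e (nat_lit 16473) (nat_lit 14) (.e (nat_lit 491559) (nat_lit 10) (.e (nat_lit 344177) (nat_lit 43) (.e (nat_lit 770072) (nat_lit 8) (.e (nat_lit 65537) (nat_lit 0) (.e (nat_lit 6509) (nat_lit 345) .nil)))))) (.g (nat_lit 4) .nil .nil)))) (.nd (nat_lit 6) 
(.lf (nat_lit 136097) (.g (nat_lit 3375) (.e (nat_lit 16473) (nat_lit 14) (.e (nat_lit 491556) (nat_lit 9) (.e (nat_lit 336390) (nat_lit 27) (.e (nat_lit 426172) (nat_lit 7) (.e (nat_lit 409616) (nat_lit 10) (.e (nat_lit 7936) (nat_lit 300) .nil)))))) (.g (nat_lit 5) .nil .nil))) 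
(.lf (nat_lit 136161) (.g (nat_lit 1779) (.e (nat_lit 16473) (nat_lit 14) (.e (nat_lit 491560) (nat_lit 10) (.e (nat_lit 344099) (nat_lit 18) (.e (nat_lit 7270) (nat_lit 385) (.e (nat_lit 122913) (nat_lit 13) (.e (nat_lit 352000) (nat_lit 10) .nil)))))) (.g (nat_lit 4) .nil .nil))))) (.nd (nat_lit 5) (.nd (nat_lit 6) 
(.lf (nat_lit 136081) (.g (nat_lit 1590) (.e (nat_lit 16473) (nat_lit 14) (.e (nat_lit 491552) (nat_lit 9) (.e (nat_lit 336412) (nat_lit 27) (.e (nat_lit 426182) (nat_lit 8) (.e (nat_lit 417816) (nat_lit 10) (.e (nat_lit 7936) (nat_lit 300) .nil)))))) (.g (nat_lit 4) .nil .nil))) 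
(.lf (nat_lit 136145) (.g (nat_lit 835) (.e (nat_lit 16473) (nat_lit 14) (.e (nat_lit 491560) (nat_lit 10) (.e (nat_lit 344091) (nat_lit 18) .nil))) .nil))) (.nd (nat_lit 6) 
(.lf (nat_lit 136113) (.g (nat_lit 693) (.e (nat_lit 16473) (nat_lit 14) (.e (nat_lit 491558) (nat_lit 10) (.e (nat_lit 344175) (nat_lit 43) .nil))) .nil)) 
(.lf (nat_lit 136177) (.g (nat_lit 3009) (.e (nat_lit 16473) (nat_lit 14) (.e (nat_lit 491560) (nat_lit 10) (.e (nat_lit 344161) (nat_lit 37) (.e (nat_lit 647201) (nat_lit 12) (.e (nat_lit 65280) (nat_lit 58) (.e (nat_lit 802848) (nat_lit 28) (.e (nat_lit 253990) (nat_lit 11) .nil))))))) (.g (nat_lit 4) .nil .nil)))))) (.nd (nat_lit 4) (.nd (nat_lit 5) (.nd (nat_lit 6) 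
(.lf (nat_lit 136073) (.g (nat_lit 922) (.e (nat_lit 16473) (nat_lit 14) (.e (nat_lit 491552) (nat_lit 9) (.e (nat_lit 336412) (nat_lit 27) (.e (nat_lit 426179) (nat_lit 8) (.e (nat_lit 417821) (nat_lit 10) (.e (nat_lit 7936) (nat_lit 300) .nil)))))) (.g (nat_lit 4) .nil .nil))) 
(.lf (nat_lit 136137) (.g (nat_lit 4256) (.e (nat_lit 16473) (nat_lit 14) (.e (nat_lit 491559) (nat_lit 10) (.e (nat_lit 344177) (nat_lit 43) (.e (nat_lit 770072) (nat_lit 8) (.e (nat_lit 65543) (nat_lit 0) (.e (nat_lit 7936) (nat_lit 345) .nil)))))) (.g (nat_lit 5) .nil .nil)))) (.nd (nat_lit 6) 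
(.lf (nat_lit 136105) (.g (nat_lit 3509) (.e (nat_lit 16473) (nat_lit 14) (.e (nat_lit 491558) (nat_lit 10) (.e (nat_lit 344097) (nat_lit 18) (.e (nat_lit 7270) (nat_lit 385) (.e (nat_lit 122913) (nat_lit 13) (.e (nat_lit 352000) (nat_lit 10) .nil)))))) (.g (nat_lit 5) .nil .nil))) 
(.lf (nat_lit 136169) (.g (nat_lit 4062) (.e (nat_lit 16473) (nat_lit 14) (.e (nat_lit 491560) (nat_lit 10) (.e (nat_lit 344160) (nat_lit 37) (.e (nat_lit 647195) (nat_lit 9) (.e (nat_lit 7936) (nat_lit 36) (.e (nat_lit 458800) (nat_lit 33) (.e (nat_lit 614435) (nat_lit 11) .nil))))))) (.g (nat_lit 4) .nil .nil))))) (.nd (nat_lit 5) (.nd (nat_lit 6) 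
(.lf (nat_lit 136089) (.g (nat_lit 1959) (.e (nat_lit 16473) (nat_lit 14) (.e (nat_lit 491552) (nat_lit 9) (.e (nat_lit 343808) (nat_lit 27) (.e (nat_lit 426172) (nat_lit 7) (.e (nat_lit 409616) (nat_lit 10) (.e (nat_lit 7936) (nat_lit 300) .nil)))))) (.g (nat_lit 5) .nil .nil))) 
(.lf (nat_lit 136153) (.g (nat_lit 2883) (.e (nat_lit 16473) (nat_lit 14) (.e (nat_lit 491560) (nat_lit 10) (.e (nat_lit 344097) (nat_lit 18) (.e (nat_lit 7270) (nat_lit 385) (.e (nat_lit 122911) (nat_lit 13) .nil))))) .nil))) (.nd (nat_lit 6) 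
(.lf (nat_lit 136121) (.g (nat_lit 495) (.e (nat_lit 16473) (nat_lit 14) (.e (nat_lit 491559) (nat_lit 10) (.e (nat_lit 344169) (nat_lit 40) .nil))) .nil)) 
(.lf (nat_lit 136185) (.g (nat_lit 2144) (.e (nat_lit 16473) (nat_lit 14) (.e (nat_lit 491560) (nat_lit 10) (.e (nat_lit 344175) (nat_lit 43) (.e (nat_lit 770072) (nat_lit 8) (.e (nat_lit 65539) (nat_lit 0) (.e (nat_lit 7936) (nat_lit 345) .nil)))))) (.g (nat_lit 4) .nil .nil))))))) (.nd (nat_lit 3) (.nd (nat_lit 4) (.nd (nat_lit 5) (.nd (nat_lit 6) 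
(.lf (nat_lit 136069) (.g (nat_lit 1680) (.e (nat_lit 16473) (nat_lit 14) (.e (nat_lit 491552) (nat_lit 9) (.e (nat_lit 336412) (nat_lit 27) (.e (nat_lit 426179) (nat_lit 8) (.e (nat_lit 417815) (nat_lit 10) (.e (nat_lit 7936) (nat_lit 300) .nil)))))) (.g (nat_lit 5) .nil .nil))) 
(.lf (nat_lit 136133) (.g (nat_lit 4457) (.e (nat_lit 16473) (nat_lit 14) (.e (nat_lit 491559) (nat_lit 10) (.e (nat_lit 344177) (nat_lit 43) (.e (nat_lit 770072) (nat_lit 8) (.e (nat_lit 65539) (nat_lit 0) (.e (nat_lit 7936) (nat_lit 345) .nil)))))) (.g (nat_lit 5) .nil .nil)))) (.nd (nat_lit 6) 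
(.lf (nat_lit 136101) (.g (nat_lit 2688) (.e (nat_lit 16473) (nat_lit 14) (.e (nat_lit 491558) (nat_lit 10) (.e (nat_lit 344091) (nat_lit 18) (.e (nat_lit 6943) (nat_lit 375) (.e (nat_lit 163896) (nat_lit 10) (.e (nat_lit 409616) (nat_lit 10) (.e (nat_lit 7936) (nat_lit 300) .nil))))))) (.g (nat_lit 5) .nil .nil))) 
(.lf (nat_lit 136165) (.g (nat_lit 834) (.e (nat_lit 16473) (nat_lit 14) (.e (nat_lit 491560) (nat_lit 10) (.e (nat_lit 344159) (nat_lit 37) .nil))) .nil)))) (.nd (nat_lit 5) (.nd (nat_lit 6) 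
(.lf (nat_lit 136085) (.g (nat_lit 2633) (.e (nat_lit 16473) (nat_lit 14) (.e (nat_lit 491552) (nat_lit 9) (.e (nat_lit 336412) (nat_lit 27) (.e (nat_lit 426182) (nat_lit 8) (.e (nat_lit 417821) (nat_lit 10) (.e (nat_lit 5383) (nat_lit 300) .nil)))))) (.g (nat_lit 4) .nil .nil))) 
(.lf (nat_lit 136149) (.g (nat_lit 2803) (.e (nat_lit 16473) (nat_lit 14) (.e (nat_lit 491560) (nat_lit 10) (.e (nat_lit 344097) (nat_lit 18) (.e (nat_lit 7147) (nat_lit 382) (.e (nat_lit 1206) (nat_lit 89) (.e (nat_lit 81664) (nat_lit 42) .nil)))))) (.g (nat_lit 4) .nil .nil)))) (.nd (nat_lit 6) 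
(.lf (nat_lit 136117) (.g (nat_lit 2200) (.e (nat_lit 16473) (nat_lit 14) (.e (nat_lit 491558) (nat_lit 10) (.e (nat_lit 344177) (nat_lit 43) (.e (nat_lit 770073) (nat_lit 9) (.e (nat_lit 81664) (nat_lit 42) .nil))))) (.g (nat_lit 4) .nil .nil))) 
(.lf (nat_lit 136181) (.g (nat_lit 1554) (.e (nat_lit 16473) (nat_lit 14) (.e (nat_lit 491560) (nat_lit 10) (.e (nat_lit 344174) (nat_lit 42) (.e (nat_lit 761867) (nat_lit 5) .nil)))) .nil))))) (.nd (nat_lit 4) (.nd (nat_lit 5) (.nd (nat_lit 6) 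
(.lf (nat_lit 136077) (.g (nat_lit 2466) (.e (nat_lit 16473) (nat_lit 14) (.e (nat_lit 491552) (nat_lit 9) (.e (nat_lit 336412) (nat_lit 27) (.e (nat_lit 426181) (nat_lit 8) (.e (nat_lit 417819) (nat_lit 10) (.e (nat_lit 5383) (nat_lit 300) .nil)))))) (.g (nat_lit 5) .nil .nil))) 
(.lf (nat_lit 136141) (.g (nat_lit 1227) (.e (nat_lit 16473) (nat_lit 14) (.e (nat_lit 491560) (nat_lit 10) (.e (nat_lit 344088) (nat_lit 18) (.e (nat_lit 4798) (nat_lit 281) .nil)))) .nil))) (.nd (nat_lit 6) 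
(.lf (nat_lit 136109) (.g (nat_lit 692) (.e (nat_lit 16473) (nat_lit 14) (.e (nat_lit 491558) (nat_lit 10) (.e (nat_lit 344160) (nat_lit 37) .nil))) .nil)) 
(.lf (nat_lit 136173) (.g (nat_lit 3544) (.e (nat_lit 16473) (nat_lit 14) (.e (nat_lit 491560) (nat_lit 10) (.e (nat_lit 344160) (nat_lit 37) (.e (nat_lit 647201) (nat_lit 12) (.e (nat_lit 65280) (nat_lit 59) (.e (nat_lit 811046) (nat_lit 15) (.e (nat_lit 49188) (nat_lit 11) .nil))))))) (.g (nat_lit 4) .nil .nil))))) (.nd (nat_lit 5) (.nd (nat_lit 6) 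
(.lf (nat_lit 136093) (.g (nat_lit 2589) (.e (nat_lit 16473) (nat_lit 14) (.e (nat_lit 491556) (nat_lit 9) (.e (nat_lit 336051) (nat_lit 6) (.e (nat_lit 147495) (nat_lit 11) (.e (nat_lit 24578) (nat_lit 0) .nil))))) .nil)) 
(.lf (nat_lit 136157) (.g (nat_lit 4206) (.e (nat_lit 16473) (nat_lit 14) (.e (nat_lit 491560) (nat_lit 10) (.e (nat_lit 344097) (nat_lit 18) (.e (nat_lit 7273) (nat_lit 385) (.e (nat_lit 122909) (nat_lit 12) (.e (nat_lit 335872) (nat_lit 0) (.e (nat_lit 6509) (nat_lit 345) .nil))))))) (.g (nat_lit 4) .nil .nil)))) (.nd (nat_lit 6) 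
(.lf (nat_lit 136125) (.g (nat_lit 519) (.e (nat_lit 16473) (nat_lit 14) (.e (nat_lit 491559) (nat_lit 10) (.e (nat_lit 344177) (nat_lit 43) .nil))) .nil)) 
(.lf (nat_lit 136189) (.g (nat_lit 1529) (.e (nat_lit 16473) (nat_lit 14) (.e (nat_lit 491560) (nat_lit 10) (.e (nat_lit 344177) (nat_lit 43) (.e (nat_lit 770054) (nat_lit 5) (.e (nat_lit 1602) (nat_lit 112) .nil))))) .nil))))))) (.nd (nat_lit 2) (.nd (nat_lit 3) (.nd (nat_lit 4) (.nd (nat_lit 5) (.nd (nat_lit 6) 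
(.lf (nat_lit 136067) (.g (nat_lit 2171) (.e (nat_lit 16473) (nat_lit 14) (.e (nat_lit 491552) (nat_lit 9) (.e (nat_lit 336412) (nat_lit 27) (.e (nat_lit 426179) (nat_lit 8) (.e (nat_lit 417814) (nat_lit 10) (.e (nat_lit 5382) (nat_lit 300) .nil)))))) (.g (nat_lit 4) .nil .nil))) 
(.lf (nat_lit 136131) (.g (nat_lit 4233) (.e (nat_lit 16473) (nat_lit 14) (.e (nat_lit 491559) (nat_lit 10) (.e (nat_lit 344177) (nat_lit 43) (.e (nat_lit 770072) (nat_lit 8) (.e (nat_lit 65537) (nat_lit 0) (.e (nat_lit 7936) (nat_lit 345) .nil)))))) (.g (nat_lit 5) .nil .nil)))) (.nd (nat_lit 6) 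
(.lf (nat_lit 136099) (.g (nat_lit 711) (.e (nat_lit 16473) (nat_lit 14) (.e (nat_lit 491558) (nat_lit 10) (.e (nat_lit 344088) (nat_lit 18) .nil))) .nil)) 
(.lf (nat_lit 136163) (.g (nat_lit 3212) (.e (nat_lit 16473) (nat_lit 14) (.e (nat_lit 491560) (nat_lit 10) (.e (nat_lit 344151) (nat_lit 34) (.e (nat_lit 622617) (nat_lit 10) (.e (nat_lit 73768) (nat_lit 19) (.e (nat_lit 647199) (nat_lit 11) .nil)))))) (.g (nat_lit 0) .nil .nil))))) (.nd (nat_lit 5) (.nd (nat_lit 6) 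
(.lf (nat_lit 136083) (.g (nat_lit 3272) (.e (nat_lit 16473) (nat_lit 14) (.e (nat_lit 491552) (nat_lit 9) (.e (nat_lit 336412) (nat_lit 27) (.e (nat_lit 426182) (nat_lit 8) (.e (nat_lit 417820) (nat_lit 10) (.e (nat_lit 5383) (nat_lit 300) .nil)))))) (.g (nat_lit 5) .nil .nil))) 
(.lf (nat_lit 136147) (.g (nat_lit 3025) (.e (nat_lit 16473) (nat_lit 14) (.e (nat_lit 491560) (nat_lit 10) (.e (nat_lit 344094) (nat_lit 18) (.e (nat_lit 7263) (nat_lit 384) (.e (nat_lit 57400) (nat_lit 10) (.e (nat_lit 319490) (nat_lit 0) (.e (nat_lit 5383) (nat_lit 300) .nil))))))) (.g (nat_lit 4) .nil .nil)))) (.nd (nat_lit 6) 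
(.lf (nat_lit 136115) (.g (nat_lit 1364) (.e (nat_lit 16473) (nat_lit 14) (.e (nat_lit 491558) (nat_lit 10) (.e (nat_lit 344177) (nat_lit 43) (.e (nat_lit 770072) (nat_lit 8) .nil)))) .nil)) 
(.lf (nat_lit 136179) (.g (nat_lit 3361) (.e (nat_lit 16473) (nat_lit 14) (.e (nat_lit 491560) (nat_lit 10) (.e (nat_lit 344168) (nat_lit 40) (.e (nat_lit 671782) (nat_lit 12) (.e (nat_lit 164070) (nat_lit 59) (.e (nat_lit 811046) (nat_lit 15) (.e (nat_lit 49187) (nat_lit 11) .nil))))))) (.g (nat_lit 5) .nil .nil)))))) (.nd (nat_lit 4) (.nd (nat_lit 5) (.nd (nat_lit 6) 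
(.lf (nat_lit 136075) (.g (nat_lit 1372) (.e (nat_lit 16473) (nat_lit 14) (.e (nat_lit 491552) (nat_lit 9) (.e (nat_lit 336412) (nat_lit 27) (.e (nat_lit 426181) (nat_lit 8) (.e (nat_lit 417814) (nat_lit 10) (.e (nat_lit 7936) (nat_lit 300) .nil)))))) (.g (nat_lit 5) .nil .nil))) 
(.lf (nat_lit 136139) (.g (nat_lit 3343) (.e (nat_lit 16473) (nat_lit 14) (.e (nat_lit 491559) (nat_lit 10) (.e (nat_lit 344177) (nat_lit 43) (.e (nat_lit 770073) (nat_lit 9) (.e (nat_lit 81664) (nat_lit 42) .nil))))) (.g (nat_lit 4) .nil .nil)))) (.nd (nat_lit 6) 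
(.lf (nat_lit 136107) (.g (nat_lit 667) (.e (nat_lit 16473) (nat_lit 14) (.e (nat_lit 491558) (nat_lit 10) (.e (nat_lit 344100) (nat_lit 18) .nil))) .nil)) 
(.lf (nat_lit 136171) (.g (nat_lit 3020) (.e (nat_lit 16473) (nat_lit 14) (.e (nat_lit 491560) (nat_lit 10) (.e (nat_lit 344160) (nat_lit 37) (.e (nat_lit 647201) (nat_lit 12) (.e (nat_lit 65280) (nat_lit 57) (.e (nat_lit 794689) (nat_lit 28) (.e (nat_lit 253990) (nat_lit 11) .nil))))))) (.g (nat_lit 4) .nil .nil))))) (.nd (nat_lit 5) (.nd (nat_lit 6) 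
(.lf (nat_lit 136091) (.g (nat_lit 873) (.e (nat_lit 16473) (nat_lit 14) (.e (nat_lit 491552) (nat_lit 9) (.e (nat_lit 343808) (nat_lit 31) (.e (nat_lit 458769) (nat_lit 16) (.e (nat_lit 171776) (nat_lit 234) .nil))))) (.g (nat_lit 4) .nil .nil))) 
(.lf (nat_lit 136155) (.g (nat_lit 3269) (.e (nat_lit 16473) (nat_lit 14) (.e (nat_lit 491560) (nat_lit 10) (.e (nat_lit 344097) (nat_lit 18) (.e (nat_lit 7272) (nat_lit 385) (.e (nat_lit 122913) (nat_lit 13) (.e (nat_lit 352000) (nat_lit 10) .nil)))))) (.g (nat_lit 5) .nil .nil)))) (.nd (nat_lit 6) 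
(.lf (nat_lit 136123) (.g (nat_lit 3748) (.e (nat_lit 16473) (nat_lit 14) (.e (nat_lit 491559) (nat_lit 10) (.e (nat_lit 344169) (nat_lit 40) (.e (nat_lit 671748) (nat_lit 0) (.e (nat_lit 1278) (nat_lit 94) (.e (nat_lit 114723) (nat_lit 24) (.e (nat_lit 106534) (nat_lit 11) .nil))))))) (.g (nat_lit 4) .nil .nil))) 
(.lf (nat_lit 136187) (.g (nat_lit 606) (.e (nat_lit 16473) (nat_lit 14) (.e (nat_lit 491560) (nat_lit 10) (.e (nat_lit 344176) (nat_lit 43) .nil))) .nil)))))) (.nd (nat_lit 3) (.nd (nat_lit 4) (.nd (nat_lit 5) (.nd (nat_lit 6) 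
(.lf (nat_lit 136071) (.g (nat_lit 2222) (.e (nat_lit 16473) (nat_lit 14) (.e (nat_lit 491552) (nat_lit 9) (.e (nat_lit 336412) (nat_lit 27) (.e (nat_lit 426179) (nat_lit 8) (.e (nat_lit 417819) (nat_lit 10) (.e (nat_lit 5383) (nat_lit 300) .nil)))))) (.g (nat_lit 4) .nil .nil))) 
(.lf (nat_lit 136135) (.g (nat_lit 3516) (.e (nat_lit 16473) (nat_lit 14) (.e (nat_lit 491559) (nat_lit 10) (.e (nat_lit 344177) (nat_lit 43) (.e (nat_lit 770072) (nat_lit 8) (.e (nat_lit 65541) (nat_lit 0) (.e (nat_lit 7936) (nat_lit 345) .nil)))))) (.g (nat_lit 4) .nil .nil)))) (.nd (nat_lit 6) 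
(.lf (nat_lit 136103) (.g (nat_lit 2075) (.e (nat_lit 16473) (nat_lit 14) (.e (nat_lit 491558) (nat_lit 10) (.e (nat_lit 344097) (nat_lit 18) (.e (nat_lit 7147) (nat_lit 382) (.e (nat_lit 1206) (nat_lit 89) (.e (nat_lit 81664) (nat_lit 42) .nil)))))) (.g (nat_lit 4) .nil .nil))) 
(.lf (nat_lit 136167) (.g (nat_lit 3836) (.e (nat_lit 16473) (nat_lit 14) (.e (nat_lit 491560) (nat_lit 10) (.e (nat_lit 344160) (nat_lit 37) (.e (nat_lit 647190) (nat_lit 9) (.e (nat_lit 7936) (nat_lit 33) (.e (nat_lit 434260) (nat_lit 33) (.e (nat_lit 614435) (nat_lit 11) .nil))))))) (.g (nat_lit 4) .nil .nil))))) (.nd (nat_lit 5) (.nd (nat_lit 6) 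
(.lf (nat_lit 136087) (.g (nat_lit 2820) (.e (nat_lit 16473) (nat_lit 14) (.e (nat_lit 491552) (nat_lit 9) (.e (nat_lit 336412) (nat_lit 27) (.e (nat_lit 426182) (nat_lit 8) (.e (nat_lit 425728) (nat_lit 10) (.e (nat_lit 5384) (nat_lit 300) .nil)))))) (.g (nat_lit 4) .nil .nil))) 
(.lf (nat_lit 136151) (.g (nat_lit 1947) (.e (nat_lit 16473) (nat_lit 14) (.e (nat_lit 491560) (nat_lit 10) (.e (nat_lit 344097) (nat_lit 18) (.e (nat_lit 7254) (nat_lit 383) (.e (nat_lit 8198) (nat_lit 0) .nil))))) .nil))) (.nd (nat_lit 6) 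
(.lf (nat_lit 136119) (.g (nat_lit 3125) (.e (nat_lit 16473) (nat_lit 14) (.e (nat_lit 491558) (nat_lit 10) (.e (nat_lit 344180) (nat_lit 44) (.e (nat_lit 778465) (nat_lit 11) (.e (nat_lit 24580) (nat_lit 0) (.e (nat_lit 6510) (nat_lit 345) .nil)))))) (.g (nat_lit 4) .nil .nil))) 
(.lf (nat_lit 136183) (.g (nat_lit 3169) (.e (nat_lit 16473) (nat_lit 14) (.e (nat_lit 491560) (nat_lit 10) (.e (nat_lit 344175) (nat_lit 43) (.e (nat_lit 770069) (nat_lit 7) (.e (nat_lit 57723) (nat_lit 180) (.e (nat_lit 229656) (nat_lit 234) .nil)))))) (.g (nat_lit 5) .nil .nil)))))) (.nd (nat_lit 4) (.nd (nat_lit 5) (.nd (nat_lit 6) 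
(.lf (nat_lit 136079) (.g (nat_lit 2808) (.e (nat_lit 16473) (nat_lit 14) (.e (nat_lit 491552) (nat_lit 9) (.e (nat_lit 336412) (nat_lit 27) (.e (nat_lit 426182) (nat_lit 8) (.e (nat_lit 417814) (nat_lit 10) (.e (nat_lit 5382) (nat_lit 300) .nil)))))) (.g (nat_lit 5) .nil .nil))) 
(.lf (nat_lit 136143) (.g (nat_lit 1413) (.e (nat_lit 16473) (nat_lit 14) (.e (nat_lit 491560) (nat_lit 10) (.e (nat_lit 344090) (nat_lit 18) (.e (nat_lit 6943) (nat_lit 375) .nil)))) .nil))) (.nd (nat_lit 6) 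
(.lf (nat_lit 136111) (.g (nat_lit 1157) (.e (nat_lit 16473) (nat_lit 14) (.e (nat_lit 491558) (nat_lit 10) (.e (nat_lit 344174) (nat_lit 42) (.e (nat_lit 761869) (nat_lit 5) .nil)))) .nil)) 
(.lf (nat_lit 136175) (.g (nat_lit 834) (.e (nat_lit 16473) (nat_lit 14) (.e (nat_lit 491560) (nat_lit 10) (.e (nat_lit 344161) (nat_lit 37) .nil))) .nil)))) (.nd (nat_lit 5) (.nd (nat_lit 6) 
(.lf (nat_lit 136095) (.g (nat_lit 3941) (.e (nat_lit 16473) (nat_lit 14) (.e (nat_lit 491556) (nat_lit 9) (.e (nat_lit 336051) (nat_lit 6) (.e (nat_lit 147495) (nat_lit 11) (.e (nat_lit 24580) (nat_lit 0) (.e (nat_lit 6510) (nat_lit 345) .nil)))))) (.g (nat_lit 5) .nil .nil))) 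
(.lf (nat_lit 136159) (.g (nat_lit 1633) (.e (nat_lit 16473) (nat_lit 14) (.e (nat_lit 491560) (nat_lit 10) (.e (nat_lit 344099) (nat_lit 18) (.e (nat_lit 7147) (nat_lit 382) (.e (nat_lit 1206) (nat_lit 89) (.e (nat_lit 81664) (nat_lit 42) .nil)))))) (.g (nat_lit 5) .nil .nil)))) (.nd (nat_lit 6) 
(.lf (nat_lit 136127) (.g (nat_lit 3442) (.e (nat_lit 16473) (nat_lit 14) (.e (nat_lit 491559) (nat_lit 10) (.e (nat_lit 344177) (nat_lit 43) (.e (nat_lit 770071) (nat_lit 8) (.e (nat_lit 65539) (nat_lit 0) (.e (nat_lit 7936) (nat_lit 345) .nil)))))) (.g (nat_lit 4) .nil .nil))) 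
(.lf (nat_lit 136191) (.g (nat_lit 2909) (.e (nat_lit 16473) (nat_lit 14) (.e (nat_lit 491560) (nat_lit 10) (.e (nat_lit 344177) (nat_lit 43) (.e (nat_lit 770071) (nat_lit 8) (.e (nat_lit 65538) (nat_lit 0) (.e (nat_lit 7936) (nat_lit 345) .nil)))))) (.g (nat_lit 4) .nil .nil))))))))))

noncomputable def tv1812 : DT := (.nd (nat_lit 0) (.nd (nat_lit 1) (.nd (nat_lit 2) (.nd (nat_lit 3) (.nd (nat_lit 4) (.nd (nat_lit 5) (.nd (nat_lit 6) 
(.lf (nat_lit 136192) (.g (nat_lit 2559) (.e (nat_lit 16473) (nat_lit 14) (.e (nat_lit 491560) (nat_lit 10) (.e (nat_lit 344177) (nat_lit 43) (.e (nat_lit 770071) (nat_lit 8) (.e (nat_lit 65539) (nat_lit 0) (.e (nat_lit 7936) (nat_lit 345) .nil)))))) (.g (nat_lit 4) .nil .nil))) 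
(.lf (nat_lit 136256) (.g (nat_lit 4345) (.e (nat_lit 16473) (nat_lit 14) (.e (nat_lit 491563) (nat_lit 12) (.e (nat_lit 385109) (nat_lit 51) (.e (nat_lit 794683) (nat_lit 25) (.e (nat_lit 221223) (nat_lit 28) (.e (nat_lit 253991) (nat_lit 11) .nil)))))) (.g (nat_lit 4) .nil .nil)))) (.nd (nat_lit 6) 
(.lf (nat_lit 136224) (.g (nat_lit 3719) (.e (nat_lit 16473) (nat_lit 14) (.e (nat_lit 491560) (nat_lit 10) (.e (nat_lit 344179) (nat_lit 44) (.e (nat_lit 778466) (nat_lit 11) (.e (nat_lit 24578) (nat_lit 0) (.e (nat_lit 6508) (nat_lit 345) .nil)))))) (.g (nat_lit 5) .nil .nil))) 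
(.lf (nat_lit 136288) (.g (nat_lit 3448) (.e (nat_lit 16473) (nat_lit 14) (.e (nat_lit 491568) (nat_lit 13) (.e (nat_lit 393260) (nat_lit 21) (.e (nat_lit 409617) (nat_lit 10) (.e (nat_lit 7936) (nat_lit 300) .nil))))) (.g (nat_lit 4) .nil .nil))))) (.nd (nat_lit 5) (.nd (nat_lit 6) 
(.lf (nat_lit 136208) (.g (nat_lit 3166) (.e (nat_lit 16473) (nat_lit 14) (.e (nat_lit 491560) (nat_lit 10) (.e (nat_lit 344179) (nat_lit 44) (.e (nat_lit 778464) (nat_lit 11) (.e (nat_lit 24580) (nat_lit 0) (.e (nat_lit 6508) (nat_lit 345) .nil)))))) (.g (nat_lit 5) .nil .nil))) 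
(.lf (nat_lit 136272) (.g (nat_lit 808) (.e (nat_lit 16473) (nat_lit 14) (.e (nat_lit 491567) (nat_lit 13) (.e (nat_lit 393264) (nat_lit 22) (.e (nat_lit 417819) (nat_lit 10) (.e (nat_lit 7936) (nat_lit 300) .nil))))) (.g (nat_lit 4) .nil .nil)))) (.nd (nat_lit 6) 
(.lf (nat_lit 136240) (.g (nat_lit 780) (.e (nat_lit 16473) (nat_lit 14) (.e (nat_lit 491562) (nat_lit 12) (.e (nat_lit 385109) (nat_lit 51) .nil))) .nil)) 
(.lf (nat_lit 136304) (.g (nat_lit 1157) (.e (nat_lit 16473) (nat_lit 14) (.e (nat_lit 491568) (nat_lit 13) (.e (nat_lit 393284) (nat_lit 24) (.e (nat_lit 434203) (nat_lit 18) .nil)))) .nil))))) (.nd (nat_lit 4) (.nd (nat_lit 5) (.nd (nat_lit 6) 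
(.lf (nat_lit 136200) (.g (nat_lit 3182) (.e (nat_lit 16473) (nat_lit 14) (.e (nat_lit 491560) (nat_lit 10) (.e (nat_lit 344177) (nat_lit 43) (.e (nat_lit 770072) (nat_lit 8) (.e (nat_lit 65543) (nat_lit 0) (.e (nat_lit 7936) (nat_lit 345) .nil)))))) (.g (nat_lit 4) .nil .nil))) 
(.lf (nat_lit 136264) (.g (nat_lit 2231) (.e (nat_lit 16473) (nat_lit 14) (.e (nat_lit 491567) (nat_lit 13) (.e (nat_lit 393260) (nat_lit 21) (.e (nat_lit 409617) (nat_lit 10) (.e (nat_lit 7936) (nat_lit 300) .nil))))) (.g (nat_lit 4) .nil .nil)))) (.nd (nat_lit 6) 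
(.lf (nat_lit 136232) (.g (nat_lit 2142) (.e (nat_lit 16473) (nat_lit 14) (.e (nat_lit 491560) (nat_lit 10) (.e (nat_lit 344179) (nat_lit 44) (.e (nat_lit 778466) (nat_lit 11) (.e (nat_lit 24595) (nat_lit 0) .nil))))) .nil)) 
(.lf (nat_lit 136296) (.g (nat_lit 524) (.e (nat_lit 16473) (nat_lit 14) (.e (nat_lit 491568) (nat_lit 13) (.e (nat_lit 393281) (nat_lit 23) .nil))) .nil)))) (.nd (nat_lit 5) (.nd (nat_lit 6) 
(.lf (nat_lit 136216) (.g (nat_lit 3708) (.e (nat_lit 16473) (nat_lit 14) (.e (nat_lit 491560) (nat_lit 10) (.e (nat_lit 344179) (nat_lit 44) (.e (nat_lit 778465) (nat_lit 11) (.e (nat_lit 24580) (nat_lit 0) (.e (nat_lit 6510) (nat_lit 345) .nil)))))) (.g (nat_lit 6) .nil .nil))) 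
(.lf (nat_lit 136280) (.g (nat_lit 2184) (.e (nat_lit 16473) (nat_lit 14) (.e (nat_lit 491567) (nat_lit 13) (.e (nat_lit 393301) (nat_lit 27) (.e (nat_lit 491526) (nat_lit 0) (.e (nat_lit 7936) (nat_lit 345) .nil))))) (.g (nat_lit 4) .nil .nil)))) (.nd (nat_lit 6) 
(.lf (nat_lit 136248) (.g (nat_lit 2470) (.e (nat_lit 16473) (nat_lit 14) (.e (nat_lit 491563) (nat_lit 12) (.e (nat_lit 385094) (nat_lit 49) (.e (nat_lit 778297) (nat_lit 0) .nil)))) .nil)) 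
(.lf (nat_lit 136312) (.g (nat_lit 3493) (.e (nat_lit 16473) (nat_lit 14) (.e (nat_lit 491572) (nat_lit 14) (.e (nat_lit 401437) (nat_lit 9) (.e (nat_lit 426448) (nat_lit 20) (.e (nat_lit 114722) (nat_lit 24) (.e (nat_lit 106534) (nat_lit 11) .nil)))))) (.g (nat_lit 4) .nil .nil))))))) (.nd (nat_lit 3) (.nd (nat_lit 4) (.nd (nat_lit 5) (.nd (nat_lit 6) 
(.lf (nat_lit 136196) (.g (nat_lit 2824) (.e (nat_lit 16473) (nat_lit 14) (.e (nat_lit 491560) (nat_lit 10) (.e (nat_lit 344177) (nat_lit 43) (.e (nat_lit 770072) (nat_lit 8) (.e (nat_lit 65538) (nat_lit 0) (.e (nat_lit 7936) (nat_lit 345) .nil)))))) (.g (nat_lit 4) .nil .nil))) 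
(.lf (nat_lit 136260) (.g (nat_lit 3133) (.e (nat_lit 16473) (nat_lit 14) (.e (nat_lit 491567) (nat_lit 13) (.e (nat_lit 393238) (nat_lit 17) (.e (nat_lit 6989) (nat_lit 377) (.e (nat_lit 2402) (nat_lit 157) (.e (nat_lit 5386) (nat_lit 300) .nil)))))) (.g (nat_lit 4) .nil .nil)))) (.nd (nat_lit 6) 
(.lf (nat_lit 136228) (.g (nat_lit 4325) (.e (nat_lit 16473) (nat_lit 14) (.e (nat_lit 491560) (nat_lit 10) (.e (nat_lit 344179) (nat_lit 44) (.e (nat_lit 778466) (nat_lit 11) (.e (nat_lit 24584) (nat_lit 0) (.e (nat_lit 1892) (nat_lit 128) (.e (nat_lit 589864) (nat_lit 15) .nil))))))) (.g (nat_lit 5) .nil .nil))) 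
(.lf (nat_lit 136292) (.g (nat_lit 1103) (.e (nat_lit 16473) (nat_lit 14) (.e (nat_lit 491568) (nat_lit 13) (.e (nat_lit 393263) (nat_lit 22) (.e (nat_lit 417814) (nat_lit 10) .nil)))) .nil)))) (.nd (nat_lit 5) (.nd (nat_lit 6) 
(.lf (nat_lit 136212) (.g (nat_lit 4209) (.e (nat_lit 16473) (nat_lit 14) (.e (nat_lit 491560) (nat_lit 10) (.e (nat_lit 344179) (nat_lit 44) (.e (nat_lit 778465) (nat_lit 11) (.e (nat_lit 24577) (nat_lit 0) (.e (nat_lit 6509) (nat_lit 345) .nil)))))) (.g (nat_lit 5) .nil .nil))) 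
(.lf (nat_lit 136276) (.g (nat_lit 2686) (.e (nat_lit 16473) (nat_lit 14) (.e (nat_lit 491567) (nat_lit 13) (.e (nat_lit 393281) (nat_lit 23) (.e (nat_lit 426100) (nat_lit 1) (.e (nat_lit 164257) (nat_lit 215) (.e (nat_lit 1122) (nat_lit 83) .nil)))))) (.g (nat_lit 4) .nil .nil)))) (.nd (nat_lit 6) 
(.lf (nat_lit 136244) (.g (nat_lit 1962) (.e (nat_lit 16473) (nat_lit 14) (.e (nat_lit 491562) (nat_lit 12) (.e (nat_lit 385109) (nat_lit 51) (.e (nat_lit 794684) (nat_lit 25) .nil)))) .nil)) 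
(.lf (nat_lit 136308) (.g (nat_lit 2117) (.e (nat_lit 16473) (nat_lit 14) (.e (nat_lit 491568) (nat_lit 13) (.e (nat_lit 393301) (nat_lit 27) (.e (nat_lit 491532) (nat_lit 1) .nil)))) .nil))))) (.nd (nat_lit 4) (.nd (nat_lit 5) (.nd (nat_lit 6) 
(.lf (nat_lit 136204) (.g (nat_lit 2384) (.e (nat_lit 16473) (nat_lit 14) (.e (nat_lit 491560) (nat_lit 10) (.e (nat_lit 344179) (nat_lit 44) (.e (nat_lit 778362) (nat_lit 9) (.e (nat_lit 297) (nat_lit 22) .nil))))) .nil)) 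
(.lf (nat_lit 136268) (.g (nat_lit 1012) (.e (nat_lit 16473) (nat_lit 14) (.e (nat_lit 491567) (nat_lit 13) (.e (nat_lit 393263) (nat_lit 22) (.e (nat_lit 417817) (nat_lit 10) (.e (nat_lit 7936) (nat_lit 300) .nil))))) .nil))) (.nd (nat_lit 6) 
(.lf (nat_lit 136236) (.g (nat_lit 1704) (.e (nat_lit 16473) (nat_lit 14) (.e (nat_lit 491560) (nat_lit 10) (.e (nat_lit 352000) (nat_lit 46) (.e (nat_lit 794635) (nat_lit 11) (.e (nat_lit 335876) (nat_lit 0) (.e (nat_lit 7936) (nat_lit 345) .nil)))))) (.g (nat_lit 4) .nil .nil))) 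
(.lf (nat_lit 136300) (.g (nat_lit 631) (.e (nat_lit 16473) (nat_lit 14) (.e (nat_lit 491568) (nat_lit 13) (.e (nat_lit 393282) (nat_lit 24) .nil))) .nil)))) (.nd (nat_lit 5) (.nd (nat_lit 6) 
(.lf (nat_lit 136220) (.g (nat_lit 2249) (.e (nat_lit 16473) (nat_lit 14) (.e (nat_lit 491560) (nat_lit 10) (.e (nat_lit 344179) (nat_lit 44) (.e (nat_lit 778465) (nat_lit 11) (.e (nat_lit 24595) (nat_lit 0) .nil))))) .nil)) 
(.lf (nat_lit 136284) (.g (nat_lit 1096) (.e (nat_lit 16473) (nat_lit 14) (.e (nat_lit 491568) (nat_lit 13) (.e (nat_lit 393259) (nat_lit 21) (.e (nat_lit 409608) (nat_lit 10) .nil)))) .nil))) (.nd (nat_lit 6) 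
(.lf (nat_lit 136252) (.g (nat_lit 3937) (.e (nat_lit 16473) (nat_lit 14) (.e (nat_lit 491563) (nat_lit 12) (.e (nat_lit 385107) (nat_lit 51) (.e (nat_lit 794683) (nat_lit 25) (.e (nat_lit 221223) (nat_lit 28) (.e (nat_lit 253990) (nat_lit 11) .nil)))))) (.g (nat_lit 4) .nil .nil))) 
(.lf (nat_lit 136316) (.g (nat_lit 3062) (.e (nat_lit 16473) (nat_lit 14) (.e (nat_lit 491572) (nat_lit 14) (.e (nat_lit 401452) (nat_lit 12) (.e (nat_lit 475214) (nat_lit 42) (.e (nat_lit 720948) (nat_lit 24) (.e (nat_lit 106534) (nat_lit 11) .nil)))))) (.g (nat_lit 4) .nil .nil)))))))) (.nd (nat_lit 2) (.nd (nat_lit 3) (.nd (nat_lit 4) (.nd (nat_lit 5) (.nd (nat_lit 6) 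
(.lf (nat_lit 136194) (.g (nat_lit 3210) (.e (nat_lit 16473) (nat_lit 14) (.e (nat_lit 491560) (nat_lit 10) (.e (nat_lit 344177) (nat_lit 43) (.e (nat_lit 770072) (nat_lit 8) (.e (nat_lit 65537) (nat_lit 0) (.e (nat_lit 7936) (nat_lit 345) .nil)))))) (.g (nat_lit 4) .nil .nil))) 
(.lf (nat_lit 136258) (.g (nat_lit 3329) (.e (nat_lit 16473) (nat_lit 14) (.e (nat_lit 491567) (nat_lit 13) (.e (nat_lit 393238) (nat_lit 17) (.e (nat_lit 6989) (nat_lit 377) (.e (nat_lit 2397) (nat_lit 157) (.e (nat_lit 5386) (nat_lit 300) .nil)))))) (.g (nat_lit 4) .nil .nil)))) (.nd (nat_lit 6) 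
(.lf (nat_lit 136226) (.g (nat_lit 2753) (.e (nat_lit 16473) (nat_lit 14) (.e (nat_lit 491560) (nat_lit 10) (.e (nat_lit 344179) (nat_lit 44) (.e (nat_lit 778466) (nat_lit 11) (.e (nat_lit 24578) (nat_lit 0) (.e (nat_lit 6510) (nat_lit 345) .nil)))))) (.g (nat_lit 4) .nil .nil))) 
(.lf (nat_lit 136290) (.g (nat_lit 1887) (.e (nat_lit 16473) (nat_lit 14) (.e (nat_lit 491568) (nat_lit 13) (.e (nat_lit 393260) (nat_lit 21) (.e (nat_lit 409623) (nat_lit 10) (.e (nat_lit 7936) (nat_lit 300) .nil))))) .nil)))) (.nd (nat_lit 5) (.nd (nat_lit 6) 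
(.lf (nat_lit 136210) (.g (nat_lit 3624) (.e (nat_lit 16473) (nat_lit 14) (.e (nat_lit 491560) (nat_lit 10) (.e (nat_lit 344179) (nat_lit 44) (.e (nat_lit 778465) (nat_lit 11) (.e (nat_lit 24576) (nat_lit 0) (.e (nat_lit 6509) (nat_lit 345) .nil)))))) (.g (nat_lit 4) .nil .nil))) 
(.lf (nat_lit 136274) (.g (nat_lit 1366) (.e (nat_lit 16473) (nat_lit 14) (.e (nat_lit 491567) (nat_lit 13) (.e (nat_lit 393265) (nat_lit 22) (.e (nat_lit 417820) (nat_lit 10) (.e (nat_lit 7936) (nat_lit 300) .nil))))) (.g (nat_lit 4) .nil .nil)))) (.nd (nat_lit 6) 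
(.lf (nat_lit 136242) (.g (nat_lit 2306) (.e (nat_lit 16473) (nat_lit 14) (.e (nat_lit 491562) (nat_lit 12) (.e (nat_lit 385109) (nat_lit 51) (.e (nat_lit 794683) (nat_lit 25) .nil)))) .nil)) 
(.lf (nat_lit 136306) (.g (nat_lit 917) (.e (nat_lit 16473) (nat_lit 14) (.e (nat_lit 491568) (nat_lit 13) (.e (nat_lit 393287) (nat_lit 25) (.e (nat_lit 458774) (nat_lit 18) .nil)))) .nil))))) (.nd (nat_lit 4) (.nd (nat_lit 5) (.nd (nat_lit 6) 
(.lf (nat_lit 136202) (.g (nat_lit 2165) (.e (nat_lit 16473) (nat_lit 14) (.e (nat_lit 491560) (nat_lit 10) (.e (nat_lit 344179) (nat_lit 44) (.e (nat_lit 778361) (nat_lit 9) (.e (nat_lit 328) (nat_lit 25) (.e (nat_lit 376576) (nat_lit 10) .nil)))))) (.g (nat_lit 4) .nil .nil))) 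
(.lf (nat_lit 136266) (.g (nat_lit 206) (.e (nat_lit 16473) (nat_lit 14) (.e (nat_lit 491567) (nat_lit 13) (.e (nat_lit 393262) (nat_lit 22) .nil))) .nil))) (.nd (nat_lit 6) 
(.lf (nat_lit 136234) (.g (nat_lit 3539) (.e (nat_lit 16473) (nat_lit 14) (.e (nat_lit 491560) (nat_lit 10) (.e (nat_lit 344179) (nat_lit 44) (.e (nat_lit 778466) (nat_lit 11) (.e (nat_lit 24599) (nat_lit 1) (.e (nat_lit 57760) (nat_lit 215) (.e (nat_lit 1126) (nat_lit 83) .nil))))))) (.g (nat_lit 4) .nil .nil))) 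
(.lf (nat_lit 136298) (.g (nat_lit 2773) (.e (nat_lit 16473) (nat_lit 14) (.e (nat_lit 491568) (nat_lit 13) (.e (nat_lit 393281) (nat_lit 23) (.e (nat_lit 426100) (nat_lit 1) (.e (nat_lit 164257) (nat_lit 215) (.e (nat_lit 1122) (nat_lit 83) .nil)))))) (.g (nat_lit 4) .nil .nil))))) (.nd (nat_lit 5) (.nd (nat_lit 6) 
(.lf (nat_lit 136218) (.g (nat_lit 2254) (.e (nat_lit 16473) (nat_lit 14) (.e (nat_lit 491560) (nat_lit 10) (.e (nat_lit 344179) (nat_lit 44) (.e (nat_lit 778465) (nat_lit 11) (.e (nat_lit 24591) (nat_lit 0) .nil))))) .nil)) 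
(.lf (nat_lit 136282) (.g (nat_lit 3884) (.e (nat_lit 16473) (nat_lit 14) (.e (nat_lit 491568) (nat_lit 13) (.e (nat_lit 393238) (nat_lit 17) (.e (nat_lit 6989) (nat_lit 377) (.e (nat_lit 2400) (nat_lit 157) (.e (nat_lit 5386) (nat_lit 300) .nil)))))) (.g (nat_lit 4) .nil .nil)))) (.nd (nat_lit 6) 
(.lf (nat_lit 136250) (.g (nat_lit 1349) (.e (nat_lit 16473) (nat_lit 14) (.e (nat_lit 491563) (nat_lit 12) (.e (nat_lit 385107) (nat_lit 51) .nil))) .nil)) 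
(.lf (nat_lit 136314) (.g (nat_lit 3210) (.e (nat_lit 16473) (nat_lit 14) (.e (nat_lit 491572) (nat_lit 14) (.e (nat_lit 401437) (nat_lit 9) (.e (nat_lit 426448) (nat_lit 20) (.e (nat_lit 114723) (nat_lit 24) .nil))))) .nil)))))) (.nd (nat_lit 3) (.nd (nat_lit 4) (.nd (nat_lit 5) (.nd (nat_lit 6) 
(.lf (nat_lit 136198) (.g (nat_lit 2442) (.e (nat_lit 16473) (nat_lit 14) (.e (nat_lit 491560) (nat_lit 10) (.e (nat_lit 344177) (nat_lit 43) (.e (nat_lit 770072) (nat_lit 8) (.e (nat_lit 65541) (nat_lit 0) (.e (nat_lit 7936) (nat_lit 345) .nil)))))) (.g (nat_lit 4) .nil .nil))) 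
(.lf (nat_lit 136262) (.g (nat_lit 1730) (.e (nat_lit 16473) (nat_lit 14) (.e (nat_lit 491567) (nat_lit 13) (.e (nat_lit 393260) (nat_lit 21) (.e (nat_lit 409608) (nat_lit 10) .nil)))) .nil))) (.nd (nat_lit 6) 
(.lf (nat_lit 136230) (.g (nat_lit 1759) (.e (nat_lit 16473) (nat_lit 14) (.e (nat_lit 491560) (nat_lit 10) (.e (nat_lit 344179) (nat_lit 44) (.e (nat_lit 778466) (nat_lit 11) (.e (nat_lit 24589) (nat_lit 0) .nil))))) .nil)) 
(.lf (nat_lit 136294) (.g (nat_lit 632) (.e (nat_lit 16473) (nat_lit 14) (.e (nat_lit 491568) (nat_lit 13) (.e (nat_lit 393266) (nat_lit 23) .nil))) .nil)))) (.nd (nat_lit 5) (.nd (nat_lit 6) 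
(.lf (nat_lit 136214) (.g (nat_lit 2984) (.e (nat_lit 16473) (nat_lit 14) (.e (nat_lit 491560) (nat_lit 10) (.e (nat_lit 344179) (nat_lit 44) (.e (nat_lit 778465) (nat_lit 11) (.e (nat_lit 24578) (nat_lit 0) (.e (nat_lit 6510) (nat_lit 345) .nil)))))) (.g (nat_lit 4) .nil .nil))) 
(.lf (nat_lit 136278) (.g (nat_lit 3222) (.e (nat_lit 16473) (nat_lit 14) (.e (nat_lit 491567) (nat_lit 13) (.e (nat_lit 393293) (nat_lit 26) (.e (nat_lit 475192) (nat_lit 37) (.e (nat_lit 679955) (nat_lit 7) .nil))))) (.g (nat_lit 5) .nil .nil)))) (.nd (nat_lit 6) 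
(.lf (nat_lit 136246) (.g (nat_lit 1399) (.e (nat_lit 16473) (nat_lit 14) (.e (nat_lit 491563) (nat_lit 12) (.e (nat_lit 385091) (nat_lit 49) .nil))) .nil)) 
(.lf (nat_lit 136310) (.g (nat_lit 3371) (.e (nat_lit 16473) (nat_lit 14) (.e (nat_lit 491572) (nat_lit 14) (.e (nat_lit 401437) (nat_lit 9) (.e (nat_lit 426448) (nat_lit 20) (.e (nat_lit 114721) (nat_lit 24) (.e (nat_lit 106534) (nat_lit 11) .nil)))))) (.g (nat_lit 4) .nil .nil)))))) (.nd (nat_lit 4) (.nd (nat_lit 5) (.nd (nat_lit 6) 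
(.lf (nat_lit 136206) (.g (nat_lit 2752) (.e (nat_lit 16473) (nat_lit 14) (.e (nat_lit 491560) (nat_lit 10) (.e (nat_lit 344179) (nat_lit 44) (.e (nat_lit 778362) (nat_lit 9) (.e (nat_lit 328) (nat_lit 25) (.e (nat_lit 376576) (nat_lit 10) .nil)))))) (.g (nat_lit 5) .nil .nil))) 
(.lf (nat_lit 136270) (.g (nat_lit 856) (.e (nat_lit 16473) (nat_lit 14) (.e (nat_lit 491567) (nat_lit 13) (.e (nat_lit 393264) (nat_lit 22) (.e (nat_lit 417816) (nat_lit 10) (.e (nat_lit 7936) (nat_lit 300) .nil))))) (.g (nat_lit 4) .nil .nil)))) (.nd (nat_lit 6) 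
(.lf (nat_lit 136238) (.g (nat_lit 1969) (.e (nat_lit 16473) (nat_lit 14) (.e (nat_lit 491562) (nat_lit 12) (.e (nat_lit 385094) (nat_lit 49) (.e (nat_lit 778297) (nat_lit 0) .nil)))) .nil)) 
(.lf (nat_lit 136302) (.g (nat_lit 2723) (.e (nat_lit 16473) (nat_lit 14) (.e (nat_lit 491568) (nat_lit 13) (.e (nat_lit 393283) (nat_lit 24) (.e (nat_lit 434203) (nat_lit 18) (.e (nat_lit 4803) (nat_lit 281) (.e (nat_lit 1126) (nat_lit 83) .nil)))))) (.g (nat_lit 4) .nil .nil))))) (.nd (nat_lit 5) (.nd (nat_lit 6) 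
(.lf (nat_lit 136222) (.g (nat_lit 4049) (.e (nat_lit 16473) (nat_lit 14) (.e (nat_lit 491560) (nat_lit 10) (.e (nat_lit 344179) (nat_lit 44) (.e (nat_lit 778466) (nat_lit 11) (.e (nat_lit 24576) (nat_lit 0) (.e (nat_lit 6509) (nat_lit 345) .nil)))))) (.g (nat_lit 5) .nil .nil))) 
(.lf (nat_lit 136286) (.g (nat_lit 2269) (.e (nat_lit 16473) (nat_lit 14) (.e (nat_lit 491568) (nat_lit 13) (.e (nat_lit 393260) (nat_lit 21) (.e (nat_lit 409609) (nat_lit 10) (.e (nat_lit 5382) (nat_lit 300) .nil))))) .nil))) (.nd (nat_lit 6) 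
(.lf (nat_lit 136254) (.g (nat_lit 1399) (.e (nat_lit 16473) (nat_lit 14) (.e (nat_lit 491563) (nat_lit 12) (.e (nat_lit 385108) (nat_lit 51) .nil))) .nil)) 
(.lf (nat_lit 136318) (.g (nat_lit 1668) (.e (nat_lit 16473) (nat_lit 14) (.e (nat_lit 491572) (nat_lit 14) (.e (nat_lit 401453) (nat_lit 12) (.e (nat_lit 475212) (nat_lit 42) .nil)))) .nil)))))))) (.nd (nat_lit 1) (.nd (nat_lit 2) (.nd (nat_lit 3) (.nd (nat_lit 4) (.nd (nat_lit 5) (.nd (nat_lit 6) 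
(.lf (nat_lit 136193) (.g (nat_lit 4195) (.e (nat_lit 16473) (nat_lit 14) (.e (nat_lit 491560) (nat_lit 10) (.e (nat_lit 344177) (nat_lit 43) (.e (nat_lit 770072) (nat_lit 8) (.e (nat_lit 65537) (nat_lit 0) (.e (nat_lit 6509) (nat_lit 345) .nil)))))) (.g (nat_lit 4) .nil .nil))) 
(.lf (nat_lit 136257) (.g (nat_lit 1964) (.e (nat_lit 16473) (nat_lit 14) (.e (nat_lit 491563) (nat_lit 12) (.e (nat_lit 385109) (nat_lit 51) (.e (nat_lit 794684) (nat_lit 25) .nil)))) .nil))) (.nd (nat_lit 6) 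
(.lf (nat_lit 136225) (.g (nat_lit 3308) (.e (nat_lit 16473) (nat_lit 14) (.e (nat_lit 491560) (nat_lit 10) (.e (nat_lit 344179) (nat_lit 44) (.e (nat_lit 778466) (nat_lit 11) (.e (nat_lit 24578) (nat_lit 0) (.e (nat_lit 6509) (nat_lit 345) .nil)))))) (.g (nat_lit 4) .nil .nil))) 
(.lf (nat_lit 136289) (.g (nat_lit 3712) (.e (nat_lit 16473) (nat_lit 14) (.e (nat_lit 491568) (nat_lit 13) (.e (nat_lit 393260) (nat_lit 21) (.e (nat_lit 409623) (nat_lit 10) (.e (nat_lit 5383) (nat_lit 300) .nil))))) (.g (nat_lit 5) .nil .nil))))) (.nd (nat_lit 5) (.nd (nat_lit 6) 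
(.lf (nat_lit 136209) (.g (nat_lit 2831) (.e (nat_lit 16473) (nat_lit 14) (.e (nat_lit 491560) (nat_lit 10) (.e (nat_lit 344179) (nat_lit 44) (.e (nat_lit 778464) (nat_lit 11) (.e (nat_lit 24580) (nat_lit 0) (.e (nat_lit 6510) (nat_lit 345) .nil)))))) (.g (nat_lit 5) .nil .nil))) 
(.lf (nat_lit 136273) (.g (nat_lit 2970) (.e (nat_lit 16473) (nat_lit 14) (.e (nat_lit 491567) (nat_lit 13) (.e (nat_lit 393265) (nat_lit 22) (.e (nat_lit 417820) (nat_lit 10) (.e (nat_lit 5383) (nat_lit 300) .nil))))) (.g (nat_lit 5) .nil .nil)))) (.nd (nat_lit 6) 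
(.lf (nat_lit 136241) (.g (nat_lit 2199) (.e (nat_lit 16473) (nat_lit 14) (.e (nat_lit 491562) (nat_lit 12) (.e (nat_lit 385109) (nat_lit 51) (.e (nat_lit 794682) (nat_lit 25) .nil)))) .nil)) 
(.lf (nat_lit 136305) (.g (nat_lit 632) (.e (nat_lit 16473) (nat_lit 14) (.e (nat_lit 491568) (nat_lit 13) (.e (nat_lit 393287) (nat_lit 25) .nil))) .nil))))) (.nd (nat_lit 4) (.nd (nat_lit 5) (.nd (nat_lit 6) 
(.lf (nat_lit 136201) (.g (nat_lit 2873) (.e (nat_lit 16473) (nat_lit 14) (.e (nat_lit 491560) (nat_lit 10) (.e (nat_lit 344177) (nat_lit 43) (.e (nat_lit 770073) (nat_lit 9) (.e (nat_lit 81664) (nat_lit 42) .nil))))) (.g (nat_lit 4) .nil .nil))) 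
(.lf (nat_lit 136265) (.g (nat_lit 1517) (.e (nat_lit 16473) (nat_lit 14) (.e (nat_lit 491567) (nat_lit 13) (.e (nat_lit 393260) (nat_lit 21) (.e (nat_lit 409623) (nat_lit 10) (.e (nat_lit 7936) (nat_lit 300) .nil))))) (.g (nat_lit 4) .nil .nil)))) (.nd (nat_lit 6) 
(.lf (nat_lit 136233) (.g (nat_lit 2192) (.e (nat_lit 16473) (nat_lit 14) (.e (nat_lit 491560) (nat_lit 10) (.e (nat_lit 344179) (nat_lit 44) (.e (nat_lit 778466) (nat_lit 11) (.e (nat_lit 24598) (nat_lit 1) .nil))))) .nil)) 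
(.lf (nat_lit 136297) (.g (nat_lit 1156) (.e (nat_lit 16473) (nat_lit 14) (.e (nat_lit 491568) (nat_lit 13) (.e (nat_lit 393281) (nat_lit 23) (.e (nat_lit 426010) (nat_lit 0) .nil)))) .nil)))) (.nd (nat_lit 5) (.nd (nat_lit 6) 
(.lf (nat_lit 136217) (.g (nat_lit 1841) (.e (nat_lit 16473) (nat_lit 14) (.e (nat_lit 491560) (nat_lit 10) (.e (nat_lit 344179) (nat_lit 44) (.e (nat_lit 778465) (nat_lit 11) (.e (nat_lit 24580) (nat_lit 0) (.e (nat_lit 7936) (nat_lit 345) .nil)))))) (.g (nat_lit 4) .nil .nil))) 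
(.lf (nat_lit 136281) (.g (nat_lit 542) (.e (nat_lit 16473) (nat_lit 14) (.e (nat_lit 491568) (nat_lit 13) (.e (nat_lit 393238) (nat_lit 17) .nil))) .nil))) (.nd (nat_lit 6) 
(.lf (nat_lit 136249) (.g (nat_lit 1978) (.e (nat_lit 16473) (nat_lit 14) (.e (nat_lit 491563) (nat_lit 12) (.e (nat_lit 385104) (nat_lit 50) (.e (nat_lit 786460) (nat_lit 20) .nil)))) .nil)) 
(.lf (nat_lit 136313) (.g (nat_lit 3980) (.e (nat_lit 16473) (nat_lit 14) (.e (nat_lit 491572) (nat_lit 14) (.e (nat_lit 401437) (nat_lit 9) (.e (nat_lit 426448) (nat_lit 20) (.e (nat_lit 114722) (nat_lit 24) (.e (nat_lit 106536) (nat_lit 11) .nil)))))) (.g (nat_lit 4) .nil .nil))))))) (.nd (nat_lit 3) (.nd (nat_lit 4) (.nd (nat_lit 5) (.nd (nat_lit 6) 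
(.lf (nat_lit 136197) (.g (nat_lit 3403) (.e (nat_lit 16473) (nat_lit 14) (.e (nat_lit 491560) (nat_lit 10) (.e (nat_lit 344177) (nat_lit 43) (.e (nat_lit 770072) (nat_lit 8) (.e (nat_lit 65539) (nat_lit 0) (.e (nat_lit 7936) (nat_lit 345) .nil)))))) (.g (nat_lit 4) .nil .nil))) 
(.lf (nat_lit 136261) (.g (nat_lit 2981) (.e (nat_lit 16473) (nat_lit 14) (.e (nat_lit 491567) (nat_lit 13) (.e (nat_lit 393238) (nat_lit 17) (.e (nat_lit 7114) (nat_lit 381) (.e (nat_lit 229656) (nat_lit 234) .nil))))) (.g (nat_lit 5) .nil .nil)))) (.nd (nat_lit 6) 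
(.lf (nat_lit 136229) (.g (nat_lit 2931) (.e (nat_lit 16473) (nat_lit 14) (.e (nat_lit 491560) (nat_lit 10) (.e (nat_lit 344179) (nat_lit 44) (.e (nat_lit 778466) (nat_lit 11) (.e (nat_lit 24584) (nat_lit 0) (.e (nat_lit 7936) (nat_lit 345) .nil)))))) (.g (nat_lit 5) .nil .nil))) 
(.lf (nat_lit 136293) (.g (nat_lit 604) (.e (nat_lit 16473) (nat_lit 14) (.e (nat_lit 491568) (nat_lit 13) (.e (nat_lit 393264) (nat_lit 22) .nil))) .nil)))) (.nd (nat_lit 5) (.nd (nat_lit 6) 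
(.lf (nat_lit 136213) (.g (nat_lit 3539) (.e (nat_lit 16473) (nat_lit 14) (.e (nat_lit 491560) (nat_lit 10) (.e (nat_lit 344179) (nat_lit 44) (.e (nat_lit 778465) (nat_lit 11) (.e (nat_lit 24578) (nat_lit 0) (.e (nat_lit 6509) (nat_lit 345) .nil)))))) (.g (nat_lit 4) .nil .nil))) 
(.lf (nat_lit 136277) (.g (nat_lit 2527) (.e (nat_lit 16473) (nat_lit 14) (.e (nat_lit 491567) (nat_lit 13) (.e (nat_lit 393281) (nat_lit 23) (.e (nat_lit 426100) (nat_lit 1) (.e (nat_lit 164257) (nat_lit 215) (.e (nat_lit 1126) (nat_lit 83) .nil)))))) (.g (nat_lit 4) .nil .nil)))) (.nd (nat_lit 6) 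
(.lf (nat_lit 136245) (.g (nat_lit 4601) (.e (nat_lit 16473) (nat_lit 14) (.e (nat_lit 491562) (nat_lit 12) (.e (nat_lit 385109) (nat_lit 51) (.e (nat_lit 794684) (nat_lit 25) (.e (nat_lit 221223) (nat_lit 28) (.e (nat_lit 253990) (nat_lit 11) .nil)))))) (.g (nat_lit 0) .nil .nil))) 
(.lf (nat_lit 136309) (.g (nat_lit 1867) (.e (nat_lit 16473) (nat_lit 14) (.e (nat_lit 499456) (nat_lit 13) (.e (nat_lit 393260) (nat_lit 21) (.e (nat_lit 409616) (nat_lit 10) (.e (nat_lit 7936) (nat_lit 300) .nil))))) (.g (nat_lit 4) .nil .nil)))))) (.nd (nat_lit 4) (.nd (nat_lit 5) (.nd (nat_lit 6) 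
(.lf (nat_lit 136205) (.g (nat_lit 4293) (.e (nat_lit 16473) (nat_lit 14) (.e (nat_lit 491560) (nat_lit 10) (.e (nat_lit 344179) (nat_lit 44) (.e (nat_lit 778362) (nat_lit 9) (.e (nat_lit 297) (nat_lit 22) (.e (nat_lit 352000) (nat_lit 10) .nil)))))) (.g (nat_lit 5) .nil .nil))) 
(.lf (nat_lit 136269) (.g (nat_lit 2266) (.e (nat_lit 16473) (nat_lit 14) (.e (nat_lit 491567) (nat_lit 13) (.e (nat_lit 393264) (nat_lit 22) (.e (nat_lit 417814) (nat_lit 10) (.e (nat_lit 5382) (nat_lit 300) .nil))))) (.g (nat_lit 4) .nil .nil)))) (.nd (nat_lit 6) 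
(.lf (nat_lit 136237) (.g (nat_lit 1885) (.e (nat_lit 16473) (nat_lit 14) (.e (nat_lit 491560) (nat_lit 10) (.e (nat_lit 352000) (nat_lit 46) (.e (nat_lit 794635) (nat_lit 11) (.e (nat_lit 335877) (nat_lit 0) (.e (nat_lit 7936) (nat_lit 345) .nil)))))) (.g (nat_lit 5) .nil .nil))) 
(.lf (nat_lit 136301) (.g (nat_lit 2746) (.e (nat_lit 16473) (nat_lit 14) (.e (nat_lit 491568) (nat_lit 13) (.e (nat_lit 393283) (nat_lit 24) (.e (nat_lit 434200) (nat_lit 18) (.e (nat_lit 4810) (nat_lit 281) (.e (nat_lit 1126) (nat_lit 83) .nil)))))) (.g (nat_lit 4) .nil .nil))))) (.nd (nat_lit 5) (.nd (nat_lit 6) 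
(.lf (nat_lit 136221) (.g (nat_lit 2165) (.e (nat_lit 16473) (nat_lit 14) (.e (nat_lit 491560) (nat_lit 10) (.e (nat_lit 344179) (nat_lit 44) (.e (nat_lit 778466) (nat_lit 11) (.e (nat_lit 24576) (nat_lit 0) .nil))))) .nil)) 
(.lf (nat_lit 136285) (.g (nat_lit 3394) (.e (nat_lit 16473) (nat_lit 14) (.e (nat_lit 491568) (nat_lit 13) (.e (nat_lit 393259) (nat_lit 21) (.e (nat_lit 409614) (nat_lit 10) (.e (nat_lit 5380) (nat_lit 300) .nil))))) (.g (nat_lit 4) .nil .nil)))) (.nd (nat_lit 6) 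
(.lf (nat_lit 136253) (.g (nat_lit 2220) (.e (nat_lit 16473) (nat_lit 14) (.e (nat_lit 491563) (nat_lit 12) (.e (nat_lit 385107) (nat_lit 51) (.e (nat_lit 794684) (nat_lit 25) .nil)))) .nil)) 
(.lf (nat_lit 136317) (.g (nat_lit 3065) (.e (nat_lit 16473) (nat_lit 14) (.e (nat_lit 491572) (nat_lit 14) (.e (nat_lit 401452) (nat_lit 12) (.e (nat_lit 475214) (nat_lit 42) (.e (nat_lit 720949) (nat_lit 24) (.e (nat_lit 106534) (nat_lit 11) .nil)))))) (.g (nat_lit 4) .nil .nil)))))))) (.nd (nat_lit 2) (.nd (nat_lit 3) (.nd (nat_lit 4) (.nd (nat_lit 5) (.nd (nat_lit 6) 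
(.lf (nat_lit 136195) (.g (nat_lit 4364) (.e (nat_lit 16473) (nat_lit 14) (.e (nat_lit 491560) (nat_lit 10) (.e (nat_lit 344177) (nat_lit 43) (.e (nat_lit 770072) (nat_lit 8) (.e (nat_lit 65538) (nat_lit 0) (.e (nat_lit 6509) (nat_lit 345) .nil)))))) (.g (nat_lit 4) .nil .nil))) 
(.lf (nat_lit 136259) (.g (nat_lit 3755) (.e (nat_lit 16473) (nat_lit 14) (.e (nat_lit 491567) (nat_lit 13) (.e (nat_lit 393238) (nat_lit 17) (.e (nat_lit 6989) (nat_lit 377) (.e (nat_lit 2400) (nat_lit 157) (.e (nat_lit 5386) (nat_lit 300) .nil)))))) (.g (nat_lit 4) .nil .nil)))) (.nd (nat_lit 6) 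
(.lf (nat_lit 136227) (.g (nat_lit 2236) (.e (nat_lit 16473) (nat_lit 14) (.e (nat_lit 491560) (nat_lit 10) (.e (nat_lit 344179) (nat_lit 44) (.e (nat_lit 778466) (nat_lit 11) (.e (nat_lit 24578) (nat_lit 0) (.e (nat_lit 7936) (nat_lit 345) .nil)))))) (.g (nat_lit 4) .nil .nil))) 
(.lf (nat_lit 136291) (.g (nat_lit 1485) (.e (nat_lit 16473) (nat_lit 14) (.e (nat_lit 491568) (nat_lit 13) (.e (nat_lit 393260) (nat_lit 21) (.e (nat_lit 417536) (nat_lit 10) .nil)))) .nil)))) (.nd (nat_lit 5) (.nd (nat_lit 6) 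
(.lf (nat_lit 136211) (.g (nat_lit 2542) (.e (nat_lit 16473) (nat_lit 14) (.e (nat_lit 491560) (nat_lit 10) (.e (nat_lit 344179) (nat_lit 44) (.e (nat_lit 778465) (nat_lit 11) (.e (nat_lit 24576) (nat_lit 0) (.e (nat_lit 7936) (nat_lit 345) .nil)))))) (.g (nat_lit 4) .nil .nil))) 
(.lf (nat_lit 136275) (.g (nat_lit 612) (.e (nat_lit 16473) (nat_lit 14) (.e (nat_lit 491567) (nat_lit 13) (.e (nat_lit 393265) (nat_lit 22) (.e (nat_lit 417821) (nat_lit 10) .nil)))) .nil))) (.nd (nat_lit 6) 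
(.lf (nat_lit 136243) (.g (nat_lit 4327) (.e (nat_lit 16473) (nat_lit 14) (.e (nat_lit 491562) (nat_lit 12) (.e (nat_lit 385109) (nat_lit 51) (.e (nat_lit 794683) (nat_lit 25) (.e (nat_lit 221223) (nat_lit 28) (.e (nat_lit 253991) (nat_lit 11) .nil)))))) (.g (nat_lit 4) .nil .nil))) 
(.lf (nat_lit 136307) (.g (nat_lit 1502) (.e (nat_lit 16473) (nat_lit 14) (.e (nat_lit 491568) (nat_lit 13) (.e (nat_lit 393301) (nat_lit 27) (.e (nat_lit 491526) (nat_lit 0) .nil)))) .nil))))) (.nd (nat_lit 4) (.nd (nat_lit 5) (.nd (nat_lit 6) 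
(.lf (nat_lit 136203) (.g (nat_lit 3926) (.e (nat_lit 16473) (nat_lit 14) (.e (nat_lit 491560) (nat_lit 10) (.e (nat_lit 344179) (nat_lit 44) (.e (nat_lit 778362) (nat_lit 9) (.e (nat_lit 232) (nat_lit 21) (.e (nat_lit 335907) (nat_lit 0) (.e (nat_lit 7936) (nat_lit 345) .nil))))))) (.g (nat_lit 6) .nil .nil))) 
(.lf (nat_lit 136267) (.g (nat_lit 1142) (.e (nat_lit 16473) (nat_lit 14) (.e (nat_lit 491567) (nat_lit 13) (.e (nat_lit 393263) (nat_lit 22) (.e (nat_lit 417815) (nat_lit 10) (.e (nat_lit 7936) (nat_lit 300) .nil))))) .nil))) (.nd (nat_lit 6) 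
(.lf (nat_lit 136235) (.g (nat_lit 2013) (.e (nat_lit 16473) (nat_lit 14) (.e (nat_lit 491560) (nat_lit 10) (.e (nat_lit 352000) (nat_lit 46) (.e (nat_lit 794635) (nat_lit 11) (.e (nat_lit 335874) (nat_lit 0) (.e (nat_lit 7936) (nat_lit 345) .nil)))))) (.g (nat_lit 5) .nil .nil))) 
(.lf (nat_lit 136299) (.g (nat_lit 3481) (.e (nat_lit 16473) (nat_lit 14) (.e (nat_lit 491568) (nat_lit 13) (.e (nat_lit 393281) (nat_lit 23) (.e (nat_lit 426100) (nat_lit 1) (.e (nat_lit 164258) (nat_lit 215) (.e (nat_lit 1125) (nat_lit 83) .nil)))))) (.g (nat_lit 4) .nil .nil))))) (.nd (nat_lit 5) (.nd (nat_lit 6) 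
(.lf (nat_lit 136219) (.g (nat_lit 2249) (.e (nat_lit 16473) (nat_lit 14) (.e (nat_lit 491560) (nat_lit 10) (.e (nat_lit 344179) (nat_lit 44) (.e (nat_lit 778465) (nat_lit 11) (.e (nat_lit 24594) (nat_lit 0) .nil))))) .nil)) 
(.lf (nat_lit 136283) (.g (nat_lit 572) (.e (nat_lit 16473) (nat_lit 14) (.e (nat_lit 491568) (nat_lit 13) (.e (nat_lit 393259) (nat_lit 21) .nil))) .nil))) (.nd (nat_lit 6) 
(.lf (nat_lit 136251) (.g (nat_lit 2229) (.e (nat_lit 16473) (nat_lit 14) (.e (nat_lit 491563) (nat_lit 12) (.e (nat_lit 385107) (nat_lit 51) (.e (nat_lit 794683) (nat_lit 25) .nil)))) .nil)) 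
(.lf (nat_lit 136315) (.g (nat_lit 2680) (.e (nat_lit 16473) (nat_lit 14) (.e (nat_lit 491572) (nat_lit 14) (.e (nat_lit 401451) (nat_lit 12) (.e (nat_lit 475214) (nat_lit 42) .nil)))) .nil)))))) (.nd (nat_lit 3) (.nd (nat_lit 4) (.nd (nat_lit 5) (.nd (nat_lit 6) 
(.lf (nat_lit 136199) (.g (nat_lit 2166) (.e (nat_lit 16473) (nat_lit 14) (.e (nat_lit 491560) (nat_lit 10) (.e (nat_lit 344177) (nat_lit 43) (.e (nat_lit 770072) (nat_lit 8) (.e (nat_lit 65542) (nat_lit 0) .nil))))) .nil)) 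
(.lf (nat_lit 136263) (.g (nat_lit 2402) (.e (nat_lit 16473) (nat_lit 14) (.e (nat_lit 491567) (nat_lit 13) (.e (nat_lit 393260) (nat_lit 21) (.e (nat_lit 409616) (nat_lit 10) (.e (nat_lit 7936) (nat_lit 300) .nil))))) (.g (nat_lit 4) .nil .nil)))) (.nd (nat_lit 6) 
(.lf (nat_lit 136231) (.g (nat_lit 2242) (.e (nat_lit 16473) (nat_lit 14) (.e (nat_lit 491560) (nat_lit 10) (.e (nat_lit 344179) (nat_lit 44) (.e (nat_lit 778466) (nat_lit 11) (.e (nat_lit 24594) (nat_lit 0) (.e (nat_lit 7936) (nat_lit 345) .nil)))))) (.g (nat_lit 4) .nil .nil))) 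
(.lf (nat_lit 136295) (.g (nat_lit 1533) (.e (nat_lit 16473) (nat_lit 14) (.e (nat_lit 491568) (nat_lit 13) (.e (nat_lit 393271) (nat_lit 23) (.e (nat_lit 425986) (nat_lit 0) .nil)))) .nil)))) (.nd (nat_lit 5) (.nd (nat_lit 6) 
(.lf (nat_lit 136215) (.g (nat_lit 2512) (.e (nat_lit 16473) (nat_lit 14) (.e (nat_lit 491560) (nat_lit 10) (.e (nat_lit 344179) (nat_lit 44) (.e (nat_lit 778465) (nat_lit 11) (.e (nat_lit 24578) (nat_lit 0) (.e (nat_lit 7936) (nat_lit 345) .nil)))))) (.g (nat_lit 5) .nil .nil))) 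
(.lf (nat_lit 136279) (.g (nat_lit 1709) (.e (nat_lit 16473) (nat_lit 14) (.e (nat_lit 491567) (nat_lit 13) (.e (nat_lit 393301) (nat_lit 27) (.e (nat_lit 491520) (nat_lit 0) .nil)))) .nil))) (.nd (nat_lit 6) 
(.lf (nat_lit 136247) (.g (nat_lit 2400) (.e (nat_lit 16473) (nat_lit 14) (.e (nat_lit 491563) (nat_lit 12) (.e (nat_lit 385093) (nat_lit 49) (.e (nat_lit 778297) (nat_lit 0) .nil)))) .nil)) 
(.lf (nat_lit 136311) (.g (nat_lit 3887) (.e (nat_lit 16473) (nat_lit 14) (.e (nat_lit 491572) (nat_lit 14) (.e (nat_lit 401437) (nat_lit 9) (.e (nat_lit 426448) (nat_lit 20) (.e (nat_lit 114721) (nat_lit 24) (.e (nat_lit 106536) (nat_lit 11) .nil)))))) (.g (nat_lit 4) .nil .nil)))))) (.nd (nat_lit 4) (.nd (nat_lit 5) (.nd (nat_lit 6) 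
(.lf (nat_lit 136207) (.g (nat_lit 3523) (.e (nat_lit 16473) (nat_lit 14) (.e (nat_lit 491560) (nat_lit 10) (.e (nat_lit 344179) (nat_lit 44) (.e (nat_lit 778464) (nat_lit 11) (.e (nat_lit 24579) (nat_lit 0) (.e (nat_lit 6509) (nat_lit 345) .nil)))))) (.g (nat_lit 5) .nil .nil))) 
(.lf (nat_lit 136271) (.g (nat_lit 2451) (.e (nat_lit 16473) (nat_lit 14) (.e (nat_lit 491567) (nat_lit 13) (.e (nat_lit 393264) (nat_lit 22) (.e (nat_lit 417819) (nat_lit 10) (.e (nat_lit 5383) (nat_lit 300) .nil))))) (.g (nat_lit 5) .nil .nil)))) (.nd (nat_lit 6) 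
(.lf (nat_lit 136239) (.g (nat_lit 851) (.e (nat_lit 16473) (nat_lit 14) (.e (nat_lit 491562) (nat_lit 12) (.e (nat_lit 385107) (nat_lit 51) .nil))) .nil)) 
(.lf (nat_lit 136303) (.g (nat_lit 3394) (.e (nat_lit 16473) (nat_lit 14) (.e (nat_lit 491568) (nat_lit 13) (.e (nat_lit 393283) (nat_lit 24) (.e (nat_lit 434208) (nat_lit 18) (.e (nat_lit 4751) (nat_lit 281) (.e (nat_lit 1130) (nat_lit 83) .nil)))))) (.g (nat_lit 4) .nil .nil))))) (.nd (nat_lit 5) (.nd (nat_lit 6) 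
(.lf (nat_lit 136223) (.g (nat_lit 2918) (.e (nat_lit 16473) (nat_lit 14) (.e (nat_lit 491560) (nat_lit 10) (.e (nat_lit 344179) (nat_lit 44) (.e (nat_lit 778466) (nat_lit 11) (.e (nat_lit 24576) (nat_lit 0) (.e (nat_lit 7936) (nat_lit 345) .nil)))))) (.g (nat_lit 5) .nil .nil))) 
(.lf (nat_lit 136287) (.g (nat_lit 3788) (.e (nat_lit 16473) (nat_lit 14) (.e (nat_lit 491568) (nat_lit 13) (.e (nat_lit 393260) (nat_lit 21) (.e (nat_lit 409616) (nat_lit 10) (.e (nat_lit 7936) (nat_lit 300) .nil))))) (.g (nat_lit 4) .nil .nil)))) (.nd (nat_lit 6) 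
(.lf (nat_lit 136255) (.g (nat_lit 1038) (.e (nat_lit 16473) (nat_lit 14) (.e (nat_lit 491563) (nat_lit 12) (.e (nat_lit 385109) (nat_lit 51) .nil))) .nil)) 
(.lf (nat_lit 136319) (.g (nat_lit 3890) (.e (nat_lit 16473) (nat_lit 14) (.e (nat_lit 491572) (nat_lit 14) (.e (nat_lit 401453) (nat_lit 12) (.e (nat_lit 475214) (nat_lit 42) (.e (nat_lit 720947) (nat_lit 24) (.e (nat_lit 106536) (nat_lit 11) .nil)))))) (.g (nat_lit 4) .nil .nil))))))))))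

noncomputable def tv1813 : DT := (.nd (nat_lit 0) (.nd (nat_lit 1) (.nd (nat_lit 2) (.nd (nat_lit 3) (.nd (nat_lit 4) (.nd (nat_lit 5) (.nd (nat_lit 6) 
(.lf (nat_lit 136320) (.g (nat_lit 3299) (.e (nat_lit 16473) (nat_lit 14) (.e (nat_lit 491572) (nat_lit 14) (.e (nat_lit 401453) (nat_lit 12) (.e (nat_lit 475214) (nat_lit 42) (.e (nat_lit 720948) (nat_lit 24) (.e (nat_lit 106534) (nat_lit 11) .nil)))))) (.g (nat_lit 4) .nil .nil))) 
(.lf (nat_lit 136384) (.g (nat_lit 2331) (.e (nat_lit 24320) (nat_lit 14) (.e (nat_lit 491570) (nat_lit 13) (.e (nat_lit 393260) (nat_lit 21) (.e (nat_lit 409617) (nat_lit 10) (.e (nat_lit 7936) (nat_lit 300) .nil))))) .nil))) (.nd (nat_lit 6) 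
(.lf (nat_lit 136352) (.g (nat_lit 1376) (.e (nat_lit 16473) (nat_lit 14) (.e (nat_lit 491582) (nat_lit 27) (.e (nat_lit 426541) (nat_lit 29) (.e (nat_lit 352312) (nat_lit 22) (.e (nat_lit 98048) (nat_lit 2) .nil))))) (.g (nat_lit 4) .nil .nil))) 
(.lf (nat_lit 136416) (.g (nat_lit 2720) (.e (nat_lit 24320) (nat_lit 17) (.e (nat_lit 90172) (nat_lit 14) (.e (nat_lit 180250) (nat_lit 10) (.e (nat_lit 573482) (nat_lit 13) (.e (nat_lit 65577) (nat_lit 5) .nil))))) .nil)))) (.nd (nat_lit 5) (.nd (nat_lit 6) 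
(.lf (nat_lit 136336) (.g (nat_lit 418) (.e (nat_lit 16473) (nat_lit 14) (.e (nat_lit 499456) (nat_lit 18) (.e (nat_lit 204858) (nat_lit 26) (.e (nat_lit 336198) (nat_lit 12) (.e (nat_lit 392960) (nat_lit 2) .nil))))) (.g (nat_lit 4) .nil .nil))) 
(.lf (nat_lit 136400) (.g (nat_lit 657) (.e (nat_lit 16477) (nat_lit 15) (.e (nat_lit 2059) (nat_lit 142) (.e (nat_lit 704846) (nat_lit 15) .nil))) .nil))) (.nd (nat_lit 6) 
(.lf (nat_lit 136368) (.g (nat_lit 471) (.e (nat_lit 16473) (nat_lit 14) (.e (nat_lit 499456) (nat_lit 27) (.e (nat_lit 426553) (nat_lit 32) (.e (nat_lit 376863) (nat_lit 22) (.e (nat_lit 98048) (nat_lit 2) .nil))))) (.g (nat_lit 4) .nil .nil))) 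
(.lf (nat_lit 136432) (.g (nat_lit 1125) (.e (nat_lit 24320) (nat_lit 17) (.e (nat_lit 90174) (nat_lit 14) (.e (nat_lit 180251) (nat_lit 10) (.e (nat_lit 573489) (nat_lit 14) .nil)))) .nil))))) (.nd (nat_lit 4) (.nd (nat_lit 5) (.nd (nat_lit 6) 
(.lf (nat_lit 136328) (.g (nat_lit 4400) (.e (nat_lit 16473) (nat_lit 14) (.e (nat_lit 491572) (nat_lit 14) (.e (nat_lit 401454) (nat_lit 12) (.e (nat_lit 475214) (nat_lit 42) (.e (nat_lit 720948) (nat_lit 24) (.e (nat_lit 106536) (nat_lit 11) .nil)))))) (.g (nat_lit 4) .nil .nil))) 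
(.lf (nat_lit 136392) (.g (nat_lit 2664) (.e (nat_lit 16477) (nat_lit 15) (.e (nat_lit 1800) (nat_lit 119) (.e (nat_lit 516146) (nat_lit 9) (.e (nat_lit 426131) (nat_lit 3) (.e (nat_lit 204837) (nat_lit 20) .nil))))) .nil))) (.nd (nat_lit 6) 
(.lf (nat_lit 136360) (.g (nat_lit 1370) (.e (nat_lit 16473) (nat_lit 14) (.e (nat_lit 499456) (nat_lit 27) (.e (nat_lit 426525) (nat_lit 27) (.e (nat_lit 336100) (nat_lit 9) (.e (nat_lit 336013) (nat_lit 2) (.e (nat_lit 98048) (nat_lit 2) .nil)))))) (.g (nat_lit 5) .nil .nil))) 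
(.lf (nat_lit 136424) (.g (nat_lit 2330) (.e (nat_lit 24320) (nat_lit 17) (.e (nat_lit 90174) (nat_lit 14) (.e (nat_lit 180250) (nat_lit 10) (.e (nat_lit 573484) (nat_lit 13) (.e (nat_lit 65568) (nat_lit 2) .nil))))) .nil)))) (.nd (nat_lit 5) (.nd (nat_lit 6) 
(.lf (nat_lit 136344) (.g (nat_lit 348) (.e (nat_lit 16473) (nat_lit 14) (.e (nat_lit 491579) (nat_lit 27) (.e (nat_lit 433920) (nat_lit 32) .nil))) .nil)) 
(.lf (nat_lit 136408) (.g (nat_lit 649) (.e (nat_lit 24320) (nat_lit 17) (.e (nat_lit 90170) (nat_lit 13) (.e (nat_lit 172120) (nat_lit 12) .nil))) .nil))) (.nd (nat_lit 6) 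
(.lf (nat_lit 136376) (.g (nat_lit 1807) (.e (nat_lit 16473) (nat_lit 14) (.e (nat_lit 499456) (nat_lit 27) (.e (nat_lit 426555) (nat_lit 32) (.e (nat_lit 376865) (nat_lit 22) (.e (nat_lit 98048) (nat_lit 2) .nil))))) (.g (nat_lit 4) .nil .nil))) 
(.lf (nat_lit 136440) (.g (nat_lit 1719) (.e (nat_lit 24320) (nat_lit 18) (.e (nat_lit 98359) (nat_lit 26) (.e (nat_lit 426132) (nat_lit 3) (.e (nat_lit 204837) (nat_lit 20) (.e (nat_lit 122624) (nat_lit 2) .nil))))) .nil)))))) (.nd (nat_lit 3) (.nd (nat_lit 4) (.nd (nat_lit 5) (.nd (nat_lit 6) 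
(.lf (nat_lit 136324) (.g (nat_lit 3431) (.e (nat_lit 16473) (nat_lit 14) (.e (nat_lit 491572) (nat_lit 14) (.e (nat_lit 401454) (nat_lit 12) (.e (nat_lit 475212) (nat_lit 42) (.e (nat_lit 720947) (nat_lit 24) (.e (nat_lit 106536) (nat_lit 11) .nil)))))) (.g (nat_lit 4) .nil .nil))) 
(.lf (nat_lit 136388) (.g (nat_lit 3163) (.e (nat_lit 24320) (nat_lit 14) (.e (nat_lit 491571) (nat_lit 13) (.e (nat_lit 393260) (nat_lit 21) (.e (nat_lit 409623) (nat_lit 10) .nil)))) .nil))) (.nd (nat_lit 6) 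
(.lf (nat_lit 136356) (.g (nat_lit 2056) (.e (nat_lit 16473) (nat_lit 14) (.e (nat_lit 499456) (nat_lit 27) (.e (nat_lit 426506) (nat_lit 27) (.e (nat_lit 336099) (nat_lit 9) (.e (nat_lit 336013) (nat_lit 2) (.e (nat_lit 98048) (nat_lit 2) .nil)))))) (.g (nat_lit 5) .nil .nil))) 
(.lf (nat_lit 136420) (.g (nat_lit 1047) (.e (nat_lit 24320) (nat_lit 17) (.e (nat_lit 90173) (nat_lit 14) (.e (nat_lit 180252) (nat_lit 10) (.e (nat_lit 573451) (nat_lit 9) .nil)))) .nil)))) (.nd (nat_lit 5) (.nd (nat_lit 6) 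
(.lf (nat_lit 136340) (.g (nat_lit 2032) (.e (nat_lit 16473) (nat_lit 14) (.e (nat_lit 499456) (nat_lit 25) (.e (nat_lit 409646) (nat_lit 18) (.e (nat_lit 303132) (nat_lit 9) (.e (nat_lit 426160) (nat_lit 6) (.e (nat_lit 253991) (nat_lit 11) .nil)))))) (.g (nat_lit 4) .nil .nil))) 
(.lf (nat_lit 136404) (.g (nat_lit 1180) (.e (nat_lit 16481) (nat_lit 15) (.e (nat_lit 1855) (nat_lit 124) (.e (nat_lit 557109) (nat_lit 15) (.e (nat_lit 188452) (nat_lit 23) .nil)))) .nil))) (.nd (nat_lit 6) 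
(.lf (nat_lit 136372) (.g (nat_lit 996) (.e (nat_lit 16473) (nat_lit 14) (.e (nat_lit 499456) (nat_lit 27) (.e (nat_lit 426554) (nat_lit 32) (.e (nat_lit 376865) (nat_lit 22) (.e (nat_lit 98048) (nat_lit 2) .nil))))) (.g (nat_lit 4) .nil .nil))) 
(.lf (nat_lit 136436) (.g (nat_lit 360) (.e (nat_lit 24320) (nat_lit 18) (.e (nat_lit 98353) (nat_lit 25) (.e (nat_lit 417809) (nat_lit 6) .nil))) .nil))))) (.nd (nat_lit 4) (.nd (nat_lit 5) (.nd (nat_lit 6) 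
(.lf (nat_lit 136332) (.g (nat_lit 2400) (.e (nat_lit 16473) (nat_lit 14) (.e (nat_lit 491572) (nat_lit 14) (.e (nat_lit 401454) (nat_lit 12) (.e (nat_lit 475215) (nat_lit 43) .nil)))) .nil)) 
(.lf (nat_lit 136396) (.g (nat_lit 2210) (.e (nat_lit 16477) (nat_lit 15) (.e (nat_lit 1800) (nat_lit 119) (.e (nat_lit 516176) (nat_lit 14) (.e (nat_lit 466971) (nat_lit 21) (.e (nat_lit 164182) (nat_lit 154) .nil))))) .nil))) (.nd (nat_lit 6) 
(.lf (nat_lit 136364) (.g (nat_lit 836) (.e (nat_lit 16473) (nat_lit 14) (.e (nat_lit 499456) (nat_lit 27) (.e (nat_lit 426544) (nat_lit 30) (.e (nat_lit 360459) (nat_lit 1) (.e (nat_lit 507648) (nat_lit 16) .nil))))) (.g (nat_lit 4) .nil .nil))) 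
(.lf (nat_lit 136428) (.g (nat_lit 2206) (.e (nat_lit 24320) (nat_lit 17) (.e (nat_lit 90174) (nat_lit 14) (.e (nat_lit 180250) (nat_lit 10) (.e (nat_lit 573487) (nat_lit 14) (.e (nat_lit 81664) (nat_lit 1) .nil))))) .nil)))) (.nd (nat_lit 5) (.nd (nat_lit 6) 
(.lf (nat_lit 136348) (.g (nat_lit 2098) (.e (nat_lit 16473) (nat_lit 14) (.e (nat_lit 491581) (nat_lit 27) (.e (nat_lit 426523) (nat_lit 27) (.e (nat_lit 336088) (nat_lit 9) (.e (nat_lit 336016) (nat_lit 2) (.e (nat_lit 98048) (nat_lit 2) .nil)))))) (.g (nat_lit 5) .nil .nil))) 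
(.lf (nat_lit 136412) (.g (nat_lit 1628) (.e (nat_lit 24320) (nat_lit 17) (.e (nat_lit 90172) (nat_lit 14) (.e (nat_lit 180250) (nat_lit 10) (.e (nat_lit 573451) (nat_lit 9) .nil)))) .nil))) (.nd (nat_lit 6) 
(.lf (nat_lit 136380) (.g (nat_lit 2828) (.e (nat_lit 16473) (nat_lit 14) (.e (nat_lit 491584) (nat_lit 28) (.e (nat_lit 434282) (nat_lit 41) (.e (nat_lit 679961) (nat_lit 9) (.e (nat_lit 65568) (nat_lit 2) (.e (nat_lit 98048) (nat_lit 2) .nil)))))) (.g (nat_lit 5) .nil .nil))) 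
(.lf (nat_lit 136444) (.g (nat_lit 1813) (.e (nat_lit 24320) (nat_lit 18) (.e (nat_lit 98359) (nat_lit 26) (.e (nat_lit 426305) (nat_lit 12) (.e (nat_lit 475152) (nat_lit 17) .nil)))) .nil))))))) (.nd (nat_lit 2) (.nd (nat_lit 3) (.nd (nat_lit 4) (.nd (nat_lit 5) (.nd (nat_lit 6) 
(.lf (nat_lit 136322) (.g (nat_lit 3856) (.e (nat_lit 16473) (nat_lit 14) (.e (nat_lit 491572) (nat_lit 14) (.e (nat_lit 401453) (nat_lit 12) (.e (nat_lit 475214) (nat_lit 42) (.e (nat_lit 720949) (nat_lit 24) (.e (nat_lit 106536) (nat_lit 11) .nil)))))) (.g (nat_lit 4) .nil .nil))) 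
(.lf (nat_lit 136386) (.g (nat_lit 3984) (.e (nat_lit 24320) (nat_lit 14) (.e (nat_lit 491571) (nat_lit 13) (.e (nat_lit 393260) (nat_lit 21) (.e (nat_lit 409616) (nat_lit 10) (.e (nat_lit 7936) (nat_lit 300) .nil))))) .nil))) (.nd (nat_lit 6) 
(.lf (nat_lit 136354) (.g (nat_lit 1974) (.e (nat_lit 16473) (nat_lit 14) (.e (nat_lit 499456) (nat_lit 27) (.e (nat_lit 426480) (nat_lit 27) (.e (nat_lit 336099) (nat_lit 9) (.e (nat_lit 336013) (nat_lit 2) (.e (nat_lit 98048) (nat_lit 2) .nil)))))) (.g (nat_lit 5) .nil .nil))) 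
(.lf (nat_lit 136418) (.g (nat_lit 2678) (.e (nat_lit 24320) (nat_lit 17) (.e (nat_lit 90172) (nat_lit 14) (.e (nat_lit 180250) (nat_lit 10) (.e (nat_lit 573487) (nat_lit 14) (.e (nat_lit 81664) (nat_lit 1) .nil))))) .nil)))) (.nd (nat_lit 5) (.nd (nat_lit 6) 
(.lf (nat_lit 136338) (.g (nat_lit 1873) (.e (nat_lit 16473) (nat_lit 14) (.e (nat_lit 499456) (nat_lit 18) (.e (nat_lit 204861) (nat_lit 26) (.e (nat_lit 336194) (nat_lit 12) (.e (nat_lit 392960) (nat_lit 2) .nil))))) (.g (nat_lit 4) .nil .nil))) 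
(.lf (nat_lit 136402) (.g (nat_lit 2078) (.e (nat_lit 16480) (nat_lit 15) (.e (nat_lit 1800) (nat_lit 119) (.e (nat_lit 516176) (nat_lit 14) (.e (nat_lit 466972) (nat_lit 21) (.e (nat_lit 164183) (nat_lit 154) .nil))))) .nil))) (.nd (nat_lit 6) 
(.lf (nat_lit 136370) (.g (nat_lit 519) (.e (nat_lit 16473) (nat_lit 14) (.e (nat_lit 499456) (nat_lit 27) (.e (nat_lit 426554) (nat_lit 32) (.e (nat_lit 376863) (nat_lit 22) (.e (nat_lit 98048) (nat_lit 2) .nil))))) (.g (nat_lit 4) .nil .nil))) 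
(.lf (nat_lit 136434) (.g (nat_lit 1223) (.e (nat_lit 24320) (nat_lit 17) (.e (nat_lit 90176) (nat_lit 15) (.e (nat_lit 188444) (nat_lit 21) (.e (nat_lit 164182) (nat_lit 154) .nil)))) .nil))))) (.nd (nat_lit 4) (.nd (nat_lit 5) (.nd (nat_lit 6) 
(.lf (nat_lit 136330) (.g (nat_lit 4400) (.e (nat_lit 16473) (nat_lit 14) (.e (nat_lit 491572) (nat_lit 14) (.e (nat_lit 401454) (nat_lit 12) (.e (nat_lit 475214) (nat_lit 42) (.e (nat_lit 720951) (nat_lit 24) (.e (nat_lit 106536) (nat_lit 11) .nil)))))) (.g (nat_lit 4) .nil .nil))) 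
(.lf (nat_lit 136394) (.g (nat_lit 2993) (.e (nat_lit 16477) (nat_lit 15) (.e (nat_lit 1800) (nat_lit 119) (.e (nat_lit 516150) (nat_lit 9) (.e (nat_lit 426131) (nat_lit 3) (.e (nat_lit 204838) (nat_lit 20) .nil))))) .nil))) (.nd (nat_lit 6) 
(.lf (nat_lit 136362) (.g (nat_lit 1586) (.e (nat_lit 16473) (nat_lit 14) (.e (nat_lit 499456) (nat_lit 27) (.e (nat_lit 426542) (nat_lit 29) (.e (nat_lit 352312) (nat_lit 22) (.e (nat_lit 98048) (nat_lit 2) .nil))))) (.g (nat_lit 4) .nil .nil))) 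
(.lf (nat_lit 136426) (.g (nat_lit 2069) (.e (nat_lit 24320) (nat_lit 17) (.e (nat_lit 90174) (nat_lit 14) (.e (nat_lit 180250) (nat_lit 10) (.e (nat_lit 573485) (nat_lit 13) (.e (nat_lit 65575) (nat_lit 5) .nil))))) .nil)))) (.nd (nat_lit 5) (.nd (nat_lit 6) 
(.lf (nat_lit 136346) (.g (nat_lit 1607) (.e (nat_lit 16473) (nat_lit 14) (.e (nat_lit 491580) (nat_lit 27) (.e (nat_lit 433920) (nat_lit 29) (.e (nat_lit 352321) (nat_lit 25) (.e (nat_lit 139276) (nat_lit 2) .nil))))) (.g (nat_lit 4) .nil .nil))) 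
(.lf (nat_lit 136410) (.g (nat_lit 1922) (.e (nat_lit 24320) (nat_lit 17) (.e (nat_lit 90172) (nat_lit 14) (.e (nat_lit 180243) (nat_lit 5) (.e (nat_lit 532513) (nat_lit 3) (.e (nat_lit 122624) (nat_lit 2) .nil))))) .nil))) (.nd (nat_lit 6) 
(.lf (nat_lit 136378) (.g (nat_lit 629) (.e (nat_lit 16473) (nat_lit 14) (.e (nat_lit 499456) (nat_lit 27) (.e (nat_lit 426556) (nat_lit 32) (.e (nat_lit 376864) (nat_lit 22) (.e (nat_lit 98048) (nat_lit 2) .nil))))) (.g (nat_lit 4) .nil .nil))) 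
(.lf (nat_lit 136442) (.g (nat_lit 1813) (.e (nat_lit 24320) (nat_lit 18) (.e (nat_lit 98359) (nat_lit 26) (.e (nat_lit 426305) (nat_lit 12) (.e (nat_lit 475144) (nat_lit 16) .nil)))) .nil)))))) (.nd (nat_lit 3) (.nd (nat_lit 4) (.nd (nat_lit 5) (.nd (nat_lit 6) 
(.lf (nat_lit 136326) (.g (nat_lit 3282) (.e (nat_lit 16473) (nat_lit 14) (.e (nat_lit 491572) (nat_lit 14) (.e (nat_lit 401454) (nat_lit 12) (.e (nat_lit 475212) (nat_lit 42) (.e (nat_lit 720952) (nat_lit 24) (.e (nat_lit 106534) (nat_lit 11) .nil)))))) (.g (nat_lit 4) .nil .nil))) 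
(.lf (nat_lit 136390) (.g (nat_lit 96) (.e (nat_lit 16475) (nat_lit 15) (.e (nat_lit 1786) (nat_lit 119) (.e (nat_lit 516177) (nat_lit 14) .nil))) .nil))) (.nd (nat_lit 6) 
(.lf (nat_lit 136358) (.g (nat_lit 1491) (.e (nat_lit 16473) (nat_lit 14) (.e (nat_lit 499456) (nat_lit 27) (.e (nat_lit 426525) (nat_lit 27) (.e (nat_lit 336073) (nat_lit 9) (.e (nat_lit 336013) (nat_lit 2) (.e (nat_lit 98048) (nat_lit 2) .nil)))))) (.g (nat_lit 5) .nil .nil))) 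
(.lf (nat_lit 136422) (.g (nat_lit 1942) (.e (nat_lit 24320) (nat_lit 17) (.e (nat_lit 90174) (nat_lit 14) (.e (nat_lit 180250) (nat_lit 10) (.e (nat_lit 573480) (nat_lit 13) (.e (nat_lit 65568) (nat_lit 2) .nil))))) .nil)))) (.nd (nat_lit 5) (.nd (nat_lit 6) 
(.lf (nat_lit 136342) (.g (nat_lit 1889) (.e (nat_lit 16473) (nat_lit 14) (.e (nat_lit 491579) (nat_lit 27) (.e (nat_lit 433920) (nat_lit 27) (.e (nat_lit 336099) (nat_lit 9) (.e (nat_lit 336013) (nat_lit 2) (.e (nat_lit 98048) (nat_lit 2) .nil)))))) (.g (nat_lit 5) .nil .nil))) 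
(.lf (nat_lit 136406) (.g (nat_lit 367) (.e (nat_lit 24320) (nat_lit 15) (.e (nat_lit 2030) (nat_lit 140) (.e (nat_lit 688182) (nat_lit 17) .nil))) .nil))) (.nd (nat_lit 6) 
(.lf (nat_lit 136374) (.g (nat_lit 1184) (.e (nat_lit 16473) (nat_lit 14) (.e (nat_lit 499456) (nat_lit 27) (.e (nat_lit 426555) (nat_lit 32) (.e (nat_lit 376863) (nat_lit 22) (.e (nat_lit 98048) (nat_lit 2) .nil))))) (.g (nat_lit 4) .nil .nil))) 
(.lf (nat_lit 136438) (.g (nat_lit 1839) (.e (nat_lit 24320) (nat_lit 18) (.e (nat_lit 98358) (nat_lit 26) (.e (nat_lit 426131) (nat_lit 3) (.e (nat_lit 204838) (nat_lit 20) .nil)))) .nil))))) (.nd (nat_lit 4) (.nd (nat_lit 5) (.nd (nat_lit 6) 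
(.lf (nat_lit 136334) (.g (nat_lit 3917) (.e (nat_lit 16473) (nat_lit 14) (.e (nat_lit 491572) (nat_lit 14) (.e (nat_lit 401454) (nat_lit 12) (.e (nat_lit 475219) (nat_lit 44) (.e (nat_lit 737318) (nat_lit 15) (.e (nat_lit 49187) (nat_lit 11) .nil)))))) (.g (nat_lit 5) .nil .nil))) 
(.lf (nat_lit 136398) (.g (nat_lit 2091) (.e (nat_lit 16477) (nat_lit 15) (.e (nat_lit 1800) (nat_lit 119) (.e (nat_lit 516176) (nat_lit 14) (.e (nat_lit 466972) (nat_lit 21) (.e (nat_lit 164182) (nat_lit 154) .nil))))) .nil))) (.nd (nat_lit 6) 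
(.lf (nat_lit 136366) (.g (nat_lit 854) (.e (nat_lit 16473) (nat_lit 14) (.e (nat_lit 499456) (nat_lit 27) (.e (nat_lit 426546) (nat_lit 30) (.e (nat_lit 360459) (nat_lit 1) (.e (nat_lit 507648) (nat_lit 16) .nil))))) (.g (nat_lit 4) .nil .nil))) 
(.lf (nat_lit 136430) (.g (nat_lit 1086) (.e (nat_lit 24320) (nat_lit 17) (.e (nat_lit 90174) (nat_lit 14) (.e (nat_lit 180250) (nat_lit 10) (.e (nat_lit 573489) (nat_lit 14) .nil)))) .nil)))) (.nd (nat_lit 5) (.nd (nat_lit 6) 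
(.lf (nat_lit 136350) (.g (nat_lit 719) (.e (nat_lit 16473) (nat_lit 14) (.e (nat_lit 491581) (nat_lit 27) (.e (nat_lit 433920) (nat_lit 29) (.e (nat_lit 352312) (nat_lit 22) (.e (nat_lit 98048) (nat_lit 2) .nil))))) (.g (nat_lit 4) .nil .nil))) 
(.lf (nat_lit 136414) (.g (nat_lit 1332) (.e (nat_lit 24320) (nat_lit 17) (.e (nat_lit 90172) (nat_lit 14) (.e (nat_lit 180250) (nat_lit 10) (.e (nat_lit 573482) (nat_lit 13) .nil)))) .nil))) (.nd (nat_lit 6) 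
(.lf (nat_lit 136382) (.g (nat_lit 2348) (.e (nat_lit 16473) (nat_lit 14) (.e (nat_lit 499456) (nat_lit 34) (.e (nat_lit 483372) (nat_lit 21) (.e (nat_lit 319504) (nat_lit 10) (.e (nat_lit 612) (nat_lit 47) (.e (nat_lit 548883) (nat_lit 7) .nil)))))) (.g (nat_lit 4) .nil .nil))) 
(.lf (nat_lit 136446) (.g (nat_lit 1158) (.e (nat_lit 24320) (nat_lit 18) (.e (nat_lit 98359) (nat_lit 26) (.e (nat_lit 426312) (nat_lit 12) (.e (nat_lit 475152) (nat_lit 17) .nil)))) .nil)))))))) (.nd (nat_lit 1) (.nd (nat_lit 2) (.nd (nat_lit 3) (.nd (nat_lit 4) (.nd (nat_lit 5) (.nd (nat_lit 6) 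
(.lf (nat_lit 136321) (.g (nat_lit 3334) (.e (nat_lit 16473) (nat_lit 14) (.e (nat_lit 491572) (nat_lit 14) (.e (nat_lit 401453) (nat_lit 12) (.e (nat_lit 475214) (nat_lit 42) (.e (nat_lit 720949) (nat_lit 24) (.e (nat_lit 106534) (nat_lit 11) .nil)))))) (.g (nat_lit 4) .nil .nil))) 
(.lf (nat_lit 136385) (.g (nat_lit 3825) (.e (nat_lit 24320) (nat_lit 14) (.e (nat_lit 491571) (nat_lit 13) (.e (nat_lit 393260) (nat_lit 21) (.e (nat_lit 409614) (nat_lit 10) .nil)))) .nil))) (.nd (nat_lit 6) 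
(.lf (nat_lit 136353) (.g (nat_lit 2307) (.e (nat_lit 16473) (nat_lit 14) (.e (nat_lit 499456) (nat_lit 27) (.e (nat_lit 426478) (nat_lit 27) (.e (nat_lit 336099) (nat_lit 9) (.e (nat_lit 336013) (nat_lit 2) (.e (nat_lit 98048) (nat_lit 2) .nil)))))) (.g (nat_lit 5) .nil .nil))) 
(.lf (nat_lit 136417) (.g (nat_lit 3052) (.e (nat_lit 24320) (nat_lit 17) (.e (nat_lit 90172) (nat_lit 14) (.e (nat_lit 180250) (nat_lit 10) (.e (nat_lit 573484) (nat_lit 13) (.e (nat_lit 65575) (nat_lit 5) .nil))))) .nil)))) (.nd (nat_lit 5) (.nd (nat_lit 6) 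
(.lf (nat_lit 136337) (.g (nat_lit 1017) (.e (nat_lit 16473) (nat_lit 14) (.e (nat_lit 499456) (nat_lit 18) (.e (nat_lit 204859) (nat_lit 26) (.e (nat_lit 336206) (nat_lit 12) (.e (nat_lit 392960) (nat_lit 2) .nil))))) (.g (nat_lit 4) .nil .nil))) 
(.lf (nat_lit 136401) (.g (nat_lit 1390) (.e (nat_lit 16480) (nat_lit 15) (.e (nat_lit 1800) (nat_lit 119) (.e (nat_lit 516176) (nat_lit 14) (.e (nat_lit 466972) (nat_lit 21) .nil)))) .nil))) (.nd (nat_lit 6) 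
(.lf (nat_lit 136369) (.g (nat_lit 627) (.e (nat_lit 16473) (nat_lit 14) (.e (nat_lit 499456) (nat_lit 27) (.e (nat_lit 426553) (nat_lit 32) (.e (nat_lit 376864) (nat_lit 22) (.e (nat_lit 98048) (nat_lit 2) .nil))))) (.g (nat_lit 4) .nil .nil))) 
(.lf (nat_lit 136433) (.g (nat_lit 525) (.e (nat_lit 24320) (nat_lit 17) (.e (nat_lit 90176) (nat_lit 15) (.e (nat_lit 188417) (nat_lit 0) .nil))) .nil))))) (.nd (nat_lit 4) (.nd (nat_lit 5) (.nd (nat_lit 6) 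
(.lf (nat_lit 136329) (.g (nat_lit 3431) (.e (nat_lit 16473) (nat_lit 14) (.e (nat_lit 491572) (nat_lit 14) (.e (nat_lit 401454) (nat_lit 12) (.e (nat_lit 475214) (nat_lit 42) (.e (nat_lit 720950) (nat_lit 24) (.e (nat_lit 106534) (nat_lit 11) .nil)))))) (.g (nat_lit 4) .nil .nil))) 
(.lf (nat_lit 136393) (.g (nat_lit 2640) (.e (nat_lit 16477) (nat_lit 15) (.e (nat_lit 1800) (nat_lit 119) (.e (nat_lit 516146) (nat_lit 9) (.e (nat_lit 426131) (nat_lit 3) (.e (nat_lit 204838) (nat_lit 20) .nil))))) .nil))) (.nd (nat_lit 6) 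
(.lf (nat_lit 136361) (.g (nat_lit 1087) (.e (nat_lit 16473) (nat_lit 14) (.e (nat_lit 499456) (nat_lit 27) (.e (nat_lit 426538) (nat_lit 29) (.e (nat_lit 352312) (nat_lit 22) (.e (nat_lit 98048) (nat_lit 2) .nil))))) (.g (nat_lit 4) .nil .nil))) 
(.lf (nat_lit 136425) (.g (nat_lit 2050) (.e (nat_lit 24320) (nat_lit 17) (.e (nat_lit 90174) (nat_lit 14) (.e (nat_lit 180250) (nat_lit 10) (.e (nat_lit 573485) (nat_lit 13) (.e (nat_lit 65568) (nat_lit 2) .nil))))) .nil)))) (.nd (nat_lit 5) (.nd (nat_lit 6) 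
(.lf (nat_lit 136345) (.g (nat_lit 782) (.e (nat_lit 16473) (nat_lit 14) (.e (nat_lit 491580) (nat_lit 27) (.e (nat_lit 433920) (nat_lit 29) (.e (nat_lit 352312) (nat_lit 22) (.e (nat_lit 98048) (nat_lit 2) .nil))))) (.g (nat_lit 4) .nil .nil))) 
(.lf (nat_lit 136409) (.g (nat_lit 2359) (.e (nat_lit 24320) (nat_lit 17) (.e (nat_lit 90170) (nat_lit 13) (.e (nat_lit 172120) (nat_lit 12) (.e (nat_lit 475145) (nat_lit 16) .nil)))) .nil))) (.nd (nat_lit 6) 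
(.lf (nat_lit 136377) (.g (nat_lit 542) (.e (nat_lit 16473) (nat_lit 14) (.e (nat_lit 499456) (nat_lit 27) (.e (nat_lit 426556) (nat_lit 32) (.e (nat_lit 376863) (nat_lit 22) (.e (nat_lit 98048) (nat_lit 2) .nil))))) (.g (nat_lit 4) .nil .nil))) 
(.lf (nat_lit 136441) (.g (nat_lit 1127) (.e (nat_lit 24320) (nat_lit 18) (.e (nat_lit 98359) (nat_lit 26) (.e (nat_lit 426132) (nat_lit 3) (.e (nat_lit 204838) (nat_lit 20) .nil)))) .nil)))))) (.nd (nat_lit 3) (.nd (nat_lit 4) (.nd (nat_lit 5) (.nd (nat_lit 6) 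
(.lf (nat_lit 136325) (.g (nat_lit 3282) (.e (nat_lit 16473) (nat_lit 14) (.e (nat_lit 491572) (nat_lit 14) (.e (nat_lit 401454) (nat_lit 12) (.e (nat_lit 475212) (nat_lit 42) (.e (nat_lit 720949) (nat_lit 24) (.e (nat_lit 106534) (nat_lit 11) .nil)))))) (.g (nat_lit 4) .nil .nil))) 
(.lf (nat_lit 136389) (.g (nat_lit 1703) (.e (nat_lit 16474) (nat_lit 15) (.e (nat_lit 1853) (nat_lit 124) (.e (nat_lit 557087) (nat_lit 11) (.e (nat_lit 24603) (nat_lit 2) .nil)))) .nil))) (.nd (nat_lit 6) 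
(.lf (nat_lit 136357) (.g (nat_lit 1579) (.e (nat_lit 16473) (nat_lit 14) (.e (nat_lit 499456) (nat_lit 27) (.e (nat_lit 426508) (nat_lit 27) (.e (nat_lit 336099) (nat_lit 9) (.e (nat_lit 336013) (nat_lit 2) (.e (nat_lit 98048) (nat_lit 2) .nil)))))) (.g (nat_lit 5) .nil .nil))) 
(.lf (nat_lit 136421) (.g (nat_lit 2286) (.e (nat_lit 24320) (nat_lit 17) (.e (nat_lit 90173) (nat_lit 14) (.e (nat_lit 180252) (nat_lit 10) (.e (nat_lit 573488) (nat_lit 14) (.e (nat_lit 81664) (nat_lit 1) .nil))))) .nil)))) (.nd (nat_lit 5) (.nd (nat_lit 6) 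
(.lf (nat_lit 136341) (.g (nat_lit 382) (.e (nat_lit 16473) (nat_lit 14) (.e (nat_lit 491579) (nat_lit 27) (.e (nat_lit 426500) (nat_lit 27) .nil))) .nil)) 
(.lf (nat_lit 136405) (.g (nat_lit 657) (.e (nat_lit 16481) (nat_lit 15) (.e (nat_lit 2059) (nat_lit 142) (.e (nat_lit 704846) (nat_lit 15) .nil))) .nil))) (.nd (nat_lit 6) 
(.lf (nat_lit 136373) (.g (nat_lit 1431) (.e (nat_lit 16473) (nat_lit 14) (.e (nat_lit 499456) (nat_lit 27) (.e (nat_lit 426555) (nat_lit 32) (.e (nat_lit 376862) (nat_lit 22) (.e (nat_lit 98048) (nat_lit 2) .nil))))) (.g (nat_lit 4) .nil .nil))) 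
(.lf (nat_lit 136437) (.g (nat_lit 1886) (.e (nat_lit 24320) (nat_lit 18) (.e (nat_lit 98358) (nat_lit 26) (.e (nat_lit 426131) (nat_lit 3) (.e (nat_lit 204837) (nat_lit 20) .nil)))) .nil))))) (.nd (nat_lit 4) (.nd (nat_lit 5) (.nd (nat_lit 6) 
(.lf (nat_lit 136333) (.g (nat_lit 4059) (.e (nat_lit 16473) (nat_lit 14) (.e (nat_lit 491572) (nat_lit 14) (.e (nat_lit 401454) (nat_lit 12) (.e (nat_lit 475218) (nat_lit 44) (.e (nat_lit 737318) (nat_lit 15) (.e (nat_lit 49187) (nat_lit 11) .nil)))))) (.g (nat_lit 4) .nil .nil))) 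
(.lf (nat_lit 136397) (.g (nat_lit 1386) (.e (nat_lit 16477) (nat_lit 15) (.e (nat_lit 1800) (nat_lit 119) (.e (nat_lit 516176) (nat_lit 14) (.e (nat_lit 466972) (nat_lit 21) .nil)))) .nil))) (.nd (nat_lit 6) 
(.lf (nat_lit 136365) (.g (nat_lit 502) (.e (nat_lit 16473) (nat_lit 14) (.e (nat_lit 499456) (nat_lit 27) (.e (nat_lit 426545) (nat_lit 30) (.e (nat_lit 360459) (nat_lit 1) (.e (nat_lit 507648) (nat_lit 16) .nil))))) (.g (nat_lit 4) .nil .nil))) 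
(.lf (nat_lit 136429) (.g (nat_lit 1539) (.e (nat_lit 24320) (nat_lit 17) (.e (nat_lit 90174) (nat_lit 14) (.e (nat_lit 180250) (nat_lit 10) (.e (nat_lit 573488) (nat_lit 14) .nil)))) .nil)))) (.nd (nat_lit 5) (.nd (nat_lit 6) 
(.lf (nat_lit 136349) (.g (nat_lit 1498) (.e (nat_lit 16473) (nat_lit 14) (.e (nat_lit 491581) (nat_lit 27) (.e (nat_lit 433920) (nat_lit 27) (.e (nat_lit 336099) (nat_lit 9) (.e (nat_lit 336013) (nat_lit 2) (.e (nat_lit 98048) (nat_lit 2) .nil)))))) (.g (nat_lit 5) .nil .nil))) 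
(.lf (nat_lit 136413) (.g (nat_lit 1414) (.e (nat_lit 24320) (nat_lit 17) (.e (nat_lit 90172) (nat_lit 14) (.e (nat_lit 180250) (nat_lit 10) (.e (nat_lit 573480) (nat_lit 13) .nil)))) .nil))) (.nd (nat_lit 6) 
(.lf (nat_lit 136381) (.g (nat_lit 1894) (.e (nat_lit 16473) (nat_lit 14) (.e (nat_lit 499456) (nat_lit 33) (.e (nat_lit 475142) (nat_lit 8) (.e (nat_lit 1458) (nat_lit 108) (.e (nat_lit 336013) (nat_lit 2) (.e (nat_lit 98048) (nat_lit 2) .nil)))))) (.g (nat_lit 5) .nil .nil))) 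
(.lf (nat_lit 136445) (.g (nat_lit 692) (.e (nat_lit 24320) (nat_lit 18) (.e (nat_lit 98359) (nat_lit 26) (.e (nat_lit 426312) (nat_lit 12) .nil))) .nil))))))) (.nd (nat_lit 2) (.nd (nat_lit 3) (.nd (nat_lit 4) (.nd (nat_lit 5) (.nd (nat_lit 6) 
(.lf (nat_lit 136323) (.g (nat_lit 3925) (.e (nat_lit 16473) (nat_lit 14) (.e (nat_lit 491572) (nat_lit 14) (.e (nat_lit 401453) (nat_lit 12) (.e (nat_lit 475214) (nat_lit 42) (.e (nat_lit 720950) (nat_lit 24) (.e (nat_lit 106536) (nat_lit 11) .nil)))))) (.g (nat_lit 4) .nil .nil))) 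
(.lf (nat_lit 136387) (.g (nat_lit 2680) (.e (nat_lit 24320) (nat_lit 14) (.e (nat_lit 491571) (nat_lit 13) (.e (nat_lit 393260) (nat_lit 21) (.e (nat_lit 409617) (nat_lit 10) .nil)))) .nil))) (.nd (nat_lit 6) 
(.lf (nat_lit 136355) (.g (nat_lit 1617) (.e (nat_lit 16473) (nat_lit 14) (.e (nat_lit 499456) (nat_lit 27) (.e (nat_lit 426481) (nat_lit 27) (.e (nat_lit 336099) (nat_lit 9) (.e (nat_lit 336013) (nat_lit 2) (.e (nat_lit 98048) (nat_lit 2) .nil)))))) (.g (nat_lit 5) .nil .nil))) 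
(.lf (nat_lit 136419) (.g (nat_lit 233) (.e (nat_lit 24320) (nat_lit 17) (.e (nat_lit 90173) (nat_lit 14) (.e (nat_lit 180251) (nat_lit 10) .nil))) .nil)))) (.nd (nat_lit 5) (.nd (nat_lit 6) 
(.lf (nat_lit 136339) (.g (nat_lit 1425) (.e (nat_lit 16473) (nat_lit 14) (.e (nat_lit 499456) (nat_lit 18) (.e (nat_lit 204861) (nat_lit 26) (.e (nat_lit 336196) (nat_lit 12) (.e (nat_lit 392960) (nat_lit 2) .nil))))) (.g (nat_lit 4) .nil .nil))) 
(.lf (nat_lit 136403) (.g (nat_lit 1390) (.e (nat_lit 16481) (nat_lit 15) (.e (nat_lit 1800) (nat_lit 119) (.e (nat_lit 516176) (nat_lit 14) (.e (nat_lit 466972) (nat_lit 21) .nil)))) .nil))) (.nd (nat_lit 6) 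
(.lf (nat_lit 136371) (.g (nat_lit 624) (.e (nat_lit 16473) (nat_lit 14) (.e (nat_lit 499456) (nat_lit 27) (.e (nat_lit 426554) (nat_lit 32) (.e (nat_lit 376864) (nat_lit 22) (.e (nat_lit 98048) (nat_lit 2) .nil))))) (.g (nat_lit 4) .nil .nil))) 
(.lf (nat_lit 136435) (.g (nat_lit 613) (.e (nat_lit 24320) (nat_lit 17) (.e (nat_lit 90178) (nat_lit 15) (.e (nat_lit 188416) (nat_lit 0) .nil))) .nil))))) (.nd (nat_lit 4) (.nd (nat_lit 5) (.nd (nat_lit 6) 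
(.lf (nat_lit 136331) (.g (nat_lit 3406) (.e (nat_lit 16473) (nat_lit 14) (.e (nat_lit 491572) (nat_lit 14) (.e (nat_lit 401454) (nat_lit 12) (.e (nat_lit 475214) (nat_lit 42) (.e (nat_lit 720952) (nat_lit 24) .nil))))) .nil)) 
(.lf (nat_lit 136395) (.g (nat_lit 1519) (.e (nat_lit 16477) (nat_lit 15) (.e (nat_lit 1800) (nat_lit 119) (.e (nat_lit 516169) (nat_lit 13) (.e (nat_lit 458789) (nat_lit 23) .nil)))) .nil))) (.nd (nat_lit 6) 
(.lf (nat_lit 136363) (.g (nat_lit 1465) (.e (nat_lit 16473) (nat_lit 14) (.e (nat_lit 499456) (nat_lit 27) (.e (nat_lit 426544) (nat_lit 30) (.e (nat_lit 360458) (nat_lit 1) (.e (nat_lit 500049) (nat_lit 16) .nil))))) (.g (nat_lit 4) .nil .nil))) 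
(.lf (nat_lit 136427) (.g (nat_lit 2060) (.e (nat_lit 24320) (nat_lit 17) (.e (nat_lit 90174) (nat_lit 14) (.e (nat_lit 180250) (nat_lit 10) (.e (nat_lit 573485) (nat_lit 13) (.e (nat_lit 65577) (nat_lit 5) .nil))))) .nil)))) (.nd (nat_lit 5) (.nd (nat_lit 6) 
(.lf (nat_lit 136347) (.g (nat_lit 998) (.e (nat_lit 16473) (nat_lit 14) (.e (nat_lit 491581) (nat_lit 27) (.e (nat_lit 426518) (nat_lit 27) (.e (nat_lit 336152) (nat_lit 9) (.e (nat_lit 336014) (nat_lit 2) (.e (nat_lit 98048) (nat_lit 2) .nil)))))) (.g (nat_lit 4) .nil .nil))) 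
(.lf (nat_lit 136411) (.g (nat_lit 433) (.e (nat_lit 24320) (nat_lit 17) (.e (nat_lit 90172) (nat_lit 14) (.e (nat_lit 180250) (nat_lit 10) .nil))) .nil))) (.nd (nat_lit 6) 
(.lf (nat_lit 136379) (.g (nat_lit 1272) (.e (nat_lit 16473) (nat_lit 14) (.e (nat_lit 499456) (nat_lit 27) (.e (nat_lit 426556) (nat_lit 32) (.e (nat_lit 376865) (nat_lit 22) (.e (nat_lit 98048) (nat_lit 2) .nil))))) (.g (nat_lit 4) .nil .nil))) 
(.lf (nat_lit 136443) (.g (nat_lit 1813) (.e (nat_lit 24320) (nat_lit 18) (.e (nat_lit 98359) (nat_lit 26) (.e (nat_lit 426305) (nat_lit 12) (.e (nat_lit 475151) (nat_lit 17) .nil)))) .nil)))))) (.nd (nat_lit 3) (.nd (nat_lit 4) (.nd (nat_lit 5) (.nd (nat_lit 6) 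
(.lf (nat_lit 136327) (.g (nat_lit 2603) (.e (nat_lit 16473) (nat_lit 14) (.e (nat_lit 491572) (nat_lit 14) (.e (nat_lit 401454) (nat_lit 12) (.e (nat_lit 475213) (nat_lit 42) .nil)))) .nil)) 
(.lf (nat_lit 136391) (.g (nat_lit 570) (.e (nat_lit 16475) (nat_lit 15) (.e (nat_lit 1853) (nat_lit 124) (.e (nat_lit 557087) (nat_lit 11) .nil))) .nil))) (.nd (nat_lit 6) 
(.lf (nat_lit 136359) (.g (nat_lit 1065) (.e (nat_lit 16473) (nat_lit 14) (.e (nat_lit 499456) (nat_lit 27) (.e (nat_lit 426525) (nat_lit 27) (.e (nat_lit 336087) (nat_lit 9) (.e (nat_lit 336016) (nat_lit 2) (.e (nat_lit 98048) (nat_lit 2) .nil)))))) (.g (nat_lit 5) .nil .nil))) 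
(.lf (nat_lit 136423) (.g (nat_lit 1330) (.e (nat_lit 24320) (nat_lit 17) (.e (nat_lit 90174) (nat_lit 14) (.e (nat_lit 180250) (nat_lit 10) (.e (nat_lit 573482) (nat_lit 13) .nil)))) .nil)))) (.nd (nat_lit 5) (.nd (nat_lit 6) 
(.lf (nat_lit 136343) (.g (nat_lit 1021) (.e (nat_lit 16473) (nat_lit 14) (.e (nat_lit 491579) (nat_lit 27) (.e (nat_lit 433920) (nat_lit 29) (.e (nat_lit 352312) (nat_lit 22) (.e (nat_lit 98048) (nat_lit 2) .nil))))) (.g (nat_lit 4) .nil .nil))) 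
(.lf (nat_lit 136407) (.g (nat_lit 1868) (.e (nat_lit 24320) (nat_lit 17) (.e (nat_lit 90170) (nat_lit 13) (.e (nat_lit 172067) (nat_lit 3) (.e (nat_lit 204837) (nat_lit 20) .nil)))) .nil))) (.nd (nat_lit 6) 
(.lf (nat_lit 136375) (.g (nat_lit 1324) (.e (nat_lit 16473) (nat_lit 14) (.e (nat_lit 499456) (nat_lit 27) (.e (nat_lit 426555) (nat_lit 32) (.e (nat_lit 376864) (nat_lit 22) (.e (nat_lit 98048) (nat_lit 2) .nil))))) (.g (nat_lit 4) .nil .nil))) 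
(.lf (nat_lit 136439) (.g (nat_lit 1421) (.e (nat_lit 24320) (nat_lit 18) (.e (nat_lit 98358) (nat_lit 26) (.e (nat_lit 426320) (nat_lit 12) (.e (nat_lit 475145) (nat_lit 16) .nil)))) .nil))))) (.nd (nat_lit 4) (.nd (nat_lit 5) (.nd (nat_lit 6) 
(.lf (nat_lit 136335) (.g (nat_lit 3729) (.e (nat_lit 16473) (nat_lit 14) (.e (nat_lit 491572) (nat_lit 14) (.e (nat_lit 401454) (nat_lit 12) (.e (nat_lit 475219) (nat_lit 44) (.e (nat_lit 737318) (nat_lit 15) (.e (nat_lit 49188) (nat_lit 11) .nil)))))) (.g (nat_lit 0) .nil .nil))) 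
(.lf (nat_lit 136399) (.g (nat_lit 565) (.e (nat_lit 16477) (nat_lit 15) (.e (nat_lit 1856) (nat_lit 124) (.e (nat_lit 557100) (nat_lit 13) .nil))) .nil))) (.nd (nat_lit 6) 
(.lf (nat_lit 136367) (.g (nat_lit 545) (.e (nat_lit 16473) (nat_lit 14) (.e (nat_lit 499456) (nat_lit 27) (.e (nat_lit 426552) (nat_lit 32) (.e (nat_lit 376863) (nat_lit 22) (.e (nat_lit 98048) (nat_lit 2) .nil))))) (.g (nat_lit 4) .nil .nil))) 
(.lf (nat_lit 136431) (.g (nat_lit 1491) (.e (nat_lit 24320) (nat_lit 17) (.e (nat_lit 90174) (nat_lit 14) (.e (nat_lit 180251) (nat_lit 10) (.e (nat_lit 573484) (nat_lit 13) .nil)))) .nil)))) (.nd (nat_lit 5) (.nd (nat_lit 6) 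
(.lf (nat_lit 136351) (.g (nat_lit 1858) (.e (nat_lit 16473) (nat_lit 14) (.e (nat_lit 491582) (nat_lit 27) (.e (nat_lit 426508) (nat_lit 27) (.e (nat_lit 336099) (nat_lit 9) (.e (nat_lit 336013) (nat_lit 2) (.e (nat_lit 98048) (nat_lit 2) .nil)))))) (.g (nat_lit 5) .nil .nil))) 
(.lf (nat_lit 136415) (.g (nat_lit 2603) (.e (nat_lit 24320) (nat_lit 17) (.e (nat_lit 90172) (nat_lit 14) (.e (nat_lit 180250) (nat_lit 10) (.e (nat_lit 573482) (nat_lit 13) (.e (nat_lit 65575) (nat_lit 5) .nil))))) .nil))) (.nd (nat_lit 6) 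
(.lf (nat_lit 136383) (.g (nat_lit 1781) (.e (nat_lit 24320) (nat_lit 14) (.e (nat_lit 491570) (nat_lit 13) (.e (nat_lit 393260) (nat_lit 21) (.e (nat_lit 409616) (nat_lit 10) (.e (nat_lit 7936) (nat_lit 300) .nil))))) .nil)) 
(.lf (nat_lit 136447) (.g (nat_lit 1926) (.e (nat_lit 24320) (nat_lit 18) (.e (nat_lit 98359) (nat_lit 26) (.e (nat_lit 426338) (nat_lit 14) (.e (nat_lit 491580) (nat_lit 27) (.e (nat_lit 426160) (nat_lit 6) .nil))))) .nil)))))))))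

noncomputable def tv1814 : DT := (.nd (nat_lit 0) (.nd (nat_lit 1) (.nd (nat_lit 2) (.nd (nat_lit 3) (.nd (nat_lit 4) (.nd (nat_lit 5) (.nd (nat_lit 6) 
(.lf (nat_lit 136448) (.g (nat_lit 1445) (.e (nat_lit 24320) (nat_lit 18) (.e (nat_lit 98365) (nat_lit 26) (.e (nat_lit 426188) (nat_lit 9) (.e (nat_lit 426471) (nat_lit 25) .nil)))) .nil)) 
(.lf (nat_lit 136512) (.g (nat_lit 1746) (.e (nat_lit 24320) (nat_lit 20) (.e (nat_lit 114710) (nat_lit 21) (.e (nat_lit 57852) (nat_lit 252) (.e (nat_lit 57426) (nat_lit 15) (.e (nat_lit 368384) (nat_lit 22) .nil))))) .nil))) (.nd (nat_lit 6) 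
(.lf (nat_lit 136480) (.g (nat_lit 2104) (.e (nat_lit 24320) (nat_lit 18) (.e (nat_lit 98367) (nat_lit 27) (.e (nat_lit 434247) (nat_lit 28) (.e (nat_lit 573489) (nat_lit 14) (.e (nat_lit 81664) (nat_lit 1) .nil))))) .nil)) 
(.lf (nat_lit 136544) (.g (nat_lit 4557) (.e (nat_lit 16483) (nat_lit 27) (.e (nat_lit 335986) (nat_lit 1) (.e (nat_lit 57847) (nat_lit 252) (.e (nat_lit 57368) (nat_lit 1) (.e (nat_lit 57854) (nat_lit 252) (.e (nat_lit 57389) (nat_lit 5) (.e (nat_lit 114723) (nat_lit 24) (.e (nat_lit 106536) (nat_lit 11) .nil)))))))) (.g (nat_lit 0) .nil .nil))))) (.nd (nat_lit 5) (.nd (nat_lit 6) 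
(.lf (nat_lit 136464) (.g (nat_lit 1798) (.e (nat_lit 24320) (nat_lit 18) (.e (nat_lit 98367) (nat_lit 27) (.e (nat_lit 434232) (nat_lit 23) (.e (nat_lit 532513) (nat_lit 3) (.e (nat_lit 122624) (nat_lit 2) .nil))))) .nil)) 
(.lf (nat_lit 136528) (.g (nat_lit 1806) (.e (nat_lit 16482) (nat_lit 27) (.e (nat_lit 335995) (nat_lit 1) (.e (nat_lit 57848) (nat_lit 252) (.e (nat_lit 57372) (nat_lit 2) (.e (nat_lit 90159) (nat_lit 11) .nil))))) .nil))) (.nd (nat_lit 6) 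
(.lf (nat_lit 136496) (.g (nat_lit 1788) (.e (nat_lit 24320) (nat_lit 18) (.e (nat_lit 98370) (nat_lit 28) (.e (nat_lit 442421) (nat_lit 21) (.e (nat_lit 164182) (nat_lit 154) .nil)))) .nil)) 
(.lf (nat_lit 136560) (.g (nat_lit 1436) (.e (nat_lit 16483) (nat_lit 27) (.e (nat_lit 335995) (nat_lit 1) (.e (nat_lit 57848) (nat_lit 252) (.e (nat_lit 57365) (nat_lit 1) (.e (nat_lit 57854) (nat_lit 252) (.e (nat_lit 57389) (nat_lit 5) (.e (nat_lit 114723) (nat_lit 24) (.e (nat_lit 106535) (nat_lit 11) .nil)))))))) (.g (nat_lit 4) .nil .nil)))))) 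
(.nd (nat_lit 4) (.nd (nat_lit 5) (.nd (nat_lit 6) 
(.lf (nat_lit 136456) (.g (nat_lit 2649) (.e (nat_lit 24320) (nat_lit 18) (.e (nat_lit 98366) (nat_lit 27) (.e (nat_lit 434244) (nat_lit 28) (.e (nat_lit 573487) (nat_lit 14) (.e (nat_lit 81664) (nat_lit 1) .nil))))) .nil)) 
(.lf (nat_lit 136520) (.g (nat_lit 2053) (.e (nat_lit 16482) (nat_lit 27) (.e (nat_lit 335986) (nat_lit 1) (.e (nat_lit 57847) (nat_lit 252) (.e (nat_lit 57368) (nat_lit 1) (.e (nat_lit 57854) (nat_lit 252) .nil))))) .nil))) (.nd (nat_lit 6) 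
(.lf (nat_lit 136488) (.g (nat_lit 677) (.e (nat_lit 24320) (nat_lit 18) (.e (nat_lit 98370) (nat_lit 28) (.e (nat_lit 442371) (nat_lit 0) .nil))) .nil)) 
(.lf (nat_lit 136552) (.g (nat_lit 2520) (.e (nat_lit 16483) (nat_lit 27) (.e (nat_lit 335988) (nat_lit 1) (.e (nat_lit 57854) (nat_lit 252) (.e (nat_lit 57373) (nat_lit 2) (.e (nat_lit 90160) (nat_lit 11) (.e (nat_lit 24580) (nat_lit 0) (.e (nat_lit 6510) (nat_lit 345) .nil))))))) (.g (nat_lit 4) .nil .nil))))) (.nd (nat_lit 5) (.nd (nat_lit 6) 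
(.lf (nat_lit 136472) (.g (nat_lit 2362) (.e (nat_lit 24320) (nat_lit 18) (.e (nat_lit 98367) (nat_lit 27) (.e (nat_lit 434244) (nat_lit 28) (.e (nat_lit 573487) (nat_lit 14) (.e (nat_lit 81664) (nat_lit 1) .nil))))) .nil)) 
(.lf (nat_lit 136536) (.g (nat_lit 2172) (.e (nat_lit 16482) (nat_lit 27) (.e (nat_lit 335996) (nat_lit 1) (.e (nat_lit 57854) (nat_lit 252) (.e (nat_lit 57371) (nat_lit 2) .nil)))) .nil))) (.nd (nat_lit 6) 
(.lf (nat_lit 136504) (.g (nat_lit 2698) (.e (nat_lit 24320) (nat_lit 18) (.e (nat_lit 98373) (nat_lit 29) (.e (nat_lit 450563) (nat_lit 0) (.e (nat_lit 6378) (nat_lit 338) .nil)))) .nil)) 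
(.lf (nat_lit 136568) (.g (nat_lit 2263) (.e (nat_lit 16483) (nat_lit 27) (.e (nat_lit 335995) (nat_lit 1) (.e (nat_lit 57849) (nat_lit 252) (.e (nat_lit 57367) (nat_lit 1) (.e (nat_lit 57848) (nat_lit 252) (.e (nat_lit 57390) (nat_lit 5) (.e (nat_lit 114723) (nat_lit 24) (.e (nat_lit 106536) (nat_lit 11) .nil)))))))) (.g (nat_lit 4) .nil .nil))))))) 
(.nd (nat_lit 3) (.nd (nat_lit 4) (.nd (nat_lit 5) (.nd (nat_lit 6) 
(.lf (nat_lit 136452) (.g (nat_lit 2211) (.e (nat_lit 24320) (nat_lit 18) (.e (nat_lit 98366) (nat_lit 27) (.e (nat_lit 434231) (nat_lit 23) (.e (nat_lit 532513) (nat_lit 3) (.e (nat_lit 122624) (nat_lit 2) .nil))))) .nil)) 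
(.lf (nat_lit 136516) (.g (nat_lit 1757) (.e (nat_lit 24320) (nat_lit 20) (.e (nat_lit 114712) (nat_lit 21) (.e (nat_lit 57930) (nat_lit 282) (.e (nat_lit 163923) (nat_lit 15) (.e (nat_lit 450573) (nat_lit 1) .nil))))) .nil))) (.nd (nat_lit 6) 
(.lf (nat_lit 136484) (.g (nat_lit 364) (.e (nat_lit 24320) (nat_lit 18) (.e (nat_lit 98369) (nat_lit 28) (.e (nat_lit 442371) (nat_lit 0) .nil))) .nil)) 
(.lf (nat_lit 136548) (.g (nat_lit 1470) (.e (nat_lit 16483) (nat_lit 27) (.e (nat_lit 335988) (nat_lit 1) (.e (nat_lit 57854) (nat_lit 252) (.e (nat_lit 57366) (nat_lit 1) .nil)))) .nil)))) (.nd (nat_lit 5) (.nd (nat_lit 6) 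
(.lf (nat_lit 136468) (.g (nat_lit 572) (.e (nat_lit 24320) (nat_lit 18) (.e (nat_lit 98367) (nat_lit 27) (.e (nat_lit 434244) (nat_lit 28) .nil))) .nil)) 
(.lf (nat_lit 136532) (.g (nat_lit 2974) (.e (nat_lit 16482) (nat_lit 27) (.e (nat_lit 335995) (nat_lit 1) (.e (nat_lit 57849) (nat_lit 252) (.e (nat_lit 57372) (nat_lit 2) (.e (nat_lit 90160) (nat_lit 11) (.e (nat_lit 24580) (nat_lit 0) (.e (nat_lit 6508) (nat_lit 345) .nil))))))) (.g (nat_lit 4) .nil .nil)))) (.nd (nat_lit 6) 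
(.lf (nat_lit 136500) (.g (nat_lit 1474) (.e (nat_lit 24320) (nat_lit 18) (.e (nat_lit 98370) (nat_lit 28) (.e (nat_lit 442436) (nat_lit 26) (.e (nat_lit 253999) (nat_lit 12) .nil)))) .nil)) 
(.lf (nat_lit 136564) (.g (nat_lit 1696) (.e (nat_lit 16483) (nat_lit 27) (.e (nat_lit 335995) (nat_lit 1) (.e (nat_lit 57849) (nat_lit 252) (.e (nat_lit 57363) (nat_lit 1) .nil)))) .nil))))) (.nd (nat_lit 4) (.nd (nat_lit 5) (.nd (nat_lit 6) 
(.lf (nat_lit 136460) (.g (nat_lit 1844) (.e (nat_lit 24320) (nat_lit 18) (.e (nat_lit 98366) (nat_lit 27) (.e (nat_lit 434247) (nat_lit 28) (.e (nat_lit 573484) (nat_lit 13) (.e (nat_lit 65577) (nat_lit 5) .nil))))) .nil)) 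
(.lf (nat_lit 136524) (.g (nat_lit 1821) (.e (nat_lit 16482) (nat_lit 27) (.e (nat_lit 335995) (nat_lit 1) (.e (nat_lit 57847) (nat_lit 252) (.e (nat_lit 57368) (nat_lit 1) (.e (nat_lit 57854) (nat_lit 252) .nil))))) .nil))) (.nd (nat_lit 6) 
(.lf (nat_lit 136492) (.g (nat_lit 577) (.e (nat_lit 24320) (nat_lit 18) (.e (nat_lit 98370) (nat_lit 28) (.e (nat_lit 442383) (nat_lit 9) .nil))) .nil)) 
(.lf (nat_lit 136556) (.g (nat_lit 3375) (.e (nat_lit 16483) (nat_lit 27) (.e (nat_lit 335995) (nat_lit 1) (.e (nat_lit 57847) (nat_lit 252) (.e (nat_lit 57368) (nat_lit 1) (.e (nat_lit 57854) (nat_lit 252) (.e (nat_lit 57389) (nat_lit 5) (.e (nat_lit 114722) (nat_lit 24) (.e (nat_lit 106536) (nat_lit 11) .nil)))))))) (.g (nat_lit 6) .nil .nil))))) (.nd (nat_lit 5) (.nd (nat_lit 6) 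
(.lf (nat_lit 136476) (.g (nat_lit 713) (.e (nat_lit 24320) (nat_lit 18) (.e (nat_lit 98367) (nat_lit 27) (.e (nat_lit 434246) (nat_lit 28) .nil))) .nil)) 
(.lf (nat_lit 136540) (.g (nat_lit 2847) (.e (nat_lit 16483) (nat_lit 27) (.e (nat_lit 335986) (nat_lit 1) (.e (nat_lit 57847) (nat_lit 252) (.e (nat_lit 57365) (nat_lit 1) (.e (nat_lit 57854) (nat_lit 252) (.e (nat_lit 57389) (nat_lit 5) (.e (nat_lit 114723) (nat_lit 24) (.e (nat_lit 106535) (nat_lit 11) .nil)))))))) (.g (nat_lit 5) .nil .nil)))) (.nd (nat_lit 6) 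
(.lf (nat_lit 136508) (.g (nat_lit 1187) (.e (nat_lit 24320) (nat_lit 18) (.e (nat_lit 98381) (nat_lit 31) (.e (nat_lit 466972) (nat_lit 21) (.e (nat_lit 164182) (nat_lit 154) .nil)))) .nil)) 
(.lf (nat_lit 136572) (.g (nat_lit 2994) (.e (nat_lit 16483) (nat_lit 27) (.e (nat_lit 335995) (nat_lit 1) (.e (nat_lit 57849) (nat_lit 252) (.e (nat_lit 57372) (nat_lit 2) (.e (nat_lit 90160) (nat_lit 11) (.e (nat_lit 24580) (nat_lit 0) (.e (nat_lit 6510) (nat_lit 345) .nil))))))) (.g (nat_lit 4) .nil .nil)))))))) 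
(.nd (nat_lit 2) (.nd (nat_lit 3) (.nd (nat_lit 4) (.nd (nat_lit 5) (.nd (nat_lit 6) 
(.lf (nat_lit 136450) (.g (nat_lit 1382) (.e (nat_lit 24320) (nat_lit 18) (.e (nat_lit 98365) (nat_lit 26) (.e (nat_lit 426306) (nat_lit 12) (.e (nat_lit 475144) (nat_lit 16) .nil)))) .nil)) 
(.lf (nat_lit 136514) (.g (nat_lit 1935) (.e (nat_lit 24320) (nat_lit 20) (.e (nat_lit 114711) (nat_lit 21) (.e (nat_lit 57847) (nat_lit 252) (.e (nat_lit 57426) (nat_lit 15) (.e (nat_lit 368384) (nat_lit 22) .nil))))) .nil))) (.nd (nat_lit 6) 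
(.lf (nat_lit 136482) (.g (nat_lit 2351) (.e (nat_lit 24320) (nat_lit 18) (.e (nat_lit 98367) (nat_lit 27) (.e (nat_lit 434248) (nat_lit 28) (.e (nat_lit 573482) (nat_lit 13) (.e (nat_lit 65575) (nat_lit 5) .nil))))) .nil)) 
(.lf (nat_lit 136546) (.g (nat_lit 739) (.e (nat_lit 16483) (nat_lit 27) (.e (nat_lit 335988) (nat_lit 1) (.e (nat_lit 57854) (nat_lit 252) .nil))) .nil)))) (.nd (nat_lit 5) (.nd (nat_lit 6) 
(.lf (nat_lit 136466) (.g (nat_lit 1708) (.e (nat_lit 24320) (nat_lit 18) (.e (nat_lit 98367) (nat_lit 27) (.e (nat_lit 434242) (nat_lit 28) (.e (nat_lit 573488) (nat_lit 14) (.e (nat_lit 81664) (nat_lit 1) .nil))))) .nil)) 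
(.lf (nat_lit 136530) (.g (nat_lit 1839) (.e (nat_lit 16482) (nat_lit 27) (.e (nat_lit 335995) (nat_lit 1) (.e (nat_lit 57849) (nat_lit 252) (.e (nat_lit 57367) (nat_lit 1) (.e (nat_lit 57848) (nat_lit 252) .nil))))) .nil))) (.nd (nat_lit 6) 
(.lf (nat_lit 136498) (.g (nat_lit 1790) (.e (nat_lit 24320) (nat_lit 18) (.e (nat_lit 98370) (nat_lit 28) (.e (nat_lit 442436) (nat_lit 26) (.e (nat_lit 253995) (nat_lit 12) .nil)))) .nil)) 
(.lf (nat_lit 136562) (.g (nat_lit 2809) (.e (nat_lit 16483) (nat_lit 27) (.e (nat_lit 335995) (nat_lit 1) (.e (nat_lit 57848) (nat_lit 252) (.e (nat_lit 57368) (nat_lit 1) (.e (nat_lit 57854) (nat_lit 252) (.e (nat_lit 57389) (nat_lit 5) (.e (nat_lit 114723) (nat_lit 24) (.e (nat_lit 106535) (nat_lit 11) .nil)))))))) (.g (nat_lit 7) .nil .nil)))))) 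
(.nd (nat_lit 4) (.nd (nat_lit 5) (.nd (nat_lit 6) 
(.lf (nat_lit 136458) (.g (nat_lit 1775) (.e (nat_lit 24320) (nat_lit 18) (.e (nat_lit 98366) (nat_lit 27) (.e (nat_lit 434245) (nat_lit 28) (.e (nat_lit 573487) (nat_lit 14) (.e (nat_lit 81664) (nat_lit 1) .nil))))) .nil)) 
(.lf (nat_lit 136522) (.g (nat_lit 1712) (.e (nat_lit 16482) (nat_lit 27) (.e (nat_lit 335988) (nat_lit 1) (.e (nat_lit 57854) (nat_lit 252) (.e (nat_lit 57366) (nat_lit 1) (.e (nat_lit 57854) (nat_lit 252) .nil))))) .nil))) (.nd (nat_lit 6) 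
(.lf (nat_lit 136490) (.g (nat_lit 1297) (.e (nat_lit 24320) (nat_lit 18) (.e (nat_lit 98370) (nat_lit 28) (.e (nat_lit 442375) (nat_lit 0) (.e (nat_lit 6112) (nat_lit 332) (.e (nat_lit 1167) (nat_lit 86) .nil))))) .nil)) 
(.lf (nat_lit 136554) (.g (nat_lit 2711) (.e (nat_lit 16483) (nat_lit 27) (.e (nat_lit 335995) (nat_lit 1) (.e (nat_lit 57847) (nat_lit 252) (.e (nat_lit 57365) (nat_lit 1) (.e (nat_lit 57854) (nat_lit 252) (.e (nat_lit 57389) (nat_lit 5) (.e (nat_lit 114723) (nat_lit 24) (.e (nat_lit 106535) (nat_lit 11) .nil)))))))) (.g (nat_lit 5) .nil .nil))))) (.nd (nat_lit 5) (.nd (nat_lit 6) 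
(.lf (nat_lit 136474) (.g (nat_lit 2054) (.e (nat_lit 24320) (nat_lit 18) (.e (nat_lit 98367) (nat_lit 27) (.e (nat_lit 434245) (nat_lit 28) (.e (nat_lit 573481) (nat_lit 13) (.e (nat_lit 65577) (nat_lit 5) .nil))))) .nil)) 
(.lf (nat_lit 136538) (.g (nat_lit 750) (.e (nat_lit 16482) (nat_lit 27) (.e (nat_lit 336204) (nat_lit 12) (.e (nat_lit 385057) (nat_lit 22) .nil))) .nil))) (.nd (nat_lit 6) 
(.lf (nat_lit 136506) (.g (nat_lit 1196) (.e (nat_lit 24320) (nat_lit 18) (.e (nat_lit 98373) (nat_lit 29) (.e (nat_lit 450566) (nat_lit 0) .nil))) .nil)) 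
(.lf (nat_lit 136570) (.g (nat_lit 2965) (.e (nat_lit 16483) (nat_lit 27) (.e (nat_lit 335995) (nat_lit 1) (.e (nat_lit 57849) (nat_lit 252) (.e (nat_lit 57368) (nat_lit 1) (.e (nat_lit 57854) (nat_lit 252) (.e (nat_lit 57389) (nat_lit 5) (.e (nat_lit 114723) (nat_lit 24) (.e (nat_lit 106535) (nat_lit 11) .nil)))))))) (.g (nat_lit 5) .nil .nil))))))) 
(.nd (nat_lit 3) (.nd (nat_lit 4) (.nd (nat_lit 5) (.nd (nat_lit 6) 
(.lf (nat_lit 136454) (.g (nat_lit 2694) (.e (nat_lit 24320) (nat_lit 18) (.e (nat_lit 98366) (nat_lit 27) (.e (nat_lit 434244) (nat_lit 28) (.e (nat_lit 573481) (nat_lit 13) (.e (nat_lit 65575) (nat_lit 5) .nil))))) .nil)) 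
(.lf (nat_lit 136518) (.g (nat_lit 1341) (.e (nat_lit 24320) (nat_lit 25) (.e (nat_lit 319531) (nat_lit 16) (.e (nat_lit 286761) (nat_lit 13) (.e (nat_lit 393237) (nat_lit 17) .nil)))) .nil))) (.nd (nat_lit 6) 
(.lf (nat_lit 136486) (.g (nat_lit 427) (.e (nat_lit 24320) (nat_lit 18) (.e (nat_lit 98369) (nat_lit 28) (.e (nat_lit 442384) (nat_lit 10) .nil))) .nil)) 
(.lf (nat_lit 136550) (.g (nat_lit 2487) (.e (nat_lit 16483) (nat_lit 27) (.e (nat_lit 335988) (nat_lit 1) (.e (nat_lit 57854) (nat_lit 252) (.e (nat_lit 57371) (nat_lit 2) (.e (nat_lit 90160) (nat_lit 11) (.e (nat_lit 24584) (nat_lit 0) (.e (nat_lit 7936) (nat_lit 345) .nil))))))) (.g (nat_lit 5) .nil .nil))))) (.nd (nat_lit 5) (.nd (nat_lit 6) 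
(.lf (nat_lit 136470) (.g (nat_lit 2455) (.e (nat_lit 24320) (nat_lit 18) (.e (nat_lit 98367) (nat_lit 27) (.e (nat_lit 434244) (nat_lit 28) (.e (nat_lit 573481) (nat_lit 13) (.e (nat_lit 65575) (nat_lit 5) .nil))))) .nil)) 
(.lf (nat_lit 136534) (.g (nat_lit 2156) (.e (nat_lit 16482) (nat_lit 27) (.e (nat_lit 335996) (nat_lit 1) (.e (nat_lit 57854) (nat_lit 252) (.e (nat_lit 57364) (nat_lit 1) .nil)))) .nil))) (.nd (nat_lit 6) 
(.lf (nat_lit 136502) (.g (nat_lit 1680) (.e (nat_lit 24320) (nat_lit 18) (.e (nat_lit 98372) (nat_lit 29) (.e (nat_lit 450564) (nat_lit 0) (.e (nat_lit 6387) (nat_lit 338) (.e (nat_lit 8207) (nat_lit 4) .nil))))) .nil)) 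
(.lf (nat_lit 136566) (.g (nat_lit 1723) (.e (nat_lit 16483) (nat_lit 27) (.e (nat_lit 335995) (nat_lit 1) (.e (nat_lit 57849) (nat_lit 252) (.e (nat_lit 57367) (nat_lit 1) .nil)))) .nil))))) (.nd (nat_lit 4) (.nd (nat_lit 5) (.nd (nat_lit 6) 
(.lf (nat_lit 136462) (.g (nat_lit 2719) (.e (nat_lit 24320) (nat_lit 18) (.e (nat_lit 98367) (nat_lit 27) (.e (nat_lit 434231) (nat_lit 23) (.e (nat_lit 532513) (nat_lit 3) (.e (nat_lit 122624) (nat_lit 2) .nil))))) .nil)) 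
(.lf (nat_lit 136526) (.g (nat_lit 1862) (.e (nat_lit 16482) (nat_lit 27) (.e (nat_lit 335995) (nat_lit 1) (.e (nat_lit 57848) (nat_lit 252) (.e (nat_lit 57367) (nat_lit 1) (.e (nat_lit 57848) (nat_lit 252) .nil))))) .nil))) (.nd (nat_lit 6) 
(.lf (nat_lit 136494) (.g (nat_lit 893) (.e (nat_lit 24320) (nat_lit 18) (.e (nat_lit 98370) (nat_lit 28) (.e (nat_lit 442384) (nat_lit 10) (.e (nat_lit 327712) (nat_lit 13) .nil)))) .nil)) 
(.lf (nat_lit 136558) (.g (nat_lit 3207) (.e (nat_lit 16483) (nat_lit 27) (.e (nat_lit 335995) (nat_lit 1) (.e (nat_lit 57847) (nat_lit 252) (.e (nat_lit 57368) (nat_lit 1) (.e (nat_lit 57854) (nat_lit 252) (.e (nat_lit 57389) (nat_lit 5) (.e (nat_lit 114723) (nat_lit 24) (.e (nat_lit 106535) (nat_lit 11) .nil)))))))) (.g (nat_lit 7) .nil .nil))))) (.nd (nat_lit 5) (.nd (nat_lit 6) 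
(.lf (nat_lit 136478) (.g (nat_lit 2563) (.e (nat_lit 24320) (nat_lit 18) (.e (nat_lit 98367) (nat_lit 27) (.e (nat_lit 434247) (nat_lit 28) (.e (nat_lit 573484) (nat_lit 13) (.e (nat_lit 65577) (nat_lit 5) .nil))))) .nil)) 
(.lf (nat_lit 136542) (.g (nat_lit 4374) (.e (nat_lit 16483) (nat_lit 27) (.e (nat_lit 335986) (nat_lit 1) (.e (nat_lit 57847) (nat_lit 252) (.e (nat_lit 57368) (nat_lit 1) (.e (nat_lit 57854) (nat_lit 252) (.e (nat_lit 57389) (nat_lit 5) (.e (nat_lit 114723) (nat_lit 24) (.e (nat_lit 106534) (nat_lit 11) .nil)))))))) (.g (nat_lit 0) .nil .nil)))) (.nd (nat_lit 6) 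
(.lf (nat_lit 136510) (.g (nat_lit 1706) (.e (nat_lit 24320) (nat_lit 20) (.e (nat_lit 114710) (nat_lit 21) (.e (nat_lit 57847) (nat_lit 252) (.e (nat_lit 57426) (nat_lit 15) (.e (nat_lit 360490) (nat_lit 22) .nil))))) .nil)) 
(.lf (nat_lit 136574) (.g (nat_lit 3499) (.e (nat_lit 16483) (nat_lit 27) (.e (nat_lit 335996) (nat_lit 1) (.e (nat_lit 57851) (nat_lit 252) (.e (nat_lit 57371) (nat_lit 2) (.e (nat_lit 90160) (nat_lit 11) (.e (nat_lit 24580) (nat_lit 0) (.e (nat_lit 6508) (nat_lit 345) .nil))))))) (.g (nat_lit 5) .nil .nil))))))))) 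
(.nd (nat_lit 1) (.nd (nat_lit 2) (.nd (nat_lit 3) (.nd (nat_lit 4) (.nd (nat_lit 5) 
(.nd (nat_lit 6) 
(.lf (nat_lit 136449) (.g (nat_lit 1512) (.e (nat_lit 24320) (nat_lit 18) (.e (nat_lit 98365) (nat_lit 26) (.e (nat_lit 426188) (nat_lit 9) (.e (nat_lit 426472) (nat_lit 25) .nil)))) .nil)) 
(.lf (nat_lit 136513) (.g (nat_lit 1977) (.e (nat_lit 24320) (nat_lit 20) (.e (nat_lit 114711) (nat_lit 21) (.e (nat_lit 57847) (nat_lit 252) (.e (nat_lit 57426) (nat_lit 15) (.e (nat_lit 360490) (nat_lit 22) .nil))))) .nil))) (.nd (nat_lit 6) 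
(.lf (nat_lit 136481) (.g (nat_lit 1638) (.e (nat_lit 24320) (nat_lit 18) (.e (nat_lit 98367) (nat_lit 27) (.e (nat_lit 434248) (nat_lit 28) (.e (nat_lit 573480) (nat_lit 13) .nil)))) .nil)) 
(.lf (nat_lit 136545) (.g (nat_lit 2732) (.e (nat_lit 16483) (nat_lit 27) (.e (nat_lit 335986) (nat_lit 1) (.e (nat_lit 57849) (nat_lit 252) (.e (nat_lit 57372) (nat_lit 2) (.e (nat_lit 90160) (nat_lit 11) (.e (nat_lit 24584) (nat_lit 0) (.e (nat_lit 7936) (nat_lit 345) .nil))))))) (.g (nat_lit 4) .nil .nil))))) (.nd (nat_lit 5) (.nd (nat_lit 6) 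
(.lf (nat_lit 136465) (.g (nat_lit 762) (.e (nat_lit 24320) (nat_lit 18) (.e (nat_lit 98367) (nat_lit 27) (.e (nat_lit 434234) (nat_lit 23) .nil))) .nil)) 
(.lf (nat_lit 136529) (.g (nat_lit 1768) (.e (nat_lit 16482) (nat_lit 27) (.e (nat_lit 335995) (nat_lit 1) (.e (nat_lit 57848) (nat_lit 252) (.e (nat_lit 57375) (nat_lit 2) (.e (nat_lit 90159) (nat_lit 11) .nil))))) .nil))) (.nd (nat_lit 6) 
(.lf (nat_lit 136497) (.g (nat_lit 1788) (.e (nat_lit 24320) (nat_lit 18) (.e (nat_lit 98370) (nat_lit 28) (.e (nat_lit 442436) (nat_lit 26) (.e (nat_lit 253994) (nat_lit 12) .nil)))) .nil)) 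
(.lf (nat_lit 136561) (.g (nat_lit 2977) (.e (nat_lit 16483) (nat_lit 27) (.e (nat_lit 335995) (nat_lit 1) (.e (nat_lit 57848) (nat_lit 252) (.e (nat_lit 57368) (nat_lit 1) (.e (nat_lit 57854) (nat_lit 252) (.e (nat_lit 57389) (nat_lit 5) (.e (nat_lit 114722) (nat_lit 24) (.e (nat_lit 106536) (nat_lit 11) .nil)))))))) (.g (nat_lit 6) .nil .nil)))))) 
(.nd (nat_lit 4) (.nd (nat_lit 5) (.nd (nat_lit 6) 
(.lf (nat_lit 136457) (.g (nat_lit 2752) (.e (nat_lit 24320) (nat_lit 18) (.e (nat_lit 98366) (nat_lit 27) (.e (nat_lit 434244) (nat_lit 28) (.e (nat_lit 573488) (nat_lit 14) (.e (nat_lit 81664) (nat_lit 1) .nil))))) .nil)) 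
(.lf (nat_lit 136521) (.g (nat_lit 4811) (.e (nat_lit 16482) (nat_lit 27) (.e (nat_lit 335986) (nat_lit 1) (.e (nat_lit 57847) (nat_lit 252) (.e (nat_lit 57368) (nat_lit 1) (.e (nat_lit 57854) (nat_lit 252) (.e (nat_lit 57389) (nat_lit 5) (.e (nat_lit 114723) (nat_lit 24) (.e (nat_lit 106536) (nat_lit 11) .nil)))))))) (.g (nat_lit 0) .nil .nil)))) (.nd (nat_lit 6) 
(.lf (nat_lit 136489) (.g (nat_lit 649) (.e (nat_lit 24320) (nat_lit 18) (.e (nat_lit 98370) (nat_lit 28) (.e (nat_lit 442375) (nat_lit 0) .nil))) .nil)) 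
(.lf (nat_lit 136553) (.g (nat_lit 1524) (.e (nat_lit 16483) (nat_lit 27) (.e (nat_lit 335995) (nat_lit 1) (.e (nat_lit 57844) (nat_lit 252) (.e (nat_lit 57375) (nat_lit 2) .nil)))) .nil)))) (.nd (nat_lit 5) (.nd (nat_lit 6) 
(.lf (nat_lit 136473) (.g (nat_lit 731) (.e (nat_lit 24320) (nat_lit 18) (.e (nat_lit 98367) (nat_lit 27) (.e (nat_lit 434245) (nat_lit 28) .nil))) .nil)) 
(.lf (nat_lit 136537) (.g (nat_lit 588) (.e (nat_lit 16482) (nat_lit 27) (.e (nat_lit 336076) (nat_lit 9) (.e (nat_lit 336320) (nat_lit 17) .nil))) .nil))) (.nd (nat_lit 6) 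
(.lf (nat_lit 136505) (.g (nat_lit 1222) (.e (nat_lit 24320) (nat_lit 18) (.e (nat_lit 98373) (nat_lit 29) (.e (nat_lit 450565) (nat_lit 0) .nil))) .nil)) 
(.lf (nat_lit 136569) (.g (nat_lit 2082) (.e (nat_lit 16483) (nat_lit 27) (.e (nat_lit 335995) (nat_lit 1) (.e (nat_lit 57849) (nat_lit 252) (.e (nat_lit 57368) (nat_lit 1) (.e (nat_lit 57854) (nat_lit 252) .nil))))) .nil)))))) (.nd (nat_lit 3) (.nd (nat_lit 4) (.nd (nat_lit 5) (.nd (nat_lit 6) 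
(.lf (nat_lit 136453) (.g (nat_lit 1972) (.e (nat_lit 24320) (nat_lit 18) (.e (nat_lit 98366) (nat_lit 27) (.e (nat_lit 434231) (nat_lit 23) (.e (nat_lit 532514) (nat_lit 3) (.e (nat_lit 122624) (nat_lit 2) .nil))))) .nil)) 
(.lf (nat_lit 136517) (.g (nat_lit 1515) (.e (nat_lit 24320) (nat_lit 25) (.e (nat_lit 319530) (nat_lit 16) (.e (nat_lit 286761) (nat_lit 13) (.e (nat_lit 393237) (nat_lit 17) .nil)))) .nil))) (.nd (nat_lit 6) 
(.lf (nat_lit 136485) (.g (nat_lit 294) (.e (nat_lit 24320) (nat_lit 18) (.e (nat_lit 98369) (nat_lit 28) (.e (nat_lit 442383) (nat_lit 9) .nil))) .nil)) 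
(.lf (nat_lit 136549) (.g (nat_lit 3232) (.e (nat_lit 16483) (nat_lit 27) (.e (nat_lit 335988) (nat_lit 1) (.e (nat_lit 57854) (nat_lit 252) (.e (nat_lit 57371) (nat_lit 2) (.e (nat_lit 90160) (nat_lit 11) (.e (nat_lit 24580) (nat_lit 0) (.e (nat_lit 6508) (nat_lit 345) .nil))))))) (.g (nat_lit 5) .nil .nil))))) (.nd (nat_lit 5) (.nd (nat_lit 6) 
(.lf (nat_lit 136469) (.g (nat_lit 1510) (.e (nat_lit 24320) (nat_lit 18) (.e (nat_lit 98367) (nat_lit 27) (.e (nat_lit 434244) (nat_lit 28) (.e (nat_lit 573480) (nat_lit 13) .nil)))) .nil)) 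
(.lf (nat_lit 136533) (.g (nat_lit 2461) (.e (nat_lit 16482) (nat_lit 27) (.e (nat_lit 335996) (nat_lit 1) (.e (nat_lit 57852) (nat_lit 252) (.e (nat_lit 57366) (nat_lit 1) .nil)))) .nil))) (.nd (nat_lit 6) 
(.lf (nat_lit 136501) (.g (nat_lit 1599) (.e (nat_lit 24320) (nat_lit 18) (.e (nat_lit 98370) (nat_lit 28) (.e (nat_lit 442436) (nat_lit 26) (.e (nat_lit 253999) (nat_lit 12) (.e (nat_lit 57509) (nat_lit 39) .nil))))) .nil)) 
(.lf (nat_lit 136565) (.g (nat_lit 2431) (.e (nat_lit 16483) (nat_lit 27) (.e (nat_lit 335995) (nat_lit 1) (.e (nat_lit 57849) (nat_lit 252) (.e (nat_lit 57365) (nat_lit 1) (.e (nat_lit 57854) (nat_lit 252) (.e (nat_lit 57389) (nat_lit 5) (.e (nat_lit 114723) (nat_lit 24) (.e (nat_lit 106535) (nat_lit 11) .nil)))))))) (.g (nat_lit 5) .nil .nil)))))) 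
(.nd (nat_lit 4) (.nd (nat_lit 5) (.nd (nat_lit 6) 
(.lf (nat_lit 136461) (.g (nat_lit 1323) (.e (nat_lit 24320) (nat_lit 18) (.e (nat_lit 98366) (nat_lit 27) (.e (nat_lit 434248) (nat_lit 28) (.e (nat_lit 573482) (nat_lit 13) .nil)))) .nil)) 
(.lf (nat_lit 136525) (.g (nat_lit 4492) (.e (nat_lit 16482) (nat_lit 27) (.e (nat_lit 335995) (nat_lit 1) (.e (nat_lit 57847) (nat_lit 252) (.e (nat_lit 57368) (nat_lit 1) (.e (nat_lit 57854) (nat_lit 252) (.e (nat_lit 57389) (nat_lit 5) (.e (nat_lit 114723) (nat_lit 24) (.e (nat_lit 106536) (nat_lit 11) .nil)))))))) (.g (nat_lit 0) .nil .nil)))) (.nd (nat_lit 6) 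
(.lf (nat_lit 136493) (.g (nat_lit 704) (.e (nat_lit 24320) (nat_lit 18) (.e (nat_lit 98370) (nat_lit 28) (.e (nat_lit 442383) (nat_lit 9) (.e (nat_lit 319520) (nat_lit 13) .nil)))) .nil)) 
(.lf (nat_lit 136557) (.g (nat_lit 4237) (.e (nat_lit 16483) (nat_lit 27) (.e (nat_lit 335995) (nat_lit 1) (.e (nat_lit 57847) (nat_lit 252) (.e (nat_lit 57368) (nat_lit 1) (.e (nat_lit 57854) (nat_lit 252) (.e (nat_lit 57389) (nat_lit 5) (.e (nat_lit 114723) (nat_lit 24) (.e (nat_lit 106534) (nat_lit 11) .nil)))))))) (.g (nat_lit 0) .nil .nil))))) (.nd (nat_lit 5) (.nd (nat_lit 6) 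
(.lf (nat_lit 136477) (.g (nat_lit 3090) (.e (nat_lit 24320) (nat_lit 18) (.e (nat_lit 98367) (nat_lit 27) (.e (nat_lit 434247) (nat_lit 28) (.e (nat_lit 573484) (nat_lit 13) (.e (nat_lit 65575) (nat_lit 5) .nil))))) .nil)) 
(.lf (nat_lit 136541) (.g (nat_lit 3500) (.e (nat_lit 16483) (nat_lit 27) (.e (nat_lit 335986) (nat_lit 1) (.e (nat_lit 57847) (nat_lit 252) (.e (nat_lit 57368) (nat_lit 1) (.e (nat_lit 57854) (nat_lit 252) (.e (nat_lit 57389) (nat_lit 5) (.e (nat_lit 114722) (nat_lit 24) (.e (nat_lit 106536) (nat_lit 11) .nil)))))))) (.g (nat_lit 6) .nil .nil)))) (.nd (nat_lit 6) 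
(.lf (nat_lit 136509) (.g (nat_lit 988) (.e (nat_lit 24320) (nat_lit 18) (.e (nat_lit 98381) (nat_lit 31) (.e (nat_lit 466972) (nat_lit 21) (.e (nat_lit 164183) (nat_lit 154) .nil)))) .nil)) 
(.lf (nat_lit 136573) (.g (nat_lit 3228) (.e (nat_lit 16483) (nat_lit 27) (.e (nat_lit 335995) (nat_lit 1) (.e (nat_lit 57849) (nat_lit 252) (.e (nat_lit 57372) (nat_lit 2) (.e (nat_lit 90160) (nat_lit 11) (.e (nat_lit 24584) (nat_lit 0) (.e (nat_lit 7936) (nat_lit 345) .nil))))))) (.g (nat_lit 4) .nil .nil)))))))) 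
(.nd (nat_lit 2) (.nd (nat_lit 3) (.nd (nat_lit 4) (.nd (nat_lit 5) (.nd (nat_lit 6) 
(.lf (nat_lit 136451) (.g (nat_lit 1383) (.e (nat_lit 24320) (nat_lit 18) (.e (nat_lit 98365) (nat_lit 26) (.e (nat_lit 426306) (nat_lit 12) (.e (nat_lit 475152) (nat_lit 17) .nil)))) .nil)) 
(.lf (nat_lit 136515) (.g (nat_lit 1720) (.e (nat_lit 24320) (nat_lit 20) (.e (nat_lit 114712) (nat_lit 21) (.e (nat_lit 57852) (nat_lit 252) (.e (nat_lit 57426) (nat_lit 15) (.e (nat_lit 368384) (nat_lit 22) .nil))))) .nil))) (.nd (nat_lit 6) 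
(.lf (nat_lit 136483) (.g (nat_lit 2518) (.e (nat_lit 24320) (nat_lit 18) (.e (nat_lit 98367) (nat_lit 27) (.e (nat_lit 434248) (nat_lit 28) (.e (nat_lit 573482) (nat_lit 13) (.e (nat_lit 65577) (nat_lit 5) .nil))))) .nil)) 
(.lf (nat_lit 136547) (.g (nat_lit 1668) (.e (nat_lit 16483) (nat_lit 27) (.e (nat_lit 335988) (nat_lit 1) (.e (nat_lit 57854) (nat_lit 252) (.e (nat_lit 57364) (nat_lit 1) (.e (nat_lit 57854) (nat_lit 252) .nil))))) .nil)))) (.nd (nat_lit 5) (.nd (nat_lit 6) 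
(.lf (nat_lit 136467) (.g (nat_lit 762) (.e (nat_lit 24320) (nat_lit 18) (.e (nat_lit 98367) (nat_lit 27) (.e (nat_lit 434243) (nat_lit 28) .nil))) .nil)) 
(.lf (nat_lit 136531) (.g (nat_lit 1864) (.e (nat_lit 16482) (nat_lit 27) (.e (nat_lit 335995) (nat_lit 1) (.e (nat_lit 57849) (nat_lit 252) (.e (nat_lit 57368) (nat_lit 1) .nil)))) .nil))) (.nd (nat_lit 6) 
(.lf (nat_lit 136499) (.g (nat_lit 2243) (.e (nat_lit 24320) (nat_lit 18) (.e (nat_lit 98370) (nat_lit 28) (.e (nat_lit 442436) (nat_lit 26) (.e (nat_lit 253995) (nat_lit 12) (.e (nat_lit 57507) (nat_lit 39) .nil))))) .nil)) 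
(.lf (nat_lit 136563) (.g (nat_lit 2807) (.e (nat_lit 16483) (nat_lit 27) (.e (nat_lit 335995) (nat_lit 1) (.e (nat_lit 57848) (nat_lit 252) (.e (nat_lit 57375) (nat_lit 2) (.e (nat_lit 90159) (nat_lit 11) (.e (nat_lit 24580) (nat_lit 0) (.e (nat_lit 6508) (nat_lit 345) .nil))))))) (.g (nat_lit 7) .nil .nil)))))) (.nd (nat_lit 4) (.nd (nat_lit 5) (.nd (nat_lit 6) 
(.lf (nat_lit 136459) (.g (nat_lit 1680) (.e (nat_lit 24320) (nat_lit 18) (.e (nat_lit 98366) (nat_lit 27) (.e (nat_lit 434245) (nat_lit 28) (.e (nat_lit 573488) (nat_lit 14) (.e (nat_lit 81664) (nat_lit 1) .nil))))) .nil)) 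
(.lf (nat_lit 136523) (.g (nat_lit 1700) (.e (nat_lit 16482) (nat_lit 27) (.e (nat_lit 335995) (nat_lit 1) (.e (nat_lit 57847) (nat_lit 252) (.e (nat_lit 57367) (nat_lit 1) .nil)))) .nil))) (.nd (nat_lit 6) 
(.lf (nat_lit 136491) (.g (nat_lit 811) (.e (nat_lit 24320) (nat_lit 18) (.e (nat_lit 98370) (nat_lit 28) (.e (nat_lit 442375) (nat_lit 0) (.e (nat_lit 6217) (nat_lit 333) .nil)))) .nil)) 
(.lf (nat_lit 136555) (.g (nat_lit 1513) (.e (nat_lit 16483) (nat_lit 27) (.e (nat_lit 335995) (nat_lit 1) (.e (nat_lit 57847) (nat_lit 252) (.e (nat_lit 57367) (nat_lit 1) .nil)))) .nil)))) (.nd (nat_lit 5) (.nd (nat_lit 6) 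
(.lf (nat_lit 136475) (.g (nat_lit 2031) (.e (nat_lit 24320) (nat_lit 18) (.e (nat_lit 98367) (nat_lit 27) (.e (nat_lit 434245) (nat_lit 28) (.e (nat_lit 573487) (nat_lit 14) (.e (nat_lit 81664) (nat_lit 1) .nil))))) .nil)) 
(.lf (nat_lit 136539) (.g (nat_lit 1908) (.e (nat_lit 16483) (nat_lit 27) (.e (nat_lit 335986) (nat_lit 1) (.e (nat_lit 57847) (nat_lit 252) (.e (nat_lit 57365) (nat_lit 1) (.e (nat_lit 57854) (nat_lit 252) .nil))))) .nil))) (.nd (nat_lit 6) 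
(.lf (nat_lit 136507) (.g (nat_lit 1222) (.e (nat_lit 24320) (nat_lit 18) (.e (nat_lit 98373) (nat_lit 29) (.e (nat_lit 450600) (nat_lit 20) .nil))) .nil)) 
(.lf (nat_lit 136571) (.g (nat_lit 1833) (.e (nat_lit 16483) (nat_lit 27) (.e (nat_lit 335995) (nat_lit 1) (.e (nat_lit 57849) (nat_lit 252) (.e (nat_lit 57372) (nat_lit 2) .nil)))) .nil)))))) (.nd (nat_lit 3) (.nd (nat_lit 4) (.nd (nat_lit 5) (.nd (nat_lit 6) 
(.lf (nat_lit 136455) (.g (nat_lit 2533) (.e (nat_lit 24320) (nat_lit 18) (.e (nat_lit 98366) (nat_lit 27) (.e (nat_lit 434244) (nat_lit 28) (.e (nat_lit 573481) (nat_lit 13) (.e (nat_lit 65577) (nat_lit 5) .nil))))) .nil)) 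
(.lf (nat_lit 136519) (.g (nat_lit 2034) (.e (nat_lit 16482) (nat_lit 27) (.e (nat_lit 335986) (nat_lit 1) (.e (nat_lit 57847) (nat_lit 252) (.e (nat_lit 57367) (nat_lit 1) .nil)))) .nil))) (.nd (nat_lit 6) 
(.lf (nat_lit 136487) (.g (nat_lit 859) (.e (nat_lit 24320) (nat_lit 18) (.e (nat_lit 98369) (nat_lit 28) (.e (nat_lit 442384) (nat_lit 10) (.e (nat_lit 327712) (nat_lit 13) .nil)))) .nil)) 
(.lf (nat_lit 136551) (.g (nat_lit 3419) (.e (nat_lit 16483) (nat_lit 27) (.e (nat_lit 335988) (nat_lit 1) (.e (nat_lit 57854) (nat_lit 252) (.e (nat_lit 57373) (nat_lit 2) (.e (nat_lit 90160) (nat_lit 11) (.e (nat_lit 24580) (nat_lit 0) (.e (nat_lit 6508) (nat_lit 345) .nil))))))) (.g (nat_lit 5) .nil .nil))))) (.nd (nat_lit 5) (.nd (nat_lit 6) 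
(.lf (nat_lit 136471) (.g (nat_lit 2460) (.e (nat_lit 24320) (nat_lit 18) (.e (nat_lit 98367) (nat_lit 27) (.e (nat_lit 434244) (nat_lit 28) (.e (nat_lit 573481) (nat_lit 13) (.e (nat_lit 65577) (nat_lit 5) .nil))))) .nil)) 
(.lf (nat_lit 136535) (.g (nat_lit 2339) (.e (nat_lit 16482) (nat_lit 27) (.e (nat_lit 335996) (nat_lit 1) (.e (nat_lit 57854) (nat_lit 252) (.e (nat_lit 57366) (nat_lit 1) .nil)))) .nil))) (.nd (nat_lit 6) 
(.lf (nat_lit 136503) (.g (nat_lit 1002) (.e (nat_lit 24320) (nat_lit 18) (.e (nat_lit 98373) (nat_lit 29) (.e (nat_lit 450560) (nat_lit 0) .nil))) .nil)) 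
(.lf (nat_lit 136567) (.g (nat_lit 2251) (.e (nat_lit 16483) (nat_lit 27) (.e (nat_lit 335995) (nat_lit 1) (.e (nat_lit 57849) (nat_lit 252) (.e (nat_lit 57367) (nat_lit 1) (.e (nat_lit 57848) (nat_lit 252) (.e (nat_lit 57390) (nat_lit 5) (.e (nat_lit 114723) (nat_lit 24) (.e (nat_lit 106534) (nat_lit 11) .nil)))))))) (.g (nat_lit 4) .nil .nil)))))) 
(.nd (nat_lit 4) (.nd (nat_lit 5) (.nd (nat_lit 6) 
(.lf (nat_lit 136463) (.g (nat_lit 2330) (.e (nat_lit 24320) (nat_lit 18) (.e (nat_lit 98367) (nat_lit 27) (.e (nat_lit 434231) (nat_lit 23) (.e (nat_lit 532514) (nat_lit 3) (.e (nat_lit 122624) (nat_lit 2) .nil))))) .nil)) 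
(.lf (nat_lit 136527) (.g (nat_lit 1593) (.e (nat_lit 16482) (nat_lit 27) (.e (nat_lit 335995) (nat_lit 1) (.e (nat_lit 57848) (nat_lit 252) (.e (nat_lit 57368) (nat_lit 1) .nil)))) .nil))) (.nd (nat_lit 6) 
(.lf (nat_lit 136495) (.g (nat_lit 810) (.e (nat_lit 24320) (nat_lit 18) (.e (nat_lit 98370) (nat_lit 28) (.e (nat_lit 442391) (nat_lit 19) (.e (nat_lit 401431) (nat_lit 6) .nil)))) .nil)) 
(.lf (nat_lit 136559) (.g (nat_lit 4436) (.e (nat_lit 16483) (nat_lit 27) (.e (nat_lit 335995) (nat_lit 1) (.e (nat_lit 57847) (nat_lit 252) (.e (nat_lit 57368) (nat_lit 1) (.e (nat_lit 57854) (nat_lit 252) (.e (nat_lit 57389) (nat_lit 5) (.e (nat_lit 114723) (nat_lit 24) (.e (nat_lit 106536) (nat_lit 11) .nil)))))))) (.g (nat_lit 0) .nil .nil))))) (.nd (nat_lit 5) (.nd (nat_lit 6) 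
(.lf (nat_lit 136479) (.g (nat_lit 1490) (.e (nat_lit 24320) (nat_lit 18) (.e (nat_lit 98367) (nat_lit 27) (.e (nat_lit 434247) (nat_lit 28) (.e (nat_lit 573485) (nat_lit 13) .nil)))) .nil)) 
(.lf (nat_lit 136543) (.g (nat_lit 3314) (.e (nat_lit 16483) (nat_lit 27) (.e (nat_lit 335986) (nat_lit 1) (.e (nat_lit 57847) (nat_lit 252) (.e (nat_lit 57368) (nat_lit 1) (.e (nat_lit 57854) (nat_lit 252) (.e (nat_lit 57389) (nat_lit 5) (.e (nat_lit 114723) (nat_lit 24) (.e (nat_lit 106535) (nat_lit 11) .nil)))))))) (.g (nat_lit 7) .nil .nil)))) (.nd (nat_lit 6) 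
(.lf (nat_lit 136511) (.g (nat_lit 1666) (.e (nat_lit 24320) (nat_lit 20) (.e (nat_lit 114710) (nat_lit 21) (.e (nat_lit 57847) (nat_lit 252) (.e (nat_lit 57426) (nat_lit 15) (.e (nat_lit 368384) (nat_lit 22) .nil))))) .nil)) 
(.lf (nat_lit 136575) (.g (nat_lit 2309) (.e (nat_lit 16483) (nat_lit 27) (.e (nat_lit 335996) (nat_lit 1) (.e (nat_lit 57852) (nat_lit 252) (.e (nat_lit 57364) (nat_lit 1) .nil)))) .nil)))))))))

noncomputable def tv1815 : DT := (.nd (nat_lit 0) (.nd (nat_lit 1) (.nd (nat_lit 2) (.nd (nat_lit 3) (.nd (nat_lit 4) (.nd (nat_lit 5) 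
(.lf (nat_lit 136576) (.g (nat_lit 2309) (.e (nat_lit 16483) (nat_lit 27) (.e (nat_lit 335996) (nat_lit 1) (.e (nat_lit 57852) (nat_lit 252) (.e (nat_lit 57366) (nat_lit 1) .nil)))) .nil)) 
(.lf (nat_lit 136608) (.g (nat_lit 951) (.e (nat_lit 16485) (nat_lit 27) (.e (nat_lit 336119) (nat_lit 9) (.e (nat_lit 336319) (nat_lit 17) (.e (nat_lit 196698) (nat_lit 19) (.e (nat_lit 57810) (nat_lit 246) (.e (nat_lit 57895) (nat_lit 272) .nil)))))) (.g (nat_lit 6) .nil .nil)))) (.nd (nat_lit 5) 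
(.lf (nat_lit 136592) (.g (nat_lit 2704) (.e (nat_lit 16483) (nat_lit 27) (.e (nat_lit 336059) (nat_lit 7) (.e (nat_lit 319504) (nat_lit 10) (.e (nat_lit 616) (nat_lit 48) (.e (nat_lit 557104) (nat_lit 14) (.e (nat_lit 188160) (nat_lit 34) .nil)))))) (.g (nat_lit 5) .nil .nil))) 
(.lf (nat_lit 136624) (.g (nat_lit 1681) (.e (nat_lit 16486) (nat_lit 27) (.e (nat_lit 335995) (nat_lit 1) (.e (nat_lit 57849) (nat_lit 252) (.e (nat_lit 57367) (nat_lit 1) .nil)))) .nil)))) (.nd (nat_lit 4) (.nd (nat_lit 5) 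
(.lf (nat_lit 136584) (.g (nat_lit 1882) (.e (nat_lit 16483) (nat_lit 27) (.e (nat_lit 335996) (nat_lit 1) (.e (nat_lit 57854) (nat_lit 252) (.e (nat_lit 57366) (nat_lit 1) (.e (nat_lit 57846) (nat_lit 252) (.e (nat_lit 57390) (nat_lit 5) (.e (nat_lit 114723) (nat_lit 24) (.e (nat_lit 106536) (nat_lit 11) .nil)))))))) (.g (nat_lit 4) .nil .nil))) 
(.lf (nat_lit 136616) (.g (nat_lit 1245) (.e (nat_lit 16485) (nat_lit 27) (.e (nat_lit 336390) (nat_lit 27) (.e (nat_lit 426181) (nat_lit 8) (.e (nat_lit 417795) (nat_lit 0) (.e (nat_lit 558) (nat_lit 41) .nil))))) .nil))) (.nd (nat_lit 5) 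
(.lf (nat_lit 136600) (.g (nat_lit 1751) (.e (nat_lit 16483) (nat_lit 27) (.e (nat_lit 336204) (nat_lit 12) (.e (nat_lit 392960) (nat_lit 24) (.e (nat_lit 516160) (nat_lit 10) (.e (nat_lit 442112) (nat_lit 2) .nil))))) (.g (nat_lit 4) .nil .nil))) 
(.lf (nat_lit 136632) (.g (nat_lit 5038) (.e (nat_lit 16487) (nat_lit 27) (.e (nat_lit 335986) (nat_lit 1) (.e (nat_lit 57847) (nat_lit 252) (.e (nat_lit 57368) (nat_lit 1) (.e (nat_lit 57854) (nat_lit 252) (.e (nat_lit 57389) (nat_lit 5) (.e (nat_lit 114723) (nat_lit 24) (.e (nat_lit 106534) (nat_lit 11) .nil)))))))) (.g (nat_lit 0) .nil .nil)))))) 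
(.nd (nat_lit 3) (.nd (nat_lit 4) (.nd (nat_lit 5) 
(.lf (nat_lit 136580) (.g (nat_lit 1237) (.e (nat_lit 16483) (nat_lit 27) (.e (nat_lit 335996) (nat_lit 1) (.e (nat_lit 57853) (nat_lit 252) (.e (nat_lit 57377) (nat_lit 3) .nil)))) .nil)) 
(.lf (nat_lit 136612) (.g (nat_lit 941) (.e (nat_lit 16485) (nat_lit 27) (.e (nat_lit 336119) (nat_lit 9) (.e (nat_lit 336319) (nat_lit 17) (.e (nat_lit 196698) (nat_lit 19) (.e (nat_lit 57815) (nat_lit 246) (.e (nat_lit 57895) (nat_lit 272) .nil)))))) (.g (nat_lit 6) .nil .nil)))) (.nd (nat_lit 5) 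
(.lf (nat_lit 136596) (.g (nat_lit 3091) (.e (nat_lit 16483) (nat_lit 27) (.e (nat_lit 336059) (nat_lit 7) (.e (nat_lit 319505) (nat_lit 10) (.e (nat_lit 618) (nat_lit 48) (.e (nat_lit 557103) (nat_lit 14) (.e (nat_lit 188160) (nat_lit 34) .nil)))))) (.g (nat_lit 5) .nil .nil))) 
(.lf (nat_lit 136628) (.g (nat_lit 1095) (.e (nat_lit 16486) (nat_lit 27) (.e (nat_lit 336203) (nat_lit 12) (.e (nat_lit 392960) (nat_lit 24) (.e (nat_lit 516160) (nat_lit 10) (.e (nat_lit 442112) (nat_lit 2) .nil))))) .nil)))) (.nd (nat_lit 4) (.nd (nat_lit 5) 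
(.lf (nat_lit 136588) (.g (nat_lit 2328) (.e (nat_lit 16483) (nat_lit 27) (.e (nat_lit 335996) (nat_lit 1) (.e (nat_lit 57854) (nat_lit 252) (.e (nat_lit 57373) (nat_lit 2) (.e (nat_lit 90160) (nat_lit 11) (.e (nat_lit 24584) (nat_lit 0) (.e (nat_lit 7936) (nat_lit 345) .nil))))))) (.g (nat_lit 4) .nil .nil))) 
(.lf (nat_lit 136620) (.g (nat_lit 4768) (.e (nat_lit 16486) (nat_lit 27) (.e (nat_lit 335986) (nat_lit 1) (.e (nat_lit 57847) (nat_lit 252) (.e (nat_lit 57368) (nat_lit 1) (.e (nat_lit 57854) (nat_lit 252) (.e (nat_lit 57389) (nat_lit 5) (.e (nat_lit 114723) (nat_lit 24) (.e (nat_lit 106536) (nat_lit 11) .nil)))))))) (.g (nat_lit 0) .nil .nil)))) (.nd (nat_lit 5) 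
(.lf (nat_lit 136604) (.g (nat_lit 3635) (.e (nat_lit 16483) (nat_lit 27) (.e (nat_lit 343808) (nat_lit 35) (.e (nat_lit 491566) (nat_lit 12) (.e (nat_lit 385068) (nat_lit 26) (.e (nat_lit 532503) (nat_lit 1) (.e (nat_lit 57870) (nat_lit 264) (.e (nat_lit 1126) (nat_lit 83) .nil))))))) (.g (nat_lit 6) .nil .nil))) 
(.lf (nat_lit 136636) (.g (nat_lit 1553) (.e (nat_lit 16487) (nat_lit 27) (.e (nat_lit 335988) (nat_lit 1) (.e (nat_lit 57854) (nat_lit 252) (.e (nat_lit 57378) (nat_lit 3) .nil)))) .nil)))))) (.nd (nat_lit 2) (.nd (nat_lit 3) (.nd (nat_lit 4) (.nd (nat_lit 5) 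
(.lf (nat_lit 136578) (.g (nat_lit 2705) (.e (nat_lit 16483) (nat_lit 27) (.e (nat_lit 335996) (nat_lit 1) (.e (nat_lit 57852) (nat_lit 252) (.e (nat_lit 57366) (nat_lit 1) (.e (nat_lit 57854) (nat_lit 252) (.e (nat_lit 57389) (nat_lit 5) (.e (nat_lit 114723) (nat_lit 24) (.e (nat_lit 106536) (nat_lit 11) .nil)))))))) (.g (nat_lit 4) .nil .nil))) 
(.lf (nat_lit 136610) (.g (nat_lit 909) (.e (nat_lit 16485) (nat_lit 27) (.e (nat_lit 336119) (nat_lit 9) (.e (nat_lit 336319) (nat_lit 17) (.e (nat_lit 196698) (nat_lit 19) (.e (nat_lit 57813) (nat_lit 246) (.e (nat_lit 57895) (nat_lit 272) .nil)))))) (.g (nat_lit 6) .nil .nil)))) (.nd (nat_lit 5) 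
(.lf (nat_lit 136594) (.g (nat_lit 2320) (.e (nat_lit 16483) (nat_lit 27) (.e (nat_lit 336059) (nat_lit 7) (.e (nat_lit 319504) (nat_lit 10) (.e (nat_lit 618) (nat_lit 48) (.e (nat_lit 557104) (nat_lit 14) (.e (nat_lit 188160) (nat_lit 34) .nil)))))) (.g (nat_lit 4) .nil .nil))) 
(.lf (nat_lit 136626) (.g (nat_lit 2489) (.e (nat_lit 16486) (nat_lit 27) (.e (nat_lit 335996) (nat_lit 1) (.e (nat_lit 57854) (nat_lit 252) (.e (nat_lit 57366) (nat_lit 1) .nil)))) .nil)))) (.nd (nat_lit 4) (.nd (nat_lit 5) 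
(.lf (nat_lit 136586) (.g (nat_lit 2290) (.e (nat_lit 16483) (nat_lit 27) (.e (nat_lit 335996) (nat_lit 1) (.e (nat_lit 57854) (nat_lit 252) (.e (nat_lit 57366) (nat_lit 1) (.e (nat_lit 57854) (nat_lit 252) (.e (nat_lit 57389) (nat_lit 5) (.e (nat_lit 114723) (nat_lit 24) (.e (nat_lit 106535) (nat_lit 11) .nil)))))))) (.g (nat_lit 5) .nil .nil))) 
(.lf (nat_lit 136618) (.g (nat_lit 2042) (.e (nat_lit 16486) (nat_lit 27) (.e (nat_lit 335986) (nat_lit 1) (.e (nat_lit 57847) (nat_lit 252) (.e (nat_lit 57367) (nat_lit 1) .nil)))) .nil))) (.nd (nat_lit 5) 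
(.lf (nat_lit 136602) (.g (nat_lit 1190) (.e (nat_lit 16483) (nat_lit 27) (.e (nat_lit 336231) (nat_lit 14) (.e (nat_lit 409344) (nat_lit 17) (.e (nat_lit 90172) (nat_lit 14) (.e (nat_lit 188160) (nat_lit 34) .nil))))) (.g (nat_lit 4) .nil .nil))) 
(.lf (nat_lit 136634) (.g (nat_lit 2983) (.e (nat_lit 16487) (nat_lit 27) (.e (nat_lit 335986) (nat_lit 1) (.e (nat_lit 57849) (nat_lit 252) (.e (nat_lit 57372) (nat_lit 2) (.e (nat_lit 90160) (nat_lit 11) (.e (nat_lit 24584) (nat_lit 0) (.e (nat_lit 7936) (nat_lit 345) .nil))))))) (.g (nat_lit 4) .nil .nil)))))) (.nd (nat_lit 3) (.nd (nat_lit 4) (.nd (nat_lit 5) 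
(.lf (nat_lit 136582) (.g (nat_lit 1358) (.e (nat_lit 16483) (nat_lit 27) (.e (nat_lit 335996) (nat_lit 1) (.e (nat_lit 57854) (nat_lit 252) (.e (nat_lit 57364) (nat_lit 1) .nil)))) .nil)) 
(.lf (nat_lit 136614) (.g (nat_lit 993) (.e (nat_lit 16485) (nat_lit 27) (.e (nat_lit 336152) (nat_lit 9) (.e (nat_lit 336319) (nat_lit 17) (.e (nat_lit 196698) (nat_lit 19) (.e (nat_lit 57814) (nat_lit 246) (.e (nat_lit 57895) (nat_lit 272) .nil)))))) (.g (nat_lit 0) .nil .nil)))) (.nd (nat_lit 5) 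
(.lf (nat_lit 136598) (.g (nat_lit 1292) (.e (nat_lit 16483) (nat_lit 27) (.e (nat_lit 336088) (nat_lit 9) (.e (nat_lit 336019) (nat_lit 3) (.e (nat_lit 98309) (nat_lit 0) .nil)))) .nil)) 
(.lf (nat_lit 136630) (.g (nat_lit 1906) (.e (nat_lit 16487) (nat_lit 27) (.e (nat_lit 335986) (nat_lit 1) (.e (nat_lit 57847) (nat_lit 252) (.e (nat_lit 57363) (nat_lit 1) .nil)))) .nil)))) (.nd (nat_lit 4) (.nd (nat_lit 5) 
(.lf (nat_lit 136590) (.g (nat_lit 1976) (.e (nat_lit 16483) (nat_lit 27) (.e (nat_lit 336059) (nat_lit 7) (.e (nat_lit 319500) (nat_lit 10) (.e (nat_lit 616) (nat_lit 48) (.e (nat_lit 557104) (nat_lit 14) (.e (nat_lit 188160) (nat_lit 34) .nil)))))) (.g (nat_lit 5) .nil .nil))) 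
(.lf (nat_lit 136622) (.g (nat_lit 1532) (.e (nat_lit 16486) (nat_lit 27) (.e (nat_lit 335995) (nat_lit 1) (.e (nat_lit 57848) (nat_lit 252) (.e (nat_lit 57372) (nat_lit 2) .nil)))) .nil))) (.nd (nat_lit 5) 
(.lf (nat_lit 136606) (.g (nat_lit 907) (.e (nat_lit 16485) (nat_lit 27) (.e (nat_lit 336119) (nat_lit 9) (.e (nat_lit 336319) (nat_lit 17) (.e (nat_lit 196698) (nat_lit 19) (.e (nat_lit 57808) (nat_lit 246) (.e (nat_lit 57895) (nat_lit 272) .nil)))))) (.g (nat_lit 6) .nil .nil))) 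
(.lf (nat_lit 136638) (.g (nat_lit 4802) (.e (nat_lit 16487) (nat_lit 27) (.e (nat_lit 335995) (nat_lit 1) (.e (nat_lit 57847) (nat_lit 252) (.e (nat_lit 57368) (nat_lit 1) (.e (nat_lit 57854) (nat_lit 252) (.e (nat_lit 57389) (nat_lit 5) (.e (nat_lit 114723) (nat_lit 24) (.e (nat_lit 106534) (nat_lit 11) .nil)))))))) (.g (nat_lit 0) .nil .nil)))))))) 
(.nd (nat_lit 1) (.nd (nat_lit 2) (.nd (nat_lit 3) (.nd (nat_lit 4) (.nd (nat_lit 5) 
(.lf (nat_lit 136577) (.g (nat_lit 2420) (.e (nat_lit 16483) (nat_lit 27) (.e (nat_lit 335996) (nat_lit 1) (.e (nat_lit 57852) (nat_lit 252) (.e (nat_lit 57366) (nat_lit 1) (.e (nat_lit 57854) (nat_lit 252) .nil))))) .nil)) 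
(.lf (nat_lit 136609) (.g (nat_lit 989) (.e (nat_lit 16485) (nat_lit 27) (.e (nat_lit 336119) (nat_lit 9) (.e (nat_lit 336319) (nat_lit 17) (.e (nat_lit 196698) (nat_lit 19) (.e (nat_lit 57811) (nat_lit 246) (.e (nat_lit 57895) (nat_lit 272) .nil)))))) (.g (nat_lit 6) .nil .nil)))) (.nd (nat_lit 5) 
(.lf (nat_lit 136593) (.g (nat_lit 3350) (.e (nat_lit 16483) (nat_lit 27) (.e (nat_lit 336059) (nat_lit 7) (.e (nat_lit 319504) (nat_lit 10) (.e (nat_lit 618) (nat_lit 48) (.e (nat_lit 557103) (nat_lit 14) (.e (nat_lit 188160) (nat_lit 34) .nil)))))) (.g (nat_lit 5) .nil .nil))) 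
(.lf (nat_lit 136625) (.g (nat_lit 2040) (.e (nat_lit 16486) (nat_lit 27) (.e (nat_lit 335995) (nat_lit 1) (.e (nat_lit 57849) (nat_lit 252) (.e (nat_lit 57368) (nat_lit 1) (.e (nat_lit 57854) (nat_lit 252) .nil))))) .nil)))) (.nd (nat_lit 4) (.nd (nat_lit 5) 
(.lf (nat_lit 136585) (.g (nat_lit 1879) (.e (nat_lit 16483) (nat_lit 27) (.e (nat_lit 335996) (nat_lit 1) (.e (nat_lit 57854) (nat_lit 252) (.e (nat_lit 57366) (nat_lit 1) (.e (nat_lit 57849) (nat_lit 252) (.e (nat_lit 57390) (nat_lit 5) (.e (nat_lit 114723) (nat_lit 24) (.e (nat_lit 106536) (nat_lit 11) .nil)))))))) (.g (nat_lit 4) .nil .nil))) 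
(.lf (nat_lit 136617) (.g (nat_lit 870) (.e (nat_lit 16486) (nat_lit 27) (.e (nat_lit 335986) (nat_lit 1) (.e (nat_lit 57847) (nat_lit 252) .nil))) .nil))) (.nd (nat_lit 5) 
(.lf (nat_lit 136601) (.g (nat_lit 1351) (.e (nat_lit 16483) (nat_lit 27) (.e (nat_lit 336229) (nat_lit 14) (.e (nat_lit 409344) (nat_lit 17) (.e (nat_lit 90172) (nat_lit 14) (.e (nat_lit 188160) (nat_lit 34) .nil))))) (.g (nat_lit 4) .nil .nil))) 
(.lf (nat_lit 136633) (.g (nat_lit 4151) (.e (nat_lit 16487) (nat_lit 27) (.e (nat_lit 335986) (nat_lit 1) (.e (nat_lit 57847) (nat_lit 252) (.e (nat_lit 57368) (nat_lit 1) (.e (nat_lit 57854) (nat_lit 252) (.e (nat_lit 57389) (nat_lit 5) (.e (nat_lit 114723) (nat_lit 24) (.e (nat_lit 106535) (nat_lit 11) .nil)))))))) (.g (nat_lit 8) .nil .nil)))))) 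
(.nd (nat_lit 3) (.nd (nat_lit 4) (.nd (nat_lit 5) 
(.lf (nat_lit 136581) (.g (nat_lit 1330) (.e (nat_lit 16483) (nat_lit 27) (.e (nat_lit 335996) (nat_lit 1) (.e (nat_lit 57854) (nat_lit 252) (.e (nat_lit 57363) (nat_lit 1) .nil)))) .nil)) 
(.lf (nat_lit 136613) (.g (nat_lit 946) (.e (nat_lit 16485) (nat_lit 27) (.e (nat_lit 336119) (nat_lit 9) (.e (nat_lit 336319) (nat_lit 17) (.e (nat_lit 196698) (nat_lit 19) (.e (nat_lit 57816) (nat_lit 246) (.e (nat_lit 57895) (nat_lit 272) .nil)))))) (.g (nat_lit 6) .nil .nil)))) (.nd (nat_lit 5) 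
(.lf (nat_lit 136597) (.g (nat_lit 445) (.e (nat_lit 16483) (nat_lit 27) (.e (nat_lit 336076) (nat_lit 9) (.e (nat_lit 336320) (nat_lit 17) .nil))) .nil)) 
(.lf (nat_lit 136629) (.g (nat_lit 755) (.e (nat_lit 16487) (nat_lit 27) (.e (nat_lit 335986) (nat_lit 1) (.e (nat_lit 57847) (nat_lit 252) .nil))) .nil)))) (.nd (nat_lit 4) (.nd (nat_lit 5) 
(.lf (nat_lit 136589) (.g (nat_lit 2094) (.e (nat_lit 16483) (nat_lit 27) (.e (nat_lit 336059) (nat_lit 7) (.e (nat_lit 319500) (nat_lit 10) (.e (nat_lit 616) (nat_lit 48) (.e (nat_lit 557103) (nat_lit 14) (.e (nat_lit 188160) (nat_lit 34) .nil)))))) (.g (nat_lit 5) .nil .nil))) 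
(.lf (nat_lit 136621) (.g (nat_lit 1609) (.e (nat_lit 16486) (nat_lit 27) (.e (nat_lit 335988) (nat_lit 1) (.e (nat_lit 57854) (nat_lit 252) (.e (nat_lit 57366) (nat_lit 1) .nil)))) .nil))) (.nd (nat_lit 5) 
(.lf (nat_lit 136605) (.g (nat_lit 2649) (.e (nat_lit 16485) (nat_lit 27) (.e (nat_lit 336051) (nat_lit 6) (.e (nat_lit 147495) (nat_lit 11) (.e (nat_lit 24580) (nat_lit 0) (.e (nat_lit 1821) (nat_lit 121) .nil))))) .nil)) 
(.lf (nat_lit 136637) (.g (nat_lit 3369) (.e (nat_lit 16487) (nat_lit 27) (.e (nat_lit 335995) (nat_lit 1) (.e (nat_lit 57847) (nat_lit 252) (.e (nat_lit 57365) (nat_lit 1) (.e (nat_lit 57854) (nat_lit 252) (.e (nat_lit 57389) (nat_lit 5) (.e (nat_lit 114723) (nat_lit 24) (.e (nat_lit 106535) (nat_lit 11) .nil)))))))) (.g (nat_lit 5) .nil .nil))))))) 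
(.nd (nat_lit 2) (.nd (nat_lit 3) (.nd (nat_lit 4) (.nd (nat_lit 5) 
(.lf (nat_lit 136579) (.g (nat_lit 2249) (.e (nat_lit 16483) (nat_lit 27) (.e (nat_lit 335996) (nat_lit 1) (.e (nat_lit 57852) (nat_lit 252) (.e (nat_lit 57371) (nat_lit 2) (.e (nat_lit 90160) (nat_lit 11) .nil))))) .nil)) 
(.lf (nat_lit 136611) (.g (nat_lit 947) (.e (nat_lit 16485) (nat_lit 27) (.e (nat_lit 336119) (nat_lit 9) (.e (nat_lit 336319) (nat_lit 17) (.e (nat_lit 196698) (nat_lit 19) (.e (nat_lit 57814) (nat_lit 246) (.e (nat_lit 57895) (nat_lit 272) .nil)))))) (.g (nat_lit 6) .nil .nil)))) (.nd (nat_lit 5) 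
(.lf (nat_lit 136595) (.g (nat_lit 3052) (.e (nat_lit 16483) (nat_lit 27) (.e (nat_lit 336059) (nat_lit 7) (.e (nat_lit 319504) (nat_lit 10) (.e (nat_lit 618) (nat_lit 48) (.e (nat_lit 557105) (nat_lit 14) (.e (nat_lit 188160) (nat_lit 34) .nil)))))) (.g (nat_lit 5) .nil .nil))) 
(.lf (nat_lit 136627) (.g (nat_lit 608) (.e (nat_lit 16486) (nat_lit 27) (.e (nat_lit 336203) (nat_lit 12) (.e (nat_lit 392960) (nat_lit 24) .nil))) .nil)))) (.nd (nat_lit 4) (.nd (nat_lit 5) 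
(.lf (nat_lit 136587) (.g (nat_lit 1916) (.e (nat_lit 16483) (nat_lit 27) (.e (nat_lit 335996) (nat_lit 1) (.e (nat_lit 57854) (nat_lit 252) (.e (nat_lit 57371) (nat_lit 2) (.e (nat_lit 90160) (nat_lit 11) (.e (nat_lit 24584) (nat_lit 0) (.e (nat_lit 7936) (nat_lit 345) .nil))))))) (.g (nat_lit 4) .nil .nil))) 
(.lf (nat_lit 136619) (.g (nat_lit 1749) (.e (nat_lit 16486) (nat_lit 27) (.e (nat_lit 335986) (nat_lit 1) (.e (nat_lit 57847) (nat_lit 252) (.e (nat_lit 57368) (nat_lit 1) .nil)))) .nil))) (.nd (nat_lit 5) 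
(.lf (nat_lit 136603) (.g (nat_lit 1482) (.e (nat_lit 16483) (nat_lit 27) (.e (nat_lit 336232) (nat_lit 14) (.e (nat_lit 409344) (nat_lit 17) (.e (nat_lit 90172) (nat_lit 14) (.e (nat_lit 188160) (nat_lit 34) .nil))))) (.g (nat_lit 4) .nil .nil))) 
(.lf (nat_lit 136635) (.g (nat_lit 1545) (.e (nat_lit 16487) (nat_lit 27) (.e (nat_lit 335988) (nat_lit 1) (.e (nat_lit 57854) (nat_lit 252) (.e (nat_lit 57371) (nat_lit 2) .nil)))) .nil))))) (.nd (nat_lit 3) (.nd (nat_lit 4) (.nd (nat_lit 5) 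
(.lf (nat_lit 136583) (.g (nat_lit 1541) (.e (nat_lit 16483) (nat_lit 27) (.e (nat_lit 335996) (nat_lit 1) (.e (nat_lit 57854) (nat_lit 252) (.e (nat_lit 57366) (nat_lit 1) .nil)))) .nil)) 
(.lf (nat_lit 136615) (.g (nat_lit 987) (.e (nat_lit 16485) (nat_lit 27) (.e (nat_lit 336152) (nat_lit 9) (.e (nat_lit 336319) (nat_lit 17) (.e (nat_lit 196698) (nat_lit 19) (.e (nat_lit 57815) (nat_lit 246) (.e (nat_lit 57895) (nat_lit 272) .nil)))))) (.g (nat_lit 0) .nil .nil)))) (.nd (nat_lit 5) 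
(.lf (nat_lit 136599) (.g (nat_lit 1311) (.e (nat_lit 16483) (nat_lit 27) (.e (nat_lit 336196) (nat_lit 12) (.e (nat_lit 392960) (nat_lit 24) (.e (nat_lit 516160) (nat_lit 10) (.e (nat_lit 442112) (nat_lit 2) .nil))))) (.g (nat_lit 4) .nil .nil))) 
(.lf (nat_lit 136631) (.g (nat_lit 3681) (.e (nat_lit 16487) (nat_lit 27) (.e (nat_lit 335986) (nat_lit 1) (.e (nat_lit 57847) (nat_lit 252) (.e (nat_lit 57365) (nat_lit 1) (.e (nat_lit 57854) (nat_lit 252) (.e (nat_lit 57389) (nat_lit 5) (.e (nat_lit 114723) (nat_lit 24) (.e (nat_lit 106535) (nat_lit 11) .nil)))))))) (.g (nat_lit 5) .nil .nil))))) (.nd (nat_lit 4) (.nd (nat_lit 5) 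
(.lf (nat_lit 136591) (.g (nat_lit 2822) (.e (nat_lit 16483) (nat_lit 27) (.e (nat_lit 336059) (nat_lit 7) (.e (nat_lit 319504) (nat_lit 10) (.e (nat_lit 616) (nat_lit 48) (.e (nat_lit 557103) (nat_lit 14) (.e (nat_lit 188160) (nat_lit 34) .nil)))))) (.g (nat_lit 5) .nil .nil))) 
(.lf (nat_lit 136623) (.g (nat_lit 1543) (.e (nat_lit 16486) (nat_lit 27) (.e (nat_lit 335995) (nat_lit 1) (.e (nat_lit 57848) (nat_lit 252) (.e (nat_lit 57375) (nat_lit 2) .nil)))) .nil))) (.nd (nat_lit 5) 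
(.lf (nat_lit 136607) (.g (nat_lit 925) (.e (nat_lit 16485) (nat_lit 27) (.e (nat_lit 336119) (nat_lit 9) (.e (nat_lit 336319) (nat_lit 17) (.e (nat_lit 196698) (nat_lit 19) (.e (nat_lit 57809) (nat_lit 246) (.e (nat_lit 57895) (nat_lit 272) .nil)))))) (.g (nat_lit 6) .nil .nil))) 
(.lf (nat_lit 136639) (.g (nat_lit 3915) (.e (nat_lit 16487) (nat_lit 27) (.e (nat_lit 335995) (nat_lit 1) (.e (nat_lit 57847) (nat_lit 252) (.e (nat_lit 57368) (nat_lit 1) (.e (nat_lit 57854) (nat_lit 252) (.e (nat_lit 57389) (nat_lit 5) (.e (nat_lit 114723) (nat_lit 24) (.e (nat_lit 106535) (nat_lit 11) .nil)))))))) (.g (nat_lit 8) .nil .nil)))))))))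

noncomputable def tv1816 : DT := (.nd (nat_lit 0) (.nd (nat_lit 1) (.nd (nat_lit 2) (.nd (nat_lit 3) (.nd (nat_lit 4) (.nd (nat_lit 5) 
(.lf (nat_lit 136640) (.g (nat_lit 2350) (.e (nat_lit 16487) (nat_lit 27) (.e (nat_lit 335995) (nat_lit 1) (.e (nat_lit 57848) (nat_lit 252) (.e (nat_lit 57365) (nat_lit 1) (.e (nat_lit 57854) (nat_lit 252) (.e (nat_lit 57389) (nat_lit 5) (.e (nat_lit 114723) (nat_lit 24) (.e (nat_lit 106534) (nat_lit 11) .nil)))))))) (.g (nat_lit 4) .nil .nil))) 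
(.lf (nat_lit 136672) (.g (nat_lit 2411) (.e (nat_lit 16487) (nat_lit 27) (.e (nat_lit 336075) (nat_lit 9) (.e (nat_lit 336320) (nat_lit 17) (.e (nat_lit 196698) (nat_lit 19) (.e (nat_lit 57810) (nat_lit 246) (.e (nat_lit 57895) (nat_lit 272) .nil)))))) (.g (nat_lit 0) .nil .nil)))) (.nd (nat_lit 5) 
(.lf (nat_lit 136656) (.g (nat_lit 2460) (.e (nat_lit 16487) (nat_lit 27) (.e (nat_lit 335996) (nat_lit 1) (.e (nat_lit 57852) (nat_lit 252) (.e (nat_lit 57366) (nat_lit 1) .nil)))) .nil)) 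
(.lf (nat_lit 136688) (.g (nat_lit 2032) (.e (nat_lit 16487) (nat_lit 27) (.e (nat_lit 336078) (nat_lit 9) (.e (nat_lit 336320) (nat_lit 17) (.e (nat_lit 196698) (nat_lit 19) (.e (nat_lit 57815) (nat_lit 246) (.e (nat_lit 57895) (nat_lit 272) .nil)))))) (.g (nat_lit 0) .nil .nil))))) (.nd (nat_lit 4) (.nd (nat_lit 5) 
(.lf (nat_lit 136648) (.g (nat_lit 2040) (.e (nat_lit 16487) (nat_lit 27) (.e (nat_lit 335995) (nat_lit 1) (.e (nat_lit 57849) (nat_lit 252) (.e (nat_lit 57368) (nat_lit 1) (.e (nat_lit 57854) (nat_lit 252) .nil))))) .nil)) 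
(.lf (nat_lit 136680) (.g (nat_lit 2064) (.e (nat_lit 16487) (nat_lit 27) (.e (nat_lit 336077) (nat_lit 9) (.e (nat_lit 336320) (nat_lit 17) (.e (nat_lit 196698) (nat_lit 19) (.e (nat_lit 57810) (nat_lit 246) (.e (nat_lit 57895) (nat_lit 272) .nil)))))) (.g (nat_lit 0) .nil .nil)))) (.nd (nat_lit 5) 
(.lf (nat_lit 136664) (.g (nat_lit 1569) (.e (nat_lit 16487) (nat_lit 27) (.e (nat_lit 336074) (nat_lit 9) (.e (nat_lit 336320) (nat_lit 17) (.e (nat_lit 196698) (nat_lit 19) (.e (nat_lit 57809) (nat_lit 246) (.e (nat_lit 57895) (nat_lit 272) .nil)))))) (.g (nat_lit 4) .nil .nil))) 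
(.lf (nat_lit 136696) (.g (nat_lit 1596) (.e (nat_lit 16487) (nat_lit 27) (.e (nat_lit 336084) (nat_lit 9) (.e (nat_lit 336320) (nat_lit 17) (.e (nat_lit 196698) (nat_lit 19) (.e (nat_lit 57815) (nat_lit 246) (.e (nat_lit 57895) (nat_lit 272) .nil)))))) (.g (nat_lit 4) .nil .nil)))))) (.nd (nat_lit 3) (.nd (nat_lit 4) (.nd (nat_lit 5) 
(.lf (nat_lit 136644) (.g (nat_lit 2586) (.e (nat_lit 16487) (nat_lit 27) (.e (nat_lit 335995) (nat_lit 1) (.e (nat_lit 57848) (nat_lit 252) (.e (nat_lit 57372) (nat_lit 2) (.e (nat_lit 90159) (nat_lit 11) (.e (nat_lit 24580) (nat_lit 0) (.e (nat_lit 6508) (nat_lit 345) .nil))))))) (.g (nat_lit 5) .nil .nil))) 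
(.lf (nat_lit 136676) (.g (nat_lit 2400) (.e (nat_lit 16487) (nat_lit 27) (.e (nat_lit 336075) (nat_lit 9) (.e (nat_lit 336320) (nat_lit 17) (.e (nat_lit 196698) (nat_lit 19) (.e (nat_lit 57815) (nat_lit 246) (.e (nat_lit 57895) (nat_lit 272) .nil)))))) (.g (nat_lit 0) .nil .nil)))) (.nd (nat_lit 5) 
(.lf (nat_lit 136660) (.g (nat_lit 2323) (.e (nat_lit 16487) (nat_lit 27) (.e (nat_lit 335996) (nat_lit 1) (.e (nat_lit 57854) (nat_lit 252) (.e (nat_lit 57371) (nat_lit 2) .nil)))) .nil)) 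
(.lf (nat_lit 136692) (.g (nat_lit 1568) (.e (nat_lit 16487) (nat_lit 27) (.e (nat_lit 336084) (nat_lit 9) (.e (nat_lit 336320) (nat_lit 17) (.e (nat_lit 196698) (nat_lit 19) (.e (nat_lit 57809) (nat_lit 246) (.e (nat_lit 57895) (nat_lit 272) .nil)))))) (.g (nat_lit 4) .nil .nil))))) (.nd (nat_lit 4) (.nd (nat_lit 5) 
(.lf (nat_lit 136652) (.g (nat_lit 2970) (.e (nat_lit 16487) (nat_lit 27) (.e (nat_lit 335995) (nat_lit 1) (.e (nat_lit 57849) (nat_lit 252) (.e (nat_lit 57372) (nat_lit 2) (.e (nat_lit 90160) (nat_lit 11) (.e (nat_lit 24584) (nat_lit 0) (.e (nat_lit 7936) (nat_lit 345) .nil))))))) (.g (nat_lit 4) .nil .nil))) 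
(.lf (nat_lit 136684) (.g (nat_lit 2053) (.e (nat_lit 16487) (nat_lit 27) (.e (nat_lit 336077) (nat_lit 9) (.e (nat_lit 336320) (nat_lit 17) (.e (nat_lit 196698) (nat_lit 19) (.e (nat_lit 57815) (nat_lit 246) (.e (nat_lit 57895) (nat_lit 272) .nil)))))) (.g (nat_lit 0) .nil .nil)))) (.nd (nat_lit 5) 
(.lf (nat_lit 136668) (.g (nat_lit 1597) (.e (nat_lit 16487) (nat_lit 27) (.e (nat_lit 336074) (nat_lit 9) (.e (nat_lit 336320) (nat_lit 17) (.e (nat_lit 196698) (nat_lit 19) (.e (nat_lit 57815) (nat_lit 246) (.e (nat_lit 57895) (nat_lit 272) .nil)))))) (.g (nat_lit 4) .nil .nil))) 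
(.lf (nat_lit 136700) (.g (nat_lit 1952) (.e (nat_lit 16487) (nat_lit 27) (.e (nat_lit 336085) (nat_lit 9) (.e (nat_lit 336320) (nat_lit 17) (.e (nat_lit 196698) (nat_lit 19) (.e (nat_lit 57810) (nat_lit 246) (.e (nat_lit 57895) (nat_lit 272) .nil)))))) (.g (nat_lit 0) .nil .nil))))))) (.nd (nat_lit 2) (.nd (nat_lit 3) (.nd (nat_lit 4) (.nd (nat_lit 5) 
(.lf (nat_lit 136642) (.g (nat_lit 1808) (.e (nat_lit 16487) (nat_lit 27) (.e (nat_lit 335995) (nat_lit 1) (.e (nat_lit 57848) (nat_lit 252) (.e (nat_lit 57368) (nat_lit 1) (.e (nat_lit 57854) (nat_lit 252) .nil))))) .nil)) 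
(.lf (nat_lit 136674) (.g (nat_lit 2357) (.e (nat_lit 16487) (nat_lit 27) (.e (nat_lit 336075) (nat_lit 9) (.e (nat_lit 336320) (nat_lit 17) (.e (nat_lit 196698) (nat_lit 19) (.e (nat_lit 57813) (nat_lit 246) (.e (nat_lit 57895) (nat_lit 272) .nil)))))) (.g (nat_lit 0) .nil .nil)))) (.nd (nat_lit 5) 
(.lf (nat_lit 136658) (.g (nat_lit 2306) (.e (nat_lit 16487) (nat_lit 27) (.e (nat_lit 335996) (nat_lit 1) (.e (nat_lit 57854) (nat_lit 252) (.e (nat_lit 57364) (nat_lit 1) .nil)))) .nil)) 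
(.lf (nat_lit 136690) (.g (nat_lit 459) (.e (nat_lit 16487) (nat_lit 27) (.e (nat_lit 336078) (nat_lit 9) (.e (nat_lit 343808) (nat_lit 17) .nil))) .nil)))) (.nd (nat_lit 4) (.nd (nat_lit 5) 
(.lf (nat_lit 136650) (.g (nat_lit 2879) (.e (nat_lit 16487) (nat_lit 27) (.e (nat_lit 335995) (nat_lit 1) (.e (nat_lit 57849) (nat_lit 252) (.e (nat_lit 57372) (nat_lit 2) (.e (nat_lit 90160) (nat_lit 11) .nil))))) .nil)) 
(.lf (nat_lit 136682) (.g (nat_lit 2010) (.e (nat_lit 16487) (nat_lit 27) (.e (nat_lit 336077) (nat_lit 9) (.e (nat_lit 336320) (nat_lit 17) (.e (nat_lit 196698) (nat_lit 19) (.e (nat_lit 57813) (nat_lit 246) (.e (nat_lit 57895) (nat_lit 272) .nil)))))) (.g (nat_lit 0) .nil .nil)))) (.nd (nat_lit 5) 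
(.lf (nat_lit 136666) (.g (nat_lit 1554) (.e (nat_lit 16487) (nat_lit 27) (.e (nat_lit 336074) (nat_lit 9) (.e (nat_lit 336320) (nat_lit 17) (.e (nat_lit 196698) (nat_lit 19) (.e (nat_lit 57813) (nat_lit 246) (.e (nat_lit 57895) (nat_lit 272) .nil)))))) (.g (nat_lit 4) .nil .nil))) 
(.lf (nat_lit 136698) (.g (nat_lit 1906) (.e (nat_lit 16487) (nat_lit 27) (.e (nat_lit 336085) (nat_lit 9) (.e (nat_lit 336320) (nat_lit 17) (.e (nat_lit 196698) (nat_lit 19) (.e (nat_lit 57808) (nat_lit 246) (.e (nat_lit 57895) (nat_lit 272) .nil)))))) (.g (nat_lit 0) .nil .nil)))))) (.nd (nat_lit 3) (.nd (nat_lit 4) (.nd (nat_lit 5) 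
(.lf (nat_lit 136646) (.g (nat_lit 3497) (.e (nat_lit 16487) (nat_lit 27) (.e (nat_lit 335995) (nat_lit 1) (.e (nat_lit 57849) (nat_lit 252) (.e (nat_lit 57365) (nat_lit 1) (.e (nat_lit 57854) (nat_lit 252) (.e (nat_lit 57389) (nat_lit 5) (.e (nat_lit 114723) (nat_lit 24) (.e (nat_lit 106534) (nat_lit 11) .nil)))))))) (.g (nat_lit 6) .nil .nil))) 
(.lf (nat_lit 136678) (.g (nat_lit 2018) (.e (nat_lit 16487) (nat_lit 27) (.e (nat_lit 336077) (nat_lit 9) (.e (nat_lit 336320) (nat_lit 17) (.e (nat_lit 196698) (nat_lit 19) (.e (nat_lit 57808) (nat_lit 246) (.e (nat_lit 57895) (nat_lit 272) .nil)))))) (.g (nat_lit 0) .nil .nil)))) (.nd (nat_lit 5) 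
(.lf (nat_lit 136662) (.g (nat_lit 1414) (.e (nat_lit 16487) (nat_lit 27) (.e (nat_lit 336059) (nat_lit 7) (.e (nat_lit 319504) (nat_lit 10) (.e (nat_lit 618) (nat_lit 48) .nil)))) .nil)) 
(.lf (nat_lit 136694) (.g (nat_lit 1553) (.e (nat_lit 16487) (nat_lit 27) (.e (nat_lit 336084) (nat_lit 9) (.e (nat_lit 336320) (nat_lit 17) (.e (nat_lit 196698) (nat_lit 19) (.e (nat_lit 57813) (nat_lit 246) (.e (nat_lit 57895) (nat_lit 272) .nil)))))) (.g (nat_lit 4) .nil .nil))))) (.nd (nat_lit 4) (.nd (nat_lit 5) 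
(.lf (nat_lit 136654) (.g (nat_lit 2197) (.e (nat_lit 16487) (nat_lit 27) (.e (nat_lit 335996) (nat_lit 1) (.e (nat_lit 57851) (nat_lit 252) (.e (nat_lit 57371) (nat_lit 2) (.e (nat_lit 90160) (nat_lit 11) .nil))))) .nil)) 
(.lf (nat_lit 136686) (.g (nat_lit 2007) (.e (nat_lit 16487) (nat_lit 27) (.e (nat_lit 336078) (nat_lit 9) (.e (nat_lit 336320) (nat_lit 17) (.e (nat_lit 196698) (nat_lit 19) (.e (nat_lit 57809) (nat_lit 246) (.e (nat_lit 57895) (nat_lit 272) .nil)))))) (.g (nat_lit 0) .nil .nil)))) (.nd (nat_lit 5) 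
(.lf (nat_lit 136670) (.g (nat_lit 2365) (.e (nat_lit 16487) (nat_lit 27) (.e (nat_lit 336075) (nat_lit 9) (.e (nat_lit 336320) (nat_lit 17) (.e (nat_lit 196698) (nat_lit 19) (.e (nat_lit 57808) (nat_lit 246) (.e (nat_lit 57895) (nat_lit 272) .nil)))))) (.g (nat_lit 0) .nil .nil))) 
(.lf (nat_lit 136702) (.g (nat_lit 1895) (.e (nat_lit 16487) (nat_lit 27) (.e (nat_lit 336085) (nat_lit 9) (.e (nat_lit 336320) (nat_lit 17) (.e (nat_lit 196698) (nat_lit 19) (.e (nat_lit 57813) (nat_lit 246) (.e (nat_lit 57895) (nat_lit 272) .nil)))))) (.g (nat_lit 0) .nil .nil)))))))) (.nd (nat_lit 1) (.nd (nat_lit 2) (.nd (nat_lit 3) (.nd (nat_lit 4) (.nd (nat_lit 5) 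
(.lf (nat_lit 136641) (.g (nat_lit 1783) (.e (nat_lit 16487) (nat_lit 27) (.e (nat_lit 335995) (nat_lit 1) (.e (nat_lit 57848) (nat_lit 252) (.e (nat_lit 57367) (nat_lit 1) (.e (nat_lit 57848) (nat_lit 252) .nil))))) .nil)) 
(.lf (nat_lit 136673) (.g (nat_lit 2436) (.e (nat_lit 16487) (nat_lit 27) (.e (nat_lit 336075) (nat_lit 9) (.e (nat_lit 336320) (nat_lit 17) (.e (nat_lit 196698) (nat_lit 19) (.e (nat_lit 57811) (nat_lit 246) (.e (nat_lit 57895) (nat_lit 272) .nil)))))) (.g (nat_lit 0) .nil .nil)))) (.nd (nat_lit 5) 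
(.lf (nat_lit 136657) (.g (nat_lit 1574) (.e (nat_lit 16487) (nat_lit 27) (.e (nat_lit 335996) (nat_lit 1) (.e (nat_lit 57852) (nat_lit 252) (.e (nat_lit 57371) (nat_lit 2) .nil)))) .nil)) 
(.lf (nat_lit 136689) (.g (nat_lit 2028) (.e (nat_lit 16487) (nat_lit 27) (.e (nat_lit 336078) (nat_lit 9) (.e (nat_lit 336320) (nat_lit 17) (.e (nat_lit 196698) (nat_lit 19) (.e (nat_lit 57816) (nat_lit 246) (.e (nat_lit 57895) (nat_lit 272) .nil)))))) (.g (nat_lit 0) .nil .nil))))) (.nd (nat_lit 4) (.nd (nat_lit 5) 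
(.lf (nat_lit 136649) (.g (nat_lit 3144) (.e (nat_lit 16487) (nat_lit 27) (.e (nat_lit 335995) (nat_lit 1) (.e (nat_lit 57849) (nat_lit 252) (.e (nat_lit 57368) (nat_lit 1) (.e (nat_lit 57854) (nat_lit 252) (.e (nat_lit 57389) (nat_lit 5) (.e (nat_lit 114723) (nat_lit 24) (.e (nat_lit 106535) (nat_lit 11) .nil)))))))) (.g (nat_lit 5) .nil .nil))) 
(.lf (nat_lit 136681) (.g (nat_lit 2089) (.e (nat_lit 16487) (nat_lit 27) (.e (nat_lit 336077) (nat_lit 9) (.e (nat_lit 336320) (nat_lit 17) (.e (nat_lit 196698) (nat_lit 19) (.e (nat_lit 57811) (nat_lit 246) (.e (nat_lit 57895) (nat_lit 272) .nil)))))) (.g (nat_lit 0) .nil .nil)))) (.nd (nat_lit 5) 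
(.lf (nat_lit 136665) (.g (nat_lit 1608) (.e (nat_lit 16487) (nat_lit 27) (.e (nat_lit 336074) (nat_lit 9) (.e (nat_lit 336320) (nat_lit 17) (.e (nat_lit 196698) (nat_lit 19) (.e (nat_lit 57810) (nat_lit 246) (.e (nat_lit 57895) (nat_lit 272) .nil)))))) (.g (nat_lit 4) .nil .nil))) 
(.lf (nat_lit 136697) (.g (nat_lit 1590) (.e (nat_lit 16487) (nat_lit 27) (.e (nat_lit 336084) (nat_lit 9) (.e (nat_lit 336320) (nat_lit 17) (.e (nat_lit 196698) (nat_lit 19) (.e (nat_lit 57816) (nat_lit 246) (.e (nat_lit 57895) (nat_lit 272) .nil)))))) (.g (nat_lit 4) .nil .nil)))))) (.nd (nat_lit 3) (.nd (nat_lit 4) (.nd (nat_lit 5) 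
(.lf (nat_lit 136645) (.g (nat_lit 1654) (.e (nat_lit 16487) (nat_lit 27) (.e (nat_lit 335995) (nat_lit 1) (.e (nat_lit 57849) (nat_lit 252) (.e (nat_lit 57363) (nat_lit 1) .nil)))) .nil)) 
(.lf (nat_lit 136677) (.g (nat_lit 2394) (.e (nat_lit 16487) (nat_lit 27) (.e (nat_lit 336075) (nat_lit 9) (.e (nat_lit 336320) (nat_lit 17) (.e (nat_lit 196698) (nat_lit 19) (.e (nat_lit 57816) (nat_lit 246) (.e (nat_lit 57895) (nat_lit 272) .nil)))))) (.g (nat_lit 0) .nil .nil)))) (.nd (nat_lit 5) 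
(.lf (nat_lit 136661) (.g (nat_lit 2451) (.e (nat_lit 16487) (nat_lit 27) (.e (nat_lit 335996) (nat_lit 1) (.e (nat_lit 57854) (nat_lit 252) (.e (nat_lit 57373) (nat_lit 2) .nil)))) .nil)) 
(.lf (nat_lit 136693) (.g (nat_lit 1607) (.e (nat_lit 16487) (nat_lit 27) (.e (nat_lit 336084) (nat_lit 9) (.e (nat_lit 336320) (nat_lit 17) (.e (nat_lit 196698) (nat_lit 19) (.e (nat_lit 57810) (nat_lit 246) (.e (nat_lit 57895) (nat_lit 272) .nil)))))) (.g (nat_lit 4) .nil .nil))))) (.nd (nat_lit 4) (.nd (nat_lit 5) 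
(.lf (nat_lit 136653) (.g (nat_lit 1790) (.e (nat_lit 16487) (nat_lit 27) (.e (nat_lit 335995) (nat_lit 1) (.e (nat_lit 57849) (nat_lit 252) (.e (nat_lit 57379) (nat_lit 3) .nil)))) .nil)) 
(.lf (nat_lit 136685) (.g (nat_lit 2047) (.e (nat_lit 16487) (nat_lit 27) (.e (nat_lit 336077) (nat_lit 9) (.e (nat_lit 336320) (nat_lit 17) (.e (nat_lit 196698) (nat_lit 19) (.e (nat_lit 57816) (nat_lit 246) (.e (nat_lit 57895) (nat_lit 272) .nil)))))) (.g (nat_lit 0) .nil .nil)))) (.nd (nat_lit 5) 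
(.lf (nat_lit 136669) (.g (nat_lit 1591) (.e (nat_lit 16487) (nat_lit 27) (.e (nat_lit 336074) (nat_lit 9) (.e (nat_lit 336320) (nat_lit 17) (.e (nat_lit 196698) (nat_lit 19) (.e (nat_lit 57816) (nat_lit 246) (.e (nat_lit 57895) (nat_lit 272) .nil)))))) (.g (nat_lit 4) .nil .nil))) 
(.lf (nat_lit 136701) (.g (nat_lit 1977) (.e (nat_lit 16487) (nat_lit 27) (.e (nat_lit 336085) (nat_lit 9) (.e (nat_lit 336320) (nat_lit 17) (.e (nat_lit 196698) (nat_lit 19) (.e (nat_lit 57811) (nat_lit 246) (.e (nat_lit 57895) (nat_lit 272) .nil)))))) (.g (nat_lit 0) .nil .nil))))))) (.nd (nat_lit 2) (.nd (nat_lit 3) (.nd (nat_lit 4) (.nd (nat_lit 5) 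
(.lf (nat_lit 136643) (.g (nat_lit 2836) (.e (nat_lit 16487) (nat_lit 27) (.e (nat_lit 335995) (nat_lit 1) (.e (nat_lit 57848) (nat_lit 252) (.e (nat_lit 57368) (nat_lit 1) (.e (nat_lit 57854) (nat_lit 252) (.e (nat_lit 57389) (nat_lit 5) (.e (nat_lit 114723) (nat_lit 24) (.e (nat_lit 106535) (nat_lit 11) .nil)))))))) (.g (nat_lit 5) .nil .nil))) 
(.lf (nat_lit 136675) (.g (nat_lit 2408) (.e (nat_lit 16487) (nat_lit 27) (.e (nat_lit 336075) (nat_lit 9) (.e (nat_lit 336320) (nat_lit 17) (.e (nat_lit 196698) (nat_lit 19) (.e (nat_lit 57814) (nat_lit 246) (.e (nat_lit 57895) (nat_lit 272) .nil)))))) (.g (nat_lit 0) .nil .nil)))) (.nd (nat_lit 5) 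
(.lf (nat_lit 136659) (.g (nat_lit 2489) (.e (nat_lit 16487) (nat_lit 27) (.e (nat_lit 335996) (nat_lit 1) (.e (nat_lit 57854) (nat_lit 252) (.e (nat_lit 57366) (nat_lit 1) .nil)))) .nil)) 
(.lf (nat_lit 136691) (.g (nat_lit 1561) (.e (nat_lit 16487) (nat_lit 27) (.e (nat_lit 336084) (nat_lit 9) (.e (nat_lit 336320) (nat_lit 17) (.e (nat_lit 196698) (nat_lit 19) (.e (nat_lit 57808) (nat_lit 246) (.e (nat_lit 57895) (nat_lit 272) .nil)))))) (.g (nat_lit 4) .nil .nil))))) (.nd (nat_lit 4) (.nd (nat_lit 5) 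
(.lf (nat_lit 136651) (.g (nat_lit 3522) (.e (nat_lit 16487) (nat_lit 27) (.e (nat_lit 335995) (nat_lit 1) (.e (nat_lit 57849) (nat_lit 252) (.e (nat_lit 57372) (nat_lit 2) (.e (nat_lit 90160) (nat_lit 11) (.e (nat_lit 24580) (nat_lit 0) (.e (nat_lit 6508) (nat_lit 345) .nil))))))) (.g (nat_lit 4) .nil .nil))) 
(.lf (nat_lit 136683) (.g (nat_lit 2061) (.e (nat_lit 16487) (nat_lit 27) (.e (nat_lit 336077) (nat_lit 9) (.e (nat_lit 336320) (nat_lit 17) (.e (nat_lit 196698) (nat_lit 19) (.e (nat_lit 57814) (nat_lit 246) (.e (nat_lit 57895) (nat_lit 272) .nil)))))) (.g (nat_lit 0) .nil .nil)))) (.nd (nat_lit 5) 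
(.lf (nat_lit 136667) (.g (nat_lit 1605) (.e (nat_lit 16487) (nat_lit 27) (.e (nat_lit 336074) (nat_lit 9) (.e (nat_lit 336320) (nat_lit 17) (.e (nat_lit 196698) (nat_lit 19) (.e (nat_lit 57814) (nat_lit 246) (.e (nat_lit 57895) (nat_lit 272) .nil)))))) (.g (nat_lit 4) .nil .nil))) 
(.lf (nat_lit 136699) (.g (nat_lit 1913) (.e (nat_lit 16487) (nat_lit 27) (.e (nat_lit 336085) (nat_lit 9) (.e (nat_lit 336320) (nat_lit 17) (.e (nat_lit 196698) (nat_lit 19) (.e (nat_lit 57809) (nat_lit 246) (.e (nat_lit 57895) (nat_lit 272) .nil)))))) (.g (nat_lit 0) .nil .nil)))))) (.nd (nat_lit 3) (.nd (nat_lit 4) (.nd (nat_lit 5) 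
(.lf (nat_lit 136647) (.g (nat_lit 2610) (.e (nat_lit 16487) (nat_lit 27) (.e (nat_lit 335995) (nat_lit 1) (.e (nat_lit 57849) (nat_lit 252) (.e (nat_lit 57365) (nat_lit 1) (.e (nat_lit 57854) (nat_lit 252) (.e (nat_lit 57389) (nat_lit 5) (.e (nat_lit 114723) (nat_lit 24) (.e (nat_lit 106535) (nat_lit 11) .nil)))))))) (.g (nat_lit 5) .nil .nil))) 
(.lf (nat_lit 136679) (.g (nat_lit 2025) (.e (nat_lit 16487) (nat_lit 27) (.e (nat_lit 336077) (nat_lit 9) (.e (nat_lit 336320) (nat_lit 17) (.e (nat_lit 196698) (nat_lit 19) (.e (nat_lit 57809) (nat_lit 246) (.e (nat_lit 57895) (nat_lit 272) .nil)))))) (.g (nat_lit 0) .nil .nil)))) (.nd (nat_lit 5) 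
(.lf (nat_lit 136663) (.g (nat_lit 1562) (.e (nat_lit 16487) (nat_lit 27) (.e (nat_lit 336074) (nat_lit 9) (.e (nat_lit 336320) (nat_lit 17) (.e (nat_lit 196698) (nat_lit 19) (.e (nat_lit 57808) (nat_lit 246) (.e (nat_lit 57895) (nat_lit 272) .nil)))))) (.g (nat_lit 4) .nil .nil))) 
(.lf (nat_lit 136695) (.g (nat_lit 1604) (.e (nat_lit 16487) (nat_lit 27) (.e (nat_lit 336084) (nat_lit 9) (.e (nat_lit 336320) (nat_lit 17) (.e (nat_lit 196698) (nat_lit 19) (.e (nat_lit 57814) (nat_lit 246) (.e (nat_lit 57895) (nat_lit 272) .nil)))))) (.g (nat_lit 4) .nil .nil))))) (.nd (nat_lit 4) (.nd (nat_lit 5) 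
(.lf (nat_lit 136655) (.g (nat_lit 2572) (.e (nat_lit 16487) (nat_lit 27) (.e (nat_lit 335996) (nat_lit 1) (.e (nat_lit 57851) (nat_lit 252) (.e (nat_lit 57371) (nat_lit 2) (.e (nat_lit 90160) (nat_lit 11) (.e (nat_lit 24580) (nat_lit 0) (.e (nat_lit 6508) (nat_lit 345) .nil))))))) (.g (nat_lit 4) .nil .nil))) 
(.lf (nat_lit 136687) (.g (nat_lit 2042) (.e (nat_lit 16487) (nat_lit 27) (.e (nat_lit 336078) (nat_lit 9) (.e (nat_lit 336320) (nat_lit 17) (.e (nat_lit 196698) (nat_lit 19) (.e (nat_lit 57814) (nat_lit 246) (.e (nat_lit 57895) (nat_lit 272) .nil)))))) (.g (nat_lit 0) .nil .nil)))) (.nd (nat_lit 5) 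
(.lf (nat_lit 136671) (.g (nat_lit 2372) (.e (nat_lit 16487) (nat_lit 27) (.e (nat_lit 336075) (nat_lit 9) (.e (nat_lit 336320) (nat_lit 17) (.e (nat_lit 196698) (nat_lit 19) (.e (nat_lit 57809) (nat_lit 246) (.e (nat_lit 57895) (nat_lit 272) .nil)))))) (.g (nat_lit 0) .nil .nil))) 
(.lf (nat_lit 136703) (.g (nat_lit 1949) (.e (nat_lit 16487) (nat_lit 27) (.e (nat_lit 336085) (nat_lit 9) (.e (nat_lit 336320) (nat_lit 17) (.e (nat_lit 196698) (nat_lit 19) (.e (nat_lit 57814) (nat_lit 246) (.e (nat_lit 57895) (nat_lit 272) .nil)))))) (.g (nat_lit 0) .nil .nil)))))))))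


end

end Pool.Agent.Lib.MP_5854e1_co.Cz
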