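import Pool.Agent.Lib.MP_5854e1_co.DtD

/-!
# Windows and cells of the rings
-/

set_option autoImplicit false
set_option maxRecDepth 100000
set_option deprecated.oldSectionVars true

namespace Pool.Agent.Lib.MP_5854e1_co.Cz

open Pool.Agent.Lib.MP_5854e1_co

noncomputable section

noncomputable def tv1817 : DT := (.nd (nat_lit 0) (.nd (nat_lit 1) (.nd (nat_lit 2) (.nd (nat_lit 3) (.nd (nat_lit 4) (.nd (nat_lit 5) (.nd (nat_lit 6) 
(.lf (nat_lit 136704) (.g (nat_lit 1941) (.e (nat_lit 16487) (nat_lit 27) (.e (nat_lit 336085) (nat_lit 9) (.e (nat_lit 336320) (nat_lit 17) (.e (nat_lit 196698) (nat_lit 19) (.e (nat_lit 57815) (nat_lit 246) (.e (nat_lit 57895) (nat_lit 272) .nil)))))) (.g (nat_lit 0) .nil .nil))) 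
(.lf (nat_lit 136768) (.g (nat_lit 1042) (.e (nat_lit 24320) (nat_lit 32) (.e (nat_lit 376865) (nat_lit 22) (.e (nat_lit 90155) (nat_lit 10) (.e (nat_lit 16128) (nat_lit 226) .nil)))) .nil))) (.nd (nat_lit 6) 
(.lf (nat_lit 136736) (.g (nat_lit 2035) (.e (nat_lit 16487) (nat_lit 27) (.e (nat_lit 336203) (nat_lit 12) (.e (nat_lit 385057) (nat_lit 22) (.e (nat_lit 499780) (nat_lit 1) (.e (nat_lit 57811) (nat_lit 246) (.e (nat_lit 57895) (nat_lit 272) .nil)))))) (.g (nat_lit 0) .nil .nil))) 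
(.lf (nat_lit 136800) (.g (nat_lit 1245) (.e (nat_lit 24320) (nat_lit 34) (.e (nat_lit 393283) (nat_lit 24) (.e (nat_lit 434244) (nat_lit 28) (.e (nat_lit 573474) (nat_lit 12) .nil)))) .nil)))) (.nd (nat_lit 5) (.nd (nat_lit 6) 
(.lf (nat_lit 136720) (.g (nat_lit 1384) (.e (nat_lit 16487) (nat_lit 27) (.e (nat_lit 336150) (nat_lit 9) (.e (nat_lit 336319) (nat_lit 17) (.e (nat_lit 196698) (nat_lit 19) (.e (nat_lit 57813) (nat_lit 246) (.e (nat_lit 57895) (nat_lit 272) .nil)))))) (.g (nat_lit 0) .nil .nil))) 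
(.lf (nat_lit 136784) (.g (nat_lit 1492) (.e (nat_lit 24320) (nat_lit 34) (.e (nat_lit 393271) (nat_lit 23) (.e (nat_lit 426436) (nat_lit 18) (.e (nat_lit 98309) (nat_lit 0) .nil)))) .nil))) (.nd (nat_lit 6) 
(.lf (nat_lit 136752) (.g (nat_lit 611) (.e (nat_lit 24320) (nat_lit 29) (.e (nat_lit 352313) (nat_lit 23) (.e (nat_lit 98309) (nat_lit 0) (.e (nat_lit 6216) (nat_lit 333) (.e (nat_lit 65280) (nat_lit 272) .nil))))) .nil)) 
(.lf (nat_lit 136816) (.g (nat_lit 151) (.e (nat_lit 24320) (nat_lit 34) (.e (nat_lit 393289) (nat_lit 25) (.e (nat_lit 466688) (nat_lit 21) .nil))) .nil))))) (.nd (nat_lit 4) (.nd (nat_lit 5) (.nd (nat_lit 6) 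
(.lf (nat_lit 136712) (.g (nat_lit 1258) (.e (nat_lit 16487) (nat_lit 27) (.e (nat_lit 336087) (nat_lit 9) (.e (nat_lit 336019) (nat_lit 3) (.e (nat_lit 98308) (nat_lit 0) .nil)))) .nil)) 
(.lf (nat_lit 136776) (.g (nat_lit 1054) (.e (nat_lit 24320) (nat_lit 34) (.e (nat_lit 393268) (nat_lit 23) (.e (nat_lit 426436) (nat_lit 18) (.e (nat_lit 106240) (nat_lit 2) .nil)))) .nil))) (.nd (nat_lit 6) 
(.lf (nat_lit 136744) (.g (nat_lit 1325) (.e (nat_lit 16487) (nat_lit 27) (.e (nat_lit 336232) (nat_lit 14) (.e (nat_lit 409344) (nat_lit 17) (.e (nat_lit 90172) (nat_lit 14) (.e (nat_lit 188160) (nat_lit 34) .nil))))) (.g (nat_lit 4) .nil .nil))) 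
(.lf (nat_lit 136808) (.g (nat_lit 1101) (.e (nat_lit 24320) (nat_lit 34) (.e (nat_lit 393284) (nat_lit 24) (.e (nat_lit 434227) (nat_lit 20) (.e (nat_lit 507918) (nat_lit 3) (.e (nat_lit 49189) (nat_lit 11) .nil))))) .nil)))) (.nd (nat_lit 5) (.nd (nat_lit 6) 
(.lf (nat_lit 136728) (.g (nat_lit 1904) (.e (nat_lit 16487) (nat_lit 27) (.e (nat_lit 336196) (nat_lit 12) (.e (nat_lit 385057) (nat_lit 22) (.e (nat_lit 499780) (nat_lit 1) (.e (nat_lit 57813) (nat_lit 246) (.e (nat_lit 57895) (nat_lit 272) .nil)))))) (.g (nat_lit 0) .nil .nil))) 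
(.lf (nat_lit 136792) (.g (nat_lit 822) (.e (nat_lit 24320) (nat_lit 34) (.e (nat_lit 393273) (nat_lit 23) (.e (nat_lit 426437) (nat_lit 18) (.e (nat_lit 106240) (nat_lit 2) .nil)))) .nil))) (.nd (nat_lit 6) 
(.lf (nat_lit 136760) (.g (nat_lit 1196) (.e (nat_lit 24320) (nat_lit 30) (.e (nat_lit 360466) (nat_lit 3) (.e (nat_lit 516117) (nat_lit 1) (.e (nat_lit 164158) (nat_lit 152) .nil)))) .nil)) 
(.lf (nat_lit 136824) (.g (nat_lit 991) (.e (nat_lit 24320) (nat_lit 34) (.e (nat_lit 393296) (nat_lit 26) (.e (nat_lit 475177) (nat_lit 24) (.e (nat_lit 524032) (nat_lit 19) .nil)))) .nil)))))) (.nd (nat_lit 3) (.nd (nat_lit 4) (.nd (nat_lit 5) (.nd (nat_lit 6) 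
(.lf (nat_lit 136708) (.g (nat_lit 2223) (.e (nat_lit 16487) (nat_lit 27) (.e (nat_lit 336086) (nat_lit 9) (.e (nat_lit 336320) (nat_lit 17) (.e (nat_lit 196698) (nat_lit 19) (.e (nat_lit 57813) (nat_lit 246) (.e (nat_lit 57895) (nat_lit 272) .nil)))))) (.g (nat_lit 0) .nil .nil))) 
(.lf (nat_lit 136772) (.g (nat_lit 1671) (.e (nat_lit 24320) (nat_lit 34) (.e (nat_lit 393260) (nat_lit 21) (.e (nat_lit 409617) (nat_lit 10) (.e (nat_lit 604) (nat_lit 45) (.e (nat_lit 532510) (nat_lit 2) .nil))))) .nil))) (.nd (nat_lit 6) 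
(.lf (nat_lit 136740) (.g (nat_lit 1764) (.e (nat_lit 16487) (nat_lit 27) (.e (nat_lit 336203) (nat_lit 12) (.e (nat_lit 392960) (nat_lit 24) (.e (nat_lit 516160) (nat_lit 10) (.e (nat_lit 442112) (nat_lit 2) .nil))))) (.g (nat_lit 4) .nil .nil))) 
(.lf (nat_lit 136804) (.g (nat_lit 1655) (.e (nat_lit 24320) (nat_lit 34) (.e (nat_lit 393283) (nat_lit 24) (.e (nat_lit 434247) (nat_lit 28) (.e (nat_lit 573477) (nat_lit 12) (.e (nat_lit 57509) (nat_lit 39) .nil))))) .nil)))) (.nd (nat_lit 5) (.nd (nat_lit 6) 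
(.lf (nat_lit 136724) (.g (nat_lit 1873) (.e (nat_lit 16487) (nat_lit 27) (.e (nat_lit 336196) (nat_lit 12) (.e (nat_lit 385057) (nat_lit 22) (.e (nat_lit 499780) (nat_lit 1) (.e (nat_lit 57808) (nat_lit 246) (.e (nat_lit 57895) (nat_lit 272) .nil)))))) (.g (nat_lit 0) .nil .nil))) 
(.lf (nat_lit 136788) (.g (nat_lit 747) (.e (nat_lit 24320) (nat_lit 34) (.e (nat_lit 393272) (nat_lit 23) (.e (nat_lit 426436) (nat_lit 18) (.e (nat_lit 106240) (nat_lit 2) .nil)))) .nil))) (.nd (nat_lit 6) 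
(.lf (nat_lit 136756) (.g (nat_lit 1030) (.e (nat_lit 24320) (nat_lit 29) (.e (nat_lit 352315) (nat_lit 23) (.e (nat_lit 98309) (nat_lit 0) (.e (nat_lit 6209) (nat_lit 333) (.e (nat_lit 65280) (nat_lit 272) .nil))))) .nil)) 
(.lf (nat_lit 136820) (.g (nat_lit 424) (.e (nat_lit 24320) (nat_lit 34) (.e (nat_lit 393294) (nat_lit 26) (.e (nat_lit 475177) (nat_lit 24) .nil))) .nil))))) (.nd (nat_lit 4) (.nd (nat_lit 5) (.nd (nat_lit 6) 
(.lf (nat_lit 136716) (.g (nat_lit 1383) (.e (nat_lit 16487) (nat_lit 27) (.e (nat_lit 336150) (nat_lit 9) (.e (nat_lit 336319) (nat_lit 17) (.e (nat_lit 196698) (nat_lit 19) (.e (nat_lit 57808) (nat_lit 246) (.e (nat_lit 57895) (nat_lit 272) .nil)))))) (.g (nat_lit 0) .nil .nil))) 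
(.lf (nat_lit 136780) (.g (nat_lit 851) (.e (nat_lit 24320) (nat_lit 34) (.e (nat_lit 393270) (nat_lit 23) (.e (nat_lit 426436) (nat_lit 18) (.e (nat_lit 106240) (nat_lit 2) .nil)))) .nil))) (.nd (nat_lit 6) 
(.lf (nat_lit 136748) (.g (nat_lit 126) (.e (nat_lit 24320) (nat_lit 29) (.e (nat_lit 352283) (nat_lit 20) (.e (nat_lit 1879) (nat_lit 126) .nil))) .nil)) 
(.lf (nat_lit 136812) (.g (nat_lit 1151) (.e (nat_lit 24320) (nat_lit 34) (.e (nat_lit 393284) (nat_lit 24) (.e (nat_lit 434248) (nat_lit 28) (.e (nat_lit 573473) (nat_lit 12) .nil)))) .nil)))) (.nd (nat_lit 5) (.nd (nat_lit 6) 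
(.lf (nat_lit 136732) (.g (nat_lit 2044) (.e (nat_lit 16487) (nat_lit 27) (.e (nat_lit 336202) (nat_lit 12) (.e (nat_lit 385057) (nat_lit 22) (.e (nat_lit 499780) (nat_lit 1) (.e (nat_lit 57813) (nat_lit 246) (.e (nat_lit 57895) (nat_lit 272) .nil)))))) (.g (nat_lit 0) .nil .nil))) 
(.lf (nat_lit 136796) (.g (nat_lit 896) (.e (nat_lit 24320) (nat_lit 34) (.e (nat_lit 393282) (nat_lit 24) (.e (nat_lit 434247) (nat_lit 28) (.e (nat_lit 573478) (nat_lit 12) .nil)))) .nil))) (.nd (nat_lit 6) 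
(.lf (nat_lit 136764) (.g (nat_lit 630) (.e (nat_lit 24320) (nat_lit 30) (.e (nat_lit 360477) (nat_lit 11) (.e (nat_lit 581652) (nat_lit 5) (.e (nat_lit 188160) (nat_lit 34) .nil)))) .nil)) 
(.lf (nat_lit 136828) (.g (nat_lit 1431) (.e (nat_lit 24320) (nat_lit 34) (.e (nat_lit 393299) (nat_lit 27) (.e (nat_lit 491526) (nat_lit 0) (.e (nat_lit 1774) (nat_lit 118) .nil)))) .nil))))))) (.nd (nat_lit 2) (.nd (nat_lit 3) (.nd (nat_lit 4) (.nd (nat_lit 5) (.nd (nat_lit 6) 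
(.lf (nat_lit 136706) (.g (nat_lit 1405) (.e (nat_lit 16487) (nat_lit 27) (.e (nat_lit 336086) (nat_lit 9) (.e (nat_lit 336019) (nat_lit 3) (.e (nat_lit 98309) (nat_lit 0) .nil)))) .nil)) 
(.lf (nat_lit 136770) (.g (nat_lit 1514) (.e (nat_lit 24320) (nat_lit 34) (.e (nat_lit 393260) (nat_lit 21) (.e (nat_lit 409616) (nat_lit 10) (.e (nat_lit 604) (nat_lit 45) .nil)))) .nil))) (.nd (nat_lit 6) 
(.lf (nat_lit 136738) (.g (nat_lit 2035) (.e (nat_lit 16487) (nat_lit 27) (.e (nat_lit 336203) (nat_lit 12) (.e (nat_lit 385057) (nat_lit 22) (.e (nat_lit 499780) (nat_lit 1) (.e (nat_lit 57816) (nat_lit 246) (.e (nat_lit 57895) (nat_lit 272) .nil)))))) (.g (nat_lit 0) .nil .nil))) 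
(.lf (nat_lit 136802) (.g (nat_lit 1178) (.e (nat_lit 24320) (nat_lit 34) (.e (nat_lit 393283) (nat_lit 24) (.e (nat_lit 434245) (nat_lit 28) (.e (nat_lit 573474) (nat_lit 12) .nil)))) .nil)))) (.nd (nat_lit 5) (.nd (nat_lit 6) 
(.lf (nat_lit 136722) (.g (nat_lit 1419) (.e (nat_lit 16487) (nat_lit 27) (.e (nat_lit 336150) (nat_lit 9) (.e (nat_lit 336319) (nat_lit 17) (.e (nat_lit 196698) (nat_lit 19) (.e (nat_lit 57815) (nat_lit 246) (.e (nat_lit 57895) (nat_lit 272) .nil)))))) (.g (nat_lit 0) .nil .nil))) 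
(.lf (nat_lit 136786) (.g (nat_lit 1006) (.e (nat_lit 24320) (nat_lit 34) (.e (nat_lit 393271) (nat_lit 23) (.e (nat_lit 426438) (nat_lit 18) (.e (nat_lit 106240) (nat_lit 2) .nil)))) .nil))) (.nd (nat_lit 6) 
(.lf (nat_lit 136754) (.g (nat_lit 411) (.e (nat_lit 24320) (nat_lit 29) (.e (nat_lit 352315) (nat_lit 23) (.e (nat_lit 98309) (nat_lit 0) .nil))) .nil)) 
(.lf (nat_lit 136818) (.g (nat_lit 785) (.e (nat_lit 24320) (nat_lit 34) (.e (nat_lit 393292) (nat_lit 26) (.e (nat_lit 475177) (nat_lit 24) (.e (nat_lit 524032) (nat_lit 19) .nil)))) .nil))))) (.nd (nat_lit 4) (.nd (nat_lit 5) (.nd (nat_lit 6) 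
(.lf (nat_lit 136714) (.g (nat_lit 1536) (.e (nat_lit 16487) (nat_lit 27) (.e (nat_lit 336088) (nat_lit 9) (.e (nat_lit 336019) (nat_lit 3) (.e (nat_lit 98308) (nat_lit 0) .nil)))) .nil)) 
(.lf (nat_lit 136778) (.g (nat_lit 1392) (.e (nat_lit 24320) (nat_lit 34) (.e (nat_lit 393268) (nat_lit 23) (.e (nat_lit 426438) (nat_lit 18) (.e (nat_lit 98323) (nat_lit 17) .nil)))) .nil))) (.nd (nat_lit 6) 
(.lf (nat_lit 136746) (.g (nat_lit 281) (.e (nat_lit 24320) (nat_lit 29) (.e (nat_lit 352269) (nat_lit 7) (.e (nat_lit 245777) (nat_lit 5) (.e (nat_lit 188160) (nat_lit 34) .nil)))) .nil)) 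
(.lf (nat_lit 136810) (.g (nat_lit 1378) (.e (nat_lit 24320) (nat_lit 34) (.e (nat_lit 393284) (nat_lit 24) (.e (nat_lit 434247) (nat_lit 28) (.e (nat_lit 573477) (nat_lit 12) (.e (nat_lit 57509) (nat_lit 39) .nil))))) .nil)))) (.nd (nat_lit 5) (.nd (nat_lit 6) 
(.lf (nat_lit 136730) (.g (nat_lit 471) (.e (nat_lit 16487) (nat_lit 27) (.e (nat_lit 336196) (nat_lit 12) (.e (nat_lit 392960) (nat_lit 24) .nil))) .nil)) 
(.lf (nat_lit 136794) (.g (nat_lit 815) (.e (nat_lit 24320) (nat_lit 34) (.e (nat_lit 393282) (nat_lit 24) (.e (nat_lit 434227) (nat_lit 20) (.e (nat_lit 507918) (nat_lit 3) .nil)))) .nil))) (.nd (nat_lit 6) 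
(.lf (nat_lit 136762) (.g (nat_lit 109) (.e (nat_lit 24320) (nat_lit 30) (.e (nat_lit 360470) (nat_lit 6) (.e (nat_lit 540723) (nat_lit 27) (.e (nat_lit 442112) (nat_lit 2) .nil)))) .nil)) 
(.lf (nat_lit 136826) (.g (nat_lit 1460) (.e (nat_lit 24320) (nat_lit 34) (.e (nat_lit 393296) (nat_lit 26) (.e (nat_lit 475179) (nat_lit 24) (.e (nat_lit 516102) (nat_lit 0) .nil)))) .nil)))))) (.nd (nat_lit 3) (.nd (nat_lit 4) (.nd (nat_lit 5) (.nd (nat_lit 6) 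
(.lf (nat_lit 136710) (.g (nat_lit 2295) (.e (nat_lit 16487) (nat_lit 27) (.e (nat_lit 336086) (nat_lit 9) (.e (nat_lit 336320) (nat_lit 17) (.e (nat_lit 196698) (nat_lit 19) (.e (nat_lit 57815) (nat_lit 246) (.e (nat_lit 57895) (nat_lit 272) .nil)))))) (.g (nat_lit 0) .nil .nil))) 
(.lf (nat_lit 136774) (.g (nat_lit 1453) (.e (nat_lit 24320) (nat_lit 34) (.e (nat_lit 393268) (nat_lit 23) (.e (nat_lit 426428) (nat_lit 17) (.e (nat_lit 90125) (nat_lit 9) .nil)))) .nil))) (.nd (nat_lit 6) 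
(.lf (nat_lit 136742) (.g (nat_lit 1626) (.e (nat_lit 16487) (nat_lit 27) (.e (nat_lit 336231) (nat_lit 14) (.e (nat_lit 409344) (nat_lit 17) (.e (nat_lit 90172) (nat_lit 14) (.e (nat_lit 188160) (nat_lit 34) .nil))))) (.g (nat_lit 4) .nil .nil))) 
(.lf (nat_lit 136806) (.g (nat_lit 2379) (.e (nat_lit 24320) (nat_lit 34) (.e (nat_lit 393283) (nat_lit 24) (.e (nat_lit 434248) (nat_lit 28) (.e (nat_lit 573473) (nat_lit 12) (.e (nat_lit 57511) (nat_lit 39) .nil))))) .nil)))) (.nd (nat_lit 5) (.nd (nat_lit 6) 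
(.lf (nat_lit 136726) (.g (nat_lit 1902) (.e (nat_lit 16487) (nat_lit 27) (.e (nat_lit 336196) (nat_lit 12) (.e (nat_lit 385057) (nat_lit 22) (.e (nat_lit 499780) (nat_lit 1) (.e (nat_lit 57810) (nat_lit 246) (.e (nat_lit 57895) (nat_lit 272) .nil)))))) (.g (nat_lit 0) .nil .nil))) 
(.lf (nat_lit 136790) (.g (nat_lit 610) (.e (nat_lit 24320) (nat_lit 34) (.e (nat_lit 393273) (nat_lit 23) (.e (nat_lit 426434) (nat_lit 18) (.e (nat_lit 106240) (nat_lit 2) .nil)))) .nil))) (.nd (nat_lit 6) 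
(.lf (nat_lit 136758) (.g (nat_lit 778) (.e (nat_lit 24320) (nat_lit 29) (.e (nat_lit 352315) (nat_lit 23) (.e (nat_lit 98309) (nat_lit 0) (.e (nat_lit 6217) (nat_lit 333) (.e (nat_lit 65280) (nat_lit 272) .nil))))) .nil)) 
(.lf (nat_lit 136822) (.g (nat_lit 846) (.e (nat_lit 24320) (nat_lit 34) (.e (nat_lit 393295) (nat_lit 26) (.e (nat_lit 475177) (nat_lit 24) (.e (nat_lit 524032) (nat_lit 19) .nil)))) .nil))))) (.nd (nat_lit 4) (.nd (nat_lit 5) (.nd (nat_lit 6) 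
(.lf (nat_lit 136718) (.g (nat_lit 1430) (.e (nat_lit 16487) (nat_lit 27) (.e (nat_lit 336150) (nat_lit 9) (.e (nat_lit 336319) (nat_lit 17) (.e (nat_lit 196698) (nat_lit 19) (.e (nat_lit 57810) (nat_lit 246) (.e (nat_lit 57895) (nat_lit 272) .nil)))))) (.g (nat_lit 0) .nil .nil))) 
(.lf (nat_lit 136782) (.g (nat_lit 872) (.e (nat_lit 24320) (nat_lit 34) (.e (nat_lit 393271) (nat_lit 23) (.e (nat_lit 425986) (nat_lit 0) .nil))) .nil))) (.nd (nat_lit 6) 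
(.lf (nat_lit 136750) (.g (nat_lit 92) (.e (nat_lit 24320) (nat_lit 29) (.e (nat_lit 352312) (nat_lit 22) (.e (nat_lit 98048) (nat_lit 2) .nil))) .nil)) 
(.lf (nat_lit 136814) (.g (nat_lit 2242) (.e (nat_lit 24320) (nat_lit 34) (.e (nat_lit 393284) (nat_lit 24) (.e (nat_lit 434248) (nat_lit 28) (.e (nat_lit 573475) (nat_lit 12) (.e (nat_lit 57507) (nat_lit 39) .nil))))) .nil)))) (.nd (nat_lit 5) (.nd (nat_lit 6) 
(.lf (nat_lit 136734) (.g (nat_lit 2029) (.e (nat_lit 16487) (nat_lit 27) (.e (nat_lit 336203) (nat_lit 12) (.e (nat_lit 385057) (nat_lit 22) (.e (nat_lit 499780) (nat_lit 1) (.e (nat_lit 57809) (nat_lit 246) (.e (nat_lit 57895) (nat_lit 272) .nil)))))) (.g (nat_lit 0) .nil .nil))) 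
(.lf (nat_lit 136798) (.g (nat_lit 482) (.e (nat_lit 24320) (nat_lit 34) (.e (nat_lit 393283) (nat_lit 24) (.e (nat_lit 434227) (nat_lit 20) .nil))) .nil))) (.nd (nat_lit 6) 
(.lf (nat_lit 136766) (.g (nat_lit 673) (.e (nat_lit 24320) (nat_lit 32) (.e (nat_lit 376862) (nat_lit 22) (.e (nat_lit 90155) (nat_lit 10) .nil))) .nil)) 
(.lf (nat_lit 136830) (.g (nat_lit 1710) (.e (nat_lit 24320) (nat_lit 34) (.e (nat_lit 393301) (nat_lit 27) (.e (nat_lit 491535) (nat_lit 2) (.e (nat_lit 90187) (nat_lit 18) .nil)))) .nil)))))))) (.nd (nat_lit 1) (.nd (nat_lit 2) (.nd (nat_lit 3) (.nd (nat_lit 4) (.nd (nat_lit 5) (.nd (nat_lit 6) 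
(.lf (nat_lit 136705) (.g (nat_lit 1935) (.e (nat_lit 16487) (nat_lit 27) (.e (nat_lit 336085) (nat_lit 9) (.e (nat_lit 336320) (nat_lit 17) (.e (nat_lit 196698) (nat_lit 19) (.e (nat_lit 57816) (nat_lit 246) (.e (nat_lit 57895) (nat_lit 272) .nil)))))) (.g (nat_lit 0) .nil .nil))) 
(.lf (nat_lit 136769) (.g (nat_lit 995) (.e (nat_lit 24320) (nat_lit 34) (.e (nat_lit 393259) (nat_lit 21) (.e (nat_lit 409617) (nat_lit 10) (.e (nat_lit 604) (nat_lit 45) .nil)))) .nil))) (.nd (nat_lit 6) 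
(.lf (nat_lit 136737) (.g (nat_lit 2029) (.e (nat_lit 16487) (nat_lit 27) (.e (nat_lit 336203) (nat_lit 12) (.e (nat_lit 385057) (nat_lit 22) (.e (nat_lit 499780) (nat_lit 1) (.e (nat_lit 57813) (nat_lit 246) (.e (nat_lit 57895) (nat_lit 272) .nil)))))) (.g (nat_lit 0) .nil .nil))) 
(.lf (nat_lit 136801) (.g (nat_lit 499) (.e (nat_lit 24320) (nat_lit 34) (.e (nat_lit 393283) (nat_lit 24) (.e (nat_lit 434245) (nat_lit 28) .nil))) .nil)))) (.nd (nat_lit 5) (.nd (nat_lit 6) 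
(.lf (nat_lit 136721) (.g (nat_lit 1427) (.e (nat_lit 16487) (nat_lit 27) (.e (nat_lit 336150) (nat_lit 9) (.e (nat_lit 336319) (nat_lit 17) (.e (nat_lit 196698) (nat_lit 19) (.e (nat_lit 57814) (nat_lit 246) (.e (nat_lit 57895) (nat_lit 272) .nil)))))) (.g (nat_lit 0) .nil .nil))) 
(.lf (nat_lit 136785) (.g (nat_lit 1354) (.e (nat_lit 24320) (nat_lit 34) (.e (nat_lit 393271) (nat_lit 23) (.e (nat_lit 426436) (nat_lit 18) (.e (nat_lit 106240) (nat_lit 2) .nil)))) .nil))) (.nd (nat_lit 6) 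
(.lf (nat_lit 136753) (.g (nat_lit 534) (.e (nat_lit 24320) (nat_lit 29) (.e (nat_lit 352313) (nat_lit 23) (.e (nat_lit 98309) (nat_lit 0) (.e (nat_lit 6217) (nat_lit 333) (.e (nat_lit 65280) (nat_lit 272) .nil))))) .nil)) 
(.lf (nat_lit 136817) (.g (nat_lit 1329) (.e (nat_lit 24320) (nat_lit 34) (.e (nat_lit 393291) (nat_lit 26) (.e (nat_lit 475177) (nat_lit 24) (.e (nat_lit 524032) (nat_lit 19) .nil)))) .nil))))) (.nd (nat_lit 4) (.nd (nat_lit 5) (.nd (nat_lit 6) 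
(.lf (nat_lit 136713) (.g (nat_lit 1159) (.e (nat_lit 16487) (nat_lit 27) (.e (nat_lit 336087) (nat_lit 9) (.e (nat_lit 336320) (nat_lit 17) (.e (nat_lit 196698) (nat_lit 19) .nil)))) .nil)) 
(.lf (nat_lit 136777) (.g (nat_lit 1208) (.e (nat_lit 24320) (nat_lit 34) (.e (nat_lit 393268) (nat_lit 23) (.e (nat_lit 426438) (nat_lit 18) (.e (nat_lit 106240) (nat_lit 2) .nil)))) .nil))) (.nd (nat_lit 6) 
(.lf (nat_lit 136745) (.g (nat_lit 604) (.e (nat_lit 16487) (nat_lit 27) (.e (nat_lit 336232) (nat_lit 14) (.e (nat_lit 409344) (nat_lit 18) .nil))) .nil)) 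
(.lf (nat_lit 136809) (.g (nat_lit 899) (.e (nat_lit 24320) (nat_lit 34) (.e (nat_lit 393284) (nat_lit 24) (.e (nat_lit 434245) (nat_lit 28) (.e (nat_lit 573474) (nat_lit 12) .nil)))) .nil)))) (.nd (nat_lit 5) (.nd (nat_lit 6) 
(.lf (nat_lit 136729) (.g (nat_lit 1916) (.e (nat_lit 16487) (nat_lit 27) (.e (nat_lit 336196) (nat_lit 12) (.e (nat_lit 385057) (nat_lit 22) (.e (nat_lit 499780) (nat_lit 1) (.e (nat_lit 57816) (nat_lit 246) (.e (nat_lit 57895) (nat_lit 272) .nil)))))) (.g (nat_lit 0) .nil .nil))) 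
(.lf (nat_lit 136793) (.g (nat_lit 1226) (.e (nat_lit 24320) (nat_lit 34) (.e (nat_lit 393273) (nat_lit 23) (.e (nat_lit 426438) (nat_lit 18) (.e (nat_lit 106240) (nat_lit 2) .nil)))) .nil))) (.nd (nat_lit 6) 
(.lf (nat_lit 136761) (.g (nat_lit 344) (.e (nat_lit 24320) (nat_lit 30) (.e (nat_lit 360467) (nat_lit 3) (.e (nat_lit 516191) (nat_lit 17) .nil))) .nil)) 
(.lf (nat_lit 136825) (.g (nat_lit 906) (.e (nat_lit 24320) (nat_lit 34) (.e (nat_lit 393296) (nat_lit 26) (.e (nat_lit 475178) (nat_lit 24) (.e (nat_lit 524032) (nat_lit 19) .nil)))) .nil)))))) (.nd (nat_lit 3) (.nd (nat_lit 4) (.nd (nat_lit 5) (.nd (nat_lit 6) 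
(.lf (nat_lit 136709) (.g (nat_lit 2302) (.e (nat_lit 16487) (nat_lit 27) (.e (nat_lit 336086) (nat_lit 9) (.e (nat_lit 336320) (nat_lit 17) (.e (nat_lit 196698) (nat_lit 19) (.e (nat_lit 57814) (nat_lit 246) (.e (nat_lit 57895) (nat_lit 272) .nil)))))) (.g (nat_lit 0) .nil .nil))) 
(.lf (nat_lit 136773) (.g (nat_lit 340) (.e (nat_lit 24320) (nat_lit 34) (.e (nat_lit 393263) (nat_lit 22) (.e (nat_lit 417805) (nat_lit 2) .nil))) .nil))) (.nd (nat_lit 6) 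
(.lf (nat_lit 136741) (.g (nat_lit 1456) (.e (nat_lit 16487) (nat_lit 27) (.e (nat_lit 336229) (nat_lit 14) (.e (nat_lit 409344) (nat_lit 17) (.e (nat_lit 90172) (nat_lit 14) (.e (nat_lit 188160) (nat_lit 34) .nil))))) (.g (nat_lit 4) .nil .nil))) 
(.lf (nat_lit 136805) (.g (nat_lit 1103) (.e (nat_lit 24320) (nat_lit 34) (.e (nat_lit 393283) (nat_lit 24) (.e (nat_lit 434247) (nat_lit 28) (.e (nat_lit 573478) (nat_lit 12) .nil)))) .nil)))) (.nd (nat_lit 5) (.nd (nat_lit 6) 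
(.lf (nat_lit 136725) (.g (nat_lit 1909) (.e (nat_lit 16487) (nat_lit 27) (.e (nat_lit 336196) (nat_lit 12) (.e (nat_lit 385057) (nat_lit 22) (.e (nat_lit 499780) (nat_lit 1) (.e (nat_lit 57809) (nat_lit 246) (.e (nat_lit 57895) (nat_lit 272) .nil)))))) (.g (nat_lit 0) .nil .nil))) 
(.lf (nat_lit 136789) (.g (nat_lit 613) (.e (nat_lit 24320) (nat_lit 34) (.e (nat_lit 393273) (nat_lit 23) (.e (nat_lit 426428) (nat_lit 17) .nil))) .nil))) (.nd (nat_lit 6) 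
(.lf (nat_lit 136757) (.g (nat_lit 874) (.e (nat_lit 24320) (nat_lit 29) (.e (nat_lit 352315) (nat_lit 23) (.e (nat_lit 98309) (nat_lit 0) (.e (nat_lit 6216) (nat_lit 333) (.e (nat_lit 65280) (nat_lit 272) .nil))))) .nil)) 
(.lf (nat_lit 136821) (.g (nat_lit 1633) (.e (nat_lit 24320) (nat_lit 34) (.e (nat_lit 393294) (nat_lit 26) (.e (nat_lit 475177) (nat_lit 24) (.e (nat_lit 524032) (nat_lit 19) .nil)))) .nil))))) (.nd (nat_lit 4) (.nd (nat_lit 5) (.nd (nat_lit 6) 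
(.lf (nat_lit 136717) (.g (nat_lit 1395) (.e (nat_lit 16487) (nat_lit 27) (.e (nat_lit 336150) (nat_lit 9) (.e (nat_lit 336319) (nat_lit 17) (.e (nat_lit 196698) (nat_lit 19) (.e (nat_lit 57809) (nat_lit 246) (.e (nat_lit 57895) (nat_lit 272) .nil)))))) (.g (nat_lit 0) .nil .nil))) 
(.lf (nat_lit 136781) (.g (nat_lit 1027) (.e (nat_lit 24320) (nat_lit 34) (.e (nat_lit 393270) (nat_lit 23) (.e (nat_lit 426438) (nat_lit 18) (.e (nat_lit 106240) (nat_lit 2) .nil)))) .nil))) (.nd (nat_lit 6) 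
(.lf (nat_lit 136749) (.g (nat_lit 240) (.e (nat_lit 24320) (nat_lit 29) (.e (nat_lit 352312) (nat_lit 22) (.e (nat_lit 98048) (nat_lit 0) (.e (nat_lit 473) (nat_lit 36) (.e (nat_lit 466688) (nat_lit 2) .nil))))) .nil)) 
(.lf (nat_lit 136813) (.g (nat_lit 1942) (.e (nat_lit 24320) (nat_lit 34) (.e (nat_lit 393284) (nat_lit 24) (.e (nat_lit 434248) (nat_lit 28) (.e (nat_lit 573473) (nat_lit 12) (.e (nat_lit 57511) (nat_lit 39) .nil))))) .nil)))) (.nd (nat_lit 5) (.nd (nat_lit 6) 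
(.lf (nat_lit 136733) (.g (nat_lit 1981) (.e (nat_lit 16487) (nat_lit 27) (.e (nat_lit 336203) (nat_lit 12) (.e (nat_lit 385057) (nat_lit 22) (.e (nat_lit 499780) (nat_lit 1) (.e (nat_lit 57808) (nat_lit 246) (.e (nat_lit 57895) (nat_lit 272) .nil)))))) (.g (nat_lit 0) .nil .nil))) 
(.lf (nat_lit 136797) (.g (nat_lit 288) (.e (nat_lit 24320) (nat_lit 34) (.e (nat_lit 393282) (nat_lit 24) (.e (nat_lit 434248) (nat_lit 28) .nil))) .nil))) (.nd (nat_lit 6) 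
(.lf (nat_lit 136765) (.g (nat_lit 489) (.e (nat_lit 24320) (nat_lit 30) (.e (nat_lit 360477) (nat_lit 11) (.e (nat_lit 589568) (nat_lit 19) .nil))) .nil)) 
(.lf (nat_lit 136829) (.g (nat_lit 1628) (.e (nat_lit 24320) (nat_lit 34) (.e (nat_lit 393301) (nat_lit 27) (.e (nat_lit 491526) (nat_lit 0) (.e (nat_lit 1774) (nat_lit 118) (.e (nat_lit 507940) (nat_lit 13) .nil))))) .nil))))))) (.nd (nat_lit 2) (.nd (nat_lit 3) (.nd (nat_lit 4) (.nd (nat_lit 5) (.nd (nat_lit 6) 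
(.lf (nat_lit 136707) (.g (nat_lit 481) (.e (nat_lit 16487) (nat_lit 27) (.e (nat_lit 336086) (nat_lit 9) (.e (nat_lit 336315) (nat_lit 17) .nil))) .nil)) 
(.lf (nat_lit 136771) (.g (nat_lit 1520) (.e (nat_lit 24320) (nat_lit 34) (.e (nat_lit 393260) (nat_lit 21) (.e (nat_lit 409617) (nat_lit 10) (.e (nat_lit 604) (nat_lit 45) .nil)))) .nil))) (.nd (nat_lit 6) 
(.lf (nat_lit 136739) (.g (nat_lit 608) (.e (nat_lit 16487) (nat_lit 27) (.e (nat_lit 336203) (nat_lit 12) (.e (nat_lit 385062) (nat_lit 23) .nil))) .nil)) 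
(.lf (nat_lit 136803) (.g (nat_lit 335) (.e (nat_lit 24320) (nat_lit 34) (.e (nat_lit 393283) (nat_lit 24) (.e (nat_lit 434247) (nat_lit 28) .nil))) .nil)))) (.nd (nat_lit 5) (.nd (nat_lit 6) 
(.lf (nat_lit 136723) (.g (nat_lit 1422) (.e (nat_lit 16487) (nat_lit 27) (.e (nat_lit 336150) (nat_lit 9) (.e (nat_lit 336319) (nat_lit 17) (.e (nat_lit 196698) (nat_lit 19) (.e (nat_lit 57816) (nat_lit 246) (.e (nat_lit 57895) (nat_lit 272) .nil)))))) (.g (nat_lit 0) .nil .nil))) 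
(.lf (nat_lit 136787) (.g (nat_lit 342) (.e (nat_lit 24320) (nat_lit 34) (.e (nat_lit 393272) (nat_lit 23) (.e (nat_lit 426434) (nat_lit 18) (.e (nat_lit 106240) (nat_lit 2) .nil)))) .nil))) (.nd (nat_lit 6) 
(.lf (nat_lit 136755) (.g (nat_lit 1203) (.e (nat_lit 24320) (nat_lit 29) (.e (nat_lit 352315) (nat_lit 23) (.e (nat_lit 98309) (nat_lit 0) (.e (nat_lit 6207) (nat_lit 333) (.e (nat_lit 65280) (nat_lit 272) .nil))))) .nil)) 
(.lf (nat_lit 136819) (.g (nat_lit 1042) (.e (nat_lit 24320) (nat_lit 34) (.e (nat_lit 393293) (nat_lit 26) (.e (nat_lit 475177) (nat_lit 24) (.e (nat_lit 524032) (nat_lit 19) .nil)))) .nil))))) (.nd (nat_lit 4) (.nd (nat_lit 5) (.nd (nat_lit 6) 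
(.lf (nat_lit 136715) (.g (nat_lit 443) (.e (nat_lit 16487) (nat_lit 27) (.e (nat_lit 336088) (nat_lit 9) (.e (nat_lit 343808) (nat_lit 17) .nil))) .nil)) 
(.lf (nat_lit 136779) (.g (nat_lit 270) (.e (nat_lit 24320) (nat_lit 34) (.e (nat_lit 393270) (nat_lit 23) (.e (nat_lit 426434) (nat_lit 18) .nil))) .nil))) (.nd (nat_lit 6) 
(.lf (nat_lit 136747) (.g (nat_lit 218) (.e (nat_lit 24320) (nat_lit 29) (.e (nat_lit 352283) (nat_lit 20) (.e (nat_lit 1878) (nat_lit 126) (.e (nat_lit 581376) (nat_lit 19) .nil)))) .nil)) 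
(.lf (nat_lit 136811) (.g (nat_lit 891) (.e (nat_lit 24320) (nat_lit 34) (.e (nat_lit 393284) (nat_lit 24) (.e (nat_lit 434247) (nat_lit 28) (.e (nat_lit 573478) (nat_lit 12) .nil)))) .nil)))) (.nd (nat_lit 5) (.nd (nat_lit 6) 
(.lf (nat_lit 136731) (.g (nat_lit 1403) (.e (nat_lit 16487) (nat_lit 27) (.e (nat_lit 336196) (nat_lit 12) (.e (nat_lit 392960) (nat_lit 24) (.e (nat_lit 516160) (nat_lit 10) (.e (nat_lit 442112) (nat_lit 2) .nil))))) (.g (nat_lit 4) .nil .nil))) 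
(.lf (nat_lit 136795) (.g (nat_lit 288) (.e (nat_lit 24320) (nat_lit 34) (.e (nat_lit 393282) (nat_lit 24) (.e (nat_lit 434245) (nat_lit 28) .nil))) .nil))) (.nd (nat_lit 6) 
(.lf (nat_lit 136763) (.g (nat_lit 1579) (.e (nat_lit 24320) (nat_lit 30) (.e (nat_lit 360475) (nat_lit 8) (.e (nat_lit 557119) (nat_lit 18) (.e (nat_lit 7936) (nat_lit 157) .nil)))) .nil)) 
(.lf (nat_lit 136827) (.g (nat_lit 1114) (.e (nat_lit 24320) (nat_lit 34) (.e (nat_lit 393296) (nat_lit 26) (.e (nat_lit 475179) (nat_lit 24) (.e (nat_lit 524032) (nat_lit 19) .nil)))) .nil)))))) (.nd (nat_lit 3) (.nd (nat_lit 4) (.nd (nat_lit 5) (.nd (nat_lit 6) 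
(.lf (nat_lit 136711) (.g (nat_lit 2287) (.e (nat_lit 16487) (nat_lit 27) (.e (nat_lit 336086) (nat_lit 9) (.e (nat_lit 336320) (nat_lit 17) (.e (nat_lit 196698) (nat_lit 19) (.e (nat_lit 57816) (nat_lit 246) (.e (nat_lit 57895) (nat_lit 272) .nil)))))) (.g (nat_lit 0) .nil .nil))) 
(.lf (nat_lit 136775) (.g (nat_lit 1468) (.e (nat_lit 24320) (nat_lit 34) (.e (nat_lit 393268) (nat_lit 23) (.e (nat_lit 426428) (nat_lit 17) (.e (nat_lit 90153) (nat_lit 10) .nil)))) .nil))) (.nd (nat_lit 6) 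
(.lf (nat_lit 136743) (.g (nat_lit 548) (.e (nat_lit 16487) (nat_lit 27) (.e (nat_lit 336231) (nat_lit 14) (.e (nat_lit 409344) (nat_lit 18) .nil))) .nil)) 
(.lf (nat_lit 136807) (.g (nat_lit 2663) (.e (nat_lit 24320) (nat_lit 34) (.e (nat_lit 393283) (nat_lit 24) (.e (nat_lit 434248) (nat_lit 28) (.e (nat_lit 573475) (nat_lit 12) (.e (nat_lit 57508) (nat_lit 39) .nil))))) .nil)))) (.nd (nat_lit 5) (.nd (nat_lit 6) 
(.lf (nat_lit 136727) (.g (nat_lit 1921) (.e (nat_lit 16487) (nat_lit 27) (.e (nat_lit 336196) (nat_lit 12) (.e (nat_lit 385057) (nat_lit 22) (.e (nat_lit 499780) (nat_lit 1) (.e (nat_lit 57811) (nat_lit 246) (.e (nat_lit 57895) (nat_lit 272) .nil)))))) (.g (nat_lit 0) .nil .nil))) 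
(.lf (nat_lit 136791) (.g (nat_lit 1109) (.e (nat_lit 24320) (nat_lit 34) (.e (nat_lit 393273) (nat_lit 23) (.e (nat_lit 426436) (nat_lit 18) (.e (nat_lit 106240) (nat_lit 2) .nil)))) .nil))) (.nd (nat_lit 6) 
(.lf (nat_lit 136759) (.g (nat_lit 2119) (.e (nat_lit 24320) (nat_lit 30) (.e (nat_lit 360466) (nat_lit 3) (.e (nat_lit 516115) (nat_lit 1) (.e (nat_lit 164179) (nat_lit 154) (.e (nat_lit 57346) (nat_lit 0) .nil))))) .nil)) 
(.lf (nat_lit 136823) (.g (nat_lit 939) (.e (nat_lit 24320) (nat_lit 34) (.e (nat_lit 393296) (nat_lit 26) (.e (nat_lit 475176) (nat_lit 24) (.e (nat_lit 524032) (nat_lit 19) .nil)))) .nil))))) (.nd (nat_lit 4) (.nd (nat_lit 5) (.nd (nat_lit 6) 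
(.lf (nat_lit 136719) (.g (nat_lit 1458) (.e (nat_lit 16487) (nat_lit 27) (.e (nat_lit 336150) (nat_lit 9) (.e (nat_lit 336319) (nat_lit 17) (.e (nat_lit 196698) (nat_lit 19) (.e (nat_lit 57811) (nat_lit 246) (.e (nat_lit 57895) (nat_lit 272) .nil)))))) (.g (nat_lit 0) .nil .nil))) 
(.lf (nat_lit 136783) (.g (nat_lit 413) (.e (nat_lit 24320) (nat_lit 34) (.e (nat_lit 393271) (nat_lit 23) (.e (nat_lit 426428) (nat_lit 17) .nil))) .nil))) (.nd (nat_lit 6) 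
(.lf (nat_lit 136751) (.g (nat_lit 813) (.e (nat_lit 24320) (nat_lit 29) (.e (nat_lit 352313) (nat_lit 23) (.e (nat_lit 98309) (nat_lit 0) (.e (nat_lit 6209) (nat_lit 333) (.e (nat_lit 65280) (nat_lit 272) .nil))))) .nil)) 
(.lf (nat_lit 136815) (.g (nat_lit 2507) (.e (nat_lit 24320) (nat_lit 34) (.e (nat_lit 393284) (nat_lit 24) (.e (nat_lit 434248) (nat_lit 28) (.e (nat_lit 573475) (nat_lit 12) (.e (nat_lit 57508) (nat_lit 39) .nil))))) .nil)))) (.nd (nat_lit 5) (.nd (nat_lit 6) 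
(.lf (nat_lit 136735) (.g (nat_lit 2016) (.e (nat_lit 16487) (nat_lit 27) (.e (nat_lit 336203) (nat_lit 12) (.e (nat_lit 385057) (nat_lit 22) (.e (nat_lit 499780) (nat_lit 1) (.e (nat_lit 57810) (nat_lit 246) (.e (nat_lit 57895) (nat_lit 272) .nil)))))) (.g (nat_lit 0) .nil .nil))) 
(.lf (nat_lit 136799) (.g (nat_lit 1449) (.e (nat_lit 24320) (nat_lit 34) (.e (nat_lit 393283) (nat_lit 24) (.e (nat_lit 434244) (nat_lit 28) (.e (nat_lit 573473) (nat_lit 12) .nil)))) .nil))) (.nd (nat_lit 6) 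
(.lf (nat_lit 136767) (.g (nat_lit 441) (.e (nat_lit 24320) (nat_lit 32) (.e (nat_lit 376865) (nat_lit 22) (.e (nat_lit 90153) (nat_lit 10) .nil))) .nil)) 
(.lf (nat_lit 136831) (.g (nat_lit 1960) (.e (nat_lit 24576) (nat_lit 0) (.e (nat_lit 1788) (nat_lit 119) (.e (nat_lit 516151) (nat_lit 9) (.e (nat_lit 426286) (nat_lit 10) (.e (nat_lit 434247) (nat_lit 28) .nil))))) .nil)))))))))

noncomputable def tv1818 : DT := (.nd (nat_lit 0) (.nd (nat_lit 1) (.nd (nat_lit 2) (.nd (nat_lit 3) (.nd (nat_lit 4) (.nd (nat_lit 5) 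
(.lf (nat_lit 136832) (.g (nat_lit 488) (.e (nat_lit 24576) (nat_lit 0) (.e (nat_lit 1788) (nat_lit 119) (.e (nat_lit 516166) (nat_lit 12) .nil))) .nil)) 
(.lf (nat_lit 136864) (.g (nat_lit 2787) (.e (nat_lit 24580) (nat_lit 0) (.e (nat_lit 1820) (nat_lit 121) (.e (nat_lit 532515) (nat_lit 3) (.e (nat_lit 114715) (nat_lit 22) (.e (nat_lit 90170) (nat_lit 13) (.e (nat_lit 172062) (nat_lit 2) (.e (nat_lit 204544) (nat_lit 2) .nil))))))) (.g (nat_lit 5) .nil .nil)))) (.nd (nat_lit 5) 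
(.lf (nat_lit 136848) (.g (nat_lit 3035) (.e (nat_lit 24577) (nat_lit 0) (.e (nat_lit 6714) (nat_lit 360) (.e (nat_lit 163962) (nat_lit 25) (.e (nat_lit 532550) (nat_lit 12) (.e (nat_lit 360475) (nat_lit 8) (.e (nat_lit 557087) (nat_lit 11) .nil)))))) (.g (nat_lit 0) .nil .nil))) 
(.lf (nat_lit 136880) (.g (nat_lit 3276) (.e (nat_lit 24580) (nat_lit 0) (.e (nat_lit 1873) (nat_lit 126) (.e (nat_lit 573489) (nat_lit 14) (.e (nat_lit 73755) (nat_lit 8) (.e (nat_lit 557097) (nat_lit 13) (.e (nat_lit 172064) (nat_lit 2) (.e (nat_lit 204544) (nat_lit 2) .nil))))))) (.g (nat_lit 6) .nil .nil))))) (.nd (nat_lit 4) (.nd (nat_lit 5) 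
(.lf (nat_lit 136840) (.g (nat_lit 3358) (.e (nat_lit 24576) (nat_lit 0) (.e (nat_lit 1858) (nat_lit 124) (.e (nat_lit 557105) (nat_lit 14) (.e (nat_lit 180252) (nat_lit 10) (.e (nat_lit 573474) (nat_lit 12) .nil))))) .nil)) 
(.lf (nat_lit 136872) (.g (nat_lit 3947) (.e (nat_lit 24580) (nat_lit 0) (.e (nat_lit 1872) (nat_lit 126) (.e (nat_lit 573451) (nat_lit 9) (.e (nat_lit 1543) (nat_lit 109) (.e (nat_lit 344132) (nat_lit 26) (.e (nat_lit 557100) (nat_lit 13) (.e (nat_lit 172064) (nat_lit 2) (.e (nat_lit 204544) (nat_lit 2) .nil)))))))) (.g (nat_lit 7) .nil .nil)))) (.nd (nat_lit 5) 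
(.lf (nat_lit 136856) (.g (nat_lit 3417) (.e (nat_lit 24580) (nat_lit 0) (.e (nat_lit 1815) (nat_lit 121) (.e (nat_lit 532513) (nat_lit 3) (.e (nat_lit 114714) (nat_lit 22) (.e (nat_lit 90170) (nat_lit 13) (.e (nat_lit 172062) (nat_lit 2) (.e (nat_lit 204544) (nat_lit 2) .nil))))))) (.g (nat_lit 5) .nil .nil))) 
(.lf (nat_lit 136888) (.g (nat_lit 3434) (.e (nat_lit 24580) (nat_lit 0) (.e (nat_lit 1877) (nat_lit 126) (.e (nat_lit 573487) (nat_lit 14) (.e (nat_lit 73753) (nat_lit 8) (.e (nat_lit 557096) (nat_lit 13) (.e (nat_lit 172064) (nat_lit 2) (.e (nat_lit 204544) (nat_lit 2) .nil))))))) (.g (nat_lit 6) .nil .nil)))))) (.nd (nat_lit 3) (.nd (nat_lit 4) (.nd (nat_lit 5) 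
(.lf (nat_lit 136836) (.g (nat_lit 789) (.e (nat_lit 24576) (nat_lit 0) (.e (nat_lit 1858) (nat_lit 124) (.e (nat_lit 557105) (nat_lit 14) .nil))) .nil)) 
(.lf (nat_lit 136868) (.g (nat_lit 2862) (.e (nat_lit 24580) (nat_lit 0) (.e (nat_lit 1822) (nat_lit 121) (.e (nat_lit 532515) (nat_lit 3) (.e (nat_lit 114715) (nat_lit 22) (.e (nat_lit 90170) (nat_lit 13) (.e (nat_lit 172064) (nat_lit 2) (.e (nat_lit 204544) (nat_lit 2) .nil))))))) (.g (nat_lit 6) .nil .nil)))) (.nd (nat_lit 5) 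
(.lf (nat_lit 136852) (.g (nat_lit 3500) (.e (nat_lit 24579) (nat_lit 0) (.e (nat_lit 6712) (nat_lit 360) (.e (nat_lit 163962) (nat_lit 25) (.e (nat_lit 532550) (nat_lit 12) (.e (nat_lit 360475) (nat_lit 8) (.e (nat_lit 557087) (nat_lit 11) .nil)))))) (.g (nat_lit 0) .nil .nil))) 
(.lf (nat_lit 136884) (.g (nat_lit 4275) (.e (nat_lit 24580) (nat_lit 0) (.e (nat_lit 1875) (nat_lit 126) (.e (nat_lit 573451) (nat_lit 9) (.e (nat_lit 1543) (nat_lit 109) (.e (nat_lit 344133) (nat_lit 26) (.e (nat_lit 557098) (nat_lit 13) (.e (nat_lit 172064) (nat_lit 2) (.e (nat_lit 204544) (nat_lit 2) .nil)))))))) (.g (nat_lit 7) .nil .nil))))) (.nd (nat_lit 4) (.nd (nat_lit 5) 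
(.lf (nat_lit 136844) (.g (nat_lit 3230) (.e (nat_lit 24577) (nat_lit 0) (.e (nat_lit 6712) (nat_lit 360) (.e (nat_lit 163962) (nat_lit 25) (.e (nat_lit 532550) (nat_lit 12) (.e (nat_lit 360475) (nat_lit 8) (.e (nat_lit 557086) (nat_lit 11) .nil)))))) (.g (nat_lit 0) .nil .nil))) 
(.lf (nat_lit 136876) (.g (nat_lit 3862) (.e (nat_lit 24580) (nat_lit 0) (.e (nat_lit 1872) (nat_lit 126) (.e (nat_lit 573451) (nat_lit 9) (.e (nat_lit 1548) (nat_lit 109) (.e (nat_lit 344133) (nat_lit 26) (.e (nat_lit 557098) (nat_lit 13) (.e (nat_lit 172064) (nat_lit 2) (.e (nat_lit 204544) (nat_lit 2) .nil)))))))) (.g (nat_lit 7) .nil .nil)))) (.nd (nat_lit 5) 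
(.lf (nat_lit 136860) (.g (nat_lit 3448) (.e (nat_lit 24580) (nat_lit 0) (.e (nat_lit 1818) (nat_lit 121) (.e (nat_lit 532513) (nat_lit 3) (.e (nat_lit 114714) (nat_lit 22) (.e (nat_lit 90170) (nat_lit 13) (.e (nat_lit 172062) (nat_lit 2) (.e (nat_lit 204544) (nat_lit 2) .nil))))))) (.g (nat_lit 5) .nil .nil))) 
(.lf (nat_lit 136892) (.g (nat_lit 810) (.e (nat_lit 24580) (nat_lit 0) (.e (nat_lit 6203) (nat_lit 332) (.e (nat_lit 2569) (nat_lit 160) (.e (nat_lit 32783) (nat_lit 7) .nil)))) .nil)))))) (.nd (nat_lit 2) (.nd (nat_lit 3) (.nd (nat_lit 4) (.nd (nat_lit 5) 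
(.lf (nat_lit 136834) (.g (nat_lit 2713) (.e (nat_lit 24576) (nat_lit 0) (.e (nat_lit 1858) (nat_lit 124) (.e (nat_lit 557100) (nat_lit 13) (.e (nat_lit 172062) (nat_lit 2) .nil)))) .nil)) 
(.lf (nat_lit 136866) (.g (nat_lit 2961) (.e (nat_lit 24580) (nat_lit 0) (.e (nat_lit 1820) (nat_lit 121) (.e (nat_lit 532515) (nat_lit 3) (.e (nat_lit 114719) (nat_lit 23) (.e (nat_lit 98354) (nat_lit 26) (.e (nat_lit 426125) (nat_lit 2) (.e (nat_lit 204544) (nat_lit 2) .nil))))))) (.g (nat_lit 6) .nil .nil)))) (.nd (nat_lit 5) 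
(.lf (nat_lit 136850) (.g (nat_lit 2270) (.e (nat_lit 24579) (nat_lit 0) (.e (nat_lit 6509) (nat_lit 345) (.e (nat_lit 16473) (nat_lit 14) (.e (nat_lit 491560) (nat_lit 10) (.e (nat_lit 344179) (nat_lit 44) .nil))))) .nil)) 
(.lf (nat_lit 136882) (.g (nat_lit 3941) (.e (nat_lit 24580) (nat_lit 0) (.e (nat_lit 1875) (nat_lit 126) (.e (nat_lit 573451) (nat_lit 9) (.e (nat_lit 1543) (nat_lit 109) (.e (nat_lit 344132) (nat_lit 26) (.e (nat_lit 557100) (nat_lit 13) (.e (nat_lit 172064) (nat_lit 2) (.e (nat_lit 204544) (nat_lit 2) .nil)))))))) (.g (nat_lit 7) .nil .nil))))) (.nd (nat_lit 4) (.nd (nat_lit 5) 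
(.lf (nat_lit 136842) (.g (nat_lit 532) (.e (nat_lit 24577) (nat_lit 0) (.e (nat_lit 1972) (nat_lit 135) (.e (nat_lit 647183) (nat_lit 4) (.e (nat_lit 179968) (nat_lit 32) .nil)))) .nil)) 
(.lf (nat_lit 136874) (.g (nat_lit 4281) (.e (nat_lit 24580) (nat_lit 0) (.e (nat_lit 1872) (nat_lit 126) (.e (nat_lit 573451) (nat_lit 9) (.e (nat_lit 1543) (nat_lit 109) (.e (nat_lit 344133) (nat_lit 26) (.e (nat_lit 557098) (nat_lit 13) (.e (nat_lit 172064) (nat_lit 2) (.e (nat_lit 204544) (nat_lit 2) .nil)))))))) (.g (nat_lit 7) .nil .nil)))) (.nd (nat_lit 5) 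
(.lf (nat_lit 136858) (.g (nat_lit 2810) (.e (nat_lit 24580) (nat_lit 0) (.e (nat_lit 1815) (nat_lit 121) (.e (nat_lit 532514) (nat_lit 3) (.e (nat_lit 114715) (nat_lit 22) (.e (nat_lit 90170) (nat_lit 13) (.e (nat_lit 172064) (nat_lit 2) (.e (nat_lit 204544) (nat_lit 2) .nil))))))) (.g (nat_lit 6) .nil .nil))) 
(.lf (nat_lit 136890) (.g (nat_lit 3638) (.e (nat_lit 24580) (nat_lit 0) (.e (nat_lit 1877) (nat_lit 126) (.e (nat_lit 573487) (nat_lit 14) (.e (nat_lit 73753) (nat_lit 8) (.e (nat_lit 557101) (nat_lit 13) (.e (nat_lit 172064) (nat_lit 2) (.e (nat_lit 204544) (nat_lit 2) .nil))))))) (.g (nat_lit 6) .nil .nil)))))) (.nd (nat_lit 3) (.nd (nat_lit 4) (.nd (nat_lit 5) 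
(.lf (nat_lit 136838) (.g (nat_lit 3274) (.e (nat_lit 24576) (nat_lit 0) (.e (nat_lit 1858) (nat_lit 124) (.e (nat_lit 557105) (nat_lit 14) (.e (nat_lit 180252) (nat_lit 10) (.e (nat_lit 573451) (nat_lit 9) .nil))))) .nil)) 
(.lf (nat_lit 136870) (.g (nat_lit 2105) (.e (nat_lit 24580) (nat_lit 0) (.e (nat_lit 1822) (nat_lit 121) (.e (nat_lit 532515) (nat_lit 3) (.e (nat_lit 114716) (nat_lit 22) (.e (nat_lit 90168) (nat_lit 13) (.e (nat_lit 172064) (nat_lit 2) (.e (nat_lit 204544) (nat_lit 2) .nil))))))) (.g (nat_lit 6) .nil .nil)))) (.nd (nat_lit 5) 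
(.lf (nat_lit 136854) (.g (nat_lit 4685) (.e (nat_lit 24580) (nat_lit 0) (.e (nat_lit 1778) (nat_lit 119) (.e (nat_lit 516166) (nat_lit 12) (.e (nat_lit 450587) (nat_lit 10) (.e (nat_lit 573454) (nat_lit 9) (.e (nat_lit 1315) (nat_lit 98) (.e (nat_lit 147495) (nat_lit 11) .nil))))))) (.g (nat_lit 4) .nil .nil))) 
(.lf (nat_lit 136886) (.g (nat_lit 3895) (.e (nat_lit 24580) (nat_lit 0) (.e (nat_lit 1875) (nat_lit 126) (.e (nat_lit 573451) (nat_lit 9) (.e (nat_lit 1548) (nat_lit 109) (.e (nat_lit 344133) (nat_lit 26) (.e (nat_lit 557098) (nat_lit 13) (.e (nat_lit 172064) (nat_lit 2) (.e (nat_lit 204544) (nat_lit 2) .nil)))))))) (.g (nat_lit 7) .nil .nil))))) (.nd (nat_lit 4) (.nd (nat_lit 5) 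
(.lf (nat_lit 136846) (.g (nat_lit 2200) (.e (nat_lit 24577) (nat_lit 0) (.e (nat_lit 6714) (nat_lit 360) (.e (nat_lit 163962) (nat_lit 25) (.e (nat_lit 532549) (nat_lit 12) (.e (nat_lit 360473) (nat_lit 8) (.e (nat_lit 557086) (nat_lit 11) .nil)))))) (.g (nat_lit 0) .nil .nil))) 
(.lf (nat_lit 136878) (.g (nat_lit 3992) (.e (nat_lit 24580) (nat_lit 0) (.e (nat_lit 1872) (nat_lit 126) (.e (nat_lit 573489) (nat_lit 14) (.e (nat_lit 73755) (nat_lit 8) (.e (nat_lit 557097) (nat_lit 13) (.e (nat_lit 172064) (nat_lit 2) (.e (nat_lit 204544) (nat_lit 2) .nil))))))) (.g (nat_lit 6) .nil .nil)))) (.nd (nat_lit 5) 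
(.lf (nat_lit 136862) (.g (nat_lit 2892) (.e (nat_lit 24580) (nat_lit 0) (.e (nat_lit 1818) (nat_lit 121) (.e (nat_lit 532514) (nat_lit 3) (.e (nat_lit 114719) (nat_lit 23) (.e (nat_lit 98354) (nat_lit 26) (.e (nat_lit 426125) (nat_lit 2) (.e (nat_lit 204544) (nat_lit 2) .nil))))))) (.g (nat_lit 6) .nil .nil))) 
(.lf (nat_lit 136894) (.g (nat_lit 1723) (.e (nat_lit 24580) (nat_lit 0) (.e (nat_lit 6436) (nat_lit 343) (.e (nat_lit 1239) (nat_lit 91) (.e (nat_lit 90165) (nat_lit 12) (.e (nat_lit 171776) (nat_lit 192) .nil))))) .nil))))))) (.nd (nat_lit 1) (.nd (nat_lit 2) (.nd (nat_lit 3) (.nd (nat_lit 4) (.nd (nat_lit 5) 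
(.lf (nat_lit 136833) (.g (nat_lit 4087) (.e (nat_lit 24576) (nat_lit 0) (.e (nat_lit 1812) (nat_lit 120) (.e (nat_lit 524322) (nat_lit 12) (.e (nat_lit 450588) (nat_lit 10) (.e (nat_lit 573475) (nat_lit 12) (.e (nat_lit 57574) (nat_lit 55) (.e (nat_lit 778466) (nat_lit 11) .nil))))))) (.g (nat_lit 7) .nil .nil))) 
(.lf (nat_lit 136865) (.g (nat_lit 2877) (.e (nat_lit 24580) (nat_lit 0) (.e (nat_lit 1820) (nat_lit 121) (.e (nat_lit 532515) (nat_lit 3) (.e (nat_lit 114715) (nat_lit 22) (.e (nat_lit 90170) (nat_lit 13) (.e (nat_lit 172064) (nat_lit 2) (.e (nat_lit 204544) (nat_lit 2) .nil))))))) (.g (nat_lit 6) .nil .nil)))) (.nd (nat_lit 5) 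
(.lf (nat_lit 136849) (.g (nat_lit 2787) (.e (nat_lit 24579) (nat_lit 0) (.e (nat_lit 1873) (nat_lit 126) (.e (nat_lit 573489) (nat_lit 14) (.e (nat_lit 73755) (nat_lit 8) (.e (nat_lit 557097) (nat_lit 13) (.e (nat_lit 172064) (nat_lit 2) (.e (nat_lit 204544) (nat_lit 2) .nil))))))) (.g (nat_lit 6) .nil .nil))) 
(.lf (nat_lit 136881) (.g (nat_lit 4276) (.e (nat_lit 24580) (nat_lit 0) (.e (nat_lit 1873) (nat_lit 126) (.e (nat_lit 573489) (nat_lit 14) (.e (nat_lit 73755) (nat_lit 8) (.e (nat_lit 557098) (nat_lit 13) (.e (nat_lit 172064) (nat_lit 2) (.e (nat_lit 204544) (nat_lit 2) .nil))))))) (.g (nat_lit 6) .nil .nil))))) (.nd (nat_lit 4) (.nd (nat_lit 5) 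
(.lf (nat_lit 136841) (.g (nat_lit 1921) (.e (nat_lit 24576) (nat_lit 0) (.e (nat_lit 1858) (nat_lit 124) (.e (nat_lit 557105) (nat_lit 14) (.e (nat_lit 180265) (nat_lit 21) .nil)))) .nil)) 
(.lf (nat_lit 136873) (.g (nat_lit 3649) (.e (nat_lit 24580) (nat_lit 0) (.e (nat_lit 1872) (nat_lit 126) (.e (nat_lit 573451) (nat_lit 9) (.e (nat_lit 1543) (nat_lit 109) (.e (nat_lit 344132) (nat_lit 26) (.e (nat_lit 557101) (nat_lit 13) (.e (nat_lit 172064) (nat_lit 2) (.e (nat_lit 204544) (nat_lit 2) .nil)))))))) (.g (nat_lit 7) .nil .nil)))) (.nd (nat_lit 5) 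
(.lf (nat_lit 136857) (.g (nat_lit 3587) (.e (nat_lit 24580) (nat_lit 0) (.e (nat_lit 1815) (nat_lit 121) (.e (nat_lit 532513) (nat_lit 3) (.e (nat_lit 114714) (nat_lit 22) (.e (nat_lit 90170) (nat_lit 13) (.e (nat_lit 172064) (nat_lit 2) (.e (nat_lit 204544) (nat_lit 2) .nil))))))) (.g (nat_lit 6) .nil .nil))) 
(.lf (nat_lit 136889) (.g (nat_lit 3928) (.e (nat_lit 24580) (nat_lit 0) (.e (nat_lit 1877) (nat_lit 126) (.e (nat_lit 573487) (nat_lit 14) (.e (nat_lit 73753) (nat_lit 8) (.e (nat_lit 557098) (nat_lit 13) (.e (nat_lit 172064) (nat_lit 2) (.e (nat_lit 204544) (nat_lit 2) .nil))))))) (.g (nat_lit 6) .nil .nil)))))) (.nd (nat_lit 3) (.nd (nat_lit 4) (.nd (nat_lit 5) 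
(.lf (nat_lit 136837) (.g (nat_lit 3341) (.e (nat_lit 24576) (nat_lit 0) (.e (nat_lit 1858) (nat_lit 124) (.e (nat_lit 557105) (nat_lit 14) (.e (nat_lit 180252) (nat_lit 10) (.e (nat_lit 573449) (nat_lit 9) .nil))))) .nil)) 
(.lf (nat_lit 136869) (.g (nat_lit 2393) (.e (nat_lit 24580) (nat_lit 0) (.e (nat_lit 1822) (nat_lit 121) (.e (nat_lit 532515) (nat_lit 3) (.e (nat_lit 114716) (nat_lit 22) (.e (nat_lit 90167) (nat_lit 13) (.e (nat_lit 172064) (nat_lit 2) (.e (nat_lit 204544) (nat_lit 2) .nil))))))) (.g (nat_lit 6) .nil .nil)))) (.nd (nat_lit 5) 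
(.lf (nat_lit 136853) (.g (nat_lit 3161) (.e (nat_lit 24579) (nat_lit 0) (.e (nat_lit 6714) (nat_lit 360) (.e (nat_lit 163962) (nat_lit 25) (.e (nat_lit 532550) (nat_lit 12) (.e (nat_lit 360475) (nat_lit 8) (.e (nat_lit 557087) (nat_lit 11) .nil)))))) (.g (nat_lit 0) .nil .nil))) 
(.lf (nat_lit 136885) (.g (nat_lit 3524) (.e (nat_lit 24580) (nat_lit 0) (.e (nat_lit 1875) (nat_lit 126) (.e (nat_lit 573451) (nat_lit 9) (.e (nat_lit 1548) (nat_lit 109) (.e (nat_lit 344130) (nat_lit 26) (.e (nat_lit 557097) (nat_lit 13) (.e (nat_lit 172064) (nat_lit 2) (.e (nat_lit 204544) (nat_lit 2) .nil)))))))) (.g (nat_lit 7) .nil .nil))))) (.nd (nat_lit 4) (.nd (nat_lit 5) 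
(.lf (nat_lit 136845) (.g (nat_lit 3329) (.e (nat_lit 24577) (nat_lit 0) (.e (nat_lit 6712) (nat_lit 360) (.e (nat_lit 163962) (nat_lit 25) (.e (nat_lit 532550) (nat_lit 12) (.e (nat_lit 360475) (nat_lit 8) (.e (nat_lit 557087) (nat_lit 11) .nil)))))) (.g (nat_lit 0) .nil .nil))) 
(.lf (nat_lit 136877) (.g (nat_lit 3400) (.e (nat_lit 24580) (nat_lit 0) (.e (nat_lit 1872) (nat_lit 126) (.e (nat_lit 573452) (nat_lit 9) (.e (nat_lit 1543) (nat_lit 109) (.e (nat_lit 344133) (nat_lit 26) (.e (nat_lit 557098) (nat_lit 13) (.e (nat_lit 172064) (nat_lit 2) (.e (nat_lit 204544) (nat_lit 2) .nil)))))))) (.g (nat_lit 7) .nil .nil)))) (.nd (nat_lit 5) 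
(.lf (nat_lit 136861) (.g (nat_lit 2971) (.e (nat_lit 24580) (nat_lit 0) (.e (nat_lit 1818) (nat_lit 121) (.e (nat_lit 532514) (nat_lit 3) (.e (nat_lit 114715) (nat_lit 22) (.e (nat_lit 90170) (nat_lit 13) (.e (nat_lit 172064) (nat_lit 2) (.e (nat_lit 204544) (nat_lit 2) .nil))))))) (.g (nat_lit 6) .nil .nil))) 
(.lf (nat_lit 136893) (.g (nat_lit 1377) (.e (nat_lit 24580) (nat_lit 0) (.e (nat_lit 6434) (nat_lit 343) (.e (nat_lit 1017) (nat_lit 81) (.e (nat_lit 2270) (nat_lit 149) (.e (nat_lit 769792) (nat_lit 10) .nil))))) .nil)))))) (.nd (nat_lit 2) (.nd (nat_lit 3) (.nd (nat_lit 4) (.nd (nat_lit 5) 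
(.lf (nat_lit 136835) (.g (nat_lit 2516) (.e (nat_lit 24576) (nat_lit 0) (.e (nat_lit 1858) (nat_lit 124) (.e (nat_lit 557100) (nat_lit 13) (.e (nat_lit 172065) (nat_lit 3) .nil)))) .nil)) 
(.lf (nat_lit 136867) (.g (nat_lit 2772) (.e (nat_lit 24580) (nat_lit 0) (.e (nat_lit 1822) (nat_lit 121) (.e (nat_lit 532515) (nat_lit 3) (.e (nat_lit 114715) (nat_lit 22) (.e (nat_lit 90170) (nat_lit 13) (.e (nat_lit 172062) (nat_lit 2) (.e (nat_lit 204544) (nat_lit 2) .nil))))))) (.g (nat_lit 5) .nil .nil)))) (.nd (nat_lit 5) 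
(.lf (nat_lit 136851) (.g (nat_lit 3348) (.e (nat_lit 24579) (nat_lit 0) (.e (nat_lit 6712) (nat_lit 360) (.e (nat_lit 163962) (nat_lit 25) (.e (nat_lit 532550) (nat_lit 12) (.e (nat_lit 360475) (nat_lit 8) (.e (nat_lit 557086) (nat_lit 11) .nil)))))) (.g (nat_lit 0) .nil .nil))) 
(.lf (nat_lit 136883) (.g (nat_lit 3643) (.e (nat_lit 24580) (nat_lit 0) (.e (nat_lit 1875) (nat_lit 126) (.e (nat_lit 573451) (nat_lit 9) (.e (nat_lit 1543) (nat_lit 109) (.e (nat_lit 344132) (nat_lit 26) (.e (nat_lit 557101) (nat_lit 13) (.e (nat_lit 172064) (nat_lit 2) (.e (nat_lit 204544) (nat_lit 2) .nil)))))))) (.g (nat_lit 7) .nil .nil))))) (.nd (nat_lit 4) (.nd (nat_lit 5) 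
(.lf (nat_lit 136843) (.g (nat_lit 2490) (.e (nat_lit 24577) (nat_lit 0) (.e (nat_lit 6712) (nat_lit 360) (.e (nat_lit 163962) (nat_lit 25) (.e (nat_lit 532549) (nat_lit 12) (.e (nat_lit 360473) (nat_lit 8) (.e (nat_lit 557086) (nat_lit 11) .nil)))))) (.g (nat_lit 0) .nil .nil))) 
(.lf (nat_lit 136875) (.g (nat_lit 3491) (.e (nat_lit 24580) (nat_lit 0) (.e (nat_lit 1872) (nat_lit 126) (.e (nat_lit 573451) (nat_lit 9) (.e (nat_lit 1548) (nat_lit 109) (.e (nat_lit 344130) (nat_lit 26) (.e (nat_lit 557097) (nat_lit 13) (.e (nat_lit 172064) (nat_lit 2) (.e (nat_lit 204544) (nat_lit 2) .nil)))))))) (.g (nat_lit 7) .nil .nil)))) (.nd (nat_lit 5) 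
(.lf (nat_lit 136859) (.g (nat_lit 2832) (.e (nat_lit 24580) (nat_lit 0) (.e (nat_lit 1815) (nat_lit 121) (.e (nat_lit 532514) (nat_lit 3) (.e (nat_lit 114719) (nat_lit 23) (.e (nat_lit 98354) (nat_lit 26) (.e (nat_lit 426125) (nat_lit 2) (.e (nat_lit 204544) (nat_lit 2) .nil))))))) (.g (nat_lit 6) .nil .nil))) 
(.lf (nat_lit 136891) (.g (nat_lit 2494) (.e (nat_lit 24580) (nat_lit 0) (.e (nat_lit 2356) (nat_lit 152) (.e (nat_lit 786481) (nat_lit 30) (.e (nat_lit 360473) (nat_lit 8) (.e (nat_lit 557093) (nat_lit 12) (.e (nat_lit 164009) (nat_lit 41) (.e (nat_lit 663583) (nat_lit 11) .nil))))))) (.g (nat_lit 5) .nil .nil)))))) (.nd (nat_lit 3) (.nd (nat_lit 4) (.nd (nat_lit 5) 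
(.lf (nat_lit 136839) (.g (nat_lit 2847) (.e (nat_lit 24576) (nat_lit 0) (.e (nat_lit 1858) (nat_lit 124) (.e (nat_lit 557105) (nat_lit 14) (.e (nat_lit 180252) (nat_lit 10) (.e (nat_lit 573473) (nat_lit 12) .nil))))) .nil)) 
(.lf (nat_lit 136871) (.g (nat_lit 2981) (.e (nat_lit 24580) (nat_lit 0) (.e (nat_lit 1822) (nat_lit 121) (.e (nat_lit 532515) (nat_lit 3) (.e (nat_lit 114719) (nat_lit 23) (.e (nat_lit 98354) (nat_lit 26) (.e (nat_lit 426125) (nat_lit 2) (.e (nat_lit 204544) (nat_lit 2) .nil))))))) (.g (nat_lit 6) .nil .nil)))) (.nd (nat_lit 5) 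
(.lf (nat_lit 136855) (.g (nat_lit 2770) (.e (nat_lit 24580) (nat_lit 0) (.e (nat_lit 7936) (nat_lit 119) (.e (nat_lit 516166) (nat_lit 12) (.e (nat_lit 450587) (nat_lit 10) (.e (nat_lit 573454) (nat_lit 9) (.e (nat_lit 1315) (nat_lit 98) (.e (nat_lit 147495) (nat_lit 11) .nil))))))) (.g (nat_lit 4) .nil .nil))) 
(.lf (nat_lit 136887) (.g (nat_lit 2649) (.e (nat_lit 24580) (nat_lit 0) (.e (nat_lit 1877) (nat_lit 126) (.e (nat_lit 573451) (nat_lit 9) (.e (nat_lit 1543) (nat_lit 109) (.e (nat_lit 344132) (nat_lit 26) (.e (nat_lit 557101) (nat_lit 13) (.e (nat_lit 172064) (nat_lit 2) (.e (nat_lit 204544) (nat_lit 2) .nil)))))))) (.g (nat_lit 5) .nil .nil))))) (.nd (nat_lit 4) (.nd (nat_lit 5) 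
(.lf (nat_lit 136847) (.g (nat_lit 2918) (.e (nat_lit 24577) (nat_lit 0) (.e (nat_lit 6714) (nat_lit 360) (.e (nat_lit 163962) (nat_lit 25) (.e (nat_lit 532550) (nat_lit 12) (.e (nat_lit 360475) (nat_lit 8) (.e (nat_lit 557086) (nat_lit 11) .nil)))))) (.g (nat_lit 0) .nil .nil))) 
(.lf (nat_lit 136879) (.g (nat_lit 2997) (.e (nat_lit 24580) (nat_lit 0) (.e (nat_lit 1873) (nat_lit 126) (.e (nat_lit 573489) (nat_lit 14) (.e (nat_lit 73755) (nat_lit 8) (.e (nat_lit 557096) (nat_lit 13) (.e (nat_lit 172064) (nat_lit 2) (.e (nat_lit 204544) (nat_lit 2) .nil))))))) (.g (nat_lit 6) .nil .nil)))) (.nd (nat_lit 5) 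
(.lf (nat_lit 136863) (.g (nat_lit 2964) (.e (nat_lit 24580) (nat_lit 0) (.e (nat_lit 1819) (nat_lit 121) (.e (nat_lit 532515) (nat_lit 3) (.e (nat_lit 114715) (nat_lit 22) (.e (nat_lit 90170) (nat_lit 13) (.e (nat_lit 172064) (nat_lit 2) (.e (nat_lit 204544) (nat_lit 2) .nil))))))) (.g (nat_lit 6) .nil .nil))) 
(.lf (nat_lit 136895) (.g (nat_lit 1828) (.e (nat_lit 24580) (nat_lit 0) (.e (nat_lit 6479) (nat_lit 343) (.e (nat_lit 1237) (nat_lit 91) (.e (nat_lit 90170) (nat_lit 13) (.e (nat_lit 179968) (nat_lit 20) .nil))))) .nil))))))))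

noncomputable def tv1819 : DT := (.nd (nat_lit 0) (.nd (nat_lit 1) (.nd (nat_lit 2) (.nd (nat_lit 3) (.nd (nat_lit 4) (.nd (nat_lit 5) 
(.lf (nat_lit 136896) (.g (nat_lit 2756) (.e (nat_lit 24580) (nat_lit 0) (.e (nat_lit 6508) (nat_lit 345) (.e (nat_lit 16473) (nat_lit 14) (.e (nat_lit 491552) (nat_lit 9) (.e (nat_lit 336046) (nat_lit 6) (.e (nat_lit 147494) (nat_lit 11) .nil)))))) (.g (nat_lit 4) .nil .nil))) 
(.lf (nat_lit 136928) (.g (nat_lit 563) (.e (nat_lit 24588) (nat_lit 0) (.e (nat_lit 2281) (nat_lit 150) (.e (nat_lit 770073) (nat_lit 9) .nil))) .nil))) (.nd (nat_lit 5) 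
(.lf (nat_lit 136912) (.g (nat_lit 1784) (.e (nat_lit 24584) (nat_lit 0) (.e (nat_lit 6113) (nat_lit 332) (.e (nat_lit 1361) (nat_lit 102) (.e (nat_lit 286759) (nat_lit 12) (.e (nat_lit 385115) (nat_lit 53) (.e (nat_lit 811045) (nat_lit 14) (.e (nat_lit 40995) (nat_lit 11) .nil))))))) (.g (nat_lit 4) .nil .nil))) 
(.lf (nat_lit 136944) (.g (nat_lit 2516) (.e (nat_lit 24592) (nat_lit 0) (.e (nat_lit 1858) (nat_lit 124) (.e (nat_lit 557100) (nat_lit 13) (.e (nat_lit 172065) (nat_lit 3) .nil)))) .nil)))) (.nd (nat_lit 4) (.nd (nat_lit 5) 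
(.lf (nat_lit 136904) (.g (nat_lit 592) (.e (nat_lit 24580) (nat_lit 0) (.e (nat_lit 6724) (nat_lit 362) (.e (nat_lit 180269) (nat_lit 25) .nil))) .nil)) 
(.lf (nat_lit 136936) (.g (nat_lit 2683) (.e (nat_lit 24589) (nat_lit 0) (.e (nat_lit 1858) (nat_lit 124) (.e (nat_lit 557100) (nat_lit 13) (.e (nat_lit 172049) (nat_lit 0) .nil)))) .nil))) (.nd (nat_lit 5) 
(.lf (nat_lit 136920) (.g (nat_lit 3155) (.e (nat_lit 24588) (nat_lit 0) (.e (nat_lit 1799) (nat_lit 119) (.e (nat_lit 516166) (nat_lit 12) (.e (nat_lit 450587) (nat_lit 10) (.e (nat_lit 573454) (nat_lit 9) .nil))))) .nil)) 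
(.lf (nat_lit 136952) (.g (nat_lit 802) (.e (nat_lit 24596) (nat_lit 1) (.e (nat_lit 57849) (nat_lit 252) (.e (nat_lit 57372) (nat_lit 2) .nil))) .nil))))) (.nd (nat_lit 3) (.nd (nat_lit 4) (.nd (nat_lit 5) 
(.lf (nat_lit 136900) (.g (nat_lit 1512) (.e (nat_lit 24580) (nat_lit 0) (.e (nat_lit 6628) (nat_lit 357) (.e (nat_lit 345) (nat_lit 28) (.e (nat_lit 393275) (nat_lit 23) (.e (nat_lit 426125) (nat_lit 2) (.e (nat_lit 204544) (nat_lit 2) .nil)))))) (.g (nat_lit 5) .nil .nil))) 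
(.lf (nat_lit 136932) (.g (nat_lit 2033) (.e (nat_lit 24589) (nat_lit 0) (.e (nat_lit 1788) (nat_lit 119) (.e (nat_lit 516151) (nat_lit 9) (.e (nat_lit 426286) (nat_lit 10) (.e (nat_lit 434248) (nat_lit 28) .nil))))) .nil))) (.nd (nat_lit 5) 
(.lf (nat_lit 136916) (.g (nat_lit 2532) (.e (nat_lit 24588) (nat_lit 0) (.e (nat_lit 1788) (nat_lit 119) (.e (nat_lit 516151) (nat_lit 9) (.e (nat_lit 426285) (nat_lit 10) .nil)))) .nil)) 
(.lf (nat_lit 136948) (.g (nat_lit 1767) (.e (nat_lit 24593) (nat_lit 0) (.e (nat_lit 1853) (nat_lit 124) (.e (nat_lit 557087) (nat_lit 11) (.e (nat_lit 24648) (nat_lit 12) .nil)))) .nil)))) (.nd (nat_lit 4) (.nd (nat_lit 5) 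
(.lf (nat_lit 136908) (.g (nat_lit 5002) (.e (nat_lit 24583) (nat_lit 0) (.e (nat_lit 1794) (nat_lit 119) (.e (nat_lit 516166) (nat_lit 12) (.e (nat_lit 450587) (nat_lit 10) (.e (nat_lit 573454) (nat_lit 9) .nil))))) .nil)) 
(.lf (nat_lit 136940) (.g (nat_lit 600) (.e (nat_lit 24589) (nat_lit 0) (.e (nat_lit 1858) (nat_lit 124) (.e (nat_lit 557105) (nat_lit 14) .nil))) .nil))) (.nd (nat_lit 5) 
(.lf (nat_lit 136924) (.g (nat_lit 2535) (.e (nat_lit 24588) (nat_lit 0) (.e (nat_lit 1842) (nat_lit 123) (.e (nat_lit 548873) (nat_lit 5) (.e (nat_lit 1598) (nat_lit 111) (.e (nat_lit 360466) (nat_lit 3) (.e (nat_lit 516120) (nat_lit 1) (.e (nat_lit 164427) (nat_lit 278) (.e (nat_lit 2555) (nat_lit 159) .nil)))))))) (.g (nat_lit 6) .nil .nil))) 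
(.lf (nat_lit 136956) (.g (nat_lit 3366) (.e (nat_lit 24597) (nat_lit 1) (.e (nat_lit 57847) (nat_lit 252) (.e (nat_lit 57365) (nat_lit 1) (.e (nat_lit 57851) (nat_lit 252) (.e (nat_lit 57427) (nat_lit 15) (.e (nat_lit 360483) (nat_lit 15) (.e (nat_lit 647179) (nat_lit 2) .nil))))))) (.g (nat_lit 0) .nil .nil))))))) (.nd (nat_lit 2) (.nd (nat_lit 3) (.nd (nat_lit 4) (.nd (nat_lit 5) 
(.lf (nat_lit 136898) (.g (nat_lit 1278) (.e (nat_lit 24580) (nat_lit 0) (.e (nat_lit 6513) (nat_lit 346) (.e (nat_lit 57464) (nat_lit 23) (.e (nat_lit 516185) (nat_lit 16) (.e (nat_lit 491560) (nat_lit 10) .nil))))) .nil)) 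
(.lf (nat_lit 136930) (.g (nat_lit 993) (.e (nat_lit 24588) (nat_lit 0) (.e (nat_lit 6114) (nat_lit 332) (.e (nat_lit 1133) (nat_lit 84) .nil))) .nil))) (.nd (nat_lit 5) 
(.lf (nat_lit 136914) (.g (nat_lit 2112) (.e (nat_lit 24584) (nat_lit 0) (.e (nat_lit 6113) (nat_lit 332) (.e (nat_lit 1374) (nat_lit 104) (.e (nat_lit 303152) (nat_lit 27) .nil)))) .nil)) 
(.lf (nat_lit 136946) (.g (nat_lit 2571) (.e (nat_lit 24593) (nat_lit 0) (.e (nat_lit 1796) (nat_lit 119) (.e (nat_lit 516151) (nat_lit 9) (.e (nat_lit 426286) (nat_lit 10) .nil)))) .nil)))) (.nd (nat_lit 4) (.nd (nat_lit 5) 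
(.lf (nat_lit 136906) (.g (nat_lit 4026) (.e (nat_lit 24582) (nat_lit 0) (.e (nat_lit 1790) (nat_lit 119) (.e (nat_lit 516166) (nat_lit 12) (.e (nat_lit 450587) (nat_lit 10) (.e (nat_lit 573454) (nat_lit 9) .nil))))) .nil)) 
(.lf (nat_lit 136938) (.g (nat_lit 2516) (.e (nat_lit 24589) (nat_lit 0) (.e (nat_lit 1858) (nat_lit 124) (.e (nat_lit 557100) (nat_lit 13) (.e (nat_lit 172065) (nat_lit 3) .nil)))) .nil))) (.nd (nat_lit 5) 
(.lf (nat_lit 136922) (.g (nat_lit 5093) (.e (nat_lit 24588) (nat_lit 0) (.e (nat_lit 1799) (nat_lit 119) (.e (nat_lit 516166) (nat_lit 12) (.e (nat_lit 450587) (nat_lit 10) (.e (nat_lit 573477) (nat_lit 12) (.e (nat_lit 57575) (nat_lit 55) (.e (nat_lit 778463) (nat_lit 11) .nil))))))) (.g (nat_lit 6) .nil .nil))) 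
(.lf (nat_lit 136954) (.g (nat_lit 730) (.e (nat_lit 24597) (nat_lit 1) (.e (nat_lit 57847) (nat_lit 252) (.e (nat_lit 57363) (nat_lit 1) .nil))) .nil))))) (.nd (nat_lit 3) (.nd (nat_lit 4) (.nd (nat_lit 5) 
(.lf (nat_lit 136902) (.g (nat_lit 2027) (.e (nat_lit 24580) (nat_lit 0) (.e (nat_lit 6712) (nat_lit 360) (.e (nat_lit 163975) (nat_lit 30) (.e (nat_lit 573456) (nat_lit 9) (.e (nat_lit 1669) (nat_lit 116) (.e (nat_lit 401454) (nat_lit 12) (.e (nat_lit 483072) (nat_lit 2) .nil))))))) (.g (nat_lit 4) .nil .nil))) 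
(.lf (nat_lit 136934) (.g (nat_lit 2022) (.e (nat_lit 24589) (nat_lit 0) (.e (nat_lit 1798) (nat_lit 119) (.e (nat_lit 516165) (nat_lit 12) (.e (nat_lit 450586) (nat_lit 10) (.e (nat_lit 573477) (nat_lit 12) .nil))))) .nil))) (.nd (nat_lit 5) 
(.lf (nat_lit 136918) (.g (nat_lit 2156) (.e (nat_lit 24588) (nat_lit 0) (.e (nat_lit 1788) (nat_lit 119) (.e (nat_lit 516166) (nat_lit 12) (.e (nat_lit 450587) (nat_lit 10) (.e (nat_lit 573454) (nat_lit 9) .nil))))) .nil)) 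
(.lf (nat_lit 136950) (.g (nat_lit 1454) (.e (nat_lit 24595) (nat_lit 0) (.e (nat_lit 1800) (nat_lit 119) (.e (nat_lit 516176) (nat_lit 14) (.e (nat_lit 466967) (nat_lit 20) .nil)))) .nil)))) (.nd (nat_lit 4) (.nd (nat_lit 5) 
(.lf (nat_lit 136910) (.g (nat_lit 1975) (.e (nat_lit 24583) (nat_lit 0) (.e (nat_lit 1860) (nat_lit 124) (.e (nat_lit 557100) (nat_lit 13) (.e (nat_lit 172067) (nat_lit 3) .nil)))) .nil)) 
(.lf (nat_lit 136942) (.g (nat_lit 31) (.e (nat_lit 24589) (nat_lit 0) (.e (nat_lit 1910) (nat_lit 129) (.e (nat_lit 598041) (nat_lit 10) .nil))) .nil))) (.nd (nat_lit 5) 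
(.lf (nat_lit 136926) (.g (nat_lit 451) (.e (nat_lit 24588) (nat_lit 0) (.e (nat_lit 1855) (nat_lit 124) (.e (nat_lit 564992) (nat_lit 0) .nil))) .nil)) 
(.lf (nat_lit 136958) (.g (nat_lit 2474) (.e (nat_lit 24597) (nat_lit 1) (.e (nat_lit 57847) (nat_lit 252) (.e (nat_lit 57368) (nat_lit 1) (.e (nat_lit 57852) (nat_lit 252) (.e (nat_lit 57427) (nat_lit 15) (.e (nat_lit 360483) (nat_lit 15) (.e (nat_lit 647179) (nat_lit 2) .nil))))))) (.g (nat_lit 4) .nil .nil)))))))) 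
(.nd (nat_lit 1) (.nd (nat_lit 2) (.nd (nat_lit 3) (.nd (nat_lit 4) (.nd (nat_lit 5) 
(.lf (nat_lit 136897) (.g (nat_lit 2306) (.e (nat_lit 24580) (nat_lit 0) (.e (nat_lit 6508) (nat_lit 345) (.e (nat_lit 16473) (nat_lit 14) (.e (nat_lit 491552) (nat_lit 9) (.e (nat_lit 336050) (nat_lit 6) .nil))))) .nil)) 
(.lf (nat_lit 136929) (.g (nat_lit 947) (.e (nat_lit 24588) (nat_lit 0) (.e (nat_lit 2281) (nat_lit 150) (.e (nat_lit 770073) (nat_lit 9) (.e (nat_lit 73754) (nat_lit 8) .nil)))) .nil))) (.nd (nat_lit 5) 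
(.lf (nat_lit 136913) (.g (nat_lit 2185) (.e (nat_lit 24584) (nat_lit 0) (.e (nat_lit 6113) (nat_lit 332) (.e (nat_lit 1361) (nat_lit 102) (.e (nat_lit 286759) (nat_lit 12) (.e (nat_lit 385115) (nat_lit 53) (.e (nat_lit 818944) (nat_lit 14) (.e (nat_lit 40997) (nat_lit 11) .nil))))))) (.g (nat_lit 5) .nil .nil))) 
(.lf (nat_lit 136945) (.g (nat_lit 3880) (.e (nat_lit 24593) (nat_lit 0) (.e (nat_lit 1786) (nat_lit 119) (.e (nat_lit 516166) (nat_lit 12) (.e (nat_lit 450587) (nat_lit 10) (.e (nat_lit 573454) (nat_lit 9) (.e (nat_lit 1315) (nat_lit 98) (.e (nat_lit 147495) (nat_lit 11) .nil))))))) (.g (nat_lit 4) .nil .nil))))) (.nd (nat_lit 4) (.nd (nat_lit 5) 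
(.lf (nat_lit 136905) (.g (nat_lit 4017) (.e (nat_lit 24581) (nat_lit 0) (.e (nat_lit 1790) (nat_lit 119) (.e (nat_lit 516166) (nat_lit 12) (.e (nat_lit 450587) (nat_lit 10) (.e (nat_lit 573454) (nat_lit 9) .nil))))) .nil)) 
(.lf (nat_lit 136937) (.g (nat_lit 2714) (.e (nat_lit 24589) (nat_lit 0) (.e (nat_lit 1858) (nat_lit 124) (.e (nat_lit 557100) (nat_lit 13) (.e (nat_lit 172062) (nat_lit 2) .nil)))) .nil))) (.nd (nat_lit 5) 
(.lf (nat_lit 136921) (.g (nat_lit 4500) (.e (nat_lit 24588) (nat_lit 0) (.e (nat_lit 1799) (nat_lit 119) (.e (nat_lit 516166) (nat_lit 12) (.e (nat_lit 450587) (nat_lit 10) (.e (nat_lit 573477) (nat_lit 12) (.e (nat_lit 57574) (nat_lit 55) (.e (nat_lit 778463) (nat_lit 11) .nil))))))) (.g (nat_lit 6) .nil .nil))) 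
(.lf (nat_lit 136953) (.g (nat_lit 806) (.e (nat_lit 24596) (nat_lit 1) (.e (nat_lit 57849) (nat_lit 252) (.e (nat_lit 57375) (nat_lit 2) .nil))) .nil))))) (.nd (nat_lit 3) (.nd (nat_lit 4) (.nd (nat_lit 5) 
(.lf (nat_lit 136901) (.g (nat_lit 1211) (.e (nat_lit 24580) (nat_lit 0) (.e (nat_lit 6703) (nat_lit 358) (.e (nat_lit 8318) (nat_lit 64) (.e (nat_lit 516150) (nat_lit 9) (.e (nat_lit 426320) (nat_lit 12) .nil))))) .nil)) 
(.lf (nat_lit 136933) (.g (nat_lit 2469) (.e (nat_lit 24589) (nat_lit 0) (.e (nat_lit 1798) (nat_lit 119) (.e (nat_lit 516151) (nat_lit 9) (.e (nat_lit 426286) (nat_lit 10) .nil)))) .nil))) (.nd (nat_lit 5) 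
(.lf (nat_lit 136917) (.g (nat_lit 2429) (.e (nat_lit 24588) (nat_lit 0) (.e (nat_lit 1788) (nat_lit 119) (.e (nat_lit 516165) (nat_lit 12) (.e (nat_lit 450586) (nat_lit 10) (.e (nat_lit 573478) (nat_lit 12) (.e (nat_lit 57574) (nat_lit 55) (.e (nat_lit 778464) (nat_lit 11) .nil))))))) (.g (nat_lit 4) .nil .nil))) 
(.lf (nat_lit 136949) (.g (nat_lit 1128) (.e (nat_lit 24595) (nat_lit 0) (.e (nat_lit 1800) (nat_lit 119) (.e (nat_lit 516167) (nat_lit 12) (.e (nat_lit 450586) (nat_lit 10) .nil)))) .nil)))) (.nd (nat_lit 4) (.nd (nat_lit 5) 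
(.lf (nat_lit 136909) (.g (nat_lit 2081) (.e (nat_lit 24583) (nat_lit 0) (.e (nat_lit 1860) (nat_lit 124) (.e (nat_lit 557100) (nat_lit 13) (.e (nat_lit 172065) (nat_lit 3) (.e (nat_lit 204809) (nat_lit 9) .nil))))) .nil)) 
(.lf (nat_lit 136941) (.g (nat_lit 1732) (.e (nat_lit 24589) (nat_lit 0) (.e (nat_lit 1858) (nat_lit 124) (.e (nat_lit 557105) (nat_lit 14) (.e (nat_lit 180265) (nat_lit 21) .nil)))) .nil))) (.nd (nat_lit 5) 
(.lf (nat_lit 136925) (.g (nat_lit 2331) (.e (nat_lit 24588) (nat_lit 0) (.e (nat_lit 1842) (nat_lit 123) (.e (nat_lit 548874) (nat_lit 5) (.e (nat_lit 1598) (nat_lit 111) (.e (nat_lit 360466) (nat_lit 3) (.e (nat_lit 516120) (nat_lit 1) (.e (nat_lit 164427) (nat_lit 278) (.e (nat_lit 2554) (nat_lit 159) .nil)))))))) (.g (nat_lit 5) .nil .nil))) 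
(.lf (nat_lit 136957) (.g (nat_lit 2415) (.e (nat_lit 24597) (nat_lit 1) (.e (nat_lit 57847) (nat_lit 252) (.e (nat_lit 57368) (nat_lit 1) (.e (nat_lit 57851) (nat_lit 252) (.e (nat_lit 57427) (nat_lit 15) (.e (nat_lit 360483) (nat_lit 15) (.e (nat_lit 647179) (nat_lit 2) .nil))))))) (.g (nat_lit 5) .nil .nil))))))) (.nd (nat_lit 2) (.nd (nat_lit 3) (.nd (nat_lit 4) (.nd (nat_lit 5) 
(.lf (nat_lit 136899) (.g (nat_lit 915) (.e (nat_lit 24580) (nat_lit 0) (.e (nat_lit 6619) (nat_lit 357) (.e (nat_lit 2612) (nat_lit 163) (.e (nat_lit 164149) (nat_lit 152) .nil)))) .nil)) 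
(.lf (nat_lit 136931) (.g (nat_lit 2531) (.e (nat_lit 24589) (nat_lit 0) (.e (nat_lit 1788) (nat_lit 119) (.e (nat_lit 516151) (nat_lit 9) (.e (nat_lit 426285) (nat_lit 10) .nil)))) .nil))) (.nd (nat_lit 5) 
(.lf (nat_lit 136915) (.g (nat_lit 1695) (.e (nat_lit 24584) (nat_lit 0) (.e (nat_lit 6113) (nat_lit 332) (.e (nat_lit 1374) (nat_lit 104) (.e (nat_lit 303154) (nat_lit 28) .nil)))) .nil)) 
(.lf (nat_lit 136947) (.g (nat_lit 1986) (.e (nat_lit 24593) (nat_lit 0) (.e (nat_lit 1853) (nat_lit 124) (.e (nat_lit 557087) (nat_lit 11) (.e (nat_lit 24625) (nat_lit 9) .nil)))) .nil)))) (.nd (nat_lit 4) (.nd (nat_lit 5) 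
(.lf (nat_lit 136907) (.g (nat_lit 4044) (.e (nat_lit 24583) (nat_lit 0) (.e (nat_lit 1790) (nat_lit 119) (.e (nat_lit 516166) (nat_lit 12) (.e (nat_lit 450587) (nat_lit 10) (.e (nat_lit 573454) (nat_lit 9) .nil))))) .nil)) 
(.lf (nat_lit 136939) (.g (nat_lit 2053) (.e (nat_lit 24589) (nat_lit 0) (.e (nat_lit 1858) (nat_lit 124) (.e (nat_lit 557103) (nat_lit 14) (.e (nat_lit 180244) (nat_lit 5) .nil)))) .nil))) (.nd (nat_lit 5) 
(.lf (nat_lit 136923) (.g (nat_lit 2378) (.e (nat_lit 24588) (nat_lit 0) (.e (nat_lit 1842) (nat_lit 123) (.e (nat_lit 548873) (nat_lit 5) (.e (nat_lit 1598) (nat_lit 111) (.e (nat_lit 360466) (nat_lit 3) (.e (nat_lit 516117) (nat_lit 1) (.e (nat_lit 164427) (nat_lit 278) (.e (nat_lit 2555) (nat_lit 159) .nil)))))))) (.g (nat_lit 6) .nil .nil))) 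
(.lf (nat_lit 136955) (.g (nat_lit 669) (.e (nat_lit 24597) (nat_lit 1) (.e (nat_lit 57847) (nat_lit 252) (.e (nat_lit 57365) (nat_lit 1) .nil))) .nil))))) (.nd (nat_lit 3) (.nd (nat_lit 4) (.nd (nat_lit 5) 
(.lf (nat_lit 136903) (.g (nat_lit 1226) (.e (nat_lit 24580) (nat_lit 0) (.e (nat_lit 6712) (nat_lit 360) (.e (nat_lit 164017) (nat_lit 44) (.e (nat_lit 688183) (nat_lit 18) .nil)))) .nil)) 
(.lf (nat_lit 136935) (.g (nat_lit 2407) (.e (nat_lit 24589) (nat_lit 0) (.e (nat_lit 1842) (nat_lit 123) (.e (nat_lit 548873) (nat_lit 5) (.e (nat_lit 1598) (nat_lit 111) (.e (nat_lit 360466) (nat_lit 3) (.e (nat_lit 516120) (nat_lit 1) (.e (nat_lit 164427) (nat_lit 278) (.e (nat_lit 2555) (nat_lit 159) .nil)))))))) (.g (nat_lit 6) .nil .nil)))) (.nd (nat_lit 5) 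
(.lf (nat_lit 136919) (.g (nat_lit 1213) (.e (nat_lit 24588) (nat_lit 0) (.e (nat_lit 1788) (nat_lit 119) (.e (nat_lit 516195) (nat_lit 26) (.e (nat_lit 336004) (nat_lit 2) .nil)))) .nil)) 
(.lf (nat_lit 136951) (.g (nat_lit 5023) (.e (nat_lit 24596) (nat_lit 1) (.e (nat_lit 57847) (nat_lit 252) (.e (nat_lit 57377) (nat_lit 3) (.e (nat_lit 98317) (nat_lit 9) (.e (nat_lit 336203) (nat_lit 12) .nil))))) .nil)))) (.nd (nat_lit 4) (.nd (nat_lit 5) 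
(.lf (nat_lit 136911) (.g (nat_lit 1137) (.e (nat_lit 24584) (nat_lit 0) (.e (nat_lit 1996) (nat_lit 137) (.e (nat_lit 663554) (nat_lit 0) (.e (nat_lit 1669) (nat_lit 116) (.e (nat_lit 409344) (nat_lit 30) .nil))))) .nil)) 
(.lf (nat_lit 136943) (.g (nat_lit 3358) (.e (nat_lit 24591) (nat_lit 0) (.e (nat_lit 1858) (nat_lit 124) (.e (nat_lit 557105) (nat_lit 14) (.e (nat_lit 180252) (nat_lit 10) (.e (nat_lit 573474) (nat_lit 12) .nil))))) .nil))) (.nd (nat_lit 5) 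
(.lf (nat_lit 136927) (.g (nat_lit 442) (.e (nat_lit 24588) (nat_lit 0) (.e (nat_lit 1855) (nat_lit 124) (.e (nat_lit 557100) (nat_lit 13) .nil))) .nil)) 
(.lf (nat_lit 136959) (.g (nat_lit 2446) (.e (nat_lit 24597) (nat_lit 1) (.e (nat_lit 57847) (nat_lit 252) (.e (nat_lit 57368) (nat_lit 1) (.e (nat_lit 57854) (nat_lit 252) (.e (nat_lit 57427) (nat_lit 15) .nil))))) .nil))))))))

noncomputable def tv1820 : DT := (.nd (nat_lit 0) (.nd (nat_lit 1) (.nd (nat_lit 2) (.nd (nat_lit 3) (.nd (nat_lit 4) (.nd (nat_lit 5) (.nd (nat_lit 6) 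
(.lf (nat_lit 136960) (.g (nat_lit 2683) (.e (nat_lit 24597) (nat_lit 1) (.e (nat_lit 57847) (nat_lit 252) (.e (nat_lit 57370) (nat_lit 2) (.e (nat_lit 90158) (nat_lit 11) (.e (nat_lit 24648) (nat_lit 12) (.e (nat_lit 392960) (nat_lit 10) .nil)))))) (.g (nat_lit 4) .nil .nil))) 
(.lf (nat_lit 137024) (.g (nat_lit 2511) (.e (nat_lit 24598) (nat_lit 1) (.e (nat_lit 57854) (nat_lit 252) (.e (nat_lit 57371) (nat_lit 2) (.e (nat_lit 90160) (nat_lit 11) (.e (nat_lit 24651) (nat_lit 12) .nil))))) .nil))) (.nd (nat_lit 6) 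
(.lf (nat_lit 136992) (.g (nat_lit 3970) (.e (nat_lit 24597) (nat_lit 1) (.e (nat_lit 57849) (nat_lit 252) (.e (nat_lit 57375) (nat_lit 2) (.e (nat_lit 90160) (nat_lit 11) (.e (nat_lit 24653) (nat_lit 12) .nil))))) .nil)) 
(.lf (nat_lit 137056) (.g (nat_lit 2464) (.e (nat_lit 24599) (nat_lit 1) (.e (nat_lit 57847) (nat_lit 252) (.e (nat_lit 57375) (nat_lit 2) (.e (nat_lit 90160) (nat_lit 11) (.e (nat_lit 24653) (nat_lit 12) .nil))))) .nil)))) (.nd (nat_lit 5) (.nd (nat_lit 6) 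
(.lf (nat_lit 136976) (.g (nat_lit 5091) (.e (nat_lit 24597) (nat_lit 1) (.e (nat_lit 57847) (nat_lit 252) (.e (nat_lit 57377) (nat_lit 3) (.e (nat_lit 98317) (nat_lit 9) (.e (nat_lit 336203) (nat_lit 12) (.e (nat_lit 392960) (nat_lit 10) .nil)))))) (.g (nat_lit 5) .nil .nil))) 
(.lf (nat_lit 137040) (.g (nat_lit 3900) (.e (nat_lit 24598) (nat_lit 1) (.e (nat_lit 57854) (nat_lit 252) (.e (nat_lit 57373) (nat_lit 2) (.e (nat_lit 90160) (nat_lit 11) (.e (nat_lit 24653) (nat_lit 12) (.e (nat_lit 392960) (nat_lit 10) .nil)))))) (.g (nat_lit 5) .nil .nil)))) (.nd (nat_lit 6) 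
(.lf (nat_lit 137008) (.g (nat_lit 3236) (.e (nat_lit 24597) (nat_lit 1) (.e (nat_lit 57854) (nat_lit 252) (.e (nat_lit 57373) (nat_lit 2) (.e (nat_lit 90159) (nat_lit 11) .nil)))) .nil)) 
(.lf (nat_lit 137072) (.g (nat_lit 3638) (.e (nat_lit 24599) (nat_lit 1) (.e (nat_lit 57849) (nat_lit 252) (.e (nat_lit 57372) (nat_lit 2) (.e (nat_lit 90160) (nat_lit 11) (.e (nat_lit 24653) (nat_lit 12) (.e (nat_lit 392960) (nat_lit 10) .nil)))))) (.g (nat_lit 4) .nil .nil)))))) (.nd (nat_lit 4) (.nd (nat_lit 5) (.nd (nat_lit 6) 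
(.lf (nat_lit 136968) (.g (nat_lit 2590) (.e (nat_lit 24597) (nat_lit 1) (.e (nat_lit 57847) (nat_lit 252) (.e (nat_lit 57372) (nat_lit 2) (.e (nat_lit 90160) (nat_lit 11) (.e (nat_lit 24652) (nat_lit 12) .nil))))) .nil)) 
(.lf (nat_lit 137032) (.g (nat_lit 3691) (.e (nat_lit 24598) (nat_lit 1) (.e (nat_lit 57854) (nat_lit 252) (.e (nat_lit 57373) (nat_lit 2) (.e (nat_lit 90158) (nat_lit 11) (.e (nat_lit 24653) (nat_lit 12) .nil))))) .nil))) (.nd (nat_lit 6) 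
(.lf (nat_lit 137000) (.g (nat_lit 2600) (.e (nat_lit 24597) (nat_lit 1) (.e (nat_lit 57854) (nat_lit 252) (.e (nat_lit 57371) (nat_lit 2) (.e (nat_lit 90160) (nat_lit 11) (.e (nat_lit 24651) (nat_lit 12) (.e (nat_lit 392960) (nat_lit 10) .nil)))))) (.g (nat_lit 4) .nil .nil))) 
(.lf (nat_lit 137064) (.g (nat_lit 2192) (.e (nat_lit 24599) (nat_lit 1) (.e (nat_lit 57849) (nat_lit 252) (.e (nat_lit 57372) (nat_lit 2) (.e (nat_lit 90158) (nat_lit 11) (.e (nat_lit 24648) (nat_lit 12) (.e (nat_lit 392960) (nat_lit 10) .nil)))))) (.g (nat_lit 4) .nil .nil))))) (.nd (nat_lit 5) (.nd (nat_lit 6) 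
(.lf (nat_lit 136984) (.g (nat_lit 3807) (.e (nat_lit 24597) (nat_lit 1) (.e (nat_lit 57849) (nat_lit 252) (.e (nat_lit 57372) (nat_lit 2) (.e (nat_lit 90160) (nat_lit 11) (.e (nat_lit 24653) (nat_lit 12) (.e (nat_lit 392960) (nat_lit 10) .nil)))))) (.g (nat_lit 5) .nil .nil))) 
(.lf (nat_lit 137048) (.g (nat_lit 441) (.e (nat_lit 24599) (nat_lit 1) (.e (nat_lit 57847) (nat_lit 252) (.e (nat_lit 57372) (nat_lit 2) .nil))) .nil))) (.nd (nat_lit 6) 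
(.lf (nat_lit 137016) (.g (nat_lit 5212) (.e (nat_lit 24597) (nat_lit 1) (.e (nat_lit 57854) (nat_lit 252) (.e (nat_lit 57377) (nat_lit 3) (.e (nat_lit 98317) (nat_lit 9) (.e (nat_lit 336196) (nat_lit 12) (.e (nat_lit 392960) (nat_lit 10) .nil)))))) (.g (nat_lit 4) .nil .nil))) 
(.lf (nat_lit 137080) (.g (nat_lit 3719) (.e (nat_lit 24599) (nat_lit 1) (.e (nat_lit 57849) (nat_lit 252) (.e (nat_lit 57375) (nat_lit 2) (.e (nat_lit 90160) (nat_lit 11) (.e (nat_lit 24652) (nat_lit 12) .nil))))) .nil)))))) (.nd (nat_lit 3) (.nd (nat_lit 4) (.nd (nat_lit 5) (.nd (nat_lit 6) 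
(.lf (nat_lit 136964) (.g (nat_lit 1485) (.e (nat_lit 24597) (nat_lit 1) (.e (nat_lit 57847) (nat_lit 252) (.e (nat_lit 57372) (nat_lit 2) (.e (nat_lit 90158) (nat_lit 11) .nil)))) .nil)) 
(.lf (nat_lit 137028) (.g (nat_lit 2513) (.e (nat_lit 24598) (nat_lit 1) (.e (nat_lit 57854) (nat_lit 252) (.e (nat_lit 57373) (nat_lit 2) (.e (nat_lit 90158) (nat_lit 11) .nil)))) .nil))) (.nd (nat_lit 6) 
(.lf (nat_lit 136996) (.g (nat_lit 2591) (.e (nat_lit 24597) (nat_lit 1) (.e (nat_lit 57849) (nat_lit 252) (.e (nat_lit 57379) (nat_lit 3) (.e (nat_lit 98317) (nat_lit 9) (.e (nat_lit 336196) (nat_lit 12) .nil))))) .nil)) 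
(.lf (nat_lit 137060) (.g (nat_lit 1624) (.e (nat_lit 24599) (nat_lit 1) (.e (nat_lit 57848) (nat_lit 252) (.e (nat_lit 57372) (nat_lit 2) (.e (nat_lit 90160) (nat_lit 11) .nil)))) .nil)))) (.nd (nat_lit 5) (.nd (nat_lit 6) 
(.lf (nat_lit 136980) (.g (nat_lit 3459) (.e (nat_lit 24597) (nat_lit 1) (.e (nat_lit 57849) (nat_lit 252) (.e (nat_lit 57372) (nat_lit 2) (.e (nat_lit 90160) (nat_lit 11) (.e (nat_lit 24647) (nat_lit 12) .nil))))) .nil)) 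
(.lf (nat_lit 137044) (.g (nat_lit 426) (.e (nat_lit 24599) (nat_lit 1) (.e (nat_lit 57847) (nat_lit 252) (.e (nat_lit 57365) (nat_lit 1) .nil))) .nil))) (.nd (nat_lit 6) 
(.lf (nat_lit 137012) (.g (nat_lit 4131) (.e (nat_lit 24597) (nat_lit 1) (.e (nat_lit 57854) (nat_lit 252) (.e (nat_lit 57373) (nat_lit 2) (.e (nat_lit 90160) (nat_lit 11) (.e (nat_lit 24650) (nat_lit 12) (.e (nat_lit 392960) (nat_lit 10) .nil)))))) (.g (nat_lit 5) .nil .nil))) 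
(.lf (nat_lit 137076) (.g (nat_lit 2180) (.e (nat_lit 24599) (nat_lit 1) (.e (nat_lit 57849) (nat_lit 252) (.e (nat_lit 57375) (nat_lit 2) (.e (nat_lit 90158) (nat_lit 11) (.e (nat_lit 24653) (nat_lit 12) (.e (nat_lit 392960) (nat_lit 10) .nil)))))) (.g (nat_lit 4) .nil .nil)))))) (.nd (nat_lit 4) (.nd (nat_lit 5) (.nd (nat_lit 6) 
(.lf (nat_lit 136972) (.g (nat_lit 2559) (.e (nat_lit 24597) (nat_lit 1) (.e (nat_lit 57847) (nat_lit 252) (.e (nat_lit 57375) (nat_lit 2) (.e (nat_lit 90160) (nat_lit 11) (.e (nat_lit 24648) (nat_lit 12) (.e (nat_lit 392960) (nat_lit 10) .nil)))))) (.g (nat_lit 4) .nil .nil))) 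
(.lf (nat_lit 137036) (.g (nat_lit 3450) (.e (nat_lit 24598) (nat_lit 1) (.e (nat_lit 57854) (nat_lit 252) (.e (nat_lit 57373) (nat_lit 2) (.e (nat_lit 90160) (nat_lit 11) (.e (nat_lit 24649) (nat_lit 12) .nil))))) .nil))) (.nd (nat_lit 6) 
(.lf (nat_lit 137004) (.g (nat_lit 3757) (.e (nat_lit 24597) (nat_lit 1) (.e (nat_lit 57854) (nat_lit 252) (.e (nat_lit 57373) (nat_lit 2) (.e (nat_lit 90158) (nat_lit 11) (.e (nat_lit 24648) (nat_lit 12) .nil))))) .nil)) 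
(.lf (nat_lit 137068) (.g (nat_lit 3268) (.e (nat_lit 24599) (nat_lit 1) (.e (nat_lit 57849) (nat_lit 252) (.e (nat_lit 57372) (nat_lit 2) (.e (nat_lit 90160) (nat_lit 11) (.e (nat_lit 24647) (nat_lit 12) .nil))))) .nil)))) (.nd (nat_lit 5) (.nd (nat_lit 6) 
(.lf (nat_lit 136988) (.g (nat_lit 3728) (.e (nat_lit 24597) (nat_lit 1) (.e (nat_lit 57849) (nat_lit 252) (.e (nat_lit 57375) (nat_lit 2) (.e (nat_lit 90160) (nat_lit 11) (.e (nat_lit 24648) (nat_lit 12) .nil))))) .nil)) 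
(.lf (nat_lit 137052) (.g (nat_lit 2235) (.e (nat_lit 24599) (nat_lit 1) (.e (nat_lit 57847) (nat_lit 252) (.e (nat_lit 57372) (nat_lit 2) (.e (nat_lit 90160) (nat_lit 11) (.e (nat_lit 24653) (nat_lit 12) .nil))))) .nil))) (.nd (nat_lit 6) 
(.lf (nat_lit 137020) (.g (nat_lit 5377) (.e (nat_lit 24598) (nat_lit 1) (.e (nat_lit 57852) (nat_lit 252) (.e (nat_lit 57377) (nat_lit 3) (.e (nat_lit 98317) (nat_lit 9) (.e (nat_lit 336203) (nat_lit 12) .nil))))) .nil)) 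
(.lf (nat_lit 137084) (.g (nat_lit 2346) (.e (nat_lit 24599) (nat_lit 1) (.e (nat_lit 57849) (nat_lit 252) (.e (nat_lit 57379) (nat_lit 3) (.e (nat_lit 98317) (nat_lit 9) (.e (nat_lit 336196) (nat_lit 12) .nil))))) .nil))))))) (.nd (nat_lit 2) (.nd (nat_lit 3) (.nd (nat_lit 4) (.nd (nat_lit 5) (.nd (nat_lit 6) 
(.lf (nat_lit 136962) (.g (nat_lit 3042) (.e (nat_lit 24597) (nat_lit 1) (.e (nat_lit 57847) (nat_lit 252) (.e (nat_lit 57370) (nat_lit 2) (.e (nat_lit 90158) (nat_lit 11) (.e (nat_lit 24651) (nat_lit 12) (.e (nat_lit 392960) (nat_lit 10) .nil)))))) (.g (nat_lit 5) .nil .nil))) 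
(.lf (nat_lit 137026) (.g (nat_lit 566) (.e (nat_lit 24598) (nat_lit 1) (.e (nat_lit 57854) (nat_lit 252) (.e (nat_lit 57373) (nat_lit 2) .nil))) .nil))) (.nd (nat_lit 6) 
(.lf (nat_lit 136994) (.g (nat_lit 5652) (.e (nat_lit 24597) (nat_lit 1) (.e (nat_lit 57849) (nat_lit 252) (.e (nat_lit 57377) (nat_lit 3) (.e (nat_lit 98317) (nat_lit 9) (.e (nat_lit 336203) (nat_lit 12) (.e (nat_lit 392960) (nat_lit 10) .nil)))))) (.g (nat_lit 5) .nil .nil))) 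
(.lf (nat_lit 137058) (.g (nat_lit 4614) (.e (nat_lit 24599) (nat_lit 1) (.e (nat_lit 57847) (nat_lit 252) (.e (nat_lit 57377) (nat_lit 3) (.e (nat_lit 98317) (nat_lit 9) (.e (nat_lit 336203) (nat_lit 12) (.e (nat_lit 392960) (nat_lit 10) .nil)))))) (.g (nat_lit 4) .nil .nil))))) (.nd (nat_lit 5) (.nd (nat_lit 6) 
(.lf (nat_lit 136978) (.g (nat_lit 2428) (.e (nat_lit 24597) (nat_lit 1) (.e (nat_lit 57849) (nat_lit 252) (.e (nat_lit 57372) (nat_lit 2) (.e (nat_lit 90158) (nat_lit 11) (.e (nat_lit 24648) (nat_lit 12) (.e (nat_lit 392960) (nat_lit 10) .nil)))))) (.g (nat_lit 4) .nil .nil))) 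
(.lf (nat_lit 137042) (.g (nat_lit 4954) (.e (nat_lit 24598) (nat_lit 1) (.e (nat_lit 57854) (nat_lit 252) (.e (nat_lit 57377) (nat_lit 3) (.e (nat_lit 98317) (nat_lit 9) (.e (nat_lit 336203) (nat_lit 12) (.e (nat_lit 392960) (nat_lit 10) .nil)))))) (.g (nat_lit 4) .nil .nil)))) (.nd (nat_lit 6) 
(.lf (nat_lit 137010) (.g (nat_lit 4250) (.e (nat_lit 24597) (nat_lit 1) (.e (nat_lit 57854) (nat_lit 252) (.e (nat_lit 57373) (nat_lit 2) (.e (nat_lit 90160) (nat_lit 11) (.e (nat_lit 24648) (nat_lit 12) (.e (nat_lit 392960) (nat_lit 10) .nil)))))) (.g (nat_lit 5) .nil .nil))) 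
(.lf (nat_lit 137074) (.g (nat_lit 1971) (.e (nat_lit 24599) (nat_lit 1) (.e (nat_lit 57849) (nat_lit 252) (.e (nat_lit 57375) (nat_lit 2) (.e (nat_lit 90158) (nat_lit 11) (.e (nat_lit 24648) (nat_lit 12) (.e (nat_lit 392960) (nat_lit 10) .nil)))))) (.g (nat_lit 4) .nil .nil)))))) (.nd (nat_lit 4) (.nd (nat_lit 5) (.nd (nat_lit 6) 
(.lf (nat_lit 136970) (.g (nat_lit 669) (.e (nat_lit 24597) (nat_lit 1) (.e (nat_lit 57847) (nat_lit 252) (.e (nat_lit 57373) (nat_lit 2) .nil))) .nil)) 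
(.lf (nat_lit 137034) (.g (nat_lit 3436) (.e (nat_lit 24598) (nat_lit 1) (.e (nat_lit 57854) (nat_lit 252) (.e (nat_lit 57373) (nat_lit 2) (.e (nat_lit 90160) (nat_lit 11) (.e (nat_lit 24647) (nat_lit 12) .nil))))) .nil))) (.nd (nat_lit 6) 
(.lf (nat_lit 137002) (.g (nat_lit 596) (.e (nat_lit 24597) (nat_lit 1) (.e (nat_lit 57854) (nat_lit 252) (.e (nat_lit 57373) (nat_lit 2) .nil))) .nil)) 
(.lf (nat_lit 137066) (.g (nat_lit 2491) (.e (nat_lit 24599) (nat_lit 1) (.e (nat_lit 57849) (nat_lit 252) (.e (nat_lit 57372) (nat_lit 2) (.e (nat_lit 90158) (nat_lit 11) (.e (nat_lit 24651) (nat_lit 12) (.e (nat_lit 392960) (nat_lit 10) .nil)))))) (.g (nat_lit 5) .nil .nil))))) (.nd (nat_lit 5) (.nd (nat_lit 6) 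
(.lf (nat_lit 136986) (.g (nat_lit 2279) (.e (nat_lit 24597) (nat_lit 1) (.e (nat_lit 57849) (nat_lit 252) (.e (nat_lit 57375) (nat_lit 2) (.e (nat_lit 90158) (nat_lit 11) (.e (nat_lit 24648) (nat_lit 12) (.e (nat_lit 392960) (nat_lit 10) .nil)))))) (.g (nat_lit 4) .nil .nil))) 
(.lf (nat_lit 137050) (.g (nat_lit 2139) (.e (nat_lit 24599) (nat_lit 1) (.e (nat_lit 57847) (nat_lit 252) (.e (nat_lit 57372) (nat_lit 2) (.e (nat_lit 90160) (nat_lit 11) (.e (nat_lit 24650) (nat_lit 12) .nil))))) .nil))) (.nd (nat_lit 6) 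
(.lf (nat_lit 137018) (.g (nat_lit 788) (.e (nat_lit 24598) (nat_lit 1) (.e (nat_lit 57852) (nat_lit 252) (.e (nat_lit 57371) (nat_lit 2) .nil))) .nil)) 
(.lf (nat_lit 137082) (.g (nat_lit 5768) (.e (nat_lit 24599) (nat_lit 1) (.e (nat_lit 57849) (nat_lit 252) (.e (nat_lit 57377) (nat_lit 3) (.e (nat_lit 98317) (nat_lit 9) (.e (nat_lit 336196) (nat_lit 12) (.e (nat_lit 392960) (nat_lit 10) .nil)))))) (.g (nat_lit 5) .nil .nil))))))) (.nd (nat_lit 3) (.nd (nat_lit 4) (.nd (nat_lit 5) (.nd (nat_lit 6) 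
(.lf (nat_lit 136966) (.g (nat_lit 2809) (.e (nat_lit 24597) (nat_lit 1) (.e (nat_lit 57847) (nat_lit 252) (.e (nat_lit 57372) (nat_lit 2) (.e (nat_lit 90160) (nat_lit 11) (.e (nat_lit 24650) (nat_lit 12) (.e (nat_lit 392960) (nat_lit 10) .nil)))))) (.g (nat_lit 5) .nil .nil))) 
(.lf (nat_lit 137030) (.g (nat_lit 3673) (.e (nat_lit 24598) (nat_lit 1) (.e (nat_lit 57854) (nat_lit 252) (.e (nat_lit 57373) (nat_lit 2) (.e (nat_lit 90158) (nat_lit 11) (.e (nat_lit 24650) (nat_lit 12) .nil))))) .nil))) (.nd (nat_lit 6) 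
(.lf (nat_lit 136998) (.g (nat_lit 1216) (.e (nat_lit 24597) (nat_lit 1) (.e (nat_lit 57854) (nat_lit 252) (.e (nat_lit 57371) (nat_lit 2) (.e (nat_lit 90158) (nat_lit 11) .nil)))) .nil)) 
(.lf (nat_lit 137062) (.g (nat_lit 1608) (.e (nat_lit 24599) (nat_lit 1) (.e (nat_lit 57848) (nat_lit 252) (.e (nat_lit 57375) (nat_lit 2) (.e (nat_lit 90160) (nat_lit 11) .nil)))) .nil)))) (.nd (nat_lit 5) (.nd (nat_lit 6) 
(.lf (nat_lit 136982) (.g (nat_lit 3505) (.e (nat_lit 24597) (nat_lit 1) (.e (nat_lit 57849) (nat_lit 252) (.e (nat_lit 57372) (nat_lit 2) (.e (nat_lit 90160) (nat_lit 11) (.e (nat_lit 24650) (nat_lit 12) (.e (nat_lit 392960) (nat_lit 10) .nil)))))) (.g (nat_lit 4) .nil .nil))) 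
(.lf (nat_lit 137046) (.g (nat_lit 1963) (.e (nat_lit 24599) (nat_lit 1) (.e (nat_lit 57847) (nat_lit 252) (.e (nat_lit 57365) (nat_lit 1) (.e (nat_lit 57852) (nat_lit 252) (.e (nat_lit 57427) (nat_lit 15) .nil))))) .nil))) (.nd (nat_lit 6) 
(.lf (nat_lit 137014) (.g (nat_lit 3745) (.e (nat_lit 24597) (nat_lit 1) (.e (nat_lit 57854) (nat_lit 252) (.e (nat_lit 57373) (nat_lit 2) (.e (nat_lit 90160) (nat_lit 11) (.e (nat_lit 24652) (nat_lit 12) .nil))))) .nil)) 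
(.lf (nat_lit 137078) (.g (nat_lit 3673) (.e (nat_lit 24599) (nat_lit 1) (.e (nat_lit 57849) (nat_lit 252) (.e (nat_lit 57375) (nat_lit 2) (.e (nat_lit 90160) (nat_lit 11) (.e (nat_lit 24650) (nat_lit 12) .nil))))) .nil))))) (.nd (nat_lit 4) (.nd (nat_lit 5) (.nd (nat_lit 6) 
(.lf (nat_lit 136974) (.g (nat_lit 2774) (.e (nat_lit 24597) (nat_lit 1) (.e (nat_lit 57847) (nat_lit 252) (.e (nat_lit 57375) (nat_lit 2) (.e (nat_lit 90160) (nat_lit 11) (.e (nat_lit 24651) (nat_lit 12) .nil))))) .nil)) 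
(.lf (nat_lit 137038) (.g (nat_lit 3950) (.e (nat_lit 24598) (nat_lit 1) (.e (nat_lit 57854) (nat_lit 252) (.e (nat_lit 57373) (nat_lit 2) (.e (nat_lit 90160) (nat_lit 11) (.e (nat_lit 24651) (nat_lit 12) (.e (nat_lit 392960) (nat_lit 10) .nil)))))) (.g (nat_lit 5) .nil .nil)))) (.nd (nat_lit 6) 
(.lf (nat_lit 137006) (.g (nat_lit 3710) (.e (nat_lit 24597) (nat_lit 1) (.e (nat_lit 57854) (nat_lit 252) (.e (nat_lit 57373) (nat_lit 2) (.e (nat_lit 90158) (nat_lit 11) (.e (nat_lit 24651) (nat_lit 12) .nil))))) .nil)) 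
(.lf (nat_lit 137070) (.g (nat_lit 3285) (.e (nat_lit 24599) (nat_lit 1) (.e (nat_lit 57849) (nat_lit 252) (.e (nat_lit 57372) (nat_lit 2) (.e (nat_lit 90160) (nat_lit 11) (.e (nat_lit 24650) (nat_lit 12) (.e (nat_lit 392960) (nat_lit 10) .nil)))))) (.g (nat_lit 4) .nil .nil))))) (.nd (nat_lit 5) (.nd (nat_lit 6) 
(.lf (nat_lit 136990) (.g (nat_lit 3960) (.e (nat_lit 24597) (nat_lit 1) (.e (nat_lit 57849) (nat_lit 252) (.e (nat_lit 57375) (nat_lit 2) (.e (nat_lit 90160) (nat_lit 11) (.e (nat_lit 24651) (nat_lit 12) .nil))))) .nil)) 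
(.lf (nat_lit 137054) (.g (nat_lit 2412) (.e (nat_lit 24599) (nat_lit 1) (.e (nat_lit 57847) (nat_lit 252) (.e (nat_lit 57375) (nat_lit 2) (.e (nat_lit 90160) (nat_lit 11) (.e (nat_lit 24650) (nat_lit 12) .nil))))) .nil))) (.nd (nat_lit 6) 
(.lf (nat_lit 137022) (.g (nat_lit 1186) (.e (nat_lit 24598) (nat_lit 1) (.e (nat_lit 57854) (nat_lit 252) (.e (nat_lit 57371) (nat_lit 2) (.e (nat_lit 90158) (nat_lit 11) .nil)))) .nil)) 
(.lf (nat_lit 137086) (.g (nat_lit 844) (.e (nat_lit 24599) (nat_lit 1) (.e (nat_lit 57852) (nat_lit 252) (.e (nat_lit 65280) (nat_lit 62) .nil))) .nil)))))))) (.nd (nat_lit 1) (.nd (nat_lit 2) (.nd (nat_lit 3) (.nd (nat_lit 4) (.nd (nat_lit 5) (.nd (nat_lit 6) 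
(.lf (nat_lit 136961) (.g (nat_lit 2435) (.e (nat_lit 24597) (nat_lit 1) (.e (nat_lit 57847) (nat_lit 252) (.e (nat_lit 57370) (nat_lit 2) (.e (nat_lit 90158) (nat_lit 11) (.e (nat_lit 24650) (nat_lit 12) (.e (nat_lit 392960) (nat_lit 10) .nil)))))) (.g (nat_lit 4) .nil .nil))) 
(.lf (nat_lit 137025) (.g (nat_lit 2521) (.e (nat_lit 24598) (nat_lit 1) (.e (nat_lit 57854) (nat_lit 252) (.e (nat_lit 57371) (nat_lit 2) (.e (nat_lit 90160) (nat_lit 11) (.e (nat_lit 24653) (nat_lit 12) .nil))))) .nil))) (.nd (nat_lit 6) 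
(.lf (nat_lit 136993) (.g (nat_lit 5810) (.e (nat_lit 24597) (nat_lit 1) (.e (nat_lit 57849) (nat_lit 252) (.e (nat_lit 57377) (nat_lit 3) (.e (nat_lit 98317) (nat_lit 9) (.e (nat_lit 336196) (nat_lit 12) (.e (nat_lit 392960) (nat_lit 10) .nil)))))) (.g (nat_lit 5) .nil .nil))) 
(.lf (nat_lit 137057) (.g (nat_lit 4307) (.e (nat_lit 24599) (nat_lit 1) (.e (nat_lit 57847) (nat_lit 252) (.e (nat_lit 57377) (nat_lit 3) (.e (nat_lit 98317) (nat_lit 9) (.e (nat_lit 336196) (nat_lit 12) .nil))))) .nil)))) (.nd (nat_lit 5) (.nd (nat_lit 6) 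
(.lf (nat_lit 136977) (.g (nat_lit 743) (.e (nat_lit 24597) (nat_lit 1) (.e (nat_lit 57847) (nat_lit 252) (.e (nat_lit 57379) (nat_lit 3) .nil))) .nil)) 
(.lf (nat_lit 137041) (.g (nat_lit 5168) (.e (nat_lit 24598) (nat_lit 1) (.e (nat_lit 57854) (nat_lit 252) (.e (nat_lit 57377) (nat_lit 3) (.e (nat_lit 98317) (nat_lit 9) (.e (nat_lit 336196) (nat_lit 12) (.e (nat_lit 392960) (nat_lit 10) .nil)))))) (.g (nat_lit 4) .nil .nil)))) (.nd (nat_lit 6) 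
(.lf (nat_lit 137009) (.g (nat_lit 3731) (.e (nat_lit 24597) (nat_lit 1) (.e (nat_lit 57854) (nat_lit 252) (.e (nat_lit 57373) (nat_lit 2) (.e (nat_lit 90160) (nat_lit 11) (.e (nat_lit 24647) (nat_lit 12) .nil))))) .nil)) 
(.lf (nat_lit 137073) (.g (nat_lit 1198) (.e (nat_lit 24599) (nat_lit 1) (.e (nat_lit 57849) (nat_lit 252) (.e (nat_lit 57375) (nat_lit 2) (.e (nat_lit 90158) (nat_lit 11) .nil)))) .nil))))) (.nd (nat_lit 4) (.nd (nat_lit 5) (.nd (nat_lit 6) 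
(.lf (nat_lit 136969) (.g (nat_lit 3061) (.e (nat_lit 24597) (nat_lit 1) (.e (nat_lit 57847) (nat_lit 252) (.e (nat_lit 57372) (nat_lit 2) (.e (nat_lit 90160) (nat_lit 11) (.e (nat_lit 24653) (nat_lit 12) (.e (nat_lit 392960) (nat_lit 10) .nil)))))) (.g (nat_lit 5) .nil .nil))) 
(.lf (nat_lit 137033) (.g (nat_lit 3183) (.e (nat_lit 24598) (nat_lit 1) (.e (nat_lit 57854) (nat_lit 252) (.e (nat_lit 57373) (nat_lit 2) (.e (nat_lit 90159) (nat_lit 11) .nil)))) .nil))) (.nd (nat_lit 6) 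
(.lf (nat_lit 137001) (.g (nat_lit 2551) (.e (nat_lit 24597) (nat_lit 1) (.e (nat_lit 57854) (nat_lit 252) (.e (nat_lit 57371) (nat_lit 2) (.e (nat_lit 90160) (nat_lit 11) (.e (nat_lit 24653) (nat_lit 12) .nil))))) .nil)) 
(.lf (nat_lit 137065) (.g (nat_lit 2159) (.e (nat_lit 24599) (nat_lit 1) (.e (nat_lit 57849) (nat_lit 252) (.e (nat_lit 57372) (nat_lit 2) (.e (nat_lit 90158) (nat_lit 11) (.e (nat_lit 24650) (nat_lit 12) .nil))))) .nil)))) (.nd (nat_lit 5) (.nd (nat_lit 6) 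
(.lf (nat_lit 136985) (.g (nat_lit 1436) (.e (nat_lit 24597) (nat_lit 1) (.e (nat_lit 57849) (nat_lit 252) (.e (nat_lit 57375) (nat_lit 2) (.e (nat_lit 90158) (nat_lit 11) .nil)))) .nil)) 
(.lf (nat_lit 137049) (.g (nat_lit 1846) (.e (nat_lit 24599) (nat_lit 1) (.e (nat_lit 57847) (nat_lit 252) (.e (nat_lit 57372) (nat_lit 2) (.e (nat_lit 90160) (nat_lit 11) (.e (nat_lit 24648) (nat_lit 12) .nil))))) .nil))) (.nd (nat_lit 6) 
(.lf (nat_lit 137017) (.g (nat_lit 4947) (.e (nat_lit 24597) (nat_lit 1) (.e (nat_lit 57854) (nat_lit 252) (.e (nat_lit 57377) (nat_lit 3) (.e (nat_lit 98317) (nat_lit 9) (.e (nat_lit 336203) (nat_lit 12) .nil))))) .nil)) 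
(.lf (nat_lit 137081) (.g (nat_lit 3729) (.e (nat_lit 24599) (nat_lit 1) (.e (nat_lit 57849) (nat_lit 252) (.e (nat_lit 57375) (nat_lit 2) (.e (nat_lit 90160) (nat_lit 11) (.e (nat_lit 24653) (nat_lit 12) .nil))))) .nil)))))) (.nd (nat_lit 3) (.nd (nat_lit 4) (.nd (nat_lit 5) (.nd (nat_lit 6) 
(.lf (nat_lit 136965) (.g (nat_lit 2910) (.e (nat_lit 24597) (nat_lit 1) (.e (nat_lit 57847) (nat_lit 252) (.e (nat_lit 57372) (nat_lit 2) (.e (nat_lit 90160) (nat_lit 11) (.e (nat_lit 24648) (nat_lit 12) (.e (nat_lit 392960) (nat_lit 10) .nil)))))) (.g (nat_lit 5) .nil .nil))) 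
(.lf (nat_lit 137029) (.g (nat_lit 3675) (.e (nat_lit 24598) (nat_lit 1) (.e (nat_lit 57854) (nat_lit 252) (.e (nat_lit 57373) (nat_lit 2) (.e (nat_lit 90158) (nat_lit 11) (.e (nat_lit 24648) (nat_lit 12) .nil))))) .nil))) (.nd (nat_lit 6) 
(.lf (nat_lit 136997) (.g (nat_lit 2738) (.e (nat_lit 24597) (nat_lit 1) (.e (nat_lit 57849) (nat_lit 252) (.e (nat_lit 57379) (nat_lit 3) (.e (nat_lit 98317) (nat_lit 9) (.e (nat_lit 336203) (nat_lit 12) (.e (nat_lit 392960) (nat_lit 10) .nil)))))) (.g (nat_lit 4) .nil .nil))) 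
(.lf (nat_lit 137061) (.g (nat_lit 2001) (.e (nat_lit 24599) (nat_lit 1) (.e (nat_lit 57848) (nat_lit 252) (.e (nat_lit 57375) (nat_lit 2) (.e (nat_lit 90159) (nat_lit 11) (.e (nat_lit 24650) (nat_lit 12) (.e (nat_lit 392960) (nat_lit 10) .nil)))))) (.g (nat_lit 5) .nil .nil))))) (.nd (nat_lit 5) (.nd (nat_lit 6) 
(.lf (nat_lit 136981) (.g (nat_lit 3466) (.e (nat_lit 24597) (nat_lit 1) (.e (nat_lit 57849) (nat_lit 252) (.e (nat_lit 57372) (nat_lit 2) (.e (nat_lit 90160) (nat_lit 11) (.e (nat_lit 24649) (nat_lit 12) .nil))))) .nil)) 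
(.lf (nat_lit 137045) (.g (nat_lit 2385) (.e (nat_lit 24599) (nat_lit 1) (.e (nat_lit 57847) (nat_lit 252) (.e (nat_lit 57365) (nat_lit 1) (.e (nat_lit 57851) (nat_lit 252) (.e (nat_lit 57427) (nat_lit 15) (.e (nat_lit 360483) (nat_lit 15) (.e (nat_lit 647179) (nat_lit 2) .nil))))))) (.g (nat_lit 5) .nil .nil)))) (.nd (nat_lit 6) 
(.lf (nat_lit 137013) (.g (nat_lit 4350) (.e (nat_lit 24597) (nat_lit 1) (.e (nat_lit 57854) (nat_lit 252) (.e (nat_lit 57373) (nat_lit 2) (.e (nat_lit 90160) (nat_lit 11) (.e (nat_lit 24651) (nat_lit 12) (.e (nat_lit 392960) (nat_lit 10) .nil)))))) (.g (nat_lit 5) .nil .nil))) 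
(.lf (nat_lit 137077) (.g (nat_lit 3487) (.e (nat_lit 24599) (nat_lit 1) (.e (nat_lit 57849) (nat_lit 252) (.e (nat_lit 57375) (nat_lit 2) (.e (nat_lit 90160) (nat_lit 11) (.e (nat_lit 24648) (nat_lit 12) .nil))))) .nil))))) (.nd (nat_lit 4) (.nd (nat_lit 5) (.nd (nat_lit 6) 
(.lf (nat_lit 136973) (.g (nat_lit 2732) (.e (nat_lit 24597) (nat_lit 1) (.e (nat_lit 57847) (nat_lit 252) (.e (nat_lit 57375) (nat_lit 2) (.e (nat_lit 90160) (nat_lit 11) (.e (nat_lit 24650) (nat_lit 12) .nil))))) .nil)) 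
(.lf (nat_lit 137037) (.g (nat_lit 3731) (.e (nat_lit 24598) (nat_lit 1) (.e (nat_lit 57854) (nat_lit 252) (.e (nat_lit 57373) (nat_lit 2) (.e (nat_lit 90160) (nat_lit 11) (.e (nat_lit 24650) (nat_lit 12) (.e (nat_lit 392960) (nat_lit 10) .nil)))))) (.g (nat_lit 5) .nil .nil)))) (.nd (nat_lit 6) 
(.lf (nat_lit 137005) (.g (nat_lit 3754) (.e (nat_lit 24597) (nat_lit 1) (.e (nat_lit 57854) (nat_lit 252) (.e (nat_lit 57373) (nat_lit 2) (.e (nat_lit 90158) (nat_lit 11) (.e (nat_lit 24650) (nat_lit 12) .nil))))) .nil)) 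
(.lf (nat_lit 137069) (.g (nat_lit 3275) (.e (nat_lit 24599) (nat_lit 1) (.e (nat_lit 57849) (nat_lit 252) (.e (nat_lit 57372) (nat_lit 2) (.e (nat_lit 90160) (nat_lit 11) (.e (nat_lit 24649) (nat_lit 12) .nil))))) .nil)))) (.nd (nat_lit 5) (.nd (nat_lit 6) 
(.lf (nat_lit 136989) (.g (nat_lit 3914) (.e (nat_lit 24597) (nat_lit 1) (.e (nat_lit 57849) (nat_lit 252) (.e (nat_lit 57375) (nat_lit 2) (.e (nat_lit 90160) (nat_lit 11) (.e (nat_lit 24650) (nat_lit 12) .nil))))) .nil)) 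
(.lf (nat_lit 137053) (.g (nat_lit 2162) (.e (nat_lit 24599) (nat_lit 1) (.e (nat_lit 57847) (nat_lit 252) (.e (nat_lit 57375) (nat_lit 2) (.e (nat_lit 90160) (nat_lit 11) (.e (nat_lit 24648) (nat_lit 12) .nil))))) .nil))) (.nd (nat_lit 6) 
(.lf (nat_lit 137021) (.g (nat_lit 815) (.e (nat_lit 24598) (nat_lit 1) (.e (nat_lit 57852) (nat_lit 252) (.e (nat_lit 65280) (nat_lit 62) .nil))) .nil)) 
(.lf (nat_lit 137085) (.g (nat_lit 2506) (.e (nat_lit 24599) (nat_lit 1) (.e (nat_lit 57849) (nat_lit 252) (.e (nat_lit 57379) (nat_lit 3) (.e (nat_lit 98317) (nat_lit 9) (.e (nat_lit 336203) (nat_lit 12) (.e (nat_lit 392960) (nat_lit 10) .nil)))))) (.g (nat_lit 4) .nil .nil)))))))) (.nd (nat_lit 2) (.nd (nat_lit 3) (.nd (nat_lit 4) (.nd (nat_lit 5) (.nd (nat_lit 6) 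
(.lf (nat_lit 136963) (.g (nat_lit 2941) (.e (nat_lit 24597) (nat_lit 1) (.e (nat_lit 57847) (nat_lit 252) (.e (nat_lit 57370) (nat_lit 2) (.e (nat_lit 90158) (nat_lit 11) (.e (nat_lit 24653) (nat_lit 12) (.e (nat_lit 392960) (nat_lit 10) .nil)))))) (.g (nat_lit 5) .nil .nil))) 
(.lf (nat_lit 137027) (.g (nat_lit 2580) (.e (nat_lit 24598) (nat_lit 1) (.e (nat_lit 57854) (nat_lit 252) (.e (nat_lit 57373) (nat_lit 2) (.e (nat_lit 90155) (nat_lit 10) .nil)))) .nil))) (.nd (nat_lit 6) 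
(.lf (nat_lit 136995) (.g (nat_lit 807) (.e (nat_lit 24597) (nat_lit 1) (.e (nat_lit 57849) (nat_lit 252) (.e (nat_lit 57379) (nat_lit 3) .nil))) .nil)) 
(.lf (nat_lit 137059) (.g (nat_lit 1940) (.e (nat_lit 24599) (nat_lit 1) (.e (nat_lit 57848) (nat_lit 252) (.e (nat_lit 57372) (nat_lit 2) (.e (nat_lit 90159) (nat_lit 11) (.e (nat_lit 24650) (nat_lit 12) (.e (nat_lit 392960) (nat_lit 10) .nil)))))) (.g (nat_lit 5) .nil .nil))))) (.nd (nat_lit 5) (.nd (nat_lit 6) 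
(.lf (nat_lit 136979) (.g (nat_lit 2350) (.e (nat_lit 24597) (nat_lit 1) (.e (nat_lit 57849) (nat_lit 252) (.e (nat_lit 57372) (nat_lit 2) (.e (nat_lit 90158) (nat_lit 11) (.e (nat_lit 24650) (nat_lit 12) .nil))))) .nil)) 
(.lf (nat_lit 137043) (.g (nat_lit 1809) (.e (nat_lit 24598) (nat_lit 1) (.e (nat_lit 57854) (nat_lit 252) (.e (nat_lit 57378) (nat_lit 3) (.e (nat_lit 98334) (nat_lit 18) .nil)))) .nil))) (.nd (nat_lit 6) 
(.lf (nat_lit 137011) (.g (nat_lit 3745) (.e (nat_lit 24597) (nat_lit 1) (.e (nat_lit 57854) (nat_lit 252) (.e (nat_lit 57373) (nat_lit 2) (.e (nat_lit 90160) (nat_lit 11) (.e (nat_lit 24649) (nat_lit 12) .nil))))) .nil)) 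
(.lf (nat_lit 137075) (.g (nat_lit 1958) (.e (nat_lit 24599) (nat_lit 1) (.e (nat_lit 57849) (nat_lit 252) (.e (nat_lit 57375) (nat_lit 2) (.e (nat_lit 90158) (nat_lit 11) (.e (nat_lit 24650) (nat_lit 12) .nil))))) .nil))))) (.nd (nat_lit 4) (.nd (nat_lit 5) (.nd (nat_lit 6) 
(.lf (nat_lit 136971) (.g (nat_lit 1765) (.e (nat_lit 24597) (nat_lit 1) (.e (nat_lit 57847) (nat_lit 252) (.e (nat_lit 57373) (nat_lit 2) (.e (nat_lit 90160) (nat_lit 11) .nil)))) .nil)) 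
(.lf (nat_lit 137035) (.g (nat_lit 3885) (.e (nat_lit 24598) (nat_lit 1) (.e (nat_lit 57854) (nat_lit 252) (.e (nat_lit 57373) (nat_lit 2) (.e (nat_lit 90160) (nat_lit 11) (.e (nat_lit 24648) (nat_lit 12) (.e (nat_lit 392960) (nat_lit 10) .nil)))))) (.g (nat_lit 5) .nil .nil)))) (.nd (nat_lit 6) 
(.lf (nat_lit 137003) (.g (nat_lit 2566) (.e (nat_lit 24597) (nat_lit 1) (.e (nat_lit 57854) (nat_lit 252) (.e (nat_lit 57373) (nat_lit 2) (.e (nat_lit 90158) (nat_lit 11) .nil)))) .nil)) 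
(.lf (nat_lit 137067) (.g (nat_lit 2401) (.e (nat_lit 24599) (nat_lit 1) (.e (nat_lit 57849) (nat_lit 252) (.e (nat_lit 57372) (nat_lit 2) (.e (nat_lit 90158) (nat_lit 11) (.e (nat_lit 24653) (nat_lit 12) (.e (nat_lit 392960) (nat_lit 10) .nil)))))) (.g (nat_lit 4) .nil .nil))))) (.nd (nat_lit 5) (.nd (nat_lit 6) 
(.lf (nat_lit 136987) (.g (nat_lit 2196) (.e (nat_lit 24597) (nat_lit 1) (.e (nat_lit 57849) (nat_lit 252) (.e (nat_lit 57375) (nat_lit 2) (.e (nat_lit 90158) (nat_lit 11) (.e (nat_lit 24650) (nat_lit 12) .nil))))) .nil)) 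
(.lf (nat_lit 137051) (.g (nat_lit 2225) (.e (nat_lit 24599) (nat_lit 1) (.e (nat_lit 57847) (nat_lit 252) (.e (nat_lit 57372) (nat_lit 2) (.e (nat_lit 90160) (nat_lit 11) (.e (nat_lit 24651) (nat_lit 12) .nil))))) .nil))) (.nd (nat_lit 6) 
(.lf (nat_lit 137019) (.g (nat_lit 994) (.e (nat_lit 24598) (nat_lit 1) (.e (nat_lit 57852) (nat_lit 252) (.e (nat_lit 57373) (nat_lit 2) .nil))) .nil)) 
(.lf (nat_lit 137083) (.g (nat_lit 5681) (.e (nat_lit 24599) (nat_lit 1) (.e (nat_lit 57849) (nat_lit 252) (.e (nat_lit 57377) (nat_lit 3) (.e (nat_lit 98317) (nat_lit 9) (.e (nat_lit 336203) (nat_lit 12) (.e (nat_lit 392960) (nat_lit 10) .nil)))))) (.g (nat_lit 5) .nil .nil))))))) (.nd (nat_lit 3) (.nd (nat_lit 4) (.nd (nat_lit 5) (.nd (nat_lit 6) 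
(.lf (nat_lit 136967) (.g (nat_lit 3105) (.e (nat_lit 24597) (nat_lit 1) (.e (nat_lit 57847) (nat_lit 252) (.e (nat_lit 57372) (nat_lit 2) (.e (nat_lit 90160) (nat_lit 11) (.e (nat_lit 24651) (nat_lit 12) (.e (nat_lit 392960) (nat_lit 10) .nil)))))) (.g (nat_lit 5) .nil .nil))) 
(.lf (nat_lit 137031) (.g (nat_lit 3629) (.e (nat_lit 24598) (nat_lit 1) (.e (nat_lit 57854) (nat_lit 252) (.e (nat_lit 57373) (nat_lit 2) (.e (nat_lit 90158) (nat_lit 11) (.e (nat_lit 24651) (nat_lit 12) .nil))))) .nil))) (.nd (nat_lit 6) 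
(.lf (nat_lit 136999) (.g (nat_lit 2435) (.e (nat_lit 24597) (nat_lit 1) (.e (nat_lit 57854) (nat_lit 252) (.e (nat_lit 57371) (nat_lit 2) (.e (nat_lit 90160) (nat_lit 11) (.e (nat_lit 24650) (nat_lit 12) .nil))))) .nil)) 
(.lf (nat_lit 137063) (.g (nat_lit 2031) (.e (nat_lit 24599) (nat_lit 1) (.e (nat_lit 57849) (nat_lit 252) (.e (nat_lit 57372) (nat_lit 2) (.e (nat_lit 90155) (nat_lit 10) .nil)))) .nil)))) (.nd (nat_lit 5) (.nd (nat_lit 6) 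
(.lf (nat_lit 136983) (.g (nat_lit 3466) (.e (nat_lit 24597) (nat_lit 1) (.e (nat_lit 57849) (nat_lit 252) (.e (nat_lit 57372) (nat_lit 2) (.e (nat_lit 90160) (nat_lit 11) (.e (nat_lit 24652) (nat_lit 12) .nil))))) .nil)) 
(.lf (nat_lit 137047) (.g (nat_lit 2260) (.e (nat_lit 24599) (nat_lit 1) (.e (nat_lit 57847) (nat_lit 252) (.e (nat_lit 57368) (nat_lit 1) (.e (nat_lit 57854) (nat_lit 252) (.e (nat_lit 57427) (nat_lit 15) .nil))))) .nil))) (.nd (nat_lit 6) 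
(.lf (nat_lit 137015) (.g (nat_lit 4290) (.e (nat_lit 24597) (nat_lit 1) (.e (nat_lit 57854) (nat_lit 252) (.e (nat_lit 57373) (nat_lit 2) (.e (nat_lit 90160) (nat_lit 11) (.e (nat_lit 24653) (nat_lit 12) (.e (nat_lit 392960) (nat_lit 10) .nil)))))) (.g (nat_lit 5) .nil .nil))) 
(.lf (nat_lit 137079) (.g (nat_lit 3719) (.e (nat_lit 24599) (nat_lit 1) (.e (nat_lit 57849) (nat_lit 252) (.e (nat_lit 57375) (nat_lit 2) (.e (nat_lit 90160) (nat_lit 11) (.e (nat_lit 24651) (nat_lit 12) .nil))))) .nil))))) (.nd (nat_lit 4) (.nd (nat_lit 5) (.nd (nat_lit 6) 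
(.lf (nat_lit 136975) (.g (nat_lit 2784) (.e (nat_lit 24597) (nat_lit 1) (.e (nat_lit 57847) (nat_lit 252) (.e (nat_lit 57375) (nat_lit 2) (.e (nat_lit 90160) (nat_lit 11) (.e (nat_lit 24653) (nat_lit 12) .nil))))) .nil)) 
(.lf (nat_lit 137039) (.g (nat_lit 3450) (.e (nat_lit 24598) (nat_lit 1) (.e (nat_lit 57854) (nat_lit 252) (.e (nat_lit 57373) (nat_lit 2) (.e (nat_lit 90160) (nat_lit 11) (.e (nat_lit 24652) (nat_lit 12) .nil))))) .nil))) (.nd (nat_lit 6) 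
(.lf (nat_lit 137007) (.g (nat_lit 3772) (.e (nat_lit 24597) (nat_lit 1) (.e (nat_lit 57854) (nat_lit 252) (.e (nat_lit 57373) (nat_lit 2) (.e (nat_lit 90158) (nat_lit 11) (.e (nat_lit 24653) (nat_lit 12) .nil))))) .nil)) 
(.lf (nat_lit 137071) (.g (nat_lit 3275) (.e (nat_lit 24599) (nat_lit 1) (.e (nat_lit 57849) (nat_lit 252) (.e (nat_lit 57372) (nat_lit 2) (.e (nat_lit 90160) (nat_lit 11) (.e (nat_lit 24652) (nat_lit 12) .nil))))) .nil)))) (.nd (nat_lit 5) (.nd (nat_lit 6) 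
(.lf (nat_lit 136991) (.g (nat_lit 3960) (.e (nat_lit 24597) (nat_lit 1) (.e (nat_lit 57849) (nat_lit 252) (.e (nat_lit 57375) (nat_lit 2) (.e (nat_lit 90160) (nat_lit 11) (.e (nat_lit 24652) (nat_lit 12) .nil))))) .nil)) 
(.lf (nat_lit 137055) (.g (nat_lit 2455) (.e (nat_lit 24599) (nat_lit 1) (.e (nat_lit 57847) (nat_lit 252) (.e (nat_lit 57375) (nat_lit 2) (.e (nat_lit 90160) (nat_lit 11) (.e (nat_lit 24651) (nat_lit 12) .nil))))) .nil))) (.nd (nat_lit 6) 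
(.lf (nat_lit 137023) (.g (nat_lit 2405) (.e (nat_lit 24598) (nat_lit 1) (.e (nat_lit 57854) (nat_lit 252) (.e (nat_lit 57371) (nat_lit 2) (.e (nat_lit 90160) (nat_lit 11) (.e (nat_lit 24650) (nat_lit 12) .nil))))) .nil)) 
(.lf (nat_lit 137087) (.g (nat_lit 2762) (.e (nat_lit 24599) (nat_lit 1) (.e (nat_lit 57854) (nat_lit 252) (.e (nat_lit 57371) (nat_lit 2) (.e (nat_lit 90160) (nat_lit 11) (.e (nat_lit 24648) (nat_lit 12) (.e (nat_lit 392960) (nat_lit 10) .nil)))))) (.g (nat_lit 5) .nil .nil))))))))))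

noncomputable def tv1821 : DT := (.nd (nat_lit 0) (.nd (nat_lit 1) (.nd (nat_lit 2) (.nd (nat_lit 3) (.nd (nat_lit 4) (.nd (nat_lit 5) (.nd (nat_lit 6) 
(.lf (nat_lit 137088) (.g (nat_lit 2504) (.e (nat_lit 24599) (nat_lit 1) (.e (nat_lit 57854) (nat_lit 252) (.e (nat_lit 57371) (nat_lit 2) (.e (nat_lit 90160) (nat_lit 11) (.e (nat_lit 24650) (nat_lit 12) (.e (nat_lit 392960) (nat_lit 10) .nil)))))) (.g (nat_lit 4) .nil .nil))) 
(.lf (nat_lit 137152) (.g (nat_lit 1483) (.e (nat_lit 24602) (nat_lit 2) (.e (nat_lit 90158) (nat_lit 11) (.e (nat_lit 24604) (nat_lit 2) (.e (nat_lit 90133) (nat_lit 9) .nil)))) .nil))) (.nd (nat_lit 6) 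
(.lf (nat_lit 137120) (.g (nat_lit 2107) (.e (nat_lit 24601) (nat_lit 2) (.e (nat_lit 90158) (nat_lit 11) (.e (nat_lit 24607) (nat_lit 3) (.e (nat_lit 98317) (nat_lit 9) (.e (nat_lit 336012) (nat_lit 2) (.e (nat_lit 90158) (nat_lit 11) .nil)))))) (.g (nat_lit 4) .nil .nil))) 
(.lf (nat_lit 137184) (.g (nat_lit 3094) (.e (nat_lit 24602) (nat_lit 2) (.e (nat_lit 90158) (nat_lit 11) (.e (nat_lit 24608) (nat_lit 3) (.e (nat_lit 98313) (nat_lit 9) (.e (nat_lit 336011) (nat_lit 2) (.e (nat_lit 90157) (nat_lit 11) .nil)))))) (.g (nat_lit 0) .nil .nil))))) (.nd (nat_lit 5) (.nd (nat_lit 6) 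
(.lf (nat_lit 137104) (.g (nat_lit 3518) (.e (nat_lit 24599) (nat_lit 1) (.e (nat_lit 57854) (nat_lit 252) (.e (nat_lit 57373) (nat_lit 2) (.e (nat_lit 90160) (nat_lit 11) (.e (nat_lit 24653) (nat_lit 12) (.e (nat_lit 392960) (nat_lit 10) .nil)))))) (.g (nat_lit 4) .nil .nil))) 
(.lf (nat_lit 137168) (.g (nat_lit 3218) (.e (nat_lit 24602) (nat_lit 2) (.e (nat_lit 90158) (nat_lit 11) (.e (nat_lit 24607) (nat_lit 3) (.e (nat_lit 98313) (nat_lit 9) (.e (nat_lit 336004) (nat_lit 2) (.e (nat_lit 90158) (nat_lit 11) .nil)))))) (.g (nat_lit 0) .nil .nil)))) (.nd (nat_lit 6) 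
(.lf (nat_lit 137136) (.g (nat_lit 846) (.e (nat_lit 24601) (nat_lit 2) (.e (nat_lit 90185) (nat_lit 17) (.e (nat_lit 237605) (nat_lit 9) .nil))) .nil)) 
(.lf (nat_lit 137200) (.g (nat_lit 2236) (.e (nat_lit 24602) (nat_lit 2) (.e (nat_lit 90158) (nat_lit 11) (.e (nat_lit 24609) (nat_lit 3) (.e (nat_lit 98317) (nat_lit 9) (.e (nat_lit 336012) (nat_lit 2) (.e (nat_lit 90159) (nat_lit 11) .nil)))))) (.g (nat_lit 5) .nil .nil)))))) (.nd (nat_lit 4) (.nd (nat_lit 5) (.nd (nat_lit 6) 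
(.lf (nat_lit 137096) (.g (nat_lit 3446) (.e (nat_lit 24599) (nat_lit 1) (.e (nat_lit 57854) (nat_lit 252) (.e (nat_lit 57373) (nat_lit 2) (.e (nat_lit 90158) (nat_lit 11) (.e (nat_lit 24652) (nat_lit 12) .nil))))) .nil)) 
(.lf (nat_lit 137160) (.g (nat_lit 442) (.e (nat_lit 24602) (nat_lit 2) (.e (nat_lit 90158) (nat_lit 11) (.e (nat_lit 24605) (nat_lit 2) .nil))) .nil))) (.nd (nat_lit 6) 
(.lf (nat_lit 137128) (.g (nat_lit 3443) (.e (nat_lit 24601) (nat_lit 2) (.e (nat_lit 90170) (nat_lit 13) (.e (nat_lit 172106) (nat_lit 10) (.e (nat_lit 434244) (nat_lit 28) (.e (nat_lit 573454) (nat_lit 9) (.e (nat_lit 1315) (nat_lit 98) (.e (nat_lit 147496) (nat_lit 11) .nil))))))) (.g (nat_lit 5) .nil .nil))) 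
(.lf (nat_lit 137192) (.g (nat_lit 1934) (.e (nat_lit 24602) (nat_lit 2) (.e (nat_lit 90158) (nat_lit 11) (.e (nat_lit 24608) (nat_lit 3) (.e (nat_lit 98317) (nat_lit 9) (.e (nat_lit 336009) (nat_lit 2) .nil))))) .nil)))) (.nd (nat_lit 5) (.nd (nat_lit 6) 
(.lf (nat_lit 137112) (.g (nat_lit 5023) (.e (nat_lit 24600) (nat_lit 1) (.e (nat_lit 57847) (nat_lit 252) (.e (nat_lit 57377) (nat_lit 3) (.e (nat_lit 98317) (nat_lit 9) (.e (nat_lit 336203) (nat_lit 12) .nil))))) .nil)) 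
(.lf (nat_lit 137176) (.g (nat_lit 3333) (.e (nat_lit 24602) (nat_lit 2) (.e (nat_lit 90158) (nat_lit 11) (.e (nat_lit 24607) (nat_lit 3) (.e (nat_lit 98317) (nat_lit 9) (.e (nat_lit 336011) (nat_lit 2) (.e (nat_lit 90157) (nat_lit 11) .nil)))))) (.g (nat_lit 0) .nil .nil)))) (.nd (nat_lit 6) 
(.lf (nat_lit 137144) (.g (nat_lit 2687) (.e (nat_lit 24602) (nat_lit 2) (.e (nat_lit 90158) (nat_lit 11) (.e (nat_lit 24602) (nat_lit 2) (.e (nat_lit 90158) (nat_lit 11) (.e (nat_lit 24604) (nat_lit 2) (.e (nat_lit 90157) (nat_lit 11) .nil)))))) (.g (nat_lit 6) .nil .nil))) 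
(.lf (nat_lit 137208) (.g (nat_lit 1070) (.e (nat_lit 24602) (nat_lit 2) (.e (nat_lit 90185) (nat_lit 17) (.e (nat_lit 237600) (nat_lit 9) .nil))) .nil)))))) (.nd (nat_lit 3) (.nd (nat_lit 4) (.nd (nat_lit 5) (.nd (nat_lit 6) 
(.lf (nat_lit 137092) (.g (nat_lit 2574) (.e (nat_lit 24599) (nat_lit 1) (.e (nat_lit 57854) (nat_lit 252) (.e (nat_lit 57373) (nat_lit 2) (.e (nat_lit 90155) (nat_lit 10) .nil)))) .nil)) 
(.lf (nat_lit 137156) (.g (nat_lit 2882) (.e (nat_lit 24602) (nat_lit 2) (.e (nat_lit 90158) (nat_lit 11) (.e (nat_lit 24604) (nat_lit 2) (.e (nat_lit 90158) (nat_lit 11) (.e (nat_lit 24605) (nat_lit 2) (.e (nat_lit 90158) (nat_lit 11) .nil)))))) (.g (nat_lit 0) .nil .nil)))) (.nd (nat_lit 6) 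
(.lf (nat_lit 137124) (.g (nat_lit 2150) (.e (nat_lit 24601) (nat_lit 2) (.e (nat_lit 90160) (nat_lit 11) (.e (nat_lit 24607) (nat_lit 3) (.e (nat_lit 98313) (nat_lit 9) .nil)))) .nil)) 
(.lf (nat_lit 137188) (.g (nat_lit 1144) (.e (nat_lit 24602) (nat_lit 2) (.e (nat_lit 90158) (nat_lit 11) (.e (nat_lit 24608) (nat_lit 3) (.e (nat_lit 98317) (nat_lit 9) .nil)))) .nil)))) (.nd (nat_lit 5) (.nd (nat_lit 6) 
(.lf (nat_lit 137108) (.g (nat_lit 1890) (.e (nat_lit 24599) (nat_lit 1) (.e (nat_lit 57924) (nat_lit 282) (.e (nat_lit 163902) (nat_lit 12) (.e (nat_lit 426555) (nat_lit 32) (.e (nat_lit 376862) (nat_lit 22) .nil))))) .nil)) 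
(.lf (nat_lit 137172) (.g (nat_lit 1182) (.e (nat_lit 24602) (nat_lit 2) (.e (nat_lit 90158) (nat_lit 11) (.e (nat_lit 24607) (nat_lit 3) (.e (nat_lit 98317) (nat_lit 9) .nil)))) .nil))) (.nd (nat_lit 6) 
(.lf (nat_lit 137140) (.g (nat_lit 1367) (.e (nat_lit 24602) (nat_lit 2) (.e (nat_lit 90157) (nat_lit 11) (.e (nat_lit 24607) (nat_lit 3) (.e (nat_lit 98317) (nat_lit 9) (.e (nat_lit 336012) (nat_lit 2) .nil))))) .nil)) 
(.lf (nat_lit 137204) (.g (nat_lit 2628) (.e (nat_lit 24602) (nat_lit 2) (.e (nat_lit 90170) (nat_lit 13) (.e (nat_lit 172106) (nat_lit 10) (.e (nat_lit 434244) (nat_lit 28) (.e (nat_lit 573454) (nat_lit 9) .nil))))) .nil))))) (.nd (nat_lit 4) (.nd (nat_lit 5) (.nd (nat_lit 6) 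
(.lf (nat_lit 137100) (.g (nat_lit 3064) (.e (nat_lit 24599) (nat_lit 1) (.e (nat_lit 57854) (nat_lit 252) (.e (nat_lit 57373) (nat_lit 2) (.e (nat_lit 90160) (nat_lit 11) (.e (nat_lit 24649) (nat_lit 12) .nil))))) .nil)) 
(.lf (nat_lit 137164) (.g (nat_lit 2350) (.e (nat_lit 24602) (nat_lit 2) (.e (nat_lit 90158) (nat_lit 11) (.e (nat_lit 24605) (nat_lit 2) (.e (nat_lit 90158) (nat_lit 11) (.e (nat_lit 24604) (nat_lit 2) (.e (nat_lit 90159) (nat_lit 11) .nil)))))) (.g (nat_lit 5) .nil .nil)))) (.nd (nat_lit 6) 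
(.lf (nat_lit 137132) (.g (nat_lit 1380) (.e (nat_lit 24601) (nat_lit 2) (.e (nat_lit 90176) (nat_lit 15) (.e (nat_lit 188450) (nat_lit 23) (.e (nat_lit 204817) (nat_lit 17) .nil)))) .nil)) 
(.lf (nat_lit 137196) (.g (nat_lit 445) (.e (nat_lit 24602) (nat_lit 2) (.e (nat_lit 90158) (nat_lit 11) (.e (nat_lit 24609) (nat_lit 3) .nil))) .nil)))) (.nd (nat_lit 5) (.nd (nat_lit 6) 
(.lf (nat_lit 137116) (.g (nat_lit 1955) (.e (nat_lit 24601) (nat_lit 2) (.e (nat_lit 90158) (nat_lit 11) (.e (nat_lit 24604) (nat_lit 2) (.e (nat_lit 90158) (nat_lit 11) (.e (nat_lit 24603) (nat_lit 2) .nil))))) .nil)) 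
(.lf (nat_lit 137180) (.g (nat_lit 408) (.e (nat_lit 24602) (nat_lit 2) (.e (nat_lit 90158) (nat_lit 11) (.e (nat_lit 24608) (nat_lit 3) .nil))) .nil))) (.nd (nat_lit 6) 
(.lf (nat_lit 137148) (.g (nat_lit 1927) (.e (nat_lit 24602) (nat_lit 2) (.e (nat_lit 90158) (nat_lit 11) (.e (nat_lit 24603) (nat_lit 2) (.e (nat_lit 90158) (nat_lit 11) (.e (nat_lit 24603) (nat_lit 2) (.e (nat_lit 90158) (nat_lit 11) .nil)))))) (.g (nat_lit 0) .nil .nil))) 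
(.lf (nat_lit 137212) (.g (nat_lit 2653) (.e (nat_lit 24602) (nat_lit 2) (.e (nat_lit 90185) (nat_lit 17) (.e (nat_lit 237603) (nat_lit 9) (.e (nat_lit 426436) (nat_lit 18) (.e (nat_lit 98339) (nat_lit 19) (.e (nat_lit 213032) (nat_lit 11) .nil)))))) (.g (nat_lit 5) .nil .nil)))))))) (.nd (nat_lit 2) (.nd (nat_lit 3) (.nd (nat_lit 4) (.nd (nat_lit 5) (.nd (nat_lit 6) 
(.lf (nat_lit 137090) (.g (nat_lit 2725) (.e (nat_lit 24599) (nat_lit 1) (.e (nat_lit 57854) (nat_lit 252) (.e (nat_lit 57371) (nat_lit 2) (.e (nat_lit 90160) (nat_lit 11) (.e (nat_lit 24653) (nat_lit 12) (.e (nat_lit 392960) (nat_lit 10) .nil)))))) (.g (nat_lit 4) .nil .nil))) 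
(.lf (nat_lit 137154) (.g (nat_lit 2586) (.e (nat_lit 24602) (nat_lit 2) (.e (nat_lit 90158) (nat_lit 11) (.e (nat_lit 24604) (nat_lit 2) (.e (nat_lit 90158) (nat_lit 11) (.e (nat_lit 24603) (nat_lit 2) (.e (nat_lit 90158) (nat_lit 11) .nil)))))) (.g (nat_lit 0) .nil .nil)))) (.nd (nat_lit 6) 
(.lf (nat_lit 137122) (.g (nat_lit 1928) (.e (nat_lit 24601) (nat_lit 2) (.e (nat_lit 90158) (nat_lit 11) (.e (nat_lit 24608) (nat_lit 3) (.e (nat_lit 98317) (nat_lit 9) (.e (nat_lit 336004) (nat_lit 2) .nil))))) .nil)) 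
(.lf (nat_lit 137186) (.g (nat_lit 3287) (.e (nat_lit 24602) (nat_lit 2) (.e (nat_lit 90158) (nat_lit 11) (.e (nat_lit 24608) (nat_lit 3) (.e (nat_lit 98313) (nat_lit 9) (.e (nat_lit 336012) (nat_lit 2) (.e (nat_lit 90158) (nat_lit 11) .nil)))))) (.g (nat_lit 0) .nil .nil))))) (.nd (nat_lit 5) (.nd (nat_lit 6) 
(.lf (nat_lit 137106) (.g (nat_lit 4643) (.e (nat_lit 24599) (nat_lit 1) (.e (nat_lit 57854) (nat_lit 252) (.e (nat_lit 57377) (nat_lit 3) (.e (nat_lit 98317) (nat_lit 9) (.e (nat_lit 336203) (nat_lit 12) .nil))))) .nil)) 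
(.lf (nat_lit 137170) (.g (nat_lit 3117) (.e (nat_lit 24602) (nat_lit 2) (.e (nat_lit 90158) (nat_lit 11) (.e (nat_lit 24607) (nat_lit 3) (.e (nat_lit 98313) (nat_lit 9) (.e (nat_lit 336012) (nat_lit 2) (.e (nat_lit 90157) (nat_lit 11) .nil)))))) (.g (nat_lit 0) .nil .nil)))) (.nd (nat_lit 6) 
(.lf (nat_lit 137138) (.g (nat_lit 900) (.e (nat_lit 24601) (nat_lit 2) (.e (nat_lit 90185) (nat_lit 17) (.e (nat_lit 237619) (nat_lit 12) .nil))) .nil)) 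
(.lf (nat_lit 137202) (.g (nat_lit 2677) (.e (nat_lit 24602) (nat_lit 2) (.e (nat_lit 90170) (nat_lit 13) (.e (nat_lit 172106) (nat_lit 10) (.e (nat_lit 434244) (nat_lit 28) (.e (nat_lit 573449) (nat_lit 9) .nil))))) .nil))))) (.nd (nat_lit 4) (.nd (nat_lit 5) (.nd (nat_lit 6) 
(.lf (nat_lit 137098) (.g (nat_lit 3191) (.e (nat_lit 24599) (nat_lit 1) (.e (nat_lit 57854) (nat_lit 252) (.e (nat_lit 57373) (nat_lit 2) (.e (nat_lit 90159) (nat_lit 11) .nil)))) .nil)) 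
(.lf (nat_lit 137162) (.g (nat_lit 2738) (.e (nat_lit 24602) (nat_lit 2) (.e (nat_lit 90158) (nat_lit 11) (.e (nat_lit 24605) (nat_lit 2) (.e (nat_lit 90158) (nat_lit 11) (.e (nat_lit 24604) (nat_lit 2) (.e (nat_lit 90157) (nat_lit 11) .nil)))))) (.g (nat_lit 6) .nil .nil)))) (.nd (nat_lit 6) 
(.lf (nat_lit 137130) (.g (nat_lit 1279) (.e (nat_lit 24601) (nat_lit 2) (.e (nat_lit 90176) (nat_lit 15) (.e (nat_lit 188447) (nat_lit 22) (.e (nat_lit 196661) (nat_lit 12) .nil)))) .nil)) 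
(.lf (nat_lit 137194) (.g (nat_lit 2967) (.e (nat_lit 24602) (nat_lit 2) (.e (nat_lit 90158) (nat_lit 11) (.e (nat_lit 24608) (nat_lit 3) (.e (nat_lit 98317) (nat_lit 9) (.e (nat_lit 336012) (nat_lit 2) (.e (nat_lit 90157) (nat_lit 11) .nil)))))) (.g (nat_lit 0) .nil .nil))))) (.nd (nat_lit 5) (.nd (nat_lit 6) 
(.lf (nat_lit 137114) (.g (nat_lit 2364) (.e (nat_lit 24600) (nat_lit 1) (.e (nat_lit 57854) (nat_lit 252) (.e (nat_lit 57373) (nat_lit 2) (.e (nat_lit 90160) (nat_lit 11) .nil)))) .nil)) 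
(.lf (nat_lit 137178) (.g (nat_lit 3334) (.e (nat_lit 24602) (nat_lit 2) (.e (nat_lit 90158) (nat_lit 11) (.e (nat_lit 24607) (nat_lit 3) (.e (nat_lit 98317) (nat_lit 9) (.e (nat_lit 336012) (nat_lit 2) (.e (nat_lit 90160) (nat_lit 11) .nil)))))) (.g (nat_lit 0) .nil .nil)))) (.nd (nat_lit 6) 
(.lf (nat_lit 137146) (.g (nat_lit 2748) (.e (nat_lit 24602) (nat_lit 2) (.e (nat_lit 90158) (nat_lit 11) (.e (nat_lit 24602) (nat_lit 2) (.e (nat_lit 90158) (nat_lit 11) (.e (nat_lit 24604) (nat_lit 2) (.e (nat_lit 90160) (nat_lit 11) .nil)))))) (.g (nat_lit 6) .nil .nil))) 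
(.lf (nat_lit 137210) (.g (nat_lit 2129) (.e (nat_lit 24602) (nat_lit 2) (.e (nat_lit 90185) (nat_lit 17) (.e (nat_lit 237601) (nat_lit 9) (.e (nat_lit 426438) (nat_lit 18) (.e (nat_lit 98339) (nat_lit 19) (.e (nat_lit 213032) (nat_lit 11) .nil)))))) (.g (nat_lit 0) .nil .nil))))))) (.nd (nat_lit 3) (.nd (nat_lit 4) (.nd (nat_lit 5) (.nd (nat_lit 6) 
(.lf (nat_lit 137094) (.g (nat_lit 3458) (.e (nat_lit 24599) (nat_lit 1) (.e (nat_lit 57854) (nat_lit 252) (.e (nat_lit 57373) (nat_lit 2) (.e (nat_lit 90158) (nat_lit 11) (.e (nat_lit 24650) (nat_lit 12) .nil))))) .nil)) 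
(.lf (nat_lit 137158) (.g (nat_lit 2504) (.e (nat_lit 24602) (nat_lit 2) (.e (nat_lit 90158) (nat_lit 11) (.e (nat_lit 24604) (nat_lit 2) (.e (nat_lit 90160) (nat_lit 11) (.e (nat_lit 24603) (nat_lit 2) (.e (nat_lit 90158) (nat_lit 11) .nil)))))) (.g (nat_lit 0) .nil .nil)))) (.nd (nat_lit 6) 
(.lf (nat_lit 137126) (.g (nat_lit 2435) (.e (nat_lit 24601) (nat_lit 2) (.e (nat_lit 90160) (nat_lit 11) (.e (nat_lit 24607) (nat_lit 3) (.e (nat_lit 98317) (nat_lit 9) (.e (nat_lit 336012) (nat_lit 2) .nil))))) .nil)) 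
(.lf (nat_lit 137190) (.g (nat_lit 3125) (.e (nat_lit 24602) (nat_lit 2) (.e (nat_lit 90158) (nat_lit 11) (.e (nat_lit 24608) (nat_lit 3) (.e (nat_lit 98317) (nat_lit 9) (.e (nat_lit 336004) (nat_lit 2) (.e (nat_lit 90158) (nat_lit 11) .nil)))))) (.g (nat_lit 0) .nil .nil))))) (.nd (nat_lit 5) (.nd (nat_lit 6) 
(.lf (nat_lit 137110) (.g (nat_lit 1011) (.e (nat_lit 24599) (nat_lit 1) (.e (nat_lit 57931) (nat_lit 282) (.e (nat_lit 163905) (nat_lit 12) (.e (nat_lit 426542) (nat_lit 29) .nil)))) .nil)) 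
(.lf (nat_lit 137174) (.g (nat_lit 3260) (.e (nat_lit 24602) (nat_lit 2) (.e (nat_lit 90158) (nat_lit 11) (.e (nat_lit 24607) (nat_lit 3) (.e (nat_lit 98317) (nat_lit 9) (.e (nat_lit 336004) (nat_lit 2) (.e (nat_lit 90158) (nat_lit 11) .nil)))))) (.g (nat_lit 0) .nil .nil)))) (.nd (nat_lit 6) 
(.lf (nat_lit 137142) (.g (nat_lit 1734) (.e (nat_lit 24602) (nat_lit 2) (.e (nat_lit 90158) (nat_lit 11) (.e (nat_lit 24602) (nat_lit 2) (.e (nat_lit 90158) (nat_lit 11) (.e (nat_lit 24603) (nat_lit 2) (.e (nat_lit 90157) (nat_lit 11) .nil)))))) (.g (nat_lit 5) .nil .nil))) 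
(.lf (nat_lit 137206) (.g (nat_lit 2723) (.e (nat_lit 24602) (nat_lit 2) (.e (nat_lit 90170) (nat_lit 13) (.e (nat_lit 172113) (nat_lit 10) (.e (nat_lit 434247) (nat_lit 28) (.e (nat_lit 573456) (nat_lit 9) (.e (nat_lit 1312) (nat_lit 98) (.e (nat_lit 147494) (nat_lit 11) .nil))))))) (.g (nat_lit 4) .nil .nil)))))) (.nd (nat_lit 4) (.nd (nat_lit 5) (.nd (nat_lit 6) 
(.lf (nat_lit 137102) (.g (nat_lit 3568) (.e (nat_lit 24599) (nat_lit 1) (.e (nat_lit 57854) (nat_lit 252) (.e (nat_lit 57373) (nat_lit 2) (.e (nat_lit 90160) (nat_lit 11) (.e (nat_lit 24651) (nat_lit 12) (.e (nat_lit 392960) (nat_lit 10) .nil)))))) (.g (nat_lit 5) .nil .nil))) 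
(.lf (nat_lit 137166) (.g (nat_lit 481) (.e (nat_lit 24602) (nat_lit 2) (.e (nat_lit 90158) (nat_lit 11) (.e (nat_lit 24606) (nat_lit 3) .nil))) .nil))) (.nd (nat_lit 6) 
(.lf (nat_lit 137134) (.g (nat_lit 1508) (.e (nat_lit 24601) (nat_lit 2) (.e (nat_lit 90176) (nat_lit 15) (.e (nat_lit 188450) (nat_lit 23) (.e (nat_lit 204821) (nat_lit 17) .nil)))) .nil)) 
(.lf (nat_lit 137198) (.g (nat_lit 2479) (.e (nat_lit 24602) (nat_lit 2) (.e (nat_lit 90158) (nat_lit 11) (.e (nat_lit 24609) (nat_lit 3) (.e (nat_lit 98317) (nat_lit 9) (.e (nat_lit 336004) (nat_lit 2) (.e (nat_lit 90160) (nat_lit 11) .nil)))))) (.g (nat_lit 6) .nil .nil))))) (.nd (nat_lit 5) (.nd (nat_lit 6) 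
(.lf (nat_lit 137118) (.g (nat_lit 2009) (.e (nat_lit 24601) (nat_lit 2) (.e (nat_lit 90158) (nat_lit 11) (.e (nat_lit 24607) (nat_lit 3) (.e (nat_lit 98313) (nat_lit 9) (.e (nat_lit 336012) (nat_lit 2) .nil))))) .nil)) 
(.lf (nat_lit 137182) (.g (nat_lit 2465) (.e (nat_lit 24602) (nat_lit 2) (.e (nat_lit 90158) (nat_lit 11) (.e (nat_lit 24608) (nat_lit 3) (.e (nat_lit 98312) (nat_lit 9) (.e (nat_lit 336012) (nat_lit 2) (.e (nat_lit 90157) (nat_lit 11) .nil)))))) (.g (nat_lit 6) .nil .nil)))) (.nd (nat_lit 6) 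
(.lf (nat_lit 137150) (.g (nat_lit 2010) (.e (nat_lit 24602) (nat_lit 2) (.e (nat_lit 90158) (nat_lit 11) (.e (nat_lit 24603) (nat_lit 2) (.e (nat_lit 90160) (nat_lit 11) (.e (nat_lit 24603) (nat_lit 2) (.e (nat_lit 90158) (nat_lit 11) .nil)))))) (.g (nat_lit 0) .nil .nil))) 
(.lf (nat_lit 137214) (.g (nat_lit 404) (.e (nat_lit 24602) (nat_lit 2) (.e (nat_lit 90185) (nat_lit 17) (.e (nat_lit 237605) (nat_lit 9) .nil))) .nil)))))))) (.nd (nat_lit 1) (.nd (nat_lit 2) (.nd (nat_lit 3) (.nd (nat_lit 4) (.nd (nat_lit 5) (.nd (nat_lit 6) 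
(.lf (nat_lit 137089) (.g (nat_lit 2764) (.e (nat_lit 24599) (nat_lit 1) (.e (nat_lit 57854) (nat_lit 252) (.e (nat_lit 57371) (nat_lit 2) (.e (nat_lit 90160) (nat_lit 11) (.e (nat_lit 24651) (nat_lit 12) (.e (nat_lit 392960) (nat_lit 10) .nil)))))) (.g (nat_lit 4) .nil .nil))) 
(.lf (nat_lit 137153) (.g (nat_lit 960) (.e (nat_lit 24602) (nat_lit 2) (.e (nat_lit 90158) (nat_lit 11) (.e (nat_lit 24604) (nat_lit 2) (.e (nat_lit 90158) (nat_lit 11) .nil)))) .nil))) (.nd (nat_lit 6) 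
(.lf (nat_lit 137121) (.g (nat_lit 1330) (.e (nat_lit 24601) (nat_lit 2) (.e (nat_lit 90158) (nat_lit 11) (.e (nat_lit 24608) (nat_lit 3) (.e (nat_lit 98313) (nat_lit 9) .nil)))) .nil)) 
(.lf (nat_lit 137185) (.g (nat_lit 2985) (.e (nat_lit 24602) (nat_lit 2) (.e (nat_lit 90158) (nat_lit 11) (.e (nat_lit 24608) (nat_lit 3) (.e (nat_lit 98313) (nat_lit 9) (.e (nat_lit 336012) (nat_lit 2) (.e (nat_lit 90157) (nat_lit 11) .nil)))))) (.g (nat_lit 0) .nil .nil))))) (.nd (nat_lit 5) (.nd (nat_lit 6) 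
(.lf (nat_lit 137105) (.g (nat_lit 4955) (.e (nat_lit 24599) (nat_lit 1) (.e (nat_lit 57854) (nat_lit 252) (.e (nat_lit 57377) (nat_lit 3) (.e (nat_lit 98317) (nat_lit 9) (.e (nat_lit 336196) (nat_lit 12) (.e (nat_lit 392960) (nat_lit 10) .nil)))))) (.g (nat_lit 4) .nil .nil))) 
(.lf (nat_lit 137169) (.g (nat_lit 2636) (.e (nat_lit 24602) (nat_lit 2) (.e (nat_lit 90158) (nat_lit 11) (.e (nat_lit 24607) (nat_lit 3) (.e (nat_lit 98313) (nat_lit 9) (.e (nat_lit 336011) (nat_lit 2) (.e (nat_lit 90157) (nat_lit 11) .nil)))))) (.g (nat_lit 5) .nil .nil)))) (.nd (nat_lit 6) 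
(.lf (nat_lit 137137) (.g (nat_lit 872) (.e (nat_lit 24601) (nat_lit 2) (.e (nat_lit 90185) (nat_lit 17) (.e (nat_lit 237616) (nat_lit 12) .nil))) .nil)) 
(.lf (nat_lit 137201) (.g (nat_lit 2596) (.e (nat_lit 24602) (nat_lit 2) (.e (nat_lit 90158) (nat_lit 11) (.e (nat_lit 24609) (nat_lit 3) (.e (nat_lit 98317) (nat_lit 9) (.e (nat_lit 336012) (nat_lit 2) (.e (nat_lit 90160) (nat_lit 11) .nil)))))) (.g (nat_lit 6) .nil .nil)))))) (.nd (nat_lit 4) (.nd (nat_lit 5) (.nd (nat_lit 6) 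
(.lf (nat_lit 137097) (.g (nat_lit 3476) (.e (nat_lit 24599) (nat_lit 1) (.e (nat_lit 57854) (nat_lit 252) (.e (nat_lit 57373) (nat_lit 2) (.e (nat_lit 90158) (nat_lit 11) (.e (nat_lit 24653) (nat_lit 12) .nil))))) .nil)) 
(.lf (nat_lit 137161) (.g (nat_lit 1670) (.e (nat_lit 24602) (nat_lit 2) (.e (nat_lit 90158) (nat_lit 11) (.e (nat_lit 24605) (nat_lit 2) (.e (nat_lit 90158) (nat_lit 11) (.e (nat_lit 24603) (nat_lit 2) (.e (nat_lit 90157) (nat_lit 11) .nil)))))) (.g (nat_lit 5) .nil .nil)))) (.nd (nat_lit 6) 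
(.lf (nat_lit 137129) (.g (nat_lit 463) (.e (nat_lit 24601) (nat_lit 2) (.e (nat_lit 90176) (nat_lit 15) (.e (nat_lit 188431) (nat_lit 20) .nil))) .nil)) 
(.lf (nat_lit 137193) (.g (nat_lit 2981) (.e (nat_lit 24602) (nat_lit 2) (.e (nat_lit 90158) (nat_lit 11) (.e (nat_lit 24608) (nat_lit 3) (.e (nat_lit 98317) (nat_lit 9) (.e (nat_lit 336011) (nat_lit 2) (.e (nat_lit 90157) (nat_lit 11) .nil)))))) (.g (nat_lit 0) .nil .nil))))) (.nd (nat_lit 5) (.nd (nat_lit 6) 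
(.lf (nat_lit 137113) (.g (nat_lit 2548) (.e (nat_lit 24600) (nat_lit 1) (.e (nat_lit 57854) (nat_lit 252) (.e (nat_lit 57373) (nat_lit 2) (.e (nat_lit 90158) (nat_lit 11) .nil)))) .nil)) 
(.lf (nat_lit 137177) (.g (nat_lit 3069) (.e (nat_lit 24602) (nat_lit 2) (.e (nat_lit 90158) (nat_lit 11) (.e (nat_lit 24607) (nat_lit 3) (.e (nat_lit 98317) (nat_lit 9) (.e (nat_lit 336012) (nat_lit 2) (.e (nat_lit 90157) (nat_lit 11) .nil)))))) (.g (nat_lit 0) .nil .nil)))) (.nd (nat_lit 6) 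
(.lf (nat_lit 137145) (.g (nat_lit 2384) (.e (nat_lit 24602) (nat_lit 2) (.e (nat_lit 90158) (nat_lit 11) (.e (nat_lit 24602) (nat_lit 2) (.e (nat_lit 90158) (nat_lit 11) (.e (nat_lit 24604) (nat_lit 2) (.e (nat_lit 90159) (nat_lit 11) .nil)))))) (.g (nat_lit 6) .nil .nil))) 
(.lf (nat_lit 137209) (.g (nat_lit 417) (.e (nat_lit 24602) (nat_lit 2) (.e (nat_lit 90185) (nat_lit 17) (.e (nat_lit 237601) (nat_lit 9) .nil))) .nil)))))) (.nd (nat_lit 3) (.nd (nat_lit 4) (.nd (nat_lit 5) (.nd (nat_lit 6) 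
(.lf (nat_lit 137093) (.g (nat_lit 3460) (.e (nat_lit 24599) (nat_lit 1) (.e (nat_lit 57854) (nat_lit 252) (.e (nat_lit 57373) (nat_lit 2) (.e (nat_lit 90158) (nat_lit 11) (.e (nat_lit 24648) (nat_lit 12) .nil))))) .nil)) 
(.lf (nat_lit 137157) (.g (nat_lit 966) (.e (nat_lit 24602) (nat_lit 2) (.e (nat_lit 90158) (nat_lit 11) (.e (nat_lit 24604) (nat_lit 2) (.e (nat_lit 90160) (nat_lit 11) .nil)))) .nil))) (.nd (nat_lit 6) 
(.lf (nat_lit 137125) (.g (nat_lit 1969) (.e (nat_lit 24601) (nat_lit 2) (.e (nat_lit 90160) (nat_lit 11) (.e (nat_lit 24607) (nat_lit 3) (.e (nat_lit 98317) (nat_lit 9) .nil)))) .nil)) 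
(.lf (nat_lit 137189) (.g (nat_lit 1955) (.e (nat_lit 24602) (nat_lit 2) (.e (nat_lit 90158) (nat_lit 11) (.e (nat_lit 24608) (nat_lit 3) (.e (nat_lit 98317) (nat_lit 9) (.e (nat_lit 336003) (nat_lit 2) .nil))))) .nil)))) (.nd (nat_lit 5) (.nd (nat_lit 6) 
(.lf (nat_lit 137109) (.g (nat_lit 2288) (.e (nat_lit 24599) (nat_lit 1) (.e (nat_lit 57924) (nat_lit 282) (.e (nat_lit 163905) (nat_lit 12) (.e (nat_lit 426555) (nat_lit 32) (.e (nat_lit 376865) (nat_lit 22) .nil))))) .nil)) 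
(.lf (nat_lit 137173) (.g (nat_lit 2201) (.e (nat_lit 24602) (nat_lit 2) (.e (nat_lit 90158) (nat_lit 11) (.e (nat_lit 24607) (nat_lit 3) (.e (nat_lit 98317) (nat_lit 9) (.e (nat_lit 336003) (nat_lit 2) .nil))))) .nil))) (.nd (nat_lit 6) 
(.lf (nat_lit 137141) (.g (nat_lit 410) (.e (nat_lit 24602) (nat_lit 2) (.e (nat_lit 90158) (nat_lit 11) (.e (nat_lit 24602) (nat_lit 2) .nil))) .nil)) 
(.lf (nat_lit 137205) (.g (nat_lit 453) (.e (nat_lit 24602) (nat_lit 2) (.e (nat_lit 90170) (nat_lit 13) (.e (nat_lit 172113) (nat_lit 10) .nil))) .nil))))) (.nd (nat_lit 4) (.nd (nat_lit 5) (.nd (nat_lit 6) 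
(.lf (nat_lit 137101) (.g (nat_lit 3308) (.e (nat_lit 24599) (nat_lit 1) (.e (nat_lit 57854) (nat_lit 252) (.e (nat_lit 57373) (nat_lit 2) (.e (nat_lit 90160) (nat_lit 11) (.e (nat_lit 24650) (nat_lit 12) (.e (nat_lit 392960) (nat_lit 10) .nil)))))) (.g (nat_lit 4) .nil .nil))) 
(.lf (nat_lit 137165) (.g (nat_lit 2705) (.e (nat_lit 24602) (nat_lit 2) (.e (nat_lit 90158) (nat_lit 11) (.e (nat_lit 24605) (nat_lit 2) (.e (nat_lit 90158) (nat_lit 11) (.e (nat_lit 24604) (nat_lit 2) (.e (nat_lit 90160) (nat_lit 11) .nil)))))) (.g (nat_lit 6) .nil .nil)))) (.nd (nat_lit 6) 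
(.lf (nat_lit 137133) (.g (nat_lit 1537) (.e (nat_lit 24601) (nat_lit 2) (.e (nat_lit 90176) (nat_lit 15) (.e (nat_lit 188450) (nat_lit 23) (.e (nat_lit 204819) (nat_lit 17) .nil)))) .nil)) 
(.lf (nat_lit 137197) (.g (nat_lit 1510) (.e (nat_lit 24602) (nat_lit 2) (.e (nat_lit 90158) (nat_lit 11) (.e (nat_lit 24609) (nat_lit 3) (.e (nat_lit 98313) (nat_lit 9) (.e (nat_lit 336012) (nat_lit 2) (.e (nat_lit 90159) (nat_lit 11) .nil)))))) (.g (nat_lit 4) .nil .nil))))) (.nd (nat_lit 5) (.nd (nat_lit 6) 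
(.lf (nat_lit 137117) (.g (nat_lit 2015) (.e (nat_lit 24601) (nat_lit 2) (.e (nat_lit 90158) (nat_lit 11) (.e (nat_lit 24607) (nat_lit 3) (.e (nat_lit 98313) (nat_lit 9) (.e (nat_lit 336004) (nat_lit 2) .nil))))) .nil)) 
(.lf (nat_lit 137181) (.g (nat_lit 2048) (.e (nat_lit 24602) (nat_lit 2) (.e (nat_lit 90158) (nat_lit 11) (.e (nat_lit 24608) (nat_lit 3) (.e (nat_lit 98312) (nat_lit 9) (.e (nat_lit 336011) (nat_lit 2) (.e (nat_lit 90157) (nat_lit 11) .nil)))))) (.g (nat_lit 5) .nil .nil)))) (.nd (nat_lit 6) 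
(.lf (nat_lit 137149) (.g (nat_lit 2234) (.e (nat_lit 24602) (nat_lit 2) (.e (nat_lit 90158) (nat_lit 11) (.e (nat_lit 24603) (nat_lit 2) (.e (nat_lit 90158) (nat_lit 11) (.e (nat_lit 24605) (nat_lit 2) (.e (nat_lit 90158) (nat_lit 11) .nil)))))) (.g (nat_lit 0) .nil .nil))) 
(.lf (nat_lit 137213) (.g (nat_lit 919) (.e (nat_lit 24602) (nat_lit 2) (.e (nat_lit 90185) (nat_lit 17) (.e (nat_lit 237604) (nat_lit 9) .nil))) .nil))))))) (.nd (nat_lit 2) (.nd (nat_lit 3) (.nd (nat_lit 4) (.nd (nat_lit 5) (.nd (nat_lit 6) 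
(.lf (nat_lit 137091) (.g (nat_lit 2750) (.e (nat_lit 24599) (nat_lit 1) (.e (nat_lit 57854) (nat_lit 252) (.e (nat_lit 57373) (nat_lit 2) (.e (nat_lit 90153) (nat_lit 10) .nil)))) .nil)) 
(.lf (nat_lit 137155) (.g (nat_lit 3226) (.e (nat_lit 24602) (nat_lit 2) (.e (nat_lit 90158) (nat_lit 11) (.e (nat_lit 24604) (nat_lit 2) (.e (nat_lit 90158) (nat_lit 11) (.e (nat_lit 24604) (nat_lit 2) (.e (nat_lit 90160) (nat_lit 11) .nil)))))) (.g (nat_lit 0) .nil .nil)))) (.nd (nat_lit 6) 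
(.lf (nat_lit 137123) (.g (nat_lit 1608) (.e (nat_lit 24601) (nat_lit 2) (.e (nat_lit 90160) (nat_lit 11) (.e (nat_lit 24602) (nat_lit 2) (.e (nat_lit 90158) (nat_lit 11) .nil)))) .nil)) 
(.lf (nat_lit 137187) (.g (nat_lit 1316) (.e (nat_lit 24602) (nat_lit 2) (.e (nat_lit 90158) (nat_lit 11) (.e (nat_lit 24608) (nat_lit 3) (.e (nat_lit 98316) (nat_lit 9) .nil)))) .nil)))) (.nd (nat_lit 5) (.nd (nat_lit 6) 
(.lf (nat_lit 137107) (.g (nat_lit 1742) (.e (nat_lit 24599) (nat_lit 1) (.e (nat_lit 57854) (nat_lit 252) (.e (nat_lit 57378) (nat_lit 3) (.e (nat_lit 98317) (nat_lit 9) .nil)))) .nil)) 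
(.lf (nat_lit 137171) (.g (nat_lit 3409) (.e (nat_lit 24602) (nat_lit 2) (.e (nat_lit 90158) (nat_lit 11) (.e (nat_lit 24607) (nat_lit 3) (.e (nat_lit 98313) (nat_lit 9) (.e (nat_lit 336012) (nat_lit 2) (.e (nat_lit 90158) (nat_lit 11) .nil)))))) (.g (nat_lit 0) .nil .nil)))) (.nd (nat_lit 6) 
(.lf (nat_lit 137139) (.g (nat_lit 915) (.e (nat_lit 24602) (nat_lit 2) (.e (nat_lit 90157) (nat_lit 11) (.e (nat_lit 24607) (nat_lit 3) (.e (nat_lit 98317) (nat_lit 9) .nil)))) .nil)) 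
(.lf (nat_lit 137203) (.g (nat_lit 3047) (.e (nat_lit 24602) (nat_lit 2) (.e (nat_lit 90170) (nat_lit 13) (.e (nat_lit 172106) (nat_lit 10) (.e (nat_lit 434244) (nat_lit 28) (.e (nat_lit 573453) (nat_lit 9) .nil))))) .nil))))) (.nd (nat_lit 4) (.nd (nat_lit 5) (.nd (nat_lit 6) 
(.lf (nat_lit 137099) (.g (nat_lit 3050) (.e (nat_lit 24599) (nat_lit 1) (.e (nat_lit 57854) (nat_lit 252) (.e (nat_lit 57373) (nat_lit 2) (.e (nat_lit 90160) (nat_lit 11) (.e (nat_lit 24647) (nat_lit 12) .nil))))) .nil)) 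
(.lf (nat_lit 137163) (.g (nat_lit 2697) (.e (nat_lit 24602) (nat_lit 2) (.e (nat_lit 90158) (nat_lit 11) (.e (nat_lit 24605) (nat_lit 2) (.e (nat_lit 90158) (nat_lit 11) (.e (nat_lit 24604) (nat_lit 2) (.e (nat_lit 90158) (nat_lit 11) .nil)))))) (.g (nat_lit 6) .nil .nil)))) (.nd (nat_lit 6) 
(.lf (nat_lit 137131) (.g (nat_lit 1334) (.e (nat_lit 24601) (nat_lit 2) (.e (nat_lit 90176) (nat_lit 15) (.e (nat_lit 188450) (nat_lit 23) (.e (nat_lit 204815) (nat_lit 17) .nil)))) .nil)) 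
(.lf (nat_lit 137195) (.g (nat_lit 2824) (.e (nat_lit 24602) (nat_lit 2) (.e (nat_lit 90158) (nat_lit 11) (.e (nat_lit 24608) (nat_lit 3) (.e (nat_lit 98317) (nat_lit 9) (.e (nat_lit 336012) (nat_lit 2) (.e (nat_lit 90159) (nat_lit 11) .nil)))))) (.g (nat_lit 0) .nil .nil))))) (.nd (nat_lit 5) (.nd (nat_lit 6) 
(.lf (nat_lit 137115) (.g (nat_lit 1664) (.e (nat_lit 32512) (nat_lit 1) (.e (nat_lit 57927) (nat_lit 282) (.e (nat_lit 163905) (nat_lit 12) (.e (nat_lit 426555) (nat_lit 32) (.e (nat_lit 376862) (nat_lit 22) .nil))))) .nil)) 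
(.lf (nat_lit 137179) (.g (nat_lit 1027) (.e (nat_lit 24602) (nat_lit 2) (.e (nat_lit 90158) (nat_lit 11) (.e (nat_lit 24607) (nat_lit 3) (.e (nat_lit 106240) (nat_lit 10) .nil)))) .nil))) (.nd (nat_lit 6) 
(.lf (nat_lit 137147) (.g (nat_lit 382) (.e (nat_lit 24602) (nat_lit 2) (.e (nat_lit 90158) (nat_lit 11) (.e (nat_lit 24603) (nat_lit 2) .nil))) .nil)) 
(.lf (nat_lit 137211) (.g (nat_lit 1069) (.e (nat_lit 24602) (nat_lit 2) (.e (nat_lit 90185) (nat_lit 17) (.e (nat_lit 237602) (nat_lit 9) .nil))) .nil)))))) (.nd (nat_lit 3) (.nd (nat_lit 4) (.nd (nat_lit 5) (.nd (nat_lit 6) 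
(.lf (nat_lit 137095) (.g (nat_lit 3540) (.e (nat_lit 24599) (nat_lit 1) (.e (nat_lit 57854) (nat_lit 252) (.e (nat_lit 57373) (nat_lit 2) (.e (nat_lit 90158) (nat_lit 11) (.e (nat_lit 24651) (nat_lit 12) (.e (nat_lit 392960) (nat_lit 10) .nil)))))) (.g (nat_lit 4) .nil .nil))) 
(.lf (nat_lit 137159) (.g (nat_lit 3170) (.e (nat_lit 24602) (nat_lit 2) (.e (nat_lit 90158) (nat_lit 11) (.e (nat_lit 24604) (nat_lit 2) (.e (nat_lit 90160) (nat_lit 11) (.e (nat_lit 24604) (nat_lit 2) (.e (nat_lit 90160) (nat_lit 11) .nil)))))) (.g (nat_lit 6) .nil .nil)))) (.nd (nat_lit 6) 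
(.lf (nat_lit 137127) (.g (nat_lit 2339) (.e (nat_lit 24601) (nat_lit 2) (.e (nat_lit 90170) (nat_lit 13) (.e (nat_lit 172106) (nat_lit 10) (.e (nat_lit 434244) (nat_lit 28) (.e (nat_lit 573449) (nat_lit 9) (.e (nat_lit 1312) (nat_lit 98) (.e (nat_lit 147494) (nat_lit 11) .nil))))))) (.g (nat_lit 4) .nil .nil))) 
(.lf (nat_lit 137191) (.g (nat_lit 3075) (.e (nat_lit 24602) (nat_lit 2) (.e (nat_lit 90158) (nat_lit 11) (.e (nat_lit 24608) (nat_lit 3) (.e (nat_lit 98317) (nat_lit 9) (.e (nat_lit 336004) (nat_lit 2) (.e (nat_lit 90160) (nat_lit 11) .nil)))))) (.g (nat_lit 0) .nil .nil))))) (.nd (nat_lit 5) (.nd (nat_lit 6) 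
(.lf (nat_lit 137111) (.g (nat_lit 1818) (.e (nat_lit 24600) (nat_lit 1) (.e (nat_lit 57847) (nat_lit 252) (.e (nat_lit 57365) (nat_lit 1) (.e (nat_lit 57851) (nat_lit 252) (.e (nat_lit 57427) (nat_lit 15) .nil))))) .nil)) 
(.lf (nat_lit 137175) (.g (nat_lit 2096) (.e (nat_lit 24602) (nat_lit 2) (.e (nat_lit 90158) (nat_lit 11) (.e (nat_lit 24607) (nat_lit 3) (.e (nat_lit 98317) (nat_lit 9) (.e (nat_lit 336009) (nat_lit 2) .nil))))) .nil))) (.nd (nat_lit 6) 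
(.lf (nat_lit 137143) (.g (nat_lit 2277) (.e (nat_lit 24602) (nat_lit 2) (.e (nat_lit 90158) (nat_lit 11) (.e (nat_lit 24602) (nat_lit 2) (.e (nat_lit 90158) (nat_lit 11) (.e (nat_lit 24603) (nat_lit 2) (.e (nat_lit 90160) (nat_lit 11) .nil)))))) (.g (nat_lit 6) .nil .nil))) 
(.lf (nat_lit 137207) (.g (nat_lit 818) (.e (nat_lit 24602) (nat_lit 2) (.e (nat_lit 90172) (nat_lit 14) (.e (nat_lit 180278) (nat_lit 32) .nil))) .nil))))) (.nd (nat_lit 4) (.nd (nat_lit 5) (.nd (nat_lit 6) 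
(.lf (nat_lit 137103) (.g (nat_lit 3064) (.e (nat_lit 24599) (nat_lit 1) (.e (nat_lit 57854) (nat_lit 252) (.e (nat_lit 57373) (nat_lit 2) (.e (nat_lit 90160) (nat_lit 11) (.e (nat_lit 24652) (nat_lit 12) .nil))))) .nil)) 
(.lf (nat_lit 137167) (.g (nat_lit 333) (.e (nat_lit 24602) (nat_lit 2) (.e (nat_lit 90158) (nat_lit 11) (.e (nat_lit 24607) (nat_lit 3) .nil))) .nil))) (.nd (nat_lit 6) 
(.lf (nat_lit 137135) (.g (nat_lit 875) (.e (nat_lit 24601) (nat_lit 2) (.e (nat_lit 90185) (nat_lit 17) (.e (nat_lit 237601) (nat_lit 9) .nil))) .nil)) 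
(.lf (nat_lit 137199) (.g (nat_lit 2521) (.e (nat_lit 24602) (nat_lit 2) (.e (nat_lit 90158) (nat_lit 11) (.e (nat_lit 24609) (nat_lit 3) (.e (nat_lit 98317) (nat_lit 9) (.e (nat_lit 336011) (nat_lit 2) (.e (nat_lit 90157) (nat_lit 11) .nil)))))) (.g (nat_lit 6) .nil .nil))))) (.nd (nat_lit 5) (.nd (nat_lit 6) 
(.lf (nat_lit 137119) (.g (nat_lit 1564) (.e (nat_lit 24601) (nat_lit 2) (.e (nat_lit 90158) (nat_lit 11) (.e (nat_lit 24607) (nat_lit 3) (.e (nat_lit 98317) (nat_lit 9) .nil)))) .nil)) 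
(.lf (nat_lit 137183) (.g (nat_lit 3140) (.e (nat_lit 24602) (nat_lit 2) (.e (nat_lit 90158) (nat_lit 11) (.e (nat_lit 24608) (nat_lit 3) (.e (nat_lit 98313) (nat_lit 9) (.e (nat_lit 336004) (nat_lit 2) (.e (nat_lit 90158) (nat_lit 11) .nil)))))) (.g (nat_lit 0) .nil .nil)))) (.nd (nat_lit 6) 
(.lf (nat_lit 137151) (.g (nat_lit 380) (.e (nat_lit 24602) (nat_lit 2) (.e (nat_lit 90158) (nat_lit 11) (.e (nat_lit 24604) (nat_lit 2) .nil))) .nil)) 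
(.lf (nat_lit 137215) (.g (nat_lit 938) (.e (nat_lit 24602) (nat_lit 2) (.e (nat_lit 90185) (nat_lit 17) (.e (nat_lit 237605) (nat_lit 9) (.e (nat_lit 426350) (nat_lit 15) .nil)))) .nil)))))))))

noncomputable def tv1822 : DT := (.nd (nat_lit 0) (.nd (nat_lit 1) (.nd (nat_lit 2) (.nd (nat_lit 3) (.nd (nat_lit 4) (.nd (nat_lit 5) 
(.lf (nat_lit 137216) (.g (nat_lit 2243) (.e (nat_lit 24602) (nat_lit 2) (.e (nat_lit 90185) (nat_lit 17) (.e (nat_lit 237605) (nat_lit 9) (.e (nat_lit 426438) (nat_lit 18) (.e (nat_lit 98339) (nat_lit 19) (.e (nat_lit 213032) (nat_lit 11) .nil)))))) (.g (nat_lit 0) .nil .nil))) 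
(.lf (nat_lit 137248) (.g (nat_lit 2281) (.e (nat_lit 24603) (nat_lit 2) (.e (nat_lit 90158) (nat_lit 11) (.e (nat_lit 24605) (nat_lit 2) (.e (nat_lit 90158) (nat_lit 11) (.e (nat_lit 24605) (nat_lit 2) (.e (nat_lit 90158) (nat_lit 11) .nil)))))) (.g (nat_lit 6) .nil .nil)))) (.nd (nat_lit 5) 
(.lf (nat_lit 137232) (.g (nat_lit 2480) (.e (nat_lit 24603) (nat_lit 2) (.e (nat_lit 90158) (nat_lit 11) (.e (nat_lit 24604) (nat_lit 2) (.e (nat_lit 90157) (nat_lit 11) (.e (nat_lit 24602) (nat_lit 2) (.e (nat_lit 90158) (nat_lit 11) .nil)))))) (.g (nat_lit 0) .nil .nil))) 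
(.lf (nat_lit 137264) (.g (nat_lit 2976) (.e (nat_lit 24603) (nat_lit 2) (.e (nat_lit 90158) (nat_lit 11) (.e (nat_lit 24608) (nat_lit 3) (.e (nat_lit 98313) (nat_lit 9) (.e (nat_lit 336004) (nat_lit 2) (.e (nat_lit 90158) (nat_lit 11) .nil)))))) (.g (nat_lit 0) .nil .nil))))) (.nd (nat_lit 4) (.nd (nat_lit 5) 
(.lf (nat_lit 137224) (.g (nat_lit 464) (.e (nat_lit 24603) (nat_lit 2) (.e (nat_lit 90158) (nat_lit 11) (.e (nat_lit 24601) (nat_lit 2) .nil))) .nil)) 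
(.lf (nat_lit 137256) (.g (nat_lit 1995) (.e (nat_lit 24603) (nat_lit 2) (.e (nat_lit 90158) (nat_lit 11) (.e (nat_lit 24607) (nat_lit 3) (.e (nat_lit 98317) (nat_lit 9) (.e (nat_lit 336009) (nat_lit 2) .nil))))) .nil))) (.nd (nat_lit 5) 
(.lf (nat_lit 137240) (.g (nat_lit 2184) (.e (nat_lit 24603) (nat_lit 2) (.e (nat_lit 90158) (nat_lit 11) (.e (nat_lit 24604) (nat_lit 2) (.e (nat_lit 90160) (nat_lit 11) (.e (nat_lit 24601) (nat_lit 2) .nil))))) .nil)) 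
(.lf (nat_lit 137272) (.g (nat_lit 1828) (.e (nat_lit 24603) (nat_lit 2) (.e (nat_lit 90158) (nat_lit 11) (.e (nat_lit 24608) (nat_lit 3) (.e (nat_lit 98317) (nat_lit 9) (.e (nat_lit 336009) (nat_lit 2) .nil))))) .nil))))) (.nd (nat_lit 3) (.nd (nat_lit 4) (.nd (nat_lit 5) 
(.lf (nat_lit 137220) (.g (nat_lit 1017) (.e (nat_lit 24602) (nat_lit 2) (.e (nat_lit 90185) (nat_lit 17) (.e (nat_lit 237618) (nat_lit 12) .nil))) .nil)) 
(.lf (nat_lit 137252) (.g (nat_lit 2760) (.e (nat_lit 24603) (nat_lit 2) (.e (nat_lit 90158) (nat_lit 11) (.e (nat_lit 24607) (nat_lit 3) (.e (nat_lit 98317) (nat_lit 9) (.e (nat_lit 336002) (nat_lit 2) (.e (nat_lit 90158) (nat_lit 11) .nil)))))) (.g (nat_lit 0) .nil .nil)))) (.nd (nat_lit 5) 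
(.lf (nat_lit 137236) (.g (nat_lit 3054) (.e (nat_lit 24603) (nat_lit 2) (.e (nat_lit 90158) (nat_lit 11) (.e (nat_lit 24604) (nat_lit 2) (.e (nat_lit 90158) (nat_lit 11) (.e (nat_lit 24604) (nat_lit 2) (.e (nat_lit 90158) (nat_lit 11) .nil)))))) (.g (nat_lit 0) .nil .nil))) 
(.lf (nat_lit 137268) (.g (nat_lit 2630) (.e (nat_lit 24603) (nat_lit 2) (.e (nat_lit 90158) (nat_lit 11) (.e (nat_lit 24608) (nat_lit 3) (.e (nat_lit 98317) (nat_lit 9) (.e (nat_lit 336002) (nat_lit 2) (.e (nat_lit 90158) (nat_lit 11) .nil)))))) (.g (nat_lit 0) .nil .nil))))) (.nd (nat_lit 4) (.nd (nat_lit 5) 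
(.lf (nat_lit 137228) (.g (nat_lit 1923) (.e (nat_lit 24603) (nat_lit 2) (.e (nat_lit 90158) (nat_lit 11) (.e (nat_lit 24603) (nat_lit 2) (.e (nat_lit 90160) (nat_lit 11) (.e (nat_lit 24603) (nat_lit 2) (.e (nat_lit 90160) (nat_lit 11) .nil)))))) (.g (nat_lit 6) .nil .nil))) 
(.lf (nat_lit 137260) (.g (nat_lit 927) (.e (nat_lit 24603) (nat_lit 2) (.e (nat_lit 90158) (nat_lit 11) (.e (nat_lit 24607) (nat_lit 3) (.e (nat_lit 106240) (nat_lit 9) .nil)))) .nil))) (.nd (nat_lit 5) 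
(.lf (nat_lit 137244) (.g (nat_lit 2026) (.e (nat_lit 24603) (nat_lit 2) (.e (nat_lit 90158) (nat_lit 11) (.e (nat_lit 24605) (nat_lit 2) (.e (nat_lit 90158) (nat_lit 11) (.e (nat_lit 24603) (nat_lit 2) (.e (nat_lit 90158) (nat_lit 11) .nil)))))) (.g (nat_lit 0) .nil .nil))) 
(.lf (nat_lit 137276) (.g (nat_lit 2304) (.e (nat_lit 24603) (nat_lit 2) (.e (nat_lit 90158) (nat_lit 11) (.e (nat_lit 24609) (nat_lit 3) (.e (nat_lit 98317) (nat_lit 9) (.e (nat_lit 336002) (nat_lit 2) (.e (nat_lit 90158) (nat_lit 11) .nil)))))) (.g (nat_lit 0) .nil .nil))))))) (.nd (nat_lit 2) (.nd (nat_lit 3) (.nd (nat_lit 4) (.nd (nat_lit 5) 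
(.lf (nat_lit 137218) (.g (nat_lit 418) (.e (nat_lit 24602) (nat_lit 2) (.e (nat_lit 90185) (nat_lit 17) (.e (nat_lit 237616) (nat_lit 12) .nil))) .nil)) 
(.lf (nat_lit 137250) (.g (nat_lit 3078) (.e (nat_lit 24603) (nat_lit 2) (.e (nat_lit 90158) (nat_lit 11) (.e (nat_lit 24607) (nat_lit 3) (.e (nat_lit 98313) (nat_lit 9) (.e (nat_lit 336004) (nat_lit 2) (.e (nat_lit 90158) (nat_lit 11) .nil)))))) (.g (nat_lit 0) .nil .nil)))) (.nd (nat_lit 5) 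
(.lf (nat_lit 137234) (.g (nat_lit 2400) (.e (nat_lit 24603) (nat_lit 2) (.e (nat_lit 90158) (nat_lit 11) (.e (nat_lit 24604) (nat_lit 2) (.e (nat_lit 90158) (nat_lit 11) (.e (nat_lit 24603) (nat_lit 2) (.e (nat_lit 90158) (nat_lit 11) .nil)))))) (.g (nat_lit 0) .nil .nil))) 
(.lf (nat_lit 137266) (.g (nat_lit 1203) (.e (nat_lit 24603) (nat_lit 2) (.e (nat_lit 90158) (nat_lit 11) (.e (nat_lit 24608) (nat_lit 3) (.e (nat_lit 98316) (nat_lit 9) .nil)))) .nil)))) (.nd (nat_lit 4) (.nd (nat_lit 5) 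
(.lf (nat_lit 137226) (.g (nat_lit 1826) (.e (nat_lit 24603) (nat_lit 2) (.e (nat_lit 90158) (nat_lit 11) (.e (nat_lit 24603) (nat_lit 2) (.e (nat_lit 90158) (nat_lit 11) (.e (nat_lit 24603) (nat_lit 2) (.e (nat_lit 90160) (nat_lit 11) .nil)))))) (.g (nat_lit 0) .nil .nil))) 
(.lf (nat_lit 137258) (.g (nat_lit 3299) (.e (nat_lit 24603) (nat_lit 2) (.e (nat_lit 90158) (nat_lit 11) (.e (nat_lit 24607) (nat_lit 3) (.e (nat_lit 98317) (nat_lit 9) (.e (nat_lit 336012) (nat_lit 2) (.e (nat_lit 90158) (nat_lit 11) .nil)))))) (.g (nat_lit 0) .nil .nil)))) (.nd (nat_lit 5) 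
(.lf (nat_lit 137242) (.g (nat_lit 2405) (.e (nat_lit 24603) (nat_lit 2) (.e (nat_lit 90158) (nat_lit 11) (.e (nat_lit 24604) (nat_lit 2) (.e (nat_lit 90160) (nat_lit 11) (.e (nat_lit 24603) (nat_lit 2) (.e (nat_lit 90160) (nat_lit 11) .nil)))))) (.g (nat_lit 6) .nil .nil))) 
(.lf (nat_lit 137274) (.g (nat_lit 3128) (.e (nat_lit 24603) (nat_lit 2) (.e (nat_lit 90158) (nat_lit 11) (.e (nat_lit 24608) (nat_lit 3) (.e (nat_lit 98317) (nat_lit 9) (.e (nat_lit 336012) (nat_lit 2) (.e (nat_lit 90158) (nat_lit 11) .nil)))))) (.g (nat_lit 0) .nil .nil)))))) (.nd (nat_lit 3) (.nd (nat_lit 4) (.nd (nat_lit 5) 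
(.lf (nat_lit 137222) (.g (nat_lit 606) (.e (nat_lit 24603) (nat_lit 2) (.e (nat_lit 90128) (nat_lit 9) (.e (nat_lit 307) (nat_lit 22) .nil))) .nil)) 
(.lf (nat_lit 137254) (.g (nat_lit 3149) (.e (nat_lit 24603) (nat_lit 2) (.e (nat_lit 90158) (nat_lit 11) (.e (nat_lit 24607) (nat_lit 3) (.e (nat_lit 98317) (nat_lit 9) (.e (nat_lit 336004) (nat_lit 2) (.e (nat_lit 90158) (nat_lit 11) .nil)))))) (.g (nat_lit 0) .nil .nil)))) (.nd (nat_lit 5) 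
(.lf (nat_lit 137238) (.g (nat_lit 2663) (.e (nat_lit 24603) (nat_lit 2) (.e (nat_lit 90158) (nat_lit 11) (.e (nat_lit 24604) (nat_lit 2) (.e (nat_lit 90158) (nat_lit 11) (.e (nat_lit 24605) (nat_lit 2) (.e (nat_lit 90158) (nat_lit 11) .nil)))))) (.g (nat_lit 0) .nil .nil))) 
(.lf (nat_lit 137270) (.g (nat_lit 2975) (.e (nat_lit 24603) (nat_lit 2) (.e (nat_lit 90158) (nat_lit 11) (.e (nat_lit 24608) (nat_lit 3) (.e (nat_lit 98317) (nat_lit 9) (.e (nat_lit 336004) (nat_lit 2) (.e (nat_lit 90158) (nat_lit 11) .nil)))))) (.g (nat_lit 0) .nil .nil))))) (.nd (nat_lit 4) (.nd (nat_lit 5) 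
(.lf (nat_lit 137230) (.g (nat_lit 1428) (.e (nat_lit 24603) (nat_lit 2) (.e (nat_lit 90158) (nat_lit 11) (.e (nat_lit 24604) (nat_lit 2) (.e (nat_lit 90133) (nat_lit 9) .nil)))) .nil)) 
(.lf (nat_lit 137262) (.g (nat_lit 2009) (.e (nat_lit 24603) (nat_lit 2) (.e (nat_lit 90158) (nat_lit 11) (.e (nat_lit 24608) (nat_lit 3) (.e (nat_lit 98312) (nat_lit 9) (.e (nat_lit 336002) (nat_lit 2) (.e (nat_lit 90158) (nat_lit 11) .nil)))))) (.g (nat_lit 0) .nil .nil)))) (.nd (nat_lit 5) 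
(.lf (nat_lit 137246) (.g (nat_lit 2687) (.e (nat_lit 24603) (nat_lit 2) (.e (nat_lit 90158) (nat_lit 11) (.e (nat_lit 24605) (nat_lit 2) (.e (nat_lit 90158) (nat_lit 11) (.e (nat_lit 24604) (nat_lit 2) (.e (nat_lit 90158) (nat_lit 11) .nil)))))) (.g (nat_lit 0) .nil .nil))) 
(.lf (nat_lit 137278) (.g (nat_lit 2434) (.e (nat_lit 24603) (nat_lit 2) (.e (nat_lit 90158) (nat_lit 11) (.e (nat_lit 24609) (nat_lit 3) (.e (nat_lit 98317) (nat_lit 9) (.e (nat_lit 336004) (nat_lit 2) (.e (nat_lit 90160) (nat_lit 11) .nil)))))) (.g (nat_lit 0) .nil .nil)))))))) (.nd (nat_lit 1) (.nd (nat_lit 2) (.nd (nat_lit 3) (.nd (nat_lit 4) (.nd (nat_lit 5) 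
(.lf (nat_lit 137217) (.g (nat_lit 1045) (.e (nat_lit 24602) (nat_lit 2) (.e (nat_lit 90185) (nat_lit 17) (.e (nat_lit 237615) (nat_lit 12) .nil))) .nil)) 
(.lf (nat_lit 137249) (.g (nat_lit 313) (.e (nat_lit 24603) (nat_lit 2) (.e (nat_lit 90158) (nat_lit 11) (.e (nat_lit 24607) (nat_lit 3) .nil))) .nil))) (.nd (nat_lit 5) 
(.lf (nat_lit 137233) (.g (nat_lit 2560) (.e (nat_lit 24603) (nat_lit 2) (.e (nat_lit 90158) (nat_lit 11) (.e (nat_lit 24604) (nat_lit 2) (.e (nat_lit 90158) (nat_lit 11) (.e (nat_lit 24602) (nat_lit 2) (.e (nat_lit 90158) (nat_lit 11) .nil)))))) (.g (nat_lit 0) .nil .nil))) 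
(.lf (nat_lit 137265) (.g (nat_lit 3072) (.e (nat_lit 24603) (nat_lit 2) (.e (nat_lit 90158) (nat_lit 11) (.e (nat_lit 24608) (nat_lit 3) (.e (nat_lit 98313) (nat_lit 9) (.e (nat_lit 336012) (nat_lit 2) (.e (nat_lit 90158) (nat_lit 11) .nil)))))) (.g (nat_lit 0) .nil .nil))))) (.nd (nat_lit 4) (.nd (nat_lit 5) 
(.lf (nat_lit 137225) (.g (nat_lit 1752) (.e (nat_lit 24603) (nat_lit 2) (.e (nat_lit 90158) (nat_lit 11) (.e (nat_lit 24603) (nat_lit 2) (.e (nat_lit 90158) (nat_lit 11) (.e (nat_lit 24603) (nat_lit 2) (.e (nat_lit 90158) (nat_lit 11) .nil)))))) (.g (nat_lit 0) .nil .nil))) 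
(.lf (nat_lit 137257) (.g (nat_lit 2650) (.e (nat_lit 24603) (nat_lit 2) (.e (nat_lit 90158) (nat_lit 11) (.e (nat_lit 24607) (nat_lit 3) (.e (nat_lit 98317) (nat_lit 9) (.e (nat_lit 336010) (nat_lit 2) (.e (nat_lit 90158) (nat_lit 11) .nil)))))) (.g (nat_lit 0) .nil .nil)))) (.nd (nat_lit 5) 
(.lf (nat_lit 137241) (.g (nat_lit 2561) (.e (nat_lit 24603) (nat_lit 2) (.e (nat_lit 90158) (nat_lit 11) (.e (nat_lit 24604) (nat_lit 2) (.e (nat_lit 90160) (nat_lit 11) (.e (nat_lit 24602) (nat_lit 2) (.e (nat_lit 90158) (nat_lit 11) .nil)))))) (.g (nat_lit 0) .nil .nil))) 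
(.lf (nat_lit 137273) (.g (nat_lit 2463) (.e (nat_lit 24603) (nat_lit 2) (.e (nat_lit 90158) (nat_lit 11) (.e (nat_lit 24608) (nat_lit 3) (.e (nat_lit 98317) (nat_lit 9) (.e (nat_lit 336010) (nat_lit 2) (.e (nat_lit 90158) (nat_lit 11) .nil)))))) (.g (nat_lit 0) .nil .nil)))))) (.nd (nat_lit 3) (.nd (nat_lit 4) (.nd (nat_lit 5) 
(.lf (nat_lit 137221) (.g (nat_lit 2384) (.e (nat_lit 24603) (nat_lit 2) (.e (nat_lit 90128) (nat_lit 9) (.e (nat_lit 232) (nat_lit 21) (.e (nat_lit 336013) (nat_lit 2) (.e (nat_lit 90134) (nat_lit 9) .nil))))) .nil)) 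
(.lf (nat_lit 137253) (.g (nat_lit 2100) (.e (nat_lit 24603) (nat_lit 2) (.e (nat_lit 90158) (nat_lit 11) (.e (nat_lit 24607) (nat_lit 3) (.e (nat_lit 98317) (nat_lit 9) (.e (nat_lit 336003) (nat_lit 2) .nil))))) .nil))) (.nd (nat_lit 5) 
(.lf (nat_lit 137237) (.g (nat_lit 2967) (.e (nat_lit 24603) (nat_lit 2) (.e (nat_lit 90158) (nat_lit 11) (.e (nat_lit 24604) (nat_lit 2) (.e (nat_lit 90158) (nat_lit 11) (.e (nat_lit 24604) (nat_lit 2) (.e (nat_lit 90160) (nat_lit 11) .nil)))))) (.g (nat_lit 0) .nil .nil))) 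
(.lf (nat_lit 137269) (.g (nat_lit 1849) (.e (nat_lit 24603) (nat_lit 2) (.e (nat_lit 90158) (nat_lit 11) (.e (nat_lit 24608) (nat_lit 3) (.e (nat_lit 98317) (nat_lit 9) (.e (nat_lit 336003) (nat_lit 2) .nil))))) .nil)))) (.nd (nat_lit 4) (.nd (nat_lit 5) 
(.lf (nat_lit 137229) (.g (nat_lit 2448) (.e (nat_lit 24603) (nat_lit 2) (.e (nat_lit 90158) (nat_lit 11) (.e (nat_lit 24603) (nat_lit 2) (.e (nat_lit 90160) (nat_lit 11) (.e (nat_lit 24604) (nat_lit 2) (.e (nat_lit 90158) (nat_lit 11) .nil)))))) (.g (nat_lit 0) .nil .nil))) 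
(.lf (nat_lit 137261) (.g (nat_lit 390) (.e (nat_lit 24603) (nat_lit 2) (.e (nat_lit 90158) (nat_lit 11) (.e (nat_lit 24608) (nat_lit 3) .nil))) .nil))) (.nd (nat_lit 5) 
(.lf (nat_lit 137245) (.g (nat_lit 2103) (.e (nat_lit 24603) (nat_lit 2) (.e (nat_lit 90158) (nat_lit 11) (.e (nat_lit 24605) (nat_lit 2) (.e (nat_lit 90158) (nat_lit 11) (.e (nat_lit 24603) (nat_lit 2) (.e (nat_lit 90160) (nat_lit 11) .nil)))))) (.g (nat_lit 0) .nil .nil))) 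
(.lf (nat_lit 137277) (.g (nat_lit 2654) (.e (nat_lit 24603) (nat_lit 2) (.e (nat_lit 90158) (nat_lit 11) (.e (nat_lit 24609) (nat_lit 3) (.e (nat_lit 98317) (nat_lit 9) (.e (nat_lit 336004) (nat_lit 2) (.e (nat_lit 90158) (nat_lit 11) .nil)))))) (.g (nat_lit 0) .nil .nil))))))) (.nd (nat_lit 2) (.nd (nat_lit 3) (.nd (nat_lit 4) (.nd (nat_lit 5) 
(.lf (nat_lit 137219) (.g (nat_lit 911) (.e (nat_lit 24602) (nat_lit 2) (.e (nat_lit 90185) (nat_lit 17) (.e (nat_lit 237617) (nat_lit 12) .nil))) .nil)) 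
(.lf (nat_lit 137251) (.g (nat_lit 3218) (.e (nat_lit 24603) (nat_lit 2) (.e (nat_lit 90158) (nat_lit 11) (.e (nat_lit 24607) (nat_lit 3) (.e (nat_lit 98313) (nat_lit 9) (.e (nat_lit 336012) (nat_lit 2) (.e (nat_lit 90158) (nat_lit 11) .nil)))))) (.g (nat_lit 0) .nil .nil)))) (.nd (nat_lit 5) 
(.lf (nat_lit 137235) (.g (nat_lit 2476) (.e (nat_lit 24603) (nat_lit 2) (.e (nat_lit 90158) (nat_lit 11) (.e (nat_lit 24604) (nat_lit 2) (.e (nat_lit 90158) (nat_lit 11) (.e (nat_lit 24603) (nat_lit 2) (.e (nat_lit 90160) (nat_lit 11) .nil)))))) (.g (nat_lit 0) .nil .nil))) 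
(.lf (nat_lit 137267) (.g (nat_lit 1036) (.e (nat_lit 24603) (nat_lit 2) (.e (nat_lit 90158) (nat_lit 11) (.e (nat_lit 24608) (nat_lit 3) (.e (nat_lit 98317) (nat_lit 9) .nil)))) .nil)))) (.nd (nat_lit 4) (.nd (nat_lit 5) 
(.lf (nat_lit 137227) (.g (nat_lit 2308) (.e (nat_lit 24603) (nat_lit 2) (.e (nat_lit 90158) (nat_lit 11) (.e (nat_lit 24603) (nat_lit 2) (.e (nat_lit 90158) (nat_lit 11) (.e (nat_lit 24604) (nat_lit 2) (.e (nat_lit 90160) (nat_lit 11) .nil)))))) (.g (nat_lit 0) .nil .nil))) 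
(.lf (nat_lit 137259) (.g (nat_lit 3127) (.e (nat_lit 24603) (nat_lit 2) (.e (nat_lit 90158) (nat_lit 11) (.e (nat_lit 24607) (nat_lit 3) (.e (nat_lit 98317) (nat_lit 9) (.e (nat_lit 336012) (nat_lit 2) (.e (nat_lit 90160) (nat_lit 11) .nil)))))) (.g (nat_lit 0) .nil .nil)))) (.nd (nat_lit 5) 
(.lf (nat_lit 137243) (.g (nat_lit 2947) (.e (nat_lit 24603) (nat_lit 2) (.e (nat_lit 90158) (nat_lit 11) (.e (nat_lit 24604) (nat_lit 2) (.e (nat_lit 90160) (nat_lit 11) (.e (nat_lit 24604) (nat_lit 2) (.e (nat_lit 90158) (nat_lit 11) .nil)))))) (.g (nat_lit 0) .nil .nil))) 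
(.lf (nat_lit 137275) (.g (nat_lit 393) (.e (nat_lit 24603) (nat_lit 2) (.e (nat_lit 90158) (nat_lit 11) (.e (nat_lit 24609) (nat_lit 3) .nil))) .nil))))) (.nd (nat_lit 3) (.nd (nat_lit 4) (.nd (nat_lit 5) 
(.lf (nat_lit 137223) (.g (nat_lit 2720) (.e (nat_lit 24603) (nat_lit 2) (.e (nat_lit 90157) (nat_lit 11) (.e (nat_lit 24607) (nat_lit 3) (.e (nat_lit 98317) (nat_lit 9) (.e (nat_lit 336012) (nat_lit 2) (.e (nat_lit 90158) (nat_lit 11) .nil)))))) (.g (nat_lit 6) .nil .nil))) 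
(.lf (nat_lit 137255) (.g (nat_lit 2926) (.e (nat_lit 24603) (nat_lit 2) (.e (nat_lit 90158) (nat_lit 11) (.e (nat_lit 24607) (nat_lit 3) (.e (nat_lit 98317) (nat_lit 9) (.e (nat_lit 336004) (nat_lit 2) (.e (nat_lit 90160) (nat_lit 11) .nil)))))) (.g (nat_lit 0) .nil .nil)))) (.nd (nat_lit 5) 
(.lf (nat_lit 137239) (.g (nat_lit 2262) (.e (nat_lit 24603) (nat_lit 2) (.e (nat_lit 90158) (nat_lit 11) (.e (nat_lit 24604) (nat_lit 2) (.e (nat_lit 90159) (nat_lit 11) (.e (nat_lit 24602) (nat_lit 2) (.e (nat_lit 90158) (nat_lit 11) .nil)))))) (.g (nat_lit 0) .nil .nil))) 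
(.lf (nat_lit 137271) (.g (nat_lit 2749) (.e (nat_lit 24603) (nat_lit 2) (.e (nat_lit 90158) (nat_lit 11) (.e (nat_lit 24608) (nat_lit 3) (.e (nat_lit 98317) (nat_lit 9) (.e (nat_lit 336004) (nat_lit 2) (.e (nat_lit 90160) (nat_lit 11) .nil)))))) (.g (nat_lit 0) .nil .nil))))) (.nd (nat_lit 4) (.nd (nat_lit 5) 
(.lf (nat_lit 137231) (.g (nat_lit 1799) (.e (nat_lit 24603) (nat_lit 2) (.e (nat_lit 90158) (nat_lit 11) (.e (nat_lit 24604) (nat_lit 2) (.e (nat_lit 90137) (nat_lit 9) .nil)))) .nil)) 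
(.lf (nat_lit 137263) (.g (nat_lit 2811) (.e (nat_lit 24603) (nat_lit 2) (.e (nat_lit 90158) (nat_lit 11) (.e (nat_lit 24608) (nat_lit 3) (.e (nat_lit 98312) (nat_lit 9) (.e (nat_lit 336004) (nat_lit 2) (.e (nat_lit 90158) (nat_lit 11) .nil)))))) (.g (nat_lit 6) .nil .nil)))) (.nd (nat_lit 5) 
(.lf (nat_lit 137247) (.g (nat_lit 2599) (.e (nat_lit 24603) (nat_lit 2) (.e (nat_lit 90158) (nat_lit 11) (.e (nat_lit 24605) (nat_lit 2) (.e (nat_lit 90158) (nat_lit 11) (.e (nat_lit 24604) (nat_lit 2) (.e (nat_lit 90160) (nat_lit 11) .nil)))))) (.g (nat_lit 0) .nil .nil))) 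
(.lf (nat_lit 137279) (.g (nat_lit 2150) (.e (nat_lit 24603) (nat_lit 2) (.e (nat_lit 90158) (nat_lit 11) (.e (nat_lit 24609) (nat_lit 3) (.e (nat_lit 98317) (nat_lit 9) (.e (nat_lit 336010) (nat_lit 2) (.e (nat_lit 90158) (nat_lit 11) .nil)))))) (.g (nat_lit 0) .nil .nil)))))))))

noncomputable def tv1823 : DT := (.nd (nat_lit 0) (.nd (nat_lit 1) (.nd (nat_lit 2) (.nd (nat_lit 3) (.nd (nat_lit 4) (.nd (nat_lit 5) 
(.lf (nat_lit 137280) (.g (nat_lit 2808) (.e (nat_lit 24603) (nat_lit 2) (.e (nat_lit 90158) (nat_lit 11) (.e (nat_lit 24609) (nat_lit 3) (.e (nat_lit 98317) (nat_lit 9) (.e (nat_lit 336012) (nat_lit 2) (.e (nat_lit 90158) (nat_lit 11) .nil)))))) (.g (nat_lit 0) .nil .nil))) 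
(.lf (nat_lit 137312) (.g (nat_lit 1086) (.e (nat_lit 24603) (nat_lit 2) (.e (nat_lit 90172) (nat_lit 14) (.e (nat_lit 180285) (nat_lit 45) (.e (nat_lit 2569) (nat_lit 160) .nil)))) .nil))) (.nd (nat_lit 5) 
(.lf (nat_lit 137296) (.g (nat_lit 2670) (.e (nat_lit 24603) (nat_lit 2) (.e (nat_lit 90160) (nat_lit 11) (.e (nat_lit 24607) (nat_lit 3) (.e (nat_lit 98317) (nat_lit 9) (.e (nat_lit 336002) (nat_lit 2) (.e (nat_lit 90158) (nat_lit 11) .nil)))))) (.g (nat_lit 0) .nil .nil))) 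
(.lf (nat_lit 137328) (.g (nat_lit 2083) (.e (nat_lit 24603) (nat_lit 2) (.e (nat_lit 90185) (nat_lit 17) (.e (nat_lit 237601) (nat_lit 9) (.e (nat_lit 426436) (nat_lit 18) (.e (nat_lit 98337) (nat_lit 19) (.e (nat_lit 213032) (nat_lit 11) .nil)))))) (.g (nat_lit 0) .nil .nil))))) (.nd (nat_lit 4) (.nd (nat_lit 5) 
(.lf (nat_lit 137288) (.g (nat_lit 3098) (.e (nat_lit 24603) (nat_lit 2) (.e (nat_lit 90160) (nat_lit 11) (.e (nat_lit 24604) (nat_lit 2) (.e (nat_lit 90158) (nat_lit 11) (.e (nat_lit 24604) (nat_lit 2) (.e (nat_lit 90158) (nat_lit 11) .nil)))))) (.g (nat_lit 0) .nil .nil))) 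
(.lf (nat_lit 137320) (.g (nat_lit 1616) (.e (nat_lit 24603) (nat_lit 2) (.e (nat_lit 90176) (nat_lit 15) (.e (nat_lit 188450) (nat_lit 23) (.e (nat_lit 204818) (nat_lit 17) .nil)))) .nil))) (.nd (nat_lit 5) 
(.lf (nat_lit 137304) (.g (nat_lit 1447) (.e (nat_lit 24603) (nat_lit 2) (.e (nat_lit 90160) (nat_lit 11) (.e (nat_lit 24608) (nat_lit 3) (.e (nat_lit 98316) (nat_lit 9) (.e (nat_lit 336002) (nat_lit 2) .nil))))) .nil)) 
(.lf (nat_lit 137336) (.g (nat_lit 1917) (.e (nat_lit 24603) (nat_lit 2) (.e (nat_lit 90185) (nat_lit 17) (.e (nat_lit 237613) (nat_lit 10) (.e (nat_lit 434247) (nat_lit 28) (.e (nat_lit 573477) (nat_lit 12) .nil))))) .nil))))) (.nd (nat_lit 3) (.nd (nat_lit 4) (.nd (nat_lit 5) 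
(.lf (nat_lit 137284) (.g (nat_lit 2261) (.e (nat_lit 24603) (nat_lit 2) (.e (nat_lit 90160) (nat_lit 11) (.e (nat_lit 24602) (nat_lit 2) (.e (nat_lit 90158) (nat_lit 11) (.e (nat_lit 24603) (nat_lit 2) (.e (nat_lit 90160) (nat_lit 11) .nil)))))) (.g (nat_lit 6) .nil .nil))) 
(.lf (nat_lit 137316) (.g (nat_lit 1020) (.e (nat_lit 24603) (nat_lit 2) (.e (nat_lit 90176) (nat_lit 15) (.e (nat_lit 188440) (nat_lit 20) (.e (nat_lit 3307) (nat_lit 202) .nil)))) .nil))) (.nd (nat_lit 5) 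
(.lf (nat_lit 137300) (.g (nat_lit 2558) (.e (nat_lit 24603) (nat_lit 2) (.e (nat_lit 90160) (nat_lit 11) (.e (nat_lit 24607) (nat_lit 3) (.e (nat_lit 98317) (nat_lit 9) (.e (nat_lit 336010) (nat_lit 2) (.e (nat_lit 90158) (nat_lit 11) .nil)))))) (.g (nat_lit 0) .nil .nil))) 
(.lf (nat_lit 137332) (.g (nat_lit 1592) (.e (nat_lit 24603) (nat_lit 2) (.e (nat_lit 90185) (nat_lit 17) (.e (nat_lit 237605) (nat_lit 9) (.e (nat_lit 426428) (nat_lit 17) (.e (nat_lit 90165) (nat_lit 12) (.e (nat_lit 164050) (nat_lit 55) (.e (nat_lit 778464) (nat_lit 11) .nil))))))) (.g (nat_lit 4) .nil .nil))))) (.nd (nat_lit 4) (.nd (nat_lit 5) 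
(.lf (nat_lit 137292) (.g (nat_lit 1958) (.e (nat_lit 24603) (nat_lit 2) (.e (nat_lit 90160) (nat_lit 11) (.e (nat_lit 24605) (nat_lit 2) (.e (nat_lit 90158) (nat_lit 11) (.e (nat_lit 24604) (nat_lit 2) .nil))))) .nil)) 
(.lf (nat_lit 137324) (.g (nat_lit 2224) (.e (nat_lit 24603) (nat_lit 2) (.e (nat_lit 90178) (nat_lit 15) (.e (nat_lit 188440) (nat_lit 20) (.e (nat_lit 3307) (nat_lit 202) (.e (nat_lit 573449) (nat_lit 9) (.e (nat_lit 1312) (nat_lit 98) (.e (nat_lit 147494) (nat_lit 11) .nil))))))) (.g (nat_lit 4) .nil .nil)))) (.nd (nat_lit 5) 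
(.lf (nat_lit 137308) (.g (nat_lit 3537) (.e (nat_lit 24603) (nat_lit 2) (.e (nat_lit 90167) (nat_lit 13) (.e (nat_lit 172126) (nat_lit 14) (.e (nat_lit 491537) (nat_lit 2) (.e (nat_lit 90134) (nat_lit 9) (.e (nat_lit 140) (nat_lit 8) (.e (nat_lit 147494) (nat_lit 11) .nil))))))) (.g (nat_lit 5) .nil .nil))) 
(.lf (nat_lit 137340) (.g (nat_lit 2061) (.e (nat_lit 24604) (nat_lit 2) (.e (nat_lit 90128) (nat_lit 9) (.e (nat_lit 246) (nat_lit 21) (.e (nat_lit 336021) (nat_lit 3) (.e (nat_lit 98313) (nat_lit 9) .nil))))) .nil)))))) (.nd (nat_lit 2) (.nd (nat_lit 3) (.nd (nat_lit 4) (.nd (nat_lit 5) 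
(.lf (nat_lit 137282) (.g (nat_lit 941) (.e (nat_lit 24603) (nat_lit 2) (.e (nat_lit 90160) (nat_lit 11) (.e (nat_lit 24576) (nat_lit 0) .nil))) .nil)) 
(.lf (nat_lit 137314) (.g (nat_lit 390) (.e (nat_lit 24603) (nat_lit 2) (.e (nat_lit 90176) (nat_lit 15) (.e (nat_lit 188431) (nat_lit 20) .nil))) .nil))) (.nd (nat_lit 5) 
(.lf (nat_lit 137298) (.g (nat_lit 3060) (.e (nat_lit 24603) (nat_lit 2) (.e (nat_lit 90160) (nat_lit 11) (.e (nat_lit 24607) (nat_lit 3) (.e (nat_lit 98317) (nat_lit 9) (.e (nat_lit 336004) (nat_lit 2) (.e (nat_lit 90158) (nat_lit 11) .nil)))))) (.g (nat_lit 0) .nil .nil))) 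
(.lf (nat_lit 137330) (.g (nat_lit 2002) (.e (nat_lit 24603) (nat_lit 2) (.e (nat_lit 90185) (nat_lit 17) (.e (nat_lit 237601) (nat_lit 9) (.e (nat_lit 426438) (nat_lit 18) (.e (nat_lit 98339) (nat_lit 19) (.e (nat_lit 213032) (nat_lit 11) .nil)))))) (.g (nat_lit 0) .nil .nil))))) (.nd (nat_lit 4) (.nd (nat_lit 5) 
(.lf (nat_lit 137290) (.g (nat_lit 941) (.e (nat_lit 24603) (nat_lit 2) (.e (nat_lit 90160) (nat_lit 11) (.e (nat_lit 24605) (nat_lit 2) .nil))) .nil)) 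
(.lf (nat_lit 137322) (.g (nat_lit 1715) (.e (nat_lit 24603) (nat_lit 2) (.e (nat_lit 90176) (nat_lit 15) (.e (nat_lit 188450) (nat_lit 23) (.e (nat_lit 204830) (nat_lit 18) (.e (nat_lit 65280) (nat_lit 233) .nil))))) .nil))) (.nd (nat_lit 5) 
(.lf (nat_lit 137306) (.g (nat_lit 941) (.e (nat_lit 24603) (nat_lit 2) (.e (nat_lit 90160) (nat_lit 11) (.e (nat_lit 24609) (nat_lit 3) .nil))) .nil)) 
(.lf (nat_lit 137338) (.g (nat_lit 1137) (.e (nat_lit 24603) (nat_lit 2) (.e (nat_lit 90185) (nat_lit 17) (.e (nat_lit 237618) (nat_lit 12) .nil))) .nil))))) (.nd (nat_lit 3) (.nd (nat_lit 4) (.nd (nat_lit 5) 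
(.lf (nat_lit 137286) (.g (nat_lit 2043) (.e (nat_lit 24603) (nat_lit 2) (.e (nat_lit 90160) (nat_lit 11) (.e (nat_lit 24603) (nat_lit 2) (.e (nat_lit 90160) (nat_lit 11) (.e (nat_lit 24603) (nat_lit 2) (.e (nat_lit 90160) (nat_lit 11) .nil)))))) (.g (nat_lit 6) .nil .nil))) 
(.lf (nat_lit 137318) (.g (nat_lit 1115) (.e (nat_lit 24603) (nat_lit 2) (.e (nat_lit 90176) (nat_lit 15) (.e (nat_lit 188450) (nat_lit 23) (.e (nat_lit 204816) (nat_lit 17) .nil)))) .nil))) (.nd (nat_lit 5) 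
(.lf (nat_lit 137302) (.g (nat_lit 1906) (.e (nat_lit 24603) (nat_lit 2) (.e (nat_lit 90160) (nat_lit 11) (.e (nat_lit 24608) (nat_lit 3) (.e (nat_lit 98313) (nat_lit 9) (.e (nat_lit 336002) (nat_lit 2) .nil))))) .nil)) 
(.lf (nat_lit 137334) (.g (nat_lit 2132) (.e (nat_lit 24603) (nat_lit 2) (.e (nat_lit 90185) (nat_lit 17) (.e (nat_lit 237605) (nat_lit 9) (.e (nat_lit 426438) (nat_lit 18) (.e (nat_lit 98339) (nat_lit 19) (.e (nat_lit 213032) (nat_lit 11) .nil)))))) (.g (nat_lit 0) .nil .nil))))) (.nd (nat_lit 4) (.nd (nat_lit 5) 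
(.lf (nat_lit 137294) (.g (nat_lit 2902) (.e (nat_lit 24603) (nat_lit 2) (.e (nat_lit 90160) (nat_lit 11) (.e (nat_lit 24607) (nat_lit 3) (.e (nat_lit 98313) (nat_lit 9) (.e (nat_lit 336004) (nat_lit 2) (.e (nat_lit 90158) (nat_lit 11) .nil)))))) (.g (nat_lit 6) .nil .nil))) 
(.lf (nat_lit 137326) (.g (nat_lit 1187) (.e (nat_lit 24603) (nat_lit 2) (.e (nat_lit 90185) (nat_lit 17) (.e (nat_lit 237600) (nat_lit 9) .nil))) .nil))) (.nd (nat_lit 5) 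
(.lf (nat_lit 137310) (.g (nat_lit 1038) (.e (nat_lit 24603) (nat_lit 2) (.e (nat_lit 90172) (nat_lit 14) (.e (nat_lit 180278) (nat_lit 32) (.e (nat_lit 1252) (nat_lit 92) .nil)))) .nil)) 
(.lf (nat_lit 137342) (.g (nat_lit 2301) (.e (nat_lit 24604) (nat_lit 2) (.e (nat_lit 90128) (nat_lit 9) (.e (nat_lit 295) (nat_lit 21) (.e (nat_lit 336021) (nat_lit 3) (.e (nat_lit 98313) (nat_lit 9) .nil))))) .nil))))))) (.nd (nat_lit 1) (.nd (nat_lit 2) (.nd (nat_lit 3) (.nd (nat_lit 4) (.nd (nat_lit 5) 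
(.lf (nat_lit 137281) (.g (nat_lit 1336) (.e (nat_lit 24603) (nat_lit 2) (.e (nat_lit 90159) (nat_lit 11) (.e (nat_lit 24607) (nat_lit 3) (.e (nat_lit 98317) (nat_lit 9) (.e (nat_lit 336012) (nat_lit 2) .nil))))) .nil)) 
(.lf (nat_lit 137313) (.g (nat_lit 1229) (.e (nat_lit 24603) (nat_lit 2) (.e (nat_lit 90174) (nat_lit 14) (.e (nat_lit 180277) (nat_lit 32) (.e (nat_lit 1253) (nat_lit 92) .nil)))) .nil))) (.nd (nat_lit 5) 
(.lf (nat_lit 137297) (.g (nat_lit 1974) (.e (nat_lit 24603) (nat_lit 2) (.e (nat_lit 90160) (nat_lit 11) (.e (nat_lit 24607) (nat_lit 3) (.e (nat_lit 98317) (nat_lit 9) (.e (nat_lit 336003) (nat_lit 2) .nil))))) .nil)) 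
(.lf (nat_lit 137329) (.g (nat_lit 1260) (.e (nat_lit 24603) (nat_lit 2) (.e (nat_lit 90185) (nat_lit 17) (.e (nat_lit 237601) (nat_lit 9) (.e (nat_lit 426438) (nat_lit 18) (.e (nat_lit 98338) (nat_lit 19) (.e (nat_lit 213030) (nat_lit 11) .nil)))))) (.g (nat_lit 4) .nil .nil))))) (.nd (nat_lit 4) (.nd (nat_lit 5) 
(.lf (nat_lit 137289) (.g (nat_lit 3100) (.e (nat_lit 24603) (nat_lit 2) (.e (nat_lit 90160) (nat_lit 11) (.e (nat_lit 24604) (nat_lit 2) (.e (nat_lit 90158) (nat_lit 11) (.e (nat_lit 24604) (nat_lit 2) (.e (nat_lit 90160) (nat_lit 11) .nil)))))) (.g (nat_lit 6) .nil .nil))) 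
(.lf (nat_lit 137321) (.g (nat_lit 1667) (.e (nat_lit 24603) (nat_lit 2) (.e (nat_lit 90176) (nat_lit 15) (.e (nat_lit 188450) (nat_lit 23) (.e (nat_lit 204819) (nat_lit 17) (.e (nat_lit 1920) (nat_lit 130) .nil))))) .nil))) (.nd (nat_lit 5) 
(.lf (nat_lit 137305) (.g (nat_lit 1682) (.e (nat_lit 24603) (nat_lit 2) (.e (nat_lit 90160) (nat_lit 11) (.e (nat_lit 24608) (nat_lit 3) (.e (nat_lit 98317) (nat_lit 9) (.e (nat_lit 336009) (nat_lit 2) .nil))))) .nil)) 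
(.lf (nat_lit 137337) (.g (nat_lit 1198) (.e (nat_lit 24603) (nat_lit 2) (.e (nat_lit 90185) (nat_lit 17) (.e (nat_lit 237615) (nat_lit 12) .nil))) .nil))))) (.nd (nat_lit 3) (.nd (nat_lit 4) (.nd (nat_lit 5) 
(.lf (nat_lit 137285) (.g (nat_lit 2750) (.e (nat_lit 24603) (nat_lit 2) (.e (nat_lit 90160) (nat_lit 11) (.e (nat_lit 24602) (nat_lit 2) (.e (nat_lit 90158) (nat_lit 11) (.e (nat_lit 24604) (nat_lit 2) (.e (nat_lit 90160) (nat_lit 11) .nil)))))) (.g (nat_lit 6) .nil .nil))) 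
(.lf (nat_lit 137317) (.g (nat_lit 1905) (.e (nat_lit 24603) (nat_lit 2) (.e (nat_lit 90176) (nat_lit 15) (.e (nat_lit 188447) (nat_lit 22) (.e (nat_lit 196661) (nat_lit 12) (.e (nat_lit 57492) (nat_lit 34) (.e (nat_lit 606243) (nat_lit 11) .nil)))))) (.g (nat_lit 5) .nil .nil)))) (.nd (nat_lit 5) 
(.lf (nat_lit 137301) (.g (nat_lit 3207) (.e (nat_lit 24603) (nat_lit 2) (.e (nat_lit 90160) (nat_lit 11) (.e (nat_lit 24607) (nat_lit 3) (.e (nat_lit 98317) (nat_lit 9) (.e (nat_lit 336012) (nat_lit 2) (.e (nat_lit 90158) (nat_lit 11) .nil)))))) (.g (nat_lit 0) .nil .nil))) 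
(.lf (nat_lit 137333) (.g (nat_lit 1468) (.e (nat_lit 24603) (nat_lit 2) (.e (nat_lit 90185) (nat_lit 17) (.e (nat_lit 237605) (nat_lit 9) (.e (nat_lit 426438) (nat_lit 18) (.e (nat_lit 98338) (nat_lit 19) (.e (nat_lit 213030) (nat_lit 11) .nil)))))) (.g (nat_lit 4) .nil .nil))))) (.nd (nat_lit 4) (.nd (nat_lit 5) 
(.lf (nat_lit 137293) (.g (nat_lit 942) (.e (nat_lit 24603) (nat_lit 2) (.e (nat_lit 90160) (nat_lit 11) (.e (nat_lit 24606) (nat_lit 3) (.e (nat_lit 98317) (nat_lit 9) .nil)))) .nil)) 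
(.lf (nat_lit 137325) (.g (nat_lit 4306) (.e (nat_lit 24603) (nat_lit 2) (.e (nat_lit 90178) (nat_lit 15) (.e (nat_lit 188440) (nat_lit 20) (.e (nat_lit 3307) (nat_lit 202) (.e (nat_lit 573454) (nat_lit 9) (.e (nat_lit 1315) (nat_lit 98) (.e (nat_lit 147496) (nat_lit 11) .nil))))))) (.g (nat_lit 7) .nil .nil)))) (.nd (nat_lit 5) 
(.lf (nat_lit 137309) (.g (nat_lit 2077) (.e (nat_lit 24603) (nat_lit 2) (.e (nat_lit 90167) (nat_lit 13) (.e (nat_lit 172126) (nat_lit 14) (.e (nat_lit 491539) (nat_lit 3) (.e (nat_lit 106240) (nat_lit 5) .nil))))) .nil)) 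
(.lf (nat_lit 137341) (.g (nat_lit 2453) (.e (nat_lit 24604) (nat_lit 2) (.e (nat_lit 90128) (nat_lit 9) (.e (nat_lit 271) (nat_lit 21) (.e (nat_lit 336021) (nat_lit 3) (.e (nat_lit 98313) (nat_lit 9) .nil))))) .nil)))))) (.nd (nat_lit 2) (.nd (nat_lit 3) (.nd (nat_lit 4) (.nd (nat_lit 5) 
(.lf (nat_lit 137283) (.g (nat_lit 450) (.e (nat_lit 24603) (nat_lit 2) (.e (nat_lit 90160) (nat_lit 11) (.e (nat_lit 24602) (nat_lit 2) .nil))) .nil)) 
(.lf (nat_lit 137315) (.g (nat_lit 836) (.e (nat_lit 24603) (nat_lit 2) (.e (nat_lit 90176) (nat_lit 15) (.e (nat_lit 188431) (nat_lit 20) (.e (nat_lit 2402) (nat_lit 157) .nil)))) .nil))) (.nd (nat_lit 5) 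
(.lf (nat_lit 137299) (.g (nat_lit 1882) (.e (nat_lit 24603) (nat_lit 2) (.e (nat_lit 90160) (nat_lit 11) (.e (nat_lit 24607) (nat_lit 3) (.e (nat_lit 98317) (nat_lit 9) (.e (nat_lit 336009) (nat_lit 2) .nil))))) .nil)) 
(.lf (nat_lit 137331) (.g (nat_lit 399) (.e (nat_lit 24603) (nat_lit 2) (.e (nat_lit 90185) (nat_lit 17) (.e (nat_lit 237605) (nat_lit 9) .nil))) .nil)))) (.nd (nat_lit 4) (.nd (nat_lit 5) 
(.lf (nat_lit 137291) (.g (nat_lit 1380) (.e (nat_lit 24603) (nat_lit 2) (.e (nat_lit 90160) (nat_lit 11) (.e (nat_lit 24605) (nat_lit 2) (.e (nat_lit 90158) (nat_lit 11) .nil)))) .nil)) 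
(.lf (nat_lit 137323) (.g (nat_lit 1848) (.e (nat_lit 24603) (nat_lit 2) (.e (nat_lit 90176) (nat_lit 15) (.e (nat_lit 188450) (nat_lit 23) (.e (nat_lit 204830) (nat_lit 18) (.e (nat_lit 65280) (nat_lit 233) (.e (nat_lit 2561) (nat_lit 159) .nil)))))) (.g (nat_lit 4) .nil .nil)))) (.nd (nat_lit 5) 
(.lf (nat_lit 137307) (.g (nat_lit 1979) (.e (nat_lit 24603) (nat_lit 2) (.e (nat_lit 90167) (nat_lit 13) (.e (nat_lit 172126) (nat_lit 14) (.e (nat_lit 491537) (nat_lit 2) (.e (nat_lit 90133) (nat_lit 9) .nil))))) .nil)) 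
(.lf (nat_lit 137339) (.g (nat_lit 1328) (.e (nat_lit 24603) (nat_lit 2) (.e (nat_lit 90185) (nat_lit 17) (.e (nat_lit 237618) (nat_lit 12) (.e (nat_lit 475178) (nat_lit 24) .nil)))) .nil))))) (.nd (nat_lit 3) (.nd (nat_lit 4) (.nd (nat_lit 5) 
(.lf (nat_lit 137287) (.g (nat_lit 2200) (.e (nat_lit 24603) (nat_lit 2) (.e (nat_lit 90160) (nat_lit 11) (.e (nat_lit 24604) (nat_lit 2) (.e (nat_lit 90134) (nat_lit 9) (.e (nat_lit 290) (nat_lit 21) .nil))))) .nil)) 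
(.lf (nat_lit 137319) (.g (nat_lit 1434) (.e (nat_lit 24603) (nat_lit 2) (.e (nat_lit 90176) (nat_lit 15) (.e (nat_lit 188450) (nat_lit 23) (.e (nat_lit 204817) (nat_lit 17) (.e (nat_lit 1005) (nat_lit 81) .nil))))) .nil))) (.nd (nat_lit 5) 
(.lf (nat_lit 137303) (.g (nat_lit 1203) (.e (nat_lit 24603) (nat_lit 2) (.e (nat_lit 90160) (nat_lit 11) (.e (nat_lit 24608) (nat_lit 3) (.e (nat_lit 98316) (nat_lit 9) .nil)))) .nil)) 
(.lf (nat_lit 137335) (.g (nat_lit 1186) (.e (nat_lit 24603) (nat_lit 2) (.e (nat_lit 90185) (nat_lit 17) (.e (nat_lit 237613) (nat_lit 10) .nil))) .nil)))) (.nd (nat_lit 4) (.nd (nat_lit 5) 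
(.lf (nat_lit 137295) (.g (nat_lit 3060) (.e (nat_lit 24603) (nat_lit 2) (.e (nat_lit 90160) (nat_lit 11) (.e (nat_lit 24607) (nat_lit 3) (.e (nat_lit 98313) (nat_lit 9) (.e (nat_lit 336012) (nat_lit 2) (.e (nat_lit 90158) (nat_lit 11) .nil)))))) (.g (nat_lit 6) .nil .nil))) 
(.lf (nat_lit 137327) (.g (nat_lit 1436) (.e (nat_lit 24603) (nat_lit 2) (.e (nat_lit 90185) (nat_lit 17) (.e (nat_lit 237601) (nat_lit 9) (.e (nat_lit 426428) (nat_lit 17) (.e (nat_lit 90165) (nat_lit 12) (.e (nat_lit 164050) (nat_lit 55) (.e (nat_lit 778464) (nat_lit 11) .nil))))))) (.g (nat_lit 4) .nil .nil)))) (.nd (nat_lit 5) 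
(.lf (nat_lit 137311) (.g (nat_lit 1447) (.e (nat_lit 24603) (nat_lit 2) (.e (nat_lit 90172) (nat_lit 14) (.e (nat_lit 180278) (nat_lit 32) (.e (nat_lit 1253) (nat_lit 92) (.e (nat_lit 106240) (nat_lit 5) .nil))))) .nil)) 
(.lf (nat_lit 137343) (.g (nat_lit 1800) (.e (nat_lit 24604) (nat_lit 2) (.e (nat_lit 90128) (nat_lit 9) (.e (nat_lit 307) (nat_lit 22) (.e (nat_lit 344107) (nat_lit 19) (.e (nat_lit 499902) (nat_lit 7) .nil))))) .nil))))))))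

noncomputable def tv1824 : DT := (.nd (nat_lit 0) (.nd (nat_lit 1) (.nd (nat_lit 2) (.nd (nat_lit 3) (.nd (nat_lit 4) (.nd (nat_lit 5) 
(.lf (nat_lit 137344) (.g (nat_lit 651) (.e (nat_lit 24604) (nat_lit 2) (.e (nat_lit 90157) (nat_lit 11) (.e (nat_lit 24602) (nat_lit 2) (.e (nat_lit 90157) (nat_lit 11) .nil)))) .nil)) 
(.lf (nat_lit 137376) (.g (nat_lit 3504) (.e (nat_lit 24604) (nat_lit 2) (.e (nat_lit 90158) (nat_lit 11) (.e (nat_lit 24608) (nat_lit 3) (.e (nat_lit 98313) (nat_lit 9) (.e (nat_lit 336012) (nat_lit 2) (.e (nat_lit 90160) (nat_lit 11) .nil)))))) (.g (nat_lit 6) .nil .nil)))) (.nd (nat_lit 5) 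
(.lf (nat_lit 137360) (.g (nat_lit 2712) (.e (nat_lit 24604) (nat_lit 2) (.e (nat_lit 90158) (nat_lit 11) (.e (nat_lit 24605) (nat_lit 2) (.e (nat_lit 90158) (nat_lit 11) (.e (nat_lit 24603) (nat_lit 2) (.e (nat_lit 90160) (nat_lit 11) .nil)))))) (.g (nat_lit 0) .nil .nil))) 
(.lf (nat_lit 137392) (.g (nat_lit 2336) (.e (nat_lit 24604) (nat_lit 2) (.e (nat_lit 90160) (nat_lit 11) (.e (nat_lit 24601) (nat_lit 2) (.e (nat_lit 90160) (nat_lit 11) (.e (nat_lit 24602) (nat_lit 2) .nil))))) .nil)))) (.nd (nat_lit 4) (.nd (nat_lit 5) 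
(.lf (nat_lit 137352) (.g (nat_lit 2115) (.e (nat_lit 24604) (nat_lit 2) (.e (nat_lit 90158) (nat_lit 11) (.e (nat_lit 24604) (nat_lit 2) (.e (nat_lit 90140) (nat_lit 9) (.e (nat_lit 247) (nat_lit 21) .nil))))) .nil)) 
(.lf (nat_lit 137384) (.g (nat_lit 3250) (.e (nat_lit 24604) (nat_lit 2) (.e (nat_lit 90158) (nat_lit 11) (.e (nat_lit 24609) (nat_lit 3) (.e (nat_lit 98317) (nat_lit 9) (.e (nat_lit 336012) (nat_lit 2) (.e (nat_lit 90160) (nat_lit 11) .nil)))))) (.g (nat_lit 0) .nil .nil)))) (.nd (nat_lit 5) 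
(.lf (nat_lit 137368) (.g (nat_lit 3887) (.e (nat_lit 24604) (nat_lit 2) (.e (nat_lit 90158) (nat_lit 11) (.e (nat_lit 24607) (nat_lit 3) (.e (nat_lit 98317) (nat_lit 9) (.e (nat_lit 336004) (nat_lit 2) (.e (nat_lit 90158) (nat_lit 11) .nil)))))) (.g (nat_lit 0) .nil .nil))) 
(.lf (nat_lit 137400) (.g (nat_lit 2087) (.e (nat_lit 24604) (nat_lit 2) (.e (nat_lit 90160) (nat_lit 11) (.e (nat_lit 24608) (nat_lit 3) (.e (nat_lit 98313) (nat_lit 9) (.e (nat_lit 336002) (nat_lit 2) (.e (nat_lit 90158) (nat_lit 11) .nil)))))) (.g (nat_lit 4) .nil .nil)))))) (.nd (nat_lit 3) (.nd (nat_lit 4) (.nd (nat_lit 5) 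
(.lf (nat_lit 137348) (.g (nat_lit 2611) (.e (nat_lit 24604) (nat_lit 2) (.e (nat_lit 90158) (nat_lit 11) (.e (nat_lit 24602) (nat_lit 2) (.e (nat_lit 90158) (nat_lit 11) (.e (nat_lit 24603) (nat_lit 2) (.e (nat_lit 90160) (nat_lit 11) .nil)))))) (.g (nat_lit 0) .nil .nil))) 
(.lf (nat_lit 137380) (.g (nat_lit 3608) (.e (nat_lit 24604) (nat_lit 2) (.e (nat_lit 90158) (nat_lit 11) (.e (nat_lit 24608) (nat_lit 3) (.e (nat_lit 98317) (nat_lit 9) (.e (nat_lit 336012) (nat_lit 2) (.e (nat_lit 90160) (nat_lit 11) .nil)))))) (.g (nat_lit 0) .nil .nil)))) (.nd (nat_lit 5) 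
(.lf (nat_lit 137364) (.g (nat_lit 3679) (.e (nat_lit 24604) (nat_lit 2) (.e (nat_lit 90158) (nat_lit 11) (.e (nat_lit 24607) (nat_lit 3) (.e (nat_lit 98313) (nat_lit 9) (.e (nat_lit 336012) (nat_lit 2) (.e (nat_lit 90160) (nat_lit 11) .nil)))))) (.g (nat_lit 6) .nil .nil))) 
(.lf (nat_lit 137396) (.g (nat_lit 3173) (.e (nat_lit 24604) (nat_lit 2) (.e (nat_lit 90160) (nat_lit 11) (.e (nat_lit 24607) (nat_lit 3) (.e (nat_lit 98317) (nat_lit 9) (.e (nat_lit 336002) (nat_lit 2) (.e (nat_lit 90158) (nat_lit 11) .nil)))))) (.g (nat_lit 0) .nil .nil))))) (.nd (nat_lit 4) (.nd (nat_lit 5) 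
(.lf (nat_lit 137356) (.g (nat_lit 3330) (.e (nat_lit 24604) (nat_lit 2) (.e (nat_lit 90158) (nat_lit 11) (.e (nat_lit 24604) (nat_lit 2) (.e (nat_lit 90158) (nat_lit 11) (.e (nat_lit 24605) (nat_lit 2) (.e (nat_lit 90158) (nat_lit 11) .nil)))))) (.g (nat_lit 0) .nil .nil))) 
(.lf (nat_lit 137388) (.g (nat_lit 3469) (.e (nat_lit 24604) (nat_lit 2) (.e (nat_lit 90159) (nat_lit 11) (.e (nat_lit 24607) (nat_lit 3) (.e (nat_lit 98317) (nat_lit 9) (.e (nat_lit 336012) (nat_lit 2) (.e (nat_lit 90158) (nat_lit 11) .nil)))))) (.g (nat_lit 0) .nil .nil)))) (.nd (nat_lit 5) 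
(.lf (nat_lit 137372) (.g (nat_lit 1904) (.e (nat_lit 24604) (nat_lit 2) (.e (nat_lit 90158) (nat_lit 11) (.e (nat_lit 24607) (nat_lit 3) (.e (nat_lit 98317) (nat_lit 9) (.e (nat_lit 336011) (nat_lit 2) (.e (nat_lit 90158) (nat_lit 11) .nil)))))) (.g (nat_lit 4) .nil .nil))) 
(.lf (nat_lit 137404) (.g (nat_lit 1900) (.e (nat_lit 24604) (nat_lit 2) (.e (nat_lit 90160) (nat_lit 11) (.e (nat_lit 24608) (nat_lit 3) (.e (nat_lit 98316) (nat_lit 9) (.e (nat_lit 336002) (nat_lit 2) (.e (nat_lit 90158) (nat_lit 11) .nil)))))) (.g (nat_lit 4) .nil .nil))))))) (.nd (nat_lit 2) (.nd (nat_lit 3) (.nd (nat_lit 4) (.nd (nat_lit 5) 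
(.lf (nat_lit 137346) (.g (nat_lit 2013) (.e (nat_lit 24604) (nat_lit 2) (.e (nat_lit 90157) (nat_lit 11) (.e (nat_lit 24607) (nat_lit 3) (.e (nat_lit 98317) (nat_lit 9) (.e (nat_lit 336009) (nat_lit 2) .nil))))) .nil)) 
(.lf (nat_lit 137378) (.g (nat_lit 2123) (.e (nat_lit 24604) (nat_lit 2) (.e (nat_lit 90158) (nat_lit 11) (.e (nat_lit 24608) (nat_lit 3) (.e (nat_lit 98317) (nat_lit 9) (.e (nat_lit 336003) (nat_lit 2) (.e (nat_lit 90158) (nat_lit 11) .nil)))))) (.g (nat_lit 4) .nil .nil)))) (.nd (nat_lit 5) 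
(.lf (nat_lit 137362) (.g (nat_lit 1824) (.e (nat_lit 24604) (nat_lit 2) (.e (nat_lit 90158) (nat_lit 11) (.e (nat_lit 24606) (nat_lit 3) (.e (nat_lit 98313) (nat_lit 9) (.e (nat_lit 336004) (nat_lit 2) (.e (nat_lit 90158) (nat_lit 11) .nil)))))) (.g (nat_lit 4) .nil .nil))) 
(.lf (nat_lit 137394) (.g (nat_lit 2193) (.e (nat_lit 24604) (nat_lit 2) (.e (nat_lit 90160) (nat_lit 11) (.e (nat_lit 24604) (nat_lit 2) (.e (nat_lit 90159) (nat_lit 11) (.e (nat_lit 24602) (nat_lit 2) .nil))))) .nil)))) (.nd (nat_lit 4) (.nd (nat_lit 5) 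
(.lf (nat_lit 137354) (.g (nat_lit 3714) (.e (nat_lit 24604) (nat_lit 2) (.e (nat_lit 90158) (nat_lit 11) (.e (nat_lit 24604) (nat_lit 2) (.e (nat_lit 90158) (nat_lit 11) (.e (nat_lit 24604) (nat_lit 2) (.e (nat_lit 90158) (nat_lit 11) .nil)))))) (.g (nat_lit 0) .nil .nil))) 
(.lf (nat_lit 137386) (.g (nat_lit 3375) (.e (nat_lit 24604) (nat_lit 2) (.e (nat_lit 90159) (nat_lit 11) (.e (nat_lit 24607) (nat_lit 3) (.e (nat_lit 98317) (nat_lit 9) (.e (nat_lit 336004) (nat_lit 2) (.e (nat_lit 90158) (nat_lit 11) .nil)))))) (.g (nat_lit 0) .nil .nil)))) (.nd (nat_lit 5) 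
(.lf (nat_lit 137370) (.g (nat_lit 2696) (.e (nat_lit 24604) (nat_lit 2) (.e (nat_lit 90158) (nat_lit 11) (.e (nat_lit 24607) (nat_lit 3) (.e (nat_lit 98317) (nat_lit 9) (.e (nat_lit 336009) (nat_lit 2) (.e (nat_lit 90160) (nat_lit 11) .nil)))))) (.g (nat_lit 4) .nil .nil))) 
(.lf (nat_lit 137402) (.g (nat_lit 3428) (.e (nat_lit 24604) (nat_lit 2) (.e (nat_lit 90160) (nat_lit 11) (.e (nat_lit 24608) (nat_lit 3) (.e (nat_lit 98313) (nat_lit 9) (.e (nat_lit 336012) (nat_lit 2) (.e (nat_lit 90158) (nat_lit 11) .nil)))))) (.g (nat_lit 6) .nil .nil)))))) (.nd (nat_lit 3) (.nd (nat_lit 4) (.nd (nat_lit 5) 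
(.lf (nat_lit 137350) (.g (nat_lit 2307) (.e (nat_lit 24604) (nat_lit 2) (.e (nat_lit 90158) (nat_lit 11) (.e (nat_lit 24604) (nat_lit 2) (.e (nat_lit 90127) (nat_lit 9) (.e (nat_lit 247) (nat_lit 21) .nil))))) .nil)) 
(.lf (nat_lit 137382) (.g (nat_lit 3042) (.e (nat_lit 24604) (nat_lit 2) (.e (nat_lit 90158) (nat_lit 11) (.e (nat_lit 24609) (nat_lit 3) (.e (nat_lit 98317) (nat_lit 9) (.e (nat_lit 336004) (nat_lit 2) (.e (nat_lit 90160) (nat_lit 11) .nil)))))) (.g (nat_lit 0) .nil .nil)))) (.nd (nat_lit 5) 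
(.lf (nat_lit 137366) (.g (nat_lit 3479) (.e (nat_lit 24604) (nat_lit 2) (.e (nat_lit 90158) (nat_lit 11) (.e (nat_lit 24607) (nat_lit 3) (.e (nat_lit 98317) (nat_lit 9) (.e (nat_lit 336002) (nat_lit 2) (.e (nat_lit 90158) (nat_lit 11) .nil)))))) (.g (nat_lit 0) .nil .nil))) 
(.lf (nat_lit 137398) (.g (nat_lit 1960) (.e (nat_lit 24604) (nat_lit 2) (.e (nat_lit 90160) (nat_lit 11) (.e (nat_lit 24607) (nat_lit 3) (.e (nat_lit 98317) (nat_lit 9) (.e (nat_lit 336009) (nat_lit 2) (.e (nat_lit 90158) (nat_lit 11) .nil)))))) (.g (nat_lit 4) .nil .nil))))) (.nd (nat_lit 4) (.nd (nat_lit 5) 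
(.lf (nat_lit 137358) (.g (nat_lit 3545) (.e (nat_lit 24604) (nat_lit 2) (.e (nat_lit 90158) (nat_lit 11) (.e (nat_lit 24604) (nat_lit 2) (.e (nat_lit 90160) (nat_lit 11) (.e (nat_lit 24604) (nat_lit 2) (.e (nat_lit 90160) (nat_lit 11) .nil)))))) (.g (nat_lit 6) .nil .nil))) 
(.lf (nat_lit 137390) (.g (nat_lit 948) (.e (nat_lit 24604) (nat_lit 2) (.e (nat_lit 90160) (nat_lit 11) (.e (nat_lit 24576) (nat_lit 0) .nil))) .nil))) (.nd (nat_lit 5) 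
(.lf (nat_lit 137374) (.g (nat_lit 3819) (.e (nat_lit 24604) (nat_lit 2) (.e (nat_lit 90158) (nat_lit 11) (.e (nat_lit 24607) (nat_lit 3) (.e (nat_lit 98317) (nat_lit 9) (.e (nat_lit 336012) (nat_lit 2) (.e (nat_lit 90160) (nat_lit 11) .nil)))))) (.g (nat_lit 0) .nil .nil))) 
(.lf (nat_lit 137406) (.g (nat_lit 1412) (.e (nat_lit 24604) (nat_lit 2) (.e (nat_lit 90160) (nat_lit 11) (.e (nat_lit 24609) (nat_lit 3) (.e (nat_lit 98317) (nat_lit 9) .nil)))) .nil))))))) (.nd (nat_lit 1) (.nd (nat_lit 2) (.nd (nat_lit 3) (.nd (nat_lit 4) (.nd (nat_lit 5) 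
(.lf (nat_lit 137345) (.g (nat_lit 2232) (.e (nat_lit 24604) (nat_lit 2) (.e (nat_lit 90157) (nat_lit 11) (.e (nat_lit 24607) (nat_lit 3) (.e (nat_lit 98317) (nat_lit 9) (.e (nat_lit 336003) (nat_lit 2) (.e (nat_lit 90158) (nat_lit 11) .nil)))))) (.g (nat_lit 4) .nil .nil))) 
(.lf (nat_lit 137377) (.g (nat_lit 3308) (.e (nat_lit 24604) (nat_lit 2) (.e (nat_lit 90158) (nat_lit 11) (.e (nat_lit 24608) (nat_lit 3) (.e (nat_lit 98317) (nat_lit 9) (.e (nat_lit 336002) (nat_lit 2) (.e (nat_lit 90158) (nat_lit 11) .nil)))))) (.g (nat_lit 0) .nil .nil)))) (.nd (nat_lit 5) 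
(.lf (nat_lit 137361) (.g (nat_lit 3225) (.e (nat_lit 24604) (nat_lit 2) (.e (nat_lit 90158) (nat_lit 11) (.e (nat_lit 24605) (nat_lit 2) (.e (nat_lit 90158) (nat_lit 11) (.e (nat_lit 24604) (nat_lit 2) (.e (nat_lit 90160) (nat_lit 11) .nil)))))) (.g (nat_lit 0) .nil .nil))) 
(.lf (nat_lit 137393) (.g (nat_lit 1489) (.e (nat_lit 24604) (nat_lit 2) (.e (nat_lit 90160) (nat_lit 11) (.e (nat_lit 24604) (nat_lit 2) (.e (nat_lit 90133) (nat_lit 9) .nil)))) .nil)))) (.nd (nat_lit 4) (.nd (nat_lit 5) 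
(.lf (nat_lit 137353) (.g (nat_lit 2634) (.e (nat_lit 24604) (nat_lit 2) (.e (nat_lit 90158) (nat_lit 11) (.e (nat_lit 24604) (nat_lit 2) (.e (nat_lit 90144) (nat_lit 9) (.e (nat_lit 247) (nat_lit 21) .nil))))) .nil)) 
(.lf (nat_lit 137385) (.g (nat_lit 1886) (.e (nat_lit 24604) (nat_lit 2) (.e (nat_lit 90159) (nat_lit 11) (.e (nat_lit 24607) (nat_lit 3) (.e (nat_lit 98317) (nat_lit 9) (.e (nat_lit 336003) (nat_lit 2) .nil))))) .nil))) (.nd (nat_lit 5) 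
(.lf (nat_lit 137369) (.g (nat_lit 2396) (.e (nat_lit 24604) (nat_lit 2) (.e (nat_lit 90158) (nat_lit 11) (.e (nat_lit 24607) (nat_lit 3) (.e (nat_lit 98317) (nat_lit 9) (.e (nat_lit 336009) (nat_lit 2) (.e (nat_lit 90158) (nat_lit 11) .nil)))))) (.g (nat_lit 4) .nil .nil))) 
(.lf (nat_lit 137401) (.g (nat_lit 3338) (.e (nat_lit 24604) (nat_lit 2) (.e (nat_lit 90160) (nat_lit 11) (.e (nat_lit 24608) (nat_lit 3) (.e (nat_lit 98313) (nat_lit 9) (.e (nat_lit 336004) (nat_lit 2) (.e (nat_lit 90158) (nat_lit 11) .nil)))))) (.g (nat_lit 6) .nil .nil)))))) (.nd (nat_lit 3) (.nd (nat_lit 4) (.nd (nat_lit 5) 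
(.lf (nat_lit 137349) (.g (nat_lit 3122) (.e (nat_lit 24604) (nat_lit 2) (.e (nat_lit 90158) (nat_lit 11) (.e (nat_lit 24602) (nat_lit 2) (.e (nat_lit 90158) (nat_lit 11) (.e (nat_lit 24604) (nat_lit 2) (.e (nat_lit 90160) (nat_lit 11) .nil)))))) (.g (nat_lit 0) .nil .nil))) 
(.lf (nat_lit 137381) (.g (nat_lit 3315) (.e (nat_lit 24604) (nat_lit 2) (.e (nat_lit 90158) (nat_lit 11) (.e (nat_lit 24609) (nat_lit 3) (.e (nat_lit 98317) (nat_lit 9) (.e (nat_lit 336004) (nat_lit 2) (.e (nat_lit 90158) (nat_lit 11) .nil)))))) (.g (nat_lit 0) .nil .nil)))) (.nd (nat_lit 5) 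
(.lf (nat_lit 137365) (.g (nat_lit 1913) (.e (nat_lit 24604) (nat_lit 2) (.e (nat_lit 90158) (nat_lit 11) (.e (nat_lit 24607) (nat_lit 3) (.e (nat_lit 98316) (nat_lit 9) .nil)))) .nil)) 
(.lf (nat_lit 137397) (.g (nat_lit 2177) (.e (nat_lit 24604) (nat_lit 2) (.e (nat_lit 90160) (nat_lit 11) (.e (nat_lit 24607) (nat_lit 3) (.e (nat_lit 98317) (nat_lit 9) (.e (nat_lit 336003) (nat_lit 2) (.e (nat_lit 90158) (nat_lit 11) .nil)))))) (.g (nat_lit 4) .nil .nil))))) (.nd (nat_lit 4) (.nd (nat_lit 5) 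
(.lf (nat_lit 137357) (.g (nat_lit 2116) (.e (nat_lit 24604) (nat_lit 2) (.e (nat_lit 90158) (nat_lit 11) (.e (nat_lit 24604) (nat_lit 2) (.e (nat_lit 90160) (nat_lit 11) (.e (nat_lit 24601) (nat_lit 2) .nil))))) .nil)) 
(.lf (nat_lit 137389) (.g (nat_lit 2410) (.e (nat_lit 24604) (nat_lit 2) (.e (nat_lit 90159) (nat_lit 11) (.e (nat_lit 24607) (nat_lit 3) (.e (nat_lit 98317) (nat_lit 9) (.e (nat_lit 336012) (nat_lit 2) (.e (nat_lit 90160) (nat_lit 11) .nil)))))) (.g (nat_lit 4) .nil .nil)))) (.nd (nat_lit 5) 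
(.lf (nat_lit 137373) (.g (nat_lit 3992) (.e (nat_lit 24604) (nat_lit 2) (.e (nat_lit 90158) (nat_lit 11) (.e (nat_lit 24607) (nat_lit 3) (.e (nat_lit 98317) (nat_lit 9) (.e (nat_lit 336012) (nat_lit 2) (.e (nat_lit 90158) (nat_lit 11) .nil)))))) (.g (nat_lit 0) .nil .nil))) 
(.lf (nat_lit 137405) (.g (nat_lit 1859) (.e (nat_lit 24604) (nat_lit 2) (.e (nat_lit 90160) (nat_lit 11) (.e (nat_lit 24608) (nat_lit 3) (.e (nat_lit 98317) (nat_lit 9) (.e (nat_lit 336003) (nat_lit 2) (.e (nat_lit 90158) (nat_lit 11) .nil)))))) (.g (nat_lit 4) .nil .nil))))))) (.nd (nat_lit 2) (.nd (nat_lit 3) (.nd (nat_lit 4) (.nd (nat_lit 5) 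
(.lf (nat_lit 137347) (.g (nat_lit 1151) (.e (nat_lit 24604) (nat_lit 2) (.e (nat_lit 90157) (nat_lit 11) (.e (nat_lit 24607) (nat_lit 3) (.e (nat_lit 106240) (nat_lit 9) .nil)))) .nil)) 
(.lf (nat_lit 137379) (.g (nat_lit 2047) (.e (nat_lit 24604) (nat_lit 2) (.e (nat_lit 90158) (nat_lit 11) (.e (nat_lit 24608) (nat_lit 3) (.e (nat_lit 98317) (nat_lit 9) (.e (nat_lit 336009) (nat_lit 2) (.e (nat_lit 90158) (nat_lit 11) .nil)))))) (.g (nat_lit 4) .nil .nil)))) (.nd (nat_lit 5) 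
(.lf (nat_lit 137363) (.g (nat_lit 2271) (.e (nat_lit 24604) (nat_lit 2) (.e (nat_lit 90158) (nat_lit 11) (.e (nat_lit 24607) (nat_lit 3) (.e (nat_lit 98313) (nat_lit 9) (.e (nat_lit 336004) (nat_lit 2) (.e (nat_lit 90160) (nat_lit 11) .nil)))))) (.g (nat_lit 4) .nil .nil))) 
(.lf (nat_lit 137395) (.g (nat_lit 2402) (.e (nat_lit 24604) (nat_lit 2) (.e (nat_lit 90160) (nat_lit 11) (.e (nat_lit 24604) (nat_lit 2) (.e (nat_lit 90160) (nat_lit 11) (.e (nat_lit 24601) (nat_lit 2) .nil))))) .nil)))) (.nd (nat_lit 4) (.nd (nat_lit 5) 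
(.lf (nat_lit 137355) (.g (nat_lit 3606) (.e (nat_lit 24604) (nat_lit 2) (.e (nat_lit 90158) (nat_lit 11) (.e (nat_lit 24604) (nat_lit 2) (.e (nat_lit 90158) (nat_lit 11) (.e (nat_lit 24604) (nat_lit 2) (.e (nat_lit 90160) (nat_lit 11) .nil)))))) (.g (nat_lit 0) .nil .nil))) 
(.lf (nat_lit 137387) (.g (nat_lit 1886) (.e (nat_lit 24604) (nat_lit 2) (.e (nat_lit 90159) (nat_lit 11) (.e (nat_lit 24607) (nat_lit 3) (.e (nat_lit 98317) (nat_lit 9) (.e (nat_lit 336009) (nat_lit 2) .nil))))) .nil))) (.nd (nat_lit 5) 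
(.lf (nat_lit 137371) (.g (nat_lit 3371) (.e (nat_lit 24604) (nat_lit 2) (.e (nat_lit 90158) (nat_lit 11) (.e (nat_lit 24607) (nat_lit 3) (.e (nat_lit 98317) (nat_lit 9) (.e (nat_lit 336010) (nat_lit 2) (.e (nat_lit 90158) (nat_lit 11) .nil)))))) (.g (nat_lit 0) .nil .nil))) 
(.lf (nat_lit 137403) (.g (nat_lit 1186) (.e (nat_lit 24604) (nat_lit 2) (.e (nat_lit 90160) (nat_lit 11) (.e (nat_lit 24608) (nat_lit 3) (.e (nat_lit 98316) (nat_lit 9) .nil)))) .nil))))) (.nd (nat_lit 3) (.nd (nat_lit 4) (.nd (nat_lit 5) 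
(.lf (nat_lit 137351) (.g (nat_lit 2371) (.e (nat_lit 24604) (nat_lit 2) (.e (nat_lit 90158) (nat_lit 11) (.e (nat_lit 24604) (nat_lit 2) (.e (nat_lit 90137) (nat_lit 9) (.e (nat_lit 247) (nat_lit 21) .nil))))) .nil)) 
(.lf (nat_lit 137383) (.g (nat_lit 3424) (.e (nat_lit 24604) (nat_lit 2) (.e (nat_lit 90158) (nat_lit 11) (.e (nat_lit 24609) (nat_lit 3) (.e (nat_lit 98317) (nat_lit 9) (.e (nat_lit 336012) (nat_lit 2) (.e (nat_lit 90158) (nat_lit 11) .nil)))))) (.g (nat_lit 0) .nil .nil)))) (.nd (nat_lit 5) 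
(.lf (nat_lit 137367) (.g (nat_lit 2479) (.e (nat_lit 24604) (nat_lit 2) (.e (nat_lit 90158) (nat_lit 11) (.e (nat_lit 24607) (nat_lit 3) (.e (nat_lit 98317) (nat_lit 9) (.e (nat_lit 336003) (nat_lit 2) (.e (nat_lit 90158) (nat_lit 11) .nil)))))) (.g (nat_lit 4) .nil .nil))) 
(.lf (nat_lit 137399) (.g (nat_lit 2013) (.e (nat_lit 24604) (nat_lit 2) (.e (nat_lit 90160) (nat_lit 11) (.e (nat_lit 24608) (nat_lit 3) (.e (nat_lit 98312) (nat_lit 9) .nil)))) .nil)))) (.nd (nat_lit 4) (.nd (nat_lit 5) 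
(.lf (nat_lit 137359) (.g (nat_lit 2286) (.e (nat_lit 24604) (nat_lit 2) (.e (nat_lit 90158) (nat_lit 11) (.e (nat_lit 24604) (nat_lit 2) (.e (nat_lit 90160) (nat_lit 11) (.e (nat_lit 24605) (nat_lit 2) .nil))))) .nil)) 
(.lf (nat_lit 137391) (.g (nat_lit 897) (.e (nat_lit 24604) (nat_lit 2) (.e (nat_lit 90160) (nat_lit 11) (.e (nat_lit 24588) (nat_lit 0) .nil))) .nil))) (.nd (nat_lit 5) 
(.lf (nat_lit 137375) (.g (nat_lit 3654) (.e (nat_lit 24604) (nat_lit 2) (.e (nat_lit 90158) (nat_lit 11) (.e (nat_lit 24608) (nat_lit 3) (.e (nat_lit 98313) (nat_lit 9) (.e (nat_lit 336004) (nat_lit 2) (.e (nat_lit 90158) (nat_lit 11) .nil)))))) (.g (nat_lit 0) .nil .nil))) 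
(.lf (nat_lit 137407) (.g (nat_lit 3129) (.e (nat_lit 24604) (nat_lit 2) (.e (nat_lit 90167) (nat_lit 13) (.e (nat_lit 172126) (nat_lit 14) (.e (nat_lit 491537) (nat_lit 2) (.e (nat_lit 90134) (nat_lit 9) (.e (nat_lit 140) (nat_lit 8) (.e (nat_lit 147496) (nat_lit 11) .nil))))))) (.g (nat_lit 4) .nil .nil)))))))))

noncomputable def tv1825 : DT := (.nd (nat_lit 0) (.nd (nat_lit 1) (.nd (nat_lit 2) (.nd (nat_lit 3) (.nd (nat_lit 4) (.nd (nat_lit 5) 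
(.lf (nat_lit 137408) (.g (nat_lit 1921) (.e (nat_lit 24604) (nat_lit 2) (.e (nat_lit 90170) (nat_lit 13) (.e (nat_lit 172106) (nat_lit 10) (.e (nat_lit 434202) (nat_lit 18) .nil)))) .nil)) 
(.lf (nat_lit 137440) (.g (nat_lit 362) (.e (nat_lit 24604) (nat_lit 2) (.e (nat_lit 90178) (nat_lit 15) (.e (nat_lit 196352) (nat_lit 2) .nil))) .nil))) (.nd (nat_lit 5) 
(.lf (nat_lit 137424) (.g (nat_lit 2418) (.e (nat_lit 24604) (nat_lit 2) (.e (nat_lit 90170) (nat_lit 13) (.e (nat_lit 172106) (nat_lit 10) (.e (nat_lit 434244) (nat_lit 28) (.e (nat_lit 573453) (nat_lit 9) (.e (nat_lit 1312) (nat_lit 98) (.e (nat_lit 147493) (nat_lit 11) .nil))))))) (.g (nat_lit 4) .nil .nil))) 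
(.lf (nat_lit 137456) (.g (nat_lit 1607) (.e (nat_lit 24604) (nat_lit 2) (.e (nat_lit 90185) (nat_lit 17) (.e (nat_lit 237601) (nat_lit 9) (.e (nat_lit 426436) (nat_lit 18) (.e (nat_lit 98327) (nat_lit 17) .nil))))) .nil)))) (.nd (nat_lit 4) (.nd (nat_lit 5) 
(.lf (nat_lit 137416) (.g (nat_lit 3778) (.e (nat_lit 24604) (nat_lit 2) (.e (nat_lit 90170) (nat_lit 13) (.e (nat_lit 172106) (nat_lit 10) (.e (nat_lit 434244) (nat_lit 28) (.e (nat_lit 573448) (nat_lit 9) (.e (nat_lit 1315) (nat_lit 98) (.e (nat_lit 147496) (nat_lit 11) .nil))))))) (.g (nat_lit 4) .nil .nil))) 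
(.lf (nat_lit 137448) (.g (nat_lit 466) (.e (nat_lit 24604) (nat_lit 2) (.e (nat_lit 90178) (nat_lit 15) (.e (nat_lit 188442) (nat_lit 20) .nil))) .nil))) (.nd (nat_lit 5) 
(.lf (nat_lit 137432) (.g (nat_lit 808) (.e (nat_lit 24604) (nat_lit 2) (.e (nat_lit 90176) (nat_lit 15) (.e (nat_lit 188431) (nat_lit 20) (.e (nat_lit 2402) (nat_lit 157) .nil)))) .nil)) 
(.lf (nat_lit 137464) (.g (nat_lit 839) (.e (nat_lit 24604) (nat_lit 2) (.e (nat_lit 90185) (nat_lit 17) (.e (nat_lit 237605) (nat_lit 9) (.e (nat_lit 425986) (nat_lit 0) .nil)))) .nil))))) (.nd (nat_lit 3) (.nd (nat_lit 4) (.nd (nat_lit 5) 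
(.lf (nat_lit 137412) (.g (nat_lit 4709) (.e (nat_lit 24604) (nat_lit 2) (.e (nat_lit 90170) (nat_lit 13) (.e (nat_lit 172106) (nat_lit 10) (.e (nat_lit 434231) (nat_lit 23) (.e (nat_lit 532481) (nat_lit 0) (.e (nat_lit 1917) (nat_lit 130) (.e (nat_lit 614144) (nat_lit 11) .nil))))))) (.g (nat_lit 5) .nil .nil))) 
(.lf (nat_lit 137444) (.g (nat_lit 3802) (.e (nat_lit 24604) (nat_lit 2) (.e (nat_lit 90178) (nat_lit 15) (.e (nat_lit 188440) (nat_lit 20) (.e (nat_lit 3307) (nat_lit 202) (.e (nat_lit 573456) (nat_lit 9) (.e (nat_lit 1312) (nat_lit 98) (.e (nat_lit 147493) (nat_lit 11) .nil))))))) (.g (nat_lit 5) .nil .nil)))) (.nd (nat_lit 5) 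
(.lf (nat_lit 137428) (.g (nat_lit 741) (.e (nat_lit 24604) (nat_lit 2) (.e (nat_lit 90170) (nat_lit 13) (.e (nat_lit 172124) (nat_lit 14) .nil))) .nil)) 
(.lf (nat_lit 137460) (.g (nat_lit 1408) (.e (nat_lit 24604) (nat_lit 2) (.e (nat_lit 90185) (nat_lit 17) (.e (nat_lit 237601) (nat_lit 9) (.e (nat_lit 426436) (nat_lit 18) (.e (nat_lit 98348) (nat_lit 23) (.e (nat_lit 262165) (nat_lit 11) .nil)))))) (.g (nat_lit 4) .nil .nil))))) (.nd (nat_lit 4) (.nd (nat_lit 5) 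
(.lf (nat_lit 137420) (.g (nat_lit 3581) (.e (nat_lit 24604) (nat_lit 2) (.e (nat_lit 90170) (nat_lit 13) (.e (nat_lit 172106) (nat_lit 10) (.e (nat_lit 434244) (nat_lit 28) (.e (nat_lit 573451) (nat_lit 9) (.e (nat_lit 1004) (nat_lit 81) (.e (nat_lit 2292) (nat_lit 151) (.e (nat_lit 778459) (nat_lit 11) .nil)))))))) (.g (nat_lit 5) .nil .nil))) 
(.lf (nat_lit 137452) (.g (nat_lit 1852) (.e (nat_lit 24604) (nat_lit 2) (.e (nat_lit 90185) (nat_lit 17) (.e (nat_lit 237601) (nat_lit 9) (.e (nat_lit 426428) (nat_lit 17) (.e (nat_lit 90165) (nat_lit 12) (.e (nat_lit 164046) (nat_lit 55) (.e (nat_lit 778468) (nat_lit 11) .nil))))))) (.g (nat_lit 4) .nil .nil)))) (.nd (nat_lit 5) 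
(.lf (nat_lit 137436) (.g (nat_lit 2355) (.e (nat_lit 24604) (nat_lit 2) (.e (nat_lit 90176) (nat_lit 15) (.e (nat_lit 188450) (nat_lit 23) (.e (nat_lit 204819) (nat_lit 17) (.e (nat_lit 1920) (nat_lit 130) (.e (nat_lit 606243) (nat_lit 11) .nil)))))) (.g (nat_lit 4) .nil .nil))) 
(.lf (nat_lit 137468) (.g (nat_lit 3612) (.e (nat_lit 24604) (nat_lit 2) (.e (nat_lit 90185) (nat_lit 17) (.e (nat_lit 237605) (nat_lit 9) (.e (nat_lit 426428) (nat_lit 17) (.e (nat_lit 90165) (nat_lit 12) (.e (nat_lit 164049) (nat_lit 55) (.e (nat_lit 778465) (nat_lit 11) .nil))))))) (.g (nat_lit 0) .nil .nil))))))) (.nd (nat_lit 2) (.nd (nat_lit 3) (.nd (nat_lit 4) (.nd (nat_lit 5) 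
(.lf (nat_lit 137410) (.g (nat_lit 3778) (.e (nat_lit 24604) (nat_lit 2) (.e (nat_lit 90170) (nat_lit 13) (.e (nat_lit 172106) (nat_lit 10) (.e (nat_lit 434231) (nat_lit 23) (.e (nat_lit 532481) (nat_lit 0) (.e (nat_lit 1915) (nat_lit 130) (.e (nat_lit 606243) (nat_lit 11) .nil))))))) (.g (nat_lit 4) .nil .nil))) 
(.lf (nat_lit 137442) (.g (nat_lit 528) (.e (nat_lit 24604) (nat_lit 2) (.e (nat_lit 90178) (nat_lit 15) (.e (nat_lit 188440) (nat_lit 20) .nil))) .nil))) (.nd (nat_lit 5) 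
(.lf (nat_lit 137426) (.g (nat_lit 3200) (.e (nat_lit 24604) (nat_lit 2) (.e (nat_lit 90170) (nat_lit 13) (.e (nat_lit 172106) (nat_lit 10) (.e (nat_lit 434244) (nat_lit 28) (.e (nat_lit 573456) (nat_lit 9) .nil))))) .nil)) 
(.lf (nat_lit 137458) (.g (nat_lit 1849) (.e (nat_lit 24604) (nat_lit 2) (.e (nat_lit 90185) (nat_lit 17) (.e (nat_lit 237601) (nat_lit 9) (.e (nat_lit 426436) (nat_lit 18) (.e (nat_lit 98338) (nat_lit 19) (.e (nat_lit 220928) (nat_lit 11) .nil)))))) (.g (nat_lit 4) .nil .nil))))) (.nd (nat_lit 4) (.nd (nat_lit 5) 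
(.lf (nat_lit 137418) (.g (nat_lit 4101) (.e (nat_lit 24604) (nat_lit 2) (.e (nat_lit 90170) (nat_lit 13) (.e (nat_lit 172106) (nat_lit 10) (.e (nat_lit 434244) (nat_lit 28) (.e (nat_lit 573449) (nat_lit 9) (.e (nat_lit 1312) (nat_lit 98) (.e (nat_lit 147493) (nat_lit 11) .nil))))))) (.g (nat_lit 6) .nil .nil))) 
(.lf (nat_lit 137450) (.g (nat_lit 863) (.e (nat_lit 24604) (nat_lit 2) (.e (nat_lit 90185) (nat_lit 17) (.e (nat_lit 237600) (nat_lit 9) .nil))) .nil))) (.nd (nat_lit 5) 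
(.lf (nat_lit 137434) (.g (nat_lit 2814) (.e (nat_lit 24604) (nat_lit 2) (.e (nat_lit 90176) (nat_lit 15) (.e (nat_lit 188440) (nat_lit 20) (.e (nat_lit 3307) (nat_lit 202) (.e (nat_lit 573456) (nat_lit 9) (.e (nat_lit 1312) (nat_lit 98) (.e (nat_lit 147494) (nat_lit 11) .nil))))))) (.g (nat_lit 4) .nil .nil))) 
(.lf (nat_lit 137466) (.g (nat_lit 2039) (.e (nat_lit 24604) (nat_lit 2) (.e (nat_lit 90185) (nat_lit 17) (.e (nat_lit 237605) (nat_lit 9) (.e (nat_lit 426428) (nat_lit 17) (.e (nat_lit 90165) (nat_lit 12) (.e (nat_lit 164046) (nat_lit 55) (.e (nat_lit 778468) (nat_lit 11) .nil))))))) (.g (nat_lit 4) .nil .nil)))))) (.nd (nat_lit 3) (.nd (nat_lit 4) (.nd (nat_lit 5) 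
(.lf (nat_lit 137414) (.g (nat_lit 3554) (.e (nat_lit 24604) (nat_lit 2) (.e (nat_lit 90170) (nat_lit 13) (.e (nat_lit 172106) (nat_lit 10) (.e (nat_lit 434231) (nat_lit 23) (.e (nat_lit 532490) (nat_lit 0) (.e (nat_lit 1915) (nat_lit 130) (.e (nat_lit 606243) (nat_lit 11) .nil))))))) (.g (nat_lit 5) .nil .nil))) 
(.lf (nat_lit 137446) (.g (nat_lit 2855) (.e (nat_lit 24604) (nat_lit 2) (.e (nat_lit 90178) (nat_lit 15) (.e (nat_lit 188440) (nat_lit 20) (.e (nat_lit 3307) (nat_lit 202) (.e (nat_lit 573501) (nat_lit 18) (.e (nat_lit 2574) (nat_lit 161) (.e (nat_lit 40997) (nat_lit 11) .nil))))))) (.g (nat_lit 4) .nil .nil)))) (.nd (nat_lit 5) 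
(.lf (nat_lit 137430) (.g (nat_lit 611) (.e (nat_lit 24604) (nat_lit 2) (.e (nat_lit 90172) (nat_lit 14) (.e (nat_lit 188160) (nat_lit 40) .nil))) .nil)) 
(.lf (nat_lit 137462) (.g (nat_lit 560) (.e (nat_lit 24604) (nat_lit 2) (.e (nat_lit 90185) (nat_lit 17) (.e (nat_lit 237604) (nat_lit 9) .nil))) .nil)))) (.nd (nat_lit 4) (.nd (nat_lit 5) 
(.lf (nat_lit 137422) (.g (nat_lit 3463) (.e (nat_lit 24604) (nat_lit 2) (.e (nat_lit 90170) (nat_lit 13) (.e (nat_lit 172106) (nat_lit 10) (.e (nat_lit 434244) (nat_lit 28) (.e (nat_lit 573451) (nat_lit 9) (.e (nat_lit 1310) (nat_lit 98) (.e (nat_lit 147493) (nat_lit 11) .nil))))))) (.g (nat_lit 5) .nil .nil))) 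
(.lf (nat_lit 137454) (.g (nat_lit 1326) (.e (nat_lit 24604) (nat_lit 2) (.e (nat_lit 90185) (nat_lit 17) (.e (nat_lit 237601) (nat_lit 9) (.e (nat_lit 426436) (nat_lit 18) (.e (nat_lit 98321) (nat_lit 17) .nil))))) .nil))) (.nd (nat_lit 5) 
(.lf (nat_lit 137438) (.g (nat_lit 1402) (.e (nat_lit 24604) (nat_lit 2) (.e (nat_lit 90176) (nat_lit 15) (.e (nat_lit 188450) (nat_lit 23) (.e (nat_lit 204829) (nat_lit 18) .nil)))) .nil)) 
(.lf (nat_lit 137470) (.g (nat_lit 3544) (.e (nat_lit 24604) (nat_lit 2) (.e (nat_lit 90185) (nat_lit 17) (.e (nat_lit 237605) (nat_lit 9) (.e (nat_lit 426428) (nat_lit 17) (.e (nat_lit 90165) (nat_lit 12) (.e (nat_lit 164050) (nat_lit 55) (.e (nat_lit 778465) (nat_lit 11) .nil))))))) (.g (nat_lit 0) .nil .nil)))))))) 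
(.nd (nat_lit 1) (.nd (nat_lit 2) (.nd (nat_lit 3) (.nd (nat_lit 4) (.nd (nat_lit 5) 
(.lf (nat_lit 137409) (.g (nat_lit 2953) (.e (nat_lit 24604) (nat_lit 2) (.e (nat_lit 90170) (nat_lit 13) (.e (nat_lit 172106) (nat_lit 10) (.e (nat_lit 434209) (nat_lit 18) (.e (nat_lit 4273) (nat_lit 252) .nil))))) .nil)) 
(.lf (nat_lit 137441) (.g (nat_lit 362) (.e (nat_lit 24604) (nat_lit 2) (.e (nat_lit 90178) (nat_lit 15) (.e (nat_lit 196352) (nat_lit 3) .nil))) .nil))) (.nd (nat_lit 5) 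
(.lf (nat_lit 137425) (.g (nat_lit 3017) (.e (nat_lit 24604) (nat_lit 2) (.e (nat_lit 90170) (nat_lit 13) (.e (nat_lit 172106) (nat_lit 10) (.e (nat_lit 434244) (nat_lit 28) (.e (nat_lit 573453) (nat_lit 9) (.e (nat_lit 1312) (nat_lit 98) (.e (nat_lit 147494) (nat_lit 11) .nil))))))) (.g (nat_lit 4) .nil .nil))) 
(.lf (nat_lit 137457) (.g (nat_lit 2307) (.e (nat_lit 24604) (nat_lit 2) (.e (nat_lit 90185) (nat_lit 17) (.e (nat_lit 237601) (nat_lit 9) (.e (nat_lit 426436) (nat_lit 18) (.e (nat_lit 98327) (nat_lit 17) (.e (nat_lit 3721) (nat_lit 227) (.e (nat_lit 778464) (nat_lit 11) .nil))))))) (.g (nat_lit 4) .nil .nil))))) (.nd (nat_lit 4) (.nd (nat_lit 5) 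
(.lf (nat_lit 137417) (.g (nat_lit 3712) (.e (nat_lit 24604) (nat_lit 2) (.e (nat_lit 90170) (nat_lit 13) (.e (nat_lit 172106) (nat_lit 10) (.e (nat_lit 434244) (nat_lit 28) (.e (nat_lit 573449) (nat_lit 9) (.e (nat_lit 1312) (nat_lit 98) (.e (nat_lit 147492) (nat_lit 11) .nil))))))) (.g (nat_lit 5) .nil .nil))) 
(.lf (nat_lit 137449) (.g (nat_lit 1584) (.e (nat_lit 24604) (nat_lit 2) (.e (nat_lit 90178) (nat_lit 15) (.e (nat_lit 188455) (nat_lit 24) (.e (nat_lit 229518) (nat_lit 123) (.e (nat_lit 8299) (nat_lit 54) .nil))))) .nil))) (.nd (nat_lit 5) 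
(.lf (nat_lit 137433) (.g (nat_lit 980) (.e (nat_lit 24604) (nat_lit 2) (.e (nat_lit 90176) (nat_lit 15) (.e (nat_lit 188440) (nat_lit 20) (.e (nat_lit 3307) (nat_lit 202) .nil)))) .nil)) 
(.lf (nat_lit 137465) (.g (nat_lit 2309) (.e (nat_lit 24604) (nat_lit 2) (.e (nat_lit 90185) (nat_lit 17) (.e (nat_lit 237605) (nat_lit 9) (.e (nat_lit 426428) (nat_lit 17) (.e (nat_lit 90165) (nat_lit 12) (.e (nat_lit 164046) (nat_lit 55) (.e (nat_lit 778460) (nat_lit 11) .nil))))))) (.g (nat_lit 4) .nil .nil)))))) (.nd (nat_lit 3) (.nd (nat_lit 4) (.nd (nat_lit 5) 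
(.lf (nat_lit 137413) (.g (nat_lit 4252) (.e (nat_lit 24604) (nat_lit 2) (.e (nat_lit 90170) (nat_lit 13) (.e (nat_lit 172106) (nat_lit 10) (.e (nat_lit 434231) (nat_lit 23) (.e (nat_lit 532481) (nat_lit 0) (.e (nat_lit 1919) (nat_lit 130) (.e (nat_lit 606243) (nat_lit 11) .nil))))))) (.g (nat_lit 5) .nil .nil))) 
(.lf (nat_lit 137445) (.g (nat_lit 2930) (.e (nat_lit 24604) (nat_lit 2) (.e (nat_lit 90178) (nat_lit 15) (.e (nat_lit 188440) (nat_lit 20) (.e (nat_lit 3307) (nat_lit 202) (.e (nat_lit 573500) (nat_lit 18) (.e (nat_lit 2574) (nat_lit 161) (.e (nat_lit 40997) (nat_lit 11) .nil))))))) (.g (nat_lit 4) .nil .nil)))) (.nd (nat_lit 5) 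
(.lf (nat_lit 137429) (.g (nat_lit 3440) (.e (nat_lit 24604) (nat_lit 2) (.e (nat_lit 90172) (nat_lit 14) (.e (nat_lit 180278) (nat_lit 32) (.e (nat_lit 1235) (nat_lit 91) (.e (nat_lit 90134) (nat_lit 9) (.e (nat_lit 140) (nat_lit 8) (.e (nat_lit 147494) (nat_lit 11) .nil))))))) (.g (nat_lit 5) .nil .nil))) 
(.lf (nat_lit 137461) (.g (nat_lit 1714) (.e (nat_lit 24604) (nat_lit 2) (.e (nat_lit 90185) (nat_lit 17) (.e (nat_lit 237601) (nat_lit 9) (.e (nat_lit 426438) (nat_lit 18) (.e (nat_lit 98338) (nat_lit 19) (.e (nat_lit 213030) (nat_lit 11) .nil)))))) (.g (nat_lit 5) .nil .nil))))) (.nd (nat_lit 4) (.nd (nat_lit 5) 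
(.lf (nat_lit 137421) (.g (nat_lit 3979) (.e (nat_lit 24604) (nat_lit 2) (.e (nat_lit 90170) (nat_lit 13) (.e (nat_lit 172106) (nat_lit 10) (.e (nat_lit 434244) (nat_lit 28) (.e (nat_lit 573451) (nat_lit 9) (.e (nat_lit 1310) (nat_lit 98) (.e (nat_lit 147492) (nat_lit 11) .nil))))))) (.g (nat_lit 5) .nil .nil))) 
(.lf (nat_lit 137453) (.g (nat_lit 1330) (.e (nat_lit 24604) (nat_lit 2) (.e (nat_lit 90185) (nat_lit 17) (.e (nat_lit 237601) (nat_lit 9) (.e (nat_lit 426436) (nat_lit 18) (.e (nat_lit 98319) (nat_lit 17) .nil))))) .nil))) (.nd (nat_lit 5) 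
(.lf (nat_lit 137437) (.g (nat_lit 1363) (.e (nat_lit 24604) (nat_lit 2) (.e (nat_lit 90176) (nat_lit 15) (.e (nat_lit 188450) (nat_lit 23) (.e (nat_lit 212736) (nat_lit 17) .nil)))) .nil)) 
(.lf (nat_lit 137469) (.g (nat_lit 1960) (.e (nat_lit 24604) (nat_lit 2) (.e (nat_lit 90185) (nat_lit 17) (.e (nat_lit 237605) (nat_lit 9) (.e (nat_lit 426428) (nat_lit 17) (.e (nat_lit 90165) (nat_lit 12) (.e (nat_lit 164050) (nat_lit 55) (.e (nat_lit 778464) (nat_lit 11) .nil))))))) (.g (nat_lit 4) .nil .nil))))))) (.nd (nat_lit 2) (.nd (nat_lit 3) (.nd (nat_lit 4) (.nd (nat_lit 5) 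
(.lf (nat_lit 137411) (.g (nat_lit 4782) (.e (nat_lit 24604) (nat_lit 2) (.e (nat_lit 90170) (nat_lit 13) (.e (nat_lit 172106) (nat_lit 10) (.e (nat_lit 434231) (nat_lit 23) (.e (nat_lit 532481) (nat_lit 0) (.e (nat_lit 1916) (nat_lit 130) (.e (nat_lit 606243) (nat_lit 11) .nil))))))) (.g (nat_lit 5) .nil .nil))) 
(.lf (nat_lit 137443) (.g (nat_lit 1314) (.e (nat_lit 24604) (nat_lit 2) (.e (nat_lit 90178) (nat_lit 15) (.e (nat_lit 188440) (nat_lit 20) (.e (nat_lit 3307) (nat_lit 202) .nil)))) .nil))) (.nd (nat_lit 5) 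
(.lf (nat_lit 137427) (.g (nat_lit 3291) (.e (nat_lit 24604) (nat_lit 2) (.e (nat_lit 90170) (nat_lit 13) (.e (nat_lit 172106) (nat_lit 10) (.e (nat_lit 434244) (nat_lit 28) (.e (nat_lit 573458) (nat_lit 9) (.e (nat_lit 1310) (nat_lit 98) (.e (nat_lit 147492) (nat_lit 11) .nil))))))) (.g (nat_lit 5) .nil .nil))) 
(.lf (nat_lit 137459) (.g (nat_lit 2892) (.e (nat_lit 24604) (nat_lit 2) (.e (nat_lit 90185) (nat_lit 17) (.e (nat_lit 237601) (nat_lit 9) (.e (nat_lit 426436) (nat_lit 18) (.e (nat_lit 98339) (nat_lit 19) (.e (nat_lit 213030) (nat_lit 11) .nil)))))) (.g (nat_lit 0) .nil .nil))))) (.nd (nat_lit 4) (.nd (nat_lit 5) 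
(.lf (nat_lit 137419) (.g (nat_lit 3500) (.e (nat_lit 24604) (nat_lit 2) (.e (nat_lit 90170) (nat_lit 13) (.e (nat_lit 172106) (nat_lit 10) (.e (nat_lit 434244) (nat_lit 28) (.e (nat_lit 573451) (nat_lit 9) (.e (nat_lit 1002) (nat_lit 81) (.e (nat_lit 2292) (nat_lit 151) (.e (nat_lit 778459) (nat_lit 11) .nil)))))))) (.g (nat_lit 5) .nil .nil))) 
(.lf (nat_lit 137451) (.g (nat_lit 431) (.e (nat_lit 24604) (nat_lit 2) (.e (nat_lit 90185) (nat_lit 17) (.e (nat_lit 237601) (nat_lit 9) .nil))) .nil))) (.nd (nat_lit 5) 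
(.lf (nat_lit 137435) (.g (nat_lit 1424) (.e (nat_lit 24604) (nat_lit 2) (.e (nat_lit 90176) (nat_lit 15) (.e (nat_lit 188450) (nat_lit 23) (.e (nat_lit 204817) (nat_lit 17) (.e (nat_lit 1005) (nat_lit 81) .nil))))) .nil)) 
(.lf (nat_lit 137467) (.g (nat_lit 2025) (.e (nat_lit 24604) (nat_lit 2) (.e (nat_lit 90185) (nat_lit 17) (.e (nat_lit 237605) (nat_lit 9) (.e (nat_lit 426428) (nat_lit 17) (.e (nat_lit 90165) (nat_lit 12) (.e (nat_lit 164049) (nat_lit 55) (.e (nat_lit 778464) (nat_lit 11) .nil))))))) (.g (nat_lit 4) .nil .nil)))))) (.nd (nat_lit 3) (.nd (nat_lit 4) (.nd (nat_lit 5) 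
(.lf (nat_lit 137415) (.g (nat_lit 3853) (.e (nat_lit 24604) (nat_lit 2) (.e (nat_lit 90170) (nat_lit 13) (.e (nat_lit 172106) (nat_lit 10) (.e (nat_lit 434231) (nat_lit 23) (.e (nat_lit 532490) (nat_lit 0) (.e (nat_lit 1918) (nat_lit 130) (.e (nat_lit 606243) (nat_lit 11) .nil))))))) (.g (nat_lit 5) .nil .nil))) 
(.lf (nat_lit 137447) (.g (nat_lit 3082) (.e (nat_lit 24604) (nat_lit 2) (.e (nat_lit 90178) (nat_lit 15) (.e (nat_lit 188440) (nat_lit 20) (.e (nat_lit 3307) (nat_lit 202) (.e (nat_lit 573504) (nat_lit 18) (.e (nat_lit 2574) (nat_lit 161) (.e (nat_lit 40997) (nat_lit 11) .nil))))))) (.g (nat_lit 4) .nil .nil)))) (.nd (nat_lit 5) 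
(.lf (nat_lit 137431) (.g (nat_lit 897) (.e (nat_lit 24604) (nat_lit 2) (.e (nat_lit 90174) (nat_lit 14) (.e (nat_lit 180288) (nat_lit 45) .nil))) .nil)) 
(.lf (nat_lit 137463) (.g (nat_lit 368) (.e (nat_lit 24604) (nat_lit 2) (.e (nat_lit 90185) (nat_lit 17) (.e (nat_lit 237605) (nat_lit 9) .nil))) .nil)))) (.nd (nat_lit 4) (.nd (nat_lit 5) 
(.lf (nat_lit 137423) (.g (nat_lit 2975) (.e (nat_lit 24604) (nat_lit 2) (.e (nat_lit 90170) (nat_lit 13) (.e (nat_lit 172106) (nat_lit 10) (.e (nat_lit 434244) (nat_lit 28) (.e (nat_lit 573453) (nat_lit 9) (.e (nat_lit 1310) (nat_lit 98) (.e (nat_lit 147494) (nat_lit 11) .nil))))))) (.g (nat_lit 4) .nil .nil))) 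
(.lf (nat_lit 137455) (.g (nat_lit 1380) (.e (nat_lit 24604) (nat_lit 2) (.e (nat_lit 90185) (nat_lit 17) (.e (nat_lit 237601) (nat_lit 9) (.e (nat_lit 426436) (nat_lit 18) (.e (nat_lit 98323) (nat_lit 17) .nil))))) .nil))) (.nd (nat_lit 5) 
(.lf (nat_lit 137439) (.g (nat_lit 362) (.e (nat_lit 24604) (nat_lit 2) (.e (nat_lit 90178) (nat_lit 15) (.e (nat_lit 196352) (nat_lit 0) .nil))) .nil)) 
(.lf (nat_lit 137471) (.g (nat_lit 786) (.e (nat_lit 24604) (nat_lit 2) (.e (nat_lit 90185) (nat_lit 17) (.e (nat_lit 237605) (nat_lit 9) (.e (nat_lit 426436) (nat_lit 18) .nil)))) .nil))))))))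

noncomputable def tv1826 : DT := (.nd (nat_lit 0) (.nd (nat_lit 1) (.nd (nat_lit 2) (.nd (nat_lit 3) (.nd (nat_lit 4) (.nd (nat_lit 5) (.nd (nat_lit 6) 
(.lf (nat_lit 137472) (.g (nat_lit 1483) (.e (nat_lit 24604) (nat_lit 2) (.e (nat_lit 90185) (nat_lit 17) (.e (nat_lit 237605) (nat_lit 9) (.e (nat_lit 426436) (nat_lit 18) (.e (nat_lit 98319) (nat_lit 17) .nil))))) .nil)) 
(.lf (nat_lit 137536) (.g (nat_lit 727) (.e (nat_lit 24605) (nat_lit 2) (.e (nat_lit 90174) (nat_lit 14) (.e (nat_lit 188160) (nat_lit 40) .nil))) .nil))) (.nd (nat_lit 6) 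
(.lf (nat_lit 137504) (.g (nat_lit 2168) (.e (nat_lit 24605) (nat_lit 2) (.e (nat_lit 90158) (nat_lit 11) (.e (nat_lit 24609) (nat_lit 3) (.e (nat_lit 98313) (nat_lit 9) (.e (nat_lit 336012) (nat_lit 2) (.e (nat_lit 90158) (nat_lit 11) .nil)))))) (.g (nat_lit 5) .nil .nil))) 
(.lf (nat_lit 137568) (.g (nat_lit 1904) (.e (nat_lit 24607) (nat_lit 3) (.e (nat_lit 98313) (nat_lit 9) (.e (nat_lit 336011) (nat_lit 2) (.e (nat_lit 90158) (nat_lit 11) (.e (nat_lit 24604) (nat_lit 2) .nil))))) .nil)))) (.nd (nat_lit 5) (.nd (nat_lit 6) 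
(.lf (nat_lit 137488) (.g (nat_lit 915) (.e (nat_lit 24605) (nat_lit 2) (.e (nat_lit 90157) (nat_lit 11) (.e (nat_lit 24607) (nat_lit 3) (.e (nat_lit 98317) (nat_lit 9) .nil)))) .nil)) 
(.lf (nat_lit 137552) (.g (nat_lit 925) (.e (nat_lit 24606) (nat_lit 3) (.e (nat_lit 98313) (nat_lit 9) (.e (nat_lit 336027) (nat_lit 3) (.e (nat_lit 98317) (nat_lit 9) .nil)))) .nil))) (.nd (nat_lit 6) 
(.lf (nat_lit 137520) (.g (nat_lit 2250) (.e (nat_lit 24605) (nat_lit 2) (.e (nat_lit 90170) (nat_lit 13) (.e (nat_lit 172113) (nat_lit 10) (.e (nat_lit 434245) (nat_lit 28) (.e (nat_lit 573451) (nat_lit 9) (.e (nat_lit 1310) (nat_lit 98) (.e (nat_lit 147494) (nat_lit 11) .nil))))))) (.g (nat_lit 4) .nil .nil))) 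
(.lf (nat_lit 137584) (.g (nat_lit 547) (.e (nat_lit 24607) (nat_lit 3) (.e (nat_lit 98313) (nat_lit 9) (.e (nat_lit 336025) (nat_lit 3) .nil))) .nil))))) (.nd (nat_lit 4) (.nd (nat_lit 5) (.nd (nat_lit 6) 
(.lf (nat_lit 137480) (.g (nat_lit 1957) (.e (nat_lit 24604) (nat_lit 2) (.e (nat_lit 90185) (nat_lit 17) (.e (nat_lit 237605) (nat_lit 9) (.e (nat_lit 426438) (nat_lit 18) (.e (nat_lit 98338) (nat_lit 19) (.e (nat_lit 213030) (nat_lit 11) .nil)))))) (.g (nat_lit 5) .nil .nil))) 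
(.lf (nat_lit 137544) (.g (nat_lit 1488) (.e (nat_lit 24605) (nat_lit 2) (.e (nat_lit 90185) (nat_lit 17) (.e (nat_lit 237605) (nat_lit 9) (.e (nat_lit 426438) (nat_lit 18) (.e (nat_lit 98338) (nat_lit 19) (.e (nat_lit 213030) (nat_lit 11) .nil)))))) (.g (nat_lit 4) .nil .nil)))) (.nd (nat_lit 6) 
(.lf (nat_lit 137512) (.g (nat_lit 2125) (.e (nat_lit 24605) (nat_lit 2) (.e (nat_lit 90170) (nat_lit 13) (.e (nat_lit 172106) (nat_lit 10) (.e (nat_lit 442112) (nat_lit 26) .nil)))) .nil)) 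
(.lf (nat_lit 137576) (.g (nat_lit 3380) (.e (nat_lit 24607) (nat_lit 3) (.e (nat_lit 98313) (nat_lit 9) (.e (nat_lit 336012) (nat_lit 2) (.e (nat_lit 90160) (nat_lit 11) (.e (nat_lit 24604) (nat_lit 2) (.e (nat_lit 90160) (nat_lit 11) .nil)))))) (.g (nat_lit 5) .nil .nil))))) (.nd (nat_lit 5) (.nd (nat_lit 6) 
(.lf (nat_lit 137496) (.g (nat_lit 1036) (.e (nat_lit 24605) (nat_lit 2) (.e (nat_lit 90158) (nat_lit 11) (.e (nat_lit 24607) (nat_lit 3) (.e (nat_lit 106240) (nat_lit 9) .nil)))) .nil)) 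
(.lf (nat_lit 137560) (.g (nat_lit 2371) (.e (nat_lit 24606) (nat_lit 3) (.e (nat_lit 98317) (nat_lit 9) (.e (nat_lit 336021) (nat_lit 3) (.e (nat_lit 98317) (nat_lit 9) (.e (nat_lit 336012) (nat_lit 2) (.e (nat_lit 90160) (nat_lit 11) .nil)))))) (.g (nat_lit 4) .nil .nil)))) (.nd (nat_lit 6) 
(.lf (nat_lit 137528) (.g (nat_lit 2637) (.e (nat_lit 24605) (nat_lit 2) (.e (nat_lit 90170) (nat_lit 13) (.e (nat_lit 172120) (nat_lit 12) (.e (nat_lit 475177) (nat_lit 24) (.e (nat_lit 516125) (nat_lit 2) .nil))))) .nil)) 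
(.lf (nat_lit 137592) (.g (nat_lit 1766) (.e (nat_lit 24607) (nat_lit 3) (.e (nat_lit 98313) (nat_lit 9) (.e (nat_lit 336027) (nat_lit 3) (.e (nat_lit 98317) (nat_lit 9) (.e (nat_lit 336001) (nat_lit 2) .nil))))) .nil)))))) (.nd (nat_lit 3) (.nd (nat_lit 4) (.nd (nat_lit 5) (.nd (nat_lit 6) 
(.lf (nat_lit 137476) (.g (nat_lit 2053) (.e (nat_lit 24604) (nat_lit 2) (.e (nat_lit 90185) (nat_lit 17) (.e (nat_lit 237605) (nat_lit 9) (.e (nat_lit 426436) (nat_lit 18) (.e (nat_lit 98338) (nat_lit 19) (.e (nat_lit 220928) (nat_lit 11) .nil)))))) (.g (nat_lit 4) .nil .nil))) 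
(.lf (nat_lit 137540) (.g (nat_lit 1283) (.e (nat_lit 24605) (nat_lit 2) (.e (nat_lit 90185) (nat_lit 17) (.e (nat_lit 237601) (nat_lit 9) (.e (nat_lit 426438) (nat_lit 18) (.e (nat_lit 98338) (nat_lit 19) (.e (nat_lit 213030) (nat_lit 11) .nil)))))) (.g (nat_lit 4) .nil .nil)))) (.nd (nat_lit 6) 
(.lf (nat_lit 137508) (.g (nat_lit 692) (.e (nat_lit 24605) (nat_lit 2) (.e (nat_lit 90170) (nat_lit 13) (.e (nat_lit 172085) (nat_lit 9) .nil))) .nil)) 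
(.lf (nat_lit 137572) (.g (nat_lit 2209) (.e (nat_lit 24607) (nat_lit 3) (.e (nat_lit 98313) (nat_lit 9) (.e (nat_lit 336012) (nat_lit 2) (.e (nat_lit 90128) (nat_lit 9) (.e (nat_lit 307) (nat_lit 22) (.e (nat_lit 344107) (nat_lit 19) (.e (nat_lit 499902) (nat_lit 7) .nil))))))) (.g (nat_lit 4) .nil .nil))))) (.nd (nat_lit 5) (.nd (nat_lit 6) 
(.lf (nat_lit 137492) (.g (nat_lit 2899) (.e (nat_lit 24605) (nat_lit 2) (.e (nat_lit 90158) (nat_lit 11) (.e (nat_lit 24607) (nat_lit 3) (.e (nat_lit 98317) (nat_lit 9) (.e (nat_lit 336002) (nat_lit 2) (.e (nat_lit 90158) (nat_lit 11) .nil)))))) (.g (nat_lit 6) .nil .nil))) 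
(.lf (nat_lit 137556) (.g (nat_lit 2259) (.e (nat_lit 24606) (nat_lit 3) (.e (nat_lit 98317) (nat_lit 9) (.e (nat_lit 336004) (nat_lit 2) (.e (nat_lit 90158) (nat_lit 11) (.e (nat_lit 24604) (nat_lit 2) .nil))))) .nil))) (.nd (nat_lit 6) 
(.lf (nat_lit 137524) (.g (nat_lit 1532) (.e (nat_lit 24605) (nat_lit 2) (.e (nat_lit 90170) (nat_lit 13) (.e (nat_lit 172118) (nat_lit 12) (.e (nat_lit 475178) (nat_lit 24) (.e (nat_lit 516126) (nat_lit 2) .nil))))) .nil)) 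
(.lf (nat_lit 137588) (.g (nat_lit 2904) (.e (nat_lit 24607) (nat_lit 3) (.e (nat_lit 98313) (nat_lit 9) (.e (nat_lit 336027) (nat_lit 3) (.e (nat_lit 98313) (nat_lit 9) (.e (nat_lit 336012) (nat_lit 2) (.e (nat_lit 90159) (nat_lit 11) .nil)))))) (.g (nat_lit 6) .nil .nil)))))) (.nd (nat_lit 4) (.nd (nat_lit 5) (.nd (nat_lit 6) 
(.lf (nat_lit 137484) (.g (nat_lit 322) (.e (nat_lit 24604) (nat_lit 2) (.e (nat_lit 90185) (nat_lit 17) (.e (nat_lit 237619) (nat_lit 12) .nil))) .nil)) 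
(.lf (nat_lit 137548) (.g (nat_lit 1130) (.e (nat_lit 24606) (nat_lit 3) (.e (nat_lit 98313) (nat_lit 9) (.e (nat_lit 336012) (nat_lit 2) (.e (nat_lit 90157) (nat_lit 11) .nil)))) .nil))) (.nd (nat_lit 6) 
(.lf (nat_lit 137516) (.g (nat_lit 2234) (.e (nat_lit 24605) (nat_lit 2) (.e (nat_lit 90170) (nat_lit 13) (.e (nat_lit 172106) (nat_lit 10) (.e (nat_lit 434244) (nat_lit 28) (.e (nat_lit 573451) (nat_lit 9) (.e (nat_lit 1002) (nat_lit 81) (.e (nat_lit 2336) (nat_lit 151) (.e (nat_lit 778469) (nat_lit 11) .nil)))))))) (.g (nat_lit 4) .nil .nil))) 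
(.lf (nat_lit 137580) (.g (nat_lit 2943) (.e (nat_lit 24607) (nat_lit 3) (.e (nat_lit 98313) (nat_lit 9) (.e (nat_lit 336021) (nat_lit 3) (.e (nat_lit 98313) (nat_lit 9) (.e (nat_lit 336012) (nat_lit 2) (.e (nat_lit 90159) (nat_lit 11) .nil)))))) (.g (nat_lit 6) .nil .nil))))) (.nd (nat_lit 5) (.nd (nat_lit 6) 
(.lf (nat_lit 137500) (.g (nat_lit 2803) (.e (nat_lit 24605) (nat_lit 2) (.e (nat_lit 90158) (nat_lit 11) (.e (nat_lit 24608) (nat_lit 3) (.e (nat_lit 98317) (nat_lit 9) (.e (nat_lit 336002) (nat_lit 2) (.e (nat_lit 90158) (nat_lit 11) .nil)))))) (.g (nat_lit 6) .nil .nil))) 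
(.lf (nat_lit 137564) (.g (nat_lit 2746) (.e (nat_lit 24606) (nat_lit 3) (.e (nat_lit 98373) (nat_lit 29) (.e (nat_lit 450587) (nat_lit 10) (.e (nat_lit 573456) (nat_lit 9) .nil)))) .nil))) (.nd (nat_lit 6) 
(.lf (nat_lit 137532) (.g (nat_lit 2234) (.e (nat_lit 24605) (nat_lit 2) (.e (nat_lit 90170) (nat_lit 13) (.e (nat_lit 172120) (nat_lit 12) (.e (nat_lit 475178) (nat_lit 24) (.e (nat_lit 516127) (nat_lit 2) .nil))))) .nil)) 
(.lf (nat_lit 137596) (.g (nat_lit 638) (.e (nat_lit 24607) (nat_lit 3) (.e (nat_lit 98317) (nat_lit 9) (.e (nat_lit 335892) (nat_lit 0) .nil))) .nil))))))) (.nd (nat_lit 2) (.nd (nat_lit 3) (.nd (nat_lit 4) (.nd (nat_lit 5) (.nd (nat_lit 6) 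
(.lf (nat_lit 137474) (.g (nat_lit 1723) (.e (nat_lit 24604) (nat_lit 2) (.e (nat_lit 90185) (nat_lit 17) (.e (nat_lit 237605) (nat_lit 9) (.e (nat_lit 426436) (nat_lit 18) (.e (nat_lit 98325) (nat_lit 17) .nil))))) .nil)) 
(.lf (nat_lit 137538) (.g (nat_lit 423) (.e (nat_lit 24605) (nat_lit 2) (.e (nat_lit 90178) (nat_lit 15) (.e (nat_lit 188418) (nat_lit 0) .nil))) .nil))) (.nd (nat_lit 6) 
(.lf (nat_lit 137506) (.g (nat_lit 2373) (.e (nat_lit 24605) (nat_lit 2) (.e (nat_lit 90158) (nat_lit 11) (.e (nat_lit 24609) (nat_lit 3) (.e (nat_lit 98317) (nat_lit 9) (.e (nat_lit 336010) (nat_lit 2) (.e (nat_lit 90158) (nat_lit 11) .nil)))))) (.g (nat_lit 6) .nil .nil))) 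
(.lf (nat_lit 137570) (.g (nat_lit 347) (.e (nat_lit 24607) (nat_lit 3) (.e (nat_lit 98313) (nat_lit 9) (.e (nat_lit 336012) (nat_lit 2) .nil))) .nil)))) (.nd (nat_lit 5) (.nd (nat_lit 6) 
(.lf (nat_lit 137490) (.g (nat_lit 2931) (.e (nat_lit 24605) (nat_lit 2) (.e (nat_lit 90158) (nat_lit 11) (.e (nat_lit 24605) (nat_lit 2) (.e (nat_lit 90158) (nat_lit 11) (.e (nat_lit 24604) (nat_lit 2) (.e (nat_lit 90158) (nat_lit 11) .nil)))))) (.g (nat_lit 6) .nil .nil))) 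
(.lf (nat_lit 137554) (.g (nat_lit 1790) (.e (nat_lit 24606) (nat_lit 3) (.e (nat_lit 98317) (nat_lit 9) (.e (nat_lit 336002) (nat_lit 2) (.e (nat_lit 90158) (nat_lit 11) (.e (nat_lit 24604) (nat_lit 2) .nil))))) .nil))) (.nd (nat_lit 6) 
(.lf (nat_lit 137522) (.g (nat_lit 2988) (.e (nat_lit 24605) (nat_lit 2) (.e (nat_lit 90170) (nat_lit 13) (.e (nat_lit 172113) (nat_lit 10) (.e (nat_lit 434248) (nat_lit 28) (.e (nat_lit 573449) (nat_lit 9) (.e (nat_lit 1312) (nat_lit 98) (.e (nat_lit 147494) (nat_lit 11) .nil))))))) (.g (nat_lit 5) .nil .nil))) 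
(.lf (nat_lit 137586) (.g (nat_lit 3314) (.e (nat_lit 24607) (nat_lit 3) (.e (nat_lit 98313) (nat_lit 9) (.e (nat_lit 336027) (nat_lit 3) (.e (nat_lit 98313) (nat_lit 9) (.e (nat_lit 336011) (nat_lit 2) (.e (nat_lit 90157) (nat_lit 11) .nil)))))) (.g (nat_lit 6) .nil .nil)))))) (.nd (nat_lit 4) (.nd (nat_lit 5) (.nd (nat_lit 6) 
(.lf (nat_lit 137482) (.g (nat_lit 1948) (.e (nat_lit 24604) (nat_lit 2) (.e (nat_lit 90185) (nat_lit 17) (.e (nat_lit 237616) (nat_lit 12) (.e (nat_lit 475177) (nat_lit 24) (.e (nat_lit 516124) (nat_lit 2) (.e (nat_lit 220928) (nat_lit 11) .nil)))))) (.g (nat_lit 4) .nil .nil))) 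
(.lf (nat_lit 137546) (.g (nat_lit 872) (.e (nat_lit 24605) (nat_lit 2) (.e (nat_lit 90185) (nat_lit 17) (.e (nat_lit 237615) (nat_lit 12) .nil))) .nil))) (.nd (nat_lit 6) 
(.lf (nat_lit 137514) (.g (nat_lit 3437) (.e (nat_lit 24605) (nat_lit 2) (.e (nat_lit 90170) (nat_lit 13) (.e (nat_lit 172106) (nat_lit 10) (.e (nat_lit 434244) (nat_lit 28) (.e (nat_lit 573448) (nat_lit 9) (.e (nat_lit 1315) (nat_lit 98) (.e (nat_lit 147495) (nat_lit 11) .nil))))))) (.g (nat_lit 4) .nil .nil))) 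
(.lf (nat_lit 137578) (.g (nat_lit 3141) (.e (nat_lit 24607) (nat_lit 3) (.e (nat_lit 98313) (nat_lit 9) (.e (nat_lit 336021) (nat_lit 3) (.e (nat_lit 98313) (nat_lit 9) (.e (nat_lit 336011) (nat_lit 2) (.e (nat_lit 90157) (nat_lit 11) .nil)))))) (.g (nat_lit 5) .nil .nil))))) (.nd (nat_lit 5) (.nd (nat_lit 6) 
(.lf (nat_lit 137498) (.g (nat_lit 1948) (.e (nat_lit 24605) (nat_lit 2) (.e (nat_lit 90158) (nat_lit 11) (.e (nat_lit 24608) (nat_lit 3) (.e (nat_lit 98313) (nat_lit 9) (.e (nat_lit 336002) (nat_lit 2) (.e (nat_lit 90158) (nat_lit 11) .nil)))))) (.g (nat_lit 5) .nil .nil))) 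
(.lf (nat_lit 137562) (.g (nat_lit 1477) (.e (nat_lit 24606) (nat_lit 3) (.e (nat_lit 98342) (nat_lit 20) (.e (nat_lit 221212) (nat_lit 22) (.e (nat_lit 196659) (nat_lit 12) .nil)))) .nil))) (.nd (nat_lit 6) 
(.lf (nat_lit 137530) (.g (nat_lit 2371) (.e (nat_lit 24605) (nat_lit 2) (.e (nat_lit 90170) (nat_lit 13) (.e (nat_lit 172120) (nat_lit 12) (.e (nat_lit 475178) (nat_lit 24) (.e (nat_lit 516124) (nat_lit 2) (.e (nat_lit 213030) (nat_lit 11) .nil)))))) (.g (nat_lit 4) .nil .nil))) 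
(.lf (nat_lit 137594) (.g (nat_lit 2716) (.e (nat_lit 24607) (nat_lit 3) (.e (nat_lit 98315) (nat_lit 9) (.e (nat_lit 336017) (nat_lit 3) (.e (nat_lit 98313) (nat_lit 9) (.e (nat_lit 336012) (nat_lit 2) (.e (nat_lit 90157) (nat_lit 11) .nil)))))) (.g (nat_lit 0) .nil .nil))))))) (.nd (nat_lit 3) (.nd (nat_lit 4) (.nd (nat_lit 5) (.nd (nat_lit 6) 
(.lf (nat_lit 137478) (.g (nat_lit 1767) (.e (nat_lit 24604) (nat_lit 2) (.e (nat_lit 90185) (nat_lit 17) (.e (nat_lit 237605) (nat_lit 9) (.e (nat_lit 426436) (nat_lit 18) (.e (nat_lit 98348) (nat_lit 23) (.e (nat_lit 262165) (nat_lit 11) .nil)))))) (.g (nat_lit 4) .nil .nil))) 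
(.lf (nat_lit 137542) (.g (nat_lit 1105) (.e (nat_lit 24605) (nat_lit 2) (.e (nat_lit 90185) (nat_lit 17) (.e (nat_lit 237605) (nat_lit 9) (.e (nat_lit 426434) (nat_lit 18) (.e (nat_lit 98338) (nat_lit 19) (.e (nat_lit 213030) (nat_lit 11) .nil)))))) (.g (nat_lit 4) .nil .nil)))) (.nd (nat_lit 6) 
(.lf (nat_lit 137510) (.g (nat_lit 840) (.e (nat_lit 24605) (nat_lit 2) (.e (nat_lit 90170) (nat_lit 13) (.e (nat_lit 172087) (nat_lit 9) .nil))) .nil)) 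
(.lf (nat_lit 137574) (.g (nat_lit 3070) (.e (nat_lit 24607) (nat_lit 3) (.e (nat_lit 98313) (nat_lit 9) (.e (nat_lit 336012) (nat_lit 2) (.e (nat_lit 90160) (nat_lit 11) (.e (nat_lit 24601) (nat_lit 2) (.e (nat_lit 90158) (nat_lit 11) .nil)))))) (.g (nat_lit 4) .nil .nil))))) (.nd (nat_lit 5) (.nd (nat_lit 6) 
(.lf (nat_lit 137494) (.g (nat_lit 3422) (.e (nat_lit 24605) (nat_lit 2) (.e (nat_lit 90158) (nat_lit 11) (.e (nat_lit 24607) (nat_lit 3) (.e (nat_lit 98317) (nat_lit 9) (.e (nat_lit 336004) (nat_lit 2) (.e (nat_lit 90158) (nat_lit 11) .nil)))))) (.g (nat_lit 0) .nil .nil))) 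
(.lf (nat_lit 137558) (.g (nat_lit 2247) (.e (nat_lit 24606) (nat_lit 3) (.e (nat_lit 98317) (nat_lit 9) (.e (nat_lit 336021) (nat_lit 3) (.e (nat_lit 98317) (nat_lit 9) (.e (nat_lit 336004) (nat_lit 2) .nil))))) .nil))) (.nd (nat_lit 6) 
(.lf (nat_lit 137526) (.g (nat_lit 1542) (.e (nat_lit 24605) (nat_lit 2) (.e (nat_lit 90170) (nat_lit 13) (.e (nat_lit 172118) (nat_lit 12) (.e (nat_lit 475178) (nat_lit 24) (.e (nat_lit 516127) (nat_lit 2) (.e (nat_lit 213032) (nat_lit 11) .nil)))))) (.g (nat_lit 4) .nil .nil))) 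
(.lf (nat_lit 137590) (.g (nat_lit 1099) (.e (nat_lit 24607) (nat_lit 3) (.e (nat_lit 98313) (nat_lit 9) (.e (nat_lit 336027) (nat_lit 3) (.e (nat_lit 98316) (nat_lit 9) .nil)))) .nil))))) (.nd (nat_lit 4) (.nd (nat_lit 5) (.nd (nat_lit 6) 
(.lf (nat_lit 137486) (.g (nat_lit 1797) (.e (nat_lit 24604) (nat_lit 2) (.e (nat_lit 90185) (nat_lit 17) (.e (nat_lit 237619) (nat_lit 12) (.e (nat_lit 475179) (nat_lit 24) (.e (nat_lit 516106) (nat_lit 0) .nil))))) .nil)) 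
(.lf (nat_lit 137550) (.g (nat_lit 1871) (.e (nat_lit 24606) (nat_lit 3) (.e (nat_lit 98313) (nat_lit 9) (.e (nat_lit 336012) (nat_lit 2) (.e (nat_lit 90158) (nat_lit 11) (.e (nat_lit 24604) (nat_lit 2) (.e (nat_lit 90158) (nat_lit 11) .nil)))))) (.g (nat_lit 4) .nil .nil)))) (.nd (nat_lit 6) 
(.lf (nat_lit 137518) (.g (nat_lit 2662) (.e (nat_lit 24605) (nat_lit 2) (.e (nat_lit 90170) (nat_lit 13) (.e (nat_lit 172113) (nat_lit 10) (.e (nat_lit 434245) (nat_lit 28) (.e (nat_lit 573449) (nat_lit 9) (.e (nat_lit 1312) (nat_lit 98) (.e (nat_lit 147493) (nat_lit 11) .nil))))))) (.g (nat_lit 5) .nil .nil))) 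
(.lf (nat_lit 137582) (.g (nat_lit 2017) (.e (nat_lit 24607) (nat_lit 3) (.e (nat_lit 98313) (nat_lit 9) (.e (nat_lit 336021) (nat_lit 3) (.e (nat_lit 98317) (nat_lit 9) (.e (nat_lit 336009) (nat_lit 2) (.e (nat_lit 90157) (nat_lit 11) .nil)))))) (.g (nat_lit 4) .nil .nil))))) (.nd (nat_lit 5) (.nd (nat_lit 6) 
(.lf (nat_lit 137502) (.g (nat_lit 3282) (.e (nat_lit 24605) (nat_lit 2) (.e (nat_lit 90158) (nat_lit 11) (.e (nat_lit 24608) (nat_lit 3) (.e (nat_lit 98317) (nat_lit 9) (.e (nat_lit 336004) (nat_lit 2) (.e (nat_lit 90158) (nat_lit 11) .nil)))))) (.g (nat_lit 0) .nil .nil))) 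
(.lf (nat_lit 137566) (.g (nat_lit 1922) (.e (nat_lit 24607) (nat_lit 3) (.e (nat_lit 98313) (nat_lit 9) (.e (nat_lit 336011) (nat_lit 2) (.e (nat_lit 90133) (nat_lit 9) (.e (nat_lit 253) (nat_lit 21) .nil))))) .nil))) (.nd (nat_lit 6) 
(.lf (nat_lit 137534) (.g (nat_lit 696) (.e (nat_lit 24605) (nat_lit 2) (.e (nat_lit 90172) (nat_lit 14) (.e (nat_lit 188160) (nat_lit 40) .nil))) .nil)) 
(.lf (nat_lit 137598) (.g (nat_lit 638) (.e (nat_lit 24607) (nat_lit 3) (.e (nat_lit 98317) (nat_lit 9) (.e (nat_lit 335917) (nat_lit 0) .nil))) .nil)))))))) (.nd (nat_lit 1) (.nd (nat_lit 2) (.nd (nat_lit 3) (.nd (nat_lit 4) (.nd (nat_lit 5) (.nd (nat_lit 6) 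
(.lf (nat_lit 137473) (.g (nat_lit 1492) (.e (nat_lit 24604) (nat_lit 2) (.e (nat_lit 90185) (nat_lit 17) (.e (nat_lit 237605) (nat_lit 9) (.e (nat_lit 426436) (nat_lit 18) (.e (nat_lit 98321) (nat_lit 17) .nil))))) .nil)) 
(.lf (nat_lit 137537) (.g (nat_lit 804) (.e (nat_lit 24605) (nat_lit 2) (.e (nat_lit 90176) (nat_lit 15) (.e (nat_lit 188420) (nat_lit 0) (.e (nat_lit 1784) (nat_lit 119) .nil)))) .nil))) (.nd (nat_lit 6) 
(.lf (nat_lit 137505) (.g (nat_lit 2882) (.e (nat_lit 24605) (nat_lit 2) (.e (nat_lit 90158) (nat_lit 11) (.e (nat_lit 24609) (nat_lit 3) (.e (nat_lit 98317) (nat_lit 9) (.e (nat_lit 336004) (nat_lit 2) (.e (nat_lit 90158) (nat_lit 11) .nil)))))) (.g (nat_lit 6) .nil .nil))) 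
(.lf (nat_lit 137569) (.g (nat_lit 2458) (.e (nat_lit 24607) (nat_lit 3) (.e (nat_lit 98313) (nat_lit 9) (.e (nat_lit 336011) (nat_lit 2) (.e (nat_lit 90160) (nat_lit 11) (.e (nat_lit 24602) (nat_lit 2) .nil))))) .nil)))) (.nd (nat_lit 5) (.nd (nat_lit 6) 
(.lf (nat_lit 137489) (.g (nat_lit 1463) (.e (nat_lit 24605) (nat_lit 2) (.e (nat_lit 90158) (nat_lit 11) (.e (nat_lit 24604) (nat_lit 2) (.e (nat_lit 90133) (nat_lit 9) .nil)))) .nil)) 
(.lf (nat_lit 137553) (.g (nat_lit 809) (.e (nat_lit 24606) (nat_lit 3) (.e (nat_lit 98317) (nat_lit 9) (.e (nat_lit 336002) (nat_lit 2) .nil))) .nil))) (.nd (nat_lit 6) 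
(.lf (nat_lit 137521) (.g (nat_lit 2611) (.e (nat_lit 24605) (nat_lit 2) (.e (nat_lit 90170) (nat_lit 13) (.e (nat_lit 172113) (nat_lit 10) (.e (nat_lit 434248) (nat_lit 28) (.e (nat_lit 573449) (nat_lit 9) (.e (nat_lit 1312) (nat_lit 98) (.e (nat_lit 147493) (nat_lit 11) .nil))))))) (.g (nat_lit 4) .nil .nil))) 
(.lf (nat_lit 137585) (.g (nat_lit 333) (.e (nat_lit 24607) (nat_lit 3) (.e (nat_lit 98313) (nat_lit 9) (.e (nat_lit 336027) (nat_lit 3) .nil))) .nil))))) (.nd (nat_lit 4) (.nd (nat_lit 5) (.nd (nat_lit 6) 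
(.lf (nat_lit 137481) (.g (nat_lit 373) (.e (nat_lit 24604) (nat_lit 2) (.e (nat_lit 90185) (nat_lit 17) (.e (nat_lit 237616) (nat_lit 12) .nil))) .nil)) 
(.lf (nat_lit 137545) (.g (nat_lit 1956) (.e (nat_lit 24605) (nat_lit 2) (.e (nat_lit 90185) (nat_lit 17) (.e (nat_lit 237605) (nat_lit 9) (.e (nat_lit 426438) (nat_lit 18) (.e (nat_lit 98339) (nat_lit 19) (.e (nat_lit 213030) (nat_lit 11) .nil)))))) (.g (nat_lit 6) .nil .nil)))) (.nd (nat_lit 6) 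
(.lf (nat_lit 137513) (.g (nat_lit 1591) (.e (nat_lit 24605) (nat_lit 2) (.e (nat_lit 90170) (nat_lit 13) (.e (nat_lit 172106) (nat_lit 10) (.e (nat_lit 434244) (nat_lit 28) .nil)))) .nil)) 
(.lf (nat_lit 137577) (.g (nat_lit 2370) (.e (nat_lit 24607) (nat_lit 3) (.e (nat_lit 98313) (nat_lit 9) (.e (nat_lit 336021) (nat_lit 3) (.e (nat_lit 98313) (nat_lit 9) (.e (nat_lit 336002) (nat_lit 2) (.e (nat_lit 90158) (nat_lit 11) .nil)))))) (.g (nat_lit 4) .nil .nil))))) (.nd (nat_lit 5) (.nd (nat_lit 6) 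
(.lf (nat_lit 137497) (.g (nat_lit 3193) (.e (nat_lit 24605) (nat_lit 2) (.e (nat_lit 90158) (nat_lit 11) (.e (nat_lit 24608) (nat_lit 3) (.e (nat_lit 98312) (nat_lit 9) (.e (nat_lit 336004) (nat_lit 2) (.e (nat_lit 90158) (nat_lit 11) .nil)))))) (.g (nat_lit 6) .nil .nil))) 
(.lf (nat_lit 137561) (.g (nat_lit 1722) (.e (nat_lit 24606) (nat_lit 3) (.e (nat_lit 98342) (nat_lit 20) (.e (nat_lit 221210) (nat_lit 22) (.e (nat_lit 196660) (nat_lit 12) .nil)))) .nil))) (.nd (nat_lit 6) 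
(.lf (nat_lit 137529) (.g (nat_lit 1675) (.e (nat_lit 24605) (nat_lit 2) (.e (nat_lit 90170) (nat_lit 13) (.e (nat_lit 172120) (nat_lit 12) (.e (nat_lit 475178) (nat_lit 24) .nil)))) .nil)) 
(.lf (nat_lit 137593) (.g (nat_lit 1800) (.e (nat_lit 24607) (nat_lit 3) (.e (nat_lit 98313) (nat_lit 9) (.e (nat_lit 336027) (nat_lit 3) (.e (nat_lit 98317) (nat_lit 9) (.e (nat_lit 336009) (nat_lit 2) (.e (nat_lit 90157) (nat_lit 11) .nil)))))) (.g (nat_lit 4) .nil .nil))))))) (.nd (nat_lit 3) (.nd (nat_lit 4) (.nd (nat_lit 5) (.nd (nat_lit 6) 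
(.lf (nat_lit 137477) (.g (nat_lit 3080) (.e (nat_lit 24604) (nat_lit 2) (.e (nat_lit 90185) (nat_lit 17) (.e (nat_lit 237605) (nat_lit 9) (.e (nat_lit 426436) (nat_lit 18) (.e (nat_lit 98339) (nat_lit 19) (.e (nat_lit 213030) (nat_lit 11) .nil)))))) (.g (nat_lit 0) .nil .nil))) 
(.lf (nat_lit 137541) (.g (nat_lit 1876) (.e (nat_lit 24605) (nat_lit 2) (.e (nat_lit 90185) (nat_lit 17) (.e (nat_lit 237601) (nat_lit 9) (.e (nat_lit 426438) (nat_lit 18) (.e (nat_lit 98339) (nat_lit 19) (.e (nat_lit 213030) (nat_lit 11) .nil)))))) (.g (nat_lit 6) .nil .nil)))) (.nd (nat_lit 6) 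
(.lf (nat_lit 137509) (.g (nat_lit 1867) (.e (nat_lit 24605) (nat_lit 2) (.e (nat_lit 90170) (nat_lit 13) (.e (nat_lit 172085) (nat_lit 9) (.e (nat_lit 426438) (nat_lit 18) (.e (nat_lit 98339) (nat_lit 19) .nil))))) .nil)) 
(.lf (nat_lit 137573) (.g (nat_lit 2839) (.e (nat_lit 24607) (nat_lit 3) (.e (nat_lit 98313) (nat_lit 9) (.e (nat_lit 336012) (nat_lit 2) (.e (nat_lit 90160) (nat_lit 11) (.e (nat_lit 24601) (nat_lit 2) .nil))))) .nil)))) (.nd (nat_lit 5) (.nd (nat_lit 6) 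
(.lf (nat_lit 137493) (.g (nat_lit 2131) (.e (nat_lit 24605) (nat_lit 2) (.e (nat_lit 90158) (nat_lit 11) (.e (nat_lit 24607) (nat_lit 3) (.e (nat_lit 98317) (nat_lit 9) (.e (nat_lit 336003) (nat_lit 2) .nil))))) .nil)) 
(.lf (nat_lit 137557) (.g (nat_lit 1820) (.e (nat_lit 24606) (nat_lit 3) (.e (nat_lit 98317) (nat_lit 9) (.e (nat_lit 336021) (nat_lit 3) (.e (nat_lit 98313) (nat_lit 9) .nil)))) .nil))) (.nd (nat_lit 6) 
(.lf (nat_lit 137525) (.g (nat_lit 1542) (.e (nat_lit 24605) (nat_lit 2) (.e (nat_lit 90170) (nat_lit 13) (.e (nat_lit 172118) (nat_lit 12) (.e (nat_lit 475178) (nat_lit 24) (.e (nat_lit 516126) (nat_lit 2) (.e (nat_lit 213032) (nat_lit 11) .nil)))))) (.g (nat_lit 4) .nil .nil))) 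
(.lf (nat_lit 137589) (.g (nat_lit 3204) (.e (nat_lit 24607) (nat_lit 3) (.e (nat_lit 98313) (nat_lit 9) (.e (nat_lit 336027) (nat_lit 3) (.e (nat_lit 98313) (nat_lit 9) (.e (nat_lit 336012) (nat_lit 2) (.e (nat_lit 90160) (nat_lit 11) .nil)))))) (.g (nat_lit 6) .nil .nil)))))) (.nd (nat_lit 4) (.nd (nat_lit 5) (.nd (nat_lit 6) 
(.lf (nat_lit 137485) (.g (nat_lit 2071) (.e (nat_lit 24604) (nat_lit 2) (.e (nat_lit 90185) (nat_lit 17) (.e (nat_lit 237619) (nat_lit 12) (.e (nat_lit 475177) (nat_lit 24) (.e (nat_lit 516124) (nat_lit 2) (.e (nat_lit 220928) (nat_lit 11) .nil)))))) (.g (nat_lit 4) .nil .nil))) 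
(.lf (nat_lit 137549) (.g (nat_lit 1745) (.e (nat_lit 24606) (nat_lit 3) (.e (nat_lit 98313) (nat_lit 9) (.e (nat_lit 336012) (nat_lit 2) (.e (nat_lit 90158) (nat_lit 11) (.e (nat_lit 24603) (nat_lit 2) .nil))))) .nil))) (.nd (nat_lit 6) 
(.lf (nat_lit 137517) (.g (nat_lit 1393) (.e (nat_lit 24605) (nat_lit 2) (.e (nat_lit 90170) (nat_lit 13) (.e (nat_lit 172113) (nat_lit 10) (.e (nat_lit 434242) (nat_lit 28) (.e (nat_lit 573456) (nat_lit 9) .nil))))) .nil)) 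
(.lf (nat_lit 137581) (.g (nat_lit 3232) (.e (nat_lit 24607) (nat_lit 3) (.e (nat_lit 98313) (nat_lit 9) (.e (nat_lit 336021) (nat_lit 3) (.e (nat_lit 98313) (nat_lit 9) (.e (nat_lit 336012) (nat_lit 2) (.e (nat_lit 90160) (nat_lit 11) .nil)))))) (.g (nat_lit 6) .nil .nil))))) (.nd (nat_lit 5) (.nd (nat_lit 6) 
(.lf (nat_lit 137501) (.g (nat_lit 1895) (.e (nat_lit 24605) (nat_lit 2) (.e (nat_lit 90158) (nat_lit 11) (.e (nat_lit 24608) (nat_lit 3) (.e (nat_lit 98317) (nat_lit 9) (.e (nat_lit 336003) (nat_lit 2) .nil))))) .nil)) 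
(.lf (nat_lit 137565) (.g (nat_lit 847) (.e (nat_lit 24607) (nat_lit 3) (.e (nat_lit 98313) (nat_lit 9) (.e (nat_lit 336004) (nat_lit 2) (.e (nat_lit 90158) (nat_lit 11) .nil)))) .nil))) (.nd (nat_lit 6) 
(.lf (nat_lit 137533) (.g (nat_lit 2363) (.e (nat_lit 24605) (nat_lit 2) (.e (nat_lit 90170) (nat_lit 13) (.e (nat_lit 172120) (nat_lit 12) (.e (nat_lit 475178) (nat_lit 24) (.e (nat_lit 516127) (nat_lit 2) (.e (nat_lit 213030) (nat_lit 11) .nil)))))) (.g (nat_lit 4) .nil .nil))) 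
(.lf (nat_lit 137597) (.g (nat_lit 638) (.e (nat_lit 24607) (nat_lit 3) (.e (nat_lit 98317) (nat_lit 9) (.e (nat_lit 335914) (nat_lit 0) .nil))) .nil))))))) (.nd (nat_lit 2) (.nd (nat_lit 3) (.nd (nat_lit 4) (.nd (nat_lit 5) (.nd (nat_lit 6) 
(.lf (nat_lit 137475) (.g (nat_lit 1807) (.e (nat_lit 24604) (nat_lit 2) (.e (nat_lit 90185) (nat_lit 17) (.e (nat_lit 237605) (nat_lit 9) (.e (nat_lit 426436) (nat_lit 18) (.e (nat_lit 98327) (nat_lit 17) .nil))))) .nil)) 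
(.lf (nat_lit 137539) (.g (nat_lit 2469) (.e (nat_lit 24605) (nat_lit 2) (.e (nat_lit 90185) (nat_lit 17) (.e (nat_lit 237601) (nat_lit 9) (.e (nat_lit 426436) (nat_lit 18) (.e (nat_lit 98339) (nat_lit 19) (.e (nat_lit 213030) (nat_lit 11) .nil)))))) (.g (nat_lit 0) .nil .nil)))) (.nd (nat_lit 6) 
(.lf (nat_lit 137507) (.g (nat_lit 1093) (.e (nat_lit 24605) (nat_lit 2) (.e (nat_lit 90160) (nat_lit 11) (.e (nat_lit 24607) (nat_lit 3) .nil))) .nil)) 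
(.lf (nat_lit 137571) (.g (nat_lit 1837) (.e (nat_lit 24607) (nat_lit 3) (.e (nat_lit 98313) (nat_lit 9) (.e (nat_lit 336012) (nat_lit 2) (.e (nat_lit 90123) (nat_lit 9) (.e (nat_lit 307) (nat_lit 22) .nil))))) .nil)))) (.nd (nat_lit 5) (.nd (nat_lit 6) 
(.lf (nat_lit 137491) (.g (nat_lit 2517) (.e (nat_lit 24605) (nat_lit 2) (.e (nat_lit 90158) (nat_lit 11) (.e (nat_lit 24605) (nat_lit 2) (.e (nat_lit 90158) (nat_lit 11) (.e (nat_lit 24605) (nat_lit 2) (.e (nat_lit 90158) (nat_lit 11) .nil)))))) (.g (nat_lit 6) .nil .nil))) 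
(.lf (nat_lit 137555) (.g (nat_lit 1510) (.e (nat_lit 24606) (nat_lit 3) (.e (nat_lit 98317) (nat_lit 9) (.e (nat_lit 336004) (nat_lit 2) (.e (nat_lit 90158) (nat_lit 11) .nil)))) .nil))) (.nd (nat_lit 6) 
(.lf (nat_lit 137523) (.g (nat_lit 1185) (.e (nat_lit 24605) (nat_lit 2) (.e (nat_lit 90170) (nat_lit 13) (.e (nat_lit 172118) (nat_lit 12) (.e (nat_lit 475178) (nat_lit 24) .nil)))) .nil)) 
(.lf (nat_lit 137587) (.g (nat_lit 3130) (.e (nat_lit 24607) (nat_lit 3) (.e (nat_lit 98313) (nat_lit 9) (.e (nat_lit 336027) (nat_lit 3) (.e (nat_lit 98313) (nat_lit 9) (.e (nat_lit 336012) (nat_lit 2) (.e (nat_lit 90157) (nat_lit 11) .nil)))))) (.g (nat_lit 6) .nil .nil)))))) (.nd (nat_lit 4) (.nd (nat_lit 5) (.nd (nat_lit 6) 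
(.lf (nat_lit 137483) (.g (nat_lit 2194) (.e (nat_lit 24604) (nat_lit 2) (.e (nat_lit 90185) (nat_lit 17) (.e (nat_lit 237616) (nat_lit 12) (.e (nat_lit 475179) (nat_lit 24) (.e (nat_lit 516124) (nat_lit 2) (.e (nat_lit 220928) (nat_lit 11) .nil)))))) (.g (nat_lit 5) .nil .nil))) 
(.lf (nat_lit 137547) (.g (nat_lit 1651) (.e (nat_lit 24606) (nat_lit 3) (.e (nat_lit 98313) (nat_lit 9) (.e (nat_lit 336004) (nat_lit 2) (.e (nat_lit 90158) (nat_lit 11) (.e (nat_lit 24603) (nat_lit 2) .nil))))) .nil))) (.nd (nat_lit 6) 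
(.lf (nat_lit 137515) (.g (nat_lit 2792) (.e (nat_lit 24605) (nat_lit 2) (.e (nat_lit 90170) (nat_lit 13) (.e (nat_lit 172106) (nat_lit 10) (.e (nat_lit 434244) (nat_lit 28) (.e (nat_lit 573449) (nat_lit 9) (.e (nat_lit 1312) (nat_lit 98) (.e (nat_lit 147492) (nat_lit 11) .nil))))))) (.g (nat_lit 4) .nil .nil))) 
(.lf (nat_lit 137579) (.g (nat_lit 3179) (.e (nat_lit 24607) (nat_lit 3) (.e (nat_lit 98313) (nat_lit 9) (.e (nat_lit 336021) (nat_lit 3) (.e (nat_lit 98313) (nat_lit 9) (.e (nat_lit 336012) (nat_lit 2) (.e (nat_lit 90157) (nat_lit 11) .nil)))))) (.g (nat_lit 6) .nil .nil))))) (.nd (nat_lit 5) (.nd (nat_lit 6) 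
(.lf (nat_lit 137499) (.g (nat_lit 3265) (.e (nat_lit 24605) (nat_lit 2) (.e (nat_lit 90158) (nat_lit 11) (.e (nat_lit 24608) (nat_lit 3) (.e (nat_lit 98313) (nat_lit 9) (.e (nat_lit 336004) (nat_lit 2) (.e (nat_lit 90158) (nat_lit 11) .nil)))))) (.g (nat_lit 0) .nil .nil))) 
(.lf (nat_lit 137563) (.g (nat_lit 1661) (.e (nat_lit 24606) (nat_lit 3) (.e (nat_lit 98342) (nat_lit 20) (.e (nat_lit 221215) (nat_lit 23) (.e (nat_lit 204831) (nat_lit 18) .nil)))) .nil))) (.nd (nat_lit 6) 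
(.lf (nat_lit 137531) (.g (nat_lit 2278) (.e (nat_lit 24605) (nat_lit 2) (.e (nat_lit 90170) (nat_lit 13) (.e (nat_lit 172120) (nat_lit 12) (.e (nat_lit 475178) (nat_lit 24) (.e (nat_lit 516126) (nat_lit 2) .nil))))) .nil)) 
(.lf (nat_lit 137595) (.g (nat_lit 766) (.e (nat_lit 24607) (nat_lit 3) (.e (nat_lit 98316) (nat_lit 9) (.e (nat_lit 336004) (nat_lit 2) (.e (nat_lit 90158) (nat_lit 11) .nil)))) .nil)))))) (.nd (nat_lit 3) (.nd (nat_lit 4) (.nd (nat_lit 5) (.nd (nat_lit 6) 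
(.lf (nat_lit 137479) (.g (nat_lit 1360) (.e (nat_lit 24604) (nat_lit 2) (.e (nat_lit 90185) (nat_lit 17) (.e (nat_lit 237605) (nat_lit 9) (.e (nat_lit 426438) (nat_lit 18) (.e (nat_lit 98323) (nat_lit 17) .nil))))) .nil)) 
(.lf (nat_lit 137543) (.g (nat_lit 2623) (.e (nat_lit 24605) (nat_lit 2) (.e (nat_lit 90185) (nat_lit 17) (.e (nat_lit 237605) (nat_lit 9) (.e (nat_lit 426436) (nat_lit 18) (.e (nat_lit 98339) (nat_lit 19) (.e (nat_lit 213030) (nat_lit 11) .nil)))))) (.g (nat_lit 0) .nil .nil)))) (.nd (nat_lit 6) 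
(.lf (nat_lit 137511) (.g (nat_lit 1826) (.e (nat_lit 24605) (nat_lit 2) (.e (nat_lit 90170) (nat_lit 13) (.e (nat_lit 172087) (nat_lit 9) (.e (nat_lit 426438) (nat_lit 18) (.e (nat_lit 98339) (nat_lit 19) (.e (nat_lit 213030) (nat_lit 11) .nil)))))) (.g (nat_lit 4) .nil .nil))) 
(.lf (nat_lit 137575) (.g (nat_lit 2344) (.e (nat_lit 24607) (nat_lit 3) (.e (nat_lit 98313) (nat_lit 9) (.e (nat_lit 336012) (nat_lit 2) (.e (nat_lit 90160) (nat_lit 11) (.e (nat_lit 24603) (nat_lit 2) (.e (nat_lit 90157) (nat_lit 11) .nil)))))) (.g (nat_lit 4) .nil .nil))))) (.nd (nat_lit 5) (.nd (nat_lit 6) 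
(.lf (nat_lit 137495) (.g (nat_lit 2026) (.e (nat_lit 24605) (nat_lit 2) (.e (nat_lit 90158) (nat_lit 11) (.e (nat_lit 24607) (nat_lit 3) (.e (nat_lit 98317) (nat_lit 9) (.e (nat_lit 336009) (nat_lit 2) .nil))))) .nil)) 
(.lf (nat_lit 137559) (.g (nat_lit 2178) (.e (nat_lit 24606) (nat_lit 3) (.e (nat_lit 98317) (nat_lit 9) (.e (nat_lit 336021) (nat_lit 3) (.e (nat_lit 98317) (nat_lit 9) (.e (nat_lit 336012) (nat_lit 2) .nil))))) .nil))) (.nd (nat_lit 6) 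
(.lf (nat_lit 137527) (.g (nat_lit 1647) (.e (nat_lit 24605) (nat_lit 2) (.e (nat_lit 90170) (nat_lit 13) (.e (nat_lit 172120) (nat_lit 12) (.e (nat_lit 475175) (nat_lit 24) .nil)))) .nil)) 
(.lf (nat_lit 137591) (.g (nat_lit 1647) (.e (nat_lit 24607) (nat_lit 3) (.e (nat_lit 98313) (nat_lit 9) (.e (nat_lit 336027) (nat_lit 3) (.e (nat_lit 98316) (nat_lit 9) (.e (nat_lit 336010) (nat_lit 2) (.e (nat_lit 90158) (nat_lit 11) .nil)))))) (.g (nat_lit 4) .nil .nil)))))) (.nd (nat_lit 4) (.nd (nat_lit 5) (.nd (nat_lit 6) 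
(.lf (nat_lit 137487) (.g (nat_lit 2330) (.e (nat_lit 24604) (nat_lit 2) (.e (nat_lit 90185) (nat_lit 17) (.e (nat_lit 237619) (nat_lit 12) (.e (nat_lit 475179) (nat_lit 24) (.e (nat_lit 516124) (nat_lit 2) (.e (nat_lit 220928) (nat_lit 11) .nil)))))) (.g (nat_lit 5) .nil .nil))) 
(.lf (nat_lit 137551) (.g (nat_lit 2361) (.e (nat_lit 24606) (nat_lit 3) (.e (nat_lit 98313) (nat_lit 9) (.e (nat_lit 336012) (nat_lit 2) (.e (nat_lit 90160) (nat_lit 11) (.e (nat_lit 24603) (nat_lit 2) .nil))))) .nil))) (.nd (nat_lit 6) 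
(.lf (nat_lit 137519) (.g (nat_lit 3039) (.e (nat_lit 24605) (nat_lit 2) (.e (nat_lit 90170) (nat_lit 13) (.e (nat_lit 172113) (nat_lit 10) (.e (nat_lit 434245) (nat_lit 28) (.e (nat_lit 573449) (nat_lit 9) (.e (nat_lit 1312) (nat_lit 98) (.e (nat_lit 147494) (nat_lit 11) .nil))))))) (.g (nat_lit 5) .nil .nil))) 
(.lf (nat_lit 137583) (.g (nat_lit 3309) (.e (nat_lit 24607) (nat_lit 3) (.e (nat_lit 98313) (nat_lit 9) (.e (nat_lit 336021) (nat_lit 3) (.e (nat_lit 98317) (nat_lit 9) (.e (nat_lit 336012) (nat_lit 2) (.e (nat_lit 90157) (nat_lit 11) .nil)))))) (.g (nat_lit 6) .nil .nil))))) (.nd (nat_lit 5) (.nd (nat_lit 6) 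
(.lf (nat_lit 137503) (.g (nat_lit 2050) (.e (nat_lit 24605) (nat_lit 2) (.e (nat_lit 90158) (nat_lit 11) (.e (nat_lit 24609) (nat_lit 3) (.e (nat_lit 98313) (nat_lit 9) (.e (nat_lit 336004) (nat_lit 2) (.e (nat_lit 90158) (nat_lit 11) .nil)))))) (.g (nat_lit 5) .nil .nil))) 
(.lf (nat_lit 137567) (.g (nat_lit 1325) (.e (nat_lit 24607) (nat_lit 3) (.e (nat_lit 98313) (nat_lit 9) (.e (nat_lit 336011) (nat_lit 2) (.e (nat_lit 90158) (nat_lit 11) .nil)))) .nil))) (.nd (nat_lit 6) 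
(.lf (nat_lit 137535) (.g (nat_lit 696) (.e (nat_lit 24605) (nat_lit 2) (.e (nat_lit 90172) (nat_lit 14) (.e (nat_lit 188160) (nat_lit 41) .nil))) .nil)) 
(.lf (nat_lit 137599) (.g (nat_lit 638) (.e (nat_lit 24607) (nat_lit 3) (.e (nat_lit 98317) (nat_lit 9) (.e (nat_lit 335933) (nat_lit 0) .nil))) .nil)))))))))

noncomputable def tv1827 : DT := (.nd (nat_lit 0) (.nd (nat_lit 1) (.nd (nat_lit 2) (.nd (nat_lit 3) (.nd (nat_lit 4) (.nd (nat_lit 5) 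
(.lf (nat_lit 137600) (.g (nat_lit 638) (.e (nat_lit 24607) (nat_lit 3) (.e (nat_lit 98317) (nat_lit 9) (.e (nat_lit 335934) (nat_lit 0) .nil))) .nil)) 
(.lf (nat_lit 137632) (.g (nat_lit 3519) (.e (nat_lit 24607) (nat_lit 3) (.e (nat_lit 98317) (nat_lit 9) (.e (nat_lit 336027) (nat_lit 3) (.e (nat_lit 98312) (nat_lit 9) (.e (nat_lit 336004) (nat_lit 2) (.e (nat_lit 90158) (nat_lit 11) .nil)))))) (.g (nat_lit 0) .nil .nil)))) (.nd (nat_lit 5) 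
(.lf (nat_lit 137616) (.g (nat_lit 3459) (.e (nat_lit 24607) (nat_lit 3) (.e (nat_lit 98317) (nat_lit 9) (.e (nat_lit 336021) (nat_lit 3) (.e (nat_lit 98313) (nat_lit 9) (.e (nat_lit 336012) (nat_lit 2) (.e (nat_lit 90157) (nat_lit 11) .nil)))))) (.g (nat_lit 0) .nil .nil))) 
(.lf (nat_lit 137648) (.g (nat_lit 2067) (.e (nat_lit 24607) (nat_lit 3) (.e (nat_lit 98342) (nat_lit 20) (.e (nat_lit 221212) (nat_lit 22) (.e (nat_lit 196635) (nat_lit 9) .nil)))) .nil)))) (.nd (nat_lit 4) (.nd (nat_lit 5) 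
(.lf (nat_lit 137608) (.g (nat_lit 3682) (.e (nat_lit 24607) (nat_lit 3) (.e (nat_lit 98317) (nat_lit 9) (.e (nat_lit 336012) (nat_lit 2) (.e (nat_lit 90158) (nat_lit 11) (.e (nat_lit 24604) (nat_lit 2) (.e (nat_lit 90160) (nat_lit 11) .nil)))))) (.g (nat_lit 0) .nil .nil))) 
(.lf (nat_lit 137640) (.g (nat_lit 3432) (.e (nat_lit 24607) (nat_lit 3) (.e (nat_lit 98317) (nat_lit 9) (.e (nat_lit 336027) (nat_lit 3) (.e (nat_lit 98317) (nat_lit 9) (.e (nat_lit 336004) (nat_lit 2) (.e (nat_lit 90158) (nat_lit 11) .nil)))))) (.g (nat_lit 0) .nil .nil)))) (.nd (nat_lit 5) 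
(.lf (nat_lit 137624) (.g (nat_lit 3452) (.e (nat_lit 24607) (nat_lit 3) (.e (nat_lit 98317) (nat_lit 9) (.e (nat_lit 336025) (nat_lit 3) (.e (nat_lit 98313) (nat_lit 9) (.e (nat_lit 336012) (nat_lit 2) (.e (nat_lit 90160) (nat_lit 11) .nil)))))) (.g (nat_lit 6) .nil .nil))) 
(.lf (nat_lit 137656) (.g (nat_lit 1818) (.e (nat_lit 24607) (nat_lit 3) (.e (nat_lit 98365) (nat_lit 26) (.e (nat_lit 426187) (nat_lit 9) (.e (nat_lit 426428) (nat_lit 17) (.e (nat_lit 90165) (nat_lit 12) (.e (nat_lit 164049) (nat_lit 55) (.e (nat_lit 778464) (nat_lit 11) .nil))))))) (.g (nat_lit 4) .nil .nil)))))) (.nd (nat_lit 3) (.nd (nat_lit 4) (.nd (nat_lit 5) 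
(.lf (nat_lit 137604) (.g (nat_lit 1827) (.e (nat_lit 24607) (nat_lit 3) (.e (nat_lit 98317) (nat_lit 9) (.e (nat_lit 336011) (nat_lit 2) (.e (nat_lit 90134) (nat_lit 9) (.e (nat_lit 290) (nat_lit 21) .nil))))) .nil)) 
(.lf (nat_lit 137636) (.g (nat_lit 3372) (.e (nat_lit 24607) (nat_lit 3) (.e (nat_lit 98317) (nat_lit 9) (.e (nat_lit 336027) (nat_lit 3) (.e (nat_lit 98313) (nat_lit 9) (.e (nat_lit 336011) (nat_lit 2) (.e (nat_lit 90157) (nat_lit 11) .nil)))))) (.g (nat_lit 0) .nil .nil)))) (.nd (nat_lit 5) 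
(.lf (nat_lit 137620) (.g (nat_lit 2137) (.e (nat_lit 24607) (nat_lit 3) (.e (nat_lit 98317) (nat_lit 9) (.e (nat_lit 336021) (nat_lit 3) (.e (nat_lit 98317) (nat_lit 9) (.e (nat_lit 336009) (nat_lit 2) (.e (nat_lit 90157) (nat_lit 11) .nil)))))) (.g (nat_lit 4) .nil .nil))) 
(.lf (nat_lit 137652) (.g (nat_lit 2031) (.e (nat_lit 24607) (nat_lit 3) (.e (nat_lit 98359) (nat_lit 26) (.e (nat_lit 426286) (nat_lit 10) (.e (nat_lit 434247) (nat_lit 28) (.e (nat_lit 573456) (nat_lit 9) .nil))))) .nil)))) (.nd (nat_lit 4) (.nd (nat_lit 5) 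
(.lf (nat_lit 137612) (.g (nat_lit 3612) (.e (nat_lit 24607) (nat_lit 3) (.e (nat_lit 98317) (nat_lit 9) (.e (nat_lit 336021) (nat_lit 3) (.e (nat_lit 98313) (nat_lit 9) (.e (nat_lit 336004) (nat_lit 2) (.e (nat_lit 90158) (nat_lit 11) .nil)))))) (.g (nat_lit 0) .nil .nil))) 
(.lf (nat_lit 137644) (.g (nat_lit 1130) (.e (nat_lit 24607) (nat_lit 3) (.e (nat_lit 98333) (nat_lit 18) (.e (nat_lit 164182) (nat_lit 154) .nil))) .nil))) (.nd (nat_lit 5) 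
(.lf (nat_lit 137628) (.g (nat_lit 3118) (.e (nat_lit 24607) (nat_lit 3) (.e (nat_lit 98317) (nat_lit 9) (.e (nat_lit 336026) (nat_lit 3) (.e (nat_lit 98317) (nat_lit 9) (.e (nat_lit 336004) (nat_lit 2) (.e (nat_lit 90158) (nat_lit 11) .nil)))))) (.g (nat_lit 0) .nil .nil))) 
(.lf (nat_lit 137660) (.g (nat_lit 1842) (.e (nat_lit 24607) (nat_lit 3) (.e (nat_lit 98365) (nat_lit 26) (.e (nat_lit 426188) (nat_lit 9) (.e (nat_lit 426428) (nat_lit 17) (.e (nat_lit 90165) (nat_lit 12) .nil))))) .nil)))))) (.nd (nat_lit 2) (.nd (nat_lit 3) (.nd (nat_lit 4) (.nd (nat_lit 5) 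
(.lf (nat_lit 137602) (.g (nat_lit 3579) (.e (nat_lit 24607) (nat_lit 3) (.e (nat_lit 98317) (nat_lit 9) (.e (nat_lit 336004) (nat_lit 2) (.e (nat_lit 90158) (nat_lit 11) (.e (nat_lit 24604) (nat_lit 2) (.e (nat_lit 90160) (nat_lit 11) .nil)))))) (.g (nat_lit 0) .nil .nil))) 
(.lf (nat_lit 137634) (.g (nat_lit 2596) (.e (nat_lit 24607) (nat_lit 3) (.e (nat_lit 98317) (nat_lit 9) (.e (nat_lit 336027) (nat_lit 3) (.e (nat_lit 98312) (nat_lit 9) (.e (nat_lit 336012) (nat_lit 2) (.e (nat_lit 90159) (nat_lit 11) .nil)))))) (.g (nat_lit 5) .nil .nil)))) (.nd (nat_lit 5) 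
(.lf (nat_lit 137618) (.g (nat_lit 3547) (.e (nat_lit 24607) (nat_lit 3) (.e (nat_lit 98317) (nat_lit 9) (.e (nat_lit 336021) (nat_lit 3) (.e (nat_lit 98313) (nat_lit 9) (.e (nat_lit 336012) (nat_lit 2) (.e (nat_lit 90160) (nat_lit 11) .nil)))))) (.g (nat_lit 0) .nil .nil))) 
(.lf (nat_lit 137650) (.g (nat_lit 1279) (.e (nat_lit 24607) (nat_lit 3) (.e (nat_lit 98359) (nat_lit 26) (.e (nat_lit 426286) (nat_lit 10) (.e (nat_lit 434245) (nat_lit 28) .nil)))) .nil)))) (.nd (nat_lit 4) (.nd (nat_lit 5) 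
(.lf (nat_lit 137610) (.g (nat_lit 1858) (.e (nat_lit 24607) (nat_lit 3) (.e (nat_lit 98317) (nat_lit 9) (.e (nat_lit 336020) (nat_lit 3) (.e (nat_lit 98313) (nat_lit 9) (.e (nat_lit 336012) (nat_lit 2) (.e (nat_lit 90159) (nat_lit 11) .nil)))))) (.g (nat_lit 4) .nil .nil))) 
(.lf (nat_lit 137642) (.g (nat_lit 1197) (.e (nat_lit 24607) (nat_lit 3) (.e (nat_lit 98333) (nat_lit 18) (.e (nat_lit 164177) (nat_lit 154) .nil))) .nil))) (.nd (nat_lit 5) 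
(.lf (nat_lit 137626) (.g (nat_lit 2349) (.e (nat_lit 24607) (nat_lit 3) (.e (nat_lit 98317) (nat_lit 9) (.e (nat_lit 336026) (nat_lit 3) (.e (nat_lit 98313) (nat_lit 9) (.e (nat_lit 336012) (nat_lit 2) (.e (nat_lit 90157) (nat_lit 11) .nil)))))) (.g (nat_lit 5) .nil .nil))) 
(.lf (nat_lit 137658) (.g (nat_lit 415) (.e (nat_lit 24607) (nat_lit 3) (.e (nat_lit 98365) (nat_lit 26) (.e (nat_lit 426188) (nat_lit 9) .nil))) .nil))))) (.nd (nat_lit 3) (.nd (nat_lit 4) (.nd (nat_lit 5) 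
(.lf (nat_lit 137606) (.g (nat_lit 1104) (.e (nat_lit 24607) (nat_lit 3) (.e (nat_lit 98317) (nat_lit 9) (.e (nat_lit 336012) (nat_lit 2) (.e (nat_lit 90128) (nat_lit 9) .nil)))) .nil)) 
(.lf (nat_lit 137638) (.g (nat_lit 3652) (.e (nat_lit 24607) (nat_lit 3) (.e (nat_lit 98317) (nat_lit 9) (.e (nat_lit 336027) (nat_lit 3) (.e (nat_lit 98313) (nat_lit 9) (.e (nat_lit 336012) (nat_lit 2) (.e (nat_lit 90158) (nat_lit 11) .nil)))))) (.g (nat_lit 0) .nil .nil)))) (.nd (nat_lit 5) 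
(.lf (nat_lit 137622) (.g (nat_lit 2786) (.e (nat_lit 24607) (nat_lit 3) (.e (nat_lit 98317) (nat_lit 9) (.e (nat_lit 336025) (nat_lit 3) (.e (nat_lit 98313) (nat_lit 9) (.e (nat_lit 336011) (nat_lit 2) (.e (nat_lit 90157) (nat_lit 11) .nil)))))) (.g (nat_lit 5) .nil .nil))) 
(.lf (nat_lit 137654) (.g (nat_lit 404) (.e (nat_lit 24607) (nat_lit 3) (.e (nat_lit 98365) (nat_lit 26) (.e (nat_lit 426187) (nat_lit 9) .nil))) .nil)))) (.nd (nat_lit 4) (.nd (nat_lit 5) 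
(.lf (nat_lit 137614) (.g (nat_lit 3301) (.e (nat_lit 24607) (nat_lit 3) (.e (nat_lit 98317) (nat_lit 9) (.e (nat_lit 336021) (nat_lit 3) (.e (nat_lit 98313) (nat_lit 9) (.e (nat_lit 336011) (nat_lit 2) (.e (nat_lit 90157) (nat_lit 11) .nil)))))) (.g (nat_lit 6) .nil .nil))) 
(.lf (nat_lit 137646) (.g (nat_lit 2088) (.e (nat_lit 24607) (nat_lit 3) (.e (nat_lit 98333) (nat_lit 18) (.e (nat_lit 164183) (nat_lit 154) (.e (nat_lit 57448) (nat_lit 19) .nil)))) .nil))) (.nd (nat_lit 5) 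
(.lf (nat_lit 137630) (.g (nat_lit 3058) (.e (nat_lit 24607) (nat_lit 3) (.e (nat_lit 98317) (nat_lit 9) (.e (nat_lit 336026) (nat_lit 3) (.e (nat_lit 98317) (nat_lit 9) (.e (nat_lit 336012) (nat_lit 2) (.e (nat_lit 90160) (nat_lit 11) .nil)))))) (.g (nat_lit 0) .nil .nil))) 
(.lf (nat_lit 137662) (.g (nat_lit 2125) (.e (nat_lit 24607) (nat_lit 3) (.e (nat_lit 98365) (nat_lit 26) (.e (nat_lit 426188) (nat_lit 9) (.e (nat_lit 426428) (nat_lit 17) (.e (nat_lit 90165) (nat_lit 12) (.e (nat_lit 164050) (nat_lit 55) (.e (nat_lit 778464) (nat_lit 11) .nil))))))) (.g (nat_lit 4) .nil .nil)))))))) 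
(.nd (nat_lit 1) (.nd (nat_lit 2) (.nd (nat_lit 3) (.nd (nat_lit 4) (.nd (nat_lit 5) 
(.lf (nat_lit 137601) (.g (nat_lit 2371) (.e (nat_lit 24607) (nat_lit 3) (.e (nat_lit 98317) (nat_lit 9) (.e (nat_lit 336004) (nat_lit 2) (.e (nat_lit 90158) (nat_lit 11) (.e (nat_lit 24601) (nat_lit 2) .nil))))) .nil)) 
(.lf (nat_lit 137633) (.g (nat_lit 3082) (.e (nat_lit 24607) (nat_lit 3) (.e (nat_lit 98317) (nat_lit 9) (.e (nat_lit 336027) (nat_lit 3) (.e (nat_lit 98312) (nat_lit 9) (.e (nat_lit 336012) (nat_lit 2) (.e (nat_lit 90157) (nat_lit 11) .nil)))))) (.g (nat_lit 0) .nil .nil)))) (.nd (nat_lit 5) 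
(.lf (nat_lit 137617) (.g (nat_lit 3923) (.e (nat_lit 24607) (nat_lit 3) (.e (nat_lit 98317) (nat_lit 9) (.e (nat_lit 336021) (nat_lit 3) (.e (nat_lit 98313) (nat_lit 9) (.e (nat_lit 336012) (nat_lit 2) (.e (nat_lit 90158) (nat_lit 11) .nil)))))) (.g (nat_lit 0) .nil .nil))) 
(.lf (nat_lit 137649) (.g (nat_lit 1938) (.e (nat_lit 24607) (nat_lit 3) (.e (nat_lit 98342) (nat_lit 20) (.e (nat_lit 221212) (nat_lit 22) (.e (nat_lit 196660) (nat_lit 12) .nil)))) .nil)))) (.nd (nat_lit 4) (.nd (nat_lit 5) 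
(.lf (nat_lit 137609) (.g (nat_lit 2531) (.e (nat_lit 24607) (nat_lit 3) (.e (nat_lit 98317) (nat_lit 9) (.e (nat_lit 336012) (nat_lit 2) (.e (nat_lit 90160) (nat_lit 11) (.e (nat_lit 24605) (nat_lit 2) .nil))))) .nil)) 
(.lf (nat_lit 137641) (.g (nat_lit 1759) (.e (nat_lit 24607) (nat_lit 3) (.e (nat_lit 98317) (nat_lit 9) (.e (nat_lit 336027) (nat_lit 3) (.e (nat_lit 98317) (nat_lit 9) (.e (nat_lit 336009) (nat_lit 2) (.e (nat_lit 90157) (nat_lit 11) .nil)))))) (.g (nat_lit 4) .nil .nil)))) (.nd (nat_lit 5) 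
(.lf (nat_lit 137625) (.g (nat_lit 408) (.e (nat_lit 24607) (nat_lit 3) (.e (nat_lit 98317) (nat_lit 9) (.e (nat_lit 336026) (nat_lit 3) .nil))) .nil)) 
(.lf (nat_lit 137657) (.g (nat_lit 1764) (.e (nat_lit 24607) (nat_lit 3) (.e (nat_lit 98365) (nat_lit 26) (.e (nat_lit 426187) (nat_lit 9) (.e (nat_lit 426428) (nat_lit 17) (.e (nat_lit 90165) (nat_lit 12) (.e (nat_lit 164050) (nat_lit 55) (.e (nat_lit 778464) (nat_lit 11) .nil))))))) (.g (nat_lit 4) .nil .nil)))))) (.nd (nat_lit 3) (.nd (nat_lit 4) (.nd (nat_lit 5) 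
(.lf (nat_lit 137605) (.g (nat_lit 1056) (.e (nat_lit 24607) (nat_lit 3) (.e (nat_lit 98317) (nat_lit 9) (.e (nat_lit 336011) (nat_lit 2) (.e (nat_lit 90158) (nat_lit 11) .nil)))) .nil)) 
(.lf (nat_lit 137637) (.g (nat_lit 3178) (.e (nat_lit 24607) (nat_lit 3) (.e (nat_lit 98317) (nat_lit 9) (.e (nat_lit 336027) (nat_lit 3) (.e (nat_lit 98313) (nat_lit 9) (.e (nat_lit 336012) (nat_lit 2) (.e (nat_lit 90157) (nat_lit 11) .nil)))))) (.g (nat_lit 0) .nil .nil)))) (.nd (nat_lit 5) 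
(.lf (nat_lit 137621) (.g (nat_lit 3484) (.e (nat_lit 24607) (nat_lit 3) (.e (nat_lit 98317) (nat_lit 9) (.e (nat_lit 336021) (nat_lit 3) (.e (nat_lit 98317) (nat_lit 9) (.e (nat_lit 336012) (nat_lit 2) (.e (nat_lit 90157) (nat_lit 11) .nil)))))) (.g (nat_lit 0) .nil .nil))) 
(.lf (nat_lit 137653) (.g (nat_lit 2375) (.e (nat_lit 24607) (nat_lit 3) (.e (nat_lit 98359) (nat_lit 26) (.e (nat_lit 426286) (nat_lit 10) (.e (nat_lit 434248) (nat_lit 28) (.e (nat_lit 573449) (nat_lit 9) .nil))))) .nil)))) (.nd (nat_lit 4) (.nd (nat_lit 5) 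
(.lf (nat_lit 137613) (.g (nat_lit 2165) (.e (nat_lit 24607) (nat_lit 3) (.e (nat_lit 98317) (nat_lit 9) (.e (nat_lit 336021) (nat_lit 3) (.e (nat_lit 98313) (nat_lit 9) (.e (nat_lit 336004) (nat_lit 2) (.e (nat_lit 90160) (nat_lit 11) .nil)))))) (.g (nat_lit 4) .nil .nil))) 
(.lf (nat_lit 137645) (.g (nat_lit 1225) (.e (nat_lit 24607) (nat_lit 3) (.e (nat_lit 98333) (nat_lit 18) (.e (nat_lit 164183) (nat_lit 154) .nil))) .nil))) (.nd (nat_lit 5) 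
(.lf (nat_lit 137629) (.g (nat_lit 2841) (.e (nat_lit 24607) (nat_lit 3) (.e (nat_lit 98317) (nat_lit 9) (.e (nat_lit 336026) (nat_lit 3) (.e (nat_lit 98317) (nat_lit 9) (.e (nat_lit 336012) (nat_lit 2) (.e (nat_lit 90157) (nat_lit 11) .nil)))))) (.g (nat_lit 6) .nil .nil))) 
(.lf (nat_lit 137661) (.g (nat_lit 2179) (.e (nat_lit 24607) (nat_lit 3) (.e (nat_lit 98365) (nat_lit 26) (.e (nat_lit 426188) (nat_lit 9) (.e (nat_lit 426428) (nat_lit 17) (.e (nat_lit 90165) (nat_lit 12) (.e (nat_lit 164049) (nat_lit 55) (.e (nat_lit 778464) (nat_lit 11) .nil))))))) (.g (nat_lit 4) .nil .nil))))))) (.nd (nat_lit 2) (.nd (nat_lit 3) (.nd (nat_lit 4) (.nd (nat_lit 5) 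
(.lf (nat_lit 137603) (.g (nat_lit 3064) (.e (nat_lit 24607) (nat_lit 3) (.e (nat_lit 98317) (nat_lit 9) (.e (nat_lit 336010) (nat_lit 2) (.e (nat_lit 90158) (nat_lit 11) (.e (nat_lit 24604) (nat_lit 2) (.e (nat_lit 90160) (nat_lit 11) .nil)))))) (.g (nat_lit 0) .nil .nil))) 
(.lf (nat_lit 137635) (.g (nat_lit 3386) (.e (nat_lit 24607) (nat_lit 3) (.e (nat_lit 98317) (nat_lit 9) (.e (nat_lit 336027) (nat_lit 3) (.e (nat_lit 98313) (nat_lit 9) (.e (nat_lit 336004) (nat_lit 2) (.e (nat_lit 90158) (nat_lit 11) .nil)))))) (.g (nat_lit 0) .nil .nil)))) (.nd (nat_lit 5) 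
(.lf (nat_lit 137619) (.g (nat_lit 2207) (.e (nat_lit 24607) (nat_lit 3) (.e (nat_lit 98317) (nat_lit 9) (.e (nat_lit 336021) (nat_lit 3) (.e (nat_lit 98317) (nat_lit 9) (.e (nat_lit 336001) (nat_lit 2) .nil))))) .nil)) 
(.lf (nat_lit 137651) (.g (nat_lit 1334) (.e (nat_lit 24607) (nat_lit 3) (.e (nat_lit 98359) (nat_lit 26) (.e (nat_lit 426286) (nat_lit 10) (.e (nat_lit 434247) (nat_lit 28) .nil)))) .nil)))) (.nd (nat_lit 4) (.nd (nat_lit 5) 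
(.lf (nat_lit 137611) (.g (nat_lit 2751) (.e (nat_lit 24607) (nat_lit 3) (.e (nat_lit 98317) (nat_lit 9) (.e (nat_lit 336021) (nat_lit 3) (.e (nat_lit 98313) (nat_lit 9) (.e (nat_lit 336002) (nat_lit 2) (.e (nat_lit 90158) (nat_lit 11) .nil)))))) (.g (nat_lit 5) .nil .nil))) 
(.lf (nat_lit 137643) (.g (nat_lit 1260) (.e (nat_lit 24607) (nat_lit 3) (.e (nat_lit 98333) (nat_lit 18) (.e (nat_lit 164179) (nat_lit 154) .nil))) .nil))) (.nd (nat_lit 5) 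
(.lf (nat_lit 137627) (.g (nat_lit 2139) (.e (nat_lit 24607) (nat_lit 3) (.e (nat_lit 98317) (nat_lit 9) (.e (nat_lit 336026) (nat_lit 3) (.e (nat_lit 98313) (nat_lit 9) (.e (nat_lit 336012) (nat_lit 2) (.e (nat_lit 90159) (nat_lit 11) .nil)))))) (.g (nat_lit 5) .nil .nil))) 
(.lf (nat_lit 137659) (.g (nat_lit 1227) (.e (nat_lit 24607) (nat_lit 3) (.e (nat_lit 98365) (nat_lit 26) (.e (nat_lit 426188) (nat_lit 9) (.e (nat_lit 426428) (nat_lit 17) .nil)))) .nil))))) (.nd (nat_lit 3) (.nd (nat_lit 4) (.nd (nat_lit 5) 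
(.lf (nat_lit 137607) (.g (nat_lit 2403) (.e (nat_lit 24607) (nat_lit 3) (.e (nat_lit 98317) (nat_lit 9) (.e (nat_lit 336012) (nat_lit 2) (.e (nat_lit 90128) (nat_lit 9) (.e (nat_lit 307) (nat_lit 22) (.e (nat_lit 344107) (nat_lit 19) (.e (nat_lit 499902) (nat_lit 7) .nil))))))) (.g (nat_lit 4) .nil .nil))) 
(.lf (nat_lit 137639) (.g (nat_lit 1190) (.e (nat_lit 24607) (nat_lit 3) (.e (nat_lit 98317) (nat_lit 9) (.e (nat_lit 336027) (nat_lit 3) (.e (nat_lit 98316) (nat_lit 9) .nil)))) .nil))) (.nd (nat_lit 5) 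
(.lf (nat_lit 137623) (.g (nat_lit 3358) (.e (nat_lit 24607) (nat_lit 3) (.e (nat_lit 98317) (nat_lit 9) (.e (nat_lit 336025) (nat_lit 3) (.e (nat_lit 98313) (nat_lit 9) (.e (nat_lit 336012) (nat_lit 2) (.e (nat_lit 90157) (nat_lit 11) .nil)))))) (.g (nat_lit 6) .nil .nil))) 
(.lf (nat_lit 137655) (.g (nat_lit 1469) (.e (nat_lit 24607) (nat_lit 3) (.e (nat_lit 98365) (nat_lit 26) (.e (nat_lit 426187) (nat_lit 9) (.e (nat_lit 426428) (nat_lit 17) (.e (nat_lit 90165) (nat_lit 12) .nil))))) .nil)))) (.nd (nat_lit 4) (.nd (nat_lit 5) 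
(.lf (nat_lit 137615) (.g (nat_lit 3093) (.e (nat_lit 24607) (nat_lit 3) (.e (nat_lit 98317) (nat_lit 9) (.e (nat_lit 336021) (nat_lit 3) (.e (nat_lit 98313) (nat_lit 9) (.e (nat_lit 336011) (nat_lit 2) (.e (nat_lit 90158) (nat_lit 11) .nil)))))) (.g (nat_lit 5) .nil .nil))) 
(.lf (nat_lit 137647) (.g (nat_lit 1013) (.e (nat_lit 24607) (nat_lit 3) (.e (nat_lit 98342) (nat_lit 20) (.e (nat_lit 221212) (nat_lit 22) .nil))) .nil))) (.nd (nat_lit 5) 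
(.lf (nat_lit 137631) (.g (nat_lit 2870) (.e (nat_lit 24607) (nat_lit 3) (.e (nat_lit 98317) (nat_lit 9) (.e (nat_lit 336027) (nat_lit 3) (.e (nat_lit 98312) (nat_lit 9) (.e (nat_lit 336002) (nat_lit 2) (.e (nat_lit 90158) (nat_lit 11) .nil)))))) (.g (nat_lit 0) .nil .nil))) 
(.lf (nat_lit 137663) (.g (nat_lit 2801) (.e (nat_lit 24607) (nat_lit 3) (.e (nat_lit 98365) (nat_lit 26) (.e (nat_lit 426188) (nat_lit 9) (.e (nat_lit 426438) (nat_lit 18) (.e (nat_lit 98339) (nat_lit 19) (.e (nat_lit 213030) (nat_lit 11) .nil)))))) (.g (nat_lit 6) .nil .nil)))))))))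

noncomputable def tv1828 : DT := (.nd (nat_lit 0) (.nd (nat_lit 1) (.nd (nat_lit 2) (.nd (nat_lit 3) (.nd (nat_lit 4) (.nd (nat_lit 5) 
(.lf (nat_lit 137664) (.g (nat_lit 1405) (.e (nat_lit 24607) (nat_lit 3) (.e (nat_lit 98365) (nat_lit 26) (.e (nat_lit 426198) (nat_lit 9) (.e (nat_lit 426436) (nat_lit 18) (.e (nat_lit 98339) (nat_lit 19) .nil))))) .nil)) 
(.lf (nat_lit 137696) (.g (nat_lit 2377) (.e (nat_lit 24608) (nat_lit 3) (.e (nat_lit 98313) (nat_lit 9) (.e (nat_lit 336011) (nat_lit 2) (.e (nat_lit 90158) (nat_lit 11) (.e (nat_lit 24604) (nat_lit 2) (.e (nat_lit 90158) (nat_lit 11) .nil)))))) (.g (nat_lit 4) .nil .nil)))) (.nd (nat_lit 5) 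
(.lf (nat_lit 137680) (.g (nat_lit 4721) (.e (nat_lit 24607) (nat_lit 3) (.e (nat_lit 98389) (nat_lit 33) (.e (nat_lit 491563) (nat_lit 12) (.e (nat_lit 385068) (nat_lit 26) (.e (nat_lit 532508) (nat_lit 2) (.e (nat_lit 114432) (nat_lit 2) .nil)))))) (.g (nat_lit 4) .nil .nil))) 
(.lf (nat_lit 137712) (.g (nat_lit 2384) (.e (nat_lit 24608) (nat_lit 3) (.e (nat_lit 98313) (nat_lit 9) (.e (nat_lit 336027) (nat_lit 3) (.e (nat_lit 98317) (nat_lit 9) (.e (nat_lit 336003) (nat_lit 2) (.e (nat_lit 90158) (nat_lit 11) .nil)))))) (.g (nat_lit 5) .nil .nil))))) (.nd (nat_lit 4) (.nd (nat_lit 5) 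
(.lf (nat_lit 137672) (.g (nat_lit 1393) (.e (nat_lit 24607) (nat_lit 3) (.e (nat_lit 98365) (nat_lit 26) (.e (nat_lit 426315) (nat_lit 12) (.e (nat_lit 475178) (nat_lit 24) .nil)))) .nil)) 
(.lf (nat_lit 137704) (.g (nat_lit 2718) (.e (nat_lit 24608) (nat_lit 3) (.e (nat_lit 98313) (nat_lit 9) (.e (nat_lit 336021) (nat_lit 3) (.e (nat_lit 98317) (nat_lit 9) (.e (nat_lit 335892) (nat_lit 0) (.e (nat_lit 1709) (nat_lit 117) (.e (nat_lit 499900) (nat_lit 7) .nil))))))) (.g (nat_lit 4) .nil .nil)))) (.nd (nat_lit 5) 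
(.lf (nat_lit 137688) (.g (nat_lit 2473) (.e (nat_lit 24608) (nat_lit 3) (.e (nat_lit 98312) (nat_lit 9) (.e (nat_lit 336021) (nat_lit 3) (.e (nat_lit 98317) (nat_lit 9) (.e (nat_lit 336003) (nat_lit 2) .nil))))) .nil)) 
(.lf (nat_lit 137720) (.g (nat_lit 3087) (.e (nat_lit 24608) (nat_lit 3) (.e (nat_lit 98317) (nat_lit 9) (.e (nat_lit 336002) (nat_lit 2) (.e (nat_lit 90158) (nat_lit 11) (.e (nat_lit 24604) (nat_lit 2) (.e (nat_lit 90160) (nat_lit 11) .nil)))))) (.g (nat_lit 0) .nil .nil)))))) (.nd (nat_lit 3) (.nd (nat_lit 4) (.nd (nat_lit 5) 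
(.lf (nat_lit 137668) (.g (nat_lit 1246) (.e (nat_lit 24607) (nat_lit 3) (.e (nat_lit 98365) (nat_lit 26) (.e (nat_lit 426306) (nat_lit 12) (.e (nat_lit 475176) (nat_lit 24) .nil)))) .nil)) 
(.lf (nat_lit 137700) (.g (nat_lit 2869) (.e (nat_lit 24608) (nat_lit 3) (.e (nat_lit 98313) (nat_lit 9) (.e (nat_lit 336012) (nat_lit 2) (.e (nat_lit 90160) (nat_lit 11) (.e (nat_lit 24601) (nat_lit 2) .nil))))) .nil))) (.nd (nat_lit 5) 
(.lf (nat_lit 137684) (.g (nat_lit 1955) (.e (nat_lit 24608) (nat_lit 3) (.e (nat_lit 98312) (nat_lit 9) (.e (nat_lit 336004) (nat_lit 2) (.e (nat_lit 90160) (nat_lit 11) (.e (nat_lit 24603) (nat_lit 2) .nil))))) .nil)) 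
(.lf (nat_lit 137716) (.g (nat_lit 2556) (.e (nat_lit 24608) (nat_lit 3) (.e (nat_lit 98316) (nat_lit 9) (.e (nat_lit 336004) (nat_lit 2) (.e (nat_lit 90158) (nat_lit 11) (.e (nat_lit 24602) (nat_lit 2) (.e (nat_lit 90158) (nat_lit 11) .nil)))))) (.g (nat_lit 4) .nil .nil))))) (.nd (nat_lit 4) (.nd (nat_lit 5) 
(.lf (nat_lit 137676) (.g (nat_lit 4032) (.e (nat_lit 24607) (nat_lit 3) (.e (nat_lit 98388) (nat_lit 33) (.e (nat_lit 491566) (nat_lit 12) (.e (nat_lit 385067) (nat_lit 26) (.e (nat_lit 532508) (nat_lit 2) (.e (nat_lit 114432) (nat_lit 2) .nil)))))) (.g (nat_lit 5) .nil .nil))) 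
(.lf (nat_lit 137708) (.g (nat_lit 3438) (.e (nat_lit 24608) (nat_lit 3) (.e (nat_lit 98313) (nat_lit 9) (.e (nat_lit 336021) (nat_lit 3) (.e (nat_lit 98317) (nat_lit 9) (.e (nat_lit 336012) (nat_lit 2) (.e (nat_lit 90160) (nat_lit 11) .nil)))))) (.g (nat_lit 6) .nil .nil)))) (.nd (nat_lit 5) 
(.lf (nat_lit 137692) (.g (nat_lit 1674) (.e (nat_lit 24608) (nat_lit 3) (.e (nat_lit 98312) (nat_lit 9) (.e (nat_lit 336027) (nat_lit 3) (.e (nat_lit 98313) (nat_lit 9) (.e (nat_lit 336002) (nat_lit 2) (.e (nat_lit 90158) (nat_lit 11) .nil)))))) (.g (nat_lit 4) .nil .nil))) 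
(.lf (nat_lit 137724) (.g (nat_lit 2416) (.e (nat_lit 24608) (nat_lit 3) (.e (nat_lit 98317) (nat_lit 9) (.e (nat_lit 336004) (nat_lit 2) (.e (nat_lit 90160) (nat_lit 11) (.e (nat_lit 24580) (nat_lit 0) (.e (nat_lit 1764) (nat_lit 117) (.e (nat_lit 499900) (nat_lit 7) .nil))))))) (.g (nat_lit 4) .nil .nil))))))) (.nd (nat_lit 2) (.nd (nat_lit 3) (.nd (nat_lit 4) (.nd (nat_lit 5) 
(.lf (nat_lit 137666) (.g (nat_lit 2584) (.e (nat_lit 24607) (nat_lit 3) (.e (nat_lit 98365) (nat_lit 26) (.e (nat_lit 426298) (nat_lit 11) (.e (nat_lit 458789) (nat_lit 23) (.e (nat_lit 532481) (nat_lit 0) (.e (nat_lit 1917) (nat_lit 130) (.e (nat_lit 606243) (nat_lit 11) .nil))))))) (.g (nat_lit 5) .nil .nil))) 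
(.lf (nat_lit 137698) (.g (nat_lit 1957) (.e (nat_lit 24608) (nat_lit 3) (.e (nat_lit 98313) (nat_lit 9) (.e (nat_lit 336012) (nat_lit 2) (.e (nat_lit 90128) (nat_lit 9) (.e (nat_lit 307) (nat_lit 22) .nil))))) .nil))) (.nd (nat_lit 5) 
(.lf (nat_lit 137682) (.g (nat_lit 3552) (.e (nat_lit 24608) (nat_lit 3) (.e (nat_lit 98312) (nat_lit 9) (.e (nat_lit 336004) (nat_lit 2) (.e (nat_lit 90158) (nat_lit 11) (.e (nat_lit 24604) (nat_lit 2) (.e (nat_lit 90158) (nat_lit 11) .nil)))))) (.g (nat_lit 0) .nil .nil))) 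
(.lf (nat_lit 137714) (.g (nat_lit 2165) (.e (nat_lit 24608) (nat_lit 3) (.e (nat_lit 98313) (nat_lit 9) (.e (nat_lit 336027) (nat_lit 3) (.e (nat_lit 98317) (nat_lit 9) (.e (nat_lit 336009) (nat_lit 2) (.e (nat_lit 90158) (nat_lit 11) .nil)))))) (.g (nat_lit 4) .nil .nil))))) (.nd (nat_lit 4) (.nd (nat_lit 5) 
(.lf (nat_lit 137674) (.g (nat_lit 2442) (.e (nat_lit 24607) (nat_lit 3) (.e (nat_lit 98372) (nat_lit 29) (.e (nat_lit 450588) (nat_lit 10) (.e (nat_lit 573449) (nat_lit 9) .nil)))) .nil)) 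
(.lf (nat_lit 137706) (.g (nat_lit 3218) (.e (nat_lit 24608) (nat_lit 3) (.e (nat_lit 98313) (nat_lit 9) (.e (nat_lit 336021) (nat_lit 3) (.e (nat_lit 98317) (nat_lit 9) (.e (nat_lit 336004) (nat_lit 2) (.e (nat_lit 90160) (nat_lit 11) .nil)))))) (.g (nat_lit 6) .nil .nil)))) (.nd (nat_lit 5) 
(.lf (nat_lit 137690) (.g (nat_lit 3777) (.e (nat_lit 24608) (nat_lit 3) (.e (nat_lit 98312) (nat_lit 9) (.e (nat_lit 336021) (nat_lit 3) (.e (nat_lit 98317) (nat_lit 9) (.e (nat_lit 336012) (nat_lit 2) (.e (nat_lit 90158) (nat_lit 11) .nil)))))) (.g (nat_lit 0) .nil .nil))) 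
(.lf (nat_lit 137722) (.g (nat_lit 3672) (.e (nat_lit 24608) (nat_lit 3) (.e (nat_lit 98317) (nat_lit 9) (.e (nat_lit 336004) (nat_lit 2) (.e (nat_lit 90158) (nat_lit 11) (.e (nat_lit 24604) (nat_lit 2) (.e (nat_lit 90158) (nat_lit 11) .nil)))))) (.g (nat_lit 0) .nil .nil)))))) (.nd (nat_lit 3) (.nd (nat_lit 4) (.nd (nat_lit 5) 
(.lf (nat_lit 137670) (.g (nat_lit 2563) (.e (nat_lit 24607) (nat_lit 3) (.e (nat_lit 98365) (nat_lit 26) (.e (nat_lit 426306) (nat_lit 12) (.e (nat_lit 475178) (nat_lit 24) (.e (nat_lit 516127) (nat_lit 2) (.e (nat_lit 213030) (nat_lit 11) .nil)))))) (.g (nat_lit 5) .nil .nil))) 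
(.lf (nat_lit 137702) (.g (nat_lit 2226) (.e (nat_lit 24608) (nat_lit 3) (.e (nat_lit 98313) (nat_lit 9) (.e (nat_lit 336021) (nat_lit 3) (.e (nat_lit 98313) (nat_lit 9) (.e (nat_lit 336002) (nat_lit 2) (.e (nat_lit 90158) (nat_lit 11) .nil)))))) (.g (nat_lit 4) .nil .nil)))) (.nd (nat_lit 5) 
(.lf (nat_lit 137686) (.g (nat_lit 3499) (.e (nat_lit 24608) (nat_lit 3) (.e (nat_lit 98312) (nat_lit 9) (.e (nat_lit 336021) (nat_lit 3) (.e (nat_lit 98313) (nat_lit 9) (.e (nat_lit 336004) (nat_lit 2) (.e (nat_lit 90158) (nat_lit 11) .nil)))))) (.g (nat_lit 0) .nil .nil))) 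
(.lf (nat_lit 137718) (.g (nat_lit 1403) (.e (nat_lit 24608) (nat_lit 3) (.e (nat_lit 98317) (nat_lit 9) (.e (nat_lit 336002) (nat_lit 2) (.e (nat_lit 90157) (nat_lit 11) (.e (nat_lit 24602) (nat_lit 2) .nil))))) .nil)))) (.nd (nat_lit 4) (.nd (nat_lit 5) 
(.lf (nat_lit 137678) (.g (nat_lit 4035) (.e (nat_lit 24607) (nat_lit 3) (.e (nat_lit 98389) (nat_lit 33) (.e (nat_lit 491563) (nat_lit 12) (.e (nat_lit 385065) (nat_lit 26) .nil)))) .nil)) 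
(.lf (nat_lit 137710) (.g (nat_lit 2350) (.e (nat_lit 24608) (nat_lit 3) (.e (nat_lit 98313) (nat_lit 9) (.e (nat_lit 336027) (nat_lit 3) (.e (nat_lit 98313) (nat_lit 9) (.e (nat_lit 336002) (nat_lit 2) (.e (nat_lit 90158) (nat_lit 11) .nil)))))) (.g (nat_lit 5) .nil .nil)))) (.nd (nat_lit 5) 
(.lf (nat_lit 137694) (.g (nat_lit 3220) (.e (nat_lit 24608) (nat_lit 3) (.e (nat_lit 98312) (nat_lit 9) (.e (nat_lit 336027) (nat_lit 3) (.e (nat_lit 98313) (nat_lit 9) (.e (nat_lit 336012) (nat_lit 2) (.e (nat_lit 90158) (nat_lit 11) .nil)))))) (.g (nat_lit 0) .nil .nil))) 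
(.lf (nat_lit 137726) (.g (nat_lit 1422) (.e (nat_lit 24608) (nat_lit 3) (.e (nat_lit 98317) (nat_lit 9) (.e (nat_lit 336009) (nat_lit 2) (.e (nat_lit 90158) (nat_lit 11) (.e (nat_lit 24605) (nat_lit 2) .nil))))) .nil))))))) (.nd (nat_lit 1) (.nd (nat_lit 2) (.nd (nat_lit 3) (.nd (nat_lit 4) (.nd (nat_lit 5) 
(.lf (nat_lit 137665) (.g (nat_lit 1654) (.e (nat_lit 24607) (nat_lit 3) (.e (nat_lit 98365) (nat_lit 26) (.e (nat_lit 426298) (nat_lit 11) (.e (nat_lit 458789) (nat_lit 23) (.e (nat_lit 532481) (nat_lit 0) (.e (nat_lit 1916) (nat_lit 130) (.e (nat_lit 606243) (nat_lit 11) .nil))))))) (.g (nat_lit 4) .nil .nil))) 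
(.lf (nat_lit 137697) (.g (nat_lit 2596) (.e (nat_lit 24608) (nat_lit 3) (.e (nat_lit 98313) (nat_lit 9) (.e (nat_lit 336011) (nat_lit 2) (.e (nat_lit 90160) (nat_lit 11) (.e (nat_lit 24602) (nat_lit 2) (.e (nat_lit 90158) (nat_lit 11) .nil)))))) (.g (nat_lit 4) .nil .nil)))) (.nd (nat_lit 5) 
(.lf (nat_lit 137681) (.g (nat_lit 2680) (.e (nat_lit 24608) (nat_lit 3) (.e (nat_lit 98312) (nat_lit 9) (.e (nat_lit 336002) (nat_lit 2) (.e (nat_lit 90158) (nat_lit 11) (.e (nat_lit 24604) (nat_lit 2) (.e (nat_lit 90158) (nat_lit 11) .nil)))))) (.g (nat_lit 0) .nil .nil))) 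
(.lf (nat_lit 137713) (.g (nat_lit 3017) (.e (nat_lit 24608) (nat_lit 3) (.e (nat_lit 98313) (nat_lit 9) (.e (nat_lit 336027) (nat_lit 3) (.e (nat_lit 98317) (nat_lit 9) (.e (nat_lit 336004) (nat_lit 2) (.e (nat_lit 90160) (nat_lit 11) .nil)))))) (.g (nat_lit 6) .nil .nil))))) (.nd (nat_lit 4) (.nd (nat_lit 5) 
(.lf (nat_lit 137673) (.g (nat_lit 611) (.e (nat_lit 24607) (nat_lit 3) (.e (nat_lit 98370) (nat_lit 28) (.e (nat_lit 450304) (nat_lit 3) .nil))) .nil)) 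
(.lf (nat_lit 137705) (.g (nat_lit 2860) (.e (nat_lit 24608) (nat_lit 3) (.e (nat_lit 98313) (nat_lit 9) (.e (nat_lit 336021) (nat_lit 3) (.e (nat_lit 98317) (nat_lit 9) (.e (nat_lit 336003) (nat_lit 2) (.e (nat_lit 90158) (nat_lit 11) .nil)))))) (.g (nat_lit 5) .nil .nil)))) (.nd (nat_lit 5) 
(.lf (nat_lit 137689) (.g (nat_lit 3645) (.e (nat_lit 24608) (nat_lit 3) (.e (nat_lit 98312) (nat_lit 9) (.e (nat_lit 336021) (nat_lit 3) (.e (nat_lit 98317) (nat_lit 9) (.e (nat_lit 336004) (nat_lit 2) (.e (nat_lit 90158) (nat_lit 11) .nil)))))) (.g (nat_lit 0) .nil .nil))) 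
(.lf (nat_lit 137721) (.g (nat_lit 2917) (.e (nat_lit 24608) (nat_lit 3) (.e (nat_lit 98317) (nat_lit 9) (.e (nat_lit 336004) (nat_lit 2) (.e (nat_lit 90158) (nat_lit 11) (.e (nat_lit 24603) (nat_lit 2) (.e (nat_lit 90160) (nat_lit 11) .nil)))))) (.g (nat_lit 0) .nil .nil)))))) (.nd (nat_lit 3) (.nd (nat_lit 4) (.nd (nat_lit 5) 
(.lf (nat_lit 137669) (.g (nat_lit 1247) (.e (nat_lit 24607) (nat_lit 3) (.e (nat_lit 98365) (nat_lit 26) (.e (nat_lit 426306) (nat_lit 12) (.e (nat_lit 475178) (nat_lit 24) .nil)))) .nil)) 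
(.lf (nat_lit 137701) (.g (nat_lit 2817) (.e (nat_lit 24608) (nat_lit 3) (.e (nat_lit 98313) (nat_lit 9) (.e (nat_lit 336012) (nat_lit 2) (.e (nat_lit 90160) (nat_lit 11) (.e (nat_lit 24603) (nat_lit 2) (.e (nat_lit 90160) (nat_lit 11) .nil)))))) (.g (nat_lit 4) .nil .nil)))) (.nd (nat_lit 5) 
(.lf (nat_lit 137685) (.g (nat_lit 2427) (.e (nat_lit 24608) (nat_lit 3) (.e (nat_lit 98312) (nat_lit 9) (.e (nat_lit 336021) (nat_lit 3) (.e (nat_lit 98313) (nat_lit 9) (.e (nat_lit 336002) (nat_lit 2) .nil))))) .nil)) 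
(.lf (nat_lit 137717) (.g (nat_lit 2264) (.e (nat_lit 24608) (nat_lit 3) (.e (nat_lit 98316) (nat_lit 9) (.e (nat_lit 336012) (nat_lit 2) (.e (nat_lit 90160) (nat_lit 11) (.e (nat_lit 24602) (nat_lit 2) (.e (nat_lit 90158) (nat_lit 11) .nil)))))) (.g (nat_lit 4) .nil .nil))))) (.nd (nat_lit 4) (.nd (nat_lit 5) 
(.lf (nat_lit 137677) (.g (nat_lit 3824) (.e (nat_lit 24607) (nat_lit 3) (.e (nat_lit 98388) (nat_lit 33) (.e (nat_lit 491566) (nat_lit 12) (.e (nat_lit 385068) (nat_lit 26) (.e (nat_lit 532508) (nat_lit 2) (.e (nat_lit 114432) (nat_lit 2) .nil)))))) (.g (nat_lit 5) .nil .nil))) 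
(.lf (nat_lit 137709) (.g (nat_lit 3411) (.e (nat_lit 24608) (nat_lit 3) (.e (nat_lit 98313) (nat_lit 9) (.e (nat_lit 336027) (nat_lit 3) (.e (nat_lit 98312) (nat_lit 9) (.e (nat_lit 336012) (nat_lit 2) (.e (nat_lit 90158) (nat_lit 11) .nil)))))) (.g (nat_lit 6) .nil .nil)))) (.nd (nat_lit 5) 
(.lf (nat_lit 137693) (.g (nat_lit 3144) (.e (nat_lit 24608) (nat_lit 3) (.e (nat_lit 98312) (nat_lit 9) (.e (nat_lit 336027) (nat_lit 3) (.e (nat_lit 98313) (nat_lit 9) (.e (nat_lit 336004) (nat_lit 2) (.e (nat_lit 90158) (nat_lit 11) .nil)))))) (.g (nat_lit 0) .nil .nil))) 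
(.lf (nat_lit 137725) (.g (nat_lit 2779) (.e (nat_lit 24608) (nat_lit 3) (.e (nat_lit 98317) (nat_lit 9) (.e (nat_lit 336004) (nat_lit 2) (.e (nat_lit 90160) (nat_lit 11) (.e (nat_lit 24603) (nat_lit 2) (.e (nat_lit 90160) (nat_lit 11) .nil)))))) (.g (nat_lit 0) .nil .nil))))))) (.nd (nat_lit 2) (.nd (nat_lit 3) (.nd (nat_lit 4) (.nd (nat_lit 5) 
(.lf (nat_lit 137667) (.g (nat_lit 409) (.e (nat_lit 24607) (nat_lit 3) (.e (nat_lit 98365) (nat_lit 26) (.e (nat_lit 426306) (nat_lit 12) .nil))) .nil)) 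
(.lf (nat_lit 137699) (.g (nat_lit 3004) (.e (nat_lit 24608) (nat_lit 3) (.e (nat_lit 98313) (nat_lit 9) (.e (nat_lit 336012) (nat_lit 2) (.e (nat_lit 90160) (nat_lit 11) (.e (nat_lit 24593) (nat_lit 0) .nil))))) .nil))) (.nd (nat_lit 5) 
(.lf (nat_lit 137683) (.g (nat_lit 2051) (.e (nat_lit 24608) (nat_lit 3) (.e (nat_lit 98312) (nat_lit 9) (.e (nat_lit 336004) (nat_lit 2) (.e (nat_lit 90160) (nat_lit 11) (.e (nat_lit 24602) (nat_lit 2) (.e (nat_lit 90158) (nat_lit 11) .nil)))))) (.g (nat_lit 4) .nil .nil))) 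
(.lf (nat_lit 137715) (.g (nat_lit 3237) (.e (nat_lit 24608) (nat_lit 3) (.e (nat_lit 98313) (nat_lit 9) (.e (nat_lit 336027) (nat_lit 3) (.e (nat_lit 98317) (nat_lit 9) (.e (nat_lit 336012) (nat_lit 2) (.e (nat_lit 90160) (nat_lit 11) .nil)))))) (.g (nat_lit 6) .nil .nil))))) (.nd (nat_lit 4) (.nd (nat_lit 5) 
(.lf (nat_lit 137675) (.g (nat_lit 3923) (.e (nat_lit 24607) (nat_lit 3) (.e (nat_lit 98388) (nat_lit 33) (.e (nat_lit 491566) (nat_lit 12) (.e (nat_lit 385066) (nat_lit 26) (.e (nat_lit 532508) (nat_lit 2) (.e (nat_lit 114432) (nat_lit 2) .nil)))))) (.g (nat_lit 4) .nil .nil))) 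
(.lf (nat_lit 137707) (.g (nat_lit 2414) (.e (nat_lit 24608) (nat_lit 3) (.e (nat_lit 98313) (nat_lit 9) (.e (nat_lit 336021) (nat_lit 3) (.e (nat_lit 98317) (nat_lit 9) (.e (nat_lit 336009) (nat_lit 2) (.e (nat_lit 90158) (nat_lit 11) .nil)))))) (.g (nat_lit 4) .nil .nil)))) (.nd (nat_lit 5) 
(.lf (nat_lit 137691) (.g (nat_lit 2736) (.e (nat_lit 24608) (nat_lit 3) (.e (nat_lit 98312) (nat_lit 9) (.e (nat_lit 336025) (nat_lit 3) (.e (nat_lit 98313) (nat_lit 9) (.e (nat_lit 336012) (nat_lit 2) (.e (nat_lit 90158) (nat_lit 11) .nil)))))) (.g (nat_lit 0) .nil .nil))) 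
(.lf (nat_lit 137723) (.g (nat_lit 3449) (.e (nat_lit 24608) (nat_lit 3) (.e (nat_lit 98317) (nat_lit 9) (.e (nat_lit 336004) (nat_lit 2) (.e (nat_lit 90158) (nat_lit 11) (.e (nat_lit 24604) (nat_lit 2) (.e (nat_lit 90160) (nat_lit 11) .nil)))))) (.g (nat_lit 0) .nil .nil)))))) (.nd (nat_lit 3) (.nd (nat_lit 4) (.nd (nat_lit 5) 
(.lf (nat_lit 137671) (.g (nat_lit 2290) (.e (nat_lit 24607) (nat_lit 3) (.e (nat_lit 98365) (nat_lit 26) (.e (nat_lit 426306) (nat_lit 12) (.e (nat_lit 475178) (nat_lit 24) (.e (nat_lit 516127) (nat_lit 2) (.e (nat_lit 213031) (nat_lit 11) .nil)))))) (.g (nat_lit 5) .nil .nil))) 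
(.lf (nat_lit 137703) (.g (nat_lit 2256) (.e (nat_lit 24608) (nat_lit 3) (.e (nat_lit 98313) (nat_lit 9) (.e (nat_lit 336021) (nat_lit 3) (.e (nat_lit 98313) (nat_lit 9) (.e (nat_lit 336011) (nat_lit 2) (.e (nat_lit 90158) (nat_lit 11) .nil)))))) (.g (nat_lit 4) .nil .nil)))) (.nd (nat_lit 5) 
(.lf (nat_lit 137687) (.g (nat_lit 3646) (.e (nat_lit 24608) (nat_lit 3) (.e (nat_lit 98312) (nat_lit 9) (.e (nat_lit 336021) (nat_lit 3) (.e (nat_lit 98313) (nat_lit 9) (.e (nat_lit 336012) (nat_lit 2) (.e (nat_lit 90158) (nat_lit 11) .nil)))))) (.g (nat_lit 0) .nil .nil))) 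
(.lf (nat_lit 137719) (.g (nat_lit 2571) (.e (nat_lit 24608) (nat_lit 3) (.e (nat_lit 98317) (nat_lit 9) (.e (nat_lit 336002) (nat_lit 2) (.e (nat_lit 90158) (nat_lit 11) (.e (nat_lit 24603) (nat_lit 2) (.e (nat_lit 90160) (nat_lit 11) .nil)))))) (.g (nat_lit 0) .nil .nil))))) (.nd (nat_lit 4) (.nd (nat_lit 5) 
(.lf (nat_lit 137679) (.g (nat_lit 5118) (.e (nat_lit 24607) (nat_lit 3) (.e (nat_lit 98389) (nat_lit 33) (.e (nat_lit 491563) (nat_lit 12) (.e (nat_lit 385067) (nat_lit 26) (.e (nat_lit 532508) (nat_lit 2) (.e (nat_lit 114432) (nat_lit 2) .nil)))))) (.g (nat_lit 5) .nil .nil))) 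
(.lf (nat_lit 137711) (.g (nat_lit 2462) (.e (nat_lit 24608) (nat_lit 3) (.e (nat_lit 98313) (nat_lit 9) (.e (nat_lit 336027) (nat_lit 3) (.e (nat_lit 98317) (nat_lit 9) (.e (nat_lit 335892) (nat_lit 0) (.e (nat_lit 1709) (nat_lit 117) (.e (nat_lit 499900) (nat_lit 7) .nil))))))) (.g (nat_lit 4) .nil .nil)))) (.nd (nat_lit 5) 
(.lf (nat_lit 137695) (.g (nat_lit 3301) (.e (nat_lit 24608) (nat_lit 3) (.e (nat_lit 98312) (nat_lit 9) (.e (nat_lit 336027) (nat_lit 3) (.e (nat_lit 98317) (nat_lit 9) (.e (nat_lit 336004) (nat_lit 2) (.e (nat_lit 90158) (nat_lit 11) .nil)))))) (.g (nat_lit 0) .nil .nil))) 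
(.lf (nat_lit 137727) (.g (nat_lit 2399) (.e (nat_lit 24608) (nat_lit 3) (.e (nat_lit 98317) (nat_lit 9) (.e (nat_lit 336010) (nat_lit 2) (.e (nat_lit 90158) (nat_lit 11) (.e (nat_lit 24603) (nat_lit 2) (.e (nat_lit 90160) (nat_lit 11) .nil)))))) (.g (nat_lit 0) .nil .nil)))))))))

noncomputable def tv1829 : DT := (.nd (nat_lit 0) (.nd (nat_lit 1) (.nd (nat_lit 2) (.nd (nat_lit 3) (.nd (nat_lit 4) (.nd (nat_lit 5) 
(.lf (nat_lit 137728) (.g (nat_lit 2918) (.e (nat_lit 24608) (nat_lit 3) (.e (nat_lit 98317) (nat_lit 9) (.e (nat_lit 336010) (nat_lit 2) (.e (nat_lit 90158) (nat_lit 11) (.e (nat_lit 24604) (nat_lit 2) (.e (nat_lit 90160) (nat_lit 11) .nil)))))) (.g (nat_lit 0) .nil .nil))) 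
(.lf (nat_lit 137760) (.g (nat_lit 2062) (.e (nat_lit 24608) (nat_lit 3) (.e (nat_lit 98317) (nat_lit 9) (.e (nat_lit 336027) (nat_lit 3) (.e (nat_lit 98317) (nat_lit 9) (.e (nat_lit 336009) (nat_lit 2) (.e (nat_lit 90158) (nat_lit 11) .nil)))))) (.g (nat_lit 4) .nil .nil)))) (.nd (nat_lit 5) 
(.lf (nat_lit 137744) (.g (nat_lit 2985) (.e (nat_lit 24608) (nat_lit 3) (.e (nat_lit 98317) (nat_lit 9) (.e (nat_lit 336021) (nat_lit 3) (.e (nat_lit 98317) (nat_lit 9) (.e (nat_lit 335892) (nat_lit 0) (.e (nat_lit 1709) (nat_lit 117) (.e (nat_lit 499900) (nat_lit 7) .nil))))))) (.g (nat_lit 4) .nil .nil))) 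
(.lf (nat_lit 137776) (.g (nat_lit 4411) (.e (nat_lit 24608) (nat_lit 3) (.e (nat_lit 98341) (nat_lit 20) (.e (nat_lit 221215) (nat_lit 23) (.e (nat_lit 204828) (nat_lit 18) (.e (nat_lit 57849) (nat_lit 252) (.e (nat_lit 57372) (nat_lit 2) (.e (nat_lit 90160) (nat_lit 11) .nil))))))) (.g (nat_lit 6) .nil .nil))))) (.nd (nat_lit 4) (.nd (nat_lit 5) 
(.lf (nat_lit 137736) (.g (nat_lit 3123) (.e (nat_lit 24608) (nat_lit 3) (.e (nat_lit 98317) (nat_lit 9) (.e (nat_lit 336012) (nat_lit 2) (.e (nat_lit 90160) (nat_lit 11) (.e (nat_lit 24580) (nat_lit 0) (.e (nat_lit 1764) (nat_lit 117) (.e (nat_lit 499900) (nat_lit 7) .nil))))))) (.g (nat_lit 4) .nil .nil))) 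
(.lf (nat_lit 137768) (.g (nat_lit 4447) (.e (nat_lit 24608) (nat_lit 3) (.e (nat_lit 98341) (nat_lit 20) (.e (nat_lit 221214) (nat_lit 23) (.e (nat_lit 204829) (nat_lit 18) (.e (nat_lit 57847) (nat_lit 252) (.e (nat_lit 57375) (nat_lit 2) (.e (nat_lit 90160) (nat_lit 11) .nil))))))) (.g (nat_lit 7) .nil .nil)))) (.nd (nat_lit 5) 
(.lf (nat_lit 137752) (.g (nat_lit 3593) (.e (nat_lit 24608) (nat_lit 3) (.e (nat_lit 98317) (nat_lit 9) (.e (nat_lit 336021) (nat_lit 3) (.e (nat_lit 98317) (nat_lit 9) (.e (nat_lit 336012) (nat_lit 2) (.e (nat_lit 90160) (nat_lit 11) .nil)))))) (.g (nat_lit 0) .nil .nil))) 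
(.lf (nat_lit 137784) (.g (nat_lit 3392) (.e (nat_lit 24608) (nat_lit 3) (.e (nat_lit 98342) (nat_lit 20) (.e (nat_lit 221213) (nat_lit 23) (.e (nat_lit 204830) (nat_lit 18) (.e (nat_lit 57852) (nat_lit 252) (.e (nat_lit 57373) (nat_lit 2) (.e (nat_lit 90158) (nat_lit 11) .nil))))))) (.g (nat_lit 5) .nil .nil)))))) (.nd (nat_lit 3) (.nd (nat_lit 4) (.nd (nat_lit 5) 
(.lf (nat_lit 137732) (.g (nat_lit 1790) (.e (nat_lit 24608) (nat_lit 3) (.e (nat_lit 98317) (nat_lit 9) (.e (nat_lit 336012) (nat_lit 2) (.e (nat_lit 90128) (nat_lit 9) (.e (nat_lit 307) (nat_lit 22) .nil))))) .nil)) 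
(.lf (nat_lit 137764) (.g (nat_lit 2983) (.e (nat_lit 24608) (nat_lit 3) (.e (nat_lit 98341) (nat_lit 20) (.e (nat_lit 221213) (nat_lit 23) (.e (nat_lit 204830) (nat_lit 18) (.e (nat_lit 57852) (nat_lit 252) (.e (nat_lit 57371) (nat_lit 2) (.e (nat_lit 90158) (nat_lit 11) .nil))))))) (.g (nat_lit 5) .nil .nil)))) (.nd (nat_lit 5) 
(.lf (nat_lit 137748) (.g (nat_lit 2443) (.e (nat_lit 24608) (nat_lit 3) (.e (nat_lit 98317) (nat_lit 9) (.e (nat_lit 336021) (nat_lit 3) (.e (nat_lit 98317) (nat_lit 9) (.e (nat_lit 336009) (nat_lit 2) (.e (nat_lit 90160) (nat_lit 11) .nil)))))) (.g (nat_lit 4) .nil .nil))) 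
(.lf (nat_lit 137780) (.g (nat_lit 2706) (.e (nat_lit 24608) (nat_lit 3) (.e (nat_lit 98341) (nat_lit 20) (.e (nat_lit 221215) (nat_lit 23) (.e (nat_lit 204831) (nat_lit 18) (.e (nat_lit 57849) (nat_lit 252) (.e (nat_lit 57375) (nat_lit 2) (.e (nat_lit 90158) (nat_lit 11) .nil))))))) (.g (nat_lit 4) .nil .nil))))) (.nd (nat_lit 4) (.nd (nat_lit 5) 
(.lf (nat_lit 137740) (.g (nat_lit 3445) (.e (nat_lit 24608) (nat_lit 3) (.e (nat_lit 98317) (nat_lit 9) (.e (nat_lit 336012) (nat_lit 2) (.e (nat_lit 90160) (nat_lit 11) (.e (nat_lit 24604) (nat_lit 2) (.e (nat_lit 90160) (nat_lit 11) .nil)))))) (.g (nat_lit 6) .nil .nil))) 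
(.lf (nat_lit 137772) (.g (nat_lit 5055) (.e (nat_lit 24608) (nat_lit 3) (.e (nat_lit 98341) (nat_lit 20) (.e (nat_lit 221214) (nat_lit 23) (.e (nat_lit 204830) (nat_lit 18) (.e (nat_lit 57852) (nat_lit 252) (.e (nat_lit 57373) (nat_lit 2) (.e (nat_lit 90158) (nat_lit 11) .nil))))))) (.g (nat_lit 7) .nil .nil)))) (.nd (nat_lit 5) 
(.lf (nat_lit 137756) (.g (nat_lit 3374) (.e (nat_lit 24608) (nat_lit 3) (.e (nat_lit 98317) (nat_lit 9) (.e (nat_lit 336027) (nat_lit 3) (.e (nat_lit 98312) (nat_lit 9) (.e (nat_lit 336012) (nat_lit 2) (.e (nat_lit 90158) (nat_lit 11) .nil)))))) (.g (nat_lit 6) .nil .nil))) 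
(.lf (nat_lit 137788) (.g (nat_lit 3534) (.e (nat_lit 24608) (nat_lit 3) (.e (nat_lit 98342) (nat_lit 20) (.e (nat_lit 221214) (nat_lit 23) (.e (nat_lit 204829) (nat_lit 18) (.e (nat_lit 57849) (nat_lit 252) (.e (nat_lit 57372) (nat_lit 2) (.e (nat_lit 90158) (nat_lit 11) .nil))))))) (.g (nat_lit 6) .nil .nil))))))) (.nd (nat_lit 2) (.nd (nat_lit 3) (.nd (nat_lit 4) (.nd (nat_lit 5) 
(.lf (nat_lit 137730) (.g (nat_lit 1990) (.e (nat_lit 24608) (nat_lit 3) (.e (nat_lit 98317) (nat_lit 9) (.e (nat_lit 336011) (nat_lit 2) (.e (nat_lit 90160) (nat_lit 11) (.e (nat_lit 24602) (nat_lit 2) .nil))))) .nil)) 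
(.lf (nat_lit 137762) (.g (nat_lit 1134) (.e (nat_lit 24608) (nat_lit 3) (.e (nat_lit 98333) (nat_lit 18) (.e (nat_lit 164182) (nat_lit 154) .nil))) .nil))) (.nd (nat_lit 5) 
(.lf (nat_lit 137746) (.g (nat_lit 3386) (.e (nat_lit 24608) (nat_lit 3) (.e (nat_lit 98317) (nat_lit 9) (.e (nat_lit 336021) (nat_lit 3) (.e (nat_lit 98317) (nat_lit 9) (.e (nat_lit 336004) (nat_lit 2) (.e (nat_lit 90160) (nat_lit 11) .nil)))))) (.g (nat_lit 0) .nil .nil))) 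
(.lf (nat_lit 137778) (.g (nat_lit 3754) (.e (nat_lit 24608) (nat_lit 3) (.e (nat_lit 98341) (nat_lit 20) (.e (nat_lit 221215) (nat_lit 23) (.e (nat_lit 204830) (nat_lit 18) (.e (nat_lit 57852) (nat_lit 252) (.e (nat_lit 57371) (nat_lit 2) (.e (nat_lit 90158) (nat_lit 11) .nil))))))) (.g (nat_lit 6) .nil .nil))))) (.nd (nat_lit 4) (.nd (nat_lit 5) 
(.lf (nat_lit 137738) (.g (nat_lit 2483) (.e (nat_lit 24608) (nat_lit 3) (.e (nat_lit 98317) (nat_lit 9) (.e (nat_lit 336012) (nat_lit 2) (.e (nat_lit 90160) (nat_lit 11) (.e (nat_lit 24601) (nat_lit 2) (.e (nat_lit 90158) (nat_lit 11) .nil)))))) (.g (nat_lit 4) .nil .nil))) 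
(.lf (nat_lit 137770) (.g (nat_lit 4983) (.e (nat_lit 24608) (nat_lit 3) (.e (nat_lit 98341) (nat_lit 20) (.e (nat_lit 221214) (nat_lit 23) (.e (nat_lit 204829) (nat_lit 18) (.e (nat_lit 57849) (nat_lit 252) (.e (nat_lit 57372) (nat_lit 2) (.e (nat_lit 90160) (nat_lit 11) .nil))))))) (.g (nat_lit 7) .nil .nil)))) (.nd (nat_lit 5) 
(.lf (nat_lit 137754) (.g (nat_lit 2701) (.e (nat_lit 24608) (nat_lit 3) (.e (nat_lit 98317) (nat_lit 9) (.e (nat_lit 336026) (nat_lit 3) (.e (nat_lit 98317) (nat_lit 9) (.e (nat_lit 336004) (nat_lit 2) (.e (nat_lit 90160) (nat_lit 11) .nil)))))) (.g (nat_lit 0) .nil .nil))) 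
(.lf (nat_lit 137786) (.g (nat_lit 2821) (.e (nat_lit 24608) (nat_lit 3) (.e (nat_lit 98342) (nat_lit 20) (.e (nat_lit 221214) (nat_lit 23) (.e (nat_lit 204829) (nat_lit 18) (.e (nat_lit 57847) (nat_lit 252) (.e (nat_lit 57373) (nat_lit 2) (.e (nat_lit 90158) (nat_lit 11) .nil))))))) (.g (nat_lit 5) .nil .nil)))))) (.nd (nat_lit 3) (.nd (nat_lit 4) (.nd (nat_lit 5) 
(.lf (nat_lit 137734) (.g (nat_lit 3067) (.e (nat_lit 24608) (nat_lit 3) (.e (nat_lit 98317) (nat_lit 9) (.e (nat_lit 336012) (nat_lit 2) (.e (nat_lit 90158) (nat_lit 11) (.e (nat_lit 24603) (nat_lit 2) (.e (nat_lit 90160) (nat_lit 11) .nil)))))) (.g (nat_lit 0) .nil .nil))) 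
(.lf (nat_lit 137766) (.g (nat_lit 3682) (.e (nat_lit 24608) (nat_lit 3) (.e (nat_lit 98341) (nat_lit 20) (.e (nat_lit 221214) (nat_lit 23) (.e (nat_lit 204829) (nat_lit 18) (.e (nat_lit 57847) (nat_lit 252) (.e (nat_lit 57372) (nat_lit 2) (.e (nat_lit 90158) (nat_lit 11) .nil))))))) (.g (nat_lit 6) .nil .nil)))) (.nd (nat_lit 5) 
(.lf (nat_lit 137750) (.g (nat_lit 1941) (.e (nat_lit 24608) (nat_lit 3) (.e (nat_lit 98317) (nat_lit 9) (.e (nat_lit 336021) (nat_lit 3) (.e (nat_lit 98317) (nat_lit 9) (.e (nat_lit 336011) (nat_lit 2) (.e (nat_lit 90158) (nat_lit 11) .nil)))))) (.g (nat_lit 4) .nil .nil))) 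
(.lf (nat_lit 137782) (.g (nat_lit 1659) (.e (nat_lit 24608) (nat_lit 3) (.e (nat_lit 98342) (nat_lit 20) (.e (nat_lit 221210) (nat_lit 22) (.e (nat_lit 196658) (nat_lit 12) (.e (nat_lit 57354) (nat_lit 0) .nil))))) .nil)))) (.nd (nat_lit 4) (.nd (nat_lit 5) 
(.lf (nat_lit 137742) (.g (nat_lit 2269) (.e (nat_lit 24608) (nat_lit 3) (.e (nat_lit 98317) (nat_lit 9) (.e (nat_lit 336021) (nat_lit 3) (.e (nat_lit 98313) (nat_lit 9) (.e (nat_lit 336011) (nat_lit 2) (.e (nat_lit 90158) (nat_lit 11) .nil)))))) (.g (nat_lit 4) .nil .nil))) 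
(.lf (nat_lit 137774) (.g (nat_lit 2613) (.e (nat_lit 24608) (nat_lit 3) (.e (nat_lit 98341) (nat_lit 20) (.e (nat_lit 221214) (nat_lit 23) (.e (nat_lit 204831) (nat_lit 18) (.e (nat_lit 57849) (nat_lit 252) (.e (nat_lit 57375) (nat_lit 2) (.e (nat_lit 90158) (nat_lit 11) .nil))))))) (.g (nat_lit 4) .nil .nil)))) (.nd (nat_lit 5) 
(.lf (nat_lit 137758) (.g (nat_lit 1659) (.e (nat_lit 24608) (nat_lit 3) (.e (nat_lit 98317) (nat_lit 9) (.e (nat_lit 336027) (nat_lit 3) (.e (nat_lit 98317) (nat_lit 9) (.e (nat_lit 335914) (nat_lit 0) .nil))))) .nil)) 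
(.lf (nat_lit 137790) (.g (nat_lit 3755) (.e (nat_lit 24608) (nat_lit 3) (.e (nat_lit 98342) (nat_lit 20) (.e (nat_lit 221214) (nat_lit 23) (.e (nat_lit 204830) (nat_lit 18) (.e (nat_lit 57852) (nat_lit 252) (.e (nat_lit 57371) (nat_lit 2) (.e (nat_lit 90158) (nat_lit 11) .nil))))))) (.g (nat_lit 5) .nil .nil)))))))) 
(.nd (nat_lit 1) (.nd (nat_lit 2) (.nd (nat_lit 3) (.nd (nat_lit 4) (.nd (nat_lit 5) 
(.lf (nat_lit 137729) (.g (nat_lit 964) (.e (nat_lit 24608) (nat_lit 3) (.e (nat_lit 98317) (nat_lit 9) (.e (nat_lit 336011) (nat_lit 2) (.e (nat_lit 90158) (nat_lit 11) .nil)))) .nil)) 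
(.lf (nat_lit 137761) (.g (nat_lit 3250) (.e (nat_lit 24608) (nat_lit 3) (.e (nat_lit 98317) (nat_lit 9) (.e (nat_lit 336027) (nat_lit 3) (.e (nat_lit 98317) (nat_lit 9) (.e (nat_lit 336012) (nat_lit 2) (.e (nat_lit 90160) (nat_lit 11) .nil)))))) (.g (nat_lit 0) .nil .nil)))) (.nd (nat_lit 5) 
(.lf (nat_lit 137745) (.g (nat_lit 3760) (.e (nat_lit 24608) (nat_lit 3) (.e (nat_lit 98317) (nat_lit 9) (.e (nat_lit 336021) (nat_lit 3) (.e (nat_lit 98317) (nat_lit 9) (.e (nat_lit 336004) (nat_lit 2) (.e (nat_lit 90158) (nat_lit 11) .nil)))))) (.g (nat_lit 0) .nil .nil))) 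
(.lf (nat_lit 137777) (.g (nat_lit 2753) (.e (nat_lit 24608) (nat_lit 3) (.e (nat_lit 98341) (nat_lit 20) (.e (nat_lit 221215) (nat_lit 23) (.e (nat_lit 204829) (nat_lit 18) (.e (nat_lit 57847) (nat_lit 252) (.e (nat_lit 57373) (nat_lit 2) (.e (nat_lit 90158) (nat_lit 11) .nil))))))) (.g (nat_lit 5) .nil .nil))))) (.nd (nat_lit 4) (.nd (nat_lit 5) 
(.lf (nat_lit 137737) (.g (nat_lit 2952) (.e (nat_lit 24608) (nat_lit 3) (.e (nat_lit 98317) (nat_lit 9) (.e (nat_lit 336012) (nat_lit 2) (.e (nat_lit 90160) (nat_lit 11) (.e (nat_lit 24593) (nat_lit 0) (.e (nat_lit 1721) (nat_lit 117) (.e (nat_lit 499900) (nat_lit 7) .nil))))))) (.g (nat_lit 4) .nil .nil))) 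
(.lf (nat_lit 137769) (.g (nat_lit 3959) (.e (nat_lit 24608) (nat_lit 3) (.e (nat_lit 98341) (nat_lit 20) (.e (nat_lit 221214) (nat_lit 23) (.e (nat_lit 204829) (nat_lit 18) (.e (nat_lit 57849) (nat_lit 252) (.e (nat_lit 57372) (nat_lit 2) (.e (nat_lit 90158) (nat_lit 11) .nil))))))) (.g (nat_lit 7) .nil .nil)))) (.nd (nat_lit 5) 
(.lf (nat_lit 137753) (.g (nat_lit 1804) (.e (nat_lit 24608) (nat_lit 3) (.e (nat_lit 98317) (nat_lit 9) (.e (nat_lit 336026) (nat_lit 3) (.e (nat_lit 98317) (nat_lit 9) (.e (nat_lit 336003) (nat_lit 2) (.e (nat_lit 90158) (nat_lit 11) .nil)))))) (.g (nat_lit 4) .nil .nil))) 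
(.lf (nat_lit 137785) (.g (nat_lit 4739) (.e (nat_lit 24608) (nat_lit 3) (.e (nat_lit 98342) (nat_lit 20) (.e (nat_lit 221214) (nat_lit 23) (.e (nat_lit 204829) (nat_lit 18) (.e (nat_lit 57847) (nat_lit 252) (.e (nat_lit 57372) (nat_lit 2) (.e (nat_lit 90160) (nat_lit 11) .nil))))))) (.g (nat_lit 7) .nil .nil)))))) (.nd (nat_lit 3) (.nd (nat_lit 4) (.nd (nat_lit 5) 
(.lf (nat_lit 137733) (.g (nat_lit 1669) (.e (nat_lit 24608) (nat_lit 3) (.e (nat_lit 98317) (nat_lit 9) (.e (nat_lit 336012) (nat_lit 2) (.e (nat_lit 90137) (nat_lit 9) (.e (nat_lit 247) (nat_lit 21) .nil))))) .nil)) 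
(.lf (nat_lit 137765) (.g (nat_lit 2956) (.e (nat_lit 24608) (nat_lit 3) (.e (nat_lit 98341) (nat_lit 20) (.e (nat_lit 221214) (nat_lit 23) (.e (nat_lit 204828) (nat_lit 18) (.e (nat_lit 57849) (nat_lit 252) (.e (nat_lit 57372) (nat_lit 2) (.e (nat_lit 90158) (nat_lit 11) .nil))))))) (.g (nat_lit 5) .nil .nil)))) (.nd (nat_lit 5) 
(.lf (nat_lit 137749) (.g (nat_lit 1803) (.e (nat_lit 24608) (nat_lit 3) (.e (nat_lit 98317) (nat_lit 9) (.e (nat_lit 336021) (nat_lit 3) (.e (nat_lit 98317) (nat_lit 9) (.e (nat_lit 336011) (nat_lit 2) .nil))))) .nil)) 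
(.lf (nat_lit 137781) (.g (nat_lit 2782) (.e (nat_lit 24608) (nat_lit 3) (.e (nat_lit 98341) (nat_lit 20) (.e (nat_lit 221215) (nat_lit 23) (.e (nat_lit 204831) (nat_lit 18) (.e (nat_lit 57852) (nat_lit 252) (.e (nat_lit 57373) (nat_lit 2) (.e (nat_lit 90160) (nat_lit 11) .nil))))))) (.g (nat_lit 4) .nil .nil))))) (.nd (nat_lit 4) (.nd (nat_lit 5) 
(.lf (nat_lit 137741) (.g (nat_lit 2527) (.e (nat_lit 24608) (nat_lit 3) (.e (nat_lit 98317) (nat_lit 9) (.e (nat_lit 336021) (nat_lit 3) (.e (nat_lit 98313) (nat_lit 9) (.e (nat_lit 336002) (nat_lit 2) (.e (nat_lit 90158) (nat_lit 11) .nil)))))) (.g (nat_lit 4) .nil .nil))) 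
(.lf (nat_lit 137773) (.g (nat_lit 2938) (.e (nat_lit 24608) (nat_lit 3) (.e (nat_lit 98341) (nat_lit 20) (.e (nat_lit 221214) (nat_lit 23) (.e (nat_lit 204831) (nat_lit 18) (.e (nat_lit 57849) (nat_lit 252) (.e (nat_lit 57372) (nat_lit 2) (.e (nat_lit 90160) (nat_lit 11) .nil))))))) (.g (nat_lit 4) .nil .nil)))) (.nd (nat_lit 5) 
(.lf (nat_lit 137757) (.g (nat_lit 1777) (.e (nat_lit 24608) (nat_lit 3) (.e (nat_lit 98317) (nat_lit 9) (.e (nat_lit 336027) (nat_lit 3) (.e (nat_lit 98316) (nat_lit 9) (.e (nat_lit 336003) (nat_lit 2) (.e (nat_lit 90158) (nat_lit 11) .nil)))))) (.g (nat_lit 4) .nil .nil))) 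
(.lf (nat_lit 137789) (.g (nat_lit 3602) (.e (nat_lit 24608) (nat_lit 3) (.e (nat_lit 98342) (nat_lit 20) (.e (nat_lit 221214) (nat_lit 23) (.e (nat_lit 204829) (nat_lit 18) (.e (nat_lit 57849) (nat_lit 252) (.e (nat_lit 57375) (nat_lit 2) (.e (nat_lit 90158) (nat_lit 11) .nil))))))) (.g (nat_lit 6) .nil .nil))))))) (.nd (nat_lit 2) (.nd (nat_lit 3) (.nd (nat_lit 4) (.nd (nat_lit 5) 
(.lf (nat_lit 137731) (.g (nat_lit 1479) (.e (nat_lit 24608) (nat_lit 3) (.e (nat_lit 98317) (nat_lit 9) (.e (nat_lit 336012) (nat_lit 2) (.e (nat_lit 90125) (nat_lit 9) (.e (nat_lit 327) (nat_lit 25) .nil))))) .nil)) 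
(.lf (nat_lit 137763) (.g (nat_lit 2174) (.e (nat_lit 24608) (nat_lit 3) (.e (nat_lit 98341) (nat_lit 20) (.e (nat_lit 221210) (nat_lit 22) (.e (nat_lit 196661) (nat_lit 12) (.e (nat_lit 57357) (nat_lit 0) .nil))))) .nil))) (.nd (nat_lit 5) 
(.lf (nat_lit 137747) (.g (nat_lit 2451) (.e (nat_lit 24608) (nat_lit 3) (.e (nat_lit 98317) (nat_lit 9) (.e (nat_lit 336021) (nat_lit 3) (.e (nat_lit 98317) (nat_lit 9) (.e (nat_lit 336009) (nat_lit 2) (.e (nat_lit 90158) (nat_lit 11) .nil)))))) (.g (nat_lit 4) .nil .nil))) 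
(.lf (nat_lit 137779) (.g (nat_lit 3983) (.e (nat_lit 24608) (nat_lit 3) (.e (nat_lit 98341) (nat_lit 20) (.e (nat_lit 221215) (nat_lit 23) (.e (nat_lit 204830) (nat_lit 18) (.e (nat_lit 57854) (nat_lit 252) (.e (nat_lit 57371) (nat_lit 2) (.e (nat_lit 90160) (nat_lit 11) .nil))))))) (.g (nat_lit 7) .nil .nil))))) (.nd (nat_lit 4) (.nd (nat_lit 5) 
(.lf (nat_lit 137739) (.g (nat_lit 2964) (.e (nat_lit 24608) (nat_lit 3) (.e (nat_lit 98317) (nat_lit 9) (.e (nat_lit 336012) (nat_lit 2) (.e (nat_lit 90160) (nat_lit 11) (.e (nat_lit 24603) (nat_lit 2) (.e (nat_lit 90160) (nat_lit 11) .nil)))))) (.g (nat_lit 0) .nil .nil))) 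
(.lf (nat_lit 137771) (.g (nat_lit 2547) (.e (nat_lit 24608) (nat_lit 3) (.e (nat_lit 98341) (nat_lit 20) (.e (nat_lit 221214) (nat_lit 23) (.e (nat_lit 204830) (nat_lit 18) (.e (nat_lit 57851) (nat_lit 252) (.e (nat_lit 57371) (nat_lit 2) (.e (nat_lit 90160) (nat_lit 11) .nil))))))) (.g (nat_lit 4) .nil .nil)))) (.nd (nat_lit 5) 
(.lf (nat_lit 137755) (.g (nat_lit 2907) (.e (nat_lit 24608) (nat_lit 3) (.e (nat_lit 98317) (nat_lit 9) (.e (nat_lit 336026) (nat_lit 3) (.e (nat_lit 98317) (nat_lit 9) (.e (nat_lit 336012) (nat_lit 2) (.e (nat_lit 90160) (nat_lit 11) .nil)))))) (.g (nat_lit 0) .nil .nil))) 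
(.lf (nat_lit 137787) (.g (nat_lit 4306) (.e (nat_lit 24608) (nat_lit 3) (.e (nat_lit 98342) (nat_lit 20) (.e (nat_lit 221214) (nat_lit 23) (.e (nat_lit 204829) (nat_lit 18) (.e (nat_lit 57847) (nat_lit 252) (.e (nat_lit 57375) (nat_lit 2) (.e (nat_lit 90160) (nat_lit 11) .nil))))))) (.g (nat_lit 7) .nil .nil)))))) (.nd (nat_lit 3) (.nd (nat_lit 4) (.nd (nat_lit 5) 
(.lf (nat_lit 137735) (.g (nat_lit 3555) (.e (nat_lit 24608) (nat_lit 3) (.e (nat_lit 98317) (nat_lit 9) (.e (nat_lit 336012) (nat_lit 2) (.e (nat_lit 90158) (nat_lit 11) (.e (nat_lit 24604) (nat_lit 2) (.e (nat_lit 90160) (nat_lit 11) .nil)))))) (.g (nat_lit 0) .nil .nil))) 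
(.lf (nat_lit 137767) (.g (nat_lit 3246) (.e (nat_lit 24608) (nat_lit 3) (.e (nat_lit 98341) (nat_lit 20) (.e (nat_lit 221214) (nat_lit 23) (.e (nat_lit 204829) (nat_lit 18) (.e (nat_lit 57847) (nat_lit 252) (.e (nat_lit 57373) (nat_lit 2) (.e (nat_lit 90158) (nat_lit 11) .nil))))))) (.g (nat_lit 5) .nil .nil)))) (.nd (nat_lit 5) 
(.lf (nat_lit 137751) (.g (nat_lit 3896) (.e (nat_lit 24608) (nat_lit 3) (.e (nat_lit 98317) (nat_lit 9) (.e (nat_lit 336021) (nat_lit 3) (.e (nat_lit 98317) (nat_lit 9) (.e (nat_lit 336012) (nat_lit 2) (.e (nat_lit 90158) (nat_lit 11) .nil)))))) (.g (nat_lit 0) .nil .nil))) 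
(.lf (nat_lit 137783) (.g (nat_lit 2638) (.e (nat_lit 24608) (nat_lit 3) (.e (nat_lit 98342) (nat_lit 20) (.e (nat_lit 221213) (nat_lit 23) (.e (nat_lit 204830) (nat_lit 18) (.e (nat_lit 57852) (nat_lit 252) (.e (nat_lit 57371) (nat_lit 2) (.e (nat_lit 90158) (nat_lit 11) .nil))))))) (.g (nat_lit 5) .nil .nil))))) (.nd (nat_lit 4) (.nd (nat_lit 5) 
(.lf (nat_lit 137743) (.g (nat_lit 3388) (.e (nat_lit 24608) (nat_lit 3) (.e (nat_lit 98317) (nat_lit 9) (.e (nat_lit 336021) (nat_lit 3) (.e (nat_lit 98313) (nat_lit 9) (.e (nat_lit 336012) (nat_lit 2) (.e (nat_lit 90160) (nat_lit 11) .nil)))))) (.g (nat_lit 6) .nil .nil))) 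
(.lf (nat_lit 137775) (.g (nat_lit 3419) (.e (nat_lit 24608) (nat_lit 3) (.e (nat_lit 98341) (nat_lit 20) (.e (nat_lit 221215) (nat_lit 23) (.e (nat_lit 204828) (nat_lit 18) (.e (nat_lit 57849) (nat_lit 252) (.e (nat_lit 57372) (nat_lit 2) (.e (nat_lit 90158) (nat_lit 11) .nil))))))) (.g (nat_lit 6) .nil .nil)))) (.nd (nat_lit 5) 
(.lf (nat_lit 137759) (.g (nat_lit 3042) (.e (nat_lit 24608) (nat_lit 3) (.e (nat_lit 98317) (nat_lit 9) (.e (nat_lit 336027) (nat_lit 3) (.e (nat_lit 98317) (nat_lit 9) (.e (nat_lit 336004) (nat_lit 2) (.e (nat_lit 90160) (nat_lit 11) .nil)))))) (.g (nat_lit 0) .nil .nil))) 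
(.lf (nat_lit 137791) (.g (nat_lit 4674) (.e (nat_lit 24608) (nat_lit 3) (.e (nat_lit 98342) (nat_lit 20) (.e (nat_lit 221214) (nat_lit 23) (.e (nat_lit 204830) (nat_lit 18) (.e (nat_lit 57852) (nat_lit 252) (.e (nat_lit 57371) (nat_lit 2) (.e (nat_lit 90160) (nat_lit 11) .nil))))))) (.g (nat_lit 6) .nil .nil)))))))))

noncomputable def tv1830 : DT := (.nd (nat_lit 0) (.nd (nat_lit 1) (.nd (nat_lit 2) (.nd (nat_lit 3) (.nd (nat_lit 4) (.nd (nat_lit 5) 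
(.lf (nat_lit 137792) (.g (nat_lit 4106) (.e (nat_lit 24608) (nat_lit 3) (.e (nat_lit 98342) (nat_lit 20) (.e (nat_lit 221214) (nat_lit 23) (.e (nat_lit 204830) (nat_lit 18) (.e (nat_lit 57854) (nat_lit 252) (.e (nat_lit 57371) (nat_lit 2) (.e (nat_lit 90160) (nat_lit 11) .nil))))))) (.g (nat_lit 7) .nil .nil))) 
(.lf (nat_lit 137824) (.g (nat_lit 3715) (.e (nat_lit 24608) (nat_lit 3) (.e (nat_lit 98365) (nat_lit 26) (.e (nat_lit 426188) (nat_lit 9) (.e (nat_lit 426428) (nat_lit 17) (.e (nat_lit 90165) (nat_lit 12) (.e (nat_lit 164049) (nat_lit 55) (.e (nat_lit 778466) (nat_lit 11) .nil))))))) (.g (nat_lit 0) .nil .nil)))) (.nd (nat_lit 5) 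
(.lf (nat_lit 137808) (.g (nat_lit 427) (.e (nat_lit 24608) (nat_lit 3) (.e (nat_lit 98365) (nat_lit 26) (.e (nat_lit 426187) (nat_lit 9) .nil))) .nil)) 
(.lf (nat_lit 137840) (.g (nat_lit 2862) (.e (nat_lit 24608) (nat_lit 3) (.e (nat_lit 98365) (nat_lit 26) (.e (nat_lit 426306) (nat_lit 12) (.e (nat_lit 475179) (nat_lit 24) (.e (nat_lit 516106) (nat_lit 0) (.e (nat_lit 3665) (nat_lit 227) (.e (nat_lit 778460) (nat_lit 11) .nil))))))) (.g (nat_lit 4) .nil .nil))))) (.nd (nat_lit 4) (.nd (nat_lit 5) 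
(.lf (nat_lit 137800) (.g (nat_lit 2929) (.e (nat_lit 24608) (nat_lit 3) (.e (nat_lit 98342) (nat_lit 20) (.e (nat_lit 221215) (nat_lit 23) (.e (nat_lit 204830) (nat_lit 18) (.e (nat_lit 57854) (nat_lit 252) (.e (nat_lit 57371) (nat_lit 2) (.e (nat_lit 90158) (nat_lit 11) .nil))))))) (.g (nat_lit 5) .nil .nil))) 
(.lf (nat_lit 137832) (.g (nat_lit 2419) (.e (nat_lit 24608) (nat_lit 3) (.e (nat_lit 98365) (nat_lit 26) (.e (nat_lit 426298) (nat_lit 11) (.e (nat_lit 458789) (nat_lit 23) (.e (nat_lit 532481) (nat_lit 0) (.e (nat_lit 1919) (nat_lit 130) (.e (nat_lit 606243) (nat_lit 11) .nil))))))) (.g (nat_lit 4) .nil .nil)))) (.nd (nat_lit 5) 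
(.lf (nat_lit 137816) (.g (nat_lit 2327) (.e (nat_lit 24608) (nat_lit 3) (.e (nat_lit 98365) (nat_lit 26) (.e (nat_lit 426187) (nat_lit 9) (.e (nat_lit 426436) (nat_lit 18) (.e (nat_lit 98348) (nat_lit 23) (.e (nat_lit 262165) (nat_lit 11) .nil)))))) (.g (nat_lit 4) .nil .nil))) 
(.lf (nat_lit 137848) (.g (nat_lit 3254) (.e (nat_lit 24608) (nat_lit 3) (.e (nat_lit 98372) (nat_lit 29) (.e (nat_lit 450586) (nat_lit 10) (.e (nat_lit 573456) (nat_lit 9) (.e (nat_lit 1312) (nat_lit 98) (.e (nat_lit 147493) (nat_lit 11) .nil)))))) (.g (nat_lit 4) .nil .nil)))))) (.nd (nat_lit 3) (.nd (nat_lit 4) (.nd (nat_lit 5) 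
(.lf (nat_lit 137796) (.g (nat_lit 3529) (.e (nat_lit 24608) (nat_lit 3) (.e (nat_lit 98342) (nat_lit 20) (.e (nat_lit 221215) (nat_lit 23) (.e (nat_lit 204829) (nat_lit 18) (.e (nat_lit 57849) (nat_lit 252) (.e (nat_lit 57372) (nat_lit 2) (.e (nat_lit 90158) (nat_lit 11) .nil))))))) (.g (nat_lit 6) .nil .nil))) 
(.lf (nat_lit 137828) (.g (nat_lit 1055) (.e (nat_lit 24608) (nat_lit 3) (.e (nat_lit 98365) (nat_lit 26) (.e (nat_lit 426188) (nat_lit 9) (.e (nat_lit 426436) (nat_lit 18) .nil)))) .nil))) (.nd (nat_lit 5) 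
(.lf (nat_lit 137812) (.g (nat_lit 3376) (.e (nat_lit 24608) (nat_lit 3) (.e (nat_lit 98365) (nat_lit 26) (.e (nat_lit 426187) (nat_lit 9) (.e (nat_lit 426428) (nat_lit 17) (.e (nat_lit 90165) (nat_lit 12) (.e (nat_lit 164049) (nat_lit 55) (.e (nat_lit 778466) (nat_lit 11) .nil))))))) (.g (nat_lit 0) .nil .nil))) 
(.lf (nat_lit 137844) (.g (nat_lit 2631) (.e (nat_lit 24608) (nat_lit 3) (.e (nat_lit 98370) (nat_lit 28) (.e (nat_lit 442374) (nat_lit 0) (.e (nat_lit 1800) (nat_lit 119) (.e (nat_lit 516127) (nat_lit 2) (.e (nat_lit 213030) (nat_lit 11) .nil)))))) (.g (nat_lit 0) .nil .nil))))) (.nd (nat_lit 4) (.nd (nat_lit 5) 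
(.lf (nat_lit 137804) (.g (nat_lit 3215) (.e (nat_lit 24608) (nat_lit 3) (.e (nat_lit 98342) (nat_lit 20) (.e (nat_lit 221215) (nat_lit 23) (.e (nat_lit 204831) (nat_lit 18) (.e (nat_lit 57854) (nat_lit 252) (.e (nat_lit 57371) (nat_lit 2) (.e (nat_lit 90160) (nat_lit 11) .nil))))))) (.g (nat_lit 4) .nil .nil))) 
(.lf (nat_lit 137836) (.g (nat_lit 1190) (.e (nat_lit 24608) (nat_lit 3) (.e (nat_lit 98365) (nat_lit 26) (.e (nat_lit 426306) (nat_lit 12) (.e (nat_lit 475174) (nat_lit 23) .nil)))) .nil))) (.nd (nat_lit 5) 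
(.lf (nat_lit 137820) (.g (nat_lit 1843) (.e (nat_lit 24608) (nat_lit 3) (.e (nat_lit 98365) (nat_lit 26) (.e (nat_lit 426188) (nat_lit 9) (.e (nat_lit 426428) (nat_lit 17) (.e (nat_lit 90165) (nat_lit 12) .nil))))) .nil)) 
(.lf (nat_lit 137852) (.g (nat_lit 3092) (.e (nat_lit 24608) (nat_lit 3) (.e (nat_lit 98372) (nat_lit 29) (.e (nat_lit 450588) (nat_lit 10) (.e (nat_lit 573451) (nat_lit 9) .nil)))) .nil)))))) (.nd (nat_lit 2) (.nd (nat_lit 3) (.nd (nat_lit 4) (.nd (nat_lit 5) 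
(.lf (nat_lit 137794) (.g (nat_lit 3188) (.e (nat_lit 24608) (nat_lit 3) (.e (nat_lit 98342) (nat_lit 20) (.e (nat_lit 221215) (nat_lit 23) (.e (nat_lit 204829) (nat_lit 18) (.e (nat_lit 57847) (nat_lit 252) (.e (nat_lit 57372) (nat_lit 2) (.e (nat_lit 90158) (nat_lit 11) .nil))))))) (.g (nat_lit 5) .nil .nil))) 
(.lf (nat_lit 137826) (.g (nat_lit 3910) (.e (nat_lit 24608) (nat_lit 3) (.e (nat_lit 98365) (nat_lit 26) (.e (nat_lit 426188) (nat_lit 9) (.e (nat_lit 426428) (nat_lit 17) (.e (nat_lit 90165) (nat_lit 12) (.e (nat_lit 164050) (nat_lit 55) (.e (nat_lit 778466) (nat_lit 11) .nil))))))) (.g (nat_lit 0) .nil .nil)))) (.nd (nat_lit 5) 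
(.lf (nat_lit 137810) (.g (nat_lit 2666) (.e (nat_lit 24608) (nat_lit 3) (.e (nat_lit 98365) (nat_lit 26) (.e (nat_lit 426187) (nat_lit 9) (.e (nat_lit 426428) (nat_lit 17) (.e (nat_lit 90165) (nat_lit 12) (.e (nat_lit 164046) (nat_lit 55) (.e (nat_lit 778468) (nat_lit 11) .nil))))))) (.g (nat_lit 5) .nil .nil))) 
(.lf (nat_lit 137842) (.g (nat_lit 1059) (.e (nat_lit 24608) (nat_lit 3) (.e (nat_lit 98367) (nat_lit 27) (.e (nat_lit 434259) (nat_lit 32) .nil))) .nil)))) (.nd (nat_lit 4) (.nd (nat_lit 5) 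
(.lf (nat_lit 137802) (.g (nat_lit 2901) (.e (nat_lit 24608) (nat_lit 3) (.e (nat_lit 98342) (nat_lit 20) (.e (nat_lit 221215) (nat_lit 23) (.e (nat_lit 204831) (nat_lit 18) (.e (nat_lit 57849) (nat_lit 252) (.e (nat_lit 57375) (nat_lit 2) (.e (nat_lit 90158) (nat_lit 11) .nil))))))) (.g (nat_lit 4) .nil .nil))) 
(.lf (nat_lit 137834) (.g (nat_lit 2158) (.e (nat_lit 24608) (nat_lit 3) (.e (nat_lit 98365) (nat_lit 26) (.e (nat_lit 426298) (nat_lit 11) (.e (nat_lit 458789) (nat_lit 23) (.e (nat_lit 532487) (nat_lit 0) (.e (nat_lit 1917) (nat_lit 130) (.e (nat_lit 606243) (nat_lit 11) .nil))))))) (.g (nat_lit 4) .nil .nil)))) (.nd (nat_lit 5) 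
(.lf (nat_lit 137818) (.g (nat_lit 1559) (.e (nat_lit 24608) (nat_lit 3) (.e (nat_lit 98365) (nat_lit 26) (.e (nat_lit 426188) (nat_lit 9) (.e (nat_lit 426427) (nat_lit 17) .nil)))) .nil)) 
(.lf (nat_lit 137850) (.g (nat_lit 502) (.e (nat_lit 24608) (nat_lit 3) (.e (nat_lit 98372) (nat_lit 29) (.e (nat_lit 450588) (nat_lit 10) .nil))) .nil))))) (.nd (nat_lit 3) (.nd (nat_lit 4) (.nd (nat_lit 5) 
(.lf (nat_lit 137798) (.g (nat_lit 3593) (.e (nat_lit 24608) (nat_lit 3) (.e (nat_lit 98342) (nat_lit 20) (.e (nat_lit 221215) (nat_lit 23) (.e (nat_lit 204830) (nat_lit 18) (.e (nat_lit 57852) (nat_lit 252) (.e (nat_lit 57371) (nat_lit 2) (.e (nat_lit 90158) (nat_lit 11) .nil))))))) (.g (nat_lit 5) .nil .nil))) 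
(.lf (nat_lit 137830) (.g (nat_lit 2414) (.e (nat_lit 24608) (nat_lit 3) (.e (nat_lit 98365) (nat_lit 26) (.e (nat_lit 426188) (nat_lit 9) (.e (nat_lit 426436) (nat_lit 18) (.e (nat_lit 98348) (nat_lit 23) (.e (nat_lit 262165) (nat_lit 11) .nil)))))) (.g (nat_lit 4) .nil .nil)))) (.nd (nat_lit 5) 
(.lf (nat_lit 137814) (.g (nat_lit 3571) (.e (nat_lit 24608) (nat_lit 3) (.e (nat_lit 98365) (nat_lit 26) (.e (nat_lit 426187) (nat_lit 9) (.e (nat_lit 426428) (nat_lit 17) (.e (nat_lit 90165) (nat_lit 12) (.e (nat_lit 164050) (nat_lit 55) (.e (nat_lit 778466) (nat_lit 11) .nil))))))) (.g (nat_lit 0) .nil .nil))) 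
(.lf (nat_lit 137846) (.g (nat_lit 1975) (.e (nat_lit 24608) (nat_lit 3) (.e (nat_lit 98372) (nat_lit 29) (.e (nat_lit 450579) (nat_lit 5) (.e (nat_lit 532501) (nat_lit 1) (.e (nat_lit 65280) (nat_lit 233) .nil))))) .nil)))) (.nd (nat_lit 4) (.nd (nat_lit 5) 
(.lf (nat_lit 137806) (.g (nat_lit 1392) (.e (nat_lit 24608) (nat_lit 3) (.e (nat_lit 98359) (nat_lit 26) (.e (nat_lit 426286) (nat_lit 10) (.e (nat_lit 434245) (nat_lit 28) .nil)))) .nil)) 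
(.lf (nat_lit 137838) (.g (nat_lit 2863) (.e (nat_lit 24608) (nat_lit 3) (.e (nat_lit 98365) (nat_lit 26) (.e (nat_lit 426306) (nat_lit 12) (.e (nat_lit 475178) (nat_lit 24) (.e (nat_lit 516127) (nat_lit 2) (.e (nat_lit 213030) (nat_lit 11) .nil)))))) (.g (nat_lit 6) .nil .nil)))) (.nd (nat_lit 5) 
(.lf (nat_lit 137822) (.g (nat_lit 2984) (.e (nat_lit 24608) (nat_lit 3) (.e (nat_lit 98365) (nat_lit 26) (.e (nat_lit 426188) (nat_lit 9) (.e (nat_lit 426428) (nat_lit 17) (.e (nat_lit 90165) (nat_lit 12) (.e (nat_lit 164046) (nat_lit 55) (.e (nat_lit 778468) (nat_lit 11) .nil))))))) (.g (nat_lit 5) .nil .nil))) 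
(.lf (nat_lit 137854) (.g (nat_lit 3185) (.e (nat_lit 24608) (nat_lit 3) (.e (nat_lit 98372) (nat_lit 29) (.e (nat_lit 450588) (nat_lit 10) (.e (nat_lit 573475) (nat_lit 12) (.e (nat_lit 65280) (nat_lit 55) .nil))))) .nil))))))) (.nd (nat_lit 1) (.nd (nat_lit 2) (.nd (nat_lit 3) (.nd (nat_lit 4) (.nd (nat_lit 5) 
(.lf (nat_lit 137793) (.g (nat_lit 4918) (.e (nat_lit 24608) (nat_lit 3) (.e (nat_lit 98342) (nat_lit 20) (.e (nat_lit 221214) (nat_lit 23) (.e (nat_lit 204830) (nat_lit 18) (.e (nat_lit 57854) (nat_lit 252) (.e (nat_lit 57373) (nat_lit 2) (.e (nat_lit 90160) (nat_lit 11) .nil))))))) (.g (nat_lit 7) .nil .nil))) 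
(.lf (nat_lit 137825) (.g (nat_lit 3681) (.e (nat_lit 24608) (nat_lit 3) (.e (nat_lit 98365) (nat_lit 26) (.e (nat_lit 426188) (nat_lit 9) (.e (nat_lit 426428) (nat_lit 17) (.e (nat_lit 90165) (nat_lit 12) (.e (nat_lit 164050) (nat_lit 55) (.e (nat_lit 778465) (nat_lit 11) .nil))))))) (.g (nat_lit 0) .nil .nil)))) (.nd (nat_lit 5) 
(.lf (nat_lit 137809) (.g (nat_lit 2587) (.e (nat_lit 24608) (nat_lit 3) (.e (nat_lit 98365) (nat_lit 26) (.e (nat_lit 426187) (nat_lit 9) (.e (nat_lit 426428) (nat_lit 17) (.e (nat_lit 90165) (nat_lit 12) (.e (nat_lit 164046) (nat_lit 55) (.e (nat_lit 778460) (nat_lit 11) .nil))))))) (.g (nat_lit 4) .nil .nil))) 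
(.lf (nat_lit 137841) (.g (nat_lit 2170) (.e (nat_lit 24608) (nat_lit 3) (.e (nat_lit 98365) (nat_lit 26) (.e (nat_lit 426306) (nat_lit 12) (.e (nat_lit 475179) (nat_lit 24) (.e (nat_lit 516110) (nat_lit 0) .nil))))) .nil)))) (.nd (nat_lit 4) (.nd (nat_lit 5) 
(.lf (nat_lit 137801) (.g (nat_lit 5095) (.e (nat_lit 24608) (nat_lit 3) (.e (nat_lit 98342) (nat_lit 20) (.e (nat_lit 221215) (nat_lit 23) (.e (nat_lit 204830) (nat_lit 18) (.e (nat_lit 57854) (nat_lit 252) (.e (nat_lit 57373) (nat_lit 2) (.e (nat_lit 90160) (nat_lit 11) .nil))))))) (.g (nat_lit 7) .nil .nil))) 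
(.lf (nat_lit 137833) (.g (nat_lit 2271) (.e (nat_lit 24608) (nat_lit 3) (.e (nat_lit 98365) (nat_lit 26) (.e (nat_lit 426298) (nat_lit 11) (.e (nat_lit 458789) (nat_lit 23) (.e (nat_lit 532484) (nat_lit 0) (.e (nat_lit 1915) (nat_lit 130) (.e (nat_lit 606243) (nat_lit 11) .nil))))))) (.g (nat_lit 4) .nil .nil)))) (.nd (nat_lit 5) 
(.lf (nat_lit 137817) (.g (nat_lit 459) (.e (nat_lit 24608) (nat_lit 3) (.e (nat_lit 98365) (nat_lit 26) (.e (nat_lit 426188) (nat_lit 9) .nil))) .nil)) 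
(.lf (nat_lit 137849) (.g (nat_lit 2075) (.e (nat_lit 24608) (nat_lit 3) (.e (nat_lit 98372) (nat_lit 29) (.e (nat_lit 450587) (nat_lit 10) (.e (nat_lit 573456) (nat_lit 9) (.e (nat_lit 1312) (nat_lit 98) .nil))))) .nil))))) (.nd (nat_lit 3) (.nd (nat_lit 4) (.nd (nat_lit 5) 
(.lf (nat_lit 137797) (.g (nat_lit 3589) (.e (nat_lit 24608) (nat_lit 3) (.e (nat_lit 98342) (nat_lit 20) (.e (nat_lit 221215) (nat_lit 23) (.e (nat_lit 204829) (nat_lit 18) (.e (nat_lit 57849) (nat_lit 252) (.e (nat_lit 57375) (nat_lit 2) (.e (nat_lit 90158) (nat_lit 11) .nil))))))) (.g (nat_lit 6) .nil .nil))) 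
(.lf (nat_lit 137829) (.g (nat_lit 1629) (.e (nat_lit 24608) (nat_lit 3) (.e (nat_lit 98365) (nat_lit 26) (.e (nat_lit 426188) (nat_lit 9) (.e (nat_lit 426436) (nat_lit 18) (.e (nat_lit 98320) (nat_lit 17) .nil))))) .nil))) (.nd (nat_lit 5) 
(.lf (nat_lit 137813) (.g (nat_lit 3331) (.e (nat_lit 24608) (nat_lit 3) (.e (nat_lit 98365) (nat_lit 26) (.e (nat_lit 426187) (nat_lit 9) (.e (nat_lit 426428) (nat_lit 17) (.e (nat_lit 90165) (nat_lit 12) (.e (nat_lit 164050) (nat_lit 55) (.e (nat_lit 778465) (nat_lit 11) .nil))))))) (.g (nat_lit 0) .nil .nil))) 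
(.lf (nat_lit 137845) (.g (nat_lit 424) (.e (nat_lit 24608) (nat_lit 3) (.e (nat_lit 98370) (nat_lit 28) (.e (nat_lit 450304) (nat_lit 3) .nil))) .nil)))) (.nd (nat_lit 4) (.nd (nat_lit 5) 
(.lf (nat_lit 137805) (.g (nat_lit 2316) (.e (nat_lit 24608) (nat_lit 3) (.e (nat_lit 98356) (nat_lit 26) (.e (nat_lit 426320) (nat_lit 12) (.e (nat_lit 475179) (nat_lit 24) (.e (nat_lit 516100) (nat_lit 0) .nil))))) .nil)) 
(.lf (nat_lit 137837) (.g (nat_lit 2849) (.e (nat_lit 24608) (nat_lit 3) (.e (nat_lit 98365) (nat_lit 26) (.e (nat_lit 426306) (nat_lit 12) (.e (nat_lit 475178) (nat_lit 24) (.e (nat_lit 516124) (nat_lit 2) (.e (nat_lit 213030) (nat_lit 11) .nil)))))) (.g (nat_lit 6) .nil .nil)))) (.nd (nat_lit 5) 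
(.lf (nat_lit 137821) (.g (nat_lit 2934) (.e (nat_lit 24608) (nat_lit 3) (.e (nat_lit 98365) (nat_lit 26) (.e (nat_lit 426188) (nat_lit 9) (.e (nat_lit 426428) (nat_lit 17) (.e (nat_lit 90165) (nat_lit 12) (.e (nat_lit 164046) (nat_lit 55) (.e (nat_lit 778460) (nat_lit 11) .nil))))))) (.g (nat_lit 4) .nil .nil))) 
(.lf (nat_lit 137853) (.g (nat_lit 2373) (.e (nat_lit 24608) (nat_lit 3) (.e (nat_lit 98372) (nat_lit 29) (.e (nat_lit 450588) (nat_lit 10) (.e (nat_lit 573452) (nat_lit 9) .nil)))) .nil)))))) (.nd (nat_lit 2) (.nd (nat_lit 3) (.nd (nat_lit 4) (.nd (nat_lit 5) 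
(.lf (nat_lit 137795) (.g (nat_lit 4665) (.e (nat_lit 24608) (nat_lit 3) (.e (nat_lit 98342) (nat_lit 20) (.e (nat_lit 221215) (nat_lit 23) (.e (nat_lit 204829) (nat_lit 18) (.e (nat_lit 57847) (nat_lit 252) (.e (nat_lit 57372) (nat_lit 2) (.e (nat_lit 90160) (nat_lit 11) .nil))))))) (.g (nat_lit 7) .nil .nil))) 
(.lf (nat_lit 137827) (.g (nat_lit 1870) (.e (nat_lit 24608) (nat_lit 3) (.e (nat_lit 98365) (nat_lit 26) (.e (nat_lit 426188) (nat_lit 9) (.e (nat_lit 426428) (nat_lit 17) (.e (nat_lit 90181) (nat_lit 16) .nil))))) .nil))) (.nd (nat_lit 5) 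
(.lf (nat_lit 137811) (.g (nat_lit 3331) (.e (nat_lit 24608) (nat_lit 3) (.e (nat_lit 98365) (nat_lit 26) (.e (nat_lit 426187) (nat_lit 9) (.e (nat_lit 426428) (nat_lit 17) (.e (nat_lit 90165) (nat_lit 12) (.e (nat_lit 164049) (nat_lit 55) (.e (nat_lit 778465) (nat_lit 11) .nil))))))) (.g (nat_lit 0) .nil .nil))) 
(.lf (nat_lit 137843) (.g (nat_lit 228) (.e (nat_lit 24608) (nat_lit 3) (.e (nat_lit 98369) (nat_lit 28) (.e (nat_lit 450304) (nat_lit 3) .nil))) .nil)))) (.nd (nat_lit 4) (.nd (nat_lit 5) 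
(.lf (nat_lit 137803) (.g (nat_lit 2526) (.e (nat_lit 24608) (nat_lit 3) (.e (nat_lit 98342) (nat_lit 20) (.e (nat_lit 221215) (nat_lit 23) (.e (nat_lit 204831) (nat_lit 18) (.e (nat_lit 57852) (nat_lit 252) (.e (nat_lit 57373) (nat_lit 2) (.e (nat_lit 90158) (nat_lit 11) .nil))))))) (.g (nat_lit 4) .nil .nil))) 
(.lf (nat_lit 137835) (.g (nat_lit 1355) (.e (nat_lit 24608) (nat_lit 3) (.e (nat_lit 98365) (nat_lit 26) (.e (nat_lit 426306) (nat_lit 12) (.e (nat_lit 475171) (nat_lit 22) (.e (nat_lit 499910) (nat_lit 8) .nil))))) .nil))) (.nd (nat_lit 5) 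
(.lf (nat_lit 137819) (.g (nat_lit 1228) (.e (nat_lit 24608) (nat_lit 3) (.e (nat_lit 98365) (nat_lit 26) (.e (nat_lit 426188) (nat_lit 9) (.e (nat_lit 426428) (nat_lit 17) .nil)))) .nil)) 
(.lf (nat_lit 137851) (.g (nat_lit 3471) (.e (nat_lit 24608) (nat_lit 3) (.e (nat_lit 98372) (nat_lit 29) (.e (nat_lit 450588) (nat_lit 10) (.e (nat_lit 573449) (nat_lit 9) (.e (nat_lit 1312) (nat_lit 98) .nil))))) .nil))))) (.nd (nat_lit 3) (.nd (nat_lit 4) (.nd (nat_lit 5) 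
(.lf (nat_lit 137799) (.g (nat_lit 4385) (.e (nat_lit 24608) (nat_lit 3) (.e (nat_lit 98342) (nat_lit 20) (.e (nat_lit 221215) (nat_lit 23) (.e (nat_lit 204830) (nat_lit 18) (.e (nat_lit 57852) (nat_lit 252) (.e (nat_lit 57373) (nat_lit 2) (.e (nat_lit 90158) (nat_lit 11) .nil))))))) (.g (nat_lit 6) .nil .nil))) 
(.lf (nat_lit 137831) (.g (nat_lit 2949) (.e (nat_lit 24608) (nat_lit 3) (.e (nat_lit 98365) (nat_lit 26) (.e (nat_lit 426298) (nat_lit 11) (.e (nat_lit 458789) (nat_lit 23) (.e (nat_lit 532481) (nat_lit 0) (.e (nat_lit 1916) (nat_lit 130) (.e (nat_lit 606243) (nat_lit 11) .nil))))))) (.g (nat_lit 5) .nil .nil)))) (.nd (nat_lit 5) 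
(.lf (nat_lit 137815) (.g (nat_lit 1454) (.e (nat_lit 24608) (nat_lit 3) (.e (nat_lit 98365) (nat_lit 26) (.e (nat_lit 426187) (nat_lit 9) (.e (nat_lit 426436) (nat_lit 18) (.e (nat_lit 98320) (nat_lit 17) .nil))))) .nil)) 
(.lf (nat_lit 137847) (.g (nat_lit 1942) (.e (nat_lit 24608) (nat_lit 3) (.e (nat_lit 98372) (nat_lit 29) (.e (nat_lit 450579) (nat_lit 5) (.e (nat_lit 532504) (nat_lit 1) (.e (nat_lit 65280) (nat_lit 233) .nil))))) .nil)))) (.nd (nat_lit 4) (.nd (nat_lit 5) 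
(.lf (nat_lit 137807) (.g (nat_lit 1407) (.e (nat_lit 24608) (nat_lit 3) (.e (nat_lit 98359) (nat_lit 26) (.e (nat_lit 426286) (nat_lit 10) (.e (nat_lit 434247) (nat_lit 28) .nil)))) .nil)) 
(.lf (nat_lit 137839) (.g (nat_lit 2447) (.e (nat_lit 24608) (nat_lit 3) (.e (nat_lit 98365) (nat_lit 26) (.e (nat_lit 426306) (nat_lit 12) (.e (nat_lit 475178) (nat_lit 24) (.e (nat_lit 516127) (nat_lit 2) (.e (nat_lit 213031) (nat_lit 11) .nil)))))) (.g (nat_lit 4) .nil .nil)))) (.nd (nat_lit 5) 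
(.lf (nat_lit 137823) (.g (nat_lit 3681) (.e (nat_lit 24608) (nat_lit 3) (.e (nat_lit 98365) (nat_lit 26) (.e (nat_lit 426188) (nat_lit 9) (.e (nat_lit 426428) (nat_lit 17) (.e (nat_lit 90165) (nat_lit 12) (.e (nat_lit 164049) (nat_lit 55) (.e (nat_lit 778465) (nat_lit 11) .nil))))))) (.g (nat_lit 0) .nil .nil))) 
(.lf (nat_lit 137855) (.g (nat_lit 3353) (.e (nat_lit 24608) (nat_lit 3) (.e (nat_lit 98372) (nat_lit 29) (.e (nat_lit 450588) (nat_lit 10) (.e (nat_lit 573503) (nat_lit 18) (.e (nat_lit 7936) (nat_lit 161) .nil))))) .nil))))))))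

noncomputable def tv1831 : DT := (.nd (nat_lit 0) (.nd (nat_lit 1) (.nd (nat_lit 2) (.nd (nat_lit 3) (.nd (nat_lit 4) (.nd (nat_lit 5) (.nd (nat_lit 6) 
(.lf (nat_lit 137856) (.g (nat_lit 2727) (.e (nat_lit 24608) (nat_lit 3) (.e (nat_lit 98373) (nat_lit 29) (.e (nat_lit 450562) (nat_lit 0) (.e (nat_lit 4275) (nat_lit 252) .nil)))) .nil)) 
(.lf (nat_lit 137920) (.g (nat_lit 1842) (.e (nat_lit 24609) (nat_lit 3) (.e (nat_lit 98372) (nat_lit 29) (.e (nat_lit 450586) (nat_lit 10) (.e (nat_lit 573456) (nat_lit 9) (.e (nat_lit 1312) (nat_lit 98) (.e (nat_lit 147493) (nat_lit 11) .nil)))))) (.g (nat_lit 4) .nil .nil)))) (.nd (nat_lit 6) 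
(.lf (nat_lit 137888) (.g (nat_lit 1630) (.e (nat_lit 24609) (nat_lit 3) (.e (nat_lit 98317) (nat_lit 9) (.e (nat_lit 336004) (nat_lit 2) (.e (nat_lit 90157) (nat_lit 11) (.e (nat_lit 24602) (nat_lit 2) .nil))))) .nil)) 
(.lf (nat_lit 137952) (.g (nat_lit 2038) (.e (nat_lit 24616) (nat_lit 7) (.e (nat_lit 319530) (nat_lit 16) (.e (nat_lit 286743) (nat_lit 9) (.e (nat_lit 336337) (nat_lit 20) (.e (nat_lit 221219) (nat_lit 24) (.e (nat_lit 213030) (nat_lit 11) .nil)))))) (.g (nat_lit 0) .nil .nil))))) (.nd (nat_lit 5) (.nd (nat_lit 6) 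
(.lf (nat_lit 137872) (.g (nat_lit 1114) (.e (nat_lit 24609) (nat_lit 3) (.e (nat_lit 98312) (nat_lit 9) (.e (nat_lit 336004) (nat_lit 2) (.e (nat_lit 90158) (nat_lit 11) .nil)))) .nil)) 
(.lf (nat_lit 137936) (.g (nat_lit 4009) (.e (nat_lit 24609) (nat_lit 3) (.e (nat_lit 98373) (nat_lit 29) (.e (nat_lit 450588) (nat_lit 10) (.e (nat_lit 581376) (nat_lit 9) .nil)))) .nil))) (.nd (nat_lit 6) 
(.lf (nat_lit 137904) (.g (nat_lit 1202) (.e (nat_lit 24609) (nat_lit 3) (.e (nat_lit 98317) (nat_lit 9) (.e (nat_lit 336027) (nat_lit 3) (.e (nat_lit 98316) (nat_lit 9) .nil)))) .nil)) 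
(.lf (nat_lit 137968) (.g (nat_lit 2242) (.e (nat_lit 24616) (nat_lit 7) (.e (nat_lit 319530) (nat_lit 16) (.e (nat_lit 286759) (nat_lit 12) (.e (nat_lit 385094) (nat_lit 49) (.e (nat_lit 778548) (nat_lit 14) .nil))))) .nil))))) (.nd (nat_lit 4) (.nd (nat_lit 5) (.nd (nat_lit 6) 
(.lf (nat_lit 137864) (.g (nat_lit 4759) (.e (nat_lit 24608) (nat_lit 3) (.e (nat_lit 98373) (nat_lit 29) (.e (nat_lit 450588) (nat_lit 10) (.e (nat_lit 573451) (nat_lit 9) (.e (nat_lit 1310) (nat_lit 98) .nil))))) .nil)) 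
(.lf (nat_lit 137928) (.g (nat_lit 3618) (.e (nat_lit 24609) (nat_lit 3) (.e (nat_lit 98373) (nat_lit 29) (.e (nat_lit 450587) (nat_lit 10) (.e (nat_lit 573456) (nat_lit 9) (.e (nat_lit 1312) (nat_lit 98) .nil))))) .nil))) (.nd (nat_lit 6) 
(.lf (nat_lit 137896) (.g (nat_lit 3372) (.e (nat_lit 24609) (nat_lit 3) (.e (nat_lit 98317) (nat_lit 9) (.e (nat_lit 336021) (nat_lit 3) (.e (nat_lit 98317) (nat_lit 9) (.e (nat_lit 336004) (nat_lit 2) (.e (nat_lit 90158) (nat_lit 11) .nil)))))) (.g (nat_lit 0) .nil .nil))) 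
(.lf (nat_lit 137960) (.g (nat_lit 2631) (.e (nat_lit 24616) (nat_lit 7) (.e (nat_lit 319530) (nat_lit 16) (.e (nat_lit 286759) (nat_lit 12) (.e (nat_lit 385093) (nat_lit 49) (.e (nat_lit 778510) (nat_lit 14) (.e (nat_lit 1146) (nat_lit 85) (.e (nat_lit 40995) (nat_lit 11) .nil))))))) (.g (nat_lit 4) .nil .nil))))) (.nd (nat_lit 5) (.nd (nat_lit 6) 
(.lf (nat_lit 137880) (.g (nat_lit 2431) (.e (nat_lit 24609) (nat_lit 3) (.e (nat_lit 98313) (nat_lit 9) (.e (nat_lit 336012) (nat_lit 2) (.e (nat_lit 90160) (nat_lit 11) (.e (nat_lit 24603) (nat_lit 2) .nil))))) .nil)) 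
(.lf (nat_lit 137944) (.g (nat_lit 1154) (.e (nat_lit 24615) (nat_lit 6) (.e (nat_lit 147460) (nat_lit 0) (.e (nat_lit 1582) (nat_lit 111) (.e (nat_lit 360474) (nat_lit 8) (.e (nat_lit 557093) (nat_lit 12) .nil))))) .nil))) (.nd (nat_lit 6) 
(.lf (nat_lit 137912) (.g (nat_lit 846) (.e (nat_lit 24609) (nat_lit 3) (.e (nat_lit 98342) (nat_lit 20) (.e (nat_lit 221214) (nat_lit 23) .nil))) .nil)) 
(.lf (nat_lit 137976) (.g (nat_lit 2553) (.e (nat_lit 24616) (nat_lit 7) (.e (nat_lit 319530) (nat_lit 16) (.e (nat_lit 286759) (nat_lit 12) (.e (nat_lit 385114) (nat_lit 53) (.e (nat_lit 811045) (nat_lit 14) (.e (nat_lit 40996) (nat_lit 11) .nil)))))) (.g (nat_lit 6) .nil .nil))))))) (.nd (nat_lit 3) (.nd (nat_lit 4) (.nd (nat_lit 5) (.nd (nat_lit 6) 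
(.lf (nat_lit 137860) (.g (nat_lit 3866) (.e (nat_lit 24608) (nat_lit 3) (.e (nat_lit 98373) (nat_lit 29) (.e (nat_lit 450587) (nat_lit 10) (.e (nat_lit 573456) (nat_lit 9) (.e (nat_lit 1312) (nat_lit 98) (.e (nat_lit 147493) (nat_lit 11) .nil)))))) (.g (nat_lit 4) .nil .nil))) 
(.lf (nat_lit 137924) (.g (nat_lit 2313) (.e (nat_lit 24609) (nat_lit 3) (.e (nat_lit 98372) (nat_lit 29) (.e (nat_lit 450588) (nat_lit 10) (.e (nat_lit 573475) (nat_lit 12) .nil)))) .nil))) (.nd (nat_lit 6) 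
(.lf (nat_lit 137892) (.g (nat_lit 2280) (.e (nat_lit 24609) (nat_lit 3) (.e (nat_lit 98317) (nat_lit 9) (.e (nat_lit 336021) (nat_lit 3) (.e (nat_lit 98313) (nat_lit 9) (.e (nat_lit 336002) (nat_lit 2) .nil))))) .nil)) 
(.lf (nat_lit 137956) (.g (nat_lit 1542) (.e (nat_lit 24616) (nat_lit 7) (.e (nat_lit 319530) (nat_lit 16) (.e (nat_lit 286759) (nat_lit 12) (.e (nat_lit 385092) (nat_lit 49) .nil)))) .nil)))) (.nd (nat_lit 5) (.nd (nat_lit 6) 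
(.lf (nat_lit 137876) (.g (nat_lit 1287) (.e (nat_lit 24609) (nat_lit 3) (.e (nat_lit 98313) (nat_lit 9) (.e (nat_lit 336011) (nat_lit 2) (.e (nat_lit 90157) (nat_lit 11) .nil)))) .nil)) 
(.lf (nat_lit 137940) (.g (nat_lit 4525) (.e (nat_lit 24609) (nat_lit 3) (.e (nat_lit 98373) (nat_lit 29) (.e (nat_lit 450588) (nat_lit 10) (.e (nat_lit 573498) (nat_lit 18) .nil)))) .nil))) (.nd (nat_lit 6) 
(.lf (nat_lit 137908) (.g (nat_lit 2126) (.e (nat_lit 24609) (nat_lit 3) (.e (nat_lit 98341) (nat_lit 20) (.e (nat_lit 221214) (nat_lit 23) (.e (nat_lit 204830) (nat_lit 18) (.e (nat_lit 57852) (nat_lit 252) .nil))))) .nil)) 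
(.lf (nat_lit 137972) (.g (nat_lit 2812) (.e (nat_lit 24616) (nat_lit 7) (.e (nat_lit 319530) (nat_lit 16) (.e (nat_lit 286759) (nat_lit 12) (.e (nat_lit 385107) (nat_lit 51) (.e (nat_lit 794680) (nat_lit 24) (.e (nat_lit 213030) (nat_lit 11) .nil)))))) (.g (nat_lit 0) .nil .nil)))))) (.nd (nat_lit 4) (.nd (nat_lit 5) (.nd (nat_lit 6) 
(.lf (nat_lit 137868) (.g (nat_lit 4377) (.e (nat_lit 24608) (nat_lit 3) (.e (nat_lit 98373) (nat_lit 29) (.e (nat_lit 450588) (nat_lit 10) (.e (nat_lit 573504) (nat_lit 18) .nil)))) .nil)) 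
(.lf (nat_lit 137932) (.g (nat_lit 4250) (.e (nat_lit 24609) (nat_lit 3) (.e (nat_lit 98373) (nat_lit 29) (.e (nat_lit 450588) (nat_lit 10) (.e (nat_lit 573449) (nat_lit 9) (.e (nat_lit 1312) (nat_lit 98) .nil))))) .nil))) (.nd (nat_lit 6) 
(.lf (nat_lit 137900) (.g (nat_lit 3260) (.e (nat_lit 24609) (nat_lit 3) (.e (nat_lit 98317) (nat_lit 9) (.e (nat_lit 336027) (nat_lit 3) (.e (nat_lit 98312) (nat_lit 9) (.e (nat_lit 336004) (nat_lit 2) (.e (nat_lit 90158) (nat_lit 11) .nil)))))) (.g (nat_lit 6) .nil .nil))) 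
(.lf (nat_lit 137964) (.g (nat_lit 2987) (.e (nat_lit 24616) (nat_lit 7) (.e (nat_lit 319530) (nat_lit 16) (.e (nat_lit 286759) (nat_lit 12) (.e (nat_lit 385094) (nat_lit 49) (.e (nat_lit 778503) (nat_lit 14) .nil))))) .nil)))) (.nd (nat_lit 5) (.nd (nat_lit 6) 
(.lf (nat_lit 137884) (.g (nat_lit 1542) (.e (nat_lit 24609) (nat_lit 3) (.e (nat_lit 98313) (nat_lit 9) (.e (nat_lit 336027) (nat_lit 3) (.e (nat_lit 98312) (nat_lit 9) (.e (nat_lit 336002) (nat_lit 2) (.e (nat_lit 90158) (nat_lit 11) .nil)))))) (.g (nat_lit 4) .nil .nil))) 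
(.lf (nat_lit 137948) (.g (nat_lit 593) (.e (nat_lit 24616) (nat_lit 7) (.e (nat_lit 319505) (nat_lit 10) (.e (nat_lit 618) (nat_lit 48) .nil))) .nil))) (.nd (nat_lit 6) 
(.lf (nat_lit 137916) (.g (nat_lit 2437) (.e (nat_lit 24609) (nat_lit 3) (.e (nat_lit 98358) (nat_lit 26) (.e (nat_lit 426227) (nat_lit 9) (.e (nat_lit 426438) (nat_lit 18) (.e (nat_lit 98339) (nat_lit 19) (.e (nat_lit 213030) (nat_lit 11) .nil)))))) (.g (nat_lit 6) .nil .nil))) 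
(.lf (nat_lit 137980) (.g (nat_lit 1121) (.e (nat_lit 24616) (nat_lit 7) (.e (nat_lit 319531) (nat_lit 16) (.e (nat_lit 286748) (nat_lit 9) .nil))) .nil))))))) (.nd (nat_lit 2) (.nd (nat_lit 3) (.nd (nat_lit 4) (.nd (nat_lit 5) (.nd (nat_lit 6) 
(.lf (nat_lit 137858) (.g (nat_lit 2286) (.e (nat_lit 24608) (nat_lit 3) (.e (nat_lit 98373) (nat_lit 29) (.e (nat_lit 450587) (nat_lit 10) (.e (nat_lit 573449) (nat_lit 9) .nil)))) .nil)) 
(.lf (nat_lit 137922) (.g (nat_lit 1675) (.e (nat_lit 24609) (nat_lit 3) (.e (nat_lit 98372) (nat_lit 29) (.e (nat_lit 450586) (nat_lit 10) (.e (nat_lit 573477) (nat_lit 12) (.e (nat_lit 57575) (nat_lit 55) .nil))))) .nil))) (.nd (nat_lit 6) 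
(.lf (nat_lit 137890) (.g (nat_lit 1818) (.e (nat_lit 24609) (nat_lit 3) (.e (nat_lit 98317) (nat_lit 9) (.e (nat_lit 336012) (nat_lit 2) (.e (nat_lit 90134) (nat_lit 9) (.e (nat_lit 290) (nat_lit 21) .nil))))) .nil)) 
(.lf (nat_lit 137954) (.g (nat_lit 2227) (.e (nat_lit 24616) (nat_lit 7) (.e (nat_lit 319530) (nat_lit 16) (.e (nat_lit 286748) (nat_lit 9) (.e (nat_lit 336295) (nat_lit 15) (.e (nat_lit 3806) (nat_lit 231) (.e (nat_lit 811045) (nat_lit 14) (.e (nat_lit 40997) (nat_lit 11) .nil))))))) (.g (nat_lit 4) .nil .nil))))) (.nd (nat_lit 5) (.nd (nat_lit 6) 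
(.lf (nat_lit 137874) (.g (nat_lit 1829) (.e (nat_lit 24609) (nat_lit 3) (.e (nat_lit 98313) (nat_lit 9) (.e (nat_lit 336004) (nat_lit 2) (.e (nat_lit 90158) (nat_lit 11) (.e (nat_lit 24603) (nat_lit 2) (.e (nat_lit 90158) (nat_lit 11) .nil)))))) (.g (nat_lit 4) .nil .nil))) 
(.lf (nat_lit 137938) (.g (nat_lit 2935) (.e (nat_lit 24609) (nat_lit 3) (.e (nat_lit 98373) (nat_lit 29) (.e (nat_lit 450588) (nat_lit 10) (.e (nat_lit 573475) (nat_lit 12) (.e (nat_lit 65280) (nat_lit 55) .nil))))) .nil))) (.nd (nat_lit 6) 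
(.lf (nat_lit 137906) (.g (nat_lit 3067) (.e (nat_lit 24609) (nat_lit 3) (.e (nat_lit 98317) (nat_lit 9) (.e (nat_lit 336027) (nat_lit 3) (.e (nat_lit 98317) (nat_lit 9) (.e (nat_lit 336004) (nat_lit 2) (.e (nat_lit 90158) (nat_lit 11) .nil)))))) (.g (nat_lit 0) .nil .nil))) 
(.lf (nat_lit 137970) (.g (nat_lit 2109) (.e (nat_lit 24616) (nat_lit 7) (.e (nat_lit 319530) (nat_lit 16) (.e (nat_lit 286759) (nat_lit 12) (.e (nat_lit 385107) (nat_lit 51) (.e (nat_lit 794675) (nat_lit 24) .nil))))) .nil))))) (.nd (nat_lit 4) (.nd (nat_lit 5) (.nd (nat_lit 6) 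
(.lf (nat_lit 137866) (.g (nat_lit 4359) (.e (nat_lit 24608) (nat_lit 3) (.e (nat_lit 98373) (nat_lit 29) (.e (nat_lit 450588) (nat_lit 10) (.e (nat_lit 573498) (nat_lit 18) .nil)))) .nil)) 
(.lf (nat_lit 137930) (.g (nat_lit 3373) (.e (nat_lit 24609) (nat_lit 3) (.e (nat_lit 98373) (nat_lit 29) (.e (nat_lit 450587) (nat_lit 10) (.e (nat_lit 573499) (nat_lit 18) .nil)))) .nil))) (.nd (nat_lit 6) 
(.lf (nat_lit 137898) (.g (nat_lit 3161) (.e (nat_lit 24609) (nat_lit 3) (.e (nat_lit 98317) (nat_lit 9) (.e (nat_lit 336025) (nat_lit 3) (.e (nat_lit 98313) (nat_lit 9) (.e (nat_lit 336012) (nat_lit 2) (.e (nat_lit 90158) (nat_lit 11) .nil)))))) (.g (nat_lit 6) .nil .nil))) 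
(.lf (nat_lit 137962) (.g (nat_lit 1340) (.e (nat_lit 24616) (nat_lit 7) (.e (nat_lit 319530) (nat_lit 16) (.e (nat_lit 286759) (nat_lit 12) (.e (nat_lit 385094) (nat_lit 49) .nil)))) .nil)))) (.nd (nat_lit 5) (.nd (nat_lit 6) 
(.lf (nat_lit 137882) (.g (nat_lit 2047) (.e (nat_lit 24609) (nat_lit 3) (.e (nat_lit 98313) (nat_lit 9) (.e (nat_lit 336021) (nat_lit 3) (.e (nat_lit 98317) (nat_lit 9) (.e (nat_lit 336002) (nat_lit 2) (.e (nat_lit 90158) (nat_lit 11) .nil)))))) (.g (nat_lit 4) .nil .nil))) 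
(.lf (nat_lit 137946) (.g (nat_lit 1609) (.e (nat_lit 24616) (nat_lit 7) (.e (nat_lit 319500) (nat_lit 10) (.e (nat_lit 720) (nat_lit 64) (.e (nat_lit 688185) (nat_lit 18) (.e (nat_lit 81965) (nat_lit 26) .nil))))) .nil))) (.nd (nat_lit 6) 
(.lf (nat_lit 137914) (.g (nat_lit 1632) (.e (nat_lit 24609) (nat_lit 3) (.e (nat_lit 98342) (nat_lit 20) (.e (nat_lit 221215) (nat_lit 23) (.e (nat_lit 204828) (nat_lit 18) .nil)))) .nil)) 
(.lf (nat_lit 137978) (.g (nat_lit 2619) (.e (nat_lit 24616) (nat_lit 7) (.e (nat_lit 319530) (nat_lit 16) (.e (nat_lit 286759) (nat_lit 12) (.e (nat_lit 385115) (nat_lit 53) (.e (nat_lit 811045) (nat_lit 14) (.e (nat_lit 40995) (nat_lit 11) .nil)))))) (.g (nat_lit 0) .nil .nil))))))) (.nd (nat_lit 3) (.nd (nat_lit 4) (.nd (nat_lit 5) (.nd (nat_lit 6) 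
(.lf (nat_lit 137862) (.g (nat_lit 2704) (.e (nat_lit 24608) (nat_lit 3) (.e (nat_lit 98373) (nat_lit 29) (.e (nat_lit 450587) (nat_lit 10) (.e (nat_lit 573457) (nat_lit 9) .nil)))) .nil)) 
(.lf (nat_lit 137926) (.g (nat_lit 2155) (.e (nat_lit 24609) (nat_lit 3) (.e (nat_lit 98373) (nat_lit 29) (.e (nat_lit 450587) (nat_lit 10) (.e (nat_lit 573449) (nat_lit 9) .nil)))) .nil))) (.nd (nat_lit 6) 
(.lf (nat_lit 137894) (.g (nat_lit 2775) (.e (nat_lit 24609) (nat_lit 3) (.e (nat_lit 98317) (nat_lit 9) (.e (nat_lit 336021) (nat_lit 3) (.e (nat_lit 98317) (nat_lit 9) (.e (nat_lit 336002) (nat_lit 2) (.e (nat_lit 90158) (nat_lit 11) .nil)))))) (.g (nat_lit 6) .nil .nil))) 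
(.lf (nat_lit 137958) (.g (nat_lit 1578) (.e (nat_lit 24616) (nat_lit 7) (.e (nat_lit 319530) (nat_lit 16) (.e (nat_lit 286759) (nat_lit 12) (.e (nat_lit 385093) (nat_lit 49) .nil)))) .nil)))) (.nd (nat_lit 5) (.nd (nat_lit 6) 
(.lf (nat_lit 137878) (.g (nat_lit 1950) (.e (nat_lit 24609) (nat_lit 3) (.e (nat_lit 98313) (nat_lit 9) (.e (nat_lit 336012) (nat_lit 2) (.e (nat_lit 90158) (nat_lit 11) (.e (nat_lit 24603) (nat_lit 2) (.e (nat_lit 90158) (nat_lit 11) .nil)))))) (.g (nat_lit 4) .nil .nil))) 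
(.lf (nat_lit 137942) (.g (nat_lit 4284) (.e (nat_lit 24609) (nat_lit 3) (.e (nat_lit 98373) (nat_lit 29) (.e (nat_lit 450588) (nat_lit 10) (.e (nat_lit 573505) (nat_lit 18) .nil)))) .nil))) (.nd (nat_lit 6) 
(.lf (nat_lit 137910) (.g (nat_lit 1013) (.e (nat_lit 24609) (nat_lit 3) (.e (nat_lit 98342) (nat_lit 20) (.e (nat_lit 221212) (nat_lit 22) .nil))) .nil)) 
(.lf (nat_lit 137974) (.g (nat_lit 2497) (.e (nat_lit 24616) (nat_lit 7) (.e (nat_lit 319530) (nat_lit 16) (.e (nat_lit 286759) (nat_lit 12) (.e (nat_lit 385113) (nat_lit 53) (.e (nat_lit 811045) (nat_lit 14) (.e (nat_lit 40996) (nat_lit 11) .nil)))))) (.g (nat_lit 0) .nil .nil)))))) (.nd (nat_lit 4) (.nd (nat_lit 5) (.nd (nat_lit 6) 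
(.lf (nat_lit 137870) (.g (nat_lit 3633) (.e (nat_lit 24608) (nat_lit 3) (.e (nat_lit 98373) (nat_lit 29) (.e (nat_lit 450588) (nat_lit 10) (.e (nat_lit 581376) (nat_lit 18) .nil)))) .nil)) 
(.lf (nat_lit 137934) (.g (nat_lit 3810) (.e (nat_lit 24609) (nat_lit 3) (.e (nat_lit 98373) (nat_lit 29) (.e (nat_lit 450588) (nat_lit 10) (.e (nat_lit 573452) (nat_lit 9) .nil)))) .nil))) (.nd (nat_lit 6) 
(.lf (nat_lit 137902) (.g (nat_lit 2994) (.e (nat_lit 24609) (nat_lit 3) (.e (nat_lit 98317) (nat_lit 9) (.e (nat_lit 336027) (nat_lit 3) (.e (nat_lit 98313) (nat_lit 9) (.e (nat_lit 336004) (nat_lit 2) (.e (nat_lit 90158) (nat_lit 11) .nil)))))) (.g (nat_lit 0) .nil .nil))) 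
(.lf (nat_lit 137966) (.g (nat_lit 2337) (.e (nat_lit 24616) (nat_lit 7) (.e (nat_lit 319530) (nat_lit 16) (.e (nat_lit 286759) (nat_lit 12) (.e (nat_lit 385094) (nat_lit 49) (.e (nat_lit 778510) (nat_lit 14) .nil))))) .nil)))) (.nd (nat_lit 5) (.nd (nat_lit 6) 
(.lf (nat_lit 137886) (.g (nat_lit 1988) (.e (nat_lit 24609) (nat_lit 3) (.e (nat_lit 98313) (nat_lit 9) (.e (nat_lit 336027) (nat_lit 3) (.e (nat_lit 98317) (nat_lit 9) (.e (nat_lit 336010) (nat_lit 2) (.e (nat_lit 90158) (nat_lit 11) .nil)))))) (.g (nat_lit 5) .nil .nil))) 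
(.lf (nat_lit 137950) (.g (nat_lit 2081) (.e (nat_lit 24616) (nat_lit 7) (.e (nat_lit 319505) (nat_lit 10) (.e (nat_lit 720) (nat_lit 64) (.e (nat_lit 688186) (nat_lit 18) (.e (nat_lit 81965) (nat_lit 26) .nil))))) .nil))) (.nd (nat_lit 6) 
(.lf (nat_lit 137918) (.g (nat_lit 1226) (.e (nat_lit 24609) (nat_lit 3) (.e (nat_lit 98372) (nat_lit 29) (.e (nat_lit 450579) (nat_lit 5) (.e (nat_lit 532503) (nat_lit 1) .nil)))) .nil)) 
(.lf (nat_lit 137982) (.g (nat_lit 2531) (.e (nat_lit 24616) (nat_lit 7) (.e (nat_lit 319531) (nat_lit 16) (.e (nat_lit 286748) (nat_lit 9) (.e (nat_lit 336295) (nat_lit 15) (.e (nat_lit 3806) (nat_lit 231) (.e (nat_lit 811045) (nat_lit 14) (.e (nat_lit 40997) (nat_lit 11) .nil))))))) (.g (nat_lit 4) .nil .nil))))))))) 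
(.nd (nat_lit 1) (.nd (nat_lit 2) (.nd (nat_lit 3) (.nd (nat_lit 4) (.nd (nat_lit 5) 
(.nd (nat_lit 6) 
(.lf (nat_lit 137857) (.g (nat_lit 2776) (.e (nat_lit 24608) (nat_lit 3) (.e (nat_lit 98373) (nat_lit 29) (.e (nat_lit 450562) (nat_lit 0) (.e (nat_lit 4284) (nat_lit 253) (.e (nat_lit 57395) (nat_lit 8) .nil))))) .nil)) 
(.lf (nat_lit 137921) (.g (nat_lit 1893) (.e (nat_lit 24609) (nat_lit 3) (.e (nat_lit 98372) (nat_lit 29) (.e (nat_lit 450586) (nat_lit 10) (.e (nat_lit 573475) (nat_lit 12) (.e (nat_lit 57574) (nat_lit 55) (.e (nat_lit 786176) (nat_lit 11) .nil)))))) (.g (nat_lit 4) .nil .nil)))) (.nd (nat_lit 6) 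
(.lf (nat_lit 137889) (.g (nat_lit 1111) (.e (nat_lit 24609) (nat_lit 3) (.e (nat_lit 98317) (nat_lit 9) (.e (nat_lit 336011) (nat_lit 2) (.e (nat_lit 90133) (nat_lit 9) .nil)))) .nil)) 
(.lf (nat_lit 137953) (.g (nat_lit 2023) (.e (nat_lit 24616) (nat_lit 7) (.e (nat_lit 319530) (nat_lit 16) (.e (nat_lit 286748) (nat_lit 9) (.e (nat_lit 336295) (nat_lit 15) (.e (nat_lit 3806) (nat_lit 231) .nil))))) .nil)))) (.nd (nat_lit 5) (.nd (nat_lit 6) 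
(.lf (nat_lit 137873) (.g (nat_lit 1399) (.e (nat_lit 24609) (nat_lit 3) (.e (nat_lit 98312) (nat_lit 9) (.e (nat_lit 336021) (nat_lit 3) (.e (nat_lit 98313) (nat_lit 9) .nil)))) .nil)) 
(.lf (nat_lit 137937) (.g (nat_lit 3006) (.e (nat_lit 24609) (nat_lit 3) (.e (nat_lit 98373) (nat_lit 29) (.e (nat_lit 450588) (nat_lit 10) (.e (nat_lit 573473) (nat_lit 12) (.e (nat_lit 65280) (nat_lit 55) .nil))))) .nil))) (.nd (nat_lit 6) 
(.lf (nat_lit 137905) (.g (nat_lit 2474) (.e (nat_lit 24609) (nat_lit 3) (.e (nat_lit 98317) (nat_lit 9) (.e (nat_lit 336027) (nat_lit 3) (.e (nat_lit 98317) (nat_lit 9) (.e (nat_lit 336002) (nat_lit 2) (.e (nat_lit 90158) (nat_lit 11) .nil)))))) (.g (nat_lit 6) .nil .nil))) 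
(.lf (nat_lit 137969) (.g (nat_lit 1286) (.e (nat_lit 24616) (nat_lit 7) (.e (nat_lit 319530) (nat_lit 16) (.e (nat_lit 286759) (nat_lit 12) (.e (nat_lit 385107) (nat_lit 51) .nil)))) .nil))))) (.nd (nat_lit 4) (.nd (nat_lit 5) (.nd (nat_lit 6) 
(.lf (nat_lit 137865) (.g (nat_lit 4417) (.e (nat_lit 24608) (nat_lit 3) (.e (nat_lit 98373) (nat_lit 29) (.e (nat_lit 450588) (nat_lit 10) (.e (nat_lit 573455) (nat_lit 9) .nil)))) .nil)) 
(.lf (nat_lit 137929) (.g (nat_lit 3842) (.e (nat_lit 24609) (nat_lit 3) (.e (nat_lit 98373) (nat_lit 29) (.e (nat_lit 450587) (nat_lit 10) (.e (nat_lit 573456) (nat_lit 9) (.e (nat_lit 1312) (nat_lit 98) (.e (nat_lit 147493) (nat_lit 11) .nil)))))) (.g (nat_lit 4) .nil .nil)))) (.nd (nat_lit 6) 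
(.lf (nat_lit 137897) (.g (nat_lit 3001) (.e (nat_lit 24609) (nat_lit 3) (.e (nat_lit 98317) (nat_lit 9) (.e (nat_lit 336025) (nat_lit 3) (.e (nat_lit 98313) (nat_lit 9) (.e (nat_lit 336004) (nat_lit 2) (.e (nat_lit 90158) (nat_lit 11) .nil)))))) (.g (nat_lit 0) .nil .nil))) 
(.lf (nat_lit 137961) (.g (nat_lit 2557) (.e (nat_lit 24616) (nat_lit 7) (.e (nat_lit 319530) (nat_lit 16) (.e (nat_lit 286759) (nat_lit 12) (.e (nat_lit 385093) (nat_lit 49) (.e (nat_lit 778510) (nat_lit 14) (.e (nat_lit 1149) (nat_lit 85) (.e (nat_lit 40997) (nat_lit 11) .nil))))))) (.g (nat_lit 4) .nil .nil))))) (.nd (nat_lit 5) (.nd (nat_lit 6) 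
(.lf (nat_lit 137881) (.g (nat_lit 1113) (.e (nat_lit 24609) (nat_lit 3) (.e (nat_lit 98313) (nat_lit 9) (.e (nat_lit 336021) (nat_lit 3) (.e (nat_lit 98313) (nat_lit 9) .nil)))) .nil)) 
(.lf (nat_lit 137945) (.g (nat_lit 3361) (.e (nat_lit 24615) (nat_lit 6) (.e (nat_lit 147460) (nat_lit 0) (.e (nat_lit 1582) (nat_lit 111) (.e (nat_lit 360475) (nat_lit 8) (.e (nat_lit 557089) (nat_lit 12) (.e (nat_lit 164007) (nat_lit 41) (.e (nat_lit 663583) (nat_lit 11) .nil))))))) (.g (nat_lit 7) .nil .nil)))) (.nd (nat_lit 6) 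
(.lf (nat_lit 137913) (.g (nat_lit 805) (.e (nat_lit 24609) (nat_lit 3) (.e (nat_lit 98342) (nat_lit 20) (.e (nat_lit 221215) (nat_lit 23) .nil))) .nil)) 
(.lf (nat_lit 137977) (.g (nat_lit 2569) (.e (nat_lit 24616) (nat_lit 7) (.e (nat_lit 319530) (nat_lit 16) (.e (nat_lit 286759) (nat_lit 12) (.e (nat_lit 385114) (nat_lit 53) (.e (nat_lit 811045) (nat_lit 14) (.e (nat_lit 40997) (nat_lit 11) .nil)))))) (.g (nat_lit 0) .nil .nil))))))) (.nd (nat_lit 3) (.nd (nat_lit 4) (.nd (nat_lit 5) (.nd (nat_lit 6) 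
(.lf (nat_lit 137861) (.g (nat_lit 3873) (.e (nat_lit 24608) (nat_lit 3) (.e (nat_lit 98373) (nat_lit 29) (.e (nat_lit 450587) (nat_lit 10) (.e (nat_lit 573456) (nat_lit 9) (.e (nat_lit 1312) (nat_lit 98) (.e (nat_lit 147494) (nat_lit 11) .nil)))))) (.g (nat_lit 4) .nil .nil))) 
(.lf (nat_lit 137925) (.g (nat_lit 889) (.e (nat_lit 24609) (nat_lit 3) (.e (nat_lit 98373) (nat_lit 29) (.e (nat_lit 450586) (nat_lit 10) .nil))) .nil))) (.nd (nat_lit 6) 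
(.lf (nat_lit 137893) (.g (nat_lit 3362) (.e (nat_lit 24609) (nat_lit 3) (.e (nat_lit 98317) (nat_lit 9) (.e (nat_lit 336021) (nat_lit 3) (.e (nat_lit 98313) (nat_lit 9) (.e (nat_lit 336012) (nat_lit 2) (.e (nat_lit 90158) (nat_lit 11) .nil)))))) (.g (nat_lit 0) .nil .nil))) 
(.lf (nat_lit 137957) (.g (nat_lit 2010) (.e (nat_lit 24616) (nat_lit 7) (.e (nat_lit 319530) (nat_lit 16) (.e (nat_lit 286759) (nat_lit 12) (.e (nat_lit 385092) (nat_lit 49) (.e (nat_lit 778510) (nat_lit 14) .nil))))) .nil)))) (.nd (nat_lit 5) (.nd (nat_lit 6) 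
(.lf (nat_lit 137877) (.g (nat_lit 1954) (.e (nat_lit 24609) (nat_lit 3) (.e (nat_lit 98313) (nat_lit 9) (.e (nat_lit 336012) (nat_lit 2) (.e (nat_lit 90158) (nat_lit 11) (.e (nat_lit 24602) (nat_lit 2) (.e (nat_lit 90158) (nat_lit 11) .nil)))))) (.g (nat_lit 4) .nil .nil))) 
(.lf (nat_lit 137941) (.g (nat_lit 3740) (.e (nat_lit 24609) (nat_lit 3) (.e (nat_lit 98373) (nat_lit 29) (.e (nat_lit 450588) (nat_lit 10) (.e (nat_lit 573503) (nat_lit 18) .nil)))) .nil))) (.nd (nat_lit 6) 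
(.lf (nat_lit 137909) (.g (nat_lit 660) (.e (nat_lit 24609) (nat_lit 3) (.e (nat_lit 98341) (nat_lit 20) (.e (nat_lit 221215) (nat_lit 23) .nil))) .nil)) 
(.lf (nat_lit 137973) (.g (nat_lit 2296) (.e (nat_lit 24616) (nat_lit 7) (.e (nat_lit 319530) (nat_lit 16) (.e (nat_lit 286759) (nat_lit 12) (.e (nat_lit 385113) (nat_lit 53) (.e (nat_lit 811045) (nat_lit 14) (.e (nat_lit 40995) (nat_lit 11) .nil)))))) (.g (nat_lit 6) .nil .nil)))))) (.nd (nat_lit 4) (.nd (nat_lit 5) (.nd (nat_lit 6) 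
(.lf (nat_lit 137869) (.g (nat_lit 4111) (.e (nat_lit 24608) (nat_lit 3) (.e (nat_lit 98373) (nat_lit 29) (.e (nat_lit 450588) (nat_lit 10) (.e (nat_lit 573505) (nat_lit 18) .nil)))) .nil)) 
(.lf (nat_lit 137933) (.g (nat_lit 3702) (.e (nat_lit 24609) (nat_lit 3) (.e (nat_lit 98373) (nat_lit 29) (.e (nat_lit 450588) (nat_lit 10) (.e (nat_lit 573451) (nat_lit 9) .nil)))) .nil))) (.nd (nat_lit 6) 
(.lf (nat_lit 137901) (.g (nat_lit 2995) (.e (nat_lit 24609) (nat_lit 3) (.e (nat_lit 98317) (nat_lit 9) (.e (nat_lit 336027) (nat_lit 3) (.e (nat_lit 98312) (nat_lit 9) (.e (nat_lit 336012) (nat_lit 2) (.e (nat_lit 90158) (nat_lit 11) .nil)))))) (.g (nat_lit 6) .nil .nil))) 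
(.lf (nat_lit 137965) (.g (nat_lit 2873) (.e (nat_lit 24616) (nat_lit 7) (.e (nat_lit 319530) (nat_lit 16) (.e (nat_lit 286759) (nat_lit 12) (.e (nat_lit 385094) (nat_lit 49) (.e (nat_lit 778506) (nat_lit 14) .nil))))) .nil)))) (.nd (nat_lit 5) (.nd (nat_lit 6) 
(.lf (nat_lit 137885) (.g (nat_lit 2552) (.e (nat_lit 24609) (nat_lit 3) (.e (nat_lit 98313) (nat_lit 9) (.e (nat_lit 336027) (nat_lit 3) (.e (nat_lit 98313) (nat_lit 9) (.e (nat_lit 336004) (nat_lit 2) (.e (nat_lit 90158) (nat_lit 11) .nil)))))) (.g (nat_lit 5) .nil .nil))) 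
(.lf (nat_lit 137949) (.g (nat_lit 569) (.e (nat_lit 24616) (nat_lit 7) (.e (nat_lit 319505) (nat_lit 10) (.e (nat_lit 720) (nat_lit 64) .nil))) .nil))) (.nd (nat_lit 6) 
(.lf (nat_lit 137917) (.g (nat_lit 1059) (.e (nat_lit 24609) (nat_lit 3) (.e (nat_lit 98367) (nat_lit 27) (.e (nat_lit 434259) (nat_lit 32) .nil))) .nil)) 
(.lf (nat_lit 137981) (.g (nat_lit 2484) (.e (nat_lit 24616) (nat_lit 7) (.e (nat_lit 319531) (nat_lit 16) (.e (nat_lit 286748) (nat_lit 9) (.e (nat_lit 336295) (nat_lit 15) (.e (nat_lit 3806) (nat_lit 231) .nil))))) .nil))))))) (.nd (nat_lit 2) (.nd (nat_lit 3) (.nd (nat_lit 4) (.nd (nat_lit 5) (.nd (nat_lit 6) 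
(.lf (nat_lit 137859) (.g (nat_lit 3552) (.e (nat_lit 24608) (nat_lit 3) (.e (nat_lit 98373) (nat_lit 29) (.e (nat_lit 450587) (nat_lit 10) (.e (nat_lit 573456) (nat_lit 9) (.e (nat_lit 1312) (nat_lit 98) (.e (nat_lit 147492) (nat_lit 11) .nil)))))) (.g (nat_lit 4) .nil .nil))) 
(.lf (nat_lit 137923) (.g (nat_lit 2777) (.e (nat_lit 24609) (nat_lit 3) (.e (nat_lit 98372) (nat_lit 29) (.e (nat_lit 450588) (nat_lit 10) (.e (nat_lit 573449) (nat_lit 9) .nil)))) .nil))) (.nd (nat_lit 6) 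
(.lf (nat_lit 137891) (.g (nat_lit 2634) (.e (nat_lit 24609) (nat_lit 3) (.e (nat_lit 98317) (nat_lit 9) (.e (nat_lit 336012) (nat_lit 2) (.e (nat_lit 90160) (nat_lit 11) (.e (nat_lit 24603) (nat_lit 2) (.e (nat_lit 90158) (nat_lit 11) .nil)))))) (.g (nat_lit 0) .nil .nil))) 
(.lf (nat_lit 137955) (.g (nat_lit 413) (.e (nat_lit 24616) (nat_lit 7) (.e (nat_lit 319530) (nat_lit 16) (.e (nat_lit 286759) (nat_lit 12) .nil))) .nil)))) (.nd (nat_lit 5) (.nd (nat_lit 6) 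
(.lf (nat_lit 137875) (.g (nat_lit 1909) (.e (nat_lit 24609) (nat_lit 3) (.e (nat_lit 98313) (nat_lit 9) (.e (nat_lit 336011) (nat_lit 2) (.e (nat_lit 90134) (nat_lit 9) (.e (nat_lit 290) (nat_lit 21) .nil))))) .nil)) 
(.lf (nat_lit 137939) (.g (nat_lit 4244) (.e (nat_lit 24609) (nat_lit 3) (.e (nat_lit 98373) (nat_lit 29) (.e (nat_lit 450588) (nat_lit 10) (.e (nat_lit 573495) (nat_lit 16) .nil)))) .nil))) (.nd (nat_lit 6) 
(.lf (nat_lit 137907) (.g (nat_lit 1164) (.e (nat_lit 24609) (nat_lit 3) (.e (nat_lit 98325) (nat_lit 17) (.e (nat_lit 7350) (nat_lit 388) (.e (nat_lit 3067) (nat_lit 190) (.e (nat_lit 475178) (nat_lit 24) .nil))))) .nil)) 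
(.lf (nat_lit 137971) (.g (nat_lit 2103) (.e (nat_lit 24616) (nat_lit 7) (.e (nat_lit 319530) (nat_lit 16) (.e (nat_lit 286759) (nat_lit 12) (.e (nat_lit 385107) (nat_lit 51) (.e (nat_lit 794678) (nat_lit 24) .nil))))) .nil))))) (.nd (nat_lit 4) (.nd (nat_lit 5) (.nd (nat_lit 6) 
(.lf (nat_lit 137867) (.g (nat_lit 3707) (.e (nat_lit 24608) (nat_lit 3) (.e (nat_lit 98373) (nat_lit 29) (.e (nat_lit 450588) (nat_lit 10) (.e (nat_lit 573503) (nat_lit 18) .nil)))) .nil)) 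
(.lf (nat_lit 137931) (.g (nat_lit 3606) (.e (nat_lit 24609) (nat_lit 3) (.e (nat_lit 98373) (nat_lit 29) (.e (nat_lit 450588) (nat_lit 10) (.e (nat_lit 573449) (nat_lit 9) .nil)))) .nil))) (.nd (nat_lit 6) 
(.lf (nat_lit 137899) (.g (nat_lit 2753) (.e (nat_lit 24609) (nat_lit 3) (.e (nat_lit 98317) (nat_lit 9) (.e (nat_lit 336026) (nat_lit 3) (.e (nat_lit 98317) (nat_lit 9) (.e (nat_lit 336004) (nat_lit 2) (.e (nat_lit 90158) (nat_lit 11) .nil)))))) (.g (nat_lit 0) .nil .nil))) 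
(.lf (nat_lit 137963) (.g (nat_lit 3310) (.e (nat_lit 24616) (nat_lit 7) (.e (nat_lit 319530) (nat_lit 16) (.e (nat_lit 286759) (nat_lit 12) (.e (nat_lit 385094) (nat_lit 49) (.e (nat_lit 778498) (nat_lit 14) .nil))))) .nil)))) (.nd (nat_lit 5) (.nd (nat_lit 6) 
(.lf (nat_lit 137883) (.g (nat_lit 2065) (.e (nat_lit 24609) (nat_lit 3) (.e (nat_lit 98313) (nat_lit 9) (.e (nat_lit 336021) (nat_lit 3) (.e (nat_lit 98317) (nat_lit 9) (.e (nat_lit 336010) (nat_lit 2) (.e (nat_lit 90158) (nat_lit 11) .nil)))))) (.g (nat_lit 5) .nil .nil))) 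
(.lf (nat_lit 137947) (.g (nat_lit 1324) (.e (nat_lit 24616) (nat_lit 7) (.e (nat_lit 319500) (nat_lit 10) (.e (nat_lit 720) (nat_lit 64) (.e (nat_lit 688186) (nat_lit 18) (.e (nat_lit 81965) (nat_lit 26) .nil))))) .nil))) (.nd (nat_lit 6) 
(.lf (nat_lit 137915) (.g (nat_lit 1913) (.e (nat_lit 24609) (nat_lit 3) (.e (nat_lit 98358) (nat_lit 26) (.e (nat_lit 426226) (nat_lit 9) (.e (nat_lit 426438) (nat_lit 18) (.e (nat_lit 98339) (nat_lit 19) .nil))))) .nil)) 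
(.lf (nat_lit 137979) (.g (nat_lit 1515) (.e (nat_lit 24616) (nat_lit 7) (.e (nat_lit 319531) (nat_lit 16) (.e (nat_lit 286743) (nat_lit 9) (.e (nat_lit 336337) (nat_lit 20) .nil)))) .nil)))))) (.nd (nat_lit 3) (.nd (nat_lit 4) (.nd (nat_lit 5) (.nd (nat_lit 6) 
(.lf (nat_lit 137863) (.g (nat_lit 3499) (.e (nat_lit 24608) (nat_lit 3) (.e (nat_lit 98373) (nat_lit 29) (.e (nat_lit 450587) (nat_lit 10) (.e (nat_lit 573499) (nat_lit 18) .nil)))) .nil)) 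
(.lf (nat_lit 137927) (.g (nat_lit 2733) (.e (nat_lit 24609) (nat_lit 3) (.e (nat_lit 98373) (nat_lit 29) (.e (nat_lit 450587) (nat_lit 10) (.e (nat_lit 573456) (nat_lit 9) .nil)))) .nil))) (.nd (nat_lit 6) 
(.lf (nat_lit 137895) (.g (nat_lit 2234) (.e (nat_lit 24609) (nat_lit 3) (.e (nat_lit 98317) (nat_lit 9) (.e (nat_lit 336021) (nat_lit 3) (.e (nat_lit 98317) (nat_lit 9) (.e (nat_lit 336003) (nat_lit 2) .nil))))) .nil)) 
(.lf (nat_lit 137959) (.g (nat_lit 2425) (.e (nat_lit 24616) (nat_lit 7) (.e (nat_lit 319530) (nat_lit 16) (.e (nat_lit 286759) (nat_lit 12) (.e (nat_lit 385093) (nat_lit 49) (.e (nat_lit 778510) (nat_lit 14) .nil))))) .nil)))) (.nd (nat_lit 5) (.nd (nat_lit 6) 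
(.lf (nat_lit 137879) (.g (nat_lit 2228) (.e (nat_lit 24609) (nat_lit 3) (.e (nat_lit 98313) (nat_lit 9) (.e (nat_lit 336012) (nat_lit 2) (.e (nat_lit 90160) (nat_lit 11) (.e (nat_lit 24602) (nat_lit 2) (.e (nat_lit 90158) (nat_lit 11) .nil)))))) (.g (nat_lit 4) .nil .nil))) 
(.lf (nat_lit 137943) (.g (nat_lit 4009) (.e (nat_lit 24609) (nat_lit 3) (.e (nat_lit 98373) (nat_lit 29) (.e (nat_lit 450588) (nat_lit 10) (.e (nat_lit 581376) (nat_lit 18) .nil)))) .nil))) (.nd (nat_lit 6) 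
(.lf (nat_lit 137911) (.g (nat_lit 1966) (.e (nat_lit 24609) (nat_lit 3) (.e (nat_lit 98342) (nat_lit 20) (.e (nat_lit 221212) (nat_lit 22) (.e (nat_lit 196626) (nat_lit 9) .nil)))) .nil)) 
(.lf (nat_lit 137975) (.g (nat_lit 2352) (.e (nat_lit 24616) (nat_lit 7) (.e (nat_lit 319530) (nat_lit 16) (.e (nat_lit 286759) (nat_lit 12) (.e (nat_lit 385114) (nat_lit 53) (.e (nat_lit 811045) (nat_lit 14) (.e (nat_lit 40995) (nat_lit 11) .nil)))))) (.g (nat_lit 6) .nil .nil)))))) (.nd (nat_lit 4) (.nd (nat_lit 5) (.nd (nat_lit 6) 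
(.lf (nat_lit 137871) (.g (nat_lit 373) (.e (nat_lit 24608) (nat_lit 3) (.e (nat_lit 98381) (nat_lit 31) (.e (nat_lit 466972) (nat_lit 21) .nil))) .nil)) 
(.lf (nat_lit 137935) (.g (nat_lit 4137) (.e (nat_lit 24609) (nat_lit 3) (.e (nat_lit 98373) (nat_lit 29) (.e (nat_lit 450588) (nat_lit 10) (.e (nat_lit 573453) (nat_lit 9) .nil)))) .nil))) (.nd (nat_lit 6) 
(.lf (nat_lit 137903) (.g (nat_lit 3093) (.e (nat_lit 24609) (nat_lit 3) (.e (nat_lit 98317) (nat_lit 9) (.e (nat_lit 336027) (nat_lit 3) (.e (nat_lit 98313) (nat_lit 9) (.e (nat_lit 336012) (nat_lit 2) (.e (nat_lit 90158) (nat_lit 11) .nil)))))) (.g (nat_lit 0) .nil .nil))) 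
(.lf (nat_lit 137967) (.g (nat_lit 2885) (.e (nat_lit 24616) (nat_lit 7) (.e (nat_lit 319530) (nat_lit 16) (.e (nat_lit 286759) (nat_lit 12) (.e (nat_lit 385094) (nat_lit 49) (.e (nat_lit 778538) (nat_lit 14) .nil))))) .nil)))) (.nd (nat_lit 5) (.nd (nat_lit 6) 
(.lf (nat_lit 137887) (.g (nat_lit 1002) (.e (nat_lit 24609) (nat_lit 3) (.e (nat_lit 98317) (nat_lit 9) (.e (nat_lit 336002) (nat_lit 2) (.e (nat_lit 90157) (nat_lit 11) .nil)))) .nil)) 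
(.lf (nat_lit 137951) (.g (nat_lit 3482) (.e (nat_lit 24616) (nat_lit 7) (.e (nat_lit 319519) (nat_lit 12) (.e (nat_lit 32787) (nat_lit 9) (.e (nat_lit 65619) (nat_lit 10) (.e (nat_lit 344129) (nat_lit 26) (.e (nat_lit 557087) (nat_lit 11) .nil)))))) (.g (nat_lit 6) .nil .nil)))) (.nd (nat_lit 6) 
(.lf (nat_lit 137919) (.g (nat_lit 1170) (.e (nat_lit 24609) (nat_lit 3) (.e (nat_lit 98372) (nat_lit 29) (.e (nat_lit 450586) (nat_lit 10) (.e (nat_lit 573456) (nat_lit 9) .nil)))) .nil)) 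
(.lf (nat_lit 137983) (.g (nat_lit 921) (.e (nat_lit 24616) (nat_lit 7) (.e (nat_lit 319531) (nat_lit 16) (.e (nat_lit 286759) (nat_lit 12) .nil))) .nil)))))))))

noncomputable def tv1832 : DT := (.nd (nat_lit 0) (.nd (nat_lit 1) (.nd (nat_lit 2) (.nd (nat_lit 3) (.nd (nat_lit 4) (.nd (nat_lit 5) 
(.lf (nat_lit 137984) (.g (nat_lit 1985) (.e (nat_lit 24616) (nat_lit 7) (.e (nat_lit 319531) (nat_lit 16) (.e (nat_lit 286759) (nat_lit 12) (.e (nat_lit 385093) (nat_lit 49) .nil)))) .nil)) 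
(.lf (nat_lit 138016) (.g (nat_lit 2351) (.e (nat_lit 24617) (nat_lit 7) (.e (nat_lit 319504) (nat_lit 10) (.e (nat_lit 618) (nat_lit 48) (.e (nat_lit 557109) (nat_lit 15) (.e (nat_lit 196352) (nat_lit 0) (.e (nat_lit 6707) (nat_lit 359) .nil)))))) (.g (nat_lit 4) .nil .nil)))) (.nd (nat_lit 5) 
(.lf (nat_lit 138000) (.g (nat_lit 535) (.e (nat_lit 24617) (nat_lit 7) (.e (nat_lit 319504) (nat_lit 10) (.e (nat_lit 516) (nat_lit 41) .nil))) .nil)) 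
(.lf (nat_lit 138032) (.g (nat_lit 2577) (.e (nat_lit 24617) (nat_lit 7) (.e (nat_lit 319505) (nat_lit 10) (.e (nat_lit 618) (nat_lit 48) (.e (nat_lit 557100) (nat_lit 13) (.e (nat_lit 172118) (nat_lit 12) (.e (nat_lit 483072) (nat_lit 2) .nil)))))) (.g (nat_lit 4) .nil .nil))))) (.nd (nat_lit 4) (.nd (nat_lit 5) 
(.lf (nat_lit 137992) (.g (nat_lit 841) (.e (nat_lit 24617) (nat_lit 7) (.e (nat_lit 319490) (nat_lit 0) (.e (nat_lit 539) (nat_lit 41) .nil))) .nil)) 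
(.lf (nat_lit 138024) (.g (nat_lit 455) (.e (nat_lit 24617) (nat_lit 7) (.e (nat_lit 319505) (nat_lit 10) (.e (nat_lit 618) (nat_lit 48) .nil))) .nil))) (.nd (nat_lit 5) 
(.lf (nat_lit 138008) (.g (nat_lit 2059) (.e (nat_lit 24617) (nat_lit 7) (.e (nat_lit 319504) (nat_lit 10) (.e (nat_lit 618) (nat_lit 48) (.e (nat_lit 557107) (nat_lit 15) (.e (nat_lit 188416) (nat_lit 0) .nil))))) .nil)) 
(.lf (nat_lit 138040) (.g (nat_lit 3355) (.e (nat_lit 24617) (nat_lit 7) (.e (nat_lit 319505) (nat_lit 10) (.e (nat_lit 618) (nat_lit 48) (.e (nat_lit 557109) (nat_lit 15) (.e (nat_lit 188417) (nat_lit 0) (.e (nat_lit 7936) (nat_lit 359) .nil)))))) (.g (nat_lit 4) .nil .nil)))))) (.nd (nat_lit 3) (.nd (nat_lit 4) (.nd (nat_lit 5) 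
(.lf (nat_lit 137988) (.g (nat_lit 2912) (.e (nat_lit 24616) (nat_lit 7) (.e (nat_lit 319533) (nat_lit 16) (.e (nat_lit 286753) (nat_lit 10) (.e (nat_lit 344160) (nat_lit 37) (.e (nat_lit 647190) (nat_lit 9) (.e (nat_lit 1312) (nat_lit 98) (.e (nat_lit 147496) (nat_lit 11) .nil))))))) (.g (nat_lit 5) .nil .nil))) 
(.lf (nat_lit 138020) (.g (nat_lit 3458) (.e (nat_lit 24617) (nat_lit 7) (.e (nat_lit 319504) (nat_lit 10) (.e (nat_lit 618) (nat_lit 48) (.e (nat_lit 557109) (nat_lit 15) (.e (nat_lit 188455) (nat_lit 24) (.e (nat_lit 229542) (nat_lit 146) (.e (nat_lit 2551) (nat_lit 159) .nil))))))) (.g (nat_lit 5) .nil .nil)))) (.nd (nat_lit 5) 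
(.lf (nat_lit 138004) (.g (nat_lit 2885) (.e (nat_lit 24617) (nat_lit 7) (.e (nat_lit 319504) (nat_lit 10) (.e (nat_lit 536) (nat_lit 41) (.e (nat_lit 499967) (nat_lit 14) (.e (nat_lit 1586) (nat_lit 111) (.e (nat_lit 360475) (nat_lit 8) (.e (nat_lit 557087) (nat_lit 11) .nil))))))) (.g (nat_lit 7) .nil .nil))) 
(.lf (nat_lit 138036) (.g (nat_lit 2801) (.e (nat_lit 24617) (nat_lit 7) (.e (nat_lit 319505) (nat_lit 10) (.e (nat_lit 618) (nat_lit 48) (.e (nat_lit 557107) (nat_lit 15) (.e (nat_lit 188418) (nat_lit 0) (.e (nat_lit 7936) (nat_lit 359) .nil)))))) (.g (nat_lit 4) .nil .nil))))) (.nd (nat_lit 4) (.nd (nat_lit 5) 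
(.lf (nat_lit 137996) (.g (nat_lit 1515) (.e (nat_lit 24617) (nat_lit 7) (.e (nat_lit 319500) (nat_lit 10) (.e (nat_lit 720) (nat_lit 64) (.e (nat_lit 688185) (nat_lit 18) (.e (nat_lit 81965) (nat_lit 26) .nil))))) .nil)) 
(.lf (nat_lit 138028) (.g (nat_lit 3953) (.e (nat_lit 24617) (nat_lit 7) (.e (nat_lit 319505) (nat_lit 10) (.e (nat_lit 618) (nat_lit 48) (.e (nat_lit 557098) (nat_lit 13) (.e (nat_lit 172119) (nat_lit 12) (.e (nat_lit 483072) (nat_lit 2) .nil)))))) (.g (nat_lit 5) .nil .nil)))) (.nd (nat_lit 5) 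
(.lf (nat_lit 138012) (.g (nat_lit 2656) (.e (nat_lit 24617) (nat_lit 7) (.e (nat_lit 319504) (nat_lit 10) (.e (nat_lit 618) (nat_lit 48) (.e (nat_lit 557109) (nat_lit 15) (.e (nat_lit 188418) (nat_lit 0) (.e (nat_lit 7936) (nat_lit 359) .nil)))))) (.g (nat_lit 4) .nil .nil))) 
(.lf (nat_lit 138044) (.g (nat_lit 3437) (.e (nat_lit 24617) (nat_lit 7) (.e (nat_lit 319505) (nat_lit 10) (.e (nat_lit 618) (nat_lit 48) (.e (nat_lit 557109) (nat_lit 15) (.e (nat_lit 196352) (nat_lit 0) (.e (nat_lit 6704) (nat_lit 359) .nil)))))) (.g (nat_lit 4) .nil .nil))))))) (.nd (nat_lit 2) (.nd (nat_lit 3) (.nd (nat_lit 4) (.nd (nat_lit 5) 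
(.lf (nat_lit 137986) (.g (nat_lit 1891) (.e (nat_lit 24616) (nat_lit 7) (.e (nat_lit 319533) (nat_lit 16) (.e (nat_lit 286753) (nat_lit 10) (.e (nat_lit 344160) (nat_lit 37) (.e (nat_lit 647190) (nat_lit 9) .nil))))) .nil)) 
(.lf (nat_lit 138018) (.g (nat_lit 2557) (.e (nat_lit 24617) (nat_lit 7) (.e (nat_lit 319504) (nat_lit 10) (.e (nat_lit 618) (nat_lit 48) (.e (nat_lit 557109) (nat_lit 15) (.e (nat_lit 196352) (nat_lit 0) (.e (nat_lit 7936) (nat_lit 359) .nil)))))) (.g (nat_lit 4) .nil .nil)))) (.nd (nat_lit 5) 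
(.lf (nat_lit 138002) (.g (nat_lit 3284) (.e (nat_lit 24617) (nat_lit 7) (.e (nat_lit 319504) (nat_lit 10) (.e (nat_lit 531) (nat_lit 41) (.e (nat_lit 499991) (nat_lit 14) (.e (nat_lit 1580) (nat_lit 111) (.e (nat_lit 360473) (nat_lit 8) (.e (nat_lit 557087) (nat_lit 11) .nil))))))) (.g (nat_lit 7) .nil .nil))) 
(.lf (nat_lit 138034) (.g (nat_lit 2632) (.e (nat_lit 24617) (nat_lit 7) (.e (nat_lit 319505) (nat_lit 10) (.e (nat_lit 618) (nat_lit 48) (.e (nat_lit 557107) (nat_lit 15) (.e (nat_lit 188416) (nat_lit 0) (.e (nat_lit 7936) (nat_lit 359) .nil)))))) (.g (nat_lit 4) .nil .nil))))) (.nd (nat_lit 4) (.nd (nat_lit 5) 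
(.lf (nat_lit 137994) (.g (nat_lit 1448) (.e (nat_lit 24617) (nat_lit 7) (.e (nat_lit 319499) (nat_lit 10) (.e (nat_lit 806) (nat_lit 67) (.e (nat_lit 712752) (nat_lit 29) (.e (nat_lit 442424) (nat_lit 22) (.e (nat_lit 204544) (nat_lit 2) .nil)))))) (.g (nat_lit 4) .nil .nil))) 
(.lf (nat_lit 138026) (.g (nat_lit 2542) (.e (nat_lit 24617) (nat_lit 7) (.e (nat_lit 319505) (nat_lit 10) (.e (nat_lit 618) (nat_lit 48) (.e (nat_lit 557098) (nat_lit 13) (.e (nat_lit 172115) (nat_lit 10) (.e (nat_lit 434284) (nat_lit 41) (.e (nat_lit 679974) (nat_lit 15) .nil))))))) (.g (nat_lit 4) .nil .nil)))) (.nd (nat_lit 5) 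
(.lf (nat_lit 138010) (.g (nat_lit 2122) (.e (nat_lit 24617) (nat_lit 7) (.e (nat_lit 319504) (nat_lit 10) (.e (nat_lit 618) (nat_lit 48) (.e (nat_lit 557107) (nat_lit 15) (.e (nat_lit 188418) (nat_lit 0) (.e (nat_lit 7936) (nat_lit 359) .nil)))))) (.g (nat_lit 4) .nil .nil))) 
(.lf (nat_lit 138042) (.g (nat_lit 3453) (.e (nat_lit 24617) (nat_lit 7) (.e (nat_lit 319505) (nat_lit 10) (.e (nat_lit 618) (nat_lit 48) (.e (nat_lit 557109) (nat_lit 15) (.e (nat_lit 188419) (nat_lit 0) (.e (nat_lit 7936) (nat_lit 359) .nil)))))) (.g (nat_lit 5) .nil .nil)))))) (.nd (nat_lit 3) (.nd (nat_lit 4) (.nd (nat_lit 5) 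
(.lf (nat_lit 137990) (.g (nat_lit 1473) (.e (nat_lit 24616) (nat_lit 7) (.e (nat_lit 319534) (nat_lit 16) (.e (nat_lit 286756) (nat_lit 10) (.e (nat_lit 344160) (nat_lit 37) .nil)))) .nil)) 
(.lf (nat_lit 138022) (.g (nat_lit 3003) (.e (nat_lit 24617) (nat_lit 7) (.e (nat_lit 319504) (nat_lit 10) (.e (nat_lit 804) (nat_lit 67) (.e (nat_lit 712752) (nat_lit 29) (.e (nat_lit 442424) (nat_lit 22) (.e (nat_lit 204544) (nat_lit 2) .nil)))))) (.g (nat_lit 5) .nil .nil)))) (.nd (nat_lit 5) 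
(.lf (nat_lit 138006) (.g (nat_lit 3294) (.e (nat_lit 24617) (nat_lit 7) (.e (nat_lit 319504) (nat_lit 10) (.e (nat_lit 618) (nat_lit 48) (.e (nat_lit 557098) (nat_lit 13) (.e (nat_lit 172119) (nat_lit 12) (.e (nat_lit 483072) (nat_lit 2) .nil)))))) (.g (nat_lit 5) .nil .nil))) 
(.lf (nat_lit 138038) (.g (nat_lit 1966) (.e (nat_lit 24617) (nat_lit 7) (.e (nat_lit 319505) (nat_lit 10) (.e (nat_lit 618) (nat_lit 48) (.e (nat_lit 557107) (nat_lit 15) (.e (nat_lit 196352) (nat_lit 0) .nil))))) .nil)))) (.nd (nat_lit 4) (.nd (nat_lit 5) 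
(.lf (nat_lit 137998) (.g (nat_lit 1440) (.e (nat_lit 24617) (nat_lit 7) (.e (nat_lit 319503) (nat_lit 10) (.e (nat_lit 804) (nat_lit 67) (.e (nat_lit 712752) (nat_lit 29) (.e (nat_lit 442424) (nat_lit 22) (.e (nat_lit 204544) (nat_lit 2) .nil)))))) (.g (nat_lit 4) .nil .nil))) 
(.lf (nat_lit 138030) (.g (nat_lit 3927) (.e (nat_lit 24617) (nat_lit 7) (.e (nat_lit 319505) (nat_lit 10) (.e (nat_lit 618) (nat_lit 48) (.e (nat_lit 557100) (nat_lit 13) (.e (nat_lit 172106) (nat_lit 10) (.e (nat_lit 434284) (nat_lit 41) (.e (nat_lit 679974) (nat_lit 15) .nil))))))) (.g (nat_lit 5) .nil .nil)))) (.nd (nat_lit 5) 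
(.lf (nat_lit 138014) (.g (nat_lit 1643) (.e (nat_lit 24617) (nat_lit 7) (.e (nat_lit 319504) (nat_lit 10) (.e (nat_lit 618) (nat_lit 48) (.e (nat_lit 557109) (nat_lit 15) (.e (nat_lit 196352) (nat_lit 0) .nil))))) .nil)) 
(.lf (nat_lit 138046) (.g (nat_lit 3340) (.e (nat_lit 24617) (nat_lit 7) (.e (nat_lit 319505) (nat_lit 10) (.e (nat_lit 618) (nat_lit 48) (.e (nat_lit 557109) (nat_lit 15) (.e (nat_lit 196352) (nat_lit 0) (.e (nat_lit 6708) (nat_lit 359) .nil)))))) (.g (nat_lit 4) .nil .nil)))))))) (.nd (nat_lit 1) (.nd (nat_lit 2) (.nd (nat_lit 3) (.nd (nat_lit 4) (.nd (nat_lit 5) 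
(.lf (nat_lit 137985) (.g (nat_lit 2028) (.e (nat_lit 24616) (nat_lit 7) (.e (nat_lit 319531) (nat_lit 16) (.e (nat_lit 286759) (nat_lit 12) (.e (nat_lit 385107) (nat_lit 51) .nil)))) .nil)) 
(.lf (nat_lit 138017) (.g (nat_lit 2134) (.e (nat_lit 24617) (nat_lit 7) (.e (nat_lit 319504) (nat_lit 10) (.e (nat_lit 618) (nat_lit 48) (.e (nat_lit 557109) (nat_lit 15) (.e (nat_lit 196352) (nat_lit 0) (.e (nat_lit 6708) (nat_lit 359) .nil)))))) (.g (nat_lit 4) .nil .nil)))) (.nd (nat_lit 5) 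
(.lf (nat_lit 138001) (.g (nat_lit 2709) (.e (nat_lit 24617) (nat_lit 7) (.e (nat_lit 319504) (nat_lit 10) (.e (nat_lit 531) (nat_lit 41) (.e (nat_lit 499952) (nat_lit 14) (.e (nat_lit 1586) (nat_lit 111) (.e (nat_lit 360475) (nat_lit 8) (.e (nat_lit 557087) (nat_lit 11) .nil))))))) (.g (nat_lit 7) .nil .nil))) 
(.lf (nat_lit 138033) (.g (nat_lit 3222) (.e (nat_lit 24617) (nat_lit 7) (.e (nat_lit 319505) (nat_lit 10) (.e (nat_lit 618) (nat_lit 48) (.e (nat_lit 557101) (nat_lit 13) (.e (nat_lit 172119) (nat_lit 12) (.e (nat_lit 483072) (nat_lit 2) .nil)))))) (.g (nat_lit 5) .nil .nil))))) (.nd (nat_lit 4) (.nd (nat_lit 5) 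
(.lf (nat_lit 137993) (.g (nat_lit 954) (.e (nat_lit 24617) (nat_lit 7) (.e (nat_lit 319490) (nat_lit 0) (.e (nat_lit 555) (nat_lit 41) .nil))) .nil)) 
(.lf (nat_lit 138025) (.g (nat_lit 2676) (.e (nat_lit 24617) (nat_lit 7) (.e (nat_lit 319505) (nat_lit 10) (.e (nat_lit 618) (nat_lit 48) (.e (nat_lit 557098) (nat_lit 13) (.e (nat_lit 172115) (nat_lit 10) (.e (nat_lit 434202) (nat_lit 18) (.e (nat_lit 5979) (nat_lit 326) (.e (nat_lit 2559) (nat_lit 159) .nil)))))))) (.g (nat_lit 4) .nil .nil)))) (.nd (nat_lit 5) 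
(.lf (nat_lit 138009) (.g (nat_lit 2221) (.e (nat_lit 24617) (nat_lit 7) (.e (nat_lit 319504) (nat_lit 10) (.e (nat_lit 618) (nat_lit 48) (.e (nat_lit 557107) (nat_lit 15) (.e (nat_lit 188417) (nat_lit 0) (.e (nat_lit 7936) (nat_lit 359) .nil)))))) (.g (nat_lit 4) .nil .nil))) 
(.lf (nat_lit 138041) (.g (nat_lit 3486) (.e (nat_lit 24617) (nat_lit 7) (.e (nat_lit 319505) (nat_lit 10) (.e (nat_lit 618) (nat_lit 48) (.e (nat_lit 557109) (nat_lit 15) (.e (nat_lit 188418) (nat_lit 0) (.e (nat_lit 7936) (nat_lit 359) .nil)))))) (.g (nat_lit 4) .nil .nil)))))) (.nd (nat_lit 3) (.nd (nat_lit 4) (.nd (nat_lit 5) 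
(.lf (nat_lit 137989) (.g (nat_lit 1646) (.e (nat_lit 24616) (nat_lit 7) (.e (nat_lit 319533) (nat_lit 16) (.e (nat_lit 286753) (nat_lit 10) (.e (nat_lit 344160) (nat_lit 37) (.e (nat_lit 647201) (nat_lit 12) .nil))))) .nil)) 
(.lf (nat_lit 138021) (.g (nat_lit 2535) (.e (nat_lit 24617) (nat_lit 7) (.e (nat_lit 319504) (nat_lit 10) (.e (nat_lit 618) (nat_lit 48) (.e (nat_lit 557109) (nat_lit 15) (.e (nat_lit 188455) (nat_lit 24) (.e (nat_lit 237312) (nat_lit 146) (.e (nat_lit 2555) (nat_lit 159) .nil))))))) (.g (nat_lit 4) .nil .nil)))) (.nd (nat_lit 5) 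
(.lf (nat_lit 138005) (.g (nat_lit 3137) (.e (nat_lit 24617) (nat_lit 7) (.e (nat_lit 319504) (nat_lit 10) (.e (nat_lit 618) (nat_lit 48) (.e (nat_lit 557098) (nat_lit 13) (.e (nat_lit 172118) (nat_lit 12) (.e (nat_lit 483072) (nat_lit 2) .nil)))))) (.g (nat_lit 4) .nil .nil))) 
(.lf (nat_lit 138037) (.g (nat_lit 2879) (.e (nat_lit 24617) (nat_lit 7) (.e (nat_lit 319505) (nat_lit 10) (.e (nat_lit 618) (nat_lit 48) (.e (nat_lit 557107) (nat_lit 15) (.e (nat_lit 188420) (nat_lit 0) (.e (nat_lit 7936) (nat_lit 359) .nil)))))) (.g (nat_lit 4) .nil .nil))))) (.nd (nat_lit 4) (.nd (nat_lit 5) 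
(.lf (nat_lit 137997) (.g (nat_lit 2752) (.e (nat_lit 24617) (nat_lit 7) (.e (nat_lit 319500) (nat_lit 10) (.e (nat_lit 806) (nat_lit 67) (.e (nat_lit 712752) (nat_lit 29) (.e (nat_lit 442424) (nat_lit 22) (.e (nat_lit 204544) (nat_lit 2) .nil)))))) (.g (nat_lit 5) .nil .nil))) 
(.lf (nat_lit 138029) (.g (nat_lit 4415) (.e (nat_lit 24617) (nat_lit 7) (.e (nat_lit 319505) (nat_lit 10) (.e (nat_lit 618) (nat_lit 48) (.e (nat_lit 557098) (nat_lit 13) (.e (nat_lit 172120) (nat_lit 12) (.e (nat_lit 483072) (nat_lit 2) .nil)))))) (.g (nat_lit 5) .nil .nil)))) (.nd (nat_lit 5) 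
(.lf (nat_lit 138013) (.g (nat_lit 2701) (.e (nat_lit 24617) (nat_lit 7) (.e (nat_lit 319504) (nat_lit 10) (.e (nat_lit 618) (nat_lit 48) (.e (nat_lit 557109) (nat_lit 15) (.e (nat_lit 188419) (nat_lit 0) (.e (nat_lit 7936) (nat_lit 359) .nil)))))) (.g (nat_lit 4) .nil .nil))) 
(.lf (nat_lit 138045) (.g (nat_lit 3553) (.e (nat_lit 24617) (nat_lit 7) (.e (nat_lit 319505) (nat_lit 10) (.e (nat_lit 618) (nat_lit 48) (.e (nat_lit 557109) (nat_lit 15) (.e (nat_lit 196352) (nat_lit 0) (.e (nat_lit 6707) (nat_lit 359) .nil)))))) (.g (nat_lit 4) .nil .nil))))))) (.nd (nat_lit 2) (.nd (nat_lit 3) (.nd (nat_lit 4) (.nd (nat_lit 5) 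
(.lf (nat_lit 137987) (.g (nat_lit 2089) (.e (nat_lit 24616) (nat_lit 7) (.e (nat_lit 319533) (nat_lit 16) (.e (nat_lit 286753) (nat_lit 10) (.e (nat_lit 344160) (nat_lit 37) (.e (nat_lit 647190) (nat_lit 9) (.e (nat_lit 1312) (nat_lit 98) (.e (nat_lit 147494) (nat_lit 11) .nil))))))) (.g (nat_lit 4) .nil .nil))) 
(.lf (nat_lit 138019) (.g (nat_lit 2441) (.e (nat_lit 24617) (nat_lit 7) (.e (nat_lit 319504) (nat_lit 10) (.e (nat_lit 618) (nat_lit 48) (.e (nat_lit 557109) (nat_lit 15) (.e (nat_lit 188427) (nat_lit 20) (.e (nat_lit 3441) (nat_lit 215) (.e (nat_lit 679974) (nat_lit 15) .nil))))))) (.g (nat_lit 4) .nil .nil)))) (.nd (nat_lit 5) 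
(.lf (nat_lit 138003) (.g (nat_lit 4940) (.e (nat_lit 24617) (nat_lit 7) (.e (nat_lit 319504) (nat_lit 10) (.e (nat_lit 531) (nat_lit 41) (.e (nat_lit 499991) (nat_lit 14) (.e (nat_lit 1587) (nat_lit 111) (.e (nat_lit 360475) (nat_lit 8) (.e (nat_lit 557087) (nat_lit 11) .nil))))))) (.g (nat_lit 7) .nil .nil))) 
(.lf (nat_lit 138035) (.g (nat_lit 2916) (.e (nat_lit 24617) (nat_lit 7) (.e (nat_lit 319505) (nat_lit 10) (.e (nat_lit 618) (nat_lit 48) (.e (nat_lit 557107) (nat_lit 15) (.e (nat_lit 188417) (nat_lit 0) (.e (nat_lit 7936) (nat_lit 359) .nil)))))) (.g (nat_lit 4) .nil .nil))))) (.nd (nat_lit 4) (.nd (nat_lit 5) 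
(.lf (nat_lit 137995) (.g (nat_lit 1557) (.e (nat_lit 24617) (nat_lit 7) (.e (nat_lit 319500) (nat_lit 10) (.e (nat_lit 720) (nat_lit 64) (.e (nat_lit 688184) (nat_lit 18) (.e (nat_lit 81963) (nat_lit 26) .nil))))) .nil)) 
(.lf (nat_lit 138027) (.g (nat_lit 3932) (.e (nat_lit 24617) (nat_lit 7) (.e (nat_lit 319505) (nat_lit 10) (.e (nat_lit 618) (nat_lit 48) (.e (nat_lit 557098) (nat_lit 13) (.e (nat_lit 172118) (nat_lit 12) (.e (nat_lit 483072) (nat_lit 2) .nil)))))) (.g (nat_lit 5) .nil .nil)))) (.nd (nat_lit 5) 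
(.lf (nat_lit 138011) (.g (nat_lit 2077) (.e (nat_lit 24617) (nat_lit 7) (.e (nat_lit 319504) (nat_lit 10) (.e (nat_lit 618) (nat_lit 48) (.e (nat_lit 557107) (nat_lit 15) (.e (nat_lit 188420) (nat_lit 0) (.e (nat_lit 7936) (nat_lit 359) .nil)))))) (.g (nat_lit 4) .nil .nil))) 
(.lf (nat_lit 138043) (.g (nat_lit 2755) (.e (nat_lit 24617) (nat_lit 7) (.e (nat_lit 319505) (nat_lit 10) (.e (nat_lit 618) (nat_lit 48) (.e (nat_lit 557109) (nat_lit 15) (.e (nat_lit 188420) (nat_lit 0) (.e (nat_lit 7936) (nat_lit 359) .nil)))))) (.g (nat_lit 4) .nil .nil)))))) (.nd (nat_lit 3) (.nd (nat_lit 4) (.nd (nat_lit 5) 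
(.lf (nat_lit 137991) (.g (nat_lit 2057) (.e (nat_lit 24616) (nat_lit 7) (.e (nat_lit 319534) (nat_lit 16) (.e (nat_lit 286756) (nat_lit 10) (.e (nat_lit 344160) (nat_lit 37) (.e (nat_lit 647190) (nat_lit 9) .nil))))) .nil)) 
(.lf (nat_lit 138023) (.g (nat_lit 3513) (.e (nat_lit 24617) (nat_lit 7) (.e (nat_lit 319504) (nat_lit 10) (.e (nat_lit 806) (nat_lit 67) (.e (nat_lit 712752) (nat_lit 29) (.e (nat_lit 442424) (nat_lit 22) (.e (nat_lit 204544) (nat_lit 2) .nil)))))) (.g (nat_lit 5) .nil .nil)))) (.nd (nat_lit 5) 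
(.lf (nat_lit 138007) (.g (nat_lit 2468) (.e (nat_lit 24617) (nat_lit 7) (.e (nat_lit 319504) (nat_lit 10) (.e (nat_lit 618) (nat_lit 48) (.e (nat_lit 557101) (nat_lit 13) (.e (nat_lit 172119) (nat_lit 12) (.e (nat_lit 483072) (nat_lit 2) .nil)))))) (.g (nat_lit 4) .nil .nil))) 
(.lf (nat_lit 138039) (.g (nat_lit 2853) (.e (nat_lit 24617) (nat_lit 7) (.e (nat_lit 319505) (nat_lit 10) (.e (nat_lit 618) (nat_lit 48) (.e (nat_lit 557109) (nat_lit 15) (.e (nat_lit 188416) (nat_lit 0) (.e (nat_lit 7936) (nat_lit 359) .nil)))))) (.g (nat_lit 4) .nil .nil))))) (.nd (nat_lit 4) (.nd (nat_lit 5) 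
(.lf (nat_lit 137999) (.g (nat_lit 2333) (.e (nat_lit 24617) (nat_lit 7) (.e (nat_lit 319503) (nat_lit 10) (.e (nat_lit 806) (nat_lit 67) (.e (nat_lit 712752) (nat_lit 29) (.e (nat_lit 442424) (nat_lit 22) (.e (nat_lit 204544) (nat_lit 2) .nil)))))) (.g (nat_lit 5) .nil .nil))) 
(.lf (nat_lit 138031) (.g (nat_lit 2950) (.e (nat_lit 24617) (nat_lit 7) (.e (nat_lit 319505) (nat_lit 10) (.e (nat_lit 618) (nat_lit 48) (.e (nat_lit 557100) (nat_lit 13) (.e (nat_lit 172113) (nat_lit 10) (.e (nat_lit 434284) (nat_lit 41) (.e (nat_lit 679974) (nat_lit 15) .nil))))))) (.g (nat_lit 4) .nil .nil)))) (.nd (nat_lit 5) 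
(.lf (nat_lit 138015) (.g (nat_lit 2235) (.e (nat_lit 24617) (nat_lit 7) (.e (nat_lit 319504) (nat_lit 10) (.e (nat_lit 618) (nat_lit 48) (.e (nat_lit 557109) (nat_lit 15) (.e (nat_lit 196352) (nat_lit 0) (.e (nat_lit 6704) (nat_lit 359) .nil)))))) (.g (nat_lit 4) .nil .nil))) 
(.lf (nat_lit 138047) (.g (nat_lit 2973) (.e (nat_lit 24617) (nat_lit 7) (.e (nat_lit 319505) (nat_lit 10) (.e (nat_lit 618) (nat_lit 48) (.e (nat_lit 557109) (nat_lit 15) (.e (nat_lit 196352) (nat_lit 0) (.e (nat_lit 7936) (nat_lit 359) .nil)))))) (.g (nat_lit 4) .nil .nil)))))))))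

noncomputable def tv1833 : DT := (.nd (nat_lit 0) (.nd (nat_lit 1) (.nd (nat_lit 2) (.nd (nat_lit 3) (.nd (nat_lit 4) (.nd (nat_lit 5) 
(.lf (nat_lit 138048) (.g (nat_lit 2754) (.e (nat_lit 24617) (nat_lit 7) (.e (nat_lit 319505) (nat_lit 10) (.e (nat_lit 618) (nat_lit 48) (.e (nat_lit 557109) (nat_lit 15) (.e (nat_lit 188425) (nat_lit 20) (.e (nat_lit 3441) (nat_lit 215) (.e (nat_lit 679974) (nat_lit 15) .nil))))))) (.g (nat_lit 4) .nil .nil))) 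
(.lf (nat_lit 138080) (.g (nat_lit 2283) (.e (nat_lit 24617) (nat_lit 7) (.e (nat_lit 319529) (nat_lit 16) (.e (nat_lit 286748) (nat_lit 9) (.e (nat_lit 336295) (nat_lit 15) (.e (nat_lit 3806) (nat_lit 231) .nil))))) .nil))) (.nd (nat_lit 5) 
(.lf (nat_lit 138064) (.g (nat_lit 3385) (.e (nat_lit 24617) (nat_lit 7) (.e (nat_lit 319505) (nat_lit 10) (.e (nat_lit 806) (nat_lit 67) (.e (nat_lit 712752) (nat_lit 29) (.e (nat_lit 442424) (nat_lit 22) (.e (nat_lit 204544) (nat_lit 2) .nil)))))) (.g (nat_lit 5) .nil .nil))) 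
(.lf (nat_lit 138096) (.g (nat_lit 2705) (.e (nat_lit 24617) (nat_lit 7) (.e (nat_lit 319530) (nat_lit 16) (.e (nat_lit 286759) (nat_lit 12) (.e (nat_lit 385094) (nat_lit 49) (.e (nat_lit 778506) (nat_lit 14) .nil))))) .nil)))) (.nd (nat_lit 4) (.nd (nat_lit 5) 
(.lf (nat_lit 138056) (.g (nat_lit 4369) (.e (nat_lit 24617) (nat_lit 7) (.e (nat_lit 319505) (nat_lit 10) (.e (nat_lit 618) (nat_lit 48) (.e (nat_lit 557109) (nat_lit 15) (.e (nat_lit 188455) (nat_lit 24) (.e (nat_lit 229542) (nat_lit 146) (.e (nat_lit 2551) (nat_lit 159) .nil))))))) (.g (nat_lit 5) .nil .nil))) 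
(.lf (nat_lit 138088) (.g (nat_lit 2227) (.e (nat_lit 24617) (nat_lit 7) (.e (nat_lit 319529) (nat_lit 16) (.e (nat_lit 286759) (nat_lit 12) (.e (nat_lit 385114) (nat_lit 53) (.e (nat_lit 811045) (nat_lit 14) (.e (nat_lit 40996) (nat_lit 11) .nil)))))) (.g (nat_lit 4) .nil .nil)))) (.nd (nat_lit 5) 
(.lf (nat_lit 138072) (.g (nat_lit 2469) (.e (nat_lit 24617) (nat_lit 7) (.e (nat_lit 319528) (nat_lit 16) (.e (nat_lit 286759) (nat_lit 12) (.e (nat_lit 385094) (nat_lit 49) (.e (nat_lit 778506) (nat_lit 14) (.e (nat_lit 1150) (nat_lit 85) (.e (nat_lit 40997) (nat_lit 11) .nil))))))) (.g (nat_lit 4) .nil .nil))) 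
(.lf (nat_lit 138104) (.g (nat_lit 3389) (.e (nat_lit 24617) (nat_lit 7) (.e (nat_lit 319530) (nat_lit 16) (.e (nat_lit 286759) (nat_lit 12) (.e (nat_lit 385115) (nat_lit 53) (.e (nat_lit 811045) (nat_lit 14) (.e (nat_lit 40997) (nat_lit 11) .nil)))))) (.g (nat_lit 0) .nil .nil)))))) (.nd (nat_lit 3) (.nd (nat_lit 4) (.nd (nat_lit 5) 
(.lf (nat_lit 138052) (.g (nat_lit 3227) (.e (nat_lit 24617) (nat_lit 7) (.e (nat_lit 319505) (nat_lit 10) (.e (nat_lit 618) (nat_lit 48) (.e (nat_lit 557109) (nat_lit 15) (.e (nat_lit 188434) (nat_lit 20) (.e (nat_lit 2425) (nat_lit 157) (.e (nat_lit 6054) (nat_lit 326) (.e (nat_lit 2555) (nat_lit 159) .nil)))))))) (.g (nat_lit 4) .nil .nil))) 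
(.lf (nat_lit 138084) (.g (nat_lit 2817) (.e (nat_lit 24617) (nat_lit 7) (.e (nat_lit 319529) (nat_lit 16) (.e (nat_lit 286759) (nat_lit 12) (.e (nat_lit 385094) (nat_lit 49) (.e (nat_lit 778510) (nat_lit 14) (.e (nat_lit 1150) (nat_lit 85) (.e (nat_lit 40997) (nat_lit 11) .nil))))))) (.g (nat_lit 4) .nil .nil)))) (.nd (nat_lit 5) 
(.lf (nat_lit 138068) (.g (nat_lit 2376) (.e (nat_lit 24617) (nat_lit 7) (.e (nat_lit 319528) (nat_lit 16) (.e (nat_lit 286759) (nat_lit 12) (.e (nat_lit 385094) (nat_lit 49) (.e (nat_lit 778496) (nat_lit 14) .nil))))) .nil)) 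
(.lf (nat_lit 138100) (.g (nat_lit 2326) (.e (nat_lit 24617) (nat_lit 7) (.e (nat_lit 319530) (nat_lit 16) (.e (nat_lit 286759) (nat_lit 12) (.e (nat_lit 385111) (nat_lit 53) (.e (nat_lit 811045) (nat_lit 14) (.e (nat_lit 40997) (nat_lit 11) .nil)))))) (.g (nat_lit 4) .nil .nil))))) (.nd (nat_lit 4) (.nd (nat_lit 5) 
(.lf (nat_lit 138060) (.g (nat_lit 2757) (.e (nat_lit 24617) (nat_lit 7) (.e (nat_lit 319505) (nat_lit 10) (.e (nat_lit 720) (nat_lit 64) (.e (nat_lit 688177) (nat_lit 16) (.e (nat_lit 65617) (nat_lit 10) (.e (nat_lit 344091) (nat_lit 18) (.e (nat_lit 7464) (nat_lit 396) (.e (nat_lit 2555) (nat_lit 159) .nil)))))))) (.g (nat_lit 4) .nil .nil))) 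
(.lf (nat_lit 138092) (.g (nat_lit 2796) (.e (nat_lit 24617) (nat_lit 7) (.e (nat_lit 319530) (nat_lit 16) (.e (nat_lit 286759) (nat_lit 12) (.e (nat_lit 385094) (nat_lit 49) (.e (nat_lit 778496) (nat_lit 14) .nil))))) .nil))) (.nd (nat_lit 5) 
(.lf (nat_lit 138076) (.g (nat_lit 2258) (.e (nat_lit 24617) (nat_lit 7) (.e (nat_lit 319528) (nat_lit 16) (.e (nat_lit 286759) (nat_lit 12) (.e (nat_lit 385094) (nat_lit 49) (.e (nat_lit 778538) (nat_lit 14) .nil))))) .nil)) 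
(.lf (nat_lit 138108) (.g (nat_lit 1304) (.e (nat_lit 24617) (nat_lit 7) (.e (nat_lit 319531) (nat_lit 16) (.e (nat_lit 286759) (nat_lit 12) (.e (nat_lit 385092) (nat_lit 49) .nil)))) .nil)))))) (.nd (nat_lit 2) (.nd (nat_lit 3) (.nd (nat_lit 4) (.nd (nat_lit 5) 
(.lf (nat_lit 138050) (.g (nat_lit 4446) (.e (nat_lit 24617) (nat_lit 7) (.e (nat_lit 319505) (nat_lit 10) (.e (nat_lit 618) (nat_lit 48) (.e (nat_lit 557109) (nat_lit 15) (.e (nat_lit 188433) (nat_lit 20) (.e (nat_lit 3445) (nat_lit 215) (.e (nat_lit 679974) (nat_lit 15) .nil))))))) (.g (nat_lit 5) .nil .nil))) 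
(.lf (nat_lit 138082) (.g (nat_lit 2085) (.e (nat_lit 24617) (nat_lit 7) (.e (nat_lit 319529) (nat_lit 16) (.e (nat_lit 286759) (nat_lit 12) (.e (nat_lit 385093) (nat_lit 49) (.e (nat_lit 778510) (nat_lit 14) .nil))))) .nil))) (.nd (nat_lit 5) 
(.lf (nat_lit 138066) (.g (nat_lit 2233) (.e (nat_lit 24617) (nat_lit 7) (.e (nat_lit 319528) (nat_lit 16) (.e (nat_lit 286748) (nat_lit 9) (.e (nat_lit 336295) (nat_lit 15) (.e (nat_lit 3806) (nat_lit 231) (.e (nat_lit 811045) (nat_lit 14) (.e (nat_lit 40997) (nat_lit 11) .nil))))))) (.g (nat_lit 4) .nil .nil))) 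
(.lf (nat_lit 138098) (.g (nat_lit 2941) (.e (nat_lit 24617) (nat_lit 7) (.e (nat_lit 319530) (nat_lit 16) (.e (nat_lit 286759) (nat_lit 12) (.e (nat_lit 385094) (nat_lit 49) (.e (nat_lit 778508) (nat_lit 14) .nil))))) .nil)))) (.nd (nat_lit 4) (.nd (nat_lit 5) 
(.lf (nat_lit 138058) (.g (nat_lit 3570) (.e (nat_lit 24617) (nat_lit 7) (.e (nat_lit 319505) (nat_lit 10) (.e (nat_lit 618) (nat_lit 48) (.e (nat_lit 557109) (nat_lit 15) (.e (nat_lit 188455) (nat_lit 24) (.e (nat_lit 237312) (nat_lit 146) (.e (nat_lit 2555) (nat_lit 159) .nil))))))) (.g (nat_lit 4) .nil .nil))) 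
(.lf (nat_lit 138090) (.g (nat_lit 2207) (.e (nat_lit 24617) (nat_lit 7) (.e (nat_lit 319530) (nat_lit 16) (.e (nat_lit 286748) (nat_lit 9) (.e (nat_lit 336295) (nat_lit 15) (.e (nat_lit 3794) (nat_lit 231) (.e (nat_lit 811045) (nat_lit 14) (.e (nat_lit 40997) (nat_lit 11) .nil))))))) (.g (nat_lit 4) .nil .nil)))) (.nd (nat_lit 5) 
(.lf (nat_lit 138074) (.g (nat_lit 2223) (.e (nat_lit 24617) (nat_lit 7) (.e (nat_lit 319528) (nat_lit 16) (.e (nat_lit 286759) (nat_lit 12) (.e (nat_lit 385094) (nat_lit 49) (.e (nat_lit 778510) (nat_lit 14) (.e (nat_lit 1146) (nat_lit 85) (.e (nat_lit 40995) (nat_lit 11) .nil))))))) (.g (nat_lit 4) .nil .nil))) 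
(.lf (nat_lit 138106) (.g (nat_lit 2279) (.e (nat_lit 24617) (nat_lit 7) (.e (nat_lit 319531) (nat_lit 16) (.e (nat_lit 286748) (nat_lit 9) (.e (nat_lit 336295) (nat_lit 15) (.e (nat_lit 3794) (nat_lit 231) (.e (nat_lit 811045) (nat_lit 14) (.e (nat_lit 40997) (nat_lit 11) .nil))))))) (.g (nat_lit 4) .nil .nil)))))) (.nd (nat_lit 3) (.nd (nat_lit 4) (.nd (nat_lit 5) 
(.lf (nat_lit 138054) (.g (nat_lit 3598) (.e (nat_lit 24617) (nat_lit 7) (.e (nat_lit 319505) (nat_lit 10) (.e (nat_lit 618) (nat_lit 48) (.e (nat_lit 557109) (nat_lit 15) (.e (nat_lit 188444) (nat_lit 21) (.e (nat_lit 164143) (nat_lit 146) (.e (nat_lit 2551) (nat_lit 159) .nil))))))) (.g (nat_lit 4) .nil .nil))) 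
(.lf (nat_lit 138086) (.g (nat_lit 1970) (.e (nat_lit 24617) (nat_lit 7) (.e (nat_lit 319529) (nat_lit 16) (.e (nat_lit 286759) (nat_lit 12) (.e (nat_lit 385113) (nat_lit 53) (.e (nat_lit 811045) (nat_lit 14) (.e (nat_lit 40997) (nat_lit 11) .nil)))))) (.g (nat_lit 4) .nil .nil)))) (.nd (nat_lit 5) 
(.lf (nat_lit 138070) (.g (nat_lit 2836) (.e (nat_lit 24617) (nat_lit 7) (.e (nat_lit 319528) (nat_lit 16) (.e (nat_lit 286759) (nat_lit 12) (.e (nat_lit 385094) (nat_lit 49) (.e (nat_lit 778503) (nat_lit 14) (.e (nat_lit 1146) (nat_lit 85) (.e (nat_lit 40997) (nat_lit 11) .nil))))))) (.g (nat_lit 4) .nil .nil))) 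
(.lf (nat_lit 138102) (.g (nat_lit 2448) (.e (nat_lit 24617) (nat_lit 7) (.e (nat_lit 319530) (nat_lit 16) (.e (nat_lit 286759) (nat_lit 12) (.e (nat_lit 385114) (nat_lit 53) (.e (nat_lit 811045) (nat_lit 14) (.e (nat_lit 40995) (nat_lit 11) .nil)))))) (.g (nat_lit 4) .nil .nil))))) (.nd (nat_lit 4) (.nd (nat_lit 5) 
(.lf (nat_lit 138062) (.g (nat_lit 2786) (.e (nat_lit 24617) (nat_lit 7) (.e (nat_lit 319505) (nat_lit 10) (.e (nat_lit 720) (nat_lit 64) (.e (nat_lit 688184) (nat_lit 18) (.e (nat_lit 81963) (nat_lit 26) (.e (nat_lit 147492) (nat_lit 11) .nil)))))) (.g (nat_lit 4) .nil .nil))) 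
(.lf (nat_lit 138094) (.g (nat_lit 2757) (.e (nat_lit 24617) (nat_lit 7) (.e (nat_lit 319530) (nat_lit 16) (.e (nat_lit 286759) (nat_lit 12) (.e (nat_lit 385094) (nat_lit 49) (.e (nat_lit 778500) (nat_lit 14) .nil))))) .nil))) (.nd (nat_lit 5) 
(.lf (nat_lit 138078) (.g (nat_lit 1982) (.e (nat_lit 24617) (nat_lit 7) (.e (nat_lit 319528) (nat_lit 16) (.e (nat_lit 286759) (nat_lit 12) (.e (nat_lit 385111) (nat_lit 53) (.e (nat_lit 811045) (nat_lit 14) (.e (nat_lit 40997) (nat_lit 11) .nil)))))) (.g (nat_lit 4) .nil .nil))) 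
(.lf (nat_lit 138110) (.g (nat_lit 2239) (.e (nat_lit 24617) (nat_lit 7) (.e (nat_lit 319531) (nat_lit 16) (.e (nat_lit 286759) (nat_lit 12) (.e (nat_lit 385093) (nat_lit 49) (.e (nat_lit 778506) (nat_lit 14) .nil))))) .nil))))))) (.nd (nat_lit 1) (.nd (nat_lit 2) (.nd (nat_lit 3) (.nd (nat_lit 4) (.nd (nat_lit 5) 
(.lf (nat_lit 138049) (.g (nat_lit 3493) (.e (nat_lit 24617) (nat_lit 7) (.e (nat_lit 319505) (nat_lit 10) (.e (nat_lit 618) (nat_lit 48) (.e (nat_lit 557109) (nat_lit 15) (.e (nat_lit 188427) (nat_lit 20) (.e (nat_lit 3441) (nat_lit 215) (.e (nat_lit 679974) (nat_lit 15) .nil))))))) (.g (nat_lit 4) .nil .nil))) 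
(.lf (nat_lit 138081) (.g (nat_lit 1186) (.e (nat_lit 24617) (nat_lit 7) (.e (nat_lit 319529) (nat_lit 16) (.e (nat_lit 286759) (nat_lit 12) (.e (nat_lit 385092) (nat_lit 49) .nil)))) .nil))) (.nd (nat_lit 5) 
(.lf (nat_lit 138065) (.g (nat_lit 1784) (.e (nat_lit 24617) (nat_lit 7) (.e (nat_lit 319511) (nat_lit 10) (.e (nat_lit 5293) (nat_lit 298) (.e (nat_lit 1633) (nat_lit 114) (.e (nat_lit 385113) (nat_lit 53) (.e (nat_lit 811045) (nat_lit 14) (.e (nat_lit 40997) (nat_lit 11) .nil))))))) (.g (nat_lit 4) .nil .nil))) 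
(.lf (nat_lit 138097) (.g (nat_lit 2966) (.e (nat_lit 24617) (nat_lit 7) (.e (nat_lit 319530) (nat_lit 16) (.e (nat_lit 286759) (nat_lit 12) (.e (nat_lit 385094) (nat_lit 49) (.e (nat_lit 778506) (nat_lit 14) (.e (nat_lit 1150) (nat_lit 85) (.e (nat_lit 40997) (nat_lit 11) .nil))))))) (.g (nat_lit 4) .nil .nil))))) (.nd (nat_lit 4) (.nd (nat_lit 5) 
(.lf (nat_lit 138057) (.g (nat_lit 2704) (.e (nat_lit 24617) (nat_lit 7) (.e (nat_lit 319505) (nat_lit 10) (.e (nat_lit 618) (nat_lit 48) (.e (nat_lit 557109) (nat_lit 15) (.e (nat_lit 188455) (nat_lit 24) (.e (nat_lit 229543) (nat_lit 146) (.e (nat_lit 2551) (nat_lit 159) .nil))))))) (.g (nat_lit 4) .nil .nil))) 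
(.lf (nat_lit 138089) (.g (nat_lit 2762) (.e (nat_lit 24617) (nat_lit 7) (.e (nat_lit 319529) (nat_lit 16) (.e (nat_lit 286759) (nat_lit 12) (.e (nat_lit 385115) (nat_lit 53) (.e (nat_lit 811045) (nat_lit 14) (.e (nat_lit 40995) (nat_lit 11) .nil)))))) (.g (nat_lit 0) .nil .nil)))) (.nd (nat_lit 5) 
(.lf (nat_lit 138073) (.g (nat_lit 2647) (.e (nat_lit 24617) (nat_lit 7) (.e (nat_lit 319528) (nat_lit 16) (.e (nat_lit 286759) (nat_lit 12) (.e (nat_lit 385094) (nat_lit 49) (.e (nat_lit 778508) (nat_lit 14) .nil))))) .nil)) 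
(.lf (nat_lit 138105) (.g (nat_lit 2112) (.e (nat_lit 24617) (nat_lit 7) (.e (nat_lit 319531) (nat_lit 16) (.e (nat_lit 286748) (nat_lit 9) (.e (nat_lit 336295) (nat_lit 15) (.e (nat_lit 3794) (nat_lit 231) .nil))))) .nil))))) (.nd (nat_lit 3) (.nd (nat_lit 4) (.nd (nat_lit 5) 
(.lf (nat_lit 138053) (.g (nat_lit 2958) (.e (nat_lit 24617) (nat_lit 7) (.e (nat_lit 319505) (nat_lit 10) (.e (nat_lit 618) (nat_lit 48) (.e (nat_lit 557109) (nat_lit 15) (.e (nat_lit 188434) (nat_lit 20) (.e (nat_lit 3448) (nat_lit 215) (.e (nat_lit 679974) (nat_lit 15) .nil))))))) (.g (nat_lit 4) .nil .nil))) 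
(.lf (nat_lit 138085) (.g (nat_lit 2912) (.e (nat_lit 24617) (nat_lit 7) (.e (nat_lit 319529) (nat_lit 16) (.e (nat_lit 286759) (nat_lit 12) (.e (nat_lit 385094) (nat_lit 49) (.e (nat_lit 778510) (nat_lit 14) (.e (nat_lit 1151) (nat_lit 85) (.e (nat_lit 40997) (nat_lit 11) .nil))))))) (.g (nat_lit 4) .nil .nil)))) (.nd (nat_lit 5) 
(.lf (nat_lit 138069) (.g (nat_lit 2228) (.e (nat_lit 24617) (nat_lit 7) (.e (nat_lit 319528) (nat_lit 16) (.e (nat_lit 286759) (nat_lit 12) (.e (nat_lit 385094) (nat_lit 49) (.e (nat_lit 778500) (nat_lit 14) .nil))))) .nil)) 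
(.lf (nat_lit 138101) (.g (nat_lit 2371) (.e (nat_lit 24617) (nat_lit 7) (.e (nat_lit 319530) (nat_lit 16) (.e (nat_lit 286759) (nat_lit 12) (.e (nat_lit 385113) (nat_lit 53) (.e (nat_lit 811045) (nat_lit 14) (.e (nat_lit 40995) (nat_lit 11) .nil)))))) (.g (nat_lit 4) .nil .nil))))) (.nd (nat_lit 4) (.nd (nat_lit 5) 
(.lf (nat_lit 138061) (.g (nat_lit 4308) (.e (nat_lit 24617) (nat_lit 7) (.e (nat_lit 319505) (nat_lit 10) (.e (nat_lit 720) (nat_lit 64) (.e (nat_lit 688177) (nat_lit 16) (.e (nat_lit 65617) (nat_lit 10) (.e (nat_lit 344096) (nat_lit 18) (.e (nat_lit 7464) (nat_lit 396) (.e (nat_lit 2555) (nat_lit 159) .nil)))))))) (.g (nat_lit 6) .nil .nil))) 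
(.lf (nat_lit 138093) (.g (nat_lit 3291) (.e (nat_lit 24617) (nat_lit 7) (.e (nat_lit 319530) (nat_lit 16) (.e (nat_lit 286759) (nat_lit 12) (.e (nat_lit 385094) (nat_lit 49) (.e (nat_lit 778498) (nat_lit 14) (.e (nat_lit 7936) (nat_lit 85) (.e (nat_lit 40997) (nat_lit 11) .nil))))))) (.g (nat_lit 4) .nil .nil)))) (.nd (nat_lit 5) 
(.lf (nat_lit 138077) (.g (nat_lit 2583) (.e (nat_lit 24617) (nat_lit 7) (.e (nat_lit 319528) (nat_lit 16) (.e (nat_lit 286759) (nat_lit 12) (.e (nat_lit 385094) (nat_lit 49) (.e (nat_lit 778538) (nat_lit 14) (.e (nat_lit 1146) (nat_lit 85) (.e (nat_lit 40997) (nat_lit 11) .nil))))))) (.g (nat_lit 4) .nil .nil))) 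
(.lf (nat_lit 138109) (.g (nat_lit 2239) (.e (nat_lit 24617) (nat_lit 7) (.e (nat_lit 319531) (nat_lit 16) (.e (nat_lit 286759) (nat_lit 12) (.e (nat_lit 385093) (nat_lit 49) (.e (nat_lit 778500) (nat_lit 14) .nil))))) .nil)))))) (.nd (nat_lit 2) (.nd (nat_lit 3) (.nd (nat_lit 4) (.nd (nat_lit 5) 
(.lf (nat_lit 138051) (.g (nat_lit 3263) (.e (nat_lit 24617) (nat_lit 7) (.e (nat_lit 319505) (nat_lit 10) (.e (nat_lit 618) (nat_lit 48) (.e (nat_lit 557109) (nat_lit 15) (.e (nat_lit 188434) (nat_lit 20) (.e (nat_lit 2425) (nat_lit 157) (.e (nat_lit 6052) (nat_lit 326) (.e (nat_lit 2555) (nat_lit 159) .nil)))))))) (.g (nat_lit 4) .nil .nil))) 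
(.lf (nat_lit 138083) (.g (nat_lit 2769) (.e (nat_lit 24617) (nat_lit 7) (.e (nat_lit 319529) (nat_lit 16) (.e (nat_lit 286759) (nat_lit 12) (.e (nat_lit 385094) (nat_lit 49) (.e (nat_lit 778510) (nat_lit 14) (.e (nat_lit 1146) (nat_lit 85) (.e (nat_lit 40997) (nat_lit 11) .nil))))))) (.g (nat_lit 4) .nil .nil)))) (.nd (nat_lit 5) 
(.lf (nat_lit 138067) (.g (nat_lit 1941) (.e (nat_lit 24617) (nat_lit 7) (.e (nat_lit 319528) (nat_lit 16) (.e (nat_lit 286759) (nat_lit 12) (.e (nat_lit 385093) (nat_lit 49) (.e (nat_lit 778500) (nat_lit 14) .nil))))) .nil)) 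
(.lf (nat_lit 138099) (.g (nat_lit 2937) (.e (nat_lit 24617) (nat_lit 7) (.e (nat_lit 319530) (nat_lit 16) (.e (nat_lit 286759) (nat_lit 12) (.e (nat_lit 385094) (nat_lit 49) (.e (nat_lit 778538) (nat_lit 14) (.e (nat_lit 1146) (nat_lit 85) (.e (nat_lit 40997) (nat_lit 11) .nil))))))) (.g (nat_lit 4) .nil .nil))))) (.nd (nat_lit 4) (.nd (nat_lit 5) 
(.lf (nat_lit 138059) (.g (nat_lit 390) (.e (nat_lit 24617) (nat_lit 7) (.e (nat_lit 319505) (nat_lit 10) (.e (nat_lit 720) (nat_lit 64) .nil))) .nil)) 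
(.lf (nat_lit 138091) (.g (nat_lit 2439) (.e (nat_lit 24617) (nat_lit 7) (.e (nat_lit 319530) (nat_lit 16) (.e (nat_lit 286759) (nat_lit 12) (.e (nat_lit 385093) (nat_lit 49) (.e (nat_lit 778500) (nat_lit 14) .nil))))) .nil))) (.nd (nat_lit 5) 
(.lf (nat_lit 138075) (.g (nat_lit 2369) (.e (nat_lit 24617) (nat_lit 7) (.e (nat_lit 319528) (nat_lit 16) (.e (nat_lit 286759) (nat_lit 12) (.e (nat_lit 385094) (nat_lit 49) (.e (nat_lit 778510) (nat_lit 14) (.e (nat_lit 1149) (nat_lit 85) (.e (nat_lit 40997) (nat_lit 11) .nil))))))) (.g (nat_lit 4) .nil .nil))) 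
(.lf (nat_lit 138107) (.g (nat_lit 1802) (.e (nat_lit 24617) (nat_lit 7) (.e (nat_lit 319531) (nat_lit 16) (.e (nat_lit 286756) (nat_lit 10) (.e (nat_lit 344160) (nat_lit 37) .nil)))) .nil))))) (.nd (nat_lit 3) (.nd (nat_lit 4) (.nd (nat_lit 5) 
(.lf (nat_lit 138055) (.g (nat_lit 2998) (.e (nat_lit 24617) (nat_lit 7) (.e (nat_lit 319505) (nat_lit 10) (.e (nat_lit 618) (nat_lit 48) (.e (nat_lit 557109) (nat_lit 15) (.e (nat_lit 188444) (nat_lit 21) (.e (nat_lit 164144) (nat_lit 146) (.e (nat_lit 2551) (nat_lit 159) .nil))))))) (.g (nat_lit 4) .nil .nil))) 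
(.lf (nat_lit 138087) (.g (nat_lit 2063) (.e (nat_lit 24617) (nat_lit 7) (.e (nat_lit 319529) (nat_lit 16) (.e (nat_lit 286759) (nat_lit 12) (.e (nat_lit 385114) (nat_lit 53) (.e (nat_lit 811045) (nat_lit 14) (.e (nat_lit 40995) (nat_lit 11) .nil)))))) (.g (nat_lit 4) .nil .nil)))) (.nd (nat_lit 5) 
(.lf (nat_lit 138071) (.g (nat_lit 2154) (.e (nat_lit 24617) (nat_lit 7) (.e (nat_lit 319528) (nat_lit 16) (.e (nat_lit 286759) (nat_lit 12) (.e (nat_lit 385094) (nat_lit 49) (.e (nat_lit 778506) (nat_lit 14) .nil))))) .nil)) 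
(.lf (nat_lit 138103) (.g (nat_lit 2577) (.e (nat_lit 24617) (nat_lit 7) (.e (nat_lit 319530) (nat_lit 16) (.e (nat_lit 286759) (nat_lit 12) (.e (nat_lit 385115) (nat_lit 53) (.e (nat_lit 811045) (nat_lit 14) (.e (nat_lit 40995) (nat_lit 11) .nil)))))) (.g (nat_lit 4) .nil .nil))))) (.nd (nat_lit 4) (.nd (nat_lit 5) 
(.lf (nat_lit 138063) (.g (nat_lit 3375) (.e (nat_lit 24617) (nat_lit 7) (.e (nat_lit 319505) (nat_lit 10) (.e (nat_lit 804) (nat_lit 67) (.e (nat_lit 712752) (nat_lit 29) (.e (nat_lit 442424) (nat_lit 22) (.e (nat_lit 204544) (nat_lit 2) .nil)))))) (.g (nat_lit 5) .nil .nil))) 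
(.lf (nat_lit 138095) (.g (nat_lit 2942) (.e (nat_lit 24617) (nat_lit 7) (.e (nat_lit 319530) (nat_lit 16) (.e (nat_lit 286759) (nat_lit 12) (.e (nat_lit 385094) (nat_lit 49) (.e (nat_lit 778503) (nat_lit 14) (.e (nat_lit 1146) (nat_lit 85) (.e (nat_lit 40997) (nat_lit 11) .nil))))))) (.g (nat_lit 4) .nil .nil)))) (.nd (nat_lit 5) 
(.lf (nat_lit 138079) (.g (nat_lit 2891) (.e (nat_lit 24617) (nat_lit 7) (.e (nat_lit 319528) (nat_lit 16) (.e (nat_lit 286759) (nat_lit 12) (.e (nat_lit 385114) (nat_lit 53) (.e (nat_lit 811045) (nat_lit 14) (.e (nat_lit 40996) (nat_lit 11) .nil)))))) (.g (nat_lit 0) .nil .nil))) 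
(.lf (nat_lit 138111) (.g (nat_lit 2425) (.e (nat_lit 24617) (nat_lit 7) (.e (nat_lit 319531) (nat_lit 16) (.e (nat_lit 286759) (nat_lit 12) (.e (nat_lit 385094) (nat_lit 49) (.e (nat_lit 778496) (nat_lit 14) .nil))))) .nil))))))))

noncomputable def tv1834 : DT := (.nd (nat_lit 0) (.nd (nat_lit 1) (.nd (nat_lit 2) (.nd (nat_lit 3) (.nd (nat_lit 4) (.nd (nat_lit 5) 
(.lf (nat_lit 138112) (.g (nat_lit 2199) (.e (nat_lit 24617) (nat_lit 7) (.e (nat_lit 319531) (nat_lit 16) (.e (nat_lit 286759) (nat_lit 12) (.e (nat_lit 385094) (nat_lit 49) (.e (nat_lit 778506) (nat_lit 14) .nil))))) .nil)) 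
(.lf (nat_lit 138144) (.g (nat_lit 2642) (.e (nat_lit 24617) (nat_lit 7) (.e (nat_lit 319533) (nat_lit 16) (.e (nat_lit 286753) (nat_lit 10) (.e (nat_lit 344160) (nat_lit 37) (.e (nat_lit 655104) (nat_lit 14) (.e (nat_lit 2579) (nat_lit 161) (.e (nat_lit 40993) (nat_lit 11) .nil))))))) (.g (nat_lit 4) .nil .nil)))) (.nd (nat_lit 5) 
(.lf (nat_lit 138128) (.g (nat_lit 1157) (.e (nat_lit 24617) (nat_lit 7) (.e (nat_lit 319532) (nat_lit 16) (.e (nat_lit 286759) (nat_lit 12) (.e (nat_lit 385111) (nat_lit 53) .nil)))) .nil)) 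
(.lf (nat_lit 138160) (.g (nat_lit 3548) (.e (nat_lit 24617) (nat_lit 7) (.e (nat_lit 319533) (nat_lit 16) (.e (nat_lit 286759) (nat_lit 12) (.e (nat_lit 385094) (nat_lit 49) (.e (nat_lit 778510) (nat_lit 14) (.e (nat_lit 1150) (nat_lit 85) (.e (nat_lit 40997) (nat_lit 11) .nil))))))) (.g (nat_lit 4) .nil .nil))))) (.nd (nat_lit 4) (.nd (nat_lit 5) 
(.lf (nat_lit 138120) (.g (nat_lit 2771) (.e (nat_lit 24617) (nat_lit 7) (.e (nat_lit 319531) (nat_lit 16) (.e (nat_lit 286759) (nat_lit 12) (.e (nat_lit 385114) (nat_lit 53) (.e (nat_lit 811045) (nat_lit 14) (.e (nat_lit 40995) (nat_lit 11) .nil)))))) (.g (nat_lit 6) .nil .nil))) 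
(.lf (nat_lit 138152) (.g (nat_lit 2352) (.e (nat_lit 24617) (nat_lit 7) (.e (nat_lit 319533) (nat_lit 16) (.e (nat_lit 286758) (nat_lit 12) (.e (nat_lit 385113) (nat_lit 53) (.e (nat_lit 811045) (nat_lit 14) (.e (nat_lit 40996) (nat_lit 11) .nil)))))) (.g (nat_lit 6) .nil .nil)))) (.nd (nat_lit 5) 
(.lf (nat_lit 138136) (.g (nat_lit 2181) (.e (nat_lit 24617) (nat_lit 7) (.e (nat_lit 319533) (nat_lit 16) (.e (nat_lit 286753) (nat_lit 10) (.e (nat_lit 344160) (nat_lit 37) (.e (nat_lit 647190) (nat_lit 9) (.e (nat_lit 1311) (nat_lit 98) (.e (nat_lit 147492) (nat_lit 11) .nil))))))) (.g (nat_lit 4) .nil .nil))) 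
(.lf (nat_lit 138168) (.g (nat_lit 2760) (.e (nat_lit 24617) (nat_lit 7) (.e (nat_lit 319533) (nat_lit 16) (.e (nat_lit 286759) (nat_lit 12) (.e (nat_lit 385114) (nat_lit 53) (.e (nat_lit 811045) (nat_lit 14) (.e (nat_lit 40996) (nat_lit 11) .nil)))))) (.g (nat_lit 5) .nil .nil)))))) (.nd (nat_lit 3) (.nd (nat_lit 4) (.nd (nat_lit 5) 
(.lf (nat_lit 138116) (.g (nat_lit 2280) (.e (nat_lit 24617) (nat_lit 7) (.e (nat_lit 319531) (nat_lit 16) (.e (nat_lit 286759) (nat_lit 12) (.e (nat_lit 385094) (nat_lit 49) (.e (nat_lit 778510) (nat_lit 14) (.e (nat_lit 1146) (nat_lit 85) (.e (nat_lit 40995) (nat_lit 11) .nil))))))) (.g (nat_lit 4) .nil .nil))) 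
(.lf (nat_lit 138148) (.g (nat_lit 2477) (.e (nat_lit 24617) (nat_lit 7) (.e (nat_lit 319533) (nat_lit 16) (.e (nat_lit 286753) (nat_lit 10) (.e (nat_lit 344169) (nat_lit 40) (.e (nat_lit 671787) (nat_lit 14) (.e (nat_lit 7936) (nat_lit 85) (.e (nat_lit 40997) (nat_lit 11) .nil))))))) (.g (nat_lit 4) .nil .nil)))) (.nd (nat_lit 5) 
(.lf (nat_lit 138132) (.g (nat_lit 2295) (.e (nat_lit 24617) (nat_lit 7) (.e (nat_lit 319532) (nat_lit 16) (.e (nat_lit 286759) (nat_lit 12) (.e (nat_lit 385115) (nat_lit 53) (.e (nat_lit 811045) (nat_lit 14) (.e (nat_lit 40996) (nat_lit 11) .nil)))))) (.g (nat_lit 4) .nil .nil))) 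
(.lf (nat_lit 138164) (.g (nat_lit 3394) (.e (nat_lit 24617) (nat_lit 7) (.e (nat_lit 319533) (nat_lit 16) (.e (nat_lit 286759) (nat_lit 12) (.e (nat_lit 385094) (nat_lit 49) (.e (nat_lit 778548) (nat_lit 14) (.e (nat_lit 1150) (nat_lit 85) (.e (nat_lit 40997) (nat_lit 11) .nil))))))) (.g (nat_lit 4) .nil .nil))))) (.nd (nat_lit 4) (.nd (nat_lit 5) 
(.lf (nat_lit 138124) (.g (nat_lit 2760) (.e (nat_lit 24617) (nat_lit 7) (.e (nat_lit 319532) (nat_lit 16) (.e (nat_lit 286759) (nat_lit 12) (.e (nat_lit 385094) (nat_lit 49) (.e (nat_lit 778503) (nat_lit 14) (.e (nat_lit 1146) (nat_lit 85) (.e (nat_lit 40997) (nat_lit 11) .nil))))))) (.g (nat_lit 4) .nil .nil))) 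
(.lf (nat_lit 138156) (.g (nat_lit 2948) (.e (nat_lit 24617) (nat_lit 7) (.e (nat_lit 319533) (nat_lit 16) (.e (nat_lit 286759) (nat_lit 12) (.e (nat_lit 385094) (nat_lit 49) (.e (nat_lit 778506) (nat_lit 14) .nil))))) .nil))) (.nd (nat_lit 5) 
(.lf (nat_lit 138140) (.g (nat_lit 3144) (.e (nat_lit 24617) (nat_lit 7) (.e (nat_lit 319533) (nat_lit 16) (.e (nat_lit 286753) (nat_lit 10) (.e (nat_lit 344160) (nat_lit 37) (.e (nat_lit 647195) (nat_lit 9) (.e (nat_lit 1310) (nat_lit 98) (.e (nat_lit 147492) (nat_lit 11) .nil))))))) (.g (nat_lit 5) .nil .nil))) 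
(.lf (nat_lit 138172) (.g (nat_lit 812) (.e (nat_lit 24617) (nat_lit 7) (.e (nat_lit 319534) (nat_lit 16) (.e (nat_lit 286752) (nat_lit 10) .nil))) .nil)))))) (.nd (nat_lit 2) (.nd (nat_lit 3) (.nd (nat_lit 4) (.nd (nat_lit 5) 
(.lf (nat_lit 138114) (.g (nat_lit 2610) (.e (nat_lit 24617) (nat_lit 7) (.e (nat_lit 319531) (nat_lit 16) (.e (nat_lit 286759) (nat_lit 12) (.e (nat_lit 385094) (nat_lit 49) (.e (nat_lit 778507) (nat_lit 14) .nil))))) .nil)) 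
(.lf (nat_lit 138146) (.g (nat_lit 1812) (.e (nat_lit 24617) (nat_lit 7) (.e (nat_lit 319533) (nat_lit 16) (.e (nat_lit 286753) (nat_lit 10) (.e (nat_lit 344160) (nat_lit 37) (.e (nat_lit 655104) (nat_lit 14) (.e (nat_lit 7936) (nat_lit 161) (.e (nat_lit 40997) (nat_lit 11) .nil))))))) (.g (nat_lit 4) .nil .nil)))) (.nd (nat_lit 5) 
(.lf (nat_lit 138130) (.g (nat_lit 2227) (.e (nat_lit 24617) (nat_lit 7) (.e (nat_lit 319532) (nat_lit 16) (.e (nat_lit 286759) (nat_lit 12) (.e (nat_lit 385114) (nat_lit 53) (.e (nat_lit 811045) (nat_lit 14) (.e (nat_lit 40996) (nat_lit 11) .nil)))))) (.g (nat_lit 4) .nil .nil))) 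
(.lf (nat_lit 138162) (.g (nat_lit 2837) (.e (nat_lit 24617) (nat_lit 7) (.e (nat_lit 319533) (nat_lit 16) (.e (nat_lit 286759) (nat_lit 12) (.e (nat_lit 385094) (nat_lit 49) (.e (nat_lit 778538) (nat_lit 14) .nil))))) .nil)))) (.nd (nat_lit 4) (.nd (nat_lit 5) 
(.lf (nat_lit 138122) (.g (nat_lit 3220) (.e (nat_lit 24617) (nat_lit 7) (.e (nat_lit 319532) (nat_lit 16) (.e (nat_lit 286759) (nat_lit 12) (.e (nat_lit 385094) (nat_lit 49) (.e (nat_lit 778498) (nat_lit 14) (.e (nat_lit 7936) (nat_lit 85) (.e (nat_lit 40997) (nat_lit 11) .nil))))))) (.g (nat_lit 4) .nil .nil))) 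
(.lf (nat_lit 138154) (.g (nat_lit 2189) (.e (nat_lit 24617) (nat_lit 7) (.e (nat_lit 319533) (nat_lit 16) (.e (nat_lit 286759) (nat_lit 12) (.e (nat_lit 385093) (nat_lit 49) (.e (nat_lit 778510) (nat_lit 14) .nil))))) .nil))) (.nd (nat_lit 5) 
(.lf (nat_lit 138138) (.g (nat_lit 2569) (.e (nat_lit 24617) (nat_lit 7) (.e (nat_lit 319533) (nat_lit 16) (.e (nat_lit 286753) (nat_lit 10) (.e (nat_lit 344160) (nat_lit 37) (.e (nat_lit 647190) (nat_lit 9) (.e (nat_lit 1312) (nat_lit 98) (.e (nat_lit 147493) (nat_lit 11) .nil))))))) (.g (nat_lit 4) .nil .nil))) 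
(.lf (nat_lit 138170) (.g (nat_lit 2756) (.e (nat_lit 24617) (nat_lit 7) (.e (nat_lit 319534) (nat_lit 16) (.e (nat_lit 286748) (nat_lit 9) (.e (nat_lit 336295) (nat_lit 15) (.e (nat_lit 3806) (nat_lit 231) (.e (nat_lit 811045) (nat_lit 14) (.e (nat_lit 40997) (nat_lit 11) .nil))))))) (.g (nat_lit 4) .nil .nil)))))) (.nd (nat_lit 3) (.nd (nat_lit 4) (.nd (nat_lit 5) 
(.lf (nat_lit 138118) (.g (nat_lit 1625) (.e (nat_lit 24617) (nat_lit 7) (.e (nat_lit 319531) (nat_lit 16) (.e (nat_lit 286759) (nat_lit 12) (.e (nat_lit 385111) (nat_lit 53) (.e (nat_lit 811045) (nat_lit 14) .nil))))) .nil)) 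
(.lf (nat_lit 138150) (.g (nat_lit 531) (.e (nat_lit 24617) (nat_lit 7) (.e (nat_lit 319533) (nat_lit 16) (.e (nat_lit 286754) (nat_lit 10) .nil))) .nil))) (.nd (nat_lit 5) 
(.lf (nat_lit 138134) (.g (nat_lit 2848) (.e (nat_lit 24617) (nat_lit 7) (.e (nat_lit 319533) (nat_lit 16) (.e (nat_lit 286753) (nat_lit 10) (.e (nat_lit 344160) (nat_lit 37) (.e (nat_lit 647190) (nat_lit 9) (.e (nat_lit 984) (nat_lit 81) (.e (nat_lit 2289) (nat_lit 151) (.e (nat_lit 778460) (nat_lit 11) .nil)))))))) (.g (nat_lit 4) .nil .nil))) 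
(.lf (nat_lit 138166) (.g (nat_lit 2448) (.e (nat_lit 24617) (nat_lit 7) (.e (nat_lit 319533) (nat_lit 16) (.e (nat_lit 286759) (nat_lit 12) (.e (nat_lit 385113) (nat_lit 53) (.e (nat_lit 811045) (nat_lit 14) (.e (nat_lit 40996) (nat_lit 11) .nil)))))) (.g (nat_lit 4) .nil .nil))))) (.nd (nat_lit 4) (.nd (nat_lit 5) 
(.lf (nat_lit 138126) (.g (nat_lit 2590) (.e (nat_lit 24617) (nat_lit 7) (.e (nat_lit 319532) (nat_lit 16) (.e (nat_lit 286759) (nat_lit 12) (.e (nat_lit 385094) (nat_lit 49) (.e (nat_lit 778506) (nat_lit 14) (.e (nat_lit 1151) (nat_lit 85) (.e (nat_lit 40997) (nat_lit 11) .nil))))))) (.g (nat_lit 4) .nil .nil))) 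
(.lf (nat_lit 138158) (.g (nat_lit 3475) (.e (nat_lit 24617) (nat_lit 7) (.e (nat_lit 319533) (nat_lit 16) (.e (nat_lit 286759) (nat_lit 12) (.e (nat_lit 385094) (nat_lit 49) (.e (nat_lit 778510) (nat_lit 14) (.e (nat_lit 1146) (nat_lit 85) (.e (nat_lit 40997) (nat_lit 11) .nil))))))) (.g (nat_lit 4) .nil .nil)))) (.nd (nat_lit 5) 
(.lf (nat_lit 138142) (.g (nat_lit 2256) (.e (nat_lit 24617) (nat_lit 7) (.e (nat_lit 319533) (nat_lit 16) (.e (nat_lit 286753) (nat_lit 10) (.e (nat_lit 344160) (nat_lit 37) (.e (nat_lit 655104) (nat_lit 14) (.e (nat_lit 2576) (nat_lit 161) (.e (nat_lit 40995) (nat_lit 11) .nil))))))) (.g (nat_lit 4) .nil .nil))) 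
(.lf (nat_lit 138174) (.g (nat_lit 2630) (.e (nat_lit 24617) (nat_lit 7) (.e (nat_lit 319534) (nat_lit 16) (.e (nat_lit 286756) (nat_lit 10) (.e (nat_lit 344097) (nat_lit 18) (.e (nat_lit 5195) (nat_lit 294) (.e (nat_lit 57354) (nat_lit 0) (.e (nat_lit 2006) (nat_lit 138) (.e (nat_lit 671779) (nat_lit 11) .nil)))))))) (.g (nat_lit 4) .nil .nil)))))))) 
(.nd (nat_lit 1) (.nd (nat_lit 2) (.nd (nat_lit 3) (.nd (nat_lit 4) (.nd (nat_lit 5) 
(.lf (nat_lit 138113) (.g (nat_lit 2519) (.e (nat_lit 24617) (nat_lit 7) (.e (nat_lit 319531) (nat_lit 16) (.e (nat_lit 286759) (nat_lit 12) (.e (nat_lit 385094) (nat_lit 49) (.e (nat_lit 778506) (nat_lit 14) (.e (nat_lit 1150) (nat_lit 85) (.e (nat_lit 40997) (nat_lit 11) .nil))))))) (.g (nat_lit 4) .nil .nil))) 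
(.lf (nat_lit 138145) (.g (nat_lit 2819) (.e (nat_lit 24617) (nat_lit 7) (.e (nat_lit 319533) (nat_lit 16) (.e (nat_lit 286753) (nat_lit 10) (.e (nat_lit 344160) (nat_lit 37) (.e (nat_lit 655104) (nat_lit 14) (.e (nat_lit 2580) (nat_lit 161) (.e (nat_lit 40993) (nat_lit 11) .nil))))))) (.g (nat_lit 4) .nil .nil)))) (.nd (nat_lit 5) 
(.lf (nat_lit 138129) (.g (nat_lit 2063) (.e (nat_lit 24617) (nat_lit 7) (.e (nat_lit 319532) (nat_lit 16) (.e (nat_lit 286759) (nat_lit 12) (.e (nat_lit 385113) (nat_lit 53) (.e (nat_lit 811045) (nat_lit 14) (.e (nat_lit 40996) (nat_lit 11) .nil)))))) (.g (nat_lit 4) .nil .nil))) 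
(.lf (nat_lit 138161) (.g (nat_lit 3499) (.e (nat_lit 24617) (nat_lit 7) (.e (nat_lit 319533) (nat_lit 16) (.e (nat_lit 286759) (nat_lit 12) (.e (nat_lit 385094) (nat_lit 49) (.e (nat_lit 778510) (nat_lit 14) (.e (nat_lit 1151) (nat_lit 85) (.e (nat_lit 40997) (nat_lit 11) .nil))))))) (.g (nat_lit 4) .nil .nil))))) (.nd (nat_lit 4) (.nd (nat_lit 5) 
(.lf (nat_lit 138121) (.g (nat_lit 2374) (.e (nat_lit 24617) (nat_lit 7) (.e (nat_lit 319532) (nat_lit 16) (.e (nat_lit 286748) (nat_lit 9) (.e (nat_lit 336295) (nat_lit 15) (.e (nat_lit 3806) (nat_lit 231) .nil))))) .nil)) 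
(.lf (nat_lit 138153) (.g (nat_lit 1319) (.e (nat_lit 24617) (nat_lit 7) (.e (nat_lit 319533) (nat_lit 16) (.e (nat_lit 286759) (nat_lit 12) (.e (nat_lit 385092) (nat_lit 49) .nil)))) .nil))) (.nd (nat_lit 5) 
(.lf (nat_lit 138137) (.g (nat_lit 3226) (.e (nat_lit 24617) (nat_lit 7) (.e (nat_lit 319533) (nat_lit 16) (.e (nat_lit 286753) (nat_lit 10) (.e (nat_lit 344160) (nat_lit 37) (.e (nat_lit 647190) (nat_lit 9) (.e (nat_lit 1312) (nat_lit 98) (.e (nat_lit 147492) (nat_lit 11) .nil))))))) (.g (nat_lit 5) .nil .nil))) 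
(.lf (nat_lit 138169) (.g (nat_lit 1131) (.e (nat_lit 24617) (nat_lit 7) (.e (nat_lit 319534) (nat_lit 16) (.e (nat_lit 286748) (nat_lit 9) (.e (nat_lit 336295) (nat_lit 15) .nil)))) .nil))))) (.nd (nat_lit 3) (.nd (nat_lit 4) (.nd (nat_lit 5) 
(.lf (nat_lit 138117) (.g (nat_lit 2307) (.e (nat_lit 24617) (nat_lit 7) (.e (nat_lit 319531) (nat_lit 16) (.e (nat_lit 286759) (nat_lit 12) (.e (nat_lit 385094) (nat_lit 49) (.e (nat_lit 778538) (nat_lit 14) .nil))))) .nil)) 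
(.lf (nat_lit 138149) (.g (nat_lit 2504) (.e (nat_lit 24617) (nat_lit 7) (.e (nat_lit 319533) (nat_lit 16) (.e (nat_lit 286753) (nat_lit 10) (.e (nat_lit 344169) (nat_lit 40) (.e (nat_lit 679680) (nat_lit 14) (.e (nat_lit 1146) (nat_lit 85) (.e (nat_lit 40997) (nat_lit 11) .nil))))))) (.g (nat_lit 4) .nil .nil)))) (.nd (nat_lit 5) 
(.lf (nat_lit 138133) (.g (nat_lit 2346) (.e (nat_lit 24617) (nat_lit 7) (.e (nat_lit 319533) (nat_lit 16) (.e (nat_lit 286748) (nat_lit 9) (.e (nat_lit 336295) (nat_lit 15) (.e (nat_lit 3806) (nat_lit 231) .nil))))) .nil)) 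
(.lf (nat_lit 138165) (.g (nat_lit 2371) (.e (nat_lit 24617) (nat_lit 7) (.e (nat_lit 319533) (nat_lit 16) (.e (nat_lit 286759) (nat_lit 12) (.e (nat_lit 385113) (nat_lit 53) (.e (nat_lit 811045) (nat_lit 14) (.e (nat_lit 40995) (nat_lit 11) .nil)))))) (.g (nat_lit 4) .nil .nil))))) (.nd (nat_lit 4) (.nd (nat_lit 5) 
(.lf (nat_lit 138125) (.g (nat_lit 2857) (.e (nat_lit 24617) (nat_lit 7) (.e (nat_lit 319532) (nat_lit 16) (.e (nat_lit 286759) (nat_lit 12) (.e (nat_lit 385094) (nat_lit 49) (.e (nat_lit 778506) (nat_lit 14) (.e (nat_lit 1150) (nat_lit 85) (.e (nat_lit 40997) (nat_lit 11) .nil))))))) (.g (nat_lit 4) .nil .nil))) 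
(.lf (nat_lit 138157) (.g (nat_lit 2811) (.e (nat_lit 24617) (nat_lit 7) (.e (nat_lit 319533) (nat_lit 16) (.e (nat_lit 286759) (nat_lit 12) (.e (nat_lit 385094) (nat_lit 49) (.e (nat_lit 778510) (nat_lit 14) .nil))))) .nil))) (.nd (nat_lit 5) 
(.lf (nat_lit 138141) (.g (nat_lit 3270) (.e (nat_lit 24617) (nat_lit 7) (.e (nat_lit 319533) (nat_lit 16) (.e (nat_lit 286753) (nat_lit 10) (.e (nat_lit 344160) (nat_lit 37) (.e (nat_lit 647195) (nat_lit 9) (.e (nat_lit 7936) (nat_lit 98) (.e (nat_lit 147496) (nat_lit 11) .nil))))))) (.g (nat_lit 5) .nil .nil))) 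
(.lf (nat_lit 138173) (.g (nat_lit 1341) (.e (nat_lit 24617) (nat_lit 7) (.e (nat_lit 319534) (nat_lit 16) (.e (nat_lit 286756) (nat_lit 10) (.e (nat_lit 344093) (nat_lit 18) .nil)))) .nil)))))) (.nd (nat_lit 2) (.nd (nat_lit 3) (.nd (nat_lit 4) (.nd (nat_lit 5) 
(.lf (nat_lit 138115) (.g (nat_lit 2733) (.e (nat_lit 24617) (nat_lit 7) (.e (nat_lit 319531) (nat_lit 16) (.e (nat_lit 286759) (nat_lit 12) (.e (nat_lit 385094) (nat_lit 49) (.e (nat_lit 778508) (nat_lit 14) .nil))))) .nil)) 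
(.lf (nat_lit 138147) (.g (nat_lit 2398) (.e (nat_lit 24617) (nat_lit 7) (.e (nat_lit 319533) (nat_lit 16) (.e (nat_lit 286753) (nat_lit 10) (.e (nat_lit 344169) (nat_lit 40) (.e (nat_lit 671784) (nat_lit 14) (.e (nat_lit 1146) (nat_lit 85) (.e (nat_lit 40995) (nat_lit 11) .nil))))))) (.g (nat_lit 4) .nil .nil)))) (.nd (nat_lit 5) 
(.lf (nat_lit 138131) (.g (nat_lit 1970) (.e (nat_lit 24617) (nat_lit 7) (.e (nat_lit 319532) (nat_lit 16) (.e (nat_lit 286759) (nat_lit 12) (.e (nat_lit 385115) (nat_lit 53) (.e (nat_lit 811045) (nat_lit 14) (.e (nat_lit 40995) (nat_lit 11) .nil)))))) (.g (nat_lit 4) .nil .nil))) 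
(.lf (nat_lit 138163) (.g (nat_lit 3122) (.e (nat_lit 24617) (nat_lit 7) (.e (nat_lit 319533) (nat_lit 16) (.e (nat_lit 286759) (nat_lit 12) (.e (nat_lit 385094) (nat_lit 49) (.e (nat_lit 778548) (nat_lit 14) (.e (nat_lit 1149) (nat_lit 85) (.e (nat_lit 40997) (nat_lit 11) .nil))))))) (.g (nat_lit 4) .nil .nil))))) (.nd (nat_lit 4) (.nd (nat_lit 5) 
(.lf (nat_lit 138123) (.g (nat_lit 2519) (.e (nat_lit 24617) (nat_lit 7) (.e (nat_lit 319532) (nat_lit 16) (.e (nat_lit 286759) (nat_lit 12) (.e (nat_lit 385094) (nat_lit 49) (.e (nat_lit 778500) (nat_lit 14) .nil))))) .nil)) 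
(.lf (nat_lit 138155) (.g (nat_lit 2675) (.e (nat_lit 24617) (nat_lit 7) (.e (nat_lit 319533) (nat_lit 16) (.e (nat_lit 286759) (nat_lit 12) (.e (nat_lit 385093) (nat_lit 49) (.e (nat_lit 778510) (nat_lit 14) (.e (nat_lit 1146) (nat_lit 85) (.e (nat_lit 40995) (nat_lit 11) .nil))))))) (.g (nat_lit 4) .nil .nil)))) (.nd (nat_lit 5) 
(.lf (nat_lit 138139) (.g (nat_lit 2954) (.e (nat_lit 24617) (nat_lit 7) (.e (nat_lit 319533) (nat_lit 16) (.e (nat_lit 286753) (nat_lit 10) (.e (nat_lit 344160) (nat_lit 37) (.e (nat_lit 647190) (nat_lit 9) (.e (nat_lit 7936) (nat_lit 98) (.e (nat_lit 147494) (nat_lit 11) .nil))))))) (.g (nat_lit 5) .nil .nil))) 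
(.lf (nat_lit 138171) (.g (nat_lit 2902) (.e (nat_lit 24617) (nat_lit 7) (.e (nat_lit 319534) (nat_lit 16) (.e (nat_lit 286749) (nat_lit 9) (.e (nat_lit 335907) (nat_lit 0) (.e (nat_lit 1994) (nat_lit 137) (.e (nat_lit 663585) (nat_lit 12) (.e (nat_lit 164040) (nat_lit 55) (.e (nat_lit 786176) (nat_lit 11) .nil)))))))) (.g (nat_lit 4) .nil .nil)))))) 
(.nd (nat_lit 3) (.nd (nat_lit 4) (.nd (nat_lit 5) 
(.lf (nat_lit 138119) (.g (nat_lit 2001) (.e (nat_lit 24617) (nat_lit 7) (.e (nat_lit 319531) (nat_lit 16) (.e (nat_lit 286759) (nat_lit 12) (.e (nat_lit 385111) (nat_lit 53) (.e (nat_lit 811045) (nat_lit 14) (.e (nat_lit 40997) (nat_lit 11) .nil)))))) (.g (nat_lit 4) .nil .nil))) 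
(.lf (nat_lit 138151) (.g (nat_lit 2341) (.e (nat_lit 24617) (nat_lit 7) (.e (nat_lit 319533) (nat_lit 16) (.e (nat_lit 286758) (nat_lit 12) (.e (nat_lit 385094) (nat_lit 49) (.e (nat_lit 778510) (nat_lit 14) (.e (nat_lit 1146) (nat_lit 85) (.e (nat_lit 40995) (nat_lit 11) .nil))))))) (.g (nat_lit 4) .nil .nil)))) (.nd (nat_lit 5) 
(.lf (nat_lit 138135) (.g (nat_lit 3022) (.e (nat_lit 24617) (nat_lit 7) (.e (nat_lit 319533) (nat_lit 16) (.e (nat_lit 286753) (nat_lit 10) (.e (nat_lit 344160) (nat_lit 37) (.e (nat_lit 647190) (nat_lit 9) (.e (nat_lit 984) (nat_lit 81) (.e (nat_lit 2289) (nat_lit 151) (.e (nat_lit 778468) (nat_lit 11) .nil)))))))) (.g (nat_lit 5) .nil .nil))) 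
(.lf (nat_lit 138167) (.g (nat_lit 2683) (.e (nat_lit 24617) (nat_lit 7) (.e (nat_lit 319533) (nat_lit 16) (.e (nat_lit 286759) (nat_lit 12) (.e (nat_lit 385114) (nat_lit 53) (.e (nat_lit 811045) (nat_lit 14) (.e (nat_lit 40995) (nat_lit 11) .nil)))))) (.g (nat_lit 5) .nil .nil))))) (.nd (nat_lit 4) (.nd (nat_lit 5) 
(.lf (nat_lit 138127) (.g (nat_lit 2851) (.e (nat_lit 24617) (nat_lit 7) (.e (nat_lit 319532) (nat_lit 16) (.e (nat_lit 286759) (nat_lit 12) (.e (nat_lit 385094) (nat_lit 49) (.e (nat_lit 778538) (nat_lit 14) (.e (nat_lit 1146) (nat_lit 85) (.e (nat_lit 40997) (nat_lit 11) .nil))))))) (.g (nat_lit 4) .nil .nil))) 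
(.lf (nat_lit 138159) (.g (nat_lit 3078) (.e (nat_lit 24617) (nat_lit 7) (.e (nat_lit 319533) (nat_lit 16) (.e (nat_lit 286759) (nat_lit 12) (.e (nat_lit 385094) (nat_lit 49) (.e (nat_lit 778510) (nat_lit 14) (.e (nat_lit 1149) (nat_lit 85) (.e (nat_lit 40997) (nat_lit 11) .nil))))))) (.g (nat_lit 4) .nil .nil)))) (.nd (nat_lit 5) 
(.lf (nat_lit 138143) (.g (nat_lit 2670) (.e (nat_lit 24617) (nat_lit 7) (.e (nat_lit 319533) (nat_lit 16) (.e (nat_lit 286753) (nat_lit 10) (.e (nat_lit 344160) (nat_lit 37) (.e (nat_lit 655104) (nat_lit 14) (.e (nat_lit 2578) (nat_lit 161) (.e (nat_lit 40993) (nat_lit 11) .nil))))))) (.g (nat_lit 4) .nil .nil))) 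
(.lf (nat_lit 138175) (.g (nat_lit 3622) (.e (nat_lit 24617) (nat_lit 7) (.e (nat_lit 319534) (nat_lit 16) (.e (nat_lit 286756) (nat_lit 10) (.e (nat_lit 344160) (nat_lit 37) (.e (nat_lit 647190) (nat_lit 9) (.e (nat_lit 984) (nat_lit 81) (.e (nat_lit 2289) (nat_lit 151) (.e (nat_lit 778460) (nat_lit 11) .nil)))))))) (.g (nat_lit 5) .nil .nil)))))))))

noncomputable def tv1835 : DT := (.nd (nat_lit 0) (.nd (nat_lit 1) (.nd (nat_lit 2) (.nd (nat_lit 3) (.nd (nat_lit 4) (.nd (nat_lit 5) 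
(.lf (nat_lit 138176) (.g (nat_lit 3850) (.e (nat_lit 24617) (nat_lit 7) (.e (nat_lit 319534) (nat_lit 16) (.e (nat_lit 286756) (nat_lit 10) (.e (nat_lit 344160) (nat_lit 37) (.e (nat_lit 647190) (nat_lit 9) (.e (nat_lit 984) (nat_lit 81) (.e (nat_lit 2289) (nat_lit 151) (.e (nat_lit 778468) (nat_lit 11) .nil)))))))) (.g (nat_lit 6) .nil .nil))) 
(.lf (nat_lit 138208) (.g (nat_lit 2461) (.e (nat_lit 24622) (nat_lit 8) (.e (nat_lit 327708) (nat_lit 10) (.e (nat_lit 5612) (nat_lit 312) (.e (nat_lit 232) (nat_lit 21) (.e (nat_lit 336060) (nat_lit 7) (.e (nat_lit 319505) (nat_lit 10) (.e (nat_lit 7936) (nat_lit 314) .nil))))))) (.g (nat_lit 5) .nil .nil)))) (.nd (nat_lit 5) 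
(.lf (nat_lit 138192) (.g (nat_lit 2451) (.e (nat_lit 24617) (nat_lit 7) (.e (nat_lit 319534) (nat_lit 16) (.e (nat_lit 286759) (nat_lit 12) (.e (nat_lit 385094) (nat_lit 49) (.e (nat_lit 778507) (nat_lit 14) .nil))))) .nil)) 
(.lf (nat_lit 138224) (.g (nat_lit 2487) (.e (nat_lit 24623) (nat_lit 9) (.e (nat_lit 335997) (nat_lit 1) (.e (nat_lit 57681) (nat_lit 155) (.e (nat_lit 122919) (nat_lit 15) (.e (nat_lit 360492) (nat_lit 22) (.e (nat_lit 778464) (nat_lit 11) .nil)))))) (.g (nat_lit 4) .nil .nil))))) (.nd (nat_lit 4) (.nd (nat_lit 5) 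
(.lf (nat_lit 138184) (.g (nat_lit 2540) (.e (nat_lit 24617) (nat_lit 7) (.e (nat_lit 319534) (nat_lit 16) (.e (nat_lit 286756) (nat_lit 10) (.e (nat_lit 344160) (nat_lit 37) (.e (nat_lit 655104) (nat_lit 14) (.e (nat_lit 2579) (nat_lit 161) (.e (nat_lit 40993) (nat_lit 11) .nil))))))) (.g (nat_lit 4) .nil .nil))) 
(.lf (nat_lit 138216) (.g (nat_lit 2685) (.e (nat_lit 24623) (nat_lit 9) (.e (nat_lit 335997) (nat_lit 1) (.e (nat_lit 57681) (nat_lit 155) (.e (nat_lit 122917) (nat_lit 15) (.e (nat_lit 360491) (nat_lit 22) (.e (nat_lit 778464) (nat_lit 11) .nil)))))) (.g (nat_lit 5) .nil .nil)))) (.nd (nat_lit 5) 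
(.lf (nat_lit 138200) (.g (nat_lit 2723) (.e (nat_lit 24617) (nat_lit 7) (.e (nat_lit 319534) (nat_lit 16) (.e (nat_lit 286759) (nat_lit 12) (.e (nat_lit 385114) (nat_lit 53) (.e (nat_lit 811045) (nat_lit 14) (.e (nat_lit 40995) (nat_lit 11) .nil)))))) (.g (nat_lit 0) .nil .nil))) 
(.lf (nat_lit 138232) (.g (nat_lit 639) (.e (nat_lit 24623) (nat_lit 9) (.e (nat_lit 336028) (nat_lit 3) (.e (nat_lit 98320) (nat_lit 17) .nil))) .nil))))) (.nd (nat_lit 3) (.nd (nat_lit 4) (.nd (nat_lit 5) 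
(.lf (nat_lit 138180) (.g (nat_lit 3596) (.e (nat_lit 24617) (nat_lit 7) (.e (nat_lit 319534) (nat_lit 16) (.e (nat_lit 286756) (nat_lit 10) (.e (nat_lit 344160) (nat_lit 37) (.e (nat_lit 647195) (nat_lit 9) (.e (nat_lit 1040) (nat_lit 81) (.e (nat_lit 7936) (nat_lit 151) (.e (nat_lit 778460) (nat_lit 11) .nil)))))))) (.g (nat_lit 5) .nil .nil))) 
(.lf (nat_lit 138212) (.g (nat_lit 2958) (.e (nat_lit 24623) (nat_lit 9) (.e (nat_lit 335997) (nat_lit 1) (.e (nat_lit 57680) (nat_lit 155) (.e (nat_lit 122916) (nat_lit 14) (.e (nat_lit 352324) (nat_lit 26) (.e (nat_lit 147496) (nat_lit 11) .nil)))))) (.g (nat_lit 5) .nil .nil)))) (.nd (nat_lit 5) 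
(.lf (nat_lit 138196) (.g (nat_lit 1862) (.e (nat_lit 24617) (nat_lit 7) (.e (nat_lit 319534) (nat_lit 16) (.e (nat_lit 286759) (nat_lit 12) (.e (nat_lit 385094) (nat_lit 49) (.e (nat_lit 778548) (nat_lit 14) (.e (nat_lit 1146) (nat_lit 85) (.e (nat_lit 40995) (nat_lit 11) .nil))))))) (.g (nat_lit 4) .nil .nil))) 
(.lf (nat_lit 138228) (.g (nat_lit 1812) (.e (nat_lit 24623) (nat_lit 9) (.e (nat_lit 335997) (nat_lit 1) (.e (nat_lit 57683) (nat_lit 155) (.e (nat_lit 122917) (nat_lit 15) (.e (nat_lit 360492) (nat_lit 22) .nil))))) .nil)))) (.nd (nat_lit 4) (.nd (nat_lit 5) 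
(.lf (nat_lit 138188) (.g (nat_lit 2450) (.e (nat_lit 24617) (nat_lit 7) (.e (nat_lit 319534) (nat_lit 16) (.e (nat_lit 286759) (nat_lit 12) (.e (nat_lit 385094) (nat_lit 49) (.e (nat_lit 778496) (nat_lit 14) (.e (nat_lit 1146) (nat_lit 85) (.e (nat_lit 40997) (nat_lit 11) .nil))))))) (.g (nat_lit 4) .nil .nil))) 
(.lf (nat_lit 138220) (.g (nat_lit 1319) (.e (nat_lit 24623) (nat_lit 9) (.e (nat_lit 335997) (nat_lit 1) (.e (nat_lit 57681) (nat_lit 155) (.e (nat_lit 122918) (nat_lit 15) (.e (nat_lit 360491) (nat_lit 22) .nil))))) .nil))) (.nd (nat_lit 5) 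
(.lf (nat_lit 138204) (.g (nat_lit 531) (.e (nat_lit 24622) (nat_lit 8) (.e (nat_lit 327693) (nat_lit 2) (.e (nat_lit 32783) (nat_lit 7) (.e (nat_lit 16461) (nat_lit 12) (.e (nat_lit 483072) (nat_lit 2) .nil))))) (.g (nat_lit 4) .nil .nil))) 
(.lf (nat_lit 138236) (.g (nat_lit 636) (.e (nat_lit 24623) (nat_lit 9) (.e (nat_lit 336028) (nat_lit 3) (.e (nat_lit 98357) (nat_lit 26) .nil))) .nil)))))) (.nd (nat_lit 2) (.nd (nat_lit 3) (.nd (nat_lit 4) (.nd (nat_lit 5) 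
(.lf (nat_lit 138178) (.g (nat_lit 3039) (.e (nat_lit 24617) (nat_lit 7) (.e (nat_lit 319534) (nat_lit 16) (.e (nat_lit 286756) (nat_lit 10) (.e (nat_lit 344160) (nat_lit 37) (.e (nat_lit 647190) (nat_lit 9) (.e (nat_lit 1310) (nat_lit 98) (.e (nat_lit 147492) (nat_lit 11) .nil))))))) (.g (nat_lit 5) .nil .nil))) 
(.lf (nat_lit 138210) (.g (nat_lit 459) (.e (nat_lit 24623) (nat_lit 9) (.e (nat_lit 335907) (nat_lit 0) (.e (nat_lit 2298) (nat_lit 151) .nil))) .nil))) (.nd (nat_lit 5) 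
(.lf (nat_lit 138194) (.g (nat_lit 2301) (.e (nat_lit 24617) (nat_lit 7) (.e (nat_lit 319534) (nat_lit 16) (.e (nat_lit 286759) (nat_lit 12) (.e (nat_lit 385094) (nat_lit 49) (.e (nat_lit 778510) (nat_lit 14) (.e (nat_lit 1146) (nat_lit 85) (.e (nat_lit 40995) (nat_lit 11) .nil))))))) (.g (nat_lit 4) .nil .nil))) 
(.lf (nat_lit 138226) (.g (nat_lit 1865) (.e (nat_lit 24623) (nat_lit 9) (.e (nat_lit 335997) (nat_lit 1) (.e (nat_lit 57681) (nat_lit 155) (.e (nat_lit 122919) (nat_lit 15) (.e (nat_lit 368384) (nat_lit 22) (.e (nat_lit 778465) (nat_lit 11) .nil)))))) (.g (nat_lit 4) .nil .nil))))) (.nd (nat_lit 4) (.nd (nat_lit 5) 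
(.lf (nat_lit 138186) (.g (nat_lit 1947) (.e (nat_lit 24617) (nat_lit 7) (.e (nat_lit 319534) (nat_lit 16) (.e (nat_lit 286759) (nat_lit 12) (.e (nat_lit 385093) (nat_lit 49) (.e (nat_lit 778510) (nat_lit 14) .nil))))) .nil)) 
(.lf (nat_lit 138218) (.g (nat_lit 1867) (.e (nat_lit 24623) (nat_lit 9) (.e (nat_lit 335997) (nat_lit 1) (.e (nat_lit 57681) (nat_lit 155) (.e (nat_lit 122917) (nat_lit 15) (.e (nat_lit 360492) (nat_lit 22) (.e (nat_lit 778464) (nat_lit 11) .nil)))))) (.g (nat_lit 4) .nil .nil)))) (.nd (nat_lit 5) 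
(.lf (nat_lit 138202) (.g (nat_lit 49) (.e (nat_lit 24621) (nat_lit 8) (.e (nat_lit 327694) (nat_lit 3) (.e (nat_lit 40973) (nat_lit 9) .nil))) .nil)) 
(.lf (nat_lit 138234) (.g (nat_lit 646) (.e (nat_lit 24623) (nat_lit 9) (.e (nat_lit 336028) (nat_lit 3) (.e (nat_lit 98354) (nat_lit 26) .nil))) .nil))))) (.nd (nat_lit 3) (.nd (nat_lit 4) (.nd (nat_lit 5) 
(.lf (nat_lit 138182) (.g (nat_lit 2619) (.e (nat_lit 24617) (nat_lit 7) (.e (nat_lit 319534) (nat_lit 16) (.e (nat_lit 286756) (nat_lit 10) (.e (nat_lit 344160) (nat_lit 37) (.e (nat_lit 655104) (nat_lit 14) (.e (nat_lit 2576) (nat_lit 161) (.e (nat_lit 40995) (nat_lit 11) .nil))))))) (.g (nat_lit 4) .nil .nil))) 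
(.lf (nat_lit 138214) (.g (nat_lit 2442) (.e (nat_lit 24623) (nat_lit 9) (.e (nat_lit 335997) (nat_lit 1) (.e (nat_lit 57681) (nat_lit 155) (.e (nat_lit 122916) (nat_lit 14) (.e (nat_lit 352322) (nat_lit 26) (.e (nat_lit 147496) (nat_lit 11) .nil)))))) (.g (nat_lit 4) .nil .nil)))) (.nd (nat_lit 5) 
(.lf (nat_lit 138198) (.g (nat_lit 2558) (.e (nat_lit 24617) (nat_lit 7) (.e (nat_lit 319534) (nat_lit 16) (.e (nat_lit 286759) (nat_lit 12) (.e (nat_lit 385113) (nat_lit 53) (.e (nat_lit 811045) (nat_lit 14) (.e (nat_lit 40995) (nat_lit 11) .nil)))))) (.g (nat_lit 0) .nil .nil))) 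
(.lf (nat_lit 138230) (.g (nat_lit 1492) (.e (nat_lit 24623) (nat_lit 9) (.e (nat_lit 336013) (nat_lit 2) (.e (nat_lit 90170) (nat_lit 13) (.e (nat_lit 179968) (nat_lit 20) .nil)))) .nil)))) (.nd (nat_lit 4) (.nd (nat_lit 5) 
(.lf (nat_lit 138190) (.g (nat_lit 2284) (.e (nat_lit 24617) (nat_lit 7) (.e (nat_lit 319534) (nat_lit 16) (.e (nat_lit 286759) (nat_lit 12) (.e (nat_lit 385094) (nat_lit 49) (.e (nat_lit 778506) (nat_lit 14) .nil))))) .nil)) 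
(.lf (nat_lit 138222) (.g (nat_lit 3807) (.e (nat_lit 24623) (nat_lit 9) (.e (nat_lit 335997) (nat_lit 1) (.e (nat_lit 57681) (nat_lit 155) (.e (nat_lit 122919) (nat_lit 15) (.e (nat_lit 360491) (nat_lit 22) (.e (nat_lit 778465) (nat_lit 11) .nil)))))) (.g (nat_lit 0) .nil .nil)))) (.nd (nat_lit 5) 
(.lf (nat_lit 138206) (.g (nat_lit 1726) (.e (nat_lit 24622) (nat_lit 8) (.e (nat_lit 327703) (nat_lit 10) (.e (nat_lit 720) (nat_lit 64) (.e (nat_lit 688186) (nat_lit 18) (.e (nat_lit 81965) (nat_lit 26) (.e (nat_lit 147492) (nat_lit 11) .nil)))))) (.g (nat_lit 4) .nil .nil))) 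
(.lf (nat_lit 138238) (.g (nat_lit 636) (.e (nat_lit 24623) (nat_lit 9) (.e (nat_lit 336028) (nat_lit 3) (.e (nat_lit 98363) (nat_lit 26) .nil))) .nil))))))) (.nd (nat_lit 1) (.nd (nat_lit 2) (.nd (nat_lit 3) (.nd (nat_lit 4) (.nd (nat_lit 5) 
(.lf (nat_lit 138177) (.g (nat_lit 3496) (.e (nat_lit 24617) (nat_lit 7) (.e (nat_lit 319534) (nat_lit 16) (.e (nat_lit 286756) (nat_lit 10) (.e (nat_lit 344160) (nat_lit 37) (.e (nat_lit 647190) (nat_lit 9) (.e (nat_lit 984) (nat_lit 81) (.e (nat_lit 2326) (nat_lit 151) (.e (nat_lit 778460) (nat_lit 11) .nil)))))))) (.g (nat_lit 5) .nil .nil))) 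
(.lf (nat_lit 138209) (.g (nat_lit 1516) (.e (nat_lit 24622) (nat_lit 8) (.e (nat_lit 327718) (nat_lit 19) (.e (nat_lit 311352) (nat_lit 27) (.e (nat_lit 336059) (nat_lit 7) (.e (nat_lit 319504) (nat_lit 10) (.e (nat_lit 7936) (nat_lit 314) .nil)))))) (.g (nat_lit 5) .nil .nil)))) (.nd (nat_lit 5) 
(.lf (nat_lit 138193) (.g (nat_lit 2582) (.e (nat_lit 24617) (nat_lit 7) (.e (nat_lit 319534) (nat_lit 16) (.e (nat_lit 286759) (nat_lit 12) (.e (nat_lit 385094) (nat_lit 49) (.e (nat_lit 778508) (nat_lit 14) .nil))))) .nil)) 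
(.lf (nat_lit 138225) (.g (nat_lit 4025) (.e (nat_lit 24623) (nat_lit 9) (.e (nat_lit 335997) (nat_lit 1) (.e (nat_lit 57681) (nat_lit 155) (.e (nat_lit 122919) (nat_lit 15) (.e (nat_lit 360492) (nat_lit 22) (.e (nat_lit 778466) (nat_lit 11) .nil)))))) (.g (nat_lit 0) .nil .nil))))) (.nd (nat_lit 4) (.nd (nat_lit 5) 
(.lf (nat_lit 138185) (.g (nat_lit 2077) (.e (nat_lit 24617) (nat_lit 7) (.e (nat_lit 319534) (nat_lit 16) (.e (nat_lit 286759) (nat_lit 12) (.e (nat_lit 385093) (nat_lit 49) (.e (nat_lit 778500) (nat_lit 14) .nil))))) .nil)) 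
(.lf (nat_lit 138217) (.g (nat_lit 3839) (.e (nat_lit 24623) (nat_lit 9) (.e (nat_lit 335997) (nat_lit 1) (.e (nat_lit 57681) (nat_lit 155) (.e (nat_lit 122917) (nat_lit 15) (.e (nat_lit 360491) (nat_lit 22) (.e (nat_lit 778466) (nat_lit 11) .nil)))))) (.g (nat_lit 0) .nil .nil)))) (.nd (nat_lit 5) 
(.lf (nat_lit 138201) (.g (nat_lit 2803) (.e (nat_lit 24617) (nat_lit 7) (.e (nat_lit 319534) (nat_lit 16) (.e (nat_lit 286759) (nat_lit 12) (.e (nat_lit 385115) (nat_lit 53) (.e (nat_lit 811045) (nat_lit 14) (.e (nat_lit 40995) (nat_lit 11) .nil)))))) (.g (nat_lit 6) .nil .nil))) 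
(.lf (nat_lit 138233) (.g (nat_lit 579) (.e (nat_lit 24623) (nat_lit 9) (.e (nat_lit 336028) (nat_lit 3) (.e (nat_lit 98325) (nat_lit 17) (.e (nat_lit 7936) (nat_lit 407) .nil)))) .nil))))) (.nd (nat_lit 3) (.nd (nat_lit 4) (.nd (nat_lit 5) 
(.lf (nat_lit 138181) (.g (nat_lit 3535) (.e (nat_lit 24617) (nat_lit 7) (.e (nat_lit 319534) (nat_lit 16) (.e (nat_lit 286756) (nat_lit 10) (.e (nat_lit 344160) (nat_lit 37) (.e (nat_lit 647195) (nat_lit 9) (.e (nat_lit 1040) (nat_lit 81) (.e (nat_lit 7936) (nat_lit 151) (.e (nat_lit 778468) (nat_lit 11) .nil)))))))) (.g (nat_lit 5) .nil .nil))) 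
(.lf (nat_lit 138213) (.g (nat_lit 2403) (.e (nat_lit 24623) (nat_lit 9) (.e (nat_lit 335997) (nat_lit 1) (.e (nat_lit 57681) (nat_lit 155) (.e (nat_lit 122914) (nat_lit 14) (.e (nat_lit 352324) (nat_lit 26) (.e (nat_lit 147495) (nat_lit 11) .nil)))))) (.g (nat_lit 4) .nil .nil)))) (.nd (nat_lit 5) 
(.lf (nat_lit 138197) (.g (nat_lit 2085) (.e (nat_lit 24617) (nat_lit 7) (.e (nat_lit 319534) (nat_lit 16) (.e (nat_lit 286759) (nat_lit 12) (.e (nat_lit 385111) (nat_lit 53) (.e (nat_lit 811045) (nat_lit 14) (.e (nat_lit 40997) (nat_lit 11) .nil)))))) (.g (nat_lit 4) .nil .nil))) 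
(.lf (nat_lit 138229) (.g (nat_lit 2120) (.e (nat_lit 24623) (nat_lit 9) (.e (nat_lit 336013) (nat_lit 2) (.e (nat_lit 98048) (nat_lit 2) (.e (nat_lit 16456) (nat_lit 12) (.e (nat_lit 483072) (nat_lit 2) .nil))))) (.g (nat_lit 4) .nil .nil))))) (.nd (nat_lit 4) (.nd (nat_lit 5) 
(.lf (nat_lit 138189) (.g (nat_lit 2518) (.e (nat_lit 24617) (nat_lit 7) (.e (nat_lit 319534) (nat_lit 16) (.e (nat_lit 286759) (nat_lit 12) (.e (nat_lit 385094) (nat_lit 49) (.e (nat_lit 778500) (nat_lit 14) (.e (nat_lit 1154) (nat_lit 85) (.e (nat_lit 40997) (nat_lit 11) .nil))))))) (.g (nat_lit 4) .nil .nil))) 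
(.lf (nat_lit 138221) (.g (nat_lit 2950) (.e (nat_lit 24623) (nat_lit 9) (.e (nat_lit 335997) (nat_lit 1) (.e (nat_lit 57681) (nat_lit 155) (.e (nat_lit 122919) (nat_lit 15) (.e (nat_lit 360491) (nat_lit 22) (.e (nat_lit 778464) (nat_lit 11) .nil)))))) (.g (nat_lit 5) .nil .nil)))) (.nd (nat_lit 5) 
(.lf (nat_lit 138205) (.g (nat_lit 432) (.e (nat_lit 24622) (nat_lit 8) (.e (nat_lit 335616) (nat_lit 2) (.e (nat_lit 32783) (nat_lit 7) (.e (nat_lit 16461) (nat_lit 12) (.e (nat_lit 483072) (nat_lit 2) .nil))))) (.g (nat_lit 4) .nil .nil))) 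
(.lf (nat_lit 138237) (.g (nat_lit 1497) (.e (nat_lit 24623) (nat_lit 9) (.e (nat_lit 336028) (nat_lit 3) (.e (nat_lit 98357) (nat_lit 26) (.e (nat_lit 426448) (nat_lit 20) (.e (nat_lit 114714) (nat_lit 22) .nil))))) .nil)))))) (.nd (nat_lit 2) (.nd (nat_lit 3) (.nd (nat_lit 4) (.nd (nat_lit 5) 
(.lf (nat_lit 138179) (.g (nat_lit 2335) (.e (nat_lit 24617) (nat_lit 7) (.e (nat_lit 319534) (nat_lit 16) (.e (nat_lit 286756) (nat_lit 10) (.e (nat_lit 344160) (nat_lit 37) (.e (nat_lit 647190) (nat_lit 9) (.e (nat_lit 1311) (nat_lit 98) (.e (nat_lit 147492) (nat_lit 11) .nil))))))) (.g (nat_lit 4) .nil .nil))) 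
(.lf (nat_lit 138211) (.g (nat_lit 2259) (.e (nat_lit 24623) (nat_lit 9) (.e (nat_lit 335997) (nat_lit 1) (.e (nat_lit 57680) (nat_lit 155) (.e (nat_lit 122916) (nat_lit 14) (.e (nat_lit 352322) (nat_lit 26) (.e (nat_lit 147496) (nat_lit 11) .nil)))))) (.g (nat_lit 4) .nil .nil)))) (.nd (nat_lit 5) 
(.lf (nat_lit 138195) (.g (nat_lit 2184) (.e (nat_lit 24617) (nat_lit 7) (.e (nat_lit 319534) (nat_lit 16) (.e (nat_lit 286759) (nat_lit 12) (.e (nat_lit 385094) (nat_lit 49) (.e (nat_lit 778538) (nat_lit 14) .nil))))) .nil)) 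
(.lf (nat_lit 138227) (.g (nat_lit 1784) (.e (nat_lit 24623) (nat_lit 9) (.e (nat_lit 335997) (nat_lit 1) (.e (nat_lit 57683) (nat_lit 155) (.e (nat_lit 122917) (nat_lit 15) (.e (nat_lit 360491) (nat_lit 22) .nil))))) .nil)))) (.nd (nat_lit 4) (.nd (nat_lit 5) 
(.lf (nat_lit 138187) (.g (nat_lit 2361) (.e (nat_lit 24617) (nat_lit 7) (.e (nat_lit 319534) (nat_lit 16) (.e (nat_lit 286759) (nat_lit 12) (.e (nat_lit 385094) (nat_lit 49) (.e (nat_lit 778496) (nat_lit 14) .nil))))) .nil)) 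
(.lf (nat_lit 138219) (.g (nat_lit 3515) (.e (nat_lit 24623) (nat_lit 9) (.e (nat_lit 335997) (nat_lit 1) (.e (nat_lit 57681) (nat_lit 155) (.e (nat_lit 122917) (nat_lit 15) (.e (nat_lit 360492) (nat_lit 22) (.e (nat_lit 778466) (nat_lit 11) .nil)))))) (.g (nat_lit 0) .nil .nil)))) (.nd (nat_lit 5) 
(.lf (nat_lit 138203) (.g (nat_lit 1432) (.e (nat_lit 24621) (nat_lit 8) (.e (nat_lit 327703) (nat_lit 10) (.e (nat_lit 720) (nat_lit 64) (.e (nat_lit 688186) (nat_lit 18) (.e (nat_lit 81965) (nat_lit 26) .nil))))) .nil)) 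
(.lf (nat_lit 138235) (.g (nat_lit 987) (.e (nat_lit 24623) (nat_lit 9) (.e (nat_lit 336028) (nat_lit 3) (.e (nat_lit 98354) (nat_lit 26) (.e (nat_lit 426448) (nat_lit 20) .nil)))) .nil))))) (.nd (nat_lit 3) (.nd (nat_lit 4) (.nd (nat_lit 5) 
(.lf (nat_lit 138183) (.g (nat_lit 2497) (.e (nat_lit 24617) (nat_lit 7) (.e (nat_lit 319534) (nat_lit 16) (.e (nat_lit 286756) (nat_lit 10) (.e (nat_lit 344160) (nat_lit 37) (.e (nat_lit 655104) (nat_lit 14) (.e (nat_lit 2578) (nat_lit 161) (.e (nat_lit 40993) (nat_lit 11) .nil))))))) (.g (nat_lit 4) .nil .nil))) 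
(.lf (nat_lit 138215) (.g (nat_lit 3309) (.e (nat_lit 24623) (nat_lit 9) (.e (nat_lit 335997) (nat_lit 1) (.e (nat_lit 57681) (nat_lit 155) (.e (nat_lit 122916) (nat_lit 14) (.e (nat_lit 352324) (nat_lit 26) (.e (nat_lit 147496) (nat_lit 11) .nil)))))) (.g (nat_lit 5) .nil .nil)))) (.nd (nat_lit 5) 
(.lf (nat_lit 138199) (.g (nat_lit 2771) (.e (nat_lit 24617) (nat_lit 7) (.e (nat_lit 319534) (nat_lit 16) (.e (nat_lit 286759) (nat_lit 12) (.e (nat_lit 385113) (nat_lit 53) (.e (nat_lit 811045) (nat_lit 14) (.e (nat_lit 40996) (nat_lit 11) .nil)))))) (.g (nat_lit 6) .nil .nil))) 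
(.lf (nat_lit 138231) (.g (nat_lit 752) (.e (nat_lit 24623) (nat_lit 9) (.e (nat_lit 336019) (nat_lit 3) (.e (nat_lit 98389) (nat_lit 33) .nil))) .nil)))) (.nd (nat_lit 4) (.nd (nat_lit 5) 
(.lf (nat_lit 138191) (.g (nat_lit 2710) (.e (nat_lit 24617) (nat_lit 7) (.e (nat_lit 319534) (nat_lit 16) (.e (nat_lit 286759) (nat_lit 12) (.e (nat_lit 385094) (nat_lit 49) (.e (nat_lit 778506) (nat_lit 14) (.e (nat_lit 1151) (nat_lit 85) (.e (nat_lit 40997) (nat_lit 11) .nil))))))) (.g (nat_lit 4) .nil .nil))) 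
(.lf (nat_lit 138223) (.g (nat_lit 3913) (.e (nat_lit 24623) (nat_lit 9) (.e (nat_lit 335997) (nat_lit 1) (.e (nat_lit 57681) (nat_lit 155) (.e (nat_lit 122919) (nat_lit 15) (.e (nat_lit 360491) (nat_lit 22) (.e (nat_lit 778466) (nat_lit 11) .nil)))))) (.g (nat_lit 0) .nil .nil)))) (.nd (nat_lit 5) 
(.lf (nat_lit 138207) (.g (nat_lit 2734) (.e (nat_lit 24622) (nat_lit 8) (.e (nat_lit 327708) (nat_lit 10) (.e (nat_lit 5612) (nat_lit 312) (.e (nat_lit 232) (nat_lit 21) (.e (nat_lit 336060) (nat_lit 7) (.e (nat_lit 319504) (nat_lit 10) (.e (nat_lit 7936) (nat_lit 314) .nil))))))) (.g (nat_lit 6) .nil .nil))) 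
(.lf (nat_lit 138239) (.g (nat_lit 636) (.e (nat_lit 24623) (nat_lit 9) (.e (nat_lit 336028) (nat_lit 3) (.e (nat_lit 98385) (nat_lit 32) .nil))) .nil))))))))

noncomputable def tv1836 : DT := (.nd (nat_lit 0) (.nd (nat_lit 1) (.nd (nat_lit 2) (.nd (nat_lit 3) (.nd (nat_lit 4) (.nd (nat_lit 5) 
(.lf (nat_lit 138240) (.g (nat_lit 636) (.e (nat_lit 24623) (nat_lit 9) (.e (nat_lit 336028) (nat_lit 3) (.e (nat_lit 98387) (nat_lit 33) .nil))) .nil)) 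
(.lf (nat_lit 138272) (.g (nat_lit 3401) (.e (nat_lit 24625) (nat_lit 9) (.e (nat_lit 336366) (nat_lit 27) (.e (nat_lit 426499) (nat_lit 27) (.e (nat_lit 335986) (nat_lit 1) (.e (nat_lit 57847) (nat_lit 252) (.e (nat_lit 57372) (nat_lit 2) (.e (nat_lit 90160) (nat_lit 11) .nil))))))) (.g (nat_lit 5) .nil .nil)))) (.nd (nat_lit 5) 
(.lf (nat_lit 138256) (.g (nat_lit 2190) (.e (nat_lit 24624) (nat_lit 9) (.e (nat_lit 336443) (nat_lit 32) (.e (nat_lit 466971) (nat_lit 21) (.e (nat_lit 164327) (nat_lit 230) (.e (nat_lit 163879) (nat_lit 4) (.e (nat_lit 213030) (nat_lit 11) .nil)))))) (.g (nat_lit 4) .nil .nil))) 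
(.lf (nat_lit 138288) (.g (nat_lit 2469) (.e (nat_lit 24625) (nat_lit 9) (.e (nat_lit 336454) (nat_lit 34) (.e (nat_lit 483363) (nat_lit 18) (.e (nat_lit 57847) (nat_lit 252) (.e (nat_lit 57371) (nat_lit 2) (.e (nat_lit 90158) (nat_lit 11) .nil)))))) (.g (nat_lit 4) .nil .nil))))) (.nd (nat_lit 4) (.nd (nat_lit 5) 
(.lf (nat_lit 138248) (.g (nat_lit 3175) (.e (nat_lit 24623) (nat_lit 9) (.e (nat_lit 336454) (nat_lit 34) (.e (nat_lit 483365) (nat_lit 18) (.e (nat_lit 57849) (nat_lit 252) (.e (nat_lit 57375) (nat_lit 2) (.e (nat_lit 90160) (nat_lit 11) .nil)))))) (.g (nat_lit 4) .nil .nil))) 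
(.lf (nat_lit 138280) (.g (nat_lit 2213) (.e (nat_lit 24625) (nat_lit 9) (.e (nat_lit 336367) (nat_lit 27) (.e (nat_lit 426571) (nat_lit 35) (.e (nat_lit 401434) (nat_lit 9) (.e (nat_lit 426125) (nat_lit 2) (.e (nat_lit 204544) (nat_lit 2) .nil)))))) (.g (nat_lit 4) .nil .nil)))) (.nd (nat_lit 5) 
(.lf (nat_lit 138264) (.g (nat_lit 4476) (.e (nat_lit 24625) (nat_lit 9) (.e (nat_lit 336324) (nat_lit 18) (.e (nat_lit 204831) (nat_lit 18) (.e (nat_lit 57708) (nat_lit 170) .nil)))) .nil)) 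
(.lf (nat_lit 138296) (.g (nat_lit 3417) (.e (nat_lit 24625) (nat_lit 9) (.e (nat_lit 336454) (nat_lit 34) (.e (nat_lit 483363) (nat_lit 18) (.e (nat_lit 57854) (nat_lit 252) (.e (nat_lit 57371) (nat_lit 2) (.e (nat_lit 90158) (nat_lit 11) .nil)))))) (.g (nat_lit 0) .nil .nil)))))) (.nd (nat_lit 3) (.nd (nat_lit 4) (.nd (nat_lit 5) 
(.lf (nat_lit 138244) (.g (nat_lit 2235) (.e (nat_lit 24623) (nat_lit 9) (.e (nat_lit 336048) (nat_lit 6) (.e (nat_lit 147496) (nat_lit 11) (.e (nat_lit 24584) (nat_lit 0) (.e (nat_lit 6097) (nat_lit 332) (.e (nat_lit 2584) (nat_lit 161) (.e (nat_lit 40997) (nat_lit 11) .nil))))))) (.g (nat_lit 4) .nil .nil))) 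
(.lf (nat_lit 138276) (.g (nat_lit 3484) (.e (nat_lit 24625) (nat_lit 9) (.e (nat_lit 336367) (nat_lit 27) (.e (nat_lit 426482) (nat_lit 27) (.e (nat_lit 335997) (nat_lit 1) (.e (nat_lit 57849) (nat_lit 252) (.e (nat_lit 57372) (nat_lit 2) (.e (nat_lit 90158) (nat_lit 11) .nil))))))) (.g (nat_lit 6) .nil .nil)))) (.nd (nat_lit 5) 
(.lf (nat_lit 138260) (.g (nat_lit 2880) (.e (nat_lit 24625) (nat_lit 9) (.e (nat_lit 336019) (nat_lit 3) (.e (nat_lit 98388) (nat_lit 33) (.e (nat_lit 491560) (nat_lit 10) (.e (nat_lit 344131) (nat_lit 26) (.e (nat_lit 557087) (nat_lit 11) .nil)))))) (.g (nat_lit 4) .nil .nil))) 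
(.lf (nat_lit 138292) (.g (nat_lit 3717) (.e (nat_lit 24625) (nat_lit 9) (.e (nat_lit 336454) (nat_lit 34) (.e (nat_lit 483363) (nat_lit 18) (.e (nat_lit 57849) (nat_lit 252) (.e (nat_lit 57372) (nat_lit 2) (.e (nat_lit 90158) (nat_lit 11) .nil)))))) (.g (nat_lit 0) .nil .nil))))) (.nd (nat_lit 4) (.nd (nat_lit 5) 
(.lf (nat_lit 138252) (.g (nat_lit 2028) (.e (nat_lit 24624) (nat_lit 9) (.e (nat_lit 336369) (nat_lit 27) (.e (nat_lit 426173) (nat_lit 7) (.e (nat_lit 409617) (nat_lit 10) (.e (nat_lit 4926) (nat_lit 287) .nil))))) .nil)) 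
(.lf (nat_lit 138284) (.g (nat_lit 2929) (.e (nat_lit 24625) (nat_lit 9) (.e (nat_lit 336370) (nat_lit 27) (.e (nat_lit 426499) (nat_lit 27) (.e (nat_lit 335986) (nat_lit 1) (.e (nat_lit 57847) (nat_lit 252) (.e (nat_lit 57375) (nat_lit 2) (.e (nat_lit 90160) (nat_lit 11) .nil))))))) (.g (nat_lit 5) .nil .nil)))) (.nd (nat_lit 5) 
(.lf (nat_lit 138268) (.g (nat_lit 2764) (.e (nat_lit 24625) (nat_lit 9) (.e (nat_lit 336324) (nat_lit 18) (.e (nat_lit 204835) (nat_lit 19) (.e (nat_lit 106498) (nat_lit 0) .nil)))) .nil)) 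
(.lf (nat_lit 138300) (.g (nat_lit 3161) (.e (nat_lit 24625) (nat_lit 9) (.e (nat_lit 336454) (nat_lit 34) (.e (nat_lit 483364) (nat_lit 18) (.e (nat_lit 57852) (nat_lit 252) (.e (nat_lit 57371) (nat_lit 2) (.e (nat_lit 90158) (nat_lit 11) .nil)))))) (.g (nat_lit 0) .nil .nil))))))) (.nd (nat_lit 2) (.nd (nat_lit 3) (.nd (nat_lit 4) (.nd (nat_lit 5) 
(.lf (nat_lit 138242) (.g (nat_lit 2532) (.e (nat_lit 24623) (nat_lit 9) (.e (nat_lit 336028) (nat_lit 3) (.e (nat_lit 98389) (nat_lit 33) (.e (nat_lit 491560) (nat_lit 10) (.e (nat_lit 344129) (nat_lit 26) (.e (nat_lit 557087) (nat_lit 11) .nil)))))) (.g (nat_lit 4) .nil .nil))) 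
(.lf (nat_lit 138274) (.g (nat_lit 2966) (.e (nat_lit 24625) (nat_lit 9) (.e (nat_lit 336366) (nat_lit 27) (.e (nat_lit 426499) (nat_lit 27) (.e (nat_lit 335986) (nat_lit 1) (.e (nat_lit 57849) (nat_lit 252) (.e (nat_lit 57372) (nat_lit 2) (.e (nat_lit 90158) (nat_lit 11) .nil))))))) (.g (nat_lit 5) .nil .nil)))) (.nd (nat_lit 5) 
(.lf (nat_lit 138258) (.g (nat_lit 2383) (.e (nat_lit 24624) (nat_lit 9) (.e (nat_lit 336454) (nat_lit 34) (.e (nat_lit 483366) (nat_lit 18) (.e (nat_lit 57848) (nat_lit 252) (.e (nat_lit 57375) (nat_lit 2) (.e (nat_lit 90160) (nat_lit 11) .nil)))))) (.g (nat_lit 4) .nil .nil))) 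
(.lf (nat_lit 138290) (.g (nat_lit 3622) (.e (nat_lit 24625) (nat_lit 9) (.e (nat_lit 336454) (nat_lit 34) (.e (nat_lit 483363) (nat_lit 18) (.e (nat_lit 57847) (nat_lit 252) (.e (nat_lit 57373) (nat_lit 2) (.e (nat_lit 90158) (nat_lit 11) .nil)))))) (.g (nat_lit 0) .nil .nil))))) (.nd (nat_lit 4) (.nd (nat_lit 5) 
(.lf (nat_lit 138250) (.g (nat_lit 712) (.e (nat_lit 24624) (nat_lit 9) (.e (nat_lit 336369) (nat_lit 27) (.e (nat_lit 426173) (nat_lit 7) .nil))) .nil)) 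
(.lf (nat_lit 138282) (.g (nat_lit 599) (.e (nat_lit 24625) (nat_lit 9) (.e (nat_lit 336369) (nat_lit 27) (.e (nat_lit 426025) (nat_lit 0) .nil))) .nil))) (.nd (nat_lit 5) 
(.lf (nat_lit 138266) (.g (nat_lit 4468) (.e (nat_lit 24625) (nat_lit 9) (.e (nat_lit 336324) (nat_lit 18) (.e (nat_lit 204831) (nat_lit 18) (.e (nat_lit 57734) (nat_lit 182) .nil)))) .nil)) 
(.lf (nat_lit 138298) (.g (nat_lit 3948) (.e (nat_lit 24625) (nat_lit 9) (.e (nat_lit 336454) (nat_lit 34) (.e (nat_lit 483363) (nat_lit 18) (.e (nat_lit 57854) (nat_lit 252) (.e (nat_lit 57373) (nat_lit 2) (.e (nat_lit 90158) (nat_lit 11) .nil)))))) (.g (nat_lit 0) .nil .nil)))))) (.nd (nat_lit 3) (.nd (nat_lit 4) (.nd (nat_lit 5) 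
(.lf (nat_lit 138246) (.g (nat_lit 591) (.e (nat_lit 24623) (nat_lit 9) (.e (nat_lit 336389) (nat_lit 27) (.e (nat_lit 426012) (nat_lit 0) .nil))) .nil)) 
(.lf (nat_lit 138278) (.g (nat_lit 1946) (.e (nat_lit 24625) (nat_lit 9) (.e (nat_lit 336367) (nat_lit 27) (.e (nat_lit 426482) (nat_lit 27) (.e (nat_lit 335997) (nat_lit 1) (.e (nat_lit 57853) (nat_lit 252) .nil))))) .nil))) (.nd (nat_lit 5) 
(.lf (nat_lit 138262) (.g (nat_lit 5095) (.e (nat_lit 24625) (nat_lit 9) (.e (nat_lit 336258) (nat_lit 15) (.e (nat_lit 3309) (nat_lit 202) (.e (nat_lit 573484) (nat_lit 13) (.e (nat_lit 65617) (nat_lit 10) (.e (nat_lit 344133) (nat_lit 26) (.e (nat_lit 557087) (nat_lit 11) .nil))))))) (.g (nat_lit 7) .nil .nil))) 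
(.lf (nat_lit 138294) (.g (nat_lit 3613) (.e (nat_lit 24625) (nat_lit 9) (.e (nat_lit 336454) (nat_lit 34) (.e (nat_lit 483363) (nat_lit 18) (.e (nat_lit 57853) (nat_lit 252) (.e (nat_lit 57371) (nat_lit 2) (.e (nat_lit 90158) (nat_lit 11) .nil)))))) (.g (nat_lit 6) .nil .nil))))) (.nd (nat_lit 4) (.nd (nat_lit 5) 
(.lf (nat_lit 138254) (.g (nat_lit 2132) (.e (nat_lit 24624) (nat_lit 9) (.e (nat_lit 336443) (nat_lit 32) (.e (nat_lit 466969) (nat_lit 21) (.e (nat_lit 164326) (nat_lit 230) (.e (nat_lit 163879) (nat_lit 4) .nil))))) .nil)) 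
(.lf (nat_lit 138286) (.g (nat_lit 2884) (.e (nat_lit 24625) (nat_lit 9) (.e (nat_lit 336370) (nat_lit 27) (.e (nat_lit 426499) (nat_lit 27) (.e (nat_lit 335986) (nat_lit 1) (.e (nat_lit 57849) (nat_lit 252) (.e (nat_lit 57375) (nat_lit 2) (.e (nat_lit 90158) (nat_lit 11) .nil))))))) (.g (nat_lit 5) .nil .nil)))) (.nd (nat_lit 5) 
(.lf (nat_lit 138270) (.g (nat_lit 2252) (.e (nat_lit 24625) (nat_lit 9) (.e (nat_lit 336366) (nat_lit 27) (.e (nat_lit 426499) (nat_lit 27) (.e (nat_lit 335986) (nat_lit 1) (.e (nat_lit 57847) (nat_lit 252) .nil))))) .nil)) 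
(.lf (nat_lit 138302) (.g (nat_lit 2953) (.e (nat_lit 24625) (nat_lit 9) (.e (nat_lit 336454) (nat_lit 34) (.e (nat_lit 483364) (nat_lit 18) (.e (nat_lit 57854) (nat_lit 252) (.e (nat_lit 57370) (nat_lit 2) (.e (nat_lit 90158) (nat_lit 11) .nil)))))) (.g (nat_lit 0) .nil .nil)))))))) (.nd (nat_lit 1) (.nd (nat_lit 2) (.nd (nat_lit 3) (.nd (nat_lit 4) (.nd (nat_lit 5) 
(.lf (nat_lit 138241) (.g (nat_lit 2914) (.e (nat_lit 24623) (nat_lit 9) (.e (nat_lit 336028) (nat_lit 3) (.e (nat_lit 98389) (nat_lit 33) (.e (nat_lit 491558) (nat_lit 10) (.e (nat_lit 344130) (nat_lit 26) (.e (nat_lit 557087) (nat_lit 11) .nil)))))) (.g (nat_lit 5) .nil .nil))) 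
(.lf (nat_lit 138273) (.g (nat_lit 3324) (.e (nat_lit 24625) (nat_lit 9) (.e (nat_lit 336366) (nat_lit 27) (.e (nat_lit 426499) (nat_lit 27) (.e (nat_lit 335986) (nat_lit 1) (.e (nat_lit 57847) (nat_lit 252) (.e (nat_lit 57375) (nat_lit 2) (.e (nat_lit 90160) (nat_lit 11) .nil))))))) (.g (nat_lit 5) .nil .nil)))) (.nd (nat_lit 5) 
(.lf (nat_lit 138257) (.g (nat_lit 4035) (.e (nat_lit 24624) (nat_lit 9) (.e (nat_lit 336454) (nat_lit 34) (.e (nat_lit 483365) (nat_lit 18) (.e (nat_lit 57849) (nat_lit 252) (.e (nat_lit 57372) (nat_lit 2) (.e (nat_lit 90160) (nat_lit 11) .nil)))))) (.g (nat_lit 0) .nil .nil))) 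
(.lf (nat_lit 138289) (.g (nat_lit 3544) (.e (nat_lit 24625) (nat_lit 9) (.e (nat_lit 336454) (nat_lit 34) (.e (nat_lit 483363) (nat_lit 18) (.e (nat_lit 57847) (nat_lit 252) (.e (nat_lit 57372) (nat_lit 2) (.e (nat_lit 90158) (nat_lit 11) .nil)))))) (.g (nat_lit 0) .nil .nil))))) (.nd (nat_lit 4) (.nd (nat_lit 5) 
(.lf (nat_lit 138249) (.g (nat_lit 3994) (.e (nat_lit 24623) (nat_lit 9) (.e (nat_lit 336456) (nat_lit 34) (.e (nat_lit 483365) (nat_lit 18) (.e (nat_lit 57849) (nat_lit 252) (.e (nat_lit 57372) (nat_lit 2) (.e (nat_lit 90160) (nat_lit 11) .nil)))))) (.g (nat_lit 6) .nil .nil))) 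
(.lf (nat_lit 138281) (.g (nat_lit 2509) (.e (nat_lit 24625) (nat_lit 9) (.e (nat_lit 336368) (nat_lit 27) (.e (nat_lit 426499) (nat_lit 27) (.e (nat_lit 335986) (nat_lit 1) (.e (nat_lit 57849) (nat_lit 252) (.e (nat_lit 57372) (nat_lit 2) (.e (nat_lit 90160) (nat_lit 11) .nil))))))) (.g (nat_lit 4) .nil .nil)))) (.nd (nat_lit 5) 
(.lf (nat_lit 138265) (.g (nat_lit 4336) (.e (nat_lit 24625) (nat_lit 9) (.e (nat_lit 336324) (nat_lit 18) (.e (nat_lit 204831) (nat_lit 18) (.e (nat_lit 65280) (nat_lit 170) .nil)))) .nil)) 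
(.lf (nat_lit 138297) (.g (nat_lit 3462) (.e (nat_lit 24625) (nat_lit 9) (.e (nat_lit 336454) (nat_lit 34) (.e (nat_lit 483363) (nat_lit 18) (.e (nat_lit 57854) (nat_lit 252) (.e (nat_lit 57371) (nat_lit 2) (.e (nat_lit 90160) (nat_lit 11) .nil)))))) (.g (nat_lit 0) .nil .nil)))))) (.nd (nat_lit 3) (.nd (nat_lit 4) (.nd (nat_lit 5) 
(.lf (nat_lit 138245) (.g (nat_lit 2031) (.e (nat_lit 24623) (nat_lit 9) (.e (nat_lit 336369) (nat_lit 27) (.e (nat_lit 426025) (nat_lit 0) (.e (nat_lit 7549) (nat_lit 402) (.e (nat_lit 1512) (nat_lit 108) .nil))))) .nil)) 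
(.lf (nat_lit 138277) (.g (nat_lit 3581) (.e (nat_lit 24625) (nat_lit 9) (.e (nat_lit 336367) (nat_lit 27) (.e (nat_lit 426482) (nat_lit 27) (.e (nat_lit 335997) (nat_lit 1) (.e (nat_lit 57849) (nat_lit 252) (.e (nat_lit 57375) (nat_lit 2) (.e (nat_lit 90158) (nat_lit 11) .nil))))))) (.g (nat_lit 6) .nil .nil)))) (.nd (nat_lit 5) 
(.lf (nat_lit 138261) (.g (nat_lit 3725) (.e (nat_lit 24625) (nat_lit 9) (.e (nat_lit 336240) (nat_lit 15) (.e (nat_lit 3309) (nat_lit 202) (.e (nat_lit 573484) (nat_lit 13) (.e (nat_lit 65617) (nat_lit 10) (.e (nat_lit 344130) (nat_lit 26) (.e (nat_lit 557086) (nat_lit 11) .nil))))))) (.g (nat_lit 5) .nil .nil))) 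
(.lf (nat_lit 138293) (.g (nat_lit 3718) (.e (nat_lit 24625) (nat_lit 9) (.e (nat_lit 336454) (nat_lit 34) (.e (nat_lit 483363) (nat_lit 18) (.e (nat_lit 57849) (nat_lit 252) (.e (nat_lit 57375) (nat_lit 2) (.e (nat_lit 90158) (nat_lit 11) .nil)))))) (.g (nat_lit 0) .nil .nil))))) (.nd (nat_lit 4) (.nd (nat_lit 5) 
(.lf (nat_lit 138253) (.g (nat_lit 2194) (.e (nat_lit 24624) (nat_lit 9) (.e (nat_lit 336443) (nat_lit 32) (.e (nat_lit 466969) (nat_lit 21) (.e (nat_lit 164325) (nat_lit 230) (.e (nat_lit 163879) (nat_lit 4) .nil))))) .nil)) 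
(.lf (nat_lit 138285) (.g (nat_lit 2903) (.e (nat_lit 24625) (nat_lit 9) (.e (nat_lit 336370) (nat_lit 27) (.e (nat_lit 426499) (nat_lit 27) (.e (nat_lit 335986) (nat_lit 1) (.e (nat_lit 57849) (nat_lit 252) (.e (nat_lit 57372) (nat_lit 2) (.e (nat_lit 90158) (nat_lit 11) .nil))))))) (.g (nat_lit 5) .nil .nil)))) (.nd (nat_lit 5) 
(.lf (nat_lit 138269) (.g (nat_lit 2758) (.e (nat_lit 24625) (nat_lit 9) (.e (nat_lit 336324) (nat_lit 18) (.e (nat_lit 204835) (nat_lit 19) (.e (nat_lit 106533) (nat_lit 10) .nil)))) .nil)) 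
(.lf (nat_lit 138301) (.g (nat_lit 3356) (.e (nat_lit 24625) (nat_lit 9) (.e (nat_lit 336454) (nat_lit 34) (.e (nat_lit 483364) (nat_lit 18) (.e (nat_lit 57852) (nat_lit 252) (.e (nat_lit 57373) (nat_lit 2) (.e (nat_lit 90158) (nat_lit 11) .nil)))))) (.g (nat_lit 0) .nil .nil))))))) (.nd (nat_lit 2) (.nd (nat_lit 3) (.nd (nat_lit 4) (.nd (nat_lit 5) 
(.lf (nat_lit 138243) (.g (nat_lit 2593) (.e (nat_lit 24623) (nat_lit 9) (.e (nat_lit 336028) (nat_lit 3) (.e (nat_lit 98389) (nat_lit 33) (.e (nat_lit 491560) (nat_lit 10) (.e (nat_lit 344130) (nat_lit 26) (.e (nat_lit 557087) (nat_lit 11) .nil)))))) (.g (nat_lit 4) .nil .nil))) 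
(.lf (nat_lit 138275) (.g (nat_lit 2947) (.e (nat_lit 24625) (nat_lit 9) (.e (nat_lit 336366) (nat_lit 27) (.e (nat_lit 426499) (nat_lit 27) (.e (nat_lit 335986) (nat_lit 1) (.e (nat_lit 57849) (nat_lit 252) (.e (nat_lit 57375) (nat_lit 2) (.e (nat_lit 90158) (nat_lit 11) .nil))))))) (.g (nat_lit 5) .nil .nil)))) (.nd (nat_lit 5) 
(.lf (nat_lit 138259) (.g (nat_lit 666) (.e (nat_lit 24625) (nat_lit 9) (.e (nat_lit 335880) (nat_lit 0) (.e (nat_lit 1853) (nat_lit 124) (.e (nat_lit 557066) (nat_lit 9) .nil)))) .nil)) 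
(.lf (nat_lit 138291) (.g (nat_lit 3422) (.e (nat_lit 24625) (nat_lit 9) (.e (nat_lit 336454) (nat_lit 34) (.e (nat_lit 483363) (nat_lit 18) (.e (nat_lit 57847) (nat_lit 252) (.e (nat_lit 57375) (nat_lit 2) (.e (nat_lit 90158) (nat_lit 11) .nil)))))) (.g (nat_lit 0) .nil .nil))))) (.nd (nat_lit 4) (.nd (nat_lit 5) 
(.lf (nat_lit 138251) (.g (nat_lit 1557) (.e (nat_lit 24624) (nat_lit 9) (.e (nat_lit 336369) (nat_lit 27) (.e (nat_lit 426173) (nat_lit 7) (.e (nat_lit 409616) (nat_lit 10) .nil)))) .nil)) 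
(.lf (nat_lit 138283) (.g (nat_lit 2110) (.e (nat_lit 24625) (nat_lit 9) (.e (nat_lit 336370) (nat_lit 27) (.e (nat_lit 426499) (nat_lit 27) (.e (nat_lit 335986) (nat_lit 1) (.e (nat_lit 57847) (nat_lit 252) .nil))))) .nil))) (.nd (nat_lit 5) 
(.lf (nat_lit 138267) (.g (nat_lit 4336) (.e (nat_lit 24625) (nat_lit 9) (.e (nat_lit 336324) (nat_lit 18) (.e (nat_lit 204831) (nat_lit 18) (.e (nat_lit 65280) (nat_lit 211) .nil)))) .nil)) 
(.lf (nat_lit 138299) (.g (nat_lit 3877) (.e (nat_lit 24625) (nat_lit 9) (.e (nat_lit 336454) (nat_lit 34) (.e (nat_lit 483363) (nat_lit 18) (.e (nat_lit 57854) (nat_lit 252) (.e (nat_lit 57373) (nat_lit 2) (.e (nat_lit 90160) (nat_lit 11) .nil)))))) (.g (nat_lit 0) .nil .nil)))))) (.nd (nat_lit 3) (.nd (nat_lit 4) (.nd (nat_lit 5) 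
(.lf (nat_lit 138247) (.g (nat_lit 3835) (.e (nat_lit 24623) (nat_lit 9) (.e (nat_lit 336389) (nat_lit 27) (.e (nat_lit 426343) (nat_lit 14) (.e (nat_lit 491556) (nat_lit 9) (.e (nat_lit 336051) (nat_lit 6) (.e (nat_lit 147495) (nat_lit 11) .nil)))))) (.g (nat_lit 5) .nil .nil))) 
(.lf (nat_lit 138279) (.g (nat_lit 4268) (.e (nat_lit 24625) (nat_lit 9) (.e (nat_lit 336367) (nat_lit 27) (.e (nat_lit 426530) (nat_lit 27) (.e (nat_lit 335998) (nat_lit 1) (.e (nat_lit 57849) (nat_lit 252) (.e (nat_lit 57372) (nat_lit 2) (.e (nat_lit 90160) (nat_lit 11) .nil))))))) (.g (nat_lit 7) .nil .nil)))) (.nd (nat_lit 5) 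
(.lf (nat_lit 138263) (.g (nat_lit 4477) (.e (nat_lit 24625) (nat_lit 9) (.e (nat_lit 336324) (nat_lit 18) (.e (nat_lit 204831) (nat_lit 18) (.e (nat_lit 57707) (nat_lit 170) .nil)))) .nil)) 
(.lf (nat_lit 138295) (.g (nat_lit 3202) (.e (nat_lit 24625) (nat_lit 9) (.e (nat_lit 336454) (nat_lit 34) (.e (nat_lit 483363) (nat_lit 18) (.e (nat_lit 57854) (nat_lit 252) (.e (nat_lit 57370) (nat_lit 2) (.e (nat_lit 90158) (nat_lit 11) .nil)))))) (.g (nat_lit 0) .nil .nil))))) (.nd (nat_lit 4) (.nd (nat_lit 5) 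
(.lf (nat_lit 138255) (.g (nat_lit 2252) (.e (nat_lit 24624) (nat_lit 9) (.e (nat_lit 336443) (nat_lit 32) (.e (nat_lit 466969) (nat_lit 21) (.e (nat_lit 164327) (nat_lit 230) (.e (nat_lit 163879) (nat_lit 4) .nil))))) .nil)) 
(.lf (nat_lit 138287) (.g (nat_lit 3477) (.e (nat_lit 24625) (nat_lit 9) (.e (nat_lit 336454) (nat_lit 34) (.e (nat_lit 483363) (nat_lit 18) (.e (nat_lit 57847) (nat_lit 252) (.e (nat_lit 57370) (nat_lit 2) (.e (nat_lit 90158) (nat_lit 11) .nil)))))) (.g (nat_lit 0) .nil .nil)))) (.nd (nat_lit 5) 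
(.lf (nat_lit 138271) (.g (nat_lit 3146) (.e (nat_lit 24625) (nat_lit 9) (.e (nat_lit 336366) (nat_lit 27) (.e (nat_lit 426499) (nat_lit 27) (.e (nat_lit 335986) (nat_lit 1) (.e (nat_lit 57847) (nat_lit 252) (.e (nat_lit 57370) (nat_lit 2) (.e (nat_lit 90158) (nat_lit 11) .nil))))))) (.g (nat_lit 4) .nil .nil))) 
(.lf (nat_lit 138303) (.g (nat_lit 3183) (.e (nat_lit 24625) (nat_lit 9) (.e (nat_lit 336454) (nat_lit 34) (.e (nat_lit 483364) (nat_lit 18) (.e (nat_lit 57854) (nat_lit 252) (.e (nat_lit 57371) (nat_lit 2) (.e (nat_lit 90158) (nat_lit 11) .nil)))))) (.g (nat_lit 0) .nil .nil)))))))))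

noncomputable def tv1837 : DT := (.nd (nat_lit 0) (.nd (nat_lit 1) (.nd (nat_lit 2) (.nd (nat_lit 3) (.nd (nat_lit 4) (.nd (nat_lit 5) 
(.lf (nat_lit 138304) (.g (nat_lit 3620) (.e (nat_lit 24625) (nat_lit 9) (.e (nat_lit 336454) (nat_lit 34) (.e (nat_lit 483364) (nat_lit 18) (.e (nat_lit 57854) (nat_lit 252) (.e (nat_lit 57373) (nat_lit 2) (.e (nat_lit 90158) (nat_lit 11) .nil)))))) (.g (nat_lit 0) .nil .nil))) 
(.lf (nat_lit 138336) (.g (nat_lit 3511) (.e (nat_lit 24625) (nat_lit 9) (.e (nat_lit 336454) (nat_lit 34) (.e (nat_lit 483365) (nat_lit 18) (.e (nat_lit 57854) (nat_lit 252) (.e (nat_lit 57370) (nat_lit 2) (.e (nat_lit 90158) (nat_lit 11) .nil)))))) (.g (nat_lit 0) .nil .nil)))) (.nd (nat_lit 5) 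
(.lf (nat_lit 138320) (.g (nat_lit 3463) (.e (nat_lit 24625) (nat_lit 9) (.e (nat_lit 336454) (nat_lit 34) (.e (nat_lit 483365) (nat_lit 18) (.e (nat_lit 57847) (nat_lit 252) (.e (nat_lit 57375) (nat_lit 2) (.e (nat_lit 90158) (nat_lit 11) .nil)))))) (.g (nat_lit 0) .nil .nil))) 
(.lf (nat_lit 138352) (.g (nat_lit 2597) (.e (nat_lit 24625) (nat_lit 9) (.e (nat_lit 336454) (nat_lit 34) (.e (nat_lit 483366) (nat_lit 18) (.e (nat_lit 57848) (nat_lit 252) (.e (nat_lit 57370) (nat_lit 2) (.e (nat_lit 90158) (nat_lit 11) .nil)))))) (.g (nat_lit 0) .nil .nil))))) (.nd (nat_lit 4) (.nd (nat_lit 5) 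
(.lf (nat_lit 138312) (.g (nat_lit 3089) (.e (nat_lit 24625) (nat_lit 9) (.e (nat_lit 336454) (nat_lit 34) (.e (nat_lit 483365) (nat_lit 18) (.e (nat_lit 57845) (nat_lit 252) .nil)))) .nil)) 
(.lf (nat_lit 138344) (.g (nat_lit 3140) (.e (nat_lit 24625) (nat_lit 9) (.e (nat_lit 336454) (nat_lit 34) (.e (nat_lit 483366) (nat_lit 18) (.e (nat_lit 57846) (nat_lit 252) (.e (nat_lit 57372) (nat_lit 2) (.e (nat_lit 90158) (nat_lit 11) .nil)))))) (.g (nat_lit 0) .nil .nil)))) (.nd (nat_lit 5) 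
(.lf (nat_lit 138328) (.g (nat_lit 2507) (.e (nat_lit 24625) (nat_lit 9) (.e (nat_lit 336454) (nat_lit 34) (.e (nat_lit 483365) (nat_lit 18) (.e (nat_lit 57851) (nat_lit 252) (.e (nat_lit 57371) (nat_lit 2) (.e (nat_lit 90156) (nat_lit 11) .nil)))))) (.g (nat_lit 5) .nil .nil))) 
(.lf (nat_lit 138360) (.g (nat_lit 3066) (.e (nat_lit 24625) (nat_lit 9) (.e (nat_lit 336454) (nat_lit 34) (.e (nat_lit 483366) (nat_lit 18) (.e (nat_lit 57854) (nat_lit 252) (.e (nat_lit 57370) (nat_lit 2) (.e (nat_lit 90158) (nat_lit 11) .nil)))))) (.g (nat_lit 0) .nil .nil)))))) (.nd (nat_lit 3) (.nd (nat_lit 4) (.nd (nat_lit 5) 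
(.lf (nat_lit 138308) (.g (nat_lit 2903) (.e (nat_lit 24625) (nat_lit 9) (.e (nat_lit 336454) (nat_lit 34) (.e (nat_lit 483365) (nat_lit 18) (.e (nat_lit 57830) (nat_lit 250) .nil)))) .nil)) 
(.lf (nat_lit 138340) (.g (nat_lit 2013) (.e (nat_lit 24625) (nat_lit 9) (.e (nat_lit 336454) (nat_lit 34) (.e (nat_lit 483366) (nat_lit 18) (.e (nat_lit 57844) (nat_lit 252) (.e (nat_lit 57371) (nat_lit 2) (.e (nat_lit 90156) (nat_lit 11) .nil)))))) (.g (nat_lit 4) .nil .nil)))) (.nd (nat_lit 5) 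
(.lf (nat_lit 138324) (.g (nat_lit 3953) (.e (nat_lit 24625) (nat_lit 9) (.e (nat_lit 336454) (nat_lit 34) (.e (nat_lit 483365) (nat_lit 18) (.e (nat_lit 57849) (nat_lit 252) (.e (nat_lit 57372) (nat_lit 2) (.e (nat_lit 90160) (nat_lit 11) .nil)))))) (.g (nat_lit 0) .nil .nil))) 
(.lf (nat_lit 138356) (.g (nat_lit 3434) (.e (nat_lit 24625) (nat_lit 9) (.e (nat_lit 336454) (nat_lit 34) (.e (nat_lit 483366) (nat_lit 18) (.e (nat_lit 57849) (nat_lit 252) (.e (nat_lit 57375) (nat_lit 2) (.e (nat_lit 90158) (nat_lit 11) .nil)))))) (.g (nat_lit 0) .nil .nil))))) (.nd (nat_lit 4) (.nd (nat_lit 5) 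
(.lf (nat_lit 138316) (.g (nat_lit 3507) (.e (nat_lit 24625) (nat_lit 9) (.e (nat_lit 336454) (nat_lit 34) (.e (nat_lit 483365) (nat_lit 18) (.e (nat_lit 57847) (nat_lit 252) (.e (nat_lit 57370) (nat_lit 2) (.e (nat_lit 90158) (nat_lit 11) .nil)))))) (.g (nat_lit 0) .nil .nil))) 
(.lf (nat_lit 138348) (.g (nat_lit 3009) (.e (nat_lit 24625) (nat_lit 9) (.e (nat_lit 336454) (nat_lit 34) (.e (nat_lit 483366) (nat_lit 18) (.e (nat_lit 57847) (nat_lit 252) (.e (nat_lit 57372) (nat_lit 2) (.e (nat_lit 90158) (nat_lit 11) .nil)))))) (.g (nat_lit 0) .nil .nil)))) (.nd (nat_lit 5) 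
(.lf (nat_lit 138332) (.g (nat_lit 3667) (.e (nat_lit 24625) (nat_lit 9) (.e (nat_lit 336454) (nat_lit 34) (.e (nat_lit 483365) (nat_lit 18) (.e (nat_lit 57852) (nat_lit 252) (.e (nat_lit 57373) (nat_lit 2) (.e (nat_lit 90158) (nat_lit 11) .nil)))))) (.g (nat_lit 0) .nil .nil))) 
(.lf (nat_lit 138364) (.g (nat_lit 2197) (.e (nat_lit 24625) (nat_lit 9) (.e (nat_lit 336455) (nat_lit 34) (.e (nat_lit 483363) (nat_lit 18) (.e (nat_lit 57849) (nat_lit 252) (.e (nat_lit 57375) (nat_lit 2) (.e (nat_lit 90158) (nat_lit 11) .nil)))))) (.g (nat_lit 4) .nil .nil))))))) (.nd (nat_lit 2) (.nd (nat_lit 3) (.nd (nat_lit 4) (.nd (nat_lit 5) 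
(.lf (nat_lit 138306) (.g (nat_lit 3817) (.e (nat_lit 24625) (nat_lit 9) (.e (nat_lit 336454) (nat_lit 34) (.e (nat_lit 483365) (nat_lit 18) (.e (nat_lit 57824) (nat_lit 250) .nil)))) .nil)) 
(.lf (nat_lit 138338) (.g (nat_lit 4192) (.e (nat_lit 24625) (nat_lit 9) (.e (nat_lit 336454) (nat_lit 34) (.e (nat_lit 483365) (nat_lit 18) (.e (nat_lit 57854) (nat_lit 252) (.e (nat_lit 57373) (nat_lit 2) (.e (nat_lit 90158) (nat_lit 11) .nil)))))) (.g (nat_lit 0) .nil .nil)))) (.nd (nat_lit 5) 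
(.lf (nat_lit 138322) (.g (nat_lit 3116) (.e (nat_lit 24625) (nat_lit 9) (.e (nat_lit 336454) (nat_lit 34) (.e (nat_lit 483365) (nat_lit 18) (.e (nat_lit 57848) (nat_lit 252) (.e (nat_lit 57372) (nat_lit 2) (.e (nat_lit 90158) (nat_lit 11) .nil)))))) (.g (nat_lit 0) .nil .nil))) 
(.lf (nat_lit 138354) (.g (nat_lit 3044) (.e (nat_lit 24625) (nat_lit 9) (.e (nat_lit 336454) (nat_lit 34) (.e (nat_lit 483366) (nat_lit 18) (.e (nat_lit 57849) (nat_lit 252) (.e (nat_lit 57370) (nat_lit 2) (.e (nat_lit 90158) (nat_lit 11) .nil)))))) (.g (nat_lit 0) .nil .nil))))) (.nd (nat_lit 4) (.nd (nat_lit 5) 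
(.lf (nat_lit 138314) (.g (nat_lit 3647) (.e (nat_lit 24625) (nat_lit 9) (.e (nat_lit 336454) (nat_lit 34) (.e (nat_lit 483365) (nat_lit 18) (.e (nat_lit 57846) (nat_lit 252) (.e (nat_lit 57373) (nat_lit 2) (.e (nat_lit 90158) (nat_lit 11) .nil)))))) (.g (nat_lit 6) .nil .nil))) 
(.lf (nat_lit 138346) (.g (nat_lit 3131) (.e (nat_lit 24625) (nat_lit 9) (.e (nat_lit 336454) (nat_lit 34) (.e (nat_lit 483366) (nat_lit 18) (.e (nat_lit 57847) (nat_lit 252) (.e (nat_lit 57370) (nat_lit 2) (.e (nat_lit 90158) (nat_lit 11) .nil)))))) (.g (nat_lit 0) .nil .nil)))) (.nd (nat_lit 5) 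
(.lf (nat_lit 138330) (.g (nat_lit 3338) (.e (nat_lit 24625) (nat_lit 9) (.e (nat_lit 336454) (nat_lit 34) (.e (nat_lit 483365) (nat_lit 18) (.e (nat_lit 57852) (nat_lit 252) (.e (nat_lit 57370) (nat_lit 2) (.e (nat_lit 90158) (nat_lit 11) .nil)))))) (.g (nat_lit 0) .nil .nil))) 
(.lf (nat_lit 138362) (.g (nat_lit 3775) (.e (nat_lit 24625) (nat_lit 9) (.e (nat_lit 336454) (nat_lit 34) (.e (nat_lit 483366) (nat_lit 18) (.e (nat_lit 57854) (nat_lit 252) (.e (nat_lit 57373) (nat_lit 2) (.e (nat_lit 90158) (nat_lit 11) .nil)))))) (.g (nat_lit 0) .nil .nil)))))) (.nd (nat_lit 3) (.nd (nat_lit 4) (.nd (nat_lit 5) 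
(.lf (nat_lit 138310) (.g (nat_lit 1787) (.e (nat_lit 24625) (nat_lit 9) (.e (nat_lit 336454) (nat_lit 34) (.e (nat_lit 483365) (nat_lit 18) (.e (nat_lit 57844) (nat_lit 252) .nil)))) .nil)) 
(.lf (nat_lit 138342) (.g (nat_lit 3254) (.e (nat_lit 24625) (nat_lit 9) (.e (nat_lit 336454) (nat_lit 34) (.e (nat_lit 483366) (nat_lit 18) (.e (nat_lit 57846) (nat_lit 252) (.e (nat_lit 57370) (nat_lit 2) (.e (nat_lit 90158) (nat_lit 11) .nil)))))) (.g (nat_lit 0) .nil .nil)))) (.nd (nat_lit 5) 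
(.lf (nat_lit 138326) (.g (nat_lit 3975) (.e (nat_lit 24625) (nat_lit 9) (.e (nat_lit 336454) (nat_lit 34) (.e (nat_lit 483365) (nat_lit 18) (.e (nat_lit 57849) (nat_lit 252) (.e (nat_lit 57375) (nat_lit 2) (.e (nat_lit 90158) (nat_lit 11) .nil)))))) (.g (nat_lit 0) .nil .nil))) 
(.lf (nat_lit 138358) (.g (nat_lit 1998) (.e (nat_lit 24625) (nat_lit 9) (.e (nat_lit 336454) (nat_lit 34) (.e (nat_lit 483366) (nat_lit 18) (.e (nat_lit 57851) (nat_lit 252) (.e (nat_lit 57371) (nat_lit 2) (.e (nat_lit 90156) (nat_lit 11) .nil)))))) (.g (nat_lit 5) .nil .nil))))) (.nd (nat_lit 4) (.nd (nat_lit 5) 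
(.lf (nat_lit 138318) (.g (nat_lit 3566) (.e (nat_lit 24625) (nat_lit 9) (.e (nat_lit 336454) (nat_lit 34) (.e (nat_lit 483365) (nat_lit 18) (.e (nat_lit 57847) (nat_lit 252) (.e (nat_lit 57372) (nat_lit 2) (.e (nat_lit 90158) (nat_lit 11) .nil)))))) (.g (nat_lit 0) .nil .nil))) 
(.lf (nat_lit 138350) (.g (nat_lit 2921) (.e (nat_lit 24625) (nat_lit 9) (.e (nat_lit 336454) (nat_lit 34) (.e (nat_lit 483366) (nat_lit 18) (.e (nat_lit 57847) (nat_lit 252) (.e (nat_lit 57375) (nat_lit 2) (.e (nat_lit 90158) (nat_lit 11) .nil)))))) (.g (nat_lit 0) .nil .nil)))) (.nd (nat_lit 5) 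
(.lf (nat_lit 138334) (.g (nat_lit 3401) (.e (nat_lit 24625) (nat_lit 9) (.e (nat_lit 336454) (nat_lit 34) (.e (nat_lit 483365) (nat_lit 18) (.e (nat_lit 57853) (nat_lit 252) (.e (nat_lit 57370) (nat_lit 2) (.e (nat_lit 90158) (nat_lit 11) .nil)))))) (.g (nat_lit 0) .nil .nil))) 
(.lf (nat_lit 138366) (.g (nat_lit 801) (.e (nat_lit 24625) (nat_lit 9) (.e (nat_lit 336456) (nat_lit 34) (.e (nat_lit 483355) (nat_lit 17) .nil))) .nil))))))) (.nd (nat_lit 1) (.nd (nat_lit 2) (.nd (nat_lit 3) (.nd (nat_lit 4) (.nd (nat_lit 5) 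
(.lf (nat_lit 138305) (.g (nat_lit 355) (.e (nat_lit 24625) (nat_lit 9) (.e (nat_lit 336454) (nat_lit 34) (.e (nat_lit 483365) (nat_lit 18) .nil))) .nil)) 
(.lf (nat_lit 138337) (.g (nat_lit 3725) (.e (nat_lit 24625) (nat_lit 9) (.e (nat_lit 336454) (nat_lit 34) (.e (nat_lit 483365) (nat_lit 18) (.e (nat_lit 57854) (nat_lit 252) (.e (nat_lit 57371) (nat_lit 2) (.e (nat_lit 90158) (nat_lit 11) .nil)))))) (.g (nat_lit 0) .nil .nil)))) (.nd (nat_lit 5) 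
(.lf (nat_lit 138321) (.g (nat_lit 2737) (.e (nat_lit 24625) (nat_lit 9) (.e (nat_lit 336454) (nat_lit 34) (.e (nat_lit 483365) (nat_lit 18) (.e (nat_lit 57848) (nat_lit 252) (.e (nat_lit 57370) (nat_lit 2) (.e (nat_lit 90158) (nat_lit 11) .nil)))))) (.g (nat_lit 0) .nil .nil))) 
(.lf (nat_lit 138353) (.g (nat_lit 3022) (.e (nat_lit 24625) (nat_lit 9) (.e (nat_lit 336454) (nat_lit 34) (.e (nat_lit 483366) (nat_lit 18) (.e (nat_lit 57848) (nat_lit 252) (.e (nat_lit 57372) (nat_lit 2) (.e (nat_lit 90158) (nat_lit 11) .nil)))))) (.g (nat_lit 0) .nil .nil))))) (.nd (nat_lit 4) (.nd (nat_lit 5) 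
(.lf (nat_lit 138313) (.g (nat_lit 3335) (.e (nat_lit 24625) (nat_lit 9) (.e (nat_lit 336454) (nat_lit 34) (.e (nat_lit 483365) (nat_lit 18) (.e (nat_lit 57846) (nat_lit 252) (.e (nat_lit 57371) (nat_lit 2) (.e (nat_lit 90158) (nat_lit 11) .nil)))))) (.g (nat_lit 5) .nil .nil))) 
(.lf (nat_lit 138345) (.g (nat_lit 3210) (.e (nat_lit 24625) (nat_lit 9) (.e (nat_lit 336454) (nat_lit 34) (.e (nat_lit 483366) (nat_lit 18) (.e (nat_lit 57846) (nat_lit 252) (.e (nat_lit 57373) (nat_lit 2) (.e (nat_lit 90158) (nat_lit 11) .nil)))))) (.g (nat_lit 6) .nil .nil)))) (.nd (nat_lit 5) 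
(.lf (nat_lit 138329) (.g (nat_lit 3523) (.e (nat_lit 24625) (nat_lit 9) (.e (nat_lit 336454) (nat_lit 34) (.e (nat_lit 483365) (nat_lit 18) (.e (nat_lit 57851) (nat_lit 252) (.e (nat_lit 57371) (nat_lit 2) (.e (nat_lit 90158) (nat_lit 11) .nil)))))) (.g (nat_lit 0) .nil .nil))) 
(.lf (nat_lit 138361) (.g (nat_lit 3223) (.e (nat_lit 24625) (nat_lit 9) (.e (nat_lit 336454) (nat_lit 34) (.e (nat_lit 483366) (nat_lit 18) (.e (nat_lit 57854) (nat_lit 252) (.e (nat_lit 57371) (nat_lit 2) (.e (nat_lit 90158) (nat_lit 11) .nil)))))) (.g (nat_lit 0) .nil .nil)))))) (.nd (nat_lit 3) (.nd (nat_lit 4) (.nd (nat_lit 5) 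
(.lf (nat_lit 138309) (.g (nat_lit 3610) (.e (nat_lit 24625) (nat_lit 9) (.e (nat_lit 336454) (nat_lit 34) (.e (nat_lit 483365) (nat_lit 18) (.e (nat_lit 57830) (nat_lit 250) (.e (nat_lit 999) (nat_lit 81) .nil))))) .nil)) 
(.lf (nat_lit 138341) (.g (nat_lit 3298) (.e (nat_lit 24625) (nat_lit 9) (.e (nat_lit 336454) (nat_lit 34) (.e (nat_lit 483366) (nat_lit 18) (.e (nat_lit 57844) (nat_lit 252) (.e (nat_lit 57371) (nat_lit 2) (.e (nat_lit 90158) (nat_lit 11) .nil)))))) (.g (nat_lit 6) .nil .nil)))) (.nd (nat_lit 5) 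
(.lf (nat_lit 138325) (.g (nat_lit 2585) (.e (nat_lit 24625) (nat_lit 9) (.e (nat_lit 336454) (nat_lit 34) (.e (nat_lit 483365) (nat_lit 18) (.e (nat_lit 57849) (nat_lit 252) (.e (nat_lit 57373) (nat_lit 2) (.e (nat_lit 90158) (nat_lit 11) .nil)))))) (.g (nat_lit 4) .nil .nil))) 
(.lf (nat_lit 138357) (.g (nat_lit 2621) (.e (nat_lit 24625) (nat_lit 9) (.e (nat_lit 336454) (nat_lit 34) (.e (nat_lit 483366) (nat_lit 18) (.e (nat_lit 57851) (nat_lit 252) (.e (nat_lit 57370) (nat_lit 2) (.e (nat_lit 90158) (nat_lit 11) .nil)))))) (.g (nat_lit 0) .nil .nil))))) (.nd (nat_lit 4) (.nd (nat_lit 5) 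
(.lf (nat_lit 138317) (.g (nat_lit 2300) (.e (nat_lit 24625) (nat_lit 9) (.e (nat_lit 336454) (nat_lit 34) (.e (nat_lit 483365) (nat_lit 18) (.e (nat_lit 57847) (nat_lit 252) (.e (nat_lit 57371) (nat_lit 2) .nil))))) .nil)) 
(.lf (nat_lit 138349) (.g (nat_lit 3183) (.e (nat_lit 24625) (nat_lit 9) (.e (nat_lit 336454) (nat_lit 34) (.e (nat_lit 483366) (nat_lit 18) (.e (nat_lit 57847) (nat_lit 252) (.e (nat_lit 57373) (nat_lit 2) (.e (nat_lit 90158) (nat_lit 11) .nil)))))) (.g (nat_lit 0) .nil .nil)))) (.nd (nat_lit 5) 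
(.lf (nat_lit 138333) (.g (nat_lit 2882) (.e (nat_lit 24625) (nat_lit 9) (.e (nat_lit 336454) (nat_lit 34) (.e (nat_lit 483365) (nat_lit 18) (.e (nat_lit 57852) (nat_lit 252) (.e (nat_lit 57373) (nat_lit 2) (.e (nat_lit 90160) (nat_lit 11) .nil)))))) (.g (nat_lit 5) .nil .nil))) 
(.lf (nat_lit 138365) (.g (nat_lit 1546) (.e (nat_lit 24625) (nat_lit 9) (.e (nat_lit 336456) (nat_lit 34) (.e (nat_lit 483346) (nat_lit 17) (.e (nat_lit 1095) (nat_lit 81) .nil)))) .nil)))))) (.nd (nat_lit 2) (.nd (nat_lit 3) (.nd (nat_lit 4) (.nd (nat_lit 5) 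
(.lf (nat_lit 138307) (.g (nat_lit 3852) (.e (nat_lit 24625) (nat_lit 9) (.e (nat_lit 336454) (nat_lit 34) (.e (nat_lit 483365) (nat_lit 18) (.e (nat_lit 57825) (nat_lit 250) .nil)))) .nil)) 
(.lf (nat_lit 138339) (.g (nat_lit 2243) (.e (nat_lit 24625) (nat_lit 9) (.e (nat_lit 336454) (nat_lit 34) (.e (nat_lit 483366) (nat_lit 18) (.e (nat_lit 57844) (nat_lit 252) (.e (nat_lit 57370) (nat_lit 2) (.e (nat_lit 90158) (nat_lit 11) .nil)))))) (.g (nat_lit 5) .nil .nil)))) (.nd (nat_lit 5) 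
(.lf (nat_lit 138323) (.g (nat_lit 3982) (.e (nat_lit 24625) (nat_lit 9) (.e (nat_lit 336454) (nat_lit 34) (.e (nat_lit 483365) (nat_lit 18) (.e (nat_lit 57849) (nat_lit 252) (.e (nat_lit 57372) (nat_lit 2) (.e (nat_lit 90158) (nat_lit 11) .nil)))))) (.g (nat_lit 0) .nil .nil))) 
(.lf (nat_lit 138355) (.g (nat_lit 3429) (.e (nat_lit 24625) (nat_lit 9) (.e (nat_lit 336454) (nat_lit 34) (.e (nat_lit 483366) (nat_lit 18) (.e (nat_lit 57849) (nat_lit 252) (.e (nat_lit 57372) (nat_lit 2) (.e (nat_lit 90158) (nat_lit 11) .nil)))))) (.g (nat_lit 0) .nil .nil))))) (.nd (nat_lit 4) (.nd (nat_lit 5) 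
(.lf (nat_lit 138315) (.g (nat_lit 2578) (.e (nat_lit 24625) (nat_lit 9) (.e (nat_lit 336454) (nat_lit 34) (.e (nat_lit 483365) (nat_lit 18) (.e (nat_lit 57846) (nat_lit 252) (.e (nat_lit 57375) (nat_lit 2) (.e (nat_lit 90158) (nat_lit 11) .nil)))))) (.g (nat_lit 4) .nil .nil))) 
(.lf (nat_lit 138347) (.g (nat_lit 2164) (.e (nat_lit 24625) (nat_lit 9) (.e (nat_lit 336454) (nat_lit 34) (.e (nat_lit 483366) (nat_lit 18) (.e (nat_lit 57847) (nat_lit 252) (.e (nat_lit 57371) (nat_lit 2) (.e (nat_lit 90158) (nat_lit 11) .nil)))))) (.g (nat_lit 4) .nil .nil)))) (.nd (nat_lit 5) 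
(.lf (nat_lit 138331) (.g (nat_lit 3484) (.e (nat_lit 24625) (nat_lit 9) (.e (nat_lit 336454) (nat_lit 34) (.e (nat_lit 483365) (nat_lit 18) (.e (nat_lit 57852) (nat_lit 252) (.e (nat_lit 57371) (nat_lit 2) (.e (nat_lit 90158) (nat_lit 11) .nil)))))) (.g (nat_lit 0) .nil .nil))) 
(.lf (nat_lit 138363) (.g (nat_lit 2292) (.e (nat_lit 24625) (nat_lit 9) (.e (nat_lit 336455) (nat_lit 34) (.e (nat_lit 483363) (nat_lit 18) (.e (nat_lit 57849) (nat_lit 252) (.e (nat_lit 57372) (nat_lit 2) (.e (nat_lit 90158) (nat_lit 11) .nil)))))) (.g (nat_lit 4) .nil .nil)))))) (.nd (nat_lit 3) (.nd (nat_lit 4) (.nd (nat_lit 5) 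
(.lf (nat_lit 138311) (.g (nat_lit 2478) (.e (nat_lit 24625) (nat_lit 9) (.e (nat_lit 336454) (nat_lit 34) (.e (nat_lit 483365) (nat_lit 18) (.e (nat_lit 57844) (nat_lit 252) (.e (nat_lit 57371) (nat_lit 2) (.e (nat_lit 90160) (nat_lit 11) .nil)))))) (.g (nat_lit 4) .nil .nil))) 
(.lf (nat_lit 138343) (.g (nat_lit 2961) (.e (nat_lit 24625) (nat_lit 9) (.e (nat_lit 336454) (nat_lit 34) (.e (nat_lit 483366) (nat_lit 18) (.e (nat_lit 57846) (nat_lit 252) (.e (nat_lit 57371) (nat_lit 2) (.e (nat_lit 90158) (nat_lit 11) .nil)))))) (.g (nat_lit 5) .nil .nil)))) (.nd (nat_lit 5) 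
(.lf (nat_lit 138327) (.g (nat_lit 2974) (.e (nat_lit 24625) (nat_lit 9) (.e (nat_lit 336454) (nat_lit 34) (.e (nat_lit 483365) (nat_lit 18) (.e (nat_lit 57851) (nat_lit 252) (.e (nat_lit 57370) (nat_lit 2) (.e (nat_lit 90158) (nat_lit 11) .nil)))))) (.g (nat_lit 0) .nil .nil))) 
(.lf (nat_lit 138359) (.g (nat_lit 3331) (.e (nat_lit 24625) (nat_lit 9) (.e (nat_lit 336454) (nat_lit 34) (.e (nat_lit 483366) (nat_lit 18) (.e (nat_lit 57853) (nat_lit 252) (.e (nat_lit 57371) (nat_lit 2) (.e (nat_lit 90158) (nat_lit 11) .nil)))))) (.g (nat_lit 0) .nil .nil))))) (.nd (nat_lit 4) (.nd (nat_lit 5) 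
(.lf (nat_lit 138319) (.g (nat_lit 3619) (.e (nat_lit 24625) (nat_lit 9) (.e (nat_lit 336454) (nat_lit 34) (.e (nat_lit 483365) (nat_lit 18) (.e (nat_lit 57847) (nat_lit 252) (.e (nat_lit 57373) (nat_lit 2) (.e (nat_lit 90158) (nat_lit 11) .nil)))))) (.g (nat_lit 0) .nil .nil))) 
(.lf (nat_lit 138351) (.g (nat_lit 3129) (.e (nat_lit 24625) (nat_lit 9) (.e (nat_lit 336454) (nat_lit 34) (.e (nat_lit 483366) (nat_lit 18) (.e (nat_lit 57847) (nat_lit 252) (.e (nat_lit 57375) (nat_lit 2) (.e (nat_lit 90160) (nat_lit 11) .nil)))))) (.g (nat_lit 0) .nil .nil)))) (.nd (nat_lit 5) 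
(.lf (nat_lit 138335) (.g (nat_lit 3666) (.e (nat_lit 24625) (nat_lit 9) (.e (nat_lit 336454) (nat_lit 34) (.e (nat_lit 483365) (nat_lit 18) (.e (nat_lit 57853) (nat_lit 252) (.e (nat_lit 57371) (nat_lit 2) (.e (nat_lit 90158) (nat_lit 11) .nil)))))) (.g (nat_lit 0) .nil .nil))) 
(.lf (nat_lit 138367) (.g (nat_lit 2673) (.e (nat_lit 24625) (nat_lit 9) (.e (nat_lit 336456) (nat_lit 34) (.e (nat_lit 483362) (nat_lit 18) (.e (nat_lit 57849) (nat_lit 252) (.e (nat_lit 57372) (nat_lit 2) (.e (nat_lit 90158) (nat_lit 11) .nil)))))) (.g (nat_lit 5) .nil .nil)))))))))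

noncomputable def tv1838 : DT := (.nd (nat_lit 0) (.nd (nat_lit 1) (.nd (nat_lit 2) (.nd (nat_lit 3) (.nd (nat_lit 4) (.nd (nat_lit 5) 
(.lf (nat_lit 138368) (.g (nat_lit 2719) (.e (nat_lit 24625) (nat_lit 9) (.e (nat_lit 336456) (nat_lit 34) (.e (nat_lit 483362) (nat_lit 18) (.e (nat_lit 57849) (nat_lit 252) (.e (nat_lit 57375) (nat_lit 2) (.e (nat_lit 90158) (nat_lit 11) .nil)))))) (.g (nat_lit 5) .nil .nil))) 
(.lf (nat_lit 138400) (.g (nat_lit 1346) (.e (nat_lit 24626) (nat_lit 9) (.e (nat_lit 336443) (nat_lit 32) (.e (nat_lit 466969) (nat_lit 21) (.e (nat_lit 164332) (nat_lit 230) .nil)))) .nil))) (.nd (nat_lit 5) 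
(.lf (nat_lit 138384) (.g (nat_lit 3399) (.e (nat_lit 24625) (nat_lit 9) (.e (nat_lit 336456) (nat_lit 34) (.e (nat_lit 483365) (nat_lit 18) (.e (nat_lit 57846) (nat_lit 252) (.e (nat_lit 57370) (nat_lit 2) (.e (nat_lit 90158) (nat_lit 11) .nil)))))) (.g (nat_lit 6) .nil .nil))) 
(.lf (nat_lit 138416) (.g (nat_lit 3495) (.e (nat_lit 24626) (nat_lit 9) (.e (nat_lit 336454) (nat_lit 34) (.e (nat_lit 483363) (nat_lit 18) (.e (nat_lit 57854) (nat_lit 252) (.e (nat_lit 57373) (nat_lit 2) (.e (nat_lit 90158) (nat_lit 11) .nil)))))) (.g (nat_lit 5) .nil .nil))))) (.nd (nat_lit 4) (.nd (nat_lit 5) 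
(.lf (nat_lit 138376) (.g (nat_lit 3931) (.e (nat_lit 24625) (nat_lit 9) (.e (nat_lit 336456) (nat_lit 34) (.e (nat_lit 483363) (nat_lit 18) (.e (nat_lit 57854) (nat_lit 252) (.e (nat_lit 57373) (nat_lit 2) (.e (nat_lit 90158) (nat_lit 11) .nil)))))) (.g (nat_lit 6) .nil .nil))) 
(.lf (nat_lit 138408) (.g (nat_lit 3617) (.e (nat_lit 24626) (nat_lit 9) (.e (nat_lit 336454) (nat_lit 34) (.e (nat_lit 483363) (nat_lit 18) (.e (nat_lit 57847) (nat_lit 252) (.e (nat_lit 57375) (nat_lit 2) (.e (nat_lit 90160) (nat_lit 11) .nil)))))) (.g (nat_lit 0) .nil .nil)))) (.nd (nat_lit 5) 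
(.lf (nat_lit 138392) (.g (nat_lit 2765) (.e (nat_lit 24625) (nat_lit 9) (.e (nat_lit 336456) (nat_lit 34) (.e (nat_lit 483365) (nat_lit 18) (.e (nat_lit 57851) (nat_lit 252) (.e (nat_lit 57371) (nat_lit 2) (.e (nat_lit 90158) (nat_lit 11) .nil)))))) (.g (nat_lit 5) .nil .nil))) 
(.lf (nat_lit 138424) (.g (nat_lit 383) (.e (nat_lit 24626) (nat_lit 9) (.e (nat_lit 336454) (nat_lit 34) (.e (nat_lit 483365) (nat_lit 18) .nil))) .nil))))) (.nd (nat_lit 3) (.nd (nat_lit 4) (.nd (nat_lit 5) 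
(.lf (nat_lit 138372) (.g (nat_lit 3433) (.e (nat_lit 24625) (nat_lit 9) (.e (nat_lit 336456) (nat_lit 34) (.e (nat_lit 483363) (nat_lit 18) (.e (nat_lit 57853) (nat_lit 252) (.e (nat_lit 57371) (nat_lit 2) (.e (nat_lit 90158) (nat_lit 11) .nil)))))) (.g (nat_lit 6) .nil .nil))) 
(.lf (nat_lit 138404) (.g (nat_lit 3373) (.e (nat_lit 24626) (nat_lit 9) (.e (nat_lit 336454) (nat_lit 34) (.e (nat_lit 483363) (nat_lit 18) (.e (nat_lit 57847) (nat_lit 252) (.e (nat_lit 57372) (nat_lit 2) (.e (nat_lit 90158) (nat_lit 11) .nil)))))) (.g (nat_lit 6) .nil .nil)))) (.nd (nat_lit 5) 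
(.lf (nat_lit 138388) (.g (nat_lit 3411) (.e (nat_lit 24625) (nat_lit 9) (.e (nat_lit 336456) (nat_lit 34) (.e (nat_lit 483365) (nat_lit 18) (.e (nat_lit 57846) (nat_lit 252) (.e (nat_lit 57372) (nat_lit 2) (.e (nat_lit 90160) (nat_lit 11) .nil)))))) (.g (nat_lit 6) .nil .nil))) 
(.lf (nat_lit 138420) (.g (nat_lit 2944) (.e (nat_lit 24626) (nat_lit 9) (.e (nat_lit 336454) (nat_lit 34) (.e (nat_lit 483364) (nat_lit 18) (.e (nat_lit 57854) (nat_lit 252) (.e (nat_lit 57371) (nat_lit 2) (.e (nat_lit 90158) (nat_lit 11) .nil)))))) (.g (nat_lit 6) .nil .nil))))) (.nd (nat_lit 4) (.nd (nat_lit 5) 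
(.lf (nat_lit 138380) (.g (nat_lit 2032) (.e (nat_lit 24625) (nat_lit 9) (.e (nat_lit 336456) (nat_lit 34) (.e (nat_lit 483364) (nat_lit 18) (.e (nat_lit 57851) (nat_lit 252) (.e (nat_lit 57371) (nat_lit 2) (.e (nat_lit 90158) (nat_lit 11) .nil)))))) (.g (nat_lit 4) .nil .nil))) 
(.lf (nat_lit 138412) (.g (nat_lit 2738) (.e (nat_lit 24626) (nat_lit 9) (.e (nat_lit 336454) (nat_lit 34) (.e (nat_lit 483363) (nat_lit 18) (.e (nat_lit 57853) (nat_lit 252) (.e (nat_lit 57370) (nat_lit 2) .nil))))) .nil))) (.nd (nat_lit 5) 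
(.lf (nat_lit 138396) (.g (nat_lit 801) (.e (nat_lit 24625) (nat_lit 9) (.e (nat_lit 336456) (nat_lit 34) (.e (nat_lit 483366) (nat_lit 18) .nil))) .nil)) 
(.lf (nat_lit 138428) (.g (nat_lit 3396) (.e (nat_lit 24626) (nat_lit 9) (.e (nat_lit 336454) (nat_lit 34) (.e (nat_lit 483365) (nat_lit 18) (.e (nat_lit 57846) (nat_lit 252) (.e (nat_lit 57370) (nat_lit 2) (.e (nat_lit 90158) (nat_lit 11) .nil)))))) (.g (nat_lit 5) .nil .nil))))))) (.nd (nat_lit 2) (.nd (nat_lit 3) (.nd (nat_lit 4) (.nd (nat_lit 5) 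
(.lf (nat_lit 138370) (.g (nat_lit 2363) (.e (nat_lit 24625) (nat_lit 9) (.e (nat_lit 336456) (nat_lit 34) (.e (nat_lit 483363) (nat_lit 18) (.e (nat_lit 57847) (nat_lit 252) (.e (nat_lit 57371) (nat_lit 2) (.e (nat_lit 90158) (nat_lit 11) .nil)))))) (.g (nat_lit 4) .nil .nil))) 
(.lf (nat_lit 138402) (.g (nat_lit 3139) (.e (nat_lit 24626) (nat_lit 9) (.e (nat_lit 336454) (nat_lit 34) (.e (nat_lit 483363) (nat_lit 18) (.e (nat_lit 57847) (nat_lit 252) (.e (nat_lit 57370) (nat_lit 2) (.e (nat_lit 90158) (nat_lit 11) .nil)))))) (.g (nat_lit 6) .nil .nil)))) (.nd (nat_lit 5) 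
(.lf (nat_lit 138386) (.g (nat_lit 2541) (.e (nat_lit 24625) (nat_lit 9) (.e (nat_lit 336456) (nat_lit 34) (.e (nat_lit 483365) (nat_lit 18) (.e (nat_lit 57846) (nat_lit 252) (.e (nat_lit 57371) (nat_lit 2) (.e (nat_lit 90160) (nat_lit 11) .nil)))))) (.g (nat_lit 4) .nil .nil))) 
(.lf (nat_lit 138418) (.g (nat_lit 3138) (.e (nat_lit 24626) (nat_lit 9) (.e (nat_lit 336454) (nat_lit 34) (.e (nat_lit 483364) (nat_lit 18) (.e (nat_lit 57852) (nat_lit 252) (.e (nat_lit 57373) (nat_lit 2) (.e (nat_lit 90158) (nat_lit 11) .nil)))))) (.g (nat_lit 0) .nil .nil))))) (.nd (nat_lit 4) (.nd (nat_lit 5) 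
(.lf (nat_lit 138378) (.g (nat_lit 1094) (.e (nat_lit 24625) (nat_lit 9) (.e (nat_lit 336456) (nat_lit 34) (.e (nat_lit 483364) (nat_lit 18) (.e (nat_lit 57830) (nat_lit 250) .nil)))) .nil)) 
(.lf (nat_lit 138410) (.g (nat_lit 3527) (.e (nat_lit 24626) (nat_lit 9) (.e (nat_lit 336454) (nat_lit 34) (.e (nat_lit 483363) (nat_lit 18) (.e (nat_lit 57849) (nat_lit 252) (.e (nat_lit 57375) (nat_lit 2) (.e (nat_lit 90158) (nat_lit 11) .nil)))))) (.g (nat_lit 6) .nil .nil)))) (.nd (nat_lit 5) 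
(.lf (nat_lit 138394) (.g (nat_lit 3256) (.e (nat_lit 24625) (nat_lit 9) (.e (nat_lit 336456) (nat_lit 34) (.e (nat_lit 483365) (nat_lit 18) (.e (nat_lit 57852) (nat_lit 252) (.e (nat_lit 57373) (nat_lit 2) (.e (nat_lit 90158) (nat_lit 11) .nil)))))) (.g (nat_lit 6) .nil .nil))) 
(.lf (nat_lit 138426) (.g (nat_lit 2768) (.e (nat_lit 24626) (nat_lit 9) (.e (nat_lit 336454) (nat_lit 34) (.e (nat_lit 483365) (nat_lit 18) (.e (nat_lit 57844) (nat_lit 252) .nil)))) .nil))))) (.nd (nat_lit 3) (.nd (nat_lit 4) (.nd (nat_lit 5) 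
(.lf (nat_lit 138374) (.g (nat_lit 3344) (.e (nat_lit 24625) (nat_lit 9) (.e (nat_lit 336456) (nat_lit 34) (.e (nat_lit 483363) (nat_lit 18) (.e (nat_lit 57854) (nat_lit 252) (.e (nat_lit 57371) (nat_lit 2) (.e (nat_lit 90158) (nat_lit 11) .nil)))))) (.g (nat_lit 6) .nil .nil))) 
(.lf (nat_lit 138406) (.g (nat_lit 3465) (.e (nat_lit 24626) (nat_lit 9) (.e (nat_lit 336454) (nat_lit 34) (.e (nat_lit 483363) (nat_lit 18) (.e (nat_lit 57847) (nat_lit 252) (.e (nat_lit 57373) (nat_lit 2) (.e (nat_lit 90158) (nat_lit 11) .nil)))))) (.g (nat_lit 6) .nil .nil)))) (.nd (nat_lit 5) 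
(.lf (nat_lit 138390) (.g (nat_lit 2881) (.e (nat_lit 24625) (nat_lit 9) (.e (nat_lit 336456) (nat_lit 34) (.e (nat_lit 483365) (nat_lit 18) (.e (nat_lit 57848) (nat_lit 252) (.e (nat_lit 57372) (nat_lit 2) (.e (nat_lit 90156) (nat_lit 11) .nil)))))) (.g (nat_lit 5) .nil .nil))) 
(.lf (nat_lit 138422) (.g (nat_lit 3382) (.e (nat_lit 24626) (nat_lit 9) (.e (nat_lit 336454) (nat_lit 34) (.e (nat_lit 483364) (nat_lit 18) (.e (nat_lit 57854) (nat_lit 252) (.e (nat_lit 57373) (nat_lit 2) (.e (nat_lit 90158) (nat_lit 11) .nil)))))) (.g (nat_lit 0) .nil .nil))))) (.nd (nat_lit 4) (.nd (nat_lit 5) 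
(.lf (nat_lit 138382) (.g (nat_lit 3122) (.e (nat_lit 24625) (nat_lit 9) (.e (nat_lit 336456) (nat_lit 34) (.e (nat_lit 483364) (nat_lit 18) (.e (nat_lit 57853) (nat_lit 252) (.e (nat_lit 57371) (nat_lit 2) (.e (nat_lit 90158) (nat_lit 11) .nil)))))) (.g (nat_lit 5) .nil .nil))) 
(.lf (nat_lit 138414) (.g (nat_lit 2542) (.e (nat_lit 24626) (nat_lit 9) (.e (nat_lit 336454) (nat_lit 34) (.e (nat_lit 483363) (nat_lit 18) (.e (nat_lit 57854) (nat_lit 252) (.e (nat_lit 57370) (nat_lit 2) (.e (nat_lit 90158) (nat_lit 11) .nil)))))) (.g (nat_lit 4) .nil .nil)))) (.nd (nat_lit 5) 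
(.lf (nat_lit 138398) (.g (nat_lit 1464) (.e (nat_lit 24626) (nat_lit 9) (.e (nat_lit 336369) (nat_lit 27) (.e (nat_lit 426173) (nat_lit 7) (.e (nat_lit 409617) (nat_lit 10) .nil)))) .nil)) 
(.lf (nat_lit 138430) (.g (nat_lit 2974) (.e (nat_lit 24626) (nat_lit 9) (.e (nat_lit 336454) (nat_lit 34) (.e (nat_lit 483365) (nat_lit 18) (.e (nat_lit 57846) (nat_lit 252) (.e (nat_lit 57371) (nat_lit 2) (.e (nat_lit 90160) (nat_lit 11) .nil)))))) (.g (nat_lit 4) .nil .nil)))))))) (.nd (nat_lit 1) (.nd (nat_lit 2) (.nd (nat_lit 3) (.nd (nat_lit 4) (.nd (nat_lit 5) 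
(.lf (nat_lit 138369) (.g (nat_lit 1372) (.e (nat_lit 24625) (nat_lit 9) (.e (nat_lit 336456) (nat_lit 34) (.e (nat_lit 483363) (nat_lit 18) (.e (nat_lit 57845) (nat_lit 252) .nil)))) .nil)) 
(.lf (nat_lit 138401) (.g (nat_lit 2062) (.e (nat_lit 24626) (nat_lit 9) (.e (nat_lit 336454) (nat_lit 34) (.e (nat_lit 483363) (nat_lit 18) (.e (nat_lit 57845) (nat_lit 252) .nil)))) .nil))) (.nd (nat_lit 5) 
(.lf (nat_lit 138385) (.g (nat_lit 3219) (.e (nat_lit 24625) (nat_lit 9) (.e (nat_lit 336456) (nat_lit 34) (.e (nat_lit 483365) (nat_lit 18) (.e (nat_lit 57846) (nat_lit 252) (.e (nat_lit 57371) (nat_lit 2) (.e (nat_lit 90158) (nat_lit 11) .nil)))))) (.g (nat_lit 5) .nil .nil))) 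
(.lf (nat_lit 138417) (.g (nat_lit 2862) (.e (nat_lit 24626) (nat_lit 9) (.e (nat_lit 336454) (nat_lit 34) (.e (nat_lit 483364) (nat_lit 18) (.e (nat_lit 57852) (nat_lit 252) (.e (nat_lit 57371) (nat_lit 2) (.e (nat_lit 90158) (nat_lit 11) .nil)))))) (.g (nat_lit 6) .nil .nil))))) (.nd (nat_lit 4) (.nd (nat_lit 5) 
(.lf (nat_lit 138377) (.g (nat_lit 3859) (.e (nat_lit 24625) (nat_lit 9) (.e (nat_lit 336456) (nat_lit 34) (.e (nat_lit 483363) (nat_lit 18) (.e (nat_lit 57854) (nat_lit 252) (.e (nat_lit 57373) (nat_lit 2) (.e (nat_lit 90160) (nat_lit 11) .nil)))))) (.g (nat_lit 6) .nil .nil))) 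
(.lf (nat_lit 138409) (.g (nat_lit 3541) (.e (nat_lit 24626) (nat_lit 9) (.e (nat_lit 336454) (nat_lit 34) (.e (nat_lit 483363) (nat_lit 18) (.e (nat_lit 57849) (nat_lit 252) (.e (nat_lit 57372) (nat_lit 2) (.e (nat_lit 90158) (nat_lit 11) .nil)))))) (.g (nat_lit 6) .nil .nil)))) (.nd (nat_lit 5) 
(.lf (nat_lit 138393) (.g (nat_lit 3068) (.e (nat_lit 24625) (nat_lit 9) (.e (nat_lit 336456) (nat_lit 34) (.e (nat_lit 483365) (nat_lit 18) (.e (nat_lit 57852) (nat_lit 252) (.e (nat_lit 57371) (nat_lit 2) (.e (nat_lit 90158) (nat_lit 11) .nil)))))) (.g (nat_lit 6) .nil .nil))) 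
(.lf (nat_lit 138425) (.g (nat_lit 2041) (.e (nat_lit 24626) (nat_lit 9) (.e (nat_lit 336454) (nat_lit 34) (.e (nat_lit 483365) (nat_lit 18) (.e (nat_lit 57830) (nat_lit 250) .nil)))) .nil))))) (.nd (nat_lit 3) (.nd (nat_lit 4) (.nd (nat_lit 5) 
(.lf (nat_lit 138373) (.g (nat_lit 2158) (.e (nat_lit 24625) (nat_lit 9) (.e (nat_lit 336456) (nat_lit 34) (.e (nat_lit 483363) (nat_lit 18) (.e (nat_lit 57854) (nat_lit 252) (.e (nat_lit 57371) (nat_lit 2) (.e (nat_lit 90156) (nat_lit 11) .nil)))))) (.g (nat_lit 4) .nil .nil))) 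
(.lf (nat_lit 138405) (.g (nat_lit 3469) (.e (nat_lit 24626) (nat_lit 9) (.e (nat_lit 336454) (nat_lit 34) (.e (nat_lit 483363) (nat_lit 18) (.e (nat_lit 57847) (nat_lit 252) (.e (nat_lit 57372) (nat_lit 2) (.e (nat_lit 90160) (nat_lit 11) .nil)))))) (.g (nat_lit 0) .nil .nil)))) (.nd (nat_lit 5) 
(.lf (nat_lit 138389) (.g (nat_lit 2392) (.e (nat_lit 24625) (nat_lit 9) (.e (nat_lit 336456) (nat_lit 34) (.e (nat_lit 483365) (nat_lit 18) (.e (nat_lit 57846) (nat_lit 252) (.e (nat_lit 57375) (nat_lit 2) (.e (nat_lit 90158) (nat_lit 11) .nil)))))) (.g (nat_lit 4) .nil .nil))) 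
(.lf (nat_lit 138421) (.g (nat_lit 3079) (.e (nat_lit 24626) (nat_lit 9) (.e (nat_lit 336454) (nat_lit 34) (.e (nat_lit 483364) (nat_lit 18) (.e (nat_lit 57854) (nat_lit 252) (.e (nat_lit 57371) (nat_lit 2) (.e (nat_lit 90160) (nat_lit 11) .nil)))))) (.g (nat_lit 0) .nil .nil))))) (.nd (nat_lit 4) (.nd (nat_lit 5) 
(.lf (nat_lit 138381) (.g (nat_lit 2882) (.e (nat_lit 24625) (nat_lit 9) (.e (nat_lit 336456) (nat_lit 34) (.e (nat_lit 483364) (nat_lit 18) (.e (nat_lit 57853) (nat_lit 252) (.e (nat_lit 57370) (nat_lit 2) (.e (nat_lit 90158) (nat_lit 11) .nil)))))) (.g (nat_lit 5) .nil .nil))) 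
(.lf (nat_lit 138413) (.g (nat_lit 2988) (.e (nat_lit 24626) (nat_lit 9) (.e (nat_lit 336454) (nat_lit 34) (.e (nat_lit 483363) (nat_lit 18) (.e (nat_lit 57853) (nat_lit 252) (.e (nat_lit 57371) (nat_lit 2) (.e (nat_lit 90158) (nat_lit 11) .nil)))))) (.g (nat_lit 4) .nil .nil)))) (.nd (nat_lit 5) 
(.lf (nat_lit 138397) (.g (nat_lit 4176) (.e (nat_lit 24626) (nat_lit 9) (.e (nat_lit 336324) (nat_lit 18) (.e (nat_lit 204831) (nat_lit 18) (.e (nat_lit 57846) (nat_lit 252) .nil)))) .nil)) 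
(.lf (nat_lit 138429) (.g (nat_lit 3203) (.e (nat_lit 24626) (nat_lit 9) (.e (nat_lit 336454) (nat_lit 34) (.e (nat_lit 483365) (nat_lit 18) (.e (nat_lit 57846) (nat_lit 252) (.e (nat_lit 57371) (nat_lit 2) (.e (nat_lit 90158) (nat_lit 11) .nil)))))) (.g (nat_lit 4) .nil .nil))))))) (.nd (nat_lit 2) (.nd (nat_lit 3) (.nd (nat_lit 4) (.nd (nat_lit 5) 
(.lf (nat_lit 138371) (.g (nat_lit 1034) (.e (nat_lit 24625) (nat_lit 9) (.e (nat_lit 336456) (nat_lit 34) (.e (nat_lit 483363) (nat_lit 18) (.e (nat_lit 57849) (nat_lit 252) .nil)))) .nil)) 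
(.lf (nat_lit 138403) (.g (nat_lit 2256) (.e (nat_lit 24626) (nat_lit 9) (.e (nat_lit 336454) (nat_lit 34) (.e (nat_lit 483363) (nat_lit 18) (.e (nat_lit 57847) (nat_lit 252) (.e (nat_lit 57371) (nat_lit 2) .nil))))) .nil))) (.nd (nat_lit 5) 
(.lf (nat_lit 138387) (.g (nat_lit 3287) (.e (nat_lit 24625) (nat_lit 9) (.e (nat_lit 336456) (nat_lit 34) (.e (nat_lit 483365) (nat_lit 18) (.e (nat_lit 57846) (nat_lit 252) (.e (nat_lit 57372) (nat_lit 2) (.e (nat_lit 90158) (nat_lit 11) .nil)))))) (.g (nat_lit 6) .nil .nil))) 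
(.lf (nat_lit 138419) (.g (nat_lit 2508) (.e (nat_lit 24626) (nat_lit 9) (.e (nat_lit 336454) (nat_lit 34) (.e (nat_lit 483364) (nat_lit 18) (.e (nat_lit 57854) (nat_lit 252) (.e (nat_lit 57370) (nat_lit 2) (.e (nat_lit 90158) (nat_lit 11) .nil)))))) (.g (nat_lit 6) .nil .nil))))) (.nd (nat_lit 4) (.nd (nat_lit 5) 
(.lf (nat_lit 138379) (.g (nat_lit 2127) (.e (nat_lit 24625) (nat_lit 9) (.e (nat_lit 336456) (nat_lit 34) (.e (nat_lit 483364) (nat_lit 18) (.e (nat_lit 57851) (nat_lit 252) (.e (nat_lit 57371) (nat_lit 2) (.e (nat_lit 90156) (nat_lit 11) .nil)))))) (.g (nat_lit 4) .nil .nil))) 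
(.lf (nat_lit 138411) (.g (nat_lit 1944) (.e (nat_lit 24626) (nat_lit 9) (.e (nat_lit 336454) (nat_lit 34) (.e (nat_lit 483363) (nat_lit 18) (.e (nat_lit 57853) (nat_lit 252) .nil)))) .nil))) (.nd (nat_lit 5) 
(.lf (nat_lit 138395) (.g (nat_lit 2246) (.e (nat_lit 24625) (nat_lit 9) (.e (nat_lit 336456) (nat_lit 34) (.e (nat_lit 483365) (nat_lit 18) (.e (nat_lit 57854) (nat_lit 252) (.e (nat_lit 57371) (nat_lit 2) (.e (nat_lit 90156) (nat_lit 11) .nil)))))) (.g (nat_lit 4) .nil .nil))) 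
(.lf (nat_lit 138427) (.g (nat_lit 1781) (.e (nat_lit 24626) (nat_lit 9) (.e (nat_lit 336454) (nat_lit 34) (.e (nat_lit 483365) (nat_lit 18) (.e (nat_lit 57846) (nat_lit 252) .nil)))) .nil))))) (.nd (nat_lit 3) (.nd (nat_lit 4) (.nd (nat_lit 5) 
(.lf (nat_lit 138375) (.g (nat_lit 3354) (.e (nat_lit 24625) (nat_lit 9) (.e (nat_lit 336456) (nat_lit 34) (.e (nat_lit 483363) (nat_lit 18) (.e (nat_lit 57854) (nat_lit 252) (.e (nat_lit 57371) (nat_lit 2) (.e (nat_lit 90160) (nat_lit 11) .nil)))))) (.g (nat_lit 6) .nil .nil))) 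
(.lf (nat_lit 138407) (.g (nat_lit 3149) (.e (nat_lit 24626) (nat_lit 9) (.e (nat_lit 336454) (nat_lit 34) (.e (nat_lit 483363) (nat_lit 18) (.e (nat_lit 57847) (nat_lit 252) (.e (nat_lit 57375) (nat_lit 2) (.e (nat_lit 90158) (nat_lit 11) .nil)))))) (.g (nat_lit 6) .nil .nil)))) (.nd (nat_lit 5) 
(.lf (nat_lit 138391) (.g (nat_lit 2484) (.e (nat_lit 24625) (nat_lit 9) (.e (nat_lit 336456) (nat_lit 34) (.e (nat_lit 483365) (nat_lit 18) (.e (nat_lit 57851) (nat_lit 252) (.e (nat_lit 57370) (nat_lit 2) (.e (nat_lit 90158) (nat_lit 11) .nil)))))) (.g (nat_lit 5) .nil .nil))) 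
(.lf (nat_lit 138423) (.g (nat_lit 3401) (.e (nat_lit 24626) (nat_lit 9) (.e (nat_lit 336454) (nat_lit 34) (.e (nat_lit 483364) (nat_lit 18) (.e (nat_lit 57854) (nat_lit 252) (.e (nat_lit 57373) (nat_lit 2) (.e (nat_lit 90160) (nat_lit 11) .nil)))))) (.g (nat_lit 0) .nil .nil))))) (.nd (nat_lit 4) (.nd (nat_lit 5) 
(.lf (nat_lit 138383) (.g (nat_lit 2227) (.e (nat_lit 24625) (nat_lit 9) (.e (nat_lit 336456) (nat_lit 34) (.e (nat_lit 483364) (nat_lit 18) (.e (nat_lit 57854) (nat_lit 252) (.e (nat_lit 57371) (nat_lit 2) (.e (nat_lit 90156) (nat_lit 11) .nil)))))) (.g (nat_lit 4) .nil .nil))) 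
(.lf (nat_lit 138415) (.g (nat_lit 2963) (.e (nat_lit 24626) (nat_lit 9) (.e (nat_lit 336454) (nat_lit 34) (.e (nat_lit 483363) (nat_lit 18) (.e (nat_lit 57854) (nat_lit 252) (.e (nat_lit 57371) (nat_lit 2) (.e (nat_lit 90158) (nat_lit 11) .nil)))))) (.g (nat_lit 5) .nil .nil)))) (.nd (nat_lit 5) 
(.lf (nat_lit 138399) (.g (nat_lit 1061) (.e (nat_lit 24626) (nat_lit 9) (.e (nat_lit 336443) (nat_lit 32) (.e (nat_lit 466968) (nat_lit 21) .nil))) .nil)) 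
(.lf (nat_lit 138431) (.g (nat_lit 3854) (.e (nat_lit 24626) (nat_lit 9) (.e (nat_lit 336454) (nat_lit 34) (.e (nat_lit 483365) (nat_lit 18) (.e (nat_lit 57846) (nat_lit 252) (.e (nat_lit 57372) (nat_lit 2) (.e (nat_lit 90160) (nat_lit 11) .nil)))))) (.g (nat_lit 6) .nil .nil)))))))))

noncomputable def tv1839 : DT := (.nd (nat_lit 0) (.nd (nat_lit 1) (.nd (nat_lit 2) (.nd (nat_lit 3) (.nd (nat_lit 4) (.nd (nat_lit 5) 
(.lf (nat_lit 138432) (.g (nat_lit 3714) (.e (nat_lit 24626) (nat_lit 9) (.e (nat_lit 336454) (nat_lit 34) (.e (nat_lit 483365) (nat_lit 18) (.e (nat_lit 57846) (nat_lit 252) (.e (nat_lit 57373) (nat_lit 2) (.e (nat_lit 90158) (nat_lit 11) .nil)))))) (.g (nat_lit 5) .nil .nil))) 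
(.lf (nat_lit 138464) (.g (nat_lit 2441) (.e (nat_lit 24627) (nat_lit 9) (.e (nat_lit 336019) (nat_lit 3) (.e (nat_lit 98389) (nat_lit 33) (.e (nat_lit 491558) (nat_lit 10) (.e (nat_lit 344133) (nat_lit 26) (.e (nat_lit 557085) (nat_lit 11) .nil)))))) (.g (nat_lit 4) .nil .nil)))) (.nd (nat_lit 5) 
(.lf (nat_lit 138448) (.g (nat_lit 1907) (.e (nat_lit 24626) (nat_lit 9) (.e (nat_lit 336454) (nat_lit 34) (.e (nat_lit 483365) (nat_lit 18) (.e (nat_lit 57852) (nat_lit 252) (.e (nat_lit 57371) (nat_lit 2) .nil))))) .nil)) 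
(.lf (nat_lit 138480) (.g (nat_lit 2009) (.e (nat_lit 24627) (nat_lit 9) (.e (nat_lit 336416) (nat_lit 27) (.e (nat_lit 426500) (nat_lit 27) (.e (nat_lit 335995) (nat_lit 1) (.e (nat_lit 57848) (nat_lit 252) (.e (nat_lit 57372) (nat_lit 2) (.e (nat_lit 90159) (nat_lit 11) .nil))))))) (.g (nat_lit 5) .nil .nil))))) (.nd (nat_lit 4) (.nd (nat_lit 5) 
(.lf (nat_lit 138440) (.g (nat_lit 3391) (.e (nat_lit 24626) (nat_lit 9) (.e (nat_lit 336454) (nat_lit 34) (.e (nat_lit 483365) (nat_lit 18) (.e (nat_lit 57847) (nat_lit 252) (.e (nat_lit 57375) (nat_lit 2) (.e (nat_lit 90158) (nat_lit 11) .nil)))))) (.g (nat_lit 6) .nil .nil))) 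
(.lf (nat_lit 138472) (.g (nat_lit 2348) (.e (nat_lit 24627) (nat_lit 9) (.e (nat_lit 336366) (nat_lit 27) (.e (nat_lit 426501) (nat_lit 27) (.e (nat_lit 335995) (nat_lit 1) (.e (nat_lit 57848) (nat_lit 252) (.e (nat_lit 57375) (nat_lit 2) (.e (nat_lit 90159) (nat_lit 11) .nil))))))) (.g (nat_lit 5) .nil .nil)))) (.nd (nat_lit 5) 
(.lf (nat_lit 138456) (.g (nat_lit 4206) (.e (nat_lit 24626) (nat_lit 9) (.e (nat_lit 336454) (nat_lit 34) (.e (nat_lit 483365) (nat_lit 18) (.e (nat_lit 57854) (nat_lit 252) (.e (nat_lit 57373) (nat_lit 2) (.e (nat_lit 90158) (nat_lit 11) .nil)))))) (.g (nat_lit 0) .nil .nil))) 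
(.lf (nat_lit 138488) (.g (nat_lit 3641) (.e (nat_lit 24627) (nat_lit 9) (.e (nat_lit 336454) (nat_lit 34) (.e (nat_lit 483363) (nat_lit 18) (.e (nat_lit 57847) (nat_lit 252) (.e (nat_lit 57372) (nat_lit 2) (.e (nat_lit 90158) (nat_lit 11) .nil)))))) (.g (nat_lit 0) .nil .nil)))))) (.nd (nat_lit 3) (.nd (nat_lit 4) (.nd (nat_lit 5) 
(.lf (nat_lit 138436) (.g (nat_lit 3370) (.e (nat_lit 24626) (nat_lit 9) (.e (nat_lit 336454) (nat_lit 34) (.e (nat_lit 483365) (nat_lit 18) (.e (nat_lit 57847) (nat_lit 252) (.e (nat_lit 57370) (nat_lit 2) (.e (nat_lit 90158) (nat_lit 11) .nil)))))) (.g (nat_lit 6) .nil .nil))) 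
(.lf (nat_lit 138468) (.g (nat_lit 3263) (.e (nat_lit 24627) (nat_lit 9) (.e (nat_lit 336019) (nat_lit 3) (.e (nat_lit 98389) (nat_lit 33) (.e (nat_lit 491560) (nat_lit 10) (.e (nat_lit 344133) (nat_lit 26) (.e (nat_lit 557086) (nat_lit 11) .nil)))))) (.g (nat_lit 5) .nil .nil)))) (.nd (nat_lit 5) 
(.lf (nat_lit 138452) (.g (nat_lit 3630) (.e (nat_lit 24626) (nat_lit 9) (.e (nat_lit 336454) (nat_lit 34) (.e (nat_lit 483365) (nat_lit 18) (.e (nat_lit 57853) (nat_lit 252) (.e (nat_lit 57371) (nat_lit 2) (.e (nat_lit 90158) (nat_lit 11) .nil)))))) (.g (nat_lit 6) .nil .nil))) 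
(.lf (nat_lit 138484) (.g (nat_lit 2372) (.e (nat_lit 24627) (nat_lit 9) (.e (nat_lit 336454) (nat_lit 34) (.e (nat_lit 483363) (nat_lit 18) (.e (nat_lit 57847) (nat_lit 252) (.e (nat_lit 57370) (nat_lit 2) (.e (nat_lit 90157) (nat_lit 11) .nil)))))) (.g (nat_lit 4) .nil .nil))))) (.nd (nat_lit 4) (.nd (nat_lit 5) 
(.lf (nat_lit 138444) (.g (nat_lit 3946) (.e (nat_lit 24626) (nat_lit 9) (.e (nat_lit 336454) (nat_lit 34) (.e (nat_lit 483365) (nat_lit 18) (.e (nat_lit 57849) (nat_lit 252) (.e (nat_lit 57372) (nat_lit 2) (.e (nat_lit 90160) (nat_lit 11) .nil)))))) (.g (nat_lit 0) .nil .nil))) 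
(.lf (nat_lit 138476) (.g (nat_lit 1669) (.e (nat_lit 24627) (nat_lit 9) (.e (nat_lit 336369) (nat_lit 27) (.e (nat_lit 426173) (nat_lit 7) (.e (nat_lit 409617) (nat_lit 10) (.e (nat_lit 4926) (nat_lit 287) .nil))))) .nil))) (.nd (nat_lit 5) 
(.lf (nat_lit 138460) (.g (nat_lit 627) (.e (nat_lit 24627) (nat_lit 9) (.e (nat_lit 336019) (nat_lit 3) (.e (nat_lit 98319) (nat_lit 17) .nil))) .nil)) 
(.lf (nat_lit 138492) (.g (nat_lit 3298) (.e (nat_lit 24627) (nat_lit 9) (.e (nat_lit 336454) (nat_lit 34) (.e (nat_lit 483363) (nat_lit 18) (.e (nat_lit 57849) (nat_lit 252) (.e (nat_lit 57372) (nat_lit 2) (.e (nat_lit 90160) (nat_lit 11) .nil)))))) (.g (nat_lit 5) .nil .nil))))))) (.nd (nat_lit 2) (.nd (nat_lit 3) (.nd (nat_lit 4) (.nd (nat_lit 5) 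
(.lf (nat_lit 138434) (.g (nat_lit 3081) (.e (nat_lit 24626) (nat_lit 9) (.e (nat_lit 336454) (nat_lit 34) (.e (nat_lit 483365) (nat_lit 18) (.e (nat_lit 57846) (nat_lit 252) (.e (nat_lit 57375) (nat_lit 2) (.e (nat_lit 90160) (nat_lit 11) .nil)))))) (.g (nat_lit 4) .nil .nil))) 
(.lf (nat_lit 138466) (.g (nat_lit 1692) (.e (nat_lit 24627) (nat_lit 9) (.e (nat_lit 336019) (nat_lit 3) (.e (nat_lit 98389) (nat_lit 33) (.e (nat_lit 491560) (nat_lit 10) (.e (nat_lit 344130) (nat_lit 26) (.e (nat_lit 557086) (nat_lit 11) .nil)))))) (.g (nat_lit 4) .nil .nil)))) (.nd (nat_lit 5) 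
(.lf (nat_lit 138450) (.g (nat_lit 2331) (.e (nat_lit 24626) (nat_lit 9) (.e (nat_lit 336454) (nat_lit 34) (.e (nat_lit 483365) (nat_lit 18) (.e (nat_lit 57852) (nat_lit 252) (.e (nat_lit 57373) (nat_lit 2) (.e (nat_lit 90157) (nat_lit 11) .nil)))))) (.g (nat_lit 4) .nil .nil))) 
(.lf (nat_lit 138482) (.g (nat_lit 1837) (.e (nat_lit 24627) (nat_lit 9) (.e (nat_lit 336454) (nat_lit 34) (.e (nat_lit 483363) (nat_lit 18) (.e (nat_lit 57845) (nat_lit 252) .nil)))) .nil)))) (.nd (nat_lit 4) (.nd (nat_lit 5) 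
(.lf (nat_lit 138442) (.g (nat_lit 2140) (.e (nat_lit 24626) (nat_lit 9) (.e (nat_lit 336454) (nat_lit 34) (.e (nat_lit 483365) (nat_lit 18) (.e (nat_lit 57849) (nat_lit 252) (.e (nat_lit 57372) (nat_lit 2) (.e (nat_lit 90156) (nat_lit 11) .nil)))))) (.g (nat_lit 4) .nil .nil))) 
(.lf (nat_lit 138474) (.g (nat_lit 2293) (.e (nat_lit 24627) (nat_lit 9) (.e (nat_lit 336368) (nat_lit 27) (.e (nat_lit 426501) (nat_lit 27) (.e (nat_lit 335995) (nat_lit 1) (.e (nat_lit 57848) (nat_lit 252) (.e (nat_lit 57375) (nat_lit 2) (.e (nat_lit 90159) (nat_lit 11) .nil))))))) (.g (nat_lit 5) .nil .nil)))) (.nd (nat_lit 5) 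
(.lf (nat_lit 138458) (.g (nat_lit 469) (.e (nat_lit 24626) (nat_lit 9) (.e (nat_lit 336454) (nat_lit 34) (.e (nat_lit 483366) (nat_lit 18) .nil))) .nil)) 
(.lf (nat_lit 138490) (.g (nat_lit 3495) (.e (nat_lit 24627) (nat_lit 9) (.e (nat_lit 336454) (nat_lit 34) (.e (nat_lit 483363) (nat_lit 18) (.e (nat_lit 57847) (nat_lit 252) (.e (nat_lit 57375) (nat_lit 2) (.e (nat_lit 90158) (nat_lit 11) .nil)))))) (.g (nat_lit 0) .nil .nil)))))) (.nd (nat_lit 3) (.nd (nat_lit 4) (.nd (nat_lit 5) 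
(.lf (nat_lit 138438) (.g (nat_lit 3692) (.e (nat_lit 24626) (nat_lit 9) (.e (nat_lit 336454) (nat_lit 34) (.e (nat_lit 483365) (nat_lit 18) (.e (nat_lit 57847) (nat_lit 252) (.e (nat_lit 57372) (nat_lit 2) (.e (nat_lit 90160) (nat_lit 11) .nil)))))) (.g (nat_lit 0) .nil .nil))) 
(.lf (nat_lit 138470) (.g (nat_lit 1163) (.e (nat_lit 24627) (nat_lit 9) (.e (nat_lit 336318) (nat_lit 17) (.e (nat_lit 196686) (nat_lit 18) (.e (nat_lit 1385) (nat_lit 105) (.e (nat_lit 311339) (nat_lit 12) (.e (nat_lit 483072) (nat_lit 2) .nil)))))) (.g (nat_lit 5) .nil .nil)))) (.nd (nat_lit 5) 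
(.lf (nat_lit 138454) (.g (nat_lit 2833) (.e (nat_lit 24626) (nat_lit 9) (.e (nat_lit 336454) (nat_lit 34) (.e (nat_lit 483365) (nat_lit 18) (.e (nat_lit 57854) (nat_lit 252) (.e (nat_lit 57371) (nat_lit 2) (.e (nat_lit 90156) (nat_lit 11) .nil)))))) (.g (nat_lit 5) .nil .nil))) 
(.lf (nat_lit 138486) (.g (nat_lit 2737) (.e (nat_lit 24627) (nat_lit 9) (.e (nat_lit 336454) (nat_lit 34) (.e (nat_lit 483363) (nat_lit 18) (.e (nat_lit 57847) (nat_lit 252) (.e (nat_lit 57371) (nat_lit 2) (.e (nat_lit 90158) (nat_lit 11) .nil)))))) (.g (nat_lit 4) .nil .nil))))) (.nd (nat_lit 4) (.nd (nat_lit 5) 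
(.lf (nat_lit 138446) (.g (nat_lit 3964) (.e (nat_lit 24626) (nat_lit 9) (.e (nat_lit 336454) (nat_lit 34) (.e (nat_lit 483365) (nat_lit 18) (.e (nat_lit 57849) (nat_lit 252) (.e (nat_lit 57375) (nat_lit 2) (.e (nat_lit 90158) (nat_lit 11) .nil)))))) (.g (nat_lit 6) .nil .nil))) 
(.lf (nat_lit 138478) (.g (nat_lit 1397) (.e (nat_lit 24627) (nat_lit 9) (.e (nat_lit 336391) (nat_lit 27) (.e (nat_lit 426500) (nat_lit 27) (.e (nat_lit 335995) (nat_lit 1) (.e (nat_lit 57848) (nat_lit 252) (.e (nat_lit 57372) (nat_lit 2) (.e (nat_lit 90159) (nat_lit 11) .nil))))))) (.g (nat_lit 4) .nil .nil)))) (.nd (nat_lit 5) 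
(.lf (nat_lit 138462) (.g (nat_lit 2185) (.e (nat_lit 24627) (nat_lit 9) (.e (nat_lit 336019) (nat_lit 3) (.e (nat_lit 98388) (nat_lit 33) (.e (nat_lit 491560) (nat_lit 10) (.e (nat_lit 344131) (nat_lit 26) .nil))))) .nil)) 
(.lf (nat_lit 138494) (.g (nat_lit 4144) (.e (nat_lit 24627) (nat_lit 9) (.e (nat_lit 336454) (nat_lit 34) (.e (nat_lit 483363) (nat_lit 18) (.e (nat_lit 57849) (nat_lit 252) (.e (nat_lit 57375) (nat_lit 2) (.e (nat_lit 90160) (nat_lit 11) .nil)))))) (.g (nat_lit 0) .nil .nil)))))))) (.nd (nat_lit 1) (.nd (nat_lit 2) (.nd (nat_lit 3) (.nd (nat_lit 4) (.nd (nat_lit 5) 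
(.lf (nat_lit 138433) (.g (nat_lit 2765) (.e (nat_lit 24626) (nat_lit 9) (.e (nat_lit 336454) (nat_lit 34) (.e (nat_lit 483365) (nat_lit 18) (.e (nat_lit 57846) (nat_lit 252) (.e (nat_lit 57375) (nat_lit 2) .nil))))) .nil)) 
(.lf (nat_lit 138465) (.g (nat_lit 3169) (.e (nat_lit 24627) (nat_lit 9) (.e (nat_lit 336019) (nat_lit 3) (.e (nat_lit 98389) (nat_lit 33) (.e (nat_lit 491558) (nat_lit 10) (.e (nat_lit 344133) (nat_lit 26) (.e (nat_lit 557086) (nat_lit 11) .nil)))))) (.g (nat_lit 5) .nil .nil)))) (.nd (nat_lit 5) 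
(.lf (nat_lit 138449) (.g (nat_lit 3424) (.e (nat_lit 24626) (nat_lit 9) (.e (nat_lit 336454) (nat_lit 34) (.e (nat_lit 483365) (nat_lit 18) (.e (nat_lit 57852) (nat_lit 252) (.e (nat_lit 57371) (nat_lit 2) (.e (nat_lit 90158) (nat_lit 11) .nil)))))) (.g (nat_lit 6) .nil .nil))) 
(.lf (nat_lit 138481) (.g (nat_lit 1893) (.e (nat_lit 24627) (nat_lit 9) (.e (nat_lit 336416) (nat_lit 27) (.e (nat_lit 426500) (nat_lit 27) (.e (nat_lit 335995) (nat_lit 1) (.e (nat_lit 57848) (nat_lit 252) (.e (nat_lit 57375) (nat_lit 2) (.e (nat_lit 90159) (nat_lit 11) .nil))))))) (.g (nat_lit 5) .nil .nil))))) (.nd (nat_lit 4) (.nd (nat_lit 5) 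
(.lf (nat_lit 138441) (.g (nat_lit 3391) (.e (nat_lit 24626) (nat_lit 9) (.e (nat_lit 336454) (nat_lit 34) (.e (nat_lit 483365) (nat_lit 18) (.e (nat_lit 57849) (nat_lit 252) (.e (nat_lit 57370) (nat_lit 2) (.e (nat_lit 90158) (nat_lit 11) .nil)))))) (.g (nat_lit 6) .nil .nil))) 
(.lf (nat_lit 138473) (.g (nat_lit 2409) (.e (nat_lit 24627) (nat_lit 9) (.e (nat_lit 336368) (nat_lit 27) (.e (nat_lit 426501) (nat_lit 27) (.e (nat_lit 335995) (nat_lit 1) (.e (nat_lit 57848) (nat_lit 252) (.e (nat_lit 57372) (nat_lit 2) (.e (nat_lit 90159) (nat_lit 11) .nil))))))) (.g (nat_lit 5) .nil .nil)))) (.nd (nat_lit 5) 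
(.lf (nat_lit 138457) (.g (nat_lit 4203) (.e (nat_lit 24626) (nat_lit 9) (.e (nat_lit 336454) (nat_lit 34) (.e (nat_lit 483365) (nat_lit 18) (.e (nat_lit 57854) (nat_lit 252) (.e (nat_lit 57373) (nat_lit 2) (.e (nat_lit 90160) (nat_lit 11) .nil)))))) (.g (nat_lit 0) .nil .nil))) 
(.lf (nat_lit 138489) (.g (nat_lit 3180) (.e (nat_lit 24627) (nat_lit 9) (.e (nat_lit 336454) (nat_lit 34) (.e (nat_lit 483363) (nat_lit 18) (.e (nat_lit 57847) (nat_lit 252) (.e (nat_lit 57373) (nat_lit 2) (.e (nat_lit 90157) (nat_lit 11) .nil)))))) (.g (nat_lit 5) .nil .nil)))))) (.nd (nat_lit 3) (.nd (nat_lit 4) (.nd (nat_lit 5) 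
(.lf (nat_lit 138437) (.g (nat_lit 3596) (.e (nat_lit 24626) (nat_lit 9) (.e (nat_lit 336454) (nat_lit 34) (.e (nat_lit 483365) (nat_lit 18) (.e (nat_lit 57847) (nat_lit 252) (.e (nat_lit 57372) (nat_lit 2) (.e (nat_lit 90158) (nat_lit 11) .nil)))))) (.g (nat_lit 6) .nil .nil))) 
(.lf (nat_lit 138469) (.g (nat_lit 1009) (.e (nat_lit 24627) (nat_lit 9) (.e (nat_lit 336318) (nat_lit 17) (.e (nat_lit 196686) (nat_lit 18) (.e (nat_lit 1385) (nat_lit 105) (.e (nat_lit 311338) (nat_lit 12) (.e (nat_lit 483072) (nat_lit 2) .nil)))))) (.g (nat_lit 4) .nil .nil)))) (.nd (nat_lit 5) 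
(.lf (nat_lit 138453) (.g (nat_lit 2507) (.e (nat_lit 24626) (nat_lit 9) (.e (nat_lit 336454) (nat_lit 34) (.e (nat_lit 483365) (nat_lit 18) (.e (nat_lit 57853) (nat_lit 252) (.e (nat_lit 57371) (nat_lit 2) (.e (nat_lit 90160) (nat_lit 11) .nil)))))) (.g (nat_lit 4) .nil .nil))) 
(.lf (nat_lit 138485) (.g (nat_lit 3662) (.e (nat_lit 24627) (nat_lit 9) (.e (nat_lit 336454) (nat_lit 34) (.e (nat_lit 483363) (nat_lit 18) (.e (nat_lit 57847) (nat_lit 252) (.e (nat_lit 57370) (nat_lit 2) (.e (nat_lit 90158) (nat_lit 11) .nil)))))) (.g (nat_lit 0) .nil .nil))))) (.nd (nat_lit 4) (.nd (nat_lit 5) 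
(.lf (nat_lit 138445) (.g (nat_lit 2627) (.e (nat_lit 24626) (nat_lit 9) (.e (nat_lit 336454) (nat_lit 34) (.e (nat_lit 483365) (nat_lit 18) (.e (nat_lit 57849) (nat_lit 252) (.e (nat_lit 57373) (nat_lit 2) .nil))))) .nil)) 
(.lf (nat_lit 138477) (.g (nat_lit 2244) (.e (nat_lit 24627) (nat_lit 9) (.e (nat_lit 336370) (nat_lit 27) (.e (nat_lit 426501) (nat_lit 27) (.e (nat_lit 335995) (nat_lit 1) (.e (nat_lit 57848) (nat_lit 252) (.e (nat_lit 57375) (nat_lit 2) (.e (nat_lit 90159) (nat_lit 11) .nil))))))) (.g (nat_lit 5) .nil .nil)))) (.nd (nat_lit 5) 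
(.lf (nat_lit 138461) (.g (nat_lit 1371) (.e (nat_lit 24627) (nat_lit 9) (.e (nat_lit 336019) (nat_lit 3) (.e (nat_lit 98357) (nat_lit 26) (.e (nat_lit 426448) (nat_lit 20) (.e (nat_lit 114714) (nat_lit 22) .nil))))) .nil)) 
(.lf (nat_lit 138493) (.g (nat_lit 3789) (.e (nat_lit 24627) (nat_lit 9) (.e (nat_lit 336454) (nat_lit 34) (.e (nat_lit 483363) (nat_lit 18) (.e (nat_lit 57849) (nat_lit 252) (.e (nat_lit 57375) (nat_lit 2) (.e (nat_lit 90158) (nat_lit 11) .nil)))))) (.g (nat_lit 0) .nil .nil))))))) (.nd (nat_lit 2) (.nd (nat_lit 3) (.nd (nat_lit 4) (.nd (nat_lit 5) 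
(.lf (nat_lit 138435) (.g (nat_lit 1427) (.e (nat_lit 24626) (nat_lit 9) (.e (nat_lit 336454) (nat_lit 34) (.e (nat_lit 483365) (nat_lit 18) (.e (nat_lit 57847) (nat_lit 252) .nil)))) .nil)) 
(.lf (nat_lit 138467) (.g (nat_lit 3203) (.e (nat_lit 24627) (nat_lit 9) (.e (nat_lit 336019) (nat_lit 3) (.e (nat_lit 98389) (nat_lit 33) (.e (nat_lit 491560) (nat_lit 10) (.e (nat_lit 344131) (nat_lit 26) (.e (nat_lit 557086) (nat_lit 11) .nil)))))) (.g (nat_lit 6) .nil .nil)))) (.nd (nat_lit 5) 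
(.lf (nat_lit 138451) (.g (nat_lit 3688) (.e (nat_lit 24626) (nat_lit 9) (.e (nat_lit 336454) (nat_lit 34) (.e (nat_lit 483365) (nat_lit 18) (.e (nat_lit 57852) (nat_lit 252) (.e (nat_lit 57373) (nat_lit 2) (.e (nat_lit 90158) (nat_lit 11) .nil)))))) (.g (nat_lit 0) .nil .nil))) 
(.lf (nat_lit 138483) (.g (nat_lit 1080) (.e (nat_lit 24627) (nat_lit 9) (.e (nat_lit 336454) (nat_lit 34) (.e (nat_lit 483363) (nat_lit 18) (.e (nat_lit 57847) (nat_lit 252) .nil)))) .nil)))) (.nd (nat_lit 4) (.nd (nat_lit 5) 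
(.lf (nat_lit 138443) (.g (nat_lit 3986) (.e (nat_lit 24626) (nat_lit 9) (.e (nat_lit 336454) (nat_lit 34) (.e (nat_lit 483365) (nat_lit 18) (.e (nat_lit 57849) (nat_lit 252) (.e (nat_lit 57372) (nat_lit 2) (.e (nat_lit 90158) (nat_lit 11) .nil)))))) (.g (nat_lit 6) .nil .nil))) 
(.lf (nat_lit 138475) (.g (nat_lit 2382) (.e (nat_lit 24627) (nat_lit 9) (.e (nat_lit 336369) (nat_lit 27) (.e (nat_lit 426173) (nat_lit 7) (.e (nat_lit 409616) (nat_lit 10) (.e (nat_lit 4931) (nat_lit 287) .nil))))) .nil))) (.nd (nat_lit 5) 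
(.lf (nat_lit 138459) (.g (nat_lit 736) (.e (nat_lit 24626) (nat_lit 9) (.e (nat_lit 336456) (nat_lit 34) (.e (nat_lit 483365) (nat_lit 18) .nil))) .nil)) 
(.lf (nat_lit 138491) (.g (nat_lit 3814) (.e (nat_lit 24627) (nat_lit 9) (.e (nat_lit 336454) (nat_lit 34) (.e (nat_lit 483363) (nat_lit 18) (.e (nat_lit 57849) (nat_lit 252) (.e (nat_lit 57372) (nat_lit 2) (.e (nat_lit 90158) (nat_lit 11) .nil)))))) (.g (nat_lit 0) .nil .nil)))))) (.nd (nat_lit 3) (.nd (nat_lit 4) (.nd (nat_lit 5) 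
(.lf (nat_lit 138439) (.g (nat_lit 3663) (.e (nat_lit 24626) (nat_lit 9) (.e (nat_lit 336454) (nat_lit 34) (.e (nat_lit 483365) (nat_lit 18) (.e (nat_lit 57847) (nat_lit 252) (.e (nat_lit 57373) (nat_lit 2) (.e (nat_lit 90158) (nat_lit 11) .nil)))))) (.g (nat_lit 6) .nil .nil))) 
(.lf (nat_lit 138471) (.g (nat_lit 2464) (.e (nat_lit 24627) (nat_lit 9) (.e (nat_lit 336366) (nat_lit 27) (.e (nat_lit 426501) (nat_lit 27) (.e (nat_lit 335995) (nat_lit 1) (.e (nat_lit 57848) (nat_lit 252) (.e (nat_lit 57372) (nat_lit 2) (.e (nat_lit 90159) (nat_lit 11) .nil))))))) (.g (nat_lit 5) .nil .nil)))) (.nd (nat_lit 5) 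
(.lf (nat_lit 138455) (.g (nat_lit 3738) (.e (nat_lit 24626) (nat_lit 9) (.e (nat_lit 336454) (nat_lit 34) (.e (nat_lit 483365) (nat_lit 18) (.e (nat_lit 57854) (nat_lit 252) (.e (nat_lit 57371) (nat_lit 2) (.e (nat_lit 90158) (nat_lit 11) .nil)))))) (.g (nat_lit 6) .nil .nil))) 
(.lf (nat_lit 138487) (.g (nat_lit 2494) (.e (nat_lit 24627) (nat_lit 9) (.e (nat_lit 336454) (nat_lit 34) (.e (nat_lit 483363) (nat_lit 18) (.e (nat_lit 57847) (nat_lit 252) (.e (nat_lit 57372) (nat_lit 2) (.e (nat_lit 90156) (nat_lit 11) .nil)))))) (.g (nat_lit 4) .nil .nil))))) (.nd (nat_lit 4) (.nd (nat_lit 5) 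
(.lf (nat_lit 138447) (.g (nat_lit 3125) (.e (nat_lit 24626) (nat_lit 9) (.e (nat_lit 336454) (nat_lit 34) (.e (nat_lit 483365) (nat_lit 18) (.e (nat_lit 57851) (nat_lit 252) (.e (nat_lit 57371) (nat_lit 2) (.e (nat_lit 90156) (nat_lit 11) .nil)))))) (.g (nat_lit 5) .nil .nil))) 
(.lf (nat_lit 138479) (.g (nat_lit 1281) (.e (nat_lit 24627) (nat_lit 9) (.e (nat_lit 336391) (nat_lit 27) (.e (nat_lit 426500) (nat_lit 27) (.e (nat_lit 335995) (nat_lit 1) (.e (nat_lit 57848) (nat_lit 252) (.e (nat_lit 57375) (nat_lit 2) (.e (nat_lit 90159) (nat_lit 11) .nil))))))) (.g (nat_lit 4) .nil .nil)))) (.nd (nat_lit 5) 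
(.lf (nat_lit 138463) (.g (nat_lit 1865) (.e (nat_lit 24627) (nat_lit 9) (.e (nat_lit 336019) (nat_lit 3) (.e (nat_lit 98389) (nat_lit 33) (.e (nat_lit 491558) (nat_lit 10) (.e (nat_lit 344130) (nat_lit 26) .nil))))) .nil)) 
(.lf (nat_lit 138495) (.g (nat_lit 2203) (.e (nat_lit 24627) (nat_lit 9) (.e (nat_lit 336454) (nat_lit 34) (.e (nat_lit 483363) (nat_lit 18) (.e (nat_lit 57851) (nat_lit 252) .nil)))) .nil))))))))

noncomputable def tv1840 : DT := (.nd (nat_lit 0) (.nd (nat_lit 1) (.nd (nat_lit 2) (.nd (nat_lit 3) (.nd (nat_lit 4) (.nd (nat_lit 5) 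
(.lf (nat_lit 138496) (.g (nat_lit 3216) (.e (nat_lit 24627) (nat_lit 9) (.e (nat_lit 336454) (nat_lit 34) (.e (nat_lit 483363) (nat_lit 18) (.e (nat_lit 57853) (nat_lit 252) (.e (nat_lit 57370) (nat_lit 2) (.e (nat_lit 90158) (nat_lit 11) .nil)))))) (.g (nat_lit 4) .nil .nil))) 
(.lf (nat_lit 138528) (.g (nat_lit 2142) (.e (nat_lit 24627) (nat_lit 9) (.e (nat_lit 336454) (nat_lit 34) (.e (nat_lit 483365) (nat_lit 18) (.e (nat_lit 57851) (nat_lit 252) (.e (nat_lit 57371) (nat_lit 2) (.e (nat_lit 90158) (nat_lit 11) .nil)))))) (.g (nat_lit 4) .nil .nil)))) (.nd (nat_lit 5) 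
(.lf (nat_lit 138512) (.g (nat_lit 2562) (.e (nat_lit 24627) (nat_lit 9) (.e (nat_lit 336454) (nat_lit 34) (.e (nat_lit 483365) (nat_lit 18) (.e (nat_lit 57846) (nat_lit 252) (.e (nat_lit 57371) (nat_lit 2) (.e (nat_lit 90158) (nat_lit 11) .nil)))))) (.g (nat_lit 4) .nil .nil))) 
(.lf (nat_lit 138544) (.g (nat_lit 2526) (.e (nat_lit 24627) (nat_lit 9) (.e (nat_lit 336454) (nat_lit 34) (.e (nat_lit 483366) (nat_lit 18) (.e (nat_lit 57844) (nat_lit 252) .nil)))) .nil)))) (.nd (nat_lit 4) (.nd (nat_lit 5) 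
(.lf (nat_lit 138504) (.g (nat_lit 3159) (.e (nat_lit 24627) (nat_lit 9) (.e (nat_lit 336454) (nat_lit 34) (.e (nat_lit 483364) (nat_lit 18) (.e (nat_lit 57852) (nat_lit 252) (.e (nat_lit 57370) (nat_lit 2) (.e (nat_lit 90158) (nat_lit 11) .nil)))))) (.g (nat_lit 6) .nil .nil))) 
(.lf (nat_lit 138536) (.g (nat_lit 2039) (.e (nat_lit 24627) (nat_lit 9) (.e (nat_lit 336454) (nat_lit 34) (.e (nat_lit 483365) (nat_lit 18) (.e (nat_lit 57853) (nat_lit 252) (.e (nat_lit 57371) (nat_lit 2) (.e (nat_lit 90157) (nat_lit 11) .nil)))))) (.g (nat_lit 4) .nil .nil)))) (.nd (nat_lit 5) 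
(.lf (nat_lit 138520) (.g (nat_lit 2946) (.e (nat_lit 24627) (nat_lit 9) (.e (nat_lit 336454) (nat_lit 34) (.e (nat_lit 483365) (nat_lit 18) (.e (nat_lit 57847) (nat_lit 252) (.e (nat_lit 57373) (nat_lit 2) (.e (nat_lit 90157) (nat_lit 11) .nil)))))) (.g (nat_lit 5) .nil .nil))) 
(.lf (nat_lit 138552) (.g (nat_lit 2285) (.e (nat_lit 24628) (nat_lit 9) (.e (nat_lit 336000) (nat_lit 1) (.e (nat_lit 57681) (nat_lit 155) (.e (nat_lit 122919) (nat_lit 15) (.e (nat_lit 360491) (nat_lit 22) (.e (nat_lit 778465) (nat_lit 11) .nil)))))) (.g (nat_lit 4) .nil .nil)))))) (.nd (nat_lit 3) (.nd (nat_lit 4) (.nd (nat_lit 5) 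
(.lf (nat_lit 138500) (.g (nat_lit 2649) (.e (nat_lit 24627) (nat_lit 9) (.e (nat_lit 336454) (nat_lit 34) (.e (nat_lit 483363) (nat_lit 18) (.e (nat_lit 57854) (nat_lit 252) (.e (nat_lit 57371) (nat_lit 2) (.e (nat_lit 90158) (nat_lit 11) .nil)))))) (.g (nat_lit 4) .nil .nil))) 
(.lf (nat_lit 138532) (.g (nat_lit 3384) (.e (nat_lit 24627) (nat_lit 9) (.e (nat_lit 336454) (nat_lit 34) (.e (nat_lit 483365) (nat_lit 18) (.e (nat_lit 57852) (nat_lit 252) (.e (nat_lit 57371) (nat_lit 2) (.e (nat_lit 90158) (nat_lit 11) .nil)))))) (.g (nat_lit 0) .nil .nil)))) (.nd (nat_lit 5) 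
(.lf (nat_lit 138516) (.g (nat_lit 3495) (.e (nat_lit 24627) (nat_lit 9) (.e (nat_lit 336454) (nat_lit 34) (.e (nat_lit 483365) (nat_lit 18) (.e (nat_lit 57847) (nat_lit 252) (.e (nat_lit 57370) (nat_lit 2) (.e (nat_lit 90158) (nat_lit 11) .nil)))))) (.g (nat_lit 0) .nil .nil))) 
(.lf (nat_lit 138548) (.g (nat_lit 1845) (.e (nat_lit 24628) (nat_lit 9) (.e (nat_lit 336000) (nat_lit 1) (.e (nat_lit 57681) (nat_lit 155) (.e (nat_lit 122916) (nat_lit 14) (.e (nat_lit 352322) (nat_lit 26) .nil))))) .nil)))) (.nd (nat_lit 4) (.nd (nat_lit 5) 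
(.lf (nat_lit 138508) (.g (nat_lit 2966) (.e (nat_lit 24627) (nat_lit 9) (.e (nat_lit 336454) (nat_lit 34) (.e (nat_lit 483364) (nat_lit 18) (.e (nat_lit 57854) (nat_lit 252) (.e (nat_lit 57371) (nat_lit 2) (.e (nat_lit 90156) (nat_lit 11) .nil)))))) (.g (nat_lit 6) .nil .nil))) 
(.lf (nat_lit 138540) (.g (nat_lit 3430) (.e (nat_lit 24627) (nat_lit 9) (.e (nat_lit 336454) (nat_lit 34) (.e (nat_lit 483365) (nat_lit 18) (.e (nat_lit 57854) (nat_lit 252) (.e (nat_lit 57371) (nat_lit 2) (.e (nat_lit 90156) (nat_lit 11) .nil)))))) (.g (nat_lit 6) .nil .nil)))) (.nd (nat_lit 5) 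
(.lf (nat_lit 138524) (.g (nat_lit 3147) (.e (nat_lit 24627) (nat_lit 9) (.e (nat_lit 336454) (nat_lit 34) (.e (nat_lit 483365) (nat_lit 18) (.e (nat_lit 57849) (nat_lit 252) (.e (nat_lit 57372) (nat_lit 2) (.e (nat_lit 90156) (nat_lit 11) .nil)))))) (.g (nat_lit 5) .nil .nil))) 
(.lf (nat_lit 138556) (.g (nat_lit 1830) (.e (nat_lit 24628) (nat_lit 9) (.e (nat_lit 336000) (nat_lit 1) (.e (nat_lit 57683) (nat_lit 155) (.e (nat_lit 122916) (nat_lit 14) (.e (nat_lit 352323) (nat_lit 26) (.e (nat_lit 147496) (nat_lit 11) .nil)))))) (.g (nat_lit 4) .nil .nil))))))) (.nd (nat_lit 2) (.nd (nat_lit 3) (.nd (nat_lit 4) (.nd (nat_lit 5) 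
(.lf (nat_lit 138498) (.g (nat_lit 3541) (.e (nat_lit 24627) (nat_lit 9) (.e (nat_lit 336454) (nat_lit 34) (.e (nat_lit 483363) (nat_lit 18) (.e (nat_lit 57853) (nat_lit 252) (.e (nat_lit 57371) (nat_lit 2) (.e (nat_lit 90158) (nat_lit 11) .nil)))))) (.g (nat_lit 5) .nil .nil))) 
(.lf (nat_lit 138530) (.g (nat_lit 2764) (.e (nat_lit 24627) (nat_lit 9) (.e (nat_lit 336454) (nat_lit 34) (.e (nat_lit 483365) (nat_lit 18) (.e (nat_lit 57852) (nat_lit 252) (.e (nat_lit 57371) (nat_lit 2) (.e (nat_lit 90156) (nat_lit 11) .nil)))))) (.g (nat_lit 5) .nil .nil)))) (.nd (nat_lit 5) 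
(.lf (nat_lit 138514) (.g (nat_lit 3015) (.e (nat_lit 24627) (nat_lit 9) (.e (nat_lit 336454) (nat_lit 34) (.e (nat_lit 483365) (nat_lit 18) (.e (nat_lit 57846) (nat_lit 252) (.e (nat_lit 57373) (nat_lit 2) (.e (nat_lit 90158) (nat_lit 11) .nil)))))) (.g (nat_lit 4) .nil .nil))) 
(.lf (nat_lit 138546) (.g (nat_lit 2407) (.e (nat_lit 24628) (nat_lit 9) (.e (nat_lit 335878) (nat_lit 0) (.e (nat_lit 2283) (nat_lit 150) (.e (nat_lit 770074) (nat_lit 10) (.e (nat_lit 81963) (nat_lit 26) (.e (nat_lit 147492) (nat_lit 11) .nil)))))) (.g (nat_lit 5) .nil .nil))))) (.nd (nat_lit 4) (.nd (nat_lit 5) 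
(.lf (nat_lit 138506) (.g (nat_lit 2019) (.e (nat_lit 24627) (nat_lit 9) (.e (nat_lit 336454) (nat_lit 34) (.e (nat_lit 483364) (nat_lit 18) (.e (nat_lit 57852) (nat_lit 252) (.e (nat_lit 57371) (nat_lit 2) (.e (nat_lit 90157) (nat_lit 11) .nil)))))) (.g (nat_lit 4) .nil .nil))) 
(.lf (nat_lit 138538) (.g (nat_lit 2073) (.e (nat_lit 24627) (nat_lit 9) (.e (nat_lit 336454) (nat_lit 34) (.e (nat_lit 483365) (nat_lit 18) (.e (nat_lit 57854) (nat_lit 252) (.e (nat_lit 57370) (nat_lit 2) (.e (nat_lit 90157) (nat_lit 11) .nil)))))) (.g (nat_lit 4) .nil .nil)))) (.nd (nat_lit 5) 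
(.lf (nat_lit 138522) (.g (nat_lit 2383) (.e (nat_lit 24627) (nat_lit 9) (.e (nat_lit 336454) (nat_lit 34) (.e (nat_lit 483365) (nat_lit 18) (.e (nat_lit 57849) (nat_lit 252) (.e (nat_lit 57370) (nat_lit 2) (.e (nat_lit 90157) (nat_lit 11) .nil)))))) (.g (nat_lit 5) .nil .nil))) 
(.lf (nat_lit 138554) (.g (nat_lit 1855) (.e (nat_lit 24628) (nat_lit 9) (.e (nat_lit 336000) (nat_lit 1) (.e (nat_lit 57681) (nat_lit 155) (.e (nat_lit 122919) (nat_lit 15) (.e (nat_lit 368384) (nat_lit 22) (.e (nat_lit 778462) (nat_lit 11) .nil)))))) (.g (nat_lit 4) .nil .nil)))))) (.nd (nat_lit 3) (.nd (nat_lit 4) (.nd (nat_lit 5) 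
(.lf (nat_lit 138502) (.g (nat_lit 3133) (.e (nat_lit 24627) (nat_lit 9) (.e (nat_lit 336454) (nat_lit 34) (.e (nat_lit 483363) (nat_lit 18) (.e (nat_lit 57854) (nat_lit 252) (.e (nat_lit 57373) (nat_lit 2) (.e (nat_lit 90158) (nat_lit 11) .nil)))))) (.g (nat_lit 4) .nil .nil))) 
(.lf (nat_lit 138534) (.g (nat_lit 3236) (.e (nat_lit 24627) (nat_lit 9) (.e (nat_lit 336454) (nat_lit 34) (.e (nat_lit 483365) (nat_lit 18) (.e (nat_lit 57853) (nat_lit 252) (.e (nat_lit 57370) (nat_lit 2) (.e (nat_lit 90158) (nat_lit 11) .nil)))))) (.g (nat_lit 6) .nil .nil)))) (.nd (nat_lit 5) 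
(.lf (nat_lit 138518) (.g (nat_lit 2456) (.e (nat_lit 24627) (nat_lit 9) (.e (nat_lit 336454) (nat_lit 34) (.e (nat_lit 483365) (nat_lit 18) (.e (nat_lit 57847) (nat_lit 252) (.e (nat_lit 57372) (nat_lit 2) (.e (nat_lit 90156) (nat_lit 11) .nil)))))) (.g (nat_lit 4) .nil .nil))) 
(.lf (nat_lit 138550) (.g (nat_lit 2577) (.e (nat_lit 24628) (nat_lit 9) (.e (nat_lit 336000) (nat_lit 1) (.e (nat_lit 57681) (nat_lit 155) (.e (nat_lit 122917) (nat_lit 15) (.e (nat_lit 360491) (nat_lit 22) (.e (nat_lit 778466) (nat_lit 11) .nil)))))) (.g (nat_lit 5) .nil .nil))))) (.nd (nat_lit 4) (.nd (nat_lit 5) 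
(.lf (nat_lit 138510) (.g (nat_lit 3639) (.e (nat_lit 24627) (nat_lit 9) (.e (nat_lit 336454) (nat_lit 34) (.e (nat_lit 483364) (nat_lit 18) (.e (nat_lit 57854) (nat_lit 252) (.e (nat_lit 57373) (nat_lit 2) (.e (nat_lit 90157) (nat_lit 11) .nil)))))) (.g (nat_lit 0) .nil .nil))) 
(.lf (nat_lit 138542) (.g (nat_lit 3612) (.e (nat_lit 24627) (nat_lit 9) (.e (nat_lit 336454) (nat_lit 34) (.e (nat_lit 483365) (nat_lit 18) (.e (nat_lit 57854) (nat_lit 252) (.e (nat_lit 57371) (nat_lit 2) (.e (nat_lit 90158) (nat_lit 11) .nil)))))) (.g (nat_lit 0) .nil .nil)))) (.nd (nat_lit 5) 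
(.lf (nat_lit 138526) (.g (nat_lit 2472) (.e (nat_lit 24627) (nat_lit 9) (.e (nat_lit 336454) (nat_lit 34) (.e (nat_lit 483365) (nat_lit 18) (.e (nat_lit 57849) (nat_lit 252) (.e (nat_lit 57373) (nat_lit 2) (.e (nat_lit 90158) (nat_lit 11) .nil)))))) (.g (nat_lit 4) .nil .nil))) 
(.lf (nat_lit 138558) (.g (nat_lit 1561) (.e (nat_lit 24628) (nat_lit 9) (.e (nat_lit 336000) (nat_lit 1) (.e (nat_lit 57683) (nat_lit 155) (.e (nat_lit 122917) (nat_lit 15) (.e (nat_lit 360490) (nat_lit 22) (.e (nat_lit 778469) (nat_lit 11) .nil)))))) (.g (nat_lit 4) .nil .nil)))))))) (.nd (nat_lit 1) (.nd (nat_lit 2) (.nd (nat_lit 3) (.nd (nat_lit 4) (.nd (nat_lit 5) 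
(.lf (nat_lit 138497) (.g (nat_lit 2643) (.e (nat_lit 24627) (nat_lit 9) (.e (nat_lit 336454) (nat_lit 34) (.e (nat_lit 483363) (nat_lit 18) (.e (nat_lit 57853) (nat_lit 252) (.e (nat_lit 57371) (nat_lit 2) .nil))))) .nil)) 
(.lf (nat_lit 138529) (.g (nat_lit 1733) (.e (nat_lit 24627) (nat_lit 9) (.e (nat_lit 336454) (nat_lit 34) (.e (nat_lit 483365) (nat_lit 18) (.e (nat_lit 57852) (nat_lit 252) (.e (nat_lit 57370) (nat_lit 2) (.e (nat_lit 90157) (nat_lit 11) .nil)))))) (.g (nat_lit 4) .nil .nil)))) (.nd (nat_lit 5) 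
(.lf (nat_lit 138513) (.g (nat_lit 3084) (.e (nat_lit 24627) (nat_lit 9) (.e (nat_lit 336454) (nat_lit 34) (.e (nat_lit 483365) (nat_lit 18) (.e (nat_lit 57846) (nat_lit 252) (.e (nat_lit 57372) (nat_lit 2) (.e (nat_lit 90158) (nat_lit 11) .nil)))))) (.g (nat_lit 5) .nil .nil))) 
(.lf (nat_lit 138545) (.g (nat_lit 96) (.e (nat_lit 24628) (nat_lit 9) (.e (nat_lit 335878) (nat_lit 0) (.e (nat_lit 2283) (nat_lit 150) .nil))) .nil)))) (.nd (nat_lit 4) (.nd (nat_lit 5) 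
(.lf (nat_lit 138505) (.g (nat_lit 2476) (.e (nat_lit 24627) (nat_lit 9) (.e (nat_lit 336454) (nat_lit 34) (.e (nat_lit 483364) (nat_lit 18) (.e (nat_lit 57852) (nat_lit 252) (.e (nat_lit 57371) (nat_lit 2) (.e (nat_lit 90156) (nat_lit 11) .nil)))))) (.g (nat_lit 5) .nil .nil))) 
(.lf (nat_lit 138537) (.g (nat_lit 3576) (.e (nat_lit 24627) (nat_lit 9) (.e (nat_lit 336454) (nat_lit 34) (.e (nat_lit 483365) (nat_lit 18) (.e (nat_lit 57853) (nat_lit 252) (.e (nat_lit 57371) (nat_lit 2) (.e (nat_lit 90158) (nat_lit 11) .nil)))))) (.g (nat_lit 0) .nil .nil)))) (.nd (nat_lit 5) 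
(.lf (nat_lit 138521) (.g (nat_lit 3339) (.e (nat_lit 24627) (nat_lit 9) (.e (nat_lit 336454) (nat_lit 34) (.e (nat_lit 483365) (nat_lit 18) (.e (nat_lit 57847) (nat_lit 252) (.e (nat_lit 57375) (nat_lit 2) (.e (nat_lit 90158) (nat_lit 11) .nil)))))) (.g (nat_lit 0) .nil .nil))) 
(.lf (nat_lit 138553) (.g (nat_lit 2046) (.e (nat_lit 24628) (nat_lit 9) (.e (nat_lit 336000) (nat_lit 1) (.e (nat_lit 57681) (nat_lit 155) (.e (nat_lit 122919) (nat_lit 15) (.e (nat_lit 360492) (nat_lit 22) (.e (nat_lit 778465) (nat_lit 11) .nil)))))) (.g (nat_lit 4) .nil .nil)))))) (.nd (nat_lit 3) (.nd (nat_lit 4) (.nd (nat_lit 5) 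
(.lf (nat_lit 138501) (.g (nat_lit 3931) (.e (nat_lit 24627) (nat_lit 9) (.e (nat_lit 336454) (nat_lit 34) (.e (nat_lit 483363) (nat_lit 18) (.e (nat_lit 57854) (nat_lit 252) (.e (nat_lit 57373) (nat_lit 2) (.e (nat_lit 90157) (nat_lit 11) .nil)))))) (.g (nat_lit 5) .nil .nil))) 
(.lf (nat_lit 138533) (.g (nat_lit 3492) (.e (nat_lit 24627) (nat_lit 9) (.e (nat_lit 336454) (nat_lit 34) (.e (nat_lit 483365) (nat_lit 18) (.e (nat_lit 57852) (nat_lit 252) (.e (nat_lit 57373) (nat_lit 2) (.e (nat_lit 90157) (nat_lit 11) .nil)))))) (.g (nat_lit 0) .nil .nil)))) (.nd (nat_lit 5) 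
(.lf (nat_lit 138517) (.g (nat_lit 2315) (.e (nat_lit 24627) (nat_lit 9) (.e (nat_lit 336454) (nat_lit 34) (.e (nat_lit 483365) (nat_lit 18) (.e (nat_lit 57847) (nat_lit 252) (.e (nat_lit 57371) (nat_lit 2) (.e (nat_lit 90158) (nat_lit 11) .nil)))))) (.g (nat_lit 4) .nil .nil))) 
(.lf (nat_lit 138549) (.g (nat_lit 1799) (.e (nat_lit 24628) (nat_lit 9) (.e (nat_lit 336000) (nat_lit 1) (.e (nat_lit 57681) (nat_lit 155) (.e (nat_lit 122917) (nat_lit 15) (.e (nat_lit 360490) (nat_lit 22) (.e (nat_lit 778469) (nat_lit 11) .nil)))))) (.g (nat_lit 4) .nil .nil))))) (.nd (nat_lit 4) (.nd (nat_lit 5) 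
(.lf (nat_lit 138509) (.g (nat_lit 3335) (.e (nat_lit 24627) (nat_lit 9) (.e (nat_lit 336454) (nat_lit 34) (.e (nat_lit 483364) (nat_lit 18) (.e (nat_lit 57854) (nat_lit 252) (.e (nat_lit 57371) (nat_lit 2) (.e (nat_lit 90158) (nat_lit 11) .nil)))))) (.g (nat_lit 0) .nil .nil))) 
(.lf (nat_lit 138541) (.g (nat_lit 2918) (.e (nat_lit 24627) (nat_lit 9) (.e (nat_lit 336454) (nat_lit 34) (.e (nat_lit 483365) (nat_lit 18) (.e (nat_lit 57854) (nat_lit 252) (.e (nat_lit 57371) (nat_lit 2) (.e (nat_lit 90157) (nat_lit 11) .nil)))))) (.g (nat_lit 5) .nil .nil)))) (.nd (nat_lit 5) 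
(.lf (nat_lit 138525) (.g (nat_lit 3884) (.e (nat_lit 24627) (nat_lit 9) (.e (nat_lit 336454) (nat_lit 34) (.e (nat_lit 483365) (nat_lit 18) (.e (nat_lit 57849) (nat_lit 252) (.e (nat_lit 57372) (nat_lit 2) (.e (nat_lit 90158) (nat_lit 11) .nil)))))) (.g (nat_lit 0) .nil .nil))) 
(.lf (nat_lit 138557) (.g (nat_lit 2685) (.e (nat_lit 24628) (nat_lit 9) (.e (nat_lit 336000) (nat_lit 1) (.e (nat_lit 57683) (nat_lit 155) (.e (nat_lit 122916) (nat_lit 14) (.e (nat_lit 352324) (nat_lit 26) (.e (nat_lit 147493) (nat_lit 11) .nil)))))) (.g (nat_lit 5) .nil .nil))))))) (.nd (nat_lit 2) (.nd (nat_lit 3) (.nd (nat_lit 4) (.nd (nat_lit 5) 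
(.lf (nat_lit 138499) (.g (nat_lit 2388) (.e (nat_lit 24627) (nat_lit 9) (.e (nat_lit 336454) (nat_lit 34) (.e (nat_lit 483363) (nat_lit 18) (.e (nat_lit 57854) (nat_lit 252) (.e (nat_lit 57371) (nat_lit 2) .nil))))) .nil)) 
(.lf (nat_lit 138531) (.g (nat_lit 2076) (.e (nat_lit 24627) (nat_lit 9) (.e (nat_lit 336454) (nat_lit 34) (.e (nat_lit 483365) (nat_lit 18) (.e (nat_lit 57852) (nat_lit 252) (.e (nat_lit 57371) (nat_lit 2) (.e (nat_lit 90157) (nat_lit 11) .nil)))))) (.g (nat_lit 4) .nil .nil)))) (.nd (nat_lit 5) 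
(.lf (nat_lit 138515) (.g (nat_lit 2171) (.e (nat_lit 24627) (nat_lit 9) (.e (nat_lit 336454) (nat_lit 34) (.e (nat_lit 483365) (nat_lit 18) (.e (nat_lit 57847) (nat_lit 252) (.e (nat_lit 57370) (nat_lit 2) (.e (nat_lit 90157) (nat_lit 11) .nil)))))) (.g (nat_lit 4) .nil .nil))) 
(.lf (nat_lit 138547) (.g (nat_lit 2014) (.e (nat_lit 24628) (nat_lit 9) (.e (nat_lit 335999) (nat_lit 1) (.e (nat_lit 57681) (nat_lit 155) (.e (nat_lit 122919) (nat_lit 15) (.e (nat_lit 368384) (nat_lit 22) (.e (nat_lit 778462) (nat_lit 11) .nil)))))) (.g (nat_lit 4) .nil .nil))))) (.nd (nat_lit 4) (.nd (nat_lit 5) 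
(.lf (nat_lit 138507) (.g (nat_lit 3320) (.e (nat_lit 24627) (nat_lit 9) (.e (nat_lit 336454) (nat_lit 34) (.e (nat_lit 483364) (nat_lit 18) (.e (nat_lit 57852) (nat_lit 252) (.e (nat_lit 57371) (nat_lit 2) (.e (nat_lit 90158) (nat_lit 11) .nil)))))) (.g (nat_lit 0) .nil .nil))) 
(.lf (nat_lit 138539) (.g (nat_lit 3400) (.e (nat_lit 24627) (nat_lit 9) (.e (nat_lit 336454) (nat_lit 34) (.e (nat_lit 483365) (nat_lit 18) (.e (nat_lit 57854) (nat_lit 252) (.e (nat_lit 57370) (nat_lit 2) (.e (nat_lit 90158) (nat_lit 11) .nil)))))) (.g (nat_lit 0) .nil .nil)))) (.nd (nat_lit 5) 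
(.lf (nat_lit 138523) (.g (nat_lit 3420) (.e (nat_lit 24627) (nat_lit 9) (.e (nat_lit 336454) (nat_lit 34) (.e (nat_lit 483365) (nat_lit 18) (.e (nat_lit 57849) (nat_lit 252) (.e (nat_lit 57370) (nat_lit 2) (.e (nat_lit 90158) (nat_lit 11) .nil)))))) (.g (nat_lit 0) .nil .nil))) 
(.lf (nat_lit 138555) (.g (nat_lit 2501) (.e (nat_lit 24628) (nat_lit 9) (.e (nat_lit 336000) (nat_lit 1) (.e (nat_lit 57682) (nat_lit 155) (.e (nat_lit 122916) (nat_lit 14) (.e (nat_lit 352324) (nat_lit 26) (.e (nat_lit 147493) (nat_lit 11) .nil)))))) (.g (nat_lit 5) .nil .nil)))))) (.nd (nat_lit 3) (.nd (nat_lit 4) (.nd (nat_lit 5) 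
(.lf (nat_lit 138503) (.g (nat_lit 1671) (.e (nat_lit 24627) (nat_lit 9) (.e (nat_lit 336454) (nat_lit 34) (.e (nat_lit 483364) (nat_lit 18) (.e (nat_lit 57852) (nat_lit 252) (.e (nat_lit 57370) (nat_lit 2) (.e (nat_lit 90157) (nat_lit 11) .nil)))))) (.g (nat_lit 4) .nil .nil))) 
(.lf (nat_lit 138535) (.g (nat_lit 2731) (.e (nat_lit 24627) (nat_lit 9) (.e (nat_lit 336454) (nat_lit 34) (.e (nat_lit 483365) (nat_lit 18) (.e (nat_lit 57853) (nat_lit 252) (.e (nat_lit 57371) (nat_lit 2) (.e (nat_lit 90156) (nat_lit 11) .nil)))))) (.g (nat_lit 5) .nil .nil)))) (.nd (nat_lit 5) 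
(.lf (nat_lit 138519) (.g (nat_lit 3466) (.e (nat_lit 24627) (nat_lit 9) (.e (nat_lit 336454) (nat_lit 34) (.e (nat_lit 483365) (nat_lit 18) (.e (nat_lit 57847) (nat_lit 252) (.e (nat_lit 57372) (nat_lit 2) (.e (nat_lit 90158) (nat_lit 11) .nil)))))) (.g (nat_lit 0) .nil .nil))) 
(.lf (nat_lit 138551) (.g (nat_lit 2037) (.e (nat_lit 24628) (nat_lit 9) (.e (nat_lit 336000) (nat_lit 1) (.e (nat_lit 57681) (nat_lit 155) (.e (nat_lit 122917) (nat_lit 15) (.e (nat_lit 368384) (nat_lit 22) (.e (nat_lit 778462) (nat_lit 11) .nil)))))) (.g (nat_lit 4) .nil .nil))))) (.nd (nat_lit 4) (.nd (nat_lit 5) 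
(.lf (nat_lit 138511) (.g (nat_lit 2816) (.e (nat_lit 24627) (nat_lit 9) (.e (nat_lit 336454) (nat_lit 34) (.e (nat_lit 483365) (nat_lit 18) (.e (nat_lit 57846) (nat_lit 252) (.e (nat_lit 57370) (nat_lit 2) (.e (nat_lit 90158) (nat_lit 11) .nil)))))) (.g (nat_lit 4) .nil .nil))) 
(.lf (nat_lit 138543) (.g (nat_lit 3953) (.e (nat_lit 24627) (nat_lit 9) (.e (nat_lit 336454) (nat_lit 34) (.e (nat_lit 483365) (nat_lit 18) (.e (nat_lit 57854) (nat_lit 252) (.e (nat_lit 57373) (nat_lit 2) (.e (nat_lit 90157) (nat_lit 11) .nil)))))) (.g (nat_lit 0) .nil .nil)))) (.nd (nat_lit 5) 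
(.lf (nat_lit 138527) (.g (nat_lit 3851) (.e (nat_lit 24627) (nat_lit 9) (.e (nat_lit 336454) (nat_lit 34) (.e (nat_lit 483365) (nat_lit 18) (.e (nat_lit 57849) (nat_lit 252) (.e (nat_lit 57375) (nat_lit 2) (.e (nat_lit 90158) (nat_lit 11) .nil)))))) (.g (nat_lit 0) .nil .nil))) 
(.lf (nat_lit 138559) (.g (nat_lit 1419) (.e (nat_lit 24628) (nat_lit 9) (.e (nat_lit 336000) (nat_lit 1) (.e (nat_lit 57684) (nat_lit 155) (.e (nat_lit 122917) (nat_lit 15) (.e (nat_lit 368384) (nat_lit 22) (.e (nat_lit 778462) (nat_lit 11) .nil)))))) (.g (nat_lit 4) .nil .nil)))))))))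

noncomputable def tv1841 : DT := (.nd (nat_lit 0) (.nd (nat_lit 1) (.nd (nat_lit 2) (.nd (nat_lit 3) (.nd (nat_lit 4) (.nd (nat_lit 5) 
(.lf (nat_lit 138560) (.g (nat_lit 2234) (.e (nat_lit 24628) (nat_lit 9) (.e (nat_lit 336000) (nat_lit 1) (.e (nat_lit 57684) (nat_lit 155) (.e (nat_lit 122919) (nat_lit 15) (.e (nat_lit 360491) (nat_lit 22) (.e (nat_lit 778466) (nat_lit 11) .nil)))))) (.g (nat_lit 0) .nil .nil))) 
(.lf (nat_lit 138592) (.g (nat_lit 1965) (.e (nat_lit 24628) (nat_lit 9) (.e (nat_lit 336019) (nat_lit 3) (.e (nat_lit 98356) (nat_lit 26) (.e (nat_lit 426449) (nat_lit 20) (.e (nat_lit 114716) (nat_lit 22) (.e (nat_lit 90156) (nat_lit 11) .nil)))))) (.g (nat_lit 4) .nil .nil)))) (.nd (nat_lit 5) 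
(.lf (nat_lit 138576) (.g (nat_lit 1980) (.e (nat_lit 24628) (nat_lit 9) (.e (nat_lit 336019) (nat_lit 3) (.e (nat_lit 98356) (nat_lit 26) (.e (nat_lit 426446) (nat_lit 20) (.e (nat_lit 114715) (nat_lit 22) (.e (nat_lit 90156) (nat_lit 11) .nil)))))) (.g (nat_lit 4) .nil .nil))) 
(.lf (nat_lit 138608) (.g (nat_lit 3015) (.e (nat_lit 24628) (nat_lit 9) (.e (nat_lit 336019) (nat_lit 3) (.e (nat_lit 98358) (nat_lit 26) (.e (nat_lit 426446) (nat_lit 20) (.e (nat_lit 114716) (nat_lit 22) (.e (nat_lit 90157) (nat_lit 11) .nil)))))) (.g (nat_lit 6) .nil .nil))))) (.nd (nat_lit 4) (.nd (nat_lit 5) 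
(.lf (nat_lit 138568) (.g (nat_lit 1627) (.e (nat_lit 24628) (nat_lit 9) (.e (nat_lit 336019) (nat_lit 3) (.e (nat_lit 98355) (nat_lit 26) (.e (nat_lit 426446) (nat_lit 20) (.e (nat_lit 114716) (nat_lit 22) (.e (nat_lit 90159) (nat_lit 11) .nil)))))) (.g (nat_lit 4) .nil .nil))) 
(.lf (nat_lit 138600) (.g (nat_lit 1359) (.e (nat_lit 24628) (nat_lit 9) (.e (nat_lit 336019) (nat_lit 3) (.e (nat_lit 98358) (nat_lit 26) (.e (nat_lit 426361) (nat_lit 15) .nil)))) .nil))) (.nd (nat_lit 5) 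
(.lf (nat_lit 138584) (.g (nat_lit 2849) (.e (nat_lit 24628) (nat_lit 9) (.e (nat_lit 336019) (nat_lit 3) (.e (nat_lit 98356) (nat_lit 26) (.e (nat_lit 426448) (nat_lit 20) (.e (nat_lit 114715) (nat_lit 22) (.e (nat_lit 90158) (nat_lit 11) .nil)))))) (.g (nat_lit 4) .nil .nil))) 
(.lf (nat_lit 138616) (.g (nat_lit 1764) (.e (nat_lit 24628) (nat_lit 9) (.e (nat_lit 336019) (nat_lit 3) (.e (nat_lit 98358) (nat_lit 26) (.e (nat_lit 426448) (nat_lit 20) (.e (nat_lit 114716) (nat_lit 22) (.e (nat_lit 90156) (nat_lit 11) .nil)))))) (.g (nat_lit 4) .nil .nil)))))) (.nd (nat_lit 3) (.nd (nat_lit 4) (.nd (nat_lit 5) 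
(.lf (nat_lit 138564) (.g (nat_lit 2406) (.e (nat_lit 24628) (nat_lit 9) (.e (nat_lit 336019) (nat_lit 3) (.e (nat_lit 98355) (nat_lit 26) (.e (nat_lit 426446) (nat_lit 20) (.e (nat_lit 114714) (nat_lit 22) (.e (nat_lit 90157) (nat_lit 11) .nil)))))) (.g (nat_lit 5) .nil .nil))) 
(.lf (nat_lit 138596) (.g (nat_lit 1993) (.e (nat_lit 24628) (nat_lit 9) (.e (nat_lit 336019) (nat_lit 3) (.e (nat_lit 98357) (nat_lit 26) (.e (nat_lit 426448) (nat_lit 20) (.e (nat_lit 114715) (nat_lit 22) (.e (nat_lit 90156) (nat_lit 11) .nil)))))) (.g (nat_lit 4) .nil .nil)))) (.nd (nat_lit 5) 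
(.lf (nat_lit 138580) (.g (nat_lit 3577) (.e (nat_lit 24628) (nat_lit 9) (.e (nat_lit 336019) (nat_lit 3) (.e (nat_lit 98356) (nat_lit 26) (.e (nat_lit 426448) (nat_lit 20) (.e (nat_lit 114714) (nat_lit 22) (.e (nat_lit 90157) (nat_lit 11) .nil)))))) (.g (nat_lit 6) .nil .nil))) 
(.lf (nat_lit 138612) (.g (nat_lit 3132) (.e (nat_lit 24628) (nat_lit 9) (.e (nat_lit 336019) (nat_lit 3) (.e (nat_lit 98358) (nat_lit 26) (.e (nat_lit 426448) (nat_lit 20) (.e (nat_lit 114714) (nat_lit 22) (.e (nat_lit 90159) (nat_lit 11) .nil)))))) (.g (nat_lit 6) .nil .nil))))) (.nd (nat_lit 4) (.nd (nat_lit 5) 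
(.lf (nat_lit 138572) (.g (nat_lit 2204) (.e (nat_lit 24628) (nat_lit 9) (.e (nat_lit 336019) (nat_lit 3) (.e (nat_lit 98355) (nat_lit 26) (.e (nat_lit 426448) (nat_lit 20) (.e (nat_lit 114716) (nat_lit 22) (.e (nat_lit 90160) (nat_lit 11) .nil)))))) (.g (nat_lit 5) .nil .nil))) 
(.lf (nat_lit 138604) (.g (nat_lit 3320) (.e (nat_lit 24628) (nat_lit 9) (.e (nat_lit 336019) (nat_lit 3) (.e (nat_lit 98358) (nat_lit 26) (.e (nat_lit 426446) (nat_lit 20) (.e (nat_lit 114714) (nat_lit 22) (.e (nat_lit 90158) (nat_lit 11) .nil)))))) (.g (nat_lit 6) .nil .nil)))) (.nd (nat_lit 5) 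
(.lf (nat_lit 138588) (.g (nat_lit 2252) (.e (nat_lit 24628) (nat_lit 9) (.e (nat_lit 336019) (nat_lit 3) (.e (nat_lit 98356) (nat_lit 26) (.e (nat_lit 426448) (nat_lit 20) (.e (nat_lit 114716) (nat_lit 22) (.e (nat_lit 90159) (nat_lit 11) .nil)))))) (.g (nat_lit 4) .nil .nil))) 
(.lf (nat_lit 138620) (.g (nat_lit 2433) (.e (nat_lit 24628) (nat_lit 9) (.e (nat_lit 336019) (nat_lit 3) (.e (nat_lit 98358) (nat_lit 26) (.e (nat_lit 426449) (nat_lit 20) (.e (nat_lit 114714) (nat_lit 22) (.e (nat_lit 90159) (nat_lit 11) .nil)))))) (.g (nat_lit 4) .nil .nil))))))) (.nd (nat_lit 2) (.nd (nat_lit 3) (.nd (nat_lit 4) (.nd (nat_lit 5) 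
(.lf (nat_lit 138562) (.g (nat_lit 667) (.e (nat_lit 24628) (nat_lit 9) (.e (nat_lit 336019) (nat_lit 3) (.e (nat_lit 98324) (nat_lit 17) .nil))) .nil)) 
(.lf (nat_lit 138594) (.g (nat_lit 1628) (.e (nat_lit 24628) (nat_lit 9) (.e (nat_lit 336019) (nat_lit 3) (.e (nat_lit 98357) (nat_lit 26) (.e (nat_lit 426448) (nat_lit 20) (.e (nat_lit 114714) (nat_lit 22) (.e (nat_lit 90156) (nat_lit 11) .nil)))))) (.g (nat_lit 4) .nil .nil)))) (.nd (nat_lit 5) 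
(.lf (nat_lit 138578) (.g (nat_lit 3188) (.e (nat_lit 24628) (nat_lit 9) (.e (nat_lit 336019) (nat_lit 3) (.e (nat_lit 98356) (nat_lit 26) (.e (nat_lit 426446) (nat_lit 20) (.e (nat_lit 114716) (nat_lit 22) (.e (nat_lit 90160) (nat_lit 11) .nil)))))) (.g (nat_lit 0) .nil .nil))) 
(.lf (nat_lit 138610) (.g (nat_lit 2000) (.e (nat_lit 24628) (nat_lit 9) (.e (nat_lit 336019) (nat_lit 3) (.e (nat_lit 98358) (nat_lit 26) (.e (nat_lit 426448) (nat_lit 20) (.e (nat_lit 114714) (nat_lit 22) (.e (nat_lit 90156) (nat_lit 11) .nil)))))) (.g (nat_lit 4) .nil .nil))))) (.nd (nat_lit 4) (.nd (nat_lit 5) 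
(.lf (nat_lit 138570) (.g (nat_lit 2144) (.e (nat_lit 24628) (nat_lit 9) (.e (nat_lit 336019) (nat_lit 3) (.e (nat_lit 98355) (nat_lit 26) (.e (nat_lit 426448) (nat_lit 20) (.e (nat_lit 114714) (nat_lit 22) (.e (nat_lit 90159) (nat_lit 11) .nil)))))) (.g (nat_lit 4) .nil .nil))) 
(.lf (nat_lit 138602) (.g (nat_lit 2178) (.e (nat_lit 24628) (nat_lit 9) (.e (nat_lit 336019) (nat_lit 3) (.e (nat_lit 98358) (nat_lit 26) (.e (nat_lit 426444) (nat_lit 19) (.e (nat_lit 106504) (nat_lit 9) .nil))))) .nil))) (.nd (nat_lit 5) 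
(.lf (nat_lit 138586) (.g (nat_lit 2049) (.e (nat_lit 24628) (nat_lit 9) (.e (nat_lit 336019) (nat_lit 3) (.e (nat_lit 98356) (nat_lit 26) (.e (nat_lit 426448) (nat_lit 20) (.e (nat_lit 114716) (nat_lit 22) (.e (nat_lit 90156) (nat_lit 11) .nil)))))) (.g (nat_lit 4) .nil .nil))) 
(.lf (nat_lit 138618) (.g (nat_lit 2030) (.e (nat_lit 24628) (nat_lit 9) (.e (nat_lit 336019) (nat_lit 3) (.e (nat_lit 98358) (nat_lit 26) (.e (nat_lit 426448) (nat_lit 20) (.e (nat_lit 114716) (nat_lit 22) (.e (nat_lit 90159) (nat_lit 11) .nil)))))) (.g (nat_lit 4) .nil .nil)))))) (.nd (nat_lit 3) (.nd (nat_lit 4) (.nd (nat_lit 5) 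
(.lf (nat_lit 138566) (.g (nat_lit 2926) (.e (nat_lit 24628) (nat_lit 9) (.e (nat_lit 336019) (nat_lit 3) (.e (nat_lit 98355) (nat_lit 26) (.e (nat_lit 426446) (nat_lit 20) (.e (nat_lit 114714) (nat_lit 22) (.e (nat_lit 90160) (nat_lit 11) .nil)))))) (.g (nat_lit 0) .nil .nil))) 
(.lf (nat_lit 138598) (.g (nat_lit 1369) (.e (nat_lit 24628) (nat_lit 9) (.e (nat_lit 336019) (nat_lit 3) (.e (nat_lit 98358) (nat_lit 26) (.e (nat_lit 426354) (nat_lit 15) .nil)))) .nil))) (.nd (nat_lit 5) 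
(.lf (nat_lit 138582) (.g (nat_lit 3790) (.e (nat_lit 24628) (nat_lit 9) (.e (nat_lit 336019) (nat_lit 3) (.e (nat_lit 98356) (nat_lit 26) (.e (nat_lit 426448) (nat_lit 20) (.e (nat_lit 114714) (nat_lit 22) (.e (nat_lit 90160) (nat_lit 11) .nil)))))) (.g (nat_lit 0) .nil .nil))) 
(.lf (nat_lit 138614) (.g (nat_lit 1851) (.e (nat_lit 24628) (nat_lit 9) (.e (nat_lit 336019) (nat_lit 3) (.e (nat_lit 98358) (nat_lit 26) (.e (nat_lit 426448) (nat_lit 20) (.e (nat_lit 114715) (nat_lit 22) .nil))))) .nil)))) (.nd (nat_lit 4) (.nd (nat_lit 5) 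
(.lf (nat_lit 138574) (.g (nat_lit 3319) (.e (nat_lit 24628) (nat_lit 9) (.e (nat_lit 336019) (nat_lit 3) (.e (nat_lit 98356) (nat_lit 26) (.e (nat_lit 426446) (nat_lit 20) (.e (nat_lit 114714) (nat_lit 22) (.e (nat_lit 90158) (nat_lit 11) .nil)))))) (.g (nat_lit 6) .nil .nil))) 
(.lf (nat_lit 138606) (.g (nat_lit 3405) (.e (nat_lit 24628) (nat_lit 9) (.e (nat_lit 336019) (nat_lit 3) (.e (nat_lit 98358) (nat_lit 26) (.e (nat_lit 426446) (nat_lit 20) (.e (nat_lit 114714) (nat_lit 22) (.e (nat_lit 90160) (nat_lit 11) .nil)))))) (.g (nat_lit 6) .nil .nil)))) (.nd (nat_lit 5) 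
(.lf (nat_lit 138590) (.g (nat_lit 3206) (.e (nat_lit 24628) (nat_lit 9) (.e (nat_lit 336019) (nat_lit 3) (.e (nat_lit 98356) (nat_lit 26) (.e (nat_lit 426449) (nat_lit 20) (.e (nat_lit 114714) (nat_lit 22) (.e (nat_lit 90158) (nat_lit 11) .nil)))))) (.g (nat_lit 6) .nil .nil))) 
(.lf (nat_lit 138622) (.g (nat_lit 2494) (.e (nat_lit 24628) (nat_lit 9) (.e (nat_lit 336019) (nat_lit 3) (.e (nat_lit 98358) (nat_lit 26) (.e (nat_lit 426449) (nat_lit 20) (.e (nat_lit 114716) (nat_lit 22) (.e (nat_lit 90157) (nat_lit 11) .nil)))))) (.g (nat_lit 5) .nil .nil)))))))) (.nd (nat_lit 1) (.nd (nat_lit 2) (.nd (nat_lit 3) (.nd (nat_lit 4) (.nd (nat_lit 5) 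
(.lf (nat_lit 138561) (.g (nat_lit 1405) (.e (nat_lit 24628) (nat_lit 9) (.e (nat_lit 336000) (nat_lit 1) (.e (nat_lit 57684) (nat_lit 155) (.e (nat_lit 122919) (nat_lit 15) (.e (nat_lit 368384) (nat_lit 22) (.e (nat_lit 778462) (nat_lit 11) .nil)))))) (.g (nat_lit 4) .nil .nil))) 
(.lf (nat_lit 138593) (.g (nat_lit 2377) (.e (nat_lit 24628) (nat_lit 9) (.e (nat_lit 336019) (nat_lit 3) (.e (nat_lit 98357) (nat_lit 26) (.e (nat_lit 426446) (nat_lit 20) (.e (nat_lit 114716) (nat_lit 22) (.e (nat_lit 90157) (nat_lit 11) .nil)))))) (.g (nat_lit 6) .nil .nil)))) (.nd (nat_lit 5) 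
(.lf (nat_lit 138577) (.g (nat_lit 1985) (.e (nat_lit 24628) (nat_lit 9) (.e (nat_lit 336019) (nat_lit 3) (.e (nat_lit 98356) (nat_lit 26) (.e (nat_lit 426446) (nat_lit 20) (.e (nat_lit 114716) (nat_lit 22) (.e (nat_lit 90159) (nat_lit 11) .nil)))))) (.g (nat_lit 4) .nil .nil))) 
(.lf (nat_lit 138609) (.g (nat_lit 2161) (.e (nat_lit 24628) (nat_lit 9) (.e (nat_lit 336019) (nat_lit 3) (.e (nat_lit 98358) (nat_lit 26) (.e (nat_lit 426446) (nat_lit 20) (.e (nat_lit 114716) (nat_lit 22) (.e (nat_lit 90159) (nat_lit 11) .nil)))))) (.g (nat_lit 4) .nil .nil))))) (.nd (nat_lit 4) (.nd (nat_lit 5) 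
(.lf (nat_lit 138569) (.g (nat_lit 2450) (.e (nat_lit 24628) (nat_lit 9) (.e (nat_lit 336019) (nat_lit 3) (.e (nat_lit 98355) (nat_lit 26) (.e (nat_lit 426448) (nat_lit 20) (.e (nat_lit 114714) (nat_lit 22) (.e (nat_lit 90157) (nat_lit 11) .nil)))))) (.g (nat_lit 5) .nil .nil))) 
(.lf (nat_lit 138601) (.g (nat_lit 1779) (.e (nat_lit 24628) (nat_lit 9) (.e (nat_lit 336019) (nat_lit 3) (.e (nat_lit 98358) (nat_lit 26) (.e (nat_lit 426392) (nat_lit 15) (.e (nat_lit 2205) (nat_lit 144) .nil))))) .nil))) (.nd (nat_lit 5) 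
(.lf (nat_lit 138585) (.g (nat_lit 2316) (.e (nat_lit 24628) (nat_lit 9) (.e (nat_lit 336019) (nat_lit 3) (.e (nat_lit 98356) (nat_lit 26) (.e (nat_lit 426448) (nat_lit 20) (.e (nat_lit 114715) (nat_lit 22) (.e (nat_lit 90160) (nat_lit 11) .nil)))))) (.g (nat_lit 4) .nil .nil))) 
(.lf (nat_lit 138617) (.g (nat_lit 2591) (.e (nat_lit 24628) (nat_lit 9) (.e (nat_lit 336019) (nat_lit 3) (.e (nat_lit 98358) (nat_lit 26) (.e (nat_lit 426448) (nat_lit 20) (.e (nat_lit 114716) (nat_lit 22) (.e (nat_lit 90157) (nat_lit 11) .nil)))))) (.g (nat_lit 5) .nil .nil)))))) (.nd (nat_lit 3) (.nd (nat_lit 4) (.nd (nat_lit 5) 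
(.lf (nat_lit 138565) (.g (nat_lit 3041) (.e (nat_lit 24628) (nat_lit 9) (.e (nat_lit 336019) (nat_lit 3) (.e (nat_lit 98355) (nat_lit 26) (.e (nat_lit 426446) (nat_lit 20) (.e (nat_lit 114714) (nat_lit 22) (.e (nat_lit 90158) (nat_lit 11) .nil)))))) (.g (nat_lit 6) .nil .nil))) 
(.lf (nat_lit 138597) (.g (nat_lit 1664) (.e (nat_lit 24628) (nat_lit 9) (.e (nat_lit 336019) (nat_lit 3) (.e (nat_lit 98357) (nat_lit 26) (.e (nat_lit 426448) (nat_lit 20) (.e (nat_lit 114716) (nat_lit 22) (.e (nat_lit 90159) (nat_lit 11) .nil)))))) (.g (nat_lit 4) .nil .nil)))) (.nd (nat_lit 5) 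
(.lf (nat_lit 138581) (.g (nat_lit 3343) (.e (nat_lit 24628) (nat_lit 9) (.e (nat_lit 336019) (nat_lit 3) (.e (nat_lit 98356) (nat_lit 26) (.e (nat_lit 426448) (nat_lit 20) (.e (nat_lit 114714) (nat_lit 22) (.e (nat_lit 90159) (nat_lit 11) .nil)))))) (.g (nat_lit 6) .nil .nil))) 
(.lf (nat_lit 138613) (.g (nat_lit 3404) (.e (nat_lit 24628) (nat_lit 9) (.e (nat_lit 336019) (nat_lit 3) (.e (nat_lit 98358) (nat_lit 26) (.e (nat_lit 426448) (nat_lit 20) (.e (nat_lit 114714) (nat_lit 22) (.e (nat_lit 90160) (nat_lit 11) .nil)))))) (.g (nat_lit 0) .nil .nil))))) (.nd (nat_lit 4) (.nd (nat_lit 5) 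
(.lf (nat_lit 138573) (.g (nat_lit 2746) (.e (nat_lit 24628) (nat_lit 9) (.e (nat_lit 336019) (nat_lit 3) (.e (nat_lit 98356) (nat_lit 26) (.e (nat_lit 426446) (nat_lit 20) (.e (nat_lit 114714) (nat_lit 22) (.e (nat_lit 90157) (nat_lit 11) .nil)))))) (.g (nat_lit 5) .nil .nil))) 
(.lf (nat_lit 138605) (.g (nat_lit 2604) (.e (nat_lit 24628) (nat_lit 9) (.e (nat_lit 336019) (nat_lit 3) (.e (nat_lit 98358) (nat_lit 26) (.e (nat_lit 426446) (nat_lit 20) (.e (nat_lit 114714) (nat_lit 22) (.e (nat_lit 90159) (nat_lit 11) .nil)))))) (.g (nat_lit 5) .nil .nil)))) (.nd (nat_lit 5) 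
(.lf (nat_lit 138589) (.g (nat_lit 2653) (.e (nat_lit 24628) (nat_lit 9) (.e (nat_lit 336019) (nat_lit 3) (.e (nat_lit 98356) (nat_lit 26) (.e (nat_lit 426449) (nat_lit 20) (.e (nat_lit 114714) (nat_lit 22) (.e (nat_lit 90157) (nat_lit 11) .nil)))))) (.g (nat_lit 5) .nil .nil))) 
(.lf (nat_lit 138621) (.g (nat_lit 3272) (.e (nat_lit 24628) (nat_lit 9) (.e (nat_lit 336019) (nat_lit 3) (.e (nat_lit 98358) (nat_lit 26) (.e (nat_lit 426449) (nat_lit 20) (.e (nat_lit 114714) (nat_lit 22) (.e (nat_lit 90160) (nat_lit 11) .nil)))))) (.g (nat_lit 6) .nil .nil))))))) (.nd (nat_lit 2) (.nd (nat_lit 3) (.nd (nat_lit 4) (.nd (nat_lit 5) 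
(.lf (nat_lit 138563) (.g (nat_lit 2655) (.e (nat_lit 24628) (nat_lit 9) (.e (nat_lit 336019) (nat_lit 3) (.e (nat_lit 98354) (nat_lit 26) (.e (nat_lit 426448) (nat_lit 20) (.e (nat_lit 114714) (nat_lit 22) (.e (nat_lit 90158) (nat_lit 11) .nil)))))) (.g (nat_lit 4) .nil .nil))) 
(.lf (nat_lit 138595) (.g (nat_lit 2945) (.e (nat_lit 24628) (nat_lit 9) (.e (nat_lit 336019) (nat_lit 3) (.e (nat_lit 98357) (nat_lit 26) (.e (nat_lit 426448) (nat_lit 20) (.e (nat_lit 114714) (nat_lit 22) (.e (nat_lit 90157) (nat_lit 11) .nil)))))) (.g (nat_lit 6) .nil .nil)))) (.nd (nat_lit 5) 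
(.lf (nat_lit 138579) (.g (nat_lit 2227) (.e (nat_lit 24628) (nat_lit 9) (.e (nat_lit 336019) (nat_lit 3) (.e (nat_lit 98356) (nat_lit 26) (.e (nat_lit 426448) (nat_lit 20) (.e (nat_lit 114714) (nat_lit 22) (.e (nat_lit 90156) (nat_lit 11) .nil)))))) (.g (nat_lit 4) .nil .nil))) 
(.lf (nat_lit 138611) (.g (nat_lit 3363) (.e (nat_lit 24628) (nat_lit 9) (.e (nat_lit 336019) (nat_lit 3) (.e (nat_lit 98358) (nat_lit 26) (.e (nat_lit 426448) (nat_lit 20) (.e (nat_lit 114714) (nat_lit 22) (.e (nat_lit 90157) (nat_lit 11) .nil)))))) (.g (nat_lit 0) .nil .nil))))) (.nd (nat_lit 4) (.nd (nat_lit 5) 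
(.lf (nat_lit 138571) (.g (nat_lit 2510) (.e (nat_lit 24628) (nat_lit 9) (.e (nat_lit 336019) (nat_lit 3) (.e (nat_lit 98355) (nat_lit 26) (.e (nat_lit 426448) (nat_lit 20) (.e (nat_lit 114716) (nat_lit 22) (.e (nat_lit 90158) (nat_lit 11) .nil)))))) (.g (nat_lit 5) .nil .nil))) 
(.lf (nat_lit 138603) (.g (nat_lit 2805) (.e (nat_lit 24628) (nat_lit 9) (.e (nat_lit 336019) (nat_lit 3) (.e (nat_lit 98358) (nat_lit 26) (.e (nat_lit 426446) (nat_lit 20) (.e (nat_lit 114714) (nat_lit 22) (.e (nat_lit 90157) (nat_lit 11) .nil)))))) (.g (nat_lit 5) .nil .nil)))) (.nd (nat_lit 5) 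
(.lf (nat_lit 138587) (.g (nat_lit 2852) (.e (nat_lit 24628) (nat_lit 9) (.e (nat_lit 336019) (nat_lit 3) (.e (nat_lit 98356) (nat_lit 26) (.e (nat_lit 426448) (nat_lit 20) (.e (nat_lit 114716) (nat_lit 22) (.e (nat_lit 90157) (nat_lit 11) .nil)))))) (.g (nat_lit 5) .nil .nil))) 
(.lf (nat_lit 138619) (.g (nat_lit 2623) (.e (nat_lit 24628) (nat_lit 9) (.e (nat_lit 336019) (nat_lit 3) (.e (nat_lit 98358) (nat_lit 26) (.e (nat_lit 426449) (nat_lit 20) (.e (nat_lit 114714) (nat_lit 22) (.e (nat_lit 90157) (nat_lit 11) .nil)))))) (.g (nat_lit 4) .nil .nil)))))) (.nd (nat_lit 3) (.nd (nat_lit 4) (.nd (nat_lit 5) 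
(.lf (nat_lit 138567) (.g (nat_lit 2556) (.e (nat_lit 24628) (nat_lit 9) (.e (nat_lit 336019) (nat_lit 3) (.e (nat_lit 98355) (nat_lit 26) (.e (nat_lit 426446) (nat_lit 20) (.e (nat_lit 114716) (nat_lit 22) (.e (nat_lit 90157) (nat_lit 11) .nil)))))) (.g (nat_lit 6) .nil .nil))) 
(.lf (nat_lit 138599) (.g (nat_lit 2016) (.e (nat_lit 24628) (nat_lit 9) (.e (nat_lit 336019) (nat_lit 3) (.e (nat_lit 98358) (nat_lit 26) (.e (nat_lit 426354) (nat_lit 15) (.e (nat_lit 2203) (nat_lit 144) .nil))))) .nil))) (.nd (nat_lit 5) 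
(.lf (nat_lit 138583) (.g (nat_lit 3428) (.e (nat_lit 24628) (nat_lit 9) (.e (nat_lit 336019) (nat_lit 3) (.e (nat_lit 98356) (nat_lit 26) (.e (nat_lit 426448) (nat_lit 20) (.e (nat_lit 114715) (nat_lit 22) (.e (nat_lit 90156) (nat_lit 11) .nil)))))) (.g (nat_lit 5) .nil .nil))) 
(.lf (nat_lit 138615) (.g (nat_lit 3137) (.e (nat_lit 24628) (nat_lit 9) (.e (nat_lit 336019) (nat_lit 3) (.e (nat_lit 98358) (nat_lit 26) (.e (nat_lit 426448) (nat_lit 20) (.e (nat_lit 114715) (nat_lit 22) (.e (nat_lit 90156) (nat_lit 11) .nil)))))) (.g (nat_lit 6) .nil .nil))))) (.nd (nat_lit 4) (.nd (nat_lit 5) 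
(.lf (nat_lit 138575) (.g (nat_lit 2506) (.e (nat_lit 24628) (nat_lit 9) (.e (nat_lit 336019) (nat_lit 3) (.e (nat_lit 98356) (nat_lit 26) (.e (nat_lit 426446) (nat_lit 20) (.e (nat_lit 114714) (nat_lit 22) (.e (nat_lit 90159) (nat_lit 11) .nil)))))) (.g (nat_lit 5) .nil .nil))) 
(.lf (nat_lit 138607) (.g (nat_lit 2144) (.e (nat_lit 24628) (nat_lit 9) (.e (nat_lit 336019) (nat_lit 3) (.e (nat_lit 98358) (nat_lit 26) (.e (nat_lit 426446) (nat_lit 20) (.e (nat_lit 114715) (nat_lit 22) (.e (nat_lit 90156) (nat_lit 11) .nil)))))) (.g (nat_lit 4) .nil .nil)))) (.nd (nat_lit 5) 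
(.lf (nat_lit 138591) (.g (nat_lit 2424) (.e (nat_lit 24628) (nat_lit 9) (.e (nat_lit 336019) (nat_lit 3) (.e (nat_lit 98356) (nat_lit 26) (.e (nat_lit 426449) (nat_lit 20) (.e (nat_lit 114714) (nat_lit 22) (.e (nat_lit 90159) (nat_lit 11) .nil)))))) (.g (nat_lit 5) .nil .nil))) 
(.lf (nat_lit 138623) (.g (nat_lit 3001) (.e (nat_lit 24628) (nat_lit 9) (.e (nat_lit 336019) (nat_lit 3) (.e (nat_lit 98358) (nat_lit 26) (.e (nat_lit 426449) (nat_lit 20) (.e (nat_lit 114716) (nat_lit 22) (.e (nat_lit 90158) (nat_lit 11) .nil)))))) (.g (nat_lit 6) .nil .nil)))))))))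

noncomputable def tv1842 : DT := (.nd (nat_lit 0) (.nd (nat_lit 1) (.nd (nat_lit 2) (.nd (nat_lit 3) (.nd (nat_lit 4) (.nd (nat_lit 5) 
(.lf (nat_lit 138624) (.g (nat_lit 2859) (.e (nat_lit 24628) (nat_lit 9) (.e (nat_lit 336019) (nat_lit 3) (.e (nat_lit 98358) (nat_lit 26) (.e (nat_lit 426449) (nat_lit 20) (.e (nat_lit 114716) (nat_lit 22) (.e (nat_lit 90159) (nat_lit 11) .nil)))))) (.g (nat_lit 5) .nil .nil))) 
(.lf (nat_lit 138656) (.g (nat_lit 2058) (.e (nat_lit 24628) (nat_lit 9) (.e (nat_lit 336019) (nat_lit 3) (.e (nat_lit 98385) (nat_lit 32) (.e (nat_lit 475214) (nat_lit 42) (.e (nat_lit 720941) (nat_lit 22) (.e (nat_lit 90160) (nat_lit 11) .nil)))))) (.g (nat_lit 4) .nil .nil)))) (.nd (nat_lit 5) 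
(.lf (nat_lit 138640) (.g (nat_lit 1401) (.e (nat_lit 24628) (nat_lit 9) (.e (nat_lit 336019) (nat_lit 3) (.e (nat_lit 98384) (nat_lit 32) (.e (nat_lit 475213) (nat_lit 42) .nil)))) .nil)) 
(.lf (nat_lit 138672) (.g (nat_lit 2096) (.e (nat_lit 24628) (nat_lit 9) (.e (nat_lit 336019) (nat_lit 3) (.e (nat_lit 98386) (nat_lit 32) (.e (nat_lit 475214) (nat_lit 42) (.e (nat_lit 720941) (nat_lit 22) .nil))))) .nil)))) (.nd (nat_lit 4) (.nd (nat_lit 5) 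
(.lf (nat_lit 138632) (.g (nat_lit 2313) (.e (nat_lit 24628) (nat_lit 9) (.e (nat_lit 336019) (nat_lit 3) (.e (nat_lit 98384) (nat_lit 32) (.e (nat_lit 475199) (nat_lit 40) (.e (nat_lit 704617) (nat_lit 9) (.e (nat_lit 1232) (nat_lit 91) (.e (nat_lit 90160) (nat_lit 11) .nil))))))) (.g (nat_lit 4) .nil .nil))) 
(.lf (nat_lit 138664) (.g (nat_lit 2740) (.e (nat_lit 24628) (nat_lit 9) (.e (nat_lit 336019) (nat_lit 3) (.e (nat_lit 98386) (nat_lit 32) (.e (nat_lit 475213) (nat_lit 42) (.e (nat_lit 720938) (nat_lit 22) (.e (nat_lit 90160) (nat_lit 11) .nil)))))) (.g (nat_lit 6) .nil .nil)))) (.nd (nat_lit 5) 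
(.lf (nat_lit 138648) (.g (nat_lit 2174) (.e (nat_lit 24628) (nat_lit 9) (.e (nat_lit 336019) (nat_lit 3) (.e (nat_lit 98384) (nat_lit 32) (.e (nat_lit 475214) (nat_lit 42) (.e (nat_lit 720939) (nat_lit 22) (.e (nat_lit 90157) (nat_lit 11) .nil)))))) (.g (nat_lit 4) .nil .nil))) 
(.lf (nat_lit 138680) (.g (nat_lit 3484) (.e (nat_lit 24628) (nat_lit 9) (.e (nat_lit 336019) (nat_lit 3) (.e (nat_lit 98389) (nat_lit 33) (.e (nat_lit 491558) (nat_lit 10) (.e (nat_lit 344133) (nat_lit 26) (.e (nat_lit 557086) (nat_lit 11) .nil)))))) (.g (nat_lit 6) .nil .nil)))))) (.nd (nat_lit 3) (.nd (nat_lit 4) (.nd (nat_lit 5) 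
(.lf (nat_lit 138628) (.g (nat_lit 773) (.e (nat_lit 24628) (nat_lit 9) (.e (nat_lit 336019) (nat_lit 3) (.e (nat_lit 98361) (nat_lit 26) .nil))) .nil)) 
(.lf (nat_lit 138660) (.g (nat_lit 1936) (.e (nat_lit 24628) (nat_lit 9) (.e (nat_lit 336019) (nat_lit 3) (.e (nat_lit 98386) (nat_lit 32) (.e (nat_lit 475212) (nat_lit 42) (.e (nat_lit 720941) (nat_lit 22) (.e (nat_lit 90156) (nat_lit 11) .nil)))))) (.g (nat_lit 4) .nil .nil)))) (.nd (nat_lit 5) 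
(.lf (nat_lit 138644) (.g (nat_lit 3350) (.e (nat_lit 24628) (nat_lit 9) (.e (nat_lit 336019) (nat_lit 3) (.e (nat_lit 98384) (nat_lit 32) (.e (nat_lit 475214) (nat_lit 42) (.e (nat_lit 720935) (nat_lit 22) (.e (nat_lit 90158) (nat_lit 11) .nil)))))) (.g (nat_lit 4) .nil .nil))) 
(.lf (nat_lit 138676) (.g (nat_lit 2579) (.e (nat_lit 24628) (nat_lit 9) (.e (nat_lit 336019) (nat_lit 3) (.e (nat_lit 98388) (nat_lit 33) (.e (nat_lit 491560) (nat_lit 10) (.e (nat_lit 344131) (nat_lit 26) (.e (nat_lit 557085) (nat_lit 11) .nil)))))) (.g (nat_lit 4) .nil .nil))))) (.nd (nat_lit 4) (.nd (nat_lit 5) 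
(.lf (nat_lit 138636) (.g (nat_lit 2034) (.e (nat_lit 24628) (nat_lit 9) (.e (nat_lit 336019) (nat_lit 3) (.e (nat_lit 98384) (nat_lit 32) (.e (nat_lit 475212) (nat_lit 42) (.e (nat_lit 720938) (nat_lit 22) (.e (nat_lit 90156) (nat_lit 11) .nil)))))) (.g (nat_lit 4) .nil .nil))) 
(.lf (nat_lit 138668) (.g (nat_lit 2764) (.e (nat_lit 24628) (nat_lit 9) (.e (nat_lit 336019) (nat_lit 3) (.e (nat_lit 98386) (nat_lit 32) (.e (nat_lit 475214) (nat_lit 42) (.e (nat_lit 720938) (nat_lit 22) (.e (nat_lit 90159) (nat_lit 11) .nil)))))) (.g (nat_lit 5) .nil .nil)))) (.nd (nat_lit 5) 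
(.lf (nat_lit 138652) (.g (nat_lit 1724) (.e (nat_lit 24628) (nat_lit 9) (.e (nat_lit 336019) (nat_lit 3) (.e (nat_lit 98385) (nat_lit 32) (.e (nat_lit 475212) (nat_lit 42) (.e (nat_lit 720941) (nat_lit 22) (.e (nat_lit 90156) (nat_lit 11) .nil)))))) (.g (nat_lit 4) .nil .nil))) 
(.lf (nat_lit 138684) (.g (nat_lit 3562) (.e (nat_lit 24628) (nat_lit 9) (.e (nat_lit 336019) (nat_lit 3) (.e (nat_lit 98389) (nat_lit 33) (.e (nat_lit 491560) (nat_lit 10) (.e (nat_lit 344133) (nat_lit 26) (.e (nat_lit 557086) (nat_lit 11) .nil)))))) (.g (nat_lit 5) .nil .nil))))))) (.nd (nat_lit 2) (.nd (nat_lit 3) (.nd (nat_lit 4) (.nd (nat_lit 5) 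
(.lf (nat_lit 138626) (.g (nat_lit 1456) (.e (nat_lit 24628) (nat_lit 9) (.e (nat_lit 336019) (nat_lit 3) (.e (nat_lit 98358) (nat_lit 26) (.e (nat_lit 433920) (nat_lit 20) .nil)))) .nil)) 
(.lf (nat_lit 138658) (.g (nat_lit 2127) (.e (nat_lit 24628) (nat_lit 9) (.e (nat_lit 336019) (nat_lit 3) (.e (nat_lit 98386) (nat_lit 32) (.e (nat_lit 475212) (nat_lit 42) (.e (nat_lit 720937) (nat_lit 22) (.e (nat_lit 90159) (nat_lit 11) .nil)))))) (.g (nat_lit 4) .nil .nil)))) (.nd (nat_lit 5) 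
(.lf (nat_lit 138642) (.g (nat_lit 2163) (.e (nat_lit 24628) (nat_lit 9) (.e (nat_lit 336019) (nat_lit 3) (.e (nat_lit 98384) (nat_lit 32) (.e (nat_lit 475213) (nat_lit 42) (.e (nat_lit 720937) (nat_lit 22) (.e (nat_lit 90160) (nat_lit 11) .nil)))))) (.g (nat_lit 4) .nil .nil))) 
(.lf (nat_lit 138674) (.g (nat_lit 1947) (.e (nat_lit 24628) (nat_lit 9) (.e (nat_lit 336019) (nat_lit 3) (.e (nat_lit 98388) (nat_lit 33) (.e (nat_lit 491560) (nat_lit 10) (.e (nat_lit 344130) (nat_lit 26) .nil))))) .nil)))) (.nd (nat_lit 4) (.nd (nat_lit 5) 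
(.lf (nat_lit 138634) (.g (nat_lit 1205) (.e (nat_lit 24628) (nat_lit 9) (.e (nat_lit 336019) (nat_lit 3) (.e (nat_lit 98384) (nat_lit 32) (.e (nat_lit 475201) (nat_lit 40) .nil)))) .nil)) 
(.lf (nat_lit 138666) (.g (nat_lit 2764) (.e (nat_lit 24628) (nat_lit 9) (.e (nat_lit 336019) (nat_lit 3) (.e (nat_lit 98386) (nat_lit 32) (.e (nat_lit 475214) (nat_lit 42) (.e (nat_lit 720937) (nat_lit 22) (.e (nat_lit 90159) (nat_lit 11) .nil)))))) (.g (nat_lit 5) .nil .nil)))) (.nd (nat_lit 5) 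
(.lf (nat_lit 138650) (.g (nat_lit 2797) (.e (nat_lit 24628) (nat_lit 9) (.e (nat_lit 336019) (nat_lit 3) (.e (nat_lit 98384) (nat_lit 32) (.e (nat_lit 475214) (nat_lit 42) (.e (nat_lit 720941) (nat_lit 22) (.e (nat_lit 90159) (nat_lit 11) .nil)))))) (.g (nat_lit 5) .nil .nil))) 
(.lf (nat_lit 138682) (.g (nat_lit 3313) (.e (nat_lit 24628) (nat_lit 9) (.e (nat_lit 336019) (nat_lit 3) (.e (nat_lit 98389) (nat_lit 33) (.e (nat_lit 491560) (nat_lit 10) (.e (nat_lit 344131) (nat_lit 26) (.e (nat_lit 557086) (nat_lit 11) .nil)))))) (.g (nat_lit 0) .nil .nil)))))) (.nd (nat_lit 3) (.nd (nat_lit 4) (.nd (nat_lit 5) 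
(.lf (nat_lit 138630) (.g (nat_lit 365) (.e (nat_lit 24628) (nat_lit 9) (.e (nat_lit 336019) (nat_lit 3) (.e (nat_lit 98384) (nat_lit 32) .nil))) .nil)) 
(.lf (nat_lit 138662) (.g (nat_lit 1003) (.e (nat_lit 24628) (nat_lit 9) (.e (nat_lit 336019) (nat_lit 3) (.e (nat_lit 98386) (nat_lit 32) (.e (nat_lit 475213) (nat_lit 42) .nil)))) .nil))) (.nd (nat_lit 5) 
(.lf (nat_lit 138646) (.g (nat_lit 1804) (.e (nat_lit 24628) (nat_lit 9) (.e (nat_lit 336019) (nat_lit 3) (.e (nat_lit 98384) (nat_lit 32) (.e (nat_lit 475214) (nat_lit 42) (.e (nat_lit 720938) (nat_lit 22) (.e (nat_lit 90156) (nat_lit 11) .nil)))))) (.g (nat_lit 4) .nil .nil))) 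
(.lf (nat_lit 138678) (.g (nat_lit 3035) (.e (nat_lit 24628) (nat_lit 9) (.e (nat_lit 336019) (nat_lit 3) (.e (nat_lit 98388) (nat_lit 33) (.e (nat_lit 491560) (nat_lit 10) (.e (nat_lit 344132) (nat_lit 26) (.e (nat_lit 557085) (nat_lit 11) .nil)))))) (.g (nat_lit 4) .nil .nil))))) (.nd (nat_lit 4) (.nd (nat_lit 5) 
(.lf (nat_lit 138638) (.g (nat_lit 2211) (.e (nat_lit 24628) (nat_lit 9) (.e (nat_lit 336019) (nat_lit 3) (.e (nat_lit 98384) (nat_lit 32) (.e (nat_lit 475212) (nat_lit 42) (.e (nat_lit 720941) (nat_lit 22) (.e (nat_lit 90156) (nat_lit 11) .nil)))))) (.g (nat_lit 4) .nil .nil))) 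
(.lf (nat_lit 138670) (.g (nat_lit 2772) (.e (nat_lit 24628) (nat_lit 9) (.e (nat_lit 336019) (nat_lit 3) (.e (nat_lit 98386) (nat_lit 32) (.e (nat_lit 475214) (nat_lit 42) (.e (nat_lit 720939) (nat_lit 22) (.e (nat_lit 90158) (nat_lit 11) .nil)))))) (.g (nat_lit 5) .nil .nil)))) (.nd (nat_lit 5) 
(.lf (nat_lit 138654) (.g (nat_lit 1781) (.e (nat_lit 24628) (nat_lit 9) (.e (nat_lit 336019) (nat_lit 3) (.e (nat_lit 98385) (nat_lit 32) (.e (nat_lit 475214) (nat_lit 42) (.e (nat_lit 720939) (nat_lit 22) .nil))))) .nil)) 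
(.lf (nat_lit 138686) (.g (nat_lit 4393) (.e (nat_lit 24628) (nat_lit 9) (.e (nat_lit 336324) (nat_lit 18) (.e (nat_lit 204831) (nat_lit 18) (.e (nat_lit 65280) (nat_lit 211) .nil)))) .nil))))))) (.nd (nat_lit 1) (.nd (nat_lit 2) (.nd (nat_lit 3) (.nd (nat_lit 4) (.nd (nat_lit 5) 
(.lf (nat_lit 138625) (.g (nat_lit 2934) (.e (nat_lit 24628) (nat_lit 9) (.e (nat_lit 336019) (nat_lit 3) (.e (nat_lit 98358) (nat_lit 26) (.e (nat_lit 426449) (nat_lit 20) (.e (nat_lit 114716) (nat_lit 22) (.e (nat_lit 90160) (nat_lit 11) .nil)))))) (.g (nat_lit 6) .nil .nil))) 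
(.lf (nat_lit 138657) (.g (nat_lit 409) (.e (nat_lit 24628) (nat_lit 9) (.e (nat_lit 336019) (nat_lit 3) (.e (nat_lit 98386) (nat_lit 32) .nil))) .nil))) (.nd (nat_lit 5) 
(.lf (nat_lit 138641) (.g (nat_lit 2186) (.e (nat_lit 24628) (nat_lit 9) (.e (nat_lit 336019) (nat_lit 3) (.e (nat_lit 98384) (nat_lit 32) (.e (nat_lit 475213) (nat_lit 42) (.e (nat_lit 720937) (nat_lit 22) (.e (nat_lit 90158) (nat_lit 11) .nil)))))) (.g (nat_lit 4) .nil .nil))) 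
(.lf (nat_lit 138673) (.g (nat_lit 2531) (.e (nat_lit 24628) (nat_lit 9) (.e (nat_lit 336019) (nat_lit 3) (.e (nat_lit 98386) (nat_lit 32) (.e (nat_lit 475214) (nat_lit 42) (.e (nat_lit 720941) (nat_lit 22) (.e (nat_lit 90159) (nat_lit 11) .nil)))))) (.g (nat_lit 4) .nil .nil))))) (.nd (nat_lit 4) (.nd (nat_lit 5) 
(.lf (nat_lit 138633) (.g (nat_lit 2480) (.e (nat_lit 24628) (nat_lit 9) (.e (nat_lit 336019) (nat_lit 3) (.e (nat_lit 98384) (nat_lit 32) (.e (nat_lit 475199) (nat_lit 40) (.e (nat_lit 704707) (nat_lit 9) (.e (nat_lit 1228) (nat_lit 91) (.e (nat_lit 90158) (nat_lit 11) .nil))))))) (.g (nat_lit 4) .nil .nil))) 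
(.lf (nat_lit 138665) (.g (nat_lit 1675) (.e (nat_lit 24628) (nat_lit 9) (.e (nat_lit 336019) (nat_lit 3) (.e (nat_lit 98386) (nat_lit 32) (.e (nat_lit 475214) (nat_lit 42) (.e (nat_lit 720937) (nat_lit 22) .nil))))) .nil))) (.nd (nat_lit 5) 
(.lf (nat_lit 138649) (.g (nat_lit 2147) (.e (nat_lit 24628) (nat_lit 9) (.e (nat_lit 336019) (nat_lit 3) (.e (nat_lit 98384) (nat_lit 32) (.e (nat_lit 475214) (nat_lit 42) (.e (nat_lit 720941) (nat_lit 22) (.e (nat_lit 90156) (nat_lit 11) .nil)))))) (.g (nat_lit 4) .nil .nil))) 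
(.lf (nat_lit 138681) (.g (nat_lit 1991) (.e (nat_lit 24628) (nat_lit 9) (.e (nat_lit 336019) (nat_lit 3) (.e (nat_lit 98389) (nat_lit 33) (.e (nat_lit 491560) (nat_lit 10) (.e (nat_lit 344130) (nat_lit 26) (.e (nat_lit 557086) (nat_lit 11) .nil)))))) (.g (nat_lit 4) .nil .nil)))))) (.nd (nat_lit 3) (.nd (nat_lit 4) (.nd (nat_lit 5) 
(.lf (nat_lit 138629) (.g (nat_lit 723) (.e (nat_lit 24628) (nat_lit 9) (.e (nat_lit 336019) (nat_lit 3) (.e (nat_lit 98363) (nat_lit 26) .nil))) .nil)) 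
(.lf (nat_lit 138661) (.g (nat_lit 2574) (.e (nat_lit 24628) (nat_lit 9) (.e (nat_lit 336019) (nat_lit 3) (.e (nat_lit 98386) (nat_lit 32) (.e (nat_lit 475212) (nat_lit 42) (.e (nat_lit 720941) (nat_lit 22) (.e (nat_lit 90159) (nat_lit 11) .nil)))))) (.g (nat_lit 5) .nil .nil)))) (.nd (nat_lit 5) 
(.lf (nat_lit 138645) (.g (nat_lit 2619) (.e (nat_lit 24628) (nat_lit 9) (.e (nat_lit 336019) (nat_lit 3) (.e (nat_lit 98384) (nat_lit 32) (.e (nat_lit 475214) (nat_lit 42) (.e (nat_lit 720937) (nat_lit 22) (.e (nat_lit 90159) (nat_lit 11) .nil)))))) (.g (nat_lit 5) .nil .nil))) 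
(.lf (nat_lit 138677) (.g (nat_lit 2849) (.e (nat_lit 24628) (nat_lit 9) (.e (nat_lit 336019) (nat_lit 3) (.e (nat_lit 98388) (nat_lit 33) (.e (nat_lit 491560) (nat_lit 10) (.e (nat_lit 344131) (nat_lit 26) (.e (nat_lit 557086) (nat_lit 11) .nil)))))) (.g (nat_lit 4) .nil .nil))))) (.nd (nat_lit 4) (.nd (nat_lit 5) 
(.lf (nat_lit 138637) (.g (nat_lit 2863) (.e (nat_lit 24628) (nat_lit 9) (.e (nat_lit 336019) (nat_lit 3) (.e (nat_lit 98384) (nat_lit 32) (.e (nat_lit 475212) (nat_lit 42) (.e (nat_lit 720938) (nat_lit 22) (.e (nat_lit 90159) (nat_lit 11) .nil)))))) (.g (nat_lit 6) .nil .nil))) 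
(.lf (nat_lit 138669) (.g (nat_lit 2150) (.e (nat_lit 24628) (nat_lit 9) (.e (nat_lit 336019) (nat_lit 3) (.e (nat_lit 98386) (nat_lit 32) (.e (nat_lit 475214) (nat_lit 42) (.e (nat_lit 720939) (nat_lit 22) .nil))))) .nil))) (.nd (nat_lit 5) 
(.lf (nat_lit 138653) (.g (nat_lit 2153) (.e (nat_lit 24628) (nat_lit 9) (.e (nat_lit 336019) (nat_lit 3) (.e (nat_lit 98385) (nat_lit 32) (.e (nat_lit 475214) (nat_lit 42) (.e (nat_lit 720937) (nat_lit 22) (.e (nat_lit 90159) (nat_lit 11) .nil)))))) (.g (nat_lit 5) .nil .nil))) 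
(.lf (nat_lit 138685) (.g (nat_lit 295) (.e (nat_lit 24628) (nat_lit 9) (.e (nat_lit 336240) (nat_lit 15) (.e (nat_lit 3342) (nat_lit 205) .nil))) .nil)))))) (.nd (nat_lit 2) (.nd (nat_lit 3) (.nd (nat_lit 4) (.nd (nat_lit 5) 
(.lf (nat_lit 138627) (.g (nat_lit 1465) (.e (nat_lit 24628) (nat_lit 9) (.e (nat_lit 336019) (nat_lit 3) (.e (nat_lit 98359) (nat_lit 26) (.e (nat_lit 433920) (nat_lit 20) .nil)))) .nil)) 
(.lf (nat_lit 138659) (.g (nat_lit 2563) (.e (nat_lit 24628) (nat_lit 9) (.e (nat_lit 336019) (nat_lit 3) (.e (nat_lit 98386) (nat_lit 32) (.e (nat_lit 475212) (nat_lit 42) (.e (nat_lit 720938) (nat_lit 22) (.e (nat_lit 90159) (nat_lit 11) .nil)))))) (.g (nat_lit 5) .nil .nil)))) (.nd (nat_lit 5) 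
(.lf (nat_lit 138643) (.g (nat_lit 3015) (.e (nat_lit 24628) (nat_lit 9) (.e (nat_lit 336019) (nat_lit 3) (.e (nat_lit 98384) (nat_lit 32) (.e (nat_lit 475213) (nat_lit 42) (.e (nat_lit 720938) (nat_lit 22) (.e (nat_lit 90160) (nat_lit 11) .nil)))))) (.g (nat_lit 6) .nil .nil))) 
(.lf (nat_lit 138675) (.g (nat_lit 3724) (.e (nat_lit 24628) (nat_lit 9) (.e (nat_lit 336019) (nat_lit 3) (.e (nat_lit 98388) (nat_lit 33) (.e (nat_lit 491560) (nat_lit 10) (.e (nat_lit 344130) (nat_lit 26) (.e (nat_lit 557087) (nat_lit 11) .nil)))))) (.g (nat_lit 6) .nil .nil))))) (.nd (nat_lit 4) (.nd (nat_lit 5) 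
(.lf (nat_lit 138635) (.g (nat_lit 2423) (.e (nat_lit 24628) (nat_lit 9) (.e (nat_lit 336019) (nat_lit 3) (.e (nat_lit 98384) (nat_lit 32) (.e (nat_lit 475212) (nat_lit 42) (.e (nat_lit 720937) (nat_lit 22) (.e (nat_lit 90159) (nat_lit 11) .nil)))))) (.g (nat_lit 5) .nil .nil))) 
(.lf (nat_lit 138667) (.g (nat_lit 1903) (.e (nat_lit 24628) (nat_lit 9) (.e (nat_lit 336019) (nat_lit 3) (.e (nat_lit 98386) (nat_lit 32) (.e (nat_lit 475214) (nat_lit 42) (.e (nat_lit 720938) (nat_lit 22) (.e (nat_lit 90156) (nat_lit 11) .nil)))))) (.g (nat_lit 4) .nil .nil)))) (.nd (nat_lit 5) 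
(.lf (nat_lit 138651) (.g (nat_lit 1613) (.e (nat_lit 24628) (nat_lit 9) (.e (nat_lit 336019) (nat_lit 3) (.e (nat_lit 98385) (nat_lit 32) (.e (nat_lit 475212) (nat_lit 42) (.e (nat_lit 720938) (nat_lit 22) (.e (nat_lit 90156) (nat_lit 11) .nil)))))) (.g (nat_lit 4) .nil .nil))) 
(.lf (nat_lit 138683) (.g (nat_lit 3295) (.e (nat_lit 24628) (nat_lit 9) (.e (nat_lit 336019) (nat_lit 3) (.e (nat_lit 98389) (nat_lit 33) (.e (nat_lit 491560) (nat_lit 10) (.e (nat_lit 344132) (nat_lit 26) (.e (nat_lit 557085) (nat_lit 11) .nil)))))) (.g (nat_lit 5) .nil .nil)))))) (.nd (nat_lit 3) (.nd (nat_lit 4) (.nd (nat_lit 5) 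
(.lf (nat_lit 138631) (.g (nat_lit 1691) (.e (nat_lit 24628) (nat_lit 9) (.e (nat_lit 336019) (nat_lit 3) (.e (nat_lit 98384) (nat_lit 32) (.e (nat_lit 475195) (nat_lit 40) .nil)))) .nil)) 
(.lf (nat_lit 138663) (.g (nat_lit 2290) (.e (nat_lit 24628) (nat_lit 9) (.e (nat_lit 336019) (nat_lit 3) (.e (nat_lit 98386) (nat_lit 32) (.e (nat_lit 475213) (nat_lit 42) (.e (nat_lit 720938) (nat_lit 22) (.e (nat_lit 90159) (nat_lit 11) .nil)))))) (.g (nat_lit 5) .nil .nil)))) (.nd (nat_lit 5) 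
(.lf (nat_lit 138647) (.g (nat_lit 2595) (.e (nat_lit 24628) (nat_lit 9) (.e (nat_lit 336019) (nat_lit 3) (.e (nat_lit 98384) (nat_lit 32) (.e (nat_lit 475214) (nat_lit 42) (.e (nat_lit 720938) (nat_lit 22) (.e (nat_lit 90159) (nat_lit 11) .nil)))))) (.g (nat_lit 5) .nil .nil))) 
(.lf (nat_lit 138679) (.g (nat_lit 2145) (.e (nat_lit 24628) (nat_lit 9) (.e (nat_lit 336019) (nat_lit 3) (.e (nat_lit 98389) (nat_lit 33) (.e (nat_lit 491558) (nat_lit 10) (.e (nat_lit 344130) (nat_lit 26) (.e (nat_lit 557086) (nat_lit 11) .nil)))))) (.g (nat_lit 4) .nil .nil))))) (.nd (nat_lit 4) (.nd (nat_lit 5) 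
(.lf (nat_lit 138639) (.g (nat_lit 2849) (.e (nat_lit 24628) (nat_lit 9) (.e (nat_lit 336019) (nat_lit 3) (.e (nat_lit 98384) (nat_lit 32) (.e (nat_lit 475212) (nat_lit 42) (.e (nat_lit 720941) (nat_lit 22) (.e (nat_lit 90159) (nat_lit 11) .nil)))))) (.g (nat_lit 6) .nil .nil))) 
(.lf (nat_lit 138671) (.g (nat_lit 2739) (.e (nat_lit 24628) (nat_lit 9) (.e (nat_lit 336019) (nat_lit 3) (.e (nat_lit 98386) (nat_lit 32) (.e (nat_lit 475214) (nat_lit 42) (.e (nat_lit 720939) (nat_lit 22) (.e (nat_lit 90160) (nat_lit 11) .nil)))))) (.g (nat_lit 5) .nil .nil)))) (.nd (nat_lit 5) 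
(.lf (nat_lit 138655) (.g (nat_lit 1965) (.e (nat_lit 24628) (nat_lit 9) (.e (nat_lit 336019) (nat_lit 3) (.e (nat_lit 98385) (nat_lit 32) (.e (nat_lit 475214) (nat_lit 42) (.e (nat_lit 720941) (nat_lit 22) (.e (nat_lit 90158) (nat_lit 11) .nil)))))) (.g (nat_lit 4) .nil .nil))) 
(.lf (nat_lit 138687) (.g (nat_lit 3582) (.e (nat_lit 24628) (nat_lit 9) (.e (nat_lit 336324) (nat_lit 18) (.e (nat_lit 204837) (nat_lit 20) (.e (nat_lit 114710) (nat_lit 21) (.e (nat_lit 57692) (nat_lit 156) (.e (nat_lit 171776) (nat_lit 63) (.e (nat_lit 90158) (nat_lit 11) .nil))))))) (.g (nat_lit 5) .nil .nil)))))))))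

noncomputable def tv1843 : DT := (.nd (nat_lit 0) (.nd (nat_lit 1) (.nd (nat_lit 2) (.nd (nat_lit 3) (.nd (nat_lit 4) (.nd (nat_lit 5) 
(.lf (nat_lit 138688) (.g (nat_lit 3374) (.e (nat_lit 24628) (nat_lit 9) (.e (nat_lit 336324) (nat_lit 18) (.e (nat_lit 204838) (nat_lit 20) (.e (nat_lit 114711) (nat_lit 21) (.e (nat_lit 57692) (nat_lit 156) (.e (nat_lit 171776) (nat_lit 63) (.e (nat_lit 90158) (nat_lit 11) .nil))))))) (.g (nat_lit 4) .nil .nil))) 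
(.lf (nat_lit 138720) (.g (nat_lit 2362) (.e (nat_lit 24628) (nat_lit 9) (.e (nat_lit 336395) (nat_lit 27) (.e (nat_lit 426528) (nat_lit 27) (.e (nat_lit 335986) (nat_lit 1) (.e (nat_lit 57847) (nat_lit 252) (.e (nat_lit 57372) (nat_lit 2) (.e (nat_lit 90160) (nat_lit 11) .nil))))))) (.g (nat_lit 4) .nil .nil)))) (.nd (nat_lit 5) 
(.lf (nat_lit 138704) (.g (nat_lit 3289) (.e (nat_lit 24628) (nat_lit 9) (.e (nat_lit 336369) (nat_lit 27) (.e (nat_lit 426499) (nat_lit 27) (.e (nat_lit 335986) (nat_lit 1) (.e (nat_lit 57847) (nat_lit 252) (.e (nat_lit 57375) (nat_lit 2) (.e (nat_lit 90160) (nat_lit 11) .nil))))))) (.g (nat_lit 4) .nil .nil))) 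
(.lf (nat_lit 138736) (.g (nat_lit 4323) (.e (nat_lit 24628) (nat_lit 9) (.e (nat_lit 336454) (nat_lit 34) (.e (nat_lit 483365) (nat_lit 18) (.e (nat_lit 57839) (nat_lit 250) .nil)))) .nil)))) (.nd (nat_lit 4) (.nd (nat_lit 5) 
(.lf (nat_lit 138696) (.g (nat_lit 2750) (.e (nat_lit 24628) (nat_lit 9) (.e (nat_lit 336367) (nat_lit 27) (.e (nat_lit 426509) (nat_lit 27) (.e (nat_lit 335997) (nat_lit 1) (.e (nat_lit 57849) (nat_lit 252) (.e (nat_lit 57375) (nat_lit 2) (.e (nat_lit 90158) (nat_lit 11) .nil))))))) (.g (nat_lit 5) .nil .nil))) 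
(.lf (nat_lit 138728) (.g (nat_lit 2610) (.e (nat_lit 24628) (nat_lit 9) (.e (nat_lit 336452) (nat_lit 34) (.e (nat_lit 483364) (nat_lit 18) (.e (nat_lit 57854) (nat_lit 252) (.e (nat_lit 57371) (nat_lit 2) (.e (nat_lit 90160) (nat_lit 11) .nil)))))) (.g (nat_lit 5) .nil .nil)))) (.nd (nat_lit 5) 
(.lf (nat_lit 138712) (.g (nat_lit 3295) (.e (nat_lit 24628) (nat_lit 9) (.e (nat_lit 336374) (nat_lit 27) (.e (nat_lit 426482) (nat_lit 27) (.e (nat_lit 335997) (nat_lit 1) (.e (nat_lit 57849) (nat_lit 252) (.e (nat_lit 57375) (nat_lit 2) (.e (nat_lit 90158) (nat_lit 11) .nil))))))) (.g (nat_lit 6) .nil .nil))) 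
(.lf (nat_lit 138744) (.g (nat_lit 3431) (.e (nat_lit 24628) (nat_lit 9) (.e (nat_lit 336454) (nat_lit 34) (.e (nat_lit 483366) (nat_lit 18) (.e (nat_lit 57849) (nat_lit 252) (.e (nat_lit 57372) (nat_lit 2) (.e (nat_lit 90158) (nat_lit 11) .nil)))))) (.g (nat_lit 0) .nil .nil)))))) (.nd (nat_lit 3) (.nd (nat_lit 4) (.nd (nat_lit 5) 
(.lf (nat_lit 138692) (.g (nat_lit 2955) (.e (nat_lit 24628) (nat_lit 9) (.e (nat_lit 336366) (nat_lit 27) (.e (nat_lit 426501) (nat_lit 27) (.e (nat_lit 335988) (nat_lit 1) (.e (nat_lit 57854) (nat_lit 252) (.e (nat_lit 57373) (nat_lit 2) (.e (nat_lit 90160) (nat_lit 11) .nil))))))) (.g (nat_lit 5) .nil .nil))) 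
(.lf (nat_lit 138724) (.g (nat_lit 2246) (.e (nat_lit 24628) (nat_lit 9) (.e (nat_lit 336443) (nat_lit 32) (.e (nat_lit 466972) (nat_lit 21) (.e (nat_lit 164330) (nat_lit 230) (.e (nat_lit 163846) (nat_lit 0) .nil))))) .nil))) (.nd (nat_lit 5) 
(.lf (nat_lit 138708) (.g (nat_lit 2952) (.e (nat_lit 24628) (nat_lit 9) (.e (nat_lit 336369) (nat_lit 27) (.e (nat_lit 426499) (nat_lit 27) (.e (nat_lit 335986) (nat_lit 1) (.e (nat_lit 57849) (nat_lit 252) (.e (nat_lit 57375) (nat_lit 2) (.e (nat_lit 90160) (nat_lit 11) .nil))))))) (.g (nat_lit 4) .nil .nil))) 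
(.lf (nat_lit 138740) (.g (nat_lit 2625) (.e (nat_lit 24628) (nat_lit 9) (.e (nat_lit 336454) (nat_lit 34) (.e (nat_lit 483365) (nat_lit 18) (.e (nat_lit 57849) (nat_lit 252) (.e (nat_lit 57375) (nat_lit 2) (.e (nat_lit 90160) (nat_lit 11) .nil)))))) (.g (nat_lit 4) .nil .nil))))) (.nd (nat_lit 4) (.nd (nat_lit 5) 
(.lf (nat_lit 138700) (.g (nat_lit 2832) (.e (nat_lit 24628) (nat_lit 9) (.e (nat_lit 336368) (nat_lit 27) (.e (nat_lit 426501) (nat_lit 27) (.e (nat_lit 335988) (nat_lit 1) (.e (nat_lit 57854) (nat_lit 252) (.e (nat_lit 57373) (nat_lit 2) (.e (nat_lit 90160) (nat_lit 11) .nil))))))) (.g (nat_lit 5) .nil .nil))) 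
(.lf (nat_lit 138732) (.g (nat_lit 4125) (.e (nat_lit 24628) (nat_lit 9) (.e (nat_lit 336454) (nat_lit 34) (.e (nat_lit 483365) (nat_lit 18) (.e (nat_lit 57824) (nat_lit 250) .nil)))) .nil))) (.nd (nat_lit 5) 
(.lf (nat_lit 138716) (.g (nat_lit 2012) (.e (nat_lit 24628) (nat_lit 9) (.e (nat_lit 336374) (nat_lit 27) (.e (nat_lit 426530) (nat_lit 27) (.e (nat_lit 335998) (nat_lit 1) (.e (nat_lit 57849) (nat_lit 252) (.e (nat_lit 57375) (nat_lit 2) (.e (nat_lit 90158) (nat_lit 11) .nil))))))) (.g (nat_lit 4) .nil .nil))) 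
(.lf (nat_lit 138748) (.g (nat_lit 2034) (.e (nat_lit 24628) (nat_lit 9) (.e (nat_lit 336455) (nat_lit 34) (.e (nat_lit 483363) (nat_lit 18) (.e (nat_lit 57849) (nat_lit 252) (.e (nat_lit 57375) (nat_lit 2) (.e (nat_lit 90158) (nat_lit 11) .nil)))))) (.g (nat_lit 4) .nil .nil))))))) (.nd (nat_lit 2) (.nd (nat_lit 3) (.nd (nat_lit 4) (.nd (nat_lit 5) 
(.lf (nat_lit 138690) (.g (nat_lit 474) (.e (nat_lit 24628) (nat_lit 9) (.e (nat_lit 336332) (nat_lit 19) (.e (nat_lit 220928) (nat_lit 5) .nil))) .nil)) 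
(.lf (nat_lit 138722) (.g (nat_lit 2156) (.e (nat_lit 24628) (nat_lit 9) (.e (nat_lit 336443) (nat_lit 32) (.e (nat_lit 466969) (nat_lit 21) (.e (nat_lit 164330) (nat_lit 230) (.e (nat_lit 163846) (nat_lit 0) .nil))))) .nil))) (.nd (nat_lit 5) 
(.lf (nat_lit 138706) (.g (nat_lit 3423) (.e (nat_lit 24628) (nat_lit 9) (.e (nat_lit 336369) (nat_lit 27) (.e (nat_lit 426499) (nat_lit 27) (.e (nat_lit 335986) (nat_lit 1) (.e (nat_lit 57849) (nat_lit 252) (.e (nat_lit 57372) (nat_lit 2) (.e (nat_lit 90160) (nat_lit 11) .nil))))))) (.g (nat_lit 4) .nil .nil))) 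
(.lf (nat_lit 138738) (.g (nat_lit 3946) (.e (nat_lit 24628) (nat_lit 9) (.e (nat_lit 336454) (nat_lit 34) (.e (nat_lit 483365) (nat_lit 18) (.e (nat_lit 57849) (nat_lit 252) (.e (nat_lit 57372) (nat_lit 2) (.e (nat_lit 90158) (nat_lit 11) .nil)))))) (.g (nat_lit 0) .nil .nil))))) (.nd (nat_lit 4) (.nd (nat_lit 5) 
(.lf (nat_lit 138698) (.g (nat_lit 2162) (.e (nat_lit 24628) (nat_lit 9) (.e (nat_lit 336368) (nat_lit 27) (.e (nat_lit 426497) (nat_lit 27) (.e (nat_lit 335988) (nat_lit 1) (.e (nat_lit 57854) (nat_lit 252) (.e (nat_lit 57373) (nat_lit 2) (.e (nat_lit 90160) (nat_lit 11) .nil))))))) (.g (nat_lit 4) .nil .nil))) 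
(.lf (nat_lit 138730) (.g (nat_lit 2959) (.e (nat_lit 24628) (nat_lit 9) (.e (nat_lit 336454) (nat_lit 34) (.e (nat_lit 483363) (nat_lit 18) (.e (nat_lit 57849) (nat_lit 252) (.e (nat_lit 57372) (nat_lit 2) (.e (nat_lit 90160) (nat_lit 11) .nil)))))) (.g (nat_lit 5) .nil .nil)))) (.nd (nat_lit 5) 
(.lf (nat_lit 138714) (.g (nat_lit 2507) (.e (nat_lit 24628) (nat_lit 9) (.e (nat_lit 336374) (nat_lit 27) (.e (nat_lit 426514) (nat_lit 27) (.e (nat_lit 335986) (nat_lit 1) (.e (nat_lit 57849) (nat_lit 252) (.e (nat_lit 57375) (nat_lit 2) (.e (nat_lit 90158) (nat_lit 11) .nil))))))) (.g (nat_lit 5) .nil .nil))) 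
(.lf (nat_lit 138746) (.g (nat_lit 1879) (.e (nat_lit 24628) (nat_lit 9) (.e (nat_lit 336454) (nat_lit 34) (.e (nat_lit 483366) (nat_lit 18) (.e (nat_lit 57851) (nat_lit 252) (.e (nat_lit 57371) (nat_lit 2) (.e (nat_lit 90156) (nat_lit 11) .nil)))))) (.g (nat_lit 5) .nil .nil)))))) (.nd (nat_lit 3) (.nd (nat_lit 4) (.nd (nat_lit 5) 
(.lf (nat_lit 138694) (.g (nat_lit 3462) (.e (nat_lit 24628) (nat_lit 9) (.e (nat_lit 336367) (nat_lit 27) (.e (nat_lit 426482) (nat_lit 27) (.e (nat_lit 335997) (nat_lit 1) (.e (nat_lit 57849) (nat_lit 252) (.e (nat_lit 57375) (nat_lit 2) (.e (nat_lit 90158) (nat_lit 11) .nil))))))) (.g (nat_lit 6) .nil .nil))) 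
(.lf (nat_lit 138726) (.g (nat_lit 2876) (.e (nat_lit 24628) (nat_lit 9) (.e (nat_lit 336452) (nat_lit 34) (.e (nat_lit 483363) (nat_lit 18) (.e (nat_lit 57854) (nat_lit 252) (.e (nat_lit 57371) (nat_lit 2) (.e (nat_lit 90160) (nat_lit 11) .nil)))))) (.g (nat_lit 5) .nil .nil)))) (.nd (nat_lit 5) 
(.lf (nat_lit 138710) (.g (nat_lit 2659) (.e (nat_lit 24628) (nat_lit 9) (.e (nat_lit 336370) (nat_lit 27) (.e (nat_lit 426501) (nat_lit 27) (.e (nat_lit 335996) (nat_lit 1) (.e (nat_lit 57852) (nat_lit 252) (.e (nat_lit 57371) (nat_lit 2) (.e (nat_lit 90158) (nat_lit 11) .nil))))))) (.g (nat_lit 5) .nil .nil))) 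
(.lf (nat_lit 138742) (.g (nat_lit 1854) (.e (nat_lit 24628) (nat_lit 9) (.e (nat_lit 336454) (nat_lit 34) (.e (nat_lit 483366) (nat_lit 18) (.e (nat_lit 57844) (nat_lit 252) (.e (nat_lit 57371) (nat_lit 2) (.e (nat_lit 90156) (nat_lit 11) .nil)))))) (.g (nat_lit 4) .nil .nil))))) (.nd (nat_lit 4) (.nd (nat_lit 5) 
(.lf (nat_lit 138702) (.g (nat_lit 3408) (.e (nat_lit 24628) (nat_lit 9) (.e (nat_lit 336369) (nat_lit 27) (.e (nat_lit 426499) (nat_lit 27) (.e (nat_lit 335986) (nat_lit 1) (.e (nat_lit 57847) (nat_lit 252) (.e (nat_lit 57372) (nat_lit 2) (.e (nat_lit 90160) (nat_lit 11) .nil))))))) (.g (nat_lit 4) .nil .nil))) 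
(.lf (nat_lit 138734) (.g (nat_lit 3184) (.e (nat_lit 24628) (nat_lit 9) (.e (nat_lit 336454) (nat_lit 34) (.e (nat_lit 483365) (nat_lit 18) (.e (nat_lit 57830) (nat_lit 250) .nil)))) .nil))) (.nd (nat_lit 5) 
(.lf (nat_lit 138718) (.g (nat_lit 2450) (.e (nat_lit 24628) (nat_lit 9) (.e (nat_lit 336395) (nat_lit 27) (.e (nat_lit 426499) (nat_lit 27) (.e (nat_lit 335986) (nat_lit 1) (.e (nat_lit 57849) (nat_lit 252) (.e (nat_lit 57375) (nat_lit 2) (.e (nat_lit 90158) (nat_lit 11) .nil))))))) (.g (nat_lit 4) .nil .nil))) 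
(.lf (nat_lit 138750) (.g (nat_lit 2136) (.e (nat_lit 24628) (nat_lit 9) (.e (nat_lit 336455) (nat_lit 34) (.e (nat_lit 483364) (nat_lit 18) (.e (nat_lit 57854) (nat_lit 252) (.e (nat_lit 57371) (nat_lit 2) (.e (nat_lit 90160) (nat_lit 11) .nil)))))) (.g (nat_lit 4) .nil .nil)))))))) (.nd (nat_lit 1) (.nd (nat_lit 2) (.nd (nat_lit 3) (.nd (nat_lit 4) (.nd (nat_lit 5) 
(.lf (nat_lit 138689) (.g (nat_lit 2798) (.e (nat_lit 24628) (nat_lit 9) (.e (nat_lit 336324) (nat_lit 18) (.e (nat_lit 204838) (nat_lit 20) (.e (nat_lit 114712) (nat_lit 21) (.e (nat_lit 57691) (nat_lit 156) (.e (nat_lit 171776) (nat_lit 63) (.e (nat_lit 90158) (nat_lit 11) .nil))))))) (.g (nat_lit 4) .nil .nil))) 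
(.lf (nat_lit 138721) (.g (nat_lit 1996) (.e (nat_lit 24628) (nat_lit 9) (.e (nat_lit 336398) (nat_lit 27) (.e (nat_lit 426499) (nat_lit 27) (.e (nat_lit 335986) (nat_lit 1) (.e (nat_lit 57849) (nat_lit 252) .nil))))) .nil))) (.nd (nat_lit 5) 
(.lf (nat_lit 138705) (.g (nat_lit 3906) (.e (nat_lit 24628) (nat_lit 9) (.e (nat_lit 336369) (nat_lit 27) (.e (nat_lit 426499) (nat_lit 27) (.e (nat_lit 335986) (nat_lit 1) (.e (nat_lit 57849) (nat_lit 252) (.e (nat_lit 57372) (nat_lit 2) (.e (nat_lit 90158) (nat_lit 11) .nil))))))) (.g (nat_lit 5) .nil .nil))) 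
(.lf (nat_lit 138737) (.g (nat_lit 1850) (.e (nat_lit 24628) (nat_lit 9) (.e (nat_lit 336454) (nat_lit 34) (.e (nat_lit 483365) (nat_lit 18) (.e (nat_lit 57844) (nat_lit 252) .nil)))) .nil)))) (.nd (nat_lit 4) (.nd (nat_lit 5) 
(.lf (nat_lit 138697) (.g (nat_lit 4401) (.e (nat_lit 24628) (nat_lit 9) (.e (nat_lit 336367) (nat_lit 27) (.e (nat_lit 426530) (nat_lit 27) (.e (nat_lit 335998) (nat_lit 1) (.e (nat_lit 57849) (nat_lit 252) (.e (nat_lit 57372) (nat_lit 2) (.e (nat_lit 90160) (nat_lit 11) .nil))))))) (.g (nat_lit 7) .nil .nil))) 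
(.lf (nat_lit 138729) (.g (nat_lit 3669) (.e (nat_lit 24628) (nat_lit 9) (.e (nat_lit 336454) (nat_lit 34) (.e (nat_lit 483363) (nat_lit 18) (.e (nat_lit 57849) (nat_lit 252) (.e (nat_lit 57372) (nat_lit 2) (.e (nat_lit 90158) (nat_lit 11) .nil)))))) (.g (nat_lit 0) .nil .nil)))) (.nd (nat_lit 5) 
(.lf (nat_lit 138713) (.g (nat_lit 2516) (.e (nat_lit 24628) (nat_lit 9) (.e (nat_lit 336374) (nat_lit 27) (.e (nat_lit 426514) (nat_lit 27) (.e (nat_lit 335986) (nat_lit 1) (.e (nat_lit 57849) (nat_lit 252) (.e (nat_lit 57372) (nat_lit 2) (.e (nat_lit 90158) (nat_lit 11) .nil))))))) (.g (nat_lit 5) .nil .nil))) 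
(.lf (nat_lit 138745) (.g (nat_lit 3444) (.e (nat_lit 24628) (nat_lit 9) (.e (nat_lit 336454) (nat_lit 34) (.e (nat_lit 483366) (nat_lit 18) (.e (nat_lit 57849) (nat_lit 252) (.e (nat_lit 57375) (nat_lit 2) (.e (nat_lit 90158) (nat_lit 11) .nil)))))) (.g (nat_lit 0) .nil .nil)))))) (.nd (nat_lit 3) (.nd (nat_lit 4) (.nd (nat_lit 5) 
(.lf (nat_lit 138693) (.g (nat_lit 2581) (.e (nat_lit 24628) (nat_lit 9) (.e (nat_lit 336366) (nat_lit 27) (.e (nat_lit 426501) (nat_lit 27) (.e (nat_lit 335996) (nat_lit 1) (.e (nat_lit 57852) (nat_lit 252) (.e (nat_lit 57371) (nat_lit 2) (.e (nat_lit 90158) (nat_lit 11) .nil))))))) (.g (nat_lit 5) .nil .nil))) 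
(.lf (nat_lit 138725) (.g (nat_lit 1140) (.e (nat_lit 24628) (nat_lit 9) (.e (nat_lit 336443) (nat_lit 32) (.e (nat_lit 466972) (nat_lit 21) (.e (nat_lit 164332) (nat_lit 230) .nil)))) .nil))) (.nd (nat_lit 5) 
(.lf (nat_lit 138709) (.g (nat_lit 2584) (.e (nat_lit 24628) (nat_lit 9) (.e (nat_lit 336370) (nat_lit 27) (.e (nat_lit 426501) (nat_lit 27) (.e (nat_lit 335988) (nat_lit 1) (.e (nat_lit 57854) (nat_lit 252) (.e (nat_lit 57371) (nat_lit 2) (.e (nat_lit 90160) (nat_lit 11) .nil))))))) (.g (nat_lit 5) .nil .nil))) 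
(.lf (nat_lit 138741) (.g (nat_lit 2443) (.e (nat_lit 24628) (nat_lit 9) (.e (nat_lit 336454) (nat_lit 34) (.e (nat_lit 483365) (nat_lit 18) (.e (nat_lit 57851) (nat_lit 252) (.e (nat_lit 57371) (nat_lit 2) (.e (nat_lit 90156) (nat_lit 11) .nil)))))) (.g (nat_lit 5) .nil .nil))))) (.nd (nat_lit 4) (.nd (nat_lit 5) 
(.lf (nat_lit 138701) (.g (nat_lit 2610) (.e (nat_lit 24628) (nat_lit 9) (.e (nat_lit 336368) (nat_lit 27) (.e (nat_lit 426501) (nat_lit 27) (.e (nat_lit 335996) (nat_lit 1) (.e (nat_lit 57852) (nat_lit 252) (.e (nat_lit 57371) (nat_lit 2) (.e (nat_lit 90158) (nat_lit 11) .nil))))))) (.g (nat_lit 5) .nil .nil))) 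
(.lf (nat_lit 138733) (.g (nat_lit 4160) (.e (nat_lit 24628) (nat_lit 9) (.e (nat_lit 336454) (nat_lit 34) (.e (nat_lit 483365) (nat_lit 18) (.e (nat_lit 57825) (nat_lit 250) .nil)))) .nil))) (.nd (nat_lit 5) 
(.lf (nat_lit 138717) (.g (nat_lit 2432) (.e (nat_lit 24628) (nat_lit 9) (.e (nat_lit 336395) (nat_lit 27) (.e (nat_lit 426499) (nat_lit 27) (.e (nat_lit 335986) (nat_lit 1) (.e (nat_lit 57849) (nat_lit 252) (.e (nat_lit 57372) (nat_lit 2) (.e (nat_lit 90158) (nat_lit 11) .nil))))))) (.g (nat_lit 4) .nil .nil))) 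
(.lf (nat_lit 138749) (.g (nat_lit 2981) (.e (nat_lit 24628) (nat_lit 9) (.e (nat_lit 336455) (nat_lit 34) (.e (nat_lit 483363) (nat_lit 18) (.e (nat_lit 57854) (nat_lit 252) (.e (nat_lit 57371) (nat_lit 2) (.e (nat_lit 90160) (nat_lit 11) .nil)))))) (.g (nat_lit 4) .nil .nil))))))) (.nd (nat_lit 2) (.nd (nat_lit 3) (.nd (nat_lit 4) (.nd (nat_lit 5) 
(.lf (nat_lit 138691) (.g (nat_lit 2372) (.e (nat_lit 24628) (nat_lit 9) (.e (nat_lit 336366) (nat_lit 27) (.e (nat_lit 426501) (nat_lit 27) (.e (nat_lit 335988) (nat_lit 1) (.e (nat_lit 57854) (nat_lit 252) (.e (nat_lit 57371) (nat_lit 2) (.e (nat_lit 90160) (nat_lit 11) .nil))))))) (.g (nat_lit 5) .nil .nil))) 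
(.lf (nat_lit 138723) (.g (nat_lit 1088) (.e (nat_lit 24628) (nat_lit 9) (.e (nat_lit 336443) (nat_lit 32) (.e (nat_lit 466969) (nat_lit 21) (.e (nat_lit 164332) (nat_lit 230) .nil)))) .nil))) (.nd (nat_lit 5) 
(.lf (nat_lit 138707) (.g (nat_lit 3933) (.e (nat_lit 24628) (nat_lit 9) (.e (nat_lit 336369) (nat_lit 27) (.e (nat_lit 426499) (nat_lit 27) (.e (nat_lit 335986) (nat_lit 1) (.e (nat_lit 57849) (nat_lit 252) (.e (nat_lit 57375) (nat_lit 2) (.e (nat_lit 90158) (nat_lit 11) .nil))))))) (.g (nat_lit 5) .nil .nil))) 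
(.lf (nat_lit 138739) (.g (nat_lit 3947) (.e (nat_lit 24628) (nat_lit 9) (.e (nat_lit 336454) (nat_lit 34) (.e (nat_lit 483365) (nat_lit 18) (.e (nat_lit 57849) (nat_lit 252) (.e (nat_lit 57375) (nat_lit 2) (.e (nat_lit 90158) (nat_lit 11) .nil)))))) (.g (nat_lit 0) .nil .nil))))) (.nd (nat_lit 4) (.nd (nat_lit 5) 
(.lf (nat_lit 138699) (.g (nat_lit 2001) (.e (nat_lit 24628) (nat_lit 9) (.e (nat_lit 336368) (nat_lit 27) (.e (nat_lit 426497) (nat_lit 27) (.e (nat_lit 335996) (nat_lit 1) (.e (nat_lit 57852) (nat_lit 252) (.e (nat_lit 57371) (nat_lit 2) (.e (nat_lit 90158) (nat_lit 11) .nil))))))) (.g (nat_lit 4) .nil .nil))) 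
(.lf (nat_lit 138731) (.g (nat_lit 3678) (.e (nat_lit 24628) (nat_lit 9) (.e (nat_lit 336454) (nat_lit 34) (.e (nat_lit 483363) (nat_lit 18) (.e (nat_lit 57849) (nat_lit 252) (.e (nat_lit 57375) (nat_lit 2) (.e (nat_lit 90158) (nat_lit 11) .nil)))))) (.g (nat_lit 0) .nil .nil)))) (.nd (nat_lit 5) 
(.lf (nat_lit 138715) (.g (nat_lit 1986) (.e (nat_lit 24628) (nat_lit 9) (.e (nat_lit 336374) (nat_lit 27) (.e (nat_lit 426530) (nat_lit 27) (.e (nat_lit 335998) (nat_lit 1) (.e (nat_lit 57849) (nat_lit 252) (.e (nat_lit 57372) (nat_lit 2) (.e (nat_lit 90158) (nat_lit 11) .nil))))))) (.g (nat_lit 4) .nil .nil))) 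
(.lf (nat_lit 138747) (.g (nat_lit 2093) (.e (nat_lit 24628) (nat_lit 9) (.e (nat_lit 336455) (nat_lit 34) (.e (nat_lit 483363) (nat_lit 18) (.e (nat_lit 57849) (nat_lit 252) (.e (nat_lit 57372) (nat_lit 2) (.e (nat_lit 90158) (nat_lit 11) .nil)))))) (.g (nat_lit 4) .nil .nil)))))) (.nd (nat_lit 3) (.nd (nat_lit 4) (.nd (nat_lit 5) 
(.lf (nat_lit 138695) (.g (nat_lit 2621) (.e (nat_lit 24628) (nat_lit 9) (.e (nat_lit 336367) (nat_lit 27) (.e (nat_lit 426509) (nat_lit 27) (.e (nat_lit 335997) (nat_lit 1) (.e (nat_lit 57849) (nat_lit 252) (.e (nat_lit 57372) (nat_lit 2) (.e (nat_lit 90158) (nat_lit 11) .nil))))))) (.g (nat_lit 5) .nil .nil))) 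
(.lf (nat_lit 138727) (.g (nat_lit 1461) (.e (nat_lit 24628) (nat_lit 9) (.e (nat_lit 336452) (nat_lit 34) (.e (nat_lit 483364) (nat_lit 18) (.e (nat_lit 57854) (nat_lit 252) (.e (nat_lit 57371) (nat_lit 2) .nil))))) .nil))) (.nd (nat_lit 5) 
(.lf (nat_lit 138711) (.g (nat_lit 2701) (.e (nat_lit 24628) (nat_lit 9) (.e (nat_lit 336372) (nat_lit 27) (.e (nat_lit 426482) (nat_lit 27) (.e (nat_lit 335997) (nat_lit 1) (.e (nat_lit 57849) (nat_lit 252) (.e (nat_lit 57372) (nat_lit 2) (.e (nat_lit 90158) (nat_lit 11) .nil))))))) (.g (nat_lit 4) .nil .nil))) 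
(.lf (nat_lit 138743) (.g (nat_lit 3019) (.e (nat_lit 24628) (nat_lit 9) (.e (nat_lit 336454) (nat_lit 34) (.e (nat_lit 483366) (nat_lit 18) (.e (nat_lit 57848) (nat_lit 252) (.e (nat_lit 57375) (nat_lit 2) (.e (nat_lit 90158) (nat_lit 11) .nil)))))) (.g (nat_lit 0) .nil .nil))))) (.nd (nat_lit 4) (.nd (nat_lit 5) 
(.lf (nat_lit 138703) (.g (nat_lit 2984) (.e (nat_lit 24628) (nat_lit 9) (.e (nat_lit 336369) (nat_lit 27) (.e (nat_lit 426499) (nat_lit 27) (.e (nat_lit 335986) (nat_lit 1) (.e (nat_lit 57847) (nat_lit 252) (.e (nat_lit 57373) (nat_lit 2) (.e (nat_lit 90158) (nat_lit 11) .nil))))))) (.g (nat_lit 4) .nil .nil))) 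
(.lf (nat_lit 138735) (.g (nat_lit 4235) (.e (nat_lit 24628) (nat_lit 9) (.e (nat_lit 336454) (nat_lit 34) (.e (nat_lit 483365) (nat_lit 18) (.e (nat_lit 57831) (nat_lit 250) .nil)))) .nil))) (.nd (nat_lit 5) 
(.lf (nat_lit 138719) (.g (nat_lit 3140) (.e (nat_lit 24628) (nat_lit 9) (.e (nat_lit 336395) (nat_lit 27) (.e (nat_lit 426528) (nat_lit 27) (.e (nat_lit 335986) (nat_lit 1) (.e (nat_lit 57847) (nat_lit 252) (.e (nat_lit 57370) (nat_lit 2) (.e (nat_lit 90158) (nat_lit 11) .nil))))))) (.g (nat_lit 5) .nil .nil))) 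
(.lf (nat_lit 138751) (.g (nat_lit 1653) (.e (nat_lit 24628) (nat_lit 9) (.e (nat_lit 336456) (nat_lit 34) (.e (nat_lit 483346) (nat_lit 17) (.e (nat_lit 1095) (nat_lit 81) .nil)))) .nil))))))))

noncomputable def tv1844 : DT := (.nd (nat_lit 0) (.nd (nat_lit 1) (.nd (nat_lit 2) (.nd (nat_lit 3) (.nd (nat_lit 4) (.nd (nat_lit 5) (.nd (nat_lit 6) 
(.lf (nat_lit 138752) (.g (nat_lit 1390) (.e (nat_lit 24628) (nat_lit 9) (.e (nat_lit 336456) (nat_lit 34) (.e (nat_lit 483350) (nat_lit 17) (.e (nat_lit 7936) (nat_lit 81) .nil)))) .nil)) 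
(.lf (nat_lit 138816) (.g (nat_lit 3889) (.e (nat_lit 24629) (nat_lit 9) (.e (nat_lit 336454) (nat_lit 34) (.e (nat_lit 483365) (nat_lit 18) (.e (nat_lit 57844) (nat_lit 252) .nil)))) .nil))) (.nd (nat_lit 6) 
(.lf (nat_lit 138784) (.g (nat_lit 1330) (.e (nat_lit 24629) (nat_lit 9) (.e (nat_lit 336019) (nat_lit 3) (.e (nat_lit 98386) (nat_lit 32) (.e (nat_lit 475213) (nat_lit 42) .nil)))) .nil)) 
(.lf (nat_lit 138848) (.g (nat_lit 604) (.e (nat_lit 24630) (nat_lit 9) (.e (nat_lit 336320) (nat_lit 17) (.e (nat_lit 196686) (nat_lit 18) .nil))) .nil)))) (.nd (nat_lit 5) (.nd (nat_lit 6) 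
(.lf (nat_lit 138768) (.g (nat_lit 497) (.e (nat_lit 24629) (nat_lit 9) (.e (nat_lit 336019) (nat_lit 3) (.e (nat_lit 98384) (nat_lit 32) .nil))) .nil)) 
(.lf (nat_lit 138832) (.g (nat_lit 3304) (.e (nat_lit 24629) (nat_lit 9) (.e (nat_lit 336454) (nat_lit 34) (.e (nat_lit 483365) (nat_lit 18) (.e (nat_lit 57852) (nat_lit 252) (.e (nat_lit 57371) (nat_lit 2) .nil))))) .nil))) (.nd (nat_lit 6) 
(.lf (nat_lit 138800) (.g (nat_lit 2396) (.e (nat_lit 24629) (nat_lit 9) (.e (nat_lit 336454) (nat_lit 34) (.e (nat_lit 483363) (nat_lit 18) (.e (nat_lit 57847) (nat_lit 252) (.e (nat_lit 57370) (nat_lit 2) (.e (nat_lit 90158) (nat_lit 11) .nil)))))) (.g (nat_lit 4) .nil .nil))) 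
(.lf (nat_lit 138864) (.g (nat_lit 3289) (.e (nat_lit 24630) (nat_lit 9) (.e (nat_lit 336369) (nat_lit 27) (.e (nat_lit 426497) (nat_lit 27) (.e (nat_lit 335986) (nat_lit 1) (.e (nat_lit 57849) (nat_lit 252) (.e (nat_lit 57372) (nat_lit 2) (.e (nat_lit 90160) (nat_lit 11) .nil))))))) (.g (nat_lit 5) .nil .nil)))))) (.nd (nat_lit 4) (.nd (nat_lit 5) (.nd (nat_lit 6) 
(.lf (nat_lit 138760) (.g (nat_lit 1409) (.e (nat_lit 24629) (nat_lit 9) (.e (nat_lit 336019) (nat_lit 3) (.e (nat_lit 98356) (nat_lit 26) (.e (nat_lit 426449) (nat_lit 20) .nil)))) .nil)) 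
(.lf (nat_lit 138824) (.g (nat_lit 3744) (.e (nat_lit 24629) (nat_lit 9) (.e (nat_lit 336454) (nat_lit 34) (.e (nat_lit 483365) (nat_lit 18) (.e (nat_lit 57847) (nat_lit 252) (.e (nat_lit 57373) (nat_lit 2) (.e (nat_lit 90158) (nat_lit 11) .nil)))))) (.g (nat_lit 5) .nil .nil)))) (.nd (nat_lit 6) 
(.lf (nat_lit 138792) (.g (nat_lit 1888) (.e (nat_lit 24629) (nat_lit 9) (.e (nat_lit 336366) (nat_lit 27) (.e (nat_lit 426499) (nat_lit 27) (.e (nat_lit 335986) (nat_lit 1) (.e (nat_lit 57849) (nat_lit 252) .nil))))) .nil)) 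
(.lf (nat_lit 138856) (.g (nat_lit 2280) (.e (nat_lit 24630) (nat_lit 9) (.e (nat_lit 336369) (nat_lit 27) (.e (nat_lit 426173) (nat_lit 7) (.e (nat_lit 409640) (nat_lit 17) (.e (nat_lit 294934) (nat_lit 6) .nil))))) .nil)))) (.nd (nat_lit 5) (.nd (nat_lit 6) 
(.lf (nat_lit 138776) (.g (nat_lit 1862) (.e (nat_lit 24629) (nat_lit 9) (.e (nat_lit 336019) (nat_lit 3) (.e (nat_lit 98384) (nat_lit 32) (.e (nat_lit 475214) (nat_lit 42) (.e (nat_lit 720938) (nat_lit 22) .nil))))) .nil)) 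
(.lf (nat_lit 138840) (.g (nat_lit 1586) (.e (nat_lit 24629) (nat_lit 9) (.e (nat_lit 336454) (nat_lit 34) (.e (nat_lit 483366) (nat_lit 18) (.e (nat_lit 57848) (nat_lit 252) (.e (nat_lit 57372) (nat_lit 2) .nil))))) .nil))) (.nd (nat_lit 6) 
(.lf (nat_lit 138808) (.g (nat_lit 1851) (.e (nat_lit 24629) (nat_lit 9) (.e (nat_lit 336454) (nat_lit 34) (.e (nat_lit 483363) (nat_lit 18) (.e (nat_lit 57854) (nat_lit 252) .nil)))) .nil)) 
(.lf (nat_lit 138872) (.g (nat_lit 2400) (.e (nat_lit 24630) (nat_lit 9) (.e (nat_lit 336369) (nat_lit 27) (.e (nat_lit 426497) (nat_lit 27) (.e (nat_lit 335995) (nat_lit 1) (.e (nat_lit 57848) (nat_lit 252) (.e (nat_lit 57372) (nat_lit 2) (.e (nat_lit 90160) (nat_lit 11) .nil))))))) (.g (nat_lit 4) .nil .nil))))))) (.nd (nat_lit 3) (.nd (nat_lit 4) (.nd (nat_lit 5) (.nd (nat_lit 6) 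
(.lf (nat_lit 138756) (.g (nat_lit 1278) (.e (nat_lit 24629) (nat_lit 9) (.e (nat_lit 336019) (nat_lit 3) (.e (nat_lit 98356) (nat_lit 26) (.e (nat_lit 426446) (nat_lit 20) .nil)))) .nil)) 
(.lf (nat_lit 138820) (.g (nat_lit 3903) (.e (nat_lit 24629) (nat_lit 9) (.e (nat_lit 336454) (nat_lit 34) (.e (nat_lit 483365) (nat_lit 18) (.e (nat_lit 57846) (nat_lit 252) (.e (nat_lit 57375) (nat_lit 2) .nil))))) .nil))) (.nd (nat_lit 6) 
(.lf (nat_lit 138788) (.g (nat_lit 2394) (.e (nat_lit 24629) (nat_lit 9) (.e (nat_lit 336019) (nat_lit 3) (.e (nat_lit 98386) (nat_lit 32) (.e (nat_lit 475214) (nat_lit 42) (.e (nat_lit 720941) (nat_lit 22) .nil))))) .nil)) 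
(.lf (nat_lit 138852) (.g (nat_lit 2774) (.e (nat_lit 24630) (nat_lit 9) (.e (nat_lit 336367) (nat_lit 27) (.e (nat_lit 426530) (nat_lit 27) (.e (nat_lit 335998) (nat_lit 1) (.e (nat_lit 57849) (nat_lit 252) (.e (nat_lit 57375) (nat_lit 2) (.e (nat_lit 90158) (nat_lit 11) .nil))))))) (.g (nat_lit 5) .nil .nil))))) (.nd (nat_lit 5) (.nd (nat_lit 6) 
(.lf (nat_lit 138772) (.g (nat_lit 1740) (.e (nat_lit 24629) (nat_lit 9) (.e (nat_lit 336019) (nat_lit 3) (.e (nat_lit 98384) (nat_lit 32) (.e (nat_lit 475212) (nat_lit 42) (.e (nat_lit 720938) (nat_lit 22) .nil))))) .nil)) 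
(.lf (nat_lit 138836) (.g (nat_lit 2605) (.e (nat_lit 24629) (nat_lit 9) (.e (nat_lit 336454) (nat_lit 34) (.e (nat_lit 483365) (nat_lit 18) (.e (nat_lit 57854) (nat_lit 252) .nil)))) .nil))) (.nd (nat_lit 6) 
(.lf (nat_lit 138804) (.g (nat_lit 2872) (.e (nat_lit 24629) (nat_lit 9) (.e (nat_lit 336454) (nat_lit 34) (.e (nat_lit 483363) (nat_lit 18) (.e (nat_lit 57847) (nat_lit 252) (.e (nat_lit 57375) (nat_lit 2) (.e (nat_lit 90160) (nat_lit 11) .nil)))))) (.g (nat_lit 5) .nil .nil))) 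
(.lf (nat_lit 138868) (.g (nat_lit 3394) (.e (nat_lit 24630) (nat_lit 9) (.e (nat_lit 336369) (nat_lit 27) (.e (nat_lit 426497) (nat_lit 27) (.e (nat_lit 335988) (nat_lit 1) (.e (nat_lit 57854) (nat_lit 252) (.e (nat_lit 57373) (nat_lit 2) (.e (nat_lit 90160) (nat_lit 11) .nil))))))) (.g (nat_lit 5) .nil .nil)))))) (.nd (nat_lit 4) (.nd (nat_lit 5) (.nd (nat_lit 6) 
(.lf (nat_lit 138764) (.g (nat_lit 1832) (.e (nat_lit 24629) (nat_lit 9) (.e (nat_lit 336019) (nat_lit 3) (.e (nat_lit 98358) (nat_lit 26) (.e (nat_lit 426446) (nat_lit 20) (.e (nat_lit 114716) (nat_lit 22) .nil))))) .nil)) 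
(.lf (nat_lit 138828) (.g (nat_lit 3359) (.e (nat_lit 24629) (nat_lit 9) (.e (nat_lit 336454) (nat_lit 34) (.e (nat_lit 483365) (nat_lit 18) (.e (nat_lit 57849) (nat_lit 252) (.e (nat_lit 57370) (nat_lit 2) (.e (nat_lit 90158) (nat_lit 11) .nil)))))) (.g (nat_lit 4) .nil .nil)))) (.nd (nat_lit 6) 
(.lf (nat_lit 138796) (.g (nat_lit 2024) (.e (nat_lit 24629) (nat_lit 9) (.e (nat_lit 336369) (nat_lit 27) (.e (nat_lit 426173) (nat_lit 7) (.e (nat_lit 409617) (nat_lit 10) (.e (nat_lit 4934) (nat_lit 287) (.e (nat_lit 2579) (nat_lit 161) (.e (nat_lit 40993) (nat_lit 11) .nil))))))) (.g (nat_lit 4) .nil .nil))) 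
(.lf (nat_lit 138860) (.g (nat_lit 2753) (.e (nat_lit 24630) (nat_lit 9) (.e (nat_lit 336369) (nat_lit 27) (.e (nat_lit 426497) (nat_lit 27) (.e (nat_lit 335986) (nat_lit 1) (.e (nat_lit 57847) (nat_lit 252) (.e (nat_lit 57373) (nat_lit 2) (.e (nat_lit 90158) (nat_lit 11) .nil))))))) (.g (nat_lit 4) .nil .nil))))) (.nd (nat_lit 5) (.nd (nat_lit 6) 
(.lf (nat_lit 138780) (.g (nat_lit 1249) (.e (nat_lit 24629) (nat_lit 9) (.e (nat_lit 336019) (nat_lit 3) (.e (nat_lit 98386) (nat_lit 32) (.e (nat_lit 475212) (nat_lit 42) .nil)))) .nil)) 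
(.lf (nat_lit 138844) (.g (nat_lit 2377) (.e (nat_lit 24629) (nat_lit 9) (.e (nat_lit 336456) (nat_lit 34) (.e (nat_lit 483365) (nat_lit 18) (.e (nat_lit 57849) (nat_lit 252) (.e (nat_lit 57372) (nat_lit 2) .nil))))) .nil))) (.nd (nat_lit 6) 
(.lf (nat_lit 138812) (.g (nat_lit 2083) (.e (nat_lit 24629) (nat_lit 9) (.e (nat_lit 336454) (nat_lit 34) (.e (nat_lit 483364) (nat_lit 18) (.e (nat_lit 57852) (nat_lit 252) (.e (nat_lit 57370) (nat_lit 2) .nil))))) .nil)) 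
(.lf (nat_lit 138876) (.g (nat_lit 4035) (.e (nat_lit 24630) (nat_lit 9) (.e (nat_lit 336369) (nat_lit 27) (.e (nat_lit 426497) (nat_lit 27) (.e (nat_lit 335995) (nat_lit 1) (.e (nat_lit 57849) (nat_lit 252) (.e (nat_lit 57372) (nat_lit 2) (.e (nat_lit 90160) (nat_lit 11) .nil))))))) (.g (nat_lit 5) .nil .nil)))))))) 
(.nd (nat_lit 2) (.nd (nat_lit 3) (.nd (nat_lit 4) (.nd (nat_lit 5) (.nd (nat_lit 6) 
(.lf (nat_lit 138754) (.g (nat_lit 515) (.e (nat_lit 24629) (nat_lit 9) (.e (nat_lit 336019) (nat_lit 3) (.e (nat_lit 98356) (nat_lit 26) .nil))) .nil)) 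
(.lf (nat_lit 138818) (.g (nat_lit 3848) (.e (nat_lit 24629) (nat_lit 9) (.e (nat_lit 336454) (nat_lit 34) (.e (nat_lit 483365) (nat_lit 18) (.e (nat_lit 57846) (nat_lit 252) (.e (nat_lit 57370) (nat_lit 2) .nil))))) .nil))) (.nd (nat_lit 6) 
(.lf (nat_lit 138786) (.g (nat_lit 2284) (.e (nat_lit 24629) (nat_lit 9) (.e (nat_lit 336019) (nat_lit 3) (.e (nat_lit 98386) (nat_lit 32) (.e (nat_lit 475214) (nat_lit 42) (.e (nat_lit 720937) (nat_lit 22) (.e (nat_lit 90158) (nat_lit 11) .nil)))))) (.g (nat_lit 5) .nil .nil))) 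
(.lf (nat_lit 138850) (.g (nat_lit 265) (.e (nat_lit 24630) (nat_lit 9) (.e (nat_lit 336332) (nat_lit 19) (.e (nat_lit 220928) (nat_lit 5) .nil))) .nil)))) (.nd (nat_lit 5) (.nd (nat_lit 6) 
(.lf (nat_lit 138770) (.g (nat_lit 1128) (.e (nat_lit 24629) (nat_lit 9) (.e (nat_lit 336019) (nat_lit 3) (.e (nat_lit 98384) (nat_lit 32) (.e (nat_lit 475212) (nat_lit 42) .nil)))) .nil)) 
(.lf (nat_lit 138834) (.g (nat_lit 3543) (.e (nat_lit 24629) (nat_lit 9) (.e (nat_lit 336454) (nat_lit 34) (.e (nat_lit 483365) (nat_lit 18) (.e (nat_lit 57853) (nat_lit 252) (.e (nat_lit 57370) (nat_lit 2) (.e (nat_lit 90158) (nat_lit 11) .nil)))))) (.g (nat_lit 4) .nil .nil)))) (.nd (nat_lit 6) 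
(.lf (nat_lit 138802) (.g (nat_lit 2875) (.e (nat_lit 24629) (nat_lit 9) (.e (nat_lit 336454) (nat_lit 34) (.e (nat_lit 483363) (nat_lit 18) (.e (nat_lit 57847) (nat_lit 252) (.e (nat_lit 57373) (nat_lit 2) (.e (nat_lit 90158) (nat_lit 11) .nil)))))) (.g (nat_lit 5) .nil .nil))) 
(.lf (nat_lit 138866) (.g (nat_lit 2507) (.e (nat_lit 24630) (nat_lit 9) (.e (nat_lit 336369) (nat_lit 27) (.e (nat_lit 426497) (nat_lit 27) (.e (nat_lit 335988) (nat_lit 1) (.e (nat_lit 57854) (nat_lit 252) (.e (nat_lit 57371) (nat_lit 2) (.e (nat_lit 90158) (nat_lit 11) .nil))))))) (.g (nat_lit 4) .nil .nil)))))) (.nd (nat_lit 4) (.nd (nat_lit 5) (.nd (nat_lit 6) 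
(.lf (nat_lit 138762) (.g (nat_lit 551) (.e (nat_lit 24629) (nat_lit 9) (.e (nat_lit 336019) (nat_lit 3) (.e (nat_lit 98358) (nat_lit 26) .nil))) .nil)) 
(.lf (nat_lit 138826) (.g (nat_lit 2149) (.e (nat_lit 24629) (nat_lit 9) (.e (nat_lit 336454) (nat_lit 34) (.e (nat_lit 483365) (nat_lit 18) (.e (nat_lit 57848) (nat_lit 252) .nil)))) .nil))) (.nd (nat_lit 6) 
(.lf (nat_lit 138794) (.g (nat_lit 694) (.e (nat_lit 24629) (nat_lit 9) (.e (nat_lit 336369) (nat_lit 27) (.e (nat_lit 426173) (nat_lit 7) .nil))) .nil)) 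
(.lf (nat_lit 138858) (.g (nat_lit 2653) (.e (nat_lit 24630) (nat_lit 9) (.e (nat_lit 336369) (nat_lit 27) (.e (nat_lit 426497) (nat_lit 27) (.e (nat_lit 335986) (nat_lit 1) (.e (nat_lit 57847) (nat_lit 252) (.e (nat_lit 57372) (nat_lit 2) (.e (nat_lit 90158) (nat_lit 11) .nil))))))) (.g (nat_lit 4) .nil .nil))))) (.nd (nat_lit 5) (.nd (nat_lit 6) 
(.lf (nat_lit 138778) (.g (nat_lit 1929) (.e (nat_lit 24629) (nat_lit 9) (.e (nat_lit 336019) (nat_lit 3) (.e (nat_lit 98385) (nat_lit 32) (.e (nat_lit 475214) (nat_lit 42) (.e (nat_lit 720937) (nat_lit 22) (.e (nat_lit 90158) (nat_lit 11) .nil)))))) (.g (nat_lit 5) .nil .nil))) 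
(.lf (nat_lit 138842) (.g (nat_lit 774) (.e (nat_lit 24629) (nat_lit 9) (.e (nat_lit 336456) (nat_lit 34) (.e (nat_lit 491264) (nat_lit 3) .nil))) .nil))) (.nd (nat_lit 6) 
(.lf (nat_lit 138810) (.g (nat_lit 3292) (.e (nat_lit 24629) (nat_lit 9) (.e (nat_lit 336454) (nat_lit 34) (.e (nat_lit 483363) (nat_lit 18) (.e (nat_lit 57854) (nat_lit 252) (.e (nat_lit 57373) (nat_lit 2) (.e (nat_lit 90158) (nat_lit 11) .nil)))))) (.g (nat_lit 5) .nil .nil))) 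
(.lf (nat_lit 138874) (.g (nat_lit 2663) (.e (nat_lit 24630) (nat_lit 9) (.e (nat_lit 336369) (nat_lit 27) (.e (nat_lit 426497) (nat_lit 27) (.e (nat_lit 335995) (nat_lit 1) (.e (nat_lit 57848) (nat_lit 252) (.e (nat_lit 57375) (nat_lit 2) (.e (nat_lit 90160) (nat_lit 11) .nil))))))) (.g (nat_lit 4) .nil .nil))))))) (.nd (nat_lit 3) (.nd (nat_lit 4) (.nd (nat_lit 5) (.nd (nat_lit 6) 
(.lf (nat_lit 138758) (.g (nat_lit 2194) (.e (nat_lit 24629) (nat_lit 9) (.e (nat_lit 336019) (nat_lit 3) (.e (nat_lit 98356) (nat_lit 26) (.e (nat_lit 426448) (nat_lit 20) (.e (nat_lit 114714) (nat_lit 22) (.e (nat_lit 90158) (nat_lit 11) .nil)))))) (.g (nat_lit 4) .nil .nil))) 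
(.lf (nat_lit 138822) (.g (nat_lit 3298) (.e (nat_lit 24629) (nat_lit 9) (.e (nat_lit 336454) (nat_lit 34) (.e (nat_lit 483365) (nat_lit 18) (.e (nat_lit 57847) (nat_lit 252) (.e (nat_lit 57370) (nat_lit 2) (.e (nat_lit 90158) (nat_lit 11) .nil)))))) (.g (nat_lit 4) .nil .nil)))) (.nd (nat_lit 6) 
(.lf (nat_lit 138790) (.g (nat_lit 1842) (.e (nat_lit 24629) (nat_lit 9) (.e (nat_lit 336324) (nat_lit 18) (.e (nat_lit 204838) (nat_lit 20) (.e (nat_lit 114711) (nat_lit 21) .nil)))) .nil)) 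
(.lf (nat_lit 138854) (.g (nat_lit 1219) (.e (nat_lit 24630) (nat_lit 9) (.e (nat_lit 336369) (nat_lit 27) (.e (nat_lit 426025) (nat_lit 0) (.e (nat_lit 7936) (nat_lit 407) .nil)))) .nil)))) (.nd (nat_lit 5) (.nd (nat_lit 6) 
(.lf (nat_lit 138774) (.g (nat_lit 1260) (.e (nat_lit 24629) (nat_lit 9) (.e (nat_lit 336019) (nat_lit 3) (.e (nat_lit 98384) (nat_lit 32) (.e (nat_lit 475214) (nat_lit 42) .nil)))) .nil)) 
(.lf (nat_lit 138838) (.g (nat_lit 3738) (.e (nat_lit 24629) (nat_lit 9) (.e (nat_lit 336454) (nat_lit 34) (.e (nat_lit 483365) (nat_lit 18) (.e (nat_lit 57854) (nat_lit 252) (.e (nat_lit 57371) (nat_lit 2) (.e (nat_lit 90160) (nat_lit 11) .nil)))))) (.g (nat_lit 5) .nil .nil)))) (.nd (nat_lit 6) 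
(.lf (nat_lit 138806) (.g (nat_lit 2012) (.e (nat_lit 24629) (nat_lit 9) (.e (nat_lit 336454) (nat_lit 34) (.e (nat_lit 483363) (nat_lit 18) (.e (nat_lit 57853) (nat_lit 252) .nil)))) .nil)) 
(.lf (nat_lit 138870) (.g (nat_lit 2540) (.e (nat_lit 24630) (nat_lit 9) (.e (nat_lit 336369) (nat_lit 27) (.e (nat_lit 426497) (nat_lit 27) (.e (nat_lit 335995) (nat_lit 1) (.e (nat_lit 57847) (nat_lit 252) (.e (nat_lit 57375) (nat_lit 2) (.e (nat_lit 90160) (nat_lit 11) .nil))))))) (.g (nat_lit 4) .nil .nil)))))) (.nd (nat_lit 4) (.nd (nat_lit 5) (.nd (nat_lit 6) 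
(.lf (nat_lit 138766) (.g (nat_lit 1769) (.e (nat_lit 24629) (nat_lit 9) (.e (nat_lit 336019) (nat_lit 3) (.e (nat_lit 98358) (nat_lit 26) (.e (nat_lit 426448) (nat_lit 20) (.e (nat_lit 114716) (nat_lit 22) (.e (nat_lit 90158) (nat_lit 11) .nil)))))) (.g (nat_lit 4) .nil .nil))) 
(.lf (nat_lit 138830) (.g (nat_lit 2581) (.e (nat_lit 24629) (nat_lit 9) (.e (nat_lit 336454) (nat_lit 34) (.e (nat_lit 483365) (nat_lit 18) (.e (nat_lit 57851) (nat_lit 252) .nil)))) .nil))) (.nd (nat_lit 6) 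
(.lf (nat_lit 138798) (.g (nat_lit 737) (.e (nat_lit 24629) (nat_lit 9) (.e (nat_lit 336454) (nat_lit 34) (.e (nat_lit 491264) (nat_lit 3) .nil))) .nil)) 
(.lf (nat_lit 138862) (.g (nat_lit 3082) (.e (nat_lit 24630) (nat_lit 9) (.e (nat_lit 336369) (nat_lit 27) (.e (nat_lit 426497) (nat_lit 27) (.e (nat_lit 335986) (nat_lit 1) (.e (nat_lit 57847) (nat_lit 252) (.e (nat_lit 57375) (nat_lit 2) (.e (nat_lit 90160) (nat_lit 11) .nil))))))) (.g (nat_lit 4) .nil .nil))))) (.nd (nat_lit 5) (.nd (nat_lit 6) 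
(.lf (nat_lit 138782) (.g (nat_lit 1833) (.e (nat_lit 24629) (nat_lit 9) (.e (nat_lit 336019) (nat_lit 3) (.e (nat_lit 98386) (nat_lit 32) (.e (nat_lit 475212) (nat_lit 42) (.e (nat_lit 720938) (nat_lit 22) .nil))))) .nil)) 
(.lf (nat_lit 138846) (.g (nat_lit 1260) (.e (nat_lit 24630) (nat_lit 9) (.e (nat_lit 336019) (nat_lit 3) (.e (nat_lit 98384) (nat_lit 32) (.e (nat_lit 475214) (nat_lit 42) .nil)))) .nil))) (.nd (nat_lit 6) 
(.lf (nat_lit 138814) (.g (nat_lit 2724) (.e (nat_lit 24629) (nat_lit 9) (.e (nat_lit 336454) (nat_lit 34) (.e (nat_lit 483364) (nat_lit 18) (.e (nat_lit 57854) (nat_lit 252) (.e (nat_lit 57373) (nat_lit 2) (.e (nat_lit 90160) (nat_lit 11) .nil)))))) (.g (nat_lit 5) .nil .nil))) 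
(.lf (nat_lit 138878) (.g (nat_lit 2385) (.e (nat_lit 24630) (nat_lit 9) (.e (nat_lit 336369) (nat_lit 27) (.e (nat_lit 426497) (nat_lit 27) (.e (nat_lit 335996) (nat_lit 1) (.e (nat_lit 57851) (nat_lit 252) (.e (nat_lit 57371) (nat_lit 2) (.e (nat_lit 90158) (nat_lit 11) .nil))))))) (.g (nat_lit 4) .nil .nil))))))))) 
(.nd (nat_lit 1) (.nd (nat_lit 2) (.nd (nat_lit 3) (.nd (nat_lit 4) (.nd (nat_lit 5) 
(.nd (nat_lit 6) 
(.lf (nat_lit 138753) (.g (nat_lit 756) (.e (nat_lit 24629) (nat_lit 9) (.e (nat_lit 336019) (nat_lit 3) (.e (nat_lit 98355) (nat_lit 26) .nil))) .nil)) 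
(.lf (nat_lit 138817) (.g (nat_lit 2919) (.e (nat_lit 24629) (nat_lit 9) (.e (nat_lit 336454) (nat_lit 34) (.e (nat_lit 483365) (nat_lit 18) (.e (nat_lit 57846) (nat_lit 252) .nil)))) .nil))) (.nd (nat_lit 6) 
(.lf (nat_lit 138785) (.g (nat_lit 2224) (.e (nat_lit 24629) (nat_lit 9) (.e (nat_lit 336019) (nat_lit 3) (.e (nat_lit 98386) (nat_lit 32) (.e (nat_lit 475214) (nat_lit 42) (.e (nat_lit 720936) (nat_lit 22) .nil))))) .nil)) 
(.lf (nat_lit 138849) (.g (nat_lit 2105) (.e (nat_lit 24630) (nat_lit 9) (.e (nat_lit 336332) (nat_lit 19) (.e (nat_lit 212996) (nat_lit 0) (.e (nat_lit 1438) (nat_lit 108) (.e (nat_lit 336060) (nat_lit 7) (.e (nat_lit 319504) (nat_lit 10) (.e (nat_lit 7936) (nat_lit 314) .nil))))))) (.g (nat_lit 6) .nil .nil))))) (.nd (nat_lit 5) (.nd (nat_lit 6) 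
(.lf (nat_lit 138769) (.g (nat_lit 1391) (.e (nat_lit 24629) (nat_lit 9) (.e (nat_lit 336019) (nat_lit 3) (.e (nat_lit 98384) (nat_lit 32) (.e (nat_lit 475201) (nat_lit 40) .nil)))) .nil)) 
(.lf (nat_lit 138833) (.g (nat_lit 2752) (.e (nat_lit 24629) (nat_lit 9) (.e (nat_lit 336454) (nat_lit 34) (.e (nat_lit 483365) (nat_lit 18) (.e (nat_lit 57853) (nat_lit 252) .nil)))) .nil))) (.nd (nat_lit 6) 
(.lf (nat_lit 138801) (.g (nat_lit 2793) (.e (nat_lit 24629) (nat_lit 9) (.e (nat_lit 336454) (nat_lit 34) (.e (nat_lit 483363) (nat_lit 18) (.e (nat_lit 57847) (nat_lit 252) (.e (nat_lit 57372) (nat_lit 2) (.e (nat_lit 90158) (nat_lit 11) .nil)))))) (.g (nat_lit 5) .nil .nil))) 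
(.lf (nat_lit 138865) (.g (nat_lit 3760) (.e (nat_lit 24630) (nat_lit 9) (.e (nat_lit 336369) (nat_lit 27) (.e (nat_lit 426497) (nat_lit 27) (.e (nat_lit 335986) (nat_lit 1) (.e (nat_lit 57849) (nat_lit 252) (.e (nat_lit 57375) (nat_lit 2) (.e (nat_lit 90158) (nat_lit 11) .nil))))))) (.g (nat_lit 6) .nil .nil)))))) (.nd (nat_lit 4) (.nd (nat_lit 5) (.nd (nat_lit 6) 
(.lf (nat_lit 138761) (.g (nat_lit 793) (.e (nat_lit 24629) (nat_lit 9) (.e (nat_lit 336019) (nat_lit 3) (.e (nat_lit 98357) (nat_lit 26) .nil))) .nil)) 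
(.lf (nat_lit 138825) (.g (nat_lit 3603) (.e (nat_lit 24629) (nat_lit 9) (.e (nat_lit 336454) (nat_lit 34) (.e (nat_lit 483365) (nat_lit 18) (.e (nat_lit 57847) (nat_lit 252) (.e (nat_lit 57375) (nat_lit 2) (.e (nat_lit 90158) (nat_lit 11) .nil)))))) (.g (nat_lit 5) .nil .nil)))) (.nd (nat_lit 6) 
(.lf (nat_lit 138793) (.g (nat_lit 2097) (.e (nat_lit 24629) (nat_lit 9) (.e (nat_lit 336368) (nat_lit 27) (.e (nat_lit 426499) (nat_lit 27) (.e (nat_lit 335986) (nat_lit 1) (.e (nat_lit 57849) (nat_lit 252) (.e (nat_lit 57375) (nat_lit 2) (.e (nat_lit 90158) (nat_lit 11) .nil))))))) (.g (nat_lit 4) .nil .nil))) 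
(.lf (nat_lit 138857) (.g (nat_lit 3967) (.e (nat_lit 24630) (nat_lit 9) (.e (nat_lit 336369) (nat_lit 27) (.e (nat_lit 426497) (nat_lit 27) (.e (nat_lit 335986) (nat_lit 1) (.e (nat_lit 57847) (nat_lit 252) (.e (nat_lit 57370) (nat_lit 2) (.e (nat_lit 90158) (nat_lit 11) .nil))))))) (.g (nat_lit 5) .nil .nil))))) (.nd (nat_lit 5) (.nd (nat_lit 6) 
(.lf (nat_lit 138777) (.g (nat_lit 2194) (.e (nat_lit 24629) (nat_lit 9) (.e (nat_lit 336019) (nat_lit 3) (.e (nat_lit 98384) (nat_lit 32) (.e (nat_lit 475214) (nat_lit 42) (.e (nat_lit 720941) (nat_lit 22) .nil))))) .nil)) 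
(.lf (nat_lit 138841) (.g (nat_lit 2666) (.e (nat_lit 24629) (nat_lit 9) (.e (nat_lit 336454) (nat_lit 34) (.e (nat_lit 483366) (nat_lit 18) (.e (nat_lit 57854) (nat_lit 252) (.e (nat_lit 57373) (nat_lit 2) (.e (nat_lit 90159) (nat_lit 11) .nil)))))) (.g (nat_lit 4) .nil .nil)))) (.nd (nat_lit 6) 
(.lf (nat_lit 138809) (.g (nat_lit 2332) (.e (nat_lit 24629) (nat_lit 9) (.e (nat_lit 336454) (nat_lit 34) (.e (nat_lit 483363) (nat_lit 18) (.e (nat_lit 57854) (nat_lit 252) (.e (nat_lit 57371) (nat_lit 2) .nil))))) .nil)) 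
(.lf (nat_lit 138873) (.g (nat_lit 2571) (.e (nat_lit 24630) (nat_lit 9) (.e (nat_lit 336369) (nat_lit 27) (.e (nat_lit 426497) (nat_lit 27) (.e (nat_lit 335995) (nat_lit 1) (.e (nat_lit 57848) (nat_lit 252) (.e (nat_lit 57375) (nat_lit 2) (.e (nat_lit 90159) (nat_lit 11) .nil))))))) (.g (nat_lit 4) .nil .nil))))))) (.nd (nat_lit 3) (.nd (nat_lit 4) (.nd (nat_lit 5) (.nd (nat_lit 6) 
(.lf (nat_lit 138757) (.g (nat_lit 1333) (.e (nat_lit 24629) (nat_lit 9) (.e (nat_lit 336019) (nat_lit 3) (.e (nat_lit 98356) (nat_lit 26) (.e (nat_lit 426448) (nat_lit 20) .nil)))) .nil)) 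
(.lf (nat_lit 138821) (.g (nat_lit 2598) (.e (nat_lit 24629) (nat_lit 9) (.e (nat_lit 336454) (nat_lit 34) (.e (nat_lit 483365) (nat_lit 18) (.e (nat_lit 57847) (nat_lit 252) .nil)))) .nil))) (.nd (nat_lit 6) 
(.lf (nat_lit 138789) (.g (nat_lit 1931) (.e (nat_lit 24629) (nat_lit 9) (.e (nat_lit 336324) (nat_lit 18) (.e (nat_lit 204838) (nat_lit 20) (.e (nat_lit 114710) (nat_lit 21) .nil)))) .nil)) 
(.lf (nat_lit 138853) (.g (nat_lit 1219) (.e (nat_lit 24630) (nat_lit 9) (.e (nat_lit 336369) (nat_lit 27) (.e (nat_lit 426025) (nat_lit 0) (.e (nat_lit 7936) (nat_lit 406) .nil)))) .nil)))) (.nd (nat_lit 5) (.nd (nat_lit 6) 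
(.lf (nat_lit 138773) (.g (nat_lit 1551) (.e (nat_lit 24629) (nat_lit 9) (.e (nat_lit 336019) (nat_lit 3) (.e (nat_lit 98384) (nat_lit 32) (.e (nat_lit 475213) (nat_lit 42) .nil)))) .nil)) 
(.lf (nat_lit 138837) (.g (nat_lit 3363) (.e (nat_lit 24629) (nat_lit 9) (.e (nat_lit 336454) (nat_lit 34) (.e (nat_lit 483365) (nat_lit 18) (.e (nat_lit 57854) (nat_lit 252) (.e (nat_lit 57370) (nat_lit 2) .nil))))) .nil))) (.nd (nat_lit 6) 
(.lf (nat_lit 138805) (.g (nat_lit 3106) (.e (nat_lit 24629) (nat_lit 9) (.e (nat_lit 336454) (nat_lit 34) (.e (nat_lit 483363) (nat_lit 18) (.e (nat_lit 57849) (nat_lit 252) (.e (nat_lit 57372) (nat_lit 2) (.e (nat_lit 90158) (nat_lit 11) .nil)))))) (.g (nat_lit 5) .nil .nil))) 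
(.lf (nat_lit 138869) (.g (nat_lit 2549) (.e (nat_lit 24630) (nat_lit 9) (.e (nat_lit 336369) (nat_lit 27) (.e (nat_lit 426497) (nat_lit 27) (.e (nat_lit 335995) (nat_lit 1) (.e (nat_lit 57847) (nat_lit 252) (.e (nat_lit 57372) (nat_lit 2) (.e (nat_lit 90160) (nat_lit 11) .nil))))))) (.g (nat_lit 4) .nil .nil)))))) (.nd (nat_lit 4) (.nd (nat_lit 5) (.nd (nat_lit 6) 
(.lf (nat_lit 138765) (.g (nat_lit 2228) (.e (nat_lit 24629) (nat_lit 9) (.e (nat_lit 336019) (nat_lit 3) (.e (nat_lit 98358) (nat_lit 26) (.e (nat_lit 426448) (nat_lit 20) (.e (nat_lit 114714) (nat_lit 22) (.e (nat_lit 90158) (nat_lit 11) .nil)))))) (.g (nat_lit 5) .nil .nil))) 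
(.lf (nat_lit 138829) (.g (nat_lit 3436) (.e (nat_lit 24629) (nat_lit 9) (.e (nat_lit 336454) (nat_lit 34) (.e (nat_lit 483365) (nat_lit 18) (.e (nat_lit 57849) (nat_lit 252) (.e (nat_lit 57375) (nat_lit 2) .nil))))) .nil))) (.nd (nat_lit 6) 
(.lf (nat_lit 138797) (.g (nat_lit 2404) (.e (nat_lit 24629) (nat_lit 9) (.e (nat_lit 336370) (nat_lit 27) (.e (nat_lit 426499) (nat_lit 27) (.e (nat_lit 335986) (nat_lit 1) (.e (nat_lit 57849) (nat_lit 252) (.e (nat_lit 57372) (nat_lit 2) (.e (nat_lit 90158) (nat_lit 11) .nil))))))) (.g (nat_lit 5) .nil .nil))) 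
(.lf (nat_lit 138861) (.g (nat_lit 2395) (.e (nat_lit 24630) (nat_lit 9) (.e (nat_lit 336369) (nat_lit 27) (.e (nat_lit 426497) (nat_lit 27) (.e (nat_lit 335986) (nat_lit 1) (.e (nat_lit 57847) (nat_lit 252) (.e (nat_lit 57375) (nat_lit 2) (.e (nat_lit 90158) (nat_lit 11) .nil))))))) (.g (nat_lit 4) .nil .nil))))) (.nd (nat_lit 5) (.nd (nat_lit 6) 
(.lf (nat_lit 138781) (.g (nat_lit 1906) (.e (nat_lit 24629) (nat_lit 9) (.e (nat_lit 336019) (nat_lit 3) (.e (nat_lit 98386) (nat_lit 32) (.e (nat_lit 475212) (nat_lit 42) (.e (nat_lit 720937) (nat_lit 22) .nil))))) .nil)) 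
(.lf (nat_lit 138845) (.g (nat_lit 2284) (.e (nat_lit 24629) (nat_lit 9) (.e (nat_lit 336456) (nat_lit 34) (.e (nat_lit 483365) (nat_lit 18) (.e (nat_lit 57849) (nat_lit 252) (.e (nat_lit 57375) (nat_lit 2) .nil))))) .nil))) (.nd (nat_lit 6) 
(.lf (nat_lit 138813) (.g (nat_lit 1927) (.e (nat_lit 24629) (nat_lit 9) (.e (nat_lit 336454) (nat_lit 34) (.e (nat_lit 483364) (nat_lit 18) (.e (nat_lit 57854) (nat_lit 252) (.e (nat_lit 57370) (nat_lit 2) .nil))))) .nil)) 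
(.lf (nat_lit 138877) (.g (nat_lit 3706) (.e (nat_lit 24630) (nat_lit 9) (.e (nat_lit 336369) (nat_lit 27) (.e (nat_lit 426497) (nat_lit 27) (.e (nat_lit 335995) (nat_lit 1) (.e (nat_lit 57849) (nat_lit 252) (.e (nat_lit 57375) (nat_lit 2) (.e (nat_lit 90158) (nat_lit 11) .nil))))))) (.g (nat_lit 5) .nil .nil)))))))) 
(.nd (nat_lit 2) (.nd (nat_lit 3) (.nd (nat_lit 4) (.nd (nat_lit 5) (.nd (nat_lit 6) 
(.lf (nat_lit 138755) (.g (nat_lit 1665) (.e (nat_lit 24629) (nat_lit 9) (.e (nat_lit 336019) (nat_lit 3) (.e (nat_lit 98356) (nat_lit 26) (.e (nat_lit 426361) (nat_lit 15) (.e (nat_lit 2203) (nat_lit 144) .nil))))) .nil)) 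
(.lf (nat_lit 138819) (.g (nat_lit 3890) (.e (nat_lit 24629) (nat_lit 9) (.e (nat_lit 336454) (nat_lit 34) (.e (nat_lit 483365) (nat_lit 18) (.e (nat_lit 57846) (nat_lit 252) (.e (nat_lit 57371) (nat_lit 2) .nil))))) .nil))) (.nd (nat_lit 6) 
(.lf (nat_lit 138787) (.g (nat_lit 2270) (.e (nat_lit 24629) (nat_lit 9) (.e (nat_lit 336019) (nat_lit 3) (.e (nat_lit 98386) (nat_lit 32) (.e (nat_lit 475214) (nat_lit 42) (.e (nat_lit 720938) (nat_lit 22) (.e (nat_lit 90158) (nat_lit 11) .nil)))))) (.g (nat_lit 5) .nil .nil))) 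
(.lf (nat_lit 138851) (.g (nat_lit 2801) (.e (nat_lit 24630) (nat_lit 9) (.e (nat_lit 336367) (nat_lit 27) (.e (nat_lit 426530) (nat_lit 27) (.e (nat_lit 335998) (nat_lit 1) (.e (nat_lit 57849) (nat_lit 252) (.e (nat_lit 57372) (nat_lit 2) (.e (nat_lit 90158) (nat_lit 11) .nil))))))) (.g (nat_lit 5) .nil .nil))))) (.nd (nat_lit 5) (.nd (nat_lit 6) 
(.lf (nat_lit 138771) (.g (nat_lit 1784) (.e (nat_lit 24629) (nat_lit 9) (.e (nat_lit 336019) (nat_lit 3) (.e (nat_lit 98384) (nat_lit 32) (.e (nat_lit 475212) (nat_lit 42) (.e (nat_lit 720937) (nat_lit 22) .nil))))) .nil)) 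
(.lf (nat_lit 138835) (.g (nat_lit 4006) (.e (nat_lit 24629) (nat_lit 9) (.e (nat_lit 336454) (nat_lit 34) (.e (nat_lit 483365) (nat_lit 18) (.e (nat_lit 57853) (nat_lit 252) (.e (nat_lit 57371) (nat_lit 2) (.e (nat_lit 90158) (nat_lit 11) .nil)))))) (.g (nat_lit 5) .nil .nil)))) (.nd (nat_lit 6) 
(.lf (nat_lit 138803) (.g (nat_lit 2690) (.e (nat_lit 24629) (nat_lit 9) (.e (nat_lit 336454) (nat_lit 34) (.e (nat_lit 483363) (nat_lit 18) (.e (nat_lit 57847) (nat_lit 252) (.e (nat_lit 57375) (nat_lit 2) (.e (nat_lit 90158) (nat_lit 11) .nil)))))) (.g (nat_lit 5) .nil .nil))) 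
(.lf (nat_lit 138867) (.g (nat_lit 2938) (.e (nat_lit 24630) (nat_lit 9) (.e (nat_lit 336369) (nat_lit 27) (.e (nat_lit 426497) (nat_lit 27) (.e (nat_lit 335988) (nat_lit 1) (.e (nat_lit 57854) (nat_lit 252) (.e (nat_lit 57373) (nat_lit 2) (.e (nat_lit 90158) (nat_lit 11) .nil))))))) (.g (nat_lit 4) .nil .nil)))))) (.nd (nat_lit 4) (.nd (nat_lit 5) (.nd (nat_lit 6) 
(.lf (nat_lit 138763) (.g (nat_lit 1850) (.e (nat_lit 24629) (nat_lit 9) (.e (nat_lit 336019) (nat_lit 3) (.e (nat_lit 98358) (nat_lit 26) (.e (nat_lit 426446) (nat_lit 20) (.e (nat_lit 114714) (nat_lit 22) .nil))))) .nil)) 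
(.lf (nat_lit 138827) (.g (nat_lit 2555) (.e (nat_lit 24629) (nat_lit 9) (.e (nat_lit 336454) (nat_lit 34) (.e (nat_lit 483365) (nat_lit 18) (.e (nat_lit 57849) (nat_lit 252) .nil)))) .nil))) (.nd (nat_lit 6) 
(.lf (nat_lit 138795) (.g (nat_lit 1853) (.e (nat_lit 24629) (nat_lit 9) (.e (nat_lit 336369) (nat_lit 27) (.e (nat_lit 426173) (nat_lit 7) (.e (nat_lit 409617) (nat_lit 10) (.e (nat_lit 4934) (nat_lit 287) .nil))))) .nil)) 
(.lf (nat_lit 138859) (.g (nat_lit 3199) (.e (nat_lit 24630) (nat_lit 9) (.e (nat_lit 336369) (nat_lit 27) (.e (nat_lit 426497) (nat_lit 27) (.e (nat_lit 335986) (nat_lit 1) (.e (nat_lit 57847) (nat_lit 252) (.e (nat_lit 57372) (nat_lit 2) (.e (nat_lit 90160) (nat_lit 11) .nil))))))) (.g (nat_lit 5) .nil .nil))))) (.nd (nat_lit 5) (.nd (nat_lit 6) 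
(.lf (nat_lit 138779) (.g (nat_lit 669) (.e (nat_lit 24629) (nat_lit 9) (.e (nat_lit 336019) (nat_lit 3) (.e (nat_lit 98386) (nat_lit 32) .nil))) .nil)) 
(.lf (nat_lit 138843) (.g (nat_lit 803) (.e (nat_lit 24629) (nat_lit 9) (.e (nat_lit 336456) (nat_lit 34) (.e (nat_lit 483363) (nat_lit 18) .nil))) .nil))) (.nd (nat_lit 6) 
(.lf (nat_lit 138811) (.g (nat_lit 1382) (.e (nat_lit 24629) (nat_lit 9) (.e (nat_lit 336454) (nat_lit 34) (.e (nat_lit 483364) (nat_lit 18) (.e (nat_lit 57852) (nat_lit 252) .nil)))) .nil)) 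
(.lf (nat_lit 138875) (.g (nat_lit 3674) (.e (nat_lit 24630) (nat_lit 9) (.e (nat_lit 336369) (nat_lit 27) (.e (nat_lit 426497) (nat_lit 27) (.e (nat_lit 335995) (nat_lit 1) (.e (nat_lit 57849) (nat_lit 252) (.e (nat_lit 57372) (nat_lit 2) (.e (nat_lit 90158) (nat_lit 11) .nil))))))) (.g (nat_lit 5) .nil .nil))))))) (.nd (nat_lit 3) (.nd (nat_lit 4) (.nd (nat_lit 5) (.nd (nat_lit 6) 
(.lf (nat_lit 138759) (.g (nat_lit 2108) (.e (nat_lit 24629) (nat_lit 9) (.e (nat_lit 336019) (nat_lit 3) (.e (nat_lit 98356) (nat_lit 26) (.e (nat_lit 426448) (nat_lit 20) (.e (nat_lit 114716) (nat_lit 22) .nil))))) .nil)) 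
(.lf (nat_lit 138823) (.g (nat_lit 3687) (.e (nat_lit 24629) (nat_lit 9) (.e (nat_lit 336454) (nat_lit 34) (.e (nat_lit 483365) (nat_lit 18) (.e (nat_lit 57847) (nat_lit 252) (.e (nat_lit 57372) (nat_lit 2) (.e (nat_lit 90158) (nat_lit 11) .nil)))))) (.g (nat_lit 5) .nil .nil)))) (.nd (nat_lit 6) 
(.lf (nat_lit 138791) (.g (nat_lit 1701) (.e (nat_lit 24629) (nat_lit 9) (.e (nat_lit 336324) (nat_lit 18) (.e (nat_lit 204838) (nat_lit 20) (.e (nat_lit 114712) (nat_lit 21) .nil)))) .nil)) 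
(.lf (nat_lit 138855) (.g (nat_lit 1358) (.e (nat_lit 24630) (nat_lit 9) (.e (nat_lit 336369) (nat_lit 27) (.e (nat_lit 426173) (nat_lit 7) (.e (nat_lit 409617) (nat_lit 10) (.e (nat_lit 4926) (nat_lit 287) .nil))))) .nil)))) (.nd (nat_lit 5) (.nd (nat_lit 6) 
(.lf (nat_lit 138775) (.g (nat_lit 1864) (.e (nat_lit 24629) (nat_lit 9) (.e (nat_lit 336019) (nat_lit 3) (.e (nat_lit 98384) (nat_lit 32) (.e (nat_lit 475214) (nat_lit 42) (.e (nat_lit 720937) (nat_lit 22) .nil))))) .nil)) 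
(.lf (nat_lit 138839) (.g (nat_lit 744) (.e (nat_lit 24629) (nat_lit 9) (.e (nat_lit 336454) (nat_lit 34) (.e (nat_lit 483366) (nat_lit 18) .nil))) .nil))) (.nd (nat_lit 6) 
(.lf (nat_lit 138807) (.g (nat_lit 2776) (.e (nat_lit 24629) (nat_lit 9) (.e (nat_lit 336454) (nat_lit 34) (.e (nat_lit 483363) (nat_lit 18) (.e (nat_lit 57853) (nat_lit 252) (.e (nat_lit 57371) (nat_lit 2) .nil))))) .nil)) 
(.lf (nat_lit 138871) (.g (nat_lit 2707) (.e (nat_lit 24630) (nat_lit 9) (.e (nat_lit 336369) (nat_lit 27) (.e (nat_lit 426497) (nat_lit 27) (.e (nat_lit 335995) (nat_lit 1) (.e (nat_lit 57848) (nat_lit 252) (.e (nat_lit 57372) (nat_lit 2) (.e (nat_lit 90159) (nat_lit 11) .nil))))))) (.g (nat_lit 4) .nil .nil)))))) (.nd (nat_lit 4) (.nd (nat_lit 5) (.nd (nat_lit 6) 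
(.lf (nat_lit 138767) (.g (nat_lit 1435) (.e (nat_lit 24629) (nat_lit 9) (.e (nat_lit 336019) (nat_lit 3) (.e (nat_lit 98358) (nat_lit 26) (.e (nat_lit 426449) (nat_lit 20) .nil)))) .nil)) 
(.lf (nat_lit 138831) (.g (nat_lit 3520) (.e (nat_lit 24629) (nat_lit 9) (.e (nat_lit 336454) (nat_lit 34) (.e (nat_lit 483365) (nat_lit 18) (.e (nat_lit 57852) (nat_lit 252) (.e (nat_lit 57370) (nat_lit 2) (.e (nat_lit 90158) (nat_lit 11) .nil)))))) (.g (nat_lit 4) .nil .nil)))) (.nd (nat_lit 6) 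
(.lf (nat_lit 138799) (.g (nat_lit 1741) (.e (nat_lit 24629) (nat_lit 9) (.e (nat_lit 336454) (nat_lit 34) (.e (nat_lit 483363) (nat_lit 18) (.e (nat_lit 57847) (nat_lit 252) .nil)))) .nil)) 
(.lf (nat_lit 138863) (.g (nat_lit 3837) (.e (nat_lit 24630) (nat_lit 9) (.e (nat_lit 336369) (nat_lit 27) (.e (nat_lit 426497) (nat_lit 27) (.e (nat_lit 335986) (nat_lit 1) (.e (nat_lit 57849) (nat_lit 252) (.e (nat_lit 57372) (nat_lit 2) (.e (nat_lit 90158) (nat_lit 11) .nil))))))) (.g (nat_lit 6) .nil .nil))))) (.nd (nat_lit 5) (.nd (nat_lit 6) 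
(.lf (nat_lit 138783) (.g (nat_lit 1891) (.e (nat_lit 24629) (nat_lit 9) (.e (nat_lit 336019) (nat_lit 3) (.e (nat_lit 98386) (nat_lit 32) (.e (nat_lit 475212) (nat_lit 42) (.e (nat_lit 720941) (nat_lit 22) .nil))))) .nil)) 
(.lf (nat_lit 138847) (.g (nat_lit 2264) (.e (nat_lit 24630) (nat_lit 9) (.e (nat_lit 336306) (nat_lit 15) (.e (nat_lit 3307) (nat_lit 202) (.e (nat_lit 573484) (nat_lit 13) (.e (nat_lit 65617) (nat_lit 10) .nil))))) .nil))) (.nd (nat_lit 6) 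
(.lf (nat_lit 138815) (.g (nat_lit 530) (.e (nat_lit 24629) (nat_lit 9) (.e (nat_lit 336454) (nat_lit 34) (.e (nat_lit 483365) (nat_lit 18) .nil))) .nil)) 
(.lf (nat_lit 138879) (.g (nat_lit 2943) (.e (nat_lit 24630) (nat_lit 9) (.e (nat_lit 336369) (nat_lit 27) (.e (nat_lit 426497) (nat_lit 27) (.e (nat_lit 335996) (nat_lit 1) (.e (nat_lit 57852) (nat_lit 252) (.e (nat_lit 57370) (nat_lit 2) (.e (nat_lit 90158) (nat_lit 11) .nil))))))) (.g (nat_lit 4) .nil .nil))))))))))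

noncomputable def tv1845 : DT := (.nd (nat_lit 0) (.nd (nat_lit 1) (.nd (nat_lit 2) (.nd (nat_lit 3) (.nd (nat_lit 4) (.nd (nat_lit 5) 
(.lf (nat_lit 138880) (.g (nat_lit 3298) (.e (nat_lit 24630) (nat_lit 9) (.e (nat_lit 336369) (nat_lit 27) (.e (nat_lit 426497) (nat_lit 27) (.e (nat_lit 335996) (nat_lit 1) (.e (nat_lit 57852) (nat_lit 252) (.e (nat_lit 57371) (nat_lit 2) (.e (nat_lit 90158) (nat_lit 11) .nil))))))) (.g (nat_lit 5) .nil .nil))) 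
(.lf (nat_lit 138912) (.g (nat_lit 3001) (.e (nat_lit 24630) (nat_lit 9) (.e (nat_lit 336369) (nat_lit 27) (.e (nat_lit 426501) (nat_lit 27) (.e (nat_lit 335986) (nat_lit 1) (.e (nat_lit 57847) (nat_lit 252) (.e (nat_lit 57373) (nat_lit 2) (.e (nat_lit 90158) (nat_lit 11) .nil))))))) (.g (nat_lit 5) .nil .nil)))) (.nd (nat_lit 5) 
(.lf (nat_lit 138896) (.g (nat_lit 4284) (.e (nat_lit 24630) (nat_lit 9) (.e (nat_lit 336369) (nat_lit 27) (.e (nat_lit 426499) (nat_lit 27) (.e (nat_lit 335986) (nat_lit 1) (.e (nat_lit 57847) (nat_lit 252) (.e (nat_lit 57373) (nat_lit 2) (.e (nat_lit 90158) (nat_lit 11) .nil))))))) (.g (nat_lit 5) .nil .nil))) 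
(.lf (nat_lit 138928) (.g (nat_lit 3481) (.e (nat_lit 24630) (nat_lit 9) (.e (nat_lit 336369) (nat_lit 27) (.e (nat_lit 426501) (nat_lit 27) (.e (nat_lit 335995) (nat_lit 1) (.e (nat_lit 57848) (nat_lit 252) (.e (nat_lit 57375) (nat_lit 2) (.e (nat_lit 90159) (nat_lit 11) .nil))))))) (.g (nat_lit 6) .nil .nil))))) (.nd (nat_lit 4) (.nd (nat_lit 5) 
(.lf (nat_lit 138888) (.g (nat_lit 3026) (.e (nat_lit 24630) (nat_lit 9) (.e (nat_lit 336369) (nat_lit 27) (.e (nat_lit 426498) (nat_lit 27) (.e (nat_lit 335986) (nat_lit 1) (.e (nat_lit 57849) (nat_lit 252) (.e (nat_lit 57375) (nat_lit 2) (.e (nat_lit 90158) (nat_lit 11) .nil))))))) (.g (nat_lit 4) .nil .nil))) 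
(.lf (nat_lit 138920) (.g (nat_lit 3581) (.e (nat_lit 24630) (nat_lit 9) (.e (nat_lit 336369) (nat_lit 27) (.e (nat_lit 426501) (nat_lit 27) (.e (nat_lit 335995) (nat_lit 1) (.e (nat_lit 57847) (nat_lit 252) (.e (nat_lit 57370) (nat_lit 2) (.e (nat_lit 90158) (nat_lit 11) .nil))))))) (.g (nat_lit 5) .nil .nil)))) (.nd (nat_lit 5) 
(.lf (nat_lit 138904) (.g (nat_lit 2882) (.e (nat_lit 24630) (nat_lit 9) (.e (nat_lit 336369) (nat_lit 27) (.e (nat_lit 426499) (nat_lit 27) (.e (nat_lit 335995) (nat_lit 1) (.e (nat_lit 57848) (nat_lit 252) .nil))))) .nil)) 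
(.lf (nat_lit 138936) (.g (nat_lit 3301) (.e (nat_lit 24630) (nat_lit 9) (.e (nat_lit 336369) (nat_lit 27) (.e (nat_lit 426501) (nat_lit 27) (.e (nat_lit 335996) (nat_lit 1) (.e (nat_lit 57853) (nat_lit 252) (.e (nat_lit 57371) (nat_lit 2) (.e (nat_lit 90158) (nat_lit 11) .nil))))))) (.g (nat_lit 5) .nil .nil)))))) (.nd (nat_lit 3) (.nd (nat_lit 4) (.nd (nat_lit 5) 
(.lf (nat_lit 138884) (.g (nat_lit 2220) (.e (nat_lit 24630) (nat_lit 9) (.e (nat_lit 336369) (nat_lit 27) (.e (nat_lit 426498) (nat_lit 27) (.e (nat_lit 335986) (nat_lit 1) (.e (nat_lit 57847) (nat_lit 252) .nil))))) .nil)) 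
(.lf (nat_lit 138916) (.g (nat_lit 2825) (.e (nat_lit 24630) (nat_lit 9) (.e (nat_lit 336369) (nat_lit 27) (.e (nat_lit 426501) (nat_lit 27) (.e (nat_lit 335988) (nat_lit 1) (.e (nat_lit 57854) (nat_lit 252) (.e (nat_lit 57370) (nat_lit 2) (.e (nat_lit 90158) (nat_lit 11) .nil))))))) (.g (nat_lit 4) .nil .nil)))) (.nd (nat_lit 5) 
(.lf (nat_lit 138900) (.g (nat_lit 2903) (.e (nat_lit 24630) (nat_lit 9) (.e (nat_lit 336369) (nat_lit 27) (.e (nat_lit 426499) (nat_lit 27) (.e (nat_lit 335986) (nat_lit 1) (.e (nat_lit 57854) (nat_lit 252) (.e (nat_lit 57373) (nat_lit 2) (.e (nat_lit 90160) (nat_lit 11) .nil))))))) (.g (nat_lit 4) .nil .nil))) 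
(.lf (nat_lit 138932) (.g (nat_lit 3106) (.e (nat_lit 24630) (nat_lit 9) (.e (nat_lit 336369) (nat_lit 27) (.e (nat_lit 426501) (nat_lit 27) (.e (nat_lit 335996) (nat_lit 1) (.e (nat_lit 57851) (nat_lit 252) (.e (nat_lit 57371) (nat_lit 2) (.e (nat_lit 90158) (nat_lit 11) .nil))))))) (.g (nat_lit 5) .nil .nil))))) (.nd (nat_lit 4) (.nd (nat_lit 5) 
(.lf (nat_lit 138892) (.g (nat_lit 5213) (.e (nat_lit 24630) (nat_lit 9) (.e (nat_lit 336369) (nat_lit 27) (.e (nat_lit 426499) (nat_lit 27) (.e (nat_lit 335986) (nat_lit 1) (.e (nat_lit 57847) (nat_lit 252) (.e (nat_lit 57370) (nat_lit 2) (.e (nat_lit 90158) (nat_lit 11) .nil))))))) (.g (nat_lit 5) .nil .nil))) 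
(.lf (nat_lit 138924) (.g (nat_lit 3208) (.e (nat_lit 24630) (nat_lit 9) (.e (nat_lit 336369) (nat_lit 27) (.e (nat_lit 426501) (nat_lit 27) (.e (nat_lit 335995) (nat_lit 1) (.e (nat_lit 57848) (nat_lit 252) (.e (nat_lit 57372) (nat_lit 2) (.e (nat_lit 90156) (nat_lit 11) .nil))))))) (.g (nat_lit 5) .nil .nil)))) (.nd (nat_lit 5) 
(.lf (nat_lit 138908) (.g (nat_lit 3159) (.e (nat_lit 24630) (nat_lit 9) (.e (nat_lit 336369) (nat_lit 27) (.e (nat_lit 426499) (nat_lit 27) (.e (nat_lit 335996) (nat_lit 1) (.e (nat_lit 57852) (nat_lit 252) (.e (nat_lit 57373) (nat_lit 2) (.e (nat_lit 90160) (nat_lit 11) .nil))))))) (.g (nat_lit 4) .nil .nil))) 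
(.lf (nat_lit 138940) (.g (nat_lit 3905) (.e (nat_lit 24630) (nat_lit 9) (.e (nat_lit 336369) (nat_lit 27) (.e (nat_lit 426501) (nat_lit 27) (.e (nat_lit 335996) (nat_lit 1) (.e (nat_lit 57854) (nat_lit 252) (.e (nat_lit 57373) (nat_lit 2) (.e (nat_lit 90160) (nat_lit 11) .nil))))))) (.g (nat_lit 6) .nil .nil))))))) (.nd (nat_lit 2) (.nd (nat_lit 3) (.nd (nat_lit 4) (.nd (nat_lit 5) 
(.lf (nat_lit 138882) (.g (nat_lit 2865) (.e (nat_lit 24630) (nat_lit 9) (.e (nat_lit 336369) (nat_lit 27) (.e (nat_lit 426497) (nat_lit 27) (.e (nat_lit 335996) (nat_lit 1) (.e (nat_lit 57854) (nat_lit 252) (.e (nat_lit 57373) (nat_lit 2) (.e (nat_lit 90158) (nat_lit 11) .nil))))))) (.g (nat_lit 4) .nil .nil))) 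
(.lf (nat_lit 138914) (.g (nat_lit 3330) (.e (nat_lit 24630) (nat_lit 9) (.e (nat_lit 336369) (nat_lit 27) (.e (nat_lit 426501) (nat_lit 27) (.e (nat_lit 335986) (nat_lit 1) (.e (nat_lit 57847) (nat_lit 252) (.e (nat_lit 57375) (nat_lit 2) (.e (nat_lit 90160) (nat_lit 11) .nil))))))) (.g (nat_lit 5) .nil .nil)))) (.nd (nat_lit 5) 
(.lf (nat_lit 138898) (.g (nat_lit 4618) (.e (nat_lit 24630) (nat_lit 9) (.e (nat_lit 336369) (nat_lit 27) (.e (nat_lit 426499) (nat_lit 27) (.e (nat_lit 335986) (nat_lit 1) (.e (nat_lit 57847) (nat_lit 252) (.e (nat_lit 57375) (nat_lit 2) (.e (nat_lit 90160) (nat_lit 11) .nil))))))) (.g (nat_lit 6) .nil .nil))) 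
(.lf (nat_lit 138930) (.g (nat_lit 4106) (.e (nat_lit 24630) (nat_lit 9) (.e (nat_lit 336369) (nat_lit 27) (.e (nat_lit 426501) (nat_lit 27) (.e (nat_lit 335995) (nat_lit 1) (.e (nat_lit 57849) (nat_lit 252) (.e (nat_lit 57372) (nat_lit 2) (.e (nat_lit 90160) (nat_lit 11) .nil))))))) (.g (nat_lit 6) .nil .nil))))) (.nd (nat_lit 4) (.nd (nat_lit 5) 
(.lf (nat_lit 138890) (.g (nat_lit 2605) (.e (nat_lit 24630) (nat_lit 9) (.e (nat_lit 336369) (nat_lit 27) (.e (nat_lit 426498) (nat_lit 27) (.e (nat_lit 335988) (nat_lit 1) (.e (nat_lit 57854) (nat_lit 252) (.e (nat_lit 57373) (nat_lit 2) (.e (nat_lit 90160) (nat_lit 11) .nil))))))) (.g (nat_lit 4) .nil .nil))) 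
(.lf (nat_lit 138922) (.g (nat_lit 2875) (.e (nat_lit 24630) (nat_lit 9) (.e (nat_lit 336369) (nat_lit 27) (.e (nat_lit 426501) (nat_lit 27) (.e (nat_lit 335995) (nat_lit 1) (.e (nat_lit 57847) (nat_lit 252) (.e (nat_lit 57372) (nat_lit 2) (.e (nat_lit 90160) (nat_lit 11) .nil))))))) (.g (nat_lit 5) .nil .nil)))) (.nd (nat_lit 5) 
(.lf (nat_lit 138906) (.g (nat_lit 3117) (.e (nat_lit 24630) (nat_lit 9) (.e (nat_lit 336369) (nat_lit 27) (.e (nat_lit 426499) (nat_lit 27) (.e (nat_lit 335996) (nat_lit 1) (.e (nat_lit 57852) (nat_lit 252) (.e (nat_lit 57371) (nat_lit 2) (.e (nat_lit 90158) (nat_lit 11) .nil))))))) (.g (nat_lit 4) .nil .nil))) 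
(.lf (nat_lit 138938) (.g (nat_lit 2900) (.e (nat_lit 24630) (nat_lit 9) (.e (nat_lit 336369) (nat_lit 27) (.e (nat_lit 426501) (nat_lit 27) (.e (nat_lit 335996) (nat_lit 1) (.e (nat_lit 57854) (nat_lit 252) (.e (nat_lit 57371) (nat_lit 2) (.e (nat_lit 90158) (nat_lit 11) .nil))))))) (.g (nat_lit 5) .nil .nil)))))) (.nd (nat_lit 3) (.nd (nat_lit 4) (.nd (nat_lit 5) 
(.lf (nat_lit 138886) (.g (nat_lit 3103) (.e (nat_lit 24630) (nat_lit 9) (.e (nat_lit 336369) (nat_lit 27) (.e (nat_lit 426498) (nat_lit 27) (.e (nat_lit 335986) (nat_lit 1) (.e (nat_lit 57849) (nat_lit 252) (.e (nat_lit 57372) (nat_lit 2) (.e (nat_lit 90158) (nat_lit 11) .nil))))))) (.g (nat_lit 5) .nil .nil))) 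
(.lf (nat_lit 138918) (.g (nat_lit 3667) (.e (nat_lit 24630) (nat_lit 9) (.e (nat_lit 336369) (nat_lit 27) (.e (nat_lit 426501) (nat_lit 27) (.e (nat_lit 335988) (nat_lit 1) (.e (nat_lit 57854) (nat_lit 252) (.e (nat_lit 57373) (nat_lit 2) (.e (nat_lit 90158) (nat_lit 11) .nil))))))) (.g (nat_lit 5) .nil .nil)))) (.nd (nat_lit 5) 
(.lf (nat_lit 138902) (.g (nat_lit 3164) (.e (nat_lit 24630) (nat_lit 9) (.e (nat_lit 336369) (nat_lit 27) (.e (nat_lit 426499) (nat_lit 27) (.e (nat_lit 335988) (nat_lit 1) (.e (nat_lit 57854) (nat_lit 252) (.e (nat_lit 57373) (nat_lit 2) (.e (nat_lit 90160) (nat_lit 11) .nil))))))) (.g (nat_lit 4) .nil .nil))) 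
(.lf (nat_lit 138934) (.g (nat_lit 4120) (.e (nat_lit 24630) (nat_lit 9) (.e (nat_lit 336369) (nat_lit 27) (.e (nat_lit 426501) (nat_lit 27) (.e (nat_lit 335996) (nat_lit 1) (.e (nat_lit 57852) (nat_lit 252) (.e (nat_lit 57373) (nat_lit 2) (.e (nat_lit 90158) (nat_lit 11) .nil))))))) (.g (nat_lit 5) .nil .nil))))) (.nd (nat_lit 4) (.nd (nat_lit 5) 
(.lf (nat_lit 138894) (.g (nat_lit 4184) (.e (nat_lit 24630) (nat_lit 9) (.e (nat_lit 336369) (nat_lit 27) (.e (nat_lit 426499) (nat_lit 27) (.e (nat_lit 335986) (nat_lit 1) (.e (nat_lit 57847) (nat_lit 252) (.e (nat_lit 57372) (nat_lit 2) (.e (nat_lit 90158) (nat_lit 11) .nil))))))) (.g (nat_lit 5) .nil .nil))) 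
(.lf (nat_lit 138926) (.g (nat_lit 3617) (.e (nat_lit 24630) (nat_lit 9) (.e (nat_lit 336369) (nat_lit 27) (.e (nat_lit 426501) (nat_lit 27) (.e (nat_lit 335995) (nat_lit 1) (.e (nat_lit 57848) (nat_lit 252) (.e (nat_lit 57372) (nat_lit 2) (.e (nat_lit 90159) (nat_lit 11) .nil))))))) (.g (nat_lit 6) .nil .nil)))) (.nd (nat_lit 5) 
(.lf (nat_lit 138910) (.g (nat_lit 2901) (.e (nat_lit 24630) (nat_lit 9) (.e (nat_lit 336369) (nat_lit 27) (.e (nat_lit 426501) (nat_lit 27) (.e (nat_lit 335986) (nat_lit 1) (.e (nat_lit 57847) (nat_lit 252) (.e (nat_lit 57372) (nat_lit 2) (.e (nat_lit 90158) (nat_lit 11) .nil))))))) (.g (nat_lit 5) .nil .nil))) 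
(.lf (nat_lit 138942) (.g (nat_lit 2710) (.e (nat_lit 24630) (nat_lit 9) (.e (nat_lit 336369) (nat_lit 27) (.e (nat_lit 426513) (nat_lit 27) (.e (nat_lit 335986) (nat_lit 1) (.e (nat_lit 57849) (nat_lit 252) (.e (nat_lit 57375) (nat_lit 2) (.e (nat_lit 90158) (nat_lit 11) .nil))))))) (.g (nat_lit 4) .nil .nil)))))))) 
(.nd (nat_lit 1) (.nd (nat_lit 2) (.nd (nat_lit 3) (.nd (nat_lit 4) (.nd (nat_lit 5) 
(.lf (nat_lit 138881) (.g (nat_lit 2298) (.e (nat_lit 24630) (nat_lit 9) (.e (nat_lit 336369) (nat_lit 27) (.e (nat_lit 426497) (nat_lit 27) (.e (nat_lit 335996) (nat_lit 1) (.e (nat_lit 57854) (nat_lit 252) (.e (nat_lit 57371) (nat_lit 2) (.e (nat_lit 90158) (nat_lit 11) .nil))))))) (.g (nat_lit 4) .nil .nil))) 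
(.lf (nat_lit 138913) (.g (nat_lit 2643) (.e (nat_lit 24630) (nat_lit 9) (.e (nat_lit 336369) (nat_lit 27) (.e (nat_lit 426501) (nat_lit 27) (.e (nat_lit 335986) (nat_lit 1) (.e (nat_lit 57847) (nat_lit 252) (.e (nat_lit 57375) (nat_lit 2) (.e (nat_lit 90158) (nat_lit 11) .nil))))))) (.g (nat_lit 4) .nil .nil)))) (.nd (nat_lit 5) 
(.lf (nat_lit 138897) (.g (nat_lit 3926) (.e (nat_lit 24630) (nat_lit 9) (.e (nat_lit 336369) (nat_lit 27) (.e (nat_lit 426499) (nat_lit 27) (.e (nat_lit 335986) (nat_lit 1) (.e (nat_lit 57847) (nat_lit 252) (.e (nat_lit 57375) (nat_lit 2) (.e (nat_lit 90158) (nat_lit 11) .nil))))))) (.g (nat_lit 5) .nil .nil))) 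
(.lf (nat_lit 138929) (.g (nat_lit 3745) (.e (nat_lit 24630) (nat_lit 9) (.e (nat_lit 336369) (nat_lit 27) (.e (nat_lit 426501) (nat_lit 27) (.e (nat_lit 335995) (nat_lit 1) (.e (nat_lit 57849) (nat_lit 252) (.e (nat_lit 57372) (nat_lit 2) (.e (nat_lit 90158) (nat_lit 11) .nil))))))) (.g (nat_lit 5) .nil .nil))))) (.nd (nat_lit 4) (.nd (nat_lit 5) 
(.lf (nat_lit 138889) (.g (nat_lit 2186) (.e (nat_lit 24630) (nat_lit 9) (.e (nat_lit 336369) (nat_lit 27) (.e (nat_lit 426498) (nat_lit 27) (.e (nat_lit 335988) (nat_lit 1) (.e (nat_lit 57854) (nat_lit 252) .nil))))) .nil)) 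
(.lf (nat_lit 138921) (.g (nat_lit 2335) (.e (nat_lit 24630) (nat_lit 9) (.e (nat_lit 336369) (nat_lit 27) (.e (nat_lit 426501) (nat_lit 27) (.e (nat_lit 335995) (nat_lit 1) (.e (nat_lit 57847) (nat_lit 252) (.e (nat_lit 57372) (nat_lit 2) (.e (nat_lit 90158) (nat_lit 11) .nil))))))) (.g (nat_lit 4) .nil .nil)))) (.nd (nat_lit 5) 
(.lf (nat_lit 138905) (.g (nat_lit 3254) (.e (nat_lit 24630) (nat_lit 9) (.e (nat_lit 336369) (nat_lit 27) (.e (nat_lit 426499) (nat_lit 27) (.e (nat_lit 335995) (nat_lit 1) (.e (nat_lit 57849) (nat_lit 252) (.e (nat_lit 57372) (nat_lit 2) (.e (nat_lit 90160) (nat_lit 11) .nil))))))) (.g (nat_lit 4) .nil .nil))) 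
(.lf (nat_lit 138937) (.g (nat_lit 2313) (.e (nat_lit 24630) (nat_lit 9) (.e (nat_lit 336369) (nat_lit 27) (.e (nat_lit 426501) (nat_lit 27) (.e (nat_lit 335996) (nat_lit 1) (.e (nat_lit 57854) (nat_lit 252) (.e (nat_lit 57370) (nat_lit 2) (.e (nat_lit 90158) (nat_lit 11) .nil))))))) (.g (nat_lit 4) .nil .nil)))))) (.nd (nat_lit 3) (.nd (nat_lit 4) (.nd (nat_lit 5) 
(.lf (nat_lit 138885) (.g (nat_lit 2982) (.e (nat_lit 24630) (nat_lit 9) (.e (nat_lit 336369) (nat_lit 27) (.e (nat_lit 426498) (nat_lit 27) (.e (nat_lit 335986) (nat_lit 1) (.e (nat_lit 57847) (nat_lit 252) (.e (nat_lit 57370) (nat_lit 2) (.e (nat_lit 90158) (nat_lit 11) .nil))))))) (.g (nat_lit 4) .nil .nil))) 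
(.lf (nat_lit 138917) (.g (nat_lit 3236) (.e (nat_lit 24630) (nat_lit 9) (.e (nat_lit 336369) (nat_lit 27) (.e (nat_lit 426501) (nat_lit 27) (.e (nat_lit 335988) (nat_lit 1) (.e (nat_lit 57854) (nat_lit 252) (.e (nat_lit 57371) (nat_lit 2) (.e (nat_lit 90158) (nat_lit 11) .nil))))))) (.g (nat_lit 5) .nil .nil)))) (.nd (nat_lit 5) 
(.lf (nat_lit 138901) (.g (nat_lit 2989) (.e (nat_lit 24630) (nat_lit 9) (.e (nat_lit 336369) (nat_lit 27) (.e (nat_lit 426499) (nat_lit 27) (.e (nat_lit 335988) (nat_lit 1) (.e (nat_lit 57854) (nat_lit 252) .nil))))) .nil)) 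
(.lf (nat_lit 138933) (.g (nat_lit 3762) (.e (nat_lit 24630) (nat_lit 9) (.e (nat_lit 336369) (nat_lit 27) (.e (nat_lit 426501) (nat_lit 27) (.e (nat_lit 335996) (nat_lit 1) (.e (nat_lit 57852) (nat_lit 252) (.e (nat_lit 57370) (nat_lit 2) (.e (nat_lit 90158) (nat_lit 11) .nil))))))) (.g (nat_lit 6) .nil .nil))))) (.nd (nat_lit 4) (.nd (nat_lit 5) 
(.lf (nat_lit 138893) (.g (nat_lit 2826) (.e (nat_lit 24630) (nat_lit 9) (.e (nat_lit 336369) (nat_lit 27) (.e (nat_lit 426499) (nat_lit 27) (.e (nat_lit 335986) (nat_lit 1) (.e (nat_lit 57847) (nat_lit 252) (.e (nat_lit 57371) (nat_lit 2) (.e (nat_lit 90158) (nat_lit 11) .nil))))))) (.g (nat_lit 4) .nil .nil))) 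
(.lf (nat_lit 138925) (.g (nat_lit 2734) (.e (nat_lit 24630) (nat_lit 9) (.e (nat_lit 336369) (nat_lit 27) (.e (nat_lit 426501) (nat_lit 27) (.e (nat_lit 335995) (nat_lit 1) (.e (nat_lit 57848) (nat_lit 252) (.e (nat_lit 57372) (nat_lit 2) (.e (nat_lit 90158) (nat_lit 11) .nil))))))) (.g (nat_lit 4) .nil .nil)))) (.nd (nat_lit 5) 
(.lf (nat_lit 138909) (.g (nat_lit 4017) (.e (nat_lit 24630) (nat_lit 9) (.e (nat_lit 336369) (nat_lit 27) (.e (nat_lit 426501) (nat_lit 27) (.e (nat_lit 335986) (nat_lit 1) (.e (nat_lit 57847) (nat_lit 252) (.e (nat_lit 57370) (nat_lit 2) (.e (nat_lit 90158) (nat_lit 11) .nil))))))) (.g (nat_lit 5) .nil .nil))) 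
(.lf (nat_lit 138941) (.g (nat_lit 2783) (.e (nat_lit 24630) (nat_lit 9) (.e (nat_lit 336369) (nat_lit 27) (.e (nat_lit 426513) (nat_lit 27) (.e (nat_lit 335986) (nat_lit 1) (.e (nat_lit 57849) (nat_lit 252) (.e (nat_lit 57372) (nat_lit 2) (.e (nat_lit 90158) (nat_lit 11) .nil))))))) (.g (nat_lit 4) .nil .nil))))))) (.nd (nat_lit 2) (.nd (nat_lit 3) (.nd (nat_lit 4) (.nd (nat_lit 5) 
(.lf (nat_lit 138883) (.g (nat_lit 3303) (.e (nat_lit 24630) (nat_lit 9) (.e (nat_lit 336369) (nat_lit 27) (.e (nat_lit 426497) (nat_lit 27) (.e (nat_lit 335996) (nat_lit 1) (.e (nat_lit 57854) (nat_lit 252) (.e (nat_lit 57373) (nat_lit 2) (.e (nat_lit 90160) (nat_lit 11) .nil))))))) (.g (nat_lit 5) .nil .nil))) 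
(.lf (nat_lit 138915) (.g (nat_lit 4218) (.e (nat_lit 24630) (nat_lit 9) (.e (nat_lit 336369) (nat_lit 27) (.e (nat_lit 426501) (nat_lit 27) (.e (nat_lit 335986) (nat_lit 1) (.e (nat_lit 57849) (nat_lit 252) (.e (nat_lit 57372) (nat_lit 2) (.e (nat_lit 90158) (nat_lit 11) .nil))))))) (.g (nat_lit 7) .nil .nil)))) (.nd (nat_lit 5) 
(.lf (nat_lit 138899) (.g (nat_lit 4710) (.e (nat_lit 24630) (nat_lit 9) (.e (nat_lit 336369) (nat_lit 27) (.e (nat_lit 426499) (nat_lit 27) (.e (nat_lit 335986) (nat_lit 1) (.e (nat_lit 57849) (nat_lit 252) (.e (nat_lit 57372) (nat_lit 2) (.e (nat_lit 90160) (nat_lit 11) .nil))))))) (.g (nat_lit 6) .nil .nil))) 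
(.lf (nat_lit 138931) (.g (nat_lit 4216) (.e (nat_lit 24630) (nat_lit 9) (.e (nat_lit 336369) (nat_lit 27) (.e (nat_lit 426501) (nat_lit 27) (.e (nat_lit 335995) (nat_lit 1) (.e (nat_lit 57849) (nat_lit 252) (.e (nat_lit 57375) (nat_lit 2) (.e (nat_lit 90158) (nat_lit 11) .nil))))))) (.g (nat_lit 6) .nil .nil))))) (.nd (nat_lit 4) (.nd (nat_lit 5) 
(.lf (nat_lit 138891) (.g (nat_lit 2371) (.e (nat_lit 24630) (nat_lit 9) (.e (nat_lit 336369) (nat_lit 27) (.e (nat_lit 426498) (nat_lit 27) (.e (nat_lit 335996) (nat_lit 1) (.e (nat_lit 57852) (nat_lit 252) (.e (nat_lit 57371) (nat_lit 2) (.e (nat_lit 90158) (nat_lit 11) .nil))))))) (.g (nat_lit 4) .nil .nil))) 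
(.lf (nat_lit 138923) (.g (nat_lit 2341) (.e (nat_lit 24630) (nat_lit 9) (.e (nat_lit 336369) (nat_lit 27) (.e (nat_lit 426501) (nat_lit 27) (.e (nat_lit 335995) (nat_lit 1) (.e (nat_lit 57847) (nat_lit 252) (.e (nat_lit 57373) (nat_lit 2) (.e (nat_lit 90158) (nat_lit 11) .nil))))))) (.g (nat_lit 4) .nil .nil)))) (.nd (nat_lit 5) 
(.lf (nat_lit 138907) (.g (nat_lit 3120) (.e (nat_lit 24630) (nat_lit 9) (.e (nat_lit 336369) (nat_lit 27) (.e (nat_lit 426499) (nat_lit 27) (.e (nat_lit 335996) (nat_lit 1) (.e (nat_lit 57852) (nat_lit 252) (.e (nat_lit 57373) (nat_lit 2) (.e (nat_lit 90158) (nat_lit 11) .nil))))))) (.g (nat_lit 4) .nil .nil))) 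
(.lf (nat_lit 138939) (.g (nat_lit 3467) (.e (nat_lit 24630) (nat_lit 9) (.e (nat_lit 336369) (nat_lit 27) (.e (nat_lit 426501) (nat_lit 27) (.e (nat_lit 335996) (nat_lit 1) (.e (nat_lit 57854) (nat_lit 252) (.e (nat_lit 57373) (nat_lit 2) (.e (nat_lit 90158) (nat_lit 11) .nil))))))) (.g (nat_lit 5) .nil .nil)))))) (.nd (nat_lit 3) (.nd (nat_lit 4) (.nd (nat_lit 5) 
(.lf (nat_lit 138887) (.g (nat_lit 2555) (.e (nat_lit 24630) (nat_lit 9) (.e (nat_lit 336369) (nat_lit 27) (.e (nat_lit 426498) (nat_lit 27) (.e (nat_lit 335986) (nat_lit 1) (.e (nat_lit 57849) (nat_lit 252) (.e (nat_lit 57372) (nat_lit 2) (.e (nat_lit 90160) (nat_lit 11) .nil))))))) (.g (nat_lit 4) .nil .nil))) 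
(.lf (nat_lit 138919) (.g (nat_lit 4123) (.e (nat_lit 24630) (nat_lit 9) (.e (nat_lit 336369) (nat_lit 27) (.e (nat_lit 426501) (nat_lit 27) (.e (nat_lit 335988) (nat_lit 1) (.e (nat_lit 57854) (nat_lit 252) (.e (nat_lit 57373) (nat_lit 2) (.e (nat_lit 90160) (nat_lit 11) .nil))))))) (.g (nat_lit 6) .nil .nil)))) (.nd (nat_lit 5) 
(.lf (nat_lit 138903) (.g (nat_lit 1860) (.e (nat_lit 24630) (nat_lit 9) (.e (nat_lit 336369) (nat_lit 27) (.e (nat_lit 426499) (nat_lit 27) (.e (nat_lit 335995) (nat_lit 1) .nil)))) .nil)) 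
(.lf (nat_lit 138935) (.g (nat_lit 2813) (.e (nat_lit 24630) (nat_lit 9) (.e (nat_lit 336369) (nat_lit 27) (.e (nat_lit 426501) (nat_lit 27) (.e (nat_lit 335996) (nat_lit 1) (.e (nat_lit 57853) (nat_lit 252) (.e (nat_lit 57370) (nat_lit 2) (.e (nat_lit 90158) (nat_lit 11) .nil))))))) (.g (nat_lit 5) .nil .nil))))) (.nd (nat_lit 4) (.nd (nat_lit 5) 
(.lf (nat_lit 138895) (.g (nat_lit 4735) (.e (nat_lit 24630) (nat_lit 9) (.e (nat_lit 336369) (nat_lit 27) (.e (nat_lit 426499) (nat_lit 27) (.e (nat_lit 335986) (nat_lit 1) (.e (nat_lit 57847) (nat_lit 252) (.e (nat_lit 57372) (nat_lit 2) (.e (nat_lit 90160) (nat_lit 11) .nil))))))) (.g (nat_lit 6) .nil .nil))) 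
(.lf (nat_lit 138927) (.g (nat_lit 2671) (.e (nat_lit 24630) (nat_lit 9) (.e (nat_lit 336369) (nat_lit 27) (.e (nat_lit 426501) (nat_lit 27) (.e (nat_lit 335995) (nat_lit 1) (.e (nat_lit 57848) (nat_lit 252) (.e (nat_lit 57374) (nat_lit 2) (.e (nat_lit 90156) (nat_lit 11) .nil))))))) (.g (nat_lit 4) .nil .nil)))) (.nd (nat_lit 5) 
(.lf (nat_lit 138911) (.g (nat_lit 3447) (.e (nat_lit 24630) (nat_lit 9) (.e (nat_lit 336369) (nat_lit 27) (.e (nat_lit 426501) (nat_lit 27) (.e (nat_lit 335986) (nat_lit 1) (.e (nat_lit 57847) (nat_lit 252) (.e (nat_lit 57372) (nat_lit 2) (.e (nat_lit 90160) (nat_lit 11) .nil))))))) (.g (nat_lit 5) .nil .nil))) 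
(.lf (nat_lit 138943) (.g (nat_lit 2321) (.e (nat_lit 24630) (nat_lit 9) (.e (nat_lit 336369) (nat_lit 27) (.e (nat_lit 426513) (nat_lit 27) (.e (nat_lit 335987) (nat_lit 1) (.e (nat_lit 57854) (nat_lit 252) (.e (nat_lit 57373) (nat_lit 2) (.e (nat_lit 90158) (nat_lit 11) .nil))))))) (.g (nat_lit 4) .nil .nil)))))))))

noncomputable def tv1846 : DT := (.nd (nat_lit 0) (.nd (nat_lit 1) (.nd (nat_lit 2) (.nd (nat_lit 3) (.nd (nat_lit 4) (.nd (nat_lit 5) 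
(.lf (nat_lit 138944) (.g (nat_lit 2849) (.e (nat_lit 24630) (nat_lit 9) (.e (nat_lit 336369) (nat_lit 27) (.e (nat_lit 426528) (nat_lit 27) (.e (nat_lit 335986) (nat_lit 1) (.e (nat_lit 57849) (nat_lit 252) (.e (nat_lit 57372) (nat_lit 2) (.e (nat_lit 90158) (nat_lit 11) .nil))))))) (.g (nat_lit 4) .nil .nil))) 
(.lf (nat_lit 138976) (.g (nat_lit 713) (.e (nat_lit 24632) (nat_lit 9) (.e (nat_lit 335985) (nat_lit 1) (.e (nat_lit 57683) (nat_lit 155) (.e (nat_lit 122919) (nat_lit 15) .nil)))) .nil))) (.nd (nat_lit 5) 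
(.lf (nat_lit 138960) (.g (nat_lit 1740) (.e (nat_lit 24631) (nat_lit 9) (.e (nat_lit 335985) (nat_lit 1) (.e (nat_lit 57683) (nat_lit 155) (.e (nat_lit 122917) (nat_lit 15) (.e (nat_lit 360492) (nat_lit 22) (.e (nat_lit 778466) (nat_lit 11) .nil)))))) (.g (nat_lit 4) .nil .nil))) 
(.lf (nat_lit 138992) (.g (nat_lit 1646) (.e (nat_lit 24632) (nat_lit 9) (.e (nat_lit 335997) (nat_lit 1) (.e (nat_lit 57683) (nat_lit 155) (.e (nat_lit 122919) (nat_lit 15) (.e (nat_lit 360492) (nat_lit 22) .nil))))) .nil)))) (.nd (nat_lit 4) (.nd (nat_lit 5) 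
(.lf (nat_lit 138952) (.g (nat_lit 1927) (.e (nat_lit 24630) (nat_lit 9) (.e (nat_lit 336455) (nat_lit 34) (.e (nat_lit 483363) (nat_lit 18) (.e (nat_lit 57849) (nat_lit 252) (.e (nat_lit 57375) (nat_lit 2) (.e (nat_lit 90158) (nat_lit 11) .nil)))))) (.g (nat_lit 4) .nil .nil))) 
(.lf (nat_lit 138984) (.g (nat_lit 1853) (.e (nat_lit 24632) (nat_lit 9) (.e (nat_lit 335997) (nat_lit 1) (.e (nat_lit 57681) (nat_lit 155) (.e (nat_lit 122918) (nat_lit 15) (.e (nat_lit 360491) (nat_lit 22) (.e (nat_lit 778466) (nat_lit 11) .nil)))))) (.g (nat_lit 4) .nil .nil)))) (.nd (nat_lit 5) 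
(.lf (nat_lit 138968) (.g (nat_lit 2298) (.e (nat_lit 24631) (nat_lit 9) (.e (nat_lit 336388) (nat_lit 27) (.e (nat_lit 426011) (nat_lit 0) (.e (nat_lit 7591) (nat_lit 407) (.e (nat_lit 73775) (nat_lit 26) (.e (nat_lit 778466) (nat_lit 11) .nil)))))) (.g (nat_lit 4) .nil .nil))) 
(.lf (nat_lit 139000) (.g (nat_lit 2275) (.e (nat_lit 24632) (nat_lit 9) (.e (nat_lit 336013) (nat_lit 2) (.e (nat_lit 90134) (nat_lit 9) (.e (nat_lit 2862) (nat_lit 184) .nil)))) .nil))))) (.nd (nat_lit 3) (.nd (nat_lit 4) (.nd (nat_lit 5) 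
(.lf (nat_lit 138948) (.g (nat_lit 3833) (.e (nat_lit 24630) (nat_lit 9) (.e (nat_lit 336414) (nat_lit 27) (.e (nat_lit 426503) (nat_lit 27) (.e (nat_lit 335986) (nat_lit 1) (.e (nat_lit 57849) (nat_lit 252) (.e (nat_lit 57372) (nat_lit 2) (.e (nat_lit 90160) (nat_lit 11) .nil))))))) (.g (nat_lit 6) .nil .nil))) 
(.lf (nat_lit 138980) (.g (nat_lit 2082) (.e (nat_lit 24632) (nat_lit 9) (.e (nat_lit 335997) (nat_lit 1) (.e (nat_lit 57681) (nat_lit 155) (.e (nat_lit 122917) (nat_lit 15) (.e (nat_lit 360491) (nat_lit 22) .nil))))) .nil))) (.nd (nat_lit 5) 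
(.lf (nat_lit 138964) (.g (nat_lit 1517) (.e (nat_lit 24631) (nat_lit 9) (.e (nat_lit 336046) (nat_lit 6) (.e (nat_lit 147496) (nat_lit 11) (.e (nat_lit 24617) (nat_lit 7) (.e (nat_lit 327424) (nat_lit 3) (.e (nat_lit 40997) (nat_lit 11) .nil)))))) (.g (nat_lit 4) .nil .nil))) 
(.lf (nat_lit 138996) (.g (nat_lit 841) (.e (nat_lit 24632) (nat_lit 9) (.e (nat_lit 336013) (nat_lit 2) (.e (nat_lit 98048) (nat_lit 2) (.e (nat_lit 16458) (nat_lit 12) (.e (nat_lit 483072) (nat_lit 2) .nil))))) (.g (nat_lit 4) .nil .nil))))) (.nd (nat_lit 4) (.nd (nat_lit 5) 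
(.lf (nat_lit 138956) (.g (nat_lit 1103) (.e (nat_lit 24631) (nat_lit 9) (.e (nat_lit 335985) (nat_lit 1) (.e (nat_lit 57681) (nat_lit 155) (.e (nat_lit 122917) (nat_lit 15) .nil)))) .nil)) 
(.lf (nat_lit 138988) (.g (nat_lit 3713) (.e (nat_lit 24632) (nat_lit 9) (.e (nat_lit 335997) (nat_lit 1) (.e (nat_lit 57681) (nat_lit 155) (.e (nat_lit 122919) (nat_lit 15) (.e (nat_lit 360492) (nat_lit 22) (.e (nat_lit 778466) (nat_lit 11) .nil)))))) (.g (nat_lit 0) .nil .nil)))) (.nd (nat_lit 5) 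
(.lf (nat_lit 138972) (.g (nat_lit 2554) (.e (nat_lit 24631) (nat_lit 9) (.e (nat_lit 336389) (nat_lit 27) (.e (nat_lit 426343) (nat_lit 14) (.e (nat_lit 491546) (nat_lit 9) (.e (nat_lit 336048) (nat_lit 6) .nil))))) .nil)) 
(.lf (nat_lit 139004) (.g (nat_lit 1251) (.e (nat_lit 24632) (nat_lit 9) (.e (nat_lit 336013) (nat_lit 2) (.e (nat_lit 90165) (nat_lit 12) (.e (nat_lit 171776) (nat_lit 187) .nil)))) .nil)))))) (.nd (nat_lit 2) (.nd (nat_lit 3) (.nd (nat_lit 4) (.nd (nat_lit 5) 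
(.lf (nat_lit 138946) (.g (nat_lit 2774) (.e (nat_lit 24630) (nat_lit 9) (.e (nat_lit 336369) (nat_lit 27) (.e (nat_lit 426528) (nat_lit 27) (.e (nat_lit 335986) (nat_lit 1) (.e (nat_lit 57849) (nat_lit 252) (.e (nat_lit 57375) (nat_lit 2) (.e (nat_lit 90158) (nat_lit 11) .nil))))))) (.g (nat_lit 4) .nil .nil))) 
(.lf (nat_lit 138978) (.g (nat_lit 2230) (.e (nat_lit 24632) (nat_lit 9) (.e (nat_lit 335997) (nat_lit 1) (.e (nat_lit 57680) (nat_lit 155) (.e (nat_lit 122917) (nat_lit 15) (.e (nat_lit 360491) (nat_lit 22) (.e (nat_lit 778466) (nat_lit 11) .nil)))))) (.g (nat_lit 5) .nil .nil)))) (.nd (nat_lit 5) 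
(.lf (nat_lit 138962) (.g (nat_lit 1206) (.e (nat_lit 24631) (nat_lit 9) (.e (nat_lit 336001) (nat_lit 2) (.e (nat_lit 90170) (nat_lit 13) (.e (nat_lit 179968) (nat_lit 20) .nil)))) .nil)) 
(.lf (nat_lit 138994) (.g (nat_lit 1410) (.e (nat_lit 24632) (nat_lit 9) (.e (nat_lit 335997) (nat_lit 1) (.e (nat_lit 57684) (nat_lit 155) (.e (nat_lit 122919) (nat_lit 15) (.e (nat_lit 360492) (nat_lit 22) (.e (nat_lit 778466) (nat_lit 11) .nil)))))) (.g (nat_lit 4) .nil .nil))))) (.nd (nat_lit 4) (.nd (nat_lit 5) 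
(.lf (nat_lit 138954) (.g (nat_lit 594) (.e (nat_lit 24630) (nat_lit 9) (.e (nat_lit 336456) (nat_lit 34) (.e (nat_lit 483357) (nat_lit 17) .nil))) .nil)) 
(.lf (nat_lit 138986) (.g (nat_lit 3661) (.e (nat_lit 24632) (nat_lit 9) (.e (nat_lit 335997) (nat_lit 1) (.e (nat_lit 57681) (nat_lit 155) (.e (nat_lit 122919) (nat_lit 15) (.e (nat_lit 360491) (nat_lit 22) (.e (nat_lit 778466) (nat_lit 11) .nil)))))) (.g (nat_lit 0) .nil .nil)))) (.nd (nat_lit 5) 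
(.lf (nat_lit 138970) (.g (nat_lit 2705) (.e (nat_lit 24631) (nat_lit 9) (.e (nat_lit 336388) (nat_lit 27) (.e (nat_lit 426011) (nat_lit 0) (.e (nat_lit 7593) (nat_lit 407) (.e (nat_lit 73775) (nat_lit 26) (.e (nat_lit 778466) (nat_lit 11) .nil)))))) (.g (nat_lit 4) .nil .nil))) 
(.lf (nat_lit 139002) (.g (nat_lit 691) (.e (nat_lit 24632) (nat_lit 9) (.e (nat_lit 336013) (nat_lit 2) (.e (nat_lit 90141) (nat_lit 9) .nil))) .nil))))) (.nd (nat_lit 3) (.nd (nat_lit 4) (.nd (nat_lit 5) 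
(.lf (nat_lit 138950) (.g (nat_lit 3982) (.e (nat_lit 24630) (nat_lit 9) (.e (nat_lit 336454) (nat_lit 34) (.e (nat_lit 483365) (nat_lit 18) (.e (nat_lit 57825) (nat_lit 250) .nil)))) .nil)) 
(.lf (nat_lit 138982) (.g (nat_lit 2118) (.e (nat_lit 24632) (nat_lit 9) (.e (nat_lit 335997) (nat_lit 1) (.e (nat_lit 57681) (nat_lit 155) (.e (nat_lit 122917) (nat_lit 15) (.e (nat_lit 360492) (nat_lit 22) .nil))))) .nil))) (.nd (nat_lit 5) 
(.lf (nat_lit 138966) (.g (nat_lit 1983) (.e (nat_lit 24631) (nat_lit 9) (.e (nat_lit 336385) (nat_lit 27) (.e (nat_lit 426011) (nat_lit 0) (.e (nat_lit 7591) (nat_lit 407) (.e (nat_lit 73775) (nat_lit 26) .nil))))) .nil)) 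
(.lf (nat_lit 138998) (.g (nat_lit 899) (.e (nat_lit 24632) (nat_lit 9) (.e (nat_lit 336013) (nat_lit 2) (.e (nat_lit 90134) (nat_lit 9) .nil))) .nil)))) (.nd (nat_lit 4) (.nd (nat_lit 5) 
(.lf (nat_lit 138958) (.g (nat_lit 1915) (.e (nat_lit 24631) (nat_lit 9) (.e (nat_lit 335985) (nat_lit 1) (.e (nat_lit 57683) (nat_lit 155) (.e (nat_lit 122917) (nat_lit 15) (.e (nat_lit 360491) (nat_lit 22) (.e (nat_lit 778466) (nat_lit 11) .nil)))))) (.g (nat_lit 4) .nil .nil))) 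
(.lf (nat_lit 138990) (.g (nat_lit 1940) (.e (nat_lit 24632) (nat_lit 9) (.e (nat_lit 335997) (nat_lit 1) (.e (nat_lit 57683) (nat_lit 155) (.e (nat_lit 122917) (nat_lit 15) (.e (nat_lit 360492) (nat_lit 22) (.e (nat_lit 778466) (nat_lit 11) .nil)))))) (.g (nat_lit 4) .nil .nil)))) (.nd (nat_lit 5) 
(.lf (nat_lit 138974) (.g (nat_lit 3679) (.e (nat_lit 24631) (nat_lit 9) (.e (nat_lit 336389) (nat_lit 27) (.e (nat_lit 426343) (nat_lit 14) (.e (nat_lit 491556) (nat_lit 9) (.e (nat_lit 336051) (nat_lit 6) (.e (nat_lit 147496) (nat_lit 11) .nil)))))) (.g (nat_lit 6) .nil .nil))) 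
(.lf (nat_lit 139006) (.g (nat_lit 1065) (.e (nat_lit 24632) (nat_lit 9) (.e (nat_lit 336013) (nat_lit 2) (.e (nat_lit 90169) (nat_lit 13) .nil))) .nil))))))) (.nd (nat_lit 1) (.nd (nat_lit 2) (.nd (nat_lit 3) (.nd (nat_lit 4) (.nd (nat_lit 5) 
(.lf (nat_lit 138945) (.g (nat_lit 2301) (.e (nat_lit 24630) (nat_lit 9) (.e (nat_lit 336369) (nat_lit 27) (.e (nat_lit 426528) (nat_lit 27) (.e (nat_lit 335986) (nat_lit 1) (.e (nat_lit 57849) (nat_lit 252) (.e (nat_lit 57372) (nat_lit 2) (.e (nat_lit 90160) (nat_lit 11) .nil))))))) (.g (nat_lit 4) .nil .nil))) 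
(.lf (nat_lit 138977) (.g (nat_lit 1108) (.e (nat_lit 24632) (nat_lit 9) (.e (nat_lit 335989) (nat_lit 1) (.e (nat_lit 57681) (nat_lit 155) (.e (nat_lit 122919) (nat_lit 15) .nil)))) .nil))) (.nd (nat_lit 5) 
(.lf (nat_lit 138961) (.g (nat_lit 1453) (.e (nat_lit 24631) (nat_lit 9) (.e (nat_lit 335985) (nat_lit 1) (.e (nat_lit 57683) (nat_lit 155) (.e (nat_lit 122919) (nat_lit 15) (.e (nat_lit 360492) (nat_lit 22) .nil))))) .nil)) 
(.lf (nat_lit 138993) (.g (nat_lit 1733) (.e (nat_lit 24632) (nat_lit 9) (.e (nat_lit 335997) (nat_lit 1) (.e (nat_lit 57684) (nat_lit 155) (.e (nat_lit 122917) (nat_lit 15) (.e (nat_lit 360491) (nat_lit 22) (.e (nat_lit 778466) (nat_lit 11) .nil)))))) (.g (nat_lit 5) .nil .nil))))) (.nd (nat_lit 4) (.nd (nat_lit 5) 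
(.lf (nat_lit 138953) (.g (nat_lit 1520) (.e (nat_lit 24630) (nat_lit 9) (.e (nat_lit 336456) (nat_lit 34) (.e (nat_lit 483346) (nat_lit 17) (.e (nat_lit 1095) (nat_lit 81) .nil)))) .nil)) 
(.lf (nat_lit 138985) (.g (nat_lit 2108) (.e (nat_lit 24632) (nat_lit 9) (.e (nat_lit 335997) (nat_lit 1) (.e (nat_lit 57681) (nat_lit 155) (.e (nat_lit 122919) (nat_lit 15) (.e (nat_lit 360491) (nat_lit 22) .nil))))) .nil))) (.nd (nat_lit 5) 
(.lf (nat_lit 138969) (.g (nat_lit 2848) (.e (nat_lit 24631) (nat_lit 9) (.e (nat_lit 336388) (nat_lit 27) (.e (nat_lit 426011) (nat_lit 0) (.e (nat_lit 7593) (nat_lit 407) (.e (nat_lit 73775) (nat_lit 26) (.e (nat_lit 778465) (nat_lit 11) .nil)))))) (.g (nat_lit 4) .nil .nil))) 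
(.lf (nat_lit 139001) (.g (nat_lit 2577) (.e (nat_lit 24632) (nat_lit 9) (.e (nat_lit 336013) (nat_lit 2) (.e (nat_lit 90134) (nat_lit 9) (.e (nat_lit 3098) (nat_lit 192) (.e (nat_lit 491558) (nat_lit 10) .nil))))) .nil))))) (.nd (nat_lit 3) (.nd (nat_lit 4) (.nd (nat_lit 5) 
(.lf (nat_lit 138949) (.g (nat_lit 4049) (.e (nat_lit 24630) (nat_lit 9) (.e (nat_lit 336454) (nat_lit 34) (.e (nat_lit 483365) (nat_lit 18) (.e (nat_lit 57824) (nat_lit 250) .nil)))) .nil)) 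
(.lf (nat_lit 138981) (.g (nat_lit 3827) (.e (nat_lit 24632) (nat_lit 9) (.e (nat_lit 335997) (nat_lit 1) (.e (nat_lit 57681) (nat_lit 155) (.e (nat_lit 122917) (nat_lit 15) (.e (nat_lit 360491) (nat_lit 22) (.e (nat_lit 778466) (nat_lit 11) .nil)))))) (.g (nat_lit 0) .nil .nil)))) (.nd (nat_lit 5) 
(.lf (nat_lit 138965) (.g (nat_lit 2061) (.e (nat_lit 24631) (nat_lit 9) (.e (nat_lit 336295) (nat_lit 15) (.e (nat_lit 3305) (nat_lit 202) (.e (nat_lit 573479) (nat_lit 13) .nil)))) .nil)) 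
(.lf (nat_lit 138997) (.g (nat_lit 833) (.e (nat_lit 24632) (nat_lit 9) (.e (nat_lit 336013) (nat_lit 2) (.e (nat_lit 98048) (nat_lit 2) (.e (nat_lit 16461) (nat_lit 12) (.e (nat_lit 483072) (nat_lit 2) .nil))))) (.g (nat_lit 4) .nil .nil))))) (.nd (nat_lit 4) (.nd (nat_lit 5) 
(.lf (nat_lit 138957) (.g (nat_lit 2624) (.e (nat_lit 24631) (nat_lit 9) (.e (nat_lit 335985) (nat_lit 1) (.e (nat_lit 57681) (nat_lit 155) (.e (nat_lit 122919) (nat_lit 15) (.e (nat_lit 360492) (nat_lit 22) .nil))))) .nil)) 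
(.lf (nat_lit 138989) (.g (nat_lit 1762) (.e (nat_lit 24632) (nat_lit 9) (.e (nat_lit 335997) (nat_lit 1) (.e (nat_lit 57682) (nat_lit 155) (.e (nat_lit 122919) (nat_lit 15) (.e (nat_lit 360491) (nat_lit 22) (.e (nat_lit 778466) (nat_lit 11) .nil)))))) (.g (nat_lit 5) .nil .nil)))) (.nd (nat_lit 5) 
(.lf (nat_lit 138973) (.g (nat_lit 3505) (.e (nat_lit 24631) (nat_lit 9) (.e (nat_lit 336389) (nat_lit 27) (.e (nat_lit 426343) (nat_lit 14) (.e (nat_lit 491556) (nat_lit 9) (.e (nat_lit 336051) (nat_lit 6) (.e (nat_lit 147495) (nat_lit 11) .nil)))))) (.g (nat_lit 6) .nil .nil))) 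
(.lf (nat_lit 139005) (.g (nat_lit 839) (.e (nat_lit 24632) (nat_lit 9) (.e (nat_lit 336013) (nat_lit 2) (.e (nat_lit 90166) (nat_lit 13) .nil))) .nil)))))) (.nd (nat_lit 2) (.nd (nat_lit 3) (.nd (nat_lit 4) (.nd (nat_lit 5) 
(.lf (nat_lit 138947) (.g (nat_lit 4271) (.e (nat_lit 24630) (nat_lit 9) (.e (nat_lit 336414) (nat_lit 27) (.e (nat_lit 426503) (nat_lit 27) (.e (nat_lit 335986) (nat_lit 1) (.e (nat_lit 57847) (nat_lit 252) (.e (nat_lit 57370) (nat_lit 2) (.e (nat_lit 90158) (nat_lit 11) .nil))))))) (.g (nat_lit 5) .nil .nil))) 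
(.lf (nat_lit 138979) (.g (nat_lit 2867) (.e (nat_lit 24632) (nat_lit 9) (.e (nat_lit 335997) (nat_lit 1) (.e (nat_lit 57680) (nat_lit 155) (.e (nat_lit 122919) (nat_lit 15) (.e (nat_lit 360491) (nat_lit 22) (.e (nat_lit 778466) (nat_lit 11) .nil)))))) (.g (nat_lit 0) .nil .nil)))) (.nd (nat_lit 5) 
(.lf (nat_lit 138963) (.g (nat_lit 1651) (.e (nat_lit 24631) (nat_lit 9) (.e (nat_lit 336046) (nat_lit 6) (.e (nat_lit 147496) (nat_lit 11) (.e (nat_lit 24617) (nat_lit 7) (.e (nat_lit 327424) (nat_lit 3) (.e (nat_lit 40996) (nat_lit 11) .nil)))))) (.g (nat_lit 4) .nil .nil))) 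
(.lf (nat_lit 138995) (.g (nat_lit 1088) (.e (nat_lit 24632) (nat_lit 9) (.e (nat_lit 336013) (nat_lit 2) (.e (nat_lit 98048) (nat_lit 2) (.e (nat_lit 16456) (nat_lit 12) (.e (nat_lit 483072) (nat_lit 2) .nil))))) (.g (nat_lit 4) .nil .nil))))) (.nd (nat_lit 4) (.nd (nat_lit 5) 
(.lf (nat_lit 138955) (.g (nat_lit 644) (.e (nat_lit 24631) (nat_lit 9) (.e (nat_lit 335928) (nat_lit 0) (.e (nat_lit 2281) (nat_lit 150) (.e (nat_lit 770074) (nat_lit 10) .nil)))) .nil)) 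
(.lf (nat_lit 138987) (.g (nat_lit 2248) (.e (nat_lit 24632) (nat_lit 9) (.e (nat_lit 335997) (nat_lit 1) (.e (nat_lit 57681) (nat_lit 155) (.e (nat_lit 122919) (nat_lit 15) (.e (nat_lit 360492) (nat_lit 22) .nil))))) .nil))) (.nd (nat_lit 5) 
(.lf (nat_lit 138971) (.g (nat_lit 2074) (.e (nat_lit 24631) (nat_lit 9) (.e (nat_lit 336389) (nat_lit 27) (.e (nat_lit 426011) (nat_lit 0) (.e (nat_lit 7593) (nat_lit 407) (.e (nat_lit 73775) (nat_lit 26) .nil))))) .nil)) 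
(.lf (nat_lit 139003) (.g (nat_lit 1960) (.e (nat_lit 24632) (nat_lit 9) (.e (nat_lit 336013) (nat_lit 2) (.e (nat_lit 90165) (nat_lit 12) (.e (nat_lit 164218) (nat_lit 179) .nil)))) .nil))))) (.nd (nat_lit 3) (.nd (nat_lit 4) (.nd (nat_lit 5) 
(.lf (nat_lit 138951) (.g (nat_lit 2022) (.e (nat_lit 24630) (nat_lit 9) (.e (nat_lit 336455) (nat_lit 34) (.e (nat_lit 483363) (nat_lit 18) (.e (nat_lit 57849) (nat_lit 252) (.e (nat_lit 57372) (nat_lit 2) (.e (nat_lit 90158) (nat_lit 11) .nil)))))) (.g (nat_lit 4) .nil .nil))) 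
(.lf (nat_lit 138983) (.g (nat_lit 3497) (.e (nat_lit 24632) (nat_lit 9) (.e (nat_lit 335997) (nat_lit 1) (.e (nat_lit 57681) (nat_lit 155) (.e (nat_lit 122917) (nat_lit 15) (.e (nat_lit 360492) (nat_lit 22) (.e (nat_lit 778466) (nat_lit 11) .nil)))))) (.g (nat_lit 0) .nil .nil)))) (.nd (nat_lit 5) 
(.lf (nat_lit 138967) (.g (nat_lit 2371) (.e (nat_lit 24631) (nat_lit 9) (.e (nat_lit 336388) (nat_lit 27) (.e (nat_lit 426011) (nat_lit 0) (.e (nat_lit 7591) (nat_lit 407) (.e (nat_lit 73775) (nat_lit 26) (.e (nat_lit 778465) (nat_lit 11) .nil)))))) (.g (nat_lit 4) .nil .nil))) 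
(.lf (nat_lit 138999) (.g (nat_lit 2275) (.e (nat_lit 24632) (nat_lit 9) (.e (nat_lit 336013) (nat_lit 2) (.e (nat_lit 90134) (nat_lit 9) (.e (nat_lit 2853) (nat_lit 184) .nil)))) .nil)))) (.nd (nat_lit 4) (.nd (nat_lit 5) 
(.lf (nat_lit 138959) (.g (nat_lit 1697) (.e (nat_lit 24631) (nat_lit 9) (.e (nat_lit 335985) (nat_lit 1) (.e (nat_lit 57683) (nat_lit 155) (.e (nat_lit 122917) (nat_lit 15) (.e (nat_lit 360492) (nat_lit 22) (.e (nat_lit 778465) (nat_lit 11) .nil)))))) (.g (nat_lit 4) .nil .nil))) 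
(.lf (nat_lit 138991) (.g (nat_lit 1753) (.e (nat_lit 24632) (nat_lit 9) (.e (nat_lit 335997) (nat_lit 1) (.e (nat_lit 57683) (nat_lit 155) (.e (nat_lit 122919) (nat_lit 15) (.e (nat_lit 360491) (nat_lit 22) (.e (nat_lit 778466) (nat_lit 11) .nil)))))) (.g (nat_lit 4) .nil .nil)))) (.nd (nat_lit 5) 
(.lf (nat_lit 138975) (.g (nat_lit 3912) (.e (nat_lit 24631) (nat_lit 9) (.e (nat_lit 336389) (nat_lit 27) (.e (nat_lit 426344) (nat_lit 14) (.e (nat_lit 491556) (nat_lit 9) (.e (nat_lit 336051) (nat_lit 6) (.e (nat_lit 147496) (nat_lit 11) .nil)))))) (.g (nat_lit 0) .nil .nil))) 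
(.lf (nat_lit 139007) (.g (nat_lit 3316) (.e (nat_lit 24632) (nat_lit 9) (.e (nat_lit 336013) (nat_lit 2) (.e (nat_lit 90170) (nat_lit 13) (.e (nat_lit 172034) (nat_lit 0) .nil)))) .nil))))))))

noncomputable def tv1847 : DT := (.nd (nat_lit 0) (.nd (nat_lit 1) (.nd (nat_lit 2) (.nd (nat_lit 3) (.nd (nat_lit 4) (.nd (nat_lit 5) 
(.lf (nat_lit 139008) (.g (nat_lit 2823) (.e (nat_lit 24632) (nat_lit 9) (.e (nat_lit 336013) (nat_lit 2) (.e (nat_lit 90170) (nat_lit 13) (.e (nat_lit 172135) (nat_lit 15) .nil)))) .nil)) 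
(.lf (nat_lit 139040) (.g (nat_lit 3526) (.e (nat_lit 24634) (nat_lit 9) (.e (nat_lit 336389) (nat_lit 27) (.e (nat_lit 426012) (nat_lit 0) (.e (nat_lit 7593) (nat_lit 407) (.e (nat_lit 73775) (nat_lit 26) (.e (nat_lit 778466) (nat_lit 11) .nil)))))) (.g (nat_lit 6) .nil .nil)))) (.nd (nat_lit 5) 
(.lf (nat_lit 139024) (.g (nat_lit 562) (.e (nat_lit 24632) (nat_lit 9) (.e (nat_lit 336046) (nat_lit 6) (.e (nat_lit 147466) (nat_lit 9) (.e (nat_lit 321) (nat_lit 24) .nil)))) .nil)) 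
(.lf (nat_lit 139056) (.g (nat_lit 2445) (.e (nat_lit 24636) (nat_lit 9) (.e (nat_lit 335998) (nat_lit 1) (.e (nat_lit 57683) (nat_lit 155) (.e (nat_lit 122917) (nat_lit 15) (.e (nat_lit 360492) (nat_lit 22) (.e (nat_lit 778465) (nat_lit 11) .nil)))))) (.g (nat_lit 6) .nil .nil))))) (.nd (nat_lit 4) (.nd (nat_lit 5) 
(.lf (nat_lit 139016) (.g (nat_lit 877) (.e (nat_lit 24632) (nat_lit 9) (.e (nat_lit 336028) (nat_lit 3) (.e (nat_lit 98355) (nat_lit 26) .nil))) .nil)) 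
(.lf (nat_lit 139048) (.g (nat_lit 2683) (.e (nat_lit 24636) (nat_lit 9) (.e (nat_lit 335998) (nat_lit 1) (.e (nat_lit 57681) (nat_lit 155) (.e (nat_lit 122917) (nat_lit 15) (.e (nat_lit 360491) (nat_lit 22) (.e (nat_lit 778465) (nat_lit 11) .nil)))))) (.g (nat_lit 5) .nil .nil)))) (.nd (nat_lit 5) 
(.lf (nat_lit 139032) (.g (nat_lit 1910) (.e (nat_lit 24634) (nat_lit 9) (.e (nat_lit 335991) (nat_lit 1) (.e (nat_lit 57655) (nat_lit 152) (.e (nat_lit 1216) (nat_lit 90) (.e (nat_lit 81965) (nat_lit 26) (.e (nat_lit 147495) (nat_lit 11) .nil)))))) (.g (nat_lit 6) .nil .nil))) 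
(.lf (nat_lit 139064) (.g (nat_lit 2043) (.e (nat_lit 24636) (nat_lit 9) (.e (nat_lit 336017) (nat_lit 3) (.e (nat_lit 98355) (nat_lit 26) (.e (nat_lit 426446) (nat_lit 20) (.e (nat_lit 114716) (nat_lit 22) (.e (nat_lit 90157) (nat_lit 11) .nil)))))) (.g (nat_lit 6) .nil .nil)))))) (.nd (nat_lit 3) (.nd (nat_lit 4) (.nd (nat_lit 5) 
(.lf (nat_lit 139012) (.g (nat_lit 1086) (.e (nat_lit 24632) (nat_lit 9) (.e (nat_lit 336028) (nat_lit 3) (.e (nat_lit 106240) (nat_lit 16) (.e (nat_lit 401454) (nat_lit 12) (.e (nat_lit 483072) (nat_lit 2) .nil))))) (.g (nat_lit 4) .nil .nil))) 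
(.lf (nat_lit 139044) (.g (nat_lit 548) (.e (nat_lit 24635) (nat_lit 9) (.e (nat_lit 336389) (nat_lit 27) (.e (nat_lit 426344) (nat_lit 14) .nil))) .nil))) (.nd (nat_lit 5) 
(.lf (nat_lit 139028) (.g (nat_lit 722) (.e (nat_lit 24633) (nat_lit 9) (.e (nat_lit 336028) (nat_lit 3) (.e (nat_lit 106240) (nat_lit 16) .nil))) .nil)) 
(.lf (nat_lit 139060) (.g (nat_lit 2060) (.e (nat_lit 24636) (nat_lit 9) (.e (nat_lit 335998) (nat_lit 1) (.e (nat_lit 57684) (nat_lit 155) (.e (nat_lit 122919) (nat_lit 15) (.e (nat_lit 360492) (nat_lit 22) (.e (nat_lit 778465) (nat_lit 11) .nil)))))) (.g (nat_lit 6) .nil .nil))))) (.nd (nat_lit 4) (.nd (nat_lit 5) 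
(.lf (nat_lit 139020) (.g (nat_lit 877) (.e (nat_lit 24632) (nat_lit 9) (.e (nat_lit 336028) (nat_lit 3) (.e (nat_lit 98363) (nat_lit 26) .nil))) .nil)) 
(.lf (nat_lit 139052) (.g (nat_lit 3175) (.e (nat_lit 24636) (nat_lit 9) (.e (nat_lit 335998) (nat_lit 1) (.e (nat_lit 57683) (nat_lit 155) (.e (nat_lit 122916) (nat_lit 14) (.e (nat_lit 352322) (nat_lit 26) (.e (nat_lit 147495) (nat_lit 11) .nil)))))) (.g (nat_lit 6) .nil .nil)))) (.nd (nat_lit 5) 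
(.lf (nat_lit 139036) (.g (nat_lit 2252) (.e (nat_lit 24634) (nat_lit 9) (.e (nat_lit 336389) (nat_lit 27) (.e (nat_lit 426011) (nat_lit 0) (.e (nat_lit 7591) (nat_lit 407) (.e (nat_lit 73775) (nat_lit 26) .nil))))) .nil)) 
(.lf (nat_lit 139068) (.g (nat_lit 1236) (.e (nat_lit 24636) (nat_lit 9) (.e (nat_lit 336017) (nat_lit 3) (.e (nat_lit 98356) (nat_lit 26) (.e (nat_lit 426361) (nat_lit 15) (.e (nat_lit 2195) (nat_lit 144) .nil))))) .nil)))))) (.nd (nat_lit 2) (.nd (nat_lit 3) (.nd (nat_lit 4) (.nd (nat_lit 5) 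
(.lf (nat_lit 139010) (.g (nat_lit 1065) (.e (nat_lit 24632) (nat_lit 9) (.e (nat_lit 336013) (nat_lit 2) (.e (nat_lit 90183) (nat_lit 17) .nil))) .nil)) 
(.lf (nat_lit 139042) (.g (nat_lit 2985) (.e (nat_lit 24635) (nat_lit 9) (.e (nat_lit 336013) (nat_lit 2) (.e (nat_lit 90170) (nat_lit 13) (.e (nat_lit 179968) (nat_lit 20) .nil)))) .nil))) (.nd (nat_lit 5) 
(.lf (nat_lit 139026) (.g (nat_lit 776) (.e (nat_lit 24633) (nat_lit 9) (.e (nat_lit 336013) (nat_lit 2) (.e (nat_lit 90165) (nat_lit 12) .nil))) .nil)) 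
(.lf (nat_lit 139058) (.g (nat_lit 2738) (.e (nat_lit 24636) (nat_lit 9) (.e (nat_lit 335998) (nat_lit 1) (.e (nat_lit 57684) (nat_lit 155) (.e (nat_lit 122916) (nat_lit 14) (.e (nat_lit 352322) (nat_lit 26) (.e (nat_lit 147496) (nat_lit 11) .nil)))))) (.g (nat_lit 6) .nil .nil))))) (.nd (nat_lit 4) (.nd (nat_lit 5) 
(.lf (nat_lit 139018) (.g (nat_lit 877) (.e (nat_lit 24632) (nat_lit 9) (.e (nat_lit 336028) (nat_lit 3) (.e (nat_lit 98357) (nat_lit 26) .nil))) .nil)) 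
(.lf (nat_lit 139050) (.g (nat_lit 2879) (.e (nat_lit 24636) (nat_lit 9) (.e (nat_lit 335998) (nat_lit 1) (.e (nat_lit 57681) (nat_lit 155) (.e (nat_lit 122917) (nat_lit 15) (.e (nat_lit 360492) (nat_lit 22) (.e (nat_lit 778466) (nat_lit 11) .nil)))))) (.g (nat_lit 6) .nil .nil)))) (.nd (nat_lit 5) 
(.lf (nat_lit 139034) (.g (nat_lit 2537) (.e (nat_lit 24634) (nat_lit 9) (.e (nat_lit 336023) (nat_lit 3) (.e (nat_lit 98389) (nat_lit 33) (.e (nat_lit 491558) (nat_lit 10) (.e (nat_lit 344130) (nat_lit 26) (.e (nat_lit 557087) (nat_lit 11) .nil)))))) (.g (nat_lit 0) .nil .nil))) 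
(.lf (nat_lit 139066) (.g (nat_lit 2307) (.e (nat_lit 24636) (nat_lit 9) (.e (nat_lit 336017) (nat_lit 3) (.e (nat_lit 98355) (nat_lit 26) (.e (nat_lit 426446) (nat_lit 20) (.e (nat_lit 114716) (nat_lit 22) (.e (nat_lit 90160) (nat_lit 11) .nil)))))) (.g (nat_lit 0) .nil .nil)))))) (.nd (nat_lit 3) (.nd (nat_lit 4) (.nd (nat_lit 5) 
(.lf (nat_lit 139014) (.g (nat_lit 3114) (.e (nat_lit 24632) (nat_lit 9) (.e (nat_lit 336028) (nat_lit 3) (.e (nat_lit 98350) (nat_lit 24) (.e (nat_lit 409616) (nat_lit 10) (.e (nat_lit 7936) (nat_lit 301) .nil))))) .nil)) 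
(.lf (nat_lit 139046) (.g (nat_lit 2299) (.e (nat_lit 24636) (nat_lit 9) (.e (nat_lit 335998) (nat_lit 1) (.e (nat_lit 57681) (nat_lit 155) (.e (nat_lit 122916) (nat_lit 14) (.e (nat_lit 352324) (nat_lit 26) .nil))))) .nil))) (.nd (nat_lit 5) 
(.lf (nat_lit 139030) (.g (nat_lit 1873) (.e (nat_lit 24633) (nat_lit 9) (.e (nat_lit 336389) (nat_lit 27) (.e (nat_lit 426012) (nat_lit 0) (.e (nat_lit 7591) (nat_lit 407) (.e (nat_lit 73775) (nat_lit 26) .nil))))) .nil)) 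
(.lf (nat_lit 139062) (.g (nat_lit 2491) (.e (nat_lit 24636) (nat_lit 9) (.e (nat_lit 336017) (nat_lit 3) (.e (nat_lit 98350) (nat_lit 24) (.e (nat_lit 409616) (nat_lit 10) (.e (nat_lit 5353) (nat_lit 298) .nil))))) .nil)))) (.nd (nat_lit 4) (.nd (nat_lit 5) 
(.lf (nat_lit 139022) (.g (nat_lit 3454) (.e (nat_lit 24632) (nat_lit 9) (.e (nat_lit 336028) (nat_lit 3) (.e (nat_lit 98389) (nat_lit 33) (.e (nat_lit 491558) (nat_lit 10) (.e (nat_lit 344129) (nat_lit 26) (.e (nat_lit 557087) (nat_lit 11) .nil)))))) (.g (nat_lit 6) .nil .nil))) 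
(.lf (nat_lit 139054) (.g (nat_lit 1982) (.e (nat_lit 24636) (nat_lit 9) (.e (nat_lit 335998) (nat_lit 1) (.e (nat_lit 57683) (nat_lit 155) (.e (nat_lit 122916) (nat_lit 14) (.e (nat_lit 352323) (nat_lit 26) .nil))))) .nil))) (.nd (nat_lit 5) 
(.lf (nat_lit 139038) (.g (nat_lit 2399) (.e (nat_lit 24634) (nat_lit 9) (.e (nat_lit 336389) (nat_lit 27) (.e (nat_lit 426011) (nat_lit 0) (.e (nat_lit 7593) (nat_lit 407) (.e (nat_lit 73775) (nat_lit 26) .nil))))) .nil)) 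
(.lf (nat_lit 139070) (.g (nat_lit 990) (.e (nat_lit 24636) (nat_lit 9) (.e (nat_lit 336017) (nat_lit 3) (.e (nat_lit 98356) (nat_lit 26) (.e (nat_lit 426440) (nat_lit 19) .nil)))) .nil))))))) (.nd (nat_lit 1) (.nd (nat_lit 2) (.nd (nat_lit 3) (.nd (nat_lit 4) (.nd (nat_lit 5) 
(.lf (nat_lit 139009) (.g (nat_lit 1885) (.e (nat_lit 24632) (nat_lit 9) (.e (nat_lit 336013) (nat_lit 2) (.e (nat_lit 90170) (nat_lit 13) (.e (nat_lit 179968) (nat_lit 20) .nil)))) .nil)) 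
(.lf (nat_lit 139041) (.g (nat_lit 2377) (.e (nat_lit 24634) (nat_lit 9) (.e (nat_lit 336389) (nat_lit 27) (.e (nat_lit 426343) (nat_lit 14) (.e (nat_lit 491556) (nat_lit 9) (.e (nat_lit 336051) (nat_lit 6) .nil))))) .nil))) (.nd (nat_lit 5) 
(.lf (nat_lit 139025) (.g (nat_lit 1891) (.e (nat_lit 24632) (nat_lit 9) (.e (nat_lit 336048) (nat_lit 6) (.e (nat_lit 147496) (nat_lit 11) (.e (nat_lit 24584) (nat_lit 0) (.e (nat_lit 6113) (nat_lit 332) (.e (nat_lit 2584) (nat_lit 161) (.e (nat_lit 40997) (nat_lit 11) .nil))))))) (.g (nat_lit 4) .nil .nil))) 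
(.lf (nat_lit 139057) (.g (nat_lit 2196) (.e (nat_lit 24636) (nat_lit 9) (.e (nat_lit 335998) (nat_lit 1) (.e (nat_lit 57683) (nat_lit 155) (.e (nat_lit 122919) (nat_lit 15) (.e (nat_lit 360492) (nat_lit 22) (.e (nat_lit 778465) (nat_lit 11) .nil)))))) (.g (nat_lit 6) .nil .nil))))) (.nd (nat_lit 4) (.nd (nat_lit 5) 
(.lf (nat_lit 139017) (.g (nat_lit 789) (.e (nat_lit 24632) (nat_lit 9) (.e (nat_lit 336028) (nat_lit 3) (.e (nat_lit 98356) (nat_lit 26) .nil))) .nil)) 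
(.lf (nat_lit 139049) (.g (nat_lit 3206) (.e (nat_lit 24636) (nat_lit 9) (.e (nat_lit 335998) (nat_lit 1) (.e (nat_lit 57681) (nat_lit 155) (.e (nat_lit 122917) (nat_lit 15) (.e (nat_lit 360491) (nat_lit 22) (.e (nat_lit 778466) (nat_lit 11) .nil)))))) (.g (nat_lit 6) .nil .nil)))) (.nd (nat_lit 5) 
(.lf (nat_lit 139033) (.g (nat_lit 2850) (.e (nat_lit 24634) (nat_lit 9) (.e (nat_lit 336013) (nat_lit 2) (.e (nat_lit 90170) (nat_lit 13) (.e (nat_lit 179968) (nat_lit 20) .nil)))) .nil)) 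
(.lf (nat_lit 139065) (.g (nat_lit 2061) (.e (nat_lit 24636) (nat_lit 9) (.e (nat_lit 336017) (nat_lit 3) (.e (nat_lit 98355) (nat_lit 26) (.e (nat_lit 426446) (nat_lit 20) (.e (nat_lit 114716) (nat_lit 22) (.e (nat_lit 90158) (nat_lit 11) .nil)))))) (.g (nat_lit 6) .nil .nil)))))) (.nd (nat_lit 3) (.nd (nat_lit 4) (.nd (nat_lit 5) 
(.lf (nat_lit 139013) (.g (nat_lit 791) (.e (nat_lit 24632) (nat_lit 9) (.e (nat_lit 336028) (nat_lit 3) (.e (nat_lit 98320) (nat_lit 17) .nil))) .nil)) 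
(.lf (nat_lit 139045) (.g (nat_lit 2469) (.e (nat_lit 24636) (nat_lit 9) (.e (nat_lit 335998) (nat_lit 1) (.e (nat_lit 57681) (nat_lit 155) (.e (nat_lit 122916) (nat_lit 14) (.e (nat_lit 352322) (nat_lit 26) .nil))))) .nil))) (.nd (nat_lit 5) 
(.lf (nat_lit 139029) (.g (nat_lit 1295) (.e (nat_lit 24633) (nat_lit 9) (.e (nat_lit 336028) (nat_lit 3) (.e (nat_lit 98359) (nat_lit 26) (.e (nat_lit 433920) (nat_lit 20) .nil)))) .nil)) 
(.lf (nat_lit 139061) (.g (nat_lit 2880) (.e (nat_lit 24636) (nat_lit 9) (.e (nat_lit 336017) (nat_lit 3) (.e (nat_lit 98320) (nat_lit 17) (.e (nat_lit 7593) (nat_lit 407) (.e (nat_lit 73753) (nat_lit 8) (.e (nat_lit 557087) (nat_lit 11) .nil)))))) (.g (nat_lit 0) .nil .nil))))) (.nd (nat_lit 4) (.nd (nat_lit 5) 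
(.lf (nat_lit 139021) (.g (nat_lit 1639) (.e (nat_lit 24632) (nat_lit 9) (.e (nat_lit 336028) (nat_lit 3) (.e (nat_lit 98367) (nat_lit 27) (.e (nat_lit 434202) (nat_lit 18) .nil)))) .nil)) 
(.lf (nat_lit 139053) (.g (nat_lit 3127) (.e (nat_lit 24636) (nat_lit 9) (.e (nat_lit 335998) (nat_lit 1) (.e (nat_lit 57683) (nat_lit 155) (.e (nat_lit 122916) (nat_lit 14) (.e (nat_lit 352322) (nat_lit 26) (.e (nat_lit 147496) (nat_lit 11) .nil)))))) (.g (nat_lit 6) .nil .nil)))) (.nd (nat_lit 5) 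
(.lf (nat_lit 139037) (.g (nat_lit 2132) (.e (nat_lit 24634) (nat_lit 9) (.e (nat_lit 336389) (nat_lit 27) (.e (nat_lit 426011) (nat_lit 0) (.e (nat_lit 7591) (nat_lit 407) (.e (nat_lit 73776) (nat_lit 26) .nil))))) .nil)) 
(.lf (nat_lit 139069) (.g (nat_lit 1310) (.e (nat_lit 24636) (nat_lit 9) (.e (nat_lit 336017) (nat_lit 3) (.e (nat_lit 98356) (nat_lit 26) (.e (nat_lit 426361) (nat_lit 15) (.e (nat_lit 2203) (nat_lit 144) .nil))))) .nil)))))) (.nd (nat_lit 2) (.nd (nat_lit 3) (.nd (nat_lit 4) (.nd (nat_lit 5) 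
(.lf (nat_lit 139011) (.g (nat_lit 1065) (.e (nat_lit 24632) (nat_lit 9) (.e (nat_lit 336013) (nat_lit 2) (.e (nat_lit 90185) (nat_lit 17) .nil))) .nil)) 
(.lf (nat_lit 139043) (.g (nat_lit 1295) (.e (nat_lit 24635) (nat_lit 9) (.e (nat_lit 336028) (nat_lit 3) (.e (nat_lit 98359) (nat_lit 26) (.e (nat_lit 433920) (nat_lit 20) .nil)))) .nil))) (.nd (nat_lit 5) 
(.lf (nat_lit 139027) (.g (nat_lit 2944) (.e (nat_lit 24633) (nat_lit 9) (.e (nat_lit 336013) (nat_lit 2) (.e (nat_lit 90170) (nat_lit 13) (.e (nat_lit 179968) (nat_lit 20) .nil)))) .nil)) 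
(.lf (nat_lit 139059) (.g (nat_lit 2068) (.e (nat_lit 24636) (nat_lit 9) (.e (nat_lit 335998) (nat_lit 1) (.e (nat_lit 57684) (nat_lit 155) (.e (nat_lit 122917) (nat_lit 15) (.e (nat_lit 360492) (nat_lit 22) (.e (nat_lit 778465) (nat_lit 11) .nil)))))) (.g (nat_lit 0) .nil .nil))))) (.nd (nat_lit 4) (.nd (nat_lit 5) 
(.lf (nat_lit 139019) (.g (nat_lit 1050) (.e (nat_lit 24632) (nat_lit 9) (.e (nat_lit 336028) (nat_lit 3) (.e (nat_lit 98357) (nat_lit 26) (.e (nat_lit 426448) (nat_lit 20) .nil)))) .nil)) 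
(.lf (nat_lit 139051) (.g (nat_lit 3664) (.e (nat_lit 24636) (nat_lit 9) (.e (nat_lit 335998) (nat_lit 1) (.e (nat_lit 57681) (nat_lit 155) (.e (nat_lit 122919) (nat_lit 15) (.e (nat_lit 360491) (nat_lit 22) (.e (nat_lit 778466) (nat_lit 11) .nil)))))) (.g (nat_lit 6) .nil .nil)))) (.nd (nat_lit 5) 
(.lf (nat_lit 139035) (.g (nat_lit 448) (.e (nat_lit 24634) (nat_lit 9) (.e (nat_lit 336040) (nat_lit 5) (.e (nat_lit 139276) (nat_lit 2) (.e (nat_lit 16461) (nat_lit 12) (.e (nat_lit 483072) (nat_lit 2) .nil))))) .nil)) 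
(.lf (nat_lit 139067) (.g (nat_lit 1002) (.e (nat_lit 24636) (nat_lit 9) (.e (nat_lit 336017) (nat_lit 3) (.e (nat_lit 98356) (nat_lit 26) (.e (nat_lit 426361) (nat_lit 15) .nil)))) .nil))))) (.nd (nat_lit 3) (.nd (nat_lit 4) (.nd (nat_lit 5) 
(.lf (nat_lit 139015) (.g (nat_lit 785) (.e (nat_lit 24632) (nat_lit 9) (.e (nat_lit 336028) (nat_lit 3) (.e (nat_lit 98354) (nat_lit 26) .nil))) .nil)) 
(.lf (nat_lit 139047) (.g (nat_lit 2464) (.e (nat_lit 24636) (nat_lit 9) (.e (nat_lit 335998) (nat_lit 1) (.e (nat_lit 57681) (nat_lit 155) (.e (nat_lit 122916) (nat_lit 14) (.e (nat_lit 352324) (nat_lit 26) (.e (nat_lit 147496) (nat_lit 11) .nil)))))) (.g (nat_lit 4) .nil .nil)))) (.nd (nat_lit 5) 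
(.lf (nat_lit 139031) (.g (nat_lit 1751) (.e (nat_lit 24634) (nat_lit 9) (.e (nat_lit 335991) (nat_lit 1) (.e (nat_lit 57655) (nat_lit 152) (.e (nat_lit 1216) (nat_lit 90) (.e (nat_lit 81963) (nat_lit 26) (.e (nat_lit 147495) (nat_lit 11) .nil)))))) (.g (nat_lit 6) .nil .nil))) 
(.lf (nat_lit 139063) (.g (nat_lit 2448) (.e (nat_lit 24636) (nat_lit 9) (.e (nat_lit 336017) (nat_lit 3) (.e (nat_lit 98355) (nat_lit 26) (.e (nat_lit 426446) (nat_lit 20) (.e (nat_lit 114714) (nat_lit 22) (.e (nat_lit 90160) (nat_lit 11) .nil)))))) (.g (nat_lit 6) .nil .nil))))) (.nd (nat_lit 4) (.nd (nat_lit 5) 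
(.lf (nat_lit 139023) (.g (nat_lit 2616) (.e (nat_lit 24632) (nat_lit 9) (.e (nat_lit 336028) (nat_lit 3) (.e (nat_lit 98389) (nat_lit 33) (.e (nat_lit 491560) (nat_lit 10) (.e (nat_lit 344129) (nat_lit 26) (.e (nat_lit 557087) (nat_lit 11) .nil)))))) (.g (nat_lit 5) .nil .nil))) 
(.lf (nat_lit 139055) (.g (nat_lit 3349) (.e (nat_lit 24636) (nat_lit 9) (.e (nat_lit 335998) (nat_lit 1) (.e (nat_lit 57683) (nat_lit 155) (.e (nat_lit 122916) (nat_lit 14) (.e (nat_lit 352324) (nat_lit 26) (.e (nat_lit 147496) (nat_lit 11) .nil)))))) (.g (nat_lit 6) .nil .nil)))) (.nd (nat_lit 5) 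
(.lf (nat_lit 139039) (.g (nat_lit 1306) (.e (nat_lit 24634) (nat_lit 9) (.e (nat_lit 336389) (nat_lit 27) (.e (nat_lit 426012) (nat_lit 0) (.e (nat_lit 7587) (nat_lit 406) .nil)))) .nil)) 
(.lf (nat_lit 139071) (.g (nat_lit 779) (.e (nat_lit 24636) (nat_lit 9) (.e (nat_lit 336017) (nat_lit 3) (.e (nat_lit 98356) (nat_lit 26) (.e (nat_lit 426444) (nat_lit 19) .nil)))) .nil))))))))

noncomputable def tv1848 : DT := (.nd (nat_lit 0) (.nd (nat_lit 1) (.nd (nat_lit 2) (.nd (nat_lit 3) (.nd (nat_lit 4) (.nd (nat_lit 5) 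
(.lf (nat_lit 139072) (.g (nat_lit 902) (.e (nat_lit 24636) (nat_lit 9) (.e (nat_lit 336017) (nat_lit 3) (.e (nat_lit 98356) (nat_lit 26) (.e (nat_lit 426446) (nat_lit 20) .nil)))) .nil)) 
(.lf (nat_lit 139104) (.g (nat_lit 1994) (.e (nat_lit 24636) (nat_lit 9) (.e (nat_lit 336017) (nat_lit 3) (.e (nat_lit 98386) (nat_lit 32) (.e (nat_lit 475214) (nat_lit 42) (.e (nat_lit 720938) (nat_lit 22) .nil))))) .nil))) (.nd (nat_lit 5) 
(.lf (nat_lit 139088) (.g (nat_lit 1172) (.e (nat_lit 24636) (nat_lit 9) (.e (nat_lit 336017) (nat_lit 3) (.e (nat_lit 98358) (nat_lit 26) (.e (nat_lit 426446) (nat_lit 20) .nil)))) .nil)) 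
(.lf (nat_lit 139120) (.g (nat_lit 1946) (.e (nat_lit 24637) (nat_lit 9) (.e (nat_lit 335995) (nat_lit 1) (.e (nat_lit 57681) (nat_lit 155) (.e (nat_lit 122917) (nat_lit 15) .nil)))) .nil)))) (.nd (nat_lit 4) (.nd (nat_lit 5) 
(.lf (nat_lit 139080) (.g (nat_lit 2990) (.e (nat_lit 24636) (nat_lit 9) (.e (nat_lit 336017) (nat_lit 3) (.e (nat_lit 98356) (nat_lit 26) (.e (nat_lit 426448) (nat_lit 20) (.e (nat_lit 114716) (nat_lit 22) (.e (nat_lit 90158) (nat_lit 11) .nil)))))) (.g (nat_lit 6) .nil .nil))) 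
(.lf (nat_lit 139112) (.g (nat_lit 2567) (.e (nat_lit 24636) (nat_lit 9) (.e (nat_lit 336390) (nat_lit 27) (.e (nat_lit 426500) (nat_lit 27) (.e (nat_lit 335986) (nat_lit 1) (.e (nat_lit 57847) (nat_lit 252) (.e (nat_lit 57372) (nat_lit 2) (.e (nat_lit 90160) (nat_lit 11) .nil))))))) (.g (nat_lit 7) .nil .nil)))) (.nd (nat_lit 5) 
(.lf (nat_lit 139096) (.g (nat_lit 2582) (.e (nat_lit 24636) (nat_lit 9) (.e (nat_lit 336017) (nat_lit 3) (.e (nat_lit 98384) (nat_lit 32) (.e (nat_lit 475212) (nat_lit 42) (.e (nat_lit 720941) (nat_lit 22) (.e (nat_lit 90160) (nat_lit 11) .nil)))))) (.g (nat_lit 0) .nil .nil))) 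
(.lf (nat_lit 139128) (.g (nat_lit 1159) (.e (nat_lit 24637) (nat_lit 9) (.e (nat_lit 336021) (nat_lit 3) (.e (nat_lit 98363) (nat_lit 26) .nil))) .nil))))) (.nd (nat_lit 3) (.nd (nat_lit 4) (.nd (nat_lit 5) 
(.lf (nat_lit 139076) (.g (nat_lit 3180) (.e (nat_lit 24636) (nat_lit 9) (.e (nat_lit 336017) (nat_lit 3) (.e (nat_lit 98356) (nat_lit 26) (.e (nat_lit 426448) (nat_lit 20) (.e (nat_lit 114714) (nat_lit 22) (.e (nat_lit 90157) (nat_lit 11) .nil)))))) (.g (nat_lit 0) .nil .nil))) 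
(.lf (nat_lit 139108) (.g (nat_lit 1918) (.e (nat_lit 24636) (nat_lit 9) (.e (nat_lit 336017) (nat_lit 3) (.e (nat_lit 98389) (nat_lit 33) (.e (nat_lit 491560) (nat_lit 10) (.e (nat_lit 344128) (nat_lit 26) (.e (nat_lit 557087) (nat_lit 11) .nil)))))) (.g (nat_lit 4) .nil .nil)))) (.nd (nat_lit 5) 
(.lf (nat_lit 139092) (.g (nat_lit 1791) (.e (nat_lit 24636) (nat_lit 9) (.e (nat_lit 336017) (nat_lit 3) (.e (nat_lit 98384) (nat_lit 32) (.e (nat_lit 475201) (nat_lit 40) (.e (nat_lit 704655) (nat_lit 9) .nil))))) .nil)) 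
(.lf (nat_lit 139124) (.g (nat_lit 2308) (.e (nat_lit 24637) (nat_lit 9) (.e (nat_lit 336011) (nat_lit 2) (.e (nat_lit 90170) (nat_lit 13) (.e (nat_lit 179968) (nat_lit 20) .nil)))) .nil)))) (.nd (nat_lit 4) (.nd (nat_lit 5) 
(.lf (nat_lit 139084) (.g (nat_lit 2875) (.e (nat_lit 24636) (nat_lit 9) (.e (nat_lit 336017) (nat_lit 3) (.e (nat_lit 98356) (nat_lit 26) (.e (nat_lit 426449) (nat_lit 20) (.e (nat_lit 114716) (nat_lit 22) (.e (nat_lit 90160) (nat_lit 11) .nil)))))) (.g (nat_lit 0) .nil .nil))) 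
(.lf (nat_lit 139116) (.g (nat_lit 3004) (.e (nat_lit 24636) (nat_lit 9) (.e (nat_lit 336390) (nat_lit 27) (.e (nat_lit 426500) (nat_lit 27) (.e (nat_lit 335996) (nat_lit 1) (.e (nat_lit 57854) (nat_lit 252) (.e (nat_lit 57371) (nat_lit 2) (.e (nat_lit 90160) (nat_lit 11) .nil))))))) (.g (nat_lit 7) .nil .nil)))) (.nd (nat_lit 5) 
(.lf (nat_lit 139100) (.g (nat_lit 1044) (.e (nat_lit 24636) (nat_lit 9) (.e (nat_lit 336017) (nat_lit 3) (.e (nat_lit 98386) (nat_lit 32) (.e (nat_lit 475212) (nat_lit 42) .nil)))) .nil)) 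
(.lf (nat_lit 139132) (.g (nat_lit 888) (.e (nat_lit 24637) (nat_lit 9) (.e (nat_lit 336027) (nat_lit 3) (.e (nat_lit 98389) (nat_lit 33) .nil))) .nil)))))) (.nd (nat_lit 2) (.nd (nat_lit 3) (.nd (nat_lit 4) (.nd (nat_lit 5) 
(.lf (nat_lit 139074) (.g (nat_lit 2421) (.e (nat_lit 24636) (nat_lit 9) (.e (nat_lit 336017) (nat_lit 3) (.e (nat_lit 98356) (nat_lit 26) (.e (nat_lit 426446) (nat_lit 20) (.e (nat_lit 114716) (nat_lit 22) (.e (nat_lit 90157) (nat_lit 11) .nil)))))) (.g (nat_lit 0) .nil .nil))) 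
(.lf (nat_lit 139106) (.g (nat_lit 4001) (.e (nat_lit 24636) (nat_lit 9) (.e (nat_lit 336017) (nat_lit 3) (.e (nat_lit 98388) (nat_lit 33) (.e (nat_lit 491560) (nat_lit 10) (.e (nat_lit 344129) (nat_lit 26) (.e (nat_lit 557087) (nat_lit 11) .nil)))))) (.g (nat_lit 0) .nil .nil)))) (.nd (nat_lit 5) 
(.lf (nat_lit 139090) (.g (nat_lit 1875) (.e (nat_lit 24636) (nat_lit 9) (.e (nat_lit 336017) (nat_lit 3) (.e (nat_lit 98358) (nat_lit 26) (.e (nat_lit 426448) (nat_lit 20) (.e (nat_lit 114716) (nat_lit 22) (.e (nat_lit 90158) (nat_lit 11) .nil)))))) (.g (nat_lit 4) .nil .nil))) 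
(.lf (nat_lit 139122) (.g (nat_lit 1935) (.e (nat_lit 24637) (nat_lit 9) (.e (nat_lit 335995) (nat_lit 1) (.e (nat_lit 57683) (nat_lit 155) (.e (nat_lit 122917) (nat_lit 15) (.e (nat_lit 360491) (nat_lit 22) .nil))))) .nil)))) (.nd (nat_lit 4) (.nd (nat_lit 5) 
(.lf (nat_lit 139082) (.g (nat_lit 2201) (.e (nat_lit 24636) (nat_lit 9) (.e (nat_lit 336017) (nat_lit 3) (.e (nat_lit 98356) (nat_lit 26) (.e (nat_lit 426449) (nat_lit 20) (.e (nat_lit 114716) (nat_lit 22) (.e (nat_lit 90157) (nat_lit 11) .nil)))))) (.g (nat_lit 5) .nil .nil))) 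
(.lf (nat_lit 139114) (.g (nat_lit 2874) (.e (nat_lit 24636) (nat_lit 9) (.e (nat_lit 336390) (nat_lit 27) (.e (nat_lit 426500) (nat_lit 27) (.e (nat_lit 335988) (nat_lit 1) (.e (nat_lit 57854) (nat_lit 252) (.e (nat_lit 57373) (nat_lit 2) (.e (nat_lit 90160) (nat_lit 11) .nil))))))) (.g (nat_lit 0) .nil .nil)))) (.nd (nat_lit 5) 
(.lf (nat_lit 139098) (.g (nat_lit 2103) (.e (nat_lit 24636) (nat_lit 9) (.e (nat_lit 336017) (nat_lit 3) (.e (nat_lit 98385) (nat_lit 32) (.e (nat_lit 475214) (nat_lit 42) (.e (nat_lit 720938) (nat_lit 22) (.e (nat_lit 90160) (nat_lit 11) .nil)))))) (.g (nat_lit 0) .nil .nil))) 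
(.lf (nat_lit 139130) (.g (nat_lit 1102) (.e (nat_lit 24637) (nat_lit 9) (.e (nat_lit 336021) (nat_lit 3) (.e (nat_lit 98388) (nat_lit 33) .nil))) .nil))))) (.nd (nat_lit 3) (.nd (nat_lit 4) (.nd (nat_lit 5) 
(.lf (nat_lit 139078) (.g (nat_lit 2169) (.e (nat_lit 24636) (nat_lit 9) (.e (nat_lit 336017) (nat_lit 3) (.e (nat_lit 98356) (nat_lit 26) (.e (nat_lit 426448) (nat_lit 20) (.e (nat_lit 114715) (nat_lit 22) .nil))))) .nil)) 
(.lf (nat_lit 139110) (.g (nat_lit 1900) (.e (nat_lit 24636) (nat_lit 9) (.e (nat_lit 336051) (nat_lit 6) (.e (nat_lit 147467) (nat_lit 9) (.e (nat_lit 314) (nat_lit 23) (.e (nat_lit 352324) (nat_lit 26) .nil))))) .nil))) (.nd (nat_lit 5) 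
(.lf (nat_lit 139094) (.g (nat_lit 1350) (.e (nat_lit 24636) (nat_lit 9) (.e (nat_lit 336017) (nat_lit 3) (.e (nat_lit 98384) (nat_lit 32) (.e (nat_lit 475212) (nat_lit 42) (.e (nat_lit 720938) (nat_lit 22) (.e (nat_lit 90159) (nat_lit 11) .nil)))))) (.g (nat_lit 4) .nil .nil))) 
(.lf (nat_lit 139126) (.g (nat_lit 947) (.e (nat_lit 24637) (nat_lit 9) (.e (nat_lit 336021) (nat_lit 3) (.e (nat_lit 98357) (nat_lit 26) .nil))) .nil)))) (.nd (nat_lit 4) (.nd (nat_lit 5) 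
(.lf (nat_lit 139086) (.g (nat_lit 2685) (.e (nat_lit 24636) (nat_lit 9) (.e (nat_lit 336017) (nat_lit 3) (.e (nat_lit 98357) (nat_lit 26) (.e (nat_lit 426448) (nat_lit 20) (.e (nat_lit 114714) (nat_lit 22) (.e (nat_lit 90158) (nat_lit 11) .nil)))))) (.g (nat_lit 0) .nil .nil))) 
(.lf (nat_lit 139118) (.g (nat_lit 699) (.e (nat_lit 24637) (nat_lit 9) (.e (nat_lit 335986) (nat_lit 1) (.e (nat_lit 57655) (nat_lit 152) .nil))) .nil))) (.nd (nat_lit 5) 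
(.lf (nat_lit 139102) (.g (nat_lit 2034) (.e (nat_lit 24636) (nat_lit 9) (.e (nat_lit 336017) (nat_lit 3) (.e (nat_lit 98386) (nat_lit 32) (.e (nat_lit 475214) (nat_lit 42) (.e (nat_lit 720937) (nat_lit 22) .nil))))) .nil)) 
(.lf (nat_lit 139134) (.g (nat_lit 539) (.e (nat_lit 24638) (nat_lit 9) (.e (nat_lit 335895) (nat_lit 0) (.e (nat_lit 2284) (nat_lit 150) .nil))) .nil))))))) (.nd (nat_lit 1) (.nd (nat_lit 2) (.nd (nat_lit 3) (.nd (nat_lit 4) (.nd (nat_lit 5) 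
(.lf (nat_lit 139073) (.g (nat_lit 2326) (.e (nat_lit 24636) (nat_lit 9) (.e (nat_lit 336017) (nat_lit 3) (.e (nat_lit 98356) (nat_lit 26) (.e (nat_lit 426446) (nat_lit 20) (.e (nat_lit 114714) (nat_lit 22) (.e (nat_lit 90157) (nat_lit 11) .nil)))))) (.g (nat_lit 5) .nil .nil))) 
(.lf (nat_lit 139105) (.g (nat_lit 2042) (.e (nat_lit 24636) (nat_lit 9) (.e (nat_lit 336017) (nat_lit 3) (.e (nat_lit 98386) (nat_lit 32) (.e (nat_lit 475214) (nat_lit 42) (.e (nat_lit 720938) (nat_lit 22) (.e (nat_lit 90158) (nat_lit 11) .nil)))))) (.g (nat_lit 4) .nil .nil)))) (.nd (nat_lit 5) 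
(.lf (nat_lit 139089) (.g (nat_lit 1637) (.e (nat_lit 24636) (nat_lit 9) (.e (nat_lit 336017) (nat_lit 3) (.e (nat_lit 98358) (nat_lit 26) (.e (nat_lit 426446) (nat_lit 20) (.e (nat_lit 114714) (nat_lit 22) .nil))))) .nil)) 
(.lf (nat_lit 139121) (.g (nat_lit 3569) (.e (nat_lit 24637) (nat_lit 9) (.e (nat_lit 335995) (nat_lit 1) (.e (nat_lit 57681) (nat_lit 155) (.e (nat_lit 122919) (nat_lit 15) (.e (nat_lit 360492) (nat_lit 22) .nil))))) .nil)))) (.nd (nat_lit 4) (.nd (nat_lit 5) 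
(.lf (nat_lit 139081) (.g (nat_lit 3078) (.e (nat_lit 24636) (nat_lit 9) (.e (nat_lit 336017) (nat_lit 3) (.e (nat_lit 98356) (nat_lit 26) (.e (nat_lit 426449) (nat_lit 20) (.e (nat_lit 114714) (nat_lit 22) (.e (nat_lit 90160) (nat_lit 11) .nil)))))) (.g (nat_lit 6) .nil .nil))) 
(.lf (nat_lit 139113) (.g (nat_lit 2474) (.e (nat_lit 24636) (nat_lit 9) (.e (nat_lit 336390) (nat_lit 27) (.e (nat_lit 426500) (nat_lit 27) (.e (nat_lit 335988) (nat_lit 1) (.e (nat_lit 57854) (nat_lit 252) (.e (nat_lit 57371) (nat_lit 2) (.e (nat_lit 90160) (nat_lit 11) .nil))))))) (.g (nat_lit 7) .nil .nil)))) (.nd (nat_lit 5) 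
(.lf (nat_lit 139097) (.g (nat_lit 1092) (.e (nat_lit 24636) (nat_lit 9) (.e (nat_lit 336017) (nat_lit 3) (.e (nat_lit 98384) (nat_lit 32) (.e (nat_lit 475213) (nat_lit 42) (.e (nat_lit 720938) (nat_lit 22) .nil))))) .nil)) 
(.lf (nat_lit 139129) (.g (nat_lit 1041) (.e (nat_lit 24637) (nat_lit 9) (.e (nat_lit 336021) (nat_lit 3) (.e (nat_lit 98385) (nat_lit 32) .nil))) .nil))))) (.nd (nat_lit 3) (.nd (nat_lit 4) (.nd (nat_lit 5) 
(.lf (nat_lit 139077) (.g (nat_lit 3396) (.e (nat_lit 24636) (nat_lit 9) (.e (nat_lit 336017) (nat_lit 3) (.e (nat_lit 98356) (nat_lit 26) (.e (nat_lit 426448) (nat_lit 20) (.e (nat_lit 114714) (nat_lit 22) (.e (nat_lit 90158) (nat_lit 11) .nil)))))) (.g (nat_lit 0) .nil .nil))) 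
(.lf (nat_lit 139109) (.g (nat_lit 1553) (.e (nat_lit 24636) (nat_lit 9) (.e (nat_lit 336051) (nat_lit 6) (.e (nat_lit 147466) (nat_lit 9) (.e (nat_lit 309) (nat_lit 23) .nil)))) .nil))) (.nd (nat_lit 5) 
(.lf (nat_lit 139093) (.g (nat_lit 2451) (.e (nat_lit 24636) (nat_lit 9) (.e (nat_lit 336017) (nat_lit 3) (.e (nat_lit 98384) (nat_lit 32) (.e (nat_lit 475212) (nat_lit 42) (.e (nat_lit 720938) (nat_lit 22) (.e (nat_lit 90158) (nat_lit 11) .nil)))))) (.g (nat_lit 6) .nil .nil))) 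
(.lf (nat_lit 139125) (.g (nat_lit 1352) (.e (nat_lit 24637) (nat_lit 9) (.e (nat_lit 336012) (nat_lit 2) (.e (nat_lit 90169) (nat_lit 13) (.e (nat_lit 179968) (nat_lit 20) .nil)))) .nil)))) (.nd (nat_lit 4) (.nd (nat_lit 5) 
(.lf (nat_lit 139085) (.g (nat_lit 1748) (.e (nat_lit 24636) (nat_lit 9) (.e (nat_lit 336017) (nat_lit 3) (.e (nat_lit 98357) (nat_lit 26) (.e (nat_lit 426446) (nat_lit 20) (.e (nat_lit 114716) (nat_lit 22) (.e (nat_lit 90157) (nat_lit 11) .nil)))))) (.g (nat_lit 6) .nil .nil))) 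
(.lf (nat_lit 139117) (.g (nat_lit 742) (.e (nat_lit 24637) (nat_lit 9) (.e (nat_lit 335894) (nat_lit 0) (.e (nat_lit 2373) (nat_lit 154) .nil))) .nil))) (.nd (nat_lit 5) 
(.lf (nat_lit 139101) (.g (nat_lit 1600) (.e (nat_lit 24636) (nat_lit 9) (.e (nat_lit 336017) (nat_lit 3) (.e (nat_lit 98386) (nat_lit 32) (.e (nat_lit 475213) (nat_lit 42) (.e (nat_lit 720938) (nat_lit 22) .nil))))) .nil)) 
(.lf (nat_lit 139133) (.g (nat_lit 744) (.e (nat_lit 24638) (nat_lit 9) (.e (nat_lit 335894) (nat_lit 0) (.e (nat_lit 2363) (nat_lit 153) .nil))) .nil)))))) (.nd (nat_lit 2) (.nd (nat_lit 3) (.nd (nat_lit 4) (.nd (nat_lit 5) 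
(.lf (nat_lit 139075) (.g (nat_lit 2441) (.e (nat_lit 24636) (nat_lit 9) (.e (nat_lit 336017) (nat_lit 3) (.e (nat_lit 98356) (nat_lit 26) (.e (nat_lit 426446) (nat_lit 20) (.e (nat_lit 114716) (nat_lit 22) (.e (nat_lit 90158) (nat_lit 11) .nil)))))) (.g (nat_lit 6) .nil .nil))) 
(.lf (nat_lit 139107) (.g (nat_lit 2262) (.e (nat_lit 24636) (nat_lit 9) (.e (nat_lit 336017) (nat_lit 3) (.e (nat_lit 98388) (nat_lit 33) (.e (nat_lit 491560) (nat_lit 10) (.e (nat_lit 344131) (nat_lit 26) (.e (nat_lit 557087) (nat_lit 11) .nil)))))) (.g (nat_lit 4) .nil .nil)))) (.nd (nat_lit 5) 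
(.lf (nat_lit 139091) (.g (nat_lit 988) (.e (nat_lit 24636) (nat_lit 9) (.e (nat_lit 336017) (nat_lit 3) (.e (nat_lit 98384) (nat_lit 32) (.e (nat_lit 475201) (nat_lit 40) .nil)))) .nil)) 
(.lf (nat_lit 139123) (.g (nat_lit 1145) (.e (nat_lit 24637) (nat_lit 9) (.e (nat_lit 336004) (nat_lit 2) (.e (nat_lit 90181) (nat_lit 16) (.e (nat_lit 237312) (nat_lit 192) .nil)))) .nil)))) (.nd (nat_lit 4) (.nd (nat_lit 5) 
(.lf (nat_lit 139083) (.g (nat_lit 1985) (.e (nat_lit 24636) (nat_lit 9) (.e (nat_lit 336017) (nat_lit 3) (.e (nat_lit 98356) (nat_lit 26) (.e (nat_lit 426449) (nat_lit 20) (.e (nat_lit 114716) (nat_lit 22) (.e (nat_lit 90159) (nat_lit 11) .nil)))))) (.g (nat_lit 5) .nil .nil))) 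
(.lf (nat_lit 139115) (.g (nat_lit 2885) (.e (nat_lit 24636) (nat_lit 9) (.e (nat_lit 336390) (nat_lit 27) (.e (nat_lit 426500) (nat_lit 27) (.e (nat_lit 335995) (nat_lit 1) (.e (nat_lit 57847) (nat_lit 252) (.e (nat_lit 57372) (nat_lit 2) (.e (nat_lit 90160) (nat_lit 11) .nil))))))) (.g (nat_lit 7) .nil .nil)))) (.nd (nat_lit 5) 
(.lf (nat_lit 139099) (.g (nat_lit 335) (.e (nat_lit 24636) (nat_lit 9) (.e (nat_lit 336017) (nat_lit 3) (.e (nat_lit 98386) (nat_lit 32) .nil))) .nil)) 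
(.lf (nat_lit 139131) (.g (nat_lit 489) (.e (nat_lit 24637) (nat_lit 9) (.e (nat_lit 336027) (nat_lit 3) (.e (nat_lit 98363) (nat_lit 26) .nil))) .nil))))) (.nd (nat_lit 3) (.nd (nat_lit 4) (.nd (nat_lit 5) 
(.lf (nat_lit 139079) (.g (nat_lit 2400) (.e (nat_lit 24636) (nat_lit 9) (.e (nat_lit 336017) (nat_lit 3) (.e (nat_lit 98356) (nat_lit 26) (.e (nat_lit 426448) (nat_lit 20) (.e (nat_lit 114716) (nat_lit 22) (.e (nat_lit 90157) (nat_lit 11) .nil)))))) (.g (nat_lit 5) .nil .nil))) 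
(.lf (nat_lit 139111) (.g (nat_lit 1999) (.e (nat_lit 24636) (nat_lit 9) (.e (nat_lit 336390) (nat_lit 27) (.e (nat_lit 426011) (nat_lit 0) (.e (nat_lit 7587) (nat_lit 406) .nil)))) .nil))) (.nd (nat_lit 5) 
(.lf (nat_lit 139095) (.g (nat_lit 1408) (.e (nat_lit 24636) (nat_lit 9) (.e (nat_lit 336017) (nat_lit 3) (.e (nat_lit 98384) (nat_lit 32) (.e (nat_lit 475212) (nat_lit 42) (.e (nat_lit 720941) (nat_lit 22) (.e (nat_lit 90159) (nat_lit 11) .nil)))))) (.g (nat_lit 4) .nil .nil))) 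
(.lf (nat_lit 139127) (.g (nat_lit 1298) (.e (nat_lit 24637) (nat_lit 9) (.e (nat_lit 336021) (nat_lit 3) (.e (nat_lit 98357) (nat_lit 26) (.e (nat_lit 426448) (nat_lit 20) .nil)))) .nil)))) (.nd (nat_lit 4) (.nd (nat_lit 5) 
(.lf (nat_lit 139087) (.g (nat_lit 2272) (.e (nat_lit 24636) (nat_lit 9) (.e (nat_lit 336017) (nat_lit 3) (.e (nat_lit 98357) (nat_lit 26) (.e (nat_lit 426448) (nat_lit 20) (.e (nat_lit 114716) (nat_lit 22) (.e (nat_lit 90158) (nat_lit 11) .nil)))))) (.g (nat_lit 6) .nil .nil))) 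
(.lf (nat_lit 139119) (.g (nat_lit 797) (.e (nat_lit 24637) (nat_lit 9) (.e (nat_lit 335988) (nat_lit 1) (.e (nat_lit 57665) (nat_lit 152) .nil))) .nil))) (.nd (nat_lit 5) 
(.lf (nat_lit 139103) (.g (nat_lit 2092) (.e (nat_lit 24636) (nat_lit 9) (.e (nat_lit 336017) (nat_lit 3) (.e (nat_lit 98386) (nat_lit 32) (.e (nat_lit 475214) (nat_lit 42) (.e (nat_lit 720937) (nat_lit 22) (.e (nat_lit 90158) (nat_lit 11) .nil)))))) (.g (nat_lit 4) .nil .nil))) 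
(.lf (nat_lit 139135) (.g (nat_lit 361) (.e (nat_lit 24638) (nat_lit 9) (.e (nat_lit 335986) (nat_lit 1) (.e (nat_lit 57655) (nat_lit 152) .nil))) .nil))))))))

noncomputable def tv1849 : DT := (.nd (nat_lit 0) (.nd (nat_lit 1) (.nd (nat_lit 2) (.nd (nat_lit 3) (.nd (nat_lit 4) (.nd (nat_lit 5) (.nd (nat_lit 6) 
(.lf (nat_lit 139136) (.g (nat_lit 2635) (.e (nat_lit 24638) (nat_lit 9) (.e (nat_lit 335986) (nat_lit 1) (.e (nat_lit 57655) (nat_lit 152) (.e (nat_lit 1216) (nat_lit 90) (.e (nat_lit 81963) (nat_lit 26) (.e (nat_lit 147493) (nat_lit 11) .nil)))))) (.g (nat_lit 6) .nil .nil))) 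
(.lf (nat_lit 139200) (.g (nat_lit 1057) (.e (nat_lit 24638) (nat_lit 9) (.e (nat_lit 336021) (nat_lit 3) (.e (nat_lit 98331) (nat_lit 17) .nil))) .nil))) (.nd (nat_lit 6) 
(.lf (nat_lit 139168) (.g (nat_lit 2488) (.e (nat_lit 24638) (nat_lit 9) (.e (nat_lit 335988) (nat_lit 1) (.e (nat_lit 57680) (nat_lit 155) (.e (nat_lit 122919) (nat_lit 15) (.e (nat_lit 360492) (nat_lit 22) (.e (nat_lit 778466) (nat_lit 11) .nil)))))) (.g (nat_lit 4) .nil .nil))) 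
(.lf (nat_lit 139232) (.g (nat_lit 883) (.e (nat_lit 24638) (nat_lit 9) (.e (nat_lit 336027) (nat_lit 3) (.e (nat_lit 98385) (nat_lit 32) .nil))) .nil)))) (.nd (nat_lit 5) (.nd (nat_lit 6) 
(.lf (nat_lit 139152) (.g (nat_lit 1945) (.e (nat_lit 24638) (nat_lit 9) (.e (nat_lit 335986) (nat_lit 1) (.e (nat_lit 57684) (nat_lit 155) (.e (nat_lit 122916) (nat_lit 14) (.e (nat_lit 352322) (nat_lit 26) (.e (nat_lit 147496) (nat_lit 11) .nil)))))) (.g (nat_lit 4) .nil .nil))) 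
(.lf (nat_lit 139216) (.g (nat_lit 3820) (.e (nat_lit 24638) (nat_lit 9) (.e (nat_lit 336021) (nat_lit 3) (.e (nat_lit 98389) (nat_lit 33) (.e (nat_lit 491560) (nat_lit 10) (.e (nat_lit 344129) (nat_lit 26) (.e (nat_lit 557087) (nat_lit 11) .nil)))))) (.g (nat_lit 0) .nil .nil)))) (.nd (nat_lit 6) 
(.lf (nat_lit 139184) (.g (nat_lit 1241) (.e (nat_lit 24638) (nat_lit 9) (.e (nat_lit 336001) (nat_lit 2) (.e (nat_lit 90170) (nat_lit 13) (.e (nat_lit 179968) (nat_lit 20) .nil)))) .nil)) 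
(.lf (nat_lit 139248) (.g (nat_lit 682) (.e (nat_lit 32512) (nat_lit 9) (.e (nat_lit 336027) (nat_lit 3) (.e (nat_lit 98389) (nat_lit 33) .nil))) .nil))))) (.nd (nat_lit 4) (.nd (nat_lit 5) (.nd (nat_lit 6) 
(.lf (nat_lit 139144) (.g (nat_lit 2205) (.e (nat_lit 24638) (nat_lit 9) (.e (nat_lit 335986) (nat_lit 1) (.e (nat_lit 57681) (nat_lit 155) (.e (nat_lit 122917) (nat_lit 15) (.e (nat_lit 360492) (nat_lit 22) .nil))))) .nil)) 
(.lf (nat_lit 139208) (.g (nat_lit 675) (.e (nat_lit 24638) (nat_lit 9) (.e (nat_lit 336021) (nat_lit 3) (.e (nat_lit 98363) (nat_lit 26) .nil))) .nil))) (.nd (nat_lit 6) 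
(.lf (nat_lit 139176) (.g (nat_lit 2252) (.e (nat_lit 24638) (nat_lit 9) (.e (nat_lit 335995) (nat_lit 1) (.e (nat_lit 57683) (nat_lit 155) (.e (nat_lit 122917) (nat_lit 15) (.e (nat_lit 360491) (nat_lit 22) (.e (nat_lit 778466) (nat_lit 11) .nil)))))) (.g (nat_lit 4) .nil .nil))) 
(.lf (nat_lit 139240) (.g (nat_lit 427) (.e (nat_lit 32512) (nat_lit 9) (.e (nat_lit 336011) (nat_lit 2) (.e (nat_lit 90165) (nat_lit 12) .nil))) .nil)))) (.nd (nat_lit 5) (.nd (nat_lit 6) 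
(.lf (nat_lit 139160) (.g (nat_lit 817) (.e (nat_lit 24638) (nat_lit 9) (.e (nat_lit 335988) (nat_lit 1) (.e (nat_lit 57663) (nat_lit 152) .nil))) .nil)) 
(.lf (nat_lit 139224) (.g (nat_lit 1438) (.e (nat_lit 24638) (nat_lit 9) (.e (nat_lit 336027) (nat_lit 3) (.e (nat_lit 98384) (nat_lit 32) (.e (nat_lit 475201) (nat_lit 40) .nil)))) .nil))) (.nd (nat_lit 6) 
(.lf (nat_lit 139192) (.g (nat_lit 1341) (.e (nat_lit 24638) (nat_lit 9) (.e (nat_lit 336004) (nat_lit 2) (.e (nat_lit 90172) (nat_lit 14) (.e (nat_lit 188160) (nat_lit 0) .nil)))) .nil)) 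
(.lf (nat_lit 139256) (.g (nat_lit 1705) (.e (nat_lit 32512) (nat_lit 9) (.e (nat_lit 336454) (nat_lit 34) (.e (nat_lit 483364) (nat_lit 18) (.e (nat_lit 57854) (nat_lit 252) (.e (nat_lit 57371) (nat_lit 2) .nil))))) .nil)))))) (.nd (nat_lit 3) (.nd (nat_lit 4) (.nd (nat_lit 5) (.nd (nat_lit 6) 
(.lf (nat_lit 139140) (.g (nat_lit 3405) (.e (nat_lit 24638) (nat_lit 9) (.e (nat_lit 335986) (nat_lit 1) (.e (nat_lit 57655) (nat_lit 152) (.e (nat_lit 1217) (nat_lit 90) (.e (nat_lit 81965) (nat_lit 26) (.e (nat_lit 147494) (nat_lit 11) .nil)))))) (.g (nat_lit 0) .nil .nil))) 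
(.lf (nat_lit 139204) (.g (nat_lit 1690) (.e (nat_lit 24638) (nat_lit 9) (.e (nat_lit 336021) (nat_lit 3) (.e (nat_lit 98357) (nat_lit 26) (.e (nat_lit 426446) (nat_lit 20) (.e (nat_lit 114716) (nat_lit 22) (.e (nat_lit 90159) (nat_lit 11) .nil)))))) (.g (nat_lit 4) .nil .nil)))) (.nd (nat_lit 6) 
(.lf (nat_lit 139172) (.g (nat_lit 3552) (.e (nat_lit 24638) (nat_lit 9) (.e (nat_lit 335995) (nat_lit 1) (.e (nat_lit 57681) (nat_lit 155) (.e (nat_lit 122919) (nat_lit 15) (.e (nat_lit 360492) (nat_lit 22) .nil))))) .nil)) 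
(.lf (nat_lit 139236) (.g (nat_lit 2336) (.e (nat_lit 24638) (nat_lit 9) (.e (nat_lit 336387) (nat_lit 27) (.e (nat_lit 426011) (nat_lit 0) (.e (nat_lit 7591) (nat_lit 407) (.e (nat_lit 73776) (nat_lit 26) (.e (nat_lit 778466) (nat_lit 11) .nil)))))) (.g (nat_lit 4) .nil .nil))))) (.nd (nat_lit 5) (.nd (nat_lit 6) 
(.lf (nat_lit 139156) (.g (nat_lit 1943) (.e (nat_lit 24638) (nat_lit 9) (.e (nat_lit 335986) (nat_lit 1) (.e (nat_lit 57684) (nat_lit 155) (.e (nat_lit 122919) (nat_lit 15) (.e (nat_lit 360492) (nat_lit 22) (.e (nat_lit 778463) (nat_lit 11) .nil)))))) (.g (nat_lit 5) .nil .nil))) 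
(.lf (nat_lit 139220) (.g (nat_lit 2680) (.e (nat_lit 24638) (nat_lit 9) (.e (nat_lit 336027) (nat_lit 3) (.e (nat_lit 98356) (nat_lit 26) (.e (nat_lit 426448) (nat_lit 20) (.e (nat_lit 114714) (nat_lit 22) .nil))))) .nil))) (.nd (nat_lit 6) 
(.lf (nat_lit 139188) (.g (nat_lit 3234) (.e (nat_lit 24638) (nat_lit 9) (.e (nat_lit 336004) (nat_lit 2) (.e (nat_lit 90160) (nat_lit 11) (.e (nat_lit 24584) (nat_lit 0) (.e (nat_lit 1996) (nat_lit 137) (.e (nat_lit 663565) (nat_lit 3) (.e (nat_lit 65280) (nat_lit 203) .nil))))))) (.g (nat_lit 6) .nil .nil))) 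
(.lf (nat_lit 139252) (.g (nat_lit 1164) (.e (nat_lit 32512) (nat_lit 9) (.e (nat_lit 336051) (nat_lit 6) (.e (nat_lit 147466) (nat_lit 9) (.e (nat_lit 321) (nat_lit 24) (.e (nat_lit 360492) (nat_lit 22) .nil))))) .nil))))) (.nd (nat_lit 4) (.nd (nat_lit 5) (.nd (nat_lit 6) 
(.lf (nat_lit 139148) (.g (nat_lit 2898) (.e (nat_lit 24638) (nat_lit 9) (.e (nat_lit 335986) (nat_lit 1) (.e (nat_lit 57684) (nat_lit 155) (.e (nat_lit 122914) (nat_lit 14) (.e (nat_lit 352324) (nat_lit 26) (.e (nat_lit 147494) (nat_lit 11) .nil)))))) (.g (nat_lit 6) .nil .nil))) 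
(.lf (nat_lit 139212) (.g (nat_lit 2499) (.e (nat_lit 24638) (nat_lit 9) (.e (nat_lit 336021) (nat_lit 3) (.e (nat_lit 98385) (nat_lit 32) (.e (nat_lit 475212) (nat_lit 42) (.e (nat_lit 720941) (nat_lit 22) (.e (nat_lit 90159) (nat_lit 11) .nil)))))) (.g (nat_lit 6) .nil .nil)))) (.nd (nat_lit 6) 
(.lf (nat_lit 139180) (.g (nat_lit 2643) (.e (nat_lit 24638) (nat_lit 9) (.e (nat_lit 335996) (nat_lit 1) (.e (nat_lit 57680) (nat_lit 155) (.e (nat_lit 122916) (nat_lit 14) (.e (nat_lit 352324) (nat_lit 26) (.e (nat_lit 147494) (nat_lit 11) .nil)))))) (.g (nat_lit 4) .nil .nil))) 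
(.lf (nat_lit 139244) (.g (nat_lit 682) (.e (nat_lit 32512) (nat_lit 9) (.e (nat_lit 336027) (nat_lit 3) (.e (nat_lit 98355) (nat_lit 26) .nil))) .nil)))) (.nd (nat_lit 5) (.nd (nat_lit 6) 
(.lf (nat_lit 139164) (.g (nat_lit 2525) (.e (nat_lit 24638) (nat_lit 9) (.e (nat_lit 335988) (nat_lit 1) (.e (nat_lit 65280) (nat_lit 154) (.e (nat_lit 57424) (nat_lit 14) (.e (nat_lit 352324) (nat_lit 26) (.e (nat_lit 147494) (nat_lit 11) .nil)))))) (.g (nat_lit 5) .nil .nil))) 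
(.lf (nat_lit 139228) (.g (nat_lit 3280) (.e (nat_lit 24638) (nat_lit 9) (.e (nat_lit 336027) (nat_lit 3) (.e (nat_lit 98384) (nat_lit 32) (.e (nat_lit 475214) (nat_lit 42) (.e (nat_lit 720938) (nat_lit 22) (.e (nat_lit 90160) (nat_lit 11) .nil)))))) (.g (nat_lit 4) .nil .nil)))) (.nd (nat_lit 6) 
(.lf (nat_lit 139196) (.g (nat_lit 2886) (.e (nat_lit 24638) (nat_lit 9) (.e (nat_lit 336012) (nat_lit 2) (.e (nat_lit 90160) (nat_lit 11) (.e (nat_lit 24584) (nat_lit 0) (.e (nat_lit 1994) (nat_lit 137) (.e (nat_lit 663565) (nat_lit 3) (.e (nat_lit 65280) (nat_lit 203) .nil))))))) (.g (nat_lit 4) .nil .nil))) 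
(.lf (nat_lit 139260) (.g (nat_lit 1955) (.e (nat_lit 32512) (nat_lit 9) (.e (nat_lit 336454) (nat_lit 34) (.e (nat_lit 483365) (nat_lit 18) (.e (nat_lit 57853) (nat_lit 252) .nil)))) .nil))))))) (.nd (nat_lit 2) (.nd (nat_lit 3) (.nd (nat_lit 4) (.nd (nat_lit 5) (.nd (nat_lit 6) 
(.lf (nat_lit 139138) (.g (nat_lit 3230) (.e (nat_lit 24638) (nat_lit 9) (.e (nat_lit 335986) (nat_lit 1) (.e (nat_lit 57655) (nat_lit 152) (.e (nat_lit 1216) (nat_lit 90) (.e (nat_lit 81965) (nat_lit 26) (.e (nat_lit 147494) (nat_lit 11) .nil)))))) (.g (nat_lit 0) .nil .nil))) 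
(.lf (nat_lit 139202) (.g (nat_lit 1051) (.e (nat_lit 24638) (nat_lit 9) (.e (nat_lit 336021) (nat_lit 3) (.e (nat_lit 98356) (nat_lit 26) .nil))) .nil))) (.nd (nat_lit 6) 
(.lf (nat_lit 139170) (.g (nat_lit 921) (.e (nat_lit 24638) (nat_lit 9) (.e (nat_lit 335995) (nat_lit 1) (.e (nat_lit 57680) (nat_lit 155) .nil))) .nil)) 
(.lf (nat_lit 139234) (.g (nat_lit 2311) (.e (nat_lit 24638) (nat_lit 9) (.e (nat_lit 336027) (nat_lit 3) (.e (nat_lit 98389) (nat_lit 33) (.e (nat_lit 491558) (nat_lit 10) (.e (nat_lit 344129) (nat_lit 26) (.e (nat_lit 557087) (nat_lit 11) .nil)))))) (.g (nat_lit 4) .nil .nil))))) (.nd (nat_lit 5) (.nd (nat_lit 6) 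
(.lf (nat_lit 139154) (.g (nat_lit 1873) (.e (nat_lit 24638) (nat_lit 9) (.e (nat_lit 335986) (nat_lit 1) (.e (nat_lit 57684) (nat_lit 155) (.e (nat_lit 122917) (nat_lit 15) (.e (nat_lit 360492) (nat_lit 22) (.e (nat_lit 778463) (nat_lit 11) .nil)))))) (.g (nat_lit 5) .nil .nil))) 
(.lf (nat_lit 139218) (.g (nat_lit 886) (.e (nat_lit 24638) (nat_lit 9) (.e (nat_lit 336027) (nat_lit 3) (.e (nat_lit 98319) (nat_lit 17) .nil))) .nil))) (.nd (nat_lit 6) 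
(.lf (nat_lit 139186) (.g (nat_lit 1770) (.e (nat_lit 24638) (nat_lit 9) (.e (nat_lit 336004) (nat_lit 2) (.e (nat_lit 90158) (nat_lit 11) (.e (nat_lit 24584) (nat_lit 0) .nil)))) .nil)) 
(.lf (nat_lit 139250) (.g (nat_lit 2169) (.e (nat_lit 32512) (nat_lit 9) (.e (nat_lit 336051) (nat_lit 6) (.e (nat_lit 147466) (nat_lit 9) (.e (nat_lit 314) (nat_lit 23) (.e (nat_lit 352322) (nat_lit 26) .nil))))) .nil))))) (.nd (nat_lit 4) (.nd (nat_lit 5) (.nd (nat_lit 6) 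
(.lf (nat_lit 139146) (.g (nat_lit 2133) (.e (nat_lit 24638) (nat_lit 9) (.e (nat_lit 335986) (nat_lit 1) (.e (nat_lit 57683) (nat_lit 155) (.e (nat_lit 122916) (nat_lit 14) (.e (nat_lit 352324) (nat_lit 26) (.e (nat_lit 147494) (nat_lit 11) .nil)))))) (.g (nat_lit 4) .nil .nil))) 
(.lf (nat_lit 139210) (.g (nat_lit 2134) (.e (nat_lit 24638) (nat_lit 9) (.e (nat_lit 336021) (nat_lit 3) (.e (nat_lit 98384) (nat_lit 32) (.e (nat_lit 475214) (nat_lit 42) .nil)))) .nil))) (.nd (nat_lit 6) 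
(.lf (nat_lit 139178) (.g (nat_lit 1361) (.e (nat_lit 24638) (nat_lit 9) (.e (nat_lit 335996) (nat_lit 1) (.e (nat_lit 57664) (nat_lit 152) (.e (nat_lit 7936) (nat_lit 90) .nil)))) .nil)) 
(.lf (nat_lit 139242) (.g (nat_lit 1696) (.e (nat_lit 32512) (nat_lit 9) (.e (nat_lit 336013) (nat_lit 2) (.e (nat_lit 90165) (nat_lit 12) (.e (nat_lit 171776) (nat_lit 192) .nil)))) .nil)))) (.nd (nat_lit 5) (.nd (nat_lit 6) 
(.lf (nat_lit 139162) (.g (nat_lit 1009) (.e (nat_lit 24638) (nat_lit 9) (.e (nat_lit 335988) (nat_lit 1) (.e (nat_lit 57665) (nat_lit 152) (.e (nat_lit 7936) (nat_lit 90) .nil)))) .nil)) 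
(.lf (nat_lit 139226) (.g (nat_lit 1573) (.e (nat_lit 24638) (nat_lit 9) (.e (nat_lit 336027) (nat_lit 3) (.e (nat_lit 98384) (nat_lit 32) (.e (nat_lit 475214) (nat_lit 42) .nil)))) .nil))) (.nd (nat_lit 6) 
(.lf (nat_lit 139194) (.g (nat_lit 591) (.e (nat_lit 24638) (nat_lit 9) (.e (nat_lit 336004) (nat_lit 2) (.e (nat_lit 90184) (nat_lit 17) .nil))) .nil)) 
(.lf (nat_lit 139258) (.g (nat_lit 2214) (.e (nat_lit 32512) (nat_lit 9) (.e (nat_lit 336454) (nat_lit 34) (.e (nat_lit 483365) (nat_lit 18) (.e (nat_lit 57846) (nat_lit 252) .nil)))) .nil)))))) (.nd (nat_lit 3) (.nd (nat_lit 4) (.nd (nat_lit 5) (.nd (nat_lit 6) 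
(.lf (nat_lit 139142) (.g (nat_lit 529) (.e (nat_lit 24638) (nat_lit 9) (.e (nat_lit 335986) (nat_lit 1) (.e (nat_lit 57664) (nat_lit 152) .nil))) .nil)) 
(.lf (nat_lit 139206) (.g (nat_lit 2814) (.e (nat_lit 24638) (nat_lit 9) (.e (nat_lit 336021) (nat_lit 3) (.e (nat_lit 98357) (nat_lit 26) (.e (nat_lit 426448) (nat_lit 20) (.e (nat_lit 114714) (nat_lit 22) (.e (nat_lit 90159) (nat_lit 11) .nil)))))) (.g (nat_lit 6) .nil .nil)))) (.nd (nat_lit 6) 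
(.lf (nat_lit 139174) (.g (nat_lit 1339) (.e (nat_lit 24638) (nat_lit 9) (.e (nat_lit 335995) (nat_lit 1) (.e (nat_lit 57683) (nat_lit 155) (.e (nat_lit 122916) (nat_lit 14) .nil)))) .nil)) 
(.lf (nat_lit 139238) (.g (nat_lit 2364) (.e (nat_lit 24638) (nat_lit 9) (.e (nat_lit 336387) (nat_lit 27) (.e (nat_lit 426500) (nat_lit 27) (.e (nat_lit 335996) (nat_lit 1) (.e (nat_lit 57854) (nat_lit 252) (.e (nat_lit 57371) (nat_lit 2) (.e (nat_lit 90160) (nat_lit 11) .nil))))))) (.g (nat_lit 5) .nil .nil))))) (.nd (nat_lit 5) (.nd (nat_lit 6) 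
(.lf (nat_lit 139158) (.g (nat_lit 813) (.e (nat_lit 24638) (nat_lit 9) (.e (nat_lit 335988) (nat_lit 1) (.e (nat_lit 57643) (nat_lit 140) .nil))) .nil)) 
(.lf (nat_lit 139222) (.g (nat_lit 2766) (.e (nat_lit 24638) (nat_lit 9) (.e (nat_lit 336027) (nat_lit 3) (.e (nat_lit 98356) (nat_lit 26) (.e (nat_lit 426448) (nat_lit 20) (.e (nat_lit 114716) (nat_lit 22) (.e (nat_lit 90160) (nat_lit 11) .nil)))))) (.g (nat_lit 4) .nil .nil)))) (.nd (nat_lit 6) 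
(.lf (nat_lit 139190) (.g (nat_lit 2304) (.e (nat_lit 24638) (nat_lit 9) (.e (nat_lit 336004) (nat_lit 2) (.e (nat_lit 90172) (nat_lit 14) (.e (nat_lit 180225) (nat_lit 0) (.e (nat_lit 5537) (nat_lit 306) .nil))))) .nil)) 
(.lf (nat_lit 139254) (.g (nat_lit 1851) (.e (nat_lit 32512) (nat_lit 9) (.e (nat_lit 336454) (nat_lit 34) (.e (nat_lit 483363) (nat_lit 18) (.e (nat_lit 57854) (nat_lit 252) .nil)))) .nil))))) (.nd (nat_lit 4) (.nd (nat_lit 5) (.nd (nat_lit 6) 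
(.lf (nat_lit 139150) (.g (nat_lit 2769) (.e (nat_lit 24638) (nat_lit 9) (.e (nat_lit 335986) (nat_lit 1) (.e (nat_lit 57684) (nat_lit 155) (.e (nat_lit 122916) (nat_lit 14) (.e (nat_lit 352322) (nat_lit 26) (.e (nat_lit 147494) (nat_lit 11) .nil)))))) (.g (nat_lit 6) .nil .nil))) 
(.lf (nat_lit 139214) (.g (nat_lit 3624) (.e (nat_lit 24638) (nat_lit 9) (.e (nat_lit 336021) (nat_lit 3) (.e (nat_lit 98388) (nat_lit 33) (.e (nat_lit 491560) (nat_lit 10) (.e (nat_lit 344129) (nat_lit 26) (.e (nat_lit 557087) (nat_lit 11) .nil)))))) (.g (nat_lit 5) .nil .nil)))) (.nd (nat_lit 6) 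
(.lf (nat_lit 139182) (.g (nat_lit 2140) (.e (nat_lit 24638) (nat_lit 9) (.e (nat_lit 335996) (nat_lit 1) (.e (nat_lit 57680) (nat_lit 155) (.e (nat_lit 122919) (nat_lit 15) (.e (nat_lit 360492) (nat_lit 22) .nil))))) .nil)) 
(.lf (nat_lit 139246) (.g (nat_lit 651) (.e (nat_lit 32512) (nat_lit 9) (.e (nat_lit 336027) (nat_lit 3) (.e (nat_lit 98384) (nat_lit 32) .nil))) .nil)))) (.nd (nat_lit 5) (.nd (nat_lit 6) 
(.lf (nat_lit 139166) (.g (nat_lit 2194) (.e (nat_lit 24638) (nat_lit 9) (.e (nat_lit 335988) (nat_lit 1) (.e (nat_lit 57680) (nat_lit 155) (.e (nat_lit 122919) (nat_lit 15) (.e (nat_lit 360491) (nat_lit 22) (.e (nat_lit 778466) (nat_lit 11) .nil)))))) (.g (nat_lit 4) .nil .nil))) 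
(.lf (nat_lit 139230) (.g (nat_lit 3214) (.e (nat_lit 24638) (nat_lit 9) (.e (nat_lit 336027) (nat_lit 3) (.e (nat_lit 98384) (nat_lit 32) (.e (nat_lit 475214) (nat_lit 42) (.e (nat_lit 720941) (nat_lit 22) .nil))))) .nil))) (.nd (nat_lit 6) 
(.lf (nat_lit 139198) (.g (nat_lit 431) (.e (nat_lit 24638) (nat_lit 9) (.e (nat_lit 336012) (nat_lit 2) (.e (nat_lit 90174) (nat_lit 14) .nil))) .nil)) 
(.lf (nat_lit 139262) (.g (nat_lit 1867) (.e (nat_lit 32512) (nat_lit 9) (.e (nat_lit 336456) (nat_lit 34) (.e (nat_lit 483365) (nat_lit 18) (.e (nat_lit 57854) (nat_lit 252) (.e (nat_lit 57371) (nat_lit 2) .nil))))) .nil)))))))) (.nd (nat_lit 1) (.nd (nat_lit 2) (.nd (nat_lit 3) (.nd (nat_lit 4) (.nd (nat_lit 5) (.nd (nat_lit 6) 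
(.lf (nat_lit 139137) (.g (nat_lit 2820) (.e (nat_lit 24638) (nat_lit 9) (.e (nat_lit 335986) (nat_lit 1) (.e (nat_lit 57655) (nat_lit 152) (.e (nat_lit 1216) (nat_lit 90) (.e (nat_lit 81965) (nat_lit 26) (.e (nat_lit 147493) (nat_lit 11) .nil)))))) (.g (nat_lit 5) .nil .nil))) 
(.lf (nat_lit 139201) (.g (nat_lit 1041) (.e (nat_lit 24638) (nat_lit 9) (.e (nat_lit 336021) (nat_lit 3) (.e (nat_lit 98355) (nat_lit 26) .nil))) .nil))) (.nd (nat_lit 6) 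
(.lf (nat_lit 139169) (.g (nat_lit 702) (.e (nat_lit 24638) (nat_lit 9) (.e (nat_lit 335988) (nat_lit 1) (.e (nat_lit 57854) (nat_lit 252) .nil))) .nil)) 
(.lf (nat_lit 139233) (.g (nat_lit 1295) (.e (nat_lit 24638) (nat_lit 9) (.e (nat_lit 336027) (nat_lit 3) (.e (nat_lit 98385) (nat_lit 32) (.e (nat_lit 475214) (nat_lit 42) .nil)))) .nil)))) (.nd (nat_lit 5) (.nd (nat_lit 6) 
(.lf (nat_lit 139153) (.g (nat_lit 3081) (.e (nat_lit 24638) (nat_lit 9) (.e (nat_lit 335986) (nat_lit 1) (.e (nat_lit 57684) (nat_lit 155) (.e (nat_lit 122916) (nat_lit 14) (.e (nat_lit 352324) (nat_lit 26) (.e (nat_lit 147494) (nat_lit 11) .nil)))))) (.g (nat_lit 0) .nil .nil))) 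
(.lf (nat_lit 139217) (.g (nat_lit 2294) (.e (nat_lit 24638) (nat_lit 9) (.e (nat_lit 336021) (nat_lit 3) (.e (nat_lit 98389) (nat_lit 33) (.e (nat_lit 491560) (nat_lit 10) (.e (nat_lit 344131) (nat_lit 26) (.e (nat_lit 557086) (nat_lit 11) .nil)))))) (.g (nat_lit 4) .nil .nil)))) (.nd (nat_lit 6) 
(.lf (nat_lit 139185) (.g (nat_lit 2805) (.e (nat_lit 24638) (nat_lit 9) (.e (nat_lit 336003) (nat_lit 2) (.e (nat_lit 90160) (nat_lit 11) (.e (nat_lit 24584) (nat_lit 0) (.e (nat_lit 1994) (nat_lit 137) (.e (nat_lit 663565) (nat_lit 3) (.e (nat_lit 65280) (nat_lit 203) .nil))))))) (.g (nat_lit 6) .nil .nil))) 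
(.lf (nat_lit 139249) (.g (nat_lit 1191) (.e (nat_lit 32512) (nat_lit 9) (.e (nat_lit 336027) (nat_lit 3) (.e (nat_lit 98389) (nat_lit 33) (.e (nat_lit 491558) (nat_lit 10) .nil)))) .nil))))) (.nd (nat_lit 4) (.nd (nat_lit 5) (.nd (nat_lit 6) 
(.lf (nat_lit 139145) (.g (nat_lit 521) (.e (nat_lit 24638) (nat_lit 9) (.e (nat_lit 335986) (nat_lit 1) (.e (nat_lit 57683) (nat_lit 155) .nil))) .nil)) 
(.lf (nat_lit 139209) (.g (nat_lit 1050) (.e (nat_lit 24638) (nat_lit 9) (.e (nat_lit 336021) (nat_lit 3) (.e (nat_lit 98365) (nat_lit 26) .nil))) .nil))) (.nd (nat_lit 6) 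
(.lf (nat_lit 139177) (.g (nat_lit 1031) (.e (nat_lit 24638) (nat_lit 9) (.e (nat_lit 335996) (nat_lit 1) (.e (nat_lit 57663) (nat_lit 152) .nil))) .nil)) 
(.lf (nat_lit 139241) (.g (nat_lit 727) (.e (nat_lit 32512) (nat_lit 9) (.e (nat_lit 336012) (nat_lit 2) (.e (nat_lit 90181) (nat_lit 16) .nil))) .nil)))) (.nd (nat_lit 5) (.nd (nat_lit 6) 
(.lf (nat_lit 139161) (.g (nat_lit 532) (.e (nat_lit 24638) (nat_lit 9) (.e (nat_lit 335988) (nat_lit 1) (.e (nat_lit 57665) (nat_lit 152) .nil))) .nil)) 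
(.lf (nat_lit 139225) (.g (nat_lit 1741) (.e (nat_lit 24638) (nat_lit 9) (.e (nat_lit 336027) (nat_lit 3) (.e (nat_lit 98384) (nat_lit 32) (.e (nat_lit 475212) (nat_lit 42) .nil)))) .nil))) (.nd (nat_lit 6) 
(.lf (nat_lit 139193) (.g (nat_lit 2681) (.e (nat_lit 24638) (nat_lit 9) (.e (nat_lit 336004) (nat_lit 2) (.e (nat_lit 90174) (nat_lit 14) (.e (nat_lit 180225) (nat_lit 0) (.e (nat_lit 5537) (nat_lit 306) .nil))))) .nil)) 
(.lf (nat_lit 139257) (.g (nat_lit 3906) (.e (nat_lit 32512) (nat_lit 9) (.e (nat_lit 336454) (nat_lit 34) (.e (nat_lit 483365) (nat_lit 18) (.e (nat_lit 57844) (nat_lit 252) .nil)))) .nil)))))) (.nd (nat_lit 3) (.nd (nat_lit 4) (.nd (nat_lit 5) (.nd (nat_lit 6) 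
(.lf (nat_lit 139141) (.g (nat_lit 517) (.e (nat_lit 24638) (nat_lit 9) (.e (nat_lit 335986) (nat_lit 1) (.e (nat_lit 57660) (nat_lit 152) .nil))) .nil)) 
(.lf (nat_lit 139205) (.g (nat_lit 2849) (.e (nat_lit 24638) (nat_lit 9) (.e (nat_lit 336021) (nat_lit 3) (.e (nat_lit 98357) (nat_lit 26) (.e (nat_lit 426448) (nat_lit 20) (.e (nat_lit 114714) (nat_lit 22) (.e (nat_lit 90157) (nat_lit 11) .nil)))))) (.g (nat_lit 6) .nil .nil)))) (.nd (nat_lit 6) 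
(.lf (nat_lit 139173) (.g (nat_lit 732) (.e (nat_lit 24638) (nat_lit 9) (.e (nat_lit 335995) (nat_lit 1) (.e (nat_lit 57683) (nat_lit 155) .nil))) .nil)) 
(.lf (nat_lit 139237) (.g (nat_lit 2177) (.e (nat_lit 24638) (nat_lit 9) (.e (nat_lit 336387) (nat_lit 27) (.e (nat_lit 426500) (nat_lit 27) (.e (nat_lit 335995) (nat_lit 1) (.e (nat_lit 57847) (nat_lit 252) (.e (nat_lit 57375) (nat_lit 2) (.e (nat_lit 90160) (nat_lit 11) .nil))))))) (.g (nat_lit 5) .nil .nil))))) (.nd (nat_lit 5) (.nd (nat_lit 6) 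
(.lf (nat_lit 139157) (.g (nat_lit 2561) (.e (nat_lit 24638) (nat_lit 9) (.e (nat_lit 335986) (nat_lit 1) (.e (nat_lit 57684) (nat_lit 155) (.e (nat_lit 122919) (nat_lit 15) (.e (nat_lit 360492) (nat_lit 22) (.e (nat_lit 778465) (nat_lit 11) .nil)))))) (.g (nat_lit 6) .nil .nil))) 
(.lf (nat_lit 139221) (.g (nat_lit 3096) (.e (nat_lit 24638) (nat_lit 9) (.e (nat_lit 336027) (nat_lit 3) (.e (nat_lit 98356) (nat_lit 26) (.e (nat_lit 426448) (nat_lit 20) (.e (nat_lit 114714) (nat_lit 22) (.e (nat_lit 90160) (nat_lit 11) .nil)))))) (.g (nat_lit 4) .nil .nil)))) (.nd (nat_lit 6) 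
(.lf (nat_lit 139189) (.g (nat_lit 2166) (.e (nat_lit 24638) (nat_lit 9) (.e (nat_lit 336004) (nat_lit 2) (.e (nat_lit 90160) (nat_lit 11) (.e (nat_lit 24584) (nat_lit 0) (.e (nat_lit 1998) (nat_lit 137) .nil))))) .nil)) 
(.lf (nat_lit 139253) (.g (nat_lit 829) (.e (nat_lit 32512) (nat_lit 9) (.e (nat_lit 336051) (nat_lit 6) (.e (nat_lit 147466) (nat_lit 9) (.e (nat_lit 324) (nat_lit 24) .nil)))) .nil))))) (.nd (nat_lit 4) (.nd (nat_lit 5) (.nd (nat_lit 6) 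
(.lf (nat_lit 139149) (.g (nat_lit 1945) (.e (nat_lit 24638) (nat_lit 9) (.e (nat_lit 335986) (nat_lit 1) (.e (nat_lit 57684) (nat_lit 155) (.e (nat_lit 122914) (nat_lit 14) (.e (nat_lit 352324) (nat_lit 26) (.e (nat_lit 147496) (nat_lit 11) .nil)))))) (.g (nat_lit 4) .nil .nil))) 
(.lf (nat_lit 139213) (.g (nat_lit 2351) (.e (nat_lit 24638) (nat_lit 9) (.e (nat_lit 336021) (nat_lit 3) (.e (nat_lit 98385) (nat_lit 32) (.e (nat_lit 475214) (nat_lit 42) (.e (nat_lit 720938) (nat_lit 22) (.e (nat_lit 90159) (nat_lit 11) .nil)))))) (.g (nat_lit 5) .nil .nil)))) (.nd (nat_lit 6) 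
(.lf (nat_lit 139181) (.g (nat_lit 2473) (.e (nat_lit 24638) (nat_lit 9) (.e (nat_lit 335996) (nat_lit 1) (.e (nat_lit 57680) (nat_lit 155) (.e (nat_lit 122919) (nat_lit 15) (.e (nat_lit 360491) (nat_lit 22) (.e (nat_lit 778466) (nat_lit 11) .nil)))))) (.g (nat_lit 4) .nil .nil))) 
(.lf (nat_lit 139245) (.g (nat_lit 503) (.e (nat_lit 32512) (nat_lit 9) (.e (nat_lit 336027) (nat_lit 3) (.e (nat_lit 98363) (nat_lit 26) .nil))) .nil)))) (.nd (nat_lit 5) (.nd (nat_lit 6) 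
(.lf (nat_lit 139165) (.g (nat_lit 2496) (.e (nat_lit 24638) (nat_lit 9) (.e (nat_lit 335988) (nat_lit 1) (.e (nat_lit 57680) (nat_lit 155) (.e (nat_lit 122916) (nat_lit 14) (.e (nat_lit 352324) (nat_lit 26) (.e (nat_lit 147494) (nat_lit 11) .nil)))))) (.g (nat_lit 4) .nil .nil))) 
(.lf (nat_lit 139229) (.g (nat_lit 3437) (.e (nat_lit 24638) (nat_lit 9) (.e (nat_lit 336027) (nat_lit 3) (.e (nat_lit 98384) (nat_lit 32) (.e (nat_lit 475214) (nat_lit 42) (.e (nat_lit 720939) (nat_lit 22) (.e (nat_lit 90160) (nat_lit 11) .nil)))))) (.g (nat_lit 4) .nil .nil)))) (.nd (nat_lit 6) 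
(.lf (nat_lit 139197) (.g (nat_lit 2628) (.e (nat_lit 24638) (nat_lit 9) (.e (nat_lit 336012) (nat_lit 2) (.e (nat_lit 90160) (nat_lit 11) (.e (nat_lit 24584) (nat_lit 0) (.e (nat_lit 1996) (nat_lit 137) (.e (nat_lit 663565) (nat_lit 3) (.e (nat_lit 65280) (nat_lit 203) .nil))))))) (.g (nat_lit 4) .nil .nil))) 
(.lf (nat_lit 139261) (.g (nat_lit 727) (.e (nat_lit 32512) (nat_lit 9) (.e (nat_lit 336456) (nat_lit 34) (.e (nat_lit 483363) (nat_lit 18) .nil))) .nil))))))) (.nd (nat_lit 2) (.nd (nat_lit 3) (.nd (nat_lit 4) (.nd (nat_lit 5) (.nd (nat_lit 6) 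
(.lf (nat_lit 139139) (.g (nat_lit 2955) (.e (nat_lit 24638) (nat_lit 9) (.e (nat_lit 335986) (nat_lit 1) (.e (nat_lit 57655) (nat_lit 152) (.e (nat_lit 1217) (nat_lit 90) (.e (nat_lit 81965) (nat_lit 26) (.e (nat_lit 147493) (nat_lit 11) .nil)))))) (.g (nat_lit 5) .nil .nil))) 
(.lf (nat_lit 139203) (.g (nat_lit 2232) (.e (nat_lit 24638) (nat_lit 9) (.e (nat_lit 336021) (nat_lit 3) (.e (nat_lit 98357) (nat_lit 26) (.e (nat_lit 426446) (nat_lit 20) (.e (nat_lit 114716) (nat_lit 22) (.e (nat_lit 90157) (nat_lit 11) .nil)))))) (.g (nat_lit 6) .nil .nil)))) (.nd (nat_lit 6) 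
(.lf (nat_lit 139171) (.g (nat_lit 1945) (.e (nat_lit 24638) (nat_lit 9) (.e (nat_lit 335995) (nat_lit 1) (.e (nat_lit 57681) (nat_lit 155) (.e (nat_lit 122917) (nat_lit 15) .nil)))) .nil)) 
(.lf (nat_lit 139235) (.g (nat_lit 2307) (.e (nat_lit 24638) (nat_lit 9) (.e (nat_lit 336027) (nat_lit 3) (.e (nat_lit 98389) (nat_lit 33) (.e (nat_lit 491560) (nat_lit 10) (.e (nat_lit 344129) (nat_lit 26) (.e (nat_lit 557087) (nat_lit 11) .nil)))))) (.g (nat_lit 4) .nil .nil))))) (.nd (nat_lit 5) (.nd (nat_lit 6) 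
(.lf (nat_lit 139155) (.g (nat_lit 2574) (.e (nat_lit 24638) (nat_lit 9) (.e (nat_lit 335986) (nat_lit 1) (.e (nat_lit 57684) (nat_lit 155) (.e (nat_lit 122917) (nat_lit 15) (.e (nat_lit 360492) (nat_lit 22) (.e (nat_lit 778465) (nat_lit 11) .nil)))))) (.g (nat_lit 6) .nil .nil))) 
(.lf (nat_lit 139219) (.g (nat_lit 1247) (.e (nat_lit 24638) (nat_lit 9) (.e (nat_lit 336027) (nat_lit 3) (.e (nat_lit 98355) (nat_lit 26) (.e (nat_lit 426446) (nat_lit 20) .nil)))) .nil))) (.nd (nat_lit 6) 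
(.lf (nat_lit 139187) (.g (nat_lit 3602) (.e (nat_lit 24638) (nat_lit 9) (.e (nat_lit 336004) (nat_lit 2) (.e (nat_lit 90160) (nat_lit 11) (.e (nat_lit 24584) (nat_lit 0) (.e (nat_lit 1994) (nat_lit 137) (.e (nat_lit 663565) (nat_lit 3) (.e (nat_lit 65280) (nat_lit 203) .nil))))))) (.g (nat_lit 6) .nil .nil))) 
(.lf (nat_lit 139251) (.g (nat_lit 2151) (.e (nat_lit 32512) (nat_lit 9) (.e (nat_lit 336051) (nat_lit 6) (.e (nat_lit 147466) (nat_lit 9) (.e (nat_lit 314) (nat_lit 23) (.e (nat_lit 352324) (nat_lit 26) .nil))))) .nil))))) (.nd (nat_lit 4) (.nd (nat_lit 5) (.nd (nat_lit 6) 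
(.lf (nat_lit 139147) (.g (nat_lit 357) (.e (nat_lit 24638) (nat_lit 9) (.e (nat_lit 335986) (nat_lit 1) (.e (nat_lit 57684) (nat_lit 155) .nil))) .nil)) 
(.lf (nat_lit 139211) (.g (nat_lit 2605) (.e (nat_lit 24638) (nat_lit 9) (.e (nat_lit 336021) (nat_lit 3) (.e (nat_lit 98385) (nat_lit 32) (.e (nat_lit 475212) (nat_lit 42) (.e (nat_lit 720938) (nat_lit 22) (.e (nat_lit 90159) (nat_lit 11) .nil)))))) (.g (nat_lit 0) .nil .nil)))) (.nd (nat_lit 6) 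
(.lf (nat_lit 139179) (.g (nat_lit 1424) (.e (nat_lit 24638) (nat_lit 9) (.e (nat_lit 335996) (nat_lit 1) (.e (nat_lit 57665) (nat_lit 152) (.e (nat_lit 7936) (nat_lit 90) .nil)))) .nil)) 
(.lf (nat_lit 139243) (.g (nat_lit 998) (.e (nat_lit 32512) (nat_lit 9) (.e (nat_lit 336021) (nat_lit 3) (.e (nat_lit 98320) (nat_lit 17) .nil))) .nil)))) (.nd (nat_lit 5) (.nd (nat_lit 6) 
(.lf (nat_lit 139163) (.g (nat_lit 625) (.e (nat_lit 24638) (nat_lit 9) (.e (nat_lit 335988) (nat_lit 1) (.e (nat_lit 57674) (nat_lit 152) .nil))) .nil)) 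
(.lf (nat_lit 139227) (.g (nat_lit 3239) (.e (nat_lit 24638) (nat_lit 9) (.e (nat_lit 336027) (nat_lit 3) (.e (nat_lit 98384) (nat_lit 32) (.e (nat_lit 475214) (nat_lit 42) (.e (nat_lit 720937) (nat_lit 22) (.e (nat_lit 90160) (nat_lit 11) .nil)))))) (.g (nat_lit 4) .nil .nil)))) (.nd (nat_lit 6) 
(.lf (nat_lit 139195) (.g (nat_lit 2251) (.e (nat_lit 24638) (nat_lit 9) (.e (nat_lit 336011) (nat_lit 2) (.e (nat_lit 90170) (nat_lit 13) (.e (nat_lit 179968) (nat_lit 20) .nil)))) .nil)) 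
(.lf (nat_lit 139259) (.g (nat_lit 2571) (.e (nat_lit 32512) (nat_lit 9) (.e (nat_lit 336454) (nat_lit 34) (.e (nat_lit 483365) (nat_lit 18) (.e (nat_lit 57852) (nat_lit 252) (.e (nat_lit 57371) (nat_lit 2) .nil))))) .nil)))))) (.nd (nat_lit 3) (.nd (nat_lit 4) (.nd (nat_lit 5) (.nd (nat_lit 6) 
(.lf (nat_lit 139143) (.g (nat_lit 528) (.e (nat_lit 24638) (nat_lit 9) (.e (nat_lit 335986) (nat_lit 1) (.e (nat_lit 57665) (nat_lit 152) .nil))) .nil)) 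
(.lf (nat_lit 139207) (.g (nat_lit 1808) (.e (nat_lit 24638) (nat_lit 9) (.e (nat_lit 336021) (nat_lit 3) (.e (nat_lit 98357) (nat_lit 26) (.e (nat_lit 426448) (nat_lit 20) (.e (nat_lit 114716) (nat_lit 22) (.e (nat_lit 90159) (nat_lit 11) .nil)))))) (.g (nat_lit 4) .nil .nil)))) (.nd (nat_lit 6) 
(.lf (nat_lit 139175) (.g (nat_lit 2186) (.e (nat_lit 24638) (nat_lit 9) (.e (nat_lit 335995) (nat_lit 1) (.e (nat_lit 57683) (nat_lit 155) (.e (nat_lit 122916) (nat_lit 14) (.e (nat_lit 352324) (nat_lit 26) (.e (nat_lit 147494) (nat_lit 11) .nil)))))) (.g (nat_lit 4) .nil .nil))) 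
(.lf (nat_lit 139239) (.g (nat_lit 799) (.e (nat_lit 32512) (nat_lit 9) (.e (nat_lit 335988) (nat_lit 1) (.e (nat_lit 57665) (nat_lit 152) .nil))) .nil)))) (.nd (nat_lit 5) (.nd (nat_lit 6) 
(.lf (nat_lit 139159) (.g (nat_lit 817) (.e (nat_lit 24638) (nat_lit 9) (.e (nat_lit 335988) (nat_lit 1) (.e (nat_lit 57651) (nat_lit 152) .nil))) .nil)) 
(.lf (nat_lit 139223) (.g (nat_lit 1123) (.e (nat_lit 24638) (nat_lit 9) (.e (nat_lit 336027) (nat_lit 3) (.e (nat_lit 98357) (nat_lit 26) (.e (nat_lit 426448) (nat_lit 20) .nil)))) .nil))) (.nd (nat_lit 6) 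
(.lf (nat_lit 139191) (.g (nat_lit 1445) (.e (nat_lit 24638) (nat_lit 9) (.e (nat_lit 336004) (nat_lit 2) (.e (nat_lit 90172) (nat_lit 14) (.e (nat_lit 180233) (nat_lit 0) .nil)))) .nil)) 
(.lf (nat_lit 139255) (.g (nat_lit 634) (.e (nat_lit 32512) (nat_lit 9) (.e (nat_lit 336454) (nat_lit 34) (.e (nat_lit 483364) (nat_lit 18) .nil))) .nil))))) (.nd (nat_lit 4) (.nd (nat_lit 5) (.nd (nat_lit 6) 
(.lf (nat_lit 139151) (.g (nat_lit 2073) (.e (nat_lit 24638) (nat_lit 9) (.e (nat_lit 335986) (nat_lit 1) (.e (nat_lit 57684) (nat_lit 155) (.e (nat_lit 122916) (nat_lit 14) (.e (nat_lit 352322) (nat_lit 26) (.e (nat_lit 147495) (nat_lit 11) .nil)))))) (.g (nat_lit 4) .nil .nil))) 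
(.lf (nat_lit 139215) (.g (nat_lit 2670) (.e (nat_lit 24638) (nat_lit 9) (.e (nat_lit 336021) (nat_lit 3) (.e (nat_lit 98388) (nat_lit 33) (.e (nat_lit 491560) (nat_lit 10) (.e (nat_lit 344130) (nat_lit 26) (.e (nat_lit 557087) (nat_lit 11) .nil)))))) (.g (nat_lit 5) .nil .nil)))) (.nd (nat_lit 6) 
(.lf (nat_lit 139183) (.g (nat_lit 2724) (.e (nat_lit 24638) (nat_lit 9) (.e (nat_lit 335996) (nat_lit 1) (.e (nat_lit 57680) (nat_lit 155) (.e (nat_lit 122919) (nat_lit 15) (.e (nat_lit 360492) (nat_lit 22) (.e (nat_lit 778466) (nat_lit 11) .nil)))))) (.g (nat_lit 4) .nil .nil))) 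
(.lf (nat_lit 139247) (.g (nat_lit 1532) (.e (nat_lit 32512) (nat_lit 9) (.e (nat_lit 336027) (nat_lit 3) (.e (nat_lit 98384) (nat_lit 32) (.e (nat_lit 475214) (nat_lit 42) .nil)))) .nil)))) (.nd (nat_lit 5) (.nd (nat_lit 6) 
(.lf (nat_lit 139167) (.g (nat_lit 1985) (.e (nat_lit 24638) (nat_lit 9) (.e (nat_lit 335988) (nat_lit 1) (.e (nat_lit 57680) (nat_lit 155) (.e (nat_lit 122919) (nat_lit 15) (.e (nat_lit 360492) (nat_lit 22) (.e (nat_lit 778465) (nat_lit 11) .nil)))))) (.g (nat_lit 4) .nil .nil))) 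
(.lf (nat_lit 139231) (.g (nat_lit 3613) (.e (nat_lit 24638) (nat_lit 9) (.e (nat_lit 336027) (nat_lit 3) (.e (nat_lit 98384) (nat_lit 32) (.e (nat_lit 475214) (nat_lit 42) (.e (nat_lit 720941) (nat_lit 22) (.e (nat_lit 90160) (nat_lit 11) .nil)))))) (.g (nat_lit 4) .nil .nil)))) (.nd (nat_lit 6) 
(.lf (nat_lit 139199) (.g (nat_lit 2910) (.e (nat_lit 24638) (nat_lit 9) (.e (nat_lit 336021) (nat_lit 3) (.e (nat_lit 98320) (nat_lit 17) (.e (nat_lit 7591) (nat_lit 407) (.e (nat_lit 73755) (nat_lit 8) (.e (nat_lit 557086) (nat_lit 11) .nil)))))) (.g (nat_lit 0) .nil .nil))) 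
(.lf (nat_lit 139263) (.g (nat_lit 1274) (.e (nat_lit 24639) (nat_lit 10) (.e (nat_lit 344088) (nat_lit 18) (.e (nat_lit 7236) (nat_lit 382) (.e (nat_lit 1221) (nat_lit 90) (.e (nat_lit 81965) (nat_lit 26) .nil))))) .nil)))))))))

noncomputable def tv1850 : DT := (.nd (nat_lit 0) (.nd (nat_lit 1) (.nd (nat_lit 2) (.nd (nat_lit 3) (.nd (nat_lit 4) (.nd (nat_lit 5) (.nd (nat_lit 6) 
(.lf (nat_lit 139264) (.g (nat_lit 2224) (.e (nat_lit 24639) (nat_lit 10) (.e (nat_lit 344090) (nat_lit 18) (.e (nat_lit 7122) (nat_lit 382) (.e (nat_lit 1222) (nat_lit 90) (.e (nat_lit 81963) (nat_lit 26) (.e (nat_lit 147496) (nat_lit 11) .nil)))))) (.g (nat_lit 4) .nil .nil))) 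
(.lf (nat_lit 139328) (.g (nat_lit 810) (.e (nat_lit 24639) (nat_lit 10) (.e (nat_lit 344117) (nat_lit 21) (.e (nat_lit 516099) (nat_lit 0) .nil))) .nil))) (.nd (nat_lit 6) 
(.lf (nat_lit 139296) (.g (nat_lit 1826) (.e (nat_lit 24639) (nat_lit 10) (.e (nat_lit 344097) (nat_lit 18) (.e (nat_lit 7270) (nat_lit 385) (.e (nat_lit 122914) (nat_lit 14) .nil)))) .nil)) 
(.lf (nat_lit 139360) (.g (nat_lit 2359) (.e (nat_lit 24639) (nat_lit 10) (.e (nat_lit 344117) (nat_lit 21) (.e (nat_lit 516151) (nat_lit 9) (.e (nat_lit 426407) (nat_lit 15) .nil)))) .nil)))) (.nd (nat_lit 5) (.nd (nat_lit 6) 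
(.lf (nat_lit 139280) (.g (nat_lit 1833) (.e (nat_lit 24639) (nat_lit 10) (.e (nat_lit 344096) (nat_lit 18) (.e (nat_lit 7236) (nat_lit 382) (.e (nat_lit 1221) (nat_lit 90) (.e (nat_lit 81965) (nat_lit 26) (.e (nat_lit 147492) (nat_lit 11) .nil)))))) (.g (nat_lit 4) .nil .nil))) 
(.lf (nat_lit 139344) (.g (nat_lit 3452) (.e (nat_lit 24639) (nat_lit 10) (.e (nat_lit 344117) (nat_lit 21) (.e (nat_lit 516145) (nat_lit 9) (.e (nat_lit 426446) (nat_lit 20) (.e (nat_lit 114716) (nat_lit 22) (.e (nat_lit 90160) (nat_lit 11) .nil)))))) (.g (nat_lit 5) .nil .nil)))) (.nd (nat_lit 6) 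
(.lf (nat_lit 139312) (.g (nat_lit 2312) (.e (nat_lit 24639) (nat_lit 10) (.e (nat_lit 344097) (nat_lit 18) (.e (nat_lit 7272) (nat_lit 385) (.e (nat_lit 122917) (nat_lit 15) (.e (nat_lit 360492) (nat_lit 22) (.e (nat_lit 778466) (nat_lit 11) .nil)))))) (.g (nat_lit 4) .nil .nil))) 
(.lf (nat_lit 139376) (.g (nat_lit 2186) (.e (nat_lit 24639) (nat_lit 10) (.e (nat_lit 344129) (nat_lit 26) (.e (nat_lit 557087) (nat_lit 11) (.e (nat_lit 24640) (nat_lit 10) (.e (nat_lit 344130) (nat_lit 26) .nil))))) .nil))))) (.nd (nat_lit 4) (.nd (nat_lit 5) (.nd (nat_lit 6) 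
(.lf (nat_lit 139272) (.g (nat_lit 1580) (.e (nat_lit 24639) (nat_lit 10) (.e (nat_lit 344090) (nat_lit 18) (.e (nat_lit 7265) (nat_lit 384) (.e (nat_lit 57427) (nat_lit 15) (.e (nat_lit 360491) (nat_lit 22) .nil))))) .nil)) 
(.lf (nat_lit 139336) (.g (nat_lit 2319) (.e (nat_lit 24639) (nat_lit 10) (.e (nat_lit 344117) (nat_lit 21) (.e (nat_lit 516144) (nat_lit 9) (.e (nat_lit 426448) (nat_lit 20) (.e (nat_lit 114714) (nat_lit 22) .nil))))) .nil))) (.nd (nat_lit 6) 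
(.lf (nat_lit 139304) (.g (nat_lit 3381) (.e (nat_lit 24639) (nat_lit 10) (.e (nat_lit 344097) (nat_lit 18) (.e (nat_lit 7270) (nat_lit 385) (.e (nat_lit 122919) (nat_lit 15) (.e (nat_lit 360491) (nat_lit 22) (.e (nat_lit 778464) (nat_lit 11) .nil)))))) (.g (nat_lit 4) .nil .nil))) 
(.lf (nat_lit 139368) (.g (nat_lit 1542) (.e (nat_lit 24639) (nat_lit 10) (.e (nat_lit 344117) (nat_lit 21) (.e (nat_lit 516180) (nat_lit 15) (.e (nat_lit 475214) (nat_lit 42) (.e (nat_lit 720938) (nat_lit 22) (.e (nat_lit 90159) (nat_lit 11) .nil)))))) (.g (nat_lit 4) .nil .nil))))) (.nd (nat_lit 5) (.nd (nat_lit 6) 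
(.lf (nat_lit 139288) (.g (nat_lit 1669) (.e (nat_lit 24639) (nat_lit 10) (.e (nat_lit 344096) (nat_lit 18) (.e (nat_lit 7266) (nat_lit 384) (.e (nat_lit 57427) (nat_lit 15) (.e (nat_lit 360491) (nat_lit 22) .nil))))) .nil)) 
(.lf (nat_lit 139352) (.g (nat_lit 3714) (.e (nat_lit 24639) (nat_lit 10) (.e (nat_lit 344117) (nat_lit 21) (.e (nat_lit 516145) (nat_lit 9) (.e (nat_lit 426448) (nat_lit 20) (.e (nat_lit 114716) (nat_lit 22) (.e (nat_lit 90158) (nat_lit 11) .nil)))))) (.g (nat_lit 4) .nil .nil)))) (.nd (nat_lit 6) 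
(.lf (nat_lit 139320) (.g (nat_lit 2407) (.e (nat_lit 24639) (nat_lit 10) (.e (nat_lit 344097) (nat_lit 18) (.e (nat_lit 7273) (nat_lit 385) (.e (nat_lit 122919) (nat_lit 15) (.e (nat_lit 360492) (nat_lit 22) (.e (nat_lit 778466) (nat_lit 11) .nil)))))) (.g (nat_lit 0) .nil .nil))) 
(.lf (nat_lit 139384) (.g (nat_lit 399) (.e (nat_lit 24639) (nat_lit 10) (.e (nat_lit 344174) (nat_lit 42) (.e (nat_lit 761866) (nat_lit 5) .nil))) .nil)))))) (.nd (nat_lit 3) (.nd (nat_lit 4) (.nd (nat_lit 5) (.nd (nat_lit 6) 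
(.lf (nat_lit 139268) (.g (nat_lit 1542) (.e (nat_lit 24639) (nat_lit 10) (.e (nat_lit 344090) (nat_lit 18) (.e (nat_lit 7265) (nat_lit 384) (.e (nat_lit 57354) (nat_lit 0) (.e (nat_lit 7936) (nat_lit 348) .nil))))) .nil)) 
(.lf (nat_lit 139332) (.g (nat_lit 2458) (.e (nat_lit 24639) (nat_lit 10) (.e (nat_lit 344117) (nat_lit 21) (.e (nat_lit 516143) (nat_lit 9) (.e (nat_lit 426448) (nat_lit 20) (.e (nat_lit 114714) (nat_lit 22) .nil))))) .nil))) (.nd (nat_lit 6) 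
(.lf (nat_lit 139300) (.g (nat_lit 2470) (.e (nat_lit 24639) (nat_lit 10) (.e (nat_lit 344097) (nat_lit 18) (.e (nat_lit 7270) (nat_lit 385) (.e (nat_lit 122916) (nat_lit 14) (.e (nat_lit 352323) (nat_lit 26) .nil))))) .nil)) 
(.lf (nat_lit 139364) (.g (nat_lit 453) (.e (nat_lit 24639) (nat_lit 10) (.e (nat_lit 344117) (nat_lit 21) (.e (nat_lit 516180) (nat_lit 15) .nil))) .nil)))) (.nd (nat_lit 5) (.nd (nat_lit 6) 
(.lf (nat_lit 139284) (.g (nat_lit 1498) (.e (nat_lit 24639) (nat_lit 10) (.e (nat_lit 344096) (nat_lit 18) (.e (nat_lit 7265) (nat_lit 384) (.e (nat_lit 57428) (nat_lit 15) (.e (nat_lit 360492) (nat_lit 22) .nil))))) .nil)) 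
(.lf (nat_lit 139348) (.g (nat_lit 4219) (.e (nat_lit 24639) (nat_lit 10) (.e (nat_lit 344117) (nat_lit 21) (.e (nat_lit 516145) (nat_lit 9) (.e (nat_lit 426448) (nat_lit 20) (.e (nat_lit 114714) (nat_lit 22) (.e (nat_lit 90160) (nat_lit 11) .nil)))))) (.g (nat_lit 5) .nil .nil)))) (.nd (nat_lit 6) 
(.lf (nat_lit 139316) (.g (nat_lit 2343) (.e (nat_lit 24639) (nat_lit 10) (.e (nat_lit 344097) (nat_lit 18) (.e (nat_lit 7273) (nat_lit 385) (.e (nat_lit 122917) (nat_lit 15) (.e (nat_lit 360492) (nat_lit 22) (.e (nat_lit 778466) (nat_lit 11) .nil)))))) (.g (nat_lit 0) .nil .nil))) 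
(.lf (nat_lit 139380) (.g (nat_lit 1523) (.e (nat_lit 24639) (nat_lit 10) (.e (nat_lit 344130) (nat_lit 26) (.e (nat_lit 557087) (nat_lit 11) (.e (nat_lit 24641) (nat_lit 10) .nil)))) .nil))))) (.nd (nat_lit 4) (.nd (nat_lit 5) (.nd (nat_lit 6) 
(.lf (nat_lit 139276) (.g (nat_lit 1530) (.e (nat_lit 24639) (nat_lit 10) (.e (nat_lit 344095) (nat_lit 18) (.e (nat_lit 7122) (nat_lit 382) (.e (nat_lit 1224) (nat_lit 90) (.e (nat_lit 81963) (nat_lit 26) .nil))))) .nil)) 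
(.lf (nat_lit 139340) (.g (nat_lit 2354) (.e (nat_lit 24639) (nat_lit 10) (.e (nat_lit 344117) (nat_lit 21) (.e (nat_lit 516145) (nat_lit 9) (.e (nat_lit 426440) (nat_lit 19) .nil)))) .nil))) (.nd (nat_lit 6) 
(.lf (nat_lit 139308) (.g (nat_lit 556) (.e (nat_lit 24639) (nat_lit 10) (.e (nat_lit 344097) (nat_lit 18) (.e (nat_lit 7271) (nat_lit 385) .nil))) .nil)) 
(.lf (nat_lit 139372) (.g (nat_lit 1759) (.e (nat_lit 24639) (nat_lit 10) (.e (nat_lit 344117) (nat_lit 21) (.e (nat_lit 524032) (nat_lit 33) (.e (nat_lit 401454) (nat_lit 12) (.e (nat_lit 483072) (nat_lit 2) .nil))))) (.g (nat_lit 4) .nil .nil))))) (.nd (nat_lit 5) (.nd (nat_lit 6) 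
(.lf (nat_lit 139292) (.g (nat_lit 2725) (.e (nat_lit 24639) (nat_lit 10) (.e (nat_lit 344097) (nat_lit 18) (.e (nat_lit 7147) (nat_lit 382) (.e (nat_lit 1216) (nat_lit 90) (.e (nat_lit 81965) (nat_lit 26) (.e (nat_lit 147495) (nat_lit 11) .nil)))))) (.g (nat_lit 0) .nil .nil))) 
(.lf (nat_lit 139356) (.g (nat_lit 3373) (.e (nat_lit 24639) (nat_lit 10) (.e (nat_lit 344117) (nat_lit 21) (.e (nat_lit 516145) (nat_lit 9) (.e (nat_lit 426449) (nat_lit 20) (.e (nat_lit 114716) (nat_lit 22) (.e (nat_lit 90160) (nat_lit 11) .nil)))))) (.g (nat_lit 5) .nil .nil)))) (.nd (nat_lit 6) 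
(.lf (nat_lit 139324) (.g (nat_lit 499) (.e (nat_lit 24639) (nat_lit 10) (.e (nat_lit 344107) (nat_lit 19) (.e (nat_lit 499825) (nat_lit 5) .nil))) .nil)) 
(.lf (nat_lit 139388) (.g (nat_lit 1651) (.e (nat_lit 24639) (nat_lit 10) (.e (nat_lit 344177) (nat_lit 43) (.e (nat_lit 770058) (nat_lit 5) (.e (nat_lit 1586) (nat_lit 111) (.e (nat_lit 360491) (nat_lit 22) (.e (nat_lit 778464) (nat_lit 11) .nil)))))) (.g (nat_lit 4) .nil .nil)))))))) (.nd (nat_lit 2) (.nd (nat_lit 3) (.nd (nat_lit 4) (.nd (nat_lit 5) (.nd (nat_lit 6) 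
(.lf (nat_lit 139266) (.g (nat_lit 1168) (.e (nat_lit 24639) (nat_lit 10) (.e (nat_lit 344090) (nat_lit 18) (.e (nat_lit 7261) (nat_lit 384) (.e (nat_lit 57347) (nat_lit 0) (.e (nat_lit 7936) (nat_lit 348) .nil))))) .nil)) 
(.lf (nat_lit 139330) (.g (nat_lit 750) (.e (nat_lit 24639) (nat_lit 10) (.e (nat_lit 344117) (nat_lit 21) (.e (nat_lit 516143) (nat_lit 9) .nil))) .nil))) (.nd (nat_lit 6) 
(.lf (nat_lit 139298) (.g (nat_lit 1976) (.e (nat_lit 24639) (nat_lit 10) (.e (nat_lit 344097) (nat_lit 18) (.e (nat_lit 7270) (nat_lit 385) (.e (nat_lit 122915) (nat_lit 14) .nil)))) .nil)) 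
(.lf (nat_lit 139362) (.g (nat_lit 2491) (.e (nat_lit 24639) (nat_lit 10) (.e (nat_lit 344117) (nat_lit 21) (.e (nat_lit 516179) (nat_lit 15) (.e (nat_lit 475212) (nat_lit 42) .nil)))) .nil)))) (.nd (nat_lit 5) (.nd (nat_lit 6) 
(.lf (nat_lit 139282) (.g (nat_lit 1732) (.e (nat_lit 24639) (nat_lit 10) (.e (nat_lit 344096) (nat_lit 18) (.e (nat_lit 7265) (nat_lit 384) (.e (nat_lit 57354) (nat_lit 0) (.e (nat_lit 7936) (nat_lit 348) .nil))))) .nil)) 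
(.lf (nat_lit 139346) (.g (nat_lit 4154) (.e (nat_lit 24639) (nat_lit 10) (.e (nat_lit 344117) (nat_lit 21) (.e (nat_lit 516145) (nat_lit 9) (.e (nat_lit 426448) (nat_lit 20) (.e (nat_lit 114714) (nat_lit 22) (.e (nat_lit 90158) (nat_lit 11) .nil)))))) (.g (nat_lit 5) .nil .nil)))) (.nd (nat_lit 6) 
(.lf (nat_lit 139314) (.g (nat_lit 2152) (.e (nat_lit 24639) (nat_lit 10) (.e (nat_lit 344097) (nat_lit 18) (.e (nat_lit 7272) (nat_lit 385) (.e (nat_lit 122919) (nat_lit 15) (.e (nat_lit 360491) (nat_lit 22) (.e (nat_lit 778466) (nat_lit 11) .nil)))))) (.g (nat_lit 4) .nil .nil))) 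
(.lf (nat_lit 139378) (.g (nat_lit 3667) (.e (nat_lit 24639) (nat_lit 10) (.e (nat_lit 344129) (nat_lit 26) (.e (nat_lit 557087) (nat_lit 11) (.e (nat_lit 24641) (nat_lit 10) (.e (nat_lit 344130) (nat_lit 26) (.e (nat_lit 557087) (nat_lit 11) .nil)))))) (.g (nat_lit 0) .nil .nil)))))) (.nd (nat_lit 4) (.nd (nat_lit 5) (.nd (nat_lit 6) 
(.lf (nat_lit 139274) (.g (nat_lit 1786) (.e (nat_lit 24639) (nat_lit 10) (.e (nat_lit 344091) (nat_lit 18) (.e (nat_lit 7122) (nat_lit 382) (.e (nat_lit 1222) (nat_lit 90) (.e (nat_lit 81963) (nat_lit 26) .nil))))) .nil)) 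
(.lf (nat_lit 139338) (.g (nat_lit 583) (.e (nat_lit 24639) (nat_lit 10) (.e (nat_lit 344117) (nat_lit 21) (.e (nat_lit 516145) (nat_lit 9) .nil))) .nil))) (.nd (nat_lit 6) 
(.lf (nat_lit 139306) (.g (nat_lit 4199) (.e (nat_lit 24639) (nat_lit 10) (.e (nat_lit 344097) (nat_lit 18) (.e (nat_lit 7270) (nat_lit 385) (.e (nat_lit 122919) (nat_lit 15) (.e (nat_lit 360492) (nat_lit 22) (.e (nat_lit 778466) (nat_lit 11) .nil)))))) (.g (nat_lit 0) .nil .nil))) 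
(.lf (nat_lit 139370) (.g (nat_lit 984) (.e (nat_lit 24639) (nat_lit 10) (.e (nat_lit 344117) (nat_lit 21) (.e (nat_lit 516185) (nat_lit 16) (.e (nat_lit 491560) (nat_lit 10) .nil)))) .nil)))) (.nd (nat_lit 5) (.nd (nat_lit 6) 
(.lf (nat_lit 139290) (.g (nat_lit 571) (.e (nat_lit 24639) (nat_lit 10) (.e (nat_lit 344097) (nat_lit 18) (.e (nat_lit 7145) (nat_lit 382) .nil))) .nil)) 
(.lf (nat_lit 139354) (.g (nat_lit 2123) (.e (nat_lit 24639) (nat_lit 10) (.e (nat_lit 344117) (nat_lit 21) (.e (nat_lit 516145) (nat_lit 9) (.e (nat_lit 426449) (nat_lit 20) .nil)))) .nil))) (.nd (nat_lit 6) 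
(.lf (nat_lit 139322) (.g (nat_lit 1137) (.e (nat_lit 24639) (nat_lit 10) (.e (nat_lit 344100) (nat_lit 18) (.e (nat_lit 7270) (nat_lit 385) (.e (nat_lit 122918) (nat_lit 15) .nil)))) .nil)) 
(.lf (nat_lit 139386) (.g (nat_lit 1153) (.e (nat_lit 24639) (nat_lit 10) (.e (nat_lit 344176) (nat_lit 43) (.e (nat_lit 770074) (nat_lit 10) (.e (nat_lit 81963) (nat_lit 26) .nil)))) .nil)))))) (.nd (nat_lit 3) (.nd (nat_lit 4) (.nd (nat_lit 5) (.nd (nat_lit 6) 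
(.lf (nat_lit 139270) (.g (nat_lit 1994) (.e (nat_lit 24639) (nat_lit 10) (.e (nat_lit 344090) (nat_lit 18) (.e (nat_lit 7265) (nat_lit 384) (.e (nat_lit 57424) (nat_lit 14) (.e (nat_lit 352324) (nat_lit 26) (.e (nat_lit 147494) (nat_lit 11) .nil)))))) (.g (nat_lit 4) .nil .nil))) 
(.lf (nat_lit 139334) (.g (nat_lit 1406) (.e (nat_lit 24639) (nat_lit 10) (.e (nat_lit 344117) (nat_lit 21) (.e (nat_lit 516144) (nat_lit 9) (.e (nat_lit 426446) (nat_lit 20) .nil)))) .nil))) (.nd (nat_lit 6) 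
(.lf (nat_lit 139302) (.g (nat_lit 2428) (.e (nat_lit 24639) (nat_lit 10) (.e (nat_lit 344097) (nat_lit 18) (.e (nat_lit 7270) (nat_lit 385) (.e (nat_lit 122917) (nat_lit 15) (.e (nat_lit 368384) (nat_lit 22) .nil))))) .nil)) 
(.lf (nat_lit 139366) (.g (nat_lit 1542) (.e (nat_lit 24639) (nat_lit 10) (.e (nat_lit 344117) (nat_lit 21) (.e (nat_lit 516180) (nat_lit 15) (.e (nat_lit 475214) (nat_lit 42) (.e (nat_lit 720937) (nat_lit 22) (.e (nat_lit 90159) (nat_lit 11) .nil)))))) (.g (nat_lit 4) .nil .nil))))) (.nd (nat_lit 5) (.nd (nat_lit 6) 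
(.lf (nat_lit 139286) (.g (nat_lit 2569) (.e (nat_lit 24639) (nat_lit 10) (.e (nat_lit 344096) (nat_lit 18) (.e (nat_lit 7266) (nat_lit 384) (.e (nat_lit 57424) (nat_lit 14) (.e (nat_lit 352323) (nat_lit 26) .nil))))) .nil)) 
(.lf (nat_lit 139350) (.g (nat_lit 3837) (.e (nat_lit 24639) (nat_lit 10) (.e (nat_lit 344117) (nat_lit 21) (.e (nat_lit 516145) (nat_lit 9) (.e (nat_lit 426448) (nat_lit 20) (.e (nat_lit 114715) (nat_lit 22) (.e (nat_lit 90160) (nat_lit 11) .nil)))))) (.g (nat_lit 4) .nil .nil)))) (.nd (nat_lit 6) 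
(.lf (nat_lit 139318) (.g (nat_lit 2374) (.e (nat_lit 24639) (nat_lit 10) (.e (nat_lit 344097) (nat_lit 18) (.e (nat_lit 7273) (nat_lit 385) (.e (nat_lit 122919) (nat_lit 15) (.e (nat_lit 360491) (nat_lit 22) (.e (nat_lit 778466) (nat_lit 11) .nil)))))) (.g (nat_lit 0) .nil .nil))) 
(.lf (nat_lit 139382) (.g (nat_lit 588) (.e (nat_lit 24639) (nat_lit 10) (.e (nat_lit 344133) (nat_lit 26) (.e (nat_lit 557068) (nat_lit 9) .nil))) .nil))))) (.nd (nat_lit 4) (.nd (nat_lit 5) (.nd (nat_lit 6) 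
(.lf (nat_lit 139278) (.g (nat_lit 1385) (.e (nat_lit 24639) (nat_lit 10) (.e (nat_lit 344096) (nat_lit 18) (.e (nat_lit 7122) (nat_lit 382) (.e (nat_lit 1223) (nat_lit 90) .nil)))) .nil)) 
(.lf (nat_lit 139342) (.g (nat_lit 3657) (.e (nat_lit 24639) (nat_lit 10) (.e (nat_lit 344117) (nat_lit 21) (.e (nat_lit 516145) (nat_lit 9) (.e (nat_lit 426446) (nat_lit 20) (.e (nat_lit 114714) (nat_lit 22) (.e (nat_lit 90160) (nat_lit 11) .nil)))))) (.g (nat_lit 5) .nil .nil)))) (.nd (nat_lit 6) 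
(.lf (nat_lit 139310) (.g (nat_lit 2137) (.e (nat_lit 24639) (nat_lit 10) (.e (nat_lit 344097) (nat_lit 18) (.e (nat_lit 7271) (nat_lit 385) (.e (nat_lit 122919) (nat_lit 15) (.e (nat_lit 360492) (nat_lit 22) .nil))))) .nil)) 
(.lf (nat_lit 139374) (.g (nat_lit 1884) (.e (nat_lit 24639) (nat_lit 10) (.e (nat_lit 344129) (nat_lit 26) (.e (nat_lit 557067) (nat_lit 9) (.e (nat_lit 7936) (nat_lit 24) .nil)))) .nil)))) (.nd (nat_lit 5) (.nd (nat_lit 6) 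
(.lf (nat_lit 139294) (.g (nat_lit 2825) (.e (nat_lit 24639) (nat_lit 10) (.e (nat_lit 344097) (nat_lit 18) (.e (nat_lit 7147) (nat_lit 382) (.e (nat_lit 1217) (nat_lit 90) (.e (nat_lit 81963) (nat_lit 26) (.e (nat_lit 147495) (nat_lit 11) .nil)))))) (.g (nat_lit 0) .nil .nil))) 
(.lf (nat_lit 139358) (.g (nat_lit 2970) (.e (nat_lit 24639) (nat_lit 10) (.e (nat_lit 344117) (nat_lit 21) (.e (nat_lit 516147) (nat_lit 9) (.e (nat_lit 426448) (nat_lit 20) (.e (nat_lit 114714) (nat_lit 22) (.e (nat_lit 90158) (nat_lit 11) .nil)))))) (.g (nat_lit 6) .nil .nil)))) (.nd (nat_lit 6) 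
(.lf (nat_lit 139326) (.g (nat_lit 1788) (.e (nat_lit 24639) (nat_lit 10) (.e (nat_lit 344117) (nat_lit 21) (.e (nat_lit 516097) (nat_lit 0) (.e (nat_lit 7936) (nat_lit 407) .nil)))) .nil)) 
(.lf (nat_lit 139390) (.g (nat_lit 3004) (.e (nat_lit 24639) (nat_lit 10) (.e (nat_lit 344177) (nat_lit 43) (.e (nat_lit 770074) (nat_lit 10) (.e (nat_lit 81963) (nat_lit 26) (.e (nat_lit 147496) (nat_lit 11) .nil))))) (.g (nat_lit 0) .nil .nil))))))))) (.nd (nat_lit 1) (.nd (nat_lit 2) (.nd (nat_lit 3) (.nd (nat_lit 4) (.nd (nat_lit 5) (.nd (nat_lit 6) 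
(.lf (nat_lit 139265) (.g (nat_lit 3901) (.e (nat_lit 24639) (nat_lit 10) (.e (nat_lit 344090) (nat_lit 18) (.e (nat_lit 7236) (nat_lit 382) (.e (nat_lit 1221) (nat_lit 90) (.e (nat_lit 81965) (nat_lit 26) (.e (nat_lit 147496) (nat_lit 11) .nil)))))) (.g (nat_lit 0) .nil .nil))) 
(.lf (nat_lit 139329) (.g (nat_lit 896) (.e (nat_lit 24639) (nat_lit 10) (.e (nat_lit 344117) (nat_lit 21) (.e (nat_lit 516102) (nat_lit 0) (.e (nat_lit 7936) (nat_lit 407) .nil)))) .nil))) (.nd (nat_lit 6) 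
(.lf (nat_lit 139297) (.g (nat_lit 2432) (.e (nat_lit 24639) (nat_lit 10) (.e (nat_lit 344097) (nat_lit 18) (.e (nat_lit 7270) (nat_lit 385) (.e (nat_lit 122914) (nat_lit 14) (.e (nat_lit 352324) (nat_lit 26) .nil))))) .nil)) 
(.lf (nat_lit 139361) (.g (nat_lit 1378) (.e (nat_lit 24639) (nat_lit 10) (.e (nat_lit 344117) (nat_lit 21) (.e (nat_lit 516151) (nat_lit 9) (.e (nat_lit 433920) (nat_lit 20) .nil)))) .nil)))) (.nd (nat_lit 5) (.nd (nat_lit 6) 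
(.lf (nat_lit 139281) (.g (nat_lit 2176) (.e (nat_lit 24639) (nat_lit 10) (.e (nat_lit 344096) (nat_lit 18) (.e (nat_lit 7265) (nat_lit 384) (.e (nat_lit 57347) (nat_lit 0) (.e (nat_lit 7936) (nat_lit 348) (.e (nat_lit 73775) (nat_lit 26) (.e (nat_lit 778465) (nat_lit 11) .nil))))))) (.g (nat_lit 4) .nil .nil))) 
(.lf (nat_lit 139345) (.g (nat_lit 3537) (.e (nat_lit 24639) (nat_lit 10) (.e (nat_lit 344117) (nat_lit 21) (.e (nat_lit 516145) (nat_lit 9) (.e (nat_lit 426448) (nat_lit 20) (.e (nat_lit 114714) (nat_lit 22) (.e (nat_lit 90157) (nat_lit 11) .nil)))))) (.g (nat_lit 4) .nil .nil)))) (.nd (nat_lit 6) 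
(.lf (nat_lit 139313) (.g (nat_lit 1908) (.e (nat_lit 24639) (nat_lit 10) (.e (nat_lit 344097) (nat_lit 18) (.e (nat_lit 7272) (nat_lit 385) (.e (nat_lit 122919) (nat_lit 15) (.e (nat_lit 360491) (nat_lit 22) .nil))))) .nil)) 
(.lf (nat_lit 139377) (.g (nat_lit 2619) (.e (nat_lit 24639) (nat_lit 10) (.e (nat_lit 344129) (nat_lit 26) (.e (nat_lit 557087) (nat_lit 11) (.e (nat_lit 24641) (nat_lit 10) (.e (nat_lit 344129) (nat_lit 26) (.e (nat_lit 557087) (nat_lit 11) .nil)))))) (.g (nat_lit 4) .nil .nil)))))) (.nd (nat_lit 4) (.nd (nat_lit 5) (.nd (nat_lit 6) 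
(.lf (nat_lit 139273) (.g (nat_lit 1797) (.e (nat_lit 24639) (nat_lit 10) (.e (nat_lit 344090) (nat_lit 18) (.e (nat_lit 7266) (nat_lit 384) (.e (nat_lit 57427) (nat_lit 15) (.e (nat_lit 360491) (nat_lit 22) (.e (nat_lit 778464) (nat_lit 11) .nil)))))) (.g (nat_lit 4) .nil .nil))) 
(.lf (nat_lit 139337) (.g (nat_lit 2335) (.e (nat_lit 24639) (nat_lit 10) (.e (nat_lit 344117) (nat_lit 21) (.e (nat_lit 516144) (nat_lit 9) (.e (nat_lit 426448) (nat_lit 20) (.e (nat_lit 114716) (nat_lit 22) .nil))))) .nil))) (.nd (nat_lit 6) 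
(.lf (nat_lit 139305) (.g (nat_lit 3058) (.e (nat_lit 24639) (nat_lit 10) (.e (nat_lit 344097) (nat_lit 18) (.e (nat_lit 7270) (nat_lit 385) (.e (nat_lit 122919) (nat_lit 15) (.e (nat_lit 360492) (nat_lit 22) (.e (nat_lit 778464) (nat_lit 11) .nil)))))) (.g (nat_lit 4) .nil .nil))) 
(.lf (nat_lit 139369) (.g (nat_lit 2218) (.e (nat_lit 24639) (nat_lit 10) (.e (nat_lit 344117) (nat_lit 21) (.e (nat_lit 516180) (nat_lit 15) (.e (nat_lit 475214) (nat_lit 42) (.e (nat_lit 720941) (nat_lit 22) (.e (nat_lit 90160) (nat_lit 11) .nil)))))) (.g (nat_lit 4) .nil .nil))))) (.nd (nat_lit 5) (.nd (nat_lit 6) 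
(.lf (nat_lit 139289) (.g (nat_lit 583) (.e (nat_lit 24639) (nat_lit 10) (.e (nat_lit 344097) (nat_lit 18) (.e (nat_lit 7144) (nat_lit 382) .nil))) .nil)) 
(.lf (nat_lit 139353) (.g (nat_lit 3829) (.e (nat_lit 24639) (nat_lit 10) (.e (nat_lit 344117) (nat_lit 21) (.e (nat_lit 516145) (nat_lit 9) (.e (nat_lit 426448) (nat_lit 20) (.e (nat_lit 114716) (nat_lit 22) (.e (nat_lit 90160) (nat_lit 11) .nil)))))) (.g (nat_lit 5) .nil .nil)))) (.nd (nat_lit 6) 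
(.lf (nat_lit 139321) (.g (nat_lit 2094) (.e (nat_lit 24639) (nat_lit 10) (.e (nat_lit 344100) (nat_lit 18) (.e (nat_lit 7270) (nat_lit 385) (.e (nat_lit 122916) (nat_lit 14) (.e (nat_lit 352322) (nat_lit 26) .nil))))) .nil)) 
(.lf (nat_lit 139385) (.g (nat_lit 1263) (.e (nat_lit 24639) (nat_lit 10) (.e (nat_lit 344174) (nat_lit 42) (.e (nat_lit 761866) (nat_lit 5) (.e (nat_lit 1597) (nat_lit 111) (.e (nat_lit 368384) (nat_lit 22) .nil))))) .nil)))))) (.nd (nat_lit 3) (.nd (nat_lit 4) (.nd (nat_lit 5) (.nd (nat_lit 6) 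
(.lf (nat_lit 139269) (.g (nat_lit 1948) (.e (nat_lit 24639) (nat_lit 10) (.e (nat_lit 344090) (nat_lit 18) (.e (nat_lit 7265) (nat_lit 384) (.e (nat_lit 57424) (nat_lit 14) (.e (nat_lit 352284) (nat_lit 20) .nil))))) .nil)) 
(.lf (nat_lit 139333) (.g (nat_lit 1649) (.e (nat_lit 24639) (nat_lit 10) (.e (nat_lit 344117) (nat_lit 21) (.e (nat_lit 516143) (nat_lit 9) (.e (nat_lit 433920) (nat_lit 20) .nil)))) .nil))) (.nd (nat_lit 6) 
(.lf (nat_lit 139301) (.g (nat_lit 3000) (.e (nat_lit 24639) (nat_lit 10) (.e (nat_lit 344097) (nat_lit 18) (.e (nat_lit 7270) (nat_lit 385) (.e (nat_lit 122917) (nat_lit 15) (.e (nat_lit 360492) (nat_lit 22) .nil))))) .nil)) 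
(.lf (nat_lit 139365) (.g (nat_lit 2372) (.e (nat_lit 24639) (nat_lit 10) (.e (nat_lit 344117) (nat_lit 21) (.e (nat_lit 516180) (nat_lit 15) (.e (nat_lit 475214) (nat_lit 42) (.e (nat_lit 720936) (nat_lit 22) (.e (nat_lit 90158) (nat_lit 11) .nil)))))) (.g (nat_lit 5) .nil .nil))))) (.nd (nat_lit 5) (.nd (nat_lit 6) 
(.lf (nat_lit 139285) (.g (nat_lit 2543) (.e (nat_lit 24639) (nat_lit 10) (.e (nat_lit 344096) (nat_lit 18) (.e (nat_lit 7266) (nat_lit 384) (.e (nat_lit 57424) (nat_lit 14) (.e (nat_lit 352322) (nat_lit 26) .nil))))) .nil)) 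
(.lf (nat_lit 139349) (.g (nat_lit 3734) (.e (nat_lit 24639) (nat_lit 10) (.e (nat_lit 344117) (nat_lit 21) (.e (nat_lit 516145) (nat_lit 9) (.e (nat_lit 426448) (nat_lit 20) (.e (nat_lit 114715) (nat_lit 22) .nil))))) .nil))) (.nd (nat_lit 6) 
(.lf (nat_lit 139317) (.g (nat_lit 1483) (.e (nat_lit 24639) (nat_lit 10) (.e (nat_lit 344097) (nat_lit 18) (.e (nat_lit 7273) (nat_lit 385) (.e (nat_lit 122919) (nat_lit 15) (.e (nat_lit 360491) (nat_lit 22) (.e (nat_lit 778464) (nat_lit 11) .nil)))))) (.g (nat_lit 4) .nil .nil))) 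
(.lf (nat_lit 139381) (.g (nat_lit 747) (.e (nat_lit 24639) (nat_lit 10) (.e (nat_lit 344133) (nat_lit 26) (.e (nat_lit 557065) (nat_lit 9) .nil))) .nil))))) (.nd (nat_lit 4) (.nd (nat_lit 5) (.nd (nat_lit 6) 
(.lf (nat_lit 139277) (.g (nat_lit 697) (.e (nat_lit 24639) (nat_lit 10) (.e (nat_lit 344096) (nat_lit 18) (.e (nat_lit 4004) (nat_lit 242) (.e (nat_lit 122919) (nat_lit 15) .nil)))) .nil)) 
(.lf (nat_lit 139341) (.g (nat_lit 2069) (.e (nat_lit 24639) (nat_lit 10) (.e (nat_lit 344117) (nat_lit 21) (.e (nat_lit 516145) (nat_lit 9) (.e (nat_lit 426446) (nat_lit 20) .nil)))) .nil))) (.nd (nat_lit 6) 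
(.lf (nat_lit 139309) (.g (nat_lit 2054) (.e (nat_lit 24639) (nat_lit 10) (.e (nat_lit 344097) (nat_lit 18) (.e (nat_lit 7271) (nat_lit 385) (.e (nat_lit 122919) (nat_lit 15) (.e (nat_lit 360491) (nat_lit 22) .nil))))) .nil)) 
(.lf (nat_lit 139373) (.g (nat_lit 1367) (.e (nat_lit 24639) (nat_lit 10) (.e (nat_lit 344129) (nat_lit 26) (.e (nat_lit 557065) (nat_lit 9) (.e (nat_lit 7936) (nat_lit 24) .nil)))) .nil)))) (.nd (nat_lit 5) (.nd (nat_lit 6) 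
(.lf (nat_lit 139293) (.g (nat_lit 2699) (.e (nat_lit 24639) (nat_lit 10) (.e (nat_lit 344097) (nat_lit 18) (.e (nat_lit 7147) (nat_lit 382) (.e (nat_lit 1216) (nat_lit 90) (.e (nat_lit 81965) (nat_lit 26) (.e (nat_lit 147496) (nat_lit 11) .nil)))))) (.g (nat_lit 0) .nil .nil))) 
(.lf (nat_lit 139357) (.g (nat_lit 1788) (.e (nat_lit 24639) (nat_lit 10) (.e (nat_lit 344117) (nat_lit 21) (.e (nat_lit 516145) (nat_lit 9) (.e (nat_lit 433920) (nat_lit 20) .nil)))) .nil))) (.nd (nat_lit 6) 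
(.lf (nat_lit 139325) (.g (nat_lit 140) (.e (nat_lit 24639) (nat_lit 10) (.e (nat_lit 344115) (nat_lit 20) (.e (nat_lit 507906) (nat_lit 0) .nil))) .nil)) 
(.lf (nat_lit 139389) (.g (nat_lit 2541) (.e (nat_lit 24639) (nat_lit 10) (.e (nat_lit 344177) (nat_lit 43) (.e (nat_lit 770058) (nat_lit 5) (.e (nat_lit 1598) (nat_lit 111) (.e (nat_lit 360491) (nat_lit 22) (.e (nat_lit 778465) (nat_lit 11) .nil)))))) (.g (nat_lit 0) .nil .nil)))))))) (.nd (nat_lit 2) (.nd (nat_lit 3) (.nd (nat_lit 4) (.nd (nat_lit 5) (.nd (nat_lit 6) 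
(.lf (nat_lit 139267) (.g (nat_lit 1880) (.e (nat_lit 24639) (nat_lit 10) (.e (nat_lit 344090) (nat_lit 18) (.e (nat_lit 7265) (nat_lit 384) (.e (nat_lit 57347) (nat_lit 0) (.e (nat_lit 7936) (nat_lit 348) (.e (nat_lit 73775) (nat_lit 26) (.e (nat_lit 778465) (nat_lit 11) .nil))))))) (.g (nat_lit 4) .nil .nil))) 
(.lf (nat_lit 139331) (.g (nat_lit 1649) (.e (nat_lit 24639) (nat_lit 10) (.e (nat_lit 344117) (nat_lit 21) (.e (nat_lit 516143) (nat_lit 9) (.e (nat_lit 426448) (nat_lit 20) .nil)))) .nil))) (.nd (nat_lit 6) 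
(.lf (nat_lit 139299) (.g (nat_lit 1756) (.e (nat_lit 24639) (nat_lit 10) (.e (nat_lit 344097) (nat_lit 18) (.e (nat_lit 7270) (nat_lit 385) (.e (nat_lit 122916) (nat_lit 14) .nil)))) .nil)) 
(.lf (nat_lit 139363) (.g (nat_lit 2109) (.e (nat_lit 24639) (nat_lit 10) (.e (nat_lit 344117) (nat_lit 21) (.e (nat_lit 516179) (nat_lit 15) (.e (nat_lit 475214) (nat_lit 42) .nil)))) .nil)))) (.nd (nat_lit 5) (.nd (nat_lit 6) 
(.lf (nat_lit 139283) (.g (nat_lit 1937) (.e (nat_lit 24639) (nat_lit 10) (.e (nat_lit 344096) (nat_lit 18) (.e (nat_lit 7265) (nat_lit 384) (.e (nat_lit 57424) (nat_lit 14) (.e (nat_lit 352324) (nat_lit 26) (.e (nat_lit 147494) (nat_lit 11) .nil)))))) (.g (nat_lit 4) .nil .nil))) 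
(.lf (nat_lit 139347) (.g (nat_lit 3415) (.e (nat_lit 24639) (nat_lit 10) (.e (nat_lit 344117) (nat_lit 21) (.e (nat_lit 516145) (nat_lit 9) (.e (nat_lit 426448) (nat_lit 20) (.e (nat_lit 114714) (nat_lit 22) (.e (nat_lit 90159) (nat_lit 11) .nil)))))) (.g (nat_lit 4) .nil .nil)))) (.nd (nat_lit 6) 
(.lf (nat_lit 139315) (.g (nat_lit 1541) (.e (nat_lit 24639) (nat_lit 10) (.e (nat_lit 344097) (nat_lit 18) (.e (nat_lit 7273) (nat_lit 385) (.e (nat_lit 122916) (nat_lit 14) (.e (nat_lit 352323) (nat_lit 26) .nil))))) .nil)) 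
(.lf (nat_lit 139379) (.g (nat_lit 1389) (.e (nat_lit 24639) (nat_lit 10) (.e (nat_lit 344130) (nat_lit 26) (.e (nat_lit 557087) (nat_lit 11) (.e (nat_lit 24639) (nat_lit 10) .nil)))) .nil))))) (.nd (nat_lit 4) (.nd (nat_lit 5) (.nd (nat_lit 6) 
(.lf (nat_lit 139275) (.g (nat_lit 1622) (.e (nat_lit 24639) (nat_lit 10) (.e (nat_lit 344091) (nat_lit 18) (.e (nat_lit 7265) (nat_lit 384) (.e (nat_lit 57427) (nat_lit 15) (.e (nat_lit 360492) (nat_lit 22) .nil))))) .nil)) 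
(.lf (nat_lit 139339) (.g (nat_lit 2323) (.e (nat_lit 24639) (nat_lit 10) (.e (nat_lit 344117) (nat_lit 21) (.e (nat_lit 516145) (nat_lit 9) (.e (nat_lit 426361) (nat_lit 15) .nil)))) .nil))) (.nd (nat_lit 6) 
(.lf (nat_lit 139307) (.g (nat_lit 3196) (.e (nat_lit 24639) (nat_lit 10) (.e (nat_lit 344097) (nat_lit 18) (.e (nat_lit 7270) (nat_lit 385) (.e (nat_lit 122919) (nat_lit 15) (.e (nat_lit 368384) (nat_lit 22) .nil))))) .nil)) 
(.lf (nat_lit 139371) (.g (nat_lit 2183) (.e (nat_lit 24639) (nat_lit 10) (.e (nat_lit 344117) (nat_lit 21) (.e (nat_lit 516185) (nat_lit 16) (.e (nat_lit 491560) (nat_lit 10) (.e (nat_lit 344128) (nat_lit 26) (.e (nat_lit 557087) (nat_lit 11) .nil)))))) (.g (nat_lit 4) .nil .nil))))) (.nd (nat_lit 5) (.nd (nat_lit 6) 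
(.lf (nat_lit 139291) (.g (nat_lit 796) (.e (nat_lit 24639) (nat_lit 10) (.e (nat_lit 344097) (nat_lit 18) (.e (nat_lit 7145) (nat_lit 382) (.e (nat_lit 1216) (nat_lit 90) .nil)))) .nil)) 
(.lf (nat_lit 139355) (.g (nat_lit 3115) (.e (nat_lit 24639) (nat_lit 10) (.e (nat_lit 344117) (nat_lit 21) (.e (nat_lit 516145) (nat_lit 9) (.e (nat_lit 426449) (nat_lit 20) (.e (nat_lit 114716) (nat_lit 22) (.e (nat_lit 90158) (nat_lit 11) .nil)))))) (.g (nat_lit 4) .nil .nil)))) (.nd (nat_lit 6) 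
(.lf (nat_lit 139323) (.g (nat_lit 816) (.e (nat_lit 24639) (nat_lit 10) (.e (nat_lit 344105) (nat_lit 19) (.e (nat_lit 499919) (nat_lit 9) (.e (nat_lit 179968) (nat_lit 20) .nil)))) .nil)) 
(.lf (nat_lit 139387) (.g (nat_lit 1436) (.e (nat_lit 24639) (nat_lit 10) (.e (nat_lit 344177) (nat_lit 43) (.e (nat_lit 770055) (nat_lit 5) (.e (nat_lit 1589) (nat_lit 111) (.e (nat_lit 360492) (nat_lit 22) .nil))))) .nil)))))) (.nd (nat_lit 3) (.nd (nat_lit 4) (.nd (nat_lit 5) (.nd (nat_lit 6) 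
(.lf (nat_lit 139271) (.g (nat_lit 1453) (.e (nat_lit 24639) (nat_lit 10) (.e (nat_lit 344090) (nat_lit 18) (.e (nat_lit 7265) (nat_lit 384) (.e (nat_lit 57426) (nat_lit 15) (.e (nat_lit 360491) (nat_lit 22) .nil))))) .nil)) 
(.lf (nat_lit 139335) (.g (nat_lit 2278) (.e (nat_lit 24639) (nat_lit 10) (.e (nat_lit 344117) (nat_lit 21) (.e (nat_lit 516144) (nat_lit 9) (.e (nat_lit 426446) (nat_lit 20) (.e (nat_lit 114714) (nat_lit 22) (.e (nat_lit 90160) (nat_lit 11) .nil)))))) (.g (nat_lit 4) .nil .nil)))) (.nd (nat_lit 6) 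
(.lf (nat_lit 139303) (.g (nat_lit 1949) (.e (nat_lit 24639) (nat_lit 10) (.e (nat_lit 344097) (nat_lit 18) (.e (nat_lit 7270) (nat_lit 385) (.e (nat_lit 122918) (nat_lit 15) .nil)))) .nil)) 
(.lf (nat_lit 139367) (.g (nat_lit 2638) (.e (nat_lit 24639) (nat_lit 10) (.e (nat_lit 344117) (nat_lit 21) (.e (nat_lit 516180) (nat_lit 15) (.e (nat_lit 475214) (nat_lit 42) (.e (nat_lit 720938) (nat_lit 22) (.e (nat_lit 90158) (nat_lit 11) .nil)))))) (.g (nat_lit 6) .nil .nil))))) (.nd (nat_lit 5) (.nd (nat_lit 6) 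
(.lf (nat_lit 139287) (.g (nat_lit 1614) (.e (nat_lit 24639) (nat_lit 10) (.e (nat_lit 344096) (nat_lit 18) (.e (nat_lit 7266) (nat_lit 384) (.e (nat_lit 57426) (nat_lit 15) (.e (nat_lit 360491) (nat_lit 22) .nil))))) .nil)) 
(.lf (nat_lit 139351) (.g (nat_lit 2905) (.e (nat_lit 24639) (nat_lit 10) (.e (nat_lit 344117) (nat_lit 21) (.e (nat_lit 516145) (nat_lit 9) (.e (nat_lit 426448) (nat_lit 20) (.e (nat_lit 114716) (nat_lit 22) .nil))))) .nil))) (.nd (nat_lit 6) 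
(.lf (nat_lit 139319) (.g (nat_lit 2730) (.e (nat_lit 24639) (nat_lit 10) (.e (nat_lit 344097) (nat_lit 18) (.e (nat_lit 7273) (nat_lit 385) (.e (nat_lit 122919) (nat_lit 15) (.e (nat_lit 360492) (nat_lit 22) (.e (nat_lit 778465) (nat_lit 11) .nil)))))) (.g (nat_lit 0) .nil .nil))) 
(.lf (nat_lit 139383) (.g (nat_lit 1870) (.e (nat_lit 24639) (nat_lit 10) (.e (nat_lit 344133) (nat_lit 26) (.e (nat_lit 557087) (nat_lit 11) (.e (nat_lit 24639) (nat_lit 10) .nil)))) .nil))))) (.nd (nat_lit 4) (.nd (nat_lit 5) (.nd (nat_lit 6) 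
(.lf (nat_lit 139279) (.g (nat_lit 1956) (.e (nat_lit 24639) (nat_lit 10) (.e (nat_lit 344096) (nat_lit 18) (.e (nat_lit 7122) (nat_lit 382) (.e (nat_lit 1224) (nat_lit 90) (.e (nat_lit 81963) (nat_lit 26) .nil))))) .nil)) 
(.lf (nat_lit 139343) (.g (nat_lit 3188) (.e (nat_lit 24639) (nat_lit 10) (.e (nat_lit 344117) (nat_lit 21) (.e (nat_lit 516145) (nat_lit 9) (.e (nat_lit 426446) (nat_lit 20) (.e (nat_lit 114716) (nat_lit 22) (.e (nat_lit 90158) (nat_lit 11) .nil)))))) (.g (nat_lit 4) .nil .nil)))) (.nd (nat_lit 6) 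
(.lf (nat_lit 139311) (.g (nat_lit 1967) (.e (nat_lit 24639) (nat_lit 10) (.e (nat_lit 344097) (nat_lit 18) (.e (nat_lit 7272) (nat_lit 385) (.e (nat_lit 122917) (nat_lit 15) (.e (nat_lit 360491) (nat_lit 22) .nil))))) .nil)) 
(.lf (nat_lit 139375) (.g (nat_lit 1420) (.e (nat_lit 24639) (nat_lit 10) (.e (nat_lit 344129) (nat_lit 26) (.e (nat_lit 557070) (nat_lit 9) (.e (nat_lit 7936) (nat_lit 24) .nil)))) .nil)))) (.nd (nat_lit 5) (.nd (nat_lit 6) 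
(.lf (nat_lit 139295) (.g (nat_lit 2749) (.e (nat_lit 24639) (nat_lit 10) (.e (nat_lit 344097) (nat_lit 18) (.e (nat_lit 7147) (nat_lit 382) (.e (nat_lit 1217) (nat_lit 90) (.e (nat_lit 81963) (nat_lit 26) (.e (nat_lit 147496) (nat_lit 11) .nil)))))) (.g (nat_lit 0) .nil .nil))) 
(.lf (nat_lit 139359) (.g (nat_lit 2589) (.e (nat_lit 24639) (nat_lit 10) (.e (nat_lit 344117) (nat_lit 21) (.e (nat_lit 516147) (nat_lit 9) (.e (nat_lit 426448) (nat_lit 20) (.e (nat_lit 114716) (nat_lit 22) (.e (nat_lit 90158) (nat_lit 11) .nil)))))) (.g (nat_lit 6) .nil .nil)))) (.nd (nat_lit 6) 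
(.lf (nat_lit 139327) (.g (nat_lit 1144) (.e (nat_lit 24639) (nat_lit 10) (.e (nat_lit 344117) (nat_lit 21) (.e (nat_lit 516098) (nat_lit 0) (.e (nat_lit 7545) (nat_lit 402) .nil)))) .nil)) 
(.lf (nat_lit 139391) (.g (nat_lit 1169) (.e (nat_lit 24639) (nat_lit 10) (.e (nat_lit 344177) (nat_lit 43) (.e (nat_lit 770074) (nat_lit 10) (.e (nat_lit 81965) (nat_lit 26) .nil)))) .nil)))))))))

noncomputable def tv1851 : DT := (.nd (nat_lit 0) (.nd (nat_lit 1) (.nd (nat_lit 2) (.nd (nat_lit 3) (.nd (nat_lit 4) (.nd (nat_lit 5) 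
(.lf (nat_lit 139392) (.g (nat_lit 2609) (.e (nat_lit 24640) (nat_lit 10) (.e (nat_lit 344087) (nat_lit 18) (.e (nat_lit 7270) (nat_lit 385) (.e (nat_lit 122919) (nat_lit 15) (.e (nat_lit 360491) (nat_lit 22) .nil))))) .nil)) 
(.lf (nat_lit 139424) (.g (nat_lit 1940) (.e (nat_lit 24640) (nat_lit 10) (.e (nat_lit 344096) (nat_lit 18) (.e (nat_lit 7266) (nat_lit 384) (.e (nat_lit 57428) (nat_lit 15) (.e (nat_lit 360492) (nat_lit 22) .nil))))) .nil))) (.nd (nat_lit 5) 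
(.lf (nat_lit 139408) (.g (nat_lit 767) (.e (nat_lit 24640) (nat_lit 10) (.e (nat_lit 344090) (nat_lit 18) (.e (nat_lit 7266) (nat_lit 384) (.e (nat_lit 57409) (nat_lit 12) .nil)))) .nil)) 
(.lf (nat_lit 139440) (.g (nat_lit 3023) (.e (nat_lit 24640) (nat_lit 10) (.e (nat_lit 344097) (nat_lit 18) (.e (nat_lit 7273) (nat_lit 385) (.e (nat_lit 122919) (nat_lit 15) (.e (nat_lit 360492) (nat_lit 22) (.e (nat_lit 778466) (nat_lit 11) .nil)))))) (.g (nat_lit 0) .nil .nil))))) (.nd (nat_lit 4) (.nd (nat_lit 5) 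
(.lf (nat_lit 139400) (.g (nat_lit 1976) (.e (nat_lit 24640) (nat_lit 10) (.e (nat_lit 344088) (nat_lit 18) (.e (nat_lit 7265) (nat_lit 384) (.e (nat_lit 57427) (nat_lit 15) (.e (nat_lit 360491) (nat_lit 22) (.e (nat_lit 778465) (nat_lit 11) .nil)))))) (.g (nat_lit 4) .nil .nil))) 
(.lf (nat_lit 139432) (.g (nat_lit 2247) (.e (nat_lit 24640) (nat_lit 10) (.e (nat_lit 344097) (nat_lit 18) (.e (nat_lit 7270) (nat_lit 385) (.e (nat_lit 122917) (nat_lit 15) (.e (nat_lit 368384) (nat_lit 22) .nil))))) .nil))) (.nd (nat_lit 5) 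
(.lf (nat_lit 139416) (.g (nat_lit 476) (.e (nat_lit 24640) (nat_lit 10) (.e (nat_lit 344096) (nat_lit 18) (.e (nat_lit 7124) (nat_lit 382) .nil))) .nil)) 
(.lf (nat_lit 139448) (.g (nat_lit 523) (.e (nat_lit 24640) (nat_lit 10) (.e (nat_lit 344117) (nat_lit 21) (.e (nat_lit 516106) (nat_lit 0) .nil))) .nil))))) (.nd (nat_lit 3) (.nd (nat_lit 4) (.nd (nat_lit 5) 
(.lf (nat_lit 139396) (.g (nat_lit 3885) (.e (nat_lit 24640) (nat_lit 10) (.e (nat_lit 344088) (nat_lit 18) (.e (nat_lit 7236) (nat_lit 382) (.e (nat_lit 1221) (nat_lit 90) (.e (nat_lit 81965) (nat_lit 26) (.e (nat_lit 147496) (nat_lit 11) .nil)))))) (.g (nat_lit 0) .nil .nil))) 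
(.lf (nat_lit 139428) (.g (nat_lit 570) (.e (nat_lit 24640) (nat_lit 10) (.e (nat_lit 344097) (nat_lit 18) (.e (nat_lit 7267) (nat_lit 385) .nil))) .nil))) (.nd (nat_lit 5) 
(.lf (nat_lit 139412) (.g (nat_lit 1735) (.e (nat_lit 24640) (nat_lit 10) (.e (nat_lit 344095) (nat_lit 18) (.e (nat_lit 7125) (nat_lit 382) (.e (nat_lit 1224) (nat_lit 90) (.e (nat_lit 81965) (nat_lit 26) .nil))))) .nil)) 
(.lf (nat_lit 139444) (.g (nat_lit 733) (.e (nat_lit 24640) (nat_lit 10) (.e (nat_lit 344117) (nat_lit 21) (.e (nat_lit 516096) (nat_lit 0) .nil))) .nil)))) (.nd (nat_lit 4) (.nd (nat_lit 5) 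
(.lf (nat_lit 139404) (.g (nat_lit 2324) (.e (nat_lit 24640) (nat_lit 10) (.e (nat_lit 344090) (nat_lit 18) (.e (nat_lit 7124) (nat_lit 382) (.e (nat_lit 1222) (nat_lit 90) (.e (nat_lit 81963) (nat_lit 26) (.e (nat_lit 147496) (nat_lit 11) .nil)))))) (.g (nat_lit 4) .nil .nil))) 
(.lf (nat_lit 139436) (.g (nat_lit 1670) (.e (nat_lit 24640) (nat_lit 10) (.e (nat_lit 344097) (nat_lit 18) (.e (nat_lit 7271) (nat_lit 385) (.e (nat_lit 122916) (nat_lit 14) (.e (nat_lit 352323) (nat_lit 26) .nil))))) .nil))) (.nd (nat_lit 5) 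
(.lf (nat_lit 139420) (.g (nat_lit 474) (.e (nat_lit 24640) (nat_lit 10) (.e (nat_lit 344096) (nat_lit 18) (.e (nat_lit 7265) (nat_lit 384) .nil))) .nil)) 
(.lf (nat_lit 139452) (.g (nat_lit 1593) (.e (nat_lit 24640) (nat_lit 10) (.e (nat_lit 344117) (nat_lit 21) (.e (nat_lit 516145) (nat_lit 9) (.e (nat_lit 426440) (nat_lit 19) .nil)))) .nil)))))) (.nd (nat_lit 2) (.nd (nat_lit 3) (.nd (nat_lit 4) (.nd (nat_lit 5) 
(.lf (nat_lit 139394) (.g (nat_lit 3307) (.e (nat_lit 24640) (nat_lit 10) (.e (nat_lit 344087) (nat_lit 18) (.e (nat_lit 7270) (nat_lit 385) (.e (nat_lit 122919) (nat_lit 15) (.e (nat_lit 360492) (nat_lit 22) (.e (nat_lit 778466) (nat_lit 11) .nil)))))) (.g (nat_lit 4) .nil .nil))) 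
(.lf (nat_lit 139426) (.g (nat_lit 3173) (.e (nat_lit 24640) (nat_lit 10) (.e (nat_lit 344097) (nat_lit 18) (.e (nat_lit 7147) (nat_lit 382) (.e (nat_lit 1216) (nat_lit 90) (.e (nat_lit 81965) (nat_lit 26) (.e (nat_lit 147496) (nat_lit 11) .nil)))))) (.g (nat_lit 0) .nil .nil)))) (.nd (nat_lit 5) 
(.lf (nat_lit 139410) (.g (nat_lit 1890) (.e (nat_lit 24640) (nat_lit 10) (.e (nat_lit 344091) (nat_lit 18) (.e (nat_lit 7265) (nat_lit 384) (.e (nat_lit 57424) (nat_lit 14) (.e (nat_lit 352284) (nat_lit 20) .nil))))) .nil)) 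
(.lf (nat_lit 139442) (.g (nat_lit 2932) (.e (nat_lit 24640) (nat_lit 10) (.e (nat_lit 344099) (nat_lit 18) (.e (nat_lit 7270) (nat_lit 385) (.e (nat_lit 122919) (nat_lit 15) (.e (nat_lit 360492) (nat_lit 22) (.e (nat_lit 778464) (nat_lit 11) .nil)))))) (.g (nat_lit 4) .nil .nil))))) (.nd (nat_lit 4) (.nd (nat_lit 5) 
(.lf (nat_lit 139402) (.g (nat_lit 1601) (.e (nat_lit 24640) (nat_lit 10) (.e (nat_lit 344088) (nat_lit 18) (.e (nat_lit 7266) (nat_lit 384) (.e (nat_lit 57427) (nat_lit 15) (.e (nat_lit 360491) (nat_lit 22) .nil))))) .nil)) 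
(.lf (nat_lit 139434) (.g (nat_lit 4387) (.e (nat_lit 24640) (nat_lit 10) (.e (nat_lit 344097) (nat_lit 18) (.e (nat_lit 7270) (nat_lit 385) (.e (nat_lit 122919) (nat_lit 15) (.e (nat_lit 360492) (nat_lit 22) (.e (nat_lit 778466) (nat_lit 11) .nil)))))) (.g (nat_lit 0) .nil .nil)))) (.nd (nat_lit 5) 
(.lf (nat_lit 139418) (.g (nat_lit 2036) (.e (nat_lit 24640) (nat_lit 10) (.e (nat_lit 344096) (nat_lit 18) (.e (nat_lit 7125) (nat_lit 382) (.e (nat_lit 1222) (nat_lit 90) (.e (nat_lit 81965) (nat_lit 26) .nil))))) .nil)) 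
(.lf (nat_lit 139450) (.g (nat_lit 575) (.e (nat_lit 24640) (nat_lit 10) (.e (nat_lit 344117) (nat_lit 21) (.e (nat_lit 516143) (nat_lit 9) .nil))) .nil))))) (.nd (nat_lit 3) (.nd (nat_lit 4) (.nd (nat_lit 5) 
(.lf (nat_lit 139398) (.g (nat_lit 1668) (.e (nat_lit 24640) (nat_lit 10) (.e (nat_lit 344088) (nat_lit 18) (.e (nat_lit 7265) (nat_lit 384) (.e (nat_lit 57424) (nat_lit 14) (.e (nat_lit 352322) (nat_lit 26) .nil))))) .nil)) 
(.lf (nat_lit 139430) (.g (nat_lit 1594) (.e (nat_lit 24640) (nat_lit 10) (.e (nat_lit 344097) (nat_lit 18) (.e (nat_lit 7270) (nat_lit 385) (.e (nat_lit 122916) (nat_lit 14) .nil)))) .nil))) (.nd (nat_lit 5) 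
(.lf (nat_lit 139414) (.g (nat_lit 1230) (.e (nat_lit 24640) (nat_lit 10) (.e (nat_lit 344096) (nat_lit 18) (.e (nat_lit 7122) (nat_lit 382) (.e (nat_lit 1222) (nat_lit 90) .nil)))) .nil)) 
(.lf (nat_lit 139446) (.g (nat_lit 726) (.e (nat_lit 24640) (nat_lit 10) (.e (nat_lit 344117) (nat_lit 21) (.e (nat_lit 516099) (nat_lit 0) (.e (nat_lit 7936) (nat_lit 402) .nil)))) .nil)))) (.nd (nat_lit 4) (.nd (nat_lit 5) 
(.lf (nat_lit 139406) (.g (nat_lit 4292) (.e (nat_lit 24640) (nat_lit 10) (.e (nat_lit 344090) (nat_lit 18) (.e (nat_lit 7236) (nat_lit 382) (.e (nat_lit 1221) (nat_lit 90) (.e (nat_lit 81965) (nat_lit 26) (.e (nat_lit 147496) (nat_lit 11) .nil)))))) (.g (nat_lit 0) .nil .nil))) 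
(.lf (nat_lit 139438) (.g (nat_lit 442) (.e (nat_lit 24640) (nat_lit 10) (.e (nat_lit 344097) (nat_lit 18) (.e (nat_lit 7273) (nat_lit 385) .nil))) .nil))) (.nd (nat_lit 5) 
(.lf (nat_lit 139422) (.g (nat_lit 3186) (.e (nat_lit 24640) (nat_lit 10) (.e (nat_lit 344096) (nat_lit 18) (.e (nat_lit 7266) (nat_lit 384) (.e (nat_lit 57424) (nat_lit 14) (.e (nat_lit 352322) (nat_lit 26) (.e (nat_lit 147496) (nat_lit 11) .nil)))))) (.g (nat_lit 4) .nil .nil))) 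
(.lf (nat_lit 139454) (.g (nat_lit 3341) (.e (nat_lit 24640) (nat_lit 10) (.e (nat_lit 344117) (nat_lit 21) (.e (nat_lit 516145) (nat_lit 9) (.e (nat_lit 426446) (nat_lit 20) (.e (nat_lit 114714) (nat_lit 22) (.e (nat_lit 90158) (nat_lit 11) .nil)))))) (.g (nat_lit 5) .nil .nil)))))))) (.nd (nat_lit 1) (.nd (nat_lit 2) (.nd (nat_lit 3) (.nd (nat_lit 4) (.nd (nat_lit 5) 
(.lf (nat_lit 139393) (.g (nat_lit 3322) (.e (nat_lit 24640) (nat_lit 10) (.e (nat_lit 344087) (nat_lit 18) (.e (nat_lit 7270) (nat_lit 385) (.e (nat_lit 122919) (nat_lit 15) (.e (nat_lit 360491) (nat_lit 22) (.e (nat_lit 778466) (nat_lit 11) .nil)))))) (.g (nat_lit 4) .nil .nil))) 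
(.lf (nat_lit 139425) (.g (nat_lit 432) (.e (nat_lit 24640) (nat_lit 10) (.e (nat_lit 344097) (nat_lit 18) (.e (nat_lit 7146) (nat_lit 382) .nil))) .nil))) (.nd (nat_lit 5) 
(.lf (nat_lit 139409) (.g (nat_lit 2302) (.e (nat_lit 24640) (nat_lit 10) (.e (nat_lit 344090) (nat_lit 18) (.e (nat_lit 7266) (nat_lit 384) (.e (nat_lit 57427) (nat_lit 15) (.e (nat_lit 360492) (nat_lit 22) (.e (nat_lit 778465) (nat_lit 11) .nil)))))) (.g (nat_lit 4) .nil .nil))) 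
(.lf (nat_lit 139441) (.g (nat_lit 3210) (.e (nat_lit 24640) (nat_lit 10) (.e (nat_lit 344099) (nat_lit 18) (.e (nat_lit 7270) (nat_lit 385) (.e (nat_lit 122919) (nat_lit 15) (.e (nat_lit 360491) (nat_lit 22) (.e (nat_lit 778464) (nat_lit 11) .nil)))))) (.g (nat_lit 4) .nil .nil))))) (.nd (nat_lit 4) (.nd (nat_lit 5) 
(.lf (nat_lit 139401) (.g (nat_lit 1489) (.e (nat_lit 24640) (nat_lit 10) (.e (nat_lit 344088) (nat_lit 18) (.e (nat_lit 7266) (nat_lit 384) (.e (nat_lit 57426) (nat_lit 15) (.e (nat_lit 360491) (nat_lit 22) .nil))))) .nil)) 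
(.lf (nat_lit 139433) (.g (nat_lit 1945) (.e (nat_lit 24640) (nat_lit 10) (.e (nat_lit 344097) (nat_lit 18) (.e (nat_lit 7270) (nat_lit 385) (.e (nat_lit 122918) (nat_lit 15) (.e (nat_lit 360492) (nat_lit 22) .nil))))) .nil))) (.nd (nat_lit 5) 
(.lf (nat_lit 139417) (.g (nat_lit 1542) (.e (nat_lit 24640) (nat_lit 10) (.e (nat_lit 344096) (nat_lit 18) (.e (nat_lit 7124) (nat_lit 382) (.e (nat_lit 1224) (nat_lit 90) (.e (nat_lit 81963) (nat_lit 26) .nil))))) .nil)) 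
(.lf (nat_lit 139449) (.g (nat_lit 3841) (.e (nat_lit 24640) (nat_lit 10) (.e (nat_lit 344117) (nat_lit 21) (.e (nat_lit 516139) (nat_lit 7) (.e (nat_lit 409617) (nat_lit 10) (.e (nat_lit 5353) (nat_lit 298) .nil))))) .nil))))) (.nd (nat_lit 3) (.nd (nat_lit 4) (.nd (nat_lit 5) 
(.lf (nat_lit 139397) (.g (nat_lit 1681) (.e (nat_lit 24640) (nat_lit 10) (.e (nat_lit 344088) (nat_lit 18) (.e (nat_lit 7265) (nat_lit 384) (.e (nat_lit 57347) (nat_lit 0) (.e (nat_lit 7936) (nat_lit 348) .nil))))) .nil)) 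
(.lf (nat_lit 139429) (.g (nat_lit 1776) (.e (nat_lit 24640) (nat_lit 10) (.e (nat_lit 344097) (nat_lit 18) (.e (nat_lit 7270) (nat_lit 385) (.e (nat_lit 122915) (nat_lit 14) .nil)))) .nil))) (.nd (nat_lit 5) 
(.lf (nat_lit 139413) (.g (nat_lit 535) (.e (nat_lit 24640) (nat_lit 10) (.e (nat_lit 344096) (nat_lit 18) (.e (nat_lit 7122) (nat_lit 382) .nil))) .nil)) 
(.lf (nat_lit 139445) (.g (nat_lit 478) (.e (nat_lit 24640) (nat_lit 10) (.e (nat_lit 344117) (nat_lit 21) (.e (nat_lit 516098) (nat_lit 0) .nil))) .nil)))) (.nd (nat_lit 4) (.nd (nat_lit 5) 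
(.lf (nat_lit 139405) (.g (nat_lit 2286) (.e (nat_lit 24640) (nat_lit 10) (.e (nat_lit 344090) (nat_lit 18) (.e (nat_lit 7124) (nat_lit 382) (.e (nat_lit 1222) (nat_lit 90) (.e (nat_lit 81965) (nat_lit 26) .nil))))) .nil)) 
(.lf (nat_lit 139437) (.g (nat_lit 1542) (.e (nat_lit 24640) (nat_lit 10) (.e (nat_lit 344097) (nat_lit 18) (.e (nat_lit 7272) (nat_lit 385) (.e (nat_lit 122914) (nat_lit 14) (.e (nat_lit 352324) (nat_lit 26) .nil))))) .nil))) (.nd (nat_lit 5) 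
(.lf (nat_lit 139421) (.g (nat_lit 2339) (.e (nat_lit 24640) (nat_lit 10) (.e (nat_lit 344096) (nat_lit 18) (.e (nat_lit 7266) (nat_lit 384) (.e (nat_lit 57423) (nat_lit 14) (.e (nat_lit 352324) (nat_lit 26) .nil))))) .nil)) 
(.lf (nat_lit 139453) (.g (nat_lit 3445) (.e (nat_lit 24640) (nat_lit 10) (.e (nat_lit 344117) (nat_lit 21) (.e (nat_lit 516145) (nat_lit 9) (.e (nat_lit 426446) (nat_lit 20) (.e (nat_lit 114714) (nat_lit 22) (.e (nat_lit 90157) (nat_lit 11) .nil)))))) (.g (nat_lit 5) .nil .nil))))))) (.nd (nat_lit 2) (.nd (nat_lit 3) (.nd (nat_lit 4) (.nd (nat_lit 5) 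
(.lf (nat_lit 139395) (.g (nat_lit 2158) (.e (nat_lit 24640) (nat_lit 10) (.e (nat_lit 344088) (nat_lit 18) (.e (nat_lit 7125) (nat_lit 382) (.e (nat_lit 1224) (nat_lit 90) (.e (nat_lit 81963) (nat_lit 26) (.e (nat_lit 147496) (nat_lit 11) .nil)))))) (.g (nat_lit 4) .nil .nil))) 
(.lf (nat_lit 139427) (.g (nat_lit 3218) (.e (nat_lit 24640) (nat_lit 10) (.e (nat_lit 344097) (nat_lit 18) (.e (nat_lit 7147) (nat_lit 382) (.e (nat_lit 1217) (nat_lit 90) (.e (nat_lit 81963) (nat_lit 26) (.e (nat_lit 147496) (nat_lit 11) .nil)))))) (.g (nat_lit 0) .nil .nil)))) (.nd (nat_lit 5) 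
(.lf (nat_lit 139411) (.g (nat_lit 2126) (.e (nat_lit 24640) (nat_lit 10) (.e (nat_lit 344091) (nat_lit 18) (.e (nat_lit 7266) (nat_lit 384) (.e (nat_lit 57424) (nat_lit 14) (.e (nat_lit 352324) (nat_lit 26) .nil))))) .nil)) 
(.lf (nat_lit 139443) (.g (nat_lit 2367) (.e (nat_lit 24640) (nat_lit 10) (.e (nat_lit 344101) (nat_lit 18) (.e (nat_lit 7270) (nat_lit 385) (.e (nat_lit 122917) (nat_lit 15) (.e (nat_lit 360491) (nat_lit 22) (.e (nat_lit 778464) (nat_lit 11) .nil)))))) (.g (nat_lit 4) .nil .nil))))) (.nd (nat_lit 4) (.nd (nat_lit 5) 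
(.lf (nat_lit 139403) (.g (nat_lit 2325) (.e (nat_lit 24640) (nat_lit 10) (.e (nat_lit 344090) (nat_lit 18) (.e (nat_lit 7124) (nat_lit 382) (.e (nat_lit 1222) (nat_lit 90) (.e (nat_lit 81963) (nat_lit 26) (.e (nat_lit 147495) (nat_lit 11) .nil)))))) (.g (nat_lit 4) .nil .nil))) 
(.lf (nat_lit 139435) (.g (nat_lit 2775) (.e (nat_lit 24640) (nat_lit 10) (.e (nat_lit 344097) (nat_lit 18) (.e (nat_lit 7270) (nat_lit 385) (.e (nat_lit 122919) (nat_lit 15) (.e (nat_lit 368384) (nat_lit 22) .nil))))) .nil))) (.nd (nat_lit 5) 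
(.lf (nat_lit 139419) (.g (nat_lit 1946) (.e (nat_lit 24640) (nat_lit 10) (.e (nat_lit 344096) (nat_lit 18) (.e (nat_lit 7263) (nat_lit 384) (.e (nat_lit 57424) (nat_lit 14) (.e (nat_lit 352323) (nat_lit 26) .nil))))) .nil)) 
(.lf (nat_lit 139451) (.g (nat_lit 2536) (.e (nat_lit 24640) (nat_lit 10) (.e (nat_lit 344117) (nat_lit 21) (.e (nat_lit 516144) (nat_lit 9) (.e (nat_lit 426448) (nat_lit 20) (.e (nat_lit 114714) (nat_lit 22) (.e (nat_lit 90160) (nat_lit 11) .nil)))))) (.g (nat_lit 4) .nil .nil)))))) (.nd (nat_lit 3) (.nd (nat_lit 4) (.nd (nat_lit 5) 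
(.lf (nat_lit 139399) (.g (nat_lit 1903) (.e (nat_lit 24640) (nat_lit 10) (.e (nat_lit 344088) (nat_lit 18) (.e (nat_lit 7265) (nat_lit 384) (.e (nat_lit 57426) (nat_lit 15) (.e (nat_lit 360491) (nat_lit 22) (.e (nat_lit 778465) (nat_lit 11) .nil)))))) (.g (nat_lit 4) .nil .nil))) 
(.lf (nat_lit 139431) (.g (nat_lit 2308) (.e (nat_lit 24640) (nat_lit 10) (.e (nat_lit 344097) (nat_lit 18) (.e (nat_lit 7270) (nat_lit 385) (.e (nat_lit 122916) (nat_lit 14) (.e (nat_lit 352323) (nat_lit 26) .nil))))) .nil))) (.nd (nat_lit 5) 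
(.lf (nat_lit 139415) (.g (nat_lit 2044) (.e (nat_lit 24640) (nat_lit 10) (.e (nat_lit 344096) (nat_lit 18) (.e (nat_lit 7122) (nat_lit 382) (.e (nat_lit 1224) (nat_lit 90) (.e (nat_lit 81965) (nat_lit 26) .nil))))) .nil)) 
(.lf (nat_lit 139447) (.g (nat_lit 896) (.e (nat_lit 24640) (nat_lit 10) (.e (nat_lit 344117) (nat_lit 21) (.e (nat_lit 516102) (nat_lit 0) (.e (nat_lit 7936) (nat_lit 407) .nil)))) .nil)))) (.nd (nat_lit 4) (.nd (nat_lit 5) 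
(.lf (nat_lit 139407) (.g (nat_lit 1820) (.e (nat_lit 24640) (nat_lit 10) (.e (nat_lit 344090) (nat_lit 18) (.e (nat_lit 7265) (nat_lit 384) (.e (nat_lit 57424) (nat_lit 14) (.e (nat_lit 352284) (nat_lit 20) .nil))))) .nil)) 
(.lf (nat_lit 139439) (.g (nat_lit 886) (.e (nat_lit 24640) (nat_lit 10) (.e (nat_lit 344097) (nat_lit 18) (.e (nat_lit 7273) (nat_lit 385) (.e (nat_lit 122918) (nat_lit 15) .nil)))) .nil))) (.nd (nat_lit 5) 
(.lf (nat_lit 139423) (.g (nat_lit 2993) (.e (nat_lit 24640) (nat_lit 10) (.e (nat_lit 344096) (nat_lit 18) (.e (nat_lit 7266) (nat_lit 384) (.e (nat_lit 57424) (nat_lit 14) (.e (nat_lit 352323) (nat_lit 26) (.e (nat_lit 147496) (nat_lit 11) .nil)))))) (.g (nat_lit 4) .nil .nil))) 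
(.lf (nat_lit 139455) (.g (nat_lit 3409) (.e (nat_lit 24640) (nat_lit 10) (.e (nat_lit 344117) (nat_lit 21) (.e (nat_lit 516145) (nat_lit 9) (.e (nat_lit 426446) (nat_lit 20) (.e (nat_lit 114714) (nat_lit 22) (.e (nat_lit 90159) (nat_lit 11) .nil)))))) (.g (nat_lit 5) .nil .nil)))))))))

noncomputable def tv1852 : DT := (.nd (nat_lit 0) (.nd (nat_lit 1) (.nd (nat_lit 2) (.nd (nat_lit 3) (.nd (nat_lit 4) (.nd (nat_lit 5) 
(.lf (nat_lit 139456) (.g (nat_lit 3930) (.e (nat_lit 24640) (nat_lit 10) (.e (nat_lit 344117) (nat_lit 21) (.e (nat_lit 516145) (nat_lit 9) (.e (nat_lit 426446) (nat_lit 20) (.e (nat_lit 114714) (nat_lit 22) (.e (nat_lit 90160) (nat_lit 11) .nil)))))) (.g (nat_lit 0) .nil .nil))) 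
(.lf (nat_lit 139488) (.g (nat_lit 2409) (.e (nat_lit 24640) (nat_lit 10) (.e (nat_lit 344117) (nat_lit 21) (.e (nat_lit 516179) (nat_lit 15) (.e (nat_lit 475212) (nat_lit 42) (.e (nat_lit 720937) (nat_lit 22) (.e (nat_lit 90160) (nat_lit 11) .nil)))))) (.g (nat_lit 4) .nil .nil)))) (.nd (nat_lit 5) 
(.lf (nat_lit 139472) (.g (nat_lit 3604) (.e (nat_lit 24640) (nat_lit 10) (.e (nat_lit 344117) (nat_lit 21) (.e (nat_lit 516145) (nat_lit 9) (.e (nat_lit 426448) (nat_lit 20) (.e (nat_lit 114716) (nat_lit 22) (.e (nat_lit 90157) (nat_lit 11) .nil)))))) (.g (nat_lit 5) .nil .nil))) 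
(.lf (nat_lit 139504) (.g (nat_lit 707) (.e (nat_lit 24640) (nat_lit 10) (.e (nat_lit 344126) (nat_lit 25) (.e (nat_lit 548870) (nat_lit 5) .nil))) .nil)))) (.nd (nat_lit 4) (.nd (nat_lit 5) 
(.lf (nat_lit 139464) (.g (nat_lit 4329) (.e (nat_lit 24640) (nat_lit 10) (.e (nat_lit 344117) (nat_lit 21) (.e (nat_lit 516145) (nat_lit 9) (.e (nat_lit 426448) (nat_lit 20) (.e (nat_lit 114714) (nat_lit 22) (.e (nat_lit 90159) (nat_lit 11) .nil)))))) (.g (nat_lit 6) .nil .nil))) 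
(.lf (nat_lit 139496) (.g (nat_lit 2019) (.e (nat_lit 24640) (nat_lit 10) (.e (nat_lit 344117) (nat_lit 21) (.e (nat_lit 516179) (nat_lit 15) (.e (nat_lit 475214) (nat_lit 42) (.e (nat_lit 720939) (nat_lit 22) .nil))))) .nil))) (.nd (nat_lit 5) 
(.lf (nat_lit 139480) (.g (nat_lit 3722) (.e (nat_lit 24640) (nat_lit 10) (.e (nat_lit 344117) (nat_lit 21) (.e (nat_lit 516145) (nat_lit 9) (.e (nat_lit 426449) (nat_lit 20) (.e (nat_lit 114716) (nat_lit 22) (.e (nat_lit 90159) (nat_lit 11) .nil)))))) (.g (nat_lit 0) .nil .nil))) 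
(.lf (nat_lit 139512) (.g (nat_lit 744) (.e (nat_lit 24640) (nat_lit 10) (.e (nat_lit 344126) (nat_lit 25) (.e (nat_lit 548879) (nat_lit 5) .nil))) .nil))))) (.nd (nat_lit 3) (.nd (nat_lit 4) (.nd (nat_lit 5) 
(.lf (nat_lit 139460) (.g (nat_lit 3720) (.e (nat_lit 24640) (nat_lit 10) (.e (nat_lit 344117) (nat_lit 21) (.e (nat_lit 516145) (nat_lit 9) (.e (nat_lit 426446) (nat_lit 20) (.e (nat_lit 114716) (nat_lit 22) (.e (nat_lit 90160) (nat_lit 11) .nil)))))) (.g (nat_lit 0) .nil .nil))) 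
(.lf (nat_lit 139492) (.g (nat_lit 2614) (.e (nat_lit 24640) (nat_lit 10) (.e (nat_lit 344117) (nat_lit 21) (.e (nat_lit 516179) (nat_lit 15) (.e (nat_lit 475214) (nat_lit 42) (.e (nat_lit 720937) (nat_lit 22) (.e (nat_lit 90158) (nat_lit 11) .nil)))))) (.g (nat_lit 4) .nil .nil)))) (.nd (nat_lit 5) 
(.lf (nat_lit 139476) (.g (nat_lit 2734) (.e (nat_lit 24640) (nat_lit 10) (.e (nat_lit 344117) (nat_lit 21) (.e (nat_lit 516145) (nat_lit 9) (.e (nat_lit 426449) (nat_lit 20) (.e (nat_lit 114714) (nat_lit 22) (.e (nat_lit 90157) (nat_lit 11) .nil)))))) (.g (nat_lit 4) .nil .nil))) 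
(.lf (nat_lit 139508) (.g (nat_lit 2101) (.e (nat_lit 24640) (nat_lit 10) (.e (nat_lit 344126) (nat_lit 25) (.e (nat_lit 548873) (nat_lit 5) (.e (nat_lit 1580) (nat_lit 111) .nil)))) .nil)))) (.nd (nat_lit 4) (.nd (nat_lit 5) 
(.lf (nat_lit 139468) (.g (nat_lit 4205) (.e (nat_lit 24640) (nat_lit 10) (.e (nat_lit 344117) (nat_lit 21) (.e (nat_lit 516145) (nat_lit 9) (.e (nat_lit 426448) (nat_lit 20) (.e (nat_lit 114715) (nat_lit 22) (.e (nat_lit 90158) (nat_lit 11) .nil)))))) (.g (nat_lit 5) .nil .nil))) 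
(.lf (nat_lit 139500) (.g (nat_lit 4700) (.e (nat_lit 24640) (nat_lit 10) (.e (nat_lit 344117) (nat_lit 21) (.e (nat_lit 516185) (nat_lit 16) (.e (nat_lit 491558) (nat_lit 10) (.e (nat_lit 344129) (nat_lit 26) (.e (nat_lit 557087) (nat_lit 11) .nil)))))) (.g (nat_lit 0) .nil .nil)))) (.nd (nat_lit 5) 
(.lf (nat_lit 139484) (.g (nat_lit 3221) (.e (nat_lit 24640) (nat_lit 10) (.e (nat_lit 344117) (nat_lit 21) (.e (nat_lit 516147) (nat_lit 9) (.e (nat_lit 426448) (nat_lit 20) (.e (nat_lit 114716) (nat_lit 22) (.e (nat_lit 90158) (nat_lit 11) .nil)))))) (.g (nat_lit 0) .nil .nil))) 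
(.lf (nat_lit 139516) (.g (nat_lit 2469) (.e (nat_lit 24640) (nat_lit 10) (.e (nat_lit 344126) (nat_lit 25) (.e (nat_lit 548887) (nat_lit 9) (.e (nat_lit 65610) (nat_lit 10) .nil)))) .nil)))))) (.nd (nat_lit 2) (.nd (nat_lit 3) (.nd (nat_lit 4) (.nd (nat_lit 5) 
(.lf (nat_lit 139458) (.g (nat_lit 3520) (.e (nat_lit 24640) (nat_lit 10) (.e (nat_lit 344117) (nat_lit 21) (.e (nat_lit 516145) (nat_lit 9) (.e (nat_lit 426446) (nat_lit 20) (.e (nat_lit 114716) (nat_lit 22) (.e (nat_lit 90157) (nat_lit 11) .nil)))))) (.g (nat_lit 6) .nil .nil))) 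
(.lf (nat_lit 139490) (.g (nat_lit 3031) (.e (nat_lit 24640) (nat_lit 10) (.e (nat_lit 344117) (nat_lit 21) (.e (nat_lit 516179) (nat_lit 15) (.e (nat_lit 475214) (nat_lit 42) (.e (nat_lit 720913) (nat_lit 20) .nil))))) .nil))) (.nd (nat_lit 5) 
(.lf (nat_lit 139474) (.g (nat_lit 3235) (.e (nat_lit 24640) (nat_lit 10) (.e (nat_lit 344117) (nat_lit 21) (.e (nat_lit 516145) (nat_lit 9) (.e (nat_lit 426448) (nat_lit 20) (.e (nat_lit 114716) (nat_lit 22) (.e (nat_lit 90159) (nat_lit 11) .nil)))))) (.g (nat_lit 5) .nil .nil))) 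
(.lf (nat_lit 139506) (.g (nat_lit 2852) (.e (nat_lit 24640) (nat_lit 10) (.e (nat_lit 344126) (nat_lit 25) (.e (nat_lit 548870) (nat_lit 5) (.e (nat_lit 1595) (nat_lit 111) (.e (nat_lit 360473) (nat_lit 8) .nil))))) .nil)))) (.nd (nat_lit 4) (.nd (nat_lit 5) 
(.lf (nat_lit 139466) (.g (nat_lit 4544) (.e (nat_lit 24640) (nat_lit 10) (.e (nat_lit 344117) (nat_lit 21) (.e (nat_lit 516145) (nat_lit 9) (.e (nat_lit 426448) (nat_lit 20) (.e (nat_lit 114715) (nat_lit 22) (.e (nat_lit 90156) (nat_lit 11) .nil)))))) (.g (nat_lit 0) .nil .nil))) 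
(.lf (nat_lit 139498) (.g (nat_lit 2411) (.e (nat_lit 24640) (nat_lit 10) (.e (nat_lit 344117) (nat_lit 21) (.e (nat_lit 516179) (nat_lit 15) (.e (nat_lit 475214) (nat_lit 42) (.e (nat_lit 720941) (nat_lit 22) (.e (nat_lit 90159) (nat_lit 11) .nil)))))) (.g (nat_lit 4) .nil .nil)))) (.nd (nat_lit 5) 
(.lf (nat_lit 139482) (.g (nat_lit 2481) (.e (nat_lit 24640) (nat_lit 10) (.e (nat_lit 344117) (nat_lit 21) (.e (nat_lit 516147) (nat_lit 9) (.e (nat_lit 426446) (nat_lit 20) (.e (nat_lit 114716) (nat_lit 22) (.e (nat_lit 90157) (nat_lit 11) .nil)))))) (.g (nat_lit 0) .nil .nil))) 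
(.lf (nat_lit 139514) (.g (nat_lit 2236) (.e (nat_lit 24640) (nat_lit 10) (.e (nat_lit 344126) (nat_lit 25) (.e (nat_lit 548881) (nat_lit 5) (.e (nat_lit 1581) (nat_lit 111) .nil)))) .nil))))) (.nd (nat_lit 3) (.nd (nat_lit 4) (.nd (nat_lit 5) 
(.lf (nat_lit 139462) (.g (nat_lit 4462) (.e (nat_lit 24640) (nat_lit 10) (.e (nat_lit 344117) (nat_lit 21) (.e (nat_lit 516145) (nat_lit 9) (.e (nat_lit 426448) (nat_lit 20) (.e (nat_lit 114714) (nat_lit 22) (.e (nat_lit 90157) (nat_lit 11) .nil)))))) (.g (nat_lit 6) .nil .nil))) 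
(.lf (nat_lit 139494) (.g (nat_lit 2583) (.e (nat_lit 24640) (nat_lit 10) (.e (nat_lit 344117) (nat_lit 21) (.e (nat_lit 516179) (nat_lit 15) (.e (nat_lit 475214) (nat_lit 42) (.e (nat_lit 720938) (nat_lit 22) (.e (nat_lit 90158) (nat_lit 11) .nil)))))) (.g (nat_lit 4) .nil .nil)))) (.nd (nat_lit 5) 
(.lf (nat_lit 139478) (.g (nat_lit 2709) (.e (nat_lit 24640) (nat_lit 10) (.e (nat_lit 344117) (nat_lit 21) (.e (nat_lit 516145) (nat_lit 9) (.e (nat_lit 426449) (nat_lit 20) (.e (nat_lit 114714) (nat_lit 22) (.e (nat_lit 90159) (nat_lit 11) .nil)))))) (.g (nat_lit 4) .nil .nil))) 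
(.lf (nat_lit 139510) (.g (nat_lit 2310) (.e (nat_lit 24640) (nat_lit 10) (.e (nat_lit 344126) (nat_lit 25) (.e (nat_lit 548874) (nat_lit 5) (.e (nat_lit 1599) (nat_lit 111) .nil)))) .nil)))) (.nd (nat_lit 4) (.nd (nat_lit 5) 
(.lf (nat_lit 139470) (.g (nat_lit 4246) (.e (nat_lit 24640) (nat_lit 10) (.e (nat_lit 344117) (nat_lit 21) (.e (nat_lit 516145) (nat_lit 9) (.e (nat_lit 426448) (nat_lit 20) (.e (nat_lit 114715) (nat_lit 22) (.e (nat_lit 90160) (nat_lit 11) .nil)))))) (.g (nat_lit 5) .nil .nil))) 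
(.lf (nat_lit 139502) (.g (nat_lit 4798) (.e (nat_lit 24640) (nat_lit 10) (.e (nat_lit 344117) (nat_lit 21) (.e (nat_lit 516185) (nat_lit 16) (.e (nat_lit 491560) (nat_lit 10) (.e (nat_lit 344129) (nat_lit 26) (.e (nat_lit 557087) (nat_lit 11) .nil)))))) (.g (nat_lit 0) .nil .nil)))) (.nd (nat_lit 5) 
(.lf (nat_lit 139486) (.g (nat_lit 1873) (.e (nat_lit 24640) (nat_lit 10) (.e (nat_lit 344117) (nat_lit 21) (.e (nat_lit 516151) (nat_lit 9) (.e (nat_lit 426412) (nat_lit 15) .nil)))) .nil)) 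
(.lf (nat_lit 139518) (.g (nat_lit 3317) (.e (nat_lit 24640) (nat_lit 10) (.e (nat_lit 344126) (nat_lit 25) (.e (nat_lit 548889) (nat_lit 9) (.e (nat_lit 65609) (nat_lit 10) .nil)))) .nil))))))) (.nd (nat_lit 1) (.nd (nat_lit 2) (.nd (nat_lit 3) (.nd (nat_lit 4) (.nd (nat_lit 5) 
(.lf (nat_lit 139457) (.g (nat_lit 1811) (.e (nat_lit 24640) (nat_lit 10) (.e (nat_lit 344117) (nat_lit 21) (.e (nat_lit 516145) (nat_lit 9) (.e (nat_lit 426446) (nat_lit 20) (.e (nat_lit 114715) (nat_lit 22) .nil))))) .nil)) 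
(.lf (nat_lit 139489) (.g (nat_lit 2368) (.e (nat_lit 24640) (nat_lit 10) (.e (nat_lit 344117) (nat_lit 21) (.e (nat_lit 516179) (nat_lit 15) (.e (nat_lit 475212) (nat_lit 42) (.e (nat_lit 720938) (nat_lit 22) (.e (nat_lit 90160) (nat_lit 11) .nil)))))) (.g (nat_lit 4) .nil .nil)))) (.nd (nat_lit 5) 
(.lf (nat_lit 139473) (.g (nat_lit 3780) (.e (nat_lit 24640) (nat_lit 10) (.e (nat_lit 344117) (nat_lit 21) (.e (nat_lit 516145) (nat_lit 9) (.e (nat_lit 426448) (nat_lit 20) (.e (nat_lit 114716) (nat_lit 22) (.e (nat_lit 90158) (nat_lit 11) .nil)))))) (.g (nat_lit 6) .nil .nil))) 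
(.lf (nat_lit 139505) (.g (nat_lit 2300) (.e (nat_lit 24640) (nat_lit 10) (.e (nat_lit 344126) (nat_lit 25) (.e (nat_lit 548870) (nat_lit 5) (.e (nat_lit 1586) (nat_lit 111) .nil)))) .nil)))) (.nd (nat_lit 4) (.nd (nat_lit 5) 
(.lf (nat_lit 139465) (.g (nat_lit 4504) (.e (nat_lit 24640) (nat_lit 10) (.e (nat_lit 344117) (nat_lit 21) (.e (nat_lit 516145) (nat_lit 9) (.e (nat_lit 426448) (nat_lit 20) (.e (nat_lit 114714) (nat_lit 22) (.e (nat_lit 90160) (nat_lit 11) .nil)))))) (.g (nat_lit 0) .nil .nil))) 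
(.lf (nat_lit 139497) (.g (nat_lit 2924) (.e (nat_lit 24640) (nat_lit 10) (.e (nat_lit 344117) (nat_lit 21) (.e (nat_lit 516179) (nat_lit 15) (.e (nat_lit 475214) (nat_lit 42) (.e (nat_lit 720939) (nat_lit 22) (.e (nat_lit 90160) (nat_lit 11) .nil)))))) (.g (nat_lit 4) .nil .nil)))) (.nd (nat_lit 5) 
(.lf (nat_lit 139481) (.g (nat_lit 3447) (.e (nat_lit 24640) (nat_lit 10) (.e (nat_lit 344117) (nat_lit 21) (.e (nat_lit 516145) (nat_lit 9) (.e (nat_lit 426449) (nat_lit 20) (.e (nat_lit 114716) (nat_lit 22) (.e (nat_lit 90160) (nat_lit 11) .nil)))))) (.g (nat_lit 6) .nil .nil))) 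
(.lf (nat_lit 139513) (.g (nat_lit 2023) (.e (nat_lit 24640) (nat_lit 10) (.e (nat_lit 344126) (nat_lit 25) (.e (nat_lit 548880) (nat_lit 5) (.e (nat_lit 1582) (nat_lit 111) .nil)))) .nil))))) (.nd (nat_lit 3) (.nd (nat_lit 4) (.nd (nat_lit 5) 
(.lf (nat_lit 139461) (.g (nat_lit 3097) (.e (nat_lit 24640) (nat_lit 10) (.e (nat_lit 344117) (nat_lit 21) (.e (nat_lit 516145) (nat_lit 9) (.e (nat_lit 426448) (nat_lit 20) (.e (nat_lit 114714) (nat_lit 22) (.e (nat_lit 90156) (nat_lit 11) .nil)))))) (.g (nat_lit 4) .nil .nil))) 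
(.lf (nat_lit 139493) (.g (nat_lit 3022) (.e (nat_lit 24640) (nat_lit 10) (.e (nat_lit 344117) (nat_lit 21) (.e (nat_lit 516179) (nat_lit 15) (.e (nat_lit 475214) (nat_lit 42) (.e (nat_lit 720937) (nat_lit 22) (.e (nat_lit 90160) (nat_lit 11) .nil)))))) (.g (nat_lit 6) .nil .nil)))) (.nd (nat_lit 5) 
(.lf (nat_lit 139477) (.g (nat_lit 2660) (.e (nat_lit 24640) (nat_lit 10) (.e (nat_lit 344117) (nat_lit 21) (.e (nat_lit 516145) (nat_lit 9) (.e (nat_lit 426449) (nat_lit 20) (.e (nat_lit 114714) (nat_lit 22) (.e (nat_lit 90158) (nat_lit 11) .nil)))))) (.g (nat_lit 4) .nil .nil))) 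
(.lf (nat_lit 139509) (.g (nat_lit 2914) (.e (nat_lit 24640) (nat_lit 10) (.e (nat_lit 344126) (nat_lit 25) (.e (nat_lit 548874) (nat_lit 5) (.e (nat_lit 1580) (nat_lit 111) .nil)))) .nil)))) (.nd (nat_lit 4) (.nd (nat_lit 5) 
(.lf (nat_lit 139469) (.g (nat_lit 3651) (.e (nat_lit 24640) (nat_lit 10) (.e (nat_lit 344117) (nat_lit 21) (.e (nat_lit 516145) (nat_lit 9) (.e (nat_lit 426448) (nat_lit 20) (.e (nat_lit 114715) (nat_lit 22) (.e (nat_lit 90159) (nat_lit 11) .nil)))))) (.g (nat_lit 4) .nil .nil))) 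
(.lf (nat_lit 139501) (.g (nat_lit 4588) (.e (nat_lit 24640) (nat_lit 10) (.e (nat_lit 344117) (nat_lit 21) (.e (nat_lit 516185) (nat_lit 16) (.e (nat_lit 491558) (nat_lit 10) (.e (nat_lit 344133) (nat_lit 26) (.e (nat_lit 557087) (nat_lit 11) .nil)))))) (.g (nat_lit 6) .nil .nil)))) (.nd (nat_lit 5) 
(.lf (nat_lit 139485) (.g (nat_lit 2163) (.e (nat_lit 24640) (nat_lit 10) (.e (nat_lit 344117) (nat_lit 21) (.e (nat_lit 516151) (nat_lit 9) (.e (nat_lit 426407) (nat_lit 15) .nil)))) .nil)) 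
(.lf (nat_lit 139517) (.g (nat_lit 3466) (.e (nat_lit 24640) (nat_lit 10) (.e (nat_lit 344126) (nat_lit 25) (.e (nat_lit 548888) (nat_lit 9) (.e (nat_lit 65619) (nat_lit 10) (.e (nat_lit 344129) (nat_lit 26) (.e (nat_lit 557087) (nat_lit 11) .nil)))))) (.g (nat_lit 4) .nil .nil))))))) (.nd (nat_lit 2) (.nd (nat_lit 3) (.nd (nat_lit 4) (.nd (nat_lit 5) 
(.lf (nat_lit 139459) (.g (nat_lit 2933) (.e (nat_lit 24640) (nat_lit 10) (.e (nat_lit 344117) (nat_lit 21) (.e (nat_lit 516145) (nat_lit 9) (.e (nat_lit 426446) (nat_lit 20) (.e (nat_lit 114716) (nat_lit 22) (.e (nat_lit 90159) (nat_lit 11) .nil)))))) (.g (nat_lit 5) .nil .nil))) 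
(.lf (nat_lit 139491) (.g (nat_lit 2710) (.e (nat_lit 24640) (nat_lit 10) (.e (nat_lit 344117) (nat_lit 21) (.e (nat_lit 516179) (nat_lit 15) (.e (nat_lit 475214) (nat_lit 42) (.e (nat_lit 720914) (nat_lit 20) (.e (nat_lit 1705) (nat_lit 117) (.e (nat_lit 499902) (nat_lit 7) .nil))))))) (.g (nat_lit 4) .nil .nil)))) (.nd (nat_lit 5) 
(.lf (nat_lit 139475) (.g (nat_lit 4108) (.e (nat_lit 24640) (nat_lit 10) (.e (nat_lit 344117) (nat_lit 21) (.e (nat_lit 516145) (nat_lit 9) (.e (nat_lit 426448) (nat_lit 20) (.e (nat_lit 114716) (nat_lit 22) (.e (nat_lit 90160) (nat_lit 11) .nil)))))) (.g (nat_lit 0) .nil .nil))) 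
(.lf (nat_lit 139507) (.g (nat_lit 728) (.e (nat_lit 24640) (nat_lit 10) (.e (nat_lit 344126) (nat_lit 25) (.e (nat_lit 548871) (nat_lit 5) .nil))) .nil)))) (.nd (nat_lit 4) (.nd (nat_lit 5) 
(.lf (nat_lit 139467) (.g (nat_lit 4253) (.e (nat_lit 24640) (nat_lit 10) (.e (nat_lit 344117) (nat_lit 21) (.e (nat_lit 516145) (nat_lit 9) (.e (nat_lit 426448) (nat_lit 20) (.e (nat_lit 114715) (nat_lit 22) (.e (nat_lit 90157) (nat_lit 11) .nil)))))) (.g (nat_lit 5) .nil .nil))) 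
(.lf (nat_lit 139499) (.g (nat_lit 2854) (.e (nat_lit 24640) (nat_lit 10) (.e (nat_lit 344117) (nat_lit 21) (.e (nat_lit 516179) (nat_lit 15) (.e (nat_lit 475214) (nat_lit 42) (.e (nat_lit 720941) (nat_lit 22) (.e (nat_lit 90160) (nat_lit 11) .nil)))))) (.g (nat_lit 4) .nil .nil)))) (.nd (nat_lit 5) 
(.lf (nat_lit 139483) (.g (nat_lit 3405) (.e (nat_lit 24640) (nat_lit 10) (.e (nat_lit 344117) (nat_lit 21) (.e (nat_lit 516147) (nat_lit 9) (.e (nat_lit 426448) (nat_lit 20) (.e (nat_lit 114714) (nat_lit 22) (.e (nat_lit 90158) (nat_lit 11) .nil)))))) (.g (nat_lit 0) .nil .nil))) 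
(.lf (nat_lit 139515) (.g (nat_lit 688) (.e (nat_lit 24640) (nat_lit 10) (.e (nat_lit 344126) (nat_lit 25) (.e (nat_lit 556800) (nat_lit 5) .nil))) .nil))))) (.nd (nat_lit 3) (.nd (nat_lit 4) (.nd (nat_lit 5) 
(.lf (nat_lit 139463) (.g (nat_lit 4023) (.e (nat_lit 24640) (nat_lit 10) (.e (nat_lit 344117) (nat_lit 21) (.e (nat_lit 516145) (nat_lit 9) (.e (nat_lit 426448) (nat_lit 20) (.e (nat_lit 114714) (nat_lit 22) (.e (nat_lit 90158) (nat_lit 11) .nil)))))) (.g (nat_lit 6) .nil .nil))) 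
(.lf (nat_lit 139495) (.g (nat_lit 3075) (.e (nat_lit 24640) (nat_lit 10) (.e (nat_lit 344117) (nat_lit 21) (.e (nat_lit 516179) (nat_lit 15) (.e (nat_lit 475214) (nat_lit 42) (.e (nat_lit 720938) (nat_lit 22) (.e (nat_lit 90160) (nat_lit 11) .nil)))))) (.g (nat_lit 6) .nil .nil)))) (.nd (nat_lit 5) 
(.lf (nat_lit 139479) (.g (nat_lit 3228) (.e (nat_lit 24640) (nat_lit 10) (.e (nat_lit 344117) (nat_lit 21) (.e (nat_lit 516145) (nat_lit 9) (.e (nat_lit 426449) (nat_lit 20) (.e (nat_lit 114716) (nat_lit 22) (.e (nat_lit 90158) (nat_lit 11) .nil)))))) (.g (nat_lit 5) .nil .nil))) 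
(.lf (nat_lit 139511) (.g (nat_lit 2259) (.e (nat_lit 24640) (nat_lit 10) (.e (nat_lit 344126) (nat_lit 25) (.e (nat_lit 548876) (nat_lit 5) (.e (nat_lit 1587) (nat_lit 111) .nil)))) .nil)))) (.nd (nat_lit 4) (.nd (nat_lit 5) 
(.lf (nat_lit 139471) (.g (nat_lit 2625) (.e (nat_lit 24640) (nat_lit 10) (.e (nat_lit 344117) (nat_lit 21) (.e (nat_lit 516145) (nat_lit 9) (.e (nat_lit 426448) (nat_lit 20) (.e (nat_lit 114716) (nat_lit 22) (.e (nat_lit 90156) (nat_lit 11) .nil)))))) (.g (nat_lit 4) .nil .nil))) 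
(.lf (nat_lit 139503) (.g (nat_lit 2682) (.e (nat_lit 24640) (nat_lit 10) (.e (nat_lit 344117) (nat_lit 21) (.e (nat_lit 524032) (nat_lit 33) (.e (nat_lit 401454) (nat_lit 12) (.e (nat_lit 483072) (nat_lit 2) .nil))))) (.g (nat_lit 4) .nil .nil)))) (.nd (nat_lit 5) 
(.lf (nat_lit 139487) (.g (nat_lit 3127) (.e (nat_lit 24640) (nat_lit 10) (.e (nat_lit 344117) (nat_lit 21) (.e (nat_lit 516151) (nat_lit 9) (.e (nat_lit 433920) (nat_lit 20) (.e (nat_lit 114714) (nat_lit 22) (.e (nat_lit 90157) (nat_lit 11) .nil)))))) (.g (nat_lit 5) .nil .nil))) 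
(.lf (nat_lit 139519) (.g (nat_lit 3680) (.e (nat_lit 24640) (nat_lit 10) (.e (nat_lit 344126) (nat_lit 25) (.e (nat_lit 548889) (nat_lit 9) (.e (nat_lit 65609) (nat_lit 10) (.e (nat_lit 344129) (nat_lit 26) .nil))))) .nil))))))))

noncomputable def tv1853 : DT := (.nd (nat_lit 0) (.nd (nat_lit 1) (.nd (nat_lit 2) (.nd (nat_lit 3) (.nd (nat_lit 4) (.nd (nat_lit 5) (.nd (nat_lit 6) 
(.lf (nat_lit 139520) (.g (nat_lit 3469) (.e (nat_lit 24640) (nat_lit 10) (.e (nat_lit 344126) (nat_lit 25) (.e (nat_lit 548889) (nat_lit 9) (.e (nat_lit 65611) (nat_lit 10) (.e (nat_lit 344129) (nat_lit 26) (.e (nat_lit 557087) (nat_lit 11) .nil)))))) (.g (nat_lit 4) .nil .nil))) 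
(.lf (nat_lit 139584) (.g (nat_lit 3367) (.e (nat_lit 24641) (nat_lit 10) (.e (nat_lit 344097) (nat_lit 18) (.e (nat_lit 7270) (nat_lit 385) (.e (nat_lit 122917) (nat_lit 15) (.e (nat_lit 360492) (nat_lit 22) .nil))))) .nil))) (.nd (nat_lit 6) 
(.lf (nat_lit 139552) (.g (nat_lit 1307) (.e (nat_lit 24640) (nat_lit 10) (.e (nat_lit 344177) (nat_lit 43) (.e (nat_lit 770055) (nat_lit 5) (.e (nat_lit 1589) (nat_lit 111) (.e (nat_lit 360492) (nat_lit 22) .nil))))) .nil)) 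
(.lf (nat_lit 139616) (.g (nat_lit 2207) (.e (nat_lit 24641) (nat_lit 10) (.e (nat_lit 344129) (nat_lit 26) (.e (nat_lit 557087) (nat_lit 11) (.e (nat_lit 24641) (nat_lit 10) .nil)))) .nil)))) (.nd (nat_lit 5) (.nd (nat_lit 6) 
(.lf (nat_lit 139536) (.g (nat_lit 4007) (.e (nat_lit 24640) (nat_lit 10) (.e (nat_lit 344129) (nat_lit 26) (.e (nat_lit 557087) (nat_lit 11) (.e (nat_lit 24640) (nat_lit 10) (.e (nat_lit 344133) (nat_lit 26) (.e (nat_lit 557087) (nat_lit 11) .nil)))))) (.g (nat_lit 6) .nil .nil))) 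
(.lf (nat_lit 139600) (.g (nat_lit 3105) (.e (nat_lit 24641) (nat_lit 10) (.e (nat_lit 344117) (nat_lit 21) (.e (nat_lit 516185) (nat_lit 16) (.e (nat_lit 491558) (nat_lit 10) (.e (nat_lit 344130) (nat_lit 26) (.e (nat_lit 557087) (nat_lit 11) .nil)))))) (.g (nat_lit 4) .nil .nil)))) (.nd (nat_lit 6) 
(.lf (nat_lit 139568) (.g (nat_lit 1587) (.e (nat_lit 24641) (nat_lit 10) (.e (nat_lit 344091) (nat_lit 18) (.e (nat_lit 7265) (nat_lit 384) (.e (nat_lit 57424) (nat_lit 14) (.e (nat_lit 352322) (nat_lit 26) .nil))))) .nil)) 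
(.lf (nat_lit 139632) (.g (nat_lit 1406) (.e (nat_lit 24642) (nat_lit 11) (.e (nat_lit 368662) (nat_lit 18) (.e (nat_lit 7273) (nat_lit 385) (.e (nat_lit 122916) (nat_lit 14) (.e (nat_lit 352324) (nat_lit 26) .nil))))) .nil))))) (.nd (nat_lit 4) (.nd (nat_lit 5) (.nd (nat_lit 6) 
(.lf (nat_lit 139528) (.g (nat_lit 3187) (.e (nat_lit 24640) (nat_lit 10) (.e (nat_lit 344126) (nat_lit 25) (.e (nat_lit 548891) (nat_lit 11) (.e (nat_lit 81939) (nat_lit 20) .nil)))) .nil)) 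
(.lf (nat_lit 139592) (.g (nat_lit 2664) (.e (nat_lit 24641) (nat_lit 10) (.e (nat_lit 344117) (nat_lit 21) (.e (nat_lit 516145) (nat_lit 9) (.e (nat_lit 426446) (nat_lit 20) .nil)))) .nil))) (.nd (nat_lit 6) 
(.lf (nat_lit 139560) (.g (nat_lit 1101) (.e (nat_lit 24640) (nat_lit 10) (.e (nat_lit 344177) (nat_lit 43) (.e (nat_lit 770074) (nat_lit 10) (.e (nat_lit 81963) (nat_lit 26) .nil)))) .nil)) 
(.lf (nat_lit 139624) (.g (nat_lit 2694) (.e (nat_lit 24641) (nat_lit 10) (.e (nat_lit 344177) (nat_lit 43) (.e (nat_lit 770074) (nat_lit 10) (.e (nat_lit 81963) (nat_lit 26) (.e (nat_lit 147496) (nat_lit 11) .nil))))) (.g (nat_lit 5) .nil .nil))))) (.nd (nat_lit 5) (.nd (nat_lit 6) 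
(.lf (nat_lit 139544) (.g (nat_lit 3147) (.e (nat_lit 24640) (nat_lit 10) (.e (nat_lit 344133) (nat_lit 26) (.e (nat_lit 557087) (nat_lit 11) (.e (nat_lit 24640) (nat_lit 10) (.e (nat_lit 344130) (nat_lit 26) .nil))))) .nil)) 
(.lf (nat_lit 139608) (.g (nat_lit 2886) (.e (nat_lit 24641) (nat_lit 10) (.e (nat_lit 344119) (nat_lit 21) (.e (nat_lit 516185) (nat_lit 16) (.e (nat_lit 491560) (nat_lit 10) (.e (nat_lit 344130) (nat_lit 26) (.e (nat_lit 557087) (nat_lit 11) .nil)))))) (.g (nat_lit 4) .nil .nil)))) (.nd (nat_lit 6) 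
(.lf (nat_lit 139576) (.g (nat_lit 2304) (.e (nat_lit 24641) (nat_lit 10) (.e (nat_lit 344096) (nat_lit 18) (.e (nat_lit 7236) (nat_lit 382) (.e (nat_lit 1221) (nat_lit 90) (.e (nat_lit 81965) (nat_lit 26) (.e (nat_lit 147492) (nat_lit 11) .nil)))))) (.g (nat_lit 4) .nil .nil))) 
(.lf (nat_lit 139640) (.g (nat_lit 1181) (.e (nat_lit 24642) (nat_lit 11) (.e (nat_lit 368676) (nat_lit 21) (.e (nat_lit 516179) (nat_lit 15) .nil))) .nil)))))) (.nd (nat_lit 3) (.nd (nat_lit 4) (.nd (nat_lit 5) (.nd (nat_lit 6) 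
(.lf (nat_lit 139524) (.g (nat_lit 2478) (.e (nat_lit 24640) (nat_lit 10) (.e (nat_lit 344126) (nat_lit 25) (.e (nat_lit 548889) (nat_lit 9) (.e (nat_lit 65617) (nat_lit 10) (.e (nat_lit 344132) (nat_lit 26) (.e (nat_lit 557085) (nat_lit 11) .nil)))))) (.g (nat_lit 4) .nil .nil))) 
(.lf (nat_lit 139588) (.g (nat_lit 2083) (.e (nat_lit 24641) (nat_lit 10) (.e (nat_lit 344100) (nat_lit 18) (.e (nat_lit 7270) (nat_lit 385) (.e (nat_lit 122916) (nat_lit 14) (.e (nat_lit 352322) (nat_lit 26) .nil))))) .nil))) (.nd (nat_lit 6) 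
(.lf (nat_lit 139556) (.g (nat_lit 364) (.e (nat_lit 24640) (nat_lit 10) (.e (nat_lit 344177) (nat_lit 43) (.e (nat_lit 770058) (nat_lit 5) .nil))) .nil)) 
(.lf (nat_lit 139620) (.g (nat_lit 3210) (.e (nat_lit 24641) (nat_lit 10) (.e (nat_lit 344133) (nat_lit 26) (.e (nat_lit 557087) (nat_lit 11) (.e (nat_lit 24640) (nat_lit 10) (.e (nat_lit 344130) (nat_lit 26) .nil))))) .nil)))) (.nd (nat_lit 5) (.nd (nat_lit 6) 
(.lf (nat_lit 139540) (.g (nat_lit 793) (.e (nat_lit 24640) (nat_lit 10) (.e (nat_lit 344133) (nat_lit 26) (.e (nat_lit 557073) (nat_lit 9) .nil))) .nil)) 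
(.lf (nat_lit 139604) (.g (nat_lit 2847) (.e (nat_lit 24641) (nat_lit 10) (.e (nat_lit 344119) (nat_lit 21) (.e (nat_lit 516147) (nat_lit 9) (.e (nat_lit 426446) (nat_lit 20) (.e (nat_lit 114714) (nat_lit 22) (.e (nat_lit 90160) (nat_lit 11) .nil)))))) (.g (nat_lit 6) .nil .nil)))) (.nd (nat_lit 6) 
(.lf (nat_lit 139572) (.g (nat_lit 2592) (.e (nat_lit 24641) (nat_lit 10) (.e (nat_lit 344096) (nat_lit 18) (.e (nat_lit 7122) (nat_lit 382) (.e (nat_lit 1222) (nat_lit 90) (.e (nat_lit 81963) (nat_lit 26) (.e (nat_lit 147496) (nat_lit 11) .nil)))))) (.g (nat_lit 4) .nil .nil))) 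
(.lf (nat_lit 139636) (.g (nat_lit 1337) (.e (nat_lit 24642) (nat_lit 11) (.e (nat_lit 368676) (nat_lit 21) (.e (nat_lit 516147) (nat_lit 9) (.e (nat_lit 426448) (nat_lit 20) .nil)))) .nil))))) (.nd (nat_lit 4) (.nd (nat_lit 5) (.nd (nat_lit 6) 
(.lf (nat_lit 139532) (.g (nat_lit 1432) (.e (nat_lit 24640) (nat_lit 10) (.e (nat_lit 344129) (nat_lit 26) (.e (nat_lit 557066) (nat_lit 9) (.e (nat_lit 322) (nat_lit 24) .nil)))) .nil)) 
(.lf (nat_lit 139596) (.g (nat_lit 1485) (.e (nat_lit 24641) (nat_lit 10) (.e (nat_lit 344117) (nat_lit 21) (.e (nat_lit 516147) (nat_lit 9) (.e (nat_lit 426448) (nat_lit 20) .nil)))) .nil))) (.nd (nat_lit 6) 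
(.lf (nat_lit 139564) (.g (nat_lit 2539) (.e (nat_lit 24640) (nat_lit 10) (.e (nat_lit 344177) (nat_lit 43) (.e (nat_lit 770074) (nat_lit 10) (.e (nat_lit 81965) (nat_lit 26) (.e (nat_lit 147493) (nat_lit 11) .nil))))) (.g (nat_lit 4) .nil .nil))) 
(.lf (nat_lit 139628) (.g (nat_lit 1305) (.e (nat_lit 32512) (nat_lit 10) (.e (nat_lit 344126) (nat_lit 25) (.e (nat_lit 548874) (nat_lit 5) (.e (nat_lit 1586) (nat_lit 111) .nil)))) .nil)))) (.nd (nat_lit 5) (.nd (nat_lit 6) 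
(.lf (nat_lit 139548) (.g (nat_lit 3120) (.e (nat_lit 24640) (nat_lit 10) (.e (nat_lit 344176) (nat_lit 43) (.e (nat_lit 770054) (nat_lit 5) (.e (nat_lit 1595) (nat_lit 111) (.e (nat_lit 360492) (nat_lit 22) (.e (nat_lit 778466) (nat_lit 11) .nil)))))) (.g (nat_lit 0) .nil .nil))) 
(.lf (nat_lit 139612) (.g (nat_lit 4241) (.e (nat_lit 24641) (nat_lit 10) (.e (nat_lit 344126) (nat_lit 25) (.e (nat_lit 548873) (nat_lit 5) (.e (nat_lit 1586) (nat_lit 111) (.e (nat_lit 360475) (nat_lit 8) (.e (nat_lit 557087) (nat_lit 11) .nil)))))) (.g (nat_lit 0) .nil .nil)))) (.nd (nat_lit 6) 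
(.lf (nat_lit 139580) (.g (nat_lit 1658) (.e (nat_lit 24641) (nat_lit 10) (.e (nat_lit 344096) (nat_lit 18) (.e (nat_lit 7265) (nat_lit 384) (.e (nat_lit 57427) (nat_lit 15) (.e (nat_lit 360492) (nat_lit 22) .nil))))) .nil)) 
(.lf (nat_lit 139644) (.g (nat_lit 2584) (.e (nat_lit 24642) (nat_lit 11) (.e (nat_lit 368676) (nat_lit 21) (.e (nat_lit 516185) (nat_lit 16) (.e (nat_lit 491558) (nat_lit 10) (.e (nat_lit 344130) (nat_lit 26) .nil))))) .nil))))))) (.nd (nat_lit 2) (.nd (nat_lit 3) (.nd (nat_lit 4) (.nd (nat_lit 5) (.nd (nat_lit 6) 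
(.lf (nat_lit 139522) (.g (nat_lit 3442) (.e (nat_lit 24640) (nat_lit 10) (.e (nat_lit 344126) (nat_lit 25) (.e (nat_lit 548889) (nat_lit 9) (.e (nat_lit 65611) (nat_lit 10) (.e (nat_lit 344133) (nat_lit 26) (.e (nat_lit 557087) (nat_lit 11) .nil)))))) (.g (nat_lit 4) .nil .nil))) 
(.lf (nat_lit 139586) (.g (nat_lit 3221) (.e (nat_lit 24641) (nat_lit 10) (.e (nat_lit 344097) (nat_lit 18) (.e (nat_lit 7270) (nat_lit 385) (.e (nat_lit 122919) (nat_lit 15) (.e (nat_lit 360492) (nat_lit 22) .nil))))) .nil))) (.nd (nat_lit 6) 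
(.lf (nat_lit 139554) (.g (nat_lit 442) (.e (nat_lit 24640) (nat_lit 10) (.e (nat_lit 344177) (nat_lit 43) (.e (nat_lit 770057) (nat_lit 5) .nil))) .nil)) 
(.lf (nat_lit 139618) (.g (nat_lit 1674) (.e (nat_lit 24641) (nat_lit 10) (.e (nat_lit 344133) (nat_lit 26) (.e (nat_lit 557065) (nat_lit 9) (.e (nat_lit 321) (nat_lit 24) .nil)))) .nil)))) (.nd (nat_lit 5) (.nd (nat_lit 6) 
(.lf (nat_lit 139538) (.g (nat_lit 599) (.e (nat_lit 24640) (nat_lit 10) (.e (nat_lit 344132) (nat_lit 26) (.e (nat_lit 557087) (nat_lit 11) .nil))) .nil)) 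
(.lf (nat_lit 139602) (.g (nat_lit 949) (.e (nat_lit 24641) (nat_lit 10) (.e (nat_lit 344119) (nat_lit 21) (.e (nat_lit 516098) (nat_lit 0) (.e (nat_lit 7495) (nat_lit 402) .nil)))) .nil))) (.nd (nat_lit 6) 
(.lf (nat_lit 139570) (.g (nat_lit 1274) (.e (nat_lit 24641) (nat_lit 10) (.e (nat_lit 344091) (nat_lit 18) (.e (nat_lit 7265) (nat_lit 384) (.e (nat_lit 57426) (nat_lit 15) (.e (nat_lit 360491) (nat_lit 22) .nil))))) .nil)) 
(.lf (nat_lit 139634) (.g (nat_lit 1071) (.e (nat_lit 24642) (nat_lit 11) (.e (nat_lit 368676) (nat_lit 21) (.e (nat_lit 516146) (nat_lit 9) .nil))) .nil))))) (.nd (nat_lit 4) (.nd (nat_lit 5) (.nd (nat_lit 6) 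
(.lf (nat_lit 139530) (.g (nat_lit 3444) (.e (nat_lit 24640) (nat_lit 10) (.e (nat_lit 344126) (nat_lit 25) (.e (nat_lit 548891) (nat_lit 11) (.e (nat_lit 81946) (nat_lit 20) .nil)))) .nil)) 
(.lf (nat_lit 139594) (.g (nat_lit 2686) (.e (nat_lit 24641) (nat_lit 10) (.e (nat_lit 344117) (nat_lit 21) (.e (nat_lit 516145) (nat_lit 9) (.e (nat_lit 426449) (nat_lit 20) .nil)))) .nil))) (.nd (nat_lit 6) 
(.lf (nat_lit 139562) (.g (nat_lit 3191) (.e (nat_lit 24640) (nat_lit 10) (.e (nat_lit 344177) (nat_lit 43) (.e (nat_lit 770074) (nat_lit 10) (.e (nat_lit 81963) (nat_lit 26) (.e (nat_lit 147496) (nat_lit 11) .nil))))) (.g (nat_lit 0) .nil .nil))) 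
(.lf (nat_lit 139626) (.g (nat_lit 3594) (.e (nat_lit 24641) (nat_lit 10) (.e (nat_lit 344177) (nat_lit 43) (.e (nat_lit 770074) (nat_lit 10) (.e (nat_lit 81965) (nat_lit 26) (.e (nat_lit 147496) (nat_lit 11) .nil))))) (.g (nat_lit 0) .nil .nil))))) (.nd (nat_lit 5) (.nd (nat_lit 6) 
(.lf (nat_lit 139546) (.g (nat_lit 379) (.e (nat_lit 24640) (nat_lit 10) (.e (nat_lit 344168) (nat_lit 40) (.e (nat_lit 671763) (nat_lit 5) .nil))) .nil)) 
(.lf (nat_lit 139610) (.g (nat_lit 3095) (.e (nat_lit 24641) (nat_lit 10) (.e (nat_lit 344119) (nat_lit 21) (.e (nat_lit 516185) (nat_lit 16) (.e (nat_lit 491560) (nat_lit 10) (.e (nat_lit 344133) (nat_lit 26) (.e (nat_lit 557087) (nat_lit 11) .nil)))))) (.g (nat_lit 4) .nil .nil)))) (.nd (nat_lit 6) 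
(.lf (nat_lit 139578) (.g (nat_lit 1601) (.e (nat_lit 24641) (nat_lit 10) (.e (nat_lit 344096) (nat_lit 18) (.e (nat_lit 7265) (nat_lit 384) (.e (nat_lit 57424) (nat_lit 14) (.e (nat_lit 352322) (nat_lit 26) .nil))))) .nil)) 
(.lf (nat_lit 139642) (.g (nat_lit 1045) (.e (nat_lit 24642) (nat_lit 11) (.e (nat_lit 368676) (nat_lit 21) (.e (nat_lit 516181) (nat_lit 15) .nil))) .nil)))))) (.nd (nat_lit 3) (.nd (nat_lit 4) (.nd (nat_lit 5) (.nd (nat_lit 6) 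
(.lf (nat_lit 139526) (.g (nat_lit 688) (.e (nat_lit 24640) (nat_lit 10) (.e (nat_lit 344126) (nat_lit 25) (.e (nat_lit 556800) (nat_lit 9) .nil))) .nil)) 
(.lf (nat_lit 139590) (.g (nat_lit 1624) (.e (nat_lit 24641) (nat_lit 10) (.e (nat_lit 344100) (nat_lit 18) (.e (nat_lit 7270) (nat_lit 385) (.e (nat_lit 122918) (nat_lit 15) (.e (nat_lit 360491) (nat_lit 22) .nil))))) .nil))) (.nd (nat_lit 6) 
(.lf (nat_lit 139558) (.g (nat_lit 2640) (.e (nat_lit 24640) (nat_lit 10) (.e (nat_lit 344177) (nat_lit 43) (.e (nat_lit 770058) (nat_lit 5) (.e (nat_lit 1598) (nat_lit 111) (.e (nat_lit 360491) (nat_lit 22) (.e (nat_lit 778465) (nat_lit 11) .nil)))))) (.g (nat_lit 0) .nil .nil))) 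
(.lf (nat_lit 139622) (.g (nat_lit 3174) (.e (nat_lit 24641) (nat_lit 10) (.e (nat_lit 344133) (nat_lit 26) (.e (nat_lit 557087) (nat_lit 11) (.e (nat_lit 24641) (nat_lit 10) (.e (nat_lit 344130) (nat_lit 26) (.e (nat_lit 557087) (nat_lit 11) .nil)))))) (.g (nat_lit 4) .nil .nil))))) (.nd (nat_lit 5) (.nd (nat_lit 6) 
(.lf (nat_lit 139542) (.g (nat_lit 843) (.e (nat_lit 24640) (nat_lit 10) (.e (nat_lit 344133) (nat_lit 26) (.e (nat_lit 557086) (nat_lit 11) .nil))) .nil)) 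
(.lf (nat_lit 139606) (.g (nat_lit 3085) (.e (nat_lit 24641) (nat_lit 10) (.e (nat_lit 344119) (nat_lit 21) (.e (nat_lit 516147) (nat_lit 9) (.e (nat_lit 426448) (nat_lit 20) (.e (nat_lit 114714) (nat_lit 22) (.e (nat_lit 90160) (nat_lit 11) .nil)))))) (.g (nat_lit 0) .nil .nil)))) (.nd (nat_lit 6) 
(.lf (nat_lit 139574) (.g (nat_lit 3227) (.e (nat_lit 24641) (nat_lit 10) (.e (nat_lit 344096) (nat_lit 18) (.e (nat_lit 7125) (nat_lit 382) (.e (nat_lit 1222) (nat_lit 90) (.e (nat_lit 81965) (nat_lit 26) (.e (nat_lit 147496) (nat_lit 11) .nil)))))) (.g (nat_lit 5) .nil .nil))) 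
(.lf (nat_lit 139638) (.g (nat_lit 1532) (.e (nat_lit 24642) (nat_lit 11) (.e (nat_lit 368676) (nat_lit 21) (.e (nat_lit 516148) (nat_lit 9) (.e (nat_lit 426448) (nat_lit 20) .nil)))) .nil))))) (.nd (nat_lit 4) (.nd (nat_lit 5) (.nd (nat_lit 6) 
(.lf (nat_lit 139534) (.g (nat_lit 440) (.e (nat_lit 24640) (nat_lit 10) (.e (nat_lit 344129) (nat_lit 26) (.e (nat_lit 557087) (nat_lit 11) .nil))) .nil)) 
(.lf (nat_lit 139598) (.g (nat_lit 3502) (.e (nat_lit 24641) (nat_lit 10) (.e (nat_lit 344117) (nat_lit 21) (.e (nat_lit 516151) (nat_lit 9) (.e (nat_lit 433920) (nat_lit 20) .nil)))) .nil))) (.nd (nat_lit 6) 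
(.lf (nat_lit 139566) (.g (nat_lit 1375) (.e (nat_lit 24640) (nat_lit 10) (.e (nat_lit 344179) (nat_lit 44) (.e (nat_lit 778361) (nat_lit 9) (.e (nat_lit 314) (nat_lit 23) .nil)))) .nil)) 
(.lf (nat_lit 139630) (.g (nat_lit 2215) (.e (nat_lit 24642) (nat_lit 11) (.e (nat_lit 368662) (nat_lit 18) (.e (nat_lit 7271) (nat_lit 385) (.e (nat_lit 122919) (nat_lit 15) (.e (nat_lit 360491) (nat_lit 22) .nil))))) .nil)))) (.nd (nat_lit 5) (.nd (nat_lit 6) 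
(.lf (nat_lit 139550) (.g (nat_lit 3398) (.e (nat_lit 24640) (nat_lit 10) (.e (nat_lit 344176) (nat_lit 43) (.e (nat_lit 770074) (nat_lit 10) (.e (nat_lit 81963) (nat_lit 26) (.e (nat_lit 147496) (nat_lit 11) .nil))))) (.g (nat_lit 0) .nil .nil))) 
(.lf (nat_lit 139614) (.g (nat_lit 652) (.e (nat_lit 24641) (nat_lit 10) (.e (nat_lit 344129) (nat_lit 26) (.e (nat_lit 557065) (nat_lit 9) .nil))) .nil))) (.nd (nat_lit 6) 
(.lf (nat_lit 139582) (.g (nat_lit 2123) (.e (nat_lit 24641) (nat_lit 10) (.e (nat_lit 344097) (nat_lit 18) (.e (nat_lit 7270) (nat_lit 385) (.e (nat_lit 122916) (nat_lit 14) .nil)))) .nil)) 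
(.lf (nat_lit 139646) (.g (nat_lit 332) (.e (nat_lit 24643) (nat_lit 11) (.e (nat_lit 368662) (nat_lit 18) (.e (nat_lit 7147) (nat_lit 382) .nil))) .nil)))))))) (.nd (nat_lit 1) (.nd (nat_lit 2) (.nd (nat_lit 3) (.nd (nat_lit 4) (.nd (nat_lit 5) (.nd (nat_lit 6) 
(.lf (nat_lit 139521) (.g (nat_lit 3402) (.e (nat_lit 24640) (nat_lit 10) (.e (nat_lit 344126) (nat_lit 25) (.e (nat_lit 548889) (nat_lit 9) (.e (nat_lit 65611) (nat_lit 10) (.e (nat_lit 344130) (nat_lit 26) (.e (nat_lit 557087) (nat_lit 11) .nil)))))) (.g (nat_lit 4) .nil .nil))) 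
(.lf (nat_lit 139585) (.g (nat_lit 3323) (.e (nat_lit 24641) (nat_lit 10) (.e (nat_lit 344097) (nat_lit 18) (.e (nat_lit 7270) (nat_lit 385) (.e (nat_lit 122919) (nat_lit 15) (.e (nat_lit 360491) (nat_lit 22) .nil))))) .nil))) (.nd (nat_lit 6) 
(.lf (nat_lit 139553) (.g (nat_lit 804) (.e (nat_lit 24640) (nat_lit 10) (.e (nat_lit 344177) (nat_lit 43) (.e (nat_lit 770056) (nat_lit 5) (.e (nat_lit 1586) (nat_lit 111) .nil)))) .nil)) 
(.lf (nat_lit 139617) (.g (nat_lit 2506) (.e (nat_lit 24641) (nat_lit 10) (.e (nat_lit 344130) (nat_lit 26) (.e (nat_lit 557087) (nat_lit 11) (.e (nat_lit 24640) (nat_lit 10) (.e (nat_lit 344130) (nat_lit 26) .nil))))) .nil)))) (.nd (nat_lit 5) (.nd (nat_lit 6) 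
(.lf (nat_lit 139537) (.g (nat_lit 470) (.e (nat_lit 24640) (nat_lit 10) (.e (nat_lit 344132) (nat_lit 26) (.e (nat_lit 557072) (nat_lit 9) .nil))) .nil)) 
(.lf (nat_lit 139601) (.g (nat_lit 2392) (.e (nat_lit 24641) (nat_lit 10) (.e (nat_lit 344117) (nat_lit 21) (.e (nat_lit 516185) (nat_lit 16) (.e (nat_lit 491560) (nat_lit 10) (.e (nat_lit 344130) (nat_lit 26) .nil))))) .nil))) (.nd (nat_lit 6) 
(.lf (nat_lit 139569) (.g (nat_lit 1518) (.e (nat_lit 24641) (nat_lit 10) (.e (nat_lit 344091) (nat_lit 18) (.e (nat_lit 7265) (nat_lit 384) (.e (nat_lit 57424) (nat_lit 14) (.e (nat_lit 352323) (nat_lit 26) .nil))))) .nil)) 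
(.lf (nat_lit 139633) (.g (nat_lit 1094) (.e (nat_lit 24642) (nat_lit 11) (.e (nat_lit 368676) (nat_lit 21) (.e (nat_lit 516097) (nat_lit 0) .nil))) .nil))))) (.nd (nat_lit 4) (.nd (nat_lit 5) (.nd (nat_lit 6) 
(.lf (nat_lit 139529) (.g (nat_lit 3246) (.e (nat_lit 24640) (nat_lit 10) (.e (nat_lit 344126) (nat_lit 25) (.e (nat_lit 548891) (nat_lit 11) (.e (nat_lit 81942) (nat_lit 20) .nil)))) .nil)) 
(.lf (nat_lit 139593) (.g (nat_lit 2628) (.e (nat_lit 24641) (nat_lit 10) (.e (nat_lit 344117) (nat_lit 21) (.e (nat_lit 516145) (nat_lit 9) (.e (nat_lit 426448) (nat_lit 20) .nil)))) .nil))) (.nd (nat_lit 6) 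
(.lf (nat_lit 139561) (.g (nat_lit 3257) (.e (nat_lit 24640) (nat_lit 10) (.e (nat_lit 344177) (nat_lit 43) (.e (nat_lit 770074) (nat_lit 10) (.e (nat_lit 81963) (nat_lit 26) (.e (nat_lit 147495) (nat_lit 11) .nil))))) (.g (nat_lit 0) .nil .nil))) 
(.lf (nat_lit 139625) (.g (nat_lit 2509) (.e (nat_lit 24641) (nat_lit 10) (.e (nat_lit 344177) (nat_lit 43) (.e (nat_lit 770074) (nat_lit 10) (.e (nat_lit 81965) (nat_lit 26) (.e (nat_lit 147495) (nat_lit 11) .nil))))) (.g (nat_lit 4) .nil .nil))))) (.nd (nat_lit 5) (.nd (nat_lit 6) 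
(.lf (nat_lit 139545) (.g (nat_lit 3397) (.e (nat_lit 24640) (nat_lit 10) (.e (nat_lit 344133) (nat_lit 26) (.e (nat_lit 557087) (nat_lit 11) (.e (nat_lit 24641) (nat_lit 10) (.e (nat_lit 344130) (nat_lit 26) (.e (nat_lit 557087) (nat_lit 11) .nil)))))) (.g (nat_lit 4) .nil .nil))) 
(.lf (nat_lit 139609) (.g (nat_lit 2545) (.e (nat_lit 24641) (nat_lit 10) (.e (nat_lit 344119) (nat_lit 21) (.e (nat_lit 516185) (nat_lit 16) (.e (nat_lit 491560) (nat_lit 10) (.e (nat_lit 344131) (nat_lit 26) (.e (nat_lit 557087) (nat_lit 11) .nil)))))) (.g (nat_lit 4) .nil .nil)))) (.nd (nat_lit 6) 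
(.lf (nat_lit 139577) (.g (nat_lit 1556) (.e (nat_lit 24641) (nat_lit 10) (.e (nat_lit 344096) (nat_lit 18) (.e (nat_lit 7263) (nat_lit 384) (.e (nat_lit 57427) (nat_lit 15) (.e (nat_lit 360492) (nat_lit 22) .nil))))) .nil)) 
(.lf (nat_lit 139641) (.g (nat_lit 872) (.e (nat_lit 24642) (nat_lit 11) (.e (nat_lit 368676) (nat_lit 21) (.e (nat_lit 516180) (nat_lit 15) .nil))) .nil)))))) (.nd (nat_lit 3) (.nd (nat_lit 4) (.nd (nat_lit 5) (.nd (nat_lit 6) 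
(.lf (nat_lit 139525) (.g (nat_lit 3881) (.e (nat_lit 24640) (nat_lit 10) (.e (nat_lit 344126) (nat_lit 25) (.e (nat_lit 548889) (nat_lit 9) (.e (nat_lit 65620) (nat_lit 10) (.e (nat_lit 344129) (nat_lit 26) (.e (nat_lit 557087) (nat_lit 11) .nil)))))) (.g (nat_lit 4) .nil .nil))) 
(.lf (nat_lit 139589) (.g (nat_lit 1910) (.e (nat_lit 24641) (nat_lit 10) (.e (nat_lit 344100) (nat_lit 18) (.e (nat_lit 7270) (nat_lit 385) (.e (nat_lit 122916) (nat_lit 14) (.e (nat_lit 352324) (nat_lit 26) .nil))))) .nil))) (.nd (nat_lit 6) 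
(.lf (nat_lit 139557) (.g (nat_lit 1525) (.e (nat_lit 24640) (nat_lit 10) (.e (nat_lit 344177) (nat_lit 43) (.e (nat_lit 770058) (nat_lit 5) (.e (nat_lit 1589) (nat_lit 111) (.e (nat_lit 360491) (nat_lit 22) .nil))))) .nil)) 
(.lf (nat_lit 139621) (.g (nat_lit 3393) (.e (nat_lit 24641) (nat_lit 10) (.e (nat_lit 344133) (nat_lit 26) (.e (nat_lit 557087) (nat_lit 11) (.e (nat_lit 24640) (nat_lit 10) (.e (nat_lit 344133) (nat_lit 26) (.e (nat_lit 557087) (nat_lit 11) .nil)))))) (.g (nat_lit 4) .nil .nil))))) (.nd (nat_lit 5) (.nd (nat_lit 6) 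
(.lf (nat_lit 139541) (.g (nat_lit 940) (.e (nat_lit 24640) (nat_lit 10) (.e (nat_lit 344133) (nat_lit 26) (.e (nat_lit 557074) (nat_lit 9) .nil))) .nil)) 
(.lf (nat_lit 139605) (.g (nat_lit 1278) (.e (nat_lit 24641) (nat_lit 10) (.e (nat_lit 344119) (nat_lit 21) (.e (nat_lit 516147) (nat_lit 9) (.e (nat_lit 426446) (nat_lit 20) (.e (nat_lit 114716) (nat_lit 22) (.e (nat_lit 90157) (nat_lit 11) .nil)))))) (.g (nat_lit 4) .nil .nil)))) (.nd (nat_lit 6) 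
(.lf (nat_lit 139573) (.g (nat_lit 2296) (.e (nat_lit 24641) (nat_lit 10) (.e (nat_lit 344096) (nat_lit 18) (.e (nat_lit 7125) (nat_lit 382) (.e (nat_lit 1222) (nat_lit 90) (.e (nat_lit 81963) (nat_lit 26) (.e (nat_lit 147495) (nat_lit 11) .nil)))))) (.g (nat_lit 4) .nil .nil))) 
(.lf (nat_lit 139637) (.g (nat_lit 1044) (.e (nat_lit 24642) (nat_lit 11) (.e (nat_lit 368676) (nat_lit 21) (.e (nat_lit 516148) (nat_lit 9) .nil))) .nil))))) (.nd (nat_lit 4) (.nd (nat_lit 5) (.nd (nat_lit 6) 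
(.lf (nat_lit 139533) (.g (nat_lit 1033) (.e (nat_lit 24640) (nat_lit 10) (.e (nat_lit 344129) (nat_lit 26) (.e (nat_lit 557066) (nat_lit 9) (.e (nat_lit 324) (nat_lit 24) .nil)))) .nil)) 
(.lf (nat_lit 139597) (.g (nat_lit 2371) (.e (nat_lit 24641) (nat_lit 10) (.e (nat_lit 344117) (nat_lit 21) (.e (nat_lit 516147) (nat_lit 9) (.e (nat_lit 426448) (nat_lit 20) (.e (nat_lit 114714) (nat_lit 22) (.e (nat_lit 90160) (nat_lit 11) .nil)))))) (.g (nat_lit 4) .nil .nil)))) (.nd (nat_lit 6) 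
(.lf (nat_lit 139565) (.g (nat_lit 2575) (.e (nat_lit 24640) (nat_lit 10) (.e (nat_lit 344177) (nat_lit 43) (.e (nat_lit 770074) (nat_lit 10) (.e (nat_lit 81965) (nat_lit 26) (.e (nat_lit 147494) (nat_lit 11) .nil))))) (.g (nat_lit 4) .nil .nil))) 
(.lf (nat_lit 139629) (.g (nat_lit 1329) (.e (nat_lit 32512) (nat_lit 10) (.e (nat_lit 344126) (nat_lit 25) (.e (nat_lit 548874) (nat_lit 5) (.e (nat_lit 1598) (nat_lit 111) .nil)))) .nil)))) (.nd (nat_lit 5) (.nd (nat_lit 6) 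
(.lf (nat_lit 139549) (.g (nat_lit 2910) (.e (nat_lit 24640) (nat_lit 10) (.e (nat_lit 344176) (nat_lit 43) (.e (nat_lit 770058) (nat_lit 5) (.e (nat_lit 1598) (nat_lit 111) (.e (nat_lit 360491) (nat_lit 22) (.e (nat_lit 778466) (nat_lit 11) .nil)))))) (.g (nat_lit 0) .nil .nil))) 
(.lf (nat_lit 139613) (.g (nat_lit 326) (.e (nat_lit 24641) (nat_lit 10) (.e (nat_lit 344126) (nat_lit 25) (.e (nat_lit 548889) (nat_lit 9) .nil))) .nil))) (.nd (nat_lit 6) 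
(.lf (nat_lit 139581) (.g (nat_lit 2154) (.e (nat_lit 24641) (nat_lit 10) (.e (nat_lit 344096) (nat_lit 18) (.e (nat_lit 7266) (nat_lit 384) (.e (nat_lit 57427) (nat_lit 15) (.e (nat_lit 360492) (nat_lit 22) (.e (nat_lit 778466) (nat_lit 11) .nil)))))) (.g (nat_lit 4) .nil .nil))) 
(.lf (nat_lit 139645) (.g (nat_lit 1602) (.e (nat_lit 24642) (nat_lit 11) (.e (nat_lit 368676) (nat_lit 21) (.e (nat_lit 524032) (nat_lit 33) (.e (nat_lit 401454) (nat_lit 12) (.e (nat_lit 483072) (nat_lit 2) .nil))))) (.g (nat_lit 4) .nil .nil)))))))) (.nd (nat_lit 2) (.nd (nat_lit 3) (.nd (nat_lit 4) (.nd (nat_lit 5) (.nd (nat_lit 6) 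
(.lf (nat_lit 139523) (.g (nat_lit 2303) (.e (nat_lit 24640) (nat_lit 10) (.e (nat_lit 344126) (nat_lit 25) (.e (nat_lit 548889) (nat_lit 9) (.e (nat_lit 65617) (nat_lit 10) (.e (nat_lit 344130) (nat_lit 26) (.e (nat_lit 557085) (nat_lit 11) .nil)))))) (.g (nat_lit 4) .nil .nil))) 
(.lf (nat_lit 139587) (.g (nat_lit 656) (.e (nat_lit 24641) (nat_lit 10) (.e (nat_lit 344097) (nat_lit 18) (.e (nat_lit 7273) (nat_lit 385) .nil))) .nil))) (.nd (nat_lit 6) 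
(.lf (nat_lit 139555) (.g (nat_lit 1676) (.e (nat_lit 24640) (nat_lit 10) (.e (nat_lit 344177) (nat_lit 43) (.e (nat_lit 770057) (nat_lit 5) (.e (nat_lit 1589) (nat_lit 111) (.e (nat_lit 360491) (nat_lit 22) .nil))))) .nil)) 
(.lf (nat_lit 139619) (.g (nat_lit 754) (.e (nat_lit 24641) (nat_lit 10) (.e (nat_lit 344133) (nat_lit 26) (.e (nat_lit 557086) (nat_lit 11) .nil))) .nil)))) (.nd (nat_lit 5) (.nd (nat_lit 6) 
(.lf (nat_lit 139539) (.g (nat_lit 2049) (.e (nat_lit 24640) (nat_lit 10) (.e (nat_lit 344133) (nat_lit 26) (.e (nat_lit 557065) (nat_lit 9) (.e (nat_lit 321) (nat_lit 24) (.e (nat_lit 360473) (nat_lit 8) .nil))))) .nil)) 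
(.lf (nat_lit 139603) (.g (nat_lit 2273) (.e (nat_lit 24641) (nat_lit 10) (.e (nat_lit 344119) (nat_lit 21) (.e (nat_lit 516146) (nat_lit 9) (.e (nat_lit 426448) (nat_lit 20) (.e (nat_lit 114714) (nat_lit 22) (.e (nat_lit 90160) (nat_lit 11) .nil)))))) (.g (nat_lit 4) .nil .nil)))) (.nd (nat_lit 6) 
(.lf (nat_lit 139571) (.g (nat_lit 2026) (.e (nat_lit 24641) (nat_lit 10) (.e (nat_lit 344091) (nat_lit 18) (.e (nat_lit 7265) (nat_lit 384) (.e (nat_lit 57427) (nat_lit 15) (.e (nat_lit 360492) (nat_lit 22) (.e (nat_lit 778466) (nat_lit 11) .nil)))))) (.g (nat_lit 4) .nil .nil))) 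
(.lf (nat_lit 139635) (.g (nat_lit 872) (.e (nat_lit 24642) (nat_lit 11) (.e (nat_lit 368676) (nat_lit 21) (.e (nat_lit 516147) (nat_lit 9) .nil))) .nil))))) (.nd (nat_lit 4) (.nd (nat_lit 5) (.nd (nat_lit 6) 
(.lf (nat_lit 139531) (.g (nat_lit 869) (.e (nat_lit 24640) (nat_lit 10) (.e (nat_lit 344129) (nat_lit 26) (.e (nat_lit 557064) (nat_lit 9) .nil))) .nil)) 
(.lf (nat_lit 139595) (.g (nat_lit 978) (.e (nat_lit 24641) (nat_lit 10) (.e (nat_lit 344117) (nat_lit 21) (.e (nat_lit 516147) (nat_lit 9) .nil))) .nil))) (.nd (nat_lit 6) 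
(.lf (nat_lit 139563) (.g (nat_lit 2817) (.e (nat_lit 24640) (nat_lit 10) (.e (nat_lit 344177) (nat_lit 43) (.e (nat_lit 770074) (nat_lit 10) (.e (nat_lit 81965) (nat_lit 26) (.e (nat_lit 147492) (nat_lit 11) .nil))))) (.g (nat_lit 4) .nil .nil))) 
(.lf (nat_lit 139627) (.g (nat_lit 1857) (.e (nat_lit 24641) (nat_lit 10) (.e (nat_lit 344180) (nat_lit 44) (.e (nat_lit 778466) (nat_lit 11) (.e (nat_lit 24584) (nat_lit 0) (.e (nat_lit 6097) (nat_lit 332) .nil))))) .nil)))) (.nd (nat_lit 5) (.nd (nat_lit 6) 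
(.lf (nat_lit 139547) (.g (nat_lit 609) (.e (nat_lit 24640) (nat_lit 10) (.e (nat_lit 344169) (nat_lit 40) (.e (nat_lit 671763) (nat_lit 5) .nil))) .nil)) 
(.lf (nat_lit 139611) (.g (nat_lit 1083) (.e (nat_lit 24641) (nat_lit 10) (.e (nat_lit 344123) (nat_lit 24) (.e (nat_lit 540724) (nat_lit 28) (.e (nat_lit 442376) (nat_lit 0) (.e (nat_lit 7936) (nat_lit 359) .nil))))) (.g (nat_lit 4) .nil .nil)))) (.nd (nat_lit 6) 
(.lf (nat_lit 139579) (.g (nat_lit 1459) (.e (nat_lit 24641) (nat_lit 10) (.e (nat_lit 344096) (nat_lit 18) (.e (nat_lit 7265) (nat_lit 384) (.e (nat_lit 57424) (nat_lit 14) (.e (nat_lit 352324) (nat_lit 26) .nil))))) .nil)) 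
(.lf (nat_lit 139643) (.g (nat_lit 1198) (.e (nat_lit 24642) (nat_lit 11) (.e (nat_lit 368676) (nat_lit 21) (.e (nat_lit 516182) (nat_lit 15) .nil))) .nil)))))) (.nd (nat_lit 3) (.nd (nat_lit 4) (.nd (nat_lit 5) (.nd (nat_lit 6) 
(.lf (nat_lit 139527) (.g (nat_lit 440) (.e (nat_lit 24640) (nat_lit 10) (.e (nat_lit 344126) (nat_lit 25) (.e (nat_lit 548891) (nat_lit 11) .nil))) .nil)) 
(.lf (nat_lit 139591) (.g (nat_lit 995) (.e (nat_lit 24641) (nat_lit 10) (.e (nat_lit 344117) (nat_lit 21) (.e (nat_lit 516099) (nat_lit 0) .nil))) .nil))) (.nd (nat_lit 6) 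
(.lf (nat_lit 139559) (.g (nat_lit 1041) (.e (nat_lit 24640) (nat_lit 10) (.e (nat_lit 344177) (nat_lit 43) (.e (nat_lit 770071) (nat_lit 8) (.e (nat_lit 65598) (nat_lit 9) .nil)))) .nil)) 
(.lf (nat_lit 139623) (.g (nat_lit 2978) (.e (nat_lit 24641) (nat_lit 10) (.e (nat_lit 344133) (nat_lit 26) (.e (nat_lit 557087) (nat_lit 11) (.e (nat_lit 24641) (nat_lit 10) (.e (nat_lit 344133) (nat_lit 26) (.e (nat_lit 557087) (nat_lit 11) .nil)))))) (.g (nat_lit 4) .nil .nil))))) (.nd (nat_lit 5) (.nd (nat_lit 6) 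
(.lf (nat_lit 139543) (.g (nat_lit 1306) (.e (nat_lit 24640) (nat_lit 10) (.e (nat_lit 344133) (nat_lit 26) (.e (nat_lit 557087) (nat_lit 11) (.e (nat_lit 24640) (nat_lit 10) .nil)))) .nil)) 
(.lf (nat_lit 139607) (.g (nat_lit 2600) (.e (nat_lit 24641) (nat_lit 10) (.e (nat_lit 344119) (nat_lit 21) (.e (nat_lit 516180) (nat_lit 15) (.e (nat_lit 475212) (nat_lit 42) (.e (nat_lit 720937) (nat_lit 22) (.e (nat_lit 90160) (nat_lit 11) .nil)))))) (.g (nat_lit 6) .nil .nil)))) (.nd (nat_lit 6) 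
(.lf (nat_lit 139575) (.g (nat_lit 1565) (.e (nat_lit 24641) (nat_lit 10) (.e (nat_lit 344096) (nat_lit 18) (.e (nat_lit 7125) (nat_lit 382) (.e (nat_lit 1223) (nat_lit 90) (.e (nat_lit 81965) (nat_lit 26) .nil))))) .nil)) 
(.lf (nat_lit 139639) (.g (nat_lit 832) (.e (nat_lit 24642) (nat_lit 11) (.e (nat_lit 368676) (nat_lit 21) (.e (nat_lit 516150) (nat_lit 9) .nil))) .nil))))) (.nd (nat_lit 4) (.nd (nat_lit 5) (.nd (nat_lit 6) 
(.lf (nat_lit 139535) (.g (nat_lit 2300) (.e (nat_lit 24640) (nat_lit 10) (.e (nat_lit 344129) (nat_lit 26) (.e (nat_lit 557087) (nat_lit 11) (.e (nat_lit 24640) (nat_lit 10) (.e (nat_lit 344130) (nat_lit 26) (.e (nat_lit 557087) (nat_lit 11) .nil)))))) (.g (nat_lit 4) .nil .nil))) 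
(.lf (nat_lit 139599) (.g (nat_lit 3450) (.e (nat_lit 24641) (nat_lit 10) (.e (nat_lit 344117) (nat_lit 21) (.e (nat_lit 516185) (nat_lit 16) (.e (nat_lit 491558) (nat_lit 10) (.e (nat_lit 344129) (nat_lit 26) (.e (nat_lit 557087) (nat_lit 11) .nil)))))) (.g (nat_lit 5) .nil .nil)))) (.nd (nat_lit 6) 
(.lf (nat_lit 139567) (.g (nat_lit 2529) (.e (nat_lit 24641) (nat_lit 10) (.e (nat_lit 344091) (nat_lit 18) (.e (nat_lit 7236) (nat_lit 382) (.e (nat_lit 1221) (nat_lit 90) (.e (nat_lit 81965) (nat_lit 26) (.e (nat_lit 147492) (nat_lit 11) .nil)))))) (.g (nat_lit 5) .nil .nil))) 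
(.lf (nat_lit 139631) (.g (nat_lit 1026) (.e (nat_lit 24642) (nat_lit 11) (.e (nat_lit 368662) (nat_lit 18) (.e (nat_lit 7272) (nat_lit 385) (.e (nat_lit 122918) (nat_lit 15) .nil)))) .nil)))) (.nd (nat_lit 5) (.nd (nat_lit 6) 
(.lf (nat_lit 139551) (.g (nat_lit 3939) (.e (nat_lit 24640) (nat_lit 10) (.e (nat_lit 344176) (nat_lit 43) (.e (nat_lit 770074) (nat_lit 10) (.e (nat_lit 81965) (nat_lit 26) (.e (nat_lit 147496) (nat_lit 11) .nil))))) (.g (nat_lit 0) .nil .nil))) 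
(.lf (nat_lit 139615) (.g (nat_lit 2898) (.e (nat_lit 24641) (nat_lit 10) (.e (nat_lit 344129) (nat_lit 26) (.e (nat_lit 557087) (nat_lit 11) (.e (nat_lit 24640) (nat_lit 10) (.e (nat_lit 344129) (nat_lit 26) (.e (nat_lit 557087) (nat_lit 11) .nil)))))) (.g (nat_lit 4) .nil .nil)))) (.nd (nat_lit 6) 
(.lf (nat_lit 139583) (.g (nat_lit 3110) (.e (nat_lit 24641) (nat_lit 10) (.e (nat_lit 344097) (nat_lit 18) (.e (nat_lit 7270) (nat_lit 385) (.e (nat_lit 122917) (nat_lit 15) (.e (nat_lit 360491) (nat_lit 22) .nil))))) .nil)) 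
(.lf (nat_lit 139647) (.g (nat_lit 2250) (.e (nat_lit 24643) (nat_lit 11) (.e (nat_lit 368662) (nat_lit 18) (.e (nat_lit 7147) (nat_lit 382) (.e (nat_lit 1216) (nat_lit 90) (.e (nat_lit 81965) (nat_lit 26) (.e (nat_lit 147495) (nat_lit 11) .nil)))))) (.g (nat_lit 0) .nil .nil))))))))))

noncomputable def tv1854 : DT := (.nd (nat_lit 0) (.nd (nat_lit 1) (.nd (nat_lit 2) (.nd (nat_lit 3) (.nd (nat_lit 4) (.nd (nat_lit 5) 
(.lf (nat_lit 139648) (.g (nat_lit 2369) (.e (nat_lit 24643) (nat_lit 11) (.e (nat_lit 368662) (nat_lit 18) (.e (nat_lit 7147) (nat_lit 382) (.e (nat_lit 1217) (nat_lit 90) (.e (nat_lit 81963) (nat_lit 26) (.e (nat_lit 147495) (nat_lit 11) .nil)))))) (.g (nat_lit 6) .nil .nil))) 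
(.lf (nat_lit 139680) (.g (nat_lit 3240) (.e (nat_lit 24643) (nat_lit 11) (.e (nat_lit 368676) (nat_lit 21) (.e (nat_lit 516146) (nat_lit 9) (.e (nat_lit 426448) (nat_lit 20) (.e (nat_lit 114714) (nat_lit 22) (.e (nat_lit 90158) (nat_lit 11) .nil)))))) (.g (nat_lit 0) .nil .nil)))) (.nd (nat_lit 5) 
(.lf (nat_lit 139664) (.g (nat_lit 2426) (.e (nat_lit 24643) (nat_lit 11) (.e (nat_lit 368676) (nat_lit 21) (.e (nat_lit 516144) (nat_lit 9) (.e (nat_lit 426446) (nat_lit 20) (.e (nat_lit 114714) (nat_lit 22) (.e (nat_lit 90160) (nat_lit 11) .nil)))))) (.g (nat_lit 6) .nil .nil))) 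
(.lf (nat_lit 139696) (.g (nat_lit 2709) (.e (nat_lit 24643) (nat_lit 11) (.e (nat_lit 368676) (nat_lit 21) (.e (nat_lit 516148) (nat_lit 9) (.e (nat_lit 426448) (nat_lit 20) (.e (nat_lit 114714) (nat_lit 22) (.e (nat_lit 90160) (nat_lit 11) .nil)))))) (.g (nat_lit 0) .nil .nil))))) (.nd (nat_lit 4) (.nd (nat_lit 5) 
(.lf (nat_lit 139656) (.g (nat_lit 906) (.e (nat_lit 24643) (nat_lit 11) (.e (nat_lit 368676) (nat_lit 21) (.e (nat_lit 516097) (nat_lit 0) (.e (nat_lit 7591) (nat_lit 407) .nil)))) .nil)) 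
(.lf (nat_lit 139688) (.g (nat_lit 2076) (.e (nat_lit 24643) (nat_lit 11) (.e (nat_lit 368676) (nat_lit 21) (.e (nat_lit 516147) (nat_lit 9) (.e (nat_lit 426446) (nat_lit 20) (.e (nat_lit 114716) (nat_lit 22) (.e (nat_lit 90160) (nat_lit 11) .nil)))))) (.g (nat_lit 0) .nil .nil)))) (.nd (nat_lit 5) 
(.lf (nat_lit 139672) (.g (nat_lit 1219) (.e (nat_lit 24643) (nat_lit 11) (.e (nat_lit 368676) (nat_lit 21) (.e (nat_lit 516146) (nat_lit 9) (.e (nat_lit 426361) (nat_lit 15) .nil)))) .nil)) 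
(.lf (nat_lit 139704) (.g (nat_lit 2777) (.e (nat_lit 24643) (nat_lit 11) (.e (nat_lit 368676) (nat_lit 21) (.e (nat_lit 516150) (nat_lit 9) (.e (nat_lit 426448) (nat_lit 20) (.e (nat_lit 114714) (nat_lit 22) (.e (nat_lit 90160) (nat_lit 11) .nil)))))) (.g (nat_lit 0) .nil .nil)))))) (.nd (nat_lit 3) (.nd (nat_lit 4) (.nd (nat_lit 5) 
(.lf (nat_lit 139652) (.g (nat_lit 1862) (.e (nat_lit 24643) (nat_lit 11) (.e (nat_lit 368662) (nat_lit 18) (.e (nat_lit 7271) (nat_lit 385) (.e (nat_lit 122919) (nat_lit 15) (.e (nat_lit 360491) (nat_lit 22) .nil))))) .nil)) 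
(.lf (nat_lit 139684) (.g (nat_lit 2619) (.e (nat_lit 24643) (nat_lit 11) (.e (nat_lit 368676) (nat_lit 21) (.e (nat_lit 516146) (nat_lit 9) (.e (nat_lit 426449) (nat_lit 20) (.e (nat_lit 114716) (nat_lit 22) (.e (nat_lit 90158) (nat_lit 11) .nil)))))) (.g (nat_lit 0) .nil .nil)))) (.nd (nat_lit 5) 
(.lf (nat_lit 139668) (.g (nat_lit 3242) (.e (nat_lit 24643) (nat_lit 11) (.e (nat_lit 368676) (nat_lit 21) (.e (nat_lit 516145) (nat_lit 9) (.e (nat_lit 426448) (nat_lit 20) (.e (nat_lit 114714) (nat_lit 22) (.e (nat_lit 90158) (nat_lit 11) .nil)))))) (.g (nat_lit 5) .nil .nil))) 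
(.lf (nat_lit 139700) (.g (nat_lit 2893) (.e (nat_lit 24643) (nat_lit 11) (.e (nat_lit 368676) (nat_lit 21) (.e (nat_lit 516149) (nat_lit 9) (.e (nat_lit 426448) (nat_lit 20) (.e (nat_lit 114714) (nat_lit 22) (.e (nat_lit 90160) (nat_lit 11) .nil)))))) (.g (nat_lit 0) .nil .nil))))) (.nd (nat_lit 4) (.nd (nat_lit 5) 
(.lf (nat_lit 139660) (.g (nat_lit 1982) (.e (nat_lit 24643) (nat_lit 11) (.e (nat_lit 368676) (nat_lit 21) (.e (nat_lit 516143) (nat_lit 9) (.e (nat_lit 426448) (nat_lit 20) (.e (nat_lit 114714) (nat_lit 22) (.e (nat_lit 90158) (nat_lit 11) .nil)))))) (.g (nat_lit 4) .nil .nil))) 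
(.lf (nat_lit 139692) (.g (nat_lit 2163) (.e (nat_lit 24643) (nat_lit 11) (.e (nat_lit 368676) (nat_lit 21) (.e (nat_lit 516147) (nat_lit 9) (.e (nat_lit 426448) (nat_lit 20) (.e (nat_lit 114716) (nat_lit 22) (.e (nat_lit 90160) (nat_lit 11) .nil)))))) (.g (nat_lit 0) .nil .nil)))) (.nd (nat_lit 5) 
(.lf (nat_lit 139676) (.g (nat_lit 1144) (.e (nat_lit 24643) (nat_lit 11) (.e (nat_lit 368676) (nat_lit 21) (.e (nat_lit 516146) (nat_lit 9) (.e (nat_lit 426446) (nat_lit 20) .nil)))) .nil)) 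
(.lf (nat_lit 139708) (.g (nat_lit 2309) (.e (nat_lit 24643) (nat_lit 11) (.e (nat_lit 368676) (nat_lit 21) (.e (nat_lit 516151) (nat_lit 9) (.e (nat_lit 433920) (nat_lit 20) .nil)))) .nil)))))) (.nd (nat_lit 2) (.nd (nat_lit 3) (.nd (nat_lit 4) (.nd (nat_lit 5) 
(.lf (nat_lit 139650) (.g (nat_lit 1535) (.e (nat_lit 24643) (nat_lit 11) (.e (nat_lit 368662) (nat_lit 18) (.e (nat_lit 7271) (nat_lit 385) (.e (nat_lit 122917) (nat_lit 15) (.e (nat_lit 360491) (nat_lit 22) .nil))))) .nil)) 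
(.lf (nat_lit 139682) (.g (nat_lit 2940) (.e (nat_lit 24643) (nat_lit 11) (.e (nat_lit 368676) (nat_lit 21) (.e (nat_lit 516146) (nat_lit 9) (.e (nat_lit 426448) (nat_lit 20) (.e (nat_lit 114716) (nat_lit 22) (.e (nat_lit 90158) (nat_lit 11) .nil)))))) (.g (nat_lit 0) .nil .nil)))) (.nd (nat_lit 5) 
(.lf (nat_lit 139666) (.g (nat_lit 2216) (.e (nat_lit 24643) (nat_lit 11) (.e (nat_lit 368676) (nat_lit 21) (.e (nat_lit 516144) (nat_lit 9) (.e (nat_lit 426446) (nat_lit 20) (.e (nat_lit 114716) (nat_lit 22) (.e (nat_lit 90160) (nat_lit 11) .nil)))))) (.g (nat_lit 0) .nil .nil))) 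
(.lf (nat_lit 139698) (.g (nat_lit 2370) (.e (nat_lit 24643) (nat_lit 11) (.e (nat_lit 368676) (nat_lit 21) (.e (nat_lit 516148) (nat_lit 9) (.e (nat_lit 426448) (nat_lit 20) (.e (nat_lit 114716) (nat_lit 22) (.e (nat_lit 90158) (nat_lit 11) .nil)))))) (.g (nat_lit 0) .nil .nil))))) (.nd (nat_lit 4) (.nd (nat_lit 5) 
(.lf (nat_lit 139658) (.g (nat_lit 872) (.e (nat_lit 24643) (nat_lit 11) (.e (nat_lit 368676) (nat_lit 21) (.e (nat_lit 516108) (nat_lit 0) .nil))) .nil)) 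
(.lf (nat_lit 139690) (.g (nat_lit 2457) (.e (nat_lit 24643) (nat_lit 11) (.e (nat_lit 368676) (nat_lit 21) (.e (nat_lit 516147) (nat_lit 9) (.e (nat_lit 426448) (nat_lit 20) (.e (nat_lit 114714) (nat_lit 22) (.e (nat_lit 90160) (nat_lit 11) .nil)))))) (.g (nat_lit 0) .nil .nil)))) (.nd (nat_lit 5) 
(.lf (nat_lit 139674) (.g (nat_lit 1256) (.e (nat_lit 24643) (nat_lit 11) (.e (nat_lit 368676) (nat_lit 21) (.e (nat_lit 516146) (nat_lit 9) (.e (nat_lit 426440) (nat_lit 19) .nil)))) .nil)) 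
(.lf (nat_lit 139706) (.g (nat_lit 2456) (.e (nat_lit 24643) (nat_lit 11) (.e (nat_lit 368676) (nat_lit 21) (.e (nat_lit 516150) (nat_lit 9) (.e (nat_lit 426448) (nat_lit 20) (.e (nat_lit 114716) (nat_lit 22) (.e (nat_lit 90160) (nat_lit 11) .nil)))))) (.g (nat_lit 0) .nil .nil)))))) (.nd (nat_lit 3) (.nd (nat_lit 4) (.nd (nat_lit 5) 
(.lf (nat_lit 139654) (.g (nat_lit 1371) (.e (nat_lit 24643) (nat_lit 11) (.e (nat_lit 368662) (nat_lit 18) (.e (nat_lit 7272) (nat_lit 385) (.e (nat_lit 122916) (nat_lit 14) (.e (nat_lit 352323) (nat_lit 26) .nil))))) .nil)) 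
(.lf (nat_lit 139686) (.g (nat_lit 2295) (.e (nat_lit 24643) (nat_lit 11) (.e (nat_lit 368676) (nat_lit 21) (.e (nat_lit 516147) (nat_lit 9) (.e (nat_lit 426446) (nat_lit 20) (.e (nat_lit 114714) (nat_lit 22) (.e (nat_lit 90160) (nat_lit 11) .nil)))))) (.g (nat_lit 0) .nil .nil)))) (.nd (nat_lit 5) 
(.lf (nat_lit 139670) (.g (nat_lit 398) (.e (nat_lit 24643) (nat_lit 11) (.e (nat_lit 368676) (nat_lit 21) (.e (nat_lit 516146) (nat_lit 9) .nil))) .nil)) 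
(.lf (nat_lit 139702) (.g (nat_lit 1417) (.e (nat_lit 24643) (nat_lit 11) (.e (nat_lit 368676) (nat_lit 21) (.e (nat_lit 516150) (nat_lit 9) (.e (nat_lit 426360) (nat_lit 15) .nil)))) .nil)))) (.nd (nat_lit 4) (.nd (nat_lit 5) 
(.lf (nat_lit 139662) (.g (nat_lit 1936) (.e (nat_lit 24643) (nat_lit 11) (.e (nat_lit 368676) (nat_lit 21) (.e (nat_lit 516143) (nat_lit 9) (.e (nat_lit 426448) (nat_lit 20) (.e (nat_lit 114716) (nat_lit 22) .nil))))) .nil)) 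
(.lf (nat_lit 139694) (.g (nat_lit 2213) (.e (nat_lit 24643) (nat_lit 11) (.e (nat_lit 368676) (nat_lit 21) (.e (nat_lit 516148) (nat_lit 9) (.e (nat_lit 426446) (nat_lit 20) (.e (nat_lit 114714) (nat_lit 22) (.e (nat_lit 90158) (nat_lit 11) .nil)))))) (.g (nat_lit 5) .nil .nil)))) (.nd (nat_lit 5) 
(.lf (nat_lit 139678) (.g (nat_lit 2480) (.e (nat_lit 24643) (nat_lit 11) (.e (nat_lit 368676) (nat_lit 21) (.e (nat_lit 516146) (nat_lit 9) (.e (nat_lit 426446) (nat_lit 20) (.e (nat_lit 114716) (nat_lit 22) (.e (nat_lit 90158) (nat_lit 11) .nil)))))) (.g (nat_lit 0) .nil .nil))) 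
(.lf (nat_lit 139710) (.g (nat_lit 551) (.e (nat_lit 24643) (nat_lit 11) (.e (nat_lit 368676) (nat_lit 21) (.e (nat_lit 516171) (nat_lit 13) .nil))) .nil))))))) (.nd (nat_lit 1) (.nd (nat_lit 2) (.nd (nat_lit 3) (.nd (nat_lit 4) (.nd (nat_lit 5) 
(.lf (nat_lit 139649) (.g (nat_lit 589) (.e (nat_lit 24643) (nat_lit 11) (.e (nat_lit 368662) (nat_lit 18) (.e (nat_lit 7160) (nat_lit 382) .nil))) .nil)) 
(.lf (nat_lit 139681) (.g (nat_lit 3269) (.e (nat_lit 24643) (nat_lit 11) (.e (nat_lit 368676) (nat_lit 21) (.e (nat_lit 516146) (nat_lit 9) (.e (nat_lit 426448) (nat_lit 20) (.e (nat_lit 114714) (nat_lit 22) (.e (nat_lit 90160) (nat_lit 11) .nil)))))) (.g (nat_lit 0) .nil .nil)))) (.nd (nat_lit 5) 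
(.lf (nat_lit 139665) (.g (nat_lit 2057) (.e (nat_lit 24643) (nat_lit 11) (.e (nat_lit 368676) (nat_lit 21) (.e (nat_lit 516144) (nat_lit 9) (.e (nat_lit 426446) (nat_lit 20) (.e (nat_lit 114716) (nat_lit 22) (.e (nat_lit 90158) (nat_lit 11) .nil)))))) (.g (nat_lit 0) .nil .nil))) 
(.lf (nat_lit 139697) (.g (nat_lit 1753) (.e (nat_lit 24643) (nat_lit 11) (.e (nat_lit 368676) (nat_lit 21) (.e (nat_lit 516148) (nat_lit 9) (.e (nat_lit 426448) (nat_lit 20) (.e (nat_lit 114715) (nat_lit 22) (.e (nat_lit 90158) (nat_lit 11) .nil)))))) (.g (nat_lit 4) .nil .nil))))) (.nd (nat_lit 4) (.nd (nat_lit 5) 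
(.lf (nat_lit 139657) (.g (nat_lit 678) (.e (nat_lit 24643) (nat_lit 11) (.e (nat_lit 368676) (nat_lit 21) (.e (nat_lit 516098) (nat_lit 0) (.e (nat_lit 7593) (nat_lit 407) .nil)))) .nil)) 
(.lf (nat_lit 139689) (.g (nat_lit 2448) (.e (nat_lit 24643) (nat_lit 11) (.e (nat_lit 368676) (nat_lit 21) (.e (nat_lit 516147) (nat_lit 9) (.e (nat_lit 426448) (nat_lit 20) (.e (nat_lit 114714) (nat_lit 22) (.e (nat_lit 90158) (nat_lit 11) .nil)))))) (.g (nat_lit 0) .nil .nil)))) (.nd (nat_lit 5) 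
(.lf (nat_lit 139673) (.g (nat_lit 1482) (.e (nat_lit 24643) (nat_lit 11) (.e (nat_lit 368676) (nat_lit 21) (.e (nat_lit 516146) (nat_lit 9) (.e (nat_lit 426361) (nat_lit 15) (.e (nat_lit 2190) (nat_lit 144) .nil))))) .nil)) 
(.lf (nat_lit 139705) (.g (nat_lit 2439) (.e (nat_lit 24643) (nat_lit 11) (.e (nat_lit 368676) (nat_lit 21) (.e (nat_lit 516150) (nat_lit 9) (.e (nat_lit 426448) (nat_lit 20) (.e (nat_lit 114716) (nat_lit 22) (.e (nat_lit 90158) (nat_lit 11) .nil)))))) (.g (nat_lit 0) .nil .nil)))))) (.nd (nat_lit 3) (.nd (nat_lit 4) (.nd (nat_lit 5) 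
(.lf (nat_lit 139653) (.g (nat_lit 1883) (.e (nat_lit 24643) (nat_lit 11) (.e (nat_lit 368662) (nat_lit 18) (.e (nat_lit 7271) (nat_lit 385) (.e (nat_lit 122919) (nat_lit 15) (.e (nat_lit 360492) (nat_lit 22) .nil))))) .nil)) 
(.lf (nat_lit 139685) (.g (nat_lit 2594) (.e (nat_lit 24643) (nat_lit 11) (.e (nat_lit 368676) (nat_lit 21) (.e (nat_lit 516146) (nat_lit 9) (.e (nat_lit 426449) (nat_lit 20) (.e (nat_lit 114716) (nat_lit 22) (.e (nat_lit 90160) (nat_lit 11) .nil)))))) (.g (nat_lit 0) .nil .nil)))) (.nd (nat_lit 5) 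
(.lf (nat_lit 139669) (.g (nat_lit 3278) (.e (nat_lit 24643) (nat_lit 11) (.e (nat_lit 368676) (nat_lit 21) (.e (nat_lit 516145) (nat_lit 9) (.e (nat_lit 426448) (nat_lit 20) (.e (nat_lit 114714) (nat_lit 22) (.e (nat_lit 90160) (nat_lit 11) .nil)))))) (.g (nat_lit 5) .nil .nil))) 
(.lf (nat_lit 139701) (.g (nat_lit 2625) (.e (nat_lit 24643) (nat_lit 11) (.e (nat_lit 368676) (nat_lit 21) (.e (nat_lit 516149) (nat_lit 9) (.e (nat_lit 426448) (nat_lit 20) (.e (nat_lit 114716) (nat_lit 22) (.e (nat_lit 90158) (nat_lit 11) .nil)))))) (.g (nat_lit 0) .nil .nil))))) (.nd (nat_lit 4) (.nd (nat_lit 5) 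
(.lf (nat_lit 139661) (.g (nat_lit 2037) (.e (nat_lit 24643) (nat_lit 11) (.e (nat_lit 368676) (nat_lit 21) (.e (nat_lit 516143) (nat_lit 9) (.e (nat_lit 426448) (nat_lit 20) (.e (nat_lit 114714) (nat_lit 22) (.e (nat_lit 90160) (nat_lit 11) .nil)))))) (.g (nat_lit 4) .nil .nil))) 
(.lf (nat_lit 139693) (.g (nat_lit 1595) (.e (nat_lit 24643) (nat_lit 11) (.e (nat_lit 368676) (nat_lit 21) (.e (nat_lit 516148) (nat_lit 9) (.e (nat_lit 426444) (nat_lit 19) (.e (nat_lit 106504) (nat_lit 9) .nil))))) .nil))) (.nd (nat_lit 5) 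
(.lf (nat_lit 139677) (.g (nat_lit 2864) (.e (nat_lit 24643) (nat_lit 11) (.e (nat_lit 368676) (nat_lit 21) (.e (nat_lit 516146) (nat_lit 9) (.e (nat_lit 426446) (nat_lit 20) (.e (nat_lit 114714) (nat_lit 22) (.e (nat_lit 90160) (nat_lit 11) .nil)))))) (.g (nat_lit 0) .nil .nil))) 
(.lf (nat_lit 139709) (.g (nat_lit 872) (.e (nat_lit 24643) (nat_lit 11) (.e (nat_lit 368676) (nat_lit 21) (.e (nat_lit 516156) (nat_lit 9) .nil))) .nil)))))) (.nd (nat_lit 2) (.nd (nat_lit 3) (.nd (nat_lit 4) (.nd (nat_lit 5) 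
(.lf (nat_lit 139651) (.g (nat_lit 1562) (.e (nat_lit 24643) (nat_lit 11) (.e (nat_lit 368662) (nat_lit 18) (.e (nat_lit 7271) (nat_lit 385) (.e (nat_lit 122917) (nat_lit 15) (.e (nat_lit 360492) (nat_lit 22) .nil))))) .nil)) 
(.lf (nat_lit 139683) (.g (nat_lit 2965) (.e (nat_lit 24643) (nat_lit 11) (.e (nat_lit 368676) (nat_lit 21) (.e (nat_lit 516146) (nat_lit 9) (.e (nat_lit 426448) (nat_lit 20) (.e (nat_lit 114716) (nat_lit 22) (.e (nat_lit 90160) (nat_lit 11) .nil)))))) (.g (nat_lit 0) .nil .nil)))) (.nd (nat_lit 5) 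
(.lf (nat_lit 139667) (.g (nat_lit 2494) (.e (nat_lit 24643) (nat_lit 11) (.e (nat_lit 368676) (nat_lit 21) (.e (nat_lit 516145) (nat_lit 9) (.e (nat_lit 426446) (nat_lit 20) (.e (nat_lit 114716) (nat_lit 22) (.e (nat_lit 90158) (nat_lit 11) .nil)))))) (.g (nat_lit 6) .nil .nil))) 
(.lf (nat_lit 139699) (.g (nat_lit 2396) (.e (nat_lit 24643) (nat_lit 11) (.e (nat_lit 368676) (nat_lit 21) (.e (nat_lit 516148) (nat_lit 9) (.e (nat_lit 426448) (nat_lit 20) (.e (nat_lit 114716) (nat_lit 22) (.e (nat_lit 90160) (nat_lit 11) .nil)))))) (.g (nat_lit 0) .nil .nil))))) (.nd (nat_lit 4) (.nd (nat_lit 5) 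
(.lf (nat_lit 139659) (.g (nat_lit 872) (.e (nat_lit 24643) (nat_lit 11) (.e (nat_lit 368676) (nat_lit 21) (.e (nat_lit 516143) (nat_lit 9) .nil))) .nil)) 
(.lf (nat_lit 139691) (.g (nat_lit 2139) (.e (nat_lit 24643) (nat_lit 11) (.e (nat_lit 368676) (nat_lit 21) (.e (nat_lit 516147) (nat_lit 9) (.e (nat_lit 426448) (nat_lit 20) (.e (nat_lit 114716) (nat_lit 22) (.e (nat_lit 90158) (nat_lit 11) .nil)))))) (.g (nat_lit 0) .nil .nil)))) (.nd (nat_lit 5) 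
(.lf (nat_lit 139675) (.g (nat_lit 1502) (.e (nat_lit 24643) (nat_lit 11) (.e (nat_lit 368676) (nat_lit 21) (.e (nat_lit 516146) (nat_lit 9) (.e (nat_lit 426444) (nat_lit 19) (.e (nat_lit 106504) (nat_lit 9) .nil))))) .nil)) 
(.lf (nat_lit 139707) (.g (nat_lit 1708) (.e (nat_lit 24643) (nat_lit 11) (.e (nat_lit 368676) (nat_lit 21) (.e (nat_lit 516150) (nat_lit 9) (.e (nat_lit 426449) (nat_lit 20) (.e (nat_lit 114714) (nat_lit 22) (.e (nat_lit 90158) (nat_lit 11) .nil)))))) (.g (nat_lit 4) .nil .nil)))))) (.nd (nat_lit 3) (.nd (nat_lit 4) (.nd (nat_lit 5) 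
(.lf (nat_lit 139655) (.g (nat_lit 347) (.e (nat_lit 24643) (nat_lit 11) (.e (nat_lit 368662) (nat_lit 18) (.e (nat_lit 7273) (nat_lit 385) .nil))) .nil)) 
(.lf (nat_lit 139687) (.g (nat_lit 1919) (.e (nat_lit 24643) (nat_lit 11) (.e (nat_lit 368676) (nat_lit 21) (.e (nat_lit 516147) (nat_lit 9) (.e (nat_lit 426446) (nat_lit 20) (.e (nat_lit 114716) (nat_lit 22) (.e (nat_lit 90158) (nat_lit 11) .nil)))))) (.g (nat_lit 0) .nil .nil)))) (.nd (nat_lit 5) 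
(.lf (nat_lit 139671) (.g (nat_lit 1148) (.e (nat_lit 24643) (nat_lit 11) (.e (nat_lit 368676) (nat_lit 21) (.e (nat_lit 516146) (nat_lit 9) (.e (nat_lit 426360) (nat_lit 15) .nil)))) .nil)) 
(.lf (nat_lit 139703) (.g (nat_lit 2746) (.e (nat_lit 24643) (nat_lit 11) (.e (nat_lit 368676) (nat_lit 21) (.e (nat_lit 516150) (nat_lit 9) (.e (nat_lit 426448) (nat_lit 20) (.e (nat_lit 114714) (nat_lit 22) (.e (nat_lit 90158) (nat_lit 11) .nil)))))) (.g (nat_lit 0) .nil .nil))))) (.nd (nat_lit 4) (.nd (nat_lit 5) 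
(.lf (nat_lit 139663) (.g (nat_lit 1117) (.e (nat_lit 24643) (nat_lit 11) (.e (nat_lit 368676) (nat_lit 21) (.e (nat_lit 516143) (nat_lit 9) (.e (nat_lit 433920) (nat_lit 20) .nil)))) .nil)) 
(.lf (nat_lit 139695) (.g (nat_lit 2676) (.e (nat_lit 24643) (nat_lit 11) (.e (nat_lit 368676) (nat_lit 21) (.e (nat_lit 516148) (nat_lit 9) (.e (nat_lit 426448) (nat_lit 20) (.e (nat_lit 114714) (nat_lit 22) (.e (nat_lit 90158) (nat_lit 11) .nil)))))) (.g (nat_lit 0) .nil .nil)))) (.nd (nat_lit 5) 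
(.lf (nat_lit 139679) (.g (nat_lit 2647) (.e (nat_lit 24643) (nat_lit 11) (.e (nat_lit 368676) (nat_lit 21) (.e (nat_lit 516146) (nat_lit 9) (.e (nat_lit 426446) (nat_lit 20) (.e (nat_lit 114716) (nat_lit 22) (.e (nat_lit 90160) (nat_lit 11) .nil)))))) (.g (nat_lit 0) .nil .nil))) 
(.lf (nat_lit 139711) (.g (nat_lit 872) (.e (nat_lit 24643) (nat_lit 11) (.e (nat_lit 368676) (nat_lit 21) (.e (nat_lit 516178) (nat_lit 15) .nil))) .nil))))))))

noncomputable def tv1855 : DT := (.nd (nat_lit 0) (.nd (nat_lit 1) (.nd (nat_lit 2) (.nd (nat_lit 3) (.nd (nat_lit 4) (.nd (nat_lit 5) 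
(.lf (nat_lit 139712) (.g (nat_lit 1108) (.e (nat_lit 24643) (nat_lit 11) (.e (nat_lit 368676) (nat_lit 21) (.e (nat_lit 516178) (nat_lit 15) (.e (nat_lit 475212) (nat_lit 42) .nil)))) .nil)) 
(.lf (nat_lit 139744) (.g (nat_lit 2154) (.e (nat_lit 24643) (nat_lit 11) (.e (nat_lit 368676) (nat_lit 21) (.e (nat_lit 516180) (nat_lit 15) (.e (nat_lit 475214) (nat_lit 42) (.e (nat_lit 720937) (nat_lit 22) (.e (nat_lit 90160) (nat_lit 11) .nil)))))) (.g (nat_lit 0) .nil .nil)))) (.nd (nat_lit 5) 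
(.lf (nat_lit 139728) (.g (nat_lit 1172) (.e (nat_lit 24643) (nat_lit 11) (.e (nat_lit 368676) (nat_lit 21) (.e (nat_lit 516179) (nat_lit 15) (.e (nat_lit 475213) (nat_lit 42) .nil)))) .nil)) 
(.lf (nat_lit 139760) (.g (nat_lit 2106) (.e (nat_lit 24643) (nat_lit 11) (.e (nat_lit 368676) (nat_lit 21) (.e (nat_lit 516182) (nat_lit 15) (.e (nat_lit 475214) (nat_lit 42) (.e (nat_lit 720937) (nat_lit 22) (.e (nat_lit 90158) (nat_lit 11) .nil)))))) (.g (nat_lit 0) .nil .nil))))) (.nd (nat_lit 4) (.nd (nat_lit 5) 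
(.lf (nat_lit 139720) (.g (nat_lit 1993) (.e (nat_lit 24643) (nat_lit 11) (.e (nat_lit 368676) (nat_lit 21) (.e (nat_lit 516179) (nat_lit 15) (.e (nat_lit 475199) (nat_lit 40) (.e (nat_lit 704617) (nat_lit 9) .nil))))) .nil)) 
(.lf (nat_lit 139752) (.g (nat_lit 2239) (.e (nat_lit 24643) (nat_lit 11) (.e (nat_lit 368676) (nat_lit 21) (.e (nat_lit 516181) (nat_lit 15) (.e (nat_lit 475214) (nat_lit 42) (.e (nat_lit 720937) (nat_lit 22) (.e (nat_lit 90158) (nat_lit 11) .nil)))))) (.g (nat_lit 0) .nil .nil)))) (.nd (nat_lit 5) 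
(.lf (nat_lit 139736) (.g (nat_lit 3304) (.e (nat_lit 24643) (nat_lit 11) (.e (nat_lit 368676) (nat_lit 21) (.e (nat_lit 516179) (nat_lit 15) (.e (nat_lit 475214) (nat_lit 42) (.e (nat_lit 720941) (nat_lit 22) (.e (nat_lit 90160) (nat_lit 11) .nil)))))) (.g (nat_lit 0) .nil .nil))) 
(.lf (nat_lit 139768) (.g (nat_lit 594) (.e (nat_lit 24644) (nat_lit 11) (.e (nat_lit 368662) (nat_lit 18) (.e (nat_lit 7160) (nat_lit 382) .nil))) .nil))))) (.nd (nat_lit 3) (.nd (nat_lit 4) (.nd (nat_lit 5) 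
(.lf (nat_lit 139716) (.g (nat_lit 1320) (.e (nat_lit 24643) (nat_lit 11) (.e (nat_lit 368676) (nat_lit 21) (.e (nat_lit 516179) (nat_lit 15) (.e (nat_lit 475195) (nat_lit 40) .nil)))) .nil)) 
(.lf (nat_lit 139748) (.g (nat_lit 418) (.e (nat_lit 24643) (nat_lit 11) (.e (nat_lit 368676) (nat_lit 21) (.e (nat_lit 516181) (nat_lit 15) .nil))) .nil))) (.nd (nat_lit 5) 
(.lf (nat_lit 139732) (.g (nat_lit 2717) (.e (nat_lit 24643) (nat_lit 11) (.e (nat_lit 368676) (nat_lit 21) (.e (nat_lit 516179) (nat_lit 15) (.e (nat_lit 475214) (nat_lit 42) (.e (nat_lit 720937) (nat_lit 22) (.e (nat_lit 90160) (nat_lit 11) .nil)))))) (.g (nat_lit 0) .nil .nil))) 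
(.lf (nat_lit 139764) (.g (nat_lit 1435) (.e (nat_lit 24643) (nat_lit 11) (.e (nat_lit 368676) (nat_lit 21) (.e (nat_lit 516182) (nat_lit 15) (.e (nat_lit 475214) (nat_lit 42) (.e (nat_lit 720939) (nat_lit 22) .nil))))) .nil)))) (.nd (nat_lit 4) (.nd (nat_lit 5) 
(.lf (nat_lit 139724) (.g (nat_lit 2549) (.e (nat_lit 24643) (nat_lit 11) (.e (nat_lit 368676) (nat_lit 21) (.e (nat_lit 516179) (nat_lit 15) (.e (nat_lit 475212) (nat_lit 42) (.e (nat_lit 720937) (nat_lit 22) (.e (nat_lit 90160) (nat_lit 11) .nil)))))) (.g (nat_lit 0) .nil .nil))) 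
(.lf (nat_lit 139756) (.g (nat_lit 1957) (.e (nat_lit 24643) (nat_lit 11) (.e (nat_lit 368676) (nat_lit 21) (.e (nat_lit 516181) (nat_lit 15) (.e (nat_lit 475214) (nat_lit 42) (.e (nat_lit 720939) (nat_lit 22) (.e (nat_lit 90158) (nat_lit 11) .nil)))))) (.g (nat_lit 4) .nil .nil)))) (.nd (nat_lit 5) 
(.lf (nat_lit 139740) (.g (nat_lit 2107) (.e (nat_lit 24643) (nat_lit 11) (.e (nat_lit 368676) (nat_lit 21) (.e (nat_lit 516180) (nat_lit 15) (.e (nat_lit 475212) (nat_lit 42) (.e (nat_lit 720938) (nat_lit 22) (.e (nat_lit 90158) (nat_lit 11) .nil)))))) (.g (nat_lit 0) .nil .nil))) 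
(.lf (nat_lit 139772) (.g (nat_lit 1569) (.e (nat_lit 24644) (nat_lit 11) (.e (nat_lit 368662) (nat_lit 18) (.e (nat_lit 7271) (nat_lit 385) (.e (nat_lit 122917) (nat_lit 15) (.e (nat_lit 360492) (nat_lit 22) .nil))))) .nil)))))) (.nd (nat_lit 2) (.nd (nat_lit 3) (.nd (nat_lit 4) (.nd (nat_lit 5) 
(.lf (nat_lit 139714) (.g (nat_lit 2113) (.e (nat_lit 24643) (nat_lit 11) (.e (nat_lit 368676) (nat_lit 21) (.e (nat_lit 516178) (nat_lit 15) (.e (nat_lit 475214) (nat_lit 42) (.e (nat_lit 720938) (nat_lit 22) .nil))))) .nil)) 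
(.lf (nat_lit 139746) (.g (nat_lit 2176) (.e (nat_lit 24643) (nat_lit 11) (.e (nat_lit 368676) (nat_lit 21) (.e (nat_lit 516180) (nat_lit 15) (.e (nat_lit 475214) (nat_lit 42) (.e (nat_lit 720938) (nat_lit 22) (.e (nat_lit 90160) (nat_lit 11) .nil)))))) (.g (nat_lit 0) .nil .nil)))) (.nd (nat_lit 5) 
(.lf (nat_lit 139730) (.g (nat_lit 2824) (.e (nat_lit 24643) (nat_lit 11) (.e (nat_lit 368676) (nat_lit 21) (.e (nat_lit 516179) (nat_lit 15) (.e (nat_lit 475214) (nat_lit 42) (.e (nat_lit 720936) (nat_lit 22) (.e (nat_lit 90158) (nat_lit 11) .nil)))))) (.g (nat_lit 0) .nil .nil))) 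
(.lf (nat_lit 139762) (.g (nat_lit 2076) (.e (nat_lit 24643) (nat_lit 11) (.e (nat_lit 368676) (nat_lit 21) (.e (nat_lit 516182) (nat_lit 15) (.e (nat_lit 475214) (nat_lit 42) (.e (nat_lit 720938) (nat_lit 22) (.e (nat_lit 90158) (nat_lit 11) .nil)))))) (.g (nat_lit 0) .nil .nil))))) (.nd (nat_lit 4) (.nd (nat_lit 5) 
(.lf (nat_lit 139722) (.g (nat_lit 1313) (.e (nat_lit 24643) (nat_lit 11) (.e (nat_lit 368676) (nat_lit 21) (.e (nat_lit 516179) (nat_lit 15) (.e (nat_lit 475204) (nat_lit 40) .nil)))) .nil)) 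
(.lf (nat_lit 139754) (.g (nat_lit 2200) (.e (nat_lit 24643) (nat_lit 11) (.e (nat_lit 368676) (nat_lit 21) (.e (nat_lit 516181) (nat_lit 15) (.e (nat_lit 475214) (nat_lit 42) (.e (nat_lit 720938) (nat_lit 22) (.e (nat_lit 90158) (nat_lit 11) .nil)))))) (.g (nat_lit 0) .nil .nil)))) (.nd (nat_lit 5) 
(.lf (nat_lit 139738) (.g (nat_lit 1323) (.e (nat_lit 24643) (nat_lit 11) (.e (nat_lit 368676) (nat_lit 21) (.e (nat_lit 516180) (nat_lit 15) (.e (nat_lit 475212) (nat_lit 42) (.e (nat_lit 720936) (nat_lit 22) (.e (nat_lit 90158) (nat_lit 11) .nil)))))) (.g (nat_lit 4) .nil .nil))) 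
(.lf (nat_lit 139770) (.g (nat_lit 460) (.e (nat_lit 24644) (nat_lit 11) (.e (nat_lit 368662) (nat_lit 18) (.e (nat_lit 7271) (nat_lit 385) .nil))) .nil))))) (.nd (nat_lit 3) (.nd (nat_lit 4) (.nd (nat_lit 5) 
(.lf (nat_lit 139718) (.g (nat_lit 2052) (.e (nat_lit 24643) (nat_lit 11) (.e (nat_lit 368676) (nat_lit 21) (.e (nat_lit 516179) (nat_lit 15) (.e (nat_lit 475198) (nat_lit 40) (.e (nat_lit 704707) (nat_lit 9) .nil))))) .nil)) 
(.lf (nat_lit 139750) (.g (nat_lit 1995) (.e (nat_lit 24643) (nat_lit 11) (.e (nat_lit 368676) (nat_lit 21) (.e (nat_lit 516181) (nat_lit 15) (.e (nat_lit 475212) (nat_lit 42) (.e (nat_lit 720941) (nat_lit 22) (.e (nat_lit 90158) (nat_lit 11) .nil)))))) (.g (nat_lit 5) .nil .nil)))) (.nd (nat_lit 5) 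
(.lf (nat_lit 139734) (.g (nat_lit 2758) (.e (nat_lit 24643) (nat_lit 11) (.e (nat_lit 368676) (nat_lit 21) (.e (nat_lit 516179) (nat_lit 15) (.e (nat_lit 475214) (nat_lit 42) (.e (nat_lit 720938) (nat_lit 22) (.e (nat_lit 90160) (nat_lit 11) .nil)))))) (.g (nat_lit 0) .nil .nil))) 
(.lf (nat_lit 139766) (.g (nat_lit 2133) (.e (nat_lit 24643) (nat_lit 11) (.e (nat_lit 368676) (nat_lit 21) (.e (nat_lit 516185) (nat_lit 16) (.e (nat_lit 491560) (nat_lit 10) (.e (nat_lit 344131) (nat_lit 26) (.e (nat_lit 557085) (nat_lit 11) .nil)))))) (.g (nat_lit 4) .nil .nil))))) (.nd (nat_lit 4) (.nd (nat_lit 5) 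
(.lf (nat_lit 139726) (.g (nat_lit 2629) (.e (nat_lit 24643) (nat_lit 11) (.e (nat_lit 368676) (nat_lit 21) (.e (nat_lit 516179) (nat_lit 15) (.e (nat_lit 475212) (nat_lit 42) (.e (nat_lit 720941) (nat_lit 22) (.e (nat_lit 90158) (nat_lit 11) .nil)))))) (.g (nat_lit 0) .nil .nil))) 
(.lf (nat_lit 139758) (.g (nat_lit 819) (.e (nat_lit 24643) (nat_lit 11) (.e (nat_lit 368676) (nat_lit 21) (.e (nat_lit 516181) (nat_lit 15) (.e (nat_lit 483072) (nat_lit 42) .nil)))) .nil))) (.nd (nat_lit 5) 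
(.lf (nat_lit 139742) (.g (nat_lit 2231) (.e (nat_lit 24643) (nat_lit 11) (.e (nat_lit 368676) (nat_lit 21) (.e (nat_lit 516180) (nat_lit 15) (.e (nat_lit 475212) (nat_lit 42) (.e (nat_lit 720941) (nat_lit 22) (.e (nat_lit 90160) (nat_lit 11) .nil)))))) (.g (nat_lit 0) .nil .nil))) 
(.lf (nat_lit 139774) (.g (nat_lit 1889) (.e (nat_lit 24644) (nat_lit 11) (.e (nat_lit 368662) (nat_lit 18) (.e (nat_lit 7271) (nat_lit 385) (.e (nat_lit 122919) (nat_lit 15) (.e (nat_lit 360492) (nat_lit 22) .nil))))) .nil))))))) (.nd (nat_lit 1) (.nd (nat_lit 2) (.nd (nat_lit 3) (.nd (nat_lit 4) (.nd (nat_lit 5) 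
(.lf (nat_lit 139713) (.g (nat_lit 2111) (.e (nat_lit 24643) (nat_lit 11) (.e (nat_lit 368676) (nat_lit 21) (.e (nat_lit 516178) (nat_lit 15) (.e (nat_lit 475214) (nat_lit 42) (.e (nat_lit 720937) (nat_lit 22) .nil))))) .nil)) 
(.lf (nat_lit 139745) (.g (nat_lit 2197) (.e (nat_lit 24643) (nat_lit 11) (.e (nat_lit 368676) (nat_lit 21) (.e (nat_lit 516180) (nat_lit 15) (.e (nat_lit 475214) (nat_lit 42) (.e (nat_lit 720938) (nat_lit 22) (.e (nat_lit 90158) (nat_lit 11) .nil)))))) (.g (nat_lit 0) .nil .nil)))) (.nd (nat_lit 5) 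
(.lf (nat_lit 139729) (.g (nat_lit 1963) (.e (nat_lit 24643) (nat_lit 11) (.e (nat_lit 368676) (nat_lit 21) (.e (nat_lit 516179) (nat_lit 15) (.e (nat_lit 475213) (nat_lit 42) (.e (nat_lit 720938) (nat_lit 22) (.e (nat_lit 90158) (nat_lit 11) .nil)))))) (.g (nat_lit 5) .nil .nil))) 
(.lf (nat_lit 139761) (.g (nat_lit 2015) (.e (nat_lit 24643) (nat_lit 11) (.e (nat_lit 368676) (nat_lit 21) (.e (nat_lit 516182) (nat_lit 15) (.e (nat_lit 475214) (nat_lit 42) (.e (nat_lit 720937) (nat_lit 22) (.e (nat_lit 90160) (nat_lit 11) .nil)))))) (.g (nat_lit 0) .nil .nil))))) (.nd (nat_lit 4) (.nd (nat_lit 5) 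
(.lf (nat_lit 139721) (.g (nat_lit 1472) (.e (nat_lit 24643) (nat_lit 11) (.e (nat_lit 368676) (nat_lit 21) (.e (nat_lit 516179) (nat_lit 15) (.e (nat_lit 475201) (nat_lit 40) (.e (nat_lit 704620) (nat_lit 9) .nil))))) .nil)) 
(.lf (nat_lit 139753) (.g (nat_lit 2150) (.e (nat_lit 24643) (nat_lit 11) (.e (nat_lit 368676) (nat_lit 21) (.e (nat_lit 516181) (nat_lit 15) (.e (nat_lit 475214) (nat_lit 42) (.e (nat_lit 720937) (nat_lit 22) (.e (nat_lit 90160) (nat_lit 11) .nil)))))) (.g (nat_lit 0) .nil .nil)))) (.nd (nat_lit 5) 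
(.lf (nat_lit 139737) (.g (nat_lit 1161) (.e (nat_lit 24643) (nat_lit 11) (.e (nat_lit 368676) (nat_lit 21) (.e (nat_lit 516179) (nat_lit 15) (.e (nat_lit 475214) (nat_lit 42) (.e (nat_lit 728832) (nat_lit 22) (.e (nat_lit 90158) (nat_lit 11) .nil)))))) (.g (nat_lit 4) .nil .nil))) 
(.lf (nat_lit 139769) (.g (nat_lit 2911) (.e (nat_lit 24644) (nat_lit 11) (.e (nat_lit 368662) (nat_lit 18) (.e (nat_lit 7270) (nat_lit 385) (.e (nat_lit 122919) (nat_lit 15) (.e (nat_lit 360492) (nat_lit 22) .nil))))) .nil))))) (.nd (nat_lit 3) (.nd (nat_lit 4) (.nd (nat_lit 5) 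
(.lf (nat_lit 139717) (.g (nat_lit 2056) (.e (nat_lit 24643) (nat_lit 11) (.e (nat_lit 368676) (nat_lit 21) (.e (nat_lit 516179) (nat_lit 15) (.e (nat_lit 475198) (nat_lit 40) (.e (nat_lit 704700) (nat_lit 9) .nil))))) .nil)) 
(.lf (nat_lit 139749) (.g (nat_lit 1885) (.e (nat_lit 24643) (nat_lit 11) (.e (nat_lit 368676) (nat_lit 21) (.e (nat_lit 516181) (nat_lit 15) (.e (nat_lit 475212) (nat_lit 42) (.e (nat_lit 720936) (nat_lit 22) .nil))))) .nil))) (.nd (nat_lit 5) 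
(.lf (nat_lit 139733) (.g (nat_lit 2781) (.e (nat_lit 24643) (nat_lit 11) (.e (nat_lit 368676) (nat_lit 21) (.e (nat_lit 516179) (nat_lit 15) (.e (nat_lit 475214) (nat_lit 42) (.e (nat_lit 720938) (nat_lit 22) (.e (nat_lit 90158) (nat_lit 11) .nil)))))) (.g (nat_lit 0) .nil .nil))) 
(.lf (nat_lit 139765) (.g (nat_lit 1671) (.e (nat_lit 24643) (nat_lit 11) (.e (nat_lit 368676) (nat_lit 21) (.e (nat_lit 516185) (nat_lit 16) (.e (nat_lit 491556) (nat_lit 9) .nil)))) .nil)))) (.nd (nat_lit 4) (.nd (nat_lit 5) 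
(.lf (nat_lit 139725) (.g (nat_lit 2505) (.e (nat_lit 24643) (nat_lit 11) (.e (nat_lit 368676) (nat_lit 21) (.e (nat_lit 516179) (nat_lit 15) (.e (nat_lit 475212) (nat_lit 42) (.e (nat_lit 720938) (nat_lit 22) (.e (nat_lit 90160) (nat_lit 11) .nil)))))) (.g (nat_lit 0) .nil .nil))) 
(.lf (nat_lit 139757) (.g (nat_lit 2501) (.e (nat_lit 24643) (nat_lit 11) (.e (nat_lit 368676) (nat_lit 21) (.e (nat_lit 516181) (nat_lit 15) (.e (nat_lit 475214) (nat_lit 42) (.e (nat_lit 720941) (nat_lit 22) (.e (nat_lit 90160) (nat_lit 11) .nil)))))) (.g (nat_lit 5) .nil .nil)))) (.nd (nat_lit 5) 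
(.lf (nat_lit 139741) (.g (nat_lit 2092) (.e (nat_lit 24643) (nat_lit 11) (.e (nat_lit 368676) (nat_lit 21) (.e (nat_lit 516180) (nat_lit 15) (.e (nat_lit 475212) (nat_lit 42) (.e (nat_lit 720938) (nat_lit 22) (.e (nat_lit 90160) (nat_lit 11) .nil)))))) (.g (nat_lit 0) .nil .nil))) 
(.lf (nat_lit 139773) (.g (nat_lit 1851) (.e (nat_lit 24644) (nat_lit 11) (.e (nat_lit 368662) (nat_lit 18) (.e (nat_lit 7271) (nat_lit 385) (.e (nat_lit 122919) (nat_lit 15) (.e (nat_lit 360491) (nat_lit 22) .nil))))) .nil)))))) (.nd (nat_lit 2) (.nd (nat_lit 3) (.nd (nat_lit 4) (.nd (nat_lit 5) 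
(.lf (nat_lit 139715) (.g (nat_lit 373) (.e (nat_lit 24643) (nat_lit 11) (.e (nat_lit 368676) (nat_lit 21) (.e (nat_lit 516179) (nat_lit 15) .nil))) .nil)) 
(.lf (nat_lit 139747) (.g (nat_lit 1801) (.e (nat_lit 24643) (nat_lit 11) (.e (nat_lit 368676) (nat_lit 21) (.e (nat_lit 516180) (nat_lit 15) (.e (nat_lit 475214) (nat_lit 42) (.e (nat_lit 720941) (nat_lit 22) .nil))))) .nil))) (.nd (nat_lit 5) 
(.lf (nat_lit 139731) (.g (nat_lit 2809) (.e (nat_lit 24643) (nat_lit 11) (.e (nat_lit 368676) (nat_lit 21) (.e (nat_lit 516179) (nat_lit 15) (.e (nat_lit 475214) (nat_lit 42) (.e (nat_lit 720937) (nat_lit 22) (.e (nat_lit 90158) (nat_lit 11) .nil)))))) (.g (nat_lit 0) .nil .nil))) 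
(.lf (nat_lit 139763) (.g (nat_lit 2055) (.e (nat_lit 24643) (nat_lit 11) (.e (nat_lit 368676) (nat_lit 21) (.e (nat_lit 516182) (nat_lit 15) (.e (nat_lit 475214) (nat_lit 42) (.e (nat_lit 720938) (nat_lit 22) (.e (nat_lit 90160) (nat_lit 11) .nil)))))) (.g (nat_lit 0) .nil .nil))))) (.nd (nat_lit 4) (.nd (nat_lit 5) 
(.lf (nat_lit 139723) (.g (nat_lit 1807) (.e (nat_lit 24643) (nat_lit 11) (.e (nat_lit 368676) (nat_lit 21) (.e (nat_lit 516179) (nat_lit 15) (.e (nat_lit 475205) (nat_lit 40) (.e (nat_lit 704615) (nat_lit 9) .nil))))) .nil)) 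
(.lf (nat_lit 139755) (.g (nat_lit 2180) (.e (nat_lit 24643) (nat_lit 11) (.e (nat_lit 368676) (nat_lit 21) (.e (nat_lit 516181) (nat_lit 15) (.e (nat_lit 475214) (nat_lit 42) (.e (nat_lit 720938) (nat_lit 22) (.e (nat_lit 90160) (nat_lit 11) .nil)))))) (.g (nat_lit 0) .nil .nil)))) (.nd (nat_lit 5) 
(.lf (nat_lit 139739) (.g (nat_lit 2138) (.e (nat_lit 24643) (nat_lit 11) (.e (nat_lit 368676) (nat_lit 21) (.e (nat_lit 516180) (nat_lit 15) (.e (nat_lit 475212) (nat_lit 42) (.e (nat_lit 720937) (nat_lit 22) (.e (nat_lit 90160) (nat_lit 11) .nil)))))) (.g (nat_lit 0) .nil .nil))) 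
(.lf (nat_lit 139771) (.g (nat_lit 1541) (.e (nat_lit 24644) (nat_lit 11) (.e (nat_lit 368662) (nat_lit 18) (.e (nat_lit 7271) (nat_lit 385) (.e (nat_lit 122917) (nat_lit 15) (.e (nat_lit 360491) (nat_lit 22) .nil))))) .nil))))) (.nd (nat_lit 3) (.nd (nat_lit 4) (.nd (nat_lit 5) 
(.lf (nat_lit 139719) (.g (nat_lit 2114) (.e (nat_lit 24643) (nat_lit 11) (.e (nat_lit 368676) (nat_lit 21) (.e (nat_lit 516179) (nat_lit 15) (.e (nat_lit 475198) (nat_lit 40) (.e (nat_lit 704707) (nat_lit 9) (.e (nat_lit 1234) (nat_lit 91) (.e (nat_lit 90158) (nat_lit 11) .nil))))))) (.g (nat_lit 4) .nil .nil))) 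
(.lf (nat_lit 139751) (.g (nat_lit 1053) (.e (nat_lit 24643) (nat_lit 11) (.e (nat_lit 368676) (nat_lit 21) (.e (nat_lit 516181) (nat_lit 15) (.e (nat_lit 475213) (nat_lit 42) (.e (nat_lit 720938) (nat_lit 22) .nil))))) .nil))) (.nd (nat_lit 5) 
(.lf (nat_lit 139735) (.g (nat_lit 2869) (.e (nat_lit 24643) (nat_lit 11) (.e (nat_lit 368676) (nat_lit 21) (.e (nat_lit 516179) (nat_lit 15) (.e (nat_lit 475214) (nat_lit 42) (.e (nat_lit 720939) (nat_lit 22) (.e (nat_lit 90160) (nat_lit 11) .nil)))))) (.g (nat_lit 0) .nil .nil))) 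
(.lf (nat_lit 139767) (.g (nat_lit 1674) (.e (nat_lit 24643) (nat_lit 11) (.e (nat_lit 368676) (nat_lit 21) (.e (nat_lit 524032) (nat_lit 33) (.e (nat_lit 401454) (nat_lit 12) (.e (nat_lit 483072) (nat_lit 2) .nil))))) (.g (nat_lit 4) .nil .nil))))) (.nd (nat_lit 4) (.nd (nat_lit 5) 
(.lf (nat_lit 139727) (.g (nat_lit 2678) (.e (nat_lit 24643) (nat_lit 11) (.e (nat_lit 368676) (nat_lit 21) (.e (nat_lit 516179) (nat_lit 15) (.e (nat_lit 475212) (nat_lit 42) (.e (nat_lit 720941) (nat_lit 22) (.e (nat_lit 90160) (nat_lit 11) .nil)))))) (.g (nat_lit 0) .nil .nil))) 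
(.lf (nat_lit 139759) (.g (nat_lit 1605) (.e (nat_lit 24643) (nat_lit 11) (.e (nat_lit 368676) (nat_lit 21) (.e (nat_lit 516182) (nat_lit 15) (.e (nat_lit 475212) (nat_lit 42) (.e (nat_lit 720936) (nat_lit 22) .nil))))) .nil))) (.nd (nat_lit 5) 
(.lf (nat_lit 139743) (.g (nat_lit 2243) (.e (nat_lit 24643) (nat_lit 11) (.e (nat_lit 368676) (nat_lit 21) (.e (nat_lit 516180) (nat_lit 15) (.e (nat_lit 475214) (nat_lit 42) (.e (nat_lit 720937) (nat_lit 22) (.e (nat_lit 90158) (nat_lit 11) .nil)))))) (.g (nat_lit 0) .nil .nil))) 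
(.lf (nat_lit 139775) (.g (nat_lit 316) (.e (nat_lit 24644) (nat_lit 11) (.e (nat_lit 368662) (nat_lit 18) (.e (nat_lit 7272) (nat_lit 385) .nil))) .nil))))))))

noncomputable def tv1856 : DT := (.nd (nat_lit 0) (.nd (nat_lit 1) (.nd (nat_lit 2) (.nd (nat_lit 3) (.nd (nat_lit 4) (.nd (nat_lit 5) 
(.lf (nat_lit 139776) (.g (nat_lit 371) (.e (nat_lit 24644) (nat_lit 11) (.e (nat_lit 368662) (nat_lit 18) (.e (nat_lit 7273) (nat_lit 385) .nil))) .nil)) 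
(.lf (nat_lit 139808) (.g (nat_lit 3070) (.e (nat_lit 24644) (nat_lit 11) (.e (nat_lit 368676) (nat_lit 21) (.e (nat_lit 516146) (nat_lit 9) (.e (nat_lit 426448) (nat_lit 20) (.e (nat_lit 114716) (nat_lit 22) (.e (nat_lit 90160) (nat_lit 11) .nil)))))) (.g (nat_lit 0) .nil .nil)))) (.nd (nat_lit 5) 
(.lf (nat_lit 139792) (.g (nat_lit 2552) (.e (nat_lit 24644) (nat_lit 11) (.e (nat_lit 368676) (nat_lit 21) (.e (nat_lit 516145) (nat_lit 9) (.e (nat_lit 426446) (nat_lit 20) (.e (nat_lit 114714) (nat_lit 22) (.e (nat_lit 90158) (nat_lit 11) .nil)))))) (.g (nat_lit 5) .nil .nil))) 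
(.lf (nat_lit 139824) (.g (nat_lit 2494) (.e (nat_lit 24644) (nat_lit 11) (.e (nat_lit 368676) (nat_lit 21) (.e (nat_lit 516148) (nat_lit 9) (.e (nat_lit 426448) (nat_lit 20) (.e (nat_lit 114716) (nat_lit 22) (.e (nat_lit 90158) (nat_lit 11) .nil)))))) (.g (nat_lit 0) .nil .nil))))) (.nd (nat_lit 4) (.nd (nat_lit 5) 
(.lf (nat_lit 139784) (.g (nat_lit 2176) (.e (nat_lit 24644) (nat_lit 11) (.e (nat_lit 368676) (nat_lit 21) (.e (nat_lit 516143) (nat_lit 9) (.e (nat_lit 426448) (nat_lit 20) (.e (nat_lit 114714) (nat_lit 22) (.e (nat_lit 90160) (nat_lit 11) .nil)))))) (.g (nat_lit 4) .nil .nil))) 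
(.lf (nat_lit 139816) (.g (nat_lit 2249) (.e (nat_lit 24644) (nat_lit 11) (.e (nat_lit 368676) (nat_lit 21) (.e (nat_lit 516147) (nat_lit 9) (.e (nat_lit 426448) (nat_lit 20) (.e (nat_lit 114716) (nat_lit 22) (.e (nat_lit 90158) (nat_lit 11) .nil)))))) (.g (nat_lit 0) .nil .nil)))) (.nd (nat_lit 5) 
(.lf (nat_lit 139800) (.g (nat_lit 1085) (.e (nat_lit 24644) (nat_lit 11) (.e (nat_lit 368676) (nat_lit 21) (.e (nat_lit 516146) (nat_lit 9) (.e (nat_lit 426446) (nat_lit 20) .nil)))) .nil)) 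
(.lf (nat_lit 139832) (.g (nat_lit 2273) (.e (nat_lit 24644) (nat_lit 11) (.e (nat_lit 368676) (nat_lit 21) (.e (nat_lit 516150) (nat_lit 9) (.e (nat_lit 426446) (nat_lit 20) (.e (nat_lit 114716) (nat_lit 22) (.e (nat_lit 90158) (nat_lit 11) .nil)))))) (.g (nat_lit 6) .nil .nil)))))) (.nd (nat_lit 3) (.nd (nat_lit 4) (.nd (nat_lit 5) 
(.lf (nat_lit 139780) (.g (nat_lit 911) (.e (nat_lit 24644) (nat_lit 11) (.e (nat_lit 368676) (nat_lit 21) (.e (nat_lit 516108) (nat_lit 0) .nil))) .nil)) 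
(.lf (nat_lit 139812) (.g (nat_lit 2409) (.e (nat_lit 24644) (nat_lit 11) (.e (nat_lit 368676) (nat_lit 21) (.e (nat_lit 516147) (nat_lit 9) (.e (nat_lit 426446) (nat_lit 20) (.e (nat_lit 114714) (nat_lit 22) (.e (nat_lit 90160) (nat_lit 11) .nil)))))) (.g (nat_lit 0) .nil .nil)))) (.nd (nat_lit 5) 
(.lf (nat_lit 139796) (.g (nat_lit 1329) (.e (nat_lit 24644) (nat_lit 11) (.e (nat_lit 368676) (nat_lit 21) (.e (nat_lit 516146) (nat_lit 9) (.e (nat_lit 426360) (nat_lit 15) (.e (nat_lit 2203) (nat_lit 144) .nil))))) .nil)) 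
(.lf (nat_lit 139828) (.g (nat_lit 2740) (.e (nat_lit 24644) (nat_lit 11) (.e (nat_lit 368676) (nat_lit 21) (.e (nat_lit 516149) (nat_lit 9) (.e (nat_lit 426448) (nat_lit 20) (.e (nat_lit 114716) (nat_lit 22) (.e (nat_lit 90158) (nat_lit 11) .nil)))))) (.g (nat_lit 0) .nil .nil))))) (.nd (nat_lit 4) (.nd (nat_lit 5) 
(.lf (nat_lit 139788) (.g (nat_lit 2323) (.e (nat_lit 24644) (nat_lit 11) (.e (nat_lit 368676) (nat_lit 21) (.e (nat_lit 516144) (nat_lit 9) (.e (nat_lit 426446) (nat_lit 20) (.e (nat_lit 114716) (nat_lit 22) (.e (nat_lit 90160) (nat_lit 11) .nil)))))) (.g (nat_lit 0) .nil .nil))) 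
(.lf (nat_lit 139820) (.g (nat_lit 2359) (.e (nat_lit 24644) (nat_lit 11) (.e (nat_lit 368676) (nat_lit 21) (.e (nat_lit 516148) (nat_lit 9) (.e (nat_lit 426446) (nat_lit 20) (.e (nat_lit 114716) (nat_lit 22) (.e (nat_lit 90160) (nat_lit 11) .nil)))))) (.g (nat_lit 6) .nil .nil)))) (.nd (nat_lit 5) 
(.lf (nat_lit 139804) (.g (nat_lit 1808) (.e (nat_lit 24644) (nat_lit 11) (.e (nat_lit 368676) (nat_lit 21) (.e (nat_lit 516146) (nat_lit 9) (.e (nat_lit 426448) (nat_lit 20) (.e (nat_lit 114714) (nat_lit 22) (.e (nat_lit 90157) (nat_lit 11) .nil)))))) (.g (nat_lit 4) .nil .nil))) 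
(.lf (nat_lit 139836) (.g (nat_lit 1846) (.e (nat_lit 24644) (nat_lit 11) (.e (nat_lit 368676) (nat_lit 21) (.e (nat_lit 516150) (nat_lit 9) (.e (nat_lit 426448) (nat_lit 20) (.e (nat_lit 114715) (nat_lit 22) .nil))))) .nil)))))) (.nd (nat_lit 2) (.nd (nat_lit 3) (.nd (nat_lit 4) (.nd (nat_lit 5) 
(.lf (nat_lit 139778) (.g (nat_lit 1165) (.e (nat_lit 24644) (nat_lit 11) (.e (nat_lit 368676) (nat_lit 21) (.e (nat_lit 516097) (nat_lit 0) (.e (nat_lit 7936) (nat_lit 407) .nil)))) .nil)) 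
(.lf (nat_lit 139810) (.g (nat_lit 2750) (.e (nat_lit 24644) (nat_lit 11) (.e (nat_lit 368676) (nat_lit 21) (.e (nat_lit 516146) (nat_lit 9) (.e (nat_lit 426449) (nat_lit 20) (.e (nat_lit 114714) (nat_lit 22) (.e (nat_lit 90160) (nat_lit 11) .nil)))))) (.g (nat_lit 6) .nil .nil)))) (.nd (nat_lit 5) 
(.lf (nat_lit 139794) (.g (nat_lit 2767) (.e (nat_lit 24644) (nat_lit 11) (.e (nat_lit 368676) (nat_lit 21) (.e (nat_lit 516145) (nat_lit 9) (.e (nat_lit 426448) (nat_lit 20) (.e (nat_lit 114716) (nat_lit 22) (.e (nat_lit 90158) (nat_lit 11) .nil)))))) (.g (nat_lit 4) .nil .nil))) 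
(.lf (nat_lit 139826) (.g (nat_lit 940) (.e (nat_lit 24644) (nat_lit 11) (.e (nat_lit 368676) (nat_lit 21) (.e (nat_lit 516148) (nat_lit 9) (.e (nat_lit 426449) (nat_lit 20) .nil)))) .nil)))) (.nd (nat_lit 4) (.nd (nat_lit 5) 
(.lf (nat_lit 139786) (.g (nat_lit 2543) (.e (nat_lit 24644) (nat_lit 11) (.e (nat_lit 368676) (nat_lit 21) (.e (nat_lit 516144) (nat_lit 9) (.e (nat_lit 426446) (nat_lit 20) (.e (nat_lit 114714) (nat_lit 22) (.e (nat_lit 90160) (nat_lit 11) .nil)))))) (.g (nat_lit 6) .nil .nil))) 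
(.lf (nat_lit 139818) (.g (nat_lit 1593) (.e (nat_lit 24644) (nat_lit 11) (.e (nat_lit 368676) (nat_lit 21) (.e (nat_lit 516148) (nat_lit 9) (.e (nat_lit 426444) (nat_lit 19) (.e (nat_lit 106504) (nat_lit 9) .nil))))) .nil))) (.nd (nat_lit 5) 
(.lf (nat_lit 139802) (.g (nat_lit 2580) (.e (nat_lit 24644) (nat_lit 11) (.e (nat_lit 368676) (nat_lit 21) (.e (nat_lit 516146) (nat_lit 9) (.e (nat_lit 426446) (nat_lit 20) (.e (nat_lit 114716) (nat_lit 22) (.e (nat_lit 90158) (nat_lit 11) .nil)))))) (.g (nat_lit 0) .nil .nil))) 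
(.lf (nat_lit 139834) (.g (nat_lit 2887) (.e (nat_lit 24644) (nat_lit 11) (.e (nat_lit 368676) (nat_lit 21) (.e (nat_lit 516150) (nat_lit 9) (.e (nat_lit 426448) (nat_lit 20) (.e (nat_lit 114714) (nat_lit 22) (.e (nat_lit 90158) (nat_lit 11) .nil)))))) (.g (nat_lit 0) .nil .nil)))))) (.nd (nat_lit 3) (.nd (nat_lit 4) (.nd (nat_lit 5) 
(.lf (nat_lit 139782) (.g (nat_lit 460) (.e (nat_lit 24644) (nat_lit 11) (.e (nat_lit 368676) (nat_lit 21) (.e (nat_lit 516117) (nat_lit 1) .nil))) .nil)) 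
(.lf (nat_lit 139814) (.g (nat_lit 2557) (.e (nat_lit 24644) (nat_lit 11) (.e (nat_lit 368676) (nat_lit 21) (.e (nat_lit 516147) (nat_lit 9) (.e (nat_lit 426448) (nat_lit 20) (.e (nat_lit 114714) (nat_lit 22) (.e (nat_lit 90158) (nat_lit 11) .nil)))))) (.g (nat_lit 0) .nil .nil)))) (.nd (nat_lit 5) 
(.lf (nat_lit 139798) (.g (nat_lit 1201) (.e (nat_lit 24644) (nat_lit 11) (.e (nat_lit 368676) (nat_lit 21) (.e (nat_lit 516146) (nat_lit 9) (.e (nat_lit 426440) (nat_lit 19) .nil)))) .nil)) 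
(.lf (nat_lit 139830) (.g (nat_lit 1430) (.e (nat_lit 24644) (nat_lit 11) (.e (nat_lit 368676) (nat_lit 21) (.e (nat_lit 516150) (nat_lit 9) (.e (nat_lit 426361) (nat_lit 15) .nil)))) .nil)))) (.nd (nat_lit 4) (.nd (nat_lit 5) 
(.lf (nat_lit 139790) (.g (nat_lit 2721) (.e (nat_lit 24644) (nat_lit 11) (.e (nat_lit 368676) (nat_lit 21) (.e (nat_lit 516144) (nat_lit 9) (.e (nat_lit 426448) (nat_lit 20) (.e (nat_lit 114714) (nat_lit 22) (.e (nat_lit 90160) (nat_lit 11) .nil)))))) (.g (nat_lit 6) .nil .nil))) 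
(.lf (nat_lit 139822) (.g (nat_lit 2838) (.e (nat_lit 24644) (nat_lit 11) (.e (nat_lit 368676) (nat_lit 21) (.e (nat_lit 516148) (nat_lit 9) (.e (nat_lit 426448) (nat_lit 20) (.e (nat_lit 114714) (nat_lit 22) (.e (nat_lit 90160) (nat_lit 11) .nil)))))) (.g (nat_lit 0) .nil .nil)))) (.nd (nat_lit 5) 
(.lf (nat_lit 139806) (.g (nat_lit 3383) (.e (nat_lit 24644) (nat_lit 11) (.e (nat_lit 368676) (nat_lit 21) (.e (nat_lit 516146) (nat_lit 9) (.e (nat_lit 426448) (nat_lit 20) (.e (nat_lit 114714) (nat_lit 22) (.e (nat_lit 90160) (nat_lit 11) .nil)))))) (.g (nat_lit 0) .nil .nil))) 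
(.lf (nat_lit 139838) (.g (nat_lit 2594) (.e (nat_lit 24644) (nat_lit 11) (.e (nat_lit 368676) (nat_lit 21) (.e (nat_lit 516150) (nat_lit 9) (.e (nat_lit 426448) (nat_lit 20) (.e (nat_lit 114716) (nat_lit 22) (.e (nat_lit 90160) (nat_lit 11) .nil)))))) (.g (nat_lit 0) .nil .nil)))))))) (.nd (nat_lit 1) (.nd (nat_lit 2) (.nd (nat_lit 3) (.nd (nat_lit 4) (.nd (nat_lit 5) 
(.lf (nat_lit 139777) (.g (nat_lit 1354) (.e (nat_lit 24644) (nat_lit 11) (.e (nat_lit 368662) (nat_lit 18) (.e (nat_lit 7273) (nat_lit 385) (.e (nat_lit 122916) (nat_lit 14) (.e (nat_lit 352323) (nat_lit 26) .nil))))) .nil)) 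
(.lf (nat_lit 139809) (.g (nat_lit 1117) (.e (nat_lit 24644) (nat_lit 11) (.e (nat_lit 368676) (nat_lit 21) (.e (nat_lit 516146) (nat_lit 9) (.e (nat_lit 426449) (nat_lit 20) .nil)))) .nil))) (.nd (nat_lit 5) 
(.lf (nat_lit 139793) (.g (nat_lit 3087) (.e (nat_lit 24644) (nat_lit 11) (.e (nat_lit 368676) (nat_lit 21) (.e (nat_lit 516145) (nat_lit 9) (.e (nat_lit 426448) (nat_lit 20) (.e (nat_lit 114714) (nat_lit 22) (.e (nat_lit 90158) (nat_lit 11) .nil)))))) (.g (nat_lit 5) .nil .nil))) 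
(.lf (nat_lit 139825) (.g (nat_lit 2516) (.e (nat_lit 24644) (nat_lit 11) (.e (nat_lit 368676) (nat_lit 21) (.e (nat_lit 516148) (nat_lit 9) (.e (nat_lit 426448) (nat_lit 20) (.e (nat_lit 114716) (nat_lit 22) (.e (nat_lit 90160) (nat_lit 11) .nil)))))) (.g (nat_lit 0) .nil .nil))))) (.nd (nat_lit 4) (.nd (nat_lit 5) 
(.lf (nat_lit 139785) (.g (nat_lit 1983) (.e (nat_lit 24644) (nat_lit 11) (.e (nat_lit 368676) (nat_lit 21) (.e (nat_lit 516143) (nat_lit 9) (.e (nat_lit 426448) (nat_lit 20) (.e (nat_lit 114716) (nat_lit 22) .nil))))) .nil)) 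
(.lf (nat_lit 139817) (.g (nat_lit 2269) (.e (nat_lit 24644) (nat_lit 11) (.e (nat_lit 368676) (nat_lit 21) (.e (nat_lit 516147) (nat_lit 9) (.e (nat_lit 426448) (nat_lit 20) (.e (nat_lit 114716) (nat_lit 22) (.e (nat_lit 90160) (nat_lit 11) .nil)))))) (.g (nat_lit 0) .nil .nil)))) (.nd (nat_lit 5) 
(.lf (nat_lit 139801) (.g (nat_lit 2799) (.e (nat_lit 24644) (nat_lit 11) (.e (nat_lit 368676) (nat_lit 21) (.e (nat_lit 516146) (nat_lit 9) (.e (nat_lit 426446) (nat_lit 20) (.e (nat_lit 114714) (nat_lit 22) (.e (nat_lit 90158) (nat_lit 11) .nil)))))) (.g (nat_lit 6) .nil .nil))) 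
(.lf (nat_lit 139833) (.g (nat_lit 2446) (.e (nat_lit 24644) (nat_lit 11) (.e (nat_lit 368676) (nat_lit 21) (.e (nat_lit 516150) (nat_lit 9) (.e (nat_lit 426446) (nat_lit 20) (.e (nat_lit 114716) (nat_lit 22) (.e (nat_lit 90160) (nat_lit 11) .nil)))))) (.g (nat_lit 6) .nil .nil)))))) (.nd (nat_lit 3) (.nd (nat_lit 4) (.nd (nat_lit 5) 
(.lf (nat_lit 139781) (.g (nat_lit 902) (.e (nat_lit 24644) (nat_lit 11) (.e (nat_lit 368676) (nat_lit 21) (.e (nat_lit 516115) (nat_lit 1) .nil))) .nil)) 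
(.lf (nat_lit 139813) (.g (nat_lit 2027) (.e (nat_lit 24644) (nat_lit 11) (.e (nat_lit 368676) (nat_lit 21) (.e (nat_lit 516147) (nat_lit 9) (.e (nat_lit 426446) (nat_lit 20) (.e (nat_lit 114716) (nat_lit 22) (.e (nat_lit 90158) (nat_lit 11) .nil)))))) (.g (nat_lit 0) .nil .nil)))) (.nd (nat_lit 5) 
(.lf (nat_lit 139797) (.g (nat_lit 1326) (.e (nat_lit 24644) (nat_lit 11) (.e (nat_lit 368676) (nat_lit 21) (.e (nat_lit 516146) (nat_lit 9) (.e (nat_lit 426439) (nat_lit 19) .nil)))) .nil)) 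
(.lf (nat_lit 139829) (.g (nat_lit 1406) (.e (nat_lit 24644) (nat_lit 11) (.e (nat_lit 368676) (nat_lit 21) (.e (nat_lit 516150) (nat_lit 9) (.e (nat_lit 426360) (nat_lit 15) .nil)))) .nil)))) (.nd (nat_lit 4) (.nd (nat_lit 5) 
(.lf (nat_lit 139789) (.g (nat_lit 2673) (.e (nat_lit 24644) (nat_lit 11) (.e (nat_lit 368676) (nat_lit 21) (.e (nat_lit 516144) (nat_lit 9) (.e (nat_lit 426448) (nat_lit 20) (.e (nat_lit 114714) (nat_lit 22) (.e (nat_lit 90158) (nat_lit 11) .nil)))))) (.g (nat_lit 6) .nil .nil))) 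
(.lf (nat_lit 139821) (.g (nat_lit 2799) (.e (nat_lit 24644) (nat_lit 11) (.e (nat_lit 368676) (nat_lit 21) (.e (nat_lit 516148) (nat_lit 9) (.e (nat_lit 426448) (nat_lit 20) (.e (nat_lit 114714) (nat_lit 22) (.e (nat_lit 90158) (nat_lit 11) .nil)))))) (.g (nat_lit 0) .nil .nil)))) (.nd (nat_lit 5) 
(.lf (nat_lit 139805) (.g (nat_lit 3343) (.e (nat_lit 24644) (nat_lit 11) (.e (nat_lit 368676) (nat_lit 21) (.e (nat_lit 516146) (nat_lit 9) (.e (nat_lit 426448) (nat_lit 20) (.e (nat_lit 114714) (nat_lit 22) (.e (nat_lit 90158) (nat_lit 11) .nil)))))) (.g (nat_lit 0) .nil .nil))) 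
(.lf (nat_lit 139837) (.g (nat_lit 2581) (.e (nat_lit 24644) (nat_lit 11) (.e (nat_lit 368676) (nat_lit 21) (.e (nat_lit 516150) (nat_lit 9) (.e (nat_lit 426448) (nat_lit 20) (.e (nat_lit 114716) (nat_lit 22) (.e (nat_lit 90158) (nat_lit 11) .nil)))))) (.g (nat_lit 0) .nil .nil))))))) (.nd (nat_lit 2) (.nd (nat_lit 3) (.nd (nat_lit 4) (.nd (nat_lit 5) 
(.lf (nat_lit 139779) (.g (nat_lit 911) (.e (nat_lit 24644) (nat_lit 11) (.e (nat_lit 368676) (nat_lit 21) (.e (nat_lit 516101) (nat_lit 0) .nil))) .nil)) 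
(.lf (nat_lit 139811) (.g (nat_lit 2742) (.e (nat_lit 24644) (nat_lit 11) (.e (nat_lit 368676) (nat_lit 21) (.e (nat_lit 516146) (nat_lit 9) (.e (nat_lit 426449) (nat_lit 20) (.e (nat_lit 114716) (nat_lit 22) (.e (nat_lit 90158) (nat_lit 11) .nil)))))) (.g (nat_lit 0) .nil .nil)))) (.nd (nat_lit 5) 
(.lf (nat_lit 139795) (.g (nat_lit 353) (.e (nat_lit 24644) (nat_lit 11) (.e (nat_lit 368676) (nat_lit 21) (.e (nat_lit 516146) (nat_lit 9) .nil))) .nil)) 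
(.lf (nat_lit 139827) (.g (nat_lit 716) (.e (nat_lit 24644) (nat_lit 11) (.e (nat_lit 368676) (nat_lit 21) (.e (nat_lit 516149) (nat_lit 9) (.e (nat_lit 426446) (nat_lit 20) .nil)))) .nil)))) (.nd (nat_lit 4) (.nd (nat_lit 5) 
(.lf (nat_lit 139787) (.g (nat_lit 2171) (.e (nat_lit 24644) (nat_lit 11) (.e (nat_lit 368676) (nat_lit 21) (.e (nat_lit 516144) (nat_lit 9) (.e (nat_lit 426446) (nat_lit 20) (.e (nat_lit 114716) (nat_lit 22) (.e (nat_lit 90158) (nat_lit 11) .nil)))))) (.g (nat_lit 0) .nil .nil))) 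
(.lf (nat_lit 139819) (.g (nat_lit 2355) (.e (nat_lit 24644) (nat_lit 11) (.e (nat_lit 368676) (nat_lit 21) (.e (nat_lit 516148) (nat_lit 9) (.e (nat_lit 426446) (nat_lit 20) (.e (nat_lit 114714) (nat_lit 22) (.e (nat_lit 90158) (nat_lit 11) .nil)))))) (.g (nat_lit 5) .nil .nil)))) (.nd (nat_lit 5) 
(.lf (nat_lit 139803) (.g (nat_lit 2748) (.e (nat_lit 24644) (nat_lit 11) (.e (nat_lit 368676) (nat_lit 21) (.e (nat_lit 516146) (nat_lit 9) (.e (nat_lit 426446) (nat_lit 20) (.e (nat_lit 114716) (nat_lit 22) (.e (nat_lit 90160) (nat_lit 11) .nil)))))) (.g (nat_lit 0) .nil .nil))) 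
(.lf (nat_lit 139835) (.g (nat_lit 2924) (.e (nat_lit 24644) (nat_lit 11) (.e (nat_lit 368676) (nat_lit 21) (.e (nat_lit 516150) (nat_lit 9) (.e (nat_lit 426448) (nat_lit 20) (.e (nat_lit 114714) (nat_lit 22) (.e (nat_lit 90160) (nat_lit 11) .nil)))))) (.g (nat_lit 0) .nil .nil)))))) (.nd (nat_lit 3) (.nd (nat_lit 4) (.nd (nat_lit 5) 
(.lf (nat_lit 139783) (.g (nat_lit 2123) (.e (nat_lit 24644) (nat_lit 11) (.e (nat_lit 368676) (nat_lit 21) (.e (nat_lit 516143) (nat_lit 9) (.e (nat_lit 426448) (nat_lit 20) (.e (nat_lit 114714) (nat_lit 22) (.e (nat_lit 90158) (nat_lit 11) .nil)))))) (.g (nat_lit 4) .nil .nil))) 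
(.lf (nat_lit 139815) (.g (nat_lit 2572) (.e (nat_lit 24644) (nat_lit 11) (.e (nat_lit 368676) (nat_lit 21) (.e (nat_lit 516147) (nat_lit 9) (.e (nat_lit 426448) (nat_lit 20) (.e (nat_lit 114714) (nat_lit 22) (.e (nat_lit 90160) (nat_lit 11) .nil)))))) (.g (nat_lit 0) .nil .nil)))) (.nd (nat_lit 5) 
(.lf (nat_lit 139799) (.g (nat_lit 1470) (.e (nat_lit 24644) (nat_lit 11) (.e (nat_lit 368676) (nat_lit 21) (.e (nat_lit 516146) (nat_lit 9) (.e (nat_lit 426444) (nat_lit 19) (.e (nat_lit 106504) (nat_lit 9) .nil))))) .nil)) 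
(.lf (nat_lit 139831) (.g (nat_lit 2404) (.e (nat_lit 24644) (nat_lit 11) (.e (nat_lit 368676) (nat_lit 21) (.e (nat_lit 516150) (nat_lit 9) (.e (nat_lit 426446) (nat_lit 20) (.e (nat_lit 114714) (nat_lit 22) (.e (nat_lit 90158) (nat_lit 11) .nil)))))) (.g (nat_lit 5) .nil .nil))))) (.nd (nat_lit 4) (.nd (nat_lit 5) 
(.lf (nat_lit 139791) (.g (nat_lit 2415) (.e (nat_lit 24644) (nat_lit 11) (.e (nat_lit 368676) (nat_lit 21) (.e (nat_lit 516144) (nat_lit 9) (.e (nat_lit 426448) (nat_lit 20) (.e (nat_lit 114716) (nat_lit 22) (.e (nat_lit 90158) (nat_lit 11) .nil)))))) (.g (nat_lit 6) .nil .nil))) 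
(.lf (nat_lit 139823) (.g (nat_lit 1915) (.e (nat_lit 24644) (nat_lit 11) (.e (nat_lit 368676) (nat_lit 21) (.e (nat_lit 516148) (nat_lit 9) (.e (nat_lit 426448) (nat_lit 20) (.e (nat_lit 114715) (nat_lit 22) (.e (nat_lit 90158) (nat_lit 11) .nil)))))) (.g (nat_lit 4) .nil .nil)))) (.nd (nat_lit 5) 
(.lf (nat_lit 139807) (.g (nat_lit 3044) (.e (nat_lit 24644) (nat_lit 11) (.e (nat_lit 368676) (nat_lit 21) (.e (nat_lit 516146) (nat_lit 9) (.e (nat_lit 426448) (nat_lit 20) (.e (nat_lit 114716) (nat_lit 22) (.e (nat_lit 90158) (nat_lit 11) .nil)))))) (.g (nat_lit 0) .nil .nil))) 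
(.lf (nat_lit 139839) (.g (nat_lit 1777) (.e (nat_lit 24644) (nat_lit 11) (.e (nat_lit 368676) (nat_lit 21) (.e (nat_lit 516150) (nat_lit 9) (.e (nat_lit 426449) (nat_lit 20) (.e (nat_lit 114714) (nat_lit 22) (.e (nat_lit 90158) (nat_lit 11) .nil)))))) (.g (nat_lit 4) .nil .nil)))))))))

noncomputable def tv1857 : DT := (.nd (nat_lit 0) (.nd (nat_lit 1) (.nd (nat_lit 2) (.nd (nat_lit 3) (.nd (nat_lit 4) (.nd (nat_lit 5) 
(.lf (nat_lit 139840) (.g (nat_lit 2355) (.e (nat_lit 24644) (nat_lit 11) (.e (nat_lit 368676) (nat_lit 21) (.e (nat_lit 516151) (nat_lit 9) (.e (nat_lit 433920) (nat_lit 20) .nil)))) .nil)) 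
(.lf (nat_lit 139872) (.g (nat_lit 2357) (.e (nat_lit 24644) (nat_lit 11) (.e (nat_lit 368676) (nat_lit 21) (.e (nat_lit 516180) (nat_lit 15) (.e (nat_lit 475214) (nat_lit 42) (.e (nat_lit 720937) (nat_lit 22) (.e (nat_lit 90158) (nat_lit 11) .nil)))))) (.g (nat_lit 0) .nil .nil)))) (.nd (nat_lit 5) 
(.lf (nat_lit 139856) (.g (nat_lit 2791) (.e (nat_lit 24644) (nat_lit 11) (.e (nat_lit 368676) (nat_lit 21) (.e (nat_lit 516179) (nat_lit 15) (.e (nat_lit 475212) (nat_lit 42) (.e (nat_lit 720941) (nat_lit 22) (.e (nat_lit 90160) (nat_lit 11) .nil)))))) (.g (nat_lit 0) .nil .nil))) 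
(.lf (nat_lit 139888) (.g (nat_lit 2395) (.e (nat_lit 24644) (nat_lit 11) (.e (nat_lit 368676) (nat_lit 21) (.e (nat_lit 516181) (nat_lit 15) (.e (nat_lit 475214) (nat_lit 42) (.e (nat_lit 720941) (nat_lit 22) (.e (nat_lit 90158) (nat_lit 11) .nil)))))) (.g (nat_lit 5) .nil .nil))))) (.nd (nat_lit 4) (.nd (nat_lit 5) 
(.lf (nat_lit 139848) (.g (nat_lit 1255) (.e (nat_lit 24644) (nat_lit 11) (.e (nat_lit 368676) (nat_lit 21) (.e (nat_lit 516179) (nat_lit 15) (.e (nat_lit 475195) (nat_lit 40) .nil)))) .nil)) 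
(.lf (nat_lit 139880) (.g (nat_lit 2074) (.e (nat_lit 24644) (nat_lit 11) (.e (nat_lit 368676) (nat_lit 21) (.e (nat_lit 516181) (nat_lit 15) (.e (nat_lit 475212) (nat_lit 42) (.e (nat_lit 720937) (nat_lit 22) (.e (nat_lit 90160) (nat_lit 11) .nil)))))) (.g (nat_lit 5) .nil .nil)))) (.nd (nat_lit 5) 
(.lf (nat_lit 139864) (.g (nat_lit 2874) (.e (nat_lit 24644) (nat_lit 11) (.e (nat_lit 368676) (nat_lit 21) (.e (nat_lit 516179) (nat_lit 15) (.e (nat_lit 475214) (nat_lit 42) (.e (nat_lit 720938) (nat_lit 22) (.e (nat_lit 90160) (nat_lit 11) .nil)))))) (.g (nat_lit 0) .nil .nil))) 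
(.lf (nat_lit 139896) (.g (nat_lit 2205) (.e (nat_lit 24644) (nat_lit 11) (.e (nat_lit 368676) (nat_lit 21) (.e (nat_lit 516182) (nat_lit 15) (.e (nat_lit 475214) (nat_lit 42) (.e (nat_lit 720938) (nat_lit 22) (.e (nat_lit 90158) (nat_lit 11) .nil)))))) (.g (nat_lit 0) .nil .nil)))))) (.nd (nat_lit 3) (.nd (nat_lit 4) (.nd (nat_lit 5) 
(.lf (nat_lit 139844) (.g (nat_lit 1143) (.e (nat_lit 24644) (nat_lit 11) (.e (nat_lit 368676) (nat_lit 21) (.e (nat_lit 516178) (nat_lit 15) (.e (nat_lit 475212) (nat_lit 42) .nil)))) .nil)) 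
(.lf (nat_lit 139876) (.g (nat_lit 1759) (.e (nat_lit 24644) (nat_lit 11) (.e (nat_lit 368676) (nat_lit 21) (.e (nat_lit 516180) (nat_lit 15) (.e (nat_lit 475214) (nat_lit 42) (.e (nat_lit 720941) (nat_lit 22) .nil))))) .nil))) (.nd (nat_lit 5) 
(.lf (nat_lit 139860) (.g (nat_lit 2919) (.e (nat_lit 24644) (nat_lit 11) (.e (nat_lit 368676) (nat_lit 21) (.e (nat_lit 516179) (nat_lit 15) (.e (nat_lit 475214) (nat_lit 42) (.e (nat_lit 720936) (nat_lit 22) (.e (nat_lit 90158) (nat_lit 11) .nil)))))) (.g (nat_lit 0) .nil .nil))) 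
(.lf (nat_lit 139892) (.g (nat_lit 1718) (.e (nat_lit 24644) (nat_lit 11) (.e (nat_lit 368676) (nat_lit 21) (.e (nat_lit 516182) (nat_lit 15) (.e (nat_lit 475212) (nat_lit 42) (.e (nat_lit 720938) (nat_lit 22) (.e (nat_lit 90158) (nat_lit 11) .nil)))))) (.g (nat_lit 5) .nil .nil))))) (.nd (nat_lit 4) (.nd (nat_lit 5) 
(.lf (nat_lit 139852) (.g (nat_lit 2651) (.e (nat_lit 24644) (nat_lit 11) (.e (nat_lit 368676) (nat_lit 21) (.e (nat_lit 516179) (nat_lit 15) (.e (nat_lit 475212) (nat_lit 42) (.e (nat_lit 720937) (nat_lit 22) (.e (nat_lit 90158) (nat_lit 11) .nil)))))) (.g (nat_lit 0) .nil .nil))) 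
(.lf (nat_lit 139884) (.g (nat_lit 2365) (.e (nat_lit 24644) (nat_lit 11) (.e (nat_lit 368676) (nat_lit 21) (.e (nat_lit 516181) (nat_lit 15) (.e (nat_lit 475214) (nat_lit 42) (.e (nat_lit 720937) (nat_lit 22) (.e (nat_lit 90158) (nat_lit 11) .nil)))))) (.g (nat_lit 0) .nil .nil)))) (.nd (nat_lit 5) 
(.lf (nat_lit 139868) (.g (nat_lit 1106) (.e (nat_lit 24644) (nat_lit 11) (.e (nat_lit 368676) (nat_lit 21) (.e (nat_lit 516179) (nat_lit 15) (.e (nat_lit 475215) (nat_lit 43) .nil)))) .nil)) 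
(.lf (nat_lit 139900) (.g (nat_lit 2465) (.e (nat_lit 24644) (nat_lit 11) (.e (nat_lit 368676) (nat_lit 21) (.e (nat_lit 516185) (nat_lit 16) (.e (nat_lit 491560) (nat_lit 10) (.e (nat_lit 344127) (nat_lit 26) .nil))))) .nil)))))) (.nd (nat_lit 2) (.nd (nat_lit 3) (.nd (nat_lit 4) (.nd (nat_lit 5) 
(.lf (nat_lit 139842) (.g (nat_lit 880) (.e (nat_lit 24644) (nat_lit 11) (.e (nat_lit 368676) (nat_lit 21) (.e (nat_lit 516156) (nat_lit 9) .nil))) .nil)) 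
(.lf (nat_lit 139874) (.g (nat_lit 2308) (.e (nat_lit 24644) (nat_lit 11) (.e (nat_lit 368676) (nat_lit 21) (.e (nat_lit 516180) (nat_lit 15) (.e (nat_lit 475214) (nat_lit 42) (.e (nat_lit 720938) (nat_lit 22) (.e (nat_lit 90158) (nat_lit 11) .nil)))))) (.g (nat_lit 0) .nil .nil)))) (.nd (nat_lit 5) 
(.lf (nat_lit 139858) (.g (nat_lit 2087) (.e (nat_lit 24644) (nat_lit 11) (.e (nat_lit 368676) (nat_lit 21) (.e (nat_lit 516179) (nat_lit 15) (.e (nat_lit 475213) (nat_lit 42) (.e (nat_lit 720938) (nat_lit 22) (.e (nat_lit 90158) (nat_lit 11) .nil)))))) (.g (nat_lit 5) .nil .nil))) 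
(.lf (nat_lit 139890) (.g (nat_lit 829) (.e (nat_lit 24644) (nat_lit 11) (.e (nat_lit 368676) (nat_lit 21) (.e (nat_lit 516181) (nat_lit 15) (.e (nat_lit 483072) (nat_lit 42) .nil)))) .nil)))) (.nd (nat_lit 4) (.nd (nat_lit 5) 
(.lf (nat_lit 139850) (.g (nat_lit 913) (.e (nat_lit 24644) (nat_lit 11) (.e (nat_lit 368676) (nat_lit 21) (.e (nat_lit 516179) (nat_lit 15) (.e (nat_lit 475201) (nat_lit 40) .nil)))) .nil)) 
(.lf (nat_lit 139882) (.g (nat_lit 1964) (.e (nat_lit 24644) (nat_lit 11) (.e (nat_lit 368676) (nat_lit 21) (.e (nat_lit 516181) (nat_lit 15) (.e (nat_lit 475212) (nat_lit 42) (.e (nat_lit 720938) (nat_lit 22) (.e (nat_lit 90160) (nat_lit 11) .nil)))))) (.g (nat_lit 5) .nil .nil)))) (.nd (nat_lit 5) 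
(.lf (nat_lit 139866) (.g (nat_lit 3416) (.e (nat_lit 24644) (nat_lit 11) (.e (nat_lit 368676) (nat_lit 21) (.e (nat_lit 516179) (nat_lit 15) (.e (nat_lit 475214) (nat_lit 42) (.e (nat_lit 720941) (nat_lit 22) (.e (nat_lit 90160) (nat_lit 11) .nil)))))) (.g (nat_lit 0) .nil .nil))) 
(.lf (nat_lit 139898) (.g (nat_lit 911) (.e (nat_lit 24644) (nat_lit 11) (.e (nat_lit 368676) (nat_lit 21) (.e (nat_lit 516184) (nat_lit 16) .nil))) .nil))))) (.nd (nat_lit 3) (.nd (nat_lit 4) (.nd (nat_lit 5) 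
(.lf (nat_lit 139846) (.g (nat_lit 2143) (.e (nat_lit 24644) (nat_lit 11) (.e (nat_lit 368676) (nat_lit 21) (.e (nat_lit 516178) (nat_lit 15) (.e (nat_lit 475214) (nat_lit 42) (.e (nat_lit 720938) (nat_lit 22) .nil))))) .nil)) 
(.lf (nat_lit 139878) (.g (nat_lit 1879) (.e (nat_lit 24644) (nat_lit 11) (.e (nat_lit 368676) (nat_lit 21) (.e (nat_lit 516181) (nat_lit 15) (.e (nat_lit 475212) (nat_lit 42) (.e (nat_lit 720936) (nat_lit 22) .nil))))) .nil))) (.nd (nat_lit 5) 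
(.lf (nat_lit 139862) (.g (nat_lit 2832) (.e (nat_lit 24644) (nat_lit 11) (.e (nat_lit 368676) (nat_lit 21) (.e (nat_lit 516179) (nat_lit 15) (.e (nat_lit 475214) (nat_lit 42) (.e (nat_lit 720937) (nat_lit 22) (.e (nat_lit 90160) (nat_lit 11) .nil)))))) (.g (nat_lit 0) .nil .nil))) 
(.lf (nat_lit 139894) (.g (nat_lit 2238) (.e (nat_lit 24644) (nat_lit 11) (.e (nat_lit 368676) (nat_lit 21) (.e (nat_lit 516182) (nat_lit 15) (.e (nat_lit 475214) (nat_lit 42) (.e (nat_lit 720937) (nat_lit 22) (.e (nat_lit 90158) (nat_lit 11) .nil)))))) (.g (nat_lit 0) .nil .nil))))) (.nd (nat_lit 4) (.nd (nat_lit 5) 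
(.lf (nat_lit 139854) (.g (nat_lit 2616) (.e (nat_lit 24644) (nat_lit 11) (.e (nat_lit 368676) (nat_lit 21) (.e (nat_lit 516179) (nat_lit 15) (.e (nat_lit 475212) (nat_lit 42) (.e (nat_lit 720938) (nat_lit 22) (.e (nat_lit 90160) (nat_lit 11) .nil)))))) (.g (nat_lit 0) .nil .nil))) 
(.lf (nat_lit 139886) (.g (nat_lit 2323) (.e (nat_lit 24644) (nat_lit 11) (.e (nat_lit 368676) (nat_lit 21) (.e (nat_lit 516181) (nat_lit 15) (.e (nat_lit 475214) (nat_lit 42) (.e (nat_lit 720938) (nat_lit 22) (.e (nat_lit 90158) (nat_lit 11) .nil)))))) (.g (nat_lit 0) .nil .nil)))) (.nd (nat_lit 5) 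
(.lf (nat_lit 139870) (.g (nat_lit 2210) (.e (nat_lit 24644) (nat_lit 11) (.e (nat_lit 368676) (nat_lit 21) (.e (nat_lit 516180) (nat_lit 15) (.e (nat_lit 475212) (nat_lit 42) (.e (nat_lit 720938) (nat_lit 22) (.e (nat_lit 90158) (nat_lit 11) .nil)))))) (.g (nat_lit 0) .nil .nil))) 
(.lf (nat_lit 139902) (.g (nat_lit 2259) (.e (nat_lit 24645) (nat_lit 11) (.e (nat_lit 368662) (nat_lit 18) (.e (nat_lit 7147) (nat_lit 382) (.e (nat_lit 1217) (nat_lit 90) (.e (nat_lit 81965) (nat_lit 26) (.e (nat_lit 147492) (nat_lit 11) .nil)))))) (.g (nat_lit 6) .nil .nil)))))))) (.nd (nat_lit 1) (.nd (nat_lit 2) (.nd (nat_lit 3) (.nd (nat_lit 4) (.nd (nat_lit 5) 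
(.lf (nat_lit 139841) (.g (nat_lit 911) (.e (nat_lit 24644) (nat_lit 11) (.e (nat_lit 368676) (nat_lit 21) (.e (nat_lit 516155) (nat_lit 9) .nil))) .nil)) 
(.lf (nat_lit 139873) (.g (nat_lit 2277) (.e (nat_lit 24644) (nat_lit 11) (.e (nat_lit 368676) (nat_lit 21) (.e (nat_lit 516180) (nat_lit 15) (.e (nat_lit 475214) (nat_lit 42) (.e (nat_lit 720937) (nat_lit 22) (.e (nat_lit 90160) (nat_lit 11) .nil)))))) (.g (nat_lit 0) .nil .nil)))) (.nd (nat_lit 5) 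
(.lf (nat_lit 139857) (.g (nat_lit 1591) (.e (nat_lit 24644) (nat_lit 11) (.e (nat_lit 368676) (nat_lit 21) (.e (nat_lit 516179) (nat_lit 15) (.e (nat_lit 475213) (nat_lit 42) (.e (nat_lit 720937) (nat_lit 22) .nil))))) .nil)) 
(.lf (nat_lit 139889) (.g (nat_lit 2633) (.e (nat_lit 24644) (nat_lit 11) (.e (nat_lit 368676) (nat_lit 21) (.e (nat_lit 516181) (nat_lit 15) (.e (nat_lit 475214) (nat_lit 42) (.e (nat_lit 720941) (nat_lit 22) (.e (nat_lit 90160) (nat_lit 11) .nil)))))) (.g (nat_lit 5) .nil .nil))))) (.nd (nat_lit 4) (.nd (nat_lit 5) 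
(.lf (nat_lit 139849) (.g (nat_lit 2271) (.e (nat_lit 24644) (nat_lit 11) (.e (nat_lit 368676) (nat_lit 21) (.e (nat_lit 516179) (nat_lit 15) (.e (nat_lit 475198) (nat_lit 40) (.e (nat_lit 704707) (nat_lit 9) (.e (nat_lit 1234) (nat_lit 91) (.e (nat_lit 90158) (nat_lit 11) .nil))))))) (.g (nat_lit 4) .nil .nil))) 
(.lf (nat_lit 139881) (.g (nat_lit 2014) (.e (nat_lit 24644) (nat_lit 11) (.e (nat_lit 368676) (nat_lit 21) (.e (nat_lit 516181) (nat_lit 15) (.e (nat_lit 475212) (nat_lit 42) (.e (nat_lit 720938) (nat_lit 22) (.e (nat_lit 90158) (nat_lit 11) .nil)))))) (.g (nat_lit 5) .nil .nil)))) (.nd (nat_lit 5) 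
(.lf (nat_lit 139865) (.g (nat_lit 2981) (.e (nat_lit 24644) (nat_lit 11) (.e (nat_lit 368676) (nat_lit 21) (.e (nat_lit 516179) (nat_lit 15) (.e (nat_lit 475214) (nat_lit 42) (.e (nat_lit 720939) (nat_lit 22) (.e (nat_lit 90160) (nat_lit 11) .nil)))))) (.g (nat_lit 0) .nil .nil))) 
(.lf (nat_lit 139897) (.g (nat_lit 1527) (.e (nat_lit 24644) (nat_lit 11) (.e (nat_lit 368676) (nat_lit 21) (.e (nat_lit 516182) (nat_lit 15) (.e (nat_lit 475214) (nat_lit 42) (.e (nat_lit 720939) (nat_lit 22) (.e (nat_lit 90158) (nat_lit 11) .nil)))))) (.g (nat_lit 4) .nil .nil)))))) (.nd (nat_lit 3) (.nd (nat_lit 4) (.nd (nat_lit 5) 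
(.lf (nat_lit 139845) (.g (nat_lit 2141) (.e (nat_lit 24644) (nat_lit 11) (.e (nat_lit 368676) (nat_lit 21) (.e (nat_lit 516178) (nat_lit 15) (.e (nat_lit 475214) (nat_lit 42) (.e (nat_lit 720937) (nat_lit 22) .nil))))) .nil)) 
(.lf (nat_lit 139877) (.g (nat_lit 1821) (.e (nat_lit 24644) (nat_lit 11) (.e (nat_lit 368676) (nat_lit 21) (.e (nat_lit 516180) (nat_lit 15) (.e (nat_lit 475214) (nat_lit 42) (.e (nat_lit 720941) (nat_lit 22) (.e (nat_lit 90160) (nat_lit 11) .nil)))))) (.g (nat_lit 4) .nil .nil)))) (.nd (nat_lit 5) 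
(.lf (nat_lit 139861) (.g (nat_lit 2914) (.e (nat_lit 24644) (nat_lit 11) (.e (nat_lit 368676) (nat_lit 21) (.e (nat_lit 516179) (nat_lit 15) (.e (nat_lit 475214) (nat_lit 42) (.e (nat_lit 720937) (nat_lit 22) (.e (nat_lit 90158) (nat_lit 11) .nil)))))) (.g (nat_lit 0) .nil .nil))) 
(.lf (nat_lit 139893) (.g (nat_lit 1668) (.e (nat_lit 24644) (nat_lit 11) (.e (nat_lit 368676) (nat_lit 21) (.e (nat_lit 516182) (nat_lit 15) (.e (nat_lit 475212) (nat_lit 42) (.e (nat_lit 720938) (nat_lit 22) (.e (nat_lit 90160) (nat_lit 11) .nil)))))) (.g (nat_lit 5) .nil .nil))))) (.nd (nat_lit 4) (.nd (nat_lit 5) 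
(.lf (nat_lit 139853) (.g (nat_lit 2618) (.e (nat_lit 24644) (nat_lit 11) (.e (nat_lit 368676) (nat_lit 21) (.e (nat_lit 516179) (nat_lit 15) (.e (nat_lit 475212) (nat_lit 42) (.e (nat_lit 720938) (nat_lit 22) (.e (nat_lit 90158) (nat_lit 11) .nil)))))) (.g (nat_lit 0) .nil .nil))) 
(.lf (nat_lit 139885) (.g (nat_lit 2285) (.e (nat_lit 24644) (nat_lit 11) (.e (nat_lit 368676) (nat_lit 21) (.e (nat_lit 516181) (nat_lit 15) (.e (nat_lit 475214) (nat_lit 42) (.e (nat_lit 720937) (nat_lit 22) (.e (nat_lit 90160) (nat_lit 11) .nil)))))) (.g (nat_lit 0) .nil .nil)))) (.nd (nat_lit 5) 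
(.lf (nat_lit 139869) (.g (nat_lit 1423) (.e (nat_lit 24644) (nat_lit 11) (.e (nat_lit 368676) (nat_lit 21) (.e (nat_lit 516180) (nat_lit 15) (.e (nat_lit 475212) (nat_lit 42) (.e (nat_lit 720936) (nat_lit 22) (.e (nat_lit 90158) (nat_lit 11) .nil)))))) (.g (nat_lit 4) .nil .nil))) 
(.lf (nat_lit 139901) (.g (nat_lit 1942) (.e (nat_lit 24644) (nat_lit 11) (.e (nat_lit 368676) (nat_lit 21) (.e (nat_lit 524032) (nat_lit 33) (.e (nat_lit 401454) (nat_lit 12) (.e (nat_lit 483072) (nat_lit 2) .nil))))) (.g (nat_lit 4) .nil .nil))))))) (.nd (nat_lit 2) (.nd (nat_lit 3) (.nd (nat_lit 4) (.nd (nat_lit 5) 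
(.lf (nat_lit 139843) (.g (nat_lit 900) (.e (nat_lit 24644) (nat_lit 11) (.e (nat_lit 368676) (nat_lit 21) (.e (nat_lit 516178) (nat_lit 15) .nil))) .nil)) 
(.lf (nat_lit 139875) (.g (nat_lit 2300) (.e (nat_lit 24644) (nat_lit 11) (.e (nat_lit 368676) (nat_lit 21) (.e (nat_lit 516180) (nat_lit 15) (.e (nat_lit 475214) (nat_lit 42) (.e (nat_lit 720938) (nat_lit 22) (.e (nat_lit 90160) (nat_lit 11) .nil)))))) (.g (nat_lit 0) .nil .nil)))) (.nd (nat_lit 5) 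
(.lf (nat_lit 139859) (.g (nat_lit 2050) (.e (nat_lit 24644) (nat_lit 11) (.e (nat_lit 368676) (nat_lit 21) (.e (nat_lit 516179) (nat_lit 15) (.e (nat_lit 475213) (nat_lit 42) (.e (nat_lit 720938) (nat_lit 22) (.e (nat_lit 90160) (nat_lit 11) .nil)))))) (.g (nat_lit 5) .nil .nil))) 
(.lf (nat_lit 139891) (.g (nat_lit 1607) (.e (nat_lit 24644) (nat_lit 11) (.e (nat_lit 368676) (nat_lit 21) (.e (nat_lit 516182) (nat_lit 15) (.e (nat_lit 475212) (nat_lit 42) (.e (nat_lit 720936) (nat_lit 22) .nil))))) .nil)))) (.nd (nat_lit 4) (.nd (nat_lit 5) 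
(.lf (nat_lit 139851) (.g (nat_lit 1248) (.e (nat_lit 24644) (nat_lit 11) (.e (nat_lit 368676) (nat_lit 21) (.e (nat_lit 516179) (nat_lit 15) (.e (nat_lit 475204) (nat_lit 40) .nil)))) .nil)) 
(.lf (nat_lit 139883) (.g (nat_lit 2101) (.e (nat_lit 24644) (nat_lit 11) (.e (nat_lit 368676) (nat_lit 21) (.e (nat_lit 516181) (nat_lit 15) (.e (nat_lit 475212) (nat_lit 42) (.e (nat_lit 720941) (nat_lit 22) (.e (nat_lit 90158) (nat_lit 11) .nil)))))) (.g (nat_lit 5) .nil .nil)))) (.nd (nat_lit 5) 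
(.lf (nat_lit 139867) (.g (nat_lit 1296) (.e (nat_lit 24644) (nat_lit 11) (.e (nat_lit 368676) (nat_lit 21) (.e (nat_lit 516179) (nat_lit 15) (.e (nat_lit 475214) (nat_lit 42) (.e (nat_lit 728832) (nat_lit 22) (.e (nat_lit 90158) (nat_lit 11) .nil)))))) (.g (nat_lit 4) .nil .nil))) 
(.lf (nat_lit 139899) (.g (nat_lit 1785) (.e (nat_lit 24644) (nat_lit 11) (.e (nat_lit 368676) (nat_lit 21) (.e (nat_lit 516185) (nat_lit 16) (.e (nat_lit 491556) (nat_lit 9) .nil)))) .nil))))) (.nd (nat_lit 3) (.nd (nat_lit 4) (.nd (nat_lit 5) 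
(.lf (nat_lit 139847) (.g (nat_lit 322) (.e (nat_lit 24644) (nat_lit 11) (.e (nat_lit 368676) (nat_lit 21) (.e (nat_lit 516179) (nat_lit 15) .nil))) .nil)) 
(.lf (nat_lit 139879) (.g (nat_lit 2048) (.e (nat_lit 24644) (nat_lit 11) (.e (nat_lit 368676) (nat_lit 21) (.e (nat_lit 516181) (nat_lit 15) (.e (nat_lit 475212) (nat_lit 42) (.e (nat_lit 720937) (nat_lit 22) (.e (nat_lit 90158) (nat_lit 11) .nil)))))) (.g (nat_lit 5) .nil .nil)))) (.nd (nat_lit 5) 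
(.lf (nat_lit 139863) (.g (nat_lit 2883) (.e (nat_lit 24644) (nat_lit 11) (.e (nat_lit 368676) (nat_lit 21) (.e (nat_lit 516179) (nat_lit 15) (.e (nat_lit 475214) (nat_lit 42) (.e (nat_lit 720938) (nat_lit 22) (.e (nat_lit 90158) (nat_lit 11) .nil)))))) (.g (nat_lit 0) .nil .nil))) 
(.lf (nat_lit 139895) (.g (nat_lit 2156) (.e (nat_lit 24644) (nat_lit 11) (.e (nat_lit 368676) (nat_lit 21) (.e (nat_lit 516182) (nat_lit 15) (.e (nat_lit 475214) (nat_lit 42) (.e (nat_lit 720937) (nat_lit 22) (.e (nat_lit 90160) (nat_lit 11) .nil)))))) (.g (nat_lit 0) .nil .nil))))) (.nd (nat_lit 4) (.nd (nat_lit 5) 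
(.lf (nat_lit 139855) (.g (nat_lit 2725) (.e (nat_lit 24644) (nat_lit 11) (.e (nat_lit 368676) (nat_lit 21) (.e (nat_lit 516179) (nat_lit 15) (.e (nat_lit 475212) (nat_lit 42) (.e (nat_lit 720941) (nat_lit 22) (.e (nat_lit 90158) (nat_lit 11) .nil)))))) (.g (nat_lit 0) .nil .nil))) 
(.lf (nat_lit 139887) (.g (nat_lit 2070) (.e (nat_lit 24644) (nat_lit 11) (.e (nat_lit 368676) (nat_lit 21) (.e (nat_lit 516181) (nat_lit 15) (.e (nat_lit 475214) (nat_lit 42) (.e (nat_lit 720939) (nat_lit 22) (.e (nat_lit 90158) (nat_lit 11) .nil)))))) (.g (nat_lit 4) .nil .nil)))) (.nd (nat_lit 5) 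
(.lf (nat_lit 139871) (.g (nat_lit 2351) (.e (nat_lit 24644) (nat_lit 11) (.e (nat_lit 368676) (nat_lit 21) (.e (nat_lit 516180) (nat_lit 15) (.e (nat_lit 475212) (nat_lit 42) (.e (nat_lit 720941) (nat_lit 22) (.e (nat_lit 90160) (nat_lit 11) .nil)))))) (.g (nat_lit 0) .nil .nil))) 
(.lf (nat_lit 139903) (.g (nat_lit 622) (.e (nat_lit 24645) (nat_lit 11) (.e (nat_lit 368662) (nat_lit 18) (.e (nat_lit 7160) (nat_lit 382) .nil))) .nil))))))))

noncomputable def tv1858 : DT := (.nd (nat_lit 0) (.nd (nat_lit 1) (.nd (nat_lit 2) (.nd (nat_lit 3) (.nd (nat_lit 4) (.nd (nat_lit 5) (.nd (nat_lit 6) 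
(.lf (nat_lit 139904) (.g (nat_lit 597) (.e (nat_lit 24645) (nat_lit 11) (.e (nat_lit 368662) (nat_lit 18) (.e (nat_lit 7271) (nat_lit 385) .nil))) .nil)) 
(.lf (nat_lit 139968) (.g (nat_lit 3731) (.e (nat_lit 24647) (nat_lit 12) (.e (nat_lit 385068) (nat_lit 26) (.e (nat_lit 532499) (nat_lit 1) (.e (nat_lit 57847) (nat_lit 252) (.e (nat_lit 57442) (nat_lit 18) .nil))))) .nil))) (.nd (nat_lit 6) 
(.lf (nat_lit 139936) (.g (nat_lit 1648) (.e (nat_lit 24646) (nat_lit 11) (.e (nat_lit 368676) (nat_lit 21) (.e (nat_lit 516147) (nat_lit 9) (.e (nat_lit 426448) (nat_lit 20) (.e (nat_lit 114716) (nat_lit 22) .nil))))) .nil)) 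
(.lf (nat_lit 140000) (.g (nat_lit 3568) (.e (nat_lit 24648) (nat_lit 12) (.e (nat_lit 385068) (nat_lit 26) (.e (nat_lit 532499) (nat_lit 1) (.e (nat_lit 57847) (nat_lit 252) (.e (nat_lit 57440) (nat_lit 18) (.e (nat_lit 392960) (nat_lit 10) .nil)))))) (.g (nat_lit 5) .nil .nil))))) (.nd (nat_lit 5) (.nd (nat_lit 6) 
(.lf (nat_lit 139920) (.g (nat_lit 492) (.e (nat_lit 24646) (nat_lit 11) (.e (nat_lit 368662) (nat_lit 18) (.e (nat_lit 7271) (nat_lit 385) .nil))) .nil)) 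
(.lf (nat_lit 139984) (.g (nat_lit 1521) (.e (nat_lit 24647) (nat_lit 12) (.e (nat_lit 385094) (nat_lit 49) (.e (nat_lit 778324) (nat_lit 5) (.e (nat_lit 73791) (nat_lit 45) (.e (nat_lit 991) (nat_lit 81) .nil))))) .nil))) (.nd (nat_lit 6) 
(.lf (nat_lit 139952) (.g (nat_lit 1791) (.e (nat_lit 24646) (nat_lit 11) (.e (nat_lit 368676) (nat_lit 21) (.e (nat_lit 516180) (nat_lit 15) (.e (nat_lit 475214) (nat_lit 42) (.e (nat_lit 720937) (nat_lit 22) .nil))))) .nil)) 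
(.lf (nat_lit 140016) (.g (nat_lit 2168) (.e (nat_lit 24648) (nat_lit 12) (.e (nat_lit 385072) (nat_lit 31) (.e (nat_lit 573484) (nat_lit 13) (.e (nat_lit 65617) (nat_lit 10) (.e (nat_lit 344132) (nat_lit 26) (.e (nat_lit 557085) (nat_lit 11) .nil)))))) (.g (nat_lit 4) .nil .nil)))))) (.nd (nat_lit 4) (.nd (nat_lit 5) (.nd (nat_lit 6) 
(.lf (nat_lit 139912) (.g (nat_lit 1616) (.e (nat_lit 24645) (nat_lit 11) (.e (nat_lit 368676) (nat_lit 21) (.e (nat_lit 516097) (nat_lit 0) (.e (nat_lit 7936) (nat_lit 407) .nil)))) .nil)) 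
(.lf (nat_lit 139976) (.g (nat_lit 2010) (.e (nat_lit 24647) (nat_lit 12) (.e (nat_lit 385074) (nat_lit 31) (.e (nat_lit 573449) (nat_lit 9) (.e (nat_lit 1586) (nat_lit 111) .nil)))) .nil))) (.nd (nat_lit 6) 
(.lf (nat_lit 139944) (.g (nat_lit 1139) (.e (nat_lit 24646) (nat_lit 11) (.e (nat_lit 368676) (nat_lit 21) (.e (nat_lit 516179) (nat_lit 15) .nil))) .nil)) 
(.lf (nat_lit 140008) (.g (nat_lit 2764) (.e (nat_lit 24648) (nat_lit 12) (.e (nat_lit 385068) (nat_lit 26) (.e (nat_lit 532503) (nat_lit 1) (.e (nat_lit 57847) (nat_lit 252) (.e (nat_lit 57440) (nat_lit 18) (.e (nat_lit 392960) (nat_lit 10) .nil)))))) (.g (nat_lit 4) .nil .nil))))) (.nd (nat_lit 5) (.nd (nat_lit 6) 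
(.lf (nat_lit 139928) (.g (nat_lit 1143) (.e (nat_lit 24646) (nat_lit 11) (.e (nat_lit 368676) (nat_lit 21) (.e (nat_lit 516145) (nat_lit 9) .nil))) .nil)) 
(.lf (nat_lit 139992) (.g (nat_lit 3042) (.e (nat_lit 24648) (nat_lit 12) (.e (nat_lit 385066) (nat_lit 26) (.e (nat_lit 532502) (nat_lit 1) (.e (nat_lit 57854) (nat_lit 252) (.e (nat_lit 57442) (nat_lit 18) (.e (nat_lit 392960) (nat_lit 10) .nil)))))) (.g (nat_lit 5) .nil .nil)))) (.nd (nat_lit 6) 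
(.lf (nat_lit 139960) (.g (nat_lit 1137) (.e (nat_lit 24646) (nat_lit 11) (.e (nat_lit 368676) (nat_lit 21) (.e (nat_lit 516182) (nat_lit 15) .nil))) .nil)) 
(.lf (nat_lit 140024) (.g (nat_lit 1389) (.e (nat_lit 24648) (nat_lit 12) (.e (nat_lit 385093) (nat_lit 49) (.e (nat_lit 778324) (nat_lit 5) (.e (nat_lit 73791) (nat_lit 45) .nil)))) .nil)))))) (.nd (nat_lit 3) (.nd (nat_lit 4) (.nd (nat_lit 5) (.nd (nat_lit 6) 
(.lf (nat_lit 139908) (.g (nat_lit 2014) (.e (nat_lit 24645) (nat_lit 11) (.e (nat_lit 368662) (nat_lit 18) (.e (nat_lit 7271) (nat_lit 385) (.e (nat_lit 122919) (nat_lit 15) (.e (nat_lit 360492) (nat_lit 22) .nil))))) .nil)) 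
(.lf (nat_lit 139972) (.g (nat_lit 911) (.e (nat_lit 24647) (nat_lit 12) (.e (nat_lit 385068) (nat_lit 26) (.e (nat_lit 532504) (nat_lit 1) .nil))) .nil))) (.nd (nat_lit 6) 
(.lf (nat_lit 139940) (.g (nat_lit 2033) (.e (nat_lit 24646) (nat_lit 11) (.e (nat_lit 368676) (nat_lit 21) (.e (nat_lit 516148) (nat_lit 9) (.e (nat_lit 426448) (nat_lit 20) (.e (nat_lit 114714) (nat_lit 22) .nil))))) .nil)) 
(.lf (nat_lit 140004) (.g (nat_lit 3960) (.e (nat_lit 24648) (nat_lit 12) (.e (nat_lit 385068) (nat_lit 26) (.e (nat_lit 532501) (nat_lit 1) (.e (nat_lit 57852) (nat_lit 252) (.e (nat_lit 57442) (nat_lit 18) .nil))))) .nil)))) (.nd (nat_lit 5) (.nd (nat_lit 6) 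
(.lf (nat_lit 139924) (.g (nat_lit 2437) (.e (nat_lit 24646) (nat_lit 11) (.e (nat_lit 368676) (nat_lit 21) (.e (nat_lit 516097) (nat_lit 0) (.e (nat_lit 7591) (nat_lit 407) (.e (nat_lit 73753) (nat_lit 8) .nil))))) .nil)) 
(.lf (nat_lit 139988) (.g (nat_lit 3710) (.e (nat_lit 24648) (nat_lit 12) (.e (nat_lit 385066) (nat_lit 26) (.e (nat_lit 532499) (nat_lit 1) (.e (nat_lit 57847) (nat_lit 252) (.e (nat_lit 57442) (nat_lit 18) .nil))))) .nil))) (.nd (nat_lit 6) 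
(.lf (nat_lit 139956) (.g (nat_lit 1528) (.e (nat_lit 24646) (nat_lit 11) (.e (nat_lit 368676) (nat_lit 21) (.e (nat_lit 516181) (nat_lit 15) (.e (nat_lit 475214) (nat_lit 42) .nil)))) .nil)) 
(.lf (nat_lit 140020) (.g (nat_lit 1829) (.e (nat_lit 24648) (nat_lit 12) (.e (nat_lit 385074) (nat_lit 31) (.e (nat_lit 573482) (nat_lit 13) (.e (nat_lit 65609) (nat_lit 10) .nil)))) .nil))))) (.nd (nat_lit 4) (.nd (nat_lit 5) (.nd (nat_lit 6) 
(.lf (nat_lit 139916) (.g (nat_lit 911) (.e (nat_lit 24645) (nat_lit 11) (.e (nat_lit 368676) (nat_lit 21) (.e (nat_lit 516181) (nat_lit 15) .nil))) .nil)) 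
(.lf (nat_lit 139980) (.g (nat_lit 843) (.e (nat_lit 24647) (nat_lit 12) (.e (nat_lit 385074) (nat_lit 31) (.e (nat_lit 573477) (nat_lit 12) .nil))) .nil))) (.nd (nat_lit 6) 
(.lf (nat_lit 139948) (.g (nat_lit 1686) (.e (nat_lit 24646) (nat_lit 11) (.e (nat_lit 368676) (nat_lit 21) (.e (nat_lit 516180) (nat_lit 15) (.e (nat_lit 475212) (nat_lit 42) (.e (nat_lit 720937) (nat_lit 22) .nil))))) .nil)) 
(.lf (nat_lit 140012) (.g (nat_lit 3105) (.e (nat_lit 24648) (nat_lit 12) (.e (nat_lit 385068) (nat_lit 26) (.e (nat_lit 532504) (nat_lit 1) (.e (nat_lit 57854) (nat_lit 252) (.e (nat_lit 57442) (nat_lit 18) (.e (nat_lit 392960) (nat_lit 10) .nil)))))) (.g (nat_lit 5) .nil .nil))))) (.nd (nat_lit 5) (.nd (nat_lit 6) 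
(.lf (nat_lit 139932) (.g (nat_lit 1252) (.e (nat_lit 24646) (nat_lit 11) (.e (nat_lit 368676) (nat_lit 21) (.e (nat_lit 516147) (nat_lit 9) (.e (nat_lit 426446) (nat_lit 20) .nil)))) .nil)) 
(.lf (nat_lit 139996) (.g (nat_lit 2503) (.e (nat_lit 24648) (nat_lit 12) (.e (nat_lit 385066) (nat_lit 26) (.e (nat_lit 532515) (nat_lit 3) (.e (nat_lit 114710) (nat_lit 21) (.e (nat_lit 57692) (nat_lit 156) (.e (nat_lit 171776) (nat_lit 63) (.e (nat_lit 90158) (nat_lit 11) .nil))))))) (.g (nat_lit 4) .nil .nil)))) (.nd (nat_lit 6) 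
(.lf (nat_lit 139964) (.g (nat_lit 2292) (.e (nat_lit 24646) (nat_lit 11) (.e (nat_lit 368676) (nat_lit 21) (.e (nat_lit 516185) (nat_lit 16) (.e (nat_lit 491560) (nat_lit 10) (.e (nat_lit 344130) (nat_lit 26) .nil))))) .nil)) 
(.lf (nat_lit 140028) (.g (nat_lit 904) (.e (nat_lit 24648) (nat_lit 12) (.e (nat_lit 385105) (nat_lit 50) (.e (nat_lit 786473) (nat_lit 27) .nil))) .nil))))))) (.nd (nat_lit 2) (.nd (nat_lit 3) (.nd (nat_lit 4) (.nd (nat_lit 5) (.nd (nat_lit 6) 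
(.lf (nat_lit 139906) (.g (nat_lit 1694) (.e (nat_lit 24645) (nat_lit 11) (.e (nat_lit 368662) (nat_lit 18) (.e (nat_lit 7271) (nat_lit 385) (.e (nat_lit 122917) (nat_lit 15) (.e (nat_lit 360492) (nat_lit 22) .nil))))) .nil)) 
(.lf (nat_lit 139970) (.g (nat_lit 1758) (.e (nat_lit 24647) (nat_lit 12) (.e (nat_lit 385068) (nat_lit 26) (.e (nat_lit 532501) (nat_lit 1) (.e (nat_lit 57854) (nat_lit 252) .nil)))) .nil))) (.nd (nat_lit 6) 
(.lf (nat_lit 139938) (.g (nat_lit 2150) (.e (nat_lit 24646) (nat_lit 11) (.e (nat_lit 368676) (nat_lit 21) (.e (nat_lit 516148) (nat_lit 9) (.e (nat_lit 426446) (nat_lit 20) (.e (nat_lit 114716) (nat_lit 22) .nil))))) .nil)) 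
(.lf (nat_lit 140002) (.g (nat_lit 3950) (.e (nat_lit 24648) (nat_lit 12) (.e (nat_lit 385068) (nat_lit 26) (.e (nat_lit 532499) (nat_lit 1) (.e (nat_lit 57847) (nat_lit 252) (.e (nat_lit 57443) (nat_lit 18) (.e (nat_lit 392960) (nat_lit 10) .nil)))))) (.g (nat_lit 5) .nil .nil))))) (.nd (nat_lit 5) (.nd (nat_lit 6) 
(.lf (nat_lit 139922) (.g (nat_lit 1282) (.e (nat_lit 24646) (nat_lit 11) (.e (nat_lit 368662) (nat_lit 18) (.e (nat_lit 7273) (nat_lit 385) (.e (nat_lit 122914) (nat_lit 14) (.e (nat_lit 352324) (nat_lit 26) .nil))))) .nil)) 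
(.lf (nat_lit 139986) (.g (nat_lit 2317) (.e (nat_lit 24648) (nat_lit 12) (.e (nat_lit 385066) (nat_lit 26) (.e (nat_lit 532499) (nat_lit 1) (.e (nat_lit 65280) (nat_lit 211) .nil)))) .nil))) (.nd (nat_lit 6) 
(.lf (nat_lit 139954) (.g (nat_lit 1017) (.e (nat_lit 24646) (nat_lit 11) (.e (nat_lit 368676) (nat_lit 21) (.e (nat_lit 516181) (nat_lit 15) .nil))) .nil)) 
(.lf (nat_lit 140018) (.g (nat_lit 1890) (.e (nat_lit 24648) (nat_lit 12) (.e (nat_lit 385072) (nat_lit 31) (.e (nat_lit 573484) (nat_lit 13) (.e (nat_lit 65617) (nat_lit 10) (.e (nat_lit 344133) (nat_lit 26) (.e (nat_lit 557086) (nat_lit 11) .nil)))))) (.g (nat_lit 4) .nil .nil)))))) (.nd (nat_lit 4) (.nd (nat_lit 5) (.nd (nat_lit 6) 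
(.lf (nat_lit 139914) (.g (nat_lit 901) (.e (nat_lit 24645) (nat_lit 11) (.e (nat_lit 368676) (nat_lit 21) (.e (nat_lit 516148) (nat_lit 9) .nil))) .nil)) 
(.lf (nat_lit 139978) (.g (nat_lit 851) (.e (nat_lit 24647) (nat_lit 12) (.e (nat_lit 385074) (nat_lit 31) (.e (nat_lit 573457) (nat_lit 9) .nil))) .nil))) (.nd (nat_lit 6) 
(.lf (nat_lit 139946) (.g (nat_lit 2212) (.e (nat_lit 24646) (nat_lit 11) (.e (nat_lit 368676) (nat_lit 21) (.e (nat_lit 516179) (nat_lit 15) (.e (nat_lit 475214) (nat_lit 42) .nil)))) .nil)) 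
(.lf (nat_lit 140010) (.g (nat_lit 3672) (.e (nat_lit 24648) (nat_lit 12) (.e (nat_lit 385068) (nat_lit 26) (.e (nat_lit 532504) (nat_lit 1) (.e (nat_lit 57852) (nat_lit 252) (.e (nat_lit 57440) (nat_lit 18) (.e (nat_lit 392960) (nat_lit 10) .nil)))))) (.g (nat_lit 4) .nil .nil))))) (.nd (nat_lit 5) (.nd (nat_lit 6) 
(.lf (nat_lit 139930) (.g (nat_lit 2261) (.e (nat_lit 24646) (nat_lit 11) (.e (nat_lit 368676) (nat_lit 21) (.e (nat_lit 516146) (nat_lit 9) (.e (nat_lit 426448) (nat_lit 20) .nil)))) .nil)) 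
(.lf (nat_lit 139994) (.g (nat_lit 2491) (.e (nat_lit 24648) (nat_lit 12) (.e (nat_lit 385066) (nat_lit 26) (.e (nat_lit 532504) (nat_lit 1) (.e (nat_lit 57852) (nat_lit 252) (.e (nat_lit 57440) (nat_lit 18) (.e (nat_lit 392960) (nat_lit 10) .nil)))))) (.g (nat_lit 5) .nil .nil)))) (.nd (nat_lit 6) 
(.lf (nat_lit 139962) (.g (nat_lit 658) (.e (nat_lit 24646) (nat_lit 11) (.e (nat_lit 368676) (nat_lit 21) (.e (nat_lit 516185) (nat_lit 16) .nil))) .nil)) 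
(.lf (nat_lit 140026) (.g (nat_lit 1234) (.e (nat_lit 24648) (nat_lit 12) (.e (nat_lit 385094) (nat_lit 49) (.e (nat_lit 778324) (nat_lit 5) (.e (nat_lit 73791) (nat_lit 45) .nil)))) .nil)))))) (.nd (nat_lit 3) (.nd (nat_lit 4) (.nd (nat_lit 5) (.nd (nat_lit 6) 
(.lf (nat_lit 139910) (.g (nat_lit 887) (.e (nat_lit 24645) (nat_lit 11) (.e (nat_lit 368662) (nat_lit 18) (.e (nat_lit 7272) (nat_lit 385) (.e (nat_lit 122918) (nat_lit 15) .nil)))) .nil)) 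
(.lf (nat_lit 139974) (.g (nat_lit 3459) (.e (nat_lit 24647) (nat_lit 12) (.e (nat_lit 385068) (nat_lit 26) (.e (nat_lit 532504) (nat_lit 1) (.e (nat_lit 57852) (nat_lit 252) (.e (nat_lit 57442) (nat_lit 18) .nil))))) .nil))) (.nd (nat_lit 6) 
(.lf (nat_lit 139942) (.g (nat_lit 820) (.e (nat_lit 24646) (nat_lit 11) (.e (nat_lit 368676) (nat_lit 21) (.e (nat_lit 516150) (nat_lit 9) .nil))) .nil)) 
(.lf (nat_lit 140006) (.g (nat_lit 913) (.e (nat_lit 24648) (nat_lit 12) (.e (nat_lit 385068) (nat_lit 26) (.e (nat_lit 532503) (nat_lit 1) .nil))) .nil)))) (.nd (nat_lit 5) (.nd (nat_lit 6) 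
(.lf (nat_lit 139926) (.g (nat_lit 1141) (.e (nat_lit 24646) (nat_lit 11) (.e (nat_lit 368676) (nat_lit 21) (.e (nat_lit 516144) (nat_lit 9) .nil))) .nil)) 
(.lf (nat_lit 139990) (.g (nat_lit 2270) (.e (nat_lit 24648) (nat_lit 12) (.e (nat_lit 385066) (nat_lit 26) (.e (nat_lit 532501) (nat_lit 1) (.e (nat_lit 57852) (nat_lit 252) (.e (nat_lit 57440) (nat_lit 18) (.e (nat_lit 392960) (nat_lit 10) .nil)))))) (.g (nat_lit 4) .nil .nil)))) (.nd (nat_lit 6) 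
(.lf (nat_lit 139958) (.g (nat_lit 2093) (.e (nat_lit 24646) (nat_lit 11) (.e (nat_lit 368676) (nat_lit 21) (.e (nat_lit 516181) (nat_lit 15) (.e (nat_lit 475214) (nat_lit 42) (.e (nat_lit 720938) (nat_lit 22) .nil))))) .nil)) 
(.lf (nat_lit 140022) (.g (nat_lit 4516) (.e (nat_lit 24648) (nat_lit 12) (.e (nat_lit 385074) (nat_lit 31) (.e (nat_lit 573484) (nat_lit 13) (.e (nat_lit 65617) (nat_lit 10) (.e (nat_lit 344132) (nat_lit 26) (.e (nat_lit 557085) (nat_lit 11) .nil)))))) (.g (nat_lit 0) .nil .nil)))))) (.nd (nat_lit 4) (.nd (nat_lit 5) (.nd (nat_lit 6) 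
(.lf (nat_lit 139918) (.g (nat_lit 593) (.e (nat_lit 24646) (nat_lit 11) (.e (nat_lit 368662) (nat_lit 18) (.e (nat_lit 3978) (nat_lit 239) .nil))) .nil)) 
(.lf (nat_lit 139982) (.g (nat_lit 2813) (.e (nat_lit 24647) (nat_lit 12) (.e (nat_lit 385074) (nat_lit 31) (.e (nat_lit 573482) (nat_lit 13) (.e (nat_lit 65616) (nat_lit 10) (.e (nat_lit 344133) (nat_lit 26) (.e (nat_lit 557087) (nat_lit 11) .nil)))))) (.g (nat_lit 4) .nil .nil)))) (.nd (nat_lit 6) 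
(.lf (nat_lit 139950) (.g (nat_lit 1790) (.e (nat_lit 24646) (nat_lit 11) (.e (nat_lit 368676) (nat_lit 21) (.e (nat_lit 516180) (nat_lit 15) (.e (nat_lit 475212) (nat_lit 42) (.e (nat_lit 720941) (nat_lit 22) (.e (nat_lit 90159) (nat_lit 11) .nil)))))) (.g (nat_lit 4) .nil .nil))) 
(.lf (nat_lit 140014) (.g (nat_lit 1986) (.e (nat_lit 24648) (nat_lit 12) (.e (nat_lit 385072) (nat_lit 31) (.e (nat_lit 573484) (nat_lit 13) (.e (nat_lit 65617) (nat_lit 10) (.e (nat_lit 344130) (nat_lit 26) (.e (nat_lit 557085) (nat_lit 11) .nil)))))) (.g (nat_lit 4) .nil .nil))))) (.nd (nat_lit 5) (.nd (nat_lit 6) 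
(.lf (nat_lit 139934) (.g (nat_lit 1596) (.e (nat_lit 24646) (nat_lit 11) (.e (nat_lit 368676) (nat_lit 21) (.e (nat_lit 516147) (nat_lit 9) (.e (nat_lit 426446) (nat_lit 20) (.e (nat_lit 114716) (nat_lit 22) (.e (nat_lit 90157) (nat_lit 11) .nil)))))) (.g (nat_lit 4) .nil .nil))) 
(.lf (nat_lit 139998) (.g (nat_lit 2309) (.e (nat_lit 24648) (nat_lit 12) (.e (nat_lit 385066) (nat_lit 26) (.e (nat_lit 532515) (nat_lit 3) (.e (nat_lit 114711) (nat_lit 21) (.e (nat_lit 57692) (nat_lit 156) (.e (nat_lit 171776) (nat_lit 63) (.e (nat_lit 90158) (nat_lit 11) .nil))))))) (.g (nat_lit 4) .nil .nil)))) (.nd (nat_lit 6) 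
(.lf (nat_lit 139966) (.g (nat_lit 976) (.e (nat_lit 24646) (nat_lit 11) (.e (nat_lit 368676) (nat_lit 21) (.e (nat_lit 524032) (nat_lit 33) .nil))) .nil)) 
(.lf (nat_lit 140030) (.g (nat_lit 3064) (.e (nat_lit 24649) (nat_lit 12) (.e (nat_lit 385068) (nat_lit 26) (.e (nat_lit 532499) (nat_lit 1) (.e (nat_lit 57847) (nat_lit 252) (.e (nat_lit 57440) (nat_lit 18) .nil))))) .nil)))))))) (.nd (nat_lit 1) (.nd (nat_lit 2) (.nd (nat_lit 3) (.nd (nat_lit 4) (.nd (nat_lit 5) (.nd (nat_lit 6) 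
(.lf (nat_lit 139905) (.g (nat_lit 1681) (.e (nat_lit 24645) (nat_lit 11) (.e (nat_lit 368662) (nat_lit 18) (.e (nat_lit 7271) (nat_lit 385) (.e (nat_lit 122916) (nat_lit 14) (.e (nat_lit 352324) (nat_lit 26) .nil))))) .nil)) 
(.lf (nat_lit 139969) (.g (nat_lit 2320) (.e (nat_lit 24647) (nat_lit 12) (.e (nat_lit 385068) (nat_lit 26) (.e (nat_lit 532501) (nat_lit 1) (.e (nat_lit 57852) (nat_lit 252) .nil)))) .nil))) (.nd (nat_lit 6) 
(.lf (nat_lit 139937) (.g (nat_lit 1576) (.e (nat_lit 24646) (nat_lit 11) (.e (nat_lit 368676) (nat_lit 21) (.e (nat_lit 516148) (nat_lit 9) (.e (nat_lit 426446) (nat_lit 20) .nil)))) .nil)) 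
(.lf (nat_lit 140001) (.g (nat_lit 4350) (.e (nat_lit 24648) (nat_lit 12) (.e (nat_lit 385068) (nat_lit 26) (.e (nat_lit 532499) (nat_lit 1) (.e (nat_lit 57847) (nat_lit 252) (.e (nat_lit 57442) (nat_lit 18) (.e (nat_lit 392960) (nat_lit 10) .nil)))))) (.g (nat_lit 5) .nil .nil))))) (.nd (nat_lit 5) (.nd (nat_lit 6) 
(.lf (nat_lit 139921) (.g (nat_lit 1594) (.e (nat_lit 24646) (nat_lit 11) (.e (nat_lit 368662) (nat_lit 18) (.e (nat_lit 7272) (nat_lit 385) (.e (nat_lit 122916) (nat_lit 14) (.e (nat_lit 352322) (nat_lit 26) .nil))))) .nil)) 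
(.lf (nat_lit 139985) (.g (nat_lit 1355) (.e (nat_lit 24648) (nat_lit 12) (.e (nat_lit 385066) (nat_lit 26) (.e (nat_lit 532481) (nat_lit 0) (.e (nat_lit 996) (nat_lit 81) .nil)))) .nil))) (.nd (nat_lit 6) 
(.lf (nat_lit 139953) (.g (nat_lit 1799) (.e (nat_lit 24646) (nat_lit 11) (.e (nat_lit 368676) (nat_lit 21) (.e (nat_lit 516180) (nat_lit 15) (.e (nat_lit 475214) (nat_lit 42) (.e (nat_lit 720938) (nat_lit 22) .nil))))) .nil)) 
(.lf (nat_lit 140017) (.g (nat_lit 2095) (.e (nat_lit 24648) (nat_lit 12) (.e (nat_lit 385072) (nat_lit 31) (.e (nat_lit 573484) (nat_lit 13) (.e (nat_lit 65617) (nat_lit 10) (.e (nat_lit 344133) (nat_lit 26) (.e (nat_lit 557085) (nat_lit 11) .nil)))))) (.g (nat_lit 4) .nil .nil)))))) (.nd (nat_lit 4) (.nd (nat_lit 5) (.nd (nat_lit 6) 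
(.lf (nat_lit 139913) (.g (nat_lit 759) (.e (nat_lit 24645) (nat_lit 11) (.e (nat_lit 368676) (nat_lit 21) (.e (nat_lit 516147) (nat_lit 9) .nil))) .nil)) 
(.lf (nat_lit 139977) (.g (nat_lit 1831) (.e (nat_lit 24647) (nat_lit 12) (.e (nat_lit 385074) (nat_lit 31) (.e (nat_lit 573454) (nat_lit 9) (.e (nat_lit 7936) (nat_lit 111) .nil)))) .nil))) (.nd (nat_lit 6) 
(.lf (nat_lit 139945) (.g (nat_lit 1902) (.e (nat_lit 24646) (nat_lit 11) (.e (nat_lit 368676) (nat_lit 21) (.e (nat_lit 516179) (nat_lit 15) (.e (nat_lit 475212) (nat_lit 42) .nil)))) .nil)) 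
(.lf (nat_lit 140009) (.g (nat_lit 2600) (.e (nat_lit 24648) (nat_lit 12) (.e (nat_lit 385068) (nat_lit 26) (.e (nat_lit 532503) (nat_lit 1) (.e (nat_lit 57847) (nat_lit 252) (.e (nat_lit 57442) (nat_lit 18) (.e (nat_lit 392960) (nat_lit 10) .nil)))))) (.g (nat_lit 4) .nil .nil))))) (.nd (nat_lit 5) (.nd (nat_lit 6) 
(.lf (nat_lit 139929) (.g (nat_lit 1127) (.e (nat_lit 24646) (nat_lit 11) (.e (nat_lit 368676) (nat_lit 21) (.e (nat_lit 516146) (nat_lit 9) .nil))) .nil)) 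
(.lf (nat_lit 139993) (.g (nat_lit 1309) (.e (nat_lit 24648) (nat_lit 12) (.e (nat_lit 385066) (nat_lit 26) (.e (nat_lit 532503) (nat_lit 1) (.e (nat_lit 57847) (nat_lit 252) .nil)))) .nil))) (.nd (nat_lit 6) 
(.lf (nat_lit 139961) (.g (nat_lit 1510) (.e (nat_lit 24646) (nat_lit 11) (.e (nat_lit 368676) (nat_lit 21) (.e (nat_lit 516182) (nat_lit 15) (.e (nat_lit 475214) (nat_lit 42) .nil)))) .nil)) 
(.lf (nat_lit 140025) (.g (nat_lit 1659) (.e (nat_lit 24648) (nat_lit 12) (.e (nat_lit 385094) (nat_lit 49) (.e (nat_lit 778323) (nat_lit 5) (.e (nat_lit 73795) (nat_lit 47) .nil)))) .nil)))))) (.nd (nat_lit 3) (.nd (nat_lit 4) (.nd (nat_lit 5) (.nd (nat_lit 6) 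
(.lf (nat_lit 139909) (.g (nat_lit 853) (.e (nat_lit 24645) (nat_lit 11) (.e (nat_lit 368662) (nat_lit 18) (.e (nat_lit 7272) (nat_lit 385) (.e (nat_lit 122916) (nat_lit 14) .nil)))) .nil)) 
(.lf (nat_lit 139973) (.g (nat_lit 3268) (.e (nat_lit 24647) (nat_lit 12) (.e (nat_lit 385068) (nat_lit 26) (.e (nat_lit 532504) (nat_lit 1) (.e (nat_lit 57852) (nat_lit 252) (.e (nat_lit 57440) (nat_lit 18) .nil))))) .nil))) (.nd (nat_lit 6) 
(.lf (nat_lit 139941) (.g (nat_lit 2051) (.e (nat_lit 24646) (nat_lit 11) (.e (nat_lit 368676) (nat_lit 21) (.e (nat_lit 516148) (nat_lit 9) (.e (nat_lit 426448) (nat_lit 20) (.e (nat_lit 114716) (nat_lit 22) .nil))))) .nil)) 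
(.lf (nat_lit 140005) (.g (nat_lit 2774) (.e (nat_lit 24648) (nat_lit 12) (.e (nat_lit 385068) (nat_lit 26) (.e (nat_lit 532501) (nat_lit 1) (.e (nat_lit 57854) (nat_lit 252) (.e (nat_lit 57442) (nat_lit 18) .nil))))) .nil)))) (.nd (nat_lit 5) (.nd (nat_lit 6) 
(.lf (nat_lit 139925) (.g (nat_lit 1926) (.e (nat_lit 24646) (nat_lit 11) (.e (nat_lit 368676) (nat_lit 21) (.e (nat_lit 516097) (nat_lit 0) (.e (nat_lit 7936) (nat_lit 407) .nil)))) .nil)) 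
(.lf (nat_lit 139989) (.g (nat_lit 3629) (.e (nat_lit 24648) (nat_lit 12) (.e (nat_lit 385066) (nat_lit 26) (.e (nat_lit 532499) (nat_lit 1) (.e (nat_lit 57847) (nat_lit 252) (.e (nat_lit 57443) (nat_lit 18) .nil))))) .nil))) (.nd (nat_lit 6) 
(.lf (nat_lit 139957) (.g (nat_lit 2098) (.e (nat_lit 24646) (nat_lit 11) (.e (nat_lit 368676) (nat_lit 21) (.e (nat_lit 516181) (nat_lit 15) (.e (nat_lit 475214) (nat_lit 42) (.e (nat_lit 720937) (nat_lit 22) .nil))))) .nil)) 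
(.lf (nat_lit 140021) (.g (nat_lit 4436) (.e (nat_lit 24648) (nat_lit 12) (.e (nat_lit 385074) (nat_lit 31) (.e (nat_lit 573484) (nat_lit 13) (.e (nat_lit 65617) (nat_lit 10) (.e (nat_lit 344130) (nat_lit 26) (.e (nat_lit 557085) (nat_lit 11) .nil)))))) (.g (nat_lit 0) .nil .nil)))))) (.nd (nat_lit 4) (.nd (nat_lit 5) (.nd (nat_lit 6) 
(.lf (nat_lit 139917) (.g (nat_lit 2381) (.e (nat_lit 24645) (nat_lit 11) (.e (nat_lit 368676) (nat_lit 21) (.e (nat_lit 516185) (nat_lit 16) (.e (nat_lit 491560) (nat_lit 10) (.e (nat_lit 344131) (nat_lit 26) .nil))))) .nil)) 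
(.lf (nat_lit 139981) (.g (nat_lit 2657) (.e (nat_lit 24647) (nat_lit 12) (.e (nat_lit 385074) (nat_lit 31) (.e (nat_lit 573482) (nat_lit 13) (.e (nat_lit 65609) (nat_lit 10) (.e (nat_lit 344133) (nat_lit 26) (.e (nat_lit 557087) (nat_lit 11) .nil)))))) (.g (nat_lit 4) .nil .nil)))) (.nd (nat_lit 6) 
(.lf (nat_lit 139949) (.g (nat_lit 1794) (.e (nat_lit 24646) (nat_lit 11) (.e (nat_lit 368676) (nat_lit 21) (.e (nat_lit 516180) (nat_lit 15) (.e (nat_lit 475212) (nat_lit 42) (.e (nat_lit 720938) (nat_lit 22) (.e (nat_lit 90159) (nat_lit 11) .nil)))))) (.g (nat_lit 4) .nil .nil))) 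
(.lf (nat_lit 140013) (.g (nat_lit 1416) (.e (nat_lit 24648) (nat_lit 12) (.e (nat_lit 385072) (nat_lit 31) (.e (nat_lit 573451) (nat_lit 9) (.e (nat_lit 1592) (nat_lit 111) .nil)))) .nil)))) (.nd (nat_lit 5) (.nd (nat_lit 6) 
(.lf (nat_lit 139933) (.g (nat_lit 1550) (.e (nat_lit 24646) (nat_lit 11) (.e (nat_lit 368676) (nat_lit 21) (.e (nat_lit 516147) (nat_lit 9) (.e (nat_lit 426446) (nat_lit 20) (.e (nat_lit 114714) (nat_lit 22) .nil))))) .nil)) 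
(.lf (nat_lit 139997) (.g (nat_lit 2862) (.e (nat_lit 24648) (nat_lit 12) (.e (nat_lit 385066) (nat_lit 26) (.e (nat_lit 532515) (nat_lit 3) (.e (nat_lit 114711) (nat_lit 21) (.e (nat_lit 57688) (nat_lit 156) (.e (nat_lit 171776) (nat_lit 63) (.e (nat_lit 90158) (nat_lit 11) .nil))))))) (.g (nat_lit 5) .nil .nil)))) (.nd (nat_lit 6) 
(.lf (nat_lit 139965) (.g (nat_lit 3861) (.e (nat_lit 24646) (nat_lit 11) (.e (nat_lit 368676) (nat_lit 21) (.e (nat_lit 516185) (nat_lit 16) (.e (nat_lit 491560) (nat_lit 10) (.e (nat_lit 344133) (nat_lit 26) (.e (nat_lit 557086) (nat_lit 11) .nil)))))) (.g (nat_lit 5) .nil .nil))) 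
(.lf (nat_lit 140029) (.g (nat_lit 3446) (.e (nat_lit 24649) (nat_lit 12) (.e (nat_lit 385066) (nat_lit 26) (.e (nat_lit 532499) (nat_lit 1) (.e (nat_lit 57847) (nat_lit 252) (.e (nat_lit 57440) (nat_lit 18) .nil))))) .nil))))))) (.nd (nat_lit 2) (.nd (nat_lit 3) (.nd (nat_lit 4) (.nd (nat_lit 5) (.nd (nat_lit 6) 
(.lf (nat_lit 139907) (.g (nat_lit 1991) (.e (nat_lit 24645) (nat_lit 11) (.e (nat_lit 368662) (nat_lit 18) (.e (nat_lit 7271) (nat_lit 385) (.e (nat_lit 122919) (nat_lit 15) (.e (nat_lit 360491) (nat_lit 22) .nil))))) .nil)) 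
(.lf (nat_lit 139971) (.g (nat_lit 1717) (.e (nat_lit 24647) (nat_lit 12) (.e (nat_lit 385068) (nat_lit 26) (.e (nat_lit 532503) (nat_lit 1) (.e (nat_lit 57847) (nat_lit 252) .nil)))) .nil))) (.nd (nat_lit 6) 
(.lf (nat_lit 139939) (.g (nat_lit 1514) (.e (nat_lit 24646) (nat_lit 11) (.e (nat_lit 368676) (nat_lit 21) (.e (nat_lit 516148) (nat_lit 9) (.e (nat_lit 426448) (nat_lit 20) .nil)))) .nil)) 
(.lf (nat_lit 140003) (.g (nat_lit 3719) (.e (nat_lit 24648) (nat_lit 12) (.e (nat_lit 385068) (nat_lit 26) (.e (nat_lit 532501) (nat_lit 1) (.e (nat_lit 57852) (nat_lit 252) (.e (nat_lit 57440) (nat_lit 18) .nil))))) .nil)))) (.nd (nat_lit 5) (.nd (nat_lit 6) 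
(.lf (nat_lit 139923) (.g (nat_lit 1047) (.e (nat_lit 24646) (nat_lit 11) (.e (nat_lit 368676) (nat_lit 21) (.e (nat_lit 516097) (nat_lit 0) .nil))) .nil)) 
(.lf (nat_lit 139987) (.g (nat_lit 3540) (.e (nat_lit 24648) (nat_lit 12) (.e (nat_lit 385066) (nat_lit 26) (.e (nat_lit 532499) (nat_lit 1) (.e (nat_lit 57847) (nat_lit 252) (.e (nat_lit 57440) (nat_lit 18) (.e (nat_lit 392960) (nat_lit 10) .nil)))))) (.g (nat_lit 4) .nil .nil)))) (.nd (nat_lit 6) 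
(.lf (nat_lit 139955) (.g (nat_lit 1567) (.e (nat_lit 24646) (nat_lit 11) (.e (nat_lit 368676) (nat_lit 21) (.e (nat_lit 516181) (nat_lit 15) (.e (nat_lit 475212) (nat_lit 42) .nil)))) .nil)) 
(.lf (nat_lit 140019) (.g (nat_lit 2808) (.e (nat_lit 24648) (nat_lit 12) (.e (nat_lit 385073) (nat_lit 31) (.e (nat_lit 573484) (nat_lit 13) (.e (nat_lit 65617) (nat_lit 10) (.e (nat_lit 344130) (nat_lit 26) (.e (nat_lit 557087) (nat_lit 11) .nil)))))) (.g (nat_lit 4) .nil .nil)))))) (.nd (nat_lit 4) (.nd (nat_lit 5) (.nd (nat_lit 6) 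
(.lf (nat_lit 139915) (.g (nat_lit 1537) (.e (nat_lit 24645) (nat_lit 11) (.e (nat_lit 368676) (nat_lit 21) (.e (nat_lit 516148) (nat_lit 9) (.e (nat_lit 426448) (nat_lit 20) .nil)))) .nil)) 
(.lf (nat_lit 139979) (.g (nat_lit 1626) (.e (nat_lit 24647) (nat_lit 12) (.e (nat_lit 385074) (nat_lit 31) (.e (nat_lit 573457) (nat_lit 9) (.e (nat_lit 1592) (nat_lit 111) .nil)))) .nil))) (.nd (nat_lit 6) 
(.lf (nat_lit 139947) (.g (nat_lit 817) (.e (nat_lit 24646) (nat_lit 11) (.e (nat_lit 368676) (nat_lit 21) (.e (nat_lit 516180) (nat_lit 15) .nil))) .nil)) 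
(.lf (nat_lit 140011) (.g (nat_lit 3851) (.e (nat_lit 24648) (nat_lit 12) (.e (nat_lit 385068) (nat_lit 26) (.e (nat_lit 532504) (nat_lit 1) (.e (nat_lit 57852) (nat_lit 252) (.e (nat_lit 57442) (nat_lit 18) (.e (nat_lit 392960) (nat_lit 10) .nil)))))) (.g (nat_lit 4) .nil .nil))))) (.nd (nat_lit 5) (.nd (nat_lit 6) 
(.lf (nat_lit 139931) (.g (nat_lit 2474) (.e (nat_lit 24646) (nat_lit 11) (.e (nat_lit 368676) (nat_lit 21) (.e (nat_lit 516146) (nat_lit 9) (.e (nat_lit 426449) (nat_lit 20) .nil)))) .nil)) 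
(.lf (nat_lit 139995) (.g (nat_lit 2670) (.e (nat_lit 24648) (nat_lit 12) (.e (nat_lit 385066) (nat_lit 26) (.e (nat_lit 532504) (nat_lit 1) (.e (nat_lit 57852) (nat_lit 252) (.e (nat_lit 57442) (nat_lit 18) (.e (nat_lit 392960) (nat_lit 10) .nil)))))) (.g (nat_lit 4) .nil .nil)))) (.nd (nat_lit 6) 
(.lf (nat_lit 139963) (.g (nat_lit 2655) (.e (nat_lit 24646) (nat_lit 11) (.e (nat_lit 368676) (nat_lit 21) (.e (nat_lit 516185) (nat_lit 16) (.e (nat_lit 491558) (nat_lit 10) (.e (nat_lit 344130) (nat_lit 26) .nil))))) .nil)) 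
(.lf (nat_lit 140027) (.g (nat_lit 184) (.e (nat_lit 24648) (nat_lit 12) (.e (nat_lit 385096) (nat_lit 49) (.e (nat_lit 786176) (nat_lit 5) .nil))) .nil)))))) (.nd (nat_lit 3) (.nd (nat_lit 4) (.nd (nat_lit 5) (.nd (nat_lit 6) 
(.lf (nat_lit 139911) (.g (nat_lit 729) (.e (nat_lit 24645) (nat_lit 11) (.e (nat_lit 368676) (nat_lit 21) (.e (nat_lit 516097) (nat_lit 0) .nil))) .nil)) 
(.lf (nat_lit 139975) (.g (nat_lit 2583) (.e (nat_lit 24647) (nat_lit 12) (.e (nat_lit 385068) (nat_lit 26) (.e (nat_lit 532504) (nat_lit 1) (.e (nat_lit 57854) (nat_lit 252) (.e (nat_lit 57442) (nat_lit 18) .nil))))) .nil))) (.nd (nat_lit 6) 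
(.lf (nat_lit 139943) (.g (nat_lit 1791) (.e (nat_lit 24646) (nat_lit 11) (.e (nat_lit 368676) (nat_lit 21) (.e (nat_lit 516150) (nat_lit 9) (.e (nat_lit 426448) (nat_lit 20) .nil)))) .nil)) 
(.lf (nat_lit 140007) (.g (nat_lit 2397) (.e (nat_lit 24648) (nat_lit 12) (.e (nat_lit 385068) (nat_lit 26) (.e (nat_lit 532503) (nat_lit 1) (.e (nat_lit 65280) (nat_lit 211) .nil)))) .nil)))) (.nd (nat_lit 5) (.nd (nat_lit 6) 
(.lf (nat_lit 139927) (.g (nat_lit 1621) (.e (nat_lit 24646) (nat_lit 11) (.e (nat_lit 368676) (nat_lit 21) (.e (nat_lit 516144) (nat_lit 9) (.e (nat_lit 426448) (nat_lit 20) .nil)))) .nil)) 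
(.lf (nat_lit 139991) (.g (nat_lit 2521) (.e (nat_lit 24648) (nat_lit 12) (.e (nat_lit 385066) (nat_lit 26) (.e (nat_lit 532501) (nat_lit 1) (.e (nat_lit 57852) (nat_lit 252) (.e (nat_lit 57442) (nat_lit 18) (.e (nat_lit 392960) (nat_lit 10) .nil)))))) (.g (nat_lit 4) .nil .nil)))) (.nd (nat_lit 6) 
(.lf (nat_lit 139959) (.g (nat_lit 2993) (.e (nat_lit 24646) (nat_lit 11) (.e (nat_lit 368676) (nat_lit 21) (.e (nat_lit 516181) (nat_lit 15) (.e (nat_lit 475214) (nat_lit 42) (.e (nat_lit 720941) (nat_lit 22) .nil))))) .nil)) 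
(.lf (nat_lit 140023) (.g (nat_lit 4529) (.e (nat_lit 24648) (nat_lit 12) (.e (nat_lit 385074) (nat_lit 31) (.e (nat_lit 573484) (nat_lit 13) (.e (nat_lit 65617) (nat_lit 10) (.e (nat_lit 344133) (nat_lit 26) (.e (nat_lit 557085) (nat_lit 11) .nil)))))) (.g (nat_lit 0) .nil .nil)))))) (.nd (nat_lit 4) (.nd (nat_lit 5) (.nd (nat_lit 6) 
(.lf (nat_lit 139919) (.g (nat_lit 2037) (.e (nat_lit 24646) (nat_lit 11) (.e (nat_lit 368662) (nat_lit 18) (.e (nat_lit 7147) (nat_lit 382) (.e (nat_lit 1217) (nat_lit 90) (.e (nat_lit 81963) (nat_lit 26) (.e (nat_lit 147492) (nat_lit 11) .nil)))))) (.g (nat_lit 6) .nil .nil))) 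
(.lf (nat_lit 139983) (.g (nat_lit 1389) (.e (nat_lit 24647) (nat_lit 12) (.e (nat_lit 385093) (nat_lit 49) (.e (nat_lit 778324) (nat_lit 5) (.e (nat_lit 73791) (nat_lit 45) .nil)))) .nil))) (.nd (nat_lit 6) 
(.lf (nat_lit 139951) (.g (nat_lit 1356) (.e (nat_lit 24646) (nat_lit 11) (.e (nat_lit 368676) (nat_lit 21) (.e (nat_lit 516180) (nat_lit 15) (.e (nat_lit 475214) (nat_lit 42) .nil)))) .nil)) 
(.lf (nat_lit 140015) (.g (nat_lit 3022) (.e (nat_lit 24648) (nat_lit 12) (.e (nat_lit 385072) (nat_lit 31) (.e (nat_lit 573484) (nat_lit 13) (.e (nat_lit 65617) (nat_lit 10) (.e (nat_lit 344130) (nat_lit 26) (.e (nat_lit 557087) (nat_lit 11) .nil)))))) (.g (nat_lit 6) .nil .nil))))) (.nd (nat_lit 5) (.nd (nat_lit 6) 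
(.lf (nat_lit 139935) (.g (nat_lit 1767) (.e (nat_lit 24646) (nat_lit 11) (.e (nat_lit 368676) (nat_lit 21) (.e (nat_lit 516147) (nat_lit 9) (.e (nat_lit 426448) (nat_lit 20) (.e (nat_lit 114714) (nat_lit 22) (.e (nat_lit 90158) (nat_lit 11) .nil)))))) (.g (nat_lit 4) .nil .nil))) 
(.lf (nat_lit 139999) (.g (nat_lit 2041) (.e (nat_lit 24648) (nat_lit 12) (.e (nat_lit 385066) (nat_lit 26) (.e (nat_lit 532515) (nat_lit 3) (.e (nat_lit 114712) (nat_lit 21) (.e (nat_lit 57691) (nat_lit 156) (.e (nat_lit 171776) (nat_lit 63) (.e (nat_lit 90158) (nat_lit 11) .nil))))))) (.g (nat_lit 4) .nil .nil)))) (.nd (nat_lit 6) 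
(.lf (nat_lit 139967) (.g (nat_lit 3050) (.e (nat_lit 24647) (nat_lit 12) (.e (nat_lit 385068) (nat_lit 26) (.e (nat_lit 532499) (nat_lit 1) (.e (nat_lit 57847) (nat_lit 252) (.e (nat_lit 57440) (nat_lit 18) .nil))))) .nil)) 
(.lf (nat_lit 140031) (.g (nat_lit 3745) (.e (nat_lit 24649) (nat_lit 12) (.e (nat_lit 385068) (nat_lit 26) (.e (nat_lit 532499) (nat_lit 1) (.e (nat_lit 57847) (nat_lit 252) (.e (nat_lit 57442) (nat_lit 18) .nil))))) .nil)))))))))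

noncomputable def tv1859 : DT := (.nd (nat_lit 0) (.nd (nat_lit 1) (.nd (nat_lit 2) (.nd (nat_lit 3) (.nd (nat_lit 4) (.nd (nat_lit 5) (.nd (nat_lit 6) 
(.lf (nat_lit 140032) (.g (nat_lit 3450) (.e (nat_lit 24649) (nat_lit 12) (.e (nat_lit 385068) (nat_lit 26) (.e (nat_lit 532499) (nat_lit 1) (.e (nat_lit 57847) (nat_lit 252) (.e (nat_lit 57443) (nat_lit 18) .nil))))) .nil)) 
(.lf (nat_lit 140096) (.g (nat_lit 2064) (.e (nat_lit 24651) (nat_lit 12) (.e (nat_lit 385066) (nat_lit 26) (.e (nat_lit 532515) (nat_lit 3) (.e (nat_lit 114712) (nat_lit 21) (.e (nat_lit 57691) (nat_lit 156) (.e (nat_lit 171776) (nat_lit 63) (.e (nat_lit 90158) (nat_lit 11) .nil))))))) (.g (nat_lit 4) .nil .nil)))) (.nd (nat_lit 6) 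
(.lf (nat_lit 140064) (.g (nat_lit 2641) (.e (nat_lit 24650) (nat_lit 12) (.e (nat_lit 385072) (nat_lit 31) (.e (nat_lit 573484) (nat_lit 13) (.e (nat_lit 65617) (nat_lit 10) (.e (nat_lit 344130) (nat_lit 26) (.e (nat_lit 557087) (nat_lit 11) .nil)))))) (.g (nat_lit 4) .nil .nil))) 
(.lf (nat_lit 140128) (.g (nat_lit 3745) (.e (nat_lit 24652) (nat_lit 12) (.e (nat_lit 385068) (nat_lit 26) (.e (nat_lit 532499) (nat_lit 1) (.e (nat_lit 57847) (nat_lit 252) (.e (nat_lit 57442) (nat_lit 18) .nil))))) .nil)))) (.nd (nat_lit 5) (.nd (nat_lit 6) 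
(.lf (nat_lit 140048) (.g (nat_lit 770) (.e (nat_lit 24650) (nat_lit 12) (.e (nat_lit 385063) (nat_lit 25) (.e (nat_lit 524319) (nat_lit 11) (.e (nat_lit 442372) (nat_lit 0) (.e (nat_lit 7936) (nat_lit 359) .nil))))) (.g (nat_lit 4) .nil .nil))) 
(.lf (nat_lit 140112) (.g (nat_lit 2512) (.e (nat_lit 24651) (nat_lit 12) (.e (nat_lit 385072) (nat_lit 31) (.e (nat_lit 573484) (nat_lit 13) (.e (nat_lit 65617) (nat_lit 10) (.e (nat_lit 344133) (nat_lit 26) .nil))))) .nil))) (.nd (nat_lit 6) 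
(.lf (nat_lit 140080) (.g (nat_lit 1418) (.e (nat_lit 24651) (nat_lit 12) (.e (nat_lit 392960) (nat_lit 24) (.e (nat_lit 516151) (nat_lit 9) (.e (nat_lit 426310) (nat_lit 12) (.e (nat_lit 483072) (nat_lit 2) .nil))))) (.g (nat_lit 4) .nil .nil))) 
(.lf (nat_lit 140144) (.g (nat_lit 732) (.e (nat_lit 24653) (nat_lit 12) (.e (nat_lit 392960) (nat_lit 24) (.e (nat_lit 516163) (nat_lit 11) (.e (nat_lit 442368) (nat_lit 0) (.e (nat_lit 7936) (nat_lit 359) .nil))))) (.g (nat_lit 4) .nil .nil)))))) (.nd (nat_lit 4) (.nd (nat_lit 5) (.nd (nat_lit 6) 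
(.lf (nat_lit 140040) (.g (nat_lit 2227) (.e (nat_lit 24649) (nat_lit 12) (.e (nat_lit 385074) (nat_lit 31) (.e (nat_lit 573484) (nat_lit 13) (.e (nat_lit 65617) (nat_lit 10) (.e (nat_lit 344130) (nat_lit 26) .nil))))) .nil)) 
(.lf (nat_lit 140104) (.g (nat_lit 2762) (.e (nat_lit 24651) (nat_lit 12) (.e (nat_lit 385068) (nat_lit 26) (.e (nat_lit 532503) (nat_lit 1) (.e (nat_lit 57847) (nat_lit 252) (.e (nat_lit 57440) (nat_lit 18) (.e (nat_lit 392960) (nat_lit 10) .nil)))))) (.g (nat_lit 5) .nil .nil)))) (.nd (nat_lit 6) 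
(.lf (nat_lit 140072) (.g (nat_lit 3210) (.e (nat_lit 24650) (nat_lit 12) (.e (nat_lit 385073) (nat_lit 31) (.e (nat_lit 573491) (nat_lit 15) (.e (nat_lit 81946) (nat_lit 20) (.e (nat_lit 1858) (nat_lit 124) (.e (nat_lit 557086) (nat_lit 11) .nil)))))) (.g (nat_lit 5) .nil .nil))) 
(.lf (nat_lit 140136) (.g (nat_lit 666) (.e (nat_lit 24652) (nat_lit 12) (.e (nat_lit 385094) (nat_lit 49) (.e (nat_lit 778323) (nat_lit 5) .nil))) .nil)))) (.nd (nat_lit 5) (.nd (nat_lit 6) 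
(.lf (nat_lit 140056) (.g (nat_lit 2261) (.e (nat_lit 24650) (nat_lit 12) (.e (nat_lit 385066) (nat_lit 26) (.e (nat_lit 532513) (nat_lit 3) (.e (nat_lit 114710) (nat_lit 21) (.e (nat_lit 57692) (nat_lit 156) (.e (nat_lit 171776) (nat_lit 63) (.e (nat_lit 90158) (nat_lit 11) .nil))))))) (.g (nat_lit 4) .nil .nil))) 
(.lf (nat_lit 140120) (.g (nat_lit 4684) (.e (nat_lit 24651) (nat_lit 12) (.e (nat_lit 385074) (nat_lit 31) (.e (nat_lit 573484) (nat_lit 13) (.e (nat_lit 65617) (nat_lit 10) (.e (nat_lit 344132) (nat_lit 26) (.e (nat_lit 557085) (nat_lit 11) .nil)))))) (.g (nat_lit 0) .nil .nil)))) (.nd (nat_lit 6) 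
(.lf (nat_lit 140088) (.g (nat_lit 1971) (.e (nat_lit 24651) (nat_lit 12) (.e (nat_lit 385066) (nat_lit 26) (.e (nat_lit 532501) (nat_lit 1) (.e (nat_lit 57852) (nat_lit 252) (.e (nat_lit 57440) (nat_lit 18) (.e (nat_lit 392960) (nat_lit 10) .nil)))))) (.g (nat_lit 4) .nil .nil))) 
(.lf (nat_lit 140152) (.g (nat_lit 2159) (.e (nat_lit 24653) (nat_lit 12) (.e (nat_lit 385066) (nat_lit 26) (.e (nat_lit 532504) (nat_lit 1) (.e (nat_lit 57852) (nat_lit 252) (.e (nat_lit 57440) (nat_lit 18) .nil))))) .nil)))))) (.nd (nat_lit 3) (.nd (nat_lit 4) (.nd (nat_lit 5) (.nd (nat_lit 6) 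
(.lf (nat_lit 140036) (.g (nat_lit 1685) (.e (nat_lit 24649) (nat_lit 12) (.e (nat_lit 385068) (nat_lit 26) (.e (nat_lit 532504) (nat_lit 1) (.e (nat_lit 57854) (nat_lit 252) .nil)))) .nil)) 
(.lf (nat_lit 140100) (.g (nat_lit 1911) (.e (nat_lit 24651) (nat_lit 12) (.e (nat_lit 385068) (nat_lit 26) (.e (nat_lit 532499) (nat_lit 1) (.e (nat_lit 57849) (nat_lit 252) .nil)))) .nil))) (.nd (nat_lit 6) 
(.lf (nat_lit 140068) (.g (nat_lit 2810) (.e (nat_lit 24650) (nat_lit 12) (.e (nat_lit 385073) (nat_lit 31) (.e (nat_lit 573482) (nat_lit 13) (.e (nat_lit 65609) (nat_lit 10) (.e (nat_lit 344133) (nat_lit 26) (.e (nat_lit 557086) (nat_lit 11) .nil)))))) (.g (nat_lit 5) .nil .nil))) 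
(.lf (nat_lit 140132) (.g (nat_lit 1685) (.e (nat_lit 24652) (nat_lit 12) (.e (nat_lit 385068) (nat_lit 26) (.e (nat_lit 532504) (nat_lit 1) (.e (nat_lit 57854) (nat_lit 252) .nil)))) .nil)))) (.nd (nat_lit 5) (.nd (nat_lit 6) 
(.lf (nat_lit 140052) (.g (nat_lit 858) (.e (nat_lit 24650) (nat_lit 12) (.e (nat_lit 385063) (nat_lit 25) (.e (nat_lit 524319) (nat_lit 11) (.e (nat_lit 442377) (nat_lit 0) (.e (nat_lit 7936) (nat_lit 359) .nil))))) (.g (nat_lit 4) .nil .nil))) 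
(.lf (nat_lit 140116) (.g (nat_lit 1768) (.e (nat_lit 24651) (nat_lit 12) (.e (nat_lit 385074) (nat_lit 31) (.e (nat_lit 573477) (nat_lit 12) (.e (nat_lit 65280) (nat_lit 202) .nil)))) .nil))) (.nd (nat_lit 6) 
(.lf (nat_lit 140084) (.g (nat_lit 2412) (.e (nat_lit 24651) (nat_lit 12) (.e (nat_lit 385066) (nat_lit 26) (.e (nat_lit 532499) (nat_lit 1) (.e (nat_lit 65280) (nat_lit 211) .nil)))) .nil)) 
(.lf (nat_lit 140148) (.g (nat_lit 3754) (.e (nat_lit 24653) (nat_lit 12) (.e (nat_lit 385066) (nat_lit 26) (.e (nat_lit 532499) (nat_lit 1) (.e (nat_lit 57847) (nat_lit 252) (.e (nat_lit 57442) (nat_lit 18) .nil))))) .nil))))) (.nd (nat_lit 4) (.nd (nat_lit 5) (.nd (nat_lit 6) 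
(.lf (nat_lit 140044) (.g (nat_lit 833) (.e (nat_lit 24650) (nat_lit 12) (.e (nat_lit 392960) (nat_lit 24) (.e (nat_lit 516151) (nat_lit 9) (.e (nat_lit 426312) (nat_lit 12) (.e (nat_lit 483072) (nat_lit 2) .nil))))) (.g (nat_lit 4) .nil .nil))) 
(.lf (nat_lit 140108) (.g (nat_lit 2910) (.e (nat_lit 24651) (nat_lit 12) (.e (nat_lit 385068) (nat_lit 26) (.e (nat_lit 532504) (nat_lit 1) (.e (nat_lit 57854) (nat_lit 252) (.e (nat_lit 57442) (nat_lit 18) (.e (nat_lit 392960) (nat_lit 10) .nil)))))) (.g (nat_lit 5) .nil .nil)))) (.nd (nat_lit 6) 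
(.lf (nat_lit 140076) (.g (nat_lit 3149) (.e (nat_lit 24650) (nat_lit 12) (.e (nat_lit 385074) (nat_lit 31) (.e (nat_lit 573484) (nat_lit 13) (.e (nat_lit 65617) (nat_lit 10) (.e (nat_lit 344133) (nat_lit 26) (.e (nat_lit 557085) (nat_lit 11) .nil)))))) (.g (nat_lit 5) .nil .nil))) 
(.lf (nat_lit 140140) (.g (nat_lit 2072) (.e (nat_lit 24653) (nat_lit 12) (.e (nat_lit 392960) (nat_lit 24) (.e (nat_lit 516151) (nat_lit 9) (.e (nat_lit 426305) (nat_lit 12) (.e (nat_lit 483072) (nat_lit 2) .nil))))) (.g (nat_lit 4) .nil .nil))))) (.nd (nat_lit 5) (.nd (nat_lit 6) 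
(.lf (nat_lit 140060) (.g (nat_lit 917) (.e (nat_lit 24650) (nat_lit 12) (.e (nat_lit 385068) (nat_lit 26) (.e (nat_lit 532503) (nat_lit 1) .nil))) .nil)) 
(.lf (nat_lit 140124) (.g (nat_lit 1436) (.e (nat_lit 24651) (nat_lit 12) (.e (nat_lit 385094) (nat_lit 49) (.e (nat_lit 778323) (nat_lit 5) (.e (nat_lit 81664) (nat_lit 47) .nil)))) .nil))) (.nd (nat_lit 6) 
(.lf (nat_lit 140092) (.g (nat_lit 2069) (.e (nat_lit 24651) (nat_lit 12) (.e (nat_lit 385066) (nat_lit 26) (.e (nat_lit 532513) (nat_lit 3) (.e (nat_lit 114710) (nat_lit 21) (.e (nat_lit 57688) (nat_lit 156) (.e (nat_lit 171776) (nat_lit 63) (.e (nat_lit 90158) (nat_lit 11) .nil))))))) (.g (nat_lit 4) .nil .nil))) 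
(.lf (nat_lit 140156) (.g (nat_lit 2001) (.e (nat_lit 24653) (nat_lit 12) (.e (nat_lit 385067) (nat_lit 26) (.e (nat_lit 532501) (nat_lit 1) (.e (nat_lit 57851) (nat_lit 252) (.e (nat_lit 57440) (nat_lit 18) (.e (nat_lit 392960) (nat_lit 10) .nil)))))) (.g (nat_lit 5) .nil .nil)))))))) (.nd (nat_lit 2) (.nd (nat_lit 3) (.nd (nat_lit 4) (.nd (nat_lit 5) (.nd (nat_lit 6) 
(.lf (nat_lit 140034) (.g (nat_lit 3275) (.e (nat_lit 24649) (nat_lit 12) (.e (nat_lit 385068) (nat_lit 26) (.e (nat_lit 532504) (nat_lit 1) (.e (nat_lit 57852) (nat_lit 252) (.e (nat_lit 57440) (nat_lit 18) .nil))))) .nil)) 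
(.lf (nat_lit 140098) (.g (nat_lit 4250) (.e (nat_lit 24651) (nat_lit 12) (.e (nat_lit 385068) (nat_lit 26) (.e (nat_lit 532499) (nat_lit 1) (.e (nat_lit 57847) (nat_lit 252) (.e (nat_lit 57442) (nat_lit 18) (.e (nat_lit 392960) (nat_lit 10) .nil)))))) (.g (nat_lit 5) .nil .nil)))) (.nd (nat_lit 6) 
(.lf (nat_lit 140066) (.g (nat_lit 3143) (.e (nat_lit 24650) (nat_lit 12) (.e (nat_lit 385072) (nat_lit 31) (.e (nat_lit 573484) (nat_lit 13) (.e (nat_lit 65617) (nat_lit 10) (.e (nat_lit 344133) (nat_lit 26) (.e (nat_lit 557085) (nat_lit 11) .nil)))))) (.g (nat_lit 5) .nil .nil))) 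
(.lf (nat_lit 140130) (.g (nat_lit 2330) (.e (nat_lit 24652) (nat_lit 12) (.e (nat_lit 385068) (nat_lit 26) (.e (nat_lit 532501) (nat_lit 1) (.e (nat_lit 57852) (nat_lit 252) .nil)))) .nil)))) (.nd (nat_lit 5) (.nd (nat_lit 6) 
(.lf (nat_lit 140050) (.g (nat_lit 1270) (.e (nat_lit 24650) (nat_lit 12) (.e (nat_lit 385063) (nat_lit 25) (.e (nat_lit 524319) (nat_lit 11) (.e (nat_lit 442374) (nat_lit 0) (.e (nat_lit 7936) (nat_lit 359) .nil))))) (.g (nat_lit 4) .nil .nil))) 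
(.lf (nat_lit 140114) (.g (nat_lit 2585) (.e (nat_lit 24651) (nat_lit 12) (.e (nat_lit 385073) (nat_lit 31) (.e (nat_lit 573484) (nat_lit 13) (.e (nat_lit 65617) (nat_lit 10) (.e (nat_lit 344130) (nat_lit 26) .nil))))) .nil))) (.nd (nat_lit 6) 
(.lf (nat_lit 140082) (.g (nat_lit 2400) (.e (nat_lit 24651) (nat_lit 12) (.e (nat_lit 385065) (nat_lit 26) (.e (nat_lit 532513) (nat_lit 3) (.e (nat_lit 114710) (nat_lit 21) (.e (nat_lit 57692) (nat_lit 156) (.e (nat_lit 171776) (nat_lit 63) (.e (nat_lit 90158) (nat_lit 11) .nil))))))) (.g (nat_lit 4) .nil .nil))) 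
(.lf (nat_lit 140146) (.g (nat_lit 1541) (.e (nat_lit 24653) (nat_lit 12) (.e (nat_lit 385065) (nat_lit 26) (.e (nat_lit 532515) (nat_lit 3) (.e (nat_lit 114712) (nat_lit 21) (.e (nat_lit 57691) (nat_lit 156) .nil))))) .nil))))) (.nd (nat_lit 4) (.nd (nat_lit 5) (.nd (nat_lit 6) 
(.lf (nat_lit 140042) (.g (nat_lit 2061) (.e (nat_lit 24650) (nat_lit 12) (.e (nat_lit 392960) (nat_lit 24) (.e (nat_lit 516151) (nat_lit 9) (.e (nat_lit 426305) (nat_lit 12) (.e (nat_lit 483072) (nat_lit 2) .nil))))) (.g (nat_lit 4) .nil .nil))) 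
(.lf (nat_lit 140106) (.g (nat_lit 3297) (.e (nat_lit 24651) (nat_lit 12) (.e (nat_lit 385068) (nat_lit 26) (.e (nat_lit 532504) (nat_lit 1) (.e (nat_lit 57852) (nat_lit 252) (.e (nat_lit 57440) (nat_lit 18) (.e (nat_lit 392960) (nat_lit 10) .nil)))))) (.g (nat_lit 4) .nil .nil)))) (.nd (nat_lit 6) 
(.lf (nat_lit 140074) (.g (nat_lit 1728) (.e (nat_lit 24650) (nat_lit 12) (.e (nat_lit 385074) (nat_lit 31) (.e (nat_lit 573482) (nat_lit 13) (.e (nat_lit 65609) (nat_lit 10) .nil)))) .nil)) 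
(.lf (nat_lit 140138) (.g (nat_lit 669) (.e (nat_lit 24652) (nat_lit 12) (.e (nat_lit 385094) (nat_lit 49) (.e (nat_lit 778324) (nat_lit 5) .nil))) .nil)))) (.nd (nat_lit 5) (.nd (nat_lit 6) 
(.lf (nat_lit 140058) (.g (nat_lit 2380) (.e (nat_lit 24650) (nat_lit 12) (.e (nat_lit 385066) (nat_lit 26) (.e (nat_lit 532515) (nat_lit 3) (.e (nat_lit 114712) (nat_lit 21) (.e (nat_lit 57692) (nat_lit 156) (.e (nat_lit 171776) (nat_lit 63) (.e (nat_lit 90158) (nat_lit 11) .nil))))))) (.g (nat_lit 5) .nil .nil))) 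
(.lf (nat_lit 140122) (.g (nat_lit 2080) (.e (nat_lit 24651) (nat_lit 12) (.e (nat_lit 385074) (nat_lit 31) (.e (nat_lit 573487) (nat_lit 14) (.e (nat_lit 73761) (nat_lit 15) .nil)))) .nil))) (.nd (nat_lit 6) 
(.lf (nat_lit 140090) (.g (nat_lit 2192) (.e (nat_lit 24651) (nat_lit 12) (.e (nat_lit 385066) (nat_lit 26) (.e (nat_lit 532504) (nat_lit 1) (.e (nat_lit 57852) (nat_lit 252) (.e (nat_lit 57440) (nat_lit 18) (.e (nat_lit 392960) (nat_lit 10) .nil)))))) (.g (nat_lit 4) .nil .nil))) 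
(.lf (nat_lit 140154) (.g (nat_lit 2122) (.e (nat_lit 24653) (nat_lit 12) (.e (nat_lit 385066) (nat_lit 26) (.e (nat_lit 532513) (nat_lit 3) (.e (nat_lit 114710) (nat_lit 21) (.e (nat_lit 57692) (nat_lit 156) .nil))))) .nil)))))) (.nd (nat_lit 3) (.nd (nat_lit 4) (.nd (nat_lit 5) (.nd (nat_lit 6) 
(.lf (nat_lit 140038) (.g (nat_lit 1868) (.e (nat_lit 24649) (nat_lit 12) (.e (nat_lit 385072) (nat_lit 31) (.e (nat_lit 573484) (nat_lit 13) (.e (nat_lit 65617) (nat_lit 10) .nil)))) .nil)) 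
(.lf (nat_lit 140102) (.g (nat_lit 3728) (.e (nat_lit 24651) (nat_lit 12) (.e (nat_lit 385068) (nat_lit 26) (.e (nat_lit 532501) (nat_lit 1) (.e (nat_lit 57852) (nat_lit 252) (.e (nat_lit 57442) (nat_lit 18) .nil))))) .nil))) (.nd (nat_lit 6) 
(.lf (nat_lit 140070) (.g (nat_lit 2817) (.e (nat_lit 24650) (nat_lit 12) (.e (nat_lit 385073) (nat_lit 31) (.e (nat_lit 573484) (nat_lit 13) (.e (nat_lit 65617) (nat_lit 10) (.e (nat_lit 344130) (nat_lit 26) (.e (nat_lit 557086) (nat_lit 11) .nil)))))) (.g (nat_lit 6) .nil .nil))) 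
(.lf (nat_lit 140134) (.g (nat_lit 1602) (.e (nat_lit 24652) (nat_lit 12) (.e (nat_lit 385074) (nat_lit 31) (.e (nat_lit 573484) (nat_lit 13) (.e (nat_lit 65617) (nat_lit 10) .nil)))) .nil)))) (.nd (nat_lit 5) (.nd (nat_lit 6) 
(.lf (nat_lit 140054) (.g (nat_lit 3476) (.e (nat_lit 24650) (nat_lit 12) (.e (nat_lit 385066) (nat_lit 26) (.e (nat_lit 532499) (nat_lit 1) (.e (nat_lit 57847) (nat_lit 252) (.e (nat_lit 57440) (nat_lit 18) .nil))))) .nil)) 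
(.lf (nat_lit 140118) (.g (nat_lit 3507) (.e (nat_lit 24651) (nat_lit 12) (.e (nat_lit 385074) (nat_lit 31) (.e (nat_lit 573484) (nat_lit 13) (.e (nat_lit 65617) (nat_lit 10) (.e (nat_lit 344130) (nat_lit 26) (.e (nat_lit 557086) (nat_lit 11) .nil)))))) (.g (nat_lit 6) .nil .nil)))) (.nd (nat_lit 6) 
(.lf (nat_lit 140086) (.g (nat_lit 3757) (.e (nat_lit 24651) (nat_lit 12) (.e (nat_lit 385066) (nat_lit 26) (.e (nat_lit 532499) (nat_lit 1) (.e (nat_lit 57847) (nat_lit 252) (.e (nat_lit 57442) (nat_lit 18) .nil))))) .nil)) 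
(.lf (nat_lit 140150) (.g (nat_lit 1958) (.e (nat_lit 24653) (nat_lit 12) (.e (nat_lit 385066) (nat_lit 26) (.e (nat_lit 532501) (nat_lit 1) (.e (nat_lit 57852) (nat_lit 252) (.e (nat_lit 57440) (nat_lit 18) .nil))))) .nil))))) (.nd (nat_lit 4) (.nd (nat_lit 5) (.nd (nat_lit 6) 
(.lf (nat_lit 140046) (.g (nat_lit 677) (.e (nat_lit 24650) (nat_lit 12) (.e (nat_lit 392960) (nat_lit 24) (.e (nat_lit 516163) (nat_lit 11) (.e (nat_lit 442368) (nat_lit 0) (.e (nat_lit 7936) (nat_lit 359) .nil))))) (.g (nat_lit 4) .nil .nil))) 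
(.lf (nat_lit 140110) (.g (nat_lit 2797) (.e (nat_lit 24651) (nat_lit 12) (.e (nat_lit 385072) (nat_lit 31) (.e (nat_lit 573484) (nat_lit 13) (.e (nat_lit 65617) (nat_lit 10) (.e (nat_lit 344130) (nat_lit 26) (.e (nat_lit 557085) (nat_lit 11) .nil)))))) (.g (nat_lit 4) .nil .nil)))) (.nd (nat_lit 6) 
(.lf (nat_lit 140078) (.g (nat_lit 1378) (.e (nat_lit 24650) (nat_lit 12) (.e (nat_lit 385077) (nat_lit 34) (.e (nat_lit 598041) (nat_lit 10) (.e (nat_lit 81965) (nat_lit 26) (.e (nat_lit 147492) (nat_lit 11) .nil))))) (.g (nat_lit 0) .nil .nil))) 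
(.lf (nat_lit 140142) (.g (nat_lit 841) (.e (nat_lit 24653) (nat_lit 12) (.e (nat_lit 392960) (nat_lit 24) (.e (nat_lit 516151) (nat_lit 9) (.e (nat_lit 426312) (nat_lit 12) (.e (nat_lit 483072) (nat_lit 2) .nil))))) (.g (nat_lit 4) .nil .nil))))) (.nd (nat_lit 5) (.nd (nat_lit 6) 
(.lf (nat_lit 140062) (.g (nat_lit 2767) (.e (nat_lit 24650) (nat_lit 12) (.e (nat_lit 385072) (nat_lit 31) (.e (nat_lit 573481) (nat_lit 13) (.e (nat_lit 65609) (nat_lit 10) (.e (nat_lit 344133) (nat_lit 26) (.e (nat_lit 557086) (nat_lit 11) .nil)))))) (.g (nat_lit 5) .nil .nil))) 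
(.lf (nat_lit 140126) (.g (nat_lit 760) (.e (nat_lit 24651) (nat_lit 12) (.e (nat_lit 385106) (nat_lit 50) (.e (nat_lit 786469) (nat_lit 27) .nil))) .nil))) (.nd (nat_lit 6) 
(.lf (nat_lit 140094) (.g (nat_lit 2889) (.e (nat_lit 24651) (nat_lit 12) (.e (nat_lit 385066) (nat_lit 26) (.e (nat_lit 532515) (nat_lit 3) (.e (nat_lit 114711) (nat_lit 21) (.e (nat_lit 57688) (nat_lit 156) (.e (nat_lit 171776) (nat_lit 63) (.e (nat_lit 90158) (nat_lit 11) .nil))))))) (.g (nat_lit 5) .nil .nil))) 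
(.lf (nat_lit 140158) (.g (nat_lit 2284) (.e (nat_lit 24653) (nat_lit 12) (.e (nat_lit 385067) (nat_lit 26) (.e (nat_lit 532513) (nat_lit 3) (.e (nat_lit 114710) (nat_lit 21) (.e (nat_lit 57692) (nat_lit 156) (.e (nat_lit 171776) (nat_lit 63) (.e (nat_lit 90158) (nat_lit 11) .nil))))))) (.g (nat_lit 4) .nil .nil))))))))) 
(.nd (nat_lit 1) (.nd (nat_lit 2) (.nd (nat_lit 3) (.nd (nat_lit 4) (.nd (nat_lit 5) 
(.nd (nat_lit 6) 
(.lf (nat_lit 140033) (.g (nat_lit 3960) (.e (nat_lit 24649) (nat_lit 12) (.e (nat_lit 385068) (nat_lit 26) (.e (nat_lit 532501) (nat_lit 1) (.e (nat_lit 57852) (nat_lit 252) (.e (nat_lit 57442) (nat_lit 18) .nil))))) .nil)) 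
(.lf (nat_lit 140097) (.g (nat_lit 3411) (.e (nat_lit 24651) (nat_lit 12) (.e (nat_lit 385068) (nat_lit 26) (.e (nat_lit 532499) (nat_lit 1) (.e (nat_lit 57847) (nat_lit 252) (.e (nat_lit 57440) (nat_lit 18) (.e (nat_lit 392960) (nat_lit 10) .nil)))))) (.g (nat_lit 4) .nil .nil)))) (.nd (nat_lit 6) 
(.lf (nat_lit 140065) (.g (nat_lit 3327) (.e (nat_lit 24650) (nat_lit 12) (.e (nat_lit 385072) (nat_lit 31) (.e (nat_lit 573484) (nat_lit 13) (.e (nat_lit 65617) (nat_lit 10) (.e (nat_lit 344132) (nat_lit 26) (.e (nat_lit 557085) (nat_lit 11) .nil)))))) (.g (nat_lit 5) .nil .nil))) 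
(.lf (nat_lit 140129) (.g (nat_lit 3450) (.e (nat_lit 24652) (nat_lit 12) (.e (nat_lit 385068) (nat_lit 26) (.e (nat_lit 532499) (nat_lit 1) (.e (nat_lit 57847) (nat_lit 252) (.e (nat_lit 57443) (nat_lit 18) .nil))))) .nil)))) (.nd (nat_lit 5) (.nd (nat_lit 6) 
(.lf (nat_lit 140049) (.g (nat_lit 861) (.e (nat_lit 24650) (nat_lit 12) (.e (nat_lit 385063) (nat_lit 25) (.e (nat_lit 524319) (nat_lit 11) (.e (nat_lit 442373) (nat_lit 0) (.e (nat_lit 7936) (nat_lit 359) .nil))))) (.g (nat_lit 4) .nil .nil))) 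
(.lf (nat_lit 140113) (.g (nat_lit 2863) (.e (nat_lit 24651) (nat_lit 12) (.e (nat_lit 385072) (nat_lit 31) (.e (nat_lit 573484) (nat_lit 13) (.e (nat_lit 65617) (nat_lit 10) (.e (nat_lit 344133) (nat_lit 26) (.e (nat_lit 557085) (nat_lit 11) .nil)))))) (.g (nat_lit 4) .nil .nil)))) (.nd (nat_lit 6) 
(.lf (nat_lit 140081) (.g (nat_lit 1088) (.e (nat_lit 24651) (nat_lit 12) (.e (nat_lit 392960) (nat_lit 24) (.e (nat_lit 516151) (nat_lit 9) (.e (nat_lit 426312) (nat_lit 12) (.e (nat_lit 483072) (nat_lit 2) .nil))))) (.g (nat_lit 4) .nil .nil))) 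
(.lf (nat_lit 140145) (.g (nat_lit 2557) (.e (nat_lit 24653) (nat_lit 12) (.e (nat_lit 385065) (nat_lit 26) (.e (nat_lit 532513) (nat_lit 3) (.e (nat_lit 114710) (nat_lit 21) (.e (nat_lit 57692) (nat_lit 156) (.e (nat_lit 171776) (nat_lit 63) (.e (nat_lit 90158) (nat_lit 11) .nil))))))) (.g (nat_lit 5) .nil .nil)))))) (.nd (nat_lit 4) (.nd (nat_lit 5) (.nd (nat_lit 6) 
(.lf (nat_lit 140041) (.g (nat_lit 2263) (.e (nat_lit 24649) (nat_lit 12) (.e (nat_lit 385074) (nat_lit 31) (.e (nat_lit 573484) (nat_lit 13) (.e (nat_lit 65617) (nat_lit 10) (.e (nat_lit 344133) (nat_lit 26) (.e (nat_lit 557086) (nat_lit 11) .nil)))))) (.g (nat_lit 4) .nil .nil))) 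
(.lf (nat_lit 140105) (.g (nat_lit 2655) (.e (nat_lit 24651) (nat_lit 12) (.e (nat_lit 385068) (nat_lit 26) (.e (nat_lit 532503) (nat_lit 1) (.e (nat_lit 57847) (nat_lit 252) (.e (nat_lit 57442) (nat_lit 18) (.e (nat_lit 392960) (nat_lit 10) .nil)))))) (.g (nat_lit 4) .nil .nil)))) (.nd (nat_lit 6) 
(.lf (nat_lit 140073) (.g (nat_lit 804) (.e (nat_lit 24650) (nat_lit 12) (.e (nat_lit 385074) (nat_lit 31) (.e (nat_lit 573456) (nat_lit 9) .nil))) .nil)) 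
(.lf (nat_lit 140137) (.g (nat_lit 1798) (.e (nat_lit 24652) (nat_lit 12) (.e (nat_lit 385094) (nat_lit 49) (.e (nat_lit 778323) (nat_lit 5) (.e (nat_lit 73795) (nat_lit 47) .nil)))) .nil)))) (.nd (nat_lit 5) (.nd (nat_lit 6) 
(.lf (nat_lit 140057) (.g (nat_lit 1522) (.e (nat_lit 24650) (nat_lit 12) (.e (nat_lit 385066) (nat_lit 26) (.e (nat_lit 532515) (nat_lit 3) (.e (nat_lit 114711) (nat_lit 21) (.e (nat_lit 57688) (nat_lit 156) (.e (nat_lit 171776) (nat_lit 63) (.e (nat_lit 90158) (nat_lit 11) .nil))))))) (.g (nat_lit 4) .nil .nil))) 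
(.lf (nat_lit 140121) (.g (nat_lit 3767) (.e (nat_lit 24651) (nat_lit 12) (.e (nat_lit 385074) (nat_lit 31) (.e (nat_lit 573484) (nat_lit 13) (.e (nat_lit 65617) (nat_lit 10) (.e (nat_lit 344133) (nat_lit 26) (.e (nat_lit 557086) (nat_lit 11) .nil)))))) (.g (nat_lit 6) .nil .nil)))) (.nd (nat_lit 6) 
(.lf (nat_lit 140089) (.g (nat_lit 2279) (.e (nat_lit 24651) (nat_lit 12) (.e (nat_lit 385066) (nat_lit 26) (.e (nat_lit 532501) (nat_lit 1) (.e (nat_lit 57852) (nat_lit 252) (.e (nat_lit 57442) (nat_lit 18) (.e (nat_lit 392960) (nat_lit 10) .nil)))))) (.g (nat_lit 4) .nil .nil))) 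
(.lf (nat_lit 140153) (.g (nat_lit 2350) (.e (nat_lit 24653) (nat_lit 12) (.e (nat_lit 385066) (nat_lit 26) (.e (nat_lit 532504) (nat_lit 1) (.e (nat_lit 57852) (nat_lit 252) (.e (nat_lit 57442) (nat_lit 18) .nil))))) .nil)))))) (.nd (nat_lit 3) (.nd (nat_lit 4) (.nd (nat_lit 5) (.nd (nat_lit 6) 
(.lf (nat_lit 140037) (.g (nat_lit 2590) (.e (nat_lit 24649) (nat_lit 12) (.e (nat_lit 385068) (nat_lit 26) (.e (nat_lit 532504) (nat_lit 1) (.e (nat_lit 57854) (nat_lit 252) (.e (nat_lit 57442) (nat_lit 18) .nil))))) .nil)) 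
(.lf (nat_lit 140101) (.g (nat_lit 3487) (.e (nat_lit 24651) (nat_lit 12) (.e (nat_lit 385068) (nat_lit 26) (.e (nat_lit 532501) (nat_lit 1) (.e (nat_lit 57852) (nat_lit 252) (.e (nat_lit 57440) (nat_lit 18) .nil))))) .nil))) (.nd (nat_lit 6) 
(.lf (nat_lit 140069) (.g (nat_lit 2073) (.e (nat_lit 24650) (nat_lit 12) (.e (nat_lit 385073) (nat_lit 31) (.e (nat_lit 573482) (nat_lit 13) (.e (nat_lit 65609) (nat_lit 10) (.e (nat_lit 344133) (nat_lit 26) (.e (nat_lit 557087) (nat_lit 11) .nil)))))) (.g (nat_lit 4) .nil .nil))) 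
(.lf (nat_lit 140133) (.g (nat_lit 1120) (.e (nat_lit 24652) (nat_lit 12) (.e (nat_lit 385074) (nat_lit 31) (.e (nat_lit 573482) (nat_lit 13) (.e (nat_lit 73472) (nat_lit 23) .nil)))) .nil)))) (.nd (nat_lit 5) (.nd (nat_lit 6) 
(.lf (nat_lit 140053) (.g (nat_lit 1154) (.e (nat_lit 24650) (nat_lit 12) (.e (nat_lit 385063) (nat_lit 25) (.e (nat_lit 524322) (nat_lit 12) (.e (nat_lit 450563) (nat_lit 0) (.e (nat_lit 6025) (nat_lit 326) .nil))))) .nil)) 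
(.lf (nat_lit 140117) (.g (nat_lit 2696) (.e (nat_lit 24651) (nat_lit 12) (.e (nat_lit 385074) (nat_lit 31) (.e (nat_lit 573484) (nat_lit 13) (.e (nat_lit 65617) (nat_lit 10) (.e (nat_lit 344127) (nat_lit 26) (.e (nat_lit 557085) (nat_lit 11) .nil)))))) (.g (nat_lit 4) .nil .nil)))) (.nd (nat_lit 6) 
(.lf (nat_lit 140085) (.g (nat_lit 3460) (.e (nat_lit 24651) (nat_lit 12) (.e (nat_lit 385066) (nat_lit 26) (.e (nat_lit 532499) (nat_lit 1) (.e (nat_lit 57847) (nat_lit 252) (.e (nat_lit 57440) (nat_lit 18) .nil))))) .nil)) 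
(.lf (nat_lit 140149) (.g (nat_lit 3673) (.e (nat_lit 24653) (nat_lit 12) (.e (nat_lit 385066) (nat_lit 26) (.e (nat_lit 532499) (nat_lit 1) (.e (nat_lit 57847) (nat_lit 252) (.e (nat_lit 57443) (nat_lit 18) .nil))))) .nil))))) (.nd (nat_lit 4) (.nd (nat_lit 5) (.nd (nat_lit 6) 
(.lf (nat_lit 140045) (.g (nat_lit 1240) (.e (nat_lit 24650) (nat_lit 12) (.e (nat_lit 392960) (nat_lit 24) (.e (nat_lit 516158) (nat_lit 9) (.e (nat_lit 426306) (nat_lit 12) (.e (nat_lit 483072) (nat_lit 2) .nil))))) (.g (nat_lit 4) .nil .nil))) 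
(.lf (nat_lit 140109) (.g (nat_lit 3040) (.e (nat_lit 24651) (nat_lit 12) (.e (nat_lit 385068) (nat_lit 26) (.e (nat_lit 532513) (nat_lit 3) (.e (nat_lit 114710) (nat_lit 21) (.e (nat_lit 57692) (nat_lit 156) (.e (nat_lit 171776) (nat_lit 63) (.e (nat_lit 90158) (nat_lit 11) .nil))))))) (.g (nat_lit 4) .nil .nil)))) (.nd (nat_lit 6) 
(.lf (nat_lit 140077) (.g (nat_lit 3563) (.e (nat_lit 24650) (nat_lit 12) (.e (nat_lit 385074) (nat_lit 31) (.e (nat_lit 573484) (nat_lit 13) (.e (nat_lit 65617) (nat_lit 10) (.e (nat_lit 344133) (nat_lit 26) (.e (nat_lit 557086) (nat_lit 11) .nil)))))) (.g (nat_lit 0) .nil .nil))) 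
(.lf (nat_lit 140141) (.g (nat_lit 1159) (.e (nat_lit 24653) (nat_lit 12) (.e (nat_lit 392960) (nat_lit 24) (.e (nat_lit 516151) (nat_lit 9) (.e (nat_lit 426310) (nat_lit 12) (.e (nat_lit 483072) (nat_lit 2) .nil))))) (.g (nat_lit 4) .nil .nil))))) (.nd (nat_lit 5) (.nd (nat_lit 6) 
(.lf (nat_lit 140061) (.g (nat_lit 1391) (.e (nat_lit 24650) (nat_lit 12) (.e (nat_lit 385072) (nat_lit 31) (.e (nat_lit 573451) (nat_lit 9) (.e (nat_lit 1592) (nat_lit 111) .nil)))) .nil)) 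
(.lf (nat_lit 140125) (.g (nat_lit 512) (.e (nat_lit 24651) (nat_lit 12) (.e (nat_lit 385094) (nat_lit 49) (.e (nat_lit 778324) (nat_lit 5) .nil))) .nil))) (.nd (nat_lit 6) 
(.lf (nat_lit 140093) (.g (nat_lit 2530) (.e (nat_lit 24651) (nat_lit 12) (.e (nat_lit 385066) (nat_lit 26) (.e (nat_lit 532515) (nat_lit 3) (.e (nat_lit 114710) (nat_lit 21) (.e (nat_lit 57692) (nat_lit 156) (.e (nat_lit 171776) (nat_lit 63) (.e (nat_lit 90158) (nat_lit 11) .nil))))))) (.g (nat_lit 4) .nil .nil))) 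
(.lf (nat_lit 140157) (.g (nat_lit 1940) (.e (nat_lit 24653) (nat_lit 12) (.e (nat_lit 385067) (nat_lit 26) (.e (nat_lit 532504) (nat_lit 1) (.e (nat_lit 57851) (nat_lit 252) (.e (nat_lit 57440) (nat_lit 18) (.e (nat_lit 392960) (nat_lit 10) .nil)))))) (.g (nat_lit 5) .nil .nil)))))))) (.nd (nat_lit 2) (.nd (nat_lit 3) (.nd (nat_lit 4) (.nd (nat_lit 5) (.nd (nat_lit 6) 
(.lf (nat_lit 140035) (.g (nat_lit 3466) (.e (nat_lit 24649) (nat_lit 12) (.e (nat_lit 385068) (nat_lit 26) (.e (nat_lit 532504) (nat_lit 1) (.e (nat_lit 57852) (nat_lit 252) (.e (nat_lit 57442) (nat_lit 18) .nil))))) .nil)) 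
(.lf (nat_lit 140099) (.g (nat_lit 3885) (.e (nat_lit 24651) (nat_lit 12) (.e (nat_lit 385068) (nat_lit 26) (.e (nat_lit 532499) (nat_lit 1) (.e (nat_lit 57847) (nat_lit 252) (.e (nat_lit 57443) (nat_lit 18) (.e (nat_lit 392960) (nat_lit 10) .nil)))))) (.g (nat_lit 5) .nil .nil)))) (.nd (nat_lit 6) 
(.lf (nat_lit 140067) (.g (nat_lit 3653) (.e (nat_lit 24650) (nat_lit 12) (.e (nat_lit 385072) (nat_lit 31) (.e (nat_lit 573484) (nat_lit 13) (.e (nat_lit 65617) (nat_lit 10) (.e (nat_lit 344133) (nat_lit 26) (.e (nat_lit 557086) (nat_lit 11) .nil)))))) (.g (nat_lit 0) .nil .nil))) 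
(.lf (nat_lit 140131) (.g (nat_lit 3466) (.e (nat_lit 24652) (nat_lit 12) (.e (nat_lit 385068) (nat_lit 26) (.e (nat_lit 532504) (nat_lit 1) (.e (nat_lit 57852) (nat_lit 252) (.e (nat_lit 57442) (nat_lit 18) .nil))))) .nil)))) (.nd (nat_lit 5) (.nd (nat_lit 6) 
(.lf (nat_lit 140051) (.g (nat_lit 742) (.e (nat_lit 24650) (nat_lit 12) (.e (nat_lit 385063) (nat_lit 25) (.e (nat_lit 524319) (nat_lit 11) (.e (nat_lit 442375) (nat_lit 0) (.e (nat_lit 7936) (nat_lit 359) .nil))))) (.g (nat_lit 4) .nil .nil))) 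
(.lf (nat_lit 140115) (.g (nat_lit 1767) (.e (nat_lit 24651) (nat_lit 12) (.e (nat_lit 385074) (nat_lit 31) (.e (nat_lit 573454) (nat_lit 9) (.e (nat_lit 1643) (nat_lit 114) .nil)))) .nil))) (.nd (nat_lit 6) 
(.lf (nat_lit 140083) (.g (nat_lit 1891) (.e (nat_lit 24651) (nat_lit 12) (.e (nat_lit 385065) (nat_lit 26) (.e (nat_lit 532515) (nat_lit 3) (.e (nat_lit 114711) (nat_lit 21) (.e (nat_lit 57688) (nat_lit 156) (.e (nat_lit 171776) (nat_lit 63) (.e (nat_lit 90158) (nat_lit 11) .nil))))))) (.g (nat_lit 4) .nil .nil))) 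
(.lf (nat_lit 140147) (.g (nat_lit 3458) (.e (nat_lit 24653) (nat_lit 12) (.e (nat_lit 385066) (nat_lit 26) (.e (nat_lit 532499) (nat_lit 1) (.e (nat_lit 57847) (nat_lit 252) (.e (nat_lit 57440) (nat_lit 18) .nil))))) .nil))))) (.nd (nat_lit 4) (.nd (nat_lit 5) (.nd (nat_lit 6) 
(.lf (nat_lit 140043) (.g (nat_lit 1059) (.e (nat_lit 24650) (nat_lit 12) (.e (nat_lit 392960) (nat_lit 24) (.e (nat_lit 516151) (nat_lit 9) (.e (nat_lit 426310) (nat_lit 12) (.e (nat_lit 483072) (nat_lit 2) .nil))))) (.g (nat_lit 4) .nil .nil))) 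
(.lf (nat_lit 140107) (.g (nat_lit 3533) (.e (nat_lit 24651) (nat_lit 12) (.e (nat_lit 385068) (nat_lit 26) (.e (nat_lit 532504) (nat_lit 1) (.e (nat_lit 57852) (nat_lit 252) (.e (nat_lit 57442) (nat_lit 18) (.e (nat_lit 392960) (nat_lit 10) .nil)))))) (.g (nat_lit 4) .nil .nil)))) (.nd (nat_lit 6) 
(.lf (nat_lit 140075) (.g (nat_lit 2940) (.e (nat_lit 24650) (nat_lit 12) (.e (nat_lit 385074) (nat_lit 31) (.e (nat_lit 573484) (nat_lit 13) (.e (nat_lit 65617) (nat_lit 10) (.e (nat_lit 344130) (nat_lit 26) (.e (nat_lit 557087) (nat_lit 11) .nil)))))) (.g (nat_lit 5) .nil .nil))) 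
(.lf (nat_lit 140139) (.g (nat_lit 31) (.e (nat_lit 24653) (nat_lit 12) (.e (nat_lit 385046) (nat_lit 21) (.e (nat_lit 4290) (nat_lit 254) .nil))) .nil)))) (.nd (nat_lit 5) (.nd (nat_lit 6) 
(.lf (nat_lit 140059) (.g (nat_lit 4290) (.e (nat_lit 24650) (nat_lit 12) (.e (nat_lit 385068) (nat_lit 26) (.e (nat_lit 532499) (nat_lit 1) (.e (nat_lit 57847) (nat_lit 252) (.e (nat_lit 57442) (nat_lit 18) (.e (nat_lit 392960) (nat_lit 10) .nil)))))) (.g (nat_lit 5) .nil .nil))) 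
(.lf (nat_lit 140123) (.g (nat_lit 877) (.e (nat_lit 24651) (nat_lit 12) (.e (nat_lit 385093) (nat_lit 49) (.e (nat_lit 778323) (nat_lit 5) .nil))) .nil))) (.nd (nat_lit 6) 
(.lf (nat_lit 140091) (.g (nat_lit 2428) (.e (nat_lit 24651) (nat_lit 12) (.e (nat_lit 385066) (nat_lit 26) (.e (nat_lit 532504) (nat_lit 1) (.e (nat_lit 57852) (nat_lit 252) (.e (nat_lit 57442) (nat_lit 18) (.e (nat_lit 392960) (nat_lit 10) .nil)))))) (.g (nat_lit 4) .nil .nil))) 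
(.lf (nat_lit 140155) (.g (nat_lit 1505) (.e (nat_lit 24653) (nat_lit 12) (.e (nat_lit 385066) (nat_lit 26) (.e (nat_lit 532515) (nat_lit 3) (.e (nat_lit 114711) (nat_lit 21) (.e (nat_lit 57688) (nat_lit 156) .nil))))) .nil)))))) (.nd (nat_lit 3) (.nd (nat_lit 4) (.nd (nat_lit 5) (.nd (nat_lit 6) 
(.lf (nat_lit 140039) (.g (nat_lit 2693) (.e (nat_lit 24649) (nat_lit 12) (.e (nat_lit 385073) (nat_lit 31) (.e (nat_lit 573484) (nat_lit 13) (.e (nat_lit 65617) (nat_lit 10) (.e (nat_lit 344130) (nat_lit 26) .nil))))) .nil)) 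
(.lf (nat_lit 140103) (.g (nat_lit 2559) (.e (nat_lit 24651) (nat_lit 12) (.e (nat_lit 385068) (nat_lit 26) (.e (nat_lit 532501) (nat_lit 1) (.e (nat_lit 57854) (nat_lit 252) (.e (nat_lit 57442) (nat_lit 18) (.e (nat_lit 392960) (nat_lit 10) .nil)))))) (.g (nat_lit 4) .nil .nil)))) (.nd (nat_lit 6) 
(.lf (nat_lit 140071) (.g (nat_lit 2976) (.e (nat_lit 24650) (nat_lit 12) (.e (nat_lit 385073) (nat_lit 31) (.e (nat_lit 573484) (nat_lit 13) (.e (nat_lit 65617) (nat_lit 10) (.e (nat_lit 344133) (nat_lit 26) (.e (nat_lit 557086) (nat_lit 11) .nil)))))) (.g (nat_lit 6) .nil .nil))) 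
(.lf (nat_lit 140135) (.g (nat_lit 961) (.e (nat_lit 24652) (nat_lit 12) (.e (nat_lit 385093) (nat_lit 49) (.e (nat_lit 778323) (nat_lit 5) .nil))) .nil)))) (.nd (nat_lit 5) (.nd (nat_lit 6) 
(.lf (nat_lit 140055) (.g (nat_lit 3772) (.e (nat_lit 24650) (nat_lit 12) (.e (nat_lit 385066) (nat_lit 26) (.e (nat_lit 532499) (nat_lit 1) (.e (nat_lit 57847) (nat_lit 252) (.e (nat_lit 57442) (nat_lit 18) .nil))))) .nil)) 
(.lf (nat_lit 140119) (.g (nat_lit 4297) (.e (nat_lit 24651) (nat_lit 12) (.e (nat_lit 385074) (nat_lit 31) (.e (nat_lit 573484) (nat_lit 13) (.e (nat_lit 65617) (nat_lit 10) (.e (nat_lit 344130) (nat_lit 26) (.e (nat_lit 557087) (nat_lit 11) .nil)))))) (.g (nat_lit 0) .nil .nil)))) (.nd (nat_lit 6) 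
(.lf (nat_lit 140087) (.g (nat_lit 3675) (.e (nat_lit 24651) (nat_lit 12) (.e (nat_lit 385066) (nat_lit 26) (.e (nat_lit 532499) (nat_lit 1) (.e (nat_lit 57847) (nat_lit 252) (.e (nat_lit 57443) (nat_lit 18) .nil))))) .nil)) 
(.lf (nat_lit 140151) (.g (nat_lit 2196) (.e (nat_lit 24653) (nat_lit 12) (.e (nat_lit 385066) (nat_lit 26) (.e (nat_lit 532501) (nat_lit 1) (.e (nat_lit 57852) (nat_lit 252) (.e (nat_lit 57442) (nat_lit 18) .nil))))) .nil))))) (.nd (nat_lit 4) (.nd (nat_lit 5) (.nd (nat_lit 6) 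
(.lf (nat_lit 140047) (.g (nat_lit 795) (.e (nat_lit 24650) (nat_lit 12) (.e (nat_lit 385063) (nat_lit 25) (.e (nat_lit 524319) (nat_lit 11) (.e (nat_lit 442368) (nat_lit 0) (.e (nat_lit 7936) (nat_lit 359) .nil))))) (.g (nat_lit 4) .nil .nil))) 
(.lf (nat_lit 140111) (.g (nat_lit 2978) (.e (nat_lit 24651) (nat_lit 12) (.e (nat_lit 385072) (nat_lit 31) (.e (nat_lit 573484) (nat_lit 13) (.e (nat_lit 65617) (nat_lit 10) (.e (nat_lit 344132) (nat_lit 26) (.e (nat_lit 557085) (nat_lit 11) .nil)))))) (.g (nat_lit 4) .nil .nil)))) (.nd (nat_lit 6) 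
(.lf (nat_lit 140079) (.g (nat_lit 2120) (.e (nat_lit 24651) (nat_lit 12) (.e (nat_lit 392960) (nat_lit 24) (.e (nat_lit 516151) (nat_lit 9) (.e (nat_lit 426305) (nat_lit 12) (.e (nat_lit 483072) (nat_lit 2) .nil))))) (.g (nat_lit 4) .nil .nil))) 
(.lf (nat_lit 140143) (.g (nat_lit 1084) (.e (nat_lit 24653) (nat_lit 12) (.e (nat_lit 392960) (nat_lit 24) (.e (nat_lit 516158) (nat_lit 9) (.e (nat_lit 426306) (nat_lit 12) (.e (nat_lit 483072) (nat_lit 2) .nil))))) (.g (nat_lit 4) .nil .nil))))) (.nd (nat_lit 5) (.nd (nat_lit 6) 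
(.lf (nat_lit 140063) (.g (nat_lit 1406) (.e (nat_lit 24650) (nat_lit 12) (.e (nat_lit 385072) (nat_lit 31) (.e (nat_lit 573481) (nat_lit 13) (.e (nat_lit 65613) (nat_lit 10) .nil)))) .nil)) 
(.lf (nat_lit 140127) (.g (nat_lit 760) (.e (nat_lit 24651) (nat_lit 12) (.e (nat_lit 385106) (nat_lit 50) (.e (nat_lit 786471) (nat_lit 27) .nil))) .nil))) (.nd (nat_lit 6) 
(.lf (nat_lit 140095) (.g (nat_lit 2336) (.e (nat_lit 24651) (nat_lit 12) (.e (nat_lit 385066) (nat_lit 26) (.e (nat_lit 532515) (nat_lit 3) (.e (nat_lit 114711) (nat_lit 21) (.e (nat_lit 57692) (nat_lit 156) (.e (nat_lit 171776) (nat_lit 63) (.e (nat_lit 90158) (nat_lit 11) .nil))))))) (.g (nat_lit 4) .nil .nil))) 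
(.lf (nat_lit 140159) (.g (nat_lit 1811) (.e (nat_lit 24653) (nat_lit 12) (.e (nat_lit 385067) (nat_lit 26) (.e (nat_lit 532515) (nat_lit 3) (.e (nat_lit 114711) (nat_lit 21) (.e (nat_lit 57688) (nat_lit 156) (.e (nat_lit 171776) (nat_lit 63) (.e (nat_lit 90158) (nat_lit 11) .nil))))))) (.g (nat_lit 4) .nil .nil))))))))))

noncomputable def tv1860 : DT := (.nd (nat_lit 0) (.nd (nat_lit 1) (.nd (nat_lit 2) (.nd (nat_lit 3) (.nd (nat_lit 4) (.nd (nat_lit 5) 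
(.lf (nat_lit 140160) (.g (nat_lit 4131) (.e (nat_lit 24653) (nat_lit 12) (.e (nat_lit 385068) (nat_lit 26) (.e (nat_lit 532499) (nat_lit 1) (.e (nat_lit 57847) (nat_lit 252) (.e (nat_lit 57442) (nat_lit 18) (.e (nat_lit 392960) (nat_lit 10) .nil)))))) (.g (nat_lit 5) .nil .nil))) 
(.lf (nat_lit 140192) (.g (nat_lit 2034) (.e (nat_lit 24653) (nat_lit 12) (.e (nat_lit 385105) (nat_lit 50) (.e (nat_lit 786473) (nat_lit 27) (.e (nat_lit 343808) (nat_lit 0) .nil)))) .nil))) (.nd (nat_lit 5) 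
(.lf (nat_lit 140176) (.g (nat_lit 3239) (.e (nat_lit 24653) (nat_lit 12) (.e (nat_lit 385073) (nat_lit 31) (.e (nat_lit 573484) (nat_lit 13) (.e (nat_lit 65617) (nat_lit 10) (.e (nat_lit 344130) (nat_lit 26) (.e (nat_lit 557085) (nat_lit 11) .nil)))))) (.g (nat_lit 0) .nil .nil))) 
(.lf (nat_lit 140208) (.g (nat_lit 3487) (.e (nat_lit 24654) (nat_lit 13) (.e (nat_lit 393225) (nat_lit 9) (.e (nat_lit 335996) (nat_lit 1) (.e (nat_lit 57854) (nat_lit 252) (.e (nat_lit 57371) (nat_lit 2) (.e (nat_lit 90160) (nat_lit 11) .nil)))))) (.g (nat_lit 0) .nil .nil))))) (.nd (nat_lit 4) (.nd (nat_lit 5) 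
(.lf (nat_lit 140168) (.g (nat_lit 3505) (.e (nat_lit 24653) (nat_lit 12) (.e (nat_lit 385068) (nat_lit 26) (.e (nat_lit 532504) (nat_lit 1) (.e (nat_lit 57852) (nat_lit 252) (.e (nat_lit 57442) (nat_lit 18) (.e (nat_lit 392960) (nat_lit 10) .nil)))))) (.g (nat_lit 4) .nil .nil))) 
(.lf (nat_lit 140200) (.g (nat_lit 1450) (.e (nat_lit 24654) (nat_lit 13) (.e (nat_lit 393225) (nat_lit 9) (.e (nat_lit 335995) (nat_lit 1) (.e (nat_lit 57847) (nat_lit 252) .nil)))) .nil))) (.nd (nat_lit 5) 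
(.lf (nat_lit 140184) (.g (nat_lit 2073) (.e (nat_lit 24653) (nat_lit 12) (.e (nat_lit 385074) (nat_lit 31) (.e (nat_lit 573482) (nat_lit 13) (.e (nat_lit 65609) (nat_lit 10) (.e (nat_lit 344133) (nat_lit 26) (.e (nat_lit 557086) (nat_lit 11) .nil)))))) (.g (nat_lit 4) .nil .nil))) 
(.lf (nat_lit 140216) (.g (nat_lit 3781) (.e (nat_lit 24654) (nat_lit 13) (.e (nat_lit 393229) (nat_lit 9) (.e (nat_lit 335988) (nat_lit 1) (.e (nat_lit 57854) (nat_lit 252) (.e (nat_lit 57373) (nat_lit 2) (.e (nat_lit 90160) (nat_lit 11) .nil)))))) (.g (nat_lit 0) .nil .nil)))))) (.nd (nat_lit 3) (.nd (nat_lit 4) (.nd (nat_lit 5) 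
(.lf (nat_lit 140164) (.g (nat_lit 2732) (.e (nat_lit 24653) (nat_lit 12) (.e (nat_lit 385068) (nat_lit 26) (.e (nat_lit 532501) (nat_lit 1) (.e (nat_lit 57854) (nat_lit 252) (.e (nat_lit 57442) (nat_lit 18) .nil))))) .nil)) 
(.lf (nat_lit 140196) (.g (nat_lit 3074) (.e (nat_lit 24654) (nat_lit 13) (.e (nat_lit 393225) (nat_lit 9) (.e (nat_lit 335988) (nat_lit 1) (.e (nat_lit 57854) (nat_lit 252) (.e (nat_lit 57371) (nat_lit 2) (.e (nat_lit 90160) (nat_lit 11) .nil)))))) (.g (nat_lit 0) .nil .nil)))) (.nd (nat_lit 5) 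
(.lf (nat_lit 140180) (.g (nat_lit 1262) (.e (nat_lit 24653) (nat_lit 12) (.e (nat_lit 385074) (nat_lit 31) (.e (nat_lit 573454) (nat_lit 9) (.e (nat_lit 7936) (nat_lit 111) .nil)))) .nil)) 
(.lf (nat_lit 140212) (.g (nat_lit 3367) (.e (nat_lit 24654) (nat_lit 13) (.e (nat_lit 393229) (nat_lit 9) (.e (nat_lit 335986) (nat_lit 1) (.e (nat_lit 57847) (nat_lit 252) (.e (nat_lit 57375) (nat_lit 2) (.e (nat_lit 90160) (nat_lit 11) .nil)))))) (.g (nat_lit 0) .nil .nil))))) (.nd (nat_lit 4) (.nd (nat_lit 5) 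
(.lf (nat_lit 140172) (.g (nat_lit 2343) (.e (nat_lit 24653) (nat_lit 12) (.e (nat_lit 385072) (nat_lit 31) (.e (nat_lit 573484) (nat_lit 13) (.e (nat_lit 65617) (nat_lit 10) (.e (nat_lit 344130) (nat_lit 26) .nil))))) .nil)) 
(.lf (nat_lit 140204) (.g (nat_lit 1691) (.e (nat_lit 24654) (nat_lit 13) (.e (nat_lit 393225) (nat_lit 9) (.e (nat_lit 335995) (nat_lit 1) (.e (nat_lit 57848) (nat_lit 252) (.e (nat_lit 57375) (nat_lit 2) (.e (nat_lit 90159) (nat_lit 11) .nil)))))) (.g (nat_lit 4) .nil .nil)))) (.nd (nat_lit 5) 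
(.lf (nat_lit 140188) (.g (nat_lit 3732) (.e (nat_lit 24653) (nat_lit 12) (.e (nat_lit 385074) (nat_lit 31) (.e (nat_lit 573484) (nat_lit 13) (.e (nat_lit 65617) (nat_lit 10) (.e (nat_lit 344133) (nat_lit 26) (.e (nat_lit 557086) (nat_lit 11) .nil)))))) (.g (nat_lit 0) .nil .nil))) 
(.lf (nat_lit 140220) (.g (nat_lit 1000) (.e (nat_lit 24654) (nat_lit 13) (.e (nat_lit 393229) (nat_lit 9) (.e (nat_lit 335994) (nat_lit 1) .nil))) .nil)))))) (.nd (nat_lit 2) (.nd (nat_lit 3) (.nd (nat_lit 4) (.nd (nat_lit 5) 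
(.lf (nat_lit 140162) (.g (nat_lit 3673) (.e (nat_lit 24653) (nat_lit 12) (.e (nat_lit 385068) (nat_lit 26) (.e (nat_lit 532501) (nat_lit 1) (.e (nat_lit 57852) (nat_lit 252) (.e (nat_lit 57440) (nat_lit 18) .nil))))) .nil)) 
(.lf (nat_lit 140194) (.g (nat_lit 3155) (.e (nat_lit 24654) (nat_lit 13) (.e (nat_lit 393225) (nat_lit 9) (.e (nat_lit 335986) (nat_lit 1) (.e (nat_lit 57847) (nat_lit 252) (.e (nat_lit 57372) (nat_lit 2) (.e (nat_lit 90160) (nat_lit 11) .nil)))))) (.g (nat_lit 0) .nil .nil)))) (.nd (nat_lit 5) 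
(.lf (nat_lit 140178) (.g (nat_lit 3664) (.e (nat_lit 24653) (nat_lit 12) (.e (nat_lit 385073) (nat_lit 31) (.e (nat_lit 573484) (nat_lit 13) (.e (nat_lit 65617) (nat_lit 10) (.e (nat_lit 344132) (nat_lit 26) (.e (nat_lit 557085) (nat_lit 11) .nil)))))) (.g (nat_lit 0) .nil .nil))) 
(.lf (nat_lit 140210) (.g (nat_lit 1121) (.e (nat_lit 24654) (nat_lit 13) (.e (nat_lit 393229) (nat_lit 9) (.e (nat_lit 335986) (nat_lit 1) (.e (nat_lit 57847) (nat_lit 252) .nil)))) .nil)))) (.nd (nat_lit 4) (.nd (nat_lit 5) 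
(.lf (nat_lit 140170) (.g (nat_lit 1811) (.e (nat_lit 24653) (nat_lit 12) (.e (nat_lit 385072) (nat_lit 31) (.e (nat_lit 573481) (nat_lit 13) (.e (nat_lit 65609) (nat_lit 10) (.e (nat_lit 344133) (nat_lit 26) .nil))))) .nil)) 
(.lf (nat_lit 140202) (.g (nat_lit 3665) (.e (nat_lit 24654) (nat_lit 13) (.e (nat_lit 393225) (nat_lit 9) (.e (nat_lit 335995) (nat_lit 1) (.e (nat_lit 57847) (nat_lit 252) (.e (nat_lit 57375) (nat_lit 2) (.e (nat_lit 90160) (nat_lit 11) .nil)))))) (.g (nat_lit 0) .nil .nil)))) (.nd (nat_lit 5) 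
(.lf (nat_lit 140186) (.g (nat_lit 3551) (.e (nat_lit 24653) (nat_lit 12) (.e (nat_lit 385074) (nat_lit 31) (.e (nat_lit 573484) (nat_lit 13) (.e (nat_lit 65617) (nat_lit 10) (.e (nat_lit 344130) (nat_lit 26) (.e (nat_lit 557086) (nat_lit 11) .nil)))))) (.g (nat_lit 0) .nil .nil))) 
(.lf (nat_lit 140218) (.g (nat_lit 2109) (.e (nat_lit 24654) (nat_lit 13) (.e (nat_lit 393229) (nat_lit 9) (.e (nat_lit 335993) (nat_lit 1) (.e (nat_lit 57854) (nat_lit 252) (.e (nat_lit 57371) (nat_lit 2) (.e (nat_lit 90160) (nat_lit 11) .nil)))))) (.g (nat_lit 4) .nil .nil)))))) (.nd (nat_lit 3) (.nd (nat_lit 4) (.nd (nat_lit 5) 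
(.lf (nat_lit 140166) (.g (nat_lit 2435) (.e (nat_lit 24653) (nat_lit 12) (.e (nat_lit 385068) (nat_lit 26) (.e (nat_lit 532503) (nat_lit 1) (.e (nat_lit 57847) (nat_lit 252) (.e (nat_lit 57442) (nat_lit 18) .nil))))) .nil)) 
(.lf (nat_lit 140198) (.g (nat_lit 1818) (.e (nat_lit 24654) (nat_lit 13) (.e (nat_lit 393225) (nat_lit 9) (.e (nat_lit 335995) (nat_lit 1) (.e (nat_lit 57846) (nat_lit 252) .nil)))) .nil))) (.nd (nat_lit 5) 
(.lf (nat_lit 140182) (.g (nat_lit 1341) (.e (nat_lit 24653) (nat_lit 12) (.e (nat_lit 385074) (nat_lit 31) (.e (nat_lit 573456) (nat_lit 9) (.e (nat_lit 1586) (nat_lit 111) .nil)))) .nil)) 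
(.lf (nat_lit 140214) (.g (nat_lit 2057) (.e (nat_lit 24654) (nat_lit 13) (.e (nat_lit 393229) (nat_lit 9) (.e (nat_lit 335987) (nat_lit 1) (.e (nat_lit 57854) (nat_lit 252) (.e (nat_lit 57371) (nat_lit 2) (.e (nat_lit 90160) (nat_lit 11) .nil)))))) (.g (nat_lit 4) .nil .nil))))) (.nd (nat_lit 4) (.nd (nat_lit 5) 
(.lf (nat_lit 140174) (.g (nat_lit 3827) (.e (nat_lit 24653) (nat_lit 12) (.e (nat_lit 385072) (nat_lit 31) (.e (nat_lit 573484) (nat_lit 13) (.e (nat_lit 65617) (nat_lit 10) (.e (nat_lit 344132) (nat_lit 26) (.e (nat_lit 557085) (nat_lit 11) .nil)))))) (.g (nat_lit 6) .nil .nil))) 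
(.lf (nat_lit 140206) (.g (nat_lit 2818) (.e (nat_lit 24654) (nat_lit 13) (.e (nat_lit 393225) (nat_lit 9) (.e (nat_lit 335995) (nat_lit 1) (.e (nat_lit 57849) (nat_lit 252) (.e (nat_lit 57375) (nat_lit 2) (.e (nat_lit 90160) (nat_lit 11) .nil)))))) (.g (nat_lit 4) .nil .nil)))) (.nd (nat_lit 5) 
(.lf (nat_lit 140190) (.g (nat_lit 1324) (.e (nat_lit 24653) (nat_lit 12) (.e (nat_lit 385093) (nat_lit 49) (.e (nat_lit 778323) (nat_lit 5) (.e (nat_lit 73795) (nat_lit 47) .nil)))) .nil)) 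
(.lf (nat_lit 140222) (.g (nat_lit 509) (.e (nat_lit 24654) (nat_lit 13) (.e (nat_lit 393229) (nat_lit 9) (.e (nat_lit 335995) (nat_lit 1) .nil))) .nil))))))) (.nd (nat_lit 1) (.nd (nat_lit 2) (.nd (nat_lit 3) (.nd (nat_lit 4) (.nd (nat_lit 5) 
(.lf (nat_lit 140161) (.g (nat_lit 3731) (.e (nat_lit 24653) (nat_lit 12) (.e (nat_lit 385068) (nat_lit 26) (.e (nat_lit 532499) (nat_lit 1) (.e (nat_lit 57847) (nat_lit 252) (.e (nat_lit 57443) (nat_lit 18) (.e (nat_lit 392960) (nat_lit 10) .nil)))))) (.g (nat_lit 5) .nil .nil))) 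
(.lf (nat_lit 140193) (.g (nat_lit 933) (.e (nat_lit 24654) (nat_lit 13) (.e (nat_lit 393225) (nat_lit 9) (.e (nat_lit 335986) (nat_lit 1) (.e (nat_lit 57847) (nat_lit 252) .nil)))) .nil))) (.nd (nat_lit 5) 
(.lf (nat_lit 140177) (.g (nat_lit 1925) (.e (nat_lit 24653) (nat_lit 12) (.e (nat_lit 385073) (nat_lit 31) (.e (nat_lit 573484) (nat_lit 13) (.e (nat_lit 65617) (nat_lit 10) (.e (nat_lit 344130) (nat_lit 26) (.e (nat_lit 557087) (nat_lit 11) .nil)))))) (.g (nat_lit 4) .nil .nil))) 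
(.lf (nat_lit 140209) (.g (nat_lit 3971) (.e (nat_lit 24654) (nat_lit 13) (.e (nat_lit 393225) (nat_lit 9) (.e (nat_lit 335996) (nat_lit 1) (.e (nat_lit 57854) (nat_lit 252) (.e (nat_lit 57373) (nat_lit 2) (.e (nat_lit 90160) (nat_lit 11) .nil)))))) (.g (nat_lit 0) .nil .nil))))) (.nd (nat_lit 4) (.nd (nat_lit 5) 
(.lf (nat_lit 140169) (.g (nat_lit 2809) (.e (nat_lit 24653) (nat_lit 12) (.e (nat_lit 385068) (nat_lit 26) (.e (nat_lit 532504) (nat_lit 1) (.e (nat_lit 57854) (nat_lit 252) (.e (nat_lit 57442) (nat_lit 18) (.e (nat_lit 392960) (nat_lit 10) .nil)))))) (.g (nat_lit 5) .nil .nil))) 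
(.lf (nat_lit 140201) (.g (nat_lit 3622) (.e (nat_lit 24654) (nat_lit 13) (.e (nat_lit 393225) (nat_lit 9) (.e (nat_lit 335995) (nat_lit 1) (.e (nat_lit 57847) (nat_lit 252) (.e (nat_lit 57372) (nat_lit 2) (.e (nat_lit 90160) (nat_lit 11) .nil)))))) (.g (nat_lit 0) .nil .nil)))) (.nd (nat_lit 5) 
(.lf (nat_lit 140185) (.g (nat_lit 2002) (.e (nat_lit 24653) (nat_lit 12) (.e (nat_lit 385074) (nat_lit 31) (.e (nat_lit 573482) (nat_lit 13) (.e (nat_lit 65616) (nat_lit 10) (.e (nat_lit 344133) (nat_lit 26) .nil))))) .nil)) 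
(.lf (nat_lit 140217) (.g (nat_lit 906) (.e (nat_lit 24654) (nat_lit 13) (.e (nat_lit 393229) (nat_lit 9) (.e (nat_lit 335993) (nat_lit 1) .nil))) .nil))))) (.nd (nat_lit 3) (.nd (nat_lit 4) (.nd (nat_lit 5) 
(.lf (nat_lit 140165) (.g (nat_lit 2504) (.e (nat_lit 24653) (nat_lit 12) (.e (nat_lit 385068) (nat_lit 26) (.e (nat_lit 532503) (nat_lit 1) (.e (nat_lit 57847) (nat_lit 252) (.e (nat_lit 57440) (nat_lit 18) (.e (nat_lit 392960) (nat_lit 10) .nil)))))) (.g (nat_lit 4) .nil .nil))) 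
(.lf (nat_lit 140197) (.g (nat_lit 3557) (.e (nat_lit 24654) (nat_lit 13) (.e (nat_lit 393225) (nat_lit 9) (.e (nat_lit 335988) (nat_lit 1) (.e (nat_lit 57854) (nat_lit 252) (.e (nat_lit 57373) (nat_lit 2) (.e (nat_lit 90160) (nat_lit 11) .nil)))))) (.g (nat_lit 0) .nil .nil)))) (.nd (nat_lit 5) 
(.lf (nat_lit 140181) (.g (nat_lit 753) (.e (nat_lit 24653) (nat_lit 12) (.e (nat_lit 385074) (nat_lit 31) (.e (nat_lit 573456) (nat_lit 9) .nil))) .nil)) 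
(.lf (nat_lit 140213) (.g (nat_lit 3150) (.e (nat_lit 24654) (nat_lit 13) (.e (nat_lit 393229) (nat_lit 9) (.e (nat_lit 335986) (nat_lit 1) (.e (nat_lit 57849) (nat_lit 252) (.e (nat_lit 57372) (nat_lit 2) (.e (nat_lit 90160) (nat_lit 11) .nil)))))) (.g (nat_lit 5) .nil .nil))))) (.nd (nat_lit 4) (.nd (nat_lit 5) 
(.lf (nat_lit 140173) (.g (nat_lit 2925) (.e (nat_lit 24653) (nat_lit 12) (.e (nat_lit 385072) (nat_lit 31) (.e (nat_lit 573484) (nat_lit 13) (.e (nat_lit 65617) (nat_lit 10) (.e (nat_lit 344130) (nat_lit 26) (.e (nat_lit 557086) (nat_lit 11) .nil)))))) (.g (nat_lit 5) .nil .nil))) 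
(.lf (nat_lit 140205) (.g (nat_lit 3497) (.e (nat_lit 24654) (nat_lit 13) (.e (nat_lit 393225) (nat_lit 9) (.e (nat_lit 335995) (nat_lit 1) (.e (nat_lit 57848) (nat_lit 252) (.e (nat_lit 57375) (nat_lit 2) (.e (nat_lit 90160) (nat_lit 11) .nil)))))) (.g (nat_lit 6) .nil .nil)))) (.nd (nat_lit 5) 
(.lf (nat_lit 140189) (.g (nat_lit 3292) (.e (nat_lit 24653) (nat_lit 12) (.e (nat_lit 385074) (nat_lit 31) (.e (nat_lit 573491) (nat_lit 15) (.e (nat_lit 81946) (nat_lit 20) (.e (nat_lit 1858) (nat_lit 124) (.e (nat_lit 557086) (nat_lit 11) .nil)))))) (.g (nat_lit 5) .nil .nil))) 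
(.lf (nat_lit 140221) (.g (nat_lit 2209) (.e (nat_lit 24654) (nat_lit 13) (.e (nat_lit 393229) (nat_lit 9) (.e (nat_lit 335994) (nat_lit 1) (.e (nat_lit 57854) (nat_lit 252) (.e (nat_lit 57373) (nat_lit 2) (.e (nat_lit 90160) (nat_lit 11) .nil)))))) (.g (nat_lit 4) .nil .nil))))))) (.nd (nat_lit 2) (.nd (nat_lit 3) (.nd (nat_lit 4) (.nd (nat_lit 5) 
(.lf (nat_lit 140163) (.g (nat_lit 3914) (.e (nat_lit 24653) (nat_lit 12) (.e (nat_lit 385068) (nat_lit 26) (.e (nat_lit 532501) (nat_lit 1) (.e (nat_lit 57852) (nat_lit 252) (.e (nat_lit 57442) (nat_lit 18) .nil))))) .nil)) 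
(.lf (nat_lit 140195) (.g (nat_lit 3180) (.e (nat_lit 24654) (nat_lit 13) (.e (nat_lit 393225) (nat_lit 9) (.e (nat_lit 335986) (nat_lit 1) (.e (nat_lit 57847) (nat_lit 252) (.e (nat_lit 57375) (nat_lit 2) (.e (nat_lit 90160) (nat_lit 11) .nil)))))) (.g (nat_lit 0) .nil .nil)))) (.nd (nat_lit 5) 
(.lf (nat_lit 140179) (.g (nat_lit 3057) (.e (nat_lit 24653) (nat_lit 12) (.e (nat_lit 385073) (nat_lit 31) (.e (nat_lit 573484) (nat_lit 13) (.e (nat_lit 65617) (nat_lit 10) (.e (nat_lit 344133) (nat_lit 26) (.e (nat_lit 557086) (nat_lit 11) .nil)))))) (.g (nat_lit 0) .nil .nil))) 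
(.lf (nat_lit 140211) (.g (nat_lit 3348) (.e (nat_lit 24654) (nat_lit 13) (.e (nat_lit 393229) (nat_lit 9) (.e (nat_lit 335986) (nat_lit 1) (.e (nat_lit 57847) (nat_lit 252) (.e (nat_lit 57372) (nat_lit 2) (.e (nat_lit 90160) (nat_lit 11) .nil)))))) (.g (nat_lit 0) .nil .nil))))) (.nd (nat_lit 4) (.nd (nat_lit 5) 
(.lf (nat_lit 140171) (.g (nat_lit 1984) (.e (nat_lit 24653) (nat_lit 12) (.e (nat_lit 385072) (nat_lit 31) (.e (nat_lit 573482) (nat_lit 13) (.e (nat_lit 65609) (nat_lit 10) .nil)))) .nil)) 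
(.lf (nat_lit 140203) (.g (nat_lit 1799) (.e (nat_lit 24654) (nat_lit 13) (.e (nat_lit 393225) (nat_lit 9) (.e (nat_lit 335995) (nat_lit 1) (.e (nat_lit 57848) (nat_lit 252) (.e (nat_lit 57372) (nat_lit 2) (.e (nat_lit 90159) (nat_lit 11) .nil)))))) (.g (nat_lit 4) .nil .nil)))) (.nd (nat_lit 5) 
(.lf (nat_lit 140187) (.g (nat_lit 4257) (.e (nat_lit 24653) (nat_lit 12) (.e (nat_lit 385074) (nat_lit 31) (.e (nat_lit 573484) (nat_lit 13) (.e (nat_lit 65617) (nat_lit 10) (.e (nat_lit 344133) (nat_lit 26) (.e (nat_lit 557085) (nat_lit 11) .nil)))))) (.g (nat_lit 0) .nil .nil))) 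
(.lf (nat_lit 140219) (.g (nat_lit 3472) (.e (nat_lit 24654) (nat_lit 13) (.e (nat_lit 393229) (nat_lit 9) (.e (nat_lit 335993) (nat_lit 1) (.e (nat_lit 57854) (nat_lit 252) (.e (nat_lit 57373) (nat_lit 2) (.e (nat_lit 90160) (nat_lit 11) .nil)))))) (.g (nat_lit 5) .nil .nil)))))) (.nd (nat_lit 3) (.nd (nat_lit 4) (.nd (nat_lit 5) 
(.lf (nat_lit 140167) (.g (nat_lit 3285) (.e (nat_lit 24653) (nat_lit 12) (.e (nat_lit 385068) (nat_lit 26) (.e (nat_lit 532504) (nat_lit 1) (.e (nat_lit 57852) (nat_lit 252) (.e (nat_lit 57440) (nat_lit 18) (.e (nat_lit 392960) (nat_lit 10) .nil)))))) (.g (nat_lit 4) .nil .nil))) 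
(.lf (nat_lit 140199) (.g (nat_lit 2459) (.e (nat_lit 24654) (nat_lit 13) (.e (nat_lit 393225) (nat_lit 9) (.e (nat_lit 335995) (nat_lit 1) (.e (nat_lit 57846) (nat_lit 252) (.e (nat_lit 57372) (nat_lit 2) .nil))))) .nil))) (.nd (nat_lit 5) 
(.lf (nat_lit 140183) (.g (nat_lit 2203) (.e (nat_lit 24653) (nat_lit 12) (.e (nat_lit 385074) (nat_lit 31) (.e (nat_lit 573482) (nat_lit 13) (.e (nat_lit 65609) (nat_lit 10) (.e (nat_lit 344132) (nat_lit 26) (.e (nat_lit 557085) (nat_lit 11) .nil)))))) (.g (nat_lit 4) .nil .nil))) 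
(.lf (nat_lit 140215) (.g (nat_lit 3397) (.e (nat_lit 24654) (nat_lit 13) (.e (nat_lit 393229) (nat_lit 9) (.e (nat_lit 335987) (nat_lit 1) (.e (nat_lit 57854) (nat_lit 252) (.e (nat_lit 57373) (nat_lit 2) (.e (nat_lit 90160) (nat_lit 11) .nil)))))) (.g (nat_lit 5) .nil .nil))))) (.nd (nat_lit 4) (.nd (nat_lit 5) 
(.lf (nat_lit 140175) (.g (nat_lit 2810) (.e (nat_lit 24653) (nat_lit 12) (.e (nat_lit 385073) (nat_lit 31) (.e (nat_lit 573482) (nat_lit 13) (.e (nat_lit 65609) (nat_lit 10) (.e (nat_lit 344133) (nat_lit 26) (.e (nat_lit 557086) (nat_lit 11) .nil)))))) (.g (nat_lit 5) .nil .nil))) 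
(.lf (nat_lit 140207) (.g (nat_lit 3698) (.e (nat_lit 24654) (nat_lit 13) (.e (nat_lit 393225) (nat_lit 9) (.e (nat_lit 335996) (nat_lit 1) (.e (nat_lit 57851) (nat_lit 252) (.e (nat_lit 57371) (nat_lit 2) (.e (nat_lit 90160) (nat_lit 11) .nil)))))) (.g (nat_lit 0) .nil .nil)))) (.nd (nat_lit 5) 
(.lf (nat_lit 140191) (.g (nat_lit 1378) (.e (nat_lit 24653) (nat_lit 12) (.e (nat_lit 385102) (nat_lit 50) (.e (nat_lit 786483) (nat_lit 30) (.e (nat_lit 360478) (nat_lit 12) (.e (nat_lit 622632) (nat_lit 15) .nil))))) (.g (nat_lit 0) .nil .nil))) 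
(.lf (nat_lit 140223) (.g (nat_lit 3579) (.e (nat_lit 24654) (nat_lit 13) (.e (nat_lit 393229) (nat_lit 9) (.e (nat_lit 335995) (nat_lit 1) (.e (nat_lit 57844) (nat_lit 252) .nil)))) .nil))))))))

noncomputable def tv1861 : DT := (.nd (nat_lit 0) (.nd (nat_lit 1) (.nd (nat_lit 2) (.nd (nat_lit 3) (.nd (nat_lit 4) (.nd (nat_lit 5) 
(.lf (nat_lit 140224) (.g (nat_lit 2649) (.e (nat_lit 24654) (nat_lit 13) (.e (nat_lit 393229) (nat_lit 9) (.e (nat_lit 335995) (nat_lit 1) (.e (nat_lit 57846) (nat_lit 252) .nil)))) .nil)) 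
(.lf (nat_lit 140256) (.g (nat_lit 2757) (.e (nat_lit 24654) (nat_lit 13) (.e (nat_lit 393299) (nat_lit 27) (.e (nat_lit 491560) (nat_lit 10) (.e (nat_lit 344179) (nat_lit 44) (.e (nat_lit 778466) (nat_lit 11) .nil))))) (.g (nat_lit 0) .nil .nil)))) (.nd (nat_lit 5) 
(.lf (nat_lit 140240) (.g (nat_lit 2142) (.e (nat_lit 24654) (nat_lit 13) (.e (nat_lit 393260) (nat_lit 21) (.e (nat_lit 409616) (nat_lit 10) (.e (nat_lit 4926) (nat_lit 287) .nil)))) .nil)) 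
(.lf (nat_lit 140272) (.g (nat_lit 3051) (.e (nat_lit 24654) (nat_lit 13) (.e (nat_lit 393301) (nat_lit 27) (.e (nat_lit 491560) (nat_lit 10) (.e (nat_lit 344179) (nat_lit 44) (.e (nat_lit 778464) (nat_lit 11) .nil))))) (.g (nat_lit 5) .nil .nil))))) (.nd (nat_lit 4) (.nd (nat_lit 5) 
(.lf (nat_lit 140232) (.g (nat_lit 2493) (.e (nat_lit 24654) (nat_lit 13) (.e (nat_lit 393229) (nat_lit 9) (.e (nat_lit 335996) (nat_lit 1) (.e (nat_lit 57854) (nat_lit 252) (.e (nat_lit 57371) (nat_lit 2) .nil))))) .nil)) 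
(.lf (nat_lit 140264) (.g (nat_lit 2568) (.e (nat_lit 24654) (nat_lit 13) (.e (nat_lit 393301) (nat_lit 27) (.e (nat_lit 491558) (nat_lit 10) (.e (nat_lit 344179) (nat_lit 44) .nil)))) .nil))) (.nd (nat_lit 5) 
(.lf (nat_lit 140248) (.g (nat_lit 3359) (.e (nat_lit 24654) (nat_lit 13) (.e (nat_lit 393298) (nat_lit 27) (.e (nat_lit 491556) (nat_lit 9) (.e (nat_lit 336051) (nat_lit 6) (.e (nat_lit 147495) (nat_lit 11) .nil))))) (.g (nat_lit 0) .nil .nil))) 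
(.lf (nat_lit 140280) (.g (nat_lit 3668) (.e (nat_lit 24655) (nat_lit 13) (.e (nat_lit 393224) (nat_lit 9) (.e (nat_lit 335995) (nat_lit 1) (.e (nat_lit 57849) (nat_lit 252) (.e (nat_lit 57372) (nat_lit 2) (.e (nat_lit 90160) (nat_lit 11) .nil)))))) (.g (nat_lit 5) .nil .nil)))))) (.nd (nat_lit 3) (.nd (nat_lit 4) (.nd (nat_lit 5) 
(.lf (nat_lit 140228) (.g (nat_lit 2884) (.e (nat_lit 24654) (nat_lit 13) (.e (nat_lit 393229) (nat_lit 9) (.e (nat_lit 335995) (nat_lit 1) (.e (nat_lit 57854) (nat_lit 252) .nil)))) .nil)) 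
(.lf (nat_lit 140260) (.g (nat_lit 1700) (.e (nat_lit 24654) (nat_lit 13) (.e (nat_lit 393300) (nat_lit 27) (.e (nat_lit 491560) (nat_lit 10) (.e (nat_lit 344179) (nat_lit 44) (.e (nat_lit 778466) (nat_lit 11) .nil))))) (.g (nat_lit 4) .nil .nil)))) (.nd (nat_lit 5) 
(.lf (nat_lit 140244) (.g (nat_lit 871) (.e (nat_lit 24654) (nat_lit 13) (.e (nat_lit 393271) (nat_lit 23) (.e (nat_lit 426112) (nat_lit 1) .nil))) .nil)) 
(.lf (nat_lit 140276) (.g (nat_lit 3610) (.e (nat_lit 24655) (nat_lit 13) (.e (nat_lit 393224) (nat_lit 9) (.e (nat_lit 335988) (nat_lit 1) (.e (nat_lit 57854) (nat_lit 252) (.e (nat_lit 57371) (nat_lit 2) (.e (nat_lit 90160) (nat_lit 11) .nil)))))) (.g (nat_lit 6) .nil .nil))))) (.nd (nat_lit 4) (.nd (nat_lit 5) 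
(.lf (nat_lit 140236) (.g (nat_lit 1124) (.e (nat_lit 24654) (nat_lit 13) (.e (nat_lit 393234) (nat_lit 17) (.e (nat_lit 7536) (nat_lit 402) (.e (nat_lit 7936) (nat_lit 108) .nil)))) .nil)) 
(.lf (nat_lit 140268) (.g (nat_lit 2158) (.e (nat_lit 24654) (nat_lit 13) (.e (nat_lit 393301) (nat_lit 27) (.e (nat_lit 491558) (nat_lit 10) (.e (nat_lit 352000) (nat_lit 44) .nil)))) .nil))) (.nd (nat_lit 5) 
(.lf (nat_lit 140252) (.g (nat_lit 691) (.e (nat_lit 24654) (nat_lit 13) (.e (nat_lit 393299) (nat_lit 27) (.e (nat_lit 499456) (nat_lit 9) .nil))) .nil)) 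
(.lf (nat_lit 140284) (.g (nat_lit 2794) (.e (nat_lit 24655) (nat_lit 13) (.e (nat_lit 393224) (nat_lit 9) (.e (nat_lit 335996) (nat_lit 1) (.e (nat_lit 57854) (nat_lit 252) (.e (nat_lit 57373) (nat_lit 2) (.e (nat_lit 90158) (nat_lit 11) .nil)))))) (.g (nat_lit 4) .nil .nil))))))) (.nd (nat_lit 2) (.nd (nat_lit 3) (.nd (nat_lit 4) (.nd (nat_lit 5) 
(.lf (nat_lit 140226) (.g (nat_lit 3088) (.e (nat_lit 24654) (nat_lit 13) (.e (nat_lit 393229) (nat_lit 9) (.e (nat_lit 335995) (nat_lit 1) (.e (nat_lit 57851) (nat_lit 252) .nil)))) .nil)) 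
(.lf (nat_lit 140258) (.g (nat_lit 2801) (.e (nat_lit 24654) (nat_lit 13) (.e (nat_lit 393300) (nat_lit 27) (.e (nat_lit 491556) (nat_lit 9) (.e (nat_lit 336051) (nat_lit 6) (.e (nat_lit 147496) (nat_lit 11) .nil))))) (.g (nat_lit 5) .nil .nil)))) (.nd (nat_lit 5) 
(.lf (nat_lit 140242) (.g (nat_lit 1974) (.e (nat_lit 24654) (nat_lit 13) (.e (nat_lit 393260) (nat_lit 21) (.e (nat_lit 409617) (nat_lit 10) (.e (nat_lit 4934) (nat_lit 287) .nil)))) .nil)) 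
(.lf (nat_lit 140274) (.g (nat_lit 3304) (.e (nat_lit 24654) (nat_lit 13) (.e (nat_lit 393301) (nat_lit 27) (.e (nat_lit 491560) (nat_lit 10) (.e (nat_lit 344179) (nat_lit 44) (.e (nat_lit 778466) (nat_lit 11) .nil))))) (.g (nat_lit 0) .nil .nil))))) (.nd (nat_lit 4) (.nd (nat_lit 5) 
(.lf (nat_lit 140234) (.g (nat_lit 1758) (.e (nat_lit 24654) (nat_lit 13) (.e (nat_lit 393232) (nat_lit 17) (.e (nat_lit 7591) (nat_lit 407) (.e (nat_lit 73775) (nat_lit 26) (.e (nat_lit 778464) (nat_lit 11) .nil))))) (.g (nat_lit 4) .nil .nil))) 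
(.lf (nat_lit 140266) (.g (nat_lit 4136) (.e (nat_lit 24654) (nat_lit 13) (.e (nat_lit 393301) (nat_lit 27) (.e (nat_lit 491558) (nat_lit 10) (.e (nat_lit 344180) (nat_lit 44) (.e (nat_lit 778465) (nat_lit 11) .nil))))) (.g (nat_lit 0) .nil .nil)))) (.nd (nat_lit 5) 
(.lf (nat_lit 140250) (.g (nat_lit 577) (.e (nat_lit 24654) (nat_lit 13) (.e (nat_lit 393298) (nat_lit 27) (.e (nat_lit 491560) (nat_lit 10) .nil))) .nil)) 
(.lf (nat_lit 140282) (.g (nat_lit 2759) (.e (nat_lit 24655) (nat_lit 13) (.e (nat_lit 393224) (nat_lit 9) (.e (nat_lit 335995) (nat_lit 1) (.e (nat_lit 57849) (nat_lit 252) (.e (nat_lit 57375) (nat_lit 2) (.e (nat_lit 90160) (nat_lit 11) .nil)))))) (.g (nat_lit 4) .nil .nil)))))) (.nd (nat_lit 3) (.nd (nat_lit 4) (.nd (nat_lit 5) 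
(.lf (nat_lit 140230) (.g (nat_lit 2060) (.e (nat_lit 24654) (nat_lit 13) (.e (nat_lit 393229) (nat_lit 9) (.e (nat_lit 335996) (nat_lit 1) (.e (nat_lit 57853) (nat_lit 252) .nil)))) .nil)) 
(.lf (nat_lit 140262) (.g (nat_lit 1655) (.e (nat_lit 24654) (nat_lit 13) (.e (nat_lit 393301) (nat_lit 27) (.e (nat_lit 491546) (nat_lit 9) (.e (nat_lit 336048) (nat_lit 6) .nil)))) .nil))) (.nd (nat_lit 5) 
(.lf (nat_lit 140246) (.g (nat_lit 396) (.e (nat_lit 24654) (nat_lit 13) (.e (nat_lit 393281) (nat_lit 23) (.e (nat_lit 426099) (nat_lit 1) .nil))) .nil)) 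
(.lf (nat_lit 140278) (.g (nat_lit 2355) (.e (nat_lit 24655) (nat_lit 13) (.e (nat_lit 393224) (nat_lit 9) (.e (nat_lit 335995) (nat_lit 1) (.e (nat_lit 57848) (nat_lit 252) (.e (nat_lit 57372) (nat_lit 2) (.e (nat_lit 90159) (nat_lit 11) .nil)))))) (.g (nat_lit 4) .nil .nil))))) (.nd (nat_lit 4) (.nd (nat_lit 5) 
(.lf (nat_lit 140238) (.g (nat_lit 624) (.e (nat_lit 24654) (nat_lit 13) (.e (nat_lit 393238) (nat_lit 17) (.e (nat_lit 6983) (nat_lit 377) .nil))) .nil)) 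
(.lf (nat_lit 140270) (.g (nat_lit 2923) (.e (nat_lit 24654) (nat_lit 13) (.e (nat_lit 393301) (nat_lit 27) (.e (nat_lit 491559) (nat_lit 10) (.e (nat_lit 352000) (nat_lit 44) .nil)))) .nil))) (.nd (nat_lit 5) 
(.lf (nat_lit 140254) (.g (nat_lit 2546) (.e (nat_lit 24654) (nat_lit 13) (.e (nat_lit 393299) (nat_lit 27) (.e (nat_lit 491560) (nat_lit 10) (.e (nat_lit 344179) (nat_lit 44) (.e (nat_lit 778464) (nat_lit 11) .nil))))) (.g (nat_lit 5) .nil .nil))) 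
(.lf (nat_lit 140286) (.g (nat_lit 1680) (.e (nat_lit 24655) (nat_lit 13) (.e (nat_lit 393225) (nat_lit 9) (.e (nat_lit 335986) (nat_lit 1) (.e (nat_lit 57854) (nat_lit 252) .nil)))) .nil))))))) (.nd (nat_lit 1) (.nd (nat_lit 2) (.nd (nat_lit 3) (.nd (nat_lit 4) (.nd (nat_lit 5) 
(.lf (nat_lit 140225) (.g (nat_lit 1520) (.e (nat_lit 24654) (nat_lit 13) (.e (nat_lit 393229) (nat_lit 9) (.e (nat_lit 335995) (nat_lit 1) (.e (nat_lit 57847) (nat_lit 252) .nil)))) .nil)) 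
(.lf (nat_lit 140257) (.g (nat_lit 3412) (.e (nat_lit 24654) (nat_lit 13) (.e (nat_lit 393300) (nat_lit 27) (.e (nat_lit 491556) (nat_lit 9) (.e (nat_lit 336051) (nat_lit 6) (.e (nat_lit 147495) (nat_lit 11) .nil))))) (.g (nat_lit 0) .nil .nil)))) (.nd (nat_lit 5) 
(.lf (nat_lit 140241) (.g (nat_lit 2008) (.e (nat_lit 24654) (nat_lit 13) (.e (nat_lit 393260) (nat_lit 21) (.e (nat_lit 409617) (nat_lit 10) (.e (nat_lit 4926) (nat_lit 287) .nil)))) .nil)) 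
(.lf (nat_lit 140273) (.g (nat_lit 3646) (.e (nat_lit 24654) (nat_lit 13) (.e (nat_lit 393301) (nat_lit 27) (.e (nat_lit 491560) (nat_lit 10) (.e (nat_lit 344179) (nat_lit 44) (.e (nat_lit 778465) (nat_lit 11) .nil))))) (.g (nat_lit 0) .nil .nil))))) (.nd (nat_lit 4) (.nd (nat_lit 5) 
(.lf (nat_lit 140233) (.g (nat_lit 2614) (.e (nat_lit 24654) (nat_lit 13) (.e (nat_lit 393229) (nat_lit 9) (.e (nat_lit 335996) (nat_lit 1) (.e (nat_lit 57854) (nat_lit 252) (.e (nat_lit 57373) (nat_lit 2) (.e (nat_lit 90158) (nat_lit 11) .nil)))))) (.g (nat_lit 4) .nil .nil))) 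
(.lf (nat_lit 140265) (.g (nat_lit 2388) (.e (nat_lit 24654) (nat_lit 13) (.e (nat_lit 393301) (nat_lit 27) (.e (nat_lit 491558) (nat_lit 10) (.e (nat_lit 344180) (nat_lit 44) .nil)))) .nil))) (.nd (nat_lit 5) 
(.lf (nat_lit 140249) (.g (nat_lit 2849) (.e (nat_lit 24654) (nat_lit 13) (.e (nat_lit 393298) (nat_lit 27) (.e (nat_lit 491556) (nat_lit 9) (.e (nat_lit 336051) (nat_lit 6) (.e (nat_lit 147496) (nat_lit 11) .nil))))) (.g (nat_lit 5) .nil .nil))) 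
(.lf (nat_lit 140281) (.g (nat_lit 3425) (.e (nat_lit 24655) (nat_lit 13) (.e (nat_lit 393224) (nat_lit 9) (.e (nat_lit 335995) (nat_lit 1) (.e (nat_lit 57849) (nat_lit 252) (.e (nat_lit 57375) (nat_lit 2) (.e (nat_lit 90158) (nat_lit 11) .nil)))))) (.g (nat_lit 5) .nil .nil)))))) (.nd (nat_lit 3) (.nd (nat_lit 4) (.nd (nat_lit 5) 
(.lf (nat_lit 140229) (.g (nat_lit 3552) (.e (nat_lit 24654) (nat_lit 13) (.e (nat_lit 393229) (nat_lit 9) (.e (nat_lit 335995) (nat_lit 1) (.e (nat_lit 57854) (nat_lit 252) (.e (nat_lit 57373) (nat_lit 2) (.e (nat_lit 90160) (nat_lit 11) .nil)))))) (.g (nat_lit 4) .nil .nil))) 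
(.lf (nat_lit 140261) (.g (nat_lit 1222) (.e (nat_lit 24654) (nat_lit 13) (.e (nat_lit 393301) (nat_lit 27) (.e (nat_lit 491544) (nat_lit 7) .nil))) .nil))) (.nd (nat_lit 5) 
(.lf (nat_lit 140245) (.g (nat_lit 1490) (.e (nat_lit 24654) (nat_lit 13) (.e (nat_lit 393271) (nat_lit 23) (.e (nat_lit 426112) (nat_lit 1) (.e (nat_lit 164326) (nat_lit 230) .nil)))) .nil)) 
(.lf (nat_lit 140277) (.g (nat_lit 2915) (.e (nat_lit 24655) (nat_lit 13) (.e (nat_lit 393224) (nat_lit 9) (.e (nat_lit 335995) (nat_lit 1) (.e (nat_lit 57847) (nat_lit 252) (.e (nat_lit 57370) (nat_lit 2) (.e (nat_lit 90158) (nat_lit 11) .nil)))))) (.g (nat_lit 4) .nil .nil))))) (.nd (nat_lit 4) (.nd (nat_lit 5) 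
(.lf (nat_lit 140237) (.g (nat_lit 1473) (.e (nat_lit 24654) (nat_lit 13) (.e (nat_lit 393234) (nat_lit 17) (.e (nat_lit 7591) (nat_lit 407) (.e (nat_lit 73776) (nat_lit 26) (.e (nat_lit 778464) (nat_lit 11) .nil))))) .nil)) 
(.lf (nat_lit 140269) (.g (nat_lit 2941) (.e (nat_lit 24654) (nat_lit 13) (.e (nat_lit 393301) (nat_lit 27) (.e (nat_lit 491559) (nat_lit 10) (.e (nat_lit 344179) (nat_lit 44) .nil)))) .nil))) (.nd (nat_lit 5) 
(.lf (nat_lit 140253) (.g (nat_lit 1487) (.e (nat_lit 24654) (nat_lit 13) (.e (nat_lit 393299) (nat_lit 27) (.e (nat_lit 491558) (nat_lit 10) (.e (nat_lit 344180) (nat_lit 44) .nil)))) .nil)) 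
(.lf (nat_lit 140285) (.g (nat_lit 2241) (.e (nat_lit 24655) (nat_lit 13) (.e (nat_lit 393225) (nat_lit 9) (.e (nat_lit 335986) (nat_lit 1) (.e (nat_lit 57849) (nat_lit 252) (.e (nat_lit 57372) (nat_lit 2) (.e (nat_lit 90160) (nat_lit 11) .nil)))))) (.g (nat_lit 4) .nil .nil))))))) (.nd (nat_lit 2) (.nd (nat_lit 3) (.nd (nat_lit 4) (.nd (nat_lit 5) 
(.lf (nat_lit 140227) (.g (nat_lit 2999) (.e (nat_lit 24654) (nat_lit 13) (.e (nat_lit 393229) (nat_lit 9) (.e (nat_lit 335995) (nat_lit 1) (.e (nat_lit 57853) (nat_lit 252) .nil)))) .nil)) 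
(.lf (nat_lit 140259) (.g (nat_lit 1912) (.e (nat_lit 24654) (nat_lit 13) (.e (nat_lit 393300) (nat_lit 27) (.e (nat_lit 491560) (nat_lit 10) (.e (nat_lit 344179) (nat_lit 44) (.e (nat_lit 778465) (nat_lit 11) .nil))))) (.g (nat_lit 4) .nil .nil)))) (.nd (nat_lit 5) 
(.lf (nat_lit 140243) (.g (nat_lit 337) (.e (nat_lit 24654) (nat_lit 13) (.e (nat_lit 393263) (nat_lit 22) (.e (nat_lit 417817) (nat_lit 10) .nil))) .nil)) 
(.lf (nat_lit 140275) (.g (nat_lit 2467) (.e (nat_lit 24655) (nat_lit 13) (.e (nat_lit 393224) (nat_lit 9) (.e (nat_lit 335988) (nat_lit 1) (.e (nat_lit 57854) (nat_lit 252) (.e (nat_lit 57370) (nat_lit 2) (.e (nat_lit 90158) (nat_lit 11) .nil)))))) (.g (nat_lit 4) .nil .nil))))) (.nd (nat_lit 4) (.nd (nat_lit 5) 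
(.lf (nat_lit 140235) (.g (nat_lit 2589) (.e (nat_lit 24654) (nat_lit 13) (.e (nat_lit 393232) (nat_lit 17) (.e (nat_lit 7591) (nat_lit 407) (.e (nat_lit 73776) (nat_lit 26) (.e (nat_lit 778465) (nat_lit 11) .nil))))) (.g (nat_lit 0) .nil .nil))) 
(.lf (nat_lit 140267) (.g (nat_lit 4034) (.e (nat_lit 24654) (nat_lit 13) (.e (nat_lit 393301) (nat_lit 27) (.e (nat_lit 491558) (nat_lit 10) (.e (nat_lit 344180) (nat_lit 44) (.e (nat_lit 778466) (nat_lit 11) .nil))))) (.g (nat_lit 0) .nil .nil)))) (.nd (nat_lit 5) 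
(.lf (nat_lit 140251) (.g (nat_lit 3005) (.e (nat_lit 24654) (nat_lit 13) (.e (nat_lit 393299) (nat_lit 27) (.e (nat_lit 491556) (nat_lit 9) (.e (nat_lit 336051) (nat_lit 6) (.e (nat_lit 147496) (nat_lit 11) .nil))))) (.g (nat_lit 5) .nil .nil))) 
(.lf (nat_lit 140283) (.g (nat_lit 3088) (.e (nat_lit 24655) (nat_lit 13) (.e (nat_lit 393224) (nat_lit 9) (.e (nat_lit 335996) (nat_lit 1) (.e (nat_lit 57854) (nat_lit 252) (.e (nat_lit 57371) (nat_lit 2) (.e (nat_lit 90160) (nat_lit 11) .nil)))))) (.g (nat_lit 5) .nil .nil)))))) (.nd (nat_lit 3) (.nd (nat_lit 4) (.nd (nat_lit 5) 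
(.lf (nat_lit 140231) (.g (nat_lit 2591) (.e (nat_lit 24654) (nat_lit 13) (.e (nat_lit 393229) (nat_lit 9) (.e (nat_lit 335996) (nat_lit 1) (.e (nat_lit 57853) (nat_lit 252) (.e (nat_lit 57371) (nat_lit 2) .nil))))) .nil)) 
(.lf (nat_lit 140263) (.g (nat_lit 2811) (.e (nat_lit 24654) (nat_lit 13) (.e (nat_lit 393301) (nat_lit 27) (.e (nat_lit 491556) (nat_lit 9) (.e (nat_lit 336051) (nat_lit 6) (.e (nat_lit 147496) (nat_lit 11) .nil))))) (.g (nat_lit 5) .nil .nil)))) (.nd (nat_lit 5) 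
(.lf (nat_lit 140247) (.g (nat_lit 1803) (.e (nat_lit 24654) (nat_lit 13) (.e (nat_lit 393281) (nat_lit 23) (.e (nat_lit 426099) (nat_lit 1) (.e (nat_lit 164332) (nat_lit 230) (.e (nat_lit 163878) (nat_lit 4) (.e (nat_lit 213030) (nat_lit 11) .nil)))))) (.g (nat_lit 4) .nil .nil))) 
(.lf (nat_lit 140279) (.g (nat_lit 2230) (.e (nat_lit 24655) (nat_lit 13) (.e (nat_lit 393224) (nat_lit 9) (.e (nat_lit 335995) (nat_lit 1) (.e (nat_lit 57848) (nat_lit 252) (.e (nat_lit 57375) (nat_lit 2) (.e (nat_lit 90159) (nat_lit 11) .nil)))))) (.g (nat_lit 4) .nil .nil))))) (.nd (nat_lit 4) (.nd (nat_lit 5) 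
(.lf (nat_lit 140239) (.g (nat_lit 512) (.e (nat_lit 24654) (nat_lit 13) (.e (nat_lit 393238) (nat_lit 17) (.e (nat_lit 7107) (nat_lit 380) .nil))) .nil)) 
(.lf (nat_lit 140271) (.g (nat_lit 355) (.e (nat_lit 24654) (nat_lit 13) (.e (nat_lit 393301) (nat_lit 27) (.e (nat_lit 491560) (nat_lit 10) .nil))) .nil))) (.nd (nat_lit 5) 
(.lf (nat_lit 140255) (.g (nat_lit 2991) (.e (nat_lit 24654) (nat_lit 13) (.e (nat_lit 393299) (nat_lit 27) (.e (nat_lit 491560) (nat_lit 10) (.e (nat_lit 344179) (nat_lit 44) (.e (nat_lit 778465) (nat_lit 11) .nil))))) (.g (nat_lit 0) .nil .nil))) 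
(.lf (nat_lit 140287) (.g (nat_lit 1955) (.e (nat_lit 24655) (nat_lit 13) (.e (nat_lit 393225) (nat_lit 9) (.e (nat_lit 335988) (nat_lit 1) (.e (nat_lit 57852) (nat_lit 252) .nil)))) .nil))))))))

noncomputable def tv1862 : DT := (.nd (nat_lit 0) (.nd (nat_lit 1) (.nd (nat_lit 2) (.nd (nat_lit 3) (.nd (nat_lit 4) (.nd (nat_lit 5) 
(.lf (nat_lit 140288) (.g (nat_lit 3152) (.e (nat_lit 24655) (nat_lit 13) (.e (nat_lit 393225) (nat_lit 9) (.e (nat_lit 335988) (nat_lit 1) (.e (nat_lit 57854) (nat_lit 252) (.e (nat_lit 57373) (nat_lit 2) (.e (nat_lit 90157) (nat_lit 11) .nil)))))) (.g (nat_lit 6) .nil .nil))) 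
(.lf (nat_lit 140320) (.g (nat_lit 3242) (.e (nat_lit 24655) (nat_lit 13) (.e (nat_lit 393227) (nat_lit 9) (.e (nat_lit 335998) (nat_lit 1) (.e (nat_lit 57849) (nat_lit 252) (.e (nat_lit 57375) (nat_lit 2) (.e (nat_lit 90158) (nat_lit 11) .nil)))))) (.g (nat_lit 0) .nil .nil)))) (.nd (nat_lit 5) 
(.lf (nat_lit 140304) (.g (nat_lit 2536) (.e (nat_lit 24655) (nat_lit 13) (.e (nat_lit 393225) (nat_lit 9) (.e (nat_lit 335995) (nat_lit 1) (.e (nat_lit 57847) (nat_lit 252) (.e (nat_lit 57375) (nat_lit 2) (.e (nat_lit 90157) (nat_lit 11) .nil)))))) (.g (nat_lit 5) .nil .nil))) 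
(.lf (nat_lit 140336) (.g (nat_lit 3307) (.e (nat_lit 24655) (nat_lit 13) (.e (nat_lit 393229) (nat_lit 9) (.e (nat_lit 335986) (nat_lit 1) (.e (nat_lit 57854) (nat_lit 252) (.e (nat_lit 57371) (nat_lit 2) (.e (nat_lit 90158) (nat_lit 11) .nil)))))) (.g (nat_lit 0) .nil .nil))))) (.nd (nat_lit 4) (.nd (nat_lit 5) 
(.lf (nat_lit 140296) (.g (nat_lit 3502) (.e (nat_lit 24655) (nat_lit 13) (.e (nat_lit 393225) (nat_lit 9) (.e (nat_lit 335995) (nat_lit 1) (.e (nat_lit 57844) (nat_lit 252) (.e (nat_lit 57375) (nat_lit 2) (.e (nat_lit 90160) (nat_lit 11) .nil)))))) (.g (nat_lit 5) .nil .nil))) 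
(.lf (nat_lit 140328) (.g (nat_lit 3443) (.e (nat_lit 24655) (nat_lit 13) (.e (nat_lit 393229) (nat_lit 9) (.e (nat_lit 335986) (nat_lit 1) (.e (nat_lit 57847) (nat_lit 252) (.e (nat_lit 57372) (nat_lit 2) (.e (nat_lit 90158) (nat_lit 11) .nil)))))) (.g (nat_lit 0) .nil .nil)))) (.nd (nat_lit 5) 
(.lf (nat_lit 140312) (.g (nat_lit 2960) (.e (nat_lit 24655) (nat_lit 13) (.e (nat_lit 393225) (nat_lit 9) (.e (nat_lit 335995) (nat_lit 1) (.e (nat_lit 57849) (nat_lit 252) (.e (nat_lit 57375) (nat_lit 2) (.e (nat_lit 90160) (nat_lit 11) .nil)))))) (.g (nat_lit 4) .nil .nil))) 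
(.lf (nat_lit 140344) (.g (nat_lit 2715) (.e (nat_lit 24655) (nat_lit 13) (.e (nat_lit 393229) (nat_lit 9) (.e (nat_lit 335988) (nat_lit 1) (.e (nat_lit 57853) (nat_lit 252) (.e (nat_lit 57370) (nat_lit 2) (.e (nat_lit 90158) (nat_lit 11) .nil)))))) (.g (nat_lit 4) .nil .nil)))))) (.nd (nat_lit 3) (.nd (nat_lit 4) (.nd (nat_lit 5) 
(.lf (nat_lit 140292) (.g (nat_lit 3675) (.e (nat_lit 24655) (nat_lit 13) (.e (nat_lit 393225) (nat_lit 9) (.e (nat_lit 335995) (nat_lit 1) (.e (nat_lit 57844) (nat_lit 252) (.e (nat_lit 57371) (nat_lit 2) (.e (nat_lit 90160) (nat_lit 11) .nil)))))) (.g (nat_lit 5) .nil .nil))) 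
(.lf (nat_lit 140324) (.g (nat_lit 2599) (.e (nat_lit 24655) (nat_lit 13) (.e (nat_lit 393228) (nat_lit 9) (.e (nat_lit 335995) (nat_lit 1) (.e (nat_lit 57849) (nat_lit 252) (.e (nat_lit 57375) (nat_lit 2) (.e (nat_lit 90158) (nat_lit 11) .nil)))))) (.g (nat_lit 4) .nil .nil)))) (.nd (nat_lit 5) 
(.lf (nat_lit 140308) (.g (nat_lit 4139) (.e (nat_lit 24655) (nat_lit 13) (.e (nat_lit 393225) (nat_lit 9) (.e (nat_lit 335995) (nat_lit 1) (.e (nat_lit 57848) (nat_lit 252) (.e (nat_lit 57374) (nat_lit 2) (.e (nat_lit 90157) (nat_lit 11) .nil)))))) (.g (nat_lit 0) .nil .nil))) 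
(.lf (nat_lit 140340) (.g (nat_lit 3861) (.e (nat_lit 24655) (nat_lit 13) (.e (nat_lit 393229) (nat_lit 9) (.e (nat_lit 335986) (nat_lit 1) (.e (nat_lit 57854) (nat_lit 252) (.e (nat_lit 57373) (nat_lit 2) (.e (nat_lit 90160) (nat_lit 11) .nil)))))) (.g (nat_lit 0) .nil .nil))))) (.nd (nat_lit 4) (.nd (nat_lit 5) 
(.lf (nat_lit 140300) (.g (nat_lit 2672) (.e (nat_lit 24655) (nat_lit 13) (.e (nat_lit 393225) (nat_lit 9) (.e (nat_lit 335995) (nat_lit 1) (.e (nat_lit 57846) (nat_lit 252) (.e (nat_lit 57372) (nat_lit 2) (.e (nat_lit 90158) (nat_lit 11) .nil)))))) (.g (nat_lit 4) .nil .nil))) 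
(.lf (nat_lit 140332) (.g (nat_lit 2868) (.e (nat_lit 24655) (nat_lit 13) (.e (nat_lit 393229) (nat_lit 9) (.e (nat_lit 335986) (nat_lit 1) (.e (nat_lit 57849) (nat_lit 252) (.e (nat_lit 57372) (nat_lit 2) (.e (nat_lit 90160) (nat_lit 11) .nil)))))) (.g (nat_lit 5) .nil .nil)))) (.nd (nat_lit 5) 
(.lf (nat_lit 140316) (.g (nat_lit 3090) (.e (nat_lit 24655) (nat_lit 13) (.e (nat_lit 393225) (nat_lit 9) (.e (nat_lit 335996) (nat_lit 1) (.e (nat_lit 57852) (nat_lit 252) (.e (nat_lit 57373) (nat_lit 2) (.e (nat_lit 90157) (nat_lit 11) .nil)))))) (.g (nat_lit 5) .nil .nil))) 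
(.lf (nat_lit 140348) (.g (nat_lit 4067) (.e (nat_lit 24655) (nat_lit 13) (.e (nat_lit 393229) (nat_lit 9) (.e (nat_lit 335988) (nat_lit 1) (.e (nat_lit 57854) (nat_lit 252) (.e (nat_lit 57373) (nat_lit 2) (.e (nat_lit 90158) (nat_lit 11) .nil)))))) (.g (nat_lit 0) .nil .nil))))))) (.nd (nat_lit 2) (.nd (nat_lit 3) (.nd (nat_lit 4) (.nd (nat_lit 5) 
(.lf (nat_lit 140290) (.g (nat_lit 2665) (.e (nat_lit 24655) (nat_lit 13) (.e (nat_lit 393225) (nat_lit 9) (.e (nat_lit 335995) (nat_lit 1) (.e (nat_lit 57844) (nat_lit 252) (.e (nat_lit 57371) (nat_lit 2) (.e (nat_lit 90156) (nat_lit 11) .nil)))))) (.g (nat_lit 4) .nil .nil))) 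
(.lf (nat_lit 140322) (.g (nat_lit 3113) (.e (nat_lit 24655) (nat_lit 13) (.e (nat_lit 393228) (nat_lit 9) (.e (nat_lit 335988) (nat_lit 1) (.e (nat_lit 57854) (nat_lit 252) (.e (nat_lit 57371) (nat_lit 2) (.e (nat_lit 90160) (nat_lit 11) .nil)))))) (.g (nat_lit 5) .nil .nil)))) (.nd (nat_lit 5) 
(.lf (nat_lit 140306) (.g (nat_lit 2992) (.e (nat_lit 24655) (nat_lit 13) (.e (nat_lit 393225) (nat_lit 9) (.e (nat_lit 335995) (nat_lit 1) (.e (nat_lit 57848) (nat_lit 252) (.e (nat_lit 57372) (nat_lit 2) (.e (nat_lit 90157) (nat_lit 11) .nil)))))) (.g (nat_lit 0) .nil .nil))) 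
(.lf (nat_lit 140338) (.g (nat_lit 3194) (.e (nat_lit 24655) (nat_lit 13) (.e (nat_lit 393229) (nat_lit 9) (.e (nat_lit 335986) (nat_lit 1) (.e (nat_lit 57854) (nat_lit 252) (.e (nat_lit 57373) (nat_lit 2) (.e (nat_lit 90157) (nat_lit 11) .nil)))))) (.g (nat_lit 5) .nil .nil))))) (.nd (nat_lit 4) (.nd (nat_lit 5) 
(.lf (nat_lit 140298) (.g (nat_lit 2654) (.e (nat_lit 24655) (nat_lit 13) (.e (nat_lit 393225) (nat_lit 9) (.e (nat_lit 335995) (nat_lit 1) (.e (nat_lit 57846) (nat_lit 252) (.e (nat_lit 57370) (nat_lit 2) (.e (nat_lit 90158) (nat_lit 11) .nil)))))) (.g (nat_lit 4) .nil .nil))) 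
(.lf (nat_lit 140330) (.g (nat_lit 3327) (.e (nat_lit 24655) (nat_lit 13) (.e (nat_lit 393229) (nat_lit 9) (.e (nat_lit 335986) (nat_lit 1) (.e (nat_lit 57847) (nat_lit 252) (.e (nat_lit 57375) (nat_lit 2) (.e (nat_lit 90158) (nat_lit 11) .nil)))))) (.g (nat_lit 0) .nil .nil)))) (.nd (nat_lit 5) 
(.lf (nat_lit 140314) (.g (nat_lit 2931) (.e (nat_lit 24655) (nat_lit 13) (.e (nat_lit 393225) (nat_lit 9) (.e (nat_lit 335996) (nat_lit 1) (.e (nat_lit 57851) (nat_lit 252) (.e (nat_lit 57371) (nat_lit 2) (.e (nat_lit 90156) (nat_lit 11) .nil)))))) (.g (nat_lit 5) .nil .nil))) 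
(.lf (nat_lit 140346) (.g (nat_lit 3335) (.e (nat_lit 24655) (nat_lit 13) (.e (nat_lit 393229) (nat_lit 9) (.e (nat_lit 335988) (nat_lit 1) (.e (nat_lit 57854) (nat_lit 252) (.e (nat_lit 57370) (nat_lit 2) (.e (nat_lit 90158) (nat_lit 11) .nil)))))) (.g (nat_lit 0) .nil .nil)))))) (.nd (nat_lit 3) (.nd (nat_lit 4) (.nd (nat_lit 5) 
(.lf (nat_lit 140294) (.g (nat_lit 3096) (.e (nat_lit 24655) (nat_lit 13) (.e (nat_lit 393225) (nat_lit 9) (.e (nat_lit 335995) (nat_lit 1) (.e (nat_lit 57844) (nat_lit 252) (.e (nat_lit 57372) (nat_lit 2) (.e (nat_lit 90160) (nat_lit 11) .nil)))))) (.g (nat_lit 4) .nil .nil))) 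
(.lf (nat_lit 140326) (.g (nat_lit 3336) (.e (nat_lit 24655) (nat_lit 13) (.e (nat_lit 393229) (nat_lit 9) (.e (nat_lit 335986) (nat_lit 1) (.e (nat_lit 57847) (nat_lit 252) (.e (nat_lit 57370) (nat_lit 2) (.e (nat_lit 90158) (nat_lit 11) .nil)))))) (.g (nat_lit 0) .nil .nil)))) (.nd (nat_lit 5) 
(.lf (nat_lit 140310) (.g (nat_lit 3161) (.e (nat_lit 24655) (nat_lit 13) (.e (nat_lit 393225) (nat_lit 9) (.e (nat_lit 335995) (nat_lit 1) (.e (nat_lit 57849) (nat_lit 252) (.e (nat_lit 57370) (nat_lit 2) (.e (nat_lit 90158) (nat_lit 11) .nil)))))) (.g (nat_lit 5) .nil .nil))) 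
(.lf (nat_lit 140342) (.g (nat_lit 3577) (.e (nat_lit 24655) (nat_lit 13) (.e (nat_lit 393229) (nat_lit 9) (.e (nat_lit 335988) (nat_lit 1) (.e (nat_lit 57852) (nat_lit 252) (.e (nat_lit 57371) (nat_lit 2) (.e (nat_lit 90158) (nat_lit 11) .nil)))))) (.g (nat_lit 0) .nil .nil))))) (.nd (nat_lit 4) (.nd (nat_lit 5) 
(.lf (nat_lit 140302) (.g (nat_lit 2695) (.e (nat_lit 24655) (nat_lit 13) (.e (nat_lit 393225) (nat_lit 9) (.e (nat_lit 335995) (nat_lit 1) (.e (nat_lit 57846) (nat_lit 252) (.e (nat_lit 57373) (nat_lit 2) (.e (nat_lit 90158) (nat_lit 11) .nil)))))) (.g (nat_lit 4) .nil .nil))) 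
(.lf (nat_lit 140334) (.g (nat_lit 3534) (.e (nat_lit 24655) (nat_lit 13) (.e (nat_lit 393229) (nat_lit 9) (.e (nat_lit 335986) (nat_lit 1) (.e (nat_lit 57853) (nat_lit 252) (.e (nat_lit 57371) (nat_lit 2) (.e (nat_lit 90158) (nat_lit 11) .nil)))))) (.g (nat_lit 6) .nil .nil)))) (.nd (nat_lit 5) 
(.lf (nat_lit 140318) (.g (nat_lit 3587) (.e (nat_lit 24655) (nat_lit 13) (.e (nat_lit 393225) (nat_lit 9) (.e (nat_lit 335996) (nat_lit 1) (.e (nat_lit 57854) (nat_lit 252) (.e (nat_lit 57373) (nat_lit 2) (.e (nat_lit 90157) (nat_lit 11) .nil)))))) (.g (nat_lit 6) .nil .nil))) 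
(.lf (nat_lit 140350) (.g (nat_lit 2090) (.e (nat_lit 24655) (nat_lit 13) (.e (nat_lit 393229) (nat_lit 9) (.e (nat_lit 335993) (nat_lit 1) (.e (nat_lit 57847) (nat_lit 252) (.e (nat_lit 57372) (nat_lit 2) (.e (nat_lit 90158) (nat_lit 11) .nil)))))) (.g (nat_lit 4) .nil .nil)))))))) (.nd (nat_lit 1) (.nd (nat_lit 2) (.nd (nat_lit 3) (.nd (nat_lit 4) (.nd (nat_lit 5) 
(.lf (nat_lit 140289) (.g (nat_lit 3051) (.e (nat_lit 24655) (nat_lit 13) (.e (nat_lit 393225) (nat_lit 9) (.e (nat_lit 335995) (nat_lit 1) (.e (nat_lit 57844) (nat_lit 252) (.e (nat_lit 57370) (nat_lit 2) (.e (nat_lit 90158) (nat_lit 11) .nil)))))) (.g (nat_lit 5) .nil .nil))) 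
(.lf (nat_lit 140321) (.g (nat_lit 2331) (.e (nat_lit 24655) (nat_lit 13) (.e (nat_lit 393228) (nat_lit 9) (.e (nat_lit 335986) (nat_lit 1) (.e (nat_lit 57849) (nat_lit 252) (.e (nat_lit 57372) (nat_lit 2) (.e (nat_lit 90160) (nat_lit 11) .nil)))))) (.g (nat_lit 4) .nil .nil)))) (.nd (nat_lit 5) 
(.lf (nat_lit 140305) (.g (nat_lit 3431) (.e (nat_lit 24655) (nat_lit 13) (.e (nat_lit 393225) (nat_lit 9) (.e (nat_lit 335995) (nat_lit 1) (.e (nat_lit 57848) (nat_lit 252) (.e (nat_lit 57372) (nat_lit 2) (.e (nat_lit 90156) (nat_lit 11) .nil)))))) (.g (nat_lit 0) .nil .nil))) 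
(.lf (nat_lit 140337) (.g (nat_lit 3418) (.e (nat_lit 24655) (nat_lit 13) (.e (nat_lit 393229) (nat_lit 9) (.e (nat_lit 335986) (nat_lit 1) (.e (nat_lit 57854) (nat_lit 252) (.e (nat_lit 57371) (nat_lit 2) (.e (nat_lit 90160) (nat_lit 11) .nil)))))) (.g (nat_lit 0) .nil .nil))))) (.nd (nat_lit 4) (.nd (nat_lit 5) 
(.lf (nat_lit 140297) (.g (nat_lit 1747) (.e (nat_lit 24655) (nat_lit 13) (.e (nat_lit 393225) (nat_lit 9) (.e (nat_lit 335995) (nat_lit 1) (.e (nat_lit 57846) (nat_lit 252) .nil)))) .nil)) 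
(.lf (nat_lit 140329) (.g (nat_lit 3518) (.e (nat_lit 24655) (nat_lit 13) (.e (nat_lit 393229) (nat_lit 9) (.e (nat_lit 335986) (nat_lit 1) (.e (nat_lit 57847) (nat_lit 252) (.e (nat_lit 57373) (nat_lit 2) (.e (nat_lit 90158) (nat_lit 11) .nil)))))) (.g (nat_lit 0) .nil .nil)))) (.nd (nat_lit 5) 
(.lf (nat_lit 140313) (.g (nat_lit 968) (.e (nat_lit 24655) (nat_lit 13) (.e (nat_lit 393225) (nat_lit 9) (.e (nat_lit 335996) (nat_lit 1) (.e (nat_lit 57851) (nat_lit 252) .nil)))) .nil)) 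
(.lf (nat_lit 140345) (.g (nat_lit 2852) (.e (nat_lit 24655) (nat_lit 13) (.e (nat_lit 393229) (nat_lit 9) (.e (nat_lit 335988) (nat_lit 1) (.e (nat_lit 57853) (nat_lit 252) (.e (nat_lit 57371) (nat_lit 2) (.e (nat_lit 90158) (nat_lit 11) .nil)))))) (.g (nat_lit 4) .nil .nil)))))) (.nd (nat_lit 3) (.nd (nat_lit 4) (.nd (nat_lit 5) 
(.lf (nat_lit 140293) (.g (nat_lit 3013) (.e (nat_lit 24655) (nat_lit 13) (.e (nat_lit 393225) (nat_lit 9) (.e (nat_lit 335995) (nat_lit 1) (.e (nat_lit 57844) (nat_lit 252) (.e (nat_lit 57372) (nat_lit 2) (.e (nat_lit 90158) (nat_lit 11) .nil)))))) (.g (nat_lit 5) .nil .nil))) 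
(.lf (nat_lit 140325) (.g (nat_lit 3232) (.e (nat_lit 24655) (nat_lit 13) (.e (nat_lit 393229) (nat_lit 9) (.e (nat_lit 335985) (nat_lit 1) (.e (nat_lit 57849) (nat_lit 252) (.e (nat_lit 57375) (nat_lit 2) (.e (nat_lit 90158) (nat_lit 11) .nil)))))) (.g (nat_lit 0) .nil .nil)))) (.nd (nat_lit 5) 
(.lf (nat_lit 140309) (.g (nat_lit 2077) (.e (nat_lit 24655) (nat_lit 13) (.e (nat_lit 393225) (nat_lit 9) (.e (nat_lit 335995) (nat_lit 1) (.e (nat_lit 57848) (nat_lit 252) (.e (nat_lit 57375) (nat_lit 2) (.e (nat_lit 90156) (nat_lit 11) .nil)))))) (.g (nat_lit 4) .nil .nil))) 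
(.lf (nat_lit 140341) (.g (nat_lit 3142) (.e (nat_lit 24655) (nat_lit 13) (.e (nat_lit 393229) (nat_lit 9) (.e (nat_lit 335987) (nat_lit 1) (.e (nat_lit 57854) (nat_lit 252) (.e (nat_lit 57373) (nat_lit 2) (.e (nat_lit 90157) (nat_lit 11) .nil)))))) (.g (nat_lit 4) .nil .nil))))) (.nd (nat_lit 4) (.nd (nat_lit 5) 
(.lf (nat_lit 140301) (.g (nat_lit 2732) (.e (nat_lit 24655) (nat_lit 13) (.e (nat_lit 393225) (nat_lit 9) (.e (nat_lit 335995) (nat_lit 1) (.e (nat_lit 57846) (nat_lit 252) (.e (nat_lit 57372) (nat_lit 2) (.e (nat_lit 90160) (nat_lit 11) .nil)))))) (.g (nat_lit 4) .nil .nil))) 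
(.lf (nat_lit 140333) (.g (nat_lit 3749) (.e (nat_lit 24655) (nat_lit 13) (.e (nat_lit 393229) (nat_lit 9) (.e (nat_lit 335986) (nat_lit 1) (.e (nat_lit 57849) (nat_lit 252) (.e (nat_lit 57375) (nat_lit 2) (.e (nat_lit 90158) (nat_lit 11) .nil)))))) (.g (nat_lit 0) .nil .nil)))) (.nd (nat_lit 5) 
(.lf (nat_lit 140317) (.g (nat_lit 3295) (.e (nat_lit 24655) (nat_lit 13) (.e (nat_lit 393225) (nat_lit 9) (.e (nat_lit 335996) (nat_lit 1) (.e (nat_lit 57852) (nat_lit 252) (.e (nat_lit 57373) (nat_lit 2) (.e (nat_lit 90160) (nat_lit 11) .nil)))))) (.g (nat_lit 4) .nil .nil))) 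
(.lf (nat_lit 140349) (.g (nat_lit 2681) (.e (nat_lit 24655) (nat_lit 13) (.e (nat_lit 393229) (nat_lit 9) (.e (nat_lit 335993) (nat_lit 1) (.e (nat_lit 57847) (nat_lit 252) (.e (nat_lit 57370) (nat_lit 2) (.e (nat_lit 90158) (nat_lit 11) .nil)))))) (.g (nat_lit 5) .nil .nil))))))) (.nd (nat_lit 2) (.nd (nat_lit 3) (.nd (nat_lit 4) (.nd (nat_lit 5) 
(.lf (nat_lit 140291) (.g (nat_lit 4037) (.e (nat_lit 24655) (nat_lit 13) (.e (nat_lit 393225) (nat_lit 9) (.e (nat_lit 335995) (nat_lit 1) (.e (nat_lit 57844) (nat_lit 252) (.e (nat_lit 57371) (nat_lit 2) (.e (nat_lit 90157) (nat_lit 11) .nil)))))) (.g (nat_lit 6) .nil .nil))) 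
(.lf (nat_lit 140323) (.g (nat_lit 3556) (.e (nat_lit 24655) (nat_lit 13) (.e (nat_lit 393228) (nat_lit 9) (.e (nat_lit 335988) (nat_lit 1) (.e (nat_lit 57854) (nat_lit 252) (.e (nat_lit 57373) (nat_lit 2) (.e (nat_lit 90160) (nat_lit 11) .nil)))))) (.g (nat_lit 5) .nil .nil)))) (.nd (nat_lit 5) 
(.lf (nat_lit 140307) (.g (nat_lit 2898) (.e (nat_lit 24655) (nat_lit 13) (.e (nat_lit 393225) (nat_lit 9) (.e (nat_lit 335995) (nat_lit 1) (.e (nat_lit 57848) (nat_lit 252) (.e (nat_lit 57374) (nat_lit 2) (.e (nat_lit 90156) (nat_lit 11) .nil)))))) (.g (nat_lit 5) .nil .nil))) 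
(.lf (nat_lit 140339) (.g (nat_lit 3875) (.e (nat_lit 24655) (nat_lit 13) (.e (nat_lit 393229) (nat_lit 9) (.e (nat_lit 335986) (nat_lit 1) (.e (nat_lit 57854) (nat_lit 252) (.e (nat_lit 57373) (nat_lit 2) (.e (nat_lit 90158) (nat_lit 11) .nil)))))) (.g (nat_lit 0) .nil .nil))))) (.nd (nat_lit 4) (.nd (nat_lit 5) 
(.lf (nat_lit 140299) (.g (nat_lit 2621) (.e (nat_lit 24655) (nat_lit 13) (.e (nat_lit 393225) (nat_lit 9) (.e (nat_lit 335995) (nat_lit 1) (.e (nat_lit 57846) (nat_lit 252) (.e (nat_lit 57371) (nat_lit 2) .nil))))) .nil)) 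
(.lf (nat_lit 140331) (.g (nat_lit 3727) (.e (nat_lit 24655) (nat_lit 13) (.e (nat_lit 393229) (nat_lit 9) (.e (nat_lit 335986) (nat_lit 1) (.e (nat_lit 57849) (nat_lit 252) (.e (nat_lit 57372) (nat_lit 2) (.e (nat_lit 90158) (nat_lit 11) .nil)))))) (.g (nat_lit 0) .nil .nil)))) (.nd (nat_lit 5) 
(.lf (nat_lit 140315) (.g (nat_lit 3442) (.e (nat_lit 24655) (nat_lit 13) (.e (nat_lit 393225) (nat_lit 9) (.e (nat_lit 335996) (nat_lit 1) (.e (nat_lit 57851) (nat_lit 252) (.e (nat_lit 57371) (nat_lit 2) (.e (nat_lit 90157) (nat_lit 11) .nil)))))) (.g (nat_lit 0) .nil .nil))) 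
(.lf (nat_lit 140347) (.g (nat_lit 3577) (.e (nat_lit 24655) (nat_lit 13) (.e (nat_lit 393229) (nat_lit 9) (.e (nat_lit 335988) (nat_lit 1) (.e (nat_lit 57854) (nat_lit 252) (.e (nat_lit 57371) (nat_lit 2) (.e (nat_lit 90158) (nat_lit 11) .nil)))))) (.g (nat_lit 0) .nil .nil)))))) (.nd (nat_lit 3) (.nd (nat_lit 4) (.nd (nat_lit 5) 
(.lf (nat_lit 140295) (.g (nat_lit 3151) (.e (nat_lit 24655) (nat_lit 13) (.e (nat_lit 393225) (nat_lit 9) (.e (nat_lit 335995) (nat_lit 1) (.e (nat_lit 57844) (nat_lit 252) (.e (nat_lit 57375) (nat_lit 2) (.e (nat_lit 90158) (nat_lit 11) .nil)))))) (.g (nat_lit 5) .nil .nil))) 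
(.lf (nat_lit 140327) (.g (nat_lit 2252) (.e (nat_lit 24655) (nat_lit 13) (.e (nat_lit 393229) (nat_lit 9) (.e (nat_lit 335986) (nat_lit 1) (.e (nat_lit 57847) (nat_lit 252) (.e (nat_lit 57371) (nat_lit 2) (.e (nat_lit 90158) (nat_lit 11) .nil)))))) (.g (nat_lit 4) .nil .nil)))) (.nd (nat_lit 5) 
(.lf (nat_lit 140311) (.g (nat_lit 4433) (.e (nat_lit 24655) (nat_lit 13) (.e (nat_lit 393225) (nat_lit 9) (.e (nat_lit 335995) (nat_lit 1) (.e (nat_lit 57849) (nat_lit 252) (.e (nat_lit 57372) (nat_lit 2) (.e (nat_lit 90160) (nat_lit 11) .nil)))))) (.g (nat_lit 5) .nil .nil))) 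
(.lf (nat_lit 140343) (.g (nat_lit 3800) (.e (nat_lit 24655) (nat_lit 13) (.e (nat_lit 393229) (nat_lit 9) (.e (nat_lit 335988) (nat_lit 1) (.e (nat_lit 57852) (nat_lit 252) (.e (nat_lit 57373) (nat_lit 2) (.e (nat_lit 90158) (nat_lit 11) .nil)))))) (.g (nat_lit 0) .nil .nil))))) (.nd (nat_lit 4) (.nd (nat_lit 5) 
(.lf (nat_lit 140303) (.g (nat_lit 1353) (.e (nat_lit 24655) (nat_lit 13) (.e (nat_lit 393225) (nat_lit 9) (.e (nat_lit 335995) (nat_lit 1) (.e (nat_lit 57847) (nat_lit 252) .nil)))) .nil)) 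
(.lf (nat_lit 140335) (.g (nat_lit 3092) (.e (nat_lit 24655) (nat_lit 13) (.e (nat_lit 393229) (nat_lit 9) (.e (nat_lit 335986) (nat_lit 1) (.e (nat_lit 57854) (nat_lit 252) (.e (nat_lit 57370) (nat_lit 2) (.e (nat_lit 90158) (nat_lit 11) .nil)))))) (.g (nat_lit 0) .nil .nil)))) (.nd (nat_lit 5) 
(.lf (nat_lit 140319) (.g (nat_lit 3230) (.e (nat_lit 24655) (nat_lit 13) (.e (nat_lit 393227) (nat_lit 9) (.e (nat_lit 335998) (nat_lit 1) (.e (nat_lit 57849) (nat_lit 252) (.e (nat_lit 57372) (nat_lit 2) (.e (nat_lit 90158) (nat_lit 11) .nil)))))) (.g (nat_lit 0) .nil .nil))) 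
(.lf (nat_lit 140351) (.g (nat_lit 2121) (.e (nat_lit 24655) (nat_lit 13) (.e (nat_lit 393229) (nat_lit 9) (.e (nat_lit 335993) (nat_lit 1) (.e (nat_lit 57847) (nat_lit 252) (.e (nat_lit 57375) (nat_lit 2) (.e (nat_lit 90160) (nat_lit 11) .nil)))))) (.g (nat_lit 4) .nil .nil)))))))))

noncomputable def tv1863 : DT := (.nd (nat_lit 0) (.nd (nat_lit 1) (.nd (nat_lit 2) (.nd (nat_lit 3) (.nd (nat_lit 4) (.nd (nat_lit 5) 
(.lf (nat_lit 140352) (.g (nat_lit 2137) (.e (nat_lit 24655) (nat_lit 13) (.e (nat_lit 393229) (nat_lit 9) (.e (nat_lit 335993) (nat_lit 1) (.e (nat_lit 57852) (nat_lit 252) (.e (nat_lit 57371) (nat_lit 2) (.e (nat_lit 90158) (nat_lit 11) .nil)))))) (.g (nat_lit 4) .nil .nil))) 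
(.lf (nat_lit 140384) (.g (nat_lit 3933) (.e (nat_lit 24655) (nat_lit 13) (.e (nat_lit 393229) (nat_lit 9) (.e (nat_lit 335994) (nat_lit 1) (.e (nat_lit 57854) (nat_lit 252) (.e (nat_lit 57373) (nat_lit 2) (.e (nat_lit 90158) (nat_lit 11) .nil)))))) (.g (nat_lit 0) .nil .nil)))) (.nd (nat_lit 5) 
(.lf (nat_lit 140368) (.g (nat_lit 3078) (.e (nat_lit 24655) (nat_lit 13) (.e (nat_lit 393229) (nat_lit 9) (.e (nat_lit 335994) (nat_lit 1) (.e (nat_lit 57847) (nat_lit 252) (.e (nat_lit 57375) (nat_lit 2) (.e (nat_lit 90158) (nat_lit 11) .nil)))))) (.g (nat_lit 0) .nil .nil))) 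
(.lf (nat_lit 140400) (.g (nat_lit 3650) (.e (nat_lit 24655) (nat_lit 13) (.e (nat_lit 393229) (nat_lit 9) (.e (nat_lit 335995) (nat_lit 1) (.e (nat_lit 57847) (nat_lit 252) (.e (nat_lit 57375) (nat_lit 2) (.e (nat_lit 90158) (nat_lit 11) .nil)))))) (.g (nat_lit 0) .nil .nil))))) (.nd (nat_lit 4) (.nd (nat_lit 5) 
(.lf (nat_lit 140360) (.g (nat_lit 3439) (.e (nat_lit 24655) (nat_lit 13) (.e (nat_lit 393229) (nat_lit 9) (.e (nat_lit 335994) (nat_lit 1) (.e (nat_lit 57844) (nat_lit 252) (.e (nat_lit 57375) (nat_lit 2) (.e (nat_lit 90158) (nat_lit 11) .nil)))))) (.g (nat_lit 0) .nil .nil))) 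
(.lf (nat_lit 140392) (.g (nat_lit 3668) (.e (nat_lit 24655) (nat_lit 13) (.e (nat_lit 393229) (nat_lit 9) (.e (nat_lit 335995) (nat_lit 1) (.e (nat_lit 57846) (nat_lit 252) (.e (nat_lit 57372) (nat_lit 2) (.e (nat_lit 90158) (nat_lit 11) .nil)))))) (.g (nat_lit 0) .nil .nil)))) (.nd (nat_lit 5) 
(.lf (nat_lit 140376) (.g (nat_lit 3592) (.e (nat_lit 24655) (nat_lit 13) (.e (nat_lit 393229) (nat_lit 9) (.e (nat_lit 335994) (nat_lit 1) (.e (nat_lit 57849) (nat_lit 252) (.e (nat_lit 57375) (nat_lit 2) (.e (nat_lit 90158) (nat_lit 11) .nil)))))) (.g (nat_lit 0) .nil .nil))) 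
(.lf (nat_lit 140408) (.g (nat_lit 4181) (.e (nat_lit 24655) (nat_lit 13) (.e (nat_lit 393229) (nat_lit 9) (.e (nat_lit 335995) (nat_lit 1) (.e (nat_lit 57849) (nat_lit 252) (.e (nat_lit 57375) (nat_lit 2) (.e (nat_lit 90158) (nat_lit 11) .nil)))))) (.g (nat_lit 0) .nil .nil)))))) (.nd (nat_lit 3) (.nd (nat_lit 4) (.nd (nat_lit 5) 
(.lf (nat_lit 140356) (.g (nat_lit 2522) (.e (nat_lit 24655) (nat_lit 13) (.e (nat_lit 393229) (nat_lit 9) (.e (nat_lit 335994) (nat_lit 1) (.e (nat_lit 57844) (nat_lit 252) (.e (nat_lit 57371) (nat_lit 2) (.e (nat_lit 90156) (nat_lit 11) .nil)))))) (.g (nat_lit 5) .nil .nil))) 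
(.lf (nat_lit 140388) (.g (nat_lit 2474) (.e (nat_lit 24655) (nat_lit 13) (.e (nat_lit 393229) (nat_lit 9) (.e (nat_lit 335995) (nat_lit 1) (.e (nat_lit 57844) (nat_lit 252) (.e (nat_lit 57375) (nat_lit 2) (.e (nat_lit 90160) (nat_lit 11) .nil)))))) (.g (nat_lit 4) .nil .nil)))) (.nd (nat_lit 5) 
(.lf (nat_lit 140372) (.g (nat_lit 3205) (.e (nat_lit 24655) (nat_lit 13) (.e (nat_lit 393229) (nat_lit 9) (.e (nat_lit 335994) (nat_lit 1) (.e (nat_lit 57848) (nat_lit 252) (.e (nat_lit 57375) (nat_lit 2) (.e (nat_lit 90158) (nat_lit 11) .nil)))))) (.g (nat_lit 0) .nil .nil))) 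
(.lf (nat_lit 140404) (.g (nat_lit 2997) (.e (nat_lit 24655) (nat_lit 13) (.e (nat_lit 393229) (nat_lit 9) (.e (nat_lit 335995) (nat_lit 1) (.e (nat_lit 57848) (nat_lit 252) (.e (nat_lit 57373) (nat_lit 2) (.e (nat_lit 90158) (nat_lit 11) .nil)))))) (.g (nat_lit 5) .nil .nil))))) (.nd (nat_lit 4) (.nd (nat_lit 5) 
(.lf (nat_lit 140364) (.g (nat_lit 3369) (.e (nat_lit 24655) (nat_lit 13) (.e (nat_lit 393229) (nat_lit 9) (.e (nat_lit 335994) (nat_lit 1) (.e (nat_lit 57846) (nat_lit 252) (.e (nat_lit 57373) (nat_lit 2) (.e (nat_lit 90158) (nat_lit 11) .nil)))))) (.g (nat_lit 6) .nil .nil))) 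
(.lf (nat_lit 140396) (.g (nat_lit 2438) (.e (nat_lit 24655) (nat_lit 13) (.e (nat_lit 393229) (nat_lit 9) (.e (nat_lit 335995) (nat_lit 1) (.e (nat_lit 57847) (nat_lit 252) (.e (nat_lit 57371) (nat_lit 2) (.e (nat_lit 90158) (nat_lit 11) .nil)))))) (.g (nat_lit 4) .nil .nil)))) (.nd (nat_lit 5) 
(.lf (nat_lit 140380) (.g (nat_lit 3143) (.e (nat_lit 24655) (nat_lit 13) (.e (nat_lit 393229) (nat_lit 9) (.e (nat_lit 335994) (nat_lit 1) (.e (nat_lit 57853) (nat_lit 252) (.e (nat_lit 57370) (nat_lit 2) (.e (nat_lit 90158) (nat_lit 11) .nil)))))) (.g (nat_lit 0) .nil .nil))) 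
(.lf (nat_lit 140412) (.g (nat_lit 2478) (.e (nat_lit 24655) (nat_lit 13) (.e (nat_lit 393229) (nat_lit 9) (.e (nat_lit 335995) (nat_lit 1) (.e (nat_lit 57852) (nat_lit 252) .nil)))) .nil)))))) (.nd (nat_lit 2) (.nd (nat_lit 3) (.nd (nat_lit 4) (.nd (nat_lit 5) 
(.lf (nat_lit 140354) (.g (nat_lit 2582) (.e (nat_lit 24655) (nat_lit 13) (.e (nat_lit 393229) (nat_lit 9) (.e (nat_lit 335993) (nat_lit 1) (.e (nat_lit 57854) (nat_lit 252) (.e (nat_lit 57371) (nat_lit 2) (.e (nat_lit 90158) (nat_lit 11) .nil)))))) (.g (nat_lit 5) .nil .nil))) 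
(.lf (nat_lit 140386) (.g (nat_lit 2935) (.e (nat_lit 24655) (nat_lit 13) (.e (nat_lit 393229) (nat_lit 9) (.e (nat_lit 335995) (nat_lit 1) (.e (nat_lit 57825) (nat_lit 250) .nil)))) .nil))) (.nd (nat_lit 5) 
(.lf (nat_lit 140370) (.g (nat_lit 2763) (.e (nat_lit 24655) (nat_lit 13) (.e (nat_lit 393229) (nat_lit 9) (.e (nat_lit 335994) (nat_lit 1) (.e (nat_lit 57848) (nat_lit 252) (.e (nat_lit 57370) (nat_lit 2) (.e (nat_lit 90158) (nat_lit 11) .nil)))))) (.g (nat_lit 0) .nil .nil))) 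
(.lf (nat_lit 140402) (.g (nat_lit 2839) (.e (nat_lit 24655) (nat_lit 13) (.e (nat_lit 393229) (nat_lit 9) (.e (nat_lit 335995) (nat_lit 1) (.e (nat_lit 57848) (nat_lit 252) (.e (nat_lit 57372) (nat_lit 2) (.e (nat_lit 90156) (nat_lit 11) .nil)))))) (.g (nat_lit 6) .nil .nil))))) (.nd (nat_lit 4) (.nd (nat_lit 5) 
(.lf (nat_lit 140362) (.g (nat_lit 3118) (.e (nat_lit 24655) (nat_lit 13) (.e (nat_lit 393229) (nat_lit 9) (.e (nat_lit 335994) (nat_lit 1) (.e (nat_lit 57846) (nat_lit 252) (.e (nat_lit 57371) (nat_lit 2) (.e (nat_lit 90158) (nat_lit 11) .nil)))))) (.g (nat_lit 5) .nil .nil))) 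
(.lf (nat_lit 140394) (.g (nat_lit 2947) (.e (nat_lit 24655) (nat_lit 13) (.e (nat_lit 393229) (nat_lit 9) (.e (nat_lit 335995) (nat_lit 1) (.e (nat_lit 57846) (nat_lit 252) (.e (nat_lit 57375) (nat_lit 2) (.e (nat_lit 90158) (nat_lit 11) .nil)))))) (.g (nat_lit 5) .nil .nil)))) (.nd (nat_lit 5) 
(.lf (nat_lit 140378) (.g (nat_lit 2516) (.e (nat_lit 24655) (nat_lit 13) (.e (nat_lit 393229) (nat_lit 9) (.e (nat_lit 335994) (nat_lit 1) (.e (nat_lit 57852) (nat_lit 252) (.e (nat_lit 57370) (nat_lit 2) (.e (nat_lit 90158) (nat_lit 11) .nil)))))) (.g (nat_lit 5) .nil .nil))) 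
(.lf (nat_lit 140410) (.g (nat_lit 2613) (.e (nat_lit 24655) (nat_lit 13) (.e (nat_lit 393229) (nat_lit 9) (.e (nat_lit 335995) (nat_lit 1) (.e (nat_lit 57850) (nat_lit 252) .nil)))) .nil))))) (.nd (nat_lit 3) (.nd (nat_lit 4) (.nd (nat_lit 5) 
(.lf (nat_lit 140358) (.g (nat_lit 3858) (.e (nat_lit 24655) (nat_lit 13) (.e (nat_lit 393229) (nat_lit 9) (.e (nat_lit 335994) (nat_lit 1) (.e (nat_lit 57844) (nat_lit 252) (.e (nat_lit 57371) (nat_lit 2) (.e (nat_lit 90160) (nat_lit 11) .nil)))))) (.g (nat_lit 0) .nil .nil))) 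
(.lf (nat_lit 140390) (.g (nat_lit 3815) (.e (nat_lit 24655) (nat_lit 13) (.e (nat_lit 393229) (nat_lit 9) (.e (nat_lit 335995) (nat_lit 1) (.e (nat_lit 57846) (nat_lit 252) (.e (nat_lit 57370) (nat_lit 2) (.e (nat_lit 90158) (nat_lit 11) .nil)))))) (.g (nat_lit 0) .nil .nil)))) (.nd (nat_lit 5) 
(.lf (nat_lit 140374) (.g (nat_lit 3164) (.e (nat_lit 24655) (nat_lit 13) (.e (nat_lit 393229) (nat_lit 9) (.e (nat_lit 335994) (nat_lit 1) (.e (nat_lit 57849) (nat_lit 252) (.e (nat_lit 57370) (nat_lit 2) (.e (nat_lit 90158) (nat_lit 11) .nil)))))) (.g (nat_lit 0) .nil .nil))) 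
(.lf (nat_lit 140406) (.g (nat_lit 3656) (.e (nat_lit 24655) (nat_lit 13) (.e (nat_lit 393229) (nat_lit 9) (.e (nat_lit 335995) (nat_lit 1) (.e (nat_lit 57849) (nat_lit 252) (.e (nat_lit 57370) (nat_lit 2) (.e (nat_lit 90158) (nat_lit 11) .nil)))))) (.g (nat_lit 0) .nil .nil))))) (.nd (nat_lit 4) (.nd (nat_lit 5) 
(.lf (nat_lit 140366) (.g (nat_lit 3149) (.e (nat_lit 24655) (nat_lit 13) (.e (nat_lit 393229) (nat_lit 9) (.e (nat_lit 335994) (nat_lit 1) (.e (nat_lit 57847) (nat_lit 252) (.e (nat_lit 57372) (nat_lit 2) (.e (nat_lit 90158) (nat_lit 11) .nil)))))) (.g (nat_lit 0) .nil .nil))) 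
(.lf (nat_lit 140398) (.g (nat_lit 3795) (.e (nat_lit 24655) (nat_lit 13) (.e (nat_lit 393229) (nat_lit 9) (.e (nat_lit 335995) (nat_lit 1) (.e (nat_lit 57847) (nat_lit 252) (.e (nat_lit 57373) (nat_lit 2) (.e (nat_lit 90158) (nat_lit 11) .nil)))))) (.g (nat_lit 0) .nil .nil)))) (.nd (nat_lit 5) 
(.lf (nat_lit 140382) (.g (nat_lit 3231) (.e (nat_lit 24655) (nat_lit 13) (.e (nat_lit 393229) (nat_lit 9) (.e (nat_lit 335994) (nat_lit 1) (.e (nat_lit 57854) (nat_lit 252) (.e (nat_lit 57370) (nat_lit 2) (.e (nat_lit 90158) (nat_lit 11) .nil)))))) (.g (nat_lit 0) .nil .nil))) 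
(.lf (nat_lit 140414) (.g (nat_lit 3639) (.e (nat_lit 24655) (nat_lit 13) (.e (nat_lit 393229) (nat_lit 9) (.e (nat_lit 335995) (nat_lit 1) (.e (nat_lit 57853) (nat_lit 252) (.e (nat_lit 57371) (nat_lit 2) (.e (nat_lit 90158) (nat_lit 11) .nil)))))) (.g (nat_lit 5) .nil .nil)))))))) (.nd (nat_lit 1) (.nd (nat_lit 2) (.nd (nat_lit 3) (.nd (nat_lit 4) (.nd (nat_lit 5) 
(.lf (nat_lit 140353) (.g (nat_lit 2535) (.e (nat_lit 24655) (nat_lit 13) (.e (nat_lit 393229) (nat_lit 9) (.e (nat_lit 335993) (nat_lit 1) (.e (nat_lit 57854) (nat_lit 252) (.e (nat_lit 57370) (nat_lit 2) (.e (nat_lit 90158) (nat_lit 11) .nil)))))) (.g (nat_lit 5) .nil .nil))) 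
(.lf (nat_lit 140385) (.g (nat_lit 2948) (.e (nat_lit 24655) (nat_lit 13) (.e (nat_lit 393229) (nat_lit 9) (.e (nat_lit 335995) (nat_lit 1) (.e (nat_lit 57824) (nat_lit 250) .nil)))) .nil))) (.nd (nat_lit 5) 
(.lf (nat_lit 140369) (.g (nat_lit 3334) (.e (nat_lit 24655) (nat_lit 13) (.e (nat_lit 393229) (nat_lit 9) (.e (nat_lit 335994) (nat_lit 1) (.e (nat_lit 57847) (nat_lit 252) (.e (nat_lit 57375) (nat_lit 2) (.e (nat_lit 90160) (nat_lit 11) .nil)))))) (.g (nat_lit 0) .nil .nil))) 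
(.lf (nat_lit 140401) (.g (nat_lit 2211) (.e (nat_lit 24655) (nat_lit 13) (.e (nat_lit 393229) (nat_lit 9) (.e (nat_lit 335995) (nat_lit 1) (.e (nat_lit 57848) (nat_lit 252) (.e (nat_lit 57371) (nat_lit 2) (.e (nat_lit 90158) (nat_lit 11) .nil)))))) (.g (nat_lit 4) .nil .nil))))) (.nd (nat_lit 4) (.nd (nat_lit 5) 
(.lf (nat_lit 140361) (.g (nat_lit 3441) (.e (nat_lit 24655) (nat_lit 13) (.e (nat_lit 393229) (nat_lit 9) (.e (nat_lit 335994) (nat_lit 1) (.e (nat_lit 57846) (nat_lit 252) (.e (nat_lit 57370) (nat_lit 2) (.e (nat_lit 90158) (nat_lit 11) .nil)))))) (.g (nat_lit 0) .nil .nil))) 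
(.lf (nat_lit 140393) (.g (nat_lit 3804) (.e (nat_lit 24655) (nat_lit 13) (.e (nat_lit 393229) (nat_lit 9) (.e (nat_lit 335995) (nat_lit 1) (.e (nat_lit 57846) (nat_lit 252) (.e (nat_lit 57373) (nat_lit 2) (.e (nat_lit 90158) (nat_lit 11) .nil)))))) (.g (nat_lit 6) .nil .nil)))) (.nd (nat_lit 5) 
(.lf (nat_lit 140377) (.g (nat_lit 2788) (.e (nat_lit 24655) (nat_lit 13) (.e (nat_lit 393229) (nat_lit 9) (.e (nat_lit 335994) (nat_lit 1) (.e (nat_lit 57851) (nat_lit 252) (.e (nat_lit 57370) (nat_lit 2) (.e (nat_lit 90158) (nat_lit 11) .nil)))))) (.g (nat_lit 0) .nil .nil))) 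
(.lf (nat_lit 140409) (.g (nat_lit 2613) (.e (nat_lit 24655) (nat_lit 13) (.e (nat_lit 393229) (nat_lit 9) (.e (nat_lit 335995) (nat_lit 1) (.e (nat_lit 57849) (nat_lit 252) (.e (nat_lit 57375) (nat_lit 2) (.e (nat_lit 90160) (nat_lit 11) .nil)))))) (.g (nat_lit 4) .nil .nil)))))) (.nd (nat_lit 3) (.nd (nat_lit 4) (.nd (nat_lit 5) 
(.lf (nat_lit 140357) (.g (nat_lit 3719) (.e (nat_lit 24655) (nat_lit 13) (.e (nat_lit 393229) (nat_lit 9) (.e (nat_lit 335994) (nat_lit 1) (.e (nat_lit 57844) (nat_lit 252) (.e (nat_lit 57371) (nat_lit 2) (.e (nat_lit 90158) (nat_lit 11) .nil)))))) (.g (nat_lit 0) .nil .nil))) 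
(.lf (nat_lit 140389) (.g (nat_lit 2408) (.e (nat_lit 24655) (nat_lit 13) (.e (nat_lit 393229) (nat_lit 9) (.e (nat_lit 335995) (nat_lit 1) (.e (nat_lit 57845) (nat_lit 252) .nil)))) .nil))) (.nd (nat_lit 5) 
(.lf (nat_lit 140373) (.g (nat_lit 3457) (.e (nat_lit 24655) (nat_lit 13) (.e (nat_lit 393229) (nat_lit 9) (.e (nat_lit 335994) (nat_lit 1) (.e (nat_lit 57848) (nat_lit 252) (.e (nat_lit 57375) (nat_lit 2) (.e (nat_lit 90160) (nat_lit 11) .nil)))))) (.g (nat_lit 0) .nil .nil))) 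
(.lf (nat_lit 140405) (.g (nat_lit 2456) (.e (nat_lit 24655) (nat_lit 13) (.e (nat_lit 393229) (nat_lit 9) (.e (nat_lit 335995) (nat_lit 1) (.e (nat_lit 57848) (nat_lit 252) (.e (nat_lit 57374) (nat_lit 2) (.e (nat_lit 90156) (nat_lit 11) .nil)))))) (.g (nat_lit 4) .nil .nil))))) (.nd (nat_lit 4) (.nd (nat_lit 5) 
(.lf (nat_lit 140365) (.g (nat_lit 3159) (.e (nat_lit 24655) (nat_lit 13) (.e (nat_lit 393229) (nat_lit 9) (.e (nat_lit 335994) (nat_lit 1) (.e (nat_lit 57847) (nat_lit 252) (.e (nat_lit 57370) (nat_lit 2) (.e (nat_lit 90158) (nat_lit 11) .nil)))))) (.g (nat_lit 0) .nil .nil))) 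
(.lf (nat_lit 140397) (.g (nat_lit 3740) (.e (nat_lit 24655) (nat_lit 13) (.e (nat_lit 393229) (nat_lit 9) (.e (nat_lit 335995) (nat_lit 1) (.e (nat_lit 57847) (nat_lit 252) (.e (nat_lit 57372) (nat_lit 2) (.e (nat_lit 90158) (nat_lit 11) .nil)))))) (.g (nat_lit 0) .nil .nil)))) (.nd (nat_lit 5) 
(.lf (nat_lit 140381) (.g (nat_lit 3329) (.e (nat_lit 24655) (nat_lit 13) (.e (nat_lit 393229) (nat_lit 9) (.e (nat_lit 335994) (nat_lit 1) (.e (nat_lit 57853) (nat_lit 252) (.e (nat_lit 57371) (nat_lit 2) (.e (nat_lit 90158) (nat_lit 11) .nil)))))) (.g (nat_lit 0) .nil .nil))) 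
(.lf (nat_lit 140413) (.g (nat_lit 3447) (.e (nat_lit 24655) (nat_lit 13) (.e (nat_lit 393229) (nat_lit 9) (.e (nat_lit 335995) (nat_lit 1) (.e (nat_lit 57853) (nat_lit 252) (.e (nat_lit 57370) (nat_lit 2) (.e (nat_lit 90158) (nat_lit 11) .nil)))))) (.g (nat_lit 5) .nil .nil))))))) (.nd (nat_lit 2) (.nd (nat_lit 3) (.nd (nat_lit 4) (.nd (nat_lit 5) 
(.lf (nat_lit 140355) (.g (nat_lit 3120) (.e (nat_lit 24655) (nat_lit 13) (.e (nat_lit 393229) (nat_lit 9) (.e (nat_lit 335994) (nat_lit 1) (.e (nat_lit 57844) (nat_lit 252) (.e (nat_lit 57370) (nat_lit 2) (.e (nat_lit 90158) (nat_lit 11) .nil)))))) (.g (nat_lit 0) .nil .nil))) 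
(.lf (nat_lit 140387) (.g (nat_lit 2280) (.e (nat_lit 24655) (nat_lit 13) (.e (nat_lit 393229) (nat_lit 9) (.e (nat_lit 335995) (nat_lit 1) (.e (nat_lit 57844) (nat_lit 252) (.e (nat_lit 57371) (nat_lit 2) (.e (nat_lit 90160) (nat_lit 11) .nil)))))) (.g (nat_lit 4) .nil .nil)))) (.nd (nat_lit 5) 
(.lf (nat_lit 140371) (.g (nat_lit 3118) (.e (nat_lit 24655) (nat_lit 13) (.e (nat_lit 393229) (nat_lit 9) (.e (nat_lit 335994) (nat_lit 1) (.e (nat_lit 57848) (nat_lit 252) (.e (nat_lit 57372) (nat_lit 2) (.e (nat_lit 90158) (nat_lit 11) .nil)))))) (.g (nat_lit 0) .nil .nil))) 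
(.lf (nat_lit 140403) (.g (nat_lit 3203) (.e (nat_lit 24655) (nat_lit 13) (.e (nat_lit 393229) (nat_lit 9) (.e (nat_lit 335995) (nat_lit 1) (.e (nat_lit 57848) (nat_lit 252) (.e (nat_lit 57372) (nat_lit 2) (.e (nat_lit 90158) (nat_lit 11) .nil)))))) (.g (nat_lit 0) .nil .nil))))) (.nd (nat_lit 4) (.nd (nat_lit 5) 
(.lf (nat_lit 140363) (.g (nat_lit 3291) (.e (nat_lit 24655) (nat_lit 13) (.e (nat_lit 393229) (nat_lit 9) (.e (nat_lit 335994) (nat_lit 1) (.e (nat_lit 57846) (nat_lit 252) (.e (nat_lit 57372) (nat_lit 2) (.e (nat_lit 90158) (nat_lit 11) .nil)))))) (.g (nat_lit 0) .nil .nil))) 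
(.lf (nat_lit 140395) (.g (nat_lit 3632) (.e (nat_lit 24655) (nat_lit 13) (.e (nat_lit 393229) (nat_lit 9) (.e (nat_lit 335995) (nat_lit 1) (.e (nat_lit 57847) (nat_lit 252) (.e (nat_lit 57370) (nat_lit 2) (.e (nat_lit 90158) (nat_lit 11) .nil)))))) (.g (nat_lit 0) .nil .nil)))) (.nd (nat_lit 5) 
(.lf (nat_lit 140379) (.g (nat_lit 2736) (.e (nat_lit 24655) (nat_lit 13) (.e (nat_lit 393229) (nat_lit 9) (.e (nat_lit 335994) (nat_lit 1) (.e (nat_lit 57852) (nat_lit 252) (.e (nat_lit 57371) (nat_lit 2) (.e (nat_lit 90158) (nat_lit 11) .nil)))))) (.g (nat_lit 5) .nil .nil))) 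
(.lf (nat_lit 140411) (.g (nat_lit 2383) (.e (nat_lit 24655) (nat_lit 13) (.e (nat_lit 393229) (nat_lit 9) (.e (nat_lit 335995) (nat_lit 1) (.e (nat_lit 57851) (nat_lit 252) .nil)))) .nil))))) (.nd (nat_lit 3) (.nd (nat_lit 4) (.nd (nat_lit 5) 
(.lf (nat_lit 140359) (.g (nat_lit 3473) (.e (nat_lit 24655) (nat_lit 13) (.e (nat_lit 393229) (nat_lit 9) (.e (nat_lit 335994) (nat_lit 1) (.e (nat_lit 57844) (nat_lit 252) (.e (nat_lit 57372) (nat_lit 2) (.e (nat_lit 90158) (nat_lit 11) .nil)))))) (.g (nat_lit 0) .nil .nil))) 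
(.lf (nat_lit 140391) (.g (nat_lit 3518) (.e (nat_lit 24655) (nat_lit 13) (.e (nat_lit 393229) (nat_lit 9) (.e (nat_lit 335995) (nat_lit 1) (.e (nat_lit 57846) (nat_lit 252) (.e (nat_lit 57371) (nat_lit 2) (.e (nat_lit 90158) (nat_lit 11) .nil)))))) (.g (nat_lit 5) .nil .nil)))) (.nd (nat_lit 5) 
(.lf (nat_lit 140375) (.g (nat_lit 3593) (.e (nat_lit 24655) (nat_lit 13) (.e (nat_lit 393229) (nat_lit 9) (.e (nat_lit 335994) (nat_lit 1) (.e (nat_lit 57849) (nat_lit 252) (.e (nat_lit 57372) (nat_lit 2) (.e (nat_lit 90158) (nat_lit 11) .nil)))))) (.g (nat_lit 0) .nil .nil))) 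
(.lf (nat_lit 140407) (.g (nat_lit 4160) (.e (nat_lit 24655) (nat_lit 13) (.e (nat_lit 393229) (nat_lit 9) (.e (nat_lit 335995) (nat_lit 1) (.e (nat_lit 57849) (nat_lit 252) (.e (nat_lit 57372) (nat_lit 2) (.e (nat_lit 90158) (nat_lit 11) .nil)))))) (.g (nat_lit 0) .nil .nil))))) (.nd (nat_lit 4) (.nd (nat_lit 5) 
(.lf (nat_lit 140367) (.g (nat_lit 3296) (.e (nat_lit 24655) (nat_lit 13) (.e (nat_lit 393229) (nat_lit 9) (.e (nat_lit 335994) (nat_lit 1) (.e (nat_lit 57847) (nat_lit 252) (.e (nat_lit 57373) (nat_lit 2) (.e (nat_lit 90158) (nat_lit 11) .nil)))))) (.g (nat_lit 0) .nil .nil))) 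
(.lf (nat_lit 140399) (.g (nat_lit 2562) (.e (nat_lit 24655) (nat_lit 13) (.e (nat_lit 393229) (nat_lit 9) (.e (nat_lit 335995) (nat_lit 1) (.e (nat_lit 57847) (nat_lit 252) (.e (nat_lit 57373) (nat_lit 2) (.e (nat_lit 90160) (nat_lit 11) .nil)))))) (.g (nat_lit 4) .nil .nil)))) (.nd (nat_lit 5) 
(.lf (nat_lit 140383) (.g (nat_lit 3360) (.e (nat_lit 24655) (nat_lit 13) (.e (nat_lit 393229) (nat_lit 9) (.e (nat_lit 335994) (nat_lit 1) (.e (nat_lit 57854) (nat_lit 252) (.e (nat_lit 57371) (nat_lit 2) (.e (nat_lit 90158) (nat_lit 11) .nil)))))) (.g (nat_lit 0) .nil .nil))) 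
(.lf (nat_lit 140415) (.g (nat_lit 3419) (.e (nat_lit 24655) (nat_lit 13) (.e (nat_lit 393229) (nat_lit 9) (.e (nat_lit 335996) (nat_lit 1) (.e (nat_lit 57851) (nat_lit 252) (.e (nat_lit 57370) (nat_lit 2) (.e (nat_lit 90158) (nat_lit 11) .nil)))))) (.g (nat_lit 0) .nil .nil)))))))))

noncomputable def tv1864 : DT := (.nd (nat_lit 0) (.nd (nat_lit 1) (.nd (nat_lit 2) (.nd (nat_lit 3) (.nd (nat_lit 4) (.nd (nat_lit 5) 
(.lf (nat_lit 140416) (.g (nat_lit 3091) (.e (nat_lit 24655) (nat_lit 13) (.e (nat_lit 393229) (nat_lit 9) (.e (nat_lit 335996) (nat_lit 1) (.e (nat_lit 57851) (nat_lit 252) (.e (nat_lit 57371) (nat_lit 2) (.e (nat_lit 90156) (nat_lit 11) .nil)))))) (.g (nat_lit 5) .nil .nil))) 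
(.lf (nat_lit 140448) (.g (nat_lit 709) (.e (nat_lit 24655) (nat_lit 13) (.e (nat_lit 393300) (nat_lit 27) (.e (nat_lit 491554) (nat_lit 9) .nil))) .nil))) (.nd (nat_lit 5) 
(.lf (nat_lit 140432) (.g (nat_lit 1092) (.e (nat_lit 24655) (nat_lit 13) (.e (nat_lit 393234) (nat_lit 17) (.e (nat_lit 7587) (nat_lit 406) (.e (nat_lit 65580) (nat_lit 6) .nil)))) .nil)) 
(.lf (nat_lit 140464) (.g (nat_lit 1366) (.e (nat_lit 24656) (nat_lit 13) (.e (nat_lit 393225) (nat_lit 9) (.e (nat_lit 335986) (nat_lit 1) (.e (nat_lit 57847) (nat_lit 252) .nil)))) .nil)))) (.nd (nat_lit 4) (.nd (nat_lit 5) 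
(.lf (nat_lit 140424) (.g (nat_lit 3980) (.e (nat_lit 24655) (nat_lit 13) (.e (nat_lit 393229) (nat_lit 9) (.e (nat_lit 335996) (nat_lit 1) (.e (nat_lit 57853) (nat_lit 252) (.e (nat_lit 57371) (nat_lit 2) (.e (nat_lit 90158) (nat_lit 11) .nil)))))) (.g (nat_lit 0) .nil .nil))) 
(.lf (nat_lit 140456) (.g (nat_lit 1886) (.e (nat_lit 24655) (nat_lit 13) (.e (nat_lit 393301) (nat_lit 27) (.e (nat_lit 491546) (nat_lit 9) (.e (nat_lit 336048) (nat_lit 6) .nil)))) .nil))) (.nd (nat_lit 5) 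
(.lf (nat_lit 140440) (.g (nat_lit 735) (.e (nat_lit 24655) (nat_lit 13) (.e (nat_lit 393299) (nat_lit 27) (.e (nat_lit 491554) (nat_lit 9) .nil))) .nil)) 
(.lf (nat_lit 140472) (.g (nat_lit 2373) (.e (nat_lit 24656) (nat_lit 13) (.e (nat_lit 393225) (nat_lit 9) (.e (nat_lit 335996) (nat_lit 1) (.e (nat_lit 57854) (nat_lit 252) (.e (nat_lit 57371) (nat_lit 2) .nil))))) .nil))))) (.nd (nat_lit 3) (.nd (nat_lit 4) (.nd (nat_lit 5) 
(.lf (nat_lit 140420) (.g (nat_lit 3879) (.e (nat_lit 24655) (nat_lit 13) (.e (nat_lit 393229) (nat_lit 9) (.e (nat_lit 335996) (nat_lit 1) (.e (nat_lit 57852) (nat_lit 252) (.e (nat_lit 57370) (nat_lit 2) (.e (nat_lit 90158) (nat_lit 11) .nil)))))) (.g (nat_lit 0) .nil .nil))) 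
(.lf (nat_lit 140452) (.g (nat_lit 1361) (.e (nat_lit 24655) (nat_lit 13) (.e (nat_lit 393300) (nat_lit 27) (.e (nat_lit 491558) (nat_lit 10) (.e (nat_lit 344180) (nat_lit 44) .nil)))) .nil))) (.nd (nat_lit 5) 
(.lf (nat_lit 140436) (.g (nat_lit 1519) (.e (nat_lit 24655) (nat_lit 13) (.e (nat_lit 393298) (nat_lit 27) (.e (nat_lit 491552) (nat_lit 9) (.e (nat_lit 336046) (nat_lit 6) .nil)))) .nil)) 
(.lf (nat_lit 140468) (.g (nat_lit 2937) (.e (nat_lit 24656) (nat_lit 13) (.e (nat_lit 393225) (nat_lit 9) (.e (nat_lit 335995) (nat_lit 1) (.e (nat_lit 57848) (nat_lit 252) (.e (nat_lit 57372) (nat_lit 2) (.e (nat_lit 90159) (nat_lit 11) .nil)))))) (.g (nat_lit 0) .nil .nil))))) (.nd (nat_lit 4) (.nd (nat_lit 5) 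
(.lf (nat_lit 140428) (.g (nat_lit 2961) (.e (nat_lit 24655) (nat_lit 13) (.e (nat_lit 393229) (nat_lit 9) (.e (nat_lit 335996) (nat_lit 1) (.e (nat_lit 57854) (nat_lit 252) (.e (nat_lit 57373) (nat_lit 2) (.e (nat_lit 90157) (nat_lit 11) .nil)))))) (.g (nat_lit 4) .nil .nil))) 
(.lf (nat_lit 140460) (.g (nat_lit 2755) (.e (nat_lit 24655) (nat_lit 13) (.e (nat_lit 393301) (nat_lit 27) (.e (nat_lit 491559) (nat_lit 10) (.e (nat_lit 344179) (nat_lit 44) .nil)))) .nil))) (.nd (nat_lit 5) 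
(.lf (nat_lit 140444) (.g (nat_lit 1473) (.e (nat_lit 24655) (nat_lit 13) (.e (nat_lit 393299) (nat_lit 27) (.e (nat_lit 491558) (nat_lit 10) (.e (nat_lit 344180) (nat_lit 44) .nil)))) .nil)) 
(.lf (nat_lit 140476) (.g (nat_lit 3175) (.e (nat_lit 24656) (nat_lit 13) (.e (nat_lit 393229) (nat_lit 9) (.e (nat_lit 335986) (nat_lit 1) (.e (nat_lit 57847) (nat_lit 252) (.e (nat_lit 57372) (nat_lit 2) (.e (nat_lit 90160) (nat_lit 11) .nil)))))) (.g (nat_lit 0) .nil .nil))))))) (.nd (nat_lit 2) (.nd (nat_lit 3) (.nd (nat_lit 4) (.nd (nat_lit 5) 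
(.lf (nat_lit 140418) (.g (nat_lit 3964) (.e (nat_lit 24655) (nat_lit 13) (.e (nat_lit 393229) (nat_lit 9) (.e (nat_lit 335996) (nat_lit 1) (.e (nat_lit 57851) (nat_lit 252) (.e (nat_lit 57371) (nat_lit 2) (.e (nat_lit 90158) (nat_lit 11) .nil)))))) (.g (nat_lit 0) .nil .nil))) 
(.lf (nat_lit 140450) (.g (nat_lit 3725) (.e (nat_lit 24655) (nat_lit 13) (.e (nat_lit 393300) (nat_lit 27) (.e (nat_lit 491556) (nat_lit 9) (.e (nat_lit 336051) (nat_lit 6) (.e (nat_lit 147495) (nat_lit 11) .nil))))) (.g (nat_lit 5) .nil .nil)))) (.nd (nat_lit 5) 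
(.lf (nat_lit 140434) (.g (nat_lit 638) (.e (nat_lit 24655) (nat_lit 13) (.e (nat_lit 393249) (nat_lit 17) (.e (nat_lit 7515) (nat_lit 402) (.e (nat_lit 1512) (nat_lit 108) .nil)))) .nil)) 
(.lf (nat_lit 140466) (.g (nat_lit 2070) (.e (nat_lit 24656) (nat_lit 13) (.e (nat_lit 393225) (nat_lit 9) (.e (nat_lit 335988) (nat_lit 1) (.e (nat_lit 57854) (nat_lit 252) (.e (nat_lit 57373) (nat_lit 2) .nil))))) .nil)))) (.nd (nat_lit 4) (.nd (nat_lit 5) 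
(.lf (nat_lit 140426) (.g (nat_lit 3754) (.e (nat_lit 24655) (nat_lit 13) (.e (nat_lit 393229) (nat_lit 9) (.e (nat_lit 335996) (nat_lit 1) (.e (nat_lit 57854) (nat_lit 252) (.e (nat_lit 57370) (nat_lit 2) (.e (nat_lit 90158) (nat_lit 11) .nil)))))) (.g (nat_lit 0) .nil .nil))) 
(.lf (nat_lit 140458) (.g (nat_lit 2079) (.e (nat_lit 24655) (nat_lit 13) (.e (nat_lit 393301) (nat_lit 27) (.e (nat_lit 491558) (nat_lit 10) (.e (nat_lit 344180) (nat_lit 44) .nil)))) .nil))) (.nd (nat_lit 5) 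
(.lf (nat_lit 140442) (.g (nat_lit 3562) (.e (nat_lit 24655) (nat_lit 13) (.e (nat_lit 393299) (nat_lit 27) (.e (nat_lit 491556) (nat_lit 9) (.e (nat_lit 336051) (nat_lit 6) (.e (nat_lit 147496) (nat_lit 11) .nil))))) (.g (nat_lit 0) .nil .nil))) 
(.lf (nat_lit 140474) (.g (nat_lit 1863) (.e (nat_lit 24656) (nat_lit 13) (.e (nat_lit 393229) (nat_lit 9) (.e (nat_lit 335985) (nat_lit 1) (.e (nat_lit 57849) (nat_lit 252) (.e (nat_lit 57375) (nat_lit 2) (.e (nat_lit 90158) (nat_lit 11) .nil)))))) (.g (nat_lit 4) .nil .nil)))))) (.nd (nat_lit 3) (.nd (nat_lit 4) (.nd (nat_lit 5) 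
(.lf (nat_lit 140422) (.g (nat_lit 4236) (.e (nat_lit 24655) (nat_lit 13) (.e (nat_lit 393229) (nat_lit 9) (.e (nat_lit 335996) (nat_lit 1) (.e (nat_lit 57852) (nat_lit 252) (.e (nat_lit 57373) (nat_lit 2) (.e (nat_lit 90158) (nat_lit 11) .nil)))))) (.g (nat_lit 0) .nil .nil))) 
(.lf (nat_lit 140454) (.g (nat_lit 2761) (.e (nat_lit 24655) (nat_lit 13) (.e (nat_lit 393300) (nat_lit 27) (.e (nat_lit 491560) (nat_lit 10) (.e (nat_lit 344179) (nat_lit 44) (.e (nat_lit 778464) (nat_lit 11) .nil))))) (.g (nat_lit 5) .nil .nil)))) (.nd (nat_lit 5) 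
(.lf (nat_lit 140438) (.g (nat_lit 2769) (.e (nat_lit 24655) (nat_lit 13) (.e (nat_lit 393299) (nat_lit 27) (.e (nat_lit 491546) (nat_lit 9) (.e (nat_lit 336048) (nat_lit 6) (.e (nat_lit 147493) (nat_lit 11) .nil))))) (.g (nat_lit 4) .nil .nil))) 
(.lf (nat_lit 140470) (.g (nat_lit 1861) (.e (nat_lit 24656) (nat_lit 13) (.e (nat_lit 393225) (nat_lit 9) (.e (nat_lit 335996) (nat_lit 1) (.e (nat_lit 57852) (nat_lit 252) .nil)))) .nil)))) (.nd (nat_lit 4) (.nd (nat_lit 5) 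
(.lf (nat_lit 140430) (.g (nat_lit 2231) (.e (nat_lit 24655) (nat_lit 13) (.e (nat_lit 393233) (nat_lit 17) (.e (nat_lit 7587) (nat_lit 406) (.e (nat_lit 65580) (nat_lit 6) (.e (nat_lit 147492) (nat_lit 11) .nil))))) (.g (nat_lit 4) .nil .nil))) 
(.lf (nat_lit 140462) (.g (nat_lit 3332) (.e (nat_lit 24655) (nat_lit 13) (.e (nat_lit 393301) (nat_lit 27) (.e (nat_lit 491560) (nat_lit 10) (.e (nat_lit 344179) (nat_lit 44) (.e (nat_lit 778464) (nat_lit 11) .nil))))) (.g (nat_lit 5) .nil .nil)))) (.nd (nat_lit 5) 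
(.lf (nat_lit 140446) (.g (nat_lit 3184) (.e (nat_lit 24655) (nat_lit 13) (.e (nat_lit 393299) (nat_lit 27) (.e (nat_lit 491560) (nat_lit 10) (.e (nat_lit 344179) (nat_lit 44) (.e (nat_lit 778464) (nat_lit 11) .nil))))) (.g (nat_lit 5) .nil .nil))) 
(.lf (nat_lit 140478) (.g (nat_lit 2338) (.e (nat_lit 24656) (nat_lit 13) (.e (nat_lit 393229) (nat_lit 9) (.e (nat_lit 335986) (nat_lit 1) (.e (nat_lit 57853) (nat_lit 252) (.e (nat_lit 57370) (nat_lit 2) .nil))))) .nil))))))) (.nd (nat_lit 1) (.nd (nat_lit 2) (.nd (nat_lit 3) (.nd (nat_lit 4) (.nd (nat_lit 5) 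
(.lf (nat_lit 140417) (.g (nat_lit 2834) (.e (nat_lit 24655) (nat_lit 13) (.e (nat_lit 393229) (nat_lit 9) (.e (nat_lit 335996) (nat_lit 1) (.e (nat_lit 57851) (nat_lit 252) (.e (nat_lit 57371) (nat_lit 2) (.e (nat_lit 90157) (nat_lit 11) .nil)))))) (.g (nat_lit 4) .nil .nil))) 
(.lf (nat_lit 140449) (.g (nat_lit 1506) (.e (nat_lit 24655) (nat_lit 13) (.e (nat_lit 393300) (nat_lit 27) (.e (nat_lit 491556) (nat_lit 9) (.e (nat_lit 336051) (nat_lit 6) .nil)))) .nil))) (.nd (nat_lit 5) 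
(.lf (nat_lit 140433) (.g (nat_lit 1181) (.e (nat_lit 24655) (nat_lit 13) (.e (nat_lit 393234) (nat_lit 17) (.e (nat_lit 7589) (nat_lit 406) (.e (nat_lit 65578) (nat_lit 6) .nil)))) .nil)) 
(.lf (nat_lit 140465) (.g (nat_lit 1522) (.e (nat_lit 24656) (nat_lit 13) (.e (nat_lit 393225) (nat_lit 9) (.e (nat_lit 335988) (nat_lit 1) (.e (nat_lit 57854) (nat_lit 252) .nil)))) .nil)))) (.nd (nat_lit 4) (.nd (nat_lit 5) 
(.lf (nat_lit 140425) (.g (nat_lit 2418) (.e (nat_lit 24655) (nat_lit 13) (.e (nat_lit 393229) (nat_lit 9) (.e (nat_lit 335996) (nat_lit 1) (.e (nat_lit 57853) (nat_lit 252) (.e (nat_lit 57371) (nat_lit 2) (.e (nat_lit 90160) (nat_lit 11) .nil)))))) (.g (nat_lit 4) .nil .nil))) 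
(.lf (nat_lit 140457) (.g (nat_lit 459) (.e (nat_lit 24655) (nat_lit 13) (.e (nat_lit 393301) (nat_lit 27) (.e (nat_lit 491552) (nat_lit 9) .nil))) .nil))) (.nd (nat_lit 5) 
(.lf (nat_lit 140441) (.g (nat_lit 3482) (.e (nat_lit 24655) (nat_lit 13) (.e (nat_lit 393299) (nat_lit 27) (.e (nat_lit 491556) (nat_lit 9) (.e (nat_lit 336051) (nat_lit 6) (.e (nat_lit 147495) (nat_lit 11) .nil))))) (.g (nat_lit 5) .nil .nil))) 
(.lf (nat_lit 140473) (.g (nat_lit 2477) (.e (nat_lit 24656) (nat_lit 13) (.e (nat_lit 393225) (nat_lit 9) (.e (nat_lit 335996) (nat_lit 1) (.e (nat_lit 57854) (nat_lit 252) (.e (nat_lit 57373) (nat_lit 2) .nil))))) .nil))))) (.nd (nat_lit 3) (.nd (nat_lit 4) (.nd (nat_lit 5) 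
(.lf (nat_lit 140421) (.g (nat_lit 4037) (.e (nat_lit 24655) (nat_lit 13) (.e (nat_lit 393229) (nat_lit 9) (.e (nat_lit 335996) (nat_lit 1) (.e (nat_lit 57852) (nat_lit 252) (.e (nat_lit 57371) (nat_lit 2) (.e (nat_lit 90158) (nat_lit 11) .nil)))))) (.g (nat_lit 0) .nil .nil))) 
(.lf (nat_lit 140453) (.g (nat_lit 2645) (.e (nat_lit 24655) (nat_lit 13) (.e (nat_lit 393300) (nat_lit 27) (.e (nat_lit 491560) (nat_lit 10) (.e (nat_lit 344179) (nat_lit 44) (.e (nat_lit 778463) (nat_lit 11) .nil))))) (.g (nat_lit 4) .nil .nil)))) (.nd (nat_lit 5) 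
(.lf (nat_lit 140437) (.g (nat_lit 874) (.e (nat_lit 24655) (nat_lit 13) (.e (nat_lit 393298) (nat_lit 27) (.e (nat_lit 491556) (nat_lit 9) .nil))) .nil)) 
(.lf (nat_lit 140469) (.g (nat_lit 2030) (.e (nat_lit 24656) (nat_lit 13) (.e (nat_lit 393225) (nat_lit 9) (.e (nat_lit 335996) (nat_lit 1) (.e (nat_lit 57851) (nat_lit 252) (.e (nat_lit 57371) (nat_lit 2) .nil))))) .nil)))) (.nd (nat_lit 4) (.nd (nat_lit 5) 
(.lf (nat_lit 140429) (.g (nat_lit 4546) (.e (nat_lit 24655) (nat_lit 13) (.e (nat_lit 393229) (nat_lit 9) (.e (nat_lit 335996) (nat_lit 1) (.e (nat_lit 57854) (nat_lit 252) (.e (nat_lit 57373) (nat_lit 2) (.e (nat_lit 90158) (nat_lit 11) .nil)))))) (.g (nat_lit 0) .nil .nil))) 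
(.lf (nat_lit 140461) (.g (nat_lit 2708) (.e (nat_lit 24655) (nat_lit 13) (.e (nat_lit 393301) (nat_lit 27) (.e (nat_lit 491560) (nat_lit 10) (.e (nat_lit 344179) (nat_lit 44) (.e (nat_lit 778463) (nat_lit 11) .nil))))) (.g (nat_lit 4) .nil .nil)))) (.nd (nat_lit 5) 
(.lf (nat_lit 140445) (.g (nat_lit 2792) (.e (nat_lit 24655) (nat_lit 13) (.e (nat_lit 393299) (nat_lit 27) (.e (nat_lit 491560) (nat_lit 10) (.e (nat_lit 344179) (nat_lit 44) (.e (nat_lit 778463) (nat_lit 11) .nil))))) (.g (nat_lit 4) .nil .nil))) 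
(.lf (nat_lit 140477) (.g (nat_lit 3331) (.e (nat_lit 24656) (nat_lit 13) (.e (nat_lit 393229) (nat_lit 9) (.e (nat_lit 335986) (nat_lit 1) (.e (nat_lit 57847) (nat_lit 252) (.e (nat_lit 57375) (nat_lit 2) (.e (nat_lit 90160) (nat_lit 11) .nil)))))) (.g (nat_lit 0) .nil .nil))))))) (.nd (nat_lit 2) (.nd (nat_lit 3) (.nd (nat_lit 4) (.nd (nat_lit 5) 
(.lf (nat_lit 140419) (.g (nat_lit 3361) (.e (nat_lit 24655) (nat_lit 13) (.e (nat_lit 393229) (nat_lit 9) (.e (nat_lit 335996) (nat_lit 1) (.e (nat_lit 57851) (nat_lit 252) (.e (nat_lit 57373) (nat_lit 2) (.e (nat_lit 90158) (nat_lit 11) .nil)))))) (.g (nat_lit 5) .nil .nil))) 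
(.lf (nat_lit 140451) (.g (nat_lit 3741) (.e (nat_lit 24655) (nat_lit 13) (.e (nat_lit 393300) (nat_lit 27) (.e (nat_lit 491556) (nat_lit 9) (.e (nat_lit 336051) (nat_lit 6) (.e (nat_lit 147496) (nat_lit 11) .nil))))) (.g (nat_lit 0) .nil .nil)))) (.nd (nat_lit 5) 
(.lf (nat_lit 140435) (.g (nat_lit 664) (.e (nat_lit 24655) (nat_lit 13) (.e (nat_lit 393296) (nat_lit 26) (.e (nat_lit 475208) (nat_lit 41) .nil))) .nil)) 
(.lf (nat_lit 140467) (.g (nat_lit 1700) (.e (nat_lit 24656) (nat_lit 13) (.e (nat_lit 393225) (nat_lit 9) (.e (nat_lit 335995) (nat_lit 1) (.e (nat_lit 57847) (nat_lit 252) .nil)))) .nil)))) (.nd (nat_lit 4) (.nd (nat_lit 5) 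
(.lf (nat_lit 140427) (.g (nat_lit 4043) (.e (nat_lit 24655) (nat_lit 13) (.e (nat_lit 393229) (nat_lit 9) (.e (nat_lit 335996) (nat_lit 1) (.e (nat_lit 57854) (nat_lit 252) (.e (nat_lit 57371) (nat_lit 2) (.e (nat_lit 90158) (nat_lit 11) .nil)))))) (.g (nat_lit 0) .nil .nil))) 
(.lf (nat_lit 140459) (.g (nat_lit 1696) (.e (nat_lit 24655) (nat_lit 13) (.e (nat_lit 393301) (nat_lit 27) (.e (nat_lit 491558) (nat_lit 10) (.e (nat_lit 352000) (nat_lit 44) .nil)))) .nil))) (.nd (nat_lit 5) 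
(.lf (nat_lit 140443) (.g (nat_lit 585) (.e (nat_lit 24655) (nat_lit 13) (.e (nat_lit 393299) (nat_lit 27) (.e (nat_lit 491558) (nat_lit 10) .nil))) .nil)) 
(.lf (nat_lit 140475) (.g (nat_lit 2801) (.e (nat_lit 24656) (nat_lit 13) (.e (nat_lit 393229) (nat_lit 9) (.e (nat_lit 335986) (nat_lit 1) (.e (nat_lit 57847) (nat_lit 252) (.e (nat_lit 57370) (nat_lit 2) (.e (nat_lit 90158) (nat_lit 11) .nil)))))) (.g (nat_lit 6) .nil .nil)))))) (.nd (nat_lit 3) (.nd (nat_lit 4) (.nd (nat_lit 5) 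
(.lf (nat_lit 140423) (.g (nat_lit 3733) (.e (nat_lit 24655) (nat_lit 13) (.e (nat_lit 393229) (nat_lit 9) (.e (nat_lit 335996) (nat_lit 1) (.e (nat_lit 57853) (nat_lit 252) (.e (nat_lit 57370) (nat_lit 2) (.e (nat_lit 90158) (nat_lit 11) .nil)))))) (.g (nat_lit 0) .nil .nil))) 
(.lf (nat_lit 140455) (.g (nat_lit 3286) (.e (nat_lit 24655) (nat_lit 13) (.e (nat_lit 393300) (nat_lit 27) (.e (nat_lit 491560) (nat_lit 10) (.e (nat_lit 344179) (nat_lit 44) (.e (nat_lit 778465) (nat_lit 11) .nil))))) (.g (nat_lit 0) .nil .nil)))) (.nd (nat_lit 5) 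
(.lf (nat_lit 140439) (.g (nat_lit 740) (.e (nat_lit 24655) (nat_lit 13) (.e (nat_lit 393299) (nat_lit 27) (.e (nat_lit 491552) (nat_lit 9) .nil))) .nil)) 
(.lf (nat_lit 140471) (.g (nat_lit 1696) (.e (nat_lit 24656) (nat_lit 13) (.e (nat_lit 393225) (nat_lit 9) (.e (nat_lit 335996) (nat_lit 1) (.e (nat_lit 57853) (nat_lit 252) .nil)))) .nil)))) (.nd (nat_lit 4) (.nd (nat_lit 5) 
(.lf (nat_lit 140431) (.g (nat_lit 1870) (.e (nat_lit 24655) (nat_lit 13) (.e (nat_lit 393233) (nat_lit 17) (.e (nat_lit 7593) (nat_lit 407) (.e (nat_lit 73775) (nat_lit 26) (.e (nat_lit 778463) (nat_lit 11) .nil))))) (.g (nat_lit 4) .nil .nil))) 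
(.lf (nat_lit 140463) (.g (nat_lit 2384) (.e (nat_lit 24655) (nat_lit 13) (.e (nat_lit 393301) (nat_lit 27) (.e (nat_lit 491560) (nat_lit 10) (.e (nat_lit 352000) (nat_lit 44) .nil)))) .nil))) (.nd (nat_lit 5) 
(.lf (nat_lit 140447) (.g (nat_lit 3610) (.e (nat_lit 24655) (nat_lit 13) (.e (nat_lit 393299) (nat_lit 27) (.e (nat_lit 491560) (nat_lit 10) (.e (nat_lit 344179) (nat_lit 44) (.e (nat_lit 778465) (nat_lit 11) .nil))))) (.g (nat_lit 0) .nil .nil))) 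
(.lf (nat_lit 140479) (.g (nat_lit 2723) (.e (nat_lit 24656) (nat_lit 13) (.e (nat_lit 393229) (nat_lit 9) (.e (nat_lit 335988) (nat_lit 1) (.e (nat_lit 57852) (nat_lit 252) (.e (nat_lit 57370) (nat_lit 2) (.e (nat_lit 90158) (nat_lit 11) .nil)))))) (.g (nat_lit 6) .nil .nil)))))))))

noncomputable def tv1865 : DT := (.nd (nat_lit 0) (.nd (nat_lit 1) (.nd (nat_lit 2) (.nd (nat_lit 3) (.nd (nat_lit 4) (.nd (nat_lit 5) 
(.lf (nat_lit 140480) (.g (nat_lit 3284) (.e (nat_lit 24656) (nat_lit 13) (.e (nat_lit 393229) (nat_lit 9) (.e (nat_lit 335988) (nat_lit 1) (.e (nat_lit 57852) (nat_lit 252) (.e (nat_lit 57373) (nat_lit 2) (.e (nat_lit 90158) (nat_lit 11) .nil)))))) (.g (nat_lit 0) .nil .nil))) 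
(.lf (nat_lit 140512) (.g (nat_lit 2733) (.e (nat_lit 24656) (nat_lit 13) (.e (nat_lit 393271) (nat_lit 23) (.e (nat_lit 426112) (nat_lit 1) (.e (nat_lit 164327) (nat_lit 230) (.e (nat_lit 163877) (nat_lit 4) .nil))))) .nil))) (.nd (nat_lit 5) 
(.lf (nat_lit 140496) (.g (nat_lit 3086) (.e (nat_lit 24656) (nat_lit 13) (.e (nat_lit 393229) (nat_lit 9) (.e (nat_lit 335995) (nat_lit 1) (.e (nat_lit 57849) (nat_lit 252) (.e (nat_lit 57370) (nat_lit 2) (.e (nat_lit 90158) (nat_lit 11) .nil)))))) (.g (nat_lit 6) .nil .nil))) 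
(.lf (nat_lit 140528) (.g (nat_lit 2291) (.e (nat_lit 24657) (nat_lit 13) (.e (nat_lit 393229) (nat_lit 9) (.e (nat_lit 335986) (nat_lit 1) (.e (nat_lit 57847) (nat_lit 252) (.e (nat_lit 57372) (nat_lit 2) (.e (nat_lit 90156) (nat_lit 11) .nil)))))) (.g (nat_lit 4) .nil .nil))))) (.nd (nat_lit 4) (.nd (nat_lit 5) 
(.lf (nat_lit 140488) (.g (nat_lit 3220) (.e (nat_lit 24656) (nat_lit 13) (.e (nat_lit 393229) (nat_lit 9) (.e (nat_lit 335995) (nat_lit 1) (.e (nat_lit 57846) (nat_lit 252) (.e (nat_lit 57370) (nat_lit 2) .nil))))) .nil)) 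
(.lf (nat_lit 140520) (.g (nat_lit 1882) (.e (nat_lit 24657) (nat_lit 13) (.e (nat_lit 393229) (nat_lit 9) (.e (nat_lit 335886) (nat_lit 0) (.e (nat_lit 1023) (nat_lit 81) .nil)))) .nil))) (.nd (nat_lit 5) 
(.lf (nat_lit 140504) (.g (nat_lit 3203) (.e (nat_lit 24656) (nat_lit 13) (.e (nat_lit 393229) (nat_lit 9) (.e (nat_lit 335996) (nat_lit 1) (.e (nat_lit 57852) (nat_lit 252) (.e (nat_lit 57370) (nat_lit 2) (.e (nat_lit 90158) (nat_lit 11) .nil)))))) (.g (nat_lit 6) .nil .nil))) 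
(.lf (nat_lit 140536) (.g (nat_lit 3917) (.e (nat_lit 24657) (nat_lit 13) (.e (nat_lit 393229) (nat_lit 9) (.e (nat_lit 335986) (nat_lit 1) (.e (nat_lit 57849) (nat_lit 252) (.e (nat_lit 57375) (nat_lit 2) (.e (nat_lit 90160) (nat_lit 11) .nil)))))) (.g (nat_lit 0) .nil .nil)))))) (.nd (nat_lit 3) (.nd (nat_lit 4) (.nd (nat_lit 5) 
(.lf (nat_lit 140484) (.g (nat_lit 2011) (.e (nat_lit 24656) (nat_lit 13) (.e (nat_lit 393229) (nat_lit 9) (.e (nat_lit 335993) (nat_lit 1) (.e (nat_lit 57849) (nat_lit 252) (.e (nat_lit 57375) (nat_lit 2) (.e (nat_lit 90158) (nat_lit 11) .nil)))))) (.g (nat_lit 4) .nil .nil))) 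
(.lf (nat_lit 140516) (.g (nat_lit 3008) (.e (nat_lit 24657) (nat_lit 13) (.e (nat_lit 393227) (nat_lit 9) (.e (nat_lit 335998) (nat_lit 1) (.e (nat_lit 57849) (nat_lit 252) (.e (nat_lit 57372) (nat_lit 2) (.e (nat_lit 90158) (nat_lit 11) .nil)))))) (.g (nat_lit 0) .nil .nil)))) (.nd (nat_lit 5) 
(.lf (nat_lit 140500) (.g (nat_lit 2810) (.e (nat_lit 24656) (nat_lit 13) (.e (nat_lit 393229) (nat_lit 9) (.e (nat_lit 335995) (nat_lit 1) (.e (nat_lit 57854) (nat_lit 252) (.e (nat_lit 57373) (nat_lit 2) .nil))))) .nil)) 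
(.lf (nat_lit 140532) (.g (nat_lit 3088) (.e (nat_lit 24657) (nat_lit 13) (.e (nat_lit 393229) (nat_lit 9) (.e (nat_lit 335986) (nat_lit 1) (.e (nat_lit 57847) (nat_lit 252) (.e (nat_lit 57373) (nat_lit 2) (.e (nat_lit 90160) (nat_lit 11) .nil)))))) (.g (nat_lit 5) .nil .nil))))) (.nd (nat_lit 4) (.nd (nat_lit 5) 
(.lf (nat_lit 140492) (.g (nat_lit 3047) (.e (nat_lit 24656) (nat_lit 13) (.e (nat_lit 393229) (nat_lit 9) (.e (nat_lit 335995) (nat_lit 1) (.e (nat_lit 57847) (nat_lit 252) (.e (nat_lit 57370) (nat_lit 2) (.e (nat_lit 90158) (nat_lit 11) .nil)))))) (.g (nat_lit 6) .nil .nil))) 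
(.lf (nat_lit 140524) (.g (nat_lit 1982) (.e (nat_lit 24657) (nat_lit 13) (.e (nat_lit 393229) (nat_lit 9) (.e (nat_lit 335986) (nat_lit 1) (.e (nat_lit 57846) (nat_lit 252) .nil)))) .nil))) (.nd (nat_lit 5) 
(.lf (nat_lit 140508) (.g (nat_lit 4055) (.e (nat_lit 24656) (nat_lit 13) (.e (nat_lit 393229) (nat_lit 9) (.e (nat_lit 335996) (nat_lit 1) (.e (nat_lit 57854) (nat_lit 252) (.e (nat_lit 57373) (nat_lit 2) (.e (nat_lit 90158) (nat_lit 11) .nil)))))) (.g (nat_lit 0) .nil .nil))) 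
(.lf (nat_lit 140540) (.g (nat_lit 3444) (.e (nat_lit 24657) (nat_lit 13) (.e (nat_lit 393229) (nat_lit 9) (.e (nat_lit 335986) (nat_lit 1) (.e (nat_lit 57853) (nat_lit 252) (.e (nat_lit 57371) (nat_lit 2) (.e (nat_lit 90160) (nat_lit 11) .nil)))))) (.g (nat_lit 4) .nil .nil))))))) (.nd (nat_lit 2) (.nd (nat_lit 3) (.nd (nat_lit 4) (.nd (nat_lit 5) 
(.lf (nat_lit 140482) (.g (nat_lit 3637) (.e (nat_lit 24656) (nat_lit 13) (.e (nat_lit 393229) (nat_lit 9) (.e (nat_lit 335988) (nat_lit 1) (.e (nat_lit 57854) (nat_lit 252) (.e (nat_lit 57373) (nat_lit 2) (.e (nat_lit 90158) (nat_lit 11) .nil)))))) (.g (nat_lit 0) .nil .nil))) 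
(.lf (nat_lit 140514) (.g (nat_lit 2569) (.e (nat_lit 24656) (nat_lit 13) (.e (nat_lit 393299) (nat_lit 27) (.e (nat_lit 491560) (nat_lit 10) (.e (nat_lit 344179) (nat_lit 44) (.e (nat_lit 778466) (nat_lit 11) .nil))))) (.g (nat_lit 0) .nil .nil)))) (.nd (nat_lit 5) 
(.lf (nat_lit 140498) (.g (nat_lit 2339) (.e (nat_lit 24656) (nat_lit 13) (.e (nat_lit 393229) (nat_lit 9) (.e (nat_lit 335995) (nat_lit 1) (.e (nat_lit 57853) (nat_lit 252) .nil)))) .nil)) 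
(.lf (nat_lit 140530) (.g (nat_lit 2704) (.e (nat_lit 24657) (nat_lit 13) (.e (nat_lit 393229) (nat_lit 9) (.e (nat_lit 335986) (nat_lit 1) (.e (nat_lit 57847) (nat_lit 252) (.e (nat_lit 57373) (nat_lit 2) (.e (nat_lit 90157) (nat_lit 11) .nil)))))) (.g (nat_lit 5) .nil .nil))))) (.nd (nat_lit 4) (.nd (nat_lit 5) 
(.lf (nat_lit 140490) (.g (nat_lit 3040) (.e (nat_lit 24656) (nat_lit 13) (.e (nat_lit 393229) (nat_lit 9) (.e (nat_lit 335995) (nat_lit 1) (.e (nat_lit 57846) (nat_lit 252) (.e (nat_lit 57372) (nat_lit 2) (.e (nat_lit 90158) (nat_lit 11) .nil)))))) (.g (nat_lit 4) .nil .nil))) 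
(.lf (nat_lit 140522) (.g (nat_lit 1512) (.e (nat_lit 24657) (nat_lit 13) (.e (nat_lit 393229) (nat_lit 9) (.e (nat_lit 335985) (nat_lit 1) (.e (nat_lit 57849) (nat_lit 252) .nil)))) .nil))) (.nd (nat_lit 5) 
(.lf (nat_lit 140506) (.g (nat_lit 3081) (.e (nat_lit 24656) (nat_lit 13) (.e (nat_lit 393229) (nat_lit 9) (.e (nat_lit 335996) (nat_lit 1) (.e (nat_lit 57853) (nat_lit 252) (.e (nat_lit 57370) (nat_lit 2) (.e (nat_lit 90158) (nat_lit 11) .nil)))))) (.g (nat_lit 6) .nil .nil))) 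
(.lf (nat_lit 140538) (.g (nat_lit 3287) (.e (nat_lit 24657) (nat_lit 13) (.e (nat_lit 393229) (nat_lit 9) (.e (nat_lit 335986) (nat_lit 1) (.e (nat_lit 57853) (nat_lit 252) (.e (nat_lit 57371) (nat_lit 2) (.e (nat_lit 90158) (nat_lit 11) .nil)))))) (.g (nat_lit 4) .nil .nil)))))) (.nd (nat_lit 3) (.nd (nat_lit 4) (.nd (nat_lit 5) 
(.lf (nat_lit 140486) (.g (nat_lit 3098) (.e (nat_lit 24656) (nat_lit 13) (.e (nat_lit 393229) (nat_lit 9) (.e (nat_lit 335995) (nat_lit 1) (.e (nat_lit 57844) (nat_lit 252) .nil)))) .nil)) 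
(.lf (nat_lit 140518) (.g (nat_lit 2966) (.e (nat_lit 24657) (nat_lit 13) (.e (nat_lit 393227) (nat_lit 9) (.e (nat_lit 335998) (nat_lit 1) (.e (nat_lit 57849) (nat_lit 252) (.e (nat_lit 57375) (nat_lit 2) (.e (nat_lit 90158) (nat_lit 11) .nil)))))) (.g (nat_lit 0) .nil .nil)))) (.nd (nat_lit 5) 
(.lf (nat_lit 140502) (.g (nat_lit 2803) (.e (nat_lit 24656) (nat_lit 13) (.e (nat_lit 393229) (nat_lit 9) (.e (nat_lit 335996) (nat_lit 1) (.e (nat_lit 57851) (nat_lit 252) (.e (nat_lit 57371) (nat_lit 2) (.e (nat_lit 90156) (nat_lit 11) .nil)))))) (.g (nat_lit 5) .nil .nil))) 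
(.lf (nat_lit 140534) (.g (nat_lit 3479) (.e (nat_lit 24657) (nat_lit 13) (.e (nat_lit 393229) (nat_lit 9) (.e (nat_lit 335986) (nat_lit 1) (.e (nat_lit 57849) (nat_lit 252) (.e (nat_lit 57372) (nat_lit 2) (.e (nat_lit 90158) (nat_lit 11) .nil)))))) (.g (nat_lit 0) .nil .nil))))) (.nd (nat_lit 4) (.nd (nat_lit 5) 
(.lf (nat_lit 140494) (.g (nat_lit 2918) (.e (nat_lit 24656) (nat_lit 13) (.e (nat_lit 393229) (nat_lit 9) (.e (nat_lit 335995) (nat_lit 1) (.e (nat_lit 57848) (nat_lit 252) (.e (nat_lit 57372) (nat_lit 2) (.e (nat_lit 90159) (nat_lit 11) .nil)))))) (.g (nat_lit 0) .nil .nil))) 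
(.lf (nat_lit 140526) (.g (nat_lit 2238) (.e (nat_lit 24657) (nat_lit 13) (.e (nat_lit 393229) (nat_lit 9) (.e (nat_lit 335986) (nat_lit 1) (.e (nat_lit 57847) (nat_lit 252) (.e (nat_lit 57371) (nat_lit 2) (.e (nat_lit 90158) (nat_lit 11) .nil)))))) (.g (nat_lit 4) .nil .nil)))) (.nd (nat_lit 5) 
(.lf (nat_lit 140510) (.g (nat_lit 746) (.e (nat_lit 24656) (nat_lit 13) (.e (nat_lit 393229) (nat_lit 9) (.e (nat_lit 343808) (nat_lit 20) .nil))) .nil)) 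
(.lf (nat_lit 140542) (.g (nat_lit 2364) (.e (nat_lit 24657) (nat_lit 13) (.e (nat_lit 393229) (nat_lit 9) (.e (nat_lit 335986) (nat_lit 1) (.e (nat_lit 57854) (nat_lit 252) (.e (nat_lit 57371) (nat_lit 2) (.e (nat_lit 90159) (nat_lit 11) .nil)))))) (.g (nat_lit 4) .nil .nil)))))))) (.nd (nat_lit 1) (.nd (nat_lit 2) (.nd (nat_lit 3) (.nd (nat_lit 4) (.nd (nat_lit 5) 
(.lf (nat_lit 140481) (.g (nat_lit 2710) (.e (nat_lit 24656) (nat_lit 13) (.e (nat_lit 393229) (nat_lit 9) (.e (nat_lit 335988) (nat_lit 1) (.e (nat_lit 57854) (nat_lit 252) (.e (nat_lit 57370) (nat_lit 2) (.e (nat_lit 90158) (nat_lit 11) .nil)))))) (.g (nat_lit 6) .nil .nil))) 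
(.lf (nat_lit 140513) (.g (nat_lit 2999) (.e (nat_lit 24656) (nat_lit 13) (.e (nat_lit 393298) (nat_lit 27) (.e (nat_lit 491556) (nat_lit 9) (.e (nat_lit 336051) (nat_lit 6) (.e (nat_lit 147496) (nat_lit 11) .nil))))) (.g (nat_lit 5) .nil .nil)))) (.nd (nat_lit 5) 
(.lf (nat_lit 140497) (.g (nat_lit 3634) (.e (nat_lit 24656) (nat_lit 13) (.e (nat_lit 393229) (nat_lit 9) (.e (nat_lit 335995) (nat_lit 1) (.e (nat_lit 57849) (nat_lit 252) (.e (nat_lit 57372) (nat_lit 2) (.e (nat_lit 90158) (nat_lit 11) .nil)))))) (.g (nat_lit 6) .nil .nil))) 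
(.lf (nat_lit 140529) (.g (nat_lit 3198) (.e (nat_lit 24657) (nat_lit 13) (.e (nat_lit 393229) (nat_lit 9) (.e (nat_lit 335986) (nat_lit 1) (.e (nat_lit 57847) (nat_lit 252) (.e (nat_lit 57372) (nat_lit 2) (.e (nat_lit 90158) (nat_lit 11) .nil)))))) (.g (nat_lit 0) .nil .nil))))) (.nd (nat_lit 4) (.nd (nat_lit 5) 
(.lf (nat_lit 140489) (.g (nat_lit 3287) (.e (nat_lit 24656) (nat_lit 13) (.e (nat_lit 393229) (nat_lit 9) (.e (nat_lit 335995) (nat_lit 1) (.e (nat_lit 57846) (nat_lit 252) (.e (nat_lit 57371) (nat_lit 2) .nil))))) .nil)) 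
(.lf (nat_lit 140521) (.g (nat_lit 1967) (.e (nat_lit 24657) (nat_lit 13) (.e (nat_lit 393229) (nat_lit 9) (.e (nat_lit 335933) (nat_lit 0) (.e (nat_lit 1040) (nat_lit 81) .nil)))) .nil))) (.nd (nat_lit 5) 
(.lf (nat_lit 140505) (.g (nat_lit 3773) (.e (nat_lit 24656) (nat_lit 13) (.e (nat_lit 393229) (nat_lit 9) (.e (nat_lit 335996) (nat_lit 1) (.e (nat_lit 57852) (nat_lit 252) (.e (nat_lit 57373) (nat_lit 2) (.e (nat_lit 90158) (nat_lit 11) .nil)))))) (.g (nat_lit 0) .nil .nil))) 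
(.lf (nat_lit 140537) (.g (nat_lit 2335) (.e (nat_lit 24657) (nat_lit 13) (.e (nat_lit 393229) (nat_lit 9) (.e (nat_lit 335986) (nat_lit 1) (.e (nat_lit 57851) (nat_lit 252) .nil)))) .nil))))) (.nd (nat_lit 3) (.nd (nat_lit 4) (.nd (nat_lit 5) 
(.lf (nat_lit 140485) (.g (nat_lit 1141) (.e (nat_lit 24656) (nat_lit 13) (.e (nat_lit 393229) (nat_lit 9) (.e (nat_lit 335994) (nat_lit 1) (.e (nat_lit 57854) (nat_lit 252) .nil)))) .nil)) 
(.lf (nat_lit 140517) (.g (nat_lit 3021) (.e (nat_lit 24657) (nat_lit 13) (.e (nat_lit 393227) (nat_lit 9) (.e (nat_lit 335998) (nat_lit 1) (.e (nat_lit 57849) (nat_lit 252) (.e (nat_lit 57375) (nat_lit 2) (.e (nat_lit 90157) (nat_lit 11) .nil)))))) (.g (nat_lit 0) .nil .nil)))) (.nd (nat_lit 5) 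
(.lf (nat_lit 140501) (.g (nat_lit 2116) (.e (nat_lit 24656) (nat_lit 13) (.e (nat_lit 393229) (nat_lit 9) (.e (nat_lit 335996) (nat_lit 1) (.e (nat_lit 57851) (nat_lit 252) (.e (nat_lit 57370) (nat_lit 2) .nil))))) .nil)) 
(.lf (nat_lit 140533) (.g (nat_lit 3036) (.e (nat_lit 24657) (nat_lit 13) (.e (nat_lit 393229) (nat_lit 9) (.e (nat_lit 335986) (nat_lit 1) (.e (nat_lit 57847) (nat_lit 252) (.e (nat_lit 57375) (nat_lit 2) (.e (nat_lit 90158) (nat_lit 11) .nil)))))) (.g (nat_lit 0) .nil .nil))))) (.nd (nat_lit 4) (.nd (nat_lit 5) 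
(.lf (nat_lit 140493) (.g (nat_lit 3379) (.e (nat_lit 24656) (nat_lit 13) (.e (nat_lit 393229) (nat_lit 9) (.e (nat_lit 335995) (nat_lit 1) (.e (nat_lit 57847) (nat_lit 252) (.e (nat_lit 57372) (nat_lit 2) (.e (nat_lit 90160) (nat_lit 11) .nil)))))) (.g (nat_lit 0) .nil .nil))) 
(.lf (nat_lit 140525) (.g (nat_lit 1883) (.e (nat_lit 24657) (nat_lit 13) (.e (nat_lit 393229) (nat_lit 9) (.e (nat_lit 335986) (nat_lit 1) (.e (nat_lit 57847) (nat_lit 252) (.e (nat_lit 57370) (nat_lit 2) (.e (nat_lit 90157) (nat_lit 11) .nil)))))) (.g (nat_lit 4) .nil .nil)))) (.nd (nat_lit 5) 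
(.lf (nat_lit 140509) (.g (nat_lit 4105) (.e (nat_lit 24656) (nat_lit 13) (.e (nat_lit 393229) (nat_lit 9) (.e (nat_lit 335996) (nat_lit 1) (.e (nat_lit 57854) (nat_lit 252) (.e (nat_lit 57373) (nat_lit 2) (.e (nat_lit 90160) (nat_lit 11) .nil)))))) (.g (nat_lit 0) .nil .nil))) 
(.lf (nat_lit 140541) (.g (nat_lit 1845) (.e (nat_lit 24657) (nat_lit 13) (.e (nat_lit 393229) (nat_lit 9) (.e (nat_lit 335986) (nat_lit 1) (.e (nat_lit 57854) (nat_lit 252) (.e (nat_lit 57371) (nat_lit 2) .nil))))) .nil)))))) (.nd (nat_lit 2) (.nd (nat_lit 3) (.nd (nat_lit 4) (.nd (nat_lit 5) 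
(.lf (nat_lit 140483) (.g (nat_lit 3704) (.e (nat_lit 24656) (nat_lit 13) (.e (nat_lit 393229) (nat_lit 9) (.e (nat_lit 335988) (nat_lit 1) (.e (nat_lit 57854) (nat_lit 252) (.e (nat_lit 57373) (nat_lit 2) (.e (nat_lit 90160) (nat_lit 11) .nil)))))) (.g (nat_lit 0) .nil .nil))) 
(.lf (nat_lit 140515) (.g (nat_lit 588) (.e (nat_lit 24657) (nat_lit 13) (.e (nat_lit 393225) (nat_lit 9) (.e (nat_lit 335986) (nat_lit 1) .nil))) .nil))) (.nd (nat_lit 5) 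
(.lf (nat_lit 140499) (.g (nat_lit 2253) (.e (nat_lit 24656) (nat_lit 13) (.e (nat_lit 393229) (nat_lit 9) (.e (nat_lit 335995) (nat_lit 1) (.e (nat_lit 57854) (nat_lit 252) .nil)))) .nil)) 
(.lf (nat_lit 140531) (.g (nat_lit 3817) (.e (nat_lit 24657) (nat_lit 13) (.e (nat_lit 393229) (nat_lit 9) (.e (nat_lit 335986) (nat_lit 1) (.e (nat_lit 57847) (nat_lit 252) (.e (nat_lit 57373) (nat_lit 2) (.e (nat_lit 90159) (nat_lit 11) .nil)))))) (.g (nat_lit 6) .nil .nil))))) (.nd (nat_lit 4) (.nd (nat_lit 5) 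
(.lf (nat_lit 140491) (.g (nat_lit 3300) (.e (nat_lit 24656) (nat_lit 13) (.e (nat_lit 393229) (nat_lit 9) (.e (nat_lit 335995) (nat_lit 1) (.e (nat_lit 57846) (nat_lit 252) (.e (nat_lit 57373) (nat_lit 2) .nil))))) .nil)) 
(.lf (nat_lit 140523) (.g (nat_lit 1687) (.e (nat_lit 24657) (nat_lit 13) (.e (nat_lit 393229) (nat_lit 9) (.e (nat_lit 335986) (nat_lit 1) (.e (nat_lit 57845) (nat_lit 252) .nil)))) .nil))) (.nd (nat_lit 5) 
(.lf (nat_lit 140507) (.g (nat_lit 3068) (.e (nat_lit 24656) (nat_lit 13) (.e (nat_lit 393229) (nat_lit 9) (.e (nat_lit 335996) (nat_lit 1) (.e (nat_lit 57854) (nat_lit 252) (.e (nat_lit 57370) (nat_lit 2) (.e (nat_lit 90158) (nat_lit 11) .nil)))))) (.g (nat_lit 6) .nil .nil))) 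
(.lf (nat_lit 140539) (.g (nat_lit 3375) (.e (nat_lit 24657) (nat_lit 13) (.e (nat_lit 393229) (nat_lit 9) (.e (nat_lit 335986) (nat_lit 1) (.e (nat_lit 57853) (nat_lit 252) (.e (nat_lit 57371) (nat_lit 2) (.e (nat_lit 90159) (nat_lit 11) .nil)))))) (.g (nat_lit 4) .nil .nil)))))) (.nd (nat_lit 3) (.nd (nat_lit 4) (.nd (nat_lit 5) 
(.lf (nat_lit 140487) (.g (nat_lit 2414) (.e (nat_lit 24656) (nat_lit 13) (.e (nat_lit 393229) (nat_lit 9) (.e (nat_lit 335995) (nat_lit 1) (.e (nat_lit 57846) (nat_lit 252) .nil)))) .nil)) 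
(.lf (nat_lit 140519) (.g (nat_lit 3137) (.e (nat_lit 24657) (nat_lit 13) (.e (nat_lit 393227) (nat_lit 9) (.e (nat_lit 335998) (nat_lit 1) (.e (nat_lit 57849) (nat_lit 252) (.e (nat_lit 57375) (nat_lit 2) (.e (nat_lit 90159) (nat_lit 11) .nil)))))) (.g (nat_lit 0) .nil .nil)))) (.nd (nat_lit 5) 
(.lf (nat_lit 140503) (.g (nat_lit 2874) (.e (nat_lit 24656) (nat_lit 13) (.e (nat_lit 393229) (nat_lit 9) (.e (nat_lit 335996) (nat_lit 1) (.e (nat_lit 57851) (nat_lit 252) (.e (nat_lit 57371) (nat_lit 2) (.e (nat_lit 90158) (nat_lit 11) .nil)))))) (.g (nat_lit 5) .nil .nil))) 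
(.lf (nat_lit 140535) (.g (nat_lit 3450) (.e (nat_lit 24657) (nat_lit 13) (.e (nat_lit 393229) (nat_lit 9) (.e (nat_lit 335986) (nat_lit 1) (.e (nat_lit 57849) (nat_lit 252) (.e (nat_lit 57375) (nat_lit 2) (.e (nat_lit 90158) (nat_lit 11) .nil)))))) (.g (nat_lit 0) .nil .nil))))) (.nd (nat_lit 4) (.nd (nat_lit 5) 
(.lf (nat_lit 140495) (.g (nat_lit 1245) (.e (nat_lit 24656) (nat_lit 13) (.e (nat_lit 393229) (nat_lit 9) (.e (nat_lit 335995) (nat_lit 1) (.e (nat_lit 57849) (nat_lit 252) .nil)))) .nil)) 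
(.lf (nat_lit 140527) (.g (nat_lit 3251) (.e (nat_lit 24657) (nat_lit 13) (.e (nat_lit 393229) (nat_lit 9) (.e (nat_lit 335986) (nat_lit 1) (.e (nat_lit 57847) (nat_lit 252) (.e (nat_lit 57371) (nat_lit 2) (.e (nat_lit 90159) (nat_lit 11) .nil)))))) (.g (nat_lit 6) .nil .nil)))) (.nd (nat_lit 5) 
(.lf (nat_lit 140511) (.g (nat_lit 1103) (.e (nat_lit 24656) (nat_lit 13) (.e (nat_lit 393271) (nat_lit 23) (.e (nat_lit 426112) (nat_lit 1) .nil))) .nil)) 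
(.lf (nat_lit 140543) (.g (nat_lit 2343) (.e (nat_lit 24657) (nat_lit 13) (.e (nat_lit 393229) (nat_lit 9) (.e (nat_lit 335986) (nat_lit 1) (.e (nat_lit 57854) (nat_lit 252) (.e (nat_lit 57371) (nat_lit 2) (.e (nat_lit 90160) (nat_lit 11) .nil)))))) (.g (nat_lit 4) .nil .nil)))))))))

noncomputable def tv1866 : DT := (.nd (nat_lit 0) (.nd (nat_lit 1) (.nd (nat_lit 2) (.nd (nat_lit 3) (.nd (nat_lit 4) (.nd (nat_lit 5) 
(.lf (nat_lit 140544) (.g (nat_lit 3219) (.e (nat_lit 24657) (nat_lit 13) (.e (nat_lit 393229) (nat_lit 9) (.e (nat_lit 335986) (nat_lit 1) (.e (nat_lit 57854) (nat_lit 252) (.e (nat_lit 57373) (nat_lit 2) (.e (nat_lit 90157) (nat_lit 11) .nil)))))) (.g (nat_lit 5) .nil .nil))) 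
(.lf (nat_lit 140576) (.g (nat_lit 3192) (.e (nat_lit 24657) (nat_lit 13) (.e (nat_lit 393229) (nat_lit 9) (.e (nat_lit 335995) (nat_lit 1) (.e (nat_lit 57847) (nat_lit 252) (.e (nat_lit 57371) (nat_lit 2) (.e (nat_lit 90159) (nat_lit 11) .nil)))))) (.g (nat_lit 6) .nil .nil)))) (.nd (nat_lit 5) 
(.lf (nat_lit 140560) (.g (nat_lit 2966) (.e (nat_lit 24657) (nat_lit 13) (.e (nat_lit 393229) (nat_lit 9) (.e (nat_lit 335988) (nat_lit 1) (.e (nat_lit 57853) (nat_lit 252) (.e (nat_lit 57371) (nat_lit 2) (.e (nat_lit 90160) (nat_lit 11) .nil)))))) (.g (nat_lit 4) .nil .nil))) 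
(.lf (nat_lit 140592) (.g (nat_lit 4123) (.e (nat_lit 24657) (nat_lit 13) (.e (nat_lit 393229) (nat_lit 9) (.e (nat_lit 335995) (nat_lit 1) (.e (nat_lit 57849) (nat_lit 252) (.e (nat_lit 57375) (nat_lit 2) (.e (nat_lit 90160) (nat_lit 11) .nil)))))) (.g (nat_lit 0) .nil .nil))))) (.nd (nat_lit 4) (.nd (nat_lit 5) 
(.lf (nat_lit 140552) (.g (nat_lit 2690) (.e (nat_lit 24657) (nat_lit 13) (.e (nat_lit 393229) (nat_lit 9) (.e (nat_lit 335988) (nat_lit 1) (.e (nat_lit 57852) (nat_lit 252) (.e (nat_lit 57371) (nat_lit 2) (.e (nat_lit 90156) (nat_lit 11) .nil)))))) (.g (nat_lit 5) .nil .nil))) 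
(.lf (nat_lit 140584) (.g (nat_lit 2034) (.e (nat_lit 24657) (nat_lit 13) (.e (nat_lit 393229) (nat_lit 9) (.e (nat_lit 335995) (nat_lit 1) (.e (nat_lit 57849) (nat_lit 252) (.e (nat_lit 57370) (nat_lit 2) (.e (nat_lit 90157) (nat_lit 11) .nil)))))) (.g (nat_lit 5) .nil .nil)))) (.nd (nat_lit 5) 
(.lf (nat_lit 140568) (.g (nat_lit 4527) (.e (nat_lit 24657) (nat_lit 13) (.e (nat_lit 393229) (nat_lit 9) (.e (nat_lit 335995) (nat_lit 1) (.e (nat_lit 57844) (nat_lit 252) (.e (nat_lit 57371) (nat_lit 2) (.e (nat_lit 90159) (nat_lit 11) .nil)))))) (.g (nat_lit 0) .nil .nil))) 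
(.lf (nat_lit 140600) (.g (nat_lit 2239) (.e (nat_lit 24657) (nat_lit 13) (.e (nat_lit 393229) (nat_lit 9) (.e (nat_lit 335996) (nat_lit 1) (.e (nat_lit 57851) (nat_lit 252) (.e (nat_lit 57373) (nat_lit 2) .nil))))) .nil))))) (.nd (nat_lit 3) (.nd (nat_lit 4) (.nd (nat_lit 5) 
(.lf (nat_lit 140548) (.g (nat_lit 2574) (.e (nat_lit 24657) (nat_lit 13) (.e (nat_lit 393229) (nat_lit 9) (.e (nat_lit 335987) (nat_lit 1) (.e (nat_lit 57854) (nat_lit 252) (.e (nat_lit 57373) (nat_lit 2) (.e (nat_lit 90160) (nat_lit 11) .nil)))))) (.g (nat_lit 4) .nil .nil))) 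
(.lf (nat_lit 140580) (.g (nat_lit 3136) (.e (nat_lit 24657) (nat_lit 13) (.e (nat_lit 393229) (nat_lit 9) (.e (nat_lit 335995) (nat_lit 1) (.e (nat_lit 57847) (nat_lit 252) (.e (nat_lit 57373) (nat_lit 2) (.e (nat_lit 90160) (nat_lit 11) .nil)))))) (.g (nat_lit 5) .nil .nil)))) (.nd (nat_lit 5) 
(.lf (nat_lit 140564) (.g (nat_lit 3685) (.e (nat_lit 24657) (nat_lit 13) (.e (nat_lit 393229) (nat_lit 9) (.e (nat_lit 335988) (nat_lit 1) (.e (nat_lit 57854) (nat_lit 252) (.e (nat_lit 57373) (nat_lit 2) (.e (nat_lit 90157) (nat_lit 11) .nil)))))) (.g (nat_lit 0) .nil .nil))) 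
(.lf (nat_lit 140596) (.g (nat_lit 4443) (.e (nat_lit 24657) (nat_lit 13) (.e (nat_lit 393229) (nat_lit 9) (.e (nat_lit 335995) (nat_lit 1) (.e (nat_lit 57854) (nat_lit 252) (.e (nat_lit 57373) (nat_lit 2) (.e (nat_lit 90159) (nat_lit 11) .nil)))))) (.g (nat_lit 5) .nil .nil))))) (.nd (nat_lit 4) (.nd (nat_lit 5) 
(.lf (nat_lit 140556) (.g (nat_lit 3624) (.e (nat_lit 24657) (nat_lit 13) (.e (nat_lit 393229) (nat_lit 9) (.e (nat_lit 335988) (nat_lit 1) (.e (nat_lit 57852) (nat_lit 252) (.e (nat_lit 57371) (nat_lit 2) (.e (nat_lit 90160) (nat_lit 11) .nil)))))) (.g (nat_lit 6) .nil .nil))) 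
(.lf (nat_lit 140588) (.g (nat_lit 3670) (.e (nat_lit 24657) (nat_lit 13) (.e (nat_lit 393229) (nat_lit 9) (.e (nat_lit 335995) (nat_lit 1) (.e (nat_lit 57849) (nat_lit 252) (.e (nat_lit 57372) (nat_lit 2) (.e (nat_lit 90158) (nat_lit 11) .nil)))))) (.g (nat_lit 0) .nil .nil)))) (.nd (nat_lit 5) 
(.lf (nat_lit 140572) (.g (nat_lit 2681) (.e (nat_lit 24657) (nat_lit 13) (.e (nat_lit 393229) (nat_lit 9) (.e (nat_lit 335995) (nat_lit 1) (.e (nat_lit 57846) (nat_lit 252) (.e (nat_lit 57373) (nat_lit 2) .nil))))) .nil)) 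
(.lf (nat_lit 140604) (.g (nat_lit 3807) (.e (nat_lit 24657) (nat_lit 13) (.e (nat_lit 393229) (nat_lit 9) (.e (nat_lit 335996) (nat_lit 1) (.e (nat_lit 57852) (nat_lit 252) (.e (nat_lit 57371) (nat_lit 2) (.e (nat_lit 90158) (nat_lit 11) .nil)))))) (.g (nat_lit 0) .nil .nil))))))) (.nd (nat_lit 2) (.nd (nat_lit 3) (.nd (nat_lit 4) (.nd (nat_lit 5) 
(.lf (nat_lit 140546) (.g (nat_lit 2270) (.e (nat_lit 24657) (nat_lit 13) (.e (nat_lit 393229) (nat_lit 9) (.e (nat_lit 335987) (nat_lit 1) (.e (nat_lit 57854) (nat_lit 252) (.e (nat_lit 57373) (nat_lit 2) (.e (nat_lit 90158) (nat_lit 11) .nil)))))) (.g (nat_lit 4) .nil .nil))) 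
(.lf (nat_lit 140578) (.g (nat_lit 3731) (.e (nat_lit 24657) (nat_lit 13) (.e (nat_lit 393229) (nat_lit 9) (.e (nat_lit 335995) (nat_lit 1) (.e (nat_lit 57847) (nat_lit 252) (.e (nat_lit 57372) (nat_lit 2) (.e (nat_lit 90159) (nat_lit 11) .nil)))))) (.g (nat_lit 0) .nil .nil)))) (.nd (nat_lit 5) 
(.lf (nat_lit 140562) (.g (nat_lit 2710) (.e (nat_lit 24657) (nat_lit 13) (.e (nat_lit 393229) (nat_lit 9) (.e (nat_lit 335988) (nat_lit 1) (.e (nat_lit 57854) (nat_lit 252) (.e (nat_lit 57371) (nat_lit 2) (.e (nat_lit 90157) (nat_lit 11) .nil)))))) (.g (nat_lit 5) .nil .nil))) 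
(.lf (nat_lit 140594) (.g (nat_lit 2306) (.e (nat_lit 24657) (nat_lit 13) (.e (nat_lit 393229) (nat_lit 9) (.e (nat_lit 335995) (nat_lit 1) (.e (nat_lit 57853) (nat_lit 252) .nil)))) .nil)))) (.nd (nat_lit 4) (.nd (nat_lit 5) 
(.lf (nat_lit 140554) (.g (nat_lit 3361) (.e (nat_lit 24657) (nat_lit 13) (.e (nat_lit 393229) (nat_lit 9) (.e (nat_lit 335988) (nat_lit 1) (.e (nat_lit 57852) (nat_lit 252) (.e (nat_lit 57371) (nat_lit 2) (.e (nat_lit 90158) (nat_lit 11) .nil)))))) (.g (nat_lit 0) .nil .nil))) 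
(.lf (nat_lit 140586) (.g (nat_lit 3161) (.e (nat_lit 24657) (nat_lit 13) (.e (nat_lit 393229) (nat_lit 9) (.e (nat_lit 335995) (nat_lit 1) (.e (nat_lit 57849) (nat_lit 252) (.e (nat_lit 57372) (nat_lit 2) (.e (nat_lit 90156) (nat_lit 11) .nil)))))) (.g (nat_lit 5) .nil .nil)))) (.nd (nat_lit 5) 
(.lf (nat_lit 140570) (.g (nat_lit 1815) (.e (nat_lit 24657) (nat_lit 13) (.e (nat_lit 393229) (nat_lit 9) (.e (nat_lit 335995) (nat_lit 1) (.e (nat_lit 57846) (nat_lit 252) .nil)))) .nil)) 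
(.lf (nat_lit 140602) (.g (nat_lit 3104) (.e (nat_lit 24657) (nat_lit 13) (.e (nat_lit 393229) (nat_lit 9) (.e (nat_lit 335996) (nat_lit 1) (.e (nat_lit 57852) (nat_lit 252) (.e (nat_lit 57371) (nat_lit 2) (.e (nat_lit 90156) (nat_lit 11) .nil)))))) (.g (nat_lit 5) .nil .nil)))))) (.nd (nat_lit 3) (.nd (nat_lit 4) (.nd (nat_lit 5) 
(.lf (nat_lit 140550) (.g (nat_lit 1714) (.e (nat_lit 24657) (nat_lit 13) (.e (nat_lit 393229) (nat_lit 9) (.e (nat_lit 335988) (nat_lit 1) (.e (nat_lit 57852) (nat_lit 252) (.e (nat_lit 57370) (nat_lit 2) (.e (nat_lit 90157) (nat_lit 11) .nil)))))) (.g (nat_lit 4) .nil .nil))) 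
(.lf (nat_lit 140582) (.g (nat_lit 3117) (.e (nat_lit 24657) (nat_lit 13) (.e (nat_lit 393229) (nat_lit 9) (.e (nat_lit 335995) (nat_lit 1) (.e (nat_lit 57847) (nat_lit 252) (.e (nat_lit 57375) (nat_lit 2) (.e (nat_lit 90158) (nat_lit 11) .nil)))))) (.g (nat_lit 0) .nil .nil)))) (.nd (nat_lit 5) 
(.lf (nat_lit 140566) (.g (nat_lit 2856) (.e (nat_lit 24657) (nat_lit 13) (.e (nat_lit 393229) (nat_lit 9) (.e (nat_lit 335994) (nat_lit 1) (.e (nat_lit 57844) (nat_lit 252) .nil)))) .nil)) 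
(.lf (nat_lit 140598) (.g (nat_lit 2533) (.e (nat_lit 24657) (nat_lit 13) (.e (nat_lit 393229) (nat_lit 9) (.e (nat_lit 335996) (nat_lit 1) (.e (nat_lit 57851) (nat_lit 252) (.e (nat_lit 57371) (nat_lit 2) (.e (nat_lit 90158) (nat_lit 11) .nil)))))) (.g (nat_lit 4) .nil .nil))))) (.nd (nat_lit 4) (.nd (nat_lit 5) 
(.lf (nat_lit 140558) (.g (nat_lit 2813) (.e (nat_lit 24657) (nat_lit 13) (.e (nat_lit 393229) (nat_lit 9) (.e (nat_lit 335988) (nat_lit 1) (.e (nat_lit 57853) (nat_lit 252) (.e (nat_lit 57371) (nat_lit 2) (.e (nat_lit 90158) (nat_lit 11) .nil)))))) (.g (nat_lit 4) .nil .nil))) 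
(.lf (nat_lit 140590) (.g (nat_lit 3640) (.e (nat_lit 24657) (nat_lit 13) (.e (nat_lit 393229) (nat_lit 9) (.e (nat_lit 335995) (nat_lit 1) (.e (nat_lit 57849) (nat_lit 252) (.e (nat_lit 57375) (nat_lit 2) (.e (nat_lit 90158) (nat_lit 11) .nil)))))) (.g (nat_lit 0) .nil .nil)))) (.nd (nat_lit 5) 
(.lf (nat_lit 140574) (.g (nat_lit 1904) (.e (nat_lit 24657) (nat_lit 13) (.e (nat_lit 393229) (nat_lit 9) (.e (nat_lit 335995) (nat_lit 1) (.e (nat_lit 57847) (nat_lit 252) (.e (nat_lit 57370) (nat_lit 2) (.e (nat_lit 90157) (nat_lit 11) .nil)))))) (.g (nat_lit 4) .nil .nil))) 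
(.lf (nat_lit 140606) (.g (nat_lit 4080) (.e (nat_lit 24657) (nat_lit 13) (.e (nat_lit 393229) (nat_lit 9) (.e (nat_lit 335996) (nat_lit 1) (.e (nat_lit 57852) (nat_lit 252) (.e (nat_lit 57371) (nat_lit 2) (.e (nat_lit 90160) (nat_lit 11) .nil)))))) (.g (nat_lit 6) .nil .nil)))))))) (.nd (nat_lit 1) (.nd (nat_lit 2) (.nd (nat_lit 3) (.nd (nat_lit 4) (.nd (nat_lit 5) 
(.lf (nat_lit 140545) (.g (nat_lit 2416) (.e (nat_lit 24657) (nat_lit 13) (.e (nat_lit 393229) (nat_lit 9) (.e (nat_lit 335986) (nat_lit 1) (.e (nat_lit 57854) (nat_lit 252) (.e (nat_lit 57373) (nat_lit 2) (.e (nat_lit 90158) (nat_lit 11) .nil)))))) (.g (nat_lit 4) .nil .nil))) 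
(.lf (nat_lit 140577) (.g (nat_lit 3253) (.e (nat_lit 24657) (nat_lit 13) (.e (nat_lit 393229) (nat_lit 9) (.e (nat_lit 335995) (nat_lit 1) (.e (nat_lit 57847) (nat_lit 252) (.e (nat_lit 57372) (nat_lit 2) (.e (nat_lit 90158) (nat_lit 11) .nil)))))) (.g (nat_lit 0) .nil .nil)))) (.nd (nat_lit 5) 
(.lf (nat_lit 140561) (.g (nat_lit 3151) (.e (nat_lit 24657) (nat_lit 13) (.e (nat_lit 393229) (nat_lit 9) (.e (nat_lit 335988) (nat_lit 1) (.e (nat_lit 57854) (nat_lit 252) (.e (nat_lit 57371) (nat_lit 2) (.e (nat_lit 90156) (nat_lit 11) .nil)))))) (.g (nat_lit 6) .nil .nil))) 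
(.lf (nat_lit 140593) (.g (nat_lit 2395) (.e (nat_lit 24657) (nat_lit 13) (.e (nat_lit 393229) (nat_lit 9) (.e (nat_lit 335995) (nat_lit 1) (.e (nat_lit 57851) (nat_lit 252) .nil)))) .nil)))) (.nd (nat_lit 4) (.nd (nat_lit 5) 
(.lf (nat_lit 140553) (.g (nat_lit 2082) (.e (nat_lit 24657) (nat_lit 13) (.e (nat_lit 393229) (nat_lit 9) (.e (nat_lit 335988) (nat_lit 1) (.e (nat_lit 57852) (nat_lit 252) (.e (nat_lit 57371) (nat_lit 2) (.e (nat_lit 90157) (nat_lit 11) .nil)))))) (.g (nat_lit 4) .nil .nil))) 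
(.lf (nat_lit 140585) (.g (nat_lit 2267) (.e (nat_lit 24657) (nat_lit 13) (.e (nat_lit 393229) (nat_lit 9) (.e (nat_lit 335995) (nat_lit 1) (.e (nat_lit 57849) (nat_lit 252) (.e (nat_lit 57371) (nat_lit 2) (.e (nat_lit 90159) (nat_lit 11) .nil)))))) (.g (nat_lit 4) .nil .nil)))) (.nd (nat_lit 5) 
(.lf (nat_lit 140569) (.g (nat_lit 2011) (.e (nat_lit 24657) (nat_lit 13) (.e (nat_lit 393229) (nat_lit 9) (.e (nat_lit 335995) (nat_lit 1) (.e (nat_lit 57845) (nat_lit 252) .nil)))) .nil)) 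
(.lf (nat_lit 140601) (.g (nat_lit 2114) (.e (nat_lit 24657) (nat_lit 13) (.e (nat_lit 393229) (nat_lit 9) (.e (nat_lit 335996) (nat_lit 1) (.e (nat_lit 57852) (nat_lit 252) (.e (nat_lit 57370) (nat_lit 2) (.e (nat_lit 90157) (nat_lit 11) .nil)))))) (.g (nat_lit 4) .nil .nil)))))) (.nd (nat_lit 3) (.nd (nat_lit 4) (.nd (nat_lit 5) 
(.lf (nat_lit 140549) (.g (nat_lit 2183) (.e (nat_lit 24657) (nat_lit 13) (.e (nat_lit 393229) (nat_lit 9) (.e (nat_lit 335988) (nat_lit 1) (.e (nat_lit 57851) (nat_lit 252) (.e (nat_lit 57371) (nat_lit 2) .nil))))) .nil)) 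
(.lf (nat_lit 140581) (.g (nat_lit 3080) (.e (nat_lit 24657) (nat_lit 13) (.e (nat_lit 393229) (nat_lit 9) (.e (nat_lit 335995) (nat_lit 1) (.e (nat_lit 57847) (nat_lit 252) (.e (nat_lit 57375) (nat_lit 2) (.e (nat_lit 90157) (nat_lit 11) .nil)))))) (.g (nat_lit 6) .nil .nil)))) (.nd (nat_lit 5) 
(.lf (nat_lit 140565) (.g (nat_lit 3767) (.e (nat_lit 24657) (nat_lit 13) (.e (nat_lit 393229) (nat_lit 9) (.e (nat_lit 335993) (nat_lit 1) (.e (nat_lit 57854) (nat_lit 252) (.e (nat_lit 57373) (nat_lit 2) (.e (nat_lit 90159) (nat_lit 11) .nil)))))) (.g (nat_lit 5) .nil .nil))) 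
(.lf (nat_lit 140597) (.g (nat_lit 3459) (.e (nat_lit 24657) (nat_lit 13) (.e (nat_lit 393229) (nat_lit 9) (.e (nat_lit 335996) (nat_lit 1) (.e (nat_lit 57844) (nat_lit 252) (.e (nat_lit 57371) (nat_lit 2) (.e (nat_lit 90159) (nat_lit 11) .nil)))))) (.g (nat_lit 0) .nil .nil))))) (.nd (nat_lit 4) (.nd (nat_lit 5) 
(.lf (nat_lit 140557) (.g (nat_lit 2555) (.e (nat_lit 24657) (nat_lit 13) (.e (nat_lit 393229) (nat_lit 9) (.e (nat_lit 335988) (nat_lit 1) (.e (nat_lit 57853) (nat_lit 252) (.e (nat_lit 57370) (nat_lit 2) (.e (nat_lit 90158) (nat_lit 11) .nil)))))) (.g (nat_lit 4) .nil .nil))) 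
(.lf (nat_lit 140589) (.g (nat_lit 3689) (.e (nat_lit 24657) (nat_lit 13) (.e (nat_lit 393229) (nat_lit 9) (.e (nat_lit 335995) (nat_lit 1) (.e (nat_lit 57849) (nat_lit 252) (.e (nat_lit 57375) (nat_lit 2) (.e (nat_lit 90157) (nat_lit 11) .nil)))))) (.g (nat_lit 0) .nil .nil)))) (.nd (nat_lit 5) 
(.lf (nat_lit 140573) (.g (nat_lit 3157) (.e (nat_lit 24657) (nat_lit 13) (.e (nat_lit 393229) (nat_lit 9) (.e (nat_lit 335995) (nat_lit 1) (.e (nat_lit 57846) (nat_lit 252) (.e (nat_lit 57375) (nat_lit 2) (.e (nat_lit 90160) (nat_lit 11) .nil)))))) (.g (nat_lit 4) .nil .nil))) 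
(.lf (nat_lit 140605) (.g (nat_lit 4074) (.e (nat_lit 24657) (nat_lit 13) (.e (nat_lit 393229) (nat_lit 9) (.e (nat_lit 335996) (nat_lit 1) (.e (nat_lit 57852) (nat_lit 252) (.e (nat_lit 57371) (nat_lit 2) (.e (nat_lit 90159) (nat_lit 11) .nil)))))) (.g (nat_lit 0) .nil .nil))))))) (.nd (nat_lit 2) (.nd (nat_lit 3) (.nd (nat_lit 4) (.nd (nat_lit 5) 
(.lf (nat_lit 140547) (.g (nat_lit 3757) (.e (nat_lit 24657) (nat_lit 13) (.e (nat_lit 393229) (nat_lit 9) (.e (nat_lit 335987) (nat_lit 1) (.e (nat_lit 57854) (nat_lit 252) (.e (nat_lit 57373) (nat_lit 2) (.e (nat_lit 90159) (nat_lit 11) .nil)))))) (.g (nat_lit 5) .nil .nil))) 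
(.lf (nat_lit 140579) (.g (nat_lit 2706) (.e (nat_lit 24657) (nat_lit 13) (.e (nat_lit 393229) (nat_lit 9) (.e (nat_lit 335995) (nat_lit 1) (.e (nat_lit 57847) (nat_lit 252) (.e (nat_lit 57373) (nat_lit 2) (.e (nat_lit 90157) (nat_lit 11) .nil)))))) (.g (nat_lit 5) .nil .nil)))) (.nd (nat_lit 5) 
(.lf (nat_lit 140563) (.g (nat_lit 3355) (.e (nat_lit 24657) (nat_lit 13) (.e (nat_lit 393229) (nat_lit 9) (.e (nat_lit 335988) (nat_lit 1) (.e (nat_lit 57854) (nat_lit 252) (.e (nat_lit 57371) (nat_lit 2) (.e (nat_lit 90158) (nat_lit 11) .nil)))))) (.g (nat_lit 0) .nil .nil))) 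
(.lf (nat_lit 140595) (.g (nat_lit 3043) (.e (nat_lit 24657) (nat_lit 13) (.e (nat_lit 393229) (nat_lit 9) (.e (nat_lit 335995) (nat_lit 1) (.e (nat_lit 57853) (nat_lit 252) (.e (nat_lit 57371) (nat_lit 2) .nil))))) .nil)))) (.nd (nat_lit 4) (.nd (nat_lit 5) 
(.lf (nat_lit 140555) (.g (nat_lit 3646) (.e (nat_lit 24657) (nat_lit 13) (.e (nat_lit 393229) (nat_lit 9) (.e (nat_lit 335988) (nat_lit 1) (.e (nat_lit 57852) (nat_lit 252) (.e (nat_lit 57371) (nat_lit 2) (.e (nat_lit 90159) (nat_lit 11) .nil)))))) (.g (nat_lit 0) .nil .nil))) 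
(.lf (nat_lit 140587) (.g (nat_lit 2346) (.e (nat_lit 24657) (nat_lit 13) (.e (nat_lit 393229) (nat_lit 9) (.e (nat_lit 335995) (nat_lit 1) (.e (nat_lit 57849) (nat_lit 252) (.e (nat_lit 57372) (nat_lit 2) (.e (nat_lit 90157) (nat_lit 11) .nil)))))) (.g (nat_lit 5) .nil .nil)))) (.nd (nat_lit 5) 
(.lf (nat_lit 140571) (.g (nat_lit 3028) (.e (nat_lit 24657) (nat_lit 13) (.e (nat_lit 393229) (nat_lit 9) (.e (nat_lit 335995) (nat_lit 1) (.e (nat_lit 57846) (nat_lit 252) (.e (nat_lit 57371) (nat_lit 2) (.e (nat_lit 90159) (nat_lit 11) .nil)))))) (.g (nat_lit 4) .nil .nil))) 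
(.lf (nat_lit 140603) (.g (nat_lit 2511) (.e (nat_lit 24657) (nat_lit 13) (.e (nat_lit 393229) (nat_lit 9) (.e (nat_lit 335996) (nat_lit 1) (.e (nat_lit 57852) (nat_lit 252) (.e (nat_lit 57371) (nat_lit 2) (.e (nat_lit 90157) (nat_lit 11) .nil)))))) (.g (nat_lit 4) .nil .nil)))))) (.nd (nat_lit 3) (.nd (nat_lit 4) (.nd (nat_lit 5) 
(.lf (nat_lit 140551) (.g (nat_lit 3166) (.e (nat_lit 24657) (nat_lit 13) (.e (nat_lit 393229) (nat_lit 9) (.e (nat_lit 335988) (nat_lit 1) (.e (nat_lit 57852) (nat_lit 252) (.e (nat_lit 57370) (nat_lit 2) (.e (nat_lit 90158) (nat_lit 11) .nil)))))) (.g (nat_lit 6) .nil .nil))) 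
(.lf (nat_lit 140583) (.g (nat_lit 3412) (.e (nat_lit 24657) (nat_lit 13) (.e (nat_lit 393229) (nat_lit 9) (.e (nat_lit 335995) (nat_lit 1) (.e (nat_lit 57847) (nat_lit 252) (.e (nat_lit 57375) (nat_lit 2) (.e (nat_lit 90159) (nat_lit 11) .nil)))))) (.g (nat_lit 0) .nil .nil)))) (.nd (nat_lit 5) 
(.lf (nat_lit 140567) (.g (nat_lit 1743) (.e (nat_lit 24657) (nat_lit 13) (.e (nat_lit 393229) (nat_lit 9) (.e (nat_lit 335995) (nat_lit 1) (.e (nat_lit 57844) (nat_lit 252) .nil)))) .nil)) 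
(.lf (nat_lit 140599) (.g (nat_lit 4148) (.e (nat_lit 24657) (nat_lit 13) (.e (nat_lit 393229) (nat_lit 9) (.e (nat_lit 335996) (nat_lit 1) (.e (nat_lit 57851) (nat_lit 252) (.e (nat_lit 57371) (nat_lit 2) (.e (nat_lit 90160) (nat_lit 11) .nil)))))) (.g (nat_lit 6) .nil .nil))))) (.nd (nat_lit 4) (.nd (nat_lit 5) 
(.lf (nat_lit 140559) (.g (nat_lit 2945) (.e (nat_lit 24657) (nat_lit 13) (.e (nat_lit 393229) (nat_lit 9) (.e (nat_lit 335988) (nat_lit 1) (.e (nat_lit 57853) (nat_lit 252) (.e (nat_lit 57371) (nat_lit 2) (.e (nat_lit 90159) (nat_lit 11) .nil)))))) (.g (nat_lit 4) .nil .nil))) 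
(.lf (nat_lit 140591) (.g (nat_lit 3734) (.e (nat_lit 24657) (nat_lit 13) (.e (nat_lit 393229) (nat_lit 9) (.e (nat_lit 335995) (nat_lit 1) (.e (nat_lit 57849) (nat_lit 252) (.e (nat_lit 57375) (nat_lit 2) (.e (nat_lit 90159) (nat_lit 11) .nil)))))) (.g (nat_lit 0) .nil .nil)))) (.nd (nat_lit 5) 
(.lf (nat_lit 140575) (.g (nat_lit 2182) (.e (nat_lit 24657) (nat_lit 13) (.e (nat_lit 393229) (nat_lit 9) (.e (nat_lit 335995) (nat_lit 1) (.e (nat_lit 57847) (nat_lit 252) (.e (nat_lit 57371) (nat_lit 2) (.e (nat_lit 90158) (nat_lit 11) .nil)))))) (.g (nat_lit 4) .nil .nil))) 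
(.lf (nat_lit 140607) (.g (nat_lit 1809) (.e (nat_lit 24657) (nat_lit 13) (.e (nat_lit 393229) (nat_lit 9) (.e (nat_lit 335996) (nat_lit 1) (.e (nat_lit 57853) (nat_lit 252) (.e (nat_lit 57370) (nat_lit 2) .nil))))) .nil))))))))

noncomputable def tv1867 : DT := (.nd (nat_lit 0) (.nd (nat_lit 1) (.nd (nat_lit 2) (.nd (nat_lit 3) (.nd (nat_lit 4) (.nd (nat_lit 5) 
(.lf (nat_lit 140608) (.g (nat_lit 3393) (.e (nat_lit 24657) (nat_lit 13) (.e (nat_lit 393229) (nat_lit 9) (.e (nat_lit 335996) (nat_lit 1) (.e (nat_lit 57853) (nat_lit 252) (.e (nat_lit 57370) (nat_lit 2) (.e (nat_lit 90158) (nat_lit 11) .nil)))))) (.g (nat_lit 6) .nil .nil))) 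
(.lf (nat_lit 140640) (.g (nat_lit 2694) (.e (nat_lit 24658) (nat_lit 13) (.e (nat_lit 393224) (nat_lit 9) (.e (nat_lit 335996) (nat_lit 1) (.e (nat_lit 57854) (nat_lit 252) (.e (nat_lit 57373) (nat_lit 2) (.e (nat_lit 90158) (nat_lit 11) .nil)))))) (.g (nat_lit 4) .nil .nil)))) (.nd (nat_lit 5) 
(.lf (nat_lit 140624) (.g (nat_lit 1379) (.e (nat_lit 24657) (nat_lit 13) (.e (nat_lit 393253) (nat_lit 18) (.e (nat_lit 164410) (nat_lit 260) (.e (nat_lit 1196) (nat_lit 88) (.e (nat_lit 65580) (nat_lit 6) .nil))))) .nil)) 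
(.lf (nat_lit 140656) (.g (nat_lit 2617) (.e (nat_lit 24658) (nat_lit 13) (.e (nat_lit 393225) (nat_lit 9) (.e (nat_lit 335995) (nat_lit 1) (.e (nat_lit 57847) (nat_lit 252) (.e (nat_lit 57373) (nat_lit 2) (.e (nat_lit 90160) (nat_lit 11) .nil)))))) (.g (nat_lit 4) .nil .nil))))) (.nd (nat_lit 4) (.nd (nat_lit 5) 
(.lf (nat_lit 140616) (.g (nat_lit 3164) (.e (nat_lit 24657) (nat_lit 13) (.e (nat_lit 393229) (nat_lit 9) (.e (nat_lit 335996) (nat_lit 1) (.e (nat_lit 57854) (nat_lit 252) (.e (nat_lit 57371) (nat_lit 2) (.e (nat_lit 90157) (nat_lit 11) .nil)))))) (.g (nat_lit 5) .nil .nil))) 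
(.lf (nat_lit 140648) (.g (nat_lit 3405) (.e (nat_lit 24658) (nat_lit 13) (.e (nat_lit 393225) (nat_lit 9) (.e (nat_lit 335995) (nat_lit 1) (.e (nat_lit 57844) (nat_lit 252) (.e (nat_lit 57371) (nat_lit 2) (.e (nat_lit 90160) (nat_lit 11) .nil)))))) (.g (nat_lit 5) .nil .nil)))) (.nd (nat_lit 5) 
(.lf (nat_lit 140632) (.g (nat_lit 2186) (.e (nat_lit 24658) (nat_lit 13) (.e (nat_lit 393224) (nat_lit 9) (.e (nat_lit 335988) (nat_lit 1) (.e (nat_lit 57854) (nat_lit 252) (.e (nat_lit 57370) (nat_lit 2) (.e (nat_lit 90158) (nat_lit 11) .nil)))))) (.g (nat_lit 4) .nil .nil))) 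
(.lf (nat_lit 140664) (.g (nat_lit 2844) (.e (nat_lit 24658) (nat_lit 13) (.e (nat_lit 393225) (nat_lit 9) (.e (nat_lit 335995) (nat_lit 1) (.e (nat_lit 57849) (nat_lit 252) (.e (nat_lit 57375) (nat_lit 2) (.e (nat_lit 90160) (nat_lit 11) .nil)))))) (.g (nat_lit 4) .nil .nil)))))) (.nd (nat_lit 3) (.nd (nat_lit 4) (.nd (nat_lit 5) 
(.lf (nat_lit 140612) (.g (nat_lit 4066) (.e (nat_lit 24657) (nat_lit 13) (.e (nat_lit 393229) (nat_lit 9) (.e (nat_lit 335996) (nat_lit 1) (.e (nat_lit 57853) (nat_lit 252) (.e (nat_lit 57371) (nat_lit 2) (.e (nat_lit 90160) (nat_lit 11) .nil)))))) (.g (nat_lit 6) .nil .nil))) 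
(.lf (nat_lit 140644) (.g (nat_lit 1992) (.e (nat_lit 24658) (nat_lit 13) (.e (nat_lit 393225) (nat_lit 9) (.e (nat_lit 335988) (nat_lit 1) (.e (nat_lit 57852) (nat_lit 252) .nil)))) .nil))) (.nd (nat_lit 5) 
(.lf (nat_lit 140628) (.g (nat_lit 774) (.e (nat_lit 24657) (nat_lit 13) (.e (nat_lit 393271) (nat_lit 23) (.e (nat_lit 426426) (nat_lit 16) .nil))) .nil)) 
(.lf (nat_lit 140660) (.g (nat_lit 2963) (.e (nat_lit 24658) (nat_lit 13) (.e (nat_lit 393225) (nat_lit 9) (.e (nat_lit 335995) (nat_lit 1) (.e (nat_lit 57849) (nat_lit 252) (.e (nat_lit 57370) (nat_lit 2) (.e (nat_lit 90158) (nat_lit 11) .nil)))))) (.g (nat_lit 4) .nil .nil))))) (.nd (nat_lit 4) (.nd (nat_lit 5) 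
(.lf (nat_lit 140620) (.g (nat_lit 945) (.e (nat_lit 24657) (nat_lit 13) (.e (nat_lit 393251) (nat_lit 18) (.e (nat_lit 164415) (nat_lit 260) .nil))) .nil)) 
(.lf (nat_lit 140652) (.g (nat_lit 1712) (.e (nat_lit 24658) (nat_lit 13) (.e (nat_lit 393225) (nat_lit 9) (.e (nat_lit 335995) (nat_lit 1) (.e (nat_lit 57846) (nat_lit 252) .nil)))) .nil))) (.nd (nat_lit 5) 
(.lf (nat_lit 140636) (.g (nat_lit 3270) (.e (nat_lit 24658) (nat_lit 13) (.e (nat_lit 393224) (nat_lit 9) (.e (nat_lit 335995) (nat_lit 1) (.e (nat_lit 57849) (nat_lit 252) (.e (nat_lit 57375) (nat_lit 2) (.e (nat_lit 90158) (nat_lit 11) .nil)))))) (.g (nat_lit 5) .nil .nil))) 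
(.lf (nat_lit 140668) (.g (nat_lit 2440) (.e (nat_lit 24658) (nat_lit 13) (.e (nat_lit 393225) (nat_lit 9) (.e (nat_lit 335996) (nat_lit 1) (.e (nat_lit 57852) (nat_lit 252) (.e (nat_lit 57371) (nat_lit 2) (.e (nat_lit 90160) (nat_lit 11) .nil)))))) (.g (nat_lit 4) .nil .nil))))))) (.nd (nat_lit 2) (.nd (nat_lit 3) (.nd (nat_lit 4) (.nd (nat_lit 5) 
(.lf (nat_lit 140610) (.g (nat_lit 3761) (.e (nat_lit 24657) (nat_lit 13) (.e (nat_lit 393229) (nat_lit 9) (.e (nat_lit 335996) (nat_lit 1) (.e (nat_lit 57853) (nat_lit 252) (.e (nat_lit 57371) (nat_lit 2) (.e (nat_lit 90158) (nat_lit 11) .nil)))))) (.g (nat_lit 0) .nil .nil))) 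
(.lf (nat_lit 140642) (.g (nat_lit 2968) (.e (nat_lit 24658) (nat_lit 13) (.e (nat_lit 393225) (nat_lit 9) (.e (nat_lit 335986) (nat_lit 1) (.e (nat_lit 57849) (nat_lit 252) (.e (nat_lit 57372) (nat_lit 2) (.e (nat_lit 90158) (nat_lit 11) .nil)))))) (.g (nat_lit 5) .nil .nil)))) (.nd (nat_lit 5) 
(.lf (nat_lit 140626) (.g (nat_lit 1427) (.e (nat_lit 24657) (nat_lit 13) (.e (nat_lit 393253) (nat_lit 18) (.e (nat_lit 164414) (nat_lit 260) (.e (nat_lit 1196) (nat_lit 88) (.e (nat_lit 65580) (nat_lit 6) .nil))))) .nil)) 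
(.lf (nat_lit 140658) (.g (nat_lit 2753) (.e (nat_lit 24658) (nat_lit 13) (.e (nat_lit 393225) (nat_lit 9) (.e (nat_lit 335995) (nat_lit 1) (.e (nat_lit 57848) (nat_lit 252) (.e (nat_lit 57373) (nat_lit 2) (.e (nat_lit 90158) (nat_lit 11) .nil)))))) (.g (nat_lit 5) .nil .nil))))) (.nd (nat_lit 4) (.nd (nat_lit 5) 
(.lf (nat_lit 140618) (.g (nat_lit 4155) (.e (nat_lit 24657) (nat_lit 13) (.e (nat_lit 393229) (nat_lit 9) (.e (nat_lit 335996) (nat_lit 1) (.e (nat_lit 57854) (nat_lit 252) (.e (nat_lit 57373) (nat_lit 2) (.e (nat_lit 90157) (nat_lit 11) .nil)))))) (.g (nat_lit 0) .nil .nil))) 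
(.lf (nat_lit 140650) (.g (nat_lit 2856) (.e (nat_lit 24658) (nat_lit 13) (.e (nat_lit 393225) (nat_lit 9) (.e (nat_lit 335995) (nat_lit 1) (.e (nat_lit 57844) (nat_lit 252) (.e (nat_lit 57372) (nat_lit 2) (.e (nat_lit 90160) (nat_lit 11) .nil)))))) (.g (nat_lit 4) .nil .nil)))) (.nd (nat_lit 5) 
(.lf (nat_lit 140634) (.g (nat_lit 3207) (.e (nat_lit 24658) (nat_lit 13) (.e (nat_lit 393224) (nat_lit 9) (.e (nat_lit 335988) (nat_lit 1) (.e (nat_lit 57854) (nat_lit 252) (.e (nat_lit 57373) (nat_lit 2) (.e (nat_lit 90160) (nat_lit 11) .nil)))))) (.g (nat_lit 5) .nil .nil))) 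
(.lf (nat_lit 140666) (.g (nat_lit 3098) (.e (nat_lit 24658) (nat_lit 13) (.e (nat_lit 393225) (nat_lit 9) (.e (nat_lit 335995) (nat_lit 1) (.e (nat_lit 57853) (nat_lit 252) (.e (nat_lit 57371) (nat_lit 2) (.e (nat_lit 90158) (nat_lit 11) .nil)))))) (.g (nat_lit 4) .nil .nil)))))) (.nd (nat_lit 3) (.nd (nat_lit 4) (.nd (nat_lit 5) 
(.lf (nat_lit 140614) (.g (nat_lit 2156) (.e (nat_lit 24657) (nat_lit 13) (.e (nat_lit 393229) (nat_lit 9) (.e (nat_lit 335996) (nat_lit 1) (.e (nat_lit 57854) (nat_lit 252) (.e (nat_lit 57370) (nat_lit 2) (.e (nat_lit 90157) (nat_lit 11) .nil)))))) (.g (nat_lit 4) .nil .nil))) 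
(.lf (nat_lit 140646) (.g (nat_lit 2250) (.e (nat_lit 24658) (nat_lit 13) (.e (nat_lit 393225) (nat_lit 9) (.e (nat_lit 335995) (nat_lit 1) (.e (nat_lit 57844) (nat_lit 252) (.e (nat_lit 57371) (nat_lit 2) (.e (nat_lit 90156) (nat_lit 11) .nil)))))) (.g (nat_lit 4) .nil .nil)))) (.nd (nat_lit 5) 
(.lf (nat_lit 140630) (.g (nat_lit 2941) (.e (nat_lit 24657) (nat_lit 13) (.e (nat_lit 393298) (nat_lit 27) (.e (nat_lit 491556) (nat_lit 9) (.e (nat_lit 336051) (nat_lit 6) (.e (nat_lit 147495) (nat_lit 11) .nil))))) (.g (nat_lit 4) .nil .nil))) 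
(.lf (nat_lit 140662) (.g (nat_lit 4369) (.e (nat_lit 24658) (nat_lit 13) (.e (nat_lit 393225) (nat_lit 9) (.e (nat_lit 335995) (nat_lit 1) (.e (nat_lit 57849) (nat_lit 252) (.e (nat_lit 57372) (nat_lit 2) (.e (nat_lit 90160) (nat_lit 11) .nil)))))) (.g (nat_lit 5) .nil .nil))))) (.nd (nat_lit 4) (.nd (nat_lit 5) 
(.lf (nat_lit 140622) (.g (nat_lit 1326) (.e (nat_lit 24657) (nat_lit 13) (.e (nat_lit 393253) (nat_lit 18) (.e (nat_lit 164409) (nat_lit 260) (.e (nat_lit 1196) (nat_lit 88) .nil)))) .nil)) 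
(.lf (nat_lit 140654) (.g (nat_lit 1396) (.e (nat_lit 24658) (nat_lit 13) (.e (nat_lit 393225) (nat_lit 9) (.e (nat_lit 335995) (nat_lit 1) (.e (nat_lit 57847) (nat_lit 252) .nil)))) .nil))) (.nd (nat_lit 5) 
(.lf (nat_lit 140638) (.g (nat_lit 2000) (.e (nat_lit 24658) (nat_lit 13) (.e (nat_lit 393224) (nat_lit 9) (.e (nat_lit 335996) (nat_lit 1) (.e (nat_lit 57853) (nat_lit 252) (.e (nat_lit 57370) (nat_lit 2) (.e (nat_lit 90158) (nat_lit 11) .nil)))))) (.g (nat_lit 4) .nil .nil))) 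
(.lf (nat_lit 140670) (.g (nat_lit 3030) (.e (nat_lit 24658) (nat_lit 13) (.e (nat_lit 393225) (nat_lit 9) (.e (nat_lit 335996) (nat_lit 1) (.e (nat_lit 57852) (nat_lit 252) (.e (nat_lit 57373) (nat_lit 2) (.e (nat_lit 90160) (nat_lit 11) .nil)))))) (.g (nat_lit 4) .nil .nil)))))))) (.nd (nat_lit 1) (.nd (nat_lit 2) (.nd (nat_lit 3) (.nd (nat_lit 4) (.nd (nat_lit 5) 
(.lf (nat_lit 140609) (.g (nat_lit 2186) (.e (nat_lit 24657) (nat_lit 13) (.e (nat_lit 393229) (nat_lit 9) (.e (nat_lit 335996) (nat_lit 1) (.e (nat_lit 57853) (nat_lit 252) (.e (nat_lit 57371) (nat_lit 2) (.e (nat_lit 90157) (nat_lit 11) .nil)))))) (.g (nat_lit 4) .nil .nil))) 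
(.lf (nat_lit 140641) (.g (nat_lit 2144) (.e (nat_lit 24658) (nat_lit 13) (.e (nat_lit 393225) (nat_lit 9) (.e (nat_lit 335986) (nat_lit 1) (.e (nat_lit 57847) (nat_lit 252) (.e (nat_lit 57371) (nat_lit 2) (.e (nat_lit 90158) (nat_lit 11) .nil)))))) (.g (nat_lit 4) .nil .nil)))) (.nd (nat_lit 5) 
(.lf (nat_lit 140625) (.g (nat_lit 893) (.e (nat_lit 24657) (nat_lit 13) (.e (nat_lit 393253) (nat_lit 18) (.e (nat_lit 164414) (nat_lit 260) (.e (nat_lit 1196) (nat_lit 88) .nil)))) .nil)) 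
(.lf (nat_lit 140657) (.g (nat_lit 2152) (.e (nat_lit 24658) (nat_lit 13) (.e (nat_lit 393225) (nat_lit 9) (.e (nat_lit 335995) (nat_lit 1) (.e (nat_lit 57848) (nat_lit 252) (.e (nat_lit 57371) (nat_lit 2) (.e (nat_lit 90158) (nat_lit 11) .nil)))))) (.g (nat_lit 4) .nil .nil))))) (.nd (nat_lit 4) (.nd (nat_lit 5) 
(.lf (nat_lit 140617) (.g (nat_lit 3813) (.e (nat_lit 24657) (nat_lit 13) (.e (nat_lit 393229) (nat_lit 9) (.e (nat_lit 335996) (nat_lit 1) (.e (nat_lit 57854) (nat_lit 252) (.e (nat_lit 57371) (nat_lit 2) (.e (nat_lit 90158) (nat_lit 11) .nil)))))) (.g (nat_lit 0) .nil .nil))) 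
(.lf (nat_lit 140649) (.g (nat_lit 2591) (.e (nat_lit 24658) (nat_lit 13) (.e (nat_lit 393225) (nat_lit 9) (.e (nat_lit 335995) (nat_lit 1) (.e (nat_lit 57844) (nat_lit 252) (.e (nat_lit 57372) (nat_lit 2) (.e (nat_lit 90158) (nat_lit 11) .nil)))))) (.g (nat_lit 4) .nil .nil)))) (.nd (nat_lit 5) 
(.lf (nat_lit 140633) (.g (nat_lit 3084) (.e (nat_lit 24658) (nat_lit 13) (.e (nat_lit 393224) (nat_lit 9) (.e (nat_lit 335988) (nat_lit 1) (.e (nat_lit 57854) (nat_lit 252) (.e (nat_lit 57373) (nat_lit 2) (.e (nat_lit 90158) (nat_lit 11) .nil)))))) (.g (nat_lit 5) .nil .nil))) 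
(.lf (nat_lit 140665) (.g (nat_lit 2786) (.e (nat_lit 24658) (nat_lit 13) (.e (nat_lit 393225) (nat_lit 9) (.e (nat_lit 335995) (nat_lit 1) (.e (nat_lit 57853) (nat_lit 252) (.e (nat_lit 57370) (nat_lit 2) (.e (nat_lit 90158) (nat_lit 11) .nil)))))) (.g (nat_lit 4) .nil .nil)))))) (.nd (nat_lit 3) (.nd (nat_lit 4) (.nd (nat_lit 5) 
(.lf (nat_lit 140613) (.g (nat_lit 2232) (.e (nat_lit 24657) (nat_lit 13) (.e (nat_lit 393229) (nat_lit 9) (.e (nat_lit 335996) (nat_lit 1) (.e (nat_lit 57853) (nat_lit 252) (.e (nat_lit 57373) (nat_lit 2) .nil))))) .nil)) 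
(.lf (nat_lit 140645) (.g (nat_lit 2664) (.e (nat_lit 24658) (nat_lit 13) (.e (nat_lit 393225) (nat_lit 9) (.e (nat_lit 335995) (nat_lit 1) (.e (nat_lit 57844) (nat_lit 252) (.e (nat_lit 57370) (nat_lit 2) (.e (nat_lit 90158) (nat_lit 11) .nil)))))) (.g (nat_lit 4) .nil .nil)))) (.nd (nat_lit 5) 
(.lf (nat_lit 140629) (.g (nat_lit 444) (.e (nat_lit 24657) (nat_lit 13) (.e (nat_lit 393294) (nat_lit 26) (.e (nat_lit 475192) (nat_lit 37) .nil))) .nil)) 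
(.lf (nat_lit 140661) (.g (nat_lit 4305) (.e (nat_lit 24658) (nat_lit 13) (.e (nat_lit 393225) (nat_lit 9) (.e (nat_lit 335995) (nat_lit 1) (.e (nat_lit 57849) (nat_lit 252) (.e (nat_lit 57372) (nat_lit 2) (.e (nat_lit 90158) (nat_lit 11) .nil)))))) (.g (nat_lit 6) .nil .nil))))) (.nd (nat_lit 4) (.nd (nat_lit 5) 
(.lf (nat_lit 140621) (.g (nat_lit 1315) (.e (nat_lit 24657) (nat_lit 13) (.e (nat_lit 393253) (nat_lit 18) (.e (nat_lit 164183) (nat_lit 154) (.e (nat_lit 65280) (nat_lit 62) .nil)))) .nil)) 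
(.lf (nat_lit 140653) (.g (nat_lit 2432) (.e (nat_lit 24658) (nat_lit 13) (.e (nat_lit 393225) (nat_lit 9) (.e (nat_lit 335995) (nat_lit 1) (.e (nat_lit 57846) (nat_lit 252) (.e (nat_lit 57372) (nat_lit 2) (.e (nat_lit 90160) (nat_lit 11) .nil)))))) (.g (nat_lit 4) .nil .nil)))) (.nd (nat_lit 5) 
(.lf (nat_lit 140637) (.g (nat_lit 3117) (.e (nat_lit 24658) (nat_lit 13) (.e (nat_lit 393224) (nat_lit 9) (.e (nat_lit 335996) (nat_lit 1) (.e (nat_lit 57852) (nat_lit 252) (.e (nat_lit 57373) (nat_lit 2) (.e (nat_lit 90158) (nat_lit 11) .nil)))))) (.g (nat_lit 5) .nil .nil))) 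
(.lf (nat_lit 140669) (.g (nat_lit 3706) (.e (nat_lit 24658) (nat_lit 13) (.e (nat_lit 393225) (nat_lit 9) (.e (nat_lit 335996) (nat_lit 1) (.e (nat_lit 57852) (nat_lit 252) (.e (nat_lit 57373) (nat_lit 2) (.e (nat_lit 90158) (nat_lit 11) .nil)))))) (.g (nat_lit 6) .nil .nil))))))) (.nd (nat_lit 2) (.nd (nat_lit 3) (.nd (nat_lit 4) (.nd (nat_lit 5) 
(.lf (nat_lit 140611) (.g (nat_lit 3975) (.e (nat_lit 24657) (nat_lit 13) (.e (nat_lit 393229) (nat_lit 9) (.e (nat_lit 335996) (nat_lit 1) (.e (nat_lit 57853) (nat_lit 252) (.e (nat_lit 57371) (nat_lit 2) (.e (nat_lit 90159) (nat_lit 11) .nil)))))) (.g (nat_lit 0) .nil .nil))) 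
(.lf (nat_lit 140643) (.g (nat_lit 2897) (.e (nat_lit 24658) (nat_lit 13) (.e (nat_lit 393225) (nat_lit 9) (.e (nat_lit 335986) (nat_lit 1) (.e (nat_lit 57849) (nat_lit 252) (.e (nat_lit 57375) (nat_lit 2) (.e (nat_lit 90158) (nat_lit 11) .nil)))))) (.g (nat_lit 5) .nil .nil)))) (.nd (nat_lit 5) 
(.lf (nat_lit 140627) (.g (nat_lit 1071) (.e (nat_lit 24657) (nat_lit 13) (.e (nat_lit 393271) (nat_lit 23) (.e (nat_lit 426354) (nat_lit 15) (.e (nat_lit 2017) (nat_lit 139) .nil)))) .nil)) 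
(.lf (nat_lit 140659) (.g (nat_lit 2470) (.e (nat_lit 24658) (nat_lit 13) (.e (nat_lit 393225) (nat_lit 9) (.e (nat_lit 335995) (nat_lit 1) (.e (nat_lit 57848) (nat_lit 252) (.e (nat_lit 57374) (nat_lit 2) (.e (nat_lit 90156) (nat_lit 11) .nil)))))) (.g (nat_lit 4) .nil .nil))))) (.nd (nat_lit 4) (.nd (nat_lit 5) 
(.lf (nat_lit 140619) (.g (nat_lit 412) (.e (nat_lit 24657) (nat_lit 13) (.e (nat_lit 393232) (nat_lit 17) (.e (nat_lit 7936) (nat_lit 406) .nil))) .nil)) 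
(.lf (nat_lit 140651) (.g (nat_lit 2743) (.e (nat_lit 24658) (nat_lit 13) (.e (nat_lit 393225) (nat_lit 9) (.e (nat_lit 335995) (nat_lit 1) (.e (nat_lit 57844) (nat_lit 252) (.e (nat_lit 57375) (nat_lit 2) (.e (nat_lit 90158) (nat_lit 11) .nil)))))) (.g (nat_lit 4) .nil .nil)))) (.nd (nat_lit 5) 
(.lf (nat_lit 140635) (.g (nat_lit 2599) (.e (nat_lit 24658) (nat_lit 13) (.e (nat_lit 393224) (nat_lit 9) (.e (nat_lit 335995) (nat_lit 1) (.e (nat_lit 57847) (nat_lit 252) (.e (nat_lit 57370) (nat_lit 2) (.e (nat_lit 90158) (nat_lit 11) .nil)))))) (.g (nat_lit 4) .nil .nil))) 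
(.lf (nat_lit 140667) (.g (nat_lit 2543) (.e (nat_lit 24658) (nat_lit 13) (.e (nat_lit 393225) (nat_lit 9) (.e (nat_lit 335996) (nat_lit 1) (.e (nat_lit 57851) (nat_lit 252) (.e (nat_lit 57371) (nat_lit 2) (.e (nat_lit 90156) (nat_lit 11) .nil)))))) (.g (nat_lit 5) .nil .nil)))))) (.nd (nat_lit 3) (.nd (nat_lit 4) (.nd (nat_lit 5) 
(.lf (nat_lit 140615) (.g (nat_lit 3590) (.e (nat_lit 24657) (nat_lit 13) (.e (nat_lit 393229) (nat_lit 9) (.e (nat_lit 335996) (nat_lit 1) (.e (nat_lit 57854) (nat_lit 252) (.e (nat_lit 57371) (nat_lit 2) (.e (nat_lit 90156) (nat_lit 11) .nil)))))) (.g (nat_lit 6) .nil .nil))) 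
(.lf (nat_lit 140647) (.g (nat_lit 3239) (.e (nat_lit 24658) (nat_lit 13) (.e (nat_lit 393225) (nat_lit 9) (.e (nat_lit 335995) (nat_lit 1) (.e (nat_lit 57844) (nat_lit 252) (.e (nat_lit 57371) (nat_lit 2) (.e (nat_lit 90158) (nat_lit 11) .nil)))))) (.g (nat_lit 5) .nil .nil)))) (.nd (nat_lit 5) 
(.lf (nat_lit 140631) (.g (nat_lit 2627) (.e (nat_lit 24658) (nat_lit 13) (.e (nat_lit 393224) (nat_lit 9) (.e (nat_lit 335986) (nat_lit 1) (.e (nat_lit 57847) (nat_lit 252) (.e (nat_lit 57370) (nat_lit 2) (.e (nat_lit 90158) (nat_lit 11) .nil)))))) (.g (nat_lit 4) .nil .nil))) 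
(.lf (nat_lit 140663) (.g (nat_lit 4415) (.e (nat_lit 24658) (nat_lit 13) (.e (nat_lit 393225) (nat_lit 9) (.e (nat_lit 335995) (nat_lit 1) (.e (nat_lit 57849) (nat_lit 252) (.e (nat_lit 57375) (nat_lit 2) (.e (nat_lit 90158) (nat_lit 11) .nil)))))) (.g (nat_lit 6) .nil .nil))))) (.nd (nat_lit 4) (.nd (nat_lit 5) 
(.lf (nat_lit 140623) (.g (nat_lit 552) (.e (nat_lit 24657) (nat_lit 13) (.e (nat_lit 393253) (nat_lit 18) (.e (nat_lit 164410) (nat_lit 260) .nil))) .nil)) 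
(.lf (nat_lit 140655) (.g (nat_lit 2425) (.e (nat_lit 24658) (nat_lit 13) (.e (nat_lit 393225) (nat_lit 9) (.e (nat_lit 335995) (nat_lit 1) (.e (nat_lit 57847) (nat_lit 252) (.e (nat_lit 57371) (nat_lit 2) (.e (nat_lit 90158) (nat_lit 11) .nil)))))) (.g (nat_lit 4) .nil .nil)))) (.nd (nat_lit 5) 
(.lf (nat_lit 140639) (.g (nat_lit 2319) (.e (nat_lit 24658) (nat_lit 13) (.e (nat_lit 393224) (nat_lit 9) (.e (nat_lit 335996) (nat_lit 1) (.e (nat_lit 57854) (nat_lit 252) (.e (nat_lit 57371) (nat_lit 2) (.e (nat_lit 90160) (nat_lit 11) .nil)))))) (.g (nat_lit 4) .nil .nil))) 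
(.lf (nat_lit 140671) (.g (nat_lit 3349) (.e (nat_lit 24658) (nat_lit 13) (.e (nat_lit 393228) (nat_lit 9) (.e (nat_lit 335986) (nat_lit 1) (.e (nat_lit 57847) (nat_lit 252) (.e (nat_lit 57370) (nat_lit 2) (.e (nat_lit 90158) (nat_lit 11) .nil)))))) (.g (nat_lit 5) .nil .nil)))))))))

noncomputable def tv1868 : DT := (.nd (nat_lit 0) (.nd (nat_lit 1) (.nd (nat_lit 2) (.nd (nat_lit 3) (.nd (nat_lit 4) (.nd (nat_lit 5) 
(.lf (nat_lit 140672) (.g (nat_lit 2130) (.e (nat_lit 24658) (nat_lit 13) (.e (nat_lit 393228) (nat_lit 9) (.e (nat_lit 335986) (nat_lit 1) (.e (nat_lit 57847) (nat_lit 252) (.e (nat_lit 57372) (nat_lit 2) (.e (nat_lit 90158) (nat_lit 11) .nil)))))) (.g (nat_lit 4) .nil .nil))) 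
(.lf (nat_lit 140704) (.g (nat_lit 2862) (.e (nat_lit 24658) (nat_lit 13) (.e (nat_lit 393229) (nat_lit 9) (.e (nat_lit 335994) (nat_lit 1) (.e (nat_lit 57847) (nat_lit 252) (.e (nat_lit 57372) (nat_lit 2) (.e (nat_lit 90158) (nat_lit 11) .nil)))))) (.g (nat_lit 0) .nil .nil)))) (.nd (nat_lit 5) 
(.lf (nat_lit 140688) (.g (nat_lit 2964) (.e (nat_lit 24658) (nat_lit 13) (.e (nat_lit 393229) (nat_lit 9) (.e (nat_lit 335987) (nat_lit 1) (.e (nat_lit 57854) (nat_lit 252) (.e (nat_lit 57371) (nat_lit 2) (.e (nat_lit 90160) (nat_lit 11) .nil)))))) (.g (nat_lit 6) .nil .nil))) 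
(.lf (nat_lit 140720) (.g (nat_lit 3572) (.e (nat_lit 24658) (nat_lit 13) (.e (nat_lit 393229) (nat_lit 9) (.e (nat_lit 335995) (nat_lit 1) (.e (nat_lit 57846) (nat_lit 252) (.e (nat_lit 57370) (nat_lit 2) (.e (nat_lit 90158) (nat_lit 11) .nil)))))) (.g (nat_lit 0) .nil .nil))))) (.nd (nat_lit 4) (.nd (nat_lit 5) 
(.lf (nat_lit 140680) (.g (nat_lit 3144) (.e (nat_lit 24658) (nat_lit 13) (.e (nat_lit 393229) (nat_lit 9) (.e (nat_lit 335986) (nat_lit 1) (.e (nat_lit 57847) (nat_lit 252) (.e (nat_lit 57372) (nat_lit 2) (.e (nat_lit 90158) (nat_lit 11) .nil)))))) (.g (nat_lit 0) .nil .nil))) 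
(.lf (nat_lit 140712) (.g (nat_lit 1466) (.e (nat_lit 24658) (nat_lit 13) (.e (nat_lit 393229) (nat_lit 9) (.e (nat_lit 335994) (nat_lit 1) (.e (nat_lit 57851) (nat_lit 252) (.e (nat_lit 57371) (nat_lit 2) (.e (nat_lit 90156) (nat_lit 11) .nil)))))) (.g (nat_lit 4) .nil .nil)))) (.nd (nat_lit 5) 
(.lf (nat_lit 140696) (.g (nat_lit 1904) (.e (nat_lit 24658) (nat_lit 13) (.e (nat_lit 393229) (nat_lit 9) (.e (nat_lit 335993) (nat_lit 1) (.e (nat_lit 57847) (nat_lit 252) (.e (nat_lit 57375) (nat_lit 2) (.e (nat_lit 90160) (nat_lit 11) .nil)))))) (.g (nat_lit 4) .nil .nil))) 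
(.lf (nat_lit 140728) (.g (nat_lit 3389) (.e (nat_lit 24658) (nat_lit 13) (.e (nat_lit 393229) (nat_lit 9) (.e (nat_lit 335995) (nat_lit 1) (.e (nat_lit 57849) (nat_lit 252) (.e (nat_lit 57370) (nat_lit 2) (.e (nat_lit 90158) (nat_lit 11) .nil)))))) (.g (nat_lit 0) .nil .nil)))))) (.nd (nat_lit 3) (.nd (nat_lit 4) (.nd (nat_lit 5) 
(.lf (nat_lit 140676) (.g (nat_lit 2623) (.e (nat_lit 24658) (nat_lit 13) (.e (nat_lit 393228) (nat_lit 9) (.e (nat_lit 335996) (nat_lit 1) (.e (nat_lit 57852) (nat_lit 252) (.e (nat_lit 57373) (nat_lit 2) (.e (nat_lit 90160) (nat_lit 11) .nil)))))) (.g (nat_lit 4) .nil .nil))) 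
(.lf (nat_lit 140708) (.g (nat_lit 2507) (.e (nat_lit 24658) (nat_lit 13) (.e (nat_lit 393229) (nat_lit 9) (.e (nat_lit 335994) (nat_lit 1) (.e (nat_lit 57848) (nat_lit 252) (.e (nat_lit 57370) (nat_lit 2) (.e (nat_lit 90158) (nat_lit 11) .nil)))))) (.g (nat_lit 0) .nil .nil)))) (.nd (nat_lit 5) 
(.lf (nat_lit 140692) (.g (nat_lit 2567) (.e (nat_lit 24658) (nat_lit 13) (.e (nat_lit 393229) (nat_lit 9) (.e (nat_lit 335988) (nat_lit 1) (.e (nat_lit 57853) (nat_lit 252) (.e (nat_lit 57371) (nat_lit 2) .nil))))) .nil)) 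
(.lf (nat_lit 140724) (.g (nat_lit 3456) (.e (nat_lit 24658) (nat_lit 13) (.e (nat_lit 393229) (nat_lit 9) (.e (nat_lit 335995) (nat_lit 1) (.e (nat_lit 57847) (nat_lit 252) (.e (nat_lit 57372) (nat_lit 2) (.e (nat_lit 90158) (nat_lit 11) .nil)))))) (.g (nat_lit 0) .nil .nil))))) (.nd (nat_lit 4) (.nd (nat_lit 5) 
(.lf (nat_lit 140684) (.g (nat_lit 2834) (.e (nat_lit 24658) (nat_lit 13) (.e (nat_lit 393229) (nat_lit 9) (.e (nat_lit 335986) (nat_lit 1) (.e (nat_lit 57854) (nat_lit 252) (.e (nat_lit 57370) (nat_lit 2) (.e (nat_lit 90158) (nat_lit 11) .nil)))))) (.g (nat_lit 0) .nil .nil))) 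
(.lf (nat_lit 140716) (.g (nat_lit 2983) (.e (nat_lit 24658) (nat_lit 13) (.e (nat_lit 393229) (nat_lit 9) (.e (nat_lit 335994) (nat_lit 1) (.e (nat_lit 57854) (nat_lit 252) (.e (nat_lit 57370) (nat_lit 2) (.e (nat_lit 90158) (nat_lit 11) .nil)))))) (.g (nat_lit 0) .nil .nil)))) (.nd (nat_lit 5) 
(.lf (nat_lit 140700) (.g (nat_lit 3187) (.e (nat_lit 24658) (nat_lit 13) (.e (nat_lit 393229) (nat_lit 9) (.e (nat_lit 335994) (nat_lit 1) (.e (nat_lit 57846) (nat_lit 252) (.e (nat_lit 57370) (nat_lit 2) (.e (nat_lit 90158) (nat_lit 11) .nil)))))) (.g (nat_lit 0) .nil .nil))) 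
(.lf (nat_lit 140732) (.g (nat_lit 2669) (.e (nat_lit 24658) (nat_lit 13) (.e (nat_lit 393229) (nat_lit 9) (.e (nat_lit 335995) (nat_lit 1) (.e (nat_lit 57852) (nat_lit 252) .nil)))) .nil)))))) (.nd (nat_lit 2) (.nd (nat_lit 3) (.nd (nat_lit 4) (.nd (nat_lit 5) 
(.lf (nat_lit 140674) (.g (nat_lit 2907) (.e (nat_lit 24658) (nat_lit 13) (.e (nat_lit 393228) (nat_lit 9) (.e (nat_lit 335995) (nat_lit 1) (.e (nat_lit 57847) (nat_lit 252) (.e (nat_lit 57370) (nat_lit 2) (.e (nat_lit 90158) (nat_lit 11) .nil)))))) (.g (nat_lit 4) .nil .nil))) 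
(.lf (nat_lit 140706) (.g (nat_lit 2789) (.e (nat_lit 24658) (nat_lit 13) (.e (nat_lit 393229) (nat_lit 9) (.e (nat_lit 335994) (nat_lit 1) (.e (nat_lit 57847) (nat_lit 252) (.e (nat_lit 57375) (nat_lit 2) (.e (nat_lit 90158) (nat_lit 11) .nil)))))) (.g (nat_lit 0) .nil .nil)))) (.nd (nat_lit 5) 
(.lf (nat_lit 140690) (.g (nat_lit 3474) (.e (nat_lit 24658) (nat_lit 13) (.e (nat_lit 393229) (nat_lit 9) (.e (nat_lit 335988) (nat_lit 1) (.e (nat_lit 57852) (nat_lit 252) (.e (nat_lit 57373) (nat_lit 2) (.e (nat_lit 90158) (nat_lit 11) .nil)))))) (.g (nat_lit 0) .nil .nil))) 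
(.lf (nat_lit 140722) (.g (nat_lit 3384) (.e (nat_lit 24658) (nat_lit 13) (.e (nat_lit 393229) (nat_lit 9) (.e (nat_lit 335995) (nat_lit 1) (.e (nat_lit 57847) (nat_lit 252) (.e (nat_lit 57370) (nat_lit 2) (.e (nat_lit 90158) (nat_lit 11) .nil)))))) (.g (nat_lit 0) .nil .nil))))) (.nd (nat_lit 4) (.nd (nat_lit 5) 
(.lf (nat_lit 140682) (.g (nat_lit 3026) (.e (nat_lit 24658) (nat_lit 13) (.e (nat_lit 393229) (nat_lit 9) (.e (nat_lit 335986) (nat_lit 1) (.e (nat_lit 57847) (nat_lit 252) (.e (nat_lit 57375) (nat_lit 2) (.e (nat_lit 90158) (nat_lit 11) .nil)))))) (.g (nat_lit 0) .nil .nil))) 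
(.lf (nat_lit 140714) (.g (nat_lit 2460) (.e (nat_lit 24658) (nat_lit 13) (.e (nat_lit 393229) (nat_lit 9) (.e (nat_lit 335994) (nat_lit 1) (.e (nat_lit 57852) (nat_lit 252) (.e (nat_lit 57371) (nat_lit 2) (.e (nat_lit 90158) (nat_lit 11) .nil)))))) (.g (nat_lit 5) .nil .nil)))) (.nd (nat_lit 5) 
(.lf (nat_lit 140698) (.g (nat_lit 2311) (.e (nat_lit 24658) (nat_lit 13) (.e (nat_lit 393229) (nat_lit 9) (.e (nat_lit 335994) (nat_lit 1) (.e (nat_lit 57844) (nat_lit 252) (.e (nat_lit 57371) (nat_lit 2) (.e (nat_lit 90156) (nat_lit 11) .nil)))))) (.g (nat_lit 5) .nil .nil))) 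
(.lf (nat_lit 140730) (.g (nat_lit 2341) (.e (nat_lit 24658) (nat_lit 13) (.e (nat_lit 393229) (nat_lit 9) (.e (nat_lit 335995) (nat_lit 1) (.e (nat_lit 57849) (nat_lit 252) (.e (nat_lit 57375) (nat_lit 2) (.e (nat_lit 90160) (nat_lit 11) .nil)))))) (.g (nat_lit 4) .nil .nil)))))) (.nd (nat_lit 3) (.nd (nat_lit 4) (.nd (nat_lit 5) 
(.lf (nat_lit 140678) (.g (nat_lit 610) (.e (nat_lit 24658) (nat_lit 13) (.e (nat_lit 393229) (nat_lit 9) (.e (nat_lit 335912) (nat_lit 0) .nil))) .nil)) 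
(.lf (nat_lit 140710) (.g (nat_lit 3340) (.e (nat_lit 24658) (nat_lit 13) (.e (nat_lit 393229) (nat_lit 9) (.e (nat_lit 335994) (nat_lit 1) (.e (nat_lit 57849) (nat_lit 252) (.e (nat_lit 57372) (nat_lit 2) (.e (nat_lit 90158) (nat_lit 11) .nil)))))) (.g (nat_lit 0) .nil .nil)))) (.nd (nat_lit 5) 
(.lf (nat_lit 140694) (.g (nat_lit 3739) (.e (nat_lit 24658) (nat_lit 13) (.e (nat_lit 393229) (nat_lit 9) (.e (nat_lit 335988) (nat_lit 1) (.e (nat_lit 57854) (nat_lit 252) (.e (nat_lit 57373) (nat_lit 2) (.e (nat_lit 90158) (nat_lit 11) .nil)))))) (.g (nat_lit 0) .nil .nil))) 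
(.lf (nat_lit 140726) (.g (nat_lit 3364) (.e (nat_lit 24658) (nat_lit 13) (.e (nat_lit 393229) (nat_lit 9) (.e (nat_lit 335995) (nat_lit 1) (.e (nat_lit 57847) (nat_lit 252) (.e (nat_lit 57375) (nat_lit 2) (.e (nat_lit 90158) (nat_lit 11) .nil)))))) (.g (nat_lit 0) .nil .nil))))) (.nd (nat_lit 4) (.nd (nat_lit 5) 
(.lf (nat_lit 140686) (.g (nat_lit 2854) (.e (nat_lit 24658) (nat_lit 13) (.e (nat_lit 393229) (nat_lit 9) (.e (nat_lit 335987) (nat_lit 1) (.e (nat_lit 57854) (nat_lit 252) (.e (nat_lit 57370) (nat_lit 2) (.e (nat_lit 90158) (nat_lit 11) .nil)))))) (.g (nat_lit 6) .nil .nil))) 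
(.lf (nat_lit 140718) (.g (nat_lit 2574) (.e (nat_lit 24658) (nat_lit 13) (.e (nat_lit 393229) (nat_lit 9) (.e (nat_lit 335995) (nat_lit 1) (.e (nat_lit 57844) (nat_lit 252) (.e (nat_lit 57375) (nat_lit 2) (.e (nat_lit 90160) (nat_lit 11) .nil)))))) (.g (nat_lit 4) .nil .nil)))) (.nd (nat_lit 5) 
(.lf (nat_lit 140702) (.g (nat_lit 3067) (.e (nat_lit 24658) (nat_lit 13) (.e (nat_lit 393229) (nat_lit 9) (.e (nat_lit 335994) (nat_lit 1) (.e (nat_lit 57846) (nat_lit 252) (.e (nat_lit 57373) (nat_lit 2) (.e (nat_lit 90158) (nat_lit 11) .nil)))))) (.g (nat_lit 6) .nil .nil))) 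
(.lf (nat_lit 140734) (.g (nat_lit 3165) (.e (nat_lit 24658) (nat_lit 13) (.e (nat_lit 393229) (nat_lit 9) (.e (nat_lit 335996) (nat_lit 1) (.e (nat_lit 57851) (nat_lit 252) (.e (nat_lit 57370) (nat_lit 2) (.e (nat_lit 90158) (nat_lit 11) .nil)))))) (.g (nat_lit 0) .nil .nil)))))))) (.nd (nat_lit 1) (.nd (nat_lit 2) (.nd (nat_lit 3) (.nd (nat_lit 4) (.nd (nat_lit 5) 
(.lf (nat_lit 140673) (.g (nat_lit 2292) (.e (nat_lit 24658) (nat_lit 13) (.e (nat_lit 393228) (nat_lit 9) (.e (nat_lit 335986) (nat_lit 1) (.e (nat_lit 57847) (nat_lit 252) (.e (nat_lit 57373) (nat_lit 2) (.e (nat_lit 90158) (nat_lit 11) .nil)))))) (.g (nat_lit 4) .nil .nil))) 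
(.lf (nat_lit 140705) (.g (nat_lit 3007) (.e (nat_lit 24658) (nat_lit 13) (.e (nat_lit 393229) (nat_lit 9) (.e (nat_lit 335994) (nat_lit 1) (.e (nat_lit 57847) (nat_lit 252) (.e (nat_lit 57373) (nat_lit 2) (.e (nat_lit 90158) (nat_lit 11) .nil)))))) (.g (nat_lit 0) .nil .nil)))) (.nd (nat_lit 5) 
(.lf (nat_lit 140689) (.g (nat_lit 3267) (.e (nat_lit 24658) (nat_lit 13) (.e (nat_lit 393229) (nat_lit 9) (.e (nat_lit 335988) (nat_lit 1) (.e (nat_lit 57852) (nat_lit 252) (.e (nat_lit 57371) (nat_lit 2) (.e (nat_lit 90158) (nat_lit 11) .nil)))))) (.g (nat_lit 0) .nil .nil))) 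
(.lf (nat_lit 140721) (.g (nat_lit 3513) (.e (nat_lit 24658) (nat_lit 13) (.e (nat_lit 393229) (nat_lit 9) (.e (nat_lit 335995) (nat_lit 1) (.e (nat_lit 57846) (nat_lit 252) (.e (nat_lit 57373) (nat_lit 2) (.e (nat_lit 90158) (nat_lit 11) .nil)))))) (.g (nat_lit 6) .nil .nil))))) (.nd (nat_lit 4) (.nd (nat_lit 5) 
(.lf (nat_lit 140681) (.g (nat_lit 3217) (.e (nat_lit 24658) (nat_lit 13) (.e (nat_lit 393229) (nat_lit 9) (.e (nat_lit 335986) (nat_lit 1) (.e (nat_lit 57847) (nat_lit 252) (.e (nat_lit 57373) (nat_lit 2) (.e (nat_lit 90158) (nat_lit 11) .nil)))))) (.g (nat_lit 0) .nil .nil))) 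
(.lf (nat_lit 140713) (.g (nat_lit 2259) (.e (nat_lit 24658) (nat_lit 13) (.e (nat_lit 393229) (nat_lit 9) (.e (nat_lit 335994) (nat_lit 1) (.e (nat_lit 57852) (nat_lit 252) (.e (nat_lit 57370) (nat_lit 2) (.e (nat_lit 90158) (nat_lit 11) .nil)))))) (.g (nat_lit 5) .nil .nil)))) (.nd (nat_lit 5) 
(.lf (nat_lit 140697) (.g (nat_lit 2869) (.e (nat_lit 24658) (nat_lit 13) (.e (nat_lit 393229) (nat_lit 9) (.e (nat_lit 335994) (nat_lit 1) (.e (nat_lit 57844) (nat_lit 252) (.e (nat_lit 57370) (nat_lit 2) (.e (nat_lit 90158) (nat_lit 11) .nil)))))) (.g (nat_lit 0) .nil .nil))) 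
(.lf (nat_lit 140729) (.g (nat_lit 3869) (.e (nat_lit 24658) (nat_lit 13) (.e (nat_lit 393229) (nat_lit 9) (.e (nat_lit 335995) (nat_lit 1) (.e (nat_lit 57849) (nat_lit 252) (.e (nat_lit 57372) (nat_lit 2) (.e (nat_lit 90158) (nat_lit 11) .nil)))))) (.g (nat_lit 0) .nil .nil)))))) (.nd (nat_lit 3) (.nd (nat_lit 4) (.nd (nat_lit 5) 
(.lf (nat_lit 140677) (.g (nat_lit 2031) (.e (nat_lit 24658) (nat_lit 13) (.e (nat_lit 393228) (nat_lit 9) (.e (nat_lit 335996) (nat_lit 1) (.e (nat_lit 57853) (nat_lit 252) (.e (nat_lit 57371) (nat_lit 2) (.e (nat_lit 90158) (nat_lit 11) .nil)))))) (.g (nat_lit 4) .nil .nil))) 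
(.lf (nat_lit 140709) (.g (nat_lit 2935) (.e (nat_lit 24658) (nat_lit 13) (.e (nat_lit 393229) (nat_lit 9) (.e (nat_lit 335994) (nat_lit 1) (.e (nat_lit 57849) (nat_lit 252) (.e (nat_lit 57370) (nat_lit 2) (.e (nat_lit 90158) (nat_lit 11) .nil)))))) (.g (nat_lit 0) .nil .nil)))) (.nd (nat_lit 5) 
(.lf (nat_lit 140693) (.g (nat_lit 3047) (.e (nat_lit 24658) (nat_lit 13) (.e (nat_lit 393229) (nat_lit 9) (.e (nat_lit 335988) (nat_lit 1) (.e (nat_lit 57854) (nat_lit 252) (.e (nat_lit 57370) (nat_lit 2) (.e (nat_lit 90158) (nat_lit 11) .nil)))))) (.g (nat_lit 0) .nil .nil))) 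
(.lf (nat_lit 140725) (.g (nat_lit 3509) (.e (nat_lit 24658) (nat_lit 13) (.e (nat_lit 393229) (nat_lit 9) (.e (nat_lit 335995) (nat_lit 1) (.e (nat_lit 57847) (nat_lit 252) (.e (nat_lit 57373) (nat_lit 2) (.e (nat_lit 90158) (nat_lit 11) .nil)))))) (.g (nat_lit 0) .nil .nil))))) (.nd (nat_lit 4) (.nd (nat_lit 5) 
(.lf (nat_lit 140685) (.g (nat_lit 2084) (.e (nat_lit 24658) (nat_lit 13) (.e (nat_lit 393229) (nat_lit 9) (.e (nat_lit 335987) (nat_lit 1) (.e (nat_lit 57852) (nat_lit 252) (.e (nat_lit 57371) (nat_lit 2) (.e (nat_lit 90158) (nat_lit 11) .nil)))))) (.g (nat_lit 4) .nil .nil))) 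
(.lf (nat_lit 140717) (.g (nat_lit 2346) (.e (nat_lit 24658) (nat_lit 13) (.e (nat_lit 393229) (nat_lit 9) (.e (nat_lit 335995) (nat_lit 1) (.e (nat_lit 57844) (nat_lit 252) (.e (nat_lit 57371) (nat_lit 2) (.e (nat_lit 90160) (nat_lit 11) .nil)))))) (.g (nat_lit 4) .nil .nil)))) (.nd (nat_lit 5) 
(.lf (nat_lit 140701) (.g (nat_lit 2859) (.e (nat_lit 24658) (nat_lit 13) (.e (nat_lit 393229) (nat_lit 9) (.e (nat_lit 335994) (nat_lit 1) (.e (nat_lit 57846) (nat_lit 252) (.e (nat_lit 57371) (nat_lit 2) (.e (nat_lit 90158) (nat_lit 11) .nil)))))) (.g (nat_lit 5) .nil .nil))) 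
(.lf (nat_lit 140733) (.g (nat_lit 3154) (.e (nat_lit 24658) (nat_lit 13) (.e (nat_lit 393229) (nat_lit 9) (.e (nat_lit 335995) (nat_lit 1) (.e (nat_lit 57854) (nat_lit 252) (.e (nat_lit 57371) (nat_lit 2) .nil))))) .nil)))))) (.nd (nat_lit 2) (.nd (nat_lit 3) (.nd (nat_lit 4) (.nd (nat_lit 5) 
(.lf (nat_lit 140675) (.g (nat_lit 3535) (.e (nat_lit 24658) (nat_lit 13) (.e (nat_lit 393228) (nat_lit 9) (.e (nat_lit 335995) (nat_lit 1) (.e (nat_lit 57849) (nat_lit 252) (.e (nat_lit 57372) (nat_lit 2) (.e (nat_lit 90160) (nat_lit 11) .nil)))))) (.g (nat_lit 5) .nil .nil))) 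
(.lf (nat_lit 140707) (.g (nat_lit 3119) (.e (nat_lit 24658) (nat_lit 13) (.e (nat_lit 393229) (nat_lit 9) (.e (nat_lit 335994) (nat_lit 1) (.e (nat_lit 57847) (nat_lit 252) (.e (nat_lit 57375) (nat_lit 2) (.e (nat_lit 90160) (nat_lit 11) .nil)))))) (.g (nat_lit 0) .nil .nil)))) (.nd (nat_lit 5) 
(.lf (nat_lit 140691) (.g (nat_lit 2600) (.e (nat_lit 24658) (nat_lit 13) (.e (nat_lit 393229) (nat_lit 9) (.e (nat_lit 335988) (nat_lit 1) (.e (nat_lit 57853) (nat_lit 252) (.e (nat_lit 57370) (nat_lit 2) .nil))))) .nil)) 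
(.lf (nat_lit 140723) (.g (nat_lit 2213) (.e (nat_lit 24658) (nat_lit 13) (.e (nat_lit 393229) (nat_lit 9) (.e (nat_lit 335995) (nat_lit 1) (.e (nat_lit 57847) (nat_lit 252) (.e (nat_lit 57371) (nat_lit 2) (.e (nat_lit 90158) (nat_lit 11) .nil)))))) (.g (nat_lit 4) .nil .nil))))) (.nd (nat_lit 4) (.nd (nat_lit 5) 
(.lf (nat_lit 140683) (.g (nat_lit 3235) (.e (nat_lit 24658) (nat_lit 13) (.e (nat_lit 393229) (nat_lit 9) (.e (nat_lit 335986) (nat_lit 1) (.e (nat_lit 57853) (nat_lit 252) (.e (nat_lit 57371) (nat_lit 2) (.e (nat_lit 90158) (nat_lit 11) .nil)))))) (.g (nat_lit 6) .nil .nil))) 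
(.lf (nat_lit 140715) (.g (nat_lit 2906) (.e (nat_lit 24658) (nat_lit 13) (.e (nat_lit 393229) (nat_lit 9) (.e (nat_lit 335994) (nat_lit 1) (.e (nat_lit 57853) (nat_lit 252) (.e (nat_lit 57370) (nat_lit 2) (.e (nat_lit 90158) (nat_lit 11) .nil)))))) (.g (nat_lit 0) .nil .nil)))) (.nd (nat_lit 5) 
(.lf (nat_lit 140699) (.g (nat_lit 3459) (.e (nat_lit 24658) (nat_lit 13) (.e (nat_lit 393229) (nat_lit 9) (.e (nat_lit 335994) (nat_lit 1) (.e (nat_lit 57844) (nat_lit 252) (.e (nat_lit 57375) (nat_lit 2) (.e (nat_lit 90160) (nat_lit 11) .nil)))))) (.g (nat_lit 6) .nil .nil))) 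
(.lf (nat_lit 140731) (.g (nat_lit 2493) (.e (nat_lit 24658) (nat_lit 13) (.e (nat_lit 393229) (nat_lit 9) (.e (nat_lit 335995) (nat_lit 1) (.e (nat_lit 57851) (nat_lit 252) .nil)))) .nil))))) (.nd (nat_lit 3) (.nd (nat_lit 4) (.nd (nat_lit 5) 
(.lf (nat_lit 140679) (.g (nat_lit 3073) (.e (nat_lit 24658) (nat_lit 13) (.e (nat_lit 393229) (nat_lit 9) (.e (nat_lit 335986) (nat_lit 1) (.e (nat_lit 57847) (nat_lit 252) (.e (nat_lit 57370) (nat_lit 2) (.e (nat_lit 90158) (nat_lit 11) .nil)))))) (.g (nat_lit 0) .nil .nil))) 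
(.lf (nat_lit 140711) (.g (nat_lit 2540) (.e (nat_lit 24658) (nat_lit 13) (.e (nat_lit 393229) (nat_lit 9) (.e (nat_lit 335994) (nat_lit 1) (.e (nat_lit 57851) (nat_lit 252) (.e (nat_lit 57370) (nat_lit 2) (.e (nat_lit 90158) (nat_lit 11) .nil)))))) (.g (nat_lit 0) .nil .nil)))) (.nd (nat_lit 5) 
(.lf (nat_lit 140695) (.g (nat_lit 2359) (.e (nat_lit 24658) (nat_lit 13) (.e (nat_lit 393229) (nat_lit 9) (.e (nat_lit 335993) (nat_lit 1) (.e (nat_lit 57847) (nat_lit 252) (.e (nat_lit 57370) (nat_lit 2) (.e (nat_lit 90158) (nat_lit 11) .nil)))))) (.g (nat_lit 5) .nil .nil))) 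
(.lf (nat_lit 140727) (.g (nat_lit 1907) (.e (nat_lit 24658) (nat_lit 13) (.e (nat_lit 393229) (nat_lit 9) (.e (nat_lit 335995) (nat_lit 1) (.e (nat_lit 57848) (nat_lit 252) (.e (nat_lit 57374) (nat_lit 2) (.e (nat_lit 90156) (nat_lit 11) .nil)))))) (.g (nat_lit 4) .nil .nil))))) (.nd (nat_lit 4) (.nd (nat_lit 5) 
(.lf (nat_lit 140687) (.g (nat_lit 2932) (.e (nat_lit 24658) (nat_lit 13) (.e (nat_lit 393229) (nat_lit 9) (.e (nat_lit 335987) (nat_lit 1) (.e (nat_lit 57854) (nat_lit 252) (.e (nat_lit 57371) (nat_lit 2) (.e (nat_lit 90158) (nat_lit 11) .nil)))))) (.g (nat_lit 6) .nil .nil))) 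
(.lf (nat_lit 140719) (.g (nat_lit 2427) (.e (nat_lit 24658) (nat_lit 13) (.e (nat_lit 393229) (nat_lit 9) (.e (nat_lit 335995) (nat_lit 1) (.e (nat_lit 57845) (nat_lit 252) .nil)))) .nil))) (.nd (nat_lit 5) 
(.lf (nat_lit 140703) (.g (nat_lit 2908) (.e (nat_lit 24658) (nat_lit 13) (.e (nat_lit 393229) (nat_lit 9) (.e (nat_lit 335994) (nat_lit 1) (.e (nat_lit 57847) (nat_lit 252) (.e (nat_lit 57370) (nat_lit 2) (.e (nat_lit 90158) (nat_lit 11) .nil)))))) (.g (nat_lit 0) .nil .nil))) 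
(.lf (nat_lit 140735) (.g (nat_lit 2294) (.e (nat_lit 24658) (nat_lit 13) (.e (nat_lit 393229) (nat_lit 9) (.e (nat_lit 335996) (nat_lit 1) (.e (nat_lit 57851) (nat_lit 252) (.e (nat_lit 57371) (nat_lit 2) (.e (nat_lit 90156) (nat_lit 11) .nil)))))) (.g (nat_lit 4) .nil .nil)))))))))

noncomputable def tv1869 : DT := (.nd (nat_lit 0) (.nd (nat_lit 1) (.nd (nat_lit 2) (.nd (nat_lit 3) (.nd (nat_lit 4) (.nd (nat_lit 5) 
(.lf (nat_lit 140736) (.g (nat_lit 3113) (.e (nat_lit 24658) (nat_lit 13) (.e (nat_lit 393229) (nat_lit 9) (.e (nat_lit 335996) (nat_lit 1) (.e (nat_lit 57851) (nat_lit 252) (.e (nat_lit 57373) (nat_lit 2) (.e (nat_lit 90158) (nat_lit 11) .nil)))))) (.g (nat_lit 5) .nil .nil))) 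
(.lf (nat_lit 140768) (.g (nat_lit 1600) (.e (nat_lit 24659) (nat_lit 13) (.e (nat_lit 393224) (nat_lit 9) (.e (nat_lit 335996) (nat_lit 1) (.e (nat_lit 57852) (nat_lit 252) (.e (nat_lit 57371) (nat_lit 2) .nil))))) .nil))) (.nd (nat_lit 5) 
(.lf (nat_lit 140752) (.g (nat_lit 912) (.e (nat_lit 24658) (nat_lit 13) (.e (nat_lit 393260) (nat_lit 21) (.e (nat_lit 409639) (nat_lit 15) .nil))) .nil)) 
(.lf (nat_lit 140784) (.g (nat_lit 2086) (.e (nat_lit 24659) (nat_lit 13) (.e (nat_lit 393225) (nat_lit 9) (.e (nat_lit 335995) (nat_lit 1) (.e (nat_lit 57853) (nat_lit 252) .nil)))) .nil)))) (.nd (nat_lit 4) (.nd (nat_lit 5) 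
(.lf (nat_lit 140744) (.g (nat_lit 3760) (.e (nat_lit 24658) (nat_lit 13) (.e (nat_lit 393229) (nat_lit 9) (.e (nat_lit 335996) (nat_lit 1) (.e (nat_lit 57854) (nat_lit 252) (.e (nat_lit 57371) (nat_lit 2) (.e (nat_lit 90158) (nat_lit 11) .nil)))))) (.g (nat_lit 0) .nil .nil))) 
(.lf (nat_lit 140776) (.g (nat_lit 2315) (.e (nat_lit 24659) (nat_lit 13) (.e (nat_lit 393225) (nat_lit 9) (.e (nat_lit 335995) (nat_lit 1) (.e (nat_lit 57847) (nat_lit 252) (.e (nat_lit 57372) (nat_lit 2) (.e (nat_lit 90158) (nat_lit 11) .nil)))))) (.g (nat_lit 4) .nil .nil)))) (.nd (nat_lit 5) 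
(.lf (nat_lit 140760) (.g (nat_lit 2085) (.e (nat_lit 24658) (nat_lit 13) (.e (nat_lit 393300) (nat_lit 27) (.e (nat_lit 491560) (nat_lit 10) (.e (nat_lit 344179) (nat_lit 44) (.e (nat_lit 778465) (nat_lit 11) .nil))))) (.g (nat_lit 4) .nil .nil))) 
(.lf (nat_lit 140792) (.g (nat_lit 2016) (.e (nat_lit 24659) (nat_lit 13) (.e (nat_lit 393225) (nat_lit 9) (.e (nat_lit 335996) (nat_lit 1) (.e (nat_lit 57854) (nat_lit 252) (.e (nat_lit 57370) (nat_lit 2) .nil))))) .nil))))) (.nd (nat_lit 3) (.nd (nat_lit 4) (.nd (nat_lit 5) 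
(.lf (nat_lit 140740) (.g (nat_lit 3253) (.e (nat_lit 24658) (nat_lit 13) (.e (nat_lit 393229) (nat_lit 9) (.e (nat_lit 335996) (nat_lit 1) (.e (nat_lit 57852) (nat_lit 252) (.e (nat_lit 57373) (nat_lit 2) (.e (nat_lit 90160) (nat_lit 11) .nil)))))) (.g (nat_lit 5) .nil .nil))) 
(.lf (nat_lit 140772) (.g (nat_lit 1799) (.e (nat_lit 24659) (nat_lit 13) (.e (nat_lit 393225) (nat_lit 9) (.e (nat_lit 335988) (nat_lit 1) (.e (nat_lit 57854) (nat_lit 252) (.e (nat_lit 57371) (nat_lit 2) (.e (nat_lit 90158) (nat_lit 11) .nil)))))) (.g (nat_lit 4) .nil .nil)))) (.nd (nat_lit 5) 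
(.lf (nat_lit 140756) (.g (nat_lit 3570) (.e (nat_lit 24658) (nat_lit 13) (.e (nat_lit 393299) (nat_lit 27) (.e (nat_lit 491556) (nat_lit 9) (.e (nat_lit 336051) (nat_lit 6) (.e (nat_lit 147495) (nat_lit 11) .nil))))) (.g (nat_lit 5) .nil .nil))) 
(.lf (nat_lit 140788) (.g (nat_lit 2388) (.e (nat_lit 24659) (nat_lit 13) (.e (nat_lit 393225) (nat_lit 9) (.e (nat_lit 335996) (nat_lit 1) (.e (nat_lit 57852) (nat_lit 252) (.e (nat_lit 57371) (nat_lit 2) (.e (nat_lit 90158) (nat_lit 11) .nil)))))) (.g (nat_lit 4) .nil .nil))))) (.nd (nat_lit 4) (.nd (nat_lit 5) 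
(.lf (nat_lit 140748) (.g (nat_lit 444) (.e (nat_lit 24658) (nat_lit 13) (.e (nat_lit 393238) (nat_lit 17) (.e (nat_lit 7107) (nat_lit 380) .nil))) .nil)) 
(.lf (nat_lit 140780) (.g (nat_lit 1918) (.e (nat_lit 24659) (nat_lit 13) (.e (nat_lit 393225) (nat_lit 9) (.e (nat_lit 335995) (nat_lit 1) (.e (nat_lit 57848) (nat_lit 252) (.e (nat_lit 57372) (nat_lit 2) (.e (nat_lit 90158) (nat_lit 11) .nil)))))) (.g (nat_lit 4) .nil .nil)))) (.nd (nat_lit 5) 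
(.lf (nat_lit 140764) (.g (nat_lit 1883) (.e (nat_lit 24658) (nat_lit 13) (.e (nat_lit 393301) (nat_lit 27) (.e (nat_lit 491559) (nat_lit 10) (.e (nat_lit 344179) (nat_lit 44) .nil)))) .nil)) 
(.lf (nat_lit 140796) (.g (nat_lit 2099) (.e (nat_lit 24659) (nat_lit 13) (.e (nat_lit 393229) (nat_lit 9) (.e (nat_lit 335986) (nat_lit 1) (.e (nat_lit 57847) (nat_lit 252) (.e (nat_lit 57375) (nat_lit 2) .nil))))) .nil)))))) (.nd (nat_lit 2) (.nd (nat_lit 3) (.nd (nat_lit 4) (.nd (nat_lit 5) 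
(.lf (nat_lit 140738) (.g (nat_lit 2502) (.e (nat_lit 24658) (nat_lit 13) (.e (nat_lit 393229) (nat_lit 9) (.e (nat_lit 335996) (nat_lit 1) (.e (nat_lit 57852) (nat_lit 252) (.e (nat_lit 57371) (nat_lit 2) (.e (nat_lit 90160) (nat_lit 11) .nil)))))) (.g (nat_lit 4) .nil .nil))) 
(.lf (nat_lit 140770) (.g (nat_lit 1927) (.e (nat_lit 24659) (nat_lit 13) (.e (nat_lit 393225) (nat_lit 9) (.e (nat_lit 335986) (nat_lit 1) (.e (nat_lit 57847) (nat_lit 252) (.e (nat_lit 57372) (nat_lit 2) (.e (nat_lit 90158) (nat_lit 11) .nil)))))) (.g (nat_lit 4) .nil .nil)))) (.nd (nat_lit 5) 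
(.lf (nat_lit 140754) (.g (nat_lit 2026) (.e (nat_lit 24658) (nat_lit 13) (.e (nat_lit 393281) (nat_lit 23) (.e (nat_lit 426100) (nat_lit 1) (.e (nat_lit 164332) (nat_lit 230) (.e (nat_lit 163850) (nat_lit 0) .nil))))) .nil)) 
(.lf (nat_lit 140786) (.g (nat_lit 2479) (.e (nat_lit 24659) (nat_lit 13) (.e (nat_lit 393225) (nat_lit 9) (.e (nat_lit 335996) (nat_lit 1) (.e (nat_lit 57851) (nat_lit 252) (.e (nat_lit 57371) (nat_lit 2) (.e (nat_lit 90158) (nat_lit 11) .nil)))))) (.g (nat_lit 5) .nil .nil))))) (.nd (nat_lit 4) (.nd (nat_lit 5) 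
(.lf (nat_lit 140746) (.g (nat_lit 1169) (.e (nat_lit 24658) (nat_lit 13) (.e (nat_lit 393234) (nat_lit 17) (.e (nat_lit 7587) (nat_lit 406) (.e (nat_lit 65578) (nat_lit 6) .nil)))) .nil)) 
(.lf (nat_lit 140778) (.g (nat_lit 1253) (.e (nat_lit 24659) (nat_lit 13) (.e (nat_lit 393225) (nat_lit 9) (.e (nat_lit 335995) (nat_lit 1) (.e (nat_lit 57848) (nat_lit 252) .nil)))) .nil))) (.nd (nat_lit 5) 
(.lf (nat_lit 140762) (.g (nat_lit 718) (.e (nat_lit 24658) (nat_lit 13) (.e (nat_lit 393301) (nat_lit 27) (.e (nat_lit 499456) (nat_lit 9) .nil))) .nil)) 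
(.lf (nat_lit 140794) (.g (nat_lit 745) (.e (nat_lit 24659) (nat_lit 13) (.e (nat_lit 393229) (nat_lit 9) (.e (nat_lit 335986) (nat_lit 1) .nil))) .nil))))) (.nd (nat_lit 3) (.nd (nat_lit 4) (.nd (nat_lit 5) 
(.lf (nat_lit 140742) (.g (nat_lit 2245) (.e (nat_lit 24658) (nat_lit 13) (.e (nat_lit 393229) (nat_lit 9) (.e (nat_lit 335996) (nat_lit 1) (.e (nat_lit 57853) (nat_lit 252) (.e (nat_lit 57371) (nat_lit 2) (.e (nat_lit 90160) (nat_lit 11) .nil)))))) (.g (nat_lit 4) .nil .nil))) 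
(.lf (nat_lit 140774) (.g (nat_lit 2533) (.e (nat_lit 24659) (nat_lit 13) (.e (nat_lit 393225) (nat_lit 9) (.e (nat_lit 335995) (nat_lit 1) (.e (nat_lit 57844) (nat_lit 252) (.e (nat_lit 57371) (nat_lit 2) .nil))))) .nil))) (.nd (nat_lit 5) 
(.lf (nat_lit 140758) (.g (nat_lit 2275) (.e (nat_lit 24658) (nat_lit 13) (.e (nat_lit 393299) (nat_lit 27) (.e (nat_lit 491560) (nat_lit 10) (.e (nat_lit 344179) (nat_lit 44) (.e (nat_lit 778466) (nat_lit 11) .nil))))) (.g (nat_lit 4) .nil .nil))) 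
(.lf (nat_lit 140790) (.g (nat_lit 2660) (.e (nat_lit 24659) (nat_lit 13) (.e (nat_lit 393225) (nat_lit 9) (.e (nat_lit 335996) (nat_lit 1) (.e (nat_lit 57852) (nat_lit 252) (.e (nat_lit 57373) (nat_lit 2) (.e (nat_lit 90158) (nat_lit 11) .nil)))))) (.g (nat_lit 4) .nil .nil))))) (.nd (nat_lit 4) (.nd (nat_lit 5) 
(.lf (nat_lit 140750) (.g (nat_lit 807) (.e (nat_lit 24658) (nat_lit 13) (.e (nat_lit 393260) (nat_lit 21) (.e (nat_lit 409608) (nat_lit 10) .nil))) .nil)) 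
(.lf (nat_lit 140782) (.g (nat_lit 2844) (.e (nat_lit 24659) (nat_lit 13) (.e (nat_lit 393225) (nat_lit 9) (.e (nat_lit 335995) (nat_lit 1) (.e (nat_lit 57849) (nat_lit 252) (.e (nat_lit 57372) (nat_lit 2) .nil))))) .nil))) (.nd (nat_lit 5) 
(.lf (nat_lit 140766) (.g (nat_lit 3691) (.e (nat_lit 24658) (nat_lit 13) (.e (nat_lit 393301) (nat_lit 27) (.e (nat_lit 491560) (nat_lit 10) (.e (nat_lit 344179) (nat_lit 44) (.e (nat_lit 778464) (nat_lit 11) .nil))))) (.g (nat_lit 0) .nil .nil))) 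
(.lf (nat_lit 140798) (.g (nat_lit 2628) (.e (nat_lit 24659) (nat_lit 13) (.e (nat_lit 393229) (nat_lit 9) (.e (nat_lit 335986) (nat_lit 1) (.e (nat_lit 57849) (nat_lit 252) (.e (nat_lit 57372) (nat_lit 2) (.e (nat_lit 90158) (nat_lit 11) .nil)))))) (.g (nat_lit 4) .nil .nil)))))))) (.nd (nat_lit 1) (.nd (nat_lit 2) (.nd (nat_lit 3) (.nd (nat_lit 4) (.nd (nat_lit 5) 
(.lf (nat_lit 140737) (.g (nat_lit 3615) (.e (nat_lit 24658) (nat_lit 13) (.e (nat_lit 393229) (nat_lit 9) (.e (nat_lit 335996) (nat_lit 1) (.e (nat_lit 57852) (nat_lit 252) (.e (nat_lit 57370) (nat_lit 2) (.e (nat_lit 90158) (nat_lit 11) .nil)))))) (.g (nat_lit 0) .nil .nil))) 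
(.lf (nat_lit 140769) (.g (nat_lit 1757) (.e (nat_lit 24659) (nat_lit 13) (.e (nat_lit 393225) (nat_lit 9) (.e (nat_lit 335986) (nat_lit 1) (.e (nat_lit 57847) (nat_lit 252) (.e (nat_lit 57370) (nat_lit 2) .nil))))) .nil))) (.nd (nat_lit 5) 
(.lf (nat_lit 140753) (.g (nat_lit 1973) (.e (nat_lit 24658) (nat_lit 13) (.e (nat_lit 393281) (nat_lit 23) (.e (nat_lit 426100) (nat_lit 1) (.e (nat_lit 164329) (nat_lit 230) (.e (nat_lit 163850) (nat_lit 0) .nil))))) .nil)) 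
(.lf (nat_lit 140785) (.g (nat_lit 1681) (.e (nat_lit 24659) (nat_lit 13) (.e (nat_lit 393225) (nat_lit 9) (.e (nat_lit 335996) (nat_lit 1) (.e (nat_lit 57851) (nat_lit 252) (.e (nat_lit 57370) (nat_lit 2) .nil))))) .nil)))) (.nd (nat_lit 4) (.nd (nat_lit 5) 
(.lf (nat_lit 140745) (.g (nat_lit 4249) (.e (nat_lit 24658) (nat_lit 13) (.e (nat_lit 393229) (nat_lit 9) (.e (nat_lit 335996) (nat_lit 1) (.e (nat_lit 57854) (nat_lit 252) (.e (nat_lit 57373) (nat_lit 2) (.e (nat_lit 90158) (nat_lit 11) .nil)))))) (.g (nat_lit 0) .nil .nil))) 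
(.lf (nat_lit 140777) (.g (nat_lit 2571) (.e (nat_lit 24659) (nat_lit 13) (.e (nat_lit 393225) (nat_lit 9) (.e (nat_lit 335995) (nat_lit 1) (.e (nat_lit 57847) (nat_lit 252) (.e (nat_lit 57373) (nat_lit 2) (.e (nat_lit 90158) (nat_lit 11) .nil)))))) (.g (nat_lit 5) .nil .nil)))) (.nd (nat_lit 5) 
(.lf (nat_lit 140761) (.g (nat_lit 745) (.e (nat_lit 24658) (nat_lit 13) (.e (nat_lit 393301) (nat_lit 27) (.e (nat_lit 491551) (nat_lit 9) .nil))) .nil)) 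
(.lf (nat_lit 140793) (.g (nat_lit 2359) (.e (nat_lit 24659) (nat_lit 13) (.e (nat_lit 393225) (nat_lit 9) (.e (nat_lit 335996) (nat_lit 1) (.e (nat_lit 57854) (nat_lit 252) (.e (nat_lit 57371) (nat_lit 2) (.e (nat_lit 90158) (nat_lit 11) .nil)))))) (.g (nat_lit 5) .nil .nil)))))) (.nd (nat_lit 3) (.nd (nat_lit 4) (.nd (nat_lit 5) 
(.lf (nat_lit 140741) (.g (nat_lit 3550) (.e (nat_lit 24658) (nat_lit 13) (.e (nat_lit 393229) (nat_lit 9) (.e (nat_lit 335996) (nat_lit 1) (.e (nat_lit 57853) (nat_lit 252) (.e (nat_lit 57370) (nat_lit 2) (.e (nat_lit 90158) (nat_lit 11) .nil)))))) (.g (nat_lit 0) .nil .nil))) 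
(.lf (nat_lit 140773) (.g (nat_lit 2637) (.e (nat_lit 24659) (nat_lit 13) (.e (nat_lit 393225) (nat_lit 9) (.e (nat_lit 335988) (nat_lit 1) (.e (nat_lit 57854) (nat_lit 252) (.e (nat_lit 57373) (nat_lit 2) (.e (nat_lit 90158) (nat_lit 11) .nil)))))) (.g (nat_lit 5) .nil .nil)))) (.nd (nat_lit 5) 
(.lf (nat_lit 140757) (.g (nat_lit 2819) (.e (nat_lit 24658) (nat_lit 13) (.e (nat_lit 393299) (nat_lit 27) (.e (nat_lit 491556) (nat_lit 9) (.e (nat_lit 336051) (nat_lit 6) (.e (nat_lit 147496) (nat_lit 11) .nil))))) (.g (nat_lit 4) .nil .nil))) 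
(.lf (nat_lit 140789) (.g (nat_lit 2656) (.e (nat_lit 24659) (nat_lit 13) (.e (nat_lit 393225) (nat_lit 9) (.e (nat_lit 335996) (nat_lit 1) (.e (nat_lit 57852) (nat_lit 252) (.e (nat_lit 57373) (nat_lit 2) .nil))))) .nil)))) (.nd (nat_lit 4) (.nd (nat_lit 5) 
(.lf (nat_lit 140749) (.g (nat_lit 1641) (.e (nat_lit 24658) (nat_lit 13) (.e (nat_lit 393238) (nat_lit 17) (.e (nat_lit 7107) (nat_lit 380) (.e (nat_lit 164273) (nat_lit 221) .nil)))) .nil)) 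
(.lf (nat_lit 140781) (.g (nat_lit 1947) (.e (nat_lit 24659) (nat_lit 13) (.e (nat_lit 393225) (nat_lit 9) (.e (nat_lit 335995) (nat_lit 1) (.e (nat_lit 57848) (nat_lit 252) (.e (nat_lit 57374) (nat_lit 2) .nil))))) .nil))) (.nd (nat_lit 5) 
(.lf (nat_lit 140765) (.g (nat_lit 2805) (.e (nat_lit 24658) (nat_lit 13) (.e (nat_lit 393301) (nat_lit 27) (.e (nat_lit 491560) (nat_lit 10) (.e (nat_lit 344179) (nat_lit 44) (.e (nat_lit 778463) (nat_lit 11) .nil))))) (.g (nat_lit 4) .nil .nil))) 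
(.lf (nat_lit 140797) (.g (nat_lit 2827) (.e (nat_lit 24659) (nat_lit 13) (.e (nat_lit 393229) (nat_lit 9) (.e (nat_lit 335986) (nat_lit 1) (.e (nat_lit 57847) (nat_lit 252) (.e (nat_lit 57375) (nat_lit 2) (.e (nat_lit 90160) (nat_lit 11) .nil)))))) (.g (nat_lit 5) .nil .nil))))))) (.nd (nat_lit 2) (.nd (nat_lit 3) (.nd (nat_lit 4) (.nd (nat_lit 5) 
(.lf (nat_lit 140739) (.g (nat_lit 3937) (.e (nat_lit 24658) (nat_lit 13) (.e (nat_lit 393229) (nat_lit 9) (.e (nat_lit 335996) (nat_lit 1) (.e (nat_lit 57852) (nat_lit 252) (.e (nat_lit 57373) (nat_lit 2) (.e (nat_lit 90158) (nat_lit 11) .nil)))))) (.g (nat_lit 0) .nil .nil))) 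
(.lf (nat_lit 140771) (.g (nat_lit 1964) (.e (nat_lit 24659) (nat_lit 13) (.e (nat_lit 393225) (nat_lit 9) (.e (nat_lit 335986) (nat_lit 1) (.e (nat_lit 57847) (nat_lit 252) (.e (nat_lit 57375) (nat_lit 2) (.e (nat_lit 90158) (nat_lit 11) .nil)))))) (.g (nat_lit 4) .nil .nil)))) (.nd (nat_lit 5) 
(.lf (nat_lit 140755) (.g (nat_lit 3439) (.e (nat_lit 24658) (nat_lit 13) (.e (nat_lit 393298) (nat_lit 27) (.e (nat_lit 491556) (nat_lit 9) (.e (nat_lit 336051) (nat_lit 6) (.e (nat_lit 147496) (nat_lit 11) .nil))))) (.g (nat_lit 5) .nil .nil))) 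
(.lf (nat_lit 140787) (.g (nat_lit 2255) (.e (nat_lit 24659) (nat_lit 13) (.e (nat_lit 393225) (nat_lit 9) (.e (nat_lit 335996) (nat_lit 1) (.e (nat_lit 57852) (nat_lit 252) (.e (nat_lit 57370) (nat_lit 2) .nil))))) .nil)))) (.nd (nat_lit 4) (.nd (nat_lit 5) 
(.lf (nat_lit 140747) (.g (nat_lit 3768) (.e (nat_lit 24658) (nat_lit 13) (.e (nat_lit 393234) (nat_lit 17) (.e (nat_lit 7587) (nat_lit 406) (.e (nat_lit 65580) (nat_lit 6) (.e (nat_lit 147495) (nat_lit 11) .nil))))) (.g (nat_lit 0) .nil .nil))) 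
(.lf (nat_lit 140779) (.g (nat_lit 2261) (.e (nat_lit 24659) (nat_lit 13) (.e (nat_lit 393225) (nat_lit 9) (.e (nat_lit 335995) (nat_lit 1) (.e (nat_lit 57848) (nat_lit 252) (.e (nat_lit 57372) (nat_lit 2) (.e (nat_lit 90156) (nat_lit 11) .nil)))))) (.g (nat_lit 5) .nil .nil)))) (.nd (nat_lit 5) 
(.lf (nat_lit 140763) (.g (nat_lit 1769) (.e (nat_lit 24658) (nat_lit 13) (.e (nat_lit 393301) (nat_lit 27) (.e (nat_lit 491558) (nat_lit 10) (.e (nat_lit 344180) (nat_lit 44) .nil)))) .nil)) 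
(.lf (nat_lit 140795) (.g (nat_lit 2149) (.e (nat_lit 24659) (nat_lit 13) (.e (nat_lit 393229) (nat_lit 9) (.e (nat_lit 335986) (nat_lit 1) (.e (nat_lit 57847) (nat_lit 252) (.e (nat_lit 57373) (nat_lit 2) (.e (nat_lit 90158) (nat_lit 11) .nil)))))) (.g (nat_lit 4) .nil .nil)))))) (.nd (nat_lit 3) (.nd (nat_lit 4) (.nd (nat_lit 5) 
(.lf (nat_lit 140743) (.g (nat_lit 3497) (.e (nat_lit 24658) (nat_lit 13) (.e (nat_lit 393229) (nat_lit 9) (.e (nat_lit 335996) (nat_lit 1) (.e (nat_lit 57854) (nat_lit 252) (.e (nat_lit 57370) (nat_lit 2) (.e (nat_lit 90158) (nat_lit 11) .nil)))))) (.g (nat_lit 0) .nil .nil))) 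
(.lf (nat_lit 140775) (.g (nat_lit 2199) (.e (nat_lit 24659) (nat_lit 13) (.e (nat_lit 393225) (nat_lit 9) (.e (nat_lit 335995) (nat_lit 1) (.e (nat_lit 57847) (nat_lit 252) (.e (nat_lit 57370) (nat_lit 2) .nil))))) .nil))) (.nd (nat_lit 5) 
(.lf (nat_lit 140759) (.g (nat_lit 3450) (.e (nat_lit 24658) (nat_lit 13) (.e (nat_lit 393300) (nat_lit 27) (.e (nat_lit 491556) (nat_lit 9) (.e (nat_lit 336051) (nat_lit 6) (.e (nat_lit 147496) (nat_lit 11) .nil))))) (.g (nat_lit 5) .nil .nil))) 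
(.lf (nat_lit 140791) (.g (nat_lit 1872) (.e (nat_lit 24659) (nat_lit 13) (.e (nat_lit 393225) (nat_lit 9) (.e (nat_lit 335996) (nat_lit 1) (.e (nat_lit 57853) (nat_lit 252) (.e (nat_lit 57370) (nat_lit 2) .nil))))) .nil)))) (.nd (nat_lit 4) (.nd (nat_lit 5) 
(.lf (nat_lit 140751) (.g (nat_lit 1583) (.e (nat_lit 24658) (nat_lit 13) (.e (nat_lit 393260) (nat_lit 21) (.e (nat_lit 409617) (nat_lit 10) (.e (nat_lit 4934) (nat_lit 287) .nil)))) .nil)) 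
(.lf (nat_lit 140783) (.g (nat_lit 2857) (.e (nat_lit 24659) (nat_lit 13) (.e (nat_lit 393225) (nat_lit 9) (.e (nat_lit 335995) (nat_lit 1) (.e (nat_lit 57849) (nat_lit 252) (.e (nat_lit 57375) (nat_lit 2) .nil))))) .nil))) (.nd (nat_lit 5) 
(.lf (nat_lit 140767) (.g (nat_lit 849) (.e (nat_lit 24659) (nat_lit 13) (.e (nat_lit 393221) (nat_lit 0) (.e (nat_lit 6207) (nat_lit 333) (.e (nat_lit 57809) (nat_lit 246) .nil)))) .nil)) 
(.lf (nat_lit 140799) (.g (nat_lit 2410) (.e (nat_lit 24659) (nat_lit 13) (.e (nat_lit 393229) (nat_lit 9) (.e (nat_lit 335986) (nat_lit 1) (.e (nat_lit 57849) (nat_lit 252) (.e (nat_lit 57375) (nat_lit 2) .nil))))) .nil))))))))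

noncomputable def tv1870 : DT := (.nd (nat_lit 0) (.nd (nat_lit 1) (.nd (nat_lit 2) (.nd (nat_lit 3) (.nd (nat_lit 4) (.nd (nat_lit 5) 
(.lf (nat_lit 140800) (.g (nat_lit 1581) (.e (nat_lit 24659) (nat_lit 13) (.e (nat_lit 393229) (nat_lit 9) (.e (nat_lit 335986) (nat_lit 1) (.e (nat_lit 57853) (nat_lit 252) .nil)))) .nil)) 
(.lf (nat_lit 140832) (.g (nat_lit 1075) (.e (nat_lit 24659) (nat_lit 13) (.e (nat_lit 393233) (nat_lit 17) (.e (nat_lit 7591) (nat_lit 407) (.e (nat_lit 73776) (nat_lit 26) .nil)))) .nil))) (.nd (nat_lit 5) 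
(.lf (nat_lit 140816) (.g (nat_lit 3450) (.e (nat_lit 24659) (nat_lit 13) (.e (nat_lit 393229) (nat_lit 9) (.e (nat_lit 335995) (nat_lit 1) (.e (nat_lit 57849) (nat_lit 252) (.e (nat_lit 57370) (nat_lit 2) .nil))))) .nil)) 
(.lf (nat_lit 140848) (.g (nat_lit 3120) (.e (nat_lit 24659) (nat_lit 13) (.e (nat_lit 393301) (nat_lit 27) (.e (nat_lit 491556) (nat_lit 9) (.e (nat_lit 336051) (nat_lit 6) (.e (nat_lit 147495) (nat_lit 11) .nil))))) (.g (nat_lit 0) .nil .nil))))) (.nd (nat_lit 4) (.nd (nat_lit 5) 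
(.lf (nat_lit 140808) (.g (nat_lit 3169) (.e (nat_lit 24659) (nat_lit 13) (.e (nat_lit 393229) (nat_lit 9) (.e (nat_lit 335995) (nat_lit 1) (.e (nat_lit 57846) (nat_lit 252) .nil)))) .nil)) 
(.lf (nat_lit 140840) (.g (nat_lit 1505) (.e (nat_lit 24659) (nat_lit 13) (.e (nat_lit 393234) (nat_lit 17) (.e (nat_lit 7591) (nat_lit 407) (.e (nat_lit 73776) (nat_lit 26) (.e (nat_lit 778463) (nat_lit 11) .nil))))) .nil))) (.nd (nat_lit 5) 
(.lf (nat_lit 140824) (.g (nat_lit 2769) (.e (nat_lit 24659) (nat_lit 13) (.e (nat_lit 393229) (nat_lit 9) (.e (nat_lit 335996) (nat_lit 1) (.e (nat_lit 57851) (nat_lit 252) (.e (nat_lit 57371) (nat_lit 2) (.e (nat_lit 90160) (nat_lit 11) .nil)))))) (.g (nat_lit 4) .nil .nil))) 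
(.lf (nat_lit 140856) (.g (nat_lit 3591) (.e (nat_lit 24659) (nat_lit 13) (.e (nat_lit 393301) (nat_lit 27) (.e (nat_lit 491560) (nat_lit 10) (.e (nat_lit 344179) (nat_lit 44) (.e (nat_lit 778465) (nat_lit 11) .nil))))) (.g (nat_lit 0) .nil .nil)))))) (.nd (nat_lit 3) (.nd (nat_lit 4) (.nd (nat_lit 5) 
(.lf (nat_lit 140804) (.g (nat_lit 1974) (.e (nat_lit 24659) (nat_lit 13) (.e (nat_lit 393229) (nat_lit 9) (.e (nat_lit 335988) (nat_lit 1) (.e (nat_lit 57852) (nat_lit 252) (.e (nat_lit 57373) (nat_lit 2) (.e (nat_lit 90158) (nat_lit 11) .nil)))))) (.g (nat_lit 4) .nil .nil))) 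
(.lf (nat_lit 140836) (.g (nat_lit 1605) (.e (nat_lit 24659) (nat_lit 13) (.e (nat_lit 393234) (nat_lit 17) (.e (nat_lit 7589) (nat_lit 406) (.e (nat_lit 65578) (nat_lit 6) (.e (nat_lit 147495) (nat_lit 11) .nil))))) .nil))) (.nd (nat_lit 5) 
(.lf (nat_lit 140820) (.g (nat_lit 3598) (.e (nat_lit 24659) (nat_lit 13) (.e (nat_lit 393229) (nat_lit 9) (.e (nat_lit 335995) (nat_lit 1) (.e (nat_lit 57849) (nat_lit 252) (.e (nat_lit 57375) (nat_lit 2) (.e (nat_lit 90158) (nat_lit 11) .nil)))))) (.g (nat_lit 4) .nil .nil))) 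
(.lf (nat_lit 140852) (.g (nat_lit 1454) (.e (nat_lit 24659) (nat_lit 13) (.e (nat_lit 393301) (nat_lit 27) (.e (nat_lit 491558) (nat_lit 10) (.e (nat_lit 352000) (nat_lit 44) .nil)))) .nil)))) (.nd (nat_lit 4) (.nd (nat_lit 5) 
(.lf (nat_lit 140812) (.g (nat_lit 3493) (.e (nat_lit 24659) (nat_lit 13) (.e (nat_lit 393229) (nat_lit 9) (.e (nat_lit 335995) (nat_lit 1) (.e (nat_lit 57847) (nat_lit 252) (.e (nat_lit 57373) (nat_lit 2) .nil))))) .nil)) 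
(.lf (nat_lit 140844) (.g (nat_lit 511) (.e (nat_lit 24659) (nat_lit 13) (.e (nat_lit 393238) (nat_lit 17) (.e (nat_lit 7107) (nat_lit 380) .nil))) .nil))) (.nd (nat_lit 5) 
(.lf (nat_lit 140828) (.g (nat_lit 2866) (.e (nat_lit 24659) (nat_lit 13) (.e (nat_lit 393229) (nat_lit 9) (.e (nat_lit 335996) (nat_lit 1) (.e (nat_lit 57854) (nat_lit 252) (.e (nat_lit 57371) (nat_lit 2) .nil))))) .nil)) 
(.lf (nat_lit 140860) (.g (nat_lit 1719) (.e (nat_lit 24660) (nat_lit 13) (.e (nat_lit 393224) (nat_lit 9) (.e (nat_lit 335986) (nat_lit 1) (.e (nat_lit 57847) (nat_lit 252) (.e (nat_lit 57373) (nat_lit 2) (.e (nat_lit 90158) (nat_lit 11) .nil)))))) (.g (nat_lit 4) .nil .nil))))))) (.nd (nat_lit 2) (.nd (nat_lit 3) (.nd (nat_lit 4) (.nd (nat_lit 5) 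
(.lf (nat_lit 140802) (.g (nat_lit 936) (.e (nat_lit 24659) (nat_lit 13) (.e (nat_lit 393229) (nat_lit 9) (.e (nat_lit 335987) (nat_lit 1) .nil))) .nil)) 
(.lf (nat_lit 140834) (.g (nat_lit 1345) (.e (nat_lit 24659) (nat_lit 13) (.e (nat_lit 393234) (nat_lit 17) (.e (nat_lit 7587) (nat_lit 406) (.e (nat_lit 65578) (nat_lit 6) .nil)))) .nil))) (.nd (nat_lit 5) 
(.lf (nat_lit 140818) (.g (nat_lit 4329) (.e (nat_lit 24659) (nat_lit 13) (.e (nat_lit 393229) (nat_lit 9) (.e (nat_lit 335995) (nat_lit 1) (.e (nat_lit 57849) (nat_lit 252) (.e (nat_lit 57372) (nat_lit 2) (.e (nat_lit 90160) (nat_lit 11) .nil)))))) (.g (nat_lit 5) .nil .nil))) 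
(.lf (nat_lit 140850) (.g (nat_lit 555) (.e (nat_lit 24659) (nat_lit 13) (.e (nat_lit 393301) (nat_lit 27) (.e (nat_lit 491558) (nat_lit 10) .nil))) .nil)))) (.nd (nat_lit 4) (.nd (nat_lit 5) 
(.lf (nat_lit 140810) (.g (nat_lit 2926) (.e (nat_lit 24659) (nat_lit 13) (.e (nat_lit 393229) (nat_lit 9) (.e (nat_lit 335995) (nat_lit 1) (.e (nat_lit 57847) (nat_lit 252) .nil)))) .nil)) 
(.lf (nat_lit 140842) (.g (nat_lit 908) (.e (nat_lit 24659) (nat_lit 13) (.e (nat_lit 393234) (nat_lit 17) (.e (nat_lit 7593) (nat_lit 407) (.e (nat_lit 73775) (nat_lit 26) .nil)))) .nil))) (.nd (nat_lit 5) 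
(.lf (nat_lit 140826) (.g (nat_lit 2078) (.e (nat_lit 24659) (nat_lit 13) (.e (nat_lit 393229) (nat_lit 9) (.e (nat_lit 335996) (nat_lit 1) (.e (nat_lit 57853) (nat_lit 252) .nil)))) .nil)) 
(.lf (nat_lit 140858) (.g (nat_lit 3050) (.e (nat_lit 24659) (nat_lit 13) (.e (nat_lit 393301) (nat_lit 27) (.e (nat_lit 491563) (nat_lit 12) (.e (nat_lit 385078) (nat_lit 35) .nil)))) .nil))))) (.nd (nat_lit 3) (.nd (nat_lit 4) (.nd (nat_lit 5) 
(.lf (nat_lit 140806) (.g (nat_lit 998) (.e (nat_lit 24659) (nat_lit 13) (.e (nat_lit 393229) (nat_lit 9) (.e (nat_lit 335994) (nat_lit 1) .nil))) .nil)) 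
(.lf (nat_lit 140838) (.g (nat_lit 1036) (.e (nat_lit 24659) (nat_lit 13) (.e (nat_lit 393234) (nat_lit 17) (.e (nat_lit 7591) (nat_lit 407) (.e (nat_lit 73775) (nat_lit 26) .nil)))) .nil))) (.nd (nat_lit 5) 
(.lf (nat_lit 140822) (.g (nat_lit 3465) (.e (nat_lit 24659) (nat_lit 13) (.e (nat_lit 393229) (nat_lit 9) (.e (nat_lit 335995) (nat_lit 1) (.e (nat_lit 57854) (nat_lit 252) .nil)))) .nil)) 
(.lf (nat_lit 140854) (.g (nat_lit 2731) (.e (nat_lit 24659) (nat_lit 13) (.e (nat_lit 393301) (nat_lit 27) (.e (nat_lit 491560) (nat_lit 10) (.e (nat_lit 344179) (nat_lit 44) (.e (nat_lit 778463) (nat_lit 11) .nil))))) (.g (nat_lit 4) .nil .nil))))) (.nd (nat_lit 4) (.nd (nat_lit 5) 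
(.lf (nat_lit 140814) (.g (nat_lit 2168) (.e (nat_lit 24659) (nat_lit 13) (.e (nat_lit 393229) (nat_lit 9) (.e (nat_lit 335995) (nat_lit 1) (.e (nat_lit 57848) (nat_lit 252) .nil)))) .nil)) 
(.lf (nat_lit 140846) (.g (nat_lit 595) (.e (nat_lit 24659) (nat_lit 13) (.e (nat_lit 393301) (nat_lit 27) (.e (nat_lit 491552) (nat_lit 9) .nil))) .nil))) (.nd (nat_lit 5) 
(.lf (nat_lit 140830) (.g (nat_lit 3180) (.e (nat_lit 24659) (nat_lit 13) (.e (nat_lit 393229) (nat_lit 9) (.e (nat_lit 335996) (nat_lit 1) (.e (nat_lit 57854) (nat_lit 252) (.e (nat_lit 57373) (nat_lit 2) (.e (nat_lit 90160) (nat_lit 11) .nil)))))) (.g (nat_lit 4) .nil .nil))) 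
(.lf (nat_lit 140862) (.g (nat_lit 2180) (.e (nat_lit 24660) (nat_lit 13) (.e (nat_lit 393224) (nat_lit 9) (.e (nat_lit 335988) (nat_lit 1) (.e (nat_lit 57854) (nat_lit 252) (.e (nat_lit 57370) (nat_lit 2) (.e (nat_lit 90158) (nat_lit 11) .nil)))))) (.g (nat_lit 5) .nil .nil)))))))) (.nd (nat_lit 1) (.nd (nat_lit 2) (.nd (nat_lit 3) (.nd (nat_lit 4) (.nd (nat_lit 5) 
(.lf (nat_lit 140801) (.g (nat_lit 1834) (.e (nat_lit 24659) (nat_lit 13) (.e (nat_lit 393229) (nat_lit 9) (.e (nat_lit 335986) (nat_lit 1) (.e (nat_lit 57854) (nat_lit 252) (.e (nat_lit 57371) (nat_lit 2) .nil))))) .nil)) 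
(.lf (nat_lit 140833) (.g (nat_lit 1130) (.e (nat_lit 24659) (nat_lit 13) (.e (nat_lit 393233) (nat_lit 17) (.e (nat_lit 7593) (nat_lit 407) (.e (nat_lit 73775) (nat_lit 26) .nil)))) .nil))) (.nd (nat_lit 5) 
(.lf (nat_lit 140817) (.g (nat_lit 3859) (.e (nat_lit 24659) (nat_lit 13) (.e (nat_lit 393229) (nat_lit 9) (.e (nat_lit 335995) (nat_lit 1) (.e (nat_lit 57849) (nat_lit 252) (.e (nat_lit 57372) (nat_lit 2) (.e (nat_lit 90158) (nat_lit 11) .nil)))))) (.g (nat_lit 4) .nil .nil))) 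
(.lf (nat_lit 140849) (.g (nat_lit 748) (.e (nat_lit 24659) (nat_lit 13) (.e (nat_lit 393301) (nat_lit 27) (.e (nat_lit 499456) (nat_lit 9) .nil))) .nil)))) (.nd (nat_lit 4) (.nd (nat_lit 5) 
(.lf (nat_lit 140809) (.g (nat_lit 3902) (.e (nat_lit 24659) (nat_lit 13) (.e (nat_lit 393229) (nat_lit 9) (.e (nat_lit 335995) (nat_lit 1) (.e (nat_lit 57846) (nat_lit 252) (.e (nat_lit 57372) (nat_lit 2) (.e (nat_lit 90160) (nat_lit 11) .nil)))))) (.g (nat_lit 4) .nil .nil))) 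
(.lf (nat_lit 140841) (.g (nat_lit 1231) (.e (nat_lit 24659) (nat_lit 13) (.e (nat_lit 393234) (nat_lit 17) (.e (nat_lit 7591) (nat_lit 407) (.e (nat_lit 81664) (nat_lit 26) .nil)))) .nil))) (.nd (nat_lit 5) 
(.lf (nat_lit 140825) (.g (nat_lit 2798) (.e (nat_lit 24659) (nat_lit 13) (.e (nat_lit 393229) (nat_lit 9) (.e (nat_lit 335996) (nat_lit 1) (.e (nat_lit 57852) (nat_lit 252) (.e (nat_lit 57373) (nat_lit 2) .nil))))) .nil)) 
(.lf (nat_lit 140857) (.g (nat_lit 1921) (.e (nat_lit 24659) (nat_lit 13) (.e (nat_lit 393301) (nat_lit 27) (.e (nat_lit 491560) (nat_lit 10) (.e (nat_lit 352000) (nat_lit 44) .nil)))) .nil))))) (.nd (nat_lit 3) (.nd (nat_lit 4) (.nd (nat_lit 5) 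
(.lf (nat_lit 140805) (.g (nat_lit 956) (.e (nat_lit 24659) (nat_lit 13) (.e (nat_lit 393229) (nat_lit 9) (.e (nat_lit 335993) (nat_lit 1) .nil))) .nil)) 
(.lf (nat_lit 140837) (.g (nat_lit 1193) (.e (nat_lit 24659) (nat_lit 13) (.e (nat_lit 393234) (nat_lit 17) (.e (nat_lit 7591) (nat_lit 407) (.e (nat_lit 73774) (nat_lit 26) .nil)))) .nil))) (.nd (nat_lit 5) 
(.lf (nat_lit 140821) (.g (nat_lit 3470) (.e (nat_lit 24659) (nat_lit 13) (.e (nat_lit 393229) (nat_lit 9) (.e (nat_lit 335995) (nat_lit 1) (.e (nat_lit 57853) (nat_lit 252) .nil)))) .nil)) 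
(.lf (nat_lit 140853) (.g (nat_lit 2191) (.e (nat_lit 24659) (nat_lit 13) (.e (nat_lit 393301) (nat_lit 27) (.e (nat_lit 491559) (nat_lit 10) (.e (nat_lit 352000) (nat_lit 44) .nil)))) .nil)))) (.nd (nat_lit 4) (.nd (nat_lit 5) 
(.lf (nat_lit 140813) (.g (nat_lit 4054) (.e (nat_lit 24659) (nat_lit 13) (.e (nat_lit 393229) (nat_lit 9) (.e (nat_lit 335995) (nat_lit 1) (.e (nat_lit 57847) (nat_lit 252) (.e (nat_lit 57375) (nat_lit 2) (.e (nat_lit 90160) (nat_lit 11) .nil)))))) (.g (nat_lit 5) .nil .nil))) 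
(.lf (nat_lit 140845) (.g (nat_lit 979) (.e (nat_lit 24659) (nat_lit 13) (.e (nat_lit 393299) (nat_lit 27) (.e (nat_lit 491560) (nat_lit 10) .nil))) .nil))) (.nd (nat_lit 5) 
(.lf (nat_lit 140829) (.g (nat_lit 2965) (.e (nat_lit 24659) (nat_lit 13) (.e (nat_lit 393229) (nat_lit 9) (.e (nat_lit 335996) (nat_lit 1) (.e (nat_lit 57854) (nat_lit 252) (.e (nat_lit 57373) (nat_lit 2) (.e (nat_lit 90158) (nat_lit 11) .nil)))))) (.g (nat_lit 4) .nil .nil))) 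
(.lf (nat_lit 140861) (.g (nat_lit 1339) (.e (nat_lit 24660) (nat_lit 13) (.e (nat_lit 393224) (nat_lit 9) (.e (nat_lit 335986) (nat_lit 1) (.e (nat_lit 57847) (nat_lit 252) (.e (nat_lit 57375) (nat_lit 2) .nil))))) .nil)))))) (.nd (nat_lit 2) (.nd (nat_lit 3) (.nd (nat_lit 4) (.nd (nat_lit 5) 
(.lf (nat_lit 140803) (.g (nat_lit 1958) (.e (nat_lit 24659) (nat_lit 13) (.e (nat_lit 393229) (nat_lit 9) (.e (nat_lit 335987) (nat_lit 1) (.e (nat_lit 57854) (nat_lit 252) (.e (nat_lit 57373) (nat_lit 2) .nil))))) .nil)) 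
(.lf (nat_lit 140835) (.g (nat_lit 1372) (.e (nat_lit 24659) (nat_lit 13) (.e (nat_lit 393234) (nat_lit 17) (.e (nat_lit 7587) (nat_lit 406) (.e (nat_lit 65580) (nat_lit 6) .nil)))) .nil))) (.nd (nat_lit 5) 
(.lf (nat_lit 140819) (.g (nat_lit 3575) (.e (nat_lit 24659) (nat_lit 13) (.e (nat_lit 393229) (nat_lit 9) (.e (nat_lit 335995) (nat_lit 1) (.e (nat_lit 57849) (nat_lit 252) (.e (nat_lit 57375) (nat_lit 2) .nil))))) .nil)) 
(.lf (nat_lit 140851) (.g (nat_lit 1942) (.e (nat_lit 24659) (nat_lit 13) (.e (nat_lit 393301) (nat_lit 27) (.e (nat_lit 491558) (nat_lit 10) (.e (nat_lit 344180) (nat_lit 44) .nil)))) .nil)))) (.nd (nat_lit 4) (.nd (nat_lit 5) 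
(.lf (nat_lit 140811) (.g (nat_lit 3788) (.e (nat_lit 24659) (nat_lit 13) (.e (nat_lit 393229) (nat_lit 9) (.e (nat_lit 335995) (nat_lit 1) (.e (nat_lit 57847) (nat_lit 252) (.e (nat_lit 57372) (nat_lit 2) (.e (nat_lit 90160) (nat_lit 11) .nil)))))) (.g (nat_lit 4) .nil .nil))) 
(.lf (nat_lit 140843) (.g (nat_lit 1772) (.e (nat_lit 24659) (nat_lit 13) (.e (nat_lit 393234) (nat_lit 17) (.e (nat_lit 7593) (nat_lit 407) (.e (nat_lit 73775) (nat_lit 26) (.e (nat_lit 778464) (nat_lit 11) .nil))))) (.g (nat_lit 4) .nil .nil)))) (.nd (nat_lit 5) 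
(.lf (nat_lit 140827) (.g (nat_lit 2033) (.e (nat_lit 24659) (nat_lit 13) (.e (nat_lit 393229) (nat_lit 9) (.e (nat_lit 335996) (nat_lit 1) (.e (nat_lit 57854) (nat_lit 252) .nil)))) .nil)) 
(.lf (nat_lit 140859) (.g (nat_lit 1553) (.e (nat_lit 24660) (nat_lit 13) (.e (nat_lit 393224) (nat_lit 9) (.e (nat_lit 335986) (nat_lit 1) (.e (nat_lit 57847) (nat_lit 252) (.e (nat_lit 57372) (nat_lit 2) (.e (nat_lit 90158) (nat_lit 11) .nil)))))) (.g (nat_lit 4) .nil .nil)))))) (.nd (nat_lit 3) (.nd (nat_lit 4) (.nd (nat_lit 5) 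
(.lf (nat_lit 140807) (.g (nat_lit 3888) (.e (nat_lit 24659) (nat_lit 13) (.e (nat_lit 393229) (nat_lit 9) (.e (nat_lit 335995) (nat_lit 1) (.e (nat_lit 57844) (nat_lit 252) .nil)))) .nil)) 
(.lf (nat_lit 140839) (.g (nat_lit 1132) (.e (nat_lit 24659) (nat_lit 13) (.e (nat_lit 393234) (nat_lit 17) (.e (nat_lit 7591) (nat_lit 407) (.e (nat_lit 73776) (nat_lit 26) .nil)))) .nil))) (.nd (nat_lit 5) 
(.lf (nat_lit 140823) (.g (nat_lit 1935) (.e (nat_lit 24659) (nat_lit 13) (.e (nat_lit 393229) (nat_lit 9) (.e (nat_lit 335996) (nat_lit 1) (.e (nat_lit 57851) (nat_lit 252) .nil)))) .nil)) 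
(.lf (nat_lit 140855) (.g (nat_lit 3020) (.e (nat_lit 24659) (nat_lit 13) (.e (nat_lit 393301) (nat_lit 27) (.e (nat_lit 491560) (nat_lit 10) (.e (nat_lit 344179) (nat_lit 44) (.e (nat_lit 778464) (nat_lit 11) .nil))))) (.g (nat_lit 5) .nil .nil))))) (.nd (nat_lit 4) (.nd (nat_lit 5) 
(.lf (nat_lit 140815) (.g (nat_lit 2919) (.e (nat_lit 24659) (nat_lit 13) (.e (nat_lit 393229) (nat_lit 9) (.e (nat_lit 335995) (nat_lit 1) (.e (nat_lit 57849) (nat_lit 252) .nil)))) .nil)) 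
(.lf (nat_lit 140847) (.g (nat_lit 1581) (.e (nat_lit 24659) (nat_lit 13) (.e (nat_lit 393301) (nat_lit 27) (.e (nat_lit 491552) (nat_lit 9) (.e (nat_lit 336046) (nat_lit 6) .nil)))) .nil))) (.nd (nat_lit 5) 
(.lf (nat_lit 140831) (.g (nat_lit 489) (.e (nat_lit 24659) (nat_lit 13) (.e (nat_lit 393232) (nat_lit 17) (.e (nat_lit 7591) (nat_lit 407) .nil))) .nil)) 
(.lf (nat_lit 140863) (.g (nat_lit 754) (.e (nat_lit 24660) (nat_lit 13) (.e (nat_lit 393224) (nat_lit 9) (.e (nat_lit 335995) (nat_lit 1) (.e (nat_lit 57848) (nat_lit 252) .nil)))) .nil))))))))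

noncomputable def tv1871 : DT := (.nd (nat_lit 0) (.nd (nat_lit 1) (.nd (nat_lit 2) (.nd (nat_lit 3) (.nd (nat_lit 4) (.nd (nat_lit 5) 
(.lf (nat_lit 140864) (.g (nat_lit 1334) (.e (nat_lit 24660) (nat_lit 13) (.e (nat_lit 393224) (nat_lit 9) (.e (nat_lit 335995) (nat_lit 1) (.e (nat_lit 57848) (nat_lit 252) (.e (nat_lit 57372) (nat_lit 2) .nil))))) .nil)) 
(.lf (nat_lit 140896) (.g (nat_lit 3694) (.e (nat_lit 24660) (nat_lit 13) (.e (nat_lit 393225) (nat_lit 9) (.e (nat_lit 335996) (nat_lit 1) (.e (nat_lit 57854) (nat_lit 252) (.e (nat_lit 57373) (nat_lit 2) (.e (nat_lit 90160) (nat_lit 11) .nil)))))) (.g (nat_lit 0) .nil .nil)))) (.nd (nat_lit 5) 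
(.lf (nat_lit 140880) (.g (nat_lit 2531) (.e (nat_lit 24660) (nat_lit 13) (.e (nat_lit 393225) (nat_lit 9) (.e (nat_lit 335995) (nat_lit 1) (.e (nat_lit 57847) (nat_lit 252) (.e (nat_lit 57375) (nat_lit 2) (.e (nat_lit 90158) (nat_lit 11) .nil)))))) (.g (nat_lit 5) .nil .nil))) 
(.lf (nat_lit 140912) (.g (nat_lit 3236) (.e (nat_lit 24660) (nat_lit 13) (.e (nat_lit 393229) (nat_lit 9) (.e (nat_lit 335986) (nat_lit 1) (.e (nat_lit 57854) (nat_lit 252) (.e (nat_lit 57373) (nat_lit 2) (.e (nat_lit 90160) (nat_lit 11) .nil)))))) (.g (nat_lit 6) .nil .nil))))) (.nd (nat_lit 4) (.nd (nat_lit 5) 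
(.lf (nat_lit 140872) (.g (nat_lit 2612) (.e (nat_lit 24660) (nat_lit 13) (.e (nat_lit 393225) (nat_lit 9) (.e (nat_lit 335988) (nat_lit 1) (.e (nat_lit 57854) (nat_lit 252) (.e (nat_lit 57371) (nat_lit 2) (.e (nat_lit 90158) (nat_lit 11) .nil)))))) (.g (nat_lit 6) .nil .nil))) 
(.lf (nat_lit 140904) (.g (nat_lit 3297) (.e (nat_lit 24660) (nat_lit 13) (.e (nat_lit 393229) (nat_lit 9) (.e (nat_lit 335986) (nat_lit 1) (.e (nat_lit 57847) (nat_lit 252) (.e (nat_lit 57372) (nat_lit 2) (.e (nat_lit 90160) (nat_lit 11) .nil)))))) (.g (nat_lit 0) .nil .nil)))) (.nd (nat_lit 5) 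
(.lf (nat_lit 140888) (.g (nat_lit 2083) (.e (nat_lit 24660) (nat_lit 13) (.e (nat_lit 393225) (nat_lit 9) (.e (nat_lit 335996) (nat_lit 1) (.e (nat_lit 57851) (nat_lit 252) (.e (nat_lit 57370) (nat_lit 2) (.e (nat_lit 90158) (nat_lit 11) .nil)))))) (.g (nat_lit 5) .nil .nil))) 
(.lf (nat_lit 140920) (.g (nat_lit 1891) (.e (nat_lit 24660) (nat_lit 13) (.e (nat_lit 393229) (nat_lit 9) (.e (nat_lit 335988) (nat_lit 1) (.e (nat_lit 57854) (nat_lit 252) (.e (nat_lit 57371) (nat_lit 2) (.e (nat_lit 90156) (nat_lit 11) .nil)))))) (.g (nat_lit 4) .nil .nil)))))) (.nd (nat_lit 3) (.nd (nat_lit 4) (.nd (nat_lit 5) 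
(.lf (nat_lit 140868) (.g (nat_lit 2614) (.e (nat_lit 24660) (nat_lit 13) (.e (nat_lit 393225) (nat_lit 9) (.e (nat_lit 335986) (nat_lit 1) (.e (nat_lit 57847) (nat_lit 252) (.e (nat_lit 57372) (nat_lit 2) (.e (nat_lit 90158) (nat_lit 11) .nil)))))) (.g (nat_lit 6) .nil .nil))) 
(.lf (nat_lit 140900) (.g (nat_lit 3093) (.e (nat_lit 24660) (nat_lit 13) (.e (nat_lit 393228) (nat_lit 9) (.e (nat_lit 335988) (nat_lit 1) (.e (nat_lit 57854) (nat_lit 252) (.e (nat_lit 57373) (nat_lit 2) (.e (nat_lit 90160) (nat_lit 11) .nil)))))) (.g (nat_lit 5) .nil .nil)))) (.nd (nat_lit 5) 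
(.lf (nat_lit 140884) (.g (nat_lit 2676) (.e (nat_lit 24660) (nat_lit 13) (.e (nat_lit 393225) (nat_lit 9) (.e (nat_lit 335995) (nat_lit 1) (.e (nat_lit 57848) (nat_lit 252) (.e (nat_lit 57372) (nat_lit 2) (.e (nat_lit 90156) (nat_lit 11) .nil)))))) (.g (nat_lit 6) .nil .nil))) 
(.lf (nat_lit 140916) (.g (nat_lit 3412) (.e (nat_lit 24660) (nat_lit 13) (.e (nat_lit 393229) (nat_lit 9) (.e (nat_lit 335987) (nat_lit 1) (.e (nat_lit 57854) (nat_lit 252) (.e (nat_lit 57373) (nat_lit 2) (.e (nat_lit 90158) (nat_lit 11) .nil)))))) (.g (nat_lit 6) .nil .nil))))) (.nd (nat_lit 4) (.nd (nat_lit 5) 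
(.lf (nat_lit 140876) (.g (nat_lit 2599) (.e (nat_lit 24660) (nat_lit 13) (.e (nat_lit 393225) (nat_lit 9) (.e (nat_lit 335995) (nat_lit 1) (.e (nat_lit 57844) (nat_lit 252) (.e (nat_lit 57375) (nat_lit 2) (.e (nat_lit 90160) (nat_lit 11) .nil)))))) (.g (nat_lit 4) .nil .nil))) 
(.lf (nat_lit 140908) (.g (nat_lit 3131) (.e (nat_lit 24660) (nat_lit 13) (.e (nat_lit 393229) (nat_lit 9) (.e (nat_lit 335986) (nat_lit 1) (.e (nat_lit 57849) (nat_lit 252) (.e (nat_lit 57375) (nat_lit 2) (.e (nat_lit 90158) (nat_lit 11) .nil)))))) (.g (nat_lit 0) .nil .nil)))) (.nd (nat_lit 5) 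
(.lf (nat_lit 140892) (.g (nat_lit 3016) (.e (nat_lit 24660) (nat_lit 13) (.e (nat_lit 393225) (nat_lit 9) (.e (nat_lit 335996) (nat_lit 1) (.e (nat_lit 57852) (nat_lit 252) (.e (nat_lit 57373) (nat_lit 2) (.e (nat_lit 90158) (nat_lit 11) .nil)))))) (.g (nat_lit 5) .nil .nil))) 
(.lf (nat_lit 140924) (.g (nat_lit 457) (.e (nat_lit 24660) (nat_lit 13) (.e (nat_lit 393229) (nat_lit 9) (.e (nat_lit 335994) (nat_lit 1) .nil))) .nil)))))) (.nd (nat_lit 2) (.nd (nat_lit 3) (.nd (nat_lit 4) (.nd (nat_lit 5) 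
(.lf (nat_lit 140866) (.g (nat_lit 1827) (.e (nat_lit 24660) (nat_lit 13) (.e (nat_lit 393224) (nat_lit 9) (.e (nat_lit 335995) (nat_lit 1) (.e (nat_lit 57848) (nat_lit 252) (.e (nat_lit 57375) (nat_lit 2) (.e (nat_lit 90159) (nat_lit 11) .nil)))))) (.g (nat_lit 5) .nil .nil))) 
(.lf (nat_lit 140898) (.g (nat_lit 1836) (.e (nat_lit 24660) (nat_lit 13) (.e (nat_lit 393228) (nat_lit 9) (.e (nat_lit 335988) (nat_lit 1) (.e (nat_lit 57854) (nat_lit 252) (.e (nat_lit 57371) (nat_lit 2) (.e (nat_lit 90158) (nat_lit 11) .nil)))))) (.g (nat_lit 4) .nil .nil)))) (.nd (nat_lit 5) 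
(.lf (nat_lit 140882) (.g (nat_lit 1221) (.e (nat_lit 24660) (nat_lit 13) (.e (nat_lit 393225) (nat_lit 9) (.e (nat_lit 335995) (nat_lit 1) (.e (nat_lit 57848) (nat_lit 252) .nil)))) .nil)) 
(.lf (nat_lit 140914) (.g (nat_lit 1999) (.e (nat_lit 24660) (nat_lit 13) (.e (nat_lit 393229) (nat_lit 9) (.e (nat_lit 335987) (nat_lit 1) (.e (nat_lit 57854) (nat_lit 252) (.e (nat_lit 57370) (nat_lit 2) (.e (nat_lit 90158) (nat_lit 11) .nil)))))) (.g (nat_lit 5) .nil .nil))))) (.nd (nat_lit 4) (.nd (nat_lit 5) 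
(.lf (nat_lit 140874) (.g (nat_lit 3492) (.e (nat_lit 24660) (nat_lit 13) (.e (nat_lit 393225) (nat_lit 9) (.e (nat_lit 335988) (nat_lit 1) (.e (nat_lit 57854) (nat_lit 252) (.e (nat_lit 57373) (nat_lit 2) (.e (nat_lit 90160) (nat_lit 11) .nil)))))) (.g (nat_lit 0) .nil .nil))) 
(.lf (nat_lit 140906) (.g (nat_lit 3238) (.e (nat_lit 24660) (nat_lit 13) (.e (nat_lit 393229) (nat_lit 9) (.e (nat_lit 335986) (nat_lit 1) (.e (nat_lit 57847) (nat_lit 252) (.e (nat_lit 57375) (nat_lit 2) (.e (nat_lit 90160) (nat_lit 11) .nil)))))) (.g (nat_lit 0) .nil .nil)))) (.nd (nat_lit 5) 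
(.lf (nat_lit 140890) (.g (nat_lit 3671) (.e (nat_lit 24660) (nat_lit 13) (.e (nat_lit 393225) (nat_lit 9) (.e (nat_lit 335996) (nat_lit 1) (.e (nat_lit 57851) (nat_lit 252) (.e (nat_lit 57371) (nat_lit 2) (.e (nat_lit 90160) (nat_lit 11) .nil)))))) (.g (nat_lit 0) .nil .nil))) 
(.lf (nat_lit 140922) (.g (nat_lit 3339) (.e (nat_lit 24660) (nat_lit 13) (.e (nat_lit 393229) (nat_lit 9) (.e (nat_lit 335988) (nat_lit 1) (.e (nat_lit 57854) (nat_lit 252) (.e (nat_lit 57371) (nat_lit 2) (.e (nat_lit 90160) (nat_lit 11) .nil)))))) (.g (nat_lit 0) .nil .nil)))))) (.nd (nat_lit 3) (.nd (nat_lit 4) (.nd (nat_lit 5) 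
(.lf (nat_lit 140870) (.g (nat_lit 2731) (.e (nat_lit 24660) (nat_lit 13) (.e (nat_lit 393225) (nat_lit 9) (.e (nat_lit 335986) (nat_lit 1) (.e (nat_lit 57847) (nat_lit 252) (.e (nat_lit 57373) (nat_lit 2) (.e (nat_lit 90158) (nat_lit 11) .nil)))))) (.g (nat_lit 6) .nil .nil))) 
(.lf (nat_lit 140902) (.g (nat_lit 2643) (.e (nat_lit 24660) (nat_lit 13) (.e (nat_lit 393229) (nat_lit 9) (.e (nat_lit 335986) (nat_lit 1) (.e (nat_lit 57847) (nat_lit 252) (.e (nat_lit 57370) (nat_lit 2) (.e (nat_lit 90158) (nat_lit 11) .nil)))))) (.g (nat_lit 6) .nil .nil)))) (.nd (nat_lit 5) 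
(.lf (nat_lit 140886) (.g (nat_lit 1651) (.e (nat_lit 24660) (nat_lit 13) (.e (nat_lit 393225) (nat_lit 9) (.e (nat_lit 335995) (nat_lit 1) (.e (nat_lit 57849) (nat_lit 252) .nil)))) .nil)) 
(.lf (nat_lit 140918) (.g (nat_lit 3011) (.e (nat_lit 24660) (nat_lit 13) (.e (nat_lit 393229) (nat_lit 9) (.e (nat_lit 335988) (nat_lit 1) (.e (nat_lit 57852) (nat_lit 252) (.e (nat_lit 57371) (nat_lit 2) (.e (nat_lit 90158) (nat_lit 11) .nil)))))) (.g (nat_lit 0) .nil .nil))))) (.nd (nat_lit 4) (.nd (nat_lit 5) 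
(.lf (nat_lit 140878) (.g (nat_lit 2540) (.e (nat_lit 24660) (nat_lit 13) (.e (nat_lit 393225) (nat_lit 9) (.e (nat_lit 335995) (nat_lit 1) (.e (nat_lit 57847) (nat_lit 252) (.e (nat_lit 57370) (nat_lit 2) (.e (nat_lit 90158) (nat_lit 11) .nil)))))) (.g (nat_lit 5) .nil .nil))) 
(.lf (nat_lit 140910) (.g (nat_lit 2731) (.e (nat_lit 24660) (nat_lit 13) (.e (nat_lit 393229) (nat_lit 9) (.e (nat_lit 335986) (nat_lit 1) (.e (nat_lit 57853) (nat_lit 252) (.e (nat_lit 57371) (nat_lit 2) (.e (nat_lit 90158) (nat_lit 11) .nil)))))) (.g (nat_lit 5) .nil .nil)))) (.nd (nat_lit 5) 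
(.lf (nat_lit 140894) (.g (nat_lit 2824) (.e (nat_lit 24660) (nat_lit 13) (.e (nat_lit 393225) (nat_lit 9) (.e (nat_lit 335996) (nat_lit 1) (.e (nat_lit 57854) (nat_lit 252) (.e (nat_lit 57371) (nat_lit 2) (.e (nat_lit 90158) (nat_lit 11) .nil)))))) (.g (nat_lit 6) .nil .nil))) 
(.lf (nat_lit 140926) (.g (nat_lit 1890) (.e (nat_lit 24660) (nat_lit 13) (.e (nat_lit 393229) (nat_lit 9) (.e (nat_lit 335994) (nat_lit 1) (.e (nat_lit 57844) (nat_lit 252) (.e (nat_lit 57371) (nat_lit 2) (.e (nat_lit 90156) (nat_lit 11) .nil)))))) (.g (nat_lit 4) .nil .nil)))))))) (.nd (nat_lit 1) (.nd (nat_lit 2) (.nd (nat_lit 3) (.nd (nat_lit 4) (.nd (nat_lit 5) 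
(.lf (nat_lit 140865) (.g (nat_lit 1965) (.e (nat_lit 24660) (nat_lit 13) (.e (nat_lit 393224) (nat_lit 9) (.e (nat_lit 335995) (nat_lit 1) (.e (nat_lit 57848) (nat_lit 252) (.e (nat_lit 57372) (nat_lit 2) (.e (nat_lit 90159) (nat_lit 11) .nil)))))) (.g (nat_lit 5) .nil .nil))) 
(.lf (nat_lit 140897) (.g (nat_lit 1854) (.e (nat_lit 24660) (nat_lit 13) (.e (nat_lit 393228) (nat_lit 9) (.e (nat_lit 335988) (nat_lit 1) (.e (nat_lit 57854) (nat_lit 252) (.e (nat_lit 57370) (nat_lit 2) .nil))))) .nil))) (.nd (nat_lit 5) 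
(.lf (nat_lit 140881) (.g (nat_lit 3337) (.e (nat_lit 24660) (nat_lit 13) (.e (nat_lit 393225) (nat_lit 9) (.e (nat_lit 335995) (nat_lit 1) (.e (nat_lit 57847) (nat_lit 252) (.e (nat_lit 57375) (nat_lit 2) (.e (nat_lit 90160) (nat_lit 11) .nil)))))) (.g (nat_lit 6) .nil .nil))) 
(.lf (nat_lit 140913) (.g (nat_lit 1628) (.e (nat_lit 24660) (nat_lit 13) (.e (nat_lit 393229) (nat_lit 9) (.e (nat_lit 335987) (nat_lit 1) (.e (nat_lit 57852) (nat_lit 252) (.e (nat_lit 57373) (nat_lit 2) .nil))))) .nil)))) (.nd (nat_lit 4) (.nd (nat_lit 5) 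
(.lf (nat_lit 140873) (.g (nat_lit 3072) (.e (nat_lit 24660) (nat_lit 13) (.e (nat_lit 393225) (nat_lit 9) (.e (nat_lit 335988) (nat_lit 1) (.e (nat_lit 57854) (nat_lit 252) (.e (nat_lit 57373) (nat_lit 2) (.e (nat_lit 90158) (nat_lit 11) .nil)))))) (.g (nat_lit 6) .nil .nil))) 
(.lf (nat_lit 140905) (.g (nat_lit 2713) (.e (nat_lit 24660) (nat_lit 13) (.e (nat_lit 393229) (nat_lit 9) (.e (nat_lit 335986) (nat_lit 1) (.e (nat_lit 57847) (nat_lit 252) (.e (nat_lit 57375) (nat_lit 2) (.e (nat_lit 90158) (nat_lit 11) .nil)))))) (.g (nat_lit 0) .nil .nil)))) (.nd (nat_lit 5) 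
(.lf (nat_lit 140889) (.g (nat_lit 3062) (.e (nat_lit 24660) (nat_lit 13) (.e (nat_lit 393225) (nat_lit 9) (.e (nat_lit 335996) (nat_lit 1) (.e (nat_lit 57851) (nat_lit 252) (.e (nat_lit 57371) (nat_lit 2) (.e (nat_lit 90158) (nat_lit 11) .nil)))))) (.g (nat_lit 6) .nil .nil))) 
(.lf (nat_lit 140921) (.g (nat_lit 3010) (.e (nat_lit 24660) (nat_lit 13) (.e (nat_lit 393229) (nat_lit 9) (.e (nat_lit 335988) (nat_lit 1) (.e (nat_lit 57854) (nat_lit 252) (.e (nat_lit 57371) (nat_lit 2) (.e (nat_lit 90158) (nat_lit 11) .nil)))))) (.g (nat_lit 0) .nil .nil)))))) (.nd (nat_lit 3) (.nd (nat_lit 4) (.nd (nat_lit 5) 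
(.lf (nat_lit 140869) (.g (nat_lit 3219) (.e (nat_lit 24660) (nat_lit 13) (.e (nat_lit 393225) (nat_lit 9) (.e (nat_lit 335986) (nat_lit 1) (.e (nat_lit 57847) (nat_lit 252) (.e (nat_lit 57372) (nat_lit 2) (.e (nat_lit 90160) (nat_lit 11) .nil)))))) (.g (nat_lit 0) .nil .nil))) 
(.lf (nat_lit 140901) (.g (nat_lit 1631) (.e (nat_lit 24660) (nat_lit 13) (.e (nat_lit 393228) (nat_lit 9) (.e (nat_lit 335996) (nat_lit 1) (.e (nat_lit 57852) (nat_lit 252) (.e (nat_lit 57371) (nat_lit 2) .nil))))) .nil))) (.nd (nat_lit 5) 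
(.lf (nat_lit 140885) (.g (nat_lit 2128) (.e (nat_lit 24660) (nat_lit 13) (.e (nat_lit 393225) (nat_lit 9) (.e (nat_lit 335995) (nat_lit 1) (.e (nat_lit 57848) (nat_lit 252) (.e (nat_lit 57374) (nat_lit 2) (.e (nat_lit 90156) (nat_lit 11) .nil)))))) (.g (nat_lit 4) .nil .nil))) 
(.lf (nat_lit 140917) (.g (nat_lit 2757) (.e (nat_lit 24660) (nat_lit 13) (.e (nat_lit 393229) (nat_lit 9) (.e (nat_lit 335988) (nat_lit 1) (.e (nat_lit 57852) (nat_lit 252) (.e (nat_lit 57370) (nat_lit 2) (.e (nat_lit 90158) (nat_lit 11) .nil)))))) (.g (nat_lit 6) .nil .nil))))) (.nd (nat_lit 4) (.nd (nat_lit 5) 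
(.lf (nat_lit 140877) (.g (nat_lit 1940) (.e (nat_lit 24660) (nat_lit 13) (.e (nat_lit 393225) (nat_lit 9) (.e (nat_lit 335995) (nat_lit 1) (.e (nat_lit 57846) (nat_lit 252) .nil)))) .nil)) 
(.lf (nat_lit 140909) (.g (nat_lit 2183) (.e (nat_lit 24660) (nat_lit 13) (.e (nat_lit 393229) (nat_lit 9) (.e (nat_lit 335986) (nat_lit 1) (.e (nat_lit 57853) (nat_lit 252) (.e (nat_lit 57370) (nat_lit 2) (.e (nat_lit 90158) (nat_lit 11) .nil)))))) (.g (nat_lit 4) .nil .nil)))) (.nd (nat_lit 5) 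
(.lf (nat_lit 140893) (.g (nat_lit 2860) (.e (nat_lit 24660) (nat_lit 13) (.e (nat_lit 393225) (nat_lit 9) (.e (nat_lit 335996) (nat_lit 1) (.e (nat_lit 57853) (nat_lit 252) (.e (nat_lit 57371) (nat_lit 2) (.e (nat_lit 90158) (nat_lit 11) .nil)))))) (.g (nat_lit 6) .nil .nil))) 
(.lf (nat_lit 140925) (.g (nat_lit 1336) (.e (nat_lit 24660) (nat_lit 13) (.e (nat_lit 393229) (nat_lit 9) (.e (nat_lit 335994) (nat_lit 1) (.e (nat_lit 57844) (nat_lit 252) .nil)))) .nil)))))) (.nd (nat_lit 2) (.nd (nat_lit 3) (.nd (nat_lit 4) (.nd (nat_lit 5) 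
(.lf (nat_lit 140867) (.g (nat_lit 2471) (.e (nat_lit 24660) (nat_lit 13) (.e (nat_lit 393224) (nat_lit 9) (.e (nat_lit 335996) (nat_lit 1) (.e (nat_lit 57851) (nat_lit 252) (.e (nat_lit 57371) (nat_lit 2) (.e (nat_lit 90156) (nat_lit 11) .nil)))))) (.g (nat_lit 5) .nil .nil))) 
(.lf (nat_lit 140899) (.g (nat_lit 2346) (.e (nat_lit 24660) (nat_lit 13) (.e (nat_lit 393228) (nat_lit 9) (.e (nat_lit 335988) (nat_lit 1) (.e (nat_lit 57854) (nat_lit 252) (.e (nat_lit 57373) (nat_lit 2) (.e (nat_lit 90158) (nat_lit 11) .nil)))))) (.g (nat_lit 4) .nil .nil)))) (.nd (nat_lit 5) 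
(.lf (nat_lit 140883) (.g (nat_lit 1754) (.e (nat_lit 24660) (nat_lit 13) (.e (nat_lit 393225) (nat_lit 9) (.e (nat_lit 335995) (nat_lit 1) (.e (nat_lit 57848) (nat_lit 252) (.e (nat_lit 57370) (nat_lit 2) .nil))))) .nil)) 
(.lf (nat_lit 140915) (.g (nat_lit 2201) (.e (nat_lit 24660) (nat_lit 13) (.e (nat_lit 393229) (nat_lit 9) (.e (nat_lit 335987) (nat_lit 1) (.e (nat_lit 57854) (nat_lit 252) (.e (nat_lit 57371) (nat_lit 2) (.e (nat_lit 90158) (nat_lit 11) .nil)))))) (.g (nat_lit 5) .nil .nil))))) (.nd (nat_lit 4) (.nd (nat_lit 5) 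
(.lf (nat_lit 140875) (.g (nat_lit 2144) (.e (nat_lit 24660) (nat_lit 13) (.e (nat_lit 393225) (nat_lit 9) (.e (nat_lit 335995) (nat_lit 1) (.e (nat_lit 57844) (nat_lit 252) (.e (nat_lit 57371) (nat_lit 2) .nil))))) .nil)) 
(.lf (nat_lit 140907) (.g (nat_lit 3123) (.e (nat_lit 24660) (nat_lit 13) (.e (nat_lit 393229) (nat_lit 9) (.e (nat_lit 335986) (nat_lit 1) (.e (nat_lit 57849) (nat_lit 252) (.e (nat_lit 57372) (nat_lit 2) (.e (nat_lit 90158) (nat_lit 11) .nil)))))) (.g (nat_lit 0) .nil .nil)))) (.nd (nat_lit 5) 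
(.lf (nat_lit 140891) (.g (nat_lit 3016) (.e (nat_lit 24660) (nat_lit 13) (.e (nat_lit 393225) (nat_lit 9) (.e (nat_lit 335996) (nat_lit 1) (.e (nat_lit 57852) (nat_lit 252) (.e (nat_lit 57371) (nat_lit 2) (.e (nat_lit 90158) (nat_lit 11) .nil)))))) (.g (nat_lit 6) .nil .nil))) 
(.lf (nat_lit 140923) (.g (nat_lit 1705) (.e (nat_lit 24660) (nat_lit 13) (.e (nat_lit 393229) (nat_lit 9) (.e (nat_lit 335993) (nat_lit 1) (.e (nat_lit 57847) (nat_lit 252) (.e (nat_lit 57370) (nat_lit 2) (.e (nat_lit 90158) (nat_lit 11) .nil)))))) (.g (nat_lit 4) .nil .nil)))))) (.nd (nat_lit 3) (.nd (nat_lit 4) (.nd (nat_lit 5) 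
(.lf (nat_lit 140871) (.g (nat_lit 2504) (.e (nat_lit 24660) (nat_lit 13) (.e (nat_lit 393225) (nat_lit 9) (.e (nat_lit 335986) (nat_lit 1) (.e (nat_lit 57847) (nat_lit 252) (.e (nat_lit 57375) (nat_lit 2) (.e (nat_lit 90158) (nat_lit 11) .nil)))))) (.g (nat_lit 6) .nil .nil))) 
(.lf (nat_lit 140903) (.g (nat_lit 2852) (.e (nat_lit 24660) (nat_lit 13) (.e (nat_lit 393229) (nat_lit 9) (.e (nat_lit 335986) (nat_lit 1) (.e (nat_lit 57847) (nat_lit 252) (.e (nat_lit 57372) (nat_lit 2) (.e (nat_lit 90158) (nat_lit 11) .nil)))))) (.g (nat_lit 0) .nil .nil)))) (.nd (nat_lit 5) 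
(.lf (nat_lit 140887) (.g (nat_lit 2121) (.e (nat_lit 24660) (nat_lit 13) (.e (nat_lit 393225) (nat_lit 9) (.e (nat_lit 335995) (nat_lit 1) (.e (nat_lit 57853) (nat_lit 252) .nil)))) .nil)) 
(.lf (nat_lit 140919) (.g (nat_lit 2670) (.e (nat_lit 24660) (nat_lit 13) (.e (nat_lit 393229) (nat_lit 9) (.e (nat_lit 335988) (nat_lit 1) (.e (nat_lit 57854) (nat_lit 252) (.e (nat_lit 57370) (nat_lit 2) (.e (nat_lit 90158) (nat_lit 11) .nil)))))) (.g (nat_lit 6) .nil .nil))))) (.nd (nat_lit 4) (.nd (nat_lit 5) 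
(.lf (nat_lit 140879) (.g (nat_lit 3344) (.e (nat_lit 24660) (nat_lit 13) (.e (nat_lit 393225) (nat_lit 9) (.e (nat_lit 335995) (nat_lit 1) (.e (nat_lit 57847) (nat_lit 252) (.e (nat_lit 57372) (nat_lit 2) (.e (nat_lit 90160) (nat_lit 11) .nil)))))) (.g (nat_lit 6) .nil .nil))) 
(.lf (nat_lit 140911) (.g (nat_lit 2172) (.e (nat_lit 24660) (nat_lit 13) (.e (nat_lit 393229) (nat_lit 9) (.e (nat_lit 335986) (nat_lit 1) (.e (nat_lit 57854) (nat_lit 252) (.e (nat_lit 57370) (nat_lit 2) (.e (nat_lit 90158) (nat_lit 11) .nil)))))) (.g (nat_lit 5) .nil .nil)))) (.nd (nat_lit 5) 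
(.lf (nat_lit 140895) (.g (nat_lit 3295) (.e (nat_lit 24660) (nat_lit 13) (.e (nat_lit 393225) (nat_lit 9) (.e (nat_lit 335996) (nat_lit 1) (.e (nat_lit 57854) (nat_lit 252) (.e (nat_lit 57373) (nat_lit 2) (.e (nat_lit 90158) (nat_lit 11) .nil)))))) (.g (nat_lit 6) .nil .nil))) 
(.lf (nat_lit 140927) (.g (nat_lit 1337) (.e (nat_lit 24660) (nat_lit 13) (.e (nat_lit 393229) (nat_lit 9) (.e (nat_lit 335994) (nat_lit 1) (.e (nat_lit 57848) (nat_lit 252) .nil)))) .nil))))))))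

noncomputable def tv1872 : DT := (.nd (nat_lit 0) (.nd (nat_lit 1) (.nd (nat_lit 2) (.nd (nat_lit 3) (.nd (nat_lit 4) (.nd (nat_lit 5) (.nd (nat_lit 6) 
(.lf (nat_lit 140928) (.g (nat_lit 1851) (.e (nat_lit 24660) (nat_lit 13) (.e (nat_lit 393229) (nat_lit 9) (.e (nat_lit 335994) (nat_lit 1) (.e (nat_lit 57848) (nat_lit 252) (.e (nat_lit 57372) (nat_lit 2) (.e (nat_lit 90156) (nat_lit 11) .nil)))))) (.g (nat_lit 4) .nil .nil))) 
(.lf (nat_lit 140992) (.g (nat_lit 654) (.e (nat_lit 24660) (nat_lit 13) (.e (nat_lit 393260) (nat_lit 21) (.e (nat_lit 409608) (nat_lit 10) .nil))) .nil))) (.nd (nat_lit 6) 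
(.lf (nat_lit 140960) (.g (nat_lit 3468) (.e (nat_lit 24660) (nat_lit 13) (.e (nat_lit 393229) (nat_lit 9) (.e (nat_lit 335996) (nat_lit 1) (.e (nat_lit 57852) (nat_lit 252) (.e (nat_lit 57371) (nat_lit 2) (.e (nat_lit 90158) (nat_lit 11) .nil)))))) (.g (nat_lit 0) .nil .nil))) 
(.lf (nat_lit 141024) (.g (nat_lit 2358) (.e (nat_lit 24660) (nat_lit 13) (.e (nat_lit 393260) (nat_lit 21) (.e (nat_lit 409623) (nat_lit 10) (.e (nat_lit 5270) (nat_lit 298) (.e (nat_lit 1312) (nat_lit 98) .nil))))) .nil)))) (.nd (nat_lit 5) (.nd (nat_lit 6) 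
(.lf (nat_lit 140944) (.g (nat_lit 1090) (.e (nat_lit 24660) (nat_lit 13) (.e (nat_lit 393229) (nat_lit 9) (.e (nat_lit 335995) (nat_lit 1) (.e (nat_lit 57848) (nat_lit 252) .nil)))) .nil)) 
(.lf (nat_lit 141008) (.g (nat_lit 417) (.e (nat_lit 24660) (nat_lit 13) (.e (nat_lit 393260) (nat_lit 21) (.e (nat_lit 409617) (nat_lit 10) .nil))) .nil))) (.nd (nat_lit 6) 
(.lf (nat_lit 140976) (.g (nat_lit 540) (.e (nat_lit 24660) (nat_lit 13) (.e (nat_lit 393238) (nat_lit 17) (.e (nat_lit 7099) (nat_lit 380) .nil))) .nil)) 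
(.lf (nat_lit 141040) (.g (nat_lit 1805) (.e (nat_lit 32512) (nat_lit 13) (.e (nat_lit 393225) (nat_lit 9) (.e (nat_lit 335996) (nat_lit 1) (.e (nat_lit 57854) (nat_lit 252) (.e (nat_lit 57371) (nat_lit 2) .nil))))) .nil))))) (.nd (nat_lit 4) (.nd (nat_lit 5) (.nd (nat_lit 6) 
(.lf (nat_lit 140936) (.g (nat_lit 2810) (.e (nat_lit 24660) (nat_lit 13) (.e (nat_lit 393229) (nat_lit 9) (.e (nat_lit 335995) (nat_lit 1) (.e (nat_lit 57845) (nat_lit 252) .nil)))) .nil)) 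
(.lf (nat_lit 141000) (.g (nat_lit 1631) (.e (nat_lit 24660) (nat_lit 13) (.e (nat_lit 393260) (nat_lit 21) (.e (nat_lit 409616) (nat_lit 10) (.e (nat_lit 4932) (nat_lit 287) (.e (nat_lit 2577) (nat_lit 161) .nil))))) .nil))) (.nd (nat_lit 6) 
(.lf (nat_lit 140968) (.g (nat_lit 2313) (.e (nat_lit 24660) (nat_lit 13) (.e (nat_lit 393229) (nat_lit 9) (.e (nat_lit 335996) (nat_lit 1) (.e (nat_lit 57854) (nat_lit 252) (.e (nat_lit 57373) (nat_lit 2) (.e (nat_lit 90157) (nat_lit 11) .nil)))))) (.g (nat_lit 4) .nil .nil))) 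
(.lf (nat_lit 141032) (.g (nat_lit 1501) (.e (nat_lit 24660) (nat_lit 13) (.e (nat_lit 393260) (nat_lit 21) (.e (nat_lit 409641) (nat_lit 17) (.e (nat_lit 294934) (nat_lit 6) .nil)))) .nil)))) (.nd (nat_lit 5) (.nd (nat_lit 6) 
(.lf (nat_lit 140952) (.g (nat_lit 2442) (.e (nat_lit 24660) (nat_lit 13) (.e (nat_lit 393229) (nat_lit 9) (.e (nat_lit 335995) (nat_lit 1) (.e (nat_lit 57853) (nat_lit 252) .nil)))) .nil)) 
(.lf (nat_lit 141016) (.g (nat_lit 1380) (.e (nat_lit 24660) (nat_lit 13) (.e (nat_lit 393260) (nat_lit 21) (.e (nat_lit 409617) (nat_lit 10) (.e (nat_lit 7936) (nat_lit 304) .nil)))) .nil))) (.nd (nat_lit 6) 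
(.lf (nat_lit 140984) (.g (nat_lit 1158) (.e (nat_lit 24660) (nat_lit 13) (.e (nat_lit 393238) (nat_lit 17) (.e (nat_lit 7107) (nat_lit 380) (.e (nat_lit 164288) (nat_lit 224) .nil)))) .nil)) 
(.lf (nat_lit 141048) (.g (nat_lit 474) (.e (nat_lit 24661) (nat_lit 14) (.e (nat_lit 401414) (nat_lit 0) (.e (nat_lit 3124) (nat_lit 193) .nil))) .nil)))))) (.nd (nat_lit 3) (.nd (nat_lit 4) (.nd (nat_lit 5) (.nd (nat_lit 6) 
(.lf (nat_lit 140932) (.g (nat_lit 3159) (.e (nat_lit 24660) (nat_lit 13) (.e (nat_lit 393229) (nat_lit 9) (.e (nat_lit 335994) (nat_lit 1) (.e (nat_lit 57854) (nat_lit 252) (.e (nat_lit 57373) (nat_lit 2) (.e (nat_lit 90159) (nat_lit 11) .nil)))))) (.g (nat_lit 6) .nil .nil))) 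
(.lf (nat_lit 140996) (.g (nat_lit 189) (.e (nat_lit 24660) (nat_lit 13) (.e (nat_lit 393260) (nat_lit 21) (.e (nat_lit 409616) (nat_lit 10) .nil))) .nil))) (.nd (nat_lit 6) 
(.lf (nat_lit 140964) (.g (nat_lit 3084) (.e (nat_lit 24660) (nat_lit 13) (.e (nat_lit 393229) (nat_lit 9) (.e (nat_lit 335996) (nat_lit 1) (.e (nat_lit 57854) (nat_lit 252) (.e (nat_lit 57370) (nat_lit 2) (.e (nat_lit 90158) (nat_lit 11) .nil)))))) (.g (nat_lit 6) .nil .nil))) 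
(.lf (nat_lit 141028) (.g (nat_lit 546) (.e (nat_lit 24660) (nat_lit 13) (.e (nat_lit 393260) (nat_lit 21) (.e (nat_lit 409636) (nat_lit 14) .nil))) .nil)))) (.nd (nat_lit 5) (.nd (nat_lit 6) 
(.lf (nat_lit 140948) (.g (nat_lit 1783) (.e (nat_lit 24660) (nat_lit 13) (.e (nat_lit 393229) (nat_lit 9) (.e (nat_lit 335995) (nat_lit 1) (.e (nat_lit 57849) (nat_lit 252) (.e (nat_lit 57375) (nat_lit 2) .nil))))) .nil)) 
(.lf (nat_lit 141012) (.g (nat_lit 1674) (.e (nat_lit 24660) (nat_lit 13) (.e (nat_lit 393260) (nat_lit 21) (.e (nat_lit 409617) (nat_lit 10) (.e (nat_lit 4981) (nat_lit 287) .nil)))) .nil))) (.nd (nat_lit 6) 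
(.lf (nat_lit 140980) (.g (nat_lit 1614) (.e (nat_lit 24660) (nat_lit 13) (.e (nat_lit 393238) (nat_lit 17) (.e (nat_lit 7107) (nat_lit 380) (.e (nat_lit 164262) (nat_lit 221) .nil)))) .nil)) 
(.lf (nat_lit 141044) (.g (nat_lit 1687) (.e (nat_lit 32512) (nat_lit 13) (.e (nat_lit 393300) (nat_lit 27) (.e (nat_lit 491556) (nat_lit 9) (.e (nat_lit 336051) (nat_lit 6) .nil)))) .nil))))) (.nd (nat_lit 4) (.nd (nat_lit 5) (.nd (nat_lit 6) 
(.lf (nat_lit 140940) (.g (nat_lit 3124) (.e (nat_lit 24660) (nat_lit 13) (.e (nat_lit 393229) (nat_lit 9) (.e (nat_lit 335995) (nat_lit 1) (.e (nat_lit 57847) (nat_lit 252) (.e (nat_lit 57372) (nat_lit 2) (.e (nat_lit 90158) (nat_lit 11) .nil)))))) (.g (nat_lit 0) .nil .nil))) 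
(.lf (nat_lit 141004) (.g (nat_lit 1559) (.e (nat_lit 24660) (nat_lit 13) (.e (nat_lit 393260) (nat_lit 21) (.e (nat_lit 409616) (nat_lit 10) (.e (nat_lit 4979) (nat_lit 287) (.e (nat_lit 2577) (nat_lit 161) .nil))))) .nil))) (.nd (nat_lit 6) 
(.lf (nat_lit 140972) (.g (nat_lit 1723) (.e (nat_lit 24660) (nat_lit 13) (.e (nat_lit 393232) (nat_lit 17) (.e (nat_lit 7591) (nat_lit 407) (.e (nat_lit 73775) (nat_lit 26) (.e (nat_lit 778463) (nat_lit 11) .nil))))) (.g (nat_lit 4) .nil .nil))) 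
(.lf (nat_lit 141036) (.g (nat_lit 1569) (.e (nat_lit 24660) (nat_lit 13) (.e (nat_lit 393299) (nat_lit 27) (.e (nat_lit 491546) (nat_lit 9) (.e (nat_lit 336048) (nat_lit 6) .nil)))) .nil)))) (.nd (nat_lit 5) (.nd (nat_lit 6) 
(.lf (nat_lit 140956) (.g (nat_lit 2061) (.e (nat_lit 24660) (nat_lit 13) (.e (nat_lit 393229) (nat_lit 9) (.e (nat_lit 335996) (nat_lit 1) (.e (nat_lit 57851) (nat_lit 252) (.e (nat_lit 57370) (nat_lit 2) (.e (nat_lit 90158) (nat_lit 11) .nil)))))) (.g (nat_lit 4) .nil .nil))) 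
(.lf (nat_lit 141020) (.g (nat_lit 1369) (.e (nat_lit 24660) (nat_lit 13) (.e (nat_lit 393260) (nat_lit 21) (.e (nat_lit 409618) (nat_lit 10) (.e (nat_lit 5024) (nat_lit 290) .nil)))) .nil))) (.nd (nat_lit 6) 
(.lf (nat_lit 140988) (.g (nat_lit 1214) (.e (nat_lit 24660) (nat_lit 13) (.e (nat_lit 393259) (nat_lit 21) (.e (nat_lit 409618) (nat_lit 10) (.e (nat_lit 5023) (nat_lit 290) .nil)))) .nil)) 
(.lf (nat_lit 141052) (.g (nat_lit 3178) (.e (nat_lit 24661) (nat_lit 14) (.e (nat_lit 401425) (nat_lit 2) (.e (nat_lit 196666) (nat_lit 13) (.e (nat_lit 65617) (nat_lit 10) (.e (nat_lit 344132) (nat_lit 26) (.e (nat_lit 557085) (nat_lit 11) .nil)))))) (.g (nat_lit 4) .nil .nil)))))))) (.nd (nat_lit 2) (.nd (nat_lit 3) (.nd (nat_lit 4) (.nd (nat_lit 5) (.nd (nat_lit 6) 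
(.lf (nat_lit 140930) (.g (nat_lit 1631) (.e (nat_lit 24660) (nat_lit 13) (.e (nat_lit 393229) (nat_lit 9) (.e (nat_lit 335994) (nat_lit 1) (.e (nat_lit 57851) (nat_lit 252) (.e (nat_lit 57371) (nat_lit 2) .nil))))) .nil)) 
(.lf (nat_lit 140994) (.g (nat_lit 1324) (.e (nat_lit 24660) (nat_lit 13) (.e (nat_lit 393260) (nat_lit 21) (.e (nat_lit 409614) (nat_lit 10) (.e (nat_lit 4873) (nat_lit 287) .nil)))) .nil))) (.nd (nat_lit 6) 
(.lf (nat_lit 140962) (.g (nat_lit 3037) (.e (nat_lit 24660) (nat_lit 13) (.e (nat_lit 393229) (nat_lit 9) (.e (nat_lit 335996) (nat_lit 1) (.e (nat_lit 57853) (nat_lit 252) (.e (nat_lit 57370) (nat_lit 2) (.e (nat_lit 90158) (nat_lit 11) .nil)))))) (.g (nat_lit 6) .nil .nil))) 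
(.lf (nat_lit 141026) (.g (nat_lit 507) (.e (nat_lit 24660) (nat_lit 13) (.e (nat_lit 393260) (nat_lit 21) (.e (nat_lit 417536) (nat_lit 10) .nil))) .nil)))) (.nd (nat_lit 5) (.nd (nat_lit 6) 
(.lf (nat_lit 140946) (.g (nat_lit 3527) (.e (nat_lit 24660) (nat_lit 13) (.e (nat_lit 393229) (nat_lit 9) (.e (nat_lit 335995) (nat_lit 1) (.e (nat_lit 57849) (nat_lit 252) (.e (nat_lit 57372) (nat_lit 2) (.e (nat_lit 90158) (nat_lit 11) .nil)))))) (.g (nat_lit 0) .nil .nil))) 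
(.lf (nat_lit 141010) (.g (nat_lit 2183) (.e (nat_lit 24660) (nat_lit 13) (.e (nat_lit 393260) (nat_lit 21) (.e (nat_lit 409617) (nat_lit 10) (.e (nat_lit 4926) (nat_lit 287) (.e (nat_lit 2576) (nat_lit 161) (.e (nat_lit 40995) (nat_lit 11) .nil)))))) (.g (nat_lit 6) .nil .nil)))) (.nd (nat_lit 6) 
(.lf (nat_lit 140978) (.g (nat_lit 1096) (.e (nat_lit 24660) (nat_lit 13) (.e (nat_lit 393238) (nat_lit 17) (.e (nat_lit 7101) (nat_lit 380) (.e (nat_lit 164269) (nat_lit 221) .nil)))) .nil)) 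
(.lf (nat_lit 141042) (.g (nat_lit 513) (.e (nat_lit 32512) (nat_lit 13) (.e (nat_lit 393232) (nat_lit 17) (.e (nat_lit 7587) (nat_lit 406) .nil))) .nil))))) (.nd (nat_lit 4) (.nd (nat_lit 5) (.nd (nat_lit 6) 
(.lf (nat_lit 140938) (.g (nat_lit 3246) (.e (nat_lit 24660) (nat_lit 13) (.e (nat_lit 393229) (nat_lit 9) (.e (nat_lit 335995) (nat_lit 1) (.e (nat_lit 57846) (nat_lit 252) (.e (nat_lit 57373) (nat_lit 2) (.e (nat_lit 90158) (nat_lit 11) .nil)))))) (.g (nat_lit 5) .nil .nil))) 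
(.lf (nat_lit 141002) (.g (nat_lit 1635) (.e (nat_lit 24660) (nat_lit 13) (.e (nat_lit 393260) (nat_lit 21) (.e (nat_lit 409616) (nat_lit 10) (.e (nat_lit 4977) (nat_lit 287) .nil)))) .nil))) (.nd (nat_lit 6) 
(.lf (nat_lit 140970) (.g (nat_lit 1519) (.e (nat_lit 24660) (nat_lit 13) (.e (nat_lit 393231) (nat_lit 17) (.e (nat_lit 7591) (nat_lit 407) (.e (nat_lit 73776) (nat_lit 26) (.e (nat_lit 778463) (nat_lit 11) .nil))))) (.g (nat_lit 4) .nil .nil))) 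
(.lf (nat_lit 141034) (.g (nat_lit 1500) (.e (nat_lit 24660) (nat_lit 13) (.e (nat_lit 393298) (nat_lit 27) (.e (nat_lit 491546) (nat_lit 9) (.e (nat_lit 336048) (nat_lit 6) .nil)))) .nil)))) (.nd (nat_lit 5) (.nd (nat_lit 6) 
(.lf (nat_lit 140954) (.g (nat_lit 3349) (.e (nat_lit 24660) (nat_lit 13) (.e (nat_lit 393229) (nat_lit 9) (.e (nat_lit 335995) (nat_lit 1) (.e (nat_lit 57853) (nat_lit 252) (.e (nat_lit 57371) (nat_lit 2) (.e (nat_lit 90158) (nat_lit 11) .nil)))))) (.g (nat_lit 4) .nil .nil))) 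
(.lf (nat_lit 141018) (.g (nat_lit 1510) (.e (nat_lit 24660) (nat_lit 13) (.e (nat_lit 393260) (nat_lit 21) (.e (nat_lit 409618) (nat_lit 10) (.e (nat_lit 4859) (nat_lit 287) .nil)))) .nil))) (.nd (nat_lit 6) 
(.lf (nat_lit 140986) (.g (nat_lit 1640) (.e (nat_lit 24660) (nat_lit 13) (.e (nat_lit 393238) (nat_lit 17) (.e (nat_lit 7107) (nat_lit 380) (.e (nat_lit 164292) (nat_lit 224) .nil)))) .nil)) 
(.lf (nat_lit 141050) (.g (nat_lit 2871) (.e (nat_lit 24661) (nat_lit 14) (.e (nat_lit 401423) (nat_lit 2) (.e (nat_lit 196666) (nat_lit 13) (.e (nat_lit 65617) (nat_lit 10) (.e (nat_lit 344130) (nat_lit 26) (.e (nat_lit 557087) (nat_lit 11) .nil)))))) (.g (nat_lit 4) .nil .nil))))))) (.nd (nat_lit 3) (.nd (nat_lit 4) (.nd (nat_lit 5) (.nd (nat_lit 6) 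
(.lf (nat_lit 140934) (.g (nat_lit 2774) (.e (nat_lit 24660) (nat_lit 13) (.e (nat_lit 393229) (nat_lit 9) (.e (nat_lit 335995) (nat_lit 1) (.e (nat_lit 57844) (nat_lit 252) (.e (nat_lit 57371) (nat_lit 2) .nil))))) .nil)) 
(.lf (nat_lit 140998) (.g (nat_lit 1358) (.e (nat_lit 24660) (nat_lit 13) (.e (nat_lit 393260) (nat_lit 21) (.e (nat_lit 409616) (nat_lit 10) (.e (nat_lit 4929) (nat_lit 287) .nil)))) .nil))) (.nd (nat_lit 6) 
(.lf (nat_lit 140966) (.g (nat_lit 3471) (.e (nat_lit 24660) (nat_lit 13) (.e (nat_lit 393229) (nat_lit 9) (.e (nat_lit 335996) (nat_lit 1) (.e (nat_lit 57854) (nat_lit 252) (.e (nat_lit 57371) (nat_lit 2) (.e (nat_lit 90158) (nat_lit 11) .nil)))))) (.g (nat_lit 0) .nil .nil))) 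
(.lf (nat_lit 141030) (.g (nat_lit 507) (.e (nat_lit 24660) (nat_lit 13) (.e (nat_lit 393260) (nat_lit 21) (.e (nat_lit 417536) (nat_lit 16) .nil))) .nil)))) (.nd (nat_lit 5) (.nd (nat_lit 6) 
(.lf (nat_lit 140950) (.g (nat_lit 2840) (.e (nat_lit 24660) (nat_lit 13) (.e (nat_lit 393229) (nat_lit 9) (.e (nat_lit 335995) (nat_lit 1) (.e (nat_lit 57851) (nat_lit 252) .nil)))) .nil)) 
(.lf (nat_lit 141014) (.g (nat_lit 2440) (.e (nat_lit 24660) (nat_lit 13) (.e (nat_lit 393260) (nat_lit 21) (.e (nat_lit 409617) (nat_lit 10) (.e (nat_lit 5355) (nat_lit 298) (.e (nat_lit 1310) (nat_lit 98) (.e (nat_lit 147492) (nat_lit 11) .nil)))))) (.g (nat_lit 4) .nil .nil)))) (.nd (nat_lit 6) 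
(.lf (nat_lit 140982) (.g (nat_lit 1604) (.e (nat_lit 24660) (nat_lit 13) (.e (nat_lit 393238) (nat_lit 17) (.e (nat_lit 7107) (nat_lit 380) (.e (nat_lit 164285) (nat_lit 224) .nil)))) .nil)) 
(.lf (nat_lit 141046) (.g (nat_lit 2029) (.e (nat_lit 32512) (nat_lit 13) (.e (nat_lit 393301) (nat_lit 27) (.e (nat_lit 491556) (nat_lit 9) (.e (nat_lit 336051) (nat_lit 6) (.e (nat_lit 147496) (nat_lit 11) .nil))))) .nil))))) (.nd (nat_lit 4) (.nd (nat_lit 5) (.nd (nat_lit 6) 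
(.lf (nat_lit 140942) (.g (nat_lit 1697) (.e (nat_lit 24660) (nat_lit 13) (.e (nat_lit 393229) (nat_lit 9) (.e (nat_lit 335995) (nat_lit 1) (.e (nat_lit 57847) (nat_lit 252) (.e (nat_lit 57375) (nat_lit 2) .nil))))) .nil)) 
(.lf (nat_lit 141006) (.g (nat_lit 1424) (.e (nat_lit 24660) (nat_lit 13) (.e (nat_lit 393260) (nat_lit 21) (.e (nat_lit 409616) (nat_lit 10) (.e (nat_lit 5345) (nat_lit 298) .nil)))) .nil))) (.nd (nat_lit 6) 
(.lf (nat_lit 140974) (.g (nat_lit 399) (.e (nat_lit 24660) (nat_lit 13) (.e (nat_lit 393238) (nat_lit 17) (.e (nat_lit 6989) (nat_lit 377) .nil))) .nil)) 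
(.lf (nat_lit 141038) (.g (nat_lit 1936) (.e (nat_lit 32512) (nat_lit 13) (.e (nat_lit 393225) (nat_lit 9) (.e (nat_lit 335995) (nat_lit 1) (.e (nat_lit 57847) (nat_lit 252) (.e (nat_lit 57375) (nat_lit 2) .nil))))) .nil)))) (.nd (nat_lit 5) (.nd (nat_lit 6) 
(.lf (nat_lit 140958) (.g (nat_lit 3535) (.e (nat_lit 24660) (nat_lit 13) (.e (nat_lit 393229) (nat_lit 9) (.e (nat_lit 335996) (nat_lit 1) (.e (nat_lit 57851) (nat_lit 252) (.e (nat_lit 57371) (nat_lit 2) (.e (nat_lit 90160) (nat_lit 11) .nil)))))) (.g (nat_lit 6) .nil .nil))) 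
(.lf (nat_lit 141022) (.g (nat_lit 1012) (.e (nat_lit 24660) (nat_lit 13) (.e (nat_lit 393260) (nat_lit 21) (.e (nat_lit 409622) (nat_lit 10) (.e (nat_lit 4877) (nat_lit 287) .nil)))) .nil))) (.nd (nat_lit 6) 
(.lf (nat_lit 140990) (.g (nat_lit 272) (.e (nat_lit 24660) (nat_lit 13) (.e (nat_lit 393259) (nat_lit 21) (.e (nat_lit 409636) (nat_lit 14) .nil))) .nil)) 
(.lf (nat_lit 141054) (.g (nat_lit 975) (.e (nat_lit 24661) (nat_lit 14) (.e (nat_lit 401459) (nat_lit 13) (.e (nat_lit 483350) (nat_lit 17) .nil))) .nil)))))))) (.nd (nat_lit 1) (.nd (nat_lit 2) (.nd (nat_lit 3) (.nd (nat_lit 4) (.nd (nat_lit 5) (.nd (nat_lit 6) 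
(.lf (nat_lit 140929) (.g (nat_lit 2000) (.e (nat_lit 24660) (nat_lit 13) (.e (nat_lit 393229) (nat_lit 9) (.e (nat_lit 335994) (nat_lit 1) (.e (nat_lit 57848) (nat_lit 252) (.e (nat_lit 57375) (nat_lit 2) (.e (nat_lit 90159) (nat_lit 11) .nil)))))) (.g (nat_lit 4) .nil .nil))) 
(.lf (nat_lit 140993) (.g (nat_lit 929) (.e (nat_lit 24660) (nat_lit 13) (.e (nat_lit 393260) (nat_lit 21) (.e (nat_lit 409614) (nat_lit 10) .nil))) .nil))) (.nd (nat_lit 6) 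
(.lf (nat_lit 140961) (.g (nat_lit 1942) (.e (nat_lit 24660) (nat_lit 13) (.e (nat_lit 393229) (nat_lit 9) (.e (nat_lit 335996) (nat_lit 1) (.e (nat_lit 57852) (nat_lit 252) (.e (nat_lit 57373) (nat_lit 2) .nil))))) .nil)) 
(.lf (nat_lit 141025) (.g (nat_lit 2632) (.e (nat_lit 24660) (nat_lit 13) (.e (nat_lit 393260) (nat_lit 21) (.e (nat_lit 409623) (nat_lit 10) (.e (nat_lit 5293) (nat_lit 298) (.e (nat_lit 1310) (nat_lit 98) (.e (nat_lit 147493) (nat_lit 11) .nil)))))) (.g (nat_lit 6) .nil .nil))))) (.nd (nat_lit 5) (.nd (nat_lit 6) 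
(.lf (nat_lit 140945) (.g (nat_lit 2612) (.e (nat_lit 24660) (nat_lit 13) (.e (nat_lit 393229) (nat_lit 9) (.e (nat_lit 335995) (nat_lit 1) (.e (nat_lit 57848) (nat_lit 252) (.e (nat_lit 57372) (nat_lit 2) (.e (nat_lit 90156) (nat_lit 11) .nil)))))) (.g (nat_lit 0) .nil .nil))) 
(.lf (nat_lit 141009) (.g (nat_lit 1424) (.e (nat_lit 24660) (nat_lit 13) (.e (nat_lit 393260) (nat_lit 21) (.e (nat_lit 409617) (nat_lit 10) (.e (nat_lit 4926) (nat_lit 287) .nil)))) .nil))) (.nd (nat_lit 6) 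
(.lf (nat_lit 140977) (.g (nat_lit 524) (.e (nat_lit 24660) (nat_lit 13) (.e (nat_lit 393238) (nat_lit 17) (.e (nat_lit 7101) (nat_lit 380) .nil))) .nil)) 
(.lf (nat_lit 141041) (.g (nat_lit 1908) (.e (nat_lit 32512) (nat_lit 13) (.e (nat_lit 393225) (nat_lit 9) (.e (nat_lit 335996) (nat_lit 1) (.e (nat_lit 57854) (nat_lit 252) (.e (nat_lit 57373) (nat_lit 2) .nil))))) .nil))))) (.nd (nat_lit 4) (.nd (nat_lit 5) (.nd (nat_lit 6) 
(.lf (nat_lit 140937) (.g (nat_lit 2949) (.e (nat_lit 24660) (nat_lit 13) (.e (nat_lit 393229) (nat_lit 9) (.e (nat_lit 335995) (nat_lit 1) (.e (nat_lit 57846) (nat_lit 252) (.e (nat_lit 57370) (nat_lit 2) (.e (nat_lit 90158) (nat_lit 11) .nil)))))) (.g (nat_lit 5) .nil .nil))) 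
(.lf (nat_lit 141001) (.g (nat_lit 1557) (.e (nat_lit 24660) (nat_lit 13) (.e (nat_lit 393260) (nat_lit 21) (.e (nat_lit 409616) (nat_lit 10) (.e (nat_lit 4934) (nat_lit 287) .nil)))) .nil))) (.nd (nat_lit 6) 
(.lf (nat_lit 140969) (.g (nat_lit 534) (.e (nat_lit 24660) (nat_lit 13) (.e (nat_lit 393231) (nat_lit 17) (.e (nat_lit 7587) (nat_lit 406) (.e (nat_lit 65580) (nat_lit 6) .nil)))) .nil)) 
(.lf (nat_lit 141033) (.g (nat_lit 1278) (.e (nat_lit 24660) (nat_lit 13) (.e (nat_lit 393260) (nat_lit 21) (.e (nat_lit 409642) (nat_lit 17) (.e (nat_lit 294934) (nat_lit 6) .nil)))) .nil)))) (.nd (nat_lit 5) (.nd (nat_lit 6) 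
(.lf (nat_lit 140953) (.g (nat_lit 3121) (.e (nat_lit 24660) (nat_lit 13) (.e (nat_lit 393229) (nat_lit 9) (.e (nat_lit 335995) (nat_lit 1) (.e (nat_lit 57853) (nat_lit 252) (.e (nat_lit 57370) (nat_lit 2) .nil))))) .nil)) 
(.lf (nat_lit 141017) (.g (nat_lit 504) (.e (nat_lit 24660) (nat_lit 13) (.e (nat_lit 393260) (nat_lit 21) (.e (nat_lit 409618) (nat_lit 10) .nil))) .nil))) (.nd (nat_lit 6) 
(.lf (nat_lit 140985) (.g (nat_lit 1616) (.e (nat_lit 24660) (nat_lit 13) (.e (nat_lit 393238) (nat_lit 17) (.e (nat_lit 7107) (nat_lit 380) (.e (nat_lit 164290) (nat_lit 224) .nil)))) .nil)) 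
(.lf (nat_lit 141049) (.g (nat_lit 1211) (.e (nat_lit 24661) (nat_lit 14) (.e (nat_lit 401414) (nat_lit 0) (.e (nat_lit 3469) (nat_lit 217) (.e (nat_lit 696350) (nat_lit 13) .nil)))) .nil)))))) (.nd (nat_lit 3) (.nd (nat_lit 4) (.nd (nat_lit 5) (.nd (nat_lit 6) 
(.lf (nat_lit 140933) (.g (nat_lit 2228) (.e (nat_lit 24660) (nat_lit 13) (.e (nat_lit 393229) (nat_lit 9) (.e (nat_lit 335995) (nat_lit 1) (.e (nat_lit 57844) (nat_lit 252) .nil)))) .nil)) 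
(.lf (nat_lit 140997) (.g (nat_lit 1388) (.e (nat_lit 24660) (nat_lit 13) (.e (nat_lit 393260) (nat_lit 21) (.e (nat_lit 409616) (nat_lit 10) (.e (nat_lit 4926) (nat_lit 287) .nil)))) .nil))) (.nd (nat_lit 6) 
(.lf (nat_lit 140965) (.g (nat_lit 2382) (.e (nat_lit 24660) (nat_lit 13) (.e (nat_lit 393229) (nat_lit 9) (.e (nat_lit 335996) (nat_lit 1) (.e (nat_lit 57854) (nat_lit 252) (.e (nat_lit 57371) (nat_lit 2) (.e (nat_lit 90156) (nat_lit 11) .nil)))))) (.g (nat_lit 4) .nil .nil))) 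
(.lf (nat_lit 141029) (.g (nat_lit 960) (.e (nat_lit 24660) (nat_lit 13) (.e (nat_lit 393260) (nat_lit 21) (.e (nat_lit 409637) (nat_lit 15) .nil))) .nil)))) (.nd (nat_lit 5) (.nd (nat_lit 6) 
(.lf (nat_lit 140949) (.g (nat_lit 3534) (.e (nat_lit 24660) (nat_lit 13) (.e (nat_lit 393229) (nat_lit 9) (.e (nat_lit 335995) (nat_lit 1) (.e (nat_lit 57849) (nat_lit 252) (.e (nat_lit 57375) (nat_lit 2) (.e (nat_lit 90158) (nat_lit 11) .nil)))))) (.g (nat_lit 0) .nil .nil))) 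
(.lf (nat_lit 141013) (.g (nat_lit 1573) (.e (nat_lit 24660) (nat_lit 13) (.e (nat_lit 393260) (nat_lit 21) (.e (nat_lit 409617) (nat_lit 10) (.e (nat_lit 5016) (nat_lit 290) .nil)))) .nil))) (.nd (nat_lit 6) 
(.lf (nat_lit 140981) (.g (nat_lit 1439) (.e (nat_lit 24660) (nat_lit 13) (.e (nat_lit 393238) (nat_lit 17) (.e (nat_lit 7107) (nat_lit 380) (.e (nat_lit 164284) (nat_lit 224) .nil)))) .nil)) 
(.lf (nat_lit 141045) (.g (nat_lit 480) (.e (nat_lit 32512) (nat_lit 13) (.e (nat_lit 393300) (nat_lit 27) (.e (nat_lit 491560) (nat_lit 10) .nil))) .nil))))) (.nd (nat_lit 4) (.nd (nat_lit 5) (.nd (nat_lit 6) 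
(.lf (nat_lit 140941) (.g (nat_lit 3484) (.e (nat_lit 24660) (nat_lit 13) (.e (nat_lit 393229) (nat_lit 9) (.e (nat_lit 335995) (nat_lit 1) (.e (nat_lit 57847) (nat_lit 252) (.e (nat_lit 57372) (nat_lit 2) (.e (nat_lit 90160) (nat_lit 11) .nil)))))) (.g (nat_lit 0) .nil .nil))) 
(.lf (nat_lit 141005) (.g (nat_lit 1445) (.e (nat_lit 24660) (nat_lit 13) (.e (nat_lit 393260) (nat_lit 21) (.e (nat_lit 409616) (nat_lit 10) (.e (nat_lit 5016) (nat_lit 290) .nil)))) .nil))) (.nd (nat_lit 6) 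
(.lf (nat_lit 140973) (.g (nat_lit 844) (.e (nat_lit 24660) (nat_lit 13) (.e (nat_lit 393232) (nat_lit 17) (.e (nat_lit 7591) (nat_lit 407) (.e (nat_lit 73776) (nat_lit 26) .nil)))) .nil)) 
(.lf (nat_lit 141037) (.g (nat_lit 1840) (.e (nat_lit 24660) (nat_lit 13) (.e (nat_lit 393299) (nat_lit 27) (.e (nat_lit 491560) (nat_lit 10) (.e (nat_lit 344179) (nat_lit 44) (.e (nat_lit 778463) (nat_lit 11) .nil))))) (.g (nat_lit 4) .nil .nil))))) (.nd (nat_lit 5) (.nd (nat_lit 6) 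
(.lf (nat_lit 140957) (.g (nat_lit 3078) (.e (nat_lit 24660) (nat_lit 13) (.e (nat_lit 393229) (nat_lit 9) (.e (nat_lit 335996) (nat_lit 1) (.e (nat_lit 57851) (nat_lit 252) (.e (nat_lit 57371) (nat_lit 2) (.e (nat_lit 90156) (nat_lit 11) .nil)))))) (.g (nat_lit 0) .nil .nil))) 
(.lf (nat_lit 141021) (.g (nat_lit 651) (.e (nat_lit 24660) (nat_lit 13) (.e (nat_lit 393260) (nat_lit 21) (.e (nat_lit 409622) (nat_lit 10) .nil))) .nil))) (.nd (nat_lit 6) 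
(.lf (nat_lit 140989) (.g (nat_lit 1099) (.e (nat_lit 24660) (nat_lit 13) (.e (nat_lit 393259) (nat_lit 21) (.e (nat_lit 409618) (nat_lit 10) (.e (nat_lit 5024) (nat_lit 290) .nil)))) .nil)) 
(.lf (nat_lit 141053) (.g (nat_lit 742) (.e (nat_lit 24661) (nat_lit 14) (.e (nat_lit 401448) (nat_lit 10) (.e (nat_lit 434289) (nat_lit 43) .nil))) .nil))))))) (.nd (nat_lit 2) (.nd (nat_lit 3) (.nd (nat_lit 4) (.nd (nat_lit 5) (.nd (nat_lit 6) 
(.lf (nat_lit 140931) (.g (nat_lit 1414) (.e (nat_lit 24660) (nat_lit 13) (.e (nat_lit 393229) (nat_lit 9) (.e (nat_lit 335994) (nat_lit 1) (.e (nat_lit 57854) (nat_lit 252) .nil)))) .nil)) 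
(.lf (nat_lit 140995) (.g (nat_lit 625) (.e (nat_lit 24660) (nat_lit 13) (.e (nat_lit 393260) (nat_lit 21) (.e (nat_lit 409615) (nat_lit 10) .nil))) .nil))) (.nd (nat_lit 6) 
(.lf (nat_lit 140963) (.g (nat_lit 3432) (.e (nat_lit 24660) (nat_lit 13) (.e (nat_lit 393229) (nat_lit 9) (.e (nat_lit 335996) (nat_lit 1) (.e (nat_lit 57853) (nat_lit 252) (.e (nat_lit 57371) (nat_lit 2) (.e (nat_lit 90158) (nat_lit 11) .nil)))))) (.g (nat_lit 6) .nil .nil))) 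
(.lf (nat_lit 141027) (.g (nat_lit 982) (.e (nat_lit 24660) (nat_lit 13) (.e (nat_lit 393260) (nat_lit 21) (.e (nat_lit 409635) (nat_lit 14) .nil))) .nil)))) (.nd (nat_lit 5) (.nd (nat_lit 6) 
(.lf (nat_lit 140947) (.g (nat_lit 3752) (.e (nat_lit 24660) (nat_lit 13) (.e (nat_lit 393229) (nat_lit 9) (.e (nat_lit 335995) (nat_lit 1) (.e (nat_lit 57849) (nat_lit 252) (.e (nat_lit 57372) (nat_lit 2) (.e (nat_lit 90160) (nat_lit 11) .nil)))))) (.g (nat_lit 0) .nil .nil))) 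
(.lf (nat_lit 141011) (.g (nat_lit 1269) (.e (nat_lit 24660) (nat_lit 13) (.e (nat_lit 393260) (nat_lit 21) (.e (nat_lit 409617) (nat_lit 10) (.e (nat_lit 4934) (nat_lit 287) .nil)))) .nil))) (.nd (nat_lit 6) 
(.lf (nat_lit 140979) (.g (nat_lit 1459) (.e (nat_lit 24660) (nat_lit 13) (.e (nat_lit 393238) (nat_lit 17) (.e (nat_lit 7107) (nat_lit 380) (.e (nat_lit 164261) (nat_lit 221) .nil)))) .nil)) 
(.lf (nat_lit 141043) (.g (nat_lit 1901) (.e (nat_lit 32512) (nat_lit 13) (.e (nat_lit 393299) (nat_lit 27) (.e (nat_lit 491556) (nat_lit 9) (.e (nat_lit 336051) (nat_lit 6) (.e (nat_lit 147496) (nat_lit 11) .nil))))) .nil))))) (.nd (nat_lit 4) (.nd (nat_lit 5) (.nd (nat_lit 6) 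
(.lf (nat_lit 140939) (.g (nat_lit 2914) (.e (nat_lit 24660) (nat_lit 13) (.e (nat_lit 393229) (nat_lit 9) (.e (nat_lit 335995) (nat_lit 1) (.e (nat_lit 57847) (nat_lit 252) (.e (nat_lit 57370) (nat_lit 2) (.e (nat_lit 90158) (nat_lit 11) .nil)))))) (.g (nat_lit 6) .nil .nil))) 
(.lf (nat_lit 141003) (.g (nat_lit 1486) (.e (nat_lit 24660) (nat_lit 13) (.e (nat_lit 393260) (nat_lit 21) (.e (nat_lit 409616) (nat_lit 10) (.e (nat_lit 4979) (nat_lit 287) .nil)))) .nil))) (.nd (nat_lit 6) 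
(.lf (nat_lit 140971) (.g (nat_lit 998) (.e (nat_lit 24660) (nat_lit 13) (.e (nat_lit 393232) (nat_lit 17) (.e (nat_lit 7587) (nat_lit 406) (.e (nat_lit 65580) (nat_lit 6) .nil)))) .nil)) 
(.lf (nat_lit 141035) (.g (nat_lit 957) (.e (nat_lit 24660) (nat_lit 13) (.e (nat_lit 393298) (nat_lit 27) (.e (nat_lit 491554) (nat_lit 9) .nil))) .nil)))) (.nd (nat_lit 5) (.nd (nat_lit 6) 
(.lf (nat_lit 140955) (.g (nat_lit 2677) (.e (nat_lit 24660) (nat_lit 13) (.e (nat_lit 393229) (nat_lit 9) (.e (nat_lit 335995) (nat_lit 1) (.e (nat_lit 57854) (nat_lit 252) .nil)))) .nil)) 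
(.lf (nat_lit 141019) (.g (nat_lit 1495) (.e (nat_lit 24660) (nat_lit 13) (.e (nat_lit 393260) (nat_lit 21) (.e (nat_lit 409618) (nat_lit 10) (.e (nat_lit 5023) (nat_lit 290) .nil)))) .nil))) (.nd (nat_lit 6) 
(.lf (nat_lit 140987) (.g (nat_lit 1581) (.e (nat_lit 24660) (nat_lit 13) (.e (nat_lit 393238) (nat_lit 17) (.e (nat_lit 7107) (nat_lit 380) (.e (nat_lit 164293) (nat_lit 224) .nil)))) .nil)) 
(.lf (nat_lit 141051) (.g (nat_lit 642) (.e (nat_lit 24661) (nat_lit 14) (.e (nat_lit 401425) (nat_lit 2) (.e (nat_lit 196628) (nat_lit 9) .nil))) .nil)))))) (.nd (nat_lit 3) (.nd (nat_lit 4) (.nd (nat_lit 5) (.nd (nat_lit 6) 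
(.lf (nat_lit 140935) (.g (nat_lit 3055) (.e (nat_lit 24660) (nat_lit 13) (.e (nat_lit 393229) (nat_lit 9) (.e (nat_lit 335995) (nat_lit 1) (.e (nat_lit 57844) (nat_lit 252) (.e (nat_lit 57375) (nat_lit 2) .nil))))) .nil)) 
(.lf (nat_lit 140999) (.g (nat_lit 1408) (.e (nat_lit 24660) (nat_lit 13) (.e (nat_lit 393260) (nat_lit 21) (.e (nat_lit 409616) (nat_lit 10) (.e (nat_lit 4931) (nat_lit 287) .nil)))) .nil))) (.nd (nat_lit 6) 
(.lf (nat_lit 140967) (.g (nat_lit 3797) (.e (nat_lit 24660) (nat_lit 13) (.e (nat_lit 393229) (nat_lit 9) (.e (nat_lit 335996) (nat_lit 1) (.e (nat_lit 57854) (nat_lit 252) (.e (nat_lit 57371) (nat_lit 2) (.e (nat_lit 90160) (nat_lit 11) .nil)))))) (.g (nat_lit 0) .nil .nil))) 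
(.lf (nat_lit 141031) (.g (nat_lit 1148) (.e (nat_lit 24660) (nat_lit 13) (.e (nat_lit 393260) (nat_lit 21) (.e (nat_lit 409640) (nat_lit 17) (.e (nat_lit 294934) (nat_lit 6) .nil)))) .nil)))) (.nd (nat_lit 5) (.nd (nat_lit 6) 
(.lf (nat_lit 140951) (.g (nat_lit 2814) (.e (nat_lit 24660) (nat_lit 13) (.e (nat_lit 393229) (nat_lit 9) (.e (nat_lit 335995) (nat_lit 1) (.e (nat_lit 57852) (nat_lit 252) .nil)))) .nil)) 
(.lf (nat_lit 141015) (.g (nat_lit 1380) (.e (nat_lit 24660) (nat_lit 13) (.e (nat_lit 393260) (nat_lit 21) (.e (nat_lit 409617) (nat_lit 10) (.e (nat_lit 7936) (nat_lit 301) .nil)))) .nil))) (.nd (nat_lit 6) 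
(.lf (nat_lit 140983) (.g (nat_lit 1704) (.e (nat_lit 24660) (nat_lit 13) (.e (nat_lit 393238) (nat_lit 17) (.e (nat_lit 7107) (nat_lit 380) (.e (nat_lit 164286) (nat_lit 224) .nil)))) .nil)) 
(.lf (nat_lit 141047) (.g (nat_lit 2216) (.e (nat_lit 32512) (nat_lit 13) (.e (nat_lit 393301) (nat_lit 27) (.e (nat_lit 491560) (nat_lit 10) (.e (nat_lit 344179) (nat_lit 44) (.e (nat_lit 778465) (nat_lit 11) .nil))))) .nil))))) (.nd (nat_lit 4) (.nd (nat_lit 5) (.nd (nat_lit 6) 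
(.lf (nat_lit 140943) (.g (nat_lit 3011) (.e (nat_lit 24660) (nat_lit 13) (.e (nat_lit 393229) (nat_lit 9) (.e (nat_lit 335995) (nat_lit 1) (.e (nat_lit 57847) (nat_lit 252) (.e (nat_lit 57375) (nat_lit 2) (.e (nat_lit 90158) (nat_lit 11) .nil)))))) (.g (nat_lit 0) .nil .nil))) 
(.lf (nat_lit 141007) (.g (nat_lit 680) (.e (nat_lit 24660) (nat_lit 13) (.e (nat_lit 393260) (nat_lit 21) (.e (nat_lit 409616) (nat_lit 10) (.e (nat_lit 7936) (nat_lit 304) .nil)))) .nil))) (.nd (nat_lit 6) 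
(.lf (nat_lit 140975) (.g (nat_lit 1164) (.e (nat_lit 24660) (nat_lit 13) (.e (nat_lit 393238) (nat_lit 17) (.e (nat_lit 6989) (nat_lit 377) (.e (nat_lit 2793) (nat_lit 179) .nil)))) .nil)) 
(.lf (nat_lit 141039) (.g (nat_lit 2680) (.e (nat_lit 32512) (nat_lit 13) (.e (nat_lit 393225) (nat_lit 9) (.e (nat_lit 335995) (nat_lit 1) (.e (nat_lit 57849) (nat_lit 252) (.e (nat_lit 57372) (nat_lit 2) .nil))))) .nil)))) (.nd (nat_lit 5) (.nd (nat_lit 6) 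
(.lf (nat_lit 140959) (.g (nat_lit 3181) (.e (nat_lit 24660) (nat_lit 13) (.e (nat_lit 393229) (nat_lit 9) (.e (nat_lit 335996) (nat_lit 1) (.e (nat_lit 57852) (nat_lit 252) (.e (nat_lit 57370) (nat_lit 2) (.e (nat_lit 90158) (nat_lit 11) .nil)))))) (.g (nat_lit 6) .nil .nil))) 
(.lf (nat_lit 141023) (.g (nat_lit 483) (.e (nat_lit 24660) (nat_lit 13) (.e (nat_lit 393260) (nat_lit 21) (.e (nat_lit 409623) (nat_lit 10) .nil))) .nil))) (.nd (nat_lit 6) 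
(.lf (nat_lit 140991) (.g (nat_lit 288) (.e (nat_lit 24660) (nat_lit 13) (.e (nat_lit 393259) (nat_lit 21) (.e (nat_lit 409641) (nat_lit 17) .nil))) .nil)) 
(.lf (nat_lit 141055) (.g (nat_lit 1029) (.e (nat_lit 24661) (nat_lit 14) (.e (nat_lit 401459) (nat_lit 13) (.e (nat_lit 483354) (nat_lit 17) (.e (nat_lit 6223) (nat_lit 334) .nil)))) .nil)))))))))

noncomputable def tv1873 : DT := (.nd (nat_lit 0) (.nd (nat_lit 1) (.nd (nat_lit 2) (.nd (nat_lit 3) (.nd (nat_lit 4) (.nd (nat_lit 5) 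
(.lf (nat_lit 141056) (.g (nat_lit 708) (.e (nat_lit 24662) (nat_lit 14) (.e (nat_lit 401414) (nat_lit 0) (.e (nat_lit 3205) (nat_lit 194) (.e (nat_lit 507928) (nat_lit 10) .nil)))) .nil)) 
(.lf (nat_lit 141088) (.g (nat_lit 570) (.e (nat_lit 24663) (nat_lit 14) (.e (nat_lit 401448) (nat_lit 10) (.e (nat_lit 434291) (nat_lit 44) .nil))) .nil))) (.nd (nat_lit 5) 
(.lf (nat_lit 141072) (.g (nat_lit 998) (.e (nat_lit 24662) (nat_lit 14) (.e (nat_lit 401459) (nat_lit 13) (.e (nat_lit 483391) (nat_lit 23) (.e (nat_lit 335998) (nat_lit 1) .nil)))) .nil)) 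
(.lf (nat_lit 141104) (.g (nat_lit 4211) (.e (nat_lit 24664) (nat_lit 14) (.e (nat_lit 401425) (nat_lit 2) (.e (nat_lit 196666) (nat_lit 13) (.e (nat_lit 65617) (nat_lit 10) (.e (nat_lit 344130) (nat_lit 26) (.e (nat_lit 557086) (nat_lit 11) .nil)))))) (.g (nat_lit 0) .nil .nil))))) (.nd (nat_lit 4) (.nd (nat_lit 5) 
(.lf (nat_lit 141064) (.g (nat_lit 2269) (.e (nat_lit 24662) (nat_lit 14) (.e (nat_lit 401459) (nat_lit 13) (.e (nat_lit 483343) (nat_lit 17) (.e (nat_lit 6221) (nat_lit 333) (.e (nat_lit 65280) (nat_lit 258) .nil))))) (.g (nat_lit 4) .nil .nil))) 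
(.lf (nat_lit 141096) (.g (nat_lit 3621) (.e (nat_lit 24664) (nat_lit 14) (.e (nat_lit 401424) (nat_lit 2) (.e (nat_lit 196666) (nat_lit 13) (.e (nat_lit 65617) (nat_lit 10) (.e (nat_lit 344130) (nat_lit 26) (.e (nat_lit 557085) (nat_lit 11) .nil)))))) (.g (nat_lit 6) .nil .nil)))) (.nd (nat_lit 5) 
(.lf (nat_lit 141080) (.g (nat_lit 1460) (.e (nat_lit 24662) (nat_lit 14) (.e (nat_lit 409344) (nat_lit 25) (.e (nat_lit 319534) (nat_lit 16) (.e (nat_lit 286756) (nat_lit 10) (.e (nat_lit 352000) (nat_lit 44) (.e (nat_lit 778465) (nat_lit 11) .nil)))))) (.g (nat_lit 4) .nil .nil))) 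
(.lf (nat_lit 141112) (.g (nat_lit 3713) (.e (nat_lit 24665) (nat_lit 14) (.e (nat_lit 401414) (nat_lit 0) (.e (nat_lit 3272) (nat_lit 199) (.e (nat_lit 548898) (nat_lit 14) (.e (nat_lit 3063) (nat_lit 190) (.e (nat_lit 475212) (nat_lit 42) (.e (nat_lit 720937) (nat_lit 22) (.e (nat_lit 90159) (nat_lit 11) .nil)))))))) (.g (nat_lit 4) .nil .nil)))))) 
(.nd (nat_lit 3) (.nd (nat_lit 4) (.nd (nat_lit 5) 
(.lf (nat_lit 141060) (.g (nat_lit 5211) (.e (nat_lit 24662) (nat_lit 14) (.e (nat_lit 401425) (nat_lit 2) (.e (nat_lit 196666) (nat_lit 13) (.e (nat_lit 65617) (nat_lit 10) (.e (nat_lit 344130) (nat_lit 26) (.e (nat_lit 557085) (nat_lit 11) .nil)))))) (.g (nat_lit 6) .nil .nil))) 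
(.lf (nat_lit 141092) (.g (nat_lit 1933) (.e (nat_lit 24664) (nat_lit 14) (.e (nat_lit 401423) (nat_lit 2) (.e (nat_lit 196666) (nat_lit 13) (.e (nat_lit 65617) (nat_lit 10) (.e (nat_lit 344127) (nat_lit 26) (.e (nat_lit 557086) (nat_lit 11) .nil)))))) (.g (nat_lit 4) .nil .nil)))) (.nd (nat_lit 5) 
(.lf (nat_lit 141076) (.g (nat_lit 4254) (.e (nat_lit 24662) (nat_lit 14) (.e (nat_lit 401463) (nat_lit 15) (.e (nat_lit 1858) (nat_lit 124) (.e (nat_lit 557100) (nat_lit 13) (.e (nat_lit 179968) (nat_lit 20) (.e (nat_lit 114714) (nat_lit 22) (.e (nat_lit 90160) (nat_lit 11) .nil))))))) (.g (nat_lit 4) .nil .nil))) 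
(.lf (nat_lit 141108) (.g (nat_lit 3520) (.e (nat_lit 24664) (nat_lit 14) (.e (nat_lit 401463) (nat_lit 15) (.e (nat_lit 1858) (nat_lit 124) (.e (nat_lit 557100) (nat_lit 13) (.e (nat_lit 179968) (nat_lit 20) (.e (nat_lit 114716) (nat_lit 22) (.e (nat_lit 90157) (nat_lit 11) .nil))))))) (.g (nat_lit 4) .nil .nil))))) (.nd (nat_lit 4) (.nd (nat_lit 5) 
(.lf (nat_lit 141068) (.g (nat_lit 3365) (.e (nat_lit 24662) (nat_lit 14) (.e (nat_lit 401459) (nat_lit 13) (.e (nat_lit 483350) (nat_lit 17) (.e (nat_lit 6113) (nat_lit 332) (.e (nat_lit 970) (nat_lit 81) (.e (nat_lit 5751) (nat_lit 314) .nil)))))) (.g (nat_lit 4) .nil .nil))) 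
(.lf (nat_lit 141100) (.g (nat_lit 2646) (.e (nat_lit 24664) (nat_lit 14) (.e (nat_lit 401425) (nat_lit 2) (.e (nat_lit 196666) (nat_lit 13) (.e (nat_lit 65617) (nat_lit 10) (.e (nat_lit 344127) (nat_lit 26) (.e (nat_lit 557085) (nat_lit 11) .nil)))))) (.g (nat_lit 4) .nil .nil)))) (.nd (nat_lit 5) 
(.lf (nat_lit 141084) (.g (nat_lit 2293) (.e (nat_lit 24663) (nat_lit 14) (.e (nat_lit 401425) (nat_lit 2) (.e (nat_lit 196666) (nat_lit 13) (.e (nat_lit 65617) (nat_lit 10) (.e (nat_lit 344130) (nat_lit 26) (.e (nat_lit 557086) (nat_lit 11) .nil)))))) (.g (nat_lit 4) .nil .nil))) 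
(.lf (nat_lit 141116) (.g (nat_lit 3870) (.e (nat_lit 24665) (nat_lit 14) (.e (nat_lit 401414) (nat_lit 0) (.e (nat_lit 3468) (nat_lit 217) (.e (nat_lit 696363) (nat_lit 18) (.e (nat_lit 81965) (nat_lit 26) (.e (nat_lit 147493) (nat_lit 11) .nil)))))) (.g (nat_lit 6) .nil .nil))))))) (.nd (nat_lit 2) (.nd (nat_lit 3) (.nd (nat_lit 4) (.nd (nat_lit 5) 
(.lf (nat_lit 141058) (.g (nat_lit 2409) (.e (nat_lit 24662) (nat_lit 14) (.e (nat_lit 401424) (nat_lit 2) (.e (nat_lit 196666) (nat_lit 13) (.e (nat_lit 65617) (nat_lit 10) (.e (nat_lit 344133) (nat_lit 26) (.e (nat_lit 557086) (nat_lit 11) .nil)))))) (.g (nat_lit 4) .nil .nil))) 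
(.lf (nat_lit 141090) (.g (nat_lit 641) (.e (nat_lit 24664) (nat_lit 14) (.e (nat_lit 401414) (nat_lit 0) (.e (nat_lit 3124) (nat_lit 193) (.e (nat_lit 507648) (nat_lit 14) .nil)))) .nil))) (.nd (nat_lit 5) 
(.lf (nat_lit 141074) (.g (nat_lit 2356) (.e (nat_lit 24662) (nat_lit 14) (.e (nat_lit 401459) (nat_lit 13) (.e (nat_lit 483403) (nat_lit 26) (.e (nat_lit 385043) (nat_lit 21) .nil)))) .nil)) 
(.lf (nat_lit 141106) (.g (nat_lit 4070) (.e (nat_lit 24664) (nat_lit 14) (.e (nat_lit 401426) (nat_lit 3) (.e (nat_lit 204855) (nat_lit 26) (.e (nat_lit 336176) (nat_lit 10) (.e (nat_lit 344133) (nat_lit 26) (.e (nat_lit 557085) (nat_lit 11) .nil)))))) (.g (nat_lit 0) .nil .nil))))) (.nd (nat_lit 4) (.nd (nat_lit 5) 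
(.lf (nat_lit 141066) (.g (nat_lit 2990) (.e (nat_lit 24662) (nat_lit 14) (.e (nat_lit 401459) (nat_lit 13) (.e (nat_lit 483344) (nat_lit 17) (.e (nat_lit 6221) (nat_lit 333) (.e (nat_lit 65280) (nat_lit 258) .nil))))) (.g (nat_lit 4) .nil .nil))) 
(.lf (nat_lit 141098) (.g (nat_lit 615) (.e (nat_lit 24664) (nat_lit 14) (.e (nat_lit 401425) (nat_lit 2) (.e (nat_lit 196628) (nat_lit 9) .nil))) .nil))) (.nd (nat_lit 5) 
(.lf (nat_lit 141082) (.g (nat_lit 642) (.e (nat_lit 24663) (nat_lit 14) (.e (nat_lit 401425) (nat_lit 2) (.e (nat_lit 196628) (nat_lit 9) .nil))) .nil)) 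
(.lf (nat_lit 141114) (.g (nat_lit 3820) (.e (nat_lit 24665) (nat_lit 14) (.e (nat_lit 401414) (nat_lit 0) (.e (nat_lit 3272) (nat_lit 199) (.e (nat_lit 548898) (nat_lit 14) (.e (nat_lit 3063) (nat_lit 190) (.e (nat_lit 475212) (nat_lit 42) (.e (nat_lit 720941) (nat_lit 22) (.e (nat_lit 90159) (nat_lit 11) .nil)))))))) (.g (nat_lit 4) .nil .nil)))))) 
(.nd (nat_lit 3) (.nd (nat_lit 4) (.nd (nat_lit 5) 
(.lf (nat_lit 141062) (.g (nat_lit 5766) (.e (nat_lit 24662) (nat_lit 14) (.e (nat_lit 401425) (nat_lit 2) (.e (nat_lit 196666) (nat_lit 13) (.e (nat_lit 65617) (nat_lit 10) (.e (nat_lit 344132) (nat_lit 26) (.e (nat_lit 557085) (nat_lit 11) .nil)))))) (.g (nat_lit 0) .nil .nil))) 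
(.lf (nat_lit 141094) (.g (nat_lit 3705) (.e (nat_lit 24664) (nat_lit 14) (.e (nat_lit 401423) (nat_lit 2) (.e (nat_lit 196666) (nat_lit 13) (.e (nat_lit 65617) (nat_lit 10) (.e (nat_lit 344132) (nat_lit 26) (.e (nat_lit 557085) (nat_lit 11) .nil)))))) (.g (nat_lit 6) .nil .nil)))) (.nd (nat_lit 5) 
(.lf (nat_lit 141078) (.g (nat_lit 4122) (.e (nat_lit 24662) (nat_lit 14) (.e (nat_lit 401463) (nat_lit 15) (.e (nat_lit 1858) (nat_lit 124) (.e (nat_lit 557100) (nat_lit 13) (.e (nat_lit 179968) (nat_lit 20) (.e (nat_lit 114716) (nat_lit 22) (.e (nat_lit 90160) (nat_lit 11) .nil))))))) (.g (nat_lit 4) .nil .nil))) 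
(.lf (nat_lit 141110) (.g (nat_lit 2313) (.e (nat_lit 24664) (nat_lit 14) (.e (nat_lit 401463) (nat_lit 15) (.e (nat_lit 1859) (nat_lit 124) (.e (nat_lit 557098) (nat_lit 13) (.e (nat_lit 179968) (nat_lit 20) (.e (nat_lit 114716) (nat_lit 22) (.e (nat_lit 90157) (nat_lit 11) .nil))))))) (.g (nat_lit 4) .nil .nil))))) (.nd (nat_lit 4) (.nd (nat_lit 5) 
(.lf (nat_lit 141070) (.g (nat_lit 2639) (.e (nat_lit 24662) (nat_lit 14) (.e (nat_lit 401459) (nat_lit 13) (.e (nat_lit 483350) (nat_lit 17) (.e (nat_lit 6218) (nat_lit 333) (.e (nat_lit 65280) (nat_lit 258) .nil))))) (.g (nat_lit 4) .nil .nil))) 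
(.lf (nat_lit 141102) (.g (nat_lit 2501) (.e (nat_lit 24664) (nat_lit 14) (.e (nat_lit 401425) (nat_lit 2) (.e (nat_lit 196666) (nat_lit 13) (.e (nat_lit 65617) (nat_lit 10) (.e (nat_lit 344127) (nat_lit 26) (.e (nat_lit 557087) (nat_lit 11) .nil)))))) (.g (nat_lit 4) .nil .nil)))) (.nd (nat_lit 5) 
(.lf (nat_lit 141086) (.g (nat_lit 2613) (.e (nat_lit 24663) (nat_lit 14) (.e (nat_lit 401425) (nat_lit 2) (.e (nat_lit 196666) (nat_lit 13) (.e (nat_lit 65617) (nat_lit 10) (.e (nat_lit 344133) (nat_lit 26) (.e (nat_lit 557085) (nat_lit 11) .nil)))))) (.g (nat_lit 4) .nil .nil))) 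
(.lf (nat_lit 141118) (.g (nat_lit 1290) (.e (nat_lit 24665) (nat_lit 14) (.e (nat_lit 401414) (nat_lit 0) (.e (nat_lit 7936) (nat_lit 219) (.e (nat_lit 712753) (nat_lit 30) (.e (nat_lit 450571) (nat_lit 1) (.e (nat_lit 507648) (nat_lit 7) .nil)))))) (.g (nat_lit 4) .nil .nil)))))))) (.nd (nat_lit 1) (.nd (nat_lit 2) (.nd (nat_lit 3) (.nd (nat_lit 4) (.nd (nat_lit 5) 
(.lf (nat_lit 141057) (.g (nat_lit 2231) (.e (nat_lit 24662) (nat_lit 14) (.e (nat_lit 401424) (nat_lit 2) (.e (nat_lit 196666) (nat_lit 13) (.e (nat_lit 65617) (nat_lit 10) (.e (nat_lit 344130) (nat_lit 26) (.e (nat_lit 557086) (nat_lit 11) .nil)))))) (.g (nat_lit 4) .nil .nil))) 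
(.lf (nat_lit 141089) (.g (nat_lit 468) (.e (nat_lit 24664) (nat_lit 14) (.e (nat_lit 401414) (nat_lit 0) (.e (nat_lit 3124) (nat_lit 193) .nil))) .nil))) (.nd (nat_lit 5) 
(.lf (nat_lit 141073) (.g (nat_lit 2275) (.e (nat_lit 24662) (nat_lit 14) (.e (nat_lit 401459) (nat_lit 13) (.e (nat_lit 483396) (nat_lit 24) (.e (nat_lit 344096) (nat_lit 18) (.e (nat_lit 4764) (nat_lit 281) .nil))))) .nil)) 
(.lf (nat_lit 141105) (.g (nat_lit 4302) (.e (nat_lit 24664) (nat_lit 14) (.e (nat_lit 401425) (nat_lit 2) (.e (nat_lit 196666) (nat_lit 13) (.e (nat_lit 65617) (nat_lit 10) (.e (nat_lit 344132) (nat_lit 26) (.e (nat_lit 557085) (nat_lit 11) .nil)))))) (.g (nat_lit 6) .nil .nil))))) (.nd (nat_lit 4) (.nd (nat_lit 5) 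
(.lf (nat_lit 141065) (.g (nat_lit 2798) (.e (nat_lit 24662) (nat_lit 14) (.e (nat_lit 401459) (nat_lit 13) (.e (nat_lit 483344) (nat_lit 17) (.e (nat_lit 6220) (nat_lit 333) (.e (nat_lit 65280) (nat_lit 258) .nil))))) (.g (nat_lit 4) .nil .nil))) 
(.lf (nat_lit 141097) (.g (nat_lit 3082) (.e (nat_lit 24664) (nat_lit 14) (.e (nat_lit 401424) (nat_lit 2) (.e (nat_lit 196674) (nat_lit 15) (.e (nat_lit 81946) (nat_lit 20) (.e (nat_lit 1858) (nat_lit 124) (.e (nat_lit 557086) (nat_lit 11) .nil)))))) (.g (nat_lit 5) .nil .nil)))) (.nd (nat_lit 5) 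
(.lf (nat_lit 141081) (.g (nat_lit 2745) (.e (nat_lit 24663) (nat_lit 14) (.e (nat_lit 401414) (nat_lit 0) (.e (nat_lit 3238) (nat_lit 197) (.e (nat_lit 532535) (nat_lit 9) (.e (nat_lit 336176) (nat_lit 10) (.e (nat_lit 344130) (nat_lit 26) (.e (nat_lit 557086) (nat_lit 11) .nil))))))) (.g (nat_lit 4) .nil .nil))) 
(.lf (nat_lit 141113) (.g (nat_lit 4119) (.e (nat_lit 24665) (nat_lit 14) (.e (nat_lit 401414) (nat_lit 0) (.e (nat_lit 3272) (nat_lit 199) (.e (nat_lit 548898) (nat_lit 14) (.e (nat_lit 3063) (nat_lit 190) (.e (nat_lit 475212) (nat_lit 42) (.e (nat_lit 720938) (nat_lit 22) (.e (nat_lit 90159) (nat_lit 11) .nil)))))))) (.g (nat_lit 4) .nil .nil)))))) 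
(.nd (nat_lit 3) (.nd (nat_lit 4) (.nd (nat_lit 5) 
(.lf (nat_lit 141061) (.g (nat_lit 3189) (.e (nat_lit 24662) (nat_lit 14) (.e (nat_lit 401425) (nat_lit 2) (.e (nat_lit 196666) (nat_lit 13) (.e (nat_lit 65617) (nat_lit 10) (.e (nat_lit 344131) (nat_lit 26) (.e (nat_lit 557087) (nat_lit 11) .nil)))))) (.g (nat_lit 4) .nil .nil))) 
(.lf (nat_lit 141093) (.g (nat_lit 3637) (.e (nat_lit 24664) (nat_lit 14) (.e (nat_lit 401423) (nat_lit 2) (.e (nat_lit 196666) (nat_lit 13) (.e (nat_lit 65617) (nat_lit 10) (.e (nat_lit 344130) (nat_lit 26) (.e (nat_lit 557085) (nat_lit 11) .nil)))))) (.g (nat_lit 6) .nil .nil)))) (.nd (nat_lit 5) 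
(.lf (nat_lit 141077) (.g (nat_lit 3939) (.e (nat_lit 24662) (nat_lit 14) (.e (nat_lit 401463) (nat_lit 15) (.e (nat_lit 1858) (nat_lit 124) (.e (nat_lit 557100) (nat_lit 13) (.e (nat_lit 179968) (nat_lit 20) (.e (nat_lit 114716) (nat_lit 22) (.e (nat_lit 90159) (nat_lit 11) .nil))))))) (.g (nat_lit 4) .nil .nil))) 
(.lf (nat_lit 141109) (.g (nat_lit 3080) (.e (nat_lit 24664) (nat_lit 14) (.e (nat_lit 401463) (nat_lit 15) (.e (nat_lit 1858) (nat_lit 124) (.e (nat_lit 557100) (nat_lit 13) (.e (nat_lit 179968) (nat_lit 20) (.e (nat_lit 114716) (nat_lit 22) (.e (nat_lit 90160) (nat_lit 11) .nil))))))) (.g (nat_lit 4) .nil .nil))))) (.nd (nat_lit 4) (.nd (nat_lit 5) 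
(.lf (nat_lit 141069) (.g (nat_lit 2543) (.e (nat_lit 24662) (nat_lit 14) (.e (nat_lit 401459) (nat_lit 13) (.e (nat_lit 483350) (nat_lit 17) (.e (nat_lit 6212) (nat_lit 333) (.e (nat_lit 65280) (nat_lit 258) .nil))))) (.g (nat_lit 4) .nil .nil))) 
(.lf (nat_lit 141101) (.g (nat_lit 2645) (.e (nat_lit 24664) (nat_lit 14) (.e (nat_lit 401425) (nat_lit 2) (.e (nat_lit 196666) (nat_lit 13) (.e (nat_lit 65617) (nat_lit 10) (.e (nat_lit 344127) (nat_lit 26) (.e (nat_lit 557086) (nat_lit 11) .nil)))))) (.g (nat_lit 4) .nil .nil)))) (.nd (nat_lit 5) 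
(.lf (nat_lit 141085) (.g (nat_lit 3012) (.e (nat_lit 24663) (nat_lit 14) (.e (nat_lit 401425) (nat_lit 2) (.e (nat_lit 196666) (nat_lit 13) (.e (nat_lit 65617) (nat_lit 10) (.e (nat_lit 344132) (nat_lit 26) (.e (nat_lit 557085) (nat_lit 11) .nil)))))) (.g (nat_lit 4) .nil .nil))) 
(.lf (nat_lit 141117) (.g (nat_lit 374) (.e (nat_lit 24665) (nat_lit 14) (.e (nat_lit 401414) (nat_lit 0) (.e (nat_lit 7936) (nat_lit 219) .nil))) .nil)))))) (.nd (nat_lit 2) (.nd (nat_lit 3) (.nd (nat_lit 4) (.nd (nat_lit 5) 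
(.lf (nat_lit 141059) (.g (nat_lit 585) (.e (nat_lit 24662) (nat_lit 14) (.e (nat_lit 401425) (nat_lit 2) (.e (nat_lit 196619) (nat_lit 9) .nil))) .nil)) 
(.lf (nat_lit 141091) (.g (nat_lit 473) (.e (nat_lit 24664) (nat_lit 14) (.e (nat_lit 401414) (nat_lit 0) (.e (nat_lit 3459) (nat_lit 216) .nil))) .nil))) (.nd (nat_lit 5) 
(.lf (nat_lit 141075) (.g (nat_lit 4351) (.e (nat_lit 24662) (nat_lit 14) (.e (nat_lit 401463) (nat_lit 15) (.e (nat_lit 1858) (nat_lit 124) (.e (nat_lit 557100) (nat_lit 13) (.e (nat_lit 179968) (nat_lit 20) (.e (nat_lit 114714) (nat_lit 22) (.e (nat_lit 90159) (nat_lit 11) .nil))))))) (.g (nat_lit 4) .nil .nil))) 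
(.lf (nat_lit 141107) (.g (nat_lit 3212) (.e (nat_lit 24664) (nat_lit 14) (.e (nat_lit 401463) (nat_lit 15) (.e (nat_lit 1858) (nat_lit 124) (.e (nat_lit 557100) (nat_lit 13) (.e (nat_lit 179968) (nat_lit 20) (.e (nat_lit 114714) (nat_lit 22) (.e (nat_lit 90160) (nat_lit 11) .nil))))))) (.g (nat_lit 4) .nil .nil))))) (.nd (nat_lit 4) (.nd (nat_lit 5) 
(.lf (nat_lit 141067) (.g (nat_lit 2622) (.e (nat_lit 24662) (nat_lit 14) (.e (nat_lit 401459) (nat_lit 13) (.e (nat_lit 483350) (nat_lit 17) (.e (nat_lit 6109) (nat_lit 332) (.e (nat_lit 1016) (nat_lit 81) (.e (nat_lit 7936) (nat_lit 314) .nil)))))) (.g (nat_lit 4) .nil .nil))) 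
(.lf (nat_lit 141099) (.g (nat_lit 633) (.e (nat_lit 24664) (nat_lit 14) (.e (nat_lit 401425) (nat_lit 2) (.e (nat_lit 196630) (nat_lit 9) .nil))) .nil))) (.nd (nat_lit 5) 
(.lf (nat_lit 141083) (.g (nat_lit 2592) (.e (nat_lit 24663) (nat_lit 14) (.e (nat_lit 401425) (nat_lit 2) (.e (nat_lit 196666) (nat_lit 13) (.e (nat_lit 65617) (nat_lit 10) (.e (nat_lit 344130) (nat_lit 26) (.e (nat_lit 557085) (nat_lit 11) .nil)))))) (.g (nat_lit 4) .nil .nil))) 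
(.lf (nat_lit 141115) (.g (nat_lit 3074) (.e (nat_lit 24665) (nat_lit 14) (.e (nat_lit 401414) (nat_lit 0) (.e (nat_lit 3297) (nat_lit 202) (.e (nat_lit 573456) (nat_lit 9) (.e (nat_lit 1669) (nat_lit 116) (.e (nat_lit 401454) (nat_lit 12) (.e (nat_lit 483072) (nat_lit 2) .nil))))))) (.g (nat_lit 6) .nil .nil)))))) (.nd (nat_lit 3) (.nd (nat_lit 4) (.nd (nat_lit 5) 
(.lf (nat_lit 141063) (.g (nat_lit 3401) (.e (nat_lit 24662) (nat_lit 14) (.e (nat_lit 401425) (nat_lit 2) (.e (nat_lit 196666) (nat_lit 13) (.e (nat_lit 65619) (nat_lit 10) (.e (nat_lit 344129) (nat_lit 26) (.e (nat_lit 557087) (nat_lit 11) .nil)))))) (.g (nat_lit 4) .nil .nil))) 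
(.lf (nat_lit 141095) (.g (nat_lit 1770) (.e (nat_lit 24664) (nat_lit 14) (.e (nat_lit 401424) (nat_lit 2) (.e (nat_lit 196666) (nat_lit 13) (.e (nat_lit 65617) (nat_lit 10) (.e (nat_lit 344127) (nat_lit 26) (.e (nat_lit 557086) (nat_lit 11) .nil)))))) (.g (nat_lit 4) .nil .nil)))) (.nd (nat_lit 5) 
(.lf (nat_lit 141079) (.g (nat_lit 1594) (.e (nat_lit 24662) (nat_lit 14) (.e (nat_lit 409344) (nat_lit 25) (.e (nat_lit 319533) (nat_lit 16) (.e (nat_lit 286753) (nat_lit 10) (.e (nat_lit 352000) (nat_lit 44) (.e (nat_lit 778465) (nat_lit 11) .nil)))))) (.g (nat_lit 4) .nil .nil))) 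
(.lf (nat_lit 141111) (.g (nat_lit 499) (.e (nat_lit 24665) (nat_lit 14) (.e (nat_lit 401414) (nat_lit 0) (.e (nat_lit 3134) (nat_lit 193) .nil))) .nil)))) (.nd (nat_lit 4) (.nd (nat_lit 5) 
(.lf (nat_lit 141071) (.g (nat_lit 1918) (.e (nat_lit 24662) (nat_lit 14) (.e (nat_lit 401459) (nat_lit 13) (.e (nat_lit 483354) (nat_lit 17) (.e (nat_lit 6206) (nat_lit 333) (.e (nat_lit 65280) (nat_lit 258) .nil))))) (.g (nat_lit 4) .nil .nil))) 
(.lf (nat_lit 141103) (.g (nat_lit 4221) (.e (nat_lit 24664) (nat_lit 14) (.e (nat_lit 401425) (nat_lit 2) (.e (nat_lit 196666) (nat_lit 13) (.e (nat_lit 65617) (nat_lit 10) (.e (nat_lit 344130) (nat_lit 26) (.e (nat_lit 557085) (nat_lit 11) .nil)))))) (.g (nat_lit 6) .nil .nil)))) (.nd (nat_lit 5) 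
(.lf (nat_lit 141087) (.g (nat_lit 2523) (.e (nat_lit 24663) (nat_lit 14) (.e (nat_lit 401425) (nat_lit 2) (.e (nat_lit 196666) (nat_lit 13) (.e (nat_lit 65617) (nat_lit 10) (.e (nat_lit 344133) (nat_lit 26) (.e (nat_lit 557086) (nat_lit 11) .nil)))))) (.g (nat_lit 4) .nil .nil))) 
(.lf (nat_lit 141119) (.g (nat_lit 1654) (.e (nat_lit 24665) (nat_lit 14) (.e (nat_lit 401414) (nat_lit 0) (.e (nat_lit 7936) (nat_lit 219) (.e (nat_lit 712755) (nat_lit 30) (.e (nat_lit 450571) (nat_lit 1) (.e (nat_lit 507648) (nat_lit 7) .nil)))))) (.g (nat_lit 4) .nil .nil)))))))))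

noncomputable def tv1874 : DT := (.nd (nat_lit 0) (.nd (nat_lit 1) (.nd (nat_lit 2) (.nd (nat_lit 3) (.nd (nat_lit 4) (.nd (nat_lit 5) 
(.lf (nat_lit 141120) (.g (nat_lit 1392) (.e (nat_lit 24665) (nat_lit 14) (.e (nat_lit 401414) (nat_lit 0) (.e (nat_lit 7936) (nat_lit 219) (.e (nat_lit 712755) (nat_lit 30) (.e (nat_lit 450573) (nat_lit 1) (.e (nat_lit 507648) (nat_lit 7) .nil)))))) (.g (nat_lit 4) .nil .nil))) 
(.lf (nat_lit 141152) (.g (nat_lit 4188) (.e (nat_lit 24665) (nat_lit 14) (.e (nat_lit 401448) (nat_lit 10) (.e (nat_lit 434275) (nat_lit 39) (.e (nat_lit 663589) (nat_lit 14) (.e (nat_lit 2578) (nat_lit 161) (.e (nat_lit 41006) (nat_lit 14) (.e (nat_lit 1146) (nat_lit 85) (.e (nat_lit 40996) (nat_lit 11) .nil)))))))) (.g (nat_lit 4) .nil .nil)))) (.nd (nat_lit 5) 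
(.lf (nat_lit 141136) (.g (nat_lit 2457) (.e (nat_lit 24665) (nat_lit 14) (.e (nat_lit 401421) (nat_lit 1) (.e (nat_lit 164183) (nat_lit 154) (.e (nat_lit 57411) (nat_lit 12) (.e (nat_lit 336182) (nat_lit 11) (.e (nat_lit 368699) (nat_lit 44) (.e (nat_lit 778464) (nat_lit 11) .nil))))))) (.g (nat_lit 4) .nil .nil))) 
(.lf (nat_lit 141168) (.g (nat_lit 1217) (.e (nat_lit 24665) (nat_lit 14) (.e (nat_lit 409344) (nat_lit 18) (.e (nat_lit 98358) (nat_lit 26) (.e (nat_lit 426319) (nat_lit 12) (.e (nat_lit 483072) (nat_lit 2) .nil))))) (.g (nat_lit 4) .nil .nil))))) (.nd (nat_lit 4) (.nd (nat_lit 5) 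
(.lf (nat_lit 141128) (.g (nat_lit 2086) (.e (nat_lit 24665) (nat_lit 14) (.e (nat_lit 401420) (nat_lit 1) (.e (nat_lit 164182) (nat_lit 154) (.e (nat_lit 57426) (nat_lit 15) (.e (nat_lit 360492) (nat_lit 22) (.e (nat_lit 778465) (nat_lit 11) .nil)))))) (.g (nat_lit 4) .nil .nil))) 
(.lf (nat_lit 141160) (.g (nat_lit 2682) (.e (nat_lit 24665) (nat_lit 14) (.e (nat_lit 409344) (nat_lit 17) (.e (nat_lit 90170) (nat_lit 13) (.e (nat_lit 172120) (nat_lit 12) (.e (nat_lit 483072) (nat_lit 2) .nil))))) (.g (nat_lit 4) .nil .nil)))) (.nd (nat_lit 5) 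
(.lf (nat_lit 141144) (.g (nat_lit 4195) (.e (nat_lit 24665) (nat_lit 14) (.e (nat_lit 401426) (nat_lit 3) (.e (nat_lit 204855) (nat_lit 26) (.e (nat_lit 336176) (nat_lit 10) (.e (nat_lit 344130) (nat_lit 26) (.e (nat_lit 557087) (nat_lit 11) .nil)))))) (.g (nat_lit 0) .nil .nil))) 
(.lf (nat_lit 141176) (.g (nat_lit 1822) (.e (nat_lit 24665) (nat_lit 14) (.e (nat_lit 409344) (nat_lit 18) (.e (nat_lit 98365) (nat_lit 26) (.e (nat_lit 426315) (nat_lit 12) (.e (nat_lit 483072) (nat_lit 2) .nil))))) (.g (nat_lit 4) .nil .nil)))))) (.nd (nat_lit 3) (.nd (nat_lit 4) (.nd (nat_lit 5) 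
(.lf (nat_lit 141124) (.g (nat_lit 2518) (.e (nat_lit 24665) (nat_lit 14) (.e (nat_lit 401420) (nat_lit 1) (.e (nat_lit 164179) (nat_lit 154) (.e (nat_lit 57427) (nat_lit 15) (.e (nat_lit 360491) (nat_lit 22) (.e (nat_lit 778465) (nat_lit 11) .nil)))))) (.g (nat_lit 4) .nil .nil))) 
(.lf (nat_lit 141156) (.g (nat_lit 2829) (.e (nat_lit 24665) (nat_lit 14) (.e (nat_lit 409344) (nat_lit 17) (.e (nat_lit 90170) (nat_lit 13) (.e (nat_lit 172113) (nat_lit 10) (.e (nat_lit 434203) (nat_lit 18) (.e (nat_lit 6032) (nat_lit 326) (.e (nat_lit 2551) (nat_lit 159) .nil))))))) (.g (nat_lit 5) .nil .nil)))) (.nd (nat_lit 5) 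
(.lf (nat_lit 141140) (.g (nat_lit 2209) (.e (nat_lit 24665) (nat_lit 14) (.e (nat_lit 401423) (nat_lit 2) (.e (nat_lit 196672) (nat_lit 15) (.e (nat_lit 81943) (nat_lit 20) (.e (nat_lit 1855) (nat_lit 124) (.e (nat_lit 564992) (nat_lit 11) .nil)))))) (.g (nat_lit 5) .nil .nil))) 
(.lf (nat_lit 141172) (.g (nat_lit 2090) (.e (nat_lit 24665) (nat_lit 14) (.e (nat_lit 409344) (nat_lit 18) (.e (nat_lit 98359) (nat_lit 26) (.e (nat_lit 426305) (nat_lit 12) (.e (nat_lit 483072) (nat_lit 2) .nil))))) (.g (nat_lit 4) .nil .nil))))) (.nd (nat_lit 4) (.nd (nat_lit 5) 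
(.lf (nat_lit 141132) (.g (nat_lit 2313) (.e (nat_lit 24665) (nat_lit 14) (.e (nat_lit 401421) (nat_lit 1) (.e (nat_lit 164179) (nat_lit 154) (.e (nat_lit 57427) (nat_lit 15) (.e (nat_lit 360491) (nat_lit 22) (.e (nat_lit 778465) (nat_lit 11) .nil)))))) (.g (nat_lit 4) .nil .nil))) 
(.lf (nat_lit 141164) (.g (nat_lit 1453) (.e (nat_lit 24665) (nat_lit 14) (.e (nat_lit 409344) (nat_lit 17) (.e (nat_lit 90178) (nat_lit 15) (.e (nat_lit 188418) (nat_lit 0) (.e (nat_lit 7936) (nat_lit 359) .nil))))) (.g (nat_lit 4) .nil .nil)))) (.nd (nat_lit 5) 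
(.lf (nat_lit 141148) (.g (nat_lit 1043) (.e (nat_lit 24665) (nat_lit 14) (.e (nat_lit 401427) (nat_lit 3) (.e (nat_lit 204882) (nat_lit 32) (.e (nat_lit 392960) (nat_lit 42) .nil)))) .nil)) 
(.lf (nat_lit 141180) (.g (nat_lit 1753) (.e (nat_lit 24665) (nat_lit 14) (.e (nat_lit 409344) (nat_lit 18) (.e (nat_lit 98370) (nat_lit 28) (.e (nat_lit 442368) (nat_lit 0) (.e (nat_lit 6708) (nat_lit 359) .nil))))) (.g (nat_lit 4) .nil .nil))))))) (.nd (nat_lit 2) (.nd (nat_lit 3) (.nd (nat_lit 4) (.nd (nat_lit 5) 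
(.lf (nat_lit 141122) (.g (nat_lit 3267) (.e (nat_lit 24665) (nat_lit 14) (.e (nat_lit 401420) (nat_lit 1) (.e (nat_lit 164178) (nat_lit 154) (.e (nat_lit 57424) (nat_lit 14) (.e (nat_lit 352324) (nat_lit 26) (.e (nat_lit 147494) (nat_lit 11) .nil)))))) (.g (nat_lit 5) .nil .nil))) 
(.lf (nat_lit 141154) (.g (nat_lit 3321) (.e (nat_lit 24665) (nat_lit 14) (.e (nat_lit 401448) (nat_lit 10) (.e (nat_lit 434291) (nat_lit 44) (.e (nat_lit 704727) (nat_lit 10) (.e (nat_lit 8497) (nat_lit 182) (.e (nat_lit 123175) (nat_lit 258) .nil)))))) (.g (nat_lit 6) .nil .nil)))) (.nd (nat_lit 5) 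
(.lf (nat_lit 141138) (.g (nat_lit 4063) (.e (nat_lit 24665) (nat_lit 14) (.e (nat_lit 401423) (nat_lit 2) (.e (nat_lit 196666) (nat_lit 13) (.e (nat_lit 65617) (nat_lit 10) (.e (nat_lit 344130) (nat_lit 26) (.e (nat_lit 557085) (nat_lit 11) .nil)))))) (.g (nat_lit 0) .nil .nil))) 
(.lf (nat_lit 141170) (.g (nat_lit 2020) (.e (nat_lit 24665) (nat_lit 14) (.e (nat_lit 409344) (nat_lit 18) (.e (nat_lit 98359) (nat_lit 26) (.e (nat_lit 426286) (nat_lit 10) (.e (nat_lit 434208) (nat_lit 18) (.e (nat_lit 5979) (nat_lit 326) (.e (nat_lit 2558) (nat_lit 159) .nil))))))) (.g (nat_lit 4) .nil .nil))))) (.nd (nat_lit 4) (.nd (nat_lit 5) 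
(.lf (nat_lit 141130) (.g (nat_lit 1717) (.e (nat_lit 24665) (nat_lit 14) (.e (nat_lit 401420) (nat_lit 1) (.e (nat_lit 164185) (nat_lit 155) (.e (nat_lit 122917) (nat_lit 15) (.e (nat_lit 360492) (nat_lit 22) (.e (nat_lit 778465) (nat_lit 11) .nil)))))) (.g (nat_lit 4) .nil .nil))) 
(.lf (nat_lit 141162) (.g (nat_lit 1718) (.e (nat_lit 24665) (nat_lit 14) (.e (nat_lit 409344) (nat_lit 17) (.e (nat_lit 90176) (nat_lit 15) (.e (nat_lit 188420) (nat_lit 0) (.e (nat_lit 7936) (nat_lit 359) .nil))))) (.g (nat_lit 4) .nil .nil)))) (.nd (nat_lit 5) 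
(.lf (nat_lit 141146) (.g (nat_lit 2053) (.e (nat_lit 24665) (nat_lit 14) (.e (nat_lit 401426) (nat_lit 3) (.e (nat_lit 204877) (nat_lit 31) (.e (nat_lit 376855) (nat_lit 20) (.e (nat_lit 1855) (nat_lit 124) (.e (nat_lit 564992) (nat_lit 11) .nil)))))) (.g (nat_lit 5) .nil .nil))) 
(.lf (nat_lit 141178) (.g (nat_lit 800) (.e (nat_lit 24665) (nat_lit 14) (.e (nat_lit 409344) (nat_lit 18) (.e (nat_lit 98369) (nat_lit 28) (.e (nat_lit 442371) (nat_lit 0) (.e (nat_lit 7936) (nat_lit 359) .nil))))) (.g (nat_lit 4) .nil .nil)))))) (.nd (nat_lit 3) (.nd (nat_lit 4) (.nd (nat_lit 5) 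
(.lf (nat_lit 141126) (.g (nat_lit 1820) (.e (nat_lit 24665) (nat_lit 14) (.e (nat_lit 401420) (nat_lit 1) (.e (nat_lit 164182) (nat_lit 154) (.e (nat_lit 57411) (nat_lit 12) (.e (nat_lit 336182) (nat_lit 11) (.e (nat_lit 368699) (nat_lit 44) (.e (nat_lit 778465) (nat_lit 11) .nil))))))) (.g (nat_lit 4) .nil .nil))) 
(.lf (nat_lit 141158) (.g (nat_lit 2297) (.e (nat_lit 24665) (nat_lit 14) (.e (nat_lit 409344) (nat_lit 17) (.e (nat_lit 90170) (nat_lit 13) (.e (nat_lit 172113) (nat_lit 10) (.e (nat_lit 434208) (nat_lit 18) (.e (nat_lit 5979) (nat_lit 326) (.e (nat_lit 2559) (nat_lit 159) .nil))))))) (.g (nat_lit 4) .nil .nil)))) (.nd (nat_lit 5) 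
(.lf (nat_lit 141142) (.g (nat_lit 1812) (.e (nat_lit 24665) (nat_lit 14) (.e (nat_lit 401424) (nat_lit 2) (.e (nat_lit 196666) (nat_lit 13) (.e (nat_lit 65617) (nat_lit 10) (.e (nat_lit 344127) (nat_lit 26) (.e (nat_lit 557086) (nat_lit 11) .nil)))))) (.g (nat_lit 4) .nil .nil))) 
(.lf (nat_lit 141174) (.g (nat_lit 1086) (.e (nat_lit 24665) (nat_lit 14) (.e (nat_lit 409344) (nat_lit 18) (.e (nat_lit 98359) (nat_lit 26) (.e (nat_lit 426312) (nat_lit 12) (.e (nat_lit 483072) (nat_lit 2) .nil))))) (.g (nat_lit 4) .nil .nil))))) (.nd (nat_lit 4) (.nd (nat_lit 5) 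
(.lf (nat_lit 141134) (.g (nat_lit 2163) (.e (nat_lit 24665) (nat_lit 14) (.e (nat_lit 401421) (nat_lit 1) (.e (nat_lit 164182) (nat_lit 154) (.e (nat_lit 57411) (nat_lit 12) (.e (nat_lit 336182) (nat_lit 11) (.e (nat_lit 368699) (nat_lit 44) (.e (nat_lit 778464) (nat_lit 11) .nil))))))) (.g (nat_lit 4) .nil .nil))) 
(.lf (nat_lit 141166) (.g (nat_lit 1674) (.e (nat_lit 24665) (nat_lit 14) (.e (nat_lit 409344) (nat_lit 17) (.e (nat_lit 90185) (nat_lit 17) (.e (nat_lit 237616) (nat_lit 12) (.e (nat_lit 483072) (nat_lit 2) .nil))))) (.g (nat_lit 4) .nil .nil)))) (.nd (nat_lit 5) 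
(.lf (nat_lit 141150) (.g (nat_lit 965) (.e (nat_lit 24665) (nat_lit 14) (.e (nat_lit 401448) (nat_lit 10) (.e (nat_lit 434271) (nat_lit 38) (.e (nat_lit 655396) (nat_lit 12) .nil)))) .nil)) 
(.lf (nat_lit 141182) (.g (nat_lit 1117) (.e (nat_lit 24665) (nat_lit 14) (.e (nat_lit 409344) (nat_lit 18) (.e (nat_lit 98370) (nat_lit 28) (.e (nat_lit 442370) (nat_lit 0) (.e (nat_lit 7936) (nat_lit 359) .nil))))) (.g (nat_lit 4) .nil .nil)))))))) (.nd (nat_lit 1) (.nd (nat_lit 2) (.nd (nat_lit 3) (.nd (nat_lit 4) (.nd (nat_lit 5) 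
(.lf (nat_lit 141121) (.g (nat_lit 2901) (.e (nat_lit 24665) (nat_lit 14) (.e (nat_lit 401414) (nat_lit 0) (.e (nat_lit 7936) (nat_lit 219) (.e (nat_lit 712755) (nat_lit 30) (.e (nat_lit 450574) (nat_lit 1) (.e (nat_lit 499898) (nat_lit 7) .nil)))))) (.g (nat_lit 4) .nil .nil))) 
(.lf (nat_lit 141153) (.g (nat_lit 3537) (.e (nat_lit 24665) (nat_lit 14) (.e (nat_lit 401448) (nat_lit 10) (.e (nat_lit 434291) (nat_lit 44) (.e (nat_lit 704725) (nat_lit 10) (.e (nat_lit 8497) (nat_lit 182) (.e (nat_lit 123175) (nat_lit 258) .nil)))))) (.g (nat_lit 6) .nil .nil)))) (.nd (nat_lit 5) 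
(.lf (nat_lit 141137) (.g (nat_lit 2043) (.e (nat_lit 24665) (nat_lit 14) (.e (nat_lit 401423) (nat_lit 2) (.e (nat_lit 196666) (nat_lit 13) (.e (nat_lit 65617) (nat_lit 10) (.e (nat_lit 344127) (nat_lit 26) (.e (nat_lit 557086) (nat_lit 11) .nil)))))) (.g (nat_lit 4) .nil .nil))) 
(.lf (nat_lit 141169) (.g (nat_lit 1642) (.e (nat_lit 24665) (nat_lit 14) (.e (nat_lit 409344) (nat_lit 18) (.e (nat_lit 98358) (nat_lit 26) (.e (nat_lit 426320) (nat_lit 12) (.e (nat_lit 483072) (nat_lit 2) .nil))))) (.g (nat_lit 4) .nil .nil))))) (.nd (nat_lit 4) (.nd (nat_lit 5) 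
(.lf (nat_lit 141129) (.g (nat_lit 2589) (.e (nat_lit 24665) (nat_lit 14) (.e (nat_lit 401420) (nat_lit 1) (.e (nat_lit 164183) (nat_lit 154) (.e (nat_lit 57411) (nat_lit 12) (.e (nat_lit 336182) (nat_lit 11) (.e (nat_lit 368699) (nat_lit 44) (.e (nat_lit 778464) (nat_lit 11) .nil))))))) (.g (nat_lit 5) .nil .nil))) 
(.lf (nat_lit 141161) (.g (nat_lit 1001) (.e (nat_lit 24665) (nat_lit 14) (.e (nat_lit 409344) (nat_lit 17) (.e (nat_lit 90176) (nat_lit 15) (.e (nat_lit 188417) (nat_lit 0) (.e (nat_lit 7936) (nat_lit 359) .nil))))) (.g (nat_lit 4) .nil .nil)))) (.nd (nat_lit 5) 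
(.lf (nat_lit 141145) (.g (nat_lit 4782) (.e (nat_lit 24665) (nat_lit 14) (.e (nat_lit 401426) (nat_lit 3) (.e (nat_lit 204855) (nat_lit 26) (.e (nat_lit 336176) (nat_lit 10) (.e (nat_lit 344133) (nat_lit 26) (.e (nat_lit 557087) (nat_lit 11) .nil)))))) (.g (nat_lit 0) .nil .nil))) 
(.lf (nat_lit 141177) (.g (nat_lit 1528) (.e (nat_lit 24665) (nat_lit 14) (.e (nat_lit 409344) (nat_lit 18) (.e (nat_lit 98369) (nat_lit 28) (.e (nat_lit 442368) (nat_lit 0) (.e (nat_lit 6708) (nat_lit 359) .nil))))) (.g (nat_lit 4) .nil .nil)))))) (.nd (nat_lit 3) (.nd (nat_lit 4) (.nd (nat_lit 5) 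
(.lf (nat_lit 141125) (.g (nat_lit 2082) (.e (nat_lit 24665) (nat_lit 14) (.e (nat_lit 401420) (nat_lit 1) (.e (nat_lit 164179) (nat_lit 154) (.e (nat_lit 57437) (nat_lit 17) (.e (nat_lit 376872) (nat_lit 26) (.e (nat_lit 147494) (nat_lit 11) .nil)))))) (.g (nat_lit 4) .nil .nil))) 
(.lf (nat_lit 141157) (.g (nat_lit 2410) (.e (nat_lit 24665) (nat_lit 14) (.e (nat_lit 409344) (nat_lit 17) (.e (nat_lit 90170) (nat_lit 13) (.e (nat_lit 172113) (nat_lit 10) (.e (nat_lit 434208) (nat_lit 18) (.e (nat_lit 5979) (nat_lit 326) (.e (nat_lit 2558) (nat_lit 159) .nil))))))) (.g (nat_lit 4) .nil .nil)))) (.nd (nat_lit 5) 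
(.lf (nat_lit 141141) (.g (nat_lit 3168) (.e (nat_lit 24665) (nat_lit 14) (.e (nat_lit 401423) (nat_lit 2) (.e (nat_lit 196674) (nat_lit 15) (.e (nat_lit 81946) (nat_lit 20) (.e (nat_lit 1858) (nat_lit 124) (.e (nat_lit 564992) (nat_lit 11) .nil)))))) (.g (nat_lit 5) .nil .nil))) 
(.lf (nat_lit 141173) (.g (nat_lit 1207) (.e (nat_lit 24665) (nat_lit 14) (.e (nat_lit 409344) (nat_lit 18) (.e (nat_lit 98359) (nat_lit 26) (.e (nat_lit 426310) (nat_lit 12) (.e (nat_lit 483072) (nat_lit 2) .nil))))) (.g (nat_lit 4) .nil .nil))))) (.nd (nat_lit 4) (.nd (nat_lit 5) 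
(.lf (nat_lit 141133) (.g (nat_lit 2104) (.e (nat_lit 24665) (nat_lit 14) (.e (nat_lit 401421) (nat_lit 1) (.e (nat_lit 164179) (nat_lit 154) (.e (nat_lit 57437) (nat_lit 17) (.e (nat_lit 376872) (nat_lit 26) (.e (nat_lit 147494) (nat_lit 11) .nil)))))) (.g (nat_lit 4) .nil .nil))) 
(.lf (nat_lit 141165) (.g (nat_lit 1602) (.e (nat_lit 24665) (nat_lit 14) (.e (nat_lit 409344) (nat_lit 17) (.e (nat_lit 90185) (nat_lit 17) (.e (nat_lit 237615) (nat_lit 12) (.e (nat_lit 483072) (nat_lit 2) .nil))))) (.g (nat_lit 4) .nil .nil)))) (.nd (nat_lit 5) 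
(.lf (nat_lit 141149) (.g (nat_lit 476) (.e (nat_lit 24665) (nat_lit 14) (.e (nat_lit 401448) (nat_lit 10) (.e (nat_lit 434211) (nat_lit 18) .nil))) .nil)) 
(.lf (nat_lit 141181) (.g (nat_lit 1063) (.e (nat_lit 24665) (nat_lit 14) (.e (nat_lit 409344) (nat_lit 18) (.e (nat_lit 98370) (nat_lit 28) (.e (nat_lit 442368) (nat_lit 0) (.e (nat_lit 7936) (nat_lit 359) .nil))))) (.g (nat_lit 4) .nil .nil))))))) (.nd (nat_lit 2) (.nd (nat_lit 3) (.nd (nat_lit 4) (.nd (nat_lit 5) 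
(.lf (nat_lit 141123) (.g (nat_lit 2145) (.e (nat_lit 24665) (nat_lit 14) (.e (nat_lit 401420) (nat_lit 1) (.e (nat_lit 164179) (nat_lit 154) (.e (nat_lit 57426) (nat_lit 15) (.e (nat_lit 360491) (nat_lit 22) (.e (nat_lit 778465) (nat_lit 11) .nil)))))) (.g (nat_lit 4) .nil .nil))) 
(.lf (nat_lit 141155) (.g (nat_lit 3045) (.e (nat_lit 24665) (nat_lit 14) (.e (nat_lit 401448) (nat_lit 10) (.e (nat_lit 434291) (nat_lit 44) (.e (nat_lit 704728) (nat_lit 10) (.e (nat_lit 8497) (nat_lit 182) (.e (nat_lit 123175) (nat_lit 258) .nil)))))) (.g (nat_lit 4) .nil .nil)))) (.nd (nat_lit 5) 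
(.lf (nat_lit 141139) (.g (nat_lit 4334) (.e (nat_lit 24665) (nat_lit 14) (.e (nat_lit 401423) (nat_lit 2) (.e (nat_lit 196666) (nat_lit 13) (.e (nat_lit 65617) (nat_lit 10) (.e (nat_lit 344130) (nat_lit 26) (.e (nat_lit 557087) (nat_lit 11) .nil)))))) (.g (nat_lit 0) .nil .nil))) 
(.lf (nat_lit 141171) (.g (nat_lit 1907) (.e (nat_lit 24665) (nat_lit 14) (.e (nat_lit 409344) (nat_lit 18) (.e (nat_lit 98359) (nat_lit 26) (.e (nat_lit 426286) (nat_lit 10) (.e (nat_lit 434208) (nat_lit 18) (.e (nat_lit 5979) (nat_lit 326) (.e (nat_lit 2559) (nat_lit 159) .nil))))))) (.g (nat_lit 4) .nil .nil))))) (.nd (nat_lit 4) (.nd (nat_lit 5) 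
(.lf (nat_lit 141131) (.g (nat_lit 2777) (.e (nat_lit 24665) (nat_lit 14) (.e (nat_lit 401420) (nat_lit 1) (.e (nat_lit 164185) (nat_lit 155) (.e (nat_lit 122919) (nat_lit 15) (.e (nat_lit 360492) (nat_lit 22) (.e (nat_lit 778465) (nat_lit 11) .nil)))))) (.g (nat_lit 6) .nil .nil))) 
(.lf (nat_lit 141163) (.g (nat_lit 1094) (.e (nat_lit 24665) (nat_lit 14) (.e (nat_lit 409344) (nat_lit 17) (.e (nat_lit 90178) (nat_lit 15) (.e (nat_lit 188416) (nat_lit 0) (.e (nat_lit 7936) (nat_lit 359) .nil))))) (.g (nat_lit 4) .nil .nil)))) (.nd (nat_lit 5) 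
(.lf (nat_lit 141147) (.g (nat_lit 1201) (.e (nat_lit 24665) (nat_lit 14) (.e (nat_lit 401427) (nat_lit 3) (.e (nat_lit 204855) (nat_lit 26) (.e (nat_lit 336176) (nat_lit 10) .nil)))) .nil)) 
(.lf (nat_lit 141179) (.g (nat_lit 1423) (.e (nat_lit 24665) (nat_lit 14) (.e (nat_lit 409344) (nat_lit 18) (.e (nat_lit 98369) (nat_lit 28) (.e (nat_lit 442374) (nat_lit 0) (.e (nat_lit 7936) (nat_lit 359) .nil))))) (.g (nat_lit 4) .nil .nil)))))) (.nd (nat_lit 3) (.nd (nat_lit 4) (.nd (nat_lit 5) 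
(.lf (nat_lit 141127) (.g (nat_lit 1988) (.e (nat_lit 24665) (nat_lit 14) (.e (nat_lit 401420) (nat_lit 1) (.e (nat_lit 164182) (nat_lit 154) (.e (nat_lit 57426) (nat_lit 15) (.e (nat_lit 360491) (nat_lit 22) (.e (nat_lit 778464) (nat_lit 11) .nil)))))) (.g (nat_lit 4) .nil .nil))) 
(.lf (nat_lit 141159) (.g (nat_lit 1759) (.e (nat_lit 24665) (nat_lit 14) (.e (nat_lit 409344) (nat_lit 17) (.e (nat_lit 90170) (nat_lit 13) (.e (nat_lit 172118) (nat_lit 12) (.e (nat_lit 483072) (nat_lit 2) .nil))))) (.g (nat_lit 4) .nil .nil)))) (.nd (nat_lit 5) 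
(.lf (nat_lit 141143) (.g (nat_lit 4307) (.e (nat_lit 24665) (nat_lit 14) (.e (nat_lit 401424) (nat_lit 2) (.e (nat_lit 196666) (nat_lit 13) (.e (nat_lit 65617) (nat_lit 10) (.e (nat_lit 344130) (nat_lit 26) (.e (nat_lit 557087) (nat_lit 11) .nil)))))) (.g (nat_lit 0) .nil .nil))) 
(.lf (nat_lit 141175) (.g (nat_lit 470) (.e (nat_lit 24665) (nat_lit 14) (.e (nat_lit 409344) (nat_lit 18) (.e (nat_lit 98361) (nat_lit 26) (.e (nat_lit 426310) (nat_lit 12) (.e (nat_lit 483072) (nat_lit 2) .nil))))) (.g (nat_lit 4) .nil .nil))))) (.nd (nat_lit 4) (.nd (nat_lit 5) 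
(.lf (nat_lit 141135) (.g (nat_lit 2599) (.e (nat_lit 24665) (nat_lit 14) (.e (nat_lit 401421) (nat_lit 1) (.e (nat_lit 164182) (nat_lit 154) (.e (nat_lit 57426) (nat_lit 15) (.e (nat_lit 360491) (nat_lit 22) (.e (nat_lit 778465) (nat_lit 11) .nil)))))) (.g (nat_lit 5) .nil .nil))) 
(.lf (nat_lit 141167) (.g (nat_lit 1942) (.e (nat_lit 24665) (nat_lit 14) (.e (nat_lit 409344) (nat_lit 17) (.e (nat_lit 90185) (nat_lit 17) (.e (nat_lit 237619) (nat_lit 12) (.e (nat_lit 483072) (nat_lit 2) .nil))))) (.g (nat_lit 4) .nil .nil)))) (.nd (nat_lit 5) 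
(.lf (nat_lit 141151) (.g (nat_lit 4305) (.e (nat_lit 24665) (nat_lit 14) (.e (nat_lit 401448) (nat_lit 10) (.e (nat_lit 434275) (nat_lit 39) (.e (nat_lit 663589) (nat_lit 14) (.e (nat_lit 2578) (nat_lit 161) (.e (nat_lit 41006) (nat_lit 14) (.e (nat_lit 1146) (nat_lit 85) (.e (nat_lit 40995) (nat_lit 11) .nil)))))))) (.g (nat_lit 4) .nil .nil))) 
(.lf (nat_lit 141183) (.g (nat_lit 1184) (.e (nat_lit 24665) (nat_lit 14) (.e (nat_lit 409344) (nat_lit 18) (.e (nat_lit 98370) (nat_lit 28) (.e (nat_lit 442373) (nat_lit 0) (.e (nat_lit 7936) (nat_lit 359) .nil))))) (.g (nat_lit 4) .nil .nil)))))))))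

noncomputable def tv1875 : DT := (.nd (nat_lit 0) (.nd (nat_lit 1) (.nd (nat_lit 2) (.nd (nat_lit 3) (.nd (nat_lit 4) (.nd (nat_lit 5) (.nd (nat_lit 6) 
(.lf (nat_lit 141184) (.g (nat_lit 1901) (.e (nat_lit 24665) (nat_lit 14) (.e (nat_lit 409344) (nat_lit 18) (.e (nat_lit 98370) (nat_lit 28) (.e (nat_lit 442374) (nat_lit 0) (.e (nat_lit 7936) (nat_lit 359) .nil))))) (.g (nat_lit 4) .nil .nil))) 
(.lf (nat_lit 141248) (.g (nat_lit 3499) (.e (nat_lit 24665) (nat_lit 14) (.e (nat_lit 409344) (nat_lit 34) (.e (nat_lit 393301) (nat_lit 27) (.e (nat_lit 491526) (nat_lit 0) (.e (nat_lit 1842) (nat_lit 123) (.e (nat_lit 548907) (nat_lit 16) .nil)))))) (.g (nat_lit 5) .nil .nil)))) (.nd (nat_lit 6) 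
(.lf (nat_lit 141216) (.g (nat_lit 572) (.e (nat_lit 24665) (nat_lit 14) (.e (nat_lit 409344) (nat_lit 34) (.e (nat_lit 393272) (nat_lit 23) (.e (nat_lit 426127) (nat_lit 2) (.e (nat_lit 204544) (nat_lit 2) .nil))))) (.g (nat_lit 4) .nil .nil))) 
(.lf (nat_lit 141280) (.g (nat_lit 704) (.e (nat_lit 24675) (nat_lit 27) (.e (nat_lit 426278) (nat_lit 10) (.e (nat_lit 434229) (nat_lit 22) (.e (nat_lit 524339) (nat_lit 27) (.e (nat_lit 352000) (nat_lit 2) .nil))))) (.g (nat_lit 4) .nil .nil))))) (.nd (nat_lit 5) (.nd (nat_lit 6) 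
(.lf (nat_lit 141200) (.g (nat_lit 2130) (.e (nat_lit 24665) (nat_lit 14) (.e (nat_lit 409344) (nat_lit 25) (.e (nat_lit 319534) (nat_lit 16) (.e (nat_lit 286749) (nat_lit 9) (.e (nat_lit 336046) (nat_lit 6) (.e (nat_lit 147494) (nat_lit 11) .nil)))))) (.g (nat_lit 4) .nil .nil))) 
(.lf (nat_lit 141264) (.g (nat_lit 1629) (.e (nat_lit 32512) (nat_lit 20) (.e (nat_lit 221206) (nat_lit 21) (.e (nat_lit 164404) (nat_lit 257) (.e (nat_lit 122916) (nat_lit 14) (.e (nat_lit 352312) (nat_lit 22) .nil))))) .nil))) (.nd (nat_lit 6) 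
(.lf (nat_lit 141232) (.g (nat_lit 1416) (.e (nat_lit 24665) (nat_lit 14) (.e (nat_lit 409344) (nat_lit 34) (.e (nat_lit 393280) (nat_lit 23) (.e (nat_lit 426123) (nat_lit 2) (.e (nat_lit 204544) (nat_lit 2) .nil))))) (.g (nat_lit 4) .nil .nil))) 
(.lf (nat_lit 141296) (.g (nat_lit 1364) (.e (nat_lit 24678) (nat_lit 27) (.e (nat_lit 426188) (nat_lit 9) (.e (nat_lit 426432) (nat_lit 17) (.e (nat_lit 98048) (nat_lit 5) .nil)))) .nil))))) (.nd (nat_lit 4) (.nd (nat_lit 5) (.nd (nat_lit 6) 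
(.lf (nat_lit 141192) (.g (nat_lit 1299) (.e (nat_lit 24665) (nat_lit 14) (.e (nat_lit 409344) (nat_lit 18) (.e (nat_lit 98381) (nat_lit 31) (.e (nat_lit 466947) (nat_lit 0) (.e (nat_lit 7936) (nat_lit 359) .nil))))) (.g (nat_lit 4) .nil .nil))) 
(.lf (nat_lit 141256) (.g (nat_lit 528) (.e (nat_lit 32512) (nat_lit 16) (.e (nat_lit 164179) (nat_lit 154) (.e (nat_lit 57348) (nat_lit 0) .nil))) .nil))) (.nd (nat_lit 6) 
(.lf (nat_lit 141224) (.g (nat_lit 798) (.e (nat_lit 24665) (nat_lit 14) (.e (nat_lit 409344) (nat_lit 34) (.e (nat_lit 393277) (nat_lit 23) (.e (nat_lit 426119) (nat_lit 2) (.e (nat_lit 204544) (nat_lit 2) .nil))))) (.g (nat_lit 4) .nil .nil))) 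
(.lf (nat_lit 141288) (.g (nat_lit 850) (.e (nat_lit 24675) (nat_lit 27) (.e (nat_lit 426316) (nat_lit 12) (.e (nat_lit 475168) (nat_lit 22) .nil))) .nil)))) (.nd (nat_lit 5) (.nd (nat_lit 6) 
(.lf (nat_lit 141208) (.g (nat_lit 1792) (.e (nat_lit 24665) (nat_lit 14) (.e (nat_lit 409344) (nat_lit 25) (.e (nat_lit 319534) (nat_lit 16) (.e (nat_lit 286756) (nat_lit 10) (.e (nat_lit 352000) (nat_lit 44) (.e (nat_lit 778470) (nat_lit 11) .nil)))))) (.g (nat_lit 4) .nil .nil))) 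
(.lf (nat_lit 141272) (.g (nat_lit 2473) (.e (nat_lit 24675) (nat_lit 27) (.e (nat_lit 426100) (nat_lit 1) (.e (nat_lit 164399) (nat_lit 256) (.e (nat_lit 57372) (nat_lit 2) (.e (nat_lit 90172) (nat_lit 14) .nil))))) .nil))) (.nd (nat_lit 6) 
(.lf (nat_lit 141240) (.g (nat_lit 1754) (.e (nat_lit 24665) (nat_lit 14) (.e (nat_lit 409344) (nat_lit 34) (.e (nat_lit 393283) (nat_lit 24) (.e (nat_lit 434219) (nat_lit 19) (.e (nat_lit 507648) (nat_lit 7) .nil))))) (.g (nat_lit 4) .nil .nil))) 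
(.lf (nat_lit 141304) (.g (nat_lit 1065) (.e (nat_lit 24679) (nat_lit 27) (.e (nat_lit 426107) (nat_lit 1) (.e (nat_lit 164403) (nat_lit 256) .nil))) .nil)))))) (.nd (nat_lit 3) (.nd (nat_lit 4) (.nd (nat_lit 5) (.nd (nat_lit 6) 
(.lf (nat_lit 141188) (.g (nat_lit 3508) (.e (nat_lit 24665) (nat_lit 14) (.e (nat_lit 409344) (nat_lit 18) (.e (nat_lit 98373) (nat_lit 29) (.e (nat_lit 450562) (nat_lit 0) (.e (nat_lit 6027) (nat_lit 326) (.e (nat_lit 2551) (nat_lit 159) .nil)))))) (.g (nat_lit 4) .nil .nil))) 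
(.lf (nat_lit 141252) (.g (nat_lit 2775) (.e (nat_lit 24667) (nat_lit 15) (.e (nat_lit 3233) (nat_lit 197) (.e (nat_lit 532545) (nat_lit 10) (.e (nat_lit 344133) (nat_lit 26) (.e (nat_lit 557098) (nat_lit 13) (.e (nat_lit 172064) (nat_lit 2) (.e (nat_lit 204544) (nat_lit 2) .nil))))))) (.g (nat_lit 6) .nil .nil)))) (.nd (nat_lit 6) 
(.lf (nat_lit 141220) (.g (nat_lit 992) (.e (nat_lit 24665) (nat_lit 14) (.e (nat_lit 409344) (nat_lit 34) (.e (nat_lit 393274) (nat_lit 23) (.e (nat_lit 426113) (nat_lit 2) (.e (nat_lit 204544) (nat_lit 2) .nil))))) (.g (nat_lit 4) .nil .nil))) 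
(.lf (nat_lit 141284) (.g (nat_lit 910) (.e (nat_lit 24675) (nat_lit 27) (.e (nat_lit 426306) (nat_lit 12) (.e (nat_lit 475167) (nat_lit 22) .nil))) .nil)))) (.nd (nat_lit 5) (.nd (nat_lit 6) 
(.lf (nat_lit 141204) (.g (nat_lit 1916) (.e (nat_lit 24665) (nat_lit 14) (.e (nat_lit 409344) (nat_lit 25) (.e (nat_lit 319534) (nat_lit 16) (.e (nat_lit 286756) (nat_lit 10) (.e (nat_lit 352000) (nat_lit 44) (.e (nat_lit 778461) (nat_lit 11) .nil)))))) (.g (nat_lit 4) .nil .nil))) 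
(.lf (nat_lit 141268) (.g (nat_lit 1004) (.e (nat_lit 24675) (nat_lit 27) (.e (nat_lit 426098) (nat_lit 1) (.e (nat_lit 164399) (nat_lit 256) .nil))) .nil))) (.nd (nat_lit 6) 
(.lf (nat_lit 141236) (.g (nat_lit 880) (.e (nat_lit 24665) (nat_lit 14) (.e (nat_lit 409344) (nat_lit 34) (.e (nat_lit 393281) (nat_lit 23) (.e (nat_lit 426121) (nat_lit 2) (.e (nat_lit 204544) (nat_lit 2) .nil))))) (.g (nat_lit 4) .nil .nil))) 
(.lf (nat_lit 141300) (.g (nat_lit 736) (.e (nat_lit 24679) (nat_lit 27) (.e (nat_lit 426011) (nat_lit 0) (.e (nat_lit 7581) (nat_lit 405) .nil))) .nil))))) (.nd (nat_lit 4) (.nd (nat_lit 5) (.nd (nat_lit 6) 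
(.lf (nat_lit 141196) (.g (nat_lit 2367) (.e (nat_lit 24665) (nat_lit 14) (.e (nat_lit 409344) (nat_lit 25) (.e (nat_lit 319531) (nat_lit 16) (.e (nat_lit 286756) (nat_lit 10) (.e (nat_lit 344180) (nat_lit 44) (.e (nat_lit 778465) (nat_lit 11) .nil)))))) (.g (nat_lit 4) .nil .nil))) 
(.lf (nat_lit 141260) (.g (nat_lit 1965) (.e (nat_lit 32512) (nat_lit 18) (.e (nat_lit 204864) (nat_lit 27) (.e (nat_lit 344133) (nat_lit 26) (.e (nat_lit 557103) (nat_lit 14) (.e (nat_lit 188160) (nat_lit 1) .nil))))) .nil))) (.nd (nat_lit 6) 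
(.lf (nat_lit 141228) (.g (nat_lit 1437) (.e (nat_lit 24665) (nat_lit 14) (.e (nat_lit 409344) (nat_lit 34) (.e (nat_lit 393278) (nat_lit 23) (.e (nat_lit 426125) (nat_lit 2) (.e (nat_lit 204544) (nat_lit 2) .nil))))) (.g (nat_lit 4) .nil .nil))) 
(.lf (nat_lit 141292) (.g (nat_lit 1516) (.e (nat_lit 24677) (nat_lit 27) (.e (nat_lit 426163) (nat_lit 6) (.e (nat_lit 253992) (nat_lit 11) (.e (nat_lit 16411) (nat_lit 2) .nil)))) .nil)))) (.nd (nat_lit 5) (.nd (nat_lit 6) 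
(.lf (nat_lit 141212) (.g (nat_lit 698) (.e (nat_lit 24665) (nat_lit 14) (.e (nat_lit 409344) (nat_lit 34) (.e (nat_lit 393269) (nat_lit 23) (.e (nat_lit 426128) (nat_lit 2) (.e (nat_lit 204544) (nat_lit 2) .nil))))) (.g (nat_lit 4) .nil .nil))) 
(.lf (nat_lit 141276) (.g (nat_lit 594) (.e (nat_lit 24675) (nat_lit 27) (.e (nat_lit 426188) (nat_lit 9) (.e (nat_lit 426427) (nat_lit 17) .nil))) .nil))) (.nd (nat_lit 6) 
(.lf (nat_lit 141244) (.g (nat_lit 613) (.e (nat_lit 24665) (nat_lit 14) (.e (nat_lit 409344) (nat_lit 34) (.e (nat_lit 393288) (nat_lit 25) (.e (nat_lit 458780) (nat_lit 19) (.e (nat_lit 507648) (nat_lit 7) .nil))))) (.g (nat_lit 4) .nil .nil))) 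
(.lf (nat_lit 141308) (.g (nat_lit 1063) (.e (nat_lit 24679) (nat_lit 27) (.e (nat_lit 426306) (nat_lit 12) (.e (nat_lit 475169) (nat_lit 22) (.e (nat_lit 507648) (nat_lit 19) .nil)))) .nil))))))) (.nd (nat_lit 2) (.nd (nat_lit 3) (.nd (nat_lit 4) (.nd (nat_lit 5) (.nd (nat_lit 6) 
(.lf (nat_lit 141186) (.g (nat_lit 3093) (.e (nat_lit 24665) (nat_lit 14) (.e (nat_lit 409344) (nat_lit 18) (.e (nat_lit 98373) (nat_lit 29) (.e (nat_lit 450562) (nat_lit 0) (.e (nat_lit 5979) (nat_lit 326) (.e (nat_lit 2558) (nat_lit 159) .nil)))))) (.g (nat_lit 4) .nil .nil))) 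
(.lf (nat_lit 141250) (.g (nat_lit 2299) (.e (nat_lit 24667) (nat_lit 15) (.e (nat_lit 3141) (nat_lit 193) (.e (nat_lit 500073) (nat_lit 19) (.e (nat_lit 73754) (nat_lit 8) (.e (nat_lit 557101) (nat_lit 13) (.e (nat_lit 172064) (nat_lit 2) (.e (nat_lit 204544) (nat_lit 2) .nil))))))) (.g (nat_lit 6) .nil .nil)))) (.nd (nat_lit 6) 
(.lf (nat_lit 141218) (.g (nat_lit 1138) (.e (nat_lit 24665) (nat_lit 14) (.e (nat_lit 409344) (nat_lit 34) (.e (nat_lit 393273) (nat_lit 23) (.e (nat_lit 426128) (nat_lit 2) (.e (nat_lit 204544) (nat_lit 2) .nil))))) (.g (nat_lit 4) .nil .nil))) 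
(.lf (nat_lit 141282) (.g (nat_lit 732) (.e (nat_lit 24675) (nat_lit 27) (.e (nat_lit 426287) (nat_lit 10) (.e (nat_lit 434229) (nat_lit 22) (.e (nat_lit 524339) (nat_lit 27) (.e (nat_lit 352000) (nat_lit 2) .nil))))) (.g (nat_lit 4) .nil .nil))))) (.nd (nat_lit 5) (.nd (nat_lit 6) 
(.lf (nat_lit 141202) (.g (nat_lit 2688) (.e (nat_lit 24665) (nat_lit 14) (.e (nat_lit 409344) (nat_lit 25) (.e (nat_lit 319534) (nat_lit 16) (.e (nat_lit 286749) (nat_lit 9) (.e (nat_lit 336048) (nat_lit 6) (.e (nat_lit 147493) (nat_lit 11) .nil)))))) (.g (nat_lit 4) .nil .nil))) 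
(.lf (nat_lit 141266) (.g (nat_lit 530) (.e (nat_lit 32512) (nat_lit 20) (.e (nat_lit 221207) (nat_lit 21) (.e (nat_lit 164404) (nat_lit 257) .nil))) .nil))) (.nd (nat_lit 6) 
(.lf (nat_lit 141234) (.g (nat_lit 862) (.e (nat_lit 24665) (nat_lit 14) (.e (nat_lit 409344) (nat_lit 34) (.e (nat_lit 393281) (nat_lit 23) (.e (nat_lit 426115) (nat_lit 2) (.e (nat_lit 204544) (nat_lit 2) .nil))))) (.g (nat_lit 4) .nil .nil))) 
(.lf (nat_lit 141298) (.g (nat_lit 1450) (.e (nat_lit 24678) (nat_lit 27) (.e (nat_lit 426200) (nat_lit 9) (.e (nat_lit 426428) (nat_lit 17) (.e (nat_lit 98048) (nat_lit 5) .nil)))) .nil))))) (.nd (nat_lit 4) (.nd (nat_lit 5) (.nd (nat_lit 6) 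
(.lf (nat_lit 141194) (.g (nat_lit 1725) (.e (nat_lit 24665) (nat_lit 14) (.e (nat_lit 409344) (nat_lit 25) (.e (nat_lit 319531) (nat_lit 16) (.e (nat_lit 286748) (nat_lit 9) (.e (nat_lit 336050) (nat_lit 6) (.e (nat_lit 147494) (nat_lit 11) .nil)))))) (.g (nat_lit 4) .nil .nil))) 
(.lf (nat_lit 141258) (.g (nat_lit 1762) (.e (nat_lit 32512) (nat_lit 18) (.e (nat_lit 204864) (nat_lit 27) (.e (nat_lit 344130) (nat_lit 26) (.e (nat_lit 557103) (nat_lit 14) (.e (nat_lit 188160) (nat_lit 1) .nil))))) .nil))) (.nd (nat_lit 6) 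
(.lf (nat_lit 141226) (.g (nat_lit 865) (.e (nat_lit 24665) (nat_lit 14) (.e (nat_lit 409344) (nat_lit 34) (.e (nat_lit 393278) (nat_lit 23) (.e (nat_lit 426119) (nat_lit 2) (.e (nat_lit 204544) (nat_lit 2) .nil))))) (.g (nat_lit 4) .nil .nil))) 
(.lf (nat_lit 141290) (.g (nat_lit 1695) (.e (nat_lit 24675) (nat_lit 27) (.e (nat_lit 433920) (nat_lit 30) (.e (nat_lit 360473) (nat_lit 8) (.e (nat_lit 557091) (nat_lit 12) (.e (nat_lit 164008) (nat_lit 41) (.e (nat_lit 663583) (nat_lit 11) .nil)))))) (.g (nat_lit 4) .nil .nil))))) (.nd (nat_lit 5) (.nd (nat_lit 6) 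
(.lf (nat_lit 141210) (.g (nat_lit 1494) (.e (nat_lit 24665) (nat_lit 14) (.e (nat_lit 409344) (nat_lit 34) (.e (nat_lit 393266) (nat_lit 23) (.e (nat_lit 426125) (nat_lit 2) (.e (nat_lit 204544) (nat_lit 2) .nil))))) (.g (nat_lit 4) .nil .nil))) 
(.lf (nat_lit 141274) (.g (nat_lit 854) (.e (nat_lit 24675) (nat_lit 27) (.e (nat_lit 426100) (nat_lit 1) (.e (nat_lit 164403) (nat_lit 256) .nil))) .nil))) (.nd (nat_lit 6) 
(.lf (nat_lit 141242) (.g (nat_lit 532) (.e (nat_lit 24665) (nat_lit 14) (.e (nat_lit 409344) (nat_lit 34) (.e (nat_lit 393286) (nat_lit 25) (.e (nat_lit 458780) (nat_lit 19) (.e (nat_lit 507648) (nat_lit 7) .nil))))) (.g (nat_lit 4) .nil .nil))) 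
(.lf (nat_lit 141306) (.g (nat_lit 738) (.e (nat_lit 24679) (nat_lit 27) (.e (nat_lit 426188) (nat_lit 9) (.e (nat_lit 426427) (nat_lit 17) .nil))) .nil)))))) (.nd (nat_lit 3) (.nd (nat_lit 4) (.nd (nat_lit 5) (.nd (nat_lit 6) 
(.lf (nat_lit 141190) (.g (nat_lit 730) (.e (nat_lit 24665) (nat_lit 14) (.e (nat_lit 409344) (nat_lit 18) (.e (nat_lit 98380) (nat_lit 31) (.e (nat_lit 466945) (nat_lit 0) (.e (nat_lit 7936) (nat_lit 359) .nil))))) (.g (nat_lit 4) .nil .nil))) 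
(.lf (nat_lit 141254) (.g (nat_lit 2383) (.e (nat_lit 24669) (nat_lit 15) (.e (nat_lit 3253) (nat_lit 197) (.e (nat_lit 532544) (nat_lit 10) (.e (nat_lit 344132) (nat_lit 26) (.e (nat_lit 557101) (nat_lit 13) .nil))))) .nil))) (.nd (nat_lit 6) 
(.lf (nat_lit 141222) (.g (nat_lit 572) (.e (nat_lit 24665) (nat_lit 14) (.e (nat_lit 409344) (nat_lit 34) (.e (nat_lit 393276) (nat_lit 23) (.e (nat_lit 426113) (nat_lit 2) (.e (nat_lit 204544) (nat_lit 2) .nil))))) (.g (nat_lit 4) .nil .nil))) 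
(.lf (nat_lit 141286) (.g (nat_lit 1185) (.e (nat_lit 24675) (nat_lit 27) (.e (nat_lit 426308) (nat_lit 12) (.e (nat_lit 475167) (nat_lit 22) (.e (nat_lit 500068) (nat_lit 19) (.e (nat_lit 81664) (nat_lit 34) .nil))))) (.g (nat_lit 4) .nil .nil))))) (.nd (nat_lit 5) (.nd (nat_lit 6) 
(.lf (nat_lit 141206) (.g (nat_lit 2091) (.e (nat_lit 24665) (nat_lit 14) (.e (nat_lit 409344) (nat_lit 25) (.e (nat_lit 319534) (nat_lit 16) (.e (nat_lit 286756) (nat_lit 10) (.e (nat_lit 352000) (nat_lit 44) (.e (nat_lit 778468) (nat_lit 11) .nil)))))) (.g (nat_lit 4) .nil .nil))) 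
(.lf (nat_lit 141270) (.g (nat_lit 1711) (.e (nat_lit 24675) (nat_lit 27) (.e (nat_lit 426100) (nat_lit 1) (.e (nat_lit 164398) (nat_lit 256) (.e (nat_lit 57373) (nat_lit 2) .nil)))) .nil))) (.nd (nat_lit 6) 
(.lf (nat_lit 141238) (.g (nat_lit 1774) (.e (nat_lit 24665) (nat_lit 14) (.e (nat_lit 409344) (nat_lit 34) (.e (nat_lit 393281) (nat_lit 23) (.e (nat_lit 426124) (nat_lit 2) (.e (nat_lit 204544) (nat_lit 2) .nil))))) (.g (nat_lit 4) .nil .nil))) 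
(.lf (nat_lit 141302) (.g (nat_lit 846) (.e (nat_lit 24679) (nat_lit 27) (.e (nat_lit 426100) (nat_lit 1) (.e (nat_lit 164398) (nat_lit 256) .nil))) .nil))))) (.nd (nat_lit 4) (.nd (nat_lit 5) (.nd (nat_lit 6) 
(.lf (nat_lit 141198) (.g (nat_lit 1909) (.e (nat_lit 24665) (nat_lit 14) (.e (nat_lit 409344) (nat_lit 25) (.e (nat_lit 319533) (nat_lit 16) (.e (nat_lit 286753) (nat_lit 10) (.e (nat_lit 352000) (nat_lit 44) (.e (nat_lit 778468) (nat_lit 11) .nil)))))) (.g (nat_lit 4) .nil .nil))) 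
(.lf (nat_lit 141262) (.g (nat_lit 1722) (.e (nat_lit 32512) (nat_lit 20) (.e (nat_lit 221206) (nat_lit 21) (.e (nat_lit 164403) (nat_lit 256) (.e (nat_lit 57436) (nat_lit 17) (.e (nat_lit 376864) (nat_lit 22) .nil))))) .nil))) (.nd (nat_lit 6) 
(.lf (nat_lit 141230) (.g (nat_lit 764) (.e (nat_lit 24665) (nat_lit 14) (.e (nat_lit 409344) (nat_lit 34) (.e (nat_lit 393280) (nat_lit 23) (.e (nat_lit 426121) (nat_lit 2) (.e (nat_lit 204544) (nat_lit 2) .nil))))) (.g (nat_lit 4) .nil .nil))) 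
(.lf (nat_lit 141294) (.g (nat_lit 187) (.e (nat_lit 24677) (nat_lit 27) (.e (nat_lit 426234) (nat_lit 9) (.e (nat_lit 426429) (nat_lit 17) .nil))) .nil)))) (.nd (nat_lit 5) (.nd (nat_lit 6) 
(.lf (nat_lit 141214) (.g (nat_lit 1229) (.e (nat_lit 24665) (nat_lit 14) (.e (nat_lit 409344) (nat_lit 34) (.e (nat_lit 393271) (nat_lit 23) (.e (nat_lit 426127) (nat_lit 2) (.e (nat_lit 204544) (nat_lit 2) .nil))))) (.g (nat_lit 4) .nil .nil))) 
(.lf (nat_lit 141278) (.g (nat_lit 1168) (.e (nat_lit 24675) (nat_lit 27) (.e (nat_lit 426200) (nat_lit 9) (.e (nat_lit 425986) (nat_lit 0) (.e (nat_lit 3291) (nat_lit 201) .nil)))) .nil))) (.nd (nat_lit 6) 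
(.lf (nat_lit 141246) (.g (nat_lit 557) (.e (nat_lit 24665) (nat_lit 14) (.e (nat_lit 409344) (nat_lit 34) (.e (nat_lit 393289) (nat_lit 25) (.e (nat_lit 458781) (nat_lit 19) (.e (nat_lit 507648) (nat_lit 7) .nil))))) (.g (nat_lit 4) .nil .nil))) 
(.lf (nat_lit 141310) (.g (nat_lit 1384) (.e (nat_lit 24679) (nat_lit 27) (.e (nat_lit 426308) (nat_lit 12) (.e (nat_lit 475181) (nat_lit 27) (.e (nat_lit 540700) (nat_lit 10) (.e (nat_lit 352000) (nat_lit 2) .nil))))) (.g (nat_lit 4) .nil .nil))))))))) (.nd (nat_lit 1) (.nd (nat_lit 2) (.nd (nat_lit 3) (.nd (nat_lit 4) (.nd (nat_lit 5) (.nd (nat_lit 6) 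
(.lf (nat_lit 141185) (.g (nat_lit 1119) (.e (nat_lit 24665) (nat_lit 14) (.e (nat_lit 409344) (nat_lit 18) (.e (nat_lit 98370) (nat_lit 28) (.e (nat_lit 442375) (nat_lit 0) (.e (nat_lit 7936) (nat_lit 359) .nil))))) (.g (nat_lit 4) .nil .nil))) 
(.lf (nat_lit 141249) (.g (nat_lit 2165) (.e (nat_lit 24666) (nat_lit 15) (.e (nat_lit 3249) (nat_lit 197) (.e (nat_lit 532544) (nat_lit 10) (.e (nat_lit 344133) (nat_lit 26) (.e (nat_lit 557096) (nat_lit 13) .nil))))) .nil))) (.nd (nat_lit 6) 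
(.lf (nat_lit 141217) (.g (nat_lit 758) (.e (nat_lit 24665) (nat_lit 14) (.e (nat_lit 409344) (nat_lit 34) (.e (nat_lit 393272) (nat_lit 23) (.e (nat_lit 426128) (nat_lit 2) (.e (nat_lit 204544) (nat_lit 2) .nil))))) (.g (nat_lit 4) .nil .nil))) 
(.lf (nat_lit 141281) (.g (nat_lit 858) (.e (nat_lit 24675) (nat_lit 27) (.e (nat_lit 426278) (nat_lit 10) (.e (nat_lit 434241) (nat_lit 27) (.e (nat_lit 565268) (nat_lit 5) (.e (nat_lit 81664) (nat_lit 34) .nil))))) (.g (nat_lit 4) .nil .nil))))) (.nd (nat_lit 5) (.nd (nat_lit 6) 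
(.lf (nat_lit 141201) (.g (nat_lit 1819) (.e (nat_lit 24665) (nat_lit 14) (.e (nat_lit 409344) (nat_lit 25) (.e (nat_lit 319534) (nat_lit 16) (.e (nat_lit 286749) (nat_lit 9) (.e (nat_lit 336047) (nat_lit 6) (.e (nat_lit 147493) (nat_lit 11) .nil)))))) (.g (nat_lit 4) .nil .nil))) 
(.lf (nat_lit 141265) (.g (nat_lit 1483) (.e (nat_lit 32512) (nat_lit 20) (.e (nat_lit 221207) (nat_lit 21) (.e (nat_lit 164401) (nat_lit 256) (.e (nat_lit 57426) (nat_lit 15) (.e (nat_lit 360459) (nat_lit 1) .nil))))) .nil))) (.nd (nat_lit 6) 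
(.lf (nat_lit 141233) (.g (nat_lit 1082) (.e (nat_lit 24665) (nat_lit 14) (.e (nat_lit 409344) (nat_lit 34) (.e (nat_lit 393281) (nat_lit 23) (.e (nat_lit 426114) (nat_lit 2) (.e (nat_lit 204544) (nat_lit 2) .nil))))) (.g (nat_lit 4) .nil .nil))) 
(.lf (nat_lit 141297) (.g (nat_lit 954) (.e (nat_lit 24678) (nat_lit 27) (.e (nat_lit 426198) (nat_lit 9) (.e (nat_lit 426432) (nat_lit 17) (.e (nat_lit 98048) (nat_lit 5) .nil)))) .nil))))) (.nd (nat_lit 4) (.nd (nat_lit 5) (.nd (nat_lit 6) 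
(.lf (nat_lit 141193) (.g (nat_lit 2065) (.e (nat_lit 24665) (nat_lit 14) (.e (nat_lit 409344) (nat_lit 25) (.e (nat_lit 319531) (nat_lit 16) (.e (nat_lit 286748) (nat_lit 9) (.e (nat_lit 336048) (nat_lit 6) (.e (nat_lit 147493) (nat_lit 11) .nil)))))) (.g (nat_lit 4) .nil .nil))) 
(.lf (nat_lit 141257) (.g (nat_lit 1805) (.e (nat_lit 32512) (nat_lit 18) (.e (nat_lit 204864) (nat_lit 27) (.e (nat_lit 344130) (nat_lit 26) (.e (nat_lit 557097) (nat_lit 13) (.e (nat_lit 172073) (nat_lit 5) .nil))))) .nil))) (.nd (nat_lit 6) 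
(.lf (nat_lit 141225) (.g (nat_lit 463) (.e (nat_lit 24665) (nat_lit 14) (.e (nat_lit 409344) (nat_lit 34) (.e (nat_lit 393278) (nat_lit 23) (.e (nat_lit 426117) (nat_lit 2) (.e (nat_lit 204544) (nat_lit 2) .nil))))) (.g (nat_lit 4) .nil .nil))) 
(.lf (nat_lit 141289) (.g (nat_lit 1328) (.e (nat_lit 24675) (nat_lit 27) (.e (nat_lit 426316) (nat_lit 12) (.e (nat_lit 475181) (nat_lit 27) (.e (nat_lit 540700) (nat_lit 10) .nil)))) .nil)))) (.nd (nat_lit 5) (.nd (nat_lit 6) 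
(.lf (nat_lit 141209) (.g (nat_lit 1400) (.e (nat_lit 24665) (nat_lit 14) (.e (nat_lit 401470) (nat_lit 27) (.e (nat_lit 336402) (nat_lit 27) (.e (nat_lit 426259) (nat_lit 9) (.e (nat_lit 426126) (nat_lit 2) (.e (nat_lit 204544) (nat_lit 2) .nil)))))) (.g (nat_lit 5) .nil .nil))) 
(.lf (nat_lit 141273) (.g (nat_lit 1633) (.e (nat_lit 24675) (nat_lit 27) (.e (nat_lit 426100) (nat_lit 1) (.e (nat_lit 164399) (nat_lit 256) (.e (nat_lit 57375) (nat_lit 2) .nil)))) .nil))) (.nd (nat_lit 6) 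
(.lf (nat_lit 141241) (.g (nat_lit 498) (.e (nat_lit 24665) (nat_lit 14) (.e (nat_lit 409344) (nat_lit 34) (.e (nat_lit 393285) (nat_lit 25) (.e (nat_lit 458781) (nat_lit 19) (.e (nat_lit 507648) (nat_lit 7) .nil))))) (.g (nat_lit 4) .nil .nil))) 
(.lf (nat_lit 141305) (.g (nat_lit 602) (.e (nat_lit 24679) (nat_lit 27) (.e (nat_lit 426181) (nat_lit 8) (.e (nat_lit 417795) (nat_lit 0) (.e (nat_lit 577) (nat_lit 43) .nil)))) .nil)))))) (.nd (nat_lit 3) (.nd (nat_lit 4) (.nd (nat_lit 5) (.nd (nat_lit 6) 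
(.lf (nat_lit 141189) (.g (nat_lit 3155) (.e (nat_lit 24665) (nat_lit 14) (.e (nat_lit 409344) (nat_lit 18) (.e (nat_lit 98373) (nat_lit 29) (.e (nat_lit 450563) (nat_lit 0) (.e (nat_lit 6000) (nat_lit 326) (.e (nat_lit 2551) (nat_lit 159) .nil)))))) (.g (nat_lit 4) .nil .nil))) 
(.lf (nat_lit 141253) (.g (nat_lit 1971) (.e (nat_lit 24669) (nat_lit 15) (.e (nat_lit 3253) (nat_lit 197) (.e (nat_lit 532543) (nat_lit 10) (.e (nat_lit 344133) (nat_lit 26) (.e (nat_lit 557096) (nat_lit 13) .nil))))) .nil))) (.nd (nat_lit 6) 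
(.lf (nat_lit 141221) (.g (nat_lit 1323) (.e (nat_lit 24665) (nat_lit 14) (.e (nat_lit 409344) (nat_lit 34) (.e (nat_lit 393275) (nat_lit 23) (.e (nat_lit 426125) (nat_lit 2) (.e (nat_lit 204544) (nat_lit 2) .nil))))) (.g (nat_lit 4) .nil .nil))) 
(.lf (nat_lit 141285) (.g (nat_lit 706) (.e (nat_lit 24675) (nat_lit 27) (.e (nat_lit 426306) (nat_lit 12) (.e (nat_lit 475169) (nat_lit 22) .nil))) .nil)))) (.nd (nat_lit 5) (.nd (nat_lit 6) 
(.lf (nat_lit 141205) (.g (nat_lit 1575) (.e (nat_lit 24665) (nat_lit 14) (.e (nat_lit 409344) (nat_lit 25) (.e (nat_lit 319534) (nat_lit 16) (.e (nat_lit 286756) (nat_lit 10) (.e (nat_lit 352000) (nat_lit 44) (.e (nat_lit 778464) (nat_lit 11) .nil)))))) (.g (nat_lit 4) .nil .nil))) 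
(.lf (nat_lit 141269) (.g (nat_lit 2532) (.e (nat_lit 24675) (nat_lit 27) (.e (nat_lit 426100) (nat_lit 1) (.e (nat_lit 164398) (nat_lit 256) (.e (nat_lit 57372) (nat_lit 2) (.e (nat_lit 90172) (nat_lit 14) .nil))))) .nil))) (.nd (nat_lit 6) 
(.lf (nat_lit 141237) (.g (nat_lit 1353) (.e (nat_lit 24665) (nat_lit 14) (.e (nat_lit 409344) (nat_lit 34) (.e (nat_lit 393281) (nat_lit 23) (.e (nat_lit 426123) (nat_lit 2) (.e (nat_lit 204544) (nat_lit 2) .nil))))) (.g (nat_lit 4) .nil .nil))) 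
(.lf (nat_lit 141301) (.g (nat_lit 1001) (.e (nat_lit 24679) (nat_lit 27) (.e (nat_lit 426098) (nat_lit 1) (.e (nat_lit 164399) (nat_lit 256) .nil))) .nil))))) (.nd (nat_lit 4) (.nd (nat_lit 5) (.nd (nat_lit 6) 
(.lf (nat_lit 141197) (.g (nat_lit 1393) (.e (nat_lit 24665) (nat_lit 14) (.e (nat_lit 409344) (nat_lit 25) (.e (nat_lit 319533) (nat_lit 16) (.e (nat_lit 286753) (nat_lit 10) (.e (nat_lit 352000) (nat_lit 44) (.e (nat_lit 778464) (nat_lit 11) .nil)))))) (.g (nat_lit 4) .nil .nil))) 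
(.lf (nat_lit 141261) (.g (nat_lit 1316) (.e (nat_lit 32512) (nat_lit 20) (.e (nat_lit 221206) (nat_lit 21) (.e (nat_lit 164401) (nat_lit 256) (.e (nat_lit 57426) (nat_lit 15) (.e (nat_lit 360459) (nat_lit 1) .nil))))) .nil))) (.nd (nat_lit 6) 
(.lf (nat_lit 141229) (.g (nat_lit 587) (.e (nat_lit 24665) (nat_lit 14) (.e (nat_lit 409344) (nat_lit 34) (.e (nat_lit 393279) (nat_lit 23) (.e (nat_lit 426126) (nat_lit 2) (.e (nat_lit 204544) (nat_lit 2) .nil))))) (.g (nat_lit 4) .nil .nil))) 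
(.lf (nat_lit 141293) (.g (nat_lit 154) (.e (nat_lit 24677) (nat_lit 27) (.e (nat_lit 426230) (nat_lit 9) (.e (nat_lit 426349) (nat_lit 15) .nil))) .nil)))) (.nd (nat_lit 5) (.nd (nat_lit 6) 
(.lf (nat_lit 141213) (.g (nat_lit 1184) (.e (nat_lit 24665) (nat_lit 14) (.e (nat_lit 409344) (nat_lit 34) (.e (nat_lit 393270) (nat_lit 23) (.e (nat_lit 426128) (nat_lit 2) (.e (nat_lit 204544) (nat_lit 2) .nil))))) (.g (nat_lit 4) .nil .nil))) 
(.lf (nat_lit 141277) (.g (nat_lit 594) (.e (nat_lit 24675) (nat_lit 27) (.e (nat_lit 426188) (nat_lit 9) (.e (nat_lit 426430) (nat_lit 17) .nil))) .nil))) (.nd (nat_lit 6) 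
(.lf (nat_lit 141245) (.g (nat_lit 779) (.e (nat_lit 24665) (nat_lit 14) (.e (nat_lit 409344) (nat_lit 34) (.e (nat_lit 393289) (nat_lit 25) (.e (nat_lit 458780) (nat_lit 19) (.e (nat_lit 507648) (nat_lit 7) .nil))))) (.g (nat_lit 4) .nil .nil))) 
(.lf (nat_lit 141309) (.g (nat_lit 1249) (.e (nat_lit 24679) (nat_lit 27) (.e (nat_lit 426308) (nat_lit 12) (.e (nat_lit 475167) (nat_lit 22) (.e (nat_lit 500068) (nat_lit 19) (.e (nat_lit 81664) (nat_lit 34) .nil))))) (.g (nat_lit 4) .nil .nil)))))))) (.nd (nat_lit 2) (.nd (nat_lit 3) (.nd (nat_lit 4) (.nd (nat_lit 5) (.nd (nat_lit 6) 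
(.lf (nat_lit 141187) (.g (nat_lit 2980) (.e (nat_lit 24665) (nat_lit 14) (.e (nat_lit 409344) (nat_lit 18) (.e (nat_lit 98373) (nat_lit 29) (.e (nat_lit 450562) (nat_lit 0) (.e (nat_lit 5979) (nat_lit 326) (.e (nat_lit 2559) (nat_lit 159) .nil)))))) (.g (nat_lit 4) .nil .nil))) 
(.lf (nat_lit 141251) (.g (nat_lit 2283) (.e (nat_lit 24667) (nat_lit 15) (.e (nat_lit 3233) (nat_lit 197) (.e (nat_lit 532545) (nat_lit 10) (.e (nat_lit 344130) (nat_lit 26) (.e (nat_lit 557097) (nat_lit 13) (.e (nat_lit 172064) (nat_lit 2) (.e (nat_lit 204544) (nat_lit 2) .nil))))))) (.g (nat_lit 6) .nil .nil)))) (.nd (nat_lit 6) 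
(.lf (nat_lit 141219) (.g (nat_lit 2002) (.e (nat_lit 24665) (nat_lit 14) (.e (nat_lit 409344) (nat_lit 34) (.e (nat_lit 393273) (nat_lit 23) (.e (nat_lit 426364) (nat_lit 15) (.e (nat_lit 1886) (nat_lit 127) (.e (nat_lit 581645) (nat_lit 2) .nil)))))) (.g (nat_lit 5) .nil .nil))) 
(.lf (nat_lit 141283) (.g (nat_lit 302) (.e (nat_lit 24675) (nat_lit 27) (.e (nat_lit 426298) (nat_lit 11) (.e (nat_lit 458793) (nat_lit 27) .nil))) .nil)))) (.nd (nat_lit 5) (.nd (nat_lit 6) 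
(.lf (nat_lit 141203) (.g (nat_lit 2337) (.e (nat_lit 24665) (nat_lit 14) (.e (nat_lit 409344) (nat_lit 25) (.e (nat_lit 319534) (nat_lit 16) (.e (nat_lit 286756) (nat_lit 10) (.e (nat_lit 344180) (nat_lit 44) (.e (nat_lit 778460) (nat_lit 11) .nil)))))) (.g (nat_lit 4) .nil .nil))) 
(.lf (nat_lit 141267) (.g (nat_lit 1460) (.e (nat_lit 32512) (nat_lit 20) (.e (nat_lit 221208) (nat_lit 21) (.e (nat_lit 164402) (nat_lit 256) (.e (nat_lit 57436) (nat_lit 17) (.e (nat_lit 376864) (nat_lit 22) .nil))))) .nil))) (.nd (nat_lit 6) 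
(.lf (nat_lit 141235) (.g (nat_lit 1477) (.e (nat_lit 24665) (nat_lit 14) (.e (nat_lit 409344) (nat_lit 34) (.e (nat_lit 393281) (nat_lit 23) (.e (nat_lit 426116) (nat_lit 2) (.e (nat_lit 204544) (nat_lit 2) .nil))))) (.g (nat_lit 4) .nil .nil))) 
(.lf (nat_lit 141299) (.g (nat_lit 1538) (.e (nat_lit 24678) (nat_lit 27) (.e (nat_lit 426200) (nat_lit 9) (.e (nat_lit 426432) (nat_lit 17) (.e (nat_lit 98048) (nat_lit 5) .nil)))) .nil))))) (.nd (nat_lit 4) (.nd (nat_lit 5) (.nd (nat_lit 6) 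
(.lf (nat_lit 141195) (.g (nat_lit 2098) (.e (nat_lit 24665) (nat_lit 14) (.e (nat_lit 409344) (nat_lit 25) (.e (nat_lit 319531) (nat_lit 16) (.e (nat_lit 286756) (nat_lit 10) (.e (nat_lit 344180) (nat_lit 44) (.e (nat_lit 778463) (nat_lit 11) .nil)))))) (.g (nat_lit 4) .nil .nil))) 
(.lf (nat_lit 141259) (.g (nat_lit 2421) (.e (nat_lit 32512) (nat_lit 18) (.e (nat_lit 204864) (nat_lit 27) (.e (nat_lit 344132) (nat_lit 26) (.e (nat_lit 557100) (nat_lit 13) (.e (nat_lit 172071) (nat_lit 5) .nil))))) .nil))) (.nd (nat_lit 6) 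
(.lf (nat_lit 141227) (.g (nat_lit 482) (.e (nat_lit 24665) (nat_lit 14) (.e (nat_lit 409344) (nat_lit 34) (.e (nat_lit 393278) (nat_lit 23) (.e (nat_lit 426120) (nat_lit 2) (.e (nat_lit 204544) (nat_lit 2) .nil))))) (.g (nat_lit 4) .nil .nil))) 
(.lf (nat_lit 141291) (.g (nat_lit 1743) (.e (nat_lit 24677) (nat_lit 27) (.e (nat_lit 426163) (nat_lit 6) (.e (nat_lit 253991) (nat_lit 11) (.e (nat_lit 16388) (nat_lit 0) .nil)))) .nil)))) (.nd (nat_lit 5) (.nd (nat_lit 6) 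
(.lf (nat_lit 141211) (.g (nat_lit 1927) (.e (nat_lit 24665) (nat_lit 14) (.e (nat_lit 409344) (nat_lit 34) (.e (nat_lit 393268) (nat_lit 23) (.e (nat_lit 426128) (nat_lit 2) (.e (nat_lit 204544) (nat_lit 2) .nil))))) (.g (nat_lit 4) .nil .nil))) 
(.lf (nat_lit 141275) (.g (nat_lit 1318) (.e (nat_lit 24675) (nat_lit 27) (.e (nat_lit 426107) (nat_lit 1) (.e (nat_lit 164403) (nat_lit 256) .nil))) .nil))) (.nd (nat_lit 6) 
(.lf (nat_lit 141243) (.g (nat_lit 493) (.e (nat_lit 24665) (nat_lit 14) (.e (nat_lit 409344) (nat_lit 34) (.e (nat_lit 393286) (nat_lit 25) (.e (nat_lit 458781) (nat_lit 19) (.e (nat_lit 507648) (nat_lit 7) .nil))))) (.g (nat_lit 4) .nil .nil))) 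
(.lf (nat_lit 141307) (.g (nat_lit 508) (.e (nat_lit 24679) (nat_lit 27) (.e (nat_lit 426198) (nat_lit 9) (.e (nat_lit 426430) (nat_lit 17) .nil))) .nil)))))) (.nd (nat_lit 3) (.nd (nat_lit 4) (.nd (nat_lit 5) (.nd (nat_lit 6) 
(.lf (nat_lit 141191) (.g (nat_lit 1247) (.e (nat_lit 24665) (nat_lit 14) (.e (nat_lit 409344) (nat_lit 18) (.e (nat_lit 98380) (nat_lit 31) (.e (nat_lit 466947) (nat_lit 0) (.e (nat_lit 7936) (nat_lit 359) .nil))))) (.g (nat_lit 4) .nil .nil))) 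
(.lf (nat_lit 141255) (.g (nat_lit 2930) (.e (nat_lit 24669) (nat_lit 15) (.e (nat_lit 3253) (nat_lit 197) (.e (nat_lit 532544) (nat_lit 10) (.e (nat_lit 344133) (nat_lit 26) (.e (nat_lit 557096) (nat_lit 13) .nil))))) .nil))) (.nd (nat_lit 6) 
(.lf (nat_lit 141223) (.g (nat_lit 898) (.e (nat_lit 24665) (nat_lit 14) (.e (nat_lit 409344) (nat_lit 34) (.e (nat_lit 393276) (nat_lit 23) (.e (nat_lit 426119) (nat_lit 2) (.e (nat_lit 204544) (nat_lit 2) .nil))))) (.g (nat_lit 4) .nil .nil))) 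
(.lf (nat_lit 141287) (.g (nat_lit 1395) (.e (nat_lit 24675) (nat_lit 27) (.e (nat_lit 426308) (nat_lit 12) (.e (nat_lit 475181) (nat_lit 27) (.e (nat_lit 540700) (nat_lit 10) (.e (nat_lit 352000) (nat_lit 2) .nil))))) (.g (nat_lit 4) .nil .nil))))) (.nd (nat_lit 5) (.nd (nat_lit 6) 
(.lf (nat_lit 141207) (.g (nat_lit 1633) (.e (nat_lit 24665) (nat_lit 14) (.e (nat_lit 409344) (nat_lit 25) (.e (nat_lit 319534) (nat_lit 16) (.e (nat_lit 286756) (nat_lit 10) (.e (nat_lit 352000) (nat_lit 44) (.e (nat_lit 778469) (nat_lit 11) .nil)))))) (.g (nat_lit 4) .nil .nil))) 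
(.lf (nat_lit 141271) (.g (nat_lit 1643) (.e (nat_lit 24675) (nat_lit 27) (.e (nat_lit 426100) (nat_lit 1) (.e (nat_lit 164398) (nat_lit 256) (.e (nat_lit 57375) (nat_lit 2) .nil)))) .nil))) (.nd (nat_lit 6) 
(.lf (nat_lit 141239) (.g (nat_lit 1410) (.e (nat_lit 24665) (nat_lit 14) (.e (nat_lit 409344) (nat_lit 34) (.e (nat_lit 393282) (nat_lit 24) (.e (nat_lit 434219) (nat_lit 19) (.e (nat_lit 507648) (nat_lit 7) .nil))))) (.g (nat_lit 4) .nil .nil))) 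
(.lf (nat_lit 141303) (.g (nat_lit 869) (.e (nat_lit 24679) (nat_lit 27) (.e (nat_lit 426100) (nat_lit 1) (.e (nat_lit 164399) (nat_lit 256) .nil))) .nil))))) (.nd (nat_lit 4) (.nd (nat_lit 5) (.nd (nat_lit 6) 
(.lf (nat_lit 141199) (.g (nat_lit 2465) (.e (nat_lit 24665) (nat_lit 14) (.e (nat_lit 409344) (nat_lit 25) (.e (nat_lit 319534) (nat_lit 16) (.e (nat_lit 286749) (nat_lit 9) (.e (nat_lit 335907) (nat_lit 0) (.e (nat_lit 2292) (nat_lit 151) (.e (nat_lit 778459) (nat_lit 11) .nil))))))) (.g (nat_lit 4) .nil .nil))) 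
(.lf (nat_lit 141263) (.g (nat_lit 1553) (.e (nat_lit 32512) (nat_lit 20) (.e (nat_lit 221206) (nat_lit 21) (.e (nat_lit 164403) (nat_lit 256) (.e (nat_lit 57438) (nat_lit 17) .nil)))) .nil))) (.nd (nat_lit 6) 
(.lf (nat_lit 141231) (.g (nat_lit 747) (.e (nat_lit 24665) (nat_lit 14) (.e (nat_lit 409344) (nat_lit 34) (.e (nat_lit 393280) (nat_lit 23) (.e (nat_lit 426122) (nat_lit 2) (.e (nat_lit 204544) (nat_lit 2) .nil))))) (.g (nat_lit 4) .nil .nil))) 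
(.lf (nat_lit 141295) (.g (nat_lit 168) (.e (nat_lit 24677) (nat_lit 27) (.e (nat_lit 426234) (nat_lit 9) (.e (nat_lit 433920) (nat_lit 22) .nil))) .nil)))) (.nd (nat_lit 5) (.nd (nat_lit 6) 
(.lf (nat_lit 141215) (.g (nat_lit 1443) (.e (nat_lit 24665) (nat_lit 14) (.e (nat_lit 409344) (nat_lit 34) (.e (nat_lit 393271) (nat_lit 23) (.e (nat_lit 426128) (nat_lit 2) (.e (nat_lit 204544) (nat_lit 2) .nil))))) (.g (nat_lit 4) .nil .nil))) 
(.lf (nat_lit 141279) (.g (nat_lit 1247) (.e (nat_lit 24675) (nat_lit 27) (.e (nat_lit 426275) (nat_lit 10) (.e (nat_lit 434229) (nat_lit 22) (.e (nat_lit 524339) (nat_lit 27) (.e (nat_lit 352000) (nat_lit 2) .nil))))) (.g (nat_lit 4) .nil .nil)))) (.nd (nat_lit 6) 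
(.lf (nat_lit 141247) (.g (nat_lit 2957) (.e (nat_lit 24665) (nat_lit 14) (.e (nat_lit 409344) (nat_lit 34) (.e (nat_lit 393299) (nat_lit 27) (.e (nat_lit 491526) (nat_lit 0) (.e (nat_lit 1842) (nat_lit 123) (.e (nat_lit 548907) (nat_lit 16) .nil)))))) (.g (nat_lit 4) .nil .nil))) 
(.lf (nat_lit 141311) (.g (nat_lit 479) (.e (nat_lit 24679) (nat_lit 27) (.e (nat_lit 426315) (nat_lit 12) (.e (nat_lit 483072) (nat_lit 26) .nil))) .nil)))))))))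

noncomputable def tv1876 : DT := (.nd (nat_lit 0) (.nd (nat_lit 1) (.nd (nat_lit 2) (.nd (nat_lit 3) (.nd (nat_lit 4) (.nd (nat_lit 5) (.nd (nat_lit 6) 
(.lf (nat_lit 141312) (.g (nat_lit 1912) (.e (nat_lit 24679) (nat_lit 27) (.e (nat_lit 433920) (nat_lit 30) (.e (nat_lit 360473) (nat_lit 8) (.e (nat_lit 557089) (nat_lit 12) (.e (nat_lit 164010) (nat_lit 41) (.e (nat_lit 663583) (nat_lit 11) .nil)))))) (.g (nat_lit 4) .nil .nil))) 
(.lf (nat_lit 141376) (.g (nat_lit 1366) (.e (nat_lit 32780) (nat_lit 5) (.e (nat_lit 1181) (nat_lit 87) (.e (nat_lit 57847) (nat_lit 252) (.e (nat_lit 57430) (nat_lit 16) .nil)))) .nil))) (.nd (nat_lit 6) 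
(.lf (nat_lit 141344) (.g (nat_lit 1876) (.e (nat_lit 32774) (nat_lit 5) (.e (nat_lit 1401) (nat_lit 106) (.e (nat_lit 319531) (nat_lit 16) (.e (nat_lit 286735) (nat_lit 3) (.e (nat_lit 98363) (nat_lit 26) .nil))))) .nil)) 
(.lf (nat_lit 141408) (.g (nat_lit 2669) (.e (nat_lit 32786) (nat_lit 9) (.e (nat_lit 65630) (nat_lit 14) (.e (nat_lit 401425) (nat_lit 2) (.e (nat_lit 196666) (nat_lit 13) (.e (nat_lit 65543) (nat_lit 0) .nil))))) .nil)))) (.nd (nat_lit 5) (.nd (nat_lit 6) 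
(.lf (nat_lit 141328) (.g (nat_lit 144) (.e (nat_lit 32512) (nat_lit 29) (.e (nat_lit 442395) (nat_lit 20) (.e (nat_lit 3281) (nat_lit 200) .nil))) .nil)) 
(.lf (nat_lit 141392) (.g (nat_lit 1480) (.e (nat_lit 32786) (nat_lit 9) (.e (nat_lit 65598) (nat_lit 9) (.e (nat_lit 336013) (nat_lit 2) (.e (nat_lit 90165) (nat_lit 12) .nil)))) .nil))) (.nd (nat_lit 6) 
(.lf (nat_lit 141360) (.g (nat_lit 1869) (.e (nat_lit 32774) (nat_lit 5) (.e (nat_lit 1589) (nat_lit 111) (.e (nat_lit 360475) (nat_lit 8) (.e (nat_lit 557085) (nat_lit 11) .nil)))) .nil)) 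
(.lf (nat_lit 141424) (.g (nat_lit 1580) (.e (nat_lit 32786) (nat_lit 9) (.e (nat_lit 65630) (nat_lit 14) (.e (nat_lit 401427) (nat_lit 3) (.e (nat_lit 204863) (nat_lit 27) .nil)))) .nil))))) (.nd (nat_lit 4) (.nd (nat_lit 5) (.nd (nat_lit 6) 
(.lf (nat_lit 141320) (.g (nat_lit 2322) (.e (nat_lit 24679) (nat_lit 27) (.e (nat_lit 433920) (nat_lit 30) (.e (nat_lit 360475) (nat_lit 8) (.e (nat_lit 557091) (nat_lit 12) (.e (nat_lit 164007) (nat_lit 41) (.e (nat_lit 663583) (nat_lit 11) .nil)))))) (.g (nat_lit 4) .nil .nil))) 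
(.lf (nat_lit 141384) (.g (nat_lit 2357) (.e (nat_lit 32783) (nat_lit 7) (.e (nat_lit 16436) (nat_lit 9) (.e (nat_lit 426131) (nat_lit 3) (.e (nat_lit 204880) (nat_lit 32) (.e (nat_lit 385115) (nat_lit 53) (.e (nat_lit 811044) (nat_lit 13) .nil)))))) (.g (nat_lit 6) .nil .nil)))) (.nd (nat_lit 6) 
(.lf (nat_lit 141352) (.g (nat_lit 536) (.e (nat_lit 32774) (nat_lit 5) (.e (nat_lit 1589) (nat_lit 111) (.e (nat_lit 360465) (nat_lit 3) .nil))) .nil)) 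
(.lf (nat_lit 141416) (.g (nat_lit 2798) (.e (nat_lit 32786) (nat_lit 9) (.e (nat_lit 65630) (nat_lit 14) (.e (nat_lit 401425) (nat_lit 2) (.e (nat_lit 196668) (nat_lit 14) (.e (nat_lit 73789) (nat_lit 45) .nil))))) .nil)))) (.nd (nat_lit 5) (.nd (nat_lit 6) 
(.lf (nat_lit 141336) (.g (nat_lit 413) (.e (nat_lit 32512) (nat_lit 29) (.e (nat_lit 442412) (nat_lit 20) (.e (nat_lit 3289) (nat_lit 201) (.e (nat_lit 565268) (nat_lit 5) (.e (nat_lit 81664) (nat_lit 34) .nil))))) .nil)) 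
(.lf (nat_lit 141400) (.g (nat_lit 2433) (.e (nat_lit 32786) (nat_lit 9) (.e (nat_lit 65624) (nat_lit 12) (.e (nat_lit 385074) (nat_lit 31) (.e (nat_lit 573482) (nat_lit 13) .nil)))) .nil))) (.nd (nat_lit 6) 
(.lf (nat_lit 141368) (.g (nat_lit 2775) (.e (nat_lit 32774) (nat_lit 5) (.e (nat_lit 1669) (nat_lit 116) (.e (nat_lit 401454) (nat_lit 12) (.e (nat_lit 475176) (nat_lit 24) .nil)))) .nil)) 
(.lf (nat_lit 141432) (.g (nat_lit 2041) (.e (nat_lit 32786) (nat_lit 9) (.e (nat_lit 65630) (nat_lit 14) (.e (nat_lit 401428) (nat_lit 3) (.e (nat_lit 204863) (nat_lit 27) (.e (nat_lit 344081) (nat_lit 13) .nil))))) .nil)))))) (.nd (nat_lit 3) (.nd (nat_lit 4) (.nd (nat_lit 5) (.nd (nat_lit 6) 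
(.lf (nat_lit 141316) (.g (nat_lit 1269) (.e (nat_lit 24679) (nat_lit 27) (.e (nat_lit 433920) (nat_lit 30) (.e (nat_lit 360473) (nat_lit 8) (.e (nat_lit 557094) (nat_lit 12) (.e (nat_lit 164008) (nat_lit 41) (.e (nat_lit 663583) (nat_lit 11) .nil)))))) (.g (nat_lit 4) .nil .nil))) 
(.lf (nat_lit 141380) (.g (nat_lit 3651) (.e (nat_lit 32780) (nat_lit 5) (.e (nat_lit 1587) (nat_lit 111) (.e (nat_lit 360475) (nat_lit 8) (.e (nat_lit 557087) (nat_lit 11) (.e (nat_lit 24617) (nat_lit 7) .nil))))) .nil))) (.nd (nat_lit 6) 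
(.lf (nat_lit 141348) (.g (nat_lit 2303) (.e (nat_lit 32774) (nat_lit 5) (.e (nat_lit 1586) (nat_lit 111) (.e (nat_lit 360471) (nat_lit 7) (.e (nat_lit 548889) (nat_lit 9) (.e (nat_lit 65584) (nat_lit 7) .nil))))) .nil)) 
(.lf (nat_lit 141412) (.g (nat_lit 2341) (.e (nat_lit 32786) (nat_lit 9) (.e (nat_lit 65630) (nat_lit 14) (.e (nat_lit 401425) (nat_lit 2) (.e (nat_lit 196666) (nat_lit 13) (.e (nat_lit 65585) (nat_lit 7) .nil))))) .nil)))) (.nd (nat_lit 5) (.nd (nat_lit 6) 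
(.lf (nat_lit 141332) (.g (nat_lit 211) (.e (nat_lit 32512) (nat_lit 29) (.e (nat_lit 442399) (nat_lit 20) (.e (nat_lit 3281) (nat_lit 200) (.e (nat_lit 564992) (nat_lit 5) .nil)))) .nil)) 
(.lf (nat_lit 141396) (.g (nat_lit 2752) (.e (nat_lit 32786) (nat_lit 9) (.e (nat_lit 65617) (nat_lit 10) (.e (nat_lit 344130) (nat_lit 26) (.e (nat_lit 557087) (nat_lit 11) (.e (nat_lit 24617) (nat_lit 7) (.e (nat_lit 319517) (nat_lit 12) .nil)))))) (.g (nat_lit 5) .nil .nil)))) (.nd (nat_lit 6) 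
(.lf (nat_lit 141364) (.g (nat_lit 1524) (.e (nat_lit 32774) (nat_lit 5) (.e (nat_lit 1668) (nat_lit 116) (.e (nat_lit 401454) (nat_lit 12) (.e (nat_lit 475183) (nat_lit 29) .nil)))) .nil)) 
(.lf (nat_lit 141428) (.g (nat_lit 1945) (.e (nat_lit 32786) (nat_lit 9) (.e (nat_lit 65630) (nat_lit 14) (.e (nat_lit 401428) (nat_lit 3) (.e (nat_lit 204862) (nat_lit 27) (.e (nat_lit 344076) (nat_lit 13) .nil))))) .nil))))) (.nd (nat_lit 4) (.nd (nat_lit 5) (.nd (nat_lit 6) 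
(.lf (nat_lit 141324) (.g (nat_lit 711) (.e (nat_lit 32512) (nat_lit 27) (.e (nat_lit 426290) (nat_lit 10) (.e (nat_lit 434241) (nat_lit 27) (.e (nat_lit 565268) (nat_lit 5) .nil)))) .nil)) 
(.lf (nat_lit 141388) (.g (nat_lit 1744) (.e (nat_lit 32783) (nat_lit 7) (.e (nat_lit 16448) (nat_lit 10) (.e (nat_lit 434231) (nat_lit 23) (.e (nat_lit 532563) (nat_lit 15) .nil)))) .nil))) (.nd (nat_lit 6) 
(.lf (nat_lit 141356) (.g (nat_lit 1731) (.e (nat_lit 32774) (nat_lit 5) (.e (nat_lit 1589) (nat_lit 111) (.e (nat_lit 360475) (nat_lit 8) (.e (nat_lit 557066) (nat_lit 9) (.e (nat_lit 232) (nat_lit 21) .nil))))) .nil)) 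
(.lf (nat_lit 141420) (.g (nat_lit 1864) (.e (nat_lit 32786) (nat_lit 9) (.e (nat_lit 65630) (nat_lit 14) (.e (nat_lit 401425) (nat_lit 2) (.e (nat_lit 196670) (nat_lit 14) .nil)))) .nil)))) (.nd (nat_lit 5) (.nd (nat_lit 6) 
(.lf (nat_lit 141340) (.g (nat_lit 417) (.e (nat_lit 32774) (nat_lit 5) (.e (nat_lit 1401) (nat_lit 106) (.e (nat_lit 319531) (nat_lit 16) .nil))) .nil)) 
(.lf (nat_lit 141404) (.g (nat_lit 2086) (.e (nat_lit 32786) (nat_lit 9) (.e (nat_lit 65630) (nat_lit 14) (.e (nat_lit 401423) (nat_lit 2) (.e (nat_lit 196668) (nat_lit 14) (.e (nat_lit 73789) (nat_lit 45) .nil))))) .nil))) (.nd (nat_lit 6) 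
(.lf (nat_lit 141372) (.g (nat_lit 2624) (.e (nat_lit 32774) (nat_lit 5) (.e (nat_lit 1669) (nat_lit 116) (.e (nat_lit 401454) (nat_lit 12) (.e (nat_lit 475185) (nat_lit 29) (.e (nat_lit 557105) (nat_lit 14) .nil))))) .nil)) 
(.lf (nat_lit 141436) (.g (nat_lit 2461) (.e (nat_lit 32787) (nat_lit 9) (.e (nat_lit 65569) (nat_lit 3) (.e (nat_lit 98342) (nat_lit 20) (.e (nat_lit 221210) (nat_lit 22) (.e (nat_lit 196660) (nat_lit 12) (.e (nat_lit 57507) (nat_lit 39) (.e (nat_lit 647203) (nat_lit 14) (.e (nat_lit 1139) (nat_lit 84) .nil)))))))) (.g (nat_lit 4) .nil .nil)))))))) 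
(.nd (nat_lit 2) (.nd (nat_lit 3) (.nd (nat_lit 4) (.nd (nat_lit 5) (.nd (nat_lit 6) 
(.lf (nat_lit 141314) (.g (nat_lit 1474) (.e (nat_lit 24679) (nat_lit 27) (.e (nat_lit 433920) (nat_lit 30) (.e (nat_lit 360473) (nat_lit 8) (.e (nat_lit 557093) (nat_lit 12) (.e (nat_lit 164009) (nat_lit 41) (.e (nat_lit 663583) (nat_lit 11) .nil)))))) (.g (nat_lit 4) .nil .nil))) 
(.lf (nat_lit 141378) (.g (nat_lit 3337) (.e (nat_lit 32780) (nat_lit 5) (.e (nat_lit 1281) (nat_lit 94) (.e (nat_lit 114719) (nat_lit 23) (.e (nat_lit 98365) (nat_lit 26) (.e (nat_lit 426116) (nat_lit 2) (.e (nat_lit 196649) (nat_lit 10) (.e (nat_lit 8491) (nat_lit 180) (.e (nat_lit 2567) (nat_lit 160) .nil)))))))) (.g (nat_lit 8) .nil .nil)))) (.nd (nat_lit 6) 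
(.lf (nat_lit 141346) (.g (nat_lit 1544) (.e (nat_lit 32774) (nat_lit 5) (.e (nat_lit 1548) (nat_lit 109) (.e (nat_lit 344133) (nat_lit 26) (.e (nat_lit 557103) (nat_lit 14) (.e (nat_lit 188160) (nat_lit 3) (.e (nat_lit 516106) (nat_lit 0) (.e (nat_lit 7936) (nat_lit 222) (.e (nat_lit 737293) (nat_lit 2) .nil)))))))) (.g (nat_lit 4) .nil .nil))) 
(.lf (nat_lit 141410) (.g (nat_lit 2774) (.e (nat_lit 32786) (nat_lit 9) (.e (nat_lit 65630) (nat_lit 14) (.e (nat_lit 401425) (nat_lit 2) (.e (nat_lit 196666) (nat_lit 13) (.e (nat_lit 65582) (nat_lit 7) .nil))))) .nil)))) (.nd (nat_lit 5) (.nd (nat_lit 6) 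
(.lf (nat_lit 141330) (.g (nat_lit 150) (.e (nat_lit 32512) (nat_lit 29) (.e (nat_lit 442396) (nat_lit 20) (.e (nat_lit 3281) (nat_lit 200) (.e (nat_lit 564992) (nat_lit 5) .nil)))) .nil)) 
(.lf (nat_lit 141394) (.g (nat_lit 2402) (.e (nat_lit 32786) (nat_lit 9) (.e (nat_lit 65610) (nat_lit 10) (.e (nat_lit 344117) (nat_lit 21) (.e (nat_lit 516139) (nat_lit 7) .nil)))) .nil))) (.nd (nat_lit 6) 
(.lf (nat_lit 141362) (.g (nat_lit 1938) (.e (nat_lit 32774) (nat_lit 5) (.e (nat_lit 1592) (nat_lit 111) (.e (nat_lit 360471) (nat_lit 7) (.e (nat_lit 548889) (nat_lit 9) (.e (nat_lit 65583) (nat_lit 7) .nil))))) .nil)) 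
(.lf (nat_lit 141426) (.g (nat_lit 2114) (.e (nat_lit 32786) (nat_lit 9) (.e (nat_lit 65630) (nat_lit 14) (.e (nat_lit 401428) (nat_lit 3) (.e (nat_lit 204855) (nat_lit 26) (.e (nat_lit 336061) (nat_lit 7) .nil))))) .nil))))) (.nd (nat_lit 4) (.nd (nat_lit 5) (.nd (nat_lit 6) 
(.lf (nat_lit 141322) (.g (nat_lit 435) (.e (nat_lit 32512) (nat_lit 27) (.e (nat_lit 426289) (nat_lit 10) (.e (nat_lit 434229) (nat_lit 22) (.e (nat_lit 524339) (nat_lit 27) (.e (nat_lit 352000) (nat_lit 2) .nil))))) .nil)) 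
(.lf (nat_lit 141386) (.g (nat_lit 1377) (.e (nat_lit 32783) (nat_lit 7) (.e (nat_lit 16438) (nat_lit 9) (.e (nat_lit 426537) (nat_lit 28) (.e (nat_lit 344174) (nat_lit 42) (.e (nat_lit 761898) (nat_lit 15) (.e (nat_lit 164210) (nat_lit 176) (.e (nat_lit 2570) (nat_lit 160) .nil))))))) (.g (nat_lit 4) .nil .nil)))) (.nd (nat_lit 6) 
(.lf (nat_lit 141354) (.g (nat_lit 1922) (.e (nat_lit 32774) (nat_lit 5) (.e (nat_lit 1589) (nat_lit 111) (.e (nat_lit 360467) (nat_lit 3) (.e (nat_lit 516184) (nat_lit 16) (.e (nat_lit 491544) (nat_lit 7) .nil))))) .nil)) 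
(.lf (nat_lit 141418) (.g (nat_lit 2353) (.e (nat_lit 32786) (nat_lit 9) (.e (nat_lit 65630) (nat_lit 14) (.e (nat_lit 401425) (nat_lit 2) (.e (nat_lit 196669) (nat_lit 14) .nil)))) .nil)))) (.nd (nat_lit 5) (.nd (nat_lit 6) 
(.lf (nat_lit 141338) (.g (nat_lit 1603) (.e (nat_lit 32768) (nat_lit 0) (.e (nat_lit 1349) (nat_lit 102) (.e (nat_lit 286759) (nat_lit 12) (.e (nat_lit 385074) (nat_lit 31) .nil)))) .nil)) 
(.lf (nat_lit 141402) (.g (nat_lit 2116) (.e (nat_lit 32786) (nat_lit 9) (.e (nat_lit 65624) (nat_lit 12) (.e (nat_lit 385074) (nat_lit 31) (.e (nat_lit 573489) (nat_lit 14) .nil)))) .nil))) (.nd (nat_lit 6) 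
(.lf (nat_lit 141370) (.g (nat_lit 2262) (.e (nat_lit 32774) (nat_lit 5) (.e (nat_lit 1669) (nat_lit 116) (.e (nat_lit 401454) (nat_lit 12) (.e (nat_lit 475179) (nat_lit 24) .nil)))) .nil)) 
(.lf (nat_lit 141434) (.g (nat_lit 2223) (.e (nat_lit 32787) (nat_lit 9) (.e (nat_lit 65569) (nat_lit 3) (.e (nat_lit 98341) (nat_lit 20) (.e (nat_lit 221210) (nat_lit 22) (.e (nat_lit 196658) (nat_lit 12) (.e (nat_lit 57508) (nat_lit 39) (.e (nat_lit 647203) (nat_lit 14) (.e (nat_lit 1139) (nat_lit 84) .nil)))))))) (.g (nat_lit 4) .nil .nil))))))) 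
(.nd (nat_lit 3) (.nd (nat_lit 4) (.nd (nat_lit 5) (.nd (nat_lit 6) 
(.lf (nat_lit 141318) (.g (nat_lit 2314) (.e (nat_lit 24679) (nat_lit 27) (.e (nat_lit 433920) (nat_lit 30) (.e (nat_lit 360475) (nat_lit 8) (.e (nat_lit 557089) (nat_lit 12) (.e (nat_lit 164010) (nat_lit 41) (.e (nat_lit 663583) (nat_lit 11) .nil)))))) (.g (nat_lit 4) .nil .nil))) 
(.lf (nat_lit 141382) (.g (nat_lit 608) (.e (nat_lit 32783) (nat_lit 7) (.e (nat_lit 16435) (nat_lit 9) (.e (nat_lit 426562) (nat_lit 33) .nil))) .nil))) (.nd (nat_lit 6) 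
(.lf (nat_lit 141350) (.g (nat_lit 1862) (.e (nat_lit 32774) (nat_lit 5) (.e (nat_lit 1586) (nat_lit 111) (.e (nat_lit 360475) (nat_lit 8) (.e (nat_lit 557086) (nat_lit 11) .nil)))) .nil)) 
(.lf (nat_lit 141414) (.g (nat_lit 2222) (.e (nat_lit 32786) (nat_lit 9) (.e (nat_lit 65630) (nat_lit 14) (.e (nat_lit 401425) (nat_lit 2) (.e (nat_lit 196667) (nat_lit 14) .nil)))) .nil)))) (.nd (nat_lit 5) (.nd (nat_lit 6) 
(.lf (nat_lit 141334) (.g (nat_lit 333) (.e (nat_lit 32512) (nat_lit 29) (.e (nat_lit 442408) (nat_lit 20) (.e (nat_lit 3289) (nat_lit 201) (.e (nat_lit 565268) (nat_lit 5) (.e (nat_lit 81664) (nat_lit 34) .nil))))) .nil)) 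
(.lf (nat_lit 141398) (.g (nat_lit 2964) (.e (nat_lit 32786) (nat_lit 9) (.e (nat_lit 65619) (nat_lit 10) (.e (nat_lit 344129) (nat_lit 26) (.e (nat_lit 557087) (nat_lit 11) (.e (nat_lit 24617) (nat_lit 7) (.e (nat_lit 319517) (nat_lit 12) .nil)))))) (.g (nat_lit 6) .nil .nil)))) (.nd (nat_lit 6) 
(.lf (nat_lit 141366) (.g (nat_lit 2022) (.e (nat_lit 32774) (nat_lit 5) (.e (nat_lit 1669) (nat_lit 116) (.e (nat_lit 401434) (nat_lit 9) (.e (nat_lit 426140) (nat_lit 3) (.e (nat_lit 204846) (nat_lit 24) .nil))))) .nil)) 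
(.lf (nat_lit 141430) (.g (nat_lit 2613) (.e (nat_lit 32786) (nat_lit 9) (.e (nat_lit 65630) (nat_lit 14) (.e (nat_lit 401428) (nat_lit 3) (.e (nat_lit 204863) (nat_lit 27) (.e (nat_lit 344079) (nat_lit 13) .nil))))) .nil))))) (.nd (nat_lit 4) (.nd (nat_lit 5) (.nd (nat_lit 6) 
(.lf (nat_lit 141326) (.g (nat_lit 1226) (.e (nat_lit 32512) (nat_lit 27) (.e (nat_lit 426545) (nat_lit 30) (.e (nat_lit 360475) (nat_lit 8) (.e (nat_lit 557091) (nat_lit 12) .nil)))) .nil)) 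
(.lf (nat_lit 141390) (.g (nat_lit 959) (.e (nat_lit 32783) (nat_lit 7) (.e (nat_lit 16468) (nat_lit 13) (.e (nat_lit 483333) (nat_lit 0) (.e (nat_lit 7106) (nat_lit 380) (.e (nat_lit 164269) (nat_lit 221) (.e (nat_lit 2567) (nat_lit 160) .nil)))))) (.g (nat_lit 6) .nil .nil)))) (.nd (nat_lit 6) 
(.lf (nat_lit 141358) (.g (nat_lit 2511) (.e (nat_lit 32774) (nat_lit 5) (.e (nat_lit 1589) (nat_lit 111) (.e (nat_lit 360475) (nat_lit 8) (.e (nat_lit 557068) (nat_lit 9) (.e (nat_lit 251) (nat_lit 21) .nil))))) .nil)) 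
(.lf (nat_lit 141422) (.g (nat_lit 3242) (.e (nat_lit 32786) (nat_lit 9) (.e (nat_lit 65630) (nat_lit 14) (.e (nat_lit 401425) (nat_lit 2) (.e (nat_lit 196670) (nat_lit 14) (.e (nat_lit 73792) (nat_lit 45) (.e (nat_lit 1140) (nat_lit 84) .nil)))))) (.g (nat_lit 6) .nil .nil))))) (.nd (nat_lit 5) (.nd (nat_lit 6) 
(.lf (nat_lit 141342) (.g (nat_lit 2462) (.e (nat_lit 32774) (nat_lit 5) (.e (nat_lit 1401) (nat_lit 106) (.e (nat_lit 319531) (nat_lit 16) (.e (nat_lit 286733) (nat_lit 2) (.e (nat_lit 90173) (nat_lit 14) .nil))))) .nil)) 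
(.lf (nat_lit 141406) (.g (nat_lit 2419) (.e (nat_lit 32786) (nat_lit 9) (.e (nat_lit 65630) (nat_lit 14) (.e (nat_lit 401424) (nat_lit 2) (.e (nat_lit 196670) (nat_lit 14) (.e (nat_lit 73792) (nat_lit 45) .nil))))) .nil))) (.nd (nat_lit 6) 
(.lf (nat_lit 141374) (.g (nat_lit 1724) (.e (nat_lit 32774) (nat_lit 5) (.e (nat_lit 1669) (nat_lit 116) (.e (nat_lit 401459) (nat_lit 13) (.e (nat_lit 483337) (nat_lit 9) .nil)))) .nil)) 
(.lf (nat_lit 141438) (.g (nat_lit 1558) (.e (nat_lit 32787) (nat_lit 9) (.e (nat_lit 65569) (nat_lit 3) (.e (nat_lit 98342) (nat_lit 20) (.e (nat_lit 221212) (nat_lit 22) (.e (nat_lit 196658) (nat_lit 12) .nil))))) .nil)))))))) (.nd (nat_lit 1) (.nd (nat_lit 2) (.nd (nat_lit 3) (.nd (nat_lit 4) (.nd (nat_lit 5) (.nd (nat_lit 6) 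
(.lf (nat_lit 141313) (.g (nat_lit 1776) (.e (nat_lit 24679) (nat_lit 27) (.e (nat_lit 433920) (nat_lit 30) (.e (nat_lit 360473) (nat_lit 8) (.e (nat_lit 557091) (nat_lit 12) (.e (nat_lit 164008) (nat_lit 41) (.e (nat_lit 663583) (nat_lit 11) .nil)))))) (.g (nat_lit 4) .nil .nil))) 
(.lf (nat_lit 141377) (.g (nat_lit 1446) (.e (nat_lit 32780) (nat_lit 5) (.e (nat_lit 1181) (nat_lit 87) (.e (nat_lit 57847) (nat_lit 252) (.e (nat_lit 57432) (nat_lit 16) .nil)))) .nil))) (.nd (nat_lit 6) 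
(.lf (nat_lit 141345) (.g (nat_lit 2265) (.e (nat_lit 32774) (nat_lit 5) (.e (nat_lit 1401) (nat_lit 106) (.e (nat_lit 319531) (nat_lit 16) (.e (nat_lit 286735) (nat_lit 3) (.e (nat_lit 98363) (nat_lit 26) (.e (nat_lit 425987) (nat_lit 0) (.e (nat_lit 7064) (nat_lit 377) (.e (nat_lit 1139) (nat_lit 84) .nil)))))))) (.g (nat_lit 5) .nil .nil))) 
(.lf (nat_lit 141409) (.g (nat_lit 2088) (.e (nat_lit 32786) (nat_lit 9) (.e (nat_lit 65630) (nat_lit 14) (.e (nat_lit 401425) (nat_lit 2) (.e (nat_lit 196666) (nat_lit 13) (.e (nat_lit 65581) (nat_lit 7) (.e (nat_lit 319519) (nat_lit 12) .nil)))))) (.g (nat_lit 4) .nil .nil))))) (.nd (nat_lit 5) (.nd (nat_lit 6) 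
(.lf (nat_lit 141329) (.g (nat_lit 182) (.e (nat_lit 32512) (nat_lit 29) (.e (nat_lit 442395) (nat_lit 20) (.e (nat_lit 3282) (nat_lit 200) (.e (nat_lit 564992) (nat_lit 5) .nil)))) .nil)) 
(.lf (nat_lit 141393) (.g (nat_lit 1482) (.e (nat_lit 32786) (nat_lit 9) (.e (nat_lit 65604) (nat_lit 9) (.e (nat_lit 336013) (nat_lit 2) (.e (nat_lit 90165) (nat_lit 12) .nil)))) .nil))) (.nd (nat_lit 6) 
(.lf (nat_lit 141361) (.g (nat_lit 2789) (.e (nat_lit 32774) (nat_lit 5) (.e (nat_lit 1589) (nat_lit 111) (.e (nat_lit 360475) (nat_lit 8) (.e (nat_lit 557086) (nat_lit 11) (.e (nat_lit 24616) (nat_lit 7) .nil))))) .nil)) 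
(.lf (nat_lit 141425) (.g (nat_lit 578) (.e (nat_lit 32786) (nat_lit 9) (.e (nat_lit 65630) (nat_lit 14) (.e (nat_lit 401428) (nat_lit 3) .nil))) .nil))))) (.nd (nat_lit 4) (.nd (nat_lit 5) (.nd (nat_lit 6) 
(.lf (nat_lit 141321) (.g (nat_lit 926) (.e (nat_lit 32512) (nat_lit 27) (.e (nat_lit 426285) (nat_lit 10) (.e (nat_lit 434229) (nat_lit 22) (.e (nat_lit 524339) (nat_lit 27) (.e (nat_lit 352000) (nat_lit 2) .nil))))) .nil)) 
(.lf (nat_lit 141385) (.g (nat_lit 1301) (.e (nat_lit 32783) (nat_lit 7) (.e (nat_lit 16438) (nat_lit 9) (.e (nat_lit 426537) (nat_lit 28) (.e (nat_lit 344174) (nat_lit 42) (.e (nat_lit 761898) (nat_lit 15) .nil))))) .nil))) (.nd (nat_lit 6) 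
(.lf (nat_lit 141353) (.g (nat_lit 453) (.e (nat_lit 32774) (nat_lit 5) (.e (nat_lit 1589) (nat_lit 111) (.e (nat_lit 360467) (nat_lit 3) .nil))) .nil)) 
(.lf (nat_lit 141417) (.g (nat_lit 2899) (.e (nat_lit 32786) (nat_lit 9) (.e (nat_lit 65630) (nat_lit 14) (.e (nat_lit 401425) (nat_lit 2) (.e (nat_lit 196668) (nat_lit 14) (.e (nat_lit 73789) (nat_lit 45) (.e (nat_lit 1140) (nat_lit 84) .nil)))))) (.g (nat_lit 4) .nil .nil))))) (.nd (nat_lit 5) (.nd (nat_lit 6) 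
(.lf (nat_lit 141337) (.g (nat_lit 349) (.e (nat_lit 32512) (nat_lit 29) (.e (nat_lit 442424) (nat_lit 22) (.e (nat_lit 204544) (nat_lit 0) (.e (nat_lit 297) (nat_lit 22) (.e (nat_lit 352000) (nat_lit 2) .nil))))) .nil)) 
(.lf (nat_lit 141401) (.g (nat_lit 1977) (.e (nat_lit 32786) (nat_lit 9) (.e (nat_lit 65624) (nat_lit 12) (.e (nat_lit 385074) (nat_lit 31) (.e (nat_lit 573487) (nat_lit 14) .nil)))) .nil))) (.nd (nat_lit 6) 
(.lf (nat_lit 141369) (.g (nat_lit 2542) (.e (nat_lit 32774) (nat_lit 5) (.e (nat_lit 1669) (nat_lit 116) (.e (nat_lit 401454) (nat_lit 12) (.e (nat_lit 475178) (nat_lit 24) .nil)))) .nil)) 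
(.lf (nat_lit 141433) (.g (nat_lit 2209) (.e (nat_lit 32786) (nat_lit 9) (.e (nat_lit 65630) (nat_lit 14) (.e (nat_lit 401428) (nat_lit 3) (.e (nat_lit 204863) (nat_lit 27) (.e (nat_lit 344081) (nat_lit 13) (.e (nat_lit 1140) (nat_lit 84) .nil)))))) (.g (nat_lit 4) .nil .nil))))))) (.nd (nat_lit 3) (.nd (nat_lit 4) (.nd (nat_lit 5) (.nd (nat_lit 6) 
(.lf (nat_lit 141317) (.g (nat_lit 2658) (.e (nat_lit 24679) (nat_lit 27) (.e (nat_lit 433920) (nat_lit 30) (.e (nat_lit 360474) (nat_lit 8) (.e (nat_lit 557091) (nat_lit 12) (.e (nat_lit 164007) (nat_lit 41) (.e (nat_lit 663583) (nat_lit 11) .nil)))))) (.g (nat_lit 4) .nil .nil))) 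
(.lf (nat_lit 141381) (.g (nat_lit 35) (.e (nat_lit 32782) (nat_lit 6) (.e (nat_lit 8277) (nat_lit 47) (.e (nat_lit 794633) (nat_lit 11) .nil))) .nil))) (.nd (nat_lit 6) 
(.lf (nat_lit 141349) (.g (nat_lit 1514) (.e (nat_lit 32774) (nat_lit 5) (.e (nat_lit 1586) (nat_lit 111) (.e (nat_lit 360475) (nat_lit 8) (.e (nat_lit 557068) (nat_lit 9) .nil)))) .nil)) 
(.lf (nat_lit 141413) (.g (nat_lit 2337) (.e (nat_lit 32786) (nat_lit 9) (.e (nat_lit 65630) (nat_lit 14) (.e (nat_lit 401425) (nat_lit 2) (.e (nat_lit 196666) (nat_lit 13) (.e (nat_lit 65586) (nat_lit 7) (.e (nat_lit 319518) (nat_lit 12) .nil)))))) (.g (nat_lit 5) .nil .nil))))) (.nd (nat_lit 5) (.nd (nat_lit 6) 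
(.lf (nat_lit 141333) (.g (nat_lit 234) (.e (nat_lit 32512) (nat_lit 29) (.e (nat_lit 442399) (nat_lit 20) (.e (nat_lit 3282) (nat_lit 200) (.e (nat_lit 564992) (nat_lit 5) .nil)))) .nil)) 
(.lf (nat_lit 141397) (.g (nat_lit 2745) (.e (nat_lit 32786) (nat_lit 9) (.e (nat_lit 65617) (nat_lit 10) (.e (nat_lit 344130) (nat_lit 26) (.e (nat_lit 557087) (nat_lit 11) (.e (nat_lit 24617) (nat_lit 7) (.e (nat_lit 319518) (nat_lit 12) .nil)))))) (.g (nat_lit 5) .nil .nil)))) (.nd (nat_lit 6) 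
(.lf (nat_lit 141365) (.g (nat_lit 3064) (.e (nat_lit 32774) (nat_lit 5) (.e (nat_lit 1668) (nat_lit 116) (.e (nat_lit 401454) (nat_lit 12) (.e (nat_lit 475185) (nat_lit 29) (.e (nat_lit 557103) (nat_lit 14) (.e (nat_lit 188160) (nat_lit 45) (.e (nat_lit 1139) (nat_lit 84) .nil))))))) (.g (nat_lit 5) .nil .nil))) 
(.lf (nat_lit 141429) (.g (nat_lit 3094) (.e (nat_lit 32786) (nat_lit 9) (.e (nat_lit 65630) (nat_lit 14) (.e (nat_lit 401428) (nat_lit 3) (.e (nat_lit 204863) (nat_lit 27) (.e (nat_lit 344074) (nat_lit 13) .nil))))) .nil))))) (.nd (nat_lit 4) (.nd (nat_lit 5) (.nd (nat_lit 6) 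
(.lf (nat_lit 141325) (.g (nat_lit 284) (.e (nat_lit 32512) (nat_lit 27) (.e (nat_lit 426544) (nat_lit 30) (.e (nat_lit 360473) (nat_lit 8) .nil))) .nil)) 
(.lf (nat_lit 141389) (.g (nat_lit 1104) (.e (nat_lit 32783) (nat_lit 7) (.e (nat_lit 16468) (nat_lit 13) (.e (nat_lit 483333) (nat_lit 0) (.e (nat_lit 7098) (nat_lit 380) (.e (nat_lit 164269) (nat_lit 221) (.e (nat_lit 2567) (nat_lit 160) .nil)))))) (.g (nat_lit 0) .nil .nil)))) (.nd (nat_lit 6) 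
(.lf (nat_lit 141357) (.g (nat_lit 2013) (.e (nat_lit 32774) (nat_lit 5) (.e (nat_lit 1589) (nat_lit 111) (.e (nat_lit 360475) (nat_lit 8) (.e (nat_lit 557067) (nat_lit 9) .nil)))) .nil)) 
(.lf (nat_lit 141421) (.g (nat_lit 2510) (.e (nat_lit 32786) (nat_lit 9) (.e (nat_lit 65630) (nat_lit 14) (.e (nat_lit 401425) (nat_lit 2) (.e (nat_lit 196670) (nat_lit 14) (.e (nat_lit 73791) (nat_lit 45) .nil))))) .nil)))) (.nd (nat_lit 5) (.nd (nat_lit 6) 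
(.lf (nat_lit 141341) (.g (nat_lit 1291) (.e (nat_lit 32774) (nat_lit 5) (.e (nat_lit 1401) (nat_lit 106) (.e (nat_lit 319531) (nat_lit 16) (.e (nat_lit 286733) (nat_lit 2) .nil)))) .nil)) 
(.lf (nat_lit 141405) (.g (nat_lit 1655) (.e (nat_lit 32786) (nat_lit 9) (.e (nat_lit 65630) (nat_lit 14) (.e (nat_lit 401424) (nat_lit 2) (.e (nat_lit 196668) (nat_lit 14) .nil)))) .nil))) (.nd (nat_lit 6) 
(.lf (nat_lit 141373) (.g (nat_lit 1431) (.e (nat_lit 32774) (nat_lit 5) (.e (nat_lit 1669) (nat_lit 116) (.e (nat_lit 401457) (nat_lit 13) (.e (nat_lit 491264) (nat_lit 15) .nil)))) .nil)) 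
(.lf (nat_lit 141437) (.g (nat_lit 1203) (.e (nat_lit 32787) (nat_lit 9) (.e (nat_lit 65569) (nat_lit 3) (.e (nat_lit 98342) (nat_lit 20) (.e (nat_lit 221211) (nat_lit 22) .nil)))) .nil))))))) (.nd (nat_lit 2) (.nd (nat_lit 3) (.nd (nat_lit 4) (.nd (nat_lit 5) (.nd (nat_lit 6) 
(.lf (nat_lit 141315) (.g (nat_lit 1209) (.e (nat_lit 24679) (nat_lit 27) (.e (nat_lit 433920) (nat_lit 30) (.e (nat_lit 360473) (nat_lit 8) (.e (nat_lit 557093) (nat_lit 12) (.e (nat_lit 164010) (nat_lit 41) (.e (nat_lit 663583) (nat_lit 11) .nil)))))) (.g (nat_lit 4) .nil .nil))) 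
(.lf (nat_lit 141379) (.g (nat_lit 2072) (.e (nat_lit 32780) (nat_lit 5) (.e (nat_lit 1399) (nat_lit 106) (.e (nat_lit 319490) (nat_lit 0) (.e (nat_lit 5756) (nat_lit 315) (.e (nat_lit 163962) (nat_lit 25) .nil))))) .nil))) (.nd (nat_lit 6) 
(.lf (nat_lit 141347) (.g (nat_lit 2619) (.e (nat_lit 32774) (nat_lit 5) (.e (nat_lit 1580) (nat_lit 111) (.e (nat_lit 360475) (nat_lit 8) (.e (nat_lit 557087) (nat_lit 11) (.e (nat_lit 24617) (nat_lit 7) .nil))))) .nil)) 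
(.lf (nat_lit 141411) (.g (nat_lit 2379) (.e (nat_lit 32786) (nat_lit 9) (.e (nat_lit 65630) (nat_lit 14) (.e (nat_lit 401425) (nat_lit 2) (.e (nat_lit 196666) (nat_lit 13) (.e (nat_lit 65584) (nat_lit 7) .nil))))) .nil)))) (.nd (nat_lit 5) (.nd (nat_lit 6) 
(.lf (nat_lit 141331) (.g (nat_lit 137) (.e (nat_lit 32512) (nat_lit 29) (.e (nat_lit 442396) (nat_lit 20) (.e (nat_lit 3282) (nat_lit 200) (.e (nat_lit 564992) (nat_lit 5) .nil)))) .nil)) 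
(.lf (nat_lit 141395) (.g (nat_lit 3015) (.e (nat_lit 32786) (nat_lit 9) (.e (nat_lit 65610) (nat_lit 10) (.e (nat_lit 344129) (nat_lit 26) (.e (nat_lit 557087) (nat_lit 11) (.e (nat_lit 24617) (nat_lit 7) (.e (nat_lit 319517) (nat_lit 12) .nil)))))) (.g (nat_lit 6) .nil .nil)))) (.nd (nat_lit 6) 
(.lf (nat_lit 141363) (.g (nat_lit 2485) (.e (nat_lit 32774) (nat_lit 5) (.e (nat_lit 1595) (nat_lit 111) (.e (nat_lit 360471) (nat_lit 7) (.e (nat_lit 548889) (nat_lit 9) (.e (nat_lit 65585) (nat_lit 7) .nil))))) .nil)) 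
(.lf (nat_lit 141427) (.g (nat_lit 1215) (.e (nat_lit 32786) (nat_lit 9) (.e (nat_lit 65630) (nat_lit 14) (.e (nat_lit 401428) (nat_lit 3) (.e (nat_lit 204862) (nat_lit 27) .nil)))) .nil))))) (.nd (nat_lit 4) (.nd (nat_lit 5) (.nd (nat_lit 6) 
(.lf (nat_lit 141323) (.g (nat_lit 851) (.e (nat_lit 32512) (nat_lit 27) (.e (nat_lit 426290) (nat_lit 10) (.e (nat_lit 434229) (nat_lit 22) (.e (nat_lit 524339) (nat_lit 27) (.e (nat_lit 352000) (nat_lit 2) .nil))))) .nil)) 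
(.lf (nat_lit 141387) (.g (nat_lit 811) (.e (nat_lit 32783) (nat_lit 7) (.e (nat_lit 16438) (nat_lit 9) (.e (nat_lit 426562) (nat_lit 33) (.e (nat_lit 385041) (nat_lit 19) .nil)))) .nil))) (.nd (nat_lit 6) 
(.lf (nat_lit 141355) (.g (nat_lit 1020) (.e (nat_lit 32774) (nat_lit 5) (.e (nat_lit 1589) (nat_lit 111) (.e (nat_lit 360473) (nat_lit 8) (.e (nat_lit 557068) (nat_lit 9) .nil)))) .nil)) 
(.lf (nat_lit 141419) (.g (nat_lit 2798) (.e (nat_lit 32786) (nat_lit 9) (.e (nat_lit 65630) (nat_lit 14) (.e (nat_lit 401425) (nat_lit 2) (.e (nat_lit 196669) (nat_lit 14) (.e (nat_lit 73788) (nat_lit 45) .nil))))) .nil)))) (.nd (nat_lit 5) (.nd (nat_lit 6) 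
(.lf (nat_lit 141339) (.g (nat_lit 1585) (.e (nat_lit 32774) (nat_lit 5) (.e (nat_lit 1395) (nat_lit 106) (.e (nat_lit 319530) (nat_lit 16) (.e (nat_lit 286735) (nat_lit 3) (.e (nat_lit 98365) (nat_lit 26) .nil))))) .nil)) 
(.lf (nat_lit 141403) (.g (nat_lit 987) (.e (nat_lit 32786) (nat_lit 9) (.e (nat_lit 65627) (nat_lit 13) (.e (nat_lit 401152) (nat_lit 15) (.e (nat_lit 385115) (nat_lit 53) (.e (nat_lit 811021) (nat_lit 2) .nil))))) (.g (nat_lit 4) .nil .nil)))) (.nd (nat_lit 6) 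
(.lf (nat_lit 141371) (.g (nat_lit 3714) (.e (nat_lit 32774) (nat_lit 5) (.e (nat_lit 1669) (nat_lit 116) (.e (nat_lit 401454) (nat_lit 12) (.e (nat_lit 475179) (nat_lit 24) (.e (nat_lit 516097) (nat_lit 0) .nil))))) .nil)) 
(.lf (nat_lit 141435) (.g (nat_lit 2260) (.e (nat_lit 32787) (nat_lit 9) (.e (nat_lit 65569) (nat_lit 3) (.e (nat_lit 98342) (nat_lit 20) (.e (nat_lit 221210) (nat_lit 22) (.e (nat_lit 196658) (nat_lit 12) .nil))))) .nil)))))) (.nd (nat_lit 3) (.nd (nat_lit 4) (.nd (nat_lit 5) (.nd (nat_lit 6) 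
(.lf (nat_lit 141319) (.g (nat_lit 2373) (.e (nat_lit 24679) (nat_lit 27) (.e (nat_lit 433920) (nat_lit 30) (.e (nat_lit 360475) (nat_lit 8) (.e (nat_lit 557090) (nat_lit 12) (.e (nat_lit 164004) (nat_lit 41) (.e (nat_lit 663583) (nat_lit 11) .nil)))))) (.g (nat_lit 4) .nil .nil))) 
(.lf (nat_lit 141383) (.g (nat_lit 1190) (.e (nat_lit 32783) (nat_lit 7) (.e (nat_lit 16436) (nat_lit 9) (.e (nat_lit 426131) (nat_lit 3) (.e (nat_lit 204880) (nat_lit 32) .nil)))) .nil))) (.nd (nat_lit 6) 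
(.lf (nat_lit 141351) (.g (nat_lit 3835) (.e (nat_lit 32774) (nat_lit 5) (.e (nat_lit 1586) (nat_lit 111) (.e (nat_lit 360475) (nat_lit 8) (.e (nat_lit 557087) (nat_lit 11) (.e (nat_lit 24617) (nat_lit 7) (.e (nat_lit 319517) (nat_lit 12) .nil)))))) (.g (nat_lit 6) .nil .nil))) 
(.lf (nat_lit 141415) (.g (nat_lit 1865) (.e (nat_lit 32786) (nat_lit 9) (.e (nat_lit 65630) (nat_lit 14) (.e (nat_lit 401425) (nat_lit 2) (.e (nat_lit 196668) (nat_lit 14) .nil)))) .nil)))) (.nd (nat_lit 5) (.nd (nat_lit 6) 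
(.lf (nat_lit 141335) (.g (nat_lit 417) (.e (nat_lit 32512) (nat_lit 29) (.e (nat_lit 442409) (nat_lit 20) (.e (nat_lit 3289) (nat_lit 201) (.e (nat_lit 565268) (nat_lit 5) (.e (nat_lit 81664) (nat_lit 34) .nil))))) .nil)) 
(.lf (nat_lit 141399) (.g (nat_lit 587) (.e (nat_lit 32786) (nat_lit 9) (.e (nat_lit 65624) (nat_lit 12) (.e (nat_lit 385074) (nat_lit 31) .nil))) .nil))) (.nd (nat_lit 6) 
(.lf (nat_lit 141367) (.g (nat_lit 1832) (.e (nat_lit 32774) (nat_lit 5) (.e (nat_lit 1669) (nat_lit 116) (.e (nat_lit 401437) (nat_lit 9) (.e (nat_lit 426566) (nat_lit 34) .nil)))) .nil)) 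
(.lf (nat_lit 141431) (.g (nat_lit 2086) (.e (nat_lit 32786) (nat_lit 9) (.e (nat_lit 65630) (nat_lit 14) (.e (nat_lit 401428) (nat_lit 3) (.e (nat_lit 204863) (nat_lit 27) (.e (nat_lit 344080) (nat_lit 13) .nil))))) .nil))))) (.nd (nat_lit 4) (.nd (nat_lit 5) (.nd (nat_lit 6) 
(.lf (nat_lit 141327) (.g (nat_lit 338) (.e (nat_lit 32512) (nat_lit 29) (.e (nat_lit 442395) (nat_lit 20) (.e (nat_lit 3279) (nat_lit 200) (.e (nat_lit 564992) (nat_lit 5) .nil)))) .nil)) 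
(.lf (nat_lit 141391) (.g (nat_lit 1179) (.e (nat_lit 32783) (nat_lit 7) (.e (nat_lit 16468) (nat_lit 13) (.e (nat_lit 483365) (nat_lit 18) (.e (nat_lit 57692) (nat_lit 156) .nil)))) .nil))) (.nd (nat_lit 6) 
(.lf (nat_lit 141359) (.g (nat_lit 2337) (.e (nat_lit 32774) (nat_lit 5) (.e (nat_lit 1589) (nat_lit 111) (.e (nat_lit 360475) (nat_lit 8) (.e (nat_lit 557068) (nat_lit 9) (.e (nat_lit 290) (nat_lit 21) .nil))))) .nil)) 
(.lf (nat_lit 141423) (.g (nat_lit 2433) (.e (nat_lit 32786) (nat_lit 9) (.e (nat_lit 65630) (nat_lit 14) (.e (nat_lit 401425) (nat_lit 2) (.e (nat_lit 204544) (nat_lit 14) .nil)))) .nil)))) (.nd (nat_lit 5) (.nd (nat_lit 6) 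
(.lf (nat_lit 141343) (.g (nat_lit 3432) (.e (nat_lit 32774) (nat_lit 5) (.e (nat_lit 1401) (nat_lit 106) (.e (nat_lit 319531) (nat_lit 16) (.e (nat_lit 286733) (nat_lit 2) (.e (nat_lit 90174) (nat_lit 14) (.e (nat_lit 188160) (nat_lit 45) (.e (nat_lit 1139) (nat_lit 84) .nil))))))) (.g (nat_lit 5) .nil .nil))) 
(.lf (nat_lit 141407) (.g (nat_lit 1851) (.e (nat_lit 32786) (nat_lit 9) (.e (nat_lit 65630) (nat_lit 14) (.e (nat_lit 401425) (nat_lit 2) (.e (nat_lit 196628) (nat_lit 9) .nil)))) .nil))) (.nd (nat_lit 6) 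
(.lf (nat_lit 141375) (.g (nat_lit 2327) (.e (nat_lit 32777) (nat_lit 5) (.e (nat_lit 1178) (nat_lit 87) (.e (nat_lit 57854) (nat_lit 252) (.e (nat_lit 57409) (nat_lit 12) (.e (nat_lit 336016) (nat_lit 2) .nil))))) .nil)) 
(.lf (nat_lit 141439) (.g (nat_lit 1600) (.e (nat_lit 32787) (nat_lit 9) (.e (nat_lit 65571) (nat_lit 3) (.e (nat_lit 98313) (nat_lit 9) (.e (nat_lit 336027) (nat_lit 3) .nil)))) .nil)))))))))

noncomputable def tv1877 : DT := (.nd (nat_lit 0) (.nd (nat_lit 1) (.nd (nat_lit 2) (.nd (nat_lit 3) (.nd (nat_lit 4) (.nd (nat_lit 5) 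
(.lf (nat_lit 141440) (.g (nat_lit 2674) (.e (nat_lit 32787) (nat_lit 9) (.e (nat_lit 65571) (nat_lit 3) (.e (nat_lit 98313) (nat_lit 9) (.e (nat_lit 336027) (nat_lit 3) (.e (nat_lit 98325) (nat_lit 17) (.e (nat_lit 7936) (nat_lit 222) (.e (nat_lit 737316) (nat_lit 13) .nil))))))) (.g (nat_lit 4) .nil .nil))) 
(.lf (nat_lit 141472) (.g (nat_lit 307) (.e (nat_lit 32787) (nat_lit 9) (.e (nat_lit 65598) (nat_lit 9) (.e (nat_lit 336013) (nat_lit 2) .nil))) .nil))) (.nd (nat_lit 5) 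
(.lf (nat_lit 141456) (.g (nat_lit 1639) (.e (nat_lit 32787) (nat_lit 9) (.e (nat_lit 65583) (nat_lit 7) (.e (nat_lit 319519) (nat_lit 12) (.e (nat_lit 32788) (nat_lit 10) (.e (nat_lit 73792) (nat_lit 45) (.e (nat_lit 1140) (nat_lit 84) .nil)))))) (.g (nat_lit 0) .nil .nil))) 
(.lf (nat_lit 141488) (.g (nat_lit 1537) (.e (nat_lit 32787) (nat_lit 9) (.e (nat_lit 65598) (nat_lit 9) (.e (nat_lit 336028) (nat_lit 3) (.e (nat_lit 98325) (nat_lit 17) (.e (nat_lit 7112) (nat_lit 381) .nil))))) .nil)))) (.nd (nat_lit 4) (.nd (nat_lit 5) 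
(.lf (nat_lit 141448) (.g (nat_lit 1483) (.e (nat_lit 32787) (nat_lit 9) (.e (nat_lit 65571) (nat_lit 3) (.e (nat_lit 98342) (nat_lit 20) (.e (nat_lit 221211) (nat_lit 22) .nil)))) .nil)) 
(.lf (nat_lit 141480) (.g (nat_lit 2460) (.e (nat_lit 32787) (nat_lit 9) (.e (nat_lit 65598) (nat_lit 9) (.e (nat_lit 336013) (nat_lit 2) (.e (nat_lit 90165) (nat_lit 12) (.e (nat_lit 171776) (nat_lit 190) .nil))))) .nil))) (.nd (nat_lit 5) 
(.lf (nat_lit 141464) (.g (nat_lit 998) (.e (nat_lit 32787) (nat_lit 9) (.e (nat_lit 65586) (nat_lit 7) (.e (nat_lit 319500) (nat_lit 10) (.e (nat_lit 562) (nat_lit 41) .nil)))) .nil)) 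
(.lf (nat_lit 141496) (.g (nat_lit 1685) (.e (nat_lit 32787) (nat_lit 9) (.e (nat_lit 65604) (nat_lit 9) (.e (nat_lit 336013) (nat_lit 2) (.e (nat_lit 90165) (nat_lit 12) (.e (nat_lit 164219) (nat_lit 180) .nil))))) .nil))))) (.nd (nat_lit 3) (.nd (nat_lit 4) (.nd (nat_lit 5) 
(.lf (nat_lit 141444) (.g (nat_lit 2439) (.e (nat_lit 32787) (nat_lit 9) (.e (nat_lit 65571) (nat_lit 3) (.e (nat_lit 98341) (nat_lit 20) (.e (nat_lit 221210) (nat_lit 22) (.e (nat_lit 196658) (nat_lit 12) .nil))))) .nil)) 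
(.lf (nat_lit 141476) (.g (nat_lit 2609) (.e (nat_lit 32787) (nat_lit 9) (.e (nat_lit 65598) (nat_lit 9) (.e (nat_lit 336013) (nat_lit 2) (.e (nat_lit 90165) (nat_lit 12) (.e (nat_lit 164210) (nat_lit 176) .nil))))) .nil))) (.nd (nat_lit 5) 
(.lf (nat_lit 141460) (.g (nat_lit 894) (.e (nat_lit 32787) (nat_lit 9) (.e (nat_lit 65584) (nat_lit 7) (.e (nat_lit 319519) (nat_lit 12) (.e (nat_lit 32774) (nat_lit 5) (.e (nat_lit 1543) (nat_lit 109) .nil))))) .nil)) 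
(.lf (nat_lit 141492) (.g (nat_lit 1761) (.e (nat_lit 32787) (nat_lit 9) (.e (nat_lit 65604) (nat_lit 9) (.e (nat_lit 336013) (nat_lit 2) (.e (nat_lit 90165) (nat_lit 12) (.e (nat_lit 164208) (nat_lit 176) .nil))))) .nil)))) (.nd (nat_lit 4) (.nd (nat_lit 5) 
(.lf (nat_lit 141452) (.g (nat_lit 659) (.e (nat_lit 32787) (nat_lit 9) (.e (nat_lit 65583) (nat_lit 7) (.e (nat_lit 319518) (nat_lit 12) (.e (nat_lit 32788) (nat_lit 10) .nil)))) .nil)) 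
(.lf (nat_lit 141484) (.g (nat_lit 590) (.e (nat_lit 32787) (nat_lit 9) (.e (nat_lit 65598) (nat_lit 9) (.e (nat_lit 336013) (nat_lit 2) (.e (nat_lit 98048) (nat_lit 20) .nil)))) .nil))) (.nd (nat_lit 5) 
(.lf (nat_lit 141468) (.g (nat_lit 2117) (.e (nat_lit 32787) (nat_lit 9) (.e (nat_lit 65586) (nat_lit 7) (.e (nat_lit 319519) (nat_lit 12) (.e (nat_lit 32787) (nat_lit 9) (.e (nat_lit 65584) (nat_lit 7) (.e (nat_lit 319519) (nat_lit 12) .nil)))))) (.g (nat_lit 0) .nil .nil))) 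
(.lf (nat_lit 141500) (.g (nat_lit 1200) (.e (nat_lit 32787) (nat_lit 9) (.e (nat_lit 65604) (nat_lit 9) (.e (nat_lit 336028) (nat_lit 3) (.e (nat_lit 98325) (nat_lit 17) .nil)))) .nil)))))) (.nd (nat_lit 2) (.nd (nat_lit 3) (.nd (nat_lit 4) (.nd (nat_lit 5) 
(.lf (nat_lit 141442) (.g (nat_lit 960) (.e (nat_lit 32787) (nat_lit 9) (.e (nat_lit 65571) (nat_lit 3) (.e (nat_lit 98341) (nat_lit 20) .nil))) .nil)) 
(.lf (nat_lit 141474) (.g (nat_lit 2496) (.e (nat_lit 32787) (nat_lit 9) (.e (nat_lit 65598) (nat_lit 9) (.e (nat_lit 336013) (nat_lit 2) (.e (nat_lit 90133) (nat_lit 9) (.e (nat_lit 2400) (nat_lit 157) .nil))))) .nil))) (.nd (nat_lit 5) 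
(.lf (nat_lit 141458) (.g (nat_lit 204) (.e (nat_lit 32787) (nat_lit 9) (.e (nat_lit 65584) (nat_lit 7) (.e (nat_lit 319518) (nat_lit 12) .nil))) .nil)) 
(.lf (nat_lit 141490) (.g (nat_lit 2208) (.e (nat_lit 32787) (nat_lit 9) (.e (nat_lit 65598) (nat_lit 9) (.e (nat_lit 336028) (nat_lit 3) (.e (nat_lit 98349) (nat_lit 24) (.e (nat_lit 409639) (nat_lit 15) .nil))))) .nil)))) (.nd (nat_lit 4) (.nd (nat_lit 5) 
(.lf (nat_lit 141450) (.g (nat_lit 3975) (.e (nat_lit 32787) (nat_lit 9) (.e (nat_lit 65571) (nat_lit 3) (.e (nat_lit 98342) (nat_lit 20) (.e (nat_lit 221212) (nat_lit 22) (.e (nat_lit 196660) (nat_lit 12) (.e (nat_lit 57507) (nat_lit 39) (.e (nat_lit 647203) (nat_lit 14) (.e (nat_lit 1139) (nat_lit 84) .nil)))))))) (.g (nat_lit 0) .nil .nil))) 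
(.lf (nat_lit 141482) (.g (nat_lit 2698) (.e (nat_lit 32787) (nat_lit 9) (.e (nat_lit 65598) (nat_lit 9) (.e (nat_lit 336013) (nat_lit 2) (.e (nat_lit 90165) (nat_lit 12) (.e (nat_lit 171776) (nat_lit 190) (.e (nat_lit 57713) (nat_lit 176) (.e (nat_lit 1141) (nat_lit 84) .nil))))))) (.g (nat_lit 4) .nil .nil)))) (.nd (nat_lit 5) 
(.lf (nat_lit 141466) (.g (nat_lit 968) (.e (nat_lit 32787) (nat_lit 9) (.e (nat_lit 65586) (nat_lit 7) (.e (nat_lit 319505) (nat_lit 10) (.e (nat_lit 7936) (nat_lit 45) .nil)))) .nil)) 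
(.lf (nat_lit 141498) (.g (nat_lit 1982) (.e (nat_lit 32787) (nat_lit 9) (.e (nat_lit 65604) (nat_lit 9) (.e (nat_lit 336013) (nat_lit 2) (.e (nat_lit 90165) (nat_lit 12) (.e (nat_lit 171776) (nat_lit 190) (.e (nat_lit 57713) (nat_lit 176) (.e (nat_lit 1140) (nat_lit 84) .nil))))))) (.g (nat_lit 4) .nil .nil)))))) (.nd (nat_lit 3) (.nd (nat_lit 4) (.nd (nat_lit 5) 
(.lf (nat_lit 141446) (.g (nat_lit 732) (.e (nat_lit 32787) (nat_lit 9) (.e (nat_lit 65571) (nat_lit 3) (.e (nat_lit 98342) (nat_lit 20) .nil))) .nil)) 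
(.lf (nat_lit 141478) (.g (nat_lit 3159) (.e (nat_lit 32787) (nat_lit 9) (.e (nat_lit 65598) (nat_lit 9) (.e (nat_lit 336013) (nat_lit 2) (.e (nat_lit 90165) (nat_lit 12) (.e (nat_lit 164219) (nat_lit 180) .nil))))) .nil))) (.nd (nat_lit 5) 
(.lf (nat_lit 141462) (.g (nat_lit 1608) (.e (nat_lit 32787) (nat_lit 9) (.e (nat_lit 65584) (nat_lit 7) (.e (nat_lit 319519) (nat_lit 12) (.e (nat_lit 32788) (nat_lit 10) (.e (nat_lit 73789) (nat_lit 45) (.e (nat_lit 1139) (nat_lit 84) .nil)))))) (.g (nat_lit 5) .nil .nil))) 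
(.lf (nat_lit 141494) (.g (nat_lit 1979) (.e (nat_lit 32787) (nat_lit 9) (.e (nat_lit 65604) (nat_lit 9) (.e (nat_lit 336013) (nat_lit 2) (.e (nat_lit 90165) (nat_lit 12) (.e (nat_lit 164208) (nat_lit 176) (.e (nat_lit 2403) (nat_lit 157) (.e (nat_lit 4963) (nat_lit 287) (.e (nat_lit 1139) (nat_lit 84) .nil)))))))) (.g (nat_lit 4) .nil .nil))))) (.nd (nat_lit 4) (.nd (nat_lit 5) 
(.lf (nat_lit 141454) (.g (nat_lit 1594) (.e (nat_lit 32787) (nat_lit 9) (.e (nat_lit 65583) (nat_lit 7) (.e (nat_lit 319519) (nat_lit 12) (.e (nat_lit 32788) (nat_lit 10) (.e (nat_lit 73789) (nat_lit 45) (.e (nat_lit 1140) (nat_lit 84) .nil)))))) (.g (nat_lit 0) .nil .nil))) 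
(.lf (nat_lit 141486) (.g (nat_lit 1564) (.e (nat_lit 32787) (nat_lit 9) (.e (nat_lit 65598) (nat_lit 9) (.e (nat_lit 336028) (nat_lit 3) (.e (nat_lit 98325) (nat_lit 17) (.e (nat_lit 6986) (nat_lit 377) .nil))))) .nil))) (.nd (nat_lit 5) 
(.lf (nat_lit 141470) (.g (nat_lit 809) (.e (nat_lit 32787) (nat_lit 9) (.e (nat_lit 65586) (nat_lit 7) (.e (nat_lit 319519) (nat_lit 12) (.e (nat_lit 40704) (nat_lit 10) .nil)))) .nil)) 
(.lf (nat_lit 141502) (.g (nat_lit 2332) (.e (nat_lit 32787) (nat_lit 9) (.e (nat_lit 65604) (nat_lit 9) (.e (nat_lit 336028) (nat_lit 3) (.e (nat_lit 98325) (nat_lit 17) (.e (nat_lit 6986) (nat_lit 377) (.e (nat_lit 2403) (nat_lit 157) (.e (nat_lit 4921) (nat_lit 287) (.e (nat_lit 1139) (nat_lit 84) .nil)))))))) (.g (nat_lit 5) .nil .nil)))))))) 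
(.nd (nat_lit 1) (.nd (nat_lit 2) (.nd (nat_lit 3) (.nd (nat_lit 4) (.nd (nat_lit 5) 
(.lf (nat_lit 141441) (.g (nat_lit 980) (.e (nat_lit 32787) (nat_lit 9) (.e (nat_lit 65571) (nat_lit 3) (.e (nat_lit 98333) (nat_lit 18) .nil))) .nil)) 
(.lf (nat_lit 141473) (.g (nat_lit 2509) (.e (nat_lit 32787) (nat_lit 9) (.e (nat_lit 65598) (nat_lit 9) (.e (nat_lit 336013) (nat_lit 2) (.e (nat_lit 90133) (nat_lit 9) (.e (nat_lit 2397) (nat_lit 157) .nil))))) .nil))) (.nd (nat_lit 5) 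
(.lf (nat_lit 141457) (.g (nat_lit 726) (.e (nat_lit 32787) (nat_lit 9) (.e (nat_lit 65583) (nat_lit 7) (.e (nat_lit 319519) (nat_lit 12) (.e (nat_lit 40704) (nat_lit 10) .nil)))) .nil)) 
(.lf (nat_lit 141489) (.g (nat_lit 2220) (.e (nat_lit 32787) (nat_lit 9) (.e (nat_lit 65598) (nat_lit 9) (.e (nat_lit 336028) (nat_lit 3) (.e (nat_lit 98349) (nat_lit 24) (.e (nat_lit 409638) (nat_lit 15) .nil))))) .nil)))) (.nd (nat_lit 4) (.nd (nat_lit 5) 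
(.lf (nat_lit 141449) (.g (nat_lit 2150) (.e (nat_lit 32787) (nat_lit 9) (.e (nat_lit 65571) (nat_lit 3) (.e (nat_lit 98342) (nat_lit 20) (.e (nat_lit 221212) (nat_lit 22) (.e (nat_lit 196658) (nat_lit 12) (.e (nat_lit 57507) (nat_lit 39) (.e (nat_lit 647203) (nat_lit 14) (.e (nat_lit 1139) (nat_lit 84) .nil)))))))) (.g (nat_lit 4) .nil .nil))) 
(.lf (nat_lit 141481) (.g (nat_lit 2786) (.e (nat_lit 32787) (nat_lit 9) (.e (nat_lit 65598) (nat_lit 9) (.e (nat_lit 336013) (nat_lit 2) (.e (nat_lit 90165) (nat_lit 12) (.e (nat_lit 171776) (nat_lit 190) (.e (nat_lit 57713) (nat_lit 176) (.e (nat_lit 1140) (nat_lit 84) .nil))))))) (.g (nat_lit 4) .nil .nil)))) (.nd (nat_lit 5) 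
(.lf (nat_lit 141465) (.g (nat_lit 977) (.e (nat_lit 32787) (nat_lit 9) (.e (nat_lit 65586) (nat_lit 7) (.e (nat_lit 319500) (nat_lit 10) (.e (nat_lit 563) (nat_lit 41) .nil)))) .nil)) 
(.lf (nat_lit 141497) (.g (nat_lit 1607) (.e (nat_lit 32787) (nat_lit 9) (.e (nat_lit 65604) (nat_lit 9) (.e (nat_lit 336013) (nat_lit 2) (.e (nat_lit 90165) (nat_lit 12) (.e (nat_lit 171776) (nat_lit 190) .nil))))) .nil))))) (.nd (nat_lit 3) (.nd (nat_lit 4) (.nd (nat_lit 5) 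
(.lf (nat_lit 141445) (.g (nat_lit 2617) (.e (nat_lit 32787) (nat_lit 9) (.e (nat_lit 65571) (nat_lit 3) (.e (nat_lit 98341) (nat_lit 20) (.e (nat_lit 221210) (nat_lit 22) (.e (nat_lit 196660) (nat_lit 12) (.e (nat_lit 57507) (nat_lit 39) (.e (nat_lit 647203) (nat_lit 14) (.e (nat_lit 1139) (nat_lit 84) .nil)))))))) (.g (nat_lit 4) .nil .nil))) 
(.lf (nat_lit 141477) (.g (nat_lit 2917) (.e (nat_lit 32787) (nat_lit 9) (.e (nat_lit 65598) (nat_lit 9) (.e (nat_lit 336013) (nat_lit 2) (.e (nat_lit 90165) (nat_lit 12) (.e (nat_lit 164210) (nat_lit 176) (.e (nat_lit 2768) (nat_lit 177) (.e (nat_lit 278561) (nat_lit 12) .nil))))))) (.g (nat_lit 4) .nil .nil)))) (.nd (nat_lit 5) 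
(.lf (nat_lit 141461) (.g (nat_lit 2012) (.e (nat_lit 32787) (nat_lit 9) (.e (nat_lit 65584) (nat_lit 7) (.e (nat_lit 319519) (nat_lit 12) (.e (nat_lit 32787) (nat_lit 9) (.e (nat_lit 65584) (nat_lit 7) (.e (nat_lit 319519) (nat_lit 12) .nil)))))) (.g (nat_lit 0) .nil .nil))) 
(.lf (nat_lit 141493) (.g (nat_lit 2136) (.e (nat_lit 32787) (nat_lit 9) (.e (nat_lit 65604) (nat_lit 9) (.e (nat_lit 336013) (nat_lit 2) (.e (nat_lit 90165) (nat_lit 12) (.e (nat_lit 164208) (nat_lit 176) (.e (nat_lit 2403) (nat_lit 157) (.e (nat_lit 4921) (nat_lit 287) (.e (nat_lit 1139) (nat_lit 84) .nil)))))))) (.g (nat_lit 4) .nil .nil))))) (.nd (nat_lit 4) (.nd (nat_lit 5) 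
(.lf (nat_lit 141453) (.g (nat_lit 958) (.e (nat_lit 32787) (nat_lit 9) (.e (nat_lit 65583) (nat_lit 7) (.e (nat_lit 319518) (nat_lit 12) (.e (nat_lit 32788) (nat_lit 10) (.e (nat_lit 73789) (nat_lit 45) .nil))))) .nil)) 
(.lf (nat_lit 141485) (.g (nat_lit 1148) (.e (nat_lit 32787) (nat_lit 9) (.e (nat_lit 65598) (nat_lit 9) (.e (nat_lit 336028) (nat_lit 3) (.e (nat_lit 98325) (nat_lit 17) .nil)))) .nil))) (.nd (nat_lit 5) 
(.lf (nat_lit 141469) (.g (nat_lit 1619) (.e (nat_lit 32787) (nat_lit 9) (.e (nat_lit 65586) (nat_lit 7) (.e (nat_lit 319519) (nat_lit 12) (.e (nat_lit 32788) (nat_lit 10) (.e (nat_lit 73792) (nat_lit 45) (.e (nat_lit 1141) (nat_lit 84) .nil)))))) (.g (nat_lit 0) .nil .nil))) 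
(.lf (nat_lit 141501) (.g (nat_lit 1546) (.e (nat_lit 32787) (nat_lit 9) (.e (nat_lit 65604) (nat_lit 9) (.e (nat_lit 336028) (nat_lit 3) (.e (nat_lit 98325) (nat_lit 17) (.e (nat_lit 6986) (nat_lit 377) .nil))))) .nil)))))) (.nd (nat_lit 2) (.nd (nat_lit 3) (.nd (nat_lit 4) (.nd (nat_lit 5) 
(.lf (nat_lit 141443) (.g (nat_lit 1669) (.e (nat_lit 32787) (nat_lit 9) (.e (nat_lit 65571) (nat_lit 3) (.e (nat_lit 98341) (nat_lit 20) (.e (nat_lit 229120) (nat_lit 3) .nil)))) .nil)) 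
(.lf (nat_lit 141475) (.g (nat_lit 2410) (.e (nat_lit 32787) (nat_lit 9) (.e (nat_lit 65598) (nat_lit 9) (.e (nat_lit 336013) (nat_lit 2) (.e (nat_lit 90165) (nat_lit 12) (.e (nat_lit 164208) (nat_lit 176) .nil))))) .nil))) (.nd (nat_lit 5) 
(.lf (nat_lit 141459) (.g (nat_lit 830) (.e (nat_lit 32787) (nat_lit 9) (.e (nat_lit 65584) (nat_lit 7) (.e (nat_lit 319519) (nat_lit 12) (.e (nat_lit 32774) (nat_lit 5) (.e (nat_lit 1529) (nat_lit 109) .nil))))) .nil)) 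
(.lf (nat_lit 141491) (.g (nat_lit 1128) (.e (nat_lit 32787) (nat_lit 9) (.e (nat_lit 65604) (nat_lit 9) (.e (nat_lit 336013) (nat_lit 2) (.e (nat_lit 90165) (nat_lit 12) .nil)))) .nil)))) (.nd (nat_lit 4) (.nd (nat_lit 5) 
(.lf (nat_lit 141451) (.g (nat_lit 634) (.e (nat_lit 32787) (nat_lit 9) (.e (nat_lit 65583) (nat_lit 7) (.e (nat_lit 319499) (nat_lit 10) (.e (nat_lit 562) (nat_lit 41) (.e (nat_lit 500070) (nat_lit 19) .nil))))) .nil)) 
(.lf (nat_lit 141483) (.g (nat_lit 2038) (.e (nat_lit 32787) (nat_lit 9) (.e (nat_lit 65598) (nat_lit 9) (.e (nat_lit 336013) (nat_lit 2) (.e (nat_lit 90189) (nat_lit 18) .nil)))) .nil))) (.nd (nat_lit 5) 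
(.lf (nat_lit 141467) (.g (nat_lit 358) (.e (nat_lit 32787) (nat_lit 9) (.e (nat_lit 65586) (nat_lit 7) (.e (nat_lit 319519) (nat_lit 12) .nil))) .nil)) 
(.lf (nat_lit 141499) (.g (nat_lit 1930) (.e (nat_lit 32787) (nat_lit 9) (.e (nat_lit 65604) (nat_lit 9) (.e (nat_lit 336013) (nat_lit 2) (.e (nat_lit 90165) (nat_lit 12) (.e (nat_lit 171776) (nat_lit 190) (.e (nat_lit 57713) (nat_lit 176) (.e (nat_lit 1141) (nat_lit 84) .nil))))))) (.g (nat_lit 4) .nil .nil)))))) (.nd (nat_lit 3) (.nd (nat_lit 4) (.nd (nat_lit 5) 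
(.lf (nat_lit 141447) (.g (nat_lit 2496) (.e (nat_lit 32787) (nat_lit 9) (.e (nat_lit 65571) (nat_lit 3) (.e (nat_lit 98342) (nat_lit 20) (.e (nat_lit 221210) (nat_lit 22) (.e (nat_lit 196658) (nat_lit 12) .nil))))) .nil)) 
(.lf (nat_lit 141479) (.g (nat_lit 3479) (.e (nat_lit 32787) (nat_lit 9) (.e (nat_lit 65598) (nat_lit 9) (.e (nat_lit 336013) (nat_lit 2) (.e (nat_lit 90165) (nat_lit 12) (.e (nat_lit 164219) (nat_lit 180) (.e (nat_lit 229617) (nat_lit 221) (.e (nat_lit 1139) (nat_lit 84) .nil))))))) (.g (nat_lit 4) .nil .nil)))) (.nd (nat_lit 5) 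
(.lf (nat_lit 141463) (.g (nat_lit 422) (.e (nat_lit 32787) (nat_lit 9) (.e (nat_lit 65586) (nat_lit 7) (.e (nat_lit 319500) (nat_lit 10) .nil))) .nil)) 
(.lf (nat_lit 141495) (.g (nat_lit 1951) (.e (nat_lit 32787) (nat_lit 9) (.e (nat_lit 65604) (nat_lit 9) (.e (nat_lit 336013) (nat_lit 2) (.e (nat_lit 90165) (nat_lit 12) (.e (nat_lit 164210) (nat_lit 176) (.e (nat_lit 2768) (nat_lit 177) (.e (nat_lit 278561) (nat_lit 12) .nil))))))) (.g (nat_lit 4) .nil .nil))))) (.nd (nat_lit 4) (.nd (nat_lit 5) 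
(.lf (nat_lit 141455) (.g (nat_lit 1495) (.e (nat_lit 32787) (nat_lit 9) (.e (nat_lit 65583) (nat_lit 7) (.e (nat_lit 319519) (nat_lit 12) (.e (nat_lit 32788) (nat_lit 10) (.e (nat_lit 73791) (nat_lit 45) (.e (nat_lit 1140) (nat_lit 84) .nil)))))) (.g (nat_lit 0) .nil .nil))) 
(.lf (nat_lit 141487) (.g (nat_lit 1545) (.e (nat_lit 32787) (nat_lit 9) (.e (nat_lit 65598) (nat_lit 9) (.e (nat_lit 336028) (nat_lit 3) (.e (nat_lit 98325) (nat_lit 17) (.e (nat_lit 7008) (nat_lit 377) .nil))))) .nil))) (.nd (nat_lit 5) 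
(.lf (nat_lit 141471) (.g (nat_lit 447) (.e (nat_lit 32787) (nat_lit 9) (.e (nat_lit 65598) (nat_lit 9) (.e (nat_lit 335937) (nat_lit 0) .nil))) .nil)) 
(.lf (nat_lit 141503) (.g (nat_lit 1514) (.e (nat_lit 32787) (nat_lit 9) (.e (nat_lit 65604) (nat_lit 9) (.e (nat_lit 336028) (nat_lit 3) (.e (nat_lit 98325) (nat_lit 17) (.e (nat_lit 7008) (nat_lit 377) .nil))))) .nil))))))))

noncomputable def tv1878 : DT := (.nd (nat_lit 0) (.nd (nat_lit 1) (.nd (nat_lit 2) (.nd (nat_lit 3) (.nd (nat_lit 4) (.nd (nat_lit 5) 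
(.lf (nat_lit 141504) (.g (nat_lit 1516) (.e (nat_lit 32787) (nat_lit 9) (.e (nat_lit 65604) (nat_lit 9) (.e (nat_lit 336028) (nat_lit 3) (.e (nat_lit 98325) (nat_lit 17) (.e (nat_lit 7112) (nat_lit 381) .nil))))) .nil)) 
(.lf (nat_lit 141536) (.g (nat_lit 3050) (.e (nat_lit 32787) (nat_lit 9) (.e (nat_lit 65610) (nat_lit 10) (.e (nat_lit 344117) (nat_lit 21) (.e (nat_lit 516106) (nat_lit 0) (.e (nat_lit 7936) (nat_lit 405) (.e (nat_lit 57713) (nat_lit 176) (.e (nat_lit 1141) (nat_lit 84) .nil))))))) (.g (nat_lit 4) .nil .nil)))) (.nd (nat_lit 5) 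
(.lf (nat_lit 141520) (.g (nat_lit 2775) (.e (nat_lit 32787) (nat_lit 9) (.e (nat_lit 65610) (nat_lit 10) (.e (nat_lit 344117) (nat_lit 21) (.e (nat_lit 516098) (nat_lit 0) (.e (nat_lit 7583) (nat_lit 405) (.e (nat_lit 57713) (nat_lit 176) (.e (nat_lit 1139) (nat_lit 84) .nil))))))) (.g (nat_lit 4) .nil .nil))) 
(.lf (nat_lit 141552) (.g (nat_lit 947) (.e (nat_lit 32787) (nat_lit 9) (.e (nat_lit 65610) (nat_lit 10) (.e (nat_lit 344126) (nat_lit 25) (.e (nat_lit 548889) (nat_lit 9) .nil)))) .nil)))) (.nd (nat_lit 4) (.nd (nat_lit 5) 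
(.lf (nat_lit 141512) (.g (nat_lit 3790) (.e (nat_lit 32787) (nat_lit 9) (.e (nat_lit 65610) (nat_lit 10) (.e (nat_lit 344117) (nat_lit 21) (.e (nat_lit 516097) (nat_lit 0) (.e (nat_lit 7583) (nat_lit 405) (.e (nat_lit 57714) (nat_lit 176) (.e (nat_lit 1140) (nat_lit 84) .nil))))))) (.g (nat_lit 4) .nil .nil))) 
(.lf (nat_lit 141544) (.g (nat_lit 1570) (.e (nat_lit 32787) (nat_lit 9) (.e (nat_lit 65610) (nat_lit 10) (.e (nat_lit 344117) (nat_lit 21) (.e (nat_lit 516185) (nat_lit 16) .nil)))) .nil))) (.nd (nat_lit 5) 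
(.lf (nat_lit 141528) (.g (nat_lit 2204) (.e (nat_lit 32787) (nat_lit 9) (.e (nat_lit 65610) (nat_lit 10) (.e (nat_lit 344117) (nat_lit 21) (.e (nat_lit 516106) (nat_lit 0) (.e (nat_lit 6986) (nat_lit 377) .nil))))) .nil)) 
(.lf (nat_lit 141560) (.g (nat_lit 2188) (.e (nat_lit 32787) (nat_lit 9) (.e (nat_lit 65610) (nat_lit 10) (.e (nat_lit 344129) (nat_lit 26) (.e (nat_lit 557064) (nat_lit 9) .nil)))) .nil))))) (.nd (nat_lit 3) (.nd (nat_lit 4) (.nd (nat_lit 5) 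
(.lf (nat_lit 141508) (.g (nat_lit 4412) (.e (nat_lit 32787) (nat_lit 9) (.e (nat_lit 65610) (nat_lit 10) (.e (nat_lit 344117) (nat_lit 21) (.e (nat_lit 516097) (nat_lit 0) (.e (nat_lit 7581) (nat_lit 405) (.e (nat_lit 57713) (nat_lit 176) (.e (nat_lit 1140) (nat_lit 84) .nil))))))) (.g (nat_lit 5) .nil .nil))) 
(.lf (nat_lit 141540) (.g (nat_lit 2861) (.e (nat_lit 32787) (nat_lit 9) (.e (nat_lit 65610) (nat_lit 10) (.e (nat_lit 344117) (nat_lit 21) (.e (nat_lit 516139) (nat_lit 7) (.e (nat_lit 409636) (nat_lit 14) (.e (nat_lit 270367) (nat_lit 12) .nil)))))) (.g (nat_lit 4) .nil .nil)))) (.nd (nat_lit 5) 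
(.lf (nat_lit 141524) (.g (nat_lit 3234) (.e (nat_lit 32787) (nat_lit 9) (.e (nat_lit 65610) (nat_lit 10) (.e (nat_lit 344117) (nat_lit 21) (.e (nat_lit 516099) (nat_lit 0) (.e (nat_lit 7936) (nat_lit 405) .nil))))) .nil)) 
(.lf (nat_lit 141556) (.g (nat_lit 1820) (.e (nat_lit 32787) (nat_lit 9) (.e (nat_lit 65610) (nat_lit 10) (.e (nat_lit 344126) (nat_lit 25) (.e (nat_lit 548890) (nat_lit 10) (.e (nat_lit 73789) (nat_lit 45) (.e (nat_lit 1140) (nat_lit 84) .nil)))))) (.g (nat_lit 0) .nil .nil))))) (.nd (nat_lit 4) (.nd (nat_lit 5) 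
(.lf (nat_lit 141516) (.g (nat_lit 3671) (.e (nat_lit 32787) (nat_lit 9) (.e (nat_lit 65610) (nat_lit 10) (.e (nat_lit 344117) (nat_lit 21) (.e (nat_lit 516098) (nat_lit 0) (.e (nat_lit 7581) (nat_lit 405) (.e (nat_lit 57713) (nat_lit 176) (.e (nat_lit 1141) (nat_lit 84) .nil))))))) (.g (nat_lit 5) .nil .nil))) 
(.lf (nat_lit 141548) (.g (nat_lit 2915) (.e (nat_lit 32787) (nat_lit 9) (.e (nat_lit 65610) (nat_lit 10) (.e (nat_lit 344117) (nat_lit 21) (.e (nat_lit 516185) (nat_lit 16) (.e (nat_lit 491526) (nat_lit 0) (.e (nat_lit 6136) (nat_lit 332) (.e (nat_lit 1141) (nat_lit 84) .nil))))))) (.g (nat_lit 4) .nil .nil)))) (.nd (nat_lit 5) 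
(.lf (nat_lit 141532) (.g (nat_lit 2757) (.e (nat_lit 32787) (nat_lit 9) (.e (nat_lit 65610) (nat_lit 10) (.e (nat_lit 344117) (nat_lit 21) (.e (nat_lit 516106) (nat_lit 0) (.e (nat_lit 6986) (nat_lit 377) (.e (nat_lit 2403) (nat_lit 157) (.e (nat_lit 4963) (nat_lit 287) (.e (nat_lit 1139) (nat_lit 84) .nil)))))))) (.g (nat_lit 4) .nil .nil))) 
(.lf (nat_lit 141564) (.g (nat_lit 2896) (.e (nat_lit 32787) (nat_lit 9) (.e (nat_lit 65610) (nat_lit 10) (.e (nat_lit 344129) (nat_lit 26) (.e (nat_lit 557066) (nat_lit 9) (.e (nat_lit 232) (nat_lit 21) (.e (nat_lit 335907) (nat_lit 0) (.e (nat_lit 6125) (nat_lit 332) (.e (nat_lit 1141) (nat_lit 84) .nil)))))))) (.g (nat_lit 6) .nil .nil))))))) 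
(.nd (nat_lit 2) (.nd (nat_lit 3) (.nd (nat_lit 4) (.nd (nat_lit 5) 
(.lf (nat_lit 141506) (.g (nat_lit 2467) (.e (nat_lit 32787) (nat_lit 9) (.e (nat_lit 65610) (nat_lit 10) (.e (nat_lit 344117) (nat_lit 21) (.e (nat_lit 516097) (nat_lit 0) .nil)))) .nil)) 
(.lf (nat_lit 141538) (.g (nat_lit 1897) (.e (nat_lit 32787) (nat_lit 9) (.e (nat_lit 65610) (nat_lit 10) (.e (nat_lit 344117) (nat_lit 21) (.e (nat_lit 516138) (nat_lit 7) .nil)))) .nil))) (.nd (nat_lit 5) 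
(.lf (nat_lit 141522) (.g (nat_lit 2822) (.e (nat_lit 32787) (nat_lit 9) (.e (nat_lit 65610) (nat_lit 10) (.e (nat_lit 344117) (nat_lit 21) (.e (nat_lit 516098) (nat_lit 0) (.e (nat_lit 7583) (nat_lit 405) (.e (nat_lit 57717) (nat_lit 176) (.e (nat_lit 1140) (nat_lit 84) .nil))))))) (.g (nat_lit 4) .nil .nil))) 
(.lf (nat_lit 141554) (.g (nat_lit 3588) (.e (nat_lit 32787) (nat_lit 9) (.e (nat_lit 65610) (nat_lit 10) (.e (nat_lit 344126) (nat_lit 25) (.e (nat_lit 548889) (nat_lit 9) (.e (nat_lit 65586) (nat_lit 7) (.e (nat_lit 319519) (nat_lit 12) .nil)))))) (.g (nat_lit 0) .nil .nil))))) (.nd (nat_lit 4) (.nd (nat_lit 5) 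
(.lf (nat_lit 141514) (.g (nat_lit 2280) (.e (nat_lit 32787) (nat_lit 9) (.e (nat_lit 65610) (nat_lit 10) (.e (nat_lit 344117) (nat_lit 21) (.e (nat_lit 516098) (nat_lit 0) (.e (nat_lit 7486) (nat_lit 402) .nil))))) .nil)) 
(.lf (nat_lit 141546) (.g (nat_lit 3110) (.e (nat_lit 32787) (nat_lit 9) (.e (nat_lit 65610) (nat_lit 10) (.e (nat_lit 344117) (nat_lit 21) (.e (nat_lit 516185) (nat_lit 16) (.e (nat_lit 491526) (nat_lit 0) (.e (nat_lit 6136) (nat_lit 332) (.e (nat_lit 1139) (nat_lit 84) .nil))))))) (.g (nat_lit 4) .nil .nil)))) (.nd (nat_lit 5) 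
(.lf (nat_lit 141530) (.g (nat_lit 3518) (.e (nat_lit 32787) (nat_lit 9) (.e (nat_lit 65610) (nat_lit 10) (.e (nat_lit 344117) (nat_lit 21) (.e (nat_lit 516106) (nat_lit 0) (.e (nat_lit 6986) (nat_lit 377) (.e (nat_lit 2403) (nat_lit 157) (.e (nat_lit 4921) (nat_lit 287) (.e (nat_lit 1141) (nat_lit 84) .nil)))))))) (.g (nat_lit 5) .nil .nil))) 
(.lf (nat_lit 141562) (.g (nat_lit 1301) (.e (nat_lit 32787) (nat_lit 9) (.e (nat_lit 65610) (nat_lit 10) (.e (nat_lit 344129) (nat_lit 26) (.e (nat_lit 557066) (nat_lit 9) .nil)))) .nil))))) (.nd (nat_lit 3) (.nd (nat_lit 4) (.nd (nat_lit 5) 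
(.lf (nat_lit 141510) (.g (nat_lit 3521) (.e (nat_lit 32787) (nat_lit 9) (.e (nat_lit 65610) (nat_lit 10) (.e (nat_lit 344117) (nat_lit 21) (.e (nat_lit 516097) (nat_lit 0) (.e (nat_lit 7583) (nat_lit 405) .nil))))) .nil)) 
(.lf (nat_lit 141542) (.g (nat_lit 3455) (.e (nat_lit 32787) (nat_lit 9) (.e (nat_lit 65610) (nat_lit 10) (.e (nat_lit 344117) (nat_lit 21) (.e (nat_lit 516139) (nat_lit 7) (.e (nat_lit 409639) (nat_lit 15) .nil))))) .nil))) (.nd (nat_lit 5) 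
(.lf (nat_lit 141526) (.g (nat_lit 1885) (.e (nat_lit 32787) (nat_lit 9) (.e (nat_lit 65610) (nat_lit 10) (.e (nat_lit 344117) (nat_lit 21) (.e (nat_lit 516102) (nat_lit 0) .nil)))) .nil)) 
(.lf (nat_lit 141558) (.g (nat_lit 1895) (.e (nat_lit 32787) (nat_lit 9) (.e (nat_lit 65610) (nat_lit 10) (.e (nat_lit 344126) (nat_lit 25) (.e (nat_lit 548890) (nat_lit 10) (.e (nat_lit 73792) (nat_lit 45) (.e (nat_lit 1140) (nat_lit 84) .nil)))))) (.g (nat_lit 0) .nil .nil))))) (.nd (nat_lit 4) (.nd (nat_lit 5) 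
(.lf (nat_lit 141518) (.g (nat_lit 3359) (.e (nat_lit 32787) (nat_lit 9) (.e (nat_lit 65610) (nat_lit 10) (.e (nat_lit 344117) (nat_lit 21) (.e (nat_lit 516098) (nat_lit 0) (.e (nat_lit 7581) (nat_lit 405) (.e (nat_lit 57717) (nat_lit 176) (.e (nat_lit 1140) (nat_lit 84) .nil))))))) (.g (nat_lit 5) .nil .nil))) 
(.lf (nat_lit 141550) (.g (nat_lit 3704) (.e (nat_lit 32787) (nat_lit 9) (.e (nat_lit 65610) (nat_lit 10) (.e (nat_lit 344117) (nat_lit 21) (.e (nat_lit 516185) (nat_lit 16) (.e (nat_lit 491526) (nat_lit 0) (.e (nat_lit 6148) (nat_lit 332) (.e (nat_lit 1141) (nat_lit 84) .nil))))))) (.g (nat_lit 5) .nil .nil)))) (.nd (nat_lit 5) 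
(.lf (nat_lit 141534) (.g (nat_lit 2580) (.e (nat_lit 32787) (nat_lit 9) (.e (nat_lit 65610) (nat_lit 10) (.e (nat_lit 344117) (nat_lit 21) (.e (nat_lit 516106) (nat_lit 0) (.e (nat_lit 7936) (nat_lit 405) .nil))))) .nil)) 
(.lf (nat_lit 141566) (.g (nat_lit 1883) (.e (nat_lit 32787) (nat_lit 9) (.e (nat_lit 65610) (nat_lit 10) (.e (nat_lit 344129) (nat_lit 26) (.e (nat_lit 557066) (nat_lit 9) (.e (nat_lit 232) (nat_lit 21) (.e (nat_lit 335907) (nat_lit 0) (.e (nat_lit 6145) (nat_lit 332) (.e (nat_lit 1139) (nat_lit 84) .nil)))))))) (.g (nat_lit 5) .nil .nil)))))))) 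
(.nd (nat_lit 1) (.nd (nat_lit 2) (.nd (nat_lit 3) (.nd (nat_lit 4) (.nd (nat_lit 5) 
(.lf (nat_lit 141505) (.g (nat_lit 730) (.e (nat_lit 32787) (nat_lit 9) (.e (nat_lit 65609) (nat_lit 10) (.e (nat_lit 344126) (nat_lit 25) (.e (nat_lit 548890) (nat_lit 10) .nil)))) .nil)) 
(.lf (nat_lit 141537) (.g (nat_lit 2988) (.e (nat_lit 32787) (nat_lit 9) (.e (nat_lit 65610) (nat_lit 10) (.e (nat_lit 344117) (nat_lit 21) (.e (nat_lit 516106) (nat_lit 0) (.e (nat_lit 7936) (nat_lit 405) (.e (nat_lit 57717) (nat_lit 176) (.e (nat_lit 1141) (nat_lit 84) .nil))))))) (.g (nat_lit 4) .nil .nil)))) (.nd (nat_lit 5) 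
(.lf (nat_lit 141521) (.g (nat_lit 3241) (.e (nat_lit 32787) (nat_lit 9) (.e (nat_lit 65610) (nat_lit 10) (.e (nat_lit 344117) (nat_lit 21) (.e (nat_lit 516098) (nat_lit 0) (.e (nat_lit 7583) (nat_lit 405) (.e (nat_lit 57714) (nat_lit 176) (.e (nat_lit 1140) (nat_lit 84) .nil))))))) (.g (nat_lit 5) .nil .nil))) 
(.lf (nat_lit 141553) (.g (nat_lit 2513) (.e (nat_lit 32787) (nat_lit 9) (.e (nat_lit 65610) (nat_lit 10) (.e (nat_lit 344126) (nat_lit 25) (.e (nat_lit 548889) (nat_lit 9) (.e (nat_lit 65582) (nat_lit 7) .nil))))) .nil)))) (.nd (nat_lit 4) (.nd (nat_lit 5) 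
(.lf (nat_lit 141513) (.g (nat_lit 1895) (.e (nat_lit 32787) (nat_lit 9) (.e (nat_lit 65610) (nat_lit 10) (.e (nat_lit 344117) (nat_lit 21) (.e (nat_lit 516098) (nat_lit 0) .nil)))) .nil)) 
(.lf (nat_lit 141545) (.g (nat_lit 3023) (.e (nat_lit 32787) (nat_lit 9) (.e (nat_lit 65610) (nat_lit 10) (.e (nat_lit 344117) (nat_lit 21) (.e (nat_lit 516185) (nat_lit 16) (.e (nat_lit 491526) (nat_lit 0) (.e (nat_lit 6126) (nat_lit 332) (.e (nat_lit 1140) (nat_lit 84) .nil))))))) (.g (nat_lit 4) .nil .nil)))) (.nd (nat_lit 5) 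
(.lf (nat_lit 141529) (.g (nat_lit 3428) (.e (nat_lit 32787) (nat_lit 9) (.e (nat_lit 65610) (nat_lit 10) (.e (nat_lit 344117) (nat_lit 21) (.e (nat_lit 516106) (nat_lit 0) (.e (nat_lit 6986) (nat_lit 377) (.e (nat_lit 2403) (nat_lit 157) (.e (nat_lit 4921) (nat_lit 287) (.e (nat_lit 1140) (nat_lit 84) .nil)))))))) (.g (nat_lit 5) .nil .nil))) 
(.lf (nat_lit 141561) (.g (nat_lit 1473) (.e (nat_lit 32787) (nat_lit 9) (.e (nat_lit 65610) (nat_lit 10) (.e (nat_lit 344129) (nat_lit 26) (.e (nat_lit 557065) (nat_lit 9) .nil)))) .nil))))) (.nd (nat_lit 3) (.nd (nat_lit 4) (.nd (nat_lit 5) 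
(.lf (nat_lit 141509) (.g (nat_lit 4452) (.e (nat_lit 32787) (nat_lit 9) (.e (nat_lit 65610) (nat_lit 10) (.e (nat_lit 344117) (nat_lit 21) (.e (nat_lit 516097) (nat_lit 0) (.e (nat_lit 7581) (nat_lit 405) (.e (nat_lit 57713) (nat_lit 176) (.e (nat_lit 1141) (nat_lit 84) .nil))))))) (.g (nat_lit 5) .nil .nil))) 
(.lf (nat_lit 141541) (.g (nat_lit 3386) (.e (nat_lit 32787) (nat_lit 9) (.e (nat_lit 65610) (nat_lit 10) (.e (nat_lit 344117) (nat_lit 21) (.e (nat_lit 516139) (nat_lit 7) (.e (nat_lit 409638) (nat_lit 15) (.e (nat_lit 278561) (nat_lit 12) .nil)))))) (.g (nat_lit 6) .nil .nil)))) (.nd (nat_lit 5) 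
(.lf (nat_lit 141525) (.g (nat_lit 3718) (.e (nat_lit 32787) (nat_lit 9) (.e (nat_lit 65610) (nat_lit 10) (.e (nat_lit 344117) (nat_lit 21) (.e (nat_lit 516099) (nat_lit 0) (.e (nat_lit 7936) (nat_lit 405) (.e (nat_lit 57711) (nat_lit 176) (.e (nat_lit 1141) (nat_lit 84) .nil))))))) (.g (nat_lit 4) .nil .nil))) 
(.lf (nat_lit 141557) (.g (nat_lit 1740) (.e (nat_lit 32787) (nat_lit 9) (.e (nat_lit 65610) (nat_lit 10) (.e (nat_lit 344126) (nat_lit 25) (.e (nat_lit 548890) (nat_lit 10) (.e (nat_lit 73791) (nat_lit 45) (.e (nat_lit 1140) (nat_lit 84) .nil)))))) (.g (nat_lit 0) .nil .nil))))) (.nd (nat_lit 4) (.nd (nat_lit 5) 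
(.lf (nat_lit 141517) (.g (nat_lit 3460) (.e (nat_lit 32787) (nat_lit 9) (.e (nat_lit 65610) (nat_lit 10) (.e (nat_lit 344117) (nat_lit 21) (.e (nat_lit 516098) (nat_lit 0) (.e (nat_lit 7581) (nat_lit 405) (.e (nat_lit 57714) (nat_lit 176) (.e (nat_lit 1141) (nat_lit 84) .nil))))))) (.g (nat_lit 5) .nil .nil))) 
(.lf (nat_lit 141549) (.g (nat_lit 4058) (.e (nat_lit 32787) (nat_lit 9) (.e (nat_lit 65610) (nat_lit 10) (.e (nat_lit 344117) (nat_lit 21) (.e (nat_lit 516185) (nat_lit 16) (.e (nat_lit 491526) (nat_lit 0) (.e (nat_lit 6148) (nat_lit 332) (.e (nat_lit 1139) (nat_lit 84) .nil))))))) (.g (nat_lit 5) .nil .nil)))) (.nd (nat_lit 5) 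
(.lf (nat_lit 141533) (.g (nat_lit 2427) (.e (nat_lit 32787) (nat_lit 9) (.e (nat_lit 65610) (nat_lit 10) (.e (nat_lit 344117) (nat_lit 21) (.e (nat_lit 516106) (nat_lit 0) (.e (nat_lit 7008) (nat_lit 377) .nil))))) .nil)) 
(.lf (nat_lit 141565) (.g (nat_lit 3086) (.e (nat_lit 32787) (nat_lit 9) (.e (nat_lit 65610) (nat_lit 10) (.e (nat_lit 344129) (nat_lit 26) (.e (nat_lit 557066) (nat_lit 9) (.e (nat_lit 232) (nat_lit 21) (.e (nat_lit 335907) (nat_lit 0) (.e (nat_lit 6133) (nat_lit 332) (.e (nat_lit 1141) (nat_lit 84) .nil)))))))) (.g (nat_lit 6) .nil .nil))))))) 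
(.nd (nat_lit 2) (.nd (nat_lit 3) (.nd (nat_lit 4) (.nd (nat_lit 5) 
(.lf (nat_lit 141507) (.g (nat_lit 3501) (.e (nat_lit 32787) (nat_lit 9) (.e (nat_lit 65610) (nat_lit 10) (.e (nat_lit 344117) (nat_lit 21) (.e (nat_lit 516097) (nat_lit 0) (.e (nat_lit 7581) (nat_lit 405) .nil))))) .nil)) 
(.lf (nat_lit 141539) (.g (nat_lit 2707) (.e (nat_lit 32787) (nat_lit 9) (.e (nat_lit 65610) (nat_lit 10) (.e (nat_lit 344117) (nat_lit 21) (.e (nat_lit 516138) (nat_lit 7) (.e (nat_lit 409639) (nat_lit 15) .nil))))) .nil))) (.nd (nat_lit 5) 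
(.lf (nat_lit 141523) (.g (nat_lit 3050) (.e (nat_lit 32787) (nat_lit 9) (.e (nat_lit 65610) (nat_lit 10) (.e (nat_lit 344117) (nat_lit 21) (.e (nat_lit 516099) (nat_lit 0) .nil)))) .nil)) 
(.lf (nat_lit 141555) (.g (nat_lit 1866) (.e (nat_lit 32787) (nat_lit 9) (.e (nat_lit 65610) (nat_lit 10) (.e (nat_lit 344126) (nat_lit 25) (.e (nat_lit 548890) (nat_lit 10) (.e (nat_lit 73789) (nat_lit 45) (.e (nat_lit 1139) (nat_lit 84) .nil)))))) (.g (nat_lit 6) .nil .nil))))) (.nd (nat_lit 4) (.nd (nat_lit 5) 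
(.lf (nat_lit 141515) (.g (nat_lit 3631) (.e (nat_lit 32787) (nat_lit 9) (.e (nat_lit 65610) (nat_lit 10) (.e (nat_lit 344117) (nat_lit 21) (.e (nat_lit 516098) (nat_lit 0) (.e (nat_lit 7581) (nat_lit 405) (.e (nat_lit 57713) (nat_lit 176) (.e (nat_lit 1140) (nat_lit 84) .nil))))))) (.g (nat_lit 5) .nil .nil))) 
(.lf (nat_lit 141547) (.g (nat_lit 2901) (.e (nat_lit 32787) (nat_lit 9) (.e (nat_lit 65610) (nat_lit 10) (.e (nat_lit 344117) (nat_lit 21) (.e (nat_lit 516185) (nat_lit 16) (.e (nat_lit 491526) (nat_lit 0) (.e (nat_lit 6136) (nat_lit 332) (.e (nat_lit 1140) (nat_lit 84) .nil))))))) (.g (nat_lit 4) .nil .nil)))) (.nd (nat_lit 5) 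
(.lf (nat_lit 141531) (.g (nat_lit 3525) (.e (nat_lit 32787) (nat_lit 9) (.e (nat_lit 65610) (nat_lit 10) (.e (nat_lit 344117) (nat_lit 21) (.e (nat_lit 516106) (nat_lit 0) (.e (nat_lit 6986) (nat_lit 377) (.e (nat_lit 2403) (nat_lit 157) (.e (nat_lit 4962) (nat_lit 287) (.e (nat_lit 1139) (nat_lit 84) .nil)))))))) (.g (nat_lit 5) .nil .nil))) 
(.lf (nat_lit 141563) (.g (nat_lit 2224) (.e (nat_lit 32787) (nat_lit 9) (.e (nat_lit 65610) (nat_lit 10) (.e (nat_lit 344129) (nat_lit 26) (.e (nat_lit 557066) (nat_lit 9) (.e (nat_lit 232) (nat_lit 21) (.e (nat_lit 335907) (nat_lit 0) (.e (nat_lit 6123) (nat_lit 332) (.e (nat_lit 1140) (nat_lit 84) .nil)))))))) (.g (nat_lit 5) .nil .nil)))))) (.nd (nat_lit 3) (.nd (nat_lit 4) (.nd (nat_lit 5) 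
(.lf (nat_lit 141511) (.g (nat_lit 3533) (.e (nat_lit 32787) (nat_lit 9) (.e (nat_lit 65610) (nat_lit 10) (.e (nat_lit 344117) (nat_lit 21) (.e (nat_lit 516097) (nat_lit 0) (.e (nat_lit 7583) (nat_lit 405) (.e (nat_lit 57713) (nat_lit 176) (.e (nat_lit 1139) (nat_lit 84) .nil))))))) (.g (nat_lit 4) .nil .nil))) 
(.lf (nat_lit 141543) (.g (nat_lit 2158) (.e (nat_lit 32787) (nat_lit 9) (.e (nat_lit 65610) (nat_lit 10) (.e (nat_lit 344117) (nat_lit 21) (.e (nat_lit 516142) (nat_lit 8) .nil)))) .nil))) (.nd (nat_lit 5) 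
(.lf (nat_lit 141527) (.g (nat_lit 1565) (.e (nat_lit 32787) (nat_lit 9) (.e (nat_lit 65610) (nat_lit 10) (.e (nat_lit 344117) (nat_lit 21) (.e (nat_lit 516106) (nat_lit 0) .nil)))) .nil)) 
(.lf (nat_lit 141559) (.g (nat_lit 344) (.e (nat_lit 32787) (nat_lit 9) (.e (nat_lit 65610) (nat_lit 10) (.e (nat_lit 344129) (nat_lit 26) .nil))) .nil)))) (.nd (nat_lit 4) (.nd (nat_lit 5) 
(.lf (nat_lit 141519) (.g (nat_lit 2699) (.e (nat_lit 32787) (nat_lit 9) (.e (nat_lit 65610) (nat_lit 10) (.e (nat_lit 344117) (nat_lit 21) (.e (nat_lit 516098) (nat_lit 0) (.e (nat_lit 7583) (nat_lit 405) (.e (nat_lit 57711) (nat_lit 176) (.e (nat_lit 1141) (nat_lit 84) .nil))))))) (.g (nat_lit 4) .nil .nil))) 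
(.lf (nat_lit 141551) (.g (nat_lit 3719) (.e (nat_lit 32787) (nat_lit 9) (.e (nat_lit 65610) (nat_lit 10) (.e (nat_lit 344117) (nat_lit 21) (.e (nat_lit 516185) (nat_lit 16) (.e (nat_lit 491526) (nat_lit 0) (.e (nat_lit 6149) (nat_lit 332) (.e (nat_lit 1140) (nat_lit 84) .nil))))))) (.g (nat_lit 5) .nil .nil)))) (.nd (nat_lit 5) 
(.lf (nat_lit 141535) (.g (nat_lit 3059) (.e (nat_lit 32787) (nat_lit 9) (.e (nat_lit 65610) (nat_lit 10) (.e (nat_lit 344117) (nat_lit 21) (.e (nat_lit 516106) (nat_lit 0) (.e (nat_lit 7936) (nat_lit 405) (.e (nat_lit 57713) (nat_lit 176) (.e (nat_lit 1140) (nat_lit 84) .nil))))))) (.g (nat_lit 4) .nil .nil))) 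
(.lf (nat_lit 141567) (.g (nat_lit 1882) (.e (nat_lit 32787) (nat_lit 9) (.e (nat_lit 65610) (nat_lit 10) (.e (nat_lit 344129) (nat_lit 26) (.e (nat_lit 557066) (nat_lit 9) (.e (nat_lit 232) (nat_lit 21) (.e (nat_lit 335907) (nat_lit 0) (.e (nat_lit 6151) (nat_lit 332) (.e (nat_lit 1139) (nat_lit 84) .nil)))))))) (.g (nat_lit 5) .nil .nil)))))))))

noncomputable def tv1879 : DT := (.nd (nat_lit 0) (.nd (nat_lit 1) (.nd (nat_lit 2) (.nd (nat_lit 3) (.nd (nat_lit 4) (.nd (nat_lit 5) 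
(.lf (nat_lit 141568) (.g (nat_lit 2204) (.e (nat_lit 32787) (nat_lit 9) (.e (nat_lit 65610) (nat_lit 10) (.e (nat_lit 344129) (nat_lit 26) (.e (nat_lit 557066) (nat_lit 9) (.e (nat_lit 232) (nat_lit 21) (.e (nat_lit 335907) (nat_lit 0) (.e (nat_lit 6151) (nat_lit 332) (.e (nat_lit 1140) (nat_lit 84) .nil)))))))) (.g (nat_lit 5) .nil .nil))) 
(.lf (nat_lit 141600) (.g (nat_lit 2629) (.e (nat_lit 32787) (nat_lit 9) (.e (nat_lit 65610) (nat_lit 10) (.e (nat_lit 344129) (nat_lit 26) (.e (nat_lit 557087) (nat_lit 11) (.e (nat_lit 24584) (nat_lit 0) (.e (nat_lit 6125) (nat_lit 332) (.e (nat_lit 1139) (nat_lit 84) .nil))))))) (.g (nat_lit 5) .nil .nil)))) (.nd (nat_lit 5) 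
(.lf (nat_lit 141584) (.g (nat_lit 2479) (.e (nat_lit 32787) (nat_lit 9) (.e (nat_lit 65610) (nat_lit 10) (.e (nat_lit 344129) (nat_lit 26) (.e (nat_lit 557070) (nat_lit 9) (.e (nat_lit 296) (nat_lit 22) .nil))))) .nil)) 
(.lf (nat_lit 141616) (.g (nat_lit 3405) (.e (nat_lit 32787) (nat_lit 9) (.e (nat_lit 65611) (nat_lit 10) (.e (nat_lit 344126) (nat_lit 25) (.e (nat_lit 548889) (nat_lit 9) (.e (nat_lit 65586) (nat_lit 7) (.e (nat_lit 319519) (nat_lit 12) .nil)))))) (.g (nat_lit 0) .nil .nil))))) (.nd (nat_lit 4) (.nd (nat_lit 5) 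
(.lf (nat_lit 141576) (.g (nat_lit 1627) (.e (nat_lit 32787) (nat_lit 9) (.e (nat_lit 65610) (nat_lit 10) (.e (nat_lit 344129) (nat_lit 26) (.e (nat_lit 557066) (nat_lit 9) (.e (nat_lit 307) (nat_lit 22) .nil))))) .nil)) 
(.lf (nat_lit 141608) (.g (nat_lit 2438) (.e (nat_lit 32787) (nat_lit 9) (.e (nat_lit 65610) (nat_lit 10) (.e (nat_lit 344129) (nat_lit 26) (.e (nat_lit 557087) (nat_lit 11) (.e (nat_lit 24589) (nat_lit 0) (.e (nat_lit 6148) (nat_lit 332) (.e (nat_lit 1139) (nat_lit 84) .nil))))))) (.g (nat_lit 5) .nil .nil)))) (.nd (nat_lit 5) 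
(.lf (nat_lit 141592) (.g (nat_lit 999) (.e (nat_lit 32787) (nat_lit 9) (.e (nat_lit 65610) (nat_lit 10) (.e (nat_lit 344129) (nat_lit 26) (.e (nat_lit 557087) (nat_lit 11) .nil)))) .nil)) 
(.lf (nat_lit 141624) (.g (nat_lit 3044) (.e (nat_lit 32787) (nat_lit 9) (.e (nat_lit 65617) (nat_lit 10) (.e (nat_lit 344126) (nat_lit 25) (.e (nat_lit 548889) (nat_lit 9) (.e (nat_lit 65585) (nat_lit 7) (.e (nat_lit 319519) (nat_lit 12) .nil)))))) (.g (nat_lit 0) .nil .nil)))))) (.nd (nat_lit 3) (.nd (nat_lit 4) (.nd (nat_lit 5) 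
(.lf (nat_lit 141572) (.g (nat_lit 3502) (.e (nat_lit 32787) (nat_lit 9) (.e (nat_lit 65610) (nat_lit 10) (.e (nat_lit 344129) (nat_lit 26) (.e (nat_lit 557066) (nat_lit 9) (.e (nat_lit 297) (nat_lit 22) (.e (nat_lit 344077) (nat_lit 13) (.e (nat_lit 1140) (nat_lit 84) .nil))))))) (.g (nat_lit 0) .nil .nil))) 
(.lf (nat_lit 141604) (.g (nat_lit 2751) (.e (nat_lit 32787) (nat_lit 9) (.e (nat_lit 65610) (nat_lit 10) (.e (nat_lit 344129) (nat_lit 26) (.e (nat_lit 557087) (nat_lit 11) (.e (nat_lit 24584) (nat_lit 0) (.e (nat_lit 6146) (nat_lit 332) (.e (nat_lit 1141) (nat_lit 84) .nil))))))) (.g (nat_lit 5) .nil .nil)))) (.nd (nat_lit 5) 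
(.lf (nat_lit 141588) (.g (nat_lit 2532) (.e (nat_lit 32787) (nat_lit 9) (.e (nat_lit 65610) (nat_lit 10) (.e (nat_lit 344129) (nat_lit 26) (.e (nat_lit 557074) (nat_lit 9) (.e (nat_lit 7936) (nat_lit 22) (.e (nat_lit 344080) (nat_lit 13) (.e (nat_lit 1141) (nat_lit 84) .nil))))))) (.g (nat_lit 4) .nil .nil))) 
(.lf (nat_lit 141620) (.g (nat_lit 448) (.e (nat_lit 32787) (nat_lit 9) (.e (nat_lit 65617) (nat_lit 10) (.e (nat_lit 344126) (nat_lit 25) .nil))) .nil)))) (.nd (nat_lit 4) (.nd (nat_lit 5) 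
(.lf (nat_lit 141580) (.g (nat_lit 1915) (.e (nat_lit 32787) (nat_lit 9) (.e (nat_lit 65610) (nat_lit 10) (.e (nat_lit 344129) (nat_lit 26) (.e (nat_lit 557066) (nat_lit 9) (.e (nat_lit 307) (nat_lit 22) (.e (nat_lit 344077) (nat_lit 13) (.e (nat_lit 1141) (nat_lit 84) .nil))))))) (.g (nat_lit 4) .nil .nil))) 
(.lf (nat_lit 141612) (.g (nat_lit 2514) (.e (nat_lit 32787) (nat_lit 9) (.e (nat_lit 65610) (nat_lit 10) (.e (nat_lit 344129) (nat_lit 26) (.e (nat_lit 557087) (nat_lit 11) (.e (nat_lit 24589) (nat_lit 0) (.e (nat_lit 6150) (nat_lit 332) (.e (nat_lit 1141) (nat_lit 84) .nil))))))) (.g (nat_lit 5) .nil .nil)))) (.nd (nat_lit 5) 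
(.lf (nat_lit 141596) (.g (nat_lit 2334) (.e (nat_lit 32787) (nat_lit 9) (.e (nat_lit 65610) (nat_lit 10) (.e (nat_lit 344129) (nat_lit 26) (.e (nat_lit 557087) (nat_lit 11) (.e (nat_lit 24584) (nat_lit 0) (.e (nat_lit 6113) (nat_lit 332) (.e (nat_lit 1133) (nat_lit 84) .nil))))))) (.g (nat_lit 5) .nil .nil))) 
(.lf (nat_lit 141628) (.g (nat_lit 438) (.e (nat_lit 32787) (nat_lit 9) (.e (nat_lit 65617) (nat_lit 10) (.e (nat_lit 344127) (nat_lit 26) .nil))) .nil)))))) (.nd (nat_lit 2) (.nd (nat_lit 3) (.nd (nat_lit 4) (.nd (nat_lit 5) 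
(.lf (nat_lit 141570) (.g (nat_lit 2601) (.e (nat_lit 32787) (nat_lit 9) (.e (nat_lit 65610) (nat_lit 10) (.e (nat_lit 344129) (nat_lit 26) (.e (nat_lit 557066) (nat_lit 9) (.e (nat_lit 297) (nat_lit 22) (.e (nat_lit 344074) (nat_lit 13) (.e (nat_lit 1140) (nat_lit 84) .nil))))))) (.g (nat_lit 4) .nil .nil))) 
(.lf (nat_lit 141602) (.g (nat_lit 2207) (.e (nat_lit 32787) (nat_lit 9) (.e (nat_lit 65610) (nat_lit 10) (.e (nat_lit 344129) (nat_lit 26) (.e (nat_lit 557087) (nat_lit 11) (.e (nat_lit 24584) (nat_lit 0) (.e (nat_lit 6138) (nat_lit 332) (.e (nat_lit 1135) (nat_lit 84) .nil))))))) (.g (nat_lit 4) .nil .nil)))) (.nd (nat_lit 5) 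
(.lf (nat_lit 141586) (.g (nat_lit 2202) (.e (nat_lit 32787) (nat_lit 9) (.e (nat_lit 65610) (nat_lit 10) (.e (nat_lit 344129) (nat_lit 26) (.e (nat_lit 557074) (nat_lit 9) (.e (nat_lit 7936) (nat_lit 22) .nil))))) .nil)) 
(.lf (nat_lit 141618) (.g (nat_lit 934) (.e (nat_lit 32787) (nat_lit 9) (.e (nat_lit 65617) (nat_lit 10) (.e (nat_lit 344124) (nat_lit 25) (.e (nat_lit 548890) (nat_lit 10) .nil)))) .nil)))) (.nd (nat_lit 4) (.nd (nat_lit 5) 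
(.lf (nat_lit 141578) (.g (nat_lit 1802) (.e (nat_lit 32787) (nat_lit 9) (.e (nat_lit 65610) (nat_lit 10) (.e (nat_lit 344129) (nat_lit 26) (.e (nat_lit 557066) (nat_lit 9) (.e (nat_lit 307) (nat_lit 22) (.e (nat_lit 344077) (nat_lit 13) (.e (nat_lit 1139) (nat_lit 84) .nil))))))) (.g (nat_lit 4) .nil .nil))) 
(.lf (nat_lit 141610) (.g (nat_lit 2404) (.e (nat_lit 32787) (nat_lit 9) (.e (nat_lit 65610) (nat_lit 10) (.e (nat_lit 344129) (nat_lit 26) (.e (nat_lit 557087) (nat_lit 11) (.e (nat_lit 24589) (nat_lit 0) (.e (nat_lit 6149) (nat_lit 332) (.e (nat_lit 1141) (nat_lit 84) .nil))))))) (.g (nat_lit 5) .nil .nil)))) (.nd (nat_lit 5) 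
(.lf (nat_lit 141594) (.g (nat_lit 3197) (.e (nat_lit 32787) (nat_lit 9) (.e (nat_lit 65610) (nat_lit 10) (.e (nat_lit 344129) (nat_lit 26) (.e (nat_lit 557087) (nat_lit 11) (.e (nat_lit 24584) (nat_lit 0) (.e (nat_lit 6092) (nat_lit 332) (.e (nat_lit 1140) (nat_lit 84) .nil))))))) (.g (nat_lit 6) .nil .nil))) 
(.lf (nat_lit 141626) (.g (nat_lit 1956) (.e (nat_lit 32787) (nat_lit 9) (.e (nat_lit 65617) (nat_lit 10) (.e (nat_lit 344126) (nat_lit 25) (.e (nat_lit 548890) (nat_lit 10) (.e (nat_lit 73792) (nat_lit 45) (.e (nat_lit 1140) (nat_lit 84) .nil)))))) (.g (nat_lit 0) .nil .nil)))))) (.nd (nat_lit 3) (.nd (nat_lit 4) (.nd (nat_lit 5) 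
(.lf (nat_lit 141574) (.g (nat_lit 2627) (.e (nat_lit 32787) (nat_lit 9) (.e (nat_lit 65610) (nat_lit 10) (.e (nat_lit 344129) (nat_lit 26) (.e (nat_lit 557066) (nat_lit 9) (.e (nat_lit 297) (nat_lit 22) (.e (nat_lit 344080) (nat_lit 13) (.e (nat_lit 1141) (nat_lit 84) .nil))))))) (.g (nat_lit 4) .nil .nil))) 
(.lf (nat_lit 141606) (.g (nat_lit 2628) (.e (nat_lit 32787) (nat_lit 9) (.e (nat_lit 65610) (nat_lit 10) (.e (nat_lit 344129) (nat_lit 26) (.e (nat_lit 557087) (nat_lit 11) (.e (nat_lit 24588) (nat_lit 0) (.e (nat_lit 6092) (nat_lit 332) (.e (nat_lit 1139) (nat_lit 84) .nil))))))) (.g (nat_lit 5) .nil .nil)))) (.nd (nat_lit 5) 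
(.lf (nat_lit 141590) (.g (nat_lit 2423) (.e (nat_lit 32787) (nat_lit 9) (.e (nat_lit 65610) (nat_lit 10) (.e (nat_lit 344129) (nat_lit 26) (.e (nat_lit 557074) (nat_lit 9) (.e (nat_lit 7936) (nat_lit 22) (.e (nat_lit 344081) (nat_lit 13) (.e (nat_lit 1141) (nat_lit 84) .nil))))))) (.g (nat_lit 4) .nil .nil))) 
(.lf (nat_lit 141622) (.g (nat_lit 3511) (.e (nat_lit 32787) (nat_lit 9) (.e (nat_lit 65617) (nat_lit 10) (.e (nat_lit 344126) (nat_lit 25) (.e (nat_lit 548889) (nat_lit 9) (.e (nat_lit 65583) (nat_lit 7) (.e (nat_lit 319519) (nat_lit 12) .nil)))))) (.g (nat_lit 0) .nil .nil))))) (.nd (nat_lit 4) (.nd (nat_lit 5) 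
(.lf (nat_lit 141582) (.g (nat_lit 1465) (.e (nat_lit 32787) (nat_lit 9) (.e (nat_lit 65610) (nat_lit 10) (.e (nat_lit 344129) (nat_lit 26) (.e (nat_lit 557067) (nat_lit 9) .nil)))) .nil)) 
(.lf (nat_lit 141614) (.g (nat_lit 2337) (.e (nat_lit 32787) (nat_lit 9) (.e (nat_lit 65610) (nat_lit 10) (.e (nat_lit 344129) (nat_lit 26) (.e (nat_lit 557087) (nat_lit 11) (.e (nat_lit 24620) (nat_lit 8) .nil))))) .nil))) (.nd (nat_lit 5) 
(.lf (nat_lit 141598) (.g (nat_lit 1787) (.e (nat_lit 32787) (nat_lit 9) (.e (nat_lit 65610) (nat_lit 10) (.e (nat_lit 344129) (nat_lit 26) (.e (nat_lit 557087) (nat_lit 11) (.e (nat_lit 24584) (nat_lit 0) (.e (nat_lit 6123) (nat_lit 332) (.e (nat_lit 1140) (nat_lit 84) .nil))))))) (.g (nat_lit 4) .nil .nil))) 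
(.lf (nat_lit 141630) (.g (nat_lit 1896) (.e (nat_lit 32787) (nat_lit 9) (.e (nat_lit 65617) (nat_lit 10) (.e (nat_lit 344127) (nat_lit 26) (.e (nat_lit 557070) (nat_lit 9) (.e (nat_lit 296) (nat_lit 22) .nil))))) .nil))))))) (.nd (nat_lit 1) (.nd (nat_lit 2) (.nd (nat_lit 3) (.nd (nat_lit 4) (.nd (nat_lit 5) 
(.lf (nat_lit 141569) (.g (nat_lit 2399) (.e (nat_lit 32787) (nat_lit 9) (.e (nat_lit 65610) (nat_lit 10) (.e (nat_lit 344129) (nat_lit 26) (.e (nat_lit 557066) (nat_lit 9) (.e (nat_lit 297) (nat_lit 22) .nil))))) .nil)) 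
(.lf (nat_lit 141601) (.g (nat_lit 1718) (.e (nat_lit 32787) (nat_lit 9) (.e (nat_lit 65610) (nat_lit 10) (.e (nat_lit 344129) (nat_lit 26) (.e (nat_lit 557087) (nat_lit 11) (.e (nat_lit 24584) (nat_lit 0) (.e (nat_lit 6135) (nat_lit 332) (.e (nat_lit 1139) (nat_lit 84) .nil))))))) (.g (nat_lit 4) .nil .nil)))) (.nd (nat_lit 5) 
(.lf (nat_lit 141585) (.g (nat_lit 1470) (.e (nat_lit 32787) (nat_lit 9) (.e (nat_lit 65610) (nat_lit 10) (.e (nat_lit 344129) (nat_lit 26) (.e (nat_lit 557074) (nat_lit 9) .nil)))) .nil)) 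
(.lf (nat_lit 141617) (.g (nat_lit 2140) (.e (nat_lit 32787) (nat_lit 9) (.e (nat_lit 65617) (nat_lit 10) (.e (nat_lit 344115) (nat_lit 20) (.e (nat_lit 507923) (nat_lit 6) (.e (nat_lit 286740) (nat_lit 7) (.e (nat_lit 319519) (nat_lit 12) .nil)))))) (.g (nat_lit 6) .nil .nil))))) (.nd (nat_lit 4) (.nd (nat_lit 5) 
(.lf (nat_lit 141577) (.g (nat_lit 1846) (.e (nat_lit 32787) (nat_lit 9) (.e (nat_lit 65610) (nat_lit 10) (.e (nat_lit 344129) (nat_lit 26) (.e (nat_lit 557066) (nat_lit 9) (.e (nat_lit 307) (nat_lit 22) (.e (nat_lit 344076) (nat_lit 13) (.e (nat_lit 1139) (nat_lit 84) .nil))))))) (.g (nat_lit 4) .nil .nil))) 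
(.lf (nat_lit 141609) (.g (nat_lit 2475) (.e (nat_lit 32787) (nat_lit 9) (.e (nat_lit 65610) (nat_lit 10) (.e (nat_lit 344129) (nat_lit 26) (.e (nat_lit 557087) (nat_lit 11) (.e (nat_lit 24589) (nat_lit 0) (.e (nat_lit 6149) (nat_lit 332) (.e (nat_lit 1140) (nat_lit 84) .nil))))))) (.g (nat_lit 5) .nil .nil)))) (.nd (nat_lit 5) 
(.lf (nat_lit 141593) (.g (nat_lit 1525) (.e (nat_lit 32787) (nat_lit 9) (.e (nat_lit 65610) (nat_lit 10) (.e (nat_lit 344129) (nat_lit 26) (.e (nat_lit 557087) (nat_lit 11) (.e (nat_lit 24584) (nat_lit 0) .nil))))) .nil)) 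
(.lf (nat_lit 141625) (.g (nat_lit 1787) (.e (nat_lit 32787) (nat_lit 9) (.e (nat_lit 65617) (nat_lit 10) (.e (nat_lit 344126) (nat_lit 25) (.e (nat_lit 548890) (nat_lit 10) (.e (nat_lit 73788) (nat_lit 45) (.e (nat_lit 1141) (nat_lit 84) .nil)))))) (.g (nat_lit 0) .nil .nil)))))) (.nd (nat_lit 3) (.nd (nat_lit 4) (.nd (nat_lit 5) 
(.lf (nat_lit 141573) (.g (nat_lit 2452) (.e (nat_lit 32787) (nat_lit 9) (.e (nat_lit 65610) (nat_lit 10) (.e (nat_lit 344129) (nat_lit 26) (.e (nat_lit 557066) (nat_lit 9) (.e (nat_lit 297) (nat_lit 22) (.e (nat_lit 344080) (nat_lit 13) (.e (nat_lit 1140) (nat_lit 84) .nil))))))) (.g (nat_lit 4) .nil .nil))) 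
(.lf (nat_lit 141605) (.g (nat_lit 2848) (.e (nat_lit 32787) (nat_lit 9) (.e (nat_lit 65610) (nat_lit 10) (.e (nat_lit 344129) (nat_lit 26) (.e (nat_lit 557087) (nat_lit 11) (.e (nat_lit 24584) (nat_lit 0) (.e (nat_lit 6151) (nat_lit 332) (.e (nat_lit 1141) (nat_lit 84) .nil))))))) (.g (nat_lit 5) .nil .nil)))) (.nd (nat_lit 5) 
(.lf (nat_lit 141589) (.g (nat_lit 2424) (.e (nat_lit 32787) (nat_lit 9) (.e (nat_lit 65610) (nat_lit 10) (.e (nat_lit 344129) (nat_lit 26) (.e (nat_lit 557074) (nat_lit 9) (.e (nat_lit 7936) (nat_lit 22) (.e (nat_lit 344081) (nat_lit 13) (.e (nat_lit 1140) (nat_lit 84) .nil))))))) (.g (nat_lit 4) .nil .nil))) 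
(.lf (nat_lit 141621) (.g (nat_lit 2387) (.e (nat_lit 32787) (nat_lit 9) (.e (nat_lit 65617) (nat_lit 10) (.e (nat_lit 344126) (nat_lit 25) (.e (nat_lit 548889) (nat_lit 9) (.e (nat_lit 65582) (nat_lit 7) .nil))))) .nil)))) (.nd (nat_lit 4) (.nd (nat_lit 5) 
(.lf (nat_lit 141581) (.g (nat_lit 1946) (.e (nat_lit 32787) (nat_lit 9) (.e (nat_lit 65610) (nat_lit 10) (.e (nat_lit 344129) (nat_lit 26) (.e (nat_lit 557066) (nat_lit 9) (.e (nat_lit 307) (nat_lit 22) (.e (nat_lit 344080) (nat_lit 13) (.e (nat_lit 1140) (nat_lit 84) .nil))))))) (.g (nat_lit 4) .nil .nil))) 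
(.lf (nat_lit 141613) (.g (nat_lit 2762) (.e (nat_lit 32787) (nat_lit 9) (.e (nat_lit 65610) (nat_lit 10) (.e (nat_lit 344129) (nat_lit 26) (.e (nat_lit 557087) (nat_lit 11) (.e (nat_lit 24617) (nat_lit 7) (.e (nat_lit 327424) (nat_lit 12) .nil)))))) (.g (nat_lit 5) .nil .nil)))) (.nd (nat_lit 5) 
(.lf (nat_lit 141597) (.g (nat_lit 2862) (.e (nat_lit 32787) (nat_lit 9) (.e (nat_lit 65610) (nat_lit 10) (.e (nat_lit 344129) (nat_lit 26) (.e (nat_lit 557087) (nat_lit 11) (.e (nat_lit 24584) (nat_lit 0) (.e (nat_lit 6113) (nat_lit 332) (.e (nat_lit 7936) (nat_lit 84) .nil))))))) (.g (nat_lit 6) .nil .nil))) 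
(.lf (nat_lit 141629) (.g (nat_lit 1862) (.e (nat_lit 32787) (nat_lit 9) (.e (nat_lit 65617) (nat_lit 10) (.e (nat_lit 344127) (nat_lit 26) (.e (nat_lit 557066) (nat_lit 9) (.e (nat_lit 297) (nat_lit 22) .nil))))) .nil)))))) (.nd (nat_lit 2) (.nd (nat_lit 3) (.nd (nat_lit 4) (.nd (nat_lit 5) 
(.lf (nat_lit 141571) (.g (nat_lit 2485) (.e (nat_lit 32787) (nat_lit 9) (.e (nat_lit 65610) (nat_lit 10) (.e (nat_lit 344129) (nat_lit 26) (.e (nat_lit 557066) (nat_lit 9) (.e (nat_lit 297) (nat_lit 22) (.e (nat_lit 344074) (nat_lit 13) (.e (nat_lit 1141) (nat_lit 84) .nil))))))) (.g (nat_lit 4) .nil .nil))) 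
(.lf (nat_lit 141603) (.g (nat_lit 2709) (.e (nat_lit 32787) (nat_lit 9) (.e (nat_lit 65610) (nat_lit 10) (.e (nat_lit 344129) (nat_lit 26) (.e (nat_lit 557087) (nat_lit 11) (.e (nat_lit 24584) (nat_lit 0) (.e (nat_lit 6145) (nat_lit 332) (.e (nat_lit 1141) (nat_lit 84) .nil))))))) (.g (nat_lit 5) .nil .nil)))) (.nd (nat_lit 5) 
(.lf (nat_lit 141587) (.g (nat_lit 2355) (.e (nat_lit 32787) (nat_lit 9) (.e (nat_lit 65610) (nat_lit 10) (.e (nat_lit 344129) (nat_lit 26) (.e (nat_lit 557074) (nat_lit 9) (.e (nat_lit 7936) (nat_lit 22) (.e (nat_lit 344080) (nat_lit 13) (.e (nat_lit 1140) (nat_lit 84) .nil))))))) (.g (nat_lit 4) .nil .nil))) 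
(.lf (nat_lit 141619) (.g (nat_lit 1145) (.e (nat_lit 32787) (nat_lit 9) (.e (nat_lit 65617) (nat_lit 10) (.e (nat_lit 344124) (nat_lit 25) (.e (nat_lit 548890) (nat_lit 10) (.e (nat_lit 73789) (nat_lit 45) .nil))))) .nil)))) (.nd (nat_lit 4) (.nd (nat_lit 5) 
(.lf (nat_lit 141579) (.g (nat_lit 1896) (.e (nat_lit 32787) (nat_lit 9) (.e (nat_lit 65610) (nat_lit 10) (.e (nat_lit 344129) (nat_lit 26) (.e (nat_lit 557066) (nat_lit 9) (.e (nat_lit 307) (nat_lit 22) (.e (nat_lit 344077) (nat_lit 13) (.e (nat_lit 1140) (nat_lit 84) .nil))))))) (.g (nat_lit 4) .nil .nil))) 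
(.lf (nat_lit 141611) (.g (nat_lit 2122) (.e (nat_lit 32787) (nat_lit 9) (.e (nat_lit 65610) (nat_lit 10) (.e (nat_lit 344129) (nat_lit 26) (.e (nat_lit 557087) (nat_lit 11) (.e (nat_lit 24589) (nat_lit 0) (.e (nat_lit 6150) (nat_lit 332) (.e (nat_lit 1140) (nat_lit 84) .nil))))))) (.g (nat_lit 4) .nil .nil)))) (.nd (nat_lit 5) 
(.lf (nat_lit 141595) (.g (nat_lit 2010) (.e (nat_lit 32787) (nat_lit 9) (.e (nat_lit 65610) (nat_lit 10) (.e (nat_lit 344129) (nat_lit 26) (.e (nat_lit 557087) (nat_lit 11) (.e (nat_lit 24584) (nat_lit 0) (.e (nat_lit 6109) (nat_lit 332) (.e (nat_lit 1135) (nat_lit 84) .nil))))))) (.g (nat_lit 4) .nil .nil))) 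
(.lf (nat_lit 141627) (.g (nat_lit 1919) (.e (nat_lit 32787) (nat_lit 9) (.e (nat_lit 65617) (nat_lit 10) (.e (nat_lit 344126) (nat_lit 25) (.e (nat_lit 548890) (nat_lit 10) (.e (nat_lit 73792) (nat_lit 45) (.e (nat_lit 1141) (nat_lit 84) .nil)))))) (.g (nat_lit 0) .nil .nil)))))) (.nd (nat_lit 3) (.nd (nat_lit 4) (.nd (nat_lit 5) 
(.lf (nat_lit 141575) (.g (nat_lit 2374) (.e (nat_lit 32787) (nat_lit 9) (.e (nat_lit 65610) (nat_lit 10) (.e (nat_lit 344129) (nat_lit 26) (.e (nat_lit 557066) (nat_lit 9) (.e (nat_lit 304) (nat_lit 22) .nil))))) .nil)) 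
(.lf (nat_lit 141607) (.g (nat_lit 3148) (.e (nat_lit 32787) (nat_lit 9) (.e (nat_lit 65610) (nat_lit 10) (.e (nat_lit 344129) (nat_lit 26) (.e (nat_lit 557087) (nat_lit 11) (.e (nat_lit 24588) (nat_lit 0) (.e (nat_lit 6136) (nat_lit 332) (.e (nat_lit 1140) (nat_lit 84) .nil))))))) (.g (nat_lit 0) .nil .nil)))) (.nd (nat_lit 5) 
(.lf (nat_lit 141591) (.g (nat_lit 1449) (.e (nat_lit 32787) (nat_lit 9) (.e (nat_lit 65610) (nat_lit 10) (.e (nat_lit 344129) (nat_lit 26) (.e (nat_lit 557084) (nat_lit 10) .nil)))) .nil)) 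
(.lf (nat_lit 141623) (.g (nat_lit 3376) (.e (nat_lit 32787) (nat_lit 9) (.e (nat_lit 65617) (nat_lit 10) (.e (nat_lit 344126) (nat_lit 25) (.e (nat_lit 548889) (nat_lit 9) (.e (nat_lit 65584) (nat_lit 7) (.e (nat_lit 319519) (nat_lit 12) .nil)))))) (.g (nat_lit 0) .nil .nil))))) (.nd (nat_lit 4) (.nd (nat_lit 5) 
(.lf (nat_lit 141583) (.g (nat_lit 1547) (.e (nat_lit 32787) (nat_lit 9) (.e (nat_lit 65610) (nat_lit 10) (.e (nat_lit 344129) (nat_lit 26) (.e (nat_lit 557070) (nat_lit 9) .nil)))) .nil)) 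
(.lf (nat_lit 141615) (.g (nat_lit 3232) (.e (nat_lit 32787) (nat_lit 9) (.e (nat_lit 65611) (nat_lit 10) (.e (nat_lit 344126) (nat_lit 25) (.e (nat_lit 548889) (nat_lit 9) (.e (nat_lit 65583) (nat_lit 7) (.e (nat_lit 319519) (nat_lit 12) .nil)))))) (.g (nat_lit 0) .nil .nil)))) (.nd (nat_lit 5) 
(.lf (nat_lit 141599) (.g (nat_lit 2898) (.e (nat_lit 32787) (nat_lit 9) (.e (nat_lit 65610) (nat_lit 10) (.e (nat_lit 344129) (nat_lit 26) (.e (nat_lit 557087) (nat_lit 11) (.e (nat_lit 24584) (nat_lit 0) (.e (nat_lit 6123) (nat_lit 332) (.e (nat_lit 1141) (nat_lit 84) .nil))))))) (.g (nat_lit 5) .nil .nil))) 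
(.lf (nat_lit 141631) (.g (nat_lit 909) (.e (nat_lit 32787) (nat_lit 9) (.e (nat_lit 65617) (nat_lit 10) (.e (nat_lit 344127) (nat_lit 26) (.e (nat_lit 557080) (nat_lit 9) .nil)))) .nil))))))))

noncomputable def tv1880 : DT := (.nd (nat_lit 0) (.nd (nat_lit 1) (.nd (nat_lit 2) (.nd (nat_lit 3) (.nd (nat_lit 4) (.nd (nat_lit 5) 
(.lf (nat_lit 141632) (.g (nat_lit 303) (.e (nat_lit 32787) (nat_lit 9) (.e (nat_lit 65617) (nat_lit 10) (.e (nat_lit 344130) (nat_lit 26) .nil))) .nil)) 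
(.lf (nat_lit 141664) (.g (nat_lit 2392) (.e (nat_lit 32787) (nat_lit 9) (.e (nat_lit 65617) (nat_lit 10) (.e (nat_lit 344130) (nat_lit 26) (.e (nat_lit 557087) (nat_lit 11) (.e (nat_lit 24584) (nat_lit 0) (.e (nat_lit 6138) (nat_lit 332) (.e (nat_lit 1135) (nat_lit 84) .nil))))))) (.g (nat_lit 4) .nil .nil)))) (.nd (nat_lit 5) 
(.lf (nat_lit 141648) (.g (nat_lit 1757) (.e (nat_lit 32787) (nat_lit 9) (.e (nat_lit 65617) (nat_lit 10) (.e (nat_lit 344130) (nat_lit 26) (.e (nat_lit 557067) (nat_lit 9) (.e (nat_lit 290) (nat_lit 21) (.e (nat_lit 336070) (nat_lit 8) (.e (nat_lit 327711) (nat_lit 12) .nil))))))) (.g (nat_lit 4) .nil .nil))) 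
(.lf (nat_lit 141680) (.g (nat_lit 1869) (.e (nat_lit 32787) (nat_lit 9) (.e (nat_lit 65617) (nat_lit 10) (.e (nat_lit 344132) (nat_lit 26) (.e (nat_lit 557072) (nat_lit 9) (.e (nat_lit 7936) (nat_lit 22) (.e (nat_lit 344076) (nat_lit 13) (.e (nat_lit 1140) (nat_lit 84) .nil))))))) (.g (nat_lit 4) .nil .nil))))) (.nd (nat_lit 4) (.nd (nat_lit 5) 
(.lf (nat_lit 141640) (.g (nat_lit 2133) (.e (nat_lit 32787) (nat_lit 9) (.e (nat_lit 65617) (nat_lit 10) (.e (nat_lit 344130) (nat_lit 26) (.e (nat_lit 557066) (nat_lit 9) (.e (nat_lit 304) (nat_lit 22) .nil))))) .nil)) 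
(.lf (nat_lit 141672) (.g (nat_lit 2217) (.e (nat_lit 32787) (nat_lit 9) (.e (nat_lit 65617) (nat_lit 10) (.e (nat_lit 344130) (nat_lit 26) (.e (nat_lit 557087) (nat_lit 11) (.e (nat_lit 24620) (nat_lit 8) (.e (nat_lit 327711) (nat_lit 12) .nil)))))) (.g (nat_lit 4) .nil .nil)))) (.nd (nat_lit 5) 
(.lf (nat_lit 141656) (.g (nat_lit 1844) (.e (nat_lit 32787) (nat_lit 9) (.e (nat_lit 65617) (nat_lit 10) (.e (nat_lit 344130) (nat_lit 26) (.e (nat_lit 557074) (nat_lit 9) (.e (nat_lit 7936) (nat_lit 22) .nil))))) .nil)) 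
(.lf (nat_lit 141688) (.g (nat_lit 1286) (.e (nat_lit 32787) (nat_lit 9) (.e (nat_lit 65617) (nat_lit 10) (.e (nat_lit 344133) (nat_lit 26) (.e (nat_lit 557068) (nat_lit 9) .nil)))) .nil))))) (.nd (nat_lit 3) (.nd (nat_lit 4) (.nd (nat_lit 5) 
(.lf (nat_lit 141636) (.g (nat_lit 1893) (.e (nat_lit 32787) (nat_lit 9) (.e (nat_lit 65617) (nat_lit 10) (.e (nat_lit 344130) (nat_lit 26) (.e (nat_lit 557065) (nat_lit 9) (.e (nat_lit 307) (nat_lit 22) .nil))))) .nil)) 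
(.lf (nat_lit 141668) (.g (nat_lit 2466) (.e (nat_lit 32787) (nat_lit 9) (.e (nat_lit 65617) (nat_lit 10) (.e (nat_lit 344130) (nat_lit 26) (.e (nat_lit 557087) (nat_lit 11) (.e (nat_lit 24591) (nat_lit 0) .nil))))) .nil))) (.nd (nat_lit 5) 
(.lf (nat_lit 141652) (.g (nat_lit 1596) (.e (nat_lit 32787) (nat_lit 9) (.e (nat_lit 65617) (nat_lit 10) (.e (nat_lit 344130) (nat_lit 26) (.e (nat_lit 557074) (nat_lit 9) (.e (nat_lit 284) (nat_lit 21) (.e (nat_lit 335933) (nat_lit 0) (.e (nat_lit 6149) (nat_lit 332) (.e (nat_lit 1140) (nat_lit 84) .nil)))))))) (.g (nat_lit 4) .nil .nil))) 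
(.lf (nat_lit 141684) (.g (nat_lit 2030) (.e (nat_lit 32787) (nat_lit 9) (.e (nat_lit 65617) (nat_lit 10) (.e (nat_lit 344133) (nat_lit 26) (.e (nat_lit 557065) (nat_lit 9) (.e (nat_lit 305) (nat_lit 22) .nil))))) .nil)))) (.nd (nat_lit 4) (.nd (nat_lit 5) 
(.lf (nat_lit 141644) (.g (nat_lit 1743) (.e (nat_lit 32787) (nat_lit 9) (.e (nat_lit 65617) (nat_lit 10) (.e (nat_lit 344130) (nat_lit 26) (.e (nat_lit 557067) (nat_lit 9) (.e (nat_lit 290) (nat_lit 21) .nil))))) .nil)) 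
(.lf (nat_lit 141676) (.g (nat_lit 2059) (.e (nat_lit 32787) (nat_lit 9) (.e (nat_lit 65617) (nat_lit 10) (.e (nat_lit 344132) (nat_lit 26) (.e (nat_lit 557070) (nat_lit 9) (.e (nat_lit 7936) (nat_lit 22) .nil))))) .nil))) (.nd (nat_lit 5) 
(.lf (nat_lit 141660) (.g (nat_lit 2195) (.e (nat_lit 32787) (nat_lit 9) (.e (nat_lit 65617) (nat_lit 10) (.e (nat_lit 344130) (nat_lit 26) (.e (nat_lit 557087) (nat_lit 11) (.e (nat_lit 24584) (nat_lit 0) (.e (nat_lit 6109) (nat_lit 332) (.e (nat_lit 1135) (nat_lit 84) .nil))))))) (.g (nat_lit 4) .nil .nil))) 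
(.lf (nat_lit 141692) (.g (nat_lit 1885) (.e (nat_lit 32787) (nat_lit 9) (.e (nat_lit 65617) (nat_lit 10) (.e (nat_lit 344133) (nat_lit 26) (.e (nat_lit 557068) (nat_lit 9) (.e (nat_lit 290) (nat_lit 21) (.e (nat_lit 335934) (nat_lit 0) (.e (nat_lit 6149) (nat_lit 332) (.e (nat_lit 1141) (nat_lit 84) .nil)))))))) (.g (nat_lit 4) .nil .nil))))))) 
(.nd (nat_lit 2) (.nd (nat_lit 3) (.nd (nat_lit 4) (.nd (nat_lit 5) 
(.lf (nat_lit 141634) (.g (nat_lit 1000) (.e (nat_lit 32787) (nat_lit 9) (.e (nat_lit 65617) (nat_lit 10) (.e (nat_lit 344130) (nat_lit 26) (.e (nat_lit 557065) (nat_lit 9) .nil)))) .nil)) 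
(.lf (nat_lit 141666) (.g (nat_lit 2965) (.e (nat_lit 32787) (nat_lit 9) (.e (nat_lit 65617) (nat_lit 10) (.e (nat_lit 344130) (nat_lit 26) (.e (nat_lit 557087) (nat_lit 11) (.e (nat_lit 24584) (nat_lit 0) (.e (nat_lit 6151) (nat_lit 332) (.e (nat_lit 1141) (nat_lit 84) .nil))))))) (.g (nat_lit 5) .nil .nil)))) (.nd (nat_lit 5) 
(.lf (nat_lit 141650) (.g (nat_lit 1705) (.e (nat_lit 32787) (nat_lit 9) (.e (nat_lit 65617) (nat_lit 10) (.e (nat_lit 344130) (nat_lit 26) (.e (nat_lit 557070) (nat_lit 9) (.e (nat_lit 7936) (nat_lit 22) .nil))))) .nil)) 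
(.lf (nat_lit 141682) (.g (nat_lit 1249) (.e (nat_lit 32787) (nat_lit 9) (.e (nat_lit 65617) (nat_lit 10) (.e (nat_lit 344133) (nat_lit 26) (.e (nat_lit 557064) (nat_lit 9) .nil)))) .nil)))) (.nd (nat_lit 4) (.nd (nat_lit 5) 
(.lf (nat_lit 141642) (.g (nat_lit 1805) (.e (nat_lit 32787) (nat_lit 9) (.e (nat_lit 65617) (nat_lit 10) (.e (nat_lit 344130) (nat_lit 26) (.e (nat_lit 557066) (nat_lit 9) (.e (nat_lit 307) (nat_lit 22) (.e (nat_lit 344080) (nat_lit 13) (.e (nat_lit 1141) (nat_lit 84) .nil))))))) (.g (nat_lit 4) .nil .nil))) 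
(.lf (nat_lit 141674) (.g (nat_lit 395) (.e (nat_lit 32787) (nat_lit 9) (.e (nat_lit 65617) (nat_lit 10) (.e (nat_lit 344132) (nat_lit 26) .nil))) .nil))) (.nd (nat_lit 5) 
(.lf (nat_lit 141658) (.g (nat_lit 1892) (.e (nat_lit 32787) (nat_lit 9) (.e (nat_lit 65617) (nat_lit 10) (.e (nat_lit 344130) (nat_lit 26) (.e (nat_lit 557074) (nat_lit 9) (.e (nat_lit 7936) (nat_lit 22) (.e (nat_lit 344081) (nat_lit 13) (.e (nat_lit 1141) (nat_lit 84) .nil))))))) (.g (nat_lit 4) .nil .nil))) 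
(.lf (nat_lit 141690) (.g (nat_lit 1865) (.e (nat_lit 32787) (nat_lit 9) (.e (nat_lit 65617) (nat_lit 10) (.e (nat_lit 344133) (nat_lit 26) (.e (nat_lit 557068) (nat_lit 9) (.e (nat_lit 290) (nat_lit 21) (.e (nat_lit 335933) (nat_lit 0) (.e (nat_lit 6149) (nat_lit 332) (.e (nat_lit 1141) (nat_lit 84) .nil)))))))) (.g (nat_lit 4) .nil .nil)))))) (.nd (nat_lit 3) (.nd (nat_lit 4) (.nd (nat_lit 5) 
(.lf (nat_lit 141638) (.g (nat_lit 1944) (.e (nat_lit 32787) (nat_lit 9) (.e (nat_lit 65617) (nat_lit 10) (.e (nat_lit 344130) (nat_lit 26) (.e (nat_lit 557066) (nat_lit 9) (.e (nat_lit 297) (nat_lit 22) (.e (nat_lit 344074) (nat_lit 13) (.e (nat_lit 1140) (nat_lit 84) .nil))))))) (.g (nat_lit 4) .nil .nil))) 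
(.lf (nat_lit 141670) (.g (nat_lit 2496) (.e (nat_lit 32787) (nat_lit 9) (.e (nat_lit 65617) (nat_lit 10) (.e (nat_lit 344130) (nat_lit 26) (.e (nat_lit 557087) (nat_lit 11) (.e (nat_lit 24617) (nat_lit 7) (.e (nat_lit 327424) (nat_lit 12) .nil)))))) (.g (nat_lit 5) .nil .nil)))) (.nd (nat_lit 5) 
(.lf (nat_lit 141654) (.g (nat_lit 1603) (.e (nat_lit 32787) (nat_lit 9) (.e (nat_lit 65617) (nat_lit 10) (.e (nat_lit 344130) (nat_lit 26) (.e (nat_lit 557074) (nat_lit 9) (.e (nat_lit 284) (nat_lit 21) (.e (nat_lit 335934) (nat_lit 0) (.e (nat_lit 6149) (nat_lit 332) (.e (nat_lit 1140) (nat_lit 84) .nil)))))))) (.g (nat_lit 4) .nil .nil))) 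
(.lf (nat_lit 141686) (.g (nat_lit 1914) (.e (nat_lit 32787) (nat_lit 9) (.e (nat_lit 65617) (nat_lit 10) (.e (nat_lit 344133) (nat_lit 26) (.e (nat_lit 557066) (nat_lit 9) (.e (nat_lit 297) (nat_lit 22) .nil))))) .nil)))) (.nd (nat_lit 4) (.nd (nat_lit 5) 
(.lf (nat_lit 141646) (.g (nat_lit 1801) (.e (nat_lit 32787) (nat_lit 9) (.e (nat_lit 65617) (nat_lit 10) (.e (nat_lit 344130) (nat_lit 26) (.e (nat_lit 557067) (nat_lit 9) (.e (nat_lit 290) (nat_lit 21) (.e (nat_lit 335933) (nat_lit 0) (.e (nat_lit 6149) (nat_lit 332) (.e (nat_lit 1141) (nat_lit 84) .nil)))))))) (.g (nat_lit 4) .nil .nil))) 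
(.lf (nat_lit 141678) (.g (nat_lit 1762) (.e (nat_lit 32787) (nat_lit 9) (.e (nat_lit 65617) (nat_lit 10) (.e (nat_lit 344132) (nat_lit 26) (.e (nat_lit 557072) (nat_lit 9) (.e (nat_lit 290) (nat_lit 21) .nil))))) .nil))) (.nd (nat_lit 5) 
(.lf (nat_lit 141662) (.g (nat_lit 3112) (.e (nat_lit 32787) (nat_lit 9) (.e (nat_lit 65617) (nat_lit 10) (.e (nat_lit 344130) (nat_lit 26) (.e (nat_lit 557087) (nat_lit 11) (.e (nat_lit 24584) (nat_lit 0) (.e (nat_lit 6113) (nat_lit 332) (.e (nat_lit 7936) (nat_lit 84) .nil))))))) (.g (nat_lit 6) .nil .nil))) 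
(.lf (nat_lit 141694) (.g (nat_lit 2641) (.e (nat_lit 32787) (nat_lit 9) (.e (nat_lit 65617) (nat_lit 10) (.e (nat_lit 344133) (nat_lit 26) (.e (nat_lit 557070) (nat_lit 9) (.e (nat_lit 296) (nat_lit 22) (.e (nat_lit 344076) (nat_lit 13) (.e (nat_lit 1140) (nat_lit 84) .nil))))))) (.g (nat_lit 4) .nil .nil)))))))) 
(.nd (nat_lit 1) (.nd (nat_lit 2) (.nd (nat_lit 3) (.nd (nat_lit 4) (.nd (nat_lit 5) 
(.lf (nat_lit 141633) (.g (nat_lit 1088) (.e (nat_lit 32787) (nat_lit 9) (.e (nat_lit 65617) (nat_lit 10) (.e (nat_lit 344130) (nat_lit 26) (.e (nat_lit 557064) (nat_lit 9) .nil)))) .nil)) 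
(.lf (nat_lit 141665) (.g (nat_lit 2879) (.e (nat_lit 32787) (nat_lit 9) (.e (nat_lit 65617) (nat_lit 10) (.e (nat_lit 344130) (nat_lit 26) (.e (nat_lit 557087) (nat_lit 11) (.e (nat_lit 24584) (nat_lit 0) (.e (nat_lit 6146) (nat_lit 332) (.e (nat_lit 1141) (nat_lit 84) .nil))))))) (.g (nat_lit 5) .nil .nil)))) (.nd (nat_lit 5) 
(.lf (nat_lit 141649) (.g (nat_lit 2034) (.e (nat_lit 32787) (nat_lit 9) (.e (nat_lit 65617) (nat_lit 10) (.e (nat_lit 344130) (nat_lit 26) (.e (nat_lit 557070) (nat_lit 9) (.e (nat_lit 296) (nat_lit 22) .nil))))) .nil)) 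
(.lf (nat_lit 141681) (.g (nat_lit 1192) (.e (nat_lit 32787) (nat_lit 9) (.e (nat_lit 65617) (nat_lit 10) (.e (nat_lit 344132) (nat_lit 26) (.e (nat_lit 557073) (nat_lit 9) .nil)))) .nil)))) (.nd (nat_lit 4) (.nd (nat_lit 5) 
(.lf (nat_lit 141641) (.g (nat_lit 1766) (.e (nat_lit 32787) (nat_lit 9) (.e (nat_lit 65617) (nat_lit 10) (.e (nat_lit 344130) (nat_lit 26) (.e (nat_lit 557066) (nat_lit 9) (.e (nat_lit 307) (nat_lit 22) .nil))))) .nil)) 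
(.lf (nat_lit 141673) (.g (nat_lit 2908) (.e (nat_lit 32787) (nat_lit 9) (.e (nat_lit 65617) (nat_lit 10) (.e (nat_lit 344130) (nat_lit 26) (.e (nat_lit 557087) (nat_lit 11) (.e (nat_lit 24622) (nat_lit 8) (.e (nat_lit 327711) (nat_lit 12) .nil)))))) (.g (nat_lit 4) .nil .nil)))) (.nd (nat_lit 5) 
(.lf (nat_lit 141657) (.g (nat_lit 1884) (.e (nat_lit 32787) (nat_lit 9) (.e (nat_lit 65617) (nat_lit 10) (.e (nat_lit 344130) (nat_lit 26) (.e (nat_lit 557074) (nat_lit 9) (.e (nat_lit 7936) (nat_lit 22) (.e (nat_lit 344081) (nat_lit 13) (.e (nat_lit 1140) (nat_lit 84) .nil))))))) (.g (nat_lit 4) .nil .nil))) 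
(.lf (nat_lit 141689) (.g (nat_lit 1933) (.e (nat_lit 32787) (nat_lit 9) (.e (nat_lit 65617) (nat_lit 10) (.e (nat_lit 344133) (nat_lit 26) (.e (nat_lit 557068) (nat_lit 9) (.e (nat_lit 290) (nat_lit 21) (.e (nat_lit 335933) (nat_lit 0) (.e (nat_lit 6149) (nat_lit 332) (.e (nat_lit 1140) (nat_lit 84) .nil)))))))) (.g (nat_lit 4) .nil .nil)))))) (.nd (nat_lit 3) (.nd (nat_lit 4) (.nd (nat_lit 5) 
(.lf (nat_lit 141637) (.g (nat_lit 1871) (.e (nat_lit 32787) (nat_lit 9) (.e (nat_lit 65617) (nat_lit 10) (.e (nat_lit 344130) (nat_lit 26) (.e (nat_lit 557066) (nat_lit 9) (.e (nat_lit 297) (nat_lit 22) .nil))))) .nil)) 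
(.lf (nat_lit 141669) (.g (nat_lit 2953) (.e (nat_lit 32787) (nat_lit 9) (.e (nat_lit 65617) (nat_lit 10) (.e (nat_lit 344130) (nat_lit 26) (.e (nat_lit 557087) (nat_lit 11) (.e (nat_lit 24617) (nat_lit 7) (.e (nat_lit 319517) (nat_lit 12) .nil)))))) (.g (nat_lit 0) .nil .nil)))) (.nd (nat_lit 5) 
(.lf (nat_lit 141653) (.g (nat_lit 1522) (.e (nat_lit 32787) (nat_lit 9) (.e (nat_lit 65617) (nat_lit 10) (.e (nat_lit 344130) (nat_lit 26) (.e (nat_lit 557074) (nat_lit 9) (.e (nat_lit 284) (nat_lit 21) (.e (nat_lit 335933) (nat_lit 0) (.e (nat_lit 6149) (nat_lit 332) (.e (nat_lit 1141) (nat_lit 84) .nil)))))))) (.g (nat_lit 4) .nil .nil))) 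
(.lf (nat_lit 141685) (.g (nat_lit 1357) (.e (nat_lit 32787) (nat_lit 9) (.e (nat_lit 65617) (nat_lit 10) (.e (nat_lit 344133) (nat_lit 26) (.e (nat_lit 557066) (nat_lit 9) .nil)))) .nil)))) (.nd (nat_lit 4) (.nd (nat_lit 5) 
(.lf (nat_lit 141645) (.g (nat_lit 1875) (.e (nat_lit 32787) (nat_lit 9) (.e (nat_lit 65617) (nat_lit 10) (.e (nat_lit 344130) (nat_lit 26) (.e (nat_lit 557067) (nat_lit 9) (.e (nat_lit 290) (nat_lit 21) (.e (nat_lit 335933) (nat_lit 0) (.e (nat_lit 6149) (nat_lit 332) (.e (nat_lit 1140) (nat_lit 84) .nil)))))))) (.g (nat_lit 4) .nil .nil))) 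
(.lf (nat_lit 141677) (.g (nat_lit 1324) (.e (nat_lit 32787) (nat_lit 9) (.e (nat_lit 65617) (nat_lit 10) (.e (nat_lit 344132) (nat_lit 26) (.e (nat_lit 557072) (nat_lit 9) .nil)))) .nil))) (.nd (nat_lit 5) 
(.lf (nat_lit 141661) (.g (nat_lit 2653) (.e (nat_lit 32787) (nat_lit 9) (.e (nat_lit 65617) (nat_lit 10) (.e (nat_lit 344130) (nat_lit 26) (.e (nat_lit 557087) (nat_lit 11) (.e (nat_lit 24584) (nat_lit 0) (.e (nat_lit 6113) (nat_lit 332) (.e (nat_lit 1133) (nat_lit 84) .nil))))))) (.g (nat_lit 5) .nil .nil))) 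
(.lf (nat_lit 141693) (.g (nat_lit 1821) (.e (nat_lit 32787) (nat_lit 9) (.e (nat_lit 65617) (nat_lit 10) (.e (nat_lit 344133) (nat_lit 26) (.e (nat_lit 557070) (nat_lit 9) .nil)))) .nil)))))) (.nd (nat_lit 2) (.nd (nat_lit 3) (.nd (nat_lit 4) (.nd (nat_lit 5) 
(.lf (nat_lit 141635) (.g (nat_lit 1892) (.e (nat_lit 32787) (nat_lit 9) (.e (nat_lit 65617) (nat_lit 10) (.e (nat_lit 344130) (nat_lit 26) (.e (nat_lit 557065) (nat_lit 9) (.e (nat_lit 304) (nat_lit 22) .nil))))) .nil)) 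
(.lf (nat_lit 141667) (.g (nat_lit 2532) (.e (nat_lit 32787) (nat_lit 9) (.e (nat_lit 65617) (nat_lit 10) (.e (nat_lit 344130) (nat_lit 26) (.e (nat_lit 557087) (nat_lit 11) (.e (nat_lit 24588) (nat_lit 0) (.e (nat_lit 6092) (nat_lit 332) (.e (nat_lit 1139) (nat_lit 84) .nil))))))) (.g (nat_lit 5) .nil .nil)))) (.nd (nat_lit 5) 
(.lf (nat_lit 141651) (.g (nat_lit 1101) (.e (nat_lit 32787) (nat_lit 9) (.e (nat_lit 65617) (nat_lit 10) (.e (nat_lit 344130) (nat_lit 26) (.e (nat_lit 557074) (nat_lit 9) .nil)))) .nil)) 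
(.lf (nat_lit 141683) (.g (nat_lit 1274) (.e (nat_lit 32787) (nat_lit 9) (.e (nat_lit 65617) (nat_lit 10) (.e (nat_lit 344133) (nat_lit 26) (.e (nat_lit 557065) (nat_lit 9) .nil)))) .nil)))) (.nd (nat_lit 4) (.nd (nat_lit 5) 
(.lf (nat_lit 141643) (.g (nat_lit 1088) (.e (nat_lit 32787) (nat_lit 9) (.e (nat_lit 65617) (nat_lit 10) (.e (nat_lit 344130) (nat_lit 26) (.e (nat_lit 557067) (nat_lit 9) .nil)))) .nil)) 
(.lf (nat_lit 141675) (.g (nat_lit 2245) (.e (nat_lit 32787) (nat_lit 9) (.e (nat_lit 65617) (nat_lit 10) (.e (nat_lit 344132) (nat_lit 26) (.e (nat_lit 557070) (nat_lit 9) (.e (nat_lit 296) (nat_lit 22) .nil))))) .nil))) (.nd (nat_lit 5) 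
(.lf (nat_lit 141659) (.g (nat_lit 1703) (.e (nat_lit 32787) (nat_lit 9) (.e (nat_lit 65617) (nat_lit 10) (.e (nat_lit 344130) (nat_lit 26) (.e (nat_lit 557087) (nat_lit 11) (.e (nat_lit 24584) (nat_lit 0) .nil))))) .nil)) 
(.lf (nat_lit 141691) (.g (nat_lit 1953) (.e (nat_lit 32787) (nat_lit 9) (.e (nat_lit 65617) (nat_lit 10) (.e (nat_lit 344133) (nat_lit 26) (.e (nat_lit 557068) (nat_lit 9) (.e (nat_lit 290) (nat_lit 21) (.e (nat_lit 335934) (nat_lit 0) (.e (nat_lit 6149) (nat_lit 332) (.e (nat_lit 1140) (nat_lit 84) .nil)))))))) (.g (nat_lit 4) .nil .nil)))))) (.nd (nat_lit 3) (.nd (nat_lit 4) (.nd (nat_lit 5) 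
(.lf (nat_lit 141639) (.g (nat_lit 1949) (.e (nat_lit 32787) (nat_lit 9) (.e (nat_lit 65617) (nat_lit 10) (.e (nat_lit 344130) (nat_lit 26) (.e (nat_lit 557066) (nat_lit 9) (.e (nat_lit 297) (nat_lit 22) (.e (nat_lit 344080) (nat_lit 13) (.e (nat_lit 1141) (nat_lit 84) .nil))))))) (.g (nat_lit 4) .nil .nil))) 
(.lf (nat_lit 141671) (.g (nat_lit 2322) (.e (nat_lit 32787) (nat_lit 9) (.e (nat_lit 65617) (nat_lit 10) (.e (nat_lit 344130) (nat_lit 26) (.e (nat_lit 557087) (nat_lit 11) (.e (nat_lit 24619) (nat_lit 8) .nil))))) .nil))) (.nd (nat_lit 5) 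
(.lf (nat_lit 141655) (.g (nat_lit 1529) (.e (nat_lit 32787) (nat_lit 9) (.e (nat_lit 65617) (nat_lit 10) (.e (nat_lit 344130) (nat_lit 26) (.e (nat_lit 557074) (nat_lit 9) (.e (nat_lit 284) (nat_lit 21) (.e (nat_lit 335934) (nat_lit 0) (.e (nat_lit 6149) (nat_lit 332) (.e (nat_lit 1141) (nat_lit 84) .nil)))))))) (.g (nat_lit 4) .nil .nil))) 
(.lf (nat_lit 141687) (.g (nat_lit 2544) (.e (nat_lit 32787) (nat_lit 9) (.e (nat_lit 65617) (nat_lit 10) (.e (nat_lit 344133) (nat_lit 26) (.e (nat_lit 557066) (nat_lit 9) (.e (nat_lit 297) (nat_lit 22) (.e (nat_lit 344076) (nat_lit 13) (.e (nat_lit 1141) (nat_lit 84) .nil))))))) (.g (nat_lit 5) .nil .nil))))) (.nd (nat_lit 4) (.nd (nat_lit 5) 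
(.lf (nat_lit 141647) (.g (nat_lit 1821) (.e (nat_lit 32787) (nat_lit 9) (.e (nat_lit 65617) (nat_lit 10) (.e (nat_lit 344130) (nat_lit 26) (.e (nat_lit 557067) (nat_lit 9) (.e (nat_lit 290) (nat_lit 21) (.e (nat_lit 335934) (nat_lit 0) (.e (nat_lit 6149) (nat_lit 332) (.e (nat_lit 1141) (nat_lit 84) .nil)))))))) (.g (nat_lit 4) .nil .nil))) 
(.lf (nat_lit 141679) (.g (nat_lit 1765) (.e (nat_lit 32787) (nat_lit 9) (.e (nat_lit 65617) (nat_lit 10) (.e (nat_lit 344132) (nat_lit 26) (.e (nat_lit 557072) (nat_lit 9) (.e (nat_lit 290) (nat_lit 21) (.e (nat_lit 335934) (nat_lit 0) (.e (nat_lit 6149) (nat_lit 332) (.e (nat_lit 1140) (nat_lit 84) .nil)))))))) (.g (nat_lit 4) .nil .nil)))) (.nd (nat_lit 5) 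
(.lf (nat_lit 141663) (.g (nat_lit 1886) (.e (nat_lit 32787) (nat_lit 9) (.e (nat_lit 65617) (nat_lit 10) (.e (nat_lit 344130) (nat_lit 26) (.e (nat_lit 557087) (nat_lit 11) (.e (nat_lit 24584) (nat_lit 0) (.e (nat_lit 6135) (nat_lit 332) (.e (nat_lit 1139) (nat_lit 84) .nil))))))) (.g (nat_lit 4) .nil .nil))) 
(.lf (nat_lit 141695) (.g (nat_lit 2716) (.e (nat_lit 32787) (nat_lit 9) (.e (nat_lit 65617) (nat_lit 10) (.e (nat_lit 344133) (nat_lit 26) (.e (nat_lit 557070) (nat_lit 9) (.e (nat_lit 296) (nat_lit 22) (.e (nat_lit 344076) (nat_lit 13) (.e (nat_lit 1141) (nat_lit 84) .nil))))))) (.g (nat_lit 4) .nil .nil)))))))))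

noncomputable def tv1881 : DT := (.nd (nat_lit 0) (.nd (nat_lit 1) (.nd (nat_lit 2) (.nd (nat_lit 3) (.nd (nat_lit 4) (.nd (nat_lit 5) (.nd (nat_lit 6) 
(.lf (nat_lit 141696) (.g (nat_lit 2758) (.e (nat_lit 32787) (nat_lit 9) (.e (nat_lit 65617) (nat_lit 10) (.e (nat_lit 344133) (nat_lit 26) (.e (nat_lit 557070) (nat_lit 9) (.e (nat_lit 296) (nat_lit 22) (.e (nat_lit 344077) (nat_lit 13) (.e (nat_lit 1139) (nat_lit 84) .nil))))))) (.g (nat_lit 4) .nil .nil))) 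
(.lf (nat_lit 141760) (.g (nat_lit 2291) (.e (nat_lit 32787) (nat_lit 9) (.e (nat_lit 65622) (nat_lit 12) (.e (nat_lit 385074) (nat_lit 31) (.e (nat_lit 573487) (nat_lit 14) (.e (nat_lit 73788) (nat_lit 45) (.e (nat_lit 1140) (nat_lit 84) .nil)))))) (.g (nat_lit 4) .nil .nil)))) (.nd (nat_lit 6) 
(.lf (nat_lit 141728) (.g (nat_lit 2464) (.e (nat_lit 32787) (nat_lit 9) (.e (nat_lit 65619) (nat_lit 10) (.e (nat_lit 344126) (nat_lit 25) (.e (nat_lit 548889) (nat_lit 9) (.e (nat_lit 65582) (nat_lit 7) .nil))))) .nil)) 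
(.lf (nat_lit 141792) (.g (nat_lit 4037) (.e (nat_lit 32787) (nat_lit 9) (.e (nat_lit 65624) (nat_lit 12) (.e (nat_lit 385074) (nat_lit 31) (.e (nat_lit 573482) (nat_lit 13) (.e (nat_lit 65584) (nat_lit 7) (.e (nat_lit 319519) (nat_lit 12) .nil)))))) (.g (nat_lit 5) .nil .nil))))) (.nd (nat_lit 5) (.nd (nat_lit 6) 
(.lf (nat_lit 141712) (.g (nat_lit 2178) (.e (nat_lit 32787) (nat_lit 9) (.e (nat_lit 65619) (nat_lit 10) (.e (nat_lit 344117) (nat_lit 21) (.e (nat_lit 516098) (nat_lit 0) (.e (nat_lit 7581) (nat_lit 405) (.e (nat_lit 57714) (nat_lit 176) (.e (nat_lit 1140) (nat_lit 84) .nil))))))) (.g (nat_lit 4) .nil .nil))) 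
(.lf (nat_lit 141776) (.g (nat_lit 3366) (.e (nat_lit 32787) (nat_lit 9) (.e (nat_lit 65623) (nat_lit 12) (.e (nat_lit 385074) (nat_lit 31) (.e (nat_lit 573487) (nat_lit 14) (.e (nat_lit 73789) (nat_lit 45) (.e (nat_lit 1141) (nat_lit 84) .nil)))))) (.g (nat_lit 4) .nil .nil)))) (.nd (nat_lit 6) 
(.lf (nat_lit 141744) (.g (nat_lit 2372) (.e (nat_lit 32787) (nat_lit 9) (.e (nat_lit 65619) (nat_lit 10) (.e (nat_lit 344129) (nat_lit 26) (.e (nat_lit 557066) (nat_lit 9) (.e (nat_lit 307) (nat_lit 22) (.e (nat_lit 344076) (nat_lit 13) (.e (nat_lit 1140) (nat_lit 84) .nil))))))) (.g (nat_lit 4) .nil .nil))) 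
(.lf (nat_lit 141808) (.g (nat_lit 2741) (.e (nat_lit 32787) (nat_lit 9) (.e (nat_lit 65624) (nat_lit 12) (.e (nat_lit 385074) (nat_lit 31) (.e (nat_lit 573489) (nat_lit 14) (.e (nat_lit 73792) (nat_lit 45) (.e (nat_lit 1140) (nat_lit 84) .nil)))))) (.g (nat_lit 6) .nil .nil)))))) (.nd (nat_lit 4) (.nd (nat_lit 5) (.nd (nat_lit 6) 
(.lf (nat_lit 141704) (.g (nat_lit 3136) (.e (nat_lit 32787) (nat_lit 9) (.e (nat_lit 65619) (nat_lit 10) (.e (nat_lit 344117) (nat_lit 21) (.e (nat_lit 516097) (nat_lit 0) (.e (nat_lit 7581) (nat_lit 405) (.e (nat_lit 57714) (nat_lit 176) (.e (nat_lit 1141) (nat_lit 84) .nil))))))) (.g (nat_lit 5) .nil .nil))) 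
(.lf (nat_lit 141768) (.g (nat_lit 1600) (.e (nat_lit 32787) (nat_lit 9) (.e (nat_lit 65622) (nat_lit 12) (.e (nat_lit 385074) (nat_lit 31) (.e (nat_lit 581376) (nat_lit 14) .nil)))) .nil))) (.nd (nat_lit 6) 
(.lf (nat_lit 141736) (.g (nat_lit 1636) (.e (nat_lit 32787) (nat_lit 9) (.e (nat_lit 65619) (nat_lit 10) (.e (nat_lit 344129) (nat_lit 26) (.e (nat_lit 557066) (nat_lit 9) (.e (nat_lit 232) (nat_lit 21) (.e (nat_lit 336060) (nat_lit 7) (.e (nat_lit 327424) (nat_lit 12) .nil))))))) (.g (nat_lit 4) .nil .nil))) 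
(.lf (nat_lit 141800) (.g (nat_lit 3260) (.e (nat_lit 32787) (nat_lit 9) (.e (nat_lit 65624) (nat_lit 12) (.e (nat_lit 385074) (nat_lit 31) (.e (nat_lit 573487) (nat_lit 14) (.e (nat_lit 73789) (nat_lit 45) (.e (nat_lit 1140) (nat_lit 84) .nil)))))) (.g (nat_lit 0) .nil .nil))))) (.nd (nat_lit 5) (.nd (nat_lit 6) 
(.lf (nat_lit 141720) (.g (nat_lit 3343) (.e (nat_lit 32787) (nat_lit 9) (.e (nat_lit 65619) (nat_lit 10) (.e (nat_lit 344117) (nat_lit 21) (.e (nat_lit 516106) (nat_lit 0) (.e (nat_lit 6986) (nat_lit 377) (.e (nat_lit 2403) (nat_lit 157) (.e (nat_lit 4921) (nat_lit 287) (.e (nat_lit 1140) (nat_lit 84) .nil)))))))) (.g (nat_lit 5) .nil .nil))) 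
(.lf (nat_lit 141784) (.g (nat_lit 2587) (.e (nat_lit 32787) (nat_lit 9) (.e (nat_lit 65623) (nat_lit 12) (.e (nat_lit 385074) (nat_lit 31) (.e (nat_lit 573489) (nat_lit 14) (.e (nat_lit 73789) (nat_lit 45) .nil))))) .nil))) (.nd (nat_lit 6) 
(.lf (nat_lit 141752) (.g (nat_lit 2278) (.e (nat_lit 32787) (nat_lit 9) (.e (nat_lit 65622) (nat_lit 12) (.e (nat_lit 385072) (nat_lit 31) (.e (nat_lit 573487) (nat_lit 14) (.e (nat_lit 73792) (nat_lit 45) .nil))))) .nil)) 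
(.lf (nat_lit 141816) (.g (nat_lit 1269) (.e (nat_lit 32787) (nat_lit 9) (.e (nat_lit 65628) (nat_lit 14) (.e (nat_lit 401414) (nat_lit 0) (.e (nat_lit 3124) (nat_lit 193) .nil)))) .nil)))))) (.nd (nat_lit 3) (.nd (nat_lit 4) (.nd (nat_lit 5) (.nd (nat_lit 6) 
(.lf (nat_lit 141700) (.g (nat_lit 3259) (.e (nat_lit 32787) (nat_lit 9) (.e (nat_lit 65617) (nat_lit 10) (.e (nat_lit 344133) (nat_lit 26) (.e (nat_lit 557087) (nat_lit 11) (.e (nat_lit 24588) (nat_lit 0) .nil))))) .nil)) 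
(.lf (nat_lit 141764) (.g (nat_lit 2259) (.e (nat_lit 32787) (nat_lit 9) (.e (nat_lit 65622) (nat_lit 12) (.e (nat_lit 385074) (nat_lit 31) (.e (nat_lit 573489) (nat_lit 14) (.e (nat_lit 73786) (nat_lit 45) .nil))))) .nil))) (.nd (nat_lit 6) 
(.lf (nat_lit 141732) (.g (nat_lit 1778) (.e (nat_lit 32787) (nat_lit 9) (.e (nat_lit 65619) (nat_lit 10) (.e (nat_lit 344126) (nat_lit 25) (.e (nat_lit 548890) (nat_lit 10) (.e (nat_lit 73789) (nat_lit 45) (.e (nat_lit 1139) (nat_lit 84) .nil)))))) (.g (nat_lit 4) .nil .nil))) 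
(.lf (nat_lit 141796) (.g (nat_lit 2124) (.e (nat_lit 32787) (nat_lit 9) (.e (nat_lit 65624) (nat_lit 12) (.e (nat_lit 385074) (nat_lit 31) (.e (nat_lit 573486) (nat_lit 14) .nil)))) .nil)))) (.nd (nat_lit 5) (.nd (nat_lit 6) 
(.lf (nat_lit 141716) (.g (nat_lit 2142) (.e (nat_lit 32787) (nat_lit 9) (.e (nat_lit 65619) (nat_lit 10) (.e (nat_lit 344117) (nat_lit 21) (.e (nat_lit 516098) (nat_lit 0) (.e (nat_lit 7583) (nat_lit 405) (.e (nat_lit 57714) (nat_lit 176) (.e (nat_lit 1140) (nat_lit 84) .nil))))))) (.g (nat_lit 4) .nil .nil))) 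
(.lf (nat_lit 141780) (.g (nat_lit 3227) (.e (nat_lit 32787) (nat_lit 9) (.e (nat_lit 65623) (nat_lit 12) (.e (nat_lit 385074) (nat_lit 31) (.e (nat_lit 573488) (nat_lit 14) (.e (nat_lit 73788) (nat_lit 45) .nil))))) .nil))) (.nd (nat_lit 6) 
(.lf (nat_lit 141748) (.g (nat_lit 2509) (.e (nat_lit 32787) (nat_lit 9) (.e (nat_lit 65619) (nat_lit 10) (.e (nat_lit 344129) (nat_lit 26) (.e (nat_lit 557087) (nat_lit 11) (.e (nat_lit 24584) (nat_lit 0) (.e (nat_lit 6135) (nat_lit 332) (.e (nat_lit 1141) (nat_lit 84) .nil))))))) (.g (nat_lit 4) .nil .nil))) 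
(.lf (nat_lit 141812) (.g (nat_lit 1015) (.e (nat_lit 32787) (nat_lit 9) (.e (nat_lit 65628) (nat_lit 14) (.e (nat_lit 401410) (nat_lit 0) (.e (nat_lit 3262) (nat_lit 198) .nil)))) .nil))))) (.nd (nat_lit 4) (.nd (nat_lit 5) (.nd (nat_lit 6) 
(.lf (nat_lit 141708) (.g (nat_lit 2256) (.e (nat_lit 32787) (nat_lit 9) (.e (nat_lit 65619) (nat_lit 10) (.e (nat_lit 344117) (nat_lit 21) (.e (nat_lit 516097) (nat_lit 0) (.e (nat_lit 7583) (nat_lit 405) (.e (nat_lit 57717) (nat_lit 176) (.e (nat_lit 1140) (nat_lit 84) .nil))))))) (.g (nat_lit 4) .nil .nil))) 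
(.lf (nat_lit 141772) (.g (nat_lit 3574) (.e (nat_lit 32787) (nat_lit 9) (.e (nat_lit 65623) (nat_lit 12) (.e (nat_lit 385074) (nat_lit 31) (.e (nat_lit 573482) (nat_lit 13) (.e (nat_lit 65584) (nat_lit 7) .nil))))) .nil))) (.nd (nat_lit 6) 
(.lf (nat_lit 141740) (.g (nat_lit 2017) (.e (nat_lit 32787) (nat_lit 9) (.e (nat_lit 65619) (nat_lit 10) (.e (nat_lit 344129) (nat_lit 26) (.e (nat_lit 557066) (nat_lit 9) (.e (nat_lit 297) (nat_lit 22) (.e (nat_lit 344076) (nat_lit 13) (.e (nat_lit 1139) (nat_lit 84) .nil))))))) (.g (nat_lit 4) .nil .nil))) 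
(.lf (nat_lit 141804) (.g (nat_lit 2239) (.e (nat_lit 32787) (nat_lit 9) (.e (nat_lit 65624) (nat_lit 12) (.e (nat_lit 385074) (nat_lit 31) (.e (nat_lit 573487) (nat_lit 14) (.e (nat_lit 81664) (nat_lit 45) (.e (nat_lit 1139) (nat_lit 84) .nil)))))) (.g (nat_lit 4) .nil .nil))))) (.nd (nat_lit 5) (.nd (nat_lit 6) 
(.lf (nat_lit 141724) (.g (nat_lit 2047) (.e (nat_lit 32787) (nat_lit 9) (.e (nat_lit 65619) (nat_lit 10) (.e (nat_lit 344117) (nat_lit 21) (.e (nat_lit 516106) (nat_lit 0) (.e (nat_lit 7008) (nat_lit 377) (.e (nat_lit 2768) (nat_lit 177) (.e (nat_lit 278561) (nat_lit 12) .nil))))))) (.g (nat_lit 4) .nil .nil))) 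
(.lf (nat_lit 141788) (.g (nat_lit 2526) (.e (nat_lit 32787) (nat_lit 9) (.e (nat_lit 65624) (nat_lit 12) (.e (nat_lit 385072) (nat_lit 31) (.e (nat_lit 573487) (nat_lit 14) (.e (nat_lit 73792) (nat_lit 45) .nil))))) .nil))) (.nd (nat_lit 6) 
(.lf (nat_lit 141756) (.g (nat_lit 2425) (.e (nat_lit 32787) (nat_lit 9) (.e (nat_lit 65622) (nat_lit 12) (.e (nat_lit 385074) (nat_lit 31) (.e (nat_lit 573484) (nat_lit 13) (.e (nat_lit 65543) (nat_lit 0) (.e (nat_lit 6146) (nat_lit 332) (.e (nat_lit 1140) (nat_lit 84) .nil))))))) (.g (nat_lit 4) .nil .nil))) 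
(.lf (nat_lit 141820) (.g (nat_lit 1644) (.e (nat_lit 32787) (nat_lit 9) (.e (nat_lit 65628) (nat_lit 14) (.e (nat_lit 401425) (nat_lit 2) (.e (nat_lit 196628) (nat_lit 9) .nil)))) .nil))))))) (.nd (nat_lit 2) (.nd (nat_lit 3) (.nd (nat_lit 4) (.nd (nat_lit 5) (.nd (nat_lit 6) 
(.lf (nat_lit 141698) (.g (nat_lit 1438) (.e (nat_lit 32787) (nat_lit 9) (.e (nat_lit 65617) (nat_lit 10) (.e (nat_lit 344133) (nat_lit 26) (.e (nat_lit 557073) (nat_lit 9) .nil)))) .nil)) 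
(.lf (nat_lit 141762) (.g (nat_lit 1970) (.e (nat_lit 32787) (nat_lit 9) (.e (nat_lit 65622) (nat_lit 12) (.e (nat_lit 385074) (nat_lit 31) (.e (nat_lit 573487) (nat_lit 14) (.e (nat_lit 81664) (nat_lit 45) (.e (nat_lit 1139) (nat_lit 84) .nil)))))) (.g (nat_lit 4) .nil .nil)))) (.nd (nat_lit 6) 
(.lf (nat_lit 141730) (.g (nat_lit 3735) (.e (nat_lit 32787) (nat_lit 9) (.e (nat_lit 65619) (nat_lit 10) (.e (nat_lit 344126) (nat_lit 25) (.e (nat_lit 548889) (nat_lit 9) (.e (nat_lit 65586) (nat_lit 7) (.e (nat_lit 319519) (nat_lit 12) .nil)))))) (.g (nat_lit 0) .nil .nil))) 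
(.lf (nat_lit 141794) (.g (nat_lit 2845) (.e (nat_lit 32787) (nat_lit 9) (.e (nat_lit 65624) (nat_lit 12) (.e (nat_lit 385074) (nat_lit 31) (.e (nat_lit 573484) (nat_lit 13) (.e (nat_lit 65584) (nat_lit 7) .nil))))) .nil)))) (.nd (nat_lit 5) (.nd (nat_lit 6) 
(.lf (nat_lit 141714) (.g (nat_lit 2871) (.e (nat_lit 32787) (nat_lit 9) (.e (nat_lit 65619) (nat_lit 10) (.e (nat_lit 344117) (nat_lit 21) (.e (nat_lit 516098) (nat_lit 0) (.e (nat_lit 7581) (nat_lit 405) (.e (nat_lit 57718) (nat_lit 176) (.e (nat_lit 1141) (nat_lit 84) .nil))))))) (.g (nat_lit 5) .nil .nil))) 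
(.lf (nat_lit 141778) (.g (nat_lit 2789) (.e (nat_lit 32787) (nat_lit 9) (.e (nat_lit 65623) (nat_lit 12) (.e (nat_lit 385074) (nat_lit 31) (.e (nat_lit 573487) (nat_lit 14) (.e (nat_lit 73791) (nat_lit 45) (.e (nat_lit 1141) (nat_lit 84) .nil)))))) (.g (nat_lit 4) .nil .nil)))) (.nd (nat_lit 6) 
(.lf (nat_lit 141746) (.g (nat_lit 2467) (.e (nat_lit 32787) (nat_lit 9) (.e (nat_lit 65619) (nat_lit 10) (.e (nat_lit 344129) (nat_lit 26) (.e (nat_lit 557087) (nat_lit 11) (.e (nat_lit 24584) (nat_lit 0) .nil))))) .nil)) 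
(.lf (nat_lit 141810) (.g (nat_lit 482) (.e (nat_lit 32787) (nat_lit 9) (.e (nat_lit 65627) (nat_lit 13) (.e (nat_lit 401152) (nat_lit 15) .nil))) .nil))))) (.nd (nat_lit 4) (.nd (nat_lit 5) (.nd (nat_lit 6) 
(.lf (nat_lit 141706) (.g (nat_lit 2180) (.e (nat_lit 32787) (nat_lit 9) (.e (nat_lit 65619) (nat_lit 10) (.e (nat_lit 344117) (nat_lit 21) (.e (nat_lit 516097) (nat_lit 0) (.e (nat_lit 7583) (nat_lit 405) .nil))))) .nil)) 
(.lf (nat_lit 141770) (.g (nat_lit 2246) (.e (nat_lit 32787) (nat_lit 9) (.e (nat_lit 65623) (nat_lit 12) (.e (nat_lit 385072) (nat_lit 31) (.e (nat_lit 573488) (nat_lit 14) (.e (nat_lit 73788) (nat_lit 45) .nil))))) .nil))) (.nd (nat_lit 6) 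
(.lf (nat_lit 141738) (.g (nat_lit 2191) (.e (nat_lit 32787) (nat_lit 9) (.e (nat_lit 65619) (nat_lit 10) (.e (nat_lit 344129) (nat_lit 26) (.e (nat_lit 557066) (nat_lit 9) (.e (nat_lit 297) (nat_lit 22) (.e (nat_lit 344074) (nat_lit 13) (.e (nat_lit 1140) (nat_lit 84) .nil))))))) (.g (nat_lit 4) .nil .nil))) 
(.lf (nat_lit 141802) (.g (nat_lit 2708) (.e (nat_lit 32787) (nat_lit 9) (.e (nat_lit 65624) (nat_lit 12) (.e (nat_lit 385074) (nat_lit 31) (.e (nat_lit 573487) (nat_lit 14) (.e (nat_lit 73791) (nat_lit 45) (.e (nat_lit 1140) (nat_lit 84) .nil)))))) (.g (nat_lit 0) .nil .nil))))) (.nd (nat_lit 5) (.nd (nat_lit 6) 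
(.lf (nat_lit 141722) (.g (nat_lit 3240) (.e (nat_lit 32787) (nat_lit 9) (.e (nat_lit 65619) (nat_lit 10) (.e (nat_lit 344117) (nat_lit 21) (.e (nat_lit 516106) (nat_lit 0) (.e (nat_lit 6986) (nat_lit 377) (.e (nat_lit 2403) (nat_lit 157) (.e (nat_lit 4962) (nat_lit 287) (.e (nat_lit 1139) (nat_lit 84) .nil)))))))) (.g (nat_lit 5) .nil .nil))) 
(.lf (nat_lit 141786) (.g (nat_lit 2640) (.e (nat_lit 32787) (nat_lit 9) (.e (nat_lit 65623) (nat_lit 12) (.e (nat_lit 385074) (nat_lit 31) (.e (nat_lit 573489) (nat_lit 14) (.e (nat_lit 73792) (nat_lit 45) (.e (nat_lit 1140) (nat_lit 84) .nil)))))) (.g (nat_lit 4) .nil .nil)))) (.nd (nat_lit 6) 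
(.lf (nat_lit 141754) (.g (nat_lit 268) (.e (nat_lit 32787) (nat_lit 9) (.e (nat_lit 65622) (nat_lit 12) (.e (nat_lit 385074) (nat_lit 31) .nil))) .nil)) 
(.lf (nat_lit 141818) (.g (nat_lit 1832) (.e (nat_lit 32787) (nat_lit 9) (.e (nat_lit 65628) (nat_lit 14) (.e (nat_lit 401414) (nat_lit 0) (.e (nat_lit 3124) (nat_lit 193) (.e (nat_lit 500071) (nat_lit 19) (.e (nat_lit 73789) (nat_lit 45) (.e (nat_lit 1141) (nat_lit 84) .nil))))))) (.g (nat_lit 4) .nil .nil))))))) (.nd (nat_lit 3) (.nd (nat_lit 4) (.nd (nat_lit 5) (.nd (nat_lit 6) 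
(.lf (nat_lit 141702) (.g (nat_lit 2152) (.e (nat_lit 32787) (nat_lit 9) (.e (nat_lit 65619) (nat_lit 10) (.e (nat_lit 344117) (nat_lit 21) (.e (nat_lit 516097) (nat_lit 0) (.e (nat_lit 7486) (nat_lit 402) .nil))))) .nil)) 
(.lf (nat_lit 141766) (.g (nat_lit 2301) (.e (nat_lit 32787) (nat_lit 9) (.e (nat_lit 65622) (nat_lit 12) (.e (nat_lit 385074) (nat_lit 31) (.e (nat_lit 573489) (nat_lit 14) (.e (nat_lit 73789) (nat_lit 45) (.e (nat_lit 1140) (nat_lit 84) .nil)))))) (.g (nat_lit 5) .nil .nil)))) (.nd (nat_lit 6) 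
(.lf (nat_lit 141734) (.g (nat_lit 1686) (.e (nat_lit 32787) (nat_lit 9) (.e (nat_lit 65619) (nat_lit 10) (.e (nat_lit 344126) (nat_lit 25) (.e (nat_lit 548890) (nat_lit 10) (.e (nat_lit 73789) (nat_lit 45) (.e (nat_lit 1141) (nat_lit 84) .nil)))))) (.g (nat_lit 4) .nil .nil))) 
(.lf (nat_lit 141798) (.g (nat_lit 2692) (.e (nat_lit 32787) (nat_lit 9) (.e (nat_lit 65624) (nat_lit 12) (.e (nat_lit 385074) (nat_lit 31) (.e (nat_lit 573487) (nat_lit 14) (.e (nat_lit 73788) (nat_lit 45) (.e (nat_lit 1140) (nat_lit 84) .nil)))))) (.g (nat_lit 4) .nil .nil))))) (.nd (nat_lit 5) (.nd (nat_lit 6) 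
(.lf (nat_lit 141718) (.g (nat_lit 2437) (.e (nat_lit 32787) (nat_lit 9) (.e (nat_lit 65619) (nat_lit 10) (.e (nat_lit 344117) (nat_lit 21) (.e (nat_lit 516106) (nat_lit 0) (.e (nat_lit 6986) (nat_lit 377) .nil))))) .nil)) 
(.lf (nat_lit 141782) (.g (nat_lit 2531) (.e (nat_lit 32787) (nat_lit 9) (.e (nat_lit 65623) (nat_lit 12) (.e (nat_lit 385074) (nat_lit 31) (.e (nat_lit 573489) (nat_lit 14) (.e (nat_lit 73788) (nat_lit 45) (.e (nat_lit 1140) (nat_lit 84) .nil)))))) (.g (nat_lit 4) .nil .nil)))) (.nd (nat_lit 6) 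
(.lf (nat_lit 141750) (.g (nat_lit 2978) (.e (nat_lit 32787) (nat_lit 9) (.e (nat_lit 65619) (nat_lit 10) (.e (nat_lit 344129) (nat_lit 26) (.e (nat_lit 557087) (nat_lit 11) (.e (nat_lit 24589) (nat_lit 0) .nil))))) .nil)) 
(.lf (nat_lit 141814) (.g (nat_lit 1227) (.e (nat_lit 32787) (nat_lit 9) (.e (nat_lit 65628) (nat_lit 14) (.e (nat_lit 401412) (nat_lit 0) (.e (nat_lit 3107) (nat_lit 193) (.e (nat_lit 500073) (nat_lit 19) .nil))))) .nil))))) (.nd (nat_lit 4) (.nd (nat_lit 5) (.nd (nat_lit 6) 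
(.lf (nat_lit 141710) (.g (nat_lit 1866) (.e (nat_lit 32787) (nat_lit 9) (.e (nat_lit 65619) (nat_lit 10) (.e (nat_lit 344117) (nat_lit 21) (.e (nat_lit 516098) (nat_lit 0) (.e (nat_lit 7581) (nat_lit 405) .nil))))) .nil)) 
(.lf (nat_lit 141774) (.g (nat_lit 3467) (.e (nat_lit 32787) (nat_lit 9) (.e (nat_lit 65623) (nat_lit 12) (.e (nat_lit 385074) (nat_lit 31) (.e (nat_lit 573487) (nat_lit 14) (.e (nat_lit 73789) (nat_lit 45) (.e (nat_lit 1139) (nat_lit 84) .nil)))))) (.g (nat_lit 4) .nil .nil)))) (.nd (nat_lit 6) 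
(.lf (nat_lit 141742) (.g (nat_lit 2178) (.e (nat_lit 32787) (nat_lit 9) (.e (nat_lit 65619) (nat_lit 10) (.e (nat_lit 344129) (nat_lit 26) (.e (nat_lit 557066) (nat_lit 9) (.e (nat_lit 297) (nat_lit 22) (.e (nat_lit 344080) (nat_lit 13) (.e (nat_lit 1141) (nat_lit 84) .nil))))))) (.g (nat_lit 4) .nil .nil))) 
(.lf (nat_lit 141806) (.g (nat_lit 2415) (.e (nat_lit 32787) (nat_lit 9) (.e (nat_lit 65624) (nat_lit 12) (.e (nat_lit 385074) (nat_lit 31) (.e (nat_lit 573489) (nat_lit 14) (.e (nat_lit 73786) (nat_lit 45) .nil))))) .nil)))) (.nd (nat_lit 5) (.nd (nat_lit 6) 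
(.lf (nat_lit 141726) (.g (nat_lit 2073) (.e (nat_lit 32787) (nat_lit 9) (.e (nat_lit 65619) (nat_lit 10) (.e (nat_lit 344117) (nat_lit 21) (.e (nat_lit 516185) (nat_lit 16) (.e (nat_lit 491526) (nat_lit 0) .nil))))) .nil)) 
(.lf (nat_lit 141790) (.g (nat_lit 2122) (.e (nat_lit 32787) (nat_lit 9) (.e (nat_lit 65624) (nat_lit 12) (.e (nat_lit 385073) (nat_lit 31) (.e (nat_lit 573487) (nat_lit 14) (.e (nat_lit 73792) (nat_lit 45) .nil))))) .nil))) (.nd (nat_lit 6) 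
(.lf (nat_lit 141758) (.g (nat_lit 1874) (.e (nat_lit 32787) (nat_lit 9) (.e (nat_lit 65622) (nat_lit 12) (.e (nat_lit 385074) (nat_lit 31) (.e (nat_lit 573486) (nat_lit 14) .nil)))) .nil)) 
(.lf (nat_lit 141822) (.g (nat_lit 2419) (.e (nat_lit 32787) (nat_lit 9) (.e (nat_lit 65628) (nat_lit 14) (.e (nat_lit 401425) (nat_lit 2) (.e (nat_lit 196666) (nat_lit 13) (.e (nat_lit 65543) (nat_lit 0) .nil))))) .nil)))))))) (.nd (nat_lit 1) (.nd (nat_lit 2) (.nd (nat_lit 3) (.nd (nat_lit 4) (.nd (nat_lit 5) (.nd (nat_lit 6) 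
(.lf (nat_lit 141697) (.g (nat_lit 1149) (.e (nat_lit 32787) (nat_lit 9) (.e (nat_lit 65617) (nat_lit 10) (.e (nat_lit 344133) (nat_lit 26) (.e (nat_lit 557071) (nat_lit 9) .nil)))) .nil)) 
(.lf (nat_lit 141761) (.g (nat_lit 2294) (.e (nat_lit 32787) (nat_lit 9) (.e (nat_lit 65622) (nat_lit 12) (.e (nat_lit 385074) (nat_lit 31) (.e (nat_lit 573487) (nat_lit 14) (.e (nat_lit 73788) (nat_lit 45) (.e (nat_lit 1141) (nat_lit 84) .nil)))))) (.g (nat_lit 4) .nil .nil)))) (.nd (nat_lit 6) 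
(.lf (nat_lit 141729) (.g (nat_lit 3753) (.e (nat_lit 32787) (nat_lit 9) (.e (nat_lit 65619) (nat_lit 10) (.e (nat_lit 344126) (nat_lit 25) (.e (nat_lit 548889) (nat_lit 9) (.e (nat_lit 65583) (nat_lit 7) (.e (nat_lit 319519) (nat_lit 12) .nil)))))) (.g (nat_lit 0) .nil .nil))) 
(.lf (nat_lit 141793) (.g (nat_lit 2734) (.e (nat_lit 32787) (nat_lit 9) (.e (nat_lit 65624) (nat_lit 12) (.e (nat_lit 385074) (nat_lit 31) (.e (nat_lit 573484) (nat_lit 13) (.e (nat_lit 65543) (nat_lit 0) (.e (nat_lit 6146) (nat_lit 332) (.e (nat_lit 1140) (nat_lit 84) .nil))))))) (.g (nat_lit 4) .nil .nil))))) (.nd (nat_lit 5) (.nd (nat_lit 6) 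
(.lf (nat_lit 141713) (.g (nat_lit 2862) (.e (nat_lit 32787) (nat_lit 9) (.e (nat_lit 65619) (nat_lit 10) (.e (nat_lit 344117) (nat_lit 21) (.e (nat_lit 516098) (nat_lit 0) (.e (nat_lit 7581) (nat_lit 405) (.e (nat_lit 57718) (nat_lit 176) (.e (nat_lit 1140) (nat_lit 84) .nil))))))) (.g (nat_lit 5) .nil .nil))) 
(.lf (nat_lit 141777) (.g (nat_lit 2845) (.e (nat_lit 32787) (nat_lit 9) (.e (nat_lit 65623) (nat_lit 12) (.e (nat_lit 385074) (nat_lit 31) (.e (nat_lit 573487) (nat_lit 14) (.e (nat_lit 73791) (nat_lit 45) (.e (nat_lit 1140) (nat_lit 84) .nil)))))) (.g (nat_lit 4) .nil .nil)))) (.nd (nat_lit 6) 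
(.lf (nat_lit 141745) (.g (nat_lit 2407) (.e (nat_lit 32787) (nat_lit 9) (.e (nat_lit 65619) (nat_lit 10) (.e (nat_lit 344129) (nat_lit 26) (.e (nat_lit 557066) (nat_lit 9) (.e (nat_lit 307) (nat_lit 22) (.e (nat_lit 344076) (nat_lit 13) (.e (nat_lit 1141) (nat_lit 84) .nil))))))) (.g (nat_lit 4) .nil .nil))) 
(.lf (nat_lit 141809) (.g (nat_lit 1961) (.e (nat_lit 32787) (nat_lit 9) (.e (nat_lit 65624) (nat_lit 12) (.e (nat_lit 385074) (nat_lit 31) (.e (nat_lit 581376) (nat_lit 14) .nil)))) .nil))))) (.nd (nat_lit 4) (.nd (nat_lit 5) (.nd (nat_lit 6) 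
(.lf (nat_lit 141705) (.g (nat_lit 3079) (.e (nat_lit 32787) (nat_lit 9) (.e (nat_lit 65619) (nat_lit 10) (.e (nat_lit 344117) (nat_lit 21) (.e (nat_lit 516097) (nat_lit 0) (.e (nat_lit 7581) (nat_lit 405) (.e (nat_lit 57717) (nat_lit 176) (.e (nat_lit 1140) (nat_lit 84) .nil))))))) (.g (nat_lit 5) .nil .nil))) 
(.lf (nat_lit 141769) (.g (nat_lit 2199) (.e (nat_lit 32787) (nat_lit 9) (.e (nat_lit 65623) (nat_lit 12) (.e (nat_lit 385072) (nat_lit 31) (.e (nat_lit 573487) (nat_lit 14) (.e (nat_lit 73792) (nat_lit 45) .nil))))) .nil))) (.nd (nat_lit 6) 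
(.lf (nat_lit 141737) (.g (nat_lit 1878) (.e (nat_lit 32787) (nat_lit 9) (.e (nat_lit 65619) (nat_lit 10) (.e (nat_lit 344129) (nat_lit 26) (.e (nat_lit 557066) (nat_lit 9) (.e (nat_lit 297) (nat_lit 22) .nil))))) .nil)) 
(.lf (nat_lit 141801) (.g (nat_lit 3280) (.e (nat_lit 32787) (nat_lit 9) (.e (nat_lit 65624) (nat_lit 12) (.e (nat_lit 385074) (nat_lit 31) (.e (nat_lit 573487) (nat_lit 14) (.e (nat_lit 73789) (nat_lit 45) (.e (nat_lit 1141) (nat_lit 84) .nil)))))) (.g (nat_lit 0) .nil .nil))))) (.nd (nat_lit 5) (.nd (nat_lit 6) 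
(.lf (nat_lit 141721) (.g (nat_lit 3389) (.e (nat_lit 32787) (nat_lit 9) (.e (nat_lit 65619) (nat_lit 10) (.e (nat_lit 344117) (nat_lit 21) (.e (nat_lit 516106) (nat_lit 0) (.e (nat_lit 6986) (nat_lit 377) (.e (nat_lit 2403) (nat_lit 157) (.e (nat_lit 4921) (nat_lit 287) (.e (nat_lit 1141) (nat_lit 84) .nil)))))))) (.g (nat_lit 5) .nil .nil))) 
(.lf (nat_lit 141785) (.g (nat_lit 2699) (.e (nat_lit 32787) (nat_lit 9) (.e (nat_lit 65623) (nat_lit 12) (.e (nat_lit 385074) (nat_lit 31) (.e (nat_lit 573489) (nat_lit 14) (.e (nat_lit 73789) (nat_lit 45) (.e (nat_lit 1139) (nat_lit 84) .nil)))))) (.g (nat_lit 4) .nil .nil)))) (.nd (nat_lit 6) 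
(.lf (nat_lit 141753) (.g (nat_lit 1733) (.e (nat_lit 32787) (nat_lit 9) (.e (nat_lit 65622) (nat_lit 12) (.e (nat_lit 385073) (nat_lit 31) (.e (nat_lit 573487) (nat_lit 14) (.e (nat_lit 73792) (nat_lit 45) .nil))))) .nil)) 
(.lf (nat_lit 141817) (.g (nat_lit 1810) (.e (nat_lit 32787) (nat_lit 9) (.e (nat_lit 65628) (nat_lit 14) (.e (nat_lit 401414) (nat_lit 0) (.e (nat_lit 3124) (nat_lit 193) (.e (nat_lit 500071) (nat_lit 19) (.e (nat_lit 73789) (nat_lit 45) (.e (nat_lit 1140) (nat_lit 84) .nil))))))) (.g (nat_lit 4) .nil .nil))))))) (.nd (nat_lit 3) (.nd (nat_lit 4) (.nd (nat_lit 5) (.nd (nat_lit 6) 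
(.lf (nat_lit 141701) (.g (nat_lit 385) (.e (nat_lit 32787) (nat_lit 9) (.e (nat_lit 65619) (nat_lit 10) (.e (nat_lit 344117) (nat_lit 21) .nil))) .nil)) 
(.lf (nat_lit 141765) (.g (nat_lit 2362) (.e (nat_lit 32787) (nat_lit 9) (.e (nat_lit 65622) (nat_lit 12) (.e (nat_lit 385074) (nat_lit 31) (.e (nat_lit 573489) (nat_lit 14) (.e (nat_lit 73786) (nat_lit 45) (.e (nat_lit 1141) (nat_lit 84) .nil)))))) (.g (nat_lit 4) .nil .nil)))) (.nd (nat_lit 6) 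
(.lf (nat_lit 141733) (.g (nat_lit 1681) (.e (nat_lit 32787) (nat_lit 9) (.e (nat_lit 65619) (nat_lit 10) (.e (nat_lit 344126) (nat_lit 25) (.e (nat_lit 548890) (nat_lit 10) (.e (nat_lit 73789) (nat_lit 45) (.e (nat_lit 1140) (nat_lit 84) .nil)))))) (.g (nat_lit 4) .nil .nil))) 
(.lf (nat_lit 141797) (.g (nat_lit 2351) (.e (nat_lit 32787) (nat_lit 9) (.e (nat_lit 65624) (nat_lit 12) (.e (nat_lit 385074) (nat_lit 31) (.e (nat_lit 573486) (nat_lit 14) (.e (nat_lit 73789) (nat_lit 45) .nil))))) .nil)))) (.nd (nat_lit 5) (.nd (nat_lit 6) 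
(.lf (nat_lit 141717) (.g (nat_lit 1325) (.e (nat_lit 32787) (nat_lit 9) (.e (nat_lit 65619) (nat_lit 10) (.e (nat_lit 344117) (nat_lit 21) (.e (nat_lit 516106) (nat_lit 0) .nil)))) .nil)) 
(.lf (nat_lit 141781) (.g (nat_lit 2751) (.e (nat_lit 32787) (nat_lit 9) (.e (nat_lit 65623) (nat_lit 12) (.e (nat_lit 385074) (nat_lit 31) (.e (nat_lit 573489) (nat_lit 14) (.e (nat_lit 73786) (nat_lit 45) .nil))))) .nil))) (.nd (nat_lit 6) 
(.lf (nat_lit 141749) (.g (nat_lit 2281) (.e (nat_lit 32787) (nat_lit 9) (.e (nat_lit 65619) (nat_lit 10) (.e (nat_lit 344129) (nat_lit 26) (.e (nat_lit 557087) (nat_lit 11) (.e (nat_lit 24588) (nat_lit 0) .nil))))) .nil)) 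
(.lf (nat_lit 141813) (.g (nat_lit 598) (.e (nat_lit 32787) (nat_lit 9) (.e (nat_lit 65628) (nat_lit 14) (.e (nat_lit 401412) (nat_lit 0) .nil))) .nil))))) (.nd (nat_lit 4) (.nd (nat_lit 5) (.nd (nat_lit 6) 
(.lf (nat_lit 141709) (.g (nat_lit 1068) (.e (nat_lit 32787) (nat_lit 9) (.e (nat_lit 65619) (nat_lit 10) (.e (nat_lit 344117) (nat_lit 21) (.e (nat_lit 516098) (nat_lit 0) .nil)))) .nil)) 
(.lf (nat_lit 141773) (.g (nat_lit 2862) (.e (nat_lit 32787) (nat_lit 9) (.e (nat_lit 65623) (nat_lit 12) (.e (nat_lit 385074) (nat_lit 31) (.e (nat_lit 573487) (nat_lit 14) (.e (nat_lit 73788) (nat_lit 45) .nil))))) .nil))) (.nd (nat_lit 6) 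
(.lf (nat_lit 141741) (.g (nat_lit 2049) (.e (nat_lit 32787) (nat_lit 9) (.e (nat_lit 65619) (nat_lit 10) (.e (nat_lit 344129) (nat_lit 26) (.e (nat_lit 557066) (nat_lit 9) (.e (nat_lit 297) (nat_lit 22) (.e (nat_lit 344080) (nat_lit 13) (.e (nat_lit 1140) (nat_lit 84) .nil))))))) (.g (nat_lit 4) .nil .nil))) 
(.lf (nat_lit 141805) (.g (nat_lit 1943) (.e (nat_lit 32787) (nat_lit 9) (.e (nat_lit 65624) (nat_lit 12) (.e (nat_lit 385074) (nat_lit 31) (.e (nat_lit 573488) (nat_lit 14) .nil)))) .nil)))) (.nd (nat_lit 5) (.nd (nat_lit 6) 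
(.lf (nat_lit 141725) (.g (nat_lit 1743) (.e (nat_lit 32787) (nat_lit 9) (.e (nat_lit 65619) (nat_lit 10) (.e (nat_lit 344117) (nat_lit 21) (.e (nat_lit 516106) (nat_lit 0) (.e (nat_lit 7936) (nat_lit 405) .nil))))) .nil)) 
(.lf (nat_lit 141789) (.g (nat_lit 2369) (.e (nat_lit 32787) (nat_lit 9) (.e (nat_lit 65624) (nat_lit 12) (.e (nat_lit 385072) (nat_lit 31) (.e (nat_lit 573488) (nat_lit 14) (.e (nat_lit 73788) (nat_lit 45) .nil))))) .nil))) (.nd (nat_lit 6) 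
(.lf (nat_lit 141757) (.g (nat_lit 1971) (.e (nat_lit 32787) (nat_lit 9) (.e (nat_lit 65622) (nat_lit 12) (.e (nat_lit 385074) (nat_lit 31) (.e (nat_lit 573485) (nat_lit 13) (.e (nat_lit 65584) (nat_lit 7) (.e (nat_lit 319519) (nat_lit 12) .nil)))))) (.g (nat_lit 5) .nil .nil))) 
(.lf (nat_lit 141821) (.g (nat_lit 2026) (.e (nat_lit 32787) (nat_lit 9) (.e (nat_lit 65628) (nat_lit 14) (.e (nat_lit 401425) (nat_lit 2) (.e (nat_lit 196665) (nat_lit 13) .nil)))) .nil))))))) (.nd (nat_lit 2) (.nd (nat_lit 3) (.nd (nat_lit 4) (.nd (nat_lit 5) (.nd (nat_lit 6) 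
(.lf (nat_lit 141699) (.g (nat_lit 1720) (.e (nat_lit 32787) (nat_lit 9) (.e (nat_lit 65617) (nat_lit 10) (.e (nat_lit 344133) (nat_lit 26) (.e (nat_lit 557087) (nat_lit 11) .nil)))) .nil)) 
(.lf (nat_lit 141763) (.g (nat_lit 2952) (.e (nat_lit 32787) (nat_lit 9) (.e (nat_lit 65622) (nat_lit 12) (.e (nat_lit 385074) (nat_lit 31) (.e (nat_lit 573488) (nat_lit 14) (.e (nat_lit 73788) (nat_lit 45) (.e (nat_lit 1140) (nat_lit 84) .nil)))))) (.g (nat_lit 5) .nil .nil)))) (.nd (nat_lit 6) 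
(.lf (nat_lit 141731) (.g (nat_lit 1795) (.e (nat_lit 32787) (nat_lit 9) (.e (nat_lit 65619) (nat_lit 10) (.e (nat_lit 344126) (nat_lit 25) (.e (nat_lit 548890) (nat_lit 10) (.e (nat_lit 73788) (nat_lit 45) (.e (nat_lit 1140) (nat_lit 84) .nil)))))) (.g (nat_lit 4) .nil .nil))) 
(.lf (nat_lit 141795) (.g (nat_lit 2363) (.e (nat_lit 32787) (nat_lit 9) (.e (nat_lit 65624) (nat_lit 12) (.e (nat_lit 385074) (nat_lit 31) (.e (nat_lit 573485) (nat_lit 13) (.e (nat_lit 65584) (nat_lit 7) (.e (nat_lit 319519) (nat_lit 12) .nil)))))) (.g (nat_lit 5) .nil .nil))))) (.nd (nat_lit 5) (.nd (nat_lit 6) 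
(.lf (nat_lit 141715) (.g (nat_lit 1808) (.e (nat_lit 32787) (nat_lit 9) (.e (nat_lit 65619) (nat_lit 10) (.e (nat_lit 344117) (nat_lit 21) (.e (nat_lit 516098) (nat_lit 0) (.e (nat_lit 7583) (nat_lit 405) .nil))))) .nil)) 
(.lf (nat_lit 141779) (.g (nat_lit 2358) (.e (nat_lit 32787) (nat_lit 9) (.e (nat_lit 65623) (nat_lit 12) (.e (nat_lit 385074) (nat_lit 31) (.e (nat_lit 573487) (nat_lit 14) (.e (nat_lit 81664) (nat_lit 45) .nil))))) .nil))) (.nd (nat_lit 6) 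
(.lf (nat_lit 141747) (.g (nat_lit 3469) (.e (nat_lit 32787) (nat_lit 9) (.e (nat_lit 65619) (nat_lit 10) (.e (nat_lit 344129) (nat_lit 26) (.e (nat_lit 557087) (nat_lit 11) (.e (nat_lit 24584) (nat_lit 0) (.e (nat_lit 6113) (nat_lit 332) (.e (nat_lit 7936) (nat_lit 84) .nil))))))) (.g (nat_lit 5) .nil .nil))) 
(.lf (nat_lit 141811) (.g (nat_lit 519) (.e (nat_lit 32787) (nat_lit 9) (.e (nat_lit 65628) (nat_lit 14) (.e (nat_lit 401410) (nat_lit 0) .nil))) .nil))))) (.nd (nat_lit 4) (.nd (nat_lit 5) (.nd (nat_lit 6) 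
(.lf (nat_lit 141707) (.g (nat_lit 2233) (.e (nat_lit 32787) (nat_lit 9) (.e (nat_lit 65619) (nat_lit 10) (.e (nat_lit 344117) (nat_lit 21) (.e (nat_lit 516097) (nat_lit 0) (.e (nat_lit 7583) (nat_lit 405) (.e (nat_lit 57713) (nat_lit 176) (.e (nat_lit 1139) (nat_lit 84) .nil))))))) (.g (nat_lit 4) .nil .nil))) 
(.lf (nat_lit 141771) (.g (nat_lit 1830) (.e (nat_lit 32787) (nat_lit 9) (.e (nat_lit 65623) (nat_lit 12) (.e (nat_lit 385073) (nat_lit 31) (.e (nat_lit 573487) (nat_lit 14) (.e (nat_lit 73792) (nat_lit 45) (.e (nat_lit 1140) (nat_lit 84) .nil)))))) (.g (nat_lit 4) .nil .nil)))) (.nd (nat_lit 6) 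
(.lf (nat_lit 141739) (.g (nat_lit 2036) (.e (nat_lit 32787) (nat_lit 9) (.e (nat_lit 65619) (nat_lit 10) (.e (nat_lit 344129) (nat_lit 26) (.e (nat_lit 557066) (nat_lit 9) (.e (nat_lit 297) (nat_lit 22) (.e (nat_lit 344074) (nat_lit 13) (.e (nat_lit 1141) (nat_lit 84) .nil))))))) (.g (nat_lit 4) .nil .nil))) 
(.lf (nat_lit 141803) (.g (nat_lit 2700) (.e (nat_lit 32787) (nat_lit 9) (.e (nat_lit 65624) (nat_lit 12) (.e (nat_lit 385074) (nat_lit 31) (.e (nat_lit 573487) (nat_lit 14) (.e (nat_lit 73791) (nat_lit 45) (.e (nat_lit 1141) (nat_lit 84) .nil)))))) (.g (nat_lit 0) .nil .nil))))) (.nd (nat_lit 5) (.nd (nat_lit 6) 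
(.lf (nat_lit 141723) (.g (nat_lit 2472) (.e (nat_lit 32787) (nat_lit 9) (.e (nat_lit 65619) (nat_lit 10) (.e (nat_lit 344117) (nat_lit 21) (.e (nat_lit 516106) (nat_lit 0) (.e (nat_lit 6986) (nat_lit 377) (.e (nat_lit 2403) (nat_lit 157) (.e (nat_lit 4963) (nat_lit 287) (.e (nat_lit 1139) (nat_lit 84) .nil)))))))) (.g (nat_lit 4) .nil .nil))) 
(.lf (nat_lit 141787) (.g (nat_lit 2535) (.e (nat_lit 32787) (nat_lit 9) (.e (nat_lit 65623) (nat_lit 12) (.e (nat_lit 385074) (nat_lit 31) (.e (nat_lit 573489) (nat_lit 14) (.e (nat_lit 73792) (nat_lit 45) (.e (nat_lit 1141) (nat_lit 84) .nil)))))) (.g (nat_lit 4) .nil .nil)))) (.nd (nat_lit 6) 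
(.lf (nat_lit 141755) (.g (nat_lit 3232) (.e (nat_lit 32787) (nat_lit 9) (.e (nat_lit 65622) (nat_lit 12) (.e (nat_lit 385074) (nat_lit 31) (.e (nat_lit 573482) (nat_lit 13) (.e (nat_lit 65584) (nat_lit 7) (.e (nat_lit 319519) (nat_lit 12) .nil)))))) (.g (nat_lit 4) .nil .nil))) 
(.lf (nat_lit 141819) (.g (nat_lit 2447) (.e (nat_lit 32787) (nat_lit 9) (.e (nat_lit 65628) (nat_lit 14) (.e (nat_lit 401423) (nat_lit 2) (.e (nat_lit 196670) (nat_lit 14) (.e (nat_lit 73792) (nat_lit 45) .nil))))) .nil)))))) (.nd (nat_lit 3) (.nd (nat_lit 4) (.nd (nat_lit 5) (.nd (nat_lit 6) 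
(.lf (nat_lit 141703) (.g (nat_lit 2200) (.e (nat_lit 32787) (nat_lit 9) (.e (nat_lit 65619) (nat_lit 10) (.e (nat_lit 344117) (nat_lit 21) (.e (nat_lit 516097) (nat_lit 0) (.e (nat_lit 7581) (nat_lit 405) .nil))))) .nil)) 
(.lf (nat_lit 141767) (.g (nat_lit 2287) (.e (nat_lit 32787) (nat_lit 9) (.e (nat_lit 65622) (nat_lit 12) (.e (nat_lit 385074) (nat_lit 31) (.e (nat_lit 573489) (nat_lit 14) (.e (nat_lit 73789) (nat_lit 45) (.e (nat_lit 1141) (nat_lit 84) .nil)))))) (.g (nat_lit 5) .nil .nil)))) (.nd (nat_lit 6) 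
(.lf (nat_lit 141735) (.g (nat_lit 1034) (.e (nat_lit 32787) (nat_lit 9) (.e (nat_lit 65619) (nat_lit 10) (.e (nat_lit 344129) (nat_lit 26) (.e (nat_lit 557066) (nat_lit 9) .nil)))) .nil)) 
(.lf (nat_lit 141799) (.g (nat_lit 2692) (.e (nat_lit 32787) (nat_lit 9) (.e (nat_lit 65624) (nat_lit 12) (.e (nat_lit 385074) (nat_lit 31) (.e (nat_lit 573487) (nat_lit 14) (.e (nat_lit 73788) (nat_lit 45) (.e (nat_lit 1141) (nat_lit 84) .nil)))))) (.g (nat_lit 4) .nil .nil))))) (.nd (nat_lit 5) (.nd (nat_lit 6) 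
(.lf (nat_lit 141719) (.g (nat_lit 2742) (.e (nat_lit 32787) (nat_lit 9) (.e (nat_lit 65619) (nat_lit 10) (.e (nat_lit 344117) (nat_lit 21) (.e (nat_lit 516106) (nat_lit 0) (.e (nat_lit 6986) (nat_lit 377) (.e (nat_lit 2403) (nat_lit 157) (.e (nat_lit 4921) (nat_lit 287) (.e (nat_lit 1139) (nat_lit 84) .nil)))))))) (.g (nat_lit 4) .nil .nil))) 
(.lf (nat_lit 141783) (.g (nat_lit 2508) (.e (nat_lit 32787) (nat_lit 9) (.e (nat_lit 65623) (nat_lit 12) (.e (nat_lit 385074) (nat_lit 31) (.e (nat_lit 573489) (nat_lit 14) (.e (nat_lit 73788) (nat_lit 45) (.e (nat_lit 1141) (nat_lit 84) .nil)))))) (.g (nat_lit 4) .nil .nil)))) (.nd (nat_lit 6) 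
(.lf (nat_lit 141751) (.g (nat_lit 2950) (.e (nat_lit 32787) (nat_lit 9) (.e (nat_lit 65619) (nat_lit 10) (.e (nat_lit 344129) (nat_lit 26) (.e (nat_lit 557087) (nat_lit 11) (.e (nat_lit 24617) (nat_lit 7) (.e (nat_lit 319518) (nat_lit 12) .nil)))))) (.g (nat_lit 5) .nil .nil))) 
(.lf (nat_lit 141815) (.g (nat_lit 1173) (.e (nat_lit 32787) (nat_lit 9) (.e (nat_lit 65628) (nat_lit 14) (.e (nat_lit 401412) (nat_lit 0) (.e (nat_lit 3122) (nat_lit 193) (.e (nat_lit 500073) (nat_lit 19) .nil))))) .nil))))) (.nd (nat_lit 4) (.nd (nat_lit 5) (.nd (nat_lit 6) 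
(.lf (nat_lit 141711) (.g (nat_lit 2139) (.e (nat_lit 32787) (nat_lit 9) (.e (nat_lit 65619) (nat_lit 10) (.e (nat_lit 344117) (nat_lit 21) (.e (nat_lit 516098) (nat_lit 0) (.e (nat_lit 7581) (nat_lit 405) (.e (nat_lit 57711) (nat_lit 176) (.e (nat_lit 1141) (nat_lit 84) .nil))))))) (.g (nat_lit 4) .nil .nil))) 
(.lf (nat_lit 141775) (.g (nat_lit 3381) (.e (nat_lit 32787) (nat_lit 9) (.e (nat_lit 65623) (nat_lit 12) (.e (nat_lit 385074) (nat_lit 31) (.e (nat_lit 573487) (nat_lit 14) (.e (nat_lit 73789) (nat_lit 45) (.e (nat_lit 1140) (nat_lit 84) .nil)))))) (.g (nat_lit 4) .nil .nil)))) (.nd (nat_lit 6) 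
(.lf (nat_lit 141743) (.g (nat_lit 2545) (.e (nat_lit 32787) (nat_lit 9) (.e (nat_lit 65619) (nat_lit 10) (.e (nat_lit 344129) (nat_lit 26) (.e (nat_lit 557066) (nat_lit 9) (.e (nat_lit 305) (nat_lit 22) .nil))))) .nil)) 
(.lf (nat_lit 141807) (.g (nat_lit 3156) (.e (nat_lit 32787) (nat_lit 9) (.e (nat_lit 65624) (nat_lit 12) (.e (nat_lit 385074) (nat_lit 31) (.e (nat_lit 573489) (nat_lit 14) (.e (nat_lit 73786) (nat_lit 45) (.e (nat_lit 1140) (nat_lit 84) .nil)))))) (.g (nat_lit 6) .nil .nil))))) (.nd (nat_lit 5) (.nd (nat_lit 6) 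
(.lf (nat_lit 141727) (.g (nat_lit 4329) (.e (nat_lit 32787) (nat_lit 9) (.e (nat_lit 65619) (nat_lit 10) (.e (nat_lit 344117) (nat_lit 21) (.e (nat_lit 516185) (nat_lit 16) (.e (nat_lit 491544) (nat_lit 7) (.e (nat_lit 319519) (nat_lit 12) .nil)))))) (.g (nat_lit 0) .nil .nil))) 
(.lf (nat_lit 141791) (.g (nat_lit 390) (.e (nat_lit 32787) (nat_lit 9) (.e (nat_lit 65624) (nat_lit 12) (.e (nat_lit 385074) (nat_lit 31) .nil))) .nil))) (.nd (nat_lit 6) 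
(.lf (nat_lit 141759) (.g (nat_lit 2106) (.e (nat_lit 32787) (nat_lit 9) (.e (nat_lit 65622) (nat_lit 12) (.e (nat_lit 385074) (nat_lit 31) (.e (nat_lit 573486) (nat_lit 14) (.e (nat_lit 73791) (nat_lit 45) .nil))))) .nil)) 
(.lf (nat_lit 141823) (.g (nat_lit 2611) (.e (nat_lit 32787) (nat_lit 9) (.e (nat_lit 65628) (nat_lit 14) (.e (nat_lit 401425) (nat_lit 2) (.e (nat_lit 196666) (nat_lit 13) (.e (nat_lit 65581) (nat_lit 7) (.e (nat_lit 319519) (nat_lit 12) .nil)))))) (.g (nat_lit 4) .nil .nil))))))))))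

noncomputable def tv1882 : DT := (.nd (nat_lit 0) (.nd (nat_lit 1) (.nd (nat_lit 2) (.nd (nat_lit 3) (.nd (nat_lit 4) (.nd (nat_lit 5) 
(.lf (nat_lit 141824) (.g (nat_lit 2709) (.e (nat_lit 32787) (nat_lit 9) (.e (nat_lit 65628) (nat_lit 14) (.e (nat_lit 401425) (nat_lit 2) (.e (nat_lit 196666) (nat_lit 13) (.e (nat_lit 65582) (nat_lit 7) .nil))))) .nil)) 
(.lf (nat_lit 141856) (.g (nat_lit 2973) (.e (nat_lit 32787) (nat_lit 9) (.e (nat_lit 65630) (nat_lit 14) (.e (nat_lit 401412) (nat_lit 0) (.e (nat_lit 3133) (nat_lit 193) (.e (nat_lit 500071) (nat_lit 19) (.e (nat_lit 73789) (nat_lit 45) (.e (nat_lit 1140) (nat_lit 84) .nil))))))) (.g (nat_lit 7) .nil .nil)))) (.nd (nat_lit 5) 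
(.lf (nat_lit 141840) (.g (nat_lit 2640) (.e (nat_lit 32787) (nat_lit 9) (.e (nat_lit 65628) (nat_lit 14) (.e (nat_lit 401428) (nat_lit 3) (.e (nat_lit 204863) (nat_lit 27) (.e (nat_lit 344079) (nat_lit 13) (.e (nat_lit 1140) (nat_lit 84) .nil)))))) (.g (nat_lit 4) .nil .nil))) 
(.lf (nat_lit 141872) (.g (nat_lit 3184) (.e (nat_lit 32787) (nat_lit 9) (.e (nat_lit 65630) (nat_lit 14) (.e (nat_lit 401425) (nat_lit 2) (.e (nat_lit 196668) (nat_lit 14) (.e (nat_lit 73789) (nat_lit 45) (.e (nat_lit 1140) (nat_lit 84) .nil)))))) (.g (nat_lit 0) .nil .nil))))) (.nd (nat_lit 4) (.nd (nat_lit 5) 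
(.lf (nat_lit 141832) (.g (nat_lit 1656) (.e (nat_lit 32787) (nat_lit 9) (.e (nat_lit 65628) (nat_lit 14) (.e (nat_lit 401428) (nat_lit 3) (.e (nat_lit 204862) (nat_lit 27) (.e (nat_lit 344074) (nat_lit 13) .nil))))) .nil)) 
(.lf (nat_lit 141864) (.g (nat_lit 2431) (.e (nat_lit 32787) (nat_lit 9) (.e (nat_lit 65630) (nat_lit 14) (.e (nat_lit 401425) (nat_lit 2) (.e (nat_lit 196666) (nat_lit 13) (.e (nat_lit 65543) (nat_lit 0) .nil))))) .nil))) (.nd (nat_lit 5) 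
(.lf (nat_lit 141848) (.g (nat_lit 3083) (.e (nat_lit 32787) (nat_lit 9) (.e (nat_lit 65630) (nat_lit 14) (.e (nat_lit 401412) (nat_lit 0) (.e (nat_lit 3107) (nat_lit 193) (.e (nat_lit 500071) (nat_lit 19) (.e (nat_lit 73789) (nat_lit 45) (.e (nat_lit 1140) (nat_lit 84) .nil))))))) (.g (nat_lit 7) .nil .nil))) 
(.lf (nat_lit 141880) (.g (nat_lit 1407) (.e (nat_lit 32787) (nat_lit 9) (.e (nat_lit 65630) (nat_lit 14) (.e (nat_lit 401426) (nat_lit 3) (.e (nat_lit 204863) (nat_lit 27) .nil)))) .nil))))) (.nd (nat_lit 3) (.nd (nat_lit 4) (.nd (nat_lit 5) 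
(.lf (nat_lit 141828) (.g (nat_lit 1198) (.e (nat_lit 32787) (nat_lit 9) (.e (nat_lit 65628) (nat_lit 14) (.e (nat_lit 401425) (nat_lit 2) (.e (nat_lit 196668) (nat_lit 14) .nil)))) .nil)) 
(.lf (nat_lit 141860) (.g (nat_lit 1477) (.e (nat_lit 32787) (nat_lit 9) (.e (nat_lit 65630) (nat_lit 14) (.e (nat_lit 401425) (nat_lit 2) (.e (nat_lit 196628) (nat_lit 9) .nil)))) .nil))) (.nd (nat_lit 5) 
(.lf (nat_lit 141844) (.g (nat_lit 2172) (.e (nat_lit 32787) (nat_lit 9) (.e (nat_lit 65630) (nat_lit 14) (.e (nat_lit 401410) (nat_lit 0) (.e (nat_lit 3262) (nat_lit 198) (.e (nat_lit 540700) (nat_lit 10) (.e (nat_lit 344080) (nat_lit 13) (.e (nat_lit 1140) (nat_lit 84) .nil))))))) (.g (nat_lit 4) .nil .nil))) 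
(.lf (nat_lit 141876) (.g (nat_lit 2900) (.e (nat_lit 32787) (nat_lit 9) (.e (nat_lit 65630) (nat_lit 14) (.e (nat_lit 401425) (nat_lit 2) (.e (nat_lit 196670) (nat_lit 14) (.e (nat_lit 73791) (nat_lit 45) (.e (nat_lit 1140) (nat_lit 84) .nil)))))) (.g (nat_lit 0) .nil .nil))))) (.nd (nat_lit 4) (.nd (nat_lit 5) 
(.lf (nat_lit 141836) (.g (nat_lit 1931) (.e (nat_lit 32787) (nat_lit 9) (.e (nat_lit 65628) (nat_lit 14) (.e (nat_lit 401428) (nat_lit 3) (.e (nat_lit 204862) (nat_lit 27) (.e (nat_lit 344081) (nat_lit 13) (.e (nat_lit 1140) (nat_lit 84) .nil)))))) (.g (nat_lit 4) .nil .nil))) 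
(.lf (nat_lit 141868) (.g (nat_lit 2542) (.e (nat_lit 32787) (nat_lit 9) (.e (nat_lit 65630) (nat_lit 14) (.e (nat_lit 401425) (nat_lit 2) (.e (nat_lit 196666) (nat_lit 13) (.e (nat_lit 65584) (nat_lit 7) (.e (nat_lit 319519) (nat_lit 12) .nil)))))) (.g (nat_lit 4) .nil .nil)))) (.nd (nat_lit 5) 
(.lf (nat_lit 141852) (.g (nat_lit 2405) (.e (nat_lit 32787) (nat_lit 9) (.e (nat_lit 65630) (nat_lit 14) (.e (nat_lit 401412) (nat_lit 0) (.e (nat_lit 3127) (nat_lit 193) (.e (nat_lit 500071) (nat_lit 19) (.e (nat_lit 73789) (nat_lit 45) (.e (nat_lit 1139) (nat_lit 84) .nil))))))) (.g (nat_lit 5) .nil .nil))) 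
(.lf (nat_lit 141884) (.g (nat_lit 1527) (.e (nat_lit 32787) (nat_lit 9) (.e (nat_lit 65630) (nat_lit 14) (.e (nat_lit 401427) (nat_lit 3) (.e (nat_lit 204863) (nat_lit 27) .nil)))) .nil)))))) (.nd (nat_lit 2) (.nd (nat_lit 3) (.nd (nat_lit 4) (.nd (nat_lit 5) 
(.lf (nat_lit 141826) (.g (nat_lit 2381) (.e (nat_lit 32787) (nat_lit 9) (.e (nat_lit 65628) (nat_lit 14) (.e (nat_lit 401425) (nat_lit 2) (.e (nat_lit 196666) (nat_lit 13) (.e (nat_lit 65585) (nat_lit 7) .nil))))) .nil)) 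
(.lf (nat_lit 141858) (.g (nat_lit 2280) (.e (nat_lit 32787) (nat_lit 9) (.e (nat_lit 65630) (nat_lit 14) (.e (nat_lit 401412) (nat_lit 0) (.e (nat_lit 3148) (nat_lit 193) (.e (nat_lit 500071) (nat_lit 19) (.e (nat_lit 73789) (nat_lit 45) (.e (nat_lit 1140) (nat_lit 84) .nil))))))) (.g (nat_lit 4) .nil .nil)))) (.nd (nat_lit 5) 
(.lf (nat_lit 141842) (.g (nat_lit 526) (.e (nat_lit 32787) (nat_lit 9) (.e (nat_lit 65629) (nat_lit 14) (.e (nat_lit 401424) (nat_lit 2) .nil))) .nil)) 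
(.lf (nat_lit 141874) (.g (nat_lit 1784) (.e (nat_lit 32787) (nat_lit 9) (.e (nat_lit 65630) (nat_lit 14) (.e (nat_lit 401425) (nat_lit 2) (.e (nat_lit 196669) (nat_lit 14) .nil)))) .nil)))) (.nd (nat_lit 4) (.nd (nat_lit 5) 
(.lf (nat_lit 141834) (.g (nat_lit 1865) (.e (nat_lit 32787) (nat_lit 9) (.e (nat_lit 65628) (nat_lit 14) (.e (nat_lit 401428) (nat_lit 3) (.e (nat_lit 204862) (nat_lit 27) (.e (nat_lit 344077) (nat_lit 13) (.e (nat_lit 1140) (nat_lit 84) .nil)))))) (.g (nat_lit 4) .nil .nil))) 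
(.lf (nat_lit 141866) (.g (nat_lit 2738) (.e (nat_lit 32787) (nat_lit 9) (.e (nat_lit 65630) (nat_lit 14) (.e (nat_lit 401425) (nat_lit 2) (.e (nat_lit 196666) (nat_lit 13) (.e (nat_lit 65582) (nat_lit 7) (.e (nat_lit 319519) (nat_lit 12) .nil)))))) (.g (nat_lit 4) .nil .nil)))) (.nd (nat_lit 5) 
(.lf (nat_lit 141850) (.g (nat_lit 2887) (.e (nat_lit 32787) (nat_lit 9) (.e (nat_lit 65630) (nat_lit 14) (.e (nat_lit 401412) (nat_lit 0) (.e (nat_lit 3122) (nat_lit 193) (.e (nat_lit 500071) (nat_lit 19) (.e (nat_lit 73789) (nat_lit 45) (.e (nat_lit 1139) (nat_lit 84) .nil))))))) (.g (nat_lit 7) .nil .nil))) 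
(.lf (nat_lit 141882) (.g (nat_lit 1672) (.e (nat_lit 32787) (nat_lit 9) (.e (nat_lit 65630) (nat_lit 14) (.e (nat_lit 401427) (nat_lit 3) (.e (nat_lit 204862) (nat_lit 27) .nil)))) .nil))))) (.nd (nat_lit 3) (.nd (nat_lit 4) (.nd (nat_lit 5) 
(.lf (nat_lit 141830) (.g (nat_lit 345) (.e (nat_lit 32787) (nat_lit 9) (.e (nat_lit 65628) (nat_lit 14) (.e (nat_lit 401428) (nat_lit 3) .nil))) .nil)) 
(.lf (nat_lit 141862) (.g (nat_lit 2026) (.e (nat_lit 32787) (nat_lit 9) (.e (nat_lit 65630) (nat_lit 14) (.e (nat_lit 401425) (nat_lit 2) (.e (nat_lit 196662) (nat_lit 13) .nil)))) .nil))) (.nd (nat_lit 5) 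
(.lf (nat_lit 141846) (.g (nat_lit 853) (.e (nat_lit 32787) (nat_lit 9) (.e (nat_lit 65630) (nat_lit 14) (.e (nat_lit 401412) (nat_lit 0) .nil))) .nil)) 
(.lf (nat_lit 141878) (.g (nat_lit 2697) (.e (nat_lit 32787) (nat_lit 9) (.e (nat_lit 65630) (nat_lit 14) (.e (nat_lit 401425) (nat_lit 2) (.e (nat_lit 204544) (nat_lit 14) (.e (nat_lit 73789) (nat_lit 45) (.e (nat_lit 1139) (nat_lit 84) .nil)))))) (.g (nat_lit 5) .nil .nil))))) (.nd (nat_lit 4) (.nd (nat_lit 5) 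
(.lf (nat_lit 141838) (.g (nat_lit 3030) (.e (nat_lit 32787) (nat_lit 9) (.e (nat_lit 65628) (nat_lit 14) (.e (nat_lit 401428) (nat_lit 3) (.e (nat_lit 204863) (nat_lit 27) (.e (nat_lit 344078) (nat_lit 13) .nil))))) .nil)) 
(.lf (nat_lit 141870) (.g (nat_lit 3469) (.e (nat_lit 32787) (nat_lit 9) (.e (nat_lit 65630) (nat_lit 14) (.e (nat_lit 401425) (nat_lit 2) (.e (nat_lit 196666) (nat_lit 13) (.e (nat_lit 65586) (nat_lit 7) (.e (nat_lit 319519) (nat_lit 12) .nil)))))) (.g (nat_lit 0) .nil .nil)))) (.nd (nat_lit 5) 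
(.lf (nat_lit 141854) (.g (nat_lit 2859) (.e (nat_lit 32787) (nat_lit 9) (.e (nat_lit 65630) (nat_lit 14) (.e (nat_lit 401412) (nat_lit 0) (.e (nat_lit 3132) (nat_lit 193) (.e (nat_lit 500071) (nat_lit 19) (.e (nat_lit 73789) (nat_lit 45) (.e (nat_lit 1139) (nat_lit 84) .nil))))))) (.g (nat_lit 7) .nil .nil))) 
(.lf (nat_lit 141886) (.g (nat_lit 2260) (.e (nat_lit 32787) (nat_lit 9) (.e (nat_lit 65630) (nat_lit 14) (.e (nat_lit 401427) (nat_lit 3) (.e (nat_lit 204864) (nat_lit 27) (.e (nat_lit 344081) (nat_lit 13) .nil))))) .nil))))))) (.nd (nat_lit 1) (.nd (nat_lit 2) (.nd (nat_lit 3) (.nd (nat_lit 4) (.nd (nat_lit 5) 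
(.lf (nat_lit 141825) (.g (nat_lit 2670) (.e (nat_lit 32787) (nat_lit 9) (.e (nat_lit 65628) (nat_lit 14) (.e (nat_lit 401425) (nat_lit 2) (.e (nat_lit 196666) (nat_lit 13) (.e (nat_lit 65584) (nat_lit 7) (.e (nat_lit 319519) (nat_lit 12) .nil)))))) (.g (nat_lit 4) .nil .nil))) 
(.lf (nat_lit 141857) (.g (nat_lit 2975) (.e (nat_lit 32787) (nat_lit 9) (.e (nat_lit 65630) (nat_lit 14) (.e (nat_lit 401412) (nat_lit 0) (.e (nat_lit 3133) (nat_lit 193) (.e (nat_lit 500071) (nat_lit 19) (.e (nat_lit 73789) (nat_lit 45) (.e (nat_lit 1141) (nat_lit 84) .nil))))))) (.g (nat_lit 7) .nil .nil)))) (.nd (nat_lit 5) 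
(.lf (nat_lit 141841) (.g (nat_lit 1074) (.e (nat_lit 32787) (nat_lit 9) (.e (nat_lit 65628) (nat_lit 14) (.e (nat_lit 401428) (nat_lit 3) (.e (nat_lit 204864) (nat_lit 27) .nil)))) .nil)) 
(.lf (nat_lit 141873) (.g (nat_lit 3197) (.e (nat_lit 32787) (nat_lit 9) (.e (nat_lit 65630) (nat_lit 14) (.e (nat_lit 401425) (nat_lit 2) (.e (nat_lit 196668) (nat_lit 14) (.e (nat_lit 73789) (nat_lit 45) (.e (nat_lit 1141) (nat_lit 84) .nil)))))) (.g (nat_lit 0) .nil .nil))))) (.nd (nat_lit 4) (.nd (nat_lit 5) 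
(.lf (nat_lit 141833) (.g (nat_lit 1920) (.e (nat_lit 32787) (nat_lit 9) (.e (nat_lit 65628) (nat_lit 14) (.e (nat_lit 401428) (nat_lit 3) (.e (nat_lit 204862) (nat_lit 27) (.e (nat_lit 344077) (nat_lit 13) (.e (nat_lit 1139) (nat_lit 84) .nil)))))) (.g (nat_lit 4) .nil .nil))) 
(.lf (nat_lit 141865) (.g (nat_lit 2540) (.e (nat_lit 32787) (nat_lit 9) (.e (nat_lit 65630) (nat_lit 14) (.e (nat_lit 401425) (nat_lit 2) (.e (nat_lit 196666) (nat_lit 13) (.e (nat_lit 65581) (nat_lit 7) (.e (nat_lit 319519) (nat_lit 12) .nil)))))) (.g (nat_lit 4) .nil .nil)))) (.nd (nat_lit 5) 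
(.lf (nat_lit 141849) (.g (nat_lit 3088) (.e (nat_lit 32787) (nat_lit 9) (.e (nat_lit 65630) (nat_lit 14) (.e (nat_lit 401412) (nat_lit 0) (.e (nat_lit 3107) (nat_lit 193) (.e (nat_lit 500071) (nat_lit 19) (.e (nat_lit 73789) (nat_lit 45) (.e (nat_lit 1141) (nat_lit 84) .nil))))))) (.g (nat_lit 7) .nil .nil))) 
(.lf (nat_lit 141881) (.g (nat_lit 988) (.e (nat_lit 32787) (nat_lit 9) (.e (nat_lit 65630) (nat_lit 14) (.e (nat_lit 401427) (nat_lit 3) .nil))) .nil))))) (.nd (nat_lit 3) (.nd (nat_lit 4) (.nd (nat_lit 5) 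
(.lf (nat_lit 141829) (.g (nat_lit 1885) (.e (nat_lit 32787) (nat_lit 9) (.e (nat_lit 65628) (nat_lit 14) (.e (nat_lit 401425) (nat_lit 2) (.e (nat_lit 196669) (nat_lit 14) .nil)))) .nil)) 
(.lf (nat_lit 141861) (.g (nat_lit 1488) (.e (nat_lit 32787) (nat_lit 9) (.e (nat_lit 65630) (nat_lit 14) (.e (nat_lit 401425) (nat_lit 2) (.e (nat_lit 196630) (nat_lit 9) .nil)))) .nil))) (.nd (nat_lit 5) 
(.lf (nat_lit 141845) (.g (nat_lit 669) (.e (nat_lit 32787) (nat_lit 9) (.e (nat_lit 65630) (nat_lit 14) (.e (nat_lit 401411) (nat_lit 0) .nil))) .nil)) 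
(.lf (nat_lit 141877) (.g (nat_lit 2886) (.e (nat_lit 32787) (nat_lit 9) (.e (nat_lit 65630) (nat_lit 14) (.e (nat_lit 401425) (nat_lit 2) (.e (nat_lit 196670) (nat_lit 14) (.e (nat_lit 73791) (nat_lit 45) (.e (nat_lit 1141) (nat_lit 84) .nil)))))) (.g (nat_lit 0) .nil .nil))))) (.nd (nat_lit 4) (.nd (nat_lit 5) 
(.lf (nat_lit 141837) (.g (nat_lit 1930) (.e (nat_lit 32787) (nat_lit 9) (.e (nat_lit 65628) (nat_lit 14) (.e (nat_lit 401428) (nat_lit 3) (.e (nat_lit 204862) (nat_lit 27) (.e (nat_lit 344081) (nat_lit 13) (.e (nat_lit 1141) (nat_lit 84) .nil)))))) (.g (nat_lit 4) .nil .nil))) 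
(.lf (nat_lit 141869) (.g (nat_lit 2341) (.e (nat_lit 32787) (nat_lit 9) (.e (nat_lit 65630) (nat_lit 14) (.e (nat_lit 401425) (nat_lit 2) (.e (nat_lit 196666) (nat_lit 13) (.e (nat_lit 65585) (nat_lit 7) (.e (nat_lit 319519) (nat_lit 12) .nil)))))) (.g (nat_lit 4) .nil .nil)))) (.nd (nat_lit 5) 
(.lf (nat_lit 141853) (.g (nat_lit 2279) (.e (nat_lit 32787) (nat_lit 9) (.e (nat_lit 65630) (nat_lit 14) (.e (nat_lit 401412) (nat_lit 0) (.e (nat_lit 3128) (nat_lit 193) (.e (nat_lit 500071) (nat_lit 19) (.e (nat_lit 73789) (nat_lit 45) (.e (nat_lit 1140) (nat_lit 84) .nil))))))) (.g (nat_lit 4) .nil .nil))) 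
(.lf (nat_lit 141885) (.g (nat_lit 2674) (.e (nat_lit 32787) (nat_lit 9) (.e (nat_lit 65630) (nat_lit 14) (.e (nat_lit 401427) (nat_lit 3) (.e (nat_lit 204863) (nat_lit 27) (.e (nat_lit 344074) (nat_lit 13) .nil))))) .nil)))))) (.nd (nat_lit 2) (.nd (nat_lit 3) (.nd (nat_lit 4) (.nd (nat_lit 5) 
(.lf (nat_lit 141827) (.g (nat_lit 1933) (.e (nat_lit 32787) (nat_lit 9) (.e (nat_lit 65628) (nat_lit 14) (.e (nat_lit 401425) (nat_lit 2) (.e (nat_lit 196667) (nat_lit 14) .nil)))) .nil)) 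
(.lf (nat_lit 141859) (.g (nat_lit 2580) (.e (nat_lit 32787) (nat_lit 9) (.e (nat_lit 65630) (nat_lit 14) (.e (nat_lit 401423) (nat_lit 2) (.e (nat_lit 196670) (nat_lit 14) (.e (nat_lit 73792) (nat_lit 45) .nil))))) .nil))) (.nd (nat_lit 5) 
(.lf (nat_lit 141843) (.g (nat_lit 810) (.e (nat_lit 32787) (nat_lit 9) (.e (nat_lit 65630) (nat_lit 14) (.e (nat_lit 401410) (nat_lit 0) .nil))) .nil)) 
(.lf (nat_lit 141875) (.g (nat_lit 2606) (.e (nat_lit 32787) (nat_lit 9) (.e (nat_lit 65630) (nat_lit 14) (.e (nat_lit 401425) (nat_lit 2) (.e (nat_lit 196670) (nat_lit 14) (.e (nat_lit 73786) (nat_lit 45) .nil))))) .nil)))) (.nd (nat_lit 4) (.nd (nat_lit 5) 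
(.lf (nat_lit 141835) (.g (nat_lit 1919) (.e (nat_lit 32787) (nat_lit 9) (.e (nat_lit 65628) (nat_lit 14) (.e (nat_lit 401428) (nat_lit 3) (.e (nat_lit 204862) (nat_lit 27) (.e (nat_lit 344077) (nat_lit 13) (.e (nat_lit 1141) (nat_lit 84) .nil)))))) (.g (nat_lit 4) .nil .nil))) 
(.lf (nat_lit 141867) (.g (nat_lit 3989) (.e (nat_lit 32787) (nat_lit 9) (.e (nat_lit 65630) (nat_lit 14) (.e (nat_lit 401425) (nat_lit 2) (.e (nat_lit 196666) (nat_lit 13) (.e (nat_lit 65583) (nat_lit 7) (.e (nat_lit 319519) (nat_lit 12) .nil)))))) (.g (nat_lit 0) .nil .nil)))) (.nd (nat_lit 5) 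
(.lf (nat_lit 141851) (.g (nat_lit 2852) (.e (nat_lit 32787) (nat_lit 9) (.e (nat_lit 65630) (nat_lit 14) (.e (nat_lit 401412) (nat_lit 0) (.e (nat_lit 3123) (nat_lit 193) (.e (nat_lit 500071) (nat_lit 19) (.e (nat_lit 73789) (nat_lit 45) (.e (nat_lit 1139) (nat_lit 84) .nil))))))) (.g (nat_lit 7) .nil .nil))) 
(.lf (nat_lit 141883) (.g (nat_lit 2536) (.e (nat_lit 32787) (nat_lit 9) (.e (nat_lit 65630) (nat_lit 14) (.e (nat_lit 401427) (nat_lit 3) (.e (nat_lit 204862) (nat_lit 27) (.e (nat_lit 344077) (nat_lit 13) .nil))))) .nil))))) (.nd (nat_lit 3) (.nd (nat_lit 4) (.nd (nat_lit 5) 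
(.lf (nat_lit 141831) (.g (nat_lit 3023) (.e (nat_lit 32787) (nat_lit 9) (.e (nat_lit 65628) (nat_lit 14) (.e (nat_lit 401428) (nat_lit 3) (.e (nat_lit 204855) (nat_lit 26) (.e (nat_lit 336058) (nat_lit 7) (.e (nat_lit 319519) (nat_lit 12) .nil)))))) (.g (nat_lit 0) .nil .nil))) 
(.lf (nat_lit 141863) (.g (nat_lit 1900) (.e (nat_lit 32787) (nat_lit 9) (.e (nat_lit 65630) (nat_lit 14) (.e (nat_lit 401425) (nat_lit 2) (.e (nat_lit 196665) (nat_lit 13) .nil)))) .nil))) (.nd (nat_lit 5) 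
(.lf (nat_lit 141847) (.g (nat_lit 3019) (.e (nat_lit 32787) (nat_lit 9) (.e (nat_lit 65630) (nat_lit 14) (.e (nat_lit 401412) (nat_lit 0) (.e (nat_lit 3107) (nat_lit 193) (.e (nat_lit 500071) (nat_lit 19) (.e (nat_lit 73789) (nat_lit 45) (.e (nat_lit 1139) (nat_lit 84) .nil))))))) (.g (nat_lit 7) .nil .nil))) 
(.lf (nat_lit 141879) (.g (nat_lit 2217) (.e (nat_lit 32787) (nat_lit 9) (.e (nat_lit 65630) (nat_lit 14) (.e (nat_lit 401425) (nat_lit 2) (.e (nat_lit 196681) (nat_lit 17) (.e (nat_lit 131102) (nat_lit 7) .nil))))) .nil)))) (.nd (nat_lit 4) (.nd (nat_lit 5) 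
(.lf (nat_lit 141839) (.g (nat_lit 3040) (.e (nat_lit 32787) (nat_lit 9) (.e (nat_lit 65628) (nat_lit 14) (.e (nat_lit 401428) (nat_lit 3) (.e (nat_lit 204863) (nat_lit 27) (.e (nat_lit 344078) (nat_lit 13) (.e (nat_lit 1139) (nat_lit 84) .nil)))))) (.g (nat_lit 4) .nil .nil))) 
(.lf (nat_lit 141871) (.g (nat_lit 1237) (.e (nat_lit 32787) (nat_lit 9) (.e (nat_lit 65630) (nat_lit 14) (.e (nat_lit 401425) (nat_lit 2) (.e (nat_lit 196668) (nat_lit 14) .nil)))) .nil))) (.nd (nat_lit 5) 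
(.lf (nat_lit 141855) (.g (nat_lit 2906) (.e (nat_lit 32787) (nat_lit 9) (.e (nat_lit 65630) (nat_lit 14) (.e (nat_lit 401412) (nat_lit 0) (.e (nat_lit 3133) (nat_lit 193) (.e (nat_lit 500071) (nat_lit 19) (.e (nat_lit 73789) (nat_lit 45) (.e (nat_lit 1139) (nat_lit 84) .nil))))))) (.g (nat_lit 7) .nil .nil))) 
(.lf (nat_lit 141887) (.g (nat_lit 312) (.e (nat_lit 32787) (nat_lit 9) (.e (nat_lit 65630) (nat_lit 14) (.e (nat_lit 401428) (nat_lit 3) .nil))) .nil))))))))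

noncomputable def tv1883 : DT := (.nd (nat_lit 0) (.nd (nat_lit 1) (.nd (nat_lit 2) (.nd (nat_lit 3) (.nd (nat_lit 4) (.nd (nat_lit 5) 
(.lf (nat_lit 141888) (.g (nat_lit 3423) (.e (nat_lit 32787) (nat_lit 9) (.e (nat_lit 65630) (nat_lit 14) (.e (nat_lit 401428) (nat_lit 3) (.e (nat_lit 204855) (nat_lit 26) (.e (nat_lit 336061) (nat_lit 7) (.e (nat_lit 319519) (nat_lit 12) .nil)))))) (.g (nat_lit 6) .nil .nil))) 
(.lf (nat_lit 141920) (.g (nat_lit 2012) (.e (nat_lit 32788) (nat_lit 10) (.e (nat_lit 73753) (nat_lit 8) (.e (nat_lit 557103) (nat_lit 14) (.e (nat_lit 188160) (nat_lit 3) .nil)))) .nil))) (.nd (nat_lit 5) 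
(.lf (nat_lit 141904) (.g (nat_lit 2965) (.e (nat_lit 32788) (nat_lit 10) (.e (nat_lit 73746) (nat_lit 3) (.e (nat_lit 516129) (nat_lit 3) (.e (nat_lit 221210) (nat_lit 22) (.e (nat_lit 196660) (nat_lit 12) (.e (nat_lit 57507) (nat_lit 39) (.e (nat_lit 647203) (nat_lit 14) (.e (nat_lit 1139) (nat_lit 84) .nil)))))))) (.g (nat_lit 6) .nil .nil))) 
(.lf (nat_lit 141936) (.g (nat_lit 3069) (.e (nat_lit 32788) (nat_lit 10) (.e (nat_lit 73754) (nat_lit 8) (.e (nat_lit 557105) (nat_lit 14) (.e (nat_lit 180252) (nat_lit 10) (.e (nat_lit 573475) (nat_lit 12) (.e (nat_lit 57507) (nat_lit 39) (.e (nat_lit 647203) (nat_lit 14) (.e (nat_lit 1135) (nat_lit 84) .nil)))))))) (.g (nat_lit 5) .nil .nil))))) (.nd (nat_lit 4) (.nd (nat_lit 5) 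
(.lf (nat_lit 141896) (.g (nat_lit 3627) (.e (nat_lit 32787) (nat_lit 9) (.e (nat_lit 65630) (nat_lit 14) (.e (nat_lit 401428) (nat_lit 3) (.e (nat_lit 204863) (nat_lit 27) (.e (nat_lit 344074) (nat_lit 13) (.e (nat_lit 1139) (nat_lit 84) .nil)))))) (.g (nat_lit 5) .nil .nil))) 
(.lf (nat_lit 141928) (.g (nat_lit 1861) (.e (nat_lit 32788) (nat_lit 10) (.e (nat_lit 73754) (nat_lit 8) (.e (nat_lit 557100) (nat_lit 13) (.e (nat_lit 172067) (nat_lit 3) .nil)))) .nil))) (.nd (nat_lit 5) 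
(.lf (nat_lit 141912) (.g (nat_lit 543) (.e (nat_lit 32788) (nat_lit 10) (.e (nat_lit 73753) (nat_lit 8) (.e (nat_lit 557098) (nat_lit 13) .nil))) .nil)) 
(.lf (nat_lit 141944) (.g (nat_lit 2287) (.e (nat_lit 32788) (nat_lit 10) (.e (nat_lit 73755) (nat_lit 8) (.e (nat_lit 557105) (nat_lit 14) (.e (nat_lit 180252) (nat_lit 10) (.e (nat_lit 573474) (nat_lit 12) (.e (nat_lit 57508) (nat_lit 39) (.e (nat_lit 647203) (nat_lit 14) (.e (nat_lit 1135) (nat_lit 84) .nil)))))))) (.g (nat_lit 4) .nil .nil)))))) 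
(.nd (nat_lit 3) (.nd (nat_lit 4) (.nd (nat_lit 5) 
(.lf (nat_lit 141892) (.g (nat_lit 1844) (.e (nat_lit 32787) (nat_lit 9) (.e (nat_lit 65630) (nat_lit 14) (.e (nat_lit 401428) (nat_lit 3) (.e (nat_lit 204862) (nat_lit 27) (.e (nat_lit 344077) (nat_lit 13) (.e (nat_lit 1140) (nat_lit 84) .nil)))))) (.g (nat_lit 4) .nil .nil))) 
(.lf (nat_lit 141924) (.g (nat_lit 3487) (.e (nat_lit 32788) (nat_lit 10) (.e (nat_lit 73753) (nat_lit 8) (.e (nat_lit 557103) (nat_lit 14) (.e (nat_lit 180250) (nat_lit 10) (.e (nat_lit 573474) (nat_lit 12) (.e (nat_lit 57507) (nat_lit 39) (.e (nat_lit 647203) (nat_lit 14) (.e (nat_lit 1139) (nat_lit 84) .nil)))))))) (.g (nat_lit 5) .nil .nil)))) (.nd (nat_lit 5) 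
(.lf (nat_lit 141908) (.g (nat_lit 2050) (.e (nat_lit 32788) (nat_lit 10) (.e (nat_lit 73746) (nat_lit 3) (.e (nat_lit 516131) (nat_lit 3) (.e (nat_lit 221212) (nat_lit 22) (.e (nat_lit 196660) (nat_lit 12) (.e (nat_lit 57507) (nat_lit 39) (.e (nat_lit 647203) (nat_lit 14) (.e (nat_lit 1139) (nat_lit 84) .nil)))))))) (.g (nat_lit 4) .nil .nil))) 
(.lf (nat_lit 141940) (.g (nat_lit 2034) (.e (nat_lit 32788) (nat_lit 10) (.e (nat_lit 73755) (nat_lit 8) (.e (nat_lit 557104) (nat_lit 14) (.e (nat_lit 188160) (nat_lit 3) .nil)))) .nil)))) (.nd (nat_lit 4) (.nd (nat_lit 5) 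
(.lf (nat_lit 141900) (.g (nat_lit 1355) (.e (nat_lit 32788) (nat_lit 10) (.e (nat_lit 73746) (nat_lit 3) (.e (nat_lit 516129) (nat_lit 3) (.e (nat_lit 229120) (nat_lit 3) .nil)))) .nil)) 
(.lf (nat_lit 141932) (.g (nat_lit 1869) (.e (nat_lit 32788) (nat_lit 10) (.e (nat_lit 73754) (nat_lit 8) (.e (nat_lit 557105) (nat_lit 14) (.e (nat_lit 188160) (nat_lit 3) .nil)))) .nil))) (.nd (nat_lit 5) 
(.lf (nat_lit 141916) (.g (nat_lit 3095) (.e (nat_lit 32788) (nat_lit 10) (.e (nat_lit 73753) (nat_lit 8) (.e (nat_lit 557100) (nat_lit 13) (.e (nat_lit 172065) (nat_lit 3) (.e (nat_lit 204821) (nat_lit 17) .nil))))) .nil)) 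
(.lf (nat_lit 141948) (.g (nat_lit 1637) (.e (nat_lit 32788) (nat_lit 10) (.e (nat_lit 73781) (nat_lit 32) (.e (nat_lit 2664) (nat_lit 167) (.e (nat_lit 196666) (nat_lit 13) (.e (nat_lit 65582) (nat_lit 7) .nil))))) .nil)))))) (.nd (nat_lit 2) (.nd (nat_lit 3) (.nd (nat_lit 4) (.nd (nat_lit 5) 
(.lf (nat_lit 141890) (.g (nat_lit 1744) (.e (nat_lit 32787) (nat_lit 9) (.e (nat_lit 65630) (nat_lit 14) (.e (nat_lit 401428) (nat_lit 3) (.e (nat_lit 204862) (nat_lit 27) (.e (nat_lit 344076) (nat_lit 13) .nil))))) .nil)) 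
(.lf (nat_lit 141922) (.g (nat_lit 2737) (.e (nat_lit 32788) (nat_lit 10) (.e (nat_lit 73753) (nat_lit 8) (.e (nat_lit 557103) (nat_lit 14) (.e (nat_lit 180250) (nat_lit 10) (.e (nat_lit 573473) (nat_lit 12) .nil))))) .nil))) (.nd (nat_lit 5) 
(.lf (nat_lit 141906) (.g (nat_lit 2253) (.e (nat_lit 32788) (nat_lit 10) (.e (nat_lit 73746) (nat_lit 3) (.e (nat_lit 516131) (nat_lit 3) (.e (nat_lit 221212) (nat_lit 22) (.e (nat_lit 196651) (nat_lit 10) .nil))))) .nil)) 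
(.lf (nat_lit 141938) (.g (nat_lit 3623) (.e (nat_lit 32788) (nat_lit 10) (.e (nat_lit 73754) (nat_lit 8) (.e (nat_lit 557105) (nat_lit 14) (.e (nat_lit 180252) (nat_lit 10) (.e (nat_lit 573475) (nat_lit 12) (.e (nat_lit 57508) (nat_lit 39) (.e (nat_lit 647203) (nat_lit 14) (.e (nat_lit 1139) (nat_lit 84) .nil)))))))) (.g (nat_lit 6) .nil .nil))))) (.nd (nat_lit 4) (.nd (nat_lit 5) 
(.lf (nat_lit 141898) (.g (nat_lit 2667) (.e (nat_lit 32787) (nat_lit 9) (.e (nat_lit 65630) (nat_lit 14) (.e (nat_lit 401428) (nat_lit 3) (.e (nat_lit 204863) (nat_lit 27) (.e (nat_lit 344079) (nat_lit 13) (.e (nat_lit 1140) (nat_lit 84) .nil)))))) (.g (nat_lit 4) .nil .nil))) 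
(.lf (nat_lit 141930) (.g (nat_lit 716) (.e (nat_lit 32788) (nat_lit 10) (.e (nat_lit 73754) (nat_lit 8) (.e (nat_lit 557103) (nat_lit 14) .nil))) .nil))) (.nd (nat_lit 5) 
(.lf (nat_lit 141914) (.g (nat_lit 1941) (.e (nat_lit 32788) (nat_lit 10) (.e (nat_lit 73753) (nat_lit 8) (.e (nat_lit 557098) (nat_lit 13) (.e (nat_lit 172066) (nat_lit 3) .nil)))) .nil)) 
(.lf (nat_lit 141946) (.g (nat_lit 2274) (.e (nat_lit 32788) (nat_lit 10) (.e (nat_lit 73781) (nat_lit 32) (.e (nat_lit 2663) (nat_lit 167) (.e (nat_lit 196670) (nat_lit 14) (.e (nat_lit 73791) (nat_lit 45) .nil))))) .nil))))) (.nd (nat_lit 3) (.nd (nat_lit 4) (.nd (nat_lit 5) 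
(.lf (nat_lit 141894) (.g (nat_lit 1898) (.e (nat_lit 32787) (nat_lit 9) (.e (nat_lit 65630) (nat_lit 14) (.e (nat_lit 401428) (nat_lit 3) (.e (nat_lit 204862) (nat_lit 27) (.e (nat_lit 344081) (nat_lit 13) (.e (nat_lit 1140) (nat_lit 84) .nil)))))) (.g (nat_lit 4) .nil .nil))) 
(.lf (nat_lit 141926) (.g (nat_lit 3345) (.e (nat_lit 32788) (nat_lit 10) (.e (nat_lit 73753) (nat_lit 8) (.e (nat_lit 557105) (nat_lit 14) (.e (nat_lit 180252) (nat_lit 10) (.e (nat_lit 573474) (nat_lit 12) (.e (nat_lit 57508) (nat_lit 39) (.e (nat_lit 647203) (nat_lit 14) (.e (nat_lit 1139) (nat_lit 84) .nil)))))))) (.g (nat_lit 4) .nil .nil)))) (.nd (nat_lit 5) 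
(.lf (nat_lit 141910) (.g (nat_lit 2285) (.e (nat_lit 32788) (nat_lit 10) (.e (nat_lit 73747) (nat_lit 3) (.e (nat_lit 516129) (nat_lit 3) (.e (nat_lit 221210) (nat_lit 22) (.e (nat_lit 196660) (nat_lit 12) .nil))))) .nil)) 
(.lf (nat_lit 141942) (.g (nat_lit 2555) (.e (nat_lit 32788) (nat_lit 10) (.e (nat_lit 73755) (nat_lit 8) (.e (nat_lit 557105) (nat_lit 14) (.e (nat_lit 180252) (nat_lit 10) (.e (nat_lit 573473) (nat_lit 12) .nil))))) .nil)))) (.nd (nat_lit 4) (.nd (nat_lit 5) 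
(.lf (nat_lit 141902) (.g (nat_lit 2165) (.e (nat_lit 32788) (nat_lit 10) (.e (nat_lit 73746) (nat_lit 3) (.e (nat_lit 516129) (nat_lit 3) (.e (nat_lit 221210) (nat_lit 22) (.e (nat_lit 196658) (nat_lit 12) .nil))))) .nil)) 
(.lf (nat_lit 141934) (.g (nat_lit 3965) (.e (nat_lit 32788) (nat_lit 10) (.e (nat_lit 73754) (nat_lit 8) (.e (nat_lit 557105) (nat_lit 14) (.e (nat_lit 180252) (nat_lit 10) (.e (nat_lit 573473) (nat_lit 12) (.e (nat_lit 57508) (nat_lit 39) (.e (nat_lit 647203) (nat_lit 14) (.e (nat_lit 1139) (nat_lit 84) .nil)))))))) (.g (nat_lit 7) .nil .nil)))) (.nd (nat_lit 5) 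
(.lf (nat_lit 141918) (.g (nat_lit 1377) (.e (nat_lit 32788) (nat_lit 10) (.e (nat_lit 73753) (nat_lit 8) (.e (nat_lit 557101) (nat_lit 13) (.e (nat_lit 172065) (nat_lit 3) .nil)))) .nil)) 
(.lf (nat_lit 141950) (.g (nat_lit 2340) (.e (nat_lit 32788) (nat_lit 10) (.e (nat_lit 73781) (nat_lit 32) (.e (nat_lit 2664) (nat_lit 167) (.e (nat_lit 196668) (nat_lit 14) (.e (nat_lit 73789) (nat_lit 45) (.e (nat_lit 1141) (nat_lit 84) .nil)))))) (.g (nat_lit 0) .nil .nil)))))))) (.nd (nat_lit 1) (.nd (nat_lit 2) (.nd (nat_lit 3) (.nd (nat_lit 4) (.nd (nat_lit 5) 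
(.lf (nat_lit 141889) (.g (nat_lit 1655) (.e (nat_lit 32787) (nat_lit 9) (.e (nat_lit 65630) (nat_lit 14) (.e (nat_lit 401428) (nat_lit 3) (.e (nat_lit 204862) (nat_lit 27) (.e (nat_lit 344074) (nat_lit 13) .nil))))) .nil)) 
(.lf (nat_lit 141921) (.g (nat_lit 1898) (.e (nat_lit 32788) (nat_lit 10) (.e (nat_lit 73753) (nat_lit 8) (.e (nat_lit 557103) (nat_lit 14) (.e (nat_lit 180250) (nat_lit 10) .nil)))) .nil))) (.nd (nat_lit 5) 
(.lf (nat_lit 141905) (.g (nat_lit 1174) (.e (nat_lit 32788) (nat_lit 10) (.e (nat_lit 73746) (nat_lit 3) (.e (nat_lit 516131) (nat_lit 3) (.e (nat_lit 221212) (nat_lit 22) .nil)))) .nil)) 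
(.lf (nat_lit 141937) (.g (nat_lit 2051) (.e (nat_lit 32788) (nat_lit 10) (.e (nat_lit 73754) (nat_lit 8) (.e (nat_lit 557105) (nat_lit 14) (.e (nat_lit 180252) (nat_lit 10) (.e (nat_lit 573475) (nat_lit 12) (.e (nat_lit 57508) (nat_lit 39) (.e (nat_lit 647203) (nat_lit 14) (.e (nat_lit 1135) (nat_lit 84) .nil)))))))) (.g (nat_lit 4) .nil .nil))))) (.nd (nat_lit 4) (.nd (nat_lit 5) 
(.lf (nat_lit 141897) (.g (nat_lit 3122) (.e (nat_lit 32787) (nat_lit 9) (.e (nat_lit 65630) (nat_lit 14) (.e (nat_lit 401428) (nat_lit 3) (.e (nat_lit 204863) (nat_lit 27) (.e (nat_lit 344078) (nat_lit 13) .nil))))) .nil)) 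
(.lf (nat_lit 141929) (.g (nat_lit 1310) (.e (nat_lit 32788) (nat_lit 10) (.e (nat_lit 73754) (nat_lit 8) (.e (nat_lit 557101) (nat_lit 13) (.e (nat_lit 172065) (nat_lit 3) .nil)))) .nil))) (.nd (nat_lit 5) 
(.lf (nat_lit 141913) (.g (nat_lit 2433) (.e (nat_lit 32788) (nat_lit 10) (.e (nat_lit 73753) (nat_lit 8) (.e (nat_lit 557098) (nat_lit 13) (.e (nat_lit 172065) (nat_lit 3) (.e (nat_lit 204821) (nat_lit 17) .nil))))) .nil)) 
(.lf (nat_lit 141945) (.g (nat_lit 3747) (.e (nat_lit 32788) (nat_lit 10) (.e (nat_lit 73755) (nat_lit 8) (.e (nat_lit 557105) (nat_lit 14) (.e (nat_lit 180252) (nat_lit 10) (.e (nat_lit 573474) (nat_lit 12) (.e (nat_lit 57508) (nat_lit 39) (.e (nat_lit 647203) (nat_lit 14) (.e (nat_lit 1139) (nat_lit 84) .nil)))))))) (.g (nat_lit 7) .nil .nil)))))) 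
(.nd (nat_lit 3) (.nd (nat_lit 4) (.nd (nat_lit 5) 
(.lf (nat_lit 141893) (.g (nat_lit 1915) (.e (nat_lit 32787) (nat_lit 9) (.e (nat_lit 65630) (nat_lit 14) (.e (nat_lit 401428) (nat_lit 3) (.e (nat_lit 204862) (nat_lit 27) (.e (nat_lit 344077) (nat_lit 13) (.e (nat_lit 1141) (nat_lit 84) .nil)))))) (.g (nat_lit 4) .nil .nil))) 
(.lf (nat_lit 141925) (.g (nat_lit 3352) (.e (nat_lit 32788) (nat_lit 10) (.e (nat_lit 73753) (nat_lit 8) (.e (nat_lit 557105) (nat_lit 14) (.e (nat_lit 180252) (nat_lit 10) (.e (nat_lit 573473) (nat_lit 12) (.e (nat_lit 57507) (nat_lit 39) (.e (nat_lit 647203) (nat_lit 14) (.e (nat_lit 1139) (nat_lit 84) .nil)))))))) (.g (nat_lit 5) .nil .nil)))) (.nd (nat_lit 5) 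
(.lf (nat_lit 141909) (.g (nat_lit 2349) (.e (nat_lit 32788) (nat_lit 10) (.e (nat_lit 73747) (nat_lit 3) (.e (nat_lit 516129) (nat_lit 3) (.e (nat_lit 221210) (nat_lit 22) (.e (nat_lit 196658) (nat_lit 12) .nil))))) .nil)) 
(.lf (nat_lit 141941) (.g (nat_lit 672) (.e (nat_lit 32788) (nat_lit 10) (.e (nat_lit 73755) (nat_lit 8) (.e (nat_lit 557105) (nat_lit 14) .nil))) .nil)))) (.nd (nat_lit 4) (.nd (nat_lit 5) 
(.lf (nat_lit 141901) (.g (nat_lit 1324) (.e (nat_lit 32788) (nat_lit 10) (.e (nat_lit 73746) (nat_lit 3) (.e (nat_lit 516129) (nat_lit 3) (.e (nat_lit 221210) (nat_lit 22) .nil)))) .nil)) 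
(.lf (nat_lit 141933) (.g (nat_lit 2393) (.e (nat_lit 32788) (nat_lit 10) (.e (nat_lit 73754) (nat_lit 8) (.e (nat_lit 557105) (nat_lit 14) (.e (nat_lit 180252) (nat_lit 10) (.e (nat_lit 573473) (nat_lit 12) (.e (nat_lit 57508) (nat_lit 39) (.e (nat_lit 647203) (nat_lit 14) (.e (nat_lit 1135) (nat_lit 84) .nil)))))))) (.g (nat_lit 4) .nil .nil)))) (.nd (nat_lit 5) 
(.lf (nat_lit 141917) (.g (nat_lit 1725) (.e (nat_lit 32788) (nat_lit 10) (.e (nat_lit 73753) (nat_lit 8) (.e (nat_lit 557100) (nat_lit 13) (.e (nat_lit 172067) (nat_lit 3) .nil)))) .nil)) 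
(.lf (nat_lit 141949) (.g (nat_lit 2270) (.e (nat_lit 32788) (nat_lit 10) (.e (nat_lit 73781) (nat_lit 32) (.e (nat_lit 2664) (nat_lit 167) (.e (nat_lit 196668) (nat_lit 14) (.e (nat_lit 73789) (nat_lit 45) (.e (nat_lit 1140) (nat_lit 84) .nil)))))) (.g (nat_lit 0) .nil .nil))))))) (.nd (nat_lit 2) (.nd (nat_lit 3) (.nd (nat_lit 4) (.nd (nat_lit 5) 
(.lf (nat_lit 141891) (.g (nat_lit 1760) (.e (nat_lit 32787) (nat_lit 9) (.e (nat_lit 65630) (nat_lit 14) (.e (nat_lit 401428) (nat_lit 3) (.e (nat_lit 204862) (nat_lit 27) (.e (nat_lit 344077) (nat_lit 13) (.e (nat_lit 1139) (nat_lit 84) .nil)))))) (.g (nat_lit 4) .nil .nil))) 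
(.lf (nat_lit 141923) (.g (nat_lit 2779) (.e (nat_lit 32788) (nat_lit 10) (.e (nat_lit 73753) (nat_lit 8) (.e (nat_lit 557103) (nat_lit 14) (.e (nat_lit 180250) (nat_lit 10) (.e (nat_lit 573473) (nat_lit 12) (.e (nat_lit 57507) (nat_lit 39) (.e (nat_lit 647203) (nat_lit 14) (.e (nat_lit 1139) (nat_lit 84) .nil)))))))) (.g (nat_lit 4) .nil .nil)))) (.nd (nat_lit 5) 
(.lf (nat_lit 141907) (.g (nat_lit 1839) (.e (nat_lit 32788) (nat_lit 10) (.e (nat_lit 73746) (nat_lit 3) (.e (nat_lit 516131) (nat_lit 3) (.e (nat_lit 221212) (nat_lit 22) (.e (nat_lit 196658) (nat_lit 12) (.e (nat_lit 57508) (nat_lit 39) (.e (nat_lit 647203) (nat_lit 14) (.e (nat_lit 1139) (nat_lit 84) .nil)))))))) (.g (nat_lit 4) .nil .nil))) 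
(.lf (nat_lit 141939) (.g (nat_lit 1896) (.e (nat_lit 32788) (nat_lit 10) (.e (nat_lit 73755) (nat_lit 8) (.e (nat_lit 557103) (nat_lit 14) (.e (nat_lit 188160) (nat_lit 3) .nil)))) .nil)))) (.nd (nat_lit 4) (.nd (nat_lit 5) 
(.lf (nat_lit 141899) (.g (nat_lit 1470) (.e (nat_lit 32787) (nat_lit 9) (.e (nat_lit 65630) (nat_lit 14) (.e (nat_lit 401428) (nat_lit 3) (.e (nat_lit 204864) (nat_lit 27) (.e (nat_lit 344081) (nat_lit 13) .nil))))) .nil)) 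
(.lf (nat_lit 141931) (.g (nat_lit 1700) (.e (nat_lit 32788) (nat_lit 10) (.e (nat_lit 73754) (nat_lit 8) (.e (nat_lit 557103) (nat_lit 14) (.e (nat_lit 180250) (nat_lit 10) (.e (nat_lit 573475) (nat_lit 12) .nil))))) .nil))) (.nd (nat_lit 5) 
(.lf (nat_lit 141915) (.g (nat_lit 2837) (.e (nat_lit 32788) (nat_lit 10) (.e (nat_lit 73753) (nat_lit 8) (.e (nat_lit 557098) (nat_lit 13) (.e (nat_lit 172067) (nat_lit 3) (.e (nat_lit 204821) (nat_lit 17) .nil))))) .nil)) 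
(.lf (nat_lit 141947) (.g (nat_lit 217) (.e (nat_lit 32788) (nat_lit 10) (.e (nat_lit 73781) (nat_lit 32) (.e (nat_lit 2664) (nat_lit 167) .nil))) .nil))))) (.nd (nat_lit 3) (.nd (nat_lit 4) (.nd (nat_lit 5) 
(.lf (nat_lit 141895) (.g (nat_lit 1943) (.e (nat_lit 32787) (nat_lit 9) (.e (nat_lit 65630) (nat_lit 14) (.e (nat_lit 401428) (nat_lit 3) (.e (nat_lit 204862) (nat_lit 27) (.e (nat_lit 344081) (nat_lit 13) (.e (nat_lit 1141) (nat_lit 84) .nil)))))) (.g (nat_lit 4) .nil .nil))) 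
(.lf (nat_lit 141927) (.g (nat_lit 3216) (.e (nat_lit 32788) (nat_lit 10) (.e (nat_lit 73754) (nat_lit 8) (.e (nat_lit 557100) (nat_lit 13) (.e (nat_lit 172065) (nat_lit 3) (.e (nat_lit 204821) (nat_lit 17) .nil))))) .nil))) (.nd (nat_lit 5) 
(.lf (nat_lit 141911) (.g (nat_lit 1071) (.e (nat_lit 32788) (nat_lit 10) (.e (nat_lit 73747) (nat_lit 3) (.e (nat_lit 516131) (nat_lit 3) (.e (nat_lit 221212) (nat_lit 22) .nil)))) .nil)) 
(.lf (nat_lit 141943) (.g (nat_lit 3223) (.e (nat_lit 32788) (nat_lit 10) (.e (nat_lit 73755) (nat_lit 8) (.e (nat_lit 557105) (nat_lit 14) (.e (nat_lit 180252) (nat_lit 10) (.e (nat_lit 573474) (nat_lit 12) (.e (nat_lit 57507) (nat_lit 39) (.e (nat_lit 647203) (nat_lit 14) (.e (nat_lit 1135) (nat_lit 84) .nil)))))))) (.g (nat_lit 5) .nil .nil))))) (.nd (nat_lit 4) (.nd (nat_lit 5) 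
(.lf (nat_lit 141903) (.g (nat_lit 3464) (.e (nat_lit 32788) (nat_lit 10) (.e (nat_lit 73746) (nat_lit 3) (.e (nat_lit 516129) (nat_lit 3) (.e (nat_lit 221210) (nat_lit 22) (.e (nat_lit 196658) (nat_lit 12) (.e (nat_lit 57508) (nat_lit 39) (.e (nat_lit 647203) (nat_lit 14) (.e (nat_lit 1139) (nat_lit 84) .nil)))))))) (.g (nat_lit 7) .nil .nil))) 
(.lf (nat_lit 141935) (.g (nat_lit 3342) (.e (nat_lit 32788) (nat_lit 10) (.e (nat_lit 73754) (nat_lit 8) (.e (nat_lit 557105) (nat_lit 14) (.e (nat_lit 180252) (nat_lit 10) (.e (nat_lit 573474) (nat_lit 12) .nil))))) .nil))) (.nd (nat_lit 5) 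
(.lf (nat_lit 141919) (.g (nat_lit 1497) (.e (nat_lit 32788) (nat_lit 10) (.e (nat_lit 73753) (nat_lit 8) (.e (nat_lit 557101) (nat_lit 13) (.e (nat_lit 172066) (nat_lit 3) .nil)))) .nil)) 
(.lf (nat_lit 141951) (.g (nat_lit 987) (.e (nat_lit 32788) (nat_lit 10) (.e (nat_lit 73781) (nat_lit 32) (.e (nat_lit 2664) (nat_lit 167) (.e (nat_lit 196669) (nat_lit 14) (.e (nat_lit 73788) (nat_lit 45) .nil))))) .nil))))))))

noncomputable def tv1884 : DT := (.nd (nat_lit 0) (.nd (nat_lit 1) (.nd (nat_lit 2) (.nd (nat_lit 3) (.nd (nat_lit 4) (.nd (nat_lit 5) 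
(.lf (nat_lit 141952) (.g (nat_lit 2401) (.e (nat_lit 32788) (nat_lit 10) (.e (nat_lit 73781) (nat_lit 32) (.e (nat_lit 2664) (nat_lit 167) (.e (nat_lit 196670) (nat_lit 14) (.e (nat_lit 73792) (nat_lit 45) (.e (nat_lit 1141) (nat_lit 84) .nil)))))) (.g (nat_lit 0) .nil .nil))) 
(.lf (nat_lit 141984) (.g (nat_lit 1223) (.e (nat_lit 32788) (nat_lit 10) (.e (nat_lit 73789) (nat_lit 45) (.e (nat_lit 1141) (nat_lit 84) (.e (nat_lit 32788) (nat_lit 10) (.e (nat_lit 73792) (nat_lit 45) (.e (nat_lit 1140) (nat_lit 84) .nil)))))) (.g (nat_lit 0) .nil .nil)))) (.nd (nat_lit 5) 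
(.lf (nat_lit 141968) (.g (nat_lit 405) (.e (nat_lit 32788) (nat_lit 10) (.e (nat_lit 73782) (nat_lit 32) (.e (nat_lit 2681) (nat_lit 168) .nil))) .nil)) 
(.lf (nat_lit 142000) (.g (nat_lit 1288) (.e (nat_lit 32788) (nat_lit 10) (.e (nat_lit 73792) (nat_lit 45) (.e (nat_lit 1141) (nat_lit 84) (.e (nat_lit 32788) (nat_lit 10) (.e (nat_lit 73792) (nat_lit 45) (.e (nat_lit 1141) (nat_lit 84) .nil)))))) (.g (nat_lit 0) .nil .nil))))) (.nd (nat_lit 4) (.nd (nat_lit 5) 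
(.lf (nat_lit 141960) (.g (nat_lit 2899) (.e (nat_lit 32788) (nat_lit 10) (.e (nat_lit 73782) (nat_lit 32) (.e (nat_lit 2663) (nat_lit 167) (.e (nat_lit 196670) (nat_lit 14) (.e (nat_lit 73792) (nat_lit 45) (.e (nat_lit 1141) (nat_lit 84) .nil)))))) (.g (nat_lit 0) .nil .nil))) 
(.lf (nat_lit 141992) (.g (nat_lit 1054) (.e (nat_lit 32788) (nat_lit 10) (.e (nat_lit 73792) (nat_lit 45) (.e (nat_lit 1140) (nat_lit 84) (.e (nat_lit 32788) (nat_lit 10) (.e (nat_lit 73791) (nat_lit 45) (.e (nat_lit 1140) (nat_lit 84) .nil)))))) (.g (nat_lit 0) .nil .nil)))) (.nd (nat_lit 5) 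
(.lf (nat_lit 141976) (.g (nat_lit 1103) (.e (nat_lit 32788) (nat_lit 10) (.e (nat_lit 73788) (nat_lit 45) (.e (nat_lit 1141) (nat_lit 84) (.e (nat_lit 32788) (nat_lit 10) (.e (nat_lit 73792) (nat_lit 45) (.e (nat_lit 1140) (nat_lit 84) .nil)))))) (.g (nat_lit 0) .nil .nil))) 
(.lf (nat_lit 142008) (.g (nat_lit 519) (.e (nat_lit 32789) (nat_lit 11) (.e (nat_lit 81938) (nat_lit 20) (.e (nat_lit 1841) (nat_lit 123) .nil))) .nil))))) (.nd (nat_lit 3) (.nd (nat_lit 4) (.nd (nat_lit 5) 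
(.lf (nat_lit 141956) (.g (nat_lit 2130) (.e (nat_lit 32788) (nat_lit 10) (.e (nat_lit 73781) (nat_lit 32) (.e (nat_lit 2682) (nat_lit 168) (.e (nat_lit 204863) (nat_lit 27) (.e (nat_lit 344074) (nat_lit 13) (.e (nat_lit 1141) (nat_lit 84) .nil)))))) (.g (nat_lit 4) .nil .nil))) 
(.lf (nat_lit 141988) (.g (nat_lit 1438) (.e (nat_lit 32788) (nat_lit 10) (.e (nat_lit 73791) (nat_lit 45) (.e (nat_lit 1141) (nat_lit 84) (.e (nat_lit 32787) (nat_lit 9) (.e (nat_lit 65584) (nat_lit 7) (.e (nat_lit 319519) (nat_lit 12) .nil)))))) (.g (nat_lit 0) .nil .nil)))) (.nd (nat_lit 5) 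
(.lf (nat_lit 141972) (.g (nat_lit 1024) (.e (nat_lit 32788) (nat_lit 10) (.e (nat_lit 73788) (nat_lit 45) (.e (nat_lit 1140) (nat_lit 84) (.e (nat_lit 32788) (nat_lit 10) (.e (nat_lit 73792) (nat_lit 45) (.e (nat_lit 1140) (nat_lit 84) .nil)))))) (.g (nat_lit 0) .nil .nil))) 
(.lf (nat_lit 142004) (.g (nat_lit 1679) (.e (nat_lit 32789) (nat_lit 11) (.e (nat_lit 81924) (nat_lit 0) (.e (nat_lit 3305) (nat_lit 202) (.e (nat_lit 573487) (nat_lit 14) (.e (nat_lit 73788) (nat_lit 45) .nil))))) .nil)))) (.nd (nat_lit 4) (.nd (nat_lit 5) 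
(.lf (nat_lit 141964) (.g (nat_lit 2399) (.e (nat_lit 32788) (nat_lit 10) (.e (nat_lit 73782) (nat_lit 32) (.e (nat_lit 2664) (nat_lit 167) (.e (nat_lit 196668) (nat_lit 14) (.e (nat_lit 73789) (nat_lit 45) (.e (nat_lit 1141) (nat_lit 84) .nil)))))) (.g (nat_lit 0) .nil .nil))) 
(.lf (nat_lit 141996) (.g (nat_lit 1606) (.e (nat_lit 32788) (nat_lit 10) (.e (nat_lit 73792) (nat_lit 45) (.e (nat_lit 1141) (nat_lit 84) (.e (nat_lit 32787) (nat_lit 9) (.e (nat_lit 65583) (nat_lit 7) (.e (nat_lit 319519) (nat_lit 12) .nil)))))) (.g (nat_lit 0) .nil .nil)))) (.nd (nat_lit 5) 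
(.lf (nat_lit 141980) (.g (nat_lit 1195) (.e (nat_lit 32788) (nat_lit 10) (.e (nat_lit 73789) (nat_lit 45) (.e (nat_lit 1140) (nat_lit 84) (.e (nat_lit 32788) (nat_lit 10) (.e (nat_lit 73792) (nat_lit 45) (.e (nat_lit 1140) (nat_lit 84) .nil)))))) (.g (nat_lit 0) .nil .nil))) 
(.lf (nat_lit 142012) (.g (nat_lit 1081) (.e (nat_lit 32789) (nat_lit 11) (.e (nat_lit 81939) (nat_lit 20) (.e (nat_lit 1841) (nat_lit 123) (.e (nat_lit 548890) (nat_lit 10) (.e (nat_lit 73792) (nat_lit 45) (.e (nat_lit 1140) (nat_lit 84) .nil)))))) (.g (nat_lit 0) .nil .nil))))))) (.nd (nat_lit 2) (.nd (nat_lit 3) (.nd (nat_lit 4) (.nd (nat_lit 5) 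
(.lf (nat_lit 141954) (.g (nat_lit 1734) (.e (nat_lit 32788) (nat_lit 10) (.e (nat_lit 73781) (nat_lit 32) (.e (nat_lit 2681) (nat_lit 168) (.e (nat_lit 204863) (nat_lit 27) (.e (nat_lit 344081) (nat_lit 13) (.e (nat_lit 1141) (nat_lit 84) .nil)))))) (.g (nat_lit 4) .nil .nil))) 
(.lf (nat_lit 141986) (.g (nat_lit 1047) (.e (nat_lit 32788) (nat_lit 10) (.e (nat_lit 73791) (nat_lit 45) (.e (nat_lit 1140) (nat_lit 84) (.e (nat_lit 32788) (nat_lit 10) (.e (nat_lit 73789) (nat_lit 45) (.e (nat_lit 1140) (nat_lit 84) .nil)))))) (.g (nat_lit 0) .nil .nil)))) (.nd (nat_lit 5) 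
(.lf (nat_lit 141970) (.g (nat_lit 2077) (.e (nat_lit 32788) (nat_lit 10) (.e (nat_lit 73782) (nat_lit 32) (.e (nat_lit 2682) (nat_lit 168) (.e (nat_lit 204863) (nat_lit 27) (.e (nat_lit 344080) (nat_lit 13) (.e (nat_lit 1141) (nat_lit 84) .nil)))))) (.g (nat_lit 6) .nil .nil))) 
(.lf (nat_lit 142002) (.g (nat_lit 2594) (.e (nat_lit 32789) (nat_lit 11) (.e (nat_lit 81922) (nat_lit 0) (.e (nat_lit 3305) (nat_lit 202) (.e (nat_lit 573487) (nat_lit 14) (.e (nat_lit 73789) (nat_lit 45) (.e (nat_lit 1140) (nat_lit 84) .nil)))))) (.g (nat_lit 0) .nil .nil))))) (.nd (nat_lit 4) (.nd (nat_lit 5) 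
(.lf (nat_lit 141962) (.g (nat_lit 1714) (.e (nat_lit 32788) (nat_lit 10) (.e (nat_lit 73782) (nat_lit 32) (.e (nat_lit 2664) (nat_lit 167) (.e (nat_lit 196666) (nat_lit 13) (.e (nat_lit 65582) (nat_lit 7) .nil))))) .nil)) 
(.lf (nat_lit 141994) (.g (nat_lit 1198) (.e (nat_lit 32788) (nat_lit 10) (.e (nat_lit 73792) (nat_lit 45) (.e (nat_lit 1140) (nat_lit 84) (.e (nat_lit 32788) (nat_lit 10) (.e (nat_lit 73792) (nat_lit 45) (.e (nat_lit 1140) (nat_lit 84) .nil)))))) (.g (nat_lit 0) .nil .nil)))) (.nd (nat_lit 5) 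
(.lf (nat_lit 141978) (.g (nat_lit 1087) (.e (nat_lit 32788) (nat_lit 10) (.e (nat_lit 73789) (nat_lit 45) (.e (nat_lit 1140) (nat_lit 84) (.e (nat_lit 32788) (nat_lit 10) (.e (nat_lit 73789) (nat_lit 45) (.e (nat_lit 1139) (nat_lit 84) .nil)))))) (.g (nat_lit 5) .nil .nil))) 
(.lf (nat_lit 142010) (.g (nat_lit 929) (.e (nat_lit 32789) (nat_lit 11) (.e (nat_lit 81939) (nat_lit 20) (.e (nat_lit 1841) (nat_lit 123) (.e (nat_lit 548890) (nat_lit 10) (.e (nat_lit 73791) (nat_lit 45) (.e (nat_lit 1140) (nat_lit 84) .nil)))))) (.g (nat_lit 0) .nil .nil)))))) (.nd (nat_lit 3) (.nd (nat_lit 4) (.nd (nat_lit 5) 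
(.lf (nat_lit 141958) (.g (nat_lit 2255) (.e (nat_lit 32788) (nat_lit 10) (.e (nat_lit 73782) (nat_lit 32) (.e (nat_lit 2663) (nat_lit 167) (.e (nat_lit 196670) (nat_lit 14) (.e (nat_lit 73791) (nat_lit 45) .nil))))) .nil)) 
(.lf (nat_lit 141990) (.g (nat_lit 1206) (.e (nat_lit 32788) (nat_lit 10) (.e (nat_lit 73791) (nat_lit 45) (.e (nat_lit 1141) (nat_lit 84) (.e (nat_lit 32788) (nat_lit 10) (.e (nat_lit 73789) (nat_lit 45) (.e (nat_lit 1141) (nat_lit 84) .nil)))))) (.g (nat_lit 0) .nil .nil)))) (.nd (nat_lit 5) 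
(.lf (nat_lit 141974) (.g (nat_lit 1188) (.e (nat_lit 32788) (nat_lit 10) (.e (nat_lit 73788) (nat_lit 45) (.e (nat_lit 1141) (nat_lit 84) (.e (nat_lit 32788) (nat_lit 10) (.e (nat_lit 73789) (nat_lit 45) (.e (nat_lit 1141) (nat_lit 84) .nil)))))) (.g (nat_lit 0) .nil .nil))) 
(.lf (nat_lit 142006) (.g (nat_lit 2628) (.e (nat_lit 32789) (nat_lit 11) (.e (nat_lit 81924) (nat_lit 0) (.e (nat_lit 3305) (nat_lit 202) (.e (nat_lit 573487) (nat_lit 14) (.e (nat_lit 73789) (nat_lit 45) (.e (nat_lit 1141) (nat_lit 84) .nil)))))) (.g (nat_lit 0) .nil .nil))))) (.nd (nat_lit 4) (.nd (nat_lit 5) 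
(.lf (nat_lit 141966) (.g (nat_lit 2392) (.e (nat_lit 32788) (nat_lit 10) (.e (nat_lit 73782) (nat_lit 32) (.e (nat_lit 2664) (nat_lit 167) (.e (nat_lit 196670) (nat_lit 14) (.e (nat_lit 73792) (nat_lit 45) (.e (nat_lit 1140) (nat_lit 84) .nil)))))) (.g (nat_lit 0) .nil .nil))) 
(.lf (nat_lit 141998) (.g (nat_lit 1121) (.e (nat_lit 32788) (nat_lit 10) (.e (nat_lit 73792) (nat_lit 45) (.e (nat_lit 1141) (nat_lit 84) (.e (nat_lit 32788) (nat_lit 10) (.e (nat_lit 73791) (nat_lit 45) (.e (nat_lit 1140) (nat_lit 84) .nil)))))) (.g (nat_lit 0) .nil .nil)))) (.nd (nat_lit 5) 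
(.lf (nat_lit 141982) (.g (nat_lit 1165) (.e (nat_lit 32788) (nat_lit 10) (.e (nat_lit 73789) (nat_lit 45) (.e (nat_lit 1141) (nat_lit 84) (.e (nat_lit 32788) (nat_lit 10) (.e (nat_lit 73789) (nat_lit 45) (.e (nat_lit 1139) (nat_lit 84) .nil)))))) (.g (nat_lit 5) .nil .nil))) 
(.lf (nat_lit 142014) (.g (nat_lit 1393) (.e (nat_lit 32789) (nat_lit 11) (.e (nat_lit 81939) (nat_lit 20) (.e (nat_lit 1842) (nat_lit 123) (.e (nat_lit 548890) (nat_lit 10) (.e (nat_lit 73788) (nat_lit 45) (.e (nat_lit 1141) (nat_lit 84) .nil)))))) (.g (nat_lit 0) .nil .nil)))))))) (.nd (nat_lit 1) (.nd (nat_lit 2) (.nd (nat_lit 3) (.nd (nat_lit 4) (.nd (nat_lit 5) 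
(.lf (nat_lit 141953) (.g (nat_lit 1631) (.e (nat_lit 32788) (nat_lit 10) (.e (nat_lit 73781) (nat_lit 32) (.e (nat_lit 2681) (nat_lit 168) (.e (nat_lit 204863) (nat_lit 27) (.e (nat_lit 344081) (nat_lit 13) (.e (nat_lit 1140) (nat_lit 84) .nil)))))) (.g (nat_lit 4) .nil .nil))) 
(.lf (nat_lit 141985) (.g (nat_lit 1302) (.e (nat_lit 32788) (nat_lit 10) (.e (nat_lit 73789) (nat_lit 45) (.e (nat_lit 1141) (nat_lit 84) (.e (nat_lit 32788) (nat_lit 10) (.e (nat_lit 73792) (nat_lit 45) (.e (nat_lit 1141) (nat_lit 84) .nil)))))) (.g (nat_lit 0) .nil .nil)))) (.nd (nat_lit 5) 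
(.lf (nat_lit 141969) (.g (nat_lit 2180) (.e (nat_lit 32788) (nat_lit 10) (.e (nat_lit 73782) (nat_lit 32) (.e (nat_lit 2682) (nat_lit 168) (.e (nat_lit 204863) (nat_lit 27) (.e (nat_lit 344074) (nat_lit 13) .nil))))) .nil)) 
(.lf (nat_lit 142001) (.g (nat_lit 1734) (.e (nat_lit 32789) (nat_lit 11) (.e (nat_lit 81922) (nat_lit 0) (.e (nat_lit 3305) (nat_lit 202) (.e (nat_lit 573487) (nat_lit 14) (.e (nat_lit 73788) (nat_lit 45) .nil))))) .nil)))) (.nd (nat_lit 4) (.nd (nat_lit 5) 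
(.lf (nat_lit 141961) (.g (nat_lit 382) (.e (nat_lit 32788) (nat_lit 10) (.e (nat_lit 73782) (nat_lit 32) (.e (nat_lit 2664) (nat_lit 167) .nil))) .nil)) 
(.lf (nat_lit 141993) (.g (nat_lit 1107) (.e (nat_lit 32788) (nat_lit 10) (.e (nat_lit 73792) (nat_lit 45) (.e (nat_lit 1140) (nat_lit 84) (.e (nat_lit 32788) (nat_lit 10) (.e (nat_lit 73791) (nat_lit 45) (.e (nat_lit 1141) (nat_lit 84) .nil)))))) (.g (nat_lit 0) .nil .nil)))) (.nd (nat_lit 5) 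
(.lf (nat_lit 141977) (.g (nat_lit 1162) (.e (nat_lit 32788) (nat_lit 10) (.e (nat_lit 73788) (nat_lit 45) (.e (nat_lit 1141) (nat_lit 84) (.e (nat_lit 32788) (nat_lit 10) (.e (nat_lit 73792) (nat_lit 45) (.e (nat_lit 1141) (nat_lit 84) .nil)))))) (.g (nat_lit 0) .nil .nil))) 
(.lf (nat_lit 142009) (.g (nat_lit 1144) (.e (nat_lit 32789) (nat_lit 11) (.e (nat_lit 81939) (nat_lit 20) (.e (nat_lit 1841) (nat_lit 123) (.e (nat_lit 548890) (nat_lit 10) (.e (nat_lit 73789) (nat_lit 45) (.e (nat_lit 1141) (nat_lit 84) .nil)))))) (.g (nat_lit 0) .nil .nil)))))) (.nd (nat_lit 3) (.nd (nat_lit 4) (.nd (nat_lit 5) 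
(.lf (nat_lit 141957) (.g (nat_lit 3230) (.e (nat_lit 32788) (nat_lit 10) (.e (nat_lit 73782) (nat_lit 32) (.e (nat_lit 2663) (nat_lit 167) (.e (nat_lit 196668) (nat_lit 14) (.e (nat_lit 73789) (nat_lit 45) (.e (nat_lit 1141) (nat_lit 84) .nil)))))) (.g (nat_lit 0) .nil .nil))) 
(.lf (nat_lit 141989) (.g (nat_lit 1129) (.e (nat_lit 32788) (nat_lit 10) (.e (nat_lit 73791) (nat_lit 45) (.e (nat_lit 1141) (nat_lit 84) (.e (nat_lit 32788) (nat_lit 10) (.e (nat_lit 73789) (nat_lit 45) (.e (nat_lit 1140) (nat_lit 84) .nil)))))) (.g (nat_lit 0) .nil .nil)))) (.nd (nat_lit 5) 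
(.lf (nat_lit 141973) (.g (nat_lit 1080) (.e (nat_lit 32788) (nat_lit 10) (.e (nat_lit 73788) (nat_lit 45) (.e (nat_lit 1141) (nat_lit 84) (.e (nat_lit 32788) (nat_lit 10) (.e (nat_lit 73789) (nat_lit 45) (.e (nat_lit 1139) (nat_lit 84) .nil)))))) (.g (nat_lit 6) .nil .nil))) 
(.lf (nat_lit 142005) (.g (nat_lit 2565) (.e (nat_lit 32789) (nat_lit 11) (.e (nat_lit 81924) (nat_lit 0) (.e (nat_lit 3305) (nat_lit 202) (.e (nat_lit 573487) (nat_lit 14) (.e (nat_lit 73789) (nat_lit 45) (.e (nat_lit 1140) (nat_lit 84) .nil)))))) (.g (nat_lit 0) .nil .nil))))) (.nd (nat_lit 4) (.nd (nat_lit 5) 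
(.lf (nat_lit 141965) (.g (nat_lit 1102) (.e (nat_lit 32788) (nat_lit 10) (.e (nat_lit 73782) (nat_lit 32) (.e (nat_lit 2664) (nat_lit 167) (.e (nat_lit 196669) (nat_lit 14) (.e (nat_lit 73788) (nat_lit 45) .nil))))) .nil)) 
(.lf (nat_lit 141997) (.g (nat_lit 1234) (.e (nat_lit 32788) (nat_lit 10) (.e (nat_lit 73792) (nat_lit 45) (.e (nat_lit 1141) (nat_lit 84) (.e (nat_lit 32788) (nat_lit 10) (.e (nat_lit 73789) (nat_lit 45) (.e (nat_lit 1139) (nat_lit 84) .nil)))))) (.g (nat_lit 6) .nil .nil)))) (.nd (nat_lit 5) 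
(.lf (nat_lit 141981) (.g (nat_lit 234) (.e (nat_lit 32788) (nat_lit 10) (.e (nat_lit 73789) (nat_lit 45) (.e (nat_lit 1141) (nat_lit 84) .nil))) .nil)) 
(.lf (nat_lit 142013) (.g (nat_lit 1130) (.e (nat_lit 32789) (nat_lit 11) (.e (nat_lit 81939) (nat_lit 20) (.e (nat_lit 1841) (nat_lit 123) (.e (nat_lit 548890) (nat_lit 10) (.e (nat_lit 73792) (nat_lit 45) (.e (nat_lit 1141) (nat_lit 84) .nil)))))) (.g (nat_lit 0) .nil .nil))))))) (.nd (nat_lit 2) (.nd (nat_lit 3) (.nd (nat_lit 4) (.nd (nat_lit 5) 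
(.lf (nat_lit 141955) (.g (nat_lit 2169) (.e (nat_lit 32788) (nat_lit 10) (.e (nat_lit 73781) (nat_lit 32) (.e (nat_lit 2682) (nat_lit 168) (.e (nat_lit 204863) (nat_lit 27) (.e (nat_lit 344074) (nat_lit 13) (.e (nat_lit 1140) (nat_lit 84) .nil)))))) (.g (nat_lit 4) .nil .nil))) 
(.lf (nat_lit 141987) (.g (nat_lit 1123) (.e (nat_lit 32788) (nat_lit 10) (.e (nat_lit 73791) (nat_lit 45) (.e (nat_lit 1140) (nat_lit 84) (.e (nat_lit 32788) (nat_lit 10) (.e (nat_lit 73789) (nat_lit 45) (.e (nat_lit 1141) (nat_lit 84) .nil)))))) (.g (nat_lit 0) .nil .nil)))) (.nd (nat_lit 5) 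
(.lf (nat_lit 141971) (.g (nat_lit 982) (.e (nat_lit 32788) (nat_lit 10) (.e (nat_lit 73788) (nat_lit 45) (.e (nat_lit 1140) (nat_lit 84) (.e (nat_lit 32788) (nat_lit 10) (.e (nat_lit 73789) (nat_lit 45) (.e (nat_lit 1139) (nat_lit 84) .nil)))))) (.g (nat_lit 6) .nil .nil))) 
(.lf (nat_lit 142003) (.g (nat_lit 2675) (.e (nat_lit 32789) (nat_lit 11) (.e (nat_lit 81922) (nat_lit 0) (.e (nat_lit 3305) (nat_lit 202) (.e (nat_lit 573487) (nat_lit 14) (.e (nat_lit 73789) (nat_lit 45) (.e (nat_lit 1141) (nat_lit 84) .nil)))))) (.g (nat_lit 0) .nil .nil))))) (.nd (nat_lit 4) (.nd (nat_lit 5) 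
(.lf (nat_lit 141963) (.g (nat_lit 2349) (.e (nat_lit 32788) (nat_lit 10) (.e (nat_lit 73782) (nat_lit 32) (.e (nat_lit 2664) (nat_lit 167) (.e (nat_lit 196668) (nat_lit 14) (.e (nat_lit 73789) (nat_lit 45) (.e (nat_lit 1140) (nat_lit 84) .nil)))))) (.g (nat_lit 0) .nil .nil))) 
(.lf (nat_lit 141995) (.g (nat_lit 1244) (.e (nat_lit 32788) (nat_lit 10) (.e (nat_lit 73792) (nat_lit 45) (.e (nat_lit 1140) (nat_lit 84) (.e (nat_lit 32788) (nat_lit 10) (.e (nat_lit 73792) (nat_lit 45) (.e (nat_lit 1141) (nat_lit 84) .nil)))))) (.g (nat_lit 0) .nil .nil)))) (.nd (nat_lit 5) 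
(.lf (nat_lit 141979) (.g (nat_lit 1200) (.e (nat_lit 32788) (nat_lit 10) (.e (nat_lit 73789) (nat_lit 45) (.e (nat_lit 1140) (nat_lit 84) (.e (nat_lit 32788) (nat_lit 10) (.e (nat_lit 73789) (nat_lit 45) (.e (nat_lit 1140) (nat_lit 84) .nil)))))) (.g (nat_lit 0) .nil .nil))) 
(.lf (nat_lit 142011) (.g (nat_lit 1001) (.e (nat_lit 32789) (nat_lit 11) (.e (nat_lit 81939) (nat_lit 20) (.e (nat_lit 1841) (nat_lit 123) (.e (nat_lit 548890) (nat_lit 10) (.e (nat_lit 73791) (nat_lit 45) (.e (nat_lit 1141) (nat_lit 84) .nil)))))) (.g (nat_lit 0) .nil .nil)))))) (.nd (nat_lit 3) (.nd (nat_lit 4) (.nd (nat_lit 5) 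
(.lf (nat_lit 141959) (.g (nat_lit 2849) (.e (nat_lit 32788) (nat_lit 10) (.e (nat_lit 73782) (nat_lit 32) (.e (nat_lit 2663) (nat_lit 167) (.e (nat_lit 196670) (nat_lit 14) (.e (nat_lit 73792) (nat_lit 45) (.e (nat_lit 1140) (nat_lit 84) .nil)))))) (.g (nat_lit 0) .nil .nil))) 
(.lf (nat_lit 141991) (.g (nat_lit 1159) (.e (nat_lit 32788) (nat_lit 10) (.e (nat_lit 73792) (nat_lit 45) (.e (nat_lit 1140) (nat_lit 84) (.e (nat_lit 32788) (nat_lit 10) (.e (nat_lit 73789) (nat_lit 45) (.e (nat_lit 1139) (nat_lit 84) .nil)))))) (.g (nat_lit 6) .nil .nil)))) (.nd (nat_lit 5) 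
(.lf (nat_lit 141975) (.g (nat_lit 965) (.e (nat_lit 32788) (nat_lit 10) (.e (nat_lit 73788) (nat_lit 45) (.e (nat_lit 1141) (nat_lit 84) (.e (nat_lit 32788) (nat_lit 10) (.e (nat_lit 73791) (nat_lit 45) (.e (nat_lit 1140) (nat_lit 84) .nil)))))) (.g (nat_lit 0) .nil .nil))) 
(.lf (nat_lit 142007) (.g (nat_lit 1646) (.e (nat_lit 32789) (nat_lit 11) (.e (nat_lit 81924) (nat_lit 0) (.e (nat_lit 3305) (nat_lit 202) (.e (nat_lit 573487) (nat_lit 14) (.e (nat_lit 81664) (nat_lit 45) (.e (nat_lit 1139) (nat_lit 84) .nil)))))) (.g (nat_lit 4) .nil .nil))))) (.nd (nat_lit 4) (.nd (nat_lit 5) 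
(.lf (nat_lit 141967) (.g (nat_lit 2452) (.e (nat_lit 32788) (nat_lit 10) (.e (nat_lit 73782) (nat_lit 32) (.e (nat_lit 2664) (nat_lit 167) (.e (nat_lit 196670) (nat_lit 14) (.e (nat_lit 73792) (nat_lit 45) (.e (nat_lit 1141) (nat_lit 84) .nil)))))) (.g (nat_lit 0) .nil .nil))) 
(.lf (nat_lit 141999) (.g (nat_lit 1174) (.e (nat_lit 32788) (nat_lit 10) (.e (nat_lit 73792) (nat_lit 45) (.e (nat_lit 1141) (nat_lit 84) (.e (nat_lit 32788) (nat_lit 10) (.e (nat_lit 73791) (nat_lit 45) (.e (nat_lit 1141) (nat_lit 84) .nil)))))) (.g (nat_lit 0) .nil .nil)))) (.nd (nat_lit 5) 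
(.lf (nat_lit 141983) (.g (nat_lit 1276) (.e (nat_lit 32788) (nat_lit 10) (.e (nat_lit 73789) (nat_lit 45) (.e (nat_lit 1141) (nat_lit 84) (.e (nat_lit 32788) (nat_lit 10) (.e (nat_lit 73789) (nat_lit 45) (.e (nat_lit 1140) (nat_lit 84) .nil)))))) (.g (nat_lit 0) .nil .nil))) 
(.lf (nat_lit 142015) (.g (nat_lit 1549) (.e (nat_lit 32789) (nat_lit 11) (.e (nat_lit 81939) (nat_lit 20) (.e (nat_lit 1842) (nat_lit 123) (.e (nat_lit 548890) (nat_lit 10) (.e (nat_lit 73789) (nat_lit 45) (.e (nat_lit 1141) (nat_lit 84) .nil)))))) (.g (nat_lit 0) .nil .nil)))))))))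

noncomputable def tv1885 : DT := (.nd (nat_lit 0) (.nd (nat_lit 1) (.nd (nat_lit 2) (.nd (nat_lit 3) (.nd (nat_lit 4) (.nd (nat_lit 5) 
(.lf (nat_lit 142016) (.g (nat_lit 1322) (.e (nat_lit 32789) (nat_lit 11) (.e (nat_lit 81939) (nat_lit 20) (.e (nat_lit 1842) (nat_lit 123) (.e (nat_lit 548890) (nat_lit 10) (.e (nat_lit 73791) (nat_lit 45) (.e (nat_lit 1140) (nat_lit 84) .nil)))))) (.g (nat_lit 0) .nil .nil))) 
(.lf (nat_lit 142048) (.g (nat_lit 1961) (.e (nat_lit 32789) (nat_lit 11) (.e (nat_lit 81947) (nat_lit 20) (.e (nat_lit 1842) (nat_lit 123) (.e (nat_lit 548890) (nat_lit 10) (.e (nat_lit 73791) (nat_lit 45) (.e (nat_lit 1141) (nat_lit 84) .nil)))))) (.g (nat_lit 0) .nil .nil)))) (.nd (nat_lit 5) 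
(.lf (nat_lit 142032) (.g (nat_lit 1527) (.e (nat_lit 32789) (nat_lit 11) (.e (nat_lit 81946) (nat_lit 20) (.e (nat_lit 1841) (nat_lit 123) (.e (nat_lit 548890) (nat_lit 10) (.e (nat_lit 73789) (nat_lit 45) (.e (nat_lit 1141) (nat_lit 84) .nil)))))) (.g (nat_lit 0) .nil .nil))) 
(.lf (nat_lit 142064) (.g (nat_lit 968) (.e (nat_lit 32789) (nat_lit 11) (.e (nat_lit 81954) (nat_lit 23) (.e (nat_lit 98325) (nat_lit 17) (.e (nat_lit 7008) (nat_lit 377) .nil)))) .nil)))) (.nd (nat_lit 4) (.nd (nat_lit 5) 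
(.lf (nat_lit 142024) (.g (nat_lit 1222) (.e (nat_lit 32789) (nat_lit 11) (.e (nat_lit 81943) (nat_lit 20) (.e (nat_lit 1841) (nat_lit 123) (.e (nat_lit 548890) (nat_lit 10) (.e (nat_lit 73792) (nat_lit 45) (.e (nat_lit 1140) (nat_lit 84) .nil)))))) (.g (nat_lit 0) .nil .nil))) 
(.lf (nat_lit 142056) (.g (nat_lit 1063) (.e (nat_lit 32789) (nat_lit 11) (.e (nat_lit 81953) (nat_lit 22) (.e (nat_lit 90165) (nat_lit 12) (.e (nat_lit 164208) (nat_lit 176) .nil)))) .nil))) (.nd (nat_lit 5) 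
(.lf (nat_lit 142040) (.g (nat_lit 1370) (.e (nat_lit 32789) (nat_lit 11) (.e (nat_lit 81947) (nat_lit 20) (.e (nat_lit 1841) (nat_lit 123) (.e (nat_lit 548890) (nat_lit 10) (.e (nat_lit 73791) (nat_lit 45) (.e (nat_lit 1141) (nat_lit 84) .nil)))))) (.g (nat_lit 0) .nil .nil))) 
(.lf (nat_lit 142072) (.g (nat_lit 1088) (.e (nat_lit 32789) (nat_lit 11) (.e (nat_lit 81954) (nat_lit 23) (.e (nat_lit 98389) (nat_lit 33) (.e (nat_lit 491526) (nat_lit 0) .nil)))) .nil))))) (.nd (nat_lit 3) (.nd (nat_lit 4) (.nd (nat_lit 5) 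
(.lf (nat_lit 142020) (.g (nat_lit 574) (.e (nat_lit 32789) (nat_lit 11) (.e (nat_lit 81942) (nat_lit 20) (.e (nat_lit 1842) (nat_lit 123) (.e (nat_lit 548890) (nat_lit 10) .nil)))) .nil)) 
(.lf (nat_lit 142052) (.g (nat_lit 830) (.e (nat_lit 32789) (nat_lit 11) (.e (nat_lit 81951) (nat_lit 22) (.e (nat_lit 90165) (nat_lit 12) (.e (nat_lit 164210) (nat_lit 176) .nil)))) .nil))) (.nd (nat_lit 5) 
(.lf (nat_lit 142036) (.g (nat_lit 1845) (.e (nat_lit 32789) (nat_lit 11) (.e (nat_lit 81946) (nat_lit 20) (.e (nat_lit 1842) (nat_lit 123) (.e (nat_lit 548890) (nat_lit 10) (.e (nat_lit 73789) (nat_lit 45) (.e (nat_lit 1141) (nat_lit 84) .nil)))))) (.g (nat_lit 0) .nil .nil))) 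
(.lf (nat_lit 142068) (.g (nat_lit 1566) (.e (nat_lit 32789) (nat_lit 11) (.e (nat_lit 81954) (nat_lit 23) (.e (nat_lit 98349) (nat_lit 24) (.e (nat_lit 409639) (nat_lit 15) .nil)))) .nil)))) (.nd (nat_lit 4) (.nd (nat_lit 5) 
(.lf (nat_lit 142028) (.g (nat_lit 1582) (.e (nat_lit 32789) (nat_lit 11) (.e (nat_lit 81943) (nat_lit 20) (.e (nat_lit 1842) (nat_lit 123) (.e (nat_lit 548890) (nat_lit 10) (.e (nat_lit 73792) (nat_lit 45) (.e (nat_lit 1141) (nat_lit 84) .nil)))))) (.g (nat_lit 0) .nil .nil))) 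
(.lf (nat_lit 142060) (.g (nat_lit 468) (.e (nat_lit 32789) (nat_lit 11) (.e (nat_lit 81954) (nat_lit 23) (.e (nat_lit 98319) (nat_lit 17) .nil))) .nil))) (.nd (nat_lit 5) 
(.lf (nat_lit 142044) (.g (nat_lit 2196) (.e (nat_lit 32789) (nat_lit 11) (.e (nat_lit 81947) (nat_lit 20) (.e (nat_lit 1842) (nat_lit 123) (.e (nat_lit 548889) (nat_lit 9) (.e (nat_lit 65582) (nat_lit 7) .nil))))) .nil)) 
(.lf (nat_lit 142076) (.g (nat_lit 634) (.e (nat_lit 32789) (nat_lit 11) (.e (nat_lit 81956) (nat_lit 23) (.e (nat_lit 98320) (nat_lit 17) .nil))) .nil)))))) (.nd (nat_lit 2) (.nd (nat_lit 3) (.nd (nat_lit 4) (.nd (nat_lit 5) 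
(.lf (nat_lit 142018) (.g (nat_lit 1484) (.e (nat_lit 32789) (nat_lit 11) (.e (nat_lit 81939) (nat_lit 20) (.e (nat_lit 1842) (nat_lit 123) (.e (nat_lit 548890) (nat_lit 10) (.e (nat_lit 73792) (nat_lit 45) (.e (nat_lit 1140) (nat_lit 84) .nil)))))) (.g (nat_lit 0) .nil .nil))) 
(.lf (nat_lit 142050) (.g (nat_lit 2082) (.e (nat_lit 32789) (nat_lit 11) (.e (nat_lit 81947) (nat_lit 20) (.e (nat_lit 1842) (nat_lit 123) (.e (nat_lit 548890) (nat_lit 10) (.e (nat_lit 73792) (nat_lit 45) (.e (nat_lit 1141) (nat_lit 84) .nil)))))) (.g (nat_lit 0) .nil .nil)))) (.nd (nat_lit 5) 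
(.lf (nat_lit 142034) (.g (nat_lit 1940) (.e (nat_lit 32789) (nat_lit 11) (.e (nat_lit 81946) (nat_lit 20) (.e (nat_lit 1842) (nat_lit 123) (.e (nat_lit 548889) (nat_lit 9) (.e (nat_lit 65582) (nat_lit 7) .nil))))) .nil)) 
(.lf (nat_lit 142066) (.g (nat_lit 957) (.e (nat_lit 32789) (nat_lit 11) (.e (nat_lit 81954) (nat_lit 23) (.e (nat_lit 98325) (nat_lit 17) (.e (nat_lit 7936) (nat_lit 405) .nil)))) .nil)))) (.nd (nat_lit 4) (.nd (nat_lit 5) 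
(.lf (nat_lit 142026) (.g (nat_lit 1703) (.e (nat_lit 32789) (nat_lit 11) (.e (nat_lit 81943) (nat_lit 20) (.e (nat_lit 1842) (nat_lit 123) (.e (nat_lit 548889) (nat_lit 9) (.e (nat_lit 65582) (nat_lit 7) .nil))))) .nil)) 
(.lf (nat_lit 142058) (.g (nat_lit 1034) (.e (nat_lit 32789) (nat_lit 11) (.e (nat_lit 81953) (nat_lit 22) (.e (nat_lit 90165) (nat_lit 12) (.e (nat_lit 164218) (nat_lit 179) .nil)))) .nil))) (.nd (nat_lit 5) 
(.lf (nat_lit 142042) (.g (nat_lit 1501) (.e (nat_lit 32789) (nat_lit 11) (.e (nat_lit 81947) (nat_lit 20) (.e (nat_lit 1841) (nat_lit 123) (.e (nat_lit 548890) (nat_lit 10) (.e (nat_lit 73792) (nat_lit 45) (.e (nat_lit 1141) (nat_lit 84) .nil)))))) (.g (nat_lit 0) .nil .nil))) 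
(.lf (nat_lit 142074) (.g (nat_lit 1689) (.e (nat_lit 32789) (nat_lit 11) (.e (nat_lit 81956) (nat_lit 23) (.e (nat_lit 98319) (nat_lit 17) (.e (nat_lit 7581) (nat_lit 405) .nil)))) .nil))))) (.nd (nat_lit 3) (.nd (nat_lit 4) (.nd (nat_lit 5) 
(.lf (nat_lit 142022) (.g (nat_lit 820) (.e (nat_lit 32789) (nat_lit 11) (.e (nat_lit 81942) (nat_lit 20) (.e (nat_lit 1842) (nat_lit 123) (.e (nat_lit 548890) (nat_lit 10) (.e (nat_lit 73792) (nat_lit 45) .nil))))) .nil)) 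
(.lf (nat_lit 142054) (.g (nat_lit 1635) (.e (nat_lit 32789) (nat_lit 11) (.e (nat_lit 81953) (nat_lit 22) (.e (nat_lit 90133) (nat_lit 9) (.e (nat_lit 2397) (nat_lit 157) (.e (nat_lit 7582) (nat_lit 405) .nil))))) .nil))) (.nd (nat_lit 5) 
(.lf (nat_lit 142038) (.g (nat_lit 1325) (.e (nat_lit 32789) (nat_lit 11) (.e (nat_lit 81947) (nat_lit 20) (.e (nat_lit 1841) (nat_lit 123) (.e (nat_lit 548889) (nat_lit 9) (.e (nat_lit 65582) (nat_lit 7) .nil))))) .nil)) 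
(.lf (nat_lit 142070) (.g (nat_lit 2876) (.e (nat_lit 32789) (nat_lit 11) (.e (nat_lit 81954) (nat_lit 23) (.e (nat_lit 98350) (nat_lit 24) (.e (nat_lit 409638) (nat_lit 15) (.e (nat_lit 278561) (nat_lit 12) .nil))))) (.g (nat_lit 0) .nil .nil))))) (.nd (nat_lit 4) (.nd (nat_lit 5) 
(.lf (nat_lit 142030) (.g (nat_lit 1943) (.e (nat_lit 32789) (nat_lit 11) (.e (nat_lit 81946) (nat_lit 20) (.e (nat_lit 1841) (nat_lit 123) (.e (nat_lit 548889) (nat_lit 9) (.e (nat_lit 65585) (nat_lit 7) (.e (nat_lit 319519) (nat_lit 12) .nil)))))) (.g (nat_lit 0) .nil .nil))) 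
(.lf (nat_lit 142062) (.g (nat_lit 469) (.e (nat_lit 32789) (nat_lit 11) (.e (nat_lit 81954) (nat_lit 23) (.e (nat_lit 98325) (nat_lit 17) .nil))) .nil))) (.nd (nat_lit 5) 
(.lf (nat_lit 142046) (.g (nat_lit 2573) (.e (nat_lit 32789) (nat_lit 11) (.e (nat_lit 81947) (nat_lit 20) (.e (nat_lit 1842) (nat_lit 123) (.e (nat_lit 548889) (nat_lit 9) (.e (nat_lit 65586) (nat_lit 7) (.e (nat_lit 319518) (nat_lit 12) .nil)))))) (.g (nat_lit 5) .nil .nil))) 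
(.lf (nat_lit 142078) (.g (nat_lit 1984) (.e (nat_lit 32789) (nat_lit 11) (.e (nat_lit 81956) (nat_lit 23) (.e (nat_lit 98349) (nat_lit 24) (.e (nat_lit 409639) (nat_lit 15) .nil)))) .nil))))))) (.nd (nat_lit 1) (.nd (nat_lit 2) (.nd (nat_lit 3) (.nd (nat_lit 4) (.nd (nat_lit 5) 
(.lf (nat_lit 142017) (.g (nat_lit 1393) (.e (nat_lit 32789) (nat_lit 11) (.e (nat_lit 81939) (nat_lit 20) (.e (nat_lit 1842) (nat_lit 123) (.e (nat_lit 548890) (nat_lit 10) (.e (nat_lit 73791) (nat_lit 45) (.e (nat_lit 1141) (nat_lit 84) .nil)))))) (.g (nat_lit 0) .nil .nil))) 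
(.lf (nat_lit 142049) (.g (nat_lit 2021) (.e (nat_lit 32789) (nat_lit 11) (.e (nat_lit 81947) (nat_lit 20) (.e (nat_lit 1842) (nat_lit 123) (.e (nat_lit 548890) (nat_lit 10) (.e (nat_lit 73792) (nat_lit 45) (.e (nat_lit 1140) (nat_lit 84) .nil)))))) (.g (nat_lit 0) .nil .nil)))) (.nd (nat_lit 5) 
(.lf (nat_lit 142033) (.g (nat_lit 1306) (.e (nat_lit 32789) (nat_lit 11) (.e (nat_lit 81946) (nat_lit 20) (.e (nat_lit 1841) (nat_lit 123) (.e (nat_lit 548890) (nat_lit 10) (.e (nat_lit 73791) (nat_lit 45) (.e (nat_lit 1140) (nat_lit 84) .nil)))))) (.g (nat_lit 0) .nil .nil))) 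
(.lf (nat_lit 142065) (.g (nat_lit 985) (.e (nat_lit 32789) (nat_lit 11) (.e (nat_lit 81954) (nat_lit 23) (.e (nat_lit 98325) (nat_lit 17) (.e (nat_lit 7112) (nat_lit 381) .nil)))) .nil)))) (.nd (nat_lit 4) (.nd (nat_lit 5) 
(.lf (nat_lit 142025) (.g (nat_lit 1270) (.e (nat_lit 32789) (nat_lit 11) (.e (nat_lit 81943) (nat_lit 20) (.e (nat_lit 1841) (nat_lit 123) (.e (nat_lit 548890) (nat_lit 10) (.e (nat_lit 73792) (nat_lit 45) (.e (nat_lit 1141) (nat_lit 84) .nil)))))) (.g (nat_lit 0) .nil .nil))) 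
(.lf (nat_lit 142057) (.g (nat_lit 1117) (.e (nat_lit 32789) (nat_lit 11) (.e (nat_lit 81953) (nat_lit 22) (.e (nat_lit 90165) (nat_lit 12) (.e (nat_lit 164210) (nat_lit 176) (.e (nat_lit 2770) (nat_lit 177) .nil))))) .nil))) (.nd (nat_lit 5) 
(.lf (nat_lit 142041) (.g (nat_lit 1440) (.e (nat_lit 32789) (nat_lit 11) (.e (nat_lit 81947) (nat_lit 20) (.e (nat_lit 1841) (nat_lit 123) (.e (nat_lit 548890) (nat_lit 10) (.e (nat_lit 73792) (nat_lit 45) (.e (nat_lit 1140) (nat_lit 84) .nil)))))) (.g (nat_lit 0) .nil .nil))) 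
(.lf (nat_lit 142073) (.g (nat_lit 1655) (.e (nat_lit 32789) (nat_lit 11) (.e (nat_lit 81954) (nat_lit 23) (.e (nat_lit 98389) (nat_lit 33) (.e (nat_lit 491544) (nat_lit 7) (.e (nat_lit 319518) (nat_lit 12) .nil))))) (.g (nat_lit 4) .nil .nil)))))) (.nd (nat_lit 3) (.nd (nat_lit 4) (.nd (nat_lit 5) 
(.lf (nat_lit 142021) (.g (nat_lit 774) (.e (nat_lit 32789) (nat_lit 11) (.e (nat_lit 81942) (nat_lit 20) (.e (nat_lit 1842) (nat_lit 123) (.e (nat_lit 548890) (nat_lit 10) (.e (nat_lit 73789) (nat_lit 45) .nil))))) .nil)) 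
(.lf (nat_lit 142053) (.g (nat_lit 1188) (.e (nat_lit 32789) (nat_lit 11) (.e (nat_lit 81951) (nat_lit 22) (.e (nat_lit 90165) (nat_lit 12) (.e (nat_lit 164219) (nat_lit 180) (.e (nat_lit 229614) (nat_lit 221) .nil))))) .nil))) (.nd (nat_lit 5) 
(.lf (nat_lit 142037) (.g (nat_lit 1625) (.e (nat_lit 32789) (nat_lit 11) (.e (nat_lit 81946) (nat_lit 20) (.e (nat_lit 1842) (nat_lit 123) (.e (nat_lit 548890) (nat_lit 10) (.e (nat_lit 73791) (nat_lit 45) (.e (nat_lit 1140) (nat_lit 84) .nil)))))) (.g (nat_lit 0) .nil .nil))) 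
(.lf (nat_lit 142069) (.g (nat_lit 2630) (.e (nat_lit 32789) (nat_lit 11) (.e (nat_lit 81954) (nat_lit 23) (.e (nat_lit 98350) (nat_lit 24) (.e (nat_lit 409636) (nat_lit 14) (.e (nat_lit 270367) (nat_lit 12) .nil))))) (.g (nat_lit 0) .nil .nil))))) (.nd (nat_lit 4) (.nd (nat_lit 5) 
(.lf (nat_lit 142029) (.g (nat_lit 2161) (.e (nat_lit 32789) (nat_lit 11) (.e (nat_lit 81946) (nat_lit 20) (.e (nat_lit 1841) (nat_lit 123) (.e (nat_lit 548889) (nat_lit 9) (.e (nat_lit 65584) (nat_lit 7) (.e (nat_lit 319519) (nat_lit 12) .nil)))))) (.g (nat_lit 0) .nil .nil))) 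
(.lf (nat_lit 142061) (.g (nat_lit 461) (.e (nat_lit 32789) (nat_lit 11) (.e (nat_lit 81954) (nat_lit 23) (.e (nat_lit 98320) (nat_lit 17) .nil))) .nil))) (.nd (nat_lit 5) 
(.lf (nat_lit 142045) (.g (nat_lit 2297) (.e (nat_lit 32789) (nat_lit 11) (.e (nat_lit 81947) (nat_lit 20) (.e (nat_lit 1842) (nat_lit 123) (.e (nat_lit 548889) (nat_lit 9) (.e (nat_lit 65582) (nat_lit 7) (.e (nat_lit 319517) (nat_lit 12) .nil)))))) (.g (nat_lit 4) .nil .nil))) 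
(.lf (nat_lit 142077) (.g (nat_lit 614) (.e (nat_lit 32789) (nat_lit 11) (.e (nat_lit 81956) (nat_lit 23) (.e (nat_lit 98325) (nat_lit 17) .nil))) .nil)))))) (.nd (nat_lit 2) (.nd (nat_lit 3) (.nd (nat_lit 4) (.nd (nat_lit 5) 
(.lf (nat_lit 142019) (.g (nat_lit 1531) (.e (nat_lit 32789) (nat_lit 11) (.e (nat_lit 81939) (nat_lit 20) (.e (nat_lit 1842) (nat_lit 123) (.e (nat_lit 548890) (nat_lit 10) (.e (nat_lit 73792) (nat_lit 45) (.e (nat_lit 1141) (nat_lit 84) .nil)))))) (.g (nat_lit 0) .nil .nil))) 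
(.lf (nat_lit 142051) (.g (nat_lit 438) (.e (nat_lit 32789) (nat_lit 11) (.e (nat_lit 81951) (nat_lit 22) (.e (nat_lit 90165) (nat_lit 12) .nil))) .nil))) (.nd (nat_lit 5) 
(.lf (nat_lit 142035) (.g (nat_lit 1767) (.e (nat_lit 32789) (nat_lit 11) (.e (nat_lit 81946) (nat_lit 20) (.e (nat_lit 1842) (nat_lit 123) (.e (nat_lit 548890) (nat_lit 10) (.e (nat_lit 73789) (nat_lit 45) (.e (nat_lit 1140) (nat_lit 84) .nil)))))) (.g (nat_lit 0) .nil .nil))) 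
(.lf (nat_lit 142067) (.g (nat_lit 1391) (.e (nat_lit 32789) (nat_lit 11) (.e (nat_lit 81954) (nat_lit 23) (.e (nat_lit 98349) (nat_lit 24) (.e (nat_lit 409638) (nat_lit 15) .nil)))) .nil)))) (.nd (nat_lit 4) (.nd (nat_lit 5) 
(.lf (nat_lit 142027) (.g (nat_lit 1530) (.e (nat_lit 32789) (nat_lit 11) (.e (nat_lit 81943) (nat_lit 20) (.e (nat_lit 1842) (nat_lit 123) (.e (nat_lit 548890) (nat_lit 10) (.e (nat_lit 73792) (nat_lit 45) (.e (nat_lit 1140) (nat_lit 84) .nil)))))) (.g (nat_lit 0) .nil .nil))) 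
(.lf (nat_lit 142059) (.g (nat_lit 944) (.e (nat_lit 32789) (nat_lit 11) (.e (nat_lit 81953) (nat_lit 22) (.e (nat_lit 90165) (nat_lit 12) (.e (nat_lit 171776) (nat_lit 190) .nil)))) .nil))) (.nd (nat_lit 5) 
(.lf (nat_lit 142043) (.g (nat_lit 988) (.e (nat_lit 32789) (nat_lit 11) (.e (nat_lit 81947) (nat_lit 20) (.e (nat_lit 1842) (nat_lit 123) (.e (nat_lit 548889) (nat_lit 9) .nil)))) .nil)) 
(.lf (nat_lit 142075) (.g (nat_lit 1681) (.e (nat_lit 32789) (nat_lit 11) (.e (nat_lit 81956) (nat_lit 23) (.e (nat_lit 98319) (nat_lit 17) (.e (nat_lit 7583) (nat_lit 405) .nil)))) .nil))))) (.nd (nat_lit 3) (.nd (nat_lit 4) (.nd (nat_lit 5) 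
(.lf (nat_lit 142023) (.g (nat_lit 1270) (.e (nat_lit 32789) (nat_lit 11) (.e (nat_lit 81943) (nat_lit 20) (.e (nat_lit 1841) (nat_lit 123) (.e (nat_lit 548889) (nat_lit 9) (.e (nat_lit 65582) (nat_lit 7) (.e (nat_lit 319517) (nat_lit 12) .nil)))))) (.g (nat_lit 4) .nil .nil))) 
(.lf (nat_lit 142055) (.g (nat_lit 425) (.e (nat_lit 32789) (nat_lit 11) (.e (nat_lit 81953) (nat_lit 22) (.e (nat_lit 90165) (nat_lit 12) .nil))) .nil))) (.nd (nat_lit 5) 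
(.lf (nat_lit 142039) (.g (nat_lit 1291) (.e (nat_lit 32789) (nat_lit 11) (.e (nat_lit 81947) (nat_lit 20) (.e (nat_lit 1841) (nat_lit 123) (.e (nat_lit 548890) (nat_lit 10) (.e (nat_lit 73791) (nat_lit 45) (.e (nat_lit 1140) (nat_lit 84) .nil)))))) (.g (nat_lit 0) .nil .nil))) 
(.lf (nat_lit 142071) (.g (nat_lit 2581) (.e (nat_lit 32789) (nat_lit 11) (.e (nat_lit 81954) (nat_lit 23) (.e (nat_lit 98350) (nat_lit 24) (.e (nat_lit 409639) (nat_lit 15) .nil)))) .nil)))) (.nd (nat_lit 4) (.nd (nat_lit 5) 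
(.lf (nat_lit 142031) (.g (nat_lit 1453) (.e (nat_lit 32789) (nat_lit 11) (.e (nat_lit 81946) (nat_lit 20) (.e (nat_lit 1841) (nat_lit 123) (.e (nat_lit 548890) (nat_lit 10) (.e (nat_lit 73789) (nat_lit 45) (.e (nat_lit 1140) (nat_lit 84) .nil)))))) (.g (nat_lit 0) .nil .nil))) 
(.lf (nat_lit 142063) (.g (nat_lit 994) (.e (nat_lit 32789) (nat_lit 11) (.e (nat_lit 81954) (nat_lit 23) (.e (nat_lit 98325) (nat_lit 17) (.e (nat_lit 6986) (nat_lit 377) .nil)))) .nil))) (.nd (nat_lit 5) 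
(.lf (nat_lit 142047) (.g (nat_lit 1881) (.e (nat_lit 32789) (nat_lit 11) (.e (nat_lit 81947) (nat_lit 20) (.e (nat_lit 1842) (nat_lit 123) (.e (nat_lit 548890) (nat_lit 10) (.e (nat_lit 73791) (nat_lit 45) (.e (nat_lit 1140) (nat_lit 84) .nil)))))) (.g (nat_lit 0) .nil .nil))) 
(.lf (nat_lit 142079) (.g (nat_lit 2562) (.e (nat_lit 32789) (nat_lit 11) (.e (nat_lit 81956) (nat_lit 23) (.e (nat_lit 98350) (nat_lit 24) (.e (nat_lit 409616) (nat_lit 10) (.e (nat_lit 7936) (nat_lit 287) .nil))))) .nil))))))))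

noncomputable def tv1886 : DT := (.nd (nat_lit 0) (.nd (nat_lit 1) (.nd (nat_lit 2) (.nd (nat_lit 3) (.nd (nat_lit 4) (.nd (nat_lit 5) (.nd (nat_lit 6) 
(.lf (nat_lit 142080) (.g (nat_lit 3396) (.e (nat_lit 32789) (nat_lit 11) (.e (nat_lit 81956) (nat_lit 23) (.e (nat_lit 98350) (nat_lit 24) (.e (nat_lit 409635) (nat_lit 14) .nil)))) .nil)) 
(.lf (nat_lit 142144) (.g (nat_lit 1728) (.e (nat_lit 32808) (nat_lit 19) (.e (nat_lit 180278) (nat_lit 32) (.e (nat_lit 1234) (nat_lit 91) (.e (nat_lit 90170) (nat_lit 13) (.e (nat_lit 172080) (nat_lit 7) .nil))))) .nil))) (.nd (nat_lit 6) 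
(.lf (nat_lit 142112) (.g (nat_lit 1303) (.e (nat_lit 32807) (nat_lit 18) (.e (nat_lit 172034) (nat_lit 0) (.e (nat_lit 7545) (nat_lit 402) (.e (nat_lit 1238) (nat_lit 91) (.e (nat_lit 90172) (nat_lit 14) (.e (nat_lit 180285) (nat_lit 45) (.e (nat_lit 2571) (nat_lit 160) .nil))))))) (.g (nat_lit 5) .nil .nil))) 
(.lf (nat_lit 142176) (.g (nat_lit 1504) (.e (nat_lit 40963) (nat_lit 0) (.e (nat_lit 1454) (nat_lit 108) (.e (nat_lit 336099) (nat_lit 9) (.e (nat_lit 336013) (nat_lit 2) (.e (nat_lit 98048) (nat_lit 2) (.e (nat_lit 16429) (nat_lit 8) (.e (nat_lit 417824) (nat_lit 13) .nil))))))) (.g (nat_lit 4) .nil .nil))))) (.nd (nat_lit 5) (.nd (nat_lit 6) 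
(.lf (nat_lit 142096) (.g (nat_lit 1073) (.e (nat_lit 32794) (nat_lit 14) (.e (nat_lit 249) (nat_lit 21) (.e (nat_lit 336215) (nat_lit 13) (.e (nat_lit 401152) (nat_lit 7) .nil)))) .nil)) 
(.lf (nat_lit 142160) (.g (nat_lit 1443) (.e (nat_lit 32809) (nat_lit 20) (.e (nat_lit 188420) (nat_lit 0) (.e (nat_lit 1856) (nat_lit 124) (.e (nat_lit 557100) (nat_lit 13) (.e (nat_lit 172039) (nat_lit 0) .nil))))) .nil))) (.nd (nat_lit 6) 
(.lf (nat_lit 142128) (.g (nat_lit 585) (.e (nat_lit 32807) (nat_lit 18) (.e (nat_lit 172124) (nat_lit 14) (.e (nat_lit 491526) (nat_lit 0) .nil))) .nil)) 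
(.lf (nat_lit 142192) (.g (nat_lit 1232) (.e (nat_lit 40963) (nat_lit 0) (.e (nat_lit 1656) (nat_lit 115) (.e (nat_lit 393265) (nat_lit 22) (.e (nat_lit 417795) (nat_lit 0) .nil)))) .nil))))) (.nd (nat_lit 4) (.nd (nat_lit 5) (.nd (nat_lit 6) 
(.lf (nat_lit 142088) (.g (nat_lit 1067) (.e (nat_lit 32789) (nat_lit 11) (.e (nat_lit 81959) (nat_lit 24) (.e (nat_lit 130816) (nat_lit 140) (.e (nat_lit 1212) (nat_lit 89) (.e (nat_lit 73789) (nat_lit 45) .nil))))) .nil)) 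
(.lf (nat_lit 142152) (.g (nat_lit 1828) (.e (nat_lit 32809) (nat_lit 20) (.e (nat_lit 188418) (nat_lit 0) (.e (nat_lit 1856) (nat_lit 124) (.e (nat_lit 557105) (nat_lit 14) (.e (nat_lit 180282) (nat_lit 45) (.e (nat_lit 2571) (nat_lit 160) .nil)))))) (.g (nat_lit 4) .nil .nil)))) (.nd (nat_lit 6) 
(.lf (nat_lit 142120) (.g (nat_lit 1452) (.e (nat_lit 32807) (nat_lit 18) (.e (nat_lit 172070) (nat_lit 4) (.e (nat_lit 237312) (nat_lit 262) (.e (nat_lit 57372) (nat_lit 2) (.e (nat_lit 90172) (nat_lit 14) (.e (nat_lit 180285) (nat_lit 45) (.e (nat_lit 2571) (nat_lit 160) .nil))))))) (.g (nat_lit 5) .nil .nil))) 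
(.lf (nat_lit 142184) (.g (nat_lit 1425) (.e (nat_lit 40963) (nat_lit 0) (.e (nat_lit 1633) (nat_lit 114) (.e (nat_lit 385043) (nat_lit 21) (.e (nat_lit 6828) (nat_lit 367) .nil)))) .nil)))) (.nd (nat_lit 5) (.nd (nat_lit 6) 
(.lf (nat_lit 142104) (.g (nat_lit 1095) (.e (nat_lit 32807) (nat_lit 18) (.e (nat_lit 172032) (nat_lit 0) (.e (nat_lit 7545) (nat_lit 402) (.e (nat_lit 1227) (nat_lit 91) (.e (nat_lit 90172) (nat_lit 14) (.e (nat_lit 180285) (nat_lit 45) (.e (nat_lit 2569) (nat_lit 160) .nil))))))) (.g (nat_lit 5) .nil .nil))) 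
(.lf (nat_lit 142168) (.g (nat_lit 1319) (.e (nat_lit 40961) (nat_lit 0) (.e (nat_lit 1661) (nat_lit 115) (.e (nat_lit 393268) (nat_lit 23) (.e (nat_lit 426438) (nat_lit 18) .nil)))) .nil))) (.nd (nat_lit 6) 
(.lf (nat_lit 142136) (.g (nat_lit 1131) (.e (nat_lit 32808) (nat_lit 19) (.e (nat_lit 180277) (nat_lit 32) (.e (nat_lit 1225) (nat_lit 91) (.e (nat_lit 90172) (nat_lit 14) (.e (nat_lit 180285) (nat_lit 45) (.e (nat_lit 2569) (nat_lit 160) .nil)))))) (.g (nat_lit 4) .nil .nil))) 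
(.lf (nat_lit 142200) (.g (nat_lit 587) (.e (nat_lit 40964) (nat_lit 0) (.e (nat_lit 1558) (nat_lit 110) (.e (nat_lit 352269) (nat_lit 7) (.e (nat_lit 245777) (nat_lit 5) (.e (nat_lit 180284) (nat_lit 45) (.e (nat_lit 2580) (nat_lit 161) .nil)))))) (.g (nat_lit 0) .nil .nil))))))) (.nd (nat_lit 3) (.nd (nat_lit 4) (.nd (nat_lit 5) (.nd (nat_lit 6) 
(.lf (nat_lit 142084) (.g (nat_lit 2006) (.e (nat_lit 32789) (nat_lit 11) (.e (nat_lit 81956) (nat_lit 23) (.e (nat_lit 98353) (nat_lit 25) (.e (nat_lit 417817) (nat_lit 10) .nil)))) .nil)) 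
(.lf (nat_lit 142148) (.g (nat_lit 2010) (.e (nat_lit 32809) (nat_lit 20) (.e (nat_lit 188418) (nat_lit 0) (.e (nat_lit 1846) (nat_lit 124) (.e (nat_lit 557103) (nat_lit 14) (.e (nat_lit 180285) (nat_lit 45) (.e (nat_lit 2569) (nat_lit 160) .nil)))))) (.g (nat_lit 5) .nil .nil)))) (.nd (nat_lit 6) 
(.lf (nat_lit 142116) (.g (nat_lit 1421) (.e (nat_lit 32807) (nat_lit 18) (.e (nat_lit 172041) (nat_lit 0) (.e (nat_lit 7540) (nat_lit 402) (.e (nat_lit 1228) (nat_lit 91) (.e (nat_lit 90172) (nat_lit 14) (.e (nat_lit 180285) (nat_lit 45) (.e (nat_lit 2571) (nat_lit 160) .nil))))))) (.g (nat_lit 4) .nil .nil))) 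
(.lf (nat_lit 142180) (.g (nat_lit 1012) (.e (nat_lit 40963) (nat_lit 0) (.e (nat_lit 1597) (nat_lit 111) (.e (nat_lit 360477) (nat_lit 11) (.e (nat_lit 581651) (nat_lit 4) .nil)))) .nil)))) (.nd (nat_lit 5) (.nd (nat_lit 6) 
(.lf (nat_lit 142100) (.g (nat_lit 690) (.e (nat_lit 40704) (nat_lit 16) (.e (nat_lit 24665) (nat_lit 14) (.e (nat_lit 409344) (nat_lit 34) (.e (nat_lit 393263) (nat_lit 22) (.e (nat_lit 417805) (nat_lit 2) .nil))))) .nil)) 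
(.lf (nat_lit 142164) (.g (nat_lit 392) (.e (nat_lit 32811) (nat_lit 22) (.e (nat_lit 237603) (nat_lit 9) (.e (nat_lit 426402) (nat_lit 15) (.e (nat_lit 1849) (nat_lit 124) .nil)))) .nil))) (.nd (nat_lit 6) 
(.lf (nat_lit 142132) (.g (nat_lit 2946) (.e (nat_lit 32807) (nat_lit 18) (.e (nat_lit 172126) (nat_lit 14) (.e (nat_lit 491539) (nat_lit 3) (.e (nat_lit 98359) (nat_lit 26) (.e (nat_lit 426170) (nat_lit 7) (.e (nat_lit 409631) (nat_lit 12) .nil)))))) (.g (nat_lit 4) .nil .nil))) 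
(.lf (nat_lit 142196) (.g (nat_lit 1641) (.e (nat_lit 40964) (nat_lit 0) (.e (nat_lit 1454) (nat_lit 108) (.e (nat_lit 336099) (nat_lit 9) (.e (nat_lit 336013) (nat_lit 2) (.e (nat_lit 98048) (nat_lit 2) (.e (nat_lit 16428) (nat_lit 8) (.e (nat_lit 417824) (nat_lit 13) .nil))))))) (.g (nat_lit 4) .nil .nil)))))) (.nd (nat_lit 4) (.nd (nat_lit 5) (.nd (nat_lit 6) 
(.lf (nat_lit 142092) (.g (nat_lit 1570) (.e (nat_lit 40704) (nat_lit 11) (.e (nat_lit 81946) (nat_lit 20) (.e (nat_lit 1842) (nat_lit 123) (.e (nat_lit 548889) (nat_lit 9) (.e (nat_lit 65585) (nat_lit 7) .nil))))) .nil)) 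
(.lf (nat_lit 142156) (.g (nat_lit 2736) (.e (nat_lit 32809) (nat_lit 20) (.e (nat_lit 188420) (nat_lit 0) (.e (nat_lit 1855) (nat_lit 124) (.e (nat_lit 557103) (nat_lit 14) (.e (nat_lit 180285) (nat_lit 45) (.e (nat_lit 2571) (nat_lit 160) .nil)))))) (.g (nat_lit 0) .nil .nil)))) (.nd (nat_lit 6) 
(.lf (nat_lit 142124) (.g (nat_lit 3439) (.e (nat_lit 32807) (nat_lit 18) (.e (nat_lit 172119) (nat_lit 12) (.e (nat_lit 475185) (nat_lit 29) (.e (nat_lit 557100) (nat_lit 13) (.e (nat_lit 172079) (nat_lit 7) (.e (nat_lit 409631) (nat_lit 12) .nil)))))) (.g (nat_lit 0) .nil .nil))) 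
(.lf (nat_lit 142188) (.g (nat_lit 1319) (.e (nat_lit 40963) (nat_lit 0) (.e (nat_lit 1633) (nat_lit 114) (.e (nat_lit 385045) (nat_lit 21) (.e (nat_lit 6828) (nat_lit 367) .nil)))) .nil)))) (.nd (nat_lit 5) (.nd (nat_lit 6) 
(.lf (nat_lit 142108) (.g (nat_lit 1310) (.e (nat_lit 32807) (nat_lit 18) (.e (nat_lit 172034) (nat_lit 0) (.e (nat_lit 7541) (nat_lit 402) (.e (nat_lit 1238) (nat_lit 91) (.e (nat_lit 90172) (nat_lit 14) (.e (nat_lit 180285) (nat_lit 45) (.e (nat_lit 2571) (nat_lit 160) .nil))))))) (.g (nat_lit 5) .nil .nil))) 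
(.lf (nat_lit 142172) (.g (nat_lit 1103) (.e (nat_lit 40962) (nat_lit 0) (.e (nat_lit 1582) (nat_lit 111) (.e (nat_lit 360477) (nat_lit 11) (.e (nat_lit 581651) (nat_lit 4) (.e (nat_lit 172079) (nat_lit 7) .nil))))) .nil))) (.nd (nat_lit 6) 
(.lf (nat_lit 142140) (.g (nat_lit 1299) (.e (nat_lit 32808) (nat_lit 19) (.e (nat_lit 180278) (nat_lit 32) (.e (nat_lit 1225) (nat_lit 91) (.e (nat_lit 90172) (nat_lit 14) (.e (nat_lit 180285) (nat_lit 45) (.e (nat_lit 2569) (nat_lit 160) .nil)))))) (.g (nat_lit 4) .nil .nil))) 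
(.lf (nat_lit 142204) (.g (nat_lit 520) (.e (nat_lit 40964) (nat_lit 0) (.e (nat_lit 1568) (nat_lit 110) (.e (nat_lit 352269) (nat_lit 7) (.e (nat_lit 245777) (nat_lit 5) (.e (nat_lit 180285) (nat_lit 45) (.e (nat_lit 2579) (nat_lit 161) .nil)))))) (.g (nat_lit 4) .nil .nil)))))))) (.nd (nat_lit 2) (.nd (nat_lit 3) (.nd (nat_lit 4) (.nd (nat_lit 5) (.nd (nat_lit 6) 
(.lf (nat_lit 142082) (.g (nat_lit 3436) (.e (nat_lit 32789) (nat_lit 11) (.e (nat_lit 81956) (nat_lit 23) (.e (nat_lit 98350) (nat_lit 24) (.e (nat_lit 409639) (nat_lit 15) .nil)))) .nil)) 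
(.lf (nat_lit 142146) (.g (nat_lit 1526) (.e (nat_lit 32808) (nat_lit 19) (.e (nat_lit 180278) (nat_lit 32) (.e (nat_lit 1234) (nat_lit 91) (.e (nat_lit 90173) (nat_lit 14) (.e (nat_lit 180284) (nat_lit 45) .nil))))) .nil))) (.nd (nat_lit 6) 
(.lf (nat_lit 142114) (.g (nat_lit 1604) (.e (nat_lit 32807) (nat_lit 18) (.e (nat_lit 172040) (nat_lit 0) (.e (nat_lit 7540) (nat_lit 402) (.e (nat_lit 1228) (nat_lit 91) (.e (nat_lit 90172) (nat_lit 14) (.e (nat_lit 180285) (nat_lit 45) (.e (nat_lit 2571) (nat_lit 160) .nil))))))) (.g (nat_lit 5) .nil .nil))) 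
(.lf (nat_lit 142178) (.g (nat_lit 1181) (.e (nat_lit 40963) (nat_lit 0) (.e (nat_lit 1454) (nat_lit 108) (.e (nat_lit 336173) (nat_lit 10) (.e (nat_lit 344138) (nat_lit 29) .nil)))) .nil)))) (.nd (nat_lit 5) (.nd (nat_lit 6) 
(.lf (nat_lit 142098) (.g (nat_lit 1544) (.e (nat_lit 32796) (nat_lit 14) (.e (nat_lit 284) (nat_lit 21) (.e (nat_lit 336215) (nat_lit 13) (.e (nat_lit 393253) (nat_lit 18) .nil)))) .nil)) 
(.lf (nat_lit 142162) (.g (nat_lit 1861) (.e (nat_lit 32809) (nat_lit 20) (.e (nat_lit 188420) (nat_lit 0) (.e (nat_lit 1856) (nat_lit 124) (.e (nat_lit 557105) (nat_lit 14) (.e (nat_lit 180285) (nat_lit 45) (.e (nat_lit 2569) (nat_lit 160) .nil)))))) (.g (nat_lit 4) .nil .nil)))) (.nd (nat_lit 6) 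
(.lf (nat_lit 142130) (.g (nat_lit 2610) (.e (nat_lit 32807) (nat_lit 18) (.e (nat_lit 172126) (nat_lit 14) (.e (nat_lit 491538) (nat_lit 3) (.e (nat_lit 98359) (nat_lit 26) (.e (nat_lit 426170) (nat_lit 7) (.e (nat_lit 409631) (nat_lit 12) .nil)))))) (.g (nat_lit 4) .nil .nil))) 
(.lf (nat_lit 142194) (.g (nat_lit 1462) (.e (nat_lit 40964) (nat_lit 0) (.e (nat_lit 1454) (nat_lit 108) (.e (nat_lit 336099) (nat_lit 9) (.e (nat_lit 336013) (nat_lit 2) (.e (nat_lit 98048) (nat_lit 2) .nil))))) .nil))))) (.nd (nat_lit 4) (.nd (nat_lit 5) (.nd (nat_lit 6) 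
(.lf (nat_lit 142090) (.g (nat_lit 1494) (.e (nat_lit 40704) (nat_lit 11) (.e (nat_lit 81943) (nat_lit 20) (.e (nat_lit 1842) (nat_lit 123) (.e (nat_lit 548889) (nat_lit 9) (.e (nat_lit 65585) (nat_lit 7) .nil))))) .nil)) 
(.lf (nat_lit 142154) (.g (nat_lit 1757) (.e (nat_lit 32809) (nat_lit 20) (.e (nat_lit 188420) (nat_lit 0) (.e (nat_lit 1846) (nat_lit 124) (.e (nat_lit 557103) (nat_lit 14) (.e (nat_lit 180285) (nat_lit 45) (.e (nat_lit 2571) (nat_lit 160) .nil)))))) (.g (nat_lit 5) .nil .nil)))) (.nd (nat_lit 6) 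
(.lf (nat_lit 142122) (.g (nat_lit 447) (.e (nat_lit 32807) (nat_lit 18) (.e (nat_lit 172094) (nat_lit 9) (.e (nat_lit 433920) (nat_lit 15) .nil))) .nil)) 
(.lf (nat_lit 142186) (.g (nat_lit 1304) (.e (nat_lit 40963) (nat_lit 0) (.e (nat_lit 1633) (nat_lit 114) (.e (nat_lit 385044) (nat_lit 21) (.e (nat_lit 6828) (nat_lit 367) .nil)))) .nil)))) (.nd (nat_lit 5) (.nd (nat_lit 6) 
(.lf (nat_lit 142106) (.g (nat_lit 1363) (.e (nat_lit 32807) (nat_lit 18) (.e (nat_lit 172034) (nat_lit 0) (.e (nat_lit 7541) (nat_lit 402) (.e (nat_lit 1238) (nat_lit 91) (.e (nat_lit 90172) (nat_lit 14) (.e (nat_lit 180285) (nat_lit 45) (.e (nat_lit 2569) (nat_lit 160) .nil))))))) (.g (nat_lit 5) .nil .nil))) 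
(.lf (nat_lit 142170) (.g (nat_lit 677) (.e (nat_lit 40962) (nat_lit 0) (.e (nat_lit 1555) (nat_lit 110) (.e (nat_lit 352269) (nat_lit 7) (.e (nat_lit 245776) (nat_lit 4) (.e (nat_lit 172080) (nat_lit 7) .nil))))) .nil))) (.nd (nat_lit 6) 
(.lf (nat_lit 142138) (.g (nat_lit 913) (.e (nat_lit 32808) (nat_lit 19) (.e (nat_lit 180277) (nat_lit 32) (.e (nat_lit 1234) (nat_lit 91) (.e (nat_lit 90170) (nat_lit 13) .nil)))) .nil)) 
(.lf (nat_lit 142202) (.g (nat_lit 1014) (.e (nat_lit 40964) (nat_lit 0) (.e (nat_lit 1558) (nat_lit 110) (.e (nat_lit 352315) (nat_lit 23) (.e (nat_lit 106240) (nat_lit 7) .nil)))) .nil)))))) (.nd (nat_lit 3) (.nd (nat_lit 4) (.nd (nat_lit 5) (.nd (nat_lit 6) 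
(.lf (nat_lit 142086) (.g (nat_lit 2733) (.e (nat_lit 32789) (nat_lit 11) (.e (nat_lit 81956) (nat_lit 23) (.e (nat_lit 98389) (nat_lit 33) (.e (nat_lit 491544) (nat_lit 7) (.e (nat_lit 319517) (nat_lit 12) .nil))))) (.g (nat_lit 4) .nil .nil))) 
(.lf (nat_lit 142150) (.g (nat_lit 253) (.e (nat_lit 32809) (nat_lit 20) (.e (nat_lit 188418) (nat_lit 0) (.e (nat_lit 1855) (nat_lit 124) .nil))) .nil))) (.nd (nat_lit 6) 
(.lf (nat_lit 142118) (.g (nat_lit 2049) (.e (nat_lit 32807) (nat_lit 18) (.e (nat_lit 172041) (nat_lit 0) (.e (nat_lit 7540) (nat_lit 402) (.e (nat_lit 1238) (nat_lit 91) (.e (nat_lit 90172) (nat_lit 14) (.e (nat_lit 180285) (nat_lit 45) (.e (nat_lit 2571) (nat_lit 160) .nil))))))) (.g (nat_lit 5) .nil .nil))) 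
(.lf (nat_lit 142182) (.g (nat_lit 1454) (.e (nat_lit 40963) (nat_lit 0) (.e (nat_lit 1597) (nat_lit 111) (.e (nat_lit 360477) (nat_lit 11) (.e (nat_lit 581651) (nat_lit 4) (.e (nat_lit 172082) (nat_lit 7) .nil))))) .nil)))) (.nd (nat_lit 5) (.nd (nat_lit 6) 
(.lf (nat_lit 142102) (.g (nat_lit 696) (.e (nat_lit 32806) (nat_lit 18) (.e (nat_lit 172126) (nat_lit 14) (.e (nat_lit 491524) (nat_lit 0) .nil))) .nil)) 
(.lf (nat_lit 142166) (.g (nat_lit 1319) (.e (nat_lit 40960) (nat_lit 0) (.e (nat_lit 1661) (nat_lit 115) (.e (nat_lit 393268) (nat_lit 23) (.e (nat_lit 426438) (nat_lit 18) .nil)))) .nil))) (.nd (nat_lit 6) 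
(.lf (nat_lit 142134) (.g (nat_lit 1607) (.e (nat_lit 32807) (nat_lit 18) (.e (nat_lit 172126) (nat_lit 14) (.e (nat_lit 491539) (nat_lit 3) (.e (nat_lit 98362) (nat_lit 26) .nil)))) .nil)) 
(.lf (nat_lit 142198) (.g (nat_lit 459) (.e (nat_lit 40964) (nat_lit 0) (.e (nat_lit 1454) (nat_lit 108) (.e (nat_lit 336173) (nat_lit 10) .nil))) .nil))))) (.nd (nat_lit 4) (.nd (nat_lit 5) (.nd (nat_lit 6) 
(.lf (nat_lit 142094) (.g (nat_lit 1957) (.e (nat_lit 40704) (nat_lit 11) (.e (nat_lit 81947) (nat_lit 20) (.e (nat_lit 1842) (nat_lit 123) (.e (nat_lit 548889) (nat_lit 9) (.e (nat_lit 65586) (nat_lit 7) .nil))))) .nil)) 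
(.lf (nat_lit 142158) (.g (nat_lit 1692) (.e (nat_lit 32809) (nat_lit 20) (.e (nat_lit 188420) (nat_lit 0) (.e (nat_lit 1855) (nat_lit 124) (.e (nat_lit 557105) (nat_lit 14) (.e (nat_lit 180284) (nat_lit 45) .nil))))) .nil))) (.nd (nat_lit 6) 
(.lf (nat_lit 142126) (.g (nat_lit 2683) (.e (nat_lit 32807) (nat_lit 18) (.e (nat_lit 172119) (nat_lit 12) (.e (nat_lit 475185) (nat_lit 29) (.e (nat_lit 557101) (nat_lit 13) (.e (nat_lit 172080) (nat_lit 7) (.e (nat_lit 409631) (nat_lit 12) .nil)))))) (.g (nat_lit 4) .nil .nil))) 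
(.lf (nat_lit 142190) (.g (nat_lit 2202) (.e (nat_lit 40963) (nat_lit 0) (.e (nat_lit 1633) (nat_lit 114) (.e (nat_lit 385045) (nat_lit 21) (.e (nat_lit 6828) (nat_lit 367) (.e (nat_lit 57375) (nat_lit 2) (.e (nat_lit 90172) (nat_lit 14) (.e (nat_lit 180285) (nat_lit 45) (.e (nat_lit 2580) (nat_lit 161) .nil)))))))) (.g (nat_lit 5) .nil .nil))))) (.nd (nat_lit 5) (.nd (nat_lit 6) 
(.lf (nat_lit 142110) (.g (nat_lit 1356) (.e (nat_lit 32807) (nat_lit 18) (.e (nat_lit 172034) (nat_lit 0) (.e (nat_lit 7545) (nat_lit 402) (.e (nat_lit 1238) (nat_lit 91) (.e (nat_lit 90172) (nat_lit 14) (.e (nat_lit 180285) (nat_lit 45) (.e (nat_lit 2569) (nat_lit 160) .nil))))))) (.g (nat_lit 5) .nil .nil))) 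
(.lf (nat_lit 142174) (.g (nat_lit 1473) (.e (nat_lit 40963) (nat_lit 0) (.e (nat_lit 1454) (nat_lit 108) (.e (nat_lit 336099) (nat_lit 9) (.e (nat_lit 336013) (nat_lit 2) (.e (nat_lit 98048) (nat_lit 2) .nil))))) .nil))) (.nd (nat_lit 6) 
(.lf (nat_lit 142142) (.g (nat_lit 1697) (.e (nat_lit 32808) (nat_lit 19) (.e (nat_lit 180278) (nat_lit 32) (.e (nat_lit 1234) (nat_lit 91) (.e (nat_lit 90170) (nat_lit 13) (.e (nat_lit 172077) (nat_lit 7) .nil))))) .nil)) 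
(.lf (nat_lit 142206) (.g (nat_lit 368) (.e (nat_lit 40964) (nat_lit 0) (.e (nat_lit 1568) (nat_lit 110) (.e (nat_lit 352269) (nat_lit 7) (.e (nat_lit 245777) (nat_lit 5) (.e (nat_lit 180287) (nat_lit 45) .nil))))) .nil)))))))) (.nd (nat_lit 1) (.nd (nat_lit 2) (.nd (nat_lit 3) (.nd (nat_lit 4) (.nd (nat_lit 5) (.nd (nat_lit 6) 
(.lf (nat_lit 142081) (.g (nat_lit 2663) (.e (nat_lit 32789) (nat_lit 11) (.e (nat_lit 81956) (nat_lit 23) (.e (nat_lit 98350) (nat_lit 24) (.e (nat_lit 409636) (nat_lit 14) .nil)))) .nil)) 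
(.lf (nat_lit 142145) (.g (nat_lit 1617) (.e (nat_lit 32808) (nat_lit 19) (.e (nat_lit 180278) (nat_lit 32) (.e (nat_lit 1234) (nat_lit 91) (.e (nat_lit 90170) (nat_lit 13) (.e (nat_lit 172081) (nat_lit 7) .nil))))) .nil))) (.nd (nat_lit 6) 
(.lf (nat_lit 142113) (.g (nat_lit 1596) (.e (nat_lit 32807) (nat_lit 18) (.e (nat_lit 172040) (nat_lit 0) (.e (nat_lit 7540) (nat_lit 402) (.e (nat_lit 1228) (nat_lit 91) (.e (nat_lit 90172) (nat_lit 14) (.e (nat_lit 180285) (nat_lit 45) (.e (nat_lit 2570) (nat_lit 160) .nil))))))) (.g (nat_lit 5) .nil .nil))) 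
(.lf (nat_lit 142177) (.g (nat_lit 1597) (.e (nat_lit 40963) (nat_lit 0) (.e (nat_lit 1454) (nat_lit 108) (.e (nat_lit 336173) (nat_lit 10) (.e (nat_lit 344123) (nat_lit 24) (.e (nat_lit 540723) (nat_lit 27) .nil))))) .nil)))) (.nd (nat_lit 5) (.nd (nat_lit 6) 
(.lf (nat_lit 142097) (.g (nat_lit 1011) (.e (nat_lit 32794) (nat_lit 14) (.e (nat_lit 2741) (nat_lit 174) (.e (nat_lit 253991) (nat_lit 11) (.e (nat_lit 24320) (nat_lit 34) .nil)))) .nil)) 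
(.lf (nat_lit 142161) (.g (nat_lit 1862) (.e (nat_lit 32809) (nat_lit 20) (.e (nat_lit 188420) (nat_lit 0) (.e (nat_lit 1856) (nat_lit 124) (.e (nat_lit 557105) (nat_lit 14) (.e (nat_lit 180282) (nat_lit 45) .nil))))) .nil))) (.nd (nat_lit 6) 
(.lf (nat_lit 142129) (.g (nat_lit 4191) (.e (nat_lit 32807) (nat_lit 18) (.e (nat_lit 172126) (nat_lit 14) (.e (nat_lit 491524) (nat_lit 0) (.e (nat_lit 1794) (nat_lit 119) (.e (nat_lit 516151) (nat_lit 9) (.e (nat_lit 426170) (nat_lit 7) (.e (nat_lit 409631) (nat_lit 12) .nil))))))) (.g (nat_lit 5) .nil .nil))) 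
(.lf (nat_lit 142193) (.g (nat_lit 1037) (.e (nat_lit 40964) (nat_lit 0) (.e (nat_lit 1250) (nat_lit 92) (.e (nat_lit 98366) (nat_lit 27) (.e (nat_lit 434244) (nat_lit 28) .nil)))) .nil))))) (.nd (nat_lit 4) (.nd (nat_lit 5) (.nd (nat_lit 6) 
(.lf (nat_lit 142089) (.g (nat_lit 1789) (.e (nat_lit 40704) (nat_lit 11) (.e (nat_lit 81938) (nat_lit 20) (.e (nat_lit 1842) (nat_lit 123) (.e (nat_lit 548889) (nat_lit 9) (.e (nat_lit 65585) (nat_lit 7) .nil))))) .nil)) 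
(.lf (nat_lit 142153) (.g (nat_lit 1698) (.e (nat_lit 32809) (nat_lit 20) (.e (nat_lit 188420) (nat_lit 0) (.e (nat_lit 1846) (nat_lit 124) (.e (nat_lit 557103) (nat_lit 14) (.e (nat_lit 180285) (nat_lit 45) (.e (nat_lit 2570) (nat_lit 160) .nil)))))) (.g (nat_lit 5) .nil .nil)))) (.nd (nat_lit 6) 
(.lf (nat_lit 142121) (.g (nat_lit 222) (.e (nat_lit 32807) (nat_lit 18) (.e (nat_lit 172085) (nat_lit 9) (.e (nat_lit 426402) (nat_lit 15) .nil))) .nil)) 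
(.lf (nat_lit 142185) (.g (nat_lit 1684) (.e (nat_lit 40963) (nat_lit 0) (.e (nat_lit 1633) (nat_lit 114) (.e (nat_lit 385043) (nat_lit 21) (.e (nat_lit 6828) (nat_lit 367) (.e (nat_lit 57375) (nat_lit 2) .nil))))) .nil)))) (.nd (nat_lit 5) (.nd (nat_lit 6) 
(.lf (nat_lit 142105) (.g (nat_lit 1146) (.e (nat_lit 32807) (nat_lit 18) (.e (nat_lit 172034) (nat_lit 0) (.e (nat_lit 7541) (nat_lit 402) (.e (nat_lit 1228) (nat_lit 91) (.e (nat_lit 90172) (nat_lit 14) (.e (nat_lit 180285) (nat_lit 45) (.e (nat_lit 2569) (nat_lit 160) .nil))))))) (.g (nat_lit 5) .nil .nil))) 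
(.lf (nat_lit 142169) (.g (nat_lit 1516) (.e (nat_lit 40962) (nat_lit 0) (.e (nat_lit 1454) (nat_lit 108) (.e (nat_lit 336099) (nat_lit 9) (.e (nat_lit 336013) (nat_lit 2) (.e (nat_lit 98048) (nat_lit 2) (.e (nat_lit 16425) (nat_lit 7) (.e (nat_lit 409632) (nat_lit 13) .nil))))))) (.g (nat_lit 4) .nil .nil)))) (.nd (nat_lit 6) 
(.lf (nat_lit 142137) (.g (nat_lit 1201) (.e (nat_lit 32808) (nat_lit 19) (.e (nat_lit 180277) (nat_lit 32) (.e (nat_lit 1225) (nat_lit 91) (.e (nat_lit 90172) (nat_lit 14) (.e (nat_lit 180285) (nat_lit 45) (.e (nat_lit 2570) (nat_lit 160) .nil)))))) (.g (nat_lit 4) .nil .nil))) 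
(.lf (nat_lit 142201) (.g (nat_lit 390) (.e (nat_lit 40964) (nat_lit 0) (.e (nat_lit 1558) (nat_lit 110) (.e (nat_lit 352312) (nat_lit 22) (.e (nat_lit 98048) (nat_lit 2) .nil)))) .nil)))))) (.nd (nat_lit 3) (.nd (nat_lit 4) (.nd (nat_lit 5) (.nd (nat_lit 6) 
(.lf (nat_lit 142085) (.g (nat_lit 3130) (.e (nat_lit 32789) (nat_lit 11) (.e (nat_lit 81956) (nat_lit 23) (.e (nat_lit 98389) (nat_lit 33) (.e (nat_lit 491526) (nat_lit 0) (.e (nat_lit 6126) (nat_lit 332) (.e (nat_lit 1139) (nat_lit 84) .nil)))))) (.g (nat_lit 4) .nil .nil))) 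
(.lf (nat_lit 142149) (.g (nat_lit 1320) (.e (nat_lit 32809) (nat_lit 20) (.e (nat_lit 188418) (nat_lit 0) (.e (nat_lit 1846) (nat_lit 124) (.e (nat_lit 557104) (nat_lit 14) (.e (nat_lit 180284) (nat_lit 45) .nil))))) .nil))) (.nd (nat_lit 6) 
(.lf (nat_lit 142117) (.g (nat_lit 2042) (.e (nat_lit 32807) (nat_lit 18) (.e (nat_lit 172041) (nat_lit 0) (.e (nat_lit 7540) (nat_lit 402) (.e (nat_lit 1238) (nat_lit 91) (.e (nat_lit 90172) (nat_lit 14) (.e (nat_lit 180285) (nat_lit 45) (.e (nat_lit 2570) (nat_lit 160) .nil))))))) (.g (nat_lit 5) .nil .nil))) 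
(.lf (nat_lit 142181) (.g (nat_lit 1357) (.e (nat_lit 40963) (nat_lit 0) (.e (nat_lit 1597) (nat_lit 111) (.e (nat_lit 360477) (nat_lit 11) (.e (nat_lit 581651) (nat_lit 4) (.e (nat_lit 172079) (nat_lit 7) .nil))))) .nil)))) (.nd (nat_lit 5) (.nd (nat_lit 6) 
(.lf (nat_lit 142101) (.g (nat_lit 711) (.e (nat_lit 40704) (nat_lit 16) (.e (nat_lit 24665) (nat_lit 14) (.e (nat_lit 409344) (nat_lit 34) (.e (nat_lit 393265) (nat_lit 22) (.e (nat_lit 417805) (nat_lit 2) .nil))))) .nil)) 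
(.lf (nat_lit 142165) (.g (nat_lit 2010) (.e (nat_lit 40960) (nat_lit 0) (.e (nat_lit 1661) (nat_lit 115) (.e (nat_lit 393268) (nat_lit 23) (.e (nat_lit 426428) (nat_lit 17) (.e (nat_lit 90153) (nat_lit 10) .nil))))) .nil))) (.nd (nat_lit 6) 
(.lf (nat_lit 142133) (.g (nat_lit 3019) (.e (nat_lit 32807) (nat_lit 18) (.e (nat_lit 172126) (nat_lit 14) (.e (nat_lit 491539) (nat_lit 3) (.e (nat_lit 98359) (nat_lit 26) (.e (nat_lit 426171) (nat_lit 7) (.e (nat_lit 409631) (nat_lit 12) .nil)))))) (.g (nat_lit 4) .nil .nil))) 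
(.lf (nat_lit 142197) (.g (nat_lit 1471) (.e (nat_lit 40964) (nat_lit 0) (.e (nat_lit 1454) (nat_lit 108) (.e (nat_lit 336099) (nat_lit 9) (.e (nat_lit 336013) (nat_lit 2) (.e (nat_lit 98048) (nat_lit 2) (.e (nat_lit 16430) (nat_lit 8) (.e (nat_lit 417824) (nat_lit 13) .nil))))))) (.g (nat_lit 4) .nil .nil)))))) (.nd (nat_lit 4) (.nd (nat_lit 5) (.nd (nat_lit 6) 
(.lf (nat_lit 142093) (.g (nat_lit 2018) (.e (nat_lit 40704) (nat_lit 11) (.e (nat_lit 81947) (nat_lit 20) (.e (nat_lit 1842) (nat_lit 123) (.e (nat_lit 548889) (nat_lit 9) (.e (nat_lit 65583) (nat_lit 7) .nil))))) .nil)) 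
(.lf (nat_lit 142157) (.g (nat_lit 2715) (.e (nat_lit 32809) (nat_lit 20) (.e (nat_lit 188420) (nat_lit 0) (.e (nat_lit 1855) (nat_lit 124) (.e (nat_lit 557103) (nat_lit 14) (.e (nat_lit 180288) (nat_lit 45) (.e (nat_lit 2571) (nat_lit 160) .nil)))))) (.g (nat_lit 0) .nil .nil)))) (.nd (nat_lit 6) 
(.lf (nat_lit 142125) (.g (nat_lit 3359) (.e (nat_lit 32807) (nat_lit 18) (.e (nat_lit 172119) (nat_lit 12) (.e (nat_lit 475185) (nat_lit 29) (.e (nat_lit 557100) (nat_lit 13) (.e (nat_lit 172082) (nat_lit 7) (.e (nat_lit 409631) (nat_lit 12) .nil)))))) (.g (nat_lit 0) .nil .nil))) 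
(.lf (nat_lit 142189) (.g (nat_lit 2473) (.e (nat_lit 40963) (nat_lit 0) (.e (nat_lit 1633) (nat_lit 114) (.e (nat_lit 385045) (nat_lit 21) (.e (nat_lit 6828) (nat_lit 367) (.e (nat_lit 57372) (nat_lit 2) (.e (nat_lit 90172) (nat_lit 14) (.e (nat_lit 180285) (nat_lit 45) (.e (nat_lit 2579) (nat_lit 161) .nil)))))))) (.g (nat_lit 6) .nil .nil))))) (.nd (nat_lit 5) (.nd (nat_lit 6) 
(.lf (nat_lit 142109) (.g (nat_lit 1488) (.e (nat_lit 32807) (nat_lit 18) (.e (nat_lit 172034) (nat_lit 0) (.e (nat_lit 7545) (nat_lit 402) (.e (nat_lit 1228) (nat_lit 91) (.e (nat_lit 90172) (nat_lit 14) (.e (nat_lit 180285) (nat_lit 45) (.e (nat_lit 2569) (nat_lit 160) .nil))))))) (.g (nat_lit 6) .nil .nil))) 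
(.lf (nat_lit 142173) (.g (nat_lit 579) (.e (nat_lit 40962) (nat_lit 0) (.e (nat_lit 1656) (nat_lit 115) (.e (nat_lit 393289) (nat_lit 25) .nil))) .nil))) (.nd (nat_lit 6) 
(.lf (nat_lit 142141) (.g (nat_lit 1386) (.e (nat_lit 32808) (nat_lit 19) (.e (nat_lit 180278) (nat_lit 32) (.e (nat_lit 1225) (nat_lit 91) (.e (nat_lit 90172) (nat_lit 14) (.e (nat_lit 180285) (nat_lit 45) (.e (nat_lit 2570) (nat_lit 160) .nil)))))) (.g (nat_lit 5) .nil .nil))) 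
(.lf (nat_lit 142205) (.g (nat_lit 494) (.e (nat_lit 40964) (nat_lit 0) (.e (nat_lit 1568) (nat_lit 110) (.e (nat_lit 352269) (nat_lit 7) (.e (nat_lit 245777) (nat_lit 5) (.e (nat_lit 180285) (nat_lit 45) (.e (nat_lit 2580) (nat_lit 161) .nil)))))) (.g (nat_lit 4) .nil .nil)))))))) (.nd (nat_lit 2) (.nd (nat_lit 3) (.nd (nat_lit 4) (.nd (nat_lit 5) (.nd (nat_lit 6) 
(.lf (nat_lit 142083) (.g (nat_lit 1121) (.e (nat_lit 32789) (nat_lit 11) (.e (nat_lit 81956) (nat_lit 23) (.e (nat_lit 98353) (nat_lit 25) .nil))) .nil)) 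
(.lf (nat_lit 142147) (.g (nat_lit 563) (.e (nat_lit 32808) (nat_lit 19) (.e (nat_lit 180278) (nat_lit 32) (.e (nat_lit 1246) (nat_lit 92) .nil))) .nil))) (.nd (nat_lit 6) 
(.lf (nat_lit 142115) (.g (nat_lit 1416) (.e (nat_lit 32807) (nat_lit 18) (.e (nat_lit 172041) (nat_lit 0) (.e (nat_lit 7540) (nat_lit 402) (.e (nat_lit 1228) (nat_lit 91) (.e (nat_lit 90172) (nat_lit 14) (.e (nat_lit 180285) (nat_lit 45) (.e (nat_lit 2570) (nat_lit 160) .nil))))))) (.g (nat_lit 4) .nil .nil))) 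
(.lf (nat_lit 142179) (.g (nat_lit 1211) (.e (nat_lit 40963) (nat_lit 0) (.e (nat_lit 1454) (nat_lit 108) (.e (nat_lit 336176) (nat_lit 10) (.e (nat_lit 344138) (nat_lit 29) .nil)))) .nil)))) (.nd (nat_lit 5) (.nd (nat_lit 6) 
(.lf (nat_lit 142099) (.g (nat_lit 350) (.e (nat_lit 40704) (nat_lit 16) (.e (nat_lit 24665) (nat_lit 14) (.e (nat_lit 409344) (nat_lit 34) .nil))) .nil)) 
(.lf (nat_lit 142163) (.g (nat_lit 1621) (.e (nat_lit 32809) (nat_lit 20) (.e (nat_lit 188420) (nat_lit 0) (.e (nat_lit 1856) (nat_lit 124) (.e (nat_lit 557105) (nat_lit 14) (.e (nat_lit 188160) (nat_lit 45) (.e (nat_lit 2569) (nat_lit 160) .nil)))))) (.g (nat_lit 4) .nil .nil)))) (.nd (nat_lit 6) 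
(.lf (nat_lit 142131) (.g (nat_lit 2683) (.e (nat_lit 32807) (nat_lit 18) (.e (nat_lit 172126) (nat_lit 14) (.e (nat_lit 491538) (nat_lit 3) (.e (nat_lit 98359) (nat_lit 26) (.e (nat_lit 426171) (nat_lit 7) (.e (nat_lit 409631) (nat_lit 12) .nil)))))) (.g (nat_lit 4) .nil .nil))) 
(.lf (nat_lit 142195) (.g (nat_lit 1485) (.e (nat_lit 40964) (nat_lit 0) (.e (nat_lit 1454) (nat_lit 108) (.e (nat_lit 336099) (nat_lit 9) (.e (nat_lit 336013) (nat_lit 2) (.e (nat_lit 98048) (nat_lit 2) (.e (nat_lit 16426) (nat_lit 8) (.e (nat_lit 417824) (nat_lit 13) .nil))))))) (.g (nat_lit 4) .nil .nil)))))) (.nd (nat_lit 4) (.nd (nat_lit 5) (.nd (nat_lit 6) 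
(.lf (nat_lit 142091) (.g (nat_lit 1172) (.e (nat_lit 40704) (nat_lit 11) (.e (nat_lit 81946) (nat_lit 20) (.e (nat_lit 1841) (nat_lit 123) (.e (nat_lit 548889) (nat_lit 9) (.e (nat_lit 65585) (nat_lit 7) .nil))))) .nil)) 
(.lf (nat_lit 142155) (.g (nat_lit 2689) (.e (nat_lit 32809) (nat_lit 20) (.e (nat_lit 188420) (nat_lit 0) (.e (nat_lit 1855) (nat_lit 124) (.e (nat_lit 557103) (nat_lit 14) (.e (nat_lit 180285) (nat_lit 45) (.e (nat_lit 2570) (nat_lit 160) .nil)))))) (.g (nat_lit 0) .nil .nil)))) (.nd (nat_lit 6) 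
(.lf (nat_lit 142123) (.g (nat_lit 442) (.e (nat_lit 32807) (nat_lit 18) (.e (nat_lit 172119) (nat_lit 12) (.e (nat_lit 475184) (nat_lit 29) .nil))) .nil)) 
(.lf (nat_lit 142187) (.g (nat_lit 1543) (.e (nat_lit 40963) (nat_lit 0) (.e (nat_lit 1633) (nat_lit 114) (.e (nat_lit 385044) (nat_lit 21) (.e (nat_lit 6828) (nat_lit 367) (.e (nat_lit 57375) (nat_lit 2) (.e (nat_lit 90172) (nat_lit 14) (.e (nat_lit 180285) (nat_lit 45) (.e (nat_lit 2579) (nat_lit 161) .nil)))))))) (.g (nat_lit 4) .nil .nil))))) (.nd (nat_lit 5) (.nd (nat_lit 6) 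
(.lf (nat_lit 142107) (.g (nat_lit 1301) (.e (nat_lit 32807) (nat_lit 18) (.e (nat_lit 172034) (nat_lit 0) (.e (nat_lit 7541) (nat_lit 402) (.e (nat_lit 1238) (nat_lit 91) (.e (nat_lit 90172) (nat_lit 14) (.e (nat_lit 180285) (nat_lit 45) (.e (nat_lit 2570) (nat_lit 160) .nil))))))) (.g (nat_lit 5) .nil .nil))) 
(.lf (nat_lit 142171) (.g (nat_lit 710) (.e (nat_lit 40962) (nat_lit 0) (.e (nat_lit 1582) (nat_lit 111) (.e (nat_lit 360477) (nat_lit 11) (.e (nat_lit 581651) (nat_lit 4) .nil)))) .nil))) (.nd (nat_lit 6) 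
(.lf (nat_lit 142139) (.g (nat_lit 1763) (.e (nat_lit 32808) (nat_lit 19) (.e (nat_lit 180277) (nat_lit 32) (.e (nat_lit 1234) (nat_lit 91) (.e (nat_lit 90170) (nat_lit 13) (.e (nat_lit 172082) (nat_lit 7) .nil))))) .nil)) 
(.lf (nat_lit 142203) (.g (nat_lit 366) (.e (nat_lit 40964) (nat_lit 0) (.e (nat_lit 1568) (nat_lit 110) (.e (nat_lit 352269) (nat_lit 7) (.e (nat_lit 245777) (nat_lit 5) (.e (nat_lit 180284) (nat_lit 45) .nil))))) .nil)))))) (.nd (nat_lit 3) (.nd (nat_lit 4) (.nd (nat_lit 5) (.nd (nat_lit 6) 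
(.lf (nat_lit 142087) (.g (nat_lit 3762) (.e (nat_lit 32789) (nat_lit 11) (.e (nat_lit 81956) (nat_lit 23) (.e (nat_lit 98389) (nat_lit 33) (.e (nat_lit 491544) (nat_lit 7) (.e (nat_lit 319518) (nat_lit 12) .nil))))) (.g (nat_lit 0) .nil .nil))) 
(.lf (nat_lit 142151) (.g (nat_lit 1583) (.e (nat_lit 32809) (nat_lit 20) (.e (nat_lit 188418) (nat_lit 0) (.e (nat_lit 1856) (nat_lit 124) (.e (nat_lit 557100) (nat_lit 13) (.e (nat_lit 172039) (nat_lit 0) (.e (nat_lit 7013) (nat_lit 377) (.e (nat_lit 2571) (nat_lit 160) .nil))))))) (.g (nat_lit 4) .nil .nil)))) (.nd (nat_lit 6) 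
(.lf (nat_lit 142119) (.g (nat_lit 1443) (.e (nat_lit 32807) (nat_lit 18) (.e (nat_lit 172070) (nat_lit 4) (.e (nat_lit 237312) (nat_lit 262) (.e (nat_lit 57372) (nat_lit 2) (.e (nat_lit 90172) (nat_lit 14) (.e (nat_lit 180285) (nat_lit 45) (.e (nat_lit 2570) (nat_lit 160) .nil))))))) (.g (nat_lit 5) .nil .nil))) 
(.lf (nat_lit 142183) (.g (nat_lit 923) (.e (nat_lit 40963) (nat_lit 0) (.e (nat_lit 1633) (nat_lit 114) (.e (nat_lit 385043) (nat_lit 21) .nil))) .nil)))) (.nd (nat_lit 5) (.nd (nat_lit 6) 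
(.lf (nat_lit 142103) (.g (nat_lit 1242) (.e (nat_lit 32807) (nat_lit 18) (.e (nat_lit 172032) (nat_lit 0) (.e (nat_lit 7540) (nat_lit 402) (.e (nat_lit 1238) (nat_lit 91) (.e (nat_lit 90172) (nat_lit 14) (.e (nat_lit 180285) (nat_lit 45) (.e (nat_lit 2569) (nat_lit 160) .nil))))))) (.g (nat_lit 4) .nil .nil))) 
(.lf (nat_lit 142167) (.g (nat_lit 2010) (.e (nat_lit 40961) (nat_lit 0) (.e (nat_lit 1661) (nat_lit 115) (.e (nat_lit 393268) (nat_lit 23) (.e (nat_lit 426428) (nat_lit 17) (.e (nat_lit 90153) (nat_lit 10) .nil))))) .nil))) (.nd (nat_lit 6) 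
(.lf (nat_lit 142135) (.g (nat_lit 616) (.e (nat_lit 32808) (nat_lit 19) (.e (nat_lit 180228) (nat_lit 0) (.e (nat_lit 7936) (nat_lit 259) .nil))) .nil)) 
(.lf (nat_lit 142199) (.g (nat_lit 614) (.e (nat_lit 40964) (nat_lit 0) (.e (nat_lit 1558) (nat_lit 110) (.e (nat_lit 352269) (nat_lit 7) (.e (nat_lit 245777) (nat_lit 5) (.e (nat_lit 180284) (nat_lit 45) (.e (nat_lit 2579) (nat_lit 161) .nil)))))) (.g (nat_lit 6) .nil .nil)))))) (.nd (nat_lit 4) (.nd (nat_lit 5) (.nd (nat_lit 6) 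
(.lf (nat_lit 142095) (.g (nat_lit 1600) (.e (nat_lit 40704) (nat_lit 11) (.e (nat_lit 81954) (nat_lit 23) (.e (nat_lit 98350) (nat_lit 24) (.e (nat_lit 409636) (nat_lit 14) .nil)))) .nil)) 
(.lf (nat_lit 142159) (.g (nat_lit 1715) (.e (nat_lit 32809) (nat_lit 20) (.e (nat_lit 188420) (nat_lit 0) (.e (nat_lit 1855) (nat_lit 124) (.e (nat_lit 557105) (nat_lit 14) (.e (nat_lit 180288) (nat_lit 45) .nil))))) .nil))) (.nd (nat_lit 6) 
(.lf (nat_lit 142127) (.g (nat_lit 744) (.e (nat_lit 32807) (nat_lit 18) (.e (nat_lit 172120) (nat_lit 12) (.e (nat_lit 475184) (nat_lit 29) .nil))) .nil)) 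
(.lf (nat_lit 142191) (.g (nat_lit 1324) (.e (nat_lit 40963) (nat_lit 0) (.e (nat_lit 1656) (nat_lit 115) (.e (nat_lit 393264) (nat_lit 22) (.e (nat_lit 417795) (nat_lit 0) (.e (nat_lit 580) (nat_lit 43) .nil))))) .nil)))) (.nd (nat_lit 5) (.nd (nat_lit 6) 
(.lf (nat_lit 142111) (.g (nat_lit 1294) (.e (nat_lit 32807) (nat_lit 18) (.e (nat_lit 172034) (nat_lit 0) (.e (nat_lit 7545) (nat_lit 402) (.e (nat_lit 1238) (nat_lit 91) (.e (nat_lit 90172) (nat_lit 14) (.e (nat_lit 180285) (nat_lit 45) (.e (nat_lit 2570) (nat_lit 160) .nil))))))) (.g (nat_lit 5) .nil .nil))) 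
(.lf (nat_lit 142175) (.g (nat_lit 1617) (.e (nat_lit 40963) (nat_lit 0) (.e (nat_lit 1454) (nat_lit 108) (.e (nat_lit 336099) (nat_lit 9) (.e (nat_lit 336013) (nat_lit 2) (.e (nat_lit 98048) (nat_lit 2) (.e (nat_lit 16424) (nat_lit 7) (.e (nat_lit 409634) (nat_lit 13) .nil))))))) (.g (nat_lit 4) .nil .nil)))) (.nd (nat_lit 6) 
(.lf (nat_lit 142143) (.g (nat_lit 2179) (.e (nat_lit 32808) (nat_lit 19) (.e (nat_lit 180278) (nat_lit 32) (.e (nat_lit 1234) (nat_lit 91) (.e (nat_lit 90170) (nat_lit 13) (.e (nat_lit 172078) (nat_lit 7) (.e (nat_lit 409629) (nat_lit 12) .nil)))))) (.g (nat_lit 5) .nil .nil))) 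
(.lf (nat_lit 142207) (.g (nat_lit 442) (.e (nat_lit 40964) (nat_lit 0) (.e (nat_lit 1568) (nat_lit 110) (.e (nat_lit 352269) (nat_lit 7) (.e (nat_lit 245777) (nat_lit 5) (.e (nat_lit 180288) (nat_lit 45) (.e (nat_lit 2580) (nat_lit 161) .nil)))))) (.g (nat_lit 4) .nil .nil))))))))))

noncomputable def tv1887 : DT := (.nd (nat_lit 0) (.nd (nat_lit 1) (.nd (nat_lit 2) (.nd (nat_lit 3) (.nd (nat_lit 4) 
(.lf (nat_lit 142208) (.g (nat_lit 926) (.e (nat_lit 40964) (nat_lit 0) (.e (nat_lit 1574) (nat_lit 110) (.e (nat_lit 352269) (nat_lit 7) (.e (nat_lit 245777) (nat_lit 5) (.e (nat_lit 180284) (nat_lit 45) (.e (nat_lit 2579) (nat_lit 161) .nil)))))) (.g (nat_lit 6) .nil .nil))) 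
(.lf (nat_lit 142224) (.g (nat_lit 2921) (.e (nat_lit 40964) (nat_lit 0) (.e (nat_lit 1597) (nat_lit 111) (.e (nat_lit 360466) (nat_lit 3) (.e (nat_lit 516115) (nat_lit 1) (.e (nat_lit 164179) (nat_lit 154) (.e (nat_lit 57403) (nat_lit 11) (.e (nat_lit 327694) (nat_lit 3) .nil))))))) (.g (nat_lit 5) .nil .nil)))) (.nd (nat_lit 4) 
(.lf (nat_lit 142216) (.g (nat_lit 996) (.e (nat_lit 40964) (nat_lit 0) (.e (nat_lit 1585) (nat_lit 111) (.e (nat_lit 360477) (nat_lit 11) (.e (nat_lit 581651) (nat_lit 4) (.e (nat_lit 172052) (nat_lit 0) (.e (nat_lit 6998) (nat_lit 377) (.e (nat_lit 2578) (nat_lit 161) .nil))))))) (.g (nat_lit 4) .nil .nil))) 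
(.lf (nat_lit 142232) (.g (nat_lit 987) (.e (nat_lit 40964) (nat_lit 0) (.e (nat_lit 1597) (nat_lit 111) (.e (nat_lit 360477) (nat_lit 11) (.e (nat_lit 581652) (nat_lit 5) .nil)))) .nil)))) (.nd (nat_lit 3) (.nd (nat_lit 4) 
(.lf (nat_lit 142212) (.g (nat_lit 1040) (.e (nat_lit 40964) (nat_lit 0) (.e (nat_lit 1574) (nat_lit 110) (.e (nat_lit 352269) (nat_lit 7) (.e (nat_lit 245777) (nat_lit 5) (.e (nat_lit 180288) (nat_lit 45) (.e (nat_lit 2580) (nat_lit 161) .nil)))))) (.g (nat_lit 0) .nil .nil))) 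
(.lf (nat_lit 142228) (.g (nat_lit 889) (.e (nat_lit 40964) (nat_lit 0) (.e (nat_lit 1597) (nat_lit 111) (.e (nat_lit 360466) (nat_lit 3) (.e (nat_lit 524032) (nat_lit 24) .nil)))) .nil))) (.nd (nat_lit 4) 
(.lf (nat_lit 142220) (.g (nat_lit 932) (.e (nat_lit 40964) (nat_lit 0) (.e (nat_lit 1585) (nat_lit 111) (.e (nat_lit 360477) (nat_lit 11) (.e (nat_lit 581652) (nat_lit 5) (.e (nat_lit 180287) (nat_lit 45) (.e (nat_lit 2579) (nat_lit 161) .nil)))))) (.g (nat_lit 6) .nil .nil))) 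
(.lf (nat_lit 142236) (.g (nat_lit 1526) (.e (nat_lit 40964) (nat_lit 0) (.e (nat_lit 1597) (nat_lit 111) (.e (nat_lit 360477) (nat_lit 11) (.e (nat_lit 581652) (nat_lit 5) (.e (nat_lit 180287) (nat_lit 45) (.e (nat_lit 2579) (nat_lit 161) .nil)))))) (.g (nat_lit 6) .nil .nil)))))) (.nd (nat_lit 2) (.nd (nat_lit 3) (.nd (nat_lit 4) 
(.lf (nat_lit 142210) (.g (nat_lit 1092) (.e (nat_lit 40964) (nat_lit 0) (.e (nat_lit 1574) (nat_lit 110) (.e (nat_lit 352269) (nat_lit 7) (.e (nat_lit 245777) (nat_lit 5) (.e (nat_lit 180285) (nat_lit 45) (.e (nat_lit 2580) (nat_lit 161) .nil)))))) (.g (nat_lit 0) .nil .nil))) 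
(.lf (nat_lit 142226) (.g (nat_lit 2058) (.e (nat_lit 40964) (nat_lit 0) (.e (nat_lit 1597) (nat_lit 111) (.e (nat_lit 360466) (nat_lit 3) (.e (nat_lit 516191) (nat_lit 17) (.e (nat_lit 6209) (nat_lit 333) (.e (nat_lit 57796) (nat_lit 245) (.e (nat_lit 7936) (nat_lit 161) .nil))))))) (.g (nat_lit 5) .nil .nil)))) (.nd (nat_lit 4) 
(.lf (nat_lit 142218) (.g (nat_lit 1118) (.e (nat_lit 40964) (nat_lit 0) (.e (nat_lit 1585) (nat_lit 111) (.e (nat_lit 360477) (nat_lit 11) (.e (nat_lit 581652) (nat_lit 5) (.e (nat_lit 180285) (nat_lit 45) (.e (nat_lit 2579) (nat_lit 161) .nil)))))) (.g (nat_lit 6) .nil .nil))) 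
(.lf (nat_lit 142234) (.g (nat_lit 1717) (.e (nat_lit 40964) (nat_lit 0) (.e (nat_lit 1597) (nat_lit 111) (.e (nat_lit 360477) (nat_lit 11) (.e (nat_lit 581652) (nat_lit 5) (.e (nat_lit 180285) (nat_lit 45) (.e (nat_lit 2579) (nat_lit 161) .nil)))))) (.g (nat_lit 6) .nil .nil))))) (.nd (nat_lit 3) (.nd (nat_lit 4) 
(.lf (nat_lit 142214) (.g (nat_lit 2230) (.e (nat_lit 40964) (nat_lit 0) (.e (nat_lit 1582) (nat_lit 111) (.e (nat_lit 360475) (nat_lit 8) (.e (nat_lit 557119) (nat_lit 18) (.e (nat_lit 2798) (nat_lit 180) (.e (nat_lit 303112) (nat_lit 0) (.e (nat_lit 7008) (nat_lit 377) (.e (nat_lit 2579) (nat_lit 161) .nil)))))))) (.g (nat_lit 4) .nil .nil))) 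
(.lf (nat_lit 142230) (.g (nat_lit 1185) (.e (nat_lit 40964) (nat_lit 0) (.e (nat_lit 1597) (nat_lit 111) (.e (nat_lit 360477) (nat_lit 11) (.e (nat_lit 581651) (nat_lit 4) (.e (nat_lit 172079) (nat_lit 7) .nil))))) .nil))) (.nd (nat_lit 4) 
(.lf (nat_lit 142222) (.g (nat_lit 1029) (.e (nat_lit 40964) (nat_lit 0) (.e (nat_lit 1585) (nat_lit 111) (.e (nat_lit 360477) (nat_lit 11) (.e (nat_lit 581652) (nat_lit 5) (.e (nat_lit 180288) (nat_lit 45) (.e (nat_lit 2580) (nat_lit 161) .nil)))))) (.g (nat_lit 0) .nil .nil))) 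
(.lf (nat_lit 142238) (.g (nat_lit 1614) (.e (nat_lit 40964) (nat_lit 0) (.e (nat_lit 1597) (nat_lit 111) (.e (nat_lit 360477) (nat_lit 11) (.e (nat_lit 581652) (nat_lit 5) (.e (nat_lit 180288) (nat_lit 45) (.e (nat_lit 2580) (nat_lit 161) .nil)))))) (.g (nat_lit 0) .nil .nil))))))) (.nd (nat_lit 1) (.nd (nat_lit 2) (.nd (nat_lit 3) (.nd (nat_lit 4) 
(.lf (nat_lit 142209) (.g (nat_lit 890) (.e (nat_lit 40964) (nat_lit 0) (.e (nat_lit 1574) (nat_lit 110) (.e (nat_lit 352269) (nat_lit 7) (.e (nat_lit 245777) (nat_lit 5) (.e (nat_lit 180284) (nat_lit 45) (.e (nat_lit 2580) (nat_lit 161) .nil)))))) (.g (nat_lit 0) .nil .nil))) 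
(.lf (nat_lit 142225) (.g (nat_lit 1610) (.e (nat_lit 40964) (nat_lit 0) (.e (nat_lit 1597) (nat_lit 111) (.e (nat_lit 360466) (nat_lit 3) (.e (nat_lit 516117) (nat_lit 1) (.e (nat_lit 164171) (nat_lit 153) .nil))))) .nil))) (.nd (nat_lit 4) 
(.lf (nat_lit 142217) (.g (nat_lit 925) (.e (nat_lit 40964) (nat_lit 0) (.e (nat_lit 1585) (nat_lit 111) (.e (nat_lit 360477) (nat_lit 11) (.e (nat_lit 581652) (nat_lit 5) (.e (nat_lit 180284) (nat_lit 45) (.e (nat_lit 2579) (nat_lit 161) .nil)))))) (.g (nat_lit 6) .nil .nil))) 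
(.lf (nat_lit 142233) (.g (nat_lit 1524) (.e (nat_lit 40964) (nat_lit 0) (.e (nat_lit 1597) (nat_lit 111) (.e (nat_lit 360477) (nat_lit 11) (.e (nat_lit 581652) (nat_lit 5) (.e (nat_lit 180284) (nat_lit 45) (.e (nat_lit 2579) (nat_lit 161) .nil)))))) (.g (nat_lit 6) .nil .nil))))) (.nd (nat_lit 3) (.nd (nat_lit 4) 
(.lf (nat_lit 142213) (.g (nat_lit 223) (.e (nat_lit 40964) (nat_lit 0) (.e (nat_lit 1582) (nat_lit 111) (.e (nat_lit 368384) (nat_lit 5) .nil))) .nil)) 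
(.lf (nat_lit 142229) (.g (nat_lit 365) (.e (nat_lit 40964) (nat_lit 0) (.e (nat_lit 1597) (nat_lit 111) (.e (nat_lit 360470) (nat_lit 6) (.e (nat_lit 540723) (nat_lit 27) .nil)))) .nil))) (.nd (nat_lit 4) 
(.lf (nat_lit 142221) (.g (nat_lit 1066) (.e (nat_lit 40964) (nat_lit 0) (.e (nat_lit 1585) (nat_lit 111) (.e (nat_lit 360477) (nat_lit 11) (.e (nat_lit 581652) (nat_lit 5) (.e (nat_lit 180288) (nat_lit 45) (.e (nat_lit 2579) (nat_lit 161) .nil)))))) (.g (nat_lit 6) .nil .nil))) 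
(.lf (nat_lit 142237) (.g (nat_lit 1663) (.e (nat_lit 40964) (nat_lit 0) (.e (nat_lit 1597) (nat_lit 111) (.e (nat_lit 360477) (nat_lit 11) (.e (nat_lit 581652) (nat_lit 5) (.e (nat_lit 180288) (nat_lit 45) (.e (nat_lit 2579) (nat_lit 161) .nil)))))) (.g (nat_lit 6) .nil .nil)))))) (.nd (nat_lit 2) (.nd (nat_lit 3) (.nd (nat_lit 4) 
(.lf (nat_lit 142211) (.g (nat_lit 1084) (.e (nat_lit 40964) (nat_lit 0) (.e (nat_lit 1574) (nat_lit 110) (.e (nat_lit 352269) (nat_lit 7) (.e (nat_lit 245777) (nat_lit 5) (.e (nat_lit 180288) (nat_lit 45) (.e (nat_lit 2579) (nat_lit 161) .nil)))))) (.g (nat_lit 6) .nil .nil))) 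
(.lf (nat_lit 142227) (.g (nat_lit 1455) (.e (nat_lit 40964) (nat_lit 0) (.e (nat_lit 1597) (nat_lit 111) (.e (nat_lit 360466) (nat_lit 3) (.e (nat_lit 516191) (nat_lit 17) (.e (nat_lit 6217) (nat_lit 333) (.e (nat_lit 57796) (nat_lit 245) (.e (nat_lit 7936) (nat_lit 161) .nil))))))) (.g (nat_lit 4) .nil .nil)))) (.nd (nat_lit 4) 
(.lf (nat_lit 142219) (.g (nat_lit 1102) (.e (nat_lit 40964) (nat_lit 0) (.e (nat_lit 1585) (nat_lit 111) (.e (nat_lit 360477) (nat_lit 11) (.e (nat_lit 581652) (nat_lit 5) (.e (nat_lit 180285) (nat_lit 45) (.e (nat_lit 2580) (nat_lit 161) .nil)))))) (.g (nat_lit 0) .nil .nil))) 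
(.lf (nat_lit 142235) (.g (nat_lit 1687) (.e (nat_lit 40964) (nat_lit 0) (.e (nat_lit 1597) (nat_lit 111) (.e (nat_lit 360477) (nat_lit 11) (.e (nat_lit 581652) (nat_lit 5) (.e (nat_lit 180285) (nat_lit 45) (.e (nat_lit 2580) (nat_lit 161) .nil)))))) (.g (nat_lit 0) .nil .nil))))) (.nd (nat_lit 3) (.nd (nat_lit 4) 
(.lf (nat_lit 142215) (.g (nat_lit 1176) (.e (nat_lit 40964) (nat_lit 0) (.e (nat_lit 1582) (nat_lit 111) (.e (nat_lit 360477) (nat_lit 11) (.e (nat_lit 581651) (nat_lit 4) (.e (nat_lit 172052) (nat_lit 0) .nil))))) .nil)) 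
(.lf (nat_lit 142231) (.g (nat_lit 1304) (.e (nat_lit 40964) (nat_lit 0) (.e (nat_lit 1597) (nat_lit 111) (.e (nat_lit 360477) (nat_lit 11) (.e (nat_lit 581651) (nat_lit 4) (.e (nat_lit 172081) (nat_lit 7) .nil))))) .nil))) (.nd (nat_lit 4) 
(.lf (nat_lit 142223) (.g (nat_lit 660) (.e (nat_lit 40964) (nat_lit 0) (.e (nat_lit 1591) (nat_lit 111) (.e (nat_lit 360477) (nat_lit 11) (.e (nat_lit 581652) (nat_lit 5) (.e (nat_lit 180287) (nat_lit 45) .nil))))) .nil)) 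
(.lf (nat_lit 142239) (.g (nat_lit 676) (.e (nat_lit 40964) (nat_lit 0) (.e (nat_lit 1597) (nat_lit 111) (.e (nat_lit 368384) (nat_lit 11) (.e (nat_lit 581652) (nat_lit 5) (.e (nat_lit 180284) (nat_lit 45) (.e (nat_lit 2580) (nat_lit 161) .nil)))))) (.g (nat_lit 5) .nil .nil))))))))

noncomputable def tv1888 : DT := (.nd (nat_lit 0) (.nd (nat_lit 1) (.nd (nat_lit 2) (.nd (nat_lit 3) (.nd (nat_lit 4) 
(.lf (nat_lit 142240) (.g (nat_lit 879) (.e (nat_lit 40964) (nat_lit 0) (.e (nat_lit 1597) (nat_lit 111) (.e (nat_lit 368384) (nat_lit 11) (.e (nat_lit 581652) (nat_lit 5) (.e (nat_lit 180285) (nat_lit 45) (.e (nat_lit 2580) (nat_lit 161) .nil)))))) (.g (nat_lit 5) .nil .nil))) 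
(.lf (nat_lit 142256) (.g (nat_lit 1016) (.e (nat_lit 40965) (nat_lit 0) (.e (nat_lit 1585) (nat_lit 111) (.e (nat_lit 360477) (nat_lit 11) (.e (nat_lit 581652) (nat_lit 5) (.e (nat_lit 180287) (nat_lit 45) (.e (nat_lit 2579) (nat_lit 161) .nil)))))) (.g (nat_lit 0) .nil .nil)))) (.nd (nat_lit 4) 
(.lf (nat_lit 142248) (.g (nat_lit 753) (.e (nat_lit 40965) (nat_lit 0) (.e (nat_lit 1568) (nat_lit 110) (.e (nat_lit 352269) (nat_lit 7) (.e (nat_lit 245777) (nat_lit 5) (.e (nat_lit 180287) (nat_lit 45) (.e (nat_lit 2579) (nat_lit 161) .nil)))))) (.g (nat_lit 0) .nil .nil))) 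
(.lf (nat_lit 142264) (.g (nat_lit 1598) (.e (nat_lit 40965) (nat_lit 0) (.e (nat_lit 1597) (nat_lit 111) (.e (nat_lit 360466) (nat_lit 3) (.e (nat_lit 516191) (nat_lit 17) (.e (nat_lit 6217) (nat_lit 333) (.e (nat_lit 57796) (nat_lit 245) (.e (nat_lit 7936) (nat_lit 161) .nil))))))) (.g (nat_lit 4) .nil .nil))))) (.nd (nat_lit 3) (.nd (nat_lit 4) 
(.lf (nat_lit 142244) (.g (nat_lit 2103) (.e (nat_lit 40965) (nat_lit 0) (.e (nat_lit 1448) (nat_lit 108) (.e (nat_lit 336060) (nat_lit 7) (.e (nat_lit 319505) (nat_lit 10) (.e (nat_lit 618) (nat_lit 48) (.e (nat_lit 557103) (nat_lit 14) (.e (nat_lit 180288) (nat_lit 45) (.e (nat_lit 2579) (nat_lit 161) .nil)))))))) (.g (nat_lit 5) .nil .nil))) 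
(.lf (nat_lit 142260) (.g (nat_lit 1178) (.e (nat_lit 40965) (nat_lit 0) (.e (nat_lit 1591) (nat_lit 111) (.e (nat_lit 360477) (nat_lit 11) (.e (nat_lit 581652) (nat_lit 5) (.e (nat_lit 180288) (nat_lit 45) (.e (nat_lit 2579) (nat_lit 161) .nil)))))) (.g (nat_lit 0) .nil .nil)))) (.nd (nat_lit 4) 
(.lf (nat_lit 142252) (.g (nat_lit 1098) (.e (nat_lit 40965) (nat_lit 0) (.e (nat_lit 1574) (nat_lit 110) (.e (nat_lit 352269) (nat_lit 7) (.e (nat_lit 245777) (nat_lit 5) (.e (nat_lit 180287) (nat_lit 45) (.e (nat_lit 2579) (nat_lit 161) .nil)))))) (.g (nat_lit 0) .nil .nil))) 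
(.lf (nat_lit 142268) (.g (nat_lit 1886) (.e (nat_lit 40965) (nat_lit 0) (.e (nat_lit 1597) (nat_lit 111) (.e (nat_lit 360477) (nat_lit 11) (.e (nat_lit 581652) (nat_lit 5) (.e (nat_lit 180287) (nat_lit 45) (.e (nat_lit 2579) (nat_lit 161) .nil)))))) (.g (nat_lit 0) .nil .nil)))))) (.nd (nat_lit 2) (.nd (nat_lit 3) (.nd (nat_lit 4) 
(.lf (nat_lit 142242) (.g (nat_lit 804) (.e (nat_lit 40964) (nat_lit 0) (.e (nat_lit 1633) (nat_lit 114) (.e (nat_lit 385045) (nat_lit 21) .nil))) .nil)) 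
(.lf (nat_lit 142258) (.g (nat_lit 1075) (.e (nat_lit 40965) (nat_lit 0) (.e (nat_lit 1585) (nat_lit 111) (.e (nat_lit 360477) (nat_lit 11) (.e (nat_lit 581652) (nat_lit 5) (.e (nat_lit 180288) (nat_lit 45) (.e (nat_lit 2580) (nat_lit 161) .nil)))))) (.g (nat_lit 0) .nil .nil)))) (.nd (nat_lit 4) 
(.lf (nat_lit 142250) (.g (nat_lit 818) (.e (nat_lit 40965) (nat_lit 0) (.e (nat_lit 1568) (nat_lit 110) (.e (nat_lit 352269) (nat_lit 7) (.e (nat_lit 245777) (nat_lit 5) (.e (nat_lit 180288) (nat_lit 45) (.e (nat_lit 2580) (nat_lit 161) .nil)))))) (.g (nat_lit 0) .nil .nil))) 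
(.lf (nat_lit 142266) (.g (nat_lit 2267) (.e (nat_lit 40965) (nat_lit 0) (.e (nat_lit 1597) (nat_lit 111) (.e (nat_lit 360473) (nat_lit 8) (.e (nat_lit 557119) (nat_lit 18) (.e (nat_lit 2798) (nat_lit 180) (.e (nat_lit 303112) (nat_lit 0) (.e (nat_lit 7008) (nat_lit 377) (.e (nat_lit 2580) (nat_lit 161) .nil)))))))) (.g (nat_lit 4) .nil .nil))))) (.nd (nat_lit 3) (.nd (nat_lit 4) 
(.lf (nat_lit 142246) (.g (nat_lit 1011) (.e (nat_lit 40965) (nat_lit 0) (.e (nat_lit 1555) (nat_lit 110) (.e (nat_lit 352269) (nat_lit 7) (.e (nat_lit 245777) (nat_lit 5) (.e (nat_lit 180288) (nat_lit 45) (.e (nat_lit 2579) (nat_lit 161) .nil)))))) (.g (nat_lit 0) .nil .nil))) 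
(.lf (nat_lit 142262) (.g (nat_lit 3201) (.e (nat_lit 40965) (nat_lit 0) (.e (nat_lit 1597) (nat_lit 111) (.e (nat_lit 360466) (nat_lit 3) (.e (nat_lit 516115) (nat_lit 1) (.e (nat_lit 164179) (nat_lit 154) (.e (nat_lit 57403) (nat_lit 11) (.e (nat_lit 327694) (nat_lit 3) .nil))))))) (.g (nat_lit 5) .nil .nil)))) (.nd (nat_lit 4) 
(.lf (nat_lit 142254) (.g (nat_lit 1163) (.e (nat_lit 40965) (nat_lit 0) (.e (nat_lit 1574) (nat_lit 110) (.e (nat_lit 352269) (nat_lit 7) (.e (nat_lit 245777) (nat_lit 5) (.e (nat_lit 180288) (nat_lit 45) (.e (nat_lit 2580) (nat_lit 161) .nil)))))) (.g (nat_lit 0) .nil .nil))) 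
(.lf (nat_lit 142270) (.g (nat_lit 1948) (.e (nat_lit 40965) (nat_lit 0) (.e (nat_lit 1597) (nat_lit 111) (.e (nat_lit 360477) (nat_lit 11) (.e (nat_lit 581652) (nat_lit 5) (.e (nat_lit 180288) (nat_lit 45) (.e (nat_lit 2580) (nat_lit 161) .nil)))))) (.g (nat_lit 0) .nil .nil))))))) (.nd (nat_lit 1) (.nd (nat_lit 2) (.nd (nat_lit 3) (.nd (nat_lit 4) 
(.lf (nat_lit 142241) (.g (nat_lit 664) (.e (nat_lit 40964) (nat_lit 0) (.e (nat_lit 1597) (nat_lit 111) (.e (nat_lit 368384) (nat_lit 11) (.e (nat_lit 581652) (nat_lit 5) (.e (nat_lit 180287) (nat_lit 45) (.e (nat_lit 2580) (nat_lit 161) .nil)))))) (.g (nat_lit 5) .nil .nil))) 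
(.lf (nat_lit 142257) (.g (nat_lit 1128) (.e (nat_lit 40965) (nat_lit 0) (.e (nat_lit 1585) (nat_lit 111) (.e (nat_lit 360477) (nat_lit 11) (.e (nat_lit 581652) (nat_lit 5) (.e (nat_lit 180288) (nat_lit 45) (.e (nat_lit 2579) (nat_lit 161) .nil)))))) (.g (nat_lit 0) .nil .nil)))) (.nd (nat_lit 4) 
(.lf (nat_lit 142249) (.g (nat_lit 872) (.e (nat_lit 40965) (nat_lit 0) (.e (nat_lit 1568) (nat_lit 110) (.e (nat_lit 352269) (nat_lit 7) (.e (nat_lit 245777) (nat_lit 5) (.e (nat_lit 180288) (nat_lit 45) (.e (nat_lit 2579) (nat_lit 161) .nil)))))) (.g (nat_lit 0) .nil .nil))) 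
(.lf (nat_lit 142265) (.g (nat_lit 1169) (.e (nat_lit 40965) (nat_lit 0) (.e (nat_lit 1597) (nat_lit 111) (.e (nat_lit 368384) (nat_lit 5) (.e (nat_lit 532583) (nat_lit 26) (.e (nat_lit 426181) (nat_lit 8) (.e (nat_lit 417824) (nat_lit 13) .nil)))))) (.g (nat_lit 4) .nil .nil))))) (.nd (nat_lit 3) (.nd (nat_lit 4) 
(.lf (nat_lit 142245) (.g (nat_lit 893) (.e (nat_lit 40965) (nat_lit 0) (.e (nat_lit 1555) (nat_lit 110) (.e (nat_lit 352269) (nat_lit 7) (.e (nat_lit 245777) (nat_lit 5) (.e (nat_lit 180287) (nat_lit 45) (.e (nat_lit 2579) (nat_lit 161) .nil)))))) (.g (nat_lit 0) .nil .nil))) 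
(.lf (nat_lit 142261) (.g (nat_lit 1125) (.e (nat_lit 40965) (nat_lit 0) (.e (nat_lit 1591) (nat_lit 111) (.e (nat_lit 360477) (nat_lit 11) (.e (nat_lit 581652) (nat_lit 5) (.e (nat_lit 180288) (nat_lit 45) (.e (nat_lit 2580) (nat_lit 161) .nil)))))) (.g (nat_lit 0) .nil .nil)))) (.nd (nat_lit 4) 
(.lf (nat_lit 142253) (.g (nat_lit 1215) (.e (nat_lit 40965) (nat_lit 0) (.e (nat_lit 1574) (nat_lit 110) (.e (nat_lit 352269) (nat_lit 7) (.e (nat_lit 245777) (nat_lit 5) (.e (nat_lit 180288) (nat_lit 45) (.e (nat_lit 2579) (nat_lit 161) .nil)))))) (.g (nat_lit 0) .nil .nil))) 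
(.lf (nat_lit 142269) (.g (nat_lit 2000) (.e (nat_lit 40965) (nat_lit 0) (.e (nat_lit 1597) (nat_lit 111) (.e (nat_lit 360477) (nat_lit 11) (.e (nat_lit 581652) (nat_lit 5) (.e (nat_lit 180288) (nat_lit 45) (.e (nat_lit 2579) (nat_lit 161) .nil)))))) (.g (nat_lit 0) .nil .nil)))))) (.nd (nat_lit 2) (.nd (nat_lit 3) (.nd (nat_lit 4) 
(.lf (nat_lit 142243) (.g (nat_lit 1632) (.e (nat_lit 40964) (nat_lit 0) (.e (nat_lit 1656) (nat_lit 115) (.e (nat_lit 393265) (nat_lit 22) (.e (nat_lit 417795) (nat_lit 0) (.e (nat_lit 580) (nat_lit 43) .nil))))) .nil)) 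
(.lf (nat_lit 142259) (.g (nat_lit 1063) (.e (nat_lit 40965) (nat_lit 0) (.e (nat_lit 1591) (nat_lit 111) (.e (nat_lit 360477) (nat_lit 11) (.e (nat_lit 581652) (nat_lit 5) (.e (nat_lit 180287) (nat_lit 45) (.e (nat_lit 2579) (nat_lit 161) .nil)))))) (.g (nat_lit 0) .nil .nil)))) (.nd (nat_lit 4) 
(.lf (nat_lit 142251) (.g (nat_lit 1216) (.e (nat_lit 40965) (nat_lit 0) (.e (nat_lit 1574) (nat_lit 110) (.e (nat_lit 352269) (nat_lit 7) (.e (nat_lit 245777) (nat_lit 5) (.e (nat_lit 180285) (nat_lit 45) (.e (nat_lit 2580) (nat_lit 161) .nil)))))) (.g (nat_lit 0) .nil .nil))) 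
(.lf (nat_lit 142267) (.g (nat_lit 1452) (.e (nat_lit 40965) (nat_lit 0) (.e (nat_lit 1597) (nat_lit 111) (.e (nat_lit 360475) (nat_lit 8) (.e (nat_lit 557119) (nat_lit 18) .nil)))) .nil)))) (.nd (nat_lit 3) (.nd (nat_lit 4) 
(.lf (nat_lit 142247) (.g (nat_lit 958) (.e (nat_lit 40965) (nat_lit 0) (.e (nat_lit 1555) (nat_lit 110) (.e (nat_lit 352269) (nat_lit 7) (.e (nat_lit 245777) (nat_lit 5) (.e (nat_lit 180288) (nat_lit 45) (.e (nat_lit 2580) (nat_lit 161) .nil)))))) (.g (nat_lit 0) .nil .nil))) 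
(.lf (nat_lit 142263) (.g (nat_lit 2201) (.e (nat_lit 40965) (nat_lit 0) (.e (nat_lit 1597) (nat_lit 111) (.e (nat_lit 360466) (nat_lit 3) (.e (nat_lit 516191) (nat_lit 17) (.e (nat_lit 6209) (nat_lit 333) (.e (nat_lit 57796) (nat_lit 245) (.e (nat_lit 7936) (nat_lit 161) .nil))))))) (.g (nat_lit 5) .nil .nil)))) (.nd (nat_lit 4) 
(.lf (nat_lit 142255) (.g (nat_lit 199) (.e (nat_lit 40965) (nat_lit 0) (.e (nat_lit 1582) (nat_lit 111) (.e (nat_lit 368384) (nat_lit 5) .nil))) .nil)) 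
(.lf (nat_lit 142271) (.g (nat_lit 998) (.e (nat_lit 40965) (nat_lit 0) (.e (nat_lit 1597) (nat_lit 111) (.e (nat_lit 368384) (nat_lit 11) (.e (nat_lit 581652) (nat_lit 5) (.e (nat_lit 180287) (nat_lit 45) (.e (nat_lit 2580) (nat_lit 161) .nil)))))) (.g (nat_lit 5) .nil .nil))))))))

noncomputable def tv1889 : DT := (.nd (nat_lit 0) (.nd (nat_lit 1) (.nd (nat_lit 2) (.nd (nat_lit 3) (.nd (nat_lit 4) (.nd (nat_lit 5) 
(.lf (nat_lit 142272) (.g (nat_lit 679) (.e (nat_lit 40965) (nat_lit 0) (.e (nat_lit 1656) (nat_lit 115) (.e (nat_lit 393266) (nat_lit 23) .nil))) .nil)) 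
(.lf (nat_lit 142304) (.g (nat_lit 2986) (.e (nat_lit 48896) (nat_lit 4) (.e (nat_lit 65630) (nat_lit 14) (.e (nat_lit 401459) (nat_lit 13) (.e (nat_lit 483328) (nat_lit 0) .nil)))) .nil))) (.nd (nat_lit 5) 
(.lf (nat_lit 142288) (.g (nat_lit 905) (.e (nat_lit 40967) (nat_lit 0) (.e (nat_lit 1426) (nat_lit 108) (.e (nat_lit 336208) (nat_lit 12) (.e (nat_lit 392960) (nat_lit 24) .nil)))) .nil)) 
(.lf (nat_lit 142320) (.g (nat_lit 514) (.e (nat_lit 48896) (nat_lit 6) (.e (nat_lit 81954) (nat_lit 23) (.e (nat_lit 106240) (nat_lit 7) .nil))) .nil)))) (.nd (nat_lit 4) (.nd (nat_lit 5) 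
(.lf (nat_lit 142280) (.g (nat_lit 2476) (.e (nat_lit 40965) (nat_lit 0) (.e (nat_lit 1656) (nat_lit 115) (.e (nat_lit 393301) (nat_lit 27) (.e (nat_lit 491535) (nat_lit 2) .nil)))) .nil)) 
(.lf (nat_lit 142312) (.g (nat_lit 658) (.e (nat_lit 48896) (nat_lit 6) (.e (nat_lit 81947) (nat_lit 20) (.e (nat_lit 1886) (nat_lit 127) (.e (nat_lit 581652) (nat_lit 5) (.e (nat_lit 180287) (nat_lit 45) .nil))))) .nil))) (.nd (nat_lit 5) 
(.lf (nat_lit 142296) (.g (nat_lit 1062) (.e (nat_lit 48896) (nat_lit 0) (.e (nat_lit 1256) (nat_lit 92) (.e (nat_lit 98372) (nat_lit 29) (.e (nat_lit 450600) (nat_lit 20) .nil)))) .nil)) 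
(.lf (nat_lit 142328) (.g (nat_lit 1681) (.e (nat_lit 40968) (nat_lit 9) (.e (nat_lit 232) (nat_lit 21) (.e (nat_lit 336060) (nat_lit 7) (.e (nat_lit 319528) (nat_lit 16) .nil)))) .nil))))) (.nd (nat_lit 3) (.nd (nat_lit 4) (.nd (nat_lit 5) 
(.lf (nat_lit 142276) (.g (nat_lit 1475) (.e (nat_lit 40965) (nat_lit 0) (.e (nat_lit 1656) (nat_lit 115) (.e (nat_lit 393293) (nat_lit 26) (.e (nat_lit 475185) (nat_lit 29) .nil)))) .nil)) 
(.lf (nat_lit 142308) (.g (nat_lit 833) (.e (nat_lit 48896) (nat_lit 6) (.e (nat_lit 81946) (nat_lit 20) (.e (nat_lit 1885) (nat_lit 127) (.e (nat_lit 581651) (nat_lit 4) (.e (nat_lit 172080) (nat_lit 7) .nil))))) .nil))) (.nd (nat_lit 5) 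
(.lf (nat_lit 142292) (.g (nat_lit 1943) (.e (nat_lit 48896) (nat_lit 0) (.e (nat_lit 1250) (nat_lit 92) (.e (nat_lit 98356) (nat_lit 26) (.e (nat_lit 426438) (nat_lit 18) (.e (nat_lit 98367) (nat_lit 27) .nil))))) .nil)) 
(.lf (nat_lit 142324) (.g (nat_lit 743) (.e (nat_lit 48896) (nat_lit 6) (.e (nat_lit 81956) (nat_lit 23) (.e (nat_lit 106240) (nat_lit 7) .nil))) .nil)))) (.nd (nat_lit 4) (.nd (nat_lit 5) 
(.lf (nat_lit 142284) (.g (nat_lit 1330) (.e (nat_lit 40966) (nat_lit 0) (.e (nat_lit 1661) (nat_lit 115) (.e (nat_lit 393268) (nat_lit 23) (.e (nat_lit 426438) (nat_lit 18) .nil)))) .nil)) 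
(.lf (nat_lit 142316) (.g (nat_lit 1105) (.e (nat_lit 48896) (nat_lit 6) (.e (nat_lit 81953) (nat_lit 22) (.e (nat_lit 98048) (nat_lit 2) (.e (nat_lit 16425) (nat_lit 7) (.e (nat_lit 409632) (nat_lit 13) .nil))))) .nil))) (.nd (nat_lit 5) 
(.lf (nat_lit 142300) (.g (nat_lit 1761) (.e (nat_lit 48896) (nat_lit 0) (.e (nat_lit 1256) (nat_lit 92) (.e (nat_lit 98373) (nat_lit 29) (.e (nat_lit 450603) (nat_lit 22) .nil)))) .nil)) 
(.lf (nat_lit 142332) (.g (nat_lit 3163) (.e (nat_lit 40968) (nat_lit 9) (.e (nat_lit 232) (nat_lit 21) (.e (nat_lit 336060) (nat_lit 7) (.e (nat_lit 319531) (nat_lit 16) (.e (nat_lit 286748) (nat_lit 9) .nil))))) .nil)))))) (.nd (nat_lit 2) (.nd (nat_lit 3) (.nd (nat_lit 4) (.nd (nat_lit 5) 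
(.lf (nat_lit 142274) (.g (nat_lit 1252) (.e (nat_lit 40965) (nat_lit 0) (.e (nat_lit 1656) (nat_lit 115) (.e (nat_lit 393282) (nat_lit 24) (.e (nat_lit 434231) (nat_lit 23) .nil)))) .nil)) 
(.lf (nat_lit 142306) (.g (nat_lit 461) (.e (nat_lit 48896) (nat_lit 6) (.e (nat_lit 81943) (nat_lit 20) (.e (nat_lit 1886) (nat_lit 127) (.e (nat_lit 581652) (nat_lit 5) (.e (nat_lit 180287) (nat_lit 45) .nil))))) .nil))) (.nd (nat_lit 5) 
(.lf (nat_lit 142290) (.g (nat_lit 722) (.e (nat_lit 48896) (nat_lit 0) (.e (nat_lit 1238) (nat_lit 91) (.e (nat_lit 90176) (nat_lit 15) (.e (nat_lit 188423) (nat_lit 11) .nil)))) .nil)) 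
(.lf (nat_lit 142322) (.g (nat_lit 724) (.e (nat_lit 48896) (nat_lit 6) (.e (nat_lit 81956) (nat_lit 23) (.e (nat_lit 98309) (nat_lit 0) .nil))) .nil)))) (.nd (nat_lit 4) (.nd (nat_lit 5) 
(.lf (nat_lit 142282) (.g (nat_lit 2354) (.e (nat_lit 40966) (nat_lit 0) (.e (nat_lit 1661) (nat_lit 115) (.e (nat_lit 393252) (nat_lit 18) (.e (nat_lit 164332) (nat_lit 230) (.e (nat_lit 163874) (nat_lit 3) .nil))))) .nil)) 
(.lf (nat_lit 142314) (.g (nat_lit 606) (.e (nat_lit 48896) (nat_lit 6) (.e (nat_lit 81953) (nat_lit 22) (.e (nat_lit 98048) (nat_lit 0) .nil))) .nil))) (.nd (nat_lit 5) 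
(.lf (nat_lit 142298) (.g (nat_lit 1762) (.e (nat_lit 48896) (nat_lit 0) (.e (nat_lit 1256) (nat_lit 92) (.e (nat_lit 98373) (nat_lit 29) (.e (nat_lit 450600) (nat_lit 20) .nil)))) .nil)) 
(.lf (nat_lit 142330) (.g (nat_lit 1917) (.e (nat_lit 40968) (nat_lit 9) (.e (nat_lit 232) (nat_lit 21) (.e (nat_lit 336060) (nat_lit 7) (.e (nat_lit 319530) (nat_lit 16) .nil)))) .nil))))) (.nd (nat_lit 3) (.nd (nat_lit 4) (.nd (nat_lit 5) 
(.lf (nat_lit 142278) (.g (nat_lit 1843) (.e (nat_lit 40965) (nat_lit 0) (.e (nat_lit 1656) (nat_lit 115) (.e (nat_lit 393300) (nat_lit 27) (.e (nat_lit 491536) (nat_lit 2) .nil)))) .nil)) 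
(.lf (nat_lit 142310) (.g (nat_lit 671) (.e (nat_lit 48896) (nat_lit 6) (.e (nat_lit 81946) (nat_lit 20) (.e (nat_lit 1886) (nat_lit 127) (.e (nat_lit 581652) (nat_lit 5) (.e (nat_lit 180287) (nat_lit 45) .nil))))) .nil))) (.nd (nat_lit 5) 
(.lf (nat_lit 142294) (.g (nat_lit 1082) (.e (nat_lit 48896) (nat_lit 0) (.e (nat_lit 1256) (nat_lit 92) (.e (nat_lit 98359) (nat_lit 26) (.e (nat_lit 426331) (nat_lit 13) (.e (nat_lit 483350) (nat_lit 17) .nil))))) .nil)) 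
(.lf (nat_lit 142326) (.g (nat_lit 971) (.e (nat_lit 48896) (nat_lit 6) (.e (nat_lit 81956) (nat_lit 23) (.e (nat_lit 98335) (nat_lit 18) .nil))) .nil)))) (.nd (nat_lit 4) (.nd (nat_lit 5) 
(.lf (nat_lit 142286) (.g (nat_lit 409) (.e (nat_lit 40967) (nat_lit 0) (.e (nat_lit 1235) (nat_lit 91) (.e (nat_lit 90174) (nat_lit 14) .nil))) .nil)) 
(.lf (nat_lit 142318) (.g (nat_lit 437) (.e (nat_lit 48896) (nat_lit 6) (.e (nat_lit 81954) (nat_lit 23) (.e (nat_lit 98309) (nat_lit 0) .nil))) .nil))) (.nd (nat_lit 5) 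
(.lf (nat_lit 142302) (.g (nat_lit 435) (.e (nat_lit 48896) (nat_lit 4) (.e (nat_lit 65598) (nat_lit 9) (.e (nat_lit 336013) (nat_lit 2) .nil))) .nil)) 
(.lf (nat_lit 142334) (.g (nat_lit 1351) (.e (nat_lit 40968) (nat_lit 9) (.e (nat_lit 232) (nat_lit 21) (.e (nat_lit 336060) (nat_lit 7) (.e (nat_lit 319534) (nat_lit 16) .nil)))) .nil))))))) (.nd (nat_lit 1) (.nd (nat_lit 2) (.nd (nat_lit 3) (.nd (nat_lit 4) (.nd (nat_lit 5) 
(.lf (nat_lit 142273) (.g (nat_lit 903) (.e (nat_lit 40965) (nat_lit 0) (.e (nat_lit 1656) (nat_lit 115) (.e (nat_lit 393275) (nat_lit 23) (.e (nat_lit 426125) (nat_lit 2) .nil)))) .nil)) 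
(.lf (nat_lit 142305) (.g (nat_lit 2986) (.e (nat_lit 48896) (nat_lit 4) (.e (nat_lit 65630) (nat_lit 14) (.e (nat_lit 401459) (nat_lit 13) (.e (nat_lit 483334) (nat_lit 0) .nil)))) .nil))) (.nd (nat_lit 5) 
(.lf (nat_lit 142289) (.g (nat_lit 2010) (.e (nat_lit 40967) (nat_lit 0) (.e (nat_lit 1661) (nat_lit 115) (.e (nat_lit 393268) (nat_lit 23) (.e (nat_lit 426428) (nat_lit 17) (.e (nat_lit 90153) (nat_lit 10) .nil))))) .nil)) 
(.lf (nat_lit 142321) (.g (nat_lit 574) (.e (nat_lit 48896) (nat_lit 6) (.e (nat_lit 81954) (nat_lit 23) (.e (nat_lit 98333) (nat_lit 18) .nil))) .nil)))) (.nd (nat_lit 4) (.nd (nat_lit 5) 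
(.lf (nat_lit 142281) (.g (nat_lit 2479) (.e (nat_lit 40965) (nat_lit 0) (.e (nat_lit 1656) (nat_lit 115) (.e (nat_lit 393301) (nat_lit 27) (.e (nat_lit 491536) (nat_lit 2) .nil)))) .nil)) 
(.lf (nat_lit 142313) (.g (nat_lit 847) (.e (nat_lit 48896) (nat_lit 6) (.e (nat_lit 81953) (nat_lit 22) (.e (nat_lit 90116) (nat_lit 0) .nil))) .nil))) (.nd (nat_lit 5) 
(.lf (nat_lit 142297) (.g (nat_lit 1062) (.e (nat_lit 48896) (nat_lit 0) (.e (nat_lit 1256) (nat_lit 92) (.e (nat_lit 98372) (nat_lit 29) (.e (nat_lit 450603) (nat_lit 22) .nil)))) .nil)) 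
(.lf (nat_lit 142329) (.g (nat_lit 2105) (.e (nat_lit 40968) (nat_lit 9) (.e (nat_lit 232) (nat_lit 21) (.e (nat_lit 336060) (nat_lit 7) (.e (nat_lit 319529) (nat_lit 16) .nil)))) .nil))))) (.nd (nat_lit 3) (.nd (nat_lit 4) (.nd (nat_lit 5) 
(.lf (nat_lit 142277) (.g (nat_lit 1959) (.e (nat_lit 40965) (nat_lit 0) (.e (nat_lit 1656) (nat_lit 115) (.e (nat_lit 393298) (nat_lit 27) (.e (nat_lit 491537) (nat_lit 2) .nil)))) .nil)) 
(.lf (nat_lit 142309) (.g (nat_lit 395) (.e (nat_lit 48896) (nat_lit 6) (.e (nat_lit 81946) (nat_lit 20) (.e (nat_lit 1886) (nat_lit 127) .nil))) .nil))) (.nd (nat_lit 5) 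
(.lf (nat_lit 142293) (.g (nat_lit 2284) (.e (nat_lit 48896) (nat_lit 0) (.e (nat_lit 1256) (nat_lit 92) (.e (nat_lit 98333) (nat_lit 18) (.e (nat_lit 164325) (nat_lit 230) (.e (nat_lit 163944) (nat_lit 19) .nil))))) .nil)) 
(.lf (nat_lit 142325) (.g (nat_lit 2607) (.e (nat_lit 48896) (nat_lit 6) (.e (nat_lit 81956) (nat_lit 23) (.e (nat_lit 98313) (nat_lit 9) (.e (nat_lit 335995) (nat_lit 1) (.e (nat_lit 57843) (nat_lit 251) .nil))))) .nil)))) (.nd (nat_lit 4) (.nd (nat_lit 5) 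
(.lf (nat_lit 142285) (.g (nat_lit 1602) (.e (nat_lit 40966) (nat_lit 0) (.e (nat_lit 1661) (nat_lit 115) (.e (nat_lit 393268) (nat_lit 23) (.e (nat_lit 426438) (nat_lit 18) (.e (nat_lit 98334) (nat_lit 18) .nil))))) .nil)) 
(.lf (nat_lit 142317) (.g (nat_lit 1200) (.e (nat_lit 48896) (nat_lit 6) (.e (nat_lit 81953) (nat_lit 22) (.e (nat_lit 98048) (nat_lit 2) (.e (nat_lit 16425) (nat_lit 7) (.e (nat_lit 409633) (nat_lit 13) .nil))))) .nil))) (.nd (nat_lit 5) 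
(.lf (nat_lit 142301) (.g (nat_lit 1689) (.e (nat_lit 48896) (nat_lit 0) (.e (nat_lit 1256) (nat_lit 92) (.e (nat_lit 98373) (nat_lit 29) (.e (nat_lit 450604) (nat_lit 22) .nil)))) .nil)) 
(.lf (nat_lit 142333) (.g (nat_lit 1500) (.e (nat_lit 40968) (nat_lit 9) (.e (nat_lit 232) (nat_lit 21) (.e (nat_lit 336060) (nat_lit 7) (.e (nat_lit 319533) (nat_lit 16) .nil)))) .nil)))))) (.nd (nat_lit 2) (.nd (nat_lit 3) (.nd (nat_lit 4) (.nd (nat_lit 5) 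
(.lf (nat_lit 142275) (.g (nat_lit 579) (.e (nat_lit 40965) (nat_lit 0) (.e (nat_lit 1656) (nat_lit 115) (.e (nat_lit 393289) (nat_lit 25) .nil))) .nil)) 
(.lf (nat_lit 142307) (.g (nat_lit 555) (.e (nat_lit 48896) (nat_lit 6) (.e (nat_lit 81946) (nat_lit 20) (.e (nat_lit 1885) (nat_lit 127) (.e (nat_lit 581651) (nat_lit 4) .nil)))) .nil))) (.nd (nat_lit 5) 
(.lf (nat_lit 142291) (.g (nat_lit 2485) (.e (nat_lit 48896) (nat_lit 0) (.e (nat_lit 1239) (nat_lit 91) (.e (nat_lit 90170) (nat_lit 13) (.e (nat_lit 172123) (nat_lit 13) .nil)))) .nil)) 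
(.lf (nat_lit 142323) (.g (nat_lit 1256) (.e (nat_lit 48896) (nat_lit 6) (.e (nat_lit 81956) (nat_lit 23) (.e (nat_lit 98309) (nat_lit 0) (.e (nat_lit 6217) (nat_lit 333) (.e (nat_lit 57796) (nat_lit 245) .nil))))) .nil)))) (.nd (nat_lit 4) (.nd (nat_lit 5) 
(.lf (nat_lit 142283) (.g (nat_lit 2020) (.e (nat_lit 40966) (nat_lit 0) (.e (nat_lit 1661) (nat_lit 115) (.e (nat_lit 393268) (nat_lit 23) (.e (nat_lit 426428) (nat_lit 17) (.e (nat_lit 90153) (nat_lit 10) .nil))))) .nil)) 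
(.lf (nat_lit 142315) (.g (nat_lit 606) (.e (nat_lit 48896) (nat_lit 6) (.e (nat_lit 81953) (nat_lit 22) (.e (nat_lit 98048) (nat_lit 2) .nil))) .nil))) (.nd (nat_lit 5) 
(.lf (nat_lit 142299) (.g (nat_lit 2195) (.e (nat_lit 48896) (nat_lit 0) (.e (nat_lit 1256) (nat_lit 92) (.e (nat_lit 98373) (nat_lit 29) (.e (nat_lit 450601) (nat_lit 21) (.e (nat_lit 696341) (nat_lit 7) .nil))))) .nil)) 
(.lf (nat_lit 142331) (.g (nat_lit 1911) (.e (nat_lit 40968) (nat_lit 9) (.e (nat_lit 232) (nat_lit 21) (.e (nat_lit 336060) (nat_lit 7) (.e (nat_lit 319531) (nat_lit 16) .nil)))) .nil))))) (.nd (nat_lit 3) (.nd (nat_lit 4) (.nd (nat_lit 5) 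
(.lf (nat_lit 142279) (.g (nat_lit 3120) (.e (nat_lit 40965) (nat_lit 0) (.e (nat_lit 1656) (nat_lit 115) (.e (nat_lit 393300) (nat_lit 27) (.e (nat_lit 491537) (nat_lit 2) (.e (nat_lit 90165) (nat_lit 12) .nil))))) .nil)) 
(.lf (nat_lit 142311) (.g (nat_lit 402) (.e (nat_lit 48896) (nat_lit 6) (.e (nat_lit 81947) (nat_lit 20) (.e (nat_lit 1886) (nat_lit 127) .nil))) .nil))) (.nd (nat_lit 5) 
(.lf (nat_lit 142295) (.g (nat_lit 1937) (.e (nat_lit 48896) (nat_lit 0) (.e (nat_lit 1256) (nat_lit 92) (.e (nat_lit 98370) (nat_lit 28) (.e (nat_lit 442436) (nat_lit 26) (.e (nat_lit 253987) (nat_lit 10) .nil))))) .nil)) 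
(.lf (nat_lit 142327) (.g (nat_lit 611) (.e (nat_lit 40968) (nat_lit 9) (.e (nat_lit 232) (nat_lit 21) (.e (nat_lit 336060) (nat_lit 7) .nil))) .nil)))) (.nd (nat_lit 4) (.nd (nat_lit 5) 
(.lf (nat_lit 142287) (.g (nat_lit 768) (.e (nat_lit 40967) (nat_lit 0) (.e (nat_lit 1235) (nat_lit 91) (.e (nat_lit 90174) (nat_lit 14) (.e (nat_lit 180250) (nat_lit 10) .nil)))) .nil)) 
(.lf (nat_lit 142319) (.g (nat_lit 1087) (.e (nat_lit 48896) (nat_lit 6) (.e (nat_lit 81954) (nat_lit 23) (.e (nat_lit 98309) (nat_lit 0) (.e (nat_lit 6217) (nat_lit 333) (.e (nat_lit 57796) (nat_lit 245) .nil))))) .nil))) (.nd (nat_lit 5) 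
(.lf (nat_lit 142303) (.g (nat_lit 225) (.e (nat_lit 48896) (nat_lit 4) (.e (nat_lit 65620) (nat_lit 10) (.e (nat_lit 344138) (nat_lit 29) .nil))) .nil)) 
(.lf (nat_lit 142335) (.g (nat_lit 2796) (.e (nat_lit 40968) (nat_lit 9) (.e (nat_lit 232) (nat_lit 21) (.e (nat_lit 336060) (nat_lit 7) (.e (nat_lit 319534) (nat_lit 16) (.e (nat_lit 286748) (nat_lit 9) .nil))))) .nil))))))))

noncomputable def tv1890 : DT := (.nd (nat_lit 0) (.nd (nat_lit 1) (.nd (nat_lit 2) (.nd (nat_lit 3) (.nd (nat_lit 4) (.nd (nat_lit 5) (.nd (nat_lit 6) 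
(.lf (nat_lit 142336) (.g (nat_lit 2112) (.e (nat_lit 40968) (nat_lit 9) (.e (nat_lit 232) (nat_lit 21) (.e (nat_lit 336060) (nat_lit 7) (.e (nat_lit 319534) (nat_lit 16) (.e (nat_lit 286759) (nat_lit 12) .nil))))) .nil)) 
(.lf (nat_lit 142400) (.g (nat_lit 2354) (.e (nat_lit 40993) (nat_lit 11) (.e (nat_lit 24617) (nat_lit 7) (.e (nat_lit 319531) (nat_lit 16) (.e (nat_lit 286759) (nat_lit 12) (.e (nat_lit 385093) (nat_lit 49) (.e (nat_lit 778510) (nat_lit 14) (.e (nat_lit 1152) (nat_lit 85) .nil))))))) (.g (nat_lit 4) .nil .nil)))) (.nd (nat_lit 6) 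
(.lf (nat_lit 142368) (.g (nat_lit 1288) (.e (nat_lit 40972) (nat_lit 9) (.e (nat_lit 312) (nat_lit 23) (.e (nat_lit 352322) (nat_lit 26) (.e (nat_lit 147496) (nat_lit 11) .nil)))) .nil)) 
(.lf (nat_lit 142432) (.g (nat_lit 2330) (.e (nat_lit 40993) (nat_lit 11) (.e (nat_lit 24660) (nat_lit 13) (.e (nat_lit 393260) (nat_lit 21) (.e (nat_lit 409616) (nat_lit 10) (.e (nat_lit 4931) (nat_lit 287) .nil))))) .nil)))) (.nd (nat_lit 5) (.nd (nat_lit 6) 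
(.lf (nat_lit 142352) (.g (nat_lit 3915) (.e (nat_lit 40972) (nat_lit 9) (.e (nat_lit 232) (nat_lit 21) (.e (nat_lit 336060) (nat_lit 7) (.e (nat_lit 319534) (nat_lit 16) (.e (nat_lit 286756) (nat_lit 10) (.e (nat_lit 344160) (nat_lit 37) (.e (nat_lit 647203) (nat_lit 14) (.e (nat_lit 7936) (nat_lit 161) .nil)))))))) (.g (nat_lit 7) .nil .nil))) 
(.lf (nat_lit 142416) (.g (nat_lit 2635) (.e (nat_lit 40993) (nat_lit 11) (.e (nat_lit 24628) (nat_lit 9) (.e (nat_lit 336369) (nat_lit 27) (.e (nat_lit 426173) (nat_lit 7) (.e (nat_lit 409617) (nat_lit 10) (.e (nat_lit 4934) (nat_lit 287) (.e (nat_lit 2579) (nat_lit 161) .nil))))))) (.g (nat_lit 4) .nil .nil)))) (.nd (nat_lit 6) 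
(.lf (nat_lit 142384) (.g (nat_lit 1488) (.e (nat_lit 40991) (nat_lit 10) (.e (nat_lit 8320) (nat_lit 64) (.e (nat_lit 516129) (nat_lit 3) (.e (nat_lit 221210) (nat_lit 22) (.e (nat_lit 196668) (nat_lit 14) .nil))))) .nil)) 
(.lf (nat_lit 142448) (.g (nat_lit 1802) (.e (nat_lit 40995) (nat_lit 11) (.e (nat_lit 24604) (nat_lit 2) (.e (nat_lit 90170) (nat_lit 13) (.e (nat_lit 172106) (nat_lit 10) .nil)))) .nil))))) (.nd (nat_lit 4) (.nd (nat_lit 5) (.nd (nat_lit 6) 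
(.lf (nat_lit 142344) (.g (nat_lit 2967) (.e (nat_lit 40971) (nat_lit 9) (.e (nat_lit 232) (nat_lit 21) (.e (nat_lit 336060) (nat_lit 7) (.e (nat_lit 319534) (nat_lit 16) (.e (nat_lit 286756) (nat_lit 10) (.e (nat_lit 344160) (nat_lit 37) (.e (nat_lit 655104) (nat_lit 14) (.e (nat_lit 2576) (nat_lit 161) .nil)))))))) (.g (nat_lit 6) .nil .nil))) 
(.lf (nat_lit 142408) (.g (nat_lit 2332) (.e (nat_lit 40993) (nat_lit 11) (.e (nat_lit 24617) (nat_lit 7) (.e (nat_lit 319533) (nat_lit 16) (.e (nat_lit 286759) (nat_lit 12) (.e (nat_lit 385114) (nat_lit 53) .nil))))) .nil))) (.nd (nat_lit 6) 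
(.lf (nat_lit 142376) (.g (nat_lit 1978) (.e (nat_lit 40972) (nat_lit 9) (.e (nat_lit 324) (nat_lit 24) (.e (nat_lit 360491) (nat_lit 22) (.e (nat_lit 778466) (nat_lit 11) (.e (nat_lit 24617) (nat_lit 7) (.e (nat_lit 327424) (nat_lit 3) .nil)))))) (.g (nat_lit 5) .nil .nil))) 
(.lf (nat_lit 142440) (.g (nat_lit 1506) (.e (nat_lit 40994) (nat_lit 11) (.e (nat_lit 24658) (nat_lit 13) (.e (nat_lit 393301) (nat_lit 27) .nil))) .nil)))) (.nd (nat_lit 5) (.nd (nat_lit 6) 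
(.lf (nat_lit 142360) (.g (nat_lit 2969) (.e (nat_lit 40972) (nat_lit 9) (.e (nat_lit 232) (nat_lit 21) (.e (nat_lit 336060) (nat_lit 7) (.e (nat_lit 319534) (nat_lit 16) (.e (nat_lit 286756) (nat_lit 10) (.e (nat_lit 344169) (nat_lit 40) (.e (nat_lit 671785) (nat_lit 14) (.e (nat_lit 1146) (nat_lit 85) .nil)))))))) (.g (nat_lit 6) .nil .nil))) 
(.lf (nat_lit 142424) (.g (nat_lit 2369) (.e (nat_lit 40993) (nat_lit 11) (.e (nat_lit 24657) (nat_lit 13) (.e (nat_lit 393260) (nat_lit 21) (.e (nat_lit 409617) (nat_lit 10) (.e (nat_lit 4926) (nat_lit 287) .nil))))) .nil))) (.nd (nat_lit 6) 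
(.lf (nat_lit 142392) (.g (nat_lit 472) (.e (nat_lit 40993) (nat_lit 11) (.e (nat_lit 24617) (nat_lit 7) (.e (nat_lit 319528) (nat_lit 16) .nil))) .nil)) 
(.lf (nat_lit 142456) (.g (nat_lit 1889) (.e (nat_lit 40995) (nat_lit 11) (.e (nat_lit 24617) (nat_lit 7) (.e (nat_lit 319528) (nat_lit 16) (.e (nat_lit 286759) (nat_lit 12) (.e (nat_lit 385094) (nat_lit 49) (.e (nat_lit 778548) (nat_lit 14) (.e (nat_lit 1146) (nat_lit 85) .nil))))))) (.g (nat_lit 4) .nil .nil))))))) (.nd (nat_lit 3) (.nd (nat_lit 4) (.nd (nat_lit 5) (.nd (nat_lit 6) 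
(.lf (nat_lit 142340) (.g (nat_lit 1801) (.e (nat_lit 40969) (nat_lit 9) (.e (nat_lit 232) (nat_lit 21) (.e (nat_lit 336060) (nat_lit 7) (.e (nat_lit 319534) (nat_lit 16) (.e (nat_lit 286756) (nat_lit 10) .nil))))) .nil)) 
(.lf (nat_lit 142404) (.g (nat_lit 1792) (.e (nat_lit 40993) (nat_lit 11) (.e (nat_lit 24617) (nat_lit 7) (.e (nat_lit 319533) (nat_lit 16) (.e (nat_lit 286753) (nat_lit 10) .nil)))) .nil))) (.nd (nat_lit 6) 
(.lf (nat_lit 142372) (.g (nat_lit 2647) (.e (nat_lit 40972) (nat_lit 9) (.e (nat_lit 314) (nat_lit 23) (.e (nat_lit 352324) (nat_lit 26) (.e (nat_lit 147496) (nat_lit 11) (.e (nat_lit 24617) (nat_lit 7) (.e (nat_lit 327424) (nat_lit 3) .nil)))))) (.g (nat_lit 5) .nil .nil))) 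
(.lf (nat_lit 142436) (.g (nat_lit 1117) (.e (nat_lit 40994) (nat_lit 11) (.e (nat_lit 24628) (nat_lit 9) (.e (nat_lit 336438) (nat_lit 31) (.e (nat_lit 458769) (nat_lit 16) .nil)))) .nil)))) (.nd (nat_lit 5) (.nd (nat_lit 6) 
(.lf (nat_lit 142356) (.g (nat_lit 3153) (.e (nat_lit 40972) (nat_lit 9) (.e (nat_lit 232) (nat_lit 21) (.e (nat_lit 336060) (nat_lit 7) (.e (nat_lit 319534) (nat_lit 16) (.e (nat_lit 286756) (nat_lit 10) (.e (nat_lit 344160) (nat_lit 37) (.e (nat_lit 655104) (nat_lit 14) (.e (nat_lit 2577) (nat_lit 161) .nil)))))))) (.g (nat_lit 6) .nil .nil))) 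
(.lf (nat_lit 142420) (.g (nat_lit 2998) (.e (nat_lit 40993) (nat_lit 11) (.e (nat_lit 24657) (nat_lit 13) (.e (nat_lit 393260) (nat_lit 21) (.e (nat_lit 409616) (nat_lit 10) (.e (nat_lit 4926) (nat_lit 287) .nil))))) .nil))) (.nd (nat_lit 6) 
(.lf (nat_lit 142388) (.g (nat_lit 2323) (.e (nat_lit 40992) (nat_lit 10) (.e (nat_lit 8325) (nat_lit 69) (.e (nat_lit 557105) (nat_lit 14) (.e (nat_lit 180251) (nat_lit 10) (.e (nat_lit 573484) (nat_lit 13) .nil))))) .nil)) 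
(.lf (nat_lit 142452) (.g (nat_lit 1995) (.e (nat_lit 40995) (nat_lit 11) (.e (nat_lit 24617) (nat_lit 7) (.e (nat_lit 319528) (nat_lit 16) (.e (nat_lit 286759) (nat_lit 12) (.e (nat_lit 385092) (nat_lit 49) .nil))))) .nil))))) (.nd (nat_lit 4) (.nd (nat_lit 5) (.nd (nat_lit 6) 
(.lf (nat_lit 142348) (.g (nat_lit 2374) (.e (nat_lit 40972) (nat_lit 9) (.e (nat_lit 232) (nat_lit 21) (.e (nat_lit 336060) (nat_lit 7) (.e (nat_lit 319529) (nat_lit 16) (.e (nat_lit 286759) (nat_lit 12) .nil))))) .nil)) 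
(.lf (nat_lit 142412) (.g (nat_lit 2450) (.e (nat_lit 40993) (nat_lit 11) (.e (nat_lit 24625) (nat_lit 9) (.e (nat_lit 336369) (nat_lit 27) (.e (nat_lit 426173) (nat_lit 7) (.e (nat_lit 409617) (nat_lit 10) .nil))))) .nil))) (.nd (nat_lit 6) 
(.lf (nat_lit 142380) (.g (nat_lit 1108) (.e (nat_lit 40987) (nat_lit 9) (.e (nat_lit 247) (nat_lit 21) (.e (nat_lit 336086) (nat_lit 9) (.e (nat_lit 336369) (nat_lit 27) .nil)))) .nil)) 
(.lf (nat_lit 142444) (.g (nat_lit 1978) (.e (nat_lit 40994) (nat_lit 11) (.e (nat_lit 24660) (nat_lit 13) (.e (nat_lit 393260) (nat_lit 21) (.e (nat_lit 409617) (nat_lit 10) (.e (nat_lit 4934) (nat_lit 287) .nil))))) .nil)))) (.nd (nat_lit 5) (.nd (nat_lit 6) 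
(.lf (nat_lit 142364) (.g (nat_lit 2484) (.e (nat_lit 40972) (nat_lit 9) (.e (nat_lit 232) (nat_lit 21) (.e (nat_lit 336060) (nat_lit 7) (.e (nat_lit 319534) (nat_lit 16) (.e (nat_lit 286758) (nat_lit 12) .nil))))) .nil)) 
(.lf (nat_lit 142428) (.g (nat_lit 3269) (.e (nat_lit 40993) (nat_lit 11) (.e (nat_lit 24658) (nat_lit 13) (.e (nat_lit 393260) (nat_lit 21) (.e (nat_lit 409616) (nat_lit 10) (.e (nat_lit 4931) (nat_lit 287) .nil))))) .nil))) (.nd (nat_lit 6) 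
(.lf (nat_lit 142396) (.g (nat_lit 2092) (.e (nat_lit 40993) (nat_lit 11) (.e (nat_lit 24617) (nat_lit 7) (.e (nat_lit 319528) (nat_lit 16) (.e (nat_lit 286759) (nat_lit 12) (.e (nat_lit 385114) (nat_lit 53) .nil))))) .nil)) 
(.lf (nat_lit 142460) (.g (nat_lit 2367) (.e (nat_lit 40995) (nat_lit 11) (.e (nat_lit 24617) (nat_lit 7) (.e (nat_lit 319530) (nat_lit 16) (.e (nat_lit 286748) (nat_lit 9) (.e (nat_lit 336295) (nat_lit 15) (.e (nat_lit 3806) (nat_lit 231) (.e (nat_lit 811045) (nat_lit 14) .nil))))))) (.g (nat_lit 5) .nil .nil)))))))) 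
(.nd (nat_lit 2) (.nd (nat_lit 3) (.nd (nat_lit 4) (.nd (nat_lit 5) (.nd (nat_lit 6) 
(.lf (nat_lit 142338) (.g (nat_lit 1481) (.e (nat_lit 40969) (nat_lit 9) (.e (nat_lit 232) (nat_lit 21) (.e (nat_lit 336060) (nat_lit 7) (.e (nat_lit 319533) (nat_lit 16) .nil)))) .nil)) 
(.lf (nat_lit 142402) (.g (nat_lit 2000) (.e (nat_lit 40993) (nat_lit 11) (.e (nat_lit 24617) (nat_lit 7) (.e (nat_lit 319531) (nat_lit 16) (.e (nat_lit 286759) (nat_lit 12) (.e (nat_lit 385113) (nat_lit 53) .nil))))) .nil))) (.nd (nat_lit 6) 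
(.lf (nat_lit 142370) (.g (nat_lit 1095) (.e (nat_lit 40972) (nat_lit 9) (.e (nat_lit 314) (nat_lit 23) (.e (nat_lit 352324) (nat_lit 26) (.e (nat_lit 147492) (nat_lit 11) .nil)))) .nil)) 
(.lf (nat_lit 142434) (.g (nat_lit 1019) (.e (nat_lit 40994) (nat_lit 11) (.e (nat_lit 24625) (nat_lit 9) (.e (nat_lit 336438) (nat_lit 31) .nil))) .nil)))) (.nd (nat_lit 5) (.nd (nat_lit 6) 
(.lf (nat_lit 142354) (.g (nat_lit 2999) (.e (nat_lit 40972) (nat_lit 9) (.e (nat_lit 232) (nat_lit 21) (.e (nat_lit 336060) (nat_lit 7) (.e (nat_lit 319534) (nat_lit 16) (.e (nat_lit 286756) (nat_lit 10) (.e (nat_lit 344160) (nat_lit 37) (.e (nat_lit 655104) (nat_lit 14) (.e (nat_lit 2574) (nat_lit 161) .nil)))))))) (.g (nat_lit 6) .nil .nil))) 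
(.lf (nat_lit 142418) (.g (nat_lit 1690) (.e (nat_lit 40993) (nat_lit 11) (.e (nat_lit 24630) (nat_lit 9) (.e (nat_lit 336369) (nat_lit 27) (.e (nat_lit 426173) (nat_lit 7) (.e (nat_lit 409617) (nat_lit 10) .nil))))) .nil))) (.nd (nat_lit 6) 
(.lf (nat_lit 142386) (.g (nat_lit 1442) (.e (nat_lit 40991) (nat_lit 10) (.e (nat_lit 8360) (nat_lit 88) (.e (nat_lit 712755) (nat_lit 30) (.e (nat_lit 450588) (nat_lit 10) (.e (nat_lit 573467) (nat_lit 10) .nil))))) .nil)) 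
(.lf (nat_lit 142450) (.g (nat_lit 1181) (.e (nat_lit 40995) (nat_lit 11) (.e (nat_lit 24608) (nat_lit 3) (.e (nat_lit 98373) (nat_lit 29) .nil))) .nil))))) (.nd (nat_lit 4) (.nd (nat_lit 5) (.nd (nat_lit 6) 
(.lf (nat_lit 142346) (.g (nat_lit 1979) (.e (nat_lit 40972) (nat_lit 9) (.e (nat_lit 232) (nat_lit 21) (.e (nat_lit 336013) (nat_lit 2) (.e (nat_lit 90170) (nat_lit 13) (.e (nat_lit 172106) (nat_lit 10) .nil))))) .nil)) 
(.lf (nat_lit 142410) (.g (nat_lit 1285) (.e (nat_lit 40993) (nat_lit 11) (.e (nat_lit 24617) (nat_lit 7) (.e (nat_lit 319534) (nat_lit 16) (.e (nat_lit 286759) (nat_lit 12) .nil)))) .nil))) (.nd (nat_lit 6) 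
(.lf (nat_lit 142378) (.g (nat_lit 2278) (.e (nat_lit 40976) (nat_lit 9) (.e (nat_lit 313) (nat_lit 23) (.e (nat_lit 352322) (nat_lit 26) (.e (nat_lit 147496) (nat_lit 11) (.e (nat_lit 24617) (nat_lit 7) (.e (nat_lit 327424) (nat_lit 3) .nil)))))) (.g (nat_lit 5) .nil .nil))) 
(.lf (nat_lit 142442) (.g (nat_lit 2574) (.e (nat_lit 40994) (nat_lit 11) (.e (nat_lit 24660) (nat_lit 13) (.e (nat_lit 393260) (nat_lit 21) (.e (nat_lit 409616) (nat_lit 10) (.e (nat_lit 4926) (nat_lit 287) .nil))))) .nil)))) (.nd (nat_lit 5) (.nd (nat_lit 6) 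
(.lf (nat_lit 142362) (.g (nat_lit 2907) (.e (nat_lit 40972) (nat_lit 9) (.e (nat_lit 232) (nat_lit 21) (.e (nat_lit 336060) (nat_lit 7) (.e (nat_lit 319534) (nat_lit 16) (.e (nat_lit 286756) (nat_lit 10) (.e (nat_lit 344169) (nat_lit 40) (.e (nat_lit 671789) (nat_lit 14) (.e (nat_lit 1146) (nat_lit 85) .nil)))))))) (.g (nat_lit 6) .nil .nil))) 
(.lf (nat_lit 142426) (.g (nat_lit 719) (.e (nat_lit 40993) (nat_lit 11) (.e (nat_lit 24658) (nat_lit 13) (.e (nat_lit 393260) (nat_lit 21) .nil))) .nil))) (.nd (nat_lit 6) 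
(.lf (nat_lit 142394) (.g (nat_lit 2043) (.e (nat_lit 40993) (nat_lit 11) (.e (nat_lit 24617) (nat_lit 7) (.e (nat_lit 319528) (nat_lit 16) (.e (nat_lit 286759) (nat_lit 12) (.e (nat_lit 385094) (nat_lit 49) .nil))))) .nil)) 
(.lf (nat_lit 142458) (.g (nat_lit 2689) (.e (nat_lit 40995) (nat_lit 11) (.e (nat_lit 24617) (nat_lit 7) (.e (nat_lit 319528) (nat_lit 16) (.e (nat_lit 286759) (nat_lit 12) (.e (nat_lit 385114) (nat_lit 53) (.e (nat_lit 811045) (nat_lit 14) .nil)))))) (.g (nat_lit 6) .nil .nil))))))) (.nd (nat_lit 3) (.nd (nat_lit 4) (.nd (nat_lit 5) (.nd (nat_lit 6) 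
(.lf (nat_lit 142342) (.g (nat_lit 382) (.e (nat_lit 40971) (nat_lit 9) (.e (nat_lit 232) (nat_lit 21) (.e (nat_lit 336060) (nat_lit 7) .nil))) .nil)) 
(.lf (nat_lit 142406) (.g (nat_lit 1800) (.e (nat_lit 40993) (nat_lit 11) (.e (nat_lit 24617) (nat_lit 7) (.e (nat_lit 319533) (nat_lit 16) (.e (nat_lit 286758) (nat_lit 12) (.e (nat_lit 385093) (nat_lit 49) .nil))))) .nil))) (.nd (nat_lit 6) 
(.lf (nat_lit 142374) (.g (nat_lit 1979) (.e (nat_lit 40972) (nat_lit 9) (.e (nat_lit 321) (nat_lit 24) (.e (nat_lit 360492) (nat_lit 22) (.e (nat_lit 778466) (nat_lit 11) (.e (nat_lit 24584) (nat_lit 0) (.e (nat_lit 6097) (nat_lit 332) (.e (nat_lit 2584) (nat_lit 161) .nil))))))) (.g (nat_lit 5) .nil .nil))) 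
(.lf (nat_lit 142438) (.g (nat_lit 533) (.e (nat_lit 40994) (nat_lit 11) (.e (nat_lit 24657) (nat_lit 13) (.e (nat_lit 401152) (nat_lit 17) .nil))) .nil)))) (.nd (nat_lit 5) (.nd (nat_lit 6) 
(.lf (nat_lit 142358) (.g (nat_lit 2982) (.e (nat_lit 40972) (nat_lit 9) (.e (nat_lit 232) (nat_lit 21) (.e (nat_lit 336060) (nat_lit 7) (.e (nat_lit 319534) (nat_lit 16) (.e (nat_lit 286756) (nat_lit 10) (.e (nat_lit 344160) (nat_lit 37) (.e (nat_lit 655104) (nat_lit 14) (.e (nat_lit 2585) (nat_lit 161) .nil)))))))) (.g (nat_lit 6) .nil .nil))) 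
(.lf (nat_lit 142422) (.g (nat_lit 2942) (.e (nat_lit 40993) (nat_lit 11) (.e (nat_lit 24657) (nat_lit 13) (.e (nat_lit 393260) (nat_lit 21) (.e (nat_lit 409616) (nat_lit 10) (.e (nat_lit 4931) (nat_lit 287) .nil))))) .nil))) (.nd (nat_lit 6) 
(.lf (nat_lit 142390) (.g (nat_lit 1302) (.e (nat_lit 40992) (nat_lit 10) (.e (nat_lit 8325) (nat_lit 69) (.e (nat_lit 557109) (nat_lit 15) (.e (nat_lit 188461) (nat_lit 26) .nil)))) .nil)) 
(.lf (nat_lit 142454) (.g (nat_lit 2864) (.e (nat_lit 40995) (nat_lit 11) (.e (nat_lit 24617) (nat_lit 7) (.e (nat_lit 319528) (nat_lit 16) (.e (nat_lit 286759) (nat_lit 12) (.e (nat_lit 385093) (nat_lit 49) (.e (nat_lit 778510) (nat_lit 14) (.e (nat_lit 1146) (nat_lit 85) .nil))))))) (.g (nat_lit 5) .nil .nil)))))) (.nd (nat_lit 4) (.nd (nat_lit 5) (.nd (nat_lit 6) 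
(.lf (nat_lit 142350) (.g (nat_lit 2283) (.e (nat_lit 40972) (nat_lit 9) (.e (nat_lit 232) (nat_lit 21) (.e (nat_lit 336060) (nat_lit 7) (.e (nat_lit 319532) (nat_lit 16) (.e (nat_lit 286759) (nat_lit 12) .nil))))) .nil)) 
(.lf (nat_lit 142414) (.g (nat_lit 2564) (.e (nat_lit 40993) (nat_lit 11) (.e (nat_lit 24627) (nat_lit 9) (.e (nat_lit 336369) (nat_lit 27) (.e (nat_lit 426173) (nat_lit 7) (.e (nat_lit 409617) (nat_lit 10) (.e (nat_lit 4934) (nat_lit 287) (.e (nat_lit 2580) (nat_lit 161) .nil))))))) (.g (nat_lit 5) .nil .nil)))) (.nd (nat_lit 6) 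
(.lf (nat_lit 142382) (.g (nat_lit 1864) (.e (nat_lit 40991) (nat_lit 10) (.e (nat_lit 8318) (nat_lit 64) (.e (nat_lit 516129) (nat_lit 3) (.e (nat_lit 221210) (nat_lit 22) (.e (nat_lit 196668) (nat_lit 14) .nil))))) .nil)) 
(.lf (nat_lit 142446) (.g (nat_lit 2085) (.e (nat_lit 40994) (nat_lit 11) (.e (nat_lit 24660) (nat_lit 13) (.e (nat_lit 393260) (nat_lit 21) (.e (nat_lit 409639) (nat_lit 15) .nil)))) .nil)))) (.nd (nat_lit 5) (.nd (nat_lit 6) 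
(.lf (nat_lit 142366) (.g (nat_lit 1865) (.e (nat_lit 40972) (nat_lit 9) (.e (nat_lit 297) (nat_lit 22) (.e (nat_lit 344132) (nat_lit 26) (.e (nat_lit 557101) (nat_lit 13) (.e (nat_lit 172070) (nat_lit 4) .nil))))) .nil)) 
(.lf (nat_lit 142430) (.g (nat_lit 2352) (.e (nat_lit 40993) (nat_lit 11) (.e (nat_lit 24660) (nat_lit 13) (.e (nat_lit 393260) (nat_lit 21) (.e (nat_lit 409616) (nat_lit 10) (.e (nat_lit 4926) (nat_lit 287) .nil))))) .nil))) (.nd (nat_lit 6) 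
(.lf (nat_lit 142398) (.g (nat_lit 2072) (.e (nat_lit 40993) (nat_lit 11) (.e (nat_lit 24617) (nat_lit 7) (.e (nat_lit 319530) (nat_lit 16) (.e (nat_lit 286759) (nat_lit 12) (.e (nat_lit 385115) (nat_lit 53) .nil))))) .nil)) 
(.lf (nat_lit 142462) (.g (nat_lit 2431) (.e (nat_lit 40995) (nat_lit 11) (.e (nat_lit 24617) (nat_lit 7) (.e (nat_lit 319530) (nat_lit 16) (.e (nat_lit 286759) (nat_lit 12) (.e (nat_lit 385093) (nat_lit 49) .nil))))) .nil)))))))) (.nd (nat_lit 1) (.nd (nat_lit 2) (.nd (nat_lit 3) (.nd (nat_lit 4) (.nd (nat_lit 5) (.nd (nat_lit 6) 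
(.lf (nat_lit 142337) (.g (nat_lit 604) (.e (nat_lit 40969) (nat_lit 9) (.e (nat_lit 232) (nat_lit 21) (.e (nat_lit 336060) (nat_lit 7) .nil))) .nil)) 
(.lf (nat_lit 142401) (.g (nat_lit 1869) (.e (nat_lit 40993) (nat_lit 11) (.e (nat_lit 24617) (nat_lit 7) (.e (nat_lit 319531) (nat_lit 16) (.e (nat_lit 286759) (nat_lit 12) (.e (nat_lit 385094) (nat_lit 49) .nil))))) .nil))) (.nd (nat_lit 6) 
(.lf (nat_lit 142369) (.g (nat_lit 858) (.e (nat_lit 40972) (nat_lit 9) (.e (nat_lit 314) (nat_lit 23) (.e (nat_lit 352322) (nat_lit 26) (.e (nat_lit 147495) (nat_lit 11) .nil)))) .nil)) 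
(.lf (nat_lit 142433) (.g (nat_lit 2133) (.e (nat_lit 40993) (nat_lit 11) (.e (nat_lit 24660) (nat_lit 13) (.e (nat_lit 393260) (nat_lit 21) (.e (nat_lit 409617) (nat_lit 10) (.e (nat_lit 4926) (nat_lit 287) .nil))))) .nil)))) (.nd (nat_lit 5) (.nd (nat_lit 6) 
(.lf (nat_lit 142353) (.g (nat_lit 3543) (.e (nat_lit 40972) (nat_lit 9) (.e (nat_lit 232) (nat_lit 21) (.e (nat_lit 336060) (nat_lit 7) (.e (nat_lit 319534) (nat_lit 16) (.e (nat_lit 286756) (nat_lit 10) (.e (nat_lit 344160) (nat_lit 37) (.e (nat_lit 647204) (nat_lit 14) (.e (nat_lit 2574) (nat_lit 161) .nil)))))))) (.g (nat_lit 7) .nil .nil))) 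
(.lf (nat_lit 142417) (.g (nat_lit 957) (.e (nat_lit 40993) (nat_lit 11) (.e (nat_lit 24628) (nat_lit 9) (.e (nat_lit 336438) (nat_lit 31) (.e (nat_lit 458769) (nat_lit 16) .nil)))) .nil))) (.nd (nat_lit 6) 
(.lf (nat_lit 142385) (.g (nat_lit 2184) (.e (nat_lit 40991) (nat_lit 10) (.e (nat_lit 8360) (nat_lit 88) (.e (nat_lit 712752) (nat_lit 29) (.e (nat_lit 442427) (nat_lit 23) (.e (nat_lit 204821) (nat_lit 17) (.e (nat_lit 7936) (nat_lit 155) (.e (nat_lit 811045) (nat_lit 14) .nil))))))) (.g (nat_lit 5) .nil .nil))) 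
(.lf (nat_lit 142449) (.g (nat_lit 1435) (.e (nat_lit 40995) (nat_lit 11) (.e (nat_lit 24604) (nat_lit 2) (.e (nat_lit 90176) (nat_lit 15) (.e (nat_lit 188431) (nat_lit 20) .nil)))) .nil))))) (.nd (nat_lit 4) (.nd (nat_lit 5) (.nd (nat_lit 6) 
(.lf (nat_lit 142345) (.g (nat_lit 521) (.e (nat_lit 40971) (nat_lit 9) (.e (nat_lit 314) (nat_lit 23) (.e (nat_lit 352324) (nat_lit 26) .nil))) .nil)) 
(.lf (nat_lit 142409) (.g (nat_lit 2719) (.e (nat_lit 40993) (nat_lit 11) (.e (nat_lit 24617) (nat_lit 7) (.e (nat_lit 319534) (nat_lit 16) (.e (nat_lit 286756) (nat_lit 10) (.e (nat_lit 344160) (nat_lit 37) (.e (nat_lit 655104) (nat_lit 14) (.e (nat_lit 2580) (nat_lit 161) .nil))))))) (.g (nat_lit 5) .nil .nil)))) (.nd (nat_lit 6) 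
(.lf (nat_lit 142377) (.g (nat_lit 568) (.e (nat_lit 40976) (nat_lit 9) (.e (nat_lit 267) (nat_lit 21) (.e (nat_lit 336219) (nat_lit 13) (.e (nat_lit 393283) (nat_lit 24) .nil)))) .nil)) 
(.lf (nat_lit 142441) (.g (nat_lit 1384) (.e (nat_lit 40994) (nat_lit 11) (.e (nat_lit 24660) (nat_lit 13) (.e (nat_lit 393260) (nat_lit 21) (.e (nat_lit 409616) (nat_lit 10) .nil)))) .nil)))) (.nd (nat_lit 5) (.nd (nat_lit 6) 
(.lf (nat_lit 142361) (.g (nat_lit 3554) (.e (nat_lit 40972) (nat_lit 9) (.e (nat_lit 232) (nat_lit 21) (.e (nat_lit 336060) (nat_lit 7) (.e (nat_lit 319534) (nat_lit 16) (.e (nat_lit 286756) (nat_lit 10) (.e (nat_lit 344169) (nat_lit 40) (.e (nat_lit 671786) (nat_lit 14) (.e (nat_lit 1149) (nat_lit 85) .nil)))))))) (.g (nat_lit 8) .nil .nil))) 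
(.lf (nat_lit 142425) (.g (nat_lit 1739) (.e (nat_lit 40993) (nat_lit 11) (.e (nat_lit 24657) (nat_lit 13) (.e (nat_lit 393283) (nat_lit 24) (.e (nat_lit 434268) (nat_lit 36) (.e (nat_lit 638976) (nat_lit 0) .nil))))) .nil))) (.nd (nat_lit 6) 
(.lf (nat_lit 142393) (.g (nat_lit 2168) (.e (nat_lit 40993) (nat_lit 11) (.e (nat_lit 24617) (nat_lit 7) (.e (nat_lit 319528) (nat_lit 16) (.e (nat_lit 286759) (nat_lit 12) (.e (nat_lit 385093) (nat_lit 49) (.e (nat_lit 778510) (nat_lit 14) (.e (nat_lit 1152) (nat_lit 85) .nil))))))) (.g (nat_lit 4) .nil .nil))) 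
(.lf (nat_lit 142457) (.g (nat_lit 2093) (.e (nat_lit 40995) (nat_lit 11) (.e (nat_lit 24617) (nat_lit 7) (.e (nat_lit 319528) (nat_lit 16) (.e (nat_lit 286759) (nat_lit 12) (.e (nat_lit 385111) (nat_lit 53) .nil))))) .nil)))))) (.nd (nat_lit 3) (.nd (nat_lit 4) (.nd (nat_lit 5) (.nd (nat_lit 6) 
(.lf (nat_lit 142341) (.g (nat_lit 2956) (.e (nat_lit 40970) (nat_lit 9) (.e (nat_lit 232) (nat_lit 21) (.e (nat_lit 336060) (nat_lit 7) (.e (nat_lit 319534) (nat_lit 16) (.e (nat_lit 286756) (nat_lit 10) (.e (nat_lit 344160) (nat_lit 37) (.e (nat_lit 655104) (nat_lit 14) (.e (nat_lit 2576) (nat_lit 161) .nil)))))))) (.g (nat_lit 6) .nil .nil))) 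
(.lf (nat_lit 142405) (.g (nat_lit 1543) (.e (nat_lit 40993) (nat_lit 11) (.e (nat_lit 24617) (nat_lit 7) (.e (nat_lit 319533) (nat_lit 16) (.e (nat_lit 286758) (nat_lit 12) .nil)))) .nil))) (.nd (nat_lit 6) 
(.lf (nat_lit 142373) (.g (nat_lit 300) (.e (nat_lit 40972) (nat_lit 9) (.e (nat_lit 321) (nat_lit 24) (.e (nat_lit 360492) (nat_lit 22) .nil))) .nil)) 
(.lf (nat_lit 142437) (.g (nat_lit 1338) (.e (nat_lit 40994) (nat_lit 11) (.e (nat_lit 24630) (nat_lit 9) (.e (nat_lit 336369) (nat_lit 27) (.e (nat_lit 426173) (nat_lit 7) .nil)))) .nil)))) (.nd (nat_lit 5) (.nd (nat_lit 6) 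
(.lf (nat_lit 142357) (.g (nat_lit 3006) (.e (nat_lit 40972) (nat_lit 9) (.e (nat_lit 232) (nat_lit 21) (.e (nat_lit 336060) (nat_lit 7) (.e (nat_lit 319534) (nat_lit 16) (.e (nat_lit 286756) (nat_lit 10) (.e (nat_lit 344160) (nat_lit 37) (.e (nat_lit 655104) (nat_lit 14) (.e (nat_lit 2584) (nat_lit 161) .nil)))))))) (.g (nat_lit 6) .nil .nil))) 
(.lf (nat_lit 142421) (.g (nat_lit 2967) (.e (nat_lit 40993) (nat_lit 11) (.e (nat_lit 24657) (nat_lit 13) (.e (nat_lit 393260) (nat_lit 21) (.e (nat_lit 409616) (nat_lit 10) (.e (nat_lit 4929) (nat_lit 287) .nil))))) .nil))) (.nd (nat_lit 6) 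
(.lf (nat_lit 142389) (.g (nat_lit 2120) (.e (nat_lit 40992) (nat_lit 10) (.e (nat_lit 8325) (nat_lit 69) (.e (nat_lit 557105) (nat_lit 14) (.e (nat_lit 180251) (nat_lit 10) (.e (nat_lit 573485) (nat_lit 13) (.e (nat_lit 65568) (nat_lit 2) (.e (nat_lit 90187) (nat_lit 18) (.e (nat_lit 2584) (nat_lit 161) .nil)))))))) (.g (nat_lit 4) .nil .nil))) 
(.lf (nat_lit 142453) (.g (nat_lit 1903) (.e (nat_lit 40995) (nat_lit 11) (.e (nat_lit 24617) (nat_lit 7) (.e (nat_lit 319528) (nat_lit 16) (.e (nat_lit 286759) (nat_lit 12) (.e (nat_lit 385093) (nat_lit 49) .nil))))) .nil))))) (.nd (nat_lit 4) (.nd (nat_lit 5) (.nd (nat_lit 6) 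
(.lf (nat_lit 142349) (.g (nat_lit 2346) (.e (nat_lit 40972) (nat_lit 9) (.e (nat_lit 232) (nat_lit 21) (.e (nat_lit 336060) (nat_lit 7) (.e (nat_lit 319530) (nat_lit 16) (.e (nat_lit 286759) (nat_lit 12) .nil))))) .nil)) 
(.lf (nat_lit 142413) (.g (nat_lit 1324) (.e (nat_lit 40993) (nat_lit 11) (.e (nat_lit 24627) (nat_lit 9) (.e (nat_lit 336369) (nat_lit 27) (.e (nat_lit 426173) (nat_lit 7) .nil)))) .nil))) (.nd (nat_lit 6) 
(.lf (nat_lit 142381) (.g (nat_lit 1012) (.e (nat_lit 40987) (nat_lit 9) (.e (nat_lit 316) (nat_lit 23) (.e (nat_lit 352322) (nat_lit 26) (.e (nat_lit 147492) (nat_lit 11) (.e (nat_lit 24621) (nat_lit 8) .nil))))) .nil)) 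
(.lf (nat_lit 142445) (.g (nat_lit 2047) (.e (nat_lit 40994) (nat_lit 11) (.e (nat_lit 24660) (nat_lit 13) (.e (nat_lit 393260) (nat_lit 21) (.e (nat_lit 409638) (nat_lit 15) .nil)))) .nil)))) (.nd (nat_lit 5) (.nd (nat_lit 6) 
(.lf (nat_lit 142365) (.g (nat_lit 1151) (.e (nat_lit 40972) (nat_lit 9) (.e (nat_lit 297) (nat_lit 22) (.e (nat_lit 344132) (nat_lit 26) (.e (nat_lit 557101) (nat_lit 13) .nil)))) .nil)) 
(.lf (nat_lit 142429) (.g (nat_lit 1271) (.e (nat_lit 40993) (nat_lit 11) (.e (nat_lit 24658) (nat_lit 13) (.e (nat_lit 393301) (nat_lit 27) .nil))) .nil))) (.nd (nat_lit 6) 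
(.lf (nat_lit 142397) (.g (nat_lit 1667) (.e (nat_lit 40993) (nat_lit 11) (.e (nat_lit 24617) (nat_lit 7) (.e (nat_lit 319529) (nat_lit 16) (.e (nat_lit 286759) (nat_lit 12) (.e (nat_lit 385115) (nat_lit 53) .nil))))) .nil)) 
(.lf (nat_lit 142461) (.g (nat_lit 1311) (.e (nat_lit 40995) (nat_lit 11) (.e (nat_lit 24617) (nat_lit 7) (.e (nat_lit 319530) (nat_lit 16) (.e (nat_lit 286759) (nat_lit 12) .nil)))) .nil))))))) (.nd (nat_lit 2) (.nd (nat_lit 3) (.nd (nat_lit 4) (.nd (nat_lit 5) (.nd (nat_lit 6) 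
(.lf (nat_lit 142339) (.g (nat_lit 2068) (.e (nat_lit 40969) (nat_lit 9) (.e (nat_lit 232) (nat_lit 21) (.e (nat_lit 336060) (nat_lit 7) (.e (nat_lit 319533) (nat_lit 16) (.e (nat_lit 286753) (nat_lit 10) .nil))))) .nil)) 
(.lf (nat_lit 142403) (.g (nat_lit 2035) (.e (nat_lit 40993) (nat_lit 11) (.e (nat_lit 24617) (nat_lit 7) (.e (nat_lit 319531) (nat_lit 16) (.e (nat_lit 286759) (nat_lit 12) (.e (nat_lit 385114) (nat_lit 53) .nil))))) .nil))) (.nd (nat_lit 6) 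
(.lf (nat_lit 142371) (.g (nat_lit 984) (.e (nat_lit 40972) (nat_lit 9) (.e (nat_lit 314) (nat_lit 23) (.e (nat_lit 352324) (nat_lit 26) (.e (nat_lit 147495) (nat_lit 11) .nil)))) .nil)) 
(.lf (nat_lit 142435) (.g (nat_lit 1016) (.e (nat_lit 40994) (nat_lit 11) (.e (nat_lit 24627) (nat_lit 9) (.e (nat_lit 336438) (nat_lit 31) (.e (nat_lit 458769) (nat_lit 16) .nil)))) .nil)))) (.nd (nat_lit 5) (.nd (nat_lit 6) 
(.lf (nat_lit 142355) (.g (nat_lit 3023) (.e (nat_lit 40972) (nat_lit 9) (.e (nat_lit 232) (nat_lit 21) (.e (nat_lit 336060) (nat_lit 7) (.e (nat_lit 319534) (nat_lit 16) (.e (nat_lit 286756) (nat_lit 10) (.e (nat_lit 344160) (nat_lit 37) (.e (nat_lit 655104) (nat_lit 14) (.e (nat_lit 2575) (nat_lit 161) .nil)))))))) (.g (nat_lit 6) .nil .nil))) 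
(.lf (nat_lit 142419) (.g (nat_lit 2229) (.e (nat_lit 40993) (nat_lit 11) (.e (nat_lit 24657) (nat_lit 13) (.e (nat_lit 393259) (nat_lit 21) (.e (nat_lit 409617) (nat_lit 10) (.e (nat_lit 4934) (nat_lit 287) .nil))))) .nil))) (.nd (nat_lit 6) 
(.lf (nat_lit 142387) (.g (nat_lit 2161) (.e (nat_lit 40992) (nat_lit 10) (.e (nat_lit 8325) (nat_lit 69) (.e (nat_lit 557103) (nat_lit 14) (.e (nat_lit 180250) (nat_lit 10) (.e (nat_lit 573485) (nat_lit 13) .nil))))) .nil)) 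
(.lf (nat_lit 142451) (.g (nat_lit 1788) (.e (nat_lit 40995) (nat_lit 11) (.e (nat_lit 24617) (nat_lit 7) (.e (nat_lit 319528) (nat_lit 16) (.e (nat_lit 286748) (nat_lit 9) (.e (nat_lit 336295) (nat_lit 15) (.e (nat_lit 3806) (nat_lit 231) (.e (nat_lit 811045) (nat_lit 14) .nil))))))) (.g (nat_lit 4) .nil .nil)))))) (.nd (nat_lit 4) (.nd (nat_lit 5) (.nd (nat_lit 6) 
(.lf (nat_lit 142347) (.g (nat_lit 1772) (.e (nat_lit 40972) (nat_lit 9) (.e (nat_lit 232) (nat_lit 21) (.e (nat_lit 336060) (nat_lit 7) (.e (nat_lit 319529) (nat_lit 16) .nil)))) .nil)) 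
(.lf (nat_lit 142411) (.g (nat_lit 2025) (.e (nat_lit 40993) (nat_lit 11) (.e (nat_lit 24617) (nat_lit 7) (.e (nat_lit 319534) (nat_lit 16) (.e (nat_lit 286759) (nat_lit 12) (.e (nat_lit 385093) (nat_lit 49) (.e (nat_lit 778510) (nat_lit 14) (.e (nat_lit 1152) (nat_lit 85) .nil))))))) (.g (nat_lit 4) .nil .nil)))) (.nd (nat_lit 6) 
(.lf (nat_lit 142379) (.g (nat_lit 299) (.e (nat_lit 40980) (nat_lit 9) (.e (nat_lit 284) (nat_lit 21) (.e (nat_lit 336076) (nat_lit 9) .nil))) .nil)) 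
(.lf (nat_lit 142443) (.g (nat_lit 2613) (.e (nat_lit 40994) (nat_lit 11) (.e (nat_lit 24660) (nat_lit 13) (.e (nat_lit 393260) (nat_lit 21) (.e (nat_lit 409616) (nat_lit 10) (.e (nat_lit 4978) (nat_lit 287) .nil))))) .nil)))) (.nd (nat_lit 5) (.nd (nat_lit 6) 
(.lf (nat_lit 142363) (.g (nat_lit 2762) (.e (nat_lit 40972) (nat_lit 9) (.e (nat_lit 232) (nat_lit 21) (.e (nat_lit 336060) (nat_lit 7) (.e (nat_lit 319534) (nat_lit 16) (.e (nat_lit 286756) (nat_lit 10) (.e (nat_lit 344169) (nat_lit 40) (.e (nat_lit 679680) (nat_lit 14) (.e (nat_lit 1146) (nat_lit 85) .nil)))))))) (.g (nat_lit 6) .nil .nil))) 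
(.lf (nat_lit 142427) (.g (nat_lit 1948) (.e (nat_lit 40993) (nat_lit 11) (.e (nat_lit 24658) (nat_lit 13) (.e (nat_lit 393260) (nat_lit 21) (.e (nat_lit 409616) (nat_lit 10) .nil)))) .nil))) (.nd (nat_lit 6) 
(.lf (nat_lit 142395) (.g (nat_lit 2093) (.e (nat_lit 40993) (nat_lit 11) (.e (nat_lit 24617) (nat_lit 7) (.e (nat_lit 319528) (nat_lit 16) (.e (nat_lit 286759) (nat_lit 12) (.e (nat_lit 385113) (nat_lit 53) .nil))))) .nil)) 
(.lf (nat_lit 142459) (.g (nat_lit 1955) (.e (nat_lit 40995) (nat_lit 11) (.e (nat_lit 24617) (nat_lit 7) (.e (nat_lit 319529) (nat_lit 16) (.e (nat_lit 286759) (nat_lit 12) (.e (nat_lit 385113) (nat_lit 53) .nil))))) .nil)))))) (.nd (nat_lit 3) (.nd (nat_lit 4) (.nd (nat_lit 5) (.nd (nat_lit 6) 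
(.lf (nat_lit 142343) (.g (nat_lit 1911) (.e (nat_lit 40971) (nat_lit 9) (.e (nat_lit 232) (nat_lit 21) (.e (nat_lit 336060) (nat_lit 7) (.e (nat_lit 319533) (nat_lit 16) (.e (nat_lit 286759) (nat_lit 12) .nil))))) .nil)) 
(.lf (nat_lit 142407) (.g (nat_lit 1776) (.e (nat_lit 40993) (nat_lit 11) (.e (nat_lit 24617) (nat_lit 7) (.e (nat_lit 319533) (nat_lit 16) (.e (nat_lit 286758) (nat_lit 12) (.e (nat_lit 385115) (nat_lit 53) .nil))))) .nil))) (.nd (nat_lit 6) 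
(.lf (nat_lit 142375) (.g (nat_lit 1946) (.e (nat_lit 40972) (nat_lit 9) (.e (nat_lit 321) (nat_lit 24) (.e (nat_lit 360492) (nat_lit 22) (.e (nat_lit 778466) (nat_lit 11) (.e (nat_lit 24617) (nat_lit 7) (.e (nat_lit 327424) (nat_lit 3) .nil)))))) (.g (nat_lit 5) .nil .nil))) 
(.lf (nat_lit 142439) (.g (nat_lit 1267) (.e (nat_lit 40994) (nat_lit 11) (.e (nat_lit 24657) (nat_lit 13) (.e (nat_lit 393283) (nat_lit 24) (.e (nat_lit 434268) (nat_lit 36) .nil)))) .nil)))) (.nd (nat_lit 5) (.nd (nat_lit 6) 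
(.lf (nat_lit 142359) (.g (nat_lit 3242) (.e (nat_lit 40972) (nat_lit 9) (.e (nat_lit 232) (nat_lit 21) (.e (nat_lit 336060) (nat_lit 7) (.e (nat_lit 319534) (nat_lit 16) (.e (nat_lit 286756) (nat_lit 10) (.e (nat_lit 344168) (nat_lit 40) (.e (nat_lit 671786) (nat_lit 14) (.e (nat_lit 1149) (nat_lit 85) .nil)))))))) (.g (nat_lit 7) .nil .nil))) 
(.lf (nat_lit 142423) (.g (nat_lit 3104) (.e (nat_lit 40993) (nat_lit 11) (.e (nat_lit 24657) (nat_lit 13) (.e (nat_lit 393260) (nat_lit 21) (.e (nat_lit 409616) (nat_lit 10) (.e (nat_lit 4934) (nat_lit 287) .nil))))) .nil))) (.nd (nat_lit 6) 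
(.lf (nat_lit 142391) (.g (nat_lit 2120) (.e (nat_lit 40992) (nat_lit 10) (.e (nat_lit 8325) (nat_lit 69) (.e (nat_lit 557109) (nat_lit 15) (.e (nat_lit 188461) (nat_lit 26) (.e (nat_lit 253983) (nat_lit 10) .nil))))) .nil)) 
(.lf (nat_lit 142455) (.g (nat_lit 1659) (.e (nat_lit 40995) (nat_lit 11) (.e (nat_lit 24617) (nat_lit 7) (.e (nat_lit 319528) (nat_lit 16) (.e (nat_lit 286759) (nat_lit 12) (.e (nat_lit 385094) (nat_lit 49) .nil))))) .nil))))) (.nd (nat_lit 4) (.nd (nat_lit 5) (.nd (nat_lit 6) 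
(.lf (nat_lit 142351) (.g (nat_lit 2023) (.e (nat_lit 40972) (nat_lit 9) (.e (nat_lit 232) (nat_lit 21) (.e (nat_lit 336060) (nat_lit 7) (.e (nat_lit 319533) (nat_lit 16) (.e (nat_lit 286758) (nat_lit 12) .nil))))) .nil)) 
(.lf (nat_lit 142415) (.g (nat_lit 2350) (.e (nat_lit 40993) (nat_lit 11) (.e (nat_lit 24628) (nat_lit 9) (.e (nat_lit 336369) (nat_lit 27) (.e (nat_lit 426173) (nat_lit 7) (.e (nat_lit 409617) (nat_lit 10) .nil))))) .nil))) (.nd (nat_lit 6) 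
(.lf (nat_lit 142383) (.g (nat_lit 1769) (.e (nat_lit 40991) (nat_lit 10) (.e (nat_lit 8318) (nat_lit 64) (.e (nat_lit 516131) (nat_lit 3) (.e (nat_lit 221212) (nat_lit 22) (.e (nat_lit 196668) (nat_lit 14) .nil))))) .nil)) 
(.lf (nat_lit 142447) (.g (nat_lit 3293) (.e (nat_lit 40994) (nat_lit 11) (.e (nat_lit 24665) (nat_lit 14) (.e (nat_lit 401448) (nat_lit 10) (.e (nat_lit 434275) (nat_lit 39) .nil)))) .nil)))) (.nd (nat_lit 5) (.nd (nat_lit 6) 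
(.lf (nat_lit 142367) (.g (nat_lit 1317) (.e (nat_lit 40972) (nat_lit 9) (.e (nat_lit 297) (nat_lit 22) (.e (nat_lit 344133) (nat_lit 26) (.e (nat_lit 557098) (nat_lit 13) .nil)))) .nil)) 
(.lf (nat_lit 142431) (.g (nat_lit 2322) (.e (nat_lit 40993) (nat_lit 11) (.e (nat_lit 24660) (nat_lit 13) (.e (nat_lit 393260) (nat_lit 21) (.e (nat_lit 409616) (nat_lit 10) (.e (nat_lit 4929) (nat_lit 287) .nil))))) .nil))) (.nd (nat_lit 6) 
(.lf (nat_lit 142399) (.g (nat_lit 1763) (.e (nat_lit 40993) (nat_lit 11) (.e (nat_lit 24617) (nat_lit 7) (.e (nat_lit 319531) (nat_lit 16) (.e (nat_lit 286748) (nat_lit 9) (.e (nat_lit 336295) (nat_lit 15) .nil))))) .nil)) 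
(.lf (nat_lit 142463) (.g (nat_lit 2733) (.e (nat_lit 40995) (nat_lit 11) (.e (nat_lit 24617) (nat_lit 7) (.e (nat_lit 319530) (nat_lit 16) (.e (nat_lit 286759) (nat_lit 12) (.e (nat_lit 385093) (nat_lit 49) (.e (nat_lit 778510) (nat_lit 14) (.e (nat_lit 1146) (nat_lit 85) .nil))))))) (.g (nat_lit 4) .nil .nil))))))))))

noncomputable def tv1891 : DT := (.nd (nat_lit 0) (.nd (nat_lit 1) (.nd (nat_lit 2) (.nd (nat_lit 3) (.nd (nat_lit 4) (.nd (nat_lit 5) (.nd (nat_lit 6) 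
(.lf (nat_lit 142464) (.g (nat_lit 2105) (.e (nat_lit 40995) (nat_lit 11) (.e (nat_lit 24617) (nat_lit 7) (.e (nat_lit 319530) (nat_lit 16) (.e (nat_lit 286759) (nat_lit 12) (.e (nat_lit 385094) (nat_lit 49) .nil))))) .nil)) 
(.lf (nat_lit 142528) (.g (nat_lit 2556) (.e (nat_lit 40995) (nat_lit 11) (.e (nat_lit 24665) (nat_lit 14) (.e (nat_lit 401414) (nat_lit 0) (.e (nat_lit 3459) (nat_lit 216) .nil)))) .nil))) (.nd (nat_lit 6) 
(.lf (nat_lit 142496) (.g (nat_lit 1061) (.e (nat_lit 40995) (nat_lit 11) (.e (nat_lit 24630) (nat_lit 9) (.e (nat_lit 336438) (nat_lit 31) (.e (nat_lit 458769) (nat_lit 16) .nil)))) .nil)) 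
(.lf (nat_lit 142560) (.g (nat_lit 2878) (.e (nat_lit 40996) (nat_lit 11) (.e (nat_lit 24608) (nat_lit 3) (.e (nat_lit 98370) (nat_lit 28) (.e (nat_lit 442430) (nat_lit 24) (.e (nat_lit 229518) (nat_lit 123) .nil))))) .nil)))) (.nd (nat_lit 5) (.nd (nat_lit 6) 
(.lf (nat_lit 142480) (.g (nat_lit 1662) (.e (nat_lit 40995) (nat_lit 11) (.e (nat_lit 24617) (nat_lit 7) (.e (nat_lit 319533) (nat_lit 16) (.e (nat_lit 286758) (nat_lit 12) (.e (nat_lit 385093) (nat_lit 49) .nil))))) .nil)) 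
(.lf (nat_lit 142544) (.g (nat_lit 3583) (.e (nat_lit 40995) (nat_lit 11) (.e (nat_lit 24665) (nat_lit 14) (.e (nat_lit 401460) (nat_lit 14) (.e (nat_lit 491566) (nat_lit 12) (.e (nat_lit 385093) (nat_lit 49) .nil))))) .nil))) (.nd (nat_lit 6) 
(.lf (nat_lit 142512) (.g (nat_lit 2166) (.e (nat_lit 40995) (nat_lit 11) (.e (nat_lit 24660) (nat_lit 13) (.e (nat_lit 393238) (nat_lit 17) (.e (nat_lit 7107) (nat_lit 380) (.e (nat_lit 164262) (nat_lit 221) .nil))))) .nil)) 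
(.lf (nat_lit 142576) (.g (nat_lit 2332) (.e (nat_lit 40996) (nat_lit 11) (.e (nat_lit 24617) (nat_lit 7) (.e (nat_lit 319530) (nat_lit 16) (.e (nat_lit 286759) (nat_lit 12) (.e (nat_lit 385111) (nat_lit 53) .nil))))) .nil))))) (.nd (nat_lit 4) (.nd (nat_lit 5) (.nd (nat_lit 6) 
(.lf (nat_lit 142472) (.g (nat_lit 1178) (.e (nat_lit 40995) (nat_lit 11) (.e (nat_lit 24617) (nat_lit 7) (.e (nat_lit 319532) (nat_lit 16) (.e (nat_lit 286759) (nat_lit 12) .nil)))) .nil)) 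
(.lf (nat_lit 142536) (.g (nat_lit 3111) (.e (nat_lit 40995) (nat_lit 11) (.e (nat_lit 24665) (nat_lit 14) (.e (nat_lit 401448) (nat_lit 10) (.e (nat_lit 434271) (nat_lit 38) (.e (nat_lit 655398) (nat_lit 12) .nil))))) .nil))) (.nd (nat_lit 6) 
(.lf (nat_lit 142504) (.g (nat_lit 918) (.e (nat_lit 40995) (nat_lit 11) (.e (nat_lit 24657) (nat_lit 13) (.e (nat_lit 393259) (nat_lit 21) .nil))) .nil)) 
(.lf (nat_lit 142568) (.g (nat_lit 5652) (.e (nat_lit 40996) (nat_lit 11) (.e (nat_lit 24608) (nat_lit 3) (.e (nat_lit 98373) (nat_lit 29) (.e (nat_lit 450588) (nat_lit 10) (.e (nat_lit 573503) (nat_lit 18) .nil))))) .nil)))) (.nd (nat_lit 5) (.nd (nat_lit 6) 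
(.lf (nat_lit 142488) (.g (nat_lit 2028) (.e (nat_lit 40995) (nat_lit 11) (.e (nat_lit 24617) (nat_lit 7) (.e (nat_lit 319534) (nat_lit 16) (.e (nat_lit 286756) (nat_lit 10) (.e (nat_lit 344169) (nat_lit 40) .nil))))) .nil)) 
(.lf (nat_lit 142552) (.g (nat_lit 1877) (.e (nat_lit 40996) (nat_lit 11) (.e (nat_lit 24604) (nat_lit 2) (.e (nat_lit 90176) (nat_lit 15) (.e (nat_lit 188431) (nat_lit 20) (.e (nat_lit 2403) (nat_lit 157) .nil))))) .nil))) (.nd (nat_lit 6) 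
(.lf (nat_lit 142520) (.g (nat_lit 1925) (.e (nat_lit 40995) (nat_lit 11) (.e (nat_lit 24660) (nat_lit 13) (.e (nat_lit 393260) (nat_lit 21) (.e (nat_lit 409617) (nat_lit 10) (.e (nat_lit 4926) (nat_lit 287) .nil))))) .nil)) 
(.lf (nat_lit 142584) (.g (nat_lit 1593) (.e (nat_lit 40996) (nat_lit 11) (.e (nat_lit 24625) (nat_lit 9) (.e (nat_lit 336438) (nat_lit 31) (.e (nat_lit 458769) (nat_lit 16) .nil)))) .nil)))))) (.nd (nat_lit 3) (.nd (nat_lit 4) (.nd (nat_lit 5) (.nd (nat_lit 6) 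
(.lf (nat_lit 142468) (.g (nat_lit 2159) (.e (nat_lit 40995) (nat_lit 11) (.e (nat_lit 24617) (nat_lit 7) (.e (nat_lit 319531) (nat_lit 16) (.e (nat_lit 286759) (nat_lit 12) (.e (nat_lit 385093) (nat_lit 49) (.e (nat_lit 778510) (nat_lit 14) (.e (nat_lit 1152) (nat_lit 85) .nil))))))) (.g (nat_lit 4) .nil .nil))) 
(.lf (nat_lit 142532) (.g (nat_lit 976) (.e (nat_lit 40995) (nat_lit 11) (.e (nat_lit 24665) (nat_lit 14) (.e (nat_lit 401448) (nat_lit 10) .nil))) .nil))) (.nd (nat_lit 6) 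
(.lf (nat_lit 142500) (.g (nat_lit 1907) (.e (nat_lit 40995) (nat_lit 11) (.e (nat_lit 24655) (nat_lit 13) (.e (nat_lit 393263) (nat_lit 22) (.e (nat_lit 417817) (nat_lit 10) (.e (nat_lit 4859) (nat_lit 287) .nil))))) .nil)) 
(.lf (nat_lit 142564) (.g (nat_lit 5217) (.e (nat_lit 40996) (nat_lit 11) (.e (nat_lit 24608) (nat_lit 3) (.e (nat_lit 98372) (nat_lit 29) (.e (nat_lit 450588) (nat_lit 10) (.e (nat_lit 581376) (nat_lit 18) .nil))))) .nil)))) (.nd (nat_lit 5) (.nd (nat_lit 6) 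
(.lf (nat_lit 142484) (.g (nat_lit 3177) (.e (nat_lit 40995) (nat_lit 11) (.e (nat_lit 24617) (nat_lit 7) (.e (nat_lit 319533) (nat_lit 16) (.e (nat_lit 286759) (nat_lit 12) (.e (nat_lit 385115) (nat_lit 53) (.e (nat_lit 811045) (nat_lit 14) .nil)))))) (.g (nat_lit 0) .nil .nil))) 
(.lf (nat_lit 142548) (.g (nat_lit 619) (.e (nat_lit 40996) (nat_lit 11) (.e (nat_lit 24604) (nat_lit 2) (.e (nat_lit 90176) (nat_lit 15) .nil))) .nil))) (.nd (nat_lit 6) 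
(.lf (nat_lit 142516) (.g (nat_lit 2133) (.e (nat_lit 40995) (nat_lit 11) (.e (nat_lit 24660) (nat_lit 13) (.e (nat_lit 393260) (nat_lit 21) (.e (nat_lit 409614) (nat_lit 10) (.e (nat_lit 4879) (nat_lit 287) .nil))))) .nil)) 
(.lf (nat_lit 142580) (.g (nat_lit 1401) (.e (nat_lit 40996) (nat_lit 11) (.e (nat_lit 24617) (nat_lit 7) (.e (nat_lit 319533) (nat_lit 16) (.e (nat_lit 286758) (nat_lit 12) .nil)))) .nil))))) (.nd (nat_lit 4) (.nd (nat_lit 5) (.nd (nat_lit 6) 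
(.lf (nat_lit 142476) (.g (nat_lit 1345) (.e (nat_lit 40995) (nat_lit 11) (.e (nat_lit 24617) (nat_lit 7) (.e (nat_lit 319533) (nat_lit 16) (.e (nat_lit 286753) (nat_lit 10) .nil)))) .nil)) 
(.lf (nat_lit 142540) (.g (nat_lit 3486) (.e (nat_lit 40995) (nat_lit 11) (.e (nat_lit 24665) (nat_lit 14) (.e (nat_lit 401448) (nat_lit 10) (.e (nat_lit 434275) (nat_lit 39) (.e (nat_lit 663589) (nat_lit 14) .nil))))) .nil))) (.nd (nat_lit 6) 
(.lf (nat_lit 142508) (.g (nat_lit 1547) (.e (nat_lit 40995) (nat_lit 11) (.e (nat_lit 24658) (nat_lit 13) (.e (nat_lit 393234) (nat_lit 17) .nil))) .nil)) 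
(.lf (nat_lit 142572) (.g (nat_lit 2092) (.e (nat_lit 40996) (nat_lit 11) (.e (nat_lit 24617) (nat_lit 7) (.e (nat_lit 319528) (nat_lit 16) (.e (nat_lit 286759) (nat_lit 12) (.e (nat_lit 385111) (nat_lit 53) .nil))))) .nil)))) (.nd (nat_lit 5) (.nd (nat_lit 6) 
(.lf (nat_lit 142492) (.g (nat_lit 2000) (.e (nat_lit 40995) (nat_lit 11) (.e (nat_lit 24617) (nat_lit 7) (.e (nat_lit 319534) (nat_lit 16) (.e (nat_lit 286759) (nat_lit 12) (.e (nat_lit 385111) (nat_lit 53) .nil))))) .nil)) 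
(.lf (nat_lit 142556) (.g (nat_lit 2606) (.e (nat_lit 40996) (nat_lit 11) (.e (nat_lit 24604) (nat_lit 2) (.e (nat_lit 90178) (nat_lit 15) (.e (nat_lit 188440) (nat_lit 20) (.e (nat_lit 3307) (nat_lit 202) .nil))))) .nil))) (.nd (nat_lit 6) 
(.lf (nat_lit 142524) (.g (nat_lit 1762) (.e (nat_lit 40995) (nat_lit 11) (.e (nat_lit 24660) (nat_lit 13) (.e (nat_lit 393260) (nat_lit 21) (.e (nat_lit 409636) (nat_lit 14) (.e (nat_lit 270348) (nat_lit 3) .nil))))) (.g (nat_lit 4) .nil .nil))) 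
(.lf (nat_lit 142588) (.g (nat_lit 886) (.e (nat_lit 40996) (nat_lit 11) (.e (nat_lit 24628) (nat_lit 9) (.e (nat_lit 336438) (nat_lit 31) (.e (nat_lit 458769) (nat_lit 16) .nil)))) .nil))))))) (.nd (nat_lit 2) (.nd (nat_lit 3) (.nd (nat_lit 4) (.nd (nat_lit 5) (.nd (nat_lit 6) 
(.lf (nat_lit 142466) (.g (nat_lit 2140) (.e (nat_lit 40995) (nat_lit 11) (.e (nat_lit 24617) (nat_lit 7) (.e (nat_lit 319531) (nat_lit 16) (.e (nat_lit 286759) (nat_lit 12) (.e (nat_lit 385092) (nat_lit 49) .nil))))) .nil)) 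
(.lf (nat_lit 142530) (.g (nat_lit 2537) (.e (nat_lit 40995) (nat_lit 11) (.e (nat_lit 24665) (nat_lit 14) (.e (nat_lit 401446) (nat_lit 10) (.e (nat_lit 434276) (nat_lit 39) .nil)))) .nil))) (.nd (nat_lit 6) 
(.lf (nat_lit 142498) (.g (nat_lit 673) (.e (nat_lit 40995) (nat_lit 11) (.e (nat_lit 24655) (nat_lit 13) (.e (nat_lit 401152) (nat_lit 17) .nil))) .nil)) 
(.lf (nat_lit 142562) (.g (nat_lit 2861) (.e (nat_lit 40996) (nat_lit 11) (.e (nat_lit 24608) (nat_lit 3) (.e (nat_lit 98372) (nat_lit 29) (.e (nat_lit 458496) (nat_lit 8) .nil)))) .nil)))) (.nd (nat_lit 5) (.nd (nat_lit 6) 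
(.lf (nat_lit 142482) (.g (nat_lit 2521) (.e (nat_lit 40995) (nat_lit 11) (.e (nat_lit 24617) (nat_lit 7) (.e (nat_lit 319533) (nat_lit 16) (.e (nat_lit 286758) (nat_lit 12) (.e (nat_lit 385115) (nat_lit 53) (.e (nat_lit 811045) (nat_lit 14) .nil)))))) (.g (nat_lit 0) .nil .nil))) 
(.lf (nat_lit 142546) (.g (nat_lit 3418) (.e (nat_lit 40996) (nat_lit 11) (.e (nat_lit 24604) (nat_lit 2) (.e (nat_lit 90170) (nat_lit 13) (.e (nat_lit 172106) (nat_lit 10) (.e (nat_lit 434241) (nat_lit 27) .nil))))) .nil))) (.nd (nat_lit 6) 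
(.lf (nat_lit 142514) (.g (nat_lit 183) (.e (nat_lit 40995) (nat_lit 11) (.e (nat_lit 24660) (nat_lit 13) (.e (nat_lit 393260) (nat_lit 21) .nil))) .nil)) 
(.lf (nat_lit 142578) (.g (nat_lit 1251) (.e (nat_lit 40996) (nat_lit 11) (.e (nat_lit 24617) (nat_lit 7) (.e (nat_lit 319531) (nat_lit 16) (.e (nat_lit 286748) (nat_lit 9) .nil)))) .nil))))) (.nd (nat_lit 4) (.nd (nat_lit 5) (.nd (nat_lit 6) 
(.lf (nat_lit 142474) (.g (nat_lit 1955) (.e (nat_lit 40995) (nat_lit 11) (.e (nat_lit 24617) (nat_lit 7) (.e (nat_lit 319532) (nat_lit 16) (.e (nat_lit 286759) (nat_lit 12) (.e (nat_lit 385113) (nat_lit 53) .nil))))) .nil)) 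
(.lf (nat_lit 142538) (.g (nat_lit 2885) (.e (nat_lit 40995) (nat_lit 11) (.e (nat_lit 24665) (nat_lit 14) (.e (nat_lit 401448) (nat_lit 10) (.e (nat_lit 434274) (nat_lit 39) .nil)))) .nil))) (.nd (nat_lit 6) 
(.lf (nat_lit 142506) (.g (nat_lit 1233) (.e (nat_lit 40995) (nat_lit 11) (.e (nat_lit 24657) (nat_lit 13) (.e (nat_lit 393283) (nat_lit 24) (.e (nat_lit 434268) (nat_lit 36) .nil)))) .nil)) 
(.lf (nat_lit 142570) (.g (nat_lit 1081) (.e (nat_lit 40996) (nat_lit 11) (.e (nat_lit 24608) (nat_lit 3) (.e (nat_lit 98381) (nat_lit 31) (.e (nat_lit 466967) (nat_lit 20) .nil)))) .nil)))) (.nd (nat_lit 5) (.nd (nat_lit 6) 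
(.lf (nat_lit 142490) (.g (nat_lit 2867) (.e (nat_lit 40995) (nat_lit 11) (.e (nat_lit 24617) (nat_lit 7) (.e (nat_lit 319534) (nat_lit 16) (.e (nat_lit 286759) (nat_lit 12) (.e (nat_lit 385093) (nat_lit 49) (.e (nat_lit 778510) (nat_lit 14) (.e (nat_lit 1146) (nat_lit 85) .nil))))))) (.g (nat_lit 5) .nil .nil))) 
(.lf (nat_lit 142554) (.g (nat_lit 2172) (.e (nat_lit 40996) (nat_lit 11) (.e (nat_lit 24604) (nat_lit 2) (.e (nat_lit 90176) (nat_lit 15) (.e (nat_lit 188453) (nat_lit 24) (.e (nat_lit 229518) (nat_lit 123) .nil))))) .nil))) (.nd (nat_lit 6) 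
(.lf (nat_lit 142522) (.g (nat_lit 821) (.e (nat_lit 40995) (nat_lit 11) (.e (nat_lit 24660) (nat_lit 13) (.e (nat_lit 393260) (nat_lit 21) (.e (nat_lit 409618) (nat_lit 10) .nil)))) .nil)) 
(.lf (nat_lit 142586) (.g (nat_lit 897) (.e (nat_lit 40996) (nat_lit 11) (.e (nat_lit 24627) (nat_lit 9) (.e (nat_lit 336438) (nat_lit 31) (.e (nat_lit 458769) (nat_lit 16) .nil)))) .nil)))))) (.nd (nat_lit 3) (.nd (nat_lit 4) (.nd (nat_lit 5) (.nd (nat_lit 6) 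
(.lf (nat_lit 142470) (.g (nat_lit 2083) (.e (nat_lit 40995) (nat_lit 11) (.e (nat_lit 24617) (nat_lit 7) (.e (nat_lit 319531) (nat_lit 16) (.e (nat_lit 286759) (nat_lit 12) (.e (nat_lit 385094) (nat_lit 49) (.e (nat_lit 778548) (nat_lit 14) (.e (nat_lit 1146) (nat_lit 85) .nil))))))) (.g (nat_lit 4) .nil .nil))) 
(.lf (nat_lit 142534) (.g (nat_lit 3013) (.e (nat_lit 40995) (nat_lit 11) (.e (nat_lit 24665) (nat_lit 14) (.e (nat_lit 401448) (nat_lit 10) (.e (nat_lit 434270) (nat_lit 38) (.e (nat_lit 655398) (nat_lit 12) .nil))))) .nil))) (.nd (nat_lit 6) 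
(.lf (nat_lit 142502) (.g (nat_lit 889) (.e (nat_lit 40995) (nat_lit 11) (.e (nat_lit 24655) (nat_lit 13) (.e (nat_lit 393299) (nat_lit 27) .nil))) .nil)) 
(.lf (nat_lit 142566) (.g (nat_lit 2220) (.e (nat_lit 40996) (nat_lit 11) (.e (nat_lit 24608) (nat_lit 3) (.e (nat_lit 98373) (nat_lit 29) (.e (nat_lit 450587) (nat_lit 10) .nil)))) .nil)))) (.nd (nat_lit 5) (.nd (nat_lit 6) 
(.lf (nat_lit 142486) (.g (nat_lit 2058) (.e (nat_lit 40995) (nat_lit 11) (.e (nat_lit 24617) (nat_lit 7) (.e (nat_lit 319534) (nat_lit 16) (.e (nat_lit 286756) (nat_lit 10) (.e (nat_lit 344160) (nat_lit 37) .nil))))) .nil)) 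
(.lf (nat_lit 142550) (.g (nat_lit 1339) (.e (nat_lit 40996) (nat_lit 11) (.e (nat_lit 24604) (nat_lit 2) (.e (nat_lit 90176) (nat_lit 15) (.e (nat_lit 196352) (nat_lit 7) .nil)))) .nil))) (.nd (nat_lit 6) 
(.lf (nat_lit 142518) (.g (nat_lit 2127) (.e (nat_lit 40995) (nat_lit 11) (.e (nat_lit 24660) (nat_lit 13) (.e (nat_lit 393260) (nat_lit 21) (.e (nat_lit 409616) (nat_lit 10) (.e (nat_lit 4978) (nat_lit 287) .nil))))) .nil)) 
(.lf (nat_lit 142582) (.g (nat_lit 2035) (.e (nat_lit 40996) (nat_lit 11) (.e (nat_lit 24617) (nat_lit 7) (.e (nat_lit 319534) (nat_lit 16) (.e (nat_lit 286759) (nat_lit 12) (.e (nat_lit 385111) (nat_lit 53) .nil))))) .nil))))) (.nd (nat_lit 4) (.nd (nat_lit 5) (.nd (nat_lit 6) 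
(.lf (nat_lit 142478) (.g (nat_lit 2033) (.e (nat_lit 40995) (nat_lit 11) (.e (nat_lit 24617) (nat_lit 7) (.e (nat_lit 319533) (nat_lit 16) (.e (nat_lit 286753) (nat_lit 10) (.e (nat_lit 344169) (nat_lit 40) .nil))))) .nil)) 
(.lf (nat_lit 142542) (.g (nat_lit 2891) (.e (nat_lit 40995) (nat_lit 11) (.e (nat_lit 24665) (nat_lit 14) (.e (nat_lit 401448) (nat_lit 10) (.e (nat_lit 434276) (nat_lit 39) .nil)))) .nil))) (.nd (nat_lit 6) 
(.lf (nat_lit 142510) (.g (nat_lit 3239) (.e (nat_lit 40995) (nat_lit 11) (.e (nat_lit 24658) (nat_lit 13) (.e (nat_lit 393301) (nat_lit 27) (.e (nat_lit 491544) (nat_lit 7) .nil)))) .nil)) 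
(.lf (nat_lit 142574) (.g (nat_lit 563) (.e (nat_lit 40996) (nat_lit 11) (.e (nat_lit 24617) (nat_lit 7) (.e (nat_lit 319530) (nat_lit 16) .nil))) .nil)))) (.nd (nat_lit 5) (.nd (nat_lit 6) 
(.lf (nat_lit 142494) (.g (nat_lit 394) (.e (nat_lit 40995) (nat_lit 11) (.e (nat_lit 24628) (nat_lit 9) (.e (nat_lit 336438) (nat_lit 31) .nil))) .nil)) 
(.lf (nat_lit 142558) (.g (nat_lit 1470) (.e (nat_lit 40996) (nat_lit 11) (.e (nat_lit 24608) (nat_lit 3) (.e (nat_lit 98369) (nat_lit 28) (.e (nat_lit 442381) (nat_lit 7) .nil)))) .nil))) (.nd (nat_lit 6) 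
(.lf (nat_lit 142526) (.g (nat_lit 1928) (.e (nat_lit 40995) (nat_lit 11) (.e (nat_lit 24660) (nat_lit 13) (.e (nat_lit 393260) (nat_lit 21) (.e (nat_lit 409638) (nat_lit 15) .nil)))) .nil)) 
(.lf (nat_lit 142590) (.g (nat_lit 1695) (.e (nat_lit 40996) (nat_lit 11) (.e (nat_lit 24640) (nat_lit 10) (.e (nat_lit 344177) (nat_lit 43) (.e (nat_lit 770072) (nat_lit 8) .nil)))) .nil)))))))) (.nd (nat_lit 1) (.nd (nat_lit 2) (.nd (nat_lit 3) (.nd (nat_lit 4) (.nd (nat_lit 5) (.nd (nat_lit 6) 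
(.lf (nat_lit 142465) (.g (nat_lit 1210) (.e (nat_lit 40995) (nat_lit 11) (.e (nat_lit 24617) (nat_lit 7) (.e (nat_lit 319531) (nat_lit 16) (.e (nat_lit 286759) (nat_lit 12) .nil)))) .nil)) 
(.lf (nat_lit 142529) (.g (nat_lit 2568) (.e (nat_lit 40995) (nat_lit 11) (.e (nat_lit 24665) (nat_lit 14) (.e (nat_lit 401446) (nat_lit 10) (.e (nat_lit 434275) (nat_lit 39) .nil)))) .nil))) (.nd (nat_lit 6) 
(.lf (nat_lit 142497) (.g (nat_lit 791) (.e (nat_lit 40995) (nat_lit 11) (.e (nat_lit 24640) (nat_lit 10) (.e (nat_lit 344177) (nat_lit 43) .nil))) .nil)) 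
(.lf (nat_lit 142561) (.g (nat_lit 1494) (.e (nat_lit 40996) (nat_lit 11) (.e (nat_lit 24608) (nat_lit 3) (.e (nat_lit 98372) (nat_lit 29) .nil))) .nil)))) (.nd (nat_lit 5) (.nd (nat_lit 6) 
(.lf (nat_lit 142481) (.g (nat_lit 2697) (.e (nat_lit 40995) (nat_lit 11) (.e (nat_lit 24617) (nat_lit 7) (.e (nat_lit 319533) (nat_lit 16) (.e (nat_lit 286758) (nat_lit 12) (.e (nat_lit 385093) (nat_lit 49) (.e (nat_lit 778510) (nat_lit 14) (.e (nat_lit 1146) (nat_lit 85) .nil))))))) (.g (nat_lit 5) .nil .nil))) 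
(.lf (nat_lit 142545) (.g (nat_lit 509) (.e (nat_lit 40996) (nat_lit 11) (.e (nat_lit 24584) (nat_lit 0) (.e (nat_lit 6113) (nat_lit 332) .nil))) .nil))) (.nd (nat_lit 6) 
(.lf (nat_lit 142513) (.g (nat_lit 1036) (.e (nat_lit 40995) (nat_lit 11) (.e (nat_lit 24660) (nat_lit 13) (.e (nat_lit 393259) (nat_lit 21) (.e (nat_lit 409618) (nat_lit 10) .nil)))) .nil)) 
(.lf (nat_lit 142577) (.g (nat_lit 2902) (.e (nat_lit 40996) (nat_lit 11) (.e (nat_lit 24617) (nat_lit 7) (.e (nat_lit 319530) (nat_lit 16) (.e (nat_lit 286759) (nat_lit 12) (.e (nat_lit 385115) (nat_lit 53) (.e (nat_lit 811045) (nat_lit 14) .nil)))))) (.g (nat_lit 5) .nil .nil)))))) (.nd (nat_lit 4) (.nd (nat_lit 5) (.nd (nat_lit 6) 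
(.lf (nat_lit 142473) (.g (nat_lit 2047) (.e (nat_lit 40995) (nat_lit 11) (.e (nat_lit 24617) (nat_lit 7) (.e (nat_lit 319532) (nat_lit 16) (.e (nat_lit 286759) (nat_lit 12) (.e (nat_lit 385093) (nat_lit 49) (.e (nat_lit 778510) (nat_lit 14) (.e (nat_lit 1146) (nat_lit 85) .nil))))))) (.g (nat_lit 4) .nil .nil))) 
(.lf (nat_lit 142537) (.g (nat_lit 2668) (.e (nat_lit 40995) (nat_lit 11) (.e (nat_lit 24665) (nat_lit 14) (.e (nat_lit 401448) (nat_lit 10) (.e (nat_lit 434272) (nat_lit 38) .nil)))) .nil))) (.nd (nat_lit 6) 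
(.lf (nat_lit 142505) (.g (nat_lit 916) (.e (nat_lit 40995) (nat_lit 11) (.e (nat_lit 24657) (nat_lit 13) (.e (nat_lit 393263) (nat_lit 22) .nil))) .nil)) 
(.lf (nat_lit 142569) (.g (nat_lit 6237) (.e (nat_lit 40996) (nat_lit 11) (.e (nat_lit 24608) (nat_lit 3) (.e (nat_lit 98373) (nat_lit 29) (.e (nat_lit 450588) (nat_lit 10) (.e (nat_lit 573505) (nat_lit 18) .nil))))) .nil)))) (.nd (nat_lit 5) (.nd (nat_lit 6) 
(.lf (nat_lit 142489) (.g (nat_lit 2034) (.e (nat_lit 40995) (nat_lit 11) (.e (nat_lit 24617) (nat_lit 7) (.e (nat_lit 319534) (nat_lit 16) (.e (nat_lit 286759) (nat_lit 12) (.e (nat_lit 385092) (nat_lit 49) (.e (nat_lit 778510) (nat_lit 14) (.e (nat_lit 1146) (nat_lit 85) .nil))))))) (.g (nat_lit 4) .nil .nil))) 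
(.lf (nat_lit 142553) (.g (nat_lit 1892) (.e (nat_lit 40996) (nat_lit 11) (.e (nat_lit 24604) (nat_lit 2) (.e (nat_lit 90176) (nat_lit 15) (.e (nat_lit 188431) (nat_lit 20) (.e (nat_lit 2403) (nat_lit 157) (.e (nat_lit 4132) (nat_lit 246) (.e (nat_lit 8299) (nat_lit 54) .nil))))))) (.g (nat_lit 4) .nil .nil)))) (.nd (nat_lit 6) 
(.lf (nat_lit 142521) (.g (nat_lit 2000) (.e (nat_lit 40995) (nat_lit 11) (.e (nat_lit 24660) (nat_lit 13) (.e (nat_lit 393260) (nat_lit 21) (.e (nat_lit 409617) (nat_lit 10) (.e (nat_lit 4926) (nat_lit 287) (.e (nat_lit 2577) (nat_lit 161) .nil)))))) (.g (nat_lit 4) .nil .nil))) 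
(.lf (nat_lit 142585) (.g (nat_lit 263) (.e (nat_lit 40996) (nat_lit 11) (.e (nat_lit 24626) (nat_lit 9) (.e (nat_lit 336438) (nat_lit 31) .nil))) .nil)))))) (.nd (nat_lit 3) (.nd (nat_lit 4) (.nd (nat_lit 5) (.nd (nat_lit 6) 
(.lf (nat_lit 142469) (.g (nat_lit 1848) (.e (nat_lit 40995) (nat_lit 11) (.e (nat_lit 24617) (nat_lit 7) (.e (nat_lit 319531) (nat_lit 16) (.e (nat_lit 286759) (nat_lit 12) (.e (nat_lit 385094) (nat_lit 49) .nil))))) .nil)) 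
(.lf (nat_lit 142533) (.g (nat_lit 2891) (.e (nat_lit 40995) (nat_lit 11) (.e (nat_lit 24665) (nat_lit 14) (.e (nat_lit 401448) (nat_lit 10) (.e (nat_lit 434270) (nat_lit 38) .nil)))) .nil))) (.nd (nat_lit 6) 
(.lf (nat_lit 142501) (.g (nat_lit 955) (.e (nat_lit 40995) (nat_lit 11) (.e (nat_lit 24655) (nat_lit 13) (.e (nat_lit 393264) (nat_lit 22) .nil))) .nil)) 
(.lf (nat_lit 142565) (.g (nat_lit 1108) (.e (nat_lit 40996) (nat_lit 11) (.e (nat_lit 24608) (nat_lit 3) (.e (nat_lit 98373) (nat_lit 29) .nil))) .nil)))) (.nd (nat_lit 5) (.nd (nat_lit 6) 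
(.lf (nat_lit 142485) (.g (nat_lit 2115) (.e (nat_lit 40995) (nat_lit 11) (.e (nat_lit 24617) (nat_lit 7) (.e (nat_lit 319534) (nat_lit 16) (.e (nat_lit 286748) (nat_lit 9) (.e (nat_lit 336295) (nat_lit 15) .nil))))) .nil)) 
(.lf (nat_lit 142549) (.g (nat_lit 1339) (.e (nat_lit 40996) (nat_lit 11) (.e (nat_lit 24604) (nat_lit 2) (.e (nat_lit 90176) (nat_lit 15) (.e (nat_lit 196352) (nat_lit 0) .nil)))) .nil))) (.nd (nat_lit 6) 
(.lf (nat_lit 142517) (.g (nat_lit 2088) (.e (nat_lit 40995) (nat_lit 11) (.e (nat_lit 24660) (nat_lit 13) (.e (nat_lit 393260) (nat_lit 21) (.e (nat_lit 409616) (nat_lit 10) (.e (nat_lit 4926) (nat_lit 287) .nil))))) .nil)) 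
(.lf (nat_lit 142581) (.g (nat_lit 2288) (.e (nat_lit 40996) (nat_lit 11) (.e (nat_lit 24617) (nat_lit 7) (.e (nat_lit 319534) (nat_lit 16) (.e (nat_lit 286748) (nat_lit 9) (.e (nat_lit 336295) (nat_lit 15) (.e (nat_lit 3806) (nat_lit 231) (.e (nat_lit 811045) (nat_lit 14) .nil))))))) (.g (nat_lit 4) .nil .nil)))))) (.nd (nat_lit 4) (.nd (nat_lit 5) (.nd (nat_lit 6) 
(.lf (nat_lit 142477) (.g (nat_lit 1910) (.e (nat_lit 40995) (nat_lit 11) (.e (nat_lit 24617) (nat_lit 7) (.e (nat_lit 319533) (nat_lit 16) (.e (nat_lit 286753) (nat_lit 10) (.e (nat_lit 344168) (nat_lit 40) .nil))))) .nil)) 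
(.lf (nat_lit 142541) (.g (nat_lit 3487) (.e (nat_lit 40995) (nat_lit 11) (.e (nat_lit 24665) (nat_lit 14) (.e (nat_lit 401448) (nat_lit 10) (.e (nat_lit 434275) (nat_lit 39) (.e (nat_lit 663589) (nat_lit 14) (.e (nat_lit 2578) (nat_lit 161) (.e (nat_lit 41008) (nat_lit 14) (.e (nat_lit 1146) (nat_lit 85) .nil)))))))) (.g (nat_lit 4) .nil .nil)))) (.nd (nat_lit 6) 
(.lf (nat_lit 142509) (.g (nat_lit 1332) (.e (nat_lit 40995) (nat_lit 11) (.e (nat_lit 24658) (nat_lit 13) (.e (nat_lit 393301) (nat_lit 27) .nil))) .nil)) 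
(.lf (nat_lit 142573) (.g (nat_lit 1943) (.e (nat_lit 40996) (nat_lit 11) (.e (nat_lit 24617) (nat_lit 7) (.e (nat_lit 319529) (nat_lit 16) (.e (nat_lit 286759) (nat_lit 12) (.e (nat_lit 385113) (nat_lit 53) .nil))))) .nil)))) (.nd (nat_lit 5) (.nd (nat_lit 6) 
(.lf (nat_lit 142493) (.g (nat_lit 687) (.e (nat_lit 40995) (nat_lit 11) (.e (nat_lit 24627) (nat_lit 9) (.e (nat_lit 336438) (nat_lit 31) (.e (nat_lit 458769) (nat_lit 16) .nil)))) .nil)) 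
(.lf (nat_lit 142557) (.g (nat_lit 1509) (.e (nat_lit 40996) (nat_lit 11) (.e (nat_lit 24604) (nat_lit 2) (.e (nat_lit 90178) (nat_lit 15) (.e (nat_lit 188442) (nat_lit 20) .nil)))) .nil))) (.nd (nat_lit 6) 
(.lf (nat_lit 142525) (.g (nat_lit 2127) (.e (nat_lit 40995) (nat_lit 11) (.e (nat_lit 24660) (nat_lit 13) (.e (nat_lit 393260) (nat_lit 21) (.e (nat_lit 409637) (nat_lit 15) .nil)))) .nil)) 
(.lf (nat_lit 142589) (.g (nat_lit 1906) (.e (nat_lit 40996) (nat_lit 11) (.e (nat_lit 24630) (nat_lit 9) (.e (nat_lit 336369) (nat_lit 27) (.e (nat_lit 426173) (nat_lit 7) (.e (nat_lit 409617) (nat_lit 10) (.e (nat_lit 4934) (nat_lit 287) (.e (nat_lit 2577) (nat_lit 161) .nil))))))) (.g (nat_lit 4) .nil .nil)))))))) 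
(.nd (nat_lit 2) (.nd (nat_lit 3) (.nd (nat_lit 4) (.nd (nat_lit 5) (.nd (nat_lit 6) 
(.lf (nat_lit 142467) (.g (nat_lit 3145) (.e (nat_lit 40995) (nat_lit 11) (.e (nat_lit 24617) (nat_lit 7) (.e (nat_lit 319531) (nat_lit 16) (.e (nat_lit 286759) (nat_lit 12) (.e (nat_lit 385093) (nat_lit 49) (.e (nat_lit 778510) (nat_lit 14) (.e (nat_lit 1146) (nat_lit 85) .nil))))))) (.g (nat_lit 5) .nil .nil))) 
(.lf (nat_lit 142531) (.g (nat_lit 1202) (.e (nat_lit 40995) (nat_lit 11) (.e (nat_lit 24665) (nat_lit 14) (.e (nat_lit 401447) (nat_lit 10) .nil))) .nil))) (.nd (nat_lit 6) 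
(.lf (nat_lit 142499) (.g (nat_lit 1445) (.e (nat_lit 40995) (nat_lit 11) (.e (nat_lit 24655) (nat_lit 13) (.e (nat_lit 393263) (nat_lit 22) (.e (nat_lit 417817) (nat_lit 10) .nil)))) .nil)) 
(.lf (nat_lit 142563) (.g (nat_lit 2664) (.e (nat_lit 40996) (nat_lit 11) (.e (nat_lit 24608) (nat_lit 3) (.e (nat_lit 98372) (nat_lit 29) (.e (nat_lit 450586) (nat_lit 10) .nil)))) .nil)))) (.nd (nat_lit 5) (.nd (nat_lit 6) 
(.lf (nat_lit 142483) (.g (nat_lit 1265) (.e (nat_lit 40995) (nat_lit 11) (.e (nat_lit 24617) (nat_lit 7) (.e (nat_lit 319533) (nat_lit 16) (.e (nat_lit 286759) (nat_lit 12) .nil)))) .nil)) 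
(.lf (nat_lit 142547) (.g (nat_lit 2540) (.e (nat_lit 40996) (nat_lit 11) (.e (nat_lit 24604) (nat_lit 2) (.e (nat_lit 90170) (nat_lit 13) (.e (nat_lit 172106) (nat_lit 10) (.e (nat_lit 434244) (nat_lit 28) .nil))))) .nil))) (.nd (nat_lit 6) 
(.lf (nat_lit 142515) (.g (nat_lit 1333) (.e (nat_lit 40995) (nat_lit 11) (.e (nat_lit 24660) (nat_lit 13) (.e (nat_lit 393260) (nat_lit 21) (.e (nat_lit 409608) (nat_lit 10) .nil)))) .nil)) 
(.lf (nat_lit 142579) (.g (nat_lit 2978) (.e (nat_lit 40996) (nat_lit 11) (.e (nat_lit 24617) (nat_lit 7) (.e (nat_lit 319531) (nat_lit 16) (.e (nat_lit 286759) (nat_lit 12) (.e (nat_lit 385115) (nat_lit 53) (.e (nat_lit 811045) (nat_lit 14) .nil)))))) (.g (nat_lit 0) .nil .nil)))))) (.nd (nat_lit 4) (.nd (nat_lit 5) (.nd (nat_lit 6) 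
(.lf (nat_lit 142475) (.g (nat_lit 1943) (.e (nat_lit 40995) (nat_lit 11) (.e (nat_lit 24617) (nat_lit 7) (.e (nat_lit 319532) (nat_lit 16) (.e (nat_lit 286759) (nat_lit 12) (.e (nat_lit 385114) (nat_lit 53) .nil))))) .nil)) 
(.lf (nat_lit 142539) (.g (nat_lit 2856) (.e (nat_lit 40995) (nat_lit 11) (.e (nat_lit 24665) (nat_lit 14) (.e (nat_lit 401448) (nat_lit 10) (.e (nat_lit 434275) (nat_lit 39) .nil)))) .nil))) (.nd (nat_lit 6) 
(.lf (nat_lit 142507) (.g (nat_lit 1972) (.e (nat_lit 40995) (nat_lit 11) (.e (nat_lit 24657) (nat_lit 13) (.e (nat_lit 393283) (nat_lit 24) (.e (nat_lit 434268) (nat_lit 36) (.e (nat_lit 638978) (nat_lit 0) .nil))))) .nil)) 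
(.lf (nat_lit 142571) (.g (nat_lit 2076) (.e (nat_lit 40996) (nat_lit 11) (.e (nat_lit 24617) (nat_lit 7) (.e (nat_lit 319528) (nat_lit 16) (.e (nat_lit 286748) (nat_lit 9) (.e (nat_lit 336295) (nat_lit 15) (.e (nat_lit 3806) (nat_lit 231) (.e (nat_lit 811045) (nat_lit 14) .nil))))))) (.g (nat_lit 4) .nil .nil))))) (.nd (nat_lit 5) (.nd (nat_lit 6) 
(.lf (nat_lit 142491) (.g (nat_lit 1556) (.e (nat_lit 40995) (nat_lit 11) (.e (nat_lit 24617) (nat_lit 7) (.e (nat_lit 319534) (nat_lit 16) (.e (nat_lit 286759) (nat_lit 12) (.e (nat_lit 385094) (nat_lit 49) .nil))))) .nil)) 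
(.lf (nat_lit 142555) (.g (nat_lit 1431) (.e (nat_lit 40996) (nat_lit 11) (.e (nat_lit 24604) (nat_lit 2) (.e (nat_lit 90178) (nat_lit 15) (.e (nat_lit 196352) (nat_lit 7) .nil)))) .nil))) (.nd (nat_lit 6) 
(.lf (nat_lit 142523) (.g (nat_lit 1178) (.e (nat_lit 40995) (nat_lit 11) (.e (nat_lit 24660) (nat_lit 13) (.e (nat_lit 393260) (nat_lit 21) (.e (nat_lit 417536) (nat_lit 10) .nil)))) .nil)) 
(.lf (nat_lit 142587) (.g (nat_lit 2358) (.e (nat_lit 40996) (nat_lit 11) (.e (nat_lit 24628) (nat_lit 9) (.e (nat_lit 336369) (nat_lit 27) (.e (nat_lit 426173) (nat_lit 7) (.e (nat_lit 409617) (nat_lit 10) .nil))))) .nil)))))) (.nd (nat_lit 3) (.nd (nat_lit 4) (.nd (nat_lit 5) (.nd (nat_lit 6) 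
(.lf (nat_lit 142471) (.g (nat_lit 2800) (.e (nat_lit 40995) (nat_lit 11) (.e (nat_lit 24617) (nat_lit 7) (.e (nat_lit 319531) (nat_lit 16) (.e (nat_lit 286759) (nat_lit 12) (.e (nat_lit 385115) (nat_lit 53) (.e (nat_lit 811045) (nat_lit 14) .nil)))))) (.g (nat_lit 0) .nil .nil))) 
(.lf (nat_lit 142535) (.g (nat_lit 2583) (.e (nat_lit 40995) (nat_lit 11) (.e (nat_lit 24665) (nat_lit 14) (.e (nat_lit 401448) (nat_lit 10) (.e (nat_lit 434271) (nat_lit 38) .nil)))) .nil))) (.nd (nat_lit 6) 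
(.lf (nat_lit 142503) (.g (nat_lit 125) (.e (nat_lit 40995) (nat_lit 11) (.e (nat_lit 24656) (nat_lit 13) (.e (nat_lit 401152) (nat_lit 17) .nil))) .nil)) 
(.lf (nat_lit 142567) (.g (nat_lit 5293) (.e (nat_lit 40996) (nat_lit 11) (.e (nat_lit 24608) (nat_lit 3) (.e (nat_lit 98373) (nat_lit 29) (.e (nat_lit 450587) (nat_lit 10) (.e (nat_lit 573499) (nat_lit 18) .nil))))) .nil)))) (.nd (nat_lit 5) (.nd (nat_lit 6) 
(.lf (nat_lit 142487) (.g (nat_lit 2249) (.e (nat_lit 40995) (nat_lit 11) (.e (nat_lit 24617) (nat_lit 7) (.e (nat_lit 319534) (nat_lit 16) (.e (nat_lit 286756) (nat_lit 10) (.e (nat_lit 344168) (nat_lit 40) .nil))))) .nil)) 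
(.lf (nat_lit 142551) (.g (nat_lit 2147) (.e (nat_lit 40996) (nat_lit 11) (.e (nat_lit 24604) (nat_lit 2) (.e (nat_lit 90176) (nat_lit 15) (.e (nat_lit 188431) (nat_lit 20) (.e (nat_lit 2402) (nat_lit 157) (.e (nat_lit 4132) (nat_lit 246) (.e (nat_lit 8299) (nat_lit 54) .nil))))))) (.g (nat_lit 4) .nil .nil)))) (.nd (nat_lit 6) 
(.lf (nat_lit 142519) (.g (nat_lit 1717) (.e (nat_lit 40995) (nat_lit 11) (.e (nat_lit 24660) (nat_lit 13) (.e (nat_lit 393260) (nat_lit 21) (.e (nat_lit 409616) (nat_lit 10) (.e (nat_lit 7936) (nat_lit 287) .nil))))) .nil)) 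
(.lf (nat_lit 142583) (.g (nat_lit 2208) (.e (nat_lit 40996) (nat_lit 11) (.e (nat_lit 24623) (nat_lit 9) (.e (nat_lit 336369) (nat_lit 27) (.e (nat_lit 426173) (nat_lit 7) (.e (nat_lit 409617) (nat_lit 10) .nil))))) .nil))))) (.nd (nat_lit 4) (.nd (nat_lit 5) (.nd (nat_lit 6) 
(.lf (nat_lit 142479) (.g (nat_lit 1405) (.e (nat_lit 40995) (nat_lit 11) (.e (nat_lit 24617) (nat_lit 7) (.e (nat_lit 319533) (nat_lit 16) (.e (nat_lit 286758) (nat_lit 12) .nil)))) .nil)) 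
(.lf (nat_lit 142543) (.g (nat_lit 3395) (.e (nat_lit 40995) (nat_lit 11) (.e (nat_lit 24665) (nat_lit 14) (.e (nat_lit 401448) (nat_lit 10) (.e (nat_lit 434276) (nat_lit 39) (.e (nat_lit 663585) (nat_lit 12) .nil))))) .nil))) (.nd (nat_lit 6) 
(.lf (nat_lit 142511) (.g (nat_lit 2031) (.e (nat_lit 40995) (nat_lit 11) (.e (nat_lit 24660) (nat_lit 13) (.e (nat_lit 393238) (nat_lit 17) (.e (nat_lit 7107) (nat_lit 380) (.e (nat_lit 164261) (nat_lit 221) .nil))))) .nil)) 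
(.lf (nat_lit 142575) (.g (nat_lit 2679) (.e (nat_lit 40996) (nat_lit 11) (.e (nat_lit 24617) (nat_lit 7) (.e (nat_lit 319530) (nat_lit 16) (.e (nat_lit 286748) (nat_lit 9) (.e (nat_lit 336295) (nat_lit 15) (.e (nat_lit 3806) (nat_lit 231) (.e (nat_lit 811045) (nat_lit 14) .nil))))))) (.g (nat_lit 5) .nil .nil))))) (.nd (nat_lit 5) (.nd (nat_lit 6) 
(.lf (nat_lit 142495) (.g (nat_lit 1833) (.e (nat_lit 40995) (nat_lit 11) (.e (nat_lit 24630) (nat_lit 9) (.e (nat_lit 336369) (nat_lit 27) (.e (nat_lit 426173) (nat_lit 7) (.e (nat_lit 409617) (nat_lit 10) .nil))))) .nil)) 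
(.lf (nat_lit 142559) (.g (nat_lit 1065) (.e (nat_lit 40996) (nat_lit 11) (.e (nat_lit 24608) (nat_lit 3) (.e (nat_lit 98370) (nat_lit 28) .nil))) .nil))) (.nd (nat_lit 6) 
(.lf (nat_lit 142527) (.g (nat_lit 1756) (.e (nat_lit 40995) (nat_lit 11) (.e (nat_lit 24660) (nat_lit 13) (.e (nat_lit 393260) (nat_lit 21) (.e (nat_lit 409639) (nat_lit 15) .nil)))) .nil)) 
(.lf (nat_lit 142591) (.g (nat_lit 265) (.e (nat_lit 40996) (nat_lit 11) (.e (nat_lit 24654) (nat_lit 13) (.e (nat_lit 393260) (nat_lit 21) .nil))) .nil)))))))))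


end

end Pool.Agent.Lib.MP_5854e1_co.Cz
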